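import Pool.Agent.Lib.MP_5854e1_co.DtD

/-!
# Windows and cells of the rings
-/

set_option autoImplicit false
set_option maxRecDepth 100000
set_option deprecated.oldSectionVars true

namespace Pool.Agent.Lib.MP_5854e1_co.Cz

open Pool.Agent.Lib.MP_5854e1_co

noncomputable section

noncomputable def tv5640 : DT := (.nd (nat_lit 0) (.nd (nat_lit 1) (.nd (nat_lit 2) (.nd (nat_lit 3) (.nd (nat_lit 4) (.nd (nat_lit 5) (.nd (nat_lit 6) (.nd (nat_lit 7) (.nd (nat_lit 8) (.nd (nat_lit 9) 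
(.lf (nat_lit 593920) (.g (nat_lit 1792) (.e (nat_lit 516117) (nat_lit 1) (.e (nat_lit 164330) (nat_lit 230) (.e (nat_lit 163902) (nat_lit 12) (.e (nat_lit 426567) (nat_lit 34) .nil)))) (.g (nat_lit 0) (.e (nat_lit 405867) (nat_lit 0) .nil) .nil))) 
(.lf (nat_lit 594432) (.g (nat_lit 3571) (.e (nat_lit 516129) (nat_lit 3) (.e (nat_lit 221210) (nat_lit 22) (.e (nat_lit 196666) (nat_lit 13) (.e (nat_lit 65571) (nat_lit 3) (.e (nat_lit 98321) (nat_lit 17) (.e (nat_lit 3458) (nat_lit 216) (.e (nat_lit 688171) (nat_lit 15) (.e (nat_lit 57465) (nat_lit 23) .nil)))))))) (.g (nat_lit 1) (.e (nat_lit 406834) (nat_lit 0) .nil) .nil)))) 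
(.nd (nat_lit 9) 
(.lf (nat_lit 594176) (.g (nat_lit 2423) (.e (nat_lit 516120) (nat_lit 1) (.e (nat_lit 164329) (nat_lit 230) (.e (nat_lit 163941) (nat_lit 19) (.e (nat_lit 483341) (nat_lit 9) (.e (nat_lit 426200) (nat_lit 9) (.e (nat_lit 426354) (nat_lit 15) (.e (nat_lit 1795) (nat_lit 119) .nil))))))) (.g (nat_lit 1) (.e (nat_lit 406420) (nat_lit 0) .nil) .nil))) 
(.lf (nat_lit 594688) (.g (nat_lit 2170) (.e (nat_lit 516139) (nat_lit 7) (.e (nat_lit 409646) (nat_lit 18) (.e (nat_lit 303116) (nat_lit 2) (.e (nat_lit 196674) (nat_lit 15) .nil)))) (.g (nat_lit 0) (.e (nat_lit 407215) (nat_lit 0) .nil) .nil))))) (.nd (nat_lit 8) (.nd (nat_lit 9) 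
(.lf (nat_lit 594048) (.g (nat_lit 3336) (.e (nat_lit 516118) (nat_lit 1) (.e (nat_lit 164332) (nat_lit 230) (.e (nat_lit 163905) (nat_lit 12) (.e (nat_lit 426566) (nat_lit 34) (.e (nat_lit 393294) (nat_lit 26) (.e (nat_lit 475177) (nat_lit 24) .nil)))))) (.g (nat_lit 1) (.e (nat_lit 406099) (nat_lit 0) .nil) .nil))) 
(.lf (nat_lit 594560) (.g (nat_lit 2748) (.e (nat_lit 516138) (nat_lit 7) (.e (nat_lit 409644) (nat_lit 18) (.e (nat_lit 303119) (nat_lit 3) (.e (nat_lit 204868) (nat_lit 29) (.e (nat_lit 368384) (nat_lit 3) .nil))))) (.g (nat_lit 0) (.e (nat_lit 407042) (nat_lit 0) .nil) .nil)))) (.nd (nat_lit 9) 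
(.lf (nat_lit 594304) (.g (nat_lit 1764) (.e (nat_lit 516124) (nat_lit 2) (.e (nat_lit 213032) (nat_lit 11) (.e (nat_lit 24608) (nat_lit 3) (.e (nat_lit 98381) (nat_lit 31) (.e (nat_lit 466945) (nat_lit 0) (.e (nat_lit 1786) (nat_lit 119) .nil)))))) (.g (nat_lit 1) (.e (nat_lit 406646) (nat_lit 0) .nil) .nil))) 
(.lf (nat_lit 594816) (.g (nat_lit 1294) (.e (nat_lit 516139) (nat_lit 7) (.e (nat_lit 409649) (nat_lit 18) (.e (nat_lit 303116) (nat_lit 2) (.e (nat_lit 196674) (nat_lit 15) .nil)))) (.g (nat_lit 0) (.e (nat_lit 407363) (nat_lit 0) .nil) .nil)))))) (.nd (nat_lit 7) (.nd (nat_lit 8) (.nd (nat_lit 9) 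
(.lf (nat_lit 593984) (.g (nat_lit 3771) (.e (nat_lit 516118) (nat_lit 1) (.e (nat_lit 164183) (nat_lit 154) (.e (nat_lit 57378) (nat_lit 3) (.e (nat_lit 98342) (nat_lit 20) (.e (nat_lit 221210) (nat_lit 22) (.e (nat_lit 196668) (nat_lit 14) (.e (nat_lit 73747) (nat_lit 3) .nil))))))) (.g (nat_lit 1) (.e (nat_lit 405999) (nat_lit 0) .nil) .nil))) 
(.lf (nat_lit 594496) (.g (nat_lit 4108) (.e (nat_lit 516131) (nat_lit 3) (.e (nat_lit 221194) (nat_lit 11) (.e (nat_lit 336011) (nat_lit 2) (.e (nat_lit 90170) (nat_lit 13) (.e (nat_lit 172120) (nat_lit 12) (.e (nat_lit 475179) (nat_lit 24) .nil)))))) (.g (nat_lit 1) (.e (nat_lit 406905) (nat_lit 0) .nil) .nil)))) (.nd (nat_lit 9) 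
(.lf (nat_lit 594240) (.g (nat_lit 1737) (.e (nat_lit 516120) (nat_lit 1) (.e (nat_lit 164332) (nat_lit 230) (.e (nat_lit 163905) (nat_lit 12) (.e (nat_lit 426487) (nat_lit 27) .nil)))) (.g (nat_lit 0) (.e (nat_lit 406559) (nat_lit 0) .nil) .nil))) 
(.lf (nat_lit 594752) (.g (nat_lit 3010) (.e (nat_lit 516139) (nat_lit 7) (.e (nat_lit 409648) (nat_lit 18) (.e (nat_lit 303116) (nat_lit 2) (.e (nat_lit 196666) (nat_lit 13) (.e (nat_lit 65609) (nat_lit 10) (.e (nat_lit 344119) (nat_lit 21) .nil)))))) (.g (nat_lit 1) (.e (nat_lit 407288) (nat_lit 0) .nil) .nil))))) (.nd (nat_lit 8) (.nd (nat_lit 9) 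
(.lf (nat_lit 594112) (.g (nat_lit 1012) (.e (nat_lit 516119) (nat_lit 1) (.e (nat_lit 164325) (nat_lit 230) (.e (nat_lit 163941) (nat_lit 19) (.e (nat_lit 483341) (nat_lit 9) .nil)))) (.g (nat_lit 0) (.e (nat_lit 406229) (nat_lit 0) .nil) .nil))) 
(.lf (nat_lit 594624) (.g (nat_lit 2591) (.e (nat_lit 516139) (nat_lit 7) (.e (nat_lit 409616) (nat_lit 10) (.e (nat_lit 5355) (nat_lit 298) (.e (nat_lit 1235) (nat_lit 91) (.e (nat_lit 90133) (nat_lit 9) (.e (nat_lit 2400) (nat_lit 157) (.e (nat_lit 7590) (nat_lit 407) (.e (nat_lit 73748) (nat_lit 3) .nil)))))))) (.g (nat_lit 1) (.e (nat_lit 407144) (nat_lit 0) .nil) .nil)))) (.nd (nat_lit 9) 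
(.lf (nat_lit 594368) (.g (nat_lit 1909) (.e (nat_lit 516127) (nat_lit 2) (.e (nat_lit 213030) (nat_lit 11) (.e (nat_lit 24602) (nat_lit 2) (.e (nat_lit 90185) (nat_lit 17) (.e (nat_lit 237616) (nat_lit 12) (.e (nat_lit 475177) (nat_lit 24) .nil)))))) (.g (nat_lit 1) (.e (nat_lit 406739) (nat_lit 0) .nil) .nil))) 
(.lf (nat_lit 594880) (.g (nat_lit 4477) (.e (nat_lit 516142) (nat_lit 8) (.e (nat_lit 417828) (nat_lit 18) (.e (nat_lit 303119) (nat_lit 3) (.e (nat_lit 204868) (nat_lit 29) (.e (nat_lit 360466) (nat_lit 3) .nil))))) (.g (nat_lit 1) (.e (nat_lit 407451) (nat_lit 0) .nil) .nil))))))) (.nd (nat_lit 6) (.nd (nat_lit 7) (.nd (nat_lit 8) (.nd (nat_lit 9) 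
(.lf (nat_lit 593952) (.g (nat_lit 1043) (.e (nat_lit 516117) (nat_lit 1) (.e (nat_lit 164332) (nat_lit 230) (.e (nat_lit 163938) (nat_lit 18) (.e (nat_lit 483072) (nat_lit 10) .nil)))) (.g (nat_lit 0) (.e (nat_lit 405934) (nat_lit 0) .nil) .nil))) 
(.lf (nat_lit 594464) (.g (nat_lit 1612) (.e (nat_lit 516130) (nat_lit 3) (.e (nat_lit 221194) (nat_lit 11) (.e (nat_lit 336025) (nat_lit 3) (.e (nat_lit 98365) (nat_lit 26) (.e (nat_lit 426306) (nat_lit 12) .nil))))) (.g (nat_lit 0) (.e (nat_lit 406868) (nat_lit 0) .nil) .nil)))) (.nd (nat_lit 9) 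
(.lf (nat_lit 594208) (.g (nat_lit 2159) (.e (nat_lit 516120) (nat_lit 1) (.e (nat_lit 164330) (nat_lit 230) (.e (nat_lit 163941) (nat_lit 19) (.e (nat_lit 483341) (nat_lit 9) (.e (nat_lit 426197) (nat_lit 9) .nil))))) (.g (nat_lit 0) (.e (nat_lit 406506) (nat_lit 0) .nil) .nil))) 
(.lf (nat_lit 594720) (.g (nat_lit 1342) (.e (nat_lit 516139) (nat_lit 7) (.e (nat_lit 409647) (nat_lit 18) (.e (nat_lit 303117) (nat_lit 2) (.e (nat_lit 196665) (nat_lit 13) .nil)))) (.g (nat_lit 0) (.e (nat_lit 407253) (nat_lit 0) .nil) .nil))))) (.nd (nat_lit 8) (.nd (nat_lit 9) 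
(.lf (nat_lit 594080) (.g (nat_lit 2783) (.e (nat_lit 516119) (nat_lit 1) (.e (nat_lit 164324) (nat_lit 230) (.e (nat_lit 163903) (nat_lit 12) (.e (nat_lit 426566) (nat_lit 34) (.e (nat_lit 393296) (nat_lit 26) (.e (nat_lit 475175) (nat_lit 24) .nil)))))) (.g (nat_lit 1) (.e (nat_lit 406164) (nat_lit 0) .nil) .nil))) 
(.lf (nat_lit 594592) (.g (nat_lit 1292) (.e (nat_lit 516138) (nat_lit 7) (.e (nat_lit 409646) (nat_lit 18) (.e (nat_lit 303117) (nat_lit 2) (.e (nat_lit 196661) (nat_lit 12) .nil)))) (.g (nat_lit 0) (.e (nat_lit 407093) (nat_lit 0) .nil) .nil)))) (.nd (nat_lit 9) 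
(.lf (nat_lit 594336) (.g (nat_lit 2262) (.e (nat_lit 516126) (nat_lit 2) (.e (nat_lit 213032) (nat_lit 11) (.e (nat_lit 24604) (nat_lit 2) (.e (nat_lit 90172) (nat_lit 14) (.e (nat_lit 188160) (nat_lit 41) .nil))))) (.g (nat_lit 0) (.e (nat_lit 406697) (nat_lit 0) .nil) .nil))) 
(.lf (nat_lit 594848) (.g (nat_lit 3947) (.e (nat_lit 516139) (nat_lit 7) (.e (nat_lit 409649) (nat_lit 18) (.e (nat_lit 303118) (nat_lit 3) (.e (nat_lit 204855) (nat_lit 26) (.e (nat_lit 336176) (nat_lit 10) (.e (nat_lit 344119) (nat_lit 21) .nil)))))) (.g (nat_lit 1) (.e (nat_lit 407398) (nat_lit 0) .nil) .nil)))))) (.nd (nat_lit 7) (.nd (nat_lit 8) (.nd (nat_lit 9) 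
(.lf (nat_lit 594016) (.g (nat_lit 2146) (.e (nat_lit 516118) (nat_lit 1) (.e (nat_lit 164332) (nat_lit 230) (.e (nat_lit 163902) (nat_lit 12) (.e (nat_lit 426502) (nat_lit 27) .nil)))) (.g (nat_lit 0) (.e (nat_lit 406065) (nat_lit 0) .nil) .nil))) 
(.lf (nat_lit 594528) (.g (nat_lit 3268) (.e (nat_lit 516131) (nat_lit 3) (.e (nat_lit 221215) (nat_lit 23) (.e (nat_lit 204829) (nat_lit 18) (.e (nat_lit 57927) (nat_lit 282) (.e (nat_lit 163873) (nat_lit 3) (.e (nat_lit 204872) (nat_lit 30) (.e (nat_lit 368676) (nat_lit 21) .nil))))))) (.g (nat_lit 1) (.e (nat_lit 406962) (nat_lit 0) .nil) .nil)))) (.nd (nat_lit 9) 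
(.lf (nat_lit 594272) (.g (nat_lit 2629) (.e (nat_lit 516122) (nat_lit 2) (.e (nat_lit 213032) (nat_lit 11) (.e (nat_lit 24608) (nat_lit 3) (.e (nat_lit 98380) (nat_lit 31) (.e (nat_lit 466947) (nat_lit 0) (.e (nat_lit 1800) (nat_lit 119) .nil)))))) (.g (nat_lit 1) (.e (nat_lit 406605) (nat_lit 0) .nil) .nil))) 
(.lf (nat_lit 594784) (.g (nat_lit 3131) (.e (nat_lit 516139) (nat_lit 7) (.e (nat_lit 409648) (nat_lit 18) (.e (nat_lit 303118) (nat_lit 3) (.e (nat_lit 204854) (nat_lit 26) (.e (nat_lit 336160) (nat_lit 10) (.e (nat_lit 344119) (nat_lit 21) .nil)))))) (.g (nat_lit 1) (.e (nat_lit 407320) (nat_lit 0) .nil) .nil))))) (.nd (nat_lit 8) (.nd (nat_lit 9) 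
(.lf (nat_lit 594144) (.g (nat_lit 3518) (.e (nat_lit 516119) (nat_lit 1) (.e (nat_lit 164331) (nat_lit 230) (.e (nat_lit 163902) (nat_lit 12) (.e (nat_lit 426566) (nat_lit 34) (.e (nat_lit 393294) (nat_lit 26) (.e (nat_lit 475177) (nat_lit 24) .nil)))))) (.g (nat_lit 1) (.e (nat_lit 406291) (nat_lit 0) .nil) .nil))) 
(.lf (nat_lit 594656) (.g (nat_lit 3312) (.e (nat_lit 516139) (nat_lit 7) (.e (nat_lit 409644) (nat_lit 18) (.e (nat_lit 303119) (nat_lit 3) (.e (nat_lit 204861) (nat_lit 26) (.e (nat_lit 336186) (nat_lit 11) (.e (nat_lit 368676) (nat_lit 21) .nil)))))) (.g (nat_lit 1) (.e (nat_lit 407179) (nat_lit 0) .nil) .nil)))) (.nd (nat_lit 9) 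
(.lf (nat_lit 594400) (.g (nat_lit 1109) (.e (nat_lit 516127) (nat_lit 2) (.e (nat_lit 213032) (nat_lit 11) (.e (nat_lit 24608) (nat_lit 3) (.e (nat_lit 98381) (nat_lit 31) .nil)))) (.g (nat_lit 0) (.e (nat_lit 406775) (nat_lit 0) .nil) .nil))) 
(.lf (nat_lit 594912) (.g (nat_lit 3581) (.e (nat_lit 516145) (nat_lit 9) (.e (nat_lit 426438) (nat_lit 18) (.e (nat_lit 98368) (nat_lit 27) (.e (nat_lit 434247) (nat_lit 28) (.e (nat_lit 573484) (nat_lit 13) (.e (nat_lit 65642) (nat_lit 15) (.e (nat_lit 7936) (nat_lit 195) .nil))))))) (.g (nat_lit 1) (.e (nat_lit 407489) (nat_lit 0) .nil) .nil)))))))) 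
(.nd (nat_lit 5) (.nd (nat_lit 6) (.nd (nat_lit 7) (.nd (nat_lit 8) (.nd (nat_lit 9) 
(.lf (nat_lit 593936) (.g (nat_lit 1346) (.e (nat_lit 516117) (nat_lit 1) (.e (nat_lit 164332) (nat_lit 230) (.e (nat_lit 163902) (nat_lit 12) (.e (nat_lit 426478) (nat_lit 27) .nil)))) (.g (nat_lit 0) (.e (nat_lit 405915) (nat_lit 0) .nil) .nil))) 
(.lf (nat_lit 594448) (.g (nat_lit 3288) (.e (nat_lit 516129) (nat_lit 3) (.e (nat_lit 221210) (nat_lit 22) (.e (nat_lit 196670) (nat_lit 14) (.e (nat_lit 73746) (nat_lit 3) (.e (nat_lit 516100) (nat_lit 0) (.e (nat_lit 7936) (nat_lit 216) (.e (nat_lit 688170) (nat_lit 15) (.e (nat_lit 57466) (nat_lit 23) .nil)))))))) (.g (nat_lit 1) (.e (nat_lit 406850) (nat_lit 0) .nil) .nil)))) 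
(.nd (nat_lit 9) 
(.lf (nat_lit 594192) (.g (nat_lit 3401) (.e (nat_lit 516120) (nat_lit 1) (.e (nat_lit 164330) (nat_lit 230) (.e (nat_lit 163902) (nat_lit 12) (.e (nat_lit 426568) (nat_lit 34) (.e (nat_lit 393293) (nat_lit 26) (.e (nat_lit 475179) (nat_lit 24) .nil)))))) (.g (nat_lit 1) (.e (nat_lit 406446) (nat_lit 0) .nil) .nil))) 
(.lf (nat_lit 594704) (.g (nat_lit 3378) (.e (nat_lit 516139) (nat_lit 7) (.e (nat_lit 409646) (nat_lit 18) (.e (nat_lit 303117) (nat_lit 2) (.e (nat_lit 196674) (nat_lit 15) (.e (nat_lit 81947) (nat_lit 20) (.e (nat_lit 1798) (nat_lit 119) .nil)))))) (.g (nat_lit 1) (.e (nat_lit 407233) (nat_lit 0) .nil) .nil))))) (.nd (nat_lit 8) (.nd (nat_lit 9) 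
(.lf (nat_lit 594064) (.g (nat_lit 2193) (.e (nat_lit 516119) (nat_lit 1) (.e (nat_lit 164179) (nat_lit 154) (.e (nat_lit 57378) (nat_lit 3) (.e (nat_lit 98341) (nat_lit 20) (.e (nat_lit 221210) (nat_lit 22) .nil))))) (.g (nat_lit 0) (.e (nat_lit 406138) (nat_lit 0) .nil) .nil))) 
(.lf (nat_lit 594576) (.g (nat_lit 3524) (.e (nat_lit 516138) (nat_lit 7) (.e (nat_lit 409645) (nat_lit 18) (.e (nat_lit 303117) (nat_lit 2) (.e (nat_lit 196674) (nat_lit 15) (.e (nat_lit 81947) (nat_lit 20) (.e (nat_lit 1799) (nat_lit 119) .nil)))))) (.g (nat_lit 1) (.e (nat_lit 407065) (nat_lit 0) .nil) .nil)))) (.nd (nat_lit 9) 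
(.lf (nat_lit 594320) (.g (nat_lit 1747) (.e (nat_lit 516125) (nat_lit 2) (.e (nat_lit 213032) (nat_lit 11) (.e (nat_lit 24608) (nat_lit 3) (.e (nat_lit 98381) (nat_lit 31) (.e (nat_lit 466947) (nat_lit 0) .nil))))) (.g (nat_lit 0) (.e (nat_lit 406680) (nat_lit 0) .nil) .nil))) 
(.lf (nat_lit 594832) (.g (nat_lit 2979) (.e (nat_lit 516139) (nat_lit 7) (.e (nat_lit 409649) (nat_lit 18) (.e (nat_lit 303117) (nat_lit 2) (.e (nat_lit 196672) (nat_lit 15) (.e (nat_lit 81943) (nat_lit 20) (.e (nat_lit 1801) (nat_lit 119) .nil)))))) (.g (nat_lit 1) (.e (nat_lit 407380) (nat_lit 0) .nil) .nil)))))) (.nd (nat_lit 7) (.nd (nat_lit 8) (.nd (nat_lit 9) 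
(.lf (nat_lit 594000) (.g (nat_lit 960) (.e (nat_lit 516118) (nat_lit 1) (.e (nat_lit 164325) (nat_lit 230) (.e (nat_lit 163936) (nat_lit 18) (.e (nat_lit 483072) (nat_lit 10) .nil)))) (.g (nat_lit 0) (.e (nat_lit 406027) (nat_lit 0) .nil) .nil))) 
(.lf (nat_lit 594512) (.g (nat_lit 4140) (.e (nat_lit 516131) (nat_lit 3) (.e (nat_lit 221214) (nat_lit 23) (.e (nat_lit 204830) (nat_lit 18) (.e (nat_lit 57928) (nat_lit 282) (.e (nat_lit 163868) (nat_lit 2) (.e (nat_lit 196668) (nat_lit 14) (.e (nat_lit 73747) (nat_lit 3) .nil))))))) (.g (nat_lit 1) (.e (nat_lit 406943) (nat_lit 0) .nil) .nil)))) (.nd (nat_lit 9) 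
(.lf (nat_lit 594256) (.g (nat_lit 4019) (.e (nat_lit 516120) (nat_lit 1) (.e (nat_lit 164332) (nat_lit 230) (.e (nat_lit 163941) (nat_lit 19) (.e (nat_lit 483341) (nat_lit 9) (.e (nat_lit 426305) (nat_lit 12) (.e (nat_lit 475179) (nat_lit 24) .nil)))))) (.g (nat_lit 1) (.e (nat_lit 406578) (nat_lit 0) .nil) .nil))) 
(.lf (nat_lit 594768) (.g (nat_lit 3528) (.e (nat_lit 516139) (nat_lit 7) (.e (nat_lit 409648) (nat_lit 18) (.e (nat_lit 303117) (nat_lit 2) (.e (nat_lit 196666) (nat_lit 13) (.e (nat_lit 65592) (nat_lit 9) (.e (nat_lit 335920) (nat_lit 0) (.e (nat_lit 1788) (nat_lit 119) .nil))))))) (.g (nat_lit 1) (.e (nat_lit 407304) (nat_lit 0) .nil) .nil))))) (.nd (nat_lit 8) (.nd (nat_lit 9) 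
(.lf (nat_lit 594128) (.g (nat_lit 3285) (.e (nat_lit 516119) (nat_lit 1) (.e (nat_lit 164326) (nat_lit 230) (.e (nat_lit 163941) (nat_lit 19) (.e (nat_lit 483341) (nat_lit 9) (.e (nat_lit 433920) (nat_lit 12) (.e (nat_lit 475179) (nat_lit 24) .nil)))))) (.g (nat_lit 1) (.e (nat_lit 406265) (nat_lit 0) .nil) .nil))) 
(.lf (nat_lit 594640) (.g (nat_lit 998) (.e (nat_lit 516139) (nat_lit 7) (.e (nat_lit 409644) (nat_lit 18) (.e (nat_lit 303112) (nat_lit 0) (.e (nat_lit 3252) (nat_lit 197) .nil)))) (.g (nat_lit 0) (.e (nat_lit 407162) (nat_lit 0) .nil) .nil)))) (.nd (nat_lit 9) 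
(.lf (nat_lit 594384) (.g (nat_lit 1542) (.e (nat_lit 516127) (nat_lit 2) (.e (nat_lit 213032) (nat_lit 11) (.e (nat_lit 24604) (nat_lit 2) (.e (nat_lit 90176) (nat_lit 15) (.e (nat_lit 196352) (nat_lit 0) .nil))))) (.g (nat_lit 0) (.e (nat_lit 406758) (nat_lit 0) .nil) .nil))) 
(.lf (nat_lit 594896) (.g (nat_lit 3970) (.e (nat_lit 516145) (nat_lit 9) (.e (nat_lit 426428) (nat_lit 17) (.e (nat_lit 90174) (nat_lit 14) (.e (nat_lit 180250) (nat_lit 10) (.e (nat_lit 573482) (nat_lit 13) (.e (nat_lit 73472) (nat_lit 15) (.e (nat_lit 3209) (nat_lit 195) .nil))))))) (.g (nat_lit 1) (.e (nat_lit 407472) (nat_lit 0) .nil) .nil))))))) 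
(.nd (nat_lit 6) (.nd (nat_lit 7) (.nd (nat_lit 8) (.nd (nat_lit 9) 
(.lf (nat_lit 593968) (.g (nat_lit 2275) (.e (nat_lit 516118) (nat_lit 1) (.e (nat_lit 164179) (nat_lit 154) (.e (nat_lit 57372) (nat_lit 2) (.e (nat_lit 90128) (nat_lit 9) (.e (nat_lit 2706) (nat_lit 170) .nil))))) (.g (nat_lit 0) (.e (nat_lit 405967) (nat_lit 0) .nil) .nil))) 
(.lf (nat_lit 594480) (.g (nat_lit 799) (.e (nat_lit 516130) (nat_lit 3) (.e (nat_lit 221214) (nat_lit 23) (.e (nat_lit 204821) (nat_lit 17) .nil))) (.g (nat_lit 0) (.e (nat_lit 406886) (nat_lit 0) .nil) .nil)))) (.nd (nat_lit 9) 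
(.lf (nat_lit 594224) (.g (nat_lit 2515) (.e (nat_lit 516120) (nat_lit 1) (.e (nat_lit 164331) (nat_lit 230) (.e (nat_lit 163941) (nat_lit 19) (.e (nat_lit 483341) (nat_lit 9) (.e (nat_lit 426197) (nat_lit 9) .nil))))) (.g (nat_lit 0) (.e (nat_lit 406533) (nat_lit 0) .nil) .nil))) 
(.lf (nat_lit 594736) (.g (nat_lit 3362) (.e (nat_lit 516139) (nat_lit 7) (.e (nat_lit 409647) (nat_lit 18) (.e (nat_lit 303119) (nat_lit 3) (.e (nat_lit 204852) (nat_lit 26) (.e (nat_lit 336160) (nat_lit 10) (.e (nat_lit 344119) (nat_lit 21) .nil)))))) (.g (nat_lit 1) (.e (nat_lit 407272) (nat_lit 0) .nil) .nil))))) (.nd (nat_lit 8) (.nd (nat_lit 9) 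
(.lf (nat_lit 594096) (.g (nat_lit 4153) (.e (nat_lit 516119) (nat_lit 1) (.e (nat_lit 164325) (nat_lit 230) (.e (nat_lit 163903) (nat_lit 12) (.e (nat_lit 426566) (nat_lit 34) (.e (nat_lit 393294) (nat_lit 26) (.e (nat_lit 475179) (nat_lit 24) .nil)))))) (.g (nat_lit 1) (.e (nat_lit 406195) (nat_lit 0) .nil) .nil))) 
(.lf (nat_lit 594608) (.g (nat_lit 3266) (.e (nat_lit 516138) (nat_lit 7) (.e (nat_lit 409646) (nat_lit 18) (.e (nat_lit 303119) (nat_lit 3) (.e (nat_lit 204869) (nat_lit 29) (.e (nat_lit 368384) (nat_lit 3) .nil))))) (.g (nat_lit 1) (.e (nat_lit 407116) (nat_lit 0) .nil) .nil)))) (.nd (nat_lit 9) 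
(.lf (nat_lit 594352) (.g (nat_lit 2357) (.e (nat_lit 516126) (nat_lit 2) (.e (nat_lit 213032) (nat_lit 11) (.e (nat_lit 24605) (nat_lit 2) (.e (nat_lit 90185) (nat_lit 17) (.e (nat_lit 237619) (nat_lit 12) (.e (nat_lit 475177) (nat_lit 24) .nil)))))) (.g (nat_lit 1) (.e (nat_lit 406713) (nat_lit 0) .nil) .nil))) 
(.lf (nat_lit 594864) (.g (nat_lit 3713) (.e (nat_lit 516139) (nat_lit 7) (.e (nat_lit 409649) (nat_lit 18) (.e (nat_lit 303119) (nat_lit 3) (.e (nat_lit 204869) (nat_lit 29) (.e (nat_lit 360465) (nat_lit 3) .nil))))) (.g (nat_lit 1) (.e (nat_lit 407422) (nat_lit 0) .nil) .nil)))))) (.nd (nat_lit 7) (.nd (nat_lit 8) (.nd (nat_lit 9) 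
(.lf (nat_lit 594032) (.g (nat_lit 2243) (.e (nat_lit 516118) (nat_lit 1) (.e (nat_lit 164332) (nat_lit 230) (.e (nat_lit 163905) (nat_lit 12) (.e (nat_lit 426489) (nat_lit 27) .nil)))) (.g (nat_lit 0) (.e (nat_lit 406082) (nat_lit 0) .nil) .nil))) 
(.lf (nat_lit 594544) (.g (nat_lit 1672) (.e (nat_lit 516131) (nat_lit 3) (.e (nat_lit 221215) (nat_lit 23) (.e (nat_lit 204850) (nat_lit 26) (.e (nat_lit 336013) (nat_lit 2) (.e (nat_lit 98048) (nat_lit 2) (.e (nat_lit 16386) (nat_lit 0) (.e (nat_lit 3214) (nat_lit 195) .nil))))))) (.g (nat_lit 1) (.e (nat_lit 406979) (nat_lit 0) .nil) .nil)))) (.nd (nat_lit 9) 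
(.lf (nat_lit 594288) (.g (nat_lit 924) (.e (nat_lit 516124) (nat_lit 2) (.e (nat_lit 213030) (nat_lit 11) (.e (nat_lit 24609) (nat_lit 3) (.e (nat_lit 98381) (nat_lit 31) (.e (nat_lit 466945) (nat_lit 0) .nil))))) (.g (nat_lit 0) (.e (nat_lit 406625) (nat_lit 0) .nil) .nil))) 
(.lf (nat_lit 594800) (.g (nat_lit 3591) (.e (nat_lit 516139) (nat_lit 7) (.e (nat_lit 409648) (nat_lit 18) (.e (nat_lit 303119) (nat_lit 3) (.e (nat_lit 204855) (nat_lit 26) (.e (nat_lit 336173) (nat_lit 10) (.e (nat_lit 344119) (nat_lit 21) .nil)))))) (.g (nat_lit 1) (.e (nat_lit 407342) (nat_lit 0) .nil) .nil))))) (.nd (nat_lit 8) (.nd (nat_lit 9) 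
(.lf (nat_lit 594160) (.g (nat_lit 3971) (.e (nat_lit 516120) (nat_lit 1) (.e (nat_lit 164305) (nat_lit 226) (.e (nat_lit 2612) (nat_lit 163) (.e (nat_lit 163977) (nat_lit 30) (.e (nat_lit 573489) (nat_lit 14) (.e (nat_lit 73755) (nat_lit 8) (.e (nat_lit 557097) (nat_lit 13) (.e (nat_lit 172133) (nat_lit 15) (.e (nat_lit 1800) (nat_lit 119) .nil))))))))) (.g (nat_lit 1) (.e (nat_lit 406346) (nat_lit 0) .nil) .nil))) 
(.lf (nat_lit 594672) (.g (nat_lit 3292) (.e (nat_lit 516139) (nat_lit 7) (.e (nat_lit 409645) (nat_lit 18) (.e (nat_lit 303117) (nat_lit 2) (.e (nat_lit 196674) (nat_lit 15) (.e (nat_lit 81940) (nat_lit 20) (.e (nat_lit 1799) (nat_lit 119) .nil)))))) (.g (nat_lit 1) (.e (nat_lit 407197) (nat_lit 0) .nil) .nil)))) (.nd (nat_lit 9) 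
(.lf (nat_lit 594416) (.g (nat_lit 469) (.e (nat_lit 516129) (nat_lit 3) (.e (nat_lit 221210) (nat_lit 22) (.e (nat_lit 196658) (nat_lit 12) .nil))) (.g (nat_lit 0) (.e (nat_lit 406818) (nat_lit 0) .nil) .nil))) 
(.lf (nat_lit 594928) (.g (nat_lit 3396) (.e (nat_lit 516146) (nat_lit 9) (.e (nat_lit 426438) (nat_lit 18) (.e (nat_lit 98367) (nat_lit 27) (.e (nat_lit 434248) (nat_lit 28) (.e (nat_lit 573482) (nat_lit 13) (.e (nat_lit 65631) (nat_lit 15) (.e (nat_lit 3212) (nat_lit 195) .nil))))))) (.g (nat_lit 1) (.e (nat_lit 407506) (nat_lit 0) .nil) .nil))))))))) 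
(.nd (nat_lit 4) (.nd (nat_lit 5) (.nd (nat_lit 6) (.nd (nat_lit 7) (.nd (nat_lit 8) 
(.nd (nat_lit 9) 
(.lf (nat_lit 593928) (.g (nat_lit 2256) (.e (nat_lit 516117) (nat_lit 1) (.e (nat_lit 164330) (nat_lit 230) (.e (nat_lit 163905) (nat_lit 12) (.e (nat_lit 426568) (nat_lit 34) (.e (nat_lit 393293) (nat_lit 26) (.e (nat_lit 475177) (nat_lit 24) .nil)))))) (.g (nat_lit 1) (.e (nat_lit 405875) (nat_lit 0) .nil) .nil))) 
(.lf (nat_lit 594440) (.g (nat_lit 3039) (.e (nat_lit 516129) (nat_lit 3) (.e (nat_lit 221210) (nat_lit 22) (.e (nat_lit 196668) (nat_lit 14) (.e (nat_lit 73746) (nat_lit 3) (.e (nat_lit 516100) (nat_lit 0) (.e (nat_lit 7936) (nat_lit 216) (.e (nat_lit 688170) (nat_lit 15) (.e (nat_lit 57466) (nat_lit 23) .nil)))))))) (.g (nat_lit 1) (.e (nat_lit 406842) (nat_lit 0) .nil) .nil)))) 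
(.nd (nat_lit 9) 
(.lf (nat_lit 594184) (.g (nat_lit 1791) (.e (nat_lit 516120) (nat_lit 1) (.e (nat_lit 164330) (nat_lit 230) (.e (nat_lit 163902) (nat_lit 12) (.e (nat_lit 426491) (nat_lit 27) .nil)))) (.g (nat_lit 0) (.e (nat_lit 406438) (nat_lit 0) .nil) .nil))) 
(.lf (nat_lit 594696) (.g (nat_lit 2249) (.e (nat_lit 516139) (nat_lit 7) (.e (nat_lit 409646) (nat_lit 18) (.e (nat_lit 303117) (nat_lit 2) (.e (nat_lit 196674) (nat_lit 15) (.e (nat_lit 81936) (nat_lit 20) .nil))))) (.g (nat_lit 0) (.e (nat_lit 407225) (nat_lit 0) .nil) .nil))))) (.nd (nat_lit 8) (.nd (nat_lit 9) 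
(.lf (nat_lit 594056) (.g (nat_lit 1820) (.e (nat_lit 516119) (nat_lit 1) (.e (nat_lit 164179) (nat_lit 154) (.e (nat_lit 57371) (nat_lit 2) (.e (nat_lit 90128) (nat_lit 9) (.e (nat_lit 2706) (nat_lit 170) .nil))))) (.g (nat_lit 0) (.e (nat_lit 406126) (nat_lit 0) .nil) .nil))) 
(.lf (nat_lit 594568) (.g (nat_lit 1172) (.e (nat_lit 516138) (nat_lit 7) (.e (nat_lit 409645) (nat_lit 18) (.e (nat_lit 303117) (nat_lit 2) (.e (nat_lit 196674) (nat_lit 15) .nil)))) (.g (nat_lit 0) (.e (nat_lit 407057) (nat_lit 0) .nil) .nil)))) (.nd (nat_lit 9) 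
(.lf (nat_lit 594312) (.g (nat_lit 1830) (.e (nat_lit 516125) (nat_lit 2) (.e (nat_lit 213032) (nat_lit 11) (.e (nat_lit 24607) (nat_lit 3) (.e (nat_lit 98363) (nat_lit 26) .nil)))) (.g (nat_lit 0) (.e (nat_lit 406672) (nat_lit 0) .nil) .nil))) 
(.lf (nat_lit 594824) (.g (nat_lit 2055) (.e (nat_lit 516139) (nat_lit 7) (.e (nat_lit 409649) (nat_lit 18) (.e (nat_lit 303117) (nat_lit 2) (.e (nat_lit 196666) (nat_lit 13) (.e (nat_lit 65614) (nat_lit 10) .nil))))) (.g (nat_lit 0) (.e (nat_lit 407372) (nat_lit 0) .nil) .nil)))))) (.nd (nat_lit 7) (.nd (nat_lit 8) (.nd (nat_lit 9) 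
(.lf (nat_lit 593992) (.g (nat_lit 473) (.e (nat_lit 516118) (nat_lit 1) (.e (nat_lit 164325) (nat_lit 230) (.e (nat_lit 163901) (nat_lit 12) .nil))) (.g (nat_lit 0) (.e (nat_lit 406019) (nat_lit 0) .nil) .nil))) 
(.lf (nat_lit 594504) (.g (nat_lit 3268) (.e (nat_lit 516131) (nat_lit 3) (.e (nat_lit 221213) (nat_lit 23) (.e (nat_lit 204829) (nat_lit 18) (.e (nat_lit 57931) (nat_lit 282) (.e (nat_lit 163874) (nat_lit 3) (.e (nat_lit 204872) (nat_lit 30) (.e (nat_lit 368676) (nat_lit 21) .nil))))))) (.g (nat_lit 1) (.e (nat_lit 406935) (nat_lit 0) .nil) .nil)))) (.nd (nat_lit 9) 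
(.lf (nat_lit 594248) (.g (nat_lit 3619) (.e (nat_lit 516120) (nat_lit 1) (.e (nat_lit 164332) (nat_lit 230) (.e (nat_lit 163905) (nat_lit 12) (.e (nat_lit 426566) (nat_lit 34) (.e (nat_lit 393294) (nat_lit 26) (.e (nat_lit 475179) (nat_lit 24) .nil)))))) (.g (nat_lit 1) (.e (nat_lit 406569) (nat_lit 0) .nil) .nil))) 
(.lf (nat_lit 594760) (.g (nat_lit 1333) (.e (nat_lit 516139) (nat_lit 7) (.e (nat_lit 409648) (nat_lit 18) (.e (nat_lit 303116) (nat_lit 2) (.e (nat_lit 196674) (nat_lit 15) .nil)))) (.g (nat_lit 0) (.e (nat_lit 407296) (nat_lit 0) .nil) .nil))))) (.nd (nat_lit 8) (.nd (nat_lit 9) 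
(.lf (nat_lit 594120) (.g (nat_lit 3263) (.e (nat_lit 516119) (nat_lit 1) (.e (nat_lit 164326) (nat_lit 230) (.e (nat_lit 163903) (nat_lit 12) (.e (nat_lit 426568) (nat_lit 34) (.e (nat_lit 393234) (nat_lit 17) (.e (nat_lit 7374) (nat_lit 389) (.e (nat_lit 8320) (nat_lit 64) .nil))))))) (.g (nat_lit 1) (.e (nat_lit 406254) (nat_lit 0) .nil) .nil))) 
(.lf (nat_lit 594632) (.g (nat_lit 1143) (.e (nat_lit 516139) (nat_lit 7) (.e (nat_lit 409643) (nat_lit 18) (.e (nat_lit 303119) (nat_lit 3) (.e (nat_lit 204852) (nat_lit 26) .nil)))) (.g (nat_lit 0) (.e (nat_lit 407153) (nat_lit 0) .nil) .nil)))) (.nd (nat_lit 9) 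
(.lf (nat_lit 594376) (.g (nat_lit 1911) (.e (nat_lit 516127) (nat_lit 2) (.e (nat_lit 213031) (nat_lit 11) (.e (nat_lit 24604) (nat_lit 2) (.e (nat_lit 90185) (nat_lit 17) (.e (nat_lit 237616) (nat_lit 12) (.e (nat_lit 475179) (nat_lit 24) .nil)))))) (.g (nat_lit 1) (.e (nat_lit 406750) (nat_lit 0) .nil) .nil))) 
(.lf (nat_lit 594888) (.g (nat_lit 2154) (.e (nat_lit 524032) (nat_lit 8) (.e (nat_lit 417820) (nat_lit 10) (.e (nat_lit 5761) (nat_lit 315) (.e (nat_lit 163962) (nat_lit 25) .nil)))) (.g (nat_lit 0) (.e (nat_lit 407462) (nat_lit 0) .nil) .nil))))))) (.nd (nat_lit 6) (.nd (nat_lit 7) (.nd (nat_lit 8) (.nd (nat_lit 9) 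
(.lf (nat_lit 593960) (.g (nat_lit 1706) (.e (nat_lit 516117) (nat_lit 1) (.e (nat_lit 164397) (nat_lit 256) (.e (nat_lit 57375) (nat_lit 2) (.e (nat_lit 90174) (nat_lit 14) (.e (nat_lit 180243) (nat_lit 5) .nil))))) (.g (nat_lit 0) (.e (nat_lit 405951) (nat_lit 0) .nil) .nil))) 
(.lf (nat_lit 594472) (.g (nat_lit 1641) (.e (nat_lit 516130) (nat_lit 3) (.e (nat_lit 221212) (nat_lit 22) (.e (nat_lit 196663) (nat_lit 13) (.e (nat_lit 65568) (nat_lit 2) (.e (nat_lit 98048) (nat_lit 2) (.e (nat_lit 16388) (nat_lit 0) (.e (nat_lit 3208) (nat_lit 195) .nil))))))) (.g (nat_lit 1) (.e (nat_lit 406877) (nat_lit 0) .nil) .nil)))) (.nd (nat_lit 9) 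
(.lf (nat_lit 594216) (.g (nat_lit 4143) (.e (nat_lit 516120) (nat_lit 1) (.e (nat_lit 164330) (nat_lit 230) (.e (nat_lit 163941) (nat_lit 19) (.e (nat_lit 483341) (nat_lit 9) (.e (nat_lit 426213) (nat_lit 9) (.e (nat_lit 426396) (nat_lit 15) (.e (nat_lit 1800) (nat_lit 119) .nil))))))) (.g (nat_lit 1) (.e (nat_lit 406514) (nat_lit 0) .nil) .nil))) 
(.lf (nat_lit 594728) (.g (nat_lit 1039) (.e (nat_lit 516139) (nat_lit 7) (.e (nat_lit 409647) (nat_lit 18) (.e (nat_lit 303118) (nat_lit 3) (.e (nat_lit 204861) (nat_lit 26) .nil)))) (.g (nat_lit 0) (.e (nat_lit 407262) (nat_lit 0) .nil) .nil))))) (.nd (nat_lit 8) (.nd (nat_lit 9) 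
(.lf (nat_lit 594088) (.g (nat_lit 3154) (.e (nat_lit 516119) (nat_lit 1) (.e (nat_lit 164325) (nat_lit 230) (.e (nat_lit 163902) (nat_lit 12) (.e (nat_lit 426566) (nat_lit 34) (.e (nat_lit 393291) (nat_lit 26) .nil))))) (.g (nat_lit 0) (.e (nat_lit 406185) (nat_lit 0) .nil) .nil))) 
(.lf (nat_lit 594600) (.g (nat_lit 2436) (.e (nat_lit 516138) (nat_lit 7) (.e (nat_lit 409646) (nat_lit 18) (.e (nat_lit 303117) (nat_lit 2) (.e (nat_lit 196674) (nat_lit 15) (.e (nat_lit 89856) (nat_lit 20) .nil))))) (.g (nat_lit 0) (.e (nat_lit 407103) (nat_lit 0) .nil) .nil)))) (.nd (nat_lit 9) 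
(.lf (nat_lit 594344) (.g (nat_lit 1597) (.e (nat_lit 516126) (nat_lit 2) (.e (nat_lit 213032) (nat_lit 11) (.e (nat_lit 24604) (nat_lit 2) (.e (nat_lit 90178) (nat_lit 15) (.e (nat_lit 196352) (nat_lit 0) (.e (nat_lit 1795) (nat_lit 119) .nil)))))) (.g (nat_lit 1) (.e (nat_lit 406705) (nat_lit 0) .nil) .nil))) 
(.lf (nat_lit 594856) (.g (nat_lit 3356) (.e (nat_lit 516139) (nat_lit 7) (.e (nat_lit 409649) (nat_lit 18) (.e (nat_lit 303118) (nat_lit 3) (.e (nat_lit 204869) (nat_lit 29) (.e (nat_lit 360465) (nat_lit 3) .nil))))) (.g (nat_lit 1) (.e (nat_lit 407409) (nat_lit 0) .nil) .nil)))))) (.nd (nat_lit 7) (.nd (nat_lit 8) (.nd (nat_lit 9) 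
(.lf (nat_lit 594024) (.g (nat_lit 2544) (.e (nat_lit 516118) (nat_lit 1) (.e (nat_lit 164332) (nat_lit 230) (.e (nat_lit 163905) (nat_lit 12) (.e (nat_lit 426478) (nat_lit 27) (.e (nat_lit 336385) (nat_lit 27) .nil))))) (.g (nat_lit 0) (.e (nat_lit 406073) (nat_lit 0) .nil) .nil))) 
(.lf (nat_lit 594536) (.g (nat_lit 2627) (.e (nat_lit 516131) (nat_lit 3) (.e (nat_lit 221215) (nat_lit 23) (.e (nat_lit 204830) (nat_lit 18) (.e (nat_lit 57926) (nat_lit 282) (.e (nat_lit 163869) (nat_lit 2) (.e (nat_lit 196670) (nat_lit 14) (.e (nat_lit 73748) (nat_lit 3) .nil))))))) (.g (nat_lit 1) (.e (nat_lit 406971) (nat_lit 0) .nil) .nil)))) (.nd (nat_lit 9) 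
(.lf (nat_lit 594280) (.g (nat_lit 354) (.e (nat_lit 516123) (nat_lit 2) (.e (nat_lit 213030) (nat_lit 11) (.e (nat_lit 24609) (nat_lit 3) .nil))) (.g (nat_lit 0) (.e (nat_lit 406616) (nat_lit 0) .nil) .nil))) 
(.lf (nat_lit 594792) (.g (nat_lit 2618) (.e (nat_lit 516139) (nat_lit 7) (.e (nat_lit 409648) (nat_lit 18) (.e (nat_lit 303118) (nat_lit 3) (.e (nat_lit 204866) (nat_lit 28) (.e (nat_lit 352296) (nat_lit 20) .nil))))) (.g (nat_lit 0) (.e (nat_lit 407331) (nat_lit 0) .nil) .nil))))) (.nd (nat_lit 8) (.nd (nat_lit 9) 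
(.lf (nat_lit 594152) (.g (nat_lit 1978) (.e (nat_lit 516120) (nat_lit 1) (.e (nat_lit 164183) (nat_lit 154) (.e (nat_lit 57373) (nat_lit 2) (.e (nat_lit 90128) (nat_lit 9) (.e (nat_lit 2706) (nat_lit 170) .nil))))) (.g (nat_lit 0) (.e (nat_lit 406317) (nat_lit 0) .nil) .nil))) 
(.lf (nat_lit 594664) (.g (nat_lit 3246) (.e (nat_lit 516139) (nat_lit 7) (.e (nat_lit 409644) (nat_lit 18) (.e (nat_lit 303119) (nat_lit 3) (.e (nat_lit 204869) (nat_lit 29) (.e (nat_lit 368384) (nat_lit 3) .nil))))) (.g (nat_lit 0) (.e (nat_lit 407187) (nat_lit 0) .nil) .nil)))) (.nd (nat_lit 9) 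
(.lf (nat_lit 594408) (.g (nat_lit 316) (.e (nat_lit 516129) (nat_lit 3) (.e (nat_lit 221190) (nat_lit 11) (.e (nat_lit 336002) (nat_lit 2) .nil))) (.g (nat_lit 0) (.e (nat_lit 406797) (nat_lit 0) .nil) .nil))) 
(.lf (nat_lit 594920) (.g (nat_lit 1812) (.e (nat_lit 516146) (nat_lit 9) (.e (nat_lit 426438) (nat_lit 18) (.e (nat_lit 98358) (nat_lit 26) (.e (nat_lit 426354) (nat_lit 15) .nil)))) (.g (nat_lit 0) (.e (nat_lit 407498) (nat_lit 0) .nil) .nil)))))))) (.nd (nat_lit 5) (.nd (nat_lit 6) (.nd (nat_lit 7) (.nd (nat_lit 8) (.nd (nat_lit 9) 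
(.lf (nat_lit 593944) (.g (nat_lit 1692) (.e (nat_lit 516117) (nat_lit 1) (.e (nat_lit 164332) (nat_lit 230) (.e (nat_lit 163905) (nat_lit 12) (.e (nat_lit 426489) (nat_lit 27) .nil)))) (.g (nat_lit 0) (.e (nat_lit 405925) (nat_lit 0) .nil) .nil))) 
(.lf (nat_lit 594456) (.g (nat_lit 3057) (.e (nat_lit 516129) (nat_lit 3) (.e (nat_lit 221214) (nat_lit 23) (.e (nat_lit 204830) (nat_lit 18) (.e (nat_lit 57926) (nat_lit 282) (.e (nat_lit 163870) (nat_lit 2) (.e (nat_lit 196668) (nat_lit 14) (.e (nat_lit 73747) (nat_lit 3) .nil))))))) (.g (nat_lit 1) (.e (nat_lit 406859) (nat_lit 0) .nil) .nil)))) (.nd (nat_lit 9) 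
(.lf (nat_lit 594200) (.g (nat_lit 1330) (.e (nat_lit 516120) (nat_lit 1) (.e (nat_lit 164330) (nat_lit 230) (.e (nat_lit 163908) (nat_lit 12) (.e (nat_lit 426528) (nat_lit 27) .nil)))) (.g (nat_lit 0) (.e (nat_lit 406458) (nat_lit 0) .nil) .nil))) 
(.lf (nat_lit 594712) (.g (nat_lit 2964) (.e (nat_lit 516139) (nat_lit 7) (.e (nat_lit 409646) (nat_lit 18) (.e (nat_lit 303119) (nat_lit 3) (.e (nat_lit 204855) (nat_lit 26) (.e (nat_lit 336169) (nat_lit 10) .nil))))) (.g (nat_lit 0) (.e (nat_lit 407241) (nat_lit 0) .nil) .nil))))) (.nd (nat_lit 8) (.nd (nat_lit 9) 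
(.lf (nat_lit 594072) (.g (nat_lit 3034) (.e (nat_lit 516119) (nat_lit 1) (.e (nat_lit 164322) (nat_lit 230) (.e (nat_lit 163902) (nat_lit 12) (.e (nat_lit 426568) (nat_lit 34) (.e (nat_lit 393234) (nat_lit 17) (.e (nat_lit 7376) (nat_lit 389) (.e (nat_lit 8318) (nat_lit 64) .nil))))))) (.g (nat_lit 1) (.e (nat_lit 406153) (nat_lit 0) .nil) .nil))) 
(.lf (nat_lit 594584) (.g (nat_lit 3254) (.e (nat_lit 516138) (nat_lit 7) (.e (nat_lit 409645) (nat_lit 18) (.e (nat_lit 303119) (nat_lit 3) (.e (nat_lit 204869) (nat_lit 29) (.e (nat_lit 360465) (nat_lit 3) .nil))))) (.g (nat_lit 1) (.e (nat_lit 407084) (nat_lit 0) .nil) .nil)))) (.nd (nat_lit 9) 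
(.lf (nat_lit 594328) (.g (nat_lit 2041) (.e (nat_lit 516126) (nat_lit 2) (.e (nat_lit 213030) (nat_lit 11) (.e (nat_lit 24609) (nat_lit 3) (.e (nat_lit 98369) (nat_lit 28) (.e (nat_lit 442374) (nat_lit 0) (.e (nat_lit 1800) (nat_lit 119) .nil)))))) (.g (nat_lit 1) (.e (nat_lit 406689) (nat_lit 0) .nil) .nil))) 
(.lf (nat_lit 594840) (.g (nat_lit 3945) (.e (nat_lit 516139) (nat_lit 7) (.e (nat_lit 409649) (nat_lit 18) (.e (nat_lit 303117) (nat_lit 2) (.e (nat_lit 196674) (nat_lit 15) (.e (nat_lit 89856) (nat_lit 20) (.e (nat_lit 1800) (nat_lit 119) .nil)))))) (.g (nat_lit 1) (.e (nat_lit 407388) (nat_lit 0) .nil) .nil)))))) (.nd (nat_lit 7) (.nd (nat_lit 8) (.nd (nat_lit 9) 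
(.lf (nat_lit 594008) (.g (nat_lit 1332) (.e (nat_lit 516118) (nat_lit 1) (.e (nat_lit 164327) (nat_lit 230) (.e (nat_lit 163903) (nat_lit 12) (.e (nat_lit 426567) (nat_lit 34) .nil)))) (.g (nat_lit 0) (.e (nat_lit 406043) (nat_lit 0) .nil) .nil))) 
(.lf (nat_lit 594520) (.g (nat_lit 3904) (.e (nat_lit 516131) (nat_lit 3) (.e (nat_lit 221215) (nat_lit 23) (.e (nat_lit 204828) (nat_lit 18) (.e (nat_lit 57926) (nat_lit 282) (.e (nat_lit 163869) (nat_lit 2) (.e (nat_lit 196670) (nat_lit 14) (.e (nat_lit 73746) (nat_lit 3) .nil))))))) (.g (nat_lit 1) (.e (nat_lit 406954) (nat_lit 0) .nil) .nil)))) (.nd (nat_lit 9) 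
(.lf (nat_lit 594264) (.g (nat_lit 1217) (.e (nat_lit 516122) (nat_lit 2) (.e (nat_lit 213032) (nat_lit 11) (.e (nat_lit 24604) (nat_lit 2) (.e (nat_lit 90178) (nat_lit 15) .nil)))) (.g (nat_lit 0) (.e (nat_lit 406597) (nat_lit 0) .nil) .nil))) 
(.lf (nat_lit 594776) (.g (nat_lit 2132) (.e (nat_lit 516139) (nat_lit 7) (.e (nat_lit 409648) (nat_lit 18) (.e (nat_lit 303117) (nat_lit 2) (.e (nat_lit 196669) (nat_lit 14) (.e (nat_lit 81664) (nat_lit 43) .nil))))) (.g (nat_lit 0) (.e (nat_lit 407312) (nat_lit 0) .nil) .nil))))) (.nd (nat_lit 8) (.nd (nat_lit 9) 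
(.lf (nat_lit 594136) (.g (nat_lit 3104) (.e (nat_lit 516119) (nat_lit 1) (.e (nat_lit 164327) (nat_lit 230) (.e (nat_lit 163903) (nat_lit 12) (.e (nat_lit 426566) (nat_lit 34) (.e (nat_lit 393296) (nat_lit 26) (.e (nat_lit 475175) (nat_lit 24) .nil)))))) (.g (nat_lit 1) (.e (nat_lit 406275) (nat_lit 0) .nil) .nil))) 
(.lf (nat_lit 594648) (.g (nat_lit 2642) (.e (nat_lit 516139) (nat_lit 7) (.e (nat_lit 409644) (nat_lit 18) (.e (nat_lit 303119) (nat_lit 3) (.e (nat_lit 204819) (nat_lit 17) (.e (nat_lit 7936) (nat_lit 348) (.e (nat_lit 73748) (nat_lit 3) .nil)))))) (.g (nat_lit 1) (.e (nat_lit 407170) (nat_lit 0) .nil) .nil)))) (.nd (nat_lit 9) 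
(.lf (nat_lit 594392) (.g (nat_lit 1335) (.e (nat_lit 516127) (nat_lit 2) (.e (nat_lit 213032) (nat_lit 11) (.e (nat_lit 24605) (nat_lit 2) (.e (nat_lit 90176) (nat_lit 15) (.e (nat_lit 188418) (nat_lit 0) .nil))))) (.g (nat_lit 0) (.e (nat_lit 406766) (nat_lit 0) .nil) .nil))) 
(.lf (nat_lit 594904) (.g (nat_lit 3535) (.e (nat_lit 516145) (nat_lit 9) (.e (nat_lit 426438) (nat_lit 18) (.e (nat_lit 98366) (nat_lit 27) (.e (nat_lit 434247) (nat_lit 28) (.e (nat_lit 573484) (nat_lit 13) (.e (nat_lit 65639) (nat_lit 15) (.e (nat_lit 7936) (nat_lit 195) .nil))))))) (.g (nat_lit 1) (.e (nat_lit 407481) (nat_lit 0) .nil) .nil))))))) 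
(.nd (nat_lit 6) (.nd (nat_lit 7) (.nd (nat_lit 8) (.nd (nat_lit 9) 
(.lf (nat_lit 593976) (.g (nat_lit 3061) (.e (nat_lit 516118) (nat_lit 1) (.e (nat_lit 164182) (nat_lit 154) (.e (nat_lit 57379) (nat_lit 3) (.e (nat_lit 98341) (nat_lit 20) (.e (nat_lit 221210) (nat_lit 22) (.e (nat_lit 196670) (nat_lit 14) (.e (nat_lit 73746) (nat_lit 3) .nil))))))) (.g (nat_lit 1) (.e (nat_lit 405984) (nat_lit 0) .nil) .nil))) 
(.lf (nat_lit 594488) (.g (nat_lit 1955) (.e (nat_lit 516130) (nat_lit 3) (.e (nat_lit 221215) (nat_lit 23) (.e (nat_lit 204861) (nat_lit 26) (.e (nat_lit 336002) (nat_lit 2) (.e (nat_lit 90153) (nat_lit 10) .nil))))) (.g (nat_lit 0) (.e (nat_lit 406894) (nat_lit 0) .nil) .nil)))) (.nd (nat_lit 9) 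
(.lf (nat_lit 594232) (.g (nat_lit 3677) (.e (nat_lit 516120) (nat_lit 1) (.e (nat_lit 164332) (nat_lit 230) (.e (nat_lit 163902) (nat_lit 12) (.e (nat_lit 426566) (nat_lit 34) (.e (nat_lit 393291) (nat_lit 26) (.e (nat_lit 475179) (nat_lit 24) .nil)))))) (.g (nat_lit 1) (.e (nat_lit 406548) (nat_lit 0) .nil) .nil))) 
(.lf (nat_lit 594744) (.g (nat_lit 1286) (.e (nat_lit 516139) (nat_lit 7) (.e (nat_lit 409648) (nat_lit 18) (.e (nat_lit 303105) (nat_lit 0) .nil))) (.g (nat_lit 0) (.e (nat_lit 407280) (nat_lit 0) .nil) .nil))))) (.nd (nat_lit 8) (.nd (nat_lit 9) 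
(.lf (nat_lit 594104) (.g (nat_lit 1545) (.e (nat_lit 516119) (nat_lit 1) (.e (nat_lit 164325) (nat_lit 230) (.e (nat_lit 163907) (nat_lit 12) (.e (nat_lit 426502) (nat_lit 27) .nil)))) (.g (nat_lit 0) (.e (nat_lit 406208) (nat_lit 0) .nil) .nil))) 
(.lf (nat_lit 594616) (.g (nat_lit 977) (.e (nat_lit 516138) (nat_lit 7) (.e (nat_lit 409649) (nat_lit 18) (.e (nat_lit 303118) (nat_lit 3) (.e (nat_lit 204869) (nat_lit 29) .nil)))) (.g (nat_lit 0) (.e (nat_lit 407127) (nat_lit 0) .nil) .nil)))) (.nd (nat_lit 9) 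
(.lf (nat_lit 594360) (.g (nat_lit 3111) (.e (nat_lit 516126) (nat_lit 2) (.e (nat_lit 213032) (nat_lit 11) (.e (nat_lit 24608) (nat_lit 3) (.e (nat_lit 98365) (nat_lit 26) (.e (nat_lit 426306) (nat_lit 12) (.e (nat_lit 475179) (nat_lit 24) .nil)))))) (.g (nat_lit 1) (.e (nat_lit 406723) (nat_lit 0) .nil) .nil))) 
(.lf (nat_lit 594872) (.g (nat_lit 2949) (.e (nat_lit 516141) (nat_lit 8) (.e (nat_lit 417828) (nat_lit 18) (.e (nat_lit 303119) (nat_lit 3) (.e (nat_lit 204855) (nat_lit 26) (.e (nat_lit 336183) (nat_lit 11) .nil))))) (.g (nat_lit 0) (.e (nat_lit 407439) (nat_lit 0) .nil) .nil)))))) (.nd (nat_lit 7) (.nd (nat_lit 8) (.nd (nat_lit 9) 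
(.lf (nat_lit 594040) (.g (nat_lit 2377) (.e (nat_lit 516118) (nat_lit 1) (.e (nat_lit 164332) (nat_lit 230) (.e (nat_lit 163905) (nat_lit 12) (.e (nat_lit 426504) (nat_lit 27) .nil)))) (.g (nat_lit 0) (.e (nat_lit 406090) (nat_lit 0) .nil) .nil))) 
(.lf (nat_lit 594552) (.g (nat_lit 3324) (.e (nat_lit 516138) (nat_lit 7) (.e (nat_lit 409643) (nat_lit 18) (.e (nat_lit 303117) (nat_lit 2) (.e (nat_lit 196666) (nat_lit 13) (.e (nat_lit 65619) (nat_lit 10) .nil))))) (.g (nat_lit 0) (.e (nat_lit 407034) (nat_lit 0) .nil) .nil)))) (.nd (nat_lit 9) 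
(.lf (nat_lit 594296) (.g (nat_lit 1642) (.e (nat_lit 516124) (nat_lit 2) (.e (nat_lit 213032) (nat_lit 11) (.e (nat_lit 24607) (nat_lit 3) (.e (nat_lit 106240) (nat_lit 26) .nil)))) (.g (nat_lit 0) (.e (nat_lit 406637) (nat_lit 0) .nil) .nil))) 
(.lf (nat_lit 594808) (.g (nat_lit 1133) (.e (nat_lit 516139) (nat_lit 7) (.e (nat_lit 409649) (nat_lit 18) (.e (nat_lit 303111) (nat_lit 0) (.e (nat_lit 3238) (nat_lit 197) .nil)))) (.g (nat_lit 0) (.e (nat_lit 407354) (nat_lit 0) .nil) .nil))))) (.nd (nat_lit 8) (.nd (nat_lit 9) 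
(.lf (nat_lit 594168) (.g (nat_lit 4056) (.e (nat_lit 516120) (nat_lit 1) (.e (nat_lit 164329) (nat_lit 230) (.e (nat_lit 163902) (nat_lit 12) (.e (nat_lit 426568) (nat_lit 34) (.e (nat_lit 393234) (nat_lit 17) (.e (nat_lit 7376) (nat_lit 389) (.e (nat_lit 8318) (nat_lit 64) .nil))))))) (.g (nat_lit 1) (.e (nat_lit 406393) (nat_lit 0) .nil) .nil))) 
(.lf (nat_lit 594680) (.g (nat_lit 1313) (.e (nat_lit 516139) (nat_lit 7) (.e (nat_lit 409645) (nat_lit 18) (.e (nat_lit 303119) (nat_lit 3) (.e (nat_lit 204855) (nat_lit 26) .nil)))) (.g (nat_lit 0) (.e (nat_lit 407205) (nat_lit 0) .nil) .nil)))) (.nd (nat_lit 9) 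
(.lf (nat_lit 594424) (.g (nat_lit 3117) (.e (nat_lit 516129) (nat_lit 3) (.e (nat_lit 221210) (nat_lit 22) (.e (nat_lit 196666) (nat_lit 13) (.e (nat_lit 65566) (nat_lit 2) (.e (nat_lit 98048) (nat_lit 2) (.e (nat_lit 16388) (nat_lit 0) (.e (nat_lit 3212) (nat_lit 195) .nil))))))) (.g (nat_lit 1) (.e (nat_lit 406826) (nat_lit 0) .nil) .nil))) 
(.lf (nat_lit 594936) (.g (nat_lit 2009) (.e (nat_lit 516146) (nat_lit 9) (.e (nat_lit 426438) (nat_lit 18) (.e (nat_lit 98386) (nat_lit 32) (.e (nat_lit 475177) (nat_lit 24) (.e (nat_lit 516178) (nat_lit 15) .nil))))) (.g (nat_lit 0) (.e (nat_lit 407514) (nat_lit 0) .nil) .nil)))))))))) 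
(.nd (nat_lit 3) (.nd (nat_lit 4) (.nd (nat_lit 5) (.nd (nat_lit 6) (.nd (nat_lit 7) 
(.nd (nat_lit 8) (.nd (nat_lit 9) 
(.lf (nat_lit 593924) (.g (nat_lit 1161) (.e (nat_lit 516117) (nat_lit 1) (.e (nat_lit 164330) (nat_lit 230) (.e (nat_lit 163905) (nat_lit 12) (.e (nat_lit 426509) (nat_lit 27) .nil)))) (.g (nat_lit 0) (.e (nat_lit 405871) (nat_lit 0) .nil) .nil))) 
(.lf (nat_lit 594436) (.g (nat_lit 2031) (.e (nat_lit 516129) (nat_lit 3) (.e (nat_lit 221210) (nat_lit 22) (.e (nat_lit 196668) (nat_lit 14) (.e (nat_lit 81664) (nat_lit 5) (.e (nat_lit 532583) (nat_lit 26) (.e (nat_lit 426009) (nat_lit 0) (.e (nat_lit 3212) (nat_lit 195) .nil))))))) (.g (nat_lit 1) (.e (nat_lit 406838) (nat_lit 0) .nil) .nil)))) (.nd (nat_lit 9) 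
(.lf (nat_lit 594180) (.g (nat_lit 1791) (.e (nat_lit 516120) (nat_lit 1) (.e (nat_lit 164330) (nat_lit 230) (.e (nat_lit 163902) (nat_lit 12) (.e (nat_lit 426478) (nat_lit 27) .nil)))) (.g (nat_lit 0) (.e (nat_lit 406433) (nat_lit 0) .nil) .nil))) 
(.lf (nat_lit 594692) (.g (nat_lit 3361) (.e (nat_lit 516139) (nat_lit 7) (.e (nat_lit 409646) (nat_lit 18) (.e (nat_lit 303117) (nat_lit 2) (.e (nat_lit 196666) (nat_lit 13) (.e (nat_lit 65617) (nat_lit 10) .nil))))) (.g (nat_lit 0) (.e (nat_lit 407221) (nat_lit 0) .nil) .nil))))) (.nd (nat_lit 8) (.nd (nat_lit 9) 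
(.lf (nat_lit 594052) (.g (nat_lit 3658) (.e (nat_lit 516118) (nat_lit 1) (.e (nat_lit 164332) (nat_lit 230) (.e (nat_lit 163905) (nat_lit 12) (.e (nat_lit 426568) (nat_lit 34) (.e (nat_lit 393294) (nat_lit 26) (.e (nat_lit 475177) (nat_lit 24) .nil)))))) (.g (nat_lit 1) (.e (nat_lit 406103) (nat_lit 0) .nil) .nil))) 
(.lf (nat_lit 594564) (.g (nat_lit 1462) (.e (nat_lit 516138) (nat_lit 7) (.e (nat_lit 409645) (nat_lit 18) (.e (nat_lit 303117) (nat_lit 2) (.e (nat_lit 196661) (nat_lit 12) .nil)))) (.g (nat_lit 0) (.e (nat_lit 407047) (nat_lit 0) .nil) .nil)))) (.nd (nat_lit 9) 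
(.lf (nat_lit 594308) (.g (nat_lit 1358) (.e (nat_lit 516125) (nat_lit 2) (.e (nat_lit 213032) (nat_lit 11) (.e (nat_lit 24604) (nat_lit 2) (.e (nat_lit 90176) (nat_lit 15) .nil)))) (.g (nat_lit 0) (.e (nat_lit 406668) (nat_lit 0) .nil) .nil))) 
(.lf (nat_lit 594820) (.g (nat_lit 3617) (.e (nat_lit 516139) (nat_lit 7) (.e (nat_lit 409649) (nat_lit 18) (.e (nat_lit 303117) (nat_lit 2) (.e (nat_lit 196666) (nat_lit 13) (.e (nat_lit 65595) (nat_lit 9) .nil))))) (.g (nat_lit 0) (.e (nat_lit 407368) (nat_lit 0) .nil) .nil)))))) (.nd (nat_lit 7) (.nd (nat_lit 8) (.nd (nat_lit 9) 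
(.lf (nat_lit 593988) (.g (nat_lit 385) (.e (nat_lit 516118) (nat_lit 1) (.e (nat_lit 164324) (nat_lit 230) (.e (nat_lit 163903) (nat_lit 12) .nil))) (.g (nat_lit 0) (.e (nat_lit 406007) (nat_lit 0) .nil) .nil))) 
(.lf (nat_lit 594500) (.g (nat_lit 2317) (.e (nat_lit 516131) (nat_lit 3) (.e (nat_lit 221212) (nat_lit 22) (.e (nat_lit 196663) (nat_lit 13) (.e (nat_lit 65568) (nat_lit 2) (.e (nat_lit 98048) (nat_lit 2) (.e (nat_lit 16388) (nat_lit 0) (.e (nat_lit 3212) (nat_lit 195) .nil))))))) (.g (nat_lit 1) (.e (nat_lit 406931) (nat_lit 0) .nil) .nil)))) (.nd (nat_lit 9) 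
(.lf (nat_lit 594244) (.g (nat_lit 1641) (.e (nat_lit 516120) (nat_lit 1) (.e (nat_lit 164332) (nat_lit 230) (.e (nat_lit 163905) (nat_lit 12) (.e (nat_lit 426509) (nat_lit 27) .nil)))) (.g (nat_lit 0) (.e (nat_lit 406563) (nat_lit 0) .nil) .nil))) 
(.lf (nat_lit 594756) (.g (nat_lit 2989) (.e (nat_lit 516139) (nat_lit 7) (.e (nat_lit 409648) (nat_lit 18) (.e (nat_lit 303116) (nat_lit 2) (.e (nat_lit 196666) (nat_lit 13) (.e (nat_lit 65613) (nat_lit 10) (.e (nat_lit 344119) (nat_lit 21) .nil)))))) (.g (nat_lit 1) (.e (nat_lit 407292) (nat_lit 0) .nil) .nil))))) (.nd (nat_lit 8) (.nd (nat_lit 9) 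
(.lf (nat_lit 594116) (.g (nat_lit 797) (.e (nat_lit 516119) (nat_lit 1) (.e (nat_lit 164326) (nat_lit 230) (.e (nat_lit 163903) (nat_lit 12) (.e (nat_lit 426479) (nat_lit 27) .nil)))) (.g (nat_lit 0) (.e (nat_lit 406249) (nat_lit 0) .nil) .nil))) 
(.lf (nat_lit 594628) (.g (nat_lit 3098) (.e (nat_lit 516139) (nat_lit 7) (.e (nat_lit 409623) (nat_lit 10) (.e (nat_lit 5664) (nat_lit 312) (.e (nat_lit 2679) (nat_lit 168) (.e (nat_lit 204870) (nat_lit 29) (.e (nat_lit 360467) (nat_lit 3) .nil)))))) (.g (nat_lit 1) (.e (nat_lit 407149) (nat_lit 0) .nil) .nil)))) (.nd (nat_lit 9) 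
(.lf (nat_lit 594372) (.g (nat_lit 1089) (.e (nat_lit 516127) (nat_lit 2) (.e (nat_lit 213030) (nat_lit 11) (.e (nat_lit 24605) (nat_lit 2) (.e (nat_lit 90178) (nat_lit 15) (.e (nat_lit 196352) (nat_lit 0) .nil))))) (.g (nat_lit 0) (.e (nat_lit 406743) (nat_lit 0) .nil) .nil))) 
(.lf (nat_lit 594884) (.g (nat_lit 2846) (.e (nat_lit 516142) (nat_lit 8) (.e (nat_lit 417828) (nat_lit 18) (.e (nat_lit 303119) (nat_lit 3) (.e (nat_lit 204869) (nat_lit 29) (.e (nat_lit 368384) (nat_lit 3) .nil))))) (.g (nat_lit 1) (.e (nat_lit 407455) (nat_lit 0) .nil) .nil))))))) (.nd (nat_lit 6) (.nd (nat_lit 7) (.nd (nat_lit 8) (.nd (nat_lit 9) 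
(.lf (nat_lit 593956) (.g (nat_lit 1404) (.e (nat_lit 516117) (nat_lit 1) (.e (nat_lit 164332) (nat_lit 230) (.e (nat_lit 163941) (nat_lit 19) (.e (nat_lit 483340) (nat_lit 9) .nil)))) (.g (nat_lit 0) (.e (nat_lit 405938) (nat_lit 0) .nil) .nil))) 
(.lf (nat_lit 594468) (.g (nat_lit 2404) (.e (nat_lit 516130) (nat_lit 3) (.e (nat_lit 221211) (nat_lit 22) (.e (nat_lit 196666) (nat_lit 13) (.e (nat_lit 65566) (nat_lit 2) (.e (nat_lit 98048) (nat_lit 2) (.e (nat_lit 16388) (nat_lit 0) (.e (nat_lit 3213) (nat_lit 195) .nil))))))) (.g (nat_lit 1) (.e (nat_lit 406872) (nat_lit 0) .nil) .nil)))) (.nd (nat_lit 9) 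
(.lf (nat_lit 594212) (.g (nat_lit 2195) (.e (nat_lit 516120) (nat_lit 1) (.e (nat_lit 164330) (nat_lit 230) (.e (nat_lit 163941) (nat_lit 19) (.e (nat_lit 483341) (nat_lit 9) (.e (nat_lit 426198) (nat_lit 9) (.e (nat_lit 426350) (nat_lit 15) (.e (nat_lit 1795) (nat_lit 119) .nil))))))) (.g (nat_lit 1) (.e (nat_lit 406510) (nat_lit 0) .nil) .nil))) 
(.lf (nat_lit 594724) (.g (nat_lit 3233) (.e (nat_lit 516139) (nat_lit 7) (.e (nat_lit 409647) (nat_lit 18) (.e (nat_lit 303118) (nat_lit 3) (.e (nat_lit 204855) (nat_lit 26) (.e (nat_lit 336163) (nat_lit 10) (.e (nat_lit 344119) (nat_lit 21) .nil)))))) (.g (nat_lit 1) (.e (nat_lit 407257) (nat_lit 0) .nil) .nil))))) (.nd (nat_lit 8) (.nd (nat_lit 9) 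
(.lf (nat_lit 594084) (.g (nat_lit 1753) (.e (nat_lit 516119) (nat_lit 1) (.e (nat_lit 164324) (nat_lit 230) (.e (nat_lit 163907) (nat_lit 12) (.e (nat_lit 426566) (nat_lit 34) .nil)))) (.g (nat_lit 0) (.e (nat_lit 406169) (nat_lit 0) .nil) .nil))) 
(.lf (nat_lit 594596) (.g (nat_lit 2310) (.e (nat_lit 516138) (nat_lit 7) (.e (nat_lit 409646) (nat_lit 18) (.e (nat_lit 303117) (nat_lit 2) (.e (nat_lit 196674) (nat_lit 15) (.e (nat_lit 81936) (nat_lit 20) .nil))))) (.g (nat_lit 0) (.e (nat_lit 407099) (nat_lit 0) .nil) .nil)))) (.nd (nat_lit 9) 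
(.lf (nat_lit 594340) (.g (nat_lit 1684) (.e (nat_lit 516126) (nat_lit 2) (.e (nat_lit 213032) (nat_lit 11) (.e (nat_lit 24604) (nat_lit 2) (.e (nat_lit 90176) (nat_lit 15) (.e (nat_lit 196352) (nat_lit 0) (.e (nat_lit 1784) (nat_lit 119) .nil)))))) (.g (nat_lit 1) (.e (nat_lit 406701) (nat_lit 0) .nil) .nil))) 
(.lf (nat_lit 594852) (.g (nat_lit 1802) (.e (nat_lit 516139) (nat_lit 7) (.e (nat_lit 409649) (nat_lit 18) (.e (nat_lit 303118) (nat_lit 3) (.e (nat_lit 204866) (nat_lit 28) (.e (nat_lit 360192) (nat_lit 20) .nil))))) (.g (nat_lit 0) (.e (nat_lit 407405) (nat_lit 0) .nil) .nil)))))) (.nd (nat_lit 7) (.nd (nat_lit 8) (.nd (nat_lit 9) 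
(.lf (nat_lit 594020) (.g (nat_lit 3711) (.e (nat_lit 516118) (nat_lit 1) (.e (nat_lit 164332) (nat_lit 230) (.e (nat_lit 163902) (nat_lit 12) (.e (nat_lit 426568) (nat_lit 34) (.e (nat_lit 393291) (nat_lit 26) (.e (nat_lit 475177) (nat_lit 24) .nil)))))) (.g (nat_lit 1) (.e (nat_lit 406069) (nat_lit 0) .nil) .nil))) 
(.lf (nat_lit 594532) (.g (nat_lit 2615) (.e (nat_lit 516131) (nat_lit 3) (.e (nat_lit 221215) (nat_lit 23) (.e (nat_lit 204830) (nat_lit 18) (.e (nat_lit 57926) (nat_lit 282) (.e (nat_lit 163866) (nat_lit 2) (.e (nat_lit 196668) (nat_lit 14) (.e (nat_lit 73747) (nat_lit 3) .nil))))))) (.g (nat_lit 1) (.e (nat_lit 406967) (nat_lit 0) .nil) .nil)))) (.nd (nat_lit 9) 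
(.lf (nat_lit 594276) (.g (nat_lit 1640) (.e (nat_lit 516122) (nat_lit 2) (.e (nat_lit 213032) (nat_lit 11) (.e (nat_lit 24608) (nat_lit 3) (.e (nat_lit 98381) (nat_lit 31) (.e (nat_lit 474880) (nat_lit 0) .nil))))) (.g (nat_lit 0) (.e (nat_lit 406609) (nat_lit 0) .nil) .nil))) 
(.lf (nat_lit 594788) (.g (nat_lit 4087) (.e (nat_lit 516139) (nat_lit 7) (.e (nat_lit 409648) (nat_lit 18) (.e (nat_lit 303118) (nat_lit 3) (.e (nat_lit 204855) (nat_lit 26) (.e (nat_lit 336176) (nat_lit 10) (.e (nat_lit 344119) (nat_lit 21) .nil)))))) (.g (nat_lit 1) (.e (nat_lit 407325) (nat_lit 0) .nil) .nil))))) (.nd (nat_lit 8) (.nd (nat_lit 9) 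
(.lf (nat_lit 594148) (.g (nat_lit 1193) (.e (nat_lit 516119) (nat_lit 1) (.e (nat_lit 164403) (nat_lit 256) (.e (nat_lit 57389) (nat_lit 5) (.e (nat_lit 114712) (nat_lit 21) .nil)))) (.g (nat_lit 0) (.e (nat_lit 406308) (nat_lit 0) .nil) .nil))) 
(.lf (nat_lit 594660) (.g (nat_lit 2857) (.e (nat_lit 516139) (nat_lit 7) (.e (nat_lit 409644) (nat_lit 18) (.e (nat_lit 303119) (nat_lit 3) (.e (nat_lit 204868) (nat_lit 29) (.e (nat_lit 360468) (nat_lit 3) .nil))))) (.g (nat_lit 1) (.e (nat_lit 407183) (nat_lit 0) .nil) .nil)))) (.nd (nat_lit 9) 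
(.lf (nat_lit 594404) (.g (nat_lit 964) (.e (nat_lit 524032) (nat_lit 2) (.e (nat_lit 213032) (nat_lit 11) (.e (nat_lit 24604) (nat_lit 2) (.e (nat_lit 90170) (nat_lit 13) .nil)))) (.g (nat_lit 0) (.e (nat_lit 406789) (nat_lit 0) .nil) .nil))) 
(.lf (nat_lit 594916) (.g (nat_lit 1455) (.e (nat_lit 516146) (nat_lit 9) (.e (nat_lit 426131) (nat_lit 3) (.e (nat_lit 204838) (nat_lit 20) (.e (nat_lit 114702) (nat_lit 20) .nil)))) (.g (nat_lit 0) (.e (nat_lit 407493) (nat_lit 0) .nil) .nil)))))))) (.nd (nat_lit 5) (.nd (nat_lit 6) (.nd (nat_lit 7) (.nd (nat_lit 8) (.nd (nat_lit 9) 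
(.lf (nat_lit 593940) (.g (nat_lit 1121) (.e (nat_lit 516117) (nat_lit 1) (.e (nat_lit 164332) (nat_lit 230) (.e (nat_lit 163902) (nat_lit 12) (.e (nat_lit 426567) (nat_lit 34) .nil)))) (.g (nat_lit 0) (.e (nat_lit 405919) (nat_lit 0) .nil) .nil))) 
(.lf (nat_lit 594452) (.g (nat_lit 2522) (.e (nat_lit 516129) (nat_lit 3) (.e (nat_lit 221210) (nat_lit 22) (.e (nat_lit 196670) (nat_lit 14) (.e (nat_lit 73746) (nat_lit 3) (.e (nat_lit 516105) (nat_lit 0) (.e (nat_lit 7936) (nat_lit 216) (.e (nat_lit 688171) (nat_lit 15) (.e (nat_lit 57465) (nat_lit 23) .nil)))))))) (.g (nat_lit 1) (.e (nat_lit 406854) (nat_lit 0) .nil) .nil)))) 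
(.nd (nat_lit 9) 
(.lf (nat_lit 594196) (.g (nat_lit 1855) (.e (nat_lit 516120) (nat_lit 1) (.e (nat_lit 164330) (nat_lit 230) (.e (nat_lit 163905) (nat_lit 12) (.e (nat_lit 426515) (nat_lit 27) (.e (nat_lit 336408) (nat_lit 27) .nil))))) (.g (nat_lit 0) (.e (nat_lit 406452) (nat_lit 0) .nil) .nil))) 
(.lf (nat_lit 594708) (.g (nat_lit 2356) (.e (nat_lit 516139) (nat_lit 7) (.e (nat_lit 409646) (nat_lit 18) (.e (nat_lit 303118) (nat_lit 3) (.e (nat_lit 204855) (nat_lit 26) (.e (nat_lit 336163) (nat_lit 10) .nil))))) (.g (nat_lit 0) (.e (nat_lit 407237) (nat_lit 0) .nil) .nil))))) (.nd (nat_lit 8) (.nd (nat_lit 9) 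
(.lf (nat_lit 594068) (.g (nat_lit 3960) (.e (nat_lit 516119) (nat_lit 1) (.e (nat_lit 164183) (nat_lit 154) (.e (nat_lit 57378) (nat_lit 3) (.e (nat_lit 98341) (nat_lit 20) (.e (nat_lit 221210) (nat_lit 22) (.e (nat_lit 196668) (nat_lit 14) (.e (nat_lit 73747) (nat_lit 3) .nil))))))) (.g (nat_lit 1) (.e (nat_lit 406146) (nat_lit 0) .nil) .nil))) 
(.lf (nat_lit 594580) (.g (nat_lit 3389) (.e (nat_lit 516138) (nat_lit 7) (.e (nat_lit 409645) (nat_lit 18) (.e (nat_lit 303119) (nat_lit 3) (.e (nat_lit 204861) (nat_lit 26) (.e (nat_lit 336186) (nat_lit 11) (.e (nat_lit 368675) (nat_lit 21) .nil)))))) (.g (nat_lit 1) (.e (nat_lit 407077) (nat_lit 0) .nil) .nil)))) (.nd (nat_lit 9) 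
(.lf (nat_lit 594324) (.g (nat_lit 1931) (.e (nat_lit 516126) (nat_lit 2) (.e (nat_lit 213030) (nat_lit 11) (.e (nat_lit 24605) (nat_lit 2) (.e (nat_lit 90176) (nat_lit 15) (.e (nat_lit 188420) (nat_lit 0) (.e (nat_lit 1800) (nat_lit 119) .nil)))))) (.g (nat_lit 1) (.e (nat_lit 406685) (nat_lit 0) .nil) .nil))) 
(.lf (nat_lit 594836) (.g (nat_lit 3500) (.e (nat_lit 516139) (nat_lit 7) (.e (nat_lit 409649) (nat_lit 18) (.e (nat_lit 303117) (nat_lit 2) (.e (nat_lit 196674) (nat_lit 15) (.e (nat_lit 81946) (nat_lit 20) (.e (nat_lit 1802) (nat_lit 119) .nil)))))) (.g (nat_lit 1) (.e (nat_lit 407384) (nat_lit 0) .nil) .nil)))))) (.nd (nat_lit 7) (.nd (nat_lit 8) (.nd (nat_lit 9) 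
(.lf (nat_lit 594004) (.g (nat_lit 1853) (.e (nat_lit 516118) (nat_lit 1) (.e (nat_lit 164327) (nat_lit 230) (.e (nat_lit 163903) (nat_lit 12) (.e (nat_lit 426478) (nat_lit 27) (.e (nat_lit 336386) (nat_lit 27) .nil))))) (.g (nat_lit 0) (.e (nat_lit 406039) (nat_lit 0) .nil) .nil))) 
(.lf (nat_lit 594516) (.g (nat_lit 3268) (.e (nat_lit 516131) (nat_lit 3) (.e (nat_lit 221214) (nat_lit 23) (.e (nat_lit 204830) (nat_lit 18) (.e (nat_lit 57931) (nat_lit 282) (.e (nat_lit 163874) (nat_lit 3) (.e (nat_lit 204873) (nat_lit 30) (.e (nat_lit 368676) (nat_lit 21) .nil))))))) (.g (nat_lit 1) (.e (nat_lit 406947) (nat_lit 0) .nil) .nil)))) (.nd (nat_lit 9) 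
(.lf (nat_lit 594260) (.g (nat_lit 1148) (.e (nat_lit 516121) (nat_lit 2) (.e (nat_lit 213032) (nat_lit 11) (.e (nat_lit 24608) (nat_lit 3) .nil))) (.g (nat_lit 0) (.e (nat_lit 406593) (nat_lit 0) .nil) .nil))) 
(.lf (nat_lit 594772) (.g (nat_lit 3501) (.e (nat_lit 516139) (nat_lit 7) (.e (nat_lit 409648) (nat_lit 18) (.e (nat_lit 303117) (nat_lit 2) (.e (nat_lit 196666) (nat_lit 13) (.e (nat_lit 65616) (nat_lit 10) .nil))))) (.g (nat_lit 0) (.e (nat_lit 407308) (nat_lit 0) .nil) .nil))))) (.nd (nat_lit 8) (.nd (nat_lit 9) 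
(.lf (nat_lit 594132) (.g (nat_lit 1433) (.e (nat_lit 516119) (nat_lit 1) (.e (nat_lit 164327) (nat_lit 230) (.e (nat_lit 163903) (nat_lit 12) (.e (nat_lit 426481) (nat_lit 27) .nil)))) (.g (nat_lit 0) (.e (nat_lit 406270) (nat_lit 0) .nil) .nil))) 
(.lf (nat_lit 594644) (.g (nat_lit 1243) (.e (nat_lit 516139) (nat_lit 7) (.e (nat_lit 409644) (nat_lit 18) (.e (nat_lit 303117) (nat_lit 2) (.e (nat_lit 196674) (nat_lit 15) .nil)))) (.g (nat_lit 0) (.e (nat_lit 407166) (nat_lit 0) .nil) .nil)))) (.nd (nat_lit 9) 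
(.lf (nat_lit 594388) (.g (nat_lit 1518) (.e (nat_lit 516127) (nat_lit 2) (.e (nat_lit 213032) (nat_lit 11) (.e (nat_lit 24604) (nat_lit 2) (.e (nat_lit 90178) (nat_lit 15) (.e (nat_lit 196352) (nat_lit 0) .nil))))) (.g (nat_lit 0) (.e (nat_lit 406762) (nat_lit 0) .nil) .nil))) 
(.lf (nat_lit 594900) (.g (nat_lit 2440) (.e (nat_lit 516145) (nat_lit 9) (.e (nat_lit 426438) (nat_lit 18) (.e (nat_lit 98366) (nat_lit 27) (.e (nat_lit 434244) (nat_lit 28) (.e (nat_lit 573480) (nat_lit 13) (.e (nat_lit 65636) (nat_lit 15) (.e (nat_lit 7936) (nat_lit 195) .nil))))))) (.g (nat_lit 1) (.e (nat_lit 407477) (nat_lit 0) .nil) .nil))))))) 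
(.nd (nat_lit 6) (.nd (nat_lit 7) (.nd (nat_lit 8) (.nd (nat_lit 9) 
(.lf (nat_lit 593972) (.g (nat_lit 2375) (.e (nat_lit 516118) (nat_lit 1) (.e (nat_lit 164179) (nat_lit 154) (.e (nat_lit 57411) (nat_lit 12) (.e (nat_lit 336454) (nat_lit 34) (.e (nat_lit 483401) (nat_lit 25) .nil))))) (.g (nat_lit 0) (.e (nat_lit 405978) (nat_lit 0) .nil) .nil))) 
(.lf (nat_lit 594484) (.g (nat_lit 3547) (.e (nat_lit 516130) (nat_lit 3) (.e (nat_lit 221215) (nat_lit 23) (.e (nat_lit 204829) (nat_lit 18) (.e (nat_lit 57931) (nat_lit 282) (.e (nat_lit 163869) (nat_lit 2) (.e (nat_lit 196668) (nat_lit 14) (.e (nat_lit 73747) (nat_lit 3) .nil))))))) (.g (nat_lit 1) (.e (nat_lit 406890) (nat_lit 0) .nil) .nil)))) (.nd (nat_lit 9) 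
(.lf (nat_lit 594228) (.g (nat_lit 1173) (.e (nat_lit 516120) (nat_lit 1) (.e (nat_lit 164332) (nat_lit 230) (.e (nat_lit 163874) (nat_lit 3) (.e (nat_lit 204837) (nat_lit 20) .nil)))) (.g (nat_lit 0) (.e (nat_lit 406544) (nat_lit 0) .nil) .nil))) 
(.lf (nat_lit 594740) (.g (nat_lit 2188) (.e (nat_lit 516139) (nat_lit 7) (.e (nat_lit 409647) (nat_lit 18) (.e (nat_lit 303119) (nat_lit 3) (.e (nat_lit 204868) (nat_lit 29) (.e (nat_lit 368384) (nat_lit 3) .nil))))) (.g (nat_lit 0) (.e (nat_lit 407276) (nat_lit 0) .nil) .nil))))) (.nd (nat_lit 8) (.nd (nat_lit 9) 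
(.lf (nat_lit 594100) (.g (nat_lit 1211) (.e (nat_lit 516119) (nat_lit 1) (.e (nat_lit 164325) (nat_lit 230) (.e (nat_lit 163907) (nat_lit 12) (.e (nat_lit 426478) (nat_lit 27) .nil)))) (.g (nat_lit 0) (.e (nat_lit 406202) (nat_lit 0) .nil) .nil))) 
(.lf (nat_lit 594612) (.g (nat_lit 1356) (.e (nat_lit 516138) (nat_lit 7) (.e (nat_lit 409649) (nat_lit 18) (.e (nat_lit 303112) (nat_lit 0) .nil))) (.g (nat_lit 0) (.e (nat_lit 407123) (nat_lit 0) .nil) .nil)))) (.nd (nat_lit 9) 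
(.lf (nat_lit 594356) (.g (nat_lit 3166) (.e (nat_lit 516126) (nat_lit 2) (.e (nat_lit 213032) (nat_lit 11) (.e (nat_lit 24607) (nat_lit 3) (.e (nat_lit 98365) (nat_lit 26) (.e (nat_lit 426306) (nat_lit 12) (.e (nat_lit 475179) (nat_lit 24) .nil)))))) (.g (nat_lit 1) (.e (nat_lit 406718) (nat_lit 0) .nil) .nil))) 
(.lf (nat_lit 594868) (.g (nat_lit 998) (.e (nat_lit 516139) (nat_lit 7) (.e (nat_lit 409640) (nat_lit 17) (.e (nat_lit 294928) (nat_lit 2) (.e (nat_lit 90133) (nat_lit 9) .nil)))) (.g (nat_lit 0) (.e (nat_lit 407431) (nat_lit 0) .nil) .nil)))))) (.nd (nat_lit 7) (.nd (nat_lit 8) (.nd (nat_lit 9) 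
(.lf (nat_lit 594036) (.g (nat_lit 2377) (.e (nat_lit 516118) (nat_lit 1) (.e (nat_lit 164332) (nat_lit 230) (.e (nat_lit 163905) (nat_lit 12) (.e (nat_lit 426493) (nat_lit 27) .nil)))) (.g (nat_lit 0) (.e (nat_lit 406086) (nat_lit 0) .nil) .nil))) 
(.lf (nat_lit 594548) (.g (nat_lit 2580) (.e (nat_lit 516131) (nat_lit 3) (.e (nat_lit 221215) (nat_lit 23) (.e (nat_lit 204861) (nat_lit 26) (.e (nat_lit 336012) (nat_lit 2) (.e (nat_lit 90153) (nat_lit 10) .nil))))) (.g (nat_lit 0) (.e (nat_lit 406983) (nat_lit 0) .nil) .nil)))) (.nd (nat_lit 9) 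
(.lf (nat_lit 594292) (.g (nat_lit 824) (.e (nat_lit 516124) (nat_lit 2) (.e (nat_lit 213032) (nat_lit 11) (.e (nat_lit 24605) (nat_lit 2) .nil))) (.g (nat_lit 0) (.e (nat_lit 406632) (nat_lit 0) .nil) .nil))) 
(.lf (nat_lit 594804) (.g (nat_lit 3805) (.e (nat_lit 516139) (nat_lit 7) (.e (nat_lit 409648) (nat_lit 18) (.e (nat_lit 303119) (nat_lit 3) (.e (nat_lit 204869) (nat_lit 29) (.e (nat_lit 360468) (nat_lit 3) .nil))))) (.g (nat_lit 1) (.e (nat_lit 407349) (nat_lit 0) .nil) .nil))))) (.nd (nat_lit 8) (.nd (nat_lit 9) 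
(.lf (nat_lit 594164) (.g (nat_lit 2467) (.e (nat_lit 516120) (nat_lit 1) (.e (nat_lit 164329) (nat_lit 230) (.e (nat_lit 163902) (nat_lit 12) (.e (nat_lit 426568) (nat_lit 34) (.e (nat_lit 393233) (nat_lit 17) (.e (nat_lit 7376) (nat_lit 389) (.e (nat_lit 8319) (nat_lit 64) .nil))))))) (.g (nat_lit 1) (.e (nat_lit 406389) (nat_lit 0) .nil) .nil))) 
(.lf (nat_lit 594676) (.g (nat_lit 3814) (.e (nat_lit 516139) (nat_lit 7) (.e (nat_lit 409645) (nat_lit 18) (.e (nat_lit 303117) (nat_lit 2) (.e (nat_lit 196674) (nat_lit 15) (.e (nat_lit 81947) (nat_lit 20) (.e (nat_lit 1801) (nat_lit 119) .nil)))))) (.g (nat_lit 1) (.e (nat_lit 407201) (nat_lit 0) .nil) .nil)))) (.nd (nat_lit 9) 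
(.lf (nat_lit 594420) (.g (nat_lit 2528) (.e (nat_lit 516129) (nat_lit 3) (.e (nat_lit 221210) (nat_lit 22) (.e (nat_lit 196663) (nat_lit 13) (.e (nat_lit 65568) (nat_lit 2) (.e (nat_lit 98048) (nat_lit 2) (.e (nat_lit 16388) (nat_lit 0) (.e (nat_lit 3212) (nat_lit 195) .nil))))))) (.g (nat_lit 1) (.e (nat_lit 406822) (nat_lit 0) .nil) .nil))) 
(.lf (nat_lit 594932) (.g (nat_lit 3080) (.e (nat_lit 516146) (nat_lit 9) (.e (nat_lit 426438) (nat_lit 18) (.e (nat_lit 98367) (nat_lit 27) (.e (nat_lit 434248) (nat_lit 28) (.e (nat_lit 573482) (nat_lit 13) (.e (nat_lit 73472) (nat_lit 15) (.e (nat_lit 3213) (nat_lit 195) .nil))))))) (.g (nat_lit 1) (.e (nat_lit 407510) (nat_lit 0) .nil) .nil))))))))) 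
(.nd (nat_lit 4) (.nd (nat_lit 5) (.nd (nat_lit 6) (.nd (nat_lit 7) (.nd (nat_lit 8) 
(.nd (nat_lit 9) 
(.lf (nat_lit 593932) (.g (nat_lit 3436) (.e (nat_lit 516117) (nat_lit 1) (.e (nat_lit 164330) (nat_lit 230) (.e (nat_lit 163941) (nat_lit 19) (.e (nat_lit 483341) (nat_lit 9) (.e (nat_lit 426307) (nat_lit 12) .nil))))) (.g (nat_lit 0) (.e (nat_lit 405900) (nat_lit 0) .nil) .nil))) 
(.lf (nat_lit 594444) (.g (nat_lit 2682) (.e (nat_lit 516129) (nat_lit 3) (.e (nat_lit 221210) (nat_lit 22) (.e (nat_lit 196668) (nat_lit 14) (.e (nat_lit 73757) (nat_lit 11) (.e (nat_lit 581651) (nat_lit 4) (.e (nat_lit 172036) (nat_lit 0) (.e (nat_lit 3207) (nat_lit 195) .nil))))))) (.g (nat_lit 1) (.e (nat_lit 406846) (nat_lit 0) .nil) .nil)))) (.nd (nat_lit 9) 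
(.lf (nat_lit 594188) (.g (nat_lit 3859) (.e (nat_lit 516120) (nat_lit 1) (.e (nat_lit 164330) (nat_lit 230) (.e (nat_lit 163902) (nat_lit 12) (.e (nat_lit 426566) (nat_lit 34) (.e (nat_lit 393292) (nat_lit 26) (.e (nat_lit 475177) (nat_lit 24) .nil)))))) (.g (nat_lit 1) (.e (nat_lit 406442) (nat_lit 0) .nil) .nil))) 
(.lf (nat_lit 594700) (.g (nat_lit 3218) (.e (nat_lit 516139) (nat_lit 7) (.e (nat_lit 409646) (nat_lit 18) (.e (nat_lit 303117) (nat_lit 2) (.e (nat_lit 196674) (nat_lit 15) (.e (nat_lit 81940) (nat_lit 20) (.e (nat_lit 1799) (nat_lit 119) .nil)))))) (.g (nat_lit 1) (.e (nat_lit 407229) (nat_lit 0) .nil) .nil))))) (.nd (nat_lit 8) (.nd (nat_lit 9) 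
(.lf (nat_lit 594060) (.g (nat_lit 1441) (.e (nat_lit 516119) (nat_lit 1) (.e (nat_lit 164179) (nat_lit 154) (.e (nat_lit 57377) (nat_lit 3) (.e (nat_lit 98319) (nat_lit 17) .nil)))) (.g (nat_lit 0) (.e (nat_lit 406133) (nat_lit 0) .nil) .nil))) 
(.lf (nat_lit 594572) (.g (nat_lit 3257) (.e (nat_lit 516138) (nat_lit 7) (.e (nat_lit 409645) (nat_lit 18) (.e (nat_lit 303117) (nat_lit 2) (.e (nat_lit 196674) (nat_lit 15) (.e (nat_lit 81936) (nat_lit 20) (.e (nat_lit 1797) (nat_lit 119) .nil)))))) (.g (nat_lit 1) (.e (nat_lit 407061) (nat_lit 0) .nil) .nil)))) (.nd (nat_lit 9) 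
(.lf (nat_lit 594316) (.g (nat_lit 1397) (.e (nat_lit 516125) (nat_lit 2) (.e (nat_lit 213032) (nat_lit 11) (.e (nat_lit 24608) (nat_lit 3) (.e (nat_lit 98370) (nat_lit 28) .nil)))) (.g (nat_lit 0) (.e (nat_lit 406676) (nat_lit 0) .nil) .nil))) 
(.lf (nat_lit 594828) (.g (nat_lit 3181) (.e (nat_lit 516139) (nat_lit 7) (.e (nat_lit 409649) (nat_lit 18) (.e (nat_lit 303117) (nat_lit 2) (.e (nat_lit 196668) (nat_lit 14) (.e (nat_lit 81664) (nat_lit 43) (.e (nat_lit 57464) (nat_lit 23) .nil)))))) (.g (nat_lit 1) (.e (nat_lit 407376) (nat_lit 0) .nil) .nil)))))) (.nd (nat_lit 7) (.nd (nat_lit 8) (.nd (nat_lit 9) 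
(.lf (nat_lit 593996) (.g (nat_lit 3754) (.e (nat_lit 516118) (nat_lit 1) (.e (nat_lit 164325) (nat_lit 230) (.e (nat_lit 163903) (nat_lit 12) (.e (nat_lit 426566) (nat_lit 34) (.e (nat_lit 393294) (nat_lit 26) (.e (nat_lit 475177) (nat_lit 24) .nil)))))) (.g (nat_lit 1) (.e (nat_lit 406023) (nat_lit 0) .nil) .nil))) 
(.lf (nat_lit 594508) (.g (nat_lit 4141) (.e (nat_lit 516131) (nat_lit 3) (.e (nat_lit 221214) (nat_lit 23) (.e (nat_lit 204829) (nat_lit 18) (.e (nat_lit 57926) (nat_lit 282) (.e (nat_lit 163868) (nat_lit 2) (.e (nat_lit 196668) (nat_lit 14) (.e (nat_lit 73747) (nat_lit 3) .nil))))))) (.g (nat_lit 1) (.e (nat_lit 406939) (nat_lit 0) .nil) .nil)))) (.nd (nat_lit 9) 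
(.lf (nat_lit 594252) (.g (nat_lit 3420) (.e (nat_lit 516120) (nat_lit 1) (.e (nat_lit 164332) (nat_lit 230) (.e (nat_lit 163941) (nat_lit 19) (.e (nat_lit 483337) (nat_lit 9) (.e (nat_lit 426306) (nat_lit 12) (.e (nat_lit 475179) (nat_lit 24) .nil)))))) (.g (nat_lit 1) (.e (nat_lit 406574) (nat_lit 0) .nil) .nil))) 
(.lf (nat_lit 594764) (.g (nat_lit 2211) (.e (nat_lit 516139) (nat_lit 7) (.e (nat_lit 409648) (nat_lit 18) (.e (nat_lit 303117) (nat_lit 2) (.e (nat_lit 196665) (nat_lit 13) (.e (nat_lit 65608) (nat_lit 9) .nil))))) (.g (nat_lit 0) (.e (nat_lit 407300) (nat_lit 0) .nil) .nil))))) (.nd (nat_lit 8) (.nd (nat_lit 9) 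
(.lf (nat_lit 594124) (.g (nat_lit 2112) (.e (nat_lit 516119) (nat_lit 1) (.e (nat_lit 164326) (nat_lit 230) (.e (nat_lit 163903) (nat_lit 12) (.e (nat_lit 426568) (nat_lit 34) (.e (nat_lit 393292) (nat_lit 26) (.e (nat_lit 475175) (nat_lit 24) .nil)))))) (.g (nat_lit 1) (.e (nat_lit 406258) (nat_lit 0) .nil) .nil))) 
(.lf (nat_lit 594636) (.g (nat_lit 2736) (.e (nat_lit 516139) (nat_lit 7) (.e (nat_lit 409643) (nat_lit 18) (.e (nat_lit 303119) (nat_lit 3) (.e (nat_lit 204868) (nat_lit 29) (.e (nat_lit 360467) (nat_lit 3) .nil))))) (.g (nat_lit 1) (.e (nat_lit 407158) (nat_lit 0) .nil) .nil)))) (.nd (nat_lit 9) 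
(.lf (nat_lit 594380) (.g (nat_lit 2180) (.e (nat_lit 516127) (nat_lit 2) (.e (nat_lit 213032) (nat_lit 11) (.e (nat_lit 24602) (nat_lit 2) (.e (nat_lit 90185) (nat_lit 17) (.e (nat_lit 237616) (nat_lit 12) (.e (nat_lit 475179) (nat_lit 24) .nil)))))) (.g (nat_lit 1) (.e (nat_lit 406754) (nat_lit 0) .nil) .nil))) 
(.lf (nat_lit 594892) (.g (nat_lit 2184) (.e (nat_lit 516144) (nat_lit 9) (.e (nat_lit 426436) (nat_lit 18) (.e (nat_lit 98358) (nat_lit 26) (.e (nat_lit 426392) (nat_lit 15) .nil)))) (.g (nat_lit 0) (.e (nat_lit 407467) (nat_lit 0) .nil) .nil))))))) (.nd (nat_lit 6) (.nd (nat_lit 7) (.nd (nat_lit 8) (.nd (nat_lit 9) 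
(.lf (nat_lit 593964) (.g (nat_lit 2191) (.e (nat_lit 516117) (nat_lit 1) (.e (nat_lit 164399) (nat_lit 256) (.e (nat_lit 57374) (nat_lit 2) (.e (nat_lit 90174) (nat_lit 14) (.e (nat_lit 180243) (nat_lit 5) .nil))))) (.g (nat_lit 0) (.e (nat_lit 405955) (nat_lit 0) .nil) .nil))) 
(.lf (nat_lit 594476) (.g (nat_lit 1605) (.e (nat_lit 516130) (nat_lit 3) (.e (nat_lit 221212) (nat_lit 22) (.e (nat_lit 196668) (nat_lit 14) (.e (nat_lit 73747) (nat_lit 3) (.e (nat_lit 516191) (nat_lit 17) .nil))))) (.g (nat_lit 0) (.e (nat_lit 406881) (nat_lit 0) .nil) .nil)))) (.nd (nat_lit 9) 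
(.lf (nat_lit 594220) (.g (nat_lit 3467) (.e (nat_lit 516120) (nat_lit 1) (.e (nat_lit 164331) (nat_lit 230) (.e (nat_lit 163902) (nat_lit 12) (.e (nat_lit 426566) (nat_lit 34) (.e (nat_lit 393295) (nat_lit 26) (.e (nat_lit 475179) (nat_lit 24) .nil)))))) (.g (nat_lit 1) (.e (nat_lit 406526) (nat_lit 0) .nil) .nil))) 
(.lf (nat_lit 594732) (.g (nat_lit 2096) (.e (nat_lit 516139) (nat_lit 7) (.e (nat_lit 409647) (nat_lit 18) (.e (nat_lit 303118) (nat_lit 3) (.e (nat_lit 204868) (nat_lit 29) (.e (nat_lit 368384) (nat_lit 3) .nil))))) (.g (nat_lit 1) (.e (nat_lit 407268) (nat_lit 0) .nil) .nil))))) (.nd (nat_lit 8) (.nd (nat_lit 9) 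
(.lf (nat_lit 594092) (.g (nat_lit 3760) (.e (nat_lit 516119) (nat_lit 1) (.e (nat_lit 164325) (nat_lit 230) (.e (nat_lit 163903) (nat_lit 12) (.e (nat_lit 426566) (nat_lit 34) (.e (nat_lit 393291) (nat_lit 26) (.e (nat_lit 475177) (nat_lit 24) .nil)))))) (.g (nat_lit 1) (.e (nat_lit 406191) (nat_lit 0) .nil) .nil))) 
(.lf (nat_lit 594604) (.g (nat_lit 1512) (.e (nat_lit 516138) (nat_lit 7) (.e (nat_lit 409646) (nat_lit 18) (.e (nat_lit 303119) (nat_lit 3) (.e (nat_lit 204858) (nat_lit 26) .nil)))) (.g (nat_lit 0) (.e (nat_lit 407111) (nat_lit 0) .nil) .nil)))) (.nd (nat_lit 9) 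
(.lf (nat_lit 594348) (.g (nat_lit 2050) (.e (nat_lit 516126) (nat_lit 2) (.e (nat_lit 213032) (nat_lit 11) (.e (nat_lit 24605) (nat_lit 2) (.e (nat_lit 90172) (nat_lit 14) (.e (nat_lit 188160) (nat_lit 41) (.e (nat_lit 8320) (nat_lit 64) .nil)))))) (.g (nat_lit 1) (.e (nat_lit 406709) (nat_lit 0) .nil) .nil))) 
(.lf (nat_lit 594860) (.g (nat_lit 3652) (.e (nat_lit 516139) (nat_lit 7) (.e (nat_lit 409649) (nat_lit 18) (.e (nat_lit 303119) (nat_lit 3) (.e (nat_lit 204861) (nat_lit 26) (.e (nat_lit 336184) (nat_lit 11) (.e (nat_lit 368676) (nat_lit 21) .nil)))))) (.g (nat_lit 1) (.e (nat_lit 407416) (nat_lit 0) .nil) .nil)))))) (.nd (nat_lit 7) (.nd (nat_lit 8) (.nd (nat_lit 9) 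
(.lf (nat_lit 594028) (.g (nat_lit 2756) (.e (nat_lit 516118) (nat_lit 1) (.e (nat_lit 164332) (nat_lit 230) (.e (nat_lit 163905) (nat_lit 12) (.e (nat_lit 426480) (nat_lit 27) (.e (nat_lit 336385) (nat_lit 27) .nil))))) (.g (nat_lit 0) (.e (nat_lit 406077) (nat_lit 0) .nil) .nil))) 
(.lf (nat_lit 594540) (.g (nat_lit 3763) (.e (nat_lit 516131) (nat_lit 3) (.e (nat_lit 221215) (nat_lit 23) (.e (nat_lit 204830) (nat_lit 18) (.e (nat_lit 57930) (nat_lit 282) (.e (nat_lit 163867) (nat_lit 2) (.e (nat_lit 196668) (nat_lit 14) (.e (nat_lit 73747) (nat_lit 3) .nil))))))) (.g (nat_lit 1) (.e (nat_lit 406975) (nat_lit 0) .nil) .nil)))) (.nd (nat_lit 9) 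
(.lf (nat_lit 594284) (.g (nat_lit 1011) (.e (nat_lit 516124) (nat_lit 2) (.e (nat_lit 213030) (nat_lit 11) (.e (nat_lit 24608) (nat_lit 3) (.e (nat_lit 98363) (nat_lit 26) .nil)))) (.g (nat_lit 0) (.e (nat_lit 406621) (nat_lit 0) .nil) .nil))) 
(.lf (nat_lit 594796) (.g (nat_lit 2688) (.e (nat_lit 516139) (nat_lit 7) (.e (nat_lit 409648) (nat_lit 18) (.e (nat_lit 303118) (nat_lit 3) (.e (nat_lit 204869) (nat_lit 29) (.e (nat_lit 368384) (nat_lit 3) .nil))))) (.g (nat_lit 1) (.e (nat_lit 407336) (nat_lit 0) .nil) .nil))))) (.nd (nat_lit 8) (.nd (nat_lit 9) 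
(.lf (nat_lit 594156) (.g (nat_lit 3623) (.e (nat_lit 516120) (nat_lit 1) (.e (nat_lit 164304) (nat_lit 226) (.e (nat_lit 2612) (nat_lit 163) (.e (nat_lit 163978) (nat_lit 30) (.e (nat_lit 573487) (nat_lit 14) (.e (nat_lit 73753) (nat_lit 8) (.e (nat_lit 557098) (nat_lit 13) (.e (nat_lit 172132) (nat_lit 15) (.e (nat_lit 1796) (nat_lit 119) .nil))))))))) (.g (nat_lit 1) (.e (nat_lit 406331) (nat_lit 0) .nil) .nil))) 
(.lf (nat_lit 594668) (.g (nat_lit 2608) (.e (nat_lit 516139) (nat_lit 7) (.e (nat_lit 409645) (nat_lit 18) (.e (nat_lit 303117) (nat_lit 2) (.e (nat_lit 196672) (nat_lit 15) (.e (nat_lit 81943) (nat_lit 20) .nil))))) (.g (nat_lit 0) (.e (nat_lit 407193) (nat_lit 0) .nil) .nil)))) (.nd (nat_lit 9) 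
(.lf (nat_lit 594412) (.g (nat_lit 936) (.e (nat_lit 516129) (nat_lit 3) (.e (nat_lit 221194) (nat_lit 11) (.e (nat_lit 336010) (nat_lit 2) (.e (nat_lit 90165) (nat_lit 12) (.e (nat_lit 164248) (nat_lit 201) .nil))))) (.g (nat_lit 0) (.e (nat_lit 406802) (nat_lit 0) .nil) .nil))) 
(.lf (nat_lit 594924) (.g (nat_lit 3440) (.e (nat_lit 516146) (nat_lit 9) (.e (nat_lit 426438) (nat_lit 18) (.e (nat_lit 98367) (nat_lit 27) (.e (nat_lit 434247) (nat_lit 28) (.e (nat_lit 573484) (nat_lit 13) (.e (nat_lit 73472) (nat_lit 15) (.e (nat_lit 3214) (nat_lit 195) .nil))))))) (.g (nat_lit 1) (.e (nat_lit 407502) (nat_lit 0) .nil) .nil)))))))) 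
(.nd (nat_lit 5) (.nd (nat_lit 6) (.nd (nat_lit 7) (.nd (nat_lit 8) (.nd (nat_lit 9) 
(.lf (nat_lit 593948) (.g (nat_lit 3337) (.e (nat_lit 516117) (nat_lit 1) (.e (nat_lit 164332) (nat_lit 230) (.e (nat_lit 163905) (nat_lit 12) (.e (nat_lit 426566) (nat_lit 34) (.e (nat_lit 393291) (nat_lit 26) (.e (nat_lit 475179) (nat_lit 24) .nil)))))) (.g (nat_lit 1) (.e (nat_lit 405930) (nat_lit 0) .nil) .nil))) 
(.lf (nat_lit 594460) (.g (nat_lit 2846) (.e (nat_lit 516129) (nat_lit 3) (.e (nat_lit 221215) (nat_lit 23) (.e (nat_lit 204830) (nat_lit 18) (.e (nat_lit 57926) (nat_lit 282) (.e (nat_lit 163870) (nat_lit 2) (.e (nat_lit 196668) (nat_lit 14) (.e (nat_lit 73747) (nat_lit 3) .nil))))))) (.g (nat_lit 1) (.e (nat_lit 406863) (nat_lit 0) .nil) .nil)))) (.nd (nat_lit 9) 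
(.lf (nat_lit 594204) (.g (nat_lit 2372) (.e (nat_lit 516120) (nat_lit 1) (.e (nat_lit 164330) (nat_lit 230) (.e (nat_lit 163941) (nat_lit 19) (.e (nat_lit 483337) (nat_lit 9) (.e (nat_lit 426213) (nat_lit 9) .nil))))) (.g (nat_lit 0) (.e (nat_lit 406501) (nat_lit 0) .nil) .nil))) 
(.lf (nat_lit 594716) (.g (nat_lit 2712) (.e (nat_lit 516139) (nat_lit 7) (.e (nat_lit 409646) (nat_lit 18) (.e (nat_lit 303119) (nat_lit 3) (.e (nat_lit 204868) (nat_lit 29) (.e (nat_lit 368384) (nat_lit 3) .nil))))) (.g (nat_lit 0) (.e (nat_lit 407249) (nat_lit 0) .nil) .nil))))) (.nd (nat_lit 8) (.nd (nat_lit 9) 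
(.lf (nat_lit 594076) (.g (nat_lit 3574) (.e (nat_lit 516119) (nat_lit 1) (.e (nat_lit 164322) (nat_lit 230) (.e (nat_lit 163907) (nat_lit 12) (.e (nat_lit 426566) (nat_lit 34) (.e (nat_lit 393296) (nat_lit 26) (.e (nat_lit 475178) (nat_lit 24) .nil)))))) (.g (nat_lit 1) (.e (nat_lit 406157) (nat_lit 0) .nil) .nil))) 
(.lf (nat_lit 594588) (.g (nat_lit 1312) (.e (nat_lit 516138) (nat_lit 7) (.e (nat_lit 409646) (nat_lit 18) (.e (nat_lit 303112) (nat_lit 0) (.e (nat_lit 3252) (nat_lit 197) .nil)))) (.g (nat_lit 0) (.e (nat_lit 407089) (nat_lit 0) .nil) .nil)))) (.nd (nat_lit 9) 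
(.lf (nat_lit 594332) (.g (nat_lit 930) (.e (nat_lit 516126) (nat_lit 2) (.e (nat_lit 213030) (nat_lit 11) (.e (nat_lit 24609) (nat_lit 3) (.e (nat_lit 98381) (nat_lit 31) (.e (nat_lit 466945) (nat_lit 0) .nil))))) (.g (nat_lit 0) (.e (nat_lit 406693) (nat_lit 0) .nil) .nil))) 
(.lf (nat_lit 594844) (.g (nat_lit 889) (.e (nat_lit 516139) (nat_lit 7) (.e (nat_lit 409649) (nat_lit 18) (.e (nat_lit 303118) (nat_lit 3) (.e (nat_lit 204855) (nat_lit 26) .nil)))) (.g (nat_lit 0) (.e (nat_lit 407392) (nat_lit 0) .nil) .nil)))))) (.nd (nat_lit 7) (.nd (nat_lit 8) (.nd (nat_lit 9) 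
(.lf (nat_lit 594012) (.g (nat_lit 2963) (.e (nat_lit 516118) (nat_lit 1) (.e (nat_lit 164330) (nat_lit 230) (.e (nat_lit 163902) (nat_lit 12) (.e (nat_lit 426568) (nat_lit 34) (.e (nat_lit 393291) (nat_lit 26) (.e (nat_lit 475177) (nat_lit 24) .nil)))))) (.g (nat_lit 1) (.e (nat_lit 406054) (nat_lit 0) .nil) .nil))) 
(.lf (nat_lit 594524) (.g (nat_lit 3488) (.e (nat_lit 516131) (nat_lit 3) (.e (nat_lit 221215) (nat_lit 23) (.e (nat_lit 204829) (nat_lit 18) (.e (nat_lit 57926) (nat_lit 282) (.e (nat_lit 163874) (nat_lit 3) (.e (nat_lit 204872) (nat_lit 30) (.e (nat_lit 368676) (nat_lit 21) .nil))))))) (.g (nat_lit 1) (.e (nat_lit 406958) (nat_lit 0) .nil) .nil)))) (.nd (nat_lit 9) 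
(.lf (nat_lit 594268) (.g (nat_lit 3255) (.e (nat_lit 516122) (nat_lit 2) (.e (nat_lit 213032) (nat_lit 11) (.e (nat_lit 24608) (nat_lit 3) (.e (nat_lit 98365) (nat_lit 26) (.e (nat_lit 426306) (nat_lit 12) (.e (nat_lit 475177) (nat_lit 24) .nil)))))) (.g (nat_lit 1) (.e (nat_lit 406601) (nat_lit 0) .nil) .nil))) 
(.lf (nat_lit 594780) (.g (nat_lit 3171) (.e (nat_lit 516139) (nat_lit 7) (.e (nat_lit 409648) (nat_lit 18) (.e (nat_lit 303117) (nat_lit 2) (.e (nat_lit 196674) (nat_lit 15) (.e (nat_lit 81946) (nat_lit 20) (.e (nat_lit 1802) (nat_lit 119) .nil)))))) (.g (nat_lit 1) (.e (nat_lit 407316) (nat_lit 0) .nil) .nil))))) (.nd (nat_lit 8) (.nd (nat_lit 9) 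
(.lf (nat_lit 594140) (.g (nat_lit 2000) (.e (nat_lit 516119) (nat_lit 1) (.e (nat_lit 164327) (nat_lit 230) (.e (nat_lit 163907) (nat_lit 12) (.e (nat_lit 426566) (nat_lit 34) (.e (nat_lit 393292) (nat_lit 26) .nil))))) (.g (nat_lit 0) (.e (nat_lit 406279) (nat_lit 0) .nil) .nil))) 
(.lf (nat_lit 594652) (.g (nat_lit 2775) (.e (nat_lit 516139) (nat_lit 7) (.e (nat_lit 409644) (nat_lit 18) (.e (nat_lit 303119) (nat_lit 3) (.e (nat_lit 204855) (nat_lit 26) (.e (nat_lit 336097) (nat_lit 9) .nil))))) (.g (nat_lit 0) (.e (nat_lit 407174) (nat_lit 0) .nil) .nil)))) (.nd (nat_lit 9) 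
(.lf (nat_lit 594396) (.g (nat_lit 1903) (.e (nat_lit 516127) (nat_lit 2) (.e (nat_lit 213032) (nat_lit 11) (.e (nat_lit 24607) (nat_lit 3) (.e (nat_lit 98365) (nat_lit 26) (.e (nat_lit 426306) (nat_lit 12) (.e (nat_lit 475175) (nat_lit 24) .nil)))))) (.g (nat_lit 1) (.e (nat_lit 406771) (nat_lit 0) .nil) .nil))) 
(.lf (nat_lit 594908) (.g (nat_lit 2112) (.e (nat_lit 516145) (nat_lit 9) (.e (nat_lit 426438) (nat_lit 18) (.e (nat_lit 98366) (nat_lit 27) (.e (nat_lit 434247) (nat_lit 28) (.e (nat_lit 573485) (nat_lit 13) (.e (nat_lit 65640) (nat_lit 15) (.e (nat_lit 7936) (nat_lit 195) .nil))))))) (.g (nat_lit 1) (.e (nat_lit 407485) (nat_lit 0) .nil) .nil))))))) 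
(.nd (nat_lit 6) (.nd (nat_lit 7) (.nd (nat_lit 8) (.nd (nat_lit 9) 
(.lf (nat_lit 593980) (.g (nat_lit 2425) (.e (nat_lit 516118) (nat_lit 1) (.e (nat_lit 164182) (nat_lit 154) (.e (nat_lit 57379) (nat_lit 3) (.e (nat_lit 98342) (nat_lit 20) (.e (nat_lit 221212) (nat_lit 22) .nil))))) (.g (nat_lit 0) (.e (nat_lit 405988) (nat_lit 0) .nil) .nil))) 
(.lf (nat_lit 594492) (.g (nat_lit 1817) (.e (nat_lit 516130) (nat_lit 3) (.e (nat_lit 221215) (nat_lit 23) (.e (nat_lit 204862) (nat_lit 27) (.e (nat_lit 344138) (nat_lit 29) (.e (nat_lit 581652) (nat_lit 5) (.e (nat_lit 188160) (nat_lit 3) .nil)))))) (.g (nat_lit 1) (.e (nat_lit 406901) (nat_lit 0) .nil) .nil)))) (.nd (nat_lit 9) 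
(.lf (nat_lit 594236) (.g (nat_lit 393) (.e (nat_lit 516120) (nat_lit 1) (.e (nat_lit 164332) (nat_lit 230) (.e (nat_lit 163905) (nat_lit 12) .nil))) (.g (nat_lit 0) (.e (nat_lit 406552) (nat_lit 0) .nil) .nil))) 
(.lf (nat_lit 594748) (.g (nat_lit 1754) (.e (nat_lit 516139) (nat_lit 7) (.e (nat_lit 409648) (nat_lit 18) (.e (nat_lit 303111) (nat_lit 0) (.e (nat_lit 3238) (nat_lit 197) .nil)))) (.g (nat_lit 0) (.e (nat_lit 407284) (nat_lit 0) .nil) .nil))))) (.nd (nat_lit 8) (.nd (nat_lit 9) 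
(.lf (nat_lit 594108) (.g (nat_lit 3577) (.e (nat_lit 516119) (nat_lit 1) (.e (nat_lit 164325) (nat_lit 230) (.e (nat_lit 163907) (nat_lit 12) (.e (nat_lit 426566) (nat_lit 34) (.e (nat_lit 393294) (nat_lit 26) (.e (nat_lit 475177) (nat_lit 24) .nil)))))) (.g (nat_lit 1) (.e (nat_lit 406214) (nat_lit 0) .nil) .nil))) 
(.lf (nat_lit 594620) (.g (nat_lit 434) (.e (nat_lit 516139) (nat_lit 7) (.e (nat_lit 409616) (nat_lit 10) (.e (nat_lit 5628) (nat_lit 312) .nil))) (.g (nat_lit 0) (.e (nat_lit 407135) (nat_lit 0) .nil) .nil)))) (.nd (nat_lit 9) 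
(.lf (nat_lit 594364) (.g (nat_lit 369) (.e (nat_lit 516126) (nat_lit 2) (.e (nat_lit 213032) (nat_lit 11) (.e (nat_lit 24609) (nat_lit 3) .nil))) (.g (nat_lit 0) (.e (nat_lit 406727) (nat_lit 0) .nil) .nil))) 
(.lf (nat_lit 594876) (.g (nat_lit 2528) (.e (nat_lit 516142) (nat_lit 8) (.e (nat_lit 417813) (nat_lit 9) (.e (nat_lit 311315) (nat_lit 3) (.e (nat_lit 204846) (nat_lit 24) (.e (nat_lit 319533) (nat_lit 16) (.e (nat_lit 286725) (nat_lit 0) (.e (nat_lit 1799) (nat_lit 119) .nil))))))) (.g (nat_lit 1) (.e (nat_lit 407443) (nat_lit 0) .nil) .nil)))))) 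
(.nd (nat_lit 7) (.nd (nat_lit 8) (.nd (nat_lit 9) 
(.lf (nat_lit 594044) (.g (nat_lit 2377) (.e (nat_lit 516118) (nat_lit 1) (.e (nat_lit 164332) (nat_lit 230) (.e (nat_lit 163905) (nat_lit 12) (.e (nat_lit 426506) (nat_lit 27) .nil)))) (.g (nat_lit 0) (.e (nat_lit 406094) (nat_lit 0) .nil) .nil))) 
(.lf (nat_lit 594556) (.g (nat_lit 1194) (.e (nat_lit 516138) (nat_lit 7) (.e (nat_lit 409644) (nat_lit 18) (.e (nat_lit 303119) (nat_lit 3) (.e (nat_lit 204819) (nat_lit 17) .nil)))) (.g (nat_lit 0) (.e (nat_lit 407038) (nat_lit 0) .nil) .nil)))) (.nd (nat_lit 9) 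
(.lf (nat_lit 594300) (.g (nat_lit 1557) (.e (nat_lit 516124) (nat_lit 2) (.e (nat_lit 213032) (nat_lit 11) (.e (nat_lit 24608) (nat_lit 3) (.e (nat_lit 98380) (nat_lit 31) (.e (nat_lit 466945) (nat_lit 0) .nil))))) (.g (nat_lit 0) (.e (nat_lit 406642) (nat_lit 0) .nil) .nil))) 
(.lf (nat_lit 594812) (.g (nat_lit 3799) (.e (nat_lit 516139) (nat_lit 7) (.e (nat_lit 409649) (nat_lit 18) (.e (nat_lit 303116) (nat_lit 2) (.e (nat_lit 196666) (nat_lit 13) (.e (nat_lit 65592) (nat_lit 9) (.e (nat_lit 335923) (nat_lit 0) (.e (nat_lit 1788) (nat_lit 119) .nil))))))) (.g (nat_lit 1) (.e (nat_lit 407359) (nat_lit 0) .nil) .nil))))) (.nd (nat_lit 8) (.nd (nat_lit 9) 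
(.lf (nat_lit 594172) (.g (nat_lit 269) (.e (nat_lit 516120) (nat_lit 1) (.e (nat_lit 164329) (nat_lit 230) (.e (nat_lit 163941) (nat_lit 19) .nil))) (.g (nat_lit 0) (.e (nat_lit 406412) (nat_lit 0) .nil) .nil))) 
(.lf (nat_lit 594684) (.g (nat_lit 3660) (.e (nat_lit 516139) (nat_lit 7) (.e (nat_lit 409645) (nat_lit 18) (.e (nat_lit 303119) (nat_lit 3) (.e (nat_lit 204869) (nat_lit 29) (.e (nat_lit 360466) (nat_lit 3) .nil))))) (.g (nat_lit 1) (.e (nat_lit 407211) (nat_lit 0) .nil) .nil)))) (.nd (nat_lit 9) 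
(.lf (nat_lit 594428) (.g (nat_lit 2866) (.e (nat_lit 516129) (nat_lit 3) (.e (nat_lit 221210) (nat_lit 22) (.e (nat_lit 196666) (nat_lit 13) (.e (nat_lit 65569) (nat_lit 3) (.e (nat_lit 98321) (nat_lit 17) (.e (nat_lit 7936) (nat_lit 216) (.e (nat_lit 688168) (nat_lit 15) (.e (nat_lit 57465) (nat_lit 23) .nil)))))))) (.g (nat_lit 1) (.e (nat_lit 406830) (nat_lit 0) .nil) .nil))) 
(.lf (nat_lit 594940) (.g (nat_lit 1824) (.e (nat_lit 516147) (nat_lit 9) (.e (nat_lit 426436) (nat_lit 18) (.e (nat_lit 98358) (nat_lit 26) (.e (nat_lit 433920) (nat_lit 18) .nil)))) (.g (nat_lit 0) (.e (nat_lit 407520) (nat_lit 0) .nil) .nil))))))))))) (.nd (nat_lit 2) (.nd (nat_lit 3) (.nd (nat_lit 4) (.nd (nat_lit 5) (.nd (nat_lit 6) (.nd (nat_lit 7) (.nd (nat_lit 8) (.nd (nat_lit 9) 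
(.lf (nat_lit 593922) (.g (nat_lit 2944) (.e (nat_lit 516117) (nat_lit 1) (.e (nat_lit 164330) (nat_lit 230) (.e (nat_lit 163902) (nat_lit 12) (.e (nat_lit 426568) (nat_lit 34) (.e (nat_lit 393293) (nat_lit 26) (.e (nat_lit 475177) (nat_lit 24) .nil)))))) (.g (nat_lit 1) (.e (nat_lit 405869) (nat_lit 0) .nil) .nil))) 
(.lf (nat_lit 594434) (.g (nat_lit 3171) (.e (nat_lit 516129) (nat_lit 3) (.e (nat_lit 221210) (nat_lit 22) (.e (nat_lit 196666) (nat_lit 13) (.e (nat_lit 65571) (nat_lit 3) (.e (nat_lit 98321) (nat_lit 17) (.e (nat_lit 7936) (nat_lit 216) (.e (nat_lit 688171) (nat_lit 15) (.e (nat_lit 57465) (nat_lit 23) .nil)))))))) (.g (nat_lit 1) (.e (nat_lit 406836) (nat_lit 0) .nil) .nil)))) 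
(.nd (nat_lit 9) 
(.lf (nat_lit 594178) (.g (nat_lit 758) (.e (nat_lit 516120) (nat_lit 1) (.e (nat_lit 164330) (nat_lit 230) (.e (nat_lit 163896) (nat_lit 10) .nil))) (.g (nat_lit 0) (.e (nat_lit 406428) (nat_lit 0) .nil) .nil))) 
(.lf (nat_lit 594690) (.g (nat_lit 1397) (.e (nat_lit 516139) (nat_lit 7) (.e (nat_lit 409646) (nat_lit 18) (.e (nat_lit 303117) (nat_lit 2) (.e (nat_lit 196665) (nat_lit 13) .nil)))) (.g (nat_lit 0) (.e (nat_lit 407217) (nat_lit 0) .nil) .nil))))) (.nd (nat_lit 8) (.nd (nat_lit 9) 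
(.lf (nat_lit 594050) (.g (nat_lit 1757) (.e (nat_lit 516118) (nat_lit 1) (.e (nat_lit 164332) (nat_lit 230) (.e (nat_lit 163905) (nat_lit 12) (.e (nat_lit 426568) (nat_lit 34) (.e (nat_lit 393292) (nat_lit 26) .nil))))) (.g (nat_lit 0) (.e (nat_lit 406101) (nat_lit 0) .nil) .nil))) 
(.lf (nat_lit 594562) (.g (nat_lit 1905) (.e (nat_lit 516138) (nat_lit 7) (.e (nat_lit 409645) (nat_lit 18) (.e (nat_lit 303112) (nat_lit 0) (.e (nat_lit 3252) (nat_lit 197) .nil)))) (.g (nat_lit 0) (.e (nat_lit 407044) (nat_lit 0) .nil) .nil)))) (.nd (nat_lit 9) 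
(.lf (nat_lit 594306) (.g (nat_lit 825) (.e (nat_lit 516124) (nat_lit 2) (.e (nat_lit 213032) (nat_lit 11) (.e (nat_lit 24609) (nat_lit 3) .nil))) (.g (nat_lit 0) (.e (nat_lit 406648) (nat_lit 0) .nil) .nil))) 
(.lf (nat_lit 594818) (.g (nat_lit 2972) (.e (nat_lit 516139) (nat_lit 7) (.e (nat_lit 409649) (nat_lit 18) (.e (nat_lit 303117) (nat_lit 2) (.e (nat_lit 196666) (nat_lit 13) (.e (nat_lit 65592) (nat_lit 9) .nil))))) (.g (nat_lit 0) (.e (nat_lit 407366) (nat_lit 0) .nil) .nil)))))) (.nd (nat_lit 7) (.nd (nat_lit 8) (.nd (nat_lit 9) 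
(.lf (nat_lit 593986) (.g (nat_lit 1323) (.e (nat_lit 516118) (nat_lit 1) (.e (nat_lit 164322) (nat_lit 230) (.e (nat_lit 163902) (nat_lit 12) (.e (nat_lit 426568) (nat_lit 34) .nil)))) (.g (nat_lit 0) (.e (nat_lit 406005) (nat_lit 0) .nil) .nil))) 
(.lf (nat_lit 594498) (.g (nat_lit 1916) (.e (nat_lit 516131) (nat_lit 3) (.e (nat_lit 221211) (nat_lit 22) (.e (nat_lit 196666) (nat_lit 13) (.e (nat_lit 65568) (nat_lit 2) (.e (nat_lit 98048) (nat_lit 2) (.e (nat_lit 16386) (nat_lit 0) (.e (nat_lit 3214) (nat_lit 195) .nil))))))) (.g (nat_lit 1) (.e (nat_lit 406928) (nat_lit 0) .nil) .nil)))) (.nd (nat_lit 9) 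
(.lf (nat_lit 594242) (.g (nat_lit 2057) (.e (nat_lit 516120) (nat_lit 1) (.e (nat_lit 164332) (nat_lit 230) (.e (nat_lit 163905) (nat_lit 12) (.e (nat_lit 426489) (nat_lit 27) (.e (nat_lit 336406) (nat_lit 27) .nil))))) (.g (nat_lit 0) (.e (nat_lit 406561) (nat_lit 0) .nil) .nil))) 
(.lf (nat_lit 594754) (.g (nat_lit 3272) (.e (nat_lit 516139) (nat_lit 7) (.e (nat_lit 409648) (nat_lit 18) (.e (nat_lit 303116) (nat_lit 2) (.e (nat_lit 196666) (nat_lit 13) (.e (nat_lit 65610) (nat_lit 10) (.e (nat_lit 344118) (nat_lit 21) .nil)))))) (.g (nat_lit 1) (.e (nat_lit 407290) (nat_lit 0) .nil) .nil))))) (.nd (nat_lit 8) (.nd (nat_lit 9) 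
(.lf (nat_lit 594114) (.g (nat_lit 546) (.e (nat_lit 516119) (nat_lit 1) (.e (nat_lit 164325) (nat_lit 230) (.e (nat_lit 163946) (nat_lit 20) .nil))) (.g (nat_lit 0) (.e (nat_lit 406247) (nat_lit 0) .nil) .nil))) 
(.lf (nat_lit 594626) (.g (nat_lit 2182) (.e (nat_lit 516139) (nat_lit 7) (.e (nat_lit 409623) (nat_lit 10) (.e (nat_lit 5664) (nat_lit 312) (.e (nat_lit 2679) (nat_lit 168) (.e (nat_lit 204861) (nat_lit 26) (.e (nat_lit 336186) (nat_lit 11) (.e (nat_lit 368676) (nat_lit 21) .nil))))))) (.g (nat_lit 1) (.e (nat_lit 407146) (nat_lit 0) .nil) .nil)))) (.nd (nat_lit 9) 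
(.lf (nat_lit 594370) (.g (nat_lit 294) (.e (nat_lit 516127) (nat_lit 2) (.e (nat_lit 213030) (nat_lit 11) (.e (nat_lit 24605) (nat_lit 2) .nil))) (.g (nat_lit 0) (.e (nat_lit 406741) (nat_lit 0) .nil) .nil))) 
(.lf (nat_lit 594882) (.g (nat_lit 3758) (.e (nat_lit 516142) (nat_lit 8) (.e (nat_lit 417828) (nat_lit 18) (.e (nat_lit 303119) (nat_lit 3) (.e (nat_lit 204869) (nat_lit 29) (.e (nat_lit 360465) (nat_lit 3) .nil))))) (.g (nat_lit 1) (.e (nat_lit 407453) (nat_lit 0) .nil) .nil))))))) (.nd (nat_lit 6) (.nd (nat_lit 7) (.nd (nat_lit 8) (.nd (nat_lit 9) 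
(.lf (nat_lit 593954) (.g (nat_lit 3547) (.e (nat_lit 516117) (nat_lit 1) (.e (nat_lit 164332) (nat_lit 230) (.e (nat_lit 163941) (nat_lit 19) (.e (nat_lit 483337) (nat_lit 9) (.e (nat_lit 426316) (nat_lit 12) (.e (nat_lit 475179) (nat_lit 24) .nil)))))) (.g (nat_lit 1) (.e (nat_lit 405936) (nat_lit 0) .nil) .nil))) 
(.lf (nat_lit 594466) (.g (nat_lit 2785) (.e (nat_lit 516130) (nat_lit 3) (.e (nat_lit 221211) (nat_lit 22) (.e (nat_lit 196666) (nat_lit 13) (.e (nat_lit 65566) (nat_lit 2) (.e (nat_lit 98048) (nat_lit 2) (.e (nat_lit 16388) (nat_lit 0) (.e (nat_lit 3208) (nat_lit 195) .nil))))))) (.g (nat_lit 1) (.e (nat_lit 406870) (nat_lit 0) .nil) .nil)))) (.nd (nat_lit 9) 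
(.lf (nat_lit 594210) (.g (nat_lit 2720) (.e (nat_lit 516120) (nat_lit 1) (.e (nat_lit 164330) (nat_lit 230) (.e (nat_lit 163941) (nat_lit 19) (.e (nat_lit 483341) (nat_lit 9) (.e (nat_lit 426197) (nat_lit 9) (.e (nat_lit 426402) (nat_lit 15) (.e (nat_lit 1788) (nat_lit 119) .nil))))))) (.g (nat_lit 1) (.e (nat_lit 406508) (nat_lit 0) .nil) .nil))) 
(.lf (nat_lit 594722) (.g (nat_lit 352) (.e (nat_lit 516139) (nat_lit 7) (.e (nat_lit 409647) (nat_lit 18) (.e (nat_lit 303118) (nat_lit 3) .nil))) (.g (nat_lit 0) (.e (nat_lit 407255) (nat_lit 0) .nil) .nil))))) (.nd (nat_lit 8) (.nd (nat_lit 9) 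
(.lf (nat_lit 594082) (.g (nat_lit 2764) (.e (nat_lit 516119) (nat_lit 1) (.e (nat_lit 164324) (nat_lit 230) (.e (nat_lit 163905) (nat_lit 12) (.e (nat_lit 426566) (nat_lit 34) (.e (nat_lit 393295) (nat_lit 26) (.e (nat_lit 475177) (nat_lit 24) .nil)))))) (.g (nat_lit 1) (.e (nat_lit 406167) (nat_lit 0) .nil) .nil))) 
(.lf (nat_lit 594594) (.g (nat_lit 1634) (.e (nat_lit 516138) (nat_lit 7) (.e (nat_lit 409646) (nat_lit 18) (.e (nat_lit 303117) (nat_lit 2) (.e (nat_lit 196672) (nat_lit 15) .nil)))) (.g (nat_lit 0) (.e (nat_lit 407097) (nat_lit 0) .nil) .nil)))) (.nd (nat_lit 9) 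
(.lf (nat_lit 594338) (.g (nat_lit 1881) (.e (nat_lit 516126) (nat_lit 2) (.e (nat_lit 213032) (nat_lit 11) (.e (nat_lit 24604) (nat_lit 2) (.e (nat_lit 90176) (nat_lit 15) (.e (nat_lit 188420) (nat_lit 0) (.e (nat_lit 1784) (nat_lit 119) .nil)))))) (.g (nat_lit 1) (.e (nat_lit 406699) (nat_lit 0) .nil) .nil))) 
(.lf (nat_lit 594850) (.g (nat_lit 4888) (.e (nat_lit 516139) (nat_lit 7) (.e (nat_lit 409649) (nat_lit 18) (.e (nat_lit 303118) (nat_lit 3) (.e (nat_lit 204866) (nat_lit 28) (.e (nat_lit 352302) (nat_lit 20) (.e (nat_lit 1788) (nat_lit 119) .nil)))))) (.g (nat_lit 1) (.e (nat_lit 407403) (nat_lit 0) .nil) .nil)))))) (.nd (nat_lit 7) (.nd (nat_lit 8) (.nd (nat_lit 9) 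
(.lf (nat_lit 594018) (.g (nat_lit 3384) (.e (nat_lit 516118) (nat_lit 1) (.e (nat_lit 164332) (nat_lit 230) (.e (nat_lit 163902) (nat_lit 12) (.e (nat_lit 426566) (nat_lit 34) (.e (nat_lit 393291) (nat_lit 26) (.e (nat_lit 475177) (nat_lit 24) .nil)))))) (.g (nat_lit 1) (.e (nat_lit 406067) (nat_lit 0) .nil) .nil))) 
(.lf (nat_lit 594530) (.g (nat_lit 2715) (.e (nat_lit 516131) (nat_lit 3) (.e (nat_lit 221215) (nat_lit 23) (.e (nat_lit 204829) (nat_lit 18) (.e (nat_lit 57931) (nat_lit 282) (.e (nat_lit 163867) (nat_lit 2) (.e (nat_lit 196667) (nat_lit 14) (.e (nat_lit 73748) (nat_lit 3) .nil))))))) (.g (nat_lit 1) (.e (nat_lit 406964) (nat_lit 0) .nil) .nil)))) (.nd (nat_lit 9) 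
(.lf (nat_lit 594274) (.g (nat_lit 1177) (.e (nat_lit 516122) (nat_lit 2) (.e (nat_lit 213032) (nat_lit 11) (.e (nat_lit 24608) (nat_lit 3) (.e (nat_lit 98381) (nat_lit 31) .nil)))) (.g (nat_lit 0) (.e (nat_lit 406607) (nat_lit 0) .nil) .nil))) 
(.lf (nat_lit 594786) (.g (nat_lit 3534) (.e (nat_lit 516139) (nat_lit 7) (.e (nat_lit 409648) (nat_lit 18) (.e (nat_lit 303118) (nat_lit 3) (.e (nat_lit 204855) (nat_lit 26) (.e (nat_lit 336169) (nat_lit 10) (.e (nat_lit 344119) (nat_lit 21) .nil)))))) (.g (nat_lit 1) (.e (nat_lit 407322) (nat_lit 0) .nil) .nil))))) (.nd (nat_lit 8) (.nd (nat_lit 9) 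
(.lf (nat_lit 594146) (.g (nat_lit 1177) (.e (nat_lit 516119) (nat_lit 1) (.e (nat_lit 164403) (nat_lit 256) (.e (nat_lit 57370) (nat_lit 2) (.e (nat_lit 90168) (nat_lit 13) .nil)))) (.g (nat_lit 0) (.e (nat_lit 406304) (nat_lit 0) .nil) .nil))) 
(.lf (nat_lit 594658) (.g (nat_lit 3090) (.e (nat_lit 516139) (nat_lit 7) (.e (nat_lit 409644) (nat_lit 18) (.e (nat_lit 303119) (nat_lit 3) (.e (nat_lit 204866) (nat_lit 28) (.e (nat_lit 352301) (nat_lit 20) .nil))))) (.g (nat_lit 0) (.e (nat_lit 407181) (nat_lit 0) .nil) .nil)))) (.nd (nat_lit 9) 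
(.lf (nat_lit 594402) (.g (nat_lit 1147) (.e (nat_lit 516127) (nat_lit 2) (.e (nat_lit 213032) (nat_lit 11) (.e (nat_lit 24609) (nat_lit 3) (.e (nat_lit 98380) (nat_lit 31) (.e (nat_lit 466945) (nat_lit 0) (.e (nat_lit 1786) (nat_lit 119) .nil)))))) (.g (nat_lit 1) (.e (nat_lit 406778) (nat_lit 0) .nil) .nil))) 
(.lf (nat_lit 594914) (.g (nat_lit 2084) (.e (nat_lit 516145) (nat_lit 9) (.e (nat_lit 426438) (nat_lit 18) (.e (nat_lit 98368) (nat_lit 27) (.e (nat_lit 434247) (nat_lit 28) (.e (nat_lit 573485) (nat_lit 13) (.e (nat_lit 65640) (nat_lit 15) (.e (nat_lit 7936) (nat_lit 195) .nil))))))) (.g (nat_lit 1) (.e (nat_lit 407491) (nat_lit 0) .nil) .nil)))))))) 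
(.nd (nat_lit 5) (.nd (nat_lit 6) (.nd (nat_lit 7) (.nd (nat_lit 8) (.nd (nat_lit 9) 
(.lf (nat_lit 593938) (.g (nat_lit 3681) (.e (nat_lit 516117) (nat_lit 1) (.e (nat_lit 164332) (nat_lit 230) (.e (nat_lit 163902) (nat_lit 12) (.e (nat_lit 426566) (nat_lit 34) (.e (nat_lit 393291) (nat_lit 26) (.e (nat_lit 475179) (nat_lit 24) .nil)))))) (.g (nat_lit 1) (.e (nat_lit 405917) (nat_lit 0) .nil) .nil))) 
(.lf (nat_lit 594450) (.g (nat_lit 2675) (.e (nat_lit 516129) (nat_lit 3) (.e (nat_lit 221210) (nat_lit 22) (.e (nat_lit 196670) (nat_lit 14) (.e (nat_lit 73746) (nat_lit 3) (.e (nat_lit 516105) (nat_lit 0) (.e (nat_lit 3458) (nat_lit 216) (.e (nat_lit 688171) (nat_lit 15) (.e (nat_lit 57465) (nat_lit 23) .nil)))))))) (.g (nat_lit 1) (.e (nat_lit 406852) (nat_lit 0) .nil) .nil)))) 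
(.nd (nat_lit 9) 
(.lf (nat_lit 594194) (.g (nat_lit 1296) (.e (nat_lit 516120) (nat_lit 1) (.e (nat_lit 164330) (nat_lit 230) (.e (nat_lit 163905) (nat_lit 12) (.e (nat_lit 426481) (nat_lit 27) .nil)))) (.g (nat_lit 0) (.e (nat_lit 406449) (nat_lit 0) .nil) .nil))) 
(.lf (nat_lit 594706) (.g (nat_lit 3807) (.e (nat_lit 516139) (nat_lit 7) (.e (nat_lit 409646) (nat_lit 18) (.e (nat_lit 303117) (nat_lit 2) (.e (nat_lit 196674) (nat_lit 15) (.e (nat_lit 81947) (nat_lit 20) (.e (nat_lit 1801) (nat_lit 119) .nil)))))) (.g (nat_lit 1) (.e (nat_lit 407235) (nat_lit 0) .nil) .nil))))) (.nd (nat_lit 8) (.nd (nat_lit 9) 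
(.lf (nat_lit 594066) (.g (nat_lit 1322) (.e (nat_lit 516119) (nat_lit 1) (.e (nat_lit 164179) (nat_lit 154) (.e (nat_lit 57407) (nat_lit 12) (.e (nat_lit 336455) (nat_lit 34) .nil)))) (.g (nat_lit 0) (.e (nat_lit 406141) (nat_lit 0) .nil) .nil))) 
(.lf (nat_lit 594578) (.g (nat_lit 224) (.e (nat_lit 516138) (nat_lit 7) (.e (nat_lit 409645) (nat_lit 18) (.e (nat_lit 303119) (nat_lit 3) .nil))) (.g (nat_lit 0) (.e (nat_lit 407067) (nat_lit 0) .nil) .nil)))) (.nd (nat_lit 9) 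
(.lf (nat_lit 594322) (.g (nat_lit 1954) (.e (nat_lit 516126) (nat_lit 2) (.e (nat_lit 213030) (nat_lit 11) (.e (nat_lit 24602) (nat_lit 2) (.e (nat_lit 90185) (nat_lit 17) (.e (nat_lit 237616) (nat_lit 12) (.e (nat_lit 475179) (nat_lit 24) .nil)))))) (.g (nat_lit 1) (.e (nat_lit 406683) (nat_lit 0) .nil) .nil))) 
(.lf (nat_lit 594834) (.g (nat_lit 2901) (.e (nat_lit 516139) (nat_lit 7) (.e (nat_lit 409649) (nat_lit 18) (.e (nat_lit 303117) (nat_lit 2) (.e (nat_lit 196674) (nat_lit 15) (.e (nat_lit 81936) (nat_lit 20) .nil))))) (.g (nat_lit 0) (.e (nat_lit 407382) (nat_lit 0) .nil) .nil)))))) (.nd (nat_lit 7) (.nd (nat_lit 8) (.nd (nat_lit 9) 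
(.lf (nat_lit 594002) (.g (nat_lit 1969) (.e (nat_lit 516118) (nat_lit 1) (.e (nat_lit 164327) (nat_lit 230) (.e (nat_lit 163875) (nat_lit 3) (.e (nat_lit 204838) (nat_lit 20) .nil)))) (.g (nat_lit 0) (.e (nat_lit 406037) (nat_lit 0) .nil) .nil))) 
(.lf (nat_lit 594514) (.g (nat_lit 1774) (.e (nat_lit 516131) (nat_lit 3) (.e (nat_lit 221214) (nat_lit 23) (.e (nat_lit 204830) (nat_lit 18) (.e (nat_lit 57929) (nat_lit 282) (.e (nat_lit 163873) (nat_lit 3) .nil))))) (.g (nat_lit 0) (.e (nat_lit 406945) (nat_lit 0) .nil) .nil)))) (.nd (nat_lit 9) 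
(.lf (nat_lit 594258) (.g (nat_lit 1683) (.e (nat_lit 516120) (nat_lit 1) (.e (nat_lit 164332) (nat_lit 230) (.e (nat_lit 163943) (nat_lit 19) (.e (nat_lit 483341) (nat_lit 9) (.e (nat_lit 426198) (nat_lit 9) .nil))))) (.g (nat_lit 0) (.e (nat_lit 406585) (nat_lit 0) .nil) .nil))) 
(.lf (nat_lit 594770) (.g (nat_lit 3738) (.e (nat_lit 516139) (nat_lit 7) (.e (nat_lit 409648) (nat_lit 18) (.e (nat_lit 303117) (nat_lit 2) (.e (nat_lit 196666) (nat_lit 13) (.e (nat_lit 65595) (nat_lit 9) .nil))))) (.g (nat_lit 0) (.e (nat_lit 407306) (nat_lit 0) .nil) .nil))))) (.nd (nat_lit 8) (.nd (nat_lit 9) 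
(.lf (nat_lit 594130) (.g (nat_lit 1514) (.e (nat_lit 516119) (nat_lit 1) (.e (nat_lit 164327) (nat_lit 230) (.e (nat_lit 163903) (nat_lit 12) (.e (nat_lit 426478) (nat_lit 27) .nil)))) (.g (nat_lit 0) (.e (nat_lit 406268) (nat_lit 0) .nil) .nil))) 
(.lf (nat_lit 594642) (.g (nat_lit 1501) (.e (nat_lit 516139) (nat_lit 7) (.e (nat_lit 409644) (nat_lit 18) (.e (nat_lit 303117) (nat_lit 2) (.e (nat_lit 196665) (nat_lit 13) .nil)))) (.g (nat_lit 0) (.e (nat_lit 407164) (nat_lit 0) .nil) .nil)))) (.nd (nat_lit 9) 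
(.lf (nat_lit 594386) (.g (nat_lit 1239) (.e (nat_lit 516127) (nat_lit 2) (.e (nat_lit 213032) (nat_lit 11) (.e (nat_lit 24604) (nat_lit 2) (.e (nat_lit 90178) (nat_lit 15) (.e (nat_lit 188418) (nat_lit 0) .nil))))) (.g (nat_lit 0) (.e (nat_lit 406760) (nat_lit 0) .nil) .nil))) 
(.lf (nat_lit 594898) (.g (nat_lit 1948) (.e (nat_lit 516145) (nat_lit 9) (.e (nat_lit 426438) (nat_lit 18) (.e (nat_lit 98366) (nat_lit 27) (.e (nat_lit 434244) (nat_lit 28) (.e (nat_lit 573480) (nat_lit 13) .nil))))) (.g (nat_lit 0) (.e (nat_lit 407475) (nat_lit 0) .nil) .nil))))))) (.nd (nat_lit 6) (.nd (nat_lit 7) (.nd (nat_lit 8) (.nd (nat_lit 9) 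
(.lf (nat_lit 593970) (.g (nat_lit 2449) (.e (nat_lit 516118) (nat_lit 1) (.e (nat_lit 164179) (nat_lit 154) (.e (nat_lit 57379) (nat_lit 3) (.e (nat_lit 98341) (nat_lit 20) (.e (nat_lit 221212) (nat_lit 22) (.e (nat_lit 196670) (nat_lit 14) (.e (nat_lit 73746) (nat_lit 3) .nil))))))) (.g (nat_lit 1) (.e (nat_lit 405976) (nat_lit 0) .nil) .nil))) 
(.lf (nat_lit 594482) (.g (nat_lit 849) (.e (nat_lit 516130) (nat_lit 3) (.e (nat_lit 221215) (nat_lit 23) (.e (nat_lit 204821) (nat_lit 17) .nil))) (.g (nat_lit 0) (.e (nat_lit 406888) (nat_lit 0) .nil) .nil)))) (.nd (nat_lit 9) 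
(.lf (nat_lit 594226) (.g (nat_lit 4546) (.e (nat_lit 516120) (nat_lit 1) (.e (nat_lit 164331) (nat_lit 230) (.e (nat_lit 163941) (nat_lit 19) (.e (nat_lit 483341) (nat_lit 9) (.e (nat_lit 426204) (nat_lit 9) .nil))))) (.g (nat_lit 0) (.e (nat_lit 406537) (nat_lit 0) .nil) .nil))) 
(.lf (nat_lit 594738) (.g (nat_lit 2926) (.e (nat_lit 516139) (nat_lit 7) (.e (nat_lit 409647) (nat_lit 18) (.e (nat_lit 303119) (nat_lit 3) (.e (nat_lit 204866) (nat_lit 28) (.e (nat_lit 352292) (nat_lit 20) (.e (nat_lit 1788) (nat_lit 119) .nil)))))) (.g (nat_lit 1) (.e (nat_lit 407274) (nat_lit 0) .nil) .nil))))) (.nd (nat_lit 8) (.nd (nat_lit 9) 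
(.lf (nat_lit 594098) (.g (nat_lit 2360) (.e (nat_lit 516119) (nat_lit 1) (.e (nat_lit 164325) (nat_lit 230) (.e (nat_lit 163903) (nat_lit 12) (.e (nat_lit 426568) (nat_lit 34) (.e (nat_lit 393234) (nat_lit 17) (.e (nat_lit 7376) (nat_lit 389) (.e (nat_lit 8320) (nat_lit 64) .nil))))))) (.g (nat_lit 1) (.e (nat_lit 406197) (nat_lit 0) .nil) .nil))) 
(.lf (nat_lit 594610) (.g (nat_lit 3159) (.e (nat_lit 516138) (nat_lit 7) (.e (nat_lit 409647) (nat_lit 18) (.e (nat_lit 303119) (nat_lit 3) (.e (nat_lit 204868) (nat_lit 29) (.e (nat_lit 360466) (nat_lit 3) .nil))))) (.g (nat_lit 1) (.e (nat_lit 407119) (nat_lit 0) .nil) .nil)))) (.nd (nat_lit 9) 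
(.lf (nat_lit 594354) (.g (nat_lit 1675) (.e (nat_lit 516126) (nat_lit 2) (.e (nat_lit 213032) (nat_lit 11) (.e (nat_lit 24607) (nat_lit 3) (.e (nat_lit 98365) (nat_lit 26) (.e (nat_lit 426306) (nat_lit 12) .nil))))) (.g (nat_lit 0) (.e (nat_lit 406716) (nat_lit 0) .nil) .nil))) 
(.lf (nat_lit 594866) (.g (nat_lit 2847) (.e (nat_lit 516139) (nat_lit 7) (.e (nat_lit 409649) (nat_lit 18) (.e (nat_lit 303119) (nat_lit 3) (.e (nat_lit 204869) (nat_lit 29) (.e (nat_lit 368384) (nat_lit 3) .nil))))) (.g (nat_lit 1) (.e (nat_lit 407424) (nat_lit 0) .nil) .nil)))))) (.nd (nat_lit 7) (.nd (nat_lit 8) (.nd (nat_lit 9) 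
(.lf (nat_lit 594034) (.g (nat_lit 2737) (.e (nat_lit 516118) (nat_lit 1) (.e (nat_lit 164332) (nat_lit 230) (.e (nat_lit 163905) (nat_lit 12) (.e (nat_lit 426489) (nat_lit 27) (.e (nat_lit 336407) (nat_lit 27) .nil))))) (.g (nat_lit 0) (.e (nat_lit 406084) (nat_lit 0) .nil) .nil))) 
(.lf (nat_lit 594546) (.g (nat_lit 2908) (.e (nat_lit 516131) (nat_lit 3) (.e (nat_lit 221215) (nat_lit 23) (.e (nat_lit 204861) (nat_lit 26) (.e (nat_lit 336002) (nat_lit 2) (.e (nat_lit 90153) (nat_lit 10) (.e (nat_lit 8541) (nat_lit 226) (.e (nat_lit 65280) (nat_lit 84) .nil))))))) (.g (nat_lit 1) (.e (nat_lit 406981) (nat_lit 0) .nil) .nil)))) (.nd (nat_lit 9) 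
(.lf (nat_lit 594290) (.g (nat_lit 1279) (.e (nat_lit 516124) (nat_lit 2) (.e (nat_lit 213032) (nat_lit 11) (.e (nat_lit 24604) (nat_lit 2) (.e (nat_lit 90178) (nat_lit 15) .nil)))) (.g (nat_lit 0) (.e (nat_lit 406630) (nat_lit 0) .nil) .nil))) 
(.lf (nat_lit 594802) (.g (nat_lit 2936) (.e (nat_lit 516139) (nat_lit 7) (.e (nat_lit 409648) (nat_lit 18) (.e (nat_lit 303119) (nat_lit 3) (.e (nat_lit 204868) (nat_lit 29) (.e (nat_lit 368384) (nat_lit 3) .nil))))) (.g (nat_lit 1) (.e (nat_lit 407347) (nat_lit 0) .nil) .nil))))) (.nd (nat_lit 8) (.nd (nat_lit 9) 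
(.lf (nat_lit 594162) (.g (nat_lit 687) (.e (nat_lit 516120) (nat_lit 1) (.e (nat_lit 164329) (nat_lit 230) (.e (nat_lit 163902) (nat_lit 12) (.e (nat_lit 426479) (nat_lit 27) .nil)))) (.g (nat_lit 0) (.e (nat_lit 406379) (nat_lit 0) .nil) .nil))) 
(.lf (nat_lit 594674) (.g (nat_lit 3541) (.e (nat_lit 516139) (nat_lit 7) (.e (nat_lit 409645) (nat_lit 18) (.e (nat_lit 303117) (nat_lit 2) (.e (nat_lit 196674) (nat_lit 15) (.e (nat_lit 81947) (nat_lit 20) (.e (nat_lit 1781) (nat_lit 119) .nil)))))) (.g (nat_lit 1) (.e (nat_lit 407199) (nat_lit 0) .nil) .nil)))) (.nd (nat_lit 9) 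
(.lf (nat_lit 594418) (.g (nat_lit 2883) (.e (nat_lit 516129) (nat_lit 3) (.e (nat_lit 221210) (nat_lit 22) (.e (nat_lit 196663) (nat_lit 13) (.e (nat_lit 65568) (nat_lit 2) (.e (nat_lit 98048) (nat_lit 2) (.e (nat_lit 16388) (nat_lit 0) (.e (nat_lit 3208) (nat_lit 195) .nil))))))) (.g (nat_lit 1) (.e (nat_lit 406820) (nat_lit 0) .nil) .nil))) 
(.lf (nat_lit 594930) (.g (nat_lit 3717) (.e (nat_lit 516146) (nat_lit 9) (.e (nat_lit 426438) (nat_lit 18) (.e (nat_lit 98367) (nat_lit 27) (.e (nat_lit 434248) (nat_lit 28) (.e (nat_lit 573482) (nat_lit 13) (.e (nat_lit 65631) (nat_lit 15) (.e (nat_lit 3214) (nat_lit 195) .nil))))))) (.g (nat_lit 1) (.e (nat_lit 407508) (nat_lit 0) .nil) .nil))))))))) 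
(.nd (nat_lit 4) (.nd (nat_lit 5) (.nd (nat_lit 6) (.nd (nat_lit 7) (.nd (nat_lit 8) 
(.nd (nat_lit 9) 
(.lf (nat_lit 593930) (.g (nat_lit 1974) (.e (nat_lit 516117) (nat_lit 1) (.e (nat_lit 164330) (nat_lit 230) (.e (nat_lit 163941) (nat_lit 19) (.e (nat_lit 483340) (nat_lit 9) .nil)))) (.g (nat_lit 0) (.e (nat_lit 405898) (nat_lit 0) .nil) .nil))) 
(.lf (nat_lit 594442) (.g (nat_lit 2522) (.e (nat_lit 516129) (nat_lit 3) (.e (nat_lit 221210) (nat_lit 22) (.e (nat_lit 196668) (nat_lit 14) (.e (nat_lit 73747) (nat_lit 3) (.e (nat_lit 516097) (nat_lit 0) (.e (nat_lit 3458) (nat_lit 216) (.e (nat_lit 688171) (nat_lit 15) (.e (nat_lit 57465) (nat_lit 23) .nil)))))))) (.g (nat_lit 1) (.e (nat_lit 406844) (nat_lit 0) .nil) .nil)))) 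
(.nd (nat_lit 9) 
(.lf (nat_lit 594186) (.g (nat_lit 2332) (.e (nat_lit 516120) (nat_lit 1) (.e (nat_lit 164330) (nat_lit 230) (.e (nat_lit 163902) (nat_lit 12) (.e (nat_lit 426530) (nat_lit 27) (.e (nat_lit 336390) (nat_lit 27) .nil))))) (.g (nat_lit 0) (.e (nat_lit 406440) (nat_lit 0) .nil) .nil))) 
(.lf (nat_lit 594698) (.g (nat_lit 3620) (.e (nat_lit 516139) (nat_lit 7) (.e (nat_lit 409646) (nat_lit 18) (.e (nat_lit 303117) (nat_lit 2) (.e (nat_lit 196674) (nat_lit 15) (.e (nat_lit 81936) (nat_lit 20) (.e (nat_lit 1792) (nat_lit 119) .nil)))))) (.g (nat_lit 1) (.e (nat_lit 407227) (nat_lit 0) .nil) .nil))))) (.nd (nat_lit 8) (.nd (nat_lit 9) 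
(.lf (nat_lit 594058) (.g (nat_lit 2234) (.e (nat_lit 516119) (nat_lit 1) (.e (nat_lit 164179) (nat_lit 154) (.e (nat_lit 57372) (nat_lit 2) (.e (nat_lit 90128) (nat_lit 9) (.e (nat_lit 2706) (nat_lit 170) .nil))))) (.g (nat_lit 0) (.e (nat_lit 406130) (nat_lit 0) .nil) .nil))) 
(.lf (nat_lit 594570) (.g (nat_lit 3209) (.e (nat_lit 516138) (nat_lit 7) (.e (nat_lit 409645) (nat_lit 18) (.e (nat_lit 303117) (nat_lit 2) (.e (nat_lit 196674) (nat_lit 15) (.e (nat_lit 81936) (nat_lit 20) (.e (nat_lit 1790) (nat_lit 119) .nil)))))) (.g (nat_lit 1) (.e (nat_lit 407059) (nat_lit 0) .nil) .nil)))) (.nd (nat_lit 9) 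
(.lf (nat_lit 594314) (.g (nat_lit 1502) (.e (nat_lit 516125) (nat_lit 2) (.e (nat_lit 213032) (nat_lit 11) (.e (nat_lit 24607) (nat_lit 3) (.e (nat_lit 106240) (nat_lit 26) .nil)))) (.g (nat_lit 0) (.e (nat_lit 406674) (nat_lit 0) .nil) .nil))) 
(.lf (nat_lit 594826) (.g (nat_lit 3136) (.e (nat_lit 516139) (nat_lit 7) (.e (nat_lit 409649) (nat_lit 18) (.e (nat_lit 303117) (nat_lit 2) (.e (nat_lit 196666) (nat_lit 13) (.e (nat_lit 65617) (nat_lit 10) (.e (nat_lit 344116) (nat_lit 21) .nil)))))) (.g (nat_lit 1) (.e (nat_lit 407374) (nat_lit 0) .nil) .nil)))))) (.nd (nat_lit 7) (.nd (nat_lit 8) (.nd (nat_lit 9) 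
(.lf (nat_lit 593994) (.g (nat_lit 1572) (.e (nat_lit 516118) (nat_lit 1) (.e (nat_lit 164325) (nat_lit 230) (.e (nat_lit 163902) (nat_lit 12) (.e (nat_lit 426568) (nat_lit 34) .nil)))) (.g (nat_lit 0) (.e (nat_lit 406021) (nat_lit 0) .nil) .nil))) 
(.lf (nat_lit 594506) (.g (nat_lit 2858) (.e (nat_lit 516131) (nat_lit 3) (.e (nat_lit 221213) (nat_lit 23) (.e (nat_lit 204830) (nat_lit 18) (.e (nat_lit 57927) (nat_lit 282) (.e (nat_lit 163874) (nat_lit 3) (.e (nat_lit 204872) (nat_lit 30) (.e (nat_lit 368676) (nat_lit 21) .nil))))))) (.g (nat_lit 1) (.e (nat_lit 406937) (nat_lit 0) .nil) .nil)))) (.nd (nat_lit 9) 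
(.lf (nat_lit 594250) (.g (nat_lit 441) (.e (nat_lit 516120) (nat_lit 1) (.e (nat_lit 164332) (nat_lit 230) (.e (nat_lit 163936) (nat_lit 18) .nil))) (.g (nat_lit 0) (.e (nat_lit 406571) (nat_lit 0) .nil) .nil))) 
(.lf (nat_lit 594762) (.g (nat_lit 312) (.e (nat_lit 516139) (nat_lit 7) (.e (nat_lit 409648) (nat_lit 18) (.e (nat_lit 303117) (nat_lit 2) .nil))) (.g (nat_lit 0) (.e (nat_lit 407298) (nat_lit 0) .nil) .nil))))) (.nd (nat_lit 8) (.nd (nat_lit 9) 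
(.lf (nat_lit 594122) (.g (nat_lit 1836) (.e (nat_lit 516119) (nat_lit 1) (.e (nat_lit 164326) (nat_lit 230) (.e (nat_lit 163903) (nat_lit 12) (.e (nat_lit 426568) (nat_lit 34) (.e (nat_lit 393273) (nat_lit 23) .nil))))) (.g (nat_lit 0) (.e (nat_lit 406256) (nat_lit 0) .nil) .nil))) 
(.lf (nat_lit 594634) (.g (nat_lit 1308) (.e (nat_lit 516139) (nat_lit 7) (.e (nat_lit 409643) (nat_lit 18) (.e (nat_lit 303119) (nat_lit 3) (.e (nat_lit 204858) (nat_lit 26) .nil)))) (.g (nat_lit 0) (.e (nat_lit 407156) (nat_lit 0) .nil) .nil)))) (.nd (nat_lit 9) 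
(.lf (nat_lit 594378) (.g (nat_lit 1092) (.e (nat_lit 516127) (nat_lit 2) (.e (nat_lit 213031) (nat_lit 11) (.e (nat_lit 24608) (nat_lit 3) (.e (nat_lit 98363) (nat_lit 26) (.e (nat_lit 426318) (nat_lit 12) .nil))))) (.g (nat_lit 0) (.e (nat_lit 406752) (nat_lit 0) .nil) .nil))) 
(.lf (nat_lit 594890) (.g (nat_lit 1285) (.e (nat_lit 516143) (nat_lit 9) (.e (nat_lit 426436) (nat_lit 18) (.e (nat_lit 98386) (nat_lit 32) (.e (nat_lit 475177) (nat_lit 24) .nil)))) (.g (nat_lit 0) (.e (nat_lit 407464) (nat_lit 0) .nil) .nil))))))) (.nd (nat_lit 6) (.nd (nat_lit 7) (.nd (nat_lit 8) (.nd (nat_lit 9) 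
(.lf (nat_lit 593962) (.g (nat_lit 4434) (.e (nat_lit 516117) (nat_lit 1) (.e (nat_lit 164398) (nat_lit 256) (.e (nat_lit 57378) (nat_lit 3) (.e (nat_lit 98366) (nat_lit 27) (.e (nat_lit 434231) (nat_lit 23) (.e (nat_lit 532514) (nat_lit 3) (.e (nat_lit 114708) (nat_lit 20) (.e (nat_lit 1800) (nat_lit 119) .nil)))))))) (.g (nat_lit 1) (.e (nat_lit 405953) (nat_lit 0) .nil) .nil))) 
(.lf (nat_lit 594474) (.g (nat_lit 1218) (.e (nat_lit 516130) (nat_lit 3) (.e (nat_lit 221212) (nat_lit 22) (.e (nat_lit 196664) (nat_lit 13) (.e (nat_lit 65568) (nat_lit 2) (.e (nat_lit 98048) (nat_lit 2) (.e (nat_lit 16388) (nat_lit 0) (.e (nat_lit 3208) (nat_lit 195) .nil))))))) (.g (nat_lit 1) (.e (nat_lit 406879) (nat_lit 0) .nil) .nil)))) (.nd (nat_lit 9) 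
(.lf (nat_lit 594218) (.g (nat_lit 976) (.e (nat_lit 516120) (nat_lit 1) (.e (nat_lit 164330) (nat_lit 230) (.e (nat_lit 163943) (nat_lit 19) (.e (nat_lit 483341) (nat_lit 9) .nil)))) (.g (nat_lit 0) (.e (nat_lit 406518) (nat_lit 0) .nil) .nil))) 
(.lf (nat_lit 594730) (.g (nat_lit 3495) (.e (nat_lit 516139) (nat_lit 7) (.e (nat_lit 409647) (nat_lit 18) (.e (nat_lit 303118) (nat_lit 3) (.e (nat_lit 204866) (nat_lit 28) (.e (nat_lit 352292) (nat_lit 20) (.e (nat_lit 1788) (nat_lit 119) .nil)))))) (.g (nat_lit 1) (.e (nat_lit 407264) (nat_lit 0) .nil) .nil))))) (.nd (nat_lit 8) (.nd (nat_lit 9) 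
(.lf (nat_lit 594090) (.g (nat_lit 1675) (.e (nat_lit 516119) (nat_lit 1) (.e (nat_lit 164325) (nat_lit 230) (.e (nat_lit 163903) (nat_lit 12) (.e (nat_lit 426478) (nat_lit 27) .nil)))) (.g (nat_lit 0) (.e (nat_lit 406187) (nat_lit 0) .nil) .nil))) 
(.lf (nat_lit 594602) (.g (nat_lit 1671) (.e (nat_lit 516138) (nat_lit 7) (.e (nat_lit 409646) (nat_lit 18) (.e (nat_lit 303118) (nat_lit 3) (.e (nat_lit 204869) (nat_lit 29) .nil)))) (.g (nat_lit 0) (.e (nat_lit 407105) (nat_lit 0) .nil) .nil)))) (.nd (nat_lit 9) 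
(.lf (nat_lit 594346) (.g (nat_lit 373) (.e (nat_lit 516126) (nat_lit 2) (.e (nat_lit 213032) (nat_lit 11) (.e (nat_lit 24605) (nat_lit 2) .nil))) (.g (nat_lit 0) (.e (nat_lit 406707) (nat_lit 0) .nil) .nil))) 
(.lf (nat_lit 594858) (.g (nat_lit 333) (.e (nat_lit 516139) (nat_lit 7) (.e (nat_lit 409649) (nat_lit 18) (.e (nat_lit 303119) (nat_lit 3) .nil))) (.g (nat_lit 0) (.e (nat_lit 407411) (nat_lit 0) .nil) .nil)))))) (.nd (nat_lit 7) (.nd (nat_lit 8) (.nd (nat_lit 9) 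
(.lf (nat_lit 594026) (.g (nat_lit 1436) (.e (nat_lit 516118) (nat_lit 1) (.e (nat_lit 164332) (nat_lit 230) (.e (nat_lit 163905) (nat_lit 12) (.e (nat_lit 426479) (nat_lit 27) .nil)))) (.g (nat_lit 0) (.e (nat_lit 406075) (nat_lit 0) .nil) .nil))) 
(.lf (nat_lit 594538) (.g (nat_lit 2589) (.e (nat_lit 516131) (nat_lit 3) (.e (nat_lit 221215) (nat_lit 23) (.e (nat_lit 204830) (nat_lit 18) (.e (nat_lit 57926) (nat_lit 282) (.e (nat_lit 163875) (nat_lit 3) (.e (nat_lit 204863) (nat_lit 27) (.e (nat_lit 344120) (nat_lit 21) .nil))))))) (.g (nat_lit 1) (.e (nat_lit 406973) (nat_lit 0) .nil) .nil)))) (.nd (nat_lit 9) 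
(.lf (nat_lit 594282) (.g (nat_lit 1137) (.e (nat_lit 516124) (nat_lit 2) (.e (nat_lit 213030) (nat_lit 11) (.e (nat_lit 24605) (nat_lit 2) (.e (nat_lit 90178) (nat_lit 15) (.e (nat_lit 196352) (nat_lit 0) .nil))))) (.g (nat_lit 0) (.e (nat_lit 406619) (nat_lit 0) .nil) .nil))) 
(.lf (nat_lit 594794) (.g (nat_lit 2457) (.e (nat_lit 516139) (nat_lit 7) (.e (nat_lit 409648) (nat_lit 18) (.e (nat_lit 303118) (nat_lit 3) (.e (nat_lit 204868) (nat_lit 29) (.e (nat_lit 368384) (nat_lit 3) .nil))))) (.g (nat_lit 1) (.e (nat_lit 407334) (nat_lit 0) .nil) .nil))))) (.nd (nat_lit 8) (.nd (nat_lit 9) 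
(.lf (nat_lit 594154) (.g (nat_lit 465) (.e (nat_lit 516120) (nat_lit 1) (.e (nat_lit 164183) (nat_lit 154) (.e (nat_lit 57410) (nat_lit 12) .nil))) (.g (nat_lit 0) (.e (nat_lit 406323) (nat_lit 0) .nil) .nil))) 
(.lf (nat_lit 594666) (.g (nat_lit 1593) (.e (nat_lit 516139) (nat_lit 7) (.e (nat_lit 409645) (nat_lit 18) (.e (nat_lit 303112) (nat_lit 0) (.e (nat_lit 3252) (nat_lit 197) .nil)))) (.g (nat_lit 0) (.e (nat_lit 407189) (nat_lit 0) .nil) .nil)))) (.nd (nat_lit 9) 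
(.lf (nat_lit 594410) (.g (nat_lit 3930) (.e (nat_lit 516129) (nat_lit 3) (.e (nat_lit 221193) (nat_lit 11) (.e (nat_lit 336011) (nat_lit 2) (.e (nat_lit 90170) (nat_lit 13) (.e (nat_lit 172120) (nat_lit 12) (.e (nat_lit 475179) (nat_lit 24) .nil)))))) (.g (nat_lit 1) (.e (nat_lit 406800) (nat_lit 0) .nil) .nil))) 
(.lf (nat_lit 594922) (.g (nat_lit 2075) (.e (nat_lit 516146) (nat_lit 9) (.e (nat_lit 426438) (nat_lit 18) (.e (nat_lit 98358) (nat_lit 26) (.e (nat_lit 426428) (nat_lit 17) (.e (nat_lit 90130) (nat_lit 9) .nil))))) (.g (nat_lit 0) (.e (nat_lit 407500) (nat_lit 0) .nil) .nil)))))))) (.nd (nat_lit 5) (.nd (nat_lit 6) (.nd (nat_lit 7) (.nd (nat_lit 8) (.nd (nat_lit 9) 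
(.lf (nat_lit 593946) (.g (nat_lit 1743) (.e (nat_lit 516117) (nat_lit 1) (.e (nat_lit 164332) (nat_lit 230) (.e (nat_lit 163905) (nat_lit 12) (.e (nat_lit 426502) (nat_lit 27) .nil)))) (.g (nat_lit 0) (.e (nat_lit 405927) (nat_lit 0) .nil) .nil))) 
(.lf (nat_lit 594458) (.g (nat_lit 916) (.e (nat_lit 516129) (nat_lit 3) (.e (nat_lit 221215) (nat_lit 23) (.e (nat_lit 204821) (nat_lit 17) .nil))) (.g (nat_lit 0) (.e (nat_lit 406861) (nat_lit 0) .nil) .nil)))) (.nd (nat_lit 9) 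
(.lf (nat_lit 594202) (.g (nat_lit 1947) (.e (nat_lit 516120) (nat_lit 1) (.e (nat_lit 164330) (nat_lit 230) (.e (nat_lit 163941) (nat_lit 19) (.e (nat_lit 483332) (nat_lit 0) .nil)))) (.g (nat_lit 0) (.e (nat_lit 406498) (nat_lit 0) .nil) .nil))) 
(.lf (nat_lit 594714) (.g (nat_lit 1390) (.e (nat_lit 516139) (nat_lit 7) (.e (nat_lit 409646) (nat_lit 18) (.e (nat_lit 303119) (nat_lit 3) (.e (nat_lit 204859) (nat_lit 26) .nil)))) (.g (nat_lit 0) (.e (nat_lit 407245) (nat_lit 0) .nil) .nil))))) (.nd (nat_lit 8) (.nd (nat_lit 9) 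
(.lf (nat_lit 594074) (.g (nat_lit 2144) (.e (nat_lit 516119) (nat_lit 1) (.e (nat_lit 164322) (nat_lit 230) (.e (nat_lit 163902) (nat_lit 12) (.e (nat_lit 426568) (nat_lit 34) (.e (nat_lit 393293) (nat_lit 26) .nil))))) (.g (nat_lit 0) (.e (nat_lit 406155) (nat_lit 0) .nil) .nil))) 
(.lf (nat_lit 594586) (.g (nat_lit 3450) (.e (nat_lit 516138) (nat_lit 7) (.e (nat_lit 409645) (nat_lit 18) (.e (nat_lit 303119) (nat_lit 3) (.e (nat_lit 204869) (nat_lit 29) (.e (nat_lit 368384) (nat_lit 3) .nil))))) (.g (nat_lit 1) (.e (nat_lit 407086) (nat_lit 0) .nil) .nil)))) (.nd (nat_lit 9) 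
(.lf (nat_lit 594330) (.g (nat_lit 903) (.e (nat_lit 516126) (nat_lit 2) (.e (nat_lit 213030) (nat_lit 11) (.e (nat_lit 24609) (nat_lit 3) (.e (nat_lit 98380) (nat_lit 31) (.e (nat_lit 466945) (nat_lit 0) .nil))))) (.g (nat_lit 0) (.e (nat_lit 406691) (nat_lit 0) .nil) .nil))) 
(.lf (nat_lit 594842) (.g (nat_lit 1737) (.e (nat_lit 516139) (nat_lit 7) (.e (nat_lit 409649) (nat_lit 18) (.e (nat_lit 303118) (nat_lit 3) (.e (nat_lit 204821) (nat_lit 17) .nil)))) (.g (nat_lit 0) (.e (nat_lit 407390) (nat_lit 0) .nil) .nil)))))) (.nd (nat_lit 7) (.nd (nat_lit 8) (.nd (nat_lit 9) 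
(.lf (nat_lit 594010) (.g (nat_lit 3161) (.e (nat_lit 516118) (nat_lit 1) (.e (nat_lit 164327) (nat_lit 230) (.e (nat_lit 163907) (nat_lit 12) (.e (nat_lit 426566) (nat_lit 34) (.e (nat_lit 393291) (nat_lit 26) (.e (nat_lit 475177) (nat_lit 24) .nil)))))) (.g (nat_lit 1) (.e (nat_lit 406045) (nat_lit 0) .nil) .nil))) 
(.lf (nat_lit 594522) (.g (nat_lit 2782) (.e (nat_lit 516131) (nat_lit 3) (.e (nat_lit 221215) (nat_lit 23) (.e (nat_lit 204828) (nat_lit 18) (.e (nat_lit 57926) (nat_lit 282) (.e (nat_lit 163874) (nat_lit 3) (.e (nat_lit 204873) (nat_lit 30) (.e (nat_lit 368676) (nat_lit 21) .nil))))))) (.g (nat_lit 1) (.e (nat_lit 406956) (nat_lit 0) .nil) .nil)))) (.nd (nat_lit 9) 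
(.lf (nat_lit 594266) (.g (nat_lit 1320) (.e (nat_lit 516122) (nat_lit 2) (.e (nat_lit 213032) (nat_lit 11) (.e (nat_lit 24605) (nat_lit 2) (.e (nat_lit 90185) (nat_lit 17) .nil)))) (.g (nat_lit 0) (.e (nat_lit 406599) (nat_lit 0) .nil) .nil))) 
(.lf (nat_lit 594778) (.g (nat_lit 1357) (.e (nat_lit 516139) (nat_lit 7) (.e (nat_lit 409648) (nat_lit 18) (.e (nat_lit 303117) (nat_lit 2) (.e (nat_lit 196673) (nat_lit 15) .nil)))) (.g (nat_lit 0) (.e (nat_lit 407314) (nat_lit 0) .nil) .nil))))) (.nd (nat_lit 8) (.nd (nat_lit 9) 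
(.lf (nat_lit 594138) (.g (nat_lit 2388) (.e (nat_lit 516119) (nat_lit 1) (.e (nat_lit 164327) (nat_lit 230) (.e (nat_lit 163903) (nat_lit 12) (.e (nat_lit 426568) (nat_lit 34) (.e (nat_lit 393292) (nat_lit 26) (.e (nat_lit 475177) (nat_lit 24) .nil)))))) (.g (nat_lit 1) (.e (nat_lit 406277) (nat_lit 0) .nil) .nil))) 
(.lf (nat_lit 594650) (.g (nat_lit 2557) (.e (nat_lit 516139) (nat_lit 7) (.e (nat_lit 409644) (nat_lit 18) (.e (nat_lit 303119) (nat_lit 3) (.e (nat_lit 204852) (nat_lit 26) (.e (nat_lit 343808) (nat_lit 10) .nil))))) (.g (nat_lit 0) (.e (nat_lit 407172) (nat_lit 0) .nil) .nil)))) (.nd (nat_lit 9) 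
(.lf (nat_lit 594394) (.g (nat_lit 2308) (.e (nat_lit 516127) (nat_lit 2) (.e (nat_lit 213032) (nat_lit 11) (.e (nat_lit 24605) (nat_lit 2) (.e (nat_lit 90185) (nat_lit 17) (.e (nat_lit 237619) (nat_lit 12) (.e (nat_lit 475177) (nat_lit 24) .nil)))))) (.g (nat_lit 1) (.e (nat_lit 406768) (nat_lit 0) .nil) .nil))) 
(.lf (nat_lit 594906) (.g (nat_lit 2278) (.e (nat_lit 516145) (nat_lit 9) (.e (nat_lit 426438) (nat_lit 18) (.e (nat_lit 98366) (nat_lit 27) (.e (nat_lit 434247) (nat_lit 28) (.e (nat_lit 573484) (nat_lit 13) (.e (nat_lit 73472) (nat_lit 15) (.e (nat_lit 3208) (nat_lit 195) .nil))))))) (.g (nat_lit 1) (.e (nat_lit 407483) (nat_lit 0) .nil) .nil))))))) 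
(.nd (nat_lit 6) (.nd (nat_lit 7) (.nd (nat_lit 8) (.nd (nat_lit 9) 
(.lf (nat_lit 593978) (.g (nat_lit 2479) (.e (nat_lit 516118) (nat_lit 1) (.e (nat_lit 164182) (nat_lit 154) (.e (nat_lit 57379) (nat_lit 3) (.e (nat_lit 98342) (nat_lit 20) (.e (nat_lit 221210) (nat_lit 22) .nil))))) (.g (nat_lit 0) (.e (nat_lit 405986) (nat_lit 0) .nil) .nil))) 
(.lf (nat_lit 594490) (.g (nat_lit 3216) (.e (nat_lit 516130) (nat_lit 3) (.e (nat_lit 221215) (nat_lit 23) (.e (nat_lit 204861) (nat_lit 26) (.e (nat_lit 336004) (nat_lit 2) (.e (nat_lit 90153) (nat_lit 10) (.e (nat_lit 8541) (nat_lit 226) (.e (nat_lit 65280) (nat_lit 84) .nil))))))) (.g (nat_lit 1) (.e (nat_lit 406897) (nat_lit 0) .nil) .nil)))) (.nd (nat_lit 9) 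
(.lf (nat_lit 594234) (.g (nat_lit 1368) (.e (nat_lit 516120) (nat_lit 1) (.e (nat_lit 164332) (nat_lit 230) (.e (nat_lit 163902) (nat_lit 12) (.e (nat_lit 426567) (nat_lit 34) (.e (nat_lit 393293) (nat_lit 26) .nil))))) (.g (nat_lit 0) (.e (nat_lit 406550) (nat_lit 0) .nil) .nil))) 
(.lf (nat_lit 594746) (.g (nat_lit 853) (.e (nat_lit 516139) (nat_lit 7) (.e (nat_lit 409648) (nat_lit 18) (.e (nat_lit 303109) (nat_lit 0) (.e (nat_lit 3252) (nat_lit 197) .nil)))) (.g (nat_lit 0) (.e (nat_lit 407282) (nat_lit 0) .nil) .nil))))) (.nd (nat_lit 8) (.nd (nat_lit 9) 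
(.lf (nat_lit 594106) (.g (nat_lit 3408) (.e (nat_lit 516119) (nat_lit 1) (.e (nat_lit 164325) (nat_lit 230) (.e (nat_lit 163907) (nat_lit 12) (.e (nat_lit 426566) (nat_lit 34) (.e (nat_lit 393291) (nat_lit 26) (.e (nat_lit 475179) (nat_lit 24) .nil)))))) (.g (nat_lit 1) (.e (nat_lit 406212) (nat_lit 0) .nil) .nil))) 
(.lf (nat_lit 594618) (.g (nat_lit 859) (.e (nat_lit 516139) (nat_lit 7) (.e (nat_lit 409602) (nat_lit 0) (.e (nat_lit 5259) (nat_lit 298) .nil))) (.g (nat_lit 0) (.e (nat_lit 407130) (nat_lit 0) .nil) .nil)))) (.nd (nat_lit 9) 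
(.lf (nat_lit 594362) (.g (nat_lit 1326) (.e (nat_lit 516126) (nat_lit 2) (.e (nat_lit 213032) (nat_lit 11) (.e (nat_lit 24608) (nat_lit 3) (.e (nat_lit 98380) (nat_lit 31) (.e (nat_lit 466945) (nat_lit 0) .nil))))) (.g (nat_lit 0) (.e (nat_lit 406725) (nat_lit 0) .nil) .nil))) 
(.lf (nat_lit 594874) (.g (nat_lit 5436) (.e (nat_lit 516141) (nat_lit 8) (.e (nat_lit 417828) (nat_lit 18) (.e (nat_lit 303119) (nat_lit 3) (.e (nat_lit 204869) (nat_lit 29) (.e (nat_lit 360467) (nat_lit 3) .nil))))) (.g (nat_lit 1) (.e (nat_lit 407441) (nat_lit 0) .nil) .nil)))))) (.nd (nat_lit 7) (.nd (nat_lit 8) (.nd (nat_lit 9) 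
(.lf (nat_lit 594042) (.g (nat_lit 2377) (.e (nat_lit 516118) (nat_lit 1) (.e (nat_lit 164332) (nat_lit 230) (.e (nat_lit 163905) (nat_lit 12) (.e (nat_lit 426505) (nat_lit 27) .nil)))) (.g (nat_lit 0) (.e (nat_lit 406092) (nat_lit 0) .nil) .nil))) 
(.lf (nat_lit 594554) (.g (nat_lit 4053) (.e (nat_lit 516138) (nat_lit 7) (.e (nat_lit 409644) (nat_lit 18) (.e (nat_lit 303117) (nat_lit 2) (.e (nat_lit 196666) (nat_lit 13) (.e (nat_lit 65619) (nat_lit 10) (.e (nat_lit 344117) (nat_lit 21) .nil)))))) (.g (nat_lit 1) (.e (nat_lit 407036) (nat_lit 0) .nil) .nil)))) (.nd (nat_lit 9) 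
(.lf (nat_lit 594298) (.g (nat_lit 2797) (.e (nat_lit 516124) (nat_lit 2) (.e (nat_lit 213032) (nat_lit 11) (.e (nat_lit 24608) (nat_lit 3) (.e (nat_lit 98365) (nat_lit 26) (.e (nat_lit 426306) (nat_lit 12) (.e (nat_lit 475178) (nat_lit 24) .nil)))))) (.g (nat_lit 1) (.e (nat_lit 406640) (nat_lit 0) .nil) .nil))) 
(.lf (nat_lit 594810) (.g (nat_lit 2171) (.e (nat_lit 516139) (nat_lit 7) (.e (nat_lit 409649) (nat_lit 18) (.e (nat_lit 303111) (nat_lit 0) (.e (nat_lit 3238) (nat_lit 197) (.e (nat_lit 532549) (nat_lit 12) (.e (nat_lit 368384) (nat_lit 3) .nil)))))) (.g (nat_lit 1) (.e (nat_lit 407356) (nat_lit 0) .nil) .nil))))) (.nd (nat_lit 8) (.nd (nat_lit 9) 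
(.lf (nat_lit 594170) (.g (nat_lit 3786) (.e (nat_lit 516120) (nat_lit 1) (.e (nat_lit 164329) (nat_lit 230) (.e (nat_lit 163902) (nat_lit 12) (.e (nat_lit 426568) (nat_lit 34) (.e (nat_lit 393296) (nat_lit 26) (.e (nat_lit 475178) (nat_lit 24) .nil)))))) (.g (nat_lit 1) (.e (nat_lit 406395) (nat_lit 0) .nil) .nil))) 
(.lf (nat_lit 594682) (.g (nat_lit 1736) (.e (nat_lit 516139) (nat_lit 7) (.e (nat_lit 409645) (nat_lit 18) (.e (nat_lit 303119) (nat_lit 3) (.e (nat_lit 204868) (nat_lit 29) .nil)))) (.g (nat_lit 0) (.e (nat_lit 407209) (nat_lit 0) .nil) .nil)))) (.nd (nat_lit 9) 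
(.lf (nat_lit 594426) (.g (nat_lit 3287) (.e (nat_lit 516129) (nat_lit 3) (.e (nat_lit 221210) (nat_lit 22) (.e (nat_lit 196666) (nat_lit 13) (.e (nat_lit 65568) (nat_lit 2) (.e (nat_lit 98048) (nat_lit 2) (.e (nat_lit 16388) (nat_lit 0) (.e (nat_lit 3212) (nat_lit 195) .nil))))))) (.g (nat_lit 1) (.e (nat_lit 406828) (nat_lit 0) .nil) .nil))) 
(.lf (nat_lit 594938) (.g (nat_lit 2760) (.e (nat_lit 516147) (nat_lit 9) (.e (nat_lit 426131) (nat_lit 3) (.e (nat_lit 204838) (nat_lit 20) (.e (nat_lit 114716) (nat_lit 22) (.e (nat_lit 90163) (nat_lit 12) .nil))))) (.g (nat_lit 0) (.e (nat_lit 407516) (nat_lit 0) .nil) .nil)))))))))) 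
(.nd (nat_lit 3) (.nd (nat_lit 4) (.nd (nat_lit 5) (.nd (nat_lit 6) (.nd (nat_lit 7) 
(.nd (nat_lit 8) (.nd (nat_lit 9) 
(.lf (nat_lit 593926) (.g (nat_lit 2410) (.e (nat_lit 516117) (nat_lit 1) (.e (nat_lit 164330) (nat_lit 230) (.e (nat_lit 163905) (nat_lit 12) (.e (nat_lit 426566) (nat_lit 34) (.e (nat_lit 393292) (nat_lit 26) .nil))))) (.g (nat_lit 0) (.e (nat_lit 405873) (nat_lit 0) .nil) .nil))) 
(.lf (nat_lit 594438) (.g (nat_lit 1138) (.e (nat_lit 516129) (nat_lit 3) (.e (nat_lit 221210) (nat_lit 22) (.e (nat_lit 196668) (nat_lit 14) (.e (nat_lit 73750) (nat_lit 6) .nil)))) (.g (nat_lit 0) (.e (nat_lit 406840) (nat_lit 0) .nil) .nil)))) (.nd (nat_lit 9) 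
(.lf (nat_lit 594182) (.g (nat_lit 1524) (.e (nat_lit 516120) (nat_lit 1) (.e (nat_lit 164330) (nat_lit 230) (.e (nat_lit 163902) (nat_lit 12) (.e (nat_lit 426479) (nat_lit 27) .nil)))) (.g (nat_lit 0) (.e (nat_lit 406435) (nat_lit 0) .nil) .nil))) 
(.lf (nat_lit 594694) (.g (nat_lit 1420) (.e (nat_lit 516139) (nat_lit 7) (.e (nat_lit 409646) (nat_lit 18) (.e (nat_lit 303117) (nat_lit 2) (.e (nat_lit 196673) (nat_lit 15) .nil)))) (.g (nat_lit 0) (.e (nat_lit 407223) (nat_lit 0) .nil) .nil))))) (.nd (nat_lit 8) (.nd (nat_lit 9) 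
(.lf (nat_lit 594054) (.g (nat_lit 2892) (.e (nat_lit 516119) (nat_lit 1) (.e (nat_lit 164178) (nat_lit 154) (.e (nat_lit 57371) (nat_lit 2) (.e (nat_lit 90128) (nat_lit 9) (.e (nat_lit 2706) (nat_lit 170) (.e (nat_lit 221214) (nat_lit 23) (.e (nat_lit 204863) (nat_lit 27) (.e (nat_lit 344118) (nat_lit 21) .nil)))))))) (.g (nat_lit 1) (.e (nat_lit 406122) (nat_lit 0) .nil) .nil))) 
(.lf (nat_lit 594566) (.g (nat_lit 1197) (.e (nat_lit 516138) (nat_lit 7) (.e (nat_lit 409645) (nat_lit 18) (.e (nat_lit 303117) (nat_lit 2) (.e (nat_lit 196672) (nat_lit 15) .nil)))) (.g (nat_lit 0) (.e (nat_lit 407055) (nat_lit 0) .nil) .nil)))) (.nd (nat_lit 9) 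
(.lf (nat_lit 594310) (.g (nat_lit 1228) (.e (nat_lit 516125) (nat_lit 2) (.e (nat_lit 213032) (nat_lit 11) (.e (nat_lit 24604) (nat_lit 2) (.e (nat_lit 90178) (nat_lit 15) .nil)))) (.g (nat_lit 0) (.e (nat_lit 406670) (nat_lit 0) .nil) .nil))) 
(.lf (nat_lit 594822) (.g (nat_lit 3426) (.e (nat_lit 516139) (nat_lit 7) (.e (nat_lit 409649) (nat_lit 18) (.e (nat_lit 303117) (nat_lit 2) (.e (nat_lit 196666) (nat_lit 13) (.e (nat_lit 65611) (nat_lit 10) .nil))))) (.g (nat_lit 0) (.e (nat_lit 407370) (nat_lit 0) .nil) .nil)))))) (.nd (nat_lit 7) (.nd (nat_lit 8) (.nd (nat_lit 9) 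
(.lf (nat_lit 593990) (.g (nat_lit 3733) (.e (nat_lit 516118) (nat_lit 1) (.e (nat_lit 164324) (nat_lit 230) (.e (nat_lit 163903) (nat_lit 12) (.e (nat_lit 426566) (nat_lit 34) (.e (nat_lit 393294) (nat_lit 26) (.e (nat_lit 475177) (nat_lit 24) .nil)))))) (.g (nat_lit 1) (.e (nat_lit 406009) (nat_lit 0) .nil) .nil))) 
(.lf (nat_lit 594502) (.g (nat_lit 2029) (.e (nat_lit 516131) (nat_lit 3) (.e (nat_lit 221212) (nat_lit 22) (.e (nat_lit 196664) (nat_lit 13) (.e (nat_lit 65568) (nat_lit 2) (.e (nat_lit 98048) (nat_lit 2) (.e (nat_lit 16388) (nat_lit 0) (.e (nat_lit 3212) (nat_lit 195) .nil))))))) (.g (nat_lit 1) (.e (nat_lit 406933) (nat_lit 0) .nil) .nil)))) (.nd (nat_lit 9) 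
(.lf (nat_lit 594246) (.g (nat_lit 3362) (.e (nat_lit 516120) (nat_lit 1) (.e (nat_lit 164332) (nat_lit 230) (.e (nat_lit 163905) (nat_lit 12) (.e (nat_lit 426566) (nat_lit 34) (.e (nat_lit 393291) (nat_lit 26) (.e (nat_lit 475179) (nat_lit 24) .nil)))))) (.g (nat_lit 1) (.e (nat_lit 406567) (nat_lit 0) .nil) .nil))) 
(.lf (nat_lit 594758) (.g (nat_lit 3207) (.e (nat_lit 516139) (nat_lit 7) (.e (nat_lit 409648) (nat_lit 18) (.e (nat_lit 303116) (nat_lit 2) (.e (nat_lit 196666) (nat_lit 13) (.e (nat_lit 65617) (nat_lit 10) (.e (nat_lit 344116) (nat_lit 21) .nil)))))) (.g (nat_lit 1) (.e (nat_lit 407294) (nat_lit 0) .nil) .nil))))) (.nd (nat_lit 8) (.nd (nat_lit 9) 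
(.lf (nat_lit 594118) (.g (nat_lit 3673) (.e (nat_lit 516119) (nat_lit 1) (.e (nat_lit 164326) (nat_lit 230) (.e (nat_lit 163903) (nat_lit 12) (.e (nat_lit 426566) (nat_lit 34) (.e (nat_lit 393296) (nat_lit 26) (.e (nat_lit 475175) (nat_lit 24) .nil)))))) (.g (nat_lit 1) (.e (nat_lit 406252) (nat_lit 0) .nil) .nil))) 
(.lf (nat_lit 594630) (.g (nat_lit 840) (.e (nat_lit 516139) (nat_lit 7) (.e (nat_lit 409643) (nat_lit 18) (.e (nat_lit 303112) (nat_lit 0) (.e (nat_lit 3258) (nat_lit 198) .nil)))) (.g (nat_lit 0) (.e (nat_lit 407151) (nat_lit 0) .nil) .nil)))) (.nd (nat_lit 9) 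
(.lf (nat_lit 594374) (.g (nat_lit 299) (.e (nat_lit 516127) (nat_lit 2) (.e (nat_lit 213030) (nat_lit 11) (.e (nat_lit 24609) (nat_lit 3) .nil))) (.g (nat_lit 0) (.e (nat_lit 406745) (nat_lit 0) .nil) .nil))) 
(.lf (nat_lit 594886) (.g (nat_lit 3314) (.e (nat_lit 516142) (nat_lit 8) (.e (nat_lit 417829) (nat_lit 18) (.e (nat_lit 303118) (nat_lit 3) (.e (nat_lit 204868) (nat_lit 29) (.e (nat_lit 360466) (nat_lit 3) .nil))))) (.g (nat_lit 1) (.e (nat_lit 407459) (nat_lit 0) .nil) .nil))))))) (.nd (nat_lit 6) (.nd (nat_lit 7) (.nd (nat_lit 8) (.nd (nat_lit 9) 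
(.lf (nat_lit 593958) (.g (nat_lit 991) (.e (nat_lit 516117) (nat_lit 1) (.e (nat_lit 164332) (nat_lit 230) (.e (nat_lit 163943) (nat_lit 19) (.e (nat_lit 483337) (nat_lit 9) .nil)))) (.g (nat_lit 0) (.e (nat_lit 405943) (nat_lit 0) .nil) .nil))) 
(.lf (nat_lit 594470) (.g (nat_lit 2429) (.e (nat_lit 516130) (nat_lit 3) (.e (nat_lit 221211) (nat_lit 22) (.e (nat_lit 196666) (nat_lit 13) (.e (nat_lit 65568) (nat_lit 2) (.e (nat_lit 98048) (nat_lit 2) (.e (nat_lit 16388) (nat_lit 0) (.e (nat_lit 3213) (nat_lit 195) .nil))))))) (.g (nat_lit 1) (.e (nat_lit 406874) (nat_lit 0) .nil) .nil)))) (.nd (nat_lit 9) 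
(.lf (nat_lit 594214) (.g (nat_lit 2721) (.e (nat_lit 516120) (nat_lit 1) (.e (nat_lit 164330) (nat_lit 230) (.e (nat_lit 163941) (nat_lit 19) (.e (nat_lit 483341) (nat_lit 9) (.e (nat_lit 426198) (nat_lit 9) (.e (nat_lit 426405) (nat_lit 15) (.e (nat_lit 1800) (nat_lit 119) .nil))))))) (.g (nat_lit 1) (.e (nat_lit 406512) (nat_lit 0) .nil) .nil))) 
(.lf (nat_lit 594726) (.g (nat_lit 2806) (.e (nat_lit 516139) (nat_lit 7) (.e (nat_lit 409647) (nat_lit 18) (.e (nat_lit 303118) (nat_lit 3) (.e (nat_lit 204855) (nat_lit 26) (.e (nat_lit 336176) (nat_lit 10) (.e (nat_lit 344119) (nat_lit 21) .nil)))))) (.g (nat_lit 1) (.e (nat_lit 407260) (nat_lit 0) .nil) .nil))))) (.nd (nat_lit 8) (.nd (nat_lit 9) 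
(.lf (nat_lit 594086) (.g (nat_lit 477) (.e (nat_lit 516119) (nat_lit 1) (.e (nat_lit 164325) (nat_lit 230) (.e (nat_lit 163901) (nat_lit 12) .nil))) (.g (nat_lit 0) (.e (nat_lit 406183) (nat_lit 0) .nil) .nil))) 
(.lf (nat_lit 594598) (.g (nat_lit 2909) (.e (nat_lit 516138) (nat_lit 7) (.e (nat_lit 409646) (nat_lit 18) (.e (nat_lit 303117) (nat_lit 2) (.e (nat_lit 196674) (nat_lit 15) (.e (nat_lit 81936) (nat_lit 20) (.e (nat_lit 1807) (nat_lit 119) .nil)))))) (.g (nat_lit 1) (.e (nat_lit 407101) (nat_lit 0) .nil) .nil)))) (.nd (nat_lit 9) 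
(.lf (nat_lit 594342) (.g (nat_lit 1538) (.e (nat_lit 516126) (nat_lit 2) (.e (nat_lit 213032) (nat_lit 11) (.e (nat_lit 24604) (nat_lit 2) (.e (nat_lit 90178) (nat_lit 15) (.e (nat_lit 196352) (nat_lit 0) .nil))))) (.g (nat_lit 0) (.e (nat_lit 406703) (nat_lit 0) .nil) .nil))) 
(.lf (nat_lit 594854) (.g (nat_lit 2510) (.e (nat_lit 516139) (nat_lit 7) (.e (nat_lit 409649) (nat_lit 18) (.e (nat_lit 303118) (nat_lit 3) (.e (nat_lit 204868) (nat_lit 29) (.e (nat_lit 360465) (nat_lit 3) .nil))))) (.g (nat_lit 0) (.e (nat_lit 407407) (nat_lit 0) .nil) .nil)))))) (.nd (nat_lit 7) (.nd (nat_lit 8) (.nd (nat_lit 9) 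
(.lf (nat_lit 594022) (.g (nat_lit 381) (.e (nat_lit 516118) (nat_lit 1) (.e (nat_lit 164332) (nat_lit 230) (.e (nat_lit 163905) (nat_lit 12) .nil))) (.g (nat_lit 0) (.e (nat_lit 406071) (nat_lit 0) .nil) .nil))) 
(.lf (nat_lit 594534) (.g (nat_lit 3881) (.e (nat_lit 516131) (nat_lit 3) (.e (nat_lit 221215) (nat_lit 23) (.e (nat_lit 204830) (nat_lit 18) (.e (nat_lit 57926) (nat_lit 282) (.e (nat_lit 163867) (nat_lit 2) (.e (nat_lit 196668) (nat_lit 14) (.e (nat_lit 73747) (nat_lit 3) .nil))))))) (.g (nat_lit 1) (.e (nat_lit 406969) (nat_lit 0) .nil) .nil)))) (.nd (nat_lit 9) 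
(.lf (nat_lit 594278) (.g (nat_lit 1781) (.e (nat_lit 516122) (nat_lit 2) (.e (nat_lit 213032) (nat_lit 11) (.e (nat_lit 24609) (nat_lit 3) (.e (nat_lit 98365) (nat_lit 26) (.e (nat_lit 426306) (nat_lit 12) .nil))))) (.g (nat_lit 0) (.e (nat_lit 406612) (nat_lit 0) .nil) .nil))) 
(.lf (nat_lit 594790) (.g (nat_lit 1850) (.e (nat_lit 516139) (nat_lit 7) (.e (nat_lit 409648) (nat_lit 18) (.e (nat_lit 303118) (nat_lit 3) (.e (nat_lit 204865) (nat_lit 28) (.e (nat_lit 360192) (nat_lit 20) .nil))))) (.g (nat_lit 0) (.e (nat_lit 407327) (nat_lit 0) .nil) .nil))))) (.nd (nat_lit 8) (.nd (nat_lit 9) 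
(.lf (nat_lit 594150) (.g (nat_lit 3015) (.e (nat_lit 516120) (nat_lit 1) (.e (nat_lit 164182) (nat_lit 154) (.e (nat_lit 57373) (nat_lit 2) (.e (nat_lit 90128) (nat_lit 9) (.e (nat_lit 2706) (nat_lit 170) (.e (nat_lit 221215) (nat_lit 23) (.e (nat_lit 204863) (nat_lit 27) (.e (nat_lit 344118) (nat_lit 21) .nil)))))))) (.g (nat_lit 1) (.e (nat_lit 406310) (nat_lit 0) .nil) .nil))) 
(.lf (nat_lit 594662) (.g (nat_lit 3837) (.e (nat_lit 516139) (nat_lit 7) (.e (nat_lit 409644) (nat_lit 18) (.e (nat_lit 303119) (nat_lit 3) (.e (nat_lit 204869) (nat_lit 29) (.e (nat_lit 360465) (nat_lit 3) .nil))))) (.g (nat_lit 0) (.e (nat_lit 407185) (nat_lit 0) .nil) .nil)))) (.nd (nat_lit 9) 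
(.lf (nat_lit 594406) (.g (nat_lit 2735) (.e (nat_lit 516128) (nat_lit 3) (.e (nat_lit 221194) (nat_lit 11) (.e (nat_lit 336027) (nat_lit 3) (.e (nat_lit 98365) (nat_lit 26) .nil)))) (.g (nat_lit 0) (.e (nat_lit 406791) (nat_lit 0) .nil) .nil))) 
(.lf (nat_lit 594918) (.g (nat_lit 424) (.e (nat_lit 516146) (nat_lit 9) (.e (nat_lit 426428) (nat_lit 17) (.e (nat_lit 90134) (nat_lit 9) .nil))) (.g (nat_lit 0) (.e (nat_lit 407496) (nat_lit 0) .nil) .nil)))))))) (.nd (nat_lit 5) (.nd (nat_lit 6) (.nd (nat_lit 7) (.nd (nat_lit 8) (.nd (nat_lit 9) 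
(.lf (nat_lit 593942) (.g (nat_lit 1323) (.e (nat_lit 516117) (nat_lit 1) (.e (nat_lit 164332) (nat_lit 230) (.e (nat_lit 163905) (nat_lit 12) (.e (nat_lit 426478) (nat_lit 27) .nil)))) (.g (nat_lit 0) (.e (nat_lit 405921) (nat_lit 0) .nil) .nil))) 
(.lf (nat_lit 594454) (.g (nat_lit 3960) (.e (nat_lit 516129) (nat_lit 3) (.e (nat_lit 221214) (nat_lit 23) (.e (nat_lit 204829) (nat_lit 18) (.e (nat_lit 57927) (nat_lit 282) (.e (nat_lit 163867) (nat_lit 2) (.e (nat_lit 196670) (nat_lit 14) (.e (nat_lit 73746) (nat_lit 3) .nil))))))) (.g (nat_lit 1) (.e (nat_lit 406857) (nat_lit 0) .nil) .nil)))) (.nd (nat_lit 9) 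
(.lf (nat_lit 594198) (.g (nat_lit 3479) (.e (nat_lit 516120) (nat_lit 1) (.e (nat_lit 164330) (nat_lit 230) (.e (nat_lit 163905) (nat_lit 12) (.e (nat_lit 426566) (nat_lit 34) (.e (nat_lit 393296) (nat_lit 26) (.e (nat_lit 475177) (nat_lit 24) .nil)))))) (.g (nat_lit 1) (.e (nat_lit 406454) (nat_lit 0) .nil) .nil))) 
(.lf (nat_lit 594710) (.g (nat_lit 412) (.e (nat_lit 516139) (nat_lit 7) (.e (nat_lit 409646) (nat_lit 18) (.e (nat_lit 303119) (nat_lit 3) .nil))) (.g (nat_lit 0) (.e (nat_lit 407239) (nat_lit 0) .nil) .nil))))) (.nd (nat_lit 8) (.nd (nat_lit 9) 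
(.lf (nat_lit 594070) (.g (nat_lit 1513) (.e (nat_lit 516119) (nat_lit 1) (.e (nat_lit 164322) (nat_lit 230) (.e (nat_lit 163902) (nat_lit 12) (.e (nat_lit 426567) (nat_lit 34) (.e (nat_lit 393293) (nat_lit 26) .nil))))) (.g (nat_lit 0) (.e (nat_lit 406151) (nat_lit 0) .nil) .nil))) 
(.lf (nat_lit 594582) (.g (nat_lit 2177) (.e (nat_lit 516138) (nat_lit 7) (.e (nat_lit 409645) (nat_lit 18) (.e (nat_lit 303119) (nat_lit 3) (.e (nat_lit 204868) (nat_lit 29) (.e (nat_lit 360467) (nat_lit 3) .nil))))) (.g (nat_lit 0) (.e (nat_lit 407082) (nat_lit 0) .nil) .nil)))) (.nd (nat_lit 9) 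
(.lf (nat_lit 594326) (.g (nat_lit 1771) (.e (nat_lit 516126) (nat_lit 2) (.e (nat_lit 213030) (nat_lit 11) (.e (nat_lit 24607) (nat_lit 3) (.e (nat_lit 98363) (nat_lit 26) .nil)))) (.g (nat_lit 0) (.e (nat_lit 406687) (nat_lit 0) .nil) .nil))) 
(.lf (nat_lit 594838) (.g (nat_lit 2999) (.e (nat_lit 516139) (nat_lit 7) (.e (nat_lit 409649) (nat_lit 18) (.e (nat_lit 303117) (nat_lit 2) (.e (nat_lit 196674) (nat_lit 15) (.e (nat_lit 81947) (nat_lit 20) (.e (nat_lit 1799) (nat_lit 119) .nil)))))) (.g (nat_lit 1) (.e (nat_lit 407386) (nat_lit 0) .nil) .nil)))))) (.nd (nat_lit 7) (.nd (nat_lit 8) (.nd (nat_lit 9) 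
(.lf (nat_lit 594006) (.g (nat_lit 1597) (.e (nat_lit 516118) (nat_lit 1) (.e (nat_lit 164327) (nat_lit 230) (.e (nat_lit 163903) (nat_lit 12) (.e (nat_lit 426491) (nat_lit 27) .nil)))) (.g (nat_lit 0) (.e (nat_lit 406041) (nat_lit 0) .nil) .nil))) 
(.lf (nat_lit 594518) (.g (nat_lit 782) (.e (nat_lit 516131) (nat_lit 3) (.e (nat_lit 221215) (nat_lit 23) (.e (nat_lit 204814) (nat_lit 17) .nil))) (.g (nat_lit 0) (.e (nat_lit 406950) (nat_lit 0) .nil) .nil)))) (.nd (nat_lit 9) 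
(.lf (nat_lit 594262) (.g (nat_lit 2019) (.e (nat_lit 516122) (nat_lit 2) (.e (nat_lit 213032) (nat_lit 11) (.e (nat_lit 24604) (nat_lit 2) (.e (nat_lit 90170) (nat_lit 13) (.e (nat_lit 172120) (nat_lit 12) .nil))))) (.g (nat_lit 0) (.e (nat_lit 406595) (nat_lit 0) .nil) .nil))) 
(.lf (nat_lit 594774) (.g (nat_lit 1888) (.e (nat_lit 516139) (nat_lit 7) (.e (nat_lit 409648) (nat_lit 18) (.e (nat_lit 303117) (nat_lit 2) (.e (nat_lit 196666) (nat_lit 13) (.e (nat_lit 73472) (nat_lit 10) .nil))))) (.g (nat_lit 0) (.e (nat_lit 407310) (nat_lit 0) .nil) .nil))))) (.nd (nat_lit 8) (.nd (nat_lit 9) 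
(.lf (nat_lit 594134) (.g (nat_lit 1574) (.e (nat_lit 516119) (nat_lit 1) (.e (nat_lit 164327) (nat_lit 230) (.e (nat_lit 163903) (nat_lit 12) (.e (nat_lit 426530) (nat_lit 27) .nil)))) (.g (nat_lit 0) (.e (nat_lit 406272) (nat_lit 0) .nil) .nil))) 
(.lf (nat_lit 594646) (.g (nat_lit 2823) (.e (nat_lit 516139) (nat_lit 7) (.e (nat_lit 409644) (nat_lit 18) (.e (nat_lit 303117) (nat_lit 2) (.e (nat_lit 196674) (nat_lit 15) (.e (nat_lit 81947) (nat_lit 20) .nil))))) (.g (nat_lit 0) (.e (nat_lit 407168) (nat_lit 0) .nil) .nil)))) (.nd (nat_lit 9) 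
(.lf (nat_lit 594390) (.g (nat_lit 364) (.e (nat_lit 516127) (nat_lit 2) (.e (nat_lit 213032) (nat_lit 11) (.e (nat_lit 24605) (nat_lit 2) .nil))) (.g (nat_lit 0) (.e (nat_lit 406764) (nat_lit 0) .nil) .nil))) 
(.lf (nat_lit 594902) (.g (nat_lit 3649) (.e (nat_lit 516145) (nat_lit 9) (.e (nat_lit 426438) (nat_lit 18) (.e (nat_lit 98366) (nat_lit 27) (.e (nat_lit 434244) (nat_lit 28) (.e (nat_lit 573481) (nat_lit 13) (.e (nat_lit 65637) (nat_lit 15) (.e (nat_lit 7936) (nat_lit 195) .nil))))))) (.g (nat_lit 1) (.e (nat_lit 407479) (nat_lit 0) .nil) .nil))))))) 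
(.nd (nat_lit 6) (.nd (nat_lit 7) (.nd (nat_lit 8) (.nd (nat_lit 9) 
(.lf (nat_lit 593974) (.g (nat_lit 2039) (.e (nat_lit 516118) (nat_lit 1) (.e (nat_lit 164182) (nat_lit 154) (.e (nat_lit 57379) (nat_lit 3) (.e (nat_lit 98340) (nat_lit 20) (.e (nat_lit 221212) (nat_lit 22) .nil))))) (.g (nat_lit 0) (.e (nat_lit 405982) (nat_lit 0) .nil) .nil))) 
(.lf (nat_lit 594486) (.g (nat_lit 2059) (.e (nat_lit 516130) (nat_lit 3) (.e (nat_lit 221215) (nat_lit 23) (.e (nat_lit 204850) (nat_lit 26) (.e (nat_lit 336013) (nat_lit 2) (.e (nat_lit 98048) (nat_lit 2) (.e (nat_lit 16388) (nat_lit 0) (.e (nat_lit 3212) (nat_lit 195) .nil))))))) (.g (nat_lit 1) (.e (nat_lit 406892) (nat_lit 0) .nil) .nil)))) (.nd (nat_lit 9) 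
(.lf (nat_lit 594230) (.g (nat_lit 1146) (.e (nat_lit 516120) (nat_lit 1) (.e (nat_lit 164332) (nat_lit 230) (.e (nat_lit 163902) (nat_lit 12) (.e (nat_lit 426481) (nat_lit 27) .nil)))) (.g (nat_lit 0) (.e (nat_lit 406546) (nat_lit 0) .nil) .nil))) 
(.lf (nat_lit 594742) (.g (nat_lit 2729) (.e (nat_lit 516139) (nat_lit 7) (.e (nat_lit 409647) (nat_lit 18) (.e (nat_lit 303119) (nat_lit 3) (.e (nat_lit 204869) (nat_lit 29) (.e (nat_lit 368384) (nat_lit 3) .nil))))) (.g (nat_lit 0) (.e (nat_lit 407278) (nat_lit 0) .nil) .nil))))) (.nd (nat_lit 8) (.nd (nat_lit 9) 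
(.lf (nat_lit 594102) (.g (nat_lit 1545) (.e (nat_lit 516119) (nat_lit 1) (.e (nat_lit 164325) (nat_lit 230) (.e (nat_lit 163907) (nat_lit 12) (.e (nat_lit 426491) (nat_lit 27) .nil)))) (.g (nat_lit 0) (.e (nat_lit 406206) (nat_lit 0) .nil) .nil))) 
(.lf (nat_lit 594614) (.g (nat_lit 2516) (.e (nat_lit 516138) (nat_lit 7) (.e (nat_lit 409649) (nat_lit 18) (.e (nat_lit 303117) (nat_lit 2) (.e (nat_lit 196666) (nat_lit 13) (.e (nat_lit 65619) (nat_lit 10) .nil))))) (.g (nat_lit 0) (.e (nat_lit 407125) (nat_lit 0) .nil) .nil)))) (.nd (nat_lit 9) 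
(.lf (nat_lit 594358) (.g (nat_lit 3280) (.e (nat_lit 516126) (nat_lit 2) (.e (nat_lit 213032) (nat_lit 11) (.e (nat_lit 24608) (nat_lit 3) (.e (nat_lit 98365) (nat_lit 26) (.e (nat_lit 426306) (nat_lit 12) (.e (nat_lit 475177) (nat_lit 24) .nil)))))) (.g (nat_lit 1) (.e (nat_lit 406721) (nat_lit 0) .nil) .nil))) 
(.lf (nat_lit 594870) (.g (nat_lit 1899) (.e (nat_lit 516141) (nat_lit 8) (.e (nat_lit 417810) (nat_lit 6) (.e (nat_lit 286733) (nat_lit 2) (.e (nat_lit 90128) (nat_lit 9) .nil)))) (.g (nat_lit 0) (.e (nat_lit 407436) (nat_lit 0) .nil) .nil)))))) (.nd (nat_lit 7) (.nd (nat_lit 8) (.nd (nat_lit 9) 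
(.lf (nat_lit 594038) (.g (nat_lit 2377) (.e (nat_lit 516118) (nat_lit 1) (.e (nat_lit 164332) (nat_lit 230) (.e (nat_lit 163905) (nat_lit 12) (.e (nat_lit 426494) (nat_lit 27) .nil)))) (.g (nat_lit 0) (.e (nat_lit 406088) (nat_lit 0) .nil) .nil))) 
(.lf (nat_lit 594550) (.g (nat_lit 2908) (.e (nat_lit 516131) (nat_lit 3) (.e (nat_lit 221219) (nat_lit 24) (.e (nat_lit 213019) (nat_lit 9) (.e (nat_lit 2610) (nat_lit 163) (.e (nat_lit 164345) (nat_lit 240) (.e (nat_lit 2638) (nat_lit 165) (.e (nat_lit 188160) (nat_lit 38) (.e (nat_lit 122936) (nat_lit 23) .nil)))))))) (.g (nat_lit 1) (.e (nat_lit 406985) (nat_lit 0) .nil) .nil)))) 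
(.nd (nat_lit 9) 
(.lf (nat_lit 594294) (.g (nat_lit 1801) (.e (nat_lit 516124) (nat_lit 2) (.e (nat_lit 213032) (nat_lit 11) (.e (nat_lit 24605) (nat_lit 2) (.e (nat_lit 90185) (nat_lit 17) (.e (nat_lit 237616) (nat_lit 12) .nil))))) (.g (nat_lit 0) (.e (nat_lit 406634) (nat_lit 0) .nil) .nil))) 
(.lf (nat_lit 594806) (.g (nat_lit 1190) (.e (nat_lit 516139) (nat_lit 7) (.e (nat_lit 409649) (nat_lit 18) (.e (nat_lit 303110) (nat_lit 0) .nil))) (.g (nat_lit 0) (.e (nat_lit 407352) (nat_lit 0) .nil) .nil))))) (.nd (nat_lit 8) (.nd (nat_lit 9) 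
(.lf (nat_lit 594166) (.g (nat_lit 3198) (.e (nat_lit 516120) (nat_lit 1) (.e (nat_lit 164329) (nat_lit 230) (.e (nat_lit 163902) (nat_lit 12) (.e (nat_lit 426568) (nat_lit 34) (.e (nat_lit 393234) (nat_lit 17) (.e (nat_lit 7374) (nat_lit 389) (.e (nat_lit 8320) (nat_lit 64) .nil))))))) (.g (nat_lit 1) (.e (nat_lit 406391) (nat_lit 0) .nil) .nil))) 
(.lf (nat_lit 594678) (.g (nat_lit 1516) (.e (nat_lit 516139) (nat_lit 7) (.e (nat_lit 409645) (nat_lit 18) (.e (nat_lit 303118) (nat_lit 3) (.e (nat_lit 204869) (nat_lit 29) .nil)))) (.g (nat_lit 0) (.e (nat_lit 407203) (nat_lit 0) .nil) .nil)))) (.nd (nat_lit 9) 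
(.lf (nat_lit 594422) (.g (nat_lit 2445) (.e (nat_lit 516129) (nat_lit 3) (.e (nat_lit 221210) (nat_lit 22) (.e (nat_lit 196663) (nat_lit 13) (.e (nat_lit 65568) (nat_lit 2) (.e (nat_lit 98048) (nat_lit 2) (.e (nat_lit 16388) (nat_lit 0) (.e (nat_lit 3214) (nat_lit 195) .nil))))))) (.g (nat_lit 1) (.e (nat_lit 406824) (nat_lit 0) .nil) .nil))) 
(.lf (nat_lit 594934) (.g (nat_lit 1287) (.e (nat_lit 516146) (nat_lit 9) (.e (nat_lit 426438) (nat_lit 18) (.e (nat_lit 98384) (nat_lit 32) (.e (nat_lit 475169) (nat_lit 22) .nil)))) (.g (nat_lit 0) (.e (nat_lit 407512) (nat_lit 0) .nil) .nil))))))))) (.nd (nat_lit 4) (.nd (nat_lit 5) (.nd (nat_lit 6) (.nd (nat_lit 7) (.nd (nat_lit 8) (.nd (nat_lit 9) 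
(.lf (nat_lit 593934) (.g (nat_lit 541) (.e (nat_lit 516117) (nat_lit 1) (.e (nat_lit 164331) (nat_lit 230) (.e (nat_lit 163941) (nat_lit 19) .nil))) (.g (nat_lit 0) (.e (nat_lit 405908) (nat_lit 0) .nil) .nil))) 
(.lf (nat_lit 594446) (.g (nat_lit 2854) (.e (nat_lit 516129) (nat_lit 3) (.e (nat_lit 221210) (nat_lit 22) (.e (nat_lit 196670) (nat_lit 14) (.e (nat_lit 73746) (nat_lit 3) (.e (nat_lit 516100) (nat_lit 0) (.e (nat_lit 3460) (nat_lit 216) (.e (nat_lit 688171) (nat_lit 15) (.e (nat_lit 57465) (nat_lit 23) .nil)))))))) (.g (nat_lit 1) (.e (nat_lit 406848) (nat_lit 0) .nil) .nil)))) 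
(.nd (nat_lit 9) 
(.lf (nat_lit 594190) (.g (nat_lit 2844) (.e (nat_lit 516120) (nat_lit 1) (.e (nat_lit 164330) (nat_lit 230) (.e (nat_lit 163902) (nat_lit 12) (.e (nat_lit 426568) (nat_lit 34) (.e (nat_lit 393292) (nat_lit 26) .nil))))) (.g (nat_lit 0) (.e (nat_lit 406444) (nat_lit 0) .nil) .nil))) 
(.lf (nat_lit 594702) (.g (nat_lit 4562) (.e (nat_lit 516139) (nat_lit 7) (.e (nat_lit 409646) (nat_lit 18) (.e (nat_lit 303117) (nat_lit 2) (.e (nat_lit 196674) (nat_lit 15) (.e (nat_lit 81946) (nat_lit 20) (.e (nat_lit 1802) (nat_lit 119) .nil)))))) (.g (nat_lit 1) (.e (nat_lit 407231) (nat_lit 0) .nil) .nil))))) (.nd (nat_lit 8) (.nd (nat_lit 9) 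
(.lf (nat_lit 594062) (.g (nat_lit 1461) (.e (nat_lit 516119) (nat_lit 1) (.e (nat_lit 164179) (nat_lit 154) (.e (nat_lit 57377) (nat_lit 3) (.e (nat_lit 98341) (nat_lit 20) .nil)))) (.g (nat_lit 0) (.e (nat_lit 406135) (nat_lit 0) .nil) .nil))) 
(.lf (nat_lit 594574) (.g (nat_lit 4398) (.e (nat_lit 516138) (nat_lit 7) (.e (nat_lit 409645) (nat_lit 18) (.e (nat_lit 303117) (nat_lit 2) (.e (nat_lit 196674) (nat_lit 15) (.e (nat_lit 81946) (nat_lit 20) (.e (nat_lit 1788) (nat_lit 119) .nil)))))) (.g (nat_lit 1) (.e (nat_lit 407063) (nat_lit 0) .nil) .nil)))) (.nd (nat_lit 9) 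
(.lf (nat_lit 594318) (.g (nat_lit 1770) (.e (nat_lit 516125) (nat_lit 2) (.e (nat_lit 213032) (nat_lit 11) (.e (nat_lit 24608) (nat_lit 3) (.e (nat_lit 98380) (nat_lit 31) (.e (nat_lit 466945) (nat_lit 0) .nil))))) (.g (nat_lit 0) (.e (nat_lit 406678) (nat_lit 0) .nil) .nil))) 
(.lf (nat_lit 594830) (.g (nat_lit 852) (.e (nat_lit 516139) (nat_lit 7) (.e (nat_lit 409649) (nat_lit 18) (.e (nat_lit 303117) (nat_lit 2) (.e (nat_lit 196672) (nat_lit 15) .nil)))) (.g (nat_lit 0) (.e (nat_lit 407378) (nat_lit 0) .nil) .nil)))))) (.nd (nat_lit 7) (.nd (nat_lit 8) (.nd (nat_lit 9) 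
(.lf (nat_lit 593998) (.g (nat_lit 3047) (.e (nat_lit 516118) (nat_lit 1) (.e (nat_lit 164325) (nat_lit 230) (.e (nat_lit 163907) (nat_lit 12) (.e (nat_lit 426566) (nat_lit 34) (.e (nat_lit 393291) (nat_lit 26) (.e (nat_lit 475177) (nat_lit 24) .nil)))))) (.g (nat_lit 1) (.e (nat_lit 406025) (nat_lit 0) .nil) .nil))) 
(.lf (nat_lit 594510) (.g (nat_lit 2569) (.e (nat_lit 516131) (nat_lit 3) (.e (nat_lit 221214) (nat_lit 23) (.e (nat_lit 204830) (nat_lit 18) (.e (nat_lit 57926) (nat_lit 282) (.e (nat_lit 163866) (nat_lit 2) .nil))))) (.g (nat_lit 0) (.e (nat_lit 406941) (nat_lit 0) .nil) .nil)))) (.nd (nat_lit 9) 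
(.lf (nat_lit 594254) (.g (nat_lit 1703) (.e (nat_lit 516120) (nat_lit 1) (.e (nat_lit 164332) (nat_lit 230) (.e (nat_lit 163941) (nat_lit 19) (.e (nat_lit 483337) (nat_lit 9) (.e (nat_lit 433920) (nat_lit 12) .nil))))) (.g (nat_lit 0) (.e (nat_lit 406576) (nat_lit 0) .nil) .nil))) 
(.lf (nat_lit 594766) (.g (nat_lit 2783) (.e (nat_lit 516139) (nat_lit 7) (.e (nat_lit 409648) (nat_lit 18) (.e (nat_lit 303117) (nat_lit 2) (.e (nat_lit 196666) (nat_lit 13) (.e (nat_lit 65592) (nat_lit 9) .nil))))) (.g (nat_lit 0) (.e (nat_lit 407302) (nat_lit 0) .nil) .nil))))) (.nd (nat_lit 8) (.nd (nat_lit 9) 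
(.lf (nat_lit 594126) (.g (nat_lit 2183) (.e (nat_lit 516119) (nat_lit 1) (.e (nat_lit 164326) (nat_lit 230) (.e (nat_lit 163907) (nat_lit 12) (.e (nat_lit 426566) (nat_lit 34) (.e (nat_lit 393296) (nat_lit 26) .nil))))) (.g (nat_lit 0) (.e (nat_lit 406260) (nat_lit 0) .nil) .nil))) 
(.lf (nat_lit 594638) (.g (nat_lit 2446) (.e (nat_lit 516139) (nat_lit 7) (.e (nat_lit 409643) (nat_lit 18) (.e (nat_lit 303119) (nat_lit 3) (.e (nat_lit 204869) (nat_lit 29) (.e (nat_lit 360465) (nat_lit 3) .nil))))) (.g (nat_lit 1) (.e (nat_lit 407160) (nat_lit 0) .nil) .nil)))) (.nd (nat_lit 9) 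
(.lf (nat_lit 594382) (.g (nat_lit 1064) (.e (nat_lit 516127) (nat_lit 2) (.e (nat_lit 213032) (nat_lit 11) (.e (nat_lit 24604) (nat_lit 2) (.e (nat_lit 90176) (nat_lit 15) .nil)))) (.g (nat_lit 0) (.e (nat_lit 406756) (nat_lit 0) .nil) .nil))) 
(.lf (nat_lit 594894) (.g (nat_lit 2026) (.e (nat_lit 516144) (nat_lit 9) (.e (nat_lit 426436) (nat_lit 18) (.e (nat_lit 98386) (nat_lit 32) (.e (nat_lit 475177) (nat_lit 24) (.e (nat_lit 516180) (nat_lit 15) .nil))))) (.g (nat_lit 0) (.e (nat_lit 407469) (nat_lit 0) .nil) .nil))))))) (.nd (nat_lit 6) (.nd (nat_lit 7) (.nd (nat_lit 8) (.nd (nat_lit 9) 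
(.lf (nat_lit 593966) (.g (nat_lit 2467) (.e (nat_lit 516117) (nat_lit 1) (.e (nat_lit 164403) (nat_lit 256) (.e (nat_lit 57378) (nat_lit 3) (.e (nat_lit 98357) (nat_lit 26) (.e (nat_lit 426131) (nat_lit 3) .nil))))) (.g (nat_lit 0) (.e (nat_lit 405957) (nat_lit 0) .nil) .nil))) 
(.lf (nat_lit 594478) (.g (nat_lit 1550) (.e (nat_lit 516130) (nat_lit 3) (.e (nat_lit 221212) (nat_lit 22) (.e (nat_lit 196681) (nat_lit 17) (.e (nat_lit 131093) (nat_lit 2) (.e (nat_lit 98048) (nat_lit 2) .nil))))) (.g (nat_lit 0) (.e (nat_lit 406883) (nat_lit 0) .nil) .nil)))) (.nd (nat_lit 9) 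
(.lf (nat_lit 594222) (.g (nat_lit 368) (.e (nat_lit 516120) (nat_lit 1) (.e (nat_lit 164331) (nat_lit 230) (.e (nat_lit 163941) (nat_lit 19) .nil))) (.g (nat_lit 0) (.e (nat_lit 406528) (nat_lit 0) .nil) .nil))) 
(.lf (nat_lit 594734) (.g (nat_lit 2230) (.e (nat_lit 516139) (nat_lit 7) (.e (nat_lit 409647) (nat_lit 18) (.e (nat_lit 303118) (nat_lit 3) (.e (nat_lit 204869) (nat_lit 29) (.e (nat_lit 368384) (nat_lit 3) .nil))))) (.g (nat_lit 0) (.e (nat_lit 407270) (nat_lit 0) .nil) .nil))))) (.nd (nat_lit 8) (.nd (nat_lit 9) 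
(.lf (nat_lit 594094) (.g (nat_lit 3797) (.e (nat_lit 516119) (nat_lit 1) (.e (nat_lit 164325) (nat_lit 230) (.e (nat_lit 163903) (nat_lit 12) (.e (nat_lit 426566) (nat_lit 34) (.e (nat_lit 393293) (nat_lit 26) (.e (nat_lit 475179) (nat_lit 24) .nil)))))) (.g (nat_lit 1) (.e (nat_lit 406193) (nat_lit 0) .nil) .nil))) 
(.lf (nat_lit 594606) (.g (nat_lit 3446) (.e (nat_lit 516138) (nat_lit 7) (.e (nat_lit 409646) (nat_lit 18) (.e (nat_lit 303119) (nat_lit 3) (.e (nat_lit 204861) (nat_lit 26) (.e (nat_lit 336186) (nat_lit 11) (.e (nat_lit 368675) (nat_lit 21) .nil)))))) (.g (nat_lit 1) (.e (nat_lit 407113) (nat_lit 0) .nil) .nil)))) (.nd (nat_lit 9) 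
(.lf (nat_lit 594350) (.g (nat_lit 2243) (.e (nat_lit 516126) (nat_lit 2) (.e (nat_lit 213032) (nat_lit 11) (.e (nat_lit 24605) (nat_lit 2) (.e (nat_lit 90185) (nat_lit 17) (.e (nat_lit 237616) (nat_lit 12) (.e (nat_lit 475177) (nat_lit 24) .nil)))))) (.g (nat_lit 1) (.e (nat_lit 406711) (nat_lit 0) .nil) .nil))) 
(.lf (nat_lit 594862) (.g (nat_lit 3079) (.e (nat_lit 516139) (nat_lit 7) (.e (nat_lit 409649) (nat_lit 18) (.e (nat_lit 303119) (nat_lit 3) (.e (nat_lit 204868) (nat_lit 29) (.e (nat_lit 360465) (nat_lit 3) .nil))))) (.g (nat_lit 1) (.e (nat_lit 407420) (nat_lit 0) .nil) .nil)))))) (.nd (nat_lit 7) (.nd (nat_lit 8) (.nd (nat_lit 9) 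
(.lf (nat_lit 594030) (.g (nat_lit 2339) (.e (nat_lit 516118) (nat_lit 1) (.e (nat_lit 164332) (nat_lit 230) (.e (nat_lit 163905) (nat_lit 12) (.e (nat_lit 426486) (nat_lit 27) .nil)))) (.g (nat_lit 0) (.e (nat_lit 406080) (nat_lit 0) .nil) .nil))) 
(.lf (nat_lit 594542) (.g (nat_lit 3617) (.e (nat_lit 516131) (nat_lit 3) (.e (nat_lit 221215) (nat_lit 23) (.e (nat_lit 204830) (nat_lit 18) (.e (nat_lit 57930) (nat_lit 282) (.e (nat_lit 163869) (nat_lit 2) (.e (nat_lit 196670) (nat_lit 14) (.e (nat_lit 73746) (nat_lit 3) .nil))))))) (.g (nat_lit 1) (.e (nat_lit 406977) (nat_lit 0) .nil) .nil)))) (.nd (nat_lit 9) 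
(.lf (nat_lit 594286) (.g (nat_lit 1162) (.e (nat_lit 516124) (nat_lit 2) (.e (nat_lit 213030) (nat_lit 11) (.e (nat_lit 24609) (nat_lit 3) (.e (nat_lit 98370) (nat_lit 28) (.e (nat_lit 442373) (nat_lit 0) .nil))))) (.g (nat_lit 0) (.e (nat_lit 406623) (nat_lit 0) .nil) .nil))) 
(.lf (nat_lit 594798) (.g (nat_lit 2785) (.e (nat_lit 516139) (nat_lit 7) (.e (nat_lit 409648) (nat_lit 18) (.e (nat_lit 303119) (nat_lit 3) (.e (nat_lit 204816) (nat_lit 17) (.e (nat_lit 6519) (nat_lit 348) .nil))))) (.g (nat_lit 0) (.e (nat_lit 407338) (nat_lit 0) .nil) .nil))))) (.nd (nat_lit 8) (.nd (nat_lit 9) 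
(.lf (nat_lit 594158) (.g (nat_lit 4917) (.e (nat_lit 516120) (nat_lit 1) (.e (nat_lit 164304) (nat_lit 226) (.e (nat_lit 2612) (nat_lit 163) (.e (nat_lit 163978) (nat_lit 30) (.e (nat_lit 573489) (nat_lit 14) (.e (nat_lit 73755) (nat_lit 8) (.e (nat_lit 557097) (nat_lit 13) (.e (nat_lit 172132) (nat_lit 15) (.e (nat_lit 1796) (nat_lit 119) .nil))))))))) (.g (nat_lit 1) (.e (nat_lit 406333) (nat_lit 0) .nil) .nil))) 
(.lf (nat_lit 594670) (.g (nat_lit 3322) (.e (nat_lit 516139) (nat_lit 7) (.e (nat_lit 409645) (nat_lit 18) (.e (nat_lit 303117) (nat_lit 2) (.e (nat_lit 196674) (nat_lit 15) (.e (nat_lit 81936) (nat_lit 20) (.e (nat_lit 1781) (nat_lit 119) .nil)))))) (.g (nat_lit 1) (.e (nat_lit 407195) (nat_lit 0) .nil) .nil)))) (.nd (nat_lit 9) 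
(.lf (nat_lit 594414) (.g (nat_lit 736) (.e (nat_lit 516129) (nat_lit 3) (.e (nat_lit 221194) (nat_lit 11) (.e (nat_lit 336026) (nat_lit 3) (.e (nat_lit 98354) (nat_lit 26) .nil)))) (.g (nat_lit 0) (.e (nat_lit 406804) (nat_lit 0) .nil) .nil))) 
(.lf (nat_lit 594926) (.g (nat_lit 2230) (.e (nat_lit 516146) (nat_lit 9) (.e (nat_lit 426438) (nat_lit 18) (.e (nat_lit 98367) (nat_lit 27) (.e (nat_lit 434247) (nat_lit 28) (.e (nat_lit 573485) (nat_lit 13) (.e (nat_lit 73472) (nat_lit 15) (.e (nat_lit 3214) (nat_lit 195) .nil))))))) (.g (nat_lit 1) (.e (nat_lit 407504) (nat_lit 0) .nil) .nil)))))))) 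
(.nd (nat_lit 5) (.nd (nat_lit 6) (.nd (nat_lit 7) (.nd (nat_lit 8) (.nd (nat_lit 9) 
(.lf (nat_lit 593950) (.g (nat_lit 3238) (.e (nat_lit 516117) (nat_lit 1) (.e (nat_lit 164332) (nat_lit 230) (.e (nat_lit 163905) (nat_lit 12) (.e (nat_lit 426566) (nat_lit 34) (.e (nat_lit 393293) (nat_lit 26) (.e (nat_lit 475179) (nat_lit 24) .nil)))))) (.g (nat_lit 1) (.e (nat_lit 405932) (nat_lit 0) .nil) .nil))) 
(.lf (nat_lit 594462) (.g (nat_lit 1597) (.e (nat_lit 516129) (nat_lit 3) (.e (nat_lit 221215) (nat_lit 23) (.e (nat_lit 204861) (nat_lit 26) (.e (nat_lit 336002) (nat_lit 2) .nil)))) (.g (nat_lit 0) (.e (nat_lit 406865) (nat_lit 0) .nil) .nil)))) (.nd (nat_lit 9) 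
(.lf (nat_lit 594206) (.g (nat_lit 949) (.e (nat_lit 516120) (nat_lit 1) (.e (nat_lit 164330) (nat_lit 230) (.e (nat_lit 163941) (nat_lit 19) (.e (nat_lit 483341) (nat_lit 9) .nil)))) (.g (nat_lit 0) (.e (nat_lit 406504) (nat_lit 0) .nil) .nil))) 
(.lf (nat_lit 594718) (.g (nat_lit 1842) (.e (nat_lit 516139) (nat_lit 7) (.e (nat_lit 409646) (nat_lit 18) (.e (nat_lit 303119) (nat_lit 3) (.e (nat_lit 204878) (nat_lit 31) (.e (nat_lit 376853) (nat_lit 20) .nil))))) (.g (nat_lit 0) (.e (nat_lit 407251) (nat_lit 0) .nil) .nil))))) (.nd (nat_lit 8) (.nd (nat_lit 9) 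
(.lf (nat_lit 594078) (.g (nat_lit 3639) (.e (nat_lit 516119) (nat_lit 1) (.e (nat_lit 164324) (nat_lit 230) (.e (nat_lit 163902) (nat_lit 12) (.e (nat_lit 426566) (nat_lit 34) (.e (nat_lit 393294) (nat_lit 26) (.e (nat_lit 475177) (nat_lit 24) .nil)))))) (.g (nat_lit 1) (.e (nat_lit 406162) (nat_lit 0) .nil) .nil))) 
(.lf (nat_lit 594590) (.g (nat_lit 2522) (.e (nat_lit 516138) (nat_lit 7) (.e (nat_lit 409646) (nat_lit 18) (.e (nat_lit 303116) (nat_lit 2) (.e (nat_lit 196662) (nat_lit 13) .nil)))) (.g (nat_lit 0) (.e (nat_lit 407091) (nat_lit 0) .nil) .nil)))) (.nd (nat_lit 9) 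
(.lf (nat_lit 594334) (.g (nat_lit 2239) (.e (nat_lit 516126) (nat_lit 2) (.e (nat_lit 213032) (nat_lit 11) (.e (nat_lit 24602) (nat_lit 2) (.e (nat_lit 90185) (nat_lit 17) (.e (nat_lit 237616) (nat_lit 12) (.e (nat_lit 475177) (nat_lit 24) .nil)))))) (.g (nat_lit 1) (.e (nat_lit 406695) (nat_lit 0) .nil) .nil))) 
(.lf (nat_lit 594846) (.g (nat_lit 3496) (.e (nat_lit 516139) (nat_lit 7) (.e (nat_lit 409649) (nat_lit 18) (.e (nat_lit 303118) (nat_lit 3) (.e (nat_lit 204855) (nat_lit 26) (.e (nat_lit 336169) (nat_lit 10) (.e (nat_lit 344119) (nat_lit 21) .nil)))))) (.g (nat_lit 1) (.e (nat_lit 407394) (nat_lit 0) .nil) .nil)))))) (.nd (nat_lit 7) (.nd (nat_lit 8) (.nd (nat_lit 9) 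
(.lf (nat_lit 594014) (.g (nat_lit 1645) (.e (nat_lit 516118) (nat_lit 1) (.e (nat_lit 164332) (nat_lit 230) (.e (nat_lit 163902) (nat_lit 12) (.e (nat_lit 426479) (nat_lit 27) .nil)))) (.g (nat_lit 0) (.e (nat_lit 406062) (nat_lit 0) .nil) .nil))) 
(.lf (nat_lit 594526) (.g (nat_lit 4096) (.e (nat_lit 516131) (nat_lit 3) (.e (nat_lit 221215) (nat_lit 23) (.e (nat_lit 204829) (nat_lit 18) (.e (nat_lit 57927) (nat_lit 282) (.e (nat_lit 163868) (nat_lit 2) (.e (nat_lit 196668) (nat_lit 14) (.e (nat_lit 73746) (nat_lit 3) .nil))))))) (.g (nat_lit 1) (.e (nat_lit 406960) (nat_lit 0) .nil) .nil)))) (.nd (nat_lit 9) 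
(.lf (nat_lit 594270) (.g (nat_lit 1427) (.e (nat_lit 516122) (nat_lit 2) (.e (nat_lit 213032) (nat_lit 11) (.e (nat_lit 24608) (nat_lit 3) (.e (nat_lit 98370) (nat_lit 28) .nil)))) (.g (nat_lit 0) (.e (nat_lit 406603) (nat_lit 0) .nil) .nil))) 
(.lf (nat_lit 594782) (.g (nat_lit 357) (.e (nat_lit 516139) (nat_lit 7) (.e (nat_lit 409648) (nat_lit 18) (.e (nat_lit 303118) (nat_lit 3) .nil))) (.g (nat_lit 0) (.e (nat_lit 407318) (nat_lit 0) .nil) .nil))))) (.nd (nat_lit 8) (.nd (nat_lit 9) 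
(.lf (nat_lit 594142) (.g (nat_lit 1619) (.e (nat_lit 516119) (nat_lit 1) (.e (nat_lit 164330) (nat_lit 230) (.e (nat_lit 163941) (nat_lit 19) (.e (nat_lit 483341) (nat_lit 9) .nil)))) (.g (nat_lit 0) (.e (nat_lit 406289) (nat_lit 0) .nil) .nil))) 
(.lf (nat_lit 594654) (.g (nat_lit 2197) (.e (nat_lit 516139) (nat_lit 7) (.e (nat_lit 409644) (nat_lit 18) (.e (nat_lit 303119) (nat_lit 3) (.e (nat_lit 204859) (nat_lit 26) (.e (nat_lit 336118) (nat_lit 9) .nil))))) (.g (nat_lit 0) (.e (nat_lit 407177) (nat_lit 0) .nil) .nil)))) (.nd (nat_lit 9) 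
(.lf (nat_lit 594398) (.g (nat_lit 1862) (.e (nat_lit 516127) (nat_lit 2) (.e (nat_lit 213032) (nat_lit 11) (.e (nat_lit 24608) (nat_lit 3) (.e (nat_lit 98365) (nat_lit 26) (.e (nat_lit 426307) (nat_lit 12) .nil))))) (.g (nat_lit 0) (.e (nat_lit 406773) (nat_lit 0) .nil) .nil))) 
(.lf (nat_lit 594910) (.g (nat_lit 2064) (.e (nat_lit 516145) (nat_lit 9) (.e (nat_lit 426438) (nat_lit 18) (.e (nat_lit 98368) (nat_lit 27) (.e (nat_lit 434245) (nat_lit 28) (.e (nat_lit 573481) (nat_lit 13) (.e (nat_lit 65637) (nat_lit 15) (.e (nat_lit 7936) (nat_lit 195) .nil))))))) (.g (nat_lit 1) (.e (nat_lit 407487) (nat_lit 0) .nil) .nil))))))) 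
(.nd (nat_lit 6) (.nd (nat_lit 7) (.nd (nat_lit 8) (.nd (nat_lit 9) 
(.lf (nat_lit 593982) (.g (nat_lit 2359) (.e (nat_lit 516118) (nat_lit 1) (.e (nat_lit 164183) (nat_lit 154) (.e (nat_lit 57373) (nat_lit 2) (.e (nat_lit 90128) (nat_lit 9) (.e (nat_lit 2706) (nat_lit 170) (.e (nat_lit 221214) (nat_lit 23) (.e (nat_lit 204863) (nat_lit 27) (.e (nat_lit 344120) (nat_lit 21) .nil)))))))) (.g (nat_lit 1) (.e (nat_lit 405994) (nat_lit 0) .nil) .nil))) 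
(.lf (nat_lit 594494) (.g (nat_lit 3228) (.e (nat_lit 516131) (nat_lit 3) (.e (nat_lit 221190) (nat_lit 11) (.e (nat_lit 336011) (nat_lit 2) (.e (nat_lit 90170) (nat_lit 13) (.e (nat_lit 172120) (nat_lit 12) (.e (nat_lit 475177) (nat_lit 24) .nil)))))) (.g (nat_lit 1) (.e (nat_lit 406903) (nat_lit 0) .nil) .nil)))) (.nd (nat_lit 9) 
(.lf (nat_lit 594238) (.g (nat_lit 1775) (.e (nat_lit 516120) (nat_lit 1) (.e (nat_lit 164332) (nat_lit 230) (.e (nat_lit 163905) (nat_lit 12) (.e (nat_lit 426480) (nat_lit 27) .nil)))) (.g (nat_lit 0) (.e (nat_lit 406554) (nat_lit 0) .nil) .nil))) 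
(.lf (nat_lit 594750) (.g (nat_lit 1670) (.e (nat_lit 516139) (nat_lit 7) (.e (nat_lit 409648) (nat_lit 18) (.e (nat_lit 303116) (nat_lit 2) (.e (nat_lit 196665) (nat_lit 13) .nil)))) (.g (nat_lit 0) (.e (nat_lit 407286) (nat_lit 0) .nil) .nil))))) (.nd (nat_lit 8) (.nd (nat_lit 9) 
(.lf (nat_lit 594110) (.g (nat_lit 3355) (.e (nat_lit 516119) (nat_lit 1) (.e (nat_lit 164325) (nat_lit 230) (.e (nat_lit 163907) (nat_lit 12) (.e (nat_lit 426566) (nat_lit 34) (.e (nat_lit 393296) (nat_lit 26) (.e (nat_lit 475177) (nat_lit 24) .nil)))))) (.g (nat_lit 1) (.e (nat_lit 406216) (nat_lit 0) .nil) .nil))) 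
(.lf (nat_lit 594622) (.g (nat_lit 785) (.e (nat_lit 516139) (nat_lit 7) (.e (nat_lit 409616) (nat_lit 10) (.e (nat_lit 5665) (nat_lit 312) .nil))) (.g (nat_lit 0) (.e (nat_lit 407138) (nat_lit 0) .nil) .nil)))) (.nd (nat_lit 9) 
(.lf (nat_lit 594366) (.g (nat_lit 1461) (.e (nat_lit 516126) (nat_lit 2) (.e (nat_lit 213032) (nat_lit 11) (.e (nat_lit 24609) (nat_lit 3) (.e (nat_lit 98380) (nat_lit 31) (.e (nat_lit 466945) (nat_lit 0) (.e (nat_lit 1782) (nat_lit 119) .nil)))))) (.g (nat_lit 1) (.e (nat_lit 406729) (nat_lit 0) .nil) .nil))) 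
(.lf (nat_lit 594878) (.g (nat_lit 2415) (.e (nat_lit 516142) (nat_lit 8) (.e (nat_lit 417811) (nat_lit 6) (.e (nat_lit 286733) (nat_lit 2) (.e (nat_lit 90128) (nat_lit 9) (.e (nat_lit 3031) (nat_lit 188) .nil))))) (.g (nat_lit 0) (.e (nat_lit 407447) (nat_lit 0) .nil) .nil)))))) (.nd (nat_lit 7) (.nd (nat_lit 8) (.nd (nat_lit 9) 
(.lf (nat_lit 594046) (.g (nat_lit 2377) (.e (nat_lit 516118) (nat_lit 1) (.e (nat_lit 164332) (nat_lit 230) (.e (nat_lit 163905) (nat_lit 12) (.e (nat_lit 426515) (nat_lit 27) .nil)))) (.g (nat_lit 0) (.e (nat_lit 406097) (nat_lit 0) .nil) .nil))) 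
(.lf (nat_lit 594558) (.g (nat_lit 3676) (.e (nat_lit 516138) (nat_lit 7) (.e (nat_lit 409644) (nat_lit 18) (.e (nat_lit 303119) (nat_lit 3) (.e (nat_lit 204861) (nat_lit 26) (.e (nat_lit 336186) (nat_lit 11) (.e (nat_lit 368676) (nat_lit 21) .nil)))))) (.g (nat_lit 1) (.e (nat_lit 407040) (nat_lit 0) .nil) .nil)))) (.nd (nat_lit 9) 
(.lf (nat_lit 594302) (.g (nat_lit 2839) (.e (nat_lit 516124) (nat_lit 2) (.e (nat_lit 213032) (nat_lit 11) (.e (nat_lit 24608) (nat_lit 3) (.e (nat_lit 98380) (nat_lit 31) (.e (nat_lit 466947) (nat_lit 0) (.e (nat_lit 1800) (nat_lit 119) .nil)))))) (.g (nat_lit 1) (.e (nat_lit 406644) (nat_lit 0) .nil) .nil))) 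
(.lf (nat_lit 594814) (.g (nat_lit 3244) (.e (nat_lit 516139) (nat_lit 7) (.e (nat_lit 409649) (nat_lit 18) (.e (nat_lit 303116) (nat_lit 2) (.e (nat_lit 196666) (nat_lit 13) (.e (nat_lit 65610) (nat_lit 10) (.e (nat_lit 344116) (nat_lit 21) .nil)))))) (.g (nat_lit 1) (.e (nat_lit 407361) (nat_lit 0) .nil) .nil))))) (.nd (nat_lit 8) (.nd (nat_lit 9) 
(.lf (nat_lit 594174) (.g (nat_lit 2364) (.e (nat_lit 516120) (nat_lit 1) (.e (nat_lit 164329) (nat_lit 230) (.e (nat_lit 163941) (nat_lit 19) (.e (nat_lit 483341) (nat_lit 9) (.e (nat_lit 426199) (nat_lit 9) .nil))))) (.g (nat_lit 0) (.e (nat_lit 406418) (nat_lit 0) .nil) .nil))) 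
(.lf (nat_lit 594686) (.g (nat_lit 1715) (.e (nat_lit 516139) (nat_lit 7) (.e (nat_lit 409645) (nat_lit 18) (.e (nat_lit 303119) (nat_lit 3) (.e (nat_lit 204878) (nat_lit 31) (.e (nat_lit 376850) (nat_lit 20) .nil))))) (.g (nat_lit 0) (.e (nat_lit 407213) (nat_lit 0) .nil) .nil)))) (.nd (nat_lit 9) 
(.lf (nat_lit 594430) (.g (nat_lit 2864) (.e (nat_lit 516129) (nat_lit 3) (.e (nat_lit 221210) (nat_lit 22) (.e (nat_lit 196666) (nat_lit 13) (.e (nat_lit 65571) (nat_lit 3) (.e (nat_lit 98319) (nat_lit 17) (.e (nat_lit 3460) (nat_lit 216) (.e (nat_lit 688171) (nat_lit 15) (.e (nat_lit 57465) (nat_lit 23) .nil)))))))) (.g (nat_lit 1) (.e (nat_lit 406832) (nat_lit 0) .nil) .nil))) 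
(.lf (nat_lit 594942) (.g (nat_lit 3371) (.e (nat_lit 516147) (nat_lit 9) (.e (nat_lit 426436) (nat_lit 18) (.e (nat_lit 98386) (nat_lit 32) (.e (nat_lit 475177) (nat_lit 24) (.e (nat_lit 516179) (nat_lit 15) (.e (nat_lit 475177) (nat_lit 24) .nil)))))) (.g (nat_lit 1) (.e (nat_lit 407522) (nat_lit 0) .nil) .nil)))))))))))) 
(.nd (nat_lit 1) (.nd (nat_lit 2) (.nd (nat_lit 3) (.nd (nat_lit 4) (.nd (nat_lit 5) 
(.nd (nat_lit 6) (.nd (nat_lit 7) (.nd (nat_lit 8) (.nd (nat_lit 9) 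
(.lf (nat_lit 593921) (.g (nat_lit 2857) (.e (nat_lit 516117) (nat_lit 1) (.e (nat_lit 164330) (nat_lit 230) (.e (nat_lit 163902) (nat_lit 12) (.e (nat_lit 426568) (nat_lit 34) (.e (nat_lit 393292) (nat_lit 26) .nil))))) (.g (nat_lit 0) (.e (nat_lit 405868) (nat_lit 0) .nil) .nil))) 
(.lf (nat_lit 594433) (.g (nat_lit 2549) (.e (nat_lit 516129) (nat_lit 3) (.e (nat_lit 221210) (nat_lit 22) (.e (nat_lit 196666) (nat_lit 13) (.e (nat_lit 65571) (nat_lit 3) (.e (nat_lit 98321) (nat_lit 17) (.e (nat_lit 7936) (nat_lit 216) (.e (nat_lit 688168) (nat_lit 15) (.e (nat_lit 57465) (nat_lit 23) .nil)))))))) (.g (nat_lit 1) (.e (nat_lit 406835) (nat_lit 0) .nil) .nil)))) 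
(.nd (nat_lit 9) 
(.lf (nat_lit 594177) (.g (nat_lit 2592) (.e (nat_lit 516120) (nat_lit 1) (.e (nat_lit 164329) (nat_lit 230) (.e (nat_lit 163941) (nat_lit 19) (.e (nat_lit 483341) (nat_lit 9) (.e (nat_lit 426307) (nat_lit 12) .nil))))) (.g (nat_lit 0) (.e (nat_lit 406422) (nat_lit 0) .nil) .nil))) 
(.lf (nat_lit 594689) (.g (nat_lit 1467) (.e (nat_lit 516139) (nat_lit 7) (.e (nat_lit 409646) (nat_lit 18) (.e (nat_lit 303117) (nat_lit 2) (.e (nat_lit 196661) (nat_lit 12) .nil)))) (.g (nat_lit 0) (.e (nat_lit 407216) (nat_lit 0) .nil) .nil))))) (.nd (nat_lit 8) (.nd (nat_lit 9) 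
(.lf (nat_lit 594049) (.g (nat_lit 3226) (.e (nat_lit 516118) (nat_lit 1) (.e (nat_lit 164332) (nat_lit 230) (.e (nat_lit 163905) (nat_lit 12) (.e (nat_lit 426568) (nat_lit 34) (.e (nat_lit 393291) (nat_lit 26) (.e (nat_lit 475177) (nat_lit 24) .nil)))))) (.g (nat_lit 1) (.e (nat_lit 406100) (nat_lit 0) .nil) .nil))) 
(.lf (nat_lit 594561) (.g (nat_lit 802) (.e (nat_lit 516138) (nat_lit 7) (.e (nat_lit 409645) (nat_lit 18) (.e (nat_lit 303112) (nat_lit 0) .nil))) (.g (nat_lit 0) (.e (nat_lit 407043) (nat_lit 0) .nil) .nil)))) (.nd (nat_lit 9) 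
(.lf (nat_lit 594305) (.g (nat_lit 2915) (.e (nat_lit 516124) (nat_lit 2) (.e (nat_lit 213032) (nat_lit 11) (.e (nat_lit 24608) (nat_lit 3) (.e (nat_lit 98381) (nat_lit 31) (.e (nat_lit 466947) (nat_lit 0) (.e (nat_lit 1800) (nat_lit 119) .nil)))))) (.g (nat_lit 1) (.e (nat_lit 406647) (nat_lit 0) .nil) .nil))) 
(.lf (nat_lit 594817) (.g (nat_lit 1907) (.e (nat_lit 516139) (nat_lit 7) (.e (nat_lit 409649) (nat_lit 18) (.e (nat_lit 303117) (nat_lit 2) (.e (nat_lit 196665) (nat_lit 13) (.e (nat_lit 65594) (nat_lit 9) .nil))))) (.g (nat_lit 0) (.e (nat_lit 407365) (nat_lit 0) .nil) .nil)))))) (.nd (nat_lit 7) (.nd (nat_lit 8) (.nd (nat_lit 9) 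
(.lf (nat_lit 593985) (.g (nat_lit 452) (.e (nat_lit 516118) (nat_lit 1) (.e (nat_lit 164183) (nat_lit 154) (.e (nat_lit 57410) (nat_lit 12) .nil))) (.g (nat_lit 0) (.e (nat_lit 406001) (nat_lit 0) .nil) .nil))) 
(.lf (nat_lit 594497) (.g (nat_lit 2874) (.e (nat_lit 516131) (nat_lit 3) (.e (nat_lit 221211) (nat_lit 22) (.e (nat_lit 196666) (nat_lit 13) (.e (nat_lit 65566) (nat_lit 2) (.e (nat_lit 98048) (nat_lit 2) (.e (nat_lit 16388) (nat_lit 0) (.e (nat_lit 3212) (nat_lit 195) .nil))))))) (.g (nat_lit 1) (.e (nat_lit 406927) (nat_lit 0) .nil) .nil)))) (.nd (nat_lit 9) 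
(.lf (nat_lit 594241) (.g (nat_lit 1754) (.e (nat_lit 516120) (nat_lit 1) (.e (nat_lit 164332) (nat_lit 230) (.e (nat_lit 163905) (nat_lit 12) (.e (nat_lit 426489) (nat_lit 27) .nil)))) (.g (nat_lit 0) (.e (nat_lit 406560) (nat_lit 0) .nil) .nil))) 
(.lf (nat_lit 594753) (.g (nat_lit 4074) (.e (nat_lit 516139) (nat_lit 7) (.e (nat_lit 409648) (nat_lit 18) (.e (nat_lit 303116) (nat_lit 2) (.e (nat_lit 196666) (nat_lit 13) (.e (nat_lit 65610) (nat_lit 10) (.e (nat_lit 344116) (nat_lit 21) .nil)))))) (.g (nat_lit 1) (.e (nat_lit 407289) (nat_lit 0) .nil) .nil))))) (.nd (nat_lit 8) (.nd (nat_lit 9) 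
(.lf (nat_lit 594113) (.g (nat_lit 359) (.e (nat_lit 516119) (nat_lit 1) (.e (nat_lit 164325) (nat_lit 230) (.e (nat_lit 163942) (nat_lit 19) .nil))) (.g (nat_lit 0) (.e (nat_lit 406231) (nat_lit 0) .nil) .nil))) 
(.lf (nat_lit 594625) (.g (nat_lit 353) (.e (nat_lit 516139) (nat_lit 7) (.e (nat_lit 409623) (nat_lit 10) (.e (nat_lit 5642) (nat_lit 312) .nil))) (.g (nat_lit 0) (.e (nat_lit 407145) (nat_lit 0) .nil) .nil)))) (.nd (nat_lit 9) 
(.lf (nat_lit 594369) (.g (nat_lit 1844) (.e (nat_lit 516127) (nat_lit 2) (.e (nat_lit 213030) (nat_lit 11) (.e (nat_lit 24602) (nat_lit 2) (.e (nat_lit 90185) (nat_lit 17) (.e (nat_lit 237616) (nat_lit 12) (.e (nat_lit 475179) (nat_lit 24) .nil)))))) (.g (nat_lit 1) (.e (nat_lit 406740) (nat_lit 0) .nil) .nil))) 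
(.lf (nat_lit 594881) (.g (nat_lit 3033) (.e (nat_lit 516142) (nat_lit 8) (.e (nat_lit 417828) (nat_lit 18) (.e (nat_lit 303119) (nat_lit 3) (.e (nat_lit 204868) (nat_lit 29) (.e (nat_lit 360467) (nat_lit 3) .nil))))) (.g (nat_lit 1) (.e (nat_lit 407452) (nat_lit 0) .nil) .nil))))))) (.nd (nat_lit 6) (.nd (nat_lit 7) (.nd (nat_lit 8) (.nd (nat_lit 9) 
(.lf (nat_lit 593953) (.g (nat_lit 1394) (.e (nat_lit 516117) (nat_lit 1) (.e (nat_lit 164332) (nat_lit 230) (.e (nat_lit 163941) (nat_lit 19) (.e (nat_lit 483336) (nat_lit 9) .nil)))) (.g (nat_lit 0) (.e (nat_lit 405935) (nat_lit 0) .nil) .nil))) 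
(.lf (nat_lit 594465) (.g (nat_lit 1761) (.e (nat_lit 516130) (nat_lit 3) (.e (nat_lit 221211) (nat_lit 22) (.e (nat_lit 196666) (nat_lit 13) (.e (nat_lit 65566) (nat_lit 2) .nil)))) (.g (nat_lit 0) (.e (nat_lit 406869) (nat_lit 0) .nil) .nil)))) (.nd (nat_lit 9) 
(.lf (nat_lit 594209) (.g (nat_lit 2182) (.e (nat_lit 516120) (nat_lit 1) (.e (nat_lit 164330) (nat_lit 230) (.e (nat_lit 163941) (nat_lit 19) (.e (nat_lit 483341) (nat_lit 9) (.e (nat_lit 426197) (nat_lit 9) (.e (nat_lit 426375) (nat_lit 15) (.e (nat_lit 1800) (nat_lit 119) .nil))))))) (.g (nat_lit 1) (.e (nat_lit 406507) (nat_lit 0) .nil) .nil))) 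
(.lf (nat_lit 594721) (.g (nat_lit 1228) (.e (nat_lit 516139) (nat_lit 7) (.e (nat_lit 409647) (nat_lit 18) (.e (nat_lit 303117) (nat_lit 2) (.e (nat_lit 196674) (nat_lit 15) .nil)))) (.g (nat_lit 0) (.e (nat_lit 407254) (nat_lit 0) .nil) .nil))))) (.nd (nat_lit 8) (.nd (nat_lit 9) 
(.lf (nat_lit 594081) (.g (nat_lit 2222) (.e (nat_lit 516119) (nat_lit 1) (.e (nat_lit 164324) (nat_lit 230) (.e (nat_lit 163903) (nat_lit 12) (.e (nat_lit 426568) (nat_lit 34) (.e (nat_lit 393292) (nat_lit 26) (.e (nat_lit 475177) (nat_lit 24) .nil)))))) (.g (nat_lit 1) (.e (nat_lit 406165) (nat_lit 0) .nil) .nil))) 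
(.lf (nat_lit 594593) (.g (nat_lit 4794) (.e (nat_lit 516138) (nat_lit 7) (.e (nat_lit 409646) (nat_lit 18) (.e (nat_lit 303117) (nat_lit 2) (.e (nat_lit 196666) (nat_lit 13) (.e (nat_lit 65610) (nat_lit 10) (.e (nat_lit 344117) (nat_lit 21) .nil)))))) (.g (nat_lit 1) (.e (nat_lit 407095) (nat_lit 0) .nil) .nil)))) (.nd (nat_lit 9) 
(.lf (nat_lit 594337) (.g (nat_lit 1083) (.e (nat_lit 516126) (nat_lit 2) (.e (nat_lit 213032) (nat_lit 11) (.e (nat_lit 24604) (nat_lit 2) (.e (nat_lit 90176) (nat_lit 15) .nil)))) (.g (nat_lit 0) (.e (nat_lit 406698) (nat_lit 0) .nil) .nil))) 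
(.lf (nat_lit 594849) (.g (nat_lit 2033) (.e (nat_lit 516139) (nat_lit 7) (.e (nat_lit 409649) (nat_lit 18) (.e (nat_lit 303118) (nat_lit 3) (.e (nat_lit 204865) (nat_lit 28) (.e (nat_lit 352305) (nat_lit 20) .nil))))) (.g (nat_lit 0) (.e (nat_lit 407399) (nat_lit 0) .nil) .nil)))))) (.nd (nat_lit 7) (.nd (nat_lit 8) (.nd (nat_lit 9) 
(.lf (nat_lit 594017) (.g (nat_lit 2146) (.e (nat_lit 516118) (nat_lit 1) (.e (nat_lit 164332) (nat_lit 230) (.e (nat_lit 163902) (nat_lit 12) (.e (nat_lit 426530) (nat_lit 27) .nil)))) (.g (nat_lit 0) (.e (nat_lit 406066) (nat_lit 0) .nil) .nil))) 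
(.lf (nat_lit 594529) (.g (nat_lit 2583) (.e (nat_lit 516131) (nat_lit 3) (.e (nat_lit 221215) (nat_lit 23) (.e (nat_lit 204829) (nat_lit 18) (.e (nat_lit 57931) (nat_lit 282) (.e (nat_lit 163866) (nat_lit 2) (.e (nat_lit 196670) (nat_lit 14) (.e (nat_lit 73746) (nat_lit 3) .nil))))))) (.g (nat_lit 1) (.e (nat_lit 406963) (nat_lit 0) .nil) .nil)))) (.nd (nat_lit 9) 
(.lf (nat_lit 594273) (.g (nat_lit 1533) (.e (nat_lit 516122) (nat_lit 2) (.e (nat_lit 213032) (nat_lit 11) (.e (nat_lit 24608) (nat_lit 3) (.e (nat_lit 98380) (nat_lit 31) (.e (nat_lit 474880) (nat_lit 0) .nil))))) (.g (nat_lit 0) (.e (nat_lit 406606) (nat_lit 0) .nil) .nil))) 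
(.lf (nat_lit 594785) (.g (nat_lit 2464) (.e (nat_lit 516139) (nat_lit 7) (.e (nat_lit 409648) (nat_lit 18) (.e (nat_lit 303118) (nat_lit 3) (.e (nat_lit 204855) (nat_lit 26) (.e (nat_lit 336102) (nat_lit 9) .nil))))) (.g (nat_lit 0) (.e (nat_lit 407321) (nat_lit 0) .nil) .nil))))) (.nd (nat_lit 8) (.nd (nat_lit 9) 
(.lf (nat_lit 594145) (.g (nat_lit 1913) (.e (nat_lit 516119) (nat_lit 1) (.e (nat_lit 164332) (nat_lit 230) (.e (nat_lit 163905) (nat_lit 12) (.e (nat_lit 426530) (nat_lit 27) .nil)))) (.g (nat_lit 0) (.e (nat_lit 406297) (nat_lit 0) .nil) .nil))) 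
(.lf (nat_lit 594657) (.g (nat_lit 3127) (.e (nat_lit 516139) (nat_lit 7) (.e (nat_lit 409644) (nat_lit 18) (.e (nat_lit 303119) (nat_lit 3) (.e (nat_lit 204863) (nat_lit 27) (.e (nat_lit 352000) (nat_lit 11) (.e (nat_lit 57464) (nat_lit 23) .nil)))))) (.g (nat_lit 1) (.e (nat_lit 407180) (nat_lit 0) .nil) .nil)))) (.nd (nat_lit 9) 
(.lf (nat_lit 594401) (.g (nat_lit 351) (.e (nat_lit 516127) (nat_lit 2) (.e (nat_lit 213032) (nat_lit 11) (.e (nat_lit 24609) (nat_lit 3) .nil))) (.g (nat_lit 0) (.e (nat_lit 406776) (nat_lit 0) .nil) .nil))) 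
(.lf (nat_lit 594913) (.g (nat_lit 1897) (.e (nat_lit 516145) (nat_lit 9) (.e (nat_lit 426438) (nat_lit 18) (.e (nat_lit 98368) (nat_lit 27) (.e (nat_lit 434247) (nat_lit 28) (.e (nat_lit 573485) (nat_lit 13) (.e (nat_lit 65638) (nat_lit 15) (.e (nat_lit 7936) (nat_lit 195) .nil))))))) (.g (nat_lit 1) (.e (nat_lit 407490) (nat_lit 0) .nil) .nil)))))))) 
(.nd (nat_lit 5) (.nd (nat_lit 6) (.nd (nat_lit 7) (.nd (nat_lit 8) (.nd (nat_lit 9) 
(.lf (nat_lit 593937) (.g (nat_lit 1362) (.e (nat_lit 516117) (nat_lit 1) (.e (nat_lit 164332) (nat_lit 230) (.e (nat_lit 163902) (nat_lit 12) (.e (nat_lit 426489) (nat_lit 27) .nil)))) (.g (nat_lit 0) (.e (nat_lit 405916) (nat_lit 0) .nil) .nil))) 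
(.lf (nat_lit 594449) (.g (nat_lit 2507) (.e (nat_lit 516129) (nat_lit 3) (.e (nat_lit 221210) (nat_lit 22) (.e (nat_lit 196670) (nat_lit 14) (.e (nat_lit 73746) (nat_lit 3) (.e (nat_lit 516104) (nat_lit 0) (.e (nat_lit 7936) (nat_lit 216) (.e (nat_lit 688171) (nat_lit 15) (.e (nat_lit 57465) (nat_lit 23) .nil)))))))) (.g (nat_lit 1) (.e (nat_lit 406851) (nat_lit 0) .nil) .nil)))) 
(.nd (nat_lit 9) 
(.lf (nat_lit 594193) (.g (nat_lit 365) (.e (nat_lit 516120) (nat_lit 1) (.e (nat_lit 164330) (nat_lit 230) (.e (nat_lit 163905) (nat_lit 12) .nil))) (.g (nat_lit 0) (.e (nat_lit 406447) (nat_lit 0) .nil) .nil))) 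
(.lf (nat_lit 594705) (.g (nat_lit 3953) (.e (nat_lit 516139) (nat_lit 7) (.e (nat_lit 409646) (nat_lit 18) (.e (nat_lit 303117) (nat_lit 2) (.e (nat_lit 196674) (nat_lit 15) (.e (nat_lit 81947) (nat_lit 20) (.e (nat_lit 1799) (nat_lit 119) .nil)))))) (.g (nat_lit 1) (.e (nat_lit 407234) (nat_lit 0) .nil) .nil))))) (.nd (nat_lit 8) (.nd (nat_lit 9) 
(.lf (nat_lit 594065) (.g (nat_lit 946) (.e (nat_lit 516119) (nat_lit 1) (.e (nat_lit 164179) (nat_lit 154) (.e (nat_lit 57406) (nat_lit 12) (.e (nat_lit 336456) (nat_lit 34) .nil)))) (.g (nat_lit 0) (.e (nat_lit 406140) (nat_lit 0) .nil) .nil))) 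
(.lf (nat_lit 594577) (.g (nat_lit 4303) (.e (nat_lit 516138) (nat_lit 7) (.e (nat_lit 409645) (nat_lit 18) (.e (nat_lit 303118) (nat_lit 3) (.e (nat_lit 204868) (nat_lit 29) (.e (nat_lit 360466) (nat_lit 3) .nil))))) (.g (nat_lit 1) (.e (nat_lit 407066) (nat_lit 0) .nil) .nil)))) (.nd (nat_lit 9) 
(.lf (nat_lit 594321) (.g (nat_lit 1940) (.e (nat_lit 516126) (nat_lit 2) (.e (nat_lit 213030) (nat_lit 11) (.e (nat_lit 24602) (nat_lit 2) (.e (nat_lit 90185) (nat_lit 17) (.e (nat_lit 237616) (nat_lit 12) (.e (nat_lit 475177) (nat_lit 24) .nil)))))) (.g (nat_lit 1) (.e (nat_lit 406682) (nat_lit 0) .nil) .nil))) 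
(.lf (nat_lit 594833) (.g (nat_lit 1552) (.e (nat_lit 516139) (nat_lit 7) (.e (nat_lit 409649) (nat_lit 18) (.e (nat_lit 303117) (nat_lit 2) (.e (nat_lit 196673) (nat_lit 15) .nil)))) (.g (nat_lit 0) (.e (nat_lit 407381) (nat_lit 0) .nil) .nil)))))) (.nd (nat_lit 7) (.nd (nat_lit 8) (.nd (nat_lit 9) 
(.lf (nat_lit 594001) (.g (nat_lit 2035) (.e (nat_lit 516118) (nat_lit 1) (.e (nat_lit 164327) (nat_lit 230) (.e (nat_lit 163875) (nat_lit 3) (.e (nat_lit 204837) (nat_lit 20) .nil)))) (.g (nat_lit 0) (.e (nat_lit 406036) (nat_lit 0) .nil) .nil))) 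
(.lf (nat_lit 594513) (.g (nat_lit 2964) (.e (nat_lit 516131) (nat_lit 3) (.e (nat_lit 221214) (nat_lit 23) (.e (nat_lit 204830) (nat_lit 18) (.e (nat_lit 57929) (nat_lit 282) (.e (nat_lit 163867) (nat_lit 2) (.e (nat_lit 196668) (nat_lit 14) (.e (nat_lit 73747) (nat_lit 3) .nil))))))) (.g (nat_lit 1) (.e (nat_lit 406944) (nat_lit 0) .nil) .nil)))) (.nd (nat_lit 9) 
(.lf (nat_lit 594257) (.g (nat_lit 3597) (.e (nat_lit 516120) (nat_lit 1) (.e (nat_lit 164332) (nat_lit 230) (.e (nat_lit 163941) (nat_lit 19) (.e (nat_lit 483341) (nat_lit 9) (.e (nat_lit 426307) (nat_lit 12) (.e (nat_lit 475179) (nat_lit 24) .nil)))))) (.g (nat_lit 1) (.e (nat_lit 406579) (nat_lit 0) .nil) .nil))) 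
(.lf (nat_lit 594769) (.g (nat_lit 3678) (.e (nat_lit 516139) (nat_lit 7) (.e (nat_lit 409648) (nat_lit 18) (.e (nat_lit 303117) (nat_lit 2) (.e (nat_lit 196666) (nat_lit 13) (.e (nat_lit 65592) (nat_lit 9) (.e (nat_lit 335922) (nat_lit 0) (.e (nat_lit 1788) (nat_lit 119) .nil))))))) (.g (nat_lit 1) (.e (nat_lit 407305) (nat_lit 0) .nil) .nil))))) (.nd (nat_lit 8) (.nd (nat_lit 9) 
(.lf (nat_lit 594129) (.g (nat_lit 1652) (.e (nat_lit 516119) (nat_lit 1) (.e (nat_lit 164327) (nat_lit 230) (.e (nat_lit 163875) (nat_lit 3) (.e (nat_lit 204837) (nat_lit 20) .nil)))) (.g (nat_lit 0) (.e (nat_lit 406267) (nat_lit 0) .nil) .nil))) 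
(.lf (nat_lit 594641) (.g (nat_lit 1844) (.e (nat_lit 516139) (nat_lit 7) (.e (nat_lit 409644) (nat_lit 18) (.e (nat_lit 303117) (nat_lit 2) (.e (nat_lit 196661) (nat_lit 12) (.e (nat_lit 65280) (nat_lit 192) .nil))))) (.g (nat_lit 0) (.e (nat_lit 407163) (nat_lit 0) .nil) .nil)))) (.nd (nat_lit 9) 
(.lf (nat_lit 594385) (.g (nat_lit 1681) (.e (nat_lit 516127) (nat_lit 2) (.e (nat_lit 213032) (nat_lit 11) (.e (nat_lit 24604) (nat_lit 2) (.e (nat_lit 90176) (nat_lit 15) (.e (nat_lit 196352) (nat_lit 0) (.e (nat_lit 1786) (nat_lit 119) .nil)))))) (.g (nat_lit 1) (.e (nat_lit 406759) (nat_lit 0) .nil) .nil))) 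
(.lf (nat_lit 594897) (.g (nat_lit 3744) (.e (nat_lit 516145) (nat_lit 9) (.e (nat_lit 426428) (nat_lit 17) (.e (nat_lit 90174) (nat_lit 14) (.e (nat_lit 180250) (nat_lit 10) (.e (nat_lit 573484) (nat_lit 13) (.e (nat_lit 73472) (nat_lit 15) (.e (nat_lit 3209) (nat_lit 195) .nil))))))) (.g (nat_lit 1) (.e (nat_lit 407473) (nat_lit 0) .nil) .nil))))))) 
(.nd (nat_lit 6) (.nd (nat_lit 7) (.nd (nat_lit 8) (.nd (nat_lit 9) 
(.lf (nat_lit 593969) (.g (nat_lit 2035) (.e (nat_lit 516118) (nat_lit 1) (.e (nat_lit 164179) (nat_lit 154) (.e (nat_lit 57379) (nat_lit 3) (.e (nat_lit 98341) (nat_lit 20) (.e (nat_lit 221212) (nat_lit 22) .nil))))) (.g (nat_lit 0) (.e (nat_lit 405975) (nat_lit 0) .nil) .nil))) 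
(.lf (nat_lit 594481) (.g (nat_lit 2480) (.e (nat_lit 516130) (nat_lit 3) (.e (nat_lit 221214) (nat_lit 23) (.e (nat_lit 204829) (nat_lit 18) (.e (nat_lit 57926) (nat_lit 282) (.e (nat_lit 163868) (nat_lit 2) (.e (nat_lit 196668) (nat_lit 14) (.e (nat_lit 73747) (nat_lit 3) .nil))))))) (.g (nat_lit 1) (.e (nat_lit 406887) (nat_lit 0) .nil) .nil)))) (.nd (nat_lit 9) 
(.lf (nat_lit 594225) (.g (nat_lit 1884) (.e (nat_lit 516120) (nat_lit 1) (.e (nat_lit 164331) (nat_lit 230) (.e (nat_lit 163941) (nat_lit 19) (.e (nat_lit 483341) (nat_lit 9) (.e (nat_lit 426198) (nat_lit 9) .nil))))) (.g (nat_lit 0) (.e (nat_lit 406534) (nat_lit 0) .nil) .nil))) 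
(.lf (nat_lit 594737) (.g (nat_lit 2314) (.e (nat_lit 516139) (nat_lit 7) (.e (nat_lit 409647) (nat_lit 18) (.e (nat_lit 303119) (nat_lit 3) (.e (nat_lit 204863) (nat_lit 27) (.e (nat_lit 352000) (nat_lit 11) .nil))))) (.g (nat_lit 0) (.e (nat_lit 407273) (nat_lit 0) .nil) .nil))))) (.nd (nat_lit 8) (.nd (nat_lit 9) 
(.lf (nat_lit 594097) (.g (nat_lit 1612) (.e (nat_lit 516119) (nat_lit 1) (.e (nat_lit 164325) (nat_lit 230) (.e (nat_lit 163903) (nat_lit 12) (.e (nat_lit 426567) (nat_lit 34) .nil)))) (.g (nat_lit 0) (.e (nat_lit 406196) (nat_lit 0) .nil) .nil))) 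
(.lf (nat_lit 594609) (.g (nat_lit 1784) (.e (nat_lit 516138) (nat_lit 7) (.e (nat_lit 409646) (nat_lit 18) (.e (nat_lit 303119) (nat_lit 3) (.e (nat_lit 204870) (nat_lit 29) (.e (nat_lit 368384) (nat_lit 3) .nil))))) (.g (nat_lit 1) (.e (nat_lit 407117) (nat_lit 0) .nil) .nil)))) (.nd (nat_lit 9) 
(.lf (nat_lit 594353) (.g (nat_lit 2034) (.e (nat_lit 516126) (nat_lit 2) (.e (nat_lit 213032) (nat_lit 11) (.e (nat_lit 24607) (nat_lit 3) (.e (nat_lit 98363) (nat_lit 26) (.e (nat_lit 426318) (nat_lit 12) .nil))))) (.g (nat_lit 0) (.e (nat_lit 406715) (nat_lit 0) .nil) .nil))) 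
(.lf (nat_lit 594865) (.g (nat_lit 4256) (.e (nat_lit 516139) (nat_lit 7) (.e (nat_lit 409649) (nat_lit 18) (.e (nat_lit 303119) (nat_lit 3) (.e (nat_lit 204869) (nat_lit 29) (.e (nat_lit 360467) (nat_lit 3) .nil))))) (.g (nat_lit 1) (.e (nat_lit 407423) (nat_lit 0) .nil) .nil)))))) (.nd (nat_lit 7) (.nd (nat_lit 8) (.nd (nat_lit 9) 
(.lf (nat_lit 594033) (.g (nat_lit 3074) (.e (nat_lit 516118) (nat_lit 1) (.e (nat_lit 164332) (nat_lit 230) (.e (nat_lit 163905) (nat_lit 12) (.e (nat_lit 426489) (nat_lit 27) (.e (nat_lit 336405) (nat_lit 27) (.e (nat_lit 426306) (nat_lit 12) (.e (nat_lit 475177) (nat_lit 24) .nil))))))) (.g (nat_lit 1) (.e (nat_lit 406083) (nat_lit 0) .nil) .nil))) 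
(.lf (nat_lit 594545) (.g (nat_lit 2710) (.e (nat_lit 516131) (nat_lit 3) (.e (nat_lit 221215) (nat_lit 23) (.e (nat_lit 204850) (nat_lit 26) (.e (nat_lit 336013) (nat_lit 2) (.e (nat_lit 98048) (nat_lit 2) (.e (nat_lit 16388) (nat_lit 0) (.e (nat_lit 3212) (nat_lit 195) .nil))))))) (.g (nat_lit 1) (.e (nat_lit 406980) (nat_lit 0) .nil) .nil)))) (.nd (nat_lit 9) 
(.lf (nat_lit 594289) (.g (nat_lit 1888) (.e (nat_lit 516124) (nat_lit 2) (.e (nat_lit 213032) (nat_lit 11) (.e (nat_lit 24604) (nat_lit 2) (.e (nat_lit 90176) (nat_lit 15) (.e (nat_lit 196352) (nat_lit 0) .nil))))) (.g (nat_lit 0) (.e (nat_lit 406629) (nat_lit 0) .nil) .nil))) 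
(.lf (nat_lit 594801) (.g (nat_lit 2869) (.e (nat_lit 516139) (nat_lit 7) (.e (nat_lit 409648) (nat_lit 18) (.e (nat_lit 303119) (nat_lit 3) (.e (nat_lit 204868) (nat_lit 29) (.e (nat_lit 360465) (nat_lit 3) .nil))))) (.g (nat_lit 1) (.e (nat_lit 407346) (nat_lit 0) .nil) .nil))))) (.nd (nat_lit 8) (.nd (nat_lit 9) 
(.lf (nat_lit 594161) (.g (nat_lit 2452) (.e (nat_lit 516120) (nat_lit 1) (.e (nat_lit 164329) (nat_lit 230) (.e (nat_lit 163873) (nat_lit 3) (.e (nat_lit 204809) (nat_lit 9) (.e (nat_lit 426139) (nat_lit 3) (.e (nat_lit 204833) (nat_lit 19) (.e (nat_lit 106539) (nat_lit 12) (.e (nat_lit 57466) (nat_lit 23) .nil)))))))) (.g (nat_lit 1) (.e (nat_lit 406374) (nat_lit 0) .nil) .nil))) 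
(.lf (nat_lit 594673) (.g (nat_lit 2953) (.e (nat_lit 516139) (nat_lit 7) (.e (nat_lit 409645) (nat_lit 18) (.e (nat_lit 303117) (nat_lit 2) (.e (nat_lit 196674) (nat_lit 15) (.e (nat_lit 81946) (nat_lit 20) (.e (nat_lit 1801) (nat_lit 119) .nil)))))) (.g (nat_lit 1) (.e (nat_lit 407198) (nat_lit 0) .nil) .nil)))) (.nd (nat_lit 9) 
(.lf (nat_lit 594417) (.g (nat_lit 472) (.e (nat_lit 516129) (nat_lit 3) (.e (nat_lit 221210) (nat_lit 22) (.e (nat_lit 196660) (nat_lit 12) .nil))) (.g (nat_lit 0) (.e (nat_lit 406819) (nat_lit 0) .nil) .nil))) 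
(.lf (nat_lit 594929) (.g (nat_lit 3195) (.e (nat_lit 516146) (nat_lit 9) (.e (nat_lit 426438) (nat_lit 18) (.e (nat_lit 98367) (nat_lit 27) (.e (nat_lit 434248) (nat_lit 28) (.e (nat_lit 573482) (nat_lit 13) (.e (nat_lit 65631) (nat_lit 15) (.e (nat_lit 3213) (nat_lit 195) .nil))))))) (.g (nat_lit 1) (.e (nat_lit 407507) (nat_lit 0) .nil) .nil))))))))) 
(.nd (nat_lit 4) (.nd (nat_lit 5) (.nd (nat_lit 6) (.nd (nat_lit 7) (.nd (nat_lit 8) 
(.nd (nat_lit 9) 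
(.lf (nat_lit 593929) (.g (nat_lit 1963) (.e (nat_lit 516117) (nat_lit 1) (.e (nat_lit 164330) (nat_lit 230) (.e (nat_lit 163941) (nat_lit 19) (.e (nat_lit 483336) (nat_lit 9) .nil)))) (.g (nat_lit 0) (.e (nat_lit 405895) (nat_lit 0) .nil) .nil))) 
(.lf (nat_lit 594441) (.g (nat_lit 2951) (.e (nat_lit 516129) (nat_lit 3) (.e (nat_lit 221210) (nat_lit 22) (.e (nat_lit 196668) (nat_lit 14) (.e (nat_lit 73747) (nat_lit 3) (.e (nat_lit 516097) (nat_lit 0) (.e (nat_lit 3460) (nat_lit 216) (.e (nat_lit 688170) (nat_lit 15) (.e (nat_lit 57466) (nat_lit 23) .nil)))))))) (.g (nat_lit 1) (.e (nat_lit 406843) (nat_lit 0) .nil) .nil)))) 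
(.nd (nat_lit 9) 
(.lf (nat_lit 594185) (.g (nat_lit 1778) (.e (nat_lit 516120) (nat_lit 1) (.e (nat_lit 164330) (nat_lit 230) (.e (nat_lit 163902) (nat_lit 12) (.e (nat_lit 426489) (nat_lit 27) .nil)))) (.g (nat_lit 0) (.e (nat_lit 406439) (nat_lit 0) .nil) .nil))) 
(.lf (nat_lit 594697) (.g (nat_lit 3193) (.e (nat_lit 516139) (nat_lit 7) (.e (nat_lit 409646) (nat_lit 18) (.e (nat_lit 303117) (nat_lit 2) (.e (nat_lit 196674) (nat_lit 15) (.e (nat_lit 81936) (nat_lit 20) (.e (nat_lit 1781) (nat_lit 119) .nil)))))) (.g (nat_lit 1) (.e (nat_lit 407226) (nat_lit 0) .nil) .nil))))) (.nd (nat_lit 8) (.nd (nat_lit 9) 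
(.lf (nat_lit 594057) (.g (nat_lit 2454) (.e (nat_lit 516119) (nat_lit 1) (.e (nat_lit 164179) (nat_lit 154) (.e (nat_lit 57372) (nat_lit 2) (.e (nat_lit 90128) (nat_lit 9) (.e (nat_lit 2705) (nat_lit 170) .nil))))) (.g (nat_lit 0) (.e (nat_lit 406128) (nat_lit 0) .nil) .nil))) 
(.lf (nat_lit 594569) (.g (nat_lit 2944) (.e (nat_lit 516138) (nat_lit 7) (.e (nat_lit 409645) (nat_lit 18) (.e (nat_lit 303117) (nat_lit 2) (.e (nat_lit 196674) (nat_lit 15) (.e (nat_lit 81936) (nat_lit 20) (.e (nat_lit 1787) (nat_lit 119) .nil)))))) (.g (nat_lit 1) (.e (nat_lit 407058) (nat_lit 0) .nil) .nil)))) (.nd (nat_lit 9) 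
(.lf (nat_lit 594313) (.g (nat_lit 1926) (.e (nat_lit 516125) (nat_lit 2) (.e (nat_lit 213032) (nat_lit 11) (.e (nat_lit 24607) (nat_lit 3) (.e (nat_lit 98365) (nat_lit 26) (.e (nat_lit 426306) (nat_lit 12) .nil))))) (.g (nat_lit 0) (.e (nat_lit 406673) (nat_lit 0) .nil) .nil))) 
(.lf (nat_lit 594825) (.g (nat_lit 2798) (.e (nat_lit 516139) (nat_lit 7) (.e (nat_lit 409649) (nat_lit 18) (.e (nat_lit 303117) (nat_lit 2) (.e (nat_lit 196666) (nat_lit 13) (.e (nat_lit 65614) (nat_lit 10) (.e (nat_lit 344119) (nat_lit 21) .nil)))))) (.g (nat_lit 1) (.e (nat_lit 407373) (nat_lit 0) .nil) .nil)))))) (.nd (nat_lit 7) (.nd (nat_lit 8) (.nd (nat_lit 9) 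
(.lf (nat_lit 593993) (.g (nat_lit 3107) (.e (nat_lit 516118) (nat_lit 1) (.e (nat_lit 164325) (nat_lit 230) (.e (nat_lit 163902) (nat_lit 12) (.e (nat_lit 426566) (nat_lit 34) (.e (nat_lit 393291) (nat_lit 26) .nil))))) (.g (nat_lit 0) (.e (nat_lit 406020) (nat_lit 0) .nil) .nil))) 
(.lf (nat_lit 594505) (.g (nat_lit 4360) (.e (nat_lit 516131) (nat_lit 3) (.e (nat_lit 221213) (nat_lit 23) (.e (nat_lit 204830) (nat_lit 18) (.e (nat_lit 57926) (nat_lit 282) (.e (nat_lit 163869) (nat_lit 2) (.e (nat_lit 196670) (nat_lit 14) (.e (nat_lit 73746) (nat_lit 3) .nil))))))) (.g (nat_lit 1) (.e (nat_lit 406936) (nat_lit 0) .nil) .nil)))) (.nd (nat_lit 9) 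
(.lf (nat_lit 594249) (.g (nat_lit 3198) (.e (nat_lit 516120) (nat_lit 1) (.e (nat_lit 164332) (nat_lit 230) (.e (nat_lit 163905) (nat_lit 12) (.e (nat_lit 426566) (nat_lit 34) (.e (nat_lit 393296) (nat_lit 26) (.e (nat_lit 475177) (nat_lit 24) .nil)))))) (.g (nat_lit 1) (.e (nat_lit 406570) (nat_lit 0) .nil) .nil))) 
(.lf (nat_lit 594761) (.g (nat_lit 2383) (.e (nat_lit 516139) (nat_lit 7) (.e (nat_lit 409648) (nat_lit 18) (.e (nat_lit 303116) (nat_lit 2) (.e (nat_lit 196674) (nat_lit 15) (.e (nat_lit 81947) (nat_lit 20) .nil))))) (.g (nat_lit 0) (.e (nat_lit 407297) (nat_lit 0) .nil) .nil))))) (.nd (nat_lit 8) (.nd (nat_lit 9) 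
(.lf (nat_lit 594121) (.g (nat_lit 3449) (.e (nat_lit 516119) (nat_lit 1) (.e (nat_lit 164326) (nat_lit 230) (.e (nat_lit 163903) (nat_lit 12) (.e (nat_lit 426568) (nat_lit 34) (.e (nat_lit 393234) (nat_lit 17) (.e (nat_lit 7376) (nat_lit 389) (.e (nat_lit 8318) (nat_lit 64) .nil))))))) (.g (nat_lit 1) (.e (nat_lit 406255) (nat_lit 0) .nil) .nil))) 
(.lf (nat_lit 594633) (.g (nat_lit 3300) (.e (nat_lit 516139) (nat_lit 7) (.e (nat_lit 409643) (nat_lit 18) (.e (nat_lit 303119) (nat_lit 3) (.e (nat_lit 204852) (nat_lit 26) (.e (nat_lit 336160) (nat_lit 10) (.e (nat_lit 344119) (nat_lit 21) .nil)))))) (.g (nat_lit 1) (.e (nat_lit 407154) (nat_lit 0) .nil) .nil)))) (.nd (nat_lit 9) 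
(.lf (nat_lit 594377) (.g (nat_lit 1600) (.e (nat_lit 516127) (nat_lit 2) (.e (nat_lit 213031) (nat_lit 11) (.e (nat_lit 24607) (nat_lit 3) (.e (nat_lit 98363) (nat_lit 26) (.e (nat_lit 426318) (nat_lit 12) .nil))))) (.g (nat_lit 0) (.e (nat_lit 406751) (nat_lit 0) .nil) .nil))) 
(.lf (nat_lit 594889) (.g (nat_lit 2657) (.e (nat_lit 516143) (nat_lit 9) (.e (nat_lit 426286) (nat_lit 10) (.e (nat_lit 434245) (nat_lit 28) (.e (nat_lit 573471) (nat_lit 11) (.e (nat_lit 16425) (nat_lit 7) (.e (nat_lit 409616) (nat_lit 10) (.e (nat_lit 7936) (nat_lit 43) .nil))))))) (.g (nat_lit 1) (.e (nat_lit 407463) (nat_lit 0) .nil) .nil))))))) 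
(.nd (nat_lit 6) (.nd (nat_lit 7) (.nd (nat_lit 8) (.nd (nat_lit 9) 
(.lf (nat_lit 593961) (.g (nat_lit 2114) (.e (nat_lit 516117) (nat_lit 1) (.e (nat_lit 164398) (nat_lit 256) (.e (nat_lit 57374) (nat_lit 2) (.e (nat_lit 90174) (nat_lit 14) (.e (nat_lit 180243) (nat_lit 5) .nil))))) (.g (nat_lit 0) (.e (nat_lit 405952) (nat_lit 0) .nil) .nil))) 
(.lf (nat_lit 594473) (.g (nat_lit 1759) (.e (nat_lit 516130) (nat_lit 3) (.e (nat_lit 221212) (nat_lit 22) (.e (nat_lit 196663) (nat_lit 13) (.e (nat_lit 65568) (nat_lit 2) (.e (nat_lit 98048) (nat_lit 2) (.e (nat_lit 16388) (nat_lit 0) (.e (nat_lit 3211) (nat_lit 195) .nil))))))) (.g (nat_lit 1) (.e (nat_lit 406878) (nat_lit 0) .nil) .nil)))) (.nd (nat_lit 9) 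
(.lf (nat_lit 594217) (.g (nat_lit 3809) (.e (nat_lit 516120) (nat_lit 1) (.e (nat_lit 164330) (nat_lit 230) (.e (nat_lit 163941) (nat_lit 19) (.e (nat_lit 483341) (nat_lit 9) (.e (nat_lit 426307) (nat_lit 12) (.e (nat_lit 475179) (nat_lit 24) .nil)))))) (.g (nat_lit 1) (.e (nat_lit 406515) (nat_lit 0) .nil) .nil))) 
(.lf (nat_lit 594729) (.g (nat_lit 3174) (.e (nat_lit 516139) (nat_lit 7) (.e (nat_lit 409647) (nat_lit 18) (.e (nat_lit 303118) (nat_lit 3) (.e (nat_lit 204866) (nat_lit 28) (.e (nat_lit 352280) (nat_lit 20) (.e (nat_lit 1788) (nat_lit 119) .nil)))))) (.g (nat_lit 1) (.e (nat_lit 407263) (nat_lit 0) .nil) .nil))))) (.nd (nat_lit 8) (.nd (nat_lit 9) 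
(.lf (nat_lit 594089) (.g (nat_lit 1620) (.e (nat_lit 516119) (nat_lit 1) (.e (nat_lit 164325) (nat_lit 230) (.e (nat_lit 163902) (nat_lit 12) (.e (nat_lit 426568) (nat_lit 34) .nil)))) (.g (nat_lit 0) (.e (nat_lit 406186) (nat_lit 0) .nil) .nil))) 
(.lf (nat_lit 594601) (.g (nat_lit 4087) (.e (nat_lit 516138) (nat_lit 7) (.e (nat_lit 409646) (nat_lit 18) (.e (nat_lit 303118) (nat_lit 3) (.e (nat_lit 204868) (nat_lit 29) (.e (nat_lit 360466) (nat_lit 3) .nil))))) (.g (nat_lit 1) (.e (nat_lit 407104) (nat_lit 0) .nil) .nil)))) (.nd (nat_lit 9) 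
(.lf (nat_lit 594345) (.g (nat_lit 2914) (.e (nat_lit 516126) (nat_lit 2) (.e (nat_lit 213032) (nat_lit 11) (.e (nat_lit 24604) (nat_lit 2) (.e (nat_lit 90185) (nat_lit 17) (.e (nat_lit 237619) (nat_lit 12) (.e (nat_lit 475177) (nat_lit 24) .nil)))))) (.g (nat_lit 1) (.e (nat_lit 406706) (nat_lit 0) .nil) .nil))) 
(.lf (nat_lit 594857) (.g (nat_lit 3031) (.e (nat_lit 516139) (nat_lit 7) (.e (nat_lit 409649) (nat_lit 18) (.e (nat_lit 303118) (nat_lit 3) (.e (nat_lit 204869) (nat_lit 29) (.e (nat_lit 368384) (nat_lit 3) .nil))))) (.g (nat_lit 1) (.e (nat_lit 407410) (nat_lit 0) .nil) .nil)))))) (.nd (nat_lit 7) (.nd (nat_lit 8) (.nd (nat_lit 9) 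
(.lf (nat_lit 594025) (.g (nat_lit 3967) (.e (nat_lit 516118) (nat_lit 1) (.e (nat_lit 164332) (nat_lit 230) (.e (nat_lit 163905) (nat_lit 12) (.e (nat_lit 426478) (nat_lit 27) (.e (nat_lit 336389) (nat_lit 27) (.e (nat_lit 426308) (nat_lit 12) (.e (nat_lit 475177) (nat_lit 24) .nil))))))) (.g (nat_lit 1) (.e (nat_lit 406074) (nat_lit 0) .nil) .nil))) 
(.lf (nat_lit 594537) (.g (nat_lit 2933) (.e (nat_lit 516131) (nat_lit 3) (.e (nat_lit 221215) (nat_lit 23) (.e (nat_lit 204830) (nat_lit 18) (.e (nat_lit 57926) (nat_lit 282) (.e (nat_lit 163870) (nat_lit 2) (.e (nat_lit 196670) (nat_lit 14) (.e (nat_lit 73746) (nat_lit 3) .nil))))))) (.g (nat_lit 1) (.e (nat_lit 406972) (nat_lit 0) .nil) .nil)))) (.nd (nat_lit 9) 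
(.lf (nat_lit 594281) (.g (nat_lit 901) (.e (nat_lit 516124) (nat_lit 2) (.e (nat_lit 213030) (nat_lit 11) (.e (nat_lit 24605) (nat_lit 2) (.e (nat_lit 90176) (nat_lit 15) (.e (nat_lit 196352) (nat_lit 0) .nil))))) (.g (nat_lit 0) (.e (nat_lit 406618) (nat_lit 0) .nil) .nil))) 
(.lf (nat_lit 594793) (.g (nat_lit 2221) (.e (nat_lit 516139) (nat_lit 7) (.e (nat_lit 409648) (nat_lit 18) (.e (nat_lit 303118) (nat_lit 3) (.e (nat_lit 204868) (nat_lit 29) (.e (nat_lit 360465) (nat_lit 3) .nil))))) (.g (nat_lit 0) (.e (nat_lit 407333) (nat_lit 0) .nil) .nil))))) (.nd (nat_lit 8) (.nd (nat_lit 9) 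
(.lf (nat_lit 594153) (.g (nat_lit 1734) (.e (nat_lit 516120) (nat_lit 1) (.e (nat_lit 164183) (nat_lit 154) (.e (nat_lit 57378) (nat_lit 3) (.e (nat_lit 98342) (nat_lit 20) (.e (nat_lit 221212) (nat_lit 22) .nil))))) (.g (nat_lit 0) (.e (nat_lit 406322) (nat_lit 0) .nil) .nil))) 
(.lf (nat_lit 594665) (.g (nat_lit 2292) (.e (nat_lit 516139) (nat_lit 7) (.e (nat_lit 409644) (nat_lit 18) (.e (nat_lit 303119) (nat_lit 3) (.e (nat_lit 204877) (nat_lit 31) (.e (nat_lit 376855) (nat_lit 20) .nil))))) (.g (nat_lit 0) (.e (nat_lit 407188) (nat_lit 0) .nil) .nil)))) (.nd (nat_lit 9) 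
(.lf (nat_lit 594409) (.g (nat_lit 2278) (.e (nat_lit 516129) (nat_lit 3) (.e (nat_lit 221193) (nat_lit 11) (.e (nat_lit 336009) (nat_lit 2) (.e (nat_lit 90170) (nat_lit 13) (.e (nat_lit 172118) (nat_lit 12) (.e (nat_lit 475179) (nat_lit 24) .nil)))))) (.g (nat_lit 1) (.e (nat_lit 406799) (nat_lit 0) .nil) .nil))) 
(.lf (nat_lit 594921) (.g (nat_lit 2202) (.e (nat_lit 516146) (nat_lit 9) (.e (nat_lit 426438) (nat_lit 18) (.e (nat_lit 98358) (nat_lit 26) (.e (nat_lit 426399) (nat_lit 15) (.e (nat_lit 1799) (nat_lit 119) .nil))))) (.g (nat_lit 0) (.e (nat_lit 407499) (nat_lit 0) .nil) .nil)))))))) (.nd (nat_lit 5) (.nd (nat_lit 6) (.nd (nat_lit 7) (.nd (nat_lit 8) (.nd (nat_lit 9) 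
(.lf (nat_lit 593945) (.g (nat_lit 1995) (.e (nat_lit 516117) (nat_lit 1) (.e (nat_lit 164332) (nat_lit 230) (.e (nat_lit 163905) (nat_lit 12) (.e (nat_lit 426489) (nat_lit 27) (.e (nat_lit 336406) (nat_lit 27) .nil))))) (.g (nat_lit 0) (.e (nat_lit 405926) (nat_lit 0) .nil) .nil))) 
(.lf (nat_lit 594457) (.g (nat_lit 913) (.e (nat_lit 516129) (nat_lit 3) (.e (nat_lit 221215) (nat_lit 23) (.e (nat_lit 204801) (nat_lit 0) .nil))) (.g (nat_lit 0) (.e (nat_lit 406860) (nat_lit 0) .nil) .nil)))) (.nd (nat_lit 9) 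
(.lf (nat_lit 594201) (.g (nat_lit 780) (.e (nat_lit 516120) (nat_lit 1) (.e (nat_lit 164330) (nat_lit 230) (.e (nat_lit 163909) (nat_lit 12) .nil))) (.g (nat_lit 0) (.e (nat_lit 406459) (nat_lit 0) .nil) .nil))) 
(.lf (nat_lit 594713) (.g (nat_lit 2712) (.e (nat_lit 516139) (nat_lit 7) (.e (nat_lit 409646) (nat_lit 18) (.e (nat_lit 303119) (nat_lit 3) (.e (nat_lit 204855) (nat_lit 26) (.e (nat_lit 336173) (nat_lit 10) (.e (nat_lit 344119) (nat_lit 21) .nil)))))) (.g (nat_lit 1) (.e (nat_lit 407244) (nat_lit 0) .nil) .nil))))) (.nd (nat_lit 8) (.nd (nat_lit 9) 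
(.lf (nat_lit 594073) (.g (nat_lit 3879) (.e (nat_lit 516119) (nat_lit 1) (.e (nat_lit 164322) (nat_lit 230) (.e (nat_lit 163902) (nat_lit 12) (.e (nat_lit 426568) (nat_lit 34) (.e (nat_lit 393234) (nat_lit 17) (.e (nat_lit 7376) (nat_lit 389) (.e (nat_lit 8320) (nat_lit 64) .nil))))))) (.g (nat_lit 1) (.e (nat_lit 406154) (nat_lit 0) .nil) .nil))) 
(.lf (nat_lit 594585) (.g (nat_lit 3581) (.e (nat_lit 516138) (nat_lit 7) (.e (nat_lit 409645) (nat_lit 18) (.e (nat_lit 303119) (nat_lit 3) (.e (nat_lit 204869) (nat_lit 29) (.e (nat_lit 360468) (nat_lit 3) .nil))))) (.g (nat_lit 1) (.e (nat_lit 407085) (nat_lit 0) .nil) .nil)))) (.nd (nat_lit 9) 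
(.lf (nat_lit 594329) (.g (nat_lit 2296) (.e (nat_lit 516126) (nat_lit 2) (.e (nat_lit 213030) (nat_lit 11) (.e (nat_lit 24609) (nat_lit 3) (.e (nat_lit 98370) (nat_lit 28) (.e (nat_lit 442374) (nat_lit 0) (.e (nat_lit 1800) (nat_lit 119) .nil)))))) (.g (nat_lit 1) (.e (nat_lit 406690) (nat_lit 0) .nil) .nil))) 
(.lf (nat_lit 594841) (.g (nat_lit 385) (.e (nat_lit 516139) (nat_lit 7) (.e (nat_lit 409649) (nat_lit 18) (.e (nat_lit 303118) (nat_lit 3) .nil))) (.g (nat_lit 0) (.e (nat_lit 407389) (nat_lit 0) .nil) .nil)))))) (.nd (nat_lit 7) (.nd (nat_lit 8) (.nd (nat_lit 9) 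
(.lf (nat_lit 594009) (.g (nat_lit 1867) (.e (nat_lit 516118) (nat_lit 1) (.e (nat_lit 164327) (nat_lit 230) (.e (nat_lit 163905) (nat_lit 12) (.e (nat_lit 426566) (nat_lit 34) .nil)))) (.g (nat_lit 0) (.e (nat_lit 406044) (nat_lit 0) .nil) .nil))) 
(.lf (nat_lit 594521) (.g (nat_lit 3243) (.e (nat_lit 516131) (nat_lit 3) (.e (nat_lit 221215) (nat_lit 23) (.e (nat_lit 204828) (nat_lit 18) (.e (nat_lit 57926) (nat_lit 282) (.e (nat_lit 163871) (nat_lit 2) (.e (nat_lit 196668) (nat_lit 14) (.e (nat_lit 73747) (nat_lit 3) .nil))))))) (.g (nat_lit 1) (.e (nat_lit 406955) (nat_lit 0) .nil) .nil)))) (.nd (nat_lit 9) 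
(.lf (nat_lit 594265) (.g (nat_lit 977) (.e (nat_lit 516122) (nat_lit 2) (.e (nat_lit 213032) (nat_lit 11) (.e (nat_lit 24605) (nat_lit 2) .nil))) (.g (nat_lit 0) (.e (nat_lit 406598) (nat_lit 0) .nil) .nil))) 
(.lf (nat_lit 594777) (.g (nat_lit 3641) (.e (nat_lit 516139) (nat_lit 7) (.e (nat_lit 409648) (nat_lit 18) (.e (nat_lit 303117) (nat_lit 2) (.e (nat_lit 196672) (nat_lit 15) (.e (nat_lit 89856) (nat_lit 20) (.e (nat_lit 1800) (nat_lit 119) .nil)))))) (.g (nat_lit 1) (.e (nat_lit 407313) (nat_lit 0) .nil) .nil))))) (.nd (nat_lit 8) (.nd (nat_lit 9) 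
(.lf (nat_lit 594137) (.g (nat_lit 2214) (.e (nat_lit 516119) (nat_lit 1) (.e (nat_lit 164327) (nat_lit 230) (.e (nat_lit 163903) (nat_lit 12) (.e (nat_lit 426568) (nat_lit 34) (.e (nat_lit 393234) (nat_lit 17) .nil))))) (.g (nat_lit 0) (.e (nat_lit 406276) (nat_lit 0) .nil) .nil))) 
(.lf (nat_lit 594649) (.g (nat_lit 1571) (.e (nat_lit 516139) (nat_lit 7) (.e (nat_lit 409644) (nat_lit 18) (.e (nat_lit 303119) (nat_lit 3) (.e (nat_lit 204821) (nat_lit 17) .nil)))) (.g (nat_lit 0) (.e (nat_lit 407171) (nat_lit 0) .nil) .nil)))) (.nd (nat_lit 9) 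
(.lf (nat_lit 594393) (.g (nat_lit 2197) (.e (nat_lit 516127) (nat_lit 2) (.e (nat_lit 213032) (nat_lit 11) (.e (nat_lit 24605) (nat_lit 2) (.e (nat_lit 90185) (nat_lit 17) (.e (nat_lit 237616) (nat_lit 12) (.e (nat_lit 475177) (nat_lit 24) .nil)))))) (.g (nat_lit 1) (.e (nat_lit 406767) (nat_lit 0) .nil) .nil))) 
(.lf (nat_lit 594905) (.g (nat_lit 3552) (.e (nat_lit 516145) (nat_lit 9) (.e (nat_lit 426438) (nat_lit 18) (.e (nat_lit 98366) (nat_lit 27) (.e (nat_lit 434247) (nat_lit 28) (.e (nat_lit 573484) (nat_lit 13) (.e (nat_lit 65642) (nat_lit 15) (.e (nat_lit 7936) (nat_lit 195) .nil))))))) (.g (nat_lit 1) (.e (nat_lit 407482) (nat_lit 0) .nil) .nil))))))) 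
(.nd (nat_lit 6) (.nd (nat_lit 7) (.nd (nat_lit 8) (.nd (nat_lit 9) 
(.lf (nat_lit 593977) (.g (nat_lit 2569) (.e (nat_lit 516118) (nat_lit 1) (.e (nat_lit 164182) (nat_lit 154) (.e (nat_lit 57379) (nat_lit 3) (.e (nat_lit 98341) (nat_lit 20) (.e (nat_lit 221212) (nat_lit 22) .nil))))) (.g (nat_lit 0) (.e (nat_lit 405985) (nat_lit 0) .nil) .nil))) 
(.lf (nat_lit 594489) (.g (nat_lit 2254) (.e (nat_lit 516130) (nat_lit 3) (.e (nat_lit 221215) (nat_lit 23) (.e (nat_lit 204861) (nat_lit 26) (.e (nat_lit 336002) (nat_lit 2) (.e (nat_lit 90153) (nat_lit 10) (.e (nat_lit 8541) (nat_lit 226) (.e (nat_lit 65280) (nat_lit 84) .nil))))))) (.g (nat_lit 1) (.e (nat_lit 406895) (nat_lit 0) .nil) .nil)))) (.nd (nat_lit 9) 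
(.lf (nat_lit 594233) (.g (nat_lit 3919) (.e (nat_lit 516120) (nat_lit 1) (.e (nat_lit 164332) (nat_lit 230) (.e (nat_lit 163902) (nat_lit 12) (.e (nat_lit 426566) (nat_lit 34) (.e (nat_lit 393294) (nat_lit 26) (.e (nat_lit 475179) (nat_lit 24) .nil)))))) (.g (nat_lit 1) (.e (nat_lit 406549) (nat_lit 0) .nil) .nil))) 
(.lf (nat_lit 594745) (.g (nat_lit 504) (.e (nat_lit 516139) (nat_lit 7) (.e (nat_lit 409648) (nat_lit 18) (.e (nat_lit 303109) (nat_lit 0) .nil))) (.g (nat_lit 0) (.e (nat_lit 407281) (nat_lit 0) .nil) .nil))))) (.nd (nat_lit 8) (.nd (nat_lit 9) 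
(.lf (nat_lit 594105) (.g (nat_lit 3263) (.e (nat_lit 516119) (nat_lit 1) (.e (nat_lit 164325) (nat_lit 230) (.e (nat_lit 163907) (nat_lit 12) (.e (nat_lit 426566) (nat_lit 34) (.e (nat_lit 393291) (nat_lit 26) (.e (nat_lit 475177) (nat_lit 24) .nil)))))) (.g (nat_lit 1) (.e (nat_lit 406211) (nat_lit 0) .nil) .nil))) 
(.lf (nat_lit 594617) (.g (nat_lit 3376) (.e (nat_lit 516138) (nat_lit 7) (.e (nat_lit 409651) (nat_lit 19) (.e (nat_lit 311315) (nat_lit 3) (.e (nat_lit 204868) (nat_lit 29) (.e (nat_lit 360466) (nat_lit 3) .nil))))) (.g (nat_lit 1) (.e (nat_lit 407128) (nat_lit 0) .nil) .nil)))) (.nd (nat_lit 9) 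
(.lf (nat_lit 594361) (.g (nat_lit 1864) (.e (nat_lit 516126) (nat_lit 2) (.e (nat_lit 213032) (nat_lit 11) (.e (nat_lit 24608) (nat_lit 3) (.e (nat_lit 98365) (nat_lit 26) (.e (nat_lit 426307) (nat_lit 12) .nil))))) (.g (nat_lit 0) (.e (nat_lit 406724) (nat_lit 0) .nil) .nil))) 
(.lf (nat_lit 594873) (.g (nat_lit 3288) (.e (nat_lit 516141) (nat_lit 8) (.e (nat_lit 417828) (nat_lit 18) (.e (nat_lit 303119) (nat_lit 3) (.e (nat_lit 204868) (nat_lit 29) (.e (nat_lit 360466) (nat_lit 3) .nil))))) (.g (nat_lit 1) (.e (nat_lit 407440) (nat_lit 0) .nil) .nil)))))) (.nd (nat_lit 7) (.nd (nat_lit 8) (.nd (nat_lit 9) 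
(.lf (nat_lit 594041) (.g (nat_lit 2336) (.e (nat_lit 516118) (nat_lit 1) (.e (nat_lit 164332) (nat_lit 230) (.e (nat_lit 163905) (nat_lit 12) (.e (nat_lit 426502) (nat_lit 27) .nil)))) (.g (nat_lit 0) (.e (nat_lit 406091) (nat_lit 0) .nil) .nil))) 
(.lf (nat_lit 594553) (.g (nat_lit 333) (.e (nat_lit 516138) (nat_lit 7) (.e (nat_lit 409644) (nat_lit 18) (.e (nat_lit 303117) (nat_lit 2) .nil))) (.g (nat_lit 0) (.e (nat_lit 407035) (nat_lit 0) .nil) .nil)))) (.nd (nat_lit 9) 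
(.lf (nat_lit 594297) (.g (nat_lit 568) (.e (nat_lit 516124) (nat_lit 2) (.e (nat_lit 213032) (nat_lit 11) (.e (nat_lit 24608) (nat_lit 3) .nil))) (.g (nat_lit 0) (.e (nat_lit 406638) (nat_lit 0) .nil) .nil))) 
(.lf (nat_lit 594809) (.g (nat_lit 4125) (.e (nat_lit 516139) (nat_lit 7) (.e (nat_lit 409649) (nat_lit 18) (.e (nat_lit 303111) (nat_lit 0) (.e (nat_lit 3238) (nat_lit 197) (.e (nat_lit 532535) (nat_lit 9) (.e (nat_lit 336163) (nat_lit 10) (.e (nat_lit 344119) (nat_lit 21) .nil))))))) (.g (nat_lit 1) (.e (nat_lit 407355) (nat_lit 0) .nil) .nil))))) (.nd (nat_lit 8) (.nd (nat_lit 9) 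
(.lf (nat_lit 594169) (.g (nat_lit 2338) (.e (nat_lit 516120) (nat_lit 1) (.e (nat_lit 164329) (nat_lit 230) (.e (nat_lit 163902) (nat_lit 12) (.e (nat_lit 426568) (nat_lit 34) (.e (nat_lit 393294) (nat_lit 26) (.e (nat_lit 483072) (nat_lit 24) .nil)))))) (.g (nat_lit 1) (.e (nat_lit 406394) (nat_lit 0) .nil) .nil))) 
(.lf (nat_lit 594681) (.g (nat_lit 3961) (.e (nat_lit 516139) (nat_lit 7) (.e (nat_lit 409645) (nat_lit 18) (.e (nat_lit 303119) (nat_lit 3) (.e (nat_lit 204866) (nat_lit 28) (.e (nat_lit 352292) (nat_lit 20) (.e (nat_lit 1788) (nat_lit 119) .nil)))))) (.g (nat_lit 1) (.e (nat_lit 407208) (nat_lit 0) .nil) .nil)))) (.nd (nat_lit 9) 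
(.lf (nat_lit 594425) (.g (nat_lit 3618) (.e (nat_lit 516129) (nat_lit 3) (.e (nat_lit 221210) (nat_lit 22) (.e (nat_lit 196666) (nat_lit 13) (.e (nat_lit 65568) (nat_lit 2) (.e (nat_lit 98048) (nat_lit 2) (.e (nat_lit 16388) (nat_lit 0) (.e (nat_lit 3211) (nat_lit 195) .nil))))))) (.g (nat_lit 1) (.e (nat_lit 406827) (nat_lit 0) .nil) .nil))) 
(.lf (nat_lit 594937) (.g (nat_lit 2636) (.e (nat_lit 516146) (nat_lit 9) (.e (nat_lit 426438) (nat_lit 18) (.e (nat_lit 98386) (nat_lit 32) (.e (nat_lit 475179) (nat_lit 24) (.e (nat_lit 516178) (nat_lit 15) .nil))))) (.g (nat_lit 0) (.e (nat_lit 407515) (nat_lit 0) .nil) .nil)))))))))) 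
(.nd (nat_lit 3) (.nd (nat_lit 4) (.nd (nat_lit 5) (.nd (nat_lit 6) (.nd (nat_lit 7) 
(.nd (nat_lit 8) (.nd (nat_lit 9) 
(.lf (nat_lit 593925) (.g (nat_lit 1814) (.e (nat_lit 516117) (nat_lit 1) (.e (nat_lit 164330) (nat_lit 230) (.e (nat_lit 163905) (nat_lit 12) (.e (nat_lit 426515) (nat_lit 27) (.e (nat_lit 336408) (nat_lit 27) .nil))))) (.g (nat_lit 0) (.e (nat_lit 405872) (nat_lit 0) .nil) .nil))) 
(.lf (nat_lit 594437) (.g (nat_lit 1887) (.e (nat_lit 516129) (nat_lit 3) (.e (nat_lit 221210) (nat_lit 22) (.e (nat_lit 196668) (nat_lit 14) (.e (nat_lit 81664) (nat_lit 5) (.e (nat_lit 532583) (nat_lit 26) (.e (nat_lit 426031) (nat_lit 0) (.e (nat_lit 7936) (nat_lit 195) .nil))))))) (.g (nat_lit 1) (.e (nat_lit 406839) (nat_lit 0) .nil) .nil)))) (.nd (nat_lit 9) 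
(.lf (nat_lit 594181) (.g (nat_lit 3674) (.e (nat_lit 516120) (nat_lit 1) (.e (nat_lit 164330) (nat_lit 230) (.e (nat_lit 163902) (nat_lit 12) (.e (nat_lit 426478) (nat_lit 27) (.e (nat_lit 336389) (nat_lit 27) (.e (nat_lit 426308) (nat_lit 12) (.e (nat_lit 475177) (nat_lit 24) .nil))))))) (.g (nat_lit 1) (.e (nat_lit 406434) (nat_lit 0) .nil) .nil))) 
(.lf (nat_lit 594693) (.g (nat_lit 2812) (.e (nat_lit 516139) (nat_lit 7) (.e (nat_lit 409646) (nat_lit 18) (.e (nat_lit 303117) (nat_lit 2) (.e (nat_lit 196672) (nat_lit 15) (.e (nat_lit 81943) (nat_lit 20) .nil))))) (.g (nat_lit 0) (.e (nat_lit 407222) (nat_lit 0) .nil) .nil))))) (.nd (nat_lit 8) (.nd (nat_lit 9) 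
(.lf (nat_lit 594053) (.g (nat_lit 2749) (.e (nat_lit 516118) (nat_lit 1) (.e (nat_lit 164403) (nat_lit 256) (.e (nat_lit 57373) (nat_lit 2) (.e (nat_lit 90174) (nat_lit 14) (.e (nat_lit 180243) (nat_lit 5) .nil))))) (.g (nat_lit 0) (.e (nat_lit 406113) (nat_lit 0) .nil) .nil))) 
(.lf (nat_lit 594565) (.g (nat_lit 4894) (.e (nat_lit 516138) (nat_lit 7) (.e (nat_lit 409645) (nat_lit 18) (.e (nat_lit 303117) (nat_lit 2) (.e (nat_lit 196666) (nat_lit 13) (.e (nat_lit 65610) (nat_lit 10) (.e (nat_lit 344117) (nat_lit 21) .nil)))))) (.g (nat_lit 1) (.e (nat_lit 407052) (nat_lit 0) .nil) .nil)))) (.nd (nat_lit 9) 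
(.lf (nat_lit 594309) (.g (nat_lit 1836) (.e (nat_lit 516125) (nat_lit 2) (.e (nat_lit 213032) (nat_lit 11) (.e (nat_lit 24604) (nat_lit 2) (.e (nat_lit 90176) (nat_lit 15) (.e (nat_lit 196352) (nat_lit 0) .nil))))) (.g (nat_lit 0) (.e (nat_lit 406669) (nat_lit 0) .nil) .nil))) 
(.lf (nat_lit 594821) (.g (nat_lit 3544) (.e (nat_lit 516139) (nat_lit 7) (.e (nat_lit 409649) (nat_lit 18) (.e (nat_lit 303117) (nat_lit 2) (.e (nat_lit 196666) (nat_lit 13) (.e (nat_lit 65609) (nat_lit 10) (.e (nat_lit 344119) (nat_lit 21) .nil)))))) (.g (nat_lit 1) (.e (nat_lit 407369) (nat_lit 0) .nil) .nil)))))) (.nd (nat_lit 7) (.nd (nat_lit 8) (.nd (nat_lit 9) 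
(.lf (nat_lit 593989) (.g (nat_lit 3550) (.e (nat_lit 516118) (nat_lit 1) (.e (nat_lit 164324) (nat_lit 230) (.e (nat_lit 163903) (nat_lit 12) (.e (nat_lit 426566) (nat_lit 34) (.e (nat_lit 393291) (nat_lit 26) (.e (nat_lit 475177) (nat_lit 24) .nil)))))) (.g (nat_lit 1) (.e (nat_lit 406008) (nat_lit 0) .nil) .nil))) 
(.lf (nat_lit 594501) (.g (nat_lit 2393) (.e (nat_lit 516131) (nat_lit 3) (.e (nat_lit 221212) (nat_lit 22) (.e (nat_lit 196663) (nat_lit 13) (.e (nat_lit 65568) (nat_lit 2) (.e (nat_lit 98048) (nat_lit 2) (.e (nat_lit 16388) (nat_lit 0) (.e (nat_lit 3213) (nat_lit 195) .nil))))))) (.g (nat_lit 1) (.e (nat_lit 406932) (nat_lit 0) .nil) .nil)))) (.nd (nat_lit 9) 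
(.lf (nat_lit 594245) (.g (nat_lit 1958) (.e (nat_lit 516120) (nat_lit 1) (.e (nat_lit 164332) (nat_lit 230) (.e (nat_lit 163905) (nat_lit 12) (.e (nat_lit 426509) (nat_lit 27) (.e (nat_lit 336412) (nat_lit 27) .nil))))) (.g (nat_lit 0) (.e (nat_lit 406564) (nat_lit 0) .nil) .nil))) 
(.lf (nat_lit 594757) (.g (nat_lit 2681) (.e (nat_lit 516139) (nat_lit 7) (.e (nat_lit 409648) (nat_lit 18) (.e (nat_lit 303116) (nat_lit 2) (.e (nat_lit 196666) (nat_lit 13) (.e (nat_lit 65616) (nat_lit 10) .nil))))) (.g (nat_lit 0) (.e (nat_lit 407293) (nat_lit 0) .nil) .nil))))) (.nd (nat_lit 8) (.nd (nat_lit 9) 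
(.lf (nat_lit 594117) (.g (nat_lit 2011) (.e (nat_lit 516119) (nat_lit 1) (.e (nat_lit 164326) (nat_lit 230) (.e (nat_lit 163903) (nat_lit 12) (.e (nat_lit 426479) (nat_lit 27) (.e (nat_lit 336430) (nat_lit 29) (.e (nat_lit 442379) (nat_lit 0) (.e (nat_lit 1784) (nat_lit 119) .nil))))))) (.g (nat_lit 1) (.e (nat_lit 406250) (nat_lit 0) .nil) .nil))) 
(.lf (nat_lit 594629) (.g (nat_lit 2606) (.e (nat_lit 516139) (nat_lit 7) (.e (nat_lit 409623) (nat_lit 10) (.e (nat_lit 5664) (nat_lit 312) (.e (nat_lit 2679) (nat_lit 168) (.e (nat_lit 204877) (nat_lit 31) (.e (nat_lit 376855) (nat_lit 20) (.e (nat_lit 1800) (nat_lit 119) .nil))))))) (.g (nat_lit 1) (.e (nat_lit 407150) (nat_lit 0) .nil) .nil)))) (.nd (nat_lit 9) 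
(.lf (nat_lit 594373) (.g (nat_lit 973) (.e (nat_lit 516127) (nat_lit 2) (.e (nat_lit 213030) (nat_lit 11) (.e (nat_lit 24608) (nat_lit 3) (.e (nat_lit 98363) (nat_lit 26) .nil)))) (.g (nat_lit 0) (.e (nat_lit 406744) (nat_lit 0) .nil) .nil))) 
(.lf (nat_lit 594885) (.g (nat_lit 1529) (.e (nat_lit 516142) (nat_lit 8) (.e (nat_lit 417829) (nat_lit 18) (.e (nat_lit 303112) (nat_lit 0) (.e (nat_lit 3252) (nat_lit 197) .nil)))) (.g (nat_lit 0) (.e (nat_lit 407458) (nat_lit 0) .nil) .nil))))))) (.nd (nat_lit 6) (.nd (nat_lit 7) (.nd (nat_lit 8) (.nd (nat_lit 9) 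
(.lf (nat_lit 593957) (.g (nat_lit 1423) (.e (nat_lit 516117) (nat_lit 1) (.e (nat_lit 164332) (nat_lit 230) (.e (nat_lit 163941) (nat_lit 19) (.e (nat_lit 483341) (nat_lit 9) (.e (nat_lit 426198) (nat_lit 9) .nil))))) (.g (nat_lit 0) (.e (nat_lit 405939) (nat_lit 0) .nil) .nil))) 
(.lf (nat_lit 594469) (.g (nat_lit 2209) (.e (nat_lit 516130) (nat_lit 3) (.e (nat_lit 221211) (nat_lit 22) (.e (nat_lit 196666) (nat_lit 13) (.e (nat_lit 65568) (nat_lit 2) (.e (nat_lit 98048) (nat_lit 2) (.e (nat_lit 16388) (nat_lit 0) (.e (nat_lit 3212) (nat_lit 195) .nil))))))) (.g (nat_lit 1) (.e (nat_lit 406873) (nat_lit 0) .nil) .nil)))) (.nd (nat_lit 9) 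
(.lf (nat_lit 594213) (.g (nat_lit 2272) (.e (nat_lit 516120) (nat_lit 1) (.e (nat_lit 164330) (nat_lit 230) (.e (nat_lit 163941) (nat_lit 19) (.e (nat_lit 483341) (nat_lit 9) (.e (nat_lit 426198) (nat_lit 9) (.e (nat_lit 426360) (nat_lit 15) (.e (nat_lit 1795) (nat_lit 119) .nil))))))) (.g (nat_lit 1) (.e (nat_lit 406511) (nat_lit 0) .nil) .nil))) 
(.lf (nat_lit 594725) (.g (nat_lit 2369) (.e (nat_lit 516139) (nat_lit 7) (.e (nat_lit 409647) (nat_lit 18) (.e (nat_lit 303118) (nat_lit 3) (.e (nat_lit 204855) (nat_lit 26) (.e (nat_lit 336169) (nat_lit 10) .nil))))) (.g (nat_lit 0) (.e (nat_lit 407258) (nat_lit 0) .nil) .nil))))) (.nd (nat_lit 8) (.nd (nat_lit 9) 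
(.lf (nat_lit 594085) (.g (nat_lit 2567) (.e (nat_lit 516119) (nat_lit 1) (.e (nat_lit 164324) (nat_lit 230) (.e (nat_lit 163907) (nat_lit 12) (.e (nat_lit 426566) (nat_lit 34) (.e (nat_lit 393291) (nat_lit 26) .nil))))) (.g (nat_lit 0) (.e (nat_lit 406170) (nat_lit 0) .nil) .nil))) 
(.lf (nat_lit 594597) (.g (nat_lit 3094) (.e (nat_lit 516138) (nat_lit 7) (.e (nat_lit 409646) (nat_lit 18) (.e (nat_lit 303117) (nat_lit 2) (.e (nat_lit 196674) (nat_lit 15) (.e (nat_lit 81936) (nat_lit 20) (.e (nat_lit 1792) (nat_lit 119) .nil)))))) (.g (nat_lit 1) (.e (nat_lit 407100) (nat_lit 0) .nil) .nil)))) (.nd (nat_lit 9) 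
(.lf (nat_lit 594341) (.g (nat_lit 1669) (.e (nat_lit 516126) (nat_lit 2) (.e (nat_lit 213032) (nat_lit 11) (.e (nat_lit 24604) (nat_lit 2) (.e (nat_lit 90176) (nat_lit 15) (.e (nat_lit 196352) (nat_lit 0) (.e (nat_lit 1795) (nat_lit 119) .nil)))))) (.g (nat_lit 1) (.e (nat_lit 406702) (nat_lit 0) .nil) .nil))) 
(.lf (nat_lit 594853) (.g (nat_lit 2843) (.e (nat_lit 516139) (nat_lit 7) (.e (nat_lit 409649) (nat_lit 18) (.e (nat_lit 303118) (nat_lit 3) (.e (nat_lit 204866) (nat_lit 28) (.e (nat_lit 360192) (nat_lit 20) (.e (nat_lit 1788) (nat_lit 119) .nil)))))) (.g (nat_lit 1) (.e (nat_lit 407406) (nat_lit 0) .nil) .nil)))))) (.nd (nat_lit 7) (.nd (nat_lit 8) (.nd (nat_lit 9) 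
(.lf (nat_lit 594021) (.g (nat_lit 4119) (.e (nat_lit 516118) (nat_lit 1) (.e (nat_lit 164332) (nat_lit 230) (.e (nat_lit 163902) (nat_lit 12) (.e (nat_lit 426568) (nat_lit 34) (.e (nat_lit 393294) (nat_lit 26) (.e (nat_lit 475177) (nat_lit 24) .nil)))))) (.g (nat_lit 1) (.e (nat_lit 406070) (nat_lit 0) .nil) .nil))) 
(.lf (nat_lit 594533) (.g (nat_lit 2803) (.e (nat_lit 516131) (nat_lit 3) (.e (nat_lit 221215) (nat_lit 23) (.e (nat_lit 204830) (nat_lit 18) (.e (nat_lit 57926) (nat_lit 282) (.e (nat_lit 163867) (nat_lit 2) (.e (nat_lit 196668) (nat_lit 14) (.e (nat_lit 73746) (nat_lit 3) .nil))))))) (.g (nat_lit 1) (.e (nat_lit 406968) (nat_lit 0) .nil) .nil)))) (.nd (nat_lit 9) 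
(.lf (nat_lit 594277) (.g (nat_lit 948) (.e (nat_lit 516122) (nat_lit 2) (.e (nat_lit 213032) (nat_lit 11) (.e (nat_lit 24609) (nat_lit 3) .nil))) (.g (nat_lit 0) (.e (nat_lit 406610) (nat_lit 0) .nil) .nil))) 
(.lf (nat_lit 594789) (.g (nat_lit 3827) (.e (nat_lit 516139) (nat_lit 7) (.e (nat_lit 409648) (nat_lit 18) (.e (nat_lit 303118) (nat_lit 3) (.e (nat_lit 204855) (nat_lit 26) (.e (nat_lit 336176) (nat_lit 10) (.e (nat_lit 344120) (nat_lit 21) .nil)))))) (.g (nat_lit 1) (.e (nat_lit 407326) (nat_lit 0) .nil) .nil))))) (.nd (nat_lit 8) (.nd (nat_lit 9) 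
(.lf (nat_lit 594149) (.g (nat_lit 2247) (.e (nat_lit 516119) (nat_lit 1) (.e (nat_lit 164403) (nat_lit 256) (.e (nat_lit 57588) (nat_lit 73) (.e (nat_lit 426139) (nat_lit 3) (.e (nat_lit 204880) (nat_lit 32) (.e (nat_lit 385096) (nat_lit 49) (.e (nat_lit 778449) (nat_lit 10) (.e (nat_lit 8320) (nat_lit 64) .nil)))))))) (.g (nat_lit 1) (.e (nat_lit 406309) (nat_lit 0) .nil) .nil))) 
(.lf (nat_lit 594661) (.g (nat_lit 2637) (.e (nat_lit 516139) (nat_lit 7) (.e (nat_lit 409644) (nat_lit 18) (.e (nat_lit 303119) (nat_lit 3) (.e (nat_lit 204868) (nat_lit 29) (.e (nat_lit 368384) (nat_lit 3) .nil))))) (.g (nat_lit 0) (.e (nat_lit 407184) (nat_lit 0) .nil) .nil)))) (.nd (nat_lit 9) 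
(.lf (nat_lit 594405) (.g (nat_lit 2658) (.e (nat_lit 516128) (nat_lit 3) (.e (nat_lit 221194) (nat_lit 11) (.e (nat_lit 336011) (nat_lit 2) (.e (nat_lit 90170) (nat_lit 13) .nil)))) (.g (nat_lit 0) (.e (nat_lit 406790) (nat_lit 0) .nil) .nil))) 
(.lf (nat_lit 594917) (.g (nat_lit 1065) (.e (nat_lit 516146) (nat_lit 9) (.e (nat_lit 426354) (nat_lit 15) (.e (nat_lit 2031) (nat_lit 140) (.e (nat_lit 688170) (nat_lit 15) .nil)))) (.g (nat_lit 0) (.e (nat_lit 407495) (nat_lit 0) .nil) .nil)))))))) (.nd (nat_lit 5) (.nd (nat_lit 6) (.nd (nat_lit 7) (.nd (nat_lit 8) (.nd (nat_lit 9) 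
(.lf (nat_lit 593941) (.g (nat_lit 394) (.e (nat_lit 516117) (nat_lit 1) (.e (nat_lit 164332) (nat_lit 230) (.e (nat_lit 163905) (nat_lit 12) .nil))) (.g (nat_lit 0) (.e (nat_lit 405920) (nat_lit 0) .nil) .nil))) 
(.lf (nat_lit 594453) (.g (nat_lit 1909) (.e (nat_lit 516129) (nat_lit 3) (.e (nat_lit 221210) (nat_lit 22) (.e (nat_lit 196670) (nat_lit 14) (.e (nat_lit 73746) (nat_lit 3) (.e (nat_lit 524032) (nat_lit 24) .nil))))) (.g (nat_lit 0) (.e (nat_lit 406855) (nat_lit 0) .nil) .nil)))) (.nd (nat_lit 9) 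
(.lf (nat_lit 594197) (.g (nat_lit 3727) (.e (nat_lit 516120) (nat_lit 1) (.e (nat_lit 164330) (nat_lit 230) (.e (nat_lit 163905) (nat_lit 12) (.e (nat_lit 426566) (nat_lit 34) (.e (nat_lit 393294) (nat_lit 26) (.e (nat_lit 475177) (nat_lit 24) .nil)))))) (.g (nat_lit 1) (.e (nat_lit 406453) (nat_lit 0) .nil) .nil))) 
(.lf (nat_lit 594709) (.g (nat_lit 2519) (.e (nat_lit 516139) (nat_lit 7) (.e (nat_lit 409646) (nat_lit 18) (.e (nat_lit 303118) (nat_lit 3) (.e (nat_lit 204869) (nat_lit 29) (.e (nat_lit 368384) (nat_lit 3) .nil))))) (.g (nat_lit 0) (.e (nat_lit 407238) (nat_lit 0) .nil) .nil))))) (.nd (nat_lit 8) (.nd (nat_lit 9) 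
(.lf (nat_lit 594069) (.g (nat_lit 2774) (.e (nat_lit 516119) (nat_lit 1) (.e (nat_lit 164322) (nat_lit 230) (.e (nat_lit 163902) (nat_lit 12) (.e (nat_lit 426566) (nat_lit 34) (.e (nat_lit 393293) (nat_lit 26) .nil))))) (.g (nat_lit 0) (.e (nat_lit 406150) (nat_lit 0) .nil) .nil))) 
(.lf (nat_lit 594581) (.g (nat_lit 4597) (.e (nat_lit 516138) (nat_lit 7) (.e (nat_lit 409645) (nat_lit 18) (.e (nat_lit 303119) (nat_lit 3) (.e (nat_lit 204868) (nat_lit 29) (.e (nat_lit 360466) (nat_lit 3) .nil))))) (.g (nat_lit 1) (.e (nat_lit 407081) (nat_lit 0) .nil) .nil)))) (.nd (nat_lit 9) 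
(.lf (nat_lit 594325) (.g (nat_lit 2185) (.e (nat_lit 516126) (nat_lit 2) (.e (nat_lit 213030) (nat_lit 11) (.e (nat_lit 24605) (nat_lit 2) (.e (nat_lit 90178) (nat_lit 15) (.e (nat_lit 188418) (nat_lit 0) (.e (nat_lit 1800) (nat_lit 119) .nil)))))) (.g (nat_lit 1) (.e (nat_lit 406686) (nat_lit 0) .nil) .nil))) 
(.lf (nat_lit 594837) (.g (nat_lit 2967) (.e (nat_lit 516139) (nat_lit 7) (.e (nat_lit 409649) (nat_lit 18) (.e (nat_lit 303117) (nat_lit 2) (.e (nat_lit 196674) (nat_lit 15) (.e (nat_lit 81947) (nat_lit 20) .nil))))) (.g (nat_lit 0) (.e (nat_lit 407385) (nat_lit 0) .nil) .nil)))))) (.nd (nat_lit 7) (.nd (nat_lit 8) (.nd (nat_lit 9) 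
(.lf (nat_lit 594005) (.g (nat_lit 1456) (.e (nat_lit 516118) (nat_lit 1) (.e (nat_lit 164327) (nat_lit 230) (.e (nat_lit 163903) (nat_lit 12) (.e (nat_lit 426481) (nat_lit 27) .nil)))) (.g (nat_lit 0) (.e (nat_lit 406040) (nat_lit 0) .nil) .nil))) 
(.lf (nat_lit 594517) (.g (nat_lit 3323) (.e (nat_lit 516131) (nat_lit 3) (.e (nat_lit 221214) (nat_lit 23) (.e (nat_lit 204831) (nat_lit 18) (.e (nat_lit 57931) (nat_lit 282) (.e (nat_lit 163874) (nat_lit 3) (.e (nat_lit 204873) (nat_lit 30) (.e (nat_lit 368676) (nat_lit 21) .nil))))))) (.g (nat_lit 1) (.e (nat_lit 406948) (nat_lit 0) .nil) .nil)))) (.nd (nat_lit 9) 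
(.lf (nat_lit 594261) (.g (nat_lit 2800) (.e (nat_lit 516121) (nat_lit 2) (.e (nat_lit 213032) (nat_lit 11) (.e (nat_lit 24608) (nat_lit 3) (.e (nat_lit 98365) (nat_lit 26) .nil)))) (.g (nat_lit 0) (.e (nat_lit 406594) (nat_lit 0) .nil) .nil))) 
(.lf (nat_lit 594773) (.g (nat_lit 4201) (.e (nat_lit 516139) (nat_lit 7) (.e (nat_lit 409648) (nat_lit 18) (.e (nat_lit 303117) (nat_lit 2) (.e (nat_lit 196666) (nat_lit 13) (.e (nat_lit 65617) (nat_lit 10) (.e (nat_lit 344119) (nat_lit 21) .nil)))))) (.g (nat_lit 1) (.e (nat_lit 407309) (nat_lit 0) .nil) .nil))))) (.nd (nat_lit 8) (.nd (nat_lit 9) 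
(.lf (nat_lit 594133) (.g (nat_lit 1574) (.e (nat_lit 516119) (nat_lit 1) (.e (nat_lit 164327) (nat_lit 230) (.e (nat_lit 163903) (nat_lit 12) (.e (nat_lit 426491) (nat_lit 27) .nil)))) (.g (nat_lit 0) (.e (nat_lit 406271) (nat_lit 0) .nil) .nil))) 
(.lf (nat_lit 594645) (.g (nat_lit 2846) (.e (nat_lit 516139) (nat_lit 7) (.e (nat_lit 409644) (nat_lit 18) (.e (nat_lit 303117) (nat_lit 2) (.e (nat_lit 196674) (nat_lit 15) (.e (nat_lit 81946) (nat_lit 20) (.e (nat_lit 1802) (nat_lit 119) .nil)))))) (.g (nat_lit 1) (.e (nat_lit 407167) (nat_lit 0) .nil) .nil)))) (.nd (nat_lit 9) 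
(.lf (nat_lit 594389) (.g (nat_lit 1544) (.e (nat_lit 516127) (nat_lit 2) (.e (nat_lit 213032) (nat_lit 11) (.e (nat_lit 24604) (nat_lit 2) (.e (nat_lit 90178) (nat_lit 15) (.e (nat_lit 196352) (nat_lit 0) (.e (nat_lit 1786) (nat_lit 119) .nil)))))) (.g (nat_lit 1) (.e (nat_lit 406763) (nat_lit 0) .nil) .nil))) 
(.lf (nat_lit 594901) (.g (nat_lit 3349) (.e (nat_lit 516145) (nat_lit 9) (.e (nat_lit 426438) (nat_lit 18) (.e (nat_lit 98366) (nat_lit 27) (.e (nat_lit 434244) (nat_lit 28) (.e (nat_lit 573481) (nat_lit 13) (.e (nat_lit 65636) (nat_lit 15) (.e (nat_lit 7936) (nat_lit 195) .nil))))))) (.g (nat_lit 1) (.e (nat_lit 407478) (nat_lit 0) .nil) .nil))))))) 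
(.nd (nat_lit 6) (.nd (nat_lit 7) (.nd (nat_lit 8) (.nd (nat_lit 9) 
(.lf (nat_lit 593973) (.g (nat_lit 2253) (.e (nat_lit 516118) (nat_lit 1) (.e (nat_lit 164182) (nat_lit 154) (.e (nat_lit 57378) (nat_lit 3) (.e (nat_lit 98341) (nat_lit 20) (.e (nat_lit 221210) (nat_lit 22) .nil))))) (.g (nat_lit 0) (.e (nat_lit 405980) (nat_lit 0) .nil) .nil))) 
(.lf (nat_lit 594485) (.g (nat_lit 2632) (.e (nat_lit 516130) (nat_lit 3) (.e (nat_lit 221215) (nat_lit 23) (.e (nat_lit 204831) (nat_lit 18) (.e (nat_lit 57931) (nat_lit 282) (.e (nat_lit 163867) (nat_lit 2) (.e (nat_lit 196668) (nat_lit 14) (.e (nat_lit 73747) (nat_lit 3) .nil))))))) (.g (nat_lit 1) (.e (nat_lit 406891) (nat_lit 0) .nil) .nil)))) (.nd (nat_lit 9) 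
(.lf (nat_lit 594229) (.g (nat_lit 1309) (.e (nat_lit 516120) (nat_lit 1) (.e (nat_lit 164332) (nat_lit 230) (.e (nat_lit 163902) (nat_lit 12) (.e (nat_lit 426478) (nat_lit 27) .nil)))) (.g (nat_lit 0) (.e (nat_lit 406545) (nat_lit 0) .nil) .nil))) 
(.lf (nat_lit 594741) (.g (nat_lit 3963) (.e (nat_lit 516139) (nat_lit 7) (.e (nat_lit 409647) (nat_lit 18) (.e (nat_lit 303119) (nat_lit 3) (.e (nat_lit 204869) (nat_lit 29) (.e (nat_lit 360468) (nat_lit 3) .nil))))) (.g (nat_lit 1) (.e (nat_lit 407277) (nat_lit 0) .nil) .nil))))) (.nd (nat_lit 8) (.nd (nat_lit 9) 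
(.lf (nat_lit 594101) (.g (nat_lit 1545) (.e (nat_lit 516119) (nat_lit 1) (.e (nat_lit 164325) (nat_lit 230) (.e (nat_lit 163907) (nat_lit 12) (.e (nat_lit 426487) (nat_lit 27) .nil)))) (.g (nat_lit 0) (.e (nat_lit 406205) (nat_lit 0) .nil) .nil))) 
(.lf (nat_lit 594613) (.g (nat_lit 1430) (.e (nat_lit 516138) (nat_lit 7) (.e (nat_lit 409649) (nat_lit 18) (.e (nat_lit 303111) (nat_lit 0) (.e (nat_lit 3238) (nat_lit 197) .nil)))) (.g (nat_lit 0) (.e (nat_lit 407124) (nat_lit 0) .nil) .nil)))) (.nd (nat_lit 9) 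
(.lf (nat_lit 594357) (.g (nat_lit 395) (.e (nat_lit 516126) (nat_lit 2) (.e (nat_lit 213032) (nat_lit 11) (.e (nat_lit 24608) (nat_lit 3) .nil))) (.g (nat_lit 0) (.e (nat_lit 406719) (nat_lit 0) .nil) .nil))) 
(.lf (nat_lit 594869) (.g (nat_lit 463) (.e (nat_lit 524032) (nat_lit 7) (.e (nat_lit 409647) (nat_lit 18) (.e (nat_lit 303119) (nat_lit 3) (.e (nat_lit 204868) (nat_lit 29) .nil)))) (.g (nat_lit 0) (.e (nat_lit 407433) (nat_lit 0) .nil) .nil)))))) (.nd (nat_lit 7) (.nd (nat_lit 8) (.nd (nat_lit 9) 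
(.lf (nat_lit 594037) (.g (nat_lit 2377) (.e (nat_lit 516118) (nat_lit 1) (.e (nat_lit 164332) (nat_lit 230) (.e (nat_lit 163905) (nat_lit 12) (.e (nat_lit 426495) (nat_lit 27) .nil)))) (.g (nat_lit 0) (.e (nat_lit 406087) (nat_lit 0) .nil) .nil))) 
(.lf (nat_lit 594549) (.g (nat_lit 2251) (.e (nat_lit 516131) (nat_lit 3) (.e (nat_lit 221219) (nat_lit 24) (.e (nat_lit 213016) (nat_lit 9) (.e (nat_lit 2610) (nat_lit 163) (.e (nat_lit 164347) (nat_lit 240) (.e (nat_lit 2640) (nat_lit 165) (.e (nat_lit 188160) (nat_lit 38) (.e (nat_lit 122936) (nat_lit 23) .nil)))))))) (.g (nat_lit 1) (.e (nat_lit 406984) (nat_lit 0) .nil) .nil)))) 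
(.nd (nat_lit 9) 
(.lf (nat_lit 594293) (.g (nat_lit 1511) (.e (nat_lit 516124) (nat_lit 2) (.e (nat_lit 213032) (nat_lit 11) (.e (nat_lit 24605) (nat_lit 2) (.e (nat_lit 90176) (nat_lit 15) (.e (nat_lit 188420) (nat_lit 0) .nil))))) (.g (nat_lit 0) (.e (nat_lit 406633) (nat_lit 0) .nil) .nil))) 
(.lf (nat_lit 594805) (.g (nat_lit 2254) (.e (nat_lit 516139) (nat_lit 7) (.e (nat_lit 409648) (nat_lit 18) (.e (nat_lit 303119) (nat_lit 3) (.e (nat_lit 204869) (nat_lit 29) (.e (nat_lit 368384) (nat_lit 3) .nil))))) (.g (nat_lit 0) (.e (nat_lit 407350) (nat_lit 0) .nil) .nil))))) (.nd (nat_lit 8) (.nd (nat_lit 9) 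
(.lf (nat_lit 594165) (.g (nat_lit 2900) (.e (nat_lit 516120) (nat_lit 1) (.e (nat_lit 164329) (nat_lit 230) (.e (nat_lit 163902) (nat_lit 12) (.e (nat_lit 426568) (nat_lit 34) (.e (nat_lit 393234) (nat_lit 17) (.e (nat_lit 7374) (nat_lit 389) (.e (nat_lit 8318) (nat_lit 64) .nil))))))) (.g (nat_lit 1) (.e (nat_lit 406390) (nat_lit 0) .nil) .nil))) 
(.lf (nat_lit 594677) (.g (nat_lit 1670) (.e (nat_lit 516139) (nat_lit 7) (.e (nat_lit 409645) (nat_lit 18) (.e (nat_lit 303118) (nat_lit 3) (.e (nat_lit 204850) (nat_lit 26) .nil)))) (.g (nat_lit 0) (.e (nat_lit 407202) (nat_lit 0) .nil) .nil)))) (.nd (nat_lit 9) 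
(.lf (nat_lit 594421) (.g (nat_lit 2714) (.e (nat_lit 516129) (nat_lit 3) (.e (nat_lit 221210) (nat_lit 22) (.e (nat_lit 196663) (nat_lit 13) (.e (nat_lit 65568) (nat_lit 2) (.e (nat_lit 98048) (nat_lit 2) (.e (nat_lit 16388) (nat_lit 0) (.e (nat_lit 3213) (nat_lit 195) .nil))))))) (.g (nat_lit 1) (.e (nat_lit 406823) (nat_lit 0) .nil) .nil))) 
(.lf (nat_lit 594933) (.g (nat_lit 3275) (.e (nat_lit 516146) (nat_lit 9) (.e (nat_lit 426438) (nat_lit 18) (.e (nat_lit 98367) (nat_lit 27) (.e (nat_lit 434248) (nat_lit 28) (.e (nat_lit 573482) (nat_lit 13) (.e (nat_lit 73472) (nat_lit 15) (.e (nat_lit 3214) (nat_lit 195) .nil))))))) (.g (nat_lit 1) (.e (nat_lit 407511) (nat_lit 0) .nil) .nil))))))))) 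
(.nd (nat_lit 4) (.nd (nat_lit 5) (.nd (nat_lit 6) (.nd (nat_lit 7) (.nd (nat_lit 8) 
(.nd (nat_lit 9) 
(.lf (nat_lit 593933) (.g (nat_lit 2684) (.e (nat_lit 516117) (nat_lit 1) (.e (nat_lit 164331) (nat_lit 230) (.e (nat_lit 163902) (nat_lit 12) (.e (nat_lit 426566) (nat_lit 34) (.e (nat_lit 393296) (nat_lit 26) .nil))))) (.g (nat_lit 0) (.e (nat_lit 405907) (nat_lit 0) .nil) .nil))) 
(.lf (nat_lit 594445) (.g (nat_lit 2829) (.e (nat_lit 516129) (nat_lit 3) (.e (nat_lit 221210) (nat_lit 22) (.e (nat_lit 196670) (nat_lit 14) (.e (nat_lit 73746) (nat_lit 3) (.e (nat_lit 516097) (nat_lit 0) (.e (nat_lit 3460) (nat_lit 216) (.e (nat_lit 688171) (nat_lit 15) (.e (nat_lit 57465) (nat_lit 23) .nil)))))))) (.g (nat_lit 1) (.e (nat_lit 406847) (nat_lit 0) .nil) .nil)))) 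
(.nd (nat_lit 9) 
(.lf (nat_lit 594189) (.g (nat_lit 3927) (.e (nat_lit 516120) (nat_lit 1) (.e (nat_lit 164330) (nat_lit 230) (.e (nat_lit 163902) (nat_lit 12) (.e (nat_lit 426568) (nat_lit 34) (.e (nat_lit 393290) (nat_lit 26) (.e (nat_lit 475179) (nat_lit 24) .nil)))))) (.g (nat_lit 1) (.e (nat_lit 406443) (nat_lit 0) .nil) .nil))) 
(.lf (nat_lit 594701) (.g (nat_lit 3047) (.e (nat_lit 516139) (nat_lit 7) (.e (nat_lit 409646) (nat_lit 18) (.e (nat_lit 303117) (nat_lit 2) (.e (nat_lit 196674) (nat_lit 15) (.e (nat_lit 81946) (nat_lit 20) (.e (nat_lit 1801) (nat_lit 119) .nil)))))) (.g (nat_lit 1) (.e (nat_lit 407230) (nat_lit 0) .nil) .nil))))) (.nd (nat_lit 8) (.nd (nat_lit 9) 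
(.lf (nat_lit 594061) (.g (nat_lit 1370) (.e (nat_lit 516119) (nat_lit 1) (.e (nat_lit 164179) (nat_lit 154) (.e (nat_lit 57377) (nat_lit 3) (.e (nat_lit 98321) (nat_lit 17) .nil)))) (.g (nat_lit 0) (.e (nat_lit 406134) (nat_lit 0) .nil) .nil))) 
(.lf (nat_lit 594573) (.g (nat_lit 3494) (.e (nat_lit 516138) (nat_lit 7) (.e (nat_lit 409645) (nat_lit 18) (.e (nat_lit 303117) (nat_lit 2) (.e (nat_lit 196674) (nat_lit 15) (.e (nat_lit 81940) (nat_lit 20) (.e (nat_lit 1788) (nat_lit 119) .nil)))))) (.g (nat_lit 1) (.e (nat_lit 407062) (nat_lit 0) .nil) .nil)))) (.nd (nat_lit 9) 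
(.lf (nat_lit 594317) (.g (nat_lit 1480) (.e (nat_lit 516125) (nat_lit 2) (.e (nat_lit 213032) (nat_lit 11) (.e (nat_lit 24608) (nat_lit 3) (.e (nat_lit 98380) (nat_lit 31) .nil)))) (.g (nat_lit 0) (.e (nat_lit 406677) (nat_lit 0) .nil) .nil))) 
(.lf (nat_lit 594829) (.g (nat_lit 3745) (.e (nat_lit 516139) (nat_lit 7) (.e (nat_lit 409649) (nat_lit 18) (.e (nat_lit 303117) (nat_lit 2) (.e (nat_lit 196670) (nat_lit 14) (.e (nat_lit 81664) (nat_lit 43) (.e (nat_lit 57464) (nat_lit 23) .nil)))))) (.g (nat_lit 1) (.e (nat_lit 407377) (nat_lit 0) .nil) .nil)))))) (.nd (nat_lit 7) (.nd (nat_lit 8) (.nd (nat_lit 9) 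
(.lf (nat_lit 593997) (.g (nat_lit 1848) (.e (nat_lit 516118) (nat_lit 1) (.e (nat_lit 164325) (nat_lit 230) (.e (nat_lit 163903) (nat_lit 12) (.e (nat_lit 426568) (nat_lit 34) (.e (nat_lit 393294) (nat_lit 26) .nil))))) (.g (nat_lit 0) (.e (nat_lit 406024) (nat_lit 0) .nil) .nil))) 
(.lf (nat_lit 594509) (.g (nat_lit 3431) (.e (nat_lit 516131) (nat_lit 3) (.e (nat_lit 221214) (nat_lit 23) (.e (nat_lit 204829) (nat_lit 18) (.e (nat_lit 57926) (nat_lit 282) (.e (nat_lit 163868) (nat_lit 2) (.e (nat_lit 196670) (nat_lit 14) (.e (nat_lit 73746) (nat_lit 3) .nil))))))) (.g (nat_lit 1) (.e (nat_lit 406940) (nat_lit 0) .nil) .nil)))) (.nd (nat_lit 9) 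
(.lf (nat_lit 594253) (.g (nat_lit 3546) (.e (nat_lit 516120) (nat_lit 1) (.e (nat_lit 164332) (nat_lit 230) (.e (nat_lit 163941) (nat_lit 19) (.e (nat_lit 483337) (nat_lit 9) (.e (nat_lit 426316) (nat_lit 12) (.e (nat_lit 475179) (nat_lit 24) .nil)))))) (.g (nat_lit 1) (.e (nat_lit 406575) (nat_lit 0) .nil) .nil))) 
(.lf (nat_lit 594765) (.g (nat_lit 2960) (.e (nat_lit 516139) (nat_lit 7) (.e (nat_lit 409648) (nat_lit 18) (.e (nat_lit 303117) (nat_lit 2) (.e (nat_lit 196665) (nat_lit 13) (.e (nat_lit 65613) (nat_lit 10) (.e (nat_lit 344119) (nat_lit 21) .nil)))))) (.g (nat_lit 1) (.e (nat_lit 407301) (nat_lit 0) .nil) .nil))))) (.nd (nat_lit 8) (.nd (nat_lit 9) 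
(.lf (nat_lit 594125) (.g (nat_lit 1366) (.e (nat_lit 516119) (nat_lit 1) (.e (nat_lit 164326) (nat_lit 230) (.e (nat_lit 163907) (nat_lit 12) (.e (nat_lit 426566) (nat_lit 34) .nil)))) (.g (nat_lit 0) (.e (nat_lit 406259) (nat_lit 0) .nil) .nil))) 
(.lf (nat_lit 594637) (.g (nat_lit 2519) (.e (nat_lit 516139) (nat_lit 7) (.e (nat_lit 409643) (nat_lit 18) (.e (nat_lit 303119) (nat_lit 3) (.e (nat_lit 204868) (nat_lit 29) (.e (nat_lit 360468) (nat_lit 3) .nil))))) (.g (nat_lit 1) (.e (nat_lit 407159) (nat_lit 0) .nil) .nil)))) (.nd (nat_lit 9) 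
(.lf (nat_lit 594381) (.g (nat_lit 2226) (.e (nat_lit 516127) (nat_lit 2) (.e (nat_lit 213032) (nat_lit 11) (.e (nat_lit 24604) (nat_lit 2) (.e (nat_lit 90172) (nat_lit 14) (.e (nat_lit 188160) (nat_lit 41) .nil))))) (.g (nat_lit 0) (.e (nat_lit 406755) (nat_lit 0) .nil) .nil))) 
(.lf (nat_lit 594893) (.g (nat_lit 1002) (.e (nat_lit 516144) (nat_lit 9) (.e (nat_lit 426436) (nat_lit 18) (.e (nat_lit 98385) (nat_lit 32) (.e (nat_lit 475177) (nat_lit 24) .nil)))) (.g (nat_lit 0) (.e (nat_lit 407468) (nat_lit 0) .nil) .nil))))))) (.nd (nat_lit 6) (.nd (nat_lit 7) (.nd (nat_lit 8) (.nd (nat_lit 9) 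
(.lf (nat_lit 593965) (.g (nat_lit 1709) (.e (nat_lit 516117) (nat_lit 1) (.e (nat_lit 164399) (nat_lit 256) (.e (nat_lit 57375) (nat_lit 2) (.e (nat_lit 90174) (nat_lit 14) (.e (nat_lit 180243) (nat_lit 5) .nil))))) (.g (nat_lit 0) (.e (nat_lit 405956) (nat_lit 0) .nil) .nil))) 
(.lf (nat_lit 594477) (.g (nat_lit 1259) (.e (nat_lit 516130) (nat_lit 3) (.e (nat_lit 221212) (nat_lit 22) (.e (nat_lit 196670) (nat_lit 14) (.e (nat_lit 73746) (nat_lit 3) (.e (nat_lit 516191) (nat_lit 17) .nil))))) (.g (nat_lit 0) (.e (nat_lit 406882) (nat_lit 0) .nil) .nil)))) (.nd (nat_lit 9) 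
(.lf (nat_lit 594221) (.g (nat_lit 2955) (.e (nat_lit 516120) (nat_lit 1) (.e (nat_lit 164331) (nat_lit 230) (.e (nat_lit 163902) (nat_lit 12) (.e (nat_lit 426566) (nat_lit 34) (.e (nat_lit 393296) (nat_lit 26) (.e (nat_lit 475178) (nat_lit 24) .nil)))))) (.g (nat_lit 1) (.e (nat_lit 406527) (nat_lit 0) .nil) .nil))) 
(.lf (nat_lit 594733) (.g (nat_lit 3976) (.e (nat_lit 516139) (nat_lit 7) (.e (nat_lit 409647) (nat_lit 18) (.e (nat_lit 303118) (nat_lit 3) (.e (nat_lit 204869) (nat_lit 29) (.e (nat_lit 360468) (nat_lit 3) .nil))))) (.g (nat_lit 1) (.e (nat_lit 407269) (nat_lit 0) .nil) .nil))))) (.nd (nat_lit 8) (.nd (nat_lit 9) 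
(.lf (nat_lit 594093) (.g (nat_lit 3911) (.e (nat_lit 516119) (nat_lit 1) (.e (nat_lit 164325) (nat_lit 230) (.e (nat_lit 163903) (nat_lit 12) (.e (nat_lit 426566) (nat_lit 34) (.e (nat_lit 393291) (nat_lit 26) (.e (nat_lit 475179) (nat_lit 24) .nil)))))) (.g (nat_lit 1) (.e (nat_lit 406192) (nat_lit 0) .nil) .nil))) 
(.lf (nat_lit 594605) (.g (nat_lit 2397) (.e (nat_lit 516138) (nat_lit 7) (.e (nat_lit 409646) (nat_lit 18) (.e (nat_lit 303119) (nat_lit 3) (.e (nat_lit 204861) (nat_lit 26) (.e (nat_lit 336185) (nat_lit 11) (.e (nat_lit 368675) (nat_lit 21) .nil)))))) (.g (nat_lit 1) (.e (nat_lit 407112) (nat_lit 0) .nil) .nil)))) (.nd (nat_lit 9) 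
(.lf (nat_lit 594349) (.g (nat_lit 1355) (.e (nat_lit 516126) (nat_lit 2) (.e (nat_lit 213032) (nat_lit 11) (.e (nat_lit 24605) (nat_lit 2) (.e (nat_lit 90176) (nat_lit 15) (.e (nat_lit 188418) (nat_lit 0) .nil))))) (.g (nat_lit 0) (.e (nat_lit 406710) (nat_lit 0) .nil) .nil))) 
(.lf (nat_lit 594861) (.g (nat_lit 2285) (.e (nat_lit 516139) (nat_lit 7) (.e (nat_lit 409649) (nat_lit 18) (.e (nat_lit 303119) (nat_lit 3) (.e (nat_lit 204861) (nat_lit 26) (.e (nat_lit 336186) (nat_lit 11) .nil))))) (.g (nat_lit 0) (.e (nat_lit 407417) (nat_lit 0) .nil) .nil)))))) (.nd (nat_lit 7) (.nd (nat_lit 8) (.nd (nat_lit 9) 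
(.lf (nat_lit 594029) (.g (nat_lit 1875) (.e (nat_lit 516118) (nat_lit 1) (.e (nat_lit 164332) (nat_lit 230) (.e (nat_lit 163905) (nat_lit 12) (.e (nat_lit 426481) (nat_lit 27) .nil)))) (.g (nat_lit 0) (.e (nat_lit 406079) (nat_lit 0) .nil) .nil))) 
(.lf (nat_lit 594541) (.g (nat_lit 3523) (.e (nat_lit 516131) (nat_lit 3) (.e (nat_lit 221215) (nat_lit 23) (.e (nat_lit 204830) (nat_lit 18) (.e (nat_lit 57930) (nat_lit 282) (.e (nat_lit 163869) (nat_lit 2) (.e (nat_lit 196668) (nat_lit 14) (.e (nat_lit 73747) (nat_lit 3) .nil))))))) (.g (nat_lit 1) (.e (nat_lit 406976) (nat_lit 0) .nil) .nil)))) (.nd (nat_lit 9) 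
(.lf (nat_lit 594285) (.g (nat_lit 326) (.e (nat_lit 516124) (nat_lit 2) (.e (nat_lit 213030) (nat_lit 11) (.e (nat_lit 24609) (nat_lit 3) .nil))) (.g (nat_lit 0) (.e (nat_lit 406622) (nat_lit 0) .nil) .nil))) 
(.lf (nat_lit 594797) (.g (nat_lit 410) (.e (nat_lit 516139) (nat_lit 7) (.e (nat_lit 409648) (nat_lit 18) (.e (nat_lit 303119) (nat_lit 3) .nil))) (.g (nat_lit 0) (.e (nat_lit 407337) (nat_lit 0) .nil) .nil))))) (.nd (nat_lit 8) (.nd (nat_lit 9) 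
(.lf (nat_lit 594157) (.g (nat_lit 4682) (.e (nat_lit 516120) (nat_lit 1) (.e (nat_lit 164304) (nat_lit 226) (.e (nat_lit 2612) (nat_lit 163) (.e (nat_lit 163978) (nat_lit 30) (.e (nat_lit 573489) (nat_lit 14) (.e (nat_lit 73755) (nat_lit 8) (.e (nat_lit 557096) (nat_lit 13) (.e (nat_lit 172132) (nat_lit 15) (.e (nat_lit 1796) (nat_lit 119) .nil))))))))) (.g (nat_lit 1) (.e (nat_lit 406332) (nat_lit 0) .nil) .nil))) 
(.lf (nat_lit 594669) (.g (nat_lit 1626) (.e (nat_lit 516139) (nat_lit 7) (.e (nat_lit 409645) (nat_lit 18) (.e (nat_lit 303117) (nat_lit 2) (.e (nat_lit 196674) (nat_lit 15) (.e (nat_lit 81936) (nat_lit 20) .nil))))) (.g (nat_lit 0) (.e (nat_lit 407194) (nat_lit 0) .nil) .nil)))) (.nd (nat_lit 9) 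
(.lf (nat_lit 594413) (.g (nat_lit 4504) (.e (nat_lit 516129) (nat_lit 3) (.e (nat_lit 221194) (nat_lit 11) (.e (nat_lit 336011) (nat_lit 2) (.e (nat_lit 90170) (nat_lit 13) (.e (nat_lit 172120) (nat_lit 12) (.e (nat_lit 475179) (nat_lit 24) .nil)))))) (.g (nat_lit 1) (.e (nat_lit 406803) (nat_lit 0) .nil) .nil))) 
(.lf (nat_lit 594925) (.g (nat_lit 2210) (.e (nat_lit 516146) (nat_lit 9) (.e (nat_lit 426438) (nat_lit 18) (.e (nat_lit 98367) (nat_lit 27) (.e (nat_lit 434247) (nat_lit 28) (.e (nat_lit 573485) (nat_lit 13) (.e (nat_lit 73472) (nat_lit 15) (.e (nat_lit 3212) (nat_lit 195) .nil))))))) (.g (nat_lit 1) (.e (nat_lit 407503) (nat_lit 0) .nil) .nil)))))))) 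
(.nd (nat_lit 5) (.nd (nat_lit 6) (.nd (nat_lit 7) (.nd (nat_lit 8) (.nd (nat_lit 9) 
(.lf (nat_lit 593949) (.g (nat_lit 2099) (.e (nat_lit 516117) (nat_lit 1) (.e (nat_lit 164332) (nat_lit 230) (.e (nat_lit 163905) (nat_lit 12) (.e (nat_lit 426566) (nat_lit 34) (.e (nat_lit 393292) (nat_lit 26) .nil))))) (.g (nat_lit 0) (.e (nat_lit 405931) (nat_lit 0) .nil) .nil))) 
(.lf (nat_lit 594461) (.g (nat_lit 2809) (.e (nat_lit 516129) (nat_lit 3) (.e (nat_lit 221215) (nat_lit 23) (.e (nat_lit 204830) (nat_lit 18) (.e (nat_lit 57926) (nat_lit 282) (.e (nat_lit 163875) (nat_lit 3) (.e (nat_lit 204873) (nat_lit 30) (.e (nat_lit 368676) (nat_lit 21) .nil))))))) (.g (nat_lit 1) (.e (nat_lit 406864) (nat_lit 0) .nil) .nil)))) (.nd (nat_lit 9) 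
(.lf (nat_lit 594205) (.g (nat_lit 2015) (.e (nat_lit 516120) (nat_lit 1) (.e (nat_lit 164330) (nat_lit 230) (.e (nat_lit 163941) (nat_lit 19) (.e (nat_lit 483337) (nat_lit 9) (.e (nat_lit 433920) (nat_lit 12) .nil))))) (.g (nat_lit 0) (.e (nat_lit 406503) (nat_lit 0) .nil) .nil))) 
(.lf (nat_lit 594717) (.g (nat_lit 3224) (.e (nat_lit 516139) (nat_lit 7) (.e (nat_lit 409646) (nat_lit 18) (.e (nat_lit 303119) (nat_lit 3) (.e (nat_lit 204869) (nat_lit 29) (.e (nat_lit 368384) (nat_lit 3) .nil))))) (.g (nat_lit 1) (.e (nat_lit 407250) (nat_lit 0) .nil) .nil))))) (.nd (nat_lit 8) (.nd (nat_lit 9) 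
(.lf (nat_lit 594077) (.g (nat_lit 3349) (.e (nat_lit 516119) (nat_lit 1) (.e (nat_lit 164324) (nat_lit 230) (.e (nat_lit 163902) (nat_lit 12) (.e (nat_lit 426566) (nat_lit 34) (.e (nat_lit 393293) (nat_lit 26) (.e (nat_lit 475177) (nat_lit 24) .nil)))))) (.g (nat_lit 1) (.e (nat_lit 406161) (nat_lit 0) .nil) .nil))) 
(.lf (nat_lit 594589) (.g (nat_lit 1332) (.e (nat_lit 516138) (nat_lit 7) (.e (nat_lit 409646) (nat_lit 18) (.e (nat_lit 303112) (nat_lit 0) (.e (nat_lit 3258) (nat_lit 198) .nil)))) (.g (nat_lit 0) (.e (nat_lit 407090) (nat_lit 0) .nil) .nil)))) (.nd (nat_lit 9) 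
(.lf (nat_lit 594333) (.g (nat_lit 2118) (.e (nat_lit 516126) (nat_lit 2) (.e (nat_lit 213030) (nat_lit 11) (.e (nat_lit 24609) (nat_lit 3) (.e (nat_lit 98381) (nat_lit 31) (.e (nat_lit 466947) (nat_lit 0) (.e (nat_lit 1800) (nat_lit 119) .nil)))))) (.g (nat_lit 1) (.e (nat_lit 406694) (nat_lit 0) .nil) .nil))) 
(.lf (nat_lit 594845) (.g (nat_lit 3033) (.e (nat_lit 516139) (nat_lit 7) (.e (nat_lit 409649) (nat_lit 18) (.e (nat_lit 303118) (nat_lit 3) (.e (nat_lit 204855) (nat_lit 26) (.e (nat_lit 336102) (nat_lit 9) (.e (nat_lit 335922) (nat_lit 0) (.e (nat_lit 1788) (nat_lit 119) .nil))))))) (.g (nat_lit 1) (.e (nat_lit 407393) (nat_lit 0) .nil) .nil)))))) 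
(.nd (nat_lit 7) (.nd (nat_lit 8) (.nd (nat_lit 9) 
(.lf (nat_lit 594013) (.g (nat_lit 2134) (.e (nat_lit 516118) (nat_lit 1) (.e (nat_lit 164332) (nat_lit 230) (.e (nat_lit 163902) (nat_lit 12) (.e (nat_lit 426478) (nat_lit 27) .nil)))) (.g (nat_lit 0) (.e (nat_lit 406061) (nat_lit 0) .nil) .nil))) 
(.lf (nat_lit 594525) (.g (nat_lit 3320) (.e (nat_lit 516131) (nat_lit 3) (.e (nat_lit 221215) (nat_lit 23) (.e (nat_lit 204829) (nat_lit 18) (.e (nat_lit 57927) (nat_lit 282) (.e (nat_lit 163867) (nat_lit 2) (.e (nat_lit 196668) (nat_lit 14) (.e (nat_lit 73747) (nat_lit 3) .nil))))))) (.g (nat_lit 1) (.e (nat_lit 406959) (nat_lit 0) .nil) .nil)))) (.nd (nat_lit 9) 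
(.lf (nat_lit 594269) (.g (nat_lit 1390) (.e (nat_lit 516122) (nat_lit 2) (.e (nat_lit 213032) (nat_lit 11) (.e (nat_lit 24608) (nat_lit 3) (.e (nat_lit 98369) (nat_lit 28) .nil)))) (.g (nat_lit 0) (.e (nat_lit 406602) (nat_lit 0) .nil) .nil))) 
(.lf (nat_lit 594781) (.g (nat_lit 3033) (.e (nat_lit 516139) (nat_lit 7) (.e (nat_lit 409648) (nat_lit 18) (.e (nat_lit 303117) (nat_lit 2) (.e (nat_lit 196674) (nat_lit 15) (.e (nat_lit 81947) (nat_lit 20) .nil))))) (.g (nat_lit 0) (.e (nat_lit 407317) (nat_lit 0) .nil) .nil))))) (.nd (nat_lit 8) (.nd (nat_lit 9) 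
(.lf (nat_lit 594141) (.g (nat_lit 2020) (.e (nat_lit 516119) (nat_lit 1) (.e (nat_lit 164330) (nat_lit 230) (.e (nat_lit 163941) (nat_lit 19) (.e (nat_lit 483337) (nat_lit 9) .nil)))) (.g (nat_lit 0) (.e (nat_lit 406288) (nat_lit 0) .nil) .nil))) 
(.lf (nat_lit 594653) (.g (nat_lit 2827) (.e (nat_lit 516139) (nat_lit 7) (.e (nat_lit 409644) (nat_lit 18) (.e (nat_lit 303119) (nat_lit 3) (.e (nat_lit 204855) (nat_lit 26) (.e (nat_lit 336163) (nat_lit 10) .nil))))) (.g (nat_lit 0) (.e (nat_lit 407175) (nat_lit 0) .nil) .nil)))) (.nd (nat_lit 9) 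
(.lf (nat_lit 594397) (.g (nat_lit 3172) (.e (nat_lit 516127) (nat_lit 2) (.e (nat_lit 213032) (nat_lit 11) (.e (nat_lit 24607) (nat_lit 3) (.e (nat_lit 98365) (nat_lit 26) (.e (nat_lit 426306) (nat_lit 12) (.e (nat_lit 475179) (nat_lit 24) .nil)))))) (.g (nat_lit 1) (.e (nat_lit 406772) (nat_lit 0) .nil) .nil))) 
(.lf (nat_lit 594909) (.g (nat_lit 1939) (.e (nat_lit 516145) (nat_lit 9) (.e (nat_lit 426438) (nat_lit 18) (.e (nat_lit 98366) (nat_lit 27) (.e (nat_lit 434247) (nat_lit 28) (.e (nat_lit 573485) (nat_lit 13) (.e (nat_lit 65641) (nat_lit 15) (.e (nat_lit 7936) (nat_lit 195) .nil))))))) (.g (nat_lit 1) (.e (nat_lit 407486) (nat_lit 0) .nil) .nil))))))) 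
(.nd (nat_lit 6) (.nd (nat_lit 7) (.nd (nat_lit 8) (.nd (nat_lit 9) 
(.lf (nat_lit 593981) (.g (nat_lit 2044) (.e (nat_lit 516118) (nat_lit 1) (.e (nat_lit 164183) (nat_lit 154) (.e (nat_lit 57373) (nat_lit 2) (.e (nat_lit 90128) (nat_lit 9) (.e (nat_lit 2706) (nat_lit 170) .nil))))) (.g (nat_lit 0) (.e (nat_lit 405992) (nat_lit 0) .nil) .nil))) 
(.lf (nat_lit 594493) (.g (nat_lit 2474) (.e (nat_lit 516130) (nat_lit 3) (.e (nat_lit 221215) (nat_lit 23) (.e (nat_lit 204863) (nat_lit 27) (.e (nat_lit 344138) (nat_lit 29) (.e (nat_lit 581652) (nat_lit 5) (.e (nat_lit 188160) (nat_lit 3) .nil)))))) (.g (nat_lit 1) (.e (nat_lit 406902) (nat_lit 0) .nil) .nil)))) (.nd (nat_lit 9) 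
(.lf (nat_lit 594237) (.g (nat_lit 1385) (.e (nat_lit 516120) (nat_lit 1) (.e (nat_lit 164332) (nat_lit 230) (.e (nat_lit 163905) (nat_lit 12) (.e (nat_lit 426478) (nat_lit 27) .nil)))) (.g (nat_lit 0) (.e (nat_lit 406553) (nat_lit 0) .nil) .nil))) 
(.lf (nat_lit 594749) (.g (nat_lit 370) (.e (nat_lit 516139) (nat_lit 7) (.e (nat_lit 409648) (nat_lit 18) (.e (nat_lit 303116) (nat_lit 2) .nil))) (.g (nat_lit 0) (.e (nat_lit 407285) (nat_lit 0) .nil) .nil))))) (.nd (nat_lit 8) (.nd (nat_lit 9) 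
(.lf (nat_lit 594109) (.g (nat_lit 3684) (.e (nat_lit 516119) (nat_lit 1) (.e (nat_lit 164325) (nat_lit 230) (.e (nat_lit 163907) (nat_lit 12) (.e (nat_lit 426566) (nat_lit 34) (.e (nat_lit 393294) (nat_lit 26) (.e (nat_lit 475179) (nat_lit 24) .nil)))))) (.g (nat_lit 1) (.e (nat_lit 406215) (nat_lit 0) .nil) .nil))) 
(.lf (nat_lit 594621) (.g (nat_lit 2788) (.e (nat_lit 516139) (nat_lit 7) (.e (nat_lit 409616) (nat_lit 10) (.e (nat_lit 5628) (nat_lit 312) (.e (nat_lit 2668) (nat_lit 167) (.e (nat_lit 196666) (nat_lit 13) (.e (nat_lit 65617) (nat_lit 10) (.e (nat_lit 344120) (nat_lit 21) .nil))))))) (.g (nat_lit 1) (.e (nat_lit 407136) (nat_lit 0) .nil) .nil)))) (.nd (nat_lit 9) 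
(.lf (nat_lit 594365) (.g (nat_lit 2781) (.e (nat_lit 516126) (nat_lit 2) (.e (nat_lit 213032) (nat_lit 11) (.e (nat_lit 24609) (nat_lit 3) (.e (nat_lit 98365) (nat_lit 26) (.e (nat_lit 426306) (nat_lit 12) (.e (nat_lit 475177) (nat_lit 24) .nil)))))) (.g (nat_lit 1) (.e (nat_lit 406728) (nat_lit 0) .nil) .nil))) 
(.lf (nat_lit 594877) (.g (nat_lit 3424) (.e (nat_lit 516142) (nat_lit 8) (.e (nat_lit 417813) (nat_lit 9) (.e (nat_lit 311315) (nat_lit 3) (.e (nat_lit 204846) (nat_lit 24) (.e (nat_lit 319534) (nat_lit 16) (.e (nat_lit 286727) (nat_lit 0) (.e (nat_lit 1799) (nat_lit 119) .nil))))))) (.g (nat_lit 1) (.e (nat_lit 407444) (nat_lit 0) .nil) .nil)))))) 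
(.nd (nat_lit 7) (.nd (nat_lit 8) (.nd (nat_lit 9) 
(.lf (nat_lit 594045) (.g (nat_lit 2377) (.e (nat_lit 516118) (nat_lit 1) (.e (nat_lit 164332) (nat_lit 230) (.e (nat_lit 163905) (nat_lit 12) (.e (nat_lit 426512) (nat_lit 27) .nil)))) (.g (nat_lit 0) (.e (nat_lit 406096) (nat_lit 0) .nil) .nil))) 
(.lf (nat_lit 594557) (.g (nat_lit 1555) (.e (nat_lit 516138) (nat_lit 7) (.e (nat_lit 409644) (nat_lit 18) (.e (nat_lit 303119) (nat_lit 3) (.e (nat_lit 204855) (nat_lit 26) .nil)))) (.g (nat_lit 0) (.e (nat_lit 407039) (nat_lit 0) .nil) .nil)))) (.nd (nat_lit 9) 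
(.lf (nat_lit 594301) (.g (nat_lit 1731) (.e (nat_lit 516124) (nat_lit 2) (.e (nat_lit 213032) (nat_lit 11) (.e (nat_lit 24608) (nat_lit 3) (.e (nat_lit 98380) (nat_lit 31) (.e (nat_lit 466945) (nat_lit 0) (.e (nat_lit 1786) (nat_lit 119) .nil)))))) (.g (nat_lit 1) (.e (nat_lit 406643) (nat_lit 0) .nil) .nil))) 
(.lf (nat_lit 594813) (.g (nat_lit 3200) (.e (nat_lit 516139) (nat_lit 7) (.e (nat_lit 409649) (nat_lit 18) (.e (nat_lit 303116) (nat_lit 2) (.e (nat_lit 196666) (nat_lit 13) (.e (nat_lit 65596) (nat_lit 9) (.e (nat_lit 335886) (nat_lit 0) (.e (nat_lit 1788) (nat_lit 119) .nil))))))) (.g (nat_lit 1) (.e (nat_lit 407360) (nat_lit 0) .nil) .nil))))) (.nd (nat_lit 8) (.nd (nat_lit 9) 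
(.lf (nat_lit 594173) (.g (nat_lit 1873) (.e (nat_lit 516120) (nat_lit 1) (.e (nat_lit 164329) (nat_lit 230) (.e (nat_lit 163941) (nat_lit 19) (.e (nat_lit 483337) (nat_lit 9) (.e (nat_lit 426306) (nat_lit 12) .nil))))) (.g (nat_lit 0) (.e (nat_lit 406414) (nat_lit 0) .nil) .nil))) 
(.lf (nat_lit 594685) (.g (nat_lit 3070) (.e (nat_lit 516139) (nat_lit 7) (.e (nat_lit 409645) (nat_lit 18) (.e (nat_lit 303119) (nat_lit 3) (.e (nat_lit 204869) (nat_lit 29) (.e (nat_lit 368384) (nat_lit 3) .nil))))) (.g (nat_lit 1) (.e (nat_lit 407212) (nat_lit 0) .nil) .nil)))) (.nd (nat_lit 9) 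
(.lf (nat_lit 594429) (.g (nat_lit 3006) (.e (nat_lit 516129) (nat_lit 3) (.e (nat_lit 221210) (nat_lit 22) (.e (nat_lit 196666) (nat_lit 13) (.e (nat_lit 65569) (nat_lit 3) (.e (nat_lit 98325) (nat_lit 17) (.e (nat_lit 3459) (nat_lit 216) (.e (nat_lit 688171) (nat_lit 15) (.e (nat_lit 57465) (nat_lit 23) .nil)))))))) (.g (nat_lit 1) (.e (nat_lit 406831) (nat_lit 0) .nil) .nil))) 
(.lf (nat_lit 594941) (.g (nat_lit 3143) (.e (nat_lit 516147) (nat_lit 9) (.e (nat_lit 426436) (nat_lit 18) (.e (nat_lit 98384) (nat_lit 32) (.e (nat_lit 475177) (nat_lit 24) (.e (nat_lit 516179) (nat_lit 15) (.e (nat_lit 475177) (nat_lit 24) .nil)))))) (.g (nat_lit 1) (.e (nat_lit 407521) (nat_lit 0) .nil) .nil))))))))))) 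
(.nd (nat_lit 2) (.nd (nat_lit 3) (.nd (nat_lit 4) (.nd (nat_lit 5) (.nd (nat_lit 6) 
(.nd (nat_lit 7) (.nd (nat_lit 8) (.nd (nat_lit 9) 
(.lf (nat_lit 593923) (.g (nat_lit 4645) (.e (nat_lit 516117) (nat_lit 1) (.e (nat_lit 164330) (nat_lit 230) (.e (nat_lit 163902) (nat_lit 12) (.e (nat_lit 426568) (nat_lit 34) (.e (nat_lit 393294) (nat_lit 26) (.e (nat_lit 475177) (nat_lit 24) .nil)))))) (.g (nat_lit 1) (.e (nat_lit 405870) (nat_lit 0) .nil) .nil))) 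
(.lf (nat_lit 594435) (.g (nat_lit 2938) (.e (nat_lit 516129) (nat_lit 3) (.e (nat_lit 221210) (nat_lit 22) (.e (nat_lit 196666) (nat_lit 13) (.e (nat_lit 65571) (nat_lit 3) (.e (nat_lit 98325) (nat_lit 17) (.e (nat_lit 3459) (nat_lit 216) (.e (nat_lit 688171) (nat_lit 15) (.e (nat_lit 57465) (nat_lit 23) .nil)))))))) (.g (nat_lit 1) (.e (nat_lit 406837) (nat_lit 0) .nil) .nil)))) 
(.nd (nat_lit 9) 
(.lf (nat_lit 594179) (.g (nat_lit 482) (.e (nat_lit 516120) (nat_lit 1) (.e (nat_lit 164330) (nat_lit 230) (.e (nat_lit 163900) (nat_lit 12) .nil))) (.g (nat_lit 0) (.e (nat_lit 406429) (nat_lit 0) .nil) .nil))) 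
(.lf (nat_lit 594691) (.g (nat_lit 2708) (.e (nat_lit 516139) (nat_lit 7) (.e (nat_lit 409646) (nat_lit 18) (.e (nat_lit 303117) (nat_lit 2) (.e (nat_lit 196666) (nat_lit 13) (.e (nat_lit 65614) (nat_lit 10) .nil))))) (.g (nat_lit 0) (.e (nat_lit 407220) (nat_lit 0) .nil) .nil))))) (.nd (nat_lit 8) (.nd (nat_lit 9) 
(.lf (nat_lit 594051) (.g (nat_lit 1479) (.e (nat_lit 516118) (nat_lit 1) (.e (nat_lit 164332) (nat_lit 230) (.e (nat_lit 163905) (nat_lit 12) (.e (nat_lit 426568) (nat_lit 34) (.e (nat_lit 393294) (nat_lit 26) .nil))))) (.g (nat_lit 0) (.e (nat_lit 406102) (nat_lit 0) .nil) .nil))) 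
(.lf (nat_lit 594563) (.g (nat_lit 370) (.e (nat_lit 516138) (nat_lit 7) (.e (nat_lit 409645) (nat_lit 18) (.e (nat_lit 303117) (nat_lit 2) .nil))) (.g (nat_lit 0) (.e (nat_lit 407046) (nat_lit 0) .nil) .nil)))) (.nd (nat_lit 9) 
(.lf (nat_lit 594307) (.g (nat_lit 1396) (.e (nat_lit 516125) (nat_lit 2) (.e (nat_lit 213030) (nat_lit 11) (.e (nat_lit 24607) (nat_lit 3) (.e (nat_lit 98365) (nat_lit 26) .nil)))) (.g (nat_lit 0) (.e (nat_lit 406667) (nat_lit 0) .nil) .nil))) 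
(.lf (nat_lit 594819) (.g (nat_lit 3683) (.e (nat_lit 516139) (nat_lit 7) (.e (nat_lit 409649) (nat_lit 18) (.e (nat_lit 303117) (nat_lit 2) (.e (nat_lit 196666) (nat_lit 13) (.e (nat_lit 65593) (nat_lit 9) .nil))))) (.g (nat_lit 0) (.e (nat_lit 407367) (nat_lit 0) .nil) .nil)))))) (.nd (nat_lit 7) (.nd (nat_lit 8) (.nd (nat_lit 9) 
(.lf (nat_lit 593987) (.g (nat_lit 3447) (.e (nat_lit 516118) (nat_lit 1) (.e (nat_lit 164324) (nat_lit 230) (.e (nat_lit 163902) (nat_lit 12) (.e (nat_lit 426566) (nat_lit 34) (.e (nat_lit 393294) (nat_lit 26) (.e (nat_lit 475177) (nat_lit 24) .nil)))))) (.g (nat_lit 1) (.e (nat_lit 406006) (nat_lit 0) .nil) .nil))) 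
(.lf (nat_lit 594499) (.g (nat_lit 2032) (.e (nat_lit 516131) (nat_lit 3) (.e (nat_lit 221211) (nat_lit 22) (.e (nat_lit 196666) (nat_lit 13) (.e (nat_lit 65569) (nat_lit 3) (.e (nat_lit 98309) (nat_lit 0) .nil))))) (.g (nat_lit 0) (.e (nat_lit 406929) (nat_lit 0) .nil) .nil)))) (.nd (nat_lit 9) 
(.lf (nat_lit 594243) (.g (nat_lit 1805) (.e (nat_lit 516120) (nat_lit 1) (.e (nat_lit 164332) (nat_lit 230) (.e (nat_lit 163905) (nat_lit 12) (.e (nat_lit 426502) (nat_lit 27) .nil)))) (.g (nat_lit 0) (.e (nat_lit 406562) (nat_lit 0) .nil) .nil))) 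
(.lf (nat_lit 594755) (.g (nat_lit 2901) (.e (nat_lit 516139) (nat_lit 7) (.e (nat_lit 409648) (nat_lit 18) (.e (nat_lit 303116) (nat_lit 2) (.e (nat_lit 196666) (nat_lit 13) (.e (nat_lit 65611) (nat_lit 10) .nil))))) (.g (nat_lit 0) (.e (nat_lit 407291) (nat_lit 0) .nil) .nil))))) (.nd (nat_lit 8) (.nd (nat_lit 9) 
(.lf (nat_lit 594115) (.g (nat_lit 1372) (.e (nat_lit 516119) (nat_lit 1) (.e (nat_lit 164326) (nat_lit 230) (.e (nat_lit 163903) (nat_lit 12) (.e (nat_lit 426478) (nat_lit 27) .nil)))) (.g (nat_lit 0) (.e (nat_lit 406248) (nat_lit 0) .nil) .nil))) 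
(.lf (nat_lit 594627) (.g (nat_lit 2390) (.e (nat_lit 516139) (nat_lit 7) (.e (nat_lit 409623) (nat_lit 10) (.e (nat_lit 5664) (nat_lit 312) (.e (nat_lit 2679) (nat_lit 168) (.e (nat_lit 204868) (nat_lit 29) (.e (nat_lit 368384) (nat_lit 3) .nil)))))) (.g (nat_lit 1) (.e (nat_lit 407148) (nat_lit 0) .nil) .nil)))) (.nd (nat_lit 9) 
(.lf (nat_lit 594371) (.g (nat_lit 856) (.e (nat_lit 516127) (nat_lit 2) (.e (nat_lit 213030) (nat_lit 11) (.e (nat_lit 24605) (nat_lit 2) (.e (nat_lit 90176) (nat_lit 15) (.e (nat_lit 196352) (nat_lit 0) .nil))))) (.g (nat_lit 0) (.e (nat_lit 406742) (nat_lit 0) .nil) .nil))) 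
(.lf (nat_lit 594883) (.g (nat_lit 3867) (.e (nat_lit 516142) (nat_lit 8) (.e (nat_lit 417828) (nat_lit 18) (.e (nat_lit 303119) (nat_lit 3) (.e (nat_lit 204869) (nat_lit 29) (.e (nat_lit 360468) (nat_lit 3) .nil))))) (.g (nat_lit 1) (.e (nat_lit 407454) (nat_lit 0) .nil) .nil))))))) (.nd (nat_lit 6) (.nd (nat_lit 7) (.nd (nat_lit 8) (.nd (nat_lit 9) 
(.lf (nat_lit 593955) (.g (nat_lit 1712) (.e (nat_lit 516117) (nat_lit 1) (.e (nat_lit 164332) (nat_lit 230) (.e (nat_lit 163941) (nat_lit 19) (.e (nat_lit 483337) (nat_lit 9) (.e (nat_lit 433920) (nat_lit 12) .nil))))) (.g (nat_lit 0) (.e (nat_lit 405937) (nat_lit 0) .nil) .nil))) 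
(.lf (nat_lit 594467) (.g (nat_lit 2946) (.e (nat_lit 516130) (nat_lit 3) (.e (nat_lit 221211) (nat_lit 22) (.e (nat_lit 196666) (nat_lit 13) (.e (nat_lit 65566) (nat_lit 2) (.e (nat_lit 98048) (nat_lit 2) (.e (nat_lit 16388) (nat_lit 0) (.e (nat_lit 3211) (nat_lit 195) .nil))))))) (.g (nat_lit 1) (.e (nat_lit 406871) (nat_lit 0) .nil) .nil)))) (.nd (nat_lit 9) 
(.lf (nat_lit 594211) (.g (nat_lit 1391) (.e (nat_lit 516120) (nat_lit 1) (.e (nat_lit 164330) (nat_lit 230) (.e (nat_lit 163941) (nat_lit 19) (.e (nat_lit 483341) (nat_lit 9) (.e (nat_lit 426198) (nat_lit 9) .nil))))) (.g (nat_lit 0) (.e (nat_lit 406509) (nat_lit 0) .nil) .nil))) 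
(.lf (nat_lit 594723) (.g (nat_lit 2853) (.e (nat_lit 516139) (nat_lit 7) (.e (nat_lit 409647) (nat_lit 18) (.e (nat_lit 303118) (nat_lit 3) (.e (nat_lit 204852) (nat_lit 26) (.e (nat_lit 336160) (nat_lit 10) (.e (nat_lit 344119) (nat_lit 21) .nil)))))) (.g (nat_lit 1) (.e (nat_lit 407256) (nat_lit 0) .nil) .nil))))) (.nd (nat_lit 8) (.nd (nat_lit 9) 
(.lf (nat_lit 594083) (.g (nat_lit 3375) (.e (nat_lit 516119) (nat_lit 1) (.e (nat_lit 164324) (nat_lit 230) (.e (nat_lit 163905) (nat_lit 12) (.e (nat_lit 426566) (nat_lit 34) (.e (nat_lit 393296) (nat_lit 26) (.e (nat_lit 475178) (nat_lit 24) .nil)))))) (.g (nat_lit 1) (.e (nat_lit 406168) (nat_lit 0) .nil) .nil))) 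
(.lf (nat_lit 594595) (.g (nat_lit 1222) (.e (nat_lit 516138) (nat_lit 7) (.e (nat_lit 409646) (nat_lit 18) (.e (nat_lit 303117) (nat_lit 2) (.e (nat_lit 196674) (nat_lit 15) .nil)))) (.g (nat_lit 0) (.e (nat_lit 407098) (nat_lit 0) .nil) .nil)))) (.nd (nat_lit 9) 
(.lf (nat_lit 594339) (.g (nat_lit 1561) (.e (nat_lit 516126) (nat_lit 2) (.e (nat_lit 213032) (nat_lit 11) (.e (nat_lit 24604) (nat_lit 2) (.e (nat_lit 90176) (nat_lit 15) (.e (nat_lit 196352) (nat_lit 0) .nil))))) (.g (nat_lit 0) (.e (nat_lit 406700) (nat_lit 0) .nil) .nil))) 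
(.lf (nat_lit 594851) (.g (nat_lit 4126) (.e (nat_lit 516139) (nat_lit 7) (.e (nat_lit 409649) (nat_lit 18) (.e (nat_lit 303118) (nat_lit 3) (.e (nat_lit 204866) (nat_lit 28) (.e (nat_lit 352303) (nat_lit 20) (.e (nat_lit 1788) (nat_lit 119) .nil)))))) (.g (nat_lit 1) (.e (nat_lit 407404) (nat_lit 0) .nil) .nil)))))) (.nd (nat_lit 7) (.nd (nat_lit 8) (.nd (nat_lit 9) 
(.lf (nat_lit 594019) (.g (nat_lit 3632) (.e (nat_lit 516118) (nat_lit 1) (.e (nat_lit 164332) (nat_lit 230) (.e (nat_lit 163902) (nat_lit 12) (.e (nat_lit 426566) (nat_lit 34) (.e (nat_lit 393294) (nat_lit 26) (.e (nat_lit 475177) (nat_lit 24) .nil)))))) (.g (nat_lit 1) (.e (nat_lit 406068) (nat_lit 0) .nil) .nil))) 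
(.lf (nat_lit 594531) (.g (nat_lit 2898) (.e (nat_lit 516131) (nat_lit 3) (.e (nat_lit 221215) (nat_lit 23) (.e (nat_lit 204829) (nat_lit 18) (.e (nat_lit 57931) (nat_lit 282) (.e (nat_lit 163867) (nat_lit 2) (.e (nat_lit 196670) (nat_lit 14) (.e (nat_lit 73748) (nat_lit 3) .nil))))))) (.g (nat_lit 1) (.e (nat_lit 406965) (nat_lit 0) .nil) .nil)))) (.nd (nat_lit 9) 
(.lf (nat_lit 594275) (.g (nat_lit 2713) (.e (nat_lit 516122) (nat_lit 2) (.e (nat_lit 213032) (nat_lit 11) (.e (nat_lit 24608) (nat_lit 3) (.e (nat_lit 98381) (nat_lit 31) (.e (nat_lit 466947) (nat_lit 0) (.e (nat_lit 1800) (nat_lit 119) .nil)))))) (.g (nat_lit 1) (.e (nat_lit 406608) (nat_lit 0) .nil) .nil))) 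
(.lf (nat_lit 594787) (.g (nat_lit 4461) (.e (nat_lit 516139) (nat_lit 7) (.e (nat_lit 409648) (nat_lit 18) (.e (nat_lit 303118) (nat_lit 3) (.e (nat_lit 204855) (nat_lit 26) (.e (nat_lit 336173) (nat_lit 10) (.e (nat_lit 344119) (nat_lit 21) .nil)))))) (.g (nat_lit 1) (.e (nat_lit 407324) (nat_lit 0) .nil) .nil))))) (.nd (nat_lit 8) (.nd (nat_lit 9) 
(.lf (nat_lit 594147) (.g (nat_lit 1956) (.e (nat_lit 516119) (nat_lit 1) (.e (nat_lit 164403) (nat_lit 256) (.e (nat_lit 57377) (nat_lit 3) (.e (nat_lit 98376) (nat_lit 30) (.e (nat_lit 458789) (nat_lit 23) .nil))))) (.g (nat_lit 0) (.e (nat_lit 406307) (nat_lit 0) .nil) .nil))) 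
(.lf (nat_lit 594659) (.g (nat_lit 3049) (.e (nat_lit 516139) (nat_lit 7) (.e (nat_lit 409644) (nat_lit 18) (.e (nat_lit 303119) (nat_lit 3) (.e (nat_lit 204866) (nat_lit 28) (.e (nat_lit 352302) (nat_lit 20) .nil))))) (.g (nat_lit 0) (.e (nat_lit 407182) (nat_lit 0) .nil) .nil)))) (.nd (nat_lit 9) 
(.lf (nat_lit 594403) (.g (nat_lit 1157) (.e (nat_lit 516127) (nat_lit 2) (.e (nat_lit 213032) (nat_lit 11) (.e (nat_lit 24609) (nat_lit 3) (.e (nat_lit 98381) (nat_lit 31) (.e (nat_lit 466945) (nat_lit 0) (.e (nat_lit 1786) (nat_lit 119) .nil)))))) (.g (nat_lit 1) (.e (nat_lit 406779) (nat_lit 0) .nil) .nil))) 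
(.lf (nat_lit 594915) (.g (nat_lit 1911) (.e (nat_lit 516145) (nat_lit 9) (.e (nat_lit 426438) (nat_lit 18) (.e (nat_lit 98368) (nat_lit 27) (.e (nat_lit 434247) (nat_lit 28) (.e (nat_lit 573485) (nat_lit 13) (.e (nat_lit 65641) (nat_lit 15) (.e (nat_lit 7936) (nat_lit 195) .nil))))))) (.g (nat_lit 1) (.e (nat_lit 407492) (nat_lit 0) .nil) .nil)))))))) 
(.nd (nat_lit 5) (.nd (nat_lit 6) (.nd (nat_lit 7) (.nd (nat_lit 8) (.nd (nat_lit 9) 
(.lf (nat_lit 593939) (.g (nat_lit 3892) (.e (nat_lit 516117) (nat_lit 1) (.e (nat_lit 164332) (nat_lit 230) (.e (nat_lit 163902) (nat_lit 12) (.e (nat_lit 426566) (nat_lit 34) (.e (nat_lit 393294) (nat_lit 26) (.e (nat_lit 475179) (nat_lit 24) .nil)))))) (.g (nat_lit 1) (.e (nat_lit 405918) (nat_lit 0) .nil) .nil))) 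
(.lf (nat_lit 594451) (.g (nat_lit 2493) (.e (nat_lit 516129) (nat_lit 3) (.e (nat_lit 221210) (nat_lit 22) (.e (nat_lit 196670) (nat_lit 14) (.e (nat_lit 73746) (nat_lit 3) (.e (nat_lit 516105) (nat_lit 0) (.e (nat_lit 7936) (nat_lit 216) (.e (nat_lit 688170) (nat_lit 15) (.e (nat_lit 57466) (nat_lit 23) .nil)))))))) (.g (nat_lit 1) (.e (nat_lit 406853) (nat_lit 0) .nil) .nil)))) 
(.nd (nat_lit 9) 
(.lf (nat_lit 594195) (.g (nat_lit 1452) (.e (nat_lit 516120) (nat_lit 1) (.e (nat_lit 164330) (nat_lit 230) (.e (nat_lit 163905) (nat_lit 12) (.e (nat_lit 426509) (nat_lit 27) (.e (nat_lit 336412) (nat_lit 27) .nil))))) (.g (nat_lit 0) (.e (nat_lit 406450) (nat_lit 0) .nil) .nil))) 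
(.lf (nat_lit 594707) (.g (nat_lit 383) (.e (nat_lit 516139) (nat_lit 7) (.e (nat_lit 409646) (nat_lit 18) (.e (nat_lit 303118) (nat_lit 3) .nil))) (.g (nat_lit 0) (.e (nat_lit 407236) (nat_lit 0) .nil) .nil))))) (.nd (nat_lit 8) (.nd (nat_lit 9) 
(.lf (nat_lit 594067) (.g (nat_lit 2621) (.e (nat_lit 516119) (nat_lit 1) (.e (nat_lit 164179) (nat_lit 154) (.e (nat_lit 57409) (nat_lit 12) (.e (nat_lit 336454) (nat_lit 34) (.e (nat_lit 483399) (nat_lit 25) .nil))))) (.g (nat_lit 0) (.e (nat_lit 406142) (nat_lit 0) .nil) .nil))) 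
(.lf (nat_lit 594579) (.g (nat_lit 2426) (.e (nat_lit 516138) (nat_lit 7) (.e (nat_lit 409645) (nat_lit 18) (.e (nat_lit 303119) (nat_lit 3) (.e (nat_lit 204861) (nat_lit 26) (.e (nat_lit 336185) (nat_lit 11) (.e (nat_lit 368675) (nat_lit 21) .nil)))))) (.g (nat_lit 1) (.e (nat_lit 407076) (nat_lit 0) .nil) .nil)))) (.nd (nat_lit 9) 
(.lf (nat_lit 594323) (.g (nat_lit 321) (.e (nat_lit 516126) (nat_lit 2) (.e (nat_lit 213030) (nat_lit 11) (.e (nat_lit 24605) (nat_lit 2) .nil))) (.g (nat_lit 0) (.e (nat_lit 406684) (nat_lit 0) .nil) .nil))) 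
(.lf (nat_lit 594835) (.g (nat_lit 2392) (.e (nat_lit 516139) (nat_lit 7) (.e (nat_lit 409649) (nat_lit 18) (.e (nat_lit 303117) (nat_lit 2) (.e (nat_lit 196674) (nat_lit 15) (.e (nat_lit 81946) (nat_lit 20) .nil))))) (.g (nat_lit 0) (.e (nat_lit 407383) (nat_lit 0) .nil) .nil)))))) (.nd (nat_lit 7) (.nd (nat_lit 8) (.nd (nat_lit 9) 
(.lf (nat_lit 594003) (.g (nat_lit 1537) (.e (nat_lit 516118) (nat_lit 1) (.e (nat_lit 164327) (nat_lit 230) (.e (nat_lit 163903) (nat_lit 12) (.e (nat_lit 426478) (nat_lit 27) .nil)))) (.g (nat_lit 0) (.e (nat_lit 406038) (nat_lit 0) .nil) .nil))) 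
(.lf (nat_lit 594515) (.g (nat_lit 3840) (.e (nat_lit 516131) (nat_lit 3) (.e (nat_lit 221214) (nat_lit 23) (.e (nat_lit 204830) (nat_lit 18) (.e (nat_lit 57931) (nat_lit 282) (.e (nat_lit 163867) (nat_lit 2) (.e (nat_lit 196668) (nat_lit 14) (.e (nat_lit 73747) (nat_lit 3) .nil))))))) (.g (nat_lit 1) (.e (nat_lit 406946) (nat_lit 0) .nil) .nil)))) (.nd (nat_lit 9) 
(.lf (nat_lit 594259) (.g (nat_lit 2603) (.e (nat_lit 516120) (nat_lit 1) (.e (nat_lit 164403) (nat_lit 256) (.e (nat_lit 57378) (nat_lit 3) (.e (nat_lit 98366) (nat_lit 27) (.e (nat_lit 434231) (nat_lit 23) .nil))))) (.g (nat_lit 0) (.e (nat_lit 406592) (nat_lit 0) .nil) .nil))) 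
(.lf (nat_lit 594771) (.g (nat_lit 3515) (.e (nat_lit 516139) (nat_lit 7) (.e (nat_lit 409648) (nat_lit 18) (.e (nat_lit 303117) (nat_lit 2) (.e (nat_lit 196666) (nat_lit 13) (.e (nat_lit 65614) (nat_lit 10) (.e (nat_lit 344120) (nat_lit 21) .nil)))))) (.g (nat_lit 1) (.e (nat_lit 407307) (nat_lit 0) .nil) .nil))))) (.nd (nat_lit 8) (.nd (nat_lit 9) 
(.lf (nat_lit 594131) (.g (nat_lit 1848) (.e (nat_lit 516119) (nat_lit 1) (.e (nat_lit 164327) (nat_lit 230) (.e (nat_lit 163903) (nat_lit 12) (.e (nat_lit 426479) (nat_lit 27) (.e (nat_lit 336414) (nat_lit 27) .nil))))) (.g (nat_lit 0) (.e (nat_lit 406269) (nat_lit 0) .nil) .nil))) 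
(.lf (nat_lit 594643) (.g (nat_lit 2430) (.e (nat_lit 516139) (nat_lit 7) (.e (nat_lit 409644) (nat_lit 18) (.e (nat_lit 303117) (nat_lit 2) (.e (nat_lit 196670) (nat_lit 14) (.e (nat_lit 81664) (nat_lit 43) .nil))))) (.g (nat_lit 0) (.e (nat_lit 407165) (nat_lit 0) .nil) .nil)))) (.nd (nat_lit 9) 
(.lf (nat_lit 594387) (.g (nat_lit 1574) (.e (nat_lit 516127) (nat_lit 2) (.e (nat_lit 213032) (nat_lit 11) (.e (nat_lit 24604) (nat_lit 2) (.e (nat_lit 90178) (nat_lit 15) (.e (nat_lit 188418) (nat_lit 0) (.e (nat_lit 1782) (nat_lit 119) .nil)))))) (.g (nat_lit 1) (.e (nat_lit 406761) (nat_lit 0) .nil) .nil))) 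
(.lf (nat_lit 594899) (.g (nat_lit 2440) (.e (nat_lit 516145) (nat_lit 9) (.e (nat_lit 426438) (nat_lit 18) (.e (nat_lit 98366) (nat_lit 27) (.e (nat_lit 434244) (nat_lit 28) (.e (nat_lit 573480) (nat_lit 13) (.e (nat_lit 65633) (nat_lit 15) (.e (nat_lit 7936) (nat_lit 195) .nil))))))) (.g (nat_lit 1) (.e (nat_lit 407476) (nat_lit 0) .nil) .nil))))))) 
(.nd (nat_lit 6) (.nd (nat_lit 7) (.nd (nat_lit 8) (.nd (nat_lit 9) 
(.lf (nat_lit 593971) (.g (nat_lit 1285) (.e (nat_lit 516118) (nat_lit 1) (.e (nat_lit 164179) (nat_lit 154) (.e (nat_lit 57407) (nat_lit 12) (.e (nat_lit 336455) (nat_lit 34) .nil)))) (.g (nat_lit 0) (.e (nat_lit 405977) (nat_lit 0) .nil) .nil))) 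
(.lf (nat_lit 594483) (.g (nat_lit 2467) (.e (nat_lit 516130) (nat_lit 3) (.e (nat_lit 221215) (nat_lit 23) (.e (nat_lit 204829) (nat_lit 18) (.e (nat_lit 57926) (nat_lit 282) (.e (nat_lit 163869) (nat_lit 2) (.e (nat_lit 196668) (nat_lit 14) (.e (nat_lit 73747) (nat_lit 3) .nil))))))) (.g (nat_lit 1) (.e (nat_lit 406889) (nat_lit 0) .nil) .nil)))) (.nd (nat_lit 9) 
(.lf (nat_lit 594227) (.g (nat_lit 4697) (.e (nat_lit 516120) (nat_lit 1) (.e (nat_lit 164331) (nat_lit 230) (.e (nat_lit 163941) (nat_lit 19) (.e (nat_lit 483341) (nat_lit 9) (.e (nat_lit 426213) (nat_lit 9) .nil))))) (.g (nat_lit 0) (.e (nat_lit 406538) (nat_lit 0) .nil) .nil))) 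
(.lf (nat_lit 594739) (.g (nat_lit 2194) (.e (nat_lit 516139) (nat_lit 7) (.e (nat_lit 409647) (nat_lit 18) (.e (nat_lit 303119) (nat_lit 3) (.e (nat_lit 204866) (nat_lit 28) (.e (nat_lit 352301) (nat_lit 20) .nil))))) (.g (nat_lit 0) (.e (nat_lit 407275) (nat_lit 0) .nil) .nil))))) (.nd (nat_lit 8) (.nd (nat_lit 9) 
(.lf (nat_lit 594099) (.g (nat_lit 1516) (.e (nat_lit 516119) (nat_lit 1) (.e (nat_lit 164325) (nat_lit 230) (.e (nat_lit 163905) (nat_lit 12) (.e (nat_lit 426567) (nat_lit 34) .nil)))) (.g (nat_lit 0) (.e (nat_lit 406199) (nat_lit 0) .nil) .nil))) 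
(.lf (nat_lit 594611) (.g (nat_lit 2599) (.e (nat_lit 516138) (nat_lit 7) (.e (nat_lit 409648) (nat_lit 18) (.e (nat_lit 303118) (nat_lit 3) (.e (nat_lit 204855) (nat_lit 26) (.e (nat_lit 336178) (nat_lit 10) .nil))))) (.g (nat_lit 0) (.e (nat_lit 407121) (nat_lit 0) .nil) .nil)))) (.nd (nat_lit 9) 
(.lf (nat_lit 594355) (.g (nat_lit 3338) (.e (nat_lit 516126) (nat_lit 2) (.e (nat_lit 213032) (nat_lit 11) (.e (nat_lit 24607) (nat_lit 3) (.e (nat_lit 98365) (nat_lit 26) (.e (nat_lit 426306) (nat_lit 12) (.e (nat_lit 475177) (nat_lit 24) .nil)))))) (.g (nat_lit 1) (.e (nat_lit 406717) (nat_lit 0) .nil) .nil))) 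
(.lf (nat_lit 594867) (.g (nat_lit 2546) (.e (nat_lit 516139) (nat_lit 7) (.e (nat_lit 417536) (nat_lit 18) (.e (nat_lit 303119) (nat_lit 3) (.e (nat_lit 204852) (nat_lit 26) (.e (nat_lit 336160) (nat_lit 10) (.e (nat_lit 344119) (nat_lit 21) .nil)))))) (.g (nat_lit 1) (.e (nat_lit 407425) (nat_lit 0) .nil) .nil)))))) (.nd (nat_lit 7) (.nd (nat_lit 8) (.nd (nat_lit 9) 
(.lf (nat_lit 594035) (.g (nat_lit 3114) (.e (nat_lit 516118) (nat_lit 1) (.e (nat_lit 164332) (nat_lit 230) (.e (nat_lit 163905) (nat_lit 12) (.e (nat_lit 426489) (nat_lit 27) (.e (nat_lit 336407) (nat_lit 27) (.e (nat_lit 426306) (nat_lit 12) (.e (nat_lit 475177) (nat_lit 24) .nil))))))) (.g (nat_lit 1) (.e (nat_lit 406085) (nat_lit 0) .nil) .nil))) 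
(.lf (nat_lit 594547) (.g (nat_lit 3863) (.e (nat_lit 516131) (nat_lit 3) (.e (nat_lit 221215) (nat_lit 23) (.e (nat_lit 204861) (nat_lit 26) (.e (nat_lit 336004) (nat_lit 2) (.e (nat_lit 90153) (nat_lit 10) (.e (nat_lit 8541) (nat_lit 226) (.e (nat_lit 65280) (nat_lit 84) .nil))))))) (.g (nat_lit 1) (.e (nat_lit 406982) (nat_lit 0) .nil) .nil)))) (.nd (nat_lit 9) 
(.lf (nat_lit 594291) (.g (nat_lit 1861) (.e (nat_lit 516124) (nat_lit 2) (.e (nat_lit 213032) (nat_lit 11) (.e (nat_lit 24604) (nat_lit 2) (.e (nat_lit 90178) (nat_lit 15) (.e (nat_lit 196352) (nat_lit 0) .nil))))) (.g (nat_lit 0) (.e (nat_lit 406631) (nat_lit 0) .nil) .nil))) 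
(.lf (nat_lit 594803) (.g (nat_lit 4413) (.e (nat_lit 516139) (nat_lit 7) (.e (nat_lit 409648) (nat_lit 18) (.e (nat_lit 303119) (nat_lit 3) (.e (nat_lit 204869) (nat_lit 29) (.e (nat_lit 360467) (nat_lit 3) .nil))))) (.g (nat_lit 1) (.e (nat_lit 407348) (nat_lit 0) .nil) .nil))))) (.nd (nat_lit 8) (.nd (nat_lit 9) 
(.lf (nat_lit 594163) (.g (nat_lit 1196) (.e (nat_lit 516120) (nat_lit 1) (.e (nat_lit 164329) (nat_lit 230) (.e (nat_lit 163902) (nat_lit 12) (.e (nat_lit 426481) (nat_lit 27) .nil)))) (.g (nat_lit 0) (.e (nat_lit 406384) (nat_lit 0) .nil) .nil))) 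
(.lf (nat_lit 594675) (.g (nat_lit 4049) (.e (nat_lit 516139) (nat_lit 7) (.e (nat_lit 409645) (nat_lit 18) (.e (nat_lit 303117) (nat_lit 2) (.e (nat_lit 196674) (nat_lit 15) (.e (nat_lit 81947) (nat_lit 20) (.e (nat_lit 1799) (nat_lit 119) .nil)))))) (.g (nat_lit 1) (.e (nat_lit 407200) (nat_lit 0) .nil) .nil)))) (.nd (nat_lit 9) 
(.lf (nat_lit 594419) (.g (nat_lit 2903) (.e (nat_lit 516129) (nat_lit 3) (.e (nat_lit 221210) (nat_lit 22) (.e (nat_lit 196663) (nat_lit 13) (.e (nat_lit 65568) (nat_lit 2) (.e (nat_lit 98048) (nat_lit 2) (.e (nat_lit 16388) (nat_lit 0) (.e (nat_lit 3211) (nat_lit 195) .nil))))))) (.g (nat_lit 1) (.e (nat_lit 406821) (nat_lit 0) .nil) .nil))) 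
(.lf (nat_lit 594931) (.g (nat_lit 3294) (.e (nat_lit 516146) (nat_lit 9) (.e (nat_lit 426438) (nat_lit 18) (.e (nat_lit 98367) (nat_lit 27) (.e (nat_lit 434248) (nat_lit 28) (.e (nat_lit 573482) (nat_lit 13) (.e (nat_lit 73472) (nat_lit 15) (.e (nat_lit 3212) (nat_lit 195) .nil))))))) (.g (nat_lit 1) (.e (nat_lit 407509) (nat_lit 0) .nil) .nil))))))))) 
(.nd (nat_lit 4) (.nd (nat_lit 5) (.nd (nat_lit 6) (.nd (nat_lit 7) (.nd (nat_lit 8) 
(.nd (nat_lit 9) 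
(.lf (nat_lit 593931) (.g (nat_lit 1113) (.e (nat_lit 516117) (nat_lit 1) (.e (nat_lit 164330) (nat_lit 230) (.e (nat_lit 163941) (nat_lit 19) (.e (nat_lit 483341) (nat_lit 9) .nil)))) (.g (nat_lit 0) (.e (nat_lit 405899) (nat_lit 0) .nil) .nil))) 
(.lf (nat_lit 594443) (.g (nat_lit 2884) (.e (nat_lit 516129) (nat_lit 3) (.e (nat_lit 221210) (nat_lit 22) (.e (nat_lit 196668) (nat_lit 14) (.e (nat_lit 73747) (nat_lit 3) (.e (nat_lit 516100) (nat_lit 0) (.e (nat_lit 7936) (nat_lit 216) (.e (nat_lit 688170) (nat_lit 15) (.e (nat_lit 57466) (nat_lit 23) .nil)))))))) (.g (nat_lit 1) (.e (nat_lit 406845) (nat_lit 0) .nil) .nil)))) 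
(.nd (nat_lit 9) 
(.lf (nat_lit 594187) (.g (nat_lit 1833) (.e (nat_lit 516120) (nat_lit 1) (.e (nat_lit 164330) (nat_lit 230) (.e (nat_lit 163902) (nat_lit 12) (.e (nat_lit 426558) (nat_lit 33) .nil)))) (.g (nat_lit 0) (.e (nat_lit 406441) (nat_lit 0) .nil) .nil))) 
(.lf (nat_lit 594699) (.g (nat_lit 3425) (.e (nat_lit 516139) (nat_lit 7) (.e (nat_lit 409646) (nat_lit 18) (.e (nat_lit 303117) (nat_lit 2) (.e (nat_lit 196674) (nat_lit 15) (.e (nat_lit 81936) (nat_lit 20) (.e (nat_lit 1795) (nat_lit 119) .nil)))))) (.g (nat_lit 1) (.e (nat_lit 407228) (nat_lit 0) .nil) .nil))))) (.nd (nat_lit 8) (.nd (nat_lit 9) 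
(.lf (nat_lit 594059) (.g (nat_lit 1324) (.e (nat_lit 516119) (nat_lit 1) (.e (nat_lit 164179) (nat_lit 154) (.e (nat_lit 57375) (nat_lit 2) (.e (nat_lit 90181) (nat_lit 16) .nil)))) (.g (nat_lit 0) (.e (nat_lit 406132) (nat_lit 0) .nil) .nil))) 
(.lf (nat_lit 594571) (.g (nat_lit 3536) (.e (nat_lit 516138) (nat_lit 7) (.e (nat_lit 409645) (nat_lit 18) (.e (nat_lit 303117) (nat_lit 2) (.e (nat_lit 196674) (nat_lit 15) (.e (nat_lit 81936) (nat_lit 20) (.e (nat_lit 1807) (nat_lit 119) .nil)))))) (.g (nat_lit 1) (.e (nat_lit 407060) (nat_lit 0) .nil) .nil)))) (.nd (nat_lit 9) 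
(.lf (nat_lit 594315) (.g (nat_lit 1302) (.e (nat_lit 516125) (nat_lit 2) (.e (nat_lit 213032) (nat_lit 11) (.e (nat_lit 24608) (nat_lit 3) (.e (nat_lit 98365) (nat_lit 26) .nil)))) (.g (nat_lit 0) (.e (nat_lit 406675) (nat_lit 0) .nil) .nil))) 
(.lf (nat_lit 594827) (.g (nat_lit 3518) (.e (nat_lit 516139) (nat_lit 7) (.e (nat_lit 409649) (nat_lit 18) (.e (nat_lit 303117) (nat_lit 2) (.e (nat_lit 196666) (nat_lit 13) (.e (nat_lit 65617) (nat_lit 10) (.e (nat_lit 344119) (nat_lit 21) .nil)))))) (.g (nat_lit 1) (.e (nat_lit 407375) (nat_lit 0) .nil) .nil)))))) (.nd (nat_lit 7) (.nd (nat_lit 8) (.nd (nat_lit 9) 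
(.lf (nat_lit 593995) (.g (nat_lit 3497) (.e (nat_lit 516118) (nat_lit 1) (.e (nat_lit 164325) (nat_lit 230) (.e (nat_lit 163903) (nat_lit 12) (.e (nat_lit 426566) (nat_lit 34) (.e (nat_lit 393291) (nat_lit 26) (.e (nat_lit 475177) (nat_lit 24) .nil)))))) (.g (nat_lit 1) (.e (nat_lit 406022) (nat_lit 0) .nil) .nil))) 
(.lf (nat_lit 594507) (.g (nat_lit 3407) (.e (nat_lit 516131) (nat_lit 3) (.e (nat_lit 221214) (nat_lit 23) (.e (nat_lit 204829) (nat_lit 18) (.e (nat_lit 57926) (nat_lit 282) (.e (nat_lit 163868) (nat_lit 2) (.e (nat_lit 196668) (nat_lit 14) (.e (nat_lit 73746) (nat_lit 3) .nil))))))) (.g (nat_lit 1) (.e (nat_lit 406938) (nat_lit 0) .nil) .nil)))) (.nd (nat_lit 9) 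
(.lf (nat_lit 594251) (.g (nat_lit 1384) (.e (nat_lit 516120) (nat_lit 1) (.e (nat_lit 164332) (nat_lit 230) (.e (nat_lit 163941) (nat_lit 19) (.e (nat_lit 483336) (nat_lit 9) .nil)))) (.g (nat_lit 0) (.e (nat_lit 406573) (nat_lit 0) .nil) .nil))) 
(.lf (nat_lit 594763) (.g (nat_lit 1571) (.e (nat_lit 516139) (nat_lit 7) (.e (nat_lit 409648) (nat_lit 18) (.e (nat_lit 303117) (nat_lit 2) (.e (nat_lit 196665) (nat_lit 13) .nil)))) (.g (nat_lit 0) (.e (nat_lit 407299) (nat_lit 0) .nil) .nil))))) (.nd (nat_lit 8) (.nd (nat_lit 9) 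
(.lf (nat_lit 594123) (.g (nat_lit 2543) (.e (nat_lit 516119) (nat_lit 1) (.e (nat_lit 164326) (nat_lit 230) (.e (nat_lit 163903) (nat_lit 12) (.e (nat_lit 426568) (nat_lit 34) (.e (nat_lit 393291) (nat_lit 26) (.e (nat_lit 475175) (nat_lit 24) .nil)))))) (.g (nat_lit 1) (.e (nat_lit 406257) (nat_lit 0) .nil) .nil))) 
(.lf (nat_lit 594635) (.g (nat_lit 1653) (.e (nat_lit 516139) (nat_lit 7) (.e (nat_lit 409643) (nat_lit 18) (.e (nat_lit 303119) (nat_lit 3) (.e (nat_lit 204859) (nat_lit 26) (.e (nat_lit 336118) (nat_lit 9) .nil))))) (.g (nat_lit 0) (.e (nat_lit 407157) (nat_lit 0) .nil) .nil)))) (.nd (nat_lit 9) 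
(.lf (nat_lit 594379) (.g (nat_lit 1595) (.e (nat_lit 516127) (nat_lit 2) (.e (nat_lit 213031) (nat_lit 11) (.e (nat_lit 24608) (nat_lit 3) (.e (nat_lit 98365) (nat_lit 26) (.e (nat_lit 426306) (nat_lit 12) .nil))))) (.g (nat_lit 0) (.e (nat_lit 406753) (nat_lit 0) .nil) .nil))) 
(.lf (nat_lit 594891) (.g (nat_lit 603) (.e (nat_lit 516144) (nat_lit 9) (.e (nat_lit 426436) (nat_lit 18) (.e (nat_lit 98356) (nat_lit 26) .nil))) (.g (nat_lit 0) (.e (nat_lit 407465) (nat_lit 0) .nil) .nil))))))) (.nd (nat_lit 6) (.nd (nat_lit 7) (.nd (nat_lit 8) (.nd (nat_lit 9) 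
(.lf (nat_lit 593963) (.g (nat_lit 1373) (.e (nat_lit 516117) (nat_lit 1) (.e (nat_lit 164398) (nat_lit 256) (.e (nat_lit 57379) (nat_lit 3) (.e (nat_lit 98366) (nat_lit 27) .nil)))) (.g (nat_lit 0) (.e (nat_lit 405954) (nat_lit 0) .nil) .nil))) 
(.lf (nat_lit 594475) (.g (nat_lit 1336) (.e (nat_lit 516130) (nat_lit 3) (.e (nat_lit 221212) (nat_lit 22) (.e (nat_lit 196664) (nat_lit 13) (.e (nat_lit 65568) (nat_lit 2) (.e (nat_lit 98048) (nat_lit 2) (.e (nat_lit 16388) (nat_lit 0) (.e (nat_lit 3211) (nat_lit 195) .nil))))))) (.g (nat_lit 1) (.e (nat_lit 406880) (nat_lit 0) .nil) .nil)))) (.nd (nat_lit 9) 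
(.lf (nat_lit 594219) (.g (nat_lit 3654) (.e (nat_lit 516120) (nat_lit 1) (.e (nat_lit 164331) (nat_lit 230) (.e (nat_lit 163902) (nat_lit 12) (.e (nat_lit 426566) (nat_lit 34) (.e (nat_lit 393290) (nat_lit 26) (.e (nat_lit 475179) (nat_lit 24) .nil)))))) (.g (nat_lit 1) (.e (nat_lit 406525) (nat_lit 0) .nil) .nil))) 
(.lf (nat_lit 594731) (.g (nat_lit 3070) (.e (nat_lit 516139) (nat_lit 7) (.e (nat_lit 409647) (nat_lit 18) (.e (nat_lit 303118) (nat_lit 3) (.e (nat_lit 204866) (nat_lit 28) (.e (nat_lit 352302) (nat_lit 20) (.e (nat_lit 1788) (nat_lit 119) .nil)))))) (.g (nat_lit 1) (.e (nat_lit 407265) (nat_lit 0) .nil) .nil))))) (.nd (nat_lit 8) (.nd (nat_lit 9) 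
(.lf (nat_lit 594091) (.g (nat_lit 1078) (.e (nat_lit 516119) (nat_lit 1) (.e (nat_lit 164325) (nat_lit 230) (.e (nat_lit 163903) (nat_lit 12) (.e (nat_lit 426479) (nat_lit 27) .nil)))) (.g (nat_lit 0) (.e (nat_lit 406188) (nat_lit 0) .nil) .nil))) 
(.lf (nat_lit 594603) (.g (nat_lit 227) (.e (nat_lit 516138) (nat_lit 7) (.e (nat_lit 409646) (nat_lit 18) (.e (nat_lit 303119) (nat_lit 3) .nil))) (.g (nat_lit 0) (.e (nat_lit 407106) (nat_lit 0) .nil) .nil)))) (.nd (nat_lit 9) 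
(.lf (nat_lit 594347) (.g (nat_lit 2924) (.e (nat_lit 516126) (nat_lit 2) (.e (nat_lit 213032) (nat_lit 11) (.e (nat_lit 24605) (nat_lit 2) (.e (nat_lit 90169) (nat_lit 13) (.e (nat_lit 172119) (nat_lit 12) (.e (nat_lit 475179) (nat_lit 24) .nil)))))) (.g (nat_lit 1) (.e (nat_lit 406708) (nat_lit 0) .nil) .nil))) 
(.lf (nat_lit 594859) (.g (nat_lit 3055) (.e (nat_lit 516139) (nat_lit 7) (.e (nat_lit 409649) (nat_lit 18) (.e (nat_lit 303119) (nat_lit 3) (.e (nat_lit 204855) (nat_lit 26) (.e (nat_lit 336169) (nat_lit 10) (.e (nat_lit 344119) (nat_lit 21) .nil)))))) (.g (nat_lit 1) (.e (nat_lit 407412) (nat_lit 0) .nil) .nil)))))) (.nd (nat_lit 7) (.nd (nat_lit 8) (.nd (nat_lit 9) 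
(.lf (nat_lit 594027) (.g (nat_lit 2342) (.e (nat_lit 516118) (nat_lit 1) (.e (nat_lit 164332) (nat_lit 230) (.e (nat_lit 163905) (nat_lit 12) (.e (nat_lit 426480) (nat_lit 27) .nil)))) (.g (nat_lit 0) (.e (nat_lit 406076) (nat_lit 0) .nil) .nil))) 
(.lf (nat_lit 594539) (.g (nat_lit 4149) (.e (nat_lit 516131) (nat_lit 3) (.e (nat_lit 221215) (nat_lit 23) (.e (nat_lit 204830) (nat_lit 18) (.e (nat_lit 57928) (nat_lit 282) (.e (nat_lit 163868) (nat_lit 2) (.e (nat_lit 196668) (nat_lit 14) (.e (nat_lit 73747) (nat_lit 3) .nil))))))) (.g (nat_lit 1) (.e (nat_lit 406974) (nat_lit 0) .nil) .nil)))) (.nd (nat_lit 9) 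
(.lf (nat_lit 594283) (.g (nat_lit 1713) (.e (nat_lit 516124) (nat_lit 2) (.e (nat_lit 213030) (nat_lit 11) (.e (nat_lit 24607) (nat_lit 3) (.e (nat_lit 98363) (nat_lit 26) .nil)))) (.g (nat_lit 0) (.e (nat_lit 406620) (nat_lit 0) .nil) .nil))) 
(.lf (nat_lit 594795) (.g (nat_lit 4492) (.e (nat_lit 516139) (nat_lit 7) (.e (nat_lit 409648) (nat_lit 18) (.e (nat_lit 303118) (nat_lit 3) (.e (nat_lit 204869) (nat_lit 29) (.e (nat_lit 360467) (nat_lit 3) .nil))))) (.g (nat_lit 1) (.e (nat_lit 407335) (nat_lit 0) .nil) .nil))))) (.nd (nat_lit 8) (.nd (nat_lit 9) 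
(.lf (nat_lit 594155) (.g (nat_lit 897) (.e (nat_lit 516120) (nat_lit 1) (.e (nat_lit 164183) (nat_lit 154) (.e (nat_lit 57411) (nat_lit 12) (.e (nat_lit 336454) (nat_lit 34) .nil)))) (.g (nat_lit 0) (.e (nat_lit 406327) (nat_lit 0) .nil) .nil))) 
(.lf (nat_lit 594667) (.g (nat_lit 5148) (.e (nat_lit 516139) (nat_lit 7) (.e (nat_lit 409645) (nat_lit 18) (.e (nat_lit 303117) (nat_lit 2) (.e (nat_lit 196666) (nat_lit 13) (.e (nat_lit 65610) (nat_lit 10) (.e (nat_lit 344117) (nat_lit 21) .nil)))))) (.g (nat_lit 1) (.e (nat_lit 407192) (nat_lit 0) .nil) .nil)))) (.nd (nat_lit 9) 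
(.lf (nat_lit 594411) (.g (nat_lit 2033) (.e (nat_lit 516129) (nat_lit 3) (.e (nat_lit 221194) (nat_lit 11) (.e (nat_lit 336002) (nat_lit 2) (.e (nat_lit 90185) (nat_lit 17) (.e (nat_lit 237618) (nat_lit 12) .nil))))) (.g (nat_lit 0) (.e (nat_lit 406801) (nat_lit 0) .nil) .nil))) 
(.lf (nat_lit 594923) (.g (nat_lit 2449) (.e (nat_lit 516146) (nat_lit 9) (.e (nat_lit 426438) (nat_lit 18) (.e (nat_lit 98366) (nat_lit 27) (.e (nat_lit 434247) (nat_lit 28) (.e (nat_lit 573484) (nat_lit 13) (.e (nat_lit 73472) (nat_lit 15) (.e (nat_lit 3213) (nat_lit 195) .nil))))))) (.g (nat_lit 1) (.e (nat_lit 407501) (nat_lit 0) .nil) .nil)))))))) 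
(.nd (nat_lit 5) (.nd (nat_lit 6) (.nd (nat_lit 7) (.nd (nat_lit 8) (.nd (nat_lit 9) 
(.lf (nat_lit 593947) (.g (nat_lit 1579) (.e (nat_lit 516117) (nat_lit 1) (.e (nat_lit 164332) (nat_lit 230) (.e (nat_lit 163905) (nat_lit 12) (.e (nat_lit 426509) (nat_lit 27) .nil)))) (.g (nat_lit 0) (.e (nat_lit 405928) (nat_lit 0) .nil) .nil))) 
(.lf (nat_lit 594459) (.g (nat_lit 2979) (.e (nat_lit 516129) (nat_lit 3) (.e (nat_lit 221215) (nat_lit 23) (.e (nat_lit 204830) (nat_lit 18) (.e (nat_lit 57926) (nat_lit 282) (.e (nat_lit 163866) (nat_lit 2) (.e (nat_lit 196668) (nat_lit 14) (.e (nat_lit 73747) (nat_lit 3) .nil))))))) (.g (nat_lit 1) (.e (nat_lit 406862) (nat_lit 0) .nil) .nil)))) (.nd (nat_lit 9) 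
(.lf (nat_lit 594203) (.g (nat_lit 2339) (.e (nat_lit 516120) (nat_lit 1) (.e (nat_lit 164330) (nat_lit 230) (.e (nat_lit 163941) (nat_lit 19) (.e (nat_lit 483337) (nat_lit 9) (.e (nat_lit 426204) (nat_lit 9) .nil))))) (.g (nat_lit 0) (.e (nat_lit 406500) (nat_lit 0) .nil) .nil))) 
(.lf (nat_lit 594715) (.g (nat_lit 2954) (.e (nat_lit 516139) (nat_lit 7) (.e (nat_lit 409646) (nat_lit 18) (.e (nat_lit 303119) (nat_lit 3) (.e (nat_lit 204868) (nat_lit 29) (.e (nat_lit 360467) (nat_lit 3) .nil))))) (.g (nat_lit 1) (.e (nat_lit 407248) (nat_lit 0) .nil) .nil))))) (.nd (nat_lit 8) (.nd (nat_lit 9) 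
(.lf (nat_lit 594075) (.g (nat_lit 2271) (.e (nat_lit 516119) (nat_lit 1) (.e (nat_lit 164322) (nat_lit 230) (.e (nat_lit 163902) (nat_lit 12) (.e (nat_lit 426568) (nat_lit 34) (.e (nat_lit 401152) (nat_lit 26) .nil))))) (.g (nat_lit 0) (.e (nat_lit 406156) (nat_lit 0) .nil) .nil))) 
(.lf (nat_lit 594587) (.g (nat_lit 2235) (.e (nat_lit 516138) (nat_lit 7) (.e (nat_lit 409645) (nat_lit 18) (.e (nat_lit 303119) (nat_lit 3) (.e (nat_lit 204870) (nat_lit 29) (.e (nat_lit 368384) (nat_lit 3) .nil))))) (.g (nat_lit 1) (.e (nat_lit 407087) (nat_lit 0) .nil) .nil)))) (.nd (nat_lit 9) 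
(.lf (nat_lit 594331) (.g (nat_lit 2060) (.e (nat_lit 516126) (nat_lit 2) (.e (nat_lit 213030) (nat_lit 11) (.e (nat_lit 24609) (nat_lit 3) (.e (nat_lit 98380) (nat_lit 31) (.e (nat_lit 466947) (nat_lit 0) (.e (nat_lit 1800) (nat_lit 119) .nil)))))) (.g (nat_lit 1) (.e (nat_lit 406692) (nat_lit 0) .nil) .nil))) 
(.lf (nat_lit 594843) (.g (nat_lit 3639) (.e (nat_lit 516139) (nat_lit 7) (.e (nat_lit 409649) (nat_lit 18) (.e (nat_lit 303118) (nat_lit 3) (.e (nat_lit 204852) (nat_lit 26) (.e (nat_lit 336160) (nat_lit 10) (.e (nat_lit 344119) (nat_lit 21) .nil)))))) (.g (nat_lit 1) (.e (nat_lit 407391) (nat_lit 0) .nil) .nil)))))) (.nd (nat_lit 7) (.nd (nat_lit 8) (.nd (nat_lit 9) 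
(.lf (nat_lit 594011) (.g (nat_lit 3452) (.e (nat_lit 516118) (nat_lit 1) (.e (nat_lit 164327) (nat_lit 230) (.e (nat_lit 163907) (nat_lit 12) (.e (nat_lit 426566) (nat_lit 34) (.e (nat_lit 393294) (nat_lit 26) (.e (nat_lit 475177) (nat_lit 24) .nil)))))) (.g (nat_lit 1) (.e (nat_lit 406046) (nat_lit 0) .nil) .nil))) 
(.lf (nat_lit 594523) (.g (nat_lit 3857) (.e (nat_lit 516131) (nat_lit 3) (.e (nat_lit 221215) (nat_lit 23) (.e (nat_lit 204829) (nat_lit 18) (.e (nat_lit 57926) (nat_lit 282) (.e (nat_lit 163871) (nat_lit 2) (.e (nat_lit 196668) (nat_lit 14) (.e (nat_lit 73747) (nat_lit 3) .nil))))))) (.g (nat_lit 1) (.e (nat_lit 406957) (nat_lit 0) .nil) .nil)))) (.nd (nat_lit 9) 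
(.lf (nat_lit 594267) (.g (nat_lit 2146) (.e (nat_lit 516122) (nat_lit 2) (.e (nat_lit 213032) (nat_lit 11) (.e (nat_lit 24607) (nat_lit 3) (.e (nat_lit 98363) (nat_lit 26) .nil)))) (.g (nat_lit 0) (.e (nat_lit 406600) (nat_lit 0) .nil) .nil))) 
(.lf (nat_lit 594779) (.g (nat_lit 1453) (.e (nat_lit 516139) (nat_lit 7) (.e (nat_lit 409648) (nat_lit 18) (.e (nat_lit 303117) (nat_lit 2) (.e (nat_lit 196674) (nat_lit 15) .nil)))) (.g (nat_lit 0) (.e (nat_lit 407315) (nat_lit 0) .nil) .nil))))) (.nd (nat_lit 8) (.nd (nat_lit 9) 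
(.lf (nat_lit 594139) (.g (nat_lit 1900) (.e (nat_lit 516119) (nat_lit 1) (.e (nat_lit 164327) (nat_lit 230) (.e (nat_lit 163905) (nat_lit 12) (.e (nat_lit 426566) (nat_lit 34) .nil)))) (.g (nat_lit 0) (.e (nat_lit 406278) (nat_lit 0) .nil) .nil))) 
(.lf (nat_lit 594651) (.g (nat_lit 1556) (.e (nat_lit 516139) (nat_lit 7) (.e (nat_lit 409644) (nat_lit 18) (.e (nat_lit 303119) (nat_lit 3) (.e (nat_lit 204855) (nat_lit 26) .nil)))) (.g (nat_lit 0) (.e (nat_lit 407173) (nat_lit 0) .nil) .nil)))) (.nd (nat_lit 9) 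
(.lf (nat_lit 594395) (.g (nat_lit 1994) (.e (nat_lit 516127) (nat_lit 2) (.e (nat_lit 213032) (nat_lit 11) (.e (nat_lit 24607) (nat_lit 3) (.e (nat_lit 98363) (nat_lit 26) (.e (nat_lit 426318) (nat_lit 12) .nil))))) (.g (nat_lit 0) (.e (nat_lit 406770) (nat_lit 0) .nil) .nil))) 
(.lf (nat_lit 594907) (.g (nat_lit 1925) (.e (nat_lit 516145) (nat_lit 9) (.e (nat_lit 426438) (nat_lit 18) (.e (nat_lit 98366) (nat_lit 27) (.e (nat_lit 434247) (nat_lit 28) (.e (nat_lit 573485) (nat_lit 13) (.e (nat_lit 65638) (nat_lit 15) (.e (nat_lit 7936) (nat_lit 195) .nil))))))) (.g (nat_lit 1) (.e (nat_lit 407484) (nat_lit 0) .nil) .nil))))))) 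
(.nd (nat_lit 6) (.nd (nat_lit 7) (.nd (nat_lit 8) (.nd (nat_lit 9) 
(.lf (nat_lit 593979) (.g (nat_lit 2979) (.e (nat_lit 516118) (nat_lit 1) (.e (nat_lit 164182) (nat_lit 154) (.e (nat_lit 57379) (nat_lit 3) (.e (nat_lit 98342) (nat_lit 20) (.e (nat_lit 221210) (nat_lit 22) (.e (nat_lit 196670) (nat_lit 14) (.e (nat_lit 73746) (nat_lit 3) .nil))))))) (.g (nat_lit 1) (.e (nat_lit 405987) (nat_lit 0) .nil) .nil))) 
(.lf (nat_lit 594491) (.g (nat_lit 1748) (.e (nat_lit 516130) (nat_lit 3) (.e (nat_lit 221215) (nat_lit 23) (.e (nat_lit 204862) (nat_lit 27) (.e (nat_lit 344117) (nat_lit 21) (.e (nat_lit 516191) (nat_lit 17) .nil))))) (.g (nat_lit 0) (.e (nat_lit 406899) (nat_lit 0) .nil) .nil)))) (.nd (nat_lit 9) 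
(.lf (nat_lit 594235) (.g (nat_lit 1934) (.e (nat_lit 516120) (nat_lit 1) (.e (nat_lit 164332) (nat_lit 230) (.e (nat_lit 163902) (nat_lit 12) (.e (nat_lit 426568) (nat_lit 34) (.e (nat_lit 401152) (nat_lit 26) (.e (nat_lit 475179) (nat_lit 24) .nil)))))) (.g (nat_lit 1) (.e (nat_lit 406551) (nat_lit 0) .nil) .nil))) 
(.lf (nat_lit 594747) (.g (nat_lit 1425) (.e (nat_lit 516139) (nat_lit 7) (.e (nat_lit 409648) (nat_lit 18) (.e (nat_lit 303112) (nat_lit 0) (.e (nat_lit 3252) (nat_lit 197) .nil)))) (.g (nat_lit 0) (.e (nat_lit 407283) (nat_lit 0) .nil) .nil))))) (.nd (nat_lit 8) (.nd (nat_lit 9) 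
(.lf (nat_lit 594107) (.g (nat_lit 3339) (.e (nat_lit 516119) (nat_lit 1) (.e (nat_lit 164325) (nat_lit 230) (.e (nat_lit 163907) (nat_lit 12) (.e (nat_lit 426566) (nat_lit 34) (.e (nat_lit 393293) (nat_lit 26) (.e (nat_lit 475179) (nat_lit 24) .nil)))))) (.g (nat_lit 1) (.e (nat_lit 406213) (nat_lit 0) .nil) .nil))) 
(.lf (nat_lit 594619) (.g (nat_lit 785) (.e (nat_lit 516139) (nat_lit 7) (.e (nat_lit 409616) (nat_lit 10) (.e (nat_lit 5613) (nat_lit 312) .nil))) (.g (nat_lit 0) (.e (nat_lit 407133) (nat_lit 0) .nil) .nil)))) (.nd (nat_lit 9) 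
(.lf (nat_lit 594363) (.g (nat_lit 1378) (.e (nat_lit 516126) (nat_lit 2) (.e (nat_lit 213032) (nat_lit 11) (.e (nat_lit 24608) (nat_lit 3) (.e (nat_lit 98381) (nat_lit 31) (.e (nat_lit 466945) (nat_lit 0) .nil))))) (.g (nat_lit 0) (.e (nat_lit 406726) (nat_lit 0) .nil) .nil))) 
(.lf (nat_lit 594875) (.g (nat_lit 1662) (.e (nat_lit 516142) (nat_lit 8) (.e (nat_lit 417813) (nat_lit 9) (.e (nat_lit 311315) (nat_lit 3) (.e (nat_lit 204846) (nat_lit 24) (.e (nat_lit 319528) (nat_lit 16) (.e (nat_lit 286727) (nat_lit 0) (.e (nat_lit 1799) (nat_lit 119) .nil))))))) (.g (nat_lit 1) (.e (nat_lit 407442) (nat_lit 0) .nil) .nil)))))) 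
(.nd (nat_lit 7) (.nd (nat_lit 8) (.nd (nat_lit 9) 
(.lf (nat_lit 594043) (.g (nat_lit 2377) (.e (nat_lit 516118) (nat_lit 1) (.e (nat_lit 164332) (nat_lit 230) (.e (nat_lit 163905) (nat_lit 12) (.e (nat_lit 426511) (nat_lit 27) .nil)))) (.g (nat_lit 0) (.e (nat_lit 406093) (nat_lit 0) .nil) .nil))) 
(.lf (nat_lit 594555) (.g (nat_lit 1234) (.e (nat_lit 516138) (nat_lit 7) (.e (nat_lit 409644) (nat_lit 18) (.e (nat_lit 303117) (nat_lit 2) (.e (nat_lit 196674) (nat_lit 15) .nil)))) (.g (nat_lit 0) (.e (nat_lit 407037) (nat_lit 0) .nil) .nil)))) (.nd (nat_lit 9) 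
(.lf (nat_lit 594299) (.g (nat_lit 2194) (.e (nat_lit 516124) (nat_lit 2) (.e (nat_lit 213032) (nat_lit 11) (.e (nat_lit 24608) (nat_lit 3) (.e (nat_lit 98365) (nat_lit 26) (.e (nat_lit 426307) (nat_lit 12) .nil))))) (.g (nat_lit 0) (.e (nat_lit 406641) (nat_lit 0) .nil) .nil))) 
(.lf (nat_lit 594811) (.g (nat_lit 2748) (.e (nat_lit 516139) (nat_lit 7) (.e (nat_lit 409649) (nat_lit 18) (.e (nat_lit 303116) (nat_lit 2) (.e (nat_lit 196666) (nat_lit 13) (.e (nat_lit 65592) (nat_lit 9) .nil))))) (.g (nat_lit 0) (.e (nat_lit 407358) (nat_lit 0) .nil) .nil))))) (.nd (nat_lit 8) (.nd (nat_lit 9) 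
(.lf (nat_lit 594171) (.g (nat_lit 1693) (.e (nat_lit 516120) (nat_lit 1) (.e (nat_lit 164329) (nat_lit 230) (.e (nat_lit 163902) (nat_lit 12) (.e (nat_lit 426568) (nat_lit 34) (.e (nat_lit 401152) (nat_lit 26) (.e (nat_lit 475178) (nat_lit 24) .nil)))))) (.g (nat_lit 1) (.e (nat_lit 406396) (nat_lit 0) .nil) .nil))) 
(.lf (nat_lit 594683) (.g (nat_lit 3993) (.e (nat_lit 516139) (nat_lit 7) (.e (nat_lit 409645) (nat_lit 18) (.e (nat_lit 303119) (nat_lit 3) (.e (nat_lit 204869) (nat_lit 29) (.e (nat_lit 360465) (nat_lit 3) .nil))))) (.g (nat_lit 1) (.e (nat_lit 407210) (nat_lit 0) .nil) .nil)))) (.nd (nat_lit 9) 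
(.lf (nat_lit 594427) (.g (nat_lit 3418) (.e (nat_lit 516129) (nat_lit 3) (.e (nat_lit 221210) (nat_lit 22) (.e (nat_lit 196666) (nat_lit 13) (.e (nat_lit 65568) (nat_lit 2) (.e (nat_lit 98048) (nat_lit 2) (.e (nat_lit 16388) (nat_lit 0) (.e (nat_lit 3213) (nat_lit 195) .nil))))))) (.g (nat_lit 1) (.e (nat_lit 406829) (nat_lit 0) .nil) .nil))) 
(.lf (nat_lit 594939) (.g (nat_lit 4055) (.e (nat_lit 516147) (nat_lit 9) (.e (nat_lit 426436) (nat_lit 18) (.e (nat_lit 98335) (nat_lit 18) (.e (nat_lit 164332) (nat_lit 230) .nil)))) (.g (nat_lit 0) (.e (nat_lit 407519) (nat_lit 0) .nil) .nil)))))))))) (.nd (nat_lit 3) (.nd (nat_lit 4) (.nd (nat_lit 5) (.nd (nat_lit 6) (.nd (nat_lit 7) (.nd (nat_lit 8) (.nd (nat_lit 9) 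
(.lf (nat_lit 593927) (.g (nat_lit 3749) (.e (nat_lit 516117) (nat_lit 1) (.e (nat_lit 164330) (nat_lit 230) (.e (nat_lit 163905) (nat_lit 12) (.e (nat_lit 426566) (nat_lit 34) (.e (nat_lit 393294) (nat_lit 26) (.e (nat_lit 475177) (nat_lit 24) .nil)))))) (.g (nat_lit 1) (.e (nat_lit 405874) (nat_lit 0) .nil) .nil))) 
(.lf (nat_lit 594439) (.g (nat_lit 2551) (.e (nat_lit 516129) (nat_lit 3) (.e (nat_lit 221210) (nat_lit 22) (.e (nat_lit 196668) (nat_lit 14) (.e (nat_lit 73746) (nat_lit 3) (.e (nat_lit 516100) (nat_lit 0) (.e (nat_lit 3460) (nat_lit 216) (.e (nat_lit 688171) (nat_lit 15) (.e (nat_lit 57465) (nat_lit 23) .nil)))))))) (.g (nat_lit 1) (.e (nat_lit 406841) (nat_lit 0) .nil) .nil)))) 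
(.nd (nat_lit 9) 
(.lf (nat_lit 594183) (.g (nat_lit 1801) (.e (nat_lit 516120) (nat_lit 1) (.e (nat_lit 164330) (nat_lit 230) (.e (nat_lit 163902) (nat_lit 12) (.e (nat_lit 426484) (nat_lit 27) .nil)))) (.g (nat_lit 0) (.e (nat_lit 406437) (nat_lit 0) .nil) .nil))) 
(.lf (nat_lit 594695) (.g (nat_lit 1398) (.e (nat_lit 516139) (nat_lit 7) (.e (nat_lit 409646) (nat_lit 18) (.e (nat_lit 303117) (nat_lit 2) (.e (nat_lit 196674) (nat_lit 15) .nil)))) (.g (nat_lit 0) (.e (nat_lit 407224) (nat_lit 0) .nil) .nil))))) (.nd (nat_lit 8) (.nd (nat_lit 9) 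
(.lf (nat_lit 594055) (.g (nat_lit 2287) (.e (nat_lit 516119) (nat_lit 1) (.e (nat_lit 164178) (nat_lit 154) (.e (nat_lit 57379) (nat_lit 3) (.e (nat_lit 98341) (nat_lit 20) (.e (nat_lit 221212) (nat_lit 22) .nil))))) (.g (nat_lit 0) (.e (nat_lit 406123) (nat_lit 0) .nil) .nil))) 
(.lf (nat_lit 594567) (.g (nat_lit 2097) (.e (nat_lit 516138) (nat_lit 7) (.e (nat_lit 409645) (nat_lit 18) (.e (nat_lit 303117) (nat_lit 2) (.e (nat_lit 196672) (nat_lit 15) (.e (nat_lit 89856) (nat_lit 20) .nil))))) (.g (nat_lit 0) (.e (nat_lit 407056) (nat_lit 0) .nil) .nil)))) (.nd (nat_lit 9) 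
(.lf (nat_lit 594311) (.g (nat_lit 1418) (.e (nat_lit 516125) (nat_lit 2) (.e (nat_lit 213032) (nat_lit 11) (.e (nat_lit 24604) (nat_lit 2) (.e (nat_lit 90185) (nat_lit 17) .nil)))) (.g (nat_lit 0) (.e (nat_lit 406671) (nat_lit 0) .nil) .nil))) 
(.lf (nat_lit 594823) (.g (nat_lit 3863) (.e (nat_lit 516139) (nat_lit 7) (.e (nat_lit 409649) (nat_lit 18) (.e (nat_lit 303117) (nat_lit 2) (.e (nat_lit 196666) (nat_lit 13) (.e (nat_lit 65613) (nat_lit 10) (.e (nat_lit 344119) (nat_lit 21) .nil)))))) (.g (nat_lit 1) (.e (nat_lit 407371) (nat_lit 0) .nil) .nil)))))) (.nd (nat_lit 7) (.nd (nat_lit 8) (.nd (nat_lit 9) 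
(.lf (nat_lit 593991) (.g (nat_lit 2600) (.e (nat_lit 516118) (nat_lit 1) (.e (nat_lit 164324) (nat_lit 230) (.e (nat_lit 163907) (nat_lit 12) (.e (nat_lit 426566) (nat_lit 34) (.e (nat_lit 393291) (nat_lit 26) .nil))))) (.g (nat_lit 0) (.e (nat_lit 406010) (nat_lit 0) .nil) .nil))) 
(.lf (nat_lit 594503) (.g (nat_lit 2105) (.e (nat_lit 516131) (nat_lit 3) (.e (nat_lit 221212) (nat_lit 22) (.e (nat_lit 196664) (nat_lit 13) (.e (nat_lit 65568) (nat_lit 2) (.e (nat_lit 98048) (nat_lit 2) (.e (nat_lit 16388) (nat_lit 0) (.e (nat_lit 3213) (nat_lit 195) .nil))))))) (.g (nat_lit 1) (.e (nat_lit 406934) (nat_lit 0) .nil) .nil)))) (.nd (nat_lit 9) 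
(.lf (nat_lit 594247) (.g (nat_lit 2590) (.e (nat_lit 516120) (nat_lit 1) (.e (nat_lit 164332) (nat_lit 230) (.e (nat_lit 163905) (nat_lit 12) (.e (nat_lit 426566) (nat_lit 34) (.e (nat_lit 393292) (nat_lit 26) (.e (nat_lit 475179) (nat_lit 24) .nil)))))) (.g (nat_lit 1) (.e (nat_lit 406568) (nat_lit 0) .nil) .nil))) 
(.lf (nat_lit 594759) (.g (nat_lit 3722) (.e (nat_lit 516139) (nat_lit 7) (.e (nat_lit 409648) (nat_lit 18) (.e (nat_lit 303116) (nat_lit 2) (.e (nat_lit 196666) (nat_lit 13) (.e (nat_lit 65617) (nat_lit 10) (.e (nat_lit 344119) (nat_lit 21) .nil)))))) (.g (nat_lit 1) (.e (nat_lit 407295) (nat_lit 0) .nil) .nil))))) (.nd (nat_lit 8) (.nd (nat_lit 9) 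
(.lf (nat_lit 594119) (.g (nat_lit 2748) (.e (nat_lit 516119) (nat_lit 1) (.e (nat_lit 164326) (nat_lit 230) (.e (nat_lit 163903) (nat_lit 12) (.e (nat_lit 426566) (nat_lit 34) (.e (nat_lit 393296) (nat_lit 26) (.e (nat_lit 475176) (nat_lit 24) .nil)))))) (.g (nat_lit 1) (.e (nat_lit 406253) (nat_lit 0) .nil) .nil))) 
(.lf (nat_lit 594631) (.g (nat_lit 1858) (.e (nat_lit 516139) (nat_lit 7) (.e (nat_lit 409643) (nat_lit 18) (.e (nat_lit 303117) (nat_lit 2) (.e (nat_lit 196670) (nat_lit 14) (.e (nat_lit 81664) (nat_lit 43) .nil))))) (.g (nat_lit 0) (.e (nat_lit 407152) (nat_lit 0) .nil) .nil)))) (.nd (nat_lit 9) 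
(.lf (nat_lit 594375) (.g (nat_lit 1121) (.e (nat_lit 516127) (nat_lit 2) (.e (nat_lit 213030) (nat_lit 11) (.e (nat_lit 24609) (nat_lit 3) (.e (nat_lit 98370) (nat_lit 28) (.e (nat_lit 442373) (nat_lit 0) .nil))))) (.g (nat_lit 0) (.e (nat_lit 406746) (nat_lit 0) .nil) .nil))) 
(.lf (nat_lit 594887) (.g (nat_lit 2766) (.e (nat_lit 524032) (nat_lit 8) (.e (nat_lit 417820) (nat_lit 10) (.e (nat_lit 5626) (nat_lit 312) (.e (nat_lit 2685) (nat_lit 168) .nil)))) (.g (nat_lit 0) (.e (nat_lit 407461) (nat_lit 0) .nil) .nil))))))) (.nd (nat_lit 6) (.nd (nat_lit 7) (.nd (nat_lit 8) (.nd (nat_lit 9) 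
(.lf (nat_lit 593959) (.g (nat_lit 1663) (.e (nat_lit 516117) (nat_lit 1) (.e (nat_lit 164332) (nat_lit 230) (.e (nat_lit 163943) (nat_lit 19) (.e (nat_lit 483341) (nat_lit 9) (.e (nat_lit 426198) (nat_lit 9) .nil))))) (.g (nat_lit 0) (.e (nat_lit 405947) (nat_lit 0) .nil) .nil))) 
(.lf (nat_lit 594471) (.g (nat_lit 1895) (.e (nat_lit 516130) (nat_lit 3) (.e (nat_lit 221211) (nat_lit 22) (.e (nat_lit 196666) (nat_lit 13) (.e (nat_lit 65571) (nat_lit 3) (.e (nat_lit 98309) (nat_lit 0) .nil))))) (.g (nat_lit 0) (.e (nat_lit 406875) (nat_lit 0) .nil) .nil)))) (.nd (nat_lit 9) 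
(.lf (nat_lit 594215) (.g (nat_lit 3891) (.e (nat_lit 516120) (nat_lit 1) (.e (nat_lit 164330) (nat_lit 230) (.e (nat_lit 163941) (nat_lit 19) (.e (nat_lit 483341) (nat_lit 9) (.e (nat_lit 426204) (nat_lit 9) .nil))))) (.g (nat_lit 0) (.e (nat_lit 406513) (nat_lit 0) .nil) .nil))) 
(.lf (nat_lit 594727) (.g (nat_lit 2784) (.e (nat_lit 516139) (nat_lit 7) (.e (nat_lit 409647) (nat_lit 18) (.e (nat_lit 303118) (nat_lit 3) (.e (nat_lit 204855) (nat_lit 26) (.e (nat_lit 336176) (nat_lit 10) (.e (nat_lit 344120) (nat_lit 21) .nil)))))) (.g (nat_lit 1) (.e (nat_lit 407261) (nat_lit 0) .nil) .nil))))) (.nd (nat_lit 8) (.nd (nat_lit 9) 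
(.lf (nat_lit 594087) (.g (nat_lit 556) (.e (nat_lit 516119) (nat_lit 1) (.e (nat_lit 164325) (nat_lit 230) (.e (nat_lit 163902) (nat_lit 12) .nil))) (.g (nat_lit 0) (.e (nat_lit 406184) (nat_lit 0) .nil) .nil))) 
(.lf (nat_lit 594599) (.g (nat_lit 3615) (.e (nat_lit 516138) (nat_lit 7) (.e (nat_lit 409646) (nat_lit 18) (.e (nat_lit 303117) (nat_lit 2) (.e (nat_lit 196674) (nat_lit 15) (.e (nat_lit 81947) (nat_lit 20) (.e (nat_lit 1788) (nat_lit 119) .nil)))))) (.g (nat_lit 1) (.e (nat_lit 407102) (nat_lit 0) .nil) .nil)))) (.nd (nat_lit 9) 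
(.lf (nat_lit 594343) (.g (nat_lit 1646) (.e (nat_lit 516126) (nat_lit 2) (.e (nat_lit 213032) (nat_lit 11) (.e (nat_lit 24604) (nat_lit 2) (.e (nat_lit 90178) (nat_lit 15) (.e (nat_lit 196352) (nat_lit 0) (.e (nat_lit 1784) (nat_lit 119) .nil)))))) (.g (nat_lit 1) (.e (nat_lit 406704) (nat_lit 0) .nil) .nil))) 
(.lf (nat_lit 594855) (.g (nat_lit 2754) (.e (nat_lit 516139) (nat_lit 7) (.e (nat_lit 409649) (nat_lit 18) (.e (nat_lit 303118) (nat_lit 3) (.e (nat_lit 204868) (nat_lit 29) (.e (nat_lit 368384) (nat_lit 3) .nil))))) (.g (nat_lit 1) (.e (nat_lit 407408) (nat_lit 0) .nil) .nil)))))) (.nd (nat_lit 7) (.nd (nat_lit 8) (.nd (nat_lit 9) 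
(.lf (nat_lit 594023) (.g (nat_lit 2171) (.e (nat_lit 516118) (nat_lit 1) (.e (nat_lit 164332) (nat_lit 230) (.e (nat_lit 163905) (nat_lit 12) (.e (nat_lit 426478) (nat_lit 27) .nil)))) (.g (nat_lit 0) (.e (nat_lit 406072) (nat_lit 0) .nil) .nil))) 
(.lf (nat_lit 594535) (.g (nat_lit 3973) (.e (nat_lit 516131) (nat_lit 3) (.e (nat_lit 221215) (nat_lit 23) (.e (nat_lit 204830) (nat_lit 18) (.e (nat_lit 57926) (nat_lit 282) (.e (nat_lit 163867) (nat_lit 2) (.e (nat_lit 196670) (nat_lit 14) (.e (nat_lit 73746) (nat_lit 3) .nil))))))) (.g (nat_lit 1) (.e (nat_lit 406970) (nat_lit 0) .nil) .nil)))) (.nd (nat_lit 9) 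
(.lf (nat_lit 594279) (.g (nat_lit 1259) (.e (nat_lit 516122) (nat_lit 2) (.e (nat_lit 213032) (nat_lit 11) (.e (nat_lit 24609) (nat_lit 3) (.e (nat_lit 98370) (nat_lit 28) .nil)))) (.g (nat_lit 0) (.e (nat_lit 406613) (nat_lit 0) .nil) .nil))) 
(.lf (nat_lit 594791) (.g (nat_lit 1164) (.e (nat_lit 516139) (nat_lit 7) (.e (nat_lit 409648) (nat_lit 18) (.e (nat_lit 303118) (nat_lit 3) (.e (nat_lit 204866) (nat_lit 28) .nil)))) (.g (nat_lit 0) (.e (nat_lit 407328) (nat_lit 0) .nil) .nil))))) (.nd (nat_lit 8) (.nd (nat_lit 9) 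
(.lf (nat_lit 594151) (.g (nat_lit 3054) (.e (nat_lit 516120) (nat_lit 1) (.e (nat_lit 164183) (nat_lit 154) (.e (nat_lit 57373) (nat_lit 2) (.e (nat_lit 90128) (nat_lit 9) (.e (nat_lit 2705) (nat_lit 170) (.e (nat_lit 221214) (nat_lit 23) (.e (nat_lit 204863) (nat_lit 27) (.e (nat_lit 344118) (nat_lit 21) .nil)))))))) (.g (nat_lit 1) (.e (nat_lit 406316) (nat_lit 0) .nil) .nil))) 
(.lf (nat_lit 594663) (.g (nat_lit 4112) (.e (nat_lit 516139) (nat_lit 7) (.e (nat_lit 409644) (nat_lit 18) (.e (nat_lit 303119) (nat_lit 3) (.e (nat_lit 204869) (nat_lit 29) (.e (nat_lit 360467) (nat_lit 3) .nil))))) (.g (nat_lit 1) (.e (nat_lit 407186) (nat_lit 0) .nil) .nil)))) (.nd (nat_lit 9) 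
(.lf (nat_lit 594407) (.g (nat_lit 1772) (.e (nat_lit 516128) (nat_lit 3) (.e (nat_lit 221211) (nat_lit 22) (.e (nat_lit 196666) (nat_lit 13) (.e (nat_lit 65566) (nat_lit 2) .nil)))) (.g (nat_lit 0) (.e (nat_lit 406792) (nat_lit 0) .nil) .nil))) 
(.lf (nat_lit 594919) (.g (nat_lit 1170) (.e (nat_lit 516146) (nat_lit 9) (.e (nat_lit 426428) (nat_lit 17) (.e (nat_lit 90134) (nat_lit 9) (.e (nat_lit 2853) (nat_lit 184) .nil)))) (.g (nat_lit 0) (.e (nat_lit 407497) (nat_lit 0) .nil) .nil)))))))) (.nd (nat_lit 5) (.nd (nat_lit 6) (.nd (nat_lit 7) (.nd (nat_lit 8) (.nd (nat_lit 9) 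
(.lf (nat_lit 593943) (.g (nat_lit 1711) (.e (nat_lit 516117) (nat_lit 1) (.e (nat_lit 164332) (nat_lit 230) (.e (nat_lit 163905) (nat_lit 12) (.e (nat_lit 426486) (nat_lit 27) .nil)))) (.g (nat_lit 0) (.e (nat_lit 405924) (nat_lit 0) .nil) .nil))) 
(.lf (nat_lit 594455) (.g (nat_lit 3061) (.e (nat_lit 516129) (nat_lit 3) (.e (nat_lit 221214) (nat_lit 23) (.e (nat_lit 204830) (nat_lit 18) (.e (nat_lit 57926) (nat_lit 282) (.e (nat_lit 163866) (nat_lit 2) (.e (nat_lit 196668) (nat_lit 14) (.e (nat_lit 73747) (nat_lit 3) .nil))))))) (.g (nat_lit 1) (.e (nat_lit 406858) (nat_lit 0) .nil) .nil)))) (.nd (nat_lit 9) 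
(.lf (nat_lit 594199) (.g (nat_lit 2311) (.e (nat_lit 516120) (nat_lit 1) (.e (nat_lit 164330) (nat_lit 230) (.e (nat_lit 163905) (nat_lit 12) (.e (nat_lit 426568) (nat_lit 34) (.e (nat_lit 393293) (nat_lit 26) (.e (nat_lit 475177) (nat_lit 24) .nil)))))) (.g (nat_lit 1) (.e (nat_lit 406455) (nat_lit 0) .nil) .nil))) 
(.lf (nat_lit 594711) (.g (nat_lit 1835) (.e (nat_lit 516139) (nat_lit 7) (.e (nat_lit 409646) (nat_lit 18) (.e (nat_lit 303119) (nat_lit 3) (.e (nat_lit 204819) (nat_lit 17) (.e (nat_lit 7936) (nat_lit 343) .nil))))) (.g (nat_lit 0) (.e (nat_lit 407240) (nat_lit 0) .nil) .nil))))) (.nd (nat_lit 8) (.nd (nat_lit 9) 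
(.lf (nat_lit 594071) (.g (nat_lit 3153) (.e (nat_lit 516119) (nat_lit 1) (.e (nat_lit 164322) (nat_lit 230) (.e (nat_lit 163902) (nat_lit 12) (.e (nat_lit 426568) (nat_lit 34) (.e (nat_lit 393234) (nat_lit 17) (.e (nat_lit 7374) (nat_lit 389) (.e (nat_lit 8320) (nat_lit 64) .nil))))))) (.g (nat_lit 1) (.e (nat_lit 406152) (nat_lit 0) .nil) .nil))) 
(.lf (nat_lit 594583) (.g (nat_lit 2505) (.e (nat_lit 516138) (nat_lit 7) (.e (nat_lit 409645) (nat_lit 18) (.e (nat_lit 303119) (nat_lit 3) (.e (nat_lit 204868) (nat_lit 29) (.e (nat_lit 368384) (nat_lit 3) .nil))))) (.g (nat_lit 0) (.e (nat_lit 407083) (nat_lit 0) .nil) .nil)))) (.nd (nat_lit 9) 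
(.lf (nat_lit 594327) (.g (nat_lit 329) (.e (nat_lit 516126) (nat_lit 2) (.e (nat_lit 213030) (nat_lit 11) (.e (nat_lit 24609) (nat_lit 3) .nil))) (.g (nat_lit 0) (.e (nat_lit 406688) (nat_lit 0) .nil) .nil))) 
(.lf (nat_lit 594839) (.g (nat_lit 2946) (.e (nat_lit 516139) (nat_lit 7) (.e (nat_lit 409649) (nat_lit 18) (.e (nat_lit 303117) (nat_lit 2) (.e (nat_lit 196674) (nat_lit 15) (.e (nat_lit 81944) (nat_lit 20) .nil))))) (.g (nat_lit 0) (.e (nat_lit 407387) (nat_lit 0) .nil) .nil)))))) (.nd (nat_lit 7) (.nd (nat_lit 8) (.nd (nat_lit 9) 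
(.lf (nat_lit 594007) (.g (nat_lit 1292) (.e (nat_lit 516118) (nat_lit 1) (.e (nat_lit 164327) (nat_lit 230) (.e (nat_lit 163903) (nat_lit 12) (.e (nat_lit 426566) (nat_lit 34) .nil)))) (.g (nat_lit 0) (.e (nat_lit 406042) (nat_lit 0) .nil) .nil))) 
(.lf (nat_lit 594519) (.g (nat_lit 447) (.e (nat_lit 516131) (nat_lit 3) (.e (nat_lit 221215) (nat_lit 23) (.e (nat_lit 204821) (nat_lit 17) .nil))) (.g (nat_lit 0) (.e (nat_lit 406952) (nat_lit 0) .nil) .nil)))) (.nd (nat_lit 9) 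
(.lf (nat_lit 594263) (.g (nat_lit 1413) (.e (nat_lit 516122) (nat_lit 2) (.e (nat_lit 213032) (nat_lit 11) (.e (nat_lit 24604) (nat_lit 2) (.e (nat_lit 90176) (nat_lit 15) .nil)))) (.g (nat_lit 0) (.e (nat_lit 406596) (nat_lit 0) .nil) .nil))) 
(.lf (nat_lit 594775) (.g (nat_lit 2619) (.e (nat_lit 516139) (nat_lit 7) (.e (nat_lit 409648) (nat_lit 18) (.e (nat_lit 303117) (nat_lit 2) (.e (nat_lit 196668) (nat_lit 14) (.e (nat_lit 81664) (nat_lit 43) .nil))))) (.g (nat_lit 0) (.e (nat_lit 407311) (nat_lit 0) .nil) .nil))))) (.nd (nat_lit 8) (.nd (nat_lit 9) 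
(.lf (nat_lit 594135) (.g (nat_lit 3181) (.e (nat_lit 516119) (nat_lit 1) (.e (nat_lit 164327) (nat_lit 230) (.e (nat_lit 163903) (nat_lit 12) (.e (nat_lit 426566) (nat_lit 34) (.e (nat_lit 393290) (nat_lit 26) (.e (nat_lit 475179) (nat_lit 24) .nil)))))) (.g (nat_lit 1) (.e (nat_lit 406274) (nat_lit 0) .nil) .nil))) 
(.lf (nat_lit 594647) (.g (nat_lit 357) (.e (nat_lit 516139) (nat_lit 7) (.e (nat_lit 409644) (nat_lit 18) (.e (nat_lit 303119) (nat_lit 3) .nil))) (.g (nat_lit 0) (.e (nat_lit 407169) (nat_lit 0) .nil) .nil)))) (.nd (nat_lit 9) 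
(.lf (nat_lit 594391) (.g (nat_lit 1869) (.e (nat_lit 516127) (nat_lit 2) (.e (nat_lit 213032) (nat_lit 11) (.e (nat_lit 24605) (nat_lit 2) (.e (nat_lit 90172) (nat_lit 14) (.e (nat_lit 188160) (nat_lit 41) (.e (nat_lit 8320) (nat_lit 64) .nil)))))) (.g (nat_lit 1) (.e (nat_lit 406765) (nat_lit 0) .nil) .nil))) 
(.lf (nat_lit 594903) (.g (nat_lit 2152) (.e (nat_lit 516145) (nat_lit 9) (.e (nat_lit 426438) (nat_lit 18) (.e (nat_lit 98366) (nat_lit 27) (.e (nat_lit 434245) (nat_lit 28) (.e (nat_lit 573481) (nat_lit 13) (.e (nat_lit 65637) (nat_lit 15) (.e (nat_lit 7936) (nat_lit 195) .nil))))))) (.g (nat_lit 1) (.e (nat_lit 407480) (nat_lit 0) .nil) .nil))))))) 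
(.nd (nat_lit 6) (.nd (nat_lit 7) (.nd (nat_lit 8) (.nd (nat_lit 9) 
(.lf (nat_lit 593975) (.g (nat_lit 2595) (.e (nat_lit 516118) (nat_lit 1) (.e (nat_lit 164182) (nat_lit 154) (.e (nat_lit 57379) (nat_lit 3) (.e (nat_lit 98341) (nat_lit 20) (.e (nat_lit 221210) (nat_lit 22) .nil))))) (.g (nat_lit 0) (.e (nat_lit 405983) (nat_lit 0) .nil) .nil))) 
(.lf (nat_lit 594487) (.g (nat_lit 2279) (.e (nat_lit 516130) (nat_lit 3) (.e (nat_lit 221215) (nat_lit 23) (.e (nat_lit 204850) (nat_lit 26) (.e (nat_lit 336013) (nat_lit 2) (.e (nat_lit 98048) (nat_lit 2) (.e (nat_lit 16388) (nat_lit 0) (.e (nat_lit 3213) (nat_lit 195) .nil))))))) (.g (nat_lit 1) (.e (nat_lit 406893) (nat_lit 0) .nil) .nil)))) (.nd (nat_lit 9) 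
(.lf (nat_lit 594231) (.g (nat_lit 1326) (.e (nat_lit 516120) (nat_lit 1) (.e (nat_lit 164332) (nat_lit 230) (.e (nat_lit 163902) (nat_lit 12) (.e (nat_lit 426489) (nat_lit 27) .nil)))) (.g (nat_lit 0) (.e (nat_lit 406547) (nat_lit 0) .nil) .nil))) 
(.lf (nat_lit 594743) (.g (nat_lit 441) (.e (nat_lit 516139) (nat_lit 7) (.e (nat_lit 409648) (nat_lit 18) (.e (nat_lit 303104) (nat_lit 0) .nil))) (.g (nat_lit 0) (.e (nat_lit 407279) (nat_lit 0) .nil) .nil))))) (.nd (nat_lit 8) (.nd (nat_lit 9) 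
(.lf (nat_lit 594103) (.g (nat_lit 1898) (.e (nat_lit 516119) (nat_lit 1) (.e (nat_lit 164325) (nat_lit 230) (.e (nat_lit 163907) (nat_lit 12) (.e (nat_lit 426494) (nat_lit 27) (.e (nat_lit 336387) (nat_lit 27) .nil))))) (.g (nat_lit 0) (.e (nat_lit 406207) (nat_lit 0) .nil) .nil))) 
(.lf (nat_lit 594615) (.g (nat_lit 4376) (.e (nat_lit 516138) (nat_lit 7) (.e (nat_lit 409649) (nat_lit 18) (.e (nat_lit 303118) (nat_lit 3) (.e (nat_lit 204868) (nat_lit 29) (.e (nat_lit 360466) (nat_lit 3) .nil))))) (.g (nat_lit 1) (.e (nat_lit 407126) (nat_lit 0) .nil) .nil)))) (.nd (nat_lit 9) 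
(.lf (nat_lit 594359) (.g (nat_lit 2619) (.e (nat_lit 516126) (nat_lit 2) (.e (nat_lit 213032) (nat_lit 11) (.e (nat_lit 24608) (nat_lit 3) (.e (nat_lit 98365) (nat_lit 26) (.e (nat_lit 426306) (nat_lit 12) (.e (nat_lit 475178) (nat_lit 24) .nil)))))) (.g (nat_lit 1) (.e (nat_lit 406722) (nat_lit 0) .nil) .nil))) 
(.lf (nat_lit 594871) (.g (nat_lit 3001) (.e (nat_lit 516141) (nat_lit 8) (.e (nat_lit 417820) (nat_lit 10) (.e (nat_lit 5626) (nat_lit 312) (.e (nat_lit 2685) (nat_lit 168) (.e (nat_lit 204868) (nat_lit 29) (.e (nat_lit 360466) (nat_lit 3) .nil)))))) (.g (nat_lit 1) (.e (nat_lit 407438) (nat_lit 0) .nil) .nil)))))) (.nd (nat_lit 7) (.nd (nat_lit 8) (.nd (nat_lit 9) 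
(.lf (nat_lit 594039) (.g (nat_lit 2377) (.e (nat_lit 516118) (nat_lit 1) (.e (nat_lit 164332) (nat_lit 230) (.e (nat_lit 163905) (nat_lit 12) (.e (nat_lit 426496) (nat_lit 27) .nil)))) (.g (nat_lit 0) (.e (nat_lit 406089) (nat_lit 0) .nil) .nil))) 
(.lf (nat_lit 594551) (.g (nat_lit 3423) (.e (nat_lit 516138) (nat_lit 7) (.e (nat_lit 409643) (nat_lit 18) (.e (nat_lit 303116) (nat_lit 2) (.e (nat_lit 196666) (nat_lit 13) (.e (nat_lit 65610) (nat_lit 10) (.e (nat_lit 344117) (nat_lit 21) .nil)))))) (.g (nat_lit 1) (.e (nat_lit 407033) (nat_lit 0) .nil) .nil)))) (.nd (nat_lit 9) 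
(.lf (nat_lit 594295) (.g (nat_lit 1759) (.e (nat_lit 516124) (nat_lit 2) (.e (nat_lit 213032) (nat_lit 11) (.e (nat_lit 24605) (nat_lit 2) (.e (nat_lit 90185) (nat_lit 17) (.e (nat_lit 237619) (nat_lit 12) .nil))))) (.g (nat_lit 0) (.e (nat_lit 406635) (nat_lit 0) .nil) .nil))) 
(.lf (nat_lit 594807) (.g (nat_lit 1335) (.e (nat_lit 516139) (nat_lit 7) (.e (nat_lit 409649) (nat_lit 18) (.e (nat_lit 303112) (nat_lit 0) (.e (nat_lit 3252) (nat_lit 197) .nil)))) (.g (nat_lit 0) (.e (nat_lit 407353) (nat_lit 0) .nil) .nil))))) (.nd (nat_lit 8) (.nd (nat_lit 9) 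
(.lf (nat_lit 594167) (.g (nat_lit 3198) (.e (nat_lit 516120) (nat_lit 1) (.e (nat_lit 164329) (nat_lit 230) (.e (nat_lit 163902) (nat_lit 12) (.e (nat_lit 426568) (nat_lit 34) (.e (nat_lit 393234) (nat_lit 17) (.e (nat_lit 7376) (nat_lit 389) (.e (nat_lit 8316) (nat_lit 64) .nil))))))) (.g (nat_lit 1) (.e (nat_lit 406392) (nat_lit 0) .nil) .nil))) 
(.lf (nat_lit 594679) (.g (nat_lit 338) (.e (nat_lit 516139) (nat_lit 7) (.e (nat_lit 409645) (nat_lit 18) (.e (nat_lit 303119) (nat_lit 3) .nil))) (.g (nat_lit 0) (.e (nat_lit 407204) (nat_lit 0) .nil) .nil)))) (.nd (nat_lit 9) 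
(.lf (nat_lit 594423) (.g (nat_lit 2113) (.e (nat_lit 516129) (nat_lit 3) (.e (nat_lit 221210) (nat_lit 22) (.e (nat_lit 196663) (nat_lit 13) (.e (nat_lit 65571) (nat_lit 3) (.e (nat_lit 98321) (nat_lit 17) (.e (nat_lit 3458) (nat_lit 216) (.e (nat_lit 688171) (nat_lit 15) (.e (nat_lit 57465) (nat_lit 23) .nil)))))))) (.g (nat_lit 1) (.e (nat_lit 406825) (nat_lit 0) .nil) .nil))) 
(.lf (nat_lit 594935) (.g (nat_lit 3720) (.e (nat_lit 516146) (nat_lit 9) (.e (nat_lit 426438) (nat_lit 18) (.e (nat_lit 98384) (nat_lit 32) (.e (nat_lit 475177) (nat_lit 24) (.e (nat_lit 516179) (nat_lit 15) (.e (nat_lit 475177) (nat_lit 24) .nil)))))) (.g (nat_lit 1) (.e (nat_lit 407513) (nat_lit 0) .nil) .nil))))))))) 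
(.nd (nat_lit 4) (.nd (nat_lit 5) (.nd (nat_lit 6) (.nd (nat_lit 7) (.nd (nat_lit 8) 
(.nd (nat_lit 9) 
(.lf (nat_lit 593935) (.g (nat_lit 545) (.e (nat_lit 516117) (nat_lit 1) (.e (nat_lit 164331) (nat_lit 230) (.e (nat_lit 163942) (nat_lit 19) .nil))) (.g (nat_lit 0) (.e (nat_lit 405914) (nat_lit 0) .nil) .nil))) 
(.lf (nat_lit 594447) (.g (nat_lit 2401) (.e (nat_lit 516129) (nat_lit 3) (.e (nat_lit 221210) (nat_lit 22) (.e (nat_lit 196670) (nat_lit 14) (.e (nat_lit 73746) (nat_lit 3) (.e (nat_lit 516100) (nat_lit 0) (.e (nat_lit 7936) (nat_lit 216) (.e (nat_lit 688170) (nat_lit 15) (.e (nat_lit 57465) (nat_lit 23) .nil)))))))) (.g (nat_lit 1) (.e (nat_lit 406849) (nat_lit 0) .nil) .nil)))) 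
(.nd (nat_lit 9) 
(.lf (nat_lit 594191) (.g (nat_lit 2818) (.e (nat_lit 516120) (nat_lit 1) (.e (nat_lit 164330) (nat_lit 230) (.e (nat_lit 163902) (nat_lit 12) (.e (nat_lit 426568) (nat_lit 34) (.e (nat_lit 393293) (nat_lit 26) (.e (nat_lit 475177) (nat_lit 24) .nil)))))) (.g (nat_lit 1) (.e (nat_lit 406445) (nat_lit 0) .nil) .nil))) 
(.lf (nat_lit 594703) (.g (nat_lit 3397) (.e (nat_lit 516139) (nat_lit 7) (.e (nat_lit 409646) (nat_lit 18) (.e (nat_lit 303117) (nat_lit 2) (.e (nat_lit 196674) (nat_lit 15) (.e (nat_lit 81947) (nat_lit 20) (.e (nat_lit 1781) (nat_lit 119) .nil)))))) (.g (nat_lit 1) (.e (nat_lit 407232) (nat_lit 0) .nil) .nil))))) (.nd (nat_lit 8) (.nd (nat_lit 9) 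
(.lf (nat_lit 594063) (.g (nat_lit 1401) (.e (nat_lit 516119) (nat_lit 1) (.e (nat_lit 164179) (nat_lit 154) (.e (nat_lit 57378) (nat_lit 3) (.e (nat_lit 98341) (nat_lit 20) .nil)))) (.g (nat_lit 0) (.e (nat_lit 406137) (nat_lit 0) .nil) .nil))) 
(.lf (nat_lit 594575) (.g (nat_lit 3149) (.e (nat_lit 516138) (nat_lit 7) (.e (nat_lit 409645) (nat_lit 18) (.e (nat_lit 303117) (nat_lit 2) (.e (nat_lit 196674) (nat_lit 15) (.e (nat_lit 81947) (nat_lit 20) (.e (nat_lit 1781) (nat_lit 119) .nil)))))) (.g (nat_lit 1) (.e (nat_lit 407064) (nat_lit 0) .nil) .nil)))) (.nd (nat_lit 9) 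
(.lf (nat_lit 594319) (.g (nat_lit 1865) (.e (nat_lit 516125) (nat_lit 2) (.e (nat_lit 213032) (nat_lit 11) (.e (nat_lit 24608) (nat_lit 3) (.e (nat_lit 98381) (nat_lit 31) (.e (nat_lit 466945) (nat_lit 0) .nil))))) (.g (nat_lit 0) (.e (nat_lit 406679) (nat_lit 0) .nil) .nil))) 
(.lf (nat_lit 594831) (.g (nat_lit 2734) (.e (nat_lit 516139) (nat_lit 7) (.e (nat_lit 409649) (nat_lit 18) (.e (nat_lit 303117) (nat_lit 2) (.e (nat_lit 196672) (nat_lit 15) (.e (nat_lit 81943) (nat_lit 20) (.e (nat_lit 1781) (nat_lit 119) .nil)))))) (.g (nat_lit 1) (.e (nat_lit 407379) (nat_lit 0) .nil) .nil)))))) (.nd (nat_lit 7) (.nd (nat_lit 8) (.nd (nat_lit 9) 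
(.lf (nat_lit 593999) (.g (nat_lit 3335) (.e (nat_lit 516118) (nat_lit 1) (.e (nat_lit 164325) (nat_lit 230) (.e (nat_lit 163907) (nat_lit 12) (.e (nat_lit 426566) (nat_lit 34) (.e (nat_lit 393294) (nat_lit 26) (.e (nat_lit 475177) (nat_lit 24) .nil)))))) (.g (nat_lit 1) (.e (nat_lit 406026) (nat_lit 0) .nil) .nil))) 
(.lf (nat_lit 594511) (.g (nat_lit 3769) (.e (nat_lit 516131) (nat_lit 3) (.e (nat_lit 221214) (nat_lit 23) (.e (nat_lit 204830) (nat_lit 18) (.e (nat_lit 57926) (nat_lit 282) (.e (nat_lit 163867) (nat_lit 2) (.e (nat_lit 196668) (nat_lit 14) (.e (nat_lit 73747) (nat_lit 3) .nil))))))) (.g (nat_lit 1) (.e (nat_lit 406942) (nat_lit 0) .nil) .nil)))) (.nd (nat_lit 9) 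
(.lf (nat_lit 594255) (.g (nat_lit 1394) (.e (nat_lit 516120) (nat_lit 1) (.e (nat_lit 164332) (nat_lit 230) (.e (nat_lit 163941) (nat_lit 19) (.e (nat_lit 483340) (nat_lit 9) .nil)))) (.g (nat_lit 0) (.e (nat_lit 406577) (nat_lit 0) .nil) .nil))) 
(.lf (nat_lit 594767) (.g (nat_lit 3644) (.e (nat_lit 516139) (nat_lit 7) (.e (nat_lit 409648) (nat_lit 18) (.e (nat_lit 303117) (nat_lit 2) (.e (nat_lit 196666) (nat_lit 13) (.e (nat_lit 65592) (nat_lit 9) (.e (nat_lit 335886) (nat_lit 0) (.e (nat_lit 1788) (nat_lit 119) .nil))))))) (.g (nat_lit 1) (.e (nat_lit 407303) (nat_lit 0) .nil) .nil))))) (.nd (nat_lit 8) (.nd (nat_lit 9) 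
(.lf (nat_lit 594127) (.g (nat_lit 3614) (.e (nat_lit 516119) (nat_lit 1) (.e (nat_lit 164326) (nat_lit 230) (.e (nat_lit 163941) (nat_lit 19) (.e (nat_lit 483341) (nat_lit 9) (.e (nat_lit 426307) (nat_lit 12) (.e (nat_lit 475179) (nat_lit 24) .nil)))))) (.g (nat_lit 1) (.e (nat_lit 406263) (nat_lit 0) .nil) .nil))) 
(.lf (nat_lit 594639) (.g (nat_lit 3365) (.e (nat_lit 516139) (nat_lit 7) (.e (nat_lit 409643) (nat_lit 18) (.e (nat_lit 303119) (nat_lit 3) (.e (nat_lit 204869) (nat_lit 29) (.e (nat_lit 360466) (nat_lit 3) .nil))))) (.g (nat_lit 1) (.e (nat_lit 407161) (nat_lit 0) .nil) .nil)))) (.nd (nat_lit 9) 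
(.lf (nat_lit 594383) (.g (nat_lit 1788) (.e (nat_lit 516127) (nat_lit 2) (.e (nat_lit 213032) (nat_lit 11) (.e (nat_lit 24604) (nat_lit 2) (.e (nat_lit 90176) (nat_lit 15) (.e (nat_lit 188418) (nat_lit 0) .nil))))) (.g (nat_lit 0) (.e (nat_lit 406757) (nat_lit 0) .nil) .nil))) 
(.lf (nat_lit 594895) (.g (nat_lit 2139) (.e (nat_lit 516145) (nat_lit 9) (.e (nat_lit 426270) (nat_lit 9) (.e (nat_lit 426139) (nat_lit 3) (.e (nat_lit 204846) (nat_lit 24) (.e (nat_lit 319504) (nat_lit 10) .nil))))) (.g (nat_lit 0) (.e (nat_lit 407470) (nat_lit 0) .nil) .nil))))))) (.nd (nat_lit 6) (.nd (nat_lit 7) (.nd (nat_lit 8) (.nd (nat_lit 9) 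
(.lf (nat_lit 593967) (.g (nat_lit 2473) (.e (nat_lit 516118) (nat_lit 1) (.e (nat_lit 164179) (nat_lit 154) (.e (nat_lit 57371) (nat_lit 2) (.e (nat_lit 90128) (nat_lit 9) (.e (nat_lit 2706) (nat_lit 170) (.e (nat_lit 221214) (nat_lit 23) (.e (nat_lit 204863) (nat_lit 27) (.e (nat_lit 344120) (nat_lit 21) .nil)))))))) (.g (nat_lit 1) (.e (nat_lit 405965) (nat_lit 0) .nil) .nil))) 
(.lf (nat_lit 594479) (.g (nat_lit 1524) (.e (nat_lit 516130) (nat_lit 3) (.e (nat_lit 221212) (nat_lit 22) (.e (nat_lit 196681) (nat_lit 17) (.e (nat_lit 131094) (nat_lit 2) (.e (nat_lit 98048) (nat_lit 2) (.e (nat_lit 16388) (nat_lit 0) (.e (nat_lit 3211) (nat_lit 195) .nil))))))) (.g (nat_lit 1) (.e (nat_lit 406884) (nat_lit 0) .nil) .nil)))) (.nd (nat_lit 9) 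
(.lf (nat_lit 594223) (.g (nat_lit 944) (.e (nat_lit 516120) (nat_lit 1) (.e (nat_lit 164331) (nat_lit 230) (.e (nat_lit 163941) (nat_lit 19) (.e (nat_lit 483341) (nat_lit 9) .nil)))) (.g (nat_lit 0) (.e (nat_lit 406532) (nat_lit 0) .nil) .nil))) 
(.lf (nat_lit 594735) (.g (nat_lit 368) (.e (nat_lit 516139) (nat_lit 7) (.e (nat_lit 409647) (nat_lit 18) (.e (nat_lit 303119) (nat_lit 3) .nil))) (.g (nat_lit 0) (.e (nat_lit 407271) (nat_lit 0) .nil) .nil))))) (.nd (nat_lit 8) (.nd (nat_lit 9) 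
(.lf (nat_lit 594095) (.g (nat_lit 4043) (.e (nat_lit 516119) (nat_lit 1) (.e (nat_lit 164325) (nat_lit 230) (.e (nat_lit 163903) (nat_lit 12) (.e (nat_lit 426566) (nat_lit 34) (.e (nat_lit 393294) (nat_lit 26) (.e (nat_lit 475177) (nat_lit 24) .nil)))))) (.g (nat_lit 1) (.e (nat_lit 406194) (nat_lit 0) .nil) .nil))) 
(.lf (nat_lit 594607) (.g (nat_lit 4328) (.e (nat_lit 516138) (nat_lit 7) (.e (nat_lit 409646) (nat_lit 18) (.e (nat_lit 303119) (nat_lit 3) (.e (nat_lit 204868) (nat_lit 29) (.e (nat_lit 360466) (nat_lit 3) .nil))))) (.g (nat_lit 1) (.e (nat_lit 407115) (nat_lit 0) .nil) .nil)))) (.nd (nat_lit 9) 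
(.lf (nat_lit 594351) (.g (nat_lit 1791) (.e (nat_lit 516126) (nat_lit 2) (.e (nat_lit 213032) (nat_lit 11) (.e (nat_lit 24605) (nat_lit 2) (.e (nat_lit 90185) (nat_lit 17) (.e (nat_lit 237618) (nat_lit 12) .nil))))) (.g (nat_lit 0) (.e (nat_lit 406712) (nat_lit 0) .nil) .nil))) 
(.lf (nat_lit 594863) (.g (nat_lit 2973) (.e (nat_lit 516139) (nat_lit 7) (.e (nat_lit 409649) (nat_lit 18) (.e (nat_lit 303119) (nat_lit 3) (.e (nat_lit 204868) (nat_lit 29) (.e (nat_lit 368384) (nat_lit 3) .nil))))) (.g (nat_lit 1) (.e (nat_lit 407421) (nat_lit 0) .nil) .nil)))))) (.nd (nat_lit 7) (.nd (nat_lit 8) (.nd (nat_lit 9) 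
(.lf (nat_lit 594031) (.g (nat_lit 2667) (.e (nat_lit 516118) (nat_lit 1) (.e (nat_lit 164332) (nat_lit 230) (.e (nat_lit 163905) (nat_lit 12) (.e (nat_lit 426486) (nat_lit 27) (.e (nat_lit 336380) (nat_lit 27) .nil))))) (.g (nat_lit 0) (.e (nat_lit 406081) (nat_lit 0) .nil) .nil))) 
(.lf (nat_lit 594543) (.g (nat_lit 4007) (.e (nat_lit 516131) (nat_lit 3) (.e (nat_lit 221215) (nat_lit 23) (.e (nat_lit 204830) (nat_lit 18) (.e (nat_lit 57931) (nat_lit 282) (.e (nat_lit 163867) (nat_lit 2) (.e (nat_lit 196668) (nat_lit 14) (.e (nat_lit 73747) (nat_lit 3) .nil))))))) (.g (nat_lit 1) (.e (nat_lit 406978) (nat_lit 0) .nil) .nil)))) (.nd (nat_lit 9) 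
(.lf (nat_lit 594287) (.g (nat_lit 633) (.e (nat_lit 516124) (nat_lit 2) (.e (nat_lit 213030) (nat_lit 11) (.e (nat_lit 24609) (nat_lit 3) (.e (nat_lit 98380) (nat_lit 31) .nil)))) (.g (nat_lit 0) (.e (nat_lit 406624) (nat_lit 0) .nil) .nil))) 
(.lf (nat_lit 594799) (.g (nat_lit 3404) (.e (nat_lit 516139) (nat_lit 7) (.e (nat_lit 409648) (nat_lit 18) (.e (nat_lit 303119) (nat_lit 3) (.e (nat_lit 204855) (nat_lit 26) (.e (nat_lit 336097) (nat_lit 9) .nil))))) (.g (nat_lit 0) (.e (nat_lit 407339) (nat_lit 0) .nil) .nil))))) (.nd (nat_lit 8) (.nd (nat_lit 9) 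
(.lf (nat_lit 594159) (.g (nat_lit 5256) (.e (nat_lit 516120) (nat_lit 1) (.e (nat_lit 164304) (nat_lit 226) (.e (nat_lit 2612) (nat_lit 163) (.e (nat_lit 163978) (nat_lit 30) (.e (nat_lit 573489) (nat_lit 14) (.e (nat_lit 73755) (nat_lit 8) (.e (nat_lit 557098) (nat_lit 13) (.e (nat_lit 179968) (nat_lit 15) (.e (nat_lit 1800) (nat_lit 119) .nil))))))))) (.g (nat_lit 1) (.e (nat_lit 406334) (nat_lit 0) .nil) .nil))) 
(.lf (nat_lit 594671) (.g (nat_lit 3226) (.e (nat_lit 516139) (nat_lit 7) (.e (nat_lit 409645) (nat_lit 18) (.e (nat_lit 303117) (nat_lit 2) (.e (nat_lit 196674) (nat_lit 15) (.e (nat_lit 81936) (nat_lit 20) (.e (nat_lit 1792) (nat_lit 119) .nil)))))) (.g (nat_lit 1) (.e (nat_lit 407196) (nat_lit 0) .nil) .nil)))) (.nd (nat_lit 9) 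
(.lf (nat_lit 594415) (.g (nat_lit 538) (.e (nat_lit 516129) (nat_lit 3) (.e (nat_lit 221210) (nat_lit 22) (.e (nat_lit 196649) (nat_lit 10) .nil))) (.g (nat_lit 0) (.e (nat_lit 406817) (nat_lit 0) .nil) .nil))) 
(.lf (nat_lit 594927) (.g (nat_lit 2531) (.e (nat_lit 516146) (nat_lit 9) (.e (nat_lit 426438) (nat_lit 18) (.e (nat_lit 98367) (nat_lit 27) (.e (nat_lit 434248) (nat_lit 28) (.e (nat_lit 573480) (nat_lit 13) (.e (nat_lit 65631) (nat_lit 15) (.e (nat_lit 3214) (nat_lit 195) .nil))))))) (.g (nat_lit 1) (.e (nat_lit 407505) (nat_lit 0) .nil) .nil)))))))) 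
(.nd (nat_lit 5) (.nd (nat_lit 6) (.nd (nat_lit 7) (.nd (nat_lit 8) (.nd (nat_lit 9) 
(.lf (nat_lit 593951) (.g (nat_lit 3563) (.e (nat_lit 516117) (nat_lit 1) (.e (nat_lit 164332) (nat_lit 230) (.e (nat_lit 163905) (nat_lit 12) (.e (nat_lit 426566) (nat_lit 34) (.e (nat_lit 393294) (nat_lit 26) (.e (nat_lit 475179) (nat_lit 24) .nil)))))) (.g (nat_lit 1) (.e (nat_lit 405933) (nat_lit 0) .nil) .nil))) 
(.lf (nat_lit 594463) (.g (nat_lit 2341) (.e (nat_lit 516129) (nat_lit 3) (.e (nat_lit 221215) (nat_lit 23) (.e (nat_lit 204861) (nat_lit 26) (.e (nat_lit 336004) (nat_lit 2) (.e (nat_lit 90153) (nat_lit 10) .nil))))) (.g (nat_lit 0) (.e (nat_lit 406866) (nat_lit 0) .nil) .nil)))) (.nd (nat_lit 9) 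
(.lf (nat_lit 594207) (.g (nat_lit 2656) (.e (nat_lit 516120) (nat_lit 1) (.e (nat_lit 164330) (nat_lit 230) (.e (nat_lit 163941) (nat_lit 19) (.e (nat_lit 483341) (nat_lit 9) (.e (nat_lit 426185) (nat_lit 9) (.e (nat_lit 426396) (nat_lit 15) (.e (nat_lit 1800) (nat_lit 119) .nil))))))) (.g (nat_lit 1) (.e (nat_lit 406505) (nat_lit 0) .nil) .nil))) 
(.lf (nat_lit 594719) (.g (nat_lit 1346) (.e (nat_lit 516139) (nat_lit 7) (.e (nat_lit 409647) (nat_lit 18) (.e (nat_lit 303117) (nat_lit 2) (.e (nat_lit 196661) (nat_lit 12) .nil)))) (.g (nat_lit 0) (.e (nat_lit 407252) (nat_lit 0) .nil) .nil))))) (.nd (nat_lit 8) (.nd (nat_lit 9) 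
(.lf (nat_lit 594079) (.g (nat_lit 3043) (.e (nat_lit 516119) (nat_lit 1) (.e (nat_lit 164324) (nat_lit 230) (.e (nat_lit 163902) (nat_lit 12) (.e (nat_lit 426566) (nat_lit 34) (.e (nat_lit 393296) (nat_lit 26) .nil))))) (.g (nat_lit 0) (.e (nat_lit 406163) (nat_lit 0) .nil) .nil))) 
(.lf (nat_lit 594591) (.g (nat_lit 4456) (.e (nat_lit 516138) (nat_lit 7) (.e (nat_lit 409646) (nat_lit 18) (.e (nat_lit 303116) (nat_lit 2) (.e (nat_lit 196666) (nat_lit 13) (.e (nat_lit 65610) (nat_lit 10) (.e (nat_lit 344117) (nat_lit 21) .nil)))))) (.g (nat_lit 1) (.e (nat_lit 407092) (nat_lit 0) .nil) .nil)))) (.nd (nat_lit 9) 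
(.lf (nat_lit 594335) (.g (nat_lit 2150) (.e (nat_lit 516126) (nat_lit 2) (.e (nat_lit 213032) (nat_lit 11) (.e (nat_lit 24602) (nat_lit 2) (.e (nat_lit 90185) (nat_lit 17) (.e (nat_lit 237616) (nat_lit 12) (.e (nat_lit 475179) (nat_lit 24) .nil)))))) (.g (nat_lit 1) (.e (nat_lit 406696) (nat_lit 0) .nil) .nil))) 
(.lf (nat_lit 594847) (.g (nat_lit 2911) (.e (nat_lit 516139) (nat_lit 7) (.e (nat_lit 409649) (nat_lit 18) (.e (nat_lit 303118) (nat_lit 3) (.e (nat_lit 204855) (nat_lit 26) (.e (nat_lit 336173) (nat_lit 10) (.e (nat_lit 344116) (nat_lit 21) .nil)))))) (.g (nat_lit 1) (.e (nat_lit 407397) (nat_lit 0) .nil) .nil)))))) (.nd (nat_lit 7) (.nd (nat_lit 8) (.nd (nat_lit 9) 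
(.lf (nat_lit 594015) (.g (nat_lit 2150) (.e (nat_lit 516118) (nat_lit 1) (.e (nat_lit 164332) (nat_lit 230) (.e (nat_lit 163902) (nat_lit 12) (.e (nat_lit 426489) (nat_lit 27) .nil)))) (.g (nat_lit 0) (.e (nat_lit 406064) (nat_lit 0) .nil) .nil))) 
(.lf (nat_lit 594527) (.g (nat_lit 2552) (.e (nat_lit 516131) (nat_lit 3) (.e (nat_lit 221215) (nat_lit 23) (.e (nat_lit 204829) (nat_lit 18) (.e (nat_lit 57927) (nat_lit 282) (.e (nat_lit 163870) (nat_lit 2) (.e (nat_lit 196670) (nat_lit 14) (.e (nat_lit 73746) (nat_lit 3) .nil))))))) (.g (nat_lit 1) (.e (nat_lit 406961) (nat_lit 0) .nil) .nil)))) (.nd (nat_lit 9) 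
(.lf (nat_lit 594271) (.g (nat_lit 1118) (.e (nat_lit 516122) (nat_lit 2) (.e (nat_lit 213032) (nat_lit 11) (.e (nat_lit 24608) (nat_lit 3) (.e (nat_lit 98380) (nat_lit 31) .nil)))) (.g (nat_lit 0) (.e (nat_lit 406604) (nat_lit 0) .nil) .nil))) 
(.lf (nat_lit 594783) (.g (nat_lit 2087) (.e (nat_lit 516139) (nat_lit 7) (.e (nat_lit 409648) (nat_lit 18) (.e (nat_lit 303118) (nat_lit 3) (.e (nat_lit 204821) (nat_lit 17) (.e (nat_lit 6238) (nat_lit 336) .nil))))) (.g (nat_lit 0) (.e (nat_lit 407319) (nat_lit 0) .nil) .nil))))) (.nd (nat_lit 8) (.nd (nat_lit 9) 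
(.lf (nat_lit 594143) (.g (nat_lit 2828) (.e (nat_lit 516119) (nat_lit 1) (.e (nat_lit 164331) (nat_lit 230) (.e (nat_lit 163902) (nat_lit 12) (.e (nat_lit 426566) (nat_lit 34) (.e (nat_lit 393293) (nat_lit 26) (.e (nat_lit 475177) (nat_lit 24) .nil)))))) (.g (nat_lit 1) (.e (nat_lit 406290) (nat_lit 0) .nil) .nil))) 
(.lf (nat_lit 594655) (.g (nat_lit 2455) (.e (nat_lit 516139) (nat_lit 7) (.e (nat_lit 409644) (nat_lit 18) (.e (nat_lit 303119) (nat_lit 3) (.e (nat_lit 204861) (nat_lit 26) (.e (nat_lit 336185) (nat_lit 11) .nil))))) (.g (nat_lit 0) (.e (nat_lit 407178) (nat_lit 0) .nil) .nil)))) (.nd (nat_lit 9) 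
(.lf (nat_lit 594399) (.g (nat_lit 1061) (.e (nat_lit 516127) (nat_lit 2) (.e (nat_lit 213032) (nat_lit 11) (.e (nat_lit 24608) (nat_lit 3) (.e (nat_lit 98380) (nat_lit 31) .nil)))) (.g (nat_lit 0) (.e (nat_lit 406774) (nat_lit 0) .nil) .nil))) 
(.lf (nat_lit 594911) (.g (nat_lit 3507) (.e (nat_lit 516145) (nat_lit 9) (.e (nat_lit 426438) (nat_lit 18) (.e (nat_lit 98368) (nat_lit 27) (.e (nat_lit 434247) (nat_lit 28) (.e (nat_lit 573484) (nat_lit 13) (.e (nat_lit 65639) (nat_lit 15) (.e (nat_lit 7936) (nat_lit 195) .nil))))))) (.g (nat_lit 1) (.e (nat_lit 407488) (nat_lit 0) .nil) .nil))))))) 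
(.nd (nat_lit 6) (.nd (nat_lit 7) (.nd (nat_lit 8) (.nd (nat_lit 9) 
(.lf (nat_lit 593983) (.g (nat_lit 4012) (.e (nat_lit 516118) (nat_lit 1) (.e (nat_lit 164183) (nat_lit 154) (.e (nat_lit 57378) (nat_lit 3) (.e (nat_lit 98341) (nat_lit 20) (.e (nat_lit 221210) (nat_lit 22) (.e (nat_lit 196668) (nat_lit 14) (.e (nat_lit 73747) (nat_lit 3) .nil))))))) (.g (nat_lit 1) (.e (nat_lit 405998) (nat_lit 0) .nil) .nil))) 
(.lf (nat_lit 594495) (.g (nat_lit 3720) (.e (nat_lit 516131) (nat_lit 3) (.e (nat_lit 221193) (nat_lit 11) (.e (nat_lit 336011) (nat_lit 2) (.e (nat_lit 90170) (nat_lit 13) (.e (nat_lit 172120) (nat_lit 12) (.e (nat_lit 475179) (nat_lit 24) .nil)))))) (.g (nat_lit 1) (.e (nat_lit 406904) (nat_lit 0) .nil) .nil)))) (.nd (nat_lit 9) 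
(.lf (nat_lit 594239) (.g (nat_lit 1773) (.e (nat_lit 516120) (nat_lit 1) (.e (nat_lit 164332) (nat_lit 230) (.e (nat_lit 163905) (nat_lit 12) (.e (nat_lit 426486) (nat_lit 27) .nil)))) (.g (nat_lit 0) (.e (nat_lit 406558) (nat_lit 0) .nil) .nil))) 
(.lf (nat_lit 594751) (.g (nat_lit 2731) (.e (nat_lit 516139) (nat_lit 7) (.e (nat_lit 409648) (nat_lit 18) (.e (nat_lit 303116) (nat_lit 2) (.e (nat_lit 196666) (nat_lit 13) (.e (nat_lit 65592) (nat_lit 9) .nil))))) (.g (nat_lit 0) (.e (nat_lit 407287) (nat_lit 0) .nil) .nil))))) (.nd (nat_lit 8) (.nd (nat_lit 9) 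
(.lf (nat_lit 594111) (.g (nat_lit 1556) (.e (nat_lit 516119) (nat_lit 1) (.e (nat_lit 164325) (nat_lit 230) (.e (nat_lit 163907) (nat_lit 12) (.e (nat_lit 426568) (nat_lit 34) (.e (nat_lit 393296) (nat_lit 26) .nil))))) (.g (nat_lit 0) (.e (nat_lit 406217) (nat_lit 0) .nil) .nil))) 
(.lf (nat_lit 594623) (.g (nat_lit 2703) (.e (nat_lit 516139) (nat_lit 7) (.e (nat_lit 409616) (nat_lit 10) (.e (nat_lit 5355) (nat_lit 298) (.e (nat_lit 1235) (nat_lit 91) (.e (nat_lit 90133) (nat_lit 9) (.e (nat_lit 2397) (nat_lit 157) (.e (nat_lit 7590) (nat_lit 407) (.e (nat_lit 73748) (nat_lit 3) .nil)))))))) (.g (nat_lit 1) (.e (nat_lit 407143) (nat_lit 0) .nil) .nil)))) (.nd (nat_lit 9) 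
(.lf (nat_lit 594367) (.g (nat_lit 1464) (.e (nat_lit 516126) (nat_lit 2) (.e (nat_lit 213032) (nat_lit 11) (.e (nat_lit 24609) (nat_lit 3) (.e (nat_lit 98381) (nat_lit 31) (.e (nat_lit 466945) (nat_lit 0) (.e (nat_lit 1782) (nat_lit 119) .nil)))))) (.g (nat_lit 1) (.e (nat_lit 406730) (nat_lit 0) .nil) .nil))) 
(.lf (nat_lit 594879) (.g (nat_lit 2701) (.e (nat_lit 516142) (nat_lit 8) (.e (nat_lit 417815) (nat_lit 10) (.e (nat_lit 5612) (nat_lit 312) (.e (nat_lit 2685) (nat_lit 168) (.e (nat_lit 204868) (nat_lit 29) (.e (nat_lit 360466) (nat_lit 3) .nil)))))) (.g (nat_lit 1) (.e (nat_lit 407449) (nat_lit 0) .nil) .nil)))))) (.nd (nat_lit 7) (.nd (nat_lit 8) (.nd (nat_lit 9) 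
(.lf (nat_lit 594047) (.g (nat_lit 3073) (.e (nat_lit 516118) (nat_lit 1) (.e (nat_lit 164332) (nat_lit 230) (.e (nat_lit 163905) (nat_lit 12) (.e (nat_lit 426566) (nat_lit 34) (.e (nat_lit 393291) (nat_lit 26) (.e (nat_lit 475177) (nat_lit 24) .nil)))))) (.g (nat_lit 1) (.e (nat_lit 406098) (nat_lit 0) .nil) .nil))) 
(.lf (nat_lit 594559) (.g (nat_lit 2823) (.e (nat_lit 516138) (nat_lit 7) (.e (nat_lit 409644) (nat_lit 18) (.e (nat_lit 303119) (nat_lit 3) (.e (nat_lit 204868) (nat_lit 29) (.e (nat_lit 360467) (nat_lit 3) .nil))))) (.g (nat_lit 1) (.e (nat_lit 407041) (nat_lit 0) .nil) .nil)))) (.nd (nat_lit 9) 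
(.lf (nat_lit 594303) (.g (nat_lit 1610) (.e (nat_lit 516124) (nat_lit 2) (.e (nat_lit 213032) (nat_lit 11) (.e (nat_lit 24608) (nat_lit 3) (.e (nat_lit 98381) (nat_lit 31) (.e (nat_lit 466945) (nat_lit 0) .nil))))) (.g (nat_lit 0) (.e (nat_lit 406645) (nat_lit 0) .nil) .nil))) 
(.lf (nat_lit 594815) (.g (nat_lit 2901) (.e (nat_lit 516139) (nat_lit 7) (.e (nat_lit 409649) (nat_lit 18) (.e (nat_lit 303116) (nat_lit 2) (.e (nat_lit 196666) (nat_lit 13) (.e (nat_lit 65611) (nat_lit 10) .nil))))) (.g (nat_lit 0) (.e (nat_lit 407362) (nat_lit 0) .nil) .nil))))) (.nd (nat_lit 8) (.nd (nat_lit 9) 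
(.lf (nat_lit 594175) (.g (nat_lit 3111) (.e (nat_lit 516120) (nat_lit 1) (.e (nat_lit 164329) (nat_lit 230) (.e (nat_lit 163941) (nat_lit 19) (.e (nat_lit 483341) (nat_lit 9) (.e (nat_lit 426199) (nat_lit 9) (.e (nat_lit 426399) (nat_lit 15) (.e (nat_lit 1799) (nat_lit 119) .nil))))))) (.g (nat_lit 1) (.e (nat_lit 406419) (nat_lit 0) .nil) .nil))) 
(.lf (nat_lit 594687) (.g (nat_lit 1241) (.e (nat_lit 516139) (nat_lit 7) (.e (nat_lit 409646) (nat_lit 18) (.e (nat_lit 303112) (nat_lit 0) (.e (nat_lit 3252) (nat_lit 197) .nil)))) (.g (nat_lit 0) (.e (nat_lit 407214) (nat_lit 0) .nil) .nil)))) (.nd (nat_lit 9) 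
(.lf (nat_lit 594431) (.g (nat_lit 2870) (.e (nat_lit 516129) (nat_lit 3) (.e (nat_lit 221210) (nat_lit 22) (.e (nat_lit 196666) (nat_lit 13) (.e (nat_lit 65571) (nat_lit 3) (.e (nat_lit 98320) (nat_lit 17) (.e (nat_lit 3461) (nat_lit 216) (.e (nat_lit 688171) (nat_lit 15) (.e (nat_lit 57465) (nat_lit 23) .nil)))))))) (.g (nat_lit 1) (.e (nat_lit 406833) (nat_lit 0) .nil) .nil))) 
(.lf (nat_lit 594943) (.g (nat_lit 3064) (.e (nat_lit 516147) (nat_lit 9) (.e (nat_lit 426436) (nat_lit 18) (.e (nat_lit 98386) (nat_lit 32) (.e (nat_lit 475179) (nat_lit 24) (.e (nat_lit 516179) (nat_lit 15) (.e (nat_lit 475177) (nat_lit 24) .nil)))))) (.g (nat_lit 1) (.e (nat_lit 407523) (nat_lit 0) .nil) .nil)))))))))))))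

noncomputable def tv5641 : DT := (.nd (nat_lit 0) (.nd (nat_lit 1) (.nd (nat_lit 2) (.nd (nat_lit 3) (.nd (nat_lit 4) (.nd (nat_lit 5) (.nd (nat_lit 6) (.nd (nat_lit 7) (.nd (nat_lit 8) (.nd (nat_lit 9) 
(.lf (nat_lit 594944) (.g (nat_lit 518) (.e (nat_lit 516148) (nat_lit 9) (.e (nat_lit 426131) (nat_lit 3) (.e (nat_lit 204837) (nat_lit 20) .nil))) (.g (nat_lit 0) (.e (nat_lit 407524) (nat_lit 0) .nil) .nil))) 
(.lf (nat_lit 595456) (.g (nat_lit 6004) (.e (nat_lit 516166) (nat_lit 12) (.e (nat_lit 450588) (nat_lit 10) (.e (nat_lit 573473) (nat_lit 12) (.e (nat_lit 57354) (nat_lit 0) (.e (nat_lit 7270) (nat_lit 385) (.e (nat_lit 122913) (nat_lit 13) (.e (nat_lit 344118) (nat_lit 21) .nil))))))) (.g (nat_lit 1) (.e (nat_lit 408371) (nat_lit 0) .nil) .nil)))) (.nd (nat_lit 9) 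
(.lf (nat_lit 595200) (.g (nat_lit 2692) (.e (nat_lit 516160) (nat_lit 10) (.e (nat_lit 434244) (nat_lit 28) (.e (nat_lit 573488) (nat_lit 14) (.e (nat_lit 73747) (nat_lit 3) (.e (nat_lit 516195) (nat_lit 26) (.e (nat_lit 336278) (nat_lit 15) (.e (nat_lit 7936) (nat_lit 195) .nil))))))) (.g (nat_lit 1) (.e (nat_lit 407970) (nat_lit 0) .nil) .nil))) 
(.lf (nat_lit 595712) (.g (nat_lit 1435) (.e (nat_lit 516183) (nat_lit 16) (.e (nat_lit 491571) (nat_lit 13) (.e (nat_lit 393229) (nat_lit 9) .nil))) (.g (nat_lit 0) (.e (nat_lit 408765) (nat_lit 0) .nil) .nil))))) (.nd (nat_lit 8) (.nd (nat_lit 9) 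
(.lf (nat_lit 595072) (.g (nat_lit 1516) (.e (nat_lit 516151) (nat_lit 9) (.e (nat_lit 426285) (nat_lit 10) (.e (nat_lit 434248) (nat_lit 28) (.e (nat_lit 573471) (nat_lit 11) .nil)))) (.g (nat_lit 0) (.e (nat_lit 407689) (nat_lit 0) .nil) .nil))) 
(.lf (nat_lit 595584) (.g (nat_lit 1765) (.e (nat_lit 516179) (nat_lit 15) (.e (nat_lit 475177) (nat_lit 24) (.e (nat_lit 516169) (nat_lit 13) (.e (nat_lit 458789) (nat_lit 23) (.e (nat_lit 532508) (nat_lit 2) .nil))))) (.g (nat_lit 0) (.e (nat_lit 408545) (nat_lit 0) .nil) .nil)))) (.nd (nat_lit 9) 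
(.lf (nat_lit 595328) (.g (nat_lit 4184) (.e (nat_lit 516160) (nat_lit 10) (.e (nat_lit 434248) (nat_lit 28) (.e (nat_lit 573482) (nat_lit 13) (.e (nat_lit 65571) (nat_lit 3) (.e (nat_lit 98313) (nat_lit 9) (.e (nat_lit 336288) (nat_lit 15) (.e (nat_lit 7936) (nat_lit 195) .nil))))))) (.g (nat_lit 1) (.e (nat_lit 408147) (nat_lit 0) .nil) .nil))) 
(.lf (nat_lit 595840) (.g (nat_lit 957) (.e (nat_lit 524321) (nat_lit 12) (.e (nat_lit 450588) (nat_lit 10) (.e (nat_lit 573475) (nat_lit 12) .nil))) (.g (nat_lit 0) (.e (nat_lit 409265) (nat_lit 0) .nil) .nil)))))) (.nd (nat_lit 7) (.nd (nat_lit 8) (.nd (nat_lit 9) 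
(.lf (nat_lit 595008) (.g (nat_lit 4231) (.e (nat_lit 516151) (nat_lit 9) (.e (nat_lit 426043) (nat_lit 0) (.e (nat_lit 2425) (nat_lit 157) (.e (nat_lit 4849) (nat_lit 285) (.e (nat_lit 163869) (nat_lit 2) (.e (nat_lit 196666) (nat_lit 13) (.e (nat_lit 65610) (nat_lit 10) (.e (nat_lit 344117) (nat_lit 21) .nil)))))))) (.g (nat_lit 1) (.e (nat_lit 407618) (nat_lit 0) .nil) .nil))) 
(.lf (nat_lit 595520) (.g (nat_lit 1460) (.e (nat_lit 516175) (nat_lit 14) (.e (nat_lit 466971) (nat_lit 21) (.e (nat_lit 164178) (nat_lit 154) (.e (nat_lit 57390) (nat_lit 5) (.e (nat_lit 122624) (nat_lit 17) .nil))))) (.g (nat_lit 0) (.e (nat_lit 408461) (nat_lit 0) .nil) .nil)))) (.nd (nat_lit 9) 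
(.lf (nat_lit 595264) (.g (nat_lit 2934) (.e (nat_lit 516160) (nat_lit 10) (.e (nat_lit 434247) (nat_lit 28) (.e (nat_lit 573484) (nat_lit 13) (.e (nat_lit 65566) (nat_lit 2) (.e (nat_lit 90159) (nat_lit 11) (.e (nat_lit 24671) (nat_lit 15) (.e (nat_lit 7936) (nat_lit 195) .nil))))))) (.g (nat_lit 1) (.e (nat_lit 408051) (nat_lit 0) .nil) .nil))) 
(.lf (nat_lit 595776) (.g (nat_lit 2598) (.e (nat_lit 516195) (nat_lit 26) (.e (nat_lit 335996) (nat_lit 1) (.e (nat_lit 57931) (nat_lit 282) (.e (nat_lit 163941) (nat_lit 19) (.e (nat_lit 483398) (nat_lit 25) (.e (nat_lit 368676) (nat_lit 21) .nil)))))) (.g (nat_lit 1) (.e (nat_lit 408907) (nat_lit 0) .nil) .nil))))) (.nd (nat_lit 8) (.nd (nat_lit 9) 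
(.lf (nat_lit 595136) (.g (nat_lit 732) (.e (nat_lit 516159) (nat_lit 10) (.e (nat_lit 434231) (nat_lit 23) (.e (nat_lit 532514) (nat_lit 3) .nil))) (.g (nat_lit 0) (.e (nat_lit 407782) (nat_lit 0) .nil) .nil))) 
(.lf (nat_lit 595648) (.g (nat_lit 1413) (.e (nat_lit 516181) (nat_lit 15) (.e (nat_lit 475198) (nat_lit 40) (.e (nat_lit 704589) (nat_lit 3) (.e (nat_lit 163976) (nat_lit 30) .nil)))) (.g (nat_lit 0) (.e (nat_lit 408645) (nat_lit 0) .nil) .nil)))) (.nd (nat_lit 9) 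
(.lf (nat_lit 595392) (.g (nat_lit 3850) (.e (nat_lit 516165) (nat_lit 12) (.e (nat_lit 450588) (nat_lit 10) (.e (nat_lit 573471) (nat_lit 11) (.e (nat_lit 16473) (nat_lit 14) (.e (nat_lit 491531) (nat_lit 0) .nil))))) (.g (nat_lit 0) (.e (nat_lit 408305) (nat_lit 0) .nil) .nil))) 
(.lf (nat_lit 595904) (.g (nat_lit 2058) (.e (nat_lit 548911) (nat_lit 18) (.e (nat_lit 172126) (nat_lit 14) (.e (nat_lit 491537) (nat_lit 2) (.e (nat_lit 90176) (nat_lit 15) (.e (nat_lit 188439) (nat_lit 20) (.e (nat_lit 3271) (nat_lit 199) .nil)))))) (.g (nat_lit 1) (.e (nat_lit 409928) (nat_lit 0) .nil) .nil))))))) (.nd (nat_lit 6) (.nd (nat_lit 7) (.nd (nat_lit 8) (.nd (nat_lit 9) 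
(.lf (nat_lit 594976) (.g (nat_lit 1154) (.e (nat_lit 516149) (nat_lit 9) (.e (nat_lit 426323) (nat_lit 13) (.e (nat_lit 483364) (nat_lit 18) (.e (nat_lit 57690) (nat_lit 156) .nil)))) (.g (nat_lit 0) (.e (nat_lit 407569) (nat_lit 0) .nil) .nil))) 
(.lf (nat_lit 595488) (.g (nat_lit 1960) (.e (nat_lit 516174) (nat_lit 14) (.e (nat_lit 466954) (nat_lit 11) (.e (nat_lit 335986) (nat_lit 1) (.e (nat_lit 57690) (nat_lit 156) .nil)))) (.g (nat_lit 0) (.e (nat_lit 408427) (nat_lit 0) .nil) .nil)))) (.nd (nat_lit 9) 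
(.lf (nat_lit 595232) (.g (nat_lit 2676) (.e (nat_lit 516160) (nat_lit 10) (.e (nat_lit 434245) (nat_lit 28) (.e (nat_lit 573488) (nat_lit 14) (.e (nat_lit 73755) (nat_lit 8) (.e (nat_lit 557090) (nat_lit 12) (.e (nat_lit 164003) (nat_lit 40) (.e (nat_lit 655373) (nat_lit 3) (.e (nat_lit 171776) (nat_lit 23) .nil)))))))) (.g (nat_lit 1) (.e (nat_lit 408011) (nat_lit 0) .nil) .nil))) 
(.lf (nat_lit 595744) (.g (nat_lit 3660) (.e (nat_lit 516195) (nat_lit 26) (.e (nat_lit 335986) (nat_lit 1) (.e (nat_lit 57926) (nat_lit 282) (.e (nat_lit 163905) (nat_lit 12) (.e (nat_lit 426544) (nat_lit 30) (.e (nat_lit 360467) (nat_lit 3) .nil)))))) (.g (nat_lit 1) (.e (nat_lit 408839) (nat_lit 0) .nil) .nil))))) (.nd (nat_lit 8) (.nd (nat_lit 9) 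
(.lf (nat_lit 595104) (.g (nat_lit 4829) (.e (nat_lit 516151) (nat_lit 9) (.e (nat_lit 426286) (nat_lit 10) (.e (nat_lit 434248) (nat_lit 28) (.e (nat_lit 573470) (nat_lit 11) (.e (nat_lit 16473) (nat_lit 14) (.e (nat_lit 491526) (nat_lit 0) (.e (nat_lit 1788) (nat_lit 119) .nil))))))) (.g (nat_lit 1) (.e (nat_lit 407722) (nat_lit 0) .nil) .nil))) 
(.lf (nat_lit 595616) (.g (nat_lit 2913) (.e (nat_lit 516180) (nat_lit 15) (.e (nat_lit 475177) (nat_lit 24) (.e (nat_lit 516148) (nat_lit 9) (.e (nat_lit 426436) (nat_lit 18) (.e (nat_lit 98358) (nat_lit 26) (.e (nat_lit 426402) (nat_lit 15) (.e (nat_lit 1788) (nat_lit 119) .nil))))))) (.g (nat_lit 1) (.e (nat_lit 408599) (nat_lit 0) .nil) .nil)))) (.nd (nat_lit 9) 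
(.lf (nat_lit 595360) (.g (nat_lit 483) (.e (nat_lit 516162) (nat_lit 11) (.e (nat_lit 442390) (nat_lit 11) (.e (nat_lit 335986) (nat_lit 1) .nil))) (.g (nat_lit 0) (.e (nat_lit 408267) (nat_lit 0) .nil) .nil))) 
(.lf (nat_lit 595872) (.g (nat_lit 425) (.e (nat_lit 524340) (nat_lit 28) (.e (nat_lit 352324) (nat_lit 26) (.e (nat_lit 147512) (nat_lit 14) .nil))) (.g (nat_lit 0) (.e (nat_lit 409349) (nat_lit 0) .nil) .nil)))))) (.nd (nat_lit 7) (.nd (nat_lit 8) (.nd (nat_lit 9) 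
(.lf (nat_lit 595040) (.g (nat_lit 3090) (.e (nat_lit 516151) (nat_lit 9) (.e (nat_lit 426211) (nat_lit 9) (.e (nat_lit 426042) (nat_lit 0) (.e (nat_lit 3297) (nat_lit 202) (.e (nat_lit 573450) (nat_lit 9) (.e (nat_lit 375) (nat_lit 32) (.e (nat_lit 426173) (nat_lit 7) (.e (nat_lit 409616) (nat_lit 10) (.e (nat_lit 7936) (nat_lit 43) .nil))))))))) (.g (nat_lit 1) (.e (nat_lit 407657) (nat_lit 0) .nil) .nil))) 
(.lf (nat_lit 595552) (.g (nat_lit 2590) (.e (nat_lit 516176) (nat_lit 14) (.e (nat_lit 466980) (nat_lit 23) (.e (nat_lit 204846) (nat_lit 24) (.e (nat_lit 319504) (nat_lit 10) (.e (nat_lit 5392) (nat_lit 301) .nil))))) (.g (nat_lit 0) (.e (nat_lit 408503) (nat_lit 0) .nil) .nil)))) (.nd (nat_lit 9) 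
(.lf (nat_lit 595296) (.g (nat_lit 2208) (.e (nat_lit 516160) (nat_lit 10) (.e (nat_lit 434248) (nat_lit 28) (.e (nat_lit 573480) (nat_lit 13) (.e (nat_lit 65568) (nat_lit 2) (.e (nat_lit 90157) (nat_lit 11) (.e (nat_lit 24671) (nat_lit 15) (.e (nat_lit 7936) (nat_lit 195) .nil))))))) (.g (nat_lit 1) (.e (nat_lit 408107) (nat_lit 0) .nil) .nil))) 
(.lf (nat_lit 595808) (.g (nat_lit 2408) (.e (nat_lit 524291) (nat_lit 0) (.e (nat_lit 3459) (nat_lit 216) (.e (nat_lit 688139) (nat_lit 5) (.e (nat_lit 3085) (nat_lit 191) (.e (nat_lit 483337) (nat_lit 9) (.e (nat_lit 426296) (nat_lit 11) (.e (nat_lit 458786) (nat_lit 22) .nil))))))) (.g (nat_lit 1) (.e (nat_lit 409055) (nat_lit 0) .nil) .nil))))) (.nd (nat_lit 8) (.nd (nat_lit 9) 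
(.lf (nat_lit 595168) (.g (nat_lit 2559) (.e (nat_lit 516160) (nat_lit 10) (.e (nat_lit 434231) (nat_lit 23) (.e (nat_lit 532514) (nat_lit 3) (.e (nat_lit 114718) (nat_lit 23) (.e (nat_lit 98323) (nat_lit 17) (.e (nat_lit 3397) (nat_lit 211) (.e (nat_lit 647181) (nat_lit 3) (.e (nat_lit 171776) (nat_lit 23) .nil)))))))) (.g (nat_lit 1) (.e (nat_lit 407934) (nat_lit 0) .nil) .nil))) 
(.lf (nat_lit 595680) (.g (nat_lit 3024) (.e (nat_lit 516182) (nat_lit 15) (.e (nat_lit 475198) (nat_lit 40) (.e (nat_lit 704589) (nat_lit 3) (.e (nat_lit 163976) (nat_lit 30) (.e (nat_lit 573491) (nat_lit 15) (.e (nat_lit 81946) (nat_lit 20) (.e (nat_lit 1802) (nat_lit 119) .nil))))))) (.g (nat_lit 1) (.e (nat_lit 408699) (nat_lit 0) .nil) .nil)))) (.nd (nat_lit 9) 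
(.lf (nat_lit 595424) (.g (nat_lit 4530) (.e (nat_lit 516166) (nat_lit 12) (.e (nat_lit 450587) (nat_lit 10) (.e (nat_lit 573478) (nat_lit 12) (.e (nat_lit 57574) (nat_lit 55) (.e (nat_lit 778452) (nat_lit 10) (.e (nat_lit 8543) (nat_lit 229) (.e (nat_lit 229497) (nat_lit 84) .nil))))))) (.g (nat_lit 1) (.e (nat_lit 408339) (nat_lit 0) .nil) .nil))) 
(.lf (nat_lit 595936) (.g (nat_lit 3271) (.e (nat_lit 548913) (nat_lit 18) (.e (nat_lit 172120) (nat_lit 12) (.e (nat_lit 475183) (nat_lit 29) (.e (nat_lit 557108) (nat_lit 15) (.e (nat_lit 188434) (nat_lit 20) (.e (nat_lit 3271) (nat_lit 199) .nil)))))) (.g (nat_lit 1) (.e (nat_lit 410279) (nat_lit 0) .nil) .nil)))))))) 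
(.nd (nat_lit 5) (.nd (nat_lit 6) (.nd (nat_lit 7) (.nd (nat_lit 8) (.nd (nat_lit 9) 
(.lf (nat_lit 594960) (.g (nat_lit 1530) (.e (nat_lit 516149) (nat_lit 9) (.e (nat_lit 426131) (nat_lit 3) (.e (nat_lit 204837) (nat_lit 20) (.e (nat_lit 114688) (nat_lit 0) .nil)))) (.g (nat_lit 0) (.e (nat_lit 407543) (nat_lit 0) .nil) .nil))) 
(.lf (nat_lit 595472) (.g (nat_lit 1401) (.e (nat_lit 516170) (nat_lit 13) (.e (nat_lit 458789) (nat_lit 23) (.e (nat_lit 532513) (nat_lit 3) (.e (nat_lit 114714) (nat_lit 22) .nil)))) (.g (nat_lit 0) (.e (nat_lit 408397) (nat_lit 0) .nil) .nil)))) (.nd (nat_lit 9) 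
(.lf (nat_lit 595216) (.g (nat_lit 3398) (.e (nat_lit 516160) (nat_lit 10) (.e (nat_lit 434245) (nat_lit 28) (.e (nat_lit 573481) (nat_lit 13) (.e (nat_lit 65571) (nat_lit 3) (.e (nat_lit 98313) (nat_lit 9) (.e (nat_lit 336288) (nat_lit 15) (.e (nat_lit 7936) (nat_lit 195) .nil))))))) (.g (nat_lit 1) (.e (nat_lit 407990) (nat_lit 0) .nil) .nil))) 
(.lf (nat_lit 595728) (.g (nat_lit 3104) (.e (nat_lit 516191) (nat_lit 17) (.e (nat_lit 6209) (nat_lit 333) (.e (nat_lit 57881) (nat_lit 270) (.e (nat_lit 371) (nat_lit 32) (.e (nat_lit 426544) (nat_lit 30) (.e (nat_lit 360467) (nat_lit 3) .nil)))))) (.g (nat_lit 1) (.e (nat_lit 408793) (nat_lit 0) .nil) .nil))))) (.nd (nat_lit 8) (.nd (nat_lit 9) 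
(.lf (nat_lit 595088) (.g (nat_lit 4181) (.e (nat_lit 516151) (nat_lit 9) (.e (nat_lit 426286) (nat_lit 10) (.e (nat_lit 434245) (nat_lit 28) (.e (nat_lit 573471) (nat_lit 11) (.e (nat_lit 16425) (nat_lit 7) (.e (nat_lit 409616) (nat_lit 10) (.e (nat_lit 7936) (nat_lit 43) .nil))))))) (.g (nat_lit 1) (.e (nat_lit 407706) (nat_lit 0) .nil) .nil))) 
(.lf (nat_lit 595600) (.g (nat_lit 3416) (.e (nat_lit 516179) (nat_lit 15) (.e (nat_lit 475198) (nat_lit 40) (.e (nat_lit 704589) (nat_lit 3) (.e (nat_lit 163975) (nat_lit 30) (.e (nat_lit 573491) (nat_lit 15) (.e (nat_lit 81946) (nat_lit 20) (.e (nat_lit 1802) (nat_lit 119) .nil))))))) (.g (nat_lit 1) (.e (nat_lit 408564) (nat_lit 0) .nil) .nil)))) (.nd (nat_lit 9) 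
(.lf (nat_lit 595344) (.g (nat_lit 2914) (.e (nat_lit 516160) (nat_lit 10) (.e (nat_lit 434248) (nat_lit 28) (.e (nat_lit 573489) (nat_lit 14) (.e (nat_lit 73747) (nat_lit 3) (.e (nat_lit 516195) (nat_lit 26) (.e (nat_lit 336288) (nat_lit 15) (.e (nat_lit 7936) (nat_lit 195) .nil))))))) (.g (nat_lit 1) (.e (nat_lit 408172) (nat_lit 0) .nil) .nil))) 
(.lf (nat_lit 595856) (.g (nat_lit 2813) (.e (nat_lit 524322) (nat_lit 12) (.e (nat_lit 450588) (nat_lit 10) (.e (nat_lit 573450) (nat_lit 9) (.e (nat_lit 375) (nat_lit 32) (.e (nat_lit 426173) (nat_lit 7) (.e (nat_lit 409616) (nat_lit 10) (.e (nat_lit 588) (nat_lit 44) .nil))))))) (.g (nat_lit 1) (.e (nat_lit 409284) (nat_lit 0) .nil) .nil)))))) (.nd (nat_lit 7) (.nd (nat_lit 8) (.nd (nat_lit 9) 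
(.lf (nat_lit 595024) (.g (nat_lit 4116) (.e (nat_lit 516151) (nat_lit 9) (.e (nat_lit 426043) (nat_lit 0) (.e (nat_lit 3408) (nat_lit 212) (.e (nat_lit 655373) (nat_lit 3) (.e (nat_lit 163975) (nat_lit 30) (.e (nat_lit 573481) (nat_lit 13) (.e (nat_lit 65619) (nat_lit 10) (.e (nat_lit 344117) (nat_lit 21) .nil)))))))) (.g (nat_lit 1) (.e (nat_lit 407634) (nat_lit 0) .nil) .nil))) 
(.lf (nat_lit 595536) (.g (nat_lit 1949) (.e (nat_lit 516176) (nat_lit 14) (.e (nat_lit 466954) (nat_lit 11) (.e (nat_lit 335986) (nat_lit 1) (.e (nat_lit 57690) (nat_lit 156) .nil)))) (.g (nat_lit 0) (.e (nat_lit 408484) (nat_lit 0) .nil) .nil)))) (.nd (nat_lit 9) 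
(.lf (nat_lit 595280) (.g (nat_lit 2138) (.e (nat_lit 516160) (nat_lit 10) (.e (nat_lit 434247) (nat_lit 28) (.e (nat_lit 573485) (nat_lit 13) (.e (nat_lit 65568) (nat_lit 2) (.e (nat_lit 90157) (nat_lit 11) (.e (nat_lit 24670) (nat_lit 15) (.e (nat_lit 7936) (nat_lit 195) .nil))))))) (.g (nat_lit 1) (.e (nat_lit 408079) (nat_lit 0) .nil) .nil))) 
(.lf (nat_lit 595792) (.g (nat_lit 2419) (.e (nat_lit 516199) (nat_lit 26) (.e (nat_lit 335995) (nat_lit 1) (.e (nat_lit 57931) (nat_lit 282) (.e (nat_lit 163905) (nat_lit 12) (.e (nat_lit 426546) (nat_lit 30) (.e (nat_lit 360466) (nat_lit 3) .nil)))))) (.g (nat_lit 1) (.e (nat_lit 408993) (nat_lit 0) .nil) .nil))))) (.nd (nat_lit 8) (.nd (nat_lit 9) 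
(.lf (nat_lit 595152) (.g (nat_lit 2708) (.e (nat_lit 516159) (nat_lit 10) (.e (nat_lit 434244) (nat_lit 28) (.e (nat_lit 573488) (nat_lit 14) (.e (nat_lit 73755) (nat_lit 8) (.e (nat_lit 557119) (nat_lit 18) .nil))))) (.g (nat_lit 0) (.e (nat_lit 407845) (nat_lit 0) .nil) .nil))) 
(.lf (nat_lit 595664) (.g (nat_lit 2947) (.e (nat_lit 516182) (nat_lit 15) (.e (nat_lit 475177) (nat_lit 24) (.e (nat_lit 516179) (nat_lit 15) (.e (nat_lit 475179) (nat_lit 24) (.e (nat_lit 516179) (nat_lit 15) (.e (nat_lit 475177) (nat_lit 24) .nil)))))) (.g (nat_lit 1) (.e (nat_lit 408674) (nat_lit 0) .nil) .nil)))) (.nd (nat_lit 9) 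
(.lf (nat_lit 595408) (.g (nat_lit 2750) (.e (nat_lit 516166) (nat_lit 12) (.e (nat_lit 450587) (nat_lit 10) (.e (nat_lit 573457) (nat_lit 9) (.e (nat_lit 430) (nat_lit 32) (.e (nat_lit 426343) (nat_lit 14) (.e (nat_lit 491526) (nat_lit 0) (.e (nat_lit 7936) (nat_lit 119) .nil))))))) (.g (nat_lit 1) (.e (nat_lit 408323) (nat_lit 0) .nil) .nil))) 
(.lf (nat_lit 595920) (.g (nat_lit 1807) (.e (nat_lit 548912) (nat_lit 18) (.e (nat_lit 172126) (nat_lit 14) (.e (nat_lit 491537) (nat_lit 2) (.e (nat_lit 90185) (nat_lit 17) .nil)))) (.g (nat_lit 0) (.e (nat_lit 409958) (nat_lit 0) .nil) .nil))))))) (.nd (nat_lit 6) (.nd (nat_lit 7) (.nd (nat_lit 8) (.nd (nat_lit 9) 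
(.lf (nat_lit 594992) (.g (nat_lit 2123) (.e (nat_lit 516150) (nat_lit 9) (.e (nat_lit 426323) (nat_lit 13) (.e (nat_lit 483363) (nat_lit 18) (.e (nat_lit 57689) (nat_lit 156) (.e (nat_lit 163939) (nat_lit 18) .nil))))) (.g (nat_lit 0) (.e (nat_lit 407597) (nat_lit 0) .nil) .nil))) 
(.lf (nat_lit 595504) (.g (nat_lit 2792) (.e (nat_lit 516174) (nat_lit 14) (.e (nat_lit 466954) (nat_lit 11) (.e (nat_lit 335994) (nat_lit 1) (.e (nat_lit 57688) (nat_lit 156) (.e (nat_lit 163936) (nat_lit 18) (.e (nat_lit 475179) (nat_lit 24) .nil)))))) (.g (nat_lit 1) (.e (nat_lit 408444) (nat_lit 0) .nil) .nil)))) (.nd (nat_lit 9) 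
(.lf (nat_lit 595248) (.g (nat_lit 3088) (.e (nat_lit 516160) (nat_lit 10) (.e (nat_lit 434246) (nat_lit 28) (.e (nat_lit 573487) (nat_lit 14) (.e (nat_lit 73747) (nat_lit 3) (.e (nat_lit 516195) (nat_lit 26) (.e (nat_lit 336278) (nat_lit 15) (.e (nat_lit 7936) (nat_lit 195) .nil))))))) (.g (nat_lit 1) (.e (nat_lit 408030) (nat_lit 0) .nil) .nil))) 
(.lf (nat_lit 595760) (.g (nat_lit 3418) (.e (nat_lit 516195) (nat_lit 26) (.e (nat_lit 335988) (nat_lit 1) (.e (nat_lit 57927) (nat_lit 282) (.e (nat_lit 163905) (nat_lit 12) (.e (nat_lit 426544) (nat_lit 30) (.e (nat_lit 360467) (nat_lit 3) .nil)))))) (.g (nat_lit 1) (.e (nat_lit 408866) (nat_lit 0) .nil) .nil))))) (.nd (nat_lit 8) (.nd (nat_lit 9) 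
(.lf (nat_lit 595120) (.g (nat_lit 2855) (.e (nat_lit 516154) (nat_lit 9) (.e (nat_lit 426286) (nat_lit 10) (.e (nat_lit 434245) (nat_lit 28) (.e (nat_lit 573471) (nat_lit 11) (.e (nat_lit 16425) (nat_lit 7) (.e (nat_lit 409616) (nat_lit 10) (.e (nat_lit 7936) (nat_lit 43) .nil))))))) (.g (nat_lit 1) (.e (nat_lit 407745) (nat_lit 0) .nil) .nil))) 
(.lf (nat_lit 595632) (.g (nat_lit 3202) (.e (nat_lit 516181) (nat_lit 15) (.e (nat_lit 475176) (nat_lit 24) (.e (nat_lit 516179) (nat_lit 15) (.e (nat_lit 475179) (nat_lit 24) (.e (nat_lit 516179) (nat_lit 15) (.e (nat_lit 475177) (nat_lit 24) .nil)))))) (.g (nat_lit 1) (.e (nat_lit 408620) (nat_lit 0) .nil) .nil)))) (.nd (nat_lit 9) 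
(.lf (nat_lit 595376) (.g (nat_lit 2643) (.e (nat_lit 516163) (nat_lit 11) (.e (nat_lit 442427) (nat_lit 23) (.e (nat_lit 204846) (nat_lit 24) (.e (nat_lit 319533) (nat_lit 16) (.e (nat_lit 286725) (nat_lit 0) .nil))))) (.g (nat_lit 0) (.e (nat_lit 408284) (nat_lit 0) .nil) .nil))) 
(.lf (nat_lit 595888) (.g (nat_lit 2289) (.e (nat_lit 548907) (nat_lit 16) (.e (nat_lit 24655) (nat_lit 13) (.e (nat_lit 393251) (nat_lit 18) (.e (nat_lit 164179) (nat_lit 154) .nil)))) (.g (nat_lit 0) (.e (nat_lit 409891) (nat_lit 0) .nil) .nil)))))) (.nd (nat_lit 7) (.nd (nat_lit 8) (.nd (nat_lit 9) 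
(.lf (nat_lit 595056) (.g (nat_lit 1838) (.e (nat_lit 516151) (nat_lit 9) (.e (nat_lit 426285) (nat_lit 10) (.e (nat_lit 434243) (nat_lit 28) (.e (nat_lit 573471) (nat_lit 11) (.e (nat_lit 16425) (nat_lit 7) .nil))))) (.g (nat_lit 0) (.e (nat_lit 407673) (nat_lit 0) .nil) .nil))) 
(.lf (nat_lit 595568) (.g (nat_lit 731) (.e (nat_lit 516178) (nat_lit 15) (.e (nat_lit 475210) (nat_lit 41) (.e (nat_lit 712722) (nat_lit 15) .nil))) (.g (nat_lit 0) (.e (nat_lit 408526) (nat_lit 0) .nil) .nil)))) (.nd (nat_lit 9) 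
(.lf (nat_lit 595312) (.g (nat_lit 4270) (.e (nat_lit 516160) (nat_lit 10) (.e (nat_lit 434248) (nat_lit 28) (.e (nat_lit 573482) (nat_lit 13) (.e (nat_lit 65567) (nat_lit 2) (.e (nat_lit 90160) (nat_lit 11) (.e (nat_lit 24671) (nat_lit 15) (.e (nat_lit 7936) (nat_lit 195) .nil))))))) (.g (nat_lit 1) (.e (nat_lit 408125) (nat_lit 0) .nil) .nil))) 
(.lf (nat_lit 595824) (.g (nat_lit 3103) (.e (nat_lit 524319) (nat_lit 11) (.e (nat_lit 442427) (nat_lit 23) (.e (nat_lit 204863) (nat_lit 27) (.e (nat_lit 344156) (nat_lit 36) (.e (nat_lit 638985) (nat_lit 5) (.e (nat_lit 2450) (nat_lit 157) (.e (nat_lit 3223) (nat_lit 196) .nil))))))) (.g (nat_lit 1) (.e (nat_lit 409237) (nat_lit 0) .nil) .nil))))) (.nd (nat_lit 8) (.nd (nat_lit 9) 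
(.lf (nat_lit 595184) (.g (nat_lit 2039) (.e (nat_lit 516160) (nat_lit 10) (.e (nat_lit 434244) (nat_lit 28) (.e (nat_lit 573481) (nat_lit 13) (.e (nat_lit 65570) (nat_lit 3) (.e (nat_lit 98315) (nat_lit 9) (.e (nat_lit 336277) (nat_lit 15) (.e (nat_lit 7936) (nat_lit 195) .nil))))))) (.g (nat_lit 1) (.e (nat_lit 407951) (nat_lit 0) .nil) .nil))) 
(.lf (nat_lit 595696) (.g (nat_lit 3410) (.e (nat_lit 516182) (nat_lit 15) (.e (nat_lit 475199) (nat_lit 40) (.e (nat_lit 704589) (nat_lit 3) (.e (nat_lit 163978) (nat_lit 30) (.e (nat_lit 573485) (nat_lit 13) (.e (nat_lit 65619) (nat_lit 10) (.e (nat_lit 344116) (nat_lit 21) .nil))))))) (.g (nat_lit 1) (.e (nat_lit 408741) (nat_lit 0) .nil) .nil)))) (.nd (nat_lit 9) 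
(.lf (nat_lit 595440) (.g (nat_lit 4446) (.e (nat_lit 516166) (nat_lit 12) (.e (nat_lit 450588) (nat_lit 10) (.e (nat_lit 573451) (nat_lit 9) (.e (nat_lit 359) (nat_lit 30) (.e (nat_lit 409605) (nat_lit 0) (.e (nat_lit 5394) (nat_lit 301) (.e (nat_lit 57464) (nat_lit 23) .nil))))))) (.g (nat_lit 1) (.e (nat_lit 408355) (nat_lit 0) .nil) .nil))) 
(.lf (nat_lit 595952) (.g (nat_lit 606) (.e (nat_lit 548913) (nat_lit 18) (.e (nat_lit 172124) (nat_lit 14) (.e (nat_lit 491539) (nat_lit 3) .nil))) (.g (nat_lit 0) (.e (nat_lit 410298) (nat_lit 0) .nil) .nil))))))))) (.nd (nat_lit 4) (.nd (nat_lit 5) (.nd (nat_lit 6) (.nd (nat_lit 7) (.nd (nat_lit 8) (.nd (nat_lit 9) 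
(.lf (nat_lit 594952) (.g (nat_lit 2100) (.e (nat_lit 516148) (nat_lit 9) (.e (nat_lit 426436) (nat_lit 18) (.e (nat_lit 98358) (nat_lit 26) (.e (nat_lit 426357) (nat_lit 15) .nil)))) (.g (nat_lit 0) (.e (nat_lit 407534) (nat_lit 0) .nil) .nil))) 
(.lf (nat_lit 595464) (.g (nat_lit 1466) (.e (nat_lit 516166) (nat_lit 12) (.e (nat_lit 450588) (nat_lit 10) (.e (nat_lit 573475) (nat_lit 12) (.e (nat_lit 57574) (nat_lit 55) (.e (nat_lit 778464) (nat_lit 11) .nil))))) (.g (nat_lit 0) (.e (nat_lit 408379) (nat_lit 0) .nil) .nil)))) (.nd (nat_lit 9) 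
(.lf (nat_lit 595208) (.g (nat_lit 2021) (.e (nat_lit 516160) (nat_lit 10) (.e (nat_lit 434245) (nat_lit 28) (.e (nat_lit 573481) (nat_lit 13) (.e (nat_lit 65566) (nat_lit 2) (.e (nat_lit 90157) (nat_lit 11) (.e (nat_lit 24671) (nat_lit 15) (.e (nat_lit 7936) (nat_lit 195) .nil))))))) (.g (nat_lit 1) (.e (nat_lit 407980) (nat_lit 0) .nil) .nil))) 
(.lf (nat_lit 595720) (.g (nat_lit 3704) (.e (nat_lit 516185) (nat_lit 16) (.e (nat_lit 491556) (nat_lit 9) (.e (nat_lit 336305) (nat_lit 15) (.e (nat_lit 3307) (nat_lit 202) (.e (nat_lit 573485) (nat_lit 13) (.e (nat_lit 65619) (nat_lit 10) (.e (nat_lit 344117) (nat_lit 21) .nil))))))) (.g (nat_lit 1) (.e (nat_lit 408776) (nat_lit 0) .nil) .nil))))) (.nd (nat_lit 8) (.nd (nat_lit 9) 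
(.lf (nat_lit 595080) (.g (nat_lit 3051) (.e (nat_lit 516151) (nat_lit 9) (.e (nat_lit 426286) (nat_lit 10) (.e (nat_lit 434245) (nat_lit 28) (.e (nat_lit 573470) (nat_lit 11) (.e (nat_lit 16385) (nat_lit 0) (.e (nat_lit 7583) (nat_lit 405) (.e (nat_lit 57464) (nat_lit 23) .nil))))))) (.g (nat_lit 1) (.e (nat_lit 407698) (nat_lit 0) .nil) .nil))) 
(.lf (nat_lit 595592) (.g (nat_lit 2848) (.e (nat_lit 516179) (nat_lit 15) (.e (nat_lit 475179) (nat_lit 24) (.e (nat_lit 516146) (nat_lit 9) (.e (nat_lit 426438) (nat_lit 18) (.e (nat_lit 98385) (nat_lit 32) (.e (nat_lit 475177) (nat_lit 24) .nil)))))) (.g (nat_lit 1) (.e (nat_lit 408555) (nat_lit 0) .nil) .nil)))) (.nd (nat_lit 9) 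
(.lf (nat_lit 595336) (.g (nat_lit 3797) (.e (nat_lit 516160) (nat_lit 10) (.e (nat_lit 434248) (nat_lit 28) (.e (nat_lit 573487) (nat_lit 14) (.e (nat_lit 73747) (nat_lit 3) (.e (nat_lit 516195) (nat_lit 26) (.e (nat_lit 336275) (nat_lit 15) (.e (nat_lit 7936) (nat_lit 195) .nil))))))) (.g (nat_lit 1) (.e (nat_lit 408160) (nat_lit 0) .nil) .nil))) 
(.lf (nat_lit 595848) (.g (nat_lit 2489) (.e (nat_lit 524322) (nat_lit 12) (.e (nat_lit 450587) (nat_lit 10) (.e (nat_lit 573477) (nat_lit 12) (.e (nat_lit 57575) (nat_lit 55) (.e (nat_lit 778463) (nat_lit 11) .nil))))) (.g (nat_lit 0) (.e (nat_lit 409276) (nat_lit 0) .nil) .nil)))))) (.nd (nat_lit 7) (.nd (nat_lit 8) (.nd (nat_lit 9) 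
(.lf (nat_lit 595016) (.g (nat_lit 4378) (.e (nat_lit 516151) (nat_lit 9) (.e (nat_lit 426043) (nat_lit 0) (.e (nat_lit 3371) (nat_lit 208) (.e (nat_lit 622625) (nat_lit 13) (.e (nat_lit 2663) (nat_lit 167) (.e (nat_lit 196666) (nat_lit 13) (.e (nat_lit 65610) (nat_lit 10) (.e (nat_lit 344117) (nat_lit 21) .nil)))))))) (.g (nat_lit 1) (.e (nat_lit 407626) (nat_lit 0) .nil) .nil))) 
(.lf (nat_lit 595528) (.g (nat_lit 1937) (.e (nat_lit 516176) (nat_lit 14) (.e (nat_lit 466954) (nat_lit 11) (.e (nat_lit 335986) (nat_lit 1) (.e (nat_lit 57664) (nat_lit 152) .nil)))) (.g (nat_lit 0) (.e (nat_lit 408473) (nat_lit 0) .nil) .nil)))) (.nd (nat_lit 9) 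
(.lf (nat_lit 595272) (.g (nat_lit 1524) (.e (nat_lit 516160) (nat_lit 10) (.e (nat_lit 434247) (nat_lit 28) (.e (nat_lit 573484) (nat_lit 13) (.e (nat_lit 65571) (nat_lit 3) .nil)))) (.g (nat_lit 0) (.e (nat_lit 408063) (nat_lit 0) .nil) .nil))) 
(.lf (nat_lit 595784) (.g (nat_lit 2480) (.e (nat_lit 516198) (nat_lit 26) (.e (nat_lit 335995) (nat_lit 1) (.e (nat_lit 57931) (nat_lit 282) (.e (nat_lit 163943) (nat_lit 19) (.e (nat_lit 483398) (nat_lit 25) .nil))))) (.g (nat_lit 0) (.e (nat_lit 408980) (nat_lit 0) .nil) .nil))))) (.nd (nat_lit 8) (.nd (nat_lit 9) 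
(.lf (nat_lit 595144) (.g (nat_lit 1900) (.e (nat_lit 516159) (nat_lit 10) (.e (nat_lit 434244) (nat_lit 28) (.e (nat_lit 573481) (nat_lit 13) (.e (nat_lit 65640) (nat_lit 15) .nil)))) (.g (nat_lit 0) (.e (nat_lit 407820) (nat_lit 0) .nil) .nil))) 
(.lf (nat_lit 595656) (.g (nat_lit 1042) (.e (nat_lit 516182) (nat_lit 15) (.e (nat_lit 475176) (nat_lit 24) (.e (nat_lit 516179) (nat_lit 15) (.e (nat_lit 475177) (nat_lit 24) .nil)))) (.g (nat_lit 0) (.e (nat_lit 408665) (nat_lit 0) .nil) .nil)))) (.nd (nat_lit 9) 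
(.lf (nat_lit 595400) (.g (nat_lit 6925) (.e (nat_lit 516166) (nat_lit 12) (.e (nat_lit 450587) (nat_lit 10) (.e (nat_lit 573450) (nat_lit 9) (.e (nat_lit 375) (nat_lit 32) (.e (nat_lit 426173) (nat_lit 7) (.e (nat_lit 409616) (nat_lit 10) (.e (nat_lit 7936) (nat_lit 43) .nil))))))) (.g (nat_lit 1) (.e (nat_lit 408315) (nat_lit 0) .nil) .nil))) 
(.lf (nat_lit 595912) (.g (nat_lit 1294) (.e (nat_lit 548911) (nat_lit 18) (.e (nat_lit 172126) (nat_lit 14) (.e (nat_lit 491540) (nat_lit 3) (.e (nat_lit 98381) (nat_lit 31) .nil)))) (.g (nat_lit 0) (.e (nat_lit 409936) (nat_lit 0) .nil) .nil))))))) (.nd (nat_lit 6) (.nd (nat_lit 7) (.nd (nat_lit 8) (.nd (nat_lit 9) 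
(.lf (nat_lit 594984) (.g (nat_lit 2201) (.e (nat_lit 516149) (nat_lit 9) (.e (nat_lit 426436) (nat_lit 18) (.e (nat_lit 98386) (nat_lit 32) (.e (nat_lit 475177) (nat_lit 24) (.e (nat_lit 516181) (nat_lit 15) .nil))))) (.g (nat_lit 0) (.e (nat_lit 407584) (nat_lit 0) .nil) .nil))) 
(.lf (nat_lit 595496) (.g (nat_lit 446) (.e (nat_lit 516174) (nat_lit 14) (.e (nat_lit 466954) (nat_lit 11) (.e (nat_lit 335988) (nat_lit 1) .nil))) (.g (nat_lit 0) (.e (nat_lit 408436) (nat_lit 0) .nil) .nil)))) (.nd (nat_lit 9) 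
(.lf (nat_lit 595240) (.g (nat_lit 2801) (.e (nat_lit 516160) (nat_lit 10) (.e (nat_lit 434246) (nat_lit 28) (.e (nat_lit 573484) (nat_lit 13) (.e (nat_lit 65566) (nat_lit 2) (.e (nat_lit 90157) (nat_lit 11) (.e (nat_lit 24670) (nat_lit 15) (.e (nat_lit 7936) (nat_lit 195) .nil))))))) (.g (nat_lit 1) (.e (nat_lit 408022) (nat_lit 0) .nil) .nil))) 
(.lf (nat_lit 595752) (.g (nat_lit 1164) (.e (nat_lit 516195) (nat_lit 26) (.e (nat_lit 335988) (nat_lit 1) (.e (nat_lit 57924) (nat_lit 282) .nil))) (.g (nat_lit 0) (.e (nat_lit 408854) (nat_lit 0) .nil) .nil))))) (.nd (nat_lit 8) (.nd (nat_lit 9) 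
(.lf (nat_lit 595112) (.g (nat_lit 2061) (.e (nat_lit 516151) (nat_lit 9) (.e (nat_lit 426290) (nat_lit 10) (.e (nat_lit 434244) (nat_lit 28) (.e (nat_lit 573450) (nat_lit 9) (.e (nat_lit 375) (nat_lit 32) (.e (nat_lit 426173) (nat_lit 7) (.e (nat_lit 409617) (nat_lit 10) (.e (nat_lit 7936) (nat_lit 43) .nil)))))))) (.g (nat_lit 1) (.e (nat_lit 407730) (nat_lit 0) .nil) .nil))) 
(.lf (nat_lit 595624) (.g (nat_lit 2103) (.e (nat_lit 516180) (nat_lit 15) (.e (nat_lit 475177) (nat_lit 24) (.e (nat_lit 516182) (nat_lit 15) (.e (nat_lit 475179) (nat_lit 24) (.e (nat_lit 516182) (nat_lit 15) (.e (nat_lit 475177) (nat_lit 24) .nil)))))) (.g (nat_lit 1) (.e (nat_lit 408609) (nat_lit 0) .nil) .nil)))) (.nd (nat_lit 9) 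
(.lf (nat_lit 595368) (.g (nat_lit 2667) (.e (nat_lit 516163) (nat_lit 11) (.e (nat_lit 442408) (nat_lit 20) (.e (nat_lit 3298) (nat_lit 202) (.e (nat_lit 573450) (nat_lit 9) (.e (nat_lit 375) (nat_lit 32) (.e (nat_lit 426173) (nat_lit 7) (.e (nat_lit 409616) (nat_lit 10) (.e (nat_lit 7936) (nat_lit 43) .nil)))))))) (.g (nat_lit 1) (.e (nat_lit 408276) (nat_lit 0) .nil) .nil))) 
(.lf (nat_lit 595880) (.g (nat_lit 530) (.e (nat_lit 548896) (nat_lit 14) (.e (nat_lit 3022) (nat_lit 187) (.e (nat_lit 450580) (nat_lit 5) .nil))) (.g (nat_lit 0) (.e (nat_lit 409400) (nat_lit 0) .nil) .nil)))))) (.nd (nat_lit 7) (.nd (nat_lit 8) (.nd (nat_lit 9) 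
(.lf (nat_lit 595048) (.g (nat_lit 5645) (.e (nat_lit 516151) (nat_lit 9) (.e (nat_lit 426211) (nat_lit 9) (.e (nat_lit 426125) (nat_lit 2) (.e (nat_lit 196666) (nat_lit 13) (.e (nat_lit 65545) (nat_lit 0) .nil))))) (.g (nat_lit 0) (.e (nat_lit 407665) (nat_lit 0) .nil) .nil))) 
(.lf (nat_lit 595560) (.g (nat_lit 2869) (.e (nat_lit 516178) (nat_lit 15) (.e (nat_lit 475179) (nat_lit 24) (.e (nat_lit 516146) (nat_lit 9) (.e (nat_lit 426438) (nat_lit 18) (.e (nat_lit 98384) (nat_lit 32) .nil))))) (.g (nat_lit 0) (.e (nat_lit 408515) (nat_lit 0) .nil) .nil)))) (.nd (nat_lit 9) 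
(.lf (nat_lit 595304) (.g (nat_lit 3310) (.e (nat_lit 516160) (nat_lit 10) (.e (nat_lit 434248) (nat_lit 28) (.e (nat_lit 573482) (nat_lit 13) (.e (nat_lit 65566) (nat_lit 2) (.e (nat_lit 90157) (nat_lit 11) (.e (nat_lit 24671) (nat_lit 15) (.e (nat_lit 7936) (nat_lit 195) .nil))))))) (.g (nat_lit 1) (.e (nat_lit 408117) (nat_lit 0) .nil) .nil))) 
(.lf (nat_lit 595816) (.g (nat_lit 807) (.e (nat_lit 524316) (nat_lit 10) (.e (nat_lit 434271) (nat_lit 38) (.e (nat_lit 655375) (nat_lit 3) (.e (nat_lit 163979) (nat_lit 30) .nil)))) (.g (nat_lit 0) (.e (nat_lit 409210) (nat_lit 0) .nil) .nil))))) (.nd (nat_lit 8) (.nd (nat_lit 9) 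
(.lf (nat_lit 595176) (.g (nat_lit 2251) (.e (nat_lit 516160) (nat_lit 10) (.e (nat_lit 434244) (nat_lit 28) (.e (nat_lit 573481) (nat_lit 13) (.e (nat_lit 65566) (nat_lit 2) (.e (nat_lit 90157) (nat_lit 11) (.e (nat_lit 24671) (nat_lit 15) (.e (nat_lit 7936) (nat_lit 195) .nil))))))) (.g (nat_lit 1) (.e (nat_lit 407942) (nat_lit 0) .nil) .nil))) 
(.lf (nat_lit 595688) (.g (nat_lit 2290) (.e (nat_lit 516182) (nat_lit 15) (.e (nat_lit 475199) (nat_lit 40) (.e (nat_lit 704589) (nat_lit 3) (.e (nat_lit 163975) (nat_lit 30) (.e (nat_lit 573491) (nat_lit 15) (.e (nat_lit 81943) (nat_lit 20) (.e (nat_lit 1781) (nat_lit 119) .nil))))))) (.g (nat_lit 1) (.e (nat_lit 408720) (nat_lit 0) .nil) .nil)))) (.nd (nat_lit 9) 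
(.lf (nat_lit 595432) (.g (nat_lit 4285) (.e (nat_lit 516166) (nat_lit 12) (.e (nat_lit 450588) (nat_lit 10) (.e (nat_lit 573449) (nat_lit 9) (.e (nat_lit 375) (nat_lit 32) (.e (nat_lit 426173) (nat_lit 7) (.e (nat_lit 409616) (nat_lit 10) (.e (nat_lit 7936) (nat_lit 43) .nil))))))) (.g (nat_lit 1) (.e (nat_lit 408347) (nat_lit 0) .nil) .nil))) 
(.lf (nat_lit 595944) (.g (nat_lit 542) (.e (nat_lit 548913) (nat_lit 18) (.e (nat_lit 172124) (nat_lit 14) (.e (nat_lit 491536) (nat_lit 2) .nil))) (.g (nat_lit 0) (.e (nat_lit 410289) (nat_lit 0) .nil) .nil)))))))) (.nd (nat_lit 5) (.nd (nat_lit 6) (.nd (nat_lit 7) (.nd (nat_lit 8) (.nd (nat_lit 9) 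
(.lf (nat_lit 594968) (.g (nat_lit 2695) (.e (nat_lit 516149) (nat_lit 9) (.e (nat_lit 426323) (nat_lit 13) (.e (nat_lit 483363) (nat_lit 18) (.e (nat_lit 57686) (nat_lit 156) (.e (nat_lit 163936) (nat_lit 18) (.e (nat_lit 475177) (nat_lit 24) .nil)))))) (.g (nat_lit 1) (.e (nat_lit 407560) (nat_lit 0) .nil) .nil))) 
(.lf (nat_lit 595480) (.g (nat_lit 2073) (.e (nat_lit 516174) (nat_lit 14) (.e (nat_lit 466954) (nat_lit 11) (.e (nat_lit 335986) (nat_lit 1) (.e (nat_lit 57671) (nat_lit 152) .nil)))) (.g (nat_lit 0) (.e (nat_lit 408418) (nat_lit 0) .nil) .nil)))) (.nd (nat_lit 9) 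
(.lf (nat_lit 595224) (.g (nat_lit 1268) (.e (nat_lit 516160) (nat_lit 10) (.e (nat_lit 434245) (nat_lit 28) (.e (nat_lit 573487) (nat_lit 14) (.e (nat_lit 73753) (nat_lit 8) .nil)))) (.g (nat_lit 0) (.e (nat_lit 407999) (nat_lit 0) .nil) .nil))) 
(.lf (nat_lit 595736) (.g (nat_lit 2027) (.e (nat_lit 516194) (nat_lit 26) (.e (nat_lit 335988) (nat_lit 1) (.e (nat_lit 57931) (nat_lit 282) (.e (nat_lit 163943) (nat_lit 19) .nil)))) (.g (nat_lit 0) (.e (nat_lit 408824) (nat_lit 0) .nil) .nil))))) (.nd (nat_lit 8) (.nd (nat_lit 9) 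
(.lf (nat_lit 595096) (.g (nat_lit 3930) (.e (nat_lit 516151) (nat_lit 9) (.e (nat_lit 426286) (nat_lit 10) (.e (nat_lit 434247) (nat_lit 28) (.e (nat_lit 573471) (nat_lit 11) (.e (nat_lit 16473) (nat_lit 14) (.e (nat_lit 491526) (nat_lit 0) (.e (nat_lit 1788) (nat_lit 119) .nil))))))) (.g (nat_lit 1) (.e (nat_lit 407714) (nat_lit 0) .nil) .nil))) 
(.lf (nat_lit 595608) (.g (nat_lit 1034) (.e (nat_lit 516179) (nat_lit 15) (.e (nat_lit 475199) (nat_lit 40) (.e (nat_lit 704589) (nat_lit 3) (.e (nat_lit 163976) (nat_lit 30) .nil)))) (.g (nat_lit 0) (.e (nat_lit 408574) (nat_lit 0) .nil) .nil)))) (.nd (nat_lit 9) 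
(.lf (nat_lit 595352) (.g (nat_lit 4660) (.e (nat_lit 516160) (nat_lit 10) (.e (nat_lit 434248) (nat_lit 28) (.e (nat_lit 573489) (nat_lit 14) (.e (nat_lit 73755) (nat_lit 8) (.e (nat_lit 557090) (nat_lit 12) (.e (nat_lit 164003) (nat_lit 40) (.e (nat_lit 655375) (nat_lit 3) (.e (nat_lit 171776) (nat_lit 23) .nil)))))))) (.g (nat_lit 1) (.e (nat_lit 408191) (nat_lit 0) .nil) .nil))) 
(.lf (nat_lit 595864) (.g (nat_lit 3335) (.e (nat_lit 524322) (nat_lit 12) (.e (nat_lit 450588) (nat_lit 10) (.e (nat_lit 573474) (nat_lit 12) (.e (nat_lit 57348) (nat_lit 0) (.e (nat_lit 7261) (nat_lit 384) (.e (nat_lit 57432) (nat_lit 16) (.e (nat_lit 368678) (nat_lit 22) .nil))))))) (.g (nat_lit 1) (.e (nat_lit 409292) (nat_lit 0) .nil) .nil)))))) 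
(.nd (nat_lit 7) (.nd (nat_lit 8) (.nd (nat_lit 9) 
(.lf (nat_lit 595032) (.g (nat_lit 4530) (.e (nat_lit 516151) (nat_lit 9) (.e (nat_lit 426043) (nat_lit 0) (.e (nat_lit 3409) (nat_lit 212) (.e (nat_lit 655375) (nat_lit 3) (.e (nat_lit 163977) (nat_lit 30) (.e (nat_lit 573482) (nat_lit 13) (.e (nat_lit 65619) (nat_lit 10) (.e (nat_lit 344117) (nat_lit 21) .nil)))))))) (.g (nat_lit 1) (.e (nat_lit 407643) (nat_lit 0) .nil) .nil))) 
(.lf (nat_lit 595544) (.g (nat_lit 1693) (.e (nat_lit 516176) (nat_lit 14) (.e (nat_lit 466954) (nat_lit 11) (.e (nat_lit 335988) (nat_lit 1) (.e (nat_lit 57689) (nat_lit 156) (.e (nat_lit 163939) (nat_lit 18) .nil))))) (.g (nat_lit 0) (.e (nat_lit 408493) (nat_lit 0) .nil) .nil)))) (.nd (nat_lit 9) 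
(.lf (nat_lit 595288) (.g (nat_lit 475) (.e (nat_lit 516160) (nat_lit 10) (.e (nat_lit 434247) (nat_lit 28) (.e (nat_lit 573487) (nat_lit 14) .nil))) (.g (nat_lit 0) (.e (nat_lit 408088) (nat_lit 0) .nil) .nil))) 
(.lf (nat_lit 595800) (.g (nat_lit 1966) (.e (nat_lit 516199) (nat_lit 26) (.e (nat_lit 343808) (nat_lit 18) (.e (nat_lit 204863) (nat_lit 27) (.e (nat_lit 344130) (nat_lit 26) (.e (nat_lit 557104) (nat_lit 14) (.e (nat_lit 188160) (nat_lit 3) .nil)))))) (.g (nat_lit 1) (.e (nat_lit 409018) (nat_lit 0) .nil) .nil))))) (.nd (nat_lit 8) (.nd (nat_lit 9) 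
(.lf (nat_lit 595160) (.g (nat_lit 520) (.e (nat_lit 516159) (nat_lit 10) (.e (nat_lit 434248) (nat_lit 28) (.e (nat_lit 573489) (nat_lit 14) .nil))) (.g (nat_lit 0) (.e (nat_lit 407899) (nat_lit 0) .nil) .nil))) 
(.lf (nat_lit 595672) (.g (nat_lit 1194) (.e (nat_lit 516182) (nat_lit 15) (.e (nat_lit 475197) (nat_lit 40) (.e (nat_lit 704589) (nat_lit 3) (.e (nat_lit 163975) (nat_lit 30) (.e (nat_lit 573481) (nat_lit 13) .nil))))) (.g (nat_lit 0) (.e (nat_lit 408684) (nat_lit 0) .nil) .nil)))) (.nd (nat_lit 9) 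
(.lf (nat_lit 595416) (.g (nat_lit 4823) (.e (nat_lit 516166) (nat_lit 12) (.e (nat_lit 450587) (nat_lit 10) (.e (nat_lit 573477) (nat_lit 12) (.e (nat_lit 57574) (nat_lit 55) (.e (nat_lit 778452) (nat_lit 10) (.e (nat_lit 8543) (nat_lit 229) (.e (nat_lit 229497) (nat_lit 84) .nil))))))) (.g (nat_lit 1) (.e (nat_lit 408331) (nat_lit 0) .nil) .nil))) 
(.lf (nat_lit 595928) (.g (nat_lit 3680) (.e (nat_lit 548913) (nat_lit 18) (.e (nat_lit 172119) (nat_lit 12) (.e (nat_lit 475184) (nat_lit 29) (.e (nat_lit 557109) (nat_lit 15) (.e (nat_lit 188434) (nat_lit 20) (.e (nat_lit 3272) (nat_lit 199) .nil)))))) (.g (nat_lit 1) (.e (nat_lit 410271) (nat_lit 0) .nil) .nil))))))) (.nd (nat_lit 6) (.nd (nat_lit 7) (.nd (nat_lit 8) (.nd (nat_lit 9) 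
(.lf (nat_lit 595000) (.g (nat_lit 1451) (.e (nat_lit 516150) (nat_lit 9) (.e (nat_lit 426436) (nat_lit 18) (.e (nat_lit 98384) (nat_lit 32) (.e (nat_lit 475169) (nat_lit 22) .nil)))) (.g (nat_lit 0) (.e (nat_lit 407610) (nat_lit 0) .nil) .nil))) 
(.lf (nat_lit 595512) (.g (nat_lit 1770) (.e (nat_lit 516174) (nat_lit 14) (.e (nat_lit 466954) (nat_lit 11) (.e (nat_lit 335996) (nat_lit 1) (.e (nat_lit 57685) (nat_lit 156) (.e (nat_lit 163936) (nat_lit 18) .nil))))) (.g (nat_lit 0) (.e (nat_lit 408453) (nat_lit 0) .nil) .nil)))) (.nd (nat_lit 9) 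
(.lf (nat_lit 595256) (.g (nat_lit 508) (.e (nat_lit 516160) (nat_lit 10) (.e (nat_lit 434247) (nat_lit 28) (.e (nat_lit 573484) (nat_lit 13) .nil))) (.g (nat_lit 0) (.e (nat_lit 408042) (nat_lit 0) .nil) .nil))) 
(.lf (nat_lit 595768) (.g (nat_lit 3443) (.e (nat_lit 516195) (nat_lit 26) (.e (nat_lit 335995) (nat_lit 1) (.e (nat_lit 57931) (nat_lit 282) (.e (nat_lit 163943) (nat_lit 19) (.e (nat_lit 483394) (nat_lit 24) (.e (nat_lit 344117) (nat_lit 21) .nil)))))) (.g (nat_lit 1) (.e (nat_lit 408892) (nat_lit 0) .nil) .nil))))) (.nd (nat_lit 8) (.nd (nat_lit 9) 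
(.lf (nat_lit 595128) (.g (nat_lit 1332) (.e (nat_lit 516158) (nat_lit 9) (.e (nat_lit 426190) (nat_lit 9) (.e (nat_lit 426436) (nat_lit 18) (.e (nat_lit 98341) (nat_lit 20) .nil)))) (.g (nat_lit 0) (.e (nat_lit 407759) (nat_lit 0) .nil) .nil))) 
(.lf (nat_lit 595640) (.g (nat_lit 881) (.e (nat_lit 516181) (nat_lit 15) (.e (nat_lit 475179) (nat_lit 24) (.e (nat_lit 516145) (nat_lit 9) .nil))) (.g (nat_lit 0) (.e (nat_lit 408632) (nat_lit 0) .nil) .nil)))) (.nd (nat_lit 9) 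
(.lf (nat_lit 595384) (.g (nat_lit 3180) (.e (nat_lit 516165) (nat_lit 12) (.e (nat_lit 450586) (nat_lit 10) (.e (nat_lit 573451) (nat_lit 9) (.e (nat_lit 359) (nat_lit 30) (.e (nat_lit 409603) (nat_lit 0) .nil))))) (.g (nat_lit 0) (.e (nat_lit 408295) (nat_lit 0) .nil) .nil))) 
(.lf (nat_lit 595896) (.g (nat_lit 1751) (.e (nat_lit 548911) (nat_lit 18) (.e (nat_lit 172120) (nat_lit 12) (.e (nat_lit 475185) (nat_lit 29) (.e (nat_lit 557107) (nat_lit 15) .nil)))) (.g (nat_lit 0) (.e (nat_lit 409920) (nat_lit 0) .nil) .nil)))))) (.nd (nat_lit 7) (.nd (nat_lit 8) (.nd (nat_lit 9) 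
(.lf (nat_lit 595064) (.g (nat_lit 4292) (.e (nat_lit 516151) (nat_lit 9) (.e (nat_lit 426285) (nat_lit 10) (.e (nat_lit 434245) (nat_lit 28) (.e (nat_lit 573471) (nat_lit 11) (.e (nat_lit 16425) (nat_lit 7) (.e (nat_lit 409616) (nat_lit 10) (.e (nat_lit 7936) (nat_lit 43) .nil))))))) (.g (nat_lit 1) (.e (nat_lit 407681) (nat_lit 0) .nil) .nil))) 
(.lf (nat_lit 595576) (.g (nat_lit 1904) (.e (nat_lit 516179) (nat_lit 15) (.e (nat_lit 475177) (nat_lit 24) (.e (nat_lit 516145) (nat_lit 9) (.e (nat_lit 426438) (nat_lit 18) (.e (nat_lit 98386) (nat_lit 32) .nil))))) (.g (nat_lit 0) (.e (nat_lit 408535) (nat_lit 0) .nil) .nil)))) (.nd (nat_lit 9) 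
(.lf (nat_lit 595320) (.g (nat_lit 3603) (.e (nat_lit 516160) (nat_lit 10) (.e (nat_lit 434248) (nat_lit 28) (.e (nat_lit 573482) (nat_lit 13) (.e (nat_lit 65569) (nat_lit 3) (.e (nat_lit 98317) (nat_lit 9) (.e (nat_lit 336288) (nat_lit 15) (.e (nat_lit 7936) (nat_lit 195) .nil))))))) (.g (nat_lit 1) (.e (nat_lit 408139) (nat_lit 0) .nil) .nil))) 
(.lf (nat_lit 595832) (.g (nat_lit 2782) (.e (nat_lit 524320) (nat_lit 12) (.e (nat_lit 450586) (nat_lit 10) (.e (nat_lit 573450) (nat_lit 9) (.e (nat_lit 375) (nat_lit 32) (.e (nat_lit 426173) (nat_lit 7) (.e (nat_lit 409616) (nat_lit 10) (.e (nat_lit 588) (nat_lit 44) .nil))))))) (.g (nat_lit 1) (.e (nat_lit 409245) (nat_lit 0) .nil) .nil))))) (.nd (nat_lit 8) (.nd (nat_lit 9) 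
(.lf (nat_lit 595192) (.g (nat_lit 3499) (.e (nat_lit 516160) (nat_lit 10) (.e (nat_lit 434244) (nat_lit 28) (.e (nat_lit 573487) (nat_lit 14) (.e (nat_lit 73747) (nat_lit 3) (.e (nat_lit 516195) (nat_lit 26) (.e (nat_lit 336278) (nat_lit 15) (.e (nat_lit 7936) (nat_lit 195) .nil))))))) (.g (nat_lit 1) (.e (nat_lit 407960) (nat_lit 0) .nil) .nil))) 
(.lf (nat_lit 595704) (.g (nat_lit 4178) (.e (nat_lit 516183) (nat_lit 16) (.e (nat_lit 491549) (nat_lit 9) (.e (nat_lit 336240) (nat_lit 15) (.e (nat_lit 3309) (nat_lit 202) (.e (nat_lit 573484) (nat_lit 13) (.e (nat_lit 65610) (nat_lit 10) (.e (nat_lit 344117) (nat_lit 21) .nil))))))) (.g (nat_lit 1) (.e (nat_lit 408756) (nat_lit 0) .nil) .nil)))) (.nd (nat_lit 9) 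
(.lf (nat_lit 595448) (.g (nat_lit 1400) (.e (nat_lit 516166) (nat_lit 12) (.e (nat_lit 450588) (nat_lit 10) (.e (nat_lit 573456) (nat_lit 9) (.e (nat_lit 430) (nat_lit 32) .nil)))) (.g (nat_lit 0) (.e (nat_lit 408363) (nat_lit 0) .nil) .nil))) 
(.lf (nat_lit 595960) (.g (nat_lit 4395) (.e (nat_lit 548913) (nat_lit 18) (.e (nat_lit 172125) (nat_lit 14) (.e (nat_lit 491537) (nat_lit 2) (.e (nat_lit 90170) (nat_lit 13) (.e (nat_lit 172113) (nat_lit 10) (.e (nat_lit 434238) (nat_lit 25) .nil)))))) (.g (nat_lit 1) (.e (nat_lit 410306) (nat_lit 0) .nil) .nil)))))))))) 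
(.nd (nat_lit 3) (.nd (nat_lit 4) (.nd (nat_lit 5) (.nd (nat_lit 6) (.nd (nat_lit 7) 
(.nd (nat_lit 8) (.nd (nat_lit 9) 
(.lf (nat_lit 594948) (.g (nat_lit 2908) (.e (nat_lit 516148) (nat_lit 9) (.e (nat_lit 426131) (nat_lit 3) (.e (nat_lit 204838) (nat_lit 20) (.e (nat_lit 114716) (nat_lit 22) (.e (nat_lit 98048) (nat_lit 21) (.e (nat_lit 164368) (nat_lit 247) (.e (nat_lit 8318) (nat_lit 64) .nil))))))) (.g (nat_lit 1) (.e (nat_lit 407529) (nat_lit 0) .nil) .nil))) 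
(.lf (nat_lit 595460) (.g (nat_lit 5205) (.e (nat_lit 516166) (nat_lit 12) (.e (nat_lit 450588) (nat_lit 10) (.e (nat_lit 573475) (nat_lit 12) (.e (nat_lit 57574) (nat_lit 55) (.e (nat_lit 778452) (nat_lit 10) (.e (nat_lit 8543) (nat_lit 229) (.e (nat_lit 229497) (nat_lit 84) .nil))))))) (.g (nat_lit 1) (.e (nat_lit 408375) (nat_lit 0) .nil) .nil)))) (.nd (nat_lit 9) 
(.lf (nat_lit 595204) (.g (nat_lit 2407) (.e (nat_lit 516160) (nat_lit 10) (.e (nat_lit 434244) (nat_lit 28) (.e (nat_lit 573488) (nat_lit 14) (.e (nat_lit 73755) (nat_lit 8) (.e (nat_lit 557089) (nat_lit 12) .nil))))) (.g (nat_lit 0) (.e (nat_lit 407975) (nat_lit 0) .nil) .nil))) 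
(.lf (nat_lit 595716) (.g (nat_lit 3160) (.e (nat_lit 516185) (nat_lit 16) (.e (nat_lit 491526) (nat_lit 0) (.e (nat_lit 6680) (nat_lit 357) (.e (nat_lit 2682) (nat_lit 168) (.e (nat_lit 204868) (nat_lit 29) (.e (nat_lit 360466) (nat_lit 3) .nil)))))) (.g (nat_lit 1) (.e (nat_lit 408772) (nat_lit 0) .nil) .nil))))) (.nd (nat_lit 8) (.nd (nat_lit 9) 
(.lf (nat_lit 595076) (.g (nat_lit 2373) (.e (nat_lit 516151) (nat_lit 9) (.e (nat_lit 426286) (nat_lit 10) (.e (nat_lit 434242) (nat_lit 28) (.e (nat_lit 573471) (nat_lit 11) (.e (nat_lit 16388) (nat_lit 0) (.e (nat_lit 7583) (nat_lit 405) (.e (nat_lit 57464) (nat_lit 23) .nil))))))) (.g (nat_lit 1) (.e (nat_lit 407694) (nat_lit 0) .nil) .nil))) 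
(.lf (nat_lit 595588) (.g (nat_lit 380) (.e (nat_lit 516179) (nat_lit 15) (.e (nat_lit 475177) (nat_lit 24) (.e (nat_lit 516181) (nat_lit 15) .nil))) (.g (nat_lit 0) (.e (nat_lit 408550) (nat_lit 0) .nil) .nil)))) (.nd (nat_lit 9) 
(.lf (nat_lit 595332) (.g (nat_lit 2519) (.e (nat_lit 516160) (nat_lit 10) (.e (nat_lit 434248) (nat_lit 28) (.e (nat_lit 573482) (nat_lit 13) (.e (nat_lit 65571) (nat_lit 3) (.e (nat_lit 98325) (nat_lit 17) .nil))))) (.g (nat_lit 0) (.e (nat_lit 408152) (nat_lit 0) .nil) .nil))) 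
(.lf (nat_lit 595844) (.g (nat_lit 2809) (.e (nat_lit 524322) (nat_lit 12) (.e (nat_lit 450587) (nat_lit 10) (.e (nat_lit 573475) (nat_lit 12) (.e (nat_lit 57574) (nat_lit 55) .nil)))) (.g (nat_lit 0) (.e (nat_lit 409272) (nat_lit 0) .nil) .nil)))))) (.nd (nat_lit 7) (.nd (nat_lit 8) (.nd (nat_lit 9) 
(.lf (nat_lit 595012) (.g (nat_lit 4408) (.e (nat_lit 516151) (nat_lit 9) (.e (nat_lit 426043) (nat_lit 0) (.e (nat_lit 3369) (nat_lit 208) (.e (nat_lit 622625) (nat_lit 13) (.e (nat_lit 2663) (nat_lit 167) (.e (nat_lit 196666) (nat_lit 13) (.e (nat_lit 65610) (nat_lit 10) (.e (nat_lit 344117) (nat_lit 21) .nil)))))))) (.g (nat_lit 1) (.e (nat_lit 407622) (nat_lit 0) .nil) .nil))) 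
(.lf (nat_lit 595524) (.g (nat_lit 2074) (.e (nat_lit 516175) (nat_lit 14) (.e (nat_lit 466981) (nat_lit 23) (.e (nat_lit 204846) (nat_lit 24) (.e (nat_lit 319534) (nat_lit 16) (.e (nat_lit 286728) (nat_lit 0) .nil))))) (.g (nat_lit 0) (.e (nat_lit 408466) (nat_lit 0) .nil) .nil)))) (.nd (nat_lit 9) 
(.lf (nat_lit 595268) (.g (nat_lit 3924) (.e (nat_lit 516160) (nat_lit 10) (.e (nat_lit 434247) (nat_lit 28) (.e (nat_lit 573484) (nat_lit 13) (.e (nat_lit 65569) (nat_lit 3) (.e (nat_lit 98317) (nat_lit 9) (.e (nat_lit 336288) (nat_lit 15) (.e (nat_lit 7936) (nat_lit 195) .nil))))))) (.g (nat_lit 1) (.e (nat_lit 408058) (nat_lit 0) .nil) .nil))) 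
(.lf (nat_lit 595780) (.g (nat_lit 1156) (.e (nat_lit 516195) (nat_lit 26) (.e (nat_lit 336027) (nat_lit 3) (.e (nat_lit 98334) (nat_lit 18) (.e (nat_lit 164183) (nat_lit 154) .nil)))) (.g (nat_lit 0) (.e (nat_lit 408918) (nat_lit 0) .nil) .nil))))) (.nd (nat_lit 8) (.nd (nat_lit 9) 
(.lf (nat_lit 595140) (.g (nat_lit 2368) (.e (nat_lit 516159) (nat_lit 10) (.e (nat_lit 434244) (nat_lit 28) (.e (nat_lit 573480) (nat_lit 13) (.e (nat_lit 65568) (nat_lit 2) (.e (nat_lit 98048) (nat_lit 2) .nil))))) (.g (nat_lit 0) (.e (nat_lit 407799) (nat_lit 0) .nil) .nil))) 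
(.lf (nat_lit 595652) (.g (nat_lit 1248) (.e (nat_lit 516181) (nat_lit 15) (.e (nat_lit 475199) (nat_lit 40) (.e (nat_lit 704589) (nat_lit 3) (.e (nat_lit 163975) (nat_lit 30) .nil)))) (.g (nat_lit 0) (.e (nat_lit 408651) (nat_lit 0) .nil) .nil)))) (.nd (nat_lit 9) 
(.lf (nat_lit 595396) (.g (nat_lit 3486) (.e (nat_lit 516166) (nat_lit 12) (.e (nat_lit 450585) (nat_lit 10) (.e (nat_lit 573450) (nat_lit 9) (.e (nat_lit 375) (nat_lit 32) (.e (nat_lit 426173) (nat_lit 7) (.e (nat_lit 409617) (nat_lit 10) (.e (nat_lit 7936) (nat_lit 43) .nil))))))) (.g (nat_lit 1) (.e (nat_lit 408311) (nat_lit 0) .nil) .nil))) 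
(.lf (nat_lit 595908) (.g (nat_lit 1881) (.e (nat_lit 548911) (nat_lit 18) (.e (nat_lit 172126) (nat_lit 14) (.e (nat_lit 491540) (nat_lit 3) (.e (nat_lit 98358) (nat_lit 26) (.e (nat_lit 426294) (nat_lit 11) .nil))))) (.g (nat_lit 0) (.e (nat_lit 409932) (nat_lit 0) .nil) .nil))))))) (.nd (nat_lit 6) (.nd (nat_lit 7) (.nd (nat_lit 8) (.nd (nat_lit 9) 
(.lf (nat_lit 594980) (.g (nat_lit 2291) (.e (nat_lit 516149) (nat_lit 9) (.e (nat_lit 426323) (nat_lit 13) (.e (nat_lit 483366) (nat_lit 18) (.e (nat_lit 57688) (nat_lit 156) (.e (nat_lit 163936) (nat_lit 18) (.e (nat_lit 475177) (nat_lit 24) .nil)))))) (.g (nat_lit 1) (.e (nat_lit 407580) (nat_lit 0) .nil) .nil))) 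
(.lf (nat_lit 595492) (.g (nat_lit 2852) (.e (nat_lit 516174) (nat_lit 14) (.e (nat_lit 466954) (nat_lit 11) (.e (nat_lit 335986) (nat_lit 1) (.e (nat_lit 57692) (nat_lit 156) (.e (nat_lit 163938) (nat_lit 18) (.e (nat_lit 475179) (nat_lit 24) .nil)))))) (.g (nat_lit 1) (.e (nat_lit 408431) (nat_lit 0) .nil) .nil)))) (.nd (nat_lit 9) 
(.lf (nat_lit 595236) (.g (nat_lit 2414) (.e (nat_lit 516160) (nat_lit 10) (.e (nat_lit 434246) (nat_lit 28) (.e (nat_lit 573482) (nat_lit 13) (.e (nat_lit 65568) (nat_lit 2) (.e (nat_lit 90157) (nat_lit 11) (.e (nat_lit 24671) (nat_lit 15) (.e (nat_lit 7936) (nat_lit 195) .nil))))))) (.g (nat_lit 1) (.e (nat_lit 408018) (nat_lit 0) .nil) .nil))) 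
(.lf (nat_lit 595748) (.g (nat_lit 3281) (.e (nat_lit 516195) (nat_lit 26) (.e (nat_lit 335986) (nat_lit 1) (.e (nat_lit 57926) (nat_lit 282) (.e (nat_lit 163943) (nat_lit 19) (.e (nat_lit 483399) (nat_lit 25) (.e (nat_lit 368676) (nat_lit 21) .nil)))))) (.g (nat_lit 1) (.e (nat_lit 408844) (nat_lit 0) .nil) .nil))))) (.nd (nat_lit 8) (.nd (nat_lit 9) 
(.lf (nat_lit 595108) (.g (nat_lit 5036) (.e (nat_lit 516151) (nat_lit 9) (.e (nat_lit 426286) (nat_lit 10) (.e (nat_lit 434248) (nat_lit 28) (.e (nat_lit 573471) (nat_lit 11) (.e (nat_lit 16471) (nat_lit 14) (.e (nat_lit 491526) (nat_lit 0) (.e (nat_lit 1788) (nat_lit 119) .nil))))))) (.g (nat_lit 1) (.e (nat_lit 407726) (nat_lit 0) .nil) .nil))) 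
(.lf (nat_lit 595620) (.g (nat_lit 2687) (.e (nat_lit 516180) (nat_lit 15) (.e (nat_lit 475177) (nat_lit 24) (.e (nat_lit 516182) (nat_lit 15) (.e (nat_lit 475177) (nat_lit 24) (.e (nat_lit 516179) (nat_lit 15) (.e (nat_lit 475177) (nat_lit 24) .nil)))))) (.g (nat_lit 1) (.e (nat_lit 408605) (nat_lit 0) .nil) .nil)))) (.nd (nat_lit 9) 
(.lf (nat_lit 595364) (.g (nat_lit 3204) (.e (nat_lit 516163) (nat_lit 11) (.e (nat_lit 442392) (nat_lit 20) (.e (nat_lit 3297) (nat_lit 202) (.e (nat_lit 573450) (nat_lit 9) (.e (nat_lit 375) (nat_lit 32) (.e (nat_lit 426173) (nat_lit 7) (.e (nat_lit 409616) (nat_lit 10) (.e (nat_lit 7936) (nat_lit 43) .nil)))))))) (.g (nat_lit 1) (.e (nat_lit 408272) (nat_lit 0) .nil) .nil))) 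
(.lf (nat_lit 595876) (.g (nat_lit 1236) (.e (nat_lit 532224) (nat_lit 29) (.e (nat_lit 360493) (nat_lit 27) (.e (nat_lit 819204) (nat_lit 0) (.e (nat_lit 3015) (nat_lit 187) (.e (nat_lit 458496) (nat_lit 4) .nil))))) (.g (nat_lit 0) (.e (nat_lit 409359) (nat_lit 0) .nil) .nil)))))) (.nd (nat_lit 7) (.nd (nat_lit 8) (.nd (nat_lit 9) 
(.lf (nat_lit 595044) (.g (nat_lit 2722) (.e (nat_lit 516151) (nat_lit 9) (.e (nat_lit 426211) (nat_lit 9) (.e (nat_lit 426125) (nat_lit 2) (.e (nat_lit 196661) (nat_lit 12) (.e (nat_lit 57712) (nat_lit 176) .nil))))) (.g (nat_lit 0) (.e (nat_lit 407661) (nat_lit 0) .nil) .nil))) 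
(.lf (nat_lit 595556) (.g (nat_lit 1367) (.e (nat_lit 516177) (nat_lit 14) (.e (nat_lit 466974) (nat_lit 22) (.e (nat_lit 196681) (nat_lit 17) (.e (nat_lit 131086) (nat_lit 1) .nil)))) (.g (nat_lit 0) (.e (nat_lit 408509) (nat_lit 0) .nil) .nil)))) (.nd (nat_lit 9) 
(.lf (nat_lit 595300) (.g (nat_lit 1698) (.e (nat_lit 516160) (nat_lit 10) (.e (nat_lit 434248) (nat_lit 28) (.e (nat_lit 573482) (nat_lit 13) (.e (nat_lit 65549) (nat_lit 0) .nil)))) (.g (nat_lit 0) (.e (nat_lit 408111) (nat_lit 0) .nil) .nil))) 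
(.lf (nat_lit 595812) (.g (nat_lit 1291) (.e (nat_lit 524291) (nat_lit 0) (.e (nat_lit 3459) (nat_lit 216) (.e (nat_lit 688139) (nat_lit 5) (.e (nat_lit 3085) (nat_lit 191) (.e (nat_lit 491264) (nat_lit 11) (.e (nat_lit 442400) (nat_lit 20) (.e (nat_lit 3222) (nat_lit 196) .nil))))))) (.g (nat_lit 1) (.e (nat_lit 409059) (nat_lit 0) .nil) .nil))))) (.nd (nat_lit 8) (.nd (nat_lit 9) 
(.lf (nat_lit 595172) (.g (nat_lit 2125) (.e (nat_lit 516160) (nat_lit 10) (.e (nat_lit 434244) (nat_lit 28) (.e (nat_lit 573451) (nat_lit 9) (.e (nat_lit 1449) (nat_lit 108) .nil)))) (.g (nat_lit 0) (.e (nat_lit 407938) (nat_lit 0) .nil) .nil))) 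
(.lf (nat_lit 595684) (.g (nat_lit 2042) (.e (nat_lit 516182) (nat_lit 15) (.e (nat_lit 475198) (nat_lit 40) (.e (nat_lit 704590) (nat_lit 3) (.e (nat_lit 163975) (nat_lit 30) (.e (nat_lit 573481) (nat_lit 13) (.e (nat_lit 65609) (nat_lit 10) (.e (nat_lit 344116) (nat_lit 21) .nil))))))) (.g (nat_lit 1) (.e (nat_lit 408714) (nat_lit 0) .nil) .nil)))) (.nd (nat_lit 9) 
(.lf (nat_lit 595428) (.g (nat_lit 1396) (.e (nat_lit 516166) (nat_lit 12) (.e (nat_lit 450587) (nat_lit 10) (.e (nat_lit 573478) (nat_lit 12) (.e (nat_lit 57574) (nat_lit 55) (.e (nat_lit 778465) (nat_lit 11) .nil))))) (.g (nat_lit 0) (.e (nat_lit 408343) (nat_lit 0) .nil) .nil))) 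
(.lf (nat_lit 595940) (.g (nat_lit 4351) (.e (nat_lit 548913) (nat_lit 18) (.e (nat_lit 172120) (nat_lit 12) (.e (nat_lit 475184) (nat_lit 29) (.e (nat_lit 557109) (nat_lit 15) (.e (nat_lit 188434) (nat_lit 20) (.e (nat_lit 3272) (nat_lit 199) .nil)))))) (.g (nat_lit 1) (.e (nat_lit 410283) (nat_lit 0) .nil) .nil)))))))) 
(.nd (nat_lit 5) (.nd (nat_lit 6) (.nd (nat_lit 7) (.nd (nat_lit 8) (.nd (nat_lit 9) 
(.lf (nat_lit 594964) (.g (nat_lit 300) (.e (nat_lit 516149) (nat_lit 9) (.e (nat_lit 426323) (nat_lit 13) (.e (nat_lit 483363) (nat_lit 18) .nil))) (.g (nat_lit 0) (.e (nat_lit 407550) (nat_lit 0) .nil) .nil))) 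
(.lf (nat_lit 595476) (.g (nat_lit 1963) (.e (nat_lit 516174) (nat_lit 14) (.e (nat_lit 466954) (nat_lit 11) (.e (nat_lit 335986) (nat_lit 1) (.e (nat_lit 57664) (nat_lit 152) .nil)))) (.g (nat_lit 0) (.e (nat_lit 408412) (nat_lit 0) .nil) .nil)))) (.nd (nat_lit 9) 
(.lf (nat_lit 595220) (.g (nat_lit 3276) (.e (nat_lit 516160) (nat_lit 10) (.e (nat_lit 434245) (nat_lit 28) (.e (nat_lit 573487) (nat_lit 14) (.e (nat_lit 73747) (nat_lit 3) (.e (nat_lit 516195) (nat_lit 26) (.e (nat_lit 336278) (nat_lit 15) (.e (nat_lit 7936) (nat_lit 195) .nil))))))) (.g (nat_lit 1) (.e (nat_lit 407995) (nat_lit 0) .nil) .nil))) 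
(.lf (nat_lit 595732) (.g (nat_lit 565) (.e (nat_lit 516194) (nat_lit 26) (.e (nat_lit 335986) (nat_lit 1) (.e (nat_lit 57927) (nat_lit 282) .nil))) (.g (nat_lit 0) (.e (nat_lit 408815) (nat_lit 0) .nil) .nil))))) (.nd (nat_lit 8) (.nd (nat_lit 9) 
(.lf (nat_lit 595092) (.g (nat_lit 3486) (.e (nat_lit 516151) (nat_lit 9) (.e (nat_lit 426286) (nat_lit 10) (.e (nat_lit 434245) (nat_lit 28) (.e (nat_lit 573471) (nat_lit 11) (.e (nat_lit 16471) (nat_lit 14) (.e (nat_lit 491520) (nat_lit 0) (.e (nat_lit 1788) (nat_lit 119) .nil))))))) (.g (nat_lit 1) (.e (nat_lit 407710) (nat_lit 0) .nil) .nil))) 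
(.lf (nat_lit 595604) (.g (nat_lit 3681) (.e (nat_lit 516179) (nat_lit 15) (.e (nat_lit 475198) (nat_lit 40) (.e (nat_lit 704589) (nat_lit 3) (.e (nat_lit 163979) (nat_lit 30) (.e (nat_lit 573491) (nat_lit 15) (.e (nat_lit 81946) (nat_lit 20) (.e (nat_lit 1802) (nat_lit 119) .nil))))))) (.g (nat_lit 1) (.e (nat_lit 408568) (nat_lit 0) .nil) .nil)))) (.nd (nat_lit 9) 
(.lf (nat_lit 595348) (.g (nat_lit 3539) (.e (nat_lit 516160) (nat_lit 10) (.e (nat_lit 434248) (nat_lit 28) (.e (nat_lit 573489) (nat_lit 14) (.e (nat_lit 73755) (nat_lit 8) (.e (nat_lit 557084) (nat_lit 10) .nil))))) (.g (nat_lit 0) (.e (nat_lit 408179) (nat_lit 0) .nil) .nil))) 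
(.lf (nat_lit 595860) (.g (nat_lit 4100) (.e (nat_lit 524322) (nat_lit 12) (.e (nat_lit 450588) (nat_lit 10) (.e (nat_lit 573471) (nat_lit 11) (.e (nat_lit 16392) (nat_lit 0) (.e (nat_lit 7107) (nat_lit 380) (.e (nat_lit 171776) (nat_lit 85) .nil)))))) (.g (nat_lit 1) (.e (nat_lit 409288) (nat_lit 0) .nil) .nil)))))) (.nd (nat_lit 7) (.nd (nat_lit 8) (.nd (nat_lit 9) 
(.lf (nat_lit 595028) (.g (nat_lit 4953) (.e (nat_lit 516151) (nat_lit 9) (.e (nat_lit 426043) (nat_lit 0) (.e (nat_lit 3408) (nat_lit 212) (.e (nat_lit 655375) (nat_lit 3) (.e (nat_lit 163978) (nat_lit 30) (.e (nat_lit 573485) (nat_lit 13) (.e (nat_lit 65619) (nat_lit 10) (.e (nat_lit 344117) (nat_lit 21) .nil)))))))) (.g (nat_lit 1) (.e (nat_lit 407638) (nat_lit 0) .nil) .nil))) 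
(.lf (nat_lit 595540) (.g (nat_lit 2450) (.e (nat_lit 516176) (nat_lit 14) (.e (nat_lit 466954) (nat_lit 11) (.e (nat_lit 335987) (nat_lit 1) (.e (nat_lit 57692) (nat_lit 156) (.e (nat_lit 163939) (nat_lit 18) (.e (nat_lit 475177) (nat_lit 24) .nil)))))) (.g (nat_lit 1) (.e (nat_lit 408488) (nat_lit 0) .nil) .nil)))) (.nd (nat_lit 9) 
(.lf (nat_lit 595284) (.g (nat_lit 2306) (.e (nat_lit 516160) (nat_lit 10) (.e (nat_lit 434247) (nat_lit 28) (.e (nat_lit 573485) (nat_lit 13) (.e (nat_lit 65570) (nat_lit 3) (.e (nat_lit 98313) (nat_lit 9) (.e (nat_lit 336288) (nat_lit 15) (.e (nat_lit 7936) (nat_lit 195) .nil))))))) (.g (nat_lit 1) (.e (nat_lit 408083) (nat_lit 0) .nil) .nil))) 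
(.lf (nat_lit 595796) (.g (nat_lit 2651) (.e (nat_lit 516199) (nat_lit 26) (.e (nat_lit 343808) (nat_lit 18) (.e (nat_lit 204862) (nat_lit 27) (.e (nat_lit 344129) (nat_lit 26) (.e (nat_lit 557103) (nat_lit 14) (.e (nat_lit 188160) (nat_lit 3) .nil)))))) (.g (nat_lit 1) (.e (nat_lit 409014) (nat_lit 0) .nil) .nil))))) (.nd (nat_lit 8) (.nd (nat_lit 9) 
(.lf (nat_lit 595156) (.g (nat_lit 1611) (.e (nat_lit 516159) (nat_lit 10) (.e (nat_lit 434248) (nat_lit 28) (.e (nat_lit 573482) (nat_lit 13) (.e (nat_lit 65568) (nat_lit 2) .nil)))) (.g (nat_lit 0) (.e (nat_lit 407880) (nat_lit 0) .nil) .nil))) 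
(.lf (nat_lit 595668) (.g (nat_lit 1839) (.e (nat_lit 516182) (nat_lit 15) (.e (nat_lit 475179) (nat_lit 24) (.e (nat_lit 516146) (nat_lit 9) (.e (nat_lit 433920) (nat_lit 18) .nil)))) (.g (nat_lit 0) (.e (nat_lit 408680) (nat_lit 0) .nil) .nil)))) (.nd (nat_lit 9) 
(.lf (nat_lit 595412) (.g (nat_lit 1345) (.e (nat_lit 516166) (nat_lit 12) (.e (nat_lit 450587) (nat_lit 10) (.e (nat_lit 573469) (nat_lit 11) (.e (nat_lit 16472) (nat_lit 14) .nil)))) (.g (nat_lit 0) (.e (nat_lit 408327) (nat_lit 0) .nil) .nil))) 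
(.lf (nat_lit 595924) (.g (nat_lit 1620) (.e (nat_lit 548912) (nat_lit 18) (.e (nat_lit 172126) (nat_lit 14) (.e (nat_lit 491540) (nat_lit 3) (.e (nat_lit 98381) (nat_lit 31) .nil)))) (.g (nat_lit 0) (.e (nat_lit 409962) (nat_lit 0) .nil) .nil))))))) (.nd (nat_lit 6) (.nd (nat_lit 7) (.nd (nat_lit 8) (.nd (nat_lit 9) 
(.lf (nat_lit 594996) (.g (nat_lit 1779) (.e (nat_lit 516150) (nat_lit 9) (.e (nat_lit 426323) (nat_lit 13) (.e (nat_lit 483365) (nat_lit 18) (.e (nat_lit 57685) (nat_lit 156) (.e (nat_lit 163938) (nat_lit 18) .nil))))) (.g (nat_lit 0) (.e (nat_lit 407604) (nat_lit 0) .nil) .nil))) 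
(.lf (nat_lit 595508) (.g (nat_lit 1719) (.e (nat_lit 516174) (nat_lit 14) (.e (nat_lit 466954) (nat_lit 11) (.e (nat_lit 335995) (nat_lit 1) (.e (nat_lit 57687) (nat_lit 156) (.e (nat_lit 163937) (nat_lit 18) .nil))))) (.g (nat_lit 0) (.e (nat_lit 408448) (nat_lit 0) .nil) .nil)))) (.nd (nat_lit 9) 
(.lf (nat_lit 595252) (.g (nat_lit 1162) (.e (nat_lit 516160) (nat_lit 10) (.e (nat_lit 434246) (nat_lit 28) (.e (nat_lit 573487) (nat_lit 14) (.e (nat_lit 73753) (nat_lit 8) .nil)))) (.g (nat_lit 0) (.e (nat_lit 408034) (nat_lit 0) .nil) .nil))) 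
(.lf (nat_lit 595764) (.g (nat_lit 2626) (.e (nat_lit 516195) (nat_lit 26) (.e (nat_lit 335995) (nat_lit 1) (.e (nat_lit 57930) (nat_lit 282) (.e (nat_lit 163902) (nat_lit 12) (.e (nat_lit 426546) (nat_lit 30) (.e (nat_lit 360466) (nat_lit 3) .nil)))))) (.g (nat_lit 1) (.e (nat_lit 408887) (nat_lit 0) .nil) .nil))))) (.nd (nat_lit 8) (.nd (nat_lit 9) 
(.lf (nat_lit 595124) (.g (nat_lit 1146) (.e (nat_lit 516158) (nat_lit 9) (.e (nat_lit 426188) (nat_lit 9) (.e (nat_lit 426438) (nat_lit 18) (.e (nat_lit 98341) (nat_lit 20) .nil)))) (.g (nat_lit 0) (.e (nat_lit 407755) (nat_lit 0) .nil) .nil))) 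
(.lf (nat_lit 595636) (.g (nat_lit 2586) (.e (nat_lit 516181) (nat_lit 15) (.e (nat_lit 475177) (nat_lit 24) (.e (nat_lit 516182) (nat_lit 15) (.e (nat_lit 475177) (nat_lit 24) (.e (nat_lit 516179) (nat_lit 15) (.e (nat_lit 475177) (nat_lit 24) .nil)))))) (.g (nat_lit 1) (.e (nat_lit 408627) (nat_lit 0) .nil) .nil)))) (.nd (nat_lit 9) 
(.lf (nat_lit 595380) (.g (nat_lit 1408) (.e (nat_lit 516164) (nat_lit 11) (.e (nat_lit 442404) (nat_lit 20) (.e (nat_lit 3238) (nat_lit 197) (.e (nat_lit 532523) (nat_lit 7) (.e (nat_lit 319505) (nat_lit 10) .nil))))) (.g (nat_lit 0) (.e (nat_lit 408288) (nat_lit 0) .nil) .nil))) 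
(.lf (nat_lit 595892) (.g (nat_lit 1287) (.e (nat_lit 548907) (nat_lit 16) (.e (nat_lit 24665) (nat_lit 14) (.e (nat_lit 409344) (nat_lit 34) .nil))) (.g (nat_lit 0) (.e (nat_lit 409902) (nat_lit 0) .nil) .nil)))))) (.nd (nat_lit 7) (.nd (nat_lit 8) (.nd (nat_lit 9) 
(.lf (nat_lit 595060) (.g (nat_lit 3589) (.e (nat_lit 516151) (nat_lit 9) (.e (nat_lit 426285) (nat_lit 10) (.e (nat_lit 434244) (nat_lit 28) (.e (nat_lit 573450) (nat_lit 9) (.e (nat_lit 375) (nat_lit 32) (.e (nat_lit 426173) (nat_lit 7) (.e (nat_lit 409617) (nat_lit 10) (.e (nat_lit 7936) (nat_lit 43) .nil)))))))) (.g (nat_lit 1) (.e (nat_lit 407677) (nat_lit 0) .nil) .nil))) 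
(.lf (nat_lit 595572) (.g (nat_lit 2118) (.e (nat_lit 516179) (nat_lit 15) (.e (nat_lit 475169) (nat_lit 22) (.e (nat_lit 499926) (nat_lit 10) (.e (nat_lit 180252) (nat_lit 10) (.e (nat_lit 573482) (nat_lit 13) (.e (nat_lit 65640) (nat_lit 15) (.e (nat_lit 7936) (nat_lit 195) .nil))))))) (.g (nat_lit 1) (.e (nat_lit 408530) (nat_lit 0) .nil) .nil)))) (.nd (nat_lit 9) 
(.lf (nat_lit 595316) (.g (nat_lit 3283) (.e (nat_lit 516160) (nat_lit 10) (.e (nat_lit 434248) (nat_lit 28) (.e (nat_lit 573482) (nat_lit 13) (.e (nat_lit 65568) (nat_lit 2) (.e (nat_lit 90160) (nat_lit 11) (.e (nat_lit 24669) (nat_lit 15) (.e (nat_lit 7936) (nat_lit 195) .nil))))))) (.g (nat_lit 1) (.e (nat_lit 408134) (nat_lit 0) .nil) .nil))) 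
(.lf (nat_lit 595828) (.g (nat_lit 1306) (.e (nat_lit 524320) (nat_lit 12) (.e (nat_lit 450579) (nat_lit 5) (.e (nat_lit 532530) (nat_lit 9) (.e (nat_lit 336258) (nat_lit 15) (.e (nat_lit 3603) (nat_lit 225) .nil))))) (.g (nat_lit 0) (.e (nat_lit 409241) (nat_lit 0) .nil) .nil))))) (.nd (nat_lit 8) (.nd (nat_lit 9) 
(.lf (nat_lit 595188) (.g (nat_lit 2546) (.e (nat_lit 516160) (nat_lit 10) (.e (nat_lit 434244) (nat_lit 28) (.e (nat_lit 573481) (nat_lit 13) (.e (nat_lit 65571) (nat_lit 3) (.e (nat_lit 98325) (nat_lit 17) .nil))))) (.g (nat_lit 0) (.e (nat_lit 407955) (nat_lit 0) .nil) .nil))) 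
(.lf (nat_lit 595700) (.g (nat_lit 2495) (.e (nat_lit 516182) (nat_lit 15) (.e (nat_lit 475199) (nat_lit 40) (.e (nat_lit 704589) (nat_lit 3) (.e (nat_lit 163979) (nat_lit 30) (.e (nat_lit 573491) (nat_lit 15) (.e (nat_lit 81943) (nat_lit 20) (.e (nat_lit 1798) (nat_lit 119) .nil))))))) (.g (nat_lit 1) (.e (nat_lit 408745) (nat_lit 0) .nil) .nil)))) (.nd (nat_lit 9) 
(.lf (nat_lit 595444) (.g (nat_lit 2867) (.e (nat_lit 516166) (nat_lit 12) (.e (nat_lit 450588) (nat_lit 10) (.e (nat_lit 573452) (nat_lit 9) (.e (nat_lit 395) (nat_lit 32) (.e (nat_lit 426172) (nat_lit 7) (.e (nat_lit 409616) (nat_lit 10) (.e (nat_lit 7936) (nat_lit 43) .nil))))))) (.g (nat_lit 1) (.e (nat_lit 408359) (nat_lit 0) .nil) .nil))) 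
(.lf (nat_lit 595956) (.g (nat_lit 1703) (.e (nat_lit 548913) (nat_lit 18) (.e (nat_lit 172124) (nat_lit 14) (.e (nat_lit 491540) (nat_lit 3) (.e (nat_lit 98372) (nat_lit 29) (.e (nat_lit 458496) (nat_lit 7) .nil))))) (.g (nat_lit 1) (.e (nat_lit 410302) (nat_lit 0) .nil) .nil))))))))) (.nd (nat_lit 4) (.nd (nat_lit 5) (.nd (nat_lit 6) (.nd (nat_lit 7) (.nd (nat_lit 8) (.nd (nat_lit 9) 
(.lf (nat_lit 594956) (.g (nat_lit 1804) (.e (nat_lit 516148) (nat_lit 9) (.e (nat_lit 426438) (nat_lit 18) (.e (nat_lit 98386) (nat_lit 32) (.e (nat_lit 475177) (nat_lit 24) (.e (nat_lit 516179) (nat_lit 15) .nil))))) (.g (nat_lit 0) (.e (nat_lit 407539) (nat_lit 0) .nil) .nil))) 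
(.lf (nat_lit 595468) (.g (nat_lit 642) (.e (nat_lit 516169) (nat_lit 13) (.e (nat_lit 458774) (nat_lit 18) (.e (nat_lit 4803) (nat_lit 281) .nil))) (.g (nat_lit 0) (.e (nat_lit 408384) (nat_lit 0) .nil) .nil)))) (.nd (nat_lit 9) 
(.lf (nat_lit 595212) (.g (nat_lit 2213) (.e (nat_lit 516160) (nat_lit 10) (.e (nat_lit 434245) (nat_lit 28) (.e (nat_lit 573481) (nat_lit 13) (.e (nat_lit 65570) (nat_lit 3) (.e (nat_lit 98313) (nat_lit 9) (.e (nat_lit 336288) (nat_lit 15) (.e (nat_lit 7936) (nat_lit 195) .nil))))))) (.g (nat_lit 1) (.e (nat_lit 407986) (nat_lit 0) .nil) .nil))) 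
(.lf (nat_lit 595724) (.g (nat_lit 3240) (.e (nat_lit 516185) (nat_lit 16) (.e (nat_lit 491560) (nat_lit 10) (.e (nat_lit 344129) (nat_lit 26) (.e (nat_lit 557067) (nat_lit 9) (.e (nat_lit 290) (nat_lit 21) .nil))))) (.g (nat_lit 0) (.e (nat_lit 408780) (nat_lit 0) .nil) .nil))))) (.nd (nat_lit 8) (.nd (nat_lit 9) 
(.lf (nat_lit 595084) (.g (nat_lit 3692) (.e (nat_lit 516151) (nat_lit 9) (.e (nat_lit 426286) (nat_lit 10) (.e (nat_lit 434245) (nat_lit 28) (.e (nat_lit 573470) (nat_lit 11) (.e (nat_lit 16388) (nat_lit 0) (.e (nat_lit 7583) (nat_lit 405) (.e (nat_lit 57464) (nat_lit 23) .nil))))))) (.g (nat_lit 1) (.e (nat_lit 407702) (nat_lit 0) .nil) .nil))) 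
(.lf (nat_lit 595596) (.g (nat_lit 2772) (.e (nat_lit 516179) (nat_lit 15) (.e (nat_lit 475179) (nat_lit 24) (.e (nat_lit 516160) (nat_lit 10) (.e (nat_lit 434247) (nat_lit 28) (.e (nat_lit 573484) (nat_lit 13) (.e (nat_lit 65642) (nat_lit 15) (.e (nat_lit 7936) (nat_lit 195) .nil))))))) (.g (nat_lit 1) (.e (nat_lit 408559) (nat_lit 0) .nil) .nil)))) (.nd (nat_lit 9) 
(.lf (nat_lit 595340) (.g (nat_lit 3824) (.e (nat_lit 516160) (nat_lit 10) (.e (nat_lit 434248) (nat_lit 28) (.e (nat_lit 573487) (nat_lit 14) (.e (nat_lit 73747) (nat_lit 3) (.e (nat_lit 516195) (nat_lit 26) (.e (nat_lit 336293) (nat_lit 15) (.e (nat_lit 7936) (nat_lit 195) .nil))))))) (.g (nat_lit 1) (.e (nat_lit 408164) (nat_lit 0) .nil) .nil))) 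
(.lf (nat_lit 595852) (.g (nat_lit 1228) (.e (nat_lit 524322) (nat_lit 12) (.e (nat_lit 450587) (nat_lit 10) (.e (nat_lit 573478) (nat_lit 12) (.e (nat_lit 57352) (nat_lit 0) .nil)))) (.g (nat_lit 0) (.e (nat_lit 409280) (nat_lit 0) .nil) .nil)))))) (.nd (nat_lit 7) (.nd (nat_lit 8) (.nd (nat_lit 9) 
(.lf (nat_lit 595020) (.g (nat_lit 4933) (.e (nat_lit 516151) (nat_lit 9) (.e (nat_lit 426043) (nat_lit 0) (.e (nat_lit 3406) (nat_lit 212) (.e (nat_lit 655375) (nat_lit 3) (.e (nat_lit 163978) (nat_lit 30) (.e (nat_lit 573485) (nat_lit 13) (.e (nat_lit 65619) (nat_lit 10) (.e (nat_lit 344117) (nat_lit 21) .nil)))))))) (.g (nat_lit 1) (.e (nat_lit 407630) (nat_lit 0) .nil) .nil))) 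
(.lf (nat_lit 595532) (.g (nat_lit 1985) (.e (nat_lit 516176) (nat_lit 14) (.e (nat_lit 466954) (nat_lit 11) (.e (nat_lit 335986) (nat_lit 1) (.e (nat_lit 57685) (nat_lit 156) .nil)))) (.g (nat_lit 0) (.e (nat_lit 408480) (nat_lit 0) .nil) .nil)))) (.nd (nat_lit 9) 
(.lf (nat_lit 595276) (.g (nat_lit 2291) (.e (nat_lit 516160) (nat_lit 10) (.e (nat_lit 434247) (nat_lit 28) (.e (nat_lit 573485) (nat_lit 13) (.e (nat_lit 65566) (nat_lit 2) (.e (nat_lit 90157) (nat_lit 11) (.e (nat_lit 24671) (nat_lit 15) (.e (nat_lit 7936) (nat_lit 195) .nil))))))) (.g (nat_lit 1) (.e (nat_lit 408069) (nat_lit 0) .nil) .nil))) 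
(.lf (nat_lit 595788) (.g (nat_lit 770) (.e (nat_lit 516199) (nat_lit 26) (.e (nat_lit 335988) (nat_lit 1) (.e (nat_lit 57926) (nat_lit 282) .nil))) (.g (nat_lit 0) (.e (nat_lit 408988) (nat_lit 0) .nil) .nil))))) (.nd (nat_lit 8) (.nd (nat_lit 9) 
(.lf (nat_lit 595148) (.g (nat_lit 487) (.e (nat_lit 516159) (nat_lit 10) (.e (nat_lit 434244) (nat_lit 28) (.e (nat_lit 573488) (nat_lit 14) .nil))) (.g (nat_lit 0) (.e (nat_lit 407833) (nat_lit 0) .nil) .nil))) 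
(.lf (nat_lit 595660) (.g (nat_lit 1207) (.e (nat_lit 516182) (nat_lit 15) (.e (nat_lit 475177) (nat_lit 24) (.e (nat_lit 516150) (nat_lit 9) (.e (nat_lit 433920) (nat_lit 18) .nil)))) (.g (nat_lit 0) (.e (nat_lit 408669) (nat_lit 0) .nil) .nil)))) (.nd (nat_lit 9) 
(.lf (nat_lit 595404) (.g (nat_lit 3028) (.e (nat_lit 516166) (nat_lit 12) (.e (nat_lit 450587) (nat_lit 10) (.e (nat_lit 573456) (nat_lit 9) (.e (nat_lit 430) (nat_lit 32) (.e (nat_lit 426343) (nat_lit 14) (.e (nat_lit 491526) (nat_lit 0) (.e (nat_lit 7936) (nat_lit 119) .nil))))))) (.g (nat_lit 1) (.e (nat_lit 408319) (nat_lit 0) .nil) .nil))) 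
(.lf (nat_lit 595916) (.g (nat_lit 1707) (.e (nat_lit 548912) (nat_lit 18) (.e (nat_lit 172124) (nat_lit 14) (.e (nat_lit 491540) (nat_lit 3) (.e (nat_lit 98372) (nat_lit 29) (.e (nat_lit 450583) (nat_lit 7) .nil))))) (.g (nat_lit 0) (.e (nat_lit 409954) (nat_lit 0) .nil) .nil))))))) (.nd (nat_lit 6) (.nd (nat_lit 7) (.nd (nat_lit 8) (.nd (nat_lit 9) 
(.lf (nat_lit 594988) (.g (nat_lit 3242) (.e (nat_lit 516150) (nat_lit 9) (.e (nat_lit 426323) (nat_lit 13) (.e (nat_lit 483363) (nat_lit 18) (.e (nat_lit 57686) (nat_lit 156) (.e (nat_lit 163936) (nat_lit 18) (.e (nat_lit 475177) (nat_lit 24) .nil)))))) (.g (nat_lit 1) (.e (nat_lit 407593) (nat_lit 0) .nil) .nil))) 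
(.lf (nat_lit 595500) (.g (nat_lit 2876) (.e (nat_lit 516174) (nat_lit 14) (.e (nat_lit 466954) (nat_lit 11) (.e (nat_lit 335988) (nat_lit 1) (.e (nat_lit 57692) (nat_lit 156) (.e (nat_lit 163938) (nat_lit 18) (.e (nat_lit 475177) (nat_lit 24) .nil)))))) (.g (nat_lit 1) (.e (nat_lit 408440) (nat_lit 0) .nil) .nil)))) (.nd (nat_lit 9) 
(.lf (nat_lit 595244) (.g (nat_lit 2955) (.e (nat_lit 516160) (nat_lit 10) (.e (nat_lit 434246) (nat_lit 28) (.e (nat_lit 573484) (nat_lit 13) (.e (nat_lit 65569) (nat_lit 3) (.e (nat_lit 98313) (nat_lit 9) (.e (nat_lit 336288) (nat_lit 15) (.e (nat_lit 7936) (nat_lit 195) .nil))))))) (.g (nat_lit 1) (.e (nat_lit 408026) (nat_lit 0) .nil) .nil))) 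
(.lf (nat_lit 595756) (.g (nat_lit 3441) (.e (nat_lit 516195) (nat_lit 26) (.e (nat_lit 335988) (nat_lit 1) (.e (nat_lit 57926) (nat_lit 282) (.e (nat_lit 163943) (nat_lit 19) (.e (nat_lit 483398) (nat_lit 25) (.e (nat_lit 368676) (nat_lit 21) .nil)))))) (.g (nat_lit 1) (.e (nat_lit 408859) (nat_lit 0) .nil) .nil))))) (.nd (nat_lit 8) (.nd (nat_lit 9) 
(.lf (nat_lit 595116) (.g (nat_lit 1642) (.e (nat_lit 516151) (nat_lit 9) (.e (nat_lit 426338) (nat_lit 14) (.e (nat_lit 491577) (nat_lit 15) (.e (nat_lit 3255) (nat_lit 197) (.e (nat_lit 532515) (nat_lit 3) (.e (nat_lit 114723) (nat_lit 24) (.e (nat_lit 106533) (nat_lit 10) (.e (nat_lit 16128) (nat_lit 13) .nil)))))))) (.g (nat_lit 1) (.e (nat_lit 407734) (nat_lit 0) .nil) .nil))) 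
(.lf (nat_lit 595628) (.g (nat_lit 1780) (.e (nat_lit 516180) (nat_lit 15) (.e (nat_lit 475179) (nat_lit 24) (.e (nat_lit 516179) (nat_lit 15) (.e (nat_lit 475177) (nat_lit 24) .nil)))) (.g (nat_lit 0) (.e (nat_lit 408613) (nat_lit 0) .nil) .nil)))) (.nd (nat_lit 9) 
(.lf (nat_lit 595372) (.g (nat_lit 3212) (.e (nat_lit 516163) (nat_lit 11) (.e (nat_lit 442412) (nat_lit 20) (.e (nat_lit 3297) (nat_lit 202) (.e (nat_lit 573450) (nat_lit 9) (.e (nat_lit 375) (nat_lit 32) (.e (nat_lit 426173) (nat_lit 7) (.e (nat_lit 409616) (nat_lit 10) (.e (nat_lit 7936) (nat_lit 43) .nil)))))))) (.g (nat_lit 1) (.e (nat_lit 408280) (nat_lit 0) .nil) .nil))) 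
(.lf (nat_lit 595884) (.g (nat_lit 1639) (.e (nat_lit 548898) (nat_lit 14) (.e (nat_lit 3098) (nat_lit 192) (.e (nat_lit 491556) (nat_lit 9) (.e (nat_lit 336017) (nat_lit 3) .nil)))) (.g (nat_lit 0) (.e (nat_lit 409876) (nat_lit 0) .nil) .nil)))))) (.nd (nat_lit 7) (.nd (nat_lit 8) (.nd (nat_lit 9) 
(.lf (nat_lit 595052) (.g (nat_lit 3313) (.e (nat_lit 516151) (nat_lit 9) (.e (nat_lit 426211) (nat_lit 9) (.e (nat_lit 426140) (nat_lit 3) (.e (nat_lit 204845) (nat_lit 24) (.e (nat_lit 319506) (nat_lit 10) (.e (nat_lit 5043) (nat_lit 291) (.e (nat_lit 229497) (nat_lit 84) .nil))))))) (.g (nat_lit 1) (.e (nat_lit 407669) (nat_lit 0) .nil) .nil))) 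
(.lf (nat_lit 595564) (.g (nat_lit 763) (.e (nat_lit 516178) (nat_lit 15) (.e (nat_lit 475179) (nat_lit 24) (.e (nat_lit 516182) (nat_lit 15) .nil))) (.g (nat_lit 0) (.e (nat_lit 408522) (nat_lit 0) .nil) .nil)))) (.nd (nat_lit 9) 
(.lf (nat_lit 595308) (.g (nat_lit 2684) (.e (nat_lit 516160) (nat_lit 10) (.e (nat_lit 434248) (nat_lit 28) (.e (nat_lit 573482) (nat_lit 13) (.e (nat_lit 65566) (nat_lit 2) (.e (nat_lit 90160) (nat_lit 11) (.e (nat_lit 24669) (nat_lit 15) (.e (nat_lit 7936) (nat_lit 195) .nil))))))) (.g (nat_lit 1) (.e (nat_lit 408121) (nat_lit 0) .nil) .nil))) 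
(.lf (nat_lit 595820) (.g (nat_lit 1259) (.e (nat_lit 524319) (nat_lit 11) (.e (nat_lit 442425) (nat_lit 23) (.e (nat_lit 204846) (nat_lit 24) (.e (nat_lit 319531) (nat_lit 16) .nil)))) (.g (nat_lit 0) (.e (nat_lit 409229) (nat_lit 0) .nil) .nil))))) (.nd (nat_lit 8) (.nd (nat_lit 9) 
(.lf (nat_lit 595180) (.g (nat_lit 2472) (.e (nat_lit 516160) (nat_lit 10) (.e (nat_lit 434244) (nat_lit 28) (.e (nat_lit 573481) (nat_lit 13) (.e (nat_lit 65568) (nat_lit 2) (.e (nat_lit 90157) (nat_lit 11) (.e (nat_lit 24670) (nat_lit 15) (.e (nat_lit 7936) (nat_lit 195) .nil))))))) (.g (nat_lit 1) (.e (nat_lit 407947) (nat_lit 0) .nil) .nil))) 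
(.lf (nat_lit 595692) (.g (nat_lit 1877) (.e (nat_lit 516182) (nat_lit 15) (.e (nat_lit 475199) (nat_lit 40) (.e (nat_lit 704589) (nat_lit 3) (.e (nat_lit 163976) (nat_lit 30) (.e (nat_lit 573481) (nat_lit 13) (.e (nat_lit 65613) (nat_lit 10) (.e (nat_lit 344116) (nat_lit 21) .nil))))))) (.g (nat_lit 1) (.e (nat_lit 408730) (nat_lit 0) .nil) .nil)))) (.nd (nat_lit 9) 
(.lf (nat_lit 595436) (.g (nat_lit 3200) (.e (nat_lit 516166) (nat_lit 12) (.e (nat_lit 450588) (nat_lit 10) (.e (nat_lit 573450) (nat_lit 9) (.e (nat_lit 442) (nat_lit 33) (.e (nat_lit 434178) (nat_lit 0) (.e (nat_lit 1077) (nat_lit 81) (.e (nat_lit 1796) (nat_lit 119) .nil))))))) (.g (nat_lit 1) (.e (nat_lit 408351) (nat_lit 0) .nil) .nil))) 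
(.lf (nat_lit 595948) (.g (nat_lit 2621) (.e (nat_lit 548913) (nat_lit 18) (.e (nat_lit 172124) (nat_lit 14) (.e (nat_lit 491537) (nat_lit 2) (.e (nat_lit 90176) (nat_lit 15) (.e (nat_lit 188434) (nat_lit 20) .nil))))) (.g (nat_lit 0) (.e (nat_lit 410293) (nat_lit 0) .nil) .nil)))))))) (.nd (nat_lit 5) (.nd (nat_lit 6) (.nd (nat_lit 7) (.nd (nat_lit 8) (.nd (nat_lit 9) 
(.lf (nat_lit 594972) (.g (nat_lit 363) (.e (nat_lit 516149) (nat_lit 9) (.e (nat_lit 426323) (nat_lit 13) (.e (nat_lit 483364) (nat_lit 18) .nil))) (.g (nat_lit 0) (.e (nat_lit 407564) (nat_lit 0) .nil) .nil))) 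
(.lf (nat_lit 595484) (.g (nat_lit 3058) (.e (nat_lit 516174) (nat_lit 14) (.e (nat_lit 466954) (nat_lit 11) (.e (nat_lit 335986) (nat_lit 1) (.e (nat_lit 57688) (nat_lit 156) (.e (nat_lit 163936) (nat_lit 18) (.e (nat_lit 475177) (nat_lit 24) .nil)))))) (.g (nat_lit 1) (.e (nat_lit 408423) (nat_lit 0) .nil) .nil)))) (.nd (nat_lit 9) 
(.lf (nat_lit 595228) (.g (nat_lit 3380) (.e (nat_lit 516160) (nat_lit 10) (.e (nat_lit 434245) (nat_lit 28) (.e (nat_lit 573488) (nat_lit 14) (.e (nat_lit 73747) (nat_lit 3) (.e (nat_lit 516195) (nat_lit 26) (.e (nat_lit 336288) (nat_lit 15) (.e (nat_lit 7936) (nat_lit 195) .nil))))))) (.g (nat_lit 1) (.e (nat_lit 408003) (nat_lit 0) .nil) .nil))) 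
(.lf (nat_lit 595740) (.g (nat_lit 1943) (.e (nat_lit 516194) (nat_lit 26) (.e (nat_lit 335996) (nat_lit 1) (.e (nat_lit 57931) (nat_lit 282) (.e (nat_lit 163943) (nat_lit 19) (.e (nat_lit 483394) (nat_lit 24) .nil))))) (.g (nat_lit 0) (.e (nat_lit 408831) (nat_lit 0) .nil) .nil))))) (.nd (nat_lit 8) (.nd (nat_lit 9) 
(.lf (nat_lit 595100) (.g (nat_lit 4235) (.e (nat_lit 516151) (nat_lit 9) (.e (nat_lit 426286) (nat_lit 10) (.e (nat_lit 434248) (nat_lit 28) (.e (nat_lit 573452) (nat_lit 9) (.e (nat_lit 430) (nat_lit 32) (.e (nat_lit 426012) (nat_lit 0) (.e (nat_lit 7581) (nat_lit 405) (.e (nat_lit 57464) (nat_lit 23) .nil)))))))) (.g (nat_lit 1) (.e (nat_lit 407718) (nat_lit 0) .nil) .nil))) 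
(.lf (nat_lit 595612) (.g (nat_lit 3050) (.e (nat_lit 516179) (nat_lit 15) (.e (nat_lit 475199) (nat_lit 40) (.e (nat_lit 704589) (nat_lit 3) (.e (nat_lit 163979) (nat_lit 30) (.e (nat_lit 573491) (nat_lit 15) (.e (nat_lit 89856) (nat_lit 20) (.e (nat_lit 1784) (nat_lit 119) .nil))))))) (.g (nat_lit 1) (.e (nat_lit 408581) (nat_lit 0) .nil) .nil)))) (.nd (nat_lit 9) 
(.lf (nat_lit 595356) (.g (nat_lit 1722) (.e (nat_lit 516160) (nat_lit 10) (.e (nat_lit 434272) (nat_lit 38) (.e (nat_lit 655375) (nat_lit 3) (.e (nat_lit 163978) (nat_lit 30) (.e (nat_lit 573482) (nat_lit 13) .nil))))) (.g (nat_lit 0) (.e (nat_lit 408202) (nat_lit 0) .nil) .nil))) 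
(.lf (nat_lit 595868) (.g (nat_lit 1239) (.e (nat_lit 524327) (nat_lit 16) (.e (nat_lit 491566) (nat_lit 12) (.e (nat_lit 385073) (nat_lit 31) .nil))) (.g (nat_lit 0) (.e (nat_lit 409307) (nat_lit 0) .nil) .nil)))))) (.nd (nat_lit 7) (.nd (nat_lit 8) (.nd (nat_lit 9) 
(.lf (nat_lit 595036) (.g (nat_lit 4382) (.e (nat_lit 516151) (nat_lit 9) (.e (nat_lit 426142) (nat_lit 4) (.e (nat_lit 229663) (nat_lit 240) (.e (nat_lit 2602) (nat_lit 163) (.e (nat_lit 163979) (nat_lit 30) (.e (nat_lit 573482) (nat_lit 13) (.e (nat_lit 65619) (nat_lit 10) (.e (nat_lit 344117) (nat_lit 21) .nil)))))))) (.g (nat_lit 1) (.e (nat_lit 407653) (nat_lit 0) .nil) .nil))) 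
(.lf (nat_lit 595548) (.g (nat_lit 3188) (.e (nat_lit 516176) (nat_lit 14) (.e (nat_lit 466954) (nat_lit 11) (.e (nat_lit 335995) (nat_lit 1) (.e (nat_lit 57688) (nat_lit 156) (.e (nat_lit 163936) (nat_lit 18) (.e (nat_lit 475177) (nat_lit 24) .nil)))))) (.g (nat_lit 1) (.e (nat_lit 408497) (nat_lit 0) .nil) .nil)))) (.nd (nat_lit 9) 
(.lf (nat_lit 595292) (.g (nat_lit 3672) (.e (nat_lit 516160) (nat_lit 10) (.e (nat_lit 434247) (nat_lit 28) (.e (nat_lit 573489) (nat_lit 14) (.e (nat_lit 73755) (nat_lit 8) (.e (nat_lit 557090) (nat_lit 12) (.e (nat_lit 164003) (nat_lit 40) (.e (nat_lit 655375) (nat_lit 3) (.e (nat_lit 171776) (nat_lit 23) .nil)))))))) (.g (nat_lit 1) (.e (nat_lit 408098) (nat_lit 0) .nil) .nil))) 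
(.lf (nat_lit 595804) (.g (nat_lit 206) (.e (nat_lit 524032) (nat_lit 28) (.e (nat_lit 352297) (nat_lit 20) (.e (nat_lit 2389) (nat_lit 156) .nil))) (.g (nat_lit 0) (.e (nat_lit 409026) (nat_lit 0) .nil) .nil))))) (.nd (nat_lit 8) (.nd (nat_lit 9) 
(.lf (nat_lit 595164) (.g (nat_lit 3158) (.e (nat_lit 516159) (nat_lit 10) (.e (nat_lit 434248) (nat_lit 28) (.e (nat_lit 573489) (nat_lit 14) (.e (nat_lit 73755) (nat_lit 8) (.e (nat_lit 557119) (nat_lit 18) (.e (nat_lit 2797) (nat_lit 180) (.e (nat_lit 303147) (nat_lit 15) (.e (nat_lit 1788) (nat_lit 119) .nil)))))))) (.g (nat_lit 1) (.e (nat_lit 407916) (nat_lit 0) .nil) .nil))) 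
(.lf (nat_lit 595676) (.g (nat_lit 1574) (.e (nat_lit 516182) (nat_lit 15) (.e (nat_lit 475198) (nat_lit 40) (.e (nat_lit 704589) (nat_lit 3) (.e (nat_lit 163975) (nat_lit 30) (.e (nat_lit 573491) (nat_lit 15) .nil))))) (.g (nat_lit 0) (.e (nat_lit 408689) (nat_lit 0) .nil) .nil)))) (.nd (nat_lit 9) 
(.lf (nat_lit 595420) (.g (nat_lit 1896) (.e (nat_lit 516166) (nat_lit 12) (.e (nat_lit 450587) (nat_lit 10) (.e (nat_lit 573477) (nat_lit 12) (.e (nat_lit 57574) (nat_lit 55) (.e (nat_lit 778465) (nat_lit 11) .nil))))) (.g (nat_lit 0) (.e (nat_lit 408335) (nat_lit 0) .nil) .nil))) 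
(.lf (nat_lit 595932) (.g (nat_lit 1288) (.e (nat_lit 548913) (nat_lit 18) (.e (nat_lit 172120) (nat_lit 12) (.e (nat_lit 475183) (nat_lit 29) (.e (nat_lit 557107) (nat_lit 15) .nil)))) (.g (nat_lit 0) (.e (nat_lit 410275) (nat_lit 0) .nil) .nil))))))) (.nd (nat_lit 6) (.nd (nat_lit 7) (.nd (nat_lit 8) (.nd (nat_lit 9) 
(.lf (nat_lit 595004) (.g (nat_lit 3330) (.e (nat_lit 516151) (nat_lit 9) (.e (nat_lit 426042) (nat_lit 0) (.e (nat_lit 3307) (nat_lit 202) (.e (nat_lit 573484) (nat_lit 13) (.e (nat_lit 65553) (nat_lit 0) (.e (nat_lit 1886) (nat_lit 127) (.e (nat_lit 581636) (nat_lit 0) (.e (nat_lit 3063) (nat_lit 190) (.e (nat_lit 475175) (nat_lit 24) .nil))))))))) (.g (nat_lit 1) (.e (nat_lit 407614) (nat_lit 0) .nil) .nil))) 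
(.lf (nat_lit 595516) (.g (nat_lit 2886) (.e (nat_lit 516174) (nat_lit 14) (.e (nat_lit 466954) (nat_lit 11) (.e (nat_lit 335996) (nat_lit 1) (.e (nat_lit 57692) (nat_lit 156) (.e (nat_lit 163938) (nat_lit 18) (.e (nat_lit 475177) (nat_lit 24) .nil)))))) (.g (nat_lit 1) (.e (nat_lit 408457) (nat_lit 0) .nil) .nil)))) (.nd (nat_lit 9) 
(.lf (nat_lit 595260) (.g (nat_lit 2777) (.e (nat_lit 516160) (nat_lit 10) (.e (nat_lit 434247) (nat_lit 28) (.e (nat_lit 573484) (nat_lit 13) (.e (nat_lit 65566) (nat_lit 2) (.e (nat_lit 90156) (nat_lit 11) (.e (nat_lit 24671) (nat_lit 15) (.e (nat_lit 7936) (nat_lit 195) .nil))))))) (.g (nat_lit 1) (.e (nat_lit 408047) (nat_lit 0) .nil) .nil))) 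
(.lf (nat_lit 595772) (.g (nat_lit 4616) (.e (nat_lit 516195) (nat_lit 26) (.e (nat_lit 335996) (nat_lit 1) (.e (nat_lit 57930) (nat_lit 282) (.e (nat_lit 163902) (nat_lit 12) (.e (nat_lit 426544) (nat_lit 30) (.e (nat_lit 360467) (nat_lit 3) .nil)))))) (.g (nat_lit 1) (.e (nat_lit 408902) (nat_lit 0) .nil) .nil))))) (.nd (nat_lit 8) (.nd (nat_lit 9) 
(.lf (nat_lit 595132) (.g (nat_lit 1873) (.e (nat_lit 516158) (nat_lit 9) (.e (nat_lit 426306) (nat_lit 12) (.e (nat_lit 475177) (nat_lit 24) (.e (nat_lit 516131) (nat_lit 3) (.e (nat_lit 229120) (nat_lit 12) (.e (nat_lit 344120) (nat_lit 21) .nil)))))) (.g (nat_lit 1) (.e (nat_lit 407764) (nat_lit 0) .nil) .nil))) 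
(.lf (nat_lit 595644) (.g (nat_lit 1251) (.e (nat_lit 516181) (nat_lit 15) (.e (nat_lit 475179) (nat_lit 24) (.e (nat_lit 516146) (nat_lit 9) (.e (nat_lit 426438) (nat_lit 18) .nil)))) (.g (nat_lit 0) (.e (nat_lit 408637) (nat_lit 0) .nil) .nil)))) (.nd (nat_lit 9) 
(.lf (nat_lit 595388) (.g (nat_lit 4334) (.e (nat_lit 516165) (nat_lit 12) (.e (nat_lit 450586) (nat_lit 10) (.e (nat_lit 573475) (nat_lit 12) (.e (nat_lit 57347) (nat_lit 0) (.e (nat_lit 7266) (nat_lit 384) (.e (nat_lit 57431) (nat_lit 16) (.e (nat_lit 368676) (nat_lit 21) .nil))))))) (.g (nat_lit 1) (.e (nat_lit 408301) (nat_lit 0) .nil) .nil))) 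
(.lf (nat_lit 595900) (.g (nat_lit 2087) (.e (nat_lit 548911) (nat_lit 18) (.e (nat_lit 172124) (nat_lit 14) (.e (nat_lit 491540) (nat_lit 3) (.e (nat_lit 98373) (nat_lit 29) (.e (nat_lit 450583) (nat_lit 7) .nil))))) (.g (nat_lit 0) (.e (nat_lit 409924) (nat_lit 0) .nil) .nil)))))) (.nd (nat_lit 7) (.nd (nat_lit 8) (.nd (nat_lit 9) 
(.lf (nat_lit 595068) (.g (nat_lit 6176) (.e (nat_lit 516151) (nat_lit 9) (.e (nat_lit 426285) (nat_lit 10) (.e (nat_lit 434247) (nat_lit 28) (.e (nat_lit 573471) (nat_lit 11) (.e (nat_lit 16425) (nat_lit 7) (.e (nat_lit 409616) (nat_lit 10) (.e (nat_lit 7936) (nat_lit 43) .nil))))))) (.g (nat_lit 1) (.e (nat_lit 407685) (nat_lit 0) .nil) .nil))) 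
(.lf (nat_lit 595580) (.g (nat_lit 1751) (.e (nat_lit 516179) (nat_lit 15) (.e (nat_lit 475177) (nat_lit 24) (.e (nat_lit 516150) (nat_lit 9) (.e (nat_lit 426131) (nat_lit 3) (.e (nat_lit 204834) (nat_lit 19) .nil))))) (.g (nat_lit 0) (.e (nat_lit 408540) (nat_lit 0) .nil) .nil)))) (.nd (nat_lit 9) 
(.lf (nat_lit 595324) (.g (nat_lit 2808) (.e (nat_lit 516160) (nat_lit 10) (.e (nat_lit 434248) (nat_lit 28) (.e (nat_lit 573482) (nat_lit 13) (.e (nat_lit 65570) (nat_lit 3) (.e (nat_lit 98313) (nat_lit 9) (.e (nat_lit 336288) (nat_lit 15) (.e (nat_lit 7936) (nat_lit 195) .nil))))))) (.g (nat_lit 1) (.e (nat_lit 408143) (nat_lit 0) .nil) .nil))) 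
(.lf (nat_lit 595836) (.g (nat_lit 2226) (.e (nat_lit 524321) (nat_lit 12) (.e (nat_lit 450588) (nat_lit 10) (.e (nat_lit 573474) (nat_lit 12) (.e (nat_lit 57347) (nat_lit 0) .nil)))) (.g (nat_lit 0) (.e (nat_lit 409257) (nat_lit 0) .nil) .nil))))) (.nd (nat_lit 8) (.nd (nat_lit 9) 
(.lf (nat_lit 595196) (.g (nat_lit 1504) (.e (nat_lit 516160) (nat_lit 10) (.e (nat_lit 434244) (nat_lit 28) (.e (nat_lit 573487) (nat_lit 14) (.e (nat_lit 73753) (nat_lit 8) .nil)))) (.g (nat_lit 0) (.e (nat_lit 407965) (nat_lit 0) .nil) .nil))) 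
(.lf (nat_lit 595708) (.g (nat_lit 5011) (.e (nat_lit 516183) (nat_lit 16) (.e (nat_lit 491566) (nat_lit 12) (.e (nat_lit 385074) (nat_lit 31) (.e (nat_lit 573484) (nat_lit 13) (.e (nat_lit 65610) (nat_lit 10) (.e (nat_lit 344117) (nat_lit 21) .nil)))))) (.g (nat_lit 1) (.e (nat_lit 408761) (nat_lit 0) .nil) .nil)))) (.nd (nat_lit 9) 
(.lf (nat_lit 595452) (.g (nat_lit 2165) (.e (nat_lit 516166) (nat_lit 12) (.e (nat_lit 450588) (nat_lit 10) (.e (nat_lit 573470) (nat_lit 11) (.e (nat_lit 16396) (nat_lit 0) (.e (nat_lit 7095) (nat_lit 380) (.e (nat_lit 171776) (nat_lit 84) .nil)))))) (.g (nat_lit 1) (.e (nat_lit 408367) (nat_lit 0) .nil) .nil))) 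
(.lf (nat_lit 595964) (.g (nat_lit 1683) (.e (nat_lit 548913) (nat_lit 18) (.e (nat_lit 172125) (nat_lit 14) (.e (nat_lit 491539) (nat_lit 3) (.e (nat_lit 98373) (nat_lit 29) (.e (nat_lit 450583) (nat_lit 7) .nil))))) (.g (nat_lit 0) (.e (nat_lit 410310) (nat_lit 0) .nil) .nil))))))))))) 
(.nd (nat_lit 2) (.nd (nat_lit 3) (.nd (nat_lit 4) (.nd (nat_lit 5) (.nd (nat_lit 6) 
(.nd (nat_lit 7) (.nd (nat_lit 8) (.nd (nat_lit 9) 
(.lf (nat_lit 594946) (.g (nat_lit 1671) (.e (nat_lit 516148) (nat_lit 9) (.e (nat_lit 426131) (nat_lit 3) (.e (nat_lit 204838) (nat_lit 20) (.e (nat_lit 114715) (nat_lit 22) .nil)))) (.g (nat_lit 0) (.e (nat_lit 407527) (nat_lit 0) .nil) .nil))) 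
(.lf (nat_lit 595458) (.g (nat_lit 4632) (.e (nat_lit 516166) (nat_lit 12) (.e (nat_lit 450588) (nat_lit 10) (.e (nat_lit 573475) (nat_lit 12) (.e (nat_lit 57354) (nat_lit 0) (.e (nat_lit 7273) (nat_lit 385) (.e (nat_lit 122913) (nat_lit 13) (.e (nat_lit 344118) (nat_lit 21) .nil))))))) (.g (nat_lit 1) (.e (nat_lit 408373) (nat_lit 0) .nil) .nil)))) (.nd (nat_lit 9) 
(.lf (nat_lit 595202) (.g (nat_lit 2639) (.e (nat_lit 516160) (nat_lit 10) (.e (nat_lit 434244) (nat_lit 28) (.e (nat_lit 573488) (nat_lit 14) (.e (nat_lit 73747) (nat_lit 3) (.e (nat_lit 516195) (nat_lit 26) (.e (nat_lit 336293) (nat_lit 15) (.e (nat_lit 7936) (nat_lit 195) .nil))))))) (.g (nat_lit 1) (.e (nat_lit 407972) (nat_lit 0) .nil) .nil))) 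
(.lf (nat_lit 595714) (.g (nat_lit 3078) (.e (nat_lit 516183) (nat_lit 16) (.e (nat_lit 491572) (nat_lit 14) (.e (nat_lit 401428) (nat_lit 3) (.e (nat_lit 204868) (nat_lit 29) (.e (nat_lit 360466) (nat_lit 3) .nil))))) (.g (nat_lit 1) (.e (nat_lit 408769) (nat_lit 0) .nil) .nil))))) (.nd (nat_lit 8) (.nd (nat_lit 9) 
(.lf (nat_lit 595074) (.g (nat_lit 4954) (.e (nat_lit 516151) (nat_lit 9) (.e (nat_lit 426285) (nat_lit 10) (.e (nat_lit 434248) (nat_lit 28) (.e (nat_lit 573471) (nat_lit 11) (.e (nat_lit 16425) (nat_lit 7) (.e (nat_lit 409617) (nat_lit 10) (.e (nat_lit 7936) (nat_lit 43) .nil))))))) (.g (nat_lit 1) (.e (nat_lit 407691) (nat_lit 0) .nil) .nil))) 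
(.lf (nat_lit 595586) (.g (nat_lit 2916) (.e (nat_lit 516179) (nat_lit 15) (.e (nat_lit 475177) (nat_lit 24) (.e (nat_lit 516179) (nat_lit 15) (.e (nat_lit 475177) (nat_lit 24) (.e (nat_lit 516181) (nat_lit 15) (.e (nat_lit 475178) (nat_lit 24) .nil)))))) (.g (nat_lit 1) (.e (nat_lit 408548) (nat_lit 0) .nil) .nil)))) (.nd (nat_lit 9) 
(.lf (nat_lit 595330) (.g (nat_lit 3563) (.e (nat_lit 516160) (nat_lit 10) (.e (nat_lit 434248) (nat_lit 28) (.e (nat_lit 573482) (nat_lit 13) (.e (nat_lit 65571) (nat_lit 3) (.e (nat_lit 98317) (nat_lit 9) (.e (nat_lit 336288) (nat_lit 15) (.e (nat_lit 7936) (nat_lit 195) .nil))))))) (.g (nat_lit 1) (.e (nat_lit 408149) (nat_lit 0) .nil) .nil))) 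
(.lf (nat_lit 595842) (.g (nat_lit 3037) (.e (nat_lit 524321) (nat_lit 12) (.e (nat_lit 450588) (nat_lit 10) (.e (nat_lit 573475) (nat_lit 12) (.e (nat_lit 57574) (nat_lit 55) (.e (nat_lit 778464) (nat_lit 11) .nil))))) (.g (nat_lit 0) (.e (nat_lit 409268) (nat_lit 0) .nil) .nil)))))) (.nd (nat_lit 7) (.nd (nat_lit 8) (.nd (nat_lit 9) 
(.lf (nat_lit 595010) (.g (nat_lit 3196) (.e (nat_lit 516151) (nat_lit 9) (.e (nat_lit 426043) (nat_lit 0) (.e (nat_lit 3369) (nat_lit 208) (.e (nat_lit 622623) (nat_lit 13) (.e (nat_lit 2668) (nat_lit 167) (.e (nat_lit 196666) (nat_lit 13) (.e (nat_lit 65610) (nat_lit 10) (.e (nat_lit 344117) (nat_lit 21) .nil)))))))) (.g (nat_lit 1) (.e (nat_lit 407620) (nat_lit 0) .nil) .nil))) 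
(.lf (nat_lit 595522) (.g (nat_lit 1337) (.e (nat_lit 516175) (nat_lit 14) (.e (nat_lit 466971) (nat_lit 21) (.e (nat_lit 164179) (nat_lit 154) (.e (nat_lit 57389) (nat_lit 5) .nil)))) (.g (nat_lit 0) (.e (nat_lit 408463) (nat_lit 0) .nil) .nil)))) (.nd (nat_lit 9) 
(.lf (nat_lit 595266) (.g (nat_lit 1514) (.e (nat_lit 516160) (nat_lit 10) (.e (nat_lit 434247) (nat_lit 28) (.e (nat_lit 573484) (nat_lit 13) (.e (nat_lit 65568) (nat_lit 2) .nil)))) (.g (nat_lit 0) (.e (nat_lit 408053) (nat_lit 0) .nil) .nil))) 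
(.lf (nat_lit 595778) (.g (nat_lit 1779) (.e (nat_lit 516195) (nat_lit 26) (.e (nat_lit 336027) (nat_lit 3) (.e (nat_lit 98333) (nat_lit 18) (.e (nat_lit 164183) (nat_lit 154) .nil)))) (.g (nat_lit 0) (.e (nat_lit 408916) (nat_lit 0) .nil) .nil))))) (.nd (nat_lit 8) (.nd (nat_lit 9) 
(.lf (nat_lit 595138) (.g (nat_lit 1526) (.e (nat_lit 516159) (nat_lit 10) (.e (nat_lit 434231) (nat_lit 23) (.e (nat_lit 532514) (nat_lit 3) (.e (nat_lit 114719) (nat_lit 23) .nil)))) (.g (nat_lit 0) (.e (nat_lit 407792) (nat_lit 0) .nil) .nil))) 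
(.lf (nat_lit 595650) (.g (nat_lit 3052) (.e (nat_lit 516181) (nat_lit 15) (.e (nat_lit 475198) (nat_lit 40) (.e (nat_lit 704589) (nat_lit 3) (.e (nat_lit 163979) (nat_lit 30) (.e (nat_lit 573491) (nat_lit 15) (.e (nat_lit 81946) (nat_lit 20) (.e (nat_lit 1802) (nat_lit 119) .nil))))))) (.g (nat_lit 1) (.e (nat_lit 408649) (nat_lit 0) .nil) .nil)))) (.nd (nat_lit 9) 
(.lf (nat_lit 595394) (.g (nat_lit 2472) (.e (nat_lit 516166) (nat_lit 12) (.e (nat_lit 450563) (nat_lit 0) (.e (nat_lit 4181) (nat_lit 251) (.e (nat_lit 968) (nat_lit 81) (.e (nat_lit 375) (nat_lit 32) (.e (nat_lit 426173) (nat_lit 7) (.e (nat_lit 409616) (nat_lit 10) (.e (nat_lit 7936) (nat_lit 43) .nil)))))))) (.g (nat_lit 1) (.e (nat_lit 408309) (nat_lit 0) .nil) .nil))) 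
(.lf (nat_lit 595906) (.g (nat_lit 2593) (.e (nat_lit 548911) (nat_lit 18) (.e (nat_lit 172126) (nat_lit 14) (.e (nat_lit 491537) (nat_lit 2) (.e (nat_lit 90178) (nat_lit 15) (.e (nat_lit 188441) (nat_lit 20) .nil))))) (.g (nat_lit 0) (.e (nat_lit 409930) (nat_lit 0) .nil) .nil))))))) (.nd (nat_lit 6) (.nd (nat_lit 7) (.nd (nat_lit 8) (.nd (nat_lit 9) 
(.lf (nat_lit 594978) (.g (nat_lit 1772) (.e (nat_lit 516149) (nat_lit 9) (.e (nat_lit 426323) (nat_lit 13) (.e (nat_lit 483365) (nat_lit 18) (.e (nat_lit 57685) (nat_lit 156) (.e (nat_lit 163939) (nat_lit 18) .nil))))) (.g (nat_lit 0) (.e (nat_lit 407574) (nat_lit 0) .nil) .nil))) 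
(.lf (nat_lit 595490) (.g (nat_lit 3015) (.e (nat_lit 516174) (nat_lit 14) (.e (nat_lit 466954) (nat_lit 11) (.e (nat_lit 335986) (nat_lit 1) (.e (nat_lit 57691) (nat_lit 156) (.e (nat_lit 163939) (nat_lit 18) (.e (nat_lit 475177) (nat_lit 24) .nil)))))) (.g (nat_lit 1) (.e (nat_lit 408429) (nat_lit 0) .nil) .nil)))) (.nd (nat_lit 9) 
(.lf (nat_lit 595234) (.g (nat_lit 1093) (.e (nat_lit 516160) (nat_lit 10) (.e (nat_lit 434246) (nat_lit 28) (.e (nat_lit 573482) (nat_lit 13) (.e (nat_lit 65568) (nat_lit 2) .nil)))) (.g (nat_lit 0) (.e (nat_lit 408014) (nat_lit 0) .nil) .nil))) 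
(.lf (nat_lit 595746) (.g (nat_lit 2484) (.e (nat_lit 516195) (nat_lit 26) (.e (nat_lit 335986) (nat_lit 1) (.e (nat_lit 57926) (nat_lit 282) (.e (nat_lit 163941) (nat_lit 19) (.e (nat_lit 483398) (nat_lit 25) (.e (nat_lit 368676) (nat_lit 21) .nil)))))) (.g (nat_lit 1) (.e (nat_lit 408841) (nat_lit 0) .nil) .nil))))) (.nd (nat_lit 8) (.nd (nat_lit 9) 
(.lf (nat_lit 595106) (.g (nat_lit 4324) (.e (nat_lit 516151) (nat_lit 9) (.e (nat_lit 426286) (nat_lit 10) (.e (nat_lit 434248) (nat_lit 28) (.e (nat_lit 573471) (nat_lit 11) (.e (nat_lit 16386) (nat_lit 0) (.e (nat_lit 7581) (nat_lit 405) (.e (nat_lit 57464) (nat_lit 23) .nil))))))) (.g (nat_lit 1) (.e (nat_lit 407724) (nat_lit 0) .nil) .nil))) 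
(.lf (nat_lit 595618) (.g (nat_lit 2012) (.e (nat_lit 516180) (nat_lit 15) (.e (nat_lit 475177) (nat_lit 24) (.e (nat_lit 516150) (nat_lit 9) (.e (nat_lit 426360) (nat_lit 15) .nil)))) (.g (nat_lit 0) (.e (nat_lit 408601) (nat_lit 0) .nil) .nil)))) (.nd (nat_lit 9) 
(.lf (nat_lit 595362) (.g (nat_lit 2015) (.e (nat_lit 516162) (nat_lit 11) (.e (nat_lit 442427) (nat_lit 23) (.e (nat_lit 204846) (nat_lit 24) (.e (nat_lit 319504) (nat_lit 10) .nil)))) (.g (nat_lit 0) (.e (nat_lit 408270) (nat_lit 0) .nil) .nil))) 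
(.lf (nat_lit 595874) (.g (nat_lit 1862) (.e (nat_lit 532224) (nat_lit 29) (.e (nat_lit 360451) (nat_lit 0) (.e (nat_lit 7710) (nat_lit 414) (.e (nat_lit 163905) (nat_lit 12) (.e (nat_lit 426294) (nat_lit 11) .nil))))) (.g (nat_lit 0) (.e (nat_lit 409353) (nat_lit 0) .nil) .nil)))))) (.nd (nat_lit 7) (.nd (nat_lit 8) (.nd (nat_lit 9) 
(.lf (nat_lit 595042) (.g (nat_lit 1029) (.e (nat_lit 516151) (nat_lit 9) (.e (nat_lit 426211) (nat_lit 9) (.e (nat_lit 426125) (nat_lit 2) (.e (nat_lit 196661) (nat_lit 12) .nil)))) (.g (nat_lit 0) (.e (nat_lit 407659) (nat_lit 0) .nil) .nil))) 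
(.lf (nat_lit 595554) (.g (nat_lit 1903) (.e (nat_lit 516177) (nat_lit 14) (.e (nat_lit 466969) (nat_lit 21) (.e (nat_lit 164179) (nat_lit 154) (.e (nat_lit 57389) (nat_lit 5) .nil)))) (.g (nat_lit 0) (.e (nat_lit 408506) (nat_lit 0) .nil) .nil)))) (.nd (nat_lit 9) 
(.lf (nat_lit 595298) (.g (nat_lit 1416) (.e (nat_lit 516160) (nat_lit 10) (.e (nat_lit 434248) (nat_lit 28) (.e (nat_lit 573481) (nat_lit 13) (.e (nat_lit 65549) (nat_lit 0) .nil)))) (.g (nat_lit 0) (.e (nat_lit 408109) (nat_lit 0) .nil) .nil))) 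
(.lf (nat_lit 595810) (.g (nat_lit 1322) (.e (nat_lit 524291) (nat_lit 0) (.e (nat_lit 3459) (nat_lit 216) (.e (nat_lit 688139) (nat_lit 5) (.e (nat_lit 3085) (nat_lit 191) (.e (nat_lit 483341) (nat_lit 9) .nil))))) (.g (nat_lit 0) (.e (nat_lit 409057) (nat_lit 0) .nil) .nil))))) (.nd (nat_lit 8) (.nd (nat_lit 9) 
(.lf (nat_lit 595170) (.g (nat_lit 3059) (.e (nat_lit 516160) (nat_lit 10) (.e (nat_lit 434231) (nat_lit 23) (.e (nat_lit 532514) (nat_lit 3) (.e (nat_lit 114719) (nat_lit 23) (.e (nat_lit 98323) (nat_lit 17) (.e (nat_lit 3399) (nat_lit 211) (.e (nat_lit 647181) (nat_lit 3) (.e (nat_lit 171776) (nat_lit 23) .nil)))))))) (.g (nat_lit 1) (.e (nat_lit 407936) (nat_lit 0) .nil) .nil))) 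
(.lf (nat_lit 595682) (.g (nat_lit 1743) (.e (nat_lit 516182) (nat_lit 15) (.e (nat_lit 475198) (nat_lit 40) (.e (nat_lit 704589) (nat_lit 3) (.e (nat_lit 163979) (nat_lit 30) (.e (nat_lit 573491) (nat_lit 15) (.e (nat_lit 81943) (nat_lit 20) (.e (nat_lit 1801) (nat_lit 119) .nil))))))) (.g (nat_lit 1) (.e (nat_lit 408708) (nat_lit 0) .nil) .nil)))) (.nd (nat_lit 9) 
(.lf (nat_lit 595426) (.g (nat_lit 4639) (.e (nat_lit 516166) (nat_lit 12) (.e (nat_lit 450587) (nat_lit 10) (.e (nat_lit 573478) (nat_lit 12) (.e (nat_lit 57574) (nat_lit 55) (.e (nat_lit 778455) (nat_lit 10) (.e (nat_lit 8543) (nat_lit 229) (.e (nat_lit 229497) (nat_lit 84) .nil))))))) (.g (nat_lit 1) (.e (nat_lit 408341) (nat_lit 0) .nil) .nil))) 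
(.lf (nat_lit 595938) (.g (nat_lit 3711) (.e (nat_lit 548913) (nat_lit 18) (.e (nat_lit 172120) (nat_lit 12) (.e (nat_lit 475183) (nat_lit 29) (.e (nat_lit 557109) (nat_lit 15) (.e (nat_lit 188441) (nat_lit 20) (.e (nat_lit 3272) (nat_lit 199) .nil)))))) (.g (nat_lit 1) (.e (nat_lit 410281) (nat_lit 0) .nil) .nil)))))))) 
(.nd (nat_lit 5) (.nd (nat_lit 6) (.nd (nat_lit 7) (.nd (nat_lit 8) (.nd (nat_lit 9) 
(.lf (nat_lit 594962) (.g (nat_lit 596) (.e (nat_lit 516149) (nat_lit 9) (.e (nat_lit 426131) (nat_lit 3) (.e (nat_lit 204838) (nat_lit 20) .nil))) (.g (nat_lit 0) (.e (nat_lit 407545) (nat_lit 0) .nil) .nil))) 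
(.lf (nat_lit 595474) (.g (nat_lit 1861) (.e (nat_lit 516174) (nat_lit 14) (.e (nat_lit 466954) (nat_lit 11) (.e (nat_lit 335986) (nat_lit 1) (.e (nat_lit 57654) (nat_lit 152) .nil)))) (.g (nat_lit 0) (.e (nat_lit 408409) (nat_lit 0) .nil) .nil)))) (.nd (nat_lit 9) 
(.lf (nat_lit 595218) (.g (nat_lit 2012) (.e (nat_lit 516160) (nat_lit 10) (.e (nat_lit 434245) (nat_lit 28) (.e (nat_lit 573487) (nat_lit 14) (.e (nat_lit 73747) (nat_lit 3) (.e (nat_lit 516195) (nat_lit 26) (.e (nat_lit 336273) (nat_lit 15) (.e (nat_lit 7936) (nat_lit 195) .nil))))))) (.g (nat_lit 1) (.e (nat_lit 407993) (nat_lit 0) .nil) .nil))) 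
(.lf (nat_lit 595730) (.g (nat_lit 1580) (.e (nat_lit 524032) (nat_lit 18) (.e (nat_lit 57926) (nat_lit 282) (.e (nat_lit 163886) (nat_lit 5) (.e (nat_lit 221212) (nat_lit 22) (.e (nat_lit 196653) (nat_lit 11) .nil))))) (.g (nat_lit 0) (.e (nat_lit 408801) (nat_lit 0) .nil) .nil))))) (.nd (nat_lit 8) (.nd (nat_lit 9) 
(.lf (nat_lit 595090) (.g (nat_lit 4420) (.e (nat_lit 516151) (nat_lit 9) (.e (nat_lit 426286) (nat_lit 10) (.e (nat_lit 434245) (nat_lit 28) (.e (nat_lit 573471) (nat_lit 11) (.e (nat_lit 16425) (nat_lit 7) (.e (nat_lit 409623) (nat_lit 10) (.e (nat_lit 577) (nat_lit 43) .nil))))))) (.g (nat_lit 1) (.e (nat_lit 407708) (nat_lit 0) .nil) .nil))) 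
(.lf (nat_lit 595602) (.g (nat_lit 3148) (.e (nat_lit 516179) (nat_lit 15) (.e (nat_lit 475198) (nat_lit 40) (.e (nat_lit 704589) (nat_lit 3) (.e (nat_lit 163976) (nat_lit 30) (.e (nat_lit 573491) (nat_lit 15) (.e (nat_lit 81946) (nat_lit 20) (.e (nat_lit 1802) (nat_lit 119) .nil))))))) (.g (nat_lit 1) (.e (nat_lit 408566) (nat_lit 0) .nil) .nil)))) (.nd (nat_lit 9) 
(.lf (nat_lit 595346) (.g (nat_lit 2437) (.e (nat_lit 516160) (nat_lit 10) (.e (nat_lit 434248) (nat_lit 28) (.e (nat_lit 573489) (nat_lit 14) (.e (nat_lit 73755) (nat_lit 8) (.e (nat_lit 564992) (nat_lit 4) (.e (nat_lit 65632) (nat_lit 15) (.e (nat_lit 7936) (nat_lit 195) .nil))))))) (.g (nat_lit 1) (.e (nat_lit 408176) (nat_lit 0) .nil) .nil))) 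
(.lf (nat_lit 595858) (.g (nat_lit 3023) (.e (nat_lit 524322) (nat_lit 12) (.e (nat_lit 450588) (nat_lit 10) (.e (nat_lit 573450) (nat_lit 9) (.e (nat_lit 375) (nat_lit 32) (.e (nat_lit 426173) (nat_lit 7) (.e (nat_lit 409617) (nat_lit 10) (.e (nat_lit 7936) (nat_lit 44) .nil))))))) (.g (nat_lit 1) (.e (nat_lit 409286) (nat_lit 0) .nil) .nil)))))) 
(.nd (nat_lit 7) (.nd (nat_lit 8) (.nd (nat_lit 9) 
(.lf (nat_lit 595026) (.g (nat_lit 4314) (.e (nat_lit 516151) (nat_lit 9) (.e (nat_lit 426043) (nat_lit 0) (.e (nat_lit 3408) (nat_lit 212) (.e (nat_lit 655375) (nat_lit 3) (.e (nat_lit 163977) (nat_lit 30) (.e (nat_lit 573482) (nat_lit 13) (.e (nat_lit 65619) (nat_lit 10) (.e (nat_lit 344117) (nat_lit 21) .nil)))))))) (.g (nat_lit 1) (.e (nat_lit 407636) (nat_lit 0) .nil) .nil))) 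
(.lf (nat_lit 595538) (.g (nat_lit 733) (.e (nat_lit 516176) (nat_lit 14) (.e (nat_lit 466954) (nat_lit 11) (.e (nat_lit 335987) (nat_lit 1) .nil))) (.g (nat_lit 0) (.e (nat_lit 408486) (nat_lit 0) .nil) .nil)))) (.nd (nat_lit 9) 
(.lf (nat_lit 595282) (.g (nat_lit 2426) (.e (nat_lit 516160) (nat_lit 10) (.e (nat_lit 434247) (nat_lit 28) (.e (nat_lit 573485) (nat_lit 13) (.e (nat_lit 65569) (nat_lit 3) (.e (nat_lit 98313) (nat_lit 9) (.e (nat_lit 336288) (nat_lit 15) (.e (nat_lit 7936) (nat_lit 195) .nil))))))) (.g (nat_lit 1) (.e (nat_lit 408081) (nat_lit 0) .nil) .nil))) 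
(.lf (nat_lit 595794) (.g (nat_lit 2751) (.e (nat_lit 516199) (nat_lit 26) (.e (nat_lit 335996) (nat_lit 1) (.e (nat_lit 57931) (nat_lit 282) (.e (nat_lit 163902) (nat_lit 12) (.e (nat_lit 426546) (nat_lit 30) (.e (nat_lit 360466) (nat_lit 3) .nil)))))) (.g (nat_lit 1) (.e (nat_lit 408996) (nat_lit 0) .nil) .nil))))) (.nd (nat_lit 8) (.nd (nat_lit 9) 
(.lf (nat_lit 595154) (.g (nat_lit 1741) (.e (nat_lit 516159) (nat_lit 10) (.e (nat_lit 434247) (nat_lit 28) (.e (nat_lit 573484) (nat_lit 13) (.e (nat_lit 65569) (nat_lit 3) .nil)))) (.g (nat_lit 0) (.e (nat_lit 407863) (nat_lit 0) .nil) .nil))) 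
(.lf (nat_lit 595666) (.g (nat_lit 2560) (.e (nat_lit 516182) (nat_lit 15) (.e (nat_lit 475177) (nat_lit 24) (.e (nat_lit 516181) (nat_lit 15) (.e (nat_lit 475177) (nat_lit 24) (.e (nat_lit 516179) (nat_lit 15) (.e (nat_lit 475177) (nat_lit 24) .nil)))))) (.g (nat_lit 1) (.e (nat_lit 408678) (nat_lit 0) .nil) .nil)))) (.nd (nat_lit 9) 
(.lf (nat_lit 595410) (.g (nat_lit 1671) (.e (nat_lit 516166) (nat_lit 12) (.e (nat_lit 450587) (nat_lit 10) (.e (nat_lit 573469) (nat_lit 11) (.e (nat_lit 16392) (nat_lit 0) .nil)))) (.g (nat_lit 0) (.e (nat_lit 408325) (nat_lit 0) .nil) .nil))) 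
(.lf (nat_lit 595922) (.g (nat_lit 1476) (.e (nat_lit 548912) (nat_lit 18) (.e (nat_lit 172126) (nat_lit 14) (.e (nat_lit 491540) (nat_lit 3) (.e (nat_lit 98365) (nat_lit 26) .nil)))) (.g (nat_lit 0) (.e (nat_lit 409960) (nat_lit 0) .nil) .nil))))))) (.nd (nat_lit 6) (.nd (nat_lit 7) (.nd (nat_lit 8) (.nd (nat_lit 9) 
(.lf (nat_lit 594994) (.g (nat_lit 1186) (.e (nat_lit 516150) (nat_lit 9) (.e (nat_lit 426323) (nat_lit 13) (.e (nat_lit 483364) (nat_lit 18) (.e (nat_lit 57685) (nat_lit 156) .nil)))) (.g (nat_lit 0) (.e (nat_lit 407601) (nat_lit 0) .nil) .nil))) 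
(.lf (nat_lit 595506) (.g (nat_lit 2457) (.e (nat_lit 516174) (nat_lit 14) (.e (nat_lit 466954) (nat_lit 11) (.e (nat_lit 335994) (nat_lit 1) (.e (nat_lit 57692) (nat_lit 156) (.e (nat_lit 163939) (nat_lit 18) (.e (nat_lit 475177) (nat_lit 24) .nil)))))) (.g (nat_lit 1) (.e (nat_lit 408446) (nat_lit 0) .nil) .nil)))) (.nd (nat_lit 9) 
(.lf (nat_lit 595250) (.g (nat_lit 2519) (.e (nat_lit 516160) (nat_lit 10) (.e (nat_lit 434246) (nat_lit 28) (.e (nat_lit 573487) (nat_lit 14) (.e (nat_lit 73747) (nat_lit 3) (.e (nat_lit 516195) (nat_lit 26) (.e (nat_lit 336291) (nat_lit 15) (.e (nat_lit 7936) (nat_lit 195) .nil))))))) (.g (nat_lit 1) (.e (nat_lit 408032) (nat_lit 0) .nil) .nil))) 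
(.lf (nat_lit 595762) (.g (nat_lit 1553) (.e (nat_lit 516195) (nat_lit 26) (.e (nat_lit 335988) (nat_lit 1) (.e (nat_lit 57930) (nat_lit 282) (.e (nat_lit 163941) (nat_lit 19) .nil)))) (.g (nat_lit 0) (.e (nat_lit 408874) (nat_lit 0) .nil) .nil))))) (.nd (nat_lit 8) (.nd (nat_lit 9) 
(.lf (nat_lit 595122) (.g (nat_lit 934) (.e (nat_lit 516158) (nat_lit 9) (.e (nat_lit 426107) (nat_lit 1) (.e (nat_lit 164347) (nat_lit 240) .nil))) (.g (nat_lit 0) (.e (nat_lit 407753) (nat_lit 0) .nil) .nil))) 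
(.lf (nat_lit 595634) (.g (nat_lit 3287) (.e (nat_lit 516181) (nat_lit 15) (.e (nat_lit 475177) (nat_lit 24) (.e (nat_lit 516146) (nat_lit 9) (.e (nat_lit 426438) (nat_lit 18) (.e (nat_lit 98384) (nat_lit 32) (.e (nat_lit 475177) (nat_lit 24) .nil)))))) (.g (nat_lit 1) (.e (nat_lit 408623) (nat_lit 0) .nil) .nil)))) (.nd (nat_lit 9) 
(.lf (nat_lit 595378) (.g (nat_lit 1629) (.e (nat_lit 516163) (nat_lit 11) (.e (nat_lit 442430) (nat_lit 24) (.e (nat_lit 229552) (nat_lit 154) (.e (nat_lit 57388) (nat_lit 5) (.e (nat_lit 122624) (nat_lit 17) .nil))))) (.g (nat_lit 0) (.e (nat_lit 408286) (nat_lit 0) .nil) .nil))) 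
(.lf (nat_lit 595890) (.g (nat_lit 2575) (.e (nat_lit 548907) (nat_lit 16) (.e (nat_lit 24657) (nat_lit 13) (.e (nat_lit 393253) (nat_lit 18) (.e (nat_lit 164179) (nat_lit 154) (.e (nat_lit 57421) (nat_lit 13) .nil))))) (.g (nat_lit 0) (.e (nat_lit 409894) (nat_lit 0) .nil) .nil)))))) (.nd (nat_lit 7) (.nd (nat_lit 8) (.nd (nat_lit 9) 
(.lf (nat_lit 595058) (.g (nat_lit 4578) (.e (nat_lit 516151) (nat_lit 9) (.e (nat_lit 426285) (nat_lit 10) (.e (nat_lit 434243) (nat_lit 28) (.e (nat_lit 573471) (nat_lit 11) (.e (nat_lit 16425) (nat_lit 7) (.e (nat_lit 409617) (nat_lit 10) (.e (nat_lit 7936) (nat_lit 43) .nil))))))) (.g (nat_lit 1) (.e (nat_lit 407675) (nat_lit 0) .nil) .nil))) 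
(.lf (nat_lit 595570) (.g (nat_lit 348) (.e (nat_lit 516179) (nat_lit 15) (.e (nat_lit 475169) (nat_lit 22) (.e (nat_lit 499926) (nat_lit 10) .nil))) (.g (nat_lit 0) (.e (nat_lit 408528) (nat_lit 0) .nil) .nil)))) (.nd (nat_lit 9) 
(.lf (nat_lit 595314) (.g (nat_lit 3354) (.e (nat_lit 516160) (nat_lit 10) (.e (nat_lit 434248) (nat_lit 28) (.e (nat_lit 573482) (nat_lit 13) (.e (nat_lit 65568) (nat_lit 2) (.e (nat_lit 90157) (nat_lit 11) (.e (nat_lit 24670) (nat_lit 15) (.e (nat_lit 7936) (nat_lit 195) .nil))))))) (.g (nat_lit 1) (.e (nat_lit 408132) (nat_lit 0) .nil) .nil))) 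
(.lf (nat_lit 595826) (.g (nat_lit 2642) (.e (nat_lit 524319) (nat_lit 11) (.e (nat_lit 442427) (nat_lit 23) (.e (nat_lit 204863) (nat_lit 27) (.e (nat_lit 344160) (nat_lit 37) (.e (nat_lit 647195) (nat_lit 9) (.e (nat_lit 42) (nat_lit 0) (.e (nat_lit 3216) (nat_lit 196) .nil))))))) (.g (nat_lit 1) (.e (nat_lit 409239) (nat_lit 0) .nil) .nil))))) (.nd (nat_lit 8) (.nd (nat_lit 9) 
(.lf (nat_lit 595186) (.g (nat_lit 3007) (.e (nat_lit 516160) (nat_lit 10) (.e (nat_lit 434244) (nat_lit 28) (.e (nat_lit 573481) (nat_lit 13) (.e (nat_lit 65570) (nat_lit 3) (.e (nat_lit 98317) (nat_lit 9) (.e (nat_lit 336293) (nat_lit 15) (.e (nat_lit 7936) (nat_lit 195) .nil))))))) (.g (nat_lit 1) (.e (nat_lit 407953) (nat_lit 0) .nil) .nil))) 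
(.lf (nat_lit 595698) (.g (nat_lit 1145) (.e (nat_lit 516182) (nat_lit 15) (.e (nat_lit 475199) (nat_lit 40) (.e (nat_lit 704589) (nat_lit 3) (.e (nat_lit 163979) (nat_lit 30) .nil)))) (.g (nat_lit 0) (.e (nat_lit 408743) (nat_lit 0) .nil) .nil)))) (.nd (nat_lit 9) 
(.lf (nat_lit 595442) (.g (nat_lit 3282) (.e (nat_lit 516166) (nat_lit 12) (.e (nat_lit 450588) (nat_lit 10) (.e (nat_lit 573452) (nat_lit 9) (.e (nat_lit 365) (nat_lit 31) (.e (nat_lit 417796) (nat_lit 0) (.e (nat_lit 5395) (nat_lit 301) (.e (nat_lit 57464) (nat_lit 23) .nil))))))) (.g (nat_lit 1) (.e (nat_lit 408357) (nat_lit 0) .nil) .nil))) 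
(.lf (nat_lit 595954) (.g (nat_lit 3100) (.e (nat_lit 548913) (nat_lit 18) (.e (nat_lit 172124) (nat_lit 14) (.e (nat_lit 491540) (nat_lit 3) (.e (nat_lit 98358) (nat_lit 26) (.e (nat_lit 426294) (nat_lit 11) (.e (nat_lit 458792) (nat_lit 25) .nil)))))) (.g (nat_lit 1) (.e (nat_lit 410300) (nat_lit 0) .nil) .nil))))))))) 
(.nd (nat_lit 4) (.nd (nat_lit 5) (.nd (nat_lit 6) (.nd (nat_lit 7) (.nd (nat_lit 8) 
(.nd (nat_lit 9) 
(.lf (nat_lit 594954) (.g (nat_lit 3308) (.e (nat_lit 516148) (nat_lit 9) (.e (nat_lit 426436) (nat_lit 18) (.e (nat_lit 98384) (nat_lit 32) (.e (nat_lit 475177) (nat_lit 24) (.e (nat_lit 516179) (nat_lit 15) (.e (nat_lit 475177) (nat_lit 24) .nil)))))) (.g (nat_lit 1) (.e (nat_lit 407536) (nat_lit 0) .nil) .nil))) 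
(.lf (nat_lit 595466) (.g (nat_lit 2241) (.e (nat_lit 516166) (nat_lit 12) (.e (nat_lit 458496) (nat_lit 10) (.e (nat_lit 573450) (nat_lit 9) (.e (nat_lit 375) (nat_lit 32) (.e (nat_lit 426173) (nat_lit 7) (.e (nat_lit 409617) (nat_lit 10) (.e (nat_lit 7936) (nat_lit 43) .nil))))))) (.g (nat_lit 1) (.e (nat_lit 408381) (nat_lit 0) .nil) .nil)))) (.nd (nat_lit 9) 
(.lf (nat_lit 595210) (.g (nat_lit 2411) (.e (nat_lit 516160) (nat_lit 10) (.e (nat_lit 434245) (nat_lit 28) (.e (nat_lit 573481) (nat_lit 13) (.e (nat_lit 65568) (nat_lit 2) (.e (nat_lit 90157) (nat_lit 11) (.e (nat_lit 24670) (nat_lit 15) (.e (nat_lit 7936) (nat_lit 195) .nil))))))) (.g (nat_lit 1) (.e (nat_lit 407984) (nat_lit 0) .nil) .nil))) 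
(.lf (nat_lit 595722) (.g (nat_lit 3984) (.e (nat_lit 516185) (nat_lit 16) (.e (nat_lit 491556) (nat_lit 9) (.e (nat_lit 336300) (nat_lit 15) (.e (nat_lit 3305) (nat_lit 202) (.e (nat_lit 573485) (nat_lit 13) (.e (nat_lit 65619) (nat_lit 10) (.e (nat_lit 344117) (nat_lit 21) .nil))))))) (.g (nat_lit 1) (.e (nat_lit 408778) (nat_lit 0) .nil) .nil))))) (.nd (nat_lit 8) (.nd (nat_lit 9) 
(.lf (nat_lit 595082) (.g (nat_lit 3142) (.e (nat_lit 516151) (nat_lit 9) (.e (nat_lit 426286) (nat_lit 10) (.e (nat_lit 434245) (nat_lit 28) (.e (nat_lit 573470) (nat_lit 11) (.e (nat_lit 16387) (nat_lit 0) (.e (nat_lit 7583) (nat_lit 405) (.e (nat_lit 57464) (nat_lit 23) .nil))))))) (.g (nat_lit 1) (.e (nat_lit 407700) (nat_lit 0) .nil) .nil))) 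
(.lf (nat_lit 595594) (.g (nat_lit 1733) (.e (nat_lit 516179) (nat_lit 15) (.e (nat_lit 475179) (nat_lit 24) (.e (nat_lit 516150) (nat_lit 9) (.e (nat_lit 426434) (nat_lit 18) .nil)))) (.g (nat_lit 0) (.e (nat_lit 408557) (nat_lit 0) .nil) .nil)))) (.nd (nat_lit 9) 
(.lf (nat_lit 595338) (.g (nat_lit 4555) (.e (nat_lit 516160) (nat_lit 10) (.e (nat_lit 434248) (nat_lit 28) (.e (nat_lit 573487) (nat_lit 14) (.e (nat_lit 73747) (nat_lit 3) (.e (nat_lit 516195) (nat_lit 26) (.e (nat_lit 336288) (nat_lit 15) (.e (nat_lit 7936) (nat_lit 195) .nil))))))) (.g (nat_lit 1) (.e (nat_lit 408162) (nat_lit 0) .nil) .nil))) 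
(.lf (nat_lit 595850) (.g (nat_lit 2479) (.e (nat_lit 524322) (nat_lit 12) (.e (nat_lit 450587) (nat_lit 10) (.e (nat_lit 573477) (nat_lit 12) (.e (nat_lit 57575) (nat_lit 55) (.e (nat_lit 778465) (nat_lit 11) .nil))))) (.g (nat_lit 0) (.e (nat_lit 409278) (nat_lit 0) .nil) .nil)))))) (.nd (nat_lit 7) (.nd (nat_lit 8) (.nd (nat_lit 9) 
(.lf (nat_lit 595018) (.g (nat_lit 4417) (.e (nat_lit 516151) (nat_lit 9) (.e (nat_lit 426043) (nat_lit 0) (.e (nat_lit 3406) (nat_lit 212) (.e (nat_lit 655375) (nat_lit 3) (.e (nat_lit 163977) (nat_lit 30) (.e (nat_lit 573482) (nat_lit 13) (.e (nat_lit 65619) (nat_lit 10) (.e (nat_lit 344117) (nat_lit 21) .nil)))))))) (.g (nat_lit 1) (.e (nat_lit 407628) (nat_lit 0) .nil) .nil))) 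
(.lf (nat_lit 595530) (.g (nat_lit 2594) (.e (nat_lit 516176) (nat_lit 14) (.e (nat_lit 466954) (nat_lit 11) (.e (nat_lit 335986) (nat_lit 1) (.e (nat_lit 57666) (nat_lit 152) (.e (nat_lit 2515) (nat_lit 157) .nil))))) (.g (nat_lit 0) (.e (nat_lit 408476) (nat_lit 0) .nil) .nil)))) (.nd (nat_lit 9) 
(.lf (nat_lit 595274) (.g (nat_lit 1167) (.e (nat_lit 516160) (nat_lit 10) (.e (nat_lit 434247) (nat_lit 28) (.e (nat_lit 573485) (nat_lit 13) (.e (nat_lit 65558) (nat_lit 0) .nil)))) (.g (nat_lit 0) (.e (nat_lit 408067) (nat_lit 0) .nil) .nil))) 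
(.lf (nat_lit 595786) (.g (nat_lit 1404) (.e (nat_lit 516198) (nat_lit 26) (.e (nat_lit 335996) (nat_lit 1) (.e (nat_lit 57931) (nat_lit 282) (.e (nat_lit 163943) (nat_lit 19) .nil)))) (.g (nat_lit 0) (.e (nat_lit 408982) (nat_lit 0) .nil) .nil))))) (.nd (nat_lit 8) (.nd (nat_lit 9) 
(.lf (nat_lit 595146) (.g (nat_lit 1874) (.e (nat_lit 516159) (nat_lit 10) (.e (nat_lit 434244) (nat_lit 28) (.e (nat_lit 573487) (nat_lit 14) (.e (nat_lit 81664) (nat_lit 5) .nil)))) (.g (nat_lit 0) (.e (nat_lit 407823) (nat_lit 0) .nil) .nil))) 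
(.lf (nat_lit 595658) (.g (nat_lit 2558) (.e (nat_lit 516182) (nat_lit 15) (.e (nat_lit 475177) (nat_lit 24) (.e (nat_lit 516147) (nat_lit 9) (.e (nat_lit 426436) (nat_lit 18) (.e (nat_lit 98386) (nat_lit 32) (.e (nat_lit 475179) (nat_lit 24) .nil)))))) (.g (nat_lit 1) (.e (nat_lit 408667) (nat_lit 0) .nil) .nil)))) (.nd (nat_lit 9) 
(.lf (nat_lit 595402) (.g (nat_lit 1312) (.e (nat_lit 516166) (nat_lit 12) (.e (nat_lit 450587) (nat_lit 10) (.e (nat_lit 573456) (nat_lit 9) (.e (nat_lit 430) (nat_lit 32) (.e (nat_lit 426166) (nat_lit 7) (.e (nat_lit 409616) (nat_lit 10) (.e (nat_lit 7936) (nat_lit 43) .nil))))))) (.g (nat_lit 1) (.e (nat_lit 408317) (nat_lit 0) .nil) .nil))) 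
(.lf (nat_lit 595914) (.g (nat_lit 2399) (.e (nat_lit 548912) (nat_lit 18) (.e (nat_lit 172120) (nat_lit 12) (.e (nat_lit 475185) (nat_lit 29) (.e (nat_lit 557109) (nat_lit 15) .nil)))) (.g (nat_lit 0) (.e (nat_lit 409952) (nat_lit 0) .nil) .nil))))))) (.nd (nat_lit 6) (.nd (nat_lit 7) (.nd (nat_lit 8) (.nd (nat_lit 9) 
(.lf (nat_lit 594986) (.g (nat_lit 418) (.e (nat_lit 516150) (nat_lit 9) (.e (nat_lit 426323) (nat_lit 13) (.e (nat_lit 483362) (nat_lit 18) .nil))) (.g (nat_lit 0) (.e (nat_lit 407589) (nat_lit 0) .nil) .nil))) 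
(.lf (nat_lit 595498) (.g (nat_lit 1439) (.e (nat_lit 516174) (nat_lit 14) (.e (nat_lit 466954) (nat_lit 11) (.e (nat_lit 335988) (nat_lit 1) (.e (nat_lit 57689) (nat_lit 156) .nil)))) (.g (nat_lit 0) (.e (nat_lit 408438) (nat_lit 0) .nil) .nil)))) (.nd (nat_lit 9) 
(.lf (nat_lit 595242) (.g (nat_lit 1240) (.e (nat_lit 516160) (nat_lit 10) (.e (nat_lit 434246) (nat_lit 28) (.e (nat_lit 573484) (nat_lit 13) (.e (nat_lit 65568) (nat_lit 2) .nil)))) (.g (nat_lit 0) (.e (nat_lit 408024) (nat_lit 0) .nil) .nil))) 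
(.lf (nat_lit 595754) (.g (nat_lit 2704) (.e (nat_lit 516195) (nat_lit 26) (.e (nat_lit 335988) (nat_lit 1) (.e (nat_lit 57926) (nat_lit 282) (.e (nat_lit 163941) (nat_lit 19) (.e (nat_lit 483394) (nat_lit 24) (.e (nat_lit 344117) (nat_lit 21) .nil)))))) (.g (nat_lit 1) (.e (nat_lit 408856) (nat_lit 0) .nil) .nil))))) (.nd (nat_lit 8) (.nd (nat_lit 9) 
(.lf (nat_lit 595114) (.g (nat_lit 1495) (.e (nat_lit 516151) (nat_lit 9) (.e (nat_lit 426338) (nat_lit 14) (.e (nat_lit 491577) (nat_lit 15) (.e (nat_lit 3255) (nat_lit 197) (.e (nat_lit 532515) (nat_lit 3) (.e (nat_lit 114723) (nat_lit 24) (.e (nat_lit 106531) (nat_lit 10) (.e (nat_lit 16128) (nat_lit 13) .nil)))))))) (.g (nat_lit 1) (.e (nat_lit 407732) (nat_lit 0) .nil) .nil))) 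
(.lf (nat_lit 595626) (.g (nat_lit 2303) (.e (nat_lit 516180) (nat_lit 15) (.e (nat_lit 475179) (nat_lit 24) (.e (nat_lit 516146) (nat_lit 9) (.e (nat_lit 426438) (nat_lit 18) .nil)))) (.g (nat_lit 0) (.e (nat_lit 408611) (nat_lit 0) .nil) .nil)))) (.nd (nat_lit 9) 
(.lf (nat_lit 595370) (.g (nat_lit 2857) (.e (nat_lit 516163) (nat_lit 11) (.e (nat_lit 442410) (nat_lit 20) (.e (nat_lit 3297) (nat_lit 202) (.e (nat_lit 573450) (nat_lit 9) (.e (nat_lit 375) (nat_lit 32) (.e (nat_lit 426173) (nat_lit 7) (.e (nat_lit 409616) (nat_lit 10) (.e (nat_lit 7936) (nat_lit 43) .nil)))))))) (.g (nat_lit 1) (.e (nat_lit 408278) (nat_lit 0) .nil) .nil))) 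
(.lf (nat_lit 595882) (.g (nat_lit 1697) (.e (nat_lit 548898) (nat_lit 14) (.e (nat_lit 2884) (nat_lit 184) (.e (nat_lit 426339) (nat_lit 14) (.e (nat_lit 491537) (nat_lit 2) (.e (nat_lit 90178) (nat_lit 15) .nil))))) (.g (nat_lit 0) (.e (nat_lit 409584) (nat_lit 0) .nil) .nil)))))) (.nd (nat_lit 7) (.nd (nat_lit 8) (.nd (nat_lit 9) 
(.lf (nat_lit 595050) (.g (nat_lit 5069) (.e (nat_lit 516151) (nat_lit 9) (.e (nat_lit 426211) (nat_lit 9) (.e (nat_lit 426125) (nat_lit 2) (.e (nat_lit 196666) (nat_lit 13) (.e (nat_lit 65574) (nat_lit 4) .nil))))) (.g (nat_lit 0) (.e (nat_lit 407667) (nat_lit 0) .nil) .nil))) 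
(.lf (nat_lit 595562) (.g (nat_lit 1328) (.e (nat_lit 516178) (nat_lit 15) (.e (nat_lit 475179) (nat_lit 24) (.e (nat_lit 516150) (nat_lit 9) (.e (nat_lit 426436) (nat_lit 18) .nil)))) (.g (nat_lit 0) (.e (nat_lit 408517) (nat_lit 0) .nil) .nil)))) (.nd (nat_lit 9) 
(.lf (nat_lit 595306) (.g (nat_lit 2777) (.e (nat_lit 516160) (nat_lit 10) (.e (nat_lit 434248) (nat_lit 28) (.e (nat_lit 573482) (nat_lit 13) (.e (nat_lit 65566) (nat_lit 2) (.e (nat_lit 90158) (nat_lit 11) (.e (nat_lit 24671) (nat_lit 15) (.e (nat_lit 7936) (nat_lit 195) .nil))))))) (.g (nat_lit 1) (.e (nat_lit 408119) (nat_lit 0) .nil) .nil))) 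
(.lf (nat_lit 595818) (.g (nat_lit 1090) (.e (nat_lit 524319) (nat_lit 11) (.e (nat_lit 442404) (nat_lit 20) (.e (nat_lit 3238) (nat_lit 197) (.e (nat_lit 532523) (nat_lit 7) .nil)))) (.g (nat_lit 0) (.e (nat_lit 409225) (nat_lit 0) .nil) .nil))))) (.nd (nat_lit 8) (.nd (nat_lit 9) 
(.lf (nat_lit 595178) (.g (nat_lit 3385) (.e (nat_lit 516160) (nat_lit 10) (.e (nat_lit 434244) (nat_lit 28) (.e (nat_lit 573481) (nat_lit 13) (.e (nat_lit 65567) (nat_lit 2) (.e (nat_lit 90160) (nat_lit 11) (.e (nat_lit 24671) (nat_lit 15) (.e (nat_lit 7936) (nat_lit 195) .nil))))))) (.g (nat_lit 1) (.e (nat_lit 407944) (nat_lit 0) .nil) .nil))) 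
(.lf (nat_lit 595690) (.g (nat_lit 1125) (.e (nat_lit 516182) (nat_lit 15) (.e (nat_lit 475199) (nat_lit 40) (.e (nat_lit 704589) (nat_lit 3) (.e (nat_lit 163976) (nat_lit 30) .nil)))) (.g (nat_lit 0) (.e (nat_lit 408728) (nat_lit 0) .nil) .nil)))) (.nd (nat_lit 9) 
(.lf (nat_lit 595434) (.g (nat_lit 5115) (.e (nat_lit 516166) (nat_lit 12) (.e (nat_lit 450588) (nat_lit 10) (.e (nat_lit 573450) (nat_lit 9) (.e (nat_lit 375) (nat_lit 32) (.e (nat_lit 426173) (nat_lit 7) (.e (nat_lit 409616) (nat_lit 10) (.e (nat_lit 7936) (nat_lit 43) .nil))))))) (.g (nat_lit 1) (.e (nat_lit 408349) (nat_lit 0) .nil) .nil))) 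
(.lf (nat_lit 595946) (.g (nat_lit 2414) (.e (nat_lit 548913) (nat_lit 18) (.e (nat_lit 172124) (nat_lit 14) (.e (nat_lit 491537) (nat_lit 2) (.e (nat_lit 90175) (nat_lit 15) .nil)))) (.g (nat_lit 0) (.e (nat_lit 410291) (nat_lit 0) .nil) .nil)))))))) (.nd (nat_lit 5) (.nd (nat_lit 6) (.nd (nat_lit 7) (.nd (nat_lit 8) (.nd (nat_lit 9) 
(.lf (nat_lit 594970) (.g (nat_lit 1726) (.e (nat_lit 516149) (nat_lit 9) (.e (nat_lit 426323) (nat_lit 13) (.e (nat_lit 483363) (nat_lit 18) (.e (nat_lit 57689) (nat_lit 156) .nil)))) (.g (nat_lit 0) (.e (nat_lit 407562) (nat_lit 0) .nil) .nil))) 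
(.lf (nat_lit 595482) (.g (nat_lit 2299) (.e (nat_lit 516174) (nat_lit 14) (.e (nat_lit 466954) (nat_lit 11) (.e (nat_lit 335986) (nat_lit 1) (.e (nat_lit 57685) (nat_lit 156) (.e (nat_lit 163936) (nat_lit 18) .nil))))) (.g (nat_lit 0) (.e (nat_lit 408421) (nat_lit 0) .nil) .nil)))) (.nd (nat_lit 9) 
(.lf (nat_lit 595226) (.g (nat_lit 2563) (.e (nat_lit 516160) (nat_lit 10) (.e (nat_lit 434245) (nat_lit 28) (.e (nat_lit 573488) (nat_lit 14) (.e (nat_lit 73747) (nat_lit 3) (.e (nat_lit 516195) (nat_lit 26) (.e (nat_lit 336275) (nat_lit 15) (.e (nat_lit 7936) (nat_lit 195) .nil))))))) (.g (nat_lit 1) (.e (nat_lit 408001) (nat_lit 0) .nil) .nil))) 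
(.lf (nat_lit 595738) (.g (nat_lit 1600) (.e (nat_lit 516194) (nat_lit 26) (.e (nat_lit 335995) (nat_lit 1) (.e (nat_lit 57931) (nat_lit 282) (.e (nat_lit 163943) (nat_lit 19) .nil)))) (.g (nat_lit 0) (.e (nat_lit 408828) (nat_lit 0) .nil) .nil))))) (.nd (nat_lit 8) (.nd (nat_lit 9) 
(.lf (nat_lit 595098) (.g (nat_lit 3578) (.e (nat_lit 516151) (nat_lit 9) (.e (nat_lit 426286) (nat_lit 10) (.e (nat_lit 434248) (nat_lit 28) (.e (nat_lit 573452) (nat_lit 9) (.e (nat_lit 430) (nat_lit 32) (.e (nat_lit 426009) (nat_lit 0) (.e (nat_lit 7583) (nat_lit 405) (.e (nat_lit 57464) (nat_lit 23) .nil)))))))) (.g (nat_lit 1) (.e (nat_lit 407716) (nat_lit 0) .nil) .nil))) 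
(.lf (nat_lit 595610) (.g (nat_lit 4084) (.e (nat_lit 516179) (nat_lit 15) (.e (nat_lit 475199) (nat_lit 40) (.e (nat_lit 704589) (nat_lit 3) (.e (nat_lit 163978) (nat_lit 30) (.e (nat_lit 573491) (nat_lit 15) (.e (nat_lit 89856) (nat_lit 20) (.e (nat_lit 1784) (nat_lit 119) .nil))))))) (.g (nat_lit 1) (.e (nat_lit 408578) (nat_lit 0) .nil) .nil)))) (.nd (nat_lit 9) 
(.lf (nat_lit 595354) (.g (nat_lit 3055) (.e (nat_lit 516160) (nat_lit 10) (.e (nat_lit 434248) (nat_lit 28) (.e (nat_lit 573489) (nat_lit 14) (.e (nat_lit 73755) (nat_lit 8) (.e (nat_lit 557091) (nat_lit 12) (.e (nat_lit 164003) (nat_lit 40) (.e (nat_lit 655375) (nat_lit 3) (.e (nat_lit 171776) (nat_lit 23) .nil)))))))) (.g (nat_lit 1) (.e (nat_lit 408195) (nat_lit 0) .nil) .nil))) 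
(.lf (nat_lit 595866) (.g (nat_lit 3315) (.e (nat_lit 524322) (nat_lit 12) (.e (nat_lit 450588) (nat_lit 10) (.e (nat_lit 573474) (nat_lit 12) (.e (nat_lit 57574) (nat_lit 55) (.e (nat_lit 778466) (nat_lit 11) .nil))))) (.g (nat_lit 0) (.e (nat_lit 409294) (nat_lit 0) .nil) .nil)))))) (.nd (nat_lit 7) (.nd (nat_lit 8) (.nd (nat_lit 9) 
(.lf (nat_lit 595034) (.g (nat_lit 5052) (.e (nat_lit 516151) (nat_lit 9) (.e (nat_lit 426043) (nat_lit 0) (.e (nat_lit 3409) (nat_lit 212) (.e (nat_lit 655375) (nat_lit 3) (.e (nat_lit 163978) (nat_lit 30) (.e (nat_lit 573485) (nat_lit 13) (.e (nat_lit 65619) (nat_lit 10) (.e (nat_lit 344117) (nat_lit 21) .nil)))))))) (.g (nat_lit 1) (.e (nat_lit 407645) (nat_lit 0) .nil) .nil))) 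
(.lf (nat_lit 595546) (.g (nat_lit 804) (.e (nat_lit 516176) (nat_lit 14) (.e (nat_lit 466954) (nat_lit 11) (.e (nat_lit 335993) (nat_lit 1) .nil))) (.g (nat_lit 0) (.e (nat_lit 408495) (nat_lit 0) .nil) .nil)))) (.nd (nat_lit 9) 
(.lf (nat_lit 595290) (.g (nat_lit 2146) (.e (nat_lit 516160) (nat_lit 10) (.e (nat_lit 434247) (nat_lit 28) (.e (nat_lit 573489) (nat_lit 14) (.e (nat_lit 73755) (nat_lit 8) (.e (nat_lit 564992) (nat_lit 4) (.e (nat_lit 65637) (nat_lit 15) (.e (nat_lit 7936) (nat_lit 195) .nil))))))) (.g (nat_lit 1) (.e (nat_lit 408090) (nat_lit 0) .nil) .nil))) 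
(.lf (nat_lit 595802) (.g (nat_lit 2875) (.e (nat_lit 516199) (nat_lit 26) (.e (nat_lit 343808) (nat_lit 18) (.e (nat_lit 204863) (nat_lit 27) (.e (nat_lit 344133) (nat_lit 26) (.e (nat_lit 557103) (nat_lit 14) (.e (nat_lit 188160) (nat_lit 3) .nil)))))) (.g (nat_lit 1) (.e (nat_lit 409020) (nat_lit 0) .nil) .nil))))) (.nd (nat_lit 8) (.nd (nat_lit 9) 
(.lf (nat_lit 595162) (.g (nat_lit 2829) (.e (nat_lit 516159) (nat_lit 10) (.e (nat_lit 434248) (nat_lit 28) (.e (nat_lit 573489) (nat_lit 14) (.e (nat_lit 73755) (nat_lit 8) (.e (nat_lit 557090) (nat_lit 12) .nil))))) (.g (nat_lit 0) (.e (nat_lit 407909) (nat_lit 0) .nil) .nil))) 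
(.lf (nat_lit 595674) (.g (nat_lit 467) (.e (nat_lit 516182) (nat_lit 15) (.e (nat_lit 475198) (nat_lit 40) (.e (nat_lit 704589) (nat_lit 3) .nil))) (.g (nat_lit 0) (.e (nat_lit 408687) (nat_lit 0) .nil) .nil)))) (.nd (nat_lit 9) 
(.lf (nat_lit 595418) (.g (nat_lit 4932) (.e (nat_lit 516166) (nat_lit 12) (.e (nat_lit 450587) (nat_lit 10) (.e (nat_lit 573477) (nat_lit 12) (.e (nat_lit 57574) (nat_lit 55) (.e (nat_lit 778455) (nat_lit 10) (.e (nat_lit 8543) (nat_lit 229) (.e (nat_lit 229497) (nat_lit 84) .nil))))))) (.g (nat_lit 1) (.e (nat_lit 408333) (nat_lit 0) .nil) .nil))) 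
(.lf (nat_lit 595930) (.g (nat_lit 2899) (.e (nat_lit 548913) (nat_lit 18) (.e (nat_lit 172119) (nat_lit 12) (.e (nat_lit 475185) (nat_lit 29) (.e (nat_lit 557107) (nat_lit 15) (.e (nat_lit 188441) (nat_lit 20) (.e (nat_lit 3271) (nat_lit 199) .nil)))))) (.g (nat_lit 1) (.e (nat_lit 410273) (nat_lit 0) .nil) .nil))))))) (.nd (nat_lit 6) (.nd (nat_lit 7) (.nd (nat_lit 8) (.nd (nat_lit 9) 
(.lf (nat_lit 595002) (.g (nat_lit 1829) (.e (nat_lit 516150) (nat_lit 9) (.e (nat_lit 426438) (nat_lit 18) (.e (nat_lit 98358) (nat_lit 26) (.e (nat_lit 426354) (nat_lit 15) .nil)))) (.g (nat_lit 0) (.e (nat_lit 407612) (nat_lit 0) .nil) .nil))) 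
(.lf (nat_lit 595514) (.g (nat_lit 2014) (.e (nat_lit 516174) (nat_lit 14) (.e (nat_lit 466954) (nat_lit 11) (.e (nat_lit 335996) (nat_lit 1) (.e (nat_lit 57690) (nat_lit 156) (.e (nat_lit 163939) (nat_lit 18) .nil))))) (.g (nat_lit 0) (.e (nat_lit 408455) (nat_lit 0) .nil) .nil)))) (.nd (nat_lit 9) 
(.lf (nat_lit 595258) (.g (nat_lit 2451) (.e (nat_lit 516160) (nat_lit 10) (.e (nat_lit 434247) (nat_lit 28) (.e (nat_lit 573484) (nat_lit 13) (.e (nat_lit 65550) (nat_lit 0) (.e (nat_lit 1788) (nat_lit 119) .nil))))) (.g (nat_lit 0) (.e (nat_lit 408044) (nat_lit 0) .nil) .nil))) 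
(.lf (nat_lit 595770) (.g (nat_lit 485) (.e (nat_lit 516195) (nat_lit 26) (.e (nat_lit 335996) (nat_lit 1) (.e (nat_lit 57929) (nat_lit 282) .nil))) (.g (nat_lit 0) (.e (nat_lit 408898) (nat_lit 0) .nil) .nil))))) (.nd (nat_lit 8) (.nd (nat_lit 9) 
(.lf (nat_lit 595130) (.g (nat_lit 1373) (.e (nat_lit 516158) (nat_lit 9) (.e (nat_lit 426200) (nat_lit 9) (.e (nat_lit 426436) (nat_lit 18) (.e (nat_lit 98342) (nat_lit 20) .nil)))) (.g (nat_lit 0) (.e (nat_lit 407762) (nat_lit 0) .nil) .nil))) 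
(.lf (nat_lit 595642) (.g (nat_lit 2596) (.e (nat_lit 516181) (nat_lit 15) (.e (nat_lit 475179) (nat_lit 24) (.e (nat_lit 516145) (nat_lit 9) (.e (nat_lit 426438) (nat_lit 18) (.e (nat_lit 98384) (nat_lit 32) (.e (nat_lit 475177) (nat_lit 24) .nil)))))) (.g (nat_lit 1) (.e (nat_lit 408635) (nat_lit 0) .nil) .nil)))) (.nd (nat_lit 9) 
(.lf (nat_lit 595386) (.g (nat_lit 3865) (.e (nat_lit 516165) (nat_lit 12) (.e (nat_lit 450586) (nat_lit 10) (.e (nat_lit 573473) (nat_lit 12) (.e (nat_lit 57347) (nat_lit 0) (.e (nat_lit 7266) (nat_lit 384) (.e (nat_lit 57431) (nat_lit 16) (.e (nat_lit 368676) (nat_lit 21) .nil))))))) (.g (nat_lit 1) (.e (nat_lit 408299) (nat_lit 0) .nil) .nil))) 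
(.lf (nat_lit 595898) (.g (nat_lit 2801) (.e (nat_lit 548911) (nat_lit 18) (.e (nat_lit 172120) (nat_lit 12) (.e (nat_lit 475185) (nat_lit 29) (.e (nat_lit 557109) (nat_lit 15) (.e (nat_lit 188434) (nat_lit 20) .nil))))) (.g (nat_lit 0) (.e (nat_lit 409922) (nat_lit 0) .nil) .nil)))))) (.nd (nat_lit 7) (.nd (nat_lit 8) (.nd (nat_lit 9) 
(.lf (nat_lit 595066) (.g (nat_lit 5653) (.e (nat_lit 516151) (nat_lit 9) (.e (nat_lit 426285) (nat_lit 10) (.e (nat_lit 434246) (nat_lit 28) (.e (nat_lit 573471) (nat_lit 11) (.e (nat_lit 16425) (nat_lit 7) (.e (nat_lit 409616) (nat_lit 10) (.e (nat_lit 7936) (nat_lit 43) .nil))))))) (.g (nat_lit 1) (.e (nat_lit 407683) (nat_lit 0) .nil) .nil))) 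
(.lf (nat_lit 595578) (.g (nat_lit 393) (.e (nat_lit 516179) (nat_lit 15) (.e (nat_lit 475177) (nat_lit 24) (.e (nat_lit 516148) (nat_lit 9) .nil))) (.g (nat_lit 0) (.e (nat_lit 408537) (nat_lit 0) .nil) .nil)))) (.nd (nat_lit 9) 
(.lf (nat_lit 595322) (.g (nat_lit 2489) (.e (nat_lit 516160) (nat_lit 10) (.e (nat_lit 434248) (nat_lit 28) (.e (nat_lit 573482) (nat_lit 13) (.e (nat_lit 65569) (nat_lit 3) (.e (nat_lit 98325) (nat_lit 17) .nil))))) (.g (nat_lit 0) (.e (nat_lit 408141) (nat_lit 0) .nil) .nil))) 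
(.lf (nat_lit 595834) (.g (nat_lit 3685) (.e (nat_lit 524320) (nat_lit 12) (.e (nat_lit 450586) (nat_lit 10) (.e (nat_lit 573474) (nat_lit 12) (.e (nat_lit 57574) (nat_lit 55) (.e (nat_lit 778465) (nat_lit 11) .nil))))) (.g (nat_lit 0) (.e (nat_lit 409247) (nat_lit 0) .nil) .nil))))) (.nd (nat_lit 8) (.nd (nat_lit 9) 
(.lf (nat_lit 595194) (.g (nat_lit 2930) (.e (nat_lit 516160) (nat_lit 10) (.e (nat_lit 434244) (nat_lit 28) (.e (nat_lit 573487) (nat_lit 14) (.e (nat_lit 73747) (nat_lit 3) (.e (nat_lit 516195) (nat_lit 26) (.e (nat_lit 336291) (nat_lit 15) (.e (nat_lit 7936) (nat_lit 195) .nil))))))) (.g (nat_lit 1) (.e (nat_lit 407962) (nat_lit 0) .nil) .nil))) 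
(.lf (nat_lit 595706) (.g (nat_lit 3113) (.e (nat_lit 516183) (nat_lit 16) (.e (nat_lit 491566) (nat_lit 12) (.e (nat_lit 385073) (nat_lit 31) (.e (nat_lit 573493) (nat_lit 15) (.e (nat_lit 81941) (nat_lit 20) .nil))))) (.g (nat_lit 0) (.e (nat_lit 408759) (nat_lit 0) .nil) .nil)))) (.nd (nat_lit 9) 
(.lf (nat_lit 595450) (.g (nat_lit 989) (.e (nat_lit 516166) (nat_lit 12) (.e (nat_lit 450588) (nat_lit 10) (.e (nat_lit 573460) (nat_lit 9) .nil))) (.g (nat_lit 0) (.e (nat_lit 408365) (nat_lit 0) .nil) .nil))) 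
(.lf (nat_lit 595962) (.g (nat_lit 3169) (.e (nat_lit 548913) (nat_lit 18) (.e (nat_lit 172125) (nat_lit 14) (.e (nat_lit 491537) (nat_lit 2) (.e (nat_lit 90176) (nat_lit 15) (.e (nat_lit 188434) (nat_lit 20) .nil))))) (.g (nat_lit 0) (.e (nat_lit 410308) (nat_lit 0) .nil) .nil)))))))))) 
(.nd (nat_lit 3) (.nd (nat_lit 4) (.nd (nat_lit 5) (.nd (nat_lit 6) (.nd (nat_lit 7) 
(.nd (nat_lit 8) (.nd (nat_lit 9) 
(.lf (nat_lit 594950) (.g (nat_lit 1940) (.e (nat_lit 516148) (nat_lit 9) (.e (nat_lit 426436) (nat_lit 18) (.e (nat_lit 98354) (nat_lit 26) (.e (nat_lit 426436) (nat_lit 18) (.e (nat_lit 98386) (nat_lit 32) .nil))))) (.g (nat_lit 0) (.e (nat_lit 407532) (nat_lit 0) .nil) .nil))) 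
(.lf (nat_lit 595462) (.g (nat_lit 5426) (.e (nat_lit 516166) (nat_lit 12) (.e (nat_lit 450588) (nat_lit 10) (.e (nat_lit 573475) (nat_lit 12) (.e (nat_lit 57574) (nat_lit 55) (.e (nat_lit 778454) (nat_lit 10) (.e (nat_lit 8543) (nat_lit 229) (.e (nat_lit 229497) (nat_lit 84) .nil))))))) (.g (nat_lit 1) (.e (nat_lit 408377) (nat_lit 0) .nil) .nil)))) (.nd (nat_lit 9) 
(.lf (nat_lit 595206) (.g (nat_lit 2205) (.e (nat_lit 516160) (nat_lit 10) (.e (nat_lit 434244) (nat_lit 28) (.e (nat_lit 573497) (nat_lit 17) (.e (nat_lit 131094) (nat_lit 2) (.e (nat_lit 90160) (nat_lit 11) (.e (nat_lit 24671) (nat_lit 15) (.e (nat_lit 7936) (nat_lit 195) .nil))))))) (.g (nat_lit 1) (.e (nat_lit 407978) (nat_lit 0) .nil) .nil))) 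
(.lf (nat_lit 595718) (.g (nat_lit 4803) (.e (nat_lit 516185) (nat_lit 16) (.e (nat_lit 491547) (nat_lit 9) (.e (nat_lit 336240) (nat_lit 15) (.e (nat_lit 3309) (nat_lit 202) (.e (nat_lit 573484) (nat_lit 13) (.e (nat_lit 65610) (nat_lit 10) (.e (nat_lit 344117) (nat_lit 21) .nil))))))) (.g (nat_lit 1) (.e (nat_lit 408774) (nat_lit 0) .nil) .nil))))) (.nd (nat_lit 8) (.nd (nat_lit 9) 
(.lf (nat_lit 595078) (.g (nat_lit 2481) (.e (nat_lit 516151) (nat_lit 9) (.e (nat_lit 426286) (nat_lit 10) (.e (nat_lit 434245) (nat_lit 28) (.e (nat_lit 573469) (nat_lit 11) (.e (nat_lit 16387) (nat_lit 0) (.e (nat_lit 7583) (nat_lit 405) (.e (nat_lit 57464) (nat_lit 23) .nil))))))) (.g (nat_lit 1) (.e (nat_lit 407696) (nat_lit 0) .nil) .nil))) 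
(.lf (nat_lit 595590) (.g (nat_lit 2471) (.e (nat_lit 516179) (nat_lit 15) (.e (nat_lit 475179) (nat_lit 24) (.e (nat_lit 516145) (nat_lit 9) (.e (nat_lit 426438) (nat_lit 18) (.e (nat_lit 98384) (nat_lit 32) .nil))))) (.g (nat_lit 0) (.e (nat_lit 408553) (nat_lit 0) .nil) .nil)))) (.nd (nat_lit 9) 
(.lf (nat_lit 595334) (.g (nat_lit 3581) (.e (nat_lit 516160) (nat_lit 10) (.e (nat_lit 434248) (nat_lit 28) (.e (nat_lit 573487) (nat_lit 14) (.e (nat_lit 73747) (nat_lit 3) (.e (nat_lit 516195) (nat_lit 26) (.e (nat_lit 336271) (nat_lit 15) (.e (nat_lit 7936) (nat_lit 195) .nil))))))) (.g (nat_lit 1) (.e (nat_lit 408158) (nat_lit 0) .nil) .nil))) 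
(.lf (nat_lit 595846) (.g (nat_lit 1912) (.e (nat_lit 524322) (nat_lit 12) (.e (nat_lit 450587) (nat_lit 10) (.e (nat_lit 573477) (nat_lit 12) (.e (nat_lit 57574) (nat_lit 55) (.e (nat_lit 778464) (nat_lit 11) .nil))))) (.g (nat_lit 0) (.e (nat_lit 409274) (nat_lit 0) .nil) .nil)))))) (.nd (nat_lit 7) (.nd (nat_lit 8) (.nd (nat_lit 9) 
(.lf (nat_lit 595014) (.g (nat_lit 4188) (.e (nat_lit 516151) (nat_lit 9) (.e (nat_lit 426043) (nat_lit 0) (.e (nat_lit 3371) (nat_lit 208) (.e (nat_lit 622620) (nat_lit 13) (.e (nat_lit 2663) (nat_lit 167) (.e (nat_lit 196666) (nat_lit 13) (.e (nat_lit 65610) (nat_lit 10) (.e (nat_lit 344117) (nat_lit 21) .nil)))))))) (.g (nat_lit 1) (.e (nat_lit 407624) (nat_lit 0) .nil) .nil))) 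
(.lf (nat_lit 595526) (.g (nat_lit 1847) (.e (nat_lit 516176) (nat_lit 14) (.e (nat_lit 466954) (nat_lit 11) (.e (nat_lit 335986) (nat_lit 1) (.e (nat_lit 57654) (nat_lit 152) .nil)))) (.g (nat_lit 0) (.e (nat_lit 408471) (nat_lit 0) .nil) .nil)))) (.nd (nat_lit 9) 
(.lf (nat_lit 595270) (.g (nat_lit 2598) (.e (nat_lit 516160) (nat_lit 10) (.e (nat_lit 434247) (nat_lit 28) (.e (nat_lit 573484) (nat_lit 13) (.e (nat_lit 65569) (nat_lit 3) (.e (nat_lit 98325) (nat_lit 17) .nil))))) (.g (nat_lit 0) (.e (nat_lit 408061) (nat_lit 0) .nil) .nil))) 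
(.lf (nat_lit 595782) (.g (nat_lit 796) (.e (nat_lit 516198) (nat_lit 26) (.e (nat_lit 335988) (nat_lit 1) (.e (nat_lit 57926) (nat_lit 282) .nil))) (.g (nat_lit 0) (.e (nat_lit 408973) (nat_lit 0) .nil) .nil))))) (.nd (nat_lit 8) (.nd (nat_lit 9) 
(.lf (nat_lit 595142) (.g (nat_lit 1824) (.e (nat_lit 516159) (nat_lit 10) (.e (nat_lit 434244) (nat_lit 28) (.e (nat_lit 573481) (nat_lit 13) (.e (nat_lit 65568) (nat_lit 2) .nil)))) (.g (nat_lit 0) (.e (nat_lit 407807) (nat_lit 0) .nil) .nil))) 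
(.lf (nat_lit 595654) (.g (nat_lit 1215) (.e (nat_lit 516181) (nat_lit 15) (.e (nat_lit 475199) (nat_lit 40) (.e (nat_lit 704589) (nat_lit 3) (.e (nat_lit 163976) (nat_lit 30) .nil)))) (.g (nat_lit 0) (.e (nat_lit 408657) (nat_lit 0) .nil) .nil)))) (.nd (nat_lit 9) 
(.lf (nat_lit 595398) (.g (nat_lit 5104) (.e (nat_lit 516166) (nat_lit 12) (.e (nat_lit 450587) (nat_lit 10) (.e (nat_lit 573448) (nat_lit 9) (.e (nat_lit 375) (nat_lit 32) (.e (nat_lit 426173) (nat_lit 7) (.e (nat_lit 409616) (nat_lit 10) (.e (nat_lit 7936) (nat_lit 43) .nil))))))) (.g (nat_lit 1) (.e (nat_lit 408313) (nat_lit 0) .nil) .nil))) 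
(.lf (nat_lit 595910) (.g (nat_lit 1090) (.e (nat_lit 548911) (nat_lit 18) (.e (nat_lit 172126) (nat_lit 14) (.e (nat_lit 491540) (nat_lit 3) (.e (nat_lit 98370) (nat_lit 28) .nil)))) (.g (nat_lit 0) (.e (nat_lit 409934) (nat_lit 0) .nil) .nil))))))) (.nd (nat_lit 6) (.nd (nat_lit 7) (.nd (nat_lit 8) (.nd (nat_lit 9) 
(.lf (nat_lit 594982) (.g (nat_lit 1955) (.e (nat_lit 516149) (nat_lit 9) (.e (nat_lit 426436) (nat_lit 18) (.e (nat_lit 98384) (nat_lit 32) (.e (nat_lit 475177) (nat_lit 24) (.e (nat_lit 516181) (nat_lit 15) .nil))))) (.g (nat_lit 0) (.e (nat_lit 407582) (nat_lit 0) .nil) .nil))) 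
(.lf (nat_lit 595494) (.g (nat_lit 570) (.e (nat_lit 516174) (nat_lit 14) (.e (nat_lit 466954) (nat_lit 11) (.e (nat_lit 335987) (nat_lit 1) .nil))) (.g (nat_lit 0) (.e (nat_lit 408434) (nat_lit 0) .nil) .nil)))) (.nd (nat_lit 9) 
(.lf (nat_lit 595238) (.g (nat_lit 1276) (.e (nat_lit 516160) (nat_lit 10) (.e (nat_lit 434246) (nat_lit 28) (.e (nat_lit 573482) (nat_lit 13) (.e (nat_lit 65571) (nat_lit 3) .nil)))) (.g (nat_lit 0) (.e (nat_lit 408020) (nat_lit 0) .nil) .nil))) 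
(.lf (nat_lit 595750) (.g (nat_lit 3290) (.e (nat_lit 516195) (nat_lit 26) (.e (nat_lit 335986) (nat_lit 1) (.e (nat_lit 57927) (nat_lit 282) (.e (nat_lit 163905) (nat_lit 12) (.e (nat_lit 426544) (nat_lit 30) (.e (nat_lit 360467) (nat_lit 3) .nil)))))) (.g (nat_lit 1) (.e (nat_lit 408847) (nat_lit 0) .nil) .nil))))) (.nd (nat_lit 8) (.nd (nat_lit 9) 
(.lf (nat_lit 595110) (.g (nat_lit 2666) (.e (nat_lit 516151) (nat_lit 9) (.e (nat_lit 426290) (nat_lit 10) (.e (nat_lit 434231) (nat_lit 23) (.e (nat_lit 532523) (nat_lit 7) (.e (nat_lit 319500) (nat_lit 10) .nil))))) (.g (nat_lit 0) (.e (nat_lit 407728) (nat_lit 0) .nil) .nil))) 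
(.lf (nat_lit 595622) (.g (nat_lit 2026) (.e (nat_lit 516180) (nat_lit 15) (.e (nat_lit 475177) (nat_lit 24) (.e (nat_lit 516182) (nat_lit 15) (.e (nat_lit 475177) (nat_lit 24) (.e (nat_lit 516182) (nat_lit 15) (.e (nat_lit 475177) (nat_lit 24) .nil)))))) (.g (nat_lit 1) (.e (nat_lit 408607) (nat_lit 0) .nil) .nil)))) (.nd (nat_lit 9) 
(.lf (nat_lit 595366) (.g (nat_lit 3472) (.e (nat_lit 516163) (nat_lit 11) (.e (nat_lit 442404) (nat_lit 20) (.e (nat_lit 3297) (nat_lit 202) (.e (nat_lit 573450) (nat_lit 9) (.e (nat_lit 375) (nat_lit 32) (.e (nat_lit 426173) (nat_lit 7) (.e (nat_lit 409616) (nat_lit 10) (.e (nat_lit 7936) (nat_lit 43) .nil)))))))) (.g (nat_lit 1) (.e (nat_lit 408274) (nat_lit 0) .nil) .nil))) 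
(.lf (nat_lit 595878) (.g (nat_lit 1213) (.e (nat_lit 548896) (nat_lit 14) (.e (nat_lit 2988) (nat_lit 186) (.e (nat_lit 442374) (nat_lit 0) (.e (nat_lit 1856) (nat_lit 124) (.e (nat_lit 557107) (nat_lit 15) .nil))))) (.g (nat_lit 0) (.e (nat_lit 409373) (nat_lit 0) .nil) .nil)))))) (.nd (nat_lit 7) (.nd (nat_lit 8) (.nd (nat_lit 9) 
(.lf (nat_lit 595046) (.g (nat_lit 2676) (.e (nat_lit 516151) (nat_lit 9) (.e (nat_lit 426211) (nat_lit 9) (.e (nat_lit 426125) (nat_lit 2) (.e (nat_lit 196661) (nat_lit 12) (.e (nat_lit 57721) (nat_lit 177) .nil))))) (.g (nat_lit 0) (.e (nat_lit 407663) (nat_lit 0) .nil) .nil))) 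
(.lf (nat_lit 595558) (.g (nat_lit 462) (.e (nat_lit 516178) (nat_lit 15) (.e (nat_lit 475177) (nat_lit 24) (.e (nat_lit 516147) (nat_lit 9) .nil))) (.g (nat_lit 0) (.e (nat_lit 408511) (nat_lit 0) .nil) .nil)))) (.nd (nat_lit 9) 
(.lf (nat_lit 595302) (.g (nat_lit 2517) (.e (nat_lit 516160) (nat_lit 10) (.e (nat_lit 434248) (nat_lit 28) (.e (nat_lit 573482) (nat_lit 13) (.e (nat_lit 65566) (nat_lit 2) (.e (nat_lit 90156) (nat_lit 11) (.e (nat_lit 24671) (nat_lit 15) (.e (nat_lit 7936) (nat_lit 195) .nil))))))) (.g (nat_lit 1) (.e (nat_lit 408115) (nat_lit 0) .nil) .nil))) 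
(.lf (nat_lit 595814) (.g (nat_lit 3009) (.e (nat_lit 524298) (nat_lit 2) (.e (nat_lit 213032) (nat_lit 11) (.e (nat_lit 24608) (nat_lit 3) (.e (nat_lit 98365) (nat_lit 26) .nil)))) (.g (nat_lit 0) (.e (nat_lit 409066) (nat_lit 0) .nil) .nil))))) (.nd (nat_lit 8) (.nd (nat_lit 9) 
(.lf (nat_lit 595174) (.g (nat_lit 1510) (.e (nat_lit 516160) (nat_lit 10) (.e (nat_lit 434244) (nat_lit 28) (.e (nat_lit 573481) (nat_lit 13) (.e (nat_lit 65549) (nat_lit 0) .nil)))) (.g (nat_lit 0) (.e (nat_lit 407940) (nat_lit 0) .nil) .nil))) 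
(.lf (nat_lit 595686) (.g (nat_lit 1290) (.e (nat_lit 516182) (nat_lit 15) (.e (nat_lit 475199) (nat_lit 40) (.e (nat_lit 704589) (nat_lit 3) (.e (nat_lit 163975) (nat_lit 30) .nil)))) (.g (nat_lit 0) (.e (nat_lit 408717) (nat_lit 0) .nil) .nil)))) (.nd (nat_lit 9) 
(.lf (nat_lit 595430) (.g (nat_lit 4003) (.e (nat_lit 516166) (nat_lit 12) (.e (nat_lit 450588) (nat_lit 10) (.e (nat_lit 573448) (nat_lit 9) (.e (nat_lit 375) (nat_lit 32) (.e (nat_lit 426173) (nat_lit 7) (.e (nat_lit 409617) (nat_lit 10) (.e (nat_lit 7936) (nat_lit 43) .nil))))))) (.g (nat_lit 1) (.e (nat_lit 408345) (nat_lit 0) .nil) .nil))) 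
(.lf (nat_lit 595942) (.g (nat_lit 839) (.e (nat_lit 548913) (nat_lit 18) (.e (nat_lit 172120) (nat_lit 12) (.e (nat_lit 475185) (nat_lit 29) (.e (nat_lit 557101) (nat_lit 13) .nil)))) (.g (nat_lit 0) (.e (nat_lit 410286) (nat_lit 0) .nil) .nil)))))))) (.nd (nat_lit 5) (.nd (nat_lit 6) (.nd (nat_lit 7) (.nd (nat_lit 8) (.nd (nat_lit 9) 
(.lf (nat_lit 594966) (.g (nat_lit 1689) (.e (nat_lit 516149) (nat_lit 9) (.e (nat_lit 426323) (nat_lit 13) (.e (nat_lit 483363) (nat_lit 18) (.e (nat_lit 57654) (nat_lit 152) .nil)))) (.g (nat_lit 0) (.e (nat_lit 407553) (nat_lit 0) .nil) .nil))) 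
(.lf (nat_lit 595478) (.g (nat_lit 2075) (.e (nat_lit 516174) (nat_lit 14) (.e (nat_lit 466954) (nat_lit 11) (.e (nat_lit 335986) (nat_lit 1) (.e (nat_lit 57666) (nat_lit 152) .nil)))) (.g (nat_lit 0) (.e (nat_lit 408414) (nat_lit 0) .nil) .nil)))) (.nd (nat_lit 9) 
(.lf (nat_lit 595222) (.g (nat_lit 2707) (.e (nat_lit 516160) (nat_lit 10) (.e (nat_lit 434245) (nat_lit 28) (.e (nat_lit 573487) (nat_lit 14) (.e (nat_lit 73747) (nat_lit 3) (.e (nat_lit 516195) (nat_lit 26) (.e (nat_lit 336291) (nat_lit 15) (.e (nat_lit 7936) (nat_lit 195) .nil))))))) (.g (nat_lit 1) (.e (nat_lit 407997) (nat_lit 0) .nil) .nil))) 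
(.lf (nat_lit 595734) (.g (nat_lit 1565) (.e (nat_lit 516194) (nat_lit 26) (.e (nat_lit 335988) (nat_lit 1) (.e (nat_lit 57926) (nat_lit 282) (.e (nat_lit 163943) (nat_lit 19) .nil)))) (.g (nat_lit 0) (.e (nat_lit 408820) (nat_lit 0) .nil) .nil))))) (.nd (nat_lit 8) (.nd (nat_lit 9) 
(.lf (nat_lit 595094) (.g (nat_lit 2564) (.e (nat_lit 516151) (nat_lit 9) (.e (nat_lit 426286) (nat_lit 10) (.e (nat_lit 434247) (nat_lit 28) (.e (nat_lit 573469) (nat_lit 11) (.e (nat_lit 16387) (nat_lit 0) (.e (nat_lit 7583) (nat_lit 405) (.e (nat_lit 57464) (nat_lit 23) .nil))))))) (.g (nat_lit 1) (.e (nat_lit 407712) (nat_lit 0) .nil) .nil))) 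
(.lf (nat_lit 595606) (.g (nat_lit 1260) (.e (nat_lit 516179) (nat_lit 15) (.e (nat_lit 475199) (nat_lit 40) (.e (nat_lit 704589) (nat_lit 3) (.e (nat_lit 163975) (nat_lit 30) .nil)))) (.g (nat_lit 0) (.e (nat_lit 408570) (nat_lit 0) .nil) .nil)))) (.nd (nat_lit 9) 
(.lf (nat_lit 595350) (.g (nat_lit 3405) (.e (nat_lit 516160) (nat_lit 10) (.e (nat_lit 434248) (nat_lit 28) (.e (nat_lit 573489) (nat_lit 14) (.e (nat_lit 73755) (nat_lit 8) (.e (nat_lit 557090) (nat_lit 12) (.e (nat_lit 164002) (nat_lit 40) (.e (nat_lit 655375) (nat_lit 3) (.e (nat_lit 171776) (nat_lit 23) .nil)))))))) (.g (nat_lit 1) (.e (nat_lit 408188) (nat_lit 0) .nil) .nil))) 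
(.lf (nat_lit 595862) (.g (nat_lit 3119) (.e (nat_lit 524322) (nat_lit 12) (.e (nat_lit 450588) (nat_lit 10) (.e (nat_lit 573474) (nat_lit 12) (.e (nat_lit 57347) (nat_lit 0) (.e (nat_lit 7266) (nat_lit 384) (.e (nat_lit 57430) (nat_lit 16) (.e (nat_lit 368678) (nat_lit 22) .nil))))))) (.g (nat_lit 1) (.e (nat_lit 409290) (nat_lit 0) .nil) .nil)))))) 
(.nd (nat_lit 7) (.nd (nat_lit 8) (.nd (nat_lit 9) 
(.lf (nat_lit 595030) (.g (nat_lit 4574) (.e (nat_lit 516151) (nat_lit 9) (.e (nat_lit 426043) (nat_lit 0) (.e (nat_lit 3409) (nat_lit 212) (.e (nat_lit 655364) (nat_lit 0) (.e (nat_lit 2472) (nat_lit 157) (.e (nat_lit 3307) (nat_lit 202) (.e (nat_lit 573484) (nat_lit 13) (.e (nat_lit 65610) (nat_lit 10) (.e (nat_lit 344117) (nat_lit 21) .nil))))))))) (.g (nat_lit 1) (.e (nat_lit 407641) (nat_lit 0) .nil) .nil))) 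
(.lf (nat_lit 595542) (.g (nat_lit 1888) (.e (nat_lit 516176) (nat_lit 14) (.e (nat_lit 466954) (nat_lit 11) (.e (nat_lit 335988) (nat_lit 1) (.e (nat_lit 57665) (nat_lit 152) (.e (nat_lit 2519) (nat_lit 157) .nil))))) (.g (nat_lit 0) (.e (nat_lit 408490) (nat_lit 0) .nil) .nil)))) (.nd (nat_lit 9) 
(.lf (nat_lit 595286) (.g (nat_lit 3042) (.e (nat_lit 516160) (nat_lit 10) (.e (nat_lit 434247) (nat_lit 28) (.e (nat_lit 573485) (nat_lit 13) (.e (nat_lit 65570) (nat_lit 3) (.e (nat_lit 98317) (nat_lit 9) (.e (nat_lit 336288) (nat_lit 15) (.e (nat_lit 7936) (nat_lit 195) .nil))))))) (.g (nat_lit 1) (.e (nat_lit 408085) (nat_lit 0) .nil) .nil))) 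
(.lf (nat_lit 595798) (.g (nat_lit 2427) (.e (nat_lit 516199) (nat_lit 26) (.e (nat_lit 343808) (nat_lit 18) (.e (nat_lit 204863) (nat_lit 27) (.e (nat_lit 344129) (nat_lit 26) (.e (nat_lit 557103) (nat_lit 14) (.e (nat_lit 188160) (nat_lit 3) .nil)))))) (.g (nat_lit 1) (.e (nat_lit 409016) (nat_lit 0) .nil) .nil))))) (.nd (nat_lit 8) (.nd (nat_lit 9) 
(.lf (nat_lit 595158) (.g (nat_lit 1702) (.e (nat_lit 516159) (nat_lit 10) (.e (nat_lit 434248) (nat_lit 28) (.e (nat_lit 573482) (nat_lit 13) (.e (nat_lit 65640) (nat_lit 15) .nil)))) (.g (nat_lit 0) (.e (nat_lit 407889) (nat_lit 0) .nil) .nil))) 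
(.lf (nat_lit 595670) (.g (nat_lit 2967) (.e (nat_lit 516182) (nat_lit 15) (.e (nat_lit 475179) (nat_lit 24) (.e (nat_lit 516179) (nat_lit 15) (.e (nat_lit 475177) (nat_lit 24) (.e (nat_lit 516179) (nat_lit 15) (.e (nat_lit 475177) (nat_lit 24) .nil)))))) (.g (nat_lit 1) (.e (nat_lit 408682) (nat_lit 0) .nil) .nil)))) (.nd (nat_lit 9) 
(.lf (nat_lit 595414) (.g (nat_lit 1680) (.e (nat_lit 516166) (nat_lit 12) (.e (nat_lit 450587) (nat_lit 10) (.e (nat_lit 573472) (nat_lit 12) (.e (nat_lit 57575) (nat_lit 55) (.e (nat_lit 778465) (nat_lit 11) .nil))))) (.g (nat_lit 0) (.e (nat_lit 408329) (nat_lit 0) .nil) .nil))) 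
(.lf (nat_lit 595926) (.g (nat_lit 2523) (.e (nat_lit 548913) (nat_lit 18) (.e (nat_lit 172118) (nat_lit 12) (.e (nat_lit 475185) (nat_lit 29) (.e (nat_lit 557107) (nat_lit 15) (.e (nat_lit 188441) (nat_lit 20) (.e (nat_lit 3271) (nat_lit 199) .nil)))))) (.g (nat_lit 1) (.e (nat_lit 410269) (nat_lit 0) .nil) .nil))))))) (.nd (nat_lit 6) (.nd (nat_lit 7) (.nd (nat_lit 8) (.nd (nat_lit 9) 
(.lf (nat_lit 594998) (.g (nat_lit 2101) (.e (nat_lit 516150) (nat_lit 9) (.e (nat_lit 426436) (nat_lit 18) (.e (nat_lit 98358) (nat_lit 26) (.e (nat_lit 426428) (nat_lit 17) (.e (nat_lit 90134) (nat_lit 9) .nil))))) (.g (nat_lit 0) (.e (nat_lit 407608) (nat_lit 0) .nil) .nil))) 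
(.lf (nat_lit 595510) (.g (nat_lit 3184) (.e (nat_lit 516174) (nat_lit 14) (.e (nat_lit 466954) (nat_lit 11) (.e (nat_lit 335995) (nat_lit 1) (.e (nat_lit 57688) (nat_lit 156) (.e (nat_lit 163936) (nat_lit 18) (.e (nat_lit 475179) (nat_lit 24) .nil)))))) (.g (nat_lit 1) (.e (nat_lit 408450) (nat_lit 0) .nil) .nil)))) (.nd (nat_lit 9) 
(.lf (nat_lit 595254) (.g (nat_lit 3256) (.e (nat_lit 516160) (nat_lit 10) (.e (nat_lit 434246) (nat_lit 28) (.e (nat_lit 573489) (nat_lit 14) (.e (nat_lit 73755) (nat_lit 8) (.e (nat_lit 557090) (nat_lit 12) (.e (nat_lit 164003) (nat_lit 40) (.e (nat_lit 655373) (nat_lit 3) (.e (nat_lit 171776) (nat_lit 23) .nil)))))))) (.g (nat_lit 1) (.e (nat_lit 408040) (nat_lit 0) .nil) .nil))) 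
(.lf (nat_lit 595766) (.g (nat_lit 3550) (.e (nat_lit 516195) (nat_lit 26) (.e (nat_lit 335995) (nat_lit 1) (.e (nat_lit 57931) (nat_lit 282) (.e (nat_lit 163902) (nat_lit 12) (.e (nat_lit 426544) (nat_lit 30) (.e (nat_lit 360467) (nat_lit 3) .nil)))))) (.g (nat_lit 1) (.e (nat_lit 408890) (nat_lit 0) .nil) .nil))))) (.nd (nat_lit 8) (.nd (nat_lit 9) 
(.lf (nat_lit 595126) (.g (nat_lit 2305) (.e (nat_lit 516158) (nat_lit 9) (.e (nat_lit 426188) (nat_lit 9) (.e (nat_lit 426568) (nat_lit 34) (.e (nat_lit 393238) (nat_lit 17) (.e (nat_lit 3397) (nat_lit 211) (.e (nat_lit 647181) (nat_lit 3) (.e (nat_lit 171776) (nat_lit 23) .nil))))))) (.g (nat_lit 1) (.e (nat_lit 407757) (nat_lit 0) .nil) .nil))) 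
(.lf (nat_lit 595638) (.g (nat_lit 2262) (.e (nat_lit 516181) (nat_lit 15) (.e (nat_lit 475178) (nat_lit 24) (.e (nat_lit 516179) (nat_lit 15) (.e (nat_lit 475177) (nat_lit 24) (.e (nat_lit 516182) (nat_lit 15) (.e (nat_lit 475177) (nat_lit 24) .nil)))))) (.g (nat_lit 1) (.e (nat_lit 408629) (nat_lit 0) .nil) .nil)))) (.nd (nat_lit 9) 
(.lf (nat_lit 595382) (.g (nat_lit 1077) (.e (nat_lit 516165) (nat_lit 12) (.e (nat_lit 450581) (nat_lit 5) (.e (nat_lit 532523) (nat_lit 7) (.e (nat_lit 319504) (nat_lit 10) .nil)))) (.g (nat_lit 0) (.e (nat_lit 408293) (nat_lit 0) .nil) .nil))) 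
(.lf (nat_lit 595894) (.g (nat_lit 1938) (.e (nat_lit 548911) (nat_lit 18) (.e (nat_lit 172119) (nat_lit 12) (.e (nat_lit 475185) (nat_lit 29) (.e (nat_lit 557109) (nat_lit 15) .nil)))) (.g (nat_lit 0) (.e (nat_lit 409918) (nat_lit 0) .nil) .nil)))))) (.nd (nat_lit 7) (.nd (nat_lit 8) (.nd (nat_lit 9) 
(.lf (nat_lit 595062) (.g (nat_lit 5095) (.e (nat_lit 516151) (nat_lit 9) (.e (nat_lit 426285) (nat_lit 10) (.e (nat_lit 434244) (nat_lit 28) (.e (nat_lit 573471) (nat_lit 11) (.e (nat_lit 16425) (nat_lit 7) (.e (nat_lit 409617) (nat_lit 10) (.e (nat_lit 7936) (nat_lit 43) .nil))))))) (.g (nat_lit 1) (.e (nat_lit 407679) (nat_lit 0) .nil) .nil))) 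
(.lf (nat_lit 595574) (.g (nat_lit 2672) (.e (nat_lit 516179) (nat_lit 15) (.e (nat_lit 483072) (nat_lit 26) (.e (nat_lit 532544) (nat_lit 10) (.e (nat_lit 344117) (nat_lit 21) (.e (nat_lit 516130) (nat_lit 3) (.e (nat_lit 221204) (nat_lit 20) (.e (nat_lit 7936) (nat_lit 195) .nil))))))) (.g (nat_lit 1) (.e (nat_lit 408533) (nat_lit 0) .nil) .nil)))) (.nd (nat_lit 9) 
(.lf (nat_lit 595318) (.g (nat_lit 1542) (.e (nat_lit 516160) (nat_lit 10) (.e (nat_lit 434248) (nat_lit 28) (.e (nat_lit 573482) (nat_lit 13) (.e (nat_lit 65569) (nat_lit 3) .nil)))) (.g (nat_lit 0) (.e (nat_lit 408137) (nat_lit 0) .nil) .nil))) 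
(.lf (nat_lit 595830) (.g (nat_lit 2048) (.e (nat_lit 524320) (nat_lit 12) (.e (nat_lit 450580) (nat_lit 5) (.e (nat_lit 532530) (nat_lit 9) (.e (nat_lit 336240) (nat_lit 15) (.e (nat_lit 3605) (nat_lit 225) (.e (nat_lit 761898) (nat_lit 15) (.e (nat_lit 163959) (nat_lit 24) .nil))))))) (.g (nat_lit 1) (.e (nat_lit 409243) (nat_lit 0) .nil) .nil))))) (.nd (nat_lit 8) (.nd (nat_lit 9) 
(.lf (nat_lit 595190) (.g (nat_lit 3203) (.e (nat_lit 516160) (nat_lit 10) (.e (nat_lit 434244) (nat_lit 28) (.e (nat_lit 573487) (nat_lit 14) (.e (nat_lit 73747) (nat_lit 3) (.e (nat_lit 516195) (nat_lit 26) (.e (nat_lit 336271) (nat_lit 15) (.e (nat_lit 7936) (nat_lit 195) .nil))))))) (.g (nat_lit 1) (.e (nat_lit 407958) (nat_lit 0) .nil) .nil))) 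
(.lf (nat_lit 595702) (.g (nat_lit 1774) (.e (nat_lit 516182) (nat_lit 15) (.e (nat_lit 475199) (nat_lit 40) (.e (nat_lit 704590) (nat_lit 3) (.e (nat_lit 163975) (nat_lit 30) (.e (nat_lit 573481) (nat_lit 13) .nil))))) (.g (nat_lit 0) (.e (nat_lit 408751) (nat_lit 0) .nil) .nil)))) (.nd (nat_lit 9) 
(.lf (nat_lit 595446) (.g (nat_lit 2478) (.e (nat_lit 516166) (nat_lit 12) (.e (nat_lit 450588) (nat_lit 10) (.e (nat_lit 573452) (nat_lit 9) (.e (nat_lit 430) (nat_lit 32) (.e (nat_lit 426343) (nat_lit 14) (.e (nat_lit 491526) (nat_lit 0) (.e (nat_lit 7936) (nat_lit 119) .nil))))))) (.g (nat_lit 1) (.e (nat_lit 408361) (nat_lit 0) .nil) .nil))) 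
(.lf (nat_lit 595958) (.g (nat_lit 2570) (.e (nat_lit 548913) (nat_lit 18) (.e (nat_lit 172124) (nat_lit 14) (.e (nat_lit 491540) (nat_lit 3) (.e (nat_lit 98381) (nat_lit 31) (.e (nat_lit 466967) (nat_lit 20) (.e (nat_lit 3266) (nat_lit 199) .nil)))))) (.g (nat_lit 1) (.e (nat_lit 410304) (nat_lit 0) .nil) .nil))))))))) 
(.nd (nat_lit 4) (.nd (nat_lit 5) (.nd (nat_lit 6) (.nd (nat_lit 7) (.nd (nat_lit 8) 
(.nd (nat_lit 9) 
(.lf (nat_lit 594958) (.g (nat_lit 254) (.e (nat_lit 516148) (nat_lit 9) (.e (nat_lit 426444) (nat_lit 19) (.e (nat_lit 114432) (nat_lit 3) .nil))) (.g (nat_lit 0) (.e (nat_lit 407541) (nat_lit 0) .nil) .nil))) 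
(.lf (nat_lit 595470) (.g (nat_lit 637) (.e (nat_lit 516169) (nat_lit 13) (.e (nat_lit 458789) (nat_lit 23) (.e (nat_lit 532508) (nat_lit 2) .nil))) (.g (nat_lit 0) (.e (nat_lit 408388) (nat_lit 0) .nil) .nil)))) (.nd (nat_lit 9) 
(.lf (nat_lit 595214) (.g (nat_lit 2949) (.e (nat_lit 516160) (nat_lit 10) (.e (nat_lit 434245) (nat_lit 28) (.e (nat_lit 573481) (nat_lit 13) (.e (nat_lit 65570) (nat_lit 3) (.e (nat_lit 98317) (nat_lit 9) (.e (nat_lit 336288) (nat_lit 15) (.e (nat_lit 7936) (nat_lit 195) .nil))))))) (.g (nat_lit 1) (.e (nat_lit 407988) (nat_lit 0) .nil) .nil))) 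
(.lf (nat_lit 595726) (.g (nat_lit 1733) (.e (nat_lit 524032) (nat_lit 16) (.e (nat_lit 491566) (nat_lit 12) (.e (nat_lit 385074) (nat_lit 31) (.e (nat_lit 573481) (nat_lit 13) .nil)))) (.g (nat_lit 0) (.e (nat_lit 408785) (nat_lit 0) .nil) .nil))))) (.nd (nat_lit 8) (.nd (nat_lit 9) 
(.lf (nat_lit 595086) (.g (nat_lit 4823) (.e (nat_lit 516151) (nat_lit 9) (.e (nat_lit 426286) (nat_lit 10) (.e (nat_lit 434245) (nat_lit 28) (.e (nat_lit 573471) (nat_lit 11) (.e (nat_lit 16388) (nat_lit 0) (.e (nat_lit 7581) (nat_lit 405) (.e (nat_lit 57464) (nat_lit 23) .nil))))))) (.g (nat_lit 1) (.e (nat_lit 407704) (nat_lit 0) .nil) .nil))) 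
(.lf (nat_lit 595598) (.g (nat_lit 1489) (.e (nat_lit 516179) (nat_lit 15) (.e (nat_lit 475179) (nat_lit 24) (.e (nat_lit 516171) (nat_lit 13) (.e (nat_lit 458789) (nat_lit 23) .nil)))) (.g (nat_lit 0) (.e (nat_lit 408561) (nat_lit 0) .nil) .nil)))) (.nd (nat_lit 9) 
(.lf (nat_lit 595342) (.g (nat_lit 1889) (.e (nat_lit 516160) (nat_lit 10) (.e (nat_lit 434248) (nat_lit 28) (.e (nat_lit 573489) (nat_lit 14) (.e (nat_lit 73730) (nat_lit 0) .nil)))) (.g (nat_lit 0) (.e (nat_lit 408169) (nat_lit 0) .nil) .nil))) 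
(.lf (nat_lit 595854) (.g (nat_lit 1736) (.e (nat_lit 524322) (nat_lit 12) (.e (nat_lit 450587) (nat_lit 10) (.e (nat_lit 573478) (nat_lit 12) (.e (nat_lit 57574) (nat_lit 55) (.e (nat_lit 778464) (nat_lit 11) .nil))))) (.g (nat_lit 0) (.e (nat_lit 409282) (nat_lit 0) .nil) .nil)))))) (.nd (nat_lit 7) (.nd (nat_lit 8) (.nd (nat_lit 9) 
(.lf (nat_lit 595022) (.g (nat_lit 4373) (.e (nat_lit 516151) (nat_lit 9) (.e (nat_lit 426043) (nat_lit 0) (.e (nat_lit 3407) (nat_lit 212) (.e (nat_lit 655373) (nat_lit 3) (.e (nat_lit 163979) (nat_lit 30) (.e (nat_lit 573482) (nat_lit 13) (.e (nat_lit 65619) (nat_lit 10) (.e (nat_lit 344117) (nat_lit 21) .nil)))))))) (.g (nat_lit 1) (.e (nat_lit 407632) (nat_lit 0) .nil) .nil))) 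
(.lf (nat_lit 595534) (.g (nat_lit 3190) (.e (nat_lit 516176) (nat_lit 14) (.e (nat_lit 466954) (nat_lit 11) (.e (nat_lit 335986) (nat_lit 1) (.e (nat_lit 57688) (nat_lit 156) (.e (nat_lit 163939) (nat_lit 18) (.e (nat_lit 475177) (nat_lit 24) .nil)))))) (.g (nat_lit 1) (.e (nat_lit 408482) (nat_lit 0) .nil) .nil)))) (.nd (nat_lit 9) 
(.lf (nat_lit 595278) (.g (nat_lit 1885) (.e (nat_lit 516160) (nat_lit 10) (.e (nat_lit 434247) (nat_lit 28) (.e (nat_lit 573485) (nat_lit 13) (.e (nat_lit 65567) (nat_lit 2) (.e (nat_lit 90159) (nat_lit 11) (.e (nat_lit 24671) (nat_lit 15) (.e (nat_lit 7936) (nat_lit 195) .nil))))))) (.g (nat_lit 1) (.e (nat_lit 408071) (nat_lit 0) .nil) .nil))) 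
(.lf (nat_lit 595790) (.g (nat_lit 842) (.e (nat_lit 516199) (nat_lit 26) (.e (nat_lit 335988) (nat_lit 1) (.e (nat_lit 57931) (nat_lit 282) .nil))) (.g (nat_lit 0) (.e (nat_lit 408991) (nat_lit 0) .nil) .nil))))) (.nd (nat_lit 8) (.nd (nat_lit 9) 
(.lf (nat_lit 595150) (.g (nat_lit 2087) (.e (nat_lit 516159) (nat_lit 10) (.e (nat_lit 434244) (nat_lit 28) (.e (nat_lit 573488) (nat_lit 14) (.e (nat_lit 73747) (nat_lit 3) .nil)))) (.g (nat_lit 0) (.e (nat_lit 407837) (nat_lit 0) .nil) .nil))) 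
(.lf (nat_lit 595662) (.g (nat_lit 3054) (.e (nat_lit 516182) (nat_lit 15) (.e (nat_lit 475177) (nat_lit 24) (.e (nat_lit 516179) (nat_lit 15) (.e (nat_lit 475177) (nat_lit 24) (.e (nat_lit 516179) (nat_lit 15) (.e (nat_lit 475177) (nat_lit 24) .nil)))))) (.g (nat_lit 1) (.e (nat_lit 408672) (nat_lit 0) .nil) .nil)))) (.nd (nat_lit 9) 
(.lf (nat_lit 595406) (.g (nat_lit 1146) (.e (nat_lit 516166) (nat_lit 12) (.e (nat_lit 450587) (nat_lit 10) (.e (nat_lit 573457) (nat_lit 9) (.e (nat_lit 430) (nat_lit 32) (.e (nat_lit 426166) (nat_lit 7) (.e (nat_lit 409616) (nat_lit 10) (.e (nat_lit 7936) (nat_lit 43) .nil))))))) (.g (nat_lit 1) (.e (nat_lit 408321) (nat_lit 0) .nil) .nil))) 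
(.lf (nat_lit 595918) (.g (nat_lit 1789) (.e (nat_lit 548912) (nat_lit 18) (.e (nat_lit 172126) (nat_lit 14) (.e (nat_lit 491537) (nat_lit 2) (.e (nat_lit 90176) (nat_lit 15) .nil)))) (.g (nat_lit 0) (.e (nat_lit 409956) (nat_lit 0) .nil) .nil))))))) (.nd (nat_lit 6) (.nd (nat_lit 7) (.nd (nat_lit 8) (.nd (nat_lit 9) 
(.lf (nat_lit 594990) (.g (nat_lit 3259) (.e (nat_lit 516150) (nat_lit 9) (.e (nat_lit 426323) (nat_lit 13) (.e (nat_lit 483363) (nat_lit 18) (.e (nat_lit 57688) (nat_lit 156) (.e (nat_lit 163936) (nat_lit 18) (.e (nat_lit 475177) (nat_lit 24) .nil)))))) (.g (nat_lit 1) (.e (nat_lit 407595) (nat_lit 0) .nil) .nil))) 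
(.lf (nat_lit 595502) (.g (nat_lit 1975) (.e (nat_lit 516174) (nat_lit 14) (.e (nat_lit 466954) (nat_lit 11) (.e (nat_lit 335988) (nat_lit 1) (.e (nat_lit 57692) (nat_lit 156) (.e (nat_lit 171776) (nat_lit 18) (.e (nat_lit 475177) (nat_lit 24) .nil)))))) (.g (nat_lit 1) (.e (nat_lit 408442) (nat_lit 0) .nil) .nil)))) (.nd (nat_lit 9) 
(.lf (nat_lit 595246) (.g (nat_lit 2792) (.e (nat_lit 516160) (nat_lit 10) (.e (nat_lit 434246) (nat_lit 28) (.e (nat_lit 573487) (nat_lit 14) (.e (nat_lit 73747) (nat_lit 3) (.e (nat_lit 516195) (nat_lit 26) (.e (nat_lit 336271) (nat_lit 15) (.e (nat_lit 7936) (nat_lit 195) .nil))))))) (.g (nat_lit 1) (.e (nat_lit 408028) (nat_lit 0) .nil) .nil))) 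
(.lf (nat_lit 595758) (.g (nat_lit 1310) (.e (nat_lit 516195) (nat_lit 26) (.e (nat_lit 335988) (nat_lit 1) (.e (nat_lit 57926) (nat_lit 282) (.e (nat_lit 163944) (nat_lit 19) .nil)))) (.g (nat_lit 0) (.e (nat_lit 408863) (nat_lit 0) .nil) .nil))))) (.nd (nat_lit 8) (.nd (nat_lit 9) 
(.lf (nat_lit 595118) (.g (nat_lit 1914) (.e (nat_lit 516151) (nat_lit 9) (.e (nat_lit 426412) (nat_lit 15) (.e (nat_lit 2059) (nat_lit 142) (.e (nat_lit 704589) (nat_lit 3) (.e (nat_lit 163979) (nat_lit 30) .nil))))) (.g (nat_lit 0) (.e (nat_lit 407739) (nat_lit 0) .nil) .nil))) 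
(.lf (nat_lit 595630) (.g (nat_lit 4154) (.e (nat_lit 516180) (nat_lit 15) (.e (nat_lit 475197) (nat_lit 40) (.e (nat_lit 704589) (nat_lit 3) (.e (nat_lit 163978) (nat_lit 30) (.e (nat_lit 573485) (nat_lit 13) (.e (nat_lit 65619) (nat_lit 10) (.e (nat_lit 344117) (nat_lit 21) .nil))))))) (.g (nat_lit 1) (.e (nat_lit 408617) (nat_lit 0) .nil) .nil)))) (.nd (nat_lit 9) 
(.lf (nat_lit 595374) (.g (nat_lit 2254) (.e (nat_lit 516163) (nat_lit 11) (.e (nat_lit 442425) (nat_lit 23) (.e (nat_lit 204846) (nat_lit 24) (.e (nat_lit 319500) (nat_lit 10) .nil)))) (.g (nat_lit 0) (.e (nat_lit 408282) (nat_lit 0) .nil) .nil))) 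
(.lf (nat_lit 595886) (.g (nat_lit 1741) (.e (nat_lit 548902) (nat_lit 14) (.e (nat_lit 2946) (nat_lit 184) (.e (nat_lit 426306) (nat_lit 12) (.e (nat_lit 475183) (nat_lit 29) (.e (nat_lit 557098) (nat_lit 13) .nil))))) (.g (nat_lit 0) (.e (nat_lit 409885) (nat_lit 0) .nil) .nil)))))) (.nd (nat_lit 7) (.nd (nat_lit 8) (.nd (nat_lit 9) 
(.lf (nat_lit 595054) (.g (nat_lit 4916) (.e (nat_lit 516151) (nat_lit 9) (.e (nat_lit 426285) (nat_lit 10) (.e (nat_lit 434242) (nat_lit 28) (.e (nat_lit 573471) (nat_lit 11) (.e (nat_lit 16425) (nat_lit 7) (.e (nat_lit 409616) (nat_lit 10) (.e (nat_lit 7936) (nat_lit 43) .nil))))))) (.g (nat_lit 1) (.e (nat_lit 407671) (nat_lit 0) .nil) .nil))) 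
(.lf (nat_lit 595566) (.g (nat_lit 2323) (.e (nat_lit 516178) (nat_lit 15) (.e (nat_lit 475199) (nat_lit 40) (.e (nat_lit 704589) (nat_lit 3) (.e (nat_lit 163975) (nat_lit 30) (.e (nat_lit 573491) (nat_lit 15) (.e (nat_lit 81946) (nat_lit 20) (.e (nat_lit 1802) (nat_lit 119) .nil))))))) (.g (nat_lit 1) (.e (nat_lit 408524) (nat_lit 0) .nil) .nil)))) (.nd (nat_lit 9) 
(.lf (nat_lit 595310) (.g (nat_lit 2377) (.e (nat_lit 516160) (nat_lit 10) (.e (nat_lit 434248) (nat_lit 28) (.e (nat_lit 573482) (nat_lit 13) (.e (nat_lit 65567) (nat_lit 2) (.e (nat_lit 90159) (nat_lit 11) (.e (nat_lit 24671) (nat_lit 15) (.e (nat_lit 7936) (nat_lit 195) .nil))))))) (.g (nat_lit 1) (.e (nat_lit 408123) (nat_lit 0) .nil) .nil))) 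
(.lf (nat_lit 595822) (.g (nat_lit 1298) (.e (nat_lit 524319) (nat_lit 11) (.e (nat_lit 442427) (nat_lit 23) (.e (nat_lit 204846) (nat_lit 24) (.e (nat_lit 319529) (nat_lit 16) .nil)))) (.g (nat_lit 0) (.e (nat_lit 409235) (nat_lit 0) .nil) .nil))))) (.nd (nat_lit 8) (.nd (nat_lit 9) 
(.lf (nat_lit 595182) (.g (nat_lit 1799) (.e (nat_lit 516160) (nat_lit 10) (.e (nat_lit 434244) (nat_lit 28) (.e (nat_lit 573481) (nat_lit 13) (.e (nat_lit 65569) (nat_lit 3) (.e (nat_lit 98325) (nat_lit 17) .nil))))) (.g (nat_lit 0) (.e (nat_lit 407949) (nat_lit 0) .nil) .nil))) 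
(.lf (nat_lit 595694) (.g (nat_lit 2014) (.e (nat_lit 516182) (nat_lit 15) (.e (nat_lit 475199) (nat_lit 40) (.e (nat_lit 704589) (nat_lit 3) (.e (nat_lit 163976) (nat_lit 30) (.e (nat_lit 573491) (nat_lit 15) (.e (nat_lit 81943) (nat_lit 20) (.e (nat_lit 1798) (nat_lit 119) .nil))))))) (.g (nat_lit 1) (.e (nat_lit 408732) (nat_lit 0) .nil) .nil)))) (.nd (nat_lit 9) 
(.lf (nat_lit 595438) (.g (nat_lit 4432) (.e (nat_lit 516166) (nat_lit 12) (.e (nat_lit 450588) (nat_lit 10) (.e (nat_lit 573451) (nat_lit 9) (.e (nat_lit 359) (nat_lit 30) (.e (nat_lit 409603) (nat_lit 0) (.e (nat_lit 5394) (nat_lit 301) (.e (nat_lit 57464) (nat_lit 23) .nil))))))) (.g (nat_lit 1) (.e (nat_lit 408353) (nat_lit 0) .nil) .nil))) 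
(.lf (nat_lit 595950) (.g (nat_lit 3728) (.e (nat_lit 548913) (nat_lit 18) (.e (nat_lit 172124) (nat_lit 14) (.e (nat_lit 491537) (nat_lit 2) (.e (nat_lit 90177) (nat_lit 15) (.e (nat_lit 188434) (nat_lit 20) (.e (nat_lit 3271) (nat_lit 199) .nil)))))) (.g (nat_lit 1) (.e (nat_lit 410295) (nat_lit 0) .nil) .nil)))))))) 
(.nd (nat_lit 5) (.nd (nat_lit 6) (.nd (nat_lit 7) (.nd (nat_lit 8) (.nd (nat_lit 9) 
(.lf (nat_lit 594974) (.g (nat_lit 1500) (.e (nat_lit 516149) (nat_lit 9) (.e (nat_lit 426323) (nat_lit 13) (.e (nat_lit 483364) (nat_lit 18) (.e (nat_lit 57685) (nat_lit 156) (.e (nat_lit 163939) (nat_lit 18) .nil))))) (.g (nat_lit 0) (.e (nat_lit 407567) (nat_lit 0) .nil) .nil))) 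
(.lf (nat_lit 595486) (.g (nat_lit 3131) (.e (nat_lit 516174) (nat_lit 14) (.e (nat_lit 466954) (nat_lit 11) (.e (nat_lit 335986) (nat_lit 1) (.e (nat_lit 57688) (nat_lit 156) (.e (nat_lit 163939) (nat_lit 18) (.e (nat_lit 475177) (nat_lit 24) .nil)))))) (.g (nat_lit 1) (.e (nat_lit 408425) (nat_lit 0) .nil) .nil)))) (.nd (nat_lit 9) 
(.lf (nat_lit 595230) (.g (nat_lit 2142) (.e (nat_lit 516160) (nat_lit 10) (.e (nat_lit 434245) (nat_lit 28) (.e (nat_lit 573488) (nat_lit 14) (.e (nat_lit 73755) (nat_lit 8) (.e (nat_lit 564992) (nat_lit 4) (.e (nat_lit 65637) (nat_lit 15) (.e (nat_lit 7936) (nat_lit 195) .nil))))))) (.g (nat_lit 1) (.e (nat_lit 408005) (nat_lit 0) .nil) .nil))) 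
(.lf (nat_lit 595742) (.g (nat_lit 1911) (.e (nat_lit 516194) (nat_lit 26) (.e (nat_lit 335996) (nat_lit 1) (.e (nat_lit 57931) (nat_lit 282) (.e (nat_lit 163943) (nat_lit 19) (.e (nat_lit 483399) (nat_lit 25) .nil))))) (.g (nat_lit 0) (.e (nat_lit 408833) (nat_lit 0) .nil) .nil))))) (.nd (nat_lit 8) (.nd (nat_lit 9) 
(.lf (nat_lit 595102) (.g (nat_lit 4247) (.e (nat_lit 516151) (nat_lit 9) (.e (nat_lit 426286) (nat_lit 10) (.e (nat_lit 434248) (nat_lit 28) (.e (nat_lit 573470) (nat_lit 11) (.e (nat_lit 16388) (nat_lit 0) (.e (nat_lit 7581) (nat_lit 405) (.e (nat_lit 57464) (nat_lit 23) .nil))))))) (.g (nat_lit 1) (.e (nat_lit 407720) (nat_lit 0) .nil) .nil))) 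
(.lf (nat_lit 595614) (.g (nat_lit 1945) (.e (nat_lit 516179) (nat_lit 15) (.e (nat_lit 475199) (nat_lit 40) (.e (nat_lit 704590) (nat_lit 3) (.e (nat_lit 163975) (nat_lit 30) (.e (nat_lit 573491) (nat_lit 15) .nil))))) (.g (nat_lit 0) (.e (nat_lit 408596) (nat_lit 0) .nil) .nil)))) (.nd (nat_lit 9) 
(.lf (nat_lit 595358) (.g (nat_lit 550) (.e (nat_lit 516161) (nat_lit 10) (.e (nat_lit 434248) (nat_lit 28) (.e (nat_lit 573489) (nat_lit 14) .nil))) (.g (nat_lit 0) (.e (nat_lit 408252) (nat_lit 0) .nil) .nil))) 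
(.lf (nat_lit 595870) (.g (nat_lit 1163) (.e (nat_lit 524340) (nat_lit 28) (.e (nat_lit 352322) (nat_lit 26) (.e (nat_lit 147512) (nat_lit 14) (.e (nat_lit 2808) (nat_lit 180) .nil)))) (.g (nat_lit 0) (.e (nat_lit 409347) (nat_lit 0) .nil) .nil)))))) (.nd (nat_lit 7) (.nd (nat_lit 8) (.nd (nat_lit 9) 
(.lf (nat_lit 595038) (.g (nat_lit 3907) (.e (nat_lit 516151) (nat_lit 9) (.e (nat_lit 426142) (nat_lit 4) (.e (nat_lit 229666) (nat_lit 240) (.e (nat_lit 2602) (nat_lit 163) (.e (nat_lit 163978) (nat_lit 30) (.e (nat_lit 573485) (nat_lit 13) (.e (nat_lit 65619) (nat_lit 10) (.e (nat_lit 344117) (nat_lit 21) .nil)))))))) (.g (nat_lit 1) (.e (nat_lit 407655) (nat_lit 0) .nil) .nil))) 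
(.lf (nat_lit 595550) (.g (nat_lit 2821) (.e (nat_lit 516176) (nat_lit 14) (.e (nat_lit 466967) (nat_lit 20) (.e (nat_lit 3253) (nat_lit 197) (.e (nat_lit 532523) (nat_lit 7) (.e (nat_lit 319533) (nat_lit 16) (.e (nat_lit 286724) (nat_lit 0) (.e (nat_lit 1801) (nat_lit 119) .nil))))))) (.g (nat_lit 1) (.e (nat_lit 408500) (nat_lit 0) .nil) .nil)))) (.nd (nat_lit 9) 
(.lf (nat_lit 595294) (.g (nat_lit 597) (.e (nat_lit 516160) (nat_lit 10) (.e (nat_lit 434248) (nat_lit 28) (.e (nat_lit 573480) (nat_lit 13) .nil))) (.g (nat_lit 0) (.e (nat_lit 408104) (nat_lit 0) .nil) .nil))) 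
(.lf (nat_lit 595806) (.g (nat_lit 2579) (.e (nat_lit 524032) (nat_lit 32) (.e (nat_lit 385066) (nat_lit 26) (.e (nat_lit 532534) (nat_lit 9) (.e (nat_lit 336019) (nat_lit 3) (.e (nat_lit 98342) (nat_lit 20) .nil))))) (.g (nat_lit 0) (.e (nat_lit 409043) (nat_lit 0) .nil) .nil))))) (.nd (nat_lit 8) (.nd (nat_lit 9) 
(.lf (nat_lit 595166) (.g (nat_lit 3818) (.e (nat_lit 516160) (nat_lit 10) (.e (nat_lit 442112) (nat_lit 11) (.e (nat_lit 163975) (nat_lit 30) (.e (nat_lit 573471) (nat_lit 11) (.e (nat_lit 16425) (nat_lit 7) (.e (nat_lit 409617) (nat_lit 10) (.e (nat_lit 7936) (nat_lit 43) .nil))))))) (.g (nat_lit 1) (.e (nat_lit 407932) (nat_lit 0) .nil) .nil))) 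
(.lf (nat_lit 595678) (.g (nat_lit 1046) (.e (nat_lit 516182) (nat_lit 15) (.e (nat_lit 475198) (nat_lit 40) (.e (nat_lit 704589) (nat_lit 3) (.e (nat_lit 163976) (nat_lit 30) .nil)))) (.g (nat_lit 0) (.e (nat_lit 408697) (nat_lit 0) .nil) .nil)))) (.nd (nat_lit 9) 
(.lf (nat_lit 595422) (.g (nat_lit 2190) (.e (nat_lit 516166) (nat_lit 12) (.e (nat_lit 450587) (nat_lit 10) (.e (nat_lit 573477) (nat_lit 12) (.e (nat_lit 57575) (nat_lit 55) (.e (nat_lit 778463) (nat_lit 11) .nil))))) (.g (nat_lit 0) (.e (nat_lit 408337) (nat_lit 0) .nil) .nil))) 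
(.lf (nat_lit 595934) (.g (nat_lit 2906) (.e (nat_lit 548913) (nat_lit 18) (.e (nat_lit 172120) (nat_lit 12) (.e (nat_lit 475183) (nat_lit 29) (.e (nat_lit 557107) (nat_lit 15) (.e (nat_lit 188439) (nat_lit 20) (.e (nat_lit 3271) (nat_lit 199) .nil)))))) (.g (nat_lit 1) (.e (nat_lit 410277) (nat_lit 0) .nil) .nil))))))) (.nd (nat_lit 6) (.nd (nat_lit 7) (.nd (nat_lit 8) (.nd (nat_lit 9) 
(.lf (nat_lit 595006) (.g (nat_lit 3862) (.e (nat_lit 516151) (nat_lit 9) (.e (nat_lit 426043) (nat_lit 0) (.e (nat_lit 2422) (nat_lit 157) (.e (nat_lit 4778) (nat_lit 281) (.e (nat_lit 2445) (nat_lit 157) (.e (nat_lit 2668) (nat_lit 167) (.e (nat_lit 196666) (nat_lit 13) (.e (nat_lit 65610) (nat_lit 10) (.e (nat_lit 344117) (nat_lit 21) .nil))))))))) (.g (nat_lit 1) (.e (nat_lit 407616) (nat_lit 0) .nil) .nil))) 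
(.lf (nat_lit 595518) (.g (nat_lit 1893) (.e (nat_lit 516174) (nat_lit 14) (.e (nat_lit 466979) (nat_lit 23) (.e (nat_lit 204846) (nat_lit 24) (.e (nat_lit 319534) (nat_lit 16) (.e (nat_lit 286728) (nat_lit 0) .nil))))) (.g (nat_lit 0) (.e (nat_lit 408459) (nat_lit 0) .nil) .nil)))) (.nd (nat_lit 9) 
(.lf (nat_lit 595262) (.g (nat_lit 3530) (.e (nat_lit 516160) (nat_lit 10) (.e (nat_lit 434247) (nat_lit 28) (.e (nat_lit 573484) (nat_lit 13) (.e (nat_lit 65566) (nat_lit 2) (.e (nat_lit 90157) (nat_lit 11) (.e (nat_lit 24671) (nat_lit 15) (.e (nat_lit 7936) (nat_lit 195) .nil))))))) (.g (nat_lit 1) (.e (nat_lit 408049) (nat_lit 0) .nil) .nil))) 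
(.lf (nat_lit 595774) (.g (nat_lit 3577) (.e (nat_lit 516195) (nat_lit 26) (.e (nat_lit 335996) (nat_lit 1) (.e (nat_lit 57931) (nat_lit 282) (.e (nat_lit 163905) (nat_lit 12) (.e (nat_lit 426544) (nat_lit 30) (.e (nat_lit 360467) (nat_lit 3) .nil)))))) (.g (nat_lit 1) (.e (nat_lit 408905) (nat_lit 0) .nil) .nil))))) (.nd (nat_lit 8) (.nd (nat_lit 9) 
(.lf (nat_lit 595134) (.g (nat_lit 1681) (.e (nat_lit 516159) (nat_lit 10) (.e (nat_lit 434231) (nat_lit 23) (.e (nat_lit 532507) (nat_lit 2) (.e (nat_lit 106537) (nat_lit 12) .nil)))) (.g (nat_lit 0) (.e (nat_lit 407773) (nat_lit 0) .nil) .nil))) 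
(.lf (nat_lit 595646) (.g (nat_lit 1529) (.e (nat_lit 516181) (nat_lit 15) (.e (nat_lit 475198) (nat_lit 40) (.e (nat_lit 704589) (nat_lit 3) (.e (nat_lit 163975) (nat_lit 30) .nil)))) (.g (nat_lit 0) (.e (nat_lit 408641) (nat_lit 0) .nil) .nil)))) (.nd (nat_lit 9) 
(.lf (nat_lit 595390) (.g (nat_lit 1725) (.e (nat_lit 516165) (nat_lit 12) (.e (nat_lit 450587) (nat_lit 10) (.e (nat_lit 573469) (nat_lit 11) (.e (nat_lit 16387) (nat_lit 0) .nil)))) (.g (nat_lit 0) (.e (nat_lit 408303) (nat_lit 0) .nil) .nil))) 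
(.lf (nat_lit 595902) (.g (nat_lit 1359) (.e (nat_lit 548911) (nat_lit 18) (.e (nat_lit 172126) (nat_lit 14) (.e (nat_lit 491537) (nat_lit 2) (.e (nat_lit 90176) (nat_lit 15) .nil)))) (.g (nat_lit 0) (.e (nat_lit 409926) (nat_lit 0) .nil) .nil)))))) (.nd (nat_lit 7) (.nd (nat_lit 8) (.nd (nat_lit 9) 
(.lf (nat_lit 595070) (.g (nat_lit 4897) (.e (nat_lit 516151) (nat_lit 9) (.e (nat_lit 426285) (nat_lit 10) (.e (nat_lit 434248) (nat_lit 28) (.e (nat_lit 573450) (nat_lit 9) (.e (nat_lit 375) (nat_lit 32) (.e (nat_lit 426173) (nat_lit 7) (.e (nat_lit 409616) (nat_lit 10) (.e (nat_lit 7936) (nat_lit 43) .nil)))))))) (.g (nat_lit 1) (.e (nat_lit 407687) (nat_lit 0) .nil) .nil))) 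
(.lf (nat_lit 595582) (.g (nat_lit 823) (.e (nat_lit 516179) (nat_lit 15) (.e (nat_lit 475177) (nat_lit 24) (.e (nat_lit 516150) (nat_lit 9) (.e (nat_lit 426428) (nat_lit 17) .nil)))) (.g (nat_lit 0) (.e (nat_lit 408543) (nat_lit 0) .nil) .nil)))) (.nd (nat_lit 9) 
(.lf (nat_lit 595326) (.g (nat_lit 2742) (.e (nat_lit 516160) (nat_lit 10) (.e (nat_lit 434248) (nat_lit 28) (.e (nat_lit 573482) (nat_lit 13) (.e (nat_lit 65571) (nat_lit 3) (.e (nat_lit 98313) (nat_lit 9) (.e (nat_lit 336271) (nat_lit 15) (.e (nat_lit 7936) (nat_lit 195) .nil))))))) (.g (nat_lit 1) (.e (nat_lit 408145) (nat_lit 0) .nil) .nil))) 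
(.lf (nat_lit 595838) (.g (nat_lit 1437) (.e (nat_lit 524321) (nat_lit 12) (.e (nat_lit 450588) (nat_lit 10) (.e (nat_lit 573474) (nat_lit 12) (.e (nat_lit 57572) (nat_lit 54) .nil)))) (.g (nat_lit 0) (.e (nat_lit 409260) (nat_lit 0) .nil) .nil))))) (.nd (nat_lit 8) (.nd (nat_lit 9) 
(.lf (nat_lit 595198) (.g (nat_lit 1635) (.e (nat_lit 516160) (nat_lit 10) (.e (nat_lit 434244) (nat_lit 28) (.e (nat_lit 573488) (nat_lit 14) (.e (nat_lit 73747) (nat_lit 3) .nil)))) (.g (nat_lit 0) (.e (nat_lit 407968) (nat_lit 0) .nil) .nil))) 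
(.lf (nat_lit 595710) (.g (nat_lit 2262) (.e (nat_lit 516183) (nat_lit 16) (.e (nat_lit 491566) (nat_lit 12) (.e (nat_lit 385074) (nat_lit 31) (.e (nat_lit 573493) (nat_lit 15) .nil)))) (.g (nat_lit 0) (.e (nat_lit 408763) (nat_lit 0) .nil) .nil)))) (.nd (nat_lit 9) 
(.lf (nat_lit 595454) (.g (nat_lit 1208) (.e (nat_lit 516166) (nat_lit 12) (.e (nat_lit 450588) (nat_lit 10) (.e (nat_lit 573471) (nat_lit 11) (.e (nat_lit 16471) (nat_lit 14) .nil)))) (.g (nat_lit 0) (.e (nat_lit 408369) (nat_lit 0) .nil) .nil))) 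
(.lf (nat_lit 595966) (.g (nat_lit 2100) (.e (nat_lit 548913) (nat_lit 18) (.e (nat_lit 172125) (nat_lit 14) (.e (nat_lit 491540) (nat_lit 3) (.e (nat_lit 98373) (nat_lit 29) (.e (nat_lit 458496) (nat_lit 7) .nil))))) (.g (nat_lit 0) (.e (nat_lit 410312) (nat_lit 0) .nil) .nil)))))))))))) 
(.nd (nat_lit 1) (.nd (nat_lit 2) (.nd (nat_lit 3) (.nd (nat_lit 4) (.nd (nat_lit 5) 
(.nd (nat_lit 6) (.nd (nat_lit 7) (.nd (nat_lit 8) (.nd (nat_lit 9) 
(.lf (nat_lit 594945) (.g (nat_lit 520) (.e (nat_lit 516148) (nat_lit 9) (.e (nat_lit 426131) (nat_lit 3) (.e (nat_lit 204838) (nat_lit 20) .nil))) (.g (nat_lit 0) (.e (nat_lit 407525) (nat_lit 0) .nil) .nil))) 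
(.lf (nat_lit 595457) (.g (nat_lit 5649) (.e (nat_lit 516166) (nat_lit 12) (.e (nat_lit 450588) (nat_lit 10) (.e (nat_lit 573475) (nat_lit 12) (.e (nat_lit 57354) (nat_lit 0) (.e (nat_lit 7270) (nat_lit 385) (.e (nat_lit 122913) (nat_lit 13) (.e (nat_lit 344118) (nat_lit 21) .nil))))))) (.g (nat_lit 1) (.e (nat_lit 408372) (nat_lit 0) .nil) .nil)))) (.nd (nat_lit 9) 
(.lf (nat_lit 595201) (.g (nat_lit 3429) (.e (nat_lit 516160) (nat_lit 10) (.e (nat_lit 434244) (nat_lit 28) (.e (nat_lit 573488) (nat_lit 14) (.e (nat_lit 73747) (nat_lit 3) (.e (nat_lit 516195) (nat_lit 26) (.e (nat_lit 336288) (nat_lit 15) (.e (nat_lit 7936) (nat_lit 195) .nil))))))) (.g (nat_lit 1) (.e (nat_lit 407971) (nat_lit 0) .nil) .nil))) 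
(.lf (nat_lit 595713) (.g (nat_lit 2476) (.e (nat_lit 516183) (nat_lit 16) (.e (nat_lit 491571) (nat_lit 13) (.e (nat_lit 393238) (nat_lit 17) (.e (nat_lit 3572) (nat_lit 222) .nil)))) (.g (nat_lit 0) (.e (nat_lit 408768) (nat_lit 0) .nil) .nil))))) (.nd (nat_lit 8) (.nd (nat_lit 9) 
(.lf (nat_lit 595073) (.g (nat_lit 5411) (.e (nat_lit 516151) (nat_lit 9) (.e (nat_lit 426285) (nat_lit 10) (.e (nat_lit 434248) (nat_lit 28) (.e (nat_lit 573471) (nat_lit 11) (.e (nat_lit 16425) (nat_lit 7) (.e (nat_lit 409616) (nat_lit 10) (.e (nat_lit 7936) (nat_lit 43) .nil))))))) (.g (nat_lit 1) (.e (nat_lit 407690) (nat_lit 0) .nil) .nil))) 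
(.lf (nat_lit 595585) (.g (nat_lit 2045) (.e (nat_lit 516179) (nat_lit 15) (.e (nat_lit 475177) (nat_lit 24) (.e (nat_lit 516169) (nat_lit 13) (.e (nat_lit 458795) (nat_lit 28) (.e (nat_lit 573484) (nat_lit 13) (.e (nat_lit 65642) (nat_lit 15) (.e (nat_lit 7936) (nat_lit 195) .nil))))))) (.g (nat_lit 1) (.e (nat_lit 408546) (nat_lit 0) .nil) .nil)))) (.nd (nat_lit 9) 
(.lf (nat_lit 595329) (.g (nat_lit 2663) (.e (nat_lit 516160) (nat_lit 10) (.e (nat_lit 434248) (nat_lit 28) (.e (nat_lit 573482) (nat_lit 13) (.e (nat_lit 65571) (nat_lit 3) (.e (nat_lit 98313) (nat_lit 9) (.e (nat_lit 336293) (nat_lit 15) (.e (nat_lit 7936) (nat_lit 195) .nil))))))) (.g (nat_lit 1) (.e (nat_lit 408148) (nat_lit 0) .nil) .nil))) 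
(.lf (nat_lit 595841) (.g (nat_lit 2415) (.e (nat_lit 524321) (nat_lit 12) (.e (nat_lit 450588) (nat_lit 10) (.e (nat_lit 573475) (nat_lit 12) (.e (nat_lit 57574) (nat_lit 55) .nil)))) (.g (nat_lit 0) (.e (nat_lit 409267) (nat_lit 0) .nil) .nil)))))) (.nd (nat_lit 7) (.nd (nat_lit 8) (.nd (nat_lit 9) 
(.lf (nat_lit 595009) (.g (nat_lit 2935) (.e (nat_lit 516151) (nat_lit 9) (.e (nat_lit 426043) (nat_lit 0) (.e (nat_lit 3369) (nat_lit 208) (.e (nat_lit 622622) (nat_lit 13) (.e (nat_lit 2668) (nat_lit 167) (.e (nat_lit 196666) (nat_lit 13) (.e (nat_lit 65610) (nat_lit 10) (.e (nat_lit 344117) (nat_lit 21) .nil)))))))) (.g (nat_lit 1) (.e (nat_lit 407619) (nat_lit 0) .nil) .nil))) 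
(.lf (nat_lit 595521) (.g (nat_lit 1722) (.e (nat_lit 516175) (nat_lit 14) (.e (nat_lit 466971) (nat_lit 21) (.e (nat_lit 164179) (nat_lit 154) (.e (nat_lit 57388) (nat_lit 5) (.e (nat_lit 122624) (nat_lit 17) .nil))))) (.g (nat_lit 0) (.e (nat_lit 408462) (nat_lit 0) .nil) .nil)))) (.nd (nat_lit 9) 
(.lf (nat_lit 595265) (.g (nat_lit 2956) (.e (nat_lit 516160) (nat_lit 10) (.e (nat_lit 434247) (nat_lit 28) (.e (nat_lit 573484) (nat_lit 13) (.e (nat_lit 65566) (nat_lit 2) (.e (nat_lit 90160) (nat_lit 11) (.e (nat_lit 24669) (nat_lit 15) (.e (nat_lit 7936) (nat_lit 195) .nil))))))) (.g (nat_lit 1) (.e (nat_lit 408052) (nat_lit 0) .nil) .nil))) 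
(.lf (nat_lit 595777) (.g (nat_lit 919) (.e (nat_lit 516195) (nat_lit 26) (.e (nat_lit 336027) (nat_lit 3) (.e (nat_lit 98321) (nat_lit 17) .nil))) (.g (nat_lit 0) (.e (nat_lit 408915) (nat_lit 0) .nil) .nil))))) (.nd (nat_lit 8) (.nd (nat_lit 9) 
(.lf (nat_lit 595137) (.g (nat_lit 1763) (.e (nat_lit 516159) (nat_lit 10) (.e (nat_lit 434231) (nat_lit 23) (.e (nat_lit 532514) (nat_lit 3) (.e (nat_lit 114718) (nat_lit 23) .nil)))) (.g (nat_lit 0) (.e (nat_lit 407790) (nat_lit 0) .nil) .nil))) 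
(.lf (nat_lit 595649) (.g (nat_lit 2538) (.e (nat_lit 516181) (nat_lit 15) (.e (nat_lit 475198) (nat_lit 40) (.e (nat_lit 704589) (nat_lit 3) (.e (nat_lit 163976) (nat_lit 30) (.e (nat_lit 573491) (nat_lit 15) (.e (nat_lit 81946) (nat_lit 20) (.e (nat_lit 1802) (nat_lit 119) .nil))))))) (.g (nat_lit 1) (.e (nat_lit 408646) (nat_lit 0) .nil) .nil)))) (.nd (nat_lit 9) 
(.lf (nat_lit 595393) (.g (nat_lit 2700) (.e (nat_lit 516165) (nat_lit 12) (.e (nat_lit 450588) (nat_lit 10) (.e (nat_lit 573475) (nat_lit 12) (.e (nat_lit 57571) (nat_lit 54) (.e (nat_lit 770073) (nat_lit 9) .nil))))) (.g (nat_lit 0) (.e (nat_lit 408306) (nat_lit 0) .nil) .nil))) 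
(.lf (nat_lit 595905) (.g (nat_lit 2295) (.e (nat_lit 548911) (nat_lit 18) (.e (nat_lit 172126) (nat_lit 14) (.e (nat_lit 491537) (nat_lit 2) (.e (nat_lit 90177) (nat_lit 15) .nil)))) (.g (nat_lit 0) (.e (nat_lit 409929) (nat_lit 0) .nil) .nil))))))) (.nd (nat_lit 6) (.nd (nat_lit 7) (.nd (nat_lit 8) (.nd (nat_lit 9) 
(.lf (nat_lit 594977) (.g (nat_lit 1217) (.e (nat_lit 516149) (nat_lit 9) (.e (nat_lit 426323) (nat_lit 13) (.e (nat_lit 483365) (nat_lit 18) (.e (nat_lit 57685) (nat_lit 156) .nil)))) (.g (nat_lit 0) (.e (nat_lit 407573) (nat_lit 0) .nil) .nil))) 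
(.lf (nat_lit 595489) (.g (nat_lit 3228) (.e (nat_lit 516174) (nat_lit 14) (.e (nat_lit 466954) (nat_lit 11) (.e (nat_lit 335986) (nat_lit 1) (.e (nat_lit 57691) (nat_lit 156) (.e (nat_lit 163938) (nat_lit 18) (.e (nat_lit 475177) (nat_lit 24) .nil)))))) (.g (nat_lit 1) (.e (nat_lit 408428) (nat_lit 0) .nil) .nil)))) (.nd (nat_lit 9) 
(.lf (nat_lit 595233) (.g (nat_lit 2771) (.e (nat_lit 516160) (nat_lit 10) (.e (nat_lit 434245) (nat_lit 28) (.e (nat_lit 573488) (nat_lit 14) (.e (nat_lit 73755) (nat_lit 8) (.e (nat_lit 557090) (nat_lit 12) (.e (nat_lit 164003) (nat_lit 40) (.e (nat_lit 655375) (nat_lit 3) (.e (nat_lit 171776) (nat_lit 23) .nil)))))))) (.g (nat_lit 1) (.e (nat_lit 408012) (nat_lit 0) .nil) .nil))) 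
(.lf (nat_lit 595745) (.g (nat_lit 2501) (.e (nat_lit 516195) (nat_lit 26) (.e (nat_lit 335986) (nat_lit 1) (.e (nat_lit 57926) (nat_lit 282) (.e (nat_lit 163941) (nat_lit 19) (.e (nat_lit 483394) (nat_lit 24) (.e (nat_lit 344117) (nat_lit 21) .nil)))))) (.g (nat_lit 1) (.e (nat_lit 408840) (nat_lit 0) .nil) .nil))))) (.nd (nat_lit 8) (.nd (nat_lit 9) 
(.lf (nat_lit 595105) (.g (nat_lit 4144) (.e (nat_lit 516151) (nat_lit 9) (.e (nat_lit 426286) (nat_lit 10) (.e (nat_lit 434248) (nat_lit 28) (.e (nat_lit 573471) (nat_lit 11) (.e (nat_lit 16385) (nat_lit 0) (.e (nat_lit 7581) (nat_lit 405) (.e (nat_lit 57464) (nat_lit 23) .nil))))))) (.g (nat_lit 1) (.e (nat_lit 407723) (nat_lit 0) .nil) .nil))) 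
(.lf (nat_lit 595617) (.g (nat_lit 414) (.e (nat_lit 516180) (nat_lit 15) (.e (nat_lit 475177) (nat_lit 24) (.e (nat_lit 516149) (nat_lit 9) .nil))) (.g (nat_lit 0) (.e (nat_lit 408600) (nat_lit 0) .nil) .nil)))) (.nd (nat_lit 9) 
(.lf (nat_lit 595361) (.g (nat_lit 631) (.e (nat_lit 516162) (nat_lit 11) (.e (nat_lit 442427) (nat_lit 23) (.e (nat_lit 204845) (nat_lit 24) .nil))) (.g (nat_lit 0) (.e (nat_lit 408269) (nat_lit 0) .nil) .nil))) 
(.lf (nat_lit 595873) (.g (nat_lit 2118) (.e (nat_lit 524340) (nat_lit 28) (.e (nat_lit 352324) (nat_lit 26) (.e (nat_lit 147512) (nat_lit 14) (.e (nat_lit 2808) (nat_lit 180) (.e (nat_lit 303140) (nat_lit 10) (.e (nat_lit 434229) (nat_lit 22) .nil)))))) (.g (nat_lit 1) (.e (nat_lit 409350) (nat_lit 0) .nil) .nil)))))) (.nd (nat_lit 7) (.nd (nat_lit 8) (.nd (nat_lit 9) 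
(.lf (nat_lit 595041) (.g (nat_lit 3206) (.e (nat_lit 516151) (nat_lit 9) (.e (nat_lit 426211) (nat_lit 9) (.e (nat_lit 426045) (nat_lit 0) (.e (nat_lit 3297) (nat_lit 202) (.e (nat_lit 573450) (nat_lit 9) (.e (nat_lit 375) (nat_lit 32) (.e (nat_lit 426173) (nat_lit 7) (.e (nat_lit 409616) (nat_lit 10) (.e (nat_lit 7936) (nat_lit 43) .nil))))))))) (.g (nat_lit 1) (.e (nat_lit 407658) (nat_lit 0) .nil) .nil))) 
(.lf (nat_lit 595553) (.g (nat_lit 1940) (.e (nat_lit 516177) (nat_lit 14) (.e (nat_lit 466969) (nat_lit 21) (.e (nat_lit 164179) (nat_lit 154) (.e (nat_lit 57388) (nat_lit 5) .nil)))) (.g (nat_lit 0) (.e (nat_lit 408505) (nat_lit 0) .nil) .nil)))) (.nd (nat_lit 9) 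
(.lf (nat_lit 595297) (.g (nat_lit 3311) (.e (nat_lit 516160) (nat_lit 10) (.e (nat_lit 434248) (nat_lit 28) (.e (nat_lit 573480) (nat_lit 13) (.e (nat_lit 65571) (nat_lit 3) (.e (nat_lit 98313) (nat_lit 9) (.e (nat_lit 336288) (nat_lit 15) (.e (nat_lit 7936) (nat_lit 195) .nil))))))) (.g (nat_lit 1) (.e (nat_lit 408108) (nat_lit 0) .nil) .nil))) 
(.lf (nat_lit 595809) (.g (nat_lit 1322) (.e (nat_lit 524291) (nat_lit 0) (.e (nat_lit 3459) (nat_lit 216) (.e (nat_lit 688139) (nat_lit 5) (.e (nat_lit 3085) (nat_lit 191) (.e (nat_lit 483339) (nat_lit 9) .nil))))) (.g (nat_lit 0) (.e (nat_lit 409056) (nat_lit 0) .nil) .nil))))) (.nd (nat_lit 8) (.nd (nat_lit 9) 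
(.lf (nat_lit 595169) (.g (nat_lit 4404) (.e (nat_lit 516160) (nat_lit 10) (.e (nat_lit 434231) (nat_lit 23) (.e (nat_lit 532514) (nat_lit 3) (.e (nat_lit 114719) (nat_lit 23) (.e (nat_lit 98323) (nat_lit 17) (.e (nat_lit 3397) (nat_lit 211) (.e (nat_lit 647181) (nat_lit 3) (.e (nat_lit 171776) (nat_lit 23) .nil)))))))) (.g (nat_lit 1) (.e (nat_lit 407935) (nat_lit 0) .nil) .nil))) 
(.lf (nat_lit 595681) (.g (nat_lit 994) (.e (nat_lit 516182) (nat_lit 15) (.e (nat_lit 475198) (nat_lit 40) (.e (nat_lit 704589) (nat_lit 3) (.e (nat_lit 163979) (nat_lit 30) .nil)))) (.g (nat_lit 0) (.e (nat_lit 408707) (nat_lit 0) .nil) .nil)))) (.nd (nat_lit 9) 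
(.lf (nat_lit 595425) (.g (nat_lit 4816) (.e (nat_lit 516166) (nat_lit 12) (.e (nat_lit 450587) (nat_lit 10) (.e (nat_lit 573478) (nat_lit 12) (.e (nat_lit 57574) (nat_lit 55) (.e (nat_lit 778454) (nat_lit 10) (.e (nat_lit 8543) (nat_lit 229) (.e (nat_lit 229497) (nat_lit 84) .nil))))))) (.g (nat_lit 1) (.e (nat_lit 408340) (nat_lit 0) .nil) .nil))) 
(.lf (nat_lit 595937) (.g (nat_lit 5049) (.e (nat_lit 548913) (nat_lit 18) (.e (nat_lit 172120) (nat_lit 12) (.e (nat_lit 475183) (nat_lit 29) (.e (nat_lit 557109) (nat_lit 15) (.e (nat_lit 188434) (nat_lit 20) (.e (nat_lit 3272) (nat_lit 199) .nil)))))) (.g (nat_lit 1) (.e (nat_lit 410280) (nat_lit 0) .nil) .nil)))))))) 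
(.nd (nat_lit 5) (.nd (nat_lit 6) (.nd (nat_lit 7) (.nd (nat_lit 8) (.nd (nat_lit 9) 
(.lf (nat_lit 594961) (.g (nat_lit 1532) (.e (nat_lit 516149) (nat_lit 9) (.e (nat_lit 426131) (nat_lit 3) (.e (nat_lit 204837) (nat_lit 20) (.e (nat_lit 114689) (nat_lit 0) .nil)))) (.g (nat_lit 0) (.e (nat_lit 407544) (nat_lit 0) .nil) .nil))) 
(.lf (nat_lit 595473) (.g (nat_lit 1755) (.e (nat_lit 516174) (nat_lit 14) (.e (nat_lit 466954) (nat_lit 11) (.e (nat_lit 335986) (nat_lit 1) (.e (nat_lit 57652) (nat_lit 152) .nil)))) (.g (nat_lit 0) (.e (nat_lit 408408) (nat_lit 0) .nil) .nil)))) (.nd (nat_lit 9) 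
(.lf (nat_lit 595217) (.g (nat_lit 2980) (.e (nat_lit 516160) (nat_lit 10) (.e (nat_lit 434245) (nat_lit 28) (.e (nat_lit 573487) (nat_lit 14) (.e (nat_lit 73747) (nat_lit 3) (.e (nat_lit 516195) (nat_lit 26) (.e (nat_lit 336271) (nat_lit 15) (.e (nat_lit 7936) (nat_lit 195) .nil))))))) (.g (nat_lit 1) (.e (nat_lit 407992) (nat_lit 0) .nil) .nil))) 
(.lf (nat_lit 595729) (.g (nat_lit 1029) (.e (nat_lit 524032) (nat_lit 18) (.e (nat_lit 57926) (nat_lit 282) (.e (nat_lit 163886) (nat_lit 5) (.e (nat_lit 221212) (nat_lit 22) .nil)))) (.g (nat_lit 0) (.e (nat_lit 408800) (nat_lit 0) .nil) .nil))))) (.nd (nat_lit 8) (.nd (nat_lit 9) 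
(.lf (nat_lit 595089) (.g (nat_lit 4247) (.e (nat_lit 516151) (nat_lit 9) (.e (nat_lit 426286) (nat_lit 10) (.e (nat_lit 434245) (nat_lit 28) (.e (nat_lit 573471) (nat_lit 11) (.e (nat_lit 16425) (nat_lit 7) (.e (nat_lit 409617) (nat_lit 10) (.e (nat_lit 7936) (nat_lit 43) .nil))))))) (.g (nat_lit 1) (.e (nat_lit 407707) (nat_lit 0) .nil) .nil))) 
(.lf (nat_lit 595601) (.g (nat_lit 1103) (.e (nat_lit 516179) (nat_lit 15) (.e (nat_lit 475198) (nat_lit 40) (.e (nat_lit 704589) (nat_lit 3) (.e (nat_lit 163976) (nat_lit 30) .nil)))) (.g (nat_lit 0) (.e (nat_lit 408565) (nat_lit 0) .nil) .nil)))) (.nd (nat_lit 9) 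
(.lf (nat_lit 595345) (.g (nat_lit 1689) (.e (nat_lit 516160) (nat_lit 10) (.e (nat_lit 434248) (nat_lit 28) (.e (nat_lit 573489) (nat_lit 14) (.e (nat_lit 73748) (nat_lit 3) .nil)))) (.g (nat_lit 0) (.e (nat_lit 408173) (nat_lit 0) .nil) .nil))) 
(.lf (nat_lit 595857) (.g (nat_lit 3339) (.e (nat_lit 524322) (nat_lit 12) (.e (nat_lit 450588) (nat_lit 10) (.e (nat_lit 573450) (nat_lit 9) (.e (nat_lit 375) (nat_lit 32) (.e (nat_lit 426173) (nat_lit 7) (.e (nat_lit 409617) (nat_lit 10) (.e (nat_lit 588) (nat_lit 44) .nil))))))) (.g (nat_lit 1) (.e (nat_lit 409285) (nat_lit 0) .nil) .nil)))))) (.nd (nat_lit 7) (.nd (nat_lit 8) (.nd (nat_lit 9) 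
(.lf (nat_lit 595025) (.g (nat_lit 4377) (.e (nat_lit 516151) (nat_lit 9) (.e (nat_lit 426043) (nat_lit 0) (.e (nat_lit 3408) (nat_lit 212) (.e (nat_lit 655373) (nat_lit 3) (.e (nat_lit 163979) (nat_lit 30) (.e (nat_lit 573482) (nat_lit 13) (.e (nat_lit 65619) (nat_lit 10) (.e (nat_lit 344117) (nat_lit 21) .nil)))))))) (.g (nat_lit 1) (.e (nat_lit 407635) (nat_lit 0) .nil) .nil))) 
(.lf (nat_lit 595537) (.g (nat_lit 1694) (.e (nat_lit 516176) (nat_lit 14) (.e (nat_lit 466954) (nat_lit 11) (.e (nat_lit 335986) (nat_lit 1) (.e (nat_lit 57694) (nat_lit 157) (.e (nat_lit 229419) (nat_lit 18) .nil))))) (.g (nat_lit 0) (.e (nat_lit 408485) (nat_lit 0) .nil) .nil)))) (.nd (nat_lit 9) 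
(.lf (nat_lit 595281) (.g (nat_lit 2133) (.e (nat_lit 516160) (nat_lit 10) (.e (nat_lit 434247) (nat_lit 28) (.e (nat_lit 573485) (nat_lit 13) (.e (nat_lit 65568) (nat_lit 2) (.e (nat_lit 90157) (nat_lit 11) (.e (nat_lit 24671) (nat_lit 15) (.e (nat_lit 7936) (nat_lit 195) .nil))))))) (.g (nat_lit 1) (.e (nat_lit 408080) (nat_lit 0) .nil) .nil))) 
(.lf (nat_lit 595793) (.g (nat_lit 741) (.e (nat_lit 516199) (nat_lit 26) (.e (nat_lit 335996) (nat_lit 1) (.e (nat_lit 57929) (nat_lit 282) .nil))) (.g (nat_lit 0) (.e (nat_lit 408994) (nat_lit 0) .nil) .nil))))) (.nd (nat_lit 8) (.nd (nat_lit 9) 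
(.lf (nat_lit 595153) (.g (nat_lit 982) (.e (nat_lit 516159) (nat_lit 10) (.e (nat_lit 434245) (nat_lit 28) (.e (nat_lit 573488) (nat_lit 14) (.e (nat_lit 81664) (nat_lit 5) .nil)))) (.g (nat_lit 0) (.e (nat_lit 407854) (nat_lit 0) .nil) .nil))) 
(.lf (nat_lit 595665) (.g (nat_lit 2480) (.e (nat_lit 516182) (nat_lit 15) (.e (nat_lit 475177) (nat_lit 24) (.e (nat_lit 516181) (nat_lit 15) (.e (nat_lit 475176) (nat_lit 24) (.e (nat_lit 516179) (nat_lit 15) (.e (nat_lit 475177) (nat_lit 24) .nil)))))) (.g (nat_lit 1) (.e (nat_lit 408677) (nat_lit 0) .nil) .nil)))) (.nd (nat_lit 9) 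
(.lf (nat_lit 595409) (.g (nat_lit 2508) (.e (nat_lit 516166) (nat_lit 12) (.e (nat_lit 450587) (nat_lit 10) (.e (nat_lit 573457) (nat_lit 9) (.e (nat_lit 430) (nat_lit 32) (.e (nat_lit 426344) (nat_lit 14) (.e (nat_lit 491526) (nat_lit 0) (.e (nat_lit 7936) (nat_lit 119) .nil))))))) (.g (nat_lit 1) (.e (nat_lit 408324) (nat_lit 0) .nil) .nil))) 
(.lf (nat_lit 595921) (.g (nat_lit 1988) (.e (nat_lit 548912) (nat_lit 18) (.e (nat_lit 172126) (nat_lit 14) (.e (nat_lit 491540) (nat_lit 3) (.e (nat_lit 98358) (nat_lit 26) (.e (nat_lit 426294) (nat_lit 11) .nil))))) (.g (nat_lit 0) (.e (nat_lit 409959) (nat_lit 0) .nil) .nil))))))) (.nd (nat_lit 6) (.nd (nat_lit 7) (.nd (nat_lit 8) (.nd (nat_lit 9) 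
(.lf (nat_lit 594993) (.g (nat_lit 1744) (.e (nat_lit 516150) (nat_lit 9) (.e (nat_lit 426323) (nat_lit 13) (.e (nat_lit 483363) (nat_lit 18) (.e (nat_lit 57690) (nat_lit 156) .nil)))) (.g (nat_lit 0) (.e (nat_lit 407598) (nat_lit 0) .nil) .nil))) 
(.lf (nat_lit 595505) (.g (nat_lit 2468) (.e (nat_lit 516174) (nat_lit 14) (.e (nat_lit 466954) (nat_lit 11) (.e (nat_lit 335994) (nat_lit 1) (.e (nat_lit 57692) (nat_lit 156) (.e (nat_lit 163938) (nat_lit 18) (.e (nat_lit 475177) (nat_lit 24) .nil)))))) (.g (nat_lit 1) (.e (nat_lit 408445) (nat_lit 0) .nil) .nil)))) (.nd (nat_lit 9) 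
(.lf (nat_lit 595249) (.g (nat_lit 3766) (.e (nat_lit 516160) (nat_lit 10) (.e (nat_lit 434246) (nat_lit 28) (.e (nat_lit 573487) (nat_lit 14) (.e (nat_lit 73747) (nat_lit 3) (.e (nat_lit 516195) (nat_lit 26) (.e (nat_lit 336288) (nat_lit 15) (.e (nat_lit 7936) (nat_lit 195) .nil))))))) (.g (nat_lit 1) (.e (nat_lit 408031) (nat_lit 0) .nil) .nil))) 
(.lf (nat_lit 595761) (.g (nat_lit 1164) (.e (nat_lit 516195) (nat_lit 26) (.e (nat_lit 335988) (nat_lit 1) (.e (nat_lit 57930) (nat_lit 282) .nil))) (.g (nat_lit 0) (.e (nat_lit 408873) (nat_lit 0) .nil) .nil))))) (.nd (nat_lit 8) (.nd (nat_lit 9) 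
(.lf (nat_lit 595121) (.g (nat_lit 2992) (.e (nat_lit 516154) (nat_lit 9) (.e (nat_lit 426286) (nat_lit 10) (.e (nat_lit 434245) (nat_lit 28) (.e (nat_lit 573471) (nat_lit 11) (.e (nat_lit 16425) (nat_lit 7) (.e (nat_lit 409617) (nat_lit 10) (.e (nat_lit 7936) (nat_lit 43) .nil))))))) (.g (nat_lit 1) (.e (nat_lit 407746) (nat_lit 0) .nil) .nil))) 
(.lf (nat_lit 595633) (.g (nat_lit 1302) (.e (nat_lit 516181) (nat_lit 15) (.e (nat_lit 475177) (nat_lit 24) (.e (nat_lit 516146) (nat_lit 9) (.e (nat_lit 426438) (nat_lit 18) .nil)))) (.g (nat_lit 0) (.e (nat_lit 408622) (nat_lit 0) .nil) .nil)))) (.nd (nat_lit 9) 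
(.lf (nat_lit 595377) (.g (nat_lit 613) (.e (nat_lit 516163) (nat_lit 11) (.e (nat_lit 442430) (nat_lit 24) (.e (nat_lit 237312) (nat_lit 134) .nil))) (.g (nat_lit 0) (.e (nat_lit 408285) (nat_lit 0) .nil) .nil))) 
(.lf (nat_lit 595889) (.g (nat_lit 2174) (.e (nat_lit 548907) (nat_lit 16) (.e (nat_lit 24657) (nat_lit 13) (.e (nat_lit 393253) (nat_lit 18) (.e (nat_lit 164178) (nat_lit 154) (.e (nat_lit 57421) (nat_lit 13) .nil))))) (.g (nat_lit 0) (.e (nat_lit 409893) (nat_lit 0) .nil) .nil)))))) (.nd (nat_lit 7) (.nd (nat_lit 8) (.nd (nat_lit 9) 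
(.lf (nat_lit 595057) (.g (nat_lit 4841) (.e (nat_lit 516151) (nat_lit 9) (.e (nat_lit 426285) (nat_lit 10) (.e (nat_lit 434243) (nat_lit 28) (.e (nat_lit 573471) (nat_lit 11) (.e (nat_lit 16425) (nat_lit 7) (.e (nat_lit 409616) (nat_lit 10) (.e (nat_lit 7936) (nat_lit 43) .nil))))))) (.g (nat_lit 1) (.e (nat_lit 407674) (nat_lit 0) .nil) .nil))) 
(.lf (nat_lit 595569) (.g (nat_lit 2830) (.e (nat_lit 516179) (nat_lit 15) (.e (nat_lit 475169) (nat_lit 22) (.e (nat_lit 499925) (nat_lit 10) (.e (nat_lit 180250) (nat_lit 10) (.e (nat_lit 573484) (nat_lit 13) (.e (nat_lit 65642) (nat_lit 15) (.e (nat_lit 7936) (nat_lit 195) .nil))))))) (.g (nat_lit 1) (.e (nat_lit 408527) (nat_lit 0) .nil) .nil)))) (.nd (nat_lit 9) 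
(.lf (nat_lit 595313) (.g (nat_lit 2708) (.e (nat_lit 516160) (nat_lit 10) (.e (nat_lit 434248) (nat_lit 28) (.e (nat_lit 573482) (nat_lit 13) (.e (nat_lit 65568) (nat_lit 2) (.e (nat_lit 90156) (nat_lit 11) (.e (nat_lit 24671) (nat_lit 15) (.e (nat_lit 7936) (nat_lit 195) .nil))))))) (.g (nat_lit 1) (.e (nat_lit 408131) (nat_lit 0) .nil) .nil))) 
(.lf (nat_lit 595825) (.g (nat_lit 2865) (.e (nat_lit 524319) (nat_lit 11) (.e (nat_lit 442427) (nat_lit 23) (.e (nat_lit 204863) (nat_lit 27) (.e (nat_lit 344156) (nat_lit 36) (.e (nat_lit 638996) (nat_lit 7) (.e (nat_lit 163959) (nat_lit 24) .nil)))))) (.g (nat_lit 1) (.e (nat_lit 409238) (nat_lit 0) .nil) .nil))))) (.nd (nat_lit 8) (.nd (nat_lit 9) 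
(.lf (nat_lit 595185) (.g (nat_lit 3179) (.e (nat_lit 516160) (nat_lit 10) (.e (nat_lit 434244) (nat_lit 28) (.e (nat_lit 573481) (nat_lit 13) (.e (nat_lit 65570) (nat_lit 3) (.e (nat_lit 98317) (nat_lit 9) (.e (nat_lit 336288) (nat_lit 15) (.e (nat_lit 7936) (nat_lit 195) .nil))))))) (.g (nat_lit 1) (.e (nat_lit 407952) (nat_lit 0) .nil) .nil))) 
(.lf (nat_lit 595697) (.g (nat_lit 3529) (.e (nat_lit 516182) (nat_lit 15) (.e (nat_lit 475199) (nat_lit 40) (.e (nat_lit 704589) (nat_lit 3) (.e (nat_lit 163978) (nat_lit 30) (.e (nat_lit 573491) (nat_lit 15) (.e (nat_lit 89856) (nat_lit 20) (.e (nat_lit 1784) (nat_lit 119) .nil))))))) (.g (nat_lit 1) (.e (nat_lit 408742) (nat_lit 0) .nil) .nil)))) (.nd (nat_lit 9) 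
(.lf (nat_lit 595441) (.g (nat_lit 4311) (.e (nat_lit 516166) (nat_lit 12) (.e (nat_lit 450588) (nat_lit 10) (.e (nat_lit 573451) (nat_lit 9) (.e (nat_lit 365) (nat_lit 31) (.e (nat_lit 417796) (nat_lit 0) (.e (nat_lit 5395) (nat_lit 301) (.e (nat_lit 57464) (nat_lit 23) .nil))))))) (.g (nat_lit 1) (.e (nat_lit 408356) (nat_lit 0) .nil) .nil))) 
(.lf (nat_lit 595953) (.g (nat_lit 1065) (.e (nat_lit 548913) (nat_lit 18) (.e (nat_lit 172124) (nat_lit 14) (.e (nat_lit 491539) (nat_lit 3) (.e (nat_lit 98358) (nat_lit 26) .nil)))) (.g (nat_lit 0) (.e (nat_lit 410299) (nat_lit 0) .nil) .nil))))))))) (.nd (nat_lit 4) (.nd (nat_lit 5) (.nd (nat_lit 6) (.nd (nat_lit 7) (.nd (nat_lit 8) (.nd (nat_lit 9) 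
(.lf (nat_lit 594953) (.g (nat_lit 809) (.e (nat_lit 516148) (nat_lit 9) (.e (nat_lit 426436) (nat_lit 18) (.e (nat_lit 98383) (nat_lit 32) .nil))) (.g (nat_lit 0) (.e (nat_lit 407535) (nat_lit 0) .nil) .nil))) 
(.lf (nat_lit 595465) (.g (nat_lit 2828) (.e (nat_lit 516166) (nat_lit 12) (.e (nat_lit 458496) (nat_lit 10) (.e (nat_lit 573450) (nat_lit 9) (.e (nat_lit 375) (nat_lit 32) (.e (nat_lit 426173) (nat_lit 7) (.e (nat_lit 409616) (nat_lit 10) (.e (nat_lit 7936) (nat_lit 43) .nil))))))) (.g (nat_lit 1) (.e (nat_lit 408380) (nat_lit 0) .nil) .nil)))) (.nd (nat_lit 9) 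
(.lf (nat_lit 595209) (.g (nat_lit 3155) (.e (nat_lit 516160) (nat_lit 10) (.e (nat_lit 434245) (nat_lit 28) (.e (nat_lit 573481) (nat_lit 13) (.e (nat_lit 65567) (nat_lit 2) (.e (nat_lit 90160) (nat_lit 11) (.e (nat_lit 24671) (nat_lit 15) (.e (nat_lit 7936) (nat_lit 195) .nil))))))) (.g (nat_lit 1) (.e (nat_lit 407981) (nat_lit 0) .nil) .nil))) 
(.lf (nat_lit 595721) (.g (nat_lit 3557) (.e (nat_lit 516185) (nat_lit 16) (.e (nat_lit 491556) (nat_lit 9) (.e (nat_lit 336305) (nat_lit 15) (.e (nat_lit 3308) (nat_lit 202) (.e (nat_lit 573482) (nat_lit 13) (.e (nat_lit 65619) (nat_lit 10) (.e (nat_lit 344117) (nat_lit 21) .nil))))))) (.g (nat_lit 1) (.e (nat_lit 408777) (nat_lit 0) .nil) .nil))))) (.nd (nat_lit 8) (.nd (nat_lit 9) 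
(.lf (nat_lit 595081) (.g (nat_lit 3464) (.e (nat_lit 516151) (nat_lit 9) (.e (nat_lit 426286) (nat_lit 10) (.e (nat_lit 434245) (nat_lit 28) (.e (nat_lit 573470) (nat_lit 11) (.e (nat_lit 16387) (nat_lit 0) (.e (nat_lit 7581) (nat_lit 405) (.e (nat_lit 57464) (nat_lit 23) .nil))))))) (.g (nat_lit 1) (.e (nat_lit 407699) (nat_lit 0) .nil) .nil))) 
(.lf (nat_lit 595593) (.g (nat_lit 1196) (.e (nat_lit 516179) (nat_lit 15) (.e (nat_lit 475179) (nat_lit 24) (.e (nat_lit 516149) (nat_lit 9) (.e (nat_lit 426436) (nat_lit 18) .nil)))) (.g (nat_lit 0) (.e (nat_lit 408556) (nat_lit 0) .nil) .nil)))) (.nd (nat_lit 9) 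
(.lf (nat_lit 595337) (.g (nat_lit 3877) (.e (nat_lit 516160) (nat_lit 10) (.e (nat_lit 434248) (nat_lit 28) (.e (nat_lit 573487) (nat_lit 14) (.e (nat_lit 73747) (nat_lit 3) (.e (nat_lit 516195) (nat_lit 26) (.e (nat_lit 336278) (nat_lit 15) (.e (nat_lit 7936) (nat_lit 195) .nil))))))) (.g (nat_lit 1) (.e (nat_lit 408161) (nat_lit 0) .nil) .nil))) 
(.lf (nat_lit 595849) (.g (nat_lit 2554) (.e (nat_lit 524322) (nat_lit 12) (.e (nat_lit 450587) (nat_lit 10) (.e (nat_lit 573477) (nat_lit 12) (.e (nat_lit 57575) (nat_lit 55) (.e (nat_lit 778464) (nat_lit 11) .nil))))) (.g (nat_lit 0) (.e (nat_lit 409277) (nat_lit 0) .nil) .nil)))))) (.nd (nat_lit 7) (.nd (nat_lit 8) (.nd (nat_lit 9) 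
(.lf (nat_lit 595017) (.g (nat_lit 4534) (.e (nat_lit 516151) (nat_lit 9) (.e (nat_lit 426043) (nat_lit 0) (.e (nat_lit 3406) (nat_lit 212) (.e (nat_lit 655373) (nat_lit 3) (.e (nat_lit 163979) (nat_lit 30) (.e (nat_lit 573482) (nat_lit 13) (.e (nat_lit 65619) (nat_lit 10) (.e (nat_lit 344117) (nat_lit 21) .nil)))))))) (.g (nat_lit 1) (.e (nat_lit 407627) (nat_lit 0) .nil) .nil))) 
(.lf (nat_lit 595529) (.g (nat_lit 2065) (.e (nat_lit 516176) (nat_lit 14) (.e (nat_lit 466954) (nat_lit 11) (.e (nat_lit 335986) (nat_lit 1) (.e (nat_lit 57666) (nat_lit 152) .nil)))) (.g (nat_lit 0) (.e (nat_lit 408474) (nat_lit 0) .nil) .nil)))) (.nd (nat_lit 9) 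
(.lf (nat_lit 595273) (.g (nat_lit 2515) (.e (nat_lit 516160) (nat_lit 10) (.e (nat_lit 434247) (nat_lit 28) (.e (nat_lit 573484) (nat_lit 13) (.e (nat_lit 65642) (nat_lit 15) (.e (nat_lit 3253) (nat_lit 197) .nil))))) (.g (nat_lit 0) (.e (nat_lit 408065) (nat_lit 0) .nil) .nil))) 
(.lf (nat_lit 595785) (.g (nat_lit 2507) (.e (nat_lit 516198) (nat_lit 26) (.e (nat_lit 335995) (nat_lit 1) (.e (nat_lit 57931) (nat_lit 282) (.e (nat_lit 163943) (nat_lit 19) (.e (nat_lit 483399) (nat_lit 25) .nil))))) (.g (nat_lit 0) (.e (nat_lit 408981) (nat_lit 0) .nil) .nil))))) (.nd (nat_lit 8) (.nd (nat_lit 9) 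
(.lf (nat_lit 595145) (.g (nat_lit 1853) (.e (nat_lit 516159) (nat_lit 10) (.e (nat_lit 434244) (nat_lit 28) (.e (nat_lit 573481) (nat_lit 13) (.e (nat_lit 73472) (nat_lit 18) .nil)))) (.g (nat_lit 0) (.e (nat_lit 407821) (nat_lit 0) .nil) .nil))) 
(.lf (nat_lit 595657) (.g (nat_lit 2463) (.e (nat_lit 516182) (nat_lit 15) (.e (nat_lit 475177) (nat_lit 24) (.e (nat_lit 516147) (nat_lit 9) (.e (nat_lit 426436) (nat_lit 18) (.e (nat_lit 98384) (nat_lit 32) (.e (nat_lit 475177) (nat_lit 24) .nil)))))) (.g (nat_lit 1) (.e (nat_lit 408666) (nat_lit 0) .nil) .nil)))) (.nd (nat_lit 9) 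
(.lf (nat_lit 595401) (.g (nat_lit 6338) (.e (nat_lit 516166) (nat_lit 12) (.e (nat_lit 450587) (nat_lit 10) (.e (nat_lit 573450) (nat_lit 9) (.e (nat_lit 375) (nat_lit 32) (.e (nat_lit 426173) (nat_lit 7) (.e (nat_lit 409617) (nat_lit 10) (.e (nat_lit 7936) (nat_lit 43) .nil))))))) (.g (nat_lit 1) (.e (nat_lit 408316) (nat_lit 0) .nil) .nil))) 
(.lf (nat_lit 595913) (.g (nat_lit 1967) (.e (nat_lit 548912) (nat_lit 18) (.e (nat_lit 172120) (nat_lit 12) (.e (nat_lit 475185) (nat_lit 29) (.e (nat_lit 557107) (nat_lit 15) .nil)))) (.g (nat_lit 0) (.e (nat_lit 409951) (nat_lit 0) .nil) .nil))))))) (.nd (nat_lit 6) (.nd (nat_lit 7) (.nd (nat_lit 8) (.nd (nat_lit 9) 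
(.lf (nat_lit 594985) (.g (nat_lit 668) (.e (nat_lit 516150) (nat_lit 9) (.e (nat_lit 426131) (nat_lit 3) (.e (nat_lit 204837) (nat_lit 20) .nil))) (.g (nat_lit 0) (.e (nat_lit 407585) (nat_lit 0) .nil) .nil))) 
(.lf (nat_lit 595497) (.g (nat_lit 1701) (.e (nat_lit 516174) (nat_lit 14) (.e (nat_lit 466954) (nat_lit 11) (.e (nat_lit 335988) (nat_lit 1) (.e (nat_lit 57685) (nat_lit 156) (.e (nat_lit 163939) (nat_lit 18) .nil))))) (.g (nat_lit 0) (.e (nat_lit 408437) (nat_lit 0) .nil) .nil)))) (.nd (nat_lit 9) 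
(.lf (nat_lit 595241) (.g (nat_lit 2796) (.e (nat_lit 516160) (nat_lit 10) (.e (nat_lit 434246) (nat_lit 28) (.e (nat_lit 573484) (nat_lit 13) (.e (nat_lit 65566) (nat_lit 2) (.e (nat_lit 90157) (nat_lit 11) (.e (nat_lit 24671) (nat_lit 15) (.e (nat_lit 7936) (nat_lit 195) .nil))))))) (.g (nat_lit 1) (.e (nat_lit 408023) (nat_lit 0) .nil) .nil))) 
(.lf (nat_lit 595753) (.g (nat_lit 3741) (.e (nat_lit 516195) (nat_lit 26) (.e (nat_lit 335988) (nat_lit 1) (.e (nat_lit 57926) (nat_lit 282) (.e (nat_lit 163905) (nat_lit 12) (.e (nat_lit 426544) (nat_lit 30) (.e (nat_lit 360467) (nat_lit 3) .nil)))))) (.g (nat_lit 1) (.e (nat_lit 408855) (nat_lit 0) .nil) .nil))))) (.nd (nat_lit 8) (.nd (nat_lit 9) 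
(.lf (nat_lit 595113) (.g (nat_lit 2555) (.e (nat_lit 516151) (nat_lit 9) (.e (nat_lit 426338) (nat_lit 14) (.e (nat_lit 491537) (nat_lit 2) (.e (nat_lit 90128) (nat_lit 9) (.e (nat_lit 3031) (nat_lit 188) .nil))))) (.g (nat_lit 0) (.e (nat_lit 407731) (nat_lit 0) .nil) .nil))) 
(.lf (nat_lit 595625) (.g (nat_lit 940) (.e (nat_lit 516180) (nat_lit 15) (.e (nat_lit 475179) (nat_lit 24) (.e (nat_lit 516146) (nat_lit 9) .nil))) (.g (nat_lit 0) (.e (nat_lit 408610) (nat_lit 0) .nil) .nil)))) (.nd (nat_lit 9) 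
(.lf (nat_lit 595369) (.g (nat_lit 3285) (.e (nat_lit 516163) (nat_lit 11) (.e (nat_lit 442414) (nat_lit 20) (.e (nat_lit 3308) (nat_lit 202) (.e (nat_lit 573450) (nat_lit 9) (.e (nat_lit 375) (nat_lit 32) (.e (nat_lit 426173) (nat_lit 7) (.e (nat_lit 409616) (nat_lit 10) (.e (nat_lit 7936) (nat_lit 43) .nil)))))))) (.g (nat_lit 1) (.e (nat_lit 408277) (nat_lit 0) .nil) .nil))) 
(.lf (nat_lit 595881) (.g (nat_lit 1200) (.e (nat_lit 548897) (nat_lit 14) (.e (nat_lit 2828) (nat_lit 182) (.e (nat_lit 409649) (nat_lit 18) (.e (nat_lit 311040) (nat_lit 34) .nil)))) (.g (nat_lit 0) (.e (nat_lit 409413) (nat_lit 0) .nil) .nil)))))) (.nd (nat_lit 7) (.nd (nat_lit 8) (.nd (nat_lit 9) 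
(.lf (nat_lit 595049) (.g (nat_lit 4998) (.e (nat_lit 516151) (nat_lit 9) (.e (nat_lit 426211) (nat_lit 9) (.e (nat_lit 426125) (nat_lit 2) (.e (nat_lit 196666) (nat_lit 13) (.e (nat_lit 65572) (nat_lit 4) .nil))))) (.g (nat_lit 0) (.e (nat_lit 407666) (nat_lit 0) .nil) .nil))) 
(.lf (nat_lit 595561) (.g (nat_lit 3070) (.e (nat_lit 516178) (nat_lit 15) (.e (nat_lit 475179) (nat_lit 24) (.e (nat_lit 516146) (nat_lit 9) (.e (nat_lit 426438) (nat_lit 18) (.e (nat_lit 98386) (nat_lit 32) (.e (nat_lit 475177) (nat_lit 24) .nil)))))) (.g (nat_lit 1) (.e (nat_lit 408516) (nat_lit 0) .nil) .nil)))) (.nd (nat_lit 9) 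
(.lf (nat_lit 595305) (.g (nat_lit 2447) (.e (nat_lit 516160) (nat_lit 10) (.e (nat_lit 434248) (nat_lit 28) (.e (nat_lit 573482) (nat_lit 13) (.e (nat_lit 65566) (nat_lit 2) (.e (nat_lit 90157) (nat_lit 11) (.e (nat_lit 24673) (nat_lit 15) (.e (nat_lit 7936) (nat_lit 195) .nil))))))) (.g (nat_lit 1) (.e (nat_lit 408118) (nat_lit 0) .nil) .nil))) 
(.lf (nat_lit 595817) (.g (nat_lit 1570) (.e (nat_lit 524319) (nat_lit 11) (.e (nat_lit 450304) (nat_lit 18) (.e (nat_lit 393253) (nat_lit 18) (.e (nat_lit 164347) (nat_lit 240) (.e (nat_lit 2601) (nat_lit 163) (.e (nat_lit 163959) (nat_lit 24) .nil)))))) (.g (nat_lit 1) (.e (nat_lit 409224) (nat_lit 0) .nil) .nil))))) (.nd (nat_lit 8) (.nd (nat_lit 9) 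
(.lf (nat_lit 595177) (.g (nat_lit 2066) (.e (nat_lit 516160) (nat_lit 10) (.e (nat_lit 434244) (nat_lit 28) (.e (nat_lit 573481) (nat_lit 13) (.e (nat_lit 65567) (nat_lit 2) (.e (nat_lit 90160) (nat_lit 11) (.e (nat_lit 24668) (nat_lit 15) (.e (nat_lit 7936) (nat_lit 195) .nil))))))) (.g (nat_lit 1) (.e (nat_lit 407943) (nat_lit 0) .nil) .nil))) 
(.lf (nat_lit 595689) (.g (nat_lit 3542) (.e (nat_lit 516182) (nat_lit 15) (.e (nat_lit 475199) (nat_lit 40) (.e (nat_lit 704589) (nat_lit 3) (.e (nat_lit 163975) (nat_lit 30) (.e (nat_lit 573491) (nat_lit 15) (.e (nat_lit 81946) (nat_lit 20) (.e (nat_lit 1802) (nat_lit 119) .nil))))))) (.g (nat_lit 1) (.e (nat_lit 408721) (nat_lit 0) .nil) .nil)))) (.nd (nat_lit 9) 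
(.lf (nat_lit 595433) (.g (nat_lit 3834) (.e (nat_lit 516166) (nat_lit 12) (.e (nat_lit 450588) (nat_lit 10) (.e (nat_lit 573449) (nat_lit 9) (.e (nat_lit 375) (nat_lit 32) (.e (nat_lit 426173) (nat_lit 7) (.e (nat_lit 409617) (nat_lit 10) (.e (nat_lit 7936) (nat_lit 43) .nil))))))) (.g (nat_lit 1) (.e (nat_lit 408348) (nat_lit 0) .nil) .nil))) 
(.lf (nat_lit 595945) (.g (nat_lit 2618) (.e (nat_lit 548913) (nat_lit 18) (.e (nat_lit 172124) (nat_lit 14) (.e (nat_lit 491536) (nat_lit 2) (.e (nat_lit 90178) (nat_lit 15) (.e (nat_lit 188441) (nat_lit 20) (.e (nat_lit 3271) (nat_lit 199) .nil)))))) (.g (nat_lit 1) (.e (nat_lit 410290) (nat_lit 0) .nil) .nil)))))))) 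
(.nd (nat_lit 5) (.nd (nat_lit 6) (.nd (nat_lit 7) (.nd (nat_lit 8) (.nd (nat_lit 9) 
(.lf (nat_lit 594969) (.g (nat_lit 2709) (.e (nat_lit 516149) (nat_lit 9) (.e (nat_lit 426323) (nat_lit 13) (.e (nat_lit 483363) (nat_lit 18) (.e (nat_lit 57688) (nat_lit 156) (.e (nat_lit 163936) (nat_lit 18) (.e (nat_lit 475177) (nat_lit 24) .nil)))))) (.g (nat_lit 1) (.e (nat_lit 407561) (nat_lit 0) .nil) .nil))) 
(.lf (nat_lit 595481) (.g (nat_lit 1997) (.e (nat_lit 516174) (nat_lit 14) (.e (nat_lit 466954) (nat_lit 11) (.e (nat_lit 335986) (nat_lit 1) (.e (nat_lit 57685) (nat_lit 156) .nil)))) (.g (nat_lit 0) (.e (nat_lit 408420) (nat_lit 0) .nil) .nil)))) (.nd (nat_lit 9) 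
(.lf (nat_lit 595225) (.g (nat_lit 2347) (.e (nat_lit 516160) (nat_lit 10) (.e (nat_lit 434245) (nat_lit 28) (.e (nat_lit 573488) (nat_lit 14) (.e (nat_lit 73747) (nat_lit 3) (.e (nat_lit 516195) (nat_lit 26) (.e (nat_lit 336271) (nat_lit 15) (.e (nat_lit 7936) (nat_lit 195) .nil))))))) (.g (nat_lit 1) (.e (nat_lit 408000) (nat_lit 0) .nil) .nil))) 
(.lf (nat_lit 595737) (.g (nat_lit 957) (.e (nat_lit 516194) (nat_lit 26) (.e (nat_lit 335995) (nat_lit 1) (.e (nat_lit 57931) (nat_lit 282) .nil))) (.g (nat_lit 0) (.e (nat_lit 408826) (nat_lit 0) .nil) .nil))))) (.nd (nat_lit 8) (.nd (nat_lit 9) 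
(.lf (nat_lit 595097) (.g (nat_lit 3865) (.e (nat_lit 516151) (nat_lit 9) (.e (nat_lit 426286) (nat_lit 10) (.e (nat_lit 434248) (nat_lit 28) (.e (nat_lit 573452) (nat_lit 9) (.e (nat_lit 430) (nat_lit 32) (.e (nat_lit 426009) (nat_lit 0) (.e (nat_lit 7581) (nat_lit 405) (.e (nat_lit 57464) (nat_lit 23) .nil)))))))) (.g (nat_lit 1) (.e (nat_lit 407715) (nat_lit 0) .nil) .nil))) 
(.lf (nat_lit 595609) (.g (nat_lit 2403) (.e (nat_lit 516179) (nat_lit 15) (.e (nat_lit 475199) (nat_lit 40) (.e (nat_lit 704589) (nat_lit 3) (.e (nat_lit 163976) (nat_lit 30) (.e (nat_lit 573491) (nat_lit 15) (.e (nat_lit 89856) (nat_lit 20) (.e (nat_lit 1784) (nat_lit 119) .nil))))))) (.g (nat_lit 1) (.e (nat_lit 408575) (nat_lit 0) .nil) .nil)))) (.nd (nat_lit 9) 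
(.lf (nat_lit 595353) (.g (nat_lit 2874) (.e (nat_lit 516160) (nat_lit 10) (.e (nat_lit 434248) (nat_lit 28) (.e (nat_lit 573489) (nat_lit 14) (.e (nat_lit 73755) (nat_lit 8) (.e (nat_lit 557091) (nat_lit 12) (.e (nat_lit 164003) (nat_lit 40) (.e (nat_lit 655373) (nat_lit 3) (.e (nat_lit 171776) (nat_lit 23) .nil)))))))) (.g (nat_lit 1) (.e (nat_lit 408194) (nat_lit 0) .nil) .nil))) 
(.lf (nat_lit 595865) (.g (nat_lit 1751) (.e (nat_lit 524322) (nat_lit 12) (.e (nat_lit 450588) (nat_lit 10) (.e (nat_lit 573474) (nat_lit 12) (.e (nat_lit 57572) (nat_lit 54) (.e (nat_lit 770072) (nat_lit 8) .nil))))) (.g (nat_lit 0) (.e (nat_lit 409293) (nat_lit 0) .nil) .nil)))))) (.nd (nat_lit 7) (.nd (nat_lit 8) (.nd (nat_lit 9) 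
(.lf (nat_lit 595033) (.g (nat_lit 4383) (.e (nat_lit 516151) (nat_lit 9) (.e (nat_lit 426043) (nat_lit 0) (.e (nat_lit 3409) (nat_lit 212) (.e (nat_lit 655375) (nat_lit 3) (.e (nat_lit 163977) (nat_lit 30) (.e (nat_lit 573485) (nat_lit 13) (.e (nat_lit 65619) (nat_lit 10) (.e (nat_lit 344117) (nat_lit 21) .nil)))))))) (.g (nat_lit 1) (.e (nat_lit 407644) (nat_lit 0) .nil) .nil))) 
(.lf (nat_lit 595545) (.g (nat_lit 2078) (.e (nat_lit 516176) (nat_lit 14) (.e (nat_lit 466954) (nat_lit 11) (.e (nat_lit 335988) (nat_lit 1) (.e (nat_lit 57692) (nat_lit 156) (.e (nat_lit 171776) (nat_lit 18) (.e (nat_lit 475177) (nat_lit 24) .nil)))))) (.g (nat_lit 1) (.e (nat_lit 408494) (nat_lit 0) .nil) .nil)))) (.nd (nat_lit 9) 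
(.lf (nat_lit 595289) (.g (nat_lit 2627) (.e (nat_lit 516160) (nat_lit 10) (.e (nat_lit 434247) (nat_lit 28) (.e (nat_lit 573487) (nat_lit 14) (.e (nat_lit 73747) (nat_lit 3) (.e (nat_lit 516195) (nat_lit 26) (.e (nat_lit 336288) (nat_lit 15) (.e (nat_lit 7936) (nat_lit 195) .nil))))))) (.g (nat_lit 1) (.e (nat_lit 408089) (nat_lit 0) .nil) .nil))) 
(.lf (nat_lit 595801) (.g (nat_lit 2022) (.e (nat_lit 516199) (nat_lit 26) (.e (nat_lit 343808) (nat_lit 18) (.e (nat_lit 204863) (nat_lit 27) (.e (nat_lit 344131) (nat_lit 26) (.e (nat_lit 557103) (nat_lit 14) (.e (nat_lit 188160) (nat_lit 3) .nil)))))) (.g (nat_lit 1) (.e (nat_lit 409019) (nat_lit 0) .nil) .nil))))) (.nd (nat_lit 8) (.nd (nat_lit 9) 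
(.lf (nat_lit 595161) (.g (nat_lit 1655) (.e (nat_lit 516159) (nat_lit 10) (.e (nat_lit 434248) (nat_lit 28) (.e (nat_lit 573489) (nat_lit 14) (.e (nat_lit 81664) (nat_lit 5) .nil)))) (.g (nat_lit 0) (.e (nat_lit 407900) (nat_lit 0) .nil) .nil))) 
(.lf (nat_lit 595673) (.g (nat_lit 1148) (.e (nat_lit 516182) (nat_lit 15) (.e (nat_lit 475197) (nat_lit 40) (.e (nat_lit 704589) (nat_lit 3) (.e (nat_lit 163976) (nat_lit 30) (.e (nat_lit 573481) (nat_lit 13) .nil))))) (.g (nat_lit 0) (.e (nat_lit 408686) (nat_lit 0) .nil) .nil)))) (.nd (nat_lit 9) 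
(.lf (nat_lit 595417) (.g (nat_lit 5110) (.e (nat_lit 516166) (nat_lit 12) (.e (nat_lit 450587) (nat_lit 10) (.e (nat_lit 573477) (nat_lit 12) (.e (nat_lit 57574) (nat_lit 55) (.e (nat_lit 778454) (nat_lit 10) (.e (nat_lit 8543) (nat_lit 229) (.e (nat_lit 229497) (nat_lit 84) .nil))))))) (.g (nat_lit 1) (.e (nat_lit 408332) (nat_lit 0) .nil) .nil))) 
(.lf (nat_lit 595929) (.g (nat_lit 2951) (.e (nat_lit 548913) (nat_lit 18) (.e (nat_lit 172119) (nat_lit 12) (.e (nat_lit 475185) (nat_lit 29) (.e (nat_lit 557107) (nat_lit 15) (.e (nat_lit 188434) (nat_lit 20) .nil))))) (.g (nat_lit 0) (.e (nat_lit 410272) (nat_lit 0) .nil) .nil))))))) (.nd (nat_lit 6) (.nd (nat_lit 7) (.nd (nat_lit 8) (.nd (nat_lit 9) 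
(.lf (nat_lit 595001) (.g (nat_lit 1928) (.e (nat_lit 516150) (nat_lit 9) (.e (nat_lit 426436) (nat_lit 18) (.e (nat_lit 98384) (nat_lit 32) (.e (nat_lit 475177) (nat_lit 24) (.e (nat_lit 516178) (nat_lit 15) .nil))))) (.g (nat_lit 0) (.e (nat_lit 407611) (nat_lit 0) .nil) .nil))) 
(.lf (nat_lit 595513) (.g (nat_lit 1799) (.e (nat_lit 516174) (nat_lit 14) (.e (nat_lit 466954) (nat_lit 11) (.e (nat_lit 335996) (nat_lit 1) (.e (nat_lit 57685) (nat_lit 156) (.e (nat_lit 163939) (nat_lit 18) .nil))))) (.g (nat_lit 0) (.e (nat_lit 408454) (nat_lit 0) .nil) .nil)))) (.nd (nat_lit 9) 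
(.lf (nat_lit 595257) (.g (nat_lit 1427) (.e (nat_lit 516160) (nat_lit 10) (.e (nat_lit 434247) (nat_lit 28) (.e (nat_lit 573484) (nat_lit 13) (.e (nat_lit 65546) (nat_lit 0) .nil)))) (.g (nat_lit 0) (.e (nat_lit 408043) (nat_lit 0) .nil) .nil))) 
(.lf (nat_lit 595769) (.g (nat_lit 3240) (.e (nat_lit 516195) (nat_lit 26) (.e (nat_lit 335995) (nat_lit 1) (.e (nat_lit 57931) (nat_lit 282) (.e (nat_lit 163943) (nat_lit 19) (.e (nat_lit 483398) (nat_lit 25) (.e (nat_lit 368676) (nat_lit 21) .nil)))))) (.g (nat_lit 1) (.e (nat_lit 408893) (nat_lit 0) .nil) .nil))))) (.nd (nat_lit 8) (.nd (nat_lit 9) 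
(.lf (nat_lit 595129) (.g (nat_lit 1287) (.e (nat_lit 516158) (nat_lit 9) (.e (nat_lit 426190) (nat_lit 9) (.e (nat_lit 426436) (nat_lit 18) (.e (nat_lit 98342) (nat_lit 20) .nil)))) (.g (nat_lit 0) (.e (nat_lit 407760) (nat_lit 0) .nil) .nil))) 
(.lf (nat_lit 595641) (.g (nat_lit 1990) (.e (nat_lit 516181) (nat_lit 15) (.e (nat_lit 475179) (nat_lit 24) (.e (nat_lit 516145) (nat_lit 9) (.e (nat_lit 426436) (nat_lit 18) (.e (nat_lit 98384) (nat_lit 32) .nil))))) (.g (nat_lit 0) (.e (nat_lit 408634) (nat_lit 0) .nil) .nil)))) (.nd (nat_lit 9) 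
(.lf (nat_lit 595385) (.g (nat_lit 3065) (.e (nat_lit 516165) (nat_lit 12) (.e (nat_lit 450586) (nat_lit 10) (.e (nat_lit 573452) (nat_lit 9) (.e (nat_lit 430) (nat_lit 32) (.e (nat_lit 426011) (nat_lit 0) (.e (nat_lit 7583) (nat_lit 405) (.e (nat_lit 57464) (nat_lit 23) .nil))))))) (.g (nat_lit 1) (.e (nat_lit 408296) (nat_lit 0) .nil) .nil))) 
(.lf (nat_lit 595897) (.g (nat_lit 2164) (.e (nat_lit 548911) (nat_lit 18) (.e (nat_lit 172120) (nat_lit 12) (.e (nat_lit 475185) (nat_lit 29) (.e (nat_lit 557109) (nat_lit 15) .nil)))) (.g (nat_lit 0) (.e (nat_lit 409921) (nat_lit 0) .nil) .nil)))))) (.nd (nat_lit 7) (.nd (nat_lit 8) (.nd (nat_lit 9) 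
(.lf (nat_lit 595065) (.g (nat_lit 4358) (.e (nat_lit 516151) (nat_lit 9) (.e (nat_lit 426285) (nat_lit 10) (.e (nat_lit 434245) (nat_lit 28) (.e (nat_lit 573471) (nat_lit 11) (.e (nat_lit 16425) (nat_lit 7) (.e (nat_lit 409617) (nat_lit 10) (.e (nat_lit 7936) (nat_lit 43) .nil))))))) (.g (nat_lit 1) (.e (nat_lit 407682) (nat_lit 0) .nil) .nil))) 
(.lf (nat_lit 595577) (.g (nat_lit 379) (.e (nat_lit 516179) (nat_lit 15) (.e (nat_lit 475177) (nat_lit 24) (.e (nat_lit 516146) (nat_lit 9) .nil))) (.g (nat_lit 0) (.e (nat_lit 408536) (nat_lit 0) .nil) .nil)))) (.nd (nat_lit 9) 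
(.lf (nat_lit 595321) (.g (nat_lit 3525) (.e (nat_lit 516160) (nat_lit 10) (.e (nat_lit 434248) (nat_lit 28) (.e (nat_lit 573482) (nat_lit 13) (.e (nat_lit 65569) (nat_lit 3) (.e (nat_lit 98317) (nat_lit 9) (.e (nat_lit 336293) (nat_lit 15) (.e (nat_lit 7936) (nat_lit 195) .nil))))))) (.g (nat_lit 1) (.e (nat_lit 408140) (nat_lit 0) .nil) .nil))) 
(.lf (nat_lit 595833) (.g (nat_lit 2736) (.e (nat_lit 524320) (nat_lit 12) (.e (nat_lit 450586) (nat_lit 10) (.e (nat_lit 573450) (nat_lit 9) (.e (nat_lit 375) (nat_lit 32) (.e (nat_lit 426173) (nat_lit 7) (.e (nat_lit 409617) (nat_lit 10) (.e (nat_lit 7936) (nat_lit 44) .nil))))))) (.g (nat_lit 1) (.e (nat_lit 409246) (nat_lit 0) .nil) .nil))))) (.nd (nat_lit 8) (.nd (nat_lit 9) 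
(.lf (nat_lit 595193) (.g (nat_lit 4177) (.e (nat_lit 516160) (nat_lit 10) (.e (nat_lit 434244) (nat_lit 28) (.e (nat_lit 573487) (nat_lit 14) (.e (nat_lit 73747) (nat_lit 3) (.e (nat_lit 516195) (nat_lit 26) (.e (nat_lit 336288) (nat_lit 15) (.e (nat_lit 7936) (nat_lit 195) .nil))))))) (.g (nat_lit 1) (.e (nat_lit 407961) (nat_lit 0) .nil) .nil))) 
(.lf (nat_lit 595705) (.g (nat_lit 3987) (.e (nat_lit 516183) (nat_lit 16) (.e (nat_lit 491549) (nat_lit 9) (.e (nat_lit 336306) (nat_lit 15) (.e (nat_lit 3308) (nat_lit 202) (.e (nat_lit 573482) (nat_lit 13) (.e (nat_lit 65619) (nat_lit 10) (.e (nat_lit 344117) (nat_lit 21) .nil))))))) (.g (nat_lit 1) (.e (nat_lit 408757) (nat_lit 0) .nil) .nil)))) (.nd (nat_lit 9) 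
(.lf (nat_lit 595449) (.g (nat_lit 3602) (.e (nat_lit 516166) (nat_lit 12) (.e (nat_lit 450588) (nat_lit 10) (.e (nat_lit 573457) (nat_lit 9) (.e (nat_lit 430) (nat_lit 32) (.e (nat_lit 426344) (nat_lit 14) (.e (nat_lit 491530) (nat_lit 0) (.e (nat_lit 1796) (nat_lit 119) .nil))))))) (.g (nat_lit 1) (.e (nat_lit 408364) (nat_lit 0) .nil) .nil))) 
(.lf (nat_lit 595961) (.g (nat_lit 1703) (.e (nat_lit 548913) (nat_lit 18) (.e (nat_lit 172125) (nat_lit 14) (.e (nat_lit 491537) (nat_lit 2) (.e (nat_lit 90176) (nat_lit 15) .nil)))) (.g (nat_lit 0) (.e (nat_lit 410307) (nat_lit 0) .nil) .nil)))))))))) (.nd (nat_lit 3) (.nd (nat_lit 4) (.nd (nat_lit 5) (.nd (nat_lit 6) (.nd (nat_lit 7) (.nd (nat_lit 8) (.nd (nat_lit 9) 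
(.lf (nat_lit 594949) (.g (nat_lit 1928) (.e (nat_lit 516148) (nat_lit 9) (.e (nat_lit 426436) (nat_lit 18) (.e (nat_lit 98354) (nat_lit 26) (.e (nat_lit 426436) (nat_lit 18) (.e (nat_lit 98384) (nat_lit 32) .nil))))) (.g (nat_lit 0) (.e (nat_lit 407531) (nat_lit 0) .nil) .nil))) 
(.lf (nat_lit 595461) (.g (nat_lit 4659) (.e (nat_lit 516166) (nat_lit 12) (.e (nat_lit 450588) (nat_lit 10) (.e (nat_lit 573475) (nat_lit 12) (.e (nat_lit 57574) (nat_lit 55) (.e (nat_lit 778453) (nat_lit 10) (.e (nat_lit 8543) (nat_lit 229) (.e (nat_lit 229497) (nat_lit 84) .nil))))))) (.g (nat_lit 1) (.e (nat_lit 408376) (nat_lit 0) .nil) .nil)))) (.nd (nat_lit 9) 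
(.lf (nat_lit 595205) (.g (nat_lit 2732) (.e (nat_lit 516160) (nat_lit 10) (.e (nat_lit 434244) (nat_lit 28) (.e (nat_lit 573488) (nat_lit 14) (.e (nat_lit 73755) (nat_lit 8) (.e (nat_lit 557090) (nat_lit 12) (.e (nat_lit 164003) (nat_lit 40) (.e (nat_lit 655373) (nat_lit 3) (.e (nat_lit 171776) (nat_lit 23) .nil)))))))) (.g (nat_lit 1) (.e (nat_lit 407977) (nat_lit 0) .nil) .nil))) 
(.lf (nat_lit 595717) (.g (nat_lit 3165) (.e (nat_lit 516185) (nat_lit 16) (.e (nat_lit 491546) (nat_lit 9) (.e (nat_lit 336013) (nat_lit 2) (.e (nat_lit 90144) (nat_lit 9) (.e (nat_lit 3102) (nat_lit 192) .nil))))) (.g (nat_lit 0) (.e (nat_lit 408773) (nat_lit 0) .nil) .nil))))) (.nd (nat_lit 8) (.nd (nat_lit 9) 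
(.lf (nat_lit 595077) (.g (nat_lit 3391) (.e (nat_lit 516151) (nat_lit 9) (.e (nat_lit 426286) (nat_lit 10) (.e (nat_lit 434244) (nat_lit 28) (.e (nat_lit 573471) (nat_lit 11) (.e (nat_lit 16425) (nat_lit 7) .nil))))) (.g (nat_lit 0) (.e (nat_lit 407695) (nat_lit 0) .nil) .nil))) 
(.lf (nat_lit 595589) (.g (nat_lit 1795) (.e (nat_lit 516179) (nat_lit 15) (.e (nat_lit 475179) (nat_lit 24) (.e (nat_lit 516145) (nat_lit 9) (.e (nat_lit 426438) (nat_lit 18) .nil)))) (.g (nat_lit 0) (.e (nat_lit 408552) (nat_lit 0) .nil) .nil)))) (.nd (nat_lit 9) 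
(.lf (nat_lit 595333) (.g (nat_lit 481) (.e (nat_lit 516160) (nat_lit 10) (.e (nat_lit 434248) (nat_lit 28) (.e (nat_lit 573487) (nat_lit 14) .nil))) (.g (nat_lit 0) (.e (nat_lit 408154) (nat_lit 0) .nil) .nil))) 
(.lf (nat_lit 595845) (.g (nat_lit 1997) (.e (nat_lit 524322) (nat_lit 12) (.e (nat_lit 450587) (nat_lit 10) (.e (nat_lit 573477) (nat_lit 12) (.e (nat_lit 57574) (nat_lit 55) (.e (nat_lit 778463) (nat_lit 11) .nil))))) (.g (nat_lit 0) (.e (nat_lit 409273) (nat_lit 0) .nil) .nil)))))) (.nd (nat_lit 7) (.nd (nat_lit 8) (.nd (nat_lit 9) 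
(.lf (nat_lit 595013) (.g (nat_lit 4529) (.e (nat_lit 516151) (nat_lit 9) (.e (nat_lit 426043) (nat_lit 0) (.e (nat_lit 3369) (nat_lit 208) (.e (nat_lit 622626) (nat_lit 13) (.e (nat_lit 2663) (nat_lit 167) (.e (nat_lit 196666) (nat_lit 13) (.e (nat_lit 65610) (nat_lit 10) (.e (nat_lit 344117) (nat_lit 21) .nil)))))))) (.g (nat_lit 1) (.e (nat_lit 407623) (nat_lit 0) .nil) .nil))) 
(.lf (nat_lit 595525) (.g (nat_lit 1808) (.e (nat_lit 516176) (nat_lit 14) (.e (nat_lit 466950) (nat_lit 11) (.e (nat_lit 335995) (nat_lit 1) (.e (nat_lit 57691) (nat_lit 156) (.e (nat_lit 163939) (nat_lit 18) .nil))))) (.g (nat_lit 0) (.e (nat_lit 408467) (nat_lit 0) .nil) .nil)))) (.nd (nat_lit 9) 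
(.lf (nat_lit 595269) (.g (nat_lit 3875) (.e (nat_lit 516160) (nat_lit 10) (.e (nat_lit 434247) (nat_lit 28) (.e (nat_lit 573484) (nat_lit 13) (.e (nat_lit 65569) (nat_lit 3) (.e (nat_lit 98317) (nat_lit 9) (.e (nat_lit 336293) (nat_lit 15) (.e (nat_lit 7936) (nat_lit 195) .nil))))))) (.g (nat_lit 1) (.e (nat_lit 408059) (nat_lit 0) .nil) .nil))) 
(.lf (nat_lit 595781) (.g (nat_lit 1741) (.e (nat_lit 516195) (nat_lit 26) (.e (nat_lit 336027) (nat_lit 3) (.e (nat_lit 98334) (nat_lit 18) (.e (nat_lit 171776) (nat_lit 162) .nil)))) (.g (nat_lit 0) (.e (nat_lit 408919) (nat_lit 0) .nil) .nil))))) (.nd (nat_lit 8) (.nd (nat_lit 9) 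
(.lf (nat_lit 595141) (.g (nat_lit 460) (.e (nat_lit 516159) (nat_lit 10) (.e (nat_lit 434244) (nat_lit 28) (.e (nat_lit 573481) (nat_lit 13) .nil))) (.g (nat_lit 0) (.e (nat_lit 407802) (nat_lit 0) .nil) .nil))) 
(.lf (nat_lit 595653) (.g (nat_lit 3481) (.e (nat_lit 516181) (nat_lit 15) (.e (nat_lit 475199) (nat_lit 40) (.e (nat_lit 704589) (nat_lit 3) (.e (nat_lit 163975) (nat_lit 30) (.e (nat_lit 573491) (nat_lit 15) (.e (nat_lit 81946) (nat_lit 20) (.e (nat_lit 1802) (nat_lit 119) .nil))))))) (.g (nat_lit 1) (.e (nat_lit 408652) (nat_lit 0) .nil) .nil)))) (.nd (nat_lit 9) 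
(.lf (nat_lit 595397) (.g (nat_lit 3189) (.e (nat_lit 516166) (nat_lit 12) (.e (nat_lit 450586) (nat_lit 10) (.e (nat_lit 573450) (nat_lit 9) (.e (nat_lit 375) (nat_lit 32) (.e (nat_lit 426173) (nat_lit 7) (.e (nat_lit 409616) (nat_lit 10) (.e (nat_lit 7936) (nat_lit 43) .nil))))))) (.g (nat_lit 1) (.e (nat_lit 408312) (nat_lit 0) .nil) .nil))) 
(.lf (nat_lit 595909) (.g (nat_lit 1366) (.e (nat_lit 548911) (nat_lit 18) (.e (nat_lit 172126) (nat_lit 14) (.e (nat_lit 491540) (nat_lit 3) (.e (nat_lit 98365) (nat_lit 26) .nil)))) (.g (nat_lit 0) (.e (nat_lit 409933) (nat_lit 0) .nil) .nil))))))) (.nd (nat_lit 6) (.nd (nat_lit 7) (.nd (nat_lit 8) (.nd (nat_lit 9) 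
(.lf (nat_lit 594981) (.g (nat_lit 918) (.e (nat_lit 516149) (nat_lit 9) (.e (nat_lit 426436) (nat_lit 18) (.e (nat_lit 98357) (nat_lit 26) (.e (nat_lit 426436) (nat_lit 18) .nil)))) (.g (nat_lit 0) (.e (nat_lit 407581) (nat_lit 0) .nil) .nil))) 
(.lf (nat_lit 595493) (.g (nat_lit 2747) (.e (nat_lit 516174) (nat_lit 14) (.e (nat_lit 466954) (nat_lit 11) (.e (nat_lit 335986) (nat_lit 1) (.e (nat_lit 57692) (nat_lit 156) (.e (nat_lit 163939) (nat_lit 18) (.e (nat_lit 475177) (nat_lit 24) .nil)))))) (.g (nat_lit 1) (.e (nat_lit 408432) (nat_lit 0) .nil) .nil)))) (.nd (nat_lit 9) 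
(.lf (nat_lit 595237) (.g (nat_lit 1352) (.e (nat_lit 516160) (nat_lit 10) (.e (nat_lit 434246) (nat_lit 28) (.e (nat_lit 573482) (nat_lit 13) (.e (nat_lit 65570) (nat_lit 3) .nil)))) (.g (nat_lit 0) (.e (nat_lit 408019) (nat_lit 0) .nil) .nil))) 
(.lf (nat_lit 595749) (.g (nat_lit 3483) (.e (nat_lit 516195) (nat_lit 26) (.e (nat_lit 335986) (nat_lit 1) (.e (nat_lit 57927) (nat_lit 282) (.e (nat_lit 163903) (nat_lit 12) (.e (nat_lit 426544) (nat_lit 30) (.e (nat_lit 360467) (nat_lit 3) .nil)))))) (.g (nat_lit 1) (.e (nat_lit 408846) (nat_lit 0) .nil) .nil))))) (.nd (nat_lit 8) (.nd (nat_lit 9) 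
(.lf (nat_lit 595109) (.g (nat_lit 6015) (.e (nat_lit 516151) (nat_lit 9) (.e (nat_lit 426286) (nat_lit 10) (.e (nat_lit 434248) (nat_lit 28) (.e (nat_lit 573471) (nat_lit 11) (.e (nat_lit 16473) (nat_lit 14) (.e (nat_lit 491526) (nat_lit 0) (.e (nat_lit 1788) (nat_lit 119) .nil))))))) (.g (nat_lit 1) (.e (nat_lit 407727) (nat_lit 0) .nil) .nil))) 
(.lf (nat_lit 595621) (.g (nat_lit 2234) (.e (nat_lit 516180) (nat_lit 15) (.e (nat_lit 475177) (nat_lit 24) (.e (nat_lit 516182) (nat_lit 15) (.e (nat_lit 475177) (nat_lit 24) (.e (nat_lit 516181) (nat_lit 15) (.e (nat_lit 475177) (nat_lit 24) .nil)))))) (.g (nat_lit 1) (.e (nat_lit 408606) (nat_lit 0) .nil) .nil)))) (.nd (nat_lit 9) 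
(.lf (nat_lit 595365) (.g (nat_lit 3017) (.e (nat_lit 516163) (nat_lit 11) (.e (nat_lit 442402) (nat_lit 20) (.e (nat_lit 3297) (nat_lit 202) (.e (nat_lit 573450) (nat_lit 9) (.e (nat_lit 375) (nat_lit 32) (.e (nat_lit 426173) (nat_lit 7) (.e (nat_lit 409616) (nat_lit 10) (.e (nat_lit 7936) (nat_lit 43) .nil)))))))) (.g (nat_lit 1) (.e (nat_lit 408273) (nat_lit 0) .nil) .nil))) 
(.lf (nat_lit 595877) (.g (nat_lit 456) (.e (nat_lit 548894) (nat_lit 14) (.e (nat_lit 2830) (nat_lit 182) (.e (nat_lit 417536) (nat_lit 6) .nil))) (.g (nat_lit 0) (.e (nat_lit 409361) (nat_lit 0) .nil) .nil)))))) (.nd (nat_lit 7) (.nd (nat_lit 8) (.nd (nat_lit 9) 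
(.lf (nat_lit 595045) (.g (nat_lit 2682) (.e (nat_lit 516151) (nat_lit 9) (.e (nat_lit 426211) (nat_lit 9) (.e (nat_lit 426125) (nat_lit 2) (.e (nat_lit 196661) (nat_lit 12) (.e (nat_lit 57714) (nat_lit 176) .nil))))) (.g (nat_lit 0) (.e (nat_lit 407662) (nat_lit 0) .nil) .nil))) 
(.lf (nat_lit 595557) (.g (nat_lit 1425) (.e (nat_lit 516178) (nat_lit 15) (.e (nat_lit 475177) (nat_lit 24) (.e (nat_lit 516146) (nat_lit 9) (.e (nat_lit 426436) (nat_lit 18) .nil)))) (.g (nat_lit 0) (.e (nat_lit 408510) (nat_lit 0) .nil) .nil)))) (.nd (nat_lit 9) 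
(.lf (nat_lit 595301) (.g (nat_lit 1775) (.e (nat_lit 516160) (nat_lit 10) (.e (nat_lit 434248) (nat_lit 28) (.e (nat_lit 573482) (nat_lit 13) (.e (nat_lit 65552) (nat_lit 0) .nil)))) (.g (nat_lit 0) (.e (nat_lit 408112) (nat_lit 0) .nil) .nil))) 
(.lf (nat_lit 595813) (.g (nat_lit 1219) (.e (nat_lit 524291) (nat_lit 0) (.e (nat_lit 3459) (nat_lit 216) (.e (nat_lit 688139) (nat_lit 5) (.e (nat_lit 3085) (nat_lit 191) (.e (nat_lit 491264) (nat_lit 11) (.e (nat_lit 442401) (nat_lit 20) (.e (nat_lit 3222) (nat_lit 196) .nil))))))) (.g (nat_lit 1) (.e (nat_lit 409060) (nat_lit 0) .nil) .nil))))) (.nd (nat_lit 8) (.nd (nat_lit 9) 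
(.lf (nat_lit 595173) (.g (nat_lit 1240) (.e (nat_lit 516160) (nat_lit 10) (.e (nat_lit 434244) (nat_lit 28) (.e (nat_lit 573480) (nat_lit 13) (.e (nat_lit 65568) (nat_lit 2) .nil)))) (.g (nat_lit 0) (.e (nat_lit 407939) (nat_lit 0) .nil) .nil))) 
(.lf (nat_lit 595685) (.g (nat_lit 2024) (.e (nat_lit 516182) (nat_lit 15) (.e (nat_lit 475198) (nat_lit 40) (.e (nat_lit 704590) (nat_lit 3) (.e (nat_lit 163975) (nat_lit 30) (.e (nat_lit 573491) (nat_lit 15) .nil))))) (.g (nat_lit 0) (.e (nat_lit 408715) (nat_lit 0) .nil) .nil)))) (.nd (nat_lit 9) 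
(.lf (nat_lit 595429) (.g (nat_lit 4427) (.e (nat_lit 516166) (nat_lit 12) (.e (nat_lit 450588) (nat_lit 10) (.e (nat_lit 573448) (nat_lit 9) (.e (nat_lit 375) (nat_lit 32) (.e (nat_lit 426173) (nat_lit 7) (.e (nat_lit 409616) (nat_lit 10) (.e (nat_lit 7936) (nat_lit 43) .nil))))))) (.g (nat_lit 1) (.e (nat_lit 408344) (nat_lit 0) .nil) .nil))) 
(.lf (nat_lit 595941) (.g (nat_lit 3805) (.e (nat_lit 548913) (nat_lit 18) (.e (nat_lit 172120) (nat_lit 12) (.e (nat_lit 475184) (nat_lit 29) (.e (nat_lit 557109) (nat_lit 15) (.e (nat_lit 188435) (nat_lit 20) (.e (nat_lit 3271) (nat_lit 199) .nil)))))) (.g (nat_lit 1) (.e (nat_lit 410284) (nat_lit 0) .nil) .nil)))))))) 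
(.nd (nat_lit 5) (.nd (nat_lit 6) (.nd (nat_lit 7) (.nd (nat_lit 8) (.nd (nat_lit 9) 
(.lf (nat_lit 594965) (.g (nat_lit 1513) (.e (nat_lit 516149) (nat_lit 9) (.e (nat_lit 426323) (nat_lit 13) (.e (nat_lit 483363) (nat_lit 18) (.e (nat_lit 57652) (nat_lit 152) .nil)))) (.g (nat_lit 0) (.e (nat_lit 407551) (nat_lit 0) .nil) .nil))) 
(.lf (nat_lit 595477) (.g (nat_lit 1947) (.e (nat_lit 516174) (nat_lit 14) (.e (nat_lit 466954) (nat_lit 11) (.e (nat_lit 335986) (nat_lit 1) (.e (nat_lit 57665) (nat_lit 152) .nil)))) (.g (nat_lit 0) (.e (nat_lit 408413) (nat_lit 0) .nil) .nil)))) (.nd (nat_lit 9) 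
(.lf (nat_lit 595221) (.g (nat_lit 3954) (.e (nat_lit 516160) (nat_lit 10) (.e (nat_lit 434245) (nat_lit 28) (.e (nat_lit 573487) (nat_lit 14) (.e (nat_lit 73747) (nat_lit 3) (.e (nat_lit 516195) (nat_lit 26) (.e (nat_lit 336288) (nat_lit 15) (.e (nat_lit 7936) (nat_lit 195) .nil))))))) (.g (nat_lit 1) (.e (nat_lit 407996) (nat_lit 0) .nil) .nil))) 
(.lf (nat_lit 595733) (.g (nat_lit 712) (.e (nat_lit 516194) (nat_lit 26) (.e (nat_lit 335988) (nat_lit 1) (.e (nat_lit 57926) (nat_lit 282) .nil))) (.g (nat_lit 0) (.e (nat_lit 408817) (nat_lit 0) .nil) .nil))))) (.nd (nat_lit 8) (.nd (nat_lit 9) 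
(.lf (nat_lit 595093) (.g (nat_lit 5441) (.e (nat_lit 516151) (nat_lit 9) (.e (nat_lit 426286) (nat_lit 10) (.e (nat_lit 434245) (nat_lit 28) (.e (nat_lit 573471) (nat_lit 11) (.e (nat_lit 16473) (nat_lit 14) (.e (nat_lit 491526) (nat_lit 0) (.e (nat_lit 1788) (nat_lit 119) .nil))))))) (.g (nat_lit 1) (.e (nat_lit 407711) (nat_lit 0) .nil) .nil))) 
(.lf (nat_lit 595605) (.g (nat_lit 2009) (.e (nat_lit 516179) (nat_lit 15) (.e (nat_lit 475198) (nat_lit 40) (.e (nat_lit 704590) (nat_lit 3) (.e (nat_lit 163975) (nat_lit 30) (.e (nat_lit 573481) (nat_lit 13) .nil))))) (.g (nat_lit 0) (.e (nat_lit 408569) (nat_lit 0) .nil) .nil)))) (.nd (nat_lit 9) 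
(.lf (nat_lit 595349) (.g (nat_lit 3921) (.e (nat_lit 516160) (nat_lit 10) (.e (nat_lit 434248) (nat_lit 28) (.e (nat_lit 573489) (nat_lit 14) (.e (nat_lit 73755) (nat_lit 8) (.e (nat_lit 557084) (nat_lit 10) (.e (nat_lit 8358) (nat_lit 88) (.e (nat_lit 712719) (nat_lit 15) (.e (nat_lit 7936) (nat_lit 195) .nil)))))))) (.g (nat_lit 1) (.e (nat_lit 408180) (nat_lit 0) .nil) .nil))) 
(.lf (nat_lit 595861) (.g (nat_lit 3180) (.e (nat_lit 524322) (nat_lit 12) (.e (nat_lit 450588) (nat_lit 10) (.e (nat_lit 573474) (nat_lit 12) (.e (nat_lit 57347) (nat_lit 0) (.e (nat_lit 7261) (nat_lit 384) (.e (nat_lit 57432) (nat_lit 16) (.e (nat_lit 368678) (nat_lit 22) .nil))))))) (.g (nat_lit 1) (.e (nat_lit 409289) (nat_lit 0) .nil) .nil)))))) 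
(.nd (nat_lit 7) (.nd (nat_lit 8) (.nd (nat_lit 9) 
(.lf (nat_lit 595029) (.g (nat_lit 4949) (.e (nat_lit 516151) (nat_lit 9) (.e (nat_lit 426043) (nat_lit 0) (.e (nat_lit 3408) (nat_lit 212) (.e (nat_lit 655375) (nat_lit 3) (.e (nat_lit 163979) (nat_lit 30) (.e (nat_lit 573482) (nat_lit 13) (.e (nat_lit 65619) (nat_lit 10) (.e (nat_lit 344117) (nat_lit 21) .nil)))))))) (.g (nat_lit 1) (.e (nat_lit 407640) (nat_lit 0) .nil) .nil))) 
(.lf (nat_lit 595541) (.g (nat_lit 426) (.e (nat_lit 516176) (nat_lit 14) (.e (nat_lit 466954) (nat_lit 11) (.e (nat_lit 335988) (nat_lit 1) .nil))) (.g (nat_lit 0) (.e (nat_lit 408489) (nat_lit 0) .nil) .nil)))) (.nd (nat_lit 9) 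
(.lf (nat_lit 595285) (.g (nat_lit 1902) (.e (nat_lit 516160) (nat_lit 10) (.e (nat_lit 434247) (nat_lit 28) (.e (nat_lit 573485) (nat_lit 13) (.e (nat_lit 65570) (nat_lit 3) (.e (nat_lit 98315) (nat_lit 9) (.e (nat_lit 336277) (nat_lit 15) (.e (nat_lit 7936) (nat_lit 195) .nil))))))) (.g (nat_lit 1) (.e (nat_lit 408084) (nat_lit 0) .nil) .nil))) 
(.lf (nat_lit 595797) (.g (nat_lit 2310) (.e (nat_lit 516199) (nat_lit 26) (.e (nat_lit 343808) (nat_lit 18) (.e (nat_lit 204862) (nat_lit 27) (.e (nat_lit 344133) (nat_lit 26) (.e (nat_lit 557103) (nat_lit 14) (.e (nat_lit 188160) (nat_lit 3) .nil)))))) (.g (nat_lit 1) (.e (nat_lit 409015) (nat_lit 0) .nil) .nil))))) (.nd (nat_lit 8) (.nd (nat_lit 9) 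
(.lf (nat_lit 595157) (.g (nat_lit 1799) (.e (nat_lit 516159) (nat_lit 10) (.e (nat_lit 434248) (nat_lit 28) (.e (nat_lit 573482) (nat_lit 13) (.e (nat_lit 65631) (nat_lit 15) .nil)))) (.g (nat_lit 0) (.e (nat_lit 407888) (nat_lit 0) .nil) .nil))) 
(.lf (nat_lit 595669) (.g (nat_lit 2189) (.e (nat_lit 516182) (nat_lit 15) (.e (nat_lit 475179) (nat_lit 24) (.e (nat_lit 516151) (nat_lit 9) (.e (nat_lit 433920) (nat_lit 18) .nil)))) (.g (nat_lit 0) (.e (nat_lit 408681) (nat_lit 0) .nil) .nil)))) (.nd (nat_lit 9) 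
(.lf (nat_lit 595413) (.g (nat_lit 509) (.e (nat_lit 516166) (nat_lit 12) (.e (nat_lit 450587) (nat_lit 10) (.e (nat_lit 573471) (nat_lit 11) .nil))) (.g (nat_lit 0) (.e (nat_lit 408328) (nat_lit 0) .nil) .nil))) 
(.lf (nat_lit 595925) (.g (nat_lit 395) (.e (nat_lit 548913) (nat_lit 18) (.e (nat_lit 172082) (nat_lit 7) (.e (nat_lit 409612) (nat_lit 10) .nil))) (.g (nat_lit 0) (.e (nat_lit 409978) (nat_lit 0) .nil) .nil))))))) (.nd (nat_lit 6) (.nd (nat_lit 7) (.nd (nat_lit 8) (.nd (nat_lit 9) 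
(.lf (nat_lit 594997) (.g (nat_lit 3156) (.e (nat_lit 516150) (nat_lit 9) (.e (nat_lit 426323) (nat_lit 13) (.e (nat_lit 483365) (nat_lit 18) (.e (nat_lit 57688) (nat_lit 156) (.e (nat_lit 163936) (nat_lit 18) (.e (nat_lit 475177) (nat_lit 24) .nil)))))) (.g (nat_lit 1) (.e (nat_lit 407605) (nat_lit 0) .nil) .nil))) 
(.lf (nat_lit 595509) (.g (nat_lit 3100) (.e (nat_lit 516174) (nat_lit 14) (.e (nat_lit 466954) (nat_lit 11) (.e (nat_lit 335995) (nat_lit 1) (.e (nat_lit 57688) (nat_lit 156) (.e (nat_lit 163936) (nat_lit 18) (.e (nat_lit 475177) (nat_lit 24) .nil)))))) (.g (nat_lit 1) (.e (nat_lit 408449) (nat_lit 0) .nil) .nil)))) (.nd (nat_lit 9) 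
(.lf (nat_lit 595253) (.g (nat_lit 793) (.e (nat_lit 516160) (nat_lit 10) (.e (nat_lit 434246) (nat_lit 28) (.e (nat_lit 573489) (nat_lit 14) (.e (nat_lit 73755) (nat_lit 8) .nil)))) (.g (nat_lit 0) (.e (nat_lit 408035) (nat_lit 0) .nil) .nil))) 
(.lf (nat_lit 595765) (.g (nat_lit 2653) (.e (nat_lit 516195) (nat_lit 26) (.e (nat_lit 335995) (nat_lit 1) (.e (nat_lit 57930) (nat_lit 282) (.e (nat_lit 163941) (nat_lit 19) (.e (nat_lit 483394) (nat_lit 24) (.e (nat_lit 344117) (nat_lit 21) .nil)))))) (.g (nat_lit 1) (.e (nat_lit 408888) (nat_lit 0) .nil) .nil))))) (.nd (nat_lit 8) (.nd (nat_lit 9) 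
(.lf (nat_lit 595125) (.g (nat_lit 2098) (.e (nat_lit 516158) (nat_lit 9) (.e (nat_lit 426188) (nat_lit 9) (.e (nat_lit 426486) (nat_lit 27) (.e (nat_lit 336458) (nat_lit 35) (.e (nat_lit 491566) (nat_lit 12) (.e (nat_lit 392960) (nat_lit 24) .nil)))))) (.g (nat_lit 1) (.e (nat_lit 407756) (nat_lit 0) .nil) .nil))) 
(.lf (nat_lit 595637) (.g (nat_lit 2504) (.e (nat_lit 516181) (nat_lit 15) (.e (nat_lit 475177) (nat_lit 24) (.e (nat_lit 516182) (nat_lit 15) (.e (nat_lit 475179) (nat_lit 24) (.e (nat_lit 516179) (nat_lit 15) (.e (nat_lit 475177) (nat_lit 24) .nil)))))) (.g (nat_lit 1) (.e (nat_lit 408628) (nat_lit 0) .nil) .nil)))) (.nd (nat_lit 9) 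
(.lf (nat_lit 595381) (.g (nat_lit 661) (.e (nat_lit 516165) (nat_lit 12) (.e (nat_lit 450564) (nat_lit 0) (.e (nat_lit 6391) (nat_lit 339) .nil))) (.g (nat_lit 0) (.e (nat_lit 408291) (nat_lit 0) .nil) .nil))) 
(.lf (nat_lit 595893) (.g (nat_lit 2205) (.e (nat_lit 548911) (nat_lit 18) (.e (nat_lit 172119) (nat_lit 12) (.e (nat_lit 475185) (nat_lit 29) (.e (nat_lit 557107) (nat_lit 15) .nil)))) (.g (nat_lit 0) (.e (nat_lit 409917) (nat_lit 0) .nil) .nil)))))) (.nd (nat_lit 7) (.nd (nat_lit 8) (.nd (nat_lit 9) 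
(.lf (nat_lit 595061) (.g (nat_lit 5312) (.e (nat_lit 516151) (nat_lit 9) (.e (nat_lit 426285) (nat_lit 10) (.e (nat_lit 434244) (nat_lit 28) (.e (nat_lit 573471) (nat_lit 11) (.e (nat_lit 16425) (nat_lit 7) (.e (nat_lit 409616) (nat_lit 10) (.e (nat_lit 7936) (nat_lit 43) .nil))))))) (.g (nat_lit 1) (.e (nat_lit 407678) (nat_lit 0) .nil) .nil))) 
(.lf (nat_lit 595573) (.g (nat_lit 3046) (.e (nat_lit 516179) (nat_lit 15) (.e (nat_lit 475169) (nat_lit 22) (.e (nat_lit 499927) (nat_lit 10) (.e (nat_lit 180251) (nat_lit 10) (.e (nat_lit 573484) (nat_lit 13) (.e (nat_lit 65642) (nat_lit 15) (.e (nat_lit 7936) (nat_lit 195) .nil))))))) (.g (nat_lit 1) (.e (nat_lit 408531) (nat_lit 0) .nil) .nil)))) (.nd (nat_lit 9) 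
(.lf (nat_lit 595317) (.g (nat_lit 4258) (.e (nat_lit 516160) (nat_lit 10) (.e (nat_lit 434248) (nat_lit 28) (.e (nat_lit 573482) (nat_lit 13) (.e (nat_lit 65568) (nat_lit 2) (.e (nat_lit 90160) (nat_lit 11) (.e (nat_lit 24671) (nat_lit 15) (.e (nat_lit 7936) (nat_lit 195) .nil))))))) (.g (nat_lit 1) (.e (nat_lit 408135) (nat_lit 0) .nil) .nil))) 
(.lf (nat_lit 595829) (.g (nat_lit 2179) (.e (nat_lit 524320) (nat_lit 12) (.e (nat_lit 450579) (nat_lit 5) (.e (nat_lit 532534) (nat_lit 9) (.e (nat_lit 336257) (nat_lit 15) (.e (nat_lit 3605) (nat_lit 225) (.e (nat_lit 761898) (nat_lit 15) (.e (nat_lit 163959) (nat_lit 24) .nil))))))) (.g (nat_lit 1) (.e (nat_lit 409242) (nat_lit 0) .nil) .nil))))) (.nd (nat_lit 8) (.nd (nat_lit 9) 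
(.lf (nat_lit 595189) (.g (nat_lit 1654) (.e (nat_lit 516160) (nat_lit 10) (.e (nat_lit 434244) (nat_lit 28) (.e (nat_lit 573487) (nat_lit 14) (.e (nat_lit 73739) (nat_lit 1) .nil)))) (.g (nat_lit 0) (.e (nat_lit 407956) (nat_lit 0) .nil) .nil))) 
(.lf (nat_lit 595701) (.g (nat_lit 3920) (.e (nat_lit 516182) (nat_lit 15) (.e (nat_lit 475199) (nat_lit 40) (.e (nat_lit 704589) (nat_lit 3) (.e (nat_lit 163979) (nat_lit 30) (.e (nat_lit 573491) (nat_lit 15) (.e (nat_lit 81946) (nat_lit 20) (.e (nat_lit 1802) (nat_lit 119) .nil))))))) (.g (nat_lit 1) (.e (nat_lit 408746) (nat_lit 0) .nil) .nil)))) (.nd (nat_lit 9) 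
(.lf (nat_lit 595445) (.g (nat_lit 2533) (.e (nat_lit 516166) (nat_lit 12) (.e (nat_lit 450588) (nat_lit 10) (.e (nat_lit 573452) (nat_lit 9) (.e (nat_lit 430) (nat_lit 32) (.e (nat_lit 426172) (nat_lit 7) (.e (nat_lit 409616) (nat_lit 10) (.e (nat_lit 7936) (nat_lit 43) .nil))))))) (.g (nat_lit 1) (.e (nat_lit 408360) (nat_lit 0) .nil) .nil))) 
(.lf (nat_lit 595957) (.g (nat_lit 2796) (.e (nat_lit 548913) (nat_lit 18) (.e (nat_lit 172124) (nat_lit 14) (.e (nat_lit 491540) (nat_lit 3) (.e (nat_lit 98373) (nat_lit 29) (.e (nat_lit 458496) (nat_lit 7) .nil))))) (.g (nat_lit 1) (.e (nat_lit 410303) (nat_lit 0) .nil) .nil))))))))) (.nd (nat_lit 4) (.nd (nat_lit 5) (.nd (nat_lit 6) (.nd (nat_lit 7) (.nd (nat_lit 8) (.nd (nat_lit 9) 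
(.lf (nat_lit 594957) (.g (nat_lit 1708) (.e (nat_lit 516148) (nat_lit 9) (.e (nat_lit 426438) (nat_lit 18) (.e (nat_lit 98386) (nat_lit 32) (.e (nat_lit 475179) (nat_lit 24) (.e (nat_lit 516179) (nat_lit 15) .nil))))) (.g (nat_lit 0) (.e (nat_lit 407540) (nat_lit 0) .nil) .nil))) 
(.lf (nat_lit 595469) (.g (nat_lit 659) (.e (nat_lit 516169) (nat_lit 13) (.e (nat_lit 458774) (nat_lit 18) (.e (nat_lit 4808) (nat_lit 281) .nil))) (.g (nat_lit 0) (.e (nat_lit 408386) (nat_lit 0) .nil) .nil)))) (.nd (nat_lit 9) 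
(.lf (nat_lit 595213) (.g (nat_lit 1809) (.e (nat_lit 516160) (nat_lit 10) (.e (nat_lit 434245) (nat_lit 28) (.e (nat_lit 573481) (nat_lit 13) (.e (nat_lit 65570) (nat_lit 3) (.e (nat_lit 98315) (nat_lit 9) (.e (nat_lit 336277) (nat_lit 15) (.e (nat_lit 7936) (nat_lit 195) .nil))))))) (.g (nat_lit 1) (.e (nat_lit 407987) (nat_lit 0) .nil) .nil))) 
(.lf (nat_lit 595725) (.g (nat_lit 1876) (.e (nat_lit 524032) (nat_lit 16) (.e (nat_lit 491566) (nat_lit 12) (.e (nat_lit 385073) (nat_lit 31) (.e (nat_lit 573484) (nat_lit 13) (.e (nat_lit 65610) (nat_lit 10) .nil))))) (.g (nat_lit 0) (.e (nat_lit 408784) (nat_lit 0) .nil) .nil))))) (.nd (nat_lit 8) (.nd (nat_lit 9) 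
(.lf (nat_lit 595085) (.g (nat_lit 4711) (.e (nat_lit 516151) (nat_lit 9) (.e (nat_lit 426286) (nat_lit 10) (.e (nat_lit 434245) (nat_lit 28) (.e (nat_lit 573470) (nat_lit 11) (.e (nat_lit 16473) (nat_lit 14) (.e (nat_lit 491526) (nat_lit 0) (.e (nat_lit 1788) (nat_lit 119) .nil))))))) (.g (nat_lit 1) (.e (nat_lit 407703) (nat_lit 0) .nil) .nil))) 
(.lf (nat_lit 595597) (.g (nat_lit 2633) (.e (nat_lit 516179) (nat_lit 15) (.e (nat_lit 475179) (nat_lit 24) (.e (nat_lit 516169) (nat_lit 13) (.e (nat_lit 458789) (nat_lit 23) (.e (nat_lit 532506) (nat_lit 2) .nil))))) (.g (nat_lit 0) (.e (nat_lit 408560) (nat_lit 0) .nil) .nil)))) (.nd (nat_lit 9) 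
(.lf (nat_lit 595341) (.g (nat_lit 1375) (.e (nat_lit 516160) (nat_lit 10) (.e (nat_lit 434248) (nat_lit 28) (.e (nat_lit 573487) (nat_lit 14) (.e (nat_lit 73753) (nat_lit 8) .nil)))) (.g (nat_lit 0) (.e (nat_lit 408166) (nat_lit 0) .nil) .nil))) 
(.lf (nat_lit 595853) (.g (nat_lit 1711) (.e (nat_lit 524322) (nat_lit 12) (.e (nat_lit 450587) (nat_lit 10) (.e (nat_lit 573478) (nat_lit 12) (.e (nat_lit 57574) (nat_lit 55) (.e (nat_lit 778463) (nat_lit 11) .nil))))) (.g (nat_lit 0) (.e (nat_lit 409281) (nat_lit 0) .nil) .nil)))))) (.nd (nat_lit 7) (.nd (nat_lit 8) (.nd (nat_lit 9) 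
(.lf (nat_lit 595021) (.g (nat_lit 4978) (.e (nat_lit 516151) (nat_lit 9) (.e (nat_lit 426043) (nat_lit 0) (.e (nat_lit 3406) (nat_lit 212) (.e (nat_lit 655375) (nat_lit 3) (.e (nat_lit 163979) (nat_lit 30) (.e (nat_lit 573482) (nat_lit 13) (.e (nat_lit 65619) (nat_lit 10) (.e (nat_lit 344117) (nat_lit 21) .nil)))))))) (.g (nat_lit 1) (.e (nat_lit 407631) (nat_lit 0) .nil) .nil))) 
(.lf (nat_lit 595533) (.g (nat_lit 2288) (.e (nat_lit 516176) (nat_lit 14) (.e (nat_lit 466954) (nat_lit 11) (.e (nat_lit 335986) (nat_lit 1) (.e (nat_lit 57685) (nat_lit 156) (.e (nat_lit 163936) (nat_lit 18) .nil))))) (.g (nat_lit 0) (.e (nat_lit 408481) (nat_lit 0) .nil) .nil)))) (.nd (nat_lit 9) 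
(.lf (nat_lit 595277) (.g (nat_lit 1783) (.e (nat_lit 516160) (nat_lit 10) (.e (nat_lit 434247) (nat_lit 28) (.e (nat_lit 573485) (nat_lit 13) (.e (nat_lit 65566) (nat_lit 2) (.e (nat_lit 90158) (nat_lit 11) (.e (nat_lit 24671) (nat_lit 15) (.e (nat_lit 7936) (nat_lit 195) .nil))))))) (.g (nat_lit 1) (.e (nat_lit 408070) (nat_lit 0) .nil) .nil))) 
(.lf (nat_lit 595789) (.g (nat_lit 3021) (.e (nat_lit 516199) (nat_lit 26) (.e (nat_lit 335988) (nat_lit 1) (.e (nat_lit 57927) (nat_lit 282) (.e (nat_lit 163903) (nat_lit 12) (.e (nat_lit 426546) (nat_lit 30) (.e (nat_lit 360466) (nat_lit 3) .nil)))))) (.g (nat_lit 1) (.e (nat_lit 408989) (nat_lit 0) .nil) .nil))))) (.nd (nat_lit 8) (.nd (nat_lit 9) 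
(.lf (nat_lit 595149) (.g (nat_lit 1845) (.e (nat_lit 516159) (nat_lit 10) (.e (nat_lit 434244) (nat_lit 28) (.e (nat_lit 573488) (nat_lit 14) (.e (nat_lit 81664) (nat_lit 5) .nil)))) (.g (nat_lit 0) (.e (nat_lit 407835) (nat_lit 0) .nil) .nil))) 
(.lf (nat_lit 595661) (.g (nat_lit 1955) (.e (nat_lit 516182) (nat_lit 15) (.e (nat_lit 475177) (nat_lit 24) (.e (nat_lit 516179) (nat_lit 15) (.e (nat_lit 475177) (nat_lit 24) (.e (nat_lit 516178) (nat_lit 15) .nil))))) (.g (nat_lit 0) (.e (nat_lit 408671) (nat_lit 0) .nil) .nil)))) (.nd (nat_lit 9) 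
(.lf (nat_lit 595405) (.g (nat_lit 2813) (.e (nat_lit 516166) (nat_lit 12) (.e (nat_lit 450587) (nat_lit 10) (.e (nat_lit 573456) (nat_lit 9) (.e (nat_lit 430) (nat_lit 32) (.e (nat_lit 426344) (nat_lit 14) (.e (nat_lit 491526) (nat_lit 0) (.e (nat_lit 7936) (nat_lit 119) .nil))))))) (.g (nat_lit 1) (.e (nat_lit 408320) (nat_lit 0) .nil) .nil))) 
(.lf (nat_lit 595917) (.g (nat_lit 518) (.e (nat_lit 548912) (nat_lit 18) (.e (nat_lit 172126) (nat_lit 14) (.e (nat_lit 491537) (nat_lit 2) .nil))) (.g (nat_lit 0) (.e (nat_lit 409955) (nat_lit 0) .nil) .nil))))))) (.nd (nat_lit 6) (.nd (nat_lit 7) (.nd (nat_lit 8) (.nd (nat_lit 9) 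
(.lf (nat_lit 594989) (.g (nat_lit 1482) (.e (nat_lit 516150) (nat_lit 9) (.e (nat_lit 426323) (nat_lit 13) (.e (nat_lit 483363) (nat_lit 18) (.e (nat_lit 57687) (nat_lit 156) .nil)))) (.g (nat_lit 0) (.e (nat_lit 407594) (nat_lit 0) .nil) .nil))) 
(.lf (nat_lit 595501) (.g (nat_lit 2867) (.e (nat_lit 516174) (nat_lit 14) (.e (nat_lit 466954) (nat_lit 11) (.e (nat_lit 335988) (nat_lit 1) (.e (nat_lit 57692) (nat_lit 156) (.e (nat_lit 163939) (nat_lit 18) (.e (nat_lit 475177) (nat_lit 24) .nil)))))) (.g (nat_lit 1) (.e (nat_lit 408441) (nat_lit 0) .nil) .nil)))) (.nd (nat_lit 9) 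
(.lf (nat_lit 595245) (.g (nat_lit 2461) (.e (nat_lit 516160) (nat_lit 10) (.e (nat_lit 434246) (nat_lit 28) (.e (nat_lit 573484) (nat_lit 13) (.e (nat_lit 65571) (nat_lit 3) (.e (nat_lit 98313) (nat_lit 9) (.e (nat_lit 336288) (nat_lit 15) (.e (nat_lit 7936) (nat_lit 195) .nil))))))) (.g (nat_lit 1) (.e (nat_lit 408027) (nat_lit 0) .nil) .nil))) 
(.lf (nat_lit 595757) (.g (nat_lit 3358) (.e (nat_lit 516195) (nat_lit 26) (.e (nat_lit 335988) (nat_lit 1) (.e (nat_lit 57926) (nat_lit 282) (.e (nat_lit 163943) (nat_lit 19) (.e (nat_lit 483399) (nat_lit 25) (.e (nat_lit 368676) (nat_lit 21) .nil)))))) (.g (nat_lit 1) (.e (nat_lit 408860) (nat_lit 0) .nil) .nil))))) (.nd (nat_lit 8) (.nd (nat_lit 9) 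
(.lf (nat_lit 595117) (.g (nat_lit 2286) (.e (nat_lit 516151) (nat_lit 9) (.e (nat_lit 426412) (nat_lit 15) (.e (nat_lit 7936) (nat_lit 121) (.e (nat_lit 532544) (nat_lit 10) (.e (nat_lit 344117) (nat_lit 21) (.e (nat_lit 516130) (nat_lit 3) (.e (nat_lit 221198) (nat_lit 20) (.e (nat_lit 7936) (nat_lit 195) .nil)))))))) (.g (nat_lit 1) (.e (nat_lit 407737) (nat_lit 0) .nil) .nil))) 
(.lf (nat_lit 595629) (.g (nat_lit 4332) (.e (nat_lit 516180) (nat_lit 15) (.e (nat_lit 475196) (nat_lit 40) (.e (nat_lit 704590) (nat_lit 3) (.e (nat_lit 163975) (nat_lit 30) (.e (nat_lit 573481) (nat_lit 13) (.e (nat_lit 65619) (nat_lit 10) (.e (nat_lit 344117) (nat_lit 21) .nil))))))) (.g (nat_lit 1) (.e (nat_lit 408616) (nat_lit 0) .nil) .nil)))) (.nd (nat_lit 9) 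
(.lf (nat_lit 595373) (.g (nat_lit 2784) (.e (nat_lit 516163) (nat_lit 11) (.e (nat_lit 442412) (nat_lit 20) (.e (nat_lit 3308) (nat_lit 202) (.e (nat_lit 573450) (nat_lit 9) (.e (nat_lit 375) (nat_lit 32) (.e (nat_lit 426173) (nat_lit 7) (.e (nat_lit 409616) (nat_lit 10) (.e (nat_lit 7936) (nat_lit 43) .nil)))))))) (.g (nat_lit 1) (.e (nat_lit 408281) (nat_lit 0) .nil) .nil))) 
(.lf (nat_lit 595885) (.g (nat_lit 998) (.e (nat_lit 548902) (nat_lit 14) (.e (nat_lit 2946) (nat_lit 184) (.e (nat_lit 426306) (nat_lit 12) (.e (nat_lit 475183) (nat_lit 29) .nil)))) (.g (nat_lit 0) (.e (nat_lit 409884) (nat_lit 0) .nil) .nil)))))) (.nd (nat_lit 7) (.nd (nat_lit 8) (.nd (nat_lit 9) 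
(.lf (nat_lit 595053) (.g (nat_lit 2360) (.e (nat_lit 516151) (nat_lit 9) (.e (nat_lit 426275) (nat_lit 10) (.e (nat_lit 434244) (nat_lit 28) (.e (nat_lit 573450) (nat_lit 9) (.e (nat_lit 375) (nat_lit 32) (.e (nat_lit 426173) (nat_lit 7) (.e (nat_lit 409616) (nat_lit 10) (.e (nat_lit 7936) (nat_lit 43) .nil)))))))) (.g (nat_lit 1) (.e (nat_lit 407670) (nat_lit 0) .nil) .nil))) 
(.lf (nat_lit 595565) (.g (nat_lit 1054) (.e (nat_lit 516178) (nat_lit 15) (.e (nat_lit 475179) (nat_lit 24) (.e (nat_lit 516182) (nat_lit 15) (.e (nat_lit 475177) (nat_lit 24) .nil)))) (.g (nat_lit 0) (.e (nat_lit 408523) (nat_lit 0) .nil) .nil)))) (.nd (nat_lit 9) 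
(.lf (nat_lit 595309) (.g (nat_lit 3660) (.e (nat_lit 516160) (nat_lit 10) (.e (nat_lit 434248) (nat_lit 28) (.e (nat_lit 573482) (nat_lit 13) (.e (nat_lit 65566) (nat_lit 2) (.e (nat_lit 90160) (nat_lit 11) (.e (nat_lit 24671) (nat_lit 15) (.e (nat_lit 7936) (nat_lit 195) .nil))))))) (.g (nat_lit 1) (.e (nat_lit 408122) (nat_lit 0) .nil) .nil))) 
(.lf (nat_lit 595821) (.g (nat_lit 2402) (.e (nat_lit 524319) (nat_lit 11) (.e (nat_lit 442427) (nat_lit 23) (.e (nat_lit 204845) (nat_lit 24) (.e (nat_lit 319530) (nat_lit 16) (.e (nat_lit 286722) (nat_lit 0) .nil))))) (.g (nat_lit 0) (.e (nat_lit 409233) (nat_lit 0) .nil) .nil))))) (.nd (nat_lit 8) (.nd (nat_lit 9) 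
(.lf (nat_lit 595181) (.g (nat_lit 2467) (.e (nat_lit 516160) (nat_lit 10) (.e (nat_lit 434244) (nat_lit 28) (.e (nat_lit 573481) (nat_lit 13) (.e (nat_lit 65568) (nat_lit 2) (.e (nat_lit 90157) (nat_lit 11) (.e (nat_lit 24671) (nat_lit 15) (.e (nat_lit 7936) (nat_lit 195) .nil))))))) (.g (nat_lit 1) (.e (nat_lit 407948) (nat_lit 0) .nil) .nil))) 
(.lf (nat_lit 595693) (.g (nat_lit 1321) (.e (nat_lit 516182) (nat_lit 15) (.e (nat_lit 475199) (nat_lit 40) (.e (nat_lit 704589) (nat_lit 3) (.e (nat_lit 163976) (nat_lit 30) (.e (nat_lit 573491) (nat_lit 15) .nil))))) (.g (nat_lit 0) (.e (nat_lit 408731) (nat_lit 0) .nil) .nil)))) (.nd (nat_lit 9) 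
(.lf (nat_lit 595437) (.g (nat_lit 3023) (.e (nat_lit 516166) (nat_lit 12) (.e (nat_lit 450588) (nat_lit 10) (.e (nat_lit 573450) (nat_lit 9) (.e (nat_lit 442) (nat_lit 33) (.e (nat_lit 434179) (nat_lit 0) (.e (nat_lit 1077) (nat_lit 81) (.e (nat_lit 1796) (nat_lit 119) .nil))))))) (.g (nat_lit 1) (.e (nat_lit 408352) (nat_lit 0) .nil) .nil))) 
(.lf (nat_lit 595949) (.g (nat_lit 2221) (.e (nat_lit 548913) (nat_lit 18) (.e (nat_lit 172124) (nat_lit 14) (.e (nat_lit 491537) (nat_lit 2) (.e (nat_lit 90177) (nat_lit 15) .nil)))) (.g (nat_lit 0) (.e (nat_lit 410294) (nat_lit 0) .nil) .nil)))))))) (.nd (nat_lit 5) (.nd (nat_lit 6) (.nd (nat_lit 7) (.nd (nat_lit 8) (.nd (nat_lit 9) 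
(.lf (nat_lit 594973) (.g (nat_lit 1163) (.e (nat_lit 516149) (nat_lit 9) (.e (nat_lit 426323) (nat_lit 13) (.e (nat_lit 483364) (nat_lit 18) (.e (nat_lit 57685) (nat_lit 156) .nil)))) (.g (nat_lit 0) (.e (nat_lit 407566) (nat_lit 0) .nil) .nil))) 
(.lf (nat_lit 595485) (.g (nat_lit 3142) (.e (nat_lit 516174) (nat_lit 14) (.e (nat_lit 466954) (nat_lit 11) (.e (nat_lit 335986) (nat_lit 1) (.e (nat_lit 57688) (nat_lit 156) (.e (nat_lit 163936) (nat_lit 18) (.e (nat_lit 475179) (nat_lit 24) .nil)))))) (.g (nat_lit 1) (.e (nat_lit 408424) (nat_lit 0) .nil) .nil)))) (.nd (nat_lit 9) 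
(.lf (nat_lit 595229) (.g (nat_lit 2590) (.e (nat_lit 516160) (nat_lit 10) (.e (nat_lit 434245) (nat_lit 28) (.e (nat_lit 573488) (nat_lit 14) (.e (nat_lit 73747) (nat_lit 3) (.e (nat_lit 516195) (nat_lit 26) (.e (nat_lit 336293) (nat_lit 15) (.e (nat_lit 7936) (nat_lit 195) .nil))))))) (.g (nat_lit 1) (.e (nat_lit 408004) (nat_lit 0) .nil) .nil))) 
(.lf (nat_lit 595741) (.g (nat_lit 1860) (.e (nat_lit 516194) (nat_lit 26) (.e (nat_lit 335996) (nat_lit 1) (.e (nat_lit 57931) (nat_lit 282) (.e (nat_lit 163943) (nat_lit 19) (.e (nat_lit 483398) (nat_lit 25) .nil))))) (.g (nat_lit 0) (.e (nat_lit 408832) (nat_lit 0) .nil) .nil))))) (.nd (nat_lit 8) (.nd (nat_lit 9) 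
(.lf (nat_lit 595101) (.g (nat_lit 3883) (.e (nat_lit 516151) (nat_lit 9) (.e (nat_lit 426286) (nat_lit 10) (.e (nat_lit 434248) (nat_lit 28) (.e (nat_lit 573452) (nat_lit 9) (.e (nat_lit 430) (nat_lit 32) (.e (nat_lit 426012) (nat_lit 0) (.e (nat_lit 7583) (nat_lit 405) (.e (nat_lit 57464) (nat_lit 23) .nil)))))))) (.g (nat_lit 1) (.e (nat_lit 407719) (nat_lit 0) .nil) .nil))) 
(.lf (nat_lit 595613) (.g (nat_lit 1908) (.e (nat_lit 516179) (nat_lit 15) (.e (nat_lit 475199) (nat_lit 40) (.e (nat_lit 704590) (nat_lit 3) (.e (nat_lit 163975) (nat_lit 30) (.e (nat_lit 573481) (nat_lit 13) .nil))))) (.g (nat_lit 0) (.e (nat_lit 408595) (nat_lit 0) .nil) .nil)))) (.nd (nat_lit 9) 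
(.lf (nat_lit 595357) (.g (nat_lit 5328) (.e (nat_lit 516160) (nat_lit 10) (.e (nat_lit 434272) (nat_lit 38) (.e (nat_lit 655375) (nat_lit 3) (.e (nat_lit 163978) (nat_lit 30) (.e (nat_lit 573483) (nat_lit 13) (.e (nat_lit 65610) (nat_lit 10) (.e (nat_lit 344117) (nat_lit 21) .nil))))))) (.g (nat_lit 1) (.e (nat_lit 408203) (nat_lit 0) .nil) .nil))) 
(.lf (nat_lit 595869) (.g (nat_lit 1179) (.e (nat_lit 524327) (nat_lit 16) (.e (nat_lit 491566) (nat_lit 12) (.e (nat_lit 385074) (nat_lit 31) .nil))) (.g (nat_lit 0) (.e (nat_lit 409312) (nat_lit 0) .nil) .nil)))))) (.nd (nat_lit 7) (.nd (nat_lit 8) (.nd (nat_lit 9) 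
(.lf (nat_lit 595037) (.g (nat_lit 4249) (.e (nat_lit 516151) (nat_lit 9) (.e (nat_lit 426142) (nat_lit 4) (.e (nat_lit 229665) (nat_lit 240) (.e (nat_lit 2602) (nat_lit 163) (.e (nat_lit 163979) (nat_lit 30) (.e (nat_lit 573482) (nat_lit 13) (.e (nat_lit 65619) (nat_lit 10) (.e (nat_lit 344117) (nat_lit 21) .nil)))))))) (.g (nat_lit 1) (.e (nat_lit 407654) (nat_lit 0) .nil) .nil))) 
(.lf (nat_lit 595549) (.g (nat_lit 809) (.e (nat_lit 516176) (nat_lit 14) (.e (nat_lit 466954) (nat_lit 11) (.e (nat_lit 336033) (nat_lit 4) .nil))) (.g (nat_lit 0) (.e (nat_lit 408499) (nat_lit 0) .nil) .nil)))) (.nd (nat_lit 9) 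
(.lf (nat_lit 595293) (.g (nat_lit 2290) (.e (nat_lit 516160) (nat_lit 10) (.e (nat_lit 434247) (nat_lit 28) (.e (nat_lit 573489) (nat_lit 14) (.e (nat_lit 73755) (nat_lit 8) (.e (nat_lit 557091) (nat_lit 12) (.e (nat_lit 164003) (nat_lit 40) (.e (nat_lit 655375) (nat_lit 3) (.e (nat_lit 171776) (nat_lit 23) .nil)))))))) (.g (nat_lit 1) (.e (nat_lit 408102) (nat_lit 0) .nil) .nil))) 
(.lf (nat_lit 595805) (.g (nat_lit 2583) (.e (nat_lit 524032) (nat_lit 32) (.e (nat_lit 385066) (nat_lit 26) (.e (nat_lit 532534) (nat_lit 9) (.e (nat_lit 336019) (nat_lit 3) (.e (nat_lit 98341) (nat_lit 20) .nil))))) (.g (nat_lit 0) (.e (nat_lit 409042) (nat_lit 0) .nil) .nil))))) (.nd (nat_lit 8) (.nd (nat_lit 9) 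
(.lf (nat_lit 595165) (.g (nat_lit 4449) (.e (nat_lit 516159) (nat_lit 10) (.e (nat_lit 434272) (nat_lit 38) (.e (nat_lit 655375) (nat_lit 3) (.e (nat_lit 163978) (nat_lit 30) (.e (nat_lit 573483) (nat_lit 13) (.e (nat_lit 65610) (nat_lit 10) (.e (nat_lit 344117) (nat_lit 21) .nil))))))) (.g (nat_lit 1) (.e (nat_lit 407928) (nat_lit 0) .nil) .nil))) 
(.lf (nat_lit 595677) (.g (nat_lit 1617) (.e (nat_lit 516182) (nat_lit 15) (.e (nat_lit 475198) (nat_lit 40) (.e (nat_lit 704589) (nat_lit 3) (.e (nat_lit 163975) (nat_lit 30) (.e (nat_lit 573491) (nat_lit 15) (.e (nat_lit 81943) (nat_lit 20) (.e (nat_lit 1801) (nat_lit 119) .nil))))))) (.g (nat_lit 1) (.e (nat_lit 408690) (nat_lit 0) .nil) .nil)))) (.nd (nat_lit 9) 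
(.lf (nat_lit 595421) (.g (nat_lit 4945) (.e (nat_lit 516166) (nat_lit 12) (.e (nat_lit 450587) (nat_lit 10) (.e (nat_lit 573477) (nat_lit 12) (.e (nat_lit 57575) (nat_lit 55) (.e (nat_lit 778452) (nat_lit 10) (.e (nat_lit 8543) (nat_lit 229) (.e (nat_lit 229497) (nat_lit 84) .nil))))))) (.g (nat_lit 1) (.e (nat_lit 408336) (nat_lit 0) .nil) .nil))) 
(.lf (nat_lit 595933) (.g (nat_lit 3098) (.e (nat_lit 548913) (nat_lit 18) (.e (nat_lit 172120) (nat_lit 12) (.e (nat_lit 475183) (nat_lit 29) (.e (nat_lit 557107) (nat_lit 15) (.e (nat_lit 188439) (nat_lit 20) (.e (nat_lit 3270) (nat_lit 199) .nil)))))) (.g (nat_lit 1) (.e (nat_lit 410276) (nat_lit 0) .nil) .nil))))))) (.nd (nat_lit 6) (.nd (nat_lit 7) (.nd (nat_lit 8) (.nd (nat_lit 9) 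
(.lf (nat_lit 595005) (.g (nat_lit 3250) (.e (nat_lit 516151) (nat_lit 9) (.e (nat_lit 426042) (nat_lit 0) (.e (nat_lit 3307) (nat_lit 202) (.e (nat_lit 573484) (nat_lit 13) (.e (nat_lit 65568) (nat_lit 2) (.e (nat_lit 98048) (nat_lit 0) (.e (nat_lit 484) (nat_lit 38) (.e (nat_lit 475175) (nat_lit 24) .nil)))))))) (.g (nat_lit 1) (.e (nat_lit 407615) (nat_lit 0) .nil) .nil))) 
(.lf (nat_lit 595517) (.g (nat_lit 2871) (.e (nat_lit 516174) (nat_lit 14) (.e (nat_lit 466954) (nat_lit 11) (.e (nat_lit 335996) (nat_lit 1) (.e (nat_lit 57692) (nat_lit 156) (.e (nat_lit 163939) (nat_lit 18) (.e (nat_lit 475177) (nat_lit 24) .nil)))))) (.g (nat_lit 1) (.e (nat_lit 408458) (nat_lit 0) .nil) .nil)))) (.nd (nat_lit 9) 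
(.lf (nat_lit 595261) (.g (nat_lit 3535) (.e (nat_lit 516160) (nat_lit 10) (.e (nat_lit 434247) (nat_lit 28) (.e (nat_lit 573484) (nat_lit 13) (.e (nat_lit 65566) (nat_lit 2) (.e (nat_lit 90157) (nat_lit 11) (.e (nat_lit 24670) (nat_lit 15) (.e (nat_lit 7936) (nat_lit 195) .nil))))))) (.g (nat_lit 1) (.e (nat_lit 408048) (nat_lit 0) .nil) .nil))) 
(.lf (nat_lit 595773) (.g (nat_lit 3601) (.e (nat_lit 516195) (nat_lit 26) (.e (nat_lit 335996) (nat_lit 1) (.e (nat_lit 57931) (nat_lit 282) (.e (nat_lit 163902) (nat_lit 12) (.e (nat_lit 426544) (nat_lit 30) (.e (nat_lit 360467) (nat_lit 3) .nil)))))) (.g (nat_lit 1) (.e (nat_lit 408904) (nat_lit 0) .nil) .nil))))) (.nd (nat_lit 8) (.nd (nat_lit 9) 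
(.lf (nat_lit 595133) (.g (nat_lit 988) (.e (nat_lit 516159) (nat_lit 10) (.e (nat_lit 434231) (nat_lit 23) (.e (nat_lit 532507) (nat_lit 2) .nil))) (.g (nat_lit 0) (.e (nat_lit 407770) (nat_lit 0) .nil) .nil))) 
(.lf (nat_lit 595645) (.g (nat_lit 2561) (.e (nat_lit 516181) (nat_lit 15) (.e (nat_lit 475179) (nat_lit 24) (.e (nat_lit 516179) (nat_lit 15) (.e (nat_lit 475177) (nat_lit 24) (.e (nat_lit 516182) (nat_lit 15) (.e (nat_lit 475177) (nat_lit 24) .nil)))))) (.g (nat_lit 1) (.e (nat_lit 408639) (nat_lit 0) .nil) .nil)))) (.nd (nat_lit 9) 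
(.lf (nat_lit 595389) (.g (nat_lit 1106) (.e (nat_lit 516165) (nat_lit 12) (.e (nat_lit 450586) (nat_lit 10) (.e (nat_lit 573478) (nat_lit 12) (.e (nat_lit 57574) (nat_lit 55) (.e (nat_lit 778466) (nat_lit 11) .nil))))) (.g (nat_lit 0) (.e (nat_lit 408302) (nat_lit 0) .nil) .nil))) 
(.lf (nat_lit 595901) (.g (nat_lit 2935) (.e (nat_lit 548911) (nat_lit 18) (.e (nat_lit 172126) (nat_lit 14) (.e (nat_lit 491537) (nat_lit 2) (.e (nat_lit 90170) (nat_lit 13) (.e (nat_lit 172113) (nat_lit 10) (.e (nat_lit 434236) (nat_lit 25) .nil)))))) (.g (nat_lit 1) (.e (nat_lit 409925) (nat_lit 0) .nil) .nil)))))) (.nd (nat_lit 7) (.nd (nat_lit 8) (.nd (nat_lit 9) 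
(.lf (nat_lit 595069) (.g (nat_lit 5940) (.e (nat_lit 516151) (nat_lit 9) (.e (nat_lit 426285) (nat_lit 10) (.e (nat_lit 434247) (nat_lit 28) (.e (nat_lit 573471) (nat_lit 11) (.e (nat_lit 16425) (nat_lit 7) (.e (nat_lit 409617) (nat_lit 10) (.e (nat_lit 7936) (nat_lit 43) .nil))))))) (.g (nat_lit 1) (.e (nat_lit 407686) (nat_lit 0) .nil) .nil))) 
(.lf (nat_lit 595581) (.g (nat_lit 1672) (.e (nat_lit 516179) (nat_lit 15) (.e (nat_lit 475177) (nat_lit 24) (.e (nat_lit 516150) (nat_lit 9) (.e (nat_lit 426392) (nat_lit 15) (.e (nat_lit 1796) (nat_lit 119) .nil))))) (.g (nat_lit 0) (.e (nat_lit 408542) (nat_lit 0) .nil) .nil)))) (.nd (nat_lit 9) 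
(.lf (nat_lit 595325) (.g (nat_lit 3544) (.e (nat_lit 516160) (nat_lit 10) (.e (nat_lit 434248) (nat_lit 28) (.e (nat_lit 573482) (nat_lit 13) (.e (nat_lit 65570) (nat_lit 3) (.e (nat_lit 98317) (nat_lit 9) (.e (nat_lit 336288) (nat_lit 15) (.e (nat_lit 7936) (nat_lit 195) .nil))))))) (.g (nat_lit 1) (.e (nat_lit 408144) (nat_lit 0) .nil) .nil))) 
(.lf (nat_lit 595837) (.g (nat_lit 2470) (.e (nat_lit 524321) (nat_lit 12) (.e (nat_lit 450588) (nat_lit 10) (.e (nat_lit 573474) (nat_lit 12) (.e (nat_lit 57348) (nat_lit 0) .nil)))) (.g (nat_lit 0) (.e (nat_lit 409258) (nat_lit 0) .nil) .nil))))) (.nd (nat_lit 8) (.nd (nat_lit 9) 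
(.lf (nat_lit 595197) (.g (nat_lit 1665) (.e (nat_lit 516160) (nat_lit 10) (.e (nat_lit 434244) (nat_lit 28) (.e (nat_lit 573488) (nat_lit 14) (.e (nat_lit 73731) (nat_lit 0) .nil)))) (.g (nat_lit 0) (.e (nat_lit 407966) (nat_lit 0) .nil) .nil))) 
(.lf (nat_lit 595709) (.g (nat_lit 2646) (.e (nat_lit 516183) (nat_lit 16) (.e (nat_lit 491566) (nat_lit 12) (.e (nat_lit 385074) (nat_lit 31) (.e (nat_lit 573491) (nat_lit 15) .nil)))) (.g (nat_lit 0) (.e (nat_lit 408762) (nat_lit 0) .nil) .nil)))) (.nd (nat_lit 9) 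
(.lf (nat_lit 595453) (.g (nat_lit 1121) (.e (nat_lit 516166) (nat_lit 12) (.e (nat_lit 450588) (nat_lit 10) (.e (nat_lit 573470) (nat_lit 11) (.e (nat_lit 16424) (nat_lit 7) .nil)))) (.g (nat_lit 0) (.e (nat_lit 408368) (nat_lit 0) .nil) .nil))) 
(.lf (nat_lit 595965) (.g (nat_lit 2368) (.e (nat_lit 548913) (nat_lit 18) (.e (nat_lit 172125) (nat_lit 14) (.e (nat_lit 491540) (nat_lit 3) (.e (nat_lit 98370) (nat_lit 28) (.e (nat_lit 442412) (nat_lit 20) (.e (nat_lit 3271) (nat_lit 199) .nil)))))) (.g (nat_lit 1) (.e (nat_lit 410311) (nat_lit 0) .nil) .nil))))))))))) 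
(.nd (nat_lit 2) (.nd (nat_lit 3) (.nd (nat_lit 4) (.nd (nat_lit 5) (.nd (nat_lit 6) 
(.nd (nat_lit 7) (.nd (nat_lit 8) (.nd (nat_lit 9) 
(.lf (nat_lit 594947) (.g (nat_lit 1699) (.e (nat_lit 516148) (nat_lit 9) (.e (nat_lit 426131) (nat_lit 3) (.e (nat_lit 204838) (nat_lit 20) (.e (nat_lit 114716) (nat_lit 22) .nil)))) (.g (nat_lit 0) (.e (nat_lit 407528) (nat_lit 0) .nil) .nil))) 
(.lf (nat_lit 595459) (.g (nat_lit 1271) (.e (nat_lit 516166) (nat_lit 12) (.e (nat_lit 450588) (nat_lit 10) (.e (nat_lit 573475) (nat_lit 12) (.e (nat_lit 57572) (nat_lit 54) (.e (nat_lit 770073) (nat_lit 9) .nil))))) (.g (nat_lit 0) (.e (nat_lit 408374) (nat_lit 0) .nil) .nil)))) (.nd (nat_lit 9) 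
(.lf (nat_lit 595203) (.g (nat_lit 2426) (.e (nat_lit 516160) (nat_lit 10) (.e (nat_lit 434244) (nat_lit 28) (.e (nat_lit 573488) (nat_lit 14) (.e (nat_lit 73755) (nat_lit 8) (.e (nat_lit 557084) (nat_lit 10) .nil))))) (.g (nat_lit 0) (.e (nat_lit 407974) (nat_lit 0) .nil) .nil))) 
(.lf (nat_lit 595715) (.g (nat_lit 2384) (.e (nat_lit 516184) (nat_lit 16) (.e (nat_lit 491550) (nat_lit 9) (.e (nat_lit 336240) (nat_lit 15) (.e (nat_lit 3309) (nat_lit 202) (.e (nat_lit 573484) (nat_lit 13) (.e (nat_lit 65610) (nat_lit 10) (.e (nat_lit 344117) (nat_lit 21) .nil))))))) (.g (nat_lit 1) (.e (nat_lit 408770) (nat_lit 0) .nil) .nil))))) (.nd (nat_lit 8) (.nd (nat_lit 9) 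
(.lf (nat_lit 595075) (.g (nat_lit 2218) (.e (nat_lit 516151) (nat_lit 9) (.e (nat_lit 426286) (nat_lit 10) (.e (nat_lit 434231) (nat_lit 23) (.e (nat_lit 532523) (nat_lit 7) (.e (nat_lit 319504) (nat_lit 10) .nil))))) (.g (nat_lit 0) (.e (nat_lit 407693) (nat_lit 0) .nil) .nil))) 
(.lf (nat_lit 595587) (.g (nat_lit 1958) (.e (nat_lit 516179) (nat_lit 15) (.e (nat_lit 475177) (nat_lit 24) (.e (nat_lit 516180) (nat_lit 15) (.e (nat_lit 475179) (nat_lit 24) (.e (nat_lit 516182) (nat_lit 15) .nil))))) (.g (nat_lit 0) (.e (nat_lit 408549) (nat_lit 0) .nil) .nil)))) (.nd (nat_lit 9) 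
(.lf (nat_lit 595331) (.g (nat_lit 3391) (.e (nat_lit 516160) (nat_lit 10) (.e (nat_lit 434248) (nat_lit 28) (.e (nat_lit 573482) (nat_lit 13) (.e (nat_lit 65571) (nat_lit 3) (.e (nat_lit 98317) (nat_lit 9) (.e (nat_lit 336293) (nat_lit 15) (.e (nat_lit 7936) (nat_lit 195) .nil))))))) (.g (nat_lit 1) (.e (nat_lit 408150) (nat_lit 0) .nil) .nil))) 
(.lf (nat_lit 595843) (.g (nat_lit 2944) (.e (nat_lit 524321) (nat_lit 12) (.e (nat_lit 450588) (nat_lit 10) (.e (nat_lit 573475) (nat_lit 12) (.e (nat_lit 57574) (nat_lit 55) (.e (nat_lit 778466) (nat_lit 11) .nil))))) (.g (nat_lit 0) (.e (nat_lit 409270) (nat_lit 0) .nil) .nil)))))) (.nd (nat_lit 7) (.nd (nat_lit 8) (.nd (nat_lit 9) 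
(.lf (nat_lit 595011) (.g (nat_lit 3168) (.e (nat_lit 516151) (nat_lit 9) (.e (nat_lit 426043) (nat_lit 0) (.e (nat_lit 3369) (nat_lit 208) (.e (nat_lit 622624) (nat_lit 13) (.e (nat_lit 2668) (nat_lit 167) (.e (nat_lit 196666) (nat_lit 13) (.e (nat_lit 65610) (nat_lit 10) (.e (nat_lit 344117) (nat_lit 21) .nil)))))))) (.g (nat_lit 1) (.e (nat_lit 407621) (nat_lit 0) .nil) .nil))) 
(.lf (nat_lit 595523) (.g (nat_lit 1314) (.e (nat_lit 516175) (nat_lit 14) (.e (nat_lit 466971) (nat_lit 21) (.e (nat_lit 164179) (nat_lit 154) (.e (nat_lit 57390) (nat_lit 5) .nil)))) (.g (nat_lit 0) (.e (nat_lit 408464) (nat_lit 0) .nil) .nil)))) (.nd (nat_lit 9) 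
(.lf (nat_lit 595267) (.g (nat_lit 3528) (.e (nat_lit 516160) (nat_lit 10) (.e (nat_lit 434247) (nat_lit 28) (.e (nat_lit 573484) (nat_lit 13) (.e (nat_lit 65569) (nat_lit 3) (.e (nat_lit 98313) (nat_lit 9) (.e (nat_lit 336288) (nat_lit 15) (.e (nat_lit 7936) (nat_lit 195) .nil))))))) (.g (nat_lit 1) (.e (nat_lit 408057) (nat_lit 0) .nil) .nil))) 
(.lf (nat_lit 595779) (.g (nat_lit 2194) (.e (nat_lit 516195) (nat_lit 26) (.e (nat_lit 336027) (nat_lit 3) (.e (nat_lit 98333) (nat_lit 18) (.e (nat_lit 171776) (nat_lit 162) .nil)))) (.g (nat_lit 0) (.e (nat_lit 408917) (nat_lit 0) .nil) .nil))))) (.nd (nat_lit 8) (.nd (nat_lit 9) 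
(.lf (nat_lit 595139) (.g (nat_lit 2518) (.e (nat_lit 516159) (nat_lit 10) (.e (nat_lit 434244) (nat_lit 28) (.e (nat_lit 573451) (nat_lit 9) (.e (nat_lit 1449) (nat_lit 108) .nil)))) (.g (nat_lit 0) (.e (nat_lit 407796) (nat_lit 0) .nil) .nil))) 
(.lf (nat_lit 595651) (.g (nat_lit 1562) (.e (nat_lit 516181) (nat_lit 15) (.e (nat_lit 475198) (nat_lit 40) (.e (nat_lit 704590) (nat_lit 3) (.e (nat_lit 163975) (nat_lit 30) .nil)))) (.g (nat_lit 0) (.e (nat_lit 408650) (nat_lit 0) .nil) .nil)))) (.nd (nat_lit 9) 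
(.lf (nat_lit 595395) (.g (nat_lit 4073) (.e (nat_lit 516166) (nat_lit 12) (.e (nat_lit 450585) (nat_lit 10) (.e (nat_lit 573450) (nat_lit 9) (.e (nat_lit 375) (nat_lit 32) (.e (nat_lit 426173) (nat_lit 7) (.e (nat_lit 409616) (nat_lit 10) (.e (nat_lit 7936) (nat_lit 43) .nil))))))) (.g (nat_lit 1) (.e (nat_lit 408310) (nat_lit 0) .nil) .nil))) 
(.lf (nat_lit 595907) (.g (nat_lit 2291) (.e (nat_lit 548911) (nat_lit 18) (.e (nat_lit 172126) (nat_lit 14) (.e (nat_lit 491537) (nat_lit 2) (.e (nat_lit 90185) (nat_lit 17) (.e (nat_lit 237605) (nat_lit 9) .nil))))) (.g (nat_lit 0) (.e (nat_lit 409931) (nat_lit 0) .nil) .nil))))))) (.nd (nat_lit 6) (.nd (nat_lit 7) (.nd (nat_lit 8) (.nd (nat_lit 9) 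
(.lf (nat_lit 594979) (.g (nat_lit 2608) (.e (nat_lit 516149) (nat_lit 9) (.e (nat_lit 426323) (nat_lit 13) (.e (nat_lit 483365) (nat_lit 18) (.e (nat_lit 57688) (nat_lit 156) (.e (nat_lit 163936) (nat_lit 18) (.e (nat_lit 475177) (nat_lit 24) .nil)))))) (.g (nat_lit 1) (.e (nat_lit 407578) (nat_lit 0) .nil) .nil))) 
(.lf (nat_lit 595491) (.g (nat_lit 2743) (.e (nat_lit 516174) (nat_lit 14) (.e (nat_lit 466954) (nat_lit 11) (.e (nat_lit 335986) (nat_lit 1) (.e (nat_lit 57692) (nat_lit 156) (.e (nat_lit 163938) (nat_lit 18) (.e (nat_lit 475177) (nat_lit 24) .nil)))))) (.g (nat_lit 1) (.e (nat_lit 408430) (nat_lit 0) .nil) .nil)))) (.nd (nat_lit 9) 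
(.lf (nat_lit 595235) (.g (nat_lit 2419) (.e (nat_lit 516160) (nat_lit 10) (.e (nat_lit 434246) (nat_lit 28) (.e (nat_lit 573482) (nat_lit 13) (.e (nat_lit 65568) (nat_lit 2) (.e (nat_lit 90157) (nat_lit 11) (.e (nat_lit 24670) (nat_lit 15) (.e (nat_lit 7936) (nat_lit 195) .nil))))))) (.g (nat_lit 1) (.e (nat_lit 408017) (nat_lit 0) .nil) .nil))) 
(.lf (nat_lit 595747) (.g (nat_lit 3362) (.e (nat_lit 516195) (nat_lit 26) (.e (nat_lit 335986) (nat_lit 1) (.e (nat_lit 57926) (nat_lit 282) (.e (nat_lit 163943) (nat_lit 19) (.e (nat_lit 483398) (nat_lit 25) (.e (nat_lit 368676) (nat_lit 21) .nil)))))) (.g (nat_lit 1) (.e (nat_lit 408843) (nat_lit 0) .nil) .nil))))) (.nd (nat_lit 8) (.nd (nat_lit 9) 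
(.lf (nat_lit 595107) (.g (nat_lit 4748) (.e (nat_lit 516151) (nat_lit 9) (.e (nat_lit 426286) (nat_lit 10) (.e (nat_lit 434248) (nat_lit 28) (.e (nat_lit 573471) (nat_lit 11) (.e (nat_lit 16469) (nat_lit 14) (.e (nat_lit 491526) (nat_lit 0) (.e (nat_lit 1788) (nat_lit 119) .nil))))))) (.g (nat_lit 1) (.e (nat_lit 407725) (nat_lit 0) .nil) .nil))) 
(.lf (nat_lit 595619) (.g (nat_lit 1318) (.e (nat_lit 516180) (nat_lit 15) (.e (nat_lit 475177) (nat_lit 24) (.e (nat_lit 516150) (nat_lit 9) (.e (nat_lit 426428) (nat_lit 17) .nil)))) (.g (nat_lit 0) (.e (nat_lit 408602) (nat_lit 0) .nil) .nil)))) (.nd (nat_lit 9) 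
(.lf (nat_lit 595363) (.g (nat_lit 1466) (.e (nat_lit 516162) (nat_lit 11) (.e (nat_lit 442427) (nat_lit 23) (.e (nat_lit 204846) (nat_lit 24) (.e (nat_lit 319534) (nat_lit 16) .nil)))) (.g (nat_lit 0) (.e (nat_lit 408271) (nat_lit 0) .nil) .nil))) 
(.lf (nat_lit 595875) (.g (nat_lit 849) (.e (nat_lit 532224) (nat_lit 29) (.e (nat_lit 360493) (nat_lit 27) (.e (nat_lit 819203) (nat_lit 0) (.e (nat_lit 3015) (nat_lit 187) (.e (nat_lit 458496) (nat_lit 4) .nil))))) (.g (nat_lit 0) (.e (nat_lit 409358) (nat_lit 0) .nil) .nil)))))) (.nd (nat_lit 7) (.nd (nat_lit 8) (.nd (nat_lit 9) 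
(.lf (nat_lit 595043) (.g (nat_lit 2935) (.e (nat_lit 516151) (nat_lit 9) (.e (nat_lit 426211) (nat_lit 9) (.e (nat_lit 426125) (nat_lit 2) (.e (nat_lit 196661) (nat_lit 12) (.e (nat_lit 57711) (nat_lit 176) .nil))))) (.g (nat_lit 0) (.e (nat_lit 407660) (nat_lit 0) .nil) .nil))) 
(.lf (nat_lit 595555) (.g (nat_lit 2397) (.e (nat_lit 516177) (nat_lit 14) (.e (nat_lit 466974) (nat_lit 22) (.e (nat_lit 196681) (nat_lit 17) (.e (nat_lit 131073) (nat_lit 0) .nil)))) (.g (nat_lit 0) (.e (nat_lit 408508) (nat_lit 0) .nil) .nil)))) (.nd (nat_lit 9) 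
(.lf (nat_lit 595299) (.g (nat_lit 417) (.e (nat_lit 516160) (nat_lit 10) (.e (nat_lit 434248) (nat_lit 28) (.e (nat_lit 573482) (nat_lit 13) .nil))) (.g (nat_lit 0) (.e (nat_lit 408110) (nat_lit 0) .nil) .nil))) 
(.lf (nat_lit 595811) (.g (nat_lit 1134) (.e (nat_lit 524291) (nat_lit 0) (.e (nat_lit 3459) (nat_lit 216) (.e (nat_lit 688139) (nat_lit 5) (.e (nat_lit 3085) (nat_lit 191) (.e (nat_lit 491264) (nat_lit 11) .nil))))) (.g (nat_lit 0) (.e (nat_lit 409058) (nat_lit 0) .nil) .nil))))) (.nd (nat_lit 8) (.nd (nat_lit 9) 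
(.lf (nat_lit 595171) (.g (nat_lit 929) (.e (nat_lit 516160) (nat_lit 10) (.e (nat_lit 434232) (nat_lit 23) (.e (nat_lit 532513) (nat_lit 3) (.e (nat_lit 114714) (nat_lit 22) .nil)))) (.g (nat_lit 0) (.e (nat_lit 407937) (nat_lit 0) .nil) .nil))) 
(.lf (nat_lit 595683) (.g (nat_lit 1990) (.e (nat_lit 516182) (nat_lit 15) (.e (nat_lit 475198) (nat_lit 40) (.e (nat_lit 704590) (nat_lit 3) (.e (nat_lit 163975) (nat_lit 30) (.e (nat_lit 573481) (nat_lit 13) .nil))))) (.g (nat_lit 0) (.e (nat_lit 408713) (nat_lit 0) .nil) .nil)))) (.nd (nat_lit 9) 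
(.lf (nat_lit 595427) (.g (nat_lit 1450) (.e (nat_lit 516166) (nat_lit 12) (.e (nat_lit 450587) (nat_lit 10) (.e (nat_lit 573478) (nat_lit 12) (.e (nat_lit 57574) (nat_lit 55) (.e (nat_lit 778464) (nat_lit 11) .nil))))) (.g (nat_lit 0) (.e (nat_lit 408342) (nat_lit 0) .nil) .nil))) 
(.lf (nat_lit 595939) (.g (nat_lit 1959) (.e (nat_lit 548913) (nat_lit 18) (.e (nat_lit 172120) (nat_lit 12) (.e (nat_lit 475184) (nat_lit 29) (.e (nat_lit 557107) (nat_lit 15) (.e (nat_lit 188439) (nat_lit 20) .nil))))) (.g (nat_lit 0) (.e (nat_lit 410282) (nat_lit 0) .nil) .nil)))))))) (.nd (nat_lit 5) (.nd (nat_lit 6) (.nd (nat_lit 7) (.nd (nat_lit 8) (.nd (nat_lit 9) 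
(.lf (nat_lit 594963) (.g (nat_lit 1679) (.e (nat_lit 516149) (nat_lit 9) (.e (nat_lit 426131) (nat_lit 3) (.e (nat_lit 204838) (nat_lit 20) (.e (nat_lit 114688) (nat_lit 0) .nil)))) (.g (nat_lit 0) (.e (nat_lit 407546) (nat_lit 0) .nil) .nil))) 
(.lf (nat_lit 595475) (.g (nat_lit 1218) (.e (nat_lit 516174) (nat_lit 14) (.e (nat_lit 466954) (nat_lit 11) (.e (nat_lit 335986) (nat_lit 1) (.e (nat_lit 57657) (nat_lit 152) .nil)))) (.g (nat_lit 0) (.e (nat_lit 408411) (nat_lit 0) .nil) .nil)))) (.nd (nat_lit 9) 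
(.lf (nat_lit 595219) (.g (nat_lit 3196) (.e (nat_lit 516160) (nat_lit 10) (.e (nat_lit 434245) (nat_lit 28) (.e (nat_lit 573487) (nat_lit 14) (.e (nat_lit 73747) (nat_lit 3) (.e (nat_lit 516195) (nat_lit 26) (.e (nat_lit 336275) (nat_lit 15) (.e (nat_lit 7936) (nat_lit 195) .nil))))))) (.g (nat_lit 1) (.e (nat_lit 407994) (nat_lit 0) .nil) .nil))) 
(.lf (nat_lit 595731) (.g (nat_lit 1262) (.e (nat_lit 524032) (nat_lit 18) (.e (nat_lit 57931) (nat_lit 282) (.e (nat_lit 163884) (nat_lit 5) (.e (nat_lit 221210) (nat_lit 22) .nil)))) (.g (nat_lit 0) (.e (nat_lit 408808) (nat_lit 0) .nil) .nil))))) (.nd (nat_lit 8) (.nd (nat_lit 9) 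
(.lf (nat_lit 595091) (.g (nat_lit 5505) (.e (nat_lit 516151) (nat_lit 9) (.e (nat_lit 426286) (nat_lit 10) (.e (nat_lit 434245) (nat_lit 28) (.e (nat_lit 573471) (nat_lit 11) (.e (nat_lit 16470) (nat_lit 14) (.e (nat_lit 491526) (nat_lit 0) (.e (nat_lit 1788) (nat_lit 119) .nil))))))) (.g (nat_lit 1) (.e (nat_lit 407709) (nat_lit 0) .nil) .nil))) 
(.lf (nat_lit 595603) (.g (nat_lit 1063) (.e (nat_lit 516179) (nat_lit 15) (.e (nat_lit 475198) (nat_lit 40) (.e (nat_lit 704589) (nat_lit 3) (.e (nat_lit 163979) (nat_lit 30) .nil)))) (.g (nat_lit 0) (.e (nat_lit 408567) (nat_lit 0) .nil) .nil)))) (.nd (nat_lit 9) 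
(.lf (nat_lit 595347) (.g (nat_lit 2892) (.e (nat_lit 516160) (nat_lit 10) (.e (nat_lit 434248) (nat_lit 28) (.e (nat_lit 573489) (nat_lit 14) (.e (nat_lit 73755) (nat_lit 8) (.e (nat_lit 564992) (nat_lit 4) (.e (nat_lit 65637) (nat_lit 15) (.e (nat_lit 7936) (nat_lit 195) .nil))))))) (.g (nat_lit 1) (.e (nat_lit 408177) (nat_lit 0) .nil) .nil))) 
(.lf (nat_lit 595859) (.g (nat_lit 3526) (.e (nat_lit 524322) (nat_lit 12) (.e (nat_lit 450588) (nat_lit 10) (.e (nat_lit 573471) (nat_lit 11) (.e (nat_lit 16392) (nat_lit 0) (.e (nat_lit 6989) (nat_lit 377) .nil))))) (.g (nat_lit 0) (.e (nat_lit 409287) (nat_lit 0) .nil) .nil)))))) (.nd (nat_lit 7) (.nd (nat_lit 8) (.nd (nat_lit 9) 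
(.lf (nat_lit 595027) (.g (nat_lit 4172) (.e (nat_lit 516151) (nat_lit 9) (.e (nat_lit 426043) (nat_lit 0) (.e (nat_lit 3408) (nat_lit 212) (.e (nat_lit 655375) (nat_lit 3) (.e (nat_lit 163977) (nat_lit 30) (.e (nat_lit 573485) (nat_lit 13) (.e (nat_lit 65619) (nat_lit 10) (.e (nat_lit 344117) (nat_lit 21) .nil)))))))) (.g (nat_lit 1) (.e (nat_lit 407637) (nat_lit 0) .nil) .nil))) 
(.lf (nat_lit 595539) (.g (nat_lit 2451) (.e (nat_lit 516176) (nat_lit 14) (.e (nat_lit 466954) (nat_lit 11) (.e (nat_lit 335987) (nat_lit 1) (.e (nat_lit 57692) (nat_lit 156) (.e (nat_lit 163938) (nat_lit 18) (.e (nat_lit 475177) (nat_lit 24) .nil)))))) (.g (nat_lit 1) (.e (nat_lit 408487) (nat_lit 0) .nil) .nil)))) (.nd (nat_lit 9) 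
(.lf (nat_lit 595283) (.g (nat_lit 2052) (.e (nat_lit 516160) (nat_lit 10) (.e (nat_lit 434247) (nat_lit 28) (.e (nat_lit 573485) (nat_lit 13) (.e (nat_lit 65569) (nat_lit 3) (.e (nat_lit 98325) (nat_lit 17) .nil))))) (.g (nat_lit 0) (.e (nat_lit 408082) (nat_lit 0) .nil) .nil))) 
(.lf (nat_lit 595795) (.g (nat_lit 2492) (.e (nat_lit 516199) (nat_lit 26) (.e (nat_lit 335996) (nat_lit 1) (.e (nat_lit 57931) (nat_lit 282) (.e (nat_lit 163905) (nat_lit 12) (.e (nat_lit 426546) (nat_lit 30) (.e (nat_lit 360466) (nat_lit 3) .nil)))))) (.g (nat_lit 1) (.e (nat_lit 408997) (nat_lit 0) .nil) .nil))))) (.nd (nat_lit 8) (.nd (nat_lit 9) 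
(.lf (nat_lit 595155) (.g (nat_lit 489) (.e (nat_lit 516159) (nat_lit 10) (.e (nat_lit 434248) (nat_lit 28) (.e (nat_lit 573482) (nat_lit 13) .nil))) (.g (nat_lit 0) (.e (nat_lit 407873) (nat_lit 0) .nil) .nil))) 
(.lf (nat_lit 595667) (.g (nat_lit 2611) (.e (nat_lit 516182) (nat_lit 15) (.e (nat_lit 475177) (nat_lit 24) (.e (nat_lit 516181) (nat_lit 15) (.e (nat_lit 475177) (nat_lit 24) (.e (nat_lit 516179) (nat_lit 15) (.e (nat_lit 475179) (nat_lit 24) .nil)))))) (.g (nat_lit 1) (.e (nat_lit 408679) (nat_lit 0) .nil) .nil)))) (.nd (nat_lit 9) 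
(.lf (nat_lit 595411) (.g (nat_lit 3464) (.e (nat_lit 516166) (nat_lit 12) (.e (nat_lit 450587) (nat_lit 10) (.e (nat_lit 573469) (nat_lit 11) (.e (nat_lit 16392) (nat_lit 0) (.e (nat_lit 7107) (nat_lit 380) (.e (nat_lit 171776) (nat_lit 84) .nil)))))) (.g (nat_lit 1) (.e (nat_lit 408326) (nat_lit 0) .nil) .nil))) 
(.lf (nat_lit 595923) (.g (nat_lit 2176) (.e (nat_lit 548912) (nat_lit 18) (.e (nat_lit 172126) (nat_lit 14) (.e (nat_lit 491540) (nat_lit 3) (.e (nat_lit 98374) (nat_lit 29) (.e (nat_lit 450583) (nat_lit 7) .nil))))) (.g (nat_lit 0) (.e (nat_lit 409961) (nat_lit 0) .nil) .nil))))))) (.nd (nat_lit 6) (.nd (nat_lit 7) (.nd (nat_lit 8) (.nd (nat_lit 9) 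
(.lf (nat_lit 594995) (.g (nat_lit 1526) (.e (nat_lit 516150) (nat_lit 9) (.e (nat_lit 426323) (nat_lit 13) (.e (nat_lit 483364) (nat_lit 18) (.e (nat_lit 57690) (nat_lit 156) (.e (nat_lit 163938) (nat_lit 18) .nil))))) (.g (nat_lit 0) (.e (nat_lit 407602) (nat_lit 0) .nil) .nil))) 
(.lf (nat_lit 595507) (.g (nat_lit 1890) (.e (nat_lit 516174) (nat_lit 14) (.e (nat_lit 466954) (nat_lit 11) (.e (nat_lit 335995) (nat_lit 1) (.e (nat_lit 57685) (nat_lit 156) (.e (nat_lit 163936) (nat_lit 18) .nil))))) (.g (nat_lit 0) (.e (nat_lit 408447) (nat_lit 0) .nil) .nil)))) (.nd (nat_lit 9) 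
(.lf (nat_lit 595251) (.g (nat_lit 3035) (.e (nat_lit 516160) (nat_lit 10) (.e (nat_lit 434246) (nat_lit 28) (.e (nat_lit 573487) (nat_lit 14) (.e (nat_lit 73747) (nat_lit 3) (.e (nat_lit 516195) (nat_lit 26) (.e (nat_lit 336293) (nat_lit 15) (.e (nat_lit 7936) (nat_lit 195) .nil))))))) (.g (nat_lit 1) (.e (nat_lit 408033) (nat_lit 0) .nil) .nil))) 
(.lf (nat_lit 595763) (.g (nat_lit 695) (.e (nat_lit 516195) (nat_lit 26) (.e (nat_lit 335995) (nat_lit 1) (.e (nat_lit 57930) (nat_lit 282) .nil))) (.g (nat_lit 0) (.e (nat_lit 408886) (nat_lit 0) .nil) .nil))))) (.nd (nat_lit 8) (.nd (nat_lit 9) 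
(.lf (nat_lit 595123) (.g (nat_lit 1632) (.e (nat_lit 516158) (nat_lit 9) (.e (nat_lit 426187) (nat_lit 9) (.e (nat_lit 426568) (nat_lit 34) (.e (nat_lit 393238) (nat_lit 17) (.e (nat_lit 3397) (nat_lit 211) (.e (nat_lit 647181) (nat_lit 3) (.e (nat_lit 171776) (nat_lit 23) .nil))))))) (.g (nat_lit 1) (.e (nat_lit 407754) (nat_lit 0) .nil) .nil))) 
(.lf (nat_lit 595635) (.g (nat_lit 1965) (.e (nat_lit 516181) (nat_lit 15) (.e (nat_lit 475177) (nat_lit 24) (.e (nat_lit 516150) (nat_lit 9) (.e (nat_lit 426360) (nat_lit 15) .nil)))) (.g (nat_lit 0) (.e (nat_lit 408624) (nat_lit 0) .nil) .nil)))) (.nd (nat_lit 9) 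
(.lf (nat_lit 595379) (.g (nat_lit 1763) (.e (nat_lit 516164) (nat_lit 11) (.e (nat_lit 442404) (nat_lit 20) (.e (nat_lit 3238) (nat_lit 197) (.e (nat_lit 532523) (nat_lit 7) (.e (nat_lit 319504) (nat_lit 10) .nil))))) (.g (nat_lit 0) (.e (nat_lit 408287) (nat_lit 0) .nil) .nil))) 
(.lf (nat_lit 595891) (.g (nat_lit 1310) (.e (nat_lit 548907) (nat_lit 16) (.e (nat_lit 24660) (nat_lit 13) (.e (nat_lit 393253) (nat_lit 18) (.e (nat_lit 164179) (nat_lit 154) .nil)))) (.g (nat_lit 0) (.e (nat_lit 409895) (nat_lit 0) .nil) .nil)))))) (.nd (nat_lit 7) (.nd (nat_lit 8) (.nd (nat_lit 9) 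
(.lf (nat_lit 595059) (.g (nat_lit 3816) (.e (nat_lit 516151) (nat_lit 9) (.e (nat_lit 426285) (nat_lit 10) (.e (nat_lit 434244) (nat_lit 28) (.e (nat_lit 573450) (nat_lit 9) (.e (nat_lit 375) (nat_lit 32) (.e (nat_lit 426173) (nat_lit 7) (.e (nat_lit 409616) (nat_lit 10) (.e (nat_lit 7936) (nat_lit 43) .nil)))))))) (.g (nat_lit 1) (.e (nat_lit 407676) (nat_lit 0) .nil) .nil))) 
(.lf (nat_lit 595571) (.g (nat_lit 3352) (.e (nat_lit 516179) (nat_lit 15) (.e (nat_lit 475169) (nat_lit 22) (.e (nat_lit 499926) (nat_lit 10) (.e (nat_lit 180251) (nat_lit 10) (.e (nat_lit 573484) (nat_lit 13) (.e (nat_lit 65642) (nat_lit 15) (.e (nat_lit 7936) (nat_lit 195) .nil))))))) (.g (nat_lit 1) (.e (nat_lit 408529) (nat_lit 0) .nil) .nil)))) (.nd (nat_lit 9) 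
(.lf (nat_lit 595315) (.g (nat_lit 3349) (.e (nat_lit 516160) (nat_lit 10) (.e (nat_lit 434248) (nat_lit 28) (.e (nat_lit 573482) (nat_lit 13) (.e (nat_lit 65568) (nat_lit 2) (.e (nat_lit 90157) (nat_lit 11) (.e (nat_lit 24671) (nat_lit 15) (.e (nat_lit 7936) (nat_lit 195) .nil))))))) (.g (nat_lit 1) (.e (nat_lit 408133) (nat_lit 0) .nil) .nil))) 
(.lf (nat_lit 595827) (.g (nat_lit 2639) (.e (nat_lit 524319) (nat_lit 11) (.e (nat_lit 442427) (nat_lit 23) (.e (nat_lit 204863) (nat_lit 27) (.e (nat_lit 344160) (nat_lit 37) (.e (nat_lit 647195) (nat_lit 9) (.e (nat_lit 42) (nat_lit 0) (.e (nat_lit 3221) (nat_lit 196) .nil))))))) (.g (nat_lit 1) (.e (nat_lit 409240) (nat_lit 0) .nil) .nil))))) (.nd (nat_lit 8) (.nd (nat_lit 9) 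
(.lf (nat_lit 595187) (.g (nat_lit 3548) (.e (nat_lit 516160) (nat_lit 10) (.e (nat_lit 434244) (nat_lit 28) (.e (nat_lit 573481) (nat_lit 13) (.e (nat_lit 65571) (nat_lit 3) (.e (nat_lit 98313) (nat_lit 9) (.e (nat_lit 336288) (nat_lit 15) (.e (nat_lit 7936) (nat_lit 195) .nil))))))) (.g (nat_lit 1) (.e (nat_lit 407954) (nat_lit 0) .nil) .nil))) 
(.lf (nat_lit 595699) (.g (nat_lit 3548) (.e (nat_lit 516182) (nat_lit 15) (.e (nat_lit 475199) (nat_lit 40) (.e (nat_lit 704589) (nat_lit 3) (.e (nat_lit 163979) (nat_lit 30) (.e (nat_lit 573482) (nat_lit 13) (.e (nat_lit 65619) (nat_lit 10) (.e (nat_lit 344116) (nat_lit 21) .nil))))))) (.g (nat_lit 1) (.e (nat_lit 408744) (nat_lit 0) .nil) .nil)))) (.nd (nat_lit 9) 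
(.lf (nat_lit 595443) (.g (nat_lit 2526) (.e (nat_lit 516166) (nat_lit 12) (.e (nat_lit 450588) (nat_lit 10) (.e (nat_lit 573452) (nat_lit 9) (.e (nat_lit 392) (nat_lit 32) (.e (nat_lit 426172) (nat_lit 7) (.e (nat_lit 409616) (nat_lit 10) (.e (nat_lit 7936) (nat_lit 43) .nil))))))) (.g (nat_lit 1) (.e (nat_lit 408358) (nat_lit 0) .nil) .nil))) 
(.lf (nat_lit 595955) (.g (nat_lit 1190) (.e (nat_lit 548913) (nat_lit 18) (.e (nat_lit 172124) (nat_lit 14) (.e (nat_lit 491540) (nat_lit 3) (.e (nat_lit 98369) (nat_lit 28) (.e (nat_lit 442409) (nat_lit 20) .nil))))) (.g (nat_lit 0) (.e (nat_lit 410301) (nat_lit 0) .nil) .nil))))))))) (.nd (nat_lit 4) (.nd (nat_lit 5) (.nd (nat_lit 6) (.nd (nat_lit 7) (.nd (nat_lit 8) (.nd (nat_lit 9) 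
(.lf (nat_lit 594955) (.g (nat_lit 3479) (.e (nat_lit 516148) (nat_lit 9) (.e (nat_lit 426436) (nat_lit 18) (.e (nat_lit 98386) (nat_lit 32) (.e (nat_lit 475177) (nat_lit 24) (.e (nat_lit 516179) (nat_lit 15) (.e (nat_lit 475177) (nat_lit 24) .nil)))))) (.g (nat_lit 1) (.e (nat_lit 407537) (nat_lit 0) .nil) .nil))) 
(.lf (nat_lit 595467) (.g (nat_lit 1189) (.e (nat_lit 516167) (nat_lit 12) (.e (nat_lit 450580) (nat_lit 5) (.e (nat_lit 532526) (nat_lit 8) (.e (nat_lit 327703) (nat_lit 10) .nil)))) (.g (nat_lit 0) (.e (nat_lit 408383) (nat_lit 0) .nil) .nil)))) (.nd (nat_lit 9) 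
(.lf (nat_lit 595211) (.g (nat_lit 2406) (.e (nat_lit 516160) (nat_lit 10) (.e (nat_lit 434245) (nat_lit 28) (.e (nat_lit 573481) (nat_lit 13) (.e (nat_lit 65568) (nat_lit 2) (.e (nat_lit 90157) (nat_lit 11) (.e (nat_lit 24671) (nat_lit 15) (.e (nat_lit 7936) (nat_lit 195) .nil))))))) (.g (nat_lit 1) (.e (nat_lit 407985) (nat_lit 0) .nil) .nil))) 
(.lf (nat_lit 595723) (.g (nat_lit 652) (.e (nat_lit 516185) (nat_lit 16) (.e (nat_lit 491560) (nat_lit 10) (.e (nat_lit 344105) (nat_lit 19) (.e (nat_lit 499910) (nat_lit 8) .nil)))) (.g (nat_lit 0) (.e (nat_lit 408779) (nat_lit 0) .nil) .nil))))) (.nd (nat_lit 8) (.nd (nat_lit 9) 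
(.lf (nat_lit 595083) (.g (nat_lit 4132) (.e (nat_lit 516151) (nat_lit 9) (.e (nat_lit 426286) (nat_lit 10) (.e (nat_lit 434245) (nat_lit 28) (.e (nat_lit 573470) (nat_lit 11) (.e (nat_lit 16388) (nat_lit 0) (.e (nat_lit 7581) (nat_lit 405) (.e (nat_lit 57464) (nat_lit 23) .nil))))))) (.g (nat_lit 1) (.e (nat_lit 407701) (nat_lit 0) .nil) .nil))) 
(.lf (nat_lit 595595) (.g (nat_lit 3480) (.e (nat_lit 516179) (nat_lit 15) (.e (nat_lit 475179) (nat_lit 24) (.e (nat_lit 516151) (nat_lit 9) (.e (nat_lit 426042) (nat_lit 0) (.e (nat_lit 3307) (nat_lit 202) (.e (nat_lit 573484) (nat_lit 13) (.e (nat_lit 65642) (nat_lit 15) (.e (nat_lit 7936) (nat_lit 195) .nil)))))))) (.g (nat_lit 1) (.e (nat_lit 408558) (nat_lit 0) .nil) .nil)))) 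
(.nd (nat_lit 9) 
(.lf (nat_lit 595339) (.g (nat_lit 3308) (.e (nat_lit 516160) (nat_lit 10) (.e (nat_lit 434248) (nat_lit 28) (.e (nat_lit 573487) (nat_lit 14) (.e (nat_lit 73747) (nat_lit 3) (.e (nat_lit 516195) (nat_lit 26) (.e (nat_lit 336291) (nat_lit 15) (.e (nat_lit 7936) (nat_lit 195) .nil))))))) (.g (nat_lit 1) (.e (nat_lit 408163) (nat_lit 0) .nil) .nil))) 
(.lf (nat_lit 595851) (.g (nat_lit 2071) (.e (nat_lit 524322) (nat_lit 12) (.e (nat_lit 450587) (nat_lit 10) (.e (nat_lit 573477) (nat_lit 12) (.e (nat_lit 57575) (nat_lit 55) (.e (nat_lit 778466) (nat_lit 11) .nil))))) (.g (nat_lit 0) (.e (nat_lit 409279) (nat_lit 0) .nil) .nil)))))) (.nd (nat_lit 7) (.nd (nat_lit 8) (.nd (nat_lit 9) 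
(.lf (nat_lit 595019) (.g (nat_lit 4272) (.e (nat_lit 516151) (nat_lit 9) (.e (nat_lit 426043) (nat_lit 0) (.e (nat_lit 3406) (nat_lit 212) (.e (nat_lit 655375) (nat_lit 3) (.e (nat_lit 163977) (nat_lit 30) (.e (nat_lit 573485) (nat_lit 13) (.e (nat_lit 65619) (nat_lit 10) (.e (nat_lit 344117) (nat_lit 21) .nil)))))))) (.g (nat_lit 1) (.e (nat_lit 407629) (nat_lit 0) .nil) .nil))) 
(.lf (nat_lit 595531) (.g (nat_lit 2060) (.e (nat_lit 516176) (nat_lit 14) (.e (nat_lit 466954) (nat_lit 11) (.e (nat_lit 335986) (nat_lit 1) (.e (nat_lit 57671) (nat_lit 152) .nil)))) (.g (nat_lit 0) (.e (nat_lit 408478) (nat_lit 0) .nil) .nil)))) (.nd (nat_lit 9) 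
(.lf (nat_lit 595275) (.g (nat_lit 2296) (.e (nat_lit 516160) (nat_lit 10) (.e (nat_lit 434247) (nat_lit 28) (.e (nat_lit 573485) (nat_lit 13) (.e (nat_lit 65566) (nat_lit 2) (.e (nat_lit 90157) (nat_lit 11) (.e (nat_lit 24670) (nat_lit 15) (.e (nat_lit 7936) (nat_lit 195) .nil))))))) (.g (nat_lit 1) (.e (nat_lit 408068) (nat_lit 0) .nil) .nil))) 
(.lf (nat_lit 595787) (.g (nat_lit 2573) (.e (nat_lit 516199) (nat_lit 26) (.e (nat_lit 335986) (nat_lit 1) (.e (nat_lit 57927) (nat_lit 282) (.e (nat_lit 163903) (nat_lit 12) (.e (nat_lit 426546) (nat_lit 30) (.e (nat_lit 360466) (nat_lit 3) .nil)))))) (.g (nat_lit 1) (.e (nat_lit 408987) (nat_lit 0) .nil) .nil))))) (.nd (nat_lit 8) (.nd (nat_lit 9) 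
(.lf (nat_lit 595147) (.g (nat_lit 2073) (.e (nat_lit 516159) (nat_lit 10) (.e (nat_lit 434244) (nat_lit 28) (.e (nat_lit 573487) (nat_lit 14) (.e (nat_lit 73747) (nat_lit 3) .nil)))) (.g (nat_lit 0) (.e (nat_lit 407827) (nat_lit 0) .nil) .nil))) 
(.lf (nat_lit 595659) (.g (nat_lit 1755) (.e (nat_lit 516182) (nat_lit 15) (.e (nat_lit 475177) (nat_lit 24) (.e (nat_lit 516150) (nat_lit 9) (.e (nat_lit 426360) (nat_lit 15) .nil)))) (.g (nat_lit 0) (.e (nat_lit 408668) (nat_lit 0) .nil) .nil)))) (.nd (nat_lit 9) 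
(.lf (nat_lit 595403) (.g (nat_lit 3074) (.e (nat_lit 516166) (nat_lit 12) (.e (nat_lit 450587) (nat_lit 10) (.e (nat_lit 573456) (nat_lit 9) (.e (nat_lit 430) (nat_lit 32) (.e (nat_lit 426172) (nat_lit 7) (.e (nat_lit 409616) (nat_lit 10) (.e (nat_lit 7936) (nat_lit 43) .nil))))))) (.g (nat_lit 1) (.e (nat_lit 408318) (nat_lit 0) .nil) .nil))) 
(.lf (nat_lit 595915) (.g (nat_lit 3036) (.e (nat_lit 548912) (nat_lit 18) (.e (nat_lit 172120) (nat_lit 12) (.e (nat_lit 475185) (nat_lit 29) (.e (nat_lit 557109) (nat_lit 15) (.e (nat_lit 188434) (nat_lit 20) .nil))))) (.g (nat_lit 0) (.e (nat_lit 409953) (nat_lit 0) .nil) .nil))))))) (.nd (nat_lit 6) (.nd (nat_lit 7) (.nd (nat_lit 8) (.nd (nat_lit 9) 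
(.lf (nat_lit 594987) (.g (nat_lit 1415) (.e (nat_lit 516150) (nat_lit 9) (.e (nat_lit 426323) (nat_lit 13) (.e (nat_lit 483363) (nat_lit 18) (.e (nat_lit 57657) (nat_lit 152) .nil)))) (.g (nat_lit 0) (.e (nat_lit 407590) (nat_lit 0) .nil) .nil))) 
(.lf (nat_lit 595499) (.g (nat_lit 3050) (.e (nat_lit 516174) (nat_lit 14) (.e (nat_lit 466954) (nat_lit 11) (.e (nat_lit 335988) (nat_lit 1) (.e (nat_lit 57691) (nat_lit 156) (.e (nat_lit 163939) (nat_lit 18) (.e (nat_lit 475177) (nat_lit 24) .nil)))))) (.g (nat_lit 1) (.e (nat_lit 408439) (nat_lit 0) .nil) .nil)))) (.nd (nat_lit 9) 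
(.lf (nat_lit 595243) (.g (nat_lit 1548) (.e (nat_lit 516160) (nat_lit 10) (.e (nat_lit 434246) (nat_lit 28) (.e (nat_lit 573484) (nat_lit 13) (.e (nat_lit 65569) (nat_lit 3) .nil)))) (.g (nat_lit 0) (.e (nat_lit 408025) (nat_lit 0) .nil) .nil))) 
(.lf (nat_lit 595755) (.g (nat_lit 2689) (.e (nat_lit 516195) (nat_lit 26) (.e (nat_lit 335988) (nat_lit 1) (.e (nat_lit 57926) (nat_lit 282) (.e (nat_lit 163941) (nat_lit 19) (.e (nat_lit 483398) (nat_lit 25) (.e (nat_lit 368676) (nat_lit 21) .nil)))))) (.g (nat_lit 1) (.e (nat_lit 408857) (nat_lit 0) .nil) .nil))))) (.nd (nat_lit 8) (.nd (nat_lit 9) 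
(.lf (nat_lit 595115) (.g (nat_lit 1926) (.e (nat_lit 516151) (nat_lit 9) (.e (nat_lit 426338) (nat_lit 14) (.e (nat_lit 491577) (nat_lit 15) (.e (nat_lit 3255) (nat_lit 197) (.e (nat_lit 532515) (nat_lit 3) (.e (nat_lit 114723) (nat_lit 24) (.e (nat_lit 106532) (nat_lit 10) (.e (nat_lit 16128) (nat_lit 13) .nil)))))))) (.g (nat_lit 1) (.e (nat_lit 407733) (nat_lit 0) .nil) .nil))) 
(.lf (nat_lit 595627) (.g (nat_lit 923) (.e (nat_lit 516180) (nat_lit 15) (.e (nat_lit 475179) (nat_lit 24) (.e (nat_lit 516150) (nat_lit 9) .nil))) (.g (nat_lit 0) (.e (nat_lit 408612) (nat_lit 0) .nil) .nil)))) (.nd (nat_lit 9) 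
(.lf (nat_lit 595371) (.g (nat_lit 3460) (.e (nat_lit 516163) (nat_lit 11) (.e (nat_lit 442411) (nat_lit 20) (.e (nat_lit 3297) (nat_lit 202) (.e (nat_lit 573450) (nat_lit 9) (.e (nat_lit 375) (nat_lit 32) (.e (nat_lit 426173) (nat_lit 7) (.e (nat_lit 409616) (nat_lit 10) (.e (nat_lit 7936) (nat_lit 43) .nil)))))))) (.g (nat_lit 1) (.e (nat_lit 408279) (nat_lit 0) .nil) .nil))) 
(.lf (nat_lit 595883) (.g (nat_lit 575) (.e (nat_lit 548898) (nat_lit 14) (.e (nat_lit 3098) (nat_lit 192) (.e (nat_lit 491546) (nat_lit 9) .nil))) (.g (nat_lit 0) (.e (nat_lit 409871) (nat_lit 0) .nil) .nil)))))) (.nd (nat_lit 7) (.nd (nat_lit 8) (.nd (nat_lit 9) 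
(.lf (nat_lit 595051) (.g (nat_lit 956) (.e (nat_lit 516151) (nat_lit 9) (.e (nat_lit 426211) (nat_lit 9) (.e (nat_lit 426140) (nat_lit 3) (.e (nat_lit 204845) (nat_lit 24) .nil)))) (.g (nat_lit 0) (.e (nat_lit 407668) (nat_lit 0) .nil) .nil))) 
(.lf (nat_lit 595563) (.g (nat_lit 1610) (.e (nat_lit 516178) (nat_lit 15) (.e (nat_lit 475179) (nat_lit 24) (.e (nat_lit 516179) (nat_lit 15) (.e (nat_lit 475177) (nat_lit 24) .nil)))) (.g (nat_lit 0) (.e (nat_lit 408518) (nat_lit 0) .nil) .nil)))) (.nd (nat_lit 9) 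
(.lf (nat_lit 595307) (.g (nat_lit 2674) (.e (nat_lit 516160) (nat_lit 10) (.e (nat_lit 434248) (nat_lit 28) (.e (nat_lit 573482) (nat_lit 13) (.e (nat_lit 65566) (nat_lit 2) (.e (nat_lit 90159) (nat_lit 11) (.e (nat_lit 24671) (nat_lit 15) (.e (nat_lit 7936) (nat_lit 195) .nil))))))) (.g (nat_lit 1) (.e (nat_lit 408120) (nat_lit 0) .nil) .nil))) 
(.lf (nat_lit 595819) (.g (nat_lit 3711) (.e (nat_lit 524319) (nat_lit 11) (.e (nat_lit 442412) (nat_lit 20) (.e (nat_lit 3272) (nat_lit 199) (.e (nat_lit 548913) (nat_lit 18) (.e (nat_lit 172126) (nat_lit 14) (.e (nat_lit 491524) (nat_lit 0) (.e (nat_lit 1812) (nat_lit 120) .nil))))))) (.g (nat_lit 1) (.e (nat_lit 409226) (nat_lit 0) .nil) .nil))))) (.nd (nat_lit 8) (.nd (nat_lit 9) 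
(.lf (nat_lit 595179) (.g (nat_lit 1514) (.e (nat_lit 516160) (nat_lit 10) (.e (nat_lit 434244) (nat_lit 28) (.e (nat_lit 573481) (nat_lit 13) (.e (nat_lit 65568) (nat_lit 2) .nil)))) (.g (nat_lit 0) (.e (nat_lit 407945) (nat_lit 0) .nil) .nil))) 
(.lf (nat_lit 595691) (.g (nat_lit 2043) (.e (nat_lit 516182) (nat_lit 15) (.e (nat_lit 475199) (nat_lit 40) (.e (nat_lit 704589) (nat_lit 3) (.e (nat_lit 163976) (nat_lit 30) (.e (nat_lit 573481) (nat_lit 13) (.e (nat_lit 65609) (nat_lit 10) (.e (nat_lit 344116) (nat_lit 21) .nil))))))) (.g (nat_lit 1) (.e (nat_lit 408729) (nat_lit 0) .nil) .nil)))) (.nd (nat_lit 9) 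
(.lf (nat_lit 595435) (.g (nat_lit 4528) (.e (nat_lit 516166) (nat_lit 12) (.e (nat_lit 450588) (nat_lit 10) (.e (nat_lit 573450) (nat_lit 9) (.e (nat_lit 375) (nat_lit 32) (.e (nat_lit 426173) (nat_lit 7) (.e (nat_lit 409617) (nat_lit 10) (.e (nat_lit 7936) (nat_lit 43) .nil))))))) (.g (nat_lit 1) (.e (nat_lit 408350) (nat_lit 0) .nil) .nil))) 
(.lf (nat_lit 595947) (.g (nat_lit 1280) (.e (nat_lit 548913) (nat_lit 18) (.e (nat_lit 172124) (nat_lit 14) (.e (nat_lit 491537) (nat_lit 2) (.e (nat_lit 90176) (nat_lit 15) .nil)))) (.g (nat_lit 0) (.e (nat_lit 410292) (nat_lit 0) .nil) .nil)))))))) (.nd (nat_lit 5) (.nd (nat_lit 6) (.nd (nat_lit 7) (.nd (nat_lit 8) (.nd (nat_lit 9) 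
(.lf (nat_lit 594971) (.g (nat_lit 1726) (.e (nat_lit 516149) (nat_lit 9) (.e (nat_lit 426323) (nat_lit 13) (.e (nat_lit 483363) (nat_lit 18) (.e (nat_lit 57690) (nat_lit 156) .nil)))) (.g (nat_lit 0) (.e (nat_lit 407563) (nat_lit 0) .nil) .nil))) 
(.lf (nat_lit 595483) (.g (nat_lit 2996) (.e (nat_lit 516174) (nat_lit 14) (.e (nat_lit 466954) (nat_lit 11) (.e (nat_lit 335986) (nat_lit 1) (.e (nat_lit 57686) (nat_lit 156) (.e (nat_lit 163936) (nat_lit 18) (.e (nat_lit 475177) (nat_lit 24) .nil)))))) (.g (nat_lit 1) (.e (nat_lit 408422) (nat_lit 0) .nil) .nil)))) (.nd (nat_lit 9) 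
(.lf (nat_lit 595227) (.g (nat_lit 2643) (.e (nat_lit 516160) (nat_lit 10) (.e (nat_lit 434245) (nat_lit 28) (.e (nat_lit 573488) (nat_lit 14) (.e (nat_lit 73747) (nat_lit 3) (.e (nat_lit 516195) (nat_lit 26) (.e (nat_lit 336278) (nat_lit 15) (.e (nat_lit 7936) (nat_lit 195) .nil))))))) (.g (nat_lit 1) (.e (nat_lit 408002) (nat_lit 0) .nil) .nil))) 
(.lf (nat_lit 595739) (.g (nat_lit 1297) (.e (nat_lit 516194) (nat_lit 26) (.e (nat_lit 335996) (nat_lit 1) (.e (nat_lit 57929) (nat_lit 282) (.e (nat_lit 163943) (nat_lit 19) .nil)))) (.g (nat_lit 0) (.e (nat_lit 408830) (nat_lit 0) .nil) .nil))))) (.nd (nat_lit 8) (.nd (nat_lit 9) 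
(.lf (nat_lit 595099) (.g (nat_lit 4311) (.e (nat_lit 516151) (nat_lit 9) (.e (nat_lit 426286) (nat_lit 10) (.e (nat_lit 434248) (nat_lit 28) (.e (nat_lit 573452) (nat_lit 9) (.e (nat_lit 430) (nat_lit 32) (.e (nat_lit 426011) (nat_lit 0) (.e (nat_lit 7583) (nat_lit 405) (.e (nat_lit 57464) (nat_lit 23) .nil)))))))) (.g (nat_lit 1) (.e (nat_lit 407717) (nat_lit 0) .nil) .nil))) 
(.lf (nat_lit 595611) (.g (nat_lit 1008) (.e (nat_lit 516179) (nat_lit 15) (.e (nat_lit 475199) (nat_lit 40) (.e (nat_lit 704589) (nat_lit 3) (.e (nat_lit 163979) (nat_lit 30) .nil)))) (.g (nat_lit 0) (.e (nat_lit 408580) (nat_lit 0) .nil) .nil)))) (.nd (nat_lit 9) 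
(.lf (nat_lit 595355) (.g (nat_lit 2532) (.e (nat_lit 516160) (nat_lit 10) (.e (nat_lit 434248) (nat_lit 28) (.e (nat_lit 573497) (nat_lit 17) (.e (nat_lit 131094) (nat_lit 2) (.e (nat_lit 90160) (nat_lit 11) (.e (nat_lit 24671) (nat_lit 15) (.e (nat_lit 7936) (nat_lit 195) .nil))))))) (.g (nat_lit 1) (.e (nat_lit 408198) (nat_lit 0) .nil) .nil))) 
(.lf (nat_lit 595867) (.g (nat_lit 1215) (.e (nat_lit 524327) (nat_lit 16) (.e (nat_lit 491566) (nat_lit 12) (.e (nat_lit 385072) (nat_lit 31) .nil))) (.g (nat_lit 0) (.e (nat_lit 409303) (nat_lit 0) .nil) .nil)))))) (.nd (nat_lit 7) (.nd (nat_lit 8) (.nd (nat_lit 9) 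
(.lf (nat_lit 595035) (.g (nat_lit 5080) (.e (nat_lit 516151) (nat_lit 9) (.e (nat_lit 426043) (nat_lit 0) (.e (nat_lit 3409) (nat_lit 212) (.e (nat_lit 655375) (nat_lit 3) (.e (nat_lit 163979) (nat_lit 30) (.e (nat_lit 573482) (nat_lit 13) (.e (nat_lit 65619) (nat_lit 10) (.e (nat_lit 344117) (nat_lit 21) .nil)))))))) (.g (nat_lit 1) (.e (nat_lit 407646) (nat_lit 0) .nil) .nil))) 
(.lf (nat_lit 595547) (.g (nat_lit 1642) (.e (nat_lit 516176) (nat_lit 14) (.e (nat_lit 466954) (nat_lit 11) (.e (nat_lit 335995) (nat_lit 1) (.e (nat_lit 57687) (nat_lit 156) (.e (nat_lit 163937) (nat_lit 18) .nil))))) (.g (nat_lit 0) (.e (nat_lit 408496) (nat_lit 0) .nil) .nil)))) (.nd (nat_lit 9) 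
(.lf (nat_lit 595291) (.g (nat_lit 3577) (.e (nat_lit 516160) (nat_lit 10) (.e (nat_lit 434247) (nat_lit 28) (.e (nat_lit 573489) (nat_lit 14) (.e (nat_lit 73755) (nat_lit 8) (.e (nat_lit 557090) (nat_lit 12) (.e (nat_lit 164003) (nat_lit 40) (.e (nat_lit 655373) (nat_lit 3) (.e (nat_lit 171776) (nat_lit 23) .nil)))))))) (.g (nat_lit 1) (.e (nat_lit 408097) (nat_lit 0) .nil) .nil))) 
(.lf (nat_lit 595803) (.g (nat_lit 849) (.e (nat_lit 524032) (nat_lit 26) (.e (nat_lit 335988) (nat_lit 1) (.e (nat_lit 57931) (nat_lit 282) .nil))) (.g (nat_lit 0) (.e (nat_lit 409021) (nat_lit 0) .nil) .nil))))) (.nd (nat_lit 8) (.nd (nat_lit 9) 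
(.lf (nat_lit 595163) (.g (nat_lit 3017) (.e (nat_lit 516159) (nat_lit 10) (.e (nat_lit 434248) (nat_lit 28) (.e (nat_lit 573489) (nat_lit 14) (.e (nat_lit 73755) (nat_lit 8) (.e (nat_lit 557119) (nat_lit 18) .nil))))) (.g (nat_lit 0) (.e (nat_lit 407915) (nat_lit 0) .nil) .nil))) 
(.lf (nat_lit 595675) (.g (nat_lit 2150) (.e (nat_lit 516182) (nat_lit 15) (.e (nat_lit 475198) (nat_lit 40) (.e (nat_lit 704589) (nat_lit 3) (.e (nat_lit 163975) (nat_lit 30) (.e (nat_lit 573481) (nat_lit 13) (.e (nat_lit 65613) (nat_lit 10) (.e (nat_lit 344116) (nat_lit 21) .nil))))))) (.g (nat_lit 1) (.e (nat_lit 408688) (nat_lit 0) .nil) .nil)))) (.nd (nat_lit 9) 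
(.lf (nat_lit 595419) (.g (nat_lit 1706) (.e (nat_lit 516166) (nat_lit 12) (.e (nat_lit 450587) (nat_lit 10) (.e (nat_lit 573477) (nat_lit 12) (.e (nat_lit 57574) (nat_lit 55) (.e (nat_lit 778464) (nat_lit 11) .nil))))) (.g (nat_lit 0) (.e (nat_lit 408334) (nat_lit 0) .nil) .nil))) 
(.lf (nat_lit 595931) (.g (nat_lit 2897) (.e (nat_lit 548913) (nat_lit 18) (.e (nat_lit 172119) (nat_lit 12) (.e (nat_lit 475185) (nat_lit 29) (.e (nat_lit 557109) (nat_lit 15) (.e (nat_lit 188441) (nat_lit 20) (.e (nat_lit 3271) (nat_lit 199) .nil)))))) (.g (nat_lit 1) (.e (nat_lit 410274) (nat_lit 0) .nil) .nil))))))) (.nd (nat_lit 6) (.nd (nat_lit 7) (.nd (nat_lit 8) (.nd (nat_lit 9) 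
(.lf (nat_lit 595003) (.g (nat_lit 3344) (.e (nat_lit 516151) (nat_lit 9) (.e (nat_lit 426042) (nat_lit 0) (.e (nat_lit 3307) (nat_lit 202) (.e (nat_lit 573484) (nat_lit 13) (.e (nat_lit 65553) (nat_lit 0) (.e (nat_lit 1885) (nat_lit 127) (.e (nat_lit 581636) (nat_lit 0) (.e (nat_lit 3063) (nat_lit 190) (.e (nat_lit 475175) (nat_lit 24) .nil))))))))) (.g (nat_lit 1) (.e (nat_lit 407613) (nat_lit 0) .nil) .nil))) 
(.lf (nat_lit 595515) (.g (nat_lit 3506) (.e (nat_lit 516174) (nat_lit 14) (.e (nat_lit 466954) (nat_lit 11) (.e (nat_lit 335996) (nat_lit 1) (.e (nat_lit 57691) (nat_lit 156) (.e (nat_lit 163938) (nat_lit 18) (.e (nat_lit 475177) (nat_lit 24) .nil)))))) (.g (nat_lit 1) (.e (nat_lit 408456) (nat_lit 0) .nil) .nil)))) (.nd (nat_lit 9) 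
(.lf (nat_lit 595259) (.g (nat_lit 1888) (.e (nat_lit 516160) (nat_lit 10) (.e (nat_lit 434247) (nat_lit 28) (.e (nat_lit 573484) (nat_lit 13) (.e (nat_lit 65553) (nat_lit 0) .nil)))) (.g (nat_lit 0) (.e (nat_lit 408045) (nat_lit 0) .nil) .nil))) 
(.lf (nat_lit 595771) (.g (nat_lit 702) (.e (nat_lit 516195) (nat_lit 26) (.e (nat_lit 335996) (nat_lit 1) (.e (nat_lit 57930) (nat_lit 282) .nil))) (.g (nat_lit 0) (.e (nat_lit 408901) (nat_lit 0) .nil) .nil))))) (.nd (nat_lit 8) (.nd (nat_lit 9) 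
(.lf (nat_lit 595131) (.g (nat_lit 1925) (.e (nat_lit 516158) (nat_lit 9) (.e (nat_lit 426306) (nat_lit 12) (.e (nat_lit 475177) (nat_lit 24) (.e (nat_lit 516129) (nat_lit 3) (.e (nat_lit 229120) (nat_lit 12) (.e (nat_lit 344120) (nat_lit 21) .nil)))))) (.g (nat_lit 1) (.e (nat_lit 407763) (nat_lit 0) .nil) .nil))) 
(.lf (nat_lit 595643) (.g (nat_lit 2458) (.e (nat_lit 516181) (nat_lit 15) (.e (nat_lit 475179) (nat_lit 24) (.e (nat_lit 516145) (nat_lit 9) (.e (nat_lit 426438) (nat_lit 18) (.e (nat_lit 98386) (nat_lit 32) .nil))))) (.g (nat_lit 0) (.e (nat_lit 408636) (nat_lit 0) .nil) .nil)))) (.nd (nat_lit 9) 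
(.lf (nat_lit 595387) (.g (nat_lit 4699) (.e (nat_lit 516165) (nat_lit 12) (.e (nat_lit 450586) (nat_lit 10) (.e (nat_lit 573475) (nat_lit 12) (.e (nat_lit 57347) (nat_lit 0) (.e (nat_lit 7266) (nat_lit 384) (.e (nat_lit 57430) (nat_lit 16) (.e (nat_lit 368676) (nat_lit 21) .nil))))))) (.g (nat_lit 1) (.e (nat_lit 408300) (nat_lit 0) .nil) .nil))) 
(.lf (nat_lit 595899) (.g (nat_lit 1707) (.e (nat_lit 548911) (nat_lit 18) (.e (nat_lit 172124) (nat_lit 14) (.e (nat_lit 491540) (nat_lit 3) (.e (nat_lit 98372) (nat_lit 29) (.e (nat_lit 450583) (nat_lit 7) .nil))))) (.g (nat_lit 0) (.e (nat_lit 409923) (nat_lit 0) .nil) .nil)))))) (.nd (nat_lit 7) (.nd (nat_lit 8) (.nd (nat_lit 9) 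
(.lf (nat_lit 595067) (.g (nat_lit 5445) (.e (nat_lit 516151) (nat_lit 9) (.e (nat_lit 426285) (nat_lit 10) (.e (nat_lit 434246) (nat_lit 28) (.e (nat_lit 573471) (nat_lit 11) (.e (nat_lit 16425) (nat_lit 7) (.e (nat_lit 409617) (nat_lit 10) (.e (nat_lit 7936) (nat_lit 43) .nil))))))) (.g (nat_lit 1) (.e (nat_lit 407684) (nat_lit 0) .nil) .nil))) 
(.lf (nat_lit 595579) (.g (nat_lit 3173) (.e (nat_lit 516179) (nat_lit 15) (.e (nat_lit 475177) (nat_lit 24) (.e (nat_lit 516148) (nat_lit 9) (.e (nat_lit 426436) (nat_lit 18) (.e (nat_lit 98386) (nat_lit 32) (.e (nat_lit 475179) (nat_lit 24) .nil)))))) (.g (nat_lit 1) (.e (nat_lit 408539) (nat_lit 0) .nil) .nil)))) (.nd (nat_lit 9) 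
(.lf (nat_lit 595323) (.g (nat_lit 1662) (.e (nat_lit 516160) (nat_lit 10) (.e (nat_lit 434248) (nat_lit 28) (.e (nat_lit 573482) (nat_lit 13) (.e (nat_lit 65570) (nat_lit 3) .nil)))) (.g (nat_lit 0) (.e (nat_lit 408142) (nat_lit 0) .nil) .nil))) 
(.lf (nat_lit 595835) (.g (nat_lit 1545) (.e (nat_lit 524321) (nat_lit 12) (.e (nat_lit 450588) (nat_lit 10) (.e (nat_lit 573470) (nat_lit 11) (.e (nat_lit 16473) (nat_lit 14) .nil)))) (.g (nat_lit 0) (.e (nat_lit 409250) (nat_lit 0) .nil) .nil))))) (.nd (nat_lit 8) (.nd (nat_lit 9) 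
(.lf (nat_lit 595195) (.g (nat_lit 3446) (.e (nat_lit 516160) (nat_lit 10) (.e (nat_lit 434244) (nat_lit 28) (.e (nat_lit 573487) (nat_lit 14) (.e (nat_lit 73747) (nat_lit 3) (.e (nat_lit 516195) (nat_lit 26) (.e (nat_lit 336293) (nat_lit 15) (.e (nat_lit 7936) (nat_lit 195) .nil))))))) (.g (nat_lit 1) (.e (nat_lit 407963) (nat_lit 0) .nil) .nil))) 
(.lf (nat_lit 595707) (.g (nat_lit 3582) (.e (nat_lit 516183) (nat_lit 16) (.e (nat_lit 491566) (nat_lit 12) (.e (nat_lit 385074) (nat_lit 31) (.e (nat_lit 573482) (nat_lit 13) (.e (nat_lit 65610) (nat_lit 10) .nil))))) (.g (nat_lit 0) (.e (nat_lit 408760) (nat_lit 0) .nil) .nil)))) (.nd (nat_lit 9) 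
(.lf (nat_lit 595451) (.g (nat_lit 3704) (.e (nat_lit 516166) (nat_lit 12) (.e (nat_lit 450588) (nat_lit 10) (.e (nat_lit 573469) (nat_lit 11) (.e (nat_lit 16387) (nat_lit 0) (.e (nat_lit 7581) (nat_lit 405) (.e (nat_lit 57464) (nat_lit 23) .nil)))))) (.g (nat_lit 1) (.e (nat_lit 408366) (nat_lit 0) .nil) .nil))) 
(.lf (nat_lit 595963) (.g (nat_lit 3441) (.e (nat_lit 548913) (nat_lit 18) (.e (nat_lit 172125) (nat_lit 14) (.e (nat_lit 491537) (nat_lit 2) (.e (nat_lit 90178) (nat_lit 15) (.e (nat_lit 188441) (nat_lit 20) (.e (nat_lit 3271) (nat_lit 199) .nil)))))) (.g (nat_lit 1) (.e (nat_lit 410309) (nat_lit 0) .nil) .nil)))))))))) 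
(.nd (nat_lit 3) (.nd (nat_lit 4) (.nd (nat_lit 5) (.nd (nat_lit 6) (.nd (nat_lit 7) 
(.nd (nat_lit 8) (.nd (nat_lit 9) 
(.lf (nat_lit 594951) (.g (nat_lit 2020) (.e (nat_lit 516148) (nat_lit 9) (.e (nat_lit 426436) (nat_lit 18) (.e (nat_lit 98356) (nat_lit 26) (.e (nat_lit 426438) (nat_lit 18) (.e (nat_lit 98385) (nat_lit 32) (.e (nat_lit 475177) (nat_lit 24) .nil)))))) (.g (nat_lit 1) (.e (nat_lit 407533) (nat_lit 0) .nil) .nil))) 
(.lf (nat_lit 595463) (.g (nat_lit 5206) (.e (nat_lit 516166) (nat_lit 12) (.e (nat_lit 450588) (nat_lit 10) (.e (nat_lit 573475) (nat_lit 12) (.e (nat_lit 57574) (nat_lit 55) (.e (nat_lit 778455) (nat_lit 10) (.e (nat_lit 8543) (nat_lit 229) (.e (nat_lit 229497) (nat_lit 84) .nil))))))) (.g (nat_lit 1) (.e (nat_lit 408378) (nat_lit 0) .nil) .nil)))) (.nd (nat_lit 9) 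
(.lf (nat_lit 595207) (.g (nat_lit 2026) (.e (nat_lit 516160) (nat_lit 10) (.e (nat_lit 434245) (nat_lit 28) (.e (nat_lit 573481) (nat_lit 13) (.e (nat_lit 65566) (nat_lit 2) (.e (nat_lit 90157) (nat_lit 11) (.e (nat_lit 24670) (nat_lit 15) (.e (nat_lit 7936) (nat_lit 195) .nil))))))) (.g (nat_lit 1) (.e (nat_lit 407979) (nat_lit 0) .nil) .nil))) 
(.lf (nat_lit 595719) (.g (nat_lit 4315) (.e (nat_lit 516185) (nat_lit 16) (.e (nat_lit 491552) (nat_lit 9) (.e (nat_lit 336282) (nat_lit 15) (.e (nat_lit 3305) (nat_lit 202) (.e (nat_lit 573485) (nat_lit 13) (.e (nat_lit 65619) (nat_lit 10) (.e (nat_lit 344117) (nat_lit 21) .nil))))))) (.g (nat_lit 1) (.e (nat_lit 408775) (nat_lit 0) .nil) .nil))))) (.nd (nat_lit 8) (.nd (nat_lit 9) 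
(.lf (nat_lit 595079) (.g (nat_lit 3338) (.e (nat_lit 516151) (nat_lit 9) (.e (nat_lit 426286) (nat_lit 10) (.e (nat_lit 434245) (nat_lit 28) (.e (nat_lit 573470) (nat_lit 11) (.e (nat_lit 16385) (nat_lit 0) (.e (nat_lit 7581) (nat_lit 405) (.e (nat_lit 57464) (nat_lit 23) .nil))))))) (.g (nat_lit 1) (.e (nat_lit 407697) (nat_lit 0) .nil) .nil))) 
(.lf (nat_lit 595591) (.g (nat_lit 2343) (.e (nat_lit 516179) (nat_lit 15) (.e (nat_lit 475179) (nat_lit 24) (.e (nat_lit 516146) (nat_lit 9) (.e (nat_lit 426438) (nat_lit 18) (.e (nat_lit 98383) (nat_lit 32) .nil))))) (.g (nat_lit 0) (.e (nat_lit 408554) (nat_lit 0) .nil) .nil)))) (.nd (nat_lit 9) 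
(.lf (nat_lit 595335) (.g (nat_lit 2613) (.e (nat_lit 516160) (nat_lit 10) (.e (nat_lit 434248) (nat_lit 28) (.e (nat_lit 573487) (nat_lit 14) (.e (nat_lit 73747) (nat_lit 3) (.e (nat_lit 516195) (nat_lit 26) (.e (nat_lit 336273) (nat_lit 15) (.e (nat_lit 7936) (nat_lit 195) .nil))))))) (.g (nat_lit 1) (.e (nat_lit 408159) (nat_lit 0) .nil) .nil))) 
(.lf (nat_lit 595847) (.g (nat_lit 1843) (.e (nat_lit 524322) (nat_lit 12) (.e (nat_lit 450587) (nat_lit 10) (.e (nat_lit 573477) (nat_lit 12) (.e (nat_lit 57574) (nat_lit 55) (.e (nat_lit 778466) (nat_lit 11) .nil))))) (.g (nat_lit 0) (.e (nat_lit 409275) (nat_lit 0) .nil) .nil)))))) (.nd (nat_lit 7) (.nd (nat_lit 8) (.nd (nat_lit 9) 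
(.lf (nat_lit 595015) (.g (nat_lit 3237) (.e (nat_lit 516151) (nat_lit 9) (.e (nat_lit 426043) (nat_lit 0) (.e (nat_lit 3371) (nat_lit 208) (.e (nat_lit 622624) (nat_lit 13) (.e (nat_lit 2668) (nat_lit 167) (.e (nat_lit 196666) (nat_lit 13) (.e (nat_lit 65610) (nat_lit 10) (.e (nat_lit 344117) (nat_lit 21) .nil)))))))) (.g (nat_lit 1) (.e (nat_lit 407625) (nat_lit 0) .nil) .nil))) 
(.lf (nat_lit 595527) (.g (nat_lit 1838) (.e (nat_lit 516176) (nat_lit 14) (.e (nat_lit 466954) (nat_lit 11) (.e (nat_lit 335986) (nat_lit 1) (.e (nat_lit 57656) (nat_lit 152) .nil)))) (.g (nat_lit 0) (.e (nat_lit 408472) (nat_lit 0) .nil) .nil)))) (.nd (nat_lit 9) 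
(.lf (nat_lit 595271) (.g (nat_lit 3007) (.e (nat_lit 516160) (nat_lit 10) (.e (nat_lit 434247) (nat_lit 28) (.e (nat_lit 573484) (nat_lit 13) (.e (nat_lit 65569) (nat_lit 3) (.e (nat_lit 98325) (nat_lit 17) (.e (nat_lit 3579) (nat_lit 223) (.e (nat_lit 745486) (nat_lit 3) (.e (nat_lit 57464) (nat_lit 23) .nil)))))))) (.g (nat_lit 1) (.e (nat_lit 408062) (nat_lit 0) .nil) .nil))) 
(.lf (nat_lit 595783) (.g (nat_lit 2028) (.e (nat_lit 516198) (nat_lit 26) (.e (nat_lit 335988) (nat_lit 1) (.e (nat_lit 57931) (nat_lit 282) (.e (nat_lit 163943) (nat_lit 19) .nil)))) (.g (nat_lit 0) (.e (nat_lit 408977) (nat_lit 0) .nil) .nil))))) (.nd (nat_lit 8) (.nd (nat_lit 9) 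
(.lf (nat_lit 595143) (.g (nat_lit 1806) (.e (nat_lit 516159) (nat_lit 10) (.e (nat_lit 434244) (nat_lit 28) (.e (nat_lit 573481) (nat_lit 13) (.e (nat_lit 65571) (nat_lit 3) .nil)))) (.g (nat_lit 0) (.e (nat_lit 407815) (nat_lit 0) .nil) .nil))) 
(.lf (nat_lit 595655) (.g (nat_lit 2135) (.e (nat_lit 516181) (nat_lit 15) (.e (nat_lit 475199) (nat_lit 40) (.e (nat_lit 704590) (nat_lit 3) (.e (nat_lit 163975) (nat_lit 30) .nil)))) (.g (nat_lit 0) (.e (nat_lit 408663) (nat_lit 0) .nil) .nil)))) (.nd (nat_lit 9) 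
(.lf (nat_lit 595399) (.g (nat_lit 4680) (.e (nat_lit 516166) (nat_lit 12) (.e (nat_lit 450587) (nat_lit 10) (.e (nat_lit 573448) (nat_lit 9) (.e (nat_lit 375) (nat_lit 32) (.e (nat_lit 426173) (nat_lit 7) (.e (nat_lit 409617) (nat_lit 10) (.e (nat_lit 7936) (nat_lit 43) .nil))))))) (.g (nat_lit 1) (.e (nat_lit 408314) (nat_lit 0) .nil) .nil))) 
(.lf (nat_lit 595911) (.g (nat_lit 2255) (.e (nat_lit 548911) (nat_lit 18) (.e (nat_lit 172126) (nat_lit 14) (.e (nat_lit 491540) (nat_lit 3) (.e (nat_lit 98373) (nat_lit 29) (.e (nat_lit 458496) (nat_lit 7) .nil))))) (.g (nat_lit 0) (.e (nat_lit 409935) (nat_lit 0) .nil) .nil))))))) (.nd (nat_lit 6) (.nd (nat_lit 7) (.nd (nat_lit 8) (.nd (nat_lit 9) 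
(.lf (nat_lit 594983) (.g (nat_lit 1021) (.e (nat_lit 516149) (nat_lit 9) (.e (nat_lit 426436) (nat_lit 18) (.e (nat_lit 98385) (nat_lit 32) (.e (nat_lit 475177) (nat_lit 24) .nil)))) (.g (nat_lit 0) (.e (nat_lit 407583) (nat_lit 0) .nil) .nil))) 
(.lf (nat_lit 595495) (.g (nat_lit 2631) (.e (nat_lit 516174) (nat_lit 14) (.e (nat_lit 466954) (nat_lit 11) (.e (nat_lit 335987) (nat_lit 1) (.e (nat_lit 57691) (nat_lit 156) (.e (nat_lit 163938) (nat_lit 18) (.e (nat_lit 475179) (nat_lit 24) .nil)))))) (.g (nat_lit 1) (.e (nat_lit 408435) (nat_lit 0) .nil) .nil)))) (.nd (nat_lit 9) 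
(.lf (nat_lit 595239) (.g (nat_lit 3312) (.e (nat_lit 516160) (nat_lit 10) (.e (nat_lit 434246) (nat_lit 28) (.e (nat_lit 573482) (nat_lit 13) (.e (nat_lit 65571) (nat_lit 3) (.e (nat_lit 98313) (nat_lit 9) (.e (nat_lit 336288) (nat_lit 15) (.e (nat_lit 7936) (nat_lit 195) .nil))))))) (.g (nat_lit 1) (.e (nat_lit 408021) (nat_lit 0) .nil) .nil))) 
(.lf (nat_lit 595751) (.g (nat_lit 3962) (.e (nat_lit 516195) (nat_lit 26) (.e (nat_lit 335986) (nat_lit 1) (.e (nat_lit 57931) (nat_lit 282) (.e (nat_lit 163902) (nat_lit 12) (.e (nat_lit 426544) (nat_lit 30) (.e (nat_lit 360467) (nat_lit 3) .nil)))))) (.g (nat_lit 1) (.e (nat_lit 408849) (nat_lit 0) .nil) .nil))))) (.nd (nat_lit 8) (.nd (nat_lit 9) 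
(.lf (nat_lit 595111) (.g (nat_lit 2288) (.e (nat_lit 516151) (nat_lit 9) (.e (nat_lit 426290) (nat_lit 10) (.e (nat_lit 434244) (nat_lit 28) (.e (nat_lit 573450) (nat_lit 9) (.e (nat_lit 375) (nat_lit 32) (.e (nat_lit 426173) (nat_lit 7) (.e (nat_lit 409616) (nat_lit 10) (.e (nat_lit 7936) (nat_lit 43) .nil)))))))) (.g (nat_lit 1) (.e (nat_lit 407729) (nat_lit 0) .nil) .nil))) 
(.lf (nat_lit 595623) (.g (nat_lit 2599) (.e (nat_lit 516180) (nat_lit 15) (.e (nat_lit 475177) (nat_lit 24) (.e (nat_lit 516182) (nat_lit 15) (.e (nat_lit 475179) (nat_lit 24) (.e (nat_lit 516179) (nat_lit 15) (.e (nat_lit 475177) (nat_lit 24) .nil)))))) (.g (nat_lit 1) (.e (nat_lit 408608) (nat_lit 0) .nil) .nil)))) (.nd (nat_lit 9) 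
(.lf (nat_lit 595367) (.g (nat_lit 3024) (.e (nat_lit 516163) (nat_lit 11) (.e (nat_lit 442405) (nat_lit 20) (.e (nat_lit 3297) (nat_lit 202) (.e (nat_lit 573450) (nat_lit 9) (.e (nat_lit 375) (nat_lit 32) (.e (nat_lit 426173) (nat_lit 7) (.e (nat_lit 409616) (nat_lit 10) (.e (nat_lit 7936) (nat_lit 43) .nil)))))))) (.g (nat_lit 1) (.e (nat_lit 408275) (nat_lit 0) .nil) .nil))) 
(.lf (nat_lit 595879) (.g (nat_lit 1148) (.e (nat_lit 548896) (nat_lit 14) (.e (nat_lit 3016) (nat_lit 187) (.e (nat_lit 450580) (nat_lit 5) (.e (nat_lit 532569) (nat_lit 16) .nil)))) (.g (nat_lit 0) (.e (nat_lit 409396) (nat_lit 0) .nil) .nil)))))) (.nd (nat_lit 7) (.nd (nat_lit 8) (.nd (nat_lit 9) 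
(.lf (nat_lit 595047) (.g (nat_lit 3452) (.e (nat_lit 516151) (nat_lit 9) (.e (nat_lit 426211) (nat_lit 9) (.e (nat_lit 426125) (nat_lit 2) (.e (nat_lit 196661) (nat_lit 12) (.e (nat_lit 57721) (nat_lit 177) (.e (nat_lit 57819) (nat_lit 248) (.e (nat_lit 171776) (nat_lit 84) .nil))))))) (.g (nat_lit 1) (.e (nat_lit 407664) (nat_lit 0) .nil) .nil))) 
(.lf (nat_lit 595559) (.g (nat_lit 2308) (.e (nat_lit 516178) (nat_lit 15) (.e (nat_lit 475179) (nat_lit 24) (.e (nat_lit 516146) (nat_lit 9) (.e (nat_lit 426438) (nat_lit 18) .nil)))) (.g (nat_lit 0) (.e (nat_lit 408514) (nat_lit 0) .nil) .nil)))) (.nd (nat_lit 9) 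
(.lf (nat_lit 595303) (.g (nat_lit 3315) (.e (nat_lit 516160) (nat_lit 10) (.e (nat_lit 434248) (nat_lit 28) (.e (nat_lit 573482) (nat_lit 13) (.e (nat_lit 65566) (nat_lit 2) (.e (nat_lit 90157) (nat_lit 11) (.e (nat_lit 24670) (nat_lit 15) (.e (nat_lit 7936) (nat_lit 195) .nil))))))) (.g (nat_lit 1) (.e (nat_lit 408116) (nat_lit 0) .nil) .nil))) 
(.lf (nat_lit 595815) (.g (nat_lit 2984) (.e (nat_lit 524299) (nat_lit 2) (.e (nat_lit 213032) (nat_lit 11) (.e (nat_lit 24608) (nat_lit 3) (.e (nat_lit 98365) (nat_lit 26) .nil)))) (.g (nat_lit 0) (.e (nat_lit 409073) (nat_lit 0) .nil) .nil))))) (.nd (nat_lit 8) (.nd (nat_lit 9) 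
(.lf (nat_lit 595175) (.g (nat_lit 2256) (.e (nat_lit 516160) (nat_lit 10) (.e (nat_lit 434244) (nat_lit 28) (.e (nat_lit 573481) (nat_lit 13) (.e (nat_lit 65566) (nat_lit 2) (.e (nat_lit 90157) (nat_lit 11) (.e (nat_lit 24670) (nat_lit 15) (.e (nat_lit 7936) (nat_lit 195) .nil))))))) (.g (nat_lit 1) (.e (nat_lit 407941) (nat_lit 0) .nil) .nil))) 
(.lf (nat_lit 595687) (.g (nat_lit 1617) (.e (nat_lit 516182) (nat_lit 15) (.e (nat_lit 475199) (nat_lit 40) (.e (nat_lit 704589) (nat_lit 3) (.e (nat_lit 163975) (nat_lit 30) (.e (nat_lit 573491) (nat_lit 15) .nil))))) (.g (nat_lit 0) (.e (nat_lit 408719) (nat_lit 0) .nil) .nil)))) (.nd (nat_lit 9) 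
(.lf (nat_lit 595431) (.g (nat_lit 3481) (.e (nat_lit 516166) (nat_lit 12) (.e (nat_lit 450588) (nat_lit 10) (.e (nat_lit 573449) (nat_lit 9) (.e (nat_lit 359) (nat_lit 30) (.e (nat_lit 409602) (nat_lit 0) (.e (nat_lit 5394) (nat_lit 301) (.e (nat_lit 57464) (nat_lit 23) .nil))))))) (.g (nat_lit 1) (.e (nat_lit 408346) (nat_lit 0) .nil) .nil))) 
(.lf (nat_lit 595943) (.g (nat_lit 3009) (.e (nat_lit 548913) (nat_lit 18) (.e (nat_lit 172124) (nat_lit 14) (.e (nat_lit 491535) (nat_lit 2) (.e (nat_lit 90176) (nat_lit 15) (.e (nat_lit 188439) (nat_lit 20) (.e (nat_lit 3272) (nat_lit 199) .nil)))))) (.g (nat_lit 1) (.e (nat_lit 410288) (nat_lit 0) .nil) .nil)))))))) 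
(.nd (nat_lit 5) (.nd (nat_lit 6) (.nd (nat_lit 7) (.nd (nat_lit 8) (.nd (nat_lit 9) 
(.lf (nat_lit 594967) (.g (nat_lit 1726) (.e (nat_lit 516149) (nat_lit 9) (.e (nat_lit 426323) (nat_lit 13) (.e (nat_lit 483363) (nat_lit 18) (.e (nat_lit 57685) (nat_lit 156) .nil)))) (.g (nat_lit 0) (.e (nat_lit 407559) (nat_lit 0) .nil) .nil))) 
(.lf (nat_lit 595479) (.g (nat_lit 2075) (.e (nat_lit 516174) (nat_lit 14) (.e (nat_lit 466954) (nat_lit 11) (.e (nat_lit 335986) (nat_lit 1) (.e (nat_lit 57669) (nat_lit 152) .nil)))) (.g (nat_lit 0) (.e (nat_lit 408417) (nat_lit 0) .nil) .nil)))) (.nd (nat_lit 9) 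
(.lf (nat_lit 595223) (.g (nat_lit 3223) (.e (nat_lit 516160) (nat_lit 10) (.e (nat_lit 434245) (nat_lit 28) (.e (nat_lit 573487) (nat_lit 14) (.e (nat_lit 73747) (nat_lit 3) (.e (nat_lit 516195) (nat_lit 26) (.e (nat_lit 336293) (nat_lit 15) (.e (nat_lit 7936) (nat_lit 195) .nil))))))) (.g (nat_lit 1) (.e (nat_lit 407998) (nat_lit 0) .nil) .nil))) 
(.lf (nat_lit 595735) (.g (nat_lit 1512) (.e (nat_lit 516194) (nat_lit 26) (.e (nat_lit 335988) (nat_lit 1) (.e (nat_lit 57927) (nat_lit 282) (.e (nat_lit 163901) (nat_lit 12) .nil)))) (.g (nat_lit 0) (.e (nat_lit 408821) (nat_lit 0) .nil) .nil))))) (.nd (nat_lit 8) (.nd (nat_lit 9) 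
(.lf (nat_lit 595095) (.g (nat_lit 2667) (.e (nat_lit 516151) (nat_lit 9) (.e (nat_lit 426286) (nat_lit 10) (.e (nat_lit 434247) (nat_lit 28) (.e (nat_lit 573469) (nat_lit 11) (.e (nat_lit 16471) (nat_lit 14) (.e (nat_lit 491526) (nat_lit 0) (.e (nat_lit 1788) (nat_lit 119) .nil))))))) (.g (nat_lit 1) (.e (nat_lit 407713) (nat_lit 0) .nil) .nil))) 
(.lf (nat_lit 595607) (.g (nat_lit 1587) (.e (nat_lit 516179) (nat_lit 15) (.e (nat_lit 475199) (nat_lit 40) (.e (nat_lit 704589) (nat_lit 3) (.e (nat_lit 163975) (nat_lit 30) (.e (nat_lit 573491) (nat_lit 15) .nil))))) (.g (nat_lit 0) (.e (nat_lit 408571) (nat_lit 0) .nil) .nil)))) (.nd (nat_lit 9) 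
(.lf (nat_lit 595351) (.g (nat_lit 4565) (.e (nat_lit 516160) (nat_lit 10) (.e (nat_lit 434248) (nat_lit 28) (.e (nat_lit 573489) (nat_lit 14) (.e (nat_lit 73755) (nat_lit 8) (.e (nat_lit 557090) (nat_lit 12) (.e (nat_lit 164003) (nat_lit 40) (.e (nat_lit 655373) (nat_lit 3) (.e (nat_lit 171776) (nat_lit 23) .nil)))))))) (.g (nat_lit 1) (.e (nat_lit 408190) (nat_lit 0) .nil) .nil))) 
(.lf (nat_lit 595863) (.g (nat_lit 3099) (.e (nat_lit 524322) (nat_lit 12) (.e (nat_lit 450588) (nat_lit 10) (.e (nat_lit 573474) (nat_lit 12) (.e (nat_lit 57347) (nat_lit 0) (.e (nat_lit 7266) (nat_lit 384) (.e (nat_lit 57431) (nat_lit 16) (.e (nat_lit 368678) (nat_lit 22) .nil))))))) (.g (nat_lit 1) (.e (nat_lit 409291) (nat_lit 0) .nil) .nil)))))) 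
(.nd (nat_lit 7) (.nd (nat_lit 8) (.nd (nat_lit 9) 
(.lf (nat_lit 595031) (.g (nat_lit 4497) (.e (nat_lit 516151) (nat_lit 9) (.e (nat_lit 426043) (nat_lit 0) (.e (nat_lit 3409) (nat_lit 212) (.e (nat_lit 655373) (nat_lit 3) (.e (nat_lit 163979) (nat_lit 30) (.e (nat_lit 573482) (nat_lit 13) (.e (nat_lit 65619) (nat_lit 10) (.e (nat_lit 344117) (nat_lit 21) .nil)))))))) (.g (nat_lit 1) (.e (nat_lit 407642) (nat_lit 0) .nil) .nil))) 
(.lf (nat_lit 595543) (.g (nat_lit 1652) (.e (nat_lit 516176) (nat_lit 14) (.e (nat_lit 466954) (nat_lit 11) (.e (nat_lit 335988) (nat_lit 1) (.e (nat_lit 57685) (nat_lit 156) (.e (nat_lit 163939) (nat_lit 18) .nil))))) (.g (nat_lit 0) (.e (nat_lit 408492) (nat_lit 0) .nil) .nil)))) (.nd (nat_lit 9) 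
(.lf (nat_lit 595287) (.g (nat_lit 3379) (.e (nat_lit 516160) (nat_lit 10) (.e (nat_lit 434247) (nat_lit 28) (.e (nat_lit 573485) (nat_lit 13) (.e (nat_lit 65571) (nat_lit 3) (.e (nat_lit 98313) (nat_lit 9) (.e (nat_lit 336288) (nat_lit 15) (.e (nat_lit 7936) (nat_lit 195) .nil))))))) (.g (nat_lit 1) (.e (nat_lit 408087) (nat_lit 0) .nil) .nil))) 
(.lf (nat_lit 595799) (.g (nat_lit 2134) (.e (nat_lit 516199) (nat_lit 26) (.e (nat_lit 343808) (nat_lit 18) (.e (nat_lit 204863) (nat_lit 27) (.e (nat_lit 344130) (nat_lit 26) (.e (nat_lit 557103) (nat_lit 14) (.e (nat_lit 188160) (nat_lit 3) .nil)))))) (.g (nat_lit 1) (.e (nat_lit 409017) (nat_lit 0) .nil) .nil))))) (.nd (nat_lit 8) (.nd (nat_lit 9) 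
(.lf (nat_lit 595159) (.g (nat_lit 1153) (.e (nat_lit 516159) (nat_lit 10) (.e (nat_lit 434248) (nat_lit 28) (.e (nat_lit 573487) (nat_lit 14) (.e (nat_lit 81664) (nat_lit 5) .nil)))) (.g (nat_lit 0) (.e (nat_lit 407893) (nat_lit 0) .nil) .nil))) 
(.lf (nat_lit 595671) (.g (nat_lit 824) (.e (nat_lit 516182) (nat_lit 15) (.e (nat_lit 475185) (nat_lit 29) (.e (nat_lit 557087) (nat_lit 11) .nil))) (.g (nat_lit 0) (.e (nat_lit 408683) (nat_lit 0) .nil) .nil)))) (.nd (nat_lit 9) 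
(.lf (nat_lit 595415) (.g (nat_lit 2916) (.e (nat_lit 516166) (nat_lit 12) (.e (nat_lit 450587) (nat_lit 10) (.e (nat_lit 573475) (nat_lit 12) (.e (nat_lit 57574) (nat_lit 55) (.e (nat_lit 778466) (nat_lit 11) .nil))))) (.g (nat_lit 0) (.e (nat_lit 408330) (nat_lit 0) .nil) .nil))) 
(.lf (nat_lit 595927) (.g (nat_lit 3692) (.e (nat_lit 548913) (nat_lit 18) (.e (nat_lit 172118) (nat_lit 12) (.e (nat_lit 475185) (nat_lit 29) (.e (nat_lit 557109) (nat_lit 15) (.e (nat_lit 188434) (nat_lit 20) (.e (nat_lit 3271) (nat_lit 199) .nil)))))) (.g (nat_lit 1) (.e (nat_lit 410270) (nat_lit 0) .nil) .nil))))))) (.nd (nat_lit 6) (.nd (nat_lit 7) (.nd (nat_lit 8) (.nd (nat_lit 9) 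
(.lf (nat_lit 594999) (.g (nat_lit 1925) (.e (nat_lit 516150) (nat_lit 9) (.e (nat_lit 426436) (nat_lit 18) (.e (nat_lit 98383) (nat_lit 32) (.e (nat_lit 475179) (nat_lit 24) (.e (nat_lit 516179) (nat_lit 15) .nil))))) (.g (nat_lit 0) (.e (nat_lit 407609) (nat_lit 0) .nil) .nil))) 
(.lf (nat_lit 595511) (.g (nat_lit 1373) (.e (nat_lit 516174) (nat_lit 14) (.e (nat_lit 466954) (nat_lit 11) (.e (nat_lit 335996) (nat_lit 1) (.e (nat_lit 57685) (nat_lit 156) .nil)))) (.g (nat_lit 0) (.e (nat_lit 408452) (nat_lit 0) .nil) .nil)))) (.nd (nat_lit 9) 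
(.lf (nat_lit 595255) (.g (nat_lit 3351) (.e (nat_lit 516160) (nat_lit 10) (.e (nat_lit 434246) (nat_lit 28) (.e (nat_lit 573489) (nat_lit 14) (.e (nat_lit 73755) (nat_lit 8) (.e (nat_lit 557090) (nat_lit 12) (.e (nat_lit 164003) (nat_lit 40) (.e (nat_lit 655375) (nat_lit 3) (.e (nat_lit 171776) (nat_lit 23) .nil)))))))) (.g (nat_lit 1) (.e (nat_lit 408041) (nat_lit 0) .nil) .nil))) 
(.lf (nat_lit 595767) (.g (nat_lit 3543) (.e (nat_lit 516195) (nat_lit 26) (.e (nat_lit 335995) (nat_lit 1) (.e (nat_lit 57931) (nat_lit 282) (.e (nat_lit 163905) (nat_lit 12) (.e (nat_lit 426544) (nat_lit 30) (.e (nat_lit 360467) (nat_lit 3) .nil)))))) (.g (nat_lit 1) (.e (nat_lit 408891) (nat_lit 0) .nil) .nil))))) (.nd (nat_lit 8) (.nd (nat_lit 9) 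
(.lf (nat_lit 595127) (.g (nat_lit 1918) (.e (nat_lit 516158) (nat_lit 9) (.e (nat_lit 426188) (nat_lit 9) (.e (nat_lit 426568) (nat_lit 34) (.e (nat_lit 393238) (nat_lit 17) (.e (nat_lit 3399) (nat_lit 211) (.e (nat_lit 647181) (nat_lit 3) (.e (nat_lit 171776) (nat_lit 23) .nil))))))) (.g (nat_lit 1) (.e (nat_lit 407758) (nat_lit 0) .nil) .nil))) 
(.lf (nat_lit 595639) (.g (nat_lit 855) (.e (nat_lit 516181) (nat_lit 15) (.e (nat_lit 475179) (nat_lit 24) (.e (nat_lit 516144) (nat_lit 9) .nil))) (.g (nat_lit 0) (.e (nat_lit 408630) (nat_lit 0) .nil) .nil)))) (.nd (nat_lit 9) 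
(.lf (nat_lit 595383) (.g (nat_lit 3348) (.e (nat_lit 516165) (nat_lit 12) (.e (nat_lit 450586) (nat_lit 10) (.e (nat_lit 573451) (nat_lit 9) (.e (nat_lit 359) (nat_lit 30) (.e (nat_lit 409602) (nat_lit 0) (.e (nat_lit 5394) (nat_lit 301) (.e (nat_lit 57464) (nat_lit 23) .nil))))))) (.g (nat_lit 1) (.e (nat_lit 408294) (nat_lit 0) .nil) .nil))) 
(.lf (nat_lit 595895) (.g (nat_lit 1534) (.e (nat_lit 548911) (nat_lit 18) (.e (nat_lit 172120) (nat_lit 12) (.e (nat_lit 475185) (nat_lit 29) (.e (nat_lit 557101) (nat_lit 13) .nil)))) (.g (nat_lit 0) (.e (nat_lit 409919) (nat_lit 0) .nil) .nil)))))) (.nd (nat_lit 7) (.nd (nat_lit 8) (.nd (nat_lit 9) 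
(.lf (nat_lit 595063) (.g (nat_lit 1387) (.e (nat_lit 516151) (nat_lit 9) (.e (nat_lit 426285) (nat_lit 10) (.e (nat_lit 434245) (nat_lit 28) (.e (nat_lit 573450) (nat_lit 9) (.e (nat_lit 375) (nat_lit 32) .nil))))) (.g (nat_lit 0) (.e (nat_lit 407680) (nat_lit 0) .nil) .nil))) 
(.lf (nat_lit 595575) (.g (nat_lit 1492) (.e (nat_lit 516179) (nat_lit 15) (.e (nat_lit 475177) (nat_lit 24) (.e (nat_lit 516145) (nat_lit 9) (.e (nat_lit 426436) (nat_lit 18) (.e (nat_lit 98384) (nat_lit 32) .nil))))) (.g (nat_lit 0) (.e (nat_lit 408534) (nat_lit 0) .nil) .nil)))) (.nd (nat_lit 9) 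
(.lf (nat_lit 595319) (.g (nat_lit 3114) (.e (nat_lit 516160) (nat_lit 10) (.e (nat_lit 434248) (nat_lit 28) (.e (nat_lit 573482) (nat_lit 13) (.e (nat_lit 65569) (nat_lit 3) (.e (nat_lit 98313) (nat_lit 9) (.e (nat_lit 336288) (nat_lit 15) (.e (nat_lit 7936) (nat_lit 195) .nil))))))) (.g (nat_lit 1) (.e (nat_lit 408138) (nat_lit 0) .nil) .nil))) 
(.lf (nat_lit 595831) (.g (nat_lit 2880) (.e (nat_lit 524320) (nat_lit 12) (.e (nat_lit 450583) (nat_lit 7) (.e (nat_lit 548913) (nat_lit 18) (.e (nat_lit 172126) (nat_lit 14) (.e (nat_lit 491524) (nat_lit 0) .nil))))) (.g (nat_lit 0) (.e (nat_lit 409244) (nat_lit 0) .nil) .nil))))) (.nd (nat_lit 8) (.nd (nat_lit 9) 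
(.lf (nat_lit 595191) (.g (nat_lit 3419) (.e (nat_lit 516160) (nat_lit 10) (.e (nat_lit 434244) (nat_lit 28) (.e (nat_lit 573487) (nat_lit 14) (.e (nat_lit 73747) (nat_lit 3) (.e (nat_lit 516195) (nat_lit 26) (.e (nat_lit 336275) (nat_lit 15) (.e (nat_lit 7936) (nat_lit 195) .nil))))))) (.g (nat_lit 1) (.e (nat_lit 407959) (nat_lit 0) .nil) .nil))) 
(.lf (nat_lit 595703) (.g (nat_lit 1104) (.e (nat_lit 516182) (nat_lit 15) (.e (nat_lit 475211) (nat_lit 41) (.e (nat_lit 712722) (nat_lit 15) (.e (nat_lit 3302) (nat_lit 202) .nil)))) (.g (nat_lit 0) (.e (nat_lit 408753) (nat_lit 0) .nil) .nil)))) (.nd (nat_lit 9) 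
(.lf (nat_lit 595447) (.g (nat_lit 2262) (.e (nat_lit 516166) (nat_lit 12) (.e (nat_lit 450588) (nat_lit 10) (.e (nat_lit 573452) (nat_lit 9) (.e (nat_lit 430) (nat_lit 32) (.e (nat_lit 426344) (nat_lit 14) (.e (nat_lit 491526) (nat_lit 0) (.e (nat_lit 7936) (nat_lit 119) .nil))))))) (.g (nat_lit 1) (.e (nat_lit 408362) (nat_lit 0) .nil) .nil))) 
(.lf (nat_lit 595959) (.g (nat_lit 2231) (.e (nat_lit 548913) (nat_lit 18) (.e (nat_lit 172125) (nat_lit 14) (.e (nat_lit 491536) (nat_lit 2) (.e (nat_lit 90177) (nat_lit 15) (.e (nat_lit 188434) (nat_lit 20) (.e (nat_lit 3271) (nat_lit 199) .nil)))))) (.g (nat_lit 1) (.e (nat_lit 410305) (nat_lit 0) .nil) .nil))))))))) 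
(.nd (nat_lit 4) (.nd (nat_lit 5) (.nd (nat_lit 6) (.nd (nat_lit 7) (.nd (nat_lit 8) 
(.nd (nat_lit 9) 
(.lf (nat_lit 594959) (.g (nat_lit 581) (.e (nat_lit 516149) (nat_lit 9) (.e (nat_lit 426131) (nat_lit 3) (.e (nat_lit 204837) (nat_lit 20) .nil))) (.g (nat_lit 0) (.e (nat_lit 407542) (nat_lit 0) .nil) .nil))) 
(.lf (nat_lit 595471) (.g (nat_lit 516) (.e (nat_lit 516169) (nat_lit 13) (.e (nat_lit 458789) (nat_lit 23) (.e (nat_lit 532513) (nat_lit 3) .nil))) (.g (nat_lit 0) (.e (nat_lit 408392) (nat_lit 0) .nil) .nil)))) (.nd (nat_lit 9) 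
(.lf (nat_lit 595215) (.g (nat_lit 2777) (.e (nat_lit 516160) (nat_lit 10) (.e (nat_lit 434245) (nat_lit 28) (.e (nat_lit 573481) (nat_lit 13) (.e (nat_lit 65570) (nat_lit 3) (.e (nat_lit 98317) (nat_lit 9) (.e (nat_lit 336293) (nat_lit 15) (.e (nat_lit 7936) (nat_lit 195) .nil))))))) (.g (nat_lit 1) (.e (nat_lit 407989) (nat_lit 0) .nil) .nil))) 
(.lf (nat_lit 595727) (.g (nat_lit 2287) (.e (nat_lit 516191) (nat_lit 17) (.e (nat_lit 6207) (nat_lit 333) (.e (nat_lit 57881) (nat_lit 270) (.e (nat_lit 371) (nat_lit 32) (.e (nat_lit 426544) (nat_lit 30) (.e (nat_lit 360467) (nat_lit 3) .nil)))))) (.g (nat_lit 1) (.e (nat_lit 408789) (nat_lit 0) .nil) .nil))))) (.nd (nat_lit 8) (.nd (nat_lit 9) 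
(.lf (nat_lit 595087) (.g (nat_lit 4406) (.e (nat_lit 516151) (nat_lit 9) (.e (nat_lit 426286) (nat_lit 10) (.e (nat_lit 434245) (nat_lit 28) (.e (nat_lit 573471) (nat_lit 11) (.e (nat_lit 16388) (nat_lit 0) (.e (nat_lit 7583) (nat_lit 405) (.e (nat_lit 57464) (nat_lit 23) .nil))))))) (.g (nat_lit 1) (.e (nat_lit 407705) (nat_lit 0) .nil) .nil))) 
(.lf (nat_lit 595599) (.g (nat_lit 1164) (.e (nat_lit 516179) (nat_lit 15) (.e (nat_lit 475198) (nat_lit 40) (.e (nat_lit 704589) (nat_lit 3) (.e (nat_lit 163975) (nat_lit 30) .nil)))) (.g (nat_lit 0) (.e (nat_lit 408563) (nat_lit 0) .nil) .nil)))) (.nd (nat_lit 9) 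
(.lf (nat_lit 595343) (.g (nat_lit 2949) (.e (nat_lit 516160) (nat_lit 10) (.e (nat_lit 434248) (nat_lit 28) (.e (nat_lit 573489) (nat_lit 14) (.e (nat_lit 73741) (nat_lit 1) (.e (nat_lit 499900) (nat_lit 7) (.e (nat_lit 24671) (nat_lit 15) (.e (nat_lit 7936) (nat_lit 195) .nil))))))) (.g (nat_lit 1) (.e (nat_lit 408170) (nat_lit 0) .nil) .nil))) 
(.lf (nat_lit 595855) (.g (nat_lit 1681) (.e (nat_lit 524322) (nat_lit 12) (.e (nat_lit 450587) (nat_lit 10) (.e (nat_lit 573478) (nat_lit 12) (.e (nat_lit 57574) (nat_lit 55) (.e (nat_lit 778465) (nat_lit 11) .nil))))) (.g (nat_lit 0) (.e (nat_lit 409283) (nat_lit 0) .nil) .nil)))))) (.nd (nat_lit 7) (.nd (nat_lit 8) (.nd (nat_lit 9) 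
(.lf (nat_lit 595023) (.g (nat_lit 3999) (.e (nat_lit 516151) (nat_lit 9) (.e (nat_lit 426043) (nat_lit 0) (.e (nat_lit 3408) (nat_lit 212) (.e (nat_lit 655364) (nat_lit 0) (.e (nat_lit 2472) (nat_lit 157) (.e (nat_lit 3307) (nat_lit 202) (.e (nat_lit 573484) (nat_lit 13) (.e (nat_lit 65610) (nat_lit 10) (.e (nat_lit 344117) (nat_lit 21) .nil))))))))) (.g (nat_lit 1) (.e (nat_lit 407633) (nat_lit 0) .nil) .nil))) 
(.lf (nat_lit 595535) (.g (nat_lit 1824) (.e (nat_lit 516176) (nat_lit 14) (.e (nat_lit 466954) (nat_lit 11) (.e (nat_lit 335986) (nat_lit 1) (.e (nat_lit 57689) (nat_lit 156) .nil)))) (.g (nat_lit 0) (.e (nat_lit 408483) (nat_lit 0) .nil) .nil)))) (.nd (nat_lit 9) 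
(.lf (nat_lit 595279) (.g (nat_lit 3718) (.e (nat_lit 516160) (nat_lit 10) (.e (nat_lit 434247) (nat_lit 28) (.e (nat_lit 573485) (nat_lit 13) (.e (nat_lit 65567) (nat_lit 2) (.e (nat_lit 90160) (nat_lit 11) (.e (nat_lit 24671) (nat_lit 15) (.e (nat_lit 7936) (nat_lit 195) .nil))))))) (.g (nat_lit 1) (.e (nat_lit 408072) (nat_lit 0) .nil) .nil))) 
(.lf (nat_lit 595791) (.g (nat_lit 2457) (.e (nat_lit 516199) (nat_lit 26) (.e (nat_lit 335995) (nat_lit 1) (.e (nat_lit 57931) (nat_lit 282) (.e (nat_lit 163902) (nat_lit 12) (.e (nat_lit 426546) (nat_lit 30) (.e (nat_lit 360466) (nat_lit 3) .nil)))))) (.g (nat_lit 1) (.e (nat_lit 408992) (nat_lit 0) .nil) .nil))))) (.nd (nat_lit 8) (.nd (nat_lit 9) 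
(.lf (nat_lit 595151) (.g (nat_lit 1940) (.e (nat_lit 516159) (nat_lit 10) (.e (nat_lit 434244) (nat_lit 28) (.e (nat_lit 573488) (nat_lit 14) (.e (nat_lit 73755) (nat_lit 8) .nil)))) (.g (nat_lit 0) (.e (nat_lit 407842) (nat_lit 0) .nil) .nil))) 
(.lf (nat_lit 595663) (.g (nat_lit 3098) (.e (nat_lit 516182) (nat_lit 15) (.e (nat_lit 475177) (nat_lit 24) (.e (nat_lit 516179) (nat_lit 15) (.e (nat_lit 475177) (nat_lit 24) (.e (nat_lit 516179) (nat_lit 15) (.e (nat_lit 475179) (nat_lit 24) .nil)))))) (.g (nat_lit 1) (.e (nat_lit 408673) (nat_lit 0) .nil) .nil)))) (.nd (nat_lit 9) 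
(.lf (nat_lit 595407) (.g (nat_lit 2655) (.e (nat_lit 516166) (nat_lit 12) (.e (nat_lit 450587) (nat_lit 10) (.e (nat_lit 573457) (nat_lit 9) (.e (nat_lit 430) (nat_lit 32) (.e (nat_lit 426172) (nat_lit 7) (.e (nat_lit 409616) (nat_lit 10) (.e (nat_lit 7936) (nat_lit 43) .nil))))))) (.g (nat_lit 1) (.e (nat_lit 408322) (nat_lit 0) .nil) .nil))) 
(.lf (nat_lit 595919) (.g (nat_lit 1881) (.e (nat_lit 548912) (nat_lit 18) (.e (nat_lit 172126) (nat_lit 14) (.e (nat_lit 491537) (nat_lit 2) (.e (nat_lit 90178) (nat_lit 15) .nil)))) (.g (nat_lit 0) (.e (nat_lit 409957) (nat_lit 0) .nil) .nil))))))) (.nd (nat_lit 6) (.nd (nat_lit 7) (.nd (nat_lit 8) (.nd (nat_lit 9) 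
(.lf (nat_lit 594991) (.g (nat_lit 1744) (.e (nat_lit 516150) (nat_lit 9) (.e (nat_lit 426323) (nat_lit 13) (.e (nat_lit 483363) (nat_lit 18) (.e (nat_lit 57689) (nat_lit 156) .nil)))) (.g (nat_lit 0) (.e (nat_lit 407596) (nat_lit 0) .nil) .nil))) 
(.lf (nat_lit 595503) (.g (nat_lit 2706) (.e (nat_lit 516174) (nat_lit 14) (.e (nat_lit 466954) (nat_lit 11) (.e (nat_lit 335994) (nat_lit 1) (.e (nat_lit 57688) (nat_lit 156) (.e (nat_lit 163936) (nat_lit 18) (.e (nat_lit 475177) (nat_lit 24) .nil)))))) (.g (nat_lit 1) (.e (nat_lit 408443) (nat_lit 0) .nil) .nil)))) (.nd (nat_lit 9) 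
(.lf (nat_lit 595247) (.g (nat_lit 3008) (.e (nat_lit 516160) (nat_lit 10) (.e (nat_lit 434246) (nat_lit 28) (.e (nat_lit 573487) (nat_lit 14) (.e (nat_lit 73747) (nat_lit 3) (.e (nat_lit 516195) (nat_lit 26) (.e (nat_lit 336275) (nat_lit 15) (.e (nat_lit 7936) (nat_lit 195) .nil))))))) (.g (nat_lit 1) (.e (nat_lit 408029) (nat_lit 0) .nil) .nil))) 
(.lf (nat_lit 595759) (.g (nat_lit 3612) (.e (nat_lit 516195) (nat_lit 26) (.e (nat_lit 335988) (nat_lit 1) (.e (nat_lit 57927) (nat_lit 282) (.e (nat_lit 163903) (nat_lit 12) (.e (nat_lit 426544) (nat_lit 30) (.e (nat_lit 360467) (nat_lit 3) .nil)))))) (.g (nat_lit 1) (.e (nat_lit 408865) (nat_lit 0) .nil) .nil))))) (.nd (nat_lit 8) (.nd (nat_lit 9) 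
(.lf (nat_lit 595119) (.g (nat_lit 2699) (.e (nat_lit 516153) (nat_lit 9) (.e (nat_lit 426412) (nat_lit 15) (.e (nat_lit 2059) (nat_lit 142) (.e (nat_lit 704589) (nat_lit 3) (.e (nat_lit 163976) (nat_lit 30) .nil))))) (.g (nat_lit 0) (.e (nat_lit 407744) (nat_lit 0) .nil) .nil))) 
(.lf (nat_lit 595631) (.g (nat_lit 3146) (.e (nat_lit 516181) (nat_lit 15) (.e (nat_lit 475176) (nat_lit 24) (.e (nat_lit 516179) (nat_lit 15) (.e (nat_lit 475177) (nat_lit 24) (.e (nat_lit 516179) (nat_lit 15) (.e (nat_lit 475177) (nat_lit 24) .nil)))))) (.g (nat_lit 1) (.e (nat_lit 408619) (nat_lit 0) .nil) .nil)))) (.nd (nat_lit 9) 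
(.lf (nat_lit 595375) (.g (nat_lit 1274) (.e (nat_lit 516163) (nat_lit 11) (.e (nat_lit 442425) (nat_lit 23) (.e (nat_lit 204846) (nat_lit 24) (.e (nat_lit 319505) (nat_lit 10) .nil)))) (.g (nat_lit 0) (.e (nat_lit 408283) (nat_lit 0) .nil) .nil))) 
(.lf (nat_lit 595887) (.g (nat_lit 1603) (.e (nat_lit 556800) (nat_lit 14) (.e (nat_lit 2936) (nat_lit 184) (.e (nat_lit 426347) (nat_lit 14) (.e (nat_lit 491537) (nat_lit 2) (.e (nat_lit 90176) (nat_lit 15) .nil))))) (.g (nat_lit 0) (.e (nat_lit 409889) (nat_lit 0) .nil) .nil)))))) (.nd (nat_lit 7) (.nd (nat_lit 8) (.nd (nat_lit 9) 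
(.lf (nat_lit 595055) (.g (nat_lit 4711) (.e (nat_lit 516151) (nat_lit 9) (.e (nat_lit 426285) (nat_lit 10) (.e (nat_lit 434242) (nat_lit 28) (.e (nat_lit 573471) (nat_lit 11) (.e (nat_lit 16425) (nat_lit 7) (.e (nat_lit 409617) (nat_lit 10) (.e (nat_lit 7936) (nat_lit 43) .nil))))))) (.g (nat_lit 1) (.e (nat_lit 407672) (nat_lit 0) .nil) .nil))) 
(.lf (nat_lit 595567) (.g (nat_lit 2116) (.e (nat_lit 516178) (nat_lit 15) (.e (nat_lit 475199) (nat_lit 40) (.e (nat_lit 704589) (nat_lit 3) (.e (nat_lit 163976) (nat_lit 30) (.e (nat_lit 573491) (nat_lit 15) (.e (nat_lit 81946) (nat_lit 20) (.e (nat_lit 1802) (nat_lit 119) .nil))))))) (.g (nat_lit 1) (.e (nat_lit 408525) (nat_lit 0) .nil) .nil)))) (.nd (nat_lit 9) 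
(.lf (nat_lit 595311) (.g (nat_lit 3307) (.e (nat_lit 516160) (nat_lit 10) (.e (nat_lit 434248) (nat_lit 28) (.e (nat_lit 573482) (nat_lit 13) (.e (nat_lit 65567) (nat_lit 2) (.e (nat_lit 90160) (nat_lit 11) (.e (nat_lit 24669) (nat_lit 15) (.e (nat_lit 7936) (nat_lit 195) .nil))))))) (.g (nat_lit 1) (.e (nat_lit 408124) (nat_lit 0) .nil) .nil))) 
(.lf (nat_lit 595823) (.g (nat_lit 2648) (.e (nat_lit 524319) (nat_lit 11) (.e (nat_lit 442427) (nat_lit 23) (.e (nat_lit 204846) (nat_lit 24) (.e (nat_lit 319530) (nat_lit 16) (.e (nat_lit 286722) (nat_lit 0) .nil))))) (.g (nat_lit 0) (.e (nat_lit 409236) (nat_lit 0) .nil) .nil))))) (.nd (nat_lit 8) (.nd (nat_lit 9) 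
(.lf (nat_lit 595183) (.g (nat_lit 2443) (.e (nat_lit 516160) (nat_lit 10) (.e (nat_lit 434244) (nat_lit 28) (.e (nat_lit 573481) (nat_lit 13) (.e (nat_lit 65570) (nat_lit 3) (.e (nat_lit 98313) (nat_lit 9) (.e (nat_lit 336288) (nat_lit 15) (.e (nat_lit 7936) (nat_lit 195) .nil))))))) (.g (nat_lit 1) (.e (nat_lit 407950) (nat_lit 0) .nil) .nil))) 
(.lf (nat_lit 595695) (.g (nat_lit 3364) (.e (nat_lit 516182) (nat_lit 15) (.e (nat_lit 475199) (nat_lit 40) (.e (nat_lit 704589) (nat_lit 3) (.e (nat_lit 163976) (nat_lit 30) (.e (nat_lit 573491) (nat_lit 15) (.e (nat_lit 81946) (nat_lit 20) (.e (nat_lit 1802) (nat_lit 119) .nil))))))) (.g (nat_lit 1) (.e (nat_lit 408733) (nat_lit 0) .nil) .nil)))) (.nd (nat_lit 9) 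
(.lf (nat_lit 595439) (.g (nat_lit 4410) (.e (nat_lit 516166) (nat_lit 12) (.e (nat_lit 450588) (nat_lit 10) (.e (nat_lit 573451) (nat_lit 9) (.e (nat_lit 359) (nat_lit 30) (.e (nat_lit 409604) (nat_lit 0) (.e (nat_lit 5394) (nat_lit 301) (.e (nat_lit 57464) (nat_lit 23) .nil))))))) (.g (nat_lit 1) (.e (nat_lit 408354) (nat_lit 0) .nil) .nil))) 
(.lf (nat_lit 595951) (.g (nat_lit 2697) (.e (nat_lit 548913) (nat_lit 18) (.e (nat_lit 172124) (nat_lit 14) (.e (nat_lit 491537) (nat_lit 2) (.e (nat_lit 90178) (nat_lit 15) (.e (nat_lit 188441) (nat_lit 20) (.e (nat_lit 3271) (nat_lit 199) .nil)))))) (.g (nat_lit 1) (.e (nat_lit 410296) (nat_lit 0) .nil) .nil)))))))) 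
(.nd (nat_lit 5) (.nd (nat_lit 6) (.nd (nat_lit 7) (.nd (nat_lit 8) (.nd (nat_lit 9) 
(.lf (nat_lit 594975) (.g (nat_lit 1162) (.e (nat_lit 516149) (nat_lit 9) (.e (nat_lit 426323) (nat_lit 13) (.e (nat_lit 483364) (nat_lit 18) (.e (nat_lit 57689) (nat_lit 156) .nil)))) (.g (nat_lit 0) (.e (nat_lit 407568) (nat_lit 0) .nil) .nil))) 
(.lf (nat_lit 595487) (.g (nat_lit 1835) (.e (nat_lit 516174) (nat_lit 14) (.e (nat_lit 466954) (nat_lit 11) (.e (nat_lit 335986) (nat_lit 1) (.e (nat_lit 57689) (nat_lit 156) .nil)))) (.g (nat_lit 0) (.e (nat_lit 408426) (nat_lit 0) .nil) .nil)))) (.nd (nat_lit 9) 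
(.lf (nat_lit 595231) (.g (nat_lit 2312) (.e (nat_lit 516160) (nat_lit 10) (.e (nat_lit 434245) (nat_lit 28) (.e (nat_lit 573488) (nat_lit 14) (.e (nat_lit 73755) (nat_lit 8) (.e (nat_lit 557084) (nat_lit 10) (.e (nat_lit 8358) (nat_lit 88) (.e (nat_lit 712719) (nat_lit 15) (.e (nat_lit 7936) (nat_lit 195) .nil)))))))) (.g (nat_lit 1) (.e (nat_lit 408007) (nat_lit 0) .nil) .nil))) 
(.lf (nat_lit 595743) (.g (nat_lit 3177) (.e (nat_lit 516195) (nat_lit 26) (.e (nat_lit 335986) (nat_lit 1) (.e (nat_lit 57926) (nat_lit 282) (.e (nat_lit 163903) (nat_lit 12) (.e (nat_lit 426546) (nat_lit 30) (.e (nat_lit 360466) (nat_lit 3) .nil)))))) (.g (nat_lit 1) (.e (nat_lit 408838) (nat_lit 0) .nil) .nil))))) (.nd (nat_lit 8) (.nd (nat_lit 9) 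
(.lf (nat_lit 595103) (.g (nat_lit 3814) (.e (nat_lit 516151) (nat_lit 9) (.e (nat_lit 426286) (nat_lit 10) (.e (nat_lit 434248) (nat_lit 28) (.e (nat_lit 573470) (nat_lit 11) (.e (nat_lit 16388) (nat_lit 0) (.e (nat_lit 7583) (nat_lit 405) (.e (nat_lit 57464) (nat_lit 23) .nil))))))) (.g (nat_lit 1) (.e (nat_lit 407721) (nat_lit 0) .nil) .nil))) 
(.lf (nat_lit 595615) (.g (nat_lit 3358) (.e (nat_lit 516180) (nat_lit 15) (.e (nat_lit 475177) (nat_lit 24) (.e (nat_lit 516146) (nat_lit 9) (.e (nat_lit 426438) (nat_lit 18) (.e (nat_lit 98384) (nat_lit 32) (.e (nat_lit 475177) (nat_lit 24) .nil)))))) (.g (nat_lit 1) (.e (nat_lit 408598) (nat_lit 0) .nil) .nil)))) (.nd (nat_lit 9) 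
(.lf (nat_lit 595359) (.g (nat_lit 2960) (.e (nat_lit 516161) (nat_lit 10) (.e (nat_lit 434272) (nat_lit 38) (.e (nat_lit 655375) (nat_lit 3) (.e (nat_lit 163979) (nat_lit 30) (.e (nat_lit 573485) (nat_lit 13) .nil))))) (.g (nat_lit 0) (.e (nat_lit 408259) (nat_lit 0) .nil) .nil))) 
(.lf (nat_lit 595871) (.g (nat_lit 644) (.e (nat_lit 524340) (nat_lit 28) (.e (nat_lit 352322) (nat_lit 26) (.e (nat_lit 155392) (nat_lit 14) .nil))) (.g (nat_lit 0) (.e (nat_lit 409348) (nat_lit 0) .nil) .nil)))))) (.nd (nat_lit 7) (.nd (nat_lit 8) (.nd (nat_lit 9) 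
(.lf (nat_lit 595039) (.g (nat_lit 3916) (.e (nat_lit 516151) (nat_lit 9) (.e (nat_lit 426142) (nat_lit 4) (.e (nat_lit 229666) (nat_lit 240) (.e (nat_lit 2602) (nat_lit 163) (.e (nat_lit 163979) (nat_lit 30) (.e (nat_lit 573482) (nat_lit 13) (.e (nat_lit 65619) (nat_lit 10) (.e (nat_lit 344117) (nat_lit 21) .nil)))))))) (.g (nat_lit 1) (.e (nat_lit 407656) (nat_lit 0) .nil) .nil))) 
(.lf (nat_lit 595551) (.g (nat_lit 489) (.e (nat_lit 516176) (nat_lit 14) (.e (nat_lit 466971) (nat_lit 21) (.e (nat_lit 164182) (nat_lit 154) .nil))) (.g (nat_lit 0) (.e (nat_lit 408501) (nat_lit 0) .nil) .nil)))) (.nd (nat_lit 9) 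
(.lf (nat_lit 595295) (.g (nat_lit 2213) (.e (nat_lit 516160) (nat_lit 10) (.e (nat_lit 434248) (nat_lit 28) (.e (nat_lit 573480) (nat_lit 13) (.e (nat_lit 65568) (nat_lit 2) (.e (nat_lit 90157) (nat_lit 11) (.e (nat_lit 24670) (nat_lit 15) (.e (nat_lit 7936) (nat_lit 195) .nil))))))) (.g (nat_lit 1) (.e (nat_lit 408106) (nat_lit 0) .nil) .nil))) 
(.lf (nat_lit 595807) (.g (nat_lit 453) (.e (nat_lit 524291) (nat_lit 0) (.e (nat_lit 3459) (nat_lit 216) (.e (nat_lit 688139) (nat_lit 5) .nil))) (.g (nat_lit 0) (.e (nat_lit 409054) (nat_lit 0) .nil) .nil))))) (.nd (nat_lit 8) (.nd (nat_lit 9) 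
(.lf (nat_lit 595167) (.g (nat_lit 1388) (.e (nat_lit 516160) (nat_lit 10) (.e (nat_lit 434231) (nat_lit 23) (.e (nat_lit 532513) (nat_lit 3) (.e (nat_lit 114714) (nat_lit 22) .nil)))) (.g (nat_lit 0) (.e (nat_lit 407933) (nat_lit 0) .nil) .nil))) 
(.lf (nat_lit 595679) (.g (nat_lit 1289) (.e (nat_lit 516182) (nat_lit 15) (.e (nat_lit 475198) (nat_lit 40) (.e (nat_lit 704589) (nat_lit 3) (.e (nat_lit 163976) (nat_lit 30) (.e (nat_lit 573481) (nat_lit 13) .nil))))) (.g (nat_lit 0) (.e (nat_lit 408698) (nat_lit 0) .nil) .nil)))) (.nd (nat_lit 9) 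
(.lf (nat_lit 595423) (.g (nat_lit 2181) (.e (nat_lit 516166) (nat_lit 12) (.e (nat_lit 450587) (nat_lit 10) (.e (nat_lit 573477) (nat_lit 12) (.e (nat_lit 57575) (nat_lit 55) (.e (nat_lit 778465) (nat_lit 11) .nil))))) (.g (nat_lit 0) (.e (nat_lit 408338) (nat_lit 0) .nil) .nil))) 
(.lf (nat_lit 595935) (.g (nat_lit 3300) (.e (nat_lit 548913) (nat_lit 18) (.e (nat_lit 172120) (nat_lit 12) (.e (nat_lit 475183) (nat_lit 29) (.e (nat_lit 557107) (nat_lit 15) (.e (nat_lit 188440) (nat_lit 20) (.e (nat_lit 3272) (nat_lit 199) .nil)))))) (.g (nat_lit 1) (.e (nat_lit 410278) (nat_lit 0) .nil) .nil))))))) (.nd (nat_lit 6) (.nd (nat_lit 7) (.nd (nat_lit 8) (.nd (nat_lit 9) 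
(.lf (nat_lit 595007) (.g (nat_lit 4307) (.e (nat_lit 516151) (nat_lit 9) (.e (nat_lit 426043) (nat_lit 0) (.e (nat_lit 2424) (nat_lit 157) (.e (nat_lit 4849) (nat_lit 285) (.e (nat_lit 163869) (nat_lit 2) (.e (nat_lit 196666) (nat_lit 13) (.e (nat_lit 65610) (nat_lit 10) (.e (nat_lit 344117) (nat_lit 21) .nil)))))))) (.g (nat_lit 1) (.e (nat_lit 407617) (nat_lit 0) .nil) .nil))) 
(.lf (nat_lit 595519) (.g (nat_lit 565) (.e (nat_lit 516175) (nat_lit 14) (.e (nat_lit 466954) (nat_lit 11) (.e (nat_lit 335986) (nat_lit 1) .nil))) (.g (nat_lit 0) (.e (nat_lit 408460) (nat_lit 0) .nil) .nil)))) (.nd (nat_lit 9) 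
(.lf (nat_lit 595263) (.g (nat_lit 2667) (.e (nat_lit 516160) (nat_lit 10) (.e (nat_lit 434247) (nat_lit 28) (.e (nat_lit 573484) (nat_lit 13) (.e (nat_lit 65566) (nat_lit 2) (.e (nat_lit 90157) (nat_lit 11) (.e (nat_lit 24673) (nat_lit 15) (.e (nat_lit 7936) (nat_lit 195) .nil))))))) (.g (nat_lit 1) (.e (nat_lit 408050) (nat_lit 0) .nil) .nil))) 
(.lf (nat_lit 595775) (.g (nat_lit 2635) (.e (nat_lit 516195) (nat_lit 26) (.e (nat_lit 335996) (nat_lit 1) (.e (nat_lit 57931) (nat_lit 282) (.e (nat_lit 163941) (nat_lit 19) (.e (nat_lit 483394) (nat_lit 24) (.e (nat_lit 344117) (nat_lit 21) .nil)))))) (.g (nat_lit 1) (.e (nat_lit 408906) (nat_lit 0) .nil) .nil))))) (.nd (nat_lit 8) (.nd (nat_lit 9) 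
(.lf (nat_lit 595135) (.g (nat_lit 878) (.e (nat_lit 516159) (nat_lit 10) (.e (nat_lit 434231) (nat_lit 23) (.e (nat_lit 532513) (nat_lit 3) .nil))) (.g (nat_lit 0) (.e (nat_lit 407774) (nat_lit 0) .nil) .nil))) 
(.lf (nat_lit 595647) (.g (nat_lit 2937) (.e (nat_lit 516181) (nat_lit 15) (.e (nat_lit 475198) (nat_lit 40) (.e (nat_lit 704589) (nat_lit 3) (.e (nat_lit 163975) (nat_lit 30) (.e (nat_lit 573491) (nat_lit 15) (.e (nat_lit 81946) (nat_lit 20) (.e (nat_lit 1802) (nat_lit 119) .nil))))))) (.g (nat_lit 1) (.e (nat_lit 408642) (nat_lit 0) .nil) .nil)))) (.nd (nat_lit 9) 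
(.lf (nat_lit 595391) (.g (nat_lit 3834) (.e (nat_lit 516165) (nat_lit 12) (.e (nat_lit 450588) (nat_lit 10) (.e (nat_lit 573470) (nat_lit 11) (.e (nat_lit 16388) (nat_lit 0) (.e (nat_lit 7581) (nat_lit 405) (.e (nat_lit 57464) (nat_lit 23) .nil)))))) (.g (nat_lit 1) (.e (nat_lit 408304) (nat_lit 0) .nil) .nil))) 
(.lf (nat_lit 595903) (.g (nat_lit 1924) (.e (nat_lit 548911) (nat_lit 18) (.e (nat_lit 172126) (nat_lit 14) (.e (nat_lit 491537) (nat_lit 2) (.e (nat_lit 90176) (nat_lit 15) (.e (nat_lit 188439) (nat_lit 20) .nil))))) (.g (nat_lit 0) (.e (nat_lit 409927) (nat_lit 0) .nil) .nil)))))) (.nd (nat_lit 7) (.nd (nat_lit 8) (.nd (nat_lit 9) 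
(.lf (nat_lit 595071) (.g (nat_lit 4670) (.e (nat_lit 516151) (nat_lit 9) (.e (nat_lit 426285) (nat_lit 10) (.e (nat_lit 434248) (nat_lit 28) (.e (nat_lit 573450) (nat_lit 9) (.e (nat_lit 375) (nat_lit 32) (.e (nat_lit 426173) (nat_lit 7) (.e (nat_lit 409617) (nat_lit 10) (.e (nat_lit 7936) (nat_lit 43) .nil)))))))) (.g (nat_lit 1) (.e (nat_lit 407688) (nat_lit 0) .nil) .nil))) 
(.lf (nat_lit 595583) (.g (nat_lit 2773) (.e (nat_lit 516179) (nat_lit 15) (.e (nat_lit 475177) (nat_lit 24) (.e (nat_lit 516159) (nat_lit 10) (.e (nat_lit 434247) (nat_lit 28) (.e (nat_lit 573484) (nat_lit 13) (.e (nat_lit 65642) (nat_lit 15) (.e (nat_lit 7936) (nat_lit 195) .nil))))))) (.g (nat_lit 1) (.e (nat_lit 408544) (nat_lit 0) .nil) .nil)))) (.nd (nat_lit 9) 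
(.lf (nat_lit 595327) (.g (nat_lit 2636) (.e (nat_lit 516160) (nat_lit 10) (.e (nat_lit 434248) (nat_lit 28) (.e (nat_lit 573482) (nat_lit 13) (.e (nat_lit 65571) (nat_lit 3) (.e (nat_lit 98313) (nat_lit 9) (.e (nat_lit 336278) (nat_lit 15) (.e (nat_lit 7936) (nat_lit 195) .nil))))))) (.g (nat_lit 1) (.e (nat_lit 408146) (nat_lit 0) .nil) .nil))) 
(.lf (nat_lit 595839) (.g (nat_lit 2397) (.e (nat_lit 524321) (nat_lit 12) (.e (nat_lit 450588) (nat_lit 10) (.e (nat_lit 573474) (nat_lit 12) (.e (nat_lit 57572) (nat_lit 54) (.e (nat_lit 770071) (nat_lit 8) .nil))))) (.g (nat_lit 0) (.e (nat_lit 409261) (nat_lit 0) .nil) .nil))))) (.nd (nat_lit 8) (.nd (nat_lit 9) 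
(.lf (nat_lit 595199) (.g (nat_lit 2612) (.e (nat_lit 516160) (nat_lit 10) (.e (nat_lit 434244) (nat_lit 28) (.e (nat_lit 573488) (nat_lit 14) (.e (nat_lit 73747) (nat_lit 3) (.e (nat_lit 516195) (nat_lit 26) (.e (nat_lit 336275) (nat_lit 15) (.e (nat_lit 7936) (nat_lit 195) .nil))))))) (.g (nat_lit 1) (.e (nat_lit 407969) (nat_lit 0) .nil) .nil))) 
(.lf (nat_lit 595711) (.g (nat_lit 4071) (.e (nat_lit 516183) (nat_lit 16) (.e (nat_lit 491566) (nat_lit 12) (.e (nat_lit 385074) (nat_lit 31) (.e (nat_lit 573493) (nat_lit 15) (.e (nat_lit 81941) (nat_lit 20) .nil))))) (.g (nat_lit 0) (.e (nat_lit 408764) (nat_lit 0) .nil) .nil)))) (.nd (nat_lit 9) 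
(.lf (nat_lit 595455) (.g (nat_lit 5289) (.e (nat_lit 516166) (nat_lit 12) (.e (nat_lit 450588) (nat_lit 10) (.e (nat_lit 573473) (nat_lit 12) (.e (nat_lit 57347) (nat_lit 0) (.e (nat_lit 7265) (nat_lit 384) (.e (nat_lit 57431) (nat_lit 16) (.e (nat_lit 368676) (nat_lit 21) .nil))))))) (.g (nat_lit 1) (.e (nat_lit 408370) (nat_lit 0) .nil) .nil))) 
(.lf (nat_lit 595967) (.g (nat_lit 1568) (.e (nat_lit 548913) (nat_lit 18) (.e (nat_lit 172126) (nat_lit 14) (.e (nat_lit 491520) (nat_lit 0) (.e (nat_lit 1691) (nat_lit 117) .nil)))) (.g (nat_lit 0) (.e (nat_lit 410313) (nat_lit 0) .nil) .nil)))))))))))))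

noncomputable def tv5642 : DT := (.nd (nat_lit 0) (.nd (nat_lit 1) (.nd (nat_lit 2) (.nd (nat_lit 3) (.nd (nat_lit 4) (.nd (nat_lit 5) (.nd (nat_lit 6) (.nd (nat_lit 7) (.nd (nat_lit 8) (.nd (nat_lit 9) 
(.lf (nat_lit 595968) (.g (nat_lit 1436) (.e (nat_lit 548913) (nat_lit 18) (.e (nat_lit 172126) (nat_lit 14) (.e (nat_lit 491521) (nat_lit 0) (.e (nat_lit 1691) (nat_lit 117) .nil)))) (.g (nat_lit 0) (.e (nat_lit 410314) (nat_lit 0) .nil) .nil))) 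
(.lf (nat_lit 596480) (.g (nat_lit 626) (.e (nat_lit 573473) (nat_lit 12) (.e (nat_lit 57575) (nat_lit 55) (.e (nat_lit 778463) (nat_lit 11) .nil))) (.g (nat_lit 0) (.e (nat_lit 411536) (nat_lit 0) .nil) .nil)))) (.nd (nat_lit 9) 
(.lf (nat_lit 596224) (.g (nat_lit 2375) (.e (nat_lit 573456) (nat_lit 9) (.e (nat_lit 1669) (nat_lit 116) (.e (nat_lit 401459) (nat_lit 13) (.e (nat_lit 483364) (nat_lit 18) (.e (nat_lit 57665) (nat_lit 152) .nil))))) (.g (nat_lit 0) (.e (nat_lit 411061) (nat_lit 0) .nil) .nil))) 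
(.lf (nat_lit 596736) (.g (nat_lit 2646) (.e (nat_lit 573479) (nat_lit 13) (.e (nat_lit 65604) (nat_lit 9) (.e (nat_lit 336013) (nat_lit 2) (.e (nat_lit 90170) (nat_lit 13) (.e (nat_lit 172046) (nat_lit 0) .nil))))) (.g (nat_lit 0) (.e (nat_lit 412070) (nat_lit 0) .nil) .nil))))) (.nd (nat_lit 8) (.nd (nat_lit 9) 
(.lf (nat_lit 596096) (.g (nat_lit 3232) (.e (nat_lit 573450) (nat_lit 9) (.e (nat_lit 391) (nat_lit 32) (.e (nat_lit 426316) (nat_lit 12) (.e (nat_lit 475185) (nat_lit 29) (.e (nat_lit 557101) (nat_lit 13) .nil))))) (.g (nat_lit 0) (.e (nat_lit 410858) (nat_lit 0) .nil) .nil))) 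
(.lf (nat_lit 596608) (.g (nat_lit 1489) (.e (nat_lit 573477) (nat_lit 12) (.e (nat_lit 57574) (nat_lit 55) (.e (nat_lit 778466) (nat_lit 11) (.e (nat_lit 24602) (nat_lit 2) (.e (nat_lit 90169) (nat_lit 13) .nil))))) (.g (nat_lit 0) (.e (nat_lit 411784) (nat_lit 0) .nil) .nil)))) (.nd (nat_lit 9) 
(.lf (nat_lit 596352) (.g (nat_lit 1165) (.e (nat_lit 573470) (nat_lit 11) (.e (nat_lit 16471) (nat_lit 14) (.e (nat_lit 491540) (nat_lit 3) (.e (nat_lit 98372) (nat_lit 29) .nil)))) (.g (nat_lit 0) (.e (nat_lit 411257) (nat_lit 0) .nil) .nil))) 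
(.lf (nat_lit 596864) (.g (nat_lit 1857) (.e (nat_lit 573481) (nat_lit 13) (.e (nat_lit 65598) (nat_lit 9) (.e (nat_lit 336013) (nat_lit 2) (.e (nat_lit 90170) (nat_lit 13) .nil)))) (.g (nat_lit 0) (.e (nat_lit 412281) (nat_lit 0) .nil) .nil)))))) (.nd (nat_lit 7) (.nd (nat_lit 8) (.nd (nat_lit 9) 
(.lf (nat_lit 596032) (.g (nat_lit 1373) (.e (nat_lit 573445) (nat_lit 0) (.e (nat_lit 3011) (nat_lit 187) (.e (nat_lit 450605) (nat_lit 27) (.e (nat_lit 745476) (nat_lit 0) (.e (nat_lit 1589) (nat_lit 111) (.e (nat_lit 368384) (nat_lit 10) .nil)))))) (.g (nat_lit 1) (.e (nat_lit 410618) (nat_lit 0) .nil) .nil))) 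
(.lf (nat_lit 596544) (.g (nat_lit 1063) (.e (nat_lit 573475) (nat_lit 12) (.e (nat_lit 57574) (nat_lit 55) (.e (nat_lit 778465) (nat_lit 11) (.e (nat_lit 24604) (nat_lit 2) .nil)))) (.g (nat_lit 0) (.e (nat_lit 411661) (nat_lit 0) .nil) .nil)))) (.nd (nat_lit 9) 
(.lf (nat_lit 596288) (.g (nat_lit 1959) (.e (nat_lit 573469) (nat_lit 11) (.e (nat_lit 16469) (nat_lit 14) (.e (nat_lit 491536) (nat_lit 2) (.e (nat_lit 90170) (nat_lit 13) .nil)))) (.g (nat_lit 0) (.e (nat_lit 411161) (nat_lit 0) .nil) .nil))) 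
(.lf (nat_lit 596800) (.g (nat_lit 1061) (.e (nat_lit 573480) (nat_lit 13) (.e (nat_lit 65571) (nat_lit 3) (.e (nat_lit 98317) (nat_lit 9) .nil))) (.g (nat_lit 0) (.e (nat_lit 412157) (nat_lit 0) .nil) .nil))))) (.nd (nat_lit 8) (.nd (nat_lit 9) 
(.lf (nat_lit 596160) (.g (nat_lit 2218) (.e (nat_lit 573456) (nat_lit 9) (.e (nat_lit 359) (nat_lit 30) (.e (nat_lit 409602) (nat_lit 0) (.e (nat_lit 5293) (nat_lit 298) (.e (nat_lit 1250) (nat_lit 92) .nil))))) (.g (nat_lit 0) (.e (nat_lit 410995) (nat_lit 0) .nil) .nil))) 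
(.lf (nat_lit 596672) (.g (nat_lit 2794) (.e (nat_lit 573477) (nat_lit 12) (.e (nat_lit 57575) (nat_lit 55) (.e (nat_lit 778466) (nat_lit 11) (.e (nat_lit 24608) (nat_lit 3) (.e (nat_lit 98365) (nat_lit 26) (.e (nat_lit 426298) (nat_lit 11) (.e (nat_lit 458795) (nat_lit 28) .nil))))))) (.g (nat_lit 1) (.e (nat_lit 411866) (nat_lit 0) .nil) .nil)))) (.nd (nat_lit 9) 
(.lf (nat_lit 596416) (.g (nat_lit 1782) (.e (nat_lit 573471) (nat_lit 11) (.e (nat_lit 16459) (nat_lit 12) (.e (nat_lit 475185) (nat_lit 29) (.e (nat_lit 557098) (nat_lit 13) .nil)))) (.g (nat_lit 0) (.e (nat_lit 411464) (nat_lit 0) .nil) .nil))) 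
(.lf (nat_lit 596928) (.g (nat_lit 3755) (.e (nat_lit 573481) (nat_lit 13) (.e (nat_lit 65604) (nat_lit 9) (.e (nat_lit 336013) (nat_lit 2) (.e (nat_lit 90170) (nat_lit 13) (.e (nat_lit 172059) (nat_lit 1) (.e (nat_lit 164348) (nat_lit 240) (.e (nat_lit 2599) (nat_lit 163) (.e (nat_lit 163976) (nat_lit 30) .nil)))))))) (.g (nat_lit 1) (.e (nat_lit 412371) (nat_lit 0) .nil) .nil))))))) 
(.nd (nat_lit 6) (.nd (nat_lit 7) (.nd (nat_lit 8) (.nd (nat_lit 9) 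
(.lf (nat_lit 596000) (.g (nat_lit 2928) (.e (nat_lit 548890) (nat_lit 10) (.e (nat_lit 73782) (nat_lit 32) (.e (nat_lit 2664) (nat_lit 167) (.e (nat_lit 196674) (nat_lit 15) (.e (nat_lit 81946) (nat_lit 20) (.e (nat_lit 1842) (nat_lit 123) .nil)))))) (.g (nat_lit 1) (.e (nat_lit 410520) (nat_lit 0) .nil) .nil))) 
(.lf (nat_lit 596512) (.g (nat_lit 2307) (.e (nat_lit 573474) (nat_lit 12) (.e (nat_lit 57574) (nat_lit 55) (.e (nat_lit 778466) (nat_lit 11) (.e (nat_lit 24595) (nat_lit 0) .nil)))) (.g (nat_lit 0) (.e (nat_lit 411594) (nat_lit 0) .nil) .nil)))) (.nd (nat_lit 9) 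
(.lf (nat_lit 596256) (.g (nat_lit 3134) (.e (nat_lit 573469) (nat_lit 11) (.e (nat_lit 16388) (nat_lit 0) (.e (nat_lit 7583) (nat_lit 405) (.e (nat_lit 57464) (nat_lit 23) (.e (nat_lit 516165) (nat_lit 12) (.e (nat_lit 450586) (nat_lit 10) .nil)))))) (.g (nat_lit 1) (.e (nat_lit 411104) (nat_lit 0) .nil) .nil))) 
(.lf (nat_lit 596768) (.g (nat_lit 3778) (.e (nat_lit 573479) (nat_lit 13) (.e (nat_lit 65619) (nat_lit 10) (.e (nat_lit 344117) (nat_lit 21) (.e (nat_lit 516151) (nat_lit 9) (.e (nat_lit 426045) (nat_lit 0) .nil))))) (.g (nat_lit 0) (.e (nat_lit 412102) (nat_lit 0) .nil) .nil))))) (.nd (nat_lit 8) (.nd (nat_lit 9) 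
(.lf (nat_lit 596128) (.g (nat_lit 1765) (.e (nat_lit 573451) (nat_lit 9) (.e (nat_lit 1177) (nat_lit 87) (.e (nat_lit 57931) (nat_lit 282) (.e (nat_lit 163874) (nat_lit 3) (.e (nat_lit 204863) (nat_lit 27) .nil))))) (.g (nat_lit 0) (.e (nat_lit 410947) (nat_lit 0) .nil) .nil))) 
(.lf (nat_lit 596640) (.g (nat_lit 1562) (.e (nat_lit 573477) (nat_lit 12) (.e (nat_lit 57575) (nat_lit 55) (.e (nat_lit 778465) (nat_lit 11) (.e (nat_lit 24602) (nat_lit 2) .nil)))) (.g (nat_lit 0) (.e (nat_lit 411832) (nat_lit 0) .nil) .nil)))) (.nd (nat_lit 9) 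
(.lf (nat_lit 596384) (.g (nat_lit 478) (.e (nat_lit 573471) (nat_lit 11) (.e (nat_lit 16433) (nat_lit 9) (.e (nat_lit 426360) (nat_lit 15) .nil))) (.g (nat_lit 0) (.e (nat_lit 411328) (nat_lit 0) .nil) .nil))) 
(.lf (nat_lit 596896) (.g (nat_lit 2043) (.e (nat_lit 573481) (nat_lit 13) (.e (nat_lit 65604) (nat_lit 9) (.e (nat_lit 336013) (nat_lit 2) (.e (nat_lit 90170) (nat_lit 13) (.e (nat_lit 172033) (nat_lit 0) .nil))))) (.g (nat_lit 0) (.e (nat_lit 412327) (nat_lit 0) .nil) .nil)))))) (.nd (nat_lit 7) (.nd (nat_lit 8) (.nd (nat_lit 9) 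
(.lf (nat_lit 596064) (.g (nat_lit 831) (.e (nat_lit 581376) (nat_lit 6) (.e (nat_lit 188434) (nat_lit 20) (.e (nat_lit 3578) (nat_lit 223) (.e (nat_lit 745475) (nat_lit 0) (.e (nat_lit 1599) (nat_lit 111) .nil))))) (.g (nat_lit 0) (.e (nat_lit 410726) (nat_lit 0) .nil) .nil))) 
(.lf (nat_lit 596576) (.g (nat_lit 746) (.e (nat_lit 573477) (nat_lit 12) (.e (nat_lit 57574) (nat_lit 55) (.e (nat_lit 778464) (nat_lit 11) (.e (nat_lit 24603) (nat_lit 2) .nil)))) (.g (nat_lit 0) (.e (nat_lit 411747) (nat_lit 0) .nil) .nil)))) (.nd (nat_lit 9) 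
(.lf (nat_lit 596320) (.g (nat_lit 1502) (.e (nat_lit 573470) (nat_lit 11) (.e (nat_lit 16447) (nat_lit 10) (.e (nat_lit 434231) (nat_lit 23) (.e (nat_lit 532569) (nat_lit 16) (.e (nat_lit 401448) (nat_lit 10) .nil))))) (.g (nat_lit 0) (.e (nat_lit 411201) (nat_lit 0) .nil) .nil))) 
(.lf (nat_lit 596832) (.g (nat_lit 1443) (.e (nat_lit 573480) (nat_lit 13) (.e (nat_lit 65630) (nat_lit 14) (.e (nat_lit 401427) (nat_lit 3) (.e (nat_lit 212736) (nat_lit 26) .nil)))) (.g (nat_lit 0) (.e (nat_lit 412195) (nat_lit 0) .nil) .nil))))) (.nd (nat_lit 8) (.nd (nat_lit 9) 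
(.lf (nat_lit 596192) (.g (nat_lit 3767) (.e (nat_lit 573456) (nat_lit 9) (.e (nat_lit 430) (nat_lit 32) (.e (nat_lit 426344) (nat_lit 14) (.e (nat_lit 491535) (nat_lit 2) (.e (nat_lit 90170) (nat_lit 13) (.e (nat_lit 172113) (nat_lit 10) (.e (nat_lit 434247) (nat_lit 28) .nil))))))) (.g (nat_lit 1) (.e (nat_lit 411029) (nat_lit 0) .nil) .nil))) 
(.lf (nat_lit 596704) (.g (nat_lit 424) (.e (nat_lit 573478) (nat_lit 12) (.e (nat_lit 57574) (nat_lit 55) (.e (nat_lit 778465) (nat_lit 11) .nil))) (.g (nat_lit 0) (.e (nat_lit 411954) (nat_lit 0) .nil) .nil)))) (.nd (nat_lit 9) 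
(.lf (nat_lit 596448) (.g (nat_lit 506) (.e (nat_lit 573471) (nat_lit 11) (.e (nat_lit 16473) (nat_lit 14) (.e (nat_lit 491525) (nat_lit 0) .nil))) (.g (nat_lit 0) (.e (nat_lit 411499) (nat_lit 0) .nil) .nil))) 
(.lf (nat_lit 596960) (.g (nat_lit 3552) (.e (nat_lit 573481) (nat_lit 13) (.e (nat_lit 65604) (nat_lit 9) (.e (nat_lit 336028) (nat_lit 3) (.e (nat_lit 98325) (nat_lit 17) (.e (nat_lit 6986) (nat_lit 377) (.e (nat_lit 2781) (nat_lit 178) (.e (nat_lit 286765) (nat_lit 15) (.e (nat_lit 3298) (nat_lit 202) .nil)))))))) (.g (nat_lit 1) (.e (nat_lit 412420) (nat_lit 0) .nil) .nil)))))))) 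
(.nd (nat_lit 5) (.nd (nat_lit 6) (.nd (nat_lit 7) (.nd (nat_lit 8) (.nd (nat_lit 9) 
(.lf (nat_lit 595984) (.g (nat_lit 2358) (.e (nat_lit 548872) (nat_lit 5) (.e (nat_lit 1485) (nat_lit 108) (.e (nat_lit 336204) (nat_lit 12) (.e (nat_lit 385074) (nat_lit 31) (.e (nat_lit 573493) (nat_lit 15) .nil))))) (.g (nat_lit 0) (.e (nat_lit 410474) (nat_lit 0) .nil) .nil))) 
(.lf (nat_lit 596496) (.g (nat_lit 356) (.e (nat_lit 573474) (nat_lit 12) (.e (nat_lit 57572) (nat_lit 54) (.e (nat_lit 770071) (nat_lit 8) .nil))) (.g (nat_lit 0) (.e (nat_lit 411567) (nat_lit 0) .nil) .nil)))) (.nd (nat_lit 9) 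
(.lf (nat_lit 596240) (.g (nat_lit 3461) (.e (nat_lit 573458) (nat_lit 9) (.e (nat_lit 426) (nat_lit 32) (.e (nat_lit 426298) (nat_lit 11) (.e (nat_lit 458789) (nat_lit 23) (.e (nat_lit 532569) (nat_lit 16) (.e (nat_lit 401448) (nat_lit 10) (.e (nat_lit 434245) (nat_lit 28) .nil))))))) (.g (nat_lit 1) (.e (nat_lit 411084) (nat_lit 0) .nil) .nil))) 
(.lf (nat_lit 596752) (.g (nat_lit 2992) (.e (nat_lit 573479) (nat_lit 13) (.e (nat_lit 65619) (nat_lit 10) (.e (nat_lit 344117) (nat_lit 21) (.e (nat_lit 516106) (nat_lit 0) (.e (nat_lit 6986) (nat_lit 377) (.e (nat_lit 2781) (nat_lit 178) (.e (nat_lit 286765) (nat_lit 15) (.e (nat_lit 3296) (nat_lit 202) .nil)))))))) (.g (nat_lit 1) (.e (nat_lit 412086) (nat_lit 0) .nil) .nil))))) 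
(.nd (nat_lit 8) (.nd (nat_lit 9) 
(.lf (nat_lit 596112) (.g (nat_lit 3638) (.e (nat_lit 573451) (nat_lit 9) (.e (nat_lit 430) (nat_lit 32) (.e (nat_lit 426009) (nat_lit 0) (.e (nat_lit 7583) (nat_lit 405) (.e (nat_lit 57464) (nat_lit 23) (.e (nat_lit 516151) (nat_lit 9) (.e (nat_lit 426286) (nat_lit 10) (.e (nat_lit 434245) (nat_lit 28) .nil)))))))) (.g (nat_lit 1) (.e (nat_lit 410931) (nat_lit 0) .nil) .nil))) 
(.lf (nat_lit 596624) (.g (nat_lit 3941) (.e (nat_lit 573477) (nat_lit 12) (.e (nat_lit 57574) (nat_lit 55) (.e (nat_lit 778466) (nat_lit 11) (.e (nat_lit 24604) (nat_lit 2) (.e (nat_lit 90178) (nat_lit 15) (.e (nat_lit 188442) (nat_lit 20) (.e (nat_lit 3304) (nat_lit 202) .nil))))))) (.g (nat_lit 1) (.e (nat_lit 411811) (nat_lit 0) .nil) .nil)))) (.nd (nat_lit 9) 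
(.lf (nat_lit 596368) (.g (nat_lit 4051) (.e (nat_lit 573471) (nat_lit 11) (.e (nat_lit 16386) (nat_lit 0) (.e (nat_lit 7581) (nat_lit 405) (.e (nat_lit 57464) (nat_lit 23) (.e (nat_lit 516151) (nat_lit 9) (.e (nat_lit 426286) (nat_lit 10) (.e (nat_lit 434245) (nat_lit 28) .nil))))))) (.g (nat_lit 1) (.e (nat_lit 411277) (nat_lit 0) .nil) .nil))) 
(.lf (nat_lit 596880) (.g (nat_lit 5031) (.e (nat_lit 573481) (nat_lit 13) (.e (nat_lit 65604) (nat_lit 9) (.e (nat_lit 336013) (nat_lit 2) (.e (nat_lit 90134) (nat_lit 9) (.e (nat_lit 3098) (nat_lit 192) (.e (nat_lit 491566) (nat_lit 12) (.e (nat_lit 385072) (nat_lit 31) .nil))))))) (.g (nat_lit 1) (.e (nat_lit 412300) (nat_lit 0) .nil) .nil)))))) 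
(.nd (nat_lit 7) (.nd (nat_lit 8) (.nd (nat_lit 9) 
(.lf (nat_lit 596048) (.g (nat_lit 423) (.e (nat_lit 573445) (nat_lit 0) (.e (nat_lit 3020) (nat_lit 187) (.e (nat_lit 450605) (nat_lit 27) (.e (nat_lit 745475) (nat_lit 0) (.e (nat_lit 1599) (nat_lit 111) (.e (nat_lit 368384) (nat_lit 10) .nil)))))) (.g (nat_lit 1) (.e (nat_lit 410635) (nat_lit 0) .nil) .nil))) 
(.lf (nat_lit 596560) (.g (nat_lit 2187) (.e (nat_lit 573476) (nat_lit 12) (.e (nat_lit 57574) (nat_lit 55) (.e (nat_lit 778466) (nat_lit 11) (.e (nat_lit 24604) (nat_lit 2) .nil)))) (.g (nat_lit 0) (.e (nat_lit 411729) (nat_lit 0) .nil) .nil)))) (.nd (nat_lit 9) 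
(.lf (nat_lit 596304) (.g (nat_lit 894) (.e (nat_lit 573469) (nat_lit 11) (.e (nat_lit 16473) (nat_lit 14) (.e (nat_lit 491525) (nat_lit 0) .nil))) (.g (nat_lit 0) (.e (nat_lit 411177) (nat_lit 0) .nil) .nil))) 
(.lf (nat_lit 596816) (.g (nat_lit 1961) (.e (nat_lit 573480) (nat_lit 13) (.e (nat_lit 65628) (nat_lit 14) (.e (nat_lit 401425) (nat_lit 2) (.e (nat_lit 196681) (nat_lit 17) .nil)))) (.g (nat_lit 0) (.e (nat_lit 412179) (nat_lit 0) .nil) .nil))))) (.nd (nat_lit 8) (.nd (nat_lit 9) 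
(.lf (nat_lit 596176) (.g (nat_lit 4542) (.e (nat_lit 573456) (nat_lit 9) (.e (nat_lit 430) (nat_lit 32) (.e (nat_lit 426012) (nat_lit 0) (.e (nat_lit 7490) (nat_lit 402) (.e (nat_lit 1239) (nat_lit 91) (.e (nat_lit 90170) (nat_lit 13) (.e (nat_lit 172113) (nat_lit 10) (.e (nat_lit 434247) (nat_lit 28) .nil)))))))) (.g (nat_lit 1) (.e (nat_lit 411011) (nat_lit 0) .nil) .nil))) 
(.lf (nat_lit 596688) (.g (nat_lit 2486) (.e (nat_lit 573477) (nat_lit 12) (.e (nat_lit 57750) (nat_lit 201) (.e (nat_lit 3090) (nat_lit 191) (.e (nat_lit 483364) (nat_lit 18) (.e (nat_lit 57685) (nat_lit 156) (.e (nat_lit 163916) (nat_lit 13) (.e (nat_lit 434247) (nat_lit 28) .nil))))))) (.g (nat_lit 1) (.e (nat_lit 411912) (nat_lit 0) .nil) .nil)))) (.nd (nat_lit 9) 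
(.lf (nat_lit 596432) (.g (nat_lit 3875) (.e (nat_lit 573471) (nat_lit 11) (.e (nat_lit 16470) (nat_lit 14) (.e (nat_lit 491537) (nat_lit 2) (.e (nat_lit 90170) (nat_lit 13) (.e (nat_lit 172113) (nat_lit 10) (.e (nat_lit 434247) (nat_lit 28) .nil)))))) (.g (nat_lit 1) (.e (nat_lit 411482) (nat_lit 0) .nil) .nil))) 
(.lf (nat_lit 596944) (.g (nat_lit 2039) (.e (nat_lit 573481) (nat_lit 13) (.e (nat_lit 65604) (nat_lit 9) (.e (nat_lit 336013) (nat_lit 2) (.e (nat_lit 90170) (nat_lit 13) (.e (nat_lit 172135) (nat_lit 15) .nil))))) (.g (nat_lit 0) (.e (nat_lit 412399) (nat_lit 0) .nil) .nil))))))) (.nd (nat_lit 6) (.nd (nat_lit 7) (.nd (nat_lit 8) (.nd (nat_lit 9) 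
(.lf (nat_lit 596016) (.g (nat_lit 783) (.e (nat_lit 573444) (nat_lit 0) (.e (nat_lit 3011) (nat_lit 187) (.e (nat_lit 450605) (nat_lit 27) (.e (nat_lit 745476) (nat_lit 0) (.e (nat_lit 1599) (nat_lit 111) .nil))))) (.g (nat_lit 0) (.e (nat_lit 410583) (nat_lit 0) .nil) .nil))) 
(.lf (nat_lit 596528) (.g (nat_lit 1455) (.e (nat_lit 573475) (nat_lit 12) (.e (nat_lit 57572) (nat_lit 54) (.e (nat_lit 770071) (nat_lit 8) (.e (nat_lit 65569) (nat_lit 3) (.e (nat_lit 98374) (nat_lit 29) .nil))))) (.g (nat_lit 0) (.e (nat_lit 411640) (nat_lit 0) .nil) .nil)))) (.nd (nat_lit 9) 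
(.lf (nat_lit 596272) (.g (nat_lit 3179) (.e (nat_lit 573469) (nat_lit 11) (.e (nat_lit 16448) (nat_lit 10) (.e (nat_lit 434231) (nat_lit 23) (.e (nat_lit 532490) (nat_lit 0) (.e (nat_lit 7936) (nat_lit 362) .nil))))) (.g (nat_lit 0) (.e (nat_lit 411131) (nat_lit 0) .nil) .nil))) 
(.lf (nat_lit 596784) (.g (nat_lit 1217) (.e (nat_lit 573479) (nat_lit 13) (.e (nat_lit 65619) (nat_lit 10) (.e (nat_lit 344117) (nat_lit 21) (.e (nat_lit 516171) (nat_lit 13) .nil)))) (.g (nat_lit 0) (.e (nat_lit 412118) (nat_lit 0) .nil) .nil))))) (.nd (nat_lit 8) (.nd (nat_lit 9) 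
(.lf (nat_lit 596144) (.g (nat_lit 1911) (.e (nat_lit 573452) (nat_lit 9) (.e (nat_lit 1401) (nat_lit 106) (.e (nat_lit 319531) (nat_lit 16) (.e (nat_lit 286770) (nat_lit 28) (.e (nat_lit 434212) (nat_lit 18) .nil))))) (.g (nat_lit 0) (.e (nat_lit 410975) (nat_lit 0) .nil) .nil))) 
(.lf (nat_lit 596656) (.g (nat_lit 2135) (.e (nat_lit 573477) (nat_lit 12) (.e (nat_lit 57575) (nat_lit 55) (.e (nat_lit 778466) (nat_lit 11) (.e (nat_lit 24602) (nat_lit 2) .nil)))) (.g (nat_lit 0) (.e (nat_lit 411849) (nat_lit 0) .nil) .nil)))) (.nd (nat_lit 9) 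
(.lf (nat_lit 596400) (.g (nat_lit 3506) (.e (nat_lit 573471) (nat_lit 11) (.e (nat_lit 16448) (nat_lit 10) (.e (nat_lit 434231) (nat_lit 23) (.e (nat_lit 532569) (nat_lit 16) (.e (nat_lit 401448) (nat_lit 10) (.e (nat_lit 434243) (nat_lit 28) .nil)))))) (.g (nat_lit 1) (.e (nat_lit 411405) (nat_lit 0) .nil) .nil))) 
(.lf (nat_lit 596912) (.g (nat_lit 3439) (.e (nat_lit 573481) (nat_lit 13) (.e (nat_lit 65604) (nat_lit 9) (.e (nat_lit 336013) (nat_lit 2) (.e (nat_lit 90170) (nat_lit 13) (.e (nat_lit 172043) (nat_lit 0) .nil))))) (.g (nat_lit 0) (.e (nat_lit 412346) (nat_lit 0) .nil) .nil)))))) (.nd (nat_lit 7) (.nd (nat_lit 8) (.nd (nat_lit 9) 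
(.lf (nat_lit 596080) (.g (nat_lit 2608) (.e (nat_lit 573449) (nat_lit 9) (.e (nat_lit 396) (nat_lit 32) (.e (nat_lit 426316) (nat_lit 12) (.e (nat_lit 475185) (nat_lit 29) (.e (nat_lit 557100) (nat_lit 13) .nil))))) (.g (nat_lit 0) (.e (nat_lit 410801) (nat_lit 0) .nil) .nil))) 
(.lf (nat_lit 596592) (.g (nat_lit 1857) (.e (nat_lit 573477) (nat_lit 12) (.e (nat_lit 57574) (nat_lit 55) (.e (nat_lit 778465) (nat_lit 11) (.e (nat_lit 24604) (nat_lit 2) (.e (nat_lit 90185) (nat_lit 17) .nil))))) (.g (nat_lit 0) (.e (nat_lit 411764) (nat_lit 0) .nil) .nil)))) (.nd (nat_lit 9) 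
(.lf (nat_lit 596336) (.g (nat_lit 3184) (.e (nat_lit 573470) (nat_lit 11) (.e (nat_lit 16461) (nat_lit 12) (.e (nat_lit 475184) (nat_lit 29) (.e (nat_lit 557107) (nat_lit 15) (.e (nat_lit 188440) (nat_lit 20) (.e (nat_lit 3307) (nat_lit 202) .nil)))))) (.g (nat_lit 1) (.e (nat_lit 411239) (nat_lit 0) .nil) .nil))) 
(.lf (nat_lit 596848) (.g (nat_lit 3404) (.e (nat_lit 573481) (nat_lit 13) (.e (nat_lit 65563) (nat_lit 1) (.e (nat_lit 57926) (nat_lit 282) (.e (nat_lit 163943) (nat_lit 19) (.e (nat_lit 483346) (nat_lit 17) (.e (nat_lit 6712) (nat_lit 360) (.e (nat_lit 163976) (nat_lit 30) .nil))))))) (.g (nat_lit 1) (.e (nat_lit 412223) (nat_lit 0) .nil) .nil))))) (.nd (nat_lit 8) (.nd (nat_lit 9) 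
(.lf (nat_lit 596208) (.g (nat_lit 1465) (.e (nat_lit 573456) (nat_lit 9) (.e (nat_lit 1669) (nat_lit 116) (.e (nat_lit 401459) (nat_lit 13) (.e (nat_lit 483354) (nat_lit 17) .nil)))) (.g (nat_lit 0) (.e (nat_lit 411045) (nat_lit 0) .nil) .nil))) 
(.lf (nat_lit 596720) (.g (nat_lit 2166) (.e (nat_lit 573478) (nat_lit 12) (.e (nat_lit 57574) (nat_lit 55) (.e (nat_lit 778466) (nat_lit 11) (.e (nat_lit 24595) (nat_lit 0) (.e (nat_lit 1809) (nat_lit 120) .nil))))) (.g (nat_lit 0) (.e (nat_lit 411977) (nat_lit 0) .nil) .nil)))) (.nd (nat_lit 9) 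
(.lf (nat_lit 596464) (.g (nat_lit 937) (.e (nat_lit 581376) (nat_lit 11) (.e (nat_lit 16473) (nat_lit 14) (.e (nat_lit 491536) (nat_lit 2) .nil))) (.g (nat_lit 0) (.e (nat_lit 411518) (nat_lit 0) .nil) .nil))) 
(.lf (nat_lit 596976) (.g (nat_lit 4200) (.e (nat_lit 573481) (nat_lit 13) (.e (nat_lit 65604) (nat_lit 9) (.e (nat_lit 336028) (nat_lit 3) (.e (nat_lit 98359) (nat_lit 26) (.e (nat_lit 426412) (nat_lit 15) (.e (nat_lit 2058) (nat_lit 142) (.e (nat_lit 704589) (nat_lit 3) (.e (nat_lit 163976) (nat_lit 30) .nil)))))))) (.g (nat_lit 1) (.e (nat_lit 412481) (nat_lit 0) .nil) .nil))))))))) 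
(.nd (nat_lit 4) (.nd (nat_lit 5) (.nd (nat_lit 6) (.nd (nat_lit 7) (.nd (nat_lit 8) 
(.nd (nat_lit 9) 
(.lf (nat_lit 595976) (.g (nat_lit 1537) (.e (nat_lit 548913) (nat_lit 18) (.e (nat_lit 172126) (nat_lit 14) (.e (nat_lit 491539) (nat_lit 3) (.e (nat_lit 98374) (nat_lit 29) (.e (nat_lit 450583) (nat_lit 7) .nil))))) (.g (nat_lit 0) (.e (nat_lit 410323) (nat_lit 0) .nil) .nil))) 
(.lf (nat_lit 596488) (.g (nat_lit 4202) (.e (nat_lit 573474) (nat_lit 12) (.e (nat_lit 57503) (nat_lit 38) (.e (nat_lit 638995) (nat_lit 7) (.e (nat_lit 163978) (nat_lit 30) (.e (nat_lit 573489) (nat_lit 14) (.e (nat_lit 73755) (nat_lit 8) (.e (nat_lit 557103) (nat_lit 14) (.e (nat_lit 180250) (nat_lit 10) .nil)))))))) (.g (nat_lit 1) (.e (nat_lit 411558) (nat_lit 0) .nil) .nil)))) 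
(.nd (nat_lit 9) 
(.lf (nat_lit 596232) (.g (nat_lit 1608) (.e (nat_lit 573457) (nat_lit 9) (.e (nat_lit 430) (nat_lit 32) (.e (nat_lit 426315) (nat_lit 12) (.e (nat_lit 475183) (nat_lit 29) (.e (nat_lit 557107) (nat_lit 15) .nil))))) (.g (nat_lit 0) (.e (nat_lit 411073) (nat_lit 0) .nil) .nil))) 
(.lf (nat_lit 596744) (.g (nat_lit 1817) (.e (nat_lit 573479) (nat_lit 13) (.e (nat_lit 65604) (nat_lit 9) (.e (nat_lit 336028) (nat_lit 3) (.e (nat_lit 98367) (nat_lit 27) (.e (nat_lit 434272) (nat_lit 38) (.e (nat_lit 655375) (nat_lit 3) (.e (nat_lit 163973) (nat_lit 30) .nil))))))) (.g (nat_lit 1) (.e (nat_lit 412078) (nat_lit 0) .nil) .nil))))) (.nd (nat_lit 8) (.nd (nat_lit 9) 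
(.lf (nat_lit 596104) (.g (nat_lit 1786) (.e (nat_lit 573451) (nat_lit 9) (.e (nat_lit 359) (nat_lit 30) (.e (nat_lit 409602) (nat_lit 0) (.e (nat_lit 5293) (nat_lit 298) (.e (nat_lit 1225) (nat_lit 91) .nil))))) (.g (nat_lit 0) (.e (nat_lit 410923) (nat_lit 0) .nil) .nil))) 
(.lf (nat_lit 596616) (.g (nat_lit 4568) (.e (nat_lit 573477) (nat_lit 12) (.e (nat_lit 57574) (nat_lit 55) (.e (nat_lit 778466) (nat_lit 11) (.e (nat_lit 24604) (nat_lit 2) (.e (nat_lit 90170) (nat_lit 13) (.e (nat_lit 172106) (nat_lit 10) (.e (nat_lit 434243) (nat_lit 28) .nil))))))) (.g (nat_lit 1) (.e (nat_lit 411803) (nat_lit 0) .nil) .nil)))) (.nd (nat_lit 9) 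
(.lf (nat_lit 596360) (.g (nat_lit 1203) (.e (nat_lit 573470) (nat_lit 11) (.e (nat_lit 16473) (nat_lit 14) (.e (nat_lit 491531) (nat_lit 0) .nil))) (.g (nat_lit 0) (.e (nat_lit 411266) (nat_lit 0) .nil) .nil))) 
(.lf (nat_lit 596872) (.g (nat_lit 2604) (.e (nat_lit 573481) (nat_lit 13) (.e (nat_lit 65604) (nat_lit 9) (.e (nat_lit 336013) (nat_lit 2) (.e (nat_lit 90134) (nat_lit 9) (.e (nat_lit 3071) (nat_lit 190) (.e (nat_lit 475196) (nat_lit 40) (.e (nat_lit 704589) (nat_lit 3) (.e (nat_lit 163975) (nat_lit 30) .nil)))))))) (.g (nat_lit 1) (.e (nat_lit 412291) (nat_lit 0) .nil) .nil)))))) 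
(.nd (nat_lit 7) (.nd (nat_lit 8) (.nd (nat_lit 9) 
(.lf (nat_lit 596040) (.g (nat_lit 427) (.e (nat_lit 573445) (nat_lit 0) (.e (nat_lit 3012) (nat_lit 187) (.e (nat_lit 450605) (nat_lit 27) (.e (nat_lit 745475) (nat_lit 0) (.e (nat_lit 1599) (nat_lit 111) (.e (nat_lit 368384) (nat_lit 10) .nil)))))) (.g (nat_lit 1) (.e (nat_lit 410627) (nat_lit 0) .nil) .nil))) 
(.lf (nat_lit 596552) (.g (nat_lit 1008) (.e (nat_lit 573475) (nat_lit 12) (.e (nat_lit 57574) (nat_lit 55) (.e (nat_lit 778466) (nat_lit 11) (.e (nat_lit 24604) (nat_lit 2) .nil)))) (.g (nat_lit 0) (.e (nat_lit 411671) (nat_lit 0) .nil) .nil)))) (.nd (nat_lit 9) 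
(.lf (nat_lit 596296) (.g (nat_lit 2080) (.e (nat_lit 573469) (nat_lit 11) (.e (nat_lit 16470) (nat_lit 14) (.e (nat_lit 491539) (nat_lit 3) (.e (nat_lit 98373) (nat_lit 29) .nil)))) (.g (nat_lit 0) (.e (nat_lit 411169) (nat_lit 0) .nil) .nil))) 
(.lf (nat_lit 596808) (.g (nat_lit 2071) (.e (nat_lit 573480) (nat_lit 13) (.e (nat_lit 65610) (nat_lit 10) (.e (nat_lit 344117) (nat_lit 21) (.e (nat_lit 516160) (nat_lit 10) .nil)))) (.g (nat_lit 0) (.e (nat_lit 412171) (nat_lit 0) .nil) .nil))))) (.nd (nat_lit 8) (.nd (nat_lit 9) 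
(.lf (nat_lit 596168) (.g (nat_lit 3396) (.e (nat_lit 573456) (nat_lit 9) (.e (nat_lit 430) (nat_lit 32) (.e (nat_lit 426009) (nat_lit 0) (.e (nat_lit 7583) (nat_lit 405) (.e (nat_lit 57464) (nat_lit 23) (.e (nat_lit 516151) (nat_lit 9) (.e (nat_lit 426286) (nat_lit 10) (.e (nat_lit 434247) (nat_lit 28) .nil)))))))) (.g (nat_lit 1) (.e (nat_lit 411003) (nat_lit 0) .nil) .nil))) 
(.lf (nat_lit 596680) (.g (nat_lit 2110) (.e (nat_lit 573477) (nat_lit 12) (.e (nat_lit 57750) (nat_lit 201) (.e (nat_lit 3090) (nat_lit 191) (.e (nat_lit 483363) (nat_lit 18) (.e (nat_lit 57657) (nat_lit 152) .nil))))) (.g (nat_lit 0) (.e (nat_lit 411893) (nat_lit 0) .nil) .nil)))) (.nd (nat_lit 9) 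
(.lf (nat_lit 596424) (.g (nat_lit 2723) (.e (nat_lit 573471) (nat_lit 11) (.e (nat_lit 16469) (nat_lit 14) (.e (nat_lit 491536) (nat_lit 2) (.e (nat_lit 90170) (nat_lit 13) (.e (nat_lit 172115) (nat_lit 10) .nil))))) (.g (nat_lit 0) (.e (nat_lit 411473) (nat_lit 0) .nil) .nil))) 
(.lf (nat_lit 596936) (.g (nat_lit 2082) (.e (nat_lit 573481) (nat_lit 13) (.e (nat_lit 65604) (nat_lit 9) (.e (nat_lit 336013) (nat_lit 2) (.e (nat_lit 90170) (nat_lit 13) (.e (nat_lit 172061) (nat_lit 1) (.e (nat_lit 164348) (nat_lit 240) (.e (nat_lit 2600) (nat_lit 163) (.e (nat_lit 163976) (nat_lit 30) .nil)))))))) (.g (nat_lit 1) (.e (nat_lit 412381) (nat_lit 0) .nil) .nil))))))) 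
(.nd (nat_lit 6) (.nd (nat_lit 7) (.nd (nat_lit 8) (.nd (nat_lit 9) 
(.lf (nat_lit 596008) (.g (nat_lit 1096) (.e (nat_lit 573444) (nat_lit 0) (.e (nat_lit 3011) (nat_lit 187) (.e (nat_lit 450605) (nat_lit 27) (.e (nat_lit 745475) (nat_lit 0) (.e (nat_lit 1586) (nat_lit 111) (.e (nat_lit 368384) (nat_lit 10) .nil)))))) (.g (nat_lit 1) (.e (nat_lit 410575) (nat_lit 0) .nil) .nil))) 
(.lf (nat_lit 596520) (.g (nat_lit 4614) (.e (nat_lit 573475) (nat_lit 12) (.e (nat_lit 57503) (nat_lit 38) (.e (nat_lit 638995) (nat_lit 7) (.e (nat_lit 163978) (nat_lit 30) (.e (nat_lit 573489) (nat_lit 14) (.e (nat_lit 73754) (nat_lit 8) (.e (nat_lit 557105) (nat_lit 14) (.e (nat_lit 180252) (nat_lit 10) .nil)))))))) (.g (nat_lit 1) (.e (nat_lit 411631) (nat_lit 0) .nil) .nil)))) 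
(.nd (nat_lit 9) 
(.lf (nat_lit 596264) (.g (nat_lit 631) (.e (nat_lit 573469) (nat_lit 11) (.e (nat_lit 16436) (nat_lit 9) (.e (nat_lit 426128) (nat_lit 2) .nil))) (.g (nat_lit 0) (.e (nat_lit 411116) (nat_lit 0) .nil) .nil))) 
(.lf (nat_lit 596776) (.g (nat_lit 1590) (.e (nat_lit 573479) (nat_lit 13) (.e (nat_lit 65619) (nat_lit 10) (.e (nat_lit 344117) (nat_lit 21) (.e (nat_lit 516159) (nat_lit 10) (.e (nat_lit 434209) (nat_lit 18) .nil))))) (.g (nat_lit 0) (.e (nat_lit 412110) (nat_lit 0) .nil) .nil))))) (.nd (nat_lit 8) (.nd (nat_lit 9) 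
(.lf (nat_lit 596136) (.g (nat_lit 1508) (.e (nat_lit 573451) (nat_lit 9) (.e (nat_lit 1667) (nat_lit 116) (.e (nat_lit 401457) (nat_lit 13) (.e (nat_lit 483363) (nat_lit 18) .nil)))) (.g (nat_lit 0) (.e (nat_lit 410958) (nat_lit 0) .nil) .nil))) 
(.lf (nat_lit 596648) (.g (nat_lit 2096) (.e (nat_lit 573477) (nat_lit 12) (.e (nat_lit 57575) (nat_lit 55) (.e (nat_lit 778465) (nat_lit 11) (.e (nat_lit 24604) (nat_lit 2) (.e (nat_lit 90185) (nat_lit 17) .nil))))) (.g (nat_lit 0) (.e (nat_lit 411840) (nat_lit 0) .nil) .nil)))) (.nd (nat_lit 9) 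
(.lf (nat_lit 596392) (.g (nat_lit 998) (.e (nat_lit 573471) (nat_lit 11) (.e (nat_lit 16446) (nat_lit 9) (.e (nat_lit 426133) (nat_lit 3) (.e (nat_lit 204885) (nat_lit 33) .nil)))) (.g (nat_lit 0) (.e (nat_lit 411374) (nat_lit 0) .nil) .nil))) 
(.lf (nat_lit 596904) (.g (nat_lit 3072) (.e (nat_lit 573481) (nat_lit 13) (.e (nat_lit 65604) (nat_lit 9) (.e (nat_lit 336013) (nat_lit 2) (.e (nat_lit 90170) (nat_lit 13) (.e (nat_lit 172039) (nat_lit 0) (.e (nat_lit 3401) (nat_lit 211) (.e (nat_lit 647180) (nat_lit 3) (.e (nat_lit 163976) (nat_lit 30) .nil)))))))) (.g (nat_lit 1) (.e (nat_lit 412336) (nat_lit 0) .nil) .nil)))))) 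
(.nd (nat_lit 7) (.nd (nat_lit 8) (.nd (nat_lit 9) 
(.lf (nat_lit 596072) (.g (nat_lit 990) (.e (nat_lit 573448) (nat_lit 9) (.e (nat_lit 359) (nat_lit 30) (.e (nat_lit 409603) (nat_lit 0) .nil))) (.g (nat_lit 0) (.e (nat_lit 410783) (nat_lit 0) .nil) .nil))) 
(.lf (nat_lit 596584) (.g (nat_lit 2200) (.e (nat_lit 573477) (nat_lit 12) (.e (nat_lit 57574) (nat_lit 55) (.e (nat_lit 778465) (nat_lit 11) (.e (nat_lit 24604) (nat_lit 2) (.e (nat_lit 90167) (nat_lit 13) .nil))))) (.g (nat_lit 0) (.e (nat_lit 411756) (nat_lit 0) .nil) .nil)))) (.nd (nat_lit 9) 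
(.lf (nat_lit 596328) (.g (nat_lit 3285) (.e (nat_lit 573470) (nat_lit 11) (.e (nat_lit 16456) (nat_lit 12) (.e (nat_lit 475185) (nat_lit 29) (.e (nat_lit 557107) (nat_lit 15) (.e (nat_lit 188440) (nat_lit 20) .nil))))) (.g (nat_lit 0) (.e (nat_lit 411230) (nat_lit 0) .nil) .nil))) 
(.lf (nat_lit 596840) (.g (nat_lit 1974) (.e (nat_lit 573480) (nat_lit 13) (.e (nat_lit 65630) (nat_lit 14) (.e (nat_lit 401428) (nat_lit 3) (.e (nat_lit 204866) (nat_lit 28) (.e (nat_lit 360192) (nat_lit 0) (.e (nat_lit 3301) (nat_lit 202) .nil)))))) (.g (nat_lit 1) (.e (nat_lit 412203) (nat_lit 0) .nil) .nil))))) (.nd (nat_lit 8) (.nd (nat_lit 9) 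
(.lf (nat_lit 596200) (.g (nat_lit 2236) (.e (nat_lit 573456) (nat_lit 9) (.e (nat_lit 1504) (nat_lit 108) (.e (nat_lit 336204) (nat_lit 12) (.e (nat_lit 385074) (nat_lit 31) (.e (nat_lit 573493) (nat_lit 15) .nil))))) (.g (nat_lit 0) (.e (nat_lit 411037) (nat_lit 0) .nil) .nil))) 
(.lf (nat_lit 596712) (.g (nat_lit 2397) (.e (nat_lit 573478) (nat_lit 12) (.e (nat_lit 57574) (nat_lit 55) (.e (nat_lit 778465) (nat_lit 11) (.e (nat_lit 24608) (nat_lit 3) (.e (nat_lit 98374) (nat_lit 29) .nil))))) (.g (nat_lit 0) (.e (nat_lit 411965) (nat_lit 0) .nil) .nil)))) (.nd (nat_lit 9) 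
(.lf (nat_lit 596456) (.g (nat_lit 1491) (.e (nat_lit 573471) (nat_lit 11) (.e (nat_lit 16473) (nat_lit 14) (.e (nat_lit 491536) (nat_lit 2) (.e (nat_lit 90169) (nat_lit 13) .nil)))) (.g (nat_lit 0) (.e (nat_lit 411509) (nat_lit 0) .nil) .nil))) 
(.lf (nat_lit 596968) (.g (nat_lit 3542) (.e (nat_lit 573481) (nat_lit 13) (.e (nat_lit 65604) (nat_lit 9) (.e (nat_lit 336028) (nat_lit 3) (.e (nat_lit 98359) (nat_lit 26) (.e (nat_lit 426396) (nat_lit 15) (.e (nat_lit 2058) (nat_lit 142) (.e (nat_lit 704589) (nat_lit 3) (.e (nat_lit 163976) (nat_lit 30) .nil)))))))) (.g (nat_lit 1) (.e (nat_lit 412471) (nat_lit 0) .nil) .nil)))))))) 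
(.nd (nat_lit 5) (.nd (nat_lit 6) (.nd (nat_lit 7) (.nd (nat_lit 8) (.nd (nat_lit 9) 
(.lf (nat_lit 595992) (.g (nat_lit 606) (.e (nat_lit 548889) (nat_lit 9) (.e (nat_lit 65628) (nat_lit 14) (.e (nat_lit 401418) (nat_lit 0) .nil))) (.g (nat_lit 0) (.e (nat_lit 410503) (nat_lit 0) .nil) .nil))) 
(.lf (nat_lit 596504) (.g (nat_lit 3430) (.e (nat_lit 573474) (nat_lit 12) (.e (nat_lit 57572) (nat_lit 54) (.e (nat_lit 770072) (nat_lit 8) (.e (nat_lit 65571) (nat_lit 3) (.e (nat_lit 98370) (nat_lit 28) (.e (nat_lit 442411) (nat_lit 20) (.e (nat_lit 3307) (nat_lit 202) .nil))))))) (.g (nat_lit 1) (.e (nat_lit 411582) (nat_lit 0) .nil) .nil)))) (.nd (nat_lit 9) 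
(.lf (nat_lit 596248) (.g (nat_lit 5127) (.e (nat_lit 573460) (nat_lit 9) (.e (nat_lit 426) (nat_lit 32) (.e (nat_lit 426316) (nat_lit 12) (.e (nat_lit 475185) (nat_lit 29) (.e (nat_lit 557107) (nat_lit 15) (.e (nat_lit 188440) (nat_lit 20) (.e (nat_lit 3307) (nat_lit 202) .nil))))))) (.g (nat_lit 1) (.e (nat_lit 411094) (nat_lit 0) .nil) .nil))) 
(.lf (nat_lit 596760) (.g (nat_lit 3309) (.e (nat_lit 573479) (nat_lit 13) (.e (nat_lit 65619) (nat_lit 10) (.e (nat_lit 344117) (nat_lit 21) (.e (nat_lit 516145) (nat_lit 9) (.e (nat_lit 426093) (nat_lit 0) .nil))))) (.g (nat_lit 0) (.e (nat_lit 412094) (nat_lit 0) .nil) .nil))))) (.nd (nat_lit 8) (.nd (nat_lit 9) 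
(.lf (nat_lit 596120) (.g (nat_lit 3996) (.e (nat_lit 573451) (nat_lit 9) (.e (nat_lit 430) (nat_lit 32) (.e (nat_lit 426343) (nat_lit 14) (.e (nat_lit 491535) (nat_lit 2) (.e (nat_lit 90170) (nat_lit 13) (.e (nat_lit 172113) (nat_lit 10) (.e (nat_lit 434245) (nat_lit 28) .nil))))))) (.g (nat_lit 1) (.e (nat_lit 410939) (nat_lit 0) .nil) .nil))) 
(.lf (nat_lit 596632) (.g (nat_lit 4702) (.e (nat_lit 573477) (nat_lit 12) (.e (nat_lit 57574) (nat_lit 55) (.e (nat_lit 778466) (nat_lit 11) (.e (nat_lit 24608) (nat_lit 3) (.e (nat_lit 98373) (nat_lit 29) (.e (nat_lit 450587) (nat_lit 10) .nil)))))) (.g (nat_lit 1) (.e (nat_lit 411822) (nat_lit 0) .nil) .nil)))) (.nd (nat_lit 9) 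
(.lf (nat_lit 596376) (.g (nat_lit 1610) (.e (nat_lit 573471) (nat_lit 11) (.e (nat_lit 16425) (nat_lit 7) (.e (nat_lit 409604) (nat_lit 0) (.e (nat_lit 539) (nat_lit 41) (.e (nat_lit 500056) (nat_lit 17) .nil))))) (.g (nat_lit 0) (.e (nat_lit 411292) (nat_lit 0) .nil) .nil))) 
(.lf (nat_lit 596888) (.g (nat_lit 1976) (.e (nat_lit 573481) (nat_lit 13) (.e (nat_lit 65604) (nat_lit 9) (.e (nat_lit 336013) (nat_lit 2) (.e (nat_lit 90165) (nat_lit 12) (.e (nat_lit 164208) (nat_lit 176) (.e (nat_lit 2779) (nat_lit 178) (.e (nat_lit 294656) (nat_lit 15) (.e (nat_lit 3298) (nat_lit 202) .nil)))))))) (.g (nat_lit 1) (.e (nat_lit 412309) (nat_lit 0) .nil) .nil)))))) 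
(.nd (nat_lit 7) (.nd (nat_lit 8) (.nd (nat_lit 9) 
(.lf (nat_lit 596056) (.g (nat_lit 792) (.e (nat_lit 573445) (nat_lit 0) (.e (nat_lit 3026) (nat_lit 187) (.e (nat_lit 450605) (nat_lit 27) (.e (nat_lit 745475) (nat_lit 0) (.e (nat_lit 1599) (nat_lit 111) (.e (nat_lit 368384) (nat_lit 10) .nil)))))) (.g (nat_lit 1) (.e (nat_lit 410645) (nat_lit 0) .nil) .nil))) 
(.lf (nat_lit 596568) (.g (nat_lit 2083) (.e (nat_lit 573477) (nat_lit 12) (.e (nat_lit 57570) (nat_lit 54) (.e (nat_lit 770072) (nat_lit 8) (.e (nat_lit 65571) (nat_lit 3) (.e (nat_lit 98381) (nat_lit 31) (.e (nat_lit 466967) (nat_lit 20) (.e (nat_lit 3304) (nat_lit 202) .nil))))))) (.g (nat_lit 1) (.e (nat_lit 411737) (nat_lit 0) .nil) .nil)))) (.nd (nat_lit 9) 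
(.lf (nat_lit 596312) (.g (nat_lit 3200) (.e (nat_lit 573470) (nat_lit 11) (.e (nat_lit 16385) (nat_lit 0) (.e (nat_lit 7583) (nat_lit 405) (.e (nat_lit 57464) (nat_lit 23) (.e (nat_lit 516151) (nat_lit 9) (.e (nat_lit 426286) (nat_lit 10) (.e (nat_lit 434248) (nat_lit 28) .nil))))))) (.g (nat_lit 1) (.e (nat_lit 411187) (nat_lit 0) .nil) .nil))) 
(.lf (nat_lit 596824) (.g (nat_lit 2228) (.e (nat_lit 573480) (nat_lit 13) (.e (nat_lit 65630) (nat_lit 14) (.e (nat_lit 401425) (nat_lit 2) (.e (nat_lit 196680) (nat_lit 17) .nil)))) (.g (nat_lit 0) (.e (nat_lit 412187) (nat_lit 0) .nil) .nil))))) (.nd (nat_lit 8) (.nd (nat_lit 9) 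
(.lf (nat_lit 596184) (.g (nat_lit 1093) (.e (nat_lit 573456) (nat_lit 9) (.e (nat_lit 430) (nat_lit 32) (.e (nat_lit 426190) (nat_lit 9) (.e (nat_lit 426402) (nat_lit 15) (.e (nat_lit 1848) (nat_lit 124) .nil))))) (.g (nat_lit 0) (.e (nat_lit 411019) (nat_lit 0) .nil) .nil))) 
(.lf (nat_lit 596696) (.g (nat_lit 3443) (.e (nat_lit 573478) (nat_lit 12) (.e (nat_lit 57574) (nat_lit 55) (.e (nat_lit 778362) (nat_lit 9) (.e (nat_lit 297) (nat_lit 22) (.e (nat_lit 344110) (nat_lit 19) .nil))))) (.g (nat_lit 0) (.e (nat_lit 411943) (nat_lit 0) .nil) .nil)))) (.nd (nat_lit 9) 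
(.lf (nat_lit 596440) (.g (nat_lit 852) (.e (nat_lit 573471) (nat_lit 11) (.e (nat_lit 16470) (nat_lit 14) (.e (nat_lit 491578) (nat_lit 15) .nil))) (.g (nat_lit 0) (.e (nat_lit 411490) (nat_lit 0) .nil) .nil))) 
(.lf (nat_lit 596952) (.g (nat_lit 4081) (.e (nat_lit 573481) (nat_lit 13) (.e (nat_lit 65604) (nat_lit 9) (.e (nat_lit 336013) (nat_lit 2) (.e (nat_lit 90170) (nat_lit 13) (.e (nat_lit 172138) (nat_lit 15) (.e (nat_lit 2056) (nat_lit 142) (.e (nat_lit 704589) (nat_lit 3) (.e (nat_lit 163976) (nat_lit 30) .nil)))))))) (.g (nat_lit 1) (.e (nat_lit 412407) (nat_lit 0) .nil) .nil))))))) 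
(.nd (nat_lit 6) (.nd (nat_lit 7) (.nd (nat_lit 8) (.nd (nat_lit 9) 
(.lf (nat_lit 596024) (.g (nat_lit 937) (.e (nat_lit 573444) (nat_lit 0) (.e (nat_lit 3026) (nat_lit 187) (.e (nat_lit 450605) (nat_lit 27) (.e (nat_lit 745476) (nat_lit 0) (.e (nat_lit 1599) (nat_lit 111) .nil))))) (.g (nat_lit 0) (.e (nat_lit 410592) (nat_lit 0) .nil) .nil))) 
(.lf (nat_lit 596536) (.g (nat_lit 3489) (.e (nat_lit 573475) (nat_lit 12) (.e (nat_lit 57574) (nat_lit 55) (.e (nat_lit 778362) (nat_lit 9) (.e (nat_lit 297) (nat_lit 22) (.e (nat_lit 344105) (nat_lit 19) .nil))))) (.g (nat_lit 0) (.e (nat_lit 411651) (nat_lit 0) .nil) .nil)))) (.nd (nat_lit 9) 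
(.lf (nat_lit 596280) (.g (nat_lit 2879) (.e (nat_lit 573469) (nat_lit 11) (.e (nat_lit 16459) (nat_lit 12) (.e (nat_lit 475185) (nat_lit 29) (.e (nat_lit 557098) (nat_lit 13) (.e (nat_lit 172115) (nat_lit 10) .nil))))) (.g (nat_lit 0) (.e (nat_lit 411153) (nat_lit 0) .nil) .nil))) 
(.lf (nat_lit 596792) (.g (nat_lit 2465) (.e (nat_lit 573479) (nat_lit 13) (.e (nat_lit 65630) (nat_lit 14) (.e (nat_lit 401425) (nat_lit 2) (.e (nat_lit 196681) (nat_lit 17) (.e (nat_lit 131123) (nat_lit 12) .nil))))) (.g (nat_lit 0) (.e (nat_lit 412126) (nat_lit 0) .nil) .nil))))) (.nd (nat_lit 8) (.nd (nat_lit 9) 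
(.lf (nat_lit 596152) (.g (nat_lit 1526) (.e (nat_lit 573453) (nat_lit 9) (.e (nat_lit 1669) (nat_lit 116) (.e (nat_lit 401459) (nat_lit 13) (.e (nat_lit 483343) (nat_lit 17) .nil)))) (.g (nat_lit 0) (.e (nat_lit 410983) (nat_lit 0) .nil) .nil))) 
(.lf (nat_lit 596664) (.g (nat_lit 2488) (.e (nat_lit 573477) (nat_lit 12) (.e (nat_lit 57575) (nat_lit 55) (.e (nat_lit 778466) (nat_lit 11) (.e (nat_lit 24604) (nat_lit 2) (.e (nat_lit 90176) (nat_lit 15) (.e (nat_lit 188442) (nat_lit 20) (.e (nat_lit 3304) (nat_lit 202) .nil))))))) (.g (nat_lit 1) (.e (nat_lit 411857) (nat_lit 0) .nil) .nil)))) (.nd (nat_lit 9) 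
(.lf (nat_lit 596408) (.g (nat_lit 1362) (.e (nat_lit 573471) (nat_lit 11) (.e (nat_lit 16455) (nat_lit 12) (.e (nat_lit 475185) (nat_lit 29) (.e (nat_lit 557098) (nat_lit 13) .nil)))) (.g (nat_lit 0) (.e (nat_lit 411448) (nat_lit 0) .nil) .nil))) 
(.lf (nat_lit 596920) (.g (nat_lit 3760) (.e (nat_lit 573481) (nat_lit 13) (.e (nat_lit 65604) (nat_lit 9) (.e (nat_lit 336013) (nat_lit 2) (.e (nat_lit 90170) (nat_lit 13) (.e (nat_lit 172049) (nat_lit 0) (.e (nat_lit 3408) (nat_lit 212) (.e (nat_lit 655373) (nat_lit 3) (.e (nat_lit 163975) (nat_lit 30) .nil)))))))) (.g (nat_lit 1) (.e (nat_lit 412361) (nat_lit 0) .nil) .nil)))))) 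
(.nd (nat_lit 7) (.nd (nat_lit 8) (.nd (nat_lit 9) 
(.lf (nat_lit 596088) (.g (nat_lit 2561) (.e (nat_lit 573449) (nat_lit 9) (.e (nat_lit 1669) (nat_lit 116) (.e (nat_lit 401459) (nat_lit 13) (.e (nat_lit 483364) (nat_lit 18) (.e (nat_lit 57685) (nat_lit 156) .nil))))) (.g (nat_lit 0) (.e (nat_lit 410843) (nat_lit 0) .nil) .nil))) 
(.lf (nat_lit 596600) (.g (nat_lit 2606) (.e (nat_lit 573477) (nat_lit 12) (.e (nat_lit 57574) (nat_lit 55) (.e (nat_lit 778465) (nat_lit 11) (.e (nat_lit 24608) (nat_lit 3) (.e (nat_lit 98381) (nat_lit 31) (.e (nat_lit 466967) (nat_lit 20) (.e (nat_lit 3304) (nat_lit 202) .nil))))))) (.g (nat_lit 1) (.e (nat_lit 411773) (nat_lit 0) .nil) .nil)))) (.nd (nat_lit 9) 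
(.lf (nat_lit 596344) (.g (nat_lit 2835) (.e (nat_lit 573470) (nat_lit 11) (.e (nat_lit 16470) (nat_lit 14) (.e (nat_lit 491537) (nat_lit 2) (.e (nat_lit 90178) (nat_lit 15) (.e (nat_lit 188440) (nat_lit 20) .nil))))) (.g (nat_lit 0) (.e (nat_lit 411248) (nat_lit 0) .nil) .nil))) 
(.lf (nat_lit 596856) (.g (nat_lit 1738) (.e (nat_lit 573481) (nat_lit 13) (.e (nat_lit 65569) (nat_lit 3) (.e (nat_lit 98334) (nat_lit 18) (.e (nat_lit 164195) (nat_lit 158) .nil)))) (.g (nat_lit 0) (.e (nat_lit 412257) (nat_lit 0) .nil) .nil))))) (.nd (nat_lit 8) (.nd (nat_lit 9) 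
(.lf (nat_lit 596216) (.g (nat_lit 2591) (.e (nat_lit 573456) (nat_lit 9) (.e (nat_lit 1669) (nat_lit 116) (.e (nat_lit 401459) (nat_lit 13) (.e (nat_lit 483363) (nat_lit 18) (.e (nat_lit 57659) (nat_lit 152) .nil))))) (.g (nat_lit 0) (.e (nat_lit 411053) (nat_lit 0) .nil) .nil))) 
(.lf (nat_lit 596728) (.g (nat_lit 4367) (.e (nat_lit 573478) (nat_lit 12) (.e (nat_lit 57574) (nat_lit 55) (.e (nat_lit 778466) (nat_lit 11) (.e (nat_lit 24604) (nat_lit 2) (.e (nat_lit 90176) (nat_lit 15) (.e (nat_lit 188440) (nat_lit 20) (.e (nat_lit 3307) (nat_lit 202) .nil))))))) (.g (nat_lit 1) (.e (nat_lit 411993) (nat_lit 0) .nil) .nil)))) (.nd (nat_lit 9) 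
(.lf (nat_lit 596472) (.g (nat_lit 3705) (.e (nat_lit 573473) (nat_lit 12) (.e (nat_lit 57352) (nat_lit 0) (.e (nat_lit 7261) (nat_lit 384) (.e (nat_lit 57412) (nat_lit 12) (.e (nat_lit 336001) (nat_lit 2) (.e (nat_lit 90170) (nat_lit 13) (.e (nat_lit 172113) (nat_lit 10) (.e (nat_lit 434245) (nat_lit 28) .nil)))))))) (.g (nat_lit 1) (.e (nat_lit 411526) (nat_lit 0) .nil) .nil))) 
(.lf (nat_lit 596984) (.g (nat_lit 1710) (.e (nat_lit 573481) (nat_lit 13) (.e (nat_lit 65604) (nat_lit 9) (.e (nat_lit 336028) (nat_lit 3) (.e (nat_lit 98365) (nat_lit 26) .nil)))) (.g (nat_lit 0) (.e (nat_lit 412490) (nat_lit 0) .nil) .nil)))))))))) (.nd (nat_lit 3) (.nd (nat_lit 4) (.nd (nat_lit 5) (.nd (nat_lit 6) (.nd (nat_lit 7) (.nd (nat_lit 8) (.nd (nat_lit 9) 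
(.lf (nat_lit 595972) (.g (nat_lit 3098) (.e (nat_lit 548913) (nat_lit 18) (.e (nat_lit 172126) (nat_lit 14) (.e (nat_lit 491537) (nat_lit 2) (.e (nat_lit 90178) (nat_lit 15) (.e (nat_lit 188441) (nat_lit 20) (.e (nat_lit 3271) (nat_lit 199) .nil)))))) (.g (nat_lit 1) (.e (nat_lit 410318) (nat_lit 0) .nil) .nil))) 
(.lf (nat_lit 596484) (.g (nat_lit 4127) (.e (nat_lit 573474) (nat_lit 12) (.e (nat_lit 57351) (nat_lit 0) (.e (nat_lit 7261) (nat_lit 384) (.e (nat_lit 57412) (nat_lit 12) (.e (nat_lit 336001) (nat_lit 2) (.e (nat_lit 90170) (nat_lit 13) (.e (nat_lit 172113) (nat_lit 10) (.e (nat_lit 434245) (nat_lit 28) .nil)))))))) (.g (nat_lit 1) (.e (nat_lit 411554) (nat_lit 0) .nil) .nil)))) 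
(.nd (nat_lit 9) 
(.lf (nat_lit 596228) (.g (nat_lit 3138) (.e (nat_lit 573456) (nat_lit 9) (.e (nat_lit 1669) (nat_lit 116) (.e (nat_lit 401459) (nat_lit 13) (.e (nat_lit 483365) (nat_lit 18) (.e (nat_lit 57666) (nat_lit 152) .nil))))) (.g (nat_lit 0) (.e (nat_lit 411065) (nat_lit 0) .nil) .nil))) 
(.lf (nat_lit 596740) (.g (nat_lit 3716) (.e (nat_lit 573479) (nat_lit 13) (.e (nat_lit 65604) (nat_lit 9) (.e (nat_lit 336013) (nat_lit 2) (.e (nat_lit 90185) (nat_lit 17) .nil)))) (.g (nat_lit 0) (.e (nat_lit 412074) (nat_lit 0) .nil) .nil))))) (.nd (nat_lit 8) (.nd (nat_lit 9) 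
(.lf (nat_lit 596100) (.g (nat_lit 1950) (.e (nat_lit 573450) (nat_lit 9) (.e (nat_lit 457) (nat_lit 34) (.e (nat_lit 442374) (nat_lit 0) (.e (nat_lit 1856) (nat_lit 124) (.e (nat_lit 557097) (nat_lit 13) .nil))))) (.g (nat_lit 0) (.e (nat_lit 410871) (nat_lit 0) .nil) .nil))) 
(.lf (nat_lit 596612) (.g (nat_lit 3672) (.e (nat_lit 573477) (nat_lit 12) (.e (nat_lit 57574) (nat_lit 55) (.e (nat_lit 778466) (nat_lit 11) (.e (nat_lit 24603) (nat_lit 2) (.e (nat_lit 90176) (nat_lit 15) (.e (nat_lit 188438) (nat_lit 20) (.e (nat_lit 3307) (nat_lit 202) .nil))))))) (.g (nat_lit 1) (.e (nat_lit 411789) (nat_lit 0) .nil) .nil)))) (.nd (nat_lit 9) 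
(.lf (nat_lit 596356) (.g (nat_lit 680) (.e (nat_lit 573470) (nat_lit 11) (.e (nat_lit 16473) (nat_lit 14) (.e (nat_lit 491525) (nat_lit 0) .nil))) (.g (nat_lit 0) (.e (nat_lit 411261) (nat_lit 0) .nil) .nil))) 
(.lf (nat_lit 596868) (.g (nat_lit 3775) (.e (nat_lit 573481) (nat_lit 13) (.e (nat_lit 65604) (nat_lit 9) (.e (nat_lit 336013) (nat_lit 2) (.e (nat_lit 90128) (nat_lit 9) .nil)))) (.g (nat_lit 0) (.e (nat_lit 412285) (nat_lit 0) .nil) .nil)))))) (.nd (nat_lit 7) (.nd (nat_lit 8) (.nd (nat_lit 9) 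
(.lf (nat_lit 596036) (.g (nat_lit 969) (.e (nat_lit 573445) (nat_lit 0) (.e (nat_lit 3011) (nat_lit 187) (.e (nat_lit 450605) (nat_lit 27) (.e (nat_lit 745476) (nat_lit 0) (.e (nat_lit 1599) (nat_lit 111) (.e (nat_lit 368384) (nat_lit 10) .nil)))))) (.g (nat_lit 1) (.e (nat_lit 410622) (nat_lit 0) .nil) .nil))) 
(.lf (nat_lit 596548) (.g (nat_lit 1444) (.e (nat_lit 573475) (nat_lit 12) (.e (nat_lit 57574) (nat_lit 55) (.e (nat_lit 778466) (nat_lit 11) (.e (nat_lit 24581) (nat_lit 0) .nil)))) (.g (nat_lit 0) (.e (nat_lit 411665) (nat_lit 0) .nil) .nil)))) (.nd (nat_lit 9) 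
(.lf (nat_lit 596292) (.g (nat_lit 1250) (.e (nat_lit 573469) (nat_lit 11) (.e (nat_lit 16470) (nat_lit 14) (.e (nat_lit 491535) (nat_lit 2) .nil))) (.g (nat_lit 0) (.e (nat_lit 411165) (nat_lit 0) .nil) .nil))) 
(.lf (nat_lit 596804) (.g (nat_lit 1771) (.e (nat_lit 573480) (nat_lit 13) (.e (nat_lit 65610) (nat_lit 10) (.e (nat_lit 344117) (nat_lit 21) (.e (nat_lit 516151) (nat_lit 9) .nil)))) (.g (nat_lit 0) (.e (nat_lit 412167) (nat_lit 0) .nil) .nil))))) (.nd (nat_lit 8) (.nd (nat_lit 9) 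
(.lf (nat_lit 596164) (.g (nat_lit 3123) (.e (nat_lit 573456) (nat_lit 9) (.e (nat_lit 430) (nat_lit 32) (.e (nat_lit 426009) (nat_lit 0) (.e (nat_lit 7490) (nat_lit 402) (.e (nat_lit 1256) (nat_lit 92) (.e (nat_lit 98373) (nat_lit 29) (.e (nat_lit 450587) (nat_lit 10) .nil))))))) (.g (nat_lit 1) (.e (nat_lit 410999) (nat_lit 0) .nil) .nil))) 
(.lf (nat_lit 596676) (.g (nat_lit 6071) (.e (nat_lit 573477) (nat_lit 12) (.e (nat_lit 57575) (nat_lit 55) (.e (nat_lit 778466) (nat_lit 11) (.e (nat_lit 24608) (nat_lit 3) (.e (nat_lit 98381) (nat_lit 31) (.e (nat_lit 466967) (nat_lit 20) (.e (nat_lit 3305) (nat_lit 202) .nil))))))) (.g (nat_lit 1) (.e (nat_lit 411870) (nat_lit 0) .nil) .nil)))) (.nd (nat_lit 9) 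
(.lf (nat_lit 596420) (.g (nat_lit 2883) (.e (nat_lit 573471) (nat_lit 11) (.e (nat_lit 16459) (nat_lit 12) (.e (nat_lit 475185) (nat_lit 29) (.e (nat_lit 557107) (nat_lit 15) (.e (nat_lit 188440) (nat_lit 20) .nil))))) (.g (nat_lit 0) (.e (nat_lit 411468) (nat_lit 0) .nil) .nil))) 
(.lf (nat_lit 596932) (.g (nat_lit 3447) (.e (nat_lit 573481) (nat_lit 13) (.e (nat_lit 65604) (nat_lit 9) (.e (nat_lit 336013) (nat_lit 2) (.e (nat_lit 90170) (nat_lit 13) (.e (nat_lit 172060) (nat_lit 1) (.e (nat_lit 164345) (nat_lit 240) (.e (nat_lit 2601) (nat_lit 163) (.e (nat_lit 163975) (nat_lit 30) .nil)))))))) (.g (nat_lit 1) (.e (nat_lit 412375) (nat_lit 0) .nil) .nil))))))) 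
(.nd (nat_lit 6) (.nd (nat_lit 7) (.nd (nat_lit 8) (.nd (nat_lit 9) 
(.lf (nat_lit 596004) (.g (nat_lit 1500) (.e (nat_lit 573442) (nat_lit 0) (.e (nat_lit 3011) (nat_lit 187) (.e (nat_lit 450605) (nat_lit 27) (.e (nat_lit 745476) (nat_lit 0) (.e (nat_lit 1586) (nat_lit 111) (.e (nat_lit 368384) (nat_lit 10) .nil)))))) (.g (nat_lit 1) (.e (nat_lit 410547) (nat_lit 0) .nil) .nil))) 
(.lf (nat_lit 596516) (.g (nat_lit 2177) (.e (nat_lit 573475) (nat_lit 12) (.e (nat_lit 57347) (nat_lit 0) (.e (nat_lit 7125) (nat_lit 382) (.e (nat_lit 1201) (nat_lit 88) (.e (nat_lit 65550) (nat_lit 0) .nil))))) (.g (nat_lit 0) (.e (nat_lit 411627) (nat_lit 0) .nil) .nil)))) (.nd (nat_lit 9) 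
(.lf (nat_lit 596260) (.g (nat_lit 619) (.e (nat_lit 573469) (nat_lit 11) (.e (nat_lit 16425) (nat_lit 7) (.e (nat_lit 409615) (nat_lit 10) .nil))) (.g (nat_lit 0) (.e (nat_lit 411108) (nat_lit 0) .nil) .nil))) 
(.lf (nat_lit 596772) (.g (nat_lit 2890) (.e (nat_lit 573479) (nat_lit 13) (.e (nat_lit 65619) (nat_lit 10) (.e (nat_lit 344117) (nat_lit 21) (.e (nat_lit 516151) (nat_lit 9) (.e (nat_lit 426104) (nat_lit 1) .nil))))) (.g (nat_lit 0) (.e (nat_lit 412106) (nat_lit 0) .nil) .nil))))) (.nd (nat_lit 8) (.nd (nat_lit 9) 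
(.lf (nat_lit 596132) (.g (nat_lit 2049) (.e (nat_lit 573451) (nat_lit 9) (.e (nat_lit 1400) (nat_lit 106) (.e (nat_lit 319533) (nat_lit 16) (.e (nat_lit 286767) (nat_lit 27) .nil)))) (.g (nat_lit 0) (.e (nat_lit 410951) (nat_lit 0) .nil) .nil))) 
(.lf (nat_lit 596644) (.g (nat_lit 2085) (.e (nat_lit 573477) (nat_lit 12) (.e (nat_lit 57575) (nat_lit 55) (.e (nat_lit 778465) (nat_lit 11) (.e (nat_lit 24604) (nat_lit 2) (.e (nat_lit 90176) (nat_lit 15) .nil))))) (.g (nat_lit 0) (.e (nat_lit 411836) (nat_lit 0) .nil) .nil)))) (.nd (nat_lit 9) 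
(.lf (nat_lit 596388) (.g (nat_lit 1614) (.e (nat_lit 573471) (nat_lit 11) (.e (nat_lit 16440) (nat_lit 9) (.e (nat_lit 426125) (nat_lit 2) (.e (nat_lit 196628) (nat_lit 9) .nil)))) (.g (nat_lit 0) (.e (nat_lit 411360) (nat_lit 0) .nil) .nil))) 
(.lf (nat_lit 596900) (.g (nat_lit 2730) (.e (nat_lit 573481) (nat_lit 13) (.e (nat_lit 65604) (nat_lit 9) (.e (nat_lit 336013) (nat_lit 2) (.e (nat_lit 90170) (nat_lit 13) (.e (nat_lit 172034) (nat_lit 0) .nil))))) (.g (nat_lit 0) (.e (nat_lit 412331) (nat_lit 0) .nil) .nil)))))) (.nd (nat_lit 7) (.nd (nat_lit 8) (.nd (nat_lit 9) 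
(.lf (nat_lit 596068) (.g (nat_lit 1275) (.e (nat_lit 581376) (nat_lit 6) (.e (nat_lit 188434) (nat_lit 20) (.e (nat_lit 3579) (nat_lit 223) (.e (nat_lit 745475) (nat_lit 0) (.e (nat_lit 1599) (nat_lit 111) .nil))))) (.g (nat_lit 0) (.e (nat_lit 410730) (nat_lit 0) .nil) .nil))) 
(.lf (nat_lit 596580) (.g (nat_lit 1529) (.e (nat_lit 573477) (nat_lit 12) (.e (nat_lit 57574) (nat_lit 55) (.e (nat_lit 778465) (nat_lit 11) (.e (nat_lit 24602) (nat_lit 2) .nil)))) (.g (nat_lit 0) (.e (nat_lit 411752) (nat_lit 0) .nil) .nil)))) (.nd (nat_lit 9) 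
(.lf (nat_lit 596324) (.g (nat_lit 2097) (.e (nat_lit 573470) (nat_lit 11) (.e (nat_lit 16448) (nat_lit 10) (.e (nat_lit 434231) (nat_lit 23) (.e (nat_lit 532490) (nat_lit 0) .nil)))) (.g (nat_lit 0) (.e (nat_lit 411209) (nat_lit 0) .nil) .nil))) 
(.lf (nat_lit 596836) (.g (nat_lit 947) (.e (nat_lit 573480) (nat_lit 13) (.e (nat_lit 65630) (nat_lit 14) (.e (nat_lit 401428) (nat_lit 3) (.e (nat_lit 204850) (nat_lit 26) .nil)))) (.g (nat_lit 0) (.e (nat_lit 412199) (nat_lit 0) .nil) .nil))))) (.nd (nat_lit 8) (.nd (nat_lit 9) 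
(.lf (nat_lit 596196) (.g (nat_lit 3200) (.e (nat_lit 573456) (nat_lit 9) (.e (nat_lit 430) (nat_lit 32) (.e (nat_lit 426344) (nat_lit 14) (.e (nat_lit 491538) (nat_lit 3) (.e (nat_lit 98373) (nat_lit 29) (.e (nat_lit 450587) (nat_lit 10) .nil)))))) (.g (nat_lit 1) (.e (nat_lit 411033) (nat_lit 0) .nil) .nil))) 
(.lf (nat_lit 596708) (.g (nat_lit 1091) (.e (nat_lit 573478) (nat_lit 12) (.e (nat_lit 57574) (nat_lit 55) (.e (nat_lit 778465) (nat_lit 11) (.e (nat_lit 24607) (nat_lit 3) .nil)))) (.g (nat_lit 0) (.e (nat_lit 411961) (nat_lit 0) .nil) .nil)))) (.nd (nat_lit 9) 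
(.lf (nat_lit 596452) (.g (nat_lit 3858) (.e (nat_lit 573471) (nat_lit 11) (.e (nat_lit 16473) (nat_lit 14) (.e (nat_lit 491535) (nat_lit 2) (.e (nat_lit 90170) (nat_lit 13) (.e (nat_lit 172113) (nat_lit 10) (.e (nat_lit 434242) (nat_lit 28) .nil)))))) (.g (nat_lit 1) (.e (nat_lit 411504) (nat_lit 0) .nil) .nil))) 
(.lf (nat_lit 596964) (.g (nat_lit 2841) (.e (nat_lit 573481) (nat_lit 13) (.e (nat_lit 65604) (nat_lit 9) (.e (nat_lit 336028) (nat_lit 3) (.e (nat_lit 98358) (nat_lit 26) (.e (nat_lit 426444) (nat_lit 19) (.e (nat_lit 114432) (nat_lit 3) (.e (nat_lit 163975) (nat_lit 30) .nil))))))) (.g (nat_lit 1) (.e (nat_lit 412444) (nat_lit 0) .nil) .nil)))))))) 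
(.nd (nat_lit 5) (.nd (nat_lit 6) (.nd (nat_lit 7) (.nd (nat_lit 8) (.nd (nat_lit 9) 
(.lf (nat_lit 595988) (.g (nat_lit 1586) (.e (nat_lit 556800) (nat_lit 5) (.e (nat_lit 1512) (nat_lit 108) (.e (nat_lit 336235) (nat_lit 14) (.e (nat_lit 401425) (nat_lit 2) (.e (nat_lit 196674) (nat_lit 15) .nil))))) (.g (nat_lit 0) (.e (nat_lit 410485) (nat_lit 0) .nil) .nil))) 
(.lf (nat_lit 596500) (.g (nat_lit 883) (.e (nat_lit 573474) (nat_lit 12) (.e (nat_lit 57572) (nat_lit 54) (.e (nat_lit 770072) (nat_lit 8) (.e (nat_lit 65571) (nat_lit 3) .nil)))) (.g (nat_lit 0) (.e (nat_lit 411578) (nat_lit 0) .nil) .nil)))) (.nd (nat_lit 9) 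
(.lf (nat_lit 596244) (.g (nat_lit 3085) (.e (nat_lit 573459) (nat_lit 9) (.e (nat_lit 1181) (nat_lit 87) (.e (nat_lit 57931) (nat_lit 282) (.e (nat_lit 163874) (nat_lit 3) (.e (nat_lit 204864) (nat_lit 27) .nil))))) (.g (nat_lit 0) (.e (nat_lit 411090) (nat_lit 0) .nil) .nil))) 
(.lf (nat_lit 596756) (.g (nat_lit 2139) (.e (nat_lit 573479) (nat_lit 13) (.e (nat_lit 65619) (nat_lit 10) (.e (nat_lit 344117) (nat_lit 21) (.e (nat_lit 516144) (nat_lit 9) (.e (nat_lit 426442) (nat_lit 19) .nil))))) (.g (nat_lit 0) (.e (nat_lit 412090) (nat_lit 0) .nil) .nil))))) (.nd (nat_lit 8) (.nd (nat_lit 9) 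
(.lf (nat_lit 596116) (.g (nat_lit 4552) (.e (nat_lit 573451) (nat_lit 9) (.e (nat_lit 430) (nat_lit 32) (.e (nat_lit 426012) (nat_lit 0) (.e (nat_lit 7490) (nat_lit 402) (.e (nat_lit 1239) (nat_lit 91) (.e (nat_lit 90170) (nat_lit 13) (.e (nat_lit 172113) (nat_lit 10) (.e (nat_lit 434245) (nat_lit 28) .nil)))))))) (.g (nat_lit 1) (.e (nat_lit 410935) (nat_lit 0) .nil) .nil))) 
(.lf (nat_lit 596628) (.g (nat_lit 3522) (.e (nat_lit 573477) (nat_lit 12) (.e (nat_lit 57574) (nat_lit 55) (.e (nat_lit 778466) (nat_lit 11) (.e (nat_lit 24607) (nat_lit 3) (.e (nat_lit 98372) (nat_lit 29) (.e (nat_lit 450586) (nat_lit 10) .nil)))))) (.g (nat_lit 1) (.e (nat_lit 411817) (nat_lit 0) .nil) .nil)))) (.nd (nat_lit 9) 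
(.lf (nat_lit 596372) (.g (nat_lit 473) (.e (nat_lit 573471) (nat_lit 11) (.e (nat_lit 16388) (nat_lit 0) (.e (nat_lit 7491) (nat_lit 402) .nil))) (.g (nat_lit 0) (.e (nat_lit 411282) (nat_lit 0) .nil) .nil))) 
(.lf (nat_lit 596884) (.g (nat_lit 3821) (.e (nat_lit 573481) (nat_lit 13) (.e (nat_lit 65604) (nat_lit 9) (.e (nat_lit 336013) (nat_lit 2) (.e (nat_lit 90150) (nat_lit 9) .nil)))) (.g (nat_lit 0) (.e (nat_lit 412304) (nat_lit 0) .nil) .nil)))))) (.nd (nat_lit 7) (.nd (nat_lit 8) (.nd (nat_lit 9) 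
(.lf (nat_lit 596052) (.g (nat_lit 737) (.e (nat_lit 573445) (nat_lit 0) (.e (nat_lit 3020) (nat_lit 187) (.e (nat_lit 450605) (nat_lit 27) (.e (nat_lit 745476) (nat_lit 0) (.e (nat_lit 1599) (nat_lit 111) (.e (nat_lit 368384) (nat_lit 10) .nil)))))) (.g (nat_lit 1) (.e (nat_lit 410639) (nat_lit 0) .nil) .nil))) 
(.lf (nat_lit 596564) (.g (nat_lit 1504) (.e (nat_lit 573476) (nat_lit 12) (.e (nat_lit 57575) (nat_lit 55) (.e (nat_lit 778465) (nat_lit 11) (.e (nat_lit 24604) (nat_lit 2) .nil)))) (.g (nat_lit 0) (.e (nat_lit 411733) (nat_lit 0) .nil) .nil)))) (.nd (nat_lit 9) 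
(.lf (nat_lit 596308) (.g (nat_lit 4102) (.e (nat_lit 573469) (nat_lit 11) (.e (nat_lit 16473) (nat_lit 14) (.e (nat_lit 491536) (nat_lit 2) (.e (nat_lit 90170) (nat_lit 13) (.e (nat_lit 172113) (nat_lit 10) (.e (nat_lit 434247) (nat_lit 28) .nil)))))) (.g (nat_lit 1) (.e (nat_lit 411182) (nat_lit 0) .nil) .nil))) 
(.lf (nat_lit 596820) (.g (nat_lit 2747) (.e (nat_lit 573480) (nat_lit 13) (.e (nat_lit 65630) (nat_lit 14) (.e (nat_lit 401425) (nat_lit 2) (.e (nat_lit 196672) (nat_lit 15) (.e (nat_lit 81922) (nat_lit 0) .nil))))) (.g (nat_lit 0) (.e (nat_lit 412183) (nat_lit 0) .nil) .nil))))) (.nd (nat_lit 8) (.nd (nat_lit 9) 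
(.lf (nat_lit 596180) (.g (nat_lit 3363) (.e (nat_lit 573456) (nat_lit 9) (.e (nat_lit 430) (nat_lit 32) (.e (nat_lit 426012) (nat_lit 0) (.e (nat_lit 7581) (nat_lit 405) (.e (nat_lit 57464) (nat_lit 23) (.e (nat_lit 516166) (nat_lit 12) (.e (nat_lit 450587) (nat_lit 10) .nil))))))) (.g (nat_lit 1) (.e (nat_lit 411015) (nat_lit 0) .nil) .nil))) 
(.lf (nat_lit 596692) (.g (nat_lit 1185) (.e (nat_lit 573478) (nat_lit 12) (.e (nat_lit 57510) (nat_lit 39) (.e (nat_lit 647199) (nat_lit 11) (.e (nat_lit 16388) (nat_lit 0) (.e (nat_lit 3548) (nat_lit 219) .nil))))) (.g (nat_lit 0) (.e (nat_lit 411939) (nat_lit 0) .nil) .nil)))) (.nd (nat_lit 9) 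
(.lf (nat_lit 596436) (.g (nat_lit 1780) (.e (nat_lit 573471) (nat_lit 11) (.e (nat_lit 16470) (nat_lit 14) (.e (nat_lit 491540) (nat_lit 3) (.e (nat_lit 98323) (nat_lit 17) .nil)))) (.g (nat_lit 0) (.e (nat_lit 411486) (nat_lit 0) .nil) .nil))) 
(.lf (nat_lit 596948) (.g (nat_lit 3123) (.e (nat_lit 573481) (nat_lit 13) (.e (nat_lit 65604) (nat_lit 9) (.e (nat_lit 336013) (nat_lit 2) (.e (nat_lit 90170) (nat_lit 13) (.e (nat_lit 172137) (nat_lit 15) (.e (nat_lit 2057) (nat_lit 142) (.e (nat_lit 704589) (nat_lit 3) (.e (nat_lit 163975) (nat_lit 30) .nil)))))))) (.g (nat_lit 1) (.e (nat_lit 412403) (nat_lit 0) .nil) .nil))))))) 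
(.nd (nat_lit 6) (.nd (nat_lit 7) (.nd (nat_lit 8) (.nd (nat_lit 9) 
(.lf (nat_lit 596020) (.g (nat_lit 932) (.e (nat_lit 573444) (nat_lit 0) (.e (nat_lit 3026) (nat_lit 187) (.e (nat_lit 450605) (nat_lit 27) (.e (nat_lit 745475) (nat_lit 0) (.e (nat_lit 1598) (nat_lit 111) (.e (nat_lit 368384) (nat_lit 10) .nil)))))) (.g (nat_lit 1) (.e (nat_lit 410588) (nat_lit 0) .nil) .nil))) 
(.lf (nat_lit 596532) (.g (nat_lit 2761) (.e (nat_lit 573475) (nat_lit 12) (.e (nat_lit 57572) (nat_lit 54) (.e (nat_lit 770072) (nat_lit 8) (.e (nat_lit 65571) (nat_lit 3) (.e (nat_lit 98374) (nat_lit 29) (.e (nat_lit 450586) (nat_lit 10) .nil)))))) (.g (nat_lit 1) (.e (nat_lit 411645) (nat_lit 0) .nil) .nil)))) (.nd (nat_lit 9) 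
(.lf (nat_lit 596276) (.g (nat_lit 1938) (.e (nat_lit 573469) (nat_lit 11) (.e (nat_lit 16458) (nat_lit 12) (.e (nat_lit 475183) (nat_lit 29) (.e (nat_lit 557097) (nat_lit 13) (.e (nat_lit 172105) (nat_lit 10) .nil))))) (.g (nat_lit 0) (.e (nat_lit 411148) (nat_lit 0) .nil) .nil))) 
(.lf (nat_lit 596788) (.g (nat_lit 2787) (.e (nat_lit 573479) (nat_lit 13) (.e (nat_lit 65619) (nat_lit 10) (.e (nat_lit 344129) (nat_lit 26) (.e (nat_lit 557087) (nat_lit 11) (.e (nat_lit 24597) (nat_lit 1) .nil))))) (.g (nat_lit 0) (.e (nat_lit 412122) (nat_lit 0) .nil) .nil))))) (.nd (nat_lit 8) (.nd (nat_lit 9) 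
(.lf (nat_lit 596148) (.g (nat_lit 2098) (.e (nat_lit 573452) (nat_lit 9) (.e (nat_lit 1400) (nat_lit 106) (.e (nat_lit 319534) (nat_lit 16) (.e (nat_lit 286767) (nat_lit 27) .nil)))) (.g (nat_lit 0) (.e (nat_lit 410979) (nat_lit 0) .nil) .nil))) 
(.lf (nat_lit 596660) (.g (nat_lit 2421) (.e (nat_lit 573477) (nat_lit 12) (.e (nat_lit 57575) (nat_lit 55) (.e (nat_lit 778466) (nat_lit 11) (.e (nat_lit 24604) (nat_lit 2) (.e (nat_lit 90168) (nat_lit 13) .nil))))) (.g (nat_lit 0) (.e (nat_lit 411853) (nat_lit 0) .nil) .nil)))) (.nd (nat_lit 9) 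
(.lf (nat_lit 596404) (.g (nat_lit 2887) (.e (nat_lit 573471) (nat_lit 11) (.e (nat_lit 16452) (nat_lit 11) (.e (nat_lit 458789) (nat_lit 23) (.e (nat_lit 532482) (nat_lit 0) (.e (nat_lit 6722) (nat_lit 362) (.e (nat_lit 180252) (nat_lit 10) .nil)))))) (.g (nat_lit 1) (.e (nat_lit 411439) (nat_lit 0) .nil) .nil))) 
(.lf (nat_lit 596916) (.g (nat_lit 2603) (.e (nat_lit 573481) (nat_lit 13) (.e (nat_lit 65604) (nat_lit 9) (.e (nat_lit 336013) (nat_lit 2) (.e (nat_lit 90170) (nat_lit 13) (.e (nat_lit 172046) (nat_lit 0) (.e (nat_lit 3407) (nat_lit 212) (.e (nat_lit 655373) (nat_lit 3) (.e (nat_lit 163975) (nat_lit 30) .nil)))))))) (.g (nat_lit 1) (.e (nat_lit 412353) (nat_lit 0) .nil) .nil)))))) 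
(.nd (nat_lit 7) (.nd (nat_lit 8) (.nd (nat_lit 9) 
(.lf (nat_lit 596084) (.g (nat_lit 2713) (.e (nat_lit 573449) (nat_lit 9) (.e (nat_lit 1669) (nat_lit 116) (.e (nat_lit 401459) (nat_lit 13) (.e (nat_lit 483363) (nat_lit 18) (.e (nat_lit 57652) (nat_lit 152) .nil))))) (.g (nat_lit 0) (.e (nat_lit 410839) (nat_lit 0) .nil) .nil))) 
(.lf (nat_lit 596596) (.g (nat_lit 2471) (.e (nat_lit 573477) (nat_lit 12) (.e (nat_lit 57574) (nat_lit 55) (.e (nat_lit 778465) (nat_lit 11) (.e (nat_lit 24607) (nat_lit 3) (.e (nat_lit 98374) (nat_lit 29) (.e (nat_lit 450586) (nat_lit 10) .nil)))))) (.g (nat_lit 1) (.e (nat_lit 411769) (nat_lit 0) .nil) .nil)))) (.nd (nat_lit 9) 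
(.lf (nat_lit 596340) (.g (nat_lit 2353) (.e (nat_lit 573470) (nat_lit 11) (.e (nat_lit 16469) (nat_lit 14) (.e (nat_lit 491539) (nat_lit 3) (.e (nat_lit 98373) (nat_lit 29) (.e (nat_lit 450588) (nat_lit 10) .nil))))) (.g (nat_lit 0) (.e (nat_lit 411244) (nat_lit 0) .nil) .nil))) 
(.lf (nat_lit 596852) (.g (nat_lit 3436) (.e (nat_lit 573481) (nat_lit 13) (.e (nat_lit 65563) (nat_lit 1) (.e (nat_lit 57927) (nat_lit 282) (.e (nat_lit 163943) (nat_lit 19) (.e (nat_lit 483346) (nat_lit 17) (.e (nat_lit 6712) (nat_lit 360) (.e (nat_lit 163976) (nat_lit 30) .nil))))))) (.g (nat_lit 1) (.e (nat_lit 412228) (nat_lit 0) .nil) .nil))))) (.nd (nat_lit 8) (.nd (nat_lit 9) 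
(.lf (nat_lit 596212) (.g (nat_lit 2570) (.e (nat_lit 573456) (nat_lit 9) (.e (nat_lit 1669) (nat_lit 116) (.e (nat_lit 401459) (nat_lit 13) (.e (nat_lit 483363) (nat_lit 18) (.e (nat_lit 57655) (nat_lit 152) .nil))))) (.g (nat_lit 0) (.e (nat_lit 411049) (nat_lit 0) .nil) .nil))) 
(.lf (nat_lit 596724) (.g (nat_lit 1396) (.e (nat_lit 573478) (nat_lit 12) (.e (nat_lit 57574) (nat_lit 55) (.e (nat_lit 778466) (nat_lit 11) (.e (nat_lit 24603) (nat_lit 2) (.e (nat_lit 90166) (nat_lit 13) .nil))))) (.g (nat_lit 0) (.e (nat_lit 411982) (nat_lit 0) .nil) .nil)))) (.nd (nat_lit 9) 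
(.lf (nat_lit 596468) (.g (nat_lit 1853) (.e (nat_lit 573472) (nat_lit 12) (.e (nat_lit 57572) (nat_lit 54) (.e (nat_lit 770072) (nat_lit 8) (.e (nat_lit 65571) (nat_lit 3) (.e (nat_lit 98372) (nat_lit 29) .nil))))) (.g (nat_lit 0) (.e (nat_lit 411522) (nat_lit 0) .nil) .nil))) 
(.lf (nat_lit 596980) (.g (nat_lit 1702) (.e (nat_lit 573481) (nat_lit 13) (.e (nat_lit 65604) (nat_lit 9) (.e (nat_lit 336028) (nat_lit 3) (.e (nat_lit 98363) (nat_lit 26) .nil)))) (.g (nat_lit 0) (.e (nat_lit 412486) (nat_lit 0) .nil) .nil))))))))) (.nd (nat_lit 4) (.nd (nat_lit 5) (.nd (nat_lit 6) (.nd (nat_lit 7) (.nd (nat_lit 8) (.nd (nat_lit 9) 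
(.lf (nat_lit 595980) (.g (nat_lit 1857) (.e (nat_lit 556800) (nat_lit 18) (.e (nat_lit 172126) (nat_lit 14) (.e (nat_lit 491537) (nat_lit 2) (.e (nat_lit 90178) (nat_lit 15) .nil)))) (.g (nat_lit 0) (.e (nat_lit 410327) (nat_lit 0) .nil) .nil))) 
(.lf (nat_lit 596492) (.g (nat_lit 3812) (.e (nat_lit 573474) (nat_lit 12) (.e (nat_lit 57503) (nat_lit 38) (.e (nat_lit 638996) (nat_lit 7) (.e (nat_lit 163978) (nat_lit 30) (.e (nat_lit 573489) (nat_lit 14) (.e (nat_lit 73755) (nat_lit 8) (.e (nat_lit 557103) (nat_lit 14) (.e (nat_lit 180250) (nat_lit 10) .nil)))))))) (.g (nat_lit 1) (.e (nat_lit 411562) (nat_lit 0) .nil) .nil)))) 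
(.nd (nat_lit 9) 
(.lf (nat_lit 596236) (.g (nat_lit 4590) (.e (nat_lit 573458) (nat_lit 9) (.e (nat_lit 394) (nat_lit 32) (.e (nat_lit 426306) (nat_lit 12) (.e (nat_lit 475185) (nat_lit 29) (.e (nat_lit 557100) (nat_lit 13) (.e (nat_lit 172113) (nat_lit 10) (.e (nat_lit 434245) (nat_lit 28) .nil))))))) (.g (nat_lit 1) (.e (nat_lit 411078) (nat_lit 0) .nil) .nil))) 
(.lf (nat_lit 596748) (.g (nat_lit 2991) (.e (nat_lit 573479) (nat_lit 13) (.e (nat_lit 65610) (nat_lit 10) (.e (nat_lit 344117) (nat_lit 21) (.e (nat_lit 516179) (nat_lit 15) (.e (nat_lit 475199) (nat_lit 40) (.e (nat_lit 704589) (nat_lit 3) (.e (nat_lit 163974) (nat_lit 30) .nil))))))) (.g (nat_lit 1) (.e (nat_lit 412082) (nat_lit 0) .nil) .nil))))) (.nd (nat_lit 8) (.nd (nat_lit 9) 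
(.lf (nat_lit 596108) (.g (nat_lit 619) (.e (nat_lit 573451) (nat_lit 9) (.e (nat_lit 392) (nat_lit 32) (.e (nat_lit 426172) (nat_lit 7) (.e (nat_lit 409616) (nat_lit 10) .nil)))) (.g (nat_lit 0) (.e (nat_lit 410927) (nat_lit 0) .nil) .nil))) 
(.lf (nat_lit 596620) (.g (nat_lit 2816) (.e (nat_lit 573477) (nat_lit 12) (.e (nat_lit 57574) (nat_lit 55) (.e (nat_lit 778466) (nat_lit 11) (.e (nat_lit 24604) (nat_lit 2) (.e (nat_lit 90176) (nat_lit 15) (.e (nat_lit 188439) (nat_lit 20) (.e (nat_lit 3298) (nat_lit 202) .nil))))))) (.g (nat_lit 1) (.e (nat_lit 411807) (nat_lit 0) .nil) .nil)))) (.nd (nat_lit 9) 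
(.lf (nat_lit 596364) (.g (nat_lit 1158) (.e (nat_lit 573470) (nat_lit 11) (.e (nat_lit 16473) (nat_lit 14) (.e (nat_lit 491538) (nat_lit 3) (.e (nat_lit 98374) (nat_lit 29) .nil)))) (.g (nat_lit 0) (.e (nat_lit 411271) (nat_lit 0) .nil) .nil))) 
(.lf (nat_lit 596876) (.g (nat_lit 2599) (.e (nat_lit 573481) (nat_lit 13) (.e (nat_lit 65604) (nat_lit 9) (.e (nat_lit 336013) (nat_lit 2) (.e (nat_lit 90134) (nat_lit 9) (.e (nat_lit 3096) (nat_lit 192) (.e (nat_lit 491550) (nat_lit 9) (.e (nat_lit 336306) (nat_lit 15) (.e (nat_lit 3297) (nat_lit 202) .nil)))))))) (.g (nat_lit 1) (.e (nat_lit 412296) (nat_lit 0) .nil) .nil)))))) 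
(.nd (nat_lit 7) (.nd (nat_lit 8) (.nd (nat_lit 9) 
(.lf (nat_lit 596044) (.g (nat_lit 1093) (.e (nat_lit 573445) (nat_lit 0) (.e (nat_lit 3012) (nat_lit 187) (.e (nat_lit 450605) (nat_lit 27) (.e (nat_lit 745476) (nat_lit 0) (.e (nat_lit 1598) (nat_lit 111) (.e (nat_lit 368384) (nat_lit 10) .nil)))))) (.g (nat_lit 1) (.e (nat_lit 410631) (nat_lit 0) .nil) .nil))) 
(.lf (nat_lit 596556) (.g (nat_lit 1167) (.e (nat_lit 573475) (nat_lit 12) (.e (nat_lit 57574) (nat_lit 55) (.e (nat_lit 778466) (nat_lit 11) (.e (nat_lit 24608) (nat_lit 3) .nil)))) (.g (nat_lit 0) (.e (nat_lit 411681) (nat_lit 0) .nil) .nil)))) (.nd (nat_lit 9) 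
(.lf (nat_lit 596300) (.g (nat_lit 2592) (.e (nat_lit 573469) (nat_lit 11) (.e (nat_lit 16471) (nat_lit 14) (.e (nat_lit 491537) (nat_lit 2) (.e (nat_lit 90170) (nat_lit 13) (.e (nat_lit 172106) (nat_lit 10) .nil))))) (.g (nat_lit 0) (.e (nat_lit 411173) (nat_lit 0) .nil) .nil))) 
(.lf (nat_lit 596812) (.g (nat_lit 4496) (.e (nat_lit 573480) (nat_lit 13) (.e (nat_lit 65610) (nat_lit 10) (.e (nat_lit 344117) (nat_lit 21) (.e (nat_lit 516179) (nat_lit 15) (.e (nat_lit 475199) (nat_lit 40) (.e (nat_lit 704589) (nat_lit 3) (.e (nat_lit 163975) (nat_lit 30) .nil))))))) (.g (nat_lit 1) (.e (nat_lit 412175) (nat_lit 0) .nil) .nil))))) (.nd (nat_lit 8) (.nd (nat_lit 9) 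
(.lf (nat_lit 596172) (.g (nat_lit 3698) (.e (nat_lit 573456) (nat_lit 9) (.e (nat_lit 430) (nat_lit 32) (.e (nat_lit 426011) (nat_lit 0) (.e (nat_lit 7490) (nat_lit 402) (.e (nat_lit 1256) (nat_lit 92) (.e (nat_lit 98373) (nat_lit 29) (.e (nat_lit 450587) (nat_lit 10) .nil))))))) (.g (nat_lit 1) (.e (nat_lit 411007) (nat_lit 0) .nil) .nil))) 
(.lf (nat_lit 596684) (.g (nat_lit 2064) (.e (nat_lit 573477) (nat_lit 12) (.e (nat_lit 57750) (nat_lit 201) (.e (nat_lit 3090) (nat_lit 191) (.e (nat_lit 483364) (nat_lit 18) (.e (nat_lit 57663) (nat_lit 152) .nil))))) (.g (nat_lit 0) (.e (nat_lit 411905) (nat_lit 0) .nil) .nil)))) (.nd (nat_lit 9) 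
(.lf (nat_lit 596428) (.g (nat_lit 534) (.e (nat_lit 573471) (nat_lit 11) (.e (nat_lit 16470) (nat_lit 14) (.e (nat_lit 491536) (nat_lit 2) .nil))) (.g (nat_lit 0) (.e (nat_lit 411477) (nat_lit 0) .nil) .nil))) 
(.lf (nat_lit 596940) (.g (nat_lit 2260) (.e (nat_lit 573481) (nat_lit 13) (.e (nat_lit 65604) (nat_lit 9) (.e (nat_lit 336013) (nat_lit 2) (.e (nat_lit 90170) (nat_lit 13) (.e (nat_lit 172068) (nat_lit 4) (.e (nat_lit 229665) (nat_lit 240) (.e (nat_lit 2604) (nat_lit 163) (.e (nat_lit 163975) (nat_lit 30) .nil)))))))) (.g (nat_lit 1) (.e (nat_lit 412389) (nat_lit 0) .nil) .nil))))))) 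
(.nd (nat_lit 6) (.nd (nat_lit 7) (.nd (nat_lit 8) (.nd (nat_lit 9) 
(.lf (nat_lit 596012) (.g (nat_lit 1525) (.e (nat_lit 573444) (nat_lit 0) (.e (nat_lit 3011) (nat_lit 187) (.e (nat_lit 450605) (nat_lit 27) (.e (nat_lit 745476) (nat_lit 0) (.e (nat_lit 1586) (nat_lit 111) (.e (nat_lit 368384) (nat_lit 10) .nil)))))) (.g (nat_lit 1) (.e (nat_lit 410579) (nat_lit 0) .nil) .nil))) 
(.lf (nat_lit 596524) (.g (nat_lit 3351) (.e (nat_lit 573475) (nat_lit 12) (.e (nat_lit 57503) (nat_lit 38) (.e (nat_lit 638996) (nat_lit 7) (.e (nat_lit 163978) (nat_lit 30) (.e (nat_lit 573487) (nat_lit 14) (.e (nat_lit 73753) (nat_lit 8) (.e (nat_lit 557103) (nat_lit 14) (.e (nat_lit 180250) (nat_lit 10) .nil)))))))) (.g (nat_lit 1) (.e (nat_lit 411636) (nat_lit 0) .nil) .nil)))) 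
(.nd (nat_lit 9) 
(.lf (nat_lit 596268) (.g (nat_lit 393) (.e (nat_lit 573469) (nat_lit 11) (.e (nat_lit 16438) (nat_lit 9) (.e (nat_lit 426402) (nat_lit 15) .nil))) (.g (nat_lit 0) (.e (nat_lit 411120) (nat_lit 0) .nil) .nil))) 
(.lf (nat_lit 596780) (.g (nat_lit 2101) (.e (nat_lit 573479) (nat_lit 13) (.e (nat_lit 65619) (nat_lit 10) (.e (nat_lit 344117) (nat_lit 21) (.e (nat_lit 516160) (nat_lit 10) (.e (nat_lit 434209) (nat_lit 18) (.e (nat_lit 5548) (nat_lit 306) (.e (nat_lit 2601) (nat_lit 163) (.e (nat_lit 163974) (nat_lit 30) .nil)))))))) (.g (nat_lit 1) (.e (nat_lit 412114) (nat_lit 0) .nil) .nil))))) 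
(.nd (nat_lit 8) (.nd (nat_lit 9) 
(.lf (nat_lit 596140) (.g (nat_lit 4456) (.e (nat_lit 573452) (nat_lit 9) (.e (nat_lit 395) (nat_lit 32) (.e (nat_lit 426316) (nat_lit 12) (.e (nat_lit 475185) (nat_lit 29) (.e (nat_lit 557107) (nat_lit 15) (.e (nat_lit 188440) (nat_lit 20) (.e (nat_lit 3307) (nat_lit 202) .nil))))))) (.g (nat_lit 1) (.e (nat_lit 410963) (nat_lit 0) .nil) .nil))) 
(.lf (nat_lit 596652) (.g (nat_lit 2461) (.e (nat_lit 573477) (nat_lit 12) (.e (nat_lit 57575) (nat_lit 55) (.e (nat_lit 778466) (nat_lit 11) (.e (nat_lit 24576) (nat_lit 0) (.e (nat_lit 1810) (nat_lit 120) .nil))))) (.g (nat_lit 0) (.e (nat_lit 411844) (nat_lit 0) .nil) .nil)))) (.nd (nat_lit 9) 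
(.lf (nat_lit 596396) (.g (nat_lit 3454) (.e (nat_lit 573471) (nat_lit 11) (.e (nat_lit 16447) (nat_lit 10) (.e (nat_lit 434231) (nat_lit 23) (.e (nat_lit 532569) (nat_lit 16) (.e (nat_lit 401448) (nat_lit 10) (.e (nat_lit 434245) (nat_lit 28) .nil)))))) (.g (nat_lit 1) (.e (nat_lit 411380) (nat_lit 0) .nil) .nil))) 
(.lf (nat_lit 596908) (.g (nat_lit 1885) (.e (nat_lit 573481) (nat_lit 13) (.e (nat_lit 65604) (nat_lit 9) (.e (nat_lit 336013) (nat_lit 2) (.e (nat_lit 90170) (nat_lit 13) (.e (nat_lit 172042) (nat_lit 0) (.e (nat_lit 3403) (nat_lit 212) (.e (nat_lit 655373) (nat_lit 3) (.e (nat_lit 163976) (nat_lit 30) .nil)))))))) (.g (nat_lit 1) (.e (nat_lit 412342) (nat_lit 0) .nil) .nil)))))) 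
(.nd (nat_lit 7) (.nd (nat_lit 8) (.nd (nat_lit 9) 
(.lf (nat_lit 596076) (.g (nat_lit 2088) (.e (nat_lit 573449) (nat_lit 9) (.e (nat_lit 359) (nat_lit 30) (.e (nat_lit 409602) (nat_lit 0) (.e (nat_lit 5293) (nat_lit 298) (.e (nat_lit 1232) (nat_lit 91) .nil))))) (.g (nat_lit 0) (.e (nat_lit 410797) (nat_lit 0) .nil) .nil))) 
(.lf (nat_lit 596588) (.g (nat_lit 3074) (.e (nat_lit 573477) (nat_lit 12) (.e (nat_lit 57574) (nat_lit 55) (.e (nat_lit 778465) (nat_lit 11) (.e (nat_lit 24604) (nat_lit 2) (.e (nat_lit 90176) (nat_lit 15) (.e (nat_lit 188439) (nat_lit 20) (.e (nat_lit 3296) (nat_lit 202) .nil))))))) (.g (nat_lit 1) (.e (nat_lit 411760) (nat_lit 0) .nil) .nil)))) (.nd (nat_lit 9) 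
(.lf (nat_lit 596332) (.g (nat_lit 2199) (.e (nat_lit 573470) (nat_lit 11) (.e (nat_lit 16459) (nat_lit 12) (.e (nat_lit 475185) (nat_lit 29) (.e (nat_lit 557098) (nat_lit 13) .nil)))) (.g (nat_lit 0) (.e (nat_lit 411235) (nat_lit 0) .nil) .nil))) 
(.lf (nat_lit 596844) (.g (nat_lit 3002) (.e (nat_lit 573480) (nat_lit 13) (.e (nat_lit 65630) (nat_lit 14) (.e (nat_lit 401428) (nat_lit 3) (.e (nat_lit 204877) (nat_lit 31) (.e (nat_lit 376835) (nat_lit 0) (.e (nat_lit 3304) (nat_lit 202) .nil)))))) (.g (nat_lit 1) (.e (nat_lit 412207) (nat_lit 0) .nil) .nil))))) (.nd (nat_lit 8) (.nd (nat_lit 9) 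
(.lf (nat_lit 596204) (.g (nat_lit 3352) (.e (nat_lit 573456) (nat_lit 9) (.e (nat_lit 1669) (nat_lit 116) (.e (nat_lit 401457) (nat_lit 13) (.e (nat_lit 483363) (nat_lit 18) (.e (nat_lit 57692) (nat_lit 156) .nil))))) (.g (nat_lit 0) (.e (nat_lit 411041) (nat_lit 0) .nil) .nil))) 
(.lf (nat_lit 596716) (.g (nat_lit 1915) (.e (nat_lit 573478) (nat_lit 12) (.e (nat_lit 57574) (nat_lit 55) (.e (nat_lit 778466) (nat_lit 11) (.e (nat_lit 24584) (nat_lit 0) (.e (nat_lit 7936) (nat_lit 120) .nil))))) (.g (nat_lit 0) (.e (nat_lit 411972) (nat_lit 0) .nil) .nil)))) (.nd (nat_lit 9) 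
(.lf (nat_lit 596460) (.g (nat_lit 2156) (.e (nat_lit 573471) (nat_lit 11) (.e (nat_lit 16473) (nat_lit 14) (.e (nat_lit 491539) (nat_lit 3) (.e (nat_lit 98358) (nat_lit 26) (.e (nat_lit 426294) (nat_lit 11) .nil))))) (.g (nat_lit 0) (.e (nat_lit 411513) (nat_lit 0) .nil) .nil))) 
(.lf (nat_lit 596972) (.g (nat_lit 2454) (.e (nat_lit 573481) (nat_lit 13) (.e (nat_lit 65604) (nat_lit 9) (.e (nat_lit 336028) (nat_lit 3) (.e (nat_lit 98359) (nat_lit 26) (.e (nat_lit 426410) (nat_lit 15) (.e (nat_lit 2057) (nat_lit 142) (.e (nat_lit 704589) (nat_lit 3) (.e (nat_lit 163976) (nat_lit 30) .nil)))))))) (.g (nat_lit 1) (.e (nat_lit 412477) (nat_lit 0) .nil) .nil)))))))) 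
(.nd (nat_lit 5) (.nd (nat_lit 6) (.nd (nat_lit 7) (.nd (nat_lit 8) (.nd (nat_lit 9) 
(.lf (nat_lit 595996) (.g (nat_lit 1985) (.e (nat_lit 548890) (nat_lit 10) (.e (nat_lit 73781) (nat_lit 32) (.e (nat_lit 2682) (nat_lit 168) (.e (nat_lit 204854) (nat_lit 26) (.e (nat_lit 336182) (nat_lit 11) (.e (nat_lit 368680) (nat_lit 25) .nil)))))) (.g (nat_lit 1) (.e (nat_lit 410516) (nat_lit 0) .nil) .nil))) 
(.lf (nat_lit 596508) (.g (nat_lit 3173) (.e (nat_lit 573474) (nat_lit 12) (.e (nat_lit 57574) (nat_lit 55) (.e (nat_lit 778362) (nat_lit 9) (.e (nat_lit 297) (nat_lit 22) (.e (nat_lit 344111) (nat_lit 19) .nil))))) (.g (nat_lit 0) (.e (nat_lit 411589) (nat_lit 0) .nil) .nil)))) (.nd (nat_lit 9) 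
(.lf (nat_lit 596252) (.g (nat_lit 1350) (.e (nat_lit 581376) (nat_lit 9) (.e (nat_lit 411) (nat_lit 32) (.e (nat_lit 426340) (nat_lit 14) (.e (nat_lit 491539) (nat_lit 3) (.e (nat_lit 98373) (nat_lit 29) .nil))))) (.g (nat_lit 0) (.e (nat_lit 411098) (nat_lit 0) .nil) .nil))) 
(.lf (nat_lit 596764) (.g (nat_lit 3769) (.e (nat_lit 573479) (nat_lit 13) (.e (nat_lit 65619) (nat_lit 10) (.e (nat_lit 344117) (nat_lit 21) (.e (nat_lit 516151) (nat_lit 9) (.e (nat_lit 426038) (nat_lit 0) .nil))))) (.g (nat_lit 0) (.e (nat_lit 412098) (nat_lit 0) .nil) .nil))))) (.nd (nat_lit 8) (.nd (nat_lit 9) 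
(.lf (nat_lit 596124) (.g (nat_lit 3553) (.e (nat_lit 573451) (nat_lit 9) (.e (nat_lit 430) (nat_lit 32) (.e (nat_lit 426344) (nat_lit 14) (.e (nat_lit 491538) (nat_lit 3) (.e (nat_lit 98359) (nat_lit 26) (.e (nat_lit 426286) (nat_lit 10) (.e (nat_lit 434245) (nat_lit 28) .nil))))))) (.g (nat_lit 1) (.e (nat_lit 410943) (nat_lit 0) .nil) .nil))) 
(.lf (nat_lit 596636) (.g (nat_lit 483) (.e (nat_lit 573477) (nat_lit 12) (.e (nat_lit 57575) (nat_lit 55) (.e (nat_lit 778463) (nat_lit 11) .nil))) (.g (nat_lit 0) (.e (nat_lit 411827) (nat_lit 0) .nil) .nil)))) (.nd (nat_lit 9) 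
(.lf (nat_lit 596380) (.g (nat_lit 955) (.e (nat_lit 573471) (nat_lit 11) (.e (nat_lit 16425) (nat_lit 7) (.e (nat_lit 409617) (nat_lit 10) (.e (nat_lit 7936) (nat_lit 43) .nil)))) (.g (nat_lit 0) (.e (nat_lit 411306) (nat_lit 0) .nil) .nil))) 
(.lf (nat_lit 596892) (.g (nat_lit 3774) (.e (nat_lit 573481) (nat_lit 13) (.e (nat_lit 65604) (nat_lit 9) (.e (nat_lit 336013) (nat_lit 2) (.e (nat_lit 90169) (nat_lit 13) (.e (nat_lit 172133) (nat_lit 15) .nil))))) (.g (nat_lit 0) (.e (nat_lit 412323) (nat_lit 0) .nil) .nil)))))) (.nd (nat_lit 7) (.nd (nat_lit 8) (.nd (nat_lit 9) 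
(.lf (nat_lit 596060) (.g (nat_lit 258) (.e (nat_lit 581376) (nat_lit 5) (.e (nat_lit 180285) (nat_lit 45) (.e (nat_lit 2577) (nat_lit 161) .nil))) (.g (nat_lit 0) (.e (nat_lit 410709) (nat_lit 0) .nil) .nil))) 
(.lf (nat_lit 596572) (.g (nat_lit 3510) (.e (nat_lit 573477) (nat_lit 12) (.e (nat_lit 57574) (nat_lit 55) (.e (nat_lit 778362) (nat_lit 9) (.e (nat_lit 297) (nat_lit 22) (.e (nat_lit 344110) (nat_lit 19) .nil))))) (.g (nat_lit 0) (.e (nat_lit 411741) (nat_lit 0) .nil) .nil)))) (.nd (nat_lit 9) 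
(.lf (nat_lit 596316) (.g (nat_lit 576) (.e (nat_lit 573470) (nat_lit 11) (.e (nat_lit 16392) (nat_lit 0) (.e (nat_lit 6989) (nat_lit 377) .nil))) (.g (nat_lit 0) (.e (nat_lit 411191) (nat_lit 0) .nil) .nil))) 
(.lf (nat_lit 596828) (.g (nat_lit 2221) (.e (nat_lit 573480) (nat_lit 13) (.e (nat_lit 65630) (nat_lit 14) (.e (nat_lit 401425) (nat_lit 2) (.e (nat_lit 196681) (nat_lit 17) (.e (nat_lit 131109) (nat_lit 9) .nil))))) (.g (nat_lit 0) (.e (nat_lit 412191) (nat_lit 0) .nil) .nil))))) (.nd (nat_lit 8) (.nd (nat_lit 9) 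
(.lf (nat_lit 596188) (.g (nat_lit 2543) (.e (nat_lit 573456) (nat_lit 9) (.e (nat_lit 430) (nat_lit 32) (.e (nat_lit 426341) (nat_lit 14) (.e (nat_lit 491540) (nat_lit 3) (.e (nat_lit 98372) (nat_lit 29) (.e (nat_lit 450586) (nat_lit 10) .nil)))))) (.g (nat_lit 1) (.e (nat_lit 411025) (nat_lit 0) .nil) .nil))) 
(.lf (nat_lit 596700) (.g (nat_lit 475) (.e (nat_lit 573478) (nat_lit 12) (.e (nat_lit 57574) (nat_lit 55) (.e (nat_lit 778464) (nat_lit 11) .nil))) (.g (nat_lit 0) (.e (nat_lit 411949) (nat_lit 0) .nil) .nil)))) (.nd (nat_lit 9) 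
(.lf (nat_lit 596444) (.g (nat_lit 3475) (.e (nat_lit 573471) (nat_lit 11) (.e (nat_lit 16471) (nat_lit 14) (.e (nat_lit 491535) (nat_lit 2) (.e (nat_lit 90170) (nat_lit 13) (.e (nat_lit 172113) (nat_lit 10) (.e (nat_lit 434245) (nat_lit 28) .nil)))))) (.g (nat_lit 1) (.e (nat_lit 411494) (nat_lit 0) .nil) .nil))) 
(.lf (nat_lit 596956) (.g (nat_lit 348) (.e (nat_lit 573481) (nat_lit 13) (.e (nat_lit 65604) (nat_lit 9) (.e (nat_lit 336028) (nat_lit 3) .nil))) (.g (nat_lit 0) (.e (nat_lit 412416) (nat_lit 0) .nil) .nil))))))) (.nd (nat_lit 6) (.nd (nat_lit 7) (.nd (nat_lit 8) (.nd (nat_lit 9) 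
(.lf (nat_lit 596028) (.g (nat_lit 1010) (.e (nat_lit 573445) (nat_lit 0) (.e (nat_lit 3011) (nat_lit 187) (.e (nat_lit 450605) (nat_lit 27) (.e (nat_lit 745475) (nat_lit 0) (.e (nat_lit 1595) (nat_lit 111) (.e (nat_lit 368384) (nat_lit 10) .nil)))))) (.g (nat_lit 1) (.e (nat_lit 410614) (nat_lit 0) .nil) .nil))) 
(.lf (nat_lit 596540) (.g (nat_lit 1666) (.e (nat_lit 573475) (nat_lit 12) (.e (nat_lit 57574) (nat_lit 55) (.e (nat_lit 778464) (nat_lit 11) (.e (nat_lit 24580) (nat_lit 0) (.e (nat_lit 1808) (nat_lit 120) .nil))))) (.g (nat_lit 0) (.e (nat_lit 411656) (nat_lit 0) .nil) .nil)))) (.nd (nat_lit 9) 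
(.lf (nat_lit 596284) (.g (nat_lit 1897) (.e (nat_lit 573469) (nat_lit 11) (.e (nat_lit 16461) (nat_lit 12) (.e (nat_lit 475183) (nat_lit 29) (.e (nat_lit 557097) (nat_lit 13) (.e (nat_lit 172105) (nat_lit 10) .nil))))) (.g (nat_lit 0) (.e (nat_lit 411157) (nat_lit 0) .nil) .nil))) 
(.lf (nat_lit 596796) (.g (nat_lit 503) (.e (nat_lit 573480) (nat_lit 13) (.e (nat_lit 65568) (nat_lit 2) (.e (nat_lit 98048) (nat_lit 2) .nil))) (.g (nat_lit 0) (.e (nat_lit 412140) (nat_lit 0) .nil) .nil))))) (.nd (nat_lit 8) (.nd (nat_lit 9) 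
(.lf (nat_lit 596156) (.g (nat_lit 1708) (.e (nat_lit 573455) (nat_lit 9) (.e (nat_lit 430) (nat_lit 32) (.e (nat_lit 426308) (nat_lit 12) (.e (nat_lit 475183) (nat_lit 29) (.e (nat_lit 557097) (nat_lit 13) .nil))))) (.g (nat_lit 0) (.e (nat_lit 410990) (nat_lit 0) .nil) .nil))) 
(.lf (nat_lit 596668) (.g (nat_lit 2348) (.e (nat_lit 573477) (nat_lit 12) (.e (nat_lit 57575) (nat_lit 55) (.e (nat_lit 778466) (nat_lit 11) (.e (nat_lit 24606) (nat_lit 3) (.e (nat_lit 98373) (nat_lit 29) .nil))))) (.g (nat_lit 0) (.e (nat_lit 411862) (nat_lit 0) .nil) .nil)))) (.nd (nat_lit 9) 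
(.lf (nat_lit 596412) (.g (nat_lit 2233) (.e (nat_lit 573471) (nat_lit 11) (.e (nat_lit 16458) (nat_lit 12) (.e (nat_lit 475183) (nat_lit 29) (.e (nat_lit 557098) (nat_lit 13) (.e (nat_lit 172105) (nat_lit 10) .nil))))) (.g (nat_lit 0) (.e (nat_lit 411456) (nat_lit 0) .nil) .nil))) 
(.lf (nat_lit 596924) (.g (nat_lit 3485) (.e (nat_lit 573481) (nat_lit 13) (.e (nat_lit 65604) (nat_lit 9) (.e (nat_lit 336013) (nat_lit 2) (.e (nat_lit 90170) (nat_lit 13) (.e (nat_lit 172059) (nat_lit 1) (.e (nat_lit 164345) (nat_lit 240) (.e (nat_lit 2599) (nat_lit 163) (.e (nat_lit 163976) (nat_lit 30) .nil)))))))) (.g (nat_lit 1) (.e (nat_lit 412365) (nat_lit 0) .nil) .nil)))))) 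
(.nd (nat_lit 7) (.nd (nat_lit 8) (.nd (nat_lit 9) 
(.lf (nat_lit 596092) (.g (nat_lit 5340) (.e (nat_lit 573450) (nat_lit 9) (.e (nat_lit 375) (nat_lit 32) (.e (nat_lit 426338) (nat_lit 14) (.e (nat_lit 491537) (nat_lit 2) (.e (nat_lit 90170) (nat_lit 13) (.e (nat_lit 172106) (nat_lit 10) (.e (nat_lit 434244) (nat_lit 28) .nil))))))) (.g (nat_lit 1) (.e (nat_lit 410854) (nat_lit 0) .nil) .nil))) 
(.lf (nat_lit 596604) (.g (nat_lit 2252) (.e (nat_lit 573477) (nat_lit 12) (.e (nat_lit 57574) (nat_lit 55) (.e (nat_lit 778466) (nat_lit 11) (.e (nat_lit 24582) (nat_lit 0) (.e (nat_lit 1809) (nat_lit 120) .nil))))) (.g (nat_lit 0) (.e (nat_lit 411777) (nat_lit 0) .nil) .nil)))) (.nd (nat_lit 9) 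
(.lf (nat_lit 596348) (.g (nat_lit 2040) (.e (nat_lit 573470) (nat_lit 11) (.e (nat_lit 16471) (nat_lit 14) (.e (nat_lit 491526) (nat_lit 0) (.e (nat_lit 1788) (nat_lit 119) (.e (nat_lit 516165) (nat_lit 12) .nil))))) (.g (nat_lit 0) (.e (nat_lit 411253) (nat_lit 0) .nil) .nil))) 
(.lf (nat_lit 596860) (.g (nat_lit 2082) (.e (nat_lit 573481) (nat_lit 13) (.e (nat_lit 65598) (nat_lit 9) (.e (nat_lit 336013) (nat_lit 2) (.e (nat_lit 90134) (nat_lit 9) .nil)))) (.g (nat_lit 0) (.e (nat_lit 412277) (nat_lit 0) .nil) .nil))))) (.nd (nat_lit 8) (.nd (nat_lit 9) 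
(.lf (nat_lit 596220) (.g (nat_lit 2590) (.e (nat_lit 573456) (nat_lit 9) (.e (nat_lit 1669) (nat_lit 116) (.e (nat_lit 401459) (nat_lit 13) (.e (nat_lit 483363) (nat_lit 18) (.e (nat_lit 57667) (nat_lit 152) .nil))))) (.g (nat_lit 0) (.e (nat_lit 411057) (nat_lit 0) .nil) .nil))) 
(.lf (nat_lit 596732) (.g (nat_lit 3248) (.e (nat_lit 573478) (nat_lit 12) (.e (nat_lit 57574) (nat_lit 55) (.e (nat_lit 778466) (nat_lit 11) (.e (nat_lit 24608) (nat_lit 3) (.e (nat_lit 98362) (nat_lit 26) .nil))))) (.g (nat_lit 0) (.e (nat_lit 411998) (nat_lit 0) .nil) .nil)))) (.nd (nat_lit 9) 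
(.lf (nat_lit 596476) (.g (nat_lit 2697) (.e (nat_lit 573473) (nat_lit 12) (.e (nat_lit 57508) (nat_lit 39) (.e (nat_lit 647195) (nat_lit 9) (.e (nat_lit 426) (nat_lit 32) (.e (nat_lit 426011) (nat_lit 0) (.e (nat_lit 3548) (nat_lit 219) (.e (nat_lit 712753) (nat_lit 30) (.e (nat_lit 450586) (nat_lit 10) .nil)))))))) (.g (nat_lit 1) (.e (nat_lit 411532) (nat_lit 0) .nil) .nil))) 
(.lf (nat_lit 596988) (.g (nat_lit 2320) (.e (nat_lit 573481) (nat_lit 13) (.e (nat_lit 65604) (nat_lit 9) (.e (nat_lit 336028) (nat_lit 3) (.e (nat_lit 98367) (nat_lit 27) (.e (nat_lit 434272) (nat_lit 38) (.e (nat_lit 655375) (nat_lit 3) (.e (nat_lit 163973) (nat_lit 30) .nil))))))) (.g (nat_lit 1) (.e (nat_lit 412510) (nat_lit 0) .nil) .nil))))))))))) 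
(.nd (nat_lit 2) (.nd (nat_lit 3) (.nd (nat_lit 4) (.nd (nat_lit 5) (.nd (nat_lit 6) 
(.nd (nat_lit 7) (.nd (nat_lit 8) (.nd (nat_lit 9) 
(.lf (nat_lit 595970) (.g (nat_lit 2481) (.e (nat_lit 548913) (nat_lit 18) (.e (nat_lit 172126) (nat_lit 14) (.e (nat_lit 491537) (nat_lit 2) (.e (nat_lit 90175) (nat_lit 15) .nil)))) (.g (nat_lit 0) (.e (nat_lit 410316) (nat_lit 0) .nil) .nil))) 
(.lf (nat_lit 596482) (.g (nat_lit 1606) (.e (nat_lit 573473) (nat_lit 12) (.e (nat_lit 57575) (nat_lit 55) (.e (nat_lit 778465) (nat_lit 11) (.e (nat_lit 24601) (nat_lit 2) .nil)))) (.g (nat_lit 0) (.e (nat_lit 411538) (nat_lit 0) .nil) .nil)))) (.nd (nat_lit 9) 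
(.lf (nat_lit 596226) (.g (nat_lit 2444) (.e (nat_lit 573456) (nat_lit 9) (.e (nat_lit 1669) (nat_lit 116) (.e (nat_lit 401459) (nat_lit 13) (.e (nat_lit 483364) (nat_lit 18) (.e (nat_lit 57693) (nat_lit 157) .nil))))) (.g (nat_lit 0) (.e (nat_lit 411063) (nat_lit 0) .nil) .nil))) 
(.lf (nat_lit 596738) (.g (nat_lit 3878) (.e (nat_lit 573479) (nat_lit 13) (.e (nat_lit 65604) (nat_lit 9) (.e (nat_lit 336013) (nat_lit 2) (.e (nat_lit 90172) (nat_lit 14) .nil)))) (.g (nat_lit 0) (.e (nat_lit 412072) (nat_lit 0) .nil) .nil))))) (.nd (nat_lit 8) (.nd (nat_lit 9) 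
(.lf (nat_lit 596098) (.g (nat_lit 2156) (.e (nat_lit 573450) (nat_lit 9) (.e (nat_lit 436) (nat_lit 32) (.e (nat_lit 426200) (nat_lit 9) (.e (nat_lit 426354) (nat_lit 15) (.e (nat_lit 1860) (nat_lit 124) .nil))))) (.g (nat_lit 0) (.e (nat_lit 410860) (nat_lit 0) .nil) .nil))) 
(.lf (nat_lit 596610) (.g (nat_lit 1290) (.e (nat_lit 573477) (nat_lit 12) (.e (nat_lit 57574) (nat_lit 55) (.e (nat_lit 778466) (nat_lit 11) (.e (nat_lit 24603) (nat_lit 2) .nil)))) (.g (nat_lit 0) (.e (nat_lit 411786) (nat_lit 0) .nil) .nil)))) (.nd (nat_lit 9) 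
(.lf (nat_lit 596354) (.g (nat_lit 4437) (.e (nat_lit 573470) (nat_lit 11) (.e (nat_lit 16472) (nat_lit 14) (.e (nat_lit 491537) (nat_lit 2) (.e (nat_lit 90170) (nat_lit 13) (.e (nat_lit 172113) (nat_lit 10) (.e (nat_lit 434248) (nat_lit 28) .nil)))))) (.g (nat_lit 1) (.e (nat_lit 411259) (nat_lit 0) .nil) .nil))) 
(.lf (nat_lit 596866) (.g (nat_lit 3666) (.e (nat_lit 573481) (nat_lit 13) (.e (nat_lit 65604) (nat_lit 9) (.e (nat_lit 336013) (nat_lit 2) (.e (nat_lit 90121) (nat_lit 9) .nil)))) (.g (nat_lit 0) (.e (nat_lit 412283) (nat_lit 0) .nil) .nil)))))) (.nd (nat_lit 7) (.nd (nat_lit 8) (.nd (nat_lit 9) 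
(.lf (nat_lit 596034) (.g (nat_lit 1401) (.e (nat_lit 573445) (nat_lit 0) (.e (nat_lit 3011) (nat_lit 187) (.e (nat_lit 450605) (nat_lit 27) (.e (nat_lit 745476) (nat_lit 0) (.e (nat_lit 1595) (nat_lit 111) (.e (nat_lit 368384) (nat_lit 10) .nil)))))) (.g (nat_lit 1) (.e (nat_lit 410620) (nat_lit 0) .nil) .nil))) 
(.lf (nat_lit 596546) (.g (nat_lit 397) (.e (nat_lit 573475) (nat_lit 12) (.e (nat_lit 57574) (nat_lit 55) (.e (nat_lit 778466) (nat_lit 11) .nil))) (.g (nat_lit 0) (.e (nat_lit 411663) (nat_lit 0) .nil) .nil)))) (.nd (nat_lit 9) 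
(.lf (nat_lit 596290) (.g (nat_lit 2841) (.e (nat_lit 573469) (nat_lit 11) (.e (nat_lit 16469) (nat_lit 14) (.e (nat_lit 491537) (nat_lit 2) (.e (nat_lit 90170) (nat_lit 13) (.e (nat_lit 172113) (nat_lit 10) .nil))))) (.g (nat_lit 0) (.e (nat_lit 411163) (nat_lit 0) .nil) .nil))) 
(.lf (nat_lit 596802) (.g (nat_lit 692) (.e (nat_lit 573480) (nat_lit 13) (.e (nat_lit 65604) (nat_lit 9) (.e (nat_lit 336013) (nat_lit 2) .nil))) (.g (nat_lit 0) (.e (nat_lit 412165) (nat_lit 0) .nil) .nil))))) (.nd (nat_lit 8) (.nd (nat_lit 9) 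
(.lf (nat_lit 596162) (.g (nat_lit 1517) (.e (nat_lit 573456) (nat_lit 9) (.e (nat_lit 392) (nat_lit 32) (.e (nat_lit 426172) (nat_lit 7) (.e (nat_lit 409616) (nat_lit 10) (.e (nat_lit 7936) (nat_lit 43) .nil))))) (.g (nat_lit 0) (.e (nat_lit 410997) (nat_lit 0) .nil) .nil))) 
(.lf (nat_lit 596674) (.g (nat_lit 3032) (.e (nat_lit 573477) (nat_lit 12) (.e (nat_lit 57575) (nat_lit 55) (.e (nat_lit 778466) (nat_lit 11) (.e (nat_lit 24608) (nat_lit 3) (.e (nat_lit 98374) (nat_lit 29) .nil))))) (.g (nat_lit 0) (.e (nat_lit 411868) (nat_lit 0) .nil) .nil)))) (.nd (nat_lit 9) 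
(.lf (nat_lit 596418) (.g (nat_lit 3144) (.e (nat_lit 573471) (nat_lit 11) (.e (nat_lit 16459) (nat_lit 12) (.e (nat_lit 475185) (nat_lit 29) (.e (nat_lit 557100) (nat_lit 13) (.e (nat_lit 172113) (nat_lit 10) (.e (nat_lit 434248) (nat_lit 28) .nil)))))) (.g (nat_lit 1) (.e (nat_lit 411466) (nat_lit 0) .nil) .nil))) 
(.lf (nat_lit 596930) (.g (nat_lit 4193) (.e (nat_lit 573481) (nat_lit 13) (.e (nat_lit 65604) (nat_lit 9) (.e (nat_lit 336013) (nat_lit 2) (.e (nat_lit 90170) (nat_lit 13) (.e (nat_lit 172059) (nat_lit 1) (.e (nat_lit 164348) (nat_lit 240) (.e (nat_lit 2601) (nat_lit 163) (.e (nat_lit 163975) (nat_lit 30) .nil)))))))) (.g (nat_lit 1) (.e (nat_lit 412373) (nat_lit 0) .nil) .nil))))))) 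
(.nd (nat_lit 6) (.nd (nat_lit 7) (.nd (nat_lit 8) (.nd (nat_lit 9) 
(.lf (nat_lit 596002) (.g (nat_lit 1936) (.e (nat_lit 548890) (nat_lit 10) (.e (nat_lit 73782) (nat_lit 32) (.e (nat_lit 2682) (nat_lit 168) (.e (nat_lit 204869) (nat_lit 29) (.e (nat_lit 368384) (nat_lit 7) .nil))))) (.g (nat_lit 1) (.e (nat_lit 410522) (nat_lit 0) .nil) .nil))) 
(.lf (nat_lit 596514) (.g (nat_lit 5112) (.e (nat_lit 573474) (nat_lit 12) (.e (nat_lit 57574) (nat_lit 55) (.e (nat_lit 778466) (nat_lit 11) (.e (nat_lit 24604) (nat_lit 2) (.e (nat_lit 90170) (nat_lit 13) (.e (nat_lit 172113) (nat_lit 10) (.e (nat_lit 434245) (nat_lit 28) .nil))))))) (.g (nat_lit 1) (.e (nat_lit 411597) (nat_lit 0) .nil) .nil)))) (.nd (nat_lit 9) 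
(.lf (nat_lit 596258) (.g (nat_lit 805) (.e (nat_lit 573469) (nat_lit 11) (.e (nat_lit 16392) (nat_lit 0) (.e (nat_lit 6989) (nat_lit 377) .nil))) (.g (nat_lit 0) (.e (nat_lit 411106) (nat_lit 0) .nil) .nil))) 
(.lf (nat_lit 596770) (.g (nat_lit 1877) (.e (nat_lit 573479) (nat_lit 13) (.e (nat_lit 65619) (nat_lit 10) (.e (nat_lit 344117) (nat_lit 21) (.e (nat_lit 516151) (nat_lit 9) (.e (nat_lit 426097) (nat_lit 1) .nil))))) (.g (nat_lit 0) (.e (nat_lit 412104) (nat_lit 0) .nil) .nil))))) (.nd (nat_lit 8) (.nd (nat_lit 9) 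
(.lf (nat_lit 596130) (.g (nat_lit 1903) (.e (nat_lit 573451) (nat_lit 9) (.e (nat_lit 1401) (nat_lit 106) (.e (nat_lit 319531) (nat_lit 16) (.e (nat_lit 286770) (nat_lit 28) (.e (nat_lit 434212) (nat_lit 18) .nil))))) (.g (nat_lit 0) (.e (nat_lit 410949) (nat_lit 0) .nil) .nil))) 
(.lf (nat_lit 596642) (.g (nat_lit 1349) (.e (nat_lit 573477) (nat_lit 12) (.e (nat_lit 57575) (nat_lit 55) (.e (nat_lit 778465) (nat_lit 11) (.e (nat_lit 24604) (nat_lit 2) .nil)))) (.g (nat_lit 0) (.e (nat_lit 411834) (nat_lit 0) .nil) .nil)))) (.nd (nat_lit 9) 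
(.lf (nat_lit 596386) (.g (nat_lit 2564) (.e (nat_lit 573471) (nat_lit 11) (.e (nat_lit 16439) (nat_lit 9) (.e (nat_lit 426132) (nat_lit 3) (.e (nat_lit 204815) (nat_lit 17) (.e (nat_lit 6724) (nat_lit 362) (.e (nat_lit 180250) (nat_lit 10) .nil)))))) (.g (nat_lit 1) (.e (nat_lit 411356) (nat_lit 0) .nil) .nil))) 
(.lf (nat_lit 596898) (.g (nat_lit 2384) (.e (nat_lit 573481) (nat_lit 13) (.e (nat_lit 65604) (nat_lit 9) (.e (nat_lit 336013) (nat_lit 2) (.e (nat_lit 90170) (nat_lit 13) (.e (nat_lit 172033) (nat_lit 0) (.e (nat_lit 3399) (nat_lit 211) (.e (nat_lit 647180) (nat_lit 3) (.e (nat_lit 163976) (nat_lit 30) .nil)))))))) (.g (nat_lit 1) (.e (nat_lit 412329) (nat_lit 0) .nil) .nil)))))) 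
(.nd (nat_lit 7) (.nd (nat_lit 8) (.nd (nat_lit 9) 
(.lf (nat_lit 596066) (.g (nat_lit 1171) (.e (nat_lit 581376) (nat_lit 6) (.e (nat_lit 188434) (nat_lit 20) (.e (nat_lit 3578) (nat_lit 223) (.e (nat_lit 745476) (nat_lit 0) (.e (nat_lit 1599) (nat_lit 111) .nil))))) (.g (nat_lit 0) (.e (nat_lit 410728) (nat_lit 0) .nil) .nil))) 
(.lf (nat_lit 596578) (.g (nat_lit 3720) (.e (nat_lit 573477) (nat_lit 12) (.e (nat_lit 57574) (nat_lit 55) (.e (nat_lit 778464) (nat_lit 11) (.e (nat_lit 24608) (nat_lit 3) (.e (nat_lit 98372) (nat_lit 29) (.e (nat_lit 450586) (nat_lit 10) .nil)))))) (.g (nat_lit 1) (.e (nat_lit 411749) (nat_lit 0) .nil) .nil)))) (.nd (nat_lit 9) 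
(.lf (nat_lit 596322) (.g (nat_lit 2011) (.e (nat_lit 573470) (nat_lit 11) (.e (nat_lit 16448) (nat_lit 10) (.e (nat_lit 434231) (nat_lit 23) (.e (nat_lit 532482) (nat_lit 0) .nil)))) (.g (nat_lit 0) (.e (nat_lit 411206) (nat_lit 0) .nil) .nil))) 
(.lf (nat_lit 596834) (.g (nat_lit 1382) (.e (nat_lit 573480) (nat_lit 13) (.e (nat_lit 65630) (nat_lit 14) (.e (nat_lit 401427) (nat_lit 3) (.e (nat_lit 204877) (nat_lit 31) .nil)))) (.g (nat_lit 0) (.e (nat_lit 412197) (nat_lit 0) .nil) .nil))))) (.nd (nat_lit 8) (.nd (nat_lit 9) 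
(.lf (nat_lit 596194) (.g (nat_lit 3309) (.e (nat_lit 573456) (nat_lit 9) (.e (nat_lit 430) (nat_lit 32) (.e (nat_lit 426344) (nat_lit 14) (.e (nat_lit 491538) (nat_lit 3) (.e (nat_lit 98359) (nat_lit 26) (.e (nat_lit 426286) (nat_lit 10) (.e (nat_lit 434247) (nat_lit 28) .nil))))))) (.g (nat_lit 1) (.e (nat_lit 411031) (nat_lit 0) .nil) .nil))) 
(.lf (nat_lit 596706) (.g (nat_lit 2168) (.e (nat_lit 573478) (nat_lit 12) (.e (nat_lit 57574) (nat_lit 55) (.e (nat_lit 778465) (nat_lit 11) (.e (nat_lit 24604) (nat_lit 2) (.e (nat_lit 90168) (nat_lit 13) .nil))))) (.g (nat_lit 0) (.e (nat_lit 411959) (nat_lit 0) .nil) .nil)))) (.nd (nat_lit 9) 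
(.lf (nat_lit 596450) (.g (nat_lit 1446) (.e (nat_lit 573471) (nat_lit 11) (.e (nat_lit 16473) (nat_lit 14) (.e (nat_lit 491526) (nat_lit 0) (.e (nat_lit 1788) (nat_lit 119) .nil)))) (.g (nat_lit 0) (.e (nat_lit 411501) (nat_lit 0) .nil) .nil))) 
(.lf (nat_lit 596962) (.g (nat_lit 2520) (.e (nat_lit 573481) (nat_lit 13) (.e (nat_lit 65604) (nat_lit 9) (.e (nat_lit 336028) (nat_lit 3) (.e (nat_lit 98356) (nat_lit 26) (.e (nat_lit 426444) (nat_lit 19) (.e (nat_lit 114432) (nat_lit 3) (.e (nat_lit 163976) (nat_lit 30) .nil))))))) (.g (nat_lit 1) (.e (nat_lit 412442) (nat_lit 0) .nil) .nil)))))))) 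
(.nd (nat_lit 5) (.nd (nat_lit 6) (.nd (nat_lit 7) (.nd (nat_lit 8) (.nd (nat_lit 9) 
(.lf (nat_lit 595986) (.g (nat_lit 1680) (.e (nat_lit 548874) (nat_lit 5) (.e (nat_lit 1464) (nat_lit 108) (.e (nat_lit 336227) (nat_lit 14) (.e (nat_lit 401425) (nat_lit 2) (.e (nat_lit 196666) (nat_lit 13) .nil))))) (.g (nat_lit 0) (.e (nat_lit 410481) (nat_lit 0) .nil) .nil))) 
(.lf (nat_lit 596498) (.g (nat_lit 915) (.e (nat_lit 573474) (nat_lit 12) (.e (nat_lit 57572) (nat_lit 54) (.e (nat_lit 770072) (nat_lit 8) (.e (nat_lit 65568) (nat_lit 2) .nil)))) (.g (nat_lit 0) (.e (nat_lit 411571) (nat_lit 0) .nil) .nil)))) (.nd (nat_lit 9) 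
(.lf (nat_lit 596242) (.g (nat_lit 5479) (.e (nat_lit 573458) (nat_lit 9) (.e (nat_lit 426) (nat_lit 32) (.e (nat_lit 426306) (nat_lit 12) (.e (nat_lit 475185) (nat_lit 29) (.e (nat_lit 557100) (nat_lit 13) (.e (nat_lit 172113) (nat_lit 10) (.e (nat_lit 434245) (nat_lit 28) .nil))))))) (.g (nat_lit 1) (.e (nat_lit 411086) (nat_lit 0) .nil) .nil))) 
(.lf (nat_lit 596754) (.g (nat_lit 1645) (.e (nat_lit 573479) (nat_lit 13) (.e (nat_lit 65619) (nat_lit 10) (.e (nat_lit 344117) (nat_lit 21) (.e (nat_lit 516143) (nat_lit 9) (.e (nat_lit 426109) (nat_lit 1) .nil))))) (.g (nat_lit 0) (.e (nat_lit 412088) (nat_lit 0) .nil) .nil))))) (.nd (nat_lit 8) (.nd (nat_lit 9) 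
(.lf (nat_lit 596114) (.g (nat_lit 5096) (.e (nat_lit 573451) (nat_lit 9) (.e (nat_lit 430) (nat_lit 32) (.e (nat_lit 426011) (nat_lit 0) (.e (nat_lit 7581) (nat_lit 405) (.e (nat_lit 57464) (nat_lit 23) (.e (nat_lit 516151) (nat_lit 9) (.e (nat_lit 426286) (nat_lit 10) (.e (nat_lit 434245) (nat_lit 28) .nil)))))))) (.g (nat_lit 1) (.e (nat_lit 410933) (nat_lit 0) .nil) .nil))) 
(.lf (nat_lit 596626) (.g (nat_lit 3871) (.e (nat_lit 573477) (nat_lit 12) (.e (nat_lit 57574) (nat_lit 55) (.e (nat_lit 778466) (nat_lit 11) (.e (nat_lit 24606) (nat_lit 3) (.e (nat_lit 98373) (nat_lit 29) (.e (nat_lit 450587) (nat_lit 10) .nil)))))) (.g (nat_lit 1) (.e (nat_lit 411815) (nat_lit 0) .nil) .nil)))) (.nd (nat_lit 9) 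
(.lf (nat_lit 596370) (.g (nat_lit 3776) (.e (nat_lit 573471) (nat_lit 11) (.e (nat_lit 16386) (nat_lit 0) (.e (nat_lit 7583) (nat_lit 405) (.e (nat_lit 57464) (nat_lit 23) (.e (nat_lit 516151) (nat_lit 9) (.e (nat_lit 426286) (nat_lit 10) (.e (nat_lit 434245) (nat_lit 28) .nil))))))) (.g (nat_lit 1) (.e (nat_lit 411279) (nat_lit 0) .nil) .nil))) 
(.lf (nat_lit 596882) (.g (nat_lit 3826) (.e (nat_lit 573481) (nat_lit 13) (.e (nat_lit 65604) (nat_lit 9) (.e (nat_lit 336013) (nat_lit 2) (.e (nat_lit 90140) (nat_lit 9) .nil)))) (.g (nat_lit 0) (.e (nat_lit 412302) (nat_lit 0) .nil) .nil)))))) (.nd (nat_lit 7) (.nd (nat_lit 8) (.nd (nat_lit 9) 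
(.lf (nat_lit 596050) (.g (nat_lit 1169) (.e (nat_lit 573445) (nat_lit 0) (.e (nat_lit 3020) (nat_lit 187) (.e (nat_lit 450605) (nat_lit 27) (.e (nat_lit 745476) (nat_lit 0) (.e (nat_lit 1595) (nat_lit 111) (.e (nat_lit 368384) (nat_lit 10) .nil)))))) (.g (nat_lit 1) (.e (nat_lit 410637) (nat_lit 0) .nil) .nil))) 
(.lf (nat_lit 596562) (.g (nat_lit 3584) (.e (nat_lit 573476) (nat_lit 12) (.e (nat_lit 57574) (nat_lit 55) (.e (nat_lit 778466) (nat_lit 11) (.e (nat_lit 24604) (nat_lit 2) (.e (nat_lit 90185) (nat_lit 17) (.e (nat_lit 237605) (nat_lit 9) (.e (nat_lit 425986) (nat_lit 0) (.e (nat_lit 3299) (nat_lit 202) .nil)))))))) (.g (nat_lit 1) (.e (nat_lit 411731) (nat_lit 0) .nil) .nil)))) (.nd (nat_lit 9) 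
(.lf (nat_lit 596306) (.g (nat_lit 2413) (.e (nat_lit 573469) (nat_lit 11) (.e (nat_lit 16473) (nat_lit 14) (.e (nat_lit 491535) (nat_lit 2) (.e (nat_lit 90170) (nat_lit 13) (.e (nat_lit 172113) (nat_lit 10) (.e (nat_lit 434242) (nat_lit 28) .nil)))))) (.g (nat_lit 1) (.e (nat_lit 411180) (nat_lit 0) .nil) .nil))) 
(.lf (nat_lit 596818) (.g (nat_lit 1651) (.e (nat_lit 573480) (nat_lit 13) (.e (nat_lit 65630) (nat_lit 14) (.e (nat_lit 401425) (nat_lit 2) (.e (nat_lit 196666) (nat_lit 13) (.e (nat_lit 65599) (nat_lit 9) (.e (nat_lit 336267) (nat_lit 15) (.e (nat_lit 3304) (nat_lit 202) .nil))))))) (.g (nat_lit 1) (.e (nat_lit 412181) (nat_lit 0) .nil) .nil))))) (.nd (nat_lit 8) (.nd (nat_lit 9) 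
(.lf (nat_lit 596178) (.g (nat_lit 4064) (.e (nat_lit 573456) (nat_lit 9) (.e (nat_lit 430) (nat_lit 32) (.e (nat_lit 426012) (nat_lit 0) (.e (nat_lit 7581) (nat_lit 405) (.e (nat_lit 57464) (nat_lit 23) (.e (nat_lit 516151) (nat_lit 9) (.e (nat_lit 426286) (nat_lit 10) (.e (nat_lit 434247) (nat_lit 28) .nil)))))))) (.g (nat_lit 1) (.e (nat_lit 411013) (nat_lit 0) .nil) .nil))) 
(.lf (nat_lit 596690) (.g (nat_lit 1716) (.e (nat_lit 573477) (nat_lit 12) (.e (nat_lit 57750) (nat_lit 201) (.e (nat_lit 3090) (nat_lit 191) (.e (nat_lit 483365) (nat_lit 18) .nil)))) (.g (nat_lit 0) (.e (nat_lit 411915) (nat_lit 0) .nil) .nil)))) (.nd (nat_lit 9) 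
(.lf (nat_lit 596434) (.g (nat_lit 2132) (.e (nat_lit 573471) (nat_lit 11) (.e (nat_lit 16470) (nat_lit 14) (.e (nat_lit 491537) (nat_lit 2) (.e (nat_lit 90178) (nat_lit 15) .nil)))) (.g (nat_lit 0) (.e (nat_lit 411484) (nat_lit 0) .nil) .nil))) 
(.lf (nat_lit 596946) (.g (nat_lit 3414) (.e (nat_lit 573481) (nat_lit 13) (.e (nat_lit 65604) (nat_lit 9) (.e (nat_lit 336013) (nat_lit 2) (.e (nat_lit 90170) (nat_lit 13) (.e (nat_lit 172136) (nat_lit 15) (.e (nat_lit 2056) (nat_lit 142) (.e (nat_lit 704589) (nat_lit 3) (.e (nat_lit 163975) (nat_lit 30) .nil)))))))) (.g (nat_lit 1) (.e (nat_lit 412401) (nat_lit 0) .nil) .nil))))))) 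
(.nd (nat_lit 6) (.nd (nat_lit 7) (.nd (nat_lit 8) (.nd (nat_lit 9) 
(.lf (nat_lit 596018) (.g (nat_lit 715) (.e (nat_lit 573444) (nat_lit 0) (.e (nat_lit 3012) (nat_lit 187) (.e (nat_lit 450605) (nat_lit 27) (.e (nat_lit 745476) (nat_lit 0) (.e (nat_lit 1592) (nat_lit 111) (.e (nat_lit 368384) (nat_lit 10) .nil)))))) (.g (nat_lit 1) (.e (nat_lit 410585) (nat_lit 0) .nil) .nil))) 
(.lf (nat_lit 596530) (.g (nat_lit 860) (.e (nat_lit 573475) (nat_lit 12) (.e (nat_lit 57572) (nat_lit 54) (.e (nat_lit 770072) (nat_lit 8) (.e (nat_lit 65568) (nat_lit 2) .nil)))) (.g (nat_lit 0) (.e (nat_lit 411643) (nat_lit 0) .nil) .nil)))) (.nd (nat_lit 9) 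
(.lf (nat_lit 596274) (.g (nat_lit 2350) (.e (nat_lit 573469) (nat_lit 11) (.e (nat_lit 16456) (nat_lit 12) (.e (nat_lit 475185) (nat_lit 29) (.e (nat_lit 557098) (nat_lit 13) (.e (nat_lit 172115) (nat_lit 10) .nil))))) (.g (nat_lit 0) (.e (nat_lit 411146) (nat_lit 0) .nil) .nil))) 
(.lf (nat_lit 596786) (.g (nat_lit 805) (.e (nat_lit 573479) (nat_lit 13) (.e (nat_lit 65619) (nat_lit 10) (.e (nat_lit 344126) (nat_lit 25) (.e (nat_lit 548873) (nat_lit 5) .nil)))) (.g (nat_lit 0) (.e (nat_lit 412120) (nat_lit 0) .nil) .nil))))) (.nd (nat_lit 8) (.nd (nat_lit 9) 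
(.lf (nat_lit 596146) (.g (nat_lit 1580) (.e (nat_lit 573452) (nat_lit 9) (.e (nat_lit 1401) (nat_lit 106) (.e (nat_lit 319534) (nat_lit 16) (.e (nat_lit 286767) (nat_lit 27) .nil)))) (.g (nat_lit 0) (.e (nat_lit 410977) (nat_lit 0) .nil) .nil))) 
(.lf (nat_lit 596658) (.g (nat_lit 1574) (.e (nat_lit 573477) (nat_lit 12) (.e (nat_lit 57575) (nat_lit 55) (.e (nat_lit 778466) (nat_lit 11) (.e (nat_lit 24603) (nat_lit 2) (.e (nat_lit 90185) (nat_lit 17) .nil))))) (.g (nat_lit 0) (.e (nat_lit 411851) (nat_lit 0) .nil) .nil)))) (.nd (nat_lit 9) 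
(.lf (nat_lit 596402) (.g (nat_lit 755) (.e (nat_lit 573471) (nat_lit 11) (.e (nat_lit 16448) (nat_lit 10) (.e (nat_lit 434232) (nat_lit 23) .nil))) (.g (nat_lit 0) (.e (nat_lit 411407) (nat_lit 0) .nil) .nil))) 
(.lf (nat_lit 596914) (.g (nat_lit 3194) (.e (nat_lit 573481) (nat_lit 13) (.e (nat_lit 65604) (nat_lit 9) (.e (nat_lit 336013) (nat_lit 2) (.e (nat_lit 90170) (nat_lit 13) (.e (nat_lit 172046) (nat_lit 0) (.e (nat_lit 3403) (nat_lit 212) (.e (nat_lit 655373) (nat_lit 3) (.e (nat_lit 163975) (nat_lit 30) .nil)))))))) (.g (nat_lit 1) (.e (nat_lit 412351) (nat_lit 0) .nil) .nil)))))) 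
(.nd (nat_lit 7) (.nd (nat_lit 8) (.nd (nat_lit 9) 
(.lf (nat_lit 596082) (.g (nat_lit 1416) (.e (nat_lit 573449) (nat_lit 9) (.e (nat_lit 1615) (nat_lit 113) (.e (nat_lit 376862) (nat_lit 22) (.e (nat_lit 90185) (nat_lit 17) (.e (nat_lit 237585) (nat_lit 1) .nil))))) (.g (nat_lit 0) (.e (nat_lit 410837) (nat_lit 0) .nil) .nil))) 
(.lf (nat_lit 596594) (.g (nat_lit 3560) (.e (nat_lit 573477) (nat_lit 12) (.e (nat_lit 57574) (nat_lit 55) (.e (nat_lit 778465) (nat_lit 11) (.e (nat_lit 24607) (nat_lit 3) (.e (nat_lit 98372) (nat_lit 29) (.e (nat_lit 450586) (nat_lit 10) .nil)))))) (.g (nat_lit 1) (.e (nat_lit 411767) (nat_lit 0) .nil) .nil)))) (.nd (nat_lit 9) 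
(.lf (nat_lit 596338) (.g (nat_lit 785) (.e (nat_lit 573470) (nat_lit 11) (.e (nat_lit 16469) (nat_lit 14) (.e (nat_lit 491536) (nat_lit 2) .nil))) (.g (nat_lit 0) (.e (nat_lit 411242) (nat_lit 0) .nil) .nil))) 
(.lf (nat_lit 596850) (.g (nat_lit 2592) (.e (nat_lit 573481) (nat_lit 13) (.e (nat_lit 65563) (nat_lit 1) (.e (nat_lit 57927) (nat_lit 282) (.e (nat_lit 163943) (nat_lit 19) (.e (nat_lit 483345) (nat_lit 17) (.e (nat_lit 6712) (nat_lit 360) (.e (nat_lit 163976) (nat_lit 30) .nil))))))) (.g (nat_lit 1) (.e (nat_lit 412226) (nat_lit 0) .nil) .nil))))) (.nd (nat_lit 8) (.nd (nat_lit 9) 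
(.lf (nat_lit 596210) (.g (nat_lit 2603) (.e (nat_lit 573456) (nat_lit 9) (.e (nat_lit 1669) (nat_lit 116) (.e (nat_lit 401459) (nat_lit 13) (.e (nat_lit 483363) (nat_lit 18) (.e (nat_lit 57652) (nat_lit 152) .nil))))) (.g (nat_lit 0) (.e (nat_lit 411047) (nat_lit 0) .nil) .nil))) 
(.lf (nat_lit 596722) (.g (nat_lit 1215) (.e (nat_lit 573478) (nat_lit 12) (.e (nat_lit 57574) (nat_lit 55) (.e (nat_lit 778466) (nat_lit 11) (.e (nat_lit 24602) (nat_lit 2) .nil)))) (.g (nat_lit 0) (.e (nat_lit 411979) (nat_lit 0) .nil) .nil)))) (.nd (nat_lit 9) 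
(.lf (nat_lit 596466) (.g (nat_lit 1343) (.e (nat_lit 573472) (nat_lit 12) (.e (nat_lit 57570) (nat_lit 54) (.e (nat_lit 770072) (nat_lit 8) (.e (nat_lit 65569) (nat_lit 3) (.e (nat_lit 98359) (nat_lit 26) .nil))))) (.g (nat_lit 0) (.e (nat_lit 411520) (nat_lit 0) .nil) .nil))) 
(.lf (nat_lit 596978) (.g (nat_lit 1705) (.e (nat_lit 573481) (nat_lit 13) (.e (nat_lit 65604) (nat_lit 9) (.e (nat_lit 336028) (nat_lit 3) (.e (nat_lit 98360) (nat_lit 26) .nil)))) (.g (nat_lit 0) (.e (nat_lit 412484) (nat_lit 0) .nil) .nil))))))))) (.nd (nat_lit 4) (.nd (nat_lit 5) (.nd (nat_lit 6) (.nd (nat_lit 7) (.nd (nat_lit 8) (.nd (nat_lit 9) 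
(.lf (nat_lit 595978) (.g (nat_lit 3266) (.e (nat_lit 548913) (nat_lit 18) (.e (nat_lit 172126) (nat_lit 14) (.e (nat_lit 491540) (nat_lit 3) (.e (nat_lit 98373) (nat_lit 29) (.e (nat_lit 458496) (nat_lit 7) .nil))))) (.g (nat_lit 1) (.e (nat_lit 410325) (nat_lit 0) .nil) .nil))) 
(.lf (nat_lit 596490) (.g (nat_lit 4550) (.e (nat_lit 573474) (nat_lit 12) (.e (nat_lit 57503) (nat_lit 38) (.e (nat_lit 638996) (nat_lit 7) (.e (nat_lit 163977) (nat_lit 30) (.e (nat_lit 573487) (nat_lit 14) (.e (nat_lit 73753) (nat_lit 8) (.e (nat_lit 557103) (nat_lit 14) (.e (nat_lit 180250) (nat_lit 10) .nil)))))))) (.g (nat_lit 1) (.e (nat_lit 411560) (nat_lit 0) .nil) .nil)))) 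
(.nd (nat_lit 9) 
(.lf (nat_lit 596234) (.g (nat_lit 3831) (.e (nat_lit 573458) (nat_lit 9) (.e (nat_lit 394) (nat_lit 32) (.e (nat_lit 426305) (nat_lit 12) (.e (nat_lit 475185) (nat_lit 29) (.e (nat_lit 557100) (nat_lit 13) (.e (nat_lit 172113) (nat_lit 10) (.e (nat_lit 434245) (nat_lit 28) .nil))))))) (.g (nat_lit 1) (.e (nat_lit 411076) (nat_lit 0) .nil) .nil))) 
(.lf (nat_lit 596746) (.g (nat_lit 1787) (.e (nat_lit 573479) (nat_lit 13) (.e (nat_lit 65610) (nat_lit 10) (.e (nat_lit 344117) (nat_lit 21) (.e (nat_lit 516151) (nat_lit 9) .nil)))) (.g (nat_lit 0) (.e (nat_lit 412080) (nat_lit 0) .nil) .nil))))) (.nd (nat_lit 8) (.nd (nat_lit 9) 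
(.lf (nat_lit 596106) (.g (nat_lit 3927) (.e (nat_lit 573451) (nat_lit 9) (.e (nat_lit 365) (nat_lit 31) (.e (nat_lit 417793) (nat_lit 0) (.e (nat_lit 5271) (nat_lit 298) (.e (nat_lit 1239) (nat_lit 91) (.e (nat_lit 90170) (nat_lit 13) (.e (nat_lit 172113) (nat_lit 10) (.e (nat_lit 434245) (nat_lit 28) .nil)))))))) (.g (nat_lit 1) (.e (nat_lit 410925) (nat_lit 0) .nil) .nil))) 
(.lf (nat_lit 596618) (.g (nat_lit 4553) (.e (nat_lit 573477) (nat_lit 12) (.e (nat_lit 57574) (nat_lit 55) (.e (nat_lit 778466) (nat_lit 11) (.e (nat_lit 24604) (nat_lit 2) (.e (nat_lit 90176) (nat_lit 15) (.e (nat_lit 188438) (nat_lit 20) (.e (nat_lit 3307) (nat_lit 202) .nil))))))) (.g (nat_lit 1) (.e (nat_lit 411805) (nat_lit 0) .nil) .nil)))) (.nd (nat_lit 9) 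
(.lf (nat_lit 596362) (.g (nat_lit 422) (.e (nat_lit 573470) (nat_lit 11) (.e (nat_lit 16473) (nat_lit 14) (.e (nat_lit 491538) (nat_lit 3) .nil))) (.g (nat_lit 0) (.e (nat_lit 411269) (nat_lit 0) .nil) .nil))) 
(.lf (nat_lit 596874) (.g (nat_lit 2975) (.e (nat_lit 573481) (nat_lit 13) (.e (nat_lit 65604) (nat_lit 9) (.e (nat_lit 336013) (nat_lit 2) (.e (nat_lit 90134) (nat_lit 9) (.e (nat_lit 3071) (nat_lit 190) (.e (nat_lit 475197) (nat_lit 40) (.e (nat_lit 704589) (nat_lit 3) (.e (nat_lit 163976) (nat_lit 30) .nil)))))))) (.g (nat_lit 1) (.e (nat_lit 412293) (nat_lit 0) .nil) .nil)))))) 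
(.nd (nat_lit 7) (.nd (nat_lit 8) (.nd (nat_lit 9) 
(.lf (nat_lit 596042) (.g (nat_lit 748) (.e (nat_lit 573445) (nat_lit 0) (.e (nat_lit 3012) (nat_lit 187) (.e (nat_lit 450605) (nat_lit 27) (.e (nat_lit 745476) (nat_lit 0) (.e (nat_lit 1592) (nat_lit 111) (.e (nat_lit 368384) (nat_lit 10) .nil)))))) (.g (nat_lit 1) (.e (nat_lit 410629) (nat_lit 0) .nil) .nil))) 
(.lf (nat_lit 596554) (.g (nat_lit 1701) (.e (nat_lit 573475) (nat_lit 12) (.e (nat_lit 57574) (nat_lit 55) (.e (nat_lit 778466) (nat_lit 11) (.e (nat_lit 24604) (nat_lit 2) (.e (nat_lit 90176) (nat_lit 15) .nil))))) (.g (nat_lit 0) (.e (nat_lit 411679) (nat_lit 0) .nil) .nil)))) (.nd (nat_lit 9) 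
(.lf (nat_lit 596298) (.g (nat_lit 2038) (.e (nat_lit 573469) (nat_lit 11) (.e (nat_lit 16471) (nat_lit 14) (.e (nat_lit 491526) (nat_lit 0) (.e (nat_lit 1788) (nat_lit 119) (.e (nat_lit 516165) (nat_lit 12) .nil))))) (.g (nat_lit 0) (.e (nat_lit 411171) (nat_lit 0) .nil) .nil))) 
(.lf (nat_lit 596810) (.g (nat_lit 3073) (.e (nat_lit 573480) (nat_lit 13) (.e (nat_lit 65610) (nat_lit 10) (.e (nat_lit 344117) (nat_lit 21) (.e (nat_lit 516179) (nat_lit 15) (.e (nat_lit 475198) (nat_lit 40) .nil))))) (.g (nat_lit 0) (.e (nat_lit 412173) (nat_lit 0) .nil) .nil))))) (.nd (nat_lit 8) (.nd (nat_lit 9) 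
(.lf (nat_lit 596170) (.g (nat_lit 2686) (.e (nat_lit 573456) (nat_lit 9) (.e (nat_lit 430) (nat_lit 32) (.e (nat_lit 426009) (nat_lit 0) (.e (nat_lit 7583) (nat_lit 405) (.e (nat_lit 57464) (nat_lit 23) (.e (nat_lit 516166) (nat_lit 12) (.e (nat_lit 450587) (nat_lit 10) .nil))))))) (.g (nat_lit 1) (.e (nat_lit 411005) (nat_lit 0) .nil) .nil))) 
(.lf (nat_lit 596682) (.g (nat_lit 2383) (.e (nat_lit 573477) (nat_lit 12) (.e (nat_lit 57750) (nat_lit 201) (.e (nat_lit 3090) (nat_lit 191) (.e (nat_lit 483363) (nat_lit 18) (.e (nat_lit 57692) (nat_lit 156) .nil))))) (.g (nat_lit 0) (.e (nat_lit 411902) (nat_lit 0) .nil) .nil)))) (.nd (nat_lit 9) 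
(.lf (nat_lit 596426) (.g (nat_lit 669) (.e (nat_lit 573471) (nat_lit 11) (.e (nat_lit 16470) (nat_lit 14) (.e (nat_lit 491526) (nat_lit 0) .nil))) (.g (nat_lit 0) (.e (nat_lit 411475) (nat_lit 0) .nil) .nil))) 
(.lf (nat_lit 596938) (.g (nat_lit 1979) (.e (nat_lit 573481) (nat_lit 13) (.e (nat_lit 65604) (nat_lit 9) (.e (nat_lit 336013) (nat_lit 2) (.e (nat_lit 90170) (nat_lit 13) (.e (nat_lit 172068) (nat_lit 4) .nil))))) (.g (nat_lit 0) (.e (nat_lit 412383) (nat_lit 0) .nil) .nil))))))) (.nd (nat_lit 6) (.nd (nat_lit 7) (.nd (nat_lit 8) (.nd (nat_lit 9) 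
(.lf (nat_lit 596010) (.g (nat_lit 814) (.e (nat_lit 573444) (nat_lit 0) (.e (nat_lit 3011) (nat_lit 187) (.e (nat_lit 450605) (nat_lit 27) (.e (nat_lit 745475) (nat_lit 0) (.e (nat_lit 1598) (nat_lit 111) (.e (nat_lit 368384) (nat_lit 10) .nil)))))) (.g (nat_lit 1) (.e (nat_lit 410577) (nat_lit 0) .nil) .nil))) 
(.lf (nat_lit 596522) (.g (nat_lit 5534) (.e (nat_lit 573475) (nat_lit 12) (.e (nat_lit 57503) (nat_lit 38) (.e (nat_lit 638995) (nat_lit 7) (.e (nat_lit 163979) (nat_lit 30) (.e (nat_lit 573487) (nat_lit 14) (.e (nat_lit 73753) (nat_lit 8) (.e (nat_lit 557105) (nat_lit 14) (.e (nat_lit 180252) (nat_lit 10) .nil)))))))) (.g (nat_lit 1) (.e (nat_lit 411633) (nat_lit 0) .nil) .nil)))) 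
(.nd (nat_lit 9) 
(.lf (nat_lit 596266) (.g (nat_lit 1160) (.e (nat_lit 573469) (nat_lit 11) (.e (nat_lit 16436) (nat_lit 9) (.e (nat_lit 426131) (nat_lit 3) (.e (nat_lit 204885) (nat_lit 33) .nil)))) (.g (nat_lit 0) (.e (nat_lit 411118) (nat_lit 0) .nil) .nil))) 
(.lf (nat_lit 596778) (.g (nat_lit 1083) (.e (nat_lit 573479) (nat_lit 13) (.e (nat_lit 65619) (nat_lit 10) (.e (nat_lit 344117) (nat_lit 21) (.e (nat_lit 516160) (nat_lit 10) .nil)))) (.g (nat_lit 0) (.e (nat_lit 412112) (nat_lit 0) .nil) .nil))))) (.nd (nat_lit 8) (.nd (nat_lit 9) 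
(.lf (nat_lit 596138) (.g (nat_lit 648) (.e (nat_lit 573452) (nat_lit 9) (.e (nat_lit 396) (nat_lit 32) (.e (nat_lit 426172) (nat_lit 7) (.e (nat_lit 409616) (nat_lit 10) .nil)))) (.g (nat_lit 0) (.e (nat_lit 410961) (nat_lit 0) .nil) .nil))) 
(.lf (nat_lit 596650) (.g (nat_lit 3138) (.e (nat_lit 573477) (nat_lit 12) (.e (nat_lit 57575) (nat_lit 55) (.e (nat_lit 778465) (nat_lit 11) (.e (nat_lit 24608) (nat_lit 3) (.e (nat_lit 98374) (nat_lit 29) (.e (nat_lit 450586) (nat_lit 10) .nil)))))) (.g (nat_lit 1) (.e (nat_lit 411842) (nat_lit 0) .nil) .nil)))) (.nd (nat_lit 9) 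
(.lf (nat_lit 596394) (.g (nat_lit 1663) (.e (nat_lit 573471) (nat_lit 11) (.e (nat_lit 16446) (nat_lit 9) (.e (nat_lit 426139) (nat_lit 3) (.e (nat_lit 204816) (nat_lit 17) .nil)))) (.g (nat_lit 0) (.e (nat_lit 411376) (nat_lit 0) .nil) .nil))) 
(.lf (nat_lit 596906) (.g (nat_lit 2815) (.e (nat_lit 573481) (nat_lit 13) (.e (nat_lit 65604) (nat_lit 9) (.e (nat_lit 336013) (nat_lit 2) (.e (nat_lit 90170) (nat_lit 13) (.e (nat_lit 172041) (nat_lit 0) .nil))))) (.g (nat_lit 0) (.e (nat_lit 412338) (nat_lit 0) .nil) .nil)))))) (.nd (nat_lit 7) (.nd (nat_lit 8) (.nd (nat_lit 9) 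
(.lf (nat_lit 596074) (.g (nat_lit 2169) (.e (nat_lit 573448) (nat_lit 9) (.e (nat_lit 375) (nat_lit 32) (.e (nat_lit 426173) (nat_lit 7) (.e (nat_lit 409615) (nat_lit 10) .nil)))) (.g (nat_lit 0) (.e (nat_lit 410785) (nat_lit 0) .nil) .nil))) 
(.lf (nat_lit 596586) (.g (nat_lit 3185) (.e (nat_lit 573477) (nat_lit 12) (.e (nat_lit 57574) (nat_lit 55) (.e (nat_lit 778465) (nat_lit 11) (.e (nat_lit 24604) (nat_lit 2) (.e (nat_lit 90169) (nat_lit 13) (.e (nat_lit 172111) (nat_lit 10) (.e (nat_lit 434247) (nat_lit 28) .nil))))))) (.g (nat_lit 1) (.e (nat_lit 411758) (nat_lit 0) .nil) .nil)))) (.nd (nat_lit 9) 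
(.lf (nat_lit 596330) (.g (nat_lit 2984) (.e (nat_lit 573470) (nat_lit 11) (.e (nat_lit 16458) (nat_lit 12) (.e (nat_lit 475185) (nat_lit 29) (.e (nat_lit 557107) (nat_lit 15) (.e (nat_lit 188440) (nat_lit 20) (.e (nat_lit 3307) (nat_lit 202) .nil)))))) (.g (nat_lit 1) (.e (nat_lit 411233) (nat_lit 0) .nil) .nil))) 
(.lf (nat_lit 596842) (.g (nat_lit 2904) (.e (nat_lit 573480) (nat_lit 13) (.e (nat_lit 65630) (nat_lit 14) (.e (nat_lit 401428) (nat_lit 3) (.e (nat_lit 204876) (nat_lit 31) (.e (nat_lit 376835) (nat_lit 0) (.e (nat_lit 3304) (nat_lit 202) .nil)))))) (.g (nat_lit 1) (.e (nat_lit 412205) (nat_lit 0) .nil) .nil))))) (.nd (nat_lit 8) (.nd (nat_lit 9) 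
(.lf (nat_lit 596202) (.g (nat_lit 1819) (.e (nat_lit 573456) (nat_lit 9) (.e (nat_lit 1669) (nat_lit 116) (.e (nat_lit 401456) (nat_lit 13) (.e (nat_lit 483365) (nat_lit 18) .nil)))) (.g (nat_lit 0) (.e (nat_lit 411039) (nat_lit 0) .nil) .nil))) 
(.lf (nat_lit 596714) (.g (nat_lit 2346) (.e (nat_lit 573478) (nat_lit 12) (.e (nat_lit 57574) (nat_lit 55) (.e (nat_lit 778466) (nat_lit 11) (.e (nat_lit 24578) (nat_lit 0) .nil)))) (.g (nat_lit 0) (.e (nat_lit 411968) (nat_lit 0) .nil) .nil)))) (.nd (nat_lit 9) 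
(.lf (nat_lit 596458) (.g (nat_lit 1438) (.e (nat_lit 573471) (nat_lit 11) (.e (nat_lit 16473) (nat_lit 14) (.e (nat_lit 491536) (nat_lit 2) (.e (nat_lit 90178) (nat_lit 15) .nil)))) (.g (nat_lit 0) (.e (nat_lit 411511) (nat_lit 0) .nil) .nil))) 
(.lf (nat_lit 596970) (.g (nat_lit 2411) (.e (nat_lit 573481) (nat_lit 13) (.e (nat_lit 65604) (nat_lit 9) (.e (nat_lit 336028) (nat_lit 3) (.e (nat_lit 98359) (nat_lit 26) (.e (nat_lit 426410) (nat_lit 15) (.e (nat_lit 2056) (nat_lit 142) (.e (nat_lit 704589) (nat_lit 3) (.e (nat_lit 163975) (nat_lit 30) .nil)))))))) (.g (nat_lit 1) (.e (nat_lit 412475) (nat_lit 0) .nil) .nil)))))))) 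
(.nd (nat_lit 5) (.nd (nat_lit 6) (.nd (nat_lit 7) (.nd (nat_lit 8) (.nd (nat_lit 9) 
(.lf (nat_lit 595994) (.g (nat_lit 1062) (.e (nat_lit 548889) (nat_lit 9) (.e (nat_lit 65630) (nat_lit 14) (.e (nat_lit 401411) (nat_lit 0) .nil))) (.g (nat_lit 0) (.e (nat_lit 410507) (nat_lit 0) .nil) .nil))) 
(.lf (nat_lit 596506) (.g (nat_lit 3568) (.e (nat_lit 573474) (nat_lit 12) (.e (nat_lit 57572) (nat_lit 54) (.e (nat_lit 770072) (nat_lit 8) (.e (nat_lit 65571) (nat_lit 3) (.e (nat_lit 98381) (nat_lit 31) (.e (nat_lit 466967) (nat_lit 20) (.e (nat_lit 3295) (nat_lit 202) .nil))))))) (.g (nat_lit 1) (.e (nat_lit 411585) (nat_lit 0) .nil) .nil)))) (.nd (nat_lit 9) 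
(.lf (nat_lit 596250) (.g (nat_lit 4873) (.e (nat_lit 573465) (nat_lit 9) (.e (nat_lit 392) (nat_lit 32) (.e (nat_lit 426316) (nat_lit 12) (.e (nat_lit 475185) (nat_lit 29) (.e (nat_lit 557107) (nat_lit 15) (.e (nat_lit 188440) (nat_lit 20) (.e (nat_lit 3307) (nat_lit 202) .nil))))))) (.g (nat_lit 1) (.e (nat_lit 411096) (nat_lit 0) .nil) .nil))) 
(.lf (nat_lit 596762) (.g (nat_lit 3423) (.e (nat_lit 573479) (nat_lit 13) (.e (nat_lit 65619) (nat_lit 10) (.e (nat_lit 344117) (nat_lit 21) (.e (nat_lit 516151) (nat_lit 9) (.e (nat_lit 426018) (nat_lit 0) .nil))))) (.g (nat_lit 0) (.e (nat_lit 412096) (nat_lit 0) .nil) .nil))))) (.nd (nat_lit 8) (.nd (nat_lit 9) 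
(.lf (nat_lit 596122) (.g (nat_lit 3753) (.e (nat_lit 573451) (nat_lit 9) (.e (nat_lit 430) (nat_lit 32) (.e (nat_lit 426344) (nat_lit 14) (.e (nat_lit 491535) (nat_lit 2) (.e (nat_lit 90170) (nat_lit 13) (.e (nat_lit 172113) (nat_lit 10) (.e (nat_lit 434245) (nat_lit 28) .nil))))))) (.g (nat_lit 1) (.e (nat_lit 410941) (nat_lit 0) .nil) .nil))) 
(.lf (nat_lit 596634) (.g (nat_lit 2431) (.e (nat_lit 573477) (nat_lit 12) (.e (nat_lit 57575) (nat_lit 55) (.e (nat_lit 778362) (nat_lit 9) (.e (nat_lit 297) (nat_lit 22) (.e (nat_lit 344110) (nat_lit 19) .nil))))) (.g (nat_lit 0) (.e (nat_lit 411825) (nat_lit 0) .nil) .nil)))) (.nd (nat_lit 9) 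
(.lf (nat_lit 596378) (.g (nat_lit 262) (.e (nat_lit 573471) (nat_lit 11) (.e (nat_lit 16425) (nat_lit 7) (.e (nat_lit 409616) (nat_lit 10) .nil))) (.g (nat_lit 0) (.e (nat_lit 411297) (nat_lit 0) .nil) .nil))) 
(.lf (nat_lit 596890) (.g (nat_lit 3341) (.e (nat_lit 573481) (nat_lit 13) (.e (nat_lit 65604) (nat_lit 9) (.e (nat_lit 336013) (nat_lit 2) (.e (nat_lit 90166) (nat_lit 13) .nil)))) (.g (nat_lit 0) (.e (nat_lit 412321) (nat_lit 0) .nil) .nil)))))) (.nd (nat_lit 7) (.nd (nat_lit 8) (.nd (nat_lit 9) 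
(.lf (nat_lit 596058) (.g (nat_lit 1458) (.e (nat_lit 573445) (nat_lit 0) (.e (nat_lit 3026) (nat_lit 187) (.e (nat_lit 450605) (nat_lit 27) (.e (nat_lit 745476) (nat_lit 0) (.e (nat_lit 1598) (nat_lit 111) (.e (nat_lit 368384) (nat_lit 10) .nil)))))) (.g (nat_lit 1) (.e (nat_lit 410647) (nat_lit 0) .nil) .nil))) 
(.lf (nat_lit 596570) (.g (nat_lit 1862) (.e (nat_lit 573477) (nat_lit 12) (.e (nat_lit 57574) (nat_lit 55) (.e (nat_lit 778361) (nat_lit 9) (.e (nat_lit 297) (nat_lit 22) (.e (nat_lit 344119) (nat_lit 21) .nil))))) (.g (nat_lit 0) (.e (nat_lit 411739) (nat_lit 0) .nil) .nil)))) (.nd (nat_lit 9) 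
(.lf (nat_lit 596314) (.g (nat_lit 3297) (.e (nat_lit 573470) (nat_lit 11) (.e (nat_lit 16387) (nat_lit 0) (.e (nat_lit 7583) (nat_lit 405) (.e (nat_lit 57464) (nat_lit 23) (.e (nat_lit 516151) (nat_lit 9) (.e (nat_lit 426286) (nat_lit 10) (.e (nat_lit 434248) (nat_lit 28) .nil))))))) (.g (nat_lit 1) (.e (nat_lit 411189) (nat_lit 0) .nil) .nil))) 
(.lf (nat_lit 596826) (.g (nat_lit 2037) (.e (nat_lit 573480) (nat_lit 13) (.e (nat_lit 65630) (nat_lit 14) (.e (nat_lit 401425) (nat_lit 2) (.e (nat_lit 196681) (nat_lit 17) (.e (nat_lit 131105) (nat_lit 9) .nil))))) (.g (nat_lit 0) (.e (nat_lit 412189) (nat_lit 0) .nil) .nil))))) (.nd (nat_lit 8) (.nd (nat_lit 9) 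
(.lf (nat_lit 596186) (.g (nat_lit 832) (.e (nat_lit 573456) (nat_lit 9) (.e (nat_lit 430) (nat_lit 32) (.e (nat_lit 426308) (nat_lit 12) (.e (nat_lit 475185) (nat_lit 29) .nil)))) (.g (nat_lit 0) (.e (nat_lit 411023) (nat_lit 0) .nil) .nil))) 
(.lf (nat_lit 596698) (.g (nat_lit 1845) (.e (nat_lit 573478) (nat_lit 12) (.e (nat_lit 57574) (nat_lit 55) (.e (nat_lit 778362) (nat_lit 9) (.e (nat_lit 307) (nat_lit 22) (.e (nat_lit 344107) (nat_lit 19) .nil))))) (.g (nat_lit 0) (.e (nat_lit 411947) (nat_lit 0) .nil) .nil)))) (.nd (nat_lit 9) 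
(.lf (nat_lit 596442) (.g (nat_lit 1496) (.e (nat_lit 573471) (nat_lit 11) (.e (nat_lit 16471) (nat_lit 14) (.e (nat_lit 491526) (nat_lit 0) (.e (nat_lit 1698) (nat_lit 117) .nil)))) (.g (nat_lit 0) (.e (nat_lit 411492) (nat_lit 0) .nil) .nil))) 
(.lf (nat_lit 596954) (.g (nat_lit 4745) (.e (nat_lit 573481) (nat_lit 13) (.e (nat_lit 65604) (nat_lit 9) (.e (nat_lit 336013) (nat_lit 2) (.e (nat_lit 90170) (nat_lit 13) (.e (nat_lit 172138) (nat_lit 15) (.e (nat_lit 2059) (nat_lit 142) (.e (nat_lit 704589) (nat_lit 3) (.e (nat_lit 163976) (nat_lit 30) .nil)))))))) (.g (nat_lit 1) (.e (nat_lit 412409) (nat_lit 0) .nil) .nil))))))) 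
(.nd (nat_lit 6) (.nd (nat_lit 7) (.nd (nat_lit 8) (.nd (nat_lit 9) 
(.lf (nat_lit 596026) (.g (nat_lit 1003) (.e (nat_lit 573445) (nat_lit 0) (.e (nat_lit 3011) (nat_lit 187) (.e (nat_lit 450605) (nat_lit 27) (.e (nat_lit 745475) (nat_lit 0) (.e (nat_lit 1589) (nat_lit 111) (.e (nat_lit 368384) (nat_lit 10) .nil)))))) (.g (nat_lit 1) (.e (nat_lit 410612) (nat_lit 0) .nil) .nil))) 
(.lf (nat_lit 596538) (.g (nat_lit 3489) (.e (nat_lit 573475) (nat_lit 12) (.e (nat_lit 57574) (nat_lit 55) (.e (nat_lit 778362) (nat_lit 9) (.e (nat_lit 297) (nat_lit 22) (.e (nat_lit 344111) (nat_lit 19) .nil))))) (.g (nat_lit 0) (.e (nat_lit 411653) (nat_lit 0) .nil) .nil)))) (.nd (nat_lit 9) 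
(.lf (nat_lit 596282) (.g (nat_lit 4856) (.e (nat_lit 573469) (nat_lit 11) (.e (nat_lit 16459) (nat_lit 12) (.e (nat_lit 475185) (nat_lit 29) (.e (nat_lit 557107) (nat_lit 15) (.e (nat_lit 188440) (nat_lit 20) (.e (nat_lit 3307) (nat_lit 202) .nil)))))) (.g (nat_lit 1) (.e (nat_lit 411155) (nat_lit 0) .nil) .nil))) 
(.lf (nat_lit 596794) (.g (nat_lit 1332) (.e (nat_lit 573479) (nat_lit 13) (.e (nat_lit 65630) (nat_lit 14) (.e (nat_lit 401428) (nat_lit 3) (.e (nat_lit 204854) (nat_lit 26) .nil)))) (.g (nat_lit 0) (.e (nat_lit 412128) (nat_lit 0) .nil) .nil))))) (.nd (nat_lit 8) (.nd (nat_lit 9) 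
(.lf (nat_lit 596154) (.g (nat_lit 1897) (.e (nat_lit 573454) (nat_lit 9) (.e (nat_lit 1315) (nat_lit 98) (.e (nat_lit 147495) (nat_lit 11) (.e (nat_lit 24606) (nat_lit 3) (.e (nat_lit 98372) (nat_lit 29) .nil))))) (.g (nat_lit 0) (.e (nat_lit 410987) (nat_lit 0) .nil) .nil))) 
(.lf (nat_lit 596666) (.g (nat_lit 3986) (.e (nat_lit 573477) (nat_lit 12) (.e (nat_lit 57575) (nat_lit 55) (.e (nat_lit 778466) (nat_lit 11) (.e (nat_lit 24604) (nat_lit 2) (.e (nat_lit 90178) (nat_lit 15) (.e (nat_lit 188442) (nat_lit 20) (.e (nat_lit 3304) (nat_lit 202) .nil))))))) (.g (nat_lit 1) (.e (nat_lit 411859) (nat_lit 0) .nil) .nil)))) (.nd (nat_lit 9) 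
(.lf (nat_lit 596410) (.g (nat_lit 2113) (.e (nat_lit 573471) (nat_lit 11) (.e (nat_lit 16456) (nat_lit 12) (.e (nat_lit 475185) (nat_lit 29) (.e (nat_lit 557107) (nat_lit 15) .nil)))) (.g (nat_lit 0) (.e (nat_lit 411453) (nat_lit 0) .nil) .nil))) 
(.lf (nat_lit 596922) (.g (nat_lit 3419) (.e (nat_lit 573481) (nat_lit 13) (.e (nat_lit 65604) (nat_lit 9) (.e (nat_lit 336013) (nat_lit 2) (.e (nat_lit 90170) (nat_lit 13) (.e (nat_lit 172052) (nat_lit 0) .nil))))) (.g (nat_lit 0) (.e (nat_lit 412363) (nat_lit 0) .nil) .nil)))))) (.nd (nat_lit 7) (.nd (nat_lit 8) (.nd (nat_lit 9) 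
(.lf (nat_lit 596090) (.g (nat_lit 1741) (.e (nat_lit 573450) (nat_lit 9) (.e (nat_lit 375) (nat_lit 32) (.e (nat_lit 426173) (nat_lit 7) (.e (nat_lit 409612) (nat_lit 10) (.e (nat_lit 588) (nat_lit 44) .nil))))) (.g (nat_lit 0) (.e (nat_lit 410847) (nat_lit 0) .nil) .nil))) 
(.lf (nat_lit 596602) (.g (nat_lit 405) (.e (nat_lit 573477) (nat_lit 12) (.e (nat_lit 57574) (nat_lit 55) (.e (nat_lit 778466) (nat_lit 11) .nil))) (.g (nat_lit 0) (.e (nat_lit 411775) (nat_lit 0) .nil) .nil)))) (.nd (nat_lit 9) 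
(.lf (nat_lit 596346) (.g (nat_lit 908) (.e (nat_lit 573470) (nat_lit 11) (.e (nat_lit 16470) (nat_lit 14) (.e (nat_lit 491539) (nat_lit 3) .nil))) (.g (nat_lit 0) (.e (nat_lit 411250) (nat_lit 0) .nil) .nil))) 
(.lf (nat_lit 596858) (.g (nat_lit 1789) (.e (nat_lit 573481) (nat_lit 13) (.e (nat_lit 65571) (nat_lit 3) (.e (nat_lit 98333) (nat_lit 18) (.e (nat_lit 164196) (nat_lit 158) .nil)))) (.g (nat_lit 0) (.e (nat_lit 412271) (nat_lit 0) .nil) .nil))))) (.nd (nat_lit 8) (.nd (nat_lit 9) 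
(.lf (nat_lit 596218) (.g (nat_lit 2594) (.e (nat_lit 573456) (nat_lit 9) (.e (nat_lit 1669) (nat_lit 116) (.e (nat_lit 401459) (nat_lit 13) (.e (nat_lit 483363) (nat_lit 18) (.e (nat_lit 57665) (nat_lit 152) .nil))))) (.g (nat_lit 0) (.e (nat_lit 411055) (nat_lit 0) .nil) .nil))) 
(.lf (nat_lit 596730) (.g (nat_lit 3398) (.e (nat_lit 573478) (nat_lit 12) (.e (nat_lit 57574) (nat_lit 55) (.e (nat_lit 778466) (nat_lit 11) (.e (nat_lit 24607) (nat_lit 3) (.e (nat_lit 98372) (nat_lit 29) (.e (nat_lit 450586) (nat_lit 10) .nil)))))) (.g (nat_lit 1) (.e (nat_lit 411996) (nat_lit 0) .nil) .nil)))) (.nd (nat_lit 9) 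
(.lf (nat_lit 596474) (.g (nat_lit 3959) (.e (nat_lit 573473) (nat_lit 12) (.e (nat_lit 57353) (nat_lit 0) (.e (nat_lit 7265) (nat_lit 384) (.e (nat_lit 57412) (nat_lit 12) (.e (nat_lit 336001) (nat_lit 2) (.e (nat_lit 90170) (nat_lit 13) (.e (nat_lit 172113) (nat_lit 10) (.e (nat_lit 434245) (nat_lit 28) .nil)))))))) (.g (nat_lit 1) (.e (nat_lit 411528) (nat_lit 0) .nil) .nil))) 
(.lf (nat_lit 596986) (.g (nat_lit 2046) (.e (nat_lit 573481) (nat_lit 13) (.e (nat_lit 65604) (nat_lit 9) (.e (nat_lit 336028) (nat_lit 3) (.e (nat_lit 98367) (nat_lit 27) (.e (nat_lit 434270) (nat_lit 38) .nil))))) (.g (nat_lit 0) (.e (nat_lit 412508) (nat_lit 0) .nil) .nil)))))))))) 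
(.nd (nat_lit 3) (.nd (nat_lit 4) (.nd (nat_lit 5) (.nd (nat_lit 6) (.nd (nat_lit 7) 
(.nd (nat_lit 8) (.nd (nat_lit 9) 
(.lf (nat_lit 595974) (.g (nat_lit 1352) (.e (nat_lit 548913) (nat_lit 18) (.e (nat_lit 172126) (nat_lit 14) (.e (nat_lit 491538) (nat_lit 3) (.e (nat_lit 98365) (nat_lit 26) .nil)))) (.g (nat_lit 0) (.e (nat_lit 410321) (nat_lit 0) .nil) .nil))) 
(.lf (nat_lit 596486) (.g (nat_lit 1879) (.e (nat_lit 573474) (nat_lit 12) (.e (nat_lit 57502) (nat_lit 38) (.e (nat_lit 638995) (nat_lit 7) (.e (nat_lit 163979) (nat_lit 30) (.e (nat_lit 573487) (nat_lit 14) .nil))))) (.g (nat_lit 0) (.e (nat_lit 411556) (nat_lit 0) .nil) .nil)))) (.nd (nat_lit 9) 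
(.lf (nat_lit 596230) (.g (nat_lit 2500) (.e (nat_lit 573457) (nat_lit 9) (.e (nat_lit 392) (nat_lit 32) (.e (nat_lit 426316) (nat_lit 12) (.e (nat_lit 475185) (nat_lit 29) (.e (nat_lit 557098) (nat_lit 13) .nil))))) (.g (nat_lit 0) (.e (nat_lit 411067) (nat_lit 0) .nil) .nil))) 
(.lf (nat_lit 596742) (.g (nat_lit 1114) (.e (nat_lit 573479) (nat_lit 13) (.e (nat_lit 65604) (nat_lit 9) (.e (nat_lit 336028) (nat_lit 3) (.e (nat_lit 98359) (nat_lit 26) .nil)))) (.g (nat_lit 0) (.e (nat_lit 412076) (nat_lit 0) .nil) .nil))))) (.nd (nat_lit 8) (.nd (nat_lit 9) 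
(.lf (nat_lit 596102) (.g (nat_lit 886) (.e (nat_lit 573450) (nat_lit 9) (.e (nat_lit 1309) (nat_lit 98) (.e (nat_lit 147496) (nat_lit 11) (.e (nat_lit 24608) (nat_lit 3) .nil)))) (.g (nat_lit 0) (.e (nat_lit 410921) (nat_lit 0) .nil) .nil))) 
(.lf (nat_lit 596614) (.g (nat_lit 1260) (.e (nat_lit 573477) (nat_lit 12) (.e (nat_lit 57574) (nat_lit 55) (.e (nat_lit 778466) (nat_lit 11) (.e (nat_lit 24604) (nat_lit 2) .nil)))) (.g (nat_lit 0) (.e (nat_lit 411791) (nat_lit 0) .nil) .nil)))) (.nd (nat_lit 9) 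
(.lf (nat_lit 596358) (.g (nat_lit 1125) (.e (nat_lit 573470) (nat_lit 11) (.e (nat_lit 16473) (nat_lit 14) (.e (nat_lit 491529) (nat_lit 0) .nil))) (.g (nat_lit 0) (.e (nat_lit 411264) (nat_lit 0) .nil) .nil))) 
(.lf (nat_lit 596870) (.g (nat_lit 1091) (.e (nat_lit 573481) (nat_lit 13) (.e (nat_lit 65604) (nat_lit 9) (.e (nat_lit 336013) (nat_lit 2) (.e (nat_lit 90134) (nat_lit 9) .nil)))) (.g (nat_lit 0) (.e (nat_lit 412287) (nat_lit 0) .nil) .nil)))))) (.nd (nat_lit 7) (.nd (nat_lit 8) (.nd (nat_lit 9) 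
(.lf (nat_lit 596038) (.g (nat_lit 790) (.e (nat_lit 573445) (nat_lit 0) (.e (nat_lit 3012) (nat_lit 187) (.e (nat_lit 450605) (nat_lit 27) (.e (nat_lit 745475) (nat_lit 0) (.e (nat_lit 1595) (nat_lit 111) (.e (nat_lit 368384) (nat_lit 10) .nil)))))) (.g (nat_lit 1) (.e (nat_lit 410625) (nat_lit 0) .nil) .nil))) 
(.lf (nat_lit 596550) (.g (nat_lit 1664) (.e (nat_lit 573475) (nat_lit 12) (.e (nat_lit 57574) (nat_lit 55) (.e (nat_lit 778466) (nat_lit 11) (.e (nat_lit 24589) (nat_lit 0) (.e (nat_lit 1698) (nat_lit 117) .nil))))) (.g (nat_lit 0) (.e (nat_lit 411668) (nat_lit 0) .nil) .nil)))) (.nd (nat_lit 9) 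
(.lf (nat_lit 596294) (.g (nat_lit 2729) (.e (nat_lit 573469) (nat_lit 11) (.e (nat_lit 16470) (nat_lit 14) (.e (nat_lit 491537) (nat_lit 2) (.e (nat_lit 90178) (nat_lit 15) .nil)))) (.g (nat_lit 0) (.e (nat_lit 411167) (nat_lit 0) .nil) .nil))) 
(.lf (nat_lit 596806) (.g (nat_lit 3796) (.e (nat_lit 573480) (nat_lit 13) (.e (nat_lit 65610) (nat_lit 10) (.e (nat_lit 344117) (nat_lit 21) (.e (nat_lit 516151) (nat_lit 9) (.e (nat_lit 426412) (nat_lit 15) (.e (nat_lit 2056) (nat_lit 142) (.e (nat_lit 704589) (nat_lit 3) (.e (nat_lit 163976) (nat_lit 30) .nil)))))))) (.g (nat_lit 1) (.e (nat_lit 412169) (nat_lit 0) .nil) .nil))))) 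
(.nd (nat_lit 8) (.nd (nat_lit 9) 
(.lf (nat_lit 596166) (.g (nat_lit 2717) (.e (nat_lit 573456) (nat_lit 9) (.e (nat_lit 430) (nat_lit 32) (.e (nat_lit 426009) (nat_lit 0) (.e (nat_lit 7581) (nat_lit 405) (.e (nat_lit 57464) (nat_lit 23) (.e (nat_lit 516165) (nat_lit 12) (.e (nat_lit 450586) (nat_lit 10) .nil))))))) (.g (nat_lit 1) (.e (nat_lit 411001) (nat_lit 0) .nil) .nil))) 
(.lf (nat_lit 596678) (.g (nat_lit 403) (.e (nat_lit 573477) (nat_lit 12) (.e (nat_lit 57750) (nat_lit 201) (.e (nat_lit 3090) (nat_lit 191) .nil))) (.g (nat_lit 0) (.e (nat_lit 411885) (nat_lit 0) .nil) .nil)))) (.nd (nat_lit 9) 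
(.lf (nat_lit 596422) (.g (nat_lit 1547) (.e (nat_lit 573471) (nat_lit 11) (.e (nat_lit 16466) (nat_lit 13) (.e (nat_lit 483346) (nat_lit 17) .nil))) (.g (nat_lit 0) (.e (nat_lit 411471) (nat_lit 0) .nil) .nil))) 
(.lf (nat_lit 596934) (.g (nat_lit 2222) (.e (nat_lit 573481) (nat_lit 13) (.e (nat_lit 65604) (nat_lit 9) (.e (nat_lit 336013) (nat_lit 2) (.e (nat_lit 90170) (nat_lit 13) (.e (nat_lit 172061) (nat_lit 1) (.e (nat_lit 164346) (nat_lit 240) (.e (nat_lit 2601) (nat_lit 163) (.e (nat_lit 163976) (nat_lit 30) .nil)))))))) (.g (nat_lit 1) (.e (nat_lit 412378) (nat_lit 0) .nil) .nil))))))) 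
(.nd (nat_lit 6) (.nd (nat_lit 7) (.nd (nat_lit 8) (.nd (nat_lit 9) 
(.lf (nat_lit 596006) (.g (nat_lit 886) (.e (nat_lit 573443) (nat_lit 0) (.e (nat_lit 3011) (nat_lit 187) (.e (nat_lit 450605) (nat_lit 27) (.e (nat_lit 745475) (nat_lit 0) (.e (nat_lit 1598) (nat_lit 111) (.e (nat_lit 368384) (nat_lit 10) .nil)))))) (.g (nat_lit 1) (.e (nat_lit 410557) (nat_lit 0) .nil) .nil))) 
(.lf (nat_lit 596518) (.g (nat_lit 4426) (.e (nat_lit 573475) (nat_lit 12) (.e (nat_lit 57503) (nat_lit 38) (.e (nat_lit 638995) (nat_lit 7) (.e (nat_lit 163977) (nat_lit 30) (.e (nat_lit 573487) (nat_lit 14) (.e (nat_lit 73754) (nat_lit 8) (.e (nat_lit 557105) (nat_lit 14) (.e (nat_lit 180252) (nat_lit 10) .nil)))))))) (.g (nat_lit 1) (.e (nat_lit 411629) (nat_lit 0) .nil) .nil)))) 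
(.nd (nat_lit 9) 
(.lf (nat_lit 596262) (.g (nat_lit 1595) (.e (nat_lit 573469) (nat_lit 11) (.e (nat_lit 16435) (nat_lit 9) (.e (nat_lit 426131) (nat_lit 3) (.e (nat_lit 204885) (nat_lit 33) .nil)))) (.g (nat_lit 0) (.e (nat_lit 411113) (nat_lit 0) .nil) .nil))) 
(.lf (nat_lit 596774) (.g (nat_lit 1758) (.e (nat_lit 573479) (nat_lit 13) (.e (nat_lit 65619) (nat_lit 10) (.e (nat_lit 344117) (nat_lit 21) (.e (nat_lit 516151) (nat_lit 9) (.e (nat_lit 433920) (nat_lit 19) (.e (nat_lit 114432) (nat_lit 3) (.e (nat_lit 163974) (nat_lit 30) .nil))))))) (.g (nat_lit 1) (.e (nat_lit 412108) (nat_lit 0) .nil) .nil))))) (.nd (nat_lit 8) (.nd (nat_lit 9) 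
(.lf (nat_lit 596134) (.g (nat_lit 1879) (.e (nat_lit 573451) (nat_lit 9) (.e (nat_lit 1449) (nat_lit 108) (.e (nat_lit 336013) (nat_lit 2) (.e (nat_lit 90160) (nat_lit 11) .nil)))) (.g (nat_lit 0) (.e (nat_lit 410953) (nat_lit 0) .nil) .nil))) 
(.lf (nat_lit 596646) (.g (nat_lit 2234) (.e (nat_lit 573477) (nat_lit 12) (.e (nat_lit 57575) (nat_lit 55) (.e (nat_lit 778465) (nat_lit 11) (.e (nat_lit 24604) (nat_lit 2) (.e (nat_lit 90178) (nat_lit 15) .nil))))) (.g (nat_lit 0) (.e (nat_lit 411838) (nat_lit 0) .nil) .nil)))) (.nd (nat_lit 9) 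
(.lf (nat_lit 596390) (.g (nat_lit 337) (.e (nat_lit 573471) (nat_lit 11) (.e (nat_lit 16446) (nat_lit 9) (.e (nat_lit 426133) (nat_lit 3) .nil))) (.g (nat_lit 0) (.e (nat_lit 411369) (nat_lit 0) .nil) .nil))) 
(.lf (nat_lit 596902) (.g (nat_lit 2737) (.e (nat_lit 573481) (nat_lit 13) (.e (nat_lit 65604) (nat_lit 9) (.e (nat_lit 336013) (nat_lit 2) (.e (nat_lit 90170) (nat_lit 13) (.e (nat_lit 172038) (nat_lit 0) .nil))))) (.g (nat_lit 0) (.e (nat_lit 412334) (nat_lit 0) .nil) .nil)))))) (.nd (nat_lit 7) (.nd (nat_lit 8) (.nd (nat_lit 9) 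
(.lf (nat_lit 596070) (.g (nat_lit 1570) (.e (nat_lit 581376) (nat_lit 6) (.e (nat_lit 188434) (nat_lit 20) (.e (nat_lit 3579) (nat_lit 223) (.e (nat_lit 745476) (nat_lit 0) (.e (nat_lit 1599) (nat_lit 111) .nil))))) (.g (nat_lit 0) (.e (nat_lit 410732) (nat_lit 0) .nil) .nil))) 
(.lf (nat_lit 596582) (.g (nat_lit 1412) (.e (nat_lit 573477) (nat_lit 12) (.e (nat_lit 57574) (nat_lit 55) (.e (nat_lit 778465) (nat_lit 11) (.e (nat_lit 24603) (nat_lit 2) (.e (nat_lit 90168) (nat_lit 13) .nil))))) (.g (nat_lit 0) (.e (nat_lit 411754) (nat_lit 0) .nil) .nil)))) (.nd (nat_lit 9) 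
(.lf (nat_lit 596326) (.g (nat_lit 1023) (.e (nat_lit 573470) (nat_lit 11) (.e (nat_lit 16451) (nat_lit 11) (.e (nat_lit 458789) (nat_lit 23) (.e (nat_lit 532481) (nat_lit 0) (.e (nat_lit 6724) (nat_lit 362) .nil))))) (.g (nat_lit 0) (.e (nat_lit 411227) (nat_lit 0) .nil) .nil))) 
(.lf (nat_lit 596838) (.g (nat_lit 1438) (.e (nat_lit 573480) (nat_lit 13) (.e (nat_lit 65630) (nat_lit 14) (.e (nat_lit 401428) (nat_lit 3) (.e (nat_lit 204865) (nat_lit 28) (.e (nat_lit 352257) (nat_lit 0) (.e (nat_lit 7936) (nat_lit 202) .nil)))))) (.g (nat_lit 1) (.e (nat_lit 412201) (nat_lit 0) .nil) .nil))))) (.nd (nat_lit 8) (.nd (nat_lit 9) 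
(.lf (nat_lit 596198) (.g (nat_lit 3618) (.e (nat_lit 573456) (nat_lit 9) (.e (nat_lit 430) (nat_lit 32) (.e (nat_lit 426344) (nat_lit 14) (.e (nat_lit 491539) (nat_lit 3) (.e (nat_lit 98373) (nat_lit 29) (.e (nat_lit 450587) (nat_lit 10) .nil)))))) (.g (nat_lit 1) (.e (nat_lit 411035) (nat_lit 0) .nil) .nil))) 
(.lf (nat_lit 596710) (.g (nat_lit 2300) (.e (nat_lit 573478) (nat_lit 12) (.e (nat_lit 57574) (nat_lit 55) (.e (nat_lit 778465) (nat_lit 11) (.e (nat_lit 24607) (nat_lit 3) (.e (nat_lit 98374) (nat_lit 29) (.e (nat_lit 450586) (nat_lit 10) .nil)))))) (.g (nat_lit 1) (.e (nat_lit 411963) (nat_lit 0) .nil) .nil)))) (.nd (nat_lit 9) 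
(.lf (nat_lit 596454) (.g (nat_lit 1524) (.e (nat_lit 573471) (nat_lit 11) (.e (nat_lit 16473) (nat_lit 14) (.e (nat_lit 491535) (nat_lit 2) (.e (nat_lit 90178) (nat_lit 15) .nil)))) (.g (nat_lit 0) (.e (nat_lit 411506) (nat_lit 0) .nil) .nil))) 
(.lf (nat_lit 596966) (.g (nat_lit 1184) (.e (nat_lit 573481) (nat_lit 13) (.e (nat_lit 65604) (nat_lit 9) (.e (nat_lit 336028) (nat_lit 3) (.e (nat_lit 98359) (nat_lit 26) .nil)))) (.g (nat_lit 0) (.e (nat_lit 412446) (nat_lit 0) .nil) .nil)))))))) (.nd (nat_lit 5) (.nd (nat_lit 6) (.nd (nat_lit 7) (.nd (nat_lit 8) (.nd (nat_lit 9) 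
(.lf (nat_lit 595990) (.g (nat_lit 1200) (.e (nat_lit 548889) (nat_lit 9) (.e (nat_lit 65624) (nat_lit 12) (.e (nat_lit 385072) (nat_lit 31) (.e (nat_lit 573493) (nat_lit 15) .nil)))) (.g (nat_lit 0) (.e (nat_lit 410501) (nat_lit 0) .nil) .nil))) 
(.lf (nat_lit 596502) (.g (nat_lit 3512) (.e (nat_lit 573474) (nat_lit 12) (.e (nat_lit 57572) (nat_lit 54) (.e (nat_lit 770072) (nat_lit 8) (.e (nat_lit 65571) (nat_lit 3) (.e (nat_lit 98356) (nat_lit 26) (.e (nat_lit 433920) (nat_lit 10) (.e (nat_lit 434248) (nat_lit 28) .nil))))))) (.g (nat_lit 1) (.e (nat_lit 411580) (nat_lit 0) .nil) .nil)))) (.nd (nat_lit 9) 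
(.lf (nat_lit 596246) (.g (nat_lit 1376) (.e (nat_lit 573460) (nat_lit 9) (.e (nat_lit 426) (nat_lit 32) (.e (nat_lit 426011) (nat_lit 0) (.e (nat_lit 7581) (nat_lit 405) .nil)))) (.g (nat_lit 0) (.e (nat_lit 411092) (nat_lit 0) .nil) .nil))) 
(.lf (nat_lit 596758) (.g (nat_lit 3304) (.e (nat_lit 573479) (nat_lit 13) (.e (nat_lit 65619) (nat_lit 10) (.e (nat_lit 344117) (nat_lit 21) (.e (nat_lit 516145) (nat_lit 9) (.e (nat_lit 425992) (nat_lit 0) .nil))))) (.g (nat_lit 0) (.e (nat_lit 412092) (nat_lit 0) .nil) .nil))))) (.nd (nat_lit 8) (.nd (nat_lit 9) 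
(.lf (nat_lit 596118) (.g (nat_lit 3946) (.e (nat_lit 573451) (nat_lit 9) (.e (nat_lit 430) (nat_lit 32) (.e (nat_lit 426012) (nat_lit 0) (.e (nat_lit 7583) (nat_lit 405) (.e (nat_lit 57464) (nat_lit 23) (.e (nat_lit 516151) (nat_lit 9) (.e (nat_lit 426286) (nat_lit 10) (.e (nat_lit 434245) (nat_lit 28) .nil)))))))) (.g (nat_lit 1) (.e (nat_lit 410937) (nat_lit 0) .nil) .nil))) 
(.lf (nat_lit 596630) (.g (nat_lit 3377) (.e (nat_lit 573477) (nat_lit 12) (.e (nat_lit 57574) (nat_lit 55) (.e (nat_lit 778466) (nat_lit 11) (.e (nat_lit 24608) (nat_lit 3) (.e (nat_lit 98362) (nat_lit 26) .nil))))) (.g (nat_lit 0) (.e (nat_lit 411820) (nat_lit 0) .nil) .nil)))) (.nd (nat_lit 9) 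
(.lf (nat_lit 596374) (.g (nat_lit 1315) (.e (nat_lit 573471) (nat_lit 11) (.e (nat_lit 16425) (nat_lit 7) (.e (nat_lit 409603) (nat_lit 0) .nil))) (.g (nat_lit 0) (.e (nat_lit 411290) (nat_lit 0) .nil) .nil))) 
(.lf (nat_lit 596886) (.g (nat_lit 1764) (.e (nat_lit 573481) (nat_lit 13) (.e (nat_lit 65604) (nat_lit 9) (.e (nat_lit 336013) (nat_lit 2) (.e (nat_lit 90165) (nat_lit 12) (.e (nat_lit 164207) (nat_lit 176) .nil))))) (.g (nat_lit 0) (.e (nat_lit 412306) (nat_lit 0) .nil) .nil)))))) (.nd (nat_lit 7) (.nd (nat_lit 8) (.nd (nat_lit 9) 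
(.lf (nat_lit 596054) (.g (nat_lit 1155) (.e (nat_lit 573445) (nat_lit 0) (.e (nat_lit 3026) (nat_lit 187) (.e (nat_lit 450605) (nat_lit 27) (.e (nat_lit 745475) (nat_lit 0) (.e (nat_lit 1595) (nat_lit 111) (.e (nat_lit 368384) (nat_lit 10) .nil)))))) (.g (nat_lit 1) (.e (nat_lit 410643) (nat_lit 0) .nil) .nil))) 
(.lf (nat_lit 596566) (.g (nat_lit 1731) (.e (nat_lit 573476) (nat_lit 12) (.e (nat_lit 57575) (nat_lit 55) (.e (nat_lit 778466) (nat_lit 11) (.e (nat_lit 24608) (nat_lit 3) .nil)))) (.g (nat_lit 0) (.e (nat_lit 411735) (nat_lit 0) .nil) .nil)))) (.nd (nat_lit 9) 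
(.lf (nat_lit 596310) (.g (nat_lit 2067) (.e (nat_lit 573469) (nat_lit 11) (.e (nat_lit 16473) (nat_lit 14) (.e (nat_lit 491539) (nat_lit 3) (.e (nat_lit 98358) (nat_lit 26) (.e (nat_lit 426294) (nat_lit 11) .nil))))) (.g (nat_lit 0) (.e (nat_lit 411184) (nat_lit 0) .nil) .nil))) 
(.lf (nat_lit 596822) (.g (nat_lit 1502) (.e (nat_lit 573480) (nat_lit 13) (.e (nat_lit 65630) (nat_lit 14) (.e (nat_lit 401425) (nat_lit 2) (.e (nat_lit 196674) (nat_lit 15) .nil)))) (.g (nat_lit 0) (.e (nat_lit 412185) (nat_lit 0) .nil) .nil))))) (.nd (nat_lit 8) (.nd (nat_lit 9) 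
(.lf (nat_lit 596182) (.g (nat_lit 2742) (.e (nat_lit 573456) (nat_lit 9) (.e (nat_lit 430) (nat_lit 32) (.e (nat_lit 426012) (nat_lit 0) (.e (nat_lit 7583) (nat_lit 405) (.e (nat_lit 57464) (nat_lit 23) (.e (nat_lit 516165) (nat_lit 12) (.e (nat_lit 450586) (nat_lit 10) .nil))))))) (.g (nat_lit 1) (.e (nat_lit 411017) (nat_lit 0) .nil) .nil))) 
(.lf (nat_lit 596694) (.g (nat_lit 2699) (.e (nat_lit 573478) (nat_lit 12) (.e (nat_lit 57574) (nat_lit 55) (.e (nat_lit 778362) (nat_lit 9) (.e (nat_lit 232) (nat_lit 21) (.e (nat_lit 336005) (nat_lit 2) .nil))))) (.g (nat_lit 0) (.e (nat_lit 411941) (nat_lit 0) .nil) .nil)))) (.nd (nat_lit 9) 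
(.lf (nat_lit 596438) (.g (nat_lit 844) (.e (nat_lit 573471) (nat_lit 11) (.e (nat_lit 16470) (nat_lit 14) (.e (nat_lit 491573) (nat_lit 15) .nil))) (.g (nat_lit 0) (.e (nat_lit 411488) (nat_lit 0) .nil) .nil))) 
(.lf (nat_lit 596950) (.g (nat_lit 3318) (.e (nat_lit 573481) (nat_lit 13) (.e (nat_lit 65604) (nat_lit 9) (.e (nat_lit 336013) (nat_lit 2) (.e (nat_lit 90170) (nat_lit 13) (.e (nat_lit 172137) (nat_lit 15) (.e (nat_lit 2059) (nat_lit 142) (.e (nat_lit 704589) (nat_lit 3) (.e (nat_lit 163975) (nat_lit 30) .nil)))))))) (.g (nat_lit 1) (.e (nat_lit 412405) (nat_lit 0) .nil) .nil))))))) 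
(.nd (nat_lit 6) (.nd (nat_lit 7) (.nd (nat_lit 8) (.nd (nat_lit 9) 
(.lf (nat_lit 596022) (.g (nat_lit 1110) (.e (nat_lit 573444) (nat_lit 0) (.e (nat_lit 3026) (nat_lit 187) (.e (nat_lit 450605) (nat_lit 27) (.e (nat_lit 745476) (nat_lit 0) (.e (nat_lit 1592) (nat_lit 111) (.e (nat_lit 368384) (nat_lit 10) .nil)))))) (.g (nat_lit 1) (.e (nat_lit 410590) (nat_lit 0) .nil) .nil))) 
(.lf (nat_lit 596534) (.g (nat_lit 2699) (.e (nat_lit 573475) (nat_lit 12) (.e (nat_lit 57574) (nat_lit 55) (.e (nat_lit 778362) (nat_lit 9) (.e (nat_lit 232) (nat_lit 21) (.e (nat_lit 336022) (nat_lit 3) .nil))))) (.g (nat_lit 0) (.e (nat_lit 411649) (nat_lit 0) .nil) .nil)))) (.nd (nat_lit 9) 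
(.lf (nat_lit 596278) (.g (nat_lit 2127) (.e (nat_lit 573469) (nat_lit 11) (.e (nat_lit 16459) (nat_lit 12) (.e (nat_lit 475185) (nat_lit 29) (.e (nat_lit 557098) (nat_lit 13) .nil)))) (.g (nat_lit 0) (.e (nat_lit 411151) (nat_lit 0) .nil) .nil))) 
(.lf (nat_lit 596790) (.g (nat_lit 620) (.e (nat_lit 573479) (nat_lit 13) (.e (nat_lit 65630) (nat_lit 14) (.e (nat_lit 401425) (nat_lit 2) .nil))) (.g (nat_lit 0) (.e (nat_lit 412124) (nat_lit 0) .nil) .nil))))) (.nd (nat_lit 8) (.nd (nat_lit 9) 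
(.lf (nat_lit 596150) (.g (nat_lit 2042) (.e (nat_lit 573452) (nat_lit 9) (.e (nat_lit 1667) (nat_lit 116) (.e (nat_lit 401459) (nat_lit 13) (.e (nat_lit 483364) (nat_lit 18) (.e (nat_lit 57665) (nat_lit 152) .nil))))) (.g (nat_lit 0) (.e (nat_lit 410981) (nat_lit 0) .nil) .nil))) 
(.lf (nat_lit 596662) (.g (nat_lit 2939) (.e (nat_lit 573477) (nat_lit 12) (.e (nat_lit 57575) (nat_lit 55) (.e (nat_lit 778466) (nat_lit 11) (.e (nat_lit 24604) (nat_lit 2) (.e (nat_lit 90176) (nat_lit 15) (.e (nat_lit 188439) (nat_lit 20) (.e (nat_lit 3296) (nat_lit 202) .nil))))))) (.g (nat_lit 1) (.e (nat_lit 411855) (nat_lit 0) .nil) .nil)))) (.nd (nat_lit 9) 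
(.lf (nat_lit 596406) (.g (nat_lit 3553) (.e (nat_lit 573471) (nat_lit 11) (.e (nat_lit 16452) (nat_lit 11) (.e (nat_lit 458789) (nat_lit 23) (.e (nat_lit 532569) (nat_lit 16) (.e (nat_lit 401448) (nat_lit 10) (.e (nat_lit 434246) (nat_lit 28) .nil)))))) (.g (nat_lit 1) (.e (nat_lit 411442) (nat_lit 0) .nil) .nil))) 
(.lf (nat_lit 596918) (.g (nat_lit 3447) (.e (nat_lit 573481) (nat_lit 13) (.e (nat_lit 65604) (nat_lit 9) (.e (nat_lit 336013) (nat_lit 2) (.e (nat_lit 90170) (nat_lit 13) (.e (nat_lit 172048) (nat_lit 0) .nil))))) (.g (nat_lit 0) (.e (nat_lit 412355) (nat_lit 0) .nil) .nil)))))) (.nd (nat_lit 7) (.nd (nat_lit 8) (.nd (nat_lit 9) 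
(.lf (nat_lit 596086) (.g (nat_lit 2680) (.e (nat_lit 573449) (nat_lit 9) (.e (nat_lit 1669) (nat_lit 116) (.e (nat_lit 401459) (nat_lit 13) (.e (nat_lit 483363) (nat_lit 18) (.e (nat_lit 57657) (nat_lit 152) .nil))))) (.g (nat_lit 0) (.e (nat_lit 410841) (nat_lit 0) .nil) .nil))) 
(.lf (nat_lit 596598) (.g (nat_lit 4681) (.e (nat_lit 573477) (nat_lit 12) (.e (nat_lit 57574) (nat_lit 55) (.e (nat_lit 778465) (nat_lit 11) (.e (nat_lit 24608) (nat_lit 3) (.e (nat_lit 98373) (nat_lit 29) (.e (nat_lit 450587) (nat_lit 10) .nil)))))) (.g (nat_lit 1) (.e (nat_lit 411771) (nat_lit 0) .nil) .nil)))) (.nd (nat_lit 9) 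
(.lf (nat_lit 596342) (.g (nat_lit 1107) (.e (nat_lit 573470) (nat_lit 11) (.e (nat_lit 16470) (nat_lit 14) (.e (nat_lit 491524) (nat_lit 0) (.e (nat_lit 1811) (nat_lit 120) .nil)))) (.g (nat_lit 0) (.e (nat_lit 411246) (nat_lit 0) .nil) .nil))) 
(.lf (nat_lit 596854) (.g (nat_lit 2359) (.e (nat_lit 573481) (nat_lit 13) (.e (nat_lit 65563) (nat_lit 1) (.e (nat_lit 57931) (nat_lit 282) (.e (nat_lit 163943) (nat_lit 19) (.e (nat_lit 483343) (nat_lit 17) (.e (nat_lit 6712) (nat_lit 360) (.e (nat_lit 163976) (nat_lit 30) .nil))))))) (.g (nat_lit 1) (.e (nat_lit 412233) (nat_lit 0) .nil) .nil))))) (.nd (nat_lit 8) (.nd (nat_lit 9) 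
(.lf (nat_lit 596214) (.g (nat_lit 2570) (.e (nat_lit 573456) (nat_lit 9) (.e (nat_lit 1669) (nat_lit 116) (.e (nat_lit 401459) (nat_lit 13) (.e (nat_lit 483363) (nat_lit 18) (.e (nat_lit 57657) (nat_lit 152) .nil))))) (.g (nat_lit 0) (.e (nat_lit 411051) (nat_lit 0) .nil) .nil))) 
(.lf (nat_lit 596726) (.g (nat_lit 4441) (.e (nat_lit 573478) (nat_lit 12) (.e (nat_lit 57574) (nat_lit 55) (.e (nat_lit 778466) (nat_lit 11) (.e (nat_lit 24604) (nat_lit 2) (.e (nat_lit 90170) (nat_lit 13) (.e (nat_lit 172113) (nat_lit 10) (.e (nat_lit 434247) (nat_lit 28) .nil))))))) (.g (nat_lit 1) (.e (nat_lit 411991) (nat_lit 0) .nil) .nil)))) (.nd (nat_lit 9) 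
(.lf (nat_lit 596470) (.g (nat_lit 1494) (.e (nat_lit 573472) (nat_lit 12) (.e (nat_lit 57575) (nat_lit 55) (.e (nat_lit 778465) (nat_lit 11) (.e (nat_lit 32512) (nat_lit 3) .nil)))) (.g (nat_lit 0) (.e (nat_lit 411524) (nat_lit 0) .nil) .nil))) 
(.lf (nat_lit 596982) (.g (nat_lit 2231) (.e (nat_lit 573481) (nat_lit 13) (.e (nat_lit 65604) (nat_lit 9) (.e (nat_lit 336028) (nat_lit 3) (.e (nat_lit 98363) (nat_lit 26) (.e (nat_lit 426419) (nat_lit 15) .nil))))) (.g (nat_lit 0) (.e (nat_lit 412488) (nat_lit 0) .nil) .nil))))))))) (.nd (nat_lit 4) (.nd (nat_lit 5) (.nd (nat_lit 6) (.nd (nat_lit 7) (.nd (nat_lit 8) (.nd (nat_lit 9) 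
(.lf (nat_lit 595982) (.g (nat_lit 2179) (.e (nat_lit 548915) (nat_lit 20) (.e (nat_lit 196352) (nat_lit 0) (.e (nat_lit 1853) (nat_lit 124) (.e (nat_lit 557107) (nat_lit 15) (.e (nat_lit 188440) (nat_lit 20) (.e (nat_lit 3271) (nat_lit 199) .nil)))))) (.g (nat_lit 1) (.e (nat_lit 410372) (nat_lit 0) .nil) .nil))) 
(.lf (nat_lit 596494) (.g (nat_lit 3525) (.e (nat_lit 573474) (nat_lit 12) (.e (nat_lit 57504) (nat_lit 38) (.e (nat_lit 638995) (nat_lit 7) (.e (nat_lit 163978) (nat_lit 30) (.e (nat_lit 573487) (nat_lit 14) (.e (nat_lit 73753) (nat_lit 8) (.e (nat_lit 557103) (nat_lit 14) (.e (nat_lit 180250) (nat_lit 10) .nil)))))))) (.g (nat_lit 1) (.e (nat_lit 411564) (nat_lit 0) .nil) .nil)))) 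
(.nd (nat_lit 9) 
(.lf (nat_lit 596238) (.g (nat_lit 4815) (.e (nat_lit 573458) (nat_lit 9) (.e (nat_lit 394) (nat_lit 32) (.e (nat_lit 426316) (nat_lit 12) (.e (nat_lit 475185) (nat_lit 29) (.e (nat_lit 557100) (nat_lit 13) (.e (nat_lit 172113) (nat_lit 10) (.e (nat_lit 434245) (nat_lit 28) .nil))))))) (.g (nat_lit 1) (.e (nat_lit 411080) (nat_lit 0) .nil) .nil))) 
(.lf (nat_lit 596750) (.g (nat_lit 1930) (.e (nat_lit 573479) (nat_lit 13) (.e (nat_lit 65619) (nat_lit 10) (.e (nat_lit 344117) (nat_lit 21) (.e (nat_lit 516097) (nat_lit 0) (.e (nat_lit 7366) (nat_lit 388) .nil))))) (.g (nat_lit 0) (.e (nat_lit 412084) (nat_lit 0) .nil) .nil))))) (.nd (nat_lit 8) (.nd (nat_lit 9) 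
(.lf (nat_lit 596110) (.g (nat_lit 4187) (.e (nat_lit 573451) (nat_lit 9) (.e (nat_lit 430) (nat_lit 32) (.e (nat_lit 426009) (nat_lit 0) (.e (nat_lit 7490) (nat_lit 402) (.e (nat_lit 1239) (nat_lit 91) (.e (nat_lit 90170) (nat_lit 13) (.e (nat_lit 172113) (nat_lit 10) (.e (nat_lit 434245) (nat_lit 28) .nil)))))))) (.g (nat_lit 1) (.e (nat_lit 410929) (nat_lit 0) .nil) .nil))) 
(.lf (nat_lit 596622) (.g (nat_lit 2880) (.e (nat_lit 573477) (nat_lit 12) (.e (nat_lit 57574) (nat_lit 55) (.e (nat_lit 778466) (nat_lit 11) (.e (nat_lit 24604) (nat_lit 2) (.e (nat_lit 90176) (nat_lit 15) (.e (nat_lit 188439) (nat_lit 20) (.e (nat_lit 3308) (nat_lit 202) .nil))))))) (.g (nat_lit 1) (.e (nat_lit 411809) (nat_lit 0) .nil) .nil)))) (.nd (nat_lit 9) 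
(.lf (nat_lit 596366) (.g (nat_lit 4079) (.e (nat_lit 573471) (nat_lit 11) (.e (nat_lit 16385) (nat_lit 0) (.e (nat_lit 7581) (nat_lit 405) (.e (nat_lit 57464) (nat_lit 23) (.e (nat_lit 516151) (nat_lit 9) (.e (nat_lit 426286) (nat_lit 10) (.e (nat_lit 434245) (nat_lit 28) .nil))))))) (.g (nat_lit 1) (.e (nat_lit 411275) (nat_lit 0) .nil) .nil))) 
(.lf (nat_lit 596878) (.g (nat_lit 1998) (.e (nat_lit 573481) (nat_lit 13) (.e (nat_lit 65604) (nat_lit 9) (.e (nat_lit 336013) (nat_lit 2) (.e (nat_lit 90134) (nat_lit 9) (.e (nat_lit 3098) (nat_lit 192) .nil))))) (.g (nat_lit 0) (.e (nat_lit 412298) (nat_lit 0) .nil) .nil)))))) (.nd (nat_lit 7) (.nd (nat_lit 8) (.nd (nat_lit 9) 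
(.lf (nat_lit 596046) (.g (nat_lit 785) (.e (nat_lit 573445) (nat_lit 0) (.e (nat_lit 3020) (nat_lit 187) (.e (nat_lit 450605) (nat_lit 27) (.e (nat_lit 745475) (nat_lit 0) (.e (nat_lit 1595) (nat_lit 111) (.e (nat_lit 368384) (nat_lit 10) .nil)))))) (.g (nat_lit 1) (.e (nat_lit 410633) (nat_lit 0) .nil) .nil))) 
(.lf (nat_lit 596558) (.g (nat_lit 3886) (.e (nat_lit 573475) (nat_lit 12) (.e (nat_lit 57574) (nat_lit 55) (.e (nat_lit 778466) (nat_lit 11) (.e (nat_lit 24608) (nat_lit 3) (.e (nat_lit 98381) (nat_lit 31) (.e (nat_lit 466967) (nat_lit 20) (.e (nat_lit 3304) (nat_lit 202) .nil))))))) (.g (nat_lit 1) (.e (nat_lit 411683) (nat_lit 0) .nil) .nil)))) (.nd (nat_lit 9) 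
(.lf (nat_lit 596302) (.g (nat_lit 869) (.e (nat_lit 573469) (nat_lit 11) (.e (nat_lit 16473) (nat_lit 14) (.e (nat_lit 491521) (nat_lit 0) .nil))) (.g (nat_lit 0) (.e (nat_lit 411175) (nat_lit 0) .nil) .nil))) 
(.lf (nat_lit 596814) (.g (nat_lit 3965) (.e (nat_lit 573480) (nat_lit 13) (.e (nat_lit 65618) (nat_lit 10) (.e (nat_lit 344117) (nat_lit 21) (.e (nat_lit 516151) (nat_lit 9) (.e (nat_lit 426412) (nat_lit 15) .nil))))) (.g (nat_lit 0) (.e (nat_lit 412177) (nat_lit 0) .nil) .nil))))) (.nd (nat_lit 8) (.nd (nat_lit 9) 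
(.lf (nat_lit 596174) (.g (nat_lit 3152) (.e (nat_lit 573456) (nat_lit 9) (.e (nat_lit 430) (nat_lit 32) (.e (nat_lit 426011) (nat_lit 0) (.e (nat_lit 7583) (nat_lit 405) (.e (nat_lit 57464) (nat_lit 23) (.e (nat_lit 516165) (nat_lit 12) (.e (nat_lit 450586) (nat_lit 10) .nil))))))) (.g (nat_lit 1) (.e (nat_lit 411009) (nat_lit 0) .nil) .nil))) 
(.lf (nat_lit 596686) (.g (nat_lit 2457) (.e (nat_lit 573477) (nat_lit 12) (.e (nat_lit 57750) (nat_lit 201) (.e (nat_lit 3090) (nat_lit 191) (.e (nat_lit 483364) (nat_lit 18) (.e (nat_lit 57664) (nat_lit 152) (.e (nat_lit 7936) (nat_lit 165) (.e (nat_lit 180251) (nat_lit 10) .nil))))))) (.g (nat_lit 1) (.e (nat_lit 411907) (nat_lit 0) .nil) .nil)))) (.nd (nat_lit 9) 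
(.lf (nat_lit 596430) (.g (nat_lit 366) (.e (nat_lit 573471) (nat_lit 11) (.e (nat_lit 16470) (nat_lit 14) (.e (nat_lit 491537) (nat_lit 2) .nil))) (.g (nat_lit 0) (.e (nat_lit 411479) (nat_lit 0) .nil) .nil))) 
(.lf (nat_lit 596942) (.g (nat_lit 2836) (.e (nat_lit 573481) (nat_lit 13) (.e (nat_lit 65604) (nat_lit 9) (.e (nat_lit 336013) (nat_lit 2) (.e (nat_lit 90170) (nat_lit 13) (.e (nat_lit 172069) (nat_lit 4) (.e (nat_lit 229663) (nat_lit 240) (.e (nat_lit 2612) (nat_lit 163) (.e (nat_lit 163977) (nat_lit 30) .nil)))))))) (.g (nat_lit 1) (.e (nat_lit 412392) (nat_lit 0) .nil) .nil))))))) 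
(.nd (nat_lit 6) (.nd (nat_lit 7) (.nd (nat_lit 8) (.nd (nat_lit 9) 
(.lf (nat_lit 596014) (.g (nat_lit 1332) (.e (nat_lit 573444) (nat_lit 0) (.e (nat_lit 3011) (nat_lit 187) (.e (nat_lit 450605) (nat_lit 27) (.e (nat_lit 745476) (nat_lit 0) (.e (nat_lit 1595) (nat_lit 111) (.e (nat_lit 368384) (nat_lit 10) .nil)))))) (.g (nat_lit 1) (.e (nat_lit 410581) (nat_lit 0) .nil) .nil))) 
(.lf (nat_lit 596526) (.g (nat_lit 353) (.e (nat_lit 573475) (nat_lit 12) (.e (nat_lit 57572) (nat_lit 54) (.e (nat_lit 770071) (nat_lit 8) .nil))) (.g (nat_lit 0) (.e (nat_lit 411638) (nat_lit 0) .nil) .nil)))) (.nd (nat_lit 9) 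
(.lf (nat_lit 596270) (.g (nat_lit 1526) (.e (nat_lit 573469) (nat_lit 11) (.e (nat_lit 16446) (nat_lit 9) (.e (nat_lit 426133) (nat_lit 3) (.e (nat_lit 204815) (nat_lit 17) .nil)))) (.g (nat_lit 0) (.e (nat_lit 411126) (nat_lit 0) .nil) .nil))) 
(.lf (nat_lit 596782) (.g (nat_lit 2073) (.e (nat_lit 573479) (nat_lit 13) (.e (nat_lit 65619) (nat_lit 10) (.e (nat_lit 344117) (nat_lit 21) (.e (nat_lit 516169) (nat_lit 13) (.e (nat_lit 458774) (nat_lit 18) .nil))))) (.g (nat_lit 0) (.e (nat_lit 412116) (nat_lit 0) .nil) .nil))))) (.nd (nat_lit 8) (.nd (nat_lit 9) 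
(.lf (nat_lit 596142) (.g (nat_lit 2039) (.e (nat_lit 573452) (nat_lit 9) (.e (nat_lit 498) (nat_lit 40) (.e (nat_lit 491563) (nat_lit 12) (.e (nat_lit 385065) (nat_lit 26) .nil)))) (.g (nat_lit 0) (.e (nat_lit 410970) (nat_lit 0) .nil) .nil))) 
(.lf (nat_lit 596654) (.g (nat_lit 1929) (.e (nat_lit 573477) (nat_lit 12) (.e (nat_lit 57575) (nat_lit 55) (.e (nat_lit 778466) (nat_lit 11) (.e (nat_lit 24589) (nat_lit 0) .nil)))) (.g (nat_lit 0) (.e (nat_lit 411847) (nat_lit 0) .nil) .nil)))) (.nd (nat_lit 9) 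
(.lf (nat_lit 596398) (.g (nat_lit 1523) (.e (nat_lit 573471) (nat_lit 11) (.e (nat_lit 16448) (nat_lit 10) (.e (nat_lit 434230) (nat_lit 23) (.e (nat_lit 532490) (nat_lit 0) (.e (nat_lit 7936) (nat_lit 362) .nil))))) (.g (nat_lit 0) (.e (nat_lit 411395) (nat_lit 0) .nil) .nil))) 
(.lf (nat_lit 596910) (.g (nat_lit 1912) (.e (nat_lit 573481) (nat_lit 13) (.e (nat_lit 65604) (nat_lit 9) (.e (nat_lit 336013) (nat_lit 2) (.e (nat_lit 90170) (nat_lit 13) (.e (nat_lit 172042) (nat_lit 0) (.e (nat_lit 3407) (nat_lit 212) (.e (nat_lit 655373) (nat_lit 3) (.e (nat_lit 163976) (nat_lit 30) .nil)))))))) (.g (nat_lit 1) (.e (nat_lit 412344) (nat_lit 0) .nil) .nil)))))) 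
(.nd (nat_lit 7) (.nd (nat_lit 8) (.nd (nat_lit 9) 
(.lf (nat_lit 596078) (.g (nat_lit 655) (.e (nat_lit 573449) (nat_lit 9) (.e (nat_lit 375) (nat_lit 32) (.e (nat_lit 426173) (nat_lit 7) .nil))) (.g (nat_lit 0) (.e (nat_lit 410799) (nat_lit 0) .nil) .nil))) 
(.lf (nat_lit 596590) (.g (nat_lit 1872) (.e (nat_lit 573477) (nat_lit 12) (.e (nat_lit 57574) (nat_lit 55) (.e (nat_lit 778465) (nat_lit 11) (.e (nat_lit 24604) (nat_lit 2) (.e (nat_lit 90178) (nat_lit 15) .nil))))) (.g (nat_lit 0) (.e (nat_lit 411762) (nat_lit 0) .nil) .nil)))) (.nd (nat_lit 9) 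
(.lf (nat_lit 596334) (.g (nat_lit 1781) (.e (nat_lit 573470) (nat_lit 11) (.e (nat_lit 16460) (nat_lit 12) (.e (nat_lit 475185) (nat_lit 29) (.e (nat_lit 557107) (nat_lit 15) .nil)))) (.g (nat_lit 0) (.e (nat_lit 411237) (nat_lit 0) .nil) .nil))) 
(.lf (nat_lit 596846) (.g (nat_lit 1931) (.e (nat_lit 573480) (nat_lit 13) (.e (nat_lit 65637) (nat_lit 15) (.e (nat_lit 3253) (nat_lit 197) (.e (nat_lit 532503) (nat_lit 1) (.e (nat_lit 57870) (nat_lit 264) .nil))))) (.g (nat_lit 0) (.e (nat_lit 412209) (nat_lit 0) .nil) .nil))))) (.nd (nat_lit 8) (.nd (nat_lit 9) 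
(.lf (nat_lit 596206) (.g (nat_lit 1570) (.e (nat_lit 573456) (nat_lit 9) (.e (nat_lit 1669) (nat_lit 116) (.e (nat_lit 401458) (nat_lit 13) (.e (nat_lit 483365) (nat_lit 18) .nil)))) (.g (nat_lit 0) (.e (nat_lit 411043) (nat_lit 0) .nil) .nil))) 
(.lf (nat_lit 596718) (.g (nat_lit 2472) (.e (nat_lit 573478) (nat_lit 12) (.e (nat_lit 57574) (nat_lit 55) (.e (nat_lit 778466) (nat_lit 11) (.e (nat_lit 24588) (nat_lit 0) (.e (nat_lit 1788) (nat_lit 119) .nil))))) (.g (nat_lit 0) (.e (nat_lit 411974) (nat_lit 0) .nil) .nil)))) (.nd (nat_lit 9) 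
(.lf (nat_lit 596462) (.g (nat_lit 852) (.e (nat_lit 581376) (nat_lit 11) (.e (nat_lit 16473) (nat_lit 14) (.e (nat_lit 491530) (nat_lit 0) .nil))) (.g (nat_lit 0) (.e (nat_lit 411516) (nat_lit 0) .nil) .nil))) 
(.lf (nat_lit 596974) (.g (nat_lit 2449) (.e (nat_lit 573481) (nat_lit 13) (.e (nat_lit 65604) (nat_lit 9) (.e (nat_lit 336028) (nat_lit 3) (.e (nat_lit 98359) (nat_lit 26) (.e (nat_lit 426414) (nat_lit 15) (.e (nat_lit 2058) (nat_lit 142) (.e (nat_lit 704589) (nat_lit 3) (.e (nat_lit 163976) (nat_lit 30) .nil)))))))) (.g (nat_lit 1) (.e (nat_lit 412479) (nat_lit 0) .nil) .nil)))))))) 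
(.nd (nat_lit 5) (.nd (nat_lit 6) (.nd (nat_lit 7) (.nd (nat_lit 8) (.nd (nat_lit 9) 
(.lf (nat_lit 595998) (.g (nat_lit 2495) (.e (nat_lit 548890) (nat_lit 10) (.e (nat_lit 73782) (nat_lit 32) (.e (nat_lit 2664) (nat_lit 167) (.e (nat_lit 196666) (nat_lit 13) (.e (nat_lit 65617) (nat_lit 10) (.e (nat_lit 344124) (nat_lit 25) .nil)))))) (.g (nat_lit 1) (.e (nat_lit 410518) (nat_lit 0) .nil) .nil))) 
(.lf (nat_lit 596510) (.g (nat_lit 2941) (.e (nat_lit 573474) (nat_lit 12) (.e (nat_lit 57574) (nat_lit 55) (.e (nat_lit 778466) (nat_lit 11) (.e (nat_lit 24588) (nat_lit 0) (.e (nat_lit 1799) (nat_lit 119) .nil))))) (.g (nat_lit 0) (.e (nat_lit 411592) (nat_lit 0) .nil) .nil)))) (.nd (nat_lit 9) 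
(.lf (nat_lit 596254) (.g (nat_lit 3558) (.e (nat_lit 573469) (nat_lit 11) (.e (nat_lit 16388) (nat_lit 0) (.e (nat_lit 7581) (nat_lit 405) (.e (nat_lit 57464) (nat_lit 23) (.e (nat_lit 516165) (nat_lit 12) (.e (nat_lit 450586) (nat_lit 10) .nil)))))) (.g (nat_lit 1) (.e (nat_lit 411102) (nat_lit 0) .nil) .nil))) 
(.lf (nat_lit 596766) (.g (nat_lit 3461) (.e (nat_lit 573479) (nat_lit 13) (.e (nat_lit 65619) (nat_lit 10) (.e (nat_lit 344117) (nat_lit 21) (.e (nat_lit 516151) (nat_lit 9) (.e (nat_lit 426039) (nat_lit 0) .nil))))) (.g (nat_lit 0) (.e (nat_lit 412100) (nat_lit 0) .nil) .nil))))) (.nd (nat_lit 8) (.nd (nat_lit 9) 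
(.lf (nat_lit 596126) (.g (nat_lit 2046) (.e (nat_lit 573451) (nat_lit 9) (.e (nat_lit 498) (nat_lit 40) (.e (nat_lit 491563) (nat_lit 12) (.e (nat_lit 385067) (nat_lit 26) .nil)))) (.g (nat_lit 0) (.e (nat_lit 410945) (nat_lit 0) .nil) .nil))) 
(.lf (nat_lit 596638) (.g (nat_lit 470) (.e (nat_lit 573477) (nat_lit 12) (.e (nat_lit 57575) (nat_lit 55) (.e (nat_lit 778465) (nat_lit 11) .nil))) (.g (nat_lit 0) (.e (nat_lit 411829) (nat_lit 0) .nil) .nil)))) (.nd (nat_lit 9) 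
(.lf (nat_lit 596382) (.g (nat_lit 658) (.e (nat_lit 573471) (nat_lit 11) (.e (nat_lit 16433) (nat_lit 9) (.e (nat_lit 426093) (nat_lit 0) .nil))) (.g (nat_lit 0) (.e (nat_lit 411321) (nat_lit 0) .nil) .nil))) 
(.lf (nat_lit 596894) (.g (nat_lit 2365) (.e (nat_lit 573481) (nat_lit 13) (.e (nat_lit 65604) (nat_lit 9) (.e (nat_lit 336013) (nat_lit 2) (.e (nat_lit 90170) (nat_lit 13) (.e (nat_lit 172032) (nat_lit 0) .nil))))) (.g (nat_lit 0) (.e (nat_lit 412325) (nat_lit 0) .nil) .nil)))))) (.nd (nat_lit 7) (.nd (nat_lit 8) (.nd (nat_lit 9) 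
(.lf (nat_lit 596062) (.g (nat_lit 452) (.e (nat_lit 581376) (nat_lit 5) (.e (nat_lit 180285) (nat_lit 45) (.e (nat_lit 2580) (nat_lit 161) (.e (nat_lit 40965) (nat_lit 0) (.e (nat_lit 1591) (nat_lit 111) .nil))))) (.g (nat_lit 0) (.e (nat_lit 410714) (nat_lit 0) .nil) .nil))) 
(.lf (nat_lit 596574) (.g (nat_lit 1928) (.e (nat_lit 573477) (nat_lit 12) (.e (nat_lit 57574) (nat_lit 55) (.e (nat_lit 778362) (nat_lit 9) (.e (nat_lit 307) (nat_lit 22) (.e (nat_lit 344107) (nat_lit 19) .nil))))) (.g (nat_lit 0) (.e (nat_lit 411744) (nat_lit 0) .nil) .nil)))) (.nd (nat_lit 9) 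
(.lf (nat_lit 596318) (.g (nat_lit 439) (.e (nat_lit 573470) (nat_lit 11) (.e (nat_lit 16425) (nat_lit 7) (.e (nat_lit 409617) (nat_lit 10) .nil))) (.g (nat_lit 0) (.e (nat_lit 411193) (nat_lit 0) .nil) .nil))) 
(.lf (nat_lit 596830) (.g (nat_lit 630) (.e (nat_lit 573480) (nat_lit 13) (.e (nat_lit 65630) (nat_lit 14) (.e (nat_lit 401427) (nat_lit 3) .nil))) (.g (nat_lit 0) (.e (nat_lit 412193) (nat_lit 0) .nil) .nil))))) (.nd (nat_lit 8) (.nd (nat_lit 9) 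
(.lf (nat_lit 596190) (.g (nat_lit 3558) (.e (nat_lit 573456) (nat_lit 9) (.e (nat_lit 430) (nat_lit 32) (.e (nat_lit 426344) (nat_lit 14) (.e (nat_lit 491526) (nat_lit 0) (.e (nat_lit 1788) (nat_lit 119) (.e (nat_lit 516165) (nat_lit 12) (.e (nat_lit 450586) (nat_lit 10) .nil))))))) (.g (nat_lit 1) (.e (nat_lit 411027) (nat_lit 0) .nil) .nil))) 
(.lf (nat_lit 596702) (.g (nat_lit 1076) (.e (nat_lit 573478) (nat_lit 12) (.e (nat_lit 57574) (nat_lit 55) (.e (nat_lit 778464) (nat_lit 11) (.e (nat_lit 24603) (nat_lit 2) (.e (nat_lit 90169) (nat_lit 13) .nil))))) (.g (nat_lit 0) (.e (nat_lit 411951) (nat_lit 0) .nil) .nil)))) (.nd (nat_lit 9) 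
(.lf (nat_lit 596446) (.g (nat_lit 3601) (.e (nat_lit 573471) (nat_lit 11) (.e (nat_lit 16471) (nat_lit 14) (.e (nat_lit 491538) (nat_lit 3) (.e (nat_lit 98359) (nat_lit 26) (.e (nat_lit 426286) (nat_lit 10) (.e (nat_lit 434245) (nat_lit 28) .nil)))))) (.g (nat_lit 1) (.e (nat_lit 411496) (nat_lit 0) .nil) .nil))) 
(.lf (nat_lit 596958) (.g (nat_lit 3900) (.e (nat_lit 573481) (nat_lit 13) (.e (nat_lit 65604) (nat_lit 9) (.e (nat_lit 336028) (nat_lit 3) (.e (nat_lit 98325) (nat_lit 17) (.e (nat_lit 6986) (nat_lit 377) (.e (nat_lit 2777) (nat_lit 178) (.e (nat_lit 286765) (nat_lit 15) (.e (nat_lit 3298) (nat_lit 202) .nil)))))))) (.g (nat_lit 1) (.e (nat_lit 412418) (nat_lit 0) .nil) .nil))))))) 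
(.nd (nat_lit 6) (.nd (nat_lit 7) (.nd (nat_lit 8) (.nd (nat_lit 9) 
(.lf (nat_lit 596030) (.g (nat_lit 648) (.e (nat_lit 573445) (nat_lit 0) (.e (nat_lit 3011) (nat_lit 187) (.e (nat_lit 450605) (nat_lit 27) (.e (nat_lit 745475) (nat_lit 0) (.e (nat_lit 1599) (nat_lit 111) (.e (nat_lit 368384) (nat_lit 10) .nil)))))) (.g (nat_lit 1) (.e (nat_lit 410616) (nat_lit 0) .nil) .nil))) 
(.lf (nat_lit 596542) (.g (nat_lit 2065) (.e (nat_lit 573475) (nat_lit 12) (.e (nat_lit 57574) (nat_lit 55) (.e (nat_lit 778465) (nat_lit 11) (.e (nat_lit 24584) (nat_lit 0) (.e (nat_lit 7936) (nat_lit 120) .nil))))) (.g (nat_lit 0) (.e (nat_lit 411659) (nat_lit 0) .nil) .nil)))) (.nd (nat_lit 9) 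
(.lf (nat_lit 596286) (.g (nat_lit 2010) (.e (nat_lit 573469) (nat_lit 11) (.e (nat_lit 16461) (nat_lit 12) (.e (nat_lit 475185) (nat_lit 29) (.e (nat_lit 557100) (nat_lit 13) (.e (nat_lit 172113) (nat_lit 10) .nil))))) (.g (nat_lit 0) (.e (nat_lit 411159) (nat_lit 0) .nil) .nil))) 
(.lf (nat_lit 596798) (.g (nat_lit 869) (.e (nat_lit 573480) (nat_lit 13) (.e (nat_lit 65571) (nat_lit 3) (.e (nat_lit 98313) (nat_lit 9) .nil))) (.g (nat_lit 0) (.e (nat_lit 412151) (nat_lit 0) .nil) .nil))))) (.nd (nat_lit 8) (.nd (nat_lit 9) 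
(.lf (nat_lit 596158) (.g (nat_lit 1903) (.e (nat_lit 573455) (nat_lit 9) (.e (nat_lit 430) (nat_lit 32) (.e (nat_lit 426343) (nat_lit 14) (.e (nat_lit 491536) (nat_lit 2) (.e (nat_lit 90178) (nat_lit 15) .nil))))) (.g (nat_lit 0) (.e (nat_lit 410993) (nat_lit 0) .nil) .nil))) 
(.lf (nat_lit 596670) (.g (nat_lit 1446) (.e (nat_lit 573477) (nat_lit 12) (.e (nat_lit 57575) (nat_lit 55) (.e (nat_lit 778466) (nat_lit 11) (.e (nat_lit 24608) (nat_lit 3) .nil)))) (.g (nat_lit 0) (.e (nat_lit 411864) (nat_lit 0) .nil) .nil)))) (.nd (nat_lit 9) 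
(.lf (nat_lit 596414) (.g (nat_lit 3341) (.e (nat_lit 573471) (nat_lit 11) (.e (nat_lit 16459) (nat_lit 12) (.e (nat_lit 475183) (nat_lit 29) (.e (nat_lit 557100) (nat_lit 13) (.e (nat_lit 172113) (nat_lit 10) (.e (nat_lit 434245) (nat_lit 28) .nil)))))) (.g (nat_lit 1) (.e (nat_lit 411460) (nat_lit 0) .nil) .nil))) 
(.lf (nat_lit 596926) (.g (nat_lit 2320) (.e (nat_lit 573481) (nat_lit 13) (.e (nat_lit 65604) (nat_lit 9) (.e (nat_lit 336013) (nat_lit 2) (.e (nat_lit 90170) (nat_lit 13) (.e (nat_lit 172059) (nat_lit 1) (.e (nat_lit 164346) (nat_lit 240) (.e (nat_lit 2601) (nat_lit 163) (.e (nat_lit 163976) (nat_lit 30) .nil)))))))) (.g (nat_lit 1) (.e (nat_lit 412368) (nat_lit 0) .nil) .nil)))))) 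
(.nd (nat_lit 7) (.nd (nat_lit 8) (.nd (nat_lit 9) 
(.lf (nat_lit 596094) (.g (nat_lit 5541) (.e (nat_lit 573450) (nat_lit 9) (.e (nat_lit 375) (nat_lit 32) (.e (nat_lit 426340) (nat_lit 14) (.e (nat_lit 491537) (nat_lit 2) (.e (nat_lit 90170) (nat_lit 13) (.e (nat_lit 172106) (nat_lit 10) (.e (nat_lit 434244) (nat_lit 28) .nil))))))) (.g (nat_lit 1) (.e (nat_lit 410856) (nat_lit 0) .nil) .nil))) 
(.lf (nat_lit 596606) (.g (nat_lit 1380) (.e (nat_lit 573477) (nat_lit 12) (.e (nat_lit 57574) (nat_lit 55) (.e (nat_lit 778466) (nat_lit 11) (.e (nat_lit 24589) (nat_lit 0) .nil)))) (.g (nat_lit 0) (.e (nat_lit 411781) (nat_lit 0) .nil) .nil)))) (.nd (nat_lit 9) 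
(.lf (nat_lit 596350) (.g (nat_lit 1597) (.e (nat_lit 573470) (nat_lit 11) (.e (nat_lit 16471) (nat_lit 14) (.e (nat_lit 491535) (nat_lit 2) (.e (nat_lit 90170) (nat_lit 13) (.e (nat_lit 172113) (nat_lit 10) .nil))))) (.g (nat_lit 0) (.e (nat_lit 411255) (nat_lit 0) .nil) .nil))) 
(.lf (nat_lit 596862) (.g (nat_lit 2604) (.e (nat_lit 573481) (nat_lit 13) (.e (nat_lit 65598) (nat_lit 9) (.e (nat_lit 336013) (nat_lit 2) (.e (nat_lit 90166) (nat_lit 13) .nil)))) (.g (nat_lit 0) (.e (nat_lit 412279) (nat_lit 0) .nil) .nil))))) (.nd (nat_lit 8) (.nd (nat_lit 9) 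
(.lf (nat_lit 596222) (.g (nat_lit 2333) (.e (nat_lit 573456) (nat_lit 9) (.e (nat_lit 1669) (nat_lit 116) (.e (nat_lit 401459) (nat_lit 13) (.e (nat_lit 483364) (nat_lit 18) (.e (nat_lit 57663) (nat_lit 152) .nil))))) (.g (nat_lit 0) (.e (nat_lit 411059) (nat_lit 0) .nil) .nil))) 
(.lf (nat_lit 596734) (.g (nat_lit 3701) (.e (nat_lit 573478) (nat_lit 12) (.e (nat_lit 57574) (nat_lit 55) (.e (nat_lit 778466) (nat_lit 11) (.e (nat_lit 24608) (nat_lit 3) (.e (nat_lit 98381) (nat_lit 31) (.e (nat_lit 466967) (nat_lit 20) (.e (nat_lit 3304) (nat_lit 202) .nil))))))) (.g (nat_lit 1) (.e (nat_lit 412000) (nat_lit 0) .nil) .nil)))) (.nd (nat_lit 9) 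
(.lf (nat_lit 596478) (.g (nat_lit 433) (.e (nat_lit 573473) (nat_lit 12) (.e (nat_lit 57569) (nat_lit 53) (.e (nat_lit 769792) (nat_lit 9) .nil))) (.g (nat_lit 0) (.e (nat_lit 411534) (nat_lit 0) .nil) .nil))) 
(.lf (nat_lit 596990) (.g (nat_lit 3105) (.e (nat_lit 573481) (nat_lit 13) (.e (nat_lit 65604) (nat_lit 9) (.e (nat_lit 336028) (nat_lit 3) (.e (nat_lit 98383) (nat_lit 32) (.e (nat_lit 475197) (nat_lit 40) (.e (nat_lit 704589) (nat_lit 3) (.e (nat_lit 163976) (nat_lit 30) .nil))))))) (.g (nat_lit 1) (.e (nat_lit 412513) (nat_lit 0) .nil) .nil)))))))))))) 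
(.nd (nat_lit 1) (.nd (nat_lit 2) (.nd (nat_lit 3) (.nd (nat_lit 4) (.nd (nat_lit 5) 
(.nd (nat_lit 6) (.nd (nat_lit 7) (.nd (nat_lit 8) (.nd (nat_lit 9) 
(.lf (nat_lit 595969) (.g (nat_lit 373) (.e (nat_lit 548913) (nat_lit 18) (.e (nat_lit 172126) (nat_lit 14) (.e (nat_lit 491524) (nat_lit 0) .nil))) (.g (nat_lit 0) (.e (nat_lit 410315) (nat_lit 0) .nil) .nil))) 
(.lf (nat_lit 596481) (.g (nat_lit 585) (.e (nat_lit 573473) (nat_lit 12) (.e (nat_lit 57575) (nat_lit 55) (.e (nat_lit 778465) (nat_lit 11) .nil))) (.g (nat_lit 0) (.e (nat_lit 411537) (nat_lit 0) .nil) .nil)))) (.nd (nat_lit 9) 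
(.lf (nat_lit 596225) (.g (nat_lit 2455) (.e (nat_lit 573456) (nat_lit 9) (.e (nat_lit 1669) (nat_lit 116) (.e (nat_lit 401459) (nat_lit 13) (.e (nat_lit 483364) (nat_lit 18) (.e (nat_lit 57668) (nat_lit 152) .nil))))) (.g (nat_lit 0) (.e (nat_lit 411062) (nat_lit 0) .nil) .nil))) 
(.lf (nat_lit 596737) (.g (nat_lit 3450) (.e (nat_lit 573479) (nat_lit 13) (.e (nat_lit 65604) (nat_lit 9) (.e (nat_lit 336013) (nat_lit 2) (.e (nat_lit 90170) (nat_lit 13) (.e (nat_lit 172060) (nat_lit 1) .nil))))) (.g (nat_lit 0) (.e (nat_lit 412071) (nat_lit 0) .nil) .nil))))) (.nd (nat_lit 8) (.nd (nat_lit 9) 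
(.lf (nat_lit 596097) (.g (nat_lit 1913) (.e (nat_lit 573450) (nat_lit 9) (.e (nat_lit 411) (nat_lit 32) (.e (nat_lit 426340) (nat_lit 14) (.e (nat_lit 491536) (nat_lit 2) (.e (nat_lit 90170) (nat_lit 13) .nil))))) (.g (nat_lit 0) (.e (nat_lit 410859) (nat_lit 0) .nil) .nil))) 
(.lf (nat_lit 596609) (.g (nat_lit 4155) (.e (nat_lit 573477) (nat_lit 12) (.e (nat_lit 57574) (nat_lit 55) (.e (nat_lit 778466) (nat_lit 11) (.e (nat_lit 24602) (nat_lit 2) (.e (nat_lit 90170) (nat_lit 13) (.e (nat_lit 172113) (nat_lit 10) (.e (nat_lit 434247) (nat_lit 28) .nil))))))) (.g (nat_lit 1) (.e (nat_lit 411785) (nat_lit 0) .nil) .nil)))) (.nd (nat_lit 9) 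
(.lf (nat_lit 596353) (.g (nat_lit 3717) (.e (nat_lit 573470) (nat_lit 11) (.e (nat_lit 16472) (nat_lit 14) (.e (nat_lit 491535) (nat_lit 2) (.e (nat_lit 90170) (nat_lit 13) (.e (nat_lit 172113) (nat_lit 10) (.e (nat_lit 434248) (nat_lit 28) .nil)))))) (.g (nat_lit 1) (.e (nat_lit 411258) (nat_lit 0) .nil) .nil))) 
(.lf (nat_lit 596865) (.g (nat_lit 1430) (.e (nat_lit 573481) (nat_lit 13) (.e (nat_lit 65598) (nat_lit 9) (.e (nat_lit 336028) (nat_lit 3) (.e (nat_lit 98367) (nat_lit 27) .nil)))) (.g (nat_lit 0) (.e (nat_lit 412282) (nat_lit 0) .nil) .nil)))))) (.nd (nat_lit 7) (.nd (nat_lit 8) (.nd (nat_lit 9) 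
(.lf (nat_lit 596033) (.g (nat_lit 974) (.e (nat_lit 573445) (nat_lit 0) (.e (nat_lit 3011) (nat_lit 187) (.e (nat_lit 450605) (nat_lit 27) (.e (nat_lit 745476) (nat_lit 0) (.e (nat_lit 1592) (nat_lit 111) (.e (nat_lit 368384) (nat_lit 10) .nil)))))) (.g (nat_lit 1) (.e (nat_lit 410619) (nat_lit 0) .nil) .nil))) 
(.lf (nat_lit 596545) (.g (nat_lit 3799) (.e (nat_lit 573475) (nat_lit 12) (.e (nat_lit 57574) (nat_lit 55) (.e (nat_lit 778465) (nat_lit 11) (.e (nat_lit 24604) (nat_lit 2) (.e (nat_lit 90178) (nat_lit 15) (.e (nat_lit 188441) (nat_lit 20) (.e (nat_lit 3308) (nat_lit 202) .nil))))))) (.g (nat_lit 1) (.e (nat_lit 411662) (nat_lit 0) .nil) .nil)))) (.nd (nat_lit 9) 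
(.lf (nat_lit 596289) (.g (nat_lit 2166) (.e (nat_lit 573469) (nat_lit 11) (.e (nat_lit 16469) (nat_lit 14) (.e (nat_lit 491537) (nat_lit 2) (.e (nat_lit 90170) (nat_lit 13) .nil)))) (.g (nat_lit 0) (.e (nat_lit 411162) (nat_lit 0) .nil) .nil))) 
(.lf (nat_lit 596801) (.g (nat_lit 713) (.e (nat_lit 573480) (nat_lit 13) (.e (nat_lit 65571) (nat_lit 3) (.e (nat_lit 106240) (nat_lit 15) .nil))) (.g (nat_lit 0) (.e (nat_lit 412161) (nat_lit 0) .nil) .nil))))) (.nd (nat_lit 8) (.nd (nat_lit 9) 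
(.lf (nat_lit 596161) (.g (nat_lit 2777) (.e (nat_lit 573456) (nat_lit 9) (.e (nat_lit 365) (nat_lit 31) (.e (nat_lit 417796) (nat_lit 0) (.e (nat_lit 5395) (nat_lit 301) (.e (nat_lit 57464) (nat_lit 23) (.e (nat_lit 516166) (nat_lit 12) (.e (nat_lit 450587) (nat_lit 10) .nil))))))) (.g (nat_lit 1) (.e (nat_lit 410996) (nat_lit 0) .nil) .nil))) 
(.lf (nat_lit 596673) (.g (nat_lit 4146) (.e (nat_lit 573477) (nat_lit 12) (.e (nat_lit 57575) (nat_lit 55) (.e (nat_lit 778466) (nat_lit 11) (.e (nat_lit 24608) (nat_lit 3) (.e (nat_lit 98370) (nat_lit 28) (.e (nat_lit 442411) (nat_lit 20) (.e (nat_lit 3307) (nat_lit 202) .nil))))))) (.g (nat_lit 1) (.e (nat_lit 411867) (nat_lit 0) .nil) .nil)))) (.nd (nat_lit 9) 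
(.lf (nat_lit 596417) (.g (nat_lit 1987) (.e (nat_lit 573471) (nat_lit 11) (.e (nat_lit 16459) (nat_lit 12) (.e (nat_lit 475185) (nat_lit 29) (.e (nat_lit 557100) (nat_lit 13) (.e (nat_lit 172113) (nat_lit 10) .nil))))) (.g (nat_lit 0) (.e (nat_lit 411465) (nat_lit 0) .nil) .nil))) 
(.lf (nat_lit 596929) (.g (nat_lit 2175) (.e (nat_lit 573481) (nat_lit 13) (.e (nat_lit 65604) (nat_lit 9) (.e (nat_lit 336013) (nat_lit 2) (.e (nat_lit 90170) (nat_lit 13) (.e (nat_lit 172059) (nat_lit 1) (.e (nat_lit 164348) (nat_lit 240) (.e (nat_lit 2600) (nat_lit 163) (.e (nat_lit 163976) (nat_lit 30) .nil)))))))) (.g (nat_lit 1) (.e (nat_lit 412372) (nat_lit 0) .nil) .nil))))))) 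
(.nd (nat_lit 6) (.nd (nat_lit 7) (.nd (nat_lit 8) (.nd (nat_lit 9) 
(.lf (nat_lit 596001) (.g (nat_lit 2315) (.e (nat_lit 548890) (nat_lit 10) (.e (nat_lit 73782) (nat_lit 32) (.e (nat_lit 2664) (nat_lit 167) (.e (nat_lit 196674) (nat_lit 15) (.e (nat_lit 81947) (nat_lit 20) (.e (nat_lit 1841) (nat_lit 123) .nil)))))) (.g (nat_lit 1) (.e (nat_lit 410521) (nat_lit 0) .nil) .nil))) 
(.lf (nat_lit 596513) (.g (nat_lit 5599) (.e (nat_lit 573474) (nat_lit 12) (.e (nat_lit 57574) (nat_lit 55) (.e (nat_lit 778466) (nat_lit 11) (.e (nat_lit 24604) (nat_lit 2) (.e (nat_lit 90170) (nat_lit 13) (.e (nat_lit 172106) (nat_lit 10) (.e (nat_lit 434244) (nat_lit 28) .nil))))))) (.g (nat_lit 1) (.e (nat_lit 411596) (nat_lit 0) .nil) .nil)))) (.nd (nat_lit 9) 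
(.lf (nat_lit 596257) (.g (nat_lit 3390) (.e (nat_lit 573469) (nat_lit 11) (.e (nat_lit 16388) (nat_lit 0) (.e (nat_lit 7583) (nat_lit 405) (.e (nat_lit 57464) (nat_lit 23) (.e (nat_lit 516166) (nat_lit 12) (.e (nat_lit 450587) (nat_lit 10) .nil)))))) (.g (nat_lit 1) (.e (nat_lit 411105) (nat_lit 0) .nil) .nil))) 
(.lf (nat_lit 596769) (.g (nat_lit 3777) (.e (nat_lit 573479) (nat_lit 13) (.e (nat_lit 65619) (nat_lit 10) (.e (nat_lit 344117) (nat_lit 21) (.e (nat_lit 516151) (nat_lit 9) (.e (nat_lit 426047) (nat_lit 0) .nil))))) (.g (nat_lit 0) (.e (nat_lit 412103) (nat_lit 0) .nil) .nil))))) (.nd (nat_lit 8) (.nd (nat_lit 9) 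
(.lf (nat_lit 596129) (.g (nat_lit 1519) (.e (nat_lit 573451) (nat_lit 9) (.e (nat_lit 1401) (nat_lit 106) (.e (nat_lit 319531) (nat_lit 16) (.e (nat_lit 286767) (nat_lit 27) .nil)))) (.g (nat_lit 0) (.e (nat_lit 410948) (nat_lit 0) .nil) .nil))) 
(.lf (nat_lit 596641) (.g (nat_lit 1330) (.e (nat_lit 573477) (nat_lit 12) (.e (nat_lit 57575) (nat_lit 55) (.e (nat_lit 778465) (nat_lit 11) (.e (nat_lit 24603) (nat_lit 2) .nil)))) (.g (nat_lit 0) (.e (nat_lit 411833) (nat_lit 0) .nil) .nil)))) (.nd (nat_lit 9) 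
(.lf (nat_lit 596385) (.g (nat_lit 3495) (.e (nat_lit 573471) (nat_lit 11) (.e (nat_lit 16436) (nat_lit 9) (.e (nat_lit 426131) (nat_lit 3) (.e (nat_lit 204885) (nat_lit 33) (.e (nat_lit 401448) (nat_lit 10) (.e (nat_lit 434245) (nat_lit 28) .nil)))))) (.g (nat_lit 1) (.e (nat_lit 411349) (nat_lit 0) .nil) .nil))) 
(.lf (nat_lit 596897) (.g (nat_lit 2288) (.e (nat_lit 573481) (nat_lit 13) (.e (nat_lit 65604) (nat_lit 9) (.e (nat_lit 336013) (nat_lit 2) (.e (nat_lit 90170) (nat_lit 13) (.e (nat_lit 172033) (nat_lit 0) (.e (nat_lit 3397) (nat_lit 211) (.e (nat_lit 647180) (nat_lit 3) (.e (nat_lit 163976) (nat_lit 30) .nil)))))))) (.g (nat_lit 1) (.e (nat_lit 412328) (nat_lit 0) .nil) .nil)))))) 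
(.nd (nat_lit 7) (.nd (nat_lit 8) (.nd (nat_lit 9) 
(.lf (nat_lit 596065) (.g (nat_lit 1203) (.e (nat_lit 581376) (nat_lit 6) (.e (nat_lit 188434) (nat_lit 20) (.e (nat_lit 3578) (nat_lit 223) (.e (nat_lit 745476) (nat_lit 0) (.e (nat_lit 1592) (nat_lit 111) .nil))))) (.g (nat_lit 0) (.e (nat_lit 410727) (nat_lit 0) .nil) .nil))) 
(.lf (nat_lit 596577) (.g (nat_lit 3393) (.e (nat_lit 573477) (nat_lit 12) (.e (nat_lit 57574) (nat_lit 55) (.e (nat_lit 778464) (nat_lit 11) (.e (nat_lit 24607) (nat_lit 3) (.e (nat_lit 98372) (nat_lit 29) (.e (nat_lit 450586) (nat_lit 10) .nil)))))) (.g (nat_lit 1) (.e (nat_lit 411748) (nat_lit 0) .nil) .nil)))) (.nd (nat_lit 9) 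
(.lf (nat_lit 596321) (.g (nat_lit 2765) (.e (nat_lit 573470) (nat_lit 11) (.e (nat_lit 16448) (nat_lit 10) (.e (nat_lit 434231) (nat_lit 23) (.e (nat_lit 532481) (nat_lit 0) (.e (nat_lit 6724) (nat_lit 362) .nil))))) (.g (nat_lit 0) (.e (nat_lit 411205) (nat_lit 0) .nil) .nil))) 
(.lf (nat_lit 596833) (.g (nat_lit 1740) (.e (nat_lit 573480) (nat_lit 13) (.e (nat_lit 65630) (nat_lit 14) (.e (nat_lit 401427) (nat_lit 3) (.e (nat_lit 204876) (nat_lit 31) (.e (nat_lit 376835) (nat_lit 0) .nil))))) (.g (nat_lit 0) (.e (nat_lit 412196) (nat_lit 0) .nil) .nil))))) (.nd (nat_lit 8) (.nd (nat_lit 9) 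
(.lf (nat_lit 596193) (.g (nat_lit 3932) (.e (nat_lit 573456) (nat_lit 9) (.e (nat_lit 430) (nat_lit 32) (.e (nat_lit 426344) (nat_lit 14) (.e (nat_lit 491536) (nat_lit 2) (.e (nat_lit 90170) (nat_lit 13) (.e (nat_lit 172113) (nat_lit 10) (.e (nat_lit 434247) (nat_lit 28) .nil))))))) (.g (nat_lit 1) (.e (nat_lit 411030) (nat_lit 0) .nil) .nil))) 
(.lf (nat_lit 596705) (.g (nat_lit 1103) (.e (nat_lit 573478) (nat_lit 12) (.e (nat_lit 57574) (nat_lit 55) (.e (nat_lit 778465) (nat_lit 11) (.e (nat_lit 24604) (nat_lit 2) .nil)))) (.g (nat_lit 0) (.e (nat_lit 411958) (nat_lit 0) .nil) .nil)))) (.nd (nat_lit 9) 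
(.lf (nat_lit 596449) (.g (nat_lit 1572) (.e (nat_lit 573471) (nat_lit 11) (.e (nat_lit 16473) (nat_lit 14) (.e (nat_lit 491526) (nat_lit 0) (.e (nat_lit 1698) (nat_lit 117) .nil)))) (.g (nat_lit 0) (.e (nat_lit 411500) (nat_lit 0) .nil) .nil))) 
(.lf (nat_lit 596961) (.g (nat_lit 3401) (.e (nat_lit 573481) (nat_lit 13) (.e (nat_lit 65604) (nat_lit 9) (.e (nat_lit 336028) (nat_lit 3) (.e (nat_lit 98325) (nat_lit 17) (.e (nat_lit 6986) (nat_lit 377) (.e (nat_lit 2782) (nat_lit 178) (.e (nat_lit 286765) (nat_lit 15) (.e (nat_lit 3298) (nat_lit 202) .nil)))))))) (.g (nat_lit 1) (.e (nat_lit 412421) (nat_lit 0) .nil) .nil)))))))) 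
(.nd (nat_lit 5) (.nd (nat_lit 6) (.nd (nat_lit 7) (.nd (nat_lit 8) (.nd (nat_lit 9) 
(.lf (nat_lit 595985) (.g (nat_lit 2317) (.e (nat_lit 548872) (nat_lit 5) (.e (nat_lit 1499) (nat_lit 108) (.e (nat_lit 336204) (nat_lit 12) (.e (nat_lit 385074) (nat_lit 31) (.e (nat_lit 573493) (nat_lit 15) .nil))))) (.g (nat_lit 0) (.e (nat_lit 410475) (nat_lit 0) .nil) .nil))) 
(.lf (nat_lit 596497) (.g (nat_lit 333) (.e (nat_lit 573474) (nat_lit 12) (.e (nat_lit 57572) (nat_lit 54) (.e (nat_lit 770072) (nat_lit 8) .nil))) (.g (nat_lit 0) (.e (nat_lit 411570) (nat_lit 0) .nil) .nil)))) (.nd (nat_lit 9) 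
(.lf (nat_lit 596241) (.g (nat_lit 2998) (.e (nat_lit 573458) (nat_lit 9) (.e (nat_lit 426) (nat_lit 32) (.e (nat_lit 426306) (nat_lit 12) (.e (nat_lit 475185) (nat_lit 29) (.e (nat_lit 557098) (nat_lit 13) .nil))))) (.g (nat_lit 0) (.e (nat_lit 411085) (nat_lit 0) .nil) .nil))) 
(.lf (nat_lit 596753) (.g (nat_lit 1185) (.e (nat_lit 573479) (nat_lit 13) (.e (nat_lit 65619) (nat_lit 10) (.e (nat_lit 344117) (nat_lit 21) (.e (nat_lit 516143) (nat_lit 9) .nil)))) (.g (nat_lit 0) (.e (nat_lit 412087) (nat_lit 0) .nil) .nil))))) (.nd (nat_lit 8) (.nd (nat_lit 9) 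
(.lf (nat_lit 596113) (.g (nat_lit 4832) (.e (nat_lit 573451) (nat_lit 9) (.e (nat_lit 430) (nat_lit 32) (.e (nat_lit 426011) (nat_lit 0) (.e (nat_lit 7490) (nat_lit 402) (.e (nat_lit 1239) (nat_lit 91) (.e (nat_lit 90170) (nat_lit 13) (.e (nat_lit 172113) (nat_lit 10) (.e (nat_lit 434245) (nat_lit 28) .nil)))))))) (.g (nat_lit 1) (.e (nat_lit 410932) (nat_lit 0) .nil) .nil))) 
(.lf (nat_lit 596625) (.g (nat_lit 1557) (.e (nat_lit 573477) (nat_lit 12) (.e (nat_lit 57574) (nat_lit 55) (.e (nat_lit 778466) (nat_lit 11) (.e (nat_lit 24604) (nat_lit 2) (.e (nat_lit 90185) (nat_lit 17) .nil))))) (.g (nat_lit 0) (.e (nat_lit 411812) (nat_lit 0) .nil) .nil)))) (.nd (nat_lit 9) 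
(.lf (nat_lit 596369) (.g (nat_lit 3375) (.e (nat_lit 573471) (nat_lit 11) (.e (nat_lit 16386) (nat_lit 0) (.e (nat_lit 7581) (nat_lit 405) (.e (nat_lit 57464) (nat_lit 23) (.e (nat_lit 516166) (nat_lit 12) (.e (nat_lit 450588) (nat_lit 10) .nil)))))) (.g (nat_lit 1) (.e (nat_lit 411278) (nat_lit 0) .nil) .nil))) 
(.lf (nat_lit 596881) (.g (nat_lit 3105) (.e (nat_lit 573481) (nat_lit 13) (.e (nat_lit 65604) (nat_lit 9) (.e (nat_lit 336013) (nat_lit 2) (.e (nat_lit 90134) (nat_lit 9) (.e (nat_lit 3098) (nat_lit 192) (.e (nat_lit 491566) (nat_lit 12) (.e (nat_lit 392960) (nat_lit 31) .nil))))))) (.g (nat_lit 1) (.e (nat_lit 412301) (nat_lit 0) .nil) .nil)))))) 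
(.nd (nat_lit 7) (.nd (nat_lit 8) (.nd (nat_lit 9) 
(.lf (nat_lit 596049) (.g (nat_lit 746) (.e (nat_lit 573445) (nat_lit 0) (.e (nat_lit 3020) (nat_lit 187) (.e (nat_lit 450605) (nat_lit 27) (.e (nat_lit 745476) (nat_lit 0) (.e (nat_lit 1592) (nat_lit 111) (.e (nat_lit 368384) (nat_lit 10) .nil)))))) (.g (nat_lit 1) (.e (nat_lit 410636) (nat_lit 0) .nil) .nil))) 
(.lf (nat_lit 596561) (.g (nat_lit 3473) (.e (nat_lit 573476) (nat_lit 12) (.e (nat_lit 57574) (nat_lit 55) (.e (nat_lit 778466) (nat_lit 11) (.e (nat_lit 24604) (nat_lit 2) (.e (nat_lit 90170) (nat_lit 13) (.e (nat_lit 172106) (nat_lit 10) (.e (nat_lit 434243) (nat_lit 28) .nil))))))) (.g (nat_lit 1) (.e (nat_lit 411730) (nat_lit 0) .nil) .nil)))) (.nd (nat_lit 9) 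
(.lf (nat_lit 596305) (.g (nat_lit 1727) (.e (nat_lit 573469) (nat_lit 11) (.e (nat_lit 16473) (nat_lit 14) (.e (nat_lit 491526) (nat_lit 0) (.e (nat_lit 1698) (nat_lit 117) .nil)))) (.g (nat_lit 0) (.e (nat_lit 411179) (nat_lit 0) .nil) .nil))) 
(.lf (nat_lit 596817) (.g (nat_lit 649) (.e (nat_lit 573480) (nat_lit 13) (.e (nat_lit 65628) (nat_lit 14) (.e (nat_lit 401428) (nat_lit 3) .nil))) (.g (nat_lit 0) (.e (nat_lit 412180) (nat_lit 0) .nil) .nil))))) (.nd (nat_lit 8) (.nd (nat_lit 9) 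
(.lf (nat_lit 596177) (.g (nat_lit 3485) (.e (nat_lit 573456) (nat_lit 9) (.e (nat_lit 430) (nat_lit 32) (.e (nat_lit 426012) (nat_lit 0) (.e (nat_lit 7490) (nat_lit 402) (.e (nat_lit 1256) (nat_lit 92) (.e (nat_lit 98373) (nat_lit 29) (.e (nat_lit 450587) (nat_lit 10) .nil))))))) (.g (nat_lit 1) (.e (nat_lit 411012) (nat_lit 0) .nil) .nil))) 
(.lf (nat_lit 596689) (.g (nat_lit 2574) (.e (nat_lit 573477) (nat_lit 12) (.e (nat_lit 57750) (nat_lit 201) (.e (nat_lit 3090) (nat_lit 191) (.e (nat_lit 483364) (nat_lit 18) (.e (nat_lit 57689) (nat_lit 156) (.e (nat_lit 163916) (nat_lit 13) (.e (nat_lit 434247) (nat_lit 28) .nil))))))) (.g (nat_lit 1) (.e (nat_lit 411913) (nat_lit 0) .nil) .nil)))) (.nd (nat_lit 9) 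
(.lf (nat_lit 596433) (.g (nat_lit 2228) (.e (nat_lit 573471) (nat_lit 11) (.e (nat_lit 16470) (nat_lit 14) (.e (nat_lit 491537) (nat_lit 2) (.e (nat_lit 90176) (nat_lit 15) .nil)))) (.g (nat_lit 0) (.e (nat_lit 411483) (nat_lit 0) .nil) .nil))) 
(.lf (nat_lit 596945) (.g (nat_lit 3253) (.e (nat_lit 573481) (nat_lit 13) (.e (nat_lit 65604) (nat_lit 9) (.e (nat_lit 336013) (nat_lit 2) (.e (nat_lit 90170) (nat_lit 13) (.e (nat_lit 172136) (nat_lit 15) .nil))))) (.g (nat_lit 0) (.e (nat_lit 412400) (nat_lit 0) .nil) .nil))))))) (.nd (nat_lit 6) (.nd (nat_lit 7) (.nd (nat_lit 8) (.nd (nat_lit 9) 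
(.lf (nat_lit 596017) (.g (nat_lit 537) (.e (nat_lit 573444) (nat_lit 0) (.e (nat_lit 3012) (nat_lit 187) (.e (nat_lit 450605) (nat_lit 27) (.e (nat_lit 745475) (nat_lit 0) (.e (nat_lit 1598) (nat_lit 111) (.e (nat_lit 368384) (nat_lit 10) .nil)))))) (.g (nat_lit 1) (.e (nat_lit 410584) (nat_lit 0) .nil) .nil))) 
(.lf (nat_lit 596529) (.g (nat_lit 301) (.e (nat_lit 573475) (nat_lit 12) (.e (nat_lit 57572) (nat_lit 54) (.e (nat_lit 770072) (nat_lit 8) .nil))) (.g (nat_lit 0) (.e (nat_lit 411642) (nat_lit 0) .nil) .nil)))) (.nd (nat_lit 9) 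
(.lf (nat_lit 596273) (.g (nat_lit 1952) (.e (nat_lit 573469) (nat_lit 11) (.e (nat_lit 16448) (nat_lit 10) (.e (nat_lit 434231) (nat_lit 23) (.e (nat_lit 532569) (nat_lit 16) .nil)))) (.g (nat_lit 0) (.e (nat_lit 411132) (nat_lit 0) .nil) .nil))) 
(.lf (nat_lit 596785) (.g (nat_lit 3578) (.e (nat_lit 573479) (nat_lit 13) (.e (nat_lit 65619) (nat_lit 10) (.e (nat_lit 344117) (nat_lit 21) (.e (nat_lit 516179) (nat_lit 15) (.e (nat_lit 475197) (nat_lit 40) .nil))))) (.g (nat_lit 0) (.e (nat_lit 412119) (nat_lit 0) .nil) .nil))))) (.nd (nat_lit 8) (.nd (nat_lit 9) 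
(.lf (nat_lit 596145) (.g (nat_lit 1507) (.e (nat_lit 573452) (nat_lit 9) (.e (nat_lit 1401) (nat_lit 106) (.e (nat_lit 319531) (nat_lit 16) (.e (nat_lit 294656) (nat_lit 34) .nil)))) (.g (nat_lit 0) (.e (nat_lit 410976) (nat_lit 0) .nil) .nil))) 
(.lf (nat_lit 596657) (.g (nat_lit 1335) (.e (nat_lit 573477) (nat_lit 12) (.e (nat_lit 57575) (nat_lit 55) (.e (nat_lit 778466) (nat_lit 11) (.e (nat_lit 24603) (nat_lit 2) .nil)))) (.g (nat_lit 0) (.e (nat_lit 411850) (nat_lit 0) .nil) .nil)))) (.nd (nat_lit 9) 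
(.lf (nat_lit 596401) (.g (nat_lit 4099) (.e (nat_lit 573471) (nat_lit 11) (.e (nat_lit 16448) (nat_lit 10) (.e (nat_lit 434231) (nat_lit 23) (.e (nat_lit 532569) (nat_lit 16) (.e (nat_lit 401448) (nat_lit 10) (.e (nat_lit 434245) (nat_lit 28) .nil)))))) (.g (nat_lit 1) (.e (nat_lit 411406) (nat_lit 0) .nil) .nil))) 
(.lf (nat_lit 596913) (.g (nat_lit 2596) (.e (nat_lit 573481) (nat_lit 13) (.e (nat_lit 65604) (nat_lit 9) (.e (nat_lit 336013) (nat_lit 2) (.e (nat_lit 90170) (nat_lit 13) (.e (nat_lit 172046) (nat_lit 0) .nil))))) (.g (nat_lit 0) (.e (nat_lit 412347) (nat_lit 0) .nil) .nil)))))) (.nd (nat_lit 7) (.nd (nat_lit 8) (.nd (nat_lit 9) 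
(.lf (nat_lit 596081) (.g (nat_lit 3411) (.e (nat_lit 573449) (nat_lit 9) (.e (nat_lit 436) (nat_lit 32) (.e (nat_lit 426316) (nat_lit 12) (.e (nat_lit 475185) (nat_lit 29) (.e (nat_lit 557101) (nat_lit 13) .nil))))) (.g (nat_lit 0) (.e (nat_lit 410803) (nat_lit 0) .nil) .nil))) 
(.lf (nat_lit 596593) (.g (nat_lit 1478) (.e (nat_lit 573477) (nat_lit 12) (.e (nat_lit 57574) (nat_lit 55) (.e (nat_lit 778465) (nat_lit 11) (.e (nat_lit 24607) (nat_lit 3) (.e (nat_lit 106240) (nat_lit 26) .nil))))) (.g (nat_lit 0) (.e (nat_lit 411766) (nat_lit 0) .nil) .nil)))) (.nd (nat_lit 9) 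
(.lf (nat_lit 596337) (.g (nat_lit 2137) (.e (nat_lit 573470) (nat_lit 11) (.e (nat_lit 16461) (nat_lit 12) (.e (nat_lit 475185) (nat_lit 29) (.e (nat_lit 557101) (nat_lit 13) (.e (nat_lit 172115) (nat_lit 10) .nil))))) (.g (nat_lit 0) (.e (nat_lit 411240) (nat_lit 0) .nil) .nil))) 
(.lf (nat_lit 596849) (.g (nat_lit 4226) (.e (nat_lit 573481) (nat_lit 13) (.e (nat_lit 65563) (nat_lit 1) (.e (nat_lit 57926) (nat_lit 282) (.e (nat_lit 163943) (nat_lit 19) (.e (nat_lit 483413) (nat_lit 27) (.e (nat_lit 401414) (nat_lit 0) (.e (nat_lit 3297) (nat_lit 202) .nil))))))) (.g (nat_lit 1) (.e (nat_lit 412224) (nat_lit 0) .nil) .nil))))) (.nd (nat_lit 8) (.nd (nat_lit 9) 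
(.lf (nat_lit 596209) (.g (nat_lit 2591) (.e (nat_lit 573456) (nat_lit 9) (.e (nat_lit 1669) (nat_lit 116) (.e (nat_lit 401459) (nat_lit 13) (.e (nat_lit 483363) (nat_lit 18) (.e (nat_lit 57651) (nat_lit 152) .nil))))) (.g (nat_lit 0) (.e (nat_lit 411046) (nat_lit 0) .nil) .nil))) 
(.lf (nat_lit 596721) (.g (nat_lit 1451) (.e (nat_lit 573478) (nat_lit 12) (.e (nat_lit 57574) (nat_lit 55) (.e (nat_lit 778466) (nat_lit 11) (.e (nat_lit 32512) (nat_lit 0) .nil)))) (.g (nat_lit 0) (.e (nat_lit 411978) (nat_lit 0) .nil) .nil)))) (.nd (nat_lit 9) 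
(.lf (nat_lit 596465) (.g (nat_lit 1522) (.e (nat_lit 581376) (nat_lit 11) (.e (nat_lit 16473) (nat_lit 14) (.e (nat_lit 491536) (nat_lit 2) (.e (nat_lit 90170) (nat_lit 13) .nil)))) (.g (nat_lit 0) (.e (nat_lit 411519) (nat_lit 0) .nil) .nil))) 
(.lf (nat_lit 596977) (.g (nat_lit 4649) (.e (nat_lit 573481) (nat_lit 13) (.e (nat_lit 65604) (nat_lit 9) (.e (nat_lit 336028) (nat_lit 3) (.e (nat_lit 98359) (nat_lit 26) (.e (nat_lit 426412) (nat_lit 15) (.e (nat_lit 2059) (nat_lit 142) (.e (nat_lit 704589) (nat_lit 3) (.e (nat_lit 163976) (nat_lit 30) .nil)))))))) (.g (nat_lit 1) (.e (nat_lit 412482) (nat_lit 0) .nil) .nil))))))))) 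
(.nd (nat_lit 4) (.nd (nat_lit 5) (.nd (nat_lit 6) (.nd (nat_lit 7) (.nd (nat_lit 8) 
(.nd (nat_lit 9) 
(.lf (nat_lit 595977) (.g (nat_lit 2652) (.e (nat_lit 548913) (nat_lit 18) (.e (nat_lit 172126) (nat_lit 14) (.e (nat_lit 491540) (nat_lit 3) (.e (nat_lit 98370) (nat_lit 28) (.e (nat_lit 442402) (nat_lit 20) (.e (nat_lit 3272) (nat_lit 199) .nil)))))) (.g (nat_lit 1) (.e (nat_lit 410324) (nat_lit 0) .nil) .nil))) 
(.lf (nat_lit 596489) (.g (nat_lit 5238) (.e (nat_lit 573474) (nat_lit 12) (.e (nat_lit 57503) (nat_lit 38) (.e (nat_lit 638995) (nat_lit 7) (.e (nat_lit 163979) (nat_lit 30) (.e (nat_lit 573487) (nat_lit 14) (.e (nat_lit 73753) (nat_lit 8) (.e (nat_lit 557103) (nat_lit 14) (.e (nat_lit 180250) (nat_lit 10) .nil)))))))) (.g (nat_lit 1) (.e (nat_lit 411559) (nat_lit 0) .nil) .nil)))) 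
(.nd (nat_lit 9) 
(.lf (nat_lit 596233) (.g (nat_lit 3029) (.e (nat_lit 573457) (nat_lit 9) (.e (nat_lit 430) (nat_lit 32) (.e (nat_lit 426343) (nat_lit 14) (.e (nat_lit 491538) (nat_lit 3) (.e (nat_lit 98373) (nat_lit 29) (.e (nat_lit 450587) (nat_lit 10) .nil)))))) (.g (nat_lit 1) (.e (nat_lit 411074) (nat_lit 0) .nil) .nil))) 
(.lf (nat_lit 596745) (.g (nat_lit 436) (.e (nat_lit 573479) (nat_lit 13) (.e (nat_lit 65610) (nat_lit 10) (.e (nat_lit 344117) (nat_lit 21) .nil))) (.g (nat_lit 0) (.e (nat_lit 412079) (nat_lit 0) .nil) .nil))))) (.nd (nat_lit 8) (.nd (nat_lit 9) 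
(.lf (nat_lit 596105) (.g (nat_lit 5369) (.e (nat_lit 573451) (nat_lit 9) (.e (nat_lit 359) (nat_lit 30) (.e (nat_lit 409604) (nat_lit 0) (.e (nat_lit 5270) (nat_lit 298) (.e (nat_lit 1239) (nat_lit 91) (.e (nat_lit 90170) (nat_lit 13) (.e (nat_lit 172113) (nat_lit 10) (.e (nat_lit 434245) (nat_lit 28) .nil)))))))) (.g (nat_lit 1) (.e (nat_lit 410924) (nat_lit 0) .nil) .nil))) 
(.lf (nat_lit 596617) (.g (nat_lit 2071) (.e (nat_lit 573477) (nat_lit 12) (.e (nat_lit 57574) (nat_lit 55) (.e (nat_lit 778466) (nat_lit 11) (.e (nat_lit 24604) (nat_lit 2) (.e (nat_lit 90176) (nat_lit 15) .nil))))) (.g (nat_lit 0) (.e (nat_lit 411804) (nat_lit 0) .nil) .nil)))) (.nd (nat_lit 9) 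
(.lf (nat_lit 596361) (.g (nat_lit 3682) (.e (nat_lit 573470) (nat_lit 11) (.e (nat_lit 16473) (nat_lit 14) (.e (nat_lit 491536) (nat_lit 2) (.e (nat_lit 90170) (nat_lit 13) (.e (nat_lit 172113) (nat_lit 10) (.e (nat_lit 434248) (nat_lit 28) .nil)))))) (.g (nat_lit 1) (.e (nat_lit 411268) (nat_lit 0) .nil) .nil))) 
(.lf (nat_lit 596873) (.g (nat_lit 2299) (.e (nat_lit 573481) (nat_lit 13) (.e (nat_lit 65604) (nat_lit 9) (.e (nat_lit 336013) (nat_lit 2) (.e (nat_lit 90134) (nat_lit 9) (.e (nat_lit 3071) (nat_lit 190) (.e (nat_lit 475196) (nat_lit 40) (.e (nat_lit 704589) (nat_lit 3) (.e (nat_lit 163976) (nat_lit 30) .nil)))))))) (.g (nat_lit 1) (.e (nat_lit 412292) (nat_lit 0) .nil) .nil)))))) 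
(.nd (nat_lit 7) (.nd (nat_lit 8) (.nd (nat_lit 9) 
(.lf (nat_lit 596041) (.g (nat_lit 1145) (.e (nat_lit 573445) (nat_lit 0) (.e (nat_lit 3012) (nat_lit 187) (.e (nat_lit 450605) (nat_lit 27) (.e (nat_lit 745476) (nat_lit 0) (.e (nat_lit 1589) (nat_lit 111) (.e (nat_lit 368384) (nat_lit 10) .nil)))))) (.g (nat_lit 1) (.e (nat_lit 410628) (nat_lit 0) .nil) .nil))) 
(.lf (nat_lit 596553) (.g (nat_lit 2230) (.e (nat_lit 573475) (nat_lit 12) (.e (nat_lit 57574) (nat_lit 55) (.e (nat_lit 778466) (nat_lit 11) (.e (nat_lit 24604) (nat_lit 2) (.e (nat_lit 90167) (nat_lit 13) .nil))))) (.g (nat_lit 0) (.e (nat_lit 411678) (nat_lit 0) .nil) .nil)))) (.nd (nat_lit 9) 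
(.lf (nat_lit 596297) (.g (nat_lit 589) (.e (nat_lit 573469) (nat_lit 11) (.e (nat_lit 16470) (nat_lit 14) (.e (nat_lit 491540) (nat_lit 3) .nil))) (.g (nat_lit 0) (.e (nat_lit 411170) (nat_lit 0) .nil) .nil))) 
(.lf (nat_lit 596809) (.g (nat_lit 2230) (.e (nat_lit 573480) (nat_lit 13) (.e (nat_lit 65610) (nat_lit 10) (.e (nat_lit 344117) (nat_lit 21) (.e (nat_lit 516179) (nat_lit 15) .nil)))) (.g (nat_lit 0) (.e (nat_lit 412172) (nat_lit 0) .nil) .nil))))) (.nd (nat_lit 8) (.nd (nat_lit 9) 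
(.lf (nat_lit 596169) (.g (nat_lit 2424) (.e (nat_lit 573456) (nat_lit 9) (.e (nat_lit 430) (nat_lit 32) (.e (nat_lit 426009) (nat_lit 0) (.e (nat_lit 7583) (nat_lit 405) (.e (nat_lit 57464) (nat_lit 23) (.e (nat_lit 516165) (nat_lit 12) (.e (nat_lit 450586) (nat_lit 10) .nil))))))) (.g (nat_lit 1) (.e (nat_lit 411004) (nat_lit 0) .nil) .nil))) 
(.lf (nat_lit 596681) (.g (nat_lit 2565) (.e (nat_lit 573477) (nat_lit 12) (.e (nat_lit 57750) (nat_lit 201) (.e (nat_lit 3090) (nat_lit 191) (.e (nat_lit 483363) (nat_lit 18) (.e (nat_lit 57686) (nat_lit 156) .nil))))) (.g (nat_lit 0) (.e (nat_lit 411901) (nat_lit 0) .nil) .nil)))) (.nd (nat_lit 9) 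
(.lf (nat_lit 596425) (.g (nat_lit 1495) (.e (nat_lit 573471) (nat_lit 11) (.e (nat_lit 16470) (nat_lit 14) (.e (nat_lit 491525) (nat_lit 0) (.e (nat_lit 1788) (nat_lit 119) .nil)))) (.g (nat_lit 0) (.e (nat_lit 411474) (nat_lit 0) .nil) .nil))) 
(.lf (nat_lit 596937) (.g (nat_lit 4138) (.e (nat_lit 573481) (nat_lit 13) (.e (nat_lit 65604) (nat_lit 9) (.e (nat_lit 336013) (nat_lit 2) (.e (nat_lit 90170) (nat_lit 13) (.e (nat_lit 172061) (nat_lit 1) (.e (nat_lit 164348) (nat_lit 240) (.e (nat_lit 2601) (nat_lit 163) (.e (nat_lit 163975) (nat_lit 30) .nil)))))))) (.g (nat_lit 1) (.e (nat_lit 412382) (nat_lit 0) .nil) .nil))))))) 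
(.nd (nat_lit 6) (.nd (nat_lit 7) (.nd (nat_lit 8) (.nd (nat_lit 9) 
(.lf (nat_lit 596009) (.g (nat_lit 628) (.e (nat_lit 573444) (nat_lit 0) (.e (nat_lit 3011) (nat_lit 187) (.e (nat_lit 450605) (nat_lit 27) (.e (nat_lit 745475) (nat_lit 0) (.e (nat_lit 1592) (nat_lit 111) (.e (nat_lit 368384) (nat_lit 10) .nil)))))) (.g (nat_lit 1) (.e (nat_lit 410576) (nat_lit 0) .nil) .nil))) 
(.lf (nat_lit 596521) (.g (nat_lit 2605) (.e (nat_lit 573475) (nat_lit 12) (.e (nat_lit 57503) (nat_lit 38) (.e (nat_lit 638995) (nat_lit 7) (.e (nat_lit 163979) (nat_lit 30) (.e (nat_lit 573486) (nat_lit 14) .nil))))) (.g (nat_lit 0) (.e (nat_lit 411632) (nat_lit 0) .nil) .nil)))) (.nd (nat_lit 9) 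
(.lf (nat_lit 596265) (.g (nat_lit 406) (.e (nat_lit 573469) (nat_lit 11) (.e (nat_lit 16436) (nat_lit 9) (.e (nat_lit 426131) (nat_lit 3) .nil))) (.g (nat_lit 0) (.e (nat_lit 411117) (nat_lit 0) .nil) .nil))) 
(.lf (nat_lit 596777) (.g (nat_lit 1802) (.e (nat_lit 573479) (nat_lit 13) (.e (nat_lit 65619) (nat_lit 10) (.e (nat_lit 344117) (nat_lit 21) (.e (nat_lit 516159) (nat_lit 10) (.e (nat_lit 434209) (nat_lit 18) (.e (nat_lit 5548) (nat_lit 306) (.e (nat_lit 2601) (nat_lit 163) (.e (nat_lit 163974) (nat_lit 30) .nil)))))))) (.g (nat_lit 1) (.e (nat_lit 412111) (nat_lit 0) .nil) .nil))))) 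
(.nd (nat_lit 8) (.nd (nat_lit 9) 
(.lf (nat_lit 596137) (.g (nat_lit 2251) (.e (nat_lit 573451) (nat_lit 9) (.e (nat_lit 1667) (nat_lit 116) (.e (nat_lit 401459) (nat_lit 13) (.e (nat_lit 483344) (nat_lit 17) (.e (nat_lit 2273) (nat_lit 149) .nil))))) (.g (nat_lit 0) (.e (nat_lit 410959) (nat_lit 0) .nil) .nil))) 
(.lf (nat_lit 596649) (.g (nat_lit 1183) (.e (nat_lit 573477) (nat_lit 12) (.e (nat_lit 57575) (nat_lit 55) (.e (nat_lit 778465) (nat_lit 11) (.e (nat_lit 24608) (nat_lit 3) .nil)))) (.g (nat_lit 0) (.e (nat_lit 411841) (nat_lit 0) .nil) .nil)))) (.nd (nat_lit 9) 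
(.lf (nat_lit 596393) (.g (nat_lit 3260) (.e (nat_lit 573471) (nat_lit 11) (.e (nat_lit 16446) (nat_lit 9) (.e (nat_lit 426133) (nat_lit 3) (.e (nat_lit 204885) (nat_lit 33) (.e (nat_lit 401448) (nat_lit 10) (.e (nat_lit 434245) (nat_lit 28) .nil)))))) (.g (nat_lit 1) (.e (nat_lit 411375) (nat_lit 0) .nil) .nil))) 
(.lf (nat_lit 596905) (.g (nat_lit 3211) (.e (nat_lit 573481) (nat_lit 13) (.e (nat_lit 65604) (nat_lit 9) (.e (nat_lit 336013) (nat_lit 2) (.e (nat_lit 90170) (nat_lit 13) (.e (nat_lit 172039) (nat_lit 0) (.e (nat_lit 3402) (nat_lit 211) (.e (nat_lit 647180) (nat_lit 3) (.e (nat_lit 163976) (nat_lit 30) .nil)))))))) (.g (nat_lit 1) (.e (nat_lit 412337) (nat_lit 0) .nil) .nil)))))) 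
(.nd (nat_lit 7) (.nd (nat_lit 8) (.nd (nat_lit 9) 
(.lf (nat_lit 596073) (.g (nat_lit 629) (.e (nat_lit 573448) (nat_lit 9) (.e (nat_lit 375) (nat_lit 32) (.e (nat_lit 426173) (nat_lit 7) .nil))) (.g (nat_lit 0) (.e (nat_lit 410784) (nat_lit 0) .nil) .nil))) 
(.lf (nat_lit 596585) (.g (nat_lit 2280) (.e (nat_lit 573477) (nat_lit 12) (.e (nat_lit 57574) (nat_lit 55) (.e (nat_lit 778465) (nat_lit 11) (.e (nat_lit 24604) (nat_lit 2) (.e (nat_lit 90168) (nat_lit 13) .nil))))) (.g (nat_lit 0) (.e (nat_lit 411757) (nat_lit 0) .nil) .nil)))) (.nd (nat_lit 9) 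
(.lf (nat_lit 596329) (.g (nat_lit 3538) (.e (nat_lit 573470) (nat_lit 11) (.e (nat_lit 16458) (nat_lit 12) (.e (nat_lit 475183) (nat_lit 29) (.e (nat_lit 557107) (nat_lit 15) (.e (nat_lit 188440) (nat_lit 20) (.e (nat_lit 3307) (nat_lit 202) .nil)))))) (.g (nat_lit 1) (.e (nat_lit 411231) (nat_lit 0) .nil) .nil))) 
(.lf (nat_lit 596841) (.g (nat_lit 1204) (.e (nat_lit 573480) (nat_lit 13) (.e (nat_lit 65630) (nat_lit 14) (.e (nat_lit 401428) (nat_lit 3) (.e (nat_lit 204867) (nat_lit 28) .nil)))) (.g (nat_lit 0) (.e (nat_lit 412204) (nat_lit 0) .nil) .nil))))) (.nd (nat_lit 8) (.nd (nat_lit 9) 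
(.lf (nat_lit 596201) (.g (nat_lit 2224) (.e (nat_lit 573456) (nat_lit 9) (.e (nat_lit 1499) (nat_lit 108) (.e (nat_lit 336204) (nat_lit 12) (.e (nat_lit 385074) (nat_lit 31) (.e (nat_lit 573491) (nat_lit 15) .nil))))) (.g (nat_lit 0) (.e (nat_lit 411038) (nat_lit 0) .nil) .nil))) 
(.lf (nat_lit 596713) (.g (nat_lit 417) (.e (nat_lit 573478) (nat_lit 12) (.e (nat_lit 57574) (nat_lit 55) (.e (nat_lit 778466) (nat_lit 11) .nil))) (.g (nat_lit 0) (.e (nat_lit 411967) (nat_lit 0) .nil) .nil)))) (.nd (nat_lit 9) 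
(.lf (nat_lit 596457) (.g (nat_lit 2407) (.e (nat_lit 573471) (nat_lit 11) (.e (nat_lit 16473) (nat_lit 14) (.e (nat_lit 491536) (nat_lit 2) (.e (nat_lit 90170) (nat_lit 13) (.e (nat_lit 172110) (nat_lit 10) .nil))))) (.g (nat_lit 0) (.e (nat_lit 411510) (nat_lit 0) .nil) .nil))) 
(.lf (nat_lit 596969) (.g (nat_lit 4803) (.e (nat_lit 573481) (nat_lit 13) (.e (nat_lit 65604) (nat_lit 9) (.e (nat_lit 336028) (nat_lit 3) (.e (nat_lit 98359) (nat_lit 26) (.e (nat_lit 426396) (nat_lit 15) (.e (nat_lit 2059) (nat_lit 142) (.e (nat_lit 704589) (nat_lit 3) (.e (nat_lit 163976) (nat_lit 30) .nil)))))))) (.g (nat_lit 1) (.e (nat_lit 412472) (nat_lit 0) .nil) .nil)))))))) 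
(.nd (nat_lit 5) (.nd (nat_lit 6) (.nd (nat_lit 7) (.nd (nat_lit 8) (.nd (nat_lit 9) 
(.lf (nat_lit 595993) (.g (nat_lit 905) (.e (nat_lit 548889) (nat_lit 9) (.e (nat_lit 65630) (nat_lit 14) (.e (nat_lit 401410) (nat_lit 0) (.e (nat_lit 3262) (nat_lit 198) .nil)))) (.g (nat_lit 0) (.e (nat_lit 410506) (nat_lit 0) .nil) .nil))) 
(.lf (nat_lit 596505) (.g (nat_lit 2105) (.e (nat_lit 573474) (nat_lit 12) (.e (nat_lit 57572) (nat_lit 54) (.e (nat_lit 770072) (nat_lit 8) (.e (nat_lit 65571) (nat_lit 3) (.e (nat_lit 98381) (nat_lit 31) .nil))))) (.g (nat_lit 0) (.e (nat_lit 411584) (nat_lit 0) .nil) .nil)))) (.nd (nat_lit 9) 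
(.lf (nat_lit 596249) (.g (nat_lit 5072) (.e (nat_lit 573461) (nat_lit 9) (.e (nat_lit 426) (nat_lit 32) (.e (nat_lit 426316) (nat_lit 12) (.e (nat_lit 475185) (nat_lit 29) (.e (nat_lit 557107) (nat_lit 15) (.e (nat_lit 188440) (nat_lit 20) (.e (nat_lit 3307) (nat_lit 202) .nil))))))) (.g (nat_lit 1) (.e (nat_lit 411095) (nat_lit 0) .nil) .nil))) 
(.lf (nat_lit 596761) (.g (nat_lit 1009) (.e (nat_lit 573479) (nat_lit 13) (.e (nat_lit 65619) (nat_lit 10) (.e (nat_lit 344117) (nat_lit 21) (.e (nat_lit 516151) (nat_lit 9) .nil)))) (.g (nat_lit 0) (.e (nat_lit 412095) (nat_lit 0) .nil) .nil))))) (.nd (nat_lit 8) (.nd (nat_lit 9) 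
(.lf (nat_lit 596121) (.g (nat_lit 3708) (.e (nat_lit 573451) (nat_lit 9) (.e (nat_lit 430) (nat_lit 32) (.e (nat_lit 426343) (nat_lit 14) (.e (nat_lit 491538) (nat_lit 3) (.e (nat_lit 98359) (nat_lit 26) (.e (nat_lit 426286) (nat_lit 10) (.e (nat_lit 434245) (nat_lit 28) .nil))))))) (.g (nat_lit 1) (.e (nat_lit 410940) (nat_lit 0) .nil) .nil))) 
(.lf (nat_lit 596633) (.g (nat_lit 3898) (.e (nat_lit 573477) (nat_lit 12) (.e (nat_lit 57574) (nat_lit 55) (.e (nat_lit 778466) (nat_lit 11) (.e (nat_lit 24608) (nat_lit 3) (.e (nat_lit 98380) (nat_lit 31) (.e (nat_lit 466967) (nat_lit 20) (.e (nat_lit 3304) (nat_lit 202) .nil))))))) (.g (nat_lit 1) (.e (nat_lit 411823) (nat_lit 0) .nil) .nil)))) (.nd (nat_lit 9) 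
(.lf (nat_lit 596377) (.g (nat_lit 1310) (.e (nat_lit 573471) (nat_lit 11) (.e (nat_lit 16425) (nat_lit 7) (.e (nat_lit 409607) (nat_lit 0) .nil))) (.g (nat_lit 0) (.e (nat_lit 411293) (nat_lit 0) .nil) .nil))) 
(.lf (nat_lit 596889) (.g (nat_lit 3265) (.e (nat_lit 573481) (nat_lit 13) (.e (nat_lit 65604) (nat_lit 9) (.e (nat_lit 336013) (nat_lit 2) (.e (nat_lit 90165) (nat_lit 12) (.e (nat_lit 164208) (nat_lit 176) (.e (nat_lit 2781) (nat_lit 178) (.e (nat_lit 286765) (nat_lit 15) (.e (nat_lit 3298) (nat_lit 202) .nil)))))))) (.g (nat_lit 1) (.e (nat_lit 412310) (nat_lit 0) .nil) .nil)))))) 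
(.nd (nat_lit 7) (.nd (nat_lit 8) (.nd (nat_lit 9) 
(.lf (nat_lit 596057) (.g (nat_lit 1115) (.e (nat_lit 573445) (nat_lit 0) (.e (nat_lit 3026) (nat_lit 187) (.e (nat_lit 450605) (nat_lit 27) (.e (nat_lit 745476) (nat_lit 0) (.e (nat_lit 1592) (nat_lit 111) (.e (nat_lit 368384) (nat_lit 10) .nil)))))) (.g (nat_lit 1) (.e (nat_lit 410646) (nat_lit 0) .nil) .nil))) 
(.lf (nat_lit 596569) (.g (nat_lit 573) (.e (nat_lit 573477) (nat_lit 12) (.e (nat_lit 57570) (nat_lit 54) (.e (nat_lit 770076) (nat_lit 12) (.e (nat_lit 131098) (nat_lit 3) .nil)))) (.g (nat_lit 0) (.e (nat_lit 411738) (nat_lit 0) .nil) .nil)))) (.nd (nat_lit 9) 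
(.lf (nat_lit 596313) (.g (nat_lit 3610) (.e (nat_lit 573470) (nat_lit 11) (.e (nat_lit 16387) (nat_lit 0) (.e (nat_lit 7581) (nat_lit 405) (.e (nat_lit 57464) (nat_lit 23) (.e (nat_lit 516151) (nat_lit 9) (.e (nat_lit 426286) (nat_lit 10) (.e (nat_lit 434248) (nat_lit 28) .nil))))))) (.g (nat_lit 1) (.e (nat_lit 411188) (nat_lit 0) .nil) .nil))) 
(.lf (nat_lit 596825) (.g (nat_lit 1694) (.e (nat_lit 573480) (nat_lit 13) (.e (nat_lit 65630) (nat_lit 14) (.e (nat_lit 401425) (nat_lit 2) (.e (nat_lit 196681) (nat_lit 17) .nil)))) (.g (nat_lit 0) (.e (nat_lit 412188) (nat_lit 0) .nil) .nil))))) (.nd (nat_lit 8) (.nd (nat_lit 9) 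
(.lf (nat_lit 596185) (.g (nat_lit 1093) (.e (nat_lit 573456) (nat_lit 9) (.e (nat_lit 430) (nat_lit 32) (.e (nat_lit 426198) (nat_lit 9) (.e (nat_lit 426402) (nat_lit 15) (.e (nat_lit 1848) (nat_lit 124) .nil))))) (.g (nat_lit 0) (.e (nat_lit 411020) (nat_lit 0) .nil) .nil))) 
(.lf (nat_lit 596697) (.g (nat_lit 3256) (.e (nat_lit 573478) (nat_lit 12) (.e (nat_lit 57574) (nat_lit 55) (.e (nat_lit 778362) (nat_lit 9) (.e (nat_lit 297) (nat_lit 22) (.e (nat_lit 344121) (nat_lit 22) .nil))))) (.g (nat_lit 0) (.e (nat_lit 411946) (nat_lit 0) .nil) .nil)))) (.nd (nat_lit 9) 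
(.lf (nat_lit 596441) (.g (nat_lit 435) (.e (nat_lit 573471) (nat_lit 11) (.e (nat_lit 16471) (nat_lit 14) (.e (nat_lit 491526) (nat_lit 0) .nil))) (.g (nat_lit 0) (.e (nat_lit 411491) (nat_lit 0) .nil) .nil))) 
(.lf (nat_lit 596953) (.g (nat_lit 4555) (.e (nat_lit 573481) (nat_lit 13) (.e (nat_lit 65604) (nat_lit 9) (.e (nat_lit 336013) (nat_lit 2) (.e (nat_lit 90170) (nat_lit 13) (.e (nat_lit 172138) (nat_lit 15) (.e (nat_lit 2058) (nat_lit 142) (.e (nat_lit 704589) (nat_lit 3) (.e (nat_lit 163976) (nat_lit 30) .nil)))))))) (.g (nat_lit 1) (.e (nat_lit 412408) (nat_lit 0) .nil) .nil))))))) 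
(.nd (nat_lit 6) (.nd (nat_lit 7) (.nd (nat_lit 8) (.nd (nat_lit 9) 
(.lf (nat_lit 596025) (.g (nat_lit 1750) (.e (nat_lit 573445) (nat_lit 0) (.e (nat_lit 3011) (nat_lit 187) (.e (nat_lit 450563) (nat_lit 0) (.e (nat_lit 6830) (nat_lit 367) (.e (nat_lit 57426) (nat_lit 15) (.e (nat_lit 368384) (nat_lit 10) .nil)))))) (.g (nat_lit 1) (.e (nat_lit 410610) (nat_lit 0) .nil) .nil))) 
(.lf (nat_lit 596537) (.g (nat_lit 3394) (.e (nat_lit 573475) (nat_lit 12) (.e (nat_lit 57574) (nat_lit 55) (.e (nat_lit 778362) (nat_lit 9) (.e (nat_lit 297) (nat_lit 22) (.e (nat_lit 344110) (nat_lit 19) .nil))))) (.g (nat_lit 0) (.e (nat_lit 411652) (nat_lit 0) .nil) .nil)))) (.nd (nat_lit 9) 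
(.lf (nat_lit 596281) (.g (nat_lit 2709) (.e (nat_lit 573469) (nat_lit 11) (.e (nat_lit 16459) (nat_lit 12) (.e (nat_lit 475185) (nat_lit 29) (.e (nat_lit 557107) (nat_lit 15) (.e (nat_lit 188440) (nat_lit 20) .nil))))) (.g (nat_lit 0) (.e (nat_lit 411154) (nat_lit 0) .nil) .nil))) 
(.lf (nat_lit 596793) (.g (nat_lit 593) (.e (nat_lit 573479) (nat_lit 13) (.e (nat_lit 65630) (nat_lit 14) (.e (nat_lit 401428) (nat_lit 3) .nil))) (.g (nat_lit 0) (.e (nat_lit 412127) (nat_lit 0) .nil) .nil))))) (.nd (nat_lit 8) (.nd (nat_lit 9) 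
(.lf (nat_lit 596153) (.g (nat_lit 1662) (.e (nat_lit 573453) (nat_lit 9) (.e (nat_lit 1669) (nat_lit 116) (.e (nat_lit 401459) (nat_lit 13) (.e (nat_lit 483364) (nat_lit 18) .nil)))) (.g (nat_lit 0) (.e (nat_lit 410984) (nat_lit 0) .nil) .nil))) 
(.lf (nat_lit 596665) (.g (nat_lit 2223) (.e (nat_lit 573477) (nat_lit 12) (.e (nat_lit 57575) (nat_lit 55) (.e (nat_lit 778466) (nat_lit 11) (.e (nat_lit 24604) (nat_lit 2) (.e (nat_lit 90178) (nat_lit 15) .nil))))) (.g (nat_lit 0) (.e (nat_lit 411858) (nat_lit 0) .nil) .nil)))) (.nd (nat_lit 9) 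
(.lf (nat_lit 596409) (.g (nat_lit 3648) (.e (nat_lit 573471) (nat_lit 11) (.e (nat_lit 16455) (nat_lit 12) (.e (nat_lit 475185) (nat_lit 29) (.e (nat_lit 557107) (nat_lit 15) (.e (nat_lit 188440) (nat_lit 20) (.e (nat_lit 3307) (nat_lit 202) .nil)))))) (.g (nat_lit 1) (.e (nat_lit 411449) (nat_lit 0) .nil) .nil))) 
(.lf (nat_lit 596921) (.g (nat_lit 3449) (.e (nat_lit 573481) (nat_lit 13) (.e (nat_lit 65604) (nat_lit 9) (.e (nat_lit 336013) (nat_lit 2) (.e (nat_lit 90170) (nat_lit 13) (.e (nat_lit 172051) (nat_lit 0) .nil))))) (.g (nat_lit 0) (.e (nat_lit 412362) (nat_lit 0) .nil) .nil)))))) (.nd (nat_lit 7) (.nd (nat_lit 8) (.nd (nat_lit 9) 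
(.lf (nat_lit 596089) (.g (nat_lit 2558) (.e (nat_lit 573449) (nat_lit 9) (.e (nat_lit 1669) (nat_lit 116) (.e (nat_lit 401459) (nat_lit 13) (.e (nat_lit 483364) (nat_lit 18) (.e (nat_lit 57689) (nat_lit 156) .nil))))) (.g (nat_lit 0) (.e (nat_lit 410844) (nat_lit 0) .nil) .nil))) 
(.lf (nat_lit 596601) (.g (nat_lit 3325) (.e (nat_lit 573477) (nat_lit 12) (.e (nat_lit 57574) (nat_lit 55) (.e (nat_lit 778465) (nat_lit 11) (.e (nat_lit 24608) (nat_lit 3) (.e (nat_lit 98381) (nat_lit 31) (.e (nat_lit 466967) (nat_lit 20) (.e (nat_lit 3305) (nat_lit 202) .nil))))))) (.g (nat_lit 1) (.e (nat_lit 411774) (nat_lit 0) .nil) .nil)))) (.nd (nat_lit 9) 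
(.lf (nat_lit 596345) (.g (nat_lit 921) (.e (nat_lit 573470) (nat_lit 11) (.e (nat_lit 16470) (nat_lit 14) (.e (nat_lit 491538) (nat_lit 3) .nil))) (.g (nat_lit 0) (.e (nat_lit 411249) (nat_lit 0) .nil) .nil))) 
(.lf (nat_lit 596857) (.g (nat_lit 1574) (.e (nat_lit 573481) (nat_lit 13) (.e (nat_lit 65570) (nat_lit 3) (.e (nat_lit 98333) (nat_lit 18) (.e (nat_lit 164196) (nat_lit 158) .nil)))) (.g (nat_lit 0) (.e (nat_lit 412262) (nat_lit 0) .nil) .nil))))) (.nd (nat_lit 8) (.nd (nat_lit 9) 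
(.lf (nat_lit 596217) (.g (nat_lit 2591) (.e (nat_lit 573456) (nat_lit 9) (.e (nat_lit 1669) (nat_lit 116) (.e (nat_lit 401459) (nat_lit 13) (.e (nat_lit 483363) (nat_lit 18) (.e (nat_lit 57664) (nat_lit 152) .nil))))) (.g (nat_lit 0) (.e (nat_lit 411054) (nat_lit 0) .nil) .nil))) 
(.lf (nat_lit 596729) (.g (nat_lit 1118) (.e (nat_lit 573478) (nat_lit 12) (.e (nat_lit 57574) (nat_lit 55) (.e (nat_lit 778466) (nat_lit 11) (.e (nat_lit 24607) (nat_lit 3) .nil)))) (.g (nat_lit 0) (.e (nat_lit 411995) (nat_lit 0) .nil) .nil)))) (.nd (nat_lit 9) 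
(.lf (nat_lit 596473) (.g (nat_lit 3809) (.e (nat_lit 573473) (nat_lit 12) (.e (nat_lit 57353) (nat_lit 0) (.e (nat_lit 7261) (nat_lit 384) (.e (nat_lit 57412) (nat_lit 12) (.e (nat_lit 336001) (nat_lit 2) (.e (nat_lit 90170) (nat_lit 13) (.e (nat_lit 172113) (nat_lit 10) (.e (nat_lit 434245) (nat_lit 28) .nil)))))))) (.g (nat_lit 1) (.e (nat_lit 411527) (nat_lit 0) .nil) .nil))) 
(.lf (nat_lit 596985) (.g (nat_lit 3642) (.e (nat_lit 573481) (nat_lit 13) (.e (nat_lit 65604) (nat_lit 9) (.e (nat_lit 336028) (nat_lit 3) (.e (nat_lit 98366) (nat_lit 27) (.e (nat_lit 434271) (nat_lit 38) (.e (nat_lit 655373) (nat_lit 3) (.e (nat_lit 163975) (nat_lit 30) .nil))))))) (.g (nat_lit 1) (.e (nat_lit 412499) (nat_lit 0) .nil) .nil)))))))))) 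
(.nd (nat_lit 3) (.nd (nat_lit 4) (.nd (nat_lit 5) (.nd (nat_lit 6) (.nd (nat_lit 7) 
(.nd (nat_lit 8) (.nd (nat_lit 9) 
(.lf (nat_lit 595973) (.g (nat_lit 4235) (.e (nat_lit 548913) (nat_lit 18) (.e (nat_lit 172126) (nat_lit 14) (.e (nat_lit 491537) (nat_lit 2) (.e (nat_lit 90178) (nat_lit 15) (.e (nat_lit 188441) (nat_lit 20) (.e (nat_lit 3272) (nat_lit 199) .nil)))))) (.g (nat_lit 1) (.e (nat_lit 410319) (nat_lit 0) .nil) .nil))) 
(.lf (nat_lit 596485) (.g (nat_lit 4271) (.e (nat_lit 573474) (nat_lit 12) (.e (nat_lit 57351) (nat_lit 0) (.e (nat_lit 7265) (nat_lit 384) (.e (nat_lit 57412) (nat_lit 12) (.e (nat_lit 336001) (nat_lit 2) (.e (nat_lit 90170) (nat_lit 13) (.e (nat_lit 172113) (nat_lit 10) (.e (nat_lit 434245) (nat_lit 28) .nil)))))))) (.g (nat_lit 1) (.e (nat_lit 411555) (nat_lit 0) .nil) .nil)))) 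
(.nd (nat_lit 9) 
(.lf (nat_lit 596229) (.g (nat_lit 944) (.e (nat_lit 573457) (nat_lit 9) (.e (nat_lit 202) (nat_lit 17) (.e (nat_lit 253992) (nat_lit 11) (.e (nat_lit 16412) (nat_lit 2) .nil)))) (.g (nat_lit 0) (.e (nat_lit 411066) (nat_lit 0) .nil) .nil))) 
(.lf (nat_lit 596741) (.g (nat_lit 364) (.e (nat_lit 573479) (nat_lit 13) (.e (nat_lit 65604) (nat_lit 9) (.e (nat_lit 336028) (nat_lit 3) .nil))) (.g (nat_lit 0) (.e (nat_lit 412075) (nat_lit 0) .nil) .nil))))) (.nd (nat_lit 8) (.nd (nat_lit 9) 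
(.lf (nat_lit 596101) (.g (nat_lit 2043) (.e (nat_lit 573450) (nat_lit 9) (.e (nat_lit 457) (nat_lit 34) (.e (nat_lit 442379) (nat_lit 0) (.e (nat_lit 1856) (nat_lit 124) (.e (nat_lit 557098) (nat_lit 13) .nil))))) (.g (nat_lit 0) (.e (nat_lit 410872) (nat_lit 0) .nil) .nil))) 
(.lf (nat_lit 596613) (.g (nat_lit 2513) (.e (nat_lit 573477) (nat_lit 12) (.e (nat_lit 57574) (nat_lit 55) (.e (nat_lit 778466) (nat_lit 11) (.e (nat_lit 24603) (nat_lit 2) (.e (nat_lit 90176) (nat_lit 15) (.e (nat_lit 188439) (nat_lit 20) (.e (nat_lit 3296) (nat_lit 202) .nil))))))) (.g (nat_lit 1) (.e (nat_lit 411790) (nat_lit 0) .nil) .nil)))) (.nd (nat_lit 9) 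
(.lf (nat_lit 596357) (.g (nat_lit 1702) (.e (nat_lit 573470) (nat_lit 11) (.e (nat_lit 16473) (nat_lit 14) (.e (nat_lit 491526) (nat_lit 0) (.e (nat_lit 1698) (nat_lit 117) .nil)))) (.g (nat_lit 0) (.e (nat_lit 411263) (nat_lit 0) .nil) .nil))) 
(.lf (nat_lit 596869) (.g (nat_lit 3826) (.e (nat_lit 573481) (nat_lit 13) (.e (nat_lit 65604) (nat_lit 9) (.e (nat_lit 336013) (nat_lit 2) (.e (nat_lit 90131) (nat_lit 9) .nil)))) (.g (nat_lit 0) (.e (nat_lit 412286) (nat_lit 0) .nil) .nil)))))) (.nd (nat_lit 7) (.nd (nat_lit 8) (.nd (nat_lit 9) 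
(.lf (nat_lit 596037) (.g (nat_lit 782) (.e (nat_lit 573445) (nat_lit 0) (.e (nat_lit 3012) (nat_lit 187) (.e (nat_lit 450605) (nat_lit 27) (.e (nat_lit 745475) (nat_lit 0) (.e (nat_lit 1589) (nat_lit 111) (.e (nat_lit 368384) (nat_lit 10) .nil)))))) (.g (nat_lit 1) (.e (nat_lit 410624) (nat_lit 0) .nil) .nil))) 
(.lf (nat_lit 596549) (.g (nat_lit 1903) (.e (nat_lit 573475) (nat_lit 12) (.e (nat_lit 57574) (nat_lit 55) (.e (nat_lit 778466) (nat_lit 11) (.e (nat_lit 24584) (nat_lit 0) (.e (nat_lit 7936) (nat_lit 119) .nil))))) (.g (nat_lit 0) (.e (nat_lit 411667) (nat_lit 0) .nil) .nil)))) (.nd (nat_lit 9) 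
(.lf (nat_lit 596293) (.g (nat_lit 2363) (.e (nat_lit 573469) (nat_lit 11) (.e (nat_lit 16470) (nat_lit 14) (.e (nat_lit 491536) (nat_lit 2) (.e (nat_lit 90170) (nat_lit 13) .nil)))) (.g (nat_lit 0) (.e (nat_lit 411166) (nat_lit 0) .nil) .nil))) 
(.lf (nat_lit 596805) (.g (nat_lit 3972) (.e (nat_lit 573480) (nat_lit 13) (.e (nat_lit 65610) (nat_lit 10) (.e (nat_lit 344117) (nat_lit 21) (.e (nat_lit 516151) (nat_lit 9) (.e (nat_lit 426412) (nat_lit 15) (.e (nat_lit 2056) (nat_lit 142) (.e (nat_lit 704589) (nat_lit 3) (.e (nat_lit 163975) (nat_lit 30) .nil)))))))) (.g (nat_lit 1) (.e (nat_lit 412168) (nat_lit 0) .nil) .nil))))) 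
(.nd (nat_lit 8) (.nd (nat_lit 9) 
(.lf (nat_lit 596165) (.g (nat_lit 3682) (.e (nat_lit 573456) (nat_lit 9) (.e (nat_lit 430) (nat_lit 32) (.e (nat_lit 426009) (nat_lit 0) (.e (nat_lit 7581) (nat_lit 405) (.e (nat_lit 57464) (nat_lit 23) (.e (nat_lit 516151) (nat_lit 9) (.e (nat_lit 426286) (nat_lit 10) (.e (nat_lit 434247) (nat_lit 28) .nil)))))))) (.g (nat_lit 1) (.e (nat_lit 411000) (nat_lit 0) .nil) .nil))) 
(.lf (nat_lit 596677) (.g (nat_lit 2157) (.e (nat_lit 573477) (nat_lit 12) (.e (nat_lit 57750) (nat_lit 201) (.e (nat_lit 2856) (nat_lit 184) (.e (nat_lit 426537) (nat_lit 28) .nil)))) (.g (nat_lit 0) (.e (nat_lit 411874) (nat_lit 0) .nil) .nil)))) (.nd (nat_lit 9) 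
(.lf (nat_lit 596421) (.g (nat_lit 2386) (.e (nat_lit 573471) (nat_lit 11) (.e (nat_lit 16460) (nat_lit 12) (.e (nat_lit 475185) (nat_lit 29) (.e (nat_lit 557098) (nat_lit 13) (.e (nat_lit 172115) (nat_lit 10) .nil))))) (.g (nat_lit 0) (.e (nat_lit 411469) (nat_lit 0) .nil) .nil))) 
(.lf (nat_lit 596933) (.g (nat_lit 3408) (.e (nat_lit 573481) (nat_lit 13) (.e (nat_lit 65604) (nat_lit 9) (.e (nat_lit 336013) (nat_lit 2) (.e (nat_lit 90170) (nat_lit 13) (.e (nat_lit 172061) (nat_lit 1) (.e (nat_lit 164345) (nat_lit 240) (.e (nat_lit 2599) (nat_lit 163) (.e (nat_lit 163976) (nat_lit 30) .nil)))))))) (.g (nat_lit 1) (.e (nat_lit 412376) (nat_lit 0) .nil) .nil))))))) 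
(.nd (nat_lit 6) (.nd (nat_lit 7) (.nd (nat_lit 8) (.nd (nat_lit 9) 
(.lf (nat_lit 596005) (.g (nat_lit 1105) (.e (nat_lit 573443) (nat_lit 0) (.e (nat_lit 3011) (nat_lit 187) (.e (nat_lit 450605) (nat_lit 27) (.e (nat_lit 745475) (nat_lit 0) (.e (nat_lit 1595) (nat_lit 111) (.e (nat_lit 368384) (nat_lit 10) .nil)))))) (.g (nat_lit 1) (.e (nat_lit 410556) (nat_lit 0) .nil) .nil))) 
(.lf (nat_lit 596517) (.g (nat_lit 4319) (.e (nat_lit 573475) (nat_lit 12) (.e (nat_lit 57351) (nat_lit 0) (.e (nat_lit 7265) (nat_lit 384) (.e (nat_lit 57412) (nat_lit 12) (.e (nat_lit 336001) (nat_lit 2) (.e (nat_lit 90170) (nat_lit 13) (.e (nat_lit 172113) (nat_lit 10) (.e (nat_lit 434248) (nat_lit 28) .nil)))))))) (.g (nat_lit 1) (.e (nat_lit 411628) (nat_lit 0) .nil) .nil)))) 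
(.nd (nat_lit 9) 
(.lf (nat_lit 596261) (.g (nat_lit 1579) (.e (nat_lit 573469) (nat_lit 11) (.e (nat_lit 16435) (nat_lit 9) (.e (nat_lit 426131) (nat_lit 3) (.e (nat_lit 204816) (nat_lit 17) .nil)))) (.g (nat_lit 0) (.e (nat_lit 411112) (nat_lit 0) .nil) .nil))) 
(.lf (nat_lit 596773) (.g (nat_lit 1913) (.e (nat_lit 573479) (nat_lit 13) (.e (nat_lit 65619) (nat_lit 10) (.e (nat_lit 344117) (nat_lit 21) (.e (nat_lit 516151) (nat_lit 9) (.e (nat_lit 426142) (nat_lit 4) (.e (nat_lit 229678) (nat_lit 244) (.e (nat_lit 163850) (nat_lit 0) (.e (nat_lit 3306) (nat_lit 202) .nil)))))))) (.g (nat_lit 1) (.e (nat_lit 412107) (nat_lit 0) .nil) .nil))))) 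
(.nd (nat_lit 8) (.nd (nat_lit 9) 
(.lf (nat_lit 596133) (.g (nat_lit 2267) (.e (nat_lit 573451) (nat_lit 9) (.e (nat_lit 1400) (nat_lit 106) (.e (nat_lit 319534) (nat_lit 16) (.e (nat_lit 286767) (nat_lit 27) .nil)))) (.g (nat_lit 0) (.e (nat_lit 410952) (nat_lit 0) .nil) .nil))) 
(.lf (nat_lit 596645) (.g (nat_lit 2899) (.e (nat_lit 573477) (nat_lit 12) (.e (nat_lit 57575) (nat_lit 55) (.e (nat_lit 778465) (nat_lit 11) (.e (nat_lit 24604) (nat_lit 2) (.e (nat_lit 90177) (nat_lit 15) (.e (nat_lit 188434) (nat_lit 20) (.e (nat_lit 3304) (nat_lit 202) .nil))))))) (.g (nat_lit 1) (.e (nat_lit 411837) (nat_lit 0) .nil) .nil)))) (.nd (nat_lit 9) 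
(.lf (nat_lit 596389) (.g (nat_lit 1202) (.e (nat_lit 573471) (nat_lit 11) (.e (nat_lit 16446) (nat_lit 9) (.e (nat_lit 426116) (nat_lit 2) (.e (nat_lit 196628) (nat_lit 9) .nil)))) (.g (nat_lit 0) (.e (nat_lit 411368) (nat_lit 0) .nil) .nil))) 
(.lf (nat_lit 596901) (.g (nat_lit 2518) (.e (nat_lit 573481) (nat_lit 13) (.e (nat_lit 65604) (nat_lit 9) (.e (nat_lit 336013) (nat_lit 2) (.e (nat_lit 90170) (nat_lit 13) (.e (nat_lit 172036) (nat_lit 0) .nil))))) (.g (nat_lit 0) (.e (nat_lit 412333) (nat_lit 0) .nil) .nil)))))) (.nd (nat_lit 7) (.nd (nat_lit 8) (.nd (nat_lit 9) 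
(.lf (nat_lit 596069) (.g (nat_lit 1593) (.e (nat_lit 581376) (nat_lit 6) (.e (nat_lit 188434) (nat_lit 20) (.e (nat_lit 3579) (nat_lit 223) (.e (nat_lit 745476) (nat_lit 0) (.e (nat_lit 1592) (nat_lit 111) .nil))))) (.g (nat_lit 0) (.e (nat_lit 410731) (nat_lit 0) .nil) .nil))) 
(.lf (nat_lit 596581) (.g (nat_lit 1160) (.e (nat_lit 573477) (nat_lit 12) (.e (nat_lit 57574) (nat_lit 55) (.e (nat_lit 778465) (nat_lit 11) (.e (nat_lit 24603) (nat_lit 2) .nil)))) (.g (nat_lit 0) (.e (nat_lit 411753) (nat_lit 0) .nil) .nil)))) (.nd (nat_lit 9) 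
(.lf (nat_lit 596325) (.g (nat_lit 2739) (.e (nat_lit 573470) (nat_lit 11) (.e (nat_lit 16448) (nat_lit 10) (.e (nat_lit 434231) (nat_lit 23) (.e (nat_lit 532569) (nat_lit 16) (.e (nat_lit 401448) (nat_lit 10) .nil))))) (.g (nat_lit 0) (.e (nat_lit 411211) (nat_lit 0) .nil) .nil))) 
(.lf (nat_lit 596837) (.g (nat_lit 1066) (.e (nat_lit 573480) (nat_lit 13) (.e (nat_lit 65630) (nat_lit 14) (.e (nat_lit 401428) (nat_lit 3) (.e (nat_lit 204859) (nat_lit 26) .nil)))) (.g (nat_lit 0) (.e (nat_lit 412200) (nat_lit 0) .nil) .nil))))) (.nd (nat_lit 8) (.nd (nat_lit 9) 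
(.lf (nat_lit 596197) (.g (nat_lit 2453) (.e (nat_lit 573456) (nat_lit 9) (.e (nat_lit 430) (nat_lit 32) (.e (nat_lit 426344) (nat_lit 14) (.e (nat_lit 491539) (nat_lit 3) (.e (nat_lit 98372) (nat_lit 29) (.e (nat_lit 450586) (nat_lit 10) .nil)))))) (.g (nat_lit 1) (.e (nat_lit 411034) (nat_lit 0) .nil) .nil))) 
(.lf (nat_lit 596709) (.g (nat_lit 4338) (.e (nat_lit 573478) (nat_lit 12) (.e (nat_lit 57574) (nat_lit 55) (.e (nat_lit 778465) (nat_lit 11) (.e (nat_lit 24607) (nat_lit 3) (.e (nat_lit 98373) (nat_lit 29) (.e (nat_lit 450587) (nat_lit 10) .nil)))))) (.g (nat_lit 1) (.e (nat_lit 411962) (nat_lit 0) .nil) .nil)))) (.nd (nat_lit 9) 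
(.lf (nat_lit 596453) (.g (nat_lit 1398) (.e (nat_lit 573471) (nat_lit 11) (.e (nat_lit 16473) (nat_lit 14) (.e (nat_lit 491535) (nat_lit 2) (.e (nat_lit 90176) (nat_lit 15) .nil)))) (.g (nat_lit 0) (.e (nat_lit 411505) (nat_lit 0) .nil) .nil))) 
(.lf (nat_lit 596965) (.g (nat_lit 2662) (.e (nat_lit 573481) (nat_lit 13) (.e (nat_lit 65604) (nat_lit 9) (.e (nat_lit 336028) (nat_lit 3) (.e (nat_lit 98358) (nat_lit 26) (.e (nat_lit 426444) (nat_lit 19) (.e (nat_lit 114432) (nat_lit 3) (.e (nat_lit 163976) (nat_lit 30) .nil))))))) (.g (nat_lit 1) (.e (nat_lit 412445) (nat_lit 0) .nil) .nil)))))))) 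
(.nd (nat_lit 5) (.nd (nat_lit 6) (.nd (nat_lit 7) (.nd (nat_lit 8) (.nd (nat_lit 9) 
(.lf (nat_lit 595989) (.g (nat_lit 420) (.e (nat_lit 548889) (nat_lit 9) (.e (nat_lit 65623) (nat_lit 12) (.e (nat_lit 385074) (nat_lit 31) .nil))) (.g (nat_lit 0) (.e (nat_lit 410500) (nat_lit 0) .nil) .nil))) 
(.lf (nat_lit 596501) (.g (nat_lit 2439) (.e (nat_lit 573474) (nat_lit 12) (.e (nat_lit 57572) (nat_lit 54) (.e (nat_lit 770072) (nat_lit 8) (.e (nat_lit 65571) (nat_lit 3) (.e (nat_lit 98356) (nat_lit 26) .nil))))) (.g (nat_lit 0) (.e (nat_lit 411579) (nat_lit 0) .nil) .nil)))) (.nd (nat_lit 9) 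
(.lf (nat_lit 596245) (.g (nat_lit 2295) (.e (nat_lit 573460) (nat_lit 9) (.e (nat_lit 392) (nat_lit 32) (.e (nat_lit 426316) (nat_lit 12) (.e (nat_lit 475185) (nat_lit 29) (.e (nat_lit 557101) (nat_lit 13) .nil))))) (.g (nat_lit 0) (.e (nat_lit 411091) (nat_lit 0) .nil) .nil))) 
(.lf (nat_lit 596757) (.g (nat_lit 1242) (.e (nat_lit 573479) (nat_lit 13) (.e (nat_lit 65619) (nat_lit 10) (.e (nat_lit 344117) (nat_lit 21) (.e (nat_lit 516145) (nat_lit 9) .nil)))) (.g (nat_lit 0) (.e (nat_lit 412091) (nat_lit 0) .nil) .nil))))) (.nd (nat_lit 8) (.nd (nat_lit 9) 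
(.lf (nat_lit 596117) (.g (nat_lit 4299) (.e (nat_lit 573451) (nat_lit 9) (.e (nat_lit 430) (nat_lit 32) (.e (nat_lit 426012) (nat_lit 0) (.e (nat_lit 7581) (nat_lit 405) (.e (nat_lit 57464) (nat_lit 23) (.e (nat_lit 516151) (nat_lit 9) (.e (nat_lit 426286) (nat_lit 10) (.e (nat_lit 434245) (nat_lit 28) .nil)))))))) (.g (nat_lit 1) (.e (nat_lit 410936) (nat_lit 0) .nil) .nil))) 
(.lf (nat_lit 596629) (.g (nat_lit 4603) (.e (nat_lit 573477) (nat_lit 12) (.e (nat_lit 57574) (nat_lit 55) (.e (nat_lit 778466) (nat_lit 11) (.e (nat_lit 24607) (nat_lit 3) (.e (nat_lit 98373) (nat_lit 29) (.e (nat_lit 450587) (nat_lit 10) .nil)))))) (.g (nat_lit 1) (.e (nat_lit 411818) (nat_lit 0) .nil) .nil)))) (.nd (nat_lit 9) 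
(.lf (nat_lit 596373) (.g (nat_lit 1104) (.e (nat_lit 573471) (nat_lit 11) (.e (nat_lit 16425) (nat_lit 7) (.e (nat_lit 409600) (nat_lit 0) .nil))) (.g (nat_lit 0) (.e (nat_lit 411289) (nat_lit 0) .nil) .nil))) 
(.lf (nat_lit 596885) (.g (nat_lit 1050) (.e (nat_lit 573481) (nat_lit 13) (.e (nat_lit 65604) (nat_lit 9) (.e (nat_lit 336013) (nat_lit 2) (.e (nat_lit 90165) (nat_lit 12) .nil)))) (.g (nat_lit 0) (.e (nat_lit 412305) (nat_lit 0) .nil) .nil)))))) (.nd (nat_lit 7) (.nd (nat_lit 8) (.nd (nat_lit 9) 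
(.lf (nat_lit 596053) (.g (nat_lit 744) (.e (nat_lit 573445) (nat_lit 0) (.e (nat_lit 3026) (nat_lit 187) (.e (nat_lit 450605) (nat_lit 27) (.e (nat_lit 745475) (nat_lit 0) (.e (nat_lit 1592) (nat_lit 111) (.e (nat_lit 368384) (nat_lit 10) .nil)))))) (.g (nat_lit 1) (.e (nat_lit 410642) (nat_lit 0) .nil) .nil))) 
(.lf (nat_lit 596565) (.g (nat_lit 1650) (.e (nat_lit 573476) (nat_lit 12) (.e (nat_lit 57575) (nat_lit 55) (.e (nat_lit 778466) (nat_lit 11) (.e (nat_lit 24604) (nat_lit 2) .nil)))) (.g (nat_lit 0) (.e (nat_lit 411734) (nat_lit 0) .nil) .nil)))) (.nd (nat_lit 9) 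
(.lf (nat_lit 596309) (.g (nat_lit 915) (.e (nat_lit 573469) (nat_lit 11) (.e (nat_lit 16473) (nat_lit 14) (.e (nat_lit 491538) (nat_lit 3) (.e (nat_lit 98359) (nat_lit 26) .nil)))) (.g (nat_lit 0) (.e (nat_lit 411183) (nat_lit 0) .nil) .nil))) 
(.lf (nat_lit 596821) (.g (nat_lit 2246) (.e (nat_lit 573480) (nat_lit 13) (.e (nat_lit 65630) (nat_lit 14) (.e (nat_lit 401425) (nat_lit 2) (.e (nat_lit 196672) (nat_lit 15) (.e (nat_lit 81924) (nat_lit 0) (.e (nat_lit 3305) (nat_lit 202) .nil)))))) (.g (nat_lit 1) (.e (nat_lit 412184) (nat_lit 0) .nil) .nil))))) (.nd (nat_lit 8) (.nd (nat_lit 9) 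
(.lf (nat_lit 596181) (.g (nat_lit 3703) (.e (nat_lit 573456) (nat_lit 9) (.e (nat_lit 430) (nat_lit 32) (.e (nat_lit 426012) (nat_lit 0) (.e (nat_lit 7583) (nat_lit 405) (.e (nat_lit 57464) (nat_lit 23) (.e (nat_lit 516151) (nat_lit 9) (.e (nat_lit 426286) (nat_lit 10) (.e (nat_lit 434247) (nat_lit 28) .nil)))))))) (.g (nat_lit 1) (.e (nat_lit 411016) (nat_lit 0) .nil) .nil))) 
(.lf (nat_lit 596693) (.g (nat_lit 1521) (.e (nat_lit 573478) (nat_lit 12) (.e (nat_lit 57574) (nat_lit 55) (.e (nat_lit 778361) (nat_lit 9) (.e (nat_lit 307) (nat_lit 22) (.e (nat_lit 344107) (nat_lit 19) .nil))))) (.g (nat_lit 0) (.e (nat_lit 411940) (nat_lit 0) .nil) .nil)))) (.nd (nat_lit 9) 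
(.lf (nat_lit 596437) (.g (nat_lit 2300) (.e (nat_lit 573471) (nat_lit 11) (.e (nat_lit 16470) (nat_lit 14) (.e (nat_lit 491540) (nat_lit 3) (.e (nat_lit 98358) (nat_lit 26) (.e (nat_lit 426294) (nat_lit 11) .nil))))) (.g (nat_lit 0) (.e (nat_lit 411487) (nat_lit 0) .nil) .nil))) 
(.lf (nat_lit 596949) (.g (nat_lit 2872) (.e (nat_lit 573481) (nat_lit 13) (.e (nat_lit 65604) (nat_lit 9) (.e (nat_lit 336013) (nat_lit 2) (.e (nat_lit 90170) (nat_lit 13) (.e (nat_lit 172137) (nat_lit 15) (.e (nat_lit 2057) (nat_lit 142) (.e (nat_lit 704589) (nat_lit 3) (.e (nat_lit 163976) (nat_lit 30) .nil)))))))) (.g (nat_lit 1) (.e (nat_lit 412404) (nat_lit 0) .nil) .nil))))))) 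
(.nd (nat_lit 6) (.nd (nat_lit 7) (.nd (nat_lit 8) (.nd (nat_lit 9) 
(.lf (nat_lit 596021) (.g (nat_lit 632) (.e (nat_lit 573444) (nat_lit 0) (.e (nat_lit 3026) (nat_lit 187) (.e (nat_lit 450605) (nat_lit 27) (.e (nat_lit 745475) (nat_lit 0) (.e (nat_lit 1599) (nat_lit 111) .nil))))) (.g (nat_lit 0) (.e (nat_lit 410589) (nat_lit 0) .nil) .nil))) 
(.lf (nat_lit 596533) (.g (nat_lit 3522) (.e (nat_lit 573475) (nat_lit 12) (.e (nat_lit 57572) (nat_lit 54) (.e (nat_lit 770072) (nat_lit 8) (.e (nat_lit 65571) (nat_lit 3) (.e (nat_lit 98381) (nat_lit 31) (.e (nat_lit 466967) (nat_lit 20) (.e (nat_lit 3304) (nat_lit 202) .nil))))))) (.g (nat_lit 1) (.e (nat_lit 411646) (nat_lit 0) .nil) .nil)))) (.nd (nat_lit 9) 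
(.lf (nat_lit 596277) (.g (nat_lit 2404) (.e (nat_lit 573469) (nat_lit 11) (.e (nat_lit 16459) (nat_lit 12) (.e (nat_lit 475184) (nat_lit 29) (.e (nat_lit 557100) (nat_lit 13) (.e (nat_lit 172113) (nat_lit 10) .nil))))) (.g (nat_lit 0) (.e (nat_lit 411149) (nat_lit 0) .nil) .nil))) 
(.lf (nat_lit 596789) (.g (nat_lit 649) (.e (nat_lit 573479) (nat_lit 13) (.e (nat_lit 65628) (nat_lit 14) (.e (nat_lit 401428) (nat_lit 3) .nil))) (.g (nat_lit 0) (.e (nat_lit 412123) (nat_lit 0) .nil) .nil))))) (.nd (nat_lit 8) (.nd (nat_lit 9) 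
(.lf (nat_lit 596149) (.g (nat_lit 2252) (.e (nat_lit 573452) (nat_lit 9) (.e (nat_lit 1667) (nat_lit 116) (.e (nat_lit 401459) (nat_lit 13) (.e (nat_lit 483344) (nat_lit 17) (.e (nat_lit 2273) (nat_lit 149) .nil))))) (.g (nat_lit 0) (.e (nat_lit 410980) (nat_lit 0) .nil) .nil))) 
(.lf (nat_lit 596661) (.g (nat_lit 2022) (.e (nat_lit 573477) (nat_lit 12) (.e (nat_lit 57575) (nat_lit 55) (.e (nat_lit 778466) (nat_lit 11) (.e (nat_lit 24604) (nat_lit 2) (.e (nat_lit 90176) (nat_lit 15) .nil))))) (.g (nat_lit 0) (.e (nat_lit 411854) (nat_lit 0) .nil) .nil)))) (.nd (nat_lit 9) 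
(.lf (nat_lit 596405) (.g (nat_lit 3014) (.e (nat_lit 573471) (nat_lit 11) (.e (nat_lit 16452) (nat_lit 11) (.e (nat_lit 458789) (nat_lit 23) (.e (nat_lit 532482) (nat_lit 0) (.e (nat_lit 6724) (nat_lit 362) (.e (nat_lit 180250) (nat_lit 10) .nil)))))) (.g (nat_lit 1) (.e (nat_lit 411440) (nat_lit 0) .nil) .nil))) 
(.lf (nat_lit 596917) (.g (nat_lit 3112) (.e (nat_lit 573481) (nat_lit 13) (.e (nat_lit 65604) (nat_lit 9) (.e (nat_lit 336013) (nat_lit 2) (.e (nat_lit 90170) (nat_lit 13) (.e (nat_lit 172046) (nat_lit 0) (.e (nat_lit 3407) (nat_lit 212) (.e (nat_lit 655375) (nat_lit 3) (.e (nat_lit 163979) (nat_lit 30) .nil)))))))) (.g (nat_lit 1) (.e (nat_lit 412354) (nat_lit 0) .nil) .nil)))))) 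
(.nd (nat_lit 7) (.nd (nat_lit 8) (.nd (nat_lit 9) 
(.lf (nat_lit 596085) (.g (nat_lit 2680) (.e (nat_lit 573449) (nat_lit 9) (.e (nat_lit 1669) (nat_lit 116) (.e (nat_lit 401459) (nat_lit 13) (.e (nat_lit 483363) (nat_lit 18) (.e (nat_lit 57655) (nat_lit 152) .nil))))) (.g (nat_lit 0) (.e (nat_lit 410840) (nat_lit 0) .nil) .nil))) 
(.lf (nat_lit 596597) (.g (nat_lit 3565) (.e (nat_lit 573477) (nat_lit 12) (.e (nat_lit 57574) (nat_lit 55) (.e (nat_lit 778465) (nat_lit 11) (.e (nat_lit 24608) (nat_lit 3) (.e (nat_lit 98372) (nat_lit 29) (.e (nat_lit 450586) (nat_lit 10) .nil)))))) (.g (nat_lit 1) (.e (nat_lit 411770) (nat_lit 0) .nil) .nil)))) (.nd (nat_lit 9) 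
(.lf (nat_lit 596341) (.g (nat_lit 2002) (.e (nat_lit 573470) (nat_lit 11) (.e (nat_lit 16469) (nat_lit 14) (.e (nat_lit 491540) (nat_lit 3) (.e (nat_lit 98372) (nat_lit 29) (.e (nat_lit 450586) (nat_lit 10) .nil))))) (.g (nat_lit 0) (.e (nat_lit 411245) (nat_lit 0) .nil) .nil))) 
(.lf (nat_lit 596853) (.g (nat_lit 2301) (.e (nat_lit 573481) (nat_lit 13) (.e (nat_lit 65563) (nat_lit 1) (.e (nat_lit 57931) (nat_lit 282) (.e (nat_lit 163943) (nat_lit 19) (.e (nat_lit 483343) (nat_lit 17) .nil))))) (.g (nat_lit 0) (.e (nat_lit 412232) (nat_lit 0) .nil) .nil))))) (.nd (nat_lit 8) (.nd (nat_lit 9) 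
(.lf (nat_lit 596213) (.g (nat_lit 2591) (.e (nat_lit 573456) (nat_lit 9) (.e (nat_lit 1669) (nat_lit 116) (.e (nat_lit 401459) (nat_lit 13) (.e (nat_lit 483363) (nat_lit 18) (.e (nat_lit 57656) (nat_lit 152) .nil))))) (.g (nat_lit 0) (.e (nat_lit 411050) (nat_lit 0) .nil) .nil))) 
(.lf (nat_lit 596725) (.g (nat_lit 1034) (.e (nat_lit 573478) (nat_lit 12) (.e (nat_lit 57574) (nat_lit 55) (.e (nat_lit 778466) (nat_lit 11) (.e (nat_lit 24604) (nat_lit 2) .nil)))) (.g (nat_lit 0) (.e (nat_lit 411983) (nat_lit 0) .nil) .nil)))) (.nd (nat_lit 9) 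
(.lf (nat_lit 596469) (.g (nat_lit 2358) (.e (nat_lit 573472) (nat_lit 12) (.e (nat_lit 57575) (nat_lit 55) (.e (nat_lit 778465) (nat_lit 11) (.e (nat_lit 24604) (nat_lit 2) (.e (nat_lit 90178) (nat_lit 15) .nil))))) (.g (nat_lit 0) (.e (nat_lit 411523) (nat_lit 0) .nil) .nil))) 
(.lf (nat_lit 596981) (.g (nat_lit 2336) (.e (nat_lit 573481) (nat_lit 13) (.e (nat_lit 65604) (nat_lit 9) (.e (nat_lit 336028) (nat_lit 3) (.e (nat_lit 98363) (nat_lit 26) (.e (nat_lit 426391) (nat_lit 15) .nil))))) (.g (nat_lit 0) (.e (nat_lit 412487) (nat_lit 0) .nil) .nil))))))))) (.nd (nat_lit 4) (.nd (nat_lit 5) (.nd (nat_lit 6) (.nd (nat_lit 7) (.nd (nat_lit 8) (.nd (nat_lit 9) 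
(.lf (nat_lit 595981) (.g (nat_lit 954) (.e (nat_lit 548914) (nat_lit 19) (.e (nat_lit 180278) (nat_lit 32) (.e (nat_lit 1253) (nat_lit 92) (.e (nat_lit 98381) (nat_lit 31) (.e (nat_lit 466967) (nat_lit 20) .nil))))) (.g (nat_lit 0) (.e (nat_lit 410353) (nat_lit 0) .nil) .nil))) 
(.lf (nat_lit 596493) (.g (nat_lit 4364) (.e (nat_lit 573474) (nat_lit 12) (.e (nat_lit 57503) (nat_lit 38) (.e (nat_lit 638996) (nat_lit 7) (.e (nat_lit 163979) (nat_lit 30) (.e (nat_lit 573487) (nat_lit 14) (.e (nat_lit 73753) (nat_lit 8) (.e (nat_lit 557103) (nat_lit 14) (.e (nat_lit 180250) (nat_lit 10) .nil)))))))) (.g (nat_lit 1) (.e (nat_lit 411563) (nat_lit 0) .nil) .nil)))) 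
(.nd (nat_lit 9) 
(.lf (nat_lit 596237) (.g (nat_lit 4286) (.e (nat_lit 573458) (nat_lit 9) (.e (nat_lit 394) (nat_lit 32) (.e (nat_lit 426316) (nat_lit 12) (.e (nat_lit 475185) (nat_lit 29) (.e (nat_lit 557100) (nat_lit 13) (.e (nat_lit 172106) (nat_lit 10) (.e (nat_lit 434244) (nat_lit 28) .nil))))))) (.g (nat_lit 1) (.e (nat_lit 411079) (nat_lit 0) .nil) .nil))) 
(.lf (nat_lit 596749) (.g (nat_lit 198) (.e (nat_lit 573479) (nat_lit 13) (.e (nat_lit 65619) (nat_lit 10) (.e (nat_lit 344117) (nat_lit 21) .nil))) (.g (nat_lit 0) (.e (nat_lit 412083) (nat_lit 0) .nil) .nil))))) (.nd (nat_lit 8) (.nd (nat_lit 9) 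
(.lf (nat_lit 596109) (.g (nat_lit 1456) (.e (nat_lit 573451) (nat_lit 9) (.e (nat_lit 396) (nat_lit 32) (.e (nat_lit 426343) (nat_lit 14) (.e (nat_lit 491526) (nat_lit 0) .nil)))) (.g (nat_lit 0) (.e (nat_lit 410928) (nat_lit 0) .nil) .nil))) 
(.lf (nat_lit 596621) (.g (nat_lit 3842) (.e (nat_lit 573477) (nat_lit 12) (.e (nat_lit 57574) (nat_lit 55) (.e (nat_lit 778466) (nat_lit 11) (.e (nat_lit 24604) (nat_lit 2) (.e (nat_lit 90176) (nat_lit 15) (.e (nat_lit 188439) (nat_lit 20) (.e (nat_lit 3306) (nat_lit 202) .nil))))))) (.g (nat_lit 1) (.e (nat_lit 411808) (nat_lit 0) .nil) .nil)))) (.nd (nat_lit 9) 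
(.lf (nat_lit 596365) (.g (nat_lit 573) (.e (nat_lit 573470) (nat_lit 11) (.e (nat_lit 16473) (nat_lit 14) (.e (nat_lit 499456) (nat_lit 3) .nil))) (.g (nat_lit 0) (.e (nat_lit 411273) (nat_lit 0) .nil) .nil))) 
(.lf (nat_lit 596877) (.g (nat_lit 2251) (.e (nat_lit 573481) (nat_lit 13) (.e (nat_lit 65604) (nat_lit 9) (.e (nat_lit 336013) (nat_lit 2) (.e (nat_lit 90134) (nat_lit 9) (.e (nat_lit 3096) (nat_lit 192) (.e (nat_lit 491550) (nat_lit 9) (.e (nat_lit 336306) (nat_lit 15) (.e (nat_lit 3298) (nat_lit 202) .nil)))))))) (.g (nat_lit 1) (.e (nat_lit 412297) (nat_lit 0) .nil) .nil)))))) 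
(.nd (nat_lit 7) (.nd (nat_lit 8) (.nd (nat_lit 9) 
(.lf (nat_lit 596045) (.g (nat_lit 741) (.e (nat_lit 573445) (nat_lit 0) (.e (nat_lit 3012) (nat_lit 187) (.e (nat_lit 450605) (nat_lit 27) (.e (nat_lit 745476) (nat_lit 0) (.e (nat_lit 1599) (nat_lit 111) (.e (nat_lit 368384) (nat_lit 10) .nil)))))) (.g (nat_lit 1) (.e (nat_lit 410632) (nat_lit 0) .nil) .nil))) 
(.lf (nat_lit 596557) (.g (nat_lit 3253) (.e (nat_lit 573475) (nat_lit 12) (.e (nat_lit 57574) (nat_lit 55) (.e (nat_lit 778466) (nat_lit 11) (.e (nat_lit 24608) (nat_lit 3) (.e (nat_lit 98362) (nat_lit 26) .nil))))) (.g (nat_lit 0) (.e (nat_lit 411682) (nat_lit 0) .nil) .nil)))) (.nd (nat_lit 9) 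
(.lf (nat_lit 596301) (.g (nat_lit 1206) (.e (nat_lit 573469) (nat_lit 11) (.e (nat_lit 16471) (nat_lit 14) (.e (nat_lit 491540) (nat_lit 3) (.e (nat_lit 98372) (nat_lit 29) .nil)))) (.g (nat_lit 0) (.e (nat_lit 411174) (nat_lit 0) .nil) .nil))) 
(.lf (nat_lit 596813) (.g (nat_lit 4558) (.e (nat_lit 573480) (nat_lit 13) (.e (nat_lit 65610) (nat_lit 10) (.e (nat_lit 344117) (nat_lit 21) (.e (nat_lit 516179) (nat_lit 15) (.e (nat_lit 475199) (nat_lit 40) (.e (nat_lit 704589) (nat_lit 3) (.e (nat_lit 163976) (nat_lit 30) .nil))))))) (.g (nat_lit 1) (.e (nat_lit 412176) (nat_lit 0) .nil) .nil))))) (.nd (nat_lit 8) (.nd (nat_lit 9) 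
(.lf (nat_lit 596173) (.g (nat_lit 4118) (.e (nat_lit 573456) (nat_lit 9) (.e (nat_lit 430) (nat_lit 32) (.e (nat_lit 426011) (nat_lit 0) (.e (nat_lit 7583) (nat_lit 405) (.e (nat_lit 57464) (nat_lit 23) (.e (nat_lit 516151) (nat_lit 9) (.e (nat_lit 426286) (nat_lit 10) (.e (nat_lit 434247) (nat_lit 28) .nil)))))))) (.g (nat_lit 1) (.e (nat_lit 411008) (nat_lit 0) .nil) .nil))) 
(.lf (nat_lit 596685) (.g (nat_lit 2207) (.e (nat_lit 573477) (nat_lit 12) (.e (nat_lit 57750) (nat_lit 201) (.e (nat_lit 3090) (nat_lit 191) (.e (nat_lit 483364) (nat_lit 18) (.e (nat_lit 57664) (nat_lit 152) .nil))))) (.g (nat_lit 0) (.e (nat_lit 411906) (nat_lit 0) .nil) .nil)))) (.nd (nat_lit 9) 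
(.lf (nat_lit 596429) (.g (nat_lit 1343) (.e (nat_lit 573471) (nat_lit 11) (.e (nat_lit 16470) (nat_lit 14) (.e (nat_lit 491536) (nat_lit 2) (.e (nat_lit 90178) (nat_lit 15) .nil)))) (.g (nat_lit 0) (.e (nat_lit 411478) (nat_lit 0) .nil) .nil))) 
(.lf (nat_lit 596941) (.g (nat_lit 2282) (.e (nat_lit 573481) (nat_lit 13) (.e (nat_lit 65604) (nat_lit 9) (.e (nat_lit 336013) (nat_lit 2) (.e (nat_lit 90170) (nat_lit 13) (.e (nat_lit 172069) (nat_lit 4) .nil))))) (.g (nat_lit 0) (.e (nat_lit 412391) (nat_lit 0) .nil) .nil))))))) (.nd (nat_lit 6) (.nd (nat_lit 7) (.nd (nat_lit 8) (.nd (nat_lit 9) 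
(.lf (nat_lit 596013) (.g (nat_lit 995) (.e (nat_lit 573444) (nat_lit 0) (.e (nat_lit 3011) (nat_lit 187) (.e (nat_lit 450605) (nat_lit 27) (.e (nat_lit 745476) (nat_lit 0) (.e (nat_lit 1592) (nat_lit 111) (.e (nat_lit 368384) (nat_lit 10) .nil)))))) (.g (nat_lit 1) (.e (nat_lit 410580) (nat_lit 0) .nil) .nil))) 
(.lf (nat_lit 596525) (.g (nat_lit 3884) (.e (nat_lit 573475) (nat_lit 12) (.e (nat_lit 57504) (nat_lit 38) (.e (nat_lit 638995) (nat_lit 7) (.e (nat_lit 163978) (nat_lit 30) (.e (nat_lit 573489) (nat_lit 14) (.e (nat_lit 73754) (nat_lit 8) (.e (nat_lit 557105) (nat_lit 14) (.e (nat_lit 180252) (nat_lit 10) .nil)))))))) (.g (nat_lit 1) (.e (nat_lit 411637) (nat_lit 0) .nil) .nil)))) 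
(.nd (nat_lit 9) 
(.lf (nat_lit 596269) (.g (nat_lit 2132) (.e (nat_lit 573469) (nat_lit 11) (.e (nat_lit 16446) (nat_lit 9) (.e (nat_lit 426124) (nat_lit 2) (.e (nat_lit 196677) (nat_lit 16) (.e (nat_lit 130816) (nat_lit 206) .nil))))) (.g (nat_lit 0) (.e (nat_lit 411125) (nat_lit 0) .nil) .nil))) 
(.lf (nat_lit 596781) (.g (nat_lit 2518) (.e (nat_lit 573479) (nat_lit 13) (.e (nat_lit 65619) (nat_lit 10) (.e (nat_lit 344117) (nat_lit 21) (.e (nat_lit 516160) (nat_lit 10) (.e (nat_lit 434211) (nat_lit 18) .nil))))) (.g (nat_lit 0) (.e (nat_lit 412115) (nat_lit 0) .nil) .nil))))) (.nd (nat_lit 8) (.nd (nat_lit 9) 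
(.lf (nat_lit 596141) (.g (nat_lit 942) (.e (nat_lit 573452) (nat_lit 9) (.e (nat_lit 430) (nat_lit 32) (.e (nat_lit 426166) (nat_lit 7) (.e (nat_lit 409616) (nat_lit 10) (.e (nat_lit 7936) (nat_lit 43) .nil))))) (.g (nat_lit 0) (.e (nat_lit 410964) (nat_lit 0) .nil) .nil))) 
(.lf (nat_lit 596653) (.g (nat_lit 2418) (.e (nat_lit 573477) (nat_lit 12) (.e (nat_lit 57575) (nat_lit 55) (.e (nat_lit 778466) (nat_lit 11) (.e (nat_lit 24577) (nat_lit 0) (.e (nat_lit 1812) (nat_lit 120) .nil))))) (.g (nat_lit 0) (.e (nat_lit 411845) (nat_lit 0) .nil) .nil)))) (.nd (nat_lit 9) 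
(.lf (nat_lit 596397) (.g (nat_lit 732) (.e (nat_lit 573471) (nat_lit 11) (.e (nat_lit 16447) (nat_lit 10) (.e (nat_lit 434233) (nat_lit 23) (.e (nat_lit 532569) (nat_lit 16) .nil)))) (.g (nat_lit 0) (.e (nat_lit 411381) (nat_lit 0) .nil) .nil))) 
(.lf (nat_lit 596909) (.g (nat_lit 2264) (.e (nat_lit 573481) (nat_lit 13) (.e (nat_lit 65604) (nat_lit 9) (.e (nat_lit 336013) (nat_lit 2) (.e (nat_lit 90170) (nat_lit 13) (.e (nat_lit 172042) (nat_lit 0) (.e (nat_lit 3407) (nat_lit 212) (.e (nat_lit 655373) (nat_lit 3) (.e (nat_lit 163975) (nat_lit 30) .nil)))))))) (.g (nat_lit 1) (.e (nat_lit 412343) (nat_lit 0) .nil) .nil)))))) 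
(.nd (nat_lit 7) (.nd (nat_lit 8) (.nd (nat_lit 9) 
(.lf (nat_lit 596077) (.g (nat_lit 1910) (.e (nat_lit 573449) (nat_lit 9) (.e (nat_lit 372) (nat_lit 32) (.e (nat_lit 426320) (nat_lit 12) (.e (nat_lit 475185) (nat_lit 29) (.e (nat_lit 557098) (nat_lit 13) .nil))))) (.g (nat_lit 0) (.e (nat_lit 410798) (nat_lit 0) .nil) .nil))) 
(.lf (nat_lit 596589) (.g (nat_lit 2618) (.e (nat_lit 573477) (nat_lit 12) (.e (nat_lit 57574) (nat_lit 55) (.e (nat_lit 778465) (nat_lit 11) (.e (nat_lit 24604) (nat_lit 2) (.e (nat_lit 90176) (nat_lit 15) (.e (nat_lit 188439) (nat_lit 20) (.e (nat_lit 3306) (nat_lit 202) .nil))))))) (.g (nat_lit 1) (.e (nat_lit 411761) (nat_lit 0) .nil) .nil)))) (.nd (nat_lit 9) 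
(.lf (nat_lit 596333) (.g (nat_lit 2832) (.e (nat_lit 573470) (nat_lit 11) (.e (nat_lit 16459) (nat_lit 12) (.e (nat_lit 475185) (nat_lit 29) (.e (nat_lit 557107) (nat_lit 15) (.e (nat_lit 188440) (nat_lit 20) (.e (nat_lit 3307) (nat_lit 202) .nil)))))) (.g (nat_lit 1) (.e (nat_lit 411236) (nat_lit 0) .nil) .nil))) 
(.lf (nat_lit 596845) (.g (nat_lit 1743) (.e (nat_lit 573480) (nat_lit 13) (.e (nat_lit 65630) (nat_lit 14) (.e (nat_lit 401428) (nat_lit 3) (.e (nat_lit 204877) (nat_lit 31) (.e (nat_lit 376835) (nat_lit 0) (.e (nat_lit 7936) (nat_lit 202) .nil)))))) (.g (nat_lit 1) (.e (nat_lit 412208) (nat_lit 0) .nil) .nil))))) (.nd (nat_lit 8) (.nd (nat_lit 9) 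
(.lf (nat_lit 596205) (.g (nat_lit 2825) (.e (nat_lit 573456) (nat_lit 9) (.e (nat_lit 1669) (nat_lit 116) (.e (nat_lit 401458) (nat_lit 13) (.e (nat_lit 483363) (nat_lit 18) (.e (nat_lit 57691) (nat_lit 156) .nil))))) (.g (nat_lit 0) (.e (nat_lit 411042) (nat_lit 0) .nil) .nil))) 
(.lf (nat_lit 596717) (.g (nat_lit 1411) (.e (nat_lit 573478) (nat_lit 12) (.e (nat_lit 57574) (nat_lit 55) (.e (nat_lit 778466) (nat_lit 11) (.e (nat_lit 24585) (nat_lit 0) .nil)))) (.g (nat_lit 0) (.e (nat_lit 411973) (nat_lit 0) .nil) .nil)))) (.nd (nat_lit 9) 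
(.lf (nat_lit 596461) (.g (nat_lit 1196) (.e (nat_lit 573471) (nat_lit 11) (.e (nat_lit 16473) (nat_lit 14) (.e (nat_lit 491576) (nat_lit 15) .nil))) (.g (nat_lit 0) (.e (nat_lit 411515) (nat_lit 0) .nil) .nil))) 
(.lf (nat_lit 596973) (.g (nat_lit 2618) (.e (nat_lit 573481) (nat_lit 13) (.e (nat_lit 65604) (nat_lit 9) (.e (nat_lit 336028) (nat_lit 3) (.e (nat_lit 98359) (nat_lit 26) (.e (nat_lit 426414) (nat_lit 15) (.e (nat_lit 2058) (nat_lit 142) (.e (nat_lit 704589) (nat_lit 3) (.e (nat_lit 163975) (nat_lit 30) .nil)))))))) (.g (nat_lit 1) (.e (nat_lit 412478) (nat_lit 0) .nil) .nil)))))))) 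
(.nd (nat_lit 5) (.nd (nat_lit 6) (.nd (nat_lit 7) (.nd (nat_lit 8) (.nd (nat_lit 9) 
(.lf (nat_lit 595997) (.g (nat_lit 1907) (.e (nat_lit 548890) (nat_lit 10) (.e (nat_lit 73781) (nat_lit 32) (.e (nat_lit 2682) (nat_lit 168) (.e (nat_lit 204869) (nat_lit 29) (.e (nat_lit 368384) (nat_lit 7) .nil))))) (.g (nat_lit 1) (.e (nat_lit 410517) (nat_lit 0) .nil) .nil))) 
(.lf (nat_lit 596509) (.g (nat_lit 461) (.e (nat_lit 573474) (nat_lit 12) (.e (nat_lit 57574) (nat_lit 55) (.e (nat_lit 778466) (nat_lit 11) .nil))) (.g (nat_lit 0) (.e (nat_lit 411590) (nat_lit 0) .nil) .nil)))) (.nd (nat_lit 9) 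
(.lf (nat_lit 596253) (.g (nat_lit 974) (.e (nat_lit 573469) (nat_lit 11) (.e (nat_lit 16388) (nat_lit 0) (.e (nat_lit 7490) (nat_lit 402) (.e (nat_lit 1249) (nat_lit 92) .nil)))) (.g (nat_lit 0) (.e (nat_lit 411101) (nat_lit 0) .nil) .nil))) 
(.lf (nat_lit 596765) (.g (nat_lit 3784) (.e (nat_lit 573479) (nat_lit 13) (.e (nat_lit 65619) (nat_lit 10) (.e (nat_lit 344117) (nat_lit 21) (.e (nat_lit 516151) (nat_lit 9) (.e (nat_lit 426040) (nat_lit 0) .nil))))) (.g (nat_lit 0) (.e (nat_lit 412099) (nat_lit 0) .nil) .nil))))) (.nd (nat_lit 8) (.nd (nat_lit 9) 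
(.lf (nat_lit 596125) (.g (nat_lit 2554) (.e (nat_lit 573451) (nat_lit 9) (.e (nat_lit 498) (nat_lit 40) (.e (nat_lit 491563) (nat_lit 12) (.e (nat_lit 385066) (nat_lit 26) (.e (nat_lit 532513) (nat_lit 3) .nil))))) (.g (nat_lit 0) (.e (nat_lit 410944) (nat_lit 0) .nil) .nil))) 
(.lf (nat_lit 596637) (.g (nat_lit 422) (.e (nat_lit 573477) (nat_lit 12) (.e (nat_lit 57575) (nat_lit 55) (.e (nat_lit 778464) (nat_lit 11) .nil))) (.g (nat_lit 0) (.e (nat_lit 411828) (nat_lit 0) .nil) .nil)))) (.nd (nat_lit 9) 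
(.lf (nat_lit 596381) (.g (nat_lit 471) (.e (nat_lit 573471) (nat_lit 11) (.e (nat_lit 16425) (nat_lit 7) (.e (nat_lit 417536) (nat_lit 10) .nil))) (.g (nat_lit 0) (.e (nat_lit 411308) (nat_lit 0) .nil) .nil))) 
(.lf (nat_lit 596893) (.g (nat_lit 957) (.e (nat_lit 573481) (nat_lit 13) (.e (nat_lit 65604) (nat_lit 9) (.e (nat_lit 336013) (nat_lit 2) (.e (nat_lit 90170) (nat_lit 13) .nil)))) (.g (nat_lit 0) (.e (nat_lit 412324) (nat_lit 0) .nil) .nil)))))) (.nd (nat_lit 7) (.nd (nat_lit 8) (.nd (nat_lit 9) 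
(.lf (nat_lit 596061) (.g (nat_lit 500) (.e (nat_lit 581376) (nat_lit 5) (.e (nat_lit 180285) (nat_lit 45) (.e (nat_lit 2579) (nat_lit 161) (.e (nat_lit 40965) (nat_lit 0) (.e (nat_lit 1591) (nat_lit 111) .nil))))) (.g (nat_lit 0) (.e (nat_lit 410711) (nat_lit 0) .nil) .nil))) 
(.lf (nat_lit 596573) (.g (nat_lit 3323) (.e (nat_lit 573477) (nat_lit 12) (.e (nat_lit 57574) (nat_lit 55) (.e (nat_lit 778362) (nat_lit 9) (.e (nat_lit 297) (nat_lit 22) (.e (nat_lit 344121) (nat_lit 22) .nil))))) (.g (nat_lit 0) (.e (nat_lit 411743) (nat_lit 0) .nil) .nil)))) (.nd (nat_lit 9) 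
(.lf (nat_lit 596317) (.g (nat_lit 1251) (.e (nat_lit 573470) (nat_lit 11) (.e (nat_lit 16392) (nat_lit 0) (.e (nat_lit 7107) (nat_lit 380) (.e (nat_lit 171776) (nat_lit 85) .nil)))) (.g (nat_lit 0) (.e (nat_lit 411192) (nat_lit 0) .nil) .nil))) 
(.lf (nat_lit 596829) (.g (nat_lit 2381) (.e (nat_lit 573480) (nat_lit 13) (.e (nat_lit 65630) (nat_lit 14) (.e (nat_lit 401425) (nat_lit 2) (.e (nat_lit 196681) (nat_lit 17) (.e (nat_lit 131121) (nat_lit 12) .nil))))) (.g (nat_lit 0) (.e (nat_lit 412192) (nat_lit 0) .nil) .nil))))) (.nd (nat_lit 8) (.nd (nat_lit 9) 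
(.lf (nat_lit 596189) (.g (nat_lit 3842) (.e (nat_lit 573456) (nat_lit 9) (.e (nat_lit 430) (nat_lit 32) (.e (nat_lit 426341) (nat_lit 14) (.e (nat_lit 491540) (nat_lit 3) (.e (nat_lit 98373) (nat_lit 29) (.e (nat_lit 450587) (nat_lit 10) .nil)))))) (.g (nat_lit 1) (.e (nat_lit 411026) (nat_lit 0) .nil) .nil))) 
(.lf (nat_lit 596701) (.g (nat_lit 839) (.e (nat_lit 573478) (nat_lit 12) (.e (nat_lit 57574) (nat_lit 55) (.e (nat_lit 778464) (nat_lit 11) (.e (nat_lit 24603) (nat_lit 2) .nil)))) (.g (nat_lit 0) (.e (nat_lit 411950) (nat_lit 0) .nil) .nil)))) (.nd (nat_lit 9) 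
(.lf (nat_lit 596445) (.g (nat_lit 3586) (.e (nat_lit 573471) (nat_lit 11) (.e (nat_lit 16471) (nat_lit 14) (.e (nat_lit 491536) (nat_lit 2) (.e (nat_lit 90170) (nat_lit 13) (.e (nat_lit 172113) (nat_lit 10) (.e (nat_lit 434245) (nat_lit 28) .nil)))))) (.g (nat_lit 1) (.e (nat_lit 411495) (nat_lit 0) .nil) .nil))) 
(.lf (nat_lit 596957) (.g (nat_lit 1107) (.e (nat_lit 573481) (nat_lit 13) (.e (nat_lit 65604) (nat_lit 9) (.e (nat_lit 336028) (nat_lit 3) (.e (nat_lit 98325) (nat_lit 17) .nil)))) (.g (nat_lit 0) (.e (nat_lit 412417) (nat_lit 0) .nil) .nil))))))) (.nd (nat_lit 6) (.nd (nat_lit 7) (.nd (nat_lit 8) (.nd (nat_lit 9) 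
(.lf (nat_lit 596029) (.g (nat_lit 794) (.e (nat_lit 573445) (nat_lit 0) (.e (nat_lit 3011) (nat_lit 187) (.e (nat_lit 450605) (nat_lit 27) (.e (nat_lit 745475) (nat_lit 0) (.e (nat_lit 1598) (nat_lit 111) (.e (nat_lit 368384) (nat_lit 10) .nil)))))) (.g (nat_lit 1) (.e (nat_lit 410615) (nat_lit 0) .nil) .nil))) 
(.lf (nat_lit 596541) (.g (nat_lit 429) (.e (nat_lit 573475) (nat_lit 12) (.e (nat_lit 57574) (nat_lit 55) (.e (nat_lit 778465) (nat_lit 11) .nil))) (.g (nat_lit 0) (.e (nat_lit 411657) (nat_lit 0) .nil) .nil)))) (.nd (nat_lit 9) 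
(.lf (nat_lit 596285) (.g (nat_lit 3456) (.e (nat_lit 573469) (nat_lit 11) (.e (nat_lit 16461) (nat_lit 12) (.e (nat_lit 475184) (nat_lit 29) (.e (nat_lit 557100) (nat_lit 13) (.e (nat_lit 172113) (nat_lit 10) (.e (nat_lit 434248) (nat_lit 28) .nil)))))) (.g (nat_lit 1) (.e (nat_lit 411158) (nat_lit 0) .nil) .nil))) 
(.lf (nat_lit 596797) (.g (nat_lit 2193) (.e (nat_lit 573480) (nat_lit 13) (.e (nat_lit 65568) (nat_lit 2) (.e (nat_lit 90160) (nat_lit 11) (.e (nat_lit 24671) (nat_lit 15) .nil)))) (.g (nat_lit 0) (.e (nat_lit 412148) (nat_lit 0) .nil) .nil))))) (.nd (nat_lit 8) (.nd (nat_lit 9) 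
(.lf (nat_lit 596157) (.g (nat_lit 2076) (.e (nat_lit 573455) (nat_lit 9) (.e (nat_lit 430) (nat_lit 32) (.e (nat_lit 426343) (nat_lit 14) (.e (nat_lit 491535) (nat_lit 2) (.e (nat_lit 90178) (nat_lit 15) .nil))))) (.g (nat_lit 0) (.e (nat_lit 410992) (nat_lit 0) .nil) .nil))) 
(.lf (nat_lit 596669) (.g (nat_lit 1663) (.e (nat_lit 573477) (nat_lit 12) (.e (nat_lit 57575) (nat_lit 55) (.e (nat_lit 778466) (nat_lit 11) (.e (nat_lit 24607) (nat_lit 3) .nil)))) (.g (nat_lit 0) (.e (nat_lit 411863) (nat_lit 0) .nil) .nil)))) (.nd (nat_lit 9) 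
(.lf (nat_lit 596413) (.g (nat_lit 1363) (.e (nat_lit 573471) (nat_lit 11) (.e (nat_lit 16458) (nat_lit 12) (.e (nat_lit 475185) (nat_lit 29) (.e (nat_lit 557098) (nat_lit 13) .nil)))) (.g (nat_lit 0) (.e (nat_lit 411458) (nat_lit 0) .nil) .nil))) 
(.lf (nat_lit 596925) (.g (nat_lit 2735) (.e (nat_lit 573481) (nat_lit 13) (.e (nat_lit 65604) (nat_lit 9) (.e (nat_lit 336013) (nat_lit 2) (.e (nat_lit 90170) (nat_lit 13) (.e (nat_lit 172059) (nat_lit 1) (.e (nat_lit 164346) (nat_lit 240) (.e (nat_lit 2601) (nat_lit 163) (.e (nat_lit 163975) (nat_lit 30) .nil)))))))) (.g (nat_lit 1) (.e (nat_lit 412367) (nat_lit 0) .nil) .nil)))))) 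
(.nd (nat_lit 7) (.nd (nat_lit 8) (.nd (nat_lit 9) 
(.lf (nat_lit 596093) (.g (nat_lit 538) (.e (nat_lit 573450) (nat_lit 9) (.e (nat_lit 375) (nat_lit 32) (.e (nat_lit 426339) (nat_lit 14) .nil))) (.g (nat_lit 0) (.e (nat_lit 410855) (nat_lit 0) .nil) .nil))) 
(.lf (nat_lit 596605) (.g (nat_lit 1983) (.e (nat_lit 573477) (nat_lit 12) (.e (nat_lit 57574) (nat_lit 55) (.e (nat_lit 778466) (nat_lit 11) (.e (nat_lit 24584) (nat_lit 0) (.e (nat_lit 7936) (nat_lit 119) .nil))))) (.g (nat_lit 0) (.e (nat_lit 411780) (nat_lit 0) .nil) .nil)))) (.nd (nat_lit 9) 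
(.lf (nat_lit 596349) (.g (nat_lit 1261) (.e (nat_lit 573470) (nat_lit 11) (.e (nat_lit 16471) (nat_lit 14) (.e (nat_lit 491526) (nat_lit 0) (.e (nat_lit 7936) (nat_lit 119) .nil)))) (.g (nat_lit 0) (.e (nat_lit 411254) (nat_lit 0) .nil) .nil))) 
(.lf (nat_lit 596861) (.g (nat_lit 4056) (.e (nat_lit 573481) (nat_lit 13) (.e (nat_lit 65598) (nat_lit 9) (.e (nat_lit 336013) (nat_lit 2) (.e (nat_lit 90134) (nat_lit 9) (.e (nat_lit 3098) (nat_lit 192) .nil))))) (.g (nat_lit 0) (.e (nat_lit 412278) (nat_lit 0) .nil) .nil))))) (.nd (nat_lit 8) (.nd (nat_lit 9) 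
(.lf (nat_lit 596221) (.g (nat_lit 2745) (.e (nat_lit 573456) (nat_lit 9) (.e (nat_lit 1669) (nat_lit 116) (.e (nat_lit 401459) (nat_lit 13) (.e (nat_lit 483363) (nat_lit 18) (.e (nat_lit 57686) (nat_lit 156) .nil))))) (.g (nat_lit 0) (.e (nat_lit 411058) (nat_lit 0) .nil) .nil))) 
(.lf (nat_lit 596733) (.g (nat_lit 4569) (.e (nat_lit 573478) (nat_lit 12) (.e (nat_lit 57574) (nat_lit 55) (.e (nat_lit 778466) (nat_lit 11) (.e (nat_lit 24608) (nat_lit 3) (.e (nat_lit 98373) (nat_lit 29) (.e (nat_lit 450587) (nat_lit 10) .nil)))))) (.g (nat_lit 1) (.e (nat_lit 411999) (nat_lit 0) .nil) .nil)))) (.nd (nat_lit 9) 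
(.lf (nat_lit 596477) (.g (nat_lit 1625) (.e (nat_lit 573473) (nat_lit 12) (.e (nat_lit 57508) (nat_lit 39) (.e (nat_lit 647199) (nat_lit 11) (.e (nat_lit 16392) (nat_lit 0) (.e (nat_lit 3545) (nat_lit 219) .nil))))) (.g (nat_lit 0) (.e (nat_lit 411533) (nat_lit 0) .nil) .nil))) 
(.lf (nat_lit 596989) (.g (nat_lit 1492) (.e (nat_lit 573481) (nat_lit 13) (.e (nat_lit 65604) (nat_lit 9) (.e (nat_lit 336028) (nat_lit 3) (.e (nat_lit 98383) (nat_lit 32) (.e (nat_lit 475196) (nat_lit 40) .nil))))) (.g (nat_lit 0) (.e (nat_lit 412512) (nat_lit 0) .nil) .nil))))))))))) 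
(.nd (nat_lit 2) (.nd (nat_lit 3) (.nd (nat_lit 4) (.nd (nat_lit 5) (.nd (nat_lit 6) 
(.nd (nat_lit 7) (.nd (nat_lit 8) (.nd (nat_lit 9) 
(.lf (nat_lit 595971) (.g (nat_lit 2026) (.e (nat_lit 548913) (nat_lit 18) (.e (nat_lit 172126) (nat_lit 14) (.e (nat_lit 491537) (nat_lit 2) (.e (nat_lit 90177) (nat_lit 15) .nil)))) (.g (nat_lit 0) (.e (nat_lit 410317) (nat_lit 0) .nil) .nil))) 
(.lf (nat_lit 596483) (.g (nat_lit 4894) (.e (nat_lit 573474) (nat_lit 12) (.e (nat_lit 57347) (nat_lit 0) (.e (nat_lit 7265) (nat_lit 384) (.e (nat_lit 57412) (nat_lit 12) (.e (nat_lit 336001) (nat_lit 2) (.e (nat_lit 90170) (nat_lit 13) (.e (nat_lit 172113) (nat_lit 10) (.e (nat_lit 434245) (nat_lit 28) .nil)))))))) (.g (nat_lit 1) (.e (nat_lit 411550) (nat_lit 0) .nil) .nil)))) 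
(.nd (nat_lit 9) 
(.lf (nat_lit 596227) (.g (nat_lit 2875) (.e (nat_lit 573456) (nat_lit 9) (.e (nat_lit 1669) (nat_lit 116) (.e (nat_lit 401459) (nat_lit 13) (.e (nat_lit 483365) (nat_lit 18) (.e (nat_lit 57654) (nat_lit 152) .nil))))) (.g (nat_lit 0) (.e (nat_lit 411064) (nat_lit 0) .nil) .nil))) 
(.lf (nat_lit 596739) (.g (nat_lit 3732) (.e (nat_lit 573479) (nat_lit 13) (.e (nat_lit 65604) (nat_lit 9) (.e (nat_lit 336013) (nat_lit 2) (.e (nat_lit 90174) (nat_lit 14) .nil)))) (.g (nat_lit 0) (.e (nat_lit 412073) (nat_lit 0) .nil) .nil))))) (.nd (nat_lit 8) (.nd (nat_lit 9) 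
(.lf (nat_lit 596099) (.g (nat_lit 2369) (.e (nat_lit 573450) (nat_lit 9) (.e (nat_lit 436) (nat_lit 32) (.e (nat_lit 426306) (nat_lit 12) (.e (nat_lit 475185) (nat_lit 29) (.e (nat_lit 557101) (nat_lit 13) .nil))))) (.g (nat_lit 0) (.e (nat_lit 410861) (nat_lit 0) .nil) .nil))) 
(.lf (nat_lit 596611) (.g (nat_lit 1500) (.e (nat_lit 573477) (nat_lit 12) (.e (nat_lit 57574) (nat_lit 55) (.e (nat_lit 778466) (nat_lit 11) (.e (nat_lit 24603) (nat_lit 2) (.e (nat_lit 90168) (nat_lit 13) .nil))))) (.g (nat_lit 0) (.e (nat_lit 411788) (nat_lit 0) .nil) .nil)))) (.nd (nat_lit 9) 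
(.lf (nat_lit 596355) (.g (nat_lit 3407) (.e (nat_lit 573470) (nat_lit 11) (.e (nat_lit 16472) (nat_lit 14) (.e (nat_lit 491538) (nat_lit 3) (.e (nat_lit 98359) (nat_lit 26) (.e (nat_lit 426286) (nat_lit 10) (.e (nat_lit 434248) (nat_lit 28) .nil)))))) (.g (nat_lit 1) (.e (nat_lit 411260) (nat_lit 0) .nil) .nil))) 
(.lf (nat_lit 596867) (.g (nat_lit 3826) (.e (nat_lit 573481) (nat_lit 13) (.e (nat_lit 65604) (nat_lit 9) (.e (nat_lit 336013) (nat_lit 2) (.e (nat_lit 90123) (nat_lit 9) .nil)))) (.g (nat_lit 0) (.e (nat_lit 412284) (nat_lit 0) .nil) .nil)))))) (.nd (nat_lit 7) (.nd (nat_lit 8) (.nd (nat_lit 9) 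
(.lf (nat_lit 596035) (.g (nat_lit 1321) (.e (nat_lit 573445) (nat_lit 0) (.e (nat_lit 3011) (nat_lit 187) (.e (nat_lit 450605) (nat_lit 27) (.e (nat_lit 745476) (nat_lit 0) (.e (nat_lit 1598) (nat_lit 111) (.e (nat_lit 368384) (nat_lit 10) .nil)))))) (.g (nat_lit 1) (.e (nat_lit 410621) (nat_lit 0) .nil) .nil))) 
(.lf (nat_lit 596547) (.g (nat_lit 2135) (.e (nat_lit 573475) (nat_lit 12) (.e (nat_lit 57574) (nat_lit 55) (.e (nat_lit 778466) (nat_lit 11) (.e (nat_lit 24578) (nat_lit 0) .nil)))) (.g (nat_lit 0) (.e (nat_lit 411664) (nat_lit 0) .nil) .nil)))) (.nd (nat_lit 9) 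
(.lf (nat_lit 596291) (.g (nat_lit 1620) (.e (nat_lit 573469) (nat_lit 11) (.e (nat_lit 16469) (nat_lit 14) (.e (nat_lit 491539) (nat_lit 3) (.e (nat_lit 98372) (nat_lit 29) .nil)))) (.g (nat_lit 0) (.e (nat_lit 411164) (nat_lit 0) .nil) .nil))) 
(.lf (nat_lit 596803) (.g (nat_lit 2897) (.e (nat_lit 573480) (nat_lit 13) (.e (nat_lit 65604) (nat_lit 9) (.e (nat_lit 336013) (nat_lit 2) (.e (nat_lit 90170) (nat_lit 13) (.e (nat_lit 172046) (nat_lit 0) .nil))))) (.g (nat_lit 0) (.e (nat_lit 412166) (nat_lit 0) .nil) .nil))))) (.nd (nat_lit 8) (.nd (nat_lit 9) 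
(.lf (nat_lit 596163) (.g (nat_lit 4176) (.e (nat_lit 573456) (nat_lit 9) (.e (nat_lit 430) (nat_lit 32) (.e (nat_lit 426009) (nat_lit 0) (.e (nat_lit 7490) (nat_lit 402) (.e (nat_lit 1239) (nat_lit 91) (.e (nat_lit 90170) (nat_lit 13) (.e (nat_lit 172113) (nat_lit 10) (.e (nat_lit 434247) (nat_lit 28) .nil)))))))) (.g (nat_lit 1) (.e (nat_lit 410998) (nat_lit 0) .nil) .nil))) 
(.lf (nat_lit 596675) (.g (nat_lit 4195) (.e (nat_lit 573477) (nat_lit 12) (.e (nat_lit 57575) (nat_lit 55) (.e (nat_lit 778466) (nat_lit 11) (.e (nat_lit 24608) (nat_lit 3) (.e (nat_lit 98380) (nat_lit 31) (.e (nat_lit 466967) (nat_lit 20) (.e (nat_lit 3304) (nat_lit 202) .nil))))))) (.g (nat_lit 1) (.e (nat_lit 411869) (nat_lit 0) .nil) .nil)))) (.nd (nat_lit 9) 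
(.lf (nat_lit 596419) (.g (nat_lit 1809) (.e (nat_lit 573471) (nat_lit 11) (.e (nat_lit 16459) (nat_lit 12) (.e (nat_lit 475185) (nat_lit 29) (.e (nat_lit 557107) (nat_lit 15) .nil)))) (.g (nat_lit 0) (.e (nat_lit 411467) (nat_lit 0) .nil) .nil))) 
(.lf (nat_lit 596931) (.g (nat_lit 3401) (.e (nat_lit 573481) (nat_lit 13) (.e (nat_lit 65604) (nat_lit 9) (.e (nat_lit 336013) (nat_lit 2) (.e (nat_lit 90170) (nat_lit 13) (.e (nat_lit 172060) (nat_lit 1) .nil))))) (.g (nat_lit 0) (.e (nat_lit 412374) (nat_lit 0) .nil) .nil))))))) (.nd (nat_lit 6) (.nd (nat_lit 7) (.nd (nat_lit 8) (.nd (nat_lit 9) 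
(.lf (nat_lit 596003) (.g (nat_lit 313) (.e (nat_lit 573442) (nat_lit 0) (.e (nat_lit 3011) (nat_lit 187) (.e (nat_lit 450605) (nat_lit 27) (.e (nat_lit 745475) (nat_lit 0) .nil)))) (.g (nat_lit 0) (.e (nat_lit 410546) (nat_lit 0) .nil) .nil))) 
(.lf (nat_lit 596515) (.g (nat_lit 1497) (.e (nat_lit 573474) (nat_lit 12) (.e (nat_lit 57574) (nat_lit 55) (.e (nat_lit 778466) (nat_lit 11) (.e (nat_lit 24608) (nat_lit 3) (.e (nat_lit 98365) (nat_lit 26) .nil))))) (.g (nat_lit 0) (.e (nat_lit 411599) (nat_lit 0) .nil) .nil)))) (.nd (nat_lit 9) 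
(.lf (nat_lit 596259) (.g (nat_lit 1266) (.e (nat_lit 573469) (nat_lit 11) (.e (nat_lit 16392) (nat_lit 0) (.e (nat_lit 7107) (nat_lit 380) (.e (nat_lit 171776) (nat_lit 85) .nil)))) (.g (nat_lit 0) (.e (nat_lit 411107) (nat_lit 0) .nil) .nil))) 
(.lf (nat_lit 596771) (.g (nat_lit 3671) (.e (nat_lit 573479) (nat_lit 13) (.e (nat_lit 65619) (nat_lit 10) (.e (nat_lit 344117) (nat_lit 21) (.e (nat_lit 516151) (nat_lit 9) (.e (nat_lit 426103) (nat_lit 1) .nil))))) (.g (nat_lit 0) (.e (nat_lit 412105) (nat_lit 0) .nil) .nil))))) (.nd (nat_lit 8) (.nd (nat_lit 9) 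
(.lf (nat_lit 596131) (.g (nat_lit 1584) (.e (nat_lit 573451) (nat_lit 9) (.e (nat_lit 1401) (nat_lit 106) (.e (nat_lit 319534) (nat_lit 16) (.e (nat_lit 286767) (nat_lit 27) .nil)))) (.g (nat_lit 0) (.e (nat_lit 410950) (nat_lit 0) .nil) .nil))) 
(.lf (nat_lit 596643) (.g (nat_lit 2509) (.e (nat_lit 573477) (nat_lit 12) (.e (nat_lit 57575) (nat_lit 55) (.e (nat_lit 778465) (nat_lit 11) (.e (nat_lit 24604) (nat_lit 2) (.e (nat_lit 90168) (nat_lit 13) .nil))))) (.g (nat_lit 0) (.e (nat_lit 411835) (nat_lit 0) .nil) .nil)))) (.nd (nat_lit 9) 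
(.lf (nat_lit 596387) (.g (nat_lit 2694) (.e (nat_lit 573471) (nat_lit 11) (.e (nat_lit 16439) (nat_lit 9) (.e (nat_lit 426132) (nat_lit 3) (.e (nat_lit 204816) (nat_lit 17) (.e (nat_lit 6724) (nat_lit 362) (.e (nat_lit 180250) (nat_lit 10) .nil)))))) (.g (nat_lit 1) (.e (nat_lit 411358) (nat_lit 0) .nil) .nil))) 
(.lf (nat_lit 596899) (.g (nat_lit 2253) (.e (nat_lit 573481) (nat_lit 13) (.e (nat_lit 65604) (nat_lit 9) (.e (nat_lit 336013) (nat_lit 2) (.e (nat_lit 90170) (nat_lit 13) (.e (nat_lit 172033) (nat_lit 0) (.e (nat_lit 3402) (nat_lit 211) (.e (nat_lit 647180) (nat_lit 3) (.e (nat_lit 163976) (nat_lit 30) .nil)))))))) (.g (nat_lit 1) (.e (nat_lit 412330) (nat_lit 0) .nil) .nil)))))) 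
(.nd (nat_lit 7) (.nd (nat_lit 8) (.nd (nat_lit 9) 
(.lf (nat_lit 596067) (.g (nat_lit 1298) (.e (nat_lit 581376) (nat_lit 6) (.e (nat_lit 188434) (nat_lit 20) (.e (nat_lit 3579) (nat_lit 223) (.e (nat_lit 745475) (nat_lit 0) (.e (nat_lit 1592) (nat_lit 111) .nil))))) (.g (nat_lit 0) (.e (nat_lit 410729) (nat_lit 0) .nil) .nil))) 
(.lf (nat_lit 596579) (.g (nat_lit 494) (.e (nat_lit 573477) (nat_lit 12) (.e (nat_lit 57574) (nat_lit 55) (.e (nat_lit 778465) (nat_lit 11) .nil))) (.g (nat_lit 0) (.e (nat_lit 411750) (nat_lit 0) .nil) .nil)))) (.nd (nat_lit 9) 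
(.lf (nat_lit 596323) (.g (nat_lit 2520) (.e (nat_lit 573470) (nat_lit 11) (.e (nat_lit 16448) (nat_lit 10) (.e (nat_lit 434231) (nat_lit 23) (.e (nat_lit 532482) (nat_lit 0) (.e (nat_lit 6724) (nat_lit 362) .nil))))) (.g (nat_lit 0) (.e (nat_lit 411207) (nat_lit 0) .nil) .nil))) 
(.lf (nat_lit 596835) (.g (nat_lit 394) (.e (nat_lit 573480) (nat_lit 13) (.e (nat_lit 65630) (nat_lit 14) (.e (nat_lit 401428) (nat_lit 3) .nil))) (.g (nat_lit 0) (.e (nat_lit 412198) (nat_lit 0) .nil) .nil))))) (.nd (nat_lit 8) (.nd (nat_lit 9) 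
(.lf (nat_lit 596195) (.g (nat_lit 2407) (.e (nat_lit 573456) (nat_lit 9) (.e (nat_lit 430) (nat_lit 32) (.e (nat_lit 426344) (nat_lit 14) (.e (nat_lit 491538) (nat_lit 3) (.e (nat_lit 98372) (nat_lit 29) (.e (nat_lit 450586) (nat_lit 10) .nil)))))) (.g (nat_lit 1) (.e (nat_lit 411032) (nat_lit 0) .nil) .nil))) 
(.lf (nat_lit 596707) (.g (nat_lit 1873) (.e (nat_lit 573478) (nat_lit 12) (.e (nat_lit 57574) (nat_lit 55) (.e (nat_lit 778465) (nat_lit 11) (.e (nat_lit 24604) (nat_lit 2) (.e (nat_lit 90176) (nat_lit 15) (.e (nat_lit 188439) (nat_lit 20) (.e (nat_lit 3296) (nat_lit 202) .nil))))))) (.g (nat_lit 1) (.e (nat_lit 411960) (nat_lit 0) .nil) .nil)))) (.nd (nat_lit 9) 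
(.lf (nat_lit 596451) (.g (nat_lit 1952) (.e (nat_lit 573471) (nat_lit 11) (.e (nat_lit 16473) (nat_lit 14) (.e (nat_lit 491526) (nat_lit 0) (.e (nat_lit 1788) (nat_lit 119) (.e (nat_lit 516151) (nat_lit 9) .nil))))) (.g (nat_lit 0) (.e (nat_lit 411502) (nat_lit 0) .nil) .nil))) 
(.lf (nat_lit 596963) (.g (nat_lit 2760) (.e (nat_lit 573481) (nat_lit 13) (.e (nat_lit 65604) (nat_lit 9) (.e (nat_lit 336028) (nat_lit 3) (.e (nat_lit 98358) (nat_lit 26) (.e (nat_lit 426402) (nat_lit 15) .nil))))) (.g (nat_lit 0) (.e (nat_lit 412443) (nat_lit 0) .nil) .nil)))))))) (.nd (nat_lit 5) (.nd (nat_lit 6) (.nd (nat_lit 7) (.nd (nat_lit 8) (.nd (nat_lit 9) 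
(.lf (nat_lit 595987) (.g (nat_lit 2069) (.e (nat_lit 548878) (nat_lit 5) (.e (nat_lit 1524) (nat_lit 108) (.e (nat_lit 336204) (nat_lit 12) (.e (nat_lit 385074) (nat_lit 31) (.e (nat_lit 573491) (nat_lit 15) .nil))))) (.g (nat_lit 0) (.e (nat_lit 410484) (nat_lit 0) .nil) .nil))) 
(.lf (nat_lit 596499) (.g (nat_lit 1796) (.e (nat_lit 573474) (nat_lit 12) (.e (nat_lit 57572) (nat_lit 54) (.e (nat_lit 770072) (nat_lit 8) (.e (nat_lit 65569) (nat_lit 3) (.e (nat_lit 98325) (nat_lit 17) .nil))))) (.g (nat_lit 0) (.e (nat_lit 411576) (nat_lit 0) .nil) .nil)))) (.nd (nat_lit 9) 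
(.lf (nat_lit 596243) (.g (nat_lit 935) (.e (nat_lit 573458) (nat_lit 9) (.e (nat_lit 426) (nat_lit 32) (.e (nat_lit 426341) (nat_lit 14) (.e (nat_lit 491538) (nat_lit 3) .nil)))) (.g (nat_lit 0) (.e (nat_lit 411087) (nat_lit 0) .nil) .nil))) 
(.lf (nat_lit 596755) (.g (nat_lit 1312) (.e (nat_lit 573479) (nat_lit 13) (.e (nat_lit 65619) (nat_lit 10) (.e (nat_lit 344117) (nat_lit 21) (.e (nat_lit 516144) (nat_lit 9) .nil)))) (.g (nat_lit 0) (.e (nat_lit 412089) (nat_lit 0) .nil) .nil))))) (.nd (nat_lit 8) (.nd (nat_lit 9) 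
(.lf (nat_lit 596115) (.g (nat_lit 4395) (.e (nat_lit 573451) (nat_lit 9) (.e (nat_lit 430) (nat_lit 32) (.e (nat_lit 426011) (nat_lit 0) (.e (nat_lit 7583) (nat_lit 405) (.e (nat_lit 57464) (nat_lit 23) (.e (nat_lit 516151) (nat_lit 9) (.e (nat_lit 426286) (nat_lit 10) (.e (nat_lit 434245) (nat_lit 28) .nil)))))))) (.g (nat_lit 1) (.e (nat_lit 410934) (nat_lit 0) .nil) .nil))) 
(.lf (nat_lit 596627) (.g (nat_lit 1703) (.e (nat_lit 573477) (nat_lit 12) (.e (nat_lit 57574) (nat_lit 55) (.e (nat_lit 778466) (nat_lit 11) (.e (nat_lit 24607) (nat_lit 3) (.e (nat_lit 106240) (nat_lit 26) .nil))))) (.g (nat_lit 0) (.e (nat_lit 411816) (nat_lit 0) .nil) .nil)))) (.nd (nat_lit 9) 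
(.lf (nat_lit 596371) (.g (nat_lit 3096) (.e (nat_lit 573471) (nat_lit 11) (.e (nat_lit 16386) (nat_lit 0) (.e (nat_lit 7583) (nat_lit 405) (.e (nat_lit 57464) (nat_lit 23) (.e (nat_lit 516166) (nat_lit 12) (.e (nat_lit 450588) (nat_lit 10) .nil)))))) (.g (nat_lit 1) (.e (nat_lit 411280) (nat_lit 0) .nil) .nil))) 
(.lf (nat_lit 596883) (.g (nat_lit 3826) (.e (nat_lit 573481) (nat_lit 13) (.e (nat_lit 65604) (nat_lit 9) (.e (nat_lit 336013) (nat_lit 2) (.e (nat_lit 90147) (nat_lit 9) .nil)))) (.g (nat_lit 0) (.e (nat_lit 412303) (nat_lit 0) .nil) .nil)))))) (.nd (nat_lit 7) (.nd (nat_lit 8) (.nd (nat_lit 9) 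
(.lf (nat_lit 596051) (.g (nat_lit 1088) (.e (nat_lit 573445) (nat_lit 0) (.e (nat_lit 3020) (nat_lit 187) (.e (nat_lit 450605) (nat_lit 27) (.e (nat_lit 745476) (nat_lit 0) (.e (nat_lit 1598) (nat_lit 111) (.e (nat_lit 368384) (nat_lit 10) .nil)))))) (.g (nat_lit 1) (.e (nat_lit 410638) (nat_lit 0) .nil) .nil))) 
(.lf (nat_lit 596563) (.g (nat_lit 2281) (.e (nat_lit 573476) (nat_lit 12) (.e (nat_lit 57574) (nat_lit 55) (.e (nat_lit 778466) (nat_lit 11) (.e (nat_lit 24608) (nat_lit 3) .nil)))) (.g (nat_lit 0) (.e (nat_lit 411732) (nat_lit 0) .nil) .nil)))) (.nd (nat_lit 9) 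
(.lf (nat_lit 596307) (.g (nat_lit 4207) (.e (nat_lit 573469) (nat_lit 11) (.e (nat_lit 16473) (nat_lit 14) (.e (nat_lit 491535) (nat_lit 2) (.e (nat_lit 90170) (nat_lit 13) (.e (nat_lit 172113) (nat_lit 10) (.e (nat_lit 434247) (nat_lit 28) .nil)))))) (.g (nat_lit 1) (.e (nat_lit 411181) (nat_lit 0) .nil) .nil))) 
(.lf (nat_lit 596819) (.g (nat_lit 1362) (.e (nat_lit 573480) (nat_lit 13) (.e (nat_lit 65630) (nat_lit 14) (.e (nat_lit 401425) (nat_lit 2) (.e (nat_lit 196672) (nat_lit 15) .nil)))) (.g (nat_lit 0) (.e (nat_lit 412182) (nat_lit 0) .nil) .nil))))) (.nd (nat_lit 8) (.nd (nat_lit 9) 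
(.lf (nat_lit 596179) (.g (nat_lit 3109) (.e (nat_lit 573456) (nat_lit 9) (.e (nat_lit 430) (nat_lit 32) (.e (nat_lit 426012) (nat_lit 0) (.e (nat_lit 7581) (nat_lit 405) (.e (nat_lit 57464) (nat_lit 23) (.e (nat_lit 516165) (nat_lit 12) (.e (nat_lit 450586) (nat_lit 10) .nil))))))) (.g (nat_lit 1) (.e (nat_lit 411014) (nat_lit 0) .nil) .nil))) 
(.lf (nat_lit 596691) (.g (nat_lit 1644) (.e (nat_lit 573478) (nat_lit 12) (.e (nat_lit 57353) (nat_lit 0) (.e (nat_lit 7265) (nat_lit 384) (.e (nat_lit 57406) (nat_lit 12) (.e (nat_lit 335878) (nat_lit 0) .nil))))) (.g (nat_lit 0) (.e (nat_lit 411937) (nat_lit 0) .nil) .nil)))) (.nd (nat_lit 9) 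
(.lf (nat_lit 596435) (.g (nat_lit 1207) (.e (nat_lit 573471) (nat_lit 11) (.e (nat_lit 16470) (nat_lit 14) (.e (nat_lit 491538) (nat_lit 3) (.e (nat_lit 98370) (nat_lit 28) .nil)))) (.g (nat_lit 0) (.e (nat_lit 411485) (nat_lit 0) .nil) .nil))) 
(.lf (nat_lit 596947) (.g (nat_lit 2779) (.e (nat_lit 573481) (nat_lit 13) (.e (nat_lit 65604) (nat_lit 9) (.e (nat_lit 336013) (nat_lit 2) (.e (nat_lit 90170) (nat_lit 13) (.e (nat_lit 172137) (nat_lit 15) .nil))))) (.g (nat_lit 0) (.e (nat_lit 412402) (nat_lit 0) .nil) .nil))))))) (.nd (nat_lit 6) (.nd (nat_lit 7) (.nd (nat_lit 8) (.nd (nat_lit 9) 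
(.lf (nat_lit 596019) (.g (nat_lit 1057) (.e (nat_lit 573444) (nat_lit 0) (.e (nat_lit 3012) (nat_lit 187) (.e (nat_lit 450605) (nat_lit 27) (.e (nat_lit 745476) (nat_lit 0) (.e (nat_lit 1598) (nat_lit 111) (.e (nat_lit 368384) (nat_lit 10) .nil)))))) (.g (nat_lit 1) (.e (nat_lit 410586) (nat_lit 0) .nil) .nil))) 
(.lf (nat_lit 596531) (.g (nat_lit 1660) (.e (nat_lit 573475) (nat_lit 12) (.e (nat_lit 57572) (nat_lit 54) (.e (nat_lit 770072) (nat_lit 8) (.e (nat_lit 65569) (nat_lit 3) (.e (nat_lit 98374) (nat_lit 29) .nil))))) (.g (nat_lit 0) (.e (nat_lit 411644) (nat_lit 0) .nil) .nil)))) (.nd (nat_lit 9) 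
(.lf (nat_lit 596275) (.g (nat_lit 2314) (.e (nat_lit 573469) (nat_lit 11) (.e (nat_lit 16456) (nat_lit 12) (.e (nat_lit 475185) (nat_lit 29) (.e (nat_lit 557100) (nat_lit 13) (.e (nat_lit 172113) (nat_lit 10) .nil))))) (.g (nat_lit 0) (.e (nat_lit 411147) (nat_lit 0) .nil) .nil))) 
(.lf (nat_lit 596787) (.g (nat_lit 2562) (.e (nat_lit 573479) (nat_lit 13) (.e (nat_lit 65619) (nat_lit 10) (.e (nat_lit 344129) (nat_lit 26) (.e (nat_lit 557065) (nat_lit 9) (.e (nat_lit 307) (nat_lit 22) .nil))))) (.g (nat_lit 0) (.e (nat_lit 412121) (nat_lit 0) .nil) .nil))))) (.nd (nat_lit 8) (.nd (nat_lit 9) 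
(.lf (nat_lit 596147) (.g (nat_lit 1884) (.e (nat_lit 573452) (nat_lit 9) (.e (nat_lit 1400) (nat_lit 106) (.e (nat_lit 319533) (nat_lit 16) (.e (nat_lit 286768) (nat_lit 27) .nil)))) (.g (nat_lit 0) (.e (nat_lit 410978) (nat_lit 0) .nil) .nil))) 
(.lf (nat_lit 596659) (.g (nat_lit 1318) (.e (nat_lit 573477) (nat_lit 12) (.e (nat_lit 57575) (nat_lit 55) (.e (nat_lit 778466) (nat_lit 11) (.e (nat_lit 24604) (nat_lit 2) .nil)))) (.g (nat_lit 0) (.e (nat_lit 411852) (nat_lit 0) .nil) .nil)))) (.nd (nat_lit 9) 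
(.lf (nat_lit 596403) (.g (nat_lit 3012) (.e (nat_lit 573471) (nat_lit 11) (.e (nat_lit 16451) (nat_lit 11) (.e (nat_lit 458789) (nat_lit 23) (.e (nat_lit 532481) (nat_lit 0) (.e (nat_lit 6724) (nat_lit 362) (.e (nat_lit 180250) (nat_lit 10) .nil)))))) (.g (nat_lit 1) (.e (nat_lit 411438) (nat_lit 0) .nil) .nil))) 
(.lf (nat_lit 596915) (.g (nat_lit 2838) (.e (nat_lit 573481) (nat_lit 13) (.e (nat_lit 65604) (nat_lit 9) (.e (nat_lit 336013) (nat_lit 2) (.e (nat_lit 90170) (nat_lit 13) (.e (nat_lit 172046) (nat_lit 0) (.e (nat_lit 3403) (nat_lit 212) (.e (nat_lit 655373) (nat_lit 3) (.e (nat_lit 163976) (nat_lit 30) .nil)))))))) (.g (nat_lit 1) (.e (nat_lit 412352) (nat_lit 0) .nil) .nil)))))) 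
(.nd (nat_lit 7) (.nd (nat_lit 8) (.nd (nat_lit 9) 
(.lf (nat_lit 596083) (.g (nat_lit 2700) (.e (nat_lit 573449) (nat_lit 9) (.e (nat_lit 1669) (nat_lit 116) (.e (nat_lit 401459) (nat_lit 13) (.e (nat_lit 483363) (nat_lit 18) (.e (nat_lit 57651) (nat_lit 152) .nil))))) (.g (nat_lit 0) (.e (nat_lit 410838) (nat_lit 0) .nil) .nil))) 
(.lf (nat_lit 596595) (.g (nat_lit 4679) (.e (nat_lit 573477) (nat_lit 12) (.e (nat_lit 57574) (nat_lit 55) (.e (nat_lit 778465) (nat_lit 11) (.e (nat_lit 24607) (nat_lit 3) (.e (nat_lit 98373) (nat_lit 29) (.e (nat_lit 450587) (nat_lit 10) .nil)))))) (.g (nat_lit 1) (.e (nat_lit 411768) (nat_lit 0) .nil) .nil)))) (.nd (nat_lit 9) 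
(.lf (nat_lit 596339) (.g (nat_lit 2166) (.e (nat_lit 573470) (nat_lit 11) (.e (nat_lit 16469) (nat_lit 14) (.e (nat_lit 491537) (nat_lit 2) (.e (nat_lit 90170) (nat_lit 13) .nil)))) (.g (nat_lit 0) (.e (nat_lit 411243) (nat_lit 0) .nil) .nil))) 
(.lf (nat_lit 596851) (.g (nat_lit 3667) (.e (nat_lit 573481) (nat_lit 13) (.e (nat_lit 65563) (nat_lit 1) (.e (nat_lit 57927) (nat_lit 282) (.e (nat_lit 163943) (nat_lit 19) (.e (nat_lit 483346) (nat_lit 17) (.e (nat_lit 6712) (nat_lit 360) (.e (nat_lit 163975) (nat_lit 30) .nil))))))) (.g (nat_lit 1) (.e (nat_lit 412227) (nat_lit 0) .nil) .nil))))) (.nd (nat_lit 8) (.nd (nat_lit 9) 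
(.lf (nat_lit 596211) (.g (nat_lit 2591) (.e (nat_lit 573456) (nat_lit 9) (.e (nat_lit 1669) (nat_lit 116) (.e (nat_lit 401459) (nat_lit 13) (.e (nat_lit 483363) (nat_lit 18) (.e (nat_lit 57653) (nat_lit 152) .nil))))) (.g (nat_lit 0) (.e (nat_lit 411048) (nat_lit 0) .nil) .nil))) 
(.lf (nat_lit 596723) (.g (nat_lit 1125) (.e (nat_lit 573478) (nat_lit 12) (.e (nat_lit 57574) (nat_lit 55) (.e (nat_lit 778466) (nat_lit 11) (.e (nat_lit 24603) (nat_lit 2) .nil)))) (.g (nat_lit 0) (.e (nat_lit 411981) (nat_lit 0) .nil) .nil)))) (.nd (nat_lit 9) 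
(.lf (nat_lit 596467) (.g (nat_lit 3772) (.e (nat_lit 573472) (nat_lit 12) (.e (nat_lit 57572) (nat_lit 54) (.e (nat_lit 770072) (nat_lit 8) (.e (nat_lit 65568) (nat_lit 2) (.e (nat_lit 90170) (nat_lit 13) (.e (nat_lit 172113) (nat_lit 10) (.e (nat_lit 434242) (nat_lit 28) .nil))))))) (.g (nat_lit 1) (.e (nat_lit 411521) (nat_lit 0) .nil) .nil))) 
(.lf (nat_lit 596979) (.g (nat_lit 1708) (.e (nat_lit 573481) (nat_lit 13) (.e (nat_lit 65604) (nat_lit 9) (.e (nat_lit 336028) (nat_lit 3) (.e (nat_lit 98362) (nat_lit 26) .nil)))) (.g (nat_lit 0) (.e (nat_lit 412485) (nat_lit 0) .nil) .nil))))))))) (.nd (nat_lit 4) (.nd (nat_lit 5) (.nd (nat_lit 6) (.nd (nat_lit 7) (.nd (nat_lit 8) (.nd (nat_lit 9) 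
(.lf (nat_lit 595979) (.g (nat_lit 1707) (.e (nat_lit 556800) (nat_lit 18) (.e (nat_lit 172126) (nat_lit 14) (.e (nat_lit 491537) (nat_lit 2) (.e (nat_lit 90176) (nat_lit 15) .nil)))) (.g (nat_lit 0) (.e (nat_lit 410326) (nat_lit 0) .nil) .nil))) 
(.lf (nat_lit 596491) (.g (nat_lit 3525) (.e (nat_lit 573474) (nat_lit 12) (.e (nat_lit 57503) (nat_lit 38) (.e (nat_lit 638996) (nat_lit 7) (.e (nat_lit 163978) (nat_lit 30) (.e (nat_lit 573487) (nat_lit 14) (.e (nat_lit 73753) (nat_lit 8) (.e (nat_lit 557103) (nat_lit 14) (.e (nat_lit 180250) (nat_lit 10) .nil)))))))) (.g (nat_lit 1) (.e (nat_lit 411561) (nat_lit 0) .nil) .nil)))) 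
(.nd (nat_lit 9) 
(.lf (nat_lit 596235) (.g (nat_lit 1579) (.e (nat_lit 573458) (nat_lit 9) (.e (nat_lit 394) (nat_lit 32) (.e (nat_lit 426306) (nat_lit 12) (.e (nat_lit 475183) (nat_lit 29) (.e (nat_lit 557100) (nat_lit 13) .nil))))) (.g (nat_lit 0) (.e (nat_lit 411077) (nat_lit 0) .nil) .nil))) 
(.lf (nat_lit 596747) (.g (nat_lit 3508) (.e (nat_lit 573479) (nat_lit 13) (.e (nat_lit 65610) (nat_lit 10) (.e (nat_lit 344117) (nat_lit 21) (.e (nat_lit 516179) (nat_lit 15) (.e (nat_lit 475197) (nat_lit 40) .nil))))) (.g (nat_lit 0) (.e (nat_lit 412081) (nat_lit 0) .nil) .nil))))) (.nd (nat_lit 8) (.nd (nat_lit 9) 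
(.lf (nat_lit 596107) (.g (nat_lit 4108) (.e (nat_lit 573451) (nat_lit 9) (.e (nat_lit 365) (nat_lit 31) (.e (nat_lit 417795) (nat_lit 0) (.e (nat_lit 5271) (nat_lit 298) (.e (nat_lit 1239) (nat_lit 91) (.e (nat_lit 90170) (nat_lit 13) (.e (nat_lit 172113) (nat_lit 10) (.e (nat_lit 434245) (nat_lit 28) .nil)))))))) (.g (nat_lit 1) (.e (nat_lit 410926) (nat_lit 0) .nil) .nil))) 
(.lf (nat_lit 596619) (.g (nat_lit 4251) (.e (nat_lit 573477) (nat_lit 12) (.e (nat_lit 57574) (nat_lit 55) (.e (nat_lit 778466) (nat_lit 11) (.e (nat_lit 24604) (nat_lit 2) (.e (nat_lit 90176) (nat_lit 15) (.e (nat_lit 188439) (nat_lit 20) (.e (nat_lit 3296) (nat_lit 202) .nil))))))) (.g (nat_lit 1) (.e (nat_lit 411806) (nat_lit 0) .nil) .nil)))) (.nd (nat_lit 9) 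
(.lf (nat_lit 596363) (.g (nat_lit 3520) (.e (nat_lit 573470) (nat_lit 11) (.e (nat_lit 16473) (nat_lit 14) (.e (nat_lit 491538) (nat_lit 3) (.e (nat_lit 98359) (nat_lit 26) (.e (nat_lit 426286) (nat_lit 10) (.e (nat_lit 434248) (nat_lit 28) .nil)))))) (.g (nat_lit 1) (.e (nat_lit 411270) (nat_lit 0) .nil) .nil))) 
(.lf (nat_lit 596875) (.g (nat_lit 3776) (.e (nat_lit 573481) (nat_lit 13) (.e (nat_lit 65604) (nat_lit 9) (.e (nat_lit 336013) (nat_lit 2) (.e (nat_lit 90134) (nat_lit 9) (.e (nat_lit 3071) (nat_lit 190) (.e (nat_lit 475198) (nat_lit 40) (.e (nat_lit 704589) (nat_lit 3) (.e (nat_lit 163976) (nat_lit 30) .nil)))))))) (.g (nat_lit 1) (.e (nat_lit 412295) (nat_lit 0) .nil) .nil)))))) 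
(.nd (nat_lit 7) (.nd (nat_lit 8) (.nd (nat_lit 9) 
(.lf (nat_lit 596043) (.g (nat_lit 1173) (.e (nat_lit 573445) (nat_lit 0) (.e (nat_lit 3012) (nat_lit 187) (.e (nat_lit 450605) (nat_lit 27) (.e (nat_lit 745476) (nat_lit 0) (.e (nat_lit 1595) (nat_lit 111) (.e (nat_lit 368384) (nat_lit 10) .nil)))))) (.g (nat_lit 1) (.e (nat_lit 410630) (nat_lit 0) .nil) .nil))) 
(.lf (nat_lit 596555) (.g (nat_lit 3811) (.e (nat_lit 573475) (nat_lit 12) (.e (nat_lit 57574) (nat_lit 55) (.e (nat_lit 778466) (nat_lit 11) (.e (nat_lit 24604) (nat_lit 2) (.e (nat_lit 90178) (nat_lit 15) (.e (nat_lit 188436) (nat_lit 20) (.e (nat_lit 3308) (nat_lit 202) .nil))))))) (.g (nat_lit 1) (.e (nat_lit 411680) (nat_lit 0) .nil) .nil)))) (.nd (nat_lit 9) 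
(.lf (nat_lit 596299) (.g (nat_lit 1794) (.e (nat_lit 573469) (nat_lit 11) (.e (nat_lit 16471) (nat_lit 14) (.e (nat_lit 491536) (nat_lit 2) (.e (nat_lit 90170) (nat_lit 13) (.e (nat_lit 172113) (nat_lit 10) .nil))))) (.g (nat_lit 0) (.e (nat_lit 411172) (nat_lit 0) .nil) .nil))) 
(.lf (nat_lit 596811) (.g (nat_lit 3424) (.e (nat_lit 573480) (nat_lit 13) (.e (nat_lit 65610) (nat_lit 10) (.e (nat_lit 344117) (nat_lit 21) (.e (nat_lit 516179) (nat_lit 15) (.e (nat_lit 475198) (nat_lit 40) (.e (nat_lit 704590) (nat_lit 3) (.e (nat_lit 163975) (nat_lit 30) .nil))))))) (.g (nat_lit 1) (.e (nat_lit 412174) (nat_lit 0) .nil) .nil))))) (.nd (nat_lit 8) (.nd (nat_lit 9) 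
(.lf (nat_lit 596171) (.g (nat_lit 4786) (.e (nat_lit 573456) (nat_lit 9) (.e (nat_lit 430) (nat_lit 32) (.e (nat_lit 426011) (nat_lit 0) (.e (nat_lit 7490) (nat_lit 402) (.e (nat_lit 1239) (nat_lit 91) (.e (nat_lit 90170) (nat_lit 13) (.e (nat_lit 172113) (nat_lit 10) (.e (nat_lit 434247) (nat_lit 28) .nil)))))))) (.g (nat_lit 1) (.e (nat_lit 411006) (nat_lit 0) .nil) .nil))) 
(.lf (nat_lit 596683) (.g (nat_lit 1313) (.e (nat_lit 573477) (nat_lit 12) (.e (nat_lit 57750) (nat_lit 201) (.e (nat_lit 3090) (nat_lit 191) (.e (nat_lit 483364) (nat_lit 18) .nil)))) (.g (nat_lit 0) (.e (nat_lit 411904) (nat_lit 0) .nil) .nil)))) (.nd (nat_lit 9) 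
(.lf (nat_lit 596427) (.g (nat_lit 540) (.e (nat_lit 573471) (nat_lit 11) (.e (nat_lit 16470) (nat_lit 14) (.e (nat_lit 491535) (nat_lit 2) .nil))) (.g (nat_lit 0) (.e (nat_lit 411476) (nat_lit 0) .nil) .nil))) 
(.lf (nat_lit 596939) (.g (nat_lit 2545) (.e (nat_lit 573481) (nat_lit 13) (.e (nat_lit 65604) (nat_lit 9) (.e (nat_lit 336013) (nat_lit 2) (.e (nat_lit 90170) (nat_lit 13) (.e (nat_lit 172068) (nat_lit 4) (.e (nat_lit 229663) (nat_lit 240) (.e (nat_lit 2612) (nat_lit 163) (.e (nat_lit 163977) (nat_lit 30) .nil)))))))) (.g (nat_lit 1) (.e (nat_lit 412386) (nat_lit 0) .nil) .nil))))))) 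
(.nd (nat_lit 6) (.nd (nat_lit 7) (.nd (nat_lit 8) (.nd (nat_lit 9) 
(.lf (nat_lit 596011) (.g (nat_lit 483) (.e (nat_lit 573444) (nat_lit 0) (.e (nat_lit 3011) (nat_lit 187) (.e (nat_lit 450605) (nat_lit 27) (.e (nat_lit 745475) (nat_lit 0) (.e (nat_lit 1599) (nat_lit 111) .nil))))) (.g (nat_lit 0) (.e (nat_lit 410578) (nat_lit 0) .nil) .nil))) 
(.lf (nat_lit 596523) (.g (nat_lit 5719) (.e (nat_lit 573475) (nat_lit 12) (.e (nat_lit 57503) (nat_lit 38) (.e (nat_lit 638995) (nat_lit 7) (.e (nat_lit 163979) (nat_lit 30) (.e (nat_lit 573489) (nat_lit 14) (.e (nat_lit 73754) (nat_lit 8) (.e (nat_lit 557105) (nat_lit 14) (.e (nat_lit 180252) (nat_lit 10) .nil)))))))) (.g (nat_lit 1) (.e (nat_lit 411634) (nat_lit 0) .nil) .nil)))) 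
(.nd (nat_lit 9) 
(.lf (nat_lit 596267) (.g (nat_lit 2983) (.e (nat_lit 573469) (nat_lit 11) (.e (nat_lit 16436) (nat_lit 9) (.e (nat_lit 426131) (nat_lit 3) (.e (nat_lit 204885) (nat_lit 33) (.e (nat_lit 401448) (nat_lit 10) (.e (nat_lit 434246) (nat_lit 28) .nil)))))) (.g (nat_lit 1) (.e (nat_lit 411119) (nat_lit 0) .nil) .nil))) 
(.lf (nat_lit 596779) (.g (nat_lit 1928) (.e (nat_lit 573479) (nat_lit 13) (.e (nat_lit 65619) (nat_lit 10) (.e (nat_lit 344117) (nat_lit 21) (.e (nat_lit 516160) (nat_lit 10) (.e (nat_lit 434209) (nat_lit 18) .nil))))) (.g (nat_lit 0) (.e (nat_lit 412113) (nat_lit 0) .nil) .nil))))) (.nd (nat_lit 8) (.nd (nat_lit 9) 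
(.lf (nat_lit 596139) (.g (nat_lit 1709) (.e (nat_lit 573452) (nat_lit 9) (.e (nat_lit 396) (nat_lit 32) (.e (nat_lit 426343) (nat_lit 14) (.e (nat_lit 491538) (nat_lit 3) (.e (nat_lit 98359) (nat_lit 26) .nil))))) (.g (nat_lit 0) (.e (nat_lit 410962) (nat_lit 0) .nil) .nil))) 
(.lf (nat_lit 596651) (.g (nat_lit 2683) (.e (nat_lit 573477) (nat_lit 12) (.e (nat_lit 57575) (nat_lit 55) (.e (nat_lit 778465) (nat_lit 11) (.e (nat_lit 24608) (nat_lit 3) (.e (nat_lit 98380) (nat_lit 31) .nil))))) (.g (nat_lit 0) (.e (nat_lit 411843) (nat_lit 0) .nil) .nil)))) (.nd (nat_lit 9) 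
(.lf (nat_lit 596395) (.g (nat_lit 3161) (.e (nat_lit 573471) (nat_lit 11) (.e (nat_lit 16447) (nat_lit 10) (.e (nat_lit 434231) (nat_lit 23) (.e (nat_lit 532482) (nat_lit 0) (.e (nat_lit 6722) (nat_lit 362) (.e (nat_lit 180252) (nat_lit 10) .nil)))))) (.g (nat_lit 1) (.e (nat_lit 411378) (nat_lit 0) .nil) .nil))) 
(.lf (nat_lit 596907) (.g (nat_lit 2241) (.e (nat_lit 573481) (nat_lit 13) (.e (nat_lit 65604) (nat_lit 9) (.e (nat_lit 336013) (nat_lit 2) (.e (nat_lit 90170) (nat_lit 13) (.e (nat_lit 172042) (nat_lit 0) (.e (nat_lit 3403) (nat_lit 212) (.e (nat_lit 655373) (nat_lit 3) (.e (nat_lit 163975) (nat_lit 30) .nil)))))))) (.g (nat_lit 1) (.e (nat_lit 412341) (nat_lit 0) .nil) .nil)))))) 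
(.nd (nat_lit 7) (.nd (nat_lit 8) (.nd (nat_lit 9) 
(.lf (nat_lit 596075) (.g (nat_lit 1585) (.e (nat_lit 573448) (nat_lit 9) (.e (nat_lit 1315) (nat_lit 98) (.e (nat_lit 147495) (nat_lit 11) (.e (nat_lit 24609) (nat_lit 3) .nil)))) (.g (nat_lit 0) (.e (nat_lit 410796) (nat_lit 0) .nil) .nil))) 
(.lf (nat_lit 596587) (.g (nat_lit 1827) (.e (nat_lit 573477) (nat_lit 12) (.e (nat_lit 57574) (nat_lit 55) (.e (nat_lit 778465) (nat_lit 11) (.e (nat_lit 24604) (nat_lit 2) (.e (nat_lit 90176) (nat_lit 15) .nil))))) (.g (nat_lit 0) (.e (nat_lit 411759) (nat_lit 0) .nil) .nil)))) (.nd (nat_lit 9) 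
(.lf (nat_lit 596331) (.g (nat_lit 574) (.e (nat_lit 573470) (nat_lit 11) (.e (nat_lit 16459) (nat_lit 12) (.e (nat_lit 475184) (nat_lit 29) .nil))) (.g (nat_lit 0) (.e (nat_lit 411234) (nat_lit 0) .nil) .nil))) 
(.lf (nat_lit 596843) (.g (nat_lit 1635) (.e (nat_lit 573480) (nat_lit 13) (.e (nat_lit 65630) (nat_lit 14) (.e (nat_lit 401428) (nat_lit 3) (.e (nat_lit 204876) (nat_lit 31) (.e (nat_lit 376835) (nat_lit 0) (.e (nat_lit 7936) (nat_lit 202) .nil)))))) (.g (nat_lit 1) (.e (nat_lit 412206) (nat_lit 0) .nil) .nil))))) (.nd (nat_lit 8) (.nd (nat_lit 9) 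
(.lf (nat_lit 596203) (.g (nat_lit 3357) (.e (nat_lit 573456) (nat_lit 9) (.e (nat_lit 1669) (nat_lit 116) (.e (nat_lit 401457) (nat_lit 13) (.e (nat_lit 483363) (nat_lit 18) (.e (nat_lit 57688) (nat_lit 156) .nil))))) (.g (nat_lit 0) (.e (nat_lit 411040) (nat_lit 0) .nil) .nil))) 
(.lf (nat_lit 596715) (.g (nat_lit 1485) (.e (nat_lit 573478) (nat_lit 12) (.e (nat_lit 57574) (nat_lit 55) (.e (nat_lit 778466) (nat_lit 11) (.e (nat_lit 24581) (nat_lit 0) .nil)))) (.g (nat_lit 0) (.e (nat_lit 411969) (nat_lit 0) .nil) .nil)))) (.nd (nat_lit 9) 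
(.lf (nat_lit 596459) (.g (nat_lit 3064) (.e (nat_lit 573471) (nat_lit 11) (.e (nat_lit 16473) (nat_lit 14) (.e (nat_lit 491536) (nat_lit 2) (.e (nat_lit 90178) (nat_lit 15) (.e (nat_lit 188440) (nat_lit 20) (.e (nat_lit 3308) (nat_lit 202) .nil)))))) (.g (nat_lit 1) (.e (nat_lit 411512) (nat_lit 0) .nil) .nil))) 
(.lf (nat_lit 596971) (.g (nat_lit 2159) (.e (nat_lit 573481) (nat_lit 13) (.e (nat_lit 65604) (nat_lit 9) (.e (nat_lit 336028) (nat_lit 3) (.e (nat_lit 98359) (nat_lit 26) (.e (nat_lit 426410) (nat_lit 15) (.e (nat_lit 2056) (nat_lit 142) (.e (nat_lit 704589) (nat_lit 3) (.e (nat_lit 163976) (nat_lit 30) .nil)))))))) (.g (nat_lit 1) (.e (nat_lit 412476) (nat_lit 0) .nil) .nil)))))))) 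
(.nd (nat_lit 5) (.nd (nat_lit 6) (.nd (nat_lit 7) (.nd (nat_lit 8) (.nd (nat_lit 9) 
(.lf (nat_lit 595995) (.g (nat_lit 2570) (.e (nat_lit 548890) (nat_lit 10) (.e (nat_lit 73781) (nat_lit 32) (.e (nat_lit 2664) (nat_lit 167) (.e (nat_lit 196674) (nat_lit 15) (.e (nat_lit 81946) (nat_lit 20) (.e (nat_lit 1841) (nat_lit 123) .nil)))))) (.g (nat_lit 1) (.e (nat_lit 410515) (nat_lit 0) .nil) .nil))) 
(.lf (nat_lit 596507) (.g (nat_lit 3077) (.e (nat_lit 573474) (nat_lit 12) (.e (nat_lit 57574) (nat_lit 55) (.e (nat_lit 778362) (nat_lit 9) (.e (nat_lit 297) (nat_lit 22) (.e (nat_lit 344110) (nat_lit 19) .nil))))) (.g (nat_lit 0) (.e (nat_lit 411588) (nat_lit 0) .nil) .nil)))) (.nd (nat_lit 9) 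
(.lf (nat_lit 596251) (.g (nat_lit 1274) (.e (nat_lit 581376) (nat_lit 9) (.e (nat_lit 375) (nat_lit 32) (.e (nat_lit 426173) (nat_lit 7) (.e (nat_lit 409617) (nat_lit 10) (.e (nat_lit 7936) (nat_lit 43) .nil))))) (.g (nat_lit 0) (.e (nat_lit 411097) (nat_lit 0) .nil) .nil))) 
(.lf (nat_lit 596763) (.g (nat_lit 3791) (.e (nat_lit 573479) (nat_lit 13) (.e (nat_lit 65619) (nat_lit 10) (.e (nat_lit 344117) (nat_lit 21) (.e (nat_lit 516151) (nat_lit 9) (.e (nat_lit 426034) (nat_lit 0) .nil))))) (.g (nat_lit 0) (.e (nat_lit 412097) (nat_lit 0) .nil) .nil))))) (.nd (nat_lit 8) (.nd (nat_lit 9) 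
(.lf (nat_lit 596123) (.g (nat_lit 3932) (.e (nat_lit 573451) (nat_lit 9) (.e (nat_lit 430) (nat_lit 32) (.e (nat_lit 426344) (nat_lit 14) (.e (nat_lit 491536) (nat_lit 2) (.e (nat_lit 90170) (nat_lit 13) (.e (nat_lit 172113) (nat_lit 10) (.e (nat_lit 434245) (nat_lit 28) .nil))))))) (.g (nat_lit 1) (.e (nat_lit 410942) (nat_lit 0) .nil) .nil))) 
(.lf (nat_lit 596635) (.g (nat_lit 2372) (.e (nat_lit 573477) (nat_lit 12) (.e (nat_lit 57575) (nat_lit 55) (.e (nat_lit 778362) (nat_lit 9) (.e (nat_lit 297) (nat_lit 22) (.e (nat_lit 344120) (nat_lit 21) .nil))))) (.g (nat_lit 0) (.e (nat_lit 411826) (nat_lit 0) .nil) .nil)))) (.nd (nat_lit 9) 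
(.lf (nat_lit 596379) (.g (nat_lit 353) (.e (nat_lit 573471) (nat_lit 11) (.e (nat_lit 16425) (nat_lit 7) (.e (nat_lit 409617) (nat_lit 10) .nil))) (.g (nat_lit 0) (.e (nat_lit 411301) (nat_lit 0) .nil) .nil))) 
(.lf (nat_lit 596891) (.g (nat_lit 4164) (.e (nat_lit 573481) (nat_lit 13) (.e (nat_lit 65604) (nat_lit 9) (.e (nat_lit 336013) (nat_lit 2) (.e (nat_lit 90167) (nat_lit 13) (.e (nat_lit 172133) (nat_lit 15) .nil))))) (.g (nat_lit 0) (.e (nat_lit 412322) (nat_lit 0) .nil) .nil)))))) (.nd (nat_lit 7) (.nd (nat_lit 8) (.nd (nat_lit 9) 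
(.lf (nat_lit 596059) (.g (nat_lit 1107) (.e (nat_lit 573445) (nat_lit 0) (.e (nat_lit 3026) (nat_lit 187) (.e (nat_lit 450605) (nat_lit 27) (.e (nat_lit 745476) (nat_lit 0) (.e (nat_lit 1599) (nat_lit 111) (.e (nat_lit 368384) (nat_lit 10) .nil)))))) (.g (nat_lit 1) (.e (nat_lit 410648) (nat_lit 0) .nil) .nil))) 
(.lf (nat_lit 596571) (.g (nat_lit 2250) (.e (nat_lit 573477) (nat_lit 12) (.e (nat_lit 57574) (nat_lit 55) (.e (nat_lit 778362) (nat_lit 9) (.e (nat_lit 297) (nat_lit 22) .nil)))) (.g (nat_lit 0) (.e (nat_lit 411740) (nat_lit 0) .nil) .nil)))) (.nd (nat_lit 9) 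
(.lf (nat_lit 596315) (.g (nat_lit 971) (.e (nat_lit 573470) (nat_lit 11) (.e (nat_lit 16388) (nat_lit 0) (.e (nat_lit 7536) (nat_lit 402) (.e (nat_lit 7936) (nat_lit 92) .nil)))) (.g (nat_lit 0) (.e (nat_lit 411190) (nat_lit 0) .nil) .nil))) 
(.lf (nat_lit 596827) (.g (nat_lit 3079) (.e (nat_lit 573480) (nat_lit 13) (.e (nat_lit 65630) (nat_lit 14) (.e (nat_lit 401425) (nat_lit 2) (.e (nat_lit 196681) (nat_lit 17) (.e (nat_lit 131107) (nat_lit 9) .nil))))) (.g (nat_lit 0) (.e (nat_lit 412190) (nat_lit 0) .nil) .nil))))) (.nd (nat_lit 8) (.nd (nat_lit 9) 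
(.lf (nat_lit 596187) (.g (nat_lit 4754) (.e (nat_lit 573456) (nat_lit 9) (.e (nat_lit 430) (nat_lit 32) (.e (nat_lit 426341) (nat_lit 14) (.e (nat_lit 491537) (nat_lit 2) (.e (nat_lit 90170) (nat_lit 13) (.e (nat_lit 172113) (nat_lit 10) (.e (nat_lit 434247) (nat_lit 28) .nil))))))) (.g (nat_lit 1) (.e (nat_lit 411024) (nat_lit 0) .nil) .nil))) 
(.lf (nat_lit 596699) (.g (nat_lit 935) (.e (nat_lit 573478) (nat_lit 12) (.e (nat_lit 57574) (nat_lit 55) (.e (nat_lit 778463) (nat_lit 11) (.e (nat_lit 24579) (nat_lit 0) (.e (nat_lit 7936) (nat_lit 119) .nil))))) (.g (nat_lit 0) (.e (nat_lit 411948) (nat_lit 0) .nil) .nil)))) (.nd (nat_lit 9) 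
(.lf (nat_lit 596443) (.g (nat_lit 5093) (.e (nat_lit 573471) (nat_lit 11) (.e (nat_lit 16471) (nat_lit 14) (.e (nat_lit 491526) (nat_lit 0) (.e (nat_lit 1788) (nat_lit 119) (.e (nat_lit 516151) (nat_lit 9) (.e (nat_lit 426286) (nat_lit 10) (.e (nat_lit 434245) (nat_lit 28) .nil))))))) (.g (nat_lit 1) (.e (nat_lit 411493) (nat_lit 0) .nil) .nil))) 
(.lf (nat_lit 596955) (.g (nat_lit 2314) (.e (nat_lit 573481) (nat_lit 13) (.e (nat_lit 65604) (nat_lit 9) (.e (nat_lit 336013) (nat_lit 2) (.e (nat_lit 90187) (nat_lit 18) .nil)))) (.g (nat_lit 0) (.e (nat_lit 412415) (nat_lit 0) .nil) .nil))))))) (.nd (nat_lit 6) (.nd (nat_lit 7) (.nd (nat_lit 8) (.nd (nat_lit 9) 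
(.lf (nat_lit 596027) (.g (nat_lit 605) (.e (nat_lit 573445) (nat_lit 0) (.e (nat_lit 3011) (nat_lit 187) (.e (nat_lit 450605) (nat_lit 27) (.e (nat_lit 745475) (nat_lit 0) (.e (nat_lit 1592) (nat_lit 111) (.e (nat_lit 368384) (nat_lit 10) .nil)))))) (.g (nat_lit 1) (.e (nat_lit 410613) (nat_lit 0) .nil) .nil))) 
(.lf (nat_lit 596539) (.g (nat_lit 1224) (.e (nat_lit 573475) (nat_lit 12) (.e (nat_lit 57574) (nat_lit 55) (.e (nat_lit 778362) (nat_lit 9) (.e (nat_lit 307) (nat_lit 22) .nil)))) (.g (nat_lit 0) (.e (nat_lit 411655) (nat_lit 0) .nil) .nil)))) (.nd (nat_lit 9) 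
(.lf (nat_lit 596283) (.g (nat_lit 1997) (.e (nat_lit 573469) (nat_lit 11) (.e (nat_lit 16460) (nat_lit 12) (.e (nat_lit 475185) (nat_lit 29) (.e (nat_lit 557100) (nat_lit 13) (.e (nat_lit 172113) (nat_lit 10) .nil))))) (.g (nat_lit 0) (.e (nat_lit 411156) (nat_lit 0) .nil) .nil))) 
(.lf (nat_lit 596795) (.g (nat_lit 503) (.e (nat_lit 573480) (nat_lit 13) (.e (nat_lit 65568) (nat_lit 2) (.e (nat_lit 98048) (nat_lit 0) .nil))) (.g (nat_lit 0) (.e (nat_lit 412139) (nat_lit 0) .nil) .nil))))) (.nd (nat_lit 8) (.nd (nat_lit 9) 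
(.lf (nat_lit 596155) (.g (nat_lit 1104) (.e (nat_lit 573454) (nat_lit 9) (.e (nat_lit 1315) (nat_lit 98) (.e (nat_lit 147496) (nat_lit 11) (.e (nat_lit 24603) (nat_lit 2) .nil)))) (.g (nat_lit 0) (.e (nat_lit 410988) (nat_lit 0) .nil) .nil))) 
(.lf (nat_lit 596667) (.g (nat_lit 3097) (.e (nat_lit 573477) (nat_lit 12) (.e (nat_lit 57575) (nat_lit 55) (.e (nat_lit 778466) (nat_lit 11) (.e (nat_lit 24604) (nat_lit 2) (.e (nat_lit 90185) (nat_lit 17) (.e (nat_lit 237605) (nat_lit 9) (.e (nat_lit 425986) (nat_lit 0) (.e (nat_lit 3299) (nat_lit 202) .nil)))))))) (.g (nat_lit 1) (.e (nat_lit 411860) (nat_lit 0) .nil) .nil)))) (.nd (nat_lit 9) 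
(.lf (nat_lit 596411) (.g (nat_lit 3163) (.e (nat_lit 573471) (nat_lit 11) (.e (nat_lit 16456) (nat_lit 12) (.e (nat_lit 475185) (nat_lit 29) (.e (nat_lit 557107) (nat_lit 15) (.e (nat_lit 188440) (nat_lit 20) .nil))))) (.g (nat_lit 0) (.e (nat_lit 411454) (nat_lit 0) .nil) .nil))) 
(.lf (nat_lit 596923) (.g (nat_lit 2071) (.e (nat_lit 573481) (nat_lit 13) (.e (nat_lit 65604) (nat_lit 9) (.e (nat_lit 336013) (nat_lit 2) (.e (nat_lit 90170) (nat_lit 13) (.e (nat_lit 172059) (nat_lit 1) .nil))))) (.g (nat_lit 0) (.e (nat_lit 412364) (nat_lit 0) .nil) .nil)))))) (.nd (nat_lit 7) (.nd (nat_lit 8) (.nd (nat_lit 9) 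
(.lf (nat_lit 596091) (.g (nat_lit 4223) (.e (nat_lit 573450) (nat_lit 9) (.e (nat_lit 375) (nat_lit 32) (.e (nat_lit 426309) (nat_lit 12) (.e (nat_lit 475185) (nat_lit 29) (.e (nat_lit 557100) (nat_lit 13) (.e (nat_lit 172113) (nat_lit 10) (.e (nat_lit 434245) (nat_lit 28) .nil))))))) (.g (nat_lit 1) (.e (nat_lit 410853) (nat_lit 0) .nil) .nil))) 
(.lf (nat_lit 596603) (.g (nat_lit 2200) (.e (nat_lit 573477) (nat_lit 12) (.e (nat_lit 57574) (nat_lit 55) (.e (nat_lit 778466) (nat_lit 11) (.e (nat_lit 24578) (nat_lit 0) .nil)))) (.g (nat_lit 0) (.e (nat_lit 411776) (nat_lit 0) .nil) .nil)))) (.nd (nat_lit 9) 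
(.lf (nat_lit 596347) (.g (nat_lit 591) (.e (nat_lit 573470) (nat_lit 11) (.e (nat_lit 16471) (nat_lit 14) (.e (nat_lit 491520) (nat_lit 0) .nil))) (.g (nat_lit 0) (.e (nat_lit 411251) (nat_lit 0) .nil) .nil))) 
(.lf (nat_lit 596859) (.g (nat_lit 2936) (.e (nat_lit 573481) (nat_lit 13) (.e (nat_lit 65589) (nat_lit 9) (.e (nat_lit 336019) (nat_lit 3) (.e (nat_lit 98384) (nat_lit 32) (.e (nat_lit 475199) (nat_lit 40) (.e (nat_lit 704589) (nat_lit 3) (.e (nat_lit 163976) (nat_lit 30) .nil))))))) (.g (nat_lit 1) (.e (nat_lit 412275) (nat_lit 0) .nil) .nil))))) (.nd (nat_lit 8) (.nd (nat_lit 9) 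
(.lf (nat_lit 596219) (.g (nat_lit 2591) (.e (nat_lit 573456) (nat_lit 9) (.e (nat_lit 1669) (nat_lit 116) (.e (nat_lit 401459) (nat_lit 13) (.e (nat_lit 483363) (nat_lit 18) (.e (nat_lit 57666) (nat_lit 152) .nil))))) (.g (nat_lit 0) (.e (nat_lit 411056) (nat_lit 0) .nil) .nil))) 
(.lf (nat_lit 596731) (.g (nat_lit 4298) (.e (nat_lit 573478) (nat_lit 12) (.e (nat_lit 57574) (nat_lit 55) (.e (nat_lit 778466) (nat_lit 11) (.e (nat_lit 24607) (nat_lit 3) (.e (nat_lit 98373) (nat_lit 29) (.e (nat_lit 450587) (nat_lit 10) .nil)))))) (.g (nat_lit 1) (.e (nat_lit 411997) (nat_lit 0) .nil) .nil)))) (.nd (nat_lit 9) 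
(.lf (nat_lit 596475) (.g (nat_lit 3212) (.e (nat_lit 573473) (nat_lit 12) (.e (nat_lit 57503) (nat_lit 38) (.e (nat_lit 638996) (nat_lit 7) (.e (nat_lit 163978) (nat_lit 30) (.e (nat_lit 573487) (nat_lit 14) (.e (nat_lit 73753) (nat_lit 8) (.e (nat_lit 557103) (nat_lit 14) (.e (nat_lit 180250) (nat_lit 10) .nil)))))))) (.g (nat_lit 1) (.e (nat_lit 411529) (nat_lit 0) .nil) .nil))) 
(.lf (nat_lit 596987) (.g (nat_lit 3952) (.e (nat_lit 573481) (nat_lit 13) (.e (nat_lit 65604) (nat_lit 9) (.e (nat_lit 336028) (nat_lit 3) (.e (nat_lit 98367) (nat_lit 27) (.e (nat_lit 434271) (nat_lit 38) (.e (nat_lit 655373) (nat_lit 3) (.e (nat_lit 163975) (nat_lit 30) .nil))))))) (.g (nat_lit 1) (.e (nat_lit 412509) (nat_lit 0) .nil) .nil)))))))))) 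
(.nd (nat_lit 3) (.nd (nat_lit 4) (.nd (nat_lit 5) (.nd (nat_lit 6) (.nd (nat_lit 7) 
(.nd (nat_lit 8) (.nd (nat_lit 9) 
(.lf (nat_lit 595975) (.g (nat_lit 3195) (.e (nat_lit 548913) (nat_lit 18) (.e (nat_lit 172126) (nat_lit 14) (.e (nat_lit 491539) (nat_lit 3) (.e (nat_lit 98370) (nat_lit 28) (.e (nat_lit 442412) (nat_lit 20) (.e (nat_lit 3271) (nat_lit 199) .nil)))))) (.g (nat_lit 1) (.e (nat_lit 410322) (nat_lit 0) .nil) .nil))) 
(.lf (nat_lit 596487) (.g (nat_lit 3966) (.e (nat_lit 573474) (nat_lit 12) (.e (nat_lit 57503) (nat_lit 38) (.e (nat_lit 638994) (nat_lit 7) (.e (nat_lit 163975) (nat_lit 30) (.e (nat_lit 573487) (nat_lit 14) (.e (nat_lit 73753) (nat_lit 8) (.e (nat_lit 557103) (nat_lit 14) (.e (nat_lit 180250) (nat_lit 10) .nil)))))))) (.g (nat_lit 1) (.e (nat_lit 411557) (nat_lit 0) .nil) .nil)))) 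
(.nd (nat_lit 9) 
(.lf (nat_lit 596231) (.g (nat_lit 3148) (.e (nat_lit 573457) (nat_lit 9) (.e (nat_lit 430) (nat_lit 32) (.e (nat_lit 426011) (nat_lit 0) (.e (nat_lit 7583) (nat_lit 405) (.e (nat_lit 57464) (nat_lit 23) (.e (nat_lit 516166) (nat_lit 12) (.e (nat_lit 450587) (nat_lit 10) .nil))))))) (.g (nat_lit 1) (.e (nat_lit 411069) (nat_lit 0) .nil) .nil))) 
(.lf (nat_lit 596743) (.g (nat_lit 1997) (.e (nat_lit 573479) (nat_lit 13) (.e (nat_lit 65604) (nat_lit 9) (.e (nat_lit 336028) (nat_lit 3) (.e (nat_lit 98367) (nat_lit 27) (.e (nat_lit 434215) (nat_lit 18) .nil))))) (.g (nat_lit 0) (.e (nat_lit 412077) (nat_lit 0) .nil) .nil))))) (.nd (nat_lit 8) (.nd (nat_lit 9) 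
(.lf (nat_lit 596103) (.g (nat_lit 5694) (.e (nat_lit 573451) (nat_lit 9) (.e (nat_lit 359) (nat_lit 30) (.e (nat_lit 409602) (nat_lit 0) (.e (nat_lit 5270) (nat_lit 298) (.e (nat_lit 1239) (nat_lit 91) (.e (nat_lit 90170) (nat_lit 13) (.e (nat_lit 172113) (nat_lit 10) (.e (nat_lit 434245) (nat_lit 28) .nil)))))))) (.g (nat_lit 1) (.e (nat_lit 410922) (nat_lit 0) .nil) .nil))) 
(.lf (nat_lit 596615) (.g (nat_lit 2481) (.e (nat_lit 573477) (nat_lit 12) (.e (nat_lit 57574) (nat_lit 55) (.e (nat_lit 778466) (nat_lit 11) (.e (nat_lit 24604) (nat_lit 2) (.e (nat_lit 90167) (nat_lit 13) .nil))))) (.g (nat_lit 0) (.e (nat_lit 411802) (nat_lit 0) .nil) .nil)))) (.nd (nat_lit 9) 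
(.lf (nat_lit 596359) (.g (nat_lit 533) (.e (nat_lit 573470) (nat_lit 11) (.e (nat_lit 16473) (nat_lit 14) (.e (nat_lit 491530) (nat_lit 0) .nil))) (.g (nat_lit 0) (.e (nat_lit 411265) (nat_lit 0) .nil) .nil))) 
(.lf (nat_lit 596871) (.g (nat_lit 1960) (.e (nat_lit 573481) (nat_lit 13) (.e (nat_lit 65604) (nat_lit 9) (.e (nat_lit 336013) (nat_lit 2) (.e (nat_lit 90134) (nat_lit 9) (.e (nat_lit 3055) (nat_lit 190) .nil))))) (.g (nat_lit 0) (.e (nat_lit 412290) (nat_lit 0) .nil) .nil)))))) (.nd (nat_lit 7) (.nd (nat_lit 8) (.nd (nat_lit 9) 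
(.lf (nat_lit 596039) (.g (nat_lit 573) (.e (nat_lit 573445) (nat_lit 0) (.e (nat_lit 3012) (nat_lit 187) (.e (nat_lit 450605) (nat_lit 27) (.e (nat_lit 745475) (nat_lit 0) (.e (nat_lit 1598) (nat_lit 111) (.e (nat_lit 368384) (nat_lit 10) .nil)))))) (.g (nat_lit 1) (.e (nat_lit 410626) (nat_lit 0) .nil) .nil))) 
(.lf (nat_lit 596551) (.g (nat_lit 1145) (.e (nat_lit 573475) (nat_lit 12) (.e (nat_lit 57574) (nat_lit 55) (.e (nat_lit 778466) (nat_lit 11) (.e (nat_lit 24603) (nat_lit 2) .nil)))) (.g (nat_lit 0) (.e (nat_lit 411670) (nat_lit 0) .nil) .nil)))) (.nd (nat_lit 9) 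
(.lf (nat_lit 596295) (.g (nat_lit 1263) (.e (nat_lit 573469) (nat_lit 11) (.e (nat_lit 16470) (nat_lit 14) (.e (nat_lit 491538) (nat_lit 3) .nil))) (.g (nat_lit 0) (.e (nat_lit 411168) (nat_lit 0) .nil) .nil))) 
(.lf (nat_lit 596807) (.g (nat_lit 3837) (.e (nat_lit 573480) (nat_lit 13) (.e (nat_lit 65610) (nat_lit 10) (.e (nat_lit 344117) (nat_lit 21) (.e (nat_lit 516151) (nat_lit 9) (.e (nat_lit 426412) (nat_lit 15) (.e (nat_lit 2057) (nat_lit 142) (.e (nat_lit 704589) (nat_lit 3) (.e (nat_lit 163975) (nat_lit 30) .nil)))))))) (.g (nat_lit 1) (.e (nat_lit 412170) (nat_lit 0) .nil) .nil))))) 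
(.nd (nat_lit 8) (.nd (nat_lit 9) 
(.lf (nat_lit 596167) (.g (nat_lit 2967) (.e (nat_lit 573456) (nat_lit 9) (.e (nat_lit 430) (nat_lit 32) (.e (nat_lit 426009) (nat_lit 0) (.e (nat_lit 7581) (nat_lit 405) (.e (nat_lit 57464) (nat_lit 23) (.e (nat_lit 516166) (nat_lit 12) (.e (nat_lit 450587) (nat_lit 10) .nil))))))) (.g (nat_lit 1) (.e (nat_lit 411002) (nat_lit 0) .nil) .nil))) 
(.lf (nat_lit 596679) (.g (nat_lit 1368) (.e (nat_lit 573477) (nat_lit 12) (.e (nat_lit 57750) (nat_lit 201) (.e (nat_lit 3090) (nat_lit 191) (.e (nat_lit 483363) (nat_lit 18) .nil)))) (.g (nat_lit 0) (.e (nat_lit 411889) (nat_lit 0) .nil) .nil)))) (.nd (nat_lit 9) 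
(.lf (nat_lit 596423) (.g (nat_lit 3048) (.e (nat_lit 573471) (nat_lit 11) (.e (nat_lit 16469) (nat_lit 14) (.e (nat_lit 491536) (nat_lit 2) (.e (nat_lit 90170) (nat_lit 13) (.e (nat_lit 172113) (nat_lit 10) (.e (nat_lit 434245) (nat_lit 28) .nil)))))) (.g (nat_lit 1) (.e (nat_lit 411472) (nat_lit 0) .nil) .nil))) 
(.lf (nat_lit 596935) (.g (nat_lit 3515) (.e (nat_lit 573481) (nat_lit 13) (.e (nat_lit 65604) (nat_lit 9) (.e (nat_lit 336013) (nat_lit 2) (.e (nat_lit 90170) (nat_lit 13) (.e (nat_lit 172061) (nat_lit 1) (.e (nat_lit 164347) (nat_lit 240) (.e (nat_lit 2599) (nat_lit 163) (.e (nat_lit 163976) (nat_lit 30) .nil)))))))) (.g (nat_lit 1) (.e (nat_lit 412379) (nat_lit 0) .nil) .nil))))))) 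
(.nd (nat_lit 6) (.nd (nat_lit 7) (.nd (nat_lit 8) (.nd (nat_lit 9) 
(.lf (nat_lit 596007) (.g (nat_lit 1709) (.e (nat_lit 573444) (nat_lit 0) (.e (nat_lit 3011) (nat_lit 187) (.e (nat_lit 450563) (nat_lit 0) (.e (nat_lit 6830) (nat_lit 367) (.e (nat_lit 57426) (nat_lit 15) (.e (nat_lit 368384) (nat_lit 10) .nil)))))) (.g (nat_lit 1) (.e (nat_lit 410574) (nat_lit 0) .nil) .nil))) 
(.lf (nat_lit 596519) (.g (nat_lit 4037) (.e (nat_lit 573475) (nat_lit 12) (.e (nat_lit 57503) (nat_lit 38) (.e (nat_lit 638995) (nat_lit 7) (.e (nat_lit 163978) (nat_lit 30) (.e (nat_lit 573487) (nat_lit 14) (.e (nat_lit 73754) (nat_lit 8) (.e (nat_lit 557105) (nat_lit 14) (.e (nat_lit 180252) (nat_lit 10) .nil)))))))) (.g (nat_lit 1) (.e (nat_lit 411630) (nat_lit 0) .nil) .nil)))) 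
(.nd (nat_lit 9) 
(.lf (nat_lit 596263) (.g (nat_lit 700) (.e (nat_lit 573469) (nat_lit 11) (.e (nat_lit 16435) (nat_lit 9) (.e (nat_lit 426566) (nat_lit 34) .nil))) (.g (nat_lit 0) (.e (nat_lit 411114) (nat_lit 0) .nil) .nil))) 
(.lf (nat_lit 596775) (.g (nat_lit 1129) (.e (nat_lit 573479) (nat_lit 13) (.e (nat_lit 65619) (nat_lit 10) (.e (nat_lit 344117) (nat_lit 21) (.e (nat_lit 516159) (nat_lit 10) .nil)))) (.g (nat_lit 0) (.e (nat_lit 412109) (nat_lit 0) .nil) .nil))))) (.nd (nat_lit 8) (.nd (nat_lit 9) 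
(.lf (nat_lit 596135) (.g (nat_lit 2882) (.e (nat_lit 573451) (nat_lit 9) (.e (nat_lit 1449) (nat_lit 108) (.e (nat_lit 336013) (nat_lit 2) (.e (nat_lit 90165) (nat_lit 12) (.e (nat_lit 164024) (nat_lit 51) .nil))))) (.g (nat_lit 0) (.e (nat_lit 410956) (nat_lit 0) .nil) .nil))) 
(.lf (nat_lit 596647) (.g (nat_lit 4044) (.e (nat_lit 573477) (nat_lit 12) (.e (nat_lit 57575) (nat_lit 55) (.e (nat_lit 778465) (nat_lit 11) (.e (nat_lit 24604) (nat_lit 2) (.e (nat_lit 90178) (nat_lit 15) (.e (nat_lit 188441) (nat_lit 20) (.e (nat_lit 3304) (nat_lit 202) .nil))))))) (.g (nat_lit 1) (.e (nat_lit 411839) (nat_lit 0) .nil) .nil)))) (.nd (nat_lit 9) 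
(.lf (nat_lit 596391) (.g (nat_lit 1709) (.e (nat_lit 573471) (nat_lit 11) (.e (nat_lit 16446) (nat_lit 9) (.e (nat_lit 426133) (nat_lit 3) (.e (nat_lit 204815) (nat_lit 17) (.e (nat_lit 6724) (nat_lit 362) .nil))))) (.g (nat_lit 0) (.e (nat_lit 411371) (nat_lit 0) .nil) .nil))) 
(.lf (nat_lit 596903) (.g (nat_lit 3185) (.e (nat_lit 573481) (nat_lit 13) (.e (nat_lit 65604) (nat_lit 9) (.e (nat_lit 336013) (nat_lit 2) (.e (nat_lit 90170) (nat_lit 13) (.e (nat_lit 172039) (nat_lit 0) (.e (nat_lit 3397) (nat_lit 211) (.e (nat_lit 647180) (nat_lit 3) (.e (nat_lit 163976) (nat_lit 30) .nil)))))))) (.g (nat_lit 1) (.e (nat_lit 412335) (nat_lit 0) .nil) .nil)))))) 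
(.nd (nat_lit 7) (.nd (nat_lit 8) (.nd (nat_lit 9) 
(.lf (nat_lit 596071) (.g (nat_lit 779) (.e (nat_lit 581376) (nat_lit 6) (.e (nat_lit 188438) (nat_lit 20) (.e (nat_lit 3579) (nat_lit 223) (.e (nat_lit 745475) (nat_lit 0) (.e (nat_lit 1592) (nat_lit 111) .nil))))) (.g (nat_lit 0) (.e (nat_lit 410733) (nat_lit 0) .nil) .nil))) 
(.lf (nat_lit 596583) (.g (nat_lit 2422) (.e (nat_lit 573477) (nat_lit 12) (.e (nat_lit 57574) (nat_lit 55) (.e (nat_lit 778465) (nat_lit 11) (.e (nat_lit 24603) (nat_lit 2) (.e (nat_lit 90176) (nat_lit 15) (.e (nat_lit 188439) (nat_lit 20) (.e (nat_lit 3296) (nat_lit 202) .nil))))))) (.g (nat_lit 1) (.e (nat_lit 411755) (nat_lit 0) .nil) .nil)))) (.nd (nat_lit 9) 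
(.lf (nat_lit 596327) (.g (nat_lit 3988) (.e (nat_lit 573470) (nat_lit 11) (.e (nat_lit 16456) (nat_lit 12) (.e (nat_lit 475185) (nat_lit 29) (.e (nat_lit 557100) (nat_lit 13) (.e (nat_lit 172113) (nat_lit 10) (.e (nat_lit 434248) (nat_lit 28) .nil)))))) (.g (nat_lit 1) (.e (nat_lit 411229) (nat_lit 0) .nil) .nil))) 
(.lf (nat_lit 596839) (.g (nat_lit 1534) (.e (nat_lit 573480) (nat_lit 13) (.e (nat_lit 65630) (nat_lit 14) (.e (nat_lit 401428) (nat_lit 3) (.e (nat_lit 204866) (nat_lit 28) (.e (nat_lit 360192) (nat_lit 0) .nil))))) (.g (nat_lit 0) (.e (nat_lit 412202) (nat_lit 0) .nil) .nil))))) (.nd (nat_lit 8) (.nd (nat_lit 9) 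
(.lf (nat_lit 596199) (.g (nat_lit 1751) (.e (nat_lit 573456) (nat_lit 9) (.e (nat_lit 1312) (nat_lit 98) (.e (nat_lit 147495) (nat_lit 11) (.e (nat_lit 24604) (nat_lit 2) (.e (nat_lit 90178) (nat_lit 15) .nil))))) (.g (nat_lit 0) (.e (nat_lit 411036) (nat_lit 0) .nil) .nil))) 
(.lf (nat_lit 596711) (.g (nat_lit 4473) (.e (nat_lit 573478) (nat_lit 12) (.e (nat_lit 57574) (nat_lit 55) (.e (nat_lit 778465) (nat_lit 11) (.e (nat_lit 24608) (nat_lit 3) (.e (nat_lit 98373) (nat_lit 29) (.e (nat_lit 450587) (nat_lit 10) .nil)))))) (.g (nat_lit 1) (.e (nat_lit 411964) (nat_lit 0) .nil) .nil)))) (.nd (nat_lit 9) 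
(.lf (nat_lit 596455) (.g (nat_lit 533) (.e (nat_lit 573471) (nat_lit 11) (.e (nat_lit 16473) (nat_lit 14) (.e (nat_lit 491536) (nat_lit 2) .nil))) (.g (nat_lit 0) (.e (nat_lit 411507) (nat_lit 0) .nil) .nil))) 
(.lf (nat_lit 596967) (.g (nat_lit 3711) (.e (nat_lit 573481) (nat_lit 13) (.e (nat_lit 65604) (nat_lit 9) (.e (nat_lit 336028) (nat_lit 3) (.e (nat_lit 98359) (nat_lit 26) (.e (nat_lit 426396) (nat_lit 15) (.e (nat_lit 2058) (nat_lit 142) (.e (nat_lit 704589) (nat_lit 3) (.e (nat_lit 163975) (nat_lit 30) .nil)))))))) (.g (nat_lit 1) (.e (nat_lit 412470) (nat_lit 0) .nil) .nil)))))))) 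
(.nd (nat_lit 5) (.nd (nat_lit 6) (.nd (nat_lit 7) (.nd (nat_lit 8) (.nd (nat_lit 9) 
(.lf (nat_lit 595991) (.g (nat_lit 595) (.e (nat_lit 548889) (nat_lit 9) (.e (nat_lit 65628) (nat_lit 14) (.e (nat_lit 401412) (nat_lit 0) .nil))) (.g (nat_lit 0) (.e (nat_lit 410502) (nat_lit 0) .nil) .nil))) 
(.lf (nat_lit 596503) (.g (nat_lit 2820) (.e (nat_lit 573474) (nat_lit 12) (.e (nat_lit 57572) (nat_lit 54) (.e (nat_lit 770072) (nat_lit 8) (.e (nat_lit 65571) (nat_lit 3) (.e (nat_lit 98359) (nat_lit 26) (.e (nat_lit 426286) (nat_lit 10) (.e (nat_lit 434243) (nat_lit 28) .nil))))))) (.g (nat_lit 1) (.e (nat_lit 411581) (nat_lit 0) .nil) .nil)))) (.nd (nat_lit 9) 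
(.lf (nat_lit 596247) (.g (nat_lit 2604) (.e (nat_lit 573460) (nat_lit 9) (.e (nat_lit 426) (nat_lit 32) (.e (nat_lit 426316) (nat_lit 12) (.e (nat_lit 475185) (nat_lit 29) (.e (nat_lit 557107) (nat_lit 15) .nil))))) (.g (nat_lit 0) (.e (nat_lit 411093) (nat_lit 0) .nil) .nil))) 
(.lf (nat_lit 596759) (.g (nat_lit 3283) (.e (nat_lit 573479) (nat_lit 13) (.e (nat_lit 65619) (nat_lit 10) (.e (nat_lit 344117) (nat_lit 21) (.e (nat_lit 516145) (nat_lit 9) (.e (nat_lit 425996) (nat_lit 0) .nil))))) (.g (nat_lit 0) (.e (nat_lit 412093) (nat_lit 0) .nil) .nil))))) (.nd (nat_lit 8) (.nd (nat_lit 9) 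
(.lf (nat_lit 596119) (.g (nat_lit 4710) (.e (nat_lit 573451) (nat_lit 9) (.e (nat_lit 430) (nat_lit 32) (.e (nat_lit 426341) (nat_lit 14) (.e (nat_lit 491537) (nat_lit 2) (.e (nat_lit 90170) (nat_lit 13) (.e (nat_lit 172113) (nat_lit 10) (.e (nat_lit 434245) (nat_lit 28) .nil))))))) (.g (nat_lit 1) (.e (nat_lit 410938) (nat_lit 0) .nil) .nil))) 
(.lf (nat_lit 596631) (.g (nat_lit 3545) (.e (nat_lit 573477) (nat_lit 12) (.e (nat_lit 57574) (nat_lit 55) (.e (nat_lit 778466) (nat_lit 11) (.e (nat_lit 24608) (nat_lit 3) (.e (nat_lit 98372) (nat_lit 29) (.e (nat_lit 450586) (nat_lit 10) .nil)))))) (.g (nat_lit 1) (.e (nat_lit 411821) (nat_lit 0) .nil) .nil)))) (.nd (nat_lit 9) 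
(.lf (nat_lit 596375) (.g (nat_lit 1260) (.e (nat_lit 573471) (nat_lit 11) (.e (nat_lit 16425) (nat_lit 7) (.e (nat_lit 409604) (nat_lit 0) .nil))) (.g (nat_lit 0) (.e (nat_lit 411291) (nat_lit 0) .nil) .nil))) 
(.lf (nat_lit 596887) (.g (nat_lit 3644) (.e (nat_lit 573481) (nat_lit 13) (.e (nat_lit 65604) (nat_lit 9) (.e (nat_lit 336013) (nat_lit 2) (.e (nat_lit 90165) (nat_lit 12) (.e (nat_lit 164208) (nat_lit 176) (.e (nat_lit 2777) (nat_lit 178) (.e (nat_lit 286765) (nat_lit 15) (.e (nat_lit 3298) (nat_lit 202) .nil)))))))) (.g (nat_lit 1) (.e (nat_lit 412308) (nat_lit 0) .nil) .nil)))))) 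
(.nd (nat_lit 7) (.nd (nat_lit 8) (.nd (nat_lit 9) 
(.lf (nat_lit 596055) (.g (nat_lit 938) (.e (nat_lit 573445) (nat_lit 0) (.e (nat_lit 3026) (nat_lit 187) (.e (nat_lit 450605) (nat_lit 27) (.e (nat_lit 745475) (nat_lit 0) (.e (nat_lit 1598) (nat_lit 111) (.e (nat_lit 368384) (nat_lit 10) .nil)))))) (.g (nat_lit 1) (.e (nat_lit 410644) (nat_lit 0) .nil) .nil))) 
(.lf (nat_lit 596567) (.g (nat_lit 3890) (.e (nat_lit 573477) (nat_lit 12) (.e (nat_lit 57352) (nat_lit 0) (.e (nat_lit 7261) (nat_lit 384) (.e (nat_lit 57412) (nat_lit 12) (.e (nat_lit 336001) (nat_lit 2) (.e (nat_lit 90170) (nat_lit 13) (.e (nat_lit 172113) (nat_lit 10) (.e (nat_lit 434247) (nat_lit 28) .nil)))))))) (.g (nat_lit 1) (.e (nat_lit 411736) (nat_lit 0) .nil) .nil)))) 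
(.nd (nat_lit 9) 
(.lf (nat_lit 596311) (.g (nat_lit 3482) (.e (nat_lit 573470) (nat_lit 11) (.e (nat_lit 16385) (nat_lit 0) (.e (nat_lit 7581) (nat_lit 405) (.e (nat_lit 57464) (nat_lit 23) (.e (nat_lit 516151) (nat_lit 9) (.e (nat_lit 426286) (nat_lit 10) (.e (nat_lit 434248) (nat_lit 28) .nil))))))) (.g (nat_lit 1) (.e (nat_lit 411186) (nat_lit 0) .nil) .nil))) 
(.lf (nat_lit 596823) (.g (nat_lit 2302) (.e (nat_lit 573480) (nat_lit 13) (.e (nat_lit 65630) (nat_lit 14) (.e (nat_lit 401425) (nat_lit 2) (.e (nat_lit 196679) (nat_lit 17) .nil)))) (.g (nat_lit 0) (.e (nat_lit 412186) (nat_lit 0) .nil) .nil))))) (.nd (nat_lit 8) (.nd (nat_lit 9) 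
(.lf (nat_lit 596183) (.g (nat_lit 3002) (.e (nat_lit 573456) (nat_lit 9) (.e (nat_lit 430) (nat_lit 32) (.e (nat_lit 426012) (nat_lit 0) (.e (nat_lit 7583) (nat_lit 405) (.e (nat_lit 57464) (nat_lit 23) (.e (nat_lit 516166) (nat_lit 12) (.e (nat_lit 450587) (nat_lit 10) .nil))))))) (.g (nat_lit 1) (.e (nat_lit 411018) (nat_lit 0) .nil) .nil))) 
(.lf (nat_lit 596695) (.g (nat_lit 2183) (.e (nat_lit 573478) (nat_lit 12) (.e (nat_lit 57574) (nat_lit 55) (.e (nat_lit 778362) (nat_lit 9) (.e (nat_lit 297) (nat_lit 22) .nil)))) (.g (nat_lit 0) (.e (nat_lit 411942) (nat_lit 0) .nil) .nil)))) (.nd (nat_lit 9) 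
(.lf (nat_lit 596439) (.g (nat_lit 830) (.e (nat_lit 573471) (nat_lit 11) (.e (nat_lit 16470) (nat_lit 14) (.e (nat_lit 491574) (nat_lit 15) .nil))) (.g (nat_lit 0) (.e (nat_lit 411489) (nat_lit 0) .nil) .nil))) 
(.lf (nat_lit 596951) (.g (nat_lit 2962) (.e (nat_lit 573481) (nat_lit 13) (.e (nat_lit 65604) (nat_lit 9) (.e (nat_lit 336013) (nat_lit 2) (.e (nat_lit 90170) (nat_lit 13) (.e (nat_lit 172137) (nat_lit 15) (.e (nat_lit 2059) (nat_lit 142) (.e (nat_lit 704589) (nat_lit 3) (.e (nat_lit 163976) (nat_lit 30) .nil)))))))) (.g (nat_lit 1) (.e (nat_lit 412406) (nat_lit 0) .nil) .nil))))))) 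
(.nd (nat_lit 6) (.nd (nat_lit 7) (.nd (nat_lit 8) (.nd (nat_lit 9) 
(.lf (nat_lit 596023) (.g (nat_lit 1450) (.e (nat_lit 573444) (nat_lit 0) (.e (nat_lit 3026) (nat_lit 187) (.e (nat_lit 450605) (nat_lit 27) (.e (nat_lit 745476) (nat_lit 0) (.e (nat_lit 1598) (nat_lit 111) (.e (nat_lit 368384) (nat_lit 10) .nil)))))) (.g (nat_lit 1) (.e (nat_lit 410591) (nat_lit 0) .nil) .nil))) 
(.lf (nat_lit 596535) (.g (nat_lit 2135) (.e (nat_lit 573475) (nat_lit 12) (.e (nat_lit 57574) (nat_lit 55) (.e (nat_lit 778362) (nat_lit 9) (.e (nat_lit 297) (nat_lit 22) .nil)))) (.g (nat_lit 0) (.e (nat_lit 411650) (nat_lit 0) .nil) .nil)))) (.nd (nat_lit 9) 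
(.lf (nat_lit 596279) (.g (nat_lit 3410) (.e (nat_lit 573469) (nat_lit 11) (.e (nat_lit 16459) (nat_lit 12) (.e (nat_lit 475185) (nat_lit 29) (.e (nat_lit 557098) (nat_lit 13) (.e (nat_lit 172105) (nat_lit 10) .nil))))) (.g (nat_lit 0) (.e (nat_lit 411152) (nat_lit 0) .nil) .nil))) 
(.lf (nat_lit 596791) (.g (nat_lit 1978) (.e (nat_lit 573479) (nat_lit 13) (.e (nat_lit 65630) (nat_lit 14) (.e (nat_lit 401425) (nat_lit 2) (.e (nat_lit 196674) (nat_lit 15) .nil)))) (.g (nat_lit 0) (.e (nat_lit 412125) (nat_lit 0) .nil) .nil))))) (.nd (nat_lit 8) (.nd (nat_lit 9) 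
(.lf (nat_lit 596151) (.g (nat_lit 2517) (.e (nat_lit 573453) (nat_lit 9) (.e (nat_lit 392) (nat_lit 32) (.e (nat_lit 426316) (nat_lit 12) (.e (nat_lit 475185) (nat_lit 29) (.e (nat_lit 557098) (nat_lit 13) .nil))))) (.g (nat_lit 0) (.e (nat_lit 410982) (nat_lit 0) .nil) .nil))) 
(.lf (nat_lit 596663) (.g (nat_lit 2342) (.e (nat_lit 573477) (nat_lit 12) (.e (nat_lit 57575) (nat_lit 55) (.e (nat_lit 778466) (nat_lit 11) (.e (nat_lit 24604) (nat_lit 2) (.e (nat_lit 90176) (nat_lit 15) (.e (nat_lit 188439) (nat_lit 20) (.e (nat_lit 3306) (nat_lit 202) .nil))))))) (.g (nat_lit 1) (.e (nat_lit 411856) (nat_lit 0) .nil) .nil)))) (.nd (nat_lit 9) 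
(.lf (nat_lit 596407) (.g (nat_lit 2801) (.e (nat_lit 573471) (nat_lit 11) (.e (nat_lit 16455) (nat_lit 12) (.e (nat_lit 475185) (nat_lit 29) (.e (nat_lit 557097) (nat_lit 13) (.e (nat_lit 172115) (nat_lit 10) .nil))))) (.g (nat_lit 0) (.e (nat_lit 411447) (nat_lit 0) .nil) .nil))) 
(.lf (nat_lit 596919) (.g (nat_lit 1989) (.e (nat_lit 573481) (nat_lit 13) (.e (nat_lit 65604) (nat_lit 9) (.e (nat_lit 336013) (nat_lit 2) (.e (nat_lit 90170) (nat_lit 13) (.e (nat_lit 172049) (nat_lit 0) .nil))))) (.g (nat_lit 0) (.e (nat_lit 412356) (nat_lit 0) .nil) .nil)))))) (.nd (nat_lit 7) (.nd (nat_lit 8) (.nd (nat_lit 9) 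
(.lf (nat_lit 596087) (.g (nat_lit 2700) (.e (nat_lit 573449) (nat_lit 9) (.e (nat_lit 1669) (nat_lit 116) (.e (nat_lit 401459) (nat_lit 13) (.e (nat_lit 483363) (nat_lit 18) (.e (nat_lit 57694) (nat_lit 157) .nil))))) (.g (nat_lit 0) (.e (nat_lit 410842) (nat_lit 0) .nil) .nil))) 
(.lf (nat_lit 596599) (.g (nat_lit 2380) (.e (nat_lit 573477) (nat_lit 12) (.e (nat_lit 57574) (nat_lit 55) (.e (nat_lit 778465) (nat_lit 11) (.e (nat_lit 24608) (nat_lit 3) (.e (nat_lit 98374) (nat_lit 29) .nil))))) (.g (nat_lit 0) (.e (nat_lit 411772) (nat_lit 0) .nil) .nil)))) (.nd (nat_lit 9) 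
(.lf (nat_lit 596343) (.g (nat_lit 5089) (.e (nat_lit 573470) (nat_lit 11) (.e (nat_lit 16470) (nat_lit 14) (.e (nat_lit 491537) (nat_lit 2) (.e (nat_lit 90170) (nat_lit 13) (.e (nat_lit 172113) (nat_lit 10) (.e (nat_lit 434242) (nat_lit 28) .nil)))))) (.g (nat_lit 1) (.e (nat_lit 411247) (nat_lit 0) .nil) .nil))) 
(.lf (nat_lit 596855) (.g (nat_lit 2085) (.e (nat_lit 573481) (nat_lit 13) (.e (nat_lit 65568) (nat_lit 2) (.e (nat_lit 90160) (nat_lit 11) (.e (nat_lit 24668) (nat_lit 15) .nil)))) (.g (nat_lit 0) (.e (nat_lit 412246) (nat_lit 0) .nil) .nil))))) (.nd (nat_lit 8) (.nd (nat_lit 9) 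
(.lf (nat_lit 596215) (.g (nat_lit 2591) (.e (nat_lit 573456) (nat_lit 9) (.e (nat_lit 1669) (nat_lit 116) (.e (nat_lit 401459) (nat_lit 13) (.e (nat_lit 483363) (nat_lit 18) (.e (nat_lit 57658) (nat_lit 152) .nil))))) (.g (nat_lit 0) (.e (nat_lit 411052) (nat_lit 0) .nil) .nil))) 
(.lf (nat_lit 596727) (.g (nat_lit 3260) (.e (nat_lit 573478) (nat_lit 12) (.e (nat_lit 57574) (nat_lit 55) (.e (nat_lit 778466) (nat_lit 11) (.e (nat_lit 24604) (nat_lit 2) (.e (nat_lit 90176) (nat_lit 15) (.e (nat_lit 188439) (nat_lit 20) (.e (nat_lit 3296) (nat_lit 202) .nil))))))) (.g (nat_lit 1) (.e (nat_lit 411992) (nat_lit 0) .nil) .nil)))) (.nd (nat_lit 9) 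
(.lf (nat_lit 596471) (.g (nat_lit 4034) (.e (nat_lit 573473) (nat_lit 12) (.e (nat_lit 57348) (nat_lit 0) (.e (nat_lit 7265) (nat_lit 384) (.e (nat_lit 57412) (nat_lit 12) (.e (nat_lit 336001) (nat_lit 2) (.e (nat_lit 90170) (nat_lit 13) (.e (nat_lit 172113) (nat_lit 10) (.e (nat_lit 434245) (nat_lit 28) .nil)))))))) (.g (nat_lit 1) (.e (nat_lit 411525) (nat_lit 0) .nil) .nil))) 
(.lf (nat_lit 596983) (.g (nat_lit 2558) (.e (nat_lit 573481) (nat_lit 13) (.e (nat_lit 65604) (nat_lit 9) (.e (nat_lit 336028) (nat_lit 3) (.e (nat_lit 98363) (nat_lit 26) (.e (nat_lit 426419) (nat_lit 15) (.e (nat_lit 2059) (nat_lit 142) (.e (nat_lit 704589) (nat_lit 3) (.e (nat_lit 163976) (nat_lit 30) .nil)))))))) (.g (nat_lit 1) (.e (nat_lit 412489) (nat_lit 0) .nil) .nil))))))))) 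
(.nd (nat_lit 4) (.nd (nat_lit 5) (.nd (nat_lit 6) (.nd (nat_lit 7) (.nd (nat_lit 8) 
(.nd (nat_lit 9) 
(.lf (nat_lit 595983) (.g (nat_lit 541) (.e (nat_lit 548915) (nat_lit 20) (.e (nat_lit 188447) (nat_lit 22) (.e (nat_lit 196639) (nat_lit 9) .nil))) (.g (nat_lit 0) (.e (nat_lit 410430) (nat_lit 0) .nil) .nil))) 
(.lf (nat_lit 596495) (.g (nat_lit 3351) (.e (nat_lit 573474) (nat_lit 12) (.e (nat_lit 57504) (nat_lit 38) (.e (nat_lit 638995) (nat_lit 7) (.e (nat_lit 163979) (nat_lit 30) (.e (nat_lit 573487) (nat_lit 14) (.e (nat_lit 73753) (nat_lit 8) (.e (nat_lit 557103) (nat_lit 14) (.e (nat_lit 180250) (nat_lit 10) .nil)))))))) (.g (nat_lit 1) (.e (nat_lit 411565) (nat_lit 0) .nil) .nil)))) 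
(.nd (nat_lit 9) 
(.lf (nat_lit 596239) (.g (nat_lit 4469) (.e (nat_lit 573458) (nat_lit 9) (.e (nat_lit 394) (nat_lit 32) (.e (nat_lit 426316) (nat_lit 12) (.e (nat_lit 475185) (nat_lit 29) (.e (nat_lit 557107) (nat_lit 15) (.e (nat_lit 188440) (nat_lit 20) (.e (nat_lit 3307) (nat_lit 202) .nil))))))) (.g (nat_lit 1) (.e (nat_lit 411081) (nat_lit 0) .nil) .nil))) 
(.lf (nat_lit 596751) (.g (nat_lit 3866) (.e (nat_lit 573479) (nat_lit 13) (.e (nat_lit 65619) (nat_lit 10) (.e (nat_lit 344117) (nat_lit 21) (.e (nat_lit 516099) (nat_lit 0) (.e (nat_lit 7366) (nat_lit 388) .nil))))) (.g (nat_lit 0) (.e (nat_lit 412085) (nat_lit 0) .nil) .nil))))) (.nd (nat_lit 8) (.nd (nat_lit 9) 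
(.lf (nat_lit 596111) (.g (nat_lit 3924) (.e (nat_lit 573451) (nat_lit 9) (.e (nat_lit 430) (nat_lit 32) (.e (nat_lit 426009) (nat_lit 0) (.e (nat_lit 7581) (nat_lit 405) (.e (nat_lit 57464) (nat_lit 23) (.e (nat_lit 516151) (nat_lit 9) (.e (nat_lit 426286) (nat_lit 10) (.e (nat_lit 434245) (nat_lit 28) .nil)))))))) (.g (nat_lit 1) (.e (nat_lit 410930) (nat_lit 0) .nil) .nil))) 
(.lf (nat_lit 596623) (.g (nat_lit 2477) (.e (nat_lit 573477) (nat_lit 12) (.e (nat_lit 57574) (nat_lit 55) (.e (nat_lit 778466) (nat_lit 11) (.e (nat_lit 24604) (nat_lit 2) (.e (nat_lit 90177) (nat_lit 15) .nil))))) (.g (nat_lit 0) (.e (nat_lit 411810) (nat_lit 0) .nil) .nil)))) (.nd (nat_lit 9) 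
(.lf (nat_lit 596367) (.g (nat_lit 3793) (.e (nat_lit 573471) (nat_lit 11) (.e (nat_lit 16385) (nat_lit 0) (.e (nat_lit 7583) (nat_lit 405) (.e (nat_lit 57464) (nat_lit 23) (.e (nat_lit 516151) (nat_lit 9) (.e (nat_lit 426286) (nat_lit 10) (.e (nat_lit 434245) (nat_lit 28) .nil))))))) (.g (nat_lit 1) (.e (nat_lit 411276) (nat_lit 0) .nil) .nil))) 
(.lf (nat_lit 596879) (.g (nat_lit 4199) (.e (nat_lit 573481) (nat_lit 13) (.e (nat_lit 65604) (nat_lit 9) (.e (nat_lit 336013) (nat_lit 2) (.e (nat_lit 90134) (nat_lit 9) (.e (nat_lit 3098) (nat_lit 192) (.e (nat_lit 491550) (nat_lit 9) (.e (nat_lit 336306) (nat_lit 15) (.e (nat_lit 3298) (nat_lit 202) .nil)))))))) (.g (nat_lit 1) (.e (nat_lit 412299) (nat_lit 0) .nil) .nil)))))) 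
(.nd (nat_lit 7) (.nd (nat_lit 8) (.nd (nat_lit 9) 
(.lf (nat_lit 596047) (.g (nat_lit 570) (.e (nat_lit 573445) (nat_lit 0) (.e (nat_lit 3020) (nat_lit 187) (.e (nat_lit 450605) (nat_lit 27) (.e (nat_lit 745475) (nat_lit 0) (.e (nat_lit 1598) (nat_lit 111) (.e (nat_lit 368384) (nat_lit 10) .nil)))))) (.g (nat_lit 1) (.e (nat_lit 410634) (nat_lit 0) .nil) .nil))) 
(.lf (nat_lit 596559) (.g (nat_lit 1642) (.e (nat_lit 573475) (nat_lit 12) (.e (nat_lit 57750) (nat_lit 201) (.e (nat_lit 2856) (nat_lit 184) (.e (nat_lit 426537) (nat_lit 28) .nil)))) (.g (nat_lit 0) (.e (nat_lit 411699) (nat_lit 0) .nil) .nil)))) (.nd (nat_lit 9) 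
(.lf (nat_lit 596303) (.g (nat_lit 1130) (.e (nat_lit 573469) (nat_lit 11) (.e (nat_lit 16473) (nat_lit 14) (.e (nat_lit 491521) (nat_lit 0) (.e (nat_lit 1810) (nat_lit 120) .nil)))) (.g (nat_lit 0) (.e (nat_lit 411176) (nat_lit 0) .nil) .nil))) 
(.lf (nat_lit 596815) (.g (nat_lit 3013) (.e (nat_lit 573480) (nat_lit 13) (.e (nat_lit 65618) (nat_lit 10) (.e (nat_lit 344117) (nat_lit 21) (.e (nat_lit 516179) (nat_lit 15) (.e (nat_lit 475199) (nat_lit 40) .nil))))) (.g (nat_lit 0) (.e (nat_lit 412178) (nat_lit 0) .nil) .nil))))) (.nd (nat_lit 8) (.nd (nat_lit 9) 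
(.lf (nat_lit 596175) (.g (nat_lit 3412) (.e (nat_lit 573456) (nat_lit 9) (.e (nat_lit 430) (nat_lit 32) (.e (nat_lit 426011) (nat_lit 0) (.e (nat_lit 7583) (nat_lit 405) (.e (nat_lit 57464) (nat_lit 23) (.e (nat_lit 516166) (nat_lit 12) (.e (nat_lit 450587) (nat_lit 10) .nil))))))) (.g (nat_lit 1) (.e (nat_lit 411010) (nat_lit 0) .nil) .nil))) 
(.lf (nat_lit 596687) (.g (nat_lit 2206) (.e (nat_lit 573477) (nat_lit 12) (.e (nat_lit 57750) (nat_lit 201) (.e (nat_lit 3090) (nat_lit 191) (.e (nat_lit 483364) (nat_lit 18) (.e (nat_lit 57670) (nat_lit 152) .nil))))) (.g (nat_lit 0) (.e (nat_lit 411910) (nat_lit 0) .nil) .nil)))) (.nd (nat_lit 9) 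
(.lf (nat_lit 596431) (.g (nat_lit 4027) (.e (nat_lit 573471) (nat_lit 11) (.e (nat_lit 16470) (nat_lit 14) (.e (nat_lit 491537) (nat_lit 2) (.e (nat_lit 90170) (nat_lit 13) (.e (nat_lit 172110) (nat_lit 10) (.e (nat_lit 434246) (nat_lit 28) .nil)))))) (.g (nat_lit 1) (.e (nat_lit 411481) (nat_lit 0) .nil) .nil))) 
(.lf (nat_lit 596943) (.g (nat_lit 1731) (.e (nat_lit 573481) (nat_lit 13) (.e (nat_lit 65604) (nat_lit 9) (.e (nat_lit 336013) (nat_lit 2) (.e (nat_lit 90170) (nat_lit 13) (.e (nat_lit 172070) (nat_lit 4) .nil))))) (.g (nat_lit 0) (.e (nat_lit 412395) (nat_lit 0) .nil) .nil))))))) (.nd (nat_lit 6) (.nd (nat_lit 7) (.nd (nat_lit 8) (.nd (nat_lit 9) 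
(.lf (nat_lit 596015) (.g (nat_lit 1339) (.e (nat_lit 573444) (nat_lit 0) (.e (nat_lit 3011) (nat_lit 187) (.e (nat_lit 450605) (nat_lit 27) (.e (nat_lit 745476) (nat_lit 0) (.e (nat_lit 1598) (nat_lit 111) (.e (nat_lit 368384) (nat_lit 10) .nil)))))) (.g (nat_lit 1) (.e (nat_lit 410582) (nat_lit 0) .nil) .nil))) 
(.lf (nat_lit 596527) (.g (nat_lit 2101) (.e (nat_lit 573475) (nat_lit 12) (.e (nat_lit 57572) (nat_lit 54) (.e (nat_lit 770071) (nat_lit 8) (.e (nat_lit 65568) (nat_lit 2) (.e (nat_lit 90178) (nat_lit 15) (.e (nat_lit 188440) (nat_lit 20) (.e (nat_lit 3307) (nat_lit 202) .nil))))))) (.g (nat_lit 1) (.e (nat_lit 411639) (nat_lit 0) .nil) .nil)))) (.nd (nat_lit 9) 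
(.lf (nat_lit 596271) (.g (nat_lit 1239) (.e (nat_lit 573469) (nat_lit 11) (.e (nat_lit 16446) (nat_lit 9) (.e (nat_lit 426133) (nat_lit 3) (.e (nat_lit 204885) (nat_lit 33) .nil)))) (.g (nat_lit 0) (.e (nat_lit 411127) (nat_lit 0) .nil) .nil))) 
(.lf (nat_lit 596783) (.g (nat_lit 2043) (.e (nat_lit 573479) (nat_lit 13) (.e (nat_lit 65619) (nat_lit 10) (.e (nat_lit 344117) (nat_lit 21) (.e (nat_lit 516170) (nat_lit 13) (.e (nat_lit 458774) (nat_lit 18) .nil))))) (.g (nat_lit 0) (.e (nat_lit 412117) (nat_lit 0) .nil) .nil))))) (.nd (nat_lit 8) (.nd (nat_lit 9) 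
(.lf (nat_lit 596143) (.g (nat_lit 1878) (.e (nat_lit 573452) (nat_lit 9) (.e (nat_lit 498) (nat_lit 40) (.e (nat_lit 491565) (nat_lit 12) (.e (nat_lit 385068) (nat_lit 26) (.e (nat_lit 532515) (nat_lit 3) .nil))))) (.g (nat_lit 0) (.e (nat_lit 410971) (nat_lit 0) .nil) .nil))) 
(.lf (nat_lit 596655) (.g (nat_lit 2440) (.e (nat_lit 573477) (nat_lit 12) (.e (nat_lit 57575) (nat_lit 55) (.e (nat_lit 778466) (nat_lit 11) (.e (nat_lit 24593) (nat_lit 0) (.e (nat_lit 1712) (nat_lit 117) .nil))))) (.g (nat_lit 0) (.e (nat_lit 411848) (nat_lit 0) .nil) .nil)))) (.nd (nat_lit 9) 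
(.lf (nat_lit 596399) (.g (nat_lit 3922) (.e (nat_lit 573471) (nat_lit 11) (.e (nat_lit 16448) (nat_lit 10) (.e (nat_lit 434231) (nat_lit 23) (.e (nat_lit 532482) (nat_lit 0) (.e (nat_lit 6722) (nat_lit 362) (.e (nat_lit 180252) (nat_lit 10) .nil)))))) (.g (nat_lit 1) (.e (nat_lit 411399) (nat_lit 0) .nil) .nil))) 
(.lf (nat_lit 596911) (.g (nat_lit 3753) (.e (nat_lit 573481) (nat_lit 13) (.e (nat_lit 65604) (nat_lit 9) (.e (nat_lit 336013) (nat_lit 2) (.e (nat_lit 90170) (nat_lit 13) (.e (nat_lit 172042) (nat_lit 0) (.e (nat_lit 3408) (nat_lit 212) (.e (nat_lit 655373) (nat_lit 3) (.e (nat_lit 163975) (nat_lit 30) .nil)))))))) (.g (nat_lit 1) (.e (nat_lit 412345) (nat_lit 0) .nil) .nil)))))) 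
(.nd (nat_lit 7) (.nd (nat_lit 8) (.nd (nat_lit 9) 
(.lf (nat_lit 596079) (.g (nat_lit 2075) (.e (nat_lit 573449) (nat_lit 9) (.e (nat_lit 391) (nat_lit 32) (.e (nat_lit 426316) (nat_lit 12) (.e (nat_lit 475185) (nat_lit 29) (.e (nat_lit 557107) (nat_lit 15) .nil))))) (.g (nat_lit 0) (.e (nat_lit 410800) (nat_lit 0) .nil) .nil))) 
(.lf (nat_lit 596591) (.g (nat_lit 3267) (.e (nat_lit 573477) (nat_lit 12) (.e (nat_lit 57574) (nat_lit 55) (.e (nat_lit 778465) (nat_lit 11) (.e (nat_lit 24604) (nat_lit 2) (.e (nat_lit 90178) (nat_lit 15) (.e (nat_lit 188436) (nat_lit 20) (.e (nat_lit 3307) (nat_lit 202) .nil))))))) (.g (nat_lit 1) (.e (nat_lit 411763) (nat_lit 0) .nil) .nil)))) (.nd (nat_lit 9) 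
(.lf (nat_lit 596335) (.g (nat_lit 2840) (.e (nat_lit 573470) (nat_lit 11) (.e (nat_lit 16461) (nat_lit 12) (.e (nat_lit 475184) (nat_lit 29) (.e (nat_lit 557100) (nat_lit 13) (.e (nat_lit 172113) (nat_lit 10) (.e (nat_lit 434245) (nat_lit 28) .nil)))))) (.g (nat_lit 1) (.e (nat_lit 411238) (nat_lit 0) .nil) .nil))) 
(.lf (nat_lit 596847) (.g (nat_lit 3635) (.e (nat_lit 573481) (nat_lit 13) (.e (nat_lit 65563) (nat_lit 1) (.e (nat_lit 57926) (nat_lit 282) (.e (nat_lit 163943) (nat_lit 19) (.e (nat_lit 483346) (nat_lit 17) (.e (nat_lit 6712) (nat_lit 360) (.e (nat_lit 163975) (nat_lit 30) .nil))))))) (.g (nat_lit 1) (.e (nat_lit 412222) (nat_lit 0) .nil) .nil))))) (.nd (nat_lit 8) (.nd (nat_lit 9) 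
(.lf (nat_lit 596207) (.g (nat_lit 1344) (.e (nat_lit 573456) (nat_lit 9) (.e (nat_lit 1669) (nat_lit 116) (.e (nat_lit 401459) (nat_lit 13) (.e (nat_lit 483343) (nat_lit 17) .nil)))) (.g (nat_lit 0) (.e (nat_lit 411044) (nat_lit 0) .nil) .nil))) 
(.lf (nat_lit 596719) (.g (nat_lit 1377) (.e (nat_lit 573478) (nat_lit 12) (.e (nat_lit 57574) (nat_lit 55) (.e (nat_lit 778466) (nat_lit 11) (.e (nat_lit 24589) (nat_lit 0) .nil)))) (.g (nat_lit 0) (.e (nat_lit 411975) (nat_lit 0) .nil) .nil)))) (.nd (nat_lit 9) 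
(.lf (nat_lit 596463) (.g (nat_lit 1727) (.e (nat_lit 581376) (nat_lit 11) (.e (nat_lit 16473) (nat_lit 14) (.e (nat_lit 491535) (nat_lit 2) (.e (nat_lit 90178) (nat_lit 15) (.e (nat_lit 188442) (nat_lit 20) .nil))))) (.g (nat_lit 0) (.e (nat_lit 411517) (nat_lit 0) .nil) .nil))) 
(.lf (nat_lit 596975) (.g (nat_lit 3722) (.e (nat_lit 573481) (nat_lit 13) (.e (nat_lit 65604) (nat_lit 9) (.e (nat_lit 336028) (nat_lit 3) (.e (nat_lit 98359) (nat_lit 26) (.e (nat_lit 426412) (nat_lit 15) (.e (nat_lit 2056) (nat_lit 142) (.e (nat_lit 704589) (nat_lit 3) (.e (nat_lit 163976) (nat_lit 30) .nil)))))))) (.g (nat_lit 1) (.e (nat_lit 412480) (nat_lit 0) .nil) .nil)))))))) 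
(.nd (nat_lit 5) (.nd (nat_lit 6) (.nd (nat_lit 7) (.nd (nat_lit 8) (.nd (nat_lit 9) 
(.lf (nat_lit 595999) (.g (nat_lit 2460) (.e (nat_lit 548890) (nat_lit 10) (.e (nat_lit 73782) (nat_lit 32) (.e (nat_lit 2664) (nat_lit 167) (.e (nat_lit 196672) (nat_lit 15) (.e (nat_lit 81943) (nat_lit 20) (.e (nat_lit 1842) (nat_lit 123) .nil)))))) (.g (nat_lit 1) (.e (nat_lit 410519) (nat_lit 0) .nil) .nil))) 
(.lf (nat_lit 596511) (.g (nat_lit 1520) (.e (nat_lit 573474) (nat_lit 12) (.e (nat_lit 57574) (nat_lit 55) (.e (nat_lit 778466) (nat_lit 11) (.e (nat_lit 24589) (nat_lit 0) .nil)))) (.g (nat_lit 0) (.e (nat_lit 411593) (nat_lit 0) .nil) .nil)))) (.nd (nat_lit 9) 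
(.lf (nat_lit 596255) (.g (nat_lit 3823) (.e (nat_lit 573469) (nat_lit 11) (.e (nat_lit 16388) (nat_lit 0) (.e (nat_lit 7581) (nat_lit 405) (.e (nat_lit 57464) (nat_lit 23) (.e (nat_lit 516166) (nat_lit 12) (.e (nat_lit 450587) (nat_lit 10) .nil)))))) (.g (nat_lit 1) (.e (nat_lit 411103) (nat_lit 0) .nil) .nil))) 
(.lf (nat_lit 596767) (.g (nat_lit 2812) (.e (nat_lit 573479) (nat_lit 13) (.e (nat_lit 65619) (nat_lit 10) (.e (nat_lit 344117) (nat_lit 21) (.e (nat_lit 516151) (nat_lit 9) (.e (nat_lit 426042) (nat_lit 0) .nil))))) (.g (nat_lit 0) (.e (nat_lit 412101) (nat_lit 0) .nil) .nil))))) (.nd (nat_lit 8) (.nd (nat_lit 9) 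
(.lf (nat_lit 596127) (.g (nat_lit 2046) (.e (nat_lit 573451) (nat_lit 9) (.e (nat_lit 498) (nat_lit 40) (.e (nat_lit 491563) (nat_lit 12) (.e (nat_lit 385068) (nat_lit 26) .nil)))) (.g (nat_lit 0) (.e (nat_lit 410946) (nat_lit 0) .nil) .nil))) 
(.lf (nat_lit 596639) (.g (nat_lit 1466) (.e (nat_lit 573477) (nat_lit 12) (.e (nat_lit 57575) (nat_lit 55) (.e (nat_lit 778465) (nat_lit 11) (.e (nat_lit 24601) (nat_lit 2) .nil)))) (.g (nat_lit 0) (.e (nat_lit 411831) (nat_lit 0) .nil) .nil)))) (.nd (nat_lit 9) 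
(.lf (nat_lit 596383) (.g (nat_lit 553) (.e (nat_lit 573471) (nat_lit 11) (.e (nat_lit 16433) (nat_lit 9) (.e (nat_lit 426128) (nat_lit 2) .nil))) (.g (nat_lit 0) (.e (nat_lit 411323) (nat_lit 0) .nil) .nil))) 
(.lf (nat_lit 596895) (.g (nat_lit 2701) (.e (nat_lit 573481) (nat_lit 13) (.e (nat_lit 65604) (nat_lit 9) (.e (nat_lit 336013) (nat_lit 2) (.e (nat_lit 90170) (nat_lit 13) (.e (nat_lit 172032) (nat_lit 0) (.e (nat_lit 3402) (nat_lit 211) (.e (nat_lit 647180) (nat_lit 3) (.e (nat_lit 163976) (nat_lit 30) .nil)))))))) (.g (nat_lit 1) (.e (nat_lit 412326) (nat_lit 0) .nil) .nil)))))) 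
(.nd (nat_lit 7) (.nd (nat_lit 8) (.nd (nat_lit 9) 
(.lf (nat_lit 596063) (.g (nat_lit 846) (.e (nat_lit 581376) (nat_lit 6) (.e (nat_lit 188434) (nat_lit 20) (.e (nat_lit 3578) (nat_lit 223) (.e (nat_lit 745475) (nat_lit 0) (.e (nat_lit 1592) (nat_lit 111) .nil))))) (.g (nat_lit 0) (.e (nat_lit 410725) (nat_lit 0) .nil) .nil))) 
(.lf (nat_lit 596575) (.g (nat_lit 470) (.e (nat_lit 573477) (nat_lit 12) (.e (nat_lit 57574) (nat_lit 55) (.e (nat_lit 778464) (nat_lit 11) .nil))) (.g (nat_lit 0) (.e (nat_lit 411746) (nat_lit 0) .nil) .nil)))) (.nd (nat_lit 9) 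
(.lf (nat_lit 596319) (.g (nat_lit 1504) (.e (nat_lit 573470) (nat_lit 11) (.e (nat_lit 16446) (nat_lit 9) (.e (nat_lit 426133) (nat_lit 3) (.e (nat_lit 204815) (nat_lit 17) .nil)))) (.g (nat_lit 0) (.e (nat_lit 411198) (nat_lit 0) .nil) .nil))) 
(.lf (nat_lit 596831) (.g (nat_lit 1378) (.e (nat_lit 573480) (nat_lit 13) (.e (nat_lit 65630) (nat_lit 14) (.e (nat_lit 401427) (nat_lit 3) (.e (nat_lit 204858) (nat_lit 26) .nil)))) (.g (nat_lit 0) (.e (nat_lit 412194) (nat_lit 0) .nil) .nil))))) (.nd (nat_lit 8) (.nd (nat_lit 9) 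
(.lf (nat_lit 596191) (.g (nat_lit 3953) (.e (nat_lit 573456) (nat_lit 9) (.e (nat_lit 430) (nat_lit 32) (.e (nat_lit 426344) (nat_lit 14) (.e (nat_lit 491526) (nat_lit 0) (.e (nat_lit 1788) (nat_lit 119) (.e (nat_lit 516166) (nat_lit 12) (.e (nat_lit 450587) (nat_lit 10) .nil))))))) (.g (nat_lit 1) (.e (nat_lit 411028) (nat_lit 0) .nil) .nil))) 
(.lf (nat_lit 596703) (.g (nat_lit 2147) (.e (nat_lit 573478) (nat_lit 12) (.e (nat_lit 57574) (nat_lit 55) (.e (nat_lit 778464) (nat_lit 11) (.e (nat_lit 24607) (nat_lit 3) (.e (nat_lit 98374) (nat_lit 29) .nil))))) (.g (nat_lit 0) (.e (nat_lit 411952) (nat_lit 0) .nil) .nil)))) (.nd (nat_lit 9) 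
(.lf (nat_lit 596447) (.g (nat_lit 834) (.e (nat_lit 573471) (nat_lit 11) (.e (nat_lit 16471) (nat_lit 14) (.e (nat_lit 491538) (nat_lit 3) (.e (nat_lit 98374) (nat_lit 29) .nil)))) (.g (nat_lit 0) (.e (nat_lit 411497) (nat_lit 0) .nil) .nil))) 
(.lf (nat_lit 596959) (.g (nat_lit 3616) (.e (nat_lit 573481) (nat_lit 13) (.e (nat_lit 65604) (nat_lit 9) (.e (nat_lit 336028) (nat_lit 3) (.e (nat_lit 98325) (nat_lit 17) (.e (nat_lit 6986) (nat_lit 377) (.e (nat_lit 2779) (nat_lit 178) (.e (nat_lit 286765) (nat_lit 15) (.e (nat_lit 3298) (nat_lit 202) .nil)))))))) (.g (nat_lit 1) (.e (nat_lit 412419) (nat_lit 0) .nil) .nil))))))) 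
(.nd (nat_lit 6) (.nd (nat_lit 7) (.nd (nat_lit 8) (.nd (nat_lit 9) 
(.lf (nat_lit 596031) (.g (nat_lit 1479) (.e (nat_lit 573445) (nat_lit 0) (.e (nat_lit 3011) (nat_lit 187) (.e (nat_lit 450605) (nat_lit 27) (.e (nat_lit 745476) (nat_lit 0) (.e (nat_lit 1586) (nat_lit 111) (.e (nat_lit 368384) (nat_lit 10) .nil)))))) (.g (nat_lit 1) (.e (nat_lit 410617) (nat_lit 0) .nil) .nil))) 
(.lf (nat_lit 596543) (.g (nat_lit 994) (.e (nat_lit 573475) (nat_lit 12) (.e (nat_lit 57574) (nat_lit 55) (.e (nat_lit 778465) (nat_lit 11) (.e (nat_lit 24603) (nat_lit 2) .nil)))) (.g (nat_lit 0) (.e (nat_lit 411660) (nat_lit 0) .nil) .nil)))) (.nd (nat_lit 9) 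
(.lf (nat_lit 596287) (.g (nat_lit 4206) (.e (nat_lit 573469) (nat_lit 11) (.e (nat_lit 16461) (nat_lit 12) (.e (nat_lit 475185) (nat_lit 29) (.e (nat_lit 557107) (nat_lit 15) (.e (nat_lit 188440) (nat_lit 20) (.e (nat_lit 3307) (nat_lit 202) .nil)))))) (.g (nat_lit 1) (.e (nat_lit 411160) (nat_lit 0) .nil) .nil))) 
(.lf (nat_lit 596799) (.g (nat_lit 2488) (.e (nat_lit 573480) (nat_lit 13) (.e (nat_lit 65571) (nat_lit 3) (.e (nat_lit 98313) (nat_lit 9) (.e (nat_lit 336288) (nat_lit 15) (.e (nat_lit 7936) (nat_lit 195) .nil))))) (.g (nat_lit 0) (.e (nat_lit 412155) (nat_lit 0) .nil) .nil))))) (.nd (nat_lit 8) (.nd (nat_lit 9) 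
(.lf (nat_lit 596159) (.g (nat_lit 1064) (.e (nat_lit 573455) (nat_lit 9) (.e (nat_lit 430) (nat_lit 32) (.e (nat_lit 426343) (nat_lit 14) (.e (nat_lit 491538) (nat_lit 3) .nil)))) (.g (nat_lit 0) (.e (nat_lit 410994) (nat_lit 0) .nil) .nil))) 
(.lf (nat_lit 596671) (.g (nat_lit 3327) (.e (nat_lit 573477) (nat_lit 12) (.e (nat_lit 57575) (nat_lit 55) (.e (nat_lit 778466) (nat_lit 11) (.e (nat_lit 24608) (nat_lit 3) (.e (nat_lit 98365) (nat_lit 26) (.e (nat_lit 426298) (nat_lit 11) (.e (nat_lit 458794) (nat_lit 28) .nil))))))) (.g (nat_lit 1) (.e (nat_lit 411865) (nat_lit 0) .nil) .nil)))) (.nd (nat_lit 9) 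
(.lf (nat_lit 596415) (.g (nat_lit 3245) (.e (nat_lit 573471) (nat_lit 11) (.e (nat_lit 16459) (nat_lit 12) (.e (nat_lit 475185) (nat_lit 29) (.e (nat_lit 557097) (nat_lit 13) (.e (nat_lit 172115) (nat_lit 10) .nil))))) (.g (nat_lit 0) (.e (nat_lit 411463) (nat_lit 0) .nil) .nil))) 
(.lf (nat_lit 596927) (.g (nat_lit 3579) (.e (nat_lit 573481) (nat_lit 13) (.e (nat_lit 65604) (nat_lit 9) (.e (nat_lit 336013) (nat_lit 2) (.e (nat_lit 90170) (nat_lit 13) (.e (nat_lit 172059) (nat_lit 1) (.e (nat_lit 164347) (nat_lit 240) (.e (nat_lit 2599) (nat_lit 163) (.e (nat_lit 163976) (nat_lit 30) .nil)))))))) (.g (nat_lit 1) (.e (nat_lit 412369) (nat_lit 0) .nil) .nil)))))) 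
(.nd (nat_lit 7) (.nd (nat_lit 8) (.nd (nat_lit 9) 
(.lf (nat_lit 596095) (.g (nat_lit 3893) (.e (nat_lit 573450) (nat_lit 9) (.e (nat_lit 375) (nat_lit 32) (.e (nat_lit 426345) (nat_lit 14) (.e (nat_lit 491537) (nat_lit 2) (.e (nat_lit 90170) (nat_lit 13) (.e (nat_lit 172106) (nat_lit 10) (.e (nat_lit 434244) (nat_lit 28) .nil))))))) (.g (nat_lit 1) (.e (nat_lit 410857) (nat_lit 0) .nil) .nil))) 
(.lf (nat_lit 596607) (.g (nat_lit 1248) (.e (nat_lit 573477) (nat_lit 12) (.e (nat_lit 57574) (nat_lit 55) (.e (nat_lit 778466) (nat_lit 11) (.e (nat_lit 24602) (nat_lit 2) .nil)))) (.g (nat_lit 0) (.e (nat_lit 411782) (nat_lit 0) .nil) .nil)))) (.nd (nat_lit 9) 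
(.lf (nat_lit 596351) (.g (nat_lit 1758) (.e (nat_lit 573470) (nat_lit 11) (.e (nat_lit 16471) (nat_lit 14) (.e (nat_lit 491536) (nat_lit 2) (.e (nat_lit 90170) (nat_lit 13) (.e (nat_lit 172113) (nat_lit 10) .nil))))) (.g (nat_lit 0) (.e (nat_lit 411256) (nat_lit 0) .nil) .nil))) 
(.lf (nat_lit 596863) (.g (nat_lit 3202) (.e (nat_lit 573481) (nat_lit 13) (.e (nat_lit 65598) (nat_lit 9) (.e (nat_lit 336013) (nat_lit 2) (.e (nat_lit 90168) (nat_lit 13) (.e (nat_lit 172133) (nat_lit 15) .nil))))) (.g (nat_lit 0) (.e (nat_lit 412280) (nat_lit 0) .nil) .nil))))) (.nd (nat_lit 8) (.nd (nat_lit 9) 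
(.lf (nat_lit 596223) (.g (nat_lit 2449) (.e (nat_lit 573456) (nat_lit 9) (.e (nat_lit 1669) (nat_lit 116) (.e (nat_lit 401459) (nat_lit 13) (.e (nat_lit 483364) (nat_lit 18) (.e (nat_lit 57664) (nat_lit 152) .nil))))) (.g (nat_lit 0) (.e (nat_lit 411060) (nat_lit 0) .nil) .nil))) 
(.lf (nat_lit 596735) (.g (nat_lit 488) (.e (nat_lit 573479) (nat_lit 13) (.e (nat_lit 65604) (nat_lit 9) (.e (nat_lit 336013) (nat_lit 2) .nil))) (.g (nat_lit 0) (.e (nat_lit 412069) (nat_lit 0) .nil) .nil)))) (.nd (nat_lit 9) 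
(.lf (nat_lit 596479) (.g (nat_lit 3511) (.e (nat_lit 573473) (nat_lit 12) (.e (nat_lit 57572) (nat_lit 54) (.e (nat_lit 770072) (nat_lit 8) (.e (nat_lit 65568) (nat_lit 2) (.e (nat_lit 90170) (nat_lit 13) (.e (nat_lit 172113) (nat_lit 10) (.e (nat_lit 434242) (nat_lit 28) .nil))))))) (.g (nat_lit 1) (.e (nat_lit 411535) (nat_lit 0) .nil) .nil))) 
(.lf (nat_lit 596991) (.g (nat_lit 3413) (.e (nat_lit 573481) (nat_lit 13) (.e (nat_lit 65604) (nat_lit 9) (.e (nat_lit 336028) (nat_lit 3) (.e (nat_lit 98383) (nat_lit 32) (.e (nat_lit 475199) (nat_lit 40) (.e (nat_lit 704589) (nat_lit 3) (.e (nat_lit 163976) (nat_lit 30) .nil))))))) (.g (nat_lit 1) (.e (nat_lit 412514) (nat_lit 0) .nil) .nil)))))))))))))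

noncomputable def tv5643 : DT := (.nd (nat_lit 0) (.nd (nat_lit 1) (.nd (nat_lit 2) (.nd (nat_lit 3) (.nd (nat_lit 4) (.nd (nat_lit 5) (.nd (nat_lit 6) (.nd (nat_lit 7) (.nd (nat_lit 8) (.nd (nat_lit 9) 
(.lf (nat_lit 596992) (.g (nat_lit 4268) (.e (nat_lit 573481) (nat_lit 13) (.e (nat_lit 65604) (nat_lit 9) (.e (nat_lit 336028) (nat_lit 3) (.e (nat_lit 98383) (nat_lit 32) (.e (nat_lit 475199) (nat_lit 40) (.e (nat_lit 704590) (nat_lit 3) (.e (nat_lit 163975) (nat_lit 30) .nil))))))) (.g (nat_lit 1) (.e (nat_lit 412515) (nat_lit 0) .nil) .nil))) 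
(.lf (nat_lit 597504) (.g (nat_lit 5005) (.e (nat_lit 573482) (nat_lit 13) (.e (nat_lit 65604) (nat_lit 9) (.e (nat_lit 336028) (nat_lit 3) (.e (nat_lit 98359) (nat_lit 26) (.e (nat_lit 426097) (nat_lit 1) (.e (nat_lit 164348) (nat_lit 240) (.e (nat_lit 2610) (nat_lit 163) (.e (nat_lit 163979) (nat_lit 30) .nil)))))))) (.g (nat_lit 1) (.e (nat_lit 413170) (nat_lit 0) .nil) .nil)))) 
(.nd (nat_lit 9) 
(.lf (nat_lit 597248) (.g (nat_lit 3805) (.e (nat_lit 573481) (nat_lit 13) (.e (nat_lit 65619) (nat_lit 10) (.e (nat_lit 344117) (nat_lit 21) (.e (nat_lit 516178) (nat_lit 15) (.e (nat_lit 475199) (nat_lit 40) (.e (nat_lit 704589) (nat_lit 3) (.e (nat_lit 163976) (nat_lit 30) .nil))))))) (.g (nat_lit 1) (.e (nat_lit 412808) (nat_lit 0) .nil) .nil))) 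
(.lf (nat_lit 597760) (.g (nat_lit 2147) (.e (nat_lit 573482) (nat_lit 13) (.e (nat_lit 65619) (nat_lit 10) (.e (nat_lit 344117) (nat_lit 21) (.e (nat_lit 516170) (nat_lit 13) (.e (nat_lit 458774) (nat_lit 18) .nil))))) (.g (nat_lit 0) (.e (nat_lit 413434) (nat_lit 0) .nil) .nil))))) (.nd (nat_lit 8) (.nd (nat_lit 9) 
(.lf (nat_lit 597120) (.g (nat_lit 2444) (.e (nat_lit 573481) (nat_lit 13) (.e (nat_lit 65619) (nat_lit 10) (.e (nat_lit 344117) (nat_lit 21) (.e (nat_lit 516145) (nat_lit 9) (.e (nat_lit 426416) (nat_lit 15) .nil))))) (.g (nat_lit 0) (.e (nat_lit 412660) (nat_lit 0) .nil) .nil))) 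
(.lf (nat_lit 597632) (.g (nat_lit 2413) (.e (nat_lit 573482) (nat_lit 13) (.e (nat_lit 65619) (nat_lit 10) (.e (nat_lit 344117) (nat_lit 21) (.e (nat_lit 516151) (nat_lit 9) (.e (nat_lit 426022) (nat_lit 0) .nil))))) (.g (nat_lit 0) (.e (nat_lit 413306) (nat_lit 0) .nil) .nil)))) (.nd (nat_lit 9) 
(.lf (nat_lit 597376) (.g (nat_lit 2693) (.e (nat_lit 573482) (nat_lit 13) (.e (nat_lit 65604) (nat_lit 9) (.e (nat_lit 336013) (nat_lit 2) (.e (nat_lit 90134) (nat_lit 9) (.e (nat_lit 3096) (nat_lit 192) (.e (nat_lit 491550) (nat_lit 9) (.e (nat_lit 336306) (nat_lit 15) (.e (nat_lit 3308) (nat_lit 202) .nil)))))))) (.g (nat_lit 1) (.e (nat_lit 413039) (nat_lit 0) .nil) .nil))) 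
(.lf (nat_lit 597888) (.g (nat_lit 3156) (.e (nat_lit 573483) (nat_lit 13) (.e (nat_lit 65610) (nat_lit 10) (.e (nat_lit 344117) (nat_lit 21) (.e (nat_lit 516151) (nat_lit 9) (.e (nat_lit 426396) (nat_lit 15) .nil))))) (.g (nat_lit 0) (.e (nat_lit 413624) (nat_lit 0) .nil) .nil)))))) (.nd (nat_lit 7) (.nd (nat_lit 8) (.nd (nat_lit 9) 
(.lf (nat_lit 597056) (.g (nat_lit 2577) (.e (nat_lit 573481) (nat_lit 13) (.e (nat_lit 65619) (nat_lit 10) (.e (nat_lit 344117) (nat_lit 21) (.e (nat_lit 516143) (nat_lit 9) (.e (nat_lit 426144) (nat_lit 4) (.e (nat_lit 229665) (nat_lit 240) (.e (nat_lit 2602) (nat_lit 163) (.e (nat_lit 163976) (nat_lit 30) .nil)))))))) (.g (nat_lit 1) (.e (nat_lit 412596) (nat_lit 0) .nil) .nil))) 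
(.lf (nat_lit 597568) (.g (nat_lit 3814) (.e (nat_lit 573482) (nat_lit 13) (.e (nat_lit 65619) (nat_lit 10) (.e (nat_lit 344117) (nat_lit 21) (.e (nat_lit 516143) (nat_lit 9) (.e (nat_lit 426109) (nat_lit 1) (.e (nat_lit 164345) (nat_lit 240) (.e (nat_lit 2600) (nat_lit 163) (.e (nat_lit 163977) (nat_lit 30) .nil)))))))) (.g (nat_lit 1) (.e (nat_lit 413242) (nat_lit 0) .nil) .nil)))) 
(.nd (nat_lit 9) 
(.lf (nat_lit 597312) (.g (nat_lit 1553) (.e (nat_lit 573481) (nat_lit 13) (.e (nat_lit 65628) (nat_lit 14) (.e (nat_lit 401425) (nat_lit 2) (.e (nat_lit 196681) (nat_lit 17) .nil)))) (.g (nat_lit 0) (.e (nat_lit 412912) (nat_lit 0) .nil) .nil))) 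
(.lf (nat_lit 597824) (.g (nat_lit 2911) (.e (nat_lit 573482) (nat_lit 13) (.e (nat_lit 65619) (nat_lit 10) (.e (nat_lit 344129) (nat_lit 26) (.e (nat_lit 557087) (nat_lit 11) (.e (nat_lit 24597) (nat_lit 1) (.e (nat_lit 57770) (nat_lit 227) (.e (nat_lit 2610) (nat_lit 163) (.e (nat_lit 163979) (nat_lit 30) .nil)))))))) (.g (nat_lit 1) (.e (nat_lit 413519) (nat_lit 0) .nil) .nil))))) 
(.nd (nat_lit 8) (.nd (nat_lit 9) 
(.lf (nat_lit 597184) (.g (nat_lit 3103) (.e (nat_lit 573481) (nat_lit 13) (.e (nat_lit 65619) (nat_lit 10) (.e (nat_lit 344117) (nat_lit 21) (.e (nat_lit 516151) (nat_lit 9) (.e (nat_lit 426042) (nat_lit 0) (.e (nat_lit 3408) (nat_lit 212) (.e (nat_lit 655373) (nat_lit 3) (.e (nat_lit 163976) (nat_lit 30) .nil)))))))) (.g (nat_lit 1) (.e (nat_lit 412724) (nat_lit 0) .nil) .nil))) 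
(.lf (nat_lit 597696) (.g (nat_lit 4316) (.e (nat_lit 573482) (nat_lit 13) (.e (nat_lit 65619) (nat_lit 10) (.e (nat_lit 344117) (nat_lit 21) (.e (nat_lit 516151) (nat_lit 9) (.e (nat_lit 426103) (nat_lit 1) (.e (nat_lit 164348) (nat_lit 240) (.e (nat_lit 2610) (nat_lit 163) (.e (nat_lit 163979) (nat_lit 30) .nil)))))))) (.g (nat_lit 1) (.e (nat_lit 413370) (nat_lit 0) .nil) .nil)))) 
(.nd (nat_lit 9) 
(.lf (nat_lit 597440) (.g (nat_lit 3418) (.e (nat_lit 573482) (nat_lit 13) (.e (nat_lit 65604) (nat_lit 9) (.e (nat_lit 336013) (nat_lit 2) (.e (nat_lit 90170) (nat_lit 13) (.e (nat_lit 172055) (nat_lit 0) .nil))))) (.g (nat_lit 0) (.e (nat_lit 413103) (nat_lit 0) .nil) .nil))) 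
(.lf (nat_lit 597952) (.g (nat_lit 1085) (.e (nat_lit 573484) (nat_lit 13) (.e (nat_lit 65610) (nat_lit 10) (.e (nat_lit 344117) (nat_lit 21) (.e (nat_lit 516144) (nat_lit 9) .nil)))) (.g (nat_lit 0) (.e (nat_lit 413745) (nat_lit 0) .nil) .nil))))))) (.nd (nat_lit 6) (.nd (nat_lit 7) (.nd (nat_lit 8) (.nd (nat_lit 9) 
(.lf (nat_lit 597024) (.g (nat_lit 3647) (.e (nat_lit 573481) (nat_lit 13) (.e (nat_lit 65613) (nat_lit 10) (.e (nat_lit 344118) (nat_lit 21) (.e (nat_lit 516179) (nat_lit 15) (.e (nat_lit 475199) (nat_lit 40) (.e (nat_lit 704589) (nat_lit 3) (.e (nat_lit 163976) (nat_lit 30) .nil))))))) (.g (nat_lit 1) (.e (nat_lit 412547) (nat_lit 0) .nil) .nil))) 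
(.lf (nat_lit 597536) (.g (nat_lit 3617) (.e (nat_lit 573482) (nat_lit 13) (.e (nat_lit 65616) (nat_lit 10) (.e (nat_lit 344133) (nat_lit 26) (.e (nat_lit 557087) (nat_lit 11) (.e (nat_lit 24625) (nat_lit 9) (.e (nat_lit 336261) (nat_lit 15) (.e (nat_lit 3308) (nat_lit 202) .nil))))))) (.g (nat_lit 1) (.e (nat_lit 413206) (nat_lit 0) .nil) .nil)))) (.nd (nat_lit 9) 
(.lf (nat_lit 597280) (.g (nat_lit 1730) (.e (nat_lit 573481) (nat_lit 13) (.e (nat_lit 65619) (nat_lit 10) (.e (nat_lit 344117) (nat_lit 21) (.e (nat_lit 516185) (nat_lit 16) (.e (nat_lit 491552) (nat_lit 9) .nil))))) (.g (nat_lit 0) (.e (nat_lit 412840) (nat_lit 0) .nil) .nil))) 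
(.lf (nat_lit 597792) (.g (nat_lit 2382) (.e (nat_lit 573482) (nat_lit 13) (.e (nat_lit 65619) (nat_lit 10) (.e (nat_lit 344129) (nat_lit 26) (.e (nat_lit 557066) (nat_lit 9) (.e (nat_lit 244) (nat_lit 21) .nil))))) (.g (nat_lit 0) (.e (nat_lit 413479) (nat_lit 0) .nil) .nil))))) (.nd (nat_lit 8) (.nd (nat_lit 9) 
(.lf (nat_lit 597152) (.g (nat_lit 2428) (.e (nat_lit 573481) (nat_lit 13) (.e (nat_lit 65619) (nat_lit 10) (.e (nat_lit 344117) (nat_lit 21) (.e (nat_lit 516151) (nat_lit 9) (.e (nat_lit 426003) (nat_lit 0) (.e (nat_lit 3401) (nat_lit 211) (.e (nat_lit 647180) (nat_lit 3) (.e (nat_lit 163976) (nat_lit 30) .nil)))))))) (.g (nat_lit 1) (.e (nat_lit 412692) (nat_lit 0) .nil) .nil))) 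
(.lf (nat_lit 597664) (.g (nat_lit 3024) (.e (nat_lit 573482) (nat_lit 13) (.e (nat_lit 65619) (nat_lit 10) (.e (nat_lit 344117) (nat_lit 21) (.e (nat_lit 516151) (nat_lit 9) (.e (nat_lit 426042) (nat_lit 0) (.e (nat_lit 2427) (nat_lit 157) (.e (nat_lit 5537) (nat_lit 306) (.e (nat_lit 2610) (nat_lit 163) (.e (nat_lit 163979) (nat_lit 30) .nil))))))))) (.g (nat_lit 1) (.e (nat_lit 413338) (nat_lit 0) .nil) .nil)))) 
(.nd (nat_lit 9) 
(.lf (nat_lit 597408) (.g (nat_lit 3019) (.e (nat_lit 573482) (nat_lit 13) (.e (nat_lit 65604) (nat_lit 9) (.e (nat_lit 336013) (nat_lit 2) (.e (nat_lit 90170) (nat_lit 13) (.e (nat_lit 172041) (nat_lit 0) (.e (nat_lit 3403) (nat_lit 212) (.e (nat_lit 655373) (nat_lit 3) (.e (nat_lit 163979) (nat_lit 30) .nil)))))))) (.g (nat_lit 1) (.e (nat_lit 413071) (nat_lit 0) .nil) .nil))) 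
(.lf (nat_lit 597920) (.g (nat_lit 1753) (.e (nat_lit 573484) (nat_lit 13) (.e (nat_lit 65610) (nat_lit 10) (.e (nat_lit 344117) (nat_lit 21) (.e (nat_lit 516097) (nat_lit 0) .nil)))) (.g (nat_lit 0) (.e (nat_lit 413685) (nat_lit 0) .nil) .nil)))))) (.nd (nat_lit 7) (.nd (nat_lit 8) (.nd (nat_lit 9) 
(.lf (nat_lit 597088) (.g (nat_lit 3280) (.e (nat_lit 573481) (nat_lit 13) (.e (nat_lit 65619) (nat_lit 10) (.e (nat_lit 344117) (nat_lit 21) (.e (nat_lit 516145) (nat_lit 9) (.e (nat_lit 426360) (nat_lit 15) .nil))))) (.g (nat_lit 0) (.e (nat_lit 412628) (nat_lit 0) .nil) .nil))) 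
(.lf (nat_lit 597600) (.g (nat_lit 3683) (.e (nat_lit 573482) (nat_lit 13) (.e (nat_lit 65619) (nat_lit 10) (.e (nat_lit 344117) (nat_lit 21) (.e (nat_lit 516145) (nat_lit 9) (.e (nat_lit 426364) (nat_lit 15) (.e (nat_lit 2160) (nat_lit 143) (.e (nat_lit 712719) (nat_lit 15) (.e (nat_lit 3304) (nat_lit 202) .nil)))))))) (.g (nat_lit 1) (.e (nat_lit 413274) (nat_lit 0) .nil) .nil)))) 
(.nd (nat_lit 9) 
(.lf (nat_lit 597344) (.g (nat_lit 1270) (.e (nat_lit 573481) (nat_lit 13) (.e (nat_lit 65630) (nat_lit 14) (.e (nat_lit 401428) (nat_lit 3) (.e (nat_lit 204876) (nat_lit 31) .nil)))) (.g (nat_lit 0) (.e (nat_lit 412949) (nat_lit 0) .nil) .nil))) 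
(.lf (nat_lit 597856) (.g (nat_lit 1866) (.e (nat_lit 573482) (nat_lit 13) (.e (nat_lit 65619) (nat_lit 10) (.e (nat_lit 344129) (nat_lit 26) (.e (nat_lit 557087) (nat_lit 11) (.e (nat_lit 32512) (nat_lit 12) .nil))))) (.g (nat_lit 0) (.e (nat_lit 413553) (nat_lit 0) .nil) .nil))))) (.nd (nat_lit 8) (.nd (nat_lit 9) 
(.lf (nat_lit 597216) (.g (nat_lit 4030) (.e (nat_lit 573481) (nat_lit 13) (.e (nat_lit 65619) (nat_lit 10) (.e (nat_lit 344117) (nat_lit 21) (.e (nat_lit 516151) (nat_lit 9) (.e (nat_lit 426396) (nat_lit 15) (.e (nat_lit 2058) (nat_lit 142) (.e (nat_lit 704589) (nat_lit 3) (.e (nat_lit 163975) (nat_lit 30) .nil)))))))) (.g (nat_lit 1) (.e (nat_lit 412759) (nat_lit 0) .nil) .nil))) 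
(.lf (nat_lit 597728) (.g (nat_lit 4297) (.e (nat_lit 573482) (nat_lit 13) (.e (nat_lit 65619) (nat_lit 10) (.e (nat_lit 344117) (nat_lit 21) (.e (nat_lit 516159) (nat_lit 10) (.e (nat_lit 434209) (nat_lit 18) (.e (nat_lit 5547) (nat_lit 306) (.e (nat_lit 2611) (nat_lit 163) (.e (nat_lit 163977) (nat_lit 30) .nil)))))))) (.g (nat_lit 1) (.e (nat_lit 413402) (nat_lit 0) .nil) .nil)))) 
(.nd (nat_lit 9) 
(.lf (nat_lit 597472) (.g (nat_lit 3934) (.e (nat_lit 573482) (nat_lit 13) (.e (nat_lit 65604) (nat_lit 9) (.e (nat_lit 336013) (nat_lit 2) (.e (nat_lit 90170) (nat_lit 13) (.e (nat_lit 172068) (nat_lit 4) (.e (nat_lit 229678) (nat_lit 244) (.e (nat_lit 163850) (nat_lit 0) (.e (nat_lit 3306) (nat_lit 202) .nil)))))))) (.g (nat_lit 1) (.e (nat_lit 413135) (nat_lit 0) .nil) .nil))) 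
(.lf (nat_lit 597984) (.g (nat_lit 3602) (.e (nat_lit 573484) (nat_lit 13) (.e (nat_lit 65610) (nat_lit 10) (.e (nat_lit 344117) (nat_lit 21) (.e (nat_lit 516151) (nat_lit 9) (.e (nat_lit 426038) (nat_lit 0) (.e (nat_lit 3403) (nat_lit 212) (.e (nat_lit 655373) (nat_lit 3) (.e (nat_lit 163978) (nat_lit 30) .nil)))))))) (.g (nat_lit 1) (.e (nat_lit 413836) (nat_lit 0) .nil) .nil)))))))) 
(.nd (nat_lit 5) (.nd (nat_lit 6) (.nd (nat_lit 7) (.nd (nat_lit 8) (.nd (nat_lit 9) 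
(.lf (nat_lit 597008) (.g (nat_lit 3863) (.e (nat_lit 573481) (nat_lit 13) (.e (nat_lit 65609) (nat_lit 10) (.e (nat_lit 344117) (nat_lit 21) (.e (nat_lit 516151) (nat_lit 9) (.e (nat_lit 426412) (nat_lit 15) (.e (nat_lit 2058) (nat_lit 142) (.e (nat_lit 704589) (nat_lit 3) (.e (nat_lit 163976) (nat_lit 30) .nil)))))))) (.g (nat_lit 1) (.e (nat_lit 412531) (nat_lit 0) .nil) .nil))) 
(.lf (nat_lit 597520) (.g (nat_lit 2295) (.e (nat_lit 573482) (nat_lit 13) (.e (nat_lit 65604) (nat_lit 9) (.e (nat_lit 336028) (nat_lit 3) (.e (nat_lit 98367) (nat_lit 27) (.e (nat_lit 434209) (nat_lit 18) (.e (nat_lit 5548) (nat_lit 306) (.e (nat_lit 2601) (nat_lit 163) (.e (nat_lit 163974) (nat_lit 30) .nil)))))))) (.g (nat_lit 1) (.e (nat_lit 413189) (nat_lit 0) .nil) .nil)))) 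
(.nd (nat_lit 9) 
(.lf (nat_lit 597264) (.g (nat_lit 3483) (.e (nat_lit 573481) (nat_lit 13) (.e (nat_lit 65619) (nat_lit 10) (.e (nat_lit 344117) (nat_lit 21) (.e (nat_lit 516181) (nat_lit 15) (.e (nat_lit 475197) (nat_lit 40) (.e (nat_lit 704589) (nat_lit 3) (.e (nat_lit 163975) (nat_lit 30) .nil))))))) (.g (nat_lit 1) (.e (nat_lit 412824) (nat_lit 0) .nil) .nil))) 
(.lf (nat_lit 597776) (.g (nat_lit 3060) (.e (nat_lit 573482) (nat_lit 13) (.e (nat_lit 65619) (nat_lit 10) (.e (nat_lit 344117) (nat_lit 21) (.e (nat_lit 516185) (nat_lit 16) (.e (nat_lit 491547) (nat_lit 9) (.e (nat_lit 336306) (nat_lit 15) (.e (nat_lit 3298) (nat_lit 202) .nil))))))) (.g (nat_lit 1) (.e (nat_lit 413450) (nat_lit 0) .nil) .nil))))) (.nd (nat_lit 8) (.nd (nat_lit 9) 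
(.lf (nat_lit 597136) (.g (nat_lit 2930) (.e (nat_lit 573481) (nat_lit 13) (.e (nat_lit 65619) (nat_lit 10) (.e (nat_lit 344117) (nat_lit 21) (.e (nat_lit 516145) (nat_lit 9) (.e (nat_lit 433920) (nat_lit 24) .nil))))) (.g (nat_lit 0) (.e (nat_lit 412676) (nat_lit 0) .nil) .nil))) 
(.lf (nat_lit 597648) (.g (nat_lit 4201) (.e (nat_lit 573482) (nat_lit 13) (.e (nat_lit 65619) (nat_lit 10) (.e (nat_lit 344117) (nat_lit 21) (.e (nat_lit 516151) (nat_lit 9) (.e (nat_lit 426038) (nat_lit 0) (.e (nat_lit 2458) (nat_lit 157) (.e (nat_lit 5547) (nat_lit 306) (.e (nat_lit 2611) (nat_lit 163) (.e (nat_lit 163979) (nat_lit 30) .nil))))))))) (.g (nat_lit 1) (.e (nat_lit 413322) (nat_lit 0) .nil) .nil)))) 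
(.nd (nat_lit 9) 
(.lf (nat_lit 597392) (.g (nat_lit 2697) (.e (nat_lit 573482) (nat_lit 13) (.e (nat_lit 65604) (nat_lit 9) (.e (nat_lit 336013) (nat_lit 2) (.e (nat_lit 90170) (nat_lit 13) (.e (nat_lit 172034) (nat_lit 0) .nil))))) (.g (nat_lit 0) (.e (nat_lit 413055) (nat_lit 0) .nil) .nil))) 
(.lf (nat_lit 597904) (.g (nat_lit 498) (.e (nat_lit 573484) (nat_lit 13) (.e (nat_lit 65568) (nat_lit 2) (.e (nat_lit 98048) (nat_lit 2) .nil))) (.g (nat_lit 0) (.e (nat_lit 413643) (nat_lit 0) .nil) .nil)))))) (.nd (nat_lit 7) (.nd (nat_lit 8) (.nd (nat_lit 9) 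
(.lf (nat_lit 597072) (.g (nat_lit 2893) (.e (nat_lit 573481) (nat_lit 13) (.e (nat_lit 65619) (nat_lit 10) (.e (nat_lit 344117) (nat_lit 21) (.e (nat_lit 516144) (nat_lit 9) (.e (nat_lit 426420) (nat_lit 15) (.e (nat_lit 2056) (nat_lit 142) (.e (nat_lit 704589) (nat_lit 3) (.e (nat_lit 163976) (nat_lit 30) .nil)))))))) (.g (nat_lit 1) (.e (nat_lit 412612) (nat_lit 0) .nil) .nil))) 
(.lf (nat_lit 597584) (.g (nat_lit 3245) (.e (nat_lit 573482) (nat_lit 13) (.e (nat_lit 65619) (nat_lit 10) (.e (nat_lit 344117) (nat_lit 21) (.e (nat_lit 516145) (nat_lit 9) (.e (nat_lit 433920) (nat_lit 1) (.e (nat_lit 164348) (nat_lit 240) (.e (nat_lit 2601) (nat_lit 163) (.e (nat_lit 163977) (nat_lit 30) .nil)))))))) (.g (nat_lit 1) (.e (nat_lit 413258) (nat_lit 0) .nil) .nil)))) 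
(.nd (nat_lit 9) 
(.lf (nat_lit 597328) (.g (nat_lit 2176) (.e (nat_lit 573481) (nat_lit 13) (.e (nat_lit 65630) (nat_lit 14) (.e (nat_lit 401425) (nat_lit 2) (.e (nat_lit 196674) (nat_lit 15) (.e (nat_lit 89856) (nat_lit 0) .nil))))) (.g (nat_lit 0) (.e (nat_lit 412933) (nat_lit 0) .nil) .nil))) 
(.lf (nat_lit 597840) (.g (nat_lit 2309) (.e (nat_lit 573482) (nat_lit 13) (.e (nat_lit 65619) (nat_lit 10) (.e (nat_lit 344129) (nat_lit 26) (.e (nat_lit 557087) (nat_lit 11) (.e (nat_lit 24624) (nat_lit 9) (.e (nat_lit 336261) (nat_lit 15) (.e (nat_lit 3308) (nat_lit 202) .nil))))))) (.g (nat_lit 1) (.e (nat_lit 413537) (nat_lit 0) .nil) .nil))))) (.nd (nat_lit 8) (.nd (nat_lit 9) 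
(.lf (nat_lit 597200) (.g (nat_lit 4010) (.e (nat_lit 573481) (nat_lit 13) (.e (nat_lit 65619) (nat_lit 10) (.e (nat_lit 344117) (nat_lit 21) (.e (nat_lit 516151) (nat_lit 9) (.e (nat_lit 426104) (nat_lit 1) (.e (nat_lit 164345) (nat_lit 240) (.e (nat_lit 2599) (nat_lit 163) (.e (nat_lit 163975) (nat_lit 30) .nil)))))))) (.g (nat_lit 1) (.e (nat_lit 412741) (nat_lit 0) .nil) .nil))) 
(.lf (nat_lit 597712) (.g (nat_lit 3836) (.e (nat_lit 573482) (nat_lit 13) (.e (nat_lit 65619) (nat_lit 10) (.e (nat_lit 344117) (nat_lit 21) (.e (nat_lit 516151) (nat_lit 9) (.e (nat_lit 426367) (nat_lit 15) .nil))))) (.g (nat_lit 0) (.e (nat_lit 413386) (nat_lit 0) .nil) .nil)))) (.nd (nat_lit 9) 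
(.lf (nat_lit 597456) (.g (nat_lit 3394) (.e (nat_lit 573482) (nat_lit 13) (.e (nat_lit 65604) (nat_lit 9) (.e (nat_lit 336013) (nat_lit 2) (.e (nat_lit 90170) (nat_lit 13) (.e (nat_lit 172060) (nat_lit 1) (.e (nat_lit 164345) (nat_lit 240) (.e (nat_lit 2601) (nat_lit 163) (.e (nat_lit 163979) (nat_lit 30) .nil)))))))) (.g (nat_lit 1) (.e (nat_lit 413119) (nat_lit 0) .nil) .nil))) 
(.lf (nat_lit 597968) (.g (nat_lit 3594) (.e (nat_lit 573484) (nat_lit 13) (.e (nat_lit 65610) (nat_lit 10) (.e (nat_lit 344117) (nat_lit 21) (.e (nat_lit 516151) (nat_lit 9) (.e (nat_lit 426034) (nat_lit 0) (.e (nat_lit 2458) (nat_lit 157) (.e (nat_lit 5546) (nat_lit 306) (.e (nat_lit 2610) (nat_lit 163) (.e (nat_lit 163978) (nat_lit 30) .nil))))))))) (.g (nat_lit 1) (.e (nat_lit 413782) (nat_lit 0) .nil) .nil))))))) 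
(.nd (nat_lit 6) (.nd (nat_lit 7) (.nd (nat_lit 8) (.nd (nat_lit 9) 
(.lf (nat_lit 597040) (.g (nat_lit 3654) (.e (nat_lit 573481) (nat_lit 13) (.e (nat_lit 65619) (nat_lit 10) (.e (nat_lit 344117) (nat_lit 21) (.e (nat_lit 516102) (nat_lit 0) (.e (nat_lit 6989) (nat_lit 377) (.e (nat_lit 2777) (nat_lit 178) (.e (nat_lit 286765) (nat_lit 15) (.e (nat_lit 3298) (nat_lit 202) .nil)))))))) (.g (nat_lit 1) (.e (nat_lit 412569) (nat_lit 0) .nil) .nil))) 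
(.lf (nat_lit 597552) (.g (nat_lit 4060) (.e (nat_lit 573482) (nat_lit 13) (.e (nat_lit 65619) (nat_lit 10) (.e (nat_lit 344117) (nat_lit 21) (.e (nat_lit 516102) (nat_lit 0) (.e (nat_lit 6989) (nat_lit 377) (.e (nat_lit 2777) (nat_lit 178) (.e (nat_lit 286765) (nat_lit 15) (.e (nat_lit 3308) (nat_lit 202) .nil)))))))) (.g (nat_lit 1) (.e (nat_lit 413223) (nat_lit 0) .nil) .nil)))) 
(.nd (nat_lit 9) 
(.lf (nat_lit 597296) (.g (nat_lit 1976) (.e (nat_lit 573481) (nat_lit 13) (.e (nat_lit 65619) (nat_lit 10) (.e (nat_lit 344129) (nat_lit 26) (.e (nat_lit 557074) (nat_lit 9) (.e (nat_lit 278) (nat_lit 21) .nil))))) (.g (nat_lit 0) (.e (nat_lit 412871) (nat_lit 0) .nil) .nil))) 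
(.lf (nat_lit 597808) (.g (nat_lit 1758) (.e (nat_lit 573482) (nat_lit 13) (.e (nat_lit 65619) (nat_lit 10) (.e (nat_lit 344129) (nat_lit 26) (.e (nat_lit 557074) (nat_lit 9) (.e (nat_lit 282) (nat_lit 21) .nil))))) (.g (nat_lit 0) (.e (nat_lit 413503) (nat_lit 0) .nil) .nil))))) (.nd (nat_lit 8) (.nd (nat_lit 9) 
(.lf (nat_lit 597168) (.g (nat_lit 3729) (.e (nat_lit 573481) (nat_lit 13) (.e (nat_lit 65619) (nat_lit 10) (.e (nat_lit 344117) (nat_lit 21) (.e (nat_lit 516151) (nat_lit 9) (.e (nat_lit 426042) (nat_lit 0) (.e (nat_lit 2458) (nat_lit 157) (.e (nat_lit 5546) (nat_lit 306) (.e (nat_lit 2600) (nat_lit 163) (.e (nat_lit 163976) (nat_lit 30) .nil))))))))) (.g (nat_lit 1) (.e (nat_lit 412708) (nat_lit 0) .nil) .nil))) 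
(.lf (nat_lit 597680) (.g (nat_lit 3737) (.e (nat_lit 573482) (nat_lit 13) (.e (nat_lit 65619) (nat_lit 10) (.e (nat_lit 344117) (nat_lit 21) (.e (nat_lit 516151) (nat_lit 9) (.e (nat_lit 426042) (nat_lit 0) (.e (nat_lit 3408) (nat_lit 212) (.e (nat_lit 655373) (nat_lit 3) (.e (nat_lit 163979) (nat_lit 30) .nil)))))))) (.g (nat_lit 1) (.e (nat_lit 413354) (nat_lit 0) .nil) .nil)))) 
(.nd (nat_lit 9) 
(.lf (nat_lit 597424) (.g (nat_lit 2640) (.e (nat_lit 573482) (nat_lit 13) (.e (nat_lit 65604) (nat_lit 9) (.e (nat_lit 336013) (nat_lit 2) (.e (nat_lit 90170) (nat_lit 13) (.e (nat_lit 172046) (nat_lit 0) (.e (nat_lit 2478) (nat_lit 157) (.e (nat_lit 5543) (nat_lit 306) (.e (nat_lit 2611) (nat_lit 163) (.e (nat_lit 163979) (nat_lit 30) .nil))))))))) (.g (nat_lit 1) (.e (nat_lit 413087) (nat_lit 0) .nil) .nil))) 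
(.lf (nat_lit 597936) (.g (nat_lit 1951) (.e (nat_lit 573484) (nat_lit 13) (.e (nat_lit 65610) (nat_lit 10) (.e (nat_lit 344117) (nat_lit 21) (.e (nat_lit 516106) (nat_lit 0) (.e (nat_lit 7936) (nat_lit 402) .nil))))) (.g (nat_lit 0) (.e (nat_lit 413719) (nat_lit 0) .nil) .nil)))))) (.nd (nat_lit 7) (.nd (nat_lit 8) (.nd (nat_lit 9) 
(.lf (nat_lit 597104) (.g (nat_lit 3726) (.e (nat_lit 573481) (nat_lit 13) (.e (nat_lit 65619) (nat_lit 10) (.e (nat_lit 344117) (nat_lit 21) (.e (nat_lit 516145) (nat_lit 9) (.e (nat_lit 426376) (nat_lit 15) (.e (nat_lit 2056) (nat_lit 142) (.e (nat_lit 704589) (nat_lit 3) (.e (nat_lit 163976) (nat_lit 30) .nil)))))))) (.g (nat_lit 1) (.e (nat_lit 412644) (nat_lit 0) .nil) .nil))) 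
(.lf (nat_lit 597616) (.g (nat_lit 3261) (.e (nat_lit 573482) (nat_lit 13) (.e (nat_lit 65619) (nat_lit 10) (.e (nat_lit 344117) (nat_lit 21) (.e (nat_lit 516145) (nat_lit 9) (.e (nat_lit 426402) (nat_lit 15) (.e (nat_lit 2046) (nat_lit 142) (.e (nat_lit 704589) (nat_lit 3) (.e (nat_lit 163979) (nat_lit 30) .nil)))))))) (.g (nat_lit 1) (.e (nat_lit 413290) (nat_lit 0) .nil) .nil)))) 
(.nd (nat_lit 9) 
(.lf (nat_lit 597360) (.g (nat_lit 1726) (.e (nat_lit 573482) (nat_lit 13) (.e (nat_lit 65598) (nat_lit 9) (.e (nat_lit 336013) (nat_lit 2) (.e (nat_lit 90170) (nat_lit 13) .nil)))) (.g (nat_lit 0) (.e (nat_lit 413017) (nat_lit 0) .nil) .nil))) 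
(.lf (nat_lit 597872) (.g (nat_lit 1625) (.e (nat_lit 573482) (nat_lit 13) (.e (nat_lit 65630) (nat_lit 14) (.e (nat_lit 401425) (nat_lit 2) (.e (nat_lit 196628) (nat_lit 9) .nil)))) (.g (nat_lit 0) (.e (nat_lit 413589) (nat_lit 0) .nil) .nil))))) (.nd (nat_lit 8) (.nd (nat_lit 9) 
(.lf (nat_lit 597232) (.g (nat_lit 1831) (.e (nat_lit 573481) (nat_lit 13) (.e (nat_lit 65619) (nat_lit 10) (.e (nat_lit 344117) (nat_lit 21) (.e (nat_lit 516159) (nat_lit 10) (.e (nat_lit 434209) (nat_lit 18) .nil))))) (.g (nat_lit 0) (.e (nat_lit 412776) (nat_lit 0) .nil) .nil))) 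
(.lf (nat_lit 597744) (.g (nat_lit 5904) (.e (nat_lit 573482) (nat_lit 13) (.e (nat_lit 65619) (nat_lit 10) (.e (nat_lit 344117) (nat_lit 21) (.e (nat_lit 516160) (nat_lit 10) (.e (nat_lit 434209) (nat_lit 18) (.e (nat_lit 5548) (nat_lit 306) (.e (nat_lit 2610) (nat_lit 163) (.e (nat_lit 163979) (nat_lit 30) .nil)))))))) (.g (nat_lit 1) (.e (nat_lit 413418) (nat_lit 0) .nil) .nil)))) 
(.nd (nat_lit 9) 
(.lf (nat_lit 597488) (.g (nat_lit 2830) (.e (nat_lit 573482) (nat_lit 13) (.e (nat_lit 65604) (nat_lit 9) (.e (nat_lit 336013) (nat_lit 2) (.e (nat_lit 90170) (nat_lit 13) (.e (nat_lit 179968) (nat_lit 19) (.e (nat_lit 114432) (nat_lit 3) (.e (nat_lit 163977) (nat_lit 30) .nil))))))) (.g (nat_lit 1) (.e (nat_lit 413151) (nat_lit 0) .nil) .nil))) 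
(.lf (nat_lit 598000) (.g (nat_lit 3604) (.e (nat_lit 573484) (nat_lit 13) (.e (nat_lit 65610) (nat_lit 10) (.e (nat_lit 344117) (nat_lit 21) (.e (nat_lit 516151) (nat_lit 9) (.e (nat_lit 426045) (nat_lit 0) (.e (nat_lit 2458) (nat_lit 157) (.e (nat_lit 5548) (nat_lit 306) (.e (nat_lit 2610) (nat_lit 163) (.e (nat_lit 163978) (nat_lit 30) .nil))))))))) (.g (nat_lit 1) (.e (nat_lit 413868) (nat_lit 0) .nil) .nil))))))))) 
(.nd (nat_lit 4) (.nd (nat_lit 5) (.nd (nat_lit 6) (.nd (nat_lit 7) (.nd (nat_lit 8) 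
(.nd (nat_lit 9) 
(.lf (nat_lit 597000) (.g (nat_lit 3534) (.e (nat_lit 573481) (nat_lit 13) (.e (nat_lit 65604) (nat_lit 9) (.e (nat_lit 336028) (nat_lit 3) (.e (nat_lit 98386) (nat_lit 32) (.e (nat_lit 475198) (nat_lit 40) (.e (nat_lit 704589) (nat_lit 3) (.e (nat_lit 163976) (nat_lit 30) .nil))))))) (.g (nat_lit 1) (.e (nat_lit 412523) (nat_lit 0) .nil) .nil))) 
(.lf (nat_lit 597512) (.g (nat_lit 4331) (.e (nat_lit 573482) (nat_lit 13) (.e (nat_lit 65604) (nat_lit 9) (.e (nat_lit 336028) (nat_lit 3) (.e (nat_lit 98366) (nat_lit 27) (.e (nat_lit 434209) (nat_lit 18) (.e (nat_lit 5547) (nat_lit 306) (.e (nat_lit 2611) (nat_lit 163) (.e (nat_lit 163977) (nat_lit 30) .nil)))))))) (.g (nat_lit 1) (.e (nat_lit 413181) (nat_lit 0) .nil) .nil)))) 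
(.nd (nat_lit 9) 
(.lf (nat_lit 597256) (.g (nat_lit 4043) (.e (nat_lit 573481) (nat_lit 13) (.e (nat_lit 65619) (nat_lit 10) (.e (nat_lit 344117) (nat_lit 21) (.e (nat_lit 516179) (nat_lit 15) (.e (nat_lit 475198) (nat_lit 40) (.e (nat_lit 704589) (nat_lit 3) (.e (nat_lit 163976) (nat_lit 30) .nil))))))) (.g (nat_lit 1) (.e (nat_lit 412816) (nat_lit 0) .nil) .nil))) 
(.lf (nat_lit 597768) (.g (nat_lit 1191) (.e (nat_lit 573482) (nat_lit 13) (.e (nat_lit 65619) (nat_lit 10) (.e (nat_lit 344117) (nat_lit 21) (.e (nat_lit 516180) (nat_lit 15) .nil)))) (.g (nat_lit 0) (.e (nat_lit 413442) (nat_lit 0) .nil) .nil))))) (.nd (nat_lit 8) (.nd (nat_lit 9) 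
(.lf (nat_lit 597128) (.g (nat_lit 3522) (.e (nat_lit 573481) (nat_lit 13) (.e (nat_lit 65619) (nat_lit 10) (.e (nat_lit 344117) (nat_lit 21) (.e (nat_lit 516145) (nat_lit 9) (.e (nat_lit 426400) (nat_lit 15) .nil))))) (.g (nat_lit 0) (.e (nat_lit 412668) (nat_lit 0) .nil) .nil))) 
(.lf (nat_lit 597640) (.g (nat_lit 4111) (.e (nat_lit 573482) (nat_lit 13) (.e (nat_lit 65619) (nat_lit 10) (.e (nat_lit 344117) (nat_lit 21) (.e (nat_lit 516151) (nat_lit 9) (.e (nat_lit 426037) (nat_lit 0) (.e (nat_lit 2458) (nat_lit 157) (.e (nat_lit 5548) (nat_lit 306) (.e (nat_lit 2610) (nat_lit 163) (.e (nat_lit 163979) (nat_lit 30) .nil))))))))) (.g (nat_lit 1) (.e (nat_lit 413314) (nat_lit 0) .nil) .nil)))) 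
(.nd (nat_lit 9) 
(.lf (nat_lit 597384) (.g (nat_lit 2419) (.e (nat_lit 573482) (nat_lit 13) (.e (nat_lit 65604) (nat_lit 9) (.e (nat_lit 336013) (nat_lit 2) (.e (nat_lit 90165) (nat_lit 12) (.e (nat_lit 164208) (nat_lit 176) (.e (nat_lit 2779) (nat_lit 178) (.e (nat_lit 294656) (nat_lit 15) (.e (nat_lit 3308) (nat_lit 202) .nil)))))))) (.g (nat_lit 1) (.e (nat_lit 413047) (nat_lit 0) .nil) .nil))) 
(.lf (nat_lit 597896) (.g (nat_lit 1393) (.e (nat_lit 573483) (nat_lit 13) (.e (nat_lit 65628) (nat_lit 14) (.e (nat_lit 401428) (nat_lit 3) (.e (nat_lit 204861) (nat_lit 26) .nil)))) (.g (nat_lit 0) (.e (nat_lit 413632) (nat_lit 0) .nil) .nil)))))) (.nd (nat_lit 7) (.nd (nat_lit 8) (.nd (nat_lit 9) 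
(.lf (nat_lit 597064) (.g (nat_lit 2790) (.e (nat_lit 573481) (nat_lit 13) (.e (nat_lit 65619) (nat_lit 10) (.e (nat_lit 344117) (nat_lit 21) (.e (nat_lit 516144) (nat_lit 9) (.e (nat_lit 426382) (nat_lit 15) (.e (nat_lit 2058) (nat_lit 142) (.e (nat_lit 704589) (nat_lit 3) (.e (nat_lit 163975) (nat_lit 30) .nil)))))))) (.g (nat_lit 1) (.e (nat_lit 412604) (nat_lit 0) .nil) .nil))) 
(.lf (nat_lit 597576) (.g (nat_lit 3418) (.e (nat_lit 573482) (nat_lit 13) (.e (nat_lit 65619) (nat_lit 10) (.e (nat_lit 344117) (nat_lit 21) (.e (nat_lit 516145) (nat_lit 9) (.e (nat_lit 425996) (nat_lit 0) .nil))))) (.g (nat_lit 0) (.e (nat_lit 413250) (nat_lit 0) .nil) .nil)))) (.nd (nat_lit 9) 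
(.lf (nat_lit 597320) (.g (nat_lit 1330) (.e (nat_lit 573481) (nat_lit 13) (.e (nat_lit 65628) (nat_lit 14) (.e (nat_lit 401428) (nat_lit 3) (.e (nat_lit 204875) (nat_lit 31) .nil)))) (.g (nat_lit 0) (.e (nat_lit 412921) (nat_lit 0) .nil) .nil))) 
(.lf (nat_lit 597832) (.g (nat_lit 3230) (.e (nat_lit 573482) (nat_lit 13) (.e (nat_lit 65619) (nat_lit 10) (.e (nat_lit 344129) (nat_lit 26) (.e (nat_lit 557087) (nat_lit 11) (.e (nat_lit 24599) (nat_lit 1) (.e (nat_lit 57772) (nat_lit 227) (.e (nat_lit 2610) (nat_lit 163) (.e (nat_lit 163979) (nat_lit 30) .nil)))))))) (.g (nat_lit 1) (.e (nat_lit 413529) (nat_lit 0) .nil) .nil))))) 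
(.nd (nat_lit 8) (.nd (nat_lit 9) 
(.lf (nat_lit 597192) (.g (nat_lit 3683) (.e (nat_lit 573481) (nat_lit 13) (.e (nat_lit 65619) (nat_lit 10) (.e (nat_lit 344117) (nat_lit 21) (.e (nat_lit 516151) (nat_lit 9) (.e (nat_lit 426097) (nat_lit 1) (.e (nat_lit 164345) (nat_lit 240) (.e (nat_lit 2599) (nat_lit 163) (.e (nat_lit 163976) (nat_lit 30) .nil)))))))) (.g (nat_lit 1) (.e (nat_lit 412732) (nat_lit 0) .nil) .nil))) 
(.lf (nat_lit 597704) (.g (nat_lit 3773) (.e (nat_lit 573482) (nat_lit 13) (.e (nat_lit 65619) (nat_lit 10) (.e (nat_lit 344117) (nat_lit 21) (.e (nat_lit 516151) (nat_lit 9) (.e (nat_lit 426104) (nat_lit 1) (.e (nat_lit 164348) (nat_lit 240) (.e (nat_lit 2601) (nat_lit 163) (.e (nat_lit 163977) (nat_lit 30) .nil)))))))) (.g (nat_lit 1) (.e (nat_lit 413378) (nat_lit 0) .nil) .nil)))) 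
(.nd (nat_lit 9) 
(.lf (nat_lit 597448) (.g (nat_lit 2678) (.e (nat_lit 573482) (nat_lit 13) (.e (nat_lit 65604) (nat_lit 9) (.e (nat_lit 336013) (nat_lit 2) (.e (nat_lit 90170) (nat_lit 13) (.e (nat_lit 172059) (nat_lit 1) (.e (nat_lit 164346) (nat_lit 240) (.e (nat_lit 2601) (nat_lit 163) (.e (nat_lit 163979) (nat_lit 30) .nil)))))))) (.g (nat_lit 1) (.e (nat_lit 413111) (nat_lit 0) .nil) .nil))) 
(.lf (nat_lit 597960) (.g (nat_lit 2206) (.e (nat_lit 573484) (nat_lit 13) (.e (nat_lit 65610) (nat_lit 10) (.e (nat_lit 344117) (nat_lit 21) (.e (nat_lit 516145) (nat_lit 9) (.e (nat_lit 426364) (nat_lit 15) .nil))))) (.g (nat_lit 0) (.e (nat_lit 413760) (nat_lit 0) .nil) .nil))))))) (.nd (nat_lit 6) (.nd (nat_lit 7) (.nd (nat_lit 8) (.nd (nat_lit 9) 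
(.lf (nat_lit 597032) (.g (nat_lit 2966) (.e (nat_lit 573481) (nat_lit 13) (.e (nat_lit 65619) (nat_lit 10) (.e (nat_lit 344116) (nat_lit 21) (.e (nat_lit 516179) (nat_lit 15) (.e (nat_lit 475199) (nat_lit 40) (.e (nat_lit 704589) (nat_lit 3) (.e (nat_lit 163975) (nat_lit 30) .nil))))))) (.g (nat_lit 1) (.e (nat_lit 412557) (nat_lit 0) .nil) .nil))) 
(.lf (nat_lit 597544) (.g (nat_lit 4112) (.e (nat_lit 573482) (nat_lit 13) (.e (nat_lit 65619) (nat_lit 10) (.e (nat_lit 344117) (nat_lit 21) (.e (nat_lit 516097) (nat_lit 0) (.e (nat_lit 7366) (nat_lit 388) (.e (nat_lit 2610) (nat_lit 163) (.e (nat_lit 164347) (nat_lit 240) (.e (nat_lit 2601) (nat_lit 163) (.e (nat_lit 163977) (nat_lit 30) .nil))))))))) (.g (nat_lit 1) (.e (nat_lit 413214) (nat_lit 0) .nil) .nil)))) 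
(.nd (nat_lit 9) 
(.lf (nat_lit 597288) (.g (nat_lit 1036) (.e (nat_lit 573481) (nat_lit 13) (.e (nat_lit 65619) (nat_lit 10) (.e (nat_lit 344129) (nat_lit 26) (.e (nat_lit 557065) (nat_lit 9) .nil)))) (.g (nat_lit 0) (.e (nat_lit 412853) (nat_lit 0) .nil) .nil))) 
(.lf (nat_lit 597800) (.g (nat_lit 2797) (.e (nat_lit 573482) (nat_lit 13) (.e (nat_lit 65619) (nat_lit 10) (.e (nat_lit 344129) (nat_lit 26) (.e (nat_lit 557067) (nat_lit 9) (.e (nat_lit 290) (nat_lit 21) .nil))))) (.g (nat_lit 0) (.e (nat_lit 413494) (nat_lit 0) .nil) .nil))))) (.nd (nat_lit 8) (.nd (nat_lit 9) 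
(.lf (nat_lit 597160) (.g (nat_lit 3986) (.e (nat_lit 573481) (nat_lit 13) (.e (nat_lit 65619) (nat_lit 10) (.e (nat_lit 344117) (nat_lit 21) (.e (nat_lit 516151) (nat_lit 9) (.e (nat_lit 426038) (nat_lit 0) .nil))))) (.g (nat_lit 0) (.e (nat_lit 412700) (nat_lit 0) .nil) .nil))) 
(.lf (nat_lit 597672) (.g (nat_lit 3479) (.e (nat_lit 573482) (nat_lit 13) (.e (nat_lit 65619) (nat_lit 10) (.e (nat_lit 344117) (nat_lit 21) (.e (nat_lit 516151) (nat_lit 9) (.e (nat_lit 426042) (nat_lit 0) (.e (nat_lit 2458) (nat_lit 157) (.e (nat_lit 5548) (nat_lit 306) (.e (nat_lit 2610) (nat_lit 163) (.e (nat_lit 163977) (nat_lit 30) .nil))))))))) (.g (nat_lit 1) (.e (nat_lit 413346) (nat_lit 0) .nil) .nil)))) 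
(.nd (nat_lit 9) 
(.lf (nat_lit 597416) (.g (nat_lit 3684) (.e (nat_lit 573482) (nat_lit 13) (.e (nat_lit 65604) (nat_lit 9) (.e (nat_lit 336013) (nat_lit 2) (.e (nat_lit 90170) (nat_lit 13) (.e (nat_lit 172043) (nat_lit 0) (.e (nat_lit 3409) (nat_lit 212) (.e (nat_lit 655375) (nat_lit 3) (.e (nat_lit 163977) (nat_lit 30) .nil)))))))) (.g (nat_lit 1) (.e (nat_lit 413079) (nat_lit 0) .nil) .nil))) 
(.lf (nat_lit 597928) (.g (nat_lit 5689) (.e (nat_lit 573484) (nat_lit 13) (.e (nat_lit 65610) (nat_lit 10) (.e (nat_lit 344117) (nat_lit 21) (.e (nat_lit 516102) (nat_lit 0) (.e (nat_lit 6989) (nat_lit 377) (.e (nat_lit 2777) (nat_lit 178) (.e (nat_lit 286765) (nat_lit 15) (.e (nat_lit 3307) (nat_lit 202) .nil)))))))) (.g (nat_lit 1) (.e (nat_lit 413695) (nat_lit 0) .nil) .nil)))))) 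
(.nd (nat_lit 7) (.nd (nat_lit 8) (.nd (nat_lit 9) 
(.lf (nat_lit 597096) (.g (nat_lit 3125) (.e (nat_lit 573481) (nat_lit 13) (.e (nat_lit 65619) (nat_lit 10) (.e (nat_lit 344117) (nat_lit 21) (.e (nat_lit 516145) (nat_lit 9) (.e (nat_lit 426374) (nat_lit 15) (.e (nat_lit 2057) (nat_lit 142) (.e (nat_lit 704589) (nat_lit 3) (.e (nat_lit 163975) (nat_lit 30) .nil)))))))) (.g (nat_lit 1) (.e (nat_lit 412636) (nat_lit 0) .nil) .nil))) 
(.lf (nat_lit 597608) (.g (nat_lit 3492) (.e (nat_lit 573482) (nat_lit 13) (.e (nat_lit 65619) (nat_lit 10) (.e (nat_lit 344117) (nat_lit 21) (.e (nat_lit 516145) (nat_lit 9) (.e (nat_lit 426393) (nat_lit 15) (.e (nat_lit 2057) (nat_lit 142) (.e (nat_lit 704589) (nat_lit 3) (.e (nat_lit 163979) (nat_lit 30) .nil)))))))) (.g (nat_lit 1) (.e (nat_lit 413282) (nat_lit 0) .nil) .nil)))) 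
(.nd (nat_lit 9) 
(.lf (nat_lit 597352) (.g (nat_lit 1704) (.e (nat_lit 573482) (nat_lit 13) (.e (nat_lit 65570) (nat_lit 3) (.e (nat_lit 98333) (nat_lit 18) (.e (nat_lit 164196) (nat_lit 158) .nil)))) (.g (nat_lit 0) (.e (nat_lit 412990) (nat_lit 0) .nil) .nil))) 
(.lf (nat_lit 597864) (.g (nat_lit 1619) (.e (nat_lit 573482) (nat_lit 13) (.e (nat_lit 65628) (nat_lit 14) (.e (nat_lit 401425) (nat_lit 2) (.e (nat_lit 196681) (nat_lit 17) .nil)))) (.g (nat_lit 0) (.e (nat_lit 413580) (nat_lit 0) .nil) .nil))))) (.nd (nat_lit 8) (.nd (nat_lit 9) 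
(.lf (nat_lit 597224) (.g (nat_lit 4453) (.e (nat_lit 573481) (nat_lit 13) (.e (nat_lit 65619) (nat_lit 10) (.e (nat_lit 344117) (nat_lit 21) (.e (nat_lit 516151) (nat_lit 9) (.e (nat_lit 426412) (nat_lit 15) (.e (nat_lit 2056) (nat_lit 142) (.e (nat_lit 704589) (nat_lit 3) (.e (nat_lit 163976) (nat_lit 30) .nil)))))))) (.g (nat_lit 1) (.e (nat_lit 412767) (nat_lit 0) .nil) .nil))) 
(.lf (nat_lit 597736) (.g (nat_lit 2719) (.e (nat_lit 573482) (nat_lit 13) (.e (nat_lit 65619) (nat_lit 10) (.e (nat_lit 344117) (nat_lit 21) (.e (nat_lit 516160) (nat_lit 10) (.e (nat_lit 434202) (nat_lit 18) .nil))))) (.g (nat_lit 0) (.e (nat_lit 413410) (nat_lit 0) .nil) .nil)))) (.nd (nat_lit 9) 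
(.lf (nat_lit 597480) (.g (nat_lit 3699) (.e (nat_lit 573482) (nat_lit 13) (.e (nat_lit 65604) (nat_lit 9) (.e (nat_lit 336013) (nat_lit 2) (.e (nat_lit 90170) (nat_lit 13) (.e (nat_lit 172070) (nat_lit 4) (.e (nat_lit 229678) (nat_lit 244) (.e (nat_lit 163850) (nat_lit 0) (.e (nat_lit 3306) (nat_lit 202) .nil)))))))) (.g (nat_lit 1) (.e (nat_lit 413143) (nat_lit 0) .nil) .nil))) 
(.lf (nat_lit 597992) (.g (nat_lit 4027) (.e (nat_lit 573484) (nat_lit 13) (.e (nat_lit 65610) (nat_lit 10) (.e (nat_lit 344117) (nat_lit 21) (.e (nat_lit 516151) (nat_lit 9) (.e (nat_lit 426040) (nat_lit 0) (.e (nat_lit 2515) (nat_lit 157) (.e (nat_lit 5448) (nat_lit 306) (.e (nat_lit 2612) (nat_lit 163) (.e (nat_lit 163978) (nat_lit 30) .nil))))))))) (.g (nat_lit 1) (.e (nat_lit 413855) (nat_lit 0) .nil) .nil)))))))) 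
(.nd (nat_lit 5) (.nd (nat_lit 6) (.nd (nat_lit 7) (.nd (nat_lit 8) (.nd (nat_lit 9) 
(.lf (nat_lit 597016) (.g (nat_lit 2621) (.e (nat_lit 573481) (nat_lit 13) (.e (nat_lit 65609) (nat_lit 10) (.e (nat_lit 344133) (nat_lit 26) (.e (nat_lit 557086) (nat_lit 11) (.e (nat_lit 24630) (nat_lit 9) (.e (nat_lit 336306) (nat_lit 15) (.e (nat_lit 3297) (nat_lit 202) .nil))))))) (.g (nat_lit 1) (.e (nat_lit 412539) (nat_lit 0) .nil) .nil))) 
(.lf (nat_lit 597528) (.g (nat_lit 2408) (.e (nat_lit 573482) (nat_lit 13) (.e (nat_lit 65609) (nat_lit 10) (.e (nat_lit 344119) (nat_lit 21) (.e (nat_lit 516179) (nat_lit 15) (.e (nat_lit 475199) (nat_lit 40) (.e (nat_lit 704589) (nat_lit 3) (.e (nat_lit 163979) (nat_lit 30) .nil))))))) (.g (nat_lit 1) (.e (nat_lit 413198) (nat_lit 0) .nil) .nil)))) (.nd (nat_lit 9) 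
(.lf (nat_lit 597272) (.g (nat_lit 2416) (.e (nat_lit 573481) (nat_lit 13) (.e (nat_lit 65619) (nat_lit 10) (.e (nat_lit 344117) (nat_lit 21) (.e (nat_lit 516183) (nat_lit 16) (.e (nat_lit 491547) (nat_lit 9) (.e (nat_lit 336306) (nat_lit 15) (.e (nat_lit 3298) (nat_lit 202) .nil))))))) (.g (nat_lit 1) (.e (nat_lit 412832) (nat_lit 0) .nil) .nil))) 
(.lf (nat_lit 597784) (.g (nat_lit 984) (.e (nat_lit 573482) (nat_lit 13) (.e (nat_lit 65619) (nat_lit 10) (.e (nat_lit 344129) (nat_lit 26) (.e (nat_lit 557065) (nat_lit 9) .nil)))) (.g (nat_lit 0) (.e (nat_lit 413468) (nat_lit 0) .nil) .nil))))) (.nd (nat_lit 8) (.nd (nat_lit 9) 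
(.lf (nat_lit 597144) (.g (nat_lit 2504) (.e (nat_lit 573481) (nat_lit 13) (.e (nat_lit 65619) (nat_lit 10) (.e (nat_lit 344117) (nat_lit 21) (.e (nat_lit 516147) (nat_lit 9) (.e (nat_lit 426379) (nat_lit 15) (.e (nat_lit 2058) (nat_lit 142) (.e (nat_lit 704589) (nat_lit 3) (.e (nat_lit 163975) (nat_lit 30) .nil)))))))) (.g (nat_lit 1) (.e (nat_lit 412684) (nat_lit 0) .nil) .nil))) 
(.lf (nat_lit 597656) (.g (nat_lit 3852) (.e (nat_lit 573482) (nat_lit 13) (.e (nat_lit 65619) (nat_lit 10) (.e (nat_lit 344117) (nat_lit 21) (.e (nat_lit 516151) (nat_lit 9) (.e (nat_lit 426039) (nat_lit 0) (.e (nat_lit 2458) (nat_lit 157) (.e (nat_lit 5546) (nat_lit 306) (.e (nat_lit 2610) (nat_lit 163) (.e (nat_lit 163979) (nat_lit 30) .nil))))))))) (.g (nat_lit 1) (.e (nat_lit 413330) (nat_lit 0) .nil) .nil)))) 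
(.nd (nat_lit 9) 
(.lf (nat_lit 597400) (.g (nat_lit 3430) (.e (nat_lit 573482) (nat_lit 13) (.e (nat_lit 65604) (nat_lit 9) (.e (nat_lit 336013) (nat_lit 2) (.e (nat_lit 90170) (nat_lit 13) (.e (nat_lit 172038) (nat_lit 0) (.e (nat_lit 3397) (nat_lit 211) (.e (nat_lit 647181) (nat_lit 3) (.e (nat_lit 163977) (nat_lit 30) .nil)))))))) (.g (nat_lit 1) (.e (nat_lit 413063) (nat_lit 0) .nil) .nil))) 
(.lf (nat_lit 597912) (.g (nat_lit 719) (.e (nat_lit 573484) (nat_lit 13) (.e (nat_lit 65610) (nat_lit 10) (.e (nat_lit 344106) (nat_lit 19) (.e (nat_lit 499762) (nat_lit 0) .nil)))) (.g (nat_lit 0) (.e (nat_lit 413674) (nat_lit 0) .nil) .nil)))))) (.nd (nat_lit 7) (.nd (nat_lit 8) (.nd (nat_lit 9) 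
(.lf (nat_lit 597080) (.g (nat_lit 3315) (.e (nat_lit 573481) (nat_lit 13) (.e (nat_lit 65619) (nat_lit 10) (.e (nat_lit 344117) (nat_lit 21) (.e (nat_lit 516145) (nat_lit 9) (.e (nat_lit 433920) (nat_lit 1) (.e (nat_lit 164348) (nat_lit 240) (.e (nat_lit 2601) (nat_lit 163) (.e (nat_lit 163975) (nat_lit 30) .nil)))))))) (.g (nat_lit 1) (.e (nat_lit 412620) (nat_lit 0) .nil) .nil))) 
(.lf (nat_lit 597592) (.g (nat_lit 3162) (.e (nat_lit 573482) (nat_lit 13) (.e (nat_lit 65619) (nat_lit 10) (.e (nat_lit 344117) (nat_lit 21) (.e (nat_lit 516145) (nat_lit 9) (.e (nat_lit 433920) (nat_lit 4) (.e (nat_lit 229663) (nat_lit 240) (.e (nat_lit 2612) (nat_lit 163) (.e (nat_lit 163979) (nat_lit 30) .nil)))))))) (.g (nat_lit 1) (.e (nat_lit 413266) (nat_lit 0) .nil) .nil)))) 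
(.nd (nat_lit 9) 
(.lf (nat_lit 597336) (.g (nat_lit 779) (.e (nat_lit 573481) (nat_lit 13) (.e (nat_lit 65630) (nat_lit 14) (.e (nat_lit 401427) (nat_lit 3) .nil))) (.g (nat_lit 0) (.e (nat_lit 412941) (nat_lit 0) .nil) .nil))) 
(.lf (nat_lit 597848) (.g (nat_lit 2724) (.e (nat_lit 573482) (nat_lit 13) (.e (nat_lit 65619) (nat_lit 10) (.e (nat_lit 344129) (nat_lit 26) (.e (nat_lit 557087) (nat_lit 11) (.e (nat_lit 24628) (nat_lit 9) (.e (nat_lit 336306) (nat_lit 15) (.e (nat_lit 3298) (nat_lit 202) .nil))))))) (.g (nat_lit 1) (.e (nat_lit 413545) (nat_lit 0) .nil) .nil))))) (.nd (nat_lit 8) (.nd (nat_lit 9) 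
(.lf (nat_lit 597208) (.g (nat_lit 3642) (.e (nat_lit 573481) (nat_lit 13) (.e (nat_lit 65619) (nat_lit 10) (.e (nat_lit 344117) (nat_lit 21) (.e (nat_lit 516151) (nat_lit 9) (.e (nat_lit 426142) (nat_lit 4) (.e (nat_lit 229665) (nat_lit 240) (.e (nat_lit 2602) (nat_lit 163) (.e (nat_lit 163976) (nat_lit 30) .nil)))))))) (.g (nat_lit 1) (.e (nat_lit 412751) (nat_lit 0) .nil) .nil))) 
(.lf (nat_lit 597720) (.g (nat_lit 2371) (.e (nat_lit 573482) (nat_lit 13) (.e (nat_lit 65619) (nat_lit 10) (.e (nat_lit 344117) (nat_lit 21) (.e (nat_lit 516151) (nat_lit 9) (.e (nat_lit 433920) (nat_lit 19) (.e (nat_lit 114432) (nat_lit 3) (.e (nat_lit 163974) (nat_lit 30) .nil))))))) (.g (nat_lit 1) (.e (nat_lit 413394) (nat_lit 0) .nil) .nil)))) (.nd (nat_lit 9) 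
(.lf (nat_lit 597464) (.g (nat_lit 3877) (.e (nat_lit 573482) (nat_lit 13) (.e (nat_lit 65604) (nat_lit 9) (.e (nat_lit 336013) (nat_lit 2) (.e (nat_lit 90170) (nat_lit 13) (.e (nat_lit 172061) (nat_lit 1) (.e (nat_lit 164345) (nat_lit 240) (.e (nat_lit 2600) (nat_lit 163) (.e (nat_lit 163977) (nat_lit 30) .nil)))))))) (.g (nat_lit 1) (.e (nat_lit 413127) (nat_lit 0) .nil) .nil))) 
(.lf (nat_lit 597976) (.g (nat_lit 3291) (.e (nat_lit 573484) (nat_lit 13) (.e (nat_lit 65610) (nat_lit 10) (.e (nat_lit 344117) (nat_lit 21) (.e (nat_lit 516151) (nat_lit 9) (.e (nat_lit 426037) (nat_lit 0) (.e (nat_lit 2458) (nat_lit 157) (.e (nat_lit 5547) (nat_lit 306) (.e (nat_lit 2610) (nat_lit 163) (.e (nat_lit 163977) (nat_lit 30) .nil))))))))) (.g (nat_lit 1) (.e (nat_lit 413803) (nat_lit 0) .nil) .nil))))))) 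
(.nd (nat_lit 6) (.nd (nat_lit 7) (.nd (nat_lit 8) (.nd (nat_lit 9) 
(.lf (nat_lit 597048) (.g (nat_lit 4815) (.e (nat_lit 573481) (nat_lit 13) (.e (nat_lit 65619) (nat_lit 10) (.e (nat_lit 344117) (nat_lit 21) (.e (nat_lit 516106) (nat_lit 0) (.e (nat_lit 6986) (nat_lit 377) (.e (nat_lit 2781) (nat_lit 178) (.e (nat_lit 286765) (nat_lit 15) (.e (nat_lit 3298) (nat_lit 202) .nil)))))))) (.g (nat_lit 1) (.e (nat_lit 412578) (nat_lit 0) .nil) .nil))) 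
(.lf (nat_lit 597560) (.g (nat_lit 2815) (.e (nat_lit 573482) (nat_lit 13) (.e (nat_lit 65619) (nat_lit 10) (.e (nat_lit 344117) (nat_lit 21) (.e (nat_lit 516106) (nat_lit 0) (.e (nat_lit 6986) (nat_lit 377) (.e (nat_lit 2781) (nat_lit 178) (.e (nat_lit 294656) (nat_lit 15) (.e (nat_lit 3298) (nat_lit 202) .nil)))))))) (.g (nat_lit 1) (.e (nat_lit 413231) (nat_lit 0) .nil) .nil)))) 
(.nd (nat_lit 9) 
(.lf (nat_lit 597304) (.g (nat_lit 2605) (.e (nat_lit 573481) (nat_lit 13) (.e (nat_lit 65619) (nat_lit 10) (.e (nat_lit 344129) (nat_lit 26) (.e (nat_lit 557087) (nat_lit 11) (.e (nat_lit 24626) (nat_lit 9) (.e (nat_lit 336306) (nat_lit 15) (.e (nat_lit 3298) (nat_lit 202) .nil))))))) (.g (nat_lit 1) (.e (nat_lit 412888) (nat_lit 0) .nil) .nil))) 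
(.lf (nat_lit 597816) (.g (nat_lit 3456) (.e (nat_lit 573482) (nat_lit 13) (.e (nat_lit 65619) (nat_lit 10) (.e (nat_lit 344129) (nat_lit 26) (.e (nat_lit 557086) (nat_lit 11) (.e (nat_lit 24650) (nat_lit 12) (.e (nat_lit 385072) (nat_lit 31) .nil)))))) (.g (nat_lit 1) (.e (nat_lit 413511) (nat_lit 0) .nil) .nil))))) (.nd (nat_lit 8) (.nd (nat_lit 9) 
(.lf (nat_lit 597176) (.g (nat_lit 3605) (.e (nat_lit 573481) (nat_lit 13) (.e (nat_lit 65619) (nat_lit 10) (.e (nat_lit 344117) (nat_lit 21) (.e (nat_lit 516151) (nat_lit 9) (.e (nat_lit 426042) (nat_lit 0) (.e (nat_lit 3406) (nat_lit 212) (.e (nat_lit 655373) (nat_lit 3) (.e (nat_lit 163975) (nat_lit 30) .nil)))))))) (.g (nat_lit 1) (.e (nat_lit 412716) (nat_lit 0) .nil) .nil))) 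
(.lf (nat_lit 597688) (.g (nat_lit 4080) (.e (nat_lit 573482) (nat_lit 13) (.e (nat_lit 65619) (nat_lit 10) (.e (nat_lit 344117) (nat_lit 21) (.e (nat_lit 516151) (nat_lit 9) (.e (nat_lit 426047) (nat_lit 0) (.e (nat_lit 2458) (nat_lit 157) (.e (nat_lit 5548) (nat_lit 306) (.e (nat_lit 2610) (nat_lit 163) (.e (nat_lit 163979) (nat_lit 30) .nil))))))))) (.g (nat_lit 1) (.e (nat_lit 413362) (nat_lit 0) .nil) .nil)))) 
(.nd (nat_lit 9) 
(.lf (nat_lit 597432) (.g (nat_lit 4018) (.e (nat_lit 573482) (nat_lit 13) (.e (nat_lit 65604) (nat_lit 9) (.e (nat_lit 336013) (nat_lit 2) (.e (nat_lit 90170) (nat_lit 13) (.e (nat_lit 172048) (nat_lit 0) (.e (nat_lit 3409) (nat_lit 212) (.e (nat_lit 655375) (nat_lit 3) (.e (nat_lit 163979) (nat_lit 30) .nil)))))))) (.g (nat_lit 1) (.e (nat_lit 413095) (nat_lit 0) .nil) .nil))) 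
(.lf (nat_lit 597944) (.g (nat_lit 2457) (.e (nat_lit 573484) (nat_lit 13) (.e (nat_lit 65610) (nat_lit 10) (.e (nat_lit 344117) (nat_lit 21) (.e (nat_lit 516116) (nat_lit 1) (.e (nat_lit 164415) (nat_lit 260) .nil))))) (.g (nat_lit 0) (.e (nat_lit 413728) (nat_lit 0) .nil) .nil)))))) (.nd (nat_lit 7) (.nd (nat_lit 8) (.nd (nat_lit 9) 
(.lf (nat_lit 597112) (.g (nat_lit 3239) (.e (nat_lit 573481) (nat_lit 13) (.e (nat_lit 65619) (nat_lit 10) (.e (nat_lit 344117) (nat_lit 21) (.e (nat_lit 516145) (nat_lit 9) (.e (nat_lit 426393) (nat_lit 15) (.e (nat_lit 2056) (nat_lit 142) (.e (nat_lit 704589) (nat_lit 3) (.e (nat_lit 163975) (nat_lit 30) .nil)))))))) (.g (nat_lit 1) (.e (nat_lit 412652) (nat_lit 0) .nil) .nil))) 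
(.lf (nat_lit 597624) (.g (nat_lit 2988) (.e (nat_lit 573482) (nat_lit 13) (.e (nat_lit 65619) (nat_lit 10) (.e (nat_lit 344117) (nat_lit 21) (.e (nat_lit 516146) (nat_lit 9) (.e (nat_lit 426442) (nat_lit 19) .nil))))) (.g (nat_lit 0) (.e (nat_lit 413298) (nat_lit 0) .nil) .nil)))) (.nd (nat_lit 9) 
(.lf (nat_lit 597368) (.g (nat_lit 3822) (.e (nat_lit 573482) (nat_lit 13) (.e (nat_lit 65604) (nat_lit 9) (.e (nat_lit 336013) (nat_lit 2) (.e (nat_lit 90123) (nat_lit 9) .nil)))) (.g (nat_lit 0) (.e (nat_lit 413025) (nat_lit 0) .nil) .nil))) 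
(.lf (nat_lit 597880) (.g (nat_lit 1611) (.e (nat_lit 573482) (nat_lit 13) (.e (nat_lit 65630) (nat_lit 14) (.e (nat_lit 401428) (nat_lit 3) (.e (nat_lit 204866) (nat_lit 28) (.e (nat_lit 360192) (nat_lit 0) .nil))))) (.g (nat_lit 0) (.e (nat_lit 413600) (nat_lit 0) .nil) .nil))))) (.nd (nat_lit 8) (.nd (nat_lit 9) 
(.lf (nat_lit 597240) (.g (nat_lit 4878) (.e (nat_lit 573481) (nat_lit 13) (.e (nat_lit 65619) (nat_lit 10) (.e (nat_lit 344117) (nat_lit 21) (.e (nat_lit 516160) (nat_lit 10) (.e (nat_lit 434209) (nat_lit 18) (.e (nat_lit 5548) (nat_lit 306) (.e (nat_lit 2601) (nat_lit 163) (.e (nat_lit 163975) (nat_lit 30) .nil)))))))) (.g (nat_lit 1) (.e (nat_lit 412786) (nat_lit 0) .nil) .nil))) 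
(.lf (nat_lit 597752) (.g (nat_lit 2705) (.e (nat_lit 573482) (nat_lit 13) (.e (nat_lit 65619) (nat_lit 10) (.e (nat_lit 344117) (nat_lit 21) (.e (nat_lit 516160) (nat_lit 10) (.e (nat_lit 434275) (nat_lit 39) .nil))))) (.g (nat_lit 0) (.e (nat_lit 413426) (nat_lit 0) .nil) .nil)))) (.nd (nat_lit 9) 
(.lf (nat_lit 597496) (.g (nat_lit 3607) (.e (nat_lit 573482) (nat_lit 13) (.e (nat_lit 65604) (nat_lit 9) (.e (nat_lit 336013) (nat_lit 2) (.e (nat_lit 90185) (nat_lit 17) .nil)))) (.g (nat_lit 0) (.e (nat_lit 413159) (nat_lit 0) .nil) .nil))) 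
(.lf (nat_lit 598008) (.g (nat_lit 2922) (.e (nat_lit 573484) (nat_lit 13) (.e (nat_lit 65610) (nat_lit 10) (.e (nat_lit 344117) (nat_lit 21) (.e (nat_lit 516151) (nat_lit 9) (.e (nat_lit 426049) (nat_lit 0) .nil))))) (.g (nat_lit 0) (.e (nat_lit 413876) (nat_lit 0) .nil) .nil)))))))))) 
(.nd (nat_lit 3) (.nd (nat_lit 4) (.nd (nat_lit 5) (.nd (nat_lit 6) (.nd (nat_lit 7) 
(.nd (nat_lit 8) (.nd (nat_lit 9) 
(.lf (nat_lit 596996) (.g (nat_lit 1334) (.e (nat_lit 573481) (nat_lit 13) (.e (nat_lit 65604) (nat_lit 9) (.e (nat_lit 336028) (nat_lit 3) (.e (nat_lit 98386) (nat_lit 32) .nil)))) (.g (nat_lit 0) (.e (nat_lit 412519) (nat_lit 0) .nil) .nil))) 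
(.lf (nat_lit 597508) (.g (nat_lit 3169) (.e (nat_lit 573482) (nat_lit 13) (.e (nat_lit 65604) (nat_lit 9) (.e (nat_lit 336028) (nat_lit 3) (.e (nat_lit 98365) (nat_lit 26) (.e (nat_lit 426107) (nat_lit 1) (.e (nat_lit 164347) (nat_lit 240) (.e (nat_lit 2601) (nat_lit 163) (.e (nat_lit 163977) (nat_lit 30) .nil)))))))) (.g (nat_lit 1) (.e (nat_lit 413175) (nat_lit 0) .nil) .nil)))) 
(.nd (nat_lit 9) 
(.lf (nat_lit 597252) (.g (nat_lit 4321) (.e (nat_lit 573481) (nat_lit 13) (.e (nat_lit 65619) (nat_lit 10) (.e (nat_lit 344117) (nat_lit 21) (.e (nat_lit 516179) (nat_lit 15) (.e (nat_lit 475197) (nat_lit 40) (.e (nat_lit 704589) (nat_lit 3) (.e (nat_lit 163975) (nat_lit 30) .nil))))))) (.g (nat_lit 1) (.e (nat_lit 412812) (nat_lit 0) .nil) .nil))) 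
(.lf (nat_lit 597764) (.g (nat_lit 2917) (.e (nat_lit 573482) (nat_lit 13) (.e (nat_lit 65619) (nat_lit 10) (.e (nat_lit 344117) (nat_lit 21) (.e (nat_lit 516171) (nat_lit 13) (.e (nat_lit 458774) (nat_lit 18) (.e (nat_lit 5547) (nat_lit 306) (.e (nat_lit 2601) (nat_lit 163) (.e (nat_lit 163979) (nat_lit 30) .nil)))))))) (.g (nat_lit 1) (.e (nat_lit 413438) (nat_lit 0) .nil) .nil))))) 
(.nd (nat_lit 8) (.nd (nat_lit 9) 
(.lf (nat_lit 597124) (.g (nat_lit 4033) (.e (nat_lit 573481) (nat_lit 13) (.e (nat_lit 65619) (nat_lit 10) (.e (nat_lit 344117) (nat_lit 21) (.e (nat_lit 516145) (nat_lit 9) (.e (nat_lit 426420) (nat_lit 15) (.e (nat_lit 2056) (nat_lit 142) (.e (nat_lit 704589) (nat_lit 3) (.e (nat_lit 163976) (nat_lit 30) .nil)))))))) (.g (nat_lit 1) (.e (nat_lit 412664) (nat_lit 0) .nil) .nil))) 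
(.lf (nat_lit 597636) (.g (nat_lit 3940) (.e (nat_lit 573482) (nat_lit 13) (.e (nat_lit 65619) (nat_lit 10) (.e (nat_lit 344117) (nat_lit 21) (.e (nat_lit 516151) (nat_lit 9) (.e (nat_lit 426034) (nat_lit 0) .nil))))) (.g (nat_lit 0) (.e (nat_lit 413310) (nat_lit 0) .nil) .nil)))) (.nd (nat_lit 9) 
(.lf (nat_lit 597380) (.g (nat_lit 3855) (.e (nat_lit 573482) (nat_lit 13) (.e (nat_lit 65604) (nat_lit 9) (.e (nat_lit 336013) (nat_lit 2) (.e (nat_lit 90134) (nat_lit 9) (.e (nat_lit 3098) (nat_lit 192) (.e (nat_lit 491566) (nat_lit 12) (.e (nat_lit 392960) (nat_lit 31) .nil))))))) (.g (nat_lit 1) (.e (nat_lit 413043) (nat_lit 0) .nil) .nil))) 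
(.lf (nat_lit 597892) (.g (nat_lit 3258) (.e (nat_lit 573483) (nat_lit 13) (.e (nat_lit 65619) (nat_lit 10) (.e (nat_lit 344117) (nat_lit 21) (.e (nat_lit 516151) (nat_lit 9) (.e (nat_lit 426042) (nat_lit 0) .nil))))) (.g (nat_lit 0) (.e (nat_lit 413628) (nat_lit 0) .nil) .nil)))))) (.nd (nat_lit 7) (.nd (nat_lit 8) (.nd (nat_lit 9) 
(.lf (nat_lit 597060) (.g (nat_lit 2830) (.e (nat_lit 573481) (nat_lit 13) (.e (nat_lit 65619) (nat_lit 10) (.e (nat_lit 344117) (nat_lit 21) (.e (nat_lit 516144) (nat_lit 9) (.e (nat_lit 426364) (nat_lit 15) (.e (nat_lit 2056) (nat_lit 142) (.e (nat_lit 704589) (nat_lit 3) (.e (nat_lit 163975) (nat_lit 30) .nil)))))))) (.g (nat_lit 1) (.e (nat_lit 412600) (nat_lit 0) .nil) .nil))) 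
(.lf (nat_lit 597572) (.g (nat_lit 2302) (.e (nat_lit 573482) (nat_lit 13) (.e (nat_lit 65619) (nat_lit 10) (.e (nat_lit 344117) (nat_lit 21) (.e (nat_lit 516143) (nat_lit 9) (.e (nat_lit 426144) (nat_lit 4) .nil))))) (.g (nat_lit 0) (.e (nat_lit 413246) (nat_lit 0) .nil) .nil)))) (.nd (nat_lit 9) 
(.lf (nat_lit 597316) (.g (nat_lit 391) (.e (nat_lit 573481) (nat_lit 13) (.e (nat_lit 65628) (nat_lit 14) (.e (nat_lit 401428) (nat_lit 3) .nil))) (.g (nat_lit 0) (.e (nat_lit 412916) (nat_lit 0) .nil) .nil))) 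
(.lf (nat_lit 597828) (.g (nat_lit 3064) (.e (nat_lit 573482) (nat_lit 13) (.e (nat_lit 65619) (nat_lit 10) (.e (nat_lit 344129) (nat_lit 26) (.e (nat_lit 557087) (nat_lit 11) (.e (nat_lit 24597) (nat_lit 1) (.e (nat_lit 57772) (nat_lit 227) (.e (nat_lit 2611) (nat_lit 163) (.e (nat_lit 163977) (nat_lit 30) .nil)))))))) (.g (nat_lit 1) (.e (nat_lit 413524) (nat_lit 0) .nil) .nil))))) 
(.nd (nat_lit 8) (.nd (nat_lit 9) 
(.lf (nat_lit 597188) (.g (nat_lit 3631) (.e (nat_lit 573481) (nat_lit 13) (.e (nat_lit 65619) (nat_lit 10) (.e (nat_lit 344117) (nat_lit 21) (.e (nat_lit 516151) (nat_lit 9) (.e (nat_lit 426042) (nat_lit 0) (.e (nat_lit 3409) (nat_lit 212) (.e (nat_lit 655375) (nat_lit 3) (.e (nat_lit 163977) (nat_lit 30) .nil)))))))) (.g (nat_lit 1) (.e (nat_lit 412728) (nat_lit 0) .nil) .nil))) 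
(.lf (nat_lit 597700) (.g (nat_lit 3639) (.e (nat_lit 573482) (nat_lit 13) (.e (nat_lit 65619) (nat_lit 10) (.e (nat_lit 344117) (nat_lit 21) (.e (nat_lit 516151) (nat_lit 9) (.e (nat_lit 426104) (nat_lit 1) (.e (nat_lit 164346) (nat_lit 240) (.e (nat_lit 2610) (nat_lit 163) (.e (nat_lit 163979) (nat_lit 30) .nil)))))))) (.g (nat_lit 1) (.e (nat_lit 413374) (nat_lit 0) .nil) .nil)))) 
(.nd (nat_lit 9) 
(.lf (nat_lit 597444) (.g (nat_lit 3685) (.e (nat_lit 573482) (nat_lit 13) (.e (nat_lit 65604) (nat_lit 9) (.e (nat_lit 336013) (nat_lit 2) (.e (nat_lit 90170) (nat_lit 13) (.e (nat_lit 172052) (nat_lit 0) (.e (nat_lit 3409) (nat_lit 212) (.e (nat_lit 655373) (nat_lit 3) (.e (nat_lit 163979) (nat_lit 30) .nil)))))))) (.g (nat_lit 1) (.e (nat_lit 413107) (nat_lit 0) .nil) .nil))) 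
(.lf (nat_lit 597956) (.g (nat_lit 3169) (.e (nat_lit 573484) (nat_lit 13) (.e (nat_lit 65610) (nat_lit 10) (.e (nat_lit 344117) (nat_lit 21) (.e (nat_lit 516145) (nat_lit 9) (.e (nat_lit 426091) (nat_lit 0) (.e (nat_lit 2458) (nat_lit 157) (.e (nat_lit 5547) (nat_lit 306) (.e (nat_lit 2610) (nat_lit 163) (.e (nat_lit 163978) (nat_lit 30) .nil))))))))) (.g (nat_lit 1) (.e (nat_lit 413751) (nat_lit 0) .nil) .nil))))))) 
(.nd (nat_lit 6) (.nd (nat_lit 7) (.nd (nat_lit 8) (.nd (nat_lit 9) 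
(.lf (nat_lit 597028) (.g (nat_lit 2763) (.e (nat_lit 573481) (nat_lit 13) (.e (nat_lit 65613) (nat_lit 10) (.e (nat_lit 344120) (nat_lit 21) (.e (nat_lit 516179) (nat_lit 15) (.e (nat_lit 475199) (nat_lit 40) (.e (nat_lit 704589) (nat_lit 3) (.e (nat_lit 163976) (nat_lit 30) .nil))))))) (.g (nat_lit 1) (.e (nat_lit 412551) (nat_lit 0) .nil) .nil))) 
(.lf (nat_lit 597540) (.g (nat_lit 359) (.e (nat_lit 573482) (nat_lit 13) (.e (nat_lit 65619) (nat_lit 10) (.e (nat_lit 344117) (nat_lit 21) .nil))) (.g (nat_lit 0) (.e (nat_lit 413210) (nat_lit 0) .nil) .nil)))) (.nd (nat_lit 9) 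
(.lf (nat_lit 597284) (.g (nat_lit 3662) (.e (nat_lit 573481) (nat_lit 13) (.e (nat_lit 65619) (nat_lit 10) (.e (nat_lit 344118) (nat_lit 21) (.e (nat_lit 516179) (nat_lit 15) (.e (nat_lit 475199) (nat_lit 40) (.e (nat_lit 704589) (nat_lit 3) (.e (nat_lit 163976) (nat_lit 30) .nil))))))) (.g (nat_lit 1) (.e (nat_lit 412844) (nat_lit 0) .nil) .nil))) 
(.lf (nat_lit 597796) (.g (nat_lit 1831) (.e (nat_lit 573482) (nat_lit 13) (.e (nat_lit 65619) (nat_lit 10) (.e (nat_lit 344129) (nat_lit 26) (.e (nat_lit 557066) (nat_lit 9) (.e (nat_lit 310) (nat_lit 23) .nil))))) (.g (nat_lit 0) (.e (nat_lit 413490) (nat_lit 0) .nil) .nil))))) (.nd (nat_lit 8) (.nd (nat_lit 9) 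
(.lf (nat_lit 597156) (.g (nat_lit 3209) (.e (nat_lit 573481) (nat_lit 13) (.e (nat_lit 65619) (nat_lit 10) (.e (nat_lit 344117) (nat_lit 21) (.e (nat_lit 516151) (nat_lit 9) (.e (nat_lit 426022) (nat_lit 0) (.e (nat_lit 3397) (nat_lit 211) (.e (nat_lit 647181) (nat_lit 3) (.e (nat_lit 163977) (nat_lit 30) .nil)))))))) (.g (nat_lit 1) (.e (nat_lit 412696) (nat_lit 0) .nil) .nil))) 
(.lf (nat_lit 597668) (.g (nat_lit 3678) (.e (nat_lit 573482) (nat_lit 13) (.e (nat_lit 65619) (nat_lit 10) (.e (nat_lit 344117) (nat_lit 21) (.e (nat_lit 516151) (nat_lit 9) (.e (nat_lit 426042) (nat_lit 0) (.e (nat_lit 2458) (nat_lit 157) (.e (nat_lit 5547) (nat_lit 306) (.e (nat_lit 2610) (nat_lit 163) (.e (nat_lit 163977) (nat_lit 30) .nil))))))))) (.g (nat_lit 1) (.e (nat_lit 413342) (nat_lit 0) .nil) .nil)))) 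
(.nd (nat_lit 9) 
(.lf (nat_lit 597412) (.g (nat_lit 4233) (.e (nat_lit 573482) (nat_lit 13) (.e (nat_lit 65604) (nat_lit 9) (.e (nat_lit 336013) (nat_lit 2) (.e (nat_lit 90170) (nat_lit 13) (.e (nat_lit 172042) (nat_lit 0) (.e (nat_lit 3406) (nat_lit 212) (.e (nat_lit 655375) (nat_lit 3) (.e (nat_lit 163977) (nat_lit 30) .nil)))))))) (.g (nat_lit 1) (.e (nat_lit 413075) (nat_lit 0) .nil) .nil))) 
(.lf (nat_lit 597924) (.g (nat_lit 2896) (.e (nat_lit 573484) (nat_lit 13) (.e (nat_lit 65610) (nat_lit 10) (.e (nat_lit 344117) (nat_lit 21) (.e (nat_lit 516097) (nat_lit 0) (.e (nat_lit 7589) (nat_lit 406) (.e (nat_lit 73472) (nat_lit 15) (.e (nat_lit 3307) (nat_lit 202) .nil))))))) (.g (nat_lit 1) (.e (nat_lit 413690) (nat_lit 0) .nil) .nil)))))) 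
(.nd (nat_lit 7) (.nd (nat_lit 8) (.nd (nat_lit 9) 
(.lf (nat_lit 597092) (.g (nat_lit 4016) (.e (nat_lit 573481) (nat_lit 13) (.e (nat_lit 65619) (nat_lit 10) (.e (nat_lit 344117) (nat_lit 21) (.e (nat_lit 516145) (nat_lit 9) (.e (nat_lit 426364) (nat_lit 15) (.e (nat_lit 2056) (nat_lit 142) (.e (nat_lit 704589) (nat_lit 3) (.e (nat_lit 163975) (nat_lit 30) .nil)))))))) (.g (nat_lit 1) (.e (nat_lit 412632) (nat_lit 0) .nil) .nil))) 
(.lf (nat_lit 597604) (.g (nat_lit 3379) (.e (nat_lit 573482) (nat_lit 13) (.e (nat_lit 65619) (nat_lit 10) (.e (nat_lit 344117) (nat_lit 21) (.e (nat_lit 516145) (nat_lit 9) (.e (nat_lit 426375) (nat_lit 15) .nil))))) (.g (nat_lit 0) (.e (nat_lit 413278) (nat_lit 0) .nil) .nil)))) (.nd (nat_lit 9) 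
(.lf (nat_lit 597348) (.g (nat_lit 2910) (.e (nat_lit 573482) (nat_lit 13) (.e (nat_lit 65563) (nat_lit 1) (.e (nat_lit 57926) (nat_lit 282) (.e (nat_lit 163943) (nat_lit 19) (.e (nat_lit 483345) (nat_lit 17) (.e (nat_lit 6712) (nat_lit 360) (.e (nat_lit 163979) (nat_lit 30) .nil))))))) (.g (nat_lit 1) (.e (nat_lit 412970) (nat_lit 0) .nil) .nil))) 
(.lf (nat_lit 597860) (.g (nat_lit 2037) (.e (nat_lit 573482) (nat_lit 13) (.e (nat_lit 73472) (nat_lit 11) (.e (nat_lit 368676) (nat_lit 21) (.e (nat_lit 516179) (nat_lit 15) (.e (nat_lit 475199) (nat_lit 40) (.e (nat_lit 704589) (nat_lit 3) (.e (nat_lit 163979) (nat_lit 30) .nil))))))) (.g (nat_lit 1) (.e (nat_lit 413558) (nat_lit 0) .nil) .nil))))) (.nd (nat_lit 8) (.nd (nat_lit 9) 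
(.lf (nat_lit 597220) (.g (nat_lit 3119) (.e (nat_lit 573481) (nat_lit 13) (.e (nat_lit 65619) (nat_lit 10) (.e (nat_lit 344117) (nat_lit 21) (.e (nat_lit 516151) (nat_lit 9) (.e (nat_lit 426410) (nat_lit 15) (.e (nat_lit 2056) (nat_lit 142) (.e (nat_lit 704589) (nat_lit 3) (.e (nat_lit 163976) (nat_lit 30) .nil)))))))) (.g (nat_lit 1) (.e (nat_lit 412763) (nat_lit 0) .nil) .nil))) 
(.lf (nat_lit 597732) (.g (nat_lit 2864) (.e (nat_lit 573482) (nat_lit 13) (.e (nat_lit 65619) (nat_lit 10) (.e (nat_lit 344117) (nat_lit 21) (.e (nat_lit 516159) (nat_lit 10) (.e (nat_lit 434211) (nat_lit 18) (.e (nat_lit 5548) (nat_lit 306) (.e (nat_lit 2610) (nat_lit 163) (.e (nat_lit 163979) (nat_lit 30) .nil)))))))) (.g (nat_lit 1) (.e (nat_lit 413406) (nat_lit 0) .nil) .nil)))) 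
(.nd (nat_lit 9) 
(.lf (nat_lit 597476) (.g (nat_lit 2746) (.e (nat_lit 573482) (nat_lit 13) (.e (nat_lit 65604) (nat_lit 9) (.e (nat_lit 336013) (nat_lit 2) (.e (nat_lit 90170) (nat_lit 13) (.e (nat_lit 172069) (nat_lit 4) (.e (nat_lit 229666) (nat_lit 240) (.e (nat_lit 2612) (nat_lit 163) (.e (nat_lit 163977) (nat_lit 30) .nil)))))))) (.g (nat_lit 1) (.e (nat_lit 413139) (nat_lit 0) .nil) .nil))) 
(.lf (nat_lit 597988) (.g (nat_lit 2919) (.e (nat_lit 573484) (nat_lit 13) (.e (nat_lit 65610) (nat_lit 10) (.e (nat_lit 344117) (nat_lit 21) (.e (nat_lit 516151) (nat_lit 9) (.e (nat_lit 426040) (nat_lit 0) .nil))))) (.g (nat_lit 0) (.e (nat_lit 413840) (nat_lit 0) .nil) .nil)))))))) (.nd (nat_lit 5) (.nd (nat_lit 6) (.nd (nat_lit 7) (.nd (nat_lit 8) (.nd (nat_lit 9) 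
(.lf (nat_lit 597012) (.g (nat_lit 3680) (.e (nat_lit 573481) (nat_lit 13) (.e (nat_lit 65609) (nat_lit 10) (.e (nat_lit 344118) (nat_lit 21) (.e (nat_lit 516179) (nat_lit 15) (.e (nat_lit 475199) (nat_lit 40) (.e (nat_lit 704589) (nat_lit 3) (.e (nat_lit 163976) (nat_lit 30) .nil))))))) (.g (nat_lit 1) (.e (nat_lit 412535) (nat_lit 0) .nil) .nil))) 
(.lf (nat_lit 597524) (.g (nat_lit 4454) (.e (nat_lit 573482) (nat_lit 13) (.e (nat_lit 65604) (nat_lit 9) (.e (nat_lit 336028) (nat_lit 3) (.e (nat_lit 98367) (nat_lit 27) (.e (nat_lit 434272) (nat_lit 38) (.e (nat_lit 655375) (nat_lit 3) (.e (nat_lit 163977) (nat_lit 30) .nil))))))) (.g (nat_lit 1) (.e (nat_lit 413193) (nat_lit 0) .nil) .nil)))) (.nd (nat_lit 9) 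
(.lf (nat_lit 597268) (.g (nat_lit 3240) (.e (nat_lit 573481) (nat_lit 13) (.e (nat_lit 65619) (nat_lit 10) (.e (nat_lit 344117) (nat_lit 21) (.e (nat_lit 516182) (nat_lit 15) (.e (nat_lit 475198) (nat_lit 40) (.e (nat_lit 704590) (nat_lit 3) (.e (nat_lit 163975) (nat_lit 30) .nil))))))) (.g (nat_lit 1) (.e (nat_lit 412828) (nat_lit 0) .nil) .nil))) 
(.lf (nat_lit 597780) (.g (nat_lit 403) (.e (nat_lit 573482) (nat_lit 13) (.e (nat_lit 65619) (nat_lit 10) (.e (nat_lit 344126) (nat_lit 25) .nil))) (.g (nat_lit 0) (.e (nat_lit 413454) (nat_lit 0) .nil) .nil))))) (.nd (nat_lit 8) (.nd (nat_lit 9) 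
(.lf (nat_lit 597140) (.g (nat_lit 2422) (.e (nat_lit 573481) (nat_lit 13) (.e (nat_lit 65619) (nat_lit 10) (.e (nat_lit 344117) (nat_lit 21) (.e (nat_lit 516147) (nat_lit 9) (.e (nat_lit 426375) (nat_lit 15) (.e (nat_lit 2057) (nat_lit 142) (.e (nat_lit 704589) (nat_lit 3) (.e (nat_lit 163976) (nat_lit 30) .nil)))))))) (.g (nat_lit 1) (.e (nat_lit 412680) (nat_lit 0) .nil) .nil))) 
(.lf (nat_lit 597652) (.g (nat_lit 3942) (.e (nat_lit 573482) (nat_lit 13) (.e (nat_lit 65619) (nat_lit 10) (.e (nat_lit 344117) (nat_lit 21) (.e (nat_lit 516151) (nat_lit 9) (.e (nat_lit 426040) (nat_lit 0) (.e (nat_lit 2458) (nat_lit 157) (.e (nat_lit 5548) (nat_lit 306) (.e (nat_lit 2610) (nat_lit 163) (.e (nat_lit 163979) (nat_lit 30) .nil))))))))) (.g (nat_lit 1) (.e (nat_lit 413326) (nat_lit 0) .nil) .nil)))) 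
(.nd (nat_lit 9) 
(.lf (nat_lit 597396) (.g (nat_lit 3196) (.e (nat_lit 573482) (nat_lit 13) (.e (nat_lit 65604) (nat_lit 9) (.e (nat_lit 336013) (nat_lit 2) (.e (nat_lit 90170) (nat_lit 13) (.e (nat_lit 172036) (nat_lit 0) (.e (nat_lit 3402) (nat_lit 211) (.e (nat_lit 647180) (nat_lit 3) (.e (nat_lit 163979) (nat_lit 30) .nil)))))))) (.g (nat_lit 1) (.e (nat_lit 413059) (nat_lit 0) .nil) .nil))) 
(.lf (nat_lit 597908) (.g (nat_lit 1924) (.e (nat_lit 573484) (nat_lit 13) (.e (nat_lit 65599) (nat_lit 9) (.e (nat_lit 336013) (nat_lit 2) (.e (nat_lit 90187) (nat_lit 18) .nil)))) (.g (nat_lit 0) (.e (nat_lit 413664) (nat_lit 0) .nil) .nil)))))) (.nd (nat_lit 7) (.nd (nat_lit 8) (.nd (nat_lit 9) 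
(.lf (nat_lit 597076) (.g (nat_lit 2741) (.e (nat_lit 573481) (nat_lit 13) (.e (nat_lit 65619) (nat_lit 10) (.e (nat_lit 344117) (nat_lit 21) (.e (nat_lit 516144) (nat_lit 9) (.e (nat_lit 426466) (nat_lit 24) (.e (nat_lit 163584) (nat_lit 3) (.e (nat_lit 163976) (nat_lit 30) .nil))))))) (.g (nat_lit 1) (.e (nat_lit 412616) (nat_lit 0) .nil) .nil))) 
(.lf (nat_lit 597588) (.g (nat_lit 3535) (.e (nat_lit 573482) (nat_lit 13) (.e (nat_lit 65619) (nat_lit 10) (.e (nat_lit 344117) (nat_lit 21) (.e (nat_lit 516145) (nat_lit 9) (.e (nat_lit 433920) (nat_lit 1) (.e (nat_lit 164348) (nat_lit 240) (.e (nat_lit 2611) (nat_lit 163) (.e (nat_lit 163979) (nat_lit 30) .nil)))))))) (.g (nat_lit 1) (.e (nat_lit 413262) (nat_lit 0) .nil) .nil)))) 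
(.nd (nat_lit 9) 
(.lf (nat_lit 597332) (.g (nat_lit 4041) (.e (nat_lit 573481) (nat_lit 13) (.e (nat_lit 65630) (nat_lit 14) (.e (nat_lit 401425) (nat_lit 2) (.e (nat_lit 196681) (nat_lit 17) (.e (nat_lit 131107) (nat_lit 9) (.e (nat_lit 336306) (nat_lit 15) (.e (nat_lit 3298) (nat_lit 202) .nil))))))) (.g (nat_lit 1) (.e (nat_lit 412937) (nat_lit 0) .nil) .nil))) 
(.lf (nat_lit 597844) (.g (nat_lit 2524) (.e (nat_lit 573482) (nat_lit 13) (.e (nat_lit 65619) (nat_lit 10) (.e (nat_lit 344129) (nat_lit 26) (.e (nat_lit 557087) (nat_lit 11) (.e (nat_lit 24626) (nat_lit 9) (.e (nat_lit 336261) (nat_lit 15) (.e (nat_lit 3308) (nat_lit 202) .nil))))))) (.g (nat_lit 1) (.e (nat_lit 413541) (nat_lit 0) .nil) .nil))))) (.nd (nat_lit 8) (.nd (nat_lit 9) 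
(.lf (nat_lit 597204) (.g (nat_lit 3839) (.e (nat_lit 573481) (nat_lit 13) (.e (nat_lit 65619) (nat_lit 10) (.e (nat_lit 344117) (nat_lit 21) (.e (nat_lit 516151) (nat_lit 9) (.e (nat_lit 426104) (nat_lit 1) (.e (nat_lit 164348) (nat_lit 240) (.e (nat_lit 2601) (nat_lit 163) (.e (nat_lit 163975) (nat_lit 30) .nil)))))))) (.g (nat_lit 1) (.e (nat_lit 412745) (nat_lit 0) .nil) .nil))) 
(.lf (nat_lit 597716) (.g (nat_lit 3546) (.e (nat_lit 573482) (nat_lit 13) (.e (nat_lit 65619) (nat_lit 10) (.e (nat_lit 344117) (nat_lit 21) (.e (nat_lit 516151) (nat_lit 9) (.e (nat_lit 426409) (nat_lit 15) .nil))))) (.g (nat_lit 0) (.e (nat_lit 413390) (nat_lit 0) .nil) .nil)))) (.nd (nat_lit 9) 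
(.lf (nat_lit 597460) (.g (nat_lit 3452) (.e (nat_lit 573482) (nat_lit 13) (.e (nat_lit 65604) (nat_lit 9) (.e (nat_lit 336013) (nat_lit 2) (.e (nat_lit 90170) (nat_lit 13) (.e (nat_lit 172060) (nat_lit 1) (.e (nat_lit 164347) (nat_lit 240) (.e (nat_lit 2611) (nat_lit 163) (.e (nat_lit 163977) (nat_lit 30) .nil)))))))) (.g (nat_lit 1) (.e (nat_lit 413123) (nat_lit 0) .nil) .nil))) 
(.lf (nat_lit 597972) (.g (nat_lit 3594) (.e (nat_lit 573484) (nat_lit 13) (.e (nat_lit 65610) (nat_lit 10) (.e (nat_lit 344117) (nat_lit 21) (.e (nat_lit 516151) (nat_lit 9) (.e (nat_lit 426034) (nat_lit 0) (.e (nat_lit 3409) (nat_lit 212) (.e (nat_lit 655375) (nat_lit 3) (.e (nat_lit 163977) (nat_lit 30) .nil)))))))) (.g (nat_lit 1) (.e (nat_lit 413791) (nat_lit 0) .nil) .nil))))))) 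
(.nd (nat_lit 6) (.nd (nat_lit 7) (.nd (nat_lit 8) (.nd (nat_lit 9) 
(.lf (nat_lit 597044) (.g (nat_lit 2295) (.e (nat_lit 573481) (nat_lit 13) (.e (nat_lit 65619) (nat_lit 10) (.e (nat_lit 344117) (nat_lit 21) (.e (nat_lit 516106) (nat_lit 0) (.e (nat_lit 6986) (nat_lit 377) .nil))))) (.g (nat_lit 0) (.e (nat_lit 412573) (nat_lit 0) .nil) .nil))) 
(.lf (nat_lit 597556) (.g (nat_lit 3796) (.e (nat_lit 573482) (nat_lit 13) (.e (nat_lit 65619) (nat_lit 10) (.e (nat_lit 344117) (nat_lit 21) (.e (nat_lit 516106) (nat_lit 0) (.e (nat_lit 6986) (nat_lit 377) (.e (nat_lit 2777) (nat_lit 178) (.e (nat_lit 286765) (nat_lit 15) (.e (nat_lit 3298) (nat_lit 202) .nil)))))))) (.g (nat_lit 1) (.e (nat_lit 413227) (nat_lit 0) .nil) .nil)))) 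
(.nd (nat_lit 9) 
(.lf (nat_lit 597300) (.g (nat_lit 2978) (.e (nat_lit 573481) (nat_lit 13) (.e (nat_lit 65619) (nat_lit 10) (.e (nat_lit 344129) (nat_lit 26) (.e (nat_lit 557085) (nat_lit 11) (.e (nat_lit 24648) (nat_lit 12) (.e (nat_lit 385072) (nat_lit 31) .nil)))))) (.g (nat_lit 1) (.e (nat_lit 412883) (nat_lit 0) .nil) .nil))) 
(.lf (nat_lit 597812) (.g (nat_lit 2760) (.e (nat_lit 573482) (nat_lit 13) (.e (nat_lit 65619) (nat_lit 10) (.e (nat_lit 344129) (nat_lit 26) (.e (nat_lit 557085) (nat_lit 11) (.e (nat_lit 24630) (nat_lit 9) (.e (nat_lit 336306) (nat_lit 15) (.e (nat_lit 3298) (nat_lit 202) .nil))))))) (.g (nat_lit 1) (.e (nat_lit 413507) (nat_lit 0) .nil) .nil))))) (.nd (nat_lit 8) (.nd (nat_lit 9) 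
(.lf (nat_lit 597172) (.g (nat_lit 3683) (.e (nat_lit 573481) (nat_lit 13) (.e (nat_lit 65619) (nat_lit 10) (.e (nat_lit 344117) (nat_lit 21) (.e (nat_lit 516151) (nat_lit 9) (.e (nat_lit 426042) (nat_lit 0) (.e (nat_lit 2458) (nat_lit 157) (.e (nat_lit 5547) (nat_lit 306) (.e (nat_lit 2601) (nat_lit 163) (.e (nat_lit 163976) (nat_lit 30) .nil))))))))) (.g (nat_lit 1) (.e (nat_lit 412712) (nat_lit 0) .nil) .nil))) 
(.lf (nat_lit 597684) (.g (nat_lit 3639) (.e (nat_lit 573482) (nat_lit 13) (.e (nat_lit 65619) (nat_lit 10) (.e (nat_lit 344117) (nat_lit 21) (.e (nat_lit 516151) (nat_lit 9) (.e (nat_lit 426046) (nat_lit 0) .nil))))) (.g (nat_lit 0) (.e (nat_lit 413358) (nat_lit 0) .nil) .nil)))) (.nd (nat_lit 9) 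
(.lf (nat_lit 597428) (.g (nat_lit 3411) (.e (nat_lit 573482) (nat_lit 13) (.e (nat_lit 65604) (nat_lit 9) (.e (nat_lit 336013) (nat_lit 2) (.e (nat_lit 90170) (nat_lit 13) (.e (nat_lit 172046) (nat_lit 0) (.e (nat_lit 3407) (nat_lit 212) (.e (nat_lit 655375) (nat_lit 3) (.e (nat_lit 163978) (nat_lit 30) .nil)))))))) (.g (nat_lit 1) (.e (nat_lit 413091) (nat_lit 0) .nil) .nil))) 
(.lf (nat_lit 597940) (.g (nat_lit 2633) (.e (nat_lit 573484) (nat_lit 13) (.e (nat_lit 65610) (nat_lit 10) (.e (nat_lit 344117) (nat_lit 21) (.e (nat_lit 516115) (nat_lit 1) (.e (nat_lit 171776) (nat_lit 262) .nil))))) (.g (nat_lit 0) (.e (nat_lit 413724) (nat_lit 0) .nil) .nil)))))) (.nd (nat_lit 7) (.nd (nat_lit 8) (.nd (nat_lit 9) 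
(.lf (nat_lit 597108) (.g (nat_lit 3843) (.e (nat_lit 573481) (nat_lit 13) (.e (nat_lit 65619) (nat_lit 10) (.e (nat_lit 344117) (nat_lit 21) (.e (nat_lit 516145) (nat_lit 9) (.e (nat_lit 426376) (nat_lit 15) (.e (nat_lit 2059) (nat_lit 142) (.e (nat_lit 704589) (nat_lit 3) (.e (nat_lit 163976) (nat_lit 30) .nil)))))))) (.g (nat_lit 1) (.e (nat_lit 412648) (nat_lit 0) .nil) .nil))) 
(.lf (nat_lit 597620) (.g (nat_lit 3445) (.e (nat_lit 573482) (nat_lit 13) (.e (nat_lit 65619) (nat_lit 10) (.e (nat_lit 344117) (nat_lit 21) (.e (nat_lit 516145) (nat_lit 9) (.e (nat_lit 426466) (nat_lit 24) (.e (nat_lit 163584) (nat_lit 3) (.e (nat_lit 163979) (nat_lit 30) .nil))))))) (.g (nat_lit 1) (.e (nat_lit 413294) (nat_lit 0) .nil) .nil)))) (.nd (nat_lit 9) 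
(.lf (nat_lit 597364) (.g (nat_lit 2823) (.e (nat_lit 573482) (nat_lit 13) (.e (nat_lit 65598) (nat_lit 9) (.e (nat_lit 336013) (nat_lit 2) (.e (nat_lit 90185) (nat_lit 17) .nil)))) (.g (nat_lit 0) (.e (nat_lit 413021) (nat_lit 0) .nil) .nil))) 
(.lf (nat_lit 597876) (.g (nat_lit 2474) (.e (nat_lit 573482) (nat_lit 13) (.e (nat_lit 65630) (nat_lit 14) (.e (nat_lit 401425) (nat_lit 2) (.e (nat_lit 196679) (nat_lit 17) .nil)))) (.g (nat_lit 0) (.e (nat_lit 413593) (nat_lit 0) .nil) .nil))))) (.nd (nat_lit 8) (.nd (nat_lit 9) 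
(.lf (nat_lit 597236) (.g (nat_lit 2349) (.e (nat_lit 573481) (nat_lit 13) (.e (nat_lit 65619) (nat_lit 10) (.e (nat_lit 344117) (nat_lit 21) (.e (nat_lit 516159) (nat_lit 10) (.e (nat_lit 434212) (nat_lit 18) .nil))))) (.g (nat_lit 0) (.e (nat_lit 412780) (nat_lit 0) .nil) .nil))) 
(.lf (nat_lit 597748) (.g (nat_lit 2817) (.e (nat_lit 573482) (nat_lit 13) (.e (nat_lit 65619) (nat_lit 10) (.e (nat_lit 344117) (nat_lit 21) (.e (nat_lit 516160) (nat_lit 10) (.e (nat_lit 434213) (nat_lit 18) .nil))))) (.g (nat_lit 0) (.e (nat_lit 413422) (nat_lit 0) .nil) .nil)))) (.nd (nat_lit 9) 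
(.lf (nat_lit 597492) (.g (nat_lit 4442) (.e (nat_lit 573482) (nat_lit 13) (.e (nat_lit 65604) (nat_lit 9) (.e (nat_lit 336013) (nat_lit 2) (.e (nat_lit 90172) (nat_lit 14) (.e (nat_lit 180233) (nat_lit 0) .nil))))) (.g (nat_lit 0) (.e (nat_lit 413155) (nat_lit 0) .nil) .nil))) 
(.lf (nat_lit 598004) (.g (nat_lit 3487) (.e (nat_lit 573484) (nat_lit 13) (.e (nat_lit 65610) (nat_lit 10) (.e (nat_lit 344117) (nat_lit 21) (.e (nat_lit 516151) (nat_lit 9) (.e (nat_lit 426045) (nat_lit 0) (.e (nat_lit 3409) (nat_lit 212) (.e (nat_lit 655375) (nat_lit 3) (.e (nat_lit 163978) (nat_lit 30) .nil)))))))) (.g (nat_lit 1) (.e (nat_lit 413872) (nat_lit 0) .nil) .nil))))))))) 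
(.nd (nat_lit 4) (.nd (nat_lit 5) (.nd (nat_lit 6) (.nd (nat_lit 7) (.nd (nat_lit 8) 
(.nd (nat_lit 9) 
(.lf (nat_lit 597004) (.g (nat_lit 2960) (.e (nat_lit 573481) (nat_lit 13) (.e (nat_lit 65604) (nat_lit 9) (.e (nat_lit 336028) (nat_lit 3) (.e (nat_lit 98387) (nat_lit 33) (.e (nat_lit 491550) (nat_lit 9) (.e (nat_lit 336306) (nat_lit 15) (.e (nat_lit 3298) (nat_lit 202) .nil))))))) (.g (nat_lit 1) (.e (nat_lit 412527) (nat_lit 0) .nil) .nil))) 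
(.lf (nat_lit 597516) (.g (nat_lit 4352) (.e (nat_lit 573482) (nat_lit 13) (.e (nat_lit 65604) (nat_lit 9) (.e (nat_lit 336028) (nat_lit 3) (.e (nat_lit 98366) (nat_lit 27) (.e (nat_lit 434272) (nat_lit 38) (.e (nat_lit 655375) (nat_lit 3) (.e (nat_lit 163977) (nat_lit 30) .nil))))))) (.g (nat_lit 1) (.e (nat_lit 413185) (nat_lit 0) .nil) .nil)))) (.nd (nat_lit 9) 
(.lf (nat_lit 597260) (.g (nat_lit 2836) (.e (nat_lit 573481) (nat_lit 13) (.e (nat_lit 65619) (nat_lit 10) (.e (nat_lit 344117) (nat_lit 21) (.e (nat_lit 516180) (nat_lit 15) (.e (nat_lit 475201) (nat_lit 40) (.e (nat_lit 712448) (nat_lit 3) (.e (nat_lit 163976) (nat_lit 30) .nil))))))) (.g (nat_lit 1) (.e (nat_lit 412820) (nat_lit 0) .nil) .nil))) 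
(.lf (nat_lit 597772) (.g (nat_lit 2625) (.e (nat_lit 573482) (nat_lit 13) (.e (nat_lit 65619) (nat_lit 10) (.e (nat_lit 344117) (nat_lit 21) (.e (nat_lit 516184) (nat_lit 16) (.e (nat_lit 491549) (nat_lit 9) (.e (nat_lit 336306) (nat_lit 15) (.e (nat_lit 3298) (nat_lit 202) .nil))))))) (.g (nat_lit 1) (.e (nat_lit 413446) (nat_lit 0) .nil) .nil))))) (.nd (nat_lit 8) (.nd (nat_lit 9) 
(.lf (nat_lit 597132) (.g (nat_lit 2942) (.e (nat_lit 573481) (nat_lit 13) (.e (nat_lit 65619) (nat_lit 10) (.e (nat_lit 344117) (nat_lit 21) (.e (nat_lit 516145) (nat_lit 9) (.e (nat_lit 426444) (nat_lit 19) (.e (nat_lit 114432) (nat_lit 3) (.e (nat_lit 163976) (nat_lit 30) .nil))))))) (.g (nat_lit 1) (.e (nat_lit 412672) (nat_lit 0) .nil) .nil))) 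
(.lf (nat_lit 597644) (.g (nat_lit 4273) (.e (nat_lit 573482) (nat_lit 13) (.e (nat_lit 65619) (nat_lit 10) (.e (nat_lit 344117) (nat_lit 21) (.e (nat_lit 516151) (nat_lit 9) (.e (nat_lit 426038) (nat_lit 0) (.e (nat_lit 2458) (nat_lit 157) (.e (nat_lit 5546) (nat_lit 306) (.e (nat_lit 2610) (nat_lit 163) (.e (nat_lit 163979) (nat_lit 30) .nil))))))))) (.g (nat_lit 1) (.e (nat_lit 413318) (nat_lit 0) .nil) .nil)))) 
(.nd (nat_lit 9) 
(.lf (nat_lit 597388) (.g (nat_lit 2332) (.e (nat_lit 573482) (nat_lit 13) (.e (nat_lit 65604) (nat_lit 9) (.e (nat_lit 336013) (nat_lit 2) (.e (nat_lit 90170) (nat_lit 13) (.e (nat_lit 172032) (nat_lit 0) .nil))))) (.g (nat_lit 0) (.e (nat_lit 413051) (nat_lit 0) .nil) .nil))) 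
(.lf (nat_lit 597900) (.g (nat_lit 1589) (.e (nat_lit 573483) (nat_lit 13) (.e (nat_lit 65630) (nat_lit 14) (.e (nat_lit 401427) (nat_lit 3) (.e (nat_lit 204854) (nat_lit 26) .nil)))) (.g (nat_lit 0) (.e (nat_lit 413636) (nat_lit 0) .nil) .nil)))))) (.nd (nat_lit 7) (.nd (nat_lit 8) (.nd (nat_lit 9) 
(.lf (nat_lit 597068) (.g (nat_lit 2585) (.e (nat_lit 573481) (nat_lit 13) (.e (nat_lit 65619) (nat_lit 10) (.e (nat_lit 344117) (nat_lit 21) (.e (nat_lit 516144) (nat_lit 9) (.e (nat_lit 426405) (nat_lit 15) (.e (nat_lit 2058) (nat_lit 142) (.e (nat_lit 704589) (nat_lit 3) (.e (nat_lit 163976) (nat_lit 30) .nil)))))))) (.g (nat_lit 1) (.e (nat_lit 412608) (nat_lit 0) .nil) .nil))) 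
(.lf (nat_lit 597580) (.g (nat_lit 3320) (.e (nat_lit 573482) (nat_lit 13) (.e (nat_lit 65619) (nat_lit 10) (.e (nat_lit 344117) (nat_lit 21) (.e (nat_lit 516145) (nat_lit 9) (.e (nat_lit 426112) (nat_lit 1) .nil))))) (.g (nat_lit 0) (.e (nat_lit 413254) (nat_lit 0) .nil) .nil)))) (.nd (nat_lit 9) 
(.lf (nat_lit 597324) (.g (nat_lit 2775) (.e (nat_lit 573481) (nat_lit 13) (.e (nat_lit 65630) (nat_lit 14) (.e (nat_lit 401425) (nat_lit 2) (.e (nat_lit 196666) (nat_lit 13) (.e (nat_lit 65599) (nat_lit 9) (.e (nat_lit 343808) (nat_lit 15) (.e (nat_lit 3297) (nat_lit 202) .nil))))))) (.g (nat_lit 1) (.e (nat_lit 412929) (nat_lit 0) .nil) .nil))) 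
(.lf (nat_lit 597836) (.g (nat_lit 3394) (.e (nat_lit 573482) (nat_lit 13) (.e (nat_lit 65619) (nat_lit 10) (.e (nat_lit 344129) (nat_lit 26) (.e (nat_lit 557087) (nat_lit 11) (.e (nat_lit 24599) (nat_lit 1) (.e (nat_lit 57773) (nat_lit 227) (.e (nat_lit 2611) (nat_lit 163) (.e (nat_lit 163979) (nat_lit 30) .nil)))))))) (.g (nat_lit 1) (.e (nat_lit 413533) (nat_lit 0) .nil) .nil))))) 
(.nd (nat_lit 8) (.nd (nat_lit 9) 
(.lf (nat_lit 597196) (.g (nat_lit 3765) (.e (nat_lit 573481) (nat_lit 13) (.e (nat_lit 65619) (nat_lit 10) (.e (nat_lit 344117) (nat_lit 21) (.e (nat_lit 516151) (nat_lit 9) (.e (nat_lit 426097) (nat_lit 1) (.e (nat_lit 164347) (nat_lit 240) (.e (nat_lit 2599) (nat_lit 163) (.e (nat_lit 163976) (nat_lit 30) .nil)))))))) (.g (nat_lit 1) (.e (nat_lit 412736) (nat_lit 0) .nil) .nil))) 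
(.lf (nat_lit 597708) (.g (nat_lit 3118) (.e (nat_lit 573482) (nat_lit 13) (.e (nat_lit 65619) (nat_lit 10) (.e (nat_lit 344117) (nat_lit 21) (.e (nat_lit 516151) (nat_lit 9) (.e (nat_lit 426142) (nat_lit 4) (.e (nat_lit 229678) (nat_lit 244) (.e (nat_lit 163850) (nat_lit 0) (.e (nat_lit 3306) (nat_lit 202) .nil)))))))) (.g (nat_lit 1) (.e (nat_lit 413382) (nat_lit 0) .nil) .nil)))) 
(.nd (nat_lit 9) 
(.lf (nat_lit 597452) (.g (nat_lit 3368) (.e (nat_lit 573482) (nat_lit 13) (.e (nat_lit 65604) (nat_lit 9) (.e (nat_lit 336013) (nat_lit 2) (.e (nat_lit 90170) (nat_lit 13) (.e (nat_lit 172060) (nat_lit 1) .nil))))) (.g (nat_lit 0) (.e (nat_lit 413115) (nat_lit 0) .nil) .nil))) 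
(.lf (nat_lit 597964) (.g (nat_lit 2961) (.e (nat_lit 573484) (nat_lit 13) (.e (nat_lit 65610) (nat_lit 10) (.e (nat_lit 344117) (nat_lit 21) (.e (nat_lit 516151) (nat_lit 9) (.e (nat_lit 426017) (nat_lit 0) .nil))))) (.g (nat_lit 0) (.e (nat_lit 413775) (nat_lit 0) .nil) .nil))))))) (.nd (nat_lit 6) (.nd (nat_lit 7) (.nd (nat_lit 8) (.nd (nat_lit 9) 
(.lf (nat_lit 597036) (.g (nat_lit 422) (.e (nat_lit 573481) (nat_lit 13) (.e (nat_lit 65619) (nat_lit 10) (.e (nat_lit 344117) (nat_lit 21) .nil))) (.g (nat_lit 0) (.e (nat_lit 412561) (nat_lit 0) .nil) .nil))) 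
(.lf (nat_lit 597548) (.g (nat_lit 1741) (.e (nat_lit 573482) (nat_lit 13) (.e (nat_lit 65619) (nat_lit 10) (.e (nat_lit 344117) (nat_lit 21) (.e (nat_lit 516098) (nat_lit 0) (.e (nat_lit 7495) (nat_lit 402) .nil))))) (.g (nat_lit 0) (.e (nat_lit 413219) (nat_lit 0) .nil) .nil)))) (.nd (nat_lit 9) 
(.lf (nat_lit 597292) (.g (nat_lit 3118) (.e (nat_lit 573481) (nat_lit 13) (.e (nat_lit 65619) (nat_lit 10) (.e (nat_lit 344129) (nat_lit 26) (.e (nat_lit 557067) (nat_lit 9) (.e (nat_lit 249) (nat_lit 21) .nil))))) (.g (nat_lit 0) (.e (nat_lit 412867) (nat_lit 0) .nil) .nil))) 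
(.lf (nat_lit 597804) (.g (nat_lit 2381) (.e (nat_lit 573482) (nat_lit 13) (.e (nat_lit 65619) (nat_lit 10) (.e (nat_lit 344129) (nat_lit 26) (.e (nat_lit 557070) (nat_lit 9) (.e (nat_lit 7936) (nat_lit 23) .nil))))) (.g (nat_lit 0) (.e (nat_lit 413499) (nat_lit 0) .nil) .nil))))) (.nd (nat_lit 8) (.nd (nat_lit 9) 
(.lf (nat_lit 597164) (.g (nat_lit 3724) (.e (nat_lit 573481) (nat_lit 13) (.e (nat_lit 65619) (nat_lit 10) (.e (nat_lit 344117) (nat_lit 21) (.e (nat_lit 516151) (nat_lit 9) (.e (nat_lit 426039) (nat_lit 0) (.e (nat_lit 2458) (nat_lit 157) (.e (nat_lit 5546) (nat_lit 306) (.e (nat_lit 2600) (nat_lit 163) (.e (nat_lit 163975) (nat_lit 30) .nil))))))))) (.g (nat_lit 1) (.e (nat_lit 412704) (nat_lit 0) .nil) .nil))) 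
(.lf (nat_lit 597676) (.g (nat_lit 3723) (.e (nat_lit 573482) (nat_lit 13) (.e (nat_lit 65619) (nat_lit 10) (.e (nat_lit 344117) (nat_lit 21) (.e (nat_lit 516151) (nat_lit 9) (.e (nat_lit 426042) (nat_lit 0) (.e (nat_lit 3406) (nat_lit 212) (.e (nat_lit 655375) (nat_lit 3) (.e (nat_lit 163977) (nat_lit 30) .nil)))))))) (.g (nat_lit 1) (.e (nat_lit 413350) (nat_lit 0) .nil) .nil)))) 
(.nd (nat_lit 9) 
(.lf (nat_lit 597420) (.g (nat_lit 2820) (.e (nat_lit 573482) (nat_lit 13) (.e (nat_lit 65604) (nat_lit 9) (.e (nat_lit 336013) (nat_lit 2) (.e (nat_lit 90170) (nat_lit 13) (.e (nat_lit 172046) (nat_lit 0) (.e (nat_lit 2458) (nat_lit 157) (.e (nat_lit 5543) (nat_lit 306) (.e (nat_lit 2610) (nat_lit 163) (.e (nat_lit 163979) (nat_lit 30) .nil))))))))) (.g (nat_lit 1) (.e (nat_lit 413083) (nat_lit 0) .nil) .nil))) 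
(.lf (nat_lit 597932) (.g (nat_lit 5888) (.e (nat_lit 573484) (nat_lit 13) (.e (nat_lit 65610) (nat_lit 10) (.e (nat_lit 344117) (nat_lit 21) (.e (nat_lit 516106) (nat_lit 0) (.e (nat_lit 6986) (nat_lit 377) (.e (nat_lit 2777) (nat_lit 178) (.e (nat_lit 286765) (nat_lit 15) (.e (nat_lit 3307) (nat_lit 202) .nil)))))))) (.g (nat_lit 1) (.e (nat_lit 413704) (nat_lit 0) .nil) .nil)))))) 
(.nd (nat_lit 7) (.nd (nat_lit 8) (.nd (nat_lit 9) 
(.lf (nat_lit 597100) (.g (nat_lit 3963) (.e (nat_lit 573481) (nat_lit 13) (.e (nat_lit 65619) (nat_lit 10) (.e (nat_lit 344117) (nat_lit 21) (.e (nat_lit 516145) (nat_lit 9) (.e (nat_lit 426375) (nat_lit 15) (.e (nat_lit 2056) (nat_lit 142) (.e (nat_lit 704589) (nat_lit 3) (.e (nat_lit 163976) (nat_lit 30) .nil)))))))) (.g (nat_lit 1) (.e (nat_lit 412640) (nat_lit 0) .nil) .nil))) 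
(.lf (nat_lit 597612) (.g (nat_lit 3443) (.e (nat_lit 573482) (nat_lit 13) (.e (nat_lit 65619) (nat_lit 10) (.e (nat_lit 344117) (nat_lit 21) (.e (nat_lit 516145) (nat_lit 9) (.e (nat_lit 426399) (nat_lit 15) .nil))))) (.g (nat_lit 0) (.e (nat_lit 413286) (nat_lit 0) .nil) .nil)))) (.nd (nat_lit 9) 
(.lf (nat_lit 597356) (.g (nat_lit 4086) (.e (nat_lit 573482) (nat_lit 13) (.e (nat_lit 65598) (nat_lit 9) (.e (nat_lit 336013) (nat_lit 2) (.e (nat_lit 90134) (nat_lit 9) (.e (nat_lit 3096) (nat_lit 192) .nil))))) (.g (nat_lit 0) (.e (nat_lit 413013) (nat_lit 0) .nil) .nil))) 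
(.lf (nat_lit 597868) (.g (nat_lit 345) (.e (nat_lit 573482) (nat_lit 13) (.e (nat_lit 65628) (nat_lit 14) (.e (nat_lit 401428) (nat_lit 3) .nil))) (.g (nat_lit 0) (.e (nat_lit 413584) (nat_lit 0) .nil) .nil))))) (.nd (nat_lit 8) (.nd (nat_lit 9) 
(.lf (nat_lit 597228) (.g (nat_lit 3154) (.e (nat_lit 573481) (nat_lit 13) (.e (nat_lit 65619) (nat_lit 10) (.e (nat_lit 344117) (nat_lit 21) (.e (nat_lit 516151) (nat_lit 9) (.e (nat_lit 426465) (nat_lit 24) (.e (nat_lit 163584) (nat_lit 3) (.e (nat_lit 163976) (nat_lit 30) .nil))))))) (.g (nat_lit 1) (.e (nat_lit 412771) (nat_lit 0) .nil) .nil))) 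
(.lf (nat_lit 597740) (.g (nat_lit 4101) (.e (nat_lit 573482) (nat_lit 13) (.e (nat_lit 65619) (nat_lit 10) (.e (nat_lit 344117) (nat_lit 21) (.e (nat_lit 516160) (nat_lit 10) (.e (nat_lit 434209) (nat_lit 18) (.e (nat_lit 5546) (nat_lit 306) (.e (nat_lit 2611) (nat_lit 163) (.e (nat_lit 163979) (nat_lit 30) .nil)))))))) (.g (nat_lit 1) (.e (nat_lit 413414) (nat_lit 0) .nil) .nil)))) 
(.nd (nat_lit 9) 
(.lf (nat_lit 597484) (.g (nat_lit 3938) (.e (nat_lit 573482) (nat_lit 13) (.e (nat_lit 65604) (nat_lit 9) (.e (nat_lit 336013) (nat_lit 2) (.e (nat_lit 90170) (nat_lit 13) (.e (nat_lit 172136) (nat_lit 15) (.e (nat_lit 2056) (nat_lit 142) (.e (nat_lit 704589) (nat_lit 3) (.e (nat_lit 163979) (nat_lit 30) .nil)))))))) (.g (nat_lit 1) (.e (nat_lit 413147) (nat_lit 0) .nil) .nil))) 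
(.lf (nat_lit 597996) (.g (nat_lit 4038) (.e (nat_lit 573484) (nat_lit 13) (.e (nat_lit 65610) (nat_lit 10) (.e (nat_lit 344117) (nat_lit 21) (.e (nat_lit 516151) (nat_lit 9) (.e (nat_lit 426041) (nat_lit 0) (.e (nat_lit 3406) (nat_lit 212) (.e (nat_lit 655375) (nat_lit 3) (.e (nat_lit 163977) (nat_lit 30) .nil)))))))) (.g (nat_lit 1) (.e (nat_lit 413859) (nat_lit 0) .nil) .nil)))))))) 
(.nd (nat_lit 5) (.nd (nat_lit 6) (.nd (nat_lit 7) (.nd (nat_lit 8) (.nd (nat_lit 9) 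
(.lf (nat_lit 597020) (.g (nat_lit 4755) (.e (nat_lit 573481) (nat_lit 13) (.e (nat_lit 65610) (nat_lit 10) (.e (nat_lit 344117) (nat_lit 21) (.e (nat_lit 516151) (nat_lit 9) (.e (nat_lit 426412) (nat_lit 15) (.e (nat_lit 2058) (nat_lit 142) (.e (nat_lit 704589) (nat_lit 3) (.e (nat_lit 163976) (nat_lit 30) .nil)))))))) (.g (nat_lit 1) (.e (nat_lit 412543) (nat_lit 0) .nil) .nil))) 
(.lf (nat_lit 597532) (.g (nat_lit 3082) (.e (nat_lit 573482) (nat_lit 13) (.e (nat_lit 65610) (nat_lit 10) (.e (nat_lit 344117) (nat_lit 21) (.e (nat_lit 516151) (nat_lit 9) (.e (nat_lit 426396) (nat_lit 15) .nil))))) (.g (nat_lit 0) (.e (nat_lit 413202) (nat_lit 0) .nil) .nil)))) (.nd (nat_lit 9) 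
(.lf (nat_lit 597276) (.g (nat_lit 2609) (.e (nat_lit 573481) (nat_lit 13) (.e (nat_lit 65619) (nat_lit 10) (.e (nat_lit 344117) (nat_lit 21) (.e (nat_lit 516184) (nat_lit 16) (.e (nat_lit 491547) (nat_lit 9) .nil))))) (.g (nat_lit 0) (.e (nat_lit 412836) (nat_lit 0) .nil) .nil))) 
(.lf (nat_lit 597788) (.g (nat_lit 2179) (.e (nat_lit 573482) (nat_lit 13) (.e (nat_lit 65619) (nat_lit 10) (.e (nat_lit 344129) (nat_lit 26) (.e (nat_lit 557065) (nat_lit 9) (.e (nat_lit 7936) (nat_lit 23) .nil))))) (.g (nat_lit 0) (.e (nat_lit 413472) (nat_lit 0) .nil) .nil))))) (.nd (nat_lit 8) (.nd (nat_lit 9) 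
(.lf (nat_lit 597148) (.g (nat_lit 2658) (.e (nat_lit 573481) (nat_lit 13) (.e (nat_lit 65619) (nat_lit 10) (.e (nat_lit 344117) (nat_lit 21) (.e (nat_lit 516147) (nat_lit 9) (.e (nat_lit 426420) (nat_lit 15) (.e (nat_lit 2059) (nat_lit 142) (.e (nat_lit 704589) (nat_lit 3) (.e (nat_lit 163975) (nat_lit 30) .nil)))))))) (.g (nat_lit 1) (.e (nat_lit 412688) (nat_lit 0) .nil) .nil))) 
(.lf (nat_lit 597660) (.g (nat_lit 4156) (.e (nat_lit 573482) (nat_lit 13) (.e (nat_lit 65619) (nat_lit 10) (.e (nat_lit 344117) (nat_lit 21) (.e (nat_lit 516151) (nat_lit 9) (.e (nat_lit 426039) (nat_lit 0) (.e (nat_lit 2458) (nat_lit 157) (.e (nat_lit 5548) (nat_lit 306) (.e (nat_lit 2610) (nat_lit 163) (.e (nat_lit 163979) (nat_lit 30) .nil))))))))) (.g (nat_lit 1) (.e (nat_lit 413334) (nat_lit 0) .nil) .nil)))) 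
(.nd (nat_lit 9) 
(.lf (nat_lit 597404) (.g (nat_lit 3091) (.e (nat_lit 573482) (nat_lit 13) (.e (nat_lit 65604) (nat_lit 9) (.e (nat_lit 336013) (nat_lit 2) (.e (nat_lit 90170) (nat_lit 13) (.e (nat_lit 172038) (nat_lit 0) (.e (nat_lit 3399) (nat_lit 211) (.e (nat_lit 647181) (nat_lit 3) (.e (nat_lit 163979) (nat_lit 30) .nil)))))))) (.g (nat_lit 1) (.e (nat_lit 413067) (nat_lit 0) .nil) .nil))) 
(.lf (nat_lit 597916) (.g (nat_lit 2707) (.e (nat_lit 573484) (nat_lit 13) (.e (nat_lit 65610) (nat_lit 10) (.e (nat_lit 344115) (nat_lit 20) (.e (nat_lit 507922) (nat_lit 6) (.e (nat_lit 286748) (nat_lit 9) (.e (nat_lit 336295) (nat_lit 15) (.e (nat_lit 3305) (nat_lit 202) .nil))))))) (.g (nat_lit 1) (.e (nat_lit 413680) (nat_lit 0) .nil) .nil)))))) 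
(.nd (nat_lit 7) (.nd (nat_lit 8) (.nd (nat_lit 9) 
(.lf (nat_lit 597084) (.g (nat_lit 3499) (.e (nat_lit 573481) (nat_lit 13) (.e (nat_lit 65619) (nat_lit 10) (.e (nat_lit 344117) (nat_lit 21) (.e (nat_lit 516145) (nat_lit 9) (.e (nat_lit 426352) (nat_lit 15) .nil))))) (.g (nat_lit 0) (.e (nat_lit 412624) (nat_lit 0) .nil) .nil))) 
(.lf (nat_lit 597596) (.g (nat_lit 3399) (.e (nat_lit 573482) (nat_lit 13) (.e (nat_lit 65619) (nat_lit 10) (.e (nat_lit 344117) (nat_lit 21) (.e (nat_lit 516145) (nat_lit 9) (.e (nat_lit 426360) (nat_lit 15) (.e (nat_lit 2056) (nat_lit 142) (.e (nat_lit 704589) (nat_lit 3) (.e (nat_lit 163979) (nat_lit 30) .nil)))))))) (.g (nat_lit 1) (.e (nat_lit 413270) (nat_lit 0) .nil) .nil)))) 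
(.nd (nat_lit 9) 
(.lf (nat_lit 597340) (.g (nat_lit 1127) (.e (nat_lit 573481) (nat_lit 13) (.e (nat_lit 65630) (nat_lit 14) (.e (nat_lit 401428) (nat_lit 3) (.e (nat_lit 204866) (nat_lit 28) .nil)))) (.g (nat_lit 0) (.e (nat_lit 412945) (nat_lit 0) .nil) .nil))) 
(.lf (nat_lit 597852) (.g (nat_lit 2403) (.e (nat_lit 573482) (nat_lit 13) (.e (nat_lit 65619) (nat_lit 10) (.e (nat_lit 344129) (nat_lit 26) (.e (nat_lit 557087) (nat_lit 11) (.e (nat_lit 24636) (nat_lit 9) (.e (nat_lit 343808) (nat_lit 15) (.e (nat_lit 3308) (nat_lit 202) .nil))))))) (.g (nat_lit 1) (.e (nat_lit 413549) (nat_lit 0) .nil) .nil))))) (.nd (nat_lit 8) (.nd (nat_lit 9) 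
(.lf (nat_lit 597212) (.g (nat_lit 3503) (.e (nat_lit 573481) (nat_lit 13) (.e (nat_lit 65619) (nat_lit 10) (.e (nat_lit 344117) (nat_lit 21) (.e (nat_lit 516151) (nat_lit 9) (.e (nat_lit 426372) (nat_lit 15) .nil))))) (.g (nat_lit 0) (.e (nat_lit 412755) (nat_lit 0) .nil) .nil))) 
(.lf (nat_lit 597724) (.g (nat_lit 2289) (.e (nat_lit 573482) (nat_lit 13) (.e (nat_lit 65619) (nat_lit 10) (.e (nat_lit 344117) (nat_lit 21) (.e (nat_lit 516159) (nat_lit 10) (.e (nat_lit 434202) (nat_lit 18) .nil))))) (.g (nat_lit 0) (.e (nat_lit 413398) (nat_lit 0) .nil) .nil)))) (.nd (nat_lit 9) 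
(.lf (nat_lit 597468) (.g (nat_lit 1947) (.e (nat_lit 573482) (nat_lit 13) (.e (nat_lit 65604) (nat_lit 9) (.e (nat_lit 336013) (nat_lit 2) (.e (nat_lit 90170) (nat_lit 13) (.e (nat_lit 172068) (nat_lit 4) .nil))))) (.g (nat_lit 0) (.e (nat_lit 413131) (nat_lit 0) .nil) .nil))) 
(.lf (nat_lit 597980) (.g (nat_lit 2885) (.e (nat_lit 573484) (nat_lit 13) (.e (nat_lit 65610) (nat_lit 10) (.e (nat_lit 344117) (nat_lit 21) (.e (nat_lit 516151) (nat_lit 9) (.e (nat_lit 426038) (nat_lit 0) .nil))))) (.g (nat_lit 0) (.e (nat_lit 413813) (nat_lit 0) .nil) .nil))))))) (.nd (nat_lit 6) (.nd (nat_lit 7) (.nd (nat_lit 8) (.nd (nat_lit 9) 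
(.lf (nat_lit 597052) (.g (nat_lit 4059) (.e (nat_lit 573481) (nat_lit 13) (.e (nat_lit 65619) (nat_lit 10) (.e (nat_lit 344117) (nat_lit 21) (.e (nat_lit 516139) (nat_lit 7) (.e (nat_lit 409642) (nat_lit 17) (.e (nat_lit 294966) (nat_lit 15) (.e (nat_lit 3297) (nat_lit 202) .nil))))))) (.g (nat_lit 1) (.e (nat_lit 412592) (nat_lit 0) .nil) .nil))) 
(.lf (nat_lit 597564) (.g (nat_lit 1519) (.e (nat_lit 573482) (nat_lit 13) (.e (nat_lit 65619) (nat_lit 10) (.e (nat_lit 344117) (nat_lit 21) (.e (nat_lit 516106) (nat_lit 0) (.e (nat_lit 7936) (nat_lit 388) .nil))))) (.g (nat_lit 0) (.e (nat_lit 413235) (nat_lit 0) .nil) .nil)))) (.nd (nat_lit 9) 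
(.lf (nat_lit 597308) (.g (nat_lit 4114) (.e (nat_lit 573481) (nat_lit 13) (.e (nat_lit 65620) (nat_lit 10) (.e (nat_lit 344117) (nat_lit 21) (.e (nat_lit 516151) (nat_lit 9) (.e (nat_lit 426412) (nat_lit 15) .nil))))) (.g (nat_lit 0) (.e (nat_lit 412893) (nat_lit 0) .nil) .nil))) 
(.lf (nat_lit 597820) (.g (nat_lit 3298) (.e (nat_lit 573482) (nat_lit 13) (.e (nat_lit 65619) (nat_lit 10) (.e (nat_lit 344129) (nat_lit 26) (.e (nat_lit 557087) (nat_lit 11) (.e (nat_lit 24584) (nat_lit 0) (.e (nat_lit 6475) (nat_lit 343) (.e (nat_lit 75) (nat_lit 0) (.e (nat_lit 3308) (nat_lit 202) .nil)))))))) (.g (nat_lit 1) (.e (nat_lit 413515) (nat_lit 0) .nil) .nil))))) 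
(.nd (nat_lit 8) (.nd (nat_lit 9) 
(.lf (nat_lit 597180) (.g (nat_lit 3061) (.e (nat_lit 573481) (nat_lit 13) (.e (nat_lit 65619) (nat_lit 10) (.e (nat_lit 344117) (nat_lit 21) (.e (nat_lit 516151) (nat_lit 9) (.e (nat_lit 426042) (nat_lit 0) (.e (nat_lit 3407) (nat_lit 212) (.e (nat_lit 655373) (nat_lit 3) (.e (nat_lit 163976) (nat_lit 30) .nil)))))))) (.g (nat_lit 1) (.e (nat_lit 412720) (nat_lit 0) .nil) .nil))) 
(.lf (nat_lit 597692) (.g (nat_lit 5411) (.e (nat_lit 573482) (nat_lit 13) (.e (nat_lit 65619) (nat_lit 10) (.e (nat_lit 344117) (nat_lit 21) (.e (nat_lit 516151) (nat_lit 9) (.e (nat_lit 426097) (nat_lit 1) (.e (nat_lit 164348) (nat_lit 240) (.e (nat_lit 2610) (nat_lit 163) (.e (nat_lit 163979) (nat_lit 30) .nil)))))))) (.g (nat_lit 1) (.e (nat_lit 413366) (nat_lit 0) .nil) .nil)))) 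
(.nd (nat_lit 9) 
(.lf (nat_lit 597436) (.g (nat_lit 2608) (.e (nat_lit 573482) (nat_lit 13) (.e (nat_lit 65604) (nat_lit 9) (.e (nat_lit 336013) (nat_lit 2) (.e (nat_lit 90170) (nat_lit 13) (.e (nat_lit 172049) (nat_lit 0) (.e (nat_lit 2458) (nat_lit 157) (.e (nat_lit 5548) (nat_lit 306) (.e (nat_lit 2611) (nat_lit 163) (.e (nat_lit 163977) (nat_lit 30) .nil))))))))) (.g (nat_lit 1) (.e (nat_lit 413099) (nat_lit 0) .nil) .nil))) 
(.lf (nat_lit 597948) (.g (nat_lit 3584) (.e (nat_lit 573484) (nat_lit 13) (.e (nat_lit 65610) (nat_lit 10) (.e (nat_lit 344117) (nat_lit 21) (.e (nat_lit 516139) (nat_lit 7) (.e (nat_lit 409624) (nat_lit 10) .nil))))) (.g (nat_lit 0) (.e (nat_lit 413735) (nat_lit 0) .nil) .nil)))))) (.nd (nat_lit 7) (.nd (nat_lit 8) (.nd (nat_lit 9) 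
(.lf (nat_lit 597116) (.g (nat_lit 3889) (.e (nat_lit 573481) (nat_lit 13) (.e (nat_lit 65619) (nat_lit 10) (.e (nat_lit 344117) (nat_lit 21) (.e (nat_lit 516145) (nat_lit 9) (.e (nat_lit 426393) (nat_lit 15) (.e (nat_lit 2059) (nat_lit 142) (.e (nat_lit 704589) (nat_lit 3) (.e (nat_lit 163975) (nat_lit 30) .nil)))))))) (.g (nat_lit 1) (.e (nat_lit 412656) (nat_lit 0) .nil) .nil))) 
(.lf (nat_lit 597628) (.g (nat_lit 4114) (.e (nat_lit 573482) (nat_lit 13) (.e (nat_lit 65619) (nat_lit 10) (.e (nat_lit 344117) (nat_lit 21) (.e (nat_lit 516151) (nat_lit 9) (.e (nat_lit 426018) (nat_lit 0) (.e (nat_lit 2536) (nat_lit 157) (.e (nat_lit 5543) (nat_lit 306) (.e (nat_lit 2610) (nat_lit 163) (.e (nat_lit 163979) (nat_lit 30) .nil))))))))) (.g (nat_lit 1) (.e (nat_lit 413302) (nat_lit 0) .nil) .nil)))) 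
(.nd (nat_lit 9) 
(.lf (nat_lit 597372) (.g (nat_lit 1058) (.e (nat_lit 573482) (nat_lit 13) (.e (nat_lit 65604) (nat_lit 9) (.e (nat_lit 336013) (nat_lit 2) (.e (nat_lit 90134) (nat_lit 9) .nil)))) (.g (nat_lit 0) (.e (nat_lit 413029) (nat_lit 0) .nil) .nil))) 
(.lf (nat_lit 597884) (.g (nat_lit 762) (.e (nat_lit 573483) (nat_lit 13) (.e (nat_lit 65571) (nat_lit 3) (.e (nat_lit 106240) (nat_lit 15) .nil))) (.g (nat_lit 0) (.e (nat_lit 413620) (nat_lit 0) .nil) .nil))))) (.nd (nat_lit 8) (.nd (nat_lit 9) 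
(.lf (nat_lit 597244) (.g (nat_lit 1687) (.e (nat_lit 573481) (nat_lit 13) (.e (nat_lit 65619) (nat_lit 10) (.e (nat_lit 344117) (nat_lit 21) (.e (nat_lit 516161) (nat_lit 10) .nil)))) (.g (nat_lit 0) (.e (nat_lit 412790) (nat_lit 0) .nil) .nil))) 
(.lf (nat_lit 597756) (.g (nat_lit 3626) (.e (nat_lit 573482) (nat_lit 13) (.e (nat_lit 65619) (nat_lit 10) (.e (nat_lit 344117) (nat_lit 21) (.e (nat_lit 516160) (nat_lit 10) (.e (nat_lit 434272) (nat_lit 38) (.e (nat_lit 655374) (nat_lit 3) (.e (nat_lit 163977) (nat_lit 30) .nil))))))) (.g (nat_lit 1) (.e (nat_lit 413430) (nat_lit 0) .nil) .nil)))) (.nd (nat_lit 9) 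
(.lf (nat_lit 597500) (.g (nat_lit 1960) (.e (nat_lit 573482) (nat_lit 13) (.e (nat_lit 65604) (nat_lit 9) (.e (nat_lit 336028) (nat_lit 3) (.e (nat_lit 98359) (nat_lit 26) (.e (nat_lit 426037) (nat_lit 0) .nil))))) (.g (nat_lit 0) (.e (nat_lit 413164) (nat_lit 0) .nil) .nil))) 
(.lf (nat_lit 598012) (.g (nat_lit 3353) (.e (nat_lit 573484) (nat_lit 13) (.e (nat_lit 65610) (nat_lit 10) (.e (nat_lit 344117) (nat_lit 21) (.e (nat_lit 516151) (nat_lit 9) (.e (nat_lit 426050) (nat_lit 0) (.e (nat_lit 2478) (nat_lit 157) (.e (nat_lit 5548) (nat_lit 306) (.e (nat_lit 2610) (nat_lit 163) (.e (nat_lit 163978) (nat_lit 30) .nil))))))))) (.g (nat_lit 1) (.e (nat_lit 413883) (nat_lit 0) .nil) .nil))))))))))) 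
(.nd (nat_lit 2) (.nd (nat_lit 3) (.nd (nat_lit 4) (.nd (nat_lit 5) (.nd (nat_lit 6) 
(.nd (nat_lit 7) (.nd (nat_lit 8) (.nd (nat_lit 9) 
(.lf (nat_lit 596994) (.g (nat_lit 2946) (.e (nat_lit 573481) (nat_lit 13) (.e (nat_lit 65604) (nat_lit 9) (.e (nat_lit 336028) (nat_lit 3) (.e (nat_lit 98384) (nat_lit 32) (.e (nat_lit 475201) (nat_lit 40) (.e (nat_lit 712448) (nat_lit 3) (.e (nat_lit 163975) (nat_lit 30) .nil))))))) (.g (nat_lit 1) (.e (nat_lit 412517) (nat_lit 0) .nil) .nil))) 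
(.lf (nat_lit 597506) (.g (nat_lit 2622) (.e (nat_lit 573482) (nat_lit 13) (.e (nat_lit 65604) (nat_lit 9) (.e (nat_lit 336028) (nat_lit 3) (.e (nat_lit 98365) (nat_lit 26) (.e (nat_lit 426107) (nat_lit 1) .nil))))) (.g (nat_lit 0) (.e (nat_lit 413173) (nat_lit 0) .nil) .nil)))) (.nd (nat_lit 9) 
(.lf (nat_lit 597250) (.g (nat_lit 3987) (.e (nat_lit 573481) (nat_lit 13) (.e (nat_lit 65619) (nat_lit 10) (.e (nat_lit 344117) (nat_lit 21) (.e (nat_lit 516179) (nat_lit 15) (.e (nat_lit 475196) (nat_lit 40) .nil))))) (.g (nat_lit 0) (.e (nat_lit 412810) (nat_lit 0) .nil) .nil))) 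
(.lf (nat_lit 597762) (.g (nat_lit 2978) (.e (nat_lit 573482) (nat_lit 13) (.e (nat_lit 65619) (nat_lit 10) (.e (nat_lit 344117) (nat_lit 21) (.e (nat_lit 516170) (nat_lit 13) (.e (nat_lit 458774) (nat_lit 18) (.e (nat_lit 5548) (nat_lit 306) (.e (nat_lit 2600) (nat_lit 163) (.e (nat_lit 163977) (nat_lit 30) .nil)))))))) (.g (nat_lit 1) (.e (nat_lit 413436) (nat_lit 0) .nil) .nil))))) 
(.nd (nat_lit 8) (.nd (nat_lit 9) 
(.lf (nat_lit 597122) (.g (nat_lit 3522) (.e (nat_lit 573481) (nat_lit 13) (.e (nat_lit 65619) (nat_lit 10) (.e (nat_lit 344117) (nat_lit 21) (.e (nat_lit 516145) (nat_lit 9) (.e (nat_lit 426420) (nat_lit 15) .nil))))) (.g (nat_lit 0) (.e (nat_lit 412662) (nat_lit 0) .nil) .nil))) 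
(.lf (nat_lit 597634) (.g (nat_lit 2625) (.e (nat_lit 573482) (nat_lit 13) (.e (nat_lit 65619) (nat_lit 10) (.e (nat_lit 344117) (nat_lit 21) (.e (nat_lit 516151) (nat_lit 9) (.e (nat_lit 426022) (nat_lit 0) (.e (nat_lit 7936) (nat_lit 211) (.e (nat_lit 647181) (nat_lit 3) (.e (nat_lit 163977) (nat_lit 30) .nil)))))))) (.g (nat_lit 1) (.e (nat_lit 413308) (nat_lit 0) .nil) .nil)))) 
(.nd (nat_lit 9) 
(.lf (nat_lit 597378) (.g (nat_lit 1964) (.e (nat_lit 573482) (nat_lit 13) (.e (nat_lit 65604) (nat_lit 9) (.e (nat_lit 336013) (nat_lit 2) (.e (nat_lit 90134) (nat_lit 9) (.e (nat_lit 3098) (nat_lit 192) .nil))))) (.g (nat_lit 0) (.e (nat_lit 413041) (nat_lit 0) .nil) .nil))) 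
(.lf (nat_lit 597890) (.g (nat_lit 2905) (.e (nat_lit 573483) (nat_lit 13) (.e (nat_lit 65610) (nat_lit 10) (.e (nat_lit 344117) (nat_lit 21) (.e (nat_lit 516179) (nat_lit 15) (.e (nat_lit 475198) (nat_lit 40) .nil))))) (.g (nat_lit 0) (.e (nat_lit 413626) (nat_lit 0) .nil) .nil)))))) (.nd (nat_lit 7) (.nd (nat_lit 8) (.nd (nat_lit 9) 
(.lf (nat_lit 597058) (.g (nat_lit 3899) (.e (nat_lit 573481) (nat_lit 13) (.e (nat_lit 65619) (nat_lit 10) (.e (nat_lit 344117) (nat_lit 21) (.e (nat_lit 516143) (nat_lit 9) (.e (nat_lit 426412) (nat_lit 15) (.e (nat_lit 2059) (nat_lit 142) (.e (nat_lit 704589) (nat_lit 3) (.e (nat_lit 163975) (nat_lit 30) .nil)))))))) (.g (nat_lit 1) (.e (nat_lit 412598) (nat_lit 0) .nil) .nil))) 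
(.lf (nat_lit 597570) (.g (nat_lit 2269) (.e (nat_lit 573482) (nat_lit 13) (.e (nat_lit 65619) (nat_lit 10) (.e (nat_lit 344117) (nat_lit 21) (.e (nat_lit 516143) (nat_lit 9) (.e (nat_lit 426142) (nat_lit 4) .nil))))) (.g (nat_lit 0) (.e (nat_lit 413244) (nat_lit 0) .nil) .nil)))) (.nd (nat_lit 9) 
(.lf (nat_lit 597314) (.g (nat_lit 2841) (.e (nat_lit 573481) (nat_lit 13) (.e (nat_lit 65628) (nat_lit 14) (.e (nat_lit 401425) (nat_lit 2) (.e (nat_lit 196681) (nat_lit 17) (.e (nat_lit 131107) (nat_lit 9) .nil))))) (.g (nat_lit 0) (.e (nat_lit 412914) (nat_lit 0) .nil) .nil))) 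
(.lf (nat_lit 597826) (.g (nat_lit 2904) (.e (nat_lit 573482) (nat_lit 13) (.e (nat_lit 65619) (nat_lit 10) (.e (nat_lit 344129) (nat_lit 26) (.e (nat_lit 557087) (nat_lit 11) (.e (nat_lit 24597) (nat_lit 1) (.e (nat_lit 57770) (nat_lit 227) (.e (nat_lit 2611) (nat_lit 163) (.e (nat_lit 163979) (nat_lit 30) .nil)))))))) (.g (nat_lit 1) (.e (nat_lit 413521) (nat_lit 0) .nil) .nil))))) 
(.nd (nat_lit 8) (.nd (nat_lit 9) 
(.lf (nat_lit 597186) (.g (nat_lit 3891) (.e (nat_lit 573481) (nat_lit 13) (.e (nat_lit 65619) (nat_lit 10) (.e (nat_lit 344117) (nat_lit 21) (.e (nat_lit 516151) (nat_lit 9) (.e (nat_lit 426042) (nat_lit 0) (.e (nat_lit 3408) (nat_lit 212) (.e (nat_lit 655375) (nat_lit 3) (.e (nat_lit 163979) (nat_lit 30) .nil)))))))) (.g (nat_lit 1) (.e (nat_lit 412726) (nat_lit 0) .nil) .nil))) 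
(.lf (nat_lit 597698) (.g (nat_lit 3213) (.e (nat_lit 573482) (nat_lit 13) (.e (nat_lit 65619) (nat_lit 10) (.e (nat_lit 344117) (nat_lit 21) (.e (nat_lit 516151) (nat_lit 9) (.e (nat_lit 426104) (nat_lit 1) (.e (nat_lit 164345) (nat_lit 240) (.e (nat_lit 2598) (nat_lit 163) (.e (nat_lit 163979) (nat_lit 30) .nil)))))))) (.g (nat_lit 1) (.e (nat_lit 413372) (nat_lit 0) .nil) .nil)))) 
(.nd (nat_lit 9) 
(.lf (nat_lit 597442) (.g (nat_lit 3696) (.e (nat_lit 573482) (nat_lit 13) (.e (nat_lit 65604) (nat_lit 9) (.e (nat_lit 336013) (nat_lit 2) (.e (nat_lit 90170) (nat_lit 13) (.e (nat_lit 172051) (nat_lit 0) (.e (nat_lit 3409) (nat_lit 212) (.e (nat_lit 655375) (nat_lit 3) (.e (nat_lit 163979) (nat_lit 30) .nil)))))))) (.g (nat_lit 1) (.e (nat_lit 413105) (nat_lit 0) .nil) .nil))) 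
(.lf (nat_lit 597954) (.g (nat_lit 3235) (.e (nat_lit 573484) (nat_lit 13) (.e (nat_lit 65610) (nat_lit 10) (.e (nat_lit 344117) (nat_lit 21) (.e (nat_lit 516145) (nat_lit 9) (.e (nat_lit 425992) (nat_lit 0) (.e (nat_lit 2475) (nat_lit 157) (.e (nat_lit 5548) (nat_lit 306) (.e (nat_lit 2610) (nat_lit 163) (.e (nat_lit 163978) (nat_lit 30) .nil))))))))) (.g (nat_lit 1) (.e (nat_lit 413749) (nat_lit 0) .nil) .nil))))))) 
(.nd (nat_lit 6) (.nd (nat_lit 7) (.nd (nat_lit 8) (.nd (nat_lit 9) 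
(.lf (nat_lit 597026) (.g (nat_lit 2257) (.e (nat_lit 573481) (nat_lit 13) (.e (nat_lit 65613) (nat_lit 10) (.e (nat_lit 344119) (nat_lit 21) (.e (nat_lit 516182) (nat_lit 15) (.e (nat_lit 475199) (nat_lit 40) (.e (nat_lit 704589) (nat_lit 3) (.e (nat_lit 163976) (nat_lit 30) .nil))))))) (.g (nat_lit 1) (.e (nat_lit 412549) (nat_lit 0) .nil) .nil))) 
(.lf (nat_lit 597538) (.g (nat_lit 2333) (.e (nat_lit 573482) (nat_lit 13) (.e (nat_lit 65618) (nat_lit 10) (.e (nat_lit 344117) (nat_lit 21) (.e (nat_lit 516106) (nat_lit 0) (.e (nat_lit 7556) (nat_lit 402) .nil))))) (.g (nat_lit 0) (.e (nat_lit 413208) (nat_lit 0) .nil) .nil)))) (.nd (nat_lit 9) 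
(.lf (nat_lit 597282) (.g (nat_lit 2642) (.e (nat_lit 573481) (nat_lit 13) (.e (nat_lit 65619) (nat_lit 10) (.e (nat_lit 344117) (nat_lit 21) (.e (nat_lit 516185) (nat_lit 16) (.e (nat_lit 491556) (nat_lit 9) (.e (nat_lit 343808) (nat_lit 15) (.e (nat_lit 3298) (nat_lit 202) .nil))))))) (.g (nat_lit 1) (.e (nat_lit 412842) (nat_lit 0) .nil) .nil))) 
(.lf (nat_lit 597794) (.g (nat_lit 2218) (.e (nat_lit 573482) (nat_lit 13) (.e (nat_lit 65619) (nat_lit 10) (.e (nat_lit 344129) (nat_lit 26) (.e (nat_lit 557066) (nat_lit 9) (.e (nat_lit 305) (nat_lit 22) .nil))))) (.g (nat_lit 0) (.e (nat_lit 413481) (nat_lit 0) .nil) .nil))))) (.nd (nat_lit 8) (.nd (nat_lit 9) 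
(.lf (nat_lit 597154) (.g (nat_lit 3641) (.e (nat_lit 573481) (nat_lit 13) (.e (nat_lit 65619) (nat_lit 10) (.e (nat_lit 344117) (nat_lit 21) (.e (nat_lit 516151) (nat_lit 9) (.e (nat_lit 426018) (nat_lit 0) .nil))))) (.g (nat_lit 0) (.e (nat_lit 412694) (nat_lit 0) .nil) .nil))) 
(.lf (nat_lit 597666) (.g (nat_lit 3695) (.e (nat_lit 573482) (nat_lit 13) (.e (nat_lit 65619) (nat_lit 10) (.e (nat_lit 344117) (nat_lit 21) (.e (nat_lit 516151) (nat_lit 9) (.e (nat_lit 426042) (nat_lit 0) (.e (nat_lit 2458) (nat_lit 157) (.e (nat_lit 5546) (nat_lit 306) (.e (nat_lit 2601) (nat_lit 163) (.e (nat_lit 163977) (nat_lit 30) .nil))))))))) (.g (nat_lit 1) (.e (nat_lit 413340) (nat_lit 0) .nil) .nil)))) 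
(.nd (nat_lit 9) 
(.lf (nat_lit 597410) (.g (nat_lit 2198) (.e (nat_lit 573482) (nat_lit 13) (.e (nat_lit 65604) (nat_lit 9) (.e (nat_lit 336013) (nat_lit 2) (.e (nat_lit 90170) (nat_lit 13) (.e (nat_lit 172042) (nat_lit 0) (.e (nat_lit 2478) (nat_lit 157) (.e (nat_lit 5548) (nat_lit 306) (.e (nat_lit 2601) (nat_lit 163) (.e (nat_lit 163977) (nat_lit 30) .nil))))))))) (.g (nat_lit 1) (.e (nat_lit 413073) (nat_lit 0) .nil) .nil))) 
(.lf (nat_lit 597922) (.g (nat_lit 2974) (.e (nat_lit 573484) (nat_lit 13) (.e (nat_lit 65610) (nat_lit 10) (.e (nat_lit 344117) (nat_lit 21) (.e (nat_lit 516097) (nat_lit 0) (.e (nat_lit 7585) (nat_lit 406) .nil))))) (.g (nat_lit 0) (.e (nat_lit 413688) (nat_lit 0) .nil) .nil)))))) (.nd (nat_lit 7) (.nd (nat_lit 8) (.nd (nat_lit 9) 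
(.lf (nat_lit 597090) (.g (nat_lit 3505) (.e (nat_lit 573481) (nat_lit 13) (.e (nat_lit 65619) (nat_lit 10) (.e (nat_lit 344117) (nat_lit 21) (.e (nat_lit 516145) (nat_lit 9) (.e (nat_lit 426362) (nat_lit 15) .nil))))) (.g (nat_lit 0) (.e (nat_lit 412630) (nat_lit 0) .nil) .nil))) 
(.lf (nat_lit 597602) (.g (nat_lit 3443) (.e (nat_lit 573482) (nat_lit 13) (.e (nat_lit 65619) (nat_lit 10) (.e (nat_lit 344117) (nat_lit 21) (.e (nat_lit 516145) (nat_lit 9) (.e (nat_lit 426363) (nat_lit 15) .nil))))) (.g (nat_lit 0) (.e (nat_lit 413276) (nat_lit 0) .nil) .nil)))) (.nd (nat_lit 9) 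
(.lf (nat_lit 597346) (.g (nat_lit 1886) (.e (nat_lit 573481) (nat_lit 13) (.e (nat_lit 65637) (nat_lit 15) (.e (nat_lit 3253) (nat_lit 197) (.e (nat_lit 532503) (nat_lit 1) (.e (nat_lit 57870) (nat_lit 264) .nil))))) (.g (nat_lit 0) (.e (nat_lit 412951) (nat_lit 0) .nil) .nil))) 
(.lf (nat_lit 597858) (.g (nat_lit 4020) (.e (nat_lit 573482) (nat_lit 13) (.e (nat_lit 65619) (nat_lit 10) (.e (nat_lit 344183) (nat_lit 49) (.e (nat_lit 819219) (nat_lit 4) (.e (nat_lit 172082) (nat_lit 7) (.e (nat_lit 409612) (nat_lit 10) (.e (nat_lit 632) (nat_lit 50) .nil))))))) (.g (nat_lit 1) (.e (nat_lit 413556) (nat_lit 0) .nil) .nil))))) (.nd (nat_lit 8) (.nd (nat_lit 9) 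
(.lf (nat_lit 597218) (.g (nat_lit 3520) (.e (nat_lit 573481) (nat_lit 13) (.e (nat_lit 65619) (nat_lit 10) (.e (nat_lit 344117) (nat_lit 21) (.e (nat_lit 516151) (nat_lit 9) (.e (nat_lit 426406) (nat_lit 15) .nil))))) (.g (nat_lit 0) (.e (nat_lit 412761) (nat_lit 0) .nil) .nil))) 
(.lf (nat_lit 597730) (.g (nat_lit 5615) (.e (nat_lit 573482) (nat_lit 13) (.e (nat_lit 65619) (nat_lit 10) (.e (nat_lit 344117) (nat_lit 21) (.e (nat_lit 516159) (nat_lit 10) (.e (nat_lit 434209) (nat_lit 18) (.e (nat_lit 5548) (nat_lit 306) (.e (nat_lit 2610) (nat_lit 163) (.e (nat_lit 163979) (nat_lit 30) .nil)))))))) (.g (nat_lit 1) (.e (nat_lit 413404) (nat_lit 0) .nil) .nil)))) 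
(.nd (nat_lit 9) 
(.lf (nat_lit 597474) (.g (nat_lit 2249) (.e (nat_lit 573482) (nat_lit 13) (.e (nat_lit 65604) (nat_lit 9) (.e (nat_lit 336013) (nat_lit 2) (.e (nat_lit 90170) (nat_lit 13) (.e (nat_lit 172069) (nat_lit 4) .nil))))) (.g (nat_lit 0) (.e (nat_lit 413137) (nat_lit 0) .nil) .nil))) 
(.lf (nat_lit 597986) (.g (nat_lit 3355) (.e (nat_lit 573484) (nat_lit 13) (.e (nat_lit 65610) (nat_lit 10) (.e (nat_lit 344117) (nat_lit 21) (.e (nat_lit 516151) (nat_lit 9) (.e (nat_lit 426038) (nat_lit 0) (.e (nat_lit 3406) (nat_lit 212) (.e (nat_lit 655375) (nat_lit 3) (.e (nat_lit 163977) (nat_lit 30) .nil)))))))) (.g (nat_lit 1) (.e (nat_lit 413838) (nat_lit 0) .nil) .nil)))))))) 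
(.nd (nat_lit 5) (.nd (nat_lit 6) (.nd (nat_lit 7) (.nd (nat_lit 8) (.nd (nat_lit 9) 
(.lf (nat_lit 597010) (.g (nat_lit 2794) (.e (nat_lit 573481) (nat_lit 13) (.e (nat_lit 65609) (nat_lit 10) (.e (nat_lit 344117) (nat_lit 21) (.e (nat_lit 516179) (nat_lit 15) (.e (nat_lit 475198) (nat_lit 40) (.e (nat_lit 704589) (nat_lit 3) (.e (nat_lit 163976) (nat_lit 30) .nil))))))) (.g (nat_lit 1) (.e (nat_lit 412533) (nat_lit 0) .nil) .nil))) 
(.lf (nat_lit 597522) (.g (nat_lit 2034) (.e (nat_lit 573482) (nat_lit 13) (.e (nat_lit 65604) (nat_lit 9) (.e (nat_lit 336028) (nat_lit 3) (.e (nat_lit 98367) (nat_lit 27) (.e (nat_lit 434211) (nat_lit 18) .nil))))) (.g (nat_lit 0) (.e (nat_lit 413191) (nat_lit 0) .nil) .nil)))) (.nd (nat_lit 9) 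
(.lf (nat_lit 597266) (.g (nat_lit 3689) (.e (nat_lit 573481) (nat_lit 13) (.e (nat_lit 65619) (nat_lit 10) (.e (nat_lit 344117) (nat_lit 21) (.e (nat_lit 516181) (nat_lit 15) (.e (nat_lit 475198) (nat_lit 40) (.e (nat_lit 704589) (nat_lit 3) (.e (nat_lit 163975) (nat_lit 30) .nil))))))) (.g (nat_lit 1) (.e (nat_lit 412826) (nat_lit 0) .nil) .nil))) 
(.lf (nat_lit 597778) (.g (nat_lit 2410) (.e (nat_lit 573482) (nat_lit 13) (.e (nat_lit 65619) (nat_lit 10) (.e (nat_lit 344117) (nat_lit 21) (.e (nat_lit 516185) (nat_lit 16) (.e (nat_lit 491548) (nat_lit 9) (.e (nat_lit 336306) (nat_lit 15) (.e (nat_lit 3298) (nat_lit 202) .nil))))))) (.g (nat_lit 1) (.e (nat_lit 413452) (nat_lit 0) .nil) .nil))))) (.nd (nat_lit 8) (.nd (nat_lit 9) 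
(.lf (nat_lit 597138) (.g (nat_lit 2441) (.e (nat_lit 573481) (nat_lit 13) (.e (nat_lit 65619) (nat_lit 10) (.e (nat_lit 344117) (nat_lit 21) (.e (nat_lit 516147) (nat_lit 9) (.e (nat_lit 426375) (nat_lit 15) (.e (nat_lit 2056) (nat_lit 142) (.e (nat_lit 704589) (nat_lit 3) (.e (nat_lit 163975) (nat_lit 30) .nil)))))))) (.g (nat_lit 1) (.e (nat_lit 412678) (nat_lit 0) .nil) .nil))) 
(.lf (nat_lit 597650) (.g (nat_lit 3933) (.e (nat_lit 573482) (nat_lit 13) (.e (nat_lit 65619) (nat_lit 10) (.e (nat_lit 344117) (nat_lit 21) (.e (nat_lit 516151) (nat_lit 9) (.e (nat_lit 426040) (nat_lit 0) .nil))))) (.g (nat_lit 0) (.e (nat_lit 413324) (nat_lit 0) .nil) .nil)))) (.nd (nat_lit 9) 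
(.lf (nat_lit 597394) (.g (nat_lit 2485) (.e (nat_lit 573482) (nat_lit 13) (.e (nat_lit 65604) (nat_lit 9) (.e (nat_lit 336013) (nat_lit 2) (.e (nat_lit 90170) (nat_lit 13) (.e (nat_lit 172036) (nat_lit 0) .nil))))) (.g (nat_lit 0) (.e (nat_lit 413057) (nat_lit 0) .nil) .nil))) 
(.lf (nat_lit 597906) (.g (nat_lit 1953) (.e (nat_lit 573484) (nat_lit 13) (.e (nat_lit 65598) (nat_lit 9) (.e (nat_lit 336013) (nat_lit 2) (.e (nat_lit 90187) (nat_lit 18) .nil)))) (.g (nat_lit 0) (.e (nat_lit 413662) (nat_lit 0) .nil) .nil)))))) (.nd (nat_lit 7) (.nd (nat_lit 8) (.nd (nat_lit 9) 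
(.lf (nat_lit 597074) (.g (nat_lit 2658) (.e (nat_lit 573481) (nat_lit 13) (.e (nat_lit 65619) (nat_lit 10) (.e (nat_lit 344117) (nat_lit 21) (.e (nat_lit 516144) (nat_lit 9) (.e (nat_lit 426420) (nat_lit 15) (.e (nat_lit 2057) (nat_lit 142) (.e (nat_lit 704589) (nat_lit 3) (.e (nat_lit 163976) (nat_lit 30) .nil)))))))) (.g (nat_lit 1) (.e (nat_lit 412614) (nat_lit 0) .nil) .nil))) 
(.lf (nat_lit 597586) (.g (nat_lit 3306) (.e (nat_lit 573482) (nat_lit 13) (.e (nat_lit 65619) (nat_lit 10) (.e (nat_lit 344117) (nat_lit 21) (.e (nat_lit 516145) (nat_lit 9) (.e (nat_lit 433920) (nat_lit 1) (.e (nat_lit 164348) (nat_lit 240) (.e (nat_lit 2610) (nat_lit 163) (.e (nat_lit 163977) (nat_lit 30) .nil)))))))) (.g (nat_lit 1) (.e (nat_lit 413260) (nat_lit 0) .nil) .nil)))) 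
(.nd (nat_lit 9) 
(.lf (nat_lit 597330) (.g (nat_lit 3214) (.e (nat_lit 573481) (nat_lit 13) (.e (nat_lit 65630) (nat_lit 14) (.e (nat_lit 401425) (nat_lit 2) (.e (nat_lit 196681) (nat_lit 17) (.e (nat_lit 131104) (nat_lit 9) .nil))))) (.g (nat_lit 0) (.e (nat_lit 412935) (nat_lit 0) .nil) .nil))) 
(.lf (nat_lit 597842) (.g (nat_lit 3999) (.e (nat_lit 573482) (nat_lit 13) (.e (nat_lit 65619) (nat_lit 10) (.e (nat_lit 344129) (nat_lit 26) (.e (nat_lit 557087) (nat_lit 11) (.e (nat_lit 24625) (nat_lit 9) (.e (nat_lit 336257) (nat_lit 15) (.e (nat_lit 3308) (nat_lit 202) .nil))))))) (.g (nat_lit 1) (.e (nat_lit 413539) (nat_lit 0) .nil) .nil))))) (.nd (nat_lit 8) (.nd (nat_lit 9) 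
(.lf (nat_lit 597202) (.g (nat_lit 3625) (.e (nat_lit 573481) (nat_lit 13) (.e (nat_lit 65619) (nat_lit 10) (.e (nat_lit 344117) (nat_lit 21) (.e (nat_lit 516151) (nat_lit 9) (.e (nat_lit 426104) (nat_lit 1) (.e (nat_lit 164347) (nat_lit 240) (.e (nat_lit 2601) (nat_lit 163) (.e (nat_lit 163976) (nat_lit 30) .nil)))))))) (.g (nat_lit 1) (.e (nat_lit 412743) (nat_lit 0) .nil) .nil))) 
(.lf (nat_lit 597714) (.g (nat_lit 3909) (.e (nat_lit 573482) (nat_lit 13) (.e (nat_lit 65619) (nat_lit 10) (.e (nat_lit 344117) (nat_lit 21) (.e (nat_lit 516151) (nat_lit 9) (.e (nat_lit 426380) (nat_lit 15) (.e (nat_lit 2056) (nat_lit 142) (.e (nat_lit 704589) (nat_lit 3) (.e (nat_lit 163979) (nat_lit 30) .nil)))))))) (.g (nat_lit 1) (.e (nat_lit 413388) (nat_lit 0) .nil) .nil)))) 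
(.nd (nat_lit 9) 
(.lf (nat_lit 597458) (.g (nat_lit 3920) (.e (nat_lit 573482) (nat_lit 13) (.e (nat_lit 65604) (nat_lit 9) (.e (nat_lit 336013) (nat_lit 2) (.e (nat_lit 90170) (nat_lit 13) (.e (nat_lit 172060) (nat_lit 1) (.e (nat_lit 164345) (nat_lit 240) (.e (nat_lit 2611) (nat_lit 163) (.e (nat_lit 163979) (nat_lit 30) .nil)))))))) (.g (nat_lit 1) (.e (nat_lit 413121) (nat_lit 0) .nil) .nil))) 
(.lf (nat_lit 597970) (.g (nat_lit 3477) (.e (nat_lit 573484) (nat_lit 13) (.e (nat_lit 65610) (nat_lit 10) (.e (nat_lit 344117) (nat_lit 21) (.e (nat_lit 516151) (nat_lit 9) (.e (nat_lit 426034) (nat_lit 0) (.e (nat_lit 2515) (nat_lit 157) (.e (nat_lit 5448) (nat_lit 306) (.e (nat_lit 2612) (nat_lit 163) (.e (nat_lit 163978) (nat_lit 30) .nil))))))))) (.g (nat_lit 1) (.e (nat_lit 413789) (nat_lit 0) .nil) .nil))))))) 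
(.nd (nat_lit 6) (.nd (nat_lit 7) (.nd (nat_lit 8) (.nd (nat_lit 9) 
(.lf (nat_lit 597042) (.g (nat_lit 1183) (.e (nat_lit 573481) (nat_lit 13) (.e (nat_lit 65619) (nat_lit 10) (.e (nat_lit 344117) (nat_lit 21) (.e (nat_lit 516106) (nat_lit 0) .nil)))) (.g (nat_lit 0) (.e (nat_lit 412571) (nat_lit 0) .nil) .nil))) 
(.lf (nat_lit 597554) (.g (nat_lit 1100) (.e (nat_lit 573482) (nat_lit 13) (.e (nat_lit 65619) (nat_lit 10) (.e (nat_lit 344117) (nat_lit 21) (.e (nat_lit 516106) (nat_lit 0) .nil)))) (.g (nat_lit 0) (.e (nat_lit 413225) (nat_lit 0) .nil) .nil)))) (.nd (nat_lit 9) 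
(.lf (nat_lit 597298) (.g (nat_lit 2834) (.e (nat_lit 573481) (nat_lit 13) (.e (nat_lit 65619) (nat_lit 10) (.e (nat_lit 344129) (nat_lit 26) (.e (nat_lit 557085) (nat_lit 11) (.e (nat_lit 24627) (nat_lit 9) (.e (nat_lit 336306) (nat_lit 15) (.e (nat_lit 3298) (nat_lit 202) .nil))))))) (.g (nat_lit 1) (.e (nat_lit 412881) (nat_lit 0) .nil) .nil))) 
(.lf (nat_lit 597810) (.g (nat_lit 2919) (.e (nat_lit 573482) (nat_lit 13) (.e (nat_lit 65619) (nat_lit 10) (.e (nat_lit 344129) (nat_lit 26) (.e (nat_lit 557084) (nat_lit 10) (.e (nat_lit 8541) (nat_lit 226) .nil))))) (.g (nat_lit 0) (.e (nat_lit 413505) (nat_lit 0) .nil) .nil))))) (.nd (nat_lit 8) (.nd (nat_lit 9) 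
(.lf (nat_lit 597170) (.g (nat_lit 3186) (.e (nat_lit 573481) (nat_lit 13) (.e (nat_lit 65619) (nat_lit 10) (.e (nat_lit 344117) (nat_lit 21) (.e (nat_lit 516151) (nat_lit 9) (.e (nat_lit 426042) (nat_lit 0) (.e (nat_lit 2458) (nat_lit 157) (.e (nat_lit 5546) (nat_lit 306) (.e (nat_lit 2601) (nat_lit 163) (.e (nat_lit 163976) (nat_lit 30) .nil))))))))) (.g (nat_lit 1) (.e (nat_lit 412710) (nat_lit 0) .nil) .nil))) 
(.lf (nat_lit 597682) (.g (nat_lit 3927) (.e (nat_lit 573482) (nat_lit 13) (.e (nat_lit 65619) (nat_lit 10) (.e (nat_lit 344117) (nat_lit 21) (.e (nat_lit 516151) (nat_lit 9) (.e (nat_lit 426045) (nat_lit 0) .nil))))) (.g (nat_lit 0) (.e (nat_lit 413356) (nat_lit 0) .nil) .nil)))) (.nd (nat_lit 9) 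
(.lf (nat_lit 597426) (.g (nat_lit 3072) (.e (nat_lit 573482) (nat_lit 13) (.e (nat_lit 65604) (nat_lit 9) (.e (nat_lit 336013) (nat_lit 2) (.e (nat_lit 90170) (nat_lit 13) (.e (nat_lit 172046) (nat_lit 0) (.e (nat_lit 3407) (nat_lit 212) (.e (nat_lit 655373) (nat_lit 3) (.e (nat_lit 163979) (nat_lit 30) .nil)))))))) (.g (nat_lit 1) (.e (nat_lit 413089) (nat_lit 0) .nil) .nil))) 
(.lf (nat_lit 597938) (.g (nat_lit 2450) (.e (nat_lit 573484) (nat_lit 13) (.e (nat_lit 65610) (nat_lit 10) (.e (nat_lit 344117) (nat_lit 21) (.e (nat_lit 516115) (nat_lit 1) (.e (nat_lit 164412) (nat_lit 260) .nil))))) (.g (nat_lit 0) (.e (nat_lit 413721) (nat_lit 0) .nil) .nil)))))) (.nd (nat_lit 7) (.nd (nat_lit 8) (.nd (nat_lit 9) 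
(.lf (nat_lit 597106) (.g (nat_lit 3588) (.e (nat_lit 573481) (nat_lit 13) (.e (nat_lit 65619) (nat_lit 10) (.e (nat_lit 344117) (nat_lit 21) (.e (nat_lit 516145) (nat_lit 9) (.e (nat_lit 426376) (nat_lit 15) (.e (nat_lit 2057) (nat_lit 142) (.e (nat_lit 704589) (nat_lit 3) (.e (nat_lit 163976) (nat_lit 30) .nil)))))))) (.g (nat_lit 1) (.e (nat_lit 412646) (nat_lit 0) .nil) .nil))) 
(.lf (nat_lit 597618) (.g (nat_lit 2851) (.e (nat_lit 573482) (nat_lit 13) (.e (nat_lit 65619) (nat_lit 10) (.e (nat_lit 344117) (nat_lit 21) (.e (nat_lit 516145) (nat_lit 9) (.e (nat_lit 433920) (nat_lit 19) .nil))))) (.g (nat_lit 0) (.e (nat_lit 413292) (nat_lit 0) .nil) .nil)))) (.nd (nat_lit 9) 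
(.lf (nat_lit 597362) (.g (nat_lit 4163) (.e (nat_lit 573482) (nat_lit 13) (.e (nat_lit 65598) (nat_lit 9) (.e (nat_lit 336013) (nat_lit 2) (.e (nat_lit 90170) (nat_lit 13) (.e (nat_lit 172049) (nat_lit 0) .nil))))) (.g (nat_lit 0) (.e (nat_lit 413019) (nat_lit 0) .nil) .nil))) 
(.lf (nat_lit 597874) (.g (nat_lit 2777) (.e (nat_lit 573482) (nat_lit 13) (.e (nat_lit 65630) (nat_lit 14) (.e (nat_lit 401425) (nat_lit 2) (.e (nat_lit 196672) (nat_lit 15) (.e (nat_lit 81922) (nat_lit 0) (.e (nat_lit 3305) (nat_lit 202) .nil)))))) (.g (nat_lit 1) (.e (nat_lit 413591) (nat_lit 0) .nil) .nil))))) (.nd (nat_lit 8) (.nd (nat_lit 9) 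
(.lf (nat_lit 597234) (.g (nat_lit 3859) (.e (nat_lit 573481) (nat_lit 13) (.e (nat_lit 65619) (nat_lit 10) (.e (nat_lit 344117) (nat_lit 21) (.e (nat_lit 516159) (nat_lit 10) (.e (nat_lit 434209) (nat_lit 18) (.e (nat_lit 5547) (nat_lit 306) (.e (nat_lit 2599) (nat_lit 163) (.e (nat_lit 163976) (nat_lit 30) .nil)))))))) (.g (nat_lit 1) (.e (nat_lit 412778) (nat_lit 0) .nil) .nil))) 
(.lf (nat_lit 597746) (.g (nat_lit 2672) (.e (nat_lit 573482) (nat_lit 13) (.e (nat_lit 65619) (nat_lit 10) (.e (nat_lit 344117) (nat_lit 21) (.e (nat_lit 516160) (nat_lit 10) (.e (nat_lit 434211) (nat_lit 18) .nil))))) (.g (nat_lit 0) (.e (nat_lit 413420) (nat_lit 0) .nil) .nil)))) (.nd (nat_lit 9) 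
(.lf (nat_lit 597490) (.g (nat_lit 3463) (.e (nat_lit 573482) (nat_lit 13) (.e (nat_lit 65604) (nat_lit 9) (.e (nat_lit 336013) (nat_lit 2) (.e (nat_lit 90171) (nat_lit 14) .nil)))) (.g (nat_lit 0) (.e (nat_lit 413153) (nat_lit 0) .nil) .nil))) 
(.lf (nat_lit 598002) (.g (nat_lit 3200) (.e (nat_lit 573484) (nat_lit 13) (.e (nat_lit 65610) (nat_lit 10) (.e (nat_lit 344117) (nat_lit 21) (.e (nat_lit 516151) (nat_lit 9) (.e (nat_lit 426045) (nat_lit 0) (.e (nat_lit 3409) (nat_lit 212) (.e (nat_lit 655373) (nat_lit 3) (.e (nat_lit 163978) (nat_lit 30) .nil)))))))) (.g (nat_lit 1) (.e (nat_lit 413870) (nat_lit 0) .nil) .nil))))))))) 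
(.nd (nat_lit 4) (.nd (nat_lit 5) (.nd (nat_lit 6) (.nd (nat_lit 7) (.nd (nat_lit 8) 
(.nd (nat_lit 9) 
(.lf (nat_lit 597002) (.g (nat_lit 2648) (.e (nat_lit 573481) (nat_lit 13) (.e (nat_lit 65604) (nat_lit 9) (.e (nat_lit 336028) (nat_lit 3) (.e (nat_lit 98387) (nat_lit 33) (.e (nat_lit 491548) (nat_lit 9) (.e (nat_lit 336306) (nat_lit 15) (.e (nat_lit 3298) (nat_lit 202) .nil))))))) (.g (nat_lit 1) (.e (nat_lit 412525) (nat_lit 0) .nil) .nil))) 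
(.lf (nat_lit 597514) (.g (nat_lit 5618) (.e (nat_lit 573482) (nat_lit 13) (.e (nat_lit 65604) (nat_lit 9) (.e (nat_lit 336028) (nat_lit 3) (.e (nat_lit 98366) (nat_lit 27) (.e (nat_lit 434209) (nat_lit 18) (.e (nat_lit 5548) (nat_lit 306) (.e (nat_lit 2610) (nat_lit 163) (.e (nat_lit 163979) (nat_lit 30) .nil)))))))) (.g (nat_lit 1) (.e (nat_lit 413183) (nat_lit 0) .nil) .nil)))) 
(.nd (nat_lit 9) 
(.lf (nat_lit 597258) (.g (nat_lit 2996) (.e (nat_lit 573481) (nat_lit 13) (.e (nat_lit 65619) (nat_lit 10) (.e (nat_lit 344117) (nat_lit 21) (.e (nat_lit 516180) (nat_lit 15) (.e (nat_lit 475196) (nat_lit 40) (.e (nat_lit 704589) (nat_lit 3) (.e (nat_lit 163976) (nat_lit 30) .nil))))))) (.g (nat_lit 1) (.e (nat_lit 412818) (nat_lit 0) .nil) .nil))) 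
(.lf (nat_lit 597770) (.g (nat_lit 2753) (.e (nat_lit 573482) (nat_lit 13) (.e (nat_lit 65619) (nat_lit 10) (.e (nat_lit 344117) (nat_lit 21) (.e (nat_lit 516183) (nat_lit 16) (.e (nat_lit 491547) (nat_lit 9) (.e (nat_lit 336306) (nat_lit 15) (.e (nat_lit 3308) (nat_lit 202) .nil))))))) (.g (nat_lit 1) (.e (nat_lit 413444) (nat_lit 0) .nil) .nil))))) (.nd (nat_lit 8) (.nd (nat_lit 9) 
(.lf (nat_lit 597130) (.g (nat_lit 2930) (.e (nat_lit 573481) (nat_lit 13) (.e (nat_lit 65619) (nat_lit 10) (.e (nat_lit 344117) (nat_lit 21) (.e (nat_lit 516145) (nat_lit 9) (.e (nat_lit 433920) (nat_lit 15) .nil))))) (.g (nat_lit 0) (.e (nat_lit 412670) (nat_lit 0) .nil) .nil))) 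
(.lf (nat_lit 597642) (.g (nat_lit 4509) (.e (nat_lit 573482) (nat_lit 13) (.e (nat_lit 65619) (nat_lit 10) (.e (nat_lit 344117) (nat_lit 21) (.e (nat_lit 516151) (nat_lit 9) (.e (nat_lit 426038) (nat_lit 0) (.e (nat_lit 2458) (nat_lit 157) (.e (nat_lit 5546) (nat_lit 306) (.e (nat_lit 2599) (nat_lit 163) (.e (nat_lit 163979) (nat_lit 30) .nil))))))))) (.g (nat_lit 1) (.e (nat_lit 413316) (nat_lit 0) .nil) .nil)))) 
(.nd (nat_lit 9) 
(.lf (nat_lit 597386) (.g (nat_lit 2299) (.e (nat_lit 573482) (nat_lit 13) (.e (nat_lit 65604) (nat_lit 9) (.e (nat_lit 336013) (nat_lit 2) (.e (nat_lit 90165) (nat_lit 12) (.e (nat_lit 164219) (nat_lit 180) (.e (nat_lit 229646) (nat_lit 232) (.e (nat_lit 27) (nat_lit 0) (.e (nat_lit 3308) (nat_lit 202) .nil)))))))) (.g (nat_lit 1) (.e (nat_lit 413049) (nat_lit 0) .nil) .nil))) 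
(.lf (nat_lit 597898) (.g (nat_lit 1989) (.e (nat_lit 573483) (nat_lit 13) (.e (nat_lit 65630) (nat_lit 14) (.e (nat_lit 401425) (nat_lit 2) (.e (nat_lit 196674) (nat_lit 15) .nil)))) (.g (nat_lit 0) (.e (nat_lit 413634) (nat_lit 0) .nil) .nil)))))) (.nd (nat_lit 7) (.nd (nat_lit 8) (.nd (nat_lit 9) 
(.lf (nat_lit 597066) (.g (nat_lit 2945) (.e (nat_lit 573481) (nat_lit 13) (.e (nat_lit 65619) (nat_lit 10) (.e (nat_lit 344117) (nat_lit 21) (.e (nat_lit 516144) (nat_lit 9) (.e (nat_lit 426393) (nat_lit 15) (.e (nat_lit 2057) (nat_lit 142) (.e (nat_lit 704589) (nat_lit 3) (.e (nat_lit 163976) (nat_lit 30) .nil)))))))) (.g (nat_lit 1) (.e (nat_lit 412606) (nat_lit 0) .nil) .nil))) 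
(.lf (nat_lit 597578) (.g (nat_lit 3444) (.e (nat_lit 573482) (nat_lit 13) (.e (nat_lit 65619) (nat_lit 10) (.e (nat_lit 344117) (nat_lit 21) (.e (nat_lit 516145) (nat_lit 9) (.e (nat_lit 426093) (nat_lit 0) .nil))))) (.g (nat_lit 0) (.e (nat_lit 413252) (nat_lit 0) .nil) .nil)))) (.nd (nat_lit 9) 
(.lf (nat_lit 597322) (.g (nat_lit 418) (.e (nat_lit 573481) (nat_lit 13) (.e (nat_lit 65630) (nat_lit 14) (.e (nat_lit 401425) (nat_lit 2) .nil))) (.g (nat_lit 0) (.e (nat_lit 412924) (nat_lit 0) .nil) .nil))) 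
(.lf (nat_lit 597834) (.g (nat_lit 3408) (.e (nat_lit 573482) (nat_lit 13) (.e (nat_lit 65619) (nat_lit 10) (.e (nat_lit 344129) (nat_lit 26) (.e (nat_lit 557087) (nat_lit 11) (.e (nat_lit 24599) (nat_lit 1) (.e (nat_lit 57773) (nat_lit 227) (.e (nat_lit 2610) (nat_lit 163) (.e (nat_lit 163979) (nat_lit 30) .nil)))))))) (.g (nat_lit 1) (.e (nat_lit 413531) (nat_lit 0) .nil) .nil))))) 
(.nd (nat_lit 8) (.nd (nat_lit 9) 
(.lf (nat_lit 597194) (.g (nat_lit 2884) (.e (nat_lit 573481) (nat_lit 13) (.e (nat_lit 65619) (nat_lit 10) (.e (nat_lit 344117) (nat_lit 21) (.e (nat_lit 516151) (nat_lit 9) (.e (nat_lit 426097) (nat_lit 1) (.e (nat_lit 164346) (nat_lit 240) (.e (nat_lit 2601) (nat_lit 163) (.e (nat_lit 163975) (nat_lit 30) .nil)))))))) (.g (nat_lit 1) (.e (nat_lit 412734) (nat_lit 0) .nil) .nil))) 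
(.lf (nat_lit 597706) (.g (nat_lit 5083) (.e (nat_lit 573482) (nat_lit 13) (.e (nat_lit 65619) (nat_lit 10) (.e (nat_lit 344117) (nat_lit 21) (.e (nat_lit 516151) (nat_lit 9) (.e (nat_lit 426142) (nat_lit 4) (.e (nat_lit 229666) (nat_lit 240) (.e (nat_lit 2612) (nat_lit 163) (.e (nat_lit 163979) (nat_lit 30) .nil)))))))) (.g (nat_lit 1) (.e (nat_lit 413380) (nat_lit 0) .nil) .nil)))) 
(.nd (nat_lit 9) 
(.lf (nat_lit 597450) (.g (nat_lit 5413) (.e (nat_lit 573482) (nat_lit 13) (.e (nat_lit 65604) (nat_lit 9) (.e (nat_lit 336013) (nat_lit 2) (.e (nat_lit 90170) (nat_lit 13) (.e (nat_lit 172059) (nat_lit 1) (.e (nat_lit 164348) (nat_lit 240) (.e (nat_lit 2610) (nat_lit 163) (.e (nat_lit 163979) (nat_lit 30) .nil)))))))) (.g (nat_lit 1) (.e (nat_lit 413113) (nat_lit 0) .nil) .nil))) 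
(.lf (nat_lit 597962) (.g (nat_lit 2813) (.e (nat_lit 573484) (nat_lit 13) (.e (nat_lit 65610) (nat_lit 10) (.e (nat_lit 344117) (nat_lit 21) (.e (nat_lit 516149) (nat_lit 9) .nil)))) (.g (nat_lit 0) (.e (nat_lit 413773) (nat_lit 0) .nil) .nil))))))) (.nd (nat_lit 6) (.nd (nat_lit 7) (.nd (nat_lit 8) (.nd (nat_lit 9) 
(.lf (nat_lit 597034) (.g (nat_lit 2370) (.e (nat_lit 573481) (nat_lit 13) (.e (nat_lit 65619) (nat_lit 10) (.e (nat_lit 344116) (nat_lit 21) (.e (nat_lit 516182) (nat_lit 15) (.e (nat_lit 475198) (nat_lit 40) (.e (nat_lit 704589) (nat_lit 3) (.e (nat_lit 163976) (nat_lit 30) .nil))))))) (.g (nat_lit 1) (.e (nat_lit 412559) (nat_lit 0) .nil) .nil))) 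
(.lf (nat_lit 597546) (.g (nat_lit 1941) (.e (nat_lit 573482) (nat_lit 13) (.e (nat_lit 65619) (nat_lit 10) (.e (nat_lit 344117) (nat_lit 21) (.e (nat_lit 516097) (nat_lit 0) (.e (nat_lit 7589) (nat_lit 406) (.e (nat_lit 73472) (nat_lit 15) (.e (nat_lit 3296) (nat_lit 202) .nil))))))) (.g (nat_lit 1) (.e (nat_lit 413217) (nat_lit 0) .nil) .nil)))) (.nd (nat_lit 9) 
(.lf (nat_lit 597290) (.g (nat_lit 2231) (.e (nat_lit 573481) (nat_lit 13) (.e (nat_lit 65619) (nat_lit 10) (.e (nat_lit 344129) (nat_lit 26) (.e (nat_lit 557065) (nat_lit 9) (.e (nat_lit 7936) (nat_lit 23) .nil))))) (.g (nat_lit 0) (.e (nat_lit 412855) (nat_lit 0) .nil) .nil))) 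
(.lf (nat_lit 597802) (.g (nat_lit 2435) (.e (nat_lit 573482) (nat_lit 13) (.e (nat_lit 65619) (nat_lit 10) (.e (nat_lit 344129) (nat_lit 26) (.e (nat_lit 557068) (nat_lit 9) (.e (nat_lit 290) (nat_lit 21) .nil))))) (.g (nat_lit 0) (.e (nat_lit 413497) (nat_lit 0) .nil) .nil))))) (.nd (nat_lit 8) (.nd (nat_lit 9) 
(.lf (nat_lit 597162) (.g (nat_lit 4001) (.e (nat_lit 573481) (nat_lit 13) (.e (nat_lit 65619) (nat_lit 10) (.e (nat_lit 344117) (nat_lit 21) (.e (nat_lit 516151) (nat_lit 9) (.e (nat_lit 426040) (nat_lit 0) .nil))))) (.g (nat_lit 0) (.e (nat_lit 412702) (nat_lit 0) .nil) .nil))) 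
(.lf (nat_lit 597674) (.g (nat_lit 3693) (.e (nat_lit 573482) (nat_lit 13) (.e (nat_lit 65619) (nat_lit 10) (.e (nat_lit 344117) (nat_lit 21) (.e (nat_lit 516151) (nat_lit 9) (.e (nat_lit 426042) (nat_lit 0) (.e (nat_lit 2458) (nat_lit 157) (.e (nat_lit 5548) (nat_lit 306) (.e (nat_lit 2611) (nat_lit 163) (.e (nat_lit 163979) (nat_lit 30) .nil))))))))) (.g (nat_lit 1) (.e (nat_lit 413348) (nat_lit 0) .nil) .nil)))) 
(.nd (nat_lit 9) 
(.lf (nat_lit 597418) (.g (nat_lit 3418) (.e (nat_lit 573482) (nat_lit 13) (.e (nat_lit 65604) (nat_lit 9) (.e (nat_lit 336013) (nat_lit 2) (.e (nat_lit 90170) (nat_lit 13) (.e (nat_lit 172045) (nat_lit 0) .nil))))) (.g (nat_lit 0) (.e (nat_lit 413081) (nat_lit 0) .nil) .nil))) 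
(.lf (nat_lit 597930) (.g (nat_lit 2842) (.e (nat_lit 573484) (nat_lit 13) (.e (nat_lit 65610) (nat_lit 10) (.e (nat_lit 344117) (nat_lit 21) (.e (nat_lit 516105) (nat_lit 0) .nil)))) (.g (nat_lit 0) (.e (nat_lit 413701) (nat_lit 0) .nil) .nil)))))) (.nd (nat_lit 7) (.nd (nat_lit 8) (.nd (nat_lit 9) 
(.lf (nat_lit 597098) (.g (nat_lit 3458) (.e (nat_lit 573481) (nat_lit 13) (.e (nat_lit 65619) (nat_lit 10) (.e (nat_lit 344117) (nat_lit 21) (.e (nat_lit 516145) (nat_lit 9) (.e (nat_lit 426375) (nat_lit 15) .nil))))) (.g (nat_lit 0) (.e (nat_lit 412638) (nat_lit 0) .nil) .nil))) 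
(.lf (nat_lit 597610) (.g (nat_lit 3652) (.e (nat_lit 573482) (nat_lit 13) (.e (nat_lit 65619) (nat_lit 10) (.e (nat_lit 344117) (nat_lit 21) (.e (nat_lit 516145) (nat_lit 9) (.e (nat_lit 426415) (nat_lit 15) (.e (nat_lit 7936) (nat_lit 142) (.e (nat_lit 704589) (nat_lit 3) (.e (nat_lit 163979) (nat_lit 30) .nil)))))))) (.g (nat_lit 1) (.e (nat_lit 413284) (nat_lit 0) .nil) .nil)))) 
(.nd (nat_lit 9) 
(.lf (nat_lit 597354) (.g (nat_lit 1241) (.e (nat_lit 573482) (nat_lit 13) (.e (nat_lit 65589) (nat_lit 9) (.e (nat_lit 336013) (nat_lit 2) (.e (nat_lit 90170) (nat_lit 13) .nil)))) (.g (nat_lit 0) (.e (nat_lit 413008) (nat_lit 0) .nil) .nil))) 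
(.lf (nat_lit 597866) (.g (nat_lit 2549) (.e (nat_lit 573482) (nat_lit 13) (.e (nat_lit 65628) (nat_lit 14) (.e (nat_lit 401425) (nat_lit 2) (.e (nat_lit 196681) (nat_lit 17) (.e (nat_lit 131119) (nat_lit 12) .nil))))) (.g (nat_lit 0) (.e (nat_lit 413582) (nat_lit 0) .nil) .nil))))) (.nd (nat_lit 8) (.nd (nat_lit 9) 
(.lf (nat_lit 597226) (.g (nat_lit 5533) (.e (nat_lit 573481) (nat_lit 13) (.e (nat_lit 65619) (nat_lit 10) (.e (nat_lit 344117) (nat_lit 21) (.e (nat_lit 516151) (nat_lit 9) (.e (nat_lit 426412) (nat_lit 15) (.e (nat_lit 2059) (nat_lit 142) (.e (nat_lit 704589) (nat_lit 3) (.e (nat_lit 163976) (nat_lit 30) .nil)))))))) (.g (nat_lit 1) (.e (nat_lit 412769) (nat_lit 0) .nil) .nil))) 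
(.lf (nat_lit 597738) (.g (nat_lit 2082) (.e (nat_lit 573482) (nat_lit 13) (.e (nat_lit 65619) (nat_lit 10) (.e (nat_lit 344117) (nat_lit 21) (.e (nat_lit 516160) (nat_lit 10) (.e (nat_lit 434209) (nat_lit 18) .nil))))) (.g (nat_lit 0) (.e (nat_lit 413412) (nat_lit 0) .nil) .nil)))) (.nd (nat_lit 9) 
(.lf (nat_lit 597482) (.g (nat_lit 2698) (.e (nat_lit 573482) (nat_lit 13) (.e (nat_lit 65604) (nat_lit 9) (.e (nat_lit 336013) (nat_lit 2) (.e (nat_lit 90170) (nat_lit 13) (.e (nat_lit 179968) (nat_lit 4) (.e (nat_lit 229663) (nat_lit 240) (.e (nat_lit 2612) (nat_lit 163) (.e (nat_lit 163977) (nat_lit 30) .nil)))))))) (.g (nat_lit 1) (.e (nat_lit 413145) (nat_lit 0) .nil) .nil))) 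
(.lf (nat_lit 597994) (.g (nat_lit 2640) (.e (nat_lit 573484) (nat_lit 13) (.e (nat_lit 65610) (nat_lit 10) (.e (nat_lit 344117) (nat_lit 21) (.e (nat_lit 516151) (nat_lit 9) (.e (nat_lit 426041) (nat_lit 0) .nil))))) (.g (nat_lit 0) (.e (nat_lit 413857) (nat_lit 0) .nil) .nil)))))))) (.nd (nat_lit 5) (.nd (nat_lit 6) (.nd (nat_lit 7) (.nd (nat_lit 8) (.nd (nat_lit 9) 
(.lf (nat_lit 597018) (.g (nat_lit 4160) (.e (nat_lit 573481) (nat_lit 13) (.e (nat_lit 65610) (nat_lit 10) (.e (nat_lit 344117) (nat_lit 21) (.e (nat_lit 516151) (nat_lit 9) (.e (nat_lit 426412) (nat_lit 15) (.e (nat_lit 2057) (nat_lit 142) (.e (nat_lit 704589) (nat_lit 3) (.e (nat_lit 163976) (nat_lit 30) .nil)))))))) (.g (nat_lit 1) (.e (nat_lit 412541) (nat_lit 0) .nil) .nil))) 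
(.lf (nat_lit 597530) (.g (nat_lit 3933) (.e (nat_lit 573482) (nat_lit 13) (.e (nat_lit 65609) (nat_lit 10) (.e (nat_lit 344133) (nat_lit 26) (.e (nat_lit 557087) (nat_lit 11) (.e (nat_lit 24625) (nat_lit 9) (.e (nat_lit 336261) (nat_lit 15) (.e (nat_lit 3308) (nat_lit 202) .nil))))))) (.g (nat_lit 1) (.e (nat_lit 413200) (nat_lit 0) .nil) .nil)))) (.nd (nat_lit 9) 
(.lf (nat_lit 597274) (.g (nat_lit 3630) (.e (nat_lit 573481) (nat_lit 13) (.e (nat_lit 65619) (nat_lit 10) (.e (nat_lit 344117) (nat_lit 21) (.e (nat_lit 516183) (nat_lit 16) (.e (nat_lit 491549) (nat_lit 9) (.e (nat_lit 336306) (nat_lit 15) (.e (nat_lit 3298) (nat_lit 202) .nil))))))) (.g (nat_lit 1) (.e (nat_lit 412834) (nat_lit 0) .nil) .nil))) 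
(.lf (nat_lit 597786) (.g (nat_lit 2213) (.e (nat_lit 573482) (nat_lit 13) (.e (nat_lit 65619) (nat_lit 10) (.e (nat_lit 344129) (nat_lit 26) (.e (nat_lit 557065) (nat_lit 9) (.e (nat_lit 307) (nat_lit 22) .nil))))) (.g (nat_lit 0) (.e (nat_lit 413470) (nat_lit 0) .nil) .nil))))) (.nd (nat_lit 8) (.nd (nat_lit 9) 
(.lf (nat_lit 597146) (.g (nat_lit 2553) (.e (nat_lit 573481) (nat_lit 13) (.e (nat_lit 65619) (nat_lit 10) (.e (nat_lit 344117) (nat_lit 21) (.e (nat_lit 516147) (nat_lit 9) (.e (nat_lit 426393) (nat_lit 15) (.e (nat_lit 2058) (nat_lit 142) (.e (nat_lit 704589) (nat_lit 3) (.e (nat_lit 163975) (nat_lit 30) .nil)))))))) (.g (nat_lit 1) (.e (nat_lit 412686) (nat_lit 0) .nil) .nil))) 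
(.lf (nat_lit 597658) (.g (nat_lit 3622) (.e (nat_lit 573482) (nat_lit 13) (.e (nat_lit 65619) (nat_lit 10) (.e (nat_lit 344117) (nat_lit 21) (.e (nat_lit 516151) (nat_lit 9) (.e (nat_lit 426039) (nat_lit 0) (.e (nat_lit 2458) (nat_lit 157) (.e (nat_lit 5547) (nat_lit 306) (.e (nat_lit 2611) (nat_lit 163) (.e (nat_lit 163977) (nat_lit 30) .nil))))))))) (.g (nat_lit 1) (.e (nat_lit 413332) (nat_lit 0) .nil) .nil)))) 
(.nd (nat_lit 9) 
(.lf (nat_lit 597402) (.g (nat_lit 2891) (.e (nat_lit 573482) (nat_lit 13) (.e (nat_lit 65604) (nat_lit 9) (.e (nat_lit 336013) (nat_lit 2) (.e (nat_lit 90170) (nat_lit 13) (.e (nat_lit 172038) (nat_lit 0) (.e (nat_lit 3399) (nat_lit 211) (.e (nat_lit 647180) (nat_lit 3) (.e (nat_lit 163979) (nat_lit 30) .nil)))))))) (.g (nat_lit 1) (.e (nat_lit 413065) (nat_lit 0) .nil) .nil))) 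
(.lf (nat_lit 597914) (.g (nat_lit 2415) (.e (nat_lit 573484) (nat_lit 13) (.e (nat_lit 65610) (nat_lit 10) (.e (nat_lit 344114) (nat_lit 20) (.e (nat_lit 507922) (nat_lit 6) (.e (nat_lit 286748) (nat_lit 9) (.e (nat_lit 336295) (nat_lit 15) (.e (nat_lit 3305) (nat_lit 202) .nil))))))) (.g (nat_lit 1) (.e (nat_lit 413676) (nat_lit 0) .nil) .nil)))))) 
(.nd (nat_lit 7) (.nd (nat_lit 8) (.nd (nat_lit 9) 
(.lf (nat_lit 597082) (.g (nat_lit 3542) (.e (nat_lit 573481) (nat_lit 13) (.e (nat_lit 65619) (nat_lit 10) (.e (nat_lit 344117) (nat_lit 21) (.e (nat_lit 516145) (nat_lit 9) (.e (nat_lit 426350) (nat_lit 15) .nil))))) (.g (nat_lit 0) (.e (nat_lit 412622) (nat_lit 0) .nil) .nil))) 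
(.lf (nat_lit 597594) (.g (nat_lit 3432) (.e (nat_lit 573482) (nat_lit 13) (.e (nat_lit 65619) (nat_lit 10) (.e (nat_lit 344117) (nat_lit 21) (.e (nat_lit 516145) (nat_lit 9) (.e (nat_lit 426357) (nat_lit 15) .nil))))) (.g (nat_lit 0) (.e (nat_lit 413268) (nat_lit 0) .nil) .nil)))) (.nd (nat_lit 9) 
(.lf (nat_lit 597338) (.g (nat_lit 2077) (.e (nat_lit 573481) (nat_lit 13) (.e (nat_lit 65630) (nat_lit 14) (.e (nat_lit 401428) (nat_lit 3) (.e (nat_lit 204854) (nat_lit 26) (.e (nat_lit 336115) (nat_lit 9) .nil))))) (.g (nat_lit 0) (.e (nat_lit 412943) (nat_lit 0) .nil) .nil))) 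
(.lf (nat_lit 597850) (.g (nat_lit 1604) (.e (nat_lit 573482) (nat_lit 13) (.e (nat_lit 65619) (nat_lit 10) (.e (nat_lit 344129) (nat_lit 26) (.e (nat_lit 557087) (nat_lit 11) (.e (nat_lit 24632) (nat_lit 9) .nil))))) (.g (nat_lit 0) (.e (nat_lit 413547) (nat_lit 0) .nil) .nil))))) (.nd (nat_lit 8) (.nd (nat_lit 9) 
(.lf (nat_lit 597210) (.g (nat_lit 3898) (.e (nat_lit 573481) (nat_lit 13) (.e (nat_lit 65619) (nat_lit 10) (.e (nat_lit 344117) (nat_lit 21) (.e (nat_lit 516151) (nat_lit 9) (.e (nat_lit 426365) (nat_lit 15) .nil))))) (.g (nat_lit 0) (.e (nat_lit 412753) (nat_lit 0) .nil) .nil))) 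
(.lf (nat_lit 597722) (.g (nat_lit 2858) (.e (nat_lit 573482) (nat_lit 13) (.e (nat_lit 65619) (nat_lit 10) (.e (nat_lit 344117) (nat_lit 21) (.e (nat_lit 516152) (nat_lit 9) (.e (nat_lit 426109) (nat_lit 1) (.e (nat_lit 164347) (nat_lit 240) (.e (nat_lit 2601) (nat_lit 163) (.e (nat_lit 163977) (nat_lit 30) .nil)))))))) (.g (nat_lit 1) (.e (nat_lit 413396) (nat_lit 0) .nil) .nil)))) 
(.nd (nat_lit 9) 
(.lf (nat_lit 597466) (.g (nat_lit 5360) (.e (nat_lit 573482) (nat_lit 13) (.e (nat_lit 65604) (nat_lit 9) (.e (nat_lit 336013) (nat_lit 2) (.e (nat_lit 90170) (nat_lit 13) (.e (nat_lit 172061) (nat_lit 1) (.e (nat_lit 164348) (nat_lit 240) (.e (nat_lit 2610) (nat_lit 163) (.e (nat_lit 163979) (nat_lit 30) .nil)))))))) (.g (nat_lit 1) (.e (nat_lit 413129) (nat_lit 0) .nil) .nil))) 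
(.lf (nat_lit 597978) (.g (nat_lit 4047) (.e (nat_lit 573484) (nat_lit 13) (.e (nat_lit 65610) (nat_lit 10) (.e (nat_lit 344117) (nat_lit 21) (.e (nat_lit 516151) (nat_lit 9) (.e (nat_lit 426037) (nat_lit 0) (.e (nat_lit 2515) (nat_lit 157) (.e (nat_lit 5448) (nat_lit 306) (.e (nat_lit 2612) (nat_lit 163) (.e (nat_lit 163978) (nat_lit 30) .nil))))))))) (.g (nat_lit 1) (.e (nat_lit 413811) (nat_lit 0) .nil) .nil))))))) 
(.nd (nat_lit 6) (.nd (nat_lit 7) (.nd (nat_lit 8) (.nd (nat_lit 9) 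
(.lf (nat_lit 597050) (.g (nat_lit 2736) (.e (nat_lit 573481) (nat_lit 13) (.e (nat_lit 65619) (nat_lit 10) (.e (nat_lit 344117) (nat_lit 21) (.e (nat_lit 516106) (nat_lit 0) (.e (nat_lit 7554) (nat_lit 402) .nil))))) (.g (nat_lit 0) (.e (nat_lit 412590) (nat_lit 0) .nil) .nil))) 
(.lf (nat_lit 597562) (.g (nat_lit 3505) (.e (nat_lit 573482) (nat_lit 13) (.e (nat_lit 65619) (nat_lit 10) (.e (nat_lit 344117) (nat_lit 21) (.e (nat_lit 516106) (nat_lit 0) (.e (nat_lit 7016) (nat_lit 377) (.e (nat_lit 2788) (nat_lit 179) (.e (nat_lit 294966) (nat_lit 15) (.e (nat_lit 3308) (nat_lit 202) .nil)))))))) (.g (nat_lit 1) (.e (nat_lit 413233) (nat_lit 0) .nil) .nil)))) 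
(.nd (nat_lit 9) 
(.lf (nat_lit 597306) (.g (nat_lit 3138) (.e (nat_lit 573481) (nat_lit 13) (.e (nat_lit 65619) (nat_lit 10) (.e (nat_lit 344129) (nat_lit 26) (.e (nat_lit 557087) (nat_lit 11) (.e (nat_lit 24629) (nat_lit 9) (.e (nat_lit 336306) (nat_lit 15) (.e (nat_lit 3298) (nat_lit 202) .nil))))))) (.g (nat_lit 1) (.e (nat_lit 412890) (nat_lit 0) .nil) .nil))) 
(.lf (nat_lit 597818) (.g (nat_lit 3050) (.e (nat_lit 573482) (nat_lit 13) (.e (nat_lit 65619) (nat_lit 10) (.e (nat_lit 344129) (nat_lit 26) (.e (nat_lit 557087) (nat_lit 11) (.e (nat_lit 24584) (nat_lit 0) (.e (nat_lit 1932) (nat_lit 131) (.e (nat_lit 614415) (nat_lit 3) (.e (nat_lit 163977) (nat_lit 30) .nil)))))))) (.g (nat_lit 1) (.e (nat_lit 413513) (nat_lit 0) .nil) .nil))))) 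
(.nd (nat_lit 8) (.nd (nat_lit 9) 
(.lf (nat_lit 597178) (.g (nat_lit 3504) (.e (nat_lit 573481) (nat_lit 13) (.e (nat_lit 65619) (nat_lit 10) (.e (nat_lit 344117) (nat_lit 21) (.e (nat_lit 516151) (nat_lit 9) (.e (nat_lit 426042) (nat_lit 0) (.e (nat_lit 3406) (nat_lit 212) (.e (nat_lit 655375) (nat_lit 3) (.e (nat_lit 163979) (nat_lit 30) .nil)))))))) (.g (nat_lit 1) (.e (nat_lit 412718) (nat_lit 0) .nil) .nil))) 
(.lf (nat_lit 597690) (.g (nat_lit 2635) (.e (nat_lit 573482) (nat_lit 13) (.e (nat_lit 65619) (nat_lit 10) (.e (nat_lit 344117) (nat_lit 21) (.e (nat_lit 516151) (nat_lit 9) (.e (nat_lit 426097) (nat_lit 1) (.e (nat_lit 164346) (nat_lit 240) (.e (nat_lit 2601) (nat_lit 163) (.e (nat_lit 163979) (nat_lit 30) .nil)))))))) (.g (nat_lit 1) (.e (nat_lit 413364) (nat_lit 0) .nil) .nil)))) 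
(.nd (nat_lit 9) 
(.lf (nat_lit 597434) (.g (nat_lit 2433) (.e (nat_lit 573482) (nat_lit 13) (.e (nat_lit 65604) (nat_lit 9) (.e (nat_lit 336013) (nat_lit 2) (.e (nat_lit 90170) (nat_lit 13) (.e (nat_lit 172049) (nat_lit 0) (.e (nat_lit 2458) (nat_lit 157) (.e (nat_lit 5548) (nat_lit 306) (.e (nat_lit 2601) (nat_lit 163) (.e (nat_lit 163977) (nat_lit 30) .nil))))))))) (.g (nat_lit 1) (.e (nat_lit 413097) (nat_lit 0) .nil) .nil))) 
(.lf (nat_lit 597946) (.g (nat_lit 2377) (.e (nat_lit 573484) (nat_lit 13) (.e (nat_lit 65610) (nat_lit 10) (.e (nat_lit 344117) (nat_lit 21) (.e (nat_lit 516138) (nat_lit 7) (.e (nat_lit 409641) (nat_lit 17) .nil))))) (.g (nat_lit 0) (.e (nat_lit 413731) (nat_lit 0) .nil) .nil)))))) (.nd (nat_lit 7) (.nd (nat_lit 8) (.nd (nat_lit 9) 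
(.lf (nat_lit 597114) (.g (nat_lit 3915) (.e (nat_lit 573481) (nat_lit 13) (.e (nat_lit 65619) (nat_lit 10) (.e (nat_lit 344117) (nat_lit 21) (.e (nat_lit 516145) (nat_lit 9) (.e (nat_lit 426393) (nat_lit 15) (.e (nat_lit 2058) (nat_lit 142) (.e (nat_lit 704589) (nat_lit 3) (.e (nat_lit 163975) (nat_lit 30) .nil)))))))) (.g (nat_lit 1) (.e (nat_lit 412654) (nat_lit 0) .nil) .nil))) 
(.lf (nat_lit 597626) (.g (nat_lit 2742) (.e (nat_lit 573482) (nat_lit 13) (.e (nat_lit 65619) (nat_lit 10) (.e (nat_lit 344117) (nat_lit 21) (.e (nat_lit 516151) (nat_lit 9) (.e (nat_lit 426003) (nat_lit 0) (.e (nat_lit 3409) (nat_lit 212) (.e (nat_lit 655375) (nat_lit 3) (.e (nat_lit 163977) (nat_lit 30) .nil)))))))) (.g (nat_lit 1) (.e (nat_lit 413300) (nat_lit 0) .nil) .nil)))) 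
(.nd (nat_lit 9) 
(.lf (nat_lit 597370) (.g (nat_lit 3776) (.e (nat_lit 573482) (nat_lit 13) (.e (nat_lit 65604) (nat_lit 9) (.e (nat_lit 336013) (nat_lit 2) (.e (nat_lit 90128) (nat_lit 9) .nil)))) (.g (nat_lit 0) (.e (nat_lit 413027) (nat_lit 0) .nil) .nil))) 
(.lf (nat_lit 597882) (.g (nat_lit 2501) (.e (nat_lit 573482) (nat_lit 13) (.e (nat_lit 65637) (nat_lit 15) (.e (nat_lit 3632) (nat_lit 227) (.e (nat_lit 778323) (nat_lit 5) (.e (nat_lit 73772) (nat_lit 24) .nil))))) (.g (nat_lit 0) (.e (nat_lit 413611) (nat_lit 0) .nil) .nil))))) (.nd (nat_lit 8) (.nd (nat_lit 9) 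
(.lf (nat_lit 597242) (.g (nat_lit 2776) (.e (nat_lit 573481) (nat_lit 13) (.e (nat_lit 65619) (nat_lit 10) (.e (nat_lit 344117) (nat_lit 21) (.e (nat_lit 516160) (nat_lit 10) (.e (nat_lit 434272) (nat_lit 38) (.e (nat_lit 655373) (nat_lit 3) (.e (nat_lit 163973) (nat_lit 30) .nil))))))) (.g (nat_lit 1) (.e (nat_lit 412788) (nat_lit 0) .nil) .nil))) 
(.lf (nat_lit 597754) (.g (nat_lit 2792) (.e (nat_lit 573482) (nat_lit 13) (.e (nat_lit 65619) (nat_lit 10) (.e (nat_lit 344117) (nat_lit 21) (.e (nat_lit 516160) (nat_lit 10) (.e (nat_lit 434271) (nat_lit 38) (.e (nat_lit 655374) (nat_lit 3) (.e (nat_lit 163977) (nat_lit 30) .nil))))))) (.g (nat_lit 1) (.e (nat_lit 413428) (nat_lit 0) .nil) .nil)))) (.nd (nat_lit 9) 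
(.lf (nat_lit 597498) (.g (nat_lit 1078) (.e (nat_lit 573482) (nat_lit 13) (.e (nat_lit 65604) (nat_lit 9) (.e (nat_lit 336028) (nat_lit 3) (.e (nat_lit 98325) (nat_lit 17) .nil)))) (.g (nat_lit 0) (.e (nat_lit 413162) (nat_lit 0) .nil) .nil))) 
(.lf (nat_lit 598010) (.g (nat_lit 3422) (.e (nat_lit 573484) (nat_lit 13) (.e (nat_lit 65610) (nat_lit 10) (.e (nat_lit 344117) (nat_lit 21) (.e (nat_lit 516151) (nat_lit 9) (.e (nat_lit 426049) (nat_lit 0) (.e (nat_lit 3403) (nat_lit 212) (.e (nat_lit 655374) (nat_lit 3) (.e (nat_lit 163978) (nat_lit 30) .nil)))))))) (.g (nat_lit 1) (.e (nat_lit 413879) (nat_lit 0) .nil) .nil)))))))))) 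
(.nd (nat_lit 3) (.nd (nat_lit 4) (.nd (nat_lit 5) (.nd (nat_lit 6) (.nd (nat_lit 7) 
(.nd (nat_lit 8) (.nd (nat_lit 9) 
(.lf (nat_lit 596998) (.g (nat_lit 3104) (.e (nat_lit 573481) (nat_lit 13) (.e (nat_lit 65604) (nat_lit 9) (.e (nat_lit 336028) (nat_lit 3) (.e (nat_lit 98386) (nat_lit 32) (.e (nat_lit 475197) (nat_lit 40) (.e (nat_lit 704589) (nat_lit 3) (.e (nat_lit 163976) (nat_lit 30) .nil))))))) (.g (nat_lit 1) (.e (nat_lit 412521) (nat_lit 0) .nil) .nil))) 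
(.lf (nat_lit 597510) (.g (nat_lit 2622) (.e (nat_lit 573482) (nat_lit 13) (.e (nat_lit 65604) (nat_lit 9) (.e (nat_lit 336028) (nat_lit 3) (.e (nat_lit 98365) (nat_lit 26) (.e (nat_lit 426145) (nat_lit 4) .nil))))) (.g (nat_lit 0) (.e (nat_lit 413179) (nat_lit 0) .nil) .nil)))) (.nd (nat_lit 9) 
(.lf (nat_lit 597254) (.g (nat_lit 3649) (.e (nat_lit 573481) (nat_lit 13) (.e (nat_lit 65619) (nat_lit 10) (.e (nat_lit 344117) (nat_lit 21) (.e (nat_lit 516179) (nat_lit 15) (.e (nat_lit 475197) (nat_lit 40) (.e (nat_lit 704590) (nat_lit 3) (.e (nat_lit 163975) (nat_lit 30) .nil))))))) (.g (nat_lit 1) (.e (nat_lit 412814) (nat_lit 0) .nil) .nil))) 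
(.lf (nat_lit 597766) (.g (nat_lit 3923) (.e (nat_lit 573482) (nat_lit 13) (.e (nat_lit 65619) (nat_lit 10) (.e (nat_lit 344117) (nat_lit 21) (.e (nat_lit 516179) (nat_lit 15) (.e (nat_lit 475196) (nat_lit 40) (.e (nat_lit 704589) (nat_lit 3) (.e (nat_lit 163979) (nat_lit 30) .nil))))))) (.g (nat_lit 1) (.e (nat_lit 413440) (nat_lit 0) .nil) .nil))))) (.nd (nat_lit 8) (.nd (nat_lit 9) 
(.lf (nat_lit 597126) (.g (nat_lit 3798) (.e (nat_lit 573481) (nat_lit 13) (.e (nat_lit 65619) (nat_lit 10) (.e (nat_lit 344117) (nat_lit 21) (.e (nat_lit 516145) (nat_lit 9) (.e (nat_lit 426420) (nat_lit 15) (.e (nat_lit 2057) (nat_lit 142) (.e (nat_lit 704589) (nat_lit 3) (.e (nat_lit 163976) (nat_lit 30) .nil)))))))) (.g (nat_lit 1) (.e (nat_lit 412666) (nat_lit 0) .nil) .nil))) 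
(.lf (nat_lit 597638) (.g (nat_lit 4043) (.e (nat_lit 573482) (nat_lit 13) (.e (nat_lit 65619) (nat_lit 10) (.e (nat_lit 344117) (nat_lit 21) (.e (nat_lit 516151) (nat_lit 9) (.e (nat_lit 426037) (nat_lit 0) (.e (nat_lit 2458) (nat_lit 157) (.e (nat_lit 5546) (nat_lit 306) (.e (nat_lit 2599) (nat_lit 163) (.e (nat_lit 163979) (nat_lit 30) .nil))))))))) (.g (nat_lit 1) (.e (nat_lit 413312) (nat_lit 0) .nil) .nil)))) 
(.nd (nat_lit 9) 
(.lf (nat_lit 597382) (.g (nat_lit 3795) (.e (nat_lit 573482) (nat_lit 13) (.e (nat_lit 65604) (nat_lit 9) (.e (nat_lit 336013) (nat_lit 2) (.e (nat_lit 90150) (nat_lit 9) .nil)))) (.g (nat_lit 0) (.e (nat_lit 413045) (nat_lit 0) .nil) .nil))) 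
(.lf (nat_lit 597894) (.g (nat_lit 639) (.e (nat_lit 573483) (nat_lit 13) (.e (nat_lit 65628) (nat_lit 14) (.e (nat_lit 401425) (nat_lit 2) .nil))) (.g (nat_lit 0) (.e (nat_lit 413630) (nat_lit 0) .nil) .nil)))))) (.nd (nat_lit 7) (.nd (nat_lit 8) (.nd (nat_lit 9) 
(.lf (nat_lit 597062) (.g (nat_lit 2942) (.e (nat_lit 573481) (nat_lit 13) (.e (nat_lit 65619) (nat_lit 10) (.e (nat_lit 344117) (nat_lit 21) (.e (nat_lit 516144) (nat_lit 9) (.e (nat_lit 426379) (nat_lit 15) (.e (nat_lit 2056) (nat_lit 142) (.e (nat_lit 704589) (nat_lit 3) (.e (nat_lit 163975) (nat_lit 30) .nil)))))))) (.g (nat_lit 1) (.e (nat_lit 412602) (nat_lit 0) .nil) .nil))) 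
(.lf (nat_lit 597574) (.g (nat_lit 3443) (.e (nat_lit 573482) (nat_lit 13) (.e (nat_lit 65619) (nat_lit 10) (.e (nat_lit 344117) (nat_lit 21) (.e (nat_lit 516145) (nat_lit 9) (.e (nat_lit 425985) (nat_lit 0) .nil))))) (.g (nat_lit 0) (.e (nat_lit 413248) (nat_lit 0) .nil) .nil)))) (.nd (nat_lit 9) 
(.lf (nat_lit 597318) (.g (nat_lit 1881) (.e (nat_lit 573481) (nat_lit 13) (.e (nat_lit 65628) (nat_lit 14) (.e (nat_lit 401428) (nat_lit 3) (.e (nat_lit 204861) (nat_lit 26) (.e (nat_lit 336203) (nat_lit 12) .nil))))) (.g (nat_lit 0) (.e (nat_lit 412919) (nat_lit 0) .nil) .nil))) 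
(.lf (nat_lit 597830) (.g (nat_lit 3181) (.e (nat_lit 573482) (nat_lit 13) (.e (nat_lit 65619) (nat_lit 10) (.e (nat_lit 344129) (nat_lit 26) (.e (nat_lit 557087) (nat_lit 11) (.e (nat_lit 24598) (nat_lit 1) (.e (nat_lit 57770) (nat_lit 227) (.e (nat_lit 2611) (nat_lit 163) (.e (nat_lit 163977) (nat_lit 30) .nil)))))))) (.g (nat_lit 1) (.e (nat_lit 413527) (nat_lit 0) .nil) .nil))))) 
(.nd (nat_lit 8) (.nd (nat_lit 9) 
(.lf (nat_lit 597190) (.g (nat_lit 3994) (.e (nat_lit 573481) (nat_lit 13) (.e (nat_lit 65619) (nat_lit 10) (.e (nat_lit 344117) (nat_lit 21) (.e (nat_lit 516151) (nat_lit 9) (.e (nat_lit 426047) (nat_lit 0) .nil))))) (.g (nat_lit 0) (.e (nat_lit 412730) (nat_lit 0) .nil) .nil))) 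
(.lf (nat_lit 597702) (.g (nat_lit 3830) (.e (nat_lit 573482) (nat_lit 13) (.e (nat_lit 65619) (nat_lit 10) (.e (nat_lit 344117) (nat_lit 21) (.e (nat_lit 516151) (nat_lit 9) (.e (nat_lit 426104) (nat_lit 1) (.e (nat_lit 164347) (nat_lit 240) (.e (nat_lit 2601) (nat_lit 163) (.e (nat_lit 163979) (nat_lit 30) .nil)))))))) (.g (nat_lit 1) (.e (nat_lit 413376) (nat_lit 0) .nil) .nil)))) 
(.nd (nat_lit 9) 
(.lf (nat_lit 597446) (.g (nat_lit 3442) (.e (nat_lit 573482) (nat_lit 13) (.e (nat_lit 65604) (nat_lit 9) (.e (nat_lit 336013) (nat_lit 2) (.e (nat_lit 90170) (nat_lit 13) (.e (nat_lit 172052) (nat_lit 0) (.e (nat_lit 3409) (nat_lit 212) (.e (nat_lit 655375) (nat_lit 3) (.e (nat_lit 163978) (nat_lit 30) .nil)))))))) (.g (nat_lit 1) (.e (nat_lit 413109) (nat_lit 0) .nil) .nil))) 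
(.lf (nat_lit 597958) (.g (nat_lit 3275) (.e (nat_lit 573484) (nat_lit 13) (.e (nat_lit 65610) (nat_lit 10) (.e (nat_lit 344117) (nat_lit 21) (.e (nat_lit 516145) (nat_lit 9) (.e (nat_lit 426148) (nat_lit 4) (.e (nat_lit 229663) (nat_lit 240) (.e (nat_lit 2612) (nat_lit 163) (.e (nat_lit 163977) (nat_lit 30) .nil)))))))) (.g (nat_lit 1) (.e (nat_lit 413756) (nat_lit 0) .nil) .nil))))))) 
(.nd (nat_lit 6) (.nd (nat_lit 7) (.nd (nat_lit 8) (.nd (nat_lit 9) 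
(.lf (nat_lit 597030) (.g (nat_lit 4636) (.e (nat_lit 573481) (nat_lit 13) (.e (nat_lit 65618) (nat_lit 10) (.e (nat_lit 344117) (nat_lit 21) (.e (nat_lit 516151) (nat_lit 9) (.e (nat_lit 426412) (nat_lit 15) (.e (nat_lit 2058) (nat_lit 142) (.e (nat_lit 704589) (nat_lit 3) (.e (nat_lit 163976) (nat_lit 30) .nil)))))))) (.g (nat_lit 1) (.e (nat_lit 412553) (nat_lit 0) .nil) .nil))) 
(.lf (nat_lit 597542) (.g (nat_lit 1005) (.e (nat_lit 573482) (nat_lit 13) (.e (nat_lit 65619) (nat_lit 10) (.e (nat_lit 344117) (nat_lit 21) (.e (nat_lit 516097) (nat_lit 0) .nil)))) (.g (nat_lit 0) (.e (nat_lit 413212) (nat_lit 0) .nil) .nil)))) (.nd (nat_lit 9) 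
(.lf (nat_lit 597286) (.g (nat_lit 3216) (.e (nat_lit 573481) (nat_lit 13) (.e (nat_lit 65619) (nat_lit 10) (.e (nat_lit 344119) (nat_lit 21) (.e (nat_lit 516179) (nat_lit 15) (.e (nat_lit 475199) (nat_lit 40) (.e (nat_lit 704589) (nat_lit 3) (.e (nat_lit 163976) (nat_lit 30) .nil))))))) (.g (nat_lit 1) (.e (nat_lit 412846) (nat_lit 0) .nil) .nil))) 
(.lf (nat_lit 597798) (.g (nat_lit 1913) (.e (nat_lit 573482) (nat_lit 13) (.e (nat_lit 65619) (nat_lit 10) (.e (nat_lit 344129) (nat_lit 26) (.e (nat_lit 557066) (nat_lit 9) (.e (nat_lit 314) (nat_lit 23) .nil))))) (.g (nat_lit 0) (.e (nat_lit 413492) (nat_lit 0) .nil) .nil))))) (.nd (nat_lit 8) (.nd (nat_lit 9) 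
(.lf (nat_lit 597158) (.g (nat_lit 3326) (.e (nat_lit 573481) (nat_lit 13) (.e (nat_lit 65619) (nat_lit 10) (.e (nat_lit 344117) (nat_lit 21) (.e (nat_lit 516151) (nat_lit 9) (.e (nat_lit 426023) (nat_lit 0) (.e (nat_lit 3401) (nat_lit 211) (.e (nat_lit 647180) (nat_lit 3) (.e (nat_lit 163976) (nat_lit 30) .nil)))))))) (.g (nat_lit 1) (.e (nat_lit 412698) (nat_lit 0) .nil) .nil))) 
(.lf (nat_lit 597670) (.g (nat_lit 3329) (.e (nat_lit 573482) (nat_lit 13) (.e (nat_lit 65619) (nat_lit 10) (.e (nat_lit 344117) (nat_lit 21) (.e (nat_lit 516151) (nat_lit 9) (.e (nat_lit 426042) (nat_lit 0) (.e (nat_lit 2458) (nat_lit 157) (.e (nat_lit 5548) (nat_lit 306) (.e (nat_lit 2601) (nat_lit 163) (.e (nat_lit 163977) (nat_lit 30) .nil))))))))) (.g (nat_lit 1) (.e (nat_lit 413344) (nat_lit 0) .nil) .nil)))) 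
(.nd (nat_lit 9) 
(.lf (nat_lit 597414) (.g (nat_lit 3407) (.e (nat_lit 573482) (nat_lit 13) (.e (nat_lit 65604) (nat_lit 9) (.e (nat_lit 336013) (nat_lit 2) (.e (nat_lit 90170) (nat_lit 13) (.e (nat_lit 172043) (nat_lit 0) .nil))))) (.g (nat_lit 0) (.e (nat_lit 413077) (nat_lit 0) .nil) .nil))) 
(.lf (nat_lit 597926) (.g (nat_lit 2502) (.e (nat_lit 573484) (nat_lit 13) (.e (nat_lit 65610) (nat_lit 10) (.e (nat_lit 344117) (nat_lit 21) (.e (nat_lit 516098) (nat_lit 0) (.e (nat_lit 7585) (nat_lit 406) (.e (nat_lit 65642) (nat_lit 15) (.e (nat_lit 3305) (nat_lit 202) .nil))))))) (.g (nat_lit 1) (.e (nat_lit 413692) (nat_lit 0) .nil) .nil)))))) 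
(.nd (nat_lit 7) (.nd (nat_lit 8) (.nd (nat_lit 9) 
(.lf (nat_lit 597094) (.g (nat_lit 3522) (.e (nat_lit 573481) (nat_lit 13) (.e (nat_lit 65619) (nat_lit 10) (.e (nat_lit 344117) (nat_lit 21) (.e (nat_lit 516145) (nat_lit 9) (.e (nat_lit 426363) (nat_lit 15) .nil))))) (.g (nat_lit 0) (.e (nat_lit 412634) (nat_lit 0) .nil) .nil))) 
(.lf (nat_lit 597606) (.g (nat_lit 3574) (.e (nat_lit 573482) (nat_lit 13) (.e (nat_lit 65619) (nat_lit 10) (.e (nat_lit 344117) (nat_lit 21) (.e (nat_lit 516145) (nat_lit 9) (.e (nat_lit 426379) (nat_lit 15) (.e (nat_lit 2056) (nat_lit 142) (.e (nat_lit 704589) (nat_lit 3) (.e (nat_lit 163979) (nat_lit 30) .nil)))))))) (.g (nat_lit 1) (.e (nat_lit 413280) (nat_lit 0) .nil) .nil)))) 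
(.nd (nat_lit 9) 
(.lf (nat_lit 597350) (.g (nat_lit 2629) (.e (nat_lit 573482) (nat_lit 13) (.e (nat_lit 65563) (nat_lit 1) (.e (nat_lit 57931) (nat_lit 282) (.e (nat_lit 163943) (nat_lit 19) (.e (nat_lit 483345) (nat_lit 17) (.e (nat_lit 6712) (nat_lit 360) (.e (nat_lit 163979) (nat_lit 30) .nil))))))) (.g (nat_lit 1) (.e (nat_lit 412972) (nat_lit 0) .nil) .nil))) 
(.lf (nat_lit 597862) (.g (nat_lit 1703) (.e (nat_lit 573482) (nat_lit 13) (.e (nat_lit 65628) (nat_lit 14) (.e (nat_lit 401425) (nat_lit 2) (.e (nat_lit 196628) (nat_lit 9) .nil)))) (.g (nat_lit 0) (.e (nat_lit 413578) (nat_lit 0) .nil) .nil))))) (.nd (nat_lit 8) (.nd (nat_lit 9) 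
(.lf (nat_lit 597222) (.g (nat_lit 3272) (.e (nat_lit 573481) (nat_lit 13) (.e (nat_lit 65619) (nat_lit 10) (.e (nat_lit 344117) (nat_lit 21) (.e (nat_lit 516151) (nat_lit 9) (.e (nat_lit 426414) (nat_lit 15) (.e (nat_lit 2056) (nat_lit 142) (.e (nat_lit 704589) (nat_lit 3) (.e (nat_lit 163975) (nat_lit 30) .nil)))))))) (.g (nat_lit 1) (.e (nat_lit 412765) (nat_lit 0) .nil) .nil))) 
(.lf (nat_lit 597734) (.g (nat_lit 2202) (.e (nat_lit 573482) (nat_lit 13) (.e (nat_lit 65619) (nat_lit 10) (.e (nat_lit 344117) (nat_lit 21) (.e (nat_lit 516159) (nat_lit 10) (.e (nat_lit 434216) (nat_lit 18) .nil))))) (.g (nat_lit 0) (.e (nat_lit 413408) (nat_lit 0) .nil) .nil)))) (.nd (nat_lit 9) 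
(.lf (nat_lit 597478) (.g (nat_lit 5087) (.e (nat_lit 573482) (nat_lit 13) (.e (nat_lit 65604) (nat_lit 9) (.e (nat_lit 336013) (nat_lit 2) (.e (nat_lit 90170) (nat_lit 13) (.e (nat_lit 172070) (nat_lit 4) (.e (nat_lit 229666) (nat_lit 240) (.e (nat_lit 2612) (nat_lit 163) (.e (nat_lit 163979) (nat_lit 30) .nil)))))))) (.g (nat_lit 1) (.e (nat_lit 413141) (nat_lit 0) .nil) .nil))) 
(.lf (nat_lit 597990) (.g (nat_lit 3118) (.e (nat_lit 573484) (nat_lit 13) (.e (nat_lit 65610) (nat_lit 10) (.e (nat_lit 344117) (nat_lit 21) (.e (nat_lit 516151) (nat_lit 9) (.e (nat_lit 426040) (nat_lit 0) (.e (nat_lit 2458) (nat_lit 157) (.e (nat_lit 5547) (nat_lit 306) (.e (nat_lit 2610) (nat_lit 163) (.e (nat_lit 163977) (nat_lit 30) .nil))))))))) (.g (nat_lit 1) (.e (nat_lit 413849) (nat_lit 0) .nil) .nil)))))))) 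
(.nd (nat_lit 5) (.nd (nat_lit 6) (.nd (nat_lit 7) (.nd (nat_lit 8) (.nd (nat_lit 9) 
(.lf (nat_lit 597014) (.g (nat_lit 724) (.e (nat_lit 573481) (nat_lit 13) (.e (nat_lit 65609) (nat_lit 10) (.e (nat_lit 344132) (nat_lit 26) (.e (nat_lit 557073) (nat_lit 9) (.e (nat_lit 290) (nat_lit 21) .nil))))) (.g (nat_lit 0) (.e (nat_lit 412537) (nat_lit 0) .nil) .nil))) 
(.lf (nat_lit 597526) (.g (nat_lit 2300) (.e (nat_lit 573482) (nat_lit 13) (.e (nat_lit 65609) (nat_lit 10) (.e (nat_lit 344116) (nat_lit 21) (.e (nat_lit 516179) (nat_lit 15) (.e (nat_lit 475199) (nat_lit 40) (.e (nat_lit 704589) (nat_lit 3) (.e (nat_lit 163979) (nat_lit 30) .nil))))))) (.g (nat_lit 1) (.e (nat_lit 413196) (nat_lit 0) .nil) .nil)))) (.nd (nat_lit 9) 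
(.lf (nat_lit 597270) (.g (nat_lit 3168) (.e (nat_lit 573481) (nat_lit 13) (.e (nat_lit 65619) (nat_lit 10) (.e (nat_lit 344117) (nat_lit 21) (.e (nat_lit 516182) (nat_lit 15) (.e (nat_lit 475199) (nat_lit 40) (.e (nat_lit 704589) (nat_lit 3) (.e (nat_lit 163976) (nat_lit 30) .nil))))))) (.g (nat_lit 1) (.e (nat_lit 412830) (nat_lit 0) .nil) .nil))) 
(.lf (nat_lit 597782) (.g (nat_lit 251) (.e (nat_lit 573482) (nat_lit 13) (.e (nat_lit 65619) (nat_lit 10) (.e (nat_lit 344129) (nat_lit 26) .nil))) (.g (nat_lit 0) (.e (nat_lit 413466) (nat_lit 0) .nil) .nil))))) (.nd (nat_lit 8) (.nd (nat_lit 9) 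
(.lf (nat_lit 597142) (.g (nat_lit 2199) (.e (nat_lit 573481) (nat_lit 13) (.e (nat_lit 65619) (nat_lit 10) (.e (nat_lit 344117) (nat_lit 21) (.e (nat_lit 516147) (nat_lit 9) (.e (nat_lit 426376) (nat_lit 15) (.e (nat_lit 2056) (nat_lit 142) (.e (nat_lit 704589) (nat_lit 3) (.e (nat_lit 163976) (nat_lit 30) .nil)))))))) (.g (nat_lit 1) (.e (nat_lit 412682) (nat_lit 0) .nil) .nil))) 
(.lf (nat_lit 597654) (.g (nat_lit 4088) (.e (nat_lit 573482) (nat_lit 13) (.e (nat_lit 65619) (nat_lit 10) (.e (nat_lit 344117) (nat_lit 21) (.e (nat_lit 516151) (nat_lit 9) (.e (nat_lit 426039) (nat_lit 0) (.e (nat_lit 2458) (nat_lit 157) (.e (nat_lit 5546) (nat_lit 306) (.e (nat_lit 2599) (nat_lit 163) (.e (nat_lit 163979) (nat_lit 30) .nil))))))))) (.g (nat_lit 1) (.e (nat_lit 413328) (nat_lit 0) .nil) .nil)))) 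
(.nd (nat_lit 9) 
(.lf (nat_lit 597398) (.g (nat_lit 2705) (.e (nat_lit 573482) (nat_lit 13) (.e (nat_lit 65604) (nat_lit 9) (.e (nat_lit 336013) (nat_lit 2) (.e (nat_lit 90170) (nat_lit 13) (.e (nat_lit 172038) (nat_lit 0) .nil))))) (.g (nat_lit 0) (.e (nat_lit 413061) (nat_lit 0) .nil) .nil))) 
(.lf (nat_lit 597910) (.g (nat_lit 626) (.e (nat_lit 573484) (nat_lit 13) (.e (nat_lit 65604) (nat_lit 9) (.e (nat_lit 336013) (nat_lit 2) .nil))) (.g (nat_lit 0) (.e (nat_lit 413667) (nat_lit 0) .nil) .nil)))))) (.nd (nat_lit 7) (.nd (nat_lit 8) (.nd (nat_lit 9) 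
(.lf (nat_lit 597078) (.g (nat_lit 1457) (.e (nat_lit 573481) (nat_lit 13) (.e (nat_lit 65619) (nat_lit 10) (.e (nat_lit 344117) (nat_lit 21) (.e (nat_lit 516145) (nat_lit 9) .nil)))) (.g (nat_lit 0) (.e (nat_lit 412618) (nat_lit 0) .nil) .nil))) 
(.lf (nat_lit 597590) (.g (nat_lit 3599) (.e (nat_lit 573482) (nat_lit 13) (.e (nat_lit 65619) (nat_lit 10) (.e (nat_lit 344117) (nat_lit 21) (.e (nat_lit 516145) (nat_lit 9) (.e (nat_lit 426148) (nat_lit 4) (.e (nat_lit 229663) (nat_lit 240) (.e (nat_lit 2612) (nat_lit 163) (.e (nat_lit 163979) (nat_lit 30) .nil)))))))) (.g (nat_lit 1) (.e (nat_lit 413264) (nat_lit 0) .nil) .nil)))) 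
(.nd (nat_lit 9) 
(.lf (nat_lit 597334) (.g (nat_lit 3230) (.e (nat_lit 573481) (nat_lit 13) (.e (nat_lit 65630) (nat_lit 14) (.e (nat_lit 401425) (nat_lit 2) (.e (nat_lit 196681) (nat_lit 17) (.e (nat_lit 131108) (nat_lit 9) (.e (nat_lit 336306) (nat_lit 15) (.e (nat_lit 3297) (nat_lit 202) .nil))))))) (.g (nat_lit 1) (.e (nat_lit 412939) (nat_lit 0) .nil) .nil))) 
(.lf (nat_lit 597846) (.g (nat_lit 2721) (.e (nat_lit 573482) (nat_lit 13) (.e (nat_lit 65619) (nat_lit 10) (.e (nat_lit 344129) (nat_lit 26) (.e (nat_lit 557087) (nat_lit 11) (.e (nat_lit 24627) (nat_lit 9) (.e (nat_lit 336306) (nat_lit 15) (.e (nat_lit 3298) (nat_lit 202) .nil))))))) (.g (nat_lit 1) (.e (nat_lit 413543) (nat_lit 0) .nil) .nil))))) (.nd (nat_lit 8) (.nd (nat_lit 9) 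
(.lf (nat_lit 597206) (.g (nat_lit 1943) (.e (nat_lit 573481) (nat_lit 13) (.e (nat_lit 65619) (nat_lit 10) (.e (nat_lit 344117) (nat_lit 21) (.e (nat_lit 516151) (nat_lit 9) (.e (nat_lit 426142) (nat_lit 4) .nil))))) (.g (nat_lit 0) (.e (nat_lit 412747) (nat_lit 0) .nil) .nil))) 
(.lf (nat_lit 597718) (.g (nat_lit 3606) (.e (nat_lit 573482) (nat_lit 13) (.e (nat_lit 65619) (nat_lit 10) (.e (nat_lit 344117) (nat_lit 21) (.e (nat_lit 516151) (nat_lit 9) (.e (nat_lit 426414) (nat_lit 15) (.e (nat_lit 2056) (nat_lit 142) (.e (nat_lit 704589) (nat_lit 3) (.e (nat_lit 163979) (nat_lit 30) .nil)))))))) (.g (nat_lit 1) (.e (nat_lit 413392) (nat_lit 0) .nil) .nil)))) 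
(.nd (nat_lit 9) 
(.lf (nat_lit 597462) (.g (nat_lit 3537) (.e (nat_lit 573482) (nat_lit 13) (.e (nat_lit 65604) (nat_lit 9) (.e (nat_lit 336013) (nat_lit 2) (.e (nat_lit 90170) (nat_lit 13) (.e (nat_lit 172060) (nat_lit 1) (.e (nat_lit 164348) (nat_lit 240) (.e (nat_lit 2610) (nat_lit 163) (.e (nat_lit 163977) (nat_lit 30) .nil)))))))) (.g (nat_lit 1) (.e (nat_lit 413125) (nat_lit 0) .nil) .nil))) 
(.lf (nat_lit 597974) (.g (nat_lit 2921) (.e (nat_lit 573484) (nat_lit 13) (.e (nat_lit 65610) (nat_lit 10) (.e (nat_lit 344117) (nat_lit 21) (.e (nat_lit 516151) (nat_lit 9) (.e (nat_lit 426037) (nat_lit 0) .nil))))) (.g (nat_lit 0) (.e (nat_lit 413793) (nat_lit 0) .nil) .nil))))))) (.nd (nat_lit 6) (.nd (nat_lit 7) (.nd (nat_lit 8) (.nd (nat_lit 9) 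
(.lf (nat_lit 597046) (.g (nat_lit 2446) (.e (nat_lit 573481) (nat_lit 13) (.e (nat_lit 65619) (nat_lit 10) (.e (nat_lit 344117) (nat_lit 21) (.e (nat_lit 516106) (nat_lit 0) (.e (nat_lit 6986) (nat_lit 377) (.e (nat_lit 2777) (nat_lit 178) (.e (nat_lit 294656) (nat_lit 15) (.e (nat_lit 3298) (nat_lit 202) .nil)))))))) (.g (nat_lit 1) (.e (nat_lit 412575) (nat_lit 0) .nil) .nil))) 
(.lf (nat_lit 597558) (.g (nat_lit 3528) (.e (nat_lit 573482) (nat_lit 13) (.e (nat_lit 65619) (nat_lit 10) (.e (nat_lit 344117) (nat_lit 21) (.e (nat_lit 516106) (nat_lit 0) (.e (nat_lit 6986) (nat_lit 377) (.e (nat_lit 2779) (nat_lit 178) (.e (nat_lit 286765) (nat_lit 15) (.e (nat_lit 3298) (nat_lit 202) .nil)))))))) (.g (nat_lit 1) (.e (nat_lit 413229) (nat_lit 0) .nil) .nil)))) 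
(.nd (nat_lit 9) 
(.lf (nat_lit 597302) (.g (nat_lit 2402) (.e (nat_lit 573481) (nat_lit 13) (.e (nat_lit 65619) (nat_lit 10) (.e (nat_lit 344129) (nat_lit 26) (.e (nat_lit 557087) (nat_lit 11) (.e (nat_lit 24623) (nat_lit 9) (.e (nat_lit 336306) (nat_lit 15) (.e (nat_lit 3297) (nat_lit 202) .nil))))))) (.g (nat_lit 1) (.e (nat_lit 412886) (nat_lit 0) .nil) .nil))) 
(.lf (nat_lit 597814) (.g (nat_lit 1204) (.e (nat_lit 573482) (nat_lit 13) (.e (nat_lit 65619) (nat_lit 10) (.e (nat_lit 344129) (nat_lit 26) (.e (nat_lit 557086) (nat_lit 11) .nil)))) (.g (nat_lit 0) (.e (nat_lit 413509) (nat_lit 0) .nil) .nil))))) (.nd (nat_lit 8) (.nd (nat_lit 9) 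
(.lf (nat_lit 597174) (.g (nat_lit 3558) (.e (nat_lit 573481) (nat_lit 13) (.e (nat_lit 65619) (nat_lit 10) (.e (nat_lit 344117) (nat_lit 21) (.e (nat_lit 516151) (nat_lit 9) (.e (nat_lit 426042) (nat_lit 0) (.e (nat_lit 3403) (nat_lit 212) (.e (nat_lit 655373) (nat_lit 3) (.e (nat_lit 163975) (nat_lit 30) .nil)))))))) (.g (nat_lit 1) (.e (nat_lit 412714) (nat_lit 0) .nil) .nil))) 
(.lf (nat_lit 597686) (.g (nat_lit 4012) (.e (nat_lit 573482) (nat_lit 13) (.e (nat_lit 65619) (nat_lit 10) (.e (nat_lit 344117) (nat_lit 21) (.e (nat_lit 516151) (nat_lit 9) (.e (nat_lit 426047) (nat_lit 0) (.e (nat_lit 2458) (nat_lit 157) (.e (nat_lit 5546) (nat_lit 306) (.e (nat_lit 2599) (nat_lit 163) (.e (nat_lit 163979) (nat_lit 30) .nil))))))))) (.g (nat_lit 1) (.e (nat_lit 413360) (nat_lit 0) .nil) .nil)))) 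
(.nd (nat_lit 9) 
(.lf (nat_lit 597430) (.g (nat_lit 3481) (.e (nat_lit 573482) (nat_lit 13) (.e (nat_lit 65604) (nat_lit 9) (.e (nat_lit 336013) (nat_lit 2) (.e (nat_lit 90170) (nat_lit 13) (.e (nat_lit 172048) (nat_lit 0) (.e (nat_lit 3409) (nat_lit 212) (.e (nat_lit 655373) (nat_lit 3) (.e (nat_lit 163979) (nat_lit 30) .nil)))))))) (.g (nat_lit 1) (.e (nat_lit 413093) (nat_lit 0) .nil) .nil))) 
(.lf (nat_lit 597942) (.g (nat_lit 2475) (.e (nat_lit 573484) (nat_lit 13) (.e (nat_lit 65610) (nat_lit 10) (.e (nat_lit 344117) (nat_lit 21) (.e (nat_lit 516116) (nat_lit 1) (.e (nat_lit 164411) (nat_lit 260) .nil))))) (.g (nat_lit 0) (.e (nat_lit 413726) (nat_lit 0) .nil) .nil)))))) (.nd (nat_lit 7) (.nd (nat_lit 8) (.nd (nat_lit 9) 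
(.lf (nat_lit 597110) (.g (nat_lit 3239) (.e (nat_lit 573481) (nat_lit 13) (.e (nat_lit 65619) (nat_lit 10) (.e (nat_lit 344117) (nat_lit 21) (.e (nat_lit 516145) (nat_lit 9) (.e (nat_lit 426379) (nat_lit 15) (.e (nat_lit 2056) (nat_lit 142) (.e (nat_lit 704589) (nat_lit 3) (.e (nat_lit 163975) (nat_lit 30) .nil)))))))) (.g (nat_lit 1) (.e (nat_lit 412650) (nat_lit 0) .nil) .nil))) 
(.lf (nat_lit 597622) (.g (nat_lit 2851) (.e (nat_lit 573482) (nat_lit 13) (.e (nat_lit 65619) (nat_lit 10) (.e (nat_lit 344117) (nat_lit 21) (.e (nat_lit 516145) (nat_lit 9) (.e (nat_lit 433920) (nat_lit 24) .nil))))) (.g (nat_lit 0) (.e (nat_lit 413296) (nat_lit 0) .nil) .nil)))) (.nd (nat_lit 9) 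
(.lf (nat_lit 597366) (.g (nat_lit 333) (.e (nat_lit 573482) (nat_lit 13) (.e (nat_lit 65604) (nat_lit 9) (.e (nat_lit 336013) (nat_lit 2) .nil))) (.g (nat_lit 0) (.e (nat_lit 413023) (nat_lit 0) .nil) .nil))) 
(.lf (nat_lit 597878) (.g (nat_lit 3508) (.e (nat_lit 573482) (nat_lit 13) (.e (nat_lit 65630) (nat_lit 14) (.e (nat_lit 401425) (nat_lit 2) (.e (nat_lit 196681) (nat_lit 17) (.e (nat_lit 131107) (nat_lit 9) (.e (nat_lit 336306) (nat_lit 15) (.e (nat_lit 3308) (nat_lit 202) .nil))))))) (.g (nat_lit 1) (.e (nat_lit 413595) (nat_lit 0) .nil) .nil))))) (.nd (nat_lit 8) (.nd (nat_lit 9) 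
(.lf (nat_lit 597238) (.g (nat_lit 3332) (.e (nat_lit 573481) (nat_lit 13) (.e (nat_lit 65619) (nat_lit 10) (.e (nat_lit 344117) (nat_lit 21) (.e (nat_lit 516160) (nat_lit 10) (.e (nat_lit 434209) (nat_lit 18) (.e (nat_lit 5546) (nat_lit 306) (.e (nat_lit 2601) (nat_lit 163) (.e (nat_lit 163976) (nat_lit 30) .nil)))))))) (.g (nat_lit 1) (.e (nat_lit 412783) (nat_lit 0) .nil) .nil))) 
(.lf (nat_lit 597750) (.g (nat_lit 2313) (.e (nat_lit 573482) (nat_lit 13) (.e (nat_lit 65619) (nat_lit 10) (.e (nat_lit 344117) (nat_lit 21) (.e (nat_lit 516160) (nat_lit 10) (.e (nat_lit 434215) (nat_lit 18) .nil))))) (.g (nat_lit 0) (.e (nat_lit 413424) (nat_lit 0) .nil) .nil)))) (.nd (nat_lit 9) 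
(.lf (nat_lit 597494) (.g (nat_lit 3665) (.e (nat_lit 573482) (nat_lit 13) (.e (nat_lit 65604) (nat_lit 9) (.e (nat_lit 336013) (nat_lit 2) (.e (nat_lit 90174) (nat_lit 14) .nil)))) (.g (nat_lit 0) (.e (nat_lit 413157) (nat_lit 0) .nil) .nil))) 
(.lf (nat_lit 598006) (.g (nat_lit 4553) (.e (nat_lit 573484) (nat_lit 13) (.e (nat_lit 65610) (nat_lit 10) (.e (nat_lit 344117) (nat_lit 21) (.e (nat_lit 516151) (nat_lit 9) (.e (nat_lit 426043) (nat_lit 0) (.e (nat_lit 3408) (nat_lit 212) (.e (nat_lit 655375) (nat_lit 3) (.e (nat_lit 163977) (nat_lit 30) .nil)))))))) (.g (nat_lit 1) (.e (nat_lit 413874) (nat_lit 0) .nil) .nil))))))))) 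
(.nd (nat_lit 4) (.nd (nat_lit 5) (.nd (nat_lit 6) (.nd (nat_lit 7) (.nd (nat_lit 8) 
(.nd (nat_lit 9) 
(.lf (nat_lit 597006) (.g (nat_lit 3268) (.e (nat_lit 573481) (nat_lit 13) (.e (nat_lit 65609) (nat_lit 10) (.e (nat_lit 344117) (nat_lit 21) (.e (nat_lit 516151) (nat_lit 9) (.e (nat_lit 426412) (nat_lit 15) (.e (nat_lit 2057) (nat_lit 142) (.e (nat_lit 704589) (nat_lit 3) (.e (nat_lit 163976) (nat_lit 30) .nil)))))))) (.g (nat_lit 1) (.e (nat_lit 412529) (nat_lit 0) .nil) .nil))) 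
(.lf (nat_lit 597518) (.g (nat_lit 3955) (.e (nat_lit 573482) (nat_lit 13) (.e (nat_lit 65604) (nat_lit 9) (.e (nat_lit 336028) (nat_lit 3) (.e (nat_lit 98367) (nat_lit 27) (.e (nat_lit 434209) (nat_lit 18) (.e (nat_lit 5546) (nat_lit 306) (.e (nat_lit 2611) (nat_lit 163) (.e (nat_lit 163977) (nat_lit 30) .nil)))))))) (.g (nat_lit 1) (.e (nat_lit 413187) (nat_lit 0) .nil) .nil)))) 
(.nd (nat_lit 9) 
(.lf (nat_lit 597262) (.g (nat_lit 2599) (.e (nat_lit 573481) (nat_lit 13) (.e (nat_lit 65619) (nat_lit 10) (.e (nat_lit 344117) (nat_lit 21) (.e (nat_lit 516181) (nat_lit 15) (.e (nat_lit 475196) (nat_lit 40) (.e (nat_lit 704589) (nat_lit 3) (.e (nat_lit 163975) (nat_lit 30) .nil))))))) (.g (nat_lit 1) (.e (nat_lit 412822) (nat_lit 0) .nil) .nil))) 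
(.lf (nat_lit 597774) (.g (nat_lit 2152) (.e (nat_lit 573482) (nat_lit 13) (.e (nat_lit 65619) (nat_lit 10) (.e (nat_lit 344117) (nat_lit 21) (.e (nat_lit 516185) (nat_lit 16) (.e (nat_lit 491546) (nat_lit 9) (.e (nat_lit 336261) (nat_lit 15) (.e (nat_lit 3308) (nat_lit 202) .nil))))))) (.g (nat_lit 1) (.e (nat_lit 413448) (nat_lit 0) .nil) .nil))))) (.nd (nat_lit 8) (.nd (nat_lit 9) 
(.lf (nat_lit 597134) (.g (nat_lit 2944) (.e (nat_lit 573481) (nat_lit 13) (.e (nat_lit 65619) (nat_lit 10) (.e (nat_lit 344117) (nat_lit 21) (.e (nat_lit 516145) (nat_lit 9) (.e (nat_lit 426466) (nat_lit 24) .nil))))) (.g (nat_lit 0) (.e (nat_lit 412674) (nat_lit 0) .nil) .nil))) 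
(.lf (nat_lit 597646) (.g (nat_lit 3920) (.e (nat_lit 573482) (nat_lit 13) (.e (nat_lit 65619) (nat_lit 10) (.e (nat_lit 344117) (nat_lit 21) (.e (nat_lit 516151) (nat_lit 9) (.e (nat_lit 426038) (nat_lit 0) (.e (nat_lit 2458) (nat_lit 157) (.e (nat_lit 5547) (nat_lit 306) (.e (nat_lit 2601) (nat_lit 163) (.e (nat_lit 163977) (nat_lit 30) .nil))))))))) (.g (nat_lit 1) (.e (nat_lit 413320) (nat_lit 0) .nil) .nil)))) 
(.nd (nat_lit 9) 
(.lf (nat_lit 597390) (.g (nat_lit 3103) (.e (nat_lit 573482) (nat_lit 13) (.e (nat_lit 65604) (nat_lit 9) (.e (nat_lit 336013) (nat_lit 2) (.e (nat_lit 90170) (nat_lit 13) (.e (nat_lit 172032) (nat_lit 0) (.e (nat_lit 3402) (nat_lit 211) (.e (nat_lit 647181) (nat_lit 3) (.e (nat_lit 163979) (nat_lit 30) .nil)))))))) (.g (nat_lit 1) (.e (nat_lit 413053) (nat_lit 0) .nil) .nil))) 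
(.lf (nat_lit 597902) (.g (nat_lit 1369) (.e (nat_lit 573483) (nat_lit 13) (.e (nat_lit 65630) (nat_lit 14) (.e (nat_lit 401428) (nat_lit 3) (.e (nat_lit 204858) (nat_lit 26) .nil)))) (.g (nat_lit 0) (.e (nat_lit 413638) (nat_lit 0) .nil) .nil)))))) (.nd (nat_lit 7) (.nd (nat_lit 8) (.nd (nat_lit 9) 
(.lf (nat_lit 597070) (.g (nat_lit 2871) (.e (nat_lit 573481) (nat_lit 13) (.e (nat_lit 65619) (nat_lit 10) (.e (nat_lit 344117) (nat_lit 21) (.e (nat_lit 516144) (nat_lit 9) (.e (nat_lit 426416) (nat_lit 15) (.e (nat_lit 2059) (nat_lit 142) (.e (nat_lit 704589) (nat_lit 3) (.e (nat_lit 163975) (nat_lit 30) .nil)))))))) (.g (nat_lit 1) (.e (nat_lit 412610) (nat_lit 0) .nil) .nil))) 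
(.lf (nat_lit 597582) (.g (nat_lit 3509) (.e (nat_lit 573482) (nat_lit 13) (.e (nat_lit 65619) (nat_lit 10) (.e (nat_lit 344117) (nat_lit 21) (.e (nat_lit 516145) (nat_lit 9) (.e (nat_lit 433920) (nat_lit 1) (.e (nat_lit 164347) (nat_lit 240) (.e (nat_lit 2610) (nat_lit 163) (.e (nat_lit 163979) (nat_lit 30) .nil)))))))) (.g (nat_lit 1) (.e (nat_lit 413256) (nat_lit 0) .nil) .nil)))) 
(.nd (nat_lit 9) 
(.lf (nat_lit 597326) (.g (nat_lit 1267) (.e (nat_lit 573481) (nat_lit 13) (.e (nat_lit 65630) (nat_lit 14) (.e (nat_lit 401425) (nat_lit 2) (.e (nat_lit 196672) (nat_lit 15) .nil)))) (.g (nat_lit 0) (.e (nat_lit 412931) (nat_lit 0) .nil) .nil))) 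
(.lf (nat_lit 597838) (.g (nat_lit 2549) (.e (nat_lit 573482) (nat_lit 13) (.e (nat_lit 65619) (nat_lit 10) (.e (nat_lit 344129) (nat_lit 26) (.e (nat_lit 557087) (nat_lit 11) (.e (nat_lit 24623) (nat_lit 9) (.e (nat_lit 336303) (nat_lit 15) (.e (nat_lit 3304) (nat_lit 202) .nil))))))) (.g (nat_lit 1) (.e (nat_lit 413535) (nat_lit 0) .nil) .nil))))) (.nd (nat_lit 8) (.nd (nat_lit 9) 
(.lf (nat_lit 597198) (.g (nat_lit 4403) (.e (nat_lit 573481) (nat_lit 13) (.e (nat_lit 65619) (nat_lit 10) (.e (nat_lit 344117) (nat_lit 21) (.e (nat_lit 516151) (nat_lit 9) (.e (nat_lit 426097) (nat_lit 1) (.e (nat_lit 164348) (nat_lit 240) (.e (nat_lit 2601) (nat_lit 163) (.e (nat_lit 163975) (nat_lit 30) .nil)))))))) (.g (nat_lit 1) (.e (nat_lit 412739) (nat_lit 0) .nil) .nil))) 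
(.lf (nat_lit 597710) (.g (nat_lit 4358) (.e (nat_lit 573482) (nat_lit 13) (.e (nat_lit 65619) (nat_lit 10) (.e (nat_lit 344117) (nat_lit 21) (.e (nat_lit 516151) (nat_lit 9) (.e (nat_lit 426146) (nat_lit 4) (.e (nat_lit 229663) (nat_lit 240) (.e (nat_lit 2612) (nat_lit 163) (.e (nat_lit 163979) (nat_lit 30) .nil)))))))) (.g (nat_lit 1) (.e (nat_lit 413384) (nat_lit 0) .nil) .nil)))) 
(.nd (nat_lit 9) 
(.lf (nat_lit 597454) (.g (nat_lit 3533) (.e (nat_lit 573482) (nat_lit 13) (.e (nat_lit 65604) (nat_lit 9) (.e (nat_lit 336013) (nat_lit 2) (.e (nat_lit 90170) (nat_lit 13) (.e (nat_lit 172060) (nat_lit 1) (.e (nat_lit 164345) (nat_lit 240) (.e (nat_lit 2600) (nat_lit 163) (.e (nat_lit 163977) (nat_lit 30) .nil)))))))) (.g (nat_lit 1) (.e (nat_lit 413117) (nat_lit 0) .nil) .nil))) 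
(.lf (nat_lit 597966) (.g (nat_lit 2976) (.e (nat_lit 573484) (nat_lit 13) (.e (nat_lit 65610) (nat_lit 10) (.e (nat_lit 344117) (nat_lit 21) (.e (nat_lit 516151) (nat_lit 9) (.e (nat_lit 426021) (nat_lit 0) .nil))))) (.g (nat_lit 0) (.e (nat_lit 413777) (nat_lit 0) .nil) .nil))))))) (.nd (nat_lit 6) (.nd (nat_lit 7) (.nd (nat_lit 8) (.nd (nat_lit 9) 
(.lf (nat_lit 597038) (.g (nat_lit 1459) (.e (nat_lit 573481) (nat_lit 13) (.e (nat_lit 65619) (nat_lit 10) (.e (nat_lit 344117) (nat_lit 21) (.e (nat_lit 516102) (nat_lit 0) .nil)))) (.g (nat_lit 0) (.e (nat_lit 412567) (nat_lit 0) .nil) .nil))) 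
(.lf (nat_lit 597550) (.g (nat_lit 2533) (.e (nat_lit 573482) (nat_lit 13) (.e (nat_lit 65619) (nat_lit 10) (.e (nat_lit 344117) (nat_lit 21) (.e (nat_lit 516099) (nat_lit 0) .nil)))) (.g (nat_lit 0) (.e (nat_lit 413221) (nat_lit 0) .nil) .nil)))) (.nd (nat_lit 9) 
(.lf (nat_lit 597294) (.g (nat_lit 2427) (.e (nat_lit 573481) (nat_lit 13) (.e (nat_lit 65619) (nat_lit 10) (.e (nat_lit 344129) (nat_lit 26) (.e (nat_lit 557070) (nat_lit 9) (.e (nat_lit 7936) (nat_lit 23) .nil))))) (.g (nat_lit 0) (.e (nat_lit 412869) (nat_lit 0) .nil) .nil))) 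
(.lf (nat_lit 597806) (.g (nat_lit 1053) (.e (nat_lit 573482) (nat_lit 13) (.e (nat_lit 65619) (nat_lit 10) (.e (nat_lit 344129) (nat_lit 26) (.e (nat_lit 557074) (nat_lit 9) .nil)))) (.g (nat_lit 0) (.e (nat_lit 413501) (nat_lit 0) .nil) .nil))))) (.nd (nat_lit 8) (.nd (nat_lit 9) 
(.lf (nat_lit 597166) (.g (nat_lit 3029) (.e (nat_lit 573481) (nat_lit 13) (.e (nat_lit 65619) (nat_lit 10) (.e (nat_lit 344117) (nat_lit 21) (.e (nat_lit 516151) (nat_lit 9) (.e (nat_lit 426042) (nat_lit 0) .nil))))) (.g (nat_lit 0) (.e (nat_lit 412706) (nat_lit 0) .nil) .nil))) 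
(.lf (nat_lit 597678) (.g (nat_lit 3701) (.e (nat_lit 573482) (nat_lit 13) (.e (nat_lit 65619) (nat_lit 10) (.e (nat_lit 344117) (nat_lit 21) (.e (nat_lit 516151) (nat_lit 9) (.e (nat_lit 426042) (nat_lit 0) (.e (nat_lit 3407) (nat_lit 212) (.e (nat_lit 655373) (nat_lit 3) (.e (nat_lit 163979) (nat_lit 30) .nil)))))))) (.g (nat_lit 1) (.e (nat_lit 413352) (nat_lit 0) .nil) .nil)))) 
(.nd (nat_lit 9) 
(.lf (nat_lit 597422) (.g (nat_lit 2964) (.e (nat_lit 573482) (nat_lit 13) (.e (nat_lit 65604) (nat_lit 9) (.e (nat_lit 336013) (nat_lit 2) (.e (nat_lit 90170) (nat_lit 13) (.e (nat_lit 172046) (nat_lit 0) (.e (nat_lit 2478) (nat_lit 157) (.e (nat_lit 5543) (nat_lit 306) (.e (nat_lit 2610) (nat_lit 163) (.e (nat_lit 163979) (nat_lit 30) .nil))))))))) (.g (nat_lit 1) (.e (nat_lit 413085) (nat_lit 0) .nil) .nil))) 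
(.lf (nat_lit 597934) (.g (nat_lit 2627) (.e (nat_lit 573484) (nat_lit 13) (.e (nat_lit 65610) (nat_lit 10) (.e (nat_lit 344117) (nat_lit 21) (.e (nat_lit 516106) (nat_lit 0) (.e (nat_lit 7549) (nat_lit 402) .nil))))) (.g (nat_lit 0) (.e (nat_lit 413713) (nat_lit 0) .nil) .nil)))))) (.nd (nat_lit 7) (.nd (nat_lit 8) (.nd (nat_lit 9) 
(.lf (nat_lit 597102) (.g (nat_lit 3522) (.e (nat_lit 573481) (nat_lit 13) (.e (nat_lit 65619) (nat_lit 10) (.e (nat_lit 344117) (nat_lit 21) (.e (nat_lit 516145) (nat_lit 9) (.e (nat_lit 426376) (nat_lit 15) .nil))))) (.g (nat_lit 0) (.e (nat_lit 412642) (nat_lit 0) .nil) .nil))) 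
(.lf (nat_lit 597614) (.g (nat_lit 3443) (.e (nat_lit 573482) (nat_lit 13) (.e (nat_lit 65619) (nat_lit 10) (.e (nat_lit 344117) (nat_lit 21) (.e (nat_lit 516145) (nat_lit 9) (.e (nat_lit 426400) (nat_lit 15) .nil))))) (.g (nat_lit 0) (.e (nat_lit 413288) (nat_lit 0) .nil) .nil)))) (.nd (nat_lit 9) 
(.lf (nat_lit 597358) (.g (nat_lit 3925) (.e (nat_lit 573482) (nat_lit 13) (.e (nat_lit 65598) (nat_lit 9) (.e (nat_lit 336013) (nat_lit 2) (.e (nat_lit 90134) (nat_lit 9) (.e (nat_lit 3098) (nat_lit 192) .nil))))) (.g (nat_lit 0) (.e (nat_lit 413015) (nat_lit 0) .nil) .nil))) 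
(.lf (nat_lit 597870) (.g (nat_lit 1822) (.e (nat_lit 573482) (nat_lit 13) (.e (nat_lit 65628) (nat_lit 14) (.e (nat_lit 401428) (nat_lit 3) (.e (nat_lit 204866) (nat_lit 28) (.e (nat_lit 360192) (nat_lit 0) (.e (nat_lit 3296) (nat_lit 202) .nil)))))) (.g (nat_lit 1) (.e (nat_lit 413586) (nat_lit 0) .nil) .nil))))) (.nd (nat_lit 8) (.nd (nat_lit 9) 
(.lf (nat_lit 597230) (.g (nat_lit 1743) (.e (nat_lit 573481) (nat_lit 13) (.e (nat_lit 65619) (nat_lit 10) (.e (nat_lit 344117) (nat_lit 21) (.e (nat_lit 516155) (nat_lit 9) .nil)))) (.g (nat_lit 0) (.e (nat_lit 412773) (nat_lit 0) .nil) .nil))) 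
(.lf (nat_lit 597742) (.g (nat_lit 5418) (.e (nat_lit 573482) (nat_lit 13) (.e (nat_lit 65619) (nat_lit 10) (.e (nat_lit 344117) (nat_lit 21) (.e (nat_lit 516160) (nat_lit 10) (.e (nat_lit 434209) (nat_lit 18) (.e (nat_lit 5547) (nat_lit 306) (.e (nat_lit 2610) (nat_lit 163) (.e (nat_lit 163979) (nat_lit 30) .nil)))))))) (.g (nat_lit 1) (.e (nat_lit 413416) (nat_lit 0) .nil) .nil)))) 
(.nd (nat_lit 9) 
(.lf (nat_lit 597486) (.g (nat_lit 2986) (.e (nat_lit 573482) (nat_lit 13) (.e (nat_lit 65604) (nat_lit 9) (.e (nat_lit 336013) (nat_lit 2) (.e (nat_lit 90170) (nat_lit 13) (.e (nat_lit 172137) (nat_lit 15) (.e (nat_lit 2056) (nat_lit 142) (.e (nat_lit 704589) (nat_lit 3) (.e (nat_lit 163979) (nat_lit 30) .nil)))))))) (.g (nat_lit 1) (.e (nat_lit 413149) (nat_lit 0) .nil) .nil))) 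
(.lf (nat_lit 597998) (.g (nat_lit 3244) (.e (nat_lit 573484) (nat_lit 13) (.e (nat_lit 65610) (nat_lit 10) (.e (nat_lit 344117) (nat_lit 21) (.e (nat_lit 516151) (nat_lit 9) (.e (nat_lit 426045) (nat_lit 0) (.e (nat_lit 2458) (nat_lit 157) (.e (nat_lit 5546) (nat_lit 306) (.e (nat_lit 2610) (nat_lit 163) (.e (nat_lit 163978) (nat_lit 30) .nil))))))))) (.g (nat_lit 1) (.e (nat_lit 413863) (nat_lit 0) .nil) .nil)))))))) 
(.nd (nat_lit 5) (.nd (nat_lit 6) (.nd (nat_lit 7) (.nd (nat_lit 8) (.nd (nat_lit 9) 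
(.lf (nat_lit 597022) (.g (nat_lit 2128) (.e (nat_lit 573481) (nat_lit 13) (.e (nat_lit 65610) (nat_lit 10) (.e (nat_lit 344117) (nat_lit 21) (.e (nat_lit 516179) (nat_lit 15) .nil)))) (.g (nat_lit 0) (.e (nat_lit 412545) (nat_lit 0) .nil) .nil))) 
(.lf (nat_lit 597534) (.g (nat_lit 2096) (.e (nat_lit 573482) (nat_lit 13) (.e (nat_lit 65610) (nat_lit 10) (.e (nat_lit 344117) (nat_lit 21) (.e (nat_lit 516179) (nat_lit 15) .nil)))) (.g (nat_lit 0) (.e (nat_lit 413204) (nat_lit 0) .nil) .nil)))) (.nd (nat_lit 9) 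
(.lf (nat_lit 597278) (.g (nat_lit 3596) (.e (nat_lit 573481) (nat_lit 13) (.e (nat_lit 65619) (nat_lit 10) (.e (nat_lit 344117) (nat_lit 21) (.e (nat_lit 516184) (nat_lit 16) (.e (nat_lit 491550) (nat_lit 9) (.e (nat_lit 336306) (nat_lit 15) (.e (nat_lit 3298) (nat_lit 202) .nil))))))) (.g (nat_lit 1) (.e (nat_lit 412838) (nat_lit 0) .nil) .nil))) 
(.lf (nat_lit 597790) (.g (nat_lit 2276) (.e (nat_lit 573482) (nat_lit 13) (.e (nat_lit 65619) (nat_lit 10) (.e (nat_lit 344129) (nat_lit 26) (.e (nat_lit 557066) (nat_lit 9) (.e (nat_lit 243) (nat_lit 21) .nil))))) (.g (nat_lit 0) (.e (nat_lit 413477) (nat_lit 0) .nil) .nil))))) (.nd (nat_lit 8) (.nd (nat_lit 9) 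
(.lf (nat_lit 597150) (.g (nat_lit 2795) (.e (nat_lit 573481) (nat_lit 13) (.e (nat_lit 65619) (nat_lit 10) (.e (nat_lit 344117) (nat_lit 21) (.e (nat_lit 516150) (nat_lit 9) (.e (nat_lit 426444) (nat_lit 19) .nil))))) (.g (nat_lit 0) (.e (nat_lit 412690) (nat_lit 0) .nil) .nil))) 
(.lf (nat_lit 597662) (.g (nat_lit 3547) (.e (nat_lit 573482) (nat_lit 13) (.e (nat_lit 65619) (nat_lit 10) (.e (nat_lit 344117) (nat_lit 21) (.e (nat_lit 516151) (nat_lit 9) (.e (nat_lit 426041) (nat_lit 0) (.e (nat_lit 3406) (nat_lit 212) (.e (nat_lit 655375) (nat_lit 3) (.e (nat_lit 163979) (nat_lit 30) .nil)))))))) (.g (nat_lit 1) (.e (nat_lit 413336) (nat_lit 0) .nil) .nil)))) 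
(.nd (nat_lit 9) 
(.lf (nat_lit 597406) (.g (nat_lit 3175) (.e (nat_lit 573482) (nat_lit 13) (.e (nat_lit 65604) (nat_lit 9) (.e (nat_lit 336013) (nat_lit 2) (.e (nat_lit 90170) (nat_lit 13) (.e (nat_lit 172038) (nat_lit 0) (.e (nat_lit 3402) (nat_lit 211) (.e (nat_lit 647181) (nat_lit 3) (.e (nat_lit 163977) (nat_lit 30) .nil)))))))) (.g (nat_lit 1) (.e (nat_lit 413069) (nat_lit 0) .nil) .nil))) 
(.lf (nat_lit 597918) (.g (nat_lit 318) (.e (nat_lit 573484) (nat_lit 13) (.e (nat_lit 65610) (nat_lit 10) (.e (nat_lit 344117) (nat_lit 21) .nil))) (.g (nat_lit 0) (.e (nat_lit 413683) (nat_lit 0) .nil) .nil)))))) (.nd (nat_lit 7) (.nd (nat_lit 8) (.nd (nat_lit 9) 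
(.lf (nat_lit 597086) (.g (nat_lit 4054) (.e (nat_lit 573481) (nat_lit 13) (.e (nat_lit 65619) (nat_lit 10) (.e (nat_lit 344117) (nat_lit 21) (.e (nat_lit 516145) (nat_lit 9) (.e (nat_lit 426352) (nat_lit 15) (.e (nat_lit 7936) (nat_lit 142) (.e (nat_lit 704589) (nat_lit 3) (.e (nat_lit 163976) (nat_lit 30) .nil)))))))) (.g (nat_lit 1) (.e (nat_lit 412626) (nat_lit 0) .nil) .nil))) 
(.lf (nat_lit 597598) (.g (nat_lit 3438) (.e (nat_lit 573482) (nat_lit 13) (.e (nat_lit 65619) (nat_lit 10) (.e (nat_lit 344117) (nat_lit 21) (.e (nat_lit 516145) (nat_lit 9) (.e (nat_lit 426364) (nat_lit 15) .nil))))) (.g (nat_lit 0) (.e (nat_lit 413272) (nat_lit 0) .nil) .nil)))) (.nd (nat_lit 9) 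
(.lf (nat_lit 597342) (.g (nat_lit 1471) (.e (nat_lit 573481) (nat_lit 13) (.e (nat_lit 65630) (nat_lit 14) (.e (nat_lit 401428) (nat_lit 3) (.e (nat_lit 204867) (nat_lit 28) .nil)))) (.g (nat_lit 0) (.e (nat_lit 412947) (nat_lit 0) .nil) .nil))) 
(.lf (nat_lit 597854) (.g (nat_lit 1969) (.e (nat_lit 573482) (nat_lit 13) (.e (nat_lit 65619) (nat_lit 10) (.e (nat_lit 344129) (nat_lit 26) (.e (nat_lit 557087) (nat_lit 11) (.e (nat_lit 24638) (nat_lit 9) .nil))))) (.g (nat_lit 0) (.e (nat_lit 413551) (nat_lit 0) .nil) .nil))))) (.nd (nat_lit 8) (.nd (nat_lit 9) 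
(.lf (nat_lit 597214) (.g (nat_lit 4308) (.e (nat_lit 573481) (nat_lit 13) (.e (nat_lit 65619) (nat_lit 10) (.e (nat_lit 344117) (nat_lit 21) (.e (nat_lit 516151) (nat_lit 9) (.e (nat_lit 426380) (nat_lit 15) (.e (nat_lit 2058) (nat_lit 142) (.e (nat_lit 704589) (nat_lit 3) (.e (nat_lit 163975) (nat_lit 30) .nil)))))))) (.g (nat_lit 1) (.e (nat_lit 412757) (nat_lit 0) .nil) .nil))) 
(.lf (nat_lit 597726) (.g (nat_lit 3867) (.e (nat_lit 573482) (nat_lit 13) (.e (nat_lit 65619) (nat_lit 10) (.e (nat_lit 344117) (nat_lit 21) (.e (nat_lit 516159) (nat_lit 10) (.e (nat_lit 434209) (nat_lit 18) (.e (nat_lit 5546) (nat_lit 306) (.e (nat_lit 2611) (nat_lit 163) (.e (nat_lit 163979) (nat_lit 30) .nil)))))))) (.g (nat_lit 1) (.e (nat_lit 413400) (nat_lit 0) .nil) .nil)))) 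
(.nd (nat_lit 9) 
(.lf (nat_lit 597470) (.g (nat_lit 5057) (.e (nat_lit 573482) (nat_lit 13) (.e (nat_lit 65604) (nat_lit 9) (.e (nat_lit 336013) (nat_lit 2) (.e (nat_lit 90170) (nat_lit 13) (.e (nat_lit 172068) (nat_lit 4) (.e (nat_lit 229666) (nat_lit 240) (.e (nat_lit 2612) (nat_lit 163) (.e (nat_lit 163979) (nat_lit 30) .nil)))))))) (.g (nat_lit 1) (.e (nat_lit 413133) (nat_lit 0) .nil) .nil))) 
(.lf (nat_lit 597982) (.g (nat_lit 3515) (.e (nat_lit 573484) (nat_lit 13) (.e (nat_lit 65610) (nat_lit 10) (.e (nat_lit 344117) (nat_lit 21) (.e (nat_lit 516151) (nat_lit 9) (.e (nat_lit 426038) (nat_lit 0) (.e (nat_lit 2458) (nat_lit 157) (.e (nat_lit 5548) (nat_lit 306) (.e (nat_lit 2610) (nat_lit 163) (.e (nat_lit 163977) (nat_lit 30) .nil))))))))) (.g (nat_lit 1) (.e (nat_lit 413831) (nat_lit 0) .nil) .nil))))))) 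
(.nd (nat_lit 6) (.nd (nat_lit 7) (.nd (nat_lit 8) (.nd (nat_lit 9) 
(.lf (nat_lit 597054) (.g (nat_lit 3559) (.e (nat_lit 573481) (nat_lit 13) (.e (nat_lit 65619) (nat_lit 10) (.e (nat_lit 344117) (nat_lit 21) (.e (nat_lit 516143) (nat_lit 9) (.e (nat_lit 426109) (nat_lit 1) (.e (nat_lit 164345) (nat_lit 240) (.e (nat_lit 2599) (nat_lit 163) (.e (nat_lit 163976) (nat_lit 30) .nil)))))))) (.g (nat_lit 1) (.e (nat_lit 412594) (nat_lit 0) .nil) .nil))) 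
(.lf (nat_lit 597566) (.g (nat_lit 3249) (.e (nat_lit 573482) (nat_lit 13) (.e (nat_lit 65619) (nat_lit 10) (.e (nat_lit 344117) (nat_lit 21) (.e (nat_lit 516139) (nat_lit 7) (.e (nat_lit 409641) (nat_lit 17) .nil))))) (.g (nat_lit 0) (.e (nat_lit 413237) (nat_lit 0) .nil) .nil)))) (.nd (nat_lit 9) 
(.lf (nat_lit 597310) (.g (nat_lit 2180) (.e (nat_lit 573481) (nat_lit 13) (.e (nat_lit 65624) (nat_lit 12) (.e (nat_lit 385074) (nat_lit 31) (.e (nat_lit 573491) (nat_lit 15) (.e (nat_lit 89856) (nat_lit 0) .nil))))) (.g (nat_lit 0) (.e (nat_lit 412901) (nat_lit 0) .nil) .nil))) 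
(.lf (nat_lit 597822) (.g (nat_lit 3599) (.e (nat_lit 573482) (nat_lit 13) (.e (nat_lit 65619) (nat_lit 10) (.e (nat_lit 344129) (nat_lit 26) (.e (nat_lit 557087) (nat_lit 11) (.e (nat_lit 24596) (nat_lit 1) .nil))))) (.g (nat_lit 0) (.e (nat_lit 413517) (nat_lit 0) .nil) .nil))))) (.nd (nat_lit 8) (.nd (nat_lit 9) 
(.lf (nat_lit 597182) (.g (nat_lit 3883) (.e (nat_lit 573481) (nat_lit 13) (.e (nat_lit 65619) (nat_lit 10) (.e (nat_lit 344117) (nat_lit 21) (.e (nat_lit 516151) (nat_lit 9) (.e (nat_lit 426042) (nat_lit 0) (.e (nat_lit 3407) (nat_lit 212) (.e (nat_lit 655375) (nat_lit 3) (.e (nat_lit 163979) (nat_lit 30) .nil)))))))) (.g (nat_lit 1) (.e (nat_lit 412722) (nat_lit 0) .nil) .nil))) 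
(.lf (nat_lit 597694) (.g (nat_lit 3827) (.e (nat_lit 573482) (nat_lit 13) (.e (nat_lit 65619) (nat_lit 10) (.e (nat_lit 344117) (nat_lit 21) (.e (nat_lit 516151) (nat_lit 9) (.e (nat_lit 426101) (nat_lit 1) .nil))))) (.g (nat_lit 0) (.e (nat_lit 413368) (nat_lit 0) .nil) .nil)))) (.nd (nat_lit 9) 
(.lf (nat_lit 597438) (.g (nat_lit 4407) (.e (nat_lit 573482) (nat_lit 13) (.e (nat_lit 65604) (nat_lit 9) (.e (nat_lit 336013) (nat_lit 2) (.e (nat_lit 90170) (nat_lit 13) (.e (nat_lit 172049) (nat_lit 0) (.e (nat_lit 3409) (nat_lit 212) (.e (nat_lit 655375) (nat_lit 3) (.e (nat_lit 163977) (nat_lit 30) .nil)))))))) (.g (nat_lit 1) (.e (nat_lit 413101) (nat_lit 0) .nil) .nil))) 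
(.lf (nat_lit 597950) (.g (nat_lit 4340) (.e (nat_lit 573484) (nat_lit 13) (.e (nat_lit 65610) (nat_lit 10) (.e (nat_lit 344117) (nat_lit 21) (.e (nat_lit 516143) (nat_lit 9) (.e (nat_lit 426109) (nat_lit 1) (.e (nat_lit 164345) (nat_lit 240) (.e (nat_lit 2601) (nat_lit 163) (.e (nat_lit 163977) (nat_lit 30) .nil)))))))) (.g (nat_lit 1) (.e (nat_lit 413743) (nat_lit 0) .nil) .nil)))))) 
(.nd (nat_lit 7) (.nd (nat_lit 8) (.nd (nat_lit 9) 
(.lf (nat_lit 597118) (.g (nat_lit 3101) (.e (nat_lit 573481) (nat_lit 13) (.e (nat_lit 65619) (nat_lit 10) (.e (nat_lit 344117) (nat_lit 21) (.e (nat_lit 516145) (nat_lit 9) (.e (nat_lit 426415) (nat_lit 15) .nil))))) (.g (nat_lit 0) (.e (nat_lit 412658) (nat_lit 0) .nil) .nil))) 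
(.lf (nat_lit 597630) (.g (nat_lit 3801) (.e (nat_lit 573482) (nat_lit 13) (.e (nat_lit 65619) (nat_lit 10) (.e (nat_lit 344117) (nat_lit 21) (.e (nat_lit 516151) (nat_lit 9) (.e (nat_lit 426018) (nat_lit 0) (.e (nat_lit 2536) (nat_lit 157) (.e (nat_lit 5543) (nat_lit 306) (.e (nat_lit 2611) (nat_lit 163) (.e (nat_lit 163979) (nat_lit 30) .nil))))))))) (.g (nat_lit 1) (.e (nat_lit 413304) (nat_lit 0) .nil) .nil)))) 
(.nd (nat_lit 9) 
(.lf (nat_lit 597374) (.g (nat_lit 2846) (.e (nat_lit 573482) (nat_lit 13) (.e (nat_lit 65604) (nat_lit 9) (.e (nat_lit 336013) (nat_lit 2) (.e (nat_lit 90134) (nat_lit 9) (.e (nat_lit 2914) (nat_lit 184) (.e (nat_lit 426107) (nat_lit 1) (.e (nat_lit 164347) (nat_lit 240) (.e (nat_lit 2610) (nat_lit 163) (.e (nat_lit 163979) (nat_lit 30) .nil))))))))) (.g (nat_lit 1) (.e (nat_lit 413033) (nat_lit 0) .nil) .nil))) 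
(.lf (nat_lit 597886) (.g (nat_lit 4119) (.e (nat_lit 573483) (nat_lit 13) (.e (nat_lit 65610) (nat_lit 10) (.e (nat_lit 344117) (nat_lit 21) (.e (nat_lit 516151) (nat_lit 9) (.e (nat_lit 426041) (nat_lit 0) .nil))))) (.g (nat_lit 0) (.e (nat_lit 413622) (nat_lit 0) .nil) .nil))))) (.nd (nat_lit 8) (.nd (nat_lit 9) 
(.lf (nat_lit 597246) (.g (nat_lit 3335) (.e (nat_lit 573481) (nat_lit 13) (.e (nat_lit 65619) (nat_lit 10) (.e (nat_lit 344117) (nat_lit 21) (.e (nat_lit 516178) (nat_lit 15) (.e (nat_lit 475197) (nat_lit 40) (.e (nat_lit 704589) (nat_lit 3) (.e (nat_lit 163976) (nat_lit 30) .nil))))))) (.g (nat_lit 1) (.e (nat_lit 412806) (nat_lit 0) .nil) .nil))) 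
(.lf (nat_lit 597758) (.g (nat_lit 2157) (.e (nat_lit 573482) (nat_lit 13) (.e (nat_lit 65619) (nat_lit 10) (.e (nat_lit 344117) (nat_lit 21) (.e (nat_lit 516169) (nat_lit 13) (.e (nat_lit 458774) (nat_lit 18) .nil))))) (.g (nat_lit 0) (.e (nat_lit 413432) (nat_lit 0) .nil) .nil)))) (.nd (nat_lit 9) 
(.lf (nat_lit 597502) (.g (nat_lit 4112) (.e (nat_lit 573482) (nat_lit 13) (.e (nat_lit 65604) (nat_lit 9) (.e (nat_lit 336028) (nat_lit 3) (.e (nat_lit 98359) (nat_lit 26) (.e (nat_lit 426043) (nat_lit 0) (.e (nat_lit 3409) (nat_lit 212) (.e (nat_lit 655375) (nat_lit 3) (.e (nat_lit 163977) (nat_lit 30) .nil)))))))) (.g (nat_lit 1) (.e (nat_lit 413168) (nat_lit 0) .nil) .nil))) 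
(.lf (nat_lit 598014) (.g (nat_lit 3363) (.e (nat_lit 573484) (nat_lit 13) (.e (nat_lit 65610) (nat_lit 10) (.e (nat_lit 344117) (nat_lit 21) (.e (nat_lit 516151) (nat_lit 9) (.e (nat_lit 426050) (nat_lit 0) (.e (nat_lit 3403) (nat_lit 212) (.e (nat_lit 655374) (nat_lit 3) (.e (nat_lit 163978) (nat_lit 30) .nil)))))))) (.g (nat_lit 1) (.e (nat_lit 413885) (nat_lit 0) .nil) .nil)))))))))))) 
(.nd (nat_lit 1) (.nd (nat_lit 2) (.nd (nat_lit 3) (.nd (nat_lit 4) (.nd (nat_lit 5) 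
(.nd (nat_lit 6) (.nd (nat_lit 7) (.nd (nat_lit 8) (.nd (nat_lit 9) 
(.lf (nat_lit 596993) (.g (nat_lit 3681) (.e (nat_lit 573481) (nat_lit 13) (.e (nat_lit 65604) (nat_lit 9) (.e (nat_lit 336028) (nat_lit 3) (.e (nat_lit 98384) (nat_lit 32) (.e (nat_lit 475199) (nat_lit 40) (.e (nat_lit 704590) (nat_lit 3) (.e (nat_lit 163975) (nat_lit 30) .nil))))))) (.g (nat_lit 1) (.e (nat_lit 412516) (nat_lit 0) .nil) .nil))) 
(.lf (nat_lit 597505) (.g (nat_lit 1675) (.e (nat_lit 573482) (nat_lit 13) (.e (nat_lit 65604) (nat_lit 9) (.e (nat_lit 336028) (nat_lit 3) (.e (nat_lit 98365) (nat_lit 26) .nil)))) (.g (nat_lit 0) (.e (nat_lit 413172) (nat_lit 0) .nil) .nil)))) (.nd (nat_lit 9) 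
(.lf (nat_lit 597249) (.g (nat_lit 3540) (.e (nat_lit 573481) (nat_lit 13) (.e (nat_lit 65619) (nat_lit 10) (.e (nat_lit 344117) (nat_lit 21) (.e (nat_lit 516178) (nat_lit 15) (.e (nat_lit 475210) (nat_lit 41) (.e (nat_lit 712722) (nat_lit 15) (.e (nat_lit 3302) (nat_lit 202) .nil))))))) (.g (nat_lit 1) (.e (nat_lit 412809) (nat_lit 0) .nil) .nil))) 
(.lf (nat_lit 597761) (.g (nat_lit 2918) (.e (nat_lit 573482) (nat_lit 13) (.e (nat_lit 65619) (nat_lit 10) (.e (nat_lit 344117) (nat_lit 21) (.e (nat_lit 516170) (nat_lit 13) (.e (nat_lit 458774) (nat_lit 18) (.e (nat_lit 5543) (nat_lit 306) (.e (nat_lit 2611) (nat_lit 163) (.e (nat_lit 163977) (nat_lit 30) .nil)))))))) (.g (nat_lit 1) (.e (nat_lit 413435) (nat_lit 0) .nil) .nil))))) 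
(.nd (nat_lit 8) (.nd (nat_lit 9) 
(.lf (nat_lit 597121) (.g (nat_lit 3522) (.e (nat_lit 573481) (nat_lit 13) (.e (nat_lit 65619) (nat_lit 10) (.e (nat_lit 344117) (nat_lit 21) (.e (nat_lit 516145) (nat_lit 9) (.e (nat_lit 426418) (nat_lit 15) .nil))))) (.g (nat_lit 0) (.e (nat_lit 412661) (nat_lit 0) .nil) .nil))) 
(.lf (nat_lit 597633) (.g (nat_lit 3018) (.e (nat_lit 573482) (nat_lit 13) (.e (nat_lit 65619) (nat_lit 10) (.e (nat_lit 344117) (nat_lit 21) (.e (nat_lit 516151) (nat_lit 9) (.e (nat_lit 426022) (nat_lit 0) (.e (nat_lit 7936) (nat_lit 211) (.e (nat_lit 647180) (nat_lit 3) (.e (nat_lit 163979) (nat_lit 30) .nil)))))))) (.g (nat_lit 1) (.e (nat_lit 413307) (nat_lit 0) .nil) .nil)))) 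
(.nd (nat_lit 9) 
(.lf (nat_lit 597377) (.g (nat_lit 2433) (.e (nat_lit 573482) (nat_lit 13) (.e (nat_lit 65604) (nat_lit 9) (.e (nat_lit 336013) (nat_lit 2) (.e (nat_lit 90134) (nat_lit 9) (.e (nat_lit 3097) (nat_lit 192) (.e (nat_lit 491566) (nat_lit 12) (.e (nat_lit 385073) (nat_lit 31) .nil))))))) (.g (nat_lit 1) (.e (nat_lit 413040) (nat_lit 0) .nil) .nil))) 
(.lf (nat_lit 597889) (.g (nat_lit 2847) (.e (nat_lit 573483) (nat_lit 13) (.e (nat_lit 65610) (nat_lit 10) (.e (nat_lit 344117) (nat_lit 21) (.e (nat_lit 516151) (nat_lit 9) (.e (nat_lit 426412) (nat_lit 15) .nil))))) (.g (nat_lit 0) (.e (nat_lit 413625) (nat_lit 0) .nil) .nil)))))) (.nd (nat_lit 7) (.nd (nat_lit 8) (.nd (nat_lit 9) 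
(.lf (nat_lit 597057) (.g (nat_lit 4355) (.e (nat_lit 573481) (nat_lit 13) (.e (nat_lit 65619) (nat_lit 10) (.e (nat_lit 344117) (nat_lit 21) (.e (nat_lit 516143) (nat_lit 9) (.e (nat_lit 426396) (nat_lit 15) (.e (nat_lit 2059) (nat_lit 142) (.e (nat_lit 704589) (nat_lit 3) (.e (nat_lit 163976) (nat_lit 30) .nil)))))))) (.g (nat_lit 1) (.e (nat_lit 412597) (nat_lit 0) .nil) .nil))) 
(.lf (nat_lit 597569) (.g (nat_lit 4988) (.e (nat_lit 573482) (nat_lit 13) (.e (nat_lit 65619) (nat_lit 10) (.e (nat_lit 344117) (nat_lit 21) (.e (nat_lit 516143) (nat_lit 9) (.e (nat_lit 426109) (nat_lit 1) (.e (nat_lit 164347) (nat_lit 240) (.e (nat_lit 2610) (nat_lit 163) (.e (nat_lit 163979) (nat_lit 30) .nil)))))))) (.g (nat_lit 1) (.e (nat_lit 413243) (nat_lit 0) .nil) .nil)))) 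
(.nd (nat_lit 9) 
(.lf (nat_lit 597313) (.g (nat_lit 1961) (.e (nat_lit 573481) (nat_lit 13) (.e (nat_lit 65628) (nat_lit 14) (.e (nat_lit 401425) (nat_lit 2) (.e (nat_lit 196681) (nat_lit 17) (.e (nat_lit 131105) (nat_lit 9) .nil))))) (.g (nat_lit 0) (.e (nat_lit 412913) (nat_lit 0) .nil) .nil))) 
(.lf (nat_lit 597825) (.g (nat_lit 2801) (.e (nat_lit 573482) (nat_lit 13) (.e (nat_lit 65619) (nat_lit 10) (.e (nat_lit 344129) (nat_lit 26) (.e (nat_lit 557087) (nat_lit 11) (.e (nat_lit 24597) (nat_lit 1) (.e (nat_lit 57770) (nat_lit 227) (.e (nat_lit 2611) (nat_lit 163) (.e (nat_lit 163977) (nat_lit 30) .nil)))))))) (.g (nat_lit 1) (.e (nat_lit 413520) (nat_lit 0) .nil) .nil))))) 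
(.nd (nat_lit 8) (.nd (nat_lit 9) 
(.lf (nat_lit 597185) (.g (nat_lit 3484) (.e (nat_lit 573481) (nat_lit 13) (.e (nat_lit 65619) (nat_lit 10) (.e (nat_lit 344117) (nat_lit 21) (.e (nat_lit 516151) (nat_lit 9) (.e (nat_lit 426042) (nat_lit 0) (.e (nat_lit 3408) (nat_lit 212) (.e (nat_lit 655375) (nat_lit 3) (.e (nat_lit 163978) (nat_lit 30) .nil)))))))) (.g (nat_lit 1) (.e (nat_lit 412725) (nat_lit 0) .nil) .nil))) 
(.lf (nat_lit 597697) (.g (nat_lit 3039) (.e (nat_lit 573482) (nat_lit 13) (.e (nat_lit 65619) (nat_lit 10) (.e (nat_lit 344117) (nat_lit 21) (.e (nat_lit 516151) (nat_lit 9) (.e (nat_lit 426104) (nat_lit 1) .nil))))) (.g (nat_lit 0) (.e (nat_lit 413371) (nat_lit 0) .nil) .nil)))) (.nd (nat_lit 9) 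
(.lf (nat_lit 597441) (.g (nat_lit 3417) (.e (nat_lit 573482) (nat_lit 13) (.e (nat_lit 65604) (nat_lit 9) (.e (nat_lit 336013) (nat_lit 2) (.e (nat_lit 90170) (nat_lit 13) (.e (nat_lit 172051) (nat_lit 0) .nil))))) (.g (nat_lit 0) (.e (nat_lit 413104) (nat_lit 0) .nil) .nil))) 
(.lf (nat_lit 597953) (.g (nat_lit 998) (.e (nat_lit 573484) (nat_lit 13) (.e (nat_lit 65610) (nat_lit 10) (.e (nat_lit 344117) (nat_lit 21) (.e (nat_lit 516145) (nat_lit 9) .nil)))) (.g (nat_lit 0) (.e (nat_lit 413747) (nat_lit 0) .nil) .nil))))))) (.nd (nat_lit 6) (.nd (nat_lit 7) (.nd (nat_lit 8) (.nd (nat_lit 9) 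
(.lf (nat_lit 597025) (.g (nat_lit 2254) (.e (nat_lit 573481) (nat_lit 13) (.e (nat_lit 65613) (nat_lit 10) (.e (nat_lit 344118) (nat_lit 21) (.e (nat_lit 516182) (nat_lit 15) (.e (nat_lit 475199) (nat_lit 40) (.e (nat_lit 704589) (nat_lit 3) (.e (nat_lit 163975) (nat_lit 30) .nil))))))) (.g (nat_lit 1) (.e (nat_lit 412548) (nat_lit 0) .nil) .nil))) 
(.lf (nat_lit 597537) (.g (nat_lit 2532) (.e (nat_lit 573482) (nat_lit 13) (.e (nat_lit 65618) (nat_lit 10) (.e (nat_lit 344117) (nat_lit 21) (.e (nat_lit 516099) (nat_lit 0) .nil)))) (.g (nat_lit 0) (.e (nat_lit 413207) (nat_lit 0) .nil) .nil)))) (.nd (nat_lit 9) 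
(.lf (nat_lit 597281) (.g (nat_lit 3229) (.e (nat_lit 573481) (nat_lit 13) (.e (nat_lit 65619) (nat_lit 10) (.e (nat_lit 344117) (nat_lit 21) (.e (nat_lit 516185) (nat_lit 16) (.e (nat_lit 491556) (nat_lit 9) (.e (nat_lit 336305) (nat_lit 15) (.e (nat_lit 3298) (nat_lit 202) .nil))))))) (.g (nat_lit 1) (.e (nat_lit 412841) (nat_lit 0) .nil) .nil))) 
(.lf (nat_lit 597793) (.g (nat_lit 1864) (.e (nat_lit 573482) (nat_lit 13) (.e (nat_lit 65619) (nat_lit 10) (.e (nat_lit 344129) (nat_lit 26) (.e (nat_lit 557066) (nat_lit 9) (.e (nat_lit 276) (nat_lit 21) .nil))))) (.g (nat_lit 0) (.e (nat_lit 413480) (nat_lit 0) .nil) .nil))))) (.nd (nat_lit 8) (.nd (nat_lit 9) 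
(.lf (nat_lit 597153) (.g (nat_lit 2915) (.e (nat_lit 573481) (nat_lit 13) (.e (nat_lit 65619) (nat_lit 10) (.e (nat_lit 344117) (nat_lit 21) (.e (nat_lit 516151) (nat_lit 9) (.e (nat_lit 426003) (nat_lit 0) (.e (nat_lit 3402) (nat_lit 211) (.e (nat_lit 647180) (nat_lit 3) (.e (nat_lit 163976) (nat_lit 30) .nil)))))))) (.g (nat_lit 1) (.e (nat_lit 412693) (nat_lit 0) .nil) .nil))) 
(.lf (nat_lit 597665) (.g (nat_lit 3303) (.e (nat_lit 573482) (nat_lit 13) (.e (nat_lit 65619) (nat_lit 10) (.e (nat_lit 344117) (nat_lit 21) (.e (nat_lit 516151) (nat_lit 9) (.e (nat_lit 426042) (nat_lit 0) (.e (nat_lit 2458) (nat_lit 157) (.e (nat_lit 5546) (nat_lit 306) (.e (nat_lit 2598) (nat_lit 163) (.e (nat_lit 163979) (nat_lit 30) .nil))))))))) (.g (nat_lit 1) (.e (nat_lit 413339) (nat_lit 0) .nil) .nil)))) 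
(.nd (nat_lit 9) 
(.lf (nat_lit 597409) (.g (nat_lit 2980) (.e (nat_lit 573482) (nat_lit 13) (.e (nat_lit 65604) (nat_lit 9) (.e (nat_lit 336013) (nat_lit 2) (.e (nat_lit 90170) (nat_lit 13) (.e (nat_lit 172041) (nat_lit 0) (.e (nat_lit 3403) (nat_lit 212) (.e (nat_lit 655374) (nat_lit 3) (.e (nat_lit 163979) (nat_lit 30) .nil)))))))) (.g (nat_lit 1) (.e (nat_lit 413072) (nat_lit 0) .nil) .nil))) 
(.lf (nat_lit 597921) (.g (nat_lit 2971) (.e (nat_lit 573484) (nat_lit 13) (.e (nat_lit 65610) (nat_lit 10) (.e (nat_lit 344117) (nat_lit 21) (.e (nat_lit 516097) (nat_lit 0) (.e (nat_lit 7542) (nat_lit 402) .nil))))) (.g (nat_lit 0) (.e (nat_lit 413686) (nat_lit 0) .nil) .nil)))))) (.nd (nat_lit 7) (.nd (nat_lit 8) (.nd (nat_lit 9) 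
(.lf (nat_lit 597089) (.g (nat_lit 3522) (.e (nat_lit 573481) (nat_lit 13) (.e (nat_lit 65619) (nat_lit 10) (.e (nat_lit 344117) (nat_lit 21) (.e (nat_lit 516145) (nat_lit 9) (.e (nat_lit 426361) (nat_lit 15) .nil))))) (.g (nat_lit 0) (.e (nat_lit 412629) (nat_lit 0) .nil) .nil))) 
(.lf (nat_lit 597601) (.g (nat_lit 3597) (.e (nat_lit 573482) (nat_lit 13) (.e (nat_lit 65619) (nat_lit 10) (.e (nat_lit 344117) (nat_lit 21) (.e (nat_lit 516145) (nat_lit 9) (.e (nat_lit 426364) (nat_lit 15) (.e (nat_lit 2160) (nat_lit 143) (.e (nat_lit 712720) (nat_lit 15) (.e (nat_lit 3308) (nat_lit 202) .nil)))))))) (.g (nat_lit 1) (.e (nat_lit 413275) (nat_lit 0) .nil) .nil)))) 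
(.nd (nat_lit 9) 
(.lf (nat_lit 597345) (.g (nat_lit 1278) (.e (nat_lit 573481) (nat_lit 13) (.e (nat_lit 65630) (nat_lit 14) (.e (nat_lit 401428) (nat_lit 3) (.e (nat_lit 204877) (nat_lit 31) .nil)))) (.g (nat_lit 0) (.e (nat_lit 412950) (nat_lit 0) .nil) .nil))) 
(.lf (nat_lit 597857) (.g (nat_lit 2269) (.e (nat_lit 573482) (nat_lit 13) (.e (nat_lit 65619) (nat_lit 10) (.e (nat_lit 344129) (nat_lit 26) (.e (nat_lit 557087) (nat_lit 11) (.e (nat_lit 32512) (nat_lit 12) (.e (nat_lit 385073) (nat_lit 31) .nil)))))) (.g (nat_lit 1) (.e (nat_lit 413554) (nat_lit 0) .nil) .nil))))) (.nd (nat_lit 8) (.nd (nat_lit 9) 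
(.lf (nat_lit 597217) (.g (nat_lit 3837) (.e (nat_lit 573481) (nat_lit 13) (.e (nat_lit 65619) (nat_lit 10) (.e (nat_lit 344117) (nat_lit 21) (.e (nat_lit 516151) (nat_lit 9) (.e (nat_lit 426396) (nat_lit 15) (.e (nat_lit 2058) (nat_lit 142) (.e (nat_lit 704589) (nat_lit 3) (.e (nat_lit 163976) (nat_lit 30) .nil)))))))) (.g (nat_lit 1) (.e (nat_lit 412760) (nat_lit 0) .nil) .nil))) 
(.lf (nat_lit 597729) (.g (nat_lit 2421) (.e (nat_lit 573482) (nat_lit 13) (.e (nat_lit 65619) (nat_lit 10) (.e (nat_lit 344117) (nat_lit 21) (.e (nat_lit 516159) (nat_lit 10) (.e (nat_lit 434209) (nat_lit 18) (.e (nat_lit 5548) (nat_lit 306) (.e (nat_lit 2601) (nat_lit 163) (.e (nat_lit 163974) (nat_lit 30) .nil)))))))) (.g (nat_lit 1) (.e (nat_lit 413403) (nat_lit 0) .nil) .nil)))) 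
(.nd (nat_lit 9) 
(.lf (nat_lit 597473) (.g (nat_lit 2971) (.e (nat_lit 573482) (nat_lit 13) (.e (nat_lit 65604) (nat_lit 9) (.e (nat_lit 336013) (nat_lit 2) (.e (nat_lit 90170) (nat_lit 13) (.e (nat_lit 172068) (nat_lit 4) (.e (nat_lit 229679) (nat_lit 244) (.e (nat_lit 163850) (nat_lit 0) (.e (nat_lit 3304) (nat_lit 202) .nil)))))))) (.g (nat_lit 1) (.e (nat_lit 413136) (nat_lit 0) .nil) .nil))) 
(.lf (nat_lit 597985) (.g (nat_lit 3866) (.e (nat_lit 573484) (nat_lit 13) (.e (nat_lit 65610) (nat_lit 10) (.e (nat_lit 344117) (nat_lit 21) (.e (nat_lit 516151) (nat_lit 9) (.e (nat_lit 426038) (nat_lit 0) (.e (nat_lit 3403) (nat_lit 212) (.e (nat_lit 655374) (nat_lit 3) (.e (nat_lit 163978) (nat_lit 30) .nil)))))))) (.g (nat_lit 1) (.e (nat_lit 413837) (nat_lit 0) .nil) .nil)))))))) 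
(.nd (nat_lit 5) (.nd (nat_lit 6) (.nd (nat_lit 7) (.nd (nat_lit 8) (.nd (nat_lit 9) 
(.lf (nat_lit 597009) (.g (nat_lit 4454) (.e (nat_lit 573481) (nat_lit 13) (.e (nat_lit 65609) (nat_lit 10) (.e (nat_lit 344117) (nat_lit 21) (.e (nat_lit 516151) (nat_lit 9) (.e (nat_lit 426412) (nat_lit 15) (.e (nat_lit 2059) (nat_lit 142) (.e (nat_lit 704589) (nat_lit 3) (.e (nat_lit 163976) (nat_lit 30) .nil)))))))) (.g (nat_lit 1) (.e (nat_lit 412532) (nat_lit 0) .nil) .nil))) 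
(.lf (nat_lit 597521) (.g (nat_lit 5792) (.e (nat_lit 573482) (nat_lit 13) (.e (nat_lit 65604) (nat_lit 9) (.e (nat_lit 336028) (nat_lit 3) (.e (nat_lit 98367) (nat_lit 27) (.e (nat_lit 434209) (nat_lit 18) (.e (nat_lit 5548) (nat_lit 306) (.e (nat_lit 2610) (nat_lit 163) (.e (nat_lit 163979) (nat_lit 30) .nil)))))))) (.g (nat_lit 1) (.e (nat_lit 413190) (nat_lit 0) .nil) .nil)))) 
(.nd (nat_lit 9) 
(.lf (nat_lit 597265) (.g (nat_lit 3267) (.e (nat_lit 573481) (nat_lit 13) (.e (nat_lit 65619) (nat_lit 10) (.e (nat_lit 344117) (nat_lit 21) (.e (nat_lit 516181) (nat_lit 15) (.e (nat_lit 475197) (nat_lit 40) (.e (nat_lit 704589) (nat_lit 3) (.e (nat_lit 163976) (nat_lit 30) .nil))))))) (.g (nat_lit 1) (.e (nat_lit 412825) (nat_lit 0) .nil) .nil))) 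
(.lf (nat_lit 597777) (.g (nat_lit 4716) (.e (nat_lit 573482) (nat_lit 13) (.e (nat_lit 65619) (nat_lit 10) (.e (nat_lit 344117) (nat_lit 21) (.e (nat_lit 516185) (nat_lit 16) (.e (nat_lit 491547) (nat_lit 9) (.e (nat_lit 336306) (nat_lit 15) (.e (nat_lit 3308) (nat_lit 202) .nil))))))) (.g (nat_lit 1) (.e (nat_lit 413451) (nat_lit 0) .nil) .nil))))) (.nd (nat_lit 8) (.nd (nat_lit 9) 
(.lf (nat_lit 597137) (.g (nat_lit 3026) (.e (nat_lit 573481) (nat_lit 13) (.e (nat_lit 65619) (nat_lit 10) (.e (nat_lit 344117) (nat_lit 21) (.e (nat_lit 516145) (nat_lit 9) (.e (nat_lit 433920) (nat_lit 24) (.e (nat_lit 163584) (nat_lit 3) (.e (nat_lit 163975) (nat_lit 30) .nil))))))) (.g (nat_lit 1) (.e (nat_lit 412677) (nat_lit 0) .nil) .nil))) 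
(.lf (nat_lit 597649) (.g (nat_lit 4577) (.e (nat_lit 573482) (nat_lit 13) (.e (nat_lit 65619) (nat_lit 10) (.e (nat_lit 344117) (nat_lit 21) (.e (nat_lit 516151) (nat_lit 9) (.e (nat_lit 426038) (nat_lit 0) (.e (nat_lit 2458) (nat_lit 157) (.e (nat_lit 5548) (nat_lit 306) (.e (nat_lit 2610) (nat_lit 163) (.e (nat_lit 163979) (nat_lit 30) .nil))))))))) (.g (nat_lit 1) (.e (nat_lit 413323) (nat_lit 0) .nil) .nil)))) 
(.nd (nat_lit 9) 
(.lf (nat_lit 597393) (.g (nat_lit 2984) (.e (nat_lit 573482) (nat_lit 13) (.e (nat_lit 65604) (nat_lit 9) (.e (nat_lit 336013) (nat_lit 2) (.e (nat_lit 90170) (nat_lit 13) (.e (nat_lit 172034) (nat_lit 0) (.e (nat_lit 3396) (nat_lit 211) (.e (nat_lit 647180) (nat_lit 3) (.e (nat_lit 163979) (nat_lit 30) .nil)))))))) (.g (nat_lit 1) (.e (nat_lit 413056) (nat_lit 0) .nil) .nil))) 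
(.lf (nat_lit 597905) (.g (nat_lit 2179) (.e (nat_lit 573484) (nat_lit 13) (.e (nat_lit 65568) (nat_lit 2) (.e (nat_lit 90160) (nat_lit 11) (.e (nat_lit 24671) (nat_lit 15) .nil)))) (.g (nat_lit 0) (.e (nat_lit 413647) (nat_lit 0) .nil) .nil)))))) (.nd (nat_lit 7) (.nd (nat_lit 8) (.nd (nat_lit 9) 
(.lf (nat_lit 597073) (.g (nat_lit 2932) (.e (nat_lit 573481) (nat_lit 13) (.e (nat_lit 65619) (nat_lit 10) (.e (nat_lit 344117) (nat_lit 21) (.e (nat_lit 516144) (nat_lit 9) (.e (nat_lit 426420) (nat_lit 15) (.e (nat_lit 2057) (nat_lit 142) (.e (nat_lit 704589) (nat_lit 3) (.e (nat_lit 163975) (nat_lit 30) .nil)))))))) (.g (nat_lit 1) (.e (nat_lit 412613) (nat_lit 0) .nil) .nil))) 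
(.lf (nat_lit 597585) (.g (nat_lit 3172) (.e (nat_lit 573482) (nat_lit 13) (.e (nat_lit 65619) (nat_lit 10) (.e (nat_lit 344117) (nat_lit 21) (.e (nat_lit 516145) (nat_lit 9) (.e (nat_lit 433920) (nat_lit 1) (.e (nat_lit 164348) (nat_lit 240) (.e (nat_lit 2601) (nat_lit 163) (.e (nat_lit 163979) (nat_lit 30) .nil)))))))) (.g (nat_lit 1) (.e (nat_lit 413259) (nat_lit 0) .nil) .nil)))) 
(.nd (nat_lit 9) 
(.lf (nat_lit 597329) (.g (nat_lit 1719) (.e (nat_lit 573481) (nat_lit 13) (.e (nat_lit 65630) (nat_lit 14) (.e (nat_lit 401425) (nat_lit 2) (.e (nat_lit 196681) (nat_lit 17) .nil)))) (.g (nat_lit 0) (.e (nat_lit 412934) (nat_lit 0) .nil) .nil))) 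
(.lf (nat_lit 597841) (.g (nat_lit 2174) (.e (nat_lit 573482) (nat_lit 13) (.e (nat_lit 65619) (nat_lit 10) (.e (nat_lit 344129) (nat_lit 26) (.e (nat_lit 557087) (nat_lit 11) (.e (nat_lit 24625) (nat_lit 9) .nil))))) (.g (nat_lit 0) (.e (nat_lit 413538) (nat_lit 0) .nil) .nil))))) (.nd (nat_lit 8) (.nd (nat_lit 9) 
(.lf (nat_lit 597201) (.g (nat_lit 3694) (.e (nat_lit 573481) (nat_lit 13) (.e (nat_lit 65619) (nat_lit 10) (.e (nat_lit 344117) (nat_lit 21) (.e (nat_lit 516151) (nat_lit 9) (.e (nat_lit 426104) (nat_lit 1) (.e (nat_lit 164347) (nat_lit 240) (.e (nat_lit 2599) (nat_lit 163) (.e (nat_lit 163976) (nat_lit 30) .nil)))))))) (.g (nat_lit 1) (.e (nat_lit 412742) (nat_lit 0) .nil) .nil))) 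
(.lf (nat_lit 597713) (.g (nat_lit 3743) (.e (nat_lit 573482) (nat_lit 13) (.e (nat_lit 65619) (nat_lit 10) (.e (nat_lit 344117) (nat_lit 21) (.e (nat_lit 516151) (nat_lit 9) (.e (nat_lit 426380) (nat_lit 15) .nil))))) (.g (nat_lit 0) (.e (nat_lit 413387) (nat_lit 0) .nil) .nil)))) (.nd (nat_lit 9) 
(.lf (nat_lit 597457) (.g (nat_lit 3761) (.e (nat_lit 573482) (nat_lit 13) (.e (nat_lit 65604) (nat_lit 9) (.e (nat_lit 336013) (nat_lit 2) (.e (nat_lit 90170) (nat_lit 13) (.e (nat_lit 172060) (nat_lit 1) (.e (nat_lit 164345) (nat_lit 240) (.e (nat_lit 2611) (nat_lit 163) (.e (nat_lit 163977) (nat_lit 30) .nil)))))))) (.g (nat_lit 1) (.e (nat_lit 413120) (nat_lit 0) .nil) .nil))) 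
(.lf (nat_lit 597969) (.g (nat_lit 3954) (.e (nat_lit 573484) (nat_lit 13) (.e (nat_lit 65610) (nat_lit 10) (.e (nat_lit 344117) (nat_lit 21) (.e (nat_lit 516151) (nat_lit 9) (.e (nat_lit 426034) (nat_lit 0) (.e (nat_lit 2458) (nat_lit 157) (.e (nat_lit 5548) (nat_lit 306) (.e (nat_lit 2610) (nat_lit 163) (.e (nat_lit 163978) (nat_lit 30) .nil))))))))) (.g (nat_lit 1) (.e (nat_lit 413788) (nat_lit 0) .nil) .nil))))))) 
(.nd (nat_lit 6) (.nd (nat_lit 7) (.nd (nat_lit 8) (.nd (nat_lit 9) 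
(.lf (nat_lit 597041) (.g (nat_lit 3234) (.e (nat_lit 573481) (nat_lit 13) (.e (nat_lit 65619) (nat_lit 10) (.e (nat_lit 344117) (nat_lit 21) (.e (nat_lit 516102) (nat_lit 0) (.e (nat_lit 6989) (nat_lit 377) (.e (nat_lit 2779) (nat_lit 178) (.e (nat_lit 286765) (nat_lit 15) (.e (nat_lit 3298) (nat_lit 202) .nil)))))))) (.g (nat_lit 1) (.e (nat_lit 412570) (nat_lit 0) .nil) .nil))) 
(.lf (nat_lit 597553) (.g (nat_lit 2409) (.e (nat_lit 573482) (nat_lit 13) (.e (nat_lit 65619) (nat_lit 10) (.e (nat_lit 344117) (nat_lit 21) (.e (nat_lit 516102) (nat_lit 0) (.e (nat_lit 6989) (nat_lit 377) (.e (nat_lit 2779) (nat_lit 178) (.e (nat_lit 286765) (nat_lit 15) (.e (nat_lit 3296) (nat_lit 202) .nil)))))))) (.g (nat_lit 1) (.e (nat_lit 413224) (nat_lit 0) .nil) .nil)))) 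
(.nd (nat_lit 9) 
(.lf (nat_lit 597297) (.g (nat_lit 3064) (.e (nat_lit 573481) (nat_lit 13) (.e (nat_lit 65619) (nat_lit 10) (.e (nat_lit 344129) (nat_lit 26) (.e (nat_lit 557085) (nat_lit 11) (.e (nat_lit 24627) (nat_lit 9) (.e (nat_lit 336306) (nat_lit 15) (.e (nat_lit 3297) (nat_lit 202) .nil))))))) (.g (nat_lit 1) (.e (nat_lit 412880) (nat_lit 0) .nil) .nil))) 
(.lf (nat_lit 597809) (.g (nat_lit 1962) (.e (nat_lit 573482) (nat_lit 13) (.e (nat_lit 65619) (nat_lit 10) (.e (nat_lit 344129) (nat_lit 26) (.e (nat_lit 557074) (nat_lit 9) (.e (nat_lit 284) (nat_lit 21) .nil))))) (.g (nat_lit 0) (.e (nat_lit 413504) (nat_lit 0) .nil) .nil))))) (.nd (nat_lit 8) (.nd (nat_lit 9) 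
(.lf (nat_lit 597169) (.g (nat_lit 3637) (.e (nat_lit 573481) (nat_lit 13) (.e (nat_lit 65619) (nat_lit 10) (.e (nat_lit 344117) (nat_lit 21) (.e (nat_lit 516151) (nat_lit 9) (.e (nat_lit 426042) (nat_lit 0) (.e (nat_lit 2458) (nat_lit 157) (.e (nat_lit 5546) (nat_lit 306) (.e (nat_lit 2601) (nat_lit 163) (.e (nat_lit 163975) (nat_lit 30) .nil))))))))) (.g (nat_lit 1) (.e (nat_lit 412709) (nat_lit 0) .nil) .nil))) 
(.lf (nat_lit 597681) (.g (nat_lit 3473) (.e (nat_lit 573482) (nat_lit 13) (.e (nat_lit 65619) (nat_lit 10) (.e (nat_lit 344117) (nat_lit 21) (.e (nat_lit 516151) (nat_lit 9) (.e (nat_lit 426042) (nat_lit 0) (.e (nat_lit 3408) (nat_lit 212) (.e (nat_lit 655375) (nat_lit 3) (.e (nat_lit 163977) (nat_lit 30) .nil)))))))) (.g (nat_lit 1) (.e (nat_lit 413355) (nat_lit 0) .nil) .nil)))) 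
(.nd (nat_lit 9) 
(.lf (nat_lit 597425) (.g (nat_lit 3217) (.e (nat_lit 573482) (nat_lit 13) (.e (nat_lit 65604) (nat_lit 9) (.e (nat_lit 336013) (nat_lit 2) (.e (nat_lit 90170) (nat_lit 13) (.e (nat_lit 172046) (nat_lit 0) (.e (nat_lit 2478) (nat_lit 157) (.e (nat_lit 5547) (nat_lit 306) (.e (nat_lit 2610) (nat_lit 163) (.e (nat_lit 163979) (nat_lit 30) .nil))))))))) (.g (nat_lit 1) (.e (nat_lit 413088) (nat_lit 0) .nil) .nil))) 
(.lf (nat_lit 597937) (.g (nat_lit 2712) (.e (nat_lit 573484) (nat_lit 13) (.e (nat_lit 65610) (nat_lit 10) (.e (nat_lit 344117) (nat_lit 21) (.e (nat_lit 516108) (nat_lit 0) .nil)))) (.g (nat_lit 0) (.e (nat_lit 413720) (nat_lit 0) .nil) .nil)))))) (.nd (nat_lit 7) (.nd (nat_lit 8) (.nd (nat_lit 9) 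
(.lf (nat_lit 597105) (.g (nat_lit 3896) (.e (nat_lit 573481) (nat_lit 13) (.e (nat_lit 65619) (nat_lit 10) (.e (nat_lit 344117) (nat_lit 21) (.e (nat_lit 516145) (nat_lit 9) (.e (nat_lit 426376) (nat_lit 15) (.e (nat_lit 2057) (nat_lit 142) (.e (nat_lit 704589) (nat_lit 3) (.e (nat_lit 163975) (nat_lit 30) .nil)))))))) (.g (nat_lit 1) (.e (nat_lit 412645) (nat_lit 0) .nil) .nil))) 
(.lf (nat_lit 597617) (.g (nat_lit 2851) (.e (nat_lit 573482) (nat_lit 13) (.e (nat_lit 65619) (nat_lit 10) (.e (nat_lit 344117) (nat_lit 21) (.e (nat_lit 516145) (nat_lit 9) (.e (nat_lit 433920) (nat_lit 15) .nil))))) (.g (nat_lit 0) (.e (nat_lit 413291) (nat_lit 0) .nil) .nil)))) (.nd (nat_lit 9) 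
(.lf (nat_lit 597361) (.g (nat_lit 4090) (.e (nat_lit 573482) (nat_lit 13) (.e (nat_lit 65598) (nat_lit 9) (.e (nat_lit 336013) (nat_lit 2) (.e (nat_lit 90170) (nat_lit 13) (.e (nat_lit 172042) (nat_lit 0) .nil))))) (.g (nat_lit 0) (.e (nat_lit 413018) (nat_lit 0) .nil) .nil))) 
(.lf (nat_lit 597873) (.g (nat_lit 2025) (.e (nat_lit 573482) (nat_lit 13) (.e (nat_lit 65630) (nat_lit 14) (.e (nat_lit 401425) (nat_lit 2) (.e (nat_lit 196628) (nat_lit 9) (.e (nat_lit 1483) (nat_lit 108) .nil))))) (.g (nat_lit 0) (.e (nat_lit 413590) (nat_lit 0) .nil) .nil))))) (.nd (nat_lit 8) (.nd (nat_lit 9) 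
(.lf (nat_lit 597233) (.g (nat_lit 3101) (.e (nat_lit 573481) (nat_lit 13) (.e (nat_lit 65619) (nat_lit 10) (.e (nat_lit 344117) (nat_lit 21) (.e (nat_lit 516159) (nat_lit 10) (.e (nat_lit 434209) (nat_lit 18) (.e (nat_lit 5546) (nat_lit 306) (.e (nat_lit 2601) (nat_lit 163) (.e (nat_lit 163976) (nat_lit 30) .nil)))))))) (.g (nat_lit 1) (.e (nat_lit 412777) (nat_lit 0) .nil) .nil))) 
(.lf (nat_lit 597745) (.g (nat_lit 4882) (.e (nat_lit 573482) (nat_lit 13) (.e (nat_lit 65619) (nat_lit 10) (.e (nat_lit 344117) (nat_lit 21) (.e (nat_lit 516160) (nat_lit 10) (.e (nat_lit 434209) (nat_lit 18) (.e (nat_lit 5548) (nat_lit 306) (.e (nat_lit 2611) (nat_lit 163) (.e (nat_lit 163977) (nat_lit 30) .nil)))))))) (.g (nat_lit 1) (.e (nat_lit 413419) (nat_lit 0) .nil) .nil)))) 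
(.nd (nat_lit 9) 
(.lf (nat_lit 597489) (.g (nat_lit 2821) (.e (nat_lit 573482) (nat_lit 13) (.e (nat_lit 65604) (nat_lit 9) (.e (nat_lit 336013) (nat_lit 2) (.e (nat_lit 90170) (nat_lit 13) (.e (nat_lit 179968) (nat_lit 24) (.e (nat_lit 163584) (nat_lit 3) (.e (nat_lit 163977) (nat_lit 30) .nil))))))) (.g (nat_lit 1) (.e (nat_lit 413152) (nat_lit 0) .nil) .nil))) 
(.lf (nat_lit 598001) (.g (nat_lit 3107) (.e (nat_lit 573484) (nat_lit 13) (.e (nat_lit 65610) (nat_lit 10) (.e (nat_lit 344117) (nat_lit 21) (.e (nat_lit 516151) (nat_lit 9) (.e (nat_lit 426045) (nat_lit 0) (.e (nat_lit 3406) (nat_lit 212) (.e (nat_lit 655375) (nat_lit 3) (.e (nat_lit 163978) (nat_lit 30) .nil)))))))) (.g (nat_lit 1) (.e (nat_lit 413869) (nat_lit 0) .nil) .nil))))))))) 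
(.nd (nat_lit 4) (.nd (nat_lit 5) (.nd (nat_lit 6) (.nd (nat_lit 7) (.nd (nat_lit 8) 
(.nd (nat_lit 9) 
(.lf (nat_lit 597001) (.g (nat_lit 3387) (.e (nat_lit 573481) (nat_lit 13) (.e (nat_lit 65604) (nat_lit 9) (.e (nat_lit 336028) (nat_lit 3) (.e (nat_lit 98386) (nat_lit 32) (.e (nat_lit 475199) (nat_lit 40) (.e (nat_lit 704590) (nat_lit 3) (.e (nat_lit 163975) (nat_lit 30) .nil))))))) (.g (nat_lit 1) (.e (nat_lit 412524) (nat_lit 0) .nil) .nil))) 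
(.lf (nat_lit 597513) (.g (nat_lit 3004) (.e (nat_lit 573482) (nat_lit 13) (.e (nat_lit 65604) (nat_lit 9) (.e (nat_lit 336028) (nat_lit 3) (.e (nat_lit 98366) (nat_lit 27) (.e (nat_lit 434209) (nat_lit 18) (.e (nat_lit 5548) (nat_lit 306) (.e (nat_lit 2600) (nat_lit 163) (.e (nat_lit 163977) (nat_lit 30) .nil)))))))) (.g (nat_lit 1) (.e (nat_lit 413182) (nat_lit 0) .nil) .nil)))) 
(.nd (nat_lit 9) 
(.lf (nat_lit 597257) (.g (nat_lit 4798) (.e (nat_lit 573481) (nat_lit 13) (.e (nat_lit 65619) (nat_lit 10) (.e (nat_lit 344117) (nat_lit 21) (.e (nat_lit 516179) (nat_lit 15) (.e (nat_lit 475211) (nat_lit 41) .nil))))) (.g (nat_lit 0) (.e (nat_lit 412817) (nat_lit 0) .nil) .nil))) 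
(.lf (nat_lit 597769) (.g (nat_lit 3616) (.e (nat_lit 573482) (nat_lit 13) (.e (nat_lit 65619) (nat_lit 10) (.e (nat_lit 344117) (nat_lit 21) (.e (nat_lit 516180) (nat_lit 15) (.e (nat_lit 475210) (nat_lit 41) (.e (nat_lit 712722) (nat_lit 15) (.e (nat_lit 3302) (nat_lit 202) .nil))))))) (.g (nat_lit 1) (.e (nat_lit 413443) (nat_lit 0) .nil) .nil))))) (.nd (nat_lit 8) (.nd (nat_lit 9) 
(.lf (nat_lit 597129) (.g (nat_lit 3243) (.e (nat_lit 573481) (nat_lit 13) (.e (nat_lit 65619) (nat_lit 10) (.e (nat_lit 344117) (nat_lit 21) (.e (nat_lit 516145) (nat_lit 9) (.e (nat_lit 426402) (nat_lit 15) .nil))))) (.g (nat_lit 0) (.e (nat_lit 412669) (nat_lit 0) .nil) .nil))) 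
(.lf (nat_lit 597641) (.g (nat_lit 3918) (.e (nat_lit 573482) (nat_lit 13) (.e (nat_lit 65619) (nat_lit 10) (.e (nat_lit 344117) (nat_lit 21) (.e (nat_lit 516151) (nat_lit 9) (.e (nat_lit 426038) (nat_lit 0) .nil))))) (.g (nat_lit 0) (.e (nat_lit 413315) (nat_lit 0) .nil) .nil)))) (.nd (nat_lit 9) 
(.lf (nat_lit 597385) (.g (nat_lit 2418) (.e (nat_lit 573482) (nat_lit 13) (.e (nat_lit 65604) (nat_lit 9) (.e (nat_lit 336013) (nat_lit 2) (.e (nat_lit 90165) (nat_lit 12) (.e (nat_lit 164209) (nat_lit 176) (.e (nat_lit 2789) (nat_lit 179) (.e (nat_lit 294966) (nat_lit 15) (.e (nat_lit 3308) (nat_lit 202) .nil)))))))) (.g (nat_lit 1) (.e (nat_lit 413048) (nat_lit 0) .nil) .nil))) 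
(.lf (nat_lit 597897) (.g (nat_lit 2584) (.e (nat_lit 573483) (nat_lit 13) (.e (nat_lit 65630) (nat_lit 14) (.e (nat_lit 401425) (nat_lit 2) (.e (nat_lit 196672) (nat_lit 15) (.e (nat_lit 81924) (nat_lit 0) .nil))))) (.g (nat_lit 0) (.e (nat_lit 413633) (nat_lit 0) .nil) .nil)))))) (.nd (nat_lit 7) (.nd (nat_lit 8) (.nd (nat_lit 9) 
(.lf (nat_lit 597065) (.g (nat_lit 2597) (.e (nat_lit 573481) (nat_lit 13) (.e (nat_lit 65619) (nat_lit 10) (.e (nat_lit 344117) (nat_lit 21) (.e (nat_lit 516144) (nat_lit 9) (.e (nat_lit 426382) (nat_lit 15) (.e (nat_lit 2058) (nat_lit 142) (.e (nat_lit 704589) (nat_lit 3) (.e (nat_lit 163976) (nat_lit 30) .nil)))))))) (.g (nat_lit 1) (.e (nat_lit 412605) (nat_lit 0) .nil) .nil))) 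
(.lf (nat_lit 597577) (.g (nat_lit 3485) (.e (nat_lit 573482) (nat_lit 13) (.e (nat_lit 65619) (nat_lit 10) (.e (nat_lit 344117) (nat_lit 21) (.e (nat_lit 516145) (nat_lit 9) (.e (nat_lit 426091) (nat_lit 0) .nil))))) (.g (nat_lit 0) (.e (nat_lit 413251) (nat_lit 0) .nil) .nil)))) (.nd (nat_lit 9) 
(.lf (nat_lit 597321) (.g (nat_lit 894) (.e (nat_lit 573481) (nat_lit 13) (.e (nat_lit 65628) (nat_lit 14) (.e (nat_lit 401428) (nat_lit 3) (.e (nat_lit 204877) (nat_lit 31) .nil)))) (.g (nat_lit 0) (.e (nat_lit 412922) (nat_lit 0) .nil) .nil))) 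
(.lf (nat_lit 597833) (.g (nat_lit 3368) (.e (nat_lit 573482) (nat_lit 13) (.e (nat_lit 65619) (nat_lit 10) (.e (nat_lit 344129) (nat_lit 26) (.e (nat_lit 557087) (nat_lit 11) (.e (nat_lit 24599) (nat_lit 1) (.e (nat_lit 57773) (nat_lit 227) (.e (nat_lit 2607) (nat_lit 163) (.e (nat_lit 163979) (nat_lit 30) .nil)))))))) (.g (nat_lit 1) (.e (nat_lit 413530) (nat_lit 0) .nil) .nil))))) 
(.nd (nat_lit 8) (.nd (nat_lit 9) 
(.lf (nat_lit 597193) (.g (nat_lit 2959) (.e (nat_lit 573481) (nat_lit 13) (.e (nat_lit 65619) (nat_lit 10) (.e (nat_lit 344117) (nat_lit 21) (.e (nat_lit 516151) (nat_lit 9) (.e (nat_lit 426097) (nat_lit 1) (.e (nat_lit 164346) (nat_lit 240) (.e (nat_lit 2599) (nat_lit 163) (.e (nat_lit 163975) (nat_lit 30) .nil)))))))) (.g (nat_lit 1) (.e (nat_lit 412733) (nat_lit 0) .nil) .nil))) 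
(.lf (nat_lit 597705) (.g (nat_lit 3695) (.e (nat_lit 573482) (nat_lit 13) (.e (nat_lit 65619) (nat_lit 10) (.e (nat_lit 344117) (nat_lit 21) (.e (nat_lit 516151) (nat_lit 9) (.e (nat_lit 426104) (nat_lit 1) (.e (nat_lit 164348) (nat_lit 240) (.e (nat_lit 2601) (nat_lit 163) (.e (nat_lit 163979) (nat_lit 30) .nil)))))))) (.g (nat_lit 1) (.e (nat_lit 413379) (nat_lit 0) .nil) .nil)))) 
(.nd (nat_lit 9) 
(.lf (nat_lit 597449) (.g (nat_lit 2224) (.e (nat_lit 573482) (nat_lit 13) (.e (nat_lit 65604) (nat_lit 9) (.e (nat_lit 336013) (nat_lit 2) (.e (nat_lit 90170) (nat_lit 13) (.e (nat_lit 172059) (nat_lit 1) (.e (nat_lit 164347) (nat_lit 240) (.e (nat_lit 2600) (nat_lit 163) (.e (nat_lit 163977) (nat_lit 30) .nil)))))))) (.g (nat_lit 1) (.e (nat_lit 413112) (nat_lit 0) .nil) .nil))) 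
(.lf (nat_lit 597961) (.g (nat_lit 2559) (.e (nat_lit 573484) (nat_lit 13) (.e (nat_lit 65610) (nat_lit 10) (.e (nat_lit 344117) (nat_lit 21) (.e (nat_lit 516146) (nat_lit 9) (.e (nat_lit 426444) (nat_lit 19) .nil))))) (.g (nat_lit 0) (.e (nat_lit 413772) (nat_lit 0) .nil) .nil))))))) (.nd (nat_lit 6) (.nd (nat_lit 7) (.nd (nat_lit 8) (.nd (nat_lit 9) 
(.lf (nat_lit 597033) (.g (nat_lit 2793) (.e (nat_lit 573481) (nat_lit 13) (.e (nat_lit 65619) (nat_lit 10) (.e (nat_lit 344116) (nat_lit 21) (.e (nat_lit 516179) (nat_lit 15) (.e (nat_lit 475199) (nat_lit 40) (.e (nat_lit 704589) (nat_lit 3) (.e (nat_lit 163976) (nat_lit 30) .nil))))))) (.g (nat_lit 1) (.e (nat_lit 412558) (nat_lit 0) .nil) .nil))) 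
(.lf (nat_lit 597545) (.g (nat_lit 1704) (.e (nat_lit 573482) (nat_lit 13) (.e (nat_lit 65619) (nat_lit 10) (.e (nat_lit 344117) (nat_lit 21) (.e (nat_lit 516097) (nat_lit 0) (.e (nat_lit 7587) (nat_lit 406) (.e (nat_lit 73472) (nat_lit 15) (.e (nat_lit 3296) (nat_lit 202) .nil))))))) (.g (nat_lit 1) (.e (nat_lit 413216) (nat_lit 0) .nil) .nil)))) (.nd (nat_lit 9) 
(.lf (nat_lit 597289) (.g (nat_lit 1838) (.e (nat_lit 573481) (nat_lit 13) (.e (nat_lit 65619) (nat_lit 10) (.e (nat_lit 344129) (nat_lit 26) (.e (nat_lit 557065) (nat_lit 9) (.e (nat_lit 312) (nat_lit 23) .nil))))) (.g (nat_lit 0) (.e (nat_lit 412854) (nat_lit 0) .nil) .nil))) 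
(.lf (nat_lit 597801) (.g (nat_lit 2692) (.e (nat_lit 573482) (nat_lit 13) (.e (nat_lit 65619) (nat_lit 10) (.e (nat_lit 344129) (nat_lit 26) (.e (nat_lit 557067) (nat_lit 9) (.e (nat_lit 7936) (nat_lit 23) .nil))))) (.g (nat_lit 0) (.e (nat_lit 413495) (nat_lit 0) .nil) .nil))))) (.nd (nat_lit 8) (.nd (nat_lit 9) 
(.lf (nat_lit 597161) (.g (nat_lit 4145) (.e (nat_lit 573481) (nat_lit 13) (.e (nat_lit 65619) (nat_lit 10) (.e (nat_lit 344117) (nat_lit 21) (.e (nat_lit 516151) (nat_lit 9) (.e (nat_lit 426038) (nat_lit 0) (.e (nat_lit 2458) (nat_lit 157) (.e (nat_lit 5546) (nat_lit 306) (.e (nat_lit 2600) (nat_lit 163) (.e (nat_lit 163975) (nat_lit 30) .nil))))))))) (.g (nat_lit 1) (.e (nat_lit 412701) (nat_lit 0) .nil) .nil))) 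
(.lf (nat_lit 597673) (.g (nat_lit 3506) (.e (nat_lit 573482) (nat_lit 13) (.e (nat_lit 65619) (nat_lit 10) (.e (nat_lit 344117) (nat_lit 21) (.e (nat_lit 516151) (nat_lit 9) (.e (nat_lit 426042) (nat_lit 0) (.e (nat_lit 2458) (nat_lit 157) (.e (nat_lit 5548) (nat_lit 306) (.e (nat_lit 2611) (nat_lit 163) (.e (nat_lit 163977) (nat_lit 30) .nil))))))))) (.g (nat_lit 1) (.e (nat_lit 413347) (nat_lit 0) .nil) .nil)))) 
(.nd (nat_lit 9) 
(.lf (nat_lit 597417) (.g (nat_lit 3453) (.e (nat_lit 573482) (nat_lit 13) (.e (nat_lit 65604) (nat_lit 9) (.e (nat_lit 336013) (nat_lit 2) (.e (nat_lit 90170) (nat_lit 13) (.e (nat_lit 172043) (nat_lit 0) (.e (nat_lit 3409) (nat_lit 212) (.e (nat_lit 655375) (nat_lit 3) (.e (nat_lit 163978) (nat_lit 30) .nil)))))))) (.g (nat_lit 1) (.e (nat_lit 413080) (nat_lit 0) .nil) .nil))) 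
(.lf (nat_lit 597929) (.g (nat_lit 5254) (.e (nat_lit 573484) (nat_lit 13) (.e (nat_lit 65610) (nat_lit 10) (.e (nat_lit 344117) (nat_lit 21) (.e (nat_lit 516102) (nat_lit 0) (.e (nat_lit 6989) (nat_lit 377) (.e (nat_lit 2779) (nat_lit 178) (.e (nat_lit 286765) (nat_lit 15) (.e (nat_lit 3307) (nat_lit 202) .nil)))))))) (.g (nat_lit 1) (.e (nat_lit 413696) (nat_lit 0) .nil) .nil)))))) 
(.nd (nat_lit 7) (.nd (nat_lit 8) (.nd (nat_lit 9) 
(.lf (nat_lit 597097) (.g (nat_lit 2851) (.e (nat_lit 573481) (nat_lit 13) (.e (nat_lit 65619) (nat_lit 10) (.e (nat_lit 344117) (nat_lit 21) (.e (nat_lit 516145) (nat_lit 9) (.e (nat_lit 426374) (nat_lit 15) (.e (nat_lit 2057) (nat_lit 142) (.e (nat_lit 704589) (nat_lit 3) (.e (nat_lit 163976) (nat_lit 30) .nil)))))))) (.g (nat_lit 1) (.e (nat_lit 412637) (nat_lit 0) .nil) .nil))) 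
(.lf (nat_lit 597609) (.g (nat_lit 3022) (.e (nat_lit 573482) (nat_lit 13) (.e (nat_lit 65619) (nat_lit 10) (.e (nat_lit 344117) (nat_lit 21) (.e (nat_lit 516145) (nat_lit 9) (.e (nat_lit 426415) (nat_lit 15) .nil))))) (.g (nat_lit 0) (.e (nat_lit 413283) (nat_lit 0) .nil) .nil)))) (.nd (nat_lit 9) 
(.lf (nat_lit 597353) (.g (nat_lit 3347) (.e (nat_lit 573482) (nat_lit 13) (.e (nat_lit 65589) (nat_lit 9) (.e (nat_lit 336013) (nat_lit 2) (.e (nat_lit 90134) (nat_lit 9) (.e (nat_lit 3097) (nat_lit 192) .nil))))) (.g (nat_lit 0) (.e (nat_lit 413007) (nat_lit 0) .nil) .nil))) 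
(.lf (nat_lit 597865) (.g (nat_lit 2903) (.e (nat_lit 573482) (nat_lit 13) (.e (nat_lit 65628) (nat_lit 14) (.e (nat_lit 401425) (nat_lit 2) (.e (nat_lit 196681) (nat_lit 17) (.e (nat_lit 131108) (nat_lit 9) .nil))))) (.g (nat_lit 0) (.e (nat_lit 413581) (nat_lit 0) .nil) .nil))))) (.nd (nat_lit 8) (.nd (nat_lit 9) 
(.lf (nat_lit 597225) (.g (nat_lit 4942) (.e (nat_lit 573481) (nat_lit 13) (.e (nat_lit 65619) (nat_lit 10) (.e (nat_lit 344117) (nat_lit 21) (.e (nat_lit 516151) (nat_lit 9) (.e (nat_lit 426412) (nat_lit 15) (.e (nat_lit 2058) (nat_lit 142) (.e (nat_lit 704589) (nat_lit 3) (.e (nat_lit 163976) (nat_lit 30) .nil)))))))) (.g (nat_lit 1) (.e (nat_lit 412768) (nat_lit 0) .nil) .nil))) 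
(.lf (nat_lit 597737) (.g (nat_lit 3383) (.e (nat_lit 573482) (nat_lit 13) (.e (nat_lit 65619) (nat_lit 10) (.e (nat_lit 344117) (nat_lit 21) (.e (nat_lit 516160) (nat_lit 10) (.e (nat_lit 434202) (nat_lit 18) (.e (nat_lit 5537) (nat_lit 306) (.e (nat_lit 2598) (nat_lit 163) (.e (nat_lit 163979) (nat_lit 30) .nil)))))))) (.g (nat_lit 1) (.e (nat_lit 413411) (nat_lit 0) .nil) .nil)))) 
(.nd (nat_lit 9) 
(.lf (nat_lit 597481) (.g (nat_lit 2712) (.e (nat_lit 573482) (nat_lit 13) (.e (nat_lit 65604) (nat_lit 9) (.e (nat_lit 336013) (nat_lit 2) (.e (nat_lit 90170) (nat_lit 13) (.e (nat_lit 172070) (nat_lit 4) (.e (nat_lit 229680) (nat_lit 244) (.e (nat_lit 163850) (nat_lit 0) (.e (nat_lit 3304) (nat_lit 202) .nil)))))))) (.g (nat_lit 1) (.e (nat_lit 413144) (nat_lit 0) .nil) .nil))) 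
(.lf (nat_lit 597993) (.g (nat_lit 3318) (.e (nat_lit 573484) (nat_lit 13) (.e (nat_lit 65610) (nat_lit 10) (.e (nat_lit 344117) (nat_lit 21) (.e (nat_lit 516151) (nat_lit 9) (.e (nat_lit 426040) (nat_lit 0) (.e (nat_lit 3403) (nat_lit 212) (.e (nat_lit 655374) (nat_lit 3) (.e (nat_lit 163978) (nat_lit 30) .nil)))))))) (.g (nat_lit 1) (.e (nat_lit 413856) (nat_lit 0) .nil) .nil)))))))) 
(.nd (nat_lit 5) (.nd (nat_lit 6) (.nd (nat_lit 7) (.nd (nat_lit 8) (.nd (nat_lit 9) 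
(.lf (nat_lit 597017) (.g (nat_lit 3117) (.e (nat_lit 573481) (nat_lit 13) (.e (nat_lit 65610) (nat_lit 10) (.e (nat_lit 344117) (nat_lit 21) (.e (nat_lit 516151) (nat_lit 9) (.e (nat_lit 426396) (nat_lit 15) .nil))))) (.g (nat_lit 0) (.e (nat_lit 412540) (nat_lit 0) .nil) .nil))) 
(.lf (nat_lit 597529) (.g (nat_lit 84) (.e (nat_lit 573482) (nat_lit 13) (.e (nat_lit 65609) (nat_lit 10) (.e (nat_lit 344126) (nat_lit 25) .nil))) (.g (nat_lit 0) (.e (nat_lit 413199) (nat_lit 0) .nil) .nil)))) (.nd (nat_lit 9) 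
(.lf (nat_lit 597273) (.g (nat_lit 3093) (.e (nat_lit 573481) (nat_lit 13) (.e (nat_lit 65619) (nat_lit 10) (.e (nat_lit 344117) (nat_lit 21) (.e (nat_lit 516183) (nat_lit 16) (.e (nat_lit 491548) (nat_lit 9) (.e (nat_lit 336306) (nat_lit 15) (.e (nat_lit 3298) (nat_lit 202) .nil))))))) (.g (nat_lit 1) (.e (nat_lit 412833) (nat_lit 0) .nil) .nil))) 
(.lf (nat_lit 597785) (.g (nat_lit 2154) (.e (nat_lit 573482) (nat_lit 13) (.e (nat_lit 65619) (nat_lit 10) (.e (nat_lit 344129) (nat_lit 26) (.e (nat_lit 557065) (nat_lit 9) (.e (nat_lit 272) (nat_lit 21) .nil))))) (.g (nat_lit 0) (.e (nat_lit 413469) (nat_lit 0) .nil) .nil))))) (.nd (nat_lit 8) (.nd (nat_lit 9) 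
(.lf (nat_lit 597145) (.g (nat_lit 2311) (.e (nat_lit 573481) (nat_lit 13) (.e (nat_lit 65619) (nat_lit 10) (.e (nat_lit 344117) (nat_lit 21) (.e (nat_lit 516147) (nat_lit 9) (.e (nat_lit 426379) (nat_lit 15) (.e (nat_lit 2058) (nat_lit 142) (.e (nat_lit 704589) (nat_lit 3) (.e (nat_lit 163976) (nat_lit 30) .nil)))))))) (.g (nat_lit 1) (.e (nat_lit 412685) (nat_lit 0) .nil) .nil))) 
(.lf (nat_lit 597657) (.g (nat_lit 3777) (.e (nat_lit 573482) (nat_lit 13) (.e (nat_lit 65619) (nat_lit 10) (.e (nat_lit 344117) (nat_lit 21) (.e (nat_lit 516151) (nat_lit 9) (.e (nat_lit 426039) (nat_lit 0) (.e (nat_lit 2458) (nat_lit 157) (.e (nat_lit 5547) (nat_lit 306) (.e (nat_lit 2599) (nat_lit 163) (.e (nat_lit 163979) (nat_lit 30) .nil))))))))) (.g (nat_lit 1) (.e (nat_lit 413331) (nat_lit 0) .nil) .nil)))) 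
(.nd (nat_lit 9) 
(.lf (nat_lit 597401) (.g (nat_lit 3281) (.e (nat_lit 573482) (nat_lit 13) (.e (nat_lit 65604) (nat_lit 9) (.e (nat_lit 336013) (nat_lit 2) (.e (nat_lit 90170) (nat_lit 13) (.e (nat_lit 172038) (nat_lit 0) (.e (nat_lit 3397) (nat_lit 211) (.e (nat_lit 647181) (nat_lit 3) (.e (nat_lit 163979) (nat_lit 30) .nil)))))))) (.g (nat_lit 1) (.e (nat_lit 413064) (nat_lit 0) .nil) .nil))) 
(.lf (nat_lit 597913) (.g (nat_lit 2833) (.e (nat_lit 573484) (nat_lit 13) (.e (nat_lit 65610) (nat_lit 10) (.e (nat_lit 344114) (nat_lit 20) (.e (nat_lit 507921) (nat_lit 6) (.e (nat_lit 286748) (nat_lit 9) (.e (nat_lit 336295) (nat_lit 15) (.e (nat_lit 3305) (nat_lit 202) .nil))))))) (.g (nat_lit 1) (.e (nat_lit 413675) (nat_lit 0) .nil) .nil)))))) 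
(.nd (nat_lit 7) (.nd (nat_lit 8) (.nd (nat_lit 9) 
(.lf (nat_lit 597081) (.g (nat_lit 2954) (.e (nat_lit 573481) (nat_lit 13) (.e (nat_lit 65619) (nat_lit 10) (.e (nat_lit 344117) (nat_lit 21) (.e (nat_lit 516145) (nat_lit 9) (.e (nat_lit 433920) (nat_lit 1) (.e (nat_lit 164348) (nat_lit 240) (.e (nat_lit 2601) (nat_lit 163) (.e (nat_lit 163976) (nat_lit 30) .nil)))))))) (.g (nat_lit 1) (.e (nat_lit 412621) (nat_lit 0) .nil) .nil))) 
(.lf (nat_lit 597593) (.g (nat_lit 3419) (.e (nat_lit 573482) (nat_lit 13) (.e (nat_lit 65619) (nat_lit 10) (.e (nat_lit 344117) (nat_lit 21) (.e (nat_lit 516145) (nat_lit 9) (.e (nat_lit 426352) (nat_lit 15) .nil))))) (.g (nat_lit 0) (.e (nat_lit 413267) (nat_lit 0) .nil) .nil)))) (.nd (nat_lit 9) 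
(.lf (nat_lit 597337) (.g (nat_lit 471) (.e (nat_lit 573481) (nat_lit 13) (.e (nat_lit 65630) (nat_lit 14) (.e (nat_lit 401428) (nat_lit 3) .nil))) (.g (nat_lit 0) (.e (nat_lit 412942) (nat_lit 0) .nil) .nil))) 
(.lf (nat_lit 597849) (.g (nat_lit 2518) (.e (nat_lit 573482) (nat_lit 13) (.e (nat_lit 65619) (nat_lit 10) (.e (nat_lit 344129) (nat_lit 26) (.e (nat_lit 557087) (nat_lit 11) (.e (nat_lit 24630) (nat_lit 9) (.e (nat_lit 336306) (nat_lit 15) (.e (nat_lit 3298) (nat_lit 202) .nil))))))) (.g (nat_lit 1) (.e (nat_lit 413546) (nat_lit 0) .nil) .nil))))) (.nd (nat_lit 8) (.nd (nat_lit 9) 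
(.lf (nat_lit 597209) (.g (nat_lit 3309) (.e (nat_lit 573481) (nat_lit 13) (.e (nat_lit 65619) (nat_lit 10) (.e (nat_lit 344117) (nat_lit 21) (.e (nat_lit 516151) (nat_lit 9) (.e (nat_lit 426142) (nat_lit 4) (.e (nat_lit 229666) (nat_lit 240) (.e (nat_lit 2602) (nat_lit 163) (.e (nat_lit 163976) (nat_lit 30) .nil)))))))) (.g (nat_lit 1) (.e (nat_lit 412752) (nat_lit 0) .nil) .nil))) 
(.lf (nat_lit 597721) (.g (nat_lit 2878) (.e (nat_lit 573482) (nat_lit 13) (.e (nat_lit 65619) (nat_lit 10) (.e (nat_lit 344117) (nat_lit 21) (.e (nat_lit 516152) (nat_lit 9) (.e (nat_lit 426109) (nat_lit 1) (.e (nat_lit 164345) (nat_lit 240) (.e (nat_lit 2611) (nat_lit 163) (.e (nat_lit 163977) (nat_lit 30) .nil)))))))) (.g (nat_lit 1) (.e (nat_lit 413395) (nat_lit 0) .nil) .nil)))) 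
(.nd (nat_lit 9) 
(.lf (nat_lit 597465) (.g (nat_lit 2580) (.e (nat_lit 573482) (nat_lit 13) (.e (nat_lit 65604) (nat_lit 9) (.e (nat_lit 336013) (nat_lit 2) (.e (nat_lit 90170) (nat_lit 13) (.e (nat_lit 172061) (nat_lit 1) (.e (nat_lit 164346) (nat_lit 240) (.e (nat_lit 2601) (nat_lit 163) (.e (nat_lit 163979) (nat_lit 30) .nil)))))))) (.g (nat_lit 1) (.e (nat_lit 413128) (nat_lit 0) .nil) .nil))) 
(.lf (nat_lit 597977) (.g (nat_lit 3835) (.e (nat_lit 573484) (nat_lit 13) (.e (nat_lit 65610) (nat_lit 10) (.e (nat_lit 344117) (nat_lit 21) (.e (nat_lit 516151) (nat_lit 9) (.e (nat_lit 426037) (nat_lit 0) (.e (nat_lit 2478) (nat_lit 157) (.e (nat_lit 5548) (nat_lit 306) (.e (nat_lit 2610) (nat_lit 163) (.e (nat_lit 163978) (nat_lit 30) .nil))))))))) (.g (nat_lit 1) (.e (nat_lit 413810) (nat_lit 0) .nil) .nil))))))) 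
(.nd (nat_lit 6) (.nd (nat_lit 7) (.nd (nat_lit 8) (.nd (nat_lit 9) 
(.lf (nat_lit 597049) (.g (nat_lit 4621) (.e (nat_lit 573481) (nat_lit 13) (.e (nat_lit 65619) (nat_lit 10) (.e (nat_lit 344117) (nat_lit 21) (.e (nat_lit 516106) (nat_lit 0) (.e (nat_lit 6986) (nat_lit 377) (.e (nat_lit 2782) (nat_lit 178) (.e (nat_lit 286765) (nat_lit 15) (.e (nat_lit 3298) (nat_lit 202) .nil)))))))) (.g (nat_lit 1) (.e (nat_lit 412579) (nat_lit 0) .nil) .nil))) 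
(.lf (nat_lit 597561) (.g (nat_lit 3208) (.e (nat_lit 573482) (nat_lit 13) (.e (nat_lit 65619) (nat_lit 10) (.e (nat_lit 344117) (nat_lit 21) (.e (nat_lit 516106) (nat_lit 0) (.e (nat_lit 6986) (nat_lit 377) (.e (nat_lit 2782) (nat_lit 178) (.e (nat_lit 286765) (nat_lit 15) (.e (nat_lit 3298) (nat_lit 202) .nil)))))))) (.g (nat_lit 1) (.e (nat_lit 413232) (nat_lit 0) .nil) .nil)))) 
(.nd (nat_lit 9) 
(.lf (nat_lit 597305) (.g (nat_lit 3351) (.e (nat_lit 573481) (nat_lit 13) (.e (nat_lit 65619) (nat_lit 10) (.e (nat_lit 344129) (nat_lit 26) (.e (nat_lit 557087) (nat_lit 11) (.e (nat_lit 24629) (nat_lit 9) (.e (nat_lit 336306) (nat_lit 15) (.e (nat_lit 3297) (nat_lit 202) .nil))))))) (.g (nat_lit 1) (.e (nat_lit 412889) (nat_lit 0) .nil) .nil))) 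
(.lf (nat_lit 597817) (.g (nat_lit 818) (.e (nat_lit 573482) (nat_lit 13) (.e (nat_lit 65619) (nat_lit 10) (.e (nat_lit 344129) (nat_lit 26) (.e (nat_lit 557087) (nat_lit 11) .nil)))) (.g (nat_lit 0) (.e (nat_lit 413512) (nat_lit 0) .nil) .nil))))) (.nd (nat_lit 8) (.nd (nat_lit 9) 
(.lf (nat_lit 597177) (.g (nat_lit 3243) (.e (nat_lit 573481) (nat_lit 13) (.e (nat_lit 65619) (nat_lit 10) (.e (nat_lit 344117) (nat_lit 21) (.e (nat_lit 516151) (nat_lit 9) (.e (nat_lit 426042) (nat_lit 0) (.e (nat_lit 3406) (nat_lit 212) (.e (nat_lit 655373) (nat_lit 3) (.e (nat_lit 163976) (nat_lit 30) .nil)))))))) (.g (nat_lit 1) (.e (nat_lit 412717) (nat_lit 0) .nil) .nil))) 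
(.lf (nat_lit 597689) (.g (nat_lit 3938) (.e (nat_lit 573482) (nat_lit 13) (.e (nat_lit 65619) (nat_lit 10) (.e (nat_lit 344117) (nat_lit 21) (.e (nat_lit 516151) (nat_lit 9) (.e (nat_lit 426097) (nat_lit 1) (.e (nat_lit 164345) (nat_lit 240) (.e (nat_lit 2600) (nat_lit 163) (.e (nat_lit 163977) (nat_lit 30) .nil)))))))) (.g (nat_lit 1) (.e (nat_lit 413363) (nat_lit 0) .nil) .nil)))) 
(.nd (nat_lit 9) 
(.lf (nat_lit 597433) (.g (nat_lit 2654) (.e (nat_lit 573482) (nat_lit 13) (.e (nat_lit 65604) (nat_lit 9) (.e (nat_lit 336013) (nat_lit 2) (.e (nat_lit 90170) (nat_lit 13) (.e (nat_lit 172049) (nat_lit 0) (.e (nat_lit 2458) (nat_lit 157) (.e (nat_lit 5548) (nat_lit 306) (.e (nat_lit 2599) (nat_lit 163) (.e (nat_lit 163979) (nat_lit 30) .nil))))))))) (.g (nat_lit 1) (.e (nat_lit 413096) (nat_lit 0) .nil) .nil))) 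
(.lf (nat_lit 597945) (.g (nat_lit 2269) (.e (nat_lit 573484) (nat_lit 13) (.e (nat_lit 65610) (nat_lit 10) (.e (nat_lit 344117) (nat_lit 21) (.e (nat_lit 516133) (nat_lit 4) .nil)))) (.g (nat_lit 0) (.e (nat_lit 413730) (nat_lit 0) .nil) .nil)))))) (.nd (nat_lit 7) (.nd (nat_lit 8) (.nd (nat_lit 9) 
(.lf (nat_lit 597113) (.g (nat_lit 3151) (.e (nat_lit 573481) (nat_lit 13) (.e (nat_lit 65619) (nat_lit 10) (.e (nat_lit 344117) (nat_lit 21) (.e (nat_lit 516145) (nat_lit 9) (.e (nat_lit 426393) (nat_lit 15) (.e (nat_lit 2057) (nat_lit 142) (.e (nat_lit 704589) (nat_lit 3) (.e (nat_lit 163975) (nat_lit 30) .nil)))))))) (.g (nat_lit 1) (.e (nat_lit 412653) (nat_lit 0) .nil) .nil))) 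
(.lf (nat_lit 597625) (.g (nat_lit 2162) (.e (nat_lit 573482) (nat_lit 13) (.e (nat_lit 65619) (nat_lit 10) (.e (nat_lit 344117) (nat_lit 21) (.e (nat_lit 516151) (nat_lit 9) (.e (nat_lit 426003) (nat_lit 0) .nil))))) (.g (nat_lit 0) (.e (nat_lit 413299) (nat_lit 0) .nil) .nil)))) (.nd (nat_lit 9) 
(.lf (nat_lit 597369) (.g (nat_lit 3822) (.e (nat_lit 573482) (nat_lit 13) (.e (nat_lit 65604) (nat_lit 9) (.e (nat_lit 336013) (nat_lit 2) (.e (nat_lit 90127) (nat_lit 9) .nil)))) (.g (nat_lit 0) (.e (nat_lit 413026) (nat_lit 0) .nil) .nil))) 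
(.lf (nat_lit 597881) (.g (nat_lit 1891) (.e (nat_lit 573482) (nat_lit 13) (.e (nat_lit 65637) (nat_lit 15) (.e (nat_lit 3253) (nat_lit 197) (.e (nat_lit 532503) (nat_lit 1) (.e (nat_lit 57870) (nat_lit 264) .nil))))) (.g (nat_lit 0) (.e (nat_lit 413601) (nat_lit 0) .nil) .nil))))) (.nd (nat_lit 8) (.nd (nat_lit 9) 
(.lf (nat_lit 597241) (.g (nat_lit 2758) (.e (nat_lit 573481) (nat_lit 13) (.e (nat_lit 65619) (nat_lit 10) (.e (nat_lit 344117) (nat_lit 21) (.e (nat_lit 516160) (nat_lit 10) (.e (nat_lit 434211) (nat_lit 18) .nil))))) (.g (nat_lit 0) (.e (nat_lit 412787) (nat_lit 0) .nil) .nil))) 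
(.lf (nat_lit 597753) (.g (nat_lit 3116) (.e (nat_lit 573482) (nat_lit 13) (.e (nat_lit 65619) (nat_lit 10) (.e (nat_lit 344117) (nat_lit 21) (.e (nat_lit 516160) (nat_lit 10) (.e (nat_lit 434275) (nat_lit 39) (.e (nat_lit 663589) (nat_lit 14) (.e (nat_lit 2448) (nat_lit 157) (.e (nat_lit 632) (nat_lit 50) .nil)))))))) (.g (nat_lit 1) (.e (nat_lit 413427) (nat_lit 0) .nil) .nil)))) 
(.nd (nat_lit 9) 
(.lf (nat_lit 597497) (.g (nat_lit 374) (.e (nat_lit 573482) (nat_lit 13) (.e (nat_lit 65604) (nat_lit 9) (.e (nat_lit 336028) (nat_lit 3) .nil))) (.g (nat_lit 0) (.e (nat_lit 413161) (nat_lit 0) .nil) .nil))) 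
(.lf (nat_lit 598009) (.g (nat_lit 3589) (.e (nat_lit 573484) (nat_lit 13) (.e (nat_lit 65610) (nat_lit 10) (.e (nat_lit 344117) (nat_lit 21) (.e (nat_lit 516151) (nat_lit 9) (.e (nat_lit 426049) (nat_lit 0) (.e (nat_lit 2478) (nat_lit 157) (.e (nat_lit 5548) (nat_lit 306) (.e (nat_lit 2610) (nat_lit 163) (.e (nat_lit 163978) (nat_lit 30) .nil))))))))) (.g (nat_lit 1) (.e (nat_lit 413877) (nat_lit 0) .nil) .nil)))))))))) 
(.nd (nat_lit 3) (.nd (nat_lit 4) (.nd (nat_lit 5) (.nd (nat_lit 6) (.nd (nat_lit 7) 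
(.nd (nat_lit 8) (.nd (nat_lit 9) 
(.lf (nat_lit 596997) (.g (nat_lit 3432) (.e (nat_lit 573481) (nat_lit 13) (.e (nat_lit 65604) (nat_lit 9) (.e (nat_lit 336028) (nat_lit 3) (.e (nat_lit 98386) (nat_lit 32) (.e (nat_lit 475197) (nat_lit 40) (.e (nat_lit 704589) (nat_lit 3) (.e (nat_lit 163975) (nat_lit 30) .nil))))))) (.g (nat_lit 1) (.e (nat_lit 412520) (nat_lit 0) .nil) .nil))) 
(.lf (nat_lit 597509) (.g (nat_lit 3384) (.e (nat_lit 573482) (nat_lit 13) (.e (nat_lit 65604) (nat_lit 9) (.e (nat_lit 336028) (nat_lit 3) (.e (nat_lit 98365) (nat_lit 26) (.e (nat_lit 426108) (nat_lit 1) (.e (nat_lit 164345) (nat_lit 240) (.e (nat_lit 2610) (nat_lit 163) (.e (nat_lit 163979) (nat_lit 30) .nil)))))))) (.g (nat_lit 1) (.e (nat_lit 413178) (nat_lit 0) .nil) .nil)))) 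
(.nd (nat_lit 9) 
(.lf (nat_lit 597253) (.g (nat_lit 4100) (.e (nat_lit 573481) (nat_lit 13) (.e (nat_lit 65619) (nat_lit 10) (.e (nat_lit 344117) (nat_lit 21) (.e (nat_lit 516179) (nat_lit 15) (.e (nat_lit 475197) (nat_lit 40) (.e (nat_lit 704589) (nat_lit 3) (.e (nat_lit 163976) (nat_lit 30) .nil))))))) (.g (nat_lit 1) (.e (nat_lit 412813) (nat_lit 0) .nil) .nil))) 
(.lf (nat_lit 597765) (.g (nat_lit 2261) (.e (nat_lit 573482) (nat_lit 13) (.e (nat_lit 65619) (nat_lit 10) (.e (nat_lit 344117) (nat_lit 21) (.e (nat_lit 516171) (nat_lit 13) (.e (nat_lit 458804) (nat_lit 38) .nil))))) (.g (nat_lit 0) (.e (nat_lit 413439) (nat_lit 0) .nil) .nil))))) (.nd (nat_lit 8) (.nd (nat_lit 9) 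
(.lf (nat_lit 597125) (.g (nat_lit 4072) (.e (nat_lit 573481) (nat_lit 13) (.e (nat_lit 65619) (nat_lit 10) (.e (nat_lit 344117) (nat_lit 21) (.e (nat_lit 516145) (nat_lit 9) (.e (nat_lit 426420) (nat_lit 15) (.e (nat_lit 2057) (nat_lit 142) (.e (nat_lit 704589) (nat_lit 3) (.e (nat_lit 163975) (nat_lit 30) .nil)))))))) (.g (nat_lit 1) (.e (nat_lit 412665) (nat_lit 0) .nil) .nil))) 
(.lf (nat_lit 597637) (.g (nat_lit 3934) (.e (nat_lit 573482) (nat_lit 13) (.e (nat_lit 65619) (nat_lit 10) (.e (nat_lit 344117) (nat_lit 21) (.e (nat_lit 516151) (nat_lit 9) (.e (nat_lit 426037) (nat_lit 0) .nil))))) (.g (nat_lit 0) (.e (nat_lit 413311) (nat_lit 0) .nil) .nil)))) (.nd (nat_lit 9) 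
(.lf (nat_lit 597381) (.g (nat_lit 3808) (.e (nat_lit 573482) (nat_lit 13) (.e (nat_lit 65604) (nat_lit 9) (.e (nat_lit 336013) (nat_lit 2) (.e (nat_lit 90147) (nat_lit 9) .nil)))) (.g (nat_lit 0) (.e (nat_lit 413044) (nat_lit 0) .nil) .nil))) 
(.lf (nat_lit 597893) (.g (nat_lit 2229) (.e (nat_lit 573483) (nat_lit 13) (.e (nat_lit 65623) (nat_lit 12) (.e (nat_lit 385074) (nat_lit 31) (.e (nat_lit 573491) (nat_lit 15) .nil)))) (.g (nat_lit 0) (.e (nat_lit 413629) (nat_lit 0) .nil) .nil)))))) (.nd (nat_lit 7) (.nd (nat_lit 8) (.nd (nat_lit 9) 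
(.lf (nat_lit 597061) (.g (nat_lit 2997) (.e (nat_lit 573481) (nat_lit 13) (.e (nat_lit 65619) (nat_lit 10) (.e (nat_lit 344117) (nat_lit 21) (.e (nat_lit 516144) (nat_lit 9) (.e (nat_lit 426376) (nat_lit 15) (.e (nat_lit 2057) (nat_lit 142) (.e (nat_lit 704589) (nat_lit 3) (.e (nat_lit 163976) (nat_lit 30) .nil)))))))) (.g (nat_lit 1) (.e (nat_lit 412601) (nat_lit 0) .nil) .nil))) 
(.lf (nat_lit 597573) (.g (nat_lit 2269) (.e (nat_lit 573482) (nat_lit 13) (.e (nat_lit 65619) (nat_lit 10) (.e (nat_lit 344117) (nat_lit 21) (.e (nat_lit 516143) (nat_lit 9) (.e (nat_lit 426396) (nat_lit 15) .nil))))) (.g (nat_lit 0) (.e (nat_lit 413247) (nat_lit 0) .nil) .nil)))) (.nd (nat_lit 9) 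
(.lf (nat_lit 597317) (.g (nat_lit 1831) (.e (nat_lit 573481) (nat_lit 13) (.e (nat_lit 65628) (nat_lit 14) (.e (nat_lit 401428) (nat_lit 3) (.e (nat_lit 204854) (nat_lit 26) (.e (nat_lit 336115) (nat_lit 9) .nil))))) (.g (nat_lit 0) (.e (nat_lit 412917) (nat_lit 0) .nil) .nil))) 
(.lf (nat_lit 597829) (.g (nat_lit 2526) (.e (nat_lit 573482) (nat_lit 13) (.e (nat_lit 65619) (nat_lit 10) (.e (nat_lit 344129) (nat_lit 26) (.e (nat_lit 557087) (nat_lit 11) (.e (nat_lit 24598) (nat_lit 1) .nil))))) (.g (nat_lit 0) (.e (nat_lit 413525) (nat_lit 0) .nil) .nil))))) (.nd (nat_lit 8) (.nd (nat_lit 9) 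
(.lf (nat_lit 597189) (.g (nat_lit 2069) (.e (nat_lit 573481) (nat_lit 13) (.e (nat_lit 65619) (nat_lit 10) (.e (nat_lit 344117) (nat_lit 21) (.e (nat_lit 516151) (nat_lit 9) (.e (nat_lit 426043) (nat_lit 0) .nil))))) (.g (nat_lit 0) (.e (nat_lit 412729) (nat_lit 0) .nil) .nil))) 
(.lf (nat_lit 597701) (.g (nat_lit 3089) (.e (nat_lit 573482) (nat_lit 13) (.e (nat_lit 65619) (nat_lit 10) (.e (nat_lit 344117) (nat_lit 21) (.e (nat_lit 516151) (nat_lit 9) (.e (nat_lit 426104) (nat_lit 1) (.e (nat_lit 164346) (nat_lit 240) (.e (nat_lit 2611) (nat_lit 163) (.e (nat_lit 163979) (nat_lit 30) .nil)))))))) (.g (nat_lit 1) (.e (nat_lit 413375) (nat_lit 0) .nil) .nil)))) 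
(.nd (nat_lit 9) 
(.lf (nat_lit 597445) (.g (nat_lit 3662) (.e (nat_lit 573482) (nat_lit 13) (.e (nat_lit 65604) (nat_lit 9) (.e (nat_lit 336013) (nat_lit 2) (.e (nat_lit 90170) (nat_lit 13) (.e (nat_lit 172052) (nat_lit 0) (.e (nat_lit 3409) (nat_lit 212) (.e (nat_lit 655375) (nat_lit 3) (.e (nat_lit 163977) (nat_lit 30) .nil)))))))) (.g (nat_lit 1) (.e (nat_lit 413108) (nat_lit 0) .nil) .nil))) 
(.lf (nat_lit 597957) (.g (nat_lit 2211) (.e (nat_lit 573484) (nat_lit 13) (.e (nat_lit 65610) (nat_lit 10) (.e (nat_lit 344117) (nat_lit 21) (.e (nat_lit 516145) (nat_lit 9) (.e (nat_lit 426148) (nat_lit 4) .nil))))) (.g (nat_lit 0) (.e (nat_lit 413755) (nat_lit 0) .nil) .nil))))))) (.nd (nat_lit 6) (.nd (nat_lit 7) (.nd (nat_lit 8) (.nd (nat_lit 9) 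
(.lf (nat_lit 597029) (.g (nat_lit 5242) (.e (nat_lit 573481) (nat_lit 13) (.e (nat_lit 65618) (nat_lit 10) (.e (nat_lit 344117) (nat_lit 21) (.e (nat_lit 516151) (nat_lit 9) (.e (nat_lit 426412) (nat_lit 15) (.e (nat_lit 2058) (nat_lit 142) (.e (nat_lit 704589) (nat_lit 3) (.e (nat_lit 163975) (nat_lit 30) .nil)))))))) (.g (nat_lit 1) (.e (nat_lit 412552) (nat_lit 0) .nil) .nil))) 
(.lf (nat_lit 597541) (.g (nat_lit 2313) (.e (nat_lit 573482) (nat_lit 13) (.e (nat_lit 65619) (nat_lit 10) (.e (nat_lit 344117) (nat_lit 21) (.e (nat_lit 516096) (nat_lit 0) (.e (nat_lit 7557) (nat_lit 402) .nil))))) (.g (nat_lit 0) (.e (nat_lit 413211) (nat_lit 0) .nil) .nil)))) (.nd (nat_lit 9) 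
(.lf (nat_lit 597285) (.g (nat_lit 2805) (.e (nat_lit 573481) (nat_lit 13) (.e (nat_lit 65619) (nat_lit 10) (.e (nat_lit 344119) (nat_lit 21) (.e (nat_lit 516179) (nat_lit 15) (.e (nat_lit 475198) (nat_lit 40) (.e (nat_lit 704589) (nat_lit 3) (.e (nat_lit 163976) (nat_lit 30) .nil))))))) (.g (nat_lit 1) (.e (nat_lit 412845) (nat_lit 0) .nil) .nil))) 
(.lf (nat_lit 597797) (.g (nat_lit 1617) (.e (nat_lit 573482) (nat_lit 13) (.e (nat_lit 65619) (nat_lit 10) (.e (nat_lit 344129) (nat_lit 26) (.e (nat_lit 557066) (nat_lit 9) (.e (nat_lit 312) (nat_lit 23) .nil))))) (.g (nat_lit 0) (.e (nat_lit 413491) (nat_lit 0) .nil) .nil))))) (.nd (nat_lit 8) (.nd (nat_lit 9) 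
(.lf (nat_lit 597157) (.g (nat_lit 3420) (.e (nat_lit 573481) (nat_lit 13) (.e (nat_lit 65619) (nat_lit 10) (.e (nat_lit 344117) (nat_lit 21) (.e (nat_lit 516151) (nat_lit 9) (.e (nat_lit 426023) (nat_lit 0) (.e (nat_lit 3397) (nat_lit 211) (.e (nat_lit 647180) (nat_lit 3) (.e (nat_lit 163976) (nat_lit 30) .nil)))))))) (.g (nat_lit 1) (.e (nat_lit 412697) (nat_lit 0) .nil) .nil))) 
(.lf (nat_lit 597669) (.g (nat_lit 3586) (.e (nat_lit 573482) (nat_lit 13) (.e (nat_lit 65619) (nat_lit 10) (.e (nat_lit 344117) (nat_lit 21) (.e (nat_lit 516151) (nat_lit 9) (.e (nat_lit 426042) (nat_lit 0) (.e (nat_lit 2458) (nat_lit 157) (.e (nat_lit 5548) (nat_lit 306) (.e (nat_lit 2599) (nat_lit 163) (.e (nat_lit 163979) (nat_lit 30) .nil))))))))) (.g (nat_lit 1) (.e (nat_lit 413343) (nat_lit 0) .nil) .nil)))) 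
(.nd (nat_lit 9) 
(.lf (nat_lit 597413) (.g (nat_lit 4356) (.e (nat_lit 573482) (nat_lit 13) (.e (nat_lit 65604) (nat_lit 9) (.e (nat_lit 336013) (nat_lit 2) (.e (nat_lit 90170) (nat_lit 13) (.e (nat_lit 172042) (nat_lit 0) (.e (nat_lit 3409) (nat_lit 212) (.e (nat_lit 655375) (nat_lit 3) (.e (nat_lit 163977) (nat_lit 30) .nil)))))))) (.g (nat_lit 1) (.e (nat_lit 413076) (nat_lit 0) .nil) .nil))) 
(.lf (nat_lit 597925) (.g (nat_lit 1031) (.e (nat_lit 573484) (nat_lit 13) (.e (nat_lit 65610) (nat_lit 10) (.e (nat_lit 344117) (nat_lit 21) (.e (nat_lit 516098) (nat_lit 0) .nil)))) (.g (nat_lit 0) (.e (nat_lit 413691) (nat_lit 0) .nil) .nil)))))) (.nd (nat_lit 7) (.nd (nat_lit 8) (.nd (nat_lit 9) 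
(.lf (nat_lit 597093) (.g (nat_lit 3697) (.e (nat_lit 573481) (nat_lit 13) (.e (nat_lit 65619) (nat_lit 10) (.e (nat_lit 344117) (nat_lit 21) (.e (nat_lit 516145) (nat_lit 9) (.e (nat_lit 426364) (nat_lit 15) (.e (nat_lit 2056) (nat_lit 142) (.e (nat_lit 704589) (nat_lit 3) (.e (nat_lit 163976) (nat_lit 30) .nil)))))))) (.g (nat_lit 1) (.e (nat_lit 412633) (nat_lit 0) .nil) .nil))) 
(.lf (nat_lit 597605) (.g (nat_lit 4237) (.e (nat_lit 573482) (nat_lit 13) (.e (nat_lit 65619) (nat_lit 10) (.e (nat_lit 344117) (nat_lit 21) (.e (nat_lit 516145) (nat_lit 9) (.e (nat_lit 426376) (nat_lit 15) (.e (nat_lit 2057) (nat_lit 142) (.e (nat_lit 704589) (nat_lit 3) (.e (nat_lit 163979) (nat_lit 30) .nil)))))))) (.g (nat_lit 1) (.e (nat_lit 413279) (nat_lit 0) .nil) .nil)))) 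
(.nd (nat_lit 9) 
(.lf (nat_lit 597349) (.g (nat_lit 2929) (.e (nat_lit 573482) (nat_lit 13) (.e (nat_lit 65563) (nat_lit 1) (.e (nat_lit 57931) (nat_lit 282) (.e (nat_lit 163943) (nat_lit 19) (.e (nat_lit 483343) (nat_lit 17) (.e (nat_lit 6712) (nat_lit 360) (.e (nat_lit 163979) (nat_lit 30) .nil))))))) (.g (nat_lit 1) (.e (nat_lit 412971) (nat_lit 0) .nil) .nil))) 
(.lf (nat_lit 597861) (.g (nat_lit 3660) (.e (nat_lit 573482) (nat_lit 13) (.e (nat_lit 65624) (nat_lit 12) (.e (nat_lit 385074) (nat_lit 31) (.e (nat_lit 573493) (nat_lit 15) (.e (nat_lit 81923) (nat_lit 0) (.e (nat_lit 3305) (nat_lit 202) .nil)))))) (.g (nat_lit 1) (.e (nat_lit 413566) (nat_lit 0) .nil) .nil))))) (.nd (nat_lit 8) (.nd (nat_lit 9) 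
(.lf (nat_lit 597221) (.g (nat_lit 3110) (.e (nat_lit 573481) (nat_lit 13) (.e (nat_lit 65619) (nat_lit 10) (.e (nat_lit 344117) (nat_lit 21) (.e (nat_lit 516151) (nat_lit 9) (.e (nat_lit 426414) (nat_lit 15) .nil))))) (.g (nat_lit 0) (.e (nat_lit 412764) (nat_lit 0) .nil) .nil))) 
(.lf (nat_lit 597733) (.g (nat_lit 2260) (.e (nat_lit 573482) (nat_lit 13) (.e (nat_lit 65619) (nat_lit 10) (.e (nat_lit 344117) (nat_lit 21) (.e (nat_lit 516159) (nat_lit 10) (.e (nat_lit 434212) (nat_lit 18) .nil))))) (.g (nat_lit 0) (.e (nat_lit 413407) (nat_lit 0) .nil) .nil)))) (.nd (nat_lit 9) 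
(.lf (nat_lit 597477) (.g (nat_lit 3618) (.e (nat_lit 573482) (nat_lit 13) (.e (nat_lit 65604) (nat_lit 9) (.e (nat_lit 336013) (nat_lit 2) (.e (nat_lit 90170) (nat_lit 13) (.e (nat_lit 172070) (nat_lit 4) (.e (nat_lit 229663) (nat_lit 240) (.e (nat_lit 2604) (nat_lit 163) (.e (nat_lit 163977) (nat_lit 30) .nil)))))))) (.g (nat_lit 1) (.e (nat_lit 413140) (nat_lit 0) .nil) .nil))) 
(.lf (nat_lit 597989) (.g (nat_lit 3984) (.e (nat_lit 573484) (nat_lit 13) (.e (nat_lit 65610) (nat_lit 10) (.e (nat_lit 344117) (nat_lit 21) (.e (nat_lit 516151) (nat_lit 9) (.e (nat_lit 426040) (nat_lit 0) (.e (nat_lit 2458) (nat_lit 157) (.e (nat_lit 5546) (nat_lit 306) (.e (nat_lit 2610) (nat_lit 163) (.e (nat_lit 163978) (nat_lit 30) .nil))))))))) (.g (nat_lit 1) (.e (nat_lit 413844) (nat_lit 0) .nil) .nil)))))))) 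
(.nd (nat_lit 5) (.nd (nat_lit 6) (.nd (nat_lit 7) (.nd (nat_lit 8) (.nd (nat_lit 9) 
(.lf (nat_lit 597013) (.g (nat_lit 2252) (.e (nat_lit 573481) (nat_lit 13) (.e (nat_lit 65609) (nat_lit 10) (.e (nat_lit 344118) (nat_lit 21) (.e (nat_lit 516182) (nat_lit 15) (.e (nat_lit 475199) (nat_lit 40) (.e (nat_lit 704589) (nat_lit 3) (.e (nat_lit 163975) (nat_lit 30) .nil))))))) (.g (nat_lit 1) (.e (nat_lit 412536) (nat_lit 0) .nil) .nil))) 
(.lf (nat_lit 597525) (.g (nat_lit 2870) (.e (nat_lit 573482) (nat_lit 13) (.e (nat_lit 65604) (nat_lit 9) (.e (nat_lit 336028) (nat_lit 3) (.e (nat_lit 98384) (nat_lit 32) (.e (nat_lit 475197) (nat_lit 40) .nil))))) (.g (nat_lit 0) (.e (nat_lit 413195) (nat_lit 0) .nil) .nil)))) (.nd (nat_lit 9) 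
(.lf (nat_lit 597269) (.g (nat_lit 3404) (.e (nat_lit 573481) (nat_lit 13) (.e (nat_lit 65619) (nat_lit 10) (.e (nat_lit 344117) (nat_lit 21) (.e (nat_lit 516182) (nat_lit 15) (.e (nat_lit 475199) (nat_lit 40) (.e (nat_lit 704589) (nat_lit 3) (.e (nat_lit 163975) (nat_lit 30) .nil))))))) (.g (nat_lit 1) (.e (nat_lit 412829) (nat_lit 0) .nil) .nil))) 
(.lf (nat_lit 597781) (.g (nat_lit 1888) (.e (nat_lit 573482) (nat_lit 13) (.e (nat_lit 65619) (nat_lit 10) (.e (nat_lit 344126) (nat_lit 25) (.e (nat_lit 548891) (nat_lit 11) (.e (nat_lit 81924) (nat_lit 0) .nil))))) (.g (nat_lit 0) (.e (nat_lit 413465) (nat_lit 0) .nil) .nil))))) (.nd (nat_lit 8) (.nd (nat_lit 9) 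
(.lf (nat_lit 597141) (.g (nat_lit 2486) (.e (nat_lit 573481) (nat_lit 13) (.e (nat_lit 65619) (nat_lit 10) (.e (nat_lit 344117) (nat_lit 21) (.e (nat_lit 516147) (nat_lit 9) (.e (nat_lit 426376) (nat_lit 15) (.e (nat_lit 2056) (nat_lit 142) (.e (nat_lit 704589) (nat_lit 3) (.e (nat_lit 163975) (nat_lit 30) .nil)))))))) (.g (nat_lit 1) (.e (nat_lit 412681) (nat_lit 0) .nil) .nil))) 
(.lf (nat_lit 597653) (.g (nat_lit 3611) (.e (nat_lit 573482) (nat_lit 13) (.e (nat_lit 65619) (nat_lit 10) (.e (nat_lit 344117) (nat_lit 21) (.e (nat_lit 516151) (nat_lit 9) (.e (nat_lit 426039) (nat_lit 0) .nil))))) (.g (nat_lit 0) (.e (nat_lit 413327) (nat_lit 0) .nil) .nil)))) (.nd (nat_lit 9) 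
(.lf (nat_lit 597397) (.g (nat_lit 2808) (.e (nat_lit 573482) (nat_lit 13) (.e (nat_lit 65604) (nat_lit 9) (.e (nat_lit 336013) (nat_lit 2) (.e (nat_lit 90170) (nat_lit 13) (.e (nat_lit 172036) (nat_lit 0) (.e (nat_lit 3402) (nat_lit 211) (.e (nat_lit 647181) (nat_lit 3) (.e (nat_lit 163979) (nat_lit 30) .nil)))))))) (.g (nat_lit 1) (.e (nat_lit 413060) (nat_lit 0) .nil) .nil))) 
(.lf (nat_lit 597909) (.g (nat_lit 1874) (.e (nat_lit 573484) (nat_lit 13) (.e (nat_lit 65599) (nat_lit 9) (.e (nat_lit 336013) (nat_lit 2) (.e (nat_lit 90189) (nat_lit 18) .nil)))) (.g (nat_lit 0) (.e (nat_lit 413665) (nat_lit 0) .nil) .nil)))))) (.nd (nat_lit 7) (.nd (nat_lit 8) (.nd (nat_lit 9) 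
(.lf (nat_lit 597077) (.g (nat_lit 2625) (.e (nat_lit 573481) (nat_lit 13) (.e (nat_lit 65619) (nat_lit 10) (.e (nat_lit 344117) (nat_lit 21) (.e (nat_lit 516144) (nat_lit 9) (.e (nat_lit 426469) (nat_lit 24) (.e (nat_lit 163584) (nat_lit 3) (.e (nat_lit 163976) (nat_lit 30) .nil))))))) (.g (nat_lit 1) (.e (nat_lit 412617) (nat_lit 0) .nil) .nil))) 
(.lf (nat_lit 597589) (.g (nat_lit 3454) (.e (nat_lit 573482) (nat_lit 13) (.e (nat_lit 65619) (nat_lit 10) (.e (nat_lit 344117) (nat_lit 21) (.e (nat_lit 516145) (nat_lit 9) (.e (nat_lit 426148) (nat_lit 4) .nil))))) (.g (nat_lit 0) (.e (nat_lit 413263) (nat_lit 0) .nil) .nil)))) (.nd (nat_lit 9) 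
(.lf (nat_lit 597333) (.g (nat_lit 3062) (.e (nat_lit 573481) (nat_lit 13) (.e (nat_lit 65630) (nat_lit 14) (.e (nat_lit 401425) (nat_lit 2) (.e (nat_lit 196681) (nat_lit 17) (.e (nat_lit 131108) (nat_lit 9) .nil))))) (.g (nat_lit 0) (.e (nat_lit 412938) (nat_lit 0) .nil) .nil))) 
(.lf (nat_lit 597845) (.g (nat_lit 2942) (.e (nat_lit 573482) (nat_lit 13) (.e (nat_lit 65619) (nat_lit 10) (.e (nat_lit 344129) (nat_lit 26) (.e (nat_lit 557087) (nat_lit 11) (.e (nat_lit 24626) (nat_lit 9) (.e (nat_lit 336306) (nat_lit 15) (.e (nat_lit 3308) (nat_lit 202) .nil))))))) (.g (nat_lit 1) (.e (nat_lit 413542) (nat_lit 0) .nil) .nil))))) (.nd (nat_lit 8) (.nd (nat_lit 9) 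
(.lf (nat_lit 597205) (.g (nat_lit 3478) (.e (nat_lit 573481) (nat_lit 13) (.e (nat_lit 65619) (nat_lit 10) (.e (nat_lit 344117) (nat_lit 21) (.e (nat_lit 516151) (nat_lit 9) (.e (nat_lit 426104) (nat_lit 1) (.e (nat_lit 164348) (nat_lit 240) (.e (nat_lit 2601) (nat_lit 163) (.e (nat_lit 163976) (nat_lit 30) .nil)))))))) (.g (nat_lit 1) (.e (nat_lit 412746) (nat_lit 0) .nil) .nil))) 
(.lf (nat_lit 597717) (.g (nat_lit 3678) (.e (nat_lit 573482) (nat_lit 13) (.e (nat_lit 65619) (nat_lit 10) (.e (nat_lit 344117) (nat_lit 21) (.e (nat_lit 516151) (nat_lit 9) (.e (nat_lit 426409) (nat_lit 15) (.e (nat_lit 7936) (nat_lit 142) (.e (nat_lit 704589) (nat_lit 3) (.e (nat_lit 163979) (nat_lit 30) .nil)))))))) (.g (nat_lit 1) (.e (nat_lit 413391) (nat_lit 0) .nil) .nil)))) 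
(.nd (nat_lit 9) 
(.lf (nat_lit 597461) (.g (nat_lit 3597) (.e (nat_lit 573482) (nat_lit 13) (.e (nat_lit 65604) (nat_lit 9) (.e (nat_lit 336013) (nat_lit 2) (.e (nat_lit 90170) (nat_lit 13) (.e (nat_lit 172060) (nat_lit 1) (.e (nat_lit 164347) (nat_lit 240) (.e (nat_lit 2611) (nat_lit 163) (.e (nat_lit 163979) (nat_lit 30) .nil)))))))) (.g (nat_lit 1) (.e (nat_lit 413124) (nat_lit 0) .nil) .nil))) 
(.lf (nat_lit 597973) (.g (nat_lit 3588) (.e (nat_lit 573484) (nat_lit 13) (.e (nat_lit 65610) (nat_lit 10) (.e (nat_lit 344117) (nat_lit 21) (.e (nat_lit 516151) (nat_lit 9) (.e (nat_lit 426034) (nat_lit 0) (.e (nat_lit 3409) (nat_lit 212) (.e (nat_lit 655375) (nat_lit 3) (.e (nat_lit 163978) (nat_lit 30) .nil)))))))) (.g (nat_lit 1) (.e (nat_lit 413792) (nat_lit 0) .nil) .nil))))))) 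
(.nd (nat_lit 6) (.nd (nat_lit 7) (.nd (nat_lit 8) (.nd (nat_lit 9) 
(.lf (nat_lit 597045) (.g (nat_lit 5201) (.e (nat_lit 573481) (nat_lit 13) (.e (nat_lit 65619) (nat_lit 10) (.e (nat_lit 344117) (nat_lit 21) (.e (nat_lit 516106) (nat_lit 0) (.e (nat_lit 6986) (nat_lit 377) (.e (nat_lit 2777) (nat_lit 178) (.e (nat_lit 286765) (nat_lit 15) (.e (nat_lit 3298) (nat_lit 202) .nil)))))))) (.g (nat_lit 1) (.e (nat_lit 412574) (nat_lit 0) .nil) .nil))) 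
(.lf (nat_lit 597557) (.g (nat_lit 2676) (.e (nat_lit 573482) (nat_lit 13) (.e (nat_lit 65619) (nat_lit 10) (.e (nat_lit 344117) (nat_lit 21) (.e (nat_lit 516106) (nat_lit 0) (.e (nat_lit 6986) (nat_lit 377) (.e (nat_lit 2777) (nat_lit 178) (.e (nat_lit 294656) (nat_lit 15) (.e (nat_lit 3308) (nat_lit 202) .nil)))))))) (.g (nat_lit 1) (.e (nat_lit 413228) (nat_lit 0) .nil) .nil)))) 
(.nd (nat_lit 9) 
(.lf (nat_lit 597301) (.g (nat_lit 888) (.e (nat_lit 573481) (nat_lit 13) (.e (nat_lit 65619) (nat_lit 10) (.e (nat_lit 344129) (nat_lit 26) (.e (nat_lit 557087) (nat_lit 11) .nil)))) (.g (nat_lit 0) (.e (nat_lit 412884) (nat_lit 0) .nil) .nil))) 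
(.lf (nat_lit 597813) (.g (nat_lit 2863) (.e (nat_lit 573482) (nat_lit 13) (.e (nat_lit 65619) (nat_lit 10) (.e (nat_lit 344129) (nat_lit 26) (.e (nat_lit 557085) (nat_lit 11) (.e (nat_lit 24648) (nat_lit 12) (.e (nat_lit 385072) (nat_lit 31) .nil)))))) (.g (nat_lit 1) (.e (nat_lit 413508) (nat_lit 0) .nil) .nil))))) (.nd (nat_lit 8) (.nd (nat_lit 9) 
(.lf (nat_lit 597173) (.g (nat_lit 3385) (.e (nat_lit 573481) (nat_lit 13) (.e (nat_lit 65619) (nat_lit 10) (.e (nat_lit 344117) (nat_lit 21) (.e (nat_lit 516151) (nat_lit 9) (.e (nat_lit 426042) (nat_lit 0) (.e (nat_lit 2458) (nat_lit 157) (.e (nat_lit 5548) (nat_lit 306) (.e (nat_lit 2601) (nat_lit 163) (.e (nat_lit 163975) (nat_lit 30) .nil))))))))) (.g (nat_lit 1) (.e (nat_lit 412713) (nat_lit 0) .nil) .nil))) 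
(.lf (nat_lit 597685) (.g (nat_lit 3926) (.e (nat_lit 573482) (nat_lit 13) (.e (nat_lit 65619) (nat_lit 10) (.e (nat_lit 344117) (nat_lit 21) (.e (nat_lit 516151) (nat_lit 9) (.e (nat_lit 426047) (nat_lit 0) .nil))))) (.g (nat_lit 0) (.e (nat_lit 413359) (nat_lit 0) .nil) .nil)))) (.nd (nat_lit 9) 
(.lf (nat_lit 597429) (.g (nat_lit 3414) (.e (nat_lit 573482) (nat_lit 13) (.e (nat_lit 65604) (nat_lit 9) (.e (nat_lit 336013) (nat_lit 2) (.e (nat_lit 90170) (nat_lit 13) (.e (nat_lit 172048) (nat_lit 0) .nil))))) (.g (nat_lit 0) (.e (nat_lit 413092) (nat_lit 0) .nil) .nil))) 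
(.lf (nat_lit 597941) (.g (nat_lit 1239) (.e (nat_lit 573484) (nat_lit 13) (.e (nat_lit 65610) (nat_lit 10) (.e (nat_lit 344117) (nat_lit 21) (.e (nat_lit 516116) (nat_lit 1) .nil)))) (.g (nat_lit 0) (.e (nat_lit 413725) (nat_lit 0) .nil) .nil)))))) (.nd (nat_lit 7) (.nd (nat_lit 8) (.nd (nat_lit 9) 
(.lf (nat_lit 597109) (.g (nat_lit 3182) (.e (nat_lit 573481) (nat_lit 13) (.e (nat_lit 65619) (nat_lit 10) (.e (nat_lit 344117) (nat_lit 21) (.e (nat_lit 516145) (nat_lit 9) (.e (nat_lit 426379) (nat_lit 15) .nil))))) (.g (nat_lit 0) (.e (nat_lit 412649) (nat_lit 0) .nil) .nil))) 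
(.lf (nat_lit 597621) (.g (nat_lit 3184) (.e (nat_lit 573482) (nat_lit 13) (.e (nat_lit 65619) (nat_lit 10) (.e (nat_lit 344117) (nat_lit 21) (.e (nat_lit 516145) (nat_lit 9) (.e (nat_lit 426467) (nat_lit 24) .nil))))) (.g (nat_lit 0) (.e (nat_lit 413295) (nat_lit 0) .nil) .nil)))) (.nd (nat_lit 9) 
(.lf (nat_lit 597365) (.g (nat_lit 3122) (.e (nat_lit 573482) (nat_lit 13) (.e (nat_lit 65603) (nat_lit 9) (.e (nat_lit 336013) (nat_lit 2) (.e (nat_lit 90134) (nat_lit 9) (.e (nat_lit 3097) (nat_lit 192) .nil))))) (.g (nat_lit 0) (.e (nat_lit 413022) (nat_lit 0) .nil) .nil))) 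
(.lf (nat_lit 597877) (.g (nat_lit 2542) (.e (nat_lit 573482) (nat_lit 13) (.e (nat_lit 65630) (nat_lit 14) (.e (nat_lit 401425) (nat_lit 2) (.e (nat_lit 196680) (nat_lit 17) .nil)))) (.g (nat_lit 0) (.e (nat_lit 413594) (nat_lit 0) .nil) .nil))))) (.nd (nat_lit 8) (.nd (nat_lit 9) 
(.lf (nat_lit 597237) (.g (nat_lit 2168) (.e (nat_lit 573481) (nat_lit 13) (.e (nat_lit 65619) (nat_lit 10) (.e (nat_lit 344117) (nat_lit 21) (.e (nat_lit 516160) (nat_lit 10) (.e (nat_lit 434209) (nat_lit 18) .nil))))) (.g (nat_lit 0) (.e (nat_lit 412782) (nat_lit 0) .nil) .nil))) 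
(.lf (nat_lit 597749) (.g (nat_lit 2841) (.e (nat_lit 573482) (nat_lit 13) (.e (nat_lit 65619) (nat_lit 10) (.e (nat_lit 344117) (nat_lit 21) (.e (nat_lit 516160) (nat_lit 10) (.e (nat_lit 434213) (nat_lit 18) (.e (nat_lit 5548) (nat_lit 306) (.e (nat_lit 2610) (nat_lit 163) (.e (nat_lit 163979) (nat_lit 30) .nil)))))))) (.g (nat_lit 1) (.e (nat_lit 413423) (nat_lit 0) .nil) .nil)))) 
(.nd (nat_lit 9) 
(.lf (nat_lit 597493) (.g (nat_lit 3822) (.e (nat_lit 573482) (nat_lit 13) (.e (nat_lit 65604) (nat_lit 9) (.e (nat_lit 336013) (nat_lit 2) (.e (nat_lit 90173) (nat_lit 14) .nil)))) (.g (nat_lit 0) (.e (nat_lit 413156) (nat_lit 0) .nil) .nil))) 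
(.lf (nat_lit 598005) (.g (nat_lit 4639) (.e (nat_lit 573484) (nat_lit 13) (.e (nat_lit 65610) (nat_lit 10) (.e (nat_lit 344117) (nat_lit 21) (.e (nat_lit 516151) (nat_lit 9) (.e (nat_lit 426043) (nat_lit 0) (.e (nat_lit 3406) (nat_lit 212) (.e (nat_lit 655375) (nat_lit 3) (.e (nat_lit 163977) (nat_lit 30) .nil)))))))) (.g (nat_lit 1) (.e (nat_lit 413873) (nat_lit 0) .nil) .nil))))))))) 
(.nd (nat_lit 4) (.nd (nat_lit 5) (.nd (nat_lit 6) (.nd (nat_lit 7) (.nd (nat_lit 8) 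
(.nd (nat_lit 9) 
(.lf (nat_lit 597005) (.g (nat_lit 3374) (.e (nat_lit 573481) (nat_lit 13) (.e (nat_lit 65609) (nat_lit 10) (.e (nat_lit 344117) (nat_lit 21) (.e (nat_lit 516151) (nat_lit 9) (.e (nat_lit 426412) (nat_lit 15) (.e (nat_lit 2056) (nat_lit 142) (.e (nat_lit 704589) (nat_lit 3) (.e (nat_lit 163976) (nat_lit 30) .nil)))))))) (.g (nat_lit 1) (.e (nat_lit 412528) (nat_lit 0) .nil) .nil))) 
(.lf (nat_lit 597517) (.g (nat_lit 2559) (.e (nat_lit 573482) (nat_lit 13) (.e (nat_lit 65604) (nat_lit 9) (.e (nat_lit 336028) (nat_lit 3) (.e (nat_lit 98367) (nat_lit 27) (.e (nat_lit 434208) (nat_lit 18) (.e (nat_lit 5537) (nat_lit 306) (.e (nat_lit 2611) (nat_lit 163) (.e (nat_lit 163977) (nat_lit 30) .nil)))))))) (.g (nat_lit 1) (.e (nat_lit 413186) (nat_lit 0) .nil) .nil)))) 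
(.nd (nat_lit 9) 
(.lf (nat_lit 597261) (.g (nat_lit 4484) (.e (nat_lit 573481) (nat_lit 13) (.e (nat_lit 65619) (nat_lit 10) (.e (nat_lit 344117) (nat_lit 21) (.e (nat_lit 516180) (nat_lit 15) (.e (nat_lit 475210) (nat_lit 41) (.e (nat_lit 712722) (nat_lit 15) (.e (nat_lit 3302) (nat_lit 202) .nil))))))) (.g (nat_lit 1) (.e (nat_lit 412821) (nat_lit 0) .nil) .nil))) 
(.lf (nat_lit 597773) (.g (nat_lit 1680) (.e (nat_lit 573482) (nat_lit 13) (.e (nat_lit 65619) (nat_lit 10) (.e (nat_lit 344117) (nat_lit 21) (.e (nat_lit 516184) (nat_lit 16) (.e (nat_lit 491564) (nat_lit 12) .nil))))) (.g (nat_lit 0) (.e (nat_lit 413447) (nat_lit 0) .nil) .nil))))) (.nd (nat_lit 8) (.nd (nat_lit 9) 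
(.lf (nat_lit 597133) (.g (nat_lit 2930) (.e (nat_lit 573481) (nat_lit 13) (.e (nat_lit 65619) (nat_lit 10) (.e (nat_lit 344117) (nat_lit 21) (.e (nat_lit 516145) (nat_lit 9) (.e (nat_lit 433920) (nat_lit 19) .nil))))) (.g (nat_lit 0) (.e (nat_lit 412673) (nat_lit 0) .nil) .nil))) 
(.lf (nat_lit 597645) (.g (nat_lit 4198) (.e (nat_lit 573482) (nat_lit 13) (.e (nat_lit 65619) (nat_lit 10) (.e (nat_lit 344117) (nat_lit 21) (.e (nat_lit 516151) (nat_lit 9) (.e (nat_lit 426038) (nat_lit 0) (.e (nat_lit 2458) (nat_lit 157) (.e (nat_lit 5547) (nat_lit 306) (.e (nat_lit 2599) (nat_lit 163) (.e (nat_lit 163979) (nat_lit 30) .nil))))))))) (.g (nat_lit 1) (.e (nat_lit 413319) (nat_lit 0) .nil) .nil)))) 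
(.nd (nat_lit 9) 
(.lf (nat_lit 597389) (.g (nat_lit 2879) (.e (nat_lit 573482) (nat_lit 13) (.e (nat_lit 65604) (nat_lit 9) (.e (nat_lit 336013) (nat_lit 2) (.e (nat_lit 90170) (nat_lit 13) (.e (nat_lit 172032) (nat_lit 0) (.e (nat_lit 3401) (nat_lit 211) (.e (nat_lit 647180) (nat_lit 3) (.e (nat_lit 163979) (nat_lit 30) .nil)))))))) (.g (nat_lit 1) (.e (nat_lit 413052) (nat_lit 0) .nil) .nil))) 
(.lf (nat_lit 597901) (.g (nat_lit 1660) (.e (nat_lit 573483) (nat_lit 13) (.e (nat_lit 65630) (nat_lit 14) (.e (nat_lit 401427) (nat_lit 3) (.e (nat_lit 204859) (nat_lit 26) .nil)))) (.g (nat_lit 0) (.e (nat_lit 413637) (nat_lit 0) .nil) .nil)))))) (.nd (nat_lit 7) (.nd (nat_lit 8) (.nd (nat_lit 9) 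
(.lf (nat_lit 597069) (.g (nat_lit 2360) (.e (nat_lit 573481) (nat_lit 13) (.e (nat_lit 65619) (nat_lit 10) (.e (nat_lit 344117) (nat_lit 21) (.e (nat_lit 516144) (nat_lit 9) (.e (nat_lit 426416) (nat_lit 15) .nil))))) (.g (nat_lit 0) (.e (nat_lit 412609) (nat_lit 0) .nil) .nil))) 
(.lf (nat_lit 597581) (.g (nat_lit 2851) (.e (nat_lit 573482) (nat_lit 13) (.e (nat_lit 65619) (nat_lit 10) (.e (nat_lit 344117) (nat_lit 21) (.e (nat_lit 516145) (nat_lit 9) (.e (nat_lit 433920) (nat_lit 1) .nil))))) (.g (nat_lit 0) (.e (nat_lit 413255) (nat_lit 0) .nil) .nil)))) (.nd (nat_lit 9) 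
(.lf (nat_lit 597325) (.g (nat_lit 2547) (.e (nat_lit 573481) (nat_lit 13) (.e (nat_lit 65630) (nat_lit 14) (.e (nat_lit 401425) (nat_lit 2) (.e (nat_lit 196666) (nat_lit 13) (.e (nat_lit 65599) (nat_lit 9) (.e (nat_lit 343808) (nat_lit 15) (.e (nat_lit 3298) (nat_lit 202) .nil))))))) (.g (nat_lit 1) (.e (nat_lit 412930) (nat_lit 0) .nil) .nil))) 
(.lf (nat_lit 597837) (.g (nat_lit 2368) (.e (nat_lit 573482) (nat_lit 13) (.e (nat_lit 65619) (nat_lit 10) (.e (nat_lit 344129) (nat_lit 26) (.e (nat_lit 557087) (nat_lit 11) (.e (nat_lit 24623) (nat_lit 9) (.e (nat_lit 336260) (nat_lit 15) (.e (nat_lit 3308) (nat_lit 202) .nil))))))) (.g (nat_lit 1) (.e (nat_lit 413534) (nat_lit 0) .nil) .nil))))) (.nd (nat_lit 8) (.nd (nat_lit 9) 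
(.lf (nat_lit 597197) (.g (nat_lit 2972) (.e (nat_lit 573481) (nat_lit 13) (.e (nat_lit 65619) (nat_lit 10) (.e (nat_lit 344117) (nat_lit 21) (.e (nat_lit 516151) (nat_lit 9) (.e (nat_lit 426097) (nat_lit 1) (.e (nat_lit 164348) (nat_lit 240) (.e (nat_lit 2600) (nat_lit 163) (.e (nat_lit 163975) (nat_lit 30) .nil)))))))) (.g (nat_lit 1) (.e (nat_lit 412738) (nat_lit 0) .nil) .nil))) 
(.lf (nat_lit 597709) (.g (nat_lit 3693) (.e (nat_lit 573482) (nat_lit 13) (.e (nat_lit 65619) (nat_lit 10) (.e (nat_lit 344117) (nat_lit 21) (.e (nat_lit 516151) (nat_lit 9) (.e (nat_lit 426146) (nat_lit 4) (.e (nat_lit 229663) (nat_lit 240) (.e (nat_lit 2612) (nat_lit 163) (.e (nat_lit 163977) (nat_lit 30) .nil)))))))) (.g (nat_lit 1) (.e (nat_lit 413383) (nat_lit 0) .nil) .nil)))) 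
(.nd (nat_lit 9) 
(.lf (nat_lit 597453) (.g (nat_lit 3850) (.e (nat_lit 573482) (nat_lit 13) (.e (nat_lit 65604) (nat_lit 9) (.e (nat_lit 336013) (nat_lit 2) (.e (nat_lit 90170) (nat_lit 13) (.e (nat_lit 172060) (nat_lit 1) (.e (nat_lit 164345) (nat_lit 240) (.e (nat_lit 2599) (nat_lit 163) (.e (nat_lit 163979) (nat_lit 30) .nil)))))))) (.g (nat_lit 1) (.e (nat_lit 413116) (nat_lit 0) .nil) .nil))) 
(.lf (nat_lit 597965) (.g (nat_lit 2957) (.e (nat_lit 573484) (nat_lit 13) (.e (nat_lit 65610) (nat_lit 10) (.e (nat_lit 344117) (nat_lit 21) (.e (nat_lit 516151) (nat_lit 9) (.e (nat_lit 426020) (nat_lit 0) .nil))))) (.g (nat_lit 0) (.e (nat_lit 413776) (nat_lit 0) .nil) .nil))))))) (.nd (nat_lit 6) (.nd (nat_lit 7) (.nd (nat_lit 8) (.nd (nat_lit 9) 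
(.lf (nat_lit 597037) (.g (nat_lit 2609) (.e (nat_lit 573481) (nat_lit 13) (.e (nat_lit 65619) (nat_lit 10) (.e (nat_lit 344117) (nat_lit 21) (.e (nat_lit 516099) (nat_lit 0) .nil)))) (.g (nat_lit 0) (.e (nat_lit 412566) (nat_lit 0) .nil) .nil))) 
(.lf (nat_lit 597549) (.g (nat_lit 1674) (.e (nat_lit 573482) (nat_lit 13) (.e (nat_lit 65619) (nat_lit 10) (.e (nat_lit 344117) (nat_lit 21) (.e (nat_lit 516098) (nat_lit 0) (.e (nat_lit 7589) (nat_lit 406) (.e (nat_lit 73472) (nat_lit 15) (.e (nat_lit 3296) (nat_lit 202) .nil))))))) (.g (nat_lit 1) (.e (nat_lit 413220) (nat_lit 0) .nil) .nil)))) (.nd (nat_lit 9) 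
(.lf (nat_lit 597293) (.g (nat_lit 3233) (.e (nat_lit 573481) (nat_lit 13) (.e (nat_lit 65619) (nat_lit 10) (.e (nat_lit 344129) (nat_lit 26) (.e (nat_lit 557070) (nat_lit 9) (.e (nat_lit 253) (nat_lit 21) .nil))))) (.g (nat_lit 0) (.e (nat_lit 412868) (nat_lit 0) .nil) .nil))) 
(.lf (nat_lit 597805) (.g (nat_lit 2565) (.e (nat_lit 573482) (nat_lit 13) (.e (nat_lit 65619) (nat_lit 10) (.e (nat_lit 344129) (nat_lit 26) (.e (nat_lit 557072) (nat_lit 9) (.e (nat_lit 290) (nat_lit 21) .nil))))) (.g (nat_lit 0) (.e (nat_lit 413500) (nat_lit 0) .nil) .nil))))) (.nd (nat_lit 8) (.nd (nat_lit 9) 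
(.lf (nat_lit 597165) (.g (nat_lit 3552) (.e (nat_lit 573481) (nat_lit 13) (.e (nat_lit 65619) (nat_lit 10) (.e (nat_lit 344117) (nat_lit 21) (.e (nat_lit 516151) (nat_lit 9) (.e (nat_lit 426041) (nat_lit 0) .nil))))) (.g (nat_lit 0) (.e (nat_lit 412705) (nat_lit 0) .nil) .nil))) 
(.lf (nat_lit 597677) (.g (nat_lit 3657) (.e (nat_lit 573482) (nat_lit 13) (.e (nat_lit 65619) (nat_lit 10) (.e (nat_lit 344117) (nat_lit 21) (.e (nat_lit 516151) (nat_lit 9) (.e (nat_lit 426042) (nat_lit 0) (.e (nat_lit 3406) (nat_lit 212) (.e (nat_lit 655375) (nat_lit 3) (.e (nat_lit 163978) (nat_lit 30) .nil)))))))) (.g (nat_lit 1) (.e (nat_lit 413351) (nat_lit 0) .nil) .nil)))) 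
(.nd (nat_lit 9) 
(.lf (nat_lit 597421) (.g (nat_lit 3058) (.e (nat_lit 573482) (nat_lit 13) (.e (nat_lit 65604) (nat_lit 9) (.e (nat_lit 336013) (nat_lit 2) (.e (nat_lit 90170) (nat_lit 13) (.e (nat_lit 172046) (nat_lit 0) (.e (nat_lit 2458) (nat_lit 157) (.e (nat_lit 5546) (nat_lit 306) (.e (nat_lit 2610) (nat_lit 163) (.e (nat_lit 163977) (nat_lit 30) .nil))))))))) (.g (nat_lit 1) (.e (nat_lit 413084) (nat_lit 0) .nil) .nil))) 
(.lf (nat_lit 597933) (.g (nat_lit 5592) (.e (nat_lit 573484) (nat_lit 13) (.e (nat_lit 65610) (nat_lit 10) (.e (nat_lit 344117) (nat_lit 21) (.e (nat_lit 516106) (nat_lit 0) (.e (nat_lit 6986) (nat_lit 377) (.e (nat_lit 2781) (nat_lit 178) (.e (nat_lit 286765) (nat_lit 15) (.e (nat_lit 3307) (nat_lit 202) .nil)))))))) (.g (nat_lit 1) (.e (nat_lit 413705) (nat_lit 0) .nil) .nil)))))) 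
(.nd (nat_lit 7) (.nd (nat_lit 8) (.nd (nat_lit 9) 
(.lf (nat_lit 597101) (.g (nat_lit 4137) (.e (nat_lit 573481) (nat_lit 13) (.e (nat_lit 65619) (nat_lit 10) (.e (nat_lit 344117) (nat_lit 21) (.e (nat_lit 516145) (nat_lit 9) (.e (nat_lit 426375) (nat_lit 15) (.e (nat_lit 2057) (nat_lit 142) (.e (nat_lit 704589) (nat_lit 3) (.e (nat_lit 163976) (nat_lit 30) .nil)))))))) (.g (nat_lit 1) (.e (nat_lit 412641) (nat_lit 0) .nil) .nil))) 
(.lf (nat_lit 597613) (.g (nat_lit 3505) (.e (nat_lit 573482) (nat_lit 13) (.e (nat_lit 65619) (nat_lit 10) (.e (nat_lit 344117) (nat_lit 21) (.e (nat_lit 516145) (nat_lit 9) (.e (nat_lit 426399) (nat_lit 15) (.e (nat_lit 2056) (nat_lit 142) (.e (nat_lit 704589) (nat_lit 3) (.e (nat_lit 163979) (nat_lit 30) .nil)))))))) (.g (nat_lit 1) (.e (nat_lit 413287) (nat_lit 0) .nil) .nil)))) 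
(.nd (nat_lit 9) 
(.lf (nat_lit 597357) (.g (nat_lit 4104) (.e (nat_lit 573482) (nat_lit 13) (.e (nat_lit 65598) (nat_lit 9) (.e (nat_lit 336013) (nat_lit 2) (.e (nat_lit 90134) (nat_lit 9) (.e (nat_lit 3097) (nat_lit 192) .nil))))) (.g (nat_lit 0) (.e (nat_lit 413014) (nat_lit 0) .nil) .nil))) 
(.lf (nat_lit 597869) (.g (nat_lit 1014) (.e (nat_lit 573482) (nat_lit 13) (.e (nat_lit 65628) (nat_lit 14) (.e (nat_lit 401428) (nat_lit 3) (.e (nat_lit 204859) (nat_lit 26) .nil)))) (.g (nat_lit 0) (.e (nat_lit 413585) (nat_lit 0) .nil) .nil))))) (.nd (nat_lit 8) (.nd (nat_lit 9) 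
(.lf (nat_lit 597229) (.g (nat_lit 3072) (.e (nat_lit 573481) (nat_lit 13) (.e (nat_lit 65619) (nat_lit 10) (.e (nat_lit 344117) (nat_lit 21) (.e (nat_lit 516153) (nat_lit 9) (.e (nat_lit 426412) (nat_lit 15) (.e (nat_lit 2059) (nat_lit 142) (.e (nat_lit 704589) (nat_lit 3) (.e (nat_lit 163975) (nat_lit 30) .nil)))))))) (.g (nat_lit 1) (.e (nat_lit 412772) (nat_lit 0) .nil) .nil))) 
(.lf (nat_lit 597741) (.g (nat_lit 2273) (.e (nat_lit 573482) (nat_lit 13) (.e (nat_lit 65619) (nat_lit 10) (.e (nat_lit 344117) (nat_lit 21) (.e (nat_lit 516160) (nat_lit 10) (.e (nat_lit 434209) (nat_lit 18) (.e (nat_lit 5547) (nat_lit 306) (.e (nat_lit 2601) (nat_lit 163) (.e (nat_lit 163974) (nat_lit 30) .nil)))))))) (.g (nat_lit 1) (.e (nat_lit 413415) (nat_lit 0) .nil) .nil)))) 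
(.nd (nat_lit 9) 
(.lf (nat_lit 597485) (.g (nat_lit 3714) (.e (nat_lit 573482) (nat_lit 13) (.e (nat_lit 65604) (nat_lit 9) (.e (nat_lit 336013) (nat_lit 2) (.e (nat_lit 90170) (nat_lit 13) (.e (nat_lit 172136) (nat_lit 15) (.e (nat_lit 2057) (nat_lit 142) (.e (nat_lit 704589) (nat_lit 3) (.e (nat_lit 163979) (nat_lit 30) .nil)))))))) (.g (nat_lit 1) (.e (nat_lit 413148) (nat_lit 0) .nil) .nil))) 
(.lf (nat_lit 597997) (.g (nat_lit 2903) (.e (nat_lit 573484) (nat_lit 13) (.e (nat_lit 65610) (nat_lit 10) (.e (nat_lit 344117) (nat_lit 21) (.e (nat_lit 516151) (nat_lit 9) (.e (nat_lit 426045) (nat_lit 0) .nil))))) (.g (nat_lit 0) (.e (nat_lit 413860) (nat_lit 0) .nil) .nil)))))))) (.nd (nat_lit 5) (.nd (nat_lit 6) (.nd (nat_lit 7) (.nd (nat_lit 8) (.nd (nat_lit 9) 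
(.lf (nat_lit 597021) (.g (nat_lit 5346) (.e (nat_lit 573481) (nat_lit 13) (.e (nat_lit 65610) (nat_lit 10) (.e (nat_lit 344117) (nat_lit 21) (.e (nat_lit 516151) (nat_lit 9) (.e (nat_lit 426412) (nat_lit 15) (.e (nat_lit 2059) (nat_lit 142) (.e (nat_lit 704589) (nat_lit 3) (.e (nat_lit 163976) (nat_lit 30) .nil)))))))) (.g (nat_lit 1) (.e (nat_lit 412544) (nat_lit 0) .nil) .nil))) 
(.lf (nat_lit 597533) (.g (nat_lit 2773) (.e (nat_lit 573482) (nat_lit 13) (.e (nat_lit 65610) (nat_lit 10) (.e (nat_lit 344117) (nat_lit 21) (.e (nat_lit 516151) (nat_lit 9) (.e (nat_lit 426412) (nat_lit 15) .nil))))) (.g (nat_lit 0) (.e (nat_lit 413203) (nat_lit 0) .nil) .nil)))) (.nd (nat_lit 9) 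
(.lf (nat_lit 597277) (.g (nat_lit 3219) (.e (nat_lit 573481) (nat_lit 13) (.e (nat_lit 65619) (nat_lit 10) (.e (nat_lit 344117) (nat_lit 21) (.e (nat_lit 516184) (nat_lit 16) (.e (nat_lit 491548) (nat_lit 9) (.e (nat_lit 336306) (nat_lit 15) (.e (nat_lit 3298) (nat_lit 202) .nil))))))) (.g (nat_lit 1) (.e (nat_lit 412837) (nat_lit 0) .nil) .nil))) 
(.lf (nat_lit 597789) (.g (nat_lit 1937) (.e (nat_lit 573482) (nat_lit 13) (.e (nat_lit 65619) (nat_lit 10) (.e (nat_lit 344129) (nat_lit 26) (.e (nat_lit 557066) (nat_lit 9) (.e (nat_lit 227) (nat_lit 21) .nil))))) (.g (nat_lit 0) (.e (nat_lit 413473) (nat_lit 0) .nil) .nil))))) (.nd (nat_lit 8) (.nd (nat_lit 9) 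
(.lf (nat_lit 597149) (.g (nat_lit 2195) (.e (nat_lit 573481) (nat_lit 13) (.e (nat_lit 65619) (nat_lit 10) (.e (nat_lit 344117) (nat_lit 21) (.e (nat_lit 516147) (nat_lit 9) (.e (nat_lit 426420) (nat_lit 15) (.e (nat_lit 2059) (nat_lit 142) (.e (nat_lit 704589) (nat_lit 3) (.e (nat_lit 163976) (nat_lit 30) .nil)))))))) (.g (nat_lit 1) (.e (nat_lit 412689) (nat_lit 0) .nil) .nil))) 
(.lf (nat_lit 597661) (.g (nat_lit 3484) (.e (nat_lit 573482) (nat_lit 13) (.e (nat_lit 65619) (nat_lit 10) (.e (nat_lit 344117) (nat_lit 21) (.e (nat_lit 516151) (nat_lit 9) (.e (nat_lit 426041) (nat_lit 0) .nil))))) (.g (nat_lit 0) (.e (nat_lit 413335) (nat_lit 0) .nil) .nil)))) (.nd (nat_lit 9) 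
(.lf (nat_lit 597405) (.g (nat_lit 3029) (.e (nat_lit 573482) (nat_lit 13) (.e (nat_lit 65604) (nat_lit 9) (.e (nat_lit 336013) (nat_lit 2) (.e (nat_lit 90170) (nat_lit 13) (.e (nat_lit 172038) (nat_lit 0) (.e (nat_lit 3402) (nat_lit 211) (.e (nat_lit 647180) (nat_lit 3) (.e (nat_lit 163979) (nat_lit 30) .nil)))))))) (.g (nat_lit 1) (.e (nat_lit 413068) (nat_lit 0) .nil) .nil))) 
(.lf (nat_lit 597917) (.g (nat_lit 2404) (.e (nat_lit 573484) (nat_lit 13) (.e (nat_lit 65610) (nat_lit 10) (.e (nat_lit 344115) (nat_lit 20) (.e (nat_lit 515840) (nat_lit 6) (.e (nat_lit 286748) (nat_lit 9) (.e (nat_lit 336295) (nat_lit 15) (.e (nat_lit 3305) (nat_lit 202) .nil))))))) (.g (nat_lit 1) (.e (nat_lit 413682) (nat_lit 0) .nil) .nil)))))) 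
(.nd (nat_lit 7) (.nd (nat_lit 8) (.nd (nat_lit 9) 
(.lf (nat_lit 597085) (.g (nat_lit 4404) (.e (nat_lit 573481) (nat_lit 13) (.e (nat_lit 65619) (nat_lit 10) (.e (nat_lit 344117) (nat_lit 21) (.e (nat_lit 516145) (nat_lit 9) (.e (nat_lit 426352) (nat_lit 15) (.e (nat_lit 7936) (nat_lit 142) (.e (nat_lit 704589) (nat_lit 3) (.e (nat_lit 163975) (nat_lit 30) .nil)))))))) (.g (nat_lit 1) (.e (nat_lit 412625) (nat_lit 0) .nil) .nil))) 
(.lf (nat_lit 597597) (.g (nat_lit 3425) (.e (nat_lit 573482) (nat_lit 13) (.e (nat_lit 65619) (nat_lit 10) (.e (nat_lit 344117) (nat_lit 21) (.e (nat_lit 516145) (nat_lit 9) (.e (nat_lit 426362) (nat_lit 15) .nil))))) (.g (nat_lit 0) (.e (nat_lit 413271) (nat_lit 0) .nil) .nil)))) (.nd (nat_lit 9) 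
(.lf (nat_lit 597341) (.g (nat_lit 2233) (.e (nat_lit 573481) (nat_lit 13) (.e (nat_lit 65630) (nat_lit 14) (.e (nat_lit 401428) (nat_lit 3) (.e (nat_lit 204866) (nat_lit 28) (.e (nat_lit 360192) (nat_lit 0) (.e (nat_lit 3298) (nat_lit 202) .nil)))))) (.g (nat_lit 1) (.e (nat_lit 412946) (nat_lit 0) .nil) .nil))) 
(.lf (nat_lit 597853) (.g (nat_lit 2724) (.e (nat_lit 573482) (nat_lit 13) (.e (nat_lit 65619) (nat_lit 10) (.e (nat_lit 344129) (nat_lit 26) (.e (nat_lit 557087) (nat_lit 11) (.e (nat_lit 24637) (nat_lit 9) (.e (nat_lit 336293) (nat_lit 15) (.e (nat_lit 3304) (nat_lit 202) .nil))))))) (.g (nat_lit 1) (.e (nat_lit 413550) (nat_lit 0) .nil) .nil))))) (.nd (nat_lit 8) (.nd (nat_lit 9) 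
(.lf (nat_lit 597213) (.g (nat_lit 3811) (.e (nat_lit 573481) (nat_lit 13) (.e (nat_lit 65619) (nat_lit 10) (.e (nat_lit 344117) (nat_lit 21) (.e (nat_lit 516151) (nat_lit 9) (.e (nat_lit 426380) (nat_lit 15) .nil))))) (.g (nat_lit 0) (.e (nat_lit 412756) (nat_lit 0) .nil) .nil))) 
(.lf (nat_lit 597725) (.g (nat_lit 3738) (.e (nat_lit 573482) (nat_lit 13) (.e (nat_lit 65619) (nat_lit 10) (.e (nat_lit 344117) (nat_lit 21) (.e (nat_lit 516159) (nat_lit 10) (.e (nat_lit 434209) (nat_lit 18) (.e (nat_lit 5546) (nat_lit 306) (.e (nat_lit 2611) (nat_lit 163) (.e (nat_lit 163977) (nat_lit 30) .nil)))))))) (.g (nat_lit 1) (.e (nat_lit 413399) (nat_lit 0) .nil) .nil)))) 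
(.nd (nat_lit 9) 
(.lf (nat_lit 597469) (.g (nat_lit 3554) (.e (nat_lit 573482) (nat_lit 13) (.e (nat_lit 65604) (nat_lit 9) (.e (nat_lit 336013) (nat_lit 2) (.e (nat_lit 90170) (nat_lit 13) (.e (nat_lit 172068) (nat_lit 4) (.e (nat_lit 229663) (nat_lit 240) (.e (nat_lit 2604) (nat_lit 163) (.e (nat_lit 163977) (nat_lit 30) .nil)))))))) (.g (nat_lit 1) (.e (nat_lit 413132) (nat_lit 0) .nil) .nil))) 
(.lf (nat_lit 597981) (.g (nat_lit 3715) (.e (nat_lit 573484) (nat_lit 13) (.e (nat_lit 65610) (nat_lit 10) (.e (nat_lit 344117) (nat_lit 21) (.e (nat_lit 516151) (nat_lit 9) (.e (nat_lit 426038) (nat_lit 0) (.e (nat_lit 2458) (nat_lit 157) (.e (nat_lit 5547) (nat_lit 306) (.e (nat_lit 2610) (nat_lit 163) (.e (nat_lit 163977) (nat_lit 30) .nil))))))))) (.g (nat_lit 1) (.e (nat_lit 413827) (nat_lit 0) .nil) .nil))))))) 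
(.nd (nat_lit 6) (.nd (nat_lit 7) (.nd (nat_lit 8) (.nd (nat_lit 9) 
(.lf (nat_lit 597053) (.g (nat_lit 3755) (.e (nat_lit 573481) (nat_lit 13) (.e (nat_lit 65619) (nat_lit 10) (.e (nat_lit 344117) (nat_lit 21) (.e (nat_lit 516139) (nat_lit 7) (.e (nat_lit 409642) (nat_lit 17) (.e (nat_lit 294966) (nat_lit 15) (.e (nat_lit 3298) (nat_lit 202) .nil))))))) (.g (nat_lit 1) (.e (nat_lit 412593) (nat_lit 0) .nil) .nil))) 
(.lf (nat_lit 597565) (.g (nat_lit 2654) (.e (nat_lit 573482) (nat_lit 13) (.e (nat_lit 65619) (nat_lit 10) (.e (nat_lit 344117) (nat_lit 21) (.e (nat_lit 516106) (nat_lit 0) (.e (nat_lit 7554) (nat_lit 402) .nil))))) (.g (nat_lit 0) (.e (nat_lit 413236) (nat_lit 0) .nil) .nil)))) (.nd (nat_lit 9) 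
(.lf (nat_lit 597309) (.g (nat_lit 1224) (.e (nat_lit 573481) (nat_lit 13) (.e (nat_lit 65624) (nat_lit 12) (.e (nat_lit 385074) (nat_lit 31) (.e (nat_lit 573491) (nat_lit 15) .nil)))) (.g (nat_lit 0) (.e (nat_lit 412900) (nat_lit 0) .nil) .nil))) 
(.lf (nat_lit 597821) (.g (nat_lit 2708) (.e (nat_lit 573482) (nat_lit 13) (.e (nat_lit 65619) (nat_lit 10) (.e (nat_lit 344129) (nat_lit 26) (.e (nat_lit 557087) (nat_lit 11) (.e (nat_lit 24589) (nat_lit 0) .nil))))) (.g (nat_lit 0) (.e (nat_lit 413516) (nat_lit 0) .nil) .nil))))) (.nd (nat_lit 8) (.nd (nat_lit 9) 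
(.lf (nat_lit 597181) (.g (nat_lit 3396) (.e (nat_lit 573481) (nat_lit 13) (.e (nat_lit 65619) (nat_lit 10) (.e (nat_lit 344117) (nat_lit 21) (.e (nat_lit 516151) (nat_lit 9) (.e (nat_lit 426042) (nat_lit 0) (.e (nat_lit 3407) (nat_lit 212) (.e (nat_lit 655375) (nat_lit 3) (.e (nat_lit 163978) (nat_lit 30) .nil)))))))) (.g (nat_lit 1) (.e (nat_lit 412721) (nat_lit 0) .nil) .nil))) 
(.lf (nat_lit 597693) (.g (nat_lit 4441) (.e (nat_lit 573482) (nat_lit 13) (.e (nat_lit 65619) (nat_lit 10) (.e (nat_lit 344117) (nat_lit 21) (.e (nat_lit 516151) (nat_lit 9) (.e (nat_lit 426097) (nat_lit 1) (.e (nat_lit 164348) (nat_lit 240) (.e (nat_lit 2611) (nat_lit 163) (.e (nat_lit 163977) (nat_lit 30) .nil)))))))) (.g (nat_lit 1) (.e (nat_lit 413367) (nat_lit 0) .nil) .nil)))) 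
(.nd (nat_lit 9) 
(.lf (nat_lit 597437) (.g (nat_lit 4281) (.e (nat_lit 573482) (nat_lit 13) (.e (nat_lit 65604) (nat_lit 9) (.e (nat_lit 336013) (nat_lit 2) (.e (nat_lit 90170) (nat_lit 13) (.e (nat_lit 172049) (nat_lit 0) (.e (nat_lit 3406) (nat_lit 212) (.e (nat_lit 655375) (nat_lit 3) (.e (nat_lit 163977) (nat_lit 30) .nil)))))))) (.g (nat_lit 1) (.e (nat_lit 413100) (nat_lit 0) .nil) .nil))) 
(.lf (nat_lit 597949) (.g (nat_lit 3248) (.e (nat_lit 573484) (nat_lit 13) (.e (nat_lit 65610) (nat_lit 10) (.e (nat_lit 344117) (nat_lit 21) (.e (nat_lit 516139) (nat_lit 7) (.e (nat_lit 409625) (nat_lit 10) .nil))))) (.g (nat_lit 0) (.e (nat_lit 413736) (nat_lit 0) .nil) .nil)))))) (.nd (nat_lit 7) (.nd (nat_lit 8) (.nd (nat_lit 9) 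
(.lf (nat_lit 597117) (.g (nat_lit 3535) (.e (nat_lit 573481) (nat_lit 13) (.e (nat_lit 65619) (nat_lit 10) (.e (nat_lit 344117) (nat_lit 21) (.e (nat_lit 516145) (nat_lit 9) (.e (nat_lit 426393) (nat_lit 15) (.e (nat_lit 2059) (nat_lit 142) (.e (nat_lit 704589) (nat_lit 3) (.e (nat_lit 163976) (nat_lit 30) .nil)))))))) (.g (nat_lit 1) (.e (nat_lit 412657) (nat_lit 0) .nil) .nil))) 
(.lf (nat_lit 597629) (.g (nat_lit 3707) (.e (nat_lit 573482) (nat_lit 13) (.e (nat_lit 65619) (nat_lit 10) (.e (nat_lit 344117) (nat_lit 21) (.e (nat_lit 516151) (nat_lit 9) (.e (nat_lit 426018) (nat_lit 0) (.e (nat_lit 2536) (nat_lit 157) (.e (nat_lit 5543) (nat_lit 306) (.e (nat_lit 2611) (nat_lit 163) (.e (nat_lit 163977) (nat_lit 30) .nil))))))))) (.g (nat_lit 1) (.e (nat_lit 413303) (nat_lit 0) .nil) .nil)))) 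
(.nd (nat_lit 9) 
(.lf (nat_lit 597373) (.g (nat_lit 2718) (.e (nat_lit 573482) (nat_lit 13) (.e (nat_lit 65604) (nat_lit 9) (.e (nat_lit 336013) (nat_lit 2) (.e (nat_lit 90134) (nat_lit 9) (.e (nat_lit 2884) (nat_lit 184) (.e (nat_lit 426025) (nat_lit 0) (.e (nat_lit 3397) (nat_lit 211) (.e (nat_lit 647181) (nat_lit 3) (.e (nat_lit 163977) (nat_lit 30) .nil))))))))) (.g (nat_lit 1) (.e (nat_lit 413031) (nat_lit 0) .nil) .nil))) 
(.lf (nat_lit 597885) (.g (nat_lit 2832) (.e (nat_lit 573483) (nat_lit 13) (.e (nat_lit 65604) (nat_lit 9) (.e (nat_lit 336013) (nat_lit 2) (.e (nat_lit 90170) (nat_lit 13) (.e (nat_lit 172046) (nat_lit 0) .nil))))) (.g (nat_lit 0) (.e (nat_lit 413621) (nat_lit 0) .nil) .nil))))) (.nd (nat_lit 8) (.nd (nat_lit 9) 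
(.lf (nat_lit 597245) (.g (nat_lit 2226) (.e (nat_lit 573481) (nat_lit 13) (.e (nat_lit 65619) (nat_lit 10) (.e (nat_lit 344117) (nat_lit 21) (.e (nat_lit 516170) (nat_lit 13) (.e (nat_lit 458774) (nat_lit 18) .nil))))) (.g (nat_lit 0) (.e (nat_lit 412793) (nat_lit 0) .nil) .nil))) 
(.lf (nat_lit 597757) (.g (nat_lit 4894) (.e (nat_lit 573482) (nat_lit 13) (.e (nat_lit 65619) (nat_lit 10) (.e (nat_lit 344117) (nat_lit 21) (.e (nat_lit 516160) (nat_lit 10) (.e (nat_lit 434272) (nat_lit 38) (.e (nat_lit 655375) (nat_lit 3) (.e (nat_lit 163977) (nat_lit 30) .nil))))))) (.g (nat_lit 1) (.e (nat_lit 413431) (nat_lit 0) .nil) .nil)))) (.nd (nat_lit 9) 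
(.lf (nat_lit 597501) (.g (nat_lit 4004) (.e (nat_lit 573482) (nat_lit 13) (.e (nat_lit 65604) (nat_lit 9) (.e (nat_lit 336028) (nat_lit 3) (.e (nat_lit 98359) (nat_lit 26) (.e (nat_lit 426043) (nat_lit 0) (.e (nat_lit 3406) (nat_lit 212) (.e (nat_lit 655375) (nat_lit 3) (.e (nat_lit 163977) (nat_lit 30) .nil)))))))) (.g (nat_lit 1) (.e (nat_lit 413167) (nat_lit 0) .nil) .nil))) 
(.lf (nat_lit 598013) (.g (nat_lit 4065) (.e (nat_lit 573484) (nat_lit 13) (.e (nat_lit 65610) (nat_lit 10) (.e (nat_lit 344117) (nat_lit 21) (.e (nat_lit 516151) (nat_lit 9) (.e (nat_lit 426050) (nat_lit 0) (.e (nat_lit 2515) (nat_lit 157) (.e (nat_lit 5448) (nat_lit 306) (.e (nat_lit 2612) (nat_lit 163) (.e (nat_lit 163978) (nat_lit 30) .nil))))))))) (.g (nat_lit 1) (.e (nat_lit 413884) (nat_lit 0) .nil) .nil))))))))))) 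
(.nd (nat_lit 2) (.nd (nat_lit 3) (.nd (nat_lit 4) (.nd (nat_lit 5) (.nd (nat_lit 6) 
(.nd (nat_lit 7) (.nd (nat_lit 8) (.nd (nat_lit 9) 
(.lf (nat_lit 596995) (.g (nat_lit 2872) (.e (nat_lit 573481) (nat_lit 13) (.e (nat_lit 65604) (nat_lit 9) (.e (nat_lit 336028) (nat_lit 3) (.e (nat_lit 98384) (nat_lit 32) (.e (nat_lit 475201) (nat_lit 40) (.e (nat_lit 712448) (nat_lit 3) (.e (nat_lit 163976) (nat_lit 30) .nil))))))) (.g (nat_lit 1) (.e (nat_lit 412518) (nat_lit 0) .nil) .nil))) 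
(.lf (nat_lit 597507) (.g (nat_lit 3361) (.e (nat_lit 573482) (nat_lit 13) (.e (nat_lit 65604) (nat_lit 9) (.e (nat_lit 336028) (nat_lit 3) (.e (nat_lit 98365) (nat_lit 26) (.e (nat_lit 426107) (nat_lit 1) (.e (nat_lit 164347) (nat_lit 240) (.e (nat_lit 2599) (nat_lit 163) (.e (nat_lit 163979) (nat_lit 30) .nil)))))))) (.g (nat_lit 1) (.e (nat_lit 413174) (nat_lit 0) .nil) .nil)))) 
(.nd (nat_lit 9) 
(.lf (nat_lit 597251) (.g (nat_lit 4652) (.e (nat_lit 573481) (nat_lit 13) (.e (nat_lit 65619) (nat_lit 10) (.e (nat_lit 344117) (nat_lit 21) (.e (nat_lit 516179) (nat_lit 15) (.e (nat_lit 475196) (nat_lit 40) (.e (nat_lit 704590) (nat_lit 3) (.e (nat_lit 163975) (nat_lit 30) .nil))))))) (.g (nat_lit 1) (.e (nat_lit 412811) (nat_lit 0) .nil) .nil))) 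
(.lf (nat_lit 597763) (.g (nat_lit 2100) (.e (nat_lit 573482) (nat_lit 13) (.e (nat_lit 65619) (nat_lit 10) (.e (nat_lit 344117) (nat_lit 21) (.e (nat_lit 516171) (nat_lit 13) (.e (nat_lit 458774) (nat_lit 18) .nil))))) (.g (nat_lit 0) (.e (nat_lit 413437) (nat_lit 0) .nil) .nil))))) (.nd (nat_lit 8) (.nd (nat_lit 9) 
(.lf (nat_lit 597123) (.g (nat_lit 4316) (.e (nat_lit 573481) (nat_lit 13) (.e (nat_lit 65619) (nat_lit 10) (.e (nat_lit 344117) (nat_lit 21) (.e (nat_lit 516145) (nat_lit 9) (.e (nat_lit 426420) (nat_lit 15) (.e (nat_lit 2056) (nat_lit 142) (.e (nat_lit 704589) (nat_lit 3) (.e (nat_lit 163975) (nat_lit 30) .nil)))))))) (.g (nat_lit 1) (.e (nat_lit 412663) (nat_lit 0) .nil) .nil))) 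
(.lf (nat_lit 597635) (.g (nat_lit 3644) (.e (nat_lit 573482) (nat_lit 13) (.e (nat_lit 65619) (nat_lit 10) (.e (nat_lit 344117) (nat_lit 21) (.e (nat_lit 516151) (nat_lit 9) (.e (nat_lit 426036) (nat_lit 0) .nil))))) (.g (nat_lit 0) (.e (nat_lit 413309) (nat_lit 0) .nil) .nil)))) (.nd (nat_lit 9) 
(.lf (nat_lit 597379) (.g (nat_lit 2753) (.e (nat_lit 573482) (nat_lit 13) (.e (nat_lit 65604) (nat_lit 9) (.e (nat_lit 336013) (nat_lit 2) (.e (nat_lit 90134) (nat_lit 9) (.e (nat_lit 3098) (nat_lit 192) (.e (nat_lit 491550) (nat_lit 9) (.e (nat_lit 336306) (nat_lit 15) (.e (nat_lit 3298) (nat_lit 202) .nil)))))))) (.g (nat_lit 1) (.e (nat_lit 413042) (nat_lit 0) .nil) .nil))) 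
(.lf (nat_lit 597891) (.g (nat_lit 3878) (.e (nat_lit 573483) (nat_lit 13) (.e (nat_lit 65610) (nat_lit 10) (.e (nat_lit 344117) (nat_lit 21) (.e (nat_lit 516179) (nat_lit 15) (.e (nat_lit 475199) (nat_lit 40) (.e (nat_lit 704589) (nat_lit 3) (.e (nat_lit 163976) (nat_lit 30) .nil))))))) (.g (nat_lit 1) (.e (nat_lit 413627) (nat_lit 0) .nil) .nil)))))) 
(.nd (nat_lit 7) (.nd (nat_lit 8) (.nd (nat_lit 9) 
(.lf (nat_lit 597059) (.g (nat_lit 1546) (.e (nat_lit 573481) (nat_lit 13) (.e (nat_lit 65619) (nat_lit 10) (.e (nat_lit 344117) (nat_lit 21) (.e (nat_lit 516144) (nat_lit 9) .nil)))) (.g (nat_lit 0) (.e (nat_lit 412599) (nat_lit 0) .nil) .nil))) 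
(.lf (nat_lit 597571) (.g (nat_lit 2926) (.e (nat_lit 573482) (nat_lit 13) (.e (nat_lit 65619) (nat_lit 10) (.e (nat_lit 344117) (nat_lit 21) (.e (nat_lit 516143) (nat_lit 9) (.e (nat_lit 426143) (nat_lit 4) (.e (nat_lit 229663) (nat_lit 240) (.e (nat_lit 2612) (nat_lit 163) (.e (nat_lit 163977) (nat_lit 30) .nil)))))))) (.g (nat_lit 1) (.e (nat_lit 413245) (nat_lit 0) .nil) .nil)))) 
(.nd (nat_lit 9) 
(.lf (nat_lit 597315) (.g (nat_lit 2076) (.e (nat_lit 573481) (nat_lit 13) (.e (nat_lit 65628) (nat_lit 14) (.e (nat_lit 401425) (nat_lit 2) (.e (nat_lit 196681) (nat_lit 17) (.e (nat_lit 131120) (nat_lit 12) .nil))))) (.g (nat_lit 0) (.e (nat_lit 412915) (nat_lit 0) .nil) .nil))) 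
(.lf (nat_lit 597827) (.g (nat_lit 2659) (.e (nat_lit 573482) (nat_lit 13) (.e (nat_lit 65619) (nat_lit 10) (.e (nat_lit 344129) (nat_lit 26) (.e (nat_lit 557087) (nat_lit 11) (.e (nat_lit 24597) (nat_lit 1) (.e (nat_lit 57771) (nat_lit 227) (.e (nat_lit 2599) (nat_lit 163) (.e (nat_lit 163979) (nat_lit 30) .nil)))))))) (.g (nat_lit 1) (.e (nat_lit 413522) (nat_lit 0) .nil) .nil))))) 
(.nd (nat_lit 8) (.nd (nat_lit 9) 
(.lf (nat_lit 597187) (.g (nat_lit 3248) (.e (nat_lit 573481) (nat_lit 13) (.e (nat_lit 65619) (nat_lit 10) (.e (nat_lit 344117) (nat_lit 21) (.e (nat_lit 516151) (nat_lit 9) (.e (nat_lit 426042) (nat_lit 0) (.e (nat_lit 3409) (nat_lit 212) (.e (nat_lit 655373) (nat_lit 3) (.e (nat_lit 163973) (nat_lit 30) .nil)))))))) (.g (nat_lit 1) (.e (nat_lit 412727) (nat_lit 0) .nil) .nil))) 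
(.lf (nat_lit 597699) (.g (nat_lit 3376) (.e (nat_lit 573482) (nat_lit 13) (.e (nat_lit 65619) (nat_lit 10) (.e (nat_lit 344117) (nat_lit 21) (.e (nat_lit 516151) (nat_lit 9) (.e (nat_lit 426104) (nat_lit 1) (.e (nat_lit 164346) (nat_lit 240) (.e (nat_lit 2599) (nat_lit 163) (.e (nat_lit 163979) (nat_lit 30) .nil)))))))) (.g (nat_lit 1) (.e (nat_lit 413373) (nat_lit 0) .nil) .nil)))) 
(.nd (nat_lit 9) 
(.lf (nat_lit 597443) (.g (nat_lit 3386) (.e (nat_lit 573482) (nat_lit 13) (.e (nat_lit 65604) (nat_lit 9) (.e (nat_lit 336013) (nat_lit 2) (.e (nat_lit 90170) (nat_lit 13) (.e (nat_lit 172052) (nat_lit 0) .nil))))) (.g (nat_lit 0) (.e (nat_lit 413106) (nat_lit 0) .nil) .nil))) 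
(.lf (nat_lit 597955) (.g (nat_lit 2200) (.e (nat_lit 573484) (nat_lit 13) (.e (nat_lit 65610) (nat_lit 10) (.e (nat_lit 344117) (nat_lit 21) (.e (nat_lit 516145) (nat_lit 9) (.e (nat_lit 425994) (nat_lit 0) .nil))))) (.g (nat_lit 0) (.e (nat_lit 413750) (nat_lit 0) .nil) .nil))))))) (.nd (nat_lit 6) (.nd (nat_lit 7) (.nd (nat_lit 8) (.nd (nat_lit 9) 
(.lf (nat_lit 597027) (.g (nat_lit 3197) (.e (nat_lit 573481) (nat_lit 13) (.e (nat_lit 65613) (nat_lit 10) (.e (nat_lit 344120) (nat_lit 21) (.e (nat_lit 516179) (nat_lit 15) (.e (nat_lit 475199) (nat_lit 40) (.e (nat_lit 704589) (nat_lit 3) (.e (nat_lit 163975) (nat_lit 30) .nil))))))) (.g (nat_lit 1) (.e (nat_lit 412550) (nat_lit 0) .nil) .nil))) 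
(.lf (nat_lit 597539) (.g (nat_lit 491) (.e (nat_lit 573482) (nat_lit 13) (.e (nat_lit 65619) (nat_lit 10) (.e (nat_lit 344107) (nat_lit 19) .nil))) (.g (nat_lit 0) (.e (nat_lit 413209) (nat_lit 0) .nil) .nil)))) (.nd (nat_lit 9) 
(.lf (nat_lit 597283) (.g (nat_lit 3835) (.e (nat_lit 573481) (nat_lit 13) (.e (nat_lit 65619) (nat_lit 10) (.e (nat_lit 344118) (nat_lit 21) (.e (nat_lit 516179) (nat_lit 15) (.e (nat_lit 475199) (nat_lit 40) (.e (nat_lit 704589) (nat_lit 3) (.e (nat_lit 163975) (nat_lit 30) .nil))))))) (.g (nat_lit 1) (.e (nat_lit 412843) (nat_lit 0) .nil) .nil))) 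
(.lf (nat_lit 597795) (.g (nat_lit 1657) (.e (nat_lit 573482) (nat_lit 13) (.e (nat_lit 65619) (nat_lit 10) (.e (nat_lit 344129) (nat_lit 26) (.e (nat_lit 557066) (nat_lit 9) (.e (nat_lit 309) (nat_lit 23) .nil))))) (.g (nat_lit 0) (.e (nat_lit 413489) (nat_lit 0) .nil) .nil))))) (.nd (nat_lit 8) (.nd (nat_lit 9) 
(.lf (nat_lit 597155) (.g (nat_lit 2489) (.e (nat_lit 573481) (nat_lit 13) (.e (nat_lit 65619) (nat_lit 10) (.e (nat_lit 344117) (nat_lit 21) (.e (nat_lit 516151) (nat_lit 9) (.e (nat_lit 426022) (nat_lit 0) .nil))))) (.g (nat_lit 0) (.e (nat_lit 412695) (nat_lit 0) .nil) .nil))) 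
(.lf (nat_lit 597667) (.g (nat_lit 3388) (.e (nat_lit 573482) (nat_lit 13) (.e (nat_lit 65619) (nat_lit 10) (.e (nat_lit 344117) (nat_lit 21) (.e (nat_lit 516151) (nat_lit 9) (.e (nat_lit 426042) (nat_lit 0) (.e (nat_lit 2458) (nat_lit 157) (.e (nat_lit 5546) (nat_lit 306) (.e (nat_lit 2601) (nat_lit 163) (.e (nat_lit 163979) (nat_lit 30) .nil))))))))) (.g (nat_lit 1) (.e (nat_lit 413341) (nat_lit 0) .nil) .nil)))) 
(.nd (nat_lit 9) 
(.lf (nat_lit 597411) (.g (nat_lit 2377) (.e (nat_lit 573482) (nat_lit 13) (.e (nat_lit 65604) (nat_lit 9) (.e (nat_lit 336013) (nat_lit 2) (.e (nat_lit 90170) (nat_lit 13) (.e (nat_lit 172042) (nat_lit 0) (.e (nat_lit 2478) (nat_lit 157) (.e (nat_lit 5548) (nat_lit 306) (.e (nat_lit 2611) (nat_lit 163) (.e (nat_lit 163977) (nat_lit 30) .nil))))))))) (.g (nat_lit 1) (.e (nat_lit 413074) (nat_lit 0) .nil) .nil))) 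
(.lf (nat_lit 597923) (.g (nat_lit 2811) (.e (nat_lit 573484) (nat_lit 13) (.e (nat_lit 65610) (nat_lit 10) (.e (nat_lit 344117) (nat_lit 21) (.e (nat_lit 516097) (nat_lit 0) (.e (nat_lit 7587) (nat_lit 406) (.e (nat_lit 73472) (nat_lit 15) (.e (nat_lit 3307) (nat_lit 202) .nil))))))) (.g (nat_lit 1) (.e (nat_lit 413689) (nat_lit 0) .nil) .nil)))))) 
(.nd (nat_lit 7) (.nd (nat_lit 8) (.nd (nat_lit 9) 
(.lf (nat_lit 597091) (.g (nat_lit 3518) (.e (nat_lit 573481) (nat_lit 13) (.e (nat_lit 65619) (nat_lit 10) (.e (nat_lit 344117) (nat_lit 21) (.e (nat_lit 516145) (nat_lit 9) (.e (nat_lit 426364) (nat_lit 15) .nil))))) (.g (nat_lit 0) (.e (nat_lit 412631) (nat_lit 0) .nil) .nil))) 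
(.lf (nat_lit 597603) (.g (nat_lit 3466) (.e (nat_lit 573482) (nat_lit 13) (.e (nat_lit 65619) (nat_lit 10) (.e (nat_lit 344117) (nat_lit 21) (.e (nat_lit 516145) (nat_lit 9) (.e (nat_lit 426374) (nat_lit 15) (.e (nat_lit 2057) (nat_lit 142) (.e (nat_lit 704589) (nat_lit 3) (.e (nat_lit 163979) (nat_lit 30) .nil)))))))) (.g (nat_lit 1) (.e (nat_lit 413277) (nat_lit 0) .nil) .nil)))) 
(.nd (nat_lit 9) 
(.lf (nat_lit 597347) (.g (nat_lit 2097) (.e (nat_lit 573481) (nat_lit 13) (.e (nat_lit 65637) (nat_lit 15) (.e (nat_lit 3253) (nat_lit 197) (.e (nat_lit 532503) (nat_lit 1) (.e (nat_lit 57872) (nat_lit 264) .nil))))) (.g (nat_lit 0) (.e (nat_lit 412952) (nat_lit 0) .nil) .nil))) 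
(.lf (nat_lit 597859) (.g (nat_lit 4126) (.e (nat_lit 573482) (nat_lit 13) (.e (nat_lit 65619) (nat_lit 10) (.e (nat_lit 344183) (nat_lit 49) (.e (nat_lit 819219) (nat_lit 4) (.e (nat_lit 172082) (nat_lit 7) (.e (nat_lit 409617) (nat_lit 10) (.e (nat_lit 632) (nat_lit 50) .nil))))))) (.g (nat_lit 1) (.e (nat_lit 413557) (nat_lit 0) .nil) .nil))))) (.nd (nat_lit 8) (.nd (nat_lit 9) 
(.lf (nat_lit 597219) (.g (nat_lit 3614) (.e (nat_lit 573481) (nat_lit 13) (.e (nat_lit 65619) (nat_lit 10) (.e (nat_lit 344117) (nat_lit 21) (.e (nat_lit 516151) (nat_lit 9) (.e (nat_lit 426409) (nat_lit 15) .nil))))) (.g (nat_lit 0) (.e (nat_lit 412762) (nat_lit 0) .nil) .nil))) 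
(.lf (nat_lit 597731) (.g (nat_lit 4603) (.e (nat_lit 573482) (nat_lit 13) (.e (nat_lit 65619) (nat_lit 10) (.e (nat_lit 344117) (nat_lit 21) (.e (nat_lit 516159) (nat_lit 10) (.e (nat_lit 434209) (nat_lit 18) (.e (nat_lit 5548) (nat_lit 306) (.e (nat_lit 2611) (nat_lit 163) (.e (nat_lit 163977) (nat_lit 30) .nil)))))))) (.g (nat_lit 1) (.e (nat_lit 413405) (nat_lit 0) .nil) .nil)))) 
(.nd (nat_lit 9) 
(.lf (nat_lit 597475) (.g (nat_lit 2923) (.e (nat_lit 573482) (nat_lit 13) (.e (nat_lit 65604) (nat_lit 9) (.e (nat_lit 336013) (nat_lit 2) (.e (nat_lit 90170) (nat_lit 13) (.e (nat_lit 172069) (nat_lit 4) (.e (nat_lit 229663) (nat_lit 240) (.e (nat_lit 2604) (nat_lit 163) (.e (nat_lit 163977) (nat_lit 30) .nil)))))))) (.g (nat_lit 1) (.e (nat_lit 413138) (nat_lit 0) .nil) .nil))) 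
(.lf (nat_lit 597987) (.g (nat_lit 3347) (.e (nat_lit 573484) (nat_lit 13) (.e (nat_lit 65610) (nat_lit 10) (.e (nat_lit 344117) (nat_lit 21) (.e (nat_lit 516151) (nat_lit 9) (.e (nat_lit 426038) (nat_lit 0) (.e (nat_lit 3406) (nat_lit 212) (.e (nat_lit 655375) (nat_lit 3) (.e (nat_lit 163978) (nat_lit 30) .nil)))))))) (.g (nat_lit 1) (.e (nat_lit 413839) (nat_lit 0) .nil) .nil)))))))) 
(.nd (nat_lit 5) (.nd (nat_lit 6) (.nd (nat_lit 7) (.nd (nat_lit 8) (.nd (nat_lit 9) 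
(.lf (nat_lit 597011) (.g (nat_lit 4257) (.e (nat_lit 573481) (nat_lit 13) (.e (nat_lit 65609) (nat_lit 10) (.e (nat_lit 344117) (nat_lit 21) (.e (nat_lit 516179) (nat_lit 15) (.e (nat_lit 475199) (nat_lit 40) (.e (nat_lit 704589) (nat_lit 3) (.e (nat_lit 163976) (nat_lit 30) .nil))))))) (.g (nat_lit 1) (.e (nat_lit 412534) (nat_lit 0) .nil) .nil))) 
(.lf (nat_lit 597523) (.g (nat_lit 4422) (.e (nat_lit 573482) (nat_lit 13) (.e (nat_lit 65604) (nat_lit 9) (.e (nat_lit 336028) (nat_lit 3) (.e (nat_lit 98367) (nat_lit 27) (.e (nat_lit 434271) (nat_lit 38) (.e (nat_lit 655375) (nat_lit 3) (.e (nat_lit 163977) (nat_lit 30) .nil))))))) (.g (nat_lit 1) (.e (nat_lit 413192) (nat_lit 0) .nil) .nil)))) (.nd (nat_lit 9) 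
(.lf (nat_lit 597267) (.g (nat_lit 3024) (.e (nat_lit 573481) (nat_lit 13) (.e (nat_lit 65619) (nat_lit 10) (.e (nat_lit 344117) (nat_lit 21) (.e (nat_lit 516182) (nat_lit 15) (.e (nat_lit 475198) (nat_lit 40) (.e (nat_lit 704589) (nat_lit 3) (.e (nat_lit 163976) (nat_lit 30) .nil))))))) (.g (nat_lit 1) (.e (nat_lit 412827) (nat_lit 0) .nil) .nil))) 
(.lf (nat_lit 597779) (.g (nat_lit 3627) (.e (nat_lit 573482) (nat_lit 13) (.e (nat_lit 65619) (nat_lit 10) (.e (nat_lit 344117) (nat_lit 21) (.e (nat_lit 516185) (nat_lit 16) (.e (nat_lit 491549) (nat_lit 9) (.e (nat_lit 336260) (nat_lit 15) (.e (nat_lit 3308) (nat_lit 202) .nil))))))) (.g (nat_lit 1) (.e (nat_lit 413453) (nat_lit 0) .nil) .nil))))) (.nd (nat_lit 8) (.nd (nat_lit 9) 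
(.lf (nat_lit 597139) (.g (nat_lit 2763) (.e (nat_lit 573481) (nat_lit 13) (.e (nat_lit 65619) (nat_lit 10) (.e (nat_lit 344117) (nat_lit 21) (.e (nat_lit 516147) (nat_lit 9) (.e (nat_lit 426375) (nat_lit 15) (.e (nat_lit 2057) (nat_lit 142) (.e (nat_lit 704589) (nat_lit 3) (.e (nat_lit 163975) (nat_lit 30) .nil)))))))) (.g (nat_lit 1) (.e (nat_lit 412679) (nat_lit 0) .nil) .nil))) 
(.lf (nat_lit 597651) (.g (nat_lit 4279) (.e (nat_lit 573482) (nat_lit 13) (.e (nat_lit 65619) (nat_lit 10) (.e (nat_lit 344117) (nat_lit 21) (.e (nat_lit 516151) (nat_lit 9) (.e (nat_lit 426040) (nat_lit 0) (.e (nat_lit 2458) (nat_lit 157) (.e (nat_lit 5547) (nat_lit 306) (.e (nat_lit 2610) (nat_lit 163) (.e (nat_lit 163979) (nat_lit 30) .nil))))))))) (.g (nat_lit 1) (.e (nat_lit 413325) (nat_lit 0) .nil) .nil)))) 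
(.nd (nat_lit 9) 
(.lf (nat_lit 597395) (.g (nat_lit 2751) (.e (nat_lit 573482) (nat_lit 13) (.e (nat_lit 65604) (nat_lit 9) (.e (nat_lit 336013) (nat_lit 2) (.e (nat_lit 90170) (nat_lit 13) (.e (nat_lit 172036) (nat_lit 0) (.e (nat_lit 3401) (nat_lit 211) (.e (nat_lit 647181) (nat_lit 3) (.e (nat_lit 163979) (nat_lit 30) .nil)))))))) (.g (nat_lit 1) (.e (nat_lit 413058) (nat_lit 0) .nil) .nil))) 
(.lf (nat_lit 597907) (.g (nat_lit 1969) (.e (nat_lit 573484) (nat_lit 13) (.e (nat_lit 65598) (nat_lit 9) (.e (nat_lit 336013) (nat_lit 2) (.e (nat_lit 90189) (nat_lit 18) .nil)))) (.g (nat_lit 0) (.e (nat_lit 413663) (nat_lit 0) .nil) .nil)))))) (.nd (nat_lit 7) (.nd (nat_lit 8) (.nd (nat_lit 9) 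
(.lf (nat_lit 597075) (.g (nat_lit 2633) (.e (nat_lit 573481) (nat_lit 13) (.e (nat_lit 65619) (nat_lit 10) (.e (nat_lit 344117) (nat_lit 21) (.e (nat_lit 516144) (nat_lit 9) (.e (nat_lit 426442) (nat_lit 19) (.e (nat_lit 114432) (nat_lit 3) (.e (nat_lit 163976) (nat_lit 30) .nil))))))) (.g (nat_lit 1) (.e (nat_lit 412615) (nat_lit 0) .nil) .nil))) 
(.lf (nat_lit 597587) (.g (nat_lit 3265) (.e (nat_lit 573482) (nat_lit 13) (.e (nat_lit 65619) (nat_lit 10) (.e (nat_lit 344117) (nat_lit 21) (.e (nat_lit 516145) (nat_lit 9) (.e (nat_lit 433920) (nat_lit 1) (.e (nat_lit 164348) (nat_lit 240) (.e (nat_lit 2611) (nat_lit 163) (.e (nat_lit 163977) (nat_lit 30) .nil)))))))) (.g (nat_lit 1) (.e (nat_lit 413261) (nat_lit 0) .nil) .nil)))) 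
(.nd (nat_lit 9) 
(.lf (nat_lit 597331) (.g (nat_lit 3400) (.e (nat_lit 573481) (nat_lit 13) (.e (nat_lit 65630) (nat_lit 14) (.e (nat_lit 401425) (nat_lit 2) (.e (nat_lit 196681) (nat_lit 17) (.e (nat_lit 131106) (nat_lit 9) .nil))))) (.g (nat_lit 0) (.e (nat_lit 412936) (nat_lit 0) .nil) .nil))) 
(.lf (nat_lit 597843) (.g (nat_lit 4020) (.e (nat_lit 573482) (nat_lit 13) (.e (nat_lit 65619) (nat_lit 10) (.e (nat_lit 344129) (nat_lit 26) (.e (nat_lit 557087) (nat_lit 11) (.e (nat_lit 24625) (nat_lit 9) (.e (nat_lit 336261) (nat_lit 15) (.e (nat_lit 3308) (nat_lit 202) .nil))))))) (.g (nat_lit 1) (.e (nat_lit 413540) (nat_lit 0) .nil) .nil))))) (.nd (nat_lit 8) (.nd (nat_lit 9) 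
(.lf (nat_lit 597203) (.g (nat_lit 3633) (.e (nat_lit 573481) (nat_lit 13) (.e (nat_lit 65619) (nat_lit 10) (.e (nat_lit 344117) (nat_lit 21) (.e (nat_lit 516151) (nat_lit 9) (.e (nat_lit 426104) (nat_lit 1) (.e (nat_lit 164348) (nat_lit 240) (.e (nat_lit 2599) (nat_lit 163) (.e (nat_lit 163976) (nat_lit 30) .nil)))))))) (.g (nat_lit 1) (.e (nat_lit 412744) (nat_lit 0) .nil) .nil))) 
(.lf (nat_lit 597715) (.g (nat_lit 3452) (.e (nat_lit 573482) (nat_lit 13) (.e (nat_lit 65619) (nat_lit 10) (.e (nat_lit 344117) (nat_lit 21) (.e (nat_lit 516151) (nat_lit 9) (.e (nat_lit 426406) (nat_lit 15) .nil))))) (.g (nat_lit 0) (.e (nat_lit 413389) (nat_lit 0) .nil) .nil)))) (.nd (nat_lit 9) 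
(.lf (nat_lit 597459) (.g (nat_lit 3509) (.e (nat_lit 573482) (nat_lit 13) (.e (nat_lit 65604) (nat_lit 9) (.e (nat_lit 336013) (nat_lit 2) (.e (nat_lit 90170) (nat_lit 13) (.e (nat_lit 172060) (nat_lit 1) (.e (nat_lit 164347) (nat_lit 240) (.e (nat_lit 2599) (nat_lit 163) (.e (nat_lit 163979) (nat_lit 30) .nil)))))))) (.g (nat_lit 1) (.e (nat_lit 413122) (nat_lit 0) .nil) .nil))) 
(.lf (nat_lit 597971) (.g (nat_lit 3306) (.e (nat_lit 573484) (nat_lit 13) (.e (nat_lit 65610) (nat_lit 10) (.e (nat_lit 344117) (nat_lit 21) (.e (nat_lit 516151) (nat_lit 9) (.e (nat_lit 426034) (nat_lit 0) (.e (nat_lit 3409) (nat_lit 212) (.e (nat_lit 655373) (nat_lit 3) (.e (nat_lit 163978) (nat_lit 30) .nil)))))))) (.g (nat_lit 1) (.e (nat_lit 413790) (nat_lit 0) .nil) .nil))))))) 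
(.nd (nat_lit 6) (.nd (nat_lit 7) (.nd (nat_lit 8) (.nd (nat_lit 9) 
(.lf (nat_lit 597043) (.g (nat_lit 2658) (.e (nat_lit 573481) (nat_lit 13) (.e (nat_lit 65619) (nat_lit 10) (.e (nat_lit 344117) (nat_lit 21) (.e (nat_lit 516106) (nat_lit 0) (.e (nat_lit 6966) (nat_lit 377) (.e (nat_lit 2777) (nat_lit 178) (.e (nat_lit 286765) (nat_lit 15) (.e (nat_lit 3298) (nat_lit 202) .nil)))))))) (.g (nat_lit 1) (.e (nat_lit 412572) (nat_lit 0) .nil) .nil))) 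
(.lf (nat_lit 597555) (.g (nat_lit 3764) (.e (nat_lit 573482) (nat_lit 13) (.e (nat_lit 65619) (nat_lit 10) (.e (nat_lit 344117) (nat_lit 21) (.e (nat_lit 516106) (nat_lit 0) (.e (nat_lit 6986) (nat_lit 377) (.e (nat_lit 2514) (nat_lit 157) (.e (nat_lit 5373) (nat_lit 299) (.e (nat_lit 8234) (nat_lit 20) .nil)))))))) (.g (nat_lit 1) (.e (nat_lit 413226) (nat_lit 0) .nil) .nil)))) (.nd (nat_lit 9) 
(.lf (nat_lit 597299) (.g (nat_lit 2914) (.e (nat_lit 573481) (nat_lit 13) (.e (nat_lit 65619) (nat_lit 10) (.e (nat_lit 344129) (nat_lit 26) (.e (nat_lit 557085) (nat_lit 11) (.e (nat_lit 24629) (nat_lit 9) .nil))))) (.g (nat_lit 0) (.e (nat_lit 412882) (nat_lit 0) .nil) .nil))) 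
(.lf (nat_lit 597811) (.g (nat_lit 2934) (.e (nat_lit 573482) (nat_lit 13) (.e (nat_lit 65619) (nat_lit 10) (.e (nat_lit 344129) (nat_lit 26) (.e (nat_lit 557085) (nat_lit 11) (.e (nat_lit 24629) (nat_lit 9) (.e (nat_lit 336306) (nat_lit 15) (.e (nat_lit 3308) (nat_lit 202) .nil))))))) (.g (nat_lit 1) (.e (nat_lit 413506) (nat_lit 0) .nil) .nil))))) (.nd (nat_lit 8) (.nd (nat_lit 9) 
(.lf (nat_lit 597171) (.g (nat_lit 3058) (.e (nat_lit 573481) (nat_lit 13) (.e (nat_lit 65619) (nat_lit 10) (.e (nat_lit 344117) (nat_lit 21) (.e (nat_lit 516151) (nat_lit 9) (.e (nat_lit 426042) (nat_lit 0) (.e (nat_lit 2458) (nat_lit 157) (.e (nat_lit 5547) (nat_lit 306) (.e (nat_lit 2599) (nat_lit 163) (.e (nat_lit 163975) (nat_lit 30) .nil))))))))) (.g (nat_lit 1) (.e (nat_lit 412711) (nat_lit 0) .nil) .nil))) 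
(.lf (nat_lit 597683) (.g (nat_lit 2787) (.e (nat_lit 573482) (nat_lit 13) (.e (nat_lit 65619) (nat_lit 10) (.e (nat_lit 344117) (nat_lit 21) (.e (nat_lit 516151) (nat_lit 9) (.e (nat_lit 426043) (nat_lit 0) (.e (nat_lit 2458) (nat_lit 157) (.e (nat_lit 5548) (nat_lit 306) (.e (nat_lit 2610) (nat_lit 163) (.e (nat_lit 163979) (nat_lit 30) .nil))))))))) (.g (nat_lit 1) (.e (nat_lit 413357) (nat_lit 0) .nil) .nil)))) 
(.nd (nat_lit 9) 
(.lf (nat_lit 597427) (.g (nat_lit 2926) (.e (nat_lit 573482) (nat_lit 13) (.e (nat_lit 65604) (nat_lit 9) (.e (nat_lit 336013) (nat_lit 2) (.e (nat_lit 90170) (nat_lit 13) (.e (nat_lit 172046) (nat_lit 0) (.e (nat_lit 3407) (nat_lit 212) (.e (nat_lit 655375) (nat_lit 3) (.e (nat_lit 163977) (nat_lit 30) .nil)))))))) (.g (nat_lit 1) (.e (nat_lit 413090) (nat_lit 0) .nil) .nil))) 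
(.lf (nat_lit 597939) (.g (nat_lit 2371) (.e (nat_lit 573484) (nat_lit 13) (.e (nat_lit 65610) (nat_lit 10) (.e (nat_lit 344117) (nat_lit 21) (.e (nat_lit 516115) (nat_lit 1) (.e (nat_lit 164413) (nat_lit 260) .nil))))) (.g (nat_lit 0) (.e (nat_lit 413722) (nat_lit 0) .nil) .nil)))))) (.nd (nat_lit 7) (.nd (nat_lit 8) (.nd (nat_lit 9) 
(.lf (nat_lit 597107) (.g (nat_lit 4197) (.e (nat_lit 573481) (nat_lit 13) (.e (nat_lit 65619) (nat_lit 10) (.e (nat_lit 344117) (nat_lit 21) (.e (nat_lit 516145) (nat_lit 9) (.e (nat_lit 426376) (nat_lit 15) (.e (nat_lit 2059) (nat_lit 142) (.e (nat_lit 704589) (nat_lit 3) (.e (nat_lit 163975) (nat_lit 30) .nil)))))))) (.g (nat_lit 1) (.e (nat_lit 412647) (nat_lit 0) .nil) .nil))) 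
(.lf (nat_lit 597619) (.g (nat_lit 3257) (.e (nat_lit 573482) (nat_lit 13) (.e (nat_lit 65619) (nat_lit 10) (.e (nat_lit 344117) (nat_lit 21) (.e (nat_lit 516145) (nat_lit 9) (.e (nat_lit 433920) (nat_lit 19) (.e (nat_lit 114432) (nat_lit 3) (.e (nat_lit 163979) (nat_lit 30) .nil))))))) (.g (nat_lit 1) (.e (nat_lit 413293) (nat_lit 0) .nil) .nil)))) (.nd (nat_lit 9) 
(.lf (nat_lit 597363) (.g (nat_lit 4454) (.e (nat_lit 573482) (nat_lit 13) (.e (nat_lit 65598) (nat_lit 9) (.e (nat_lit 336013) (nat_lit 2) (.e (nat_lit 90170) (nat_lit 13) (.e (nat_lit 172070) (nat_lit 4) .nil))))) (.g (nat_lit 0) (.e (nat_lit 413020) (nat_lit 0) .nil) .nil))) 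
(.lf (nat_lit 597875) (.g (nat_lit 1991) (.e (nat_lit 573482) (nat_lit 13) (.e (nat_lit 65630) (nat_lit 14) (.e (nat_lit 401425) (nat_lit 2) (.e (nat_lit 196674) (nat_lit 15) (.e (nat_lit 89856) (nat_lit 0) .nil))))) (.g (nat_lit 0) (.e (nat_lit 413592) (nat_lit 0) .nil) .nil))))) (.nd (nat_lit 8) (.nd (nat_lit 9) 
(.lf (nat_lit 597235) (.g (nat_lit 4586) (.e (nat_lit 573481) (nat_lit 13) (.e (nat_lit 65619) (nat_lit 10) (.e (nat_lit 344117) (nat_lit 21) (.e (nat_lit 516159) (nat_lit 10) (.e (nat_lit 434209) (nat_lit 18) (.e (nat_lit 5548) (nat_lit 306) (.e (nat_lit 2601) (nat_lit 163) (.e (nat_lit 163975) (nat_lit 30) .nil)))))))) (.g (nat_lit 1) (.e (nat_lit 412779) (nat_lit 0) .nil) .nil))) 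
(.lf (nat_lit 597747) (.g (nat_lit 3172) (.e (nat_lit 573482) (nat_lit 13) (.e (nat_lit 65619) (nat_lit 10) (.e (nat_lit 344117) (nat_lit 21) (.e (nat_lit 516160) (nat_lit 10) (.e (nat_lit 434211) (nat_lit 18) (.e (nat_lit 5548) (nat_lit 306) (.e (nat_lit 2610) (nat_lit 163) (.e (nat_lit 163979) (nat_lit 30) .nil)))))))) (.g (nat_lit 1) (.e (nat_lit 413421) (nat_lit 0) .nil) .nil)))) 
(.nd (nat_lit 9) 
(.lf (nat_lit 597491) (.g (nat_lit 3801) (.e (nat_lit 573482) (nat_lit 13) (.e (nat_lit 65604) (nat_lit 9) (.e (nat_lit 336013) (nat_lit 2) (.e (nat_lit 90172) (nat_lit 14) .nil)))) (.g (nat_lit 0) (.e (nat_lit 413154) (nat_lit 0) .nil) .nil))) 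
(.lf (nat_lit 598003) (.g (nat_lit 3586) (.e (nat_lit 573484) (nat_lit 13) (.e (nat_lit 65610) (nat_lit 10) (.e (nat_lit 344117) (nat_lit 21) (.e (nat_lit 516151) (nat_lit 9) (.e (nat_lit 426045) (nat_lit 0) (.e (nat_lit 3409) (nat_lit 212) (.e (nat_lit 655375) (nat_lit 3) (.e (nat_lit 163977) (nat_lit 30) .nil)))))))) (.g (nat_lit 1) (.e (nat_lit 413871) (nat_lit 0) .nil) .nil))))))))) 
(.nd (nat_lit 4) (.nd (nat_lit 5) (.nd (nat_lit 6) (.nd (nat_lit 7) (.nd (nat_lit 8) 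
(.nd (nat_lit 9) 
(.lf (nat_lit 597003) (.g (nat_lit 3090) (.e (nat_lit 573481) (nat_lit 13) (.e (nat_lit 65604) (nat_lit 9) (.e (nat_lit 336028) (nat_lit 3) (.e (nat_lit 98387) (nat_lit 33) (.e (nat_lit 491549) (nat_lit 9) (.e (nat_lit 336306) (nat_lit 15) (.e (nat_lit 3298) (nat_lit 202) .nil))))))) (.g (nat_lit 1) (.e (nat_lit 412526) (nat_lit 0) .nil) .nil))) 
(.lf (nat_lit 597515) (.g (nat_lit 4628) (.e (nat_lit 573482) (nat_lit 13) (.e (nat_lit 65604) (nat_lit 9) (.e (nat_lit 336028) (nat_lit 3) (.e (nat_lit 98366) (nat_lit 27) (.e (nat_lit 434209) (nat_lit 18) (.e (nat_lit 5548) (nat_lit 306) (.e (nat_lit 2611) (nat_lit 163) (.e (nat_lit 163977) (nat_lit 30) .nil)))))))) (.g (nat_lit 1) (.e (nat_lit 413184) (nat_lit 0) .nil) .nil)))) 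
(.nd (nat_lit 9) 
(.lf (nat_lit 597259) (.g (nat_lit 2344) (.e (nat_lit 573481) (nat_lit 13) (.e (nat_lit 65619) (nat_lit 10) (.e (nat_lit 344117) (nat_lit 21) (.e (nat_lit 516180) (nat_lit 15) (.e (nat_lit 475200) (nat_lit 40) (.e (nat_lit 712448) (nat_lit 3) (.e (nat_lit 163976) (nat_lit 30) .nil))))))) (.g (nat_lit 1) (.e (nat_lit 412819) (nat_lit 0) .nil) .nil))) 
(.lf (nat_lit 597771) (.g (nat_lit 2523) (.e (nat_lit 573482) (nat_lit 13) (.e (nat_lit 65619) (nat_lit 10) (.e (nat_lit 344117) (nat_lit 21) (.e (nat_lit 516184) (nat_lit 16) (.e (nat_lit 491547) (nat_lit 9) .nil))))) (.g (nat_lit 0) (.e (nat_lit 413445) (nat_lit 0) .nil) .nil))))) (.nd (nat_lit 8) (.nd (nat_lit 9) 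
(.lf (nat_lit 597131) (.g (nat_lit 3161) (.e (nat_lit 573481) (nat_lit 13) (.e (nat_lit 65619) (nat_lit 10) (.e (nat_lit 344117) (nat_lit 21) (.e (nat_lit 516145) (nat_lit 9) (.e (nat_lit 426444) (nat_lit 19) (.e (nat_lit 114432) (nat_lit 3) (.e (nat_lit 163975) (nat_lit 30) .nil))))))) (.g (nat_lit 1) (.e (nat_lit 412671) (nat_lit 0) .nil) .nil))) 
(.lf (nat_lit 597643) (.g (nat_lit 4064) (.e (nat_lit 573482) (nat_lit 13) (.e (nat_lit 65619) (nat_lit 10) (.e (nat_lit 344117) (nat_lit 21) (.e (nat_lit 516151) (nat_lit 9) (.e (nat_lit 426038) (nat_lit 0) (.e (nat_lit 2458) (nat_lit 157) (.e (nat_lit 5546) (nat_lit 306) (.e (nat_lit 2600) (nat_lit 163) (.e (nat_lit 163977) (nat_lit 30) .nil))))))))) (.g (nat_lit 1) (.e (nat_lit 413317) (nat_lit 0) .nil) .nil)))) 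
(.nd (nat_lit 9) 
(.lf (nat_lit 597387) (.g (nat_lit 3822) (.e (nat_lit 573482) (nat_lit 13) (.e (nat_lit 65604) (nat_lit 9) (.e (nat_lit 336013) (nat_lit 2) (.e (nat_lit 90168) (nat_lit 13) .nil)))) (.g (nat_lit 0) (.e (nat_lit 413050) (nat_lit 0) .nil) .nil))) 
(.lf (nat_lit 597899) (.g (nat_lit 2823) (.e (nat_lit 573483) (nat_lit 13) (.e (nat_lit 65630) (nat_lit 14) (.e (nat_lit 401425) (nat_lit 2) (.e (nat_lit 196674) (nat_lit 15) (.e (nat_lit 81922) (nat_lit 0) .nil))))) (.g (nat_lit 0) (.e (nat_lit 413635) (nat_lit 0) .nil) .nil)))))) (.nd (nat_lit 7) (.nd (nat_lit 8) (.nd (nat_lit 9) 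
(.lf (nat_lit 597067) (.g (nat_lit 2778) (.e (nat_lit 573481) (nat_lit 13) (.e (nat_lit 65619) (nat_lit 10) (.e (nat_lit 344117) (nat_lit 21) (.e (nat_lit 516144) (nat_lit 9) (.e (nat_lit 426405) (nat_lit 15) (.e (nat_lit 2058) (nat_lit 142) (.e (nat_lit 704589) (nat_lit 3) (.e (nat_lit 163975) (nat_lit 30) .nil)))))))) (.g (nat_lit 1) (.e (nat_lit 412607) (nat_lit 0) .nil) .nil))) 
(.lf (nat_lit 597579) (.g (nat_lit 3554) (.e (nat_lit 573482) (nat_lit 13) (.e (nat_lit 65619) (nat_lit 10) (.e (nat_lit 344117) (nat_lit 21) (.e (nat_lit 516145) (nat_lit 9) (.e (nat_lit 426095) (nat_lit 0) .nil))))) (.g (nat_lit 0) (.e (nat_lit 413253) (nat_lit 0) .nil) .nil)))) (.nd (nat_lit 9) 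
(.lf (nat_lit 597323) (.g (nat_lit 2115) (.e (nat_lit 573481) (nat_lit 13) (.e (nat_lit 65630) (nat_lit 14) (.e (nat_lit 401425) (nat_lit 2) (.e (nat_lit 196628) (nat_lit 9) (.e (nat_lit 1483) (nat_lit 108) .nil))))) (.g (nat_lit 0) (.e (nat_lit 412926) (nat_lit 0) .nil) .nil))) 
(.lf (nat_lit 597835) (.g (nat_lit 3287) (.e (nat_lit 573482) (nat_lit 13) (.e (nat_lit 65619) (nat_lit 10) (.e (nat_lit 344129) (nat_lit 26) (.e (nat_lit 557087) (nat_lit 11) (.e (nat_lit 24599) (nat_lit 1) (.e (nat_lit 57773) (nat_lit 227) (.e (nat_lit 2611) (nat_lit 163) (.e (nat_lit 163977) (nat_lit 30) .nil)))))))) (.g (nat_lit 1) (.e (nat_lit 413532) (nat_lit 0) .nil) .nil))))) 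
(.nd (nat_lit 8) (.nd (nat_lit 9) 
(.lf (nat_lit 597195) (.g (nat_lit 2433) (.e (nat_lit 573481) (nat_lit 13) (.e (nat_lit 65619) (nat_lit 10) (.e (nat_lit 344117) (nat_lit 21) (.e (nat_lit 516151) (nat_lit 9) (.e (nat_lit 426097) (nat_lit 1) (.e (nat_lit 164346) (nat_lit 240) (.e (nat_lit 2601) (nat_lit 163) (.e (nat_lit 163976) (nat_lit 30) .nil)))))))) (.g (nat_lit 1) (.e (nat_lit 412735) (nat_lit 0) .nil) .nil))) 
(.lf (nat_lit 597707) (.g (nat_lit 3258) (.e (nat_lit 573482) (nat_lit 13) (.e (nat_lit 65619) (nat_lit 10) (.e (nat_lit 344117) (nat_lit 21) (.e (nat_lit 516151) (nat_lit 9) (.e (nat_lit 426142) (nat_lit 4) (.e (nat_lit 229666) (nat_lit 240) (.e (nat_lit 2717) (nat_lit 171) (.e (nat_lit 229439) (nat_lit 30) .nil)))))))) (.g (nat_lit 1) (.e (nat_lit 413381) (nat_lit 0) .nil) .nil)))) 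
(.nd (nat_lit 9) 
(.lf (nat_lit 597451) (.g (nat_lit 4476) (.e (nat_lit 573482) (nat_lit 13) (.e (nat_lit 65604) (nat_lit 9) (.e (nat_lit 336013) (nat_lit 2) (.e (nat_lit 90170) (nat_lit 13) (.e (nat_lit 172059) (nat_lit 1) (.e (nat_lit 164348) (nat_lit 240) (.e (nat_lit 2611) (nat_lit 163) (.e (nat_lit 163977) (nat_lit 30) .nil)))))))) (.g (nat_lit 1) (.e (nat_lit 413114) (nat_lit 0) .nil) .nil))) 
(.lf (nat_lit 597963) (.g (nat_lit 3321) (.e (nat_lit 573484) (nat_lit 13) (.e (nat_lit 65610) (nat_lit 10) (.e (nat_lit 344117) (nat_lit 21) (.e (nat_lit 516150) (nat_lit 9) (.e (nat_lit 426444) (nat_lit 19) .nil))))) (.g (nat_lit 0) (.e (nat_lit 413774) (nat_lit 0) .nil) .nil))))))) (.nd (nat_lit 6) (.nd (nat_lit 7) (.nd (nat_lit 8) (.nd (nat_lit 9) 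
(.lf (nat_lit 597035) (.g (nat_lit 2824) (.e (nat_lit 573481) (nat_lit 13) (.e (nat_lit 65619) (nat_lit 10) (.e (nat_lit 344116) (nat_lit 21) (.e (nat_lit 516182) (nat_lit 15) (.e (nat_lit 475199) (nat_lit 40) (.e (nat_lit 704589) (nat_lit 3) (.e (nat_lit 163976) (nat_lit 30) .nil))))))) (.g (nat_lit 1) (.e (nat_lit 412560) (nat_lit 0) .nil) .nil))) 
(.lf (nat_lit 597547) (.g (nat_lit 933) (.e (nat_lit 573482) (nat_lit 13) (.e (nat_lit 65619) (nat_lit 10) (.e (nat_lit 344117) (nat_lit 21) (.e (nat_lit 516098) (nat_lit 0) .nil)))) (.g (nat_lit 0) (.e (nat_lit 413218) (nat_lit 0) .nil) .nil)))) (.nd (nat_lit 9) 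
(.lf (nat_lit 597291) (.g (nat_lit 2043) (.e (nat_lit 573481) (nat_lit 13) (.e (nat_lit 65619) (nat_lit 10) (.e (nat_lit 344129) (nat_lit 26) (.e (nat_lit 557066) (nat_lit 9) (.e (nat_lit 245) (nat_lit 21) .nil))))) (.g (nat_lit 0) (.e (nat_lit 412857) (nat_lit 0) .nil) .nil))) 
(.lf (nat_lit 597803) (.g (nat_lit 2813) (.e (nat_lit 573482) (nat_lit 13) (.e (nat_lit 65619) (nat_lit 10) (.e (nat_lit 344129) (nat_lit 26) (.e (nat_lit 557070) (nat_lit 9) (.e (nat_lit 313) (nat_lit 23) .nil))))) (.g (nat_lit 0) (.e (nat_lit 413498) (nat_lit 0) .nil) .nil))))) (.nd (nat_lit 8) (.nd (nat_lit 9) 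
(.lf (nat_lit 597163) (.g (nat_lit 3679) (.e (nat_lit 573481) (nat_lit 13) (.e (nat_lit 65619) (nat_lit 10) (.e (nat_lit 344117) (nat_lit 21) (.e (nat_lit 516151) (nat_lit 9) (.e (nat_lit 426039) (nat_lit 0) .nil))))) (.g (nat_lit 0) (.e (nat_lit 412703) (nat_lit 0) .nil) .nil))) 
(.lf (nat_lit 597675) (.g (nat_lit 3003) (.e (nat_lit 573482) (nat_lit 13) (.e (nat_lit 65619) (nat_lit 10) (.e (nat_lit 344117) (nat_lit 21) (.e (nat_lit 516151) (nat_lit 9) (.e (nat_lit 426042) (nat_lit 0) (.e (nat_lit 7936) (nat_lit 211) (.e (nat_lit 647180) (nat_lit 3) (.e (nat_lit 163979) (nat_lit 30) .nil)))))))) (.g (nat_lit 1) (.e (nat_lit 413349) (nat_lit 0) .nil) .nil)))) 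
(.nd (nat_lit 9) 
(.lf (nat_lit 597419) (.g (nat_lit 2564) (.e (nat_lit 573482) (nat_lit 13) (.e (nat_lit 65604) (nat_lit 9) (.e (nat_lit 336013) (nat_lit 2) (.e (nat_lit 90170) (nat_lit 13) (.e (nat_lit 172046) (nat_lit 0) .nil))))) (.g (nat_lit 0) (.e (nat_lit 413082) (nat_lit 0) .nil) .nil))) 
(.lf (nat_lit 597931) (.g (nat_lit 935) (.e (nat_lit 573484) (nat_lit 13) (.e (nat_lit 65610) (nat_lit 10) (.e (nat_lit 344117) (nat_lit 21) (.e (nat_lit 516106) (nat_lit 0) .nil)))) (.g (nat_lit 0) (.e (nat_lit 413702) (nat_lit 0) .nil) .nil)))))) (.nd (nat_lit 7) (.nd (nat_lit 8) (.nd (nat_lit 9) 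
(.lf (nat_lit 597099) (.g (nat_lit 4239) (.e (nat_lit 573481) (nat_lit 13) (.e (nat_lit 65619) (nat_lit 10) (.e (nat_lit 344117) (nat_lit 21) (.e (nat_lit 516145) (nat_lit 9) (.e (nat_lit 426375) (nat_lit 15) (.e (nat_lit 2056) (nat_lit 142) (.e (nat_lit 704589) (nat_lit 3) (.e (nat_lit 163975) (nat_lit 30) .nil)))))))) (.g (nat_lit 1) (.e (nat_lit 412639) (nat_lit 0) .nil) .nil))) 
(.lf (nat_lit 597611) (.g (nat_lit 3443) (.e (nat_lit 573482) (nat_lit 13) (.e (nat_lit 65619) (nat_lit 10) (.e (nat_lit 344117) (nat_lit 21) (.e (nat_lit 516145) (nat_lit 9) (.e (nat_lit 426418) (nat_lit 15) .nil))))) (.g (nat_lit 0) (.e (nat_lit 413285) (nat_lit 0) .nil) .nil)))) (.nd (nat_lit 9) 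
(.lf (nat_lit 597355) (.g (nat_lit 1951) (.e (nat_lit 573482) (nat_lit 13) (.e (nat_lit 65598) (nat_lit 9) (.e (nat_lit 336013) (nat_lit 2) (.e (nat_lit 90134) (nat_lit 9) .nil)))) (.g (nat_lit 0) (.e (nat_lit 413012) (nat_lit 0) .nil) .nil))) 
(.lf (nat_lit 597867) (.g (nat_lit 3423) (.e (nat_lit 573482) (nat_lit 13) (.e (nat_lit 65628) (nat_lit 14) (.e (nat_lit 401425) (nat_lit 2) (.e (nat_lit 196681) (nat_lit 17) (.e (nat_lit 131122) (nat_lit 12) (.e (nat_lit 385073) (nat_lit 31) .nil)))))) (.g (nat_lit 1) (.e (nat_lit 413583) (nat_lit 0) .nil) .nil))))) (.nd (nat_lit 8) (.nd (nat_lit 9) 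
(.lf (nat_lit 597227) (.g (nat_lit 3110) (.e (nat_lit 573481) (nat_lit 13) (.e (nat_lit 65619) (nat_lit 10) (.e (nat_lit 344117) (nat_lit 21) (.e (nat_lit 516151) (nat_lit 9) (.e (nat_lit 426465) (nat_lit 24) (.e (nat_lit 163584) (nat_lit 3) (.e (nat_lit 163975) (nat_lit 30) .nil))))))) (.g (nat_lit 1) (.e (nat_lit 412770) (nat_lit 0) .nil) .nil))) 
(.lf (nat_lit 597739) (.g (nat_lit 3972) (.e (nat_lit 573482) (nat_lit 13) (.e (nat_lit 65619) (nat_lit 10) (.e (nat_lit 344117) (nat_lit 21) (.e (nat_lit 516160) (nat_lit 10) (.e (nat_lit 434209) (nat_lit 18) (.e (nat_lit 5546) (nat_lit 306) (.e (nat_lit 2611) (nat_lit 163) (.e (nat_lit 163977) (nat_lit 30) .nil)))))))) (.g (nat_lit 1) (.e (nat_lit 413413) (nat_lit 0) .nil) .nil)))) 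
(.nd (nat_lit 9) 
(.lf (nat_lit 597483) (.g (nat_lit 3221) (.e (nat_lit 573482) (nat_lit 13) (.e (nat_lit 65604) (nat_lit 9) (.e (nat_lit 336013) (nat_lit 2) (.e (nat_lit 90170) (nat_lit 13) (.e (nat_lit 172136) (nat_lit 15) .nil))))) (.g (nat_lit 0) (.e (nat_lit 413146) (nat_lit 0) .nil) .nil))) 
(.lf (nat_lit 597995) (.g (nat_lit 3806) (.e (nat_lit 573484) (nat_lit 13) (.e (nat_lit 65610) (nat_lit 10) (.e (nat_lit 344117) (nat_lit 21) (.e (nat_lit 516151) (nat_lit 9) (.e (nat_lit 426041) (nat_lit 0) (.e (nat_lit 3406) (nat_lit 212) (.e (nat_lit 655373) (nat_lit 3) (.e (nat_lit 163978) (nat_lit 30) .nil)))))))) (.g (nat_lit 1) (.e (nat_lit 413858) (nat_lit 0) .nil) .nil)))))))) 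
(.nd (nat_lit 5) (.nd (nat_lit 6) (.nd (nat_lit 7) (.nd (nat_lit 8) (.nd (nat_lit 9) 
(.lf (nat_lit 597019) (.g (nat_lit 5258) (.e (nat_lit 573481) (nat_lit 13) (.e (nat_lit 65610) (nat_lit 10) (.e (nat_lit 344117) (nat_lit 21) (.e (nat_lit 516151) (nat_lit 9) (.e (nat_lit 426412) (nat_lit 15) (.e (nat_lit 2058) (nat_lit 142) (.e (nat_lit 704589) (nat_lit 3) (.e (nat_lit 163975) (nat_lit 30) .nil)))))))) (.g (nat_lit 1) (.e (nat_lit 412542) (nat_lit 0) .nil) .nil))) 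
(.lf (nat_lit 597531) (.g (nat_lit 1745) (.e (nat_lit 573482) (nat_lit 13) (.e (nat_lit 65610) (nat_lit 10) (.e (nat_lit 344117) (nat_lit 21) (.e (nat_lit 516151) (nat_lit 9) .nil)))) (.g (nat_lit 0) (.e (nat_lit 413201) (nat_lit 0) .nil) .nil)))) (.nd (nat_lit 9) 
(.lf (nat_lit 597275) (.g (nat_lit 3422) (.e (nat_lit 573481) (nat_lit 13) (.e (nat_lit 65619) (nat_lit 10) (.e (nat_lit 344117) (nat_lit 21) (.e (nat_lit 516183) (nat_lit 16) (.e (nat_lit 491550) (nat_lit 9) (.e (nat_lit 336306) (nat_lit 15) (.e (nat_lit 3298) (nat_lit 202) .nil))))))) (.g (nat_lit 1) (.e (nat_lit 412835) (nat_lit 0) .nil) .nil))) 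
(.lf (nat_lit 597787) (.g (nat_lit 2179) (.e (nat_lit 573482) (nat_lit 13) (.e (nat_lit 65619) (nat_lit 10) (.e (nat_lit 344129) (nat_lit 26) (.e (nat_lit 557065) (nat_lit 9) (.e (nat_lit 315) (nat_lit 23) .nil))))) (.g (nat_lit 0) (.e (nat_lit 413471) (nat_lit 0) .nil) .nil))))) (.nd (nat_lit 8) (.nd (nat_lit 9) 
(.lf (nat_lit 597147) (.g (nat_lit 2335) (.e (nat_lit 573481) (nat_lit 13) (.e (nat_lit 65619) (nat_lit 10) (.e (nat_lit 344117) (nat_lit 21) (.e (nat_lit 516147) (nat_lit 9) (.e (nat_lit 426393) (nat_lit 15) (.e (nat_lit 2058) (nat_lit 142) (.e (nat_lit 704589) (nat_lit 3) (.e (nat_lit 163976) (nat_lit 30) .nil)))))))) (.g (nat_lit 1) (.e (nat_lit 412687) (nat_lit 0) .nil) .nil))) 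
(.lf (nat_lit 597659) (.g (nat_lit 3780) (.e (nat_lit 573482) (nat_lit 13) (.e (nat_lit 65619) (nat_lit 10) (.e (nat_lit 344117) (nat_lit 21) (.e (nat_lit 516151) (nat_lit 9) (.e (nat_lit 426039) (nat_lit 0) (.e (nat_lit 2458) (nat_lit 157) (.e (nat_lit 5547) (nat_lit 306) (.e (nat_lit 2611) (nat_lit 163) (.e (nat_lit 163979) (nat_lit 30) .nil))))))))) (.g (nat_lit 1) (.e (nat_lit 413333) (nat_lit 0) .nil) .nil)))) 
(.nd (nat_lit 9) 
(.lf (nat_lit 597403) (.g (nat_lit 3306) (.e (nat_lit 573482) (nat_lit 13) (.e (nat_lit 65604) (nat_lit 9) (.e (nat_lit 336013) (nat_lit 2) (.e (nat_lit 90170) (nat_lit 13) (.e (nat_lit 172038) (nat_lit 0) (.e (nat_lit 3399) (nat_lit 211) (.e (nat_lit 647181) (nat_lit 3) (.e (nat_lit 163977) (nat_lit 30) .nil)))))))) (.g (nat_lit 1) (.e (nat_lit 413066) (nat_lit 0) .nil) .nil))) 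
(.lf (nat_lit 597915) (.g (nat_lit 3282) (.e (nat_lit 573484) (nat_lit 13) (.e (nat_lit 65610) (nat_lit 10) (.e (nat_lit 344115) (nat_lit 20) (.e (nat_lit 507921) (nat_lit 6) (.e (nat_lit 286748) (nat_lit 9) (.e (nat_lit 336295) (nat_lit 15) (.e (nat_lit 3305) (nat_lit 202) .nil))))))) (.g (nat_lit 1) (.e (nat_lit 413679) (nat_lit 0) .nil) .nil)))))) 
(.nd (nat_lit 7) (.nd (nat_lit 8) (.nd (nat_lit 9) 
(.lf (nat_lit 597083) (.g (nat_lit 3522) (.e (nat_lit 573481) (nat_lit 13) (.e (nat_lit 65619) (nat_lit 10) (.e (nat_lit 344117) (nat_lit 21) (.e (nat_lit 516145) (nat_lit 9) (.e (nat_lit 426354) (nat_lit 15) .nil))))) (.g (nat_lit 0) (.e (nat_lit 412623) (nat_lit 0) .nil) .nil))) 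
(.lf (nat_lit 597595) (.g (nat_lit 3201) (.e (nat_lit 573482) (nat_lit 13) (.e (nat_lit 65619) (nat_lit 10) (.e (nat_lit 344117) (nat_lit 21) (.e (nat_lit 516145) (nat_lit 9) (.e (nat_lit 426360) (nat_lit 15) .nil))))) (.g (nat_lit 0) (.e (nat_lit 413269) (nat_lit 0) .nil) .nil)))) (.nd (nat_lit 9) 
(.lf (nat_lit 597339) (.g (nat_lit 1097) (.e (nat_lit 573481) (nat_lit 13) (.e (nat_lit 65630) (nat_lit 14) (.e (nat_lit 401428) (nat_lit 3) (.e (nat_lit 204865) (nat_lit 28) .nil)))) (.g (nat_lit 0) (.e (nat_lit 412944) (nat_lit 0) .nil) .nil))) 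
(.lf (nat_lit 597851) (.g (nat_lit 2515) (.e (nat_lit 573482) (nat_lit 13) (.e (nat_lit 65619) (nat_lit 10) (.e (nat_lit 344129) (nat_lit 26) (.e (nat_lit 557087) (nat_lit 11) (.e (nat_lit 24636) (nat_lit 9) (.e (nat_lit 336305) (nat_lit 15) (.e (nat_lit 3308) (nat_lit 202) .nil))))))) (.g (nat_lit 1) (.e (nat_lit 413548) (nat_lit 0) .nil) .nil))))) (.nd (nat_lit 8) (.nd (nat_lit 9) 
(.lf (nat_lit 597211) (.g (nat_lit 3905) (.e (nat_lit 573481) (nat_lit 13) (.e (nat_lit 65619) (nat_lit 10) (.e (nat_lit 344117) (nat_lit 21) (.e (nat_lit 516151) (nat_lit 9) (.e (nat_lit 426367) (nat_lit 15) .nil))))) (.g (nat_lit 0) (.e (nat_lit 412754) (nat_lit 0) .nil) .nil))) 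
(.lf (nat_lit 597723) (.g (nat_lit 1688) (.e (nat_lit 573482) (nat_lit 13) (.e (nat_lit 65619) (nat_lit 10) (.e (nat_lit 344117) (nat_lit 21) (.e (nat_lit 516156) (nat_lit 9) .nil)))) (.g (nat_lit 0) (.e (nat_lit 413397) (nat_lit 0) .nil) .nil)))) (.nd (nat_lit 9) 
(.lf (nat_lit 597467) (.g (nat_lit 4415) (.e (nat_lit 573482) (nat_lit 13) (.e (nat_lit 65604) (nat_lit 9) (.e (nat_lit 336013) (nat_lit 2) (.e (nat_lit 90170) (nat_lit 13) (.e (nat_lit 172061) (nat_lit 1) (.e (nat_lit 164348) (nat_lit 240) (.e (nat_lit 2611) (nat_lit 163) (.e (nat_lit 163977) (nat_lit 30) .nil)))))))) (.g (nat_lit 1) (.e (nat_lit 413130) (nat_lit 0) .nil) .nil))) 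
(.lf (nat_lit 597979) (.g (nat_lit 3332) (.e (nat_lit 573484) (nat_lit 13) (.e (nat_lit 65610) (nat_lit 10) (.e (nat_lit 344117) (nat_lit 21) (.e (nat_lit 516151) (nat_lit 9) (.e (nat_lit 426037) (nat_lit 0) (.e (nat_lit 3403) (nat_lit 212) (.e (nat_lit 655374) (nat_lit 3) (.e (nat_lit 163978) (nat_lit 30) .nil)))))))) (.g (nat_lit 1) (.e (nat_lit 413812) (nat_lit 0) .nil) .nil))))))) 
(.nd (nat_lit 6) (.nd (nat_lit 7) (.nd (nat_lit 8) (.nd (nat_lit 9) 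
(.lf (nat_lit 597051) (.g (nat_lit 3077) (.e (nat_lit 573481) (nat_lit 13) (.e (nat_lit 65619) (nat_lit 10) (.e (nat_lit 344117) (nat_lit 21) (.e (nat_lit 516138) (nat_lit 7) (.e (nat_lit 409642) (nat_lit 17) (.e (nat_lit 294966) (nat_lit 15) (.e (nat_lit 3298) (nat_lit 202) .nil))))))) (.g (nat_lit 1) (.e (nat_lit 412591) (nat_lit 0) .nil) .nil))) 
(.lf (nat_lit 597563) (.g (nat_lit 2485) (.e (nat_lit 573482) (nat_lit 13) (.e (nat_lit 65619) (nat_lit 10) (.e (nat_lit 344117) (nat_lit 21) (.e (nat_lit 516106) (nat_lit 0) (.e (nat_lit 7112) (nat_lit 381) (.e (nat_lit 229646) (nat_lit 232) (.e (nat_lit 27) (nat_lit 0) (.e (nat_lit 3308) (nat_lit 202) .nil)))))))) (.g (nat_lit 1) (.e (nat_lit 413234) (nat_lit 0) .nil) .nil)))) (.nd (nat_lit 9) 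
(.lf (nat_lit 597307) (.g (nat_lit 2165) (.e (nat_lit 573481) (nat_lit 13) (.e (nat_lit 65619) (nat_lit 10) (.e (nat_lit 344129) (nat_lit 26) (.e (nat_lit 557087) (nat_lit 11) (.e (nat_lit 24636) (nat_lit 9) (.e (nat_lit 336305) (nat_lit 15) (.e (nat_lit 3298) (nat_lit 202) .nil))))))) (.g (nat_lit 1) (.e (nat_lit 412891) (nat_lit 0) .nil) .nil))) 
(.lf (nat_lit 597819) (.g (nat_lit 3091) (.e (nat_lit 573482) (nat_lit 13) (.e (nat_lit 65619) (nat_lit 10) (.e (nat_lit 344129) (nat_lit 26) (.e (nat_lit 557087) (nat_lit 11) (.e (nat_lit 24584) (nat_lit 0) (.e (nat_lit 1932) (nat_lit 131) (.e (nat_lit 614415) (nat_lit 3) (.e (nat_lit 163979) (nat_lit 30) .nil)))))))) (.g (nat_lit 1) (.e (nat_lit 413514) (nat_lit 0) .nil) .nil))))) 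
(.nd (nat_lit 8) (.nd (nat_lit 9) 
(.lf (nat_lit 597179) (.g (nat_lit 3434) (.e (nat_lit 573481) (nat_lit 13) (.e (nat_lit 65619) (nat_lit 10) (.e (nat_lit 344117) (nat_lit 21) (.e (nat_lit 516151) (nat_lit 9) (.e (nat_lit 426042) (nat_lit 0) (.e (nat_lit 3407) (nat_lit 212) (.e (nat_lit 655373) (nat_lit 3) (.e (nat_lit 163975) (nat_lit 30) .nil)))))))) (.g (nat_lit 1) (.e (nat_lit 412719) (nat_lit 0) .nil) .nil))) 
(.lf (nat_lit 597691) (.g (nat_lit 2284) (.e (nat_lit 573482) (nat_lit 13) (.e (nat_lit 65619) (nat_lit 10) (.e (nat_lit 344117) (nat_lit 21) (.e (nat_lit 516151) (nat_lit 9) (.e (nat_lit 426097) (nat_lit 1) (.e (nat_lit 164348) (nat_lit 240) (.e (nat_lit 2601) (nat_lit 163) (.e (nat_lit 163974) (nat_lit 30) .nil)))))))) (.g (nat_lit 1) (.e (nat_lit 413365) (nat_lit 0) .nil) .nil)))) 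
(.nd (nat_lit 9) 
(.lf (nat_lit 597435) (.g (nat_lit 2573) (.e (nat_lit 573482) (nat_lit 13) (.e (nat_lit 65604) (nat_lit 9) (.e (nat_lit 336013) (nat_lit 2) (.e (nat_lit 90170) (nat_lit 13) (.e (nat_lit 172049) (nat_lit 0) (.e (nat_lit 2458) (nat_lit 157) (.e (nat_lit 5548) (nat_lit 306) (.e (nat_lit 2610) (nat_lit 163) (.e (nat_lit 163977) (nat_lit 30) .nil))))))))) (.g (nat_lit 1) (.e (nat_lit 413098) (nat_lit 0) .nil) .nil))) 
(.lf (nat_lit 597947) (.g (nat_lit 2771) (.e (nat_lit 573484) (nat_lit 13) (.e (nat_lit 65610) (nat_lit 10) (.e (nat_lit 344117) (nat_lit 21) (.e (nat_lit 516139) (nat_lit 7) (.e (nat_lit 409617) (nat_lit 10) .nil))))) (.g (nat_lit 0) (.e (nat_lit 413733) (nat_lit 0) .nil) .nil)))))) (.nd (nat_lit 7) (.nd (nat_lit 8) (.nd (nat_lit 9) 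
(.lf (nat_lit 597115) (.g (nat_lit 3697) (.e (nat_lit 573481) (nat_lit 13) (.e (nat_lit 65619) (nat_lit 10) (.e (nat_lit 344117) (nat_lit 21) (.e (nat_lit 516145) (nat_lit 9) (.e (nat_lit 426393) (nat_lit 15) (.e (nat_lit 2058) (nat_lit 142) (.e (nat_lit 704589) (nat_lit 3) (.e (nat_lit 163976) (nat_lit 30) .nil)))))))) (.g (nat_lit 1) (.e (nat_lit 412655) (nat_lit 0) .nil) .nil))) 
(.lf (nat_lit 597627) (.g (nat_lit 3572) (.e (nat_lit 573482) (nat_lit 13) (.e (nat_lit 65619) (nat_lit 10) (.e (nat_lit 344117) (nat_lit 21) (.e (nat_lit 516151) (nat_lit 9) (.e (nat_lit 426018) (nat_lit 0) .nil))))) (.g (nat_lit 0) (.e (nat_lit 413301) (nat_lit 0) .nil) .nil)))) (.nd (nat_lit 9) 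
(.lf (nat_lit 597371) (.g (nat_lit 3822) (.e (nat_lit 573482) (nat_lit 13) (.e (nat_lit 65604) (nat_lit 9) (.e (nat_lit 336013) (nat_lit 2) (.e (nat_lit 90131) (nat_lit 9) .nil)))) (.g (nat_lit 0) (.e (nat_lit 413028) (nat_lit 0) .nil) .nil))) 
(.lf (nat_lit 597883) (.g (nat_lit 1229) (.e (nat_lit 573482) (nat_lit 13) (.e (nat_lit 65637) (nat_lit 15) (.e (nat_lit 3632) (nat_lit 227) (.e (nat_lit 778324) (nat_lit 5) .nil)))) (.g (nat_lit 0) (.e (nat_lit 413613) (nat_lit 0) .nil) .nil))))) (.nd (nat_lit 8) (.nd (nat_lit 9) 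
(.lf (nat_lit 597243) (.g (nat_lit 3086) (.e (nat_lit 573481) (nat_lit 13) (.e (nat_lit 65619) (nat_lit 10) (.e (nat_lit 344117) (nat_lit 21) (.e (nat_lit 516160) (nat_lit 10) (.e (nat_lit 434272) (nat_lit 38) (.e (nat_lit 655375) (nat_lit 3) (.e (nat_lit 163973) (nat_lit 30) .nil))))))) (.g (nat_lit 1) (.e (nat_lit 412789) (nat_lit 0) .nil) .nil))) 
(.lf (nat_lit 597755) (.g (nat_lit 4576) (.e (nat_lit 573482) (nat_lit 13) (.e (nat_lit 65619) (nat_lit 10) (.e (nat_lit 344117) (nat_lit 21) (.e (nat_lit 516160) (nat_lit 10) (.e (nat_lit 434271) (nat_lit 38) (.e (nat_lit 655375) (nat_lit 3) (.e (nat_lit 163977) (nat_lit 30) .nil))))))) (.g (nat_lit 1) (.e (nat_lit 413429) (nat_lit 0) .nil) .nil)))) (.nd (nat_lit 9) 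
(.lf (nat_lit 597499) (.g (nat_lit 3516) (.e (nat_lit 573482) (nat_lit 13) (.e (nat_lit 65604) (nat_lit 9) (.e (nat_lit 336028) (nat_lit 3) (.e (nat_lit 98354) (nat_lit 26) (.e (nat_lit 426109) (nat_lit 1) (.e (nat_lit 164345) (nat_lit 240) (.e (nat_lit 2600) (nat_lit 163) (.e (nat_lit 163977) (nat_lit 30) .nil)))))))) (.g (nat_lit 1) (.e (nat_lit 413163) (nat_lit 0) .nil) .nil))) 
(.lf (nat_lit 598011) (.g (nat_lit 2925) (.e (nat_lit 573484) (nat_lit 13) (.e (nat_lit 65610) (nat_lit 10) (.e (nat_lit 344117) (nat_lit 21) (.e (nat_lit 516151) (nat_lit 9) (.e (nat_lit 426050) (nat_lit 0) .nil))))) (.g (nat_lit 0) (.e (nat_lit 413880) (nat_lit 0) .nil) .nil)))))))))) 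
(.nd (nat_lit 3) (.nd (nat_lit 4) (.nd (nat_lit 5) (.nd (nat_lit 6) (.nd (nat_lit 7) 
(.nd (nat_lit 8) (.nd (nat_lit 9) 
(.lf (nat_lit 596999) (.g (nat_lit 3887) (.e (nat_lit 573481) (nat_lit 13) (.e (nat_lit 65604) (nat_lit 9) (.e (nat_lit 336028) (nat_lit 3) (.e (nat_lit 98386) (nat_lit 32) (.e (nat_lit 475198) (nat_lit 40) (.e (nat_lit 704589) (nat_lit 3) (.e (nat_lit 163975) (nat_lit 30) .nil))))))) (.g (nat_lit 1) (.e (nat_lit 412522) (nat_lit 0) .nil) .nil))) 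
(.lf (nat_lit 597511) (.g (nat_lit 3783) (.e (nat_lit 573482) (nat_lit 13) (.e (nat_lit 65604) (nat_lit 9) (.e (nat_lit 336028) (nat_lit 3) (.e (nat_lit 98366) (nat_lit 27) (.e (nat_lit 434209) (nat_lit 18) (.e (nat_lit 5546) (nat_lit 306) (.e (nat_lit 2611) (nat_lit 163) (.e (nat_lit 163977) (nat_lit 30) .nil)))))))) (.g (nat_lit 1) (.e (nat_lit 413180) (nat_lit 0) .nil) .nil)))) 
(.nd (nat_lit 9) 
(.lf (nat_lit 597255) (.g (nat_lit 4381) (.e (nat_lit 573481) (nat_lit 13) (.e (nat_lit 65619) (nat_lit 10) (.e (nat_lit 344117) (nat_lit 21) (.e (nat_lit 516179) (nat_lit 15) (.e (nat_lit 475198) (nat_lit 40) (.e (nat_lit 704589) (nat_lit 3) (.e (nat_lit 163975) (nat_lit 30) .nil))))))) (.g (nat_lit 1) (.e (nat_lit 412815) (nat_lit 0) .nil) .nil))) 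
(.lf (nat_lit 597767) (.g (nat_lit 4124) (.e (nat_lit 573482) (nat_lit 13) (.e (nat_lit 65619) (nat_lit 10) (.e (nat_lit 344117) (nat_lit 21) (.e (nat_lit 516179) (nat_lit 15) (.e (nat_lit 475205) (nat_lit 40) .nil))))) (.g (nat_lit 0) (.e (nat_lit 413441) (nat_lit 0) .nil) .nil))))) (.nd (nat_lit 8) (.nd (nat_lit 9) 
(.lf (nat_lit 597127) (.g (nat_lit 3522) (.e (nat_lit 573481) (nat_lit 13) (.e (nat_lit 65619) (nat_lit 10) (.e (nat_lit 344117) (nat_lit 21) (.e (nat_lit 516145) (nat_lit 9) (.e (nat_lit 426399) (nat_lit 15) .nil))))) (.g (nat_lit 0) (.e (nat_lit 412667) (nat_lit 0) .nil) .nil))) 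
(.lf (nat_lit 597639) (.g (nat_lit 4448) (.e (nat_lit 573482) (nat_lit 13) (.e (nat_lit 65619) (nat_lit 10) (.e (nat_lit 344117) (nat_lit 21) (.e (nat_lit 516151) (nat_lit 9) (.e (nat_lit 426037) (nat_lit 0) (.e (nat_lit 2458) (nat_lit 157) (.e (nat_lit 5547) (nat_lit 306) (.e (nat_lit 2610) (nat_lit 163) (.e (nat_lit 163979) (nat_lit 30) .nil))))))))) (.g (nat_lit 1) (.e (nat_lit 413313) (nat_lit 0) .nil) .nil)))) 
(.nd (nat_lit 9) 
(.lf (nat_lit 597383) (.g (nat_lit 1021) (.e (nat_lit 573482) (nat_lit 13) (.e (nat_lit 65604) (nat_lit 9) (.e (nat_lit 336013) (nat_lit 2) (.e (nat_lit 90165) (nat_lit 12) .nil)))) (.g (nat_lit 0) (.e (nat_lit 413046) (nat_lit 0) .nil) .nil))) 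
(.lf (nat_lit 597895) (.g (nat_lit 1938) (.e (nat_lit 573483) (nat_lit 13) (.e (nat_lit 65628) (nat_lit 14) (.e (nat_lit 401425) (nat_lit 2) (.e (nat_lit 196681) (nat_lit 17) .nil)))) (.g (nat_lit 0) (.e (nat_lit 413631) (nat_lit 0) .nil) .nil)))))) (.nd (nat_lit 7) (.nd (nat_lit 8) (.nd (nat_lit 9) 
(.lf (nat_lit 597063) (.g (nat_lit 2666) (.e (nat_lit 573481) (nat_lit 13) (.e (nat_lit 65619) (nat_lit 10) (.e (nat_lit 344117) (nat_lit 21) (.e (nat_lit 516144) (nat_lit 9) (.e (nat_lit 426379) (nat_lit 15) (.e (nat_lit 2056) (nat_lit 142) (.e (nat_lit 704589) (nat_lit 3) (.e (nat_lit 163976) (nat_lit 30) .nil)))))))) (.g (nat_lit 1) (.e (nat_lit 412603) (nat_lit 0) .nil) .nil))) 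
(.lf (nat_lit 597575) (.g (nat_lit 3439) (.e (nat_lit 573482) (nat_lit 13) (.e (nat_lit 65619) (nat_lit 10) (.e (nat_lit 344117) (nat_lit 21) (.e (nat_lit 516145) (nat_lit 9) (.e (nat_lit 425992) (nat_lit 0) .nil))))) (.g (nat_lit 0) (.e (nat_lit 413249) (nat_lit 0) .nil) .nil)))) (.nd (nat_lit 9) 
(.lf (nat_lit 597319) (.g (nat_lit 1354) (.e (nat_lit 573481) (nat_lit 13) (.e (nat_lit 65628) (nat_lit 14) (.e (nat_lit 401428) (nat_lit 3) (.e (nat_lit 204867) (nat_lit 28) .nil)))) (.g (nat_lit 0) (.e (nat_lit 412920) (nat_lit 0) .nil) .nil))) 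
(.lf (nat_lit 597831) (.g (nat_lit 3130) (.e (nat_lit 573482) (nat_lit 13) (.e (nat_lit 65619) (nat_lit 10) (.e (nat_lit 344129) (nat_lit 26) (.e (nat_lit 557087) (nat_lit 11) (.e (nat_lit 24599) (nat_lit 1) (.e (nat_lit 57771) (nat_lit 227) (.e (nat_lit 2611) (nat_lit 163) (.e (nat_lit 163979) (nat_lit 30) .nil)))))))) (.g (nat_lit 1) (.e (nat_lit 413528) (nat_lit 0) .nil) .nil))))) 
(.nd (nat_lit 8) (.nd (nat_lit 9) 
(.lf (nat_lit 597191) (.g (nat_lit 3010) (.e (nat_lit 573481) (nat_lit 13) (.e (nat_lit 65619) (nat_lit 10) (.e (nat_lit 344117) (nat_lit 21) (.e (nat_lit 516151) (nat_lit 9) (.e (nat_lit 426097) (nat_lit 1) (.e (nat_lit 164345) (nat_lit 240) (.e (nat_lit 2599) (nat_lit 163) (.e (nat_lit 163975) (nat_lit 30) .nil)))))))) (.g (nat_lit 1) (.e (nat_lit 412731) (nat_lit 0) .nil) .nil))) 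
(.lf (nat_lit 597703) (.g (nat_lit 3463) (.e (nat_lit 573482) (nat_lit 13) (.e (nat_lit 65619) (nat_lit 10) (.e (nat_lit 344117) (nat_lit 21) (.e (nat_lit 516151) (nat_lit 9) (.e (nat_lit 426104) (nat_lit 1) (.e (nat_lit 164347) (nat_lit 240) (.e (nat_lit 2610) (nat_lit 163) (.e (nat_lit 163977) (nat_lit 30) .nil)))))))) (.g (nat_lit 1) (.e (nat_lit 413377) (nat_lit 0) .nil) .nil)))) 
(.nd (nat_lit 9) 
(.lf (nat_lit 597447) (.g (nat_lit 3951) (.e (nat_lit 573482) (nat_lit 13) (.e (nat_lit 65604) (nat_lit 9) (.e (nat_lit 336013) (nat_lit 2) (.e (nat_lit 90170) (nat_lit 13) (.e (nat_lit 172059) (nat_lit 1) (.e (nat_lit 164345) (nat_lit 240) (.e (nat_lit 2600) (nat_lit 163) (.e (nat_lit 163977) (nat_lit 30) .nil)))))))) (.g (nat_lit 1) (.e (nat_lit 413110) (nat_lit 0) .nil) .nil))) 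
(.lf (nat_lit 597959) (.g (nat_lit 3025) (.e (nat_lit 573484) (nat_lit 13) (.e (nat_lit 65610) (nat_lit 10) (.e (nat_lit 344117) (nat_lit 21) (.e (nat_lit 516145) (nat_lit 9) (.e (nat_lit 426148) (nat_lit 4) (.e (nat_lit 229666) (nat_lit 240) (.e (nat_lit 2612) (nat_lit 163) (.e (nat_lit 163978) (nat_lit 30) .nil)))))))) (.g (nat_lit 1) (.e (nat_lit 413757) (nat_lit 0) .nil) .nil))))))) 
(.nd (nat_lit 6) (.nd (nat_lit 7) (.nd (nat_lit 8) (.nd (nat_lit 9) 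
(.lf (nat_lit 597031) (.g (nat_lit 4769) (.e (nat_lit 573481) (nat_lit 13) (.e (nat_lit 65618) (nat_lit 10) (.e (nat_lit 344117) (nat_lit 21) (.e (nat_lit 516179) (nat_lit 15) (.e (nat_lit 475199) (nat_lit 40) (.e (nat_lit 704589) (nat_lit 3) (.e (nat_lit 163975) (nat_lit 30) .nil))))))) (.g (nat_lit 1) (.e (nat_lit 412554) (nat_lit 0) .nil) .nil))) 
(.lf (nat_lit 597543) (.g (nat_lit 2125) (.e (nat_lit 573482) (nat_lit 13) (.e (nat_lit 65619) (nat_lit 10) (.e (nat_lit 344117) (nat_lit 21) (.e (nat_lit 516097) (nat_lit 0) (.e (nat_lit 7366) (nat_lit 388) .nil))))) (.g (nat_lit 0) (.e (nat_lit 413213) (nat_lit 0) .nil) .nil)))) (.nd (nat_lit 9) 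
(.lf (nat_lit 597287) (.g (nat_lit 2745) (.e (nat_lit 573481) (nat_lit 13) (.e (nat_lit 65619) (nat_lit 10) (.e (nat_lit 344119) (nat_lit 21) (.e (nat_lit 516182) (nat_lit 15) (.e (nat_lit 475198) (nat_lit 40) (.e (nat_lit 704589) (nat_lit 3) (.e (nat_lit 163975) (nat_lit 30) .nil))))))) (.g (nat_lit 1) (.e (nat_lit 412847) (nat_lit 0) .nil) .nil))) 
(.lf (nat_lit 597799) (.g (nat_lit 3068) (.e (nat_lit 573482) (nat_lit 13) (.e (nat_lit 65619) (nat_lit 10) (.e (nat_lit 344129) (nat_lit 26) (.e (nat_lit 557067) (nat_lit 9) (.e (nat_lit 249) (nat_lit 21) .nil))))) (.g (nat_lit 0) (.e (nat_lit 413493) (nat_lit 0) .nil) .nil))))) (.nd (nat_lit 8) (.nd (nat_lit 9) 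
(.lf (nat_lit 597159) (.g (nat_lit 3485) (.e (nat_lit 573481) (nat_lit 13) (.e (nat_lit 65619) (nat_lit 10) (.e (nat_lit 344117) (nat_lit 21) (.e (nat_lit 516151) (nat_lit 9) (.e (nat_lit 426023) (nat_lit 0) (.e (nat_lit 3402) (nat_lit 211) (.e (nat_lit 647180) (nat_lit 3) (.e (nat_lit 163976) (nat_lit 30) .nil)))))))) (.g (nat_lit 1) (.e (nat_lit 412699) (nat_lit 0) .nil) .nil))) 
(.lf (nat_lit 597671) (.g (nat_lit 3144) (.e (nat_lit 573482) (nat_lit 13) (.e (nat_lit 65619) (nat_lit 10) (.e (nat_lit 344117) (nat_lit 21) (.e (nat_lit 516151) (nat_lit 9) (.e (nat_lit 426042) (nat_lit 0) (.e (nat_lit 2458) (nat_lit 157) (.e (nat_lit 5548) (nat_lit 306) (.e (nat_lit 2601) (nat_lit 163) (.e (nat_lit 163979) (nat_lit 30) .nil))))))))) (.g (nat_lit 1) (.e (nat_lit 413345) (nat_lit 0) .nil) .nil)))) 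
(.nd (nat_lit 9) 
(.lf (nat_lit 597415) (.g (nat_lit 3645) (.e (nat_lit 573482) (nat_lit 13) (.e (nat_lit 65604) (nat_lit 9) (.e (nat_lit 336013) (nat_lit 2) (.e (nat_lit 90170) (nat_lit 13) (.e (nat_lit 172043) (nat_lit 0) (.e (nat_lit 3409) (nat_lit 212) (.e (nat_lit 655373) (nat_lit 3) (.e (nat_lit 163979) (nat_lit 30) .nil)))))))) (.g (nat_lit 1) (.e (nat_lit 413078) (nat_lit 0) .nil) .nil))) 
(.lf (nat_lit 597927) (.g (nat_lit 1016) (.e (nat_lit 573484) (nat_lit 13) (.e (nat_lit 65610) (nat_lit 10) (.e (nat_lit 344117) (nat_lit 21) (.e (nat_lit 516099) (nat_lit 0) .nil)))) (.g (nat_lit 0) (.e (nat_lit 413693) (nat_lit 0) .nil) .nil)))))) (.nd (nat_lit 7) (.nd (nat_lit 8) (.nd (nat_lit 9) 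
(.lf (nat_lit 597095) (.g (nat_lit 3413) (.e (nat_lit 573481) (nat_lit 13) (.e (nat_lit 65619) (nat_lit 10) (.e (nat_lit 344117) (nat_lit 21) (.e (nat_lit 516145) (nat_lit 9) (.e (nat_lit 426374) (nat_lit 15) (.e (nat_lit 2056) (nat_lit 142) (.e (nat_lit 704589) (nat_lit 3) (.e (nat_lit 163976) (nat_lit 30) .nil)))))))) (.g (nat_lit 1) (.e (nat_lit 412635) (nat_lit 0) .nil) .nil))) 
(.lf (nat_lit 597607) (.g (nat_lit 3531) (.e (nat_lit 573482) (nat_lit 13) (.e (nat_lit 65619) (nat_lit 10) (.e (nat_lit 344117) (nat_lit 21) (.e (nat_lit 516145) (nat_lit 9) (.e (nat_lit 426393) (nat_lit 15) (.e (nat_lit 2056) (nat_lit 142) (.e (nat_lit 704589) (nat_lit 3) (.e (nat_lit 163979) (nat_lit 30) .nil)))))))) (.g (nat_lit 1) (.e (nat_lit 413281) (nat_lit 0) .nil) .nil)))) 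
(.nd (nat_lit 9) 
(.lf (nat_lit 597351) (.g (nat_lit 2246) (.e (nat_lit 573482) (nat_lit 13) (.e (nat_lit 65569) (nat_lit 3) (.e (nat_lit 98317) (nat_lit 9) (.e (nat_lit 336288) (nat_lit 15) (.e (nat_lit 7936) (nat_lit 195) .nil))))) (.g (nat_lit 0) (.e (nat_lit 412984) (nat_lit 0) .nil) .nil))) 
(.lf (nat_lit 597863) (.g (nat_lit 1548) (.e (nat_lit 573482) (nat_lit 13) (.e (nat_lit 65628) (nat_lit 14) (.e (nat_lit 401425) (nat_lit 2) (.e (nat_lit 196674) (nat_lit 15) .nil)))) (.g (nat_lit 0) (.e (nat_lit 413579) (nat_lit 0) .nil) .nil))))) (.nd (nat_lit 8) (.nd (nat_lit 9) 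
(.lf (nat_lit 597223) (.g (nat_lit 3203) (.e (nat_lit 573481) (nat_lit 13) (.e (nat_lit 65619) (nat_lit 10) (.e (nat_lit 344117) (nat_lit 21) (.e (nat_lit 516151) (nat_lit 9) (.e (nat_lit 426414) (nat_lit 15) (.e (nat_lit 2057) (nat_lit 142) (.e (nat_lit 704589) (nat_lit 3) (.e (nat_lit 163975) (nat_lit 30) .nil)))))))) (.g (nat_lit 1) (.e (nat_lit 412766) (nat_lit 0) .nil) .nil))) 
(.lf (nat_lit 597735) (.g (nat_lit 4372) (.e (nat_lit 573482) (nat_lit 13) (.e (nat_lit 65619) (nat_lit 10) (.e (nat_lit 344117) (nat_lit 21) (.e (nat_lit 516159) (nat_lit 10) (.e (nat_lit 434272) (nat_lit 38) (.e (nat_lit 655375) (nat_lit 3) (.e (nat_lit 163977) (nat_lit 30) .nil))))))) (.g (nat_lit 1) (.e (nat_lit 413409) (nat_lit 0) .nil) .nil)))) (.nd (nat_lit 9) 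
(.lf (nat_lit 597479) (.g (nat_lit 2955) (.e (nat_lit 573482) (nat_lit 13) (.e (nat_lit 65604) (nat_lit 9) (.e (nat_lit 336013) (nat_lit 2) (.e (nat_lit 90170) (nat_lit 13) (.e (nat_lit 172070) (nat_lit 4) (.e (nat_lit 229666) (nat_lit 240) (.e (nat_lit 2717) (nat_lit 171) (.e (nat_lit 229439) (nat_lit 30) .nil)))))))) (.g (nat_lit 1) (.e (nat_lit 413142) (nat_lit 0) .nil) .nil))) 
(.lf (nat_lit 597991) (.g (nat_lit 3604) (.e (nat_lit 573484) (nat_lit 13) (.e (nat_lit 65610) (nat_lit 10) (.e (nat_lit 344117) (nat_lit 21) (.e (nat_lit 516151) (nat_lit 9) (.e (nat_lit 426040) (nat_lit 0) (.e (nat_lit 2478) (nat_lit 157) (.e (nat_lit 5548) (nat_lit 306) (.e (nat_lit 2610) (nat_lit 163) (.e (nat_lit 163978) (nat_lit 30) .nil))))))))) (.g (nat_lit 1) (.e (nat_lit 413854) (nat_lit 0) .nil) .nil)))))))) 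
(.nd (nat_lit 5) (.nd (nat_lit 6) (.nd (nat_lit 7) (.nd (nat_lit 8) (.nd (nat_lit 9) 
(.lf (nat_lit 597015) (.g (nat_lit 2836) (.e (nat_lit 573481) (nat_lit 13) (.e (nat_lit 65609) (nat_lit 10) (.e (nat_lit 344132) (nat_lit 26) (.e (nat_lit 557085) (nat_lit 11) (.e (nat_lit 24630) (nat_lit 9) (.e (nat_lit 336306) (nat_lit 15) (.e (nat_lit 3297) (nat_lit 202) .nil))))))) (.g (nat_lit 1) (.e (nat_lit 412538) (nat_lit 0) .nil) .nil))) 
(.lf (nat_lit 597527) (.g (nat_lit 3079) (.e (nat_lit 573482) (nat_lit 13) (.e (nat_lit 65609) (nat_lit 10) (.e (nat_lit 344117) (nat_lit 21) (.e (nat_lit 516179) (nat_lit 15) (.e (nat_lit 475198) (nat_lit 40) (.e (nat_lit 704589) (nat_lit 3) (.e (nat_lit 163979) (nat_lit 30) .nil))))))) (.g (nat_lit 1) (.e (nat_lit 413197) (nat_lit 0) .nil) .nil)))) (.nd (nat_lit 9) 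
(.lf (nat_lit 597271) (.g (nat_lit 2777) (.e (nat_lit 573481) (nat_lit 13) (.e (nat_lit 65619) (nat_lit 10) (.e (nat_lit 344117) (nat_lit 21) (.e (nat_lit 516183) (nat_lit 16) (.e (nat_lit 491547) (nat_lit 9) (.e (nat_lit 336306) (nat_lit 15) (.e (nat_lit 3297) (nat_lit 202) .nil))))))) (.g (nat_lit 1) (.e (nat_lit 412831) (nat_lit 0) .nil) .nil))) 
(.lf (nat_lit 597783) (.g (nat_lit 1349) (.e (nat_lit 573482) (nat_lit 13) (.e (nat_lit 65619) (nat_lit 10) (.e (nat_lit 344129) (nat_lit 26) (.e (nat_lit 557064) (nat_lit 9) .nil)))) (.g (nat_lit 0) (.e (nat_lit 413467) (nat_lit 0) .nil) .nil))))) (.nd (nat_lit 8) (.nd (nat_lit 9) 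
(.lf (nat_lit 597143) (.g (nat_lit 2316) (.e (nat_lit 573481) (nat_lit 13) (.e (nat_lit 65619) (nat_lit 10) (.e (nat_lit 344117) (nat_lit 21) (.e (nat_lit 516147) (nat_lit 9) (.e (nat_lit 426376) (nat_lit 15) (.e (nat_lit 2059) (nat_lit 142) (.e (nat_lit 704589) (nat_lit 3) (.e (nat_lit 163976) (nat_lit 30) .nil)))))))) (.g (nat_lit 1) (.e (nat_lit 412683) (nat_lit 0) .nil) .nil))) 
(.lf (nat_lit 597655) (.g (nat_lit 3643) (.e (nat_lit 573482) (nat_lit 13) (.e (nat_lit 65619) (nat_lit 10) (.e (nat_lit 344117) (nat_lit 21) (.e (nat_lit 516151) (nat_lit 9) (.e (nat_lit 426039) (nat_lit 0) (.e (nat_lit 2458) (nat_lit 157) (.e (nat_lit 5546) (nat_lit 306) (.e (nat_lit 2600) (nat_lit 163) (.e (nat_lit 163977) (nat_lit 30) .nil))))))))) (.g (nat_lit 1) (.e (nat_lit 413329) (nat_lit 0) .nil) .nil)))) 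
(.nd (nat_lit 9) 
(.lf (nat_lit 597399) (.g (nat_lit 2710) (.e (nat_lit 573482) (nat_lit 13) (.e (nat_lit 65604) (nat_lit 9) (.e (nat_lit 336013) (nat_lit 2) (.e (nat_lit 90170) (nat_lit 13) (.e (nat_lit 172038) (nat_lit 0) (.e (nat_lit 3397) (nat_lit 211) (.e (nat_lit 647180) (nat_lit 3) (.e (nat_lit 163979) (nat_lit 30) .nil)))))))) (.g (nat_lit 1) (.e (nat_lit 413062) (nat_lit 0) .nil) .nil))) 
(.lf (nat_lit 597911) (.g (nat_lit 1390) (.e (nat_lit 573484) (nat_lit 13) (.e (nat_lit 65604) (nat_lit 9) (.e (nat_lit 336013) (nat_lit 2) (.e (nat_lit 90165) (nat_lit 12) .nil)))) (.g (nat_lit 0) (.e (nat_lit 413668) (nat_lit 0) .nil) .nil)))))) (.nd (nat_lit 7) (.nd (nat_lit 8) (.nd (nat_lit 9) 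
(.lf (nat_lit 597079) (.g (nat_lit 2930) (.e (nat_lit 573481) (nat_lit 13) (.e (nat_lit 65619) (nat_lit 10) (.e (nat_lit 344117) (nat_lit 21) (.e (nat_lit 516145) (nat_lit 9) (.e (nat_lit 433920) (nat_lit 1) .nil))))) (.g (nat_lit 0) (.e (nat_lit 412619) (nat_lit 0) .nil) .nil))) 
(.lf (nat_lit 597591) (.g (nat_lit 2851) (.e (nat_lit 573482) (nat_lit 13) (.e (nat_lit 65619) (nat_lit 10) (.e (nat_lit 344117) (nat_lit 21) (.e (nat_lit 516145) (nat_lit 9) (.e (nat_lit 433920) (nat_lit 4) .nil))))) (.g (nat_lit 0) (.e (nat_lit 413265) (nat_lit 0) .nil) .nil)))) (.nd (nat_lit 9) 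
(.lf (nat_lit 597335) (.g (nat_lit 2674) (.e (nat_lit 573481) (nat_lit 13) (.e (nat_lit 65630) (nat_lit 14) (.e (nat_lit 401425) (nat_lit 2) (.e (nat_lit 196681) (nat_lit 17) (.e (nat_lit 131122) (nat_lit 12) .nil))))) (.g (nat_lit 0) (.e (nat_lit 412940) (nat_lit 0) .nil) .nil))) 
(.lf (nat_lit 597847) (.g (nat_lit 4395) (.e (nat_lit 573482) (nat_lit 13) (.e (nat_lit 65619) (nat_lit 10) (.e (nat_lit 344129) (nat_lit 26) (.e (nat_lit 557087) (nat_lit 11) (.e (nat_lit 24628) (nat_lit 9) (.e (nat_lit 336261) (nat_lit 15) (.e (nat_lit 3308) (nat_lit 202) .nil))))))) (.g (nat_lit 1) (.e (nat_lit 413544) (nat_lit 0) .nil) .nil))))) (.nd (nat_lit 8) (.nd (nat_lit 9) 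
(.lf (nat_lit 597207) (.g (nat_lit 3788) (.e (nat_lit 573481) (nat_lit 13) (.e (nat_lit 65619) (nat_lit 10) (.e (nat_lit 344117) (nat_lit 21) (.e (nat_lit 516151) (nat_lit 9) (.e (nat_lit 426142) (nat_lit 4) (.e (nat_lit 229663) (nat_lit 240) (.e (nat_lit 2602) (nat_lit 163) (.e (nat_lit 163976) (nat_lit 30) .nil)))))))) (.g (nat_lit 1) (.e (nat_lit 412749) (nat_lit 0) .nil) .nil))) 
(.lf (nat_lit 597719) (.g (nat_lit 3543) (.e (nat_lit 573482) (nat_lit 13) (.e (nat_lit 65619) (nat_lit 10) (.e (nat_lit 344117) (nat_lit 21) (.e (nat_lit 516151) (nat_lit 9) (.e (nat_lit 426414) (nat_lit 15) (.e (nat_lit 2057) (nat_lit 142) (.e (nat_lit 704589) (nat_lit 3) (.e (nat_lit 163979) (nat_lit 30) .nil)))))))) (.g (nat_lit 1) (.e (nat_lit 413393) (nat_lit 0) .nil) .nil)))) 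
(.nd (nat_lit 9) 
(.lf (nat_lit 597463) (.g (nat_lit 3407) (.e (nat_lit 573482) (nat_lit 13) (.e (nat_lit 65604) (nat_lit 9) (.e (nat_lit 336013) (nat_lit 2) (.e (nat_lit 90170) (nat_lit 13) (.e (nat_lit 172060) (nat_lit 1) (.e (nat_lit 164348) (nat_lit 240) (.e (nat_lit 2611) (nat_lit 163) (.e (nat_lit 163979) (nat_lit 30) .nil)))))))) (.g (nat_lit 1) (.e (nat_lit 413126) (nat_lit 0) .nil) .nil))) 
(.lf (nat_lit 597975) (.g (nat_lit 4157) (.e (nat_lit 573484) (nat_lit 13) (.e (nat_lit 65610) (nat_lit 10) (.e (nat_lit 344117) (nat_lit 21) (.e (nat_lit 516151) (nat_lit 9) (.e (nat_lit 426037) (nat_lit 0) (.e (nat_lit 2458) (nat_lit 157) (.e (nat_lit 5546) (nat_lit 306) (.e (nat_lit 2610) (nat_lit 163) (.e (nat_lit 163978) (nat_lit 30) .nil))))))))) (.g (nat_lit 1) (.e (nat_lit 413797) (nat_lit 0) .nil) .nil))))))) 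
(.nd (nat_lit 6) (.nd (nat_lit 7) (.nd (nat_lit 8) (.nd (nat_lit 9) 
(.lf (nat_lit 597047) (.g (nat_lit 3542) (.e (nat_lit 573481) (nat_lit 13) (.e (nat_lit 65619) (nat_lit 10) (.e (nat_lit 344117) (nat_lit 21) (.e (nat_lit 516106) (nat_lit 0) (.e (nat_lit 6986) (nat_lit 377) (.e (nat_lit 2779) (nat_lit 178) (.e (nat_lit 294656) (nat_lit 15) (.e (nat_lit 3298) (nat_lit 202) .nil)))))))) (.g (nat_lit 1) (.e (nat_lit 412577) (nat_lit 0) .nil) .nil))) 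
(.lf (nat_lit 597559) (.g (nat_lit 3772) (.e (nat_lit 573482) (nat_lit 13) (.e (nat_lit 65619) (nat_lit 10) (.e (nat_lit 344117) (nat_lit 21) (.e (nat_lit 516106) (nat_lit 0) (.e (nat_lit 6986) (nat_lit 377) (.e (nat_lit 2779) (nat_lit 178) (.e (nat_lit 294656) (nat_lit 15) (.e (nat_lit 3308) (nat_lit 202) .nil)))))))) (.g (nat_lit 1) (.e (nat_lit 413230) (nat_lit 0) .nil) .nil)))) 
(.nd (nat_lit 9) 
(.lf (nat_lit 597303) (.g (nat_lit 2817) (.e (nat_lit 573481) (nat_lit 13) (.e (nat_lit 65619) (nat_lit 10) (.e (nat_lit 344129) (nat_lit 26) (.e (nat_lit 557087) (nat_lit 11) (.e (nat_lit 24626) (nat_lit 9) (.e (nat_lit 336306) (nat_lit 15) (.e (nat_lit 3297) (nat_lit 202) .nil))))))) (.g (nat_lit 1) (.e (nat_lit 412887) (nat_lit 0) .nil) .nil))) 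
(.lf (nat_lit 597815) (.g (nat_lit 2653) (.e (nat_lit 573482) (nat_lit 13) (.e (nat_lit 65619) (nat_lit 10) (.e (nat_lit 344129) (nat_lit 26) (.e (nat_lit 557086) (nat_lit 11) (.e (nat_lit 24630) (nat_lit 9) (.e (nat_lit 336306) (nat_lit 15) (.e (nat_lit 3298) (nat_lit 202) .nil))))))) (.g (nat_lit 1) (.e (nat_lit 413510) (nat_lit 0) .nil) .nil))))) (.nd (nat_lit 8) (.nd (nat_lit 9) 
(.lf (nat_lit 597175) (.g (nat_lit 3181) (.e (nat_lit 573481) (nat_lit 13) (.e (nat_lit 65619) (nat_lit 10) (.e (nat_lit 344117) (nat_lit 21) (.e (nat_lit 516151) (nat_lit 9) (.e (nat_lit 426042) (nat_lit 0) (.e (nat_lit 3403) (nat_lit 212) (.e (nat_lit 655373) (nat_lit 3) (.e (nat_lit 163976) (nat_lit 30) .nil)))))))) (.g (nat_lit 1) (.e (nat_lit 412715) (nat_lit 0) .nil) .nil))) 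
(.lf (nat_lit 597687) (.g (nat_lit 4417) (.e (nat_lit 573482) (nat_lit 13) (.e (nat_lit 65619) (nat_lit 10) (.e (nat_lit 344117) (nat_lit 21) (.e (nat_lit 516151) (nat_lit 9) (.e (nat_lit 426047) (nat_lit 0) (.e (nat_lit 2458) (nat_lit 157) (.e (nat_lit 5547) (nat_lit 306) (.e (nat_lit 2610) (nat_lit 163) (.e (nat_lit 163979) (nat_lit 30) .nil))))))))) (.g (nat_lit 1) (.e (nat_lit 413361) (nat_lit 0) .nil) .nil)))) 
(.nd (nat_lit 9) 
(.lf (nat_lit 597431) (.g (nat_lit 3496) (.e (nat_lit 573482) (nat_lit 13) (.e (nat_lit 65604) (nat_lit 9) (.e (nat_lit 336013) (nat_lit 2) (.e (nat_lit 90170) (nat_lit 13) (.e (nat_lit 172048) (nat_lit 0) (.e (nat_lit 3409) (nat_lit 212) (.e (nat_lit 655375) (nat_lit 3) (.e (nat_lit 163977) (nat_lit 30) .nil)))))))) (.g (nat_lit 1) (.e (nat_lit 413094) (nat_lit 0) .nil) .nil))) 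
(.lf (nat_lit 597943) (.g (nat_lit 2053) (.e (nat_lit 573484) (nat_lit 13) (.e (nat_lit 65610) (nat_lit 10) (.e (nat_lit 344117) (nat_lit 21) (.e (nat_lit 516116) (nat_lit 1) (.e (nat_lit 164413) (nat_lit 260) .nil))))) (.g (nat_lit 0) (.e (nat_lit 413727) (nat_lit 0) .nil) .nil)))))) (.nd (nat_lit 7) (.nd (nat_lit 8) (.nd (nat_lit 9) 
(.lf (nat_lit 597111) (.g (nat_lit 3095) (.e (nat_lit 573481) (nat_lit 13) (.e (nat_lit 65619) (nat_lit 10) (.e (nat_lit 344117) (nat_lit 21) (.e (nat_lit 516145) (nat_lit 9) (.e (nat_lit 426393) (nat_lit 15) .nil))))) (.g (nat_lit 0) (.e (nat_lit 412651) (nat_lit 0) .nil) .nil))) 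
(.lf (nat_lit 597623) (.g (nat_lit 3257) (.e (nat_lit 573482) (nat_lit 13) (.e (nat_lit 65619) (nat_lit 10) (.e (nat_lit 344117) (nat_lit 21) (.e (nat_lit 516145) (nat_lit 9) (.e (nat_lit 433920) (nat_lit 24) (.e (nat_lit 163584) (nat_lit 3) (.e (nat_lit 163979) (nat_lit 30) .nil))))))) (.g (nat_lit 1) (.e (nat_lit 413297) (nat_lit 0) .nil) .nil)))) (.nd (nat_lit 9) 
(.lf (nat_lit 597367) (.g (nat_lit 3640) (.e (nat_lit 573482) (nat_lit 13) (.e (nat_lit 65604) (nat_lit 9) (.e (nat_lit 336013) (nat_lit 2) (.e (nat_lit 90121) (nat_lit 9) .nil)))) (.g (nat_lit 0) (.e (nat_lit 413024) (nat_lit 0) .nil) .nil))) 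
(.lf (nat_lit 597879) (.g (nat_lit 2441) (.e (nat_lit 573482) (nat_lit 13) (.e (nat_lit 65630) (nat_lit 14) (.e (nat_lit 401425) (nat_lit 2) (.e (nat_lit 196681) (nat_lit 17) (.e (nat_lit 131119) (nat_lit 12) .nil))))) (.g (nat_lit 0) (.e (nat_lit 413596) (nat_lit 0) .nil) .nil))))) (.nd (nat_lit 8) (.nd (nat_lit 9) 
(.lf (nat_lit 597239) (.g (nat_lit 4163) (.e (nat_lit 573481) (nat_lit 13) (.e (nat_lit 65619) (nat_lit 10) (.e (nat_lit 344117) (nat_lit 21) (.e (nat_lit 516160) (nat_lit 10) (.e (nat_lit 434209) (nat_lit 18) (.e (nat_lit 5547) (nat_lit 306) (.e (nat_lit 2599) (nat_lit 163) (.e (nat_lit 163976) (nat_lit 30) .nil)))))))) (.g (nat_lit 1) (.e (nat_lit 412784) (nat_lit 0) .nil) .nil))) 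
(.lf (nat_lit 597751) (.g (nat_lit 3089) (.e (nat_lit 573482) (nat_lit 13) (.e (nat_lit 65619) (nat_lit 10) (.e (nat_lit 344117) (nat_lit 21) (.e (nat_lit 516160) (nat_lit 10) (.e (nat_lit 434215) (nat_lit 18) (.e (nat_lit 5448) (nat_lit 306) (.e (nat_lit 2612) (nat_lit 163) (.e (nat_lit 163979) (nat_lit 30) .nil)))))))) (.g (nat_lit 1) (.e (nat_lit 413425) (nat_lit 0) .nil) .nil)))) 
(.nd (nat_lit 9) 
(.lf (nat_lit 597495) (.g (nat_lit 3822) (.e (nat_lit 573482) (nat_lit 13) (.e (nat_lit 65604) (nat_lit 9) (.e (nat_lit 336013) (nat_lit 2) (.e (nat_lit 90183) (nat_lit 17) .nil)))) (.g (nat_lit 0) (.e (nat_lit 413158) (nat_lit 0) .nil) .nil))) 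
(.lf (nat_lit 598007) (.g (nat_lit 4742) (.e (nat_lit 573484) (nat_lit 13) (.e (nat_lit 65610) (nat_lit 10) (.e (nat_lit 344117) (nat_lit 21) (.e (nat_lit 516151) (nat_lit 9) (.e (nat_lit 426043) (nat_lit 0) (.e (nat_lit 3409) (nat_lit 212) (.e (nat_lit 655375) (nat_lit 3) (.e (nat_lit 163977) (nat_lit 30) .nil)))))))) (.g (nat_lit 1) (.e (nat_lit 413875) (nat_lit 0) .nil) .nil))))))))) 
(.nd (nat_lit 4) (.nd (nat_lit 5) (.nd (nat_lit 6) (.nd (nat_lit 7) (.nd (nat_lit 8) 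
(.nd (nat_lit 9) 
(.lf (nat_lit 597007) (.g (nat_lit 4431) (.e (nat_lit 573481) (nat_lit 13) (.e (nat_lit 65609) (nat_lit 10) (.e (nat_lit 344117) (nat_lit 21) (.e (nat_lit 516151) (nat_lit 9) (.e (nat_lit 426412) (nat_lit 15) (.e (nat_lit 2058) (nat_lit 142) (.e (nat_lit 704589) (nat_lit 3) (.e (nat_lit 163975) (nat_lit 30) .nil)))))))) (.g (nat_lit 1) (.e (nat_lit 412530) (nat_lit 0) .nil) .nil))) 
(.lf (nat_lit 597519) (.g (nat_lit 3218) (.e (nat_lit 573482) (nat_lit 13) (.e (nat_lit 65604) (nat_lit 9) (.e (nat_lit 336028) (nat_lit 3) (.e (nat_lit 98367) (nat_lit 27) (.e (nat_lit 434209) (nat_lit 18) (.e (nat_lit 5548) (nat_lit 306) (.e (nat_lit 2600) (nat_lit 163) (.e (nat_lit 163977) (nat_lit 30) .nil)))))))) (.g (nat_lit 1) (.e (nat_lit 413188) (nat_lit 0) .nil) .nil)))) 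
(.nd (nat_lit 9) 
(.lf (nat_lit 597263) (.g (nat_lit 2271) (.e (nat_lit 573481) (nat_lit 13) (.e (nat_lit 65619) (nat_lit 10) (.e (nat_lit 344117) (nat_lit 21) (.e (nat_lit 516181) (nat_lit 15) (.e (nat_lit 475196) (nat_lit 40) (.e (nat_lit 704589) (nat_lit 3) (.e (nat_lit 163976) (nat_lit 30) .nil))))))) (.g (nat_lit 1) (.e (nat_lit 412823) (nat_lit 0) .nil) .nil))) 
(.lf (nat_lit 597775) (.g (nat_lit 2679) (.e (nat_lit 573482) (nat_lit 13) (.e (nat_lit 65619) (nat_lit 10) (.e (nat_lit 344117) (nat_lit 21) (.e (nat_lit 516185) (nat_lit 16) (.e (nat_lit 491547) (nat_lit 9) (.e (nat_lit 336260) (nat_lit 15) (.e (nat_lit 3308) (nat_lit 202) .nil))))))) (.g (nat_lit 1) (.e (nat_lit 413449) (nat_lit 0) .nil) .nil))))) (.nd (nat_lit 8) (.nd (nat_lit 9) 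
(.lf (nat_lit 597135) (.g (nat_lit 3264) (.e (nat_lit 573481) (nat_lit 13) (.e (nat_lit 65619) (nat_lit 10) (.e (nat_lit 344117) (nat_lit 21) (.e (nat_lit 516145) (nat_lit 9) (.e (nat_lit 426467) (nat_lit 24) .nil))))) (.g (nat_lit 0) (.e (nat_lit 412675) (nat_lit 0) .nil) .nil))) 
(.lf (nat_lit 597647) (.g (nat_lit 4043) (.e (nat_lit 573482) (nat_lit 13) (.e (nat_lit 65619) (nat_lit 10) (.e (nat_lit 344117) (nat_lit 21) (.e (nat_lit 516151) (nat_lit 9) (.e (nat_lit 426038) (nat_lit 0) (.e (nat_lit 2458) (nat_lit 157) (.e (nat_lit 5547) (nat_lit 306) (.e (nat_lit 2611) (nat_lit 163) (.e (nat_lit 163977) (nat_lit 30) .nil))))))))) (.g (nat_lit 1) (.e (nat_lit 413321) (nat_lit 0) .nil) .nil)))) 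
(.nd (nat_lit 9) 
(.lf (nat_lit 597391) (.g (nat_lit 2683) (.e (nat_lit 573482) (nat_lit 13) (.e (nat_lit 65604) (nat_lit 9) (.e (nat_lit 336013) (nat_lit 2) (.e (nat_lit 90170) (nat_lit 13) (.e (nat_lit 172033) (nat_lit 0) (.e (nat_lit 3401) (nat_lit 211) (.e (nat_lit 647180) (nat_lit 3) (.e (nat_lit 163979) (nat_lit 30) .nil)))))))) (.g (nat_lit 1) (.e (nat_lit 413054) (nat_lit 0) .nil) .nil))) 
(.lf (nat_lit 597903) (.g (nat_lit 498) (.e (nat_lit 573484) (nat_lit 13) (.e (nat_lit 65568) (nat_lit 2) (.e (nat_lit 98048) (nat_lit 0) .nil))) (.g (nat_lit 0) (.e (nat_lit 413642) (nat_lit 0) .nil) .nil)))))) (.nd (nat_lit 7) (.nd (nat_lit 8) (.nd (nat_lit 9) 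
(.lf (nat_lit 597071) (.g (nat_lit 3176) (.e (nat_lit 573481) (nat_lit 13) (.e (nat_lit 65619) (nat_lit 10) (.e (nat_lit 344117) (nat_lit 21) (.e (nat_lit 516144) (nat_lit 9) (.e (nat_lit 426420) (nat_lit 15) (.e (nat_lit 2056) (nat_lit 142) (.e (nat_lit 704589) (nat_lit 3) (.e (nat_lit 163975) (nat_lit 30) .nil)))))))) (.g (nat_lit 1) (.e (nat_lit 412611) (nat_lit 0) .nil) .nil))) 
(.lf (nat_lit 597583) (.g (nat_lit 3469) (.e (nat_lit 573482) (nat_lit 13) (.e (nat_lit 65619) (nat_lit 10) (.e (nat_lit 344117) (nat_lit 21) (.e (nat_lit 516145) (nat_lit 9) (.e (nat_lit 433920) (nat_lit 1) (.e (nat_lit 164348) (nat_lit 240) (.e (nat_lit 2599) (nat_lit 163) (.e (nat_lit 163979) (nat_lit 30) .nil)))))))) (.g (nat_lit 1) (.e (nat_lit 413257) (nat_lit 0) .nil) .nil)))) 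
(.nd (nat_lit 9) 
(.lf (nat_lit 597327) (.g (nat_lit 2286) (.e (nat_lit 573481) (nat_lit 13) (.e (nat_lit 65630) (nat_lit 14) (.e (nat_lit 401425) (nat_lit 2) (.e (nat_lit 196674) (nat_lit 15) (.e (nat_lit 81922) (nat_lit 0) .nil))))) (.g (nat_lit 0) (.e (nat_lit 412932) (nat_lit 0) .nil) .nil))) 
(.lf (nat_lit 597839) (.g (nat_lit 2532) (.e (nat_lit 573482) (nat_lit 13) (.e (nat_lit 65619) (nat_lit 10) (.e (nat_lit 344129) (nat_lit 26) (.e (nat_lit 557087) (nat_lit 11) (.e (nat_lit 24623) (nat_lit 9) (.e (nat_lit 336306) (nat_lit 15) (.e (nat_lit 3308) (nat_lit 202) .nil))))))) (.g (nat_lit 1) (.e (nat_lit 413536) (nat_lit 0) .nil) .nil))))) (.nd (nat_lit 8) (.nd (nat_lit 9) 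
(.lf (nat_lit 597199) (.g (nat_lit 3111) (.e (nat_lit 573481) (nat_lit 13) (.e (nat_lit 65619) (nat_lit 10) (.e (nat_lit 344117) (nat_lit 21) (.e (nat_lit 516151) (nat_lit 9) (.e (nat_lit 426104) (nat_lit 1) .nil))))) (.g (nat_lit 0) (.e (nat_lit 412740) (nat_lit 0) .nil) .nil))) 
(.lf (nat_lit 597711) (.g (nat_lit 3830) (.e (nat_lit 573482) (nat_lit 13) (.e (nat_lit 65619) (nat_lit 10) (.e (nat_lit 344117) (nat_lit 21) (.e (nat_lit 516151) (nat_lit 9) (.e (nat_lit 426365) (nat_lit 15) .nil))))) (.g (nat_lit 0) (.e (nat_lit 413385) (nat_lit 0) .nil) .nil)))) (.nd (nat_lit 9) 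
(.lf (nat_lit 597455) (.g (nat_lit 3622) (.e (nat_lit 573482) (nat_lit 13) (.e (nat_lit 65604) (nat_lit 9) (.e (nat_lit 336013) (nat_lit 2) (.e (nat_lit 90170) (nat_lit 13) (.e (nat_lit 172060) (nat_lit 1) (.e (nat_lit 164345) (nat_lit 240) (.e (nat_lit 2601) (nat_lit 163) (.e (nat_lit 163977) (nat_lit 30) .nil)))))))) (.g (nat_lit 1) (.e (nat_lit 413118) (nat_lit 0) .nil) .nil))) 
(.lf (nat_lit 597967) (.g (nat_lit 2936) (.e (nat_lit 573484) (nat_lit 13) (.e (nat_lit 65610) (nat_lit 10) (.e (nat_lit 344117) (nat_lit 21) (.e (nat_lit 516151) (nat_lit 9) (.e (nat_lit 426034) (nat_lit 0) .nil))))) (.g (nat_lit 0) (.e (nat_lit 413779) (nat_lit 0) .nil) .nil))))))) (.nd (nat_lit 6) (.nd (nat_lit 7) (.nd (nat_lit 8) (.nd (nat_lit 9) 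
(.lf (nat_lit 597039) (.g (nat_lit 2051) (.e (nat_lit 573481) (nat_lit 13) (.e (nat_lit 65619) (nat_lit 10) (.e (nat_lit 344117) (nat_lit 21) (.e (nat_lit 516102) (nat_lit 0) (.e (nat_lit 6989) (nat_lit 377) .nil))))) (.g (nat_lit 0) (.e (nat_lit 412568) (nat_lit 0) .nil) .nil))) 
(.lf (nat_lit 597551) (.g (nat_lit 2389) (.e (nat_lit 573482) (nat_lit 13) (.e (nat_lit 65619) (nat_lit 10) (.e (nat_lit 344117) (nat_lit 21) (.e (nat_lit 516102) (nat_lit 0) (.e (nat_lit 6989) (nat_lit 377) (.e (nat_lit 2777) (nat_lit 178) (.e (nat_lit 286765) (nat_lit 15) (.e (nat_lit 3296) (nat_lit 202) .nil)))))))) (.g (nat_lit 1) (.e (nat_lit 413222) (nat_lit 0) .nil) .nil)))) 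
(.nd (nat_lit 9) 
(.lf (nat_lit 597295) (.g (nat_lit 2613) (.e (nat_lit 573481) (nat_lit 13) (.e (nat_lit 65619) (nat_lit 10) (.e (nat_lit 344129) (nat_lit 26) (.e (nat_lit 557072) (nat_lit 9) (.e (nat_lit 290) (nat_lit 21) .nil))))) (.g (nat_lit 0) (.e (nat_lit 412870) (nat_lit 0) .nil) .nil))) 
(.lf (nat_lit 597807) (.g (nat_lit 1925) (.e (nat_lit 573482) (nat_lit 13) (.e (nat_lit 65619) (nat_lit 10) (.e (nat_lit 344129) (nat_lit 26) (.e (nat_lit 557074) (nat_lit 9) (.e (nat_lit 278) (nat_lit 21) .nil))))) (.g (nat_lit 0) (.e (nat_lit 413502) (nat_lit 0) .nil) .nil))))) (.nd (nat_lit 8) (.nd (nat_lit 9) 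
(.lf (nat_lit 597167) (.g (nat_lit 3378) (.e (nat_lit 573481) (nat_lit 13) (.e (nat_lit 65619) (nat_lit 10) (.e (nat_lit 344117) (nat_lit 21) (.e (nat_lit 516151) (nat_lit 9) (.e (nat_lit 426042) (nat_lit 0) (.e (nat_lit 2458) (nat_lit 157) (.e (nat_lit 5546) (nat_lit 306) (.e (nat_lit 2599) (nat_lit 163) (.e (nat_lit 163975) (nat_lit 30) .nil))))))))) (.g (nat_lit 1) (.e (nat_lit 412707) (nat_lit 0) .nil) .nil))) 
(.lf (nat_lit 597679) (.g (nat_lit 3527) (.e (nat_lit 573482) (nat_lit 13) (.e (nat_lit 65619) (nat_lit 10) (.e (nat_lit 344117) (nat_lit 21) (.e (nat_lit 516151) (nat_lit 9) (.e (nat_lit 426042) (nat_lit 0) (.e (nat_lit 3407) (nat_lit 212) (.e (nat_lit 655375) (nat_lit 3) (.e (nat_lit 163977) (nat_lit 30) .nil)))))))) (.g (nat_lit 1) (.e (nat_lit 413353) (nat_lit 0) .nil) .nil)))) 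
(.nd (nat_lit 9) 
(.lf (nat_lit 597423) (.g (nat_lit 2586) (.e (nat_lit 573482) (nat_lit 13) (.e (nat_lit 65604) (nat_lit 9) (.e (nat_lit 336013) (nat_lit 2) (.e (nat_lit 90170) (nat_lit 13) (.e (nat_lit 172046) (nat_lit 0) (.e (nat_lit 2478) (nat_lit 157) (.e (nat_lit 5543) (nat_lit 306) (.e (nat_lit 2611) (nat_lit 163) (.e (nat_lit 163977) (nat_lit 30) .nil))))))))) (.g (nat_lit 1) (.e (nat_lit 413086) (nat_lit 0) .nil) .nil))) 
(.lf (nat_lit 597935) (.g (nat_lit 2574) (.e (nat_lit 573484) (nat_lit 13) (.e (nat_lit 65610) (nat_lit 10) (.e (nat_lit 344117) (nat_lit 21) (.e (nat_lit 516106) (nat_lit 0) (.e (nat_lit 7554) (nat_lit 402) .nil))))) (.g (nat_lit 0) (.e (nat_lit 413718) (nat_lit 0) .nil) .nil)))))) (.nd (nat_lit 7) (.nd (nat_lit 8) (.nd (nat_lit 9) 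
(.lf (nat_lit 597103) (.g (nat_lit 4013) (.e (nat_lit 573481) (nat_lit 13) (.e (nat_lit 65619) (nat_lit 10) (.e (nat_lit 344117) (nat_lit 21) (.e (nat_lit 516145) (nat_lit 9) (.e (nat_lit 426376) (nat_lit 15) (.e (nat_lit 2056) (nat_lit 142) (.e (nat_lit 704589) (nat_lit 3) (.e (nat_lit 163975) (nat_lit 30) .nil)))))))) (.g (nat_lit 1) (.e (nat_lit 412643) (nat_lit 0) .nil) .nil))) 
(.lf (nat_lit 597615) (.g (nat_lit 3163) (.e (nat_lit 573482) (nat_lit 13) (.e (nat_lit 65619) (nat_lit 10) (.e (nat_lit 344117) (nat_lit 21) (.e (nat_lit 516145) (nat_lit 9) (.e (nat_lit 426402) (nat_lit 15) .nil))))) (.g (nat_lit 0) (.e (nat_lit 413289) (nat_lit 0) .nil) .nil)))) (.nd (nat_lit 9) 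
(.lf (nat_lit 597359) (.g (nat_lit 4290) (.e (nat_lit 573482) (nat_lit 13) (.e (nat_lit 65598) (nat_lit 9) (.e (nat_lit 336013) (nat_lit 2) (.e (nat_lit 90134) (nat_lit 9) (.e (nat_lit 3098) (nat_lit 192) (.e (nat_lit 491566) (nat_lit 12) (.e (nat_lit 385074) (nat_lit 31) .nil))))))) (.g (nat_lit 1) (.e (nat_lit 413016) (nat_lit 0) .nil) .nil))) 
(.lf (nat_lit 597871) (.g (nat_lit 332) (.e (nat_lit 573482) (nat_lit 13) (.e (nat_lit 65630) (nat_lit 14) (.e (nat_lit 401425) (nat_lit 2) .nil))) (.g (nat_lit 0) (.e (nat_lit 413588) (nat_lit 0) .nil) .nil))))) (.nd (nat_lit 8) (.nd (nat_lit 9) 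
(.lf (nat_lit 597231) (.g (nat_lit 2862) (.e (nat_lit 573481) (nat_lit 13) (.e (nat_lit 65619) (nat_lit 10) (.e (nat_lit 344117) (nat_lit 21) (.e (nat_lit 516155) (nat_lit 9) (.e (nat_lit 426412) (nat_lit 15) (.e (nat_lit 2059) (nat_lit 142) (.e (nat_lit 704589) (nat_lit 3) (.e (nat_lit 163976) (nat_lit 30) .nil)))))))) (.g (nat_lit 1) (.e (nat_lit 412774) (nat_lit 0) .nil) .nil))) 
(.lf (nat_lit 597743) (.g (nat_lit 2716) (.e (nat_lit 573482) (nat_lit 13) (.e (nat_lit 65619) (nat_lit 10) (.e (nat_lit 344117) (nat_lit 21) (.e (nat_lit 516160) (nat_lit 10) (.e (nat_lit 434209) (nat_lit 18) (.e (nat_lit 5548) (nat_lit 306) (.e (nat_lit 2601) (nat_lit 163) (.e (nat_lit 163974) (nat_lit 30) .nil)))))))) (.g (nat_lit 1) (.e (nat_lit 413417) (nat_lit 0) .nil) .nil)))) 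
(.nd (nat_lit 9) 
(.lf (nat_lit 597487) (.g (nat_lit 2506) (.e (nat_lit 573482) (nat_lit 13) (.e (nat_lit 65604) (nat_lit 9) (.e (nat_lit 336013) (nat_lit 2) (.e (nat_lit 90170) (nat_lit 13) (.e (nat_lit 179968) (nat_lit 19) (.e (nat_lit 114432) (nat_lit 3) (.e (nat_lit 163974) (nat_lit 30) .nil))))))) (.g (nat_lit 1) (.e (nat_lit 413150) (nat_lit 0) .nil) .nil))) 
(.lf (nat_lit 597999) (.g (nat_lit 3916) (.e (nat_lit 573484) (nat_lit 13) (.e (nat_lit 65610) (nat_lit 10) (.e (nat_lit 344117) (nat_lit 21) (.e (nat_lit 516151) (nat_lit 9) (.e (nat_lit 426045) (nat_lit 0) (.e (nat_lit 2458) (nat_lit 157) (.e (nat_lit 5547) (nat_lit 306) (.e (nat_lit 2610) (nat_lit 163) (.e (nat_lit 163978) (nat_lit 30) .nil))))))))) (.g (nat_lit 1) (.e (nat_lit 413866) (nat_lit 0) .nil) .nil)))))))) 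
(.nd (nat_lit 5) (.nd (nat_lit 6) (.nd (nat_lit 7) (.nd (nat_lit 8) (.nd (nat_lit 9) 
(.lf (nat_lit 597023) (.g (nat_lit 3236) (.e (nat_lit 573481) (nat_lit 13) (.e (nat_lit 65610) (nat_lit 10) (.e (nat_lit 344117) (nat_lit 21) (.e (nat_lit 516179) (nat_lit 15) (.e (nat_lit 475198) (nat_lit 40) (.e (nat_lit 704589) (nat_lit 3) (.e (nat_lit 163976) (nat_lit 30) .nil))))))) (.g (nat_lit 1) (.e (nat_lit 412546) (nat_lit 0) .nil) .nil))) 
(.lf (nat_lit 597535) (.g (nat_lit 3365) (.e (nat_lit 573482) (nat_lit 13) (.e (nat_lit 65610) (nat_lit 10) (.e (nat_lit 344117) (nat_lit 21) (.e (nat_lit 516179) (nat_lit 15) (.e (nat_lit 475197) (nat_lit 40) .nil))))) (.g (nat_lit 0) (.e (nat_lit 413205) (nat_lit 0) .nil) .nil)))) (.nd (nat_lit 9) 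
(.lf (nat_lit 597279) (.g (nat_lit 2214) (.e (nat_lit 573481) (nat_lit 13) (.e (nat_lit 65619) (nat_lit 10) (.e (nat_lit 344117) (nat_lit 21) (.e (nat_lit 516185) (nat_lit 16) (.e (nat_lit 491547) (nat_lit 9) .nil))))) (.g (nat_lit 0) (.e (nat_lit 412839) (nat_lit 0) .nil) .nil))) 
(.lf (nat_lit 597791) (.g (nat_lit 1964) (.e (nat_lit 573482) (nat_lit 13) (.e (nat_lit 65619) (nat_lit 10) (.e (nat_lit 344129) (nat_lit 26) (.e (nat_lit 557066) (nat_lit 9) (.e (nat_lit 245) (nat_lit 21) .nil))))) (.g (nat_lit 0) (.e (nat_lit 413478) (nat_lit 0) .nil) .nil))))) (.nd (nat_lit 8) (.nd (nat_lit 9) 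
(.lf (nat_lit 597151) (.g (nat_lit 2229) (.e (nat_lit 573481) (nat_lit 13) (.e (nat_lit 65619) (nat_lit 10) (.e (nat_lit 344117) (nat_lit 21) (.e (nat_lit 516151) (nat_lit 9) (.e (nat_lit 426003) (nat_lit 0) .nil))))) (.g (nat_lit 0) (.e (nat_lit 412691) (nat_lit 0) .nil) .nil))) 
(.lf (nat_lit 597663) (.g (nat_lit 2961) (.e (nat_lit 573482) (nat_lit 13) (.e (nat_lit 65619) (nat_lit 10) (.e (nat_lit 344117) (nat_lit 21) (.e (nat_lit 516151) (nat_lit 9) (.e (nat_lit 426042) (nat_lit 0) .nil))))) (.g (nat_lit 0) (.e (nat_lit 413337) (nat_lit 0) .nil) .nil)))) (.nd (nat_lit 9) 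
(.lf (nat_lit 597407) (.g (nat_lit 2783) (.e (nat_lit 573482) (nat_lit 13) (.e (nat_lit 65604) (nat_lit 9) (.e (nat_lit 336013) (nat_lit 2) (.e (nat_lit 90170) (nat_lit 13) (.e (nat_lit 172041) (nat_lit 0) .nil))))) (.g (nat_lit 0) (.e (nat_lit 413070) (nat_lit 0) .nil) .nil))) 
(.lf (nat_lit 597919) (.g (nat_lit 1514) (.e (nat_lit 573484) (nat_lit 13) (.e (nat_lit 65610) (nat_lit 10) (.e (nat_lit 344117) (nat_lit 21) (.e (nat_lit 516096) (nat_lit 0) .nil)))) (.g (nat_lit 0) (.e (nat_lit 413684) (nat_lit 0) .nil) .nil)))))) (.nd (nat_lit 7) (.nd (nat_lit 8) (.nd (nat_lit 9) 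
(.lf (nat_lit 597087) (.g (nat_lit 3512) (.e (nat_lit 573481) (nat_lit 13) (.e (nat_lit 65619) (nat_lit 10) (.e (nat_lit 344117) (nat_lit 21) (.e (nat_lit 516145) (nat_lit 9) (.e (nat_lit 426357) (nat_lit 15) .nil))))) (.g (nat_lit 0) (.e (nat_lit 412627) (nat_lit 0) .nil) .nil))) 
(.lf (nat_lit 597599) (.g (nat_lit 3806) (.e (nat_lit 573482) (nat_lit 13) (.e (nat_lit 65619) (nat_lit 10) (.e (nat_lit 344117) (nat_lit 21) (.e (nat_lit 516145) (nat_lit 9) (.e (nat_lit 426364) (nat_lit 15) (.e (nat_lit 2160) (nat_lit 143) (.e (nat_lit 712716) (nat_lit 15) (.e (nat_lit 3308) (nat_lit 202) .nil)))))))) (.g (nat_lit 1) (.e (nat_lit 413273) (nat_lit 0) .nil) .nil)))) 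
(.nd (nat_lit 9) 
(.lf (nat_lit 597343) (.g (nat_lit 1487) (.e (nat_lit 573481) (nat_lit 13) (.e (nat_lit 65630) (nat_lit 14) (.e (nat_lit 401428) (nat_lit 3) (.e (nat_lit 204875) (nat_lit 31) .nil)))) (.g (nat_lit 0) (.e (nat_lit 412948) (nat_lit 0) .nil) .nil))) 
(.lf (nat_lit 597855) (.g (nat_lit 2263) (.e (nat_lit 573482) (nat_lit 13) (.e (nat_lit 65619) (nat_lit 10) (.e (nat_lit 344129) (nat_lit 26) (.e (nat_lit 557087) (nat_lit 11) (.e (nat_lit 24652) (nat_lit 12) (.e (nat_lit 385073) (nat_lit 31) .nil)))))) (.g (nat_lit 1) (.e (nat_lit 413552) (nat_lit 0) .nil) .nil))))) (.nd (nat_lit 8) (.nd (nat_lit 9) 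
(.lf (nat_lit 597215) (.g (nat_lit 3976) (.e (nat_lit 573481) (nat_lit 13) (.e (nat_lit 65619) (nat_lit 10) (.e (nat_lit 344117) (nat_lit 21) (.e (nat_lit 516151) (nat_lit 9) (.e (nat_lit 426380) (nat_lit 15) (.e (nat_lit 2058) (nat_lit 142) (.e (nat_lit 704589) (nat_lit 3) (.e (nat_lit 163976) (nat_lit 30) .nil)))))))) (.g (nat_lit 1) (.e (nat_lit 412758) (nat_lit 0) .nil) .nil))) 
(.lf (nat_lit 597727) (.g (nat_lit 5113) (.e (nat_lit 573482) (nat_lit 13) (.e (nat_lit 65619) (nat_lit 10) (.e (nat_lit 344117) (nat_lit 21) (.e (nat_lit 516159) (nat_lit 10) (.e (nat_lit 434209) (nat_lit 18) (.e (nat_lit 5547) (nat_lit 306) (.e (nat_lit 2610) (nat_lit 163) (.e (nat_lit 163979) (nat_lit 30) .nil)))))))) (.g (nat_lit 1) (.e (nat_lit 413401) (nat_lit 0) .nil) .nil)))) 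
(.nd (nat_lit 9) 
(.lf (nat_lit 597471) (.g (nat_lit 2938) (.e (nat_lit 573482) (nat_lit 13) (.e (nat_lit 65604) (nat_lit 9) (.e (nat_lit 336013) (nat_lit 2) (.e (nat_lit 90170) (nat_lit 13) (.e (nat_lit 172068) (nat_lit 4) (.e (nat_lit 229666) (nat_lit 240) (.e (nat_lit 2717) (nat_lit 171) (.e (nat_lit 229439) (nat_lit 30) .nil)))))))) (.g (nat_lit 1) (.e (nat_lit 413134) (nat_lit 0) .nil) .nil))) 
(.lf (nat_lit 597983) (.g (nat_lit 4198) (.e (nat_lit 573484) (nat_lit 13) (.e (nat_lit 65610) (nat_lit 10) (.e (nat_lit 344117) (nat_lit 21) (.e (nat_lit 516151) (nat_lit 9) (.e (nat_lit 426038) (nat_lit 0) (.e (nat_lit 2478) (nat_lit 157) (.e (nat_lit 5548) (nat_lit 306) (.e (nat_lit 2610) (nat_lit 163) (.e (nat_lit 163978) (nat_lit 30) .nil))))))))) (.g (nat_lit 1) (.e (nat_lit 413834) (nat_lit 0) .nil) .nil))))))) 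
(.nd (nat_lit 6) (.nd (nat_lit 7) (.nd (nat_lit 8) (.nd (nat_lit 9) 
(.lf (nat_lit 597055) (.g (nat_lit 3716) (.e (nat_lit 573481) (nat_lit 13) (.e (nat_lit 65619) (nat_lit 10) (.e (nat_lit 344117) (nat_lit 21) (.e (nat_lit 516143) (nat_lit 9) (.e (nat_lit 426109) (nat_lit 1) (.e (nat_lit 164347) (nat_lit 240) (.e (nat_lit 2599) (nat_lit 163) (.e (nat_lit 163976) (nat_lit 30) .nil)))))))) (.g (nat_lit 1) (.e (nat_lit 412595) (nat_lit 0) .nil) .nil))) 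
(.lf (nat_lit 597567) (.g (nat_lit 3110) (.e (nat_lit 573482) (nat_lit 13) (.e (nat_lit 65619) (nat_lit 10) (.e (nat_lit 344117) (nat_lit 21) (.e (nat_lit 516139) (nat_lit 7) (.e (nat_lit 409642) (nat_lit 17) .nil))))) (.g (nat_lit 0) (.e (nat_lit 413238) (nat_lit 0) .nil) .nil)))) (.nd (nat_lit 9) 
(.lf (nat_lit 597311) (.g (nat_lit 2339) (.e (nat_lit 573481) (nat_lit 13) (.e (nat_lit 65624) (nat_lit 12) (.e (nat_lit 385074) (nat_lit 31) (.e (nat_lit 573491) (nat_lit 15) (.e (nat_lit 89856) (nat_lit 0) (.e (nat_lit 3297) (nat_lit 202) .nil)))))) (.g (nat_lit 1) (.e (nat_lit 412902) (nat_lit 0) .nil) .nil))) 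
(.lf (nat_lit 597823) (.g (nat_lit 2400) (.e (nat_lit 573482) (nat_lit 13) (.e (nat_lit 65619) (nat_lit 10) (.e (nat_lit 344129) (nat_lit 26) (.e (nat_lit 557087) (nat_lit 11) (.e (nat_lit 24597) (nat_lit 1) .nil))))) (.g (nat_lit 0) (.e (nat_lit 413518) (nat_lit 0) .nil) .nil))))) (.nd (nat_lit 8) (.nd (nat_lit 9) 
(.lf (nat_lit 597183) (.g (nat_lit 3472) (.e (nat_lit 573481) (nat_lit 13) (.e (nat_lit 65619) (nat_lit 10) (.e (nat_lit 344117) (nat_lit 21) (.e (nat_lit 516151) (nat_lit 9) (.e (nat_lit 426042) (nat_lit 0) (.e (nat_lit 3408) (nat_lit 212) (.e (nat_lit 655373) (nat_lit 3) (.e (nat_lit 163975) (nat_lit 30) .nil)))))))) (.g (nat_lit 1) (.e (nat_lit 412723) (nat_lit 0) .nil) .nil))) 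
(.lf (nat_lit 597695) (.g (nat_lit 3820) (.e (nat_lit 573482) (nat_lit 13) (.e (nat_lit 65619) (nat_lit 10) (.e (nat_lit 344117) (nat_lit 21) (.e (nat_lit 516151) (nat_lit 9) (.e (nat_lit 426103) (nat_lit 1) .nil))))) (.g (nat_lit 0) (.e (nat_lit 413369) (nat_lit 0) .nil) .nil)))) (.nd (nat_lit 9) 
(.lf (nat_lit 597439) (.g (nat_lit 3417) (.e (nat_lit 573482) (nat_lit 13) (.e (nat_lit 65604) (nat_lit 9) (.e (nat_lit 336013) (nat_lit 2) (.e (nat_lit 90170) (nat_lit 13) (.e (nat_lit 172054) (nat_lit 0) .nil))))) (.g (nat_lit 0) (.e (nat_lit 413102) (nat_lit 0) .nil) .nil))) 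
(.lf (nat_lit 597951) (.g (nat_lit 4490) (.e (nat_lit 573484) (nat_lit 13) (.e (nat_lit 65610) (nat_lit 10) (.e (nat_lit 344117) (nat_lit 21) (.e (nat_lit 516143) (nat_lit 9) (.e (nat_lit 426109) (nat_lit 1) (.e (nat_lit 164347) (nat_lit 240) (.e (nat_lit 2601) (nat_lit 163) (.e (nat_lit 163977) (nat_lit 30) .nil)))))))) (.g (nat_lit 1) (.e (nat_lit 413744) (nat_lit 0) .nil) .nil)))))) 
(.nd (nat_lit 7) (.nd (nat_lit 8) (.nd (nat_lit 9) 
(.lf (nat_lit 597119) (.g (nat_lit 3347) (.e (nat_lit 573481) (nat_lit 13) (.e (nat_lit 65619) (nat_lit 10) (.e (nat_lit 344117) (nat_lit 21) (.e (nat_lit 516145) (nat_lit 9) (.e (nat_lit 426415) (nat_lit 15) (.e (nat_lit 7936) (nat_lit 142) (.e (nat_lit 704589) (nat_lit 3) (.e (nat_lit 163975) (nat_lit 30) .nil)))))))) (.g (nat_lit 1) (.e (nat_lit 412659) (nat_lit 0) .nil) .nil))) 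
(.lf (nat_lit 597631) (.g (nat_lit 3744) (.e (nat_lit 573482) (nat_lit 13) (.e (nat_lit 65619) (nat_lit 10) (.e (nat_lit 344117) (nat_lit 21) (.e (nat_lit 516151) (nat_lit 9) (.e (nat_lit 426018) (nat_lit 0) (.e (nat_lit 2536) (nat_lit 157) (.e (nat_lit 5547) (nat_lit 306) (.e (nat_lit 2610) (nat_lit 163) (.e (nat_lit 163979) (nat_lit 30) .nil))))))))) (.g (nat_lit 1) (.e (nat_lit 413305) (nat_lit 0) .nil) .nil)))) 
(.nd (nat_lit 9) 
(.lf (nat_lit 597375) (.g (nat_lit 2015) (.e (nat_lit 573482) (nat_lit 13) (.e (nat_lit 65604) (nat_lit 9) (.e (nat_lit 336013) (nat_lit 2) (.e (nat_lit 90134) (nat_lit 9) (.e (nat_lit 3096) (nat_lit 192) .nil))))) (.g (nat_lit 0) (.e (nat_lit 413038) (nat_lit 0) .nil) .nil))) 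
(.lf (nat_lit 597887) (.g (nat_lit 2825) (.e (nat_lit 573483) (nat_lit 13) (.e (nat_lit 65610) (nat_lit 10) (.e (nat_lit 344117) (nat_lit 21) (.e (nat_lit 516151) (nat_lit 9) (.e (nat_lit 426042) (nat_lit 0) .nil))))) (.g (nat_lit 0) (.e (nat_lit 413623) (nat_lit 0) .nil) .nil))))) (.nd (nat_lit 8) (.nd (nat_lit 9) 
(.lf (nat_lit 597247) (.g (nat_lit 3712) (.e (nat_lit 573481) (nat_lit 13) (.e (nat_lit 65619) (nat_lit 10) (.e (nat_lit 344117) (nat_lit 21) (.e (nat_lit 516178) (nat_lit 15) (.e (nat_lit 475198) (nat_lit 40) (.e (nat_lit 704589) (nat_lit 3) (.e (nat_lit 163976) (nat_lit 30) .nil))))))) (.g (nat_lit 1) (.e (nat_lit 412807) (nat_lit 0) .nil) .nil))) 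
(.lf (nat_lit 597759) (.g (nat_lit 2924) (.e (nat_lit 573482) (nat_lit 13) (.e (nat_lit 65619) (nat_lit 10) (.e (nat_lit 344117) (nat_lit 21) (.e (nat_lit 516169) (nat_lit 13) (.e (nat_lit 458774) (nat_lit 18) (.e (nat_lit 5547) (nat_lit 306) (.e (nat_lit 2610) (nat_lit 163) (.e (nat_lit 163977) (nat_lit 30) .nil)))))))) (.g (nat_lit 1) (.e (nat_lit 413433) (nat_lit 0) .nil) .nil)))) 
(.nd (nat_lit 9) 
(.lf (nat_lit 597503) (.g (nat_lit 3537) (.e (nat_lit 573482) (nat_lit 13) (.e (nat_lit 65604) (nat_lit 9) (.e (nat_lit 336028) (nat_lit 3) (.e (nat_lit 98359) (nat_lit 26) (.e (nat_lit 426097) (nat_lit 1) (.e (nat_lit 164345) (nat_lit 240) (.e (nat_lit 2600) (nat_lit 163) (.e (nat_lit 163977) (nat_lit 30) .nil)))))))) (.g (nat_lit 1) (.e (nat_lit 413169) (nat_lit 0) .nil) .nil))) 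
(.lf (nat_lit 598015) (.g (nat_lit 2899) (.e (nat_lit 573484) (nat_lit 13) (.e (nat_lit 65610) (nat_lit 10) (.e (nat_lit 344117) (nat_lit 21) (.e (nat_lit 516151) (nat_lit 9) (.e (nat_lit 426047) (nat_lit 0) .nil))))) (.g (nat_lit 0) (.e (nat_lit 413887) (nat_lit 0) .nil) .nil)))))))))))))

noncomputable def tv5644 : DT := (.nd (nat_lit 0) (.nd (nat_lit 1) (.nd (nat_lit 2) (.nd (nat_lit 3) (.nd (nat_lit 4) (.nd (nat_lit 5) (.nd (nat_lit 6) (.nd (nat_lit 7) (.nd (nat_lit 8) (.nd (nat_lit 9) 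
(.lf (nat_lit 598016) (.g (nat_lit 4095) (.e (nat_lit 573484) (nat_lit 13) (.e (nat_lit 65610) (nat_lit 10) (.e (nat_lit 344117) (nat_lit 21) (.e (nat_lit 516151) (nat_lit 9) (.e (nat_lit 426047) (nat_lit 0) (.e (nat_lit 2458) (nat_lit 157) (.e (nat_lit 5546) (nat_lit 306) (.e (nat_lit 2610) (nat_lit 163) (.e (nat_lit 163978) (nat_lit 30) .nil))))))))) (.g (nat_lit 1) (.e (nat_lit 413891) (nat_lit 0) .nil) .nil))) 
(.lf (nat_lit 598528) (.g (nat_lit 5116) (.e (nat_lit 573485) (nat_lit 13) (.e (nat_lit 65619) (nat_lit 10) (.e (nat_lit 344117) (nat_lit 21) (.e (nat_lit 516160) (nat_lit 10) (.e (nat_lit 434271) (nat_lit 38) (.e (nat_lit 655375) (nat_lit 3) (.e (nat_lit 163978) (nat_lit 30) .nil))))))) (.g (nat_lit 1) (.e (nat_lit 414709) (nat_lit 0) .nil) .nil)))) (.nd (nat_lit 9) 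
(.lf (nat_lit 598272) (.g (nat_lit 2633) (.e (nat_lit 573485) (nat_lit 13) (.e (nat_lit 65604) (nat_lit 9) (.e (nat_lit 336013) (nat_lit 2) (.e (nat_lit 90170) (nat_lit 13) (.e (nat_lit 172068) (nat_lit 4) (.e (nat_lit 229678) (nat_lit 244) (.e (nat_lit 163841) (nat_lit 0) (.e (nat_lit 3309) (nat_lit 202) .nil)))))))) (.g (nat_lit 1) (.e (nat_lit 414414) (nat_lit 0) .nil) .nil))) 
(.lf (nat_lit 598784) (.g (nat_lit 2175) (.e (nat_lit 573487) (nat_lit 14) (.e (nat_lit 73753) (nat_lit 8) (.e (nat_lit 557100) (nat_lit 13) (.e (nat_lit 172064) (nat_lit 2) (.e (nat_lit 204544) (nat_lit 2) .nil))))) (.g (nat_lit 0) (.e (nat_lit 415227) (nat_lit 0) .nil) .nil))))) (.nd (nat_lit 8) (.nd (nat_lit 9) 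
(.lf (nat_lit 598144) (.g (nat_lit 1728) (.e (nat_lit 573484) (nat_lit 13) (.e (nat_lit 65617) (nat_lit 10) (.e (nat_lit 344133) (nat_lit 26) (.e (nat_lit 557085) (nat_lit 11) (.e (nat_lit 32512) (nat_lit 12) .nil))))) (.g (nat_lit 0) (.e (nat_lit 414189) (nat_lit 0) .nil) .nil))) 
(.lf (nat_lit 598656) (.g (nat_lit 3718) (.e (nat_lit 573485) (nat_lit 13) (.e (nat_lit 65619) (nat_lit 10) (.e (nat_lit 344183) (nat_lit 49) (.e (nat_lit 819219) (nat_lit 4) (.e (nat_lit 172082) (nat_lit 7) (.e (nat_lit 409612) (nat_lit 10) (.e (nat_lit 632) (nat_lit 50) .nil))))))) (.g (nat_lit 1) (.e (nat_lit 414896) (nat_lit 0) .nil) .nil)))) (.nd (nat_lit 9) 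
(.lf (nat_lit 598400) (.g (nat_lit 3403) (.e (nat_lit 573485) (nat_lit 13) (.e (nat_lit 65619) (nat_lit 10) (.e (nat_lit 344117) (nat_lit 21) (.e (nat_lit 516145) (nat_lit 9) (.e (nat_lit 426360) (nat_lit 15) (.e (nat_lit 2056) (nat_lit 142) (.e (nat_lit 704589) (nat_lit 3) (.e (nat_lit 163978) (nat_lit 30) .nil)))))))) (.g (nat_lit 1) (.e (nat_lit 414580) (nat_lit 0) .nil) .nil))) 
(.lf (nat_lit 598912) (.g (nat_lit 2322) (.e (nat_lit 573488) (nat_lit 14) (.e (nat_lit 73754) (nat_lit 8) (.e (nat_lit 557105) (nat_lit 14) (.e (nat_lit 180252) (nat_lit 10) (.e (nat_lit 573475) (nat_lit 12) (.e (nat_lit 57504) (nat_lit 38) (.e (nat_lit 638994) (nat_lit 7) (.e (nat_lit 163976) (nat_lit 30) .nil)))))))) (.g (nat_lit 1) (.e (nat_lit 415548) (nat_lit 0) .nil) .nil)))))) 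
(.nd (nat_lit 7) (.nd (nat_lit 8) (.nd (nat_lit 9) 
(.lf (nat_lit 598080) (.g (nat_lit 3135) (.e (nat_lit 573484) (nat_lit 13) (.e (nat_lit 65610) (nat_lit 10) (.e (nat_lit 344118) (nat_lit 21) (.e (nat_lit 516146) (nat_lit 9) (.e (nat_lit 426444) (nat_lit 19) (.e (nat_lit 114432) (nat_lit 3) (.e (nat_lit 163978) (nat_lit 30) .nil))))))) (.g (nat_lit 1) (.e (nat_lit 414005) (nat_lit 0) .nil) .nil))) 
(.lf (nat_lit 598592) (.g (nat_lit 2709) (.e (nat_lit 573485) (nat_lit 13) (.e (nat_lit 65619) (nat_lit 10) (.e (nat_lit 344129) (nat_lit 26) (.e (nat_lit 557067) (nat_lit 9) (.e (nat_lit 7936) (nat_lit 23) .nil))))) (.g (nat_lit 0) (.e (nat_lit 414803) (nat_lit 0) .nil) .nil)))) (.nd (nat_lit 9) 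
(.lf (nat_lit 598336) (.g (nat_lit 2082) (.e (nat_lit 573485) (nat_lit 13) (.e (nat_lit 65604) (nat_lit 9) (.e (nat_lit 336028) (nat_lit 3) (.e (nat_lit 98388) (nat_lit 33) (.e (nat_lit 491562) (nat_lit 12) .nil))))) (.g (nat_lit 0) (.e (nat_lit 414496) (nat_lit 0) .nil) .nil))) 
(.lf (nat_lit 598848) (.g (nat_lit 2966) (.e (nat_lit 573487) (nat_lit 14) (.e (nat_lit 73755) (nat_lit 8) (.e (nat_lit 557091) (nat_lit 12) (.e (nat_lit 163999) (nat_lit 38) (.e (nat_lit 639016) (nat_lit 15) .nil))))) (.g (nat_lit 0) (.e (nat_lit 415402) (nat_lit 0) .nil) .nil))))) (.nd (nat_lit 8) (.nd (nat_lit 9) 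
(.lf (nat_lit 598208) (.g (nat_lit 2413) (.e (nat_lit 573485) (nat_lit 13) (.e (nat_lit 65604) (nat_lit 9) (.e (nat_lit 336013) (nat_lit 2) (.e (nat_lit 90170) (nat_lit 13) (.e (nat_lit 172036) (nat_lit 0) .nil))))) (.g (nat_lit 0) (.e (nat_lit 414341) (nat_lit 0) .nil) .nil))) 
(.lf (nat_lit 598720) (.g (nat_lit 2094) (.e (nat_lit 573486) (nat_lit 14) (.e (nat_lit 73753) (nat_lit 8) (.e (nat_lit 557101) (nat_lit 13) (.e (nat_lit 172064) (nat_lit 2) (.e (nat_lit 204544) (nat_lit 2) .nil))))) (.g (nat_lit 0) (.e (nat_lit 414988) (nat_lit 0) .nil) .nil)))) (.nd (nat_lit 9) 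
(.lf (nat_lit 598464) (.g (nat_lit 3391) (.e (nat_lit 573485) (nat_lit 13) (.e (nat_lit 65619) (nat_lit 10) (.e (nat_lit 344117) (nat_lit 21) (.e (nat_lit 516151) (nat_lit 9) (.e (nat_lit 426042) (nat_lit 0) (.e (nat_lit 2458) (nat_lit 157) (.e (nat_lit 5548) (nat_lit 306) (.e (nat_lit 2610) (nat_lit 163) (.e (nat_lit 163977) (nat_lit 30) .nil))))))))) (.g (nat_lit 1) (.e (nat_lit 414645) (nat_lit 0) .nil) .nil))) 
(.lf (nat_lit 598976) (.g (nat_lit 3179) (.e (nat_lit 573488) (nat_lit 14) (.e (nat_lit 73755) (nat_lit 8) (.e (nat_lit 557105) (nat_lit 14) (.e (nat_lit 180252) (nat_lit 10) (.e (nat_lit 573474) (nat_lit 12) (.e (nat_lit 57502) (nat_lit 38) (.e (nat_lit 638994) (nat_lit 7) (.e (nat_lit 163975) (nat_lit 30) .nil)))))))) (.g (nat_lit 1) (.e (nat_lit 415704) (nat_lit 0) .nil) .nil))))))) 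
(.nd (nat_lit 6) (.nd (nat_lit 7) (.nd (nat_lit 8) (.nd (nat_lit 9) 
(.lf (nat_lit 598048) (.g (nat_lit 1228) (.e (nat_lit 573484) (nat_lit 13) (.e (nat_lit 65610) (nat_lit 10) (.e (nat_lit 344117) (nat_lit 21) (.e (nat_lit 516178) (nat_lit 15) .nil)))) (.g (nat_lit 0) (.e (nat_lit 413957) (nat_lit 0) .nil) .nil))) 
(.lf (nat_lit 598560) (.g (nat_lit 1162) (.e (nat_lit 573485) (nat_lit 13) (.e (nat_lit 65619) (nat_lit 10) (.e (nat_lit 344126) (nat_lit 25) (.e (nat_lit 548889) (nat_lit 9) .nil)))) (.g (nat_lit 0) (.e (nat_lit 414749) (nat_lit 0) .nil) .nil)))) (.nd (nat_lit 9) 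
(.lf (nat_lit 598304) (.g (nat_lit 4243) (.e (nat_lit 573485) (nat_lit 13) (.e (nat_lit 65604) (nat_lit 9) (.e (nat_lit 336028) (nat_lit 3) (.e (nat_lit 98325) (nat_lit 17) (.e (nat_lit 6986) (nat_lit 377) (.e (nat_lit 2782) (nat_lit 178) (.e (nat_lit 286765) (nat_lit 15) (.e (nat_lit 3307) (nat_lit 202) .nil)))))))) (.g (nat_lit 1) (.e (nat_lit 414448) (nat_lit 0) .nil) .nil))) 
(.lf (nat_lit 598816) (.g (nat_lit 2678) (.e (nat_lit 573487) (nat_lit 14) (.e (nat_lit 73753) (nat_lit 8) (.e (nat_lit 557103) (nat_lit 14) (.e (nat_lit 180250) (nat_lit 10) (.e (nat_lit 573477) (nat_lit 12) (.e (nat_lit 57502) (nat_lit 38) (.e (nat_lit 638994) (nat_lit 7) (.e (nat_lit 163976) (nat_lit 30) .nil)))))))) (.g (nat_lit 1) (.e (nat_lit 415349) (nat_lit 0) .nil) .nil))))) 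
(.nd (nat_lit 8) (.nd (nat_lit 9) 
(.lf (nat_lit 598176) (.g (nat_lit 1552) (.e (nat_lit 573485) (nat_lit 13) (.e (nat_lit 65570) (nat_lit 3) (.e (nat_lit 98317) (nat_lit 9) (.e (nat_lit 336293) (nat_lit 15) .nil)))) (.g (nat_lit 0) (.e (nat_lit 414279) (nat_lit 0) .nil) .nil))) 
(.lf (nat_lit 598688) (.g (nat_lit 1634) (.e (nat_lit 573485) (nat_lit 13) (.e (nat_lit 65628) (nat_lit 14) (.e (nat_lit 401428) (nat_lit 3) (.e (nat_lit 204866) (nat_lit 28) (.e (nat_lit 352265) (nat_lit 0) .nil))))) (.g (nat_lit 0) (.e (nat_lit 414945) (nat_lit 0) .nil) .nil)))) (.nd (nat_lit 9) 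
(.lf (nat_lit 598432) (.g (nat_lit 3635) (.e (nat_lit 573485) (nat_lit 13) (.e (nat_lit 65619) (nat_lit 10) (.e (nat_lit 344117) (nat_lit 21) (.e (nat_lit 516151) (nat_lit 9) (.e (nat_lit 426036) (nat_lit 0) .nil))))) (.g (nat_lit 0) (.e (nat_lit 414612) (nat_lit 0) .nil) .nil))) 
(.lf (nat_lit 598944) (.g (nat_lit 3528) (.e (nat_lit 573488) (nat_lit 14) (.e (nat_lit 73755) (nat_lit 8) (.e (nat_lit 557103) (nat_lit 14) (.e (nat_lit 180250) (nat_lit 10) (.e (nat_lit 573475) (nat_lit 12) (.e (nat_lit 57500) (nat_lit 37) (.e (nat_lit 630799) (nat_lit 7) (.e (nat_lit 163976) (nat_lit 30) .nil)))))))) (.g (nat_lit 1) (.e (nat_lit 415645) (nat_lit 0) .nil) .nil)))))) 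
(.nd (nat_lit 7) (.nd (nat_lit 8) (.nd (nat_lit 9) 
(.lf (nat_lit 598112) (.g (nat_lit 3516) (.e (nat_lit 573484) (nat_lit 13) (.e (nat_lit 65610) (nat_lit 10) (.e (nat_lit 344129) (nat_lit 26) (.e (nat_lit 557087) (nat_lit 11) (.e (nat_lit 24648) (nat_lit 12) (.e (nat_lit 385072) (nat_lit 31) .nil)))))) (.g (nat_lit 1) (.e (nat_lit 414095) (nat_lit 0) .nil) .nil))) 
(.lf (nat_lit 598624) (.g (nat_lit 3228) (.e (nat_lit 573485) (nat_lit 13) (.e (nat_lit 65619) (nat_lit 10) (.e (nat_lit 344129) (nat_lit 26) (.e (nat_lit 557087) (nat_lit 11) (.e (nat_lit 24599) (nat_lit 1) (.e (nat_lit 57773) (nat_lit 227) (.e (nat_lit 2610) (nat_lit 163) (.e (nat_lit 163978) (nat_lit 30) .nil)))))))) (.g (nat_lit 1) (.e (nat_lit 414859) (nat_lit 0) .nil) .nil)))) 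
(.nd (nat_lit 9) 
(.lf (nat_lit 598368) (.g (nat_lit 3752) (.e (nat_lit 573485) (nat_lit 13) (.e (nat_lit 65619) (nat_lit 10) (.e (nat_lit 344117) (nat_lit 21) (.e (nat_lit 516106) (nat_lit 0) (.e (nat_lit 6986) (nat_lit 377) (.e (nat_lit 2779) (nat_lit 178) (.e (nat_lit 294656) (nat_lit 15) (.e (nat_lit 3307) (nat_lit 202) .nil)))))))) (.g (nat_lit 1) (.e (nat_lit 414541) (nat_lit 0) .nil) .nil))) 
(.lf (nat_lit 598880) (.g (nat_lit 1802) (.e (nat_lit 573488) (nat_lit 14) (.e (nat_lit 73747) (nat_lit 3) (.e (nat_lit 516117) (nat_lit 1) (.e (nat_lit 171776) (nat_lit 160) .nil)))) (.g (nat_lit 0) (.e (nat_lit 415502) (nat_lit 0) .nil) .nil))))) (.nd (nat_lit 8) (.nd (nat_lit 9) 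
(.lf (nat_lit 598240) (.g (nat_lit 3416) (.e (nat_lit 573485) (nat_lit 13) (.e (nat_lit 65604) (nat_lit 9) (.e (nat_lit 336013) (nat_lit 2) (.e (nat_lit 90170) (nat_lit 13) (.e (nat_lit 172048) (nat_lit 0) (.e (nat_lit 3409) (nat_lit 212) (.e (nat_lit 655373) (nat_lit 3) (.e (nat_lit 163978) (nat_lit 30) .nil)))))))) (.g (nat_lit 1) (.e (nat_lit 414379) (nat_lit 0) .nil) .nil))) 
(.lf (nat_lit 598752) (.g (nat_lit 2981) (.e (nat_lit 573487) (nat_lit 14) (.e (nat_lit 73753) (nat_lit 8) (.e (nat_lit 557090) (nat_lit 12) (.e (nat_lit 163844) (nat_lit 0) (.e (nat_lit 5940) (nat_lit 322) (.e (nat_lit 57379) (nat_lit 3) (.e (nat_lit 98366) (nat_lit 27) (.e (nat_lit 434245) (nat_lit 28) .nil)))))))) (.g (nat_lit 1) (.e (nat_lit 415109) (nat_lit 0) .nil) .nil)))) (.nd (nat_lit 9) 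
(.lf (nat_lit 598496) (.g (nat_lit 3821) (.e (nat_lit 573485) (nat_lit 13) (.e (nat_lit 65619) (nat_lit 10) (.e (nat_lit 344117) (nat_lit 21) (.e (nat_lit 516151) (nat_lit 9) (.e (nat_lit 426365) (nat_lit 15) .nil))))) (.g (nat_lit 0) (.e (nat_lit 414677) (nat_lit 0) .nil) .nil))) 
(.lf (nat_lit 599008) (.g (nat_lit 1854) (.e (nat_lit 573489) (nat_lit 14) (.e (nat_lit 73753) (nat_lit 8) (.e (nat_lit 557103) (nat_lit 14) (.e (nat_lit 180250) (nat_lit 10) .nil)))) (.g (nat_lit 0) (.e (nat_lit 415814) (nat_lit 0) .nil) .nil)))))))) (.nd (nat_lit 5) (.nd (nat_lit 6) (.nd (nat_lit 7) (.nd (nat_lit 8) (.nd (nat_lit 9) 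
(.lf (nat_lit 598032) (.g (nat_lit 2923) (.e (nat_lit 573484) (nat_lit 13) (.e (nat_lit 65610) (nat_lit 10) (.e (nat_lit 344117) (nat_lit 21) (.e (nat_lit 516151) (nat_lit 9) (.e (nat_lit 426396) (nat_lit 15) (.e (nat_lit 2059) (nat_lit 142) (.e (nat_lit 704589) (nat_lit 3) (.e (nat_lit 163978) (nat_lit 30) .nil)))))))) (.g (nat_lit 1) (.e (nat_lit 413923) (nat_lit 0) .nil) .nil))) 
(.lf (nat_lit 598544) (.g (nat_lit 2887) (.e (nat_lit 573485) (nat_lit 13) (.e (nat_lit 65619) (nat_lit 10) (.e (nat_lit 344117) (nat_lit 21) (.e (nat_lit 516185) (nat_lit 16) (.e (nat_lit 491547) (nat_lit 9) (.e (nat_lit 336260) (nat_lit 15) (.e (nat_lit 3307) (nat_lit 202) .nil))))))) (.g (nat_lit 1) (.e (nat_lit 414730) (nat_lit 0) .nil) .nil)))) (.nd (nat_lit 9) 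
(.lf (nat_lit 598288) (.g (nat_lit 3780) (.e (nat_lit 573485) (nat_lit 13) (.e (nat_lit 65604) (nat_lit 9) (.e (nat_lit 336013) (nat_lit 2) (.e (nat_lit 90170) (nat_lit 13) (.e (nat_lit 172136) (nat_lit 15) (.e (nat_lit 2057) (nat_lit 142) (.e (nat_lit 704589) (nat_lit 3) (.e (nat_lit 163978) (nat_lit 30) .nil)))))))) (.g (nat_lit 1) (.e (nat_lit 414430) (nat_lit 0) .nil) .nil))) 
(.lf (nat_lit 598800) (.g (nat_lit 3105) (.e (nat_lit 573487) (nat_lit 14) (.e (nat_lit 73753) (nat_lit 8) (.e (nat_lit 557103) (nat_lit 14) (.e (nat_lit 180243) (nat_lit 5) (.e (nat_lit 532488) (nat_lit 0) (.e (nat_lit 7936) (nat_lit 149) (.e (nat_lit 761898) (nat_lit 15) (.e (nat_lit 163977) (nat_lit 30) .nil)))))))) (.g (nat_lit 1) (.e (nat_lit 415285) (nat_lit 0) .nil) .nil))))) 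
(.nd (nat_lit 8) (.nd (nat_lit 9) 
(.lf (nat_lit 598160) (.g (nat_lit 583) (.e (nat_lit 573484) (nat_lit 13) (.e (nat_lit 65628) (nat_lit 14) (.e (nat_lit 401411) (nat_lit 0) .nil))) (.g (nat_lit 0) (.e (nat_lit 414221) (nat_lit 0) .nil) .nil))) 
(.lf (nat_lit 598672) (.g (nat_lit 1024) (.e (nat_lit 573485) (nat_lit 13) (.e (nat_lit 65628) (nat_lit 14) (.e (nat_lit 401425) (nat_lit 2) (.e (nat_lit 196672) (nat_lit 15) .nil)))) (.g (nat_lit 0) (.e (nat_lit 414928) (nat_lit 0) .nil) .nil)))) (.nd (nat_lit 9) 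
(.lf (nat_lit 598416) (.g (nat_lit 3104) (.e (nat_lit 573485) (nat_lit 13) (.e (nat_lit 65619) (nat_lit 10) (.e (nat_lit 344117) (nat_lit 21) (.e (nat_lit 516145) (nat_lit 9) (.e (nat_lit 433920) (nat_lit 19) (.e (nat_lit 114432) (nat_lit 3) (.e (nat_lit 163978) (nat_lit 30) .nil))))))) (.g (nat_lit 1) (.e (nat_lit 414596) (nat_lit 0) .nil) .nil))) 
(.lf (nat_lit 598928) (.g (nat_lit 2487) (.e (nat_lit 573488) (nat_lit 14) (.e (nat_lit 73755) (nat_lit 8) (.e (nat_lit 557098) (nat_lit 13) (.e (nat_lit 172064) (nat_lit 2) (.e (nat_lit 204544) (nat_lit 0) .nil))))) (.g (nat_lit 0) (.e (nat_lit 415595) (nat_lit 0) .nil) .nil)))))) (.nd (nat_lit 7) (.nd (nat_lit 8) (.nd (nat_lit 9) 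
(.lf (nat_lit 598096) (.g (nat_lit 1902) (.e (nat_lit 573484) (nat_lit 13) (.e (nat_lit 65610) (nat_lit 10) (.e (nat_lit 344129) (nat_lit 26) (.e (nat_lit 557074) (nat_lit 9) (.e (nat_lit 7936) (nat_lit 21) .nil))))) (.g (nat_lit 0) (.e (nat_lit 414073) (nat_lit 0) .nil) .nil))) 
(.lf (nat_lit 598608) (.g (nat_lit 2797) (.e (nat_lit 573485) (nat_lit 13) (.e (nat_lit 65619) (nat_lit 10) (.e (nat_lit 344129) (nat_lit 26) (.e (nat_lit 557085) (nat_lit 11) (.e (nat_lit 24648) (nat_lit 12) (.e (nat_lit 385072) (nat_lit 31) .nil)))))) (.g (nat_lit 1) (.e (nat_lit 414825) (nat_lit 0) .nil) .nil)))) (.nd (nat_lit 9) 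
(.lf (nat_lit 598352) (.g (nat_lit 2071) (.e (nat_lit 573485) (nat_lit 13) (.e (nat_lit 65619) (nat_lit 10) (.e (nat_lit 344117) (nat_lit 21) (.e (nat_lit 516097) (nat_lit 0) (.e (nat_lit 7515) (nat_lit 402) .nil))))) (.g (nat_lit 0) (.e (nat_lit 414517) (nat_lit 0) .nil) .nil))) 
(.lf (nat_lit 598864) (.g (nat_lit 1575) (.e (nat_lit 573487) (nat_lit 14) (.e (nat_lit 73781) (nat_lit 32) (.e (nat_lit 2664) (nat_lit 167) (.e (nat_lit 196630) (nat_lit 9) (.e (nat_lit 1413) (nat_lit 108) .nil))))) (.g (nat_lit 0) (.e (nat_lit 415424) (nat_lit 0) .nil) .nil))))) (.nd (nat_lit 8) (.nd (nat_lit 9) 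
(.lf (nat_lit 598224) (.g (nat_lit 2081) (.e (nat_lit 573485) (nat_lit 13) (.e (nat_lit 65604) (nat_lit 9) (.e (nat_lit 336013) (nat_lit 2) (.e (nat_lit 90170) (nat_lit 13) (.e (nat_lit 172042) (nat_lit 0) (.e (nat_lit 2478) (nat_lit 157) (.e (nat_lit 5548) (nat_lit 306) (.e (nat_lit 2601) (nat_lit 163) (.e (nat_lit 163977) (nat_lit 30) .nil))))))))) (.g (nat_lit 1) (.e (nat_lit 414357) (nat_lit 0) .nil) .nil))) 
(.lf (nat_lit 598736) (.g (nat_lit 1499) (.e (nat_lit 573487) (nat_lit 14) (.e (nat_lit 73747) (nat_lit 3) (.e (nat_lit 516115) (nat_lit 1) (.e (nat_lit 171776) (nat_lit 160) .nil)))) (.g (nat_lit 0) (.e (nat_lit 415043) (nat_lit 0) .nil) .nil)))) (.nd (nat_lit 9) 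
(.lf (nat_lit 598480) (.g (nat_lit 3797) (.e (nat_lit 573485) (nat_lit 13) (.e (nat_lit 65619) (nat_lit 10) (.e (nat_lit 344117) (nat_lit 21) (.e (nat_lit 516151) (nat_lit 9) (.e (nat_lit 426097) (nat_lit 1) (.e (nat_lit 164345) (nat_lit 240) (.e (nat_lit 2600) (nat_lit 163) (.e (nat_lit 163977) (nat_lit 30) .nil)))))))) (.g (nat_lit 1) (.e (nat_lit 414661) (nat_lit 0) .nil) .nil))) 
(.lf (nat_lit 598992) (.g (nat_lit 1883) (.e (nat_lit 573488) (nat_lit 14) (.e (nat_lit 73782) (nat_lit 32) (.e (nat_lit 2663) (nat_lit 167) (.e (nat_lit 196672) (nat_lit 15) (.e (nat_lit 81922) (nat_lit 0) .nil))))) (.g (nat_lit 0) (.e (nat_lit 415747) (nat_lit 0) .nil) .nil))))))) (.nd (nat_lit 6) (.nd (nat_lit 7) (.nd (nat_lit 8) (.nd (nat_lit 9) 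
(.lf (nat_lit 598064) (.g (nat_lit 4064) (.e (nat_lit 573484) (nat_lit 13) (.e (nat_lit 65610) (nat_lit 10) (.e (nat_lit 344117) (nat_lit 21) (.e (nat_lit 516183) (nat_lit 16) (.e (nat_lit 491548) (nat_lit 9) (.e (nat_lit 336306) (nat_lit 15) (.e (nat_lit 3307) (nat_lit 202) .nil))))))) (.g (nat_lit 1) (.e (nat_lit 413988) (nat_lit 0) .nil) .nil))) 
(.lf (nat_lit 598576) (.g (nat_lit 2183) (.e (nat_lit 573485) (nat_lit 13) (.e (nat_lit 65619) (nat_lit 10) (.e (nat_lit 344129) (nat_lit 26) (.e (nat_lit 557065) (nat_lit 9) (.e (nat_lit 272) (nat_lit 21) .nil))))) (.g (nat_lit 0) (.e (nat_lit 414775) (nat_lit 0) .nil) .nil)))) (.nd (nat_lit 9) 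
(.lf (nat_lit 598320) (.g (nat_lit 1649) (.e (nat_lit 573485) (nat_lit 13) (.e (nat_lit 65604) (nat_lit 9) (.e (nat_lit 336028) (nat_lit 3) (.e (nat_lit 98363) (nat_lit 26) .nil)))) (.g (nat_lit 0) (.e (nat_lit 414473) (nat_lit 0) .nil) .nil))) 
(.lf (nat_lit 598832) (.g (nat_lit 3709) (.e (nat_lit 573487) (nat_lit 14) (.e (nat_lit 73753) (nat_lit 8) (.e (nat_lit 557105) (nat_lit 14) (.e (nat_lit 180252) (nat_lit 10) (.e (nat_lit 573473) (nat_lit 12) (.e (nat_lit 57504) (nat_lit 38) (.e (nat_lit 638994) (nat_lit 7) (.e (nat_lit 163975) (nat_lit 30) .nil)))))))) (.g (nat_lit 1) (.e (nat_lit 415378) (nat_lit 0) .nil) .nil))))) 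
(.nd (nat_lit 8) (.nd (nat_lit 9) 
(.lf (nat_lit 598192) (.g (nat_lit 3800) (.e (nat_lit 573485) (nat_lit 13) (.e (nat_lit 65604) (nat_lit 9) (.e (nat_lit 336013) (nat_lit 2) (.e (nat_lit 90134) (nat_lit 9) (.e (nat_lit 3098) (nat_lit 192) (.e (nat_lit 491566) (nat_lit 12) (.e (nat_lit 392960) (nat_lit 31) .nil))))))) (.g (nat_lit 1) (.e (nat_lit 414325) (nat_lit 0) .nil) .nil))) 
(.lf (nat_lit 598704) (.g (nat_lit 2679) (.e (nat_lit 573485) (nat_lit 13) (.e (nat_lit 65630) (nat_lit 14) (.e (nat_lit 401425) (nat_lit 2) (.e (nat_lit 196681) (nat_lit 17) (.e (nat_lit 131108) (nat_lit 9) .nil))))) (.g (nat_lit 0) (.e (nat_lit 414962) (nat_lit 0) .nil) .nil)))) (.nd (nat_lit 9) 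
(.lf (nat_lit 598448) (.g (nat_lit 3601) (.e (nat_lit 573485) (nat_lit 13) (.e (nat_lit 65619) (nat_lit 10) (.e (nat_lit 344117) (nat_lit 21) (.e (nat_lit 516151) (nat_lit 9) (.e (nat_lit 426039) (nat_lit 0) .nil))))) (.g (nat_lit 0) (.e (nat_lit 414628) (nat_lit 0) .nil) .nil))) 
(.lf (nat_lit 598960) (.g (nat_lit 2905) (.e (nat_lit 573488) (nat_lit 14) (.e (nat_lit 73755) (nat_lit 8) (.e (nat_lit 557104) (nat_lit 14) (.e (nat_lit 180252) (nat_lit 10) (.e (nat_lit 573473) (nat_lit 12) (.e (nat_lit 57501) (nat_lit 37) (.e (nat_lit 630799) (nat_lit 7) (.e (nat_lit 163976) (nat_lit 30) .nil)))))))) (.g (nat_lit 1) (.e (nat_lit 415682) (nat_lit 0) .nil) .nil)))))) 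
(.nd (nat_lit 7) (.nd (nat_lit 8) (.nd (nat_lit 9) 
(.lf (nat_lit 598128) (.g (nat_lit 4082) (.e (nat_lit 573484) (nat_lit 13) (.e (nat_lit 65617) (nat_lit 10) (.e (nat_lit 344130) (nat_lit 26) (.e (nat_lit 557087) (nat_lit 11) (.e (nat_lit 24625) (nat_lit 9) (.e (nat_lit 336262) (nat_lit 15) (.e (nat_lit 3305) (nat_lit 202) .nil))))))) (.g (nat_lit 1) (.e (nat_lit 414144) (nat_lit 0) .nil) .nil))) 
(.lf (nat_lit 598640) (.g (nat_lit 1839) (.e (nat_lit 573485) (nat_lit 13) (.e (nat_lit 65619) (nat_lit 10) (.e (nat_lit 344129) (nat_lit 26) (.e (nat_lit 557087) (nat_lit 11) (.e (nat_lit 24631) (nat_lit 9) (.e (nat_lit 336295) (nat_lit 15) (.e (nat_lit 3304) (nat_lit 202) .nil))))))) (.g (nat_lit 1) (.e (nat_lit 414876) (nat_lit 0) .nil) .nil)))) (.nd (nat_lit 9) 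
(.lf (nat_lit 598384) (.g (nat_lit 3489) (.e (nat_lit 573485) (nat_lit 13) (.e (nat_lit 65619) (nat_lit 10) (.e (nat_lit 344117) (nat_lit 21) (.e (nat_lit 516145) (nat_lit 9) (.e (nat_lit 425992) (nat_lit 0) .nil))))) (.g (nat_lit 0) (.e (nat_lit 414564) (nat_lit 0) .nil) .nil))) 
(.lf (nat_lit 598896) (.g (nat_lit 3382) (.e (nat_lit 573488) (nat_lit 14) (.e (nat_lit 73753) (nat_lit 8) (.e (nat_lit 557105) (nat_lit 14) (.e (nat_lit 180252) (nat_lit 10) (.e (nat_lit 573474) (nat_lit 12) (.e (nat_lit 57504) (nat_lit 38) (.e (nat_lit 638995) (nat_lit 7) (.e (nat_lit 163979) (nat_lit 30) .nil)))))))) (.g (nat_lit 1) (.e (nat_lit 415531) (nat_lit 0) .nil) .nil))))) 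
(.nd (nat_lit 8) (.nd (nat_lit 9) 
(.lf (nat_lit 598256) (.g (nat_lit 1966) (.e (nat_lit 573485) (nat_lit 13) (.e (nat_lit 65604) (nat_lit 9) (.e (nat_lit 336013) (nat_lit 2) (.e (nat_lit 90170) (nat_lit 13) (.e (nat_lit 172059) (nat_lit 1) .nil))))) (.g (nat_lit 0) (.e (nat_lit 414396) (nat_lit 0) .nil) .nil))) 
(.lf (nat_lit 598768) (.g (nat_lit 1565) (.e (nat_lit 573487) (nat_lit 14) (.e (nat_lit 73753) (nat_lit 8) (.e (nat_lit 557091) (nat_lit 12) (.e (nat_lit 164005) (nat_lit 41) .nil)))) (.g (nat_lit 0) (.e (nat_lit 415148) (nat_lit 0) .nil) .nil)))) (.nd (nat_lit 9) 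
(.lf (nat_lit 598512) (.g (nat_lit 2305) (.e (nat_lit 573485) (nat_lit 13) (.e (nat_lit 65619) (nat_lit 10) (.e (nat_lit 344117) (nat_lit 21) (.e (nat_lit 516159) (nat_lit 10) (.e (nat_lit 434211) (nat_lit 18) .nil))))) (.g (nat_lit 0) (.e (nat_lit 414693) (nat_lit 0) .nil) .nil))) 
(.lf (nat_lit 599024) (.g (nat_lit 2696) (.e (nat_lit 573489) (nat_lit 14) (.e (nat_lit 73754) (nat_lit 8) (.e (nat_lit 557100) (nat_lit 13) (.e (nat_lit 172067) (nat_lit 3) (.e (nat_lit 204814) (nat_lit 17) .nil))))) (.g (nat_lit 0) (.e (nat_lit 415848) (nat_lit 0) .nil) .nil))))))))) (.nd (nat_lit 4) (.nd (nat_lit 5) (.nd (nat_lit 6) (.nd (nat_lit 7) (.nd (nat_lit 8) (.nd (nat_lit 9) 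
(.lf (nat_lit 598024) (.g (nat_lit 3626) (.e (nat_lit 573484) (nat_lit 13) (.e (nat_lit 65610) (nat_lit 10) (.e (nat_lit 344117) (nat_lit 21) (.e (nat_lit 516151) (nat_lit 9) (.e (nat_lit 426047) (nat_lit 0) (.e (nat_lit 3409) (nat_lit 212) (.e (nat_lit 655373) (nat_lit 3) (.e (nat_lit 163978) (nat_lit 30) .nil)))))))) (.g (nat_lit 1) (.e (nat_lit 413909) (nat_lit 0) .nil) .nil))) 
(.lf (nat_lit 598536) (.g (nat_lit 4873) (.e (nat_lit 573485) (nat_lit 13) (.e (nat_lit 65619) (nat_lit 10) (.e (nat_lit 344117) (nat_lit 21) (.e (nat_lit 516179) (nat_lit 15) (.e (nat_lit 475211) (nat_lit 41) .nil))))) (.g (nat_lit 0) (.e (nat_lit 414721) (nat_lit 0) .nil) .nil)))) (.nd (nat_lit 9) 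
(.lf (nat_lit 598280) (.g (nat_lit 1626) (.e (nat_lit 573485) (nat_lit 13) (.e (nat_lit 65604) (nat_lit 9) (.e (nat_lit 336013) (nat_lit 2) (.e (nat_lit 90170) (nat_lit 13) (.e (nat_lit 172070) (nat_lit 4) .nil))))) (.g (nat_lit 0) (.e (nat_lit 414422) (nat_lit 0) .nil) .nil))) 
(.lf (nat_lit 598792) (.g (nat_lit 1268) (.e (nat_lit 573487) (nat_lit 14) (.e (nat_lit 73753) (nat_lit 8) (.e (nat_lit 557101) (nat_lit 13) (.e (nat_lit 172064) (nat_lit 2) .nil)))) (.g (nat_lit 0) (.e (nat_lit 415250) (nat_lit 0) .nil) .nil))))) (.nd (nat_lit 8) (.nd (nat_lit 9) 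
(.lf (nat_lit 598152) (.g (nat_lit 677) (.e (nat_lit 573484) (nat_lit 13) (.e (nat_lit 65619) (nat_lit 10) (.e (nat_lit 344117) (nat_lit 21) .nil))) (.g (nat_lit 0) (.e (nat_lit 414200) (nat_lit 0) .nil) .nil))) 
(.lf (nat_lit 598664) (.g (nat_lit 2506) (.e (nat_lit 573485) (nat_lit 13) (.e (nat_lit 65624) (nat_lit 12) (.e (nat_lit 385074) (nat_lit 31) (.e (nat_lit 573485) (nat_lit 13) (.e (nat_lit 65623) (nat_lit 12) .nil))))) (.g (nat_lit 0) (.e (nat_lit 414917) (nat_lit 0) .nil) .nil)))) (.nd (nat_lit 9) 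
(.lf (nat_lit 598408) (.g (nat_lit 3358) (.e (nat_lit 573485) (nat_lit 13) (.e (nat_lit 65619) (nat_lit 10) (.e (nat_lit 344117) (nat_lit 21) (.e (nat_lit 516145) (nat_lit 9) (.e (nat_lit 426393) (nat_lit 15) (.e (nat_lit 2057) (nat_lit 142) (.e (nat_lit 704589) (nat_lit 3) (.e (nat_lit 163978) (nat_lit 30) .nil)))))))) (.g (nat_lit 1) (.e (nat_lit 414588) (nat_lit 0) .nil) .nil))) 
(.lf (nat_lit 598920) (.g (nat_lit 328) (.e (nat_lit 573488) (nat_lit 14) (.e (nat_lit 73755) (nat_lit 8) (.e (nat_lit 557097) (nat_lit 13) .nil))) (.g (nat_lit 0) (.e (nat_lit 415575) (nat_lit 0) .nil) .nil)))))) (.nd (nat_lit 7) (.nd (nat_lit 8) (.nd (nat_lit 9) 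
(.lf (nat_lit 598088) (.g (nat_lit 1415) (.e (nat_lit 573484) (nat_lit 13) (.e (nat_lit 65610) (nat_lit 10) (.e (nat_lit 344129) (nat_lit 26) (.e (nat_lit 557067) (nat_lit 9) .nil)))) (.g (nat_lit 0) (.e (nat_lit 414054) (nat_lit 0) .nil) .nil))) 
(.lf (nat_lit 598600) (.g (nat_lit 1997) (.e (nat_lit 573485) (nat_lit 13) (.e (nat_lit 65619) (nat_lit 10) (.e (nat_lit 344129) (nat_lit 26) (.e (nat_lit 557074) (nat_lit 9) (.e (nat_lit 284) (nat_lit 21) .nil))))) (.g (nat_lit 0) (.e (nat_lit 414812) (nat_lit 0) .nil) .nil)))) (.nd (nat_lit 9) 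
(.lf (nat_lit 598344) (.g (nat_lit 1336) (.e (nat_lit 573485) (nat_lit 13) (.e (nat_lit 65619) (nat_lit 10) (.e (nat_lit 344107) (nat_lit 19) (.e (nat_lit 499727) (nat_lit 0) .nil)))) (.g (nat_lit 0) (.e (nat_lit 414507) (nat_lit 0) .nil) .nil))) 
(.lf (nat_lit 598856) (.g (nat_lit 842) (.e (nat_lit 573487) (nat_lit 14) (.e (nat_lit 73755) (nat_lit 8) (.e (nat_lit 557103) (nat_lit 14) .nil))) (.g (nat_lit 0) (.e (nat_lit 415411) (nat_lit 0) .nil) .nil))))) (.nd (nat_lit 8) (.nd (nat_lit 9) 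
(.lf (nat_lit 598216) (.g (nat_lit 3126) (.e (nat_lit 573485) (nat_lit 13) (.e (nat_lit 65604) (nat_lit 9) (.e (nat_lit 336013) (nat_lit 2) (.e (nat_lit 90170) (nat_lit 13) (.e (nat_lit 172038) (nat_lit 0) (.e (nat_lit 3402) (nat_lit 211) (.e (nat_lit 647181) (nat_lit 3) (.e (nat_lit 163977) (nat_lit 30) .nil)))))))) (.g (nat_lit 1) (.e (nat_lit 414349) (nat_lit 0) .nil) .nil))) 
(.lf (nat_lit 598728) (.g (nat_lit 1970) (.e (nat_lit 573487) (nat_lit 14) (.e (nat_lit 73746) (nat_lit 3) (.e (nat_lit 516115) (nat_lit 1) (.e (nat_lit 164196) (nat_lit 158) .nil)))) (.g (nat_lit 0) (.e (nat_lit 415020) (nat_lit 0) .nil) .nil)))) (.nd (nat_lit 9) 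
(.lf (nat_lit 598472) (.g (nat_lit 3918) (.e (nat_lit 573485) (nat_lit 13) (.e (nat_lit 65619) (nat_lit 10) (.e (nat_lit 344117) (nat_lit 21) (.e (nat_lit 516151) (nat_lit 9) (.e (nat_lit 426045) (nat_lit 0) .nil))))) (.g (nat_lit 0) (.e (nat_lit 414653) (nat_lit 0) .nil) .nil))) 
(.lf (nat_lit 598984) (.g (nat_lit 4456) (.e (nat_lit 573488) (nat_lit 14) (.e (nat_lit 73755) (nat_lit 8) (.e (nat_lit 557105) (nat_lit 14) (.e (nat_lit 180252) (nat_lit 10) (.e (nat_lit 573475) (nat_lit 12) (.e (nat_lit 57503) (nat_lit 38) (.e (nat_lit 638994) (nat_lit 7) (.e (nat_lit 163975) (nat_lit 30) .nil)))))))) (.g (nat_lit 1) (.e (nat_lit 415712) (nat_lit 0) .nil) .nil))))))) 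
(.nd (nat_lit 6) (.nd (nat_lit 7) (.nd (nat_lit 8) (.nd (nat_lit 9) 
(.lf (nat_lit 598056) (.g (nat_lit 5294) (.e (nat_lit 573484) (nat_lit 13) (.e (nat_lit 65610) (nat_lit 10) (.e (nat_lit 344117) (nat_lit 21) (.e (nat_lit 516179) (nat_lit 15) (.e (nat_lit 475199) (nat_lit 40) (.e (nat_lit 704590) (nat_lit 3) (.e (nat_lit 163974) (nat_lit 30) .nil))))))) (.g (nat_lit 1) (.e (nat_lit 413965) (nat_lit 0) .nil) .nil))) 
(.lf (nat_lit 598568) (.g (nat_lit 1426) (.e (nat_lit 573485) (nat_lit 13) (.e (nat_lit 65619) (nat_lit 10) (.e (nat_lit 344129) (nat_lit 26) (.e (nat_lit 557064) (nat_lit 9) .nil)))) (.g (nat_lit 0) (.e (nat_lit 414767) (nat_lit 0) .nil) .nil)))) (.nd (nat_lit 9) 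
(.lf (nat_lit 598312) (.g (nat_lit 4548) (.e (nat_lit 573485) (nat_lit 13) (.e (nat_lit 65604) (nat_lit 9) (.e (nat_lit 336028) (nat_lit 3) (.e (nat_lit 98359) (nat_lit 26) (.e (nat_lit 426043) (nat_lit 0) (.e (nat_lit 3406) (nat_lit 212) (.e (nat_lit 655375) (nat_lit 3) (.e (nat_lit 163978) (nat_lit 30) .nil)))))))) (.g (nat_lit 1) (.e (nat_lit 414462) (nat_lit 0) .nil) .nil))) 
(.lf (nat_lit 598824) (.g (nat_lit 1739) (.e (nat_lit 573487) (nat_lit 14) (.e (nat_lit 73753) (nat_lit 8) (.e (nat_lit 557105) (nat_lit 14) (.e (nat_lit 180250) (nat_lit 10) .nil)))) (.g (nat_lit 0) (.e (nat_lit 415367) (nat_lit 0) .nil) .nil))))) (.nd (nat_lit 8) (.nd (nat_lit 9) 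
(.lf (nat_lit 598184) (.g (nat_lit 4940) (.e (nat_lit 573485) (nat_lit 13) (.e (nat_lit 65604) (nat_lit 9) (.e (nat_lit 336013) (nat_lit 2) (.e (nat_lit 90128) (nat_lit 9) (.e (nat_lit 3074) (nat_lit 190) .nil))))) (.g (nat_lit 0) (.e (nat_lit 414312) (nat_lit 0) .nil) .nil))) 
(.lf (nat_lit 598696) (.g (nat_lit 1762) (.e (nat_lit 573485) (nat_lit 13) (.e (nat_lit 65630) (nat_lit 14) (.e (nat_lit 401425) (nat_lit 2) (.e (nat_lit 196628) (nat_lit 9) .nil)))) (.g (nat_lit 0) (.e (nat_lit 414954) (nat_lit 0) .nil) .nil)))) (.nd (nat_lit 9) 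
(.lf (nat_lit 598440) (.g (nat_lit 3914) (.e (nat_lit 573485) (nat_lit 13) (.e (nat_lit 65619) (nat_lit 10) (.e (nat_lit 344117) (nat_lit 21) (.e (nat_lit 516151) (nat_lit 9) (.e (nat_lit 426038) (nat_lit 0) (.e (nat_lit 2458) (nat_lit 157) (.e (nat_lit 5546) (nat_lit 306) (.e (nat_lit 2600) (nat_lit 163) (.e (nat_lit 163977) (nat_lit 30) .nil))))))))) (.g (nat_lit 1) (.e (nat_lit 414620) (nat_lit 0) .nil) .nil))) 
(.lf (nat_lit 598952) (.g (nat_lit 4137) (.e (nat_lit 573488) (nat_lit 14) (.e (nat_lit 73755) (nat_lit 8) (.e (nat_lit 557103) (nat_lit 14) (.e (nat_lit 180252) (nat_lit 10) (.e (nat_lit 573475) (nat_lit 12) (.e (nat_lit 57503) (nat_lit 38) (.e (nat_lit 638995) (nat_lit 7) (.e (nat_lit 163979) (nat_lit 30) .nil)))))))) (.g (nat_lit 1) (.e (nat_lit 415653) (nat_lit 0) .nil) .nil)))))) 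
(.nd (nat_lit 7) (.nd (nat_lit 8) (.nd (nat_lit 9) 
(.lf (nat_lit 598120) (.g (nat_lit 2171) (.e (nat_lit 573484) (nat_lit 13) (.e (nat_lit 65617) (nat_lit 10) (.e (nat_lit 344114) (nat_lit 20) (.e (nat_lit 507922) (nat_lit 6) (.e (nat_lit 286748) (nat_lit 9) (.e (nat_lit 336295) (nat_lit 15) (.e (nat_lit 3305) (nat_lit 202) .nil))))))) (.g (nat_lit 1) (.e (nat_lit 414107) (nat_lit 0) .nil) .nil))) 
(.lf (nat_lit 598632) (.g (nat_lit 2983) (.e (nat_lit 573485) (nat_lit 13) (.e (nat_lit 65619) (nat_lit 10) (.e (nat_lit 344129) (nat_lit 26) (.e (nat_lit 557087) (nat_lit 11) (.e (nat_lit 24626) (nat_lit 9) (.e (nat_lit 336238) (nat_lit 15) (.e (nat_lit 3309) (nat_lit 202) .nil))))))) (.g (nat_lit 1) (.e (nat_lit 414868) (nat_lit 0) .nil) .nil)))) (.nd (nat_lit 9) 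
(.lf (nat_lit 598376) (.g (nat_lit 2296) (.e (nat_lit 573485) (nat_lit 13) (.e (nat_lit 65619) (nat_lit 10) (.e (nat_lit 344117) (nat_lit 21) (.e (nat_lit 516143) (nat_lit 9) (.e (nat_lit 426142) (nat_lit 4) .nil))))) (.g (nat_lit 0) (.e (nat_lit 414556) (nat_lit 0) .nil) .nil))) 
(.lf (nat_lit 598888) (.g (nat_lit 1953) (.e (nat_lit 573488) (nat_lit 14) (.e (nat_lit 73753) (nat_lit 8) (.e (nat_lit 557103) (nat_lit 14) (.e (nat_lit 180243) (nat_lit 5) .nil)))) (.g (nat_lit 0) (.e (nat_lit 415523) (nat_lit 0) .nil) .nil))))) (.nd (nat_lit 8) (.nd (nat_lit 9) 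
(.lf (nat_lit 598248) (.g (nat_lit 4947) (.e (nat_lit 573485) (nat_lit 13) (.e (nat_lit 65604) (nat_lit 9) (.e (nat_lit 336013) (nat_lit 2) (.e (nat_lit 90170) (nat_lit 13) (.e (nat_lit 172049) (nat_lit 0) (.e (nat_lit 3409) (nat_lit 212) (.e (nat_lit 655375) (nat_lit 3) (.e (nat_lit 163978) (nat_lit 30) .nil)))))))) (.g (nat_lit 1) (.e (nat_lit 414388) (nat_lit 0) .nil) .nil))) 
(.lf (nat_lit 598760) (.g (nat_lit 2363) (.e (nat_lit 573487) (nat_lit 14) (.e (nat_lit 73753) (nat_lit 8) (.e (nat_lit 557090) (nat_lit 12) (.e (nat_lit 164006) (nat_lit 41) (.e (nat_lit 663559) (nat_lit 0) .nil))))) (.g (nat_lit 0) (.e (nat_lit 415127) (nat_lit 0) .nil) .nil)))) (.nd (nat_lit 9) 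
(.lf (nat_lit 598504) (.g (nat_lit 5040) (.e (nat_lit 573485) (nat_lit 13) (.e (nat_lit 65619) (nat_lit 10) (.e (nat_lit 344117) (nat_lit 21) (.e (nat_lit 516151) (nat_lit 9) (.e (nat_lit 426412) (nat_lit 15) (.e (nat_lit 2056) (nat_lit 142) (.e (nat_lit 704589) (nat_lit 3) (.e (nat_lit 163978) (nat_lit 30) .nil)))))))) (.g (nat_lit 1) (.e (nat_lit 414685) (nat_lit 0) .nil) .nil))) 
(.lf (nat_lit 599016) (.g (nat_lit 798) (.e (nat_lit 573489) (nat_lit 14) (.e (nat_lit 73754) (nat_lit 8) (.e (nat_lit 557098) (nat_lit 13) .nil))) (.g (nat_lit 0) (.e (nat_lit 415833) (nat_lit 0) .nil) .nil)))))))) (.nd (nat_lit 5) (.nd (nat_lit 6) (.nd (nat_lit 7) (.nd (nat_lit 8) (.nd (nat_lit 9) 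
(.lf (nat_lit 598040) (.g (nat_lit 2685) (.e (nat_lit 573484) (nat_lit 13) (.e (nat_lit 65610) (nat_lit 10) (.e (nat_lit 344117) (nat_lit 21) (.e (nat_lit 516157) (nat_lit 9) .nil)))) (.g (nat_lit 0) (.e (nat_lit 413937) (nat_lit 0) .nil) .nil))) 
(.lf (nat_lit 598552) (.g (nat_lit 944) (.e (nat_lit 573485) (nat_lit 13) (.e (nat_lit 65619) (nat_lit 10) (.e (nat_lit 344126) (nat_lit 25) (.e (nat_lit 548873) (nat_lit 5) .nil)))) (.g (nat_lit 0) (.e (nat_lit 414738) (nat_lit 0) .nil) .nil)))) (.nd (nat_lit 9) 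
(.lf (nat_lit 598296) (.g (nat_lit 3918) (.e (nat_lit 573485) (nat_lit 13) (.e (nat_lit 65604) (nat_lit 9) (.e (nat_lit 336013) (nat_lit 2) (.e (nat_lit 90174) (nat_lit 14) .nil)))) (.g (nat_lit 0) (.e (nat_lit 414439) (nat_lit 0) .nil) .nil))) 
(.lf (nat_lit 598808) (.g (nat_lit 1900) (.e (nat_lit 573487) (nat_lit 14) (.e (nat_lit 73753) (nat_lit 8) (.e (nat_lit 557103) (nat_lit 14) (.e (nat_lit 180244) (nat_lit 5) (.e (nat_lit 532499) (nat_lit 1) .nil))))) (.g (nat_lit 0) (.e (nat_lit 415316) (nat_lit 0) .nil) .nil))))) (.nd (nat_lit 8) (.nd (nat_lit 9) 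
(.lf (nat_lit 598168) (.g (nat_lit 3224) (.e (nat_lit 573484) (nat_lit 13) (.e (nat_lit 65630) (nat_lit 14) (.e (nat_lit 401424) (nat_lit 2) (.e (nat_lit 196672) (nat_lit 15) (.e (nat_lit 81924) (nat_lit 0) (.e (nat_lit 3305) (nat_lit 202) .nil)))))) (.g (nat_lit 1) (.e (nat_lit 414240) (nat_lit 0) .nil) .nil))) 
(.lf (nat_lit 598680) (.g (nat_lit 350) (.e (nat_lit 573485) (nat_lit 13) (.e (nat_lit 65628) (nat_lit 14) (.e (nat_lit 401428) (nat_lit 3) .nil))) (.g (nat_lit 0) (.e (nat_lit 414937) (nat_lit 0) .nil) .nil)))) (.nd (nat_lit 9) 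
(.lf (nat_lit 598424) (.g (nat_lit 3563) (.e (nat_lit 573485) (nat_lit 13) (.e (nat_lit 65619) (nat_lit 10) (.e (nat_lit 344117) (nat_lit 21) (.e (nat_lit 516151) (nat_lit 9) (.e (nat_lit 426018) (nat_lit 0) .nil))))) (.g (nat_lit 0) (.e (nat_lit 414604) (nat_lit 0) .nil) .nil))) 
(.lf (nat_lit 598936) (.g (nat_lit 1583) (.e (nat_lit 573488) (nat_lit 14) (.e (nat_lit 73755) (nat_lit 8) (.e (nat_lit 557100) (nat_lit 13) (.e (nat_lit 172065) (nat_lit 3) .nil)))) (.g (nat_lit 0) (.e (nat_lit 415619) (nat_lit 0) .nil) .nil)))))) (.nd (nat_lit 7) (.nd (nat_lit 8) (.nd (nat_lit 9) 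
(.lf (nat_lit 598104) (.g (nat_lit 2959) (.e (nat_lit 573484) (nat_lit 13) (.e (nat_lit 65610) (nat_lit 10) (.e (nat_lit 344129) (nat_lit 26) (.e (nat_lit 557087) (nat_lit 11) (.e (nat_lit 24623) (nat_lit 9) (.e (nat_lit 336258) (nat_lit 15) (.e (nat_lit 3309) (nat_lit 202) .nil))))))) (.g (nat_lit 1) (.e (nat_lit 414087) (nat_lit 0) .nil) .nil))) 
(.lf (nat_lit 598616) (.g (nat_lit 2693) (.e (nat_lit 573485) (nat_lit 13) (.e (nat_lit 65619) (nat_lit 10) (.e (nat_lit 344129) (nat_lit 26) (.e (nat_lit 557086) (nat_lit 11) (.e (nat_lit 24652) (nat_lit 12) .nil))))) (.g (nat_lit 0) (.e (nat_lit 414833) (nat_lit 0) .nil) .nil)))) (.nd (nat_lit 9) 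
(.lf (nat_lit 598360) (.g (nat_lit 1106) (.e (nat_lit 573485) (nat_lit 13) (.e (nat_lit 65619) (nat_lit 10) (.e (nat_lit 344117) (nat_lit 21) (.e (nat_lit 516106) (nat_lit 0) .nil)))) (.g (nat_lit 0) (.e (nat_lit 414526) (nat_lit 0) .nil) .nil))) 
(.lf (nat_lit 598872) (.g (nat_lit 4044) (.e (nat_lit 573487) (nat_lit 14) (.e (nat_lit 73782) (nat_lit 32) (.e (nat_lit 2664) (nat_lit 167) (.e (nat_lit 196666) (nat_lit 13) (.e (nat_lit 65624) (nat_lit 12) (.e (nat_lit 385074) (nat_lit 31) .nil)))))) (.g (nat_lit 1) (.e (nat_lit 415446) (nat_lit 0) .nil) .nil))))) (.nd (nat_lit 8) (.nd (nat_lit 9) 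
(.lf (nat_lit 598232) (.g (nat_lit 3197) (.e (nat_lit 573485) (nat_lit 13) (.e (nat_lit 65604) (nat_lit 9) (.e (nat_lit 336013) (nat_lit 2) (.e (nat_lit 90170) (nat_lit 13) (.e (nat_lit 172046) (nat_lit 0) (.e (nat_lit 2458) (nat_lit 157) (.e (nat_lit 5548) (nat_lit 306) (.e (nat_lit 2601) (nat_lit 163) (.e (nat_lit 163978) (nat_lit 30) .nil))))))))) (.g (nat_lit 1) (.e (nat_lit 414369) (nat_lit 0) .nil) .nil))) 
(.lf (nat_lit 598744) (.g (nat_lit 1297) (.e (nat_lit 573487) (nat_lit 14) (.e (nat_lit 73753) (nat_lit 8) (.e (nat_lit 557089) (nat_lit 12) (.e (nat_lit 164007) (nat_lit 41) .nil)))) (.g (nat_lit 0) (.e (nat_lit 415101) (nat_lit 0) .nil) .nil)))) (.nd (nat_lit 9) 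
(.lf (nat_lit 598488) (.g (nat_lit 3358) (.e (nat_lit 573485) (nat_lit 13) (.e (nat_lit 65619) (nat_lit 10) (.e (nat_lit 344117) (nat_lit 21) (.e (nat_lit 516151) (nat_lit 9) (.e (nat_lit 426104) (nat_lit 1) (.e (nat_lit 164346) (nat_lit 240) (.e (nat_lit 2611) (nat_lit 163) (.e (nat_lit 163978) (nat_lit 30) .nil)))))))) (.g (nat_lit 1) (.e (nat_lit 414669) (nat_lit 0) .nil) .nil))) 
(.lf (nat_lit 599000) (.g (nat_lit 2086) (.e (nat_lit 573489) (nat_lit 14) (.e (nat_lit 73753) (nat_lit 8) (.e (nat_lit 557091) (nat_lit 12) (.e (nat_lit 164006) (nat_lit 41) .nil)))) (.g (nat_lit 0) (.e (nat_lit 415802) (nat_lit 0) .nil) .nil))))))) (.nd (nat_lit 6) (.nd (nat_lit 7) (.nd (nat_lit 8) (.nd (nat_lit 9) 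
(.lf (nat_lit 598072) (.g (nat_lit 2924) (.e (nat_lit 573484) (nat_lit 13) (.e (nat_lit 65610) (nat_lit 10) (.e (nat_lit 344117) (nat_lit 21) (.e (nat_lit 516185) (nat_lit 16) (.e (nat_lit 491547) (nat_lit 9) (.e (nat_lit 336258) (nat_lit 15) (.e (nat_lit 3309) (nat_lit 202) .nil))))))) (.g (nat_lit 1) (.e (nat_lit 413997) (nat_lit 0) .nil) .nil))) 
(.lf (nat_lit 598584) (.g (nat_lit 1647) (.e (nat_lit 573485) (nat_lit 13) (.e (nat_lit 65619) (nat_lit 10) (.e (nat_lit 344129) (nat_lit 26) (.e (nat_lit 557066) (nat_lit 9) (.e (nat_lit 312) (nat_lit 23) .nil))))) (.g (nat_lit 0) (.e (nat_lit 414794) (nat_lit 0) .nil) .nil)))) (.nd (nat_lit 9) 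
(.lf (nat_lit 598328) (.g (nat_lit 3825) (.e (nat_lit 573485) (nat_lit 13) (.e (nat_lit 65604) (nat_lit 9) (.e (nat_lit 336028) (nat_lit 3) (.e (nat_lit 98367) (nat_lit 27) (.e (nat_lit 434209) (nat_lit 18) (.e (nat_lit 5546) (nat_lit 306) (.e (nat_lit 2611) (nat_lit 163) (.e (nat_lit 163977) (nat_lit 30) .nil)))))))) (.g (nat_lit 1) (.e (nat_lit 414486) (nat_lit 0) .nil) .nil))) 
(.lf (nat_lit 598840) (.g (nat_lit 2558) (.e (nat_lit 573487) (nat_lit 14) (.e (nat_lit 73754) (nat_lit 8) (.e (nat_lit 557091) (nat_lit 12) (.e (nat_lit 164006) (nat_lit 41) (.e (nat_lit 671488) (nat_lit 0) .nil))))) (.g (nat_lit 0) (.e (nat_lit 415393) (nat_lit 0) .nil) .nil))))) (.nd (nat_lit 8) (.nd (nat_lit 9) 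
(.lf (nat_lit 598200) (.g (nat_lit 943) (.e (nat_lit 573485) (nat_lit 13) (.e (nat_lit 65604) (nat_lit 9) (.e (nat_lit 336013) (nat_lit 2) (.e (nat_lit 90165) (nat_lit 12) .nil)))) (.g (nat_lit 0) (.e (nat_lit 414333) (nat_lit 0) .nil) .nil))) 
(.lf (nat_lit 598712) (.g (nat_lit 1477) (.e (nat_lit 573485) (nat_lit 13) (.e (nat_lit 65630) (nat_lit 14) (.e (nat_lit 401428) (nat_lit 3) (.e (nat_lit 204878) (nat_lit 31) (.e (nat_lit 384768) (nat_lit 0) .nil))))) (.g (nat_lit 0) (.e (nat_lit 414977) (nat_lit 0) .nil) .nil)))) (.nd (nat_lit 9) 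
(.lf (nat_lit 598456) (.g (nat_lit 3501) (.e (nat_lit 573485) (nat_lit 13) (.e (nat_lit 65619) (nat_lit 10) (.e (nat_lit 344117) (nat_lit 21) (.e (nat_lit 516151) (nat_lit 9) (.e (nat_lit 426041) (nat_lit 0) (.e (nat_lit 3406) (nat_lit 212) (.e (nat_lit 655375) (nat_lit 3) (.e (nat_lit 163978) (nat_lit 30) .nil)))))))) (.g (nat_lit 1) (.e (nat_lit 414636) (nat_lit 0) .nil) .nil))) 
(.lf (nat_lit 598968) (.g (nat_lit 2910) (.e (nat_lit 573488) (nat_lit 14) (.e (nat_lit 73755) (nat_lit 8) (.e (nat_lit 557105) (nat_lit 14) (.e (nat_lit 180250) (nat_lit 10) (.e (nat_lit 573473) (nat_lit 12) .nil))))) (.g (nat_lit 0) (.e (nat_lit 415693) (nat_lit 0) .nil) .nil)))))) (.nd (nat_lit 7) (.nd (nat_lit 8) (.nd (nat_lit 9) 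
(.lf (nat_lit 598136) (.g (nat_lit 251) (.e (nat_lit 573484) (nat_lit 13) (.e (nat_lit 65617) (nat_lit 10) (.e (nat_lit 344133) (nat_lit 26) .nil))) (.g (nat_lit 0) (.e (nat_lit 414166) (nat_lit 0) .nil) .nil))) 
(.lf (nat_lit 598648) (.g (nat_lit 4090) (.e (nat_lit 573485) (nat_lit 13) (.e (nat_lit 65619) (nat_lit 10) (.e (nat_lit 344129) (nat_lit 26) (.e (nat_lit 557087) (nat_lit 11) (.e (nat_lit 24649) (nat_lit 12) (.e (nat_lit 385072) (nat_lit 31) .nil)))))) (.g (nat_lit 1) (.e (nat_lit 414884) (nat_lit 0) .nil) .nil)))) (.nd (nat_lit 9) 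
(.lf (nat_lit 598392) (.g (nat_lit 3118) (.e (nat_lit 573485) (nat_lit 13) (.e (nat_lit 65619) (nat_lit 10) (.e (nat_lit 344117) (nat_lit 21) (.e (nat_lit 516145) (nat_lit 9) (.e (nat_lit 433920) (nat_lit 1) (.e (nat_lit 164348) (nat_lit 240) (.e (nat_lit 2610) (nat_lit 163) (.e (nat_lit 163977) (nat_lit 30) .nil)))))))) (.g (nat_lit 1) (.e (nat_lit 414572) (nat_lit 0) .nil) .nil))) 
(.lf (nat_lit 598904) (.g (nat_lit 3396) (.e (nat_lit 573488) (nat_lit 14) (.e (nat_lit 73754) (nat_lit 8) (.e (nat_lit 557103) (nat_lit 14) (.e (nat_lit 180250) (nat_lit 10) (.e (nat_lit 573474) (nat_lit 12) (.e (nat_lit 57503) (nat_lit 38) (.e (nat_lit 638995) (nat_lit 7) (.e (nat_lit 163979) (nat_lit 30) .nil)))))))) (.g (nat_lit 1) (.e (nat_lit 415540) (nat_lit 0) .nil) .nil))))) 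
(.nd (nat_lit 8) (.nd (nat_lit 9) 
(.lf (nat_lit 598264) (.g (nat_lit 3629) (.e (nat_lit 573485) (nat_lit 13) (.e (nat_lit 65604) (nat_lit 9) (.e (nat_lit 336013) (nat_lit 2) (.e (nat_lit 90170) (nat_lit 13) (.e (nat_lit 172060) (nat_lit 1) (.e (nat_lit 164345) (nat_lit 240) (.e (nat_lit 2611) (nat_lit 163) (.e (nat_lit 163977) (nat_lit 30) .nil)))))))) (.g (nat_lit 1) (.e (nat_lit 414405) (nat_lit 0) .nil) .nil))) 
(.lf (nat_lit 598776) (.g (nat_lit 1050) (.e (nat_lit 573487) (nat_lit 14) (.e (nat_lit 73753) (nat_lit 8) (.e (nat_lit 557096) (nat_lit 13) (.e (nat_lit 172140) (nat_lit 22) .nil)))) (.g (nat_lit 0) (.e (nat_lit 415168) (nat_lit 0) .nil) .nil)))) (.nd (nat_lit 9) 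
(.lf (nat_lit 598520) (.g (nat_lit 2099) (.e (nat_lit 573485) (nat_lit 13) (.e (nat_lit 65619) (nat_lit 10) (.e (nat_lit 344117) (nat_lit 21) (.e (nat_lit 516160) (nat_lit 10) (.e (nat_lit 434209) (nat_lit 18) .nil))))) (.g (nat_lit 0) (.e (nat_lit 414701) (nat_lit 0) .nil) .nil))) 
(.lf (nat_lit 599032) (.g (nat_lit 2185) (.e (nat_lit 573489) (nat_lit 14) (.e (nat_lit 73754) (nat_lit 8) (.e (nat_lit 557101) (nat_lit 13) (.e (nat_lit 172067) (nat_lit 3) (.e (nat_lit 204815) (nat_lit 17) .nil))))) (.g (nat_lit 0) (.e (nat_lit 415870) (nat_lit 0) .nil) .nil)))))))))) 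
(.nd (nat_lit 3) (.nd (nat_lit 4) (.nd (nat_lit 5) (.nd (nat_lit 6) (.nd (nat_lit 7) 
(.nd (nat_lit 8) (.nd (nat_lit 9) 
(.lf (nat_lit 598020) (.g (nat_lit 4022) (.e (nat_lit 573484) (nat_lit 13) (.e (nat_lit 65610) (nat_lit 10) (.e (nat_lit 344117) (nat_lit 21) (.e (nat_lit 516151) (nat_lit 9) (.e (nat_lit 426047) (nat_lit 0) (.e (nat_lit 2515) (nat_lit 157) (.e (nat_lit 5448) (nat_lit 306) (.e (nat_lit 2612) (nat_lit 163) (.e (nat_lit 163978) (nat_lit 30) .nil))))))))) (.g (nat_lit 1) (.e (nat_lit 413905) (nat_lit 0) .nil) .nil))) 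
(.lf (nat_lit 598532) (.g (nat_lit 2841) (.e (nat_lit 573485) (nat_lit 13) (.e (nat_lit 65619) (nat_lit 10) (.e (nat_lit 344117) (nat_lit 21) (.e (nat_lit 516170) (nat_lit 13) (.e (nat_lit 458774) (nat_lit 18) (.e (nat_lit 5546) (nat_lit 306) (.e (nat_lit 2601) (nat_lit 163) (.e (nat_lit 163977) (nat_lit 30) .nil)))))))) (.g (nat_lit 1) (.e (nat_lit 414715) (nat_lit 0) .nil) .nil)))) 
(.nd (nat_lit 9) 
(.lf (nat_lit 598276) (.g (nat_lit 2771) (.e (nat_lit 573485) (nat_lit 13) (.e (nat_lit 65604) (nat_lit 9) (.e (nat_lit 336013) (nat_lit 2) (.e (nat_lit 90170) (nat_lit 13) (.e (nat_lit 172069) (nat_lit 4) (.e (nat_lit 229663) (nat_lit 240) (.e (nat_lit 2604) (nat_lit 163) (.e (nat_lit 163977) (nat_lit 30) .nil)))))))) (.g (nat_lit 1) (.e (nat_lit 414418) (nat_lit 0) .nil) .nil))) 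
(.lf (nat_lit 598788) (.g (nat_lit 2583) (.e (nat_lit 573487) (nat_lit 14) (.e (nat_lit 73753) (nat_lit 8) (.e (nat_lit 557100) (nat_lit 13) (.e (nat_lit 172067) (nat_lit 3) (.e (nat_lit 204817) (nat_lit 17) .nil))))) (.g (nat_lit 0) (.e (nat_lit 415242) (nat_lit 0) .nil) .nil))))) (.nd (nat_lit 8) (.nd (nat_lit 9) 
(.lf (nat_lit 598148) (.g (nat_lit 3847) (.e (nat_lit 573484) (nat_lit 13) (.e (nat_lit 65617) (nat_lit 10) (.e (nat_lit 344133) (nat_lit 26) (.e (nat_lit 557087) (nat_lit 11) (.e (nat_lit 24625) (nat_lit 9) (.e (nat_lit 336261) (nat_lit 15) (.e (nat_lit 3304) (nat_lit 202) .nil))))))) (.g (nat_lit 1) (.e (nat_lit 414193) (nat_lit 0) .nil) .nil))) 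
(.lf (nat_lit 598660) (.g (nat_lit 1521) (.e (nat_lit 573485) (nat_lit 13) (.e (nat_lit 65622) (nat_lit 12) (.e (nat_lit 385074) (nat_lit 31) (.e (nat_lit 573482) (nat_lit 13) .nil)))) (.g (nat_lit 0) (.e (nat_lit 414900) (nat_lit 0) .nil) .nil)))) (.nd (nat_lit 9) 
(.lf (nat_lit 598404) (.g (nat_lit 3493) (.e (nat_lit 573485) (nat_lit 13) (.e (nat_lit 65619) (nat_lit 10) (.e (nat_lit 344117) (nat_lit 21) (.e (nat_lit 516145) (nat_lit 9) (.e (nat_lit 426363) (nat_lit 15) .nil))))) (.g (nat_lit 0) (.e (nat_lit 414584) (nat_lit 0) .nil) .nil))) 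
(.lf (nat_lit 598916) (.g (nat_lit 2245) (.e (nat_lit 573488) (nat_lit 14) (.e (nat_lit 73755) (nat_lit 8) (.e (nat_lit 557090) (nat_lit 12) (.e (nat_lit 163843) (nat_lit 0) (.e (nat_lit 5943) (nat_lit 322) .nil))))) (.g (nat_lit 0) (.e (nat_lit 415558) (nat_lit 0) .nil) .nil)))))) (.nd (nat_lit 7) (.nd (nat_lit 8) (.nd (nat_lit 9) 
(.lf (nat_lit 598084) (.g (nat_lit 1621) (.e (nat_lit 573484) (nat_lit 13) (.e (nat_lit 65610) (nat_lit 10) (.e (nat_lit 344129) (nat_lit 26) (.e (nat_lit 557065) (nat_lit 9) .nil)))) (.g (nat_lit 0) (.e (nat_lit 414036) (nat_lit 0) .nil) .nil))) 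
(.lf (nat_lit 598596) (.g (nat_lit 2664) (.e (nat_lit 573485) (nat_lit 13) (.e (nat_lit 65619) (nat_lit 10) (.e (nat_lit 344129) (nat_lit 26) (.e (nat_lit 557072) (nat_lit 9) (.e (nat_lit 290) (nat_lit 21) .nil))))) (.g (nat_lit 0) (.e (nat_lit 414808) (nat_lit 0) .nil) .nil)))) (.nd (nat_lit 9) 
(.lf (nat_lit 598340) (.g (nat_lit 3405) (.e (nat_lit 573485) (nat_lit 13) (.e (nat_lit 65619) (nat_lit 10) (.e (nat_lit 344090) (nat_lit 18) (.e (nat_lit 7708) (nat_lit 414) (.e (nat_lit 163908) (nat_lit 12) (.e (nat_lit 426171) (nat_lit 7) (.e (nat_lit 409617) (nat_lit 10) (.e (nat_lit 632) (nat_lit 50) .nil)))))))) (.g (nat_lit 1) (.e (nat_lit 414501) (nat_lit 0) .nil) .nil))) 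
(.lf (nat_lit 598852) (.g (nat_lit 1877) (.e (nat_lit 573487) (nat_lit 14) (.e (nat_lit 73755) (nat_lit 8) (.e (nat_lit 557098) (nat_lit 13) (.e (nat_lit 172064) (nat_lit 2) .nil)))) (.g (nat_lit 0) (.e (nat_lit 415407) (nat_lit 0) .nil) .nil))))) (.nd (nat_lit 8) (.nd (nat_lit 9) 
(.lf (nat_lit 598212) (.g (nat_lit 2913) (.e (nat_lit 573485) (nat_lit 13) (.e (nat_lit 65604) (nat_lit 9) (.e (nat_lit 336013) (nat_lit 2) (.e (nat_lit 90170) (nat_lit 13) (.e (nat_lit 172038) (nat_lit 0) (.e (nat_lit 3399) (nat_lit 211) (.e (nat_lit 647180) (nat_lit 3) (.e (nat_lit 163978) (nat_lit 30) .nil)))))))) (.g (nat_lit 1) (.e (nat_lit 414345) (nat_lit 0) .nil) .nil))) 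
(.lf (nat_lit 598724) (.g (nat_lit 760) (.e (nat_lit 573486) (nat_lit 14) (.e (nat_lit 73755) (nat_lit 8) (.e (nat_lit 557067) (nat_lit 9) .nil))) (.g (nat_lit 0) (.e (nat_lit 414993) (nat_lit 0) .nil) .nil)))) (.nd (nat_lit 9) 
(.lf (nat_lit 598468) (.g (nat_lit 3570) (.e (nat_lit 573485) (nat_lit 13) (.e (nat_lit 65619) (nat_lit 10) (.e (nat_lit 344117) (nat_lit 21) (.e (nat_lit 516151) (nat_lit 9) (.e (nat_lit 426042) (nat_lit 0) (.e (nat_lit 3407) (nat_lit 212) (.e (nat_lit 655373) (nat_lit 3) (.e (nat_lit 163978) (nat_lit 30) .nil)))))))) (.g (nat_lit 1) (.e (nat_lit 414649) (nat_lit 0) .nil) .nil))) 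
(.lf (nat_lit 598980) (.g (nat_lit 2417) (.e (nat_lit 573488) (nat_lit 14) (.e (nat_lit 73755) (nat_lit 8) (.e (nat_lit 557105) (nat_lit 14) (.e (nat_lit 180252) (nat_lit 10) (.e (nat_lit 573475) (nat_lit 12) (.e (nat_lit 57500) (nat_lit 37) (.e (nat_lit 630799) (nat_lit 7) (.e (nat_lit 163975) (nat_lit 30) .nil)))))))) (.g (nat_lit 1) (.e (nat_lit 415708) (nat_lit 0) .nil) .nil))))))) 
(.nd (nat_lit 6) (.nd (nat_lit 7) (.nd (nat_lit 8) (.nd (nat_lit 9) 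
(.lf (nat_lit 598052) (.g (nat_lit 3837) (.e (nat_lit 573484) (nat_lit 13) (.e (nat_lit 65610) (nat_lit 10) (.e (nat_lit 344117) (nat_lit 21) (.e (nat_lit 516179) (nat_lit 15) (.e (nat_lit 475198) (nat_lit 40) (.e (nat_lit 704590) (nat_lit 3) (.e (nat_lit 163975) (nat_lit 30) .nil))))))) (.g (nat_lit 1) (.e (nat_lit 413961) (nat_lit 0) .nil) .nil))) 
(.lf (nat_lit 598564) (.g (nat_lit 2943) (.e (nat_lit 573485) (nat_lit 13) (.e (nat_lit 65619) (nat_lit 10) (.e (nat_lit 344126) (nat_lit 25) (.e (nat_lit 548889) (nat_lit 9) (.e (nat_lit 65605) (nat_lit 9) (.e (nat_lit 336295) (nat_lit 15) (.e (nat_lit 3305) (nat_lit 202) .nil))))))) (.g (nat_lit 1) (.e (nat_lit 414761) (nat_lit 0) .nil) .nil)))) (.nd (nat_lit 9) 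
(.lf (nat_lit 598308) (.g (nat_lit 2726) (.e (nat_lit 573485) (nat_lit 13) (.e (nat_lit 65604) (nat_lit 9) (.e (nat_lit 336028) (nat_lit 3) (.e (nat_lit 98358) (nat_lit 26) (.e (nat_lit 426402) (nat_lit 15) .nil))))) (.g (nat_lit 0) (.e (nat_lit 414455) (nat_lit 0) .nil) .nil))) 
(.lf (nat_lit 598820) (.g (nat_lit 3791) (.e (nat_lit 573487) (nat_lit 14) (.e (nat_lit 73753) (nat_lit 8) (.e (nat_lit 557104) (nat_lit 14) (.e (nat_lit 180252) (nat_lit 10) (.e (nat_lit 573475) (nat_lit 12) (.e (nat_lit 57503) (nat_lit 38) (.e (nat_lit 638995) (nat_lit 7) (.e (nat_lit 163977) (nat_lit 30) .nil)))))))) (.g (nat_lit 1) (.e (nat_lit 415357) (nat_lit 0) .nil) .nil))))) 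
(.nd (nat_lit 8) (.nd (nat_lit 9) 
(.lf (nat_lit 598180) (.g (nat_lit 364) (.e (nat_lit 573485) (nat_lit 13) (.e (nat_lit 65604) (nat_lit 9) (.e (nat_lit 336013) (nat_lit 2) .nil))) (.g (nat_lit 0) (.e (nat_lit 414308) (nat_lit 0) .nil) .nil))) 
(.lf (nat_lit 598692) (.g (nat_lit 841) (.e (nat_lit 573485) (nat_lit 13) (.e (nat_lit 65630) (nat_lit 14) (.e (nat_lit 401412) (nat_lit 0) .nil))) (.g (nat_lit 0) (.e (nat_lit 414949) (nat_lit 0) .nil) .nil)))) (.nd (nat_lit 9) 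
(.lf (nat_lit 598436) (.g (nat_lit 4011) (.e (nat_lit 573485) (nat_lit 13) (.e (nat_lit 65619) (nat_lit 10) (.e (nat_lit 344117) (nat_lit 21) (.e (nat_lit 516151) (nat_lit 9) (.e (nat_lit 426037) (nat_lit 0) (.e (nat_lit 2458) (nat_lit 157) (.e (nat_lit 5547) (nat_lit 306) (.e (nat_lit 2611) (nat_lit 163) (.e (nat_lit 163978) (nat_lit 30) .nil))))))))) (.g (nat_lit 1) (.e (nat_lit 414616) (nat_lit 0) .nil) .nil))) 
(.lf (nat_lit 598948) (.g (nat_lit 2546) (.e (nat_lit 573488) (nat_lit 14) (.e (nat_lit 73755) (nat_lit 8) (.e (nat_lit 557103) (nat_lit 14) (.e (nat_lit 180250) (nat_lit 10) (.e (nat_lit 573475) (nat_lit 12) (.e (nat_lit 57504) (nat_lit 38) (.e (nat_lit 638994) (nat_lit 7) (.e (nat_lit 163976) (nat_lit 30) .nil)))))))) (.g (nat_lit 1) (.e (nat_lit 415649) (nat_lit 0) .nil) .nil)))))) 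
(.nd (nat_lit 7) (.nd (nat_lit 8) (.nd (nat_lit 9) 
(.lf (nat_lit 598116) (.g (nat_lit 2103) (.e (nat_lit 573484) (nat_lit 13) (.e (nat_lit 65610) (nat_lit 10) (.e (nat_lit 344129) (nat_lit 26) (.e (nat_lit 557089) (nat_lit 12) .nil)))) (.g (nat_lit 0) (.e (nat_lit 414099) (nat_lit 0) .nil) .nil))) 
(.lf (nat_lit 598628) (.g (nat_lit 4410) (.e (nat_lit 573485) (nat_lit 13) (.e (nat_lit 65619) (nat_lit 10) (.e (nat_lit 344129) (nat_lit 26) (.e (nat_lit 557087) (nat_lit 11) (.e (nat_lit 24624) (nat_lit 9) (.e (nat_lit 336240) (nat_lit 15) (.e (nat_lit 3309) (nat_lit 202) .nil))))))) (.g (nat_lit 1) (.e (nat_lit 414864) (nat_lit 0) .nil) .nil)))) (.nd (nat_lit 9) 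
(.lf (nat_lit 598372) (.g (nat_lit 2381) (.e (nat_lit 573485) (nat_lit 13) (.e (nat_lit 65619) (nat_lit 10) (.e (nat_lit 344117) (nat_lit 21) (.e (nat_lit 516138) (nat_lit 7) (.e (nat_lit 409612) (nat_lit 10) .nil))))) (.g (nat_lit 0) (.e (nat_lit 414545) (nat_lit 0) .nil) .nil))) 
(.lf (nat_lit 598884) (.g (nat_lit 2947) (.e (nat_lit 573488) (nat_lit 14) (.e (nat_lit 73753) (nat_lit 8) (.e (nat_lit 557091) (nat_lit 12) (.e (nat_lit 163999) (nat_lit 38) (.e (nat_lit 639016) (nat_lit 15) .nil))))) (.g (nat_lit 0) (.e (nat_lit 415519) (nat_lit 0) .nil) .nil))))) (.nd (nat_lit 8) (.nd (nat_lit 9) 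
(.lf (nat_lit 598244) (.g (nat_lit 2436) (.e (nat_lit 573485) (nat_lit 13) (.e (nat_lit 65604) (nat_lit 9) (.e (nat_lit 336013) (nat_lit 2) (.e (nat_lit 90170) (nat_lit 13) (.e (nat_lit 172049) (nat_lit 0) (.e (nat_lit 2458) (nat_lit 157) (.e (nat_lit 5548) (nat_lit 306) (.e (nat_lit 2610) (nat_lit 163) (.e (nat_lit 163977) (nat_lit 30) .nil))))))))) (.g (nat_lit 1) (.e (nat_lit 414383) (nat_lit 0) .nil) .nil))) 
(.lf (nat_lit 598756) (.g (nat_lit 2504) (.e (nat_lit 573487) (nat_lit 14) (.e (nat_lit 73753) (nat_lit 8) (.e (nat_lit 557090) (nat_lit 12) (.e (nat_lit 163850) (nat_lit 0) (.e (nat_lit 5951) (nat_lit 322) .nil))))) (.g (nat_lit 0) (.e (nat_lit 415123) (nat_lit 0) .nil) .nil)))) (.nd (nat_lit 9) 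
(.lf (nat_lit 598500) (.g (nat_lit 3443) (.e (nat_lit 573485) (nat_lit 13) (.e (nat_lit 65619) (nat_lit 10) (.e (nat_lit 344117) (nat_lit 21) (.e (nat_lit 516151) (nat_lit 9) (.e (nat_lit 426406) (nat_lit 15) .nil))))) (.g (nat_lit 0) (.e (nat_lit 414681) (nat_lit 0) .nil) .nil))) 
(.lf (nat_lit 599012) (.g (nat_lit 2565) (.e (nat_lit 573489) (nat_lit 14) (.e (nat_lit 73753) (nat_lit 8) (.e (nat_lit 557105) (nat_lit 14) (.e (nat_lit 180252) (nat_lit 10) (.e (nat_lit 573475) (nat_lit 12) .nil))))) (.g (nat_lit 0) (.e (nat_lit 415818) (nat_lit 0) .nil) .nil)))))))) (.nd (nat_lit 5) (.nd (nat_lit 6) (.nd (nat_lit 7) (.nd (nat_lit 8) (.nd (nat_lit 9) 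
(.lf (nat_lit 598036) (.g (nat_lit 3649) (.e (nat_lit 573484) (nat_lit 13) (.e (nat_lit 65610) (nat_lit 10) (.e (nat_lit 344117) (nat_lit 21) (.e (nat_lit 516151) (nat_lit 9) (.e (nat_lit 426412) (nat_lit 15) (.e (nat_lit 2175) (nat_lit 143) (.e (nat_lit 712722) (nat_lit 15) (.e (nat_lit 3295) (nat_lit 202) .nil)))))))) (.g (nat_lit 1) (.e (nat_lit 413932) (nat_lit 0) .nil) .nil))) 
(.lf (nat_lit 598548) (.g (nat_lit 2947) (.e (nat_lit 573485) (nat_lit 13) (.e (nat_lit 65619) (nat_lit 10) (.e (nat_lit 344117) (nat_lit 21) (.e (nat_lit 516185) (nat_lit 16) (.e (nat_lit 491553) (nat_lit 9) (.e (nat_lit 336295) (nat_lit 15) (.e (nat_lit 3305) (nat_lit 202) .nil))))))) (.g (nat_lit 1) (.e (nat_lit 414734) (nat_lit 0) .nil) .nil)))) (.nd (nat_lit 9) 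
(.lf (nat_lit 598292) (.g (nat_lit 2673) (.e (nat_lit 573485) (nat_lit 13) (.e (nat_lit 65604) (nat_lit 9) (.e (nat_lit 336013) (nat_lit 2) (.e (nat_lit 90170) (nat_lit 13) (.e (nat_lit 179968) (nat_lit 24) (.e (nat_lit 163584) (nat_lit 3) (.e (nat_lit 163977) (nat_lit 30) .nil))))))) (.g (nat_lit 1) (.e (nat_lit 414435) (nat_lit 0) .nil) .nil))) 
(.lf (nat_lit 598804) (.g (nat_lit 2438) (.e (nat_lit 573487) (nat_lit 14) (.e (nat_lit 73753) (nat_lit 8) (.e (nat_lit 557103) (nat_lit 14) (.e (nat_lit 180243) (nat_lit 5) (.e (nat_lit 532504) (nat_lit 1) .nil))))) (.g (nat_lit 0) (.e (nat_lit 415300) (nat_lit 0) .nil) .nil))))) (.nd (nat_lit 8) (.nd (nat_lit 9) 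
(.lf (nat_lit 598164) (.g (nat_lit 1191) (.e (nat_lit 573484) (nat_lit 13) (.e (nat_lit 65628) (nat_lit 14) (.e (nat_lit 401425) (nat_lit 2) (.e (nat_lit 196674) (nat_lit 15) .nil)))) (.g (nat_lit 0) (.e (nat_lit 414230) (nat_lit 0) .nil) .nil))) 
(.lf (nat_lit 598676) (.g (nat_lit 2938) (.e (nat_lit 573485) (nat_lit 13) (.e (nat_lit 65628) (nat_lit 14) (.e (nat_lit 401425) (nat_lit 2) (.e (nat_lit 196681) (nat_lit 17) (.e (nat_lit 131108) (nat_lit 9) .nil))))) (.g (nat_lit 0) (.e (nat_lit 414932) (nat_lit 0) .nil) .nil)))) (.nd (nat_lit 9) 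
(.lf (nat_lit 598420) (.g (nat_lit 3063) (.e (nat_lit 573485) (nat_lit 13) (.e (nat_lit 65619) (nat_lit 10) (.e (nat_lit 344117) (nat_lit 21) (.e (nat_lit 516146) (nat_lit 9) (.e (nat_lit 426442) (nat_lit 19) .nil))))) (.g (nat_lit 0) (.e (nat_lit 414600) (nat_lit 0) .nil) .nil))) 
(.lf (nat_lit 598932) (.g (nat_lit 1586) (.e (nat_lit 573488) (nat_lit 14) (.e (nat_lit 73755) (nat_lit 8) (.e (nat_lit 557098) (nat_lit 13) (.e (nat_lit 172067) (nat_lit 3) .nil)))) (.g (nat_lit 0) (.e (nat_lit 415604) (nat_lit 0) .nil) .nil)))))) (.nd (nat_lit 7) (.nd (nat_lit 8) (.nd (nat_lit 9) 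
(.lf (nat_lit 598100) (.g (nat_lit 3013) (.e (nat_lit 573484) (nat_lit 13) (.e (nat_lit 65610) (nat_lit 10) (.e (nat_lit 344129) (nat_lit 26) (.e (nat_lit 557085) (nat_lit 11) (.e (nat_lit 24650) (nat_lit 12) (.e (nat_lit 385073) (nat_lit 31) .nil)))))) (.g (nat_lit 1) (.e (nat_lit 414081) (nat_lit 0) .nil) .nil))) 
(.lf (nat_lit 598612) (.g (nat_lit 2386) (.e (nat_lit 573485) (nat_lit 13) (.e (nat_lit 65619) (nat_lit 10) (.e (nat_lit 344129) (nat_lit 26) (.e (nat_lit 557086) (nat_lit 11) (.e (nat_lit 24630) (nat_lit 9) (.e (nat_lit 336240) (nat_lit 15) (.e (nat_lit 3309) (nat_lit 202) .nil))))))) (.g (nat_lit 1) (.e (nat_lit 414829) (nat_lit 0) .nil) .nil)))) (.nd (nat_lit 9) 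
(.lf (nat_lit 598356) (.g (nat_lit 2660) (.e (nat_lit 573485) (nat_lit 13) (.e (nat_lit 65619) (nat_lit 10) (.e (nat_lit 344117) (nat_lit 21) (.e (nat_lit 516099) (nat_lit 0) .nil)))) (.g (nat_lit 0) (.e (nat_lit 414522) (nat_lit 0) .nil) .nil))) 
(.lf (nat_lit 598868) (.g (nat_lit 2884) (.e (nat_lit 573487) (nat_lit 14) (.e (nat_lit 73781) (nat_lit 32) (.e (nat_lit 2664) (nat_lit 167) (.e (nat_lit 196672) (nat_lit 15) (.e (nat_lit 81924) (nat_lit 0) (.e (nat_lit 3305) (nat_lit 202) .nil)))))) (.g (nat_lit 1) (.e (nat_lit 415429) (nat_lit 0) .nil) .nil))))) (.nd (nat_lit 8) (.nd (nat_lit 9) 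
(.lf (nat_lit 598228) (.g (nat_lit 3345) (.e (nat_lit 573485) (nat_lit 13) (.e (nat_lit 65604) (nat_lit 9) (.e (nat_lit 336013) (nat_lit 2) (.e (nat_lit 90170) (nat_lit 13) (.e (nat_lit 172045) (nat_lit 0) .nil))))) (.g (nat_lit 0) (.e (nat_lit 414362) (nat_lit 0) .nil) .nil))) 
(.lf (nat_lit 598740) (.g (nat_lit 1894) (.e (nat_lit 573487) (nat_lit 14) (.e (nat_lit 73747) (nat_lit 3) (.e (nat_lit 516120) (nat_lit 1) (.e (nat_lit 171776) (nat_lit 160) .nil)))) (.g (nat_lit 0) (.e (nat_lit 415048) (nat_lit 0) .nil) .nil)))) (.nd (nat_lit 9) 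
(.lf (nat_lit 598484) (.g (nat_lit 4097) (.e (nat_lit 573485) (nat_lit 13) (.e (nat_lit 65619) (nat_lit 10) (.e (nat_lit 344117) (nat_lit 21) (.e (nat_lit 516151) (nat_lit 9) (.e (nat_lit 426103) (nat_lit 1) (.e (nat_lit 164348) (nat_lit 240) (.e (nat_lit 2610) (nat_lit 163) (.e (nat_lit 163978) (nat_lit 30) .nil)))))))) (.g (nat_lit 1) (.e (nat_lit 414665) (nat_lit 0) .nil) .nil))) 
(.lf (nat_lit 598996) (.g (nat_lit 1832) (.e (nat_lit 573489) (nat_lit 14) (.e (nat_lit 73747) (nat_lit 3) (.e (nat_lit 516120) (nat_lit 1) (.e (nat_lit 171776) (nat_lit 160) .nil)))) (.g (nat_lit 0) (.e (nat_lit 415793) (nat_lit 0) .nil) .nil))))))) (.nd (nat_lit 6) (.nd (nat_lit 7) (.nd (nat_lit 8) (.nd (nat_lit 9) 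
(.lf (nat_lit 598068) (.g (nat_lit 4422) (.e (nat_lit 573484) (nat_lit 13) (.e (nat_lit 65610) (nat_lit 10) (.e (nat_lit 344117) (nat_lit 21) (.e (nat_lit 516184) (nat_lit 16) (.e (nat_lit 491550) (nat_lit 9) (.e (nat_lit 336306) (nat_lit 15) (.e (nat_lit 3307) (nat_lit 202) .nil))))))) (.g (nat_lit 1) (.e (nat_lit 413992) (nat_lit 0) .nil) .nil))) 
(.lf (nat_lit 598580) (.g (nat_lit 813) (.e (nat_lit 573485) (nat_lit 13) (.e (nat_lit 65619) (nat_lit 10) (.e (nat_lit 344129) (nat_lit 26) (.e (nat_lit 557066) (nat_lit 9) .nil)))) (.g (nat_lit 0) (.e (nat_lit 414783) (nat_lit 0) .nil) .nil)))) (.nd (nat_lit 9) 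
(.lf (nat_lit 598324) (.g (nat_lit 2905) (.e (nat_lit 573485) (nat_lit 13) (.e (nat_lit 65604) (nat_lit 9) (.e (nat_lit 336028) (nat_lit 3) (.e (nat_lit 98366) (nat_lit 27) (.e (nat_lit 434209) (nat_lit 18) (.e (nat_lit 5548) (nat_lit 306) (.e (nat_lit 2600) (nat_lit 163) (.e (nat_lit 163977) (nat_lit 30) .nil)))))))) (.g (nat_lit 1) (.e (nat_lit 414479) (nat_lit 0) .nil) .nil))) 
(.lf (nat_lit 598836) (.g (nat_lit 4047) (.e (nat_lit 573487) (nat_lit 14) (.e (nat_lit 73753) (nat_lit 8) (.e (nat_lit 557105) (nat_lit 14) (.e (nat_lit 180252) (nat_lit 10) (.e (nat_lit 573475) (nat_lit 12) (.e (nat_lit 57504) (nat_lit 38) (.e (nat_lit 638994) (nat_lit 7) (.e (nat_lit 163975) (nat_lit 30) .nil)))))))) (.g (nat_lit 1) (.e (nat_lit 415387) (nat_lit 0) .nil) .nil))))) 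
(.nd (nat_lit 8) (.nd (nat_lit 9) 
(.lf (nat_lit 598196) (.g (nat_lit 4063) (.e (nat_lit 573485) (nat_lit 13) (.e (nat_lit 65604) (nat_lit 9) (.e (nat_lit 336013) (nat_lit 2) (.e (nat_lit 90146) (nat_lit 9) .nil)))) (.g (nat_lit 0) (.e (nat_lit 414329) (nat_lit 0) .nil) .nil))) 
(.lf (nat_lit 598708) (.g (nat_lit 842) (.e (nat_lit 573485) (nat_lit 13) (.e (nat_lit 65630) (nat_lit 14) (.e (nat_lit 401428) (nat_lit 3) (.e (nat_lit 204861) (nat_lit 26) .nil)))) (.g (nat_lit 0) (.e (nat_lit 414973) (nat_lit 0) .nil) .nil)))) (.nd (nat_lit 9) 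
(.lf (nat_lit 598452) (.g (nat_lit 3694) (.e (nat_lit 573485) (nat_lit 13) (.e (nat_lit 65619) (nat_lit 10) (.e (nat_lit 344117) (nat_lit 21) (.e (nat_lit 516151) (nat_lit 9) (.e (nat_lit 426039) (nat_lit 0) (.e (nat_lit 2458) (nat_lit 157) (.e (nat_lit 5547) (nat_lit 306) (.e (nat_lit 2599) (nat_lit 163) (.e (nat_lit 163978) (nat_lit 30) .nil))))))))) (.g (nat_lit 1) (.e (nat_lit 414632) (nat_lit 0) .nil) .nil))) 
(.lf (nat_lit 598964) (.g (nat_lit 2289) (.e (nat_lit 573488) (nat_lit 14) (.e (nat_lit 73755) (nat_lit 8) (.e (nat_lit 557104) (nat_lit 14) (.e (nat_lit 180252) (nat_lit 10) (.e (nat_lit 573475) (nat_lit 12) .nil))))) (.g (nat_lit 0) (.e (nat_lit 415686) (nat_lit 0) .nil) .nil)))))) (.nd (nat_lit 7) (.nd (nat_lit 8) (.nd (nat_lit 9) 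
(.lf (nat_lit 598132) (.g (nat_lit 2545) (.e (nat_lit 573484) (nat_lit 13) (.e (nat_lit 65617) (nat_lit 10) (.e (nat_lit 344130) (nat_lit 26) (.e (nat_lit 557090) (nat_lit 12) (.e (nat_lit 164014) (nat_lit 43) .nil))))) (.g (nat_lit 0) (.e (nat_lit 414150) (nat_lit 0) .nil) .nil))) 
(.lf (nat_lit 598644) (.g (nat_lit 2390) (.e (nat_lit 573485) (nat_lit 13) (.e (nat_lit 65619) (nat_lit 10) (.e (nat_lit 344129) (nat_lit 26) (.e (nat_lit 557087) (nat_lit 11) (.e (nat_lit 24636) (nat_lit 9) (.e (nat_lit 343808) (nat_lit 15) (.e (nat_lit 3307) (nat_lit 202) .nil))))))) (.g (nat_lit 1) (.e (nat_lit 414880) (nat_lit 0) .nil) .nil)))) (.nd (nat_lit 9) 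
(.lf (nat_lit 598388) (.g (nat_lit 2902) (.e (nat_lit 573485) (nat_lit 13) (.e (nat_lit 65619) (nat_lit 10) (.e (nat_lit 344117) (nat_lit 21) (.e (nat_lit 516145) (nat_lit 9) (.e (nat_lit 433920) (nat_lit 1) .nil))))) (.g (nat_lit 0) (.e (nat_lit 414568) (nat_lit 0) .nil) .nil))) 
(.lf (nat_lit 598900) (.g (nat_lit 1460) (.e (nat_lit 573488) (nat_lit 14) (.e (nat_lit 73754) (nat_lit 8) (.e (nat_lit 557101) (nat_lit 13) (.e (nat_lit 172064) (nat_lit 2) (.e (nat_lit 204544) (nat_lit 2) .nil))))) (.g (nat_lit 0) (.e (nat_lit 415536) (nat_lit 0) .nil) .nil))))) (.nd (nat_lit 8) (.nd (nat_lit 9) 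
(.lf (nat_lit 598260) (.g (nat_lit 3296) (.e (nat_lit 573485) (nat_lit 13) (.e (nat_lit 65604) (nat_lit 9) (.e (nat_lit 336013) (nat_lit 2) (.e (nat_lit 90170) (nat_lit 13) (.e (nat_lit 172060) (nat_lit 1) .nil))))) (.g (nat_lit 0) (.e (nat_lit 414401) (nat_lit 0) .nil) .nil))) 
(.lf (nat_lit 598772) (.g (nat_lit 548) (.e (nat_lit 573487) (nat_lit 14) (.e (nat_lit 73753) (nat_lit 8) (.e (nat_lit 557093) (nat_lit 12) .nil))) (.g (nat_lit 0) (.e (nat_lit 415154) (nat_lit 0) .nil) .nil)))) (.nd (nat_lit 9) 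
(.lf (nat_lit 598516) (.g (nat_lit 2307) (.e (nat_lit 573485) (nat_lit 13) (.e (nat_lit 65619) (nat_lit 10) (.e (nat_lit 344117) (nat_lit 21) (.e (nat_lit 516159) (nat_lit 10) (.e (nat_lit 434275) (nat_lit 39) .nil))))) (.g (nat_lit 0) (.e (nat_lit 414697) (nat_lit 0) .nil) .nil))) 
(.lf (nat_lit 599028) (.g (nat_lit 1769) (.e (nat_lit 573489) (nat_lit 14) (.e (nat_lit 73754) (nat_lit 8) (.e (nat_lit 557100) (nat_lit 13) (.e (nat_lit 179968) (nat_lit 17) .nil)))) (.g (nat_lit 0) (.e (nat_lit 415856) (nat_lit 0) .nil) .nil))))))))) (.nd (nat_lit 4) (.nd (nat_lit 5) (.nd (nat_lit 6) (.nd (nat_lit 7) (.nd (nat_lit 8) (.nd (nat_lit 9) 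
(.lf (nat_lit 598028) (.g (nat_lit 4371) (.e (nat_lit 573484) (nat_lit 13) (.e (nat_lit 65610) (nat_lit 10) (.e (nat_lit 344117) (nat_lit 21) (.e (nat_lit 516151) (nat_lit 9) (.e (nat_lit 426097) (nat_lit 1) (.e (nat_lit 164347) (nat_lit 240) (.e (nat_lit 2601) (nat_lit 163) (.e (nat_lit 163977) (nat_lit 30) .nil)))))))) (.g (nat_lit 1) (.e (nat_lit 413915) (nat_lit 0) .nil) .nil))) 
(.lf (nat_lit 598540) (.g (nat_lit 2532) (.e (nat_lit 573485) (nat_lit 13) (.e (nat_lit 65619) (nat_lit 10) (.e (nat_lit 344117) (nat_lit 21) (.e (nat_lit 516184) (nat_lit 16) (.e (nat_lit 491547) (nat_lit 9) .nil))))) (.g (nat_lit 0) (.e (nat_lit 414726) (nat_lit 0) .nil) .nil)))) (.nd (nat_lit 9) 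
(.lf (nat_lit 598284) (.g (nat_lit 2141) (.e (nat_lit 573485) (nat_lit 13) (.e (nat_lit 65604) (nat_lit 9) (.e (nat_lit 336013) (nat_lit 2) (.e (nat_lit 90170) (nat_lit 13) (.e (nat_lit 172070) (nat_lit 4) (.e (nat_lit 229681) (nat_lit 244) (.e (nat_lit 163850) (nat_lit 0) (.e (nat_lit 3306) (nat_lit 202) .nil)))))))) (.g (nat_lit 1) (.e (nat_lit 414426) (nat_lit 0) .nil) .nil))) 
(.lf (nat_lit 598796) (.g (nat_lit 418) (.e (nat_lit 573487) (nat_lit 14) (.e (nat_lit 73753) (nat_lit 8) (.e (nat_lit 557103) (nat_lit 14) .nil))) (.g (nat_lit 0) (.e (nat_lit 415269) (nat_lit 0) .nil) .nil))))) (.nd (nat_lit 8) (.nd (nat_lit 9) 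
(.lf (nat_lit 598156) (.g (nat_lit 3600) (.e (nat_lit 573484) (nat_lit 13) (.e (nat_lit 65624) (nat_lit 12) (.e (nat_lit 385074) (nat_lit 31) (.e (nat_lit 573482) (nat_lit 13) (.e (nat_lit 65601) (nat_lit 9) .nil))))) (.g (nat_lit 0) (.e (nat_lit 414216) (nat_lit 0) .nil) .nil))) 
(.lf (nat_lit 598668) (.g (nat_lit 3666) (.e (nat_lit 573485) (nat_lit 13) (.e (nat_lit 65624) (nat_lit 12) (.e (nat_lit 385074) (nat_lit 31) (.e (nat_lit 573493) (nat_lit 15) (.e (nat_lit 81923) (nat_lit 0) .nil))))) (.g (nat_lit 0) (.e (nat_lit 414921) (nat_lit 0) .nil) .nil)))) (.nd (nat_lit 9) 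
(.lf (nat_lit 598412) (.g (nat_lit 3214) (.e (nat_lit 573485) (nat_lit 13) (.e (nat_lit 65619) (nat_lit 10) (.e (nat_lit 344117) (nat_lit 21) (.e (nat_lit 516145) (nat_lit 9) (.e (nat_lit 426402) (nat_lit 15) .nil))))) (.g (nat_lit 0) (.e (nat_lit 414592) (nat_lit 0) .nil) .nil))) 
(.lf (nat_lit 598924) (.g (nat_lit 1878) (.e (nat_lit 573488) (nat_lit 14) (.e (nat_lit 73755) (nat_lit 8) (.e (nat_lit 557097) (nat_lit 13) (.e (nat_lit 172067) (nat_lit 3) (.e (nat_lit 204821) (nat_lit 17) .nil))))) (.g (nat_lit 0) (.e (nat_lit 415586) (nat_lit 0) .nil) .nil)))))) (.nd (nat_lit 7) (.nd (nat_lit 8) (.nd (nat_lit 9) 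
(.lf (nat_lit 598092) (.g (nat_lit 2737) (.e (nat_lit 573484) (nat_lit 13) (.e (nat_lit 65610) (nat_lit 10) (.e (nat_lit 344129) (nat_lit 26) (.e (nat_lit 557067) (nat_lit 9) (.e (nat_lit 290) (nat_lit 21) .nil))))) (.g (nat_lit 0) (.e (nat_lit 414060) (nat_lit 0) .nil) .nil))) 
(.lf (nat_lit 598604) (.g (nat_lit 2743) (.e (nat_lit 573485) (nat_lit 13) (.e (nat_lit 65619) (nat_lit 10) (.e (nat_lit 344129) (nat_lit 26) (.e (nat_lit 557084) (nat_lit 10) (.e (nat_lit 8568) (nat_lit 250) .nil))))) (.g (nat_lit 0) (.e (nat_lit 414819) (nat_lit 0) .nil) .nil)))) (.nd (nat_lit 9) 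
(.lf (nat_lit 598348) (.g (nat_lit 372) (.e (nat_lit 573485) (nat_lit 13) (.e (nat_lit 65619) (nat_lit 10) (.e (nat_lit 344117) (nat_lit 21) .nil))) (.g (nat_lit 0) (.e (nat_lit 414511) (nat_lit 0) .nil) .nil))) 
(.lf (nat_lit 598860) (.g (nat_lit 1912) (.e (nat_lit 573487) (nat_lit 14) (.e (nat_lit 73755) (nat_lit 8) (.e (nat_lit 557105) (nat_lit 14) (.e (nat_lit 180251) (nat_lit 10) .nil)))) (.g (nat_lit 0) (.e (nat_lit 415416) (nat_lit 0) .nil) .nil))))) (.nd (nat_lit 8) (.nd (nat_lit 9) 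
(.lf (nat_lit 598220) (.g (nat_lit 2811) (.e (nat_lit 573485) (nat_lit 13) (.e (nat_lit 65604) (nat_lit 9) (.e (nat_lit 336013) (nat_lit 2) (.e (nat_lit 90170) (nat_lit 13) (.e (nat_lit 172041) (nat_lit 0) (.e (nat_lit 2497) (nat_lit 157) (.e (nat_lit 5448) (nat_lit 306) (.e (nat_lit 2612) (nat_lit 163) (.e (nat_lit 163978) (nat_lit 30) .nil))))))))) (.g (nat_lit 1) (.e (nat_lit 414353) (nat_lit 0) .nil) .nil))) 
(.lf (nat_lit 598732) (.g (nat_lit 1564) (.e (nat_lit 573487) (nat_lit 14) (.e (nat_lit 73746) (nat_lit 3) (.e (nat_lit 516119) (nat_lit 1) (.e (nat_lit 164196) (nat_lit 158) .nil)))) (.g (nat_lit 0) (.e (nat_lit 415026) (nat_lit 0) .nil) .nil)))) (.nd (nat_lit 9) 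
(.lf (nat_lit 598476) (.g (nat_lit 4274) (.e (nat_lit 573485) (nat_lit 13) (.e (nat_lit 65619) (nat_lit 10) (.e (nat_lit 344117) (nat_lit 21) (.e (nat_lit 516151) (nat_lit 9) (.e (nat_lit 426047) (nat_lit 0) (.e (nat_lit 2458) (nat_lit 157) (.e (nat_lit 5547) (nat_lit 306) (.e (nat_lit 2610) (nat_lit 163) (.e (nat_lit 163978) (nat_lit 30) .nil))))))))) (.g (nat_lit 1) (.e (nat_lit 414657) (nat_lit 0) .nil) .nil))) 
(.lf (nat_lit 598988) (.g (nat_lit 2864) (.e (nat_lit 573488) (nat_lit 14) (.e (nat_lit 73755) (nat_lit 8) (.e (nat_lit 557105) (nat_lit 14) (.e (nat_lit 180252) (nat_lit 10) (.e (nat_lit 573478) (nat_lit 12) (.e (nat_lit 57502) (nat_lit 38) (.e (nat_lit 638995) (nat_lit 7) (.e (nat_lit 163979) (nat_lit 30) .nil)))))))) (.g (nat_lit 1) (.e (nat_lit 415716) (nat_lit 0) .nil) .nil))))))) 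
(.nd (nat_lit 6) (.nd (nat_lit 7) (.nd (nat_lit 8) (.nd (nat_lit 9) 
(.lf (nat_lit 598060) (.g (nat_lit 2459) (.e (nat_lit 573484) (nat_lit 13) (.e (nat_lit 65610) (nat_lit 10) (.e (nat_lit 344117) (nat_lit 21) (.e (nat_lit 516179) (nat_lit 15) (.e (nat_lit 475204) (nat_lit 40) .nil))))) (.g (nat_lit 0) (.e (nat_lit 413969) (nat_lit 0) .nil) .nil))) 
(.lf (nat_lit 598572) (.g (nat_lit 2208) (.e (nat_lit 573485) (nat_lit 13) (.e (nat_lit 65619) (nat_lit 10) (.e (nat_lit 344129) (nat_lit 26) (.e (nat_lit 557065) (nat_lit 9) (.e (nat_lit 243) (nat_lit 21) .nil))))) (.g (nat_lit 0) (.e (nat_lit 414771) (nat_lit 0) .nil) .nil)))) (.nd (nat_lit 9) 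
(.lf (nat_lit 598316) (.g (nat_lit 3207) (.e (nat_lit 573485) (nat_lit 13) (.e (nat_lit 65604) (nat_lit 9) (.e (nat_lit 336028) (nat_lit 3) (.e (nat_lit 98359) (nat_lit 26) (.e (nat_lit 426142) (nat_lit 4) (.e (nat_lit 229663) (nat_lit 240) (.e (nat_lit 2604) (nat_lit 163) (.e (nat_lit 163977) (nat_lit 30) .nil)))))))) (.g (nat_lit 1) (.e (nat_lit 414468) (nat_lit 0) .nil) .nil))) 
(.lf (nat_lit 598828) (.g (nat_lit 2333) (.e (nat_lit 573487) (nat_lit 14) (.e (nat_lit 73753) (nat_lit 8) (.e (nat_lit 557105) (nat_lit 14) (.e (nat_lit 180251) (nat_lit 10) (.e (nat_lit 573477) (nat_lit 12) .nil))))) (.g (nat_lit 0) (.e (nat_lit 415371) (nat_lit 0) .nil) .nil))))) (.nd (nat_lit 8) (.nd (nat_lit 9) 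
(.lf (nat_lit 598188) (.g (nat_lit 1964) (.e (nat_lit 573485) (nat_lit 13) (.e (nat_lit 65604) (nat_lit 9) (.e (nat_lit 336013) (nat_lit 2) (.e (nat_lit 90134) (nat_lit 9) (.e (nat_lit 3096) (nat_lit 192) .nil))))) (.g (nat_lit 0) (.e (nat_lit 414321) (nat_lit 0) .nil) .nil))) 
(.lf (nat_lit 598700) (.g (nat_lit 1820) (.e (nat_lit 573485) (nat_lit 13) (.e (nat_lit 65630) (nat_lit 14) (.e (nat_lit 401425) (nat_lit 2) (.e (nat_lit 196672) (nat_lit 15) (.e (nat_lit 81924) (nat_lit 0) .nil))))) (.g (nat_lit 0) (.e (nat_lit 414958) (nat_lit 0) .nil) .nil)))) (.nd (nat_lit 9) 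
(.lf (nat_lit 598444) (.g (nat_lit 4477) (.e (nat_lit 573485) (nat_lit 13) (.e (nat_lit 65619) (nat_lit 10) (.e (nat_lit 344117) (nat_lit 21) (.e (nat_lit 516151) (nat_lit 9) (.e (nat_lit 426038) (nat_lit 0) (.e (nat_lit 2458) (nat_lit 157) (.e (nat_lit 5547) (nat_lit 306) (.e (nat_lit 2611) (nat_lit 163) (.e (nat_lit 163978) (nat_lit 30) .nil))))))))) (.g (nat_lit 1) (.e (nat_lit 414624) (nat_lit 0) .nil) .nil))) 
(.lf (nat_lit 598956) (.g (nat_lit 2100) (.e (nat_lit 573488) (nat_lit 14) (.e (nat_lit 73755) (nat_lit 8) (.e (nat_lit 557104) (nat_lit 14) (.e (nat_lit 180244) (nat_lit 5) (.e (nat_lit 532481) (nat_lit 0) .nil))))) (.g (nat_lit 0) (.e (nat_lit 415659) (nat_lit 0) .nil) .nil)))))) (.nd (nat_lit 7) (.nd (nat_lit 8) (.nd (nat_lit 9) 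
(.lf (nat_lit 598124) (.g (nat_lit 1336) (.e (nat_lit 573484) (nat_lit 13) (.e (nat_lit 65617) (nat_lit 10) (.e (nat_lit 344129) (nat_lit 26) (.e (nat_lit 557087) (nat_lit 11) .nil)))) (.g (nat_lit 0) (.e (nat_lit 414126) (nat_lit 0) .nil) .nil))) 
(.lf (nat_lit 598636) (.g (nat_lit 2104) (.e (nat_lit 573485) (nat_lit 13) (.e (nat_lit 65619) (nat_lit 10) (.e (nat_lit 344129) (nat_lit 26) (.e (nat_lit 557087) (nat_lit 11) (.e (nat_lit 24628) (nat_lit 9) .nil))))) (.g (nat_lit 0) (.e (nat_lit 414872) (nat_lit 0) .nil) .nil)))) (.nd (nat_lit 9) 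
(.lf (nat_lit 598380) (.g (nat_lit 2338) (.e (nat_lit 573485) (nat_lit 13) (.e (nat_lit 65619) (nat_lit 10) (.e (nat_lit 344117) (nat_lit 21) (.e (nat_lit 516144) (nat_lit 9) (.e (nat_lit 426364) (nat_lit 15) .nil))))) (.g (nat_lit 0) (.e (nat_lit 414560) (nat_lit 0) .nil) .nil))) 
(.lf (nat_lit 598892) (.g (nat_lit 1882) (.e (nat_lit 573488) (nat_lit 14) (.e (nat_lit 73753) (nat_lit 8) (.e (nat_lit 557105) (nat_lit 14) (.e (nat_lit 180251) (nat_lit 10) .nil)))) (.g (nat_lit 0) (.e (nat_lit 415527) (nat_lit 0) .nil) .nil))))) (.nd (nat_lit 8) (.nd (nat_lit 9) 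
(.lf (nat_lit 598252) (.g (nat_lit 3616) (.e (nat_lit 573485) (nat_lit 13) (.e (nat_lit 65604) (nat_lit 9) (.e (nat_lit 336013) (nat_lit 2) (.e (nat_lit 90170) (nat_lit 13) (.e (nat_lit 172051) (nat_lit 0) (.e (nat_lit 3409) (nat_lit 212) (.e (nat_lit 655375) (nat_lit 3) (.e (nat_lit 163978) (nat_lit 30) .nil)))))))) (.g (nat_lit 1) (.e (nat_lit 414392) (nat_lit 0) .nil) .nil))) 
(.lf (nat_lit 598764) (.g (nat_lit 1717) (.e (nat_lit 573487) (nat_lit 14) (.e (nat_lit 73753) (nat_lit 8) (.e (nat_lit 557090) (nat_lit 12) (.e (nat_lit 164003) (nat_lit 40) (.e (nat_lit 655373) (nat_lit 3) .nil))))) (.g (nat_lit 0) (.e (nat_lit 415140) (nat_lit 0) .nil) .nil)))) (.nd (nat_lit 9) 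
(.lf (nat_lit 598508) (.g (nat_lit 2269) (.e (nat_lit 573485) (nat_lit 13) (.e (nat_lit 65619) (nat_lit 10) (.e (nat_lit 344117) (nat_lit 21) (.e (nat_lit 516153) (nat_lit 9) (.e (nat_lit 426109) (nat_lit 1) .nil))))) (.g (nat_lit 0) (.e (nat_lit 414689) (nat_lit 0) .nil) .nil))) 
(.lf (nat_lit 599020) (.g (nat_lit 1745) (.e (nat_lit 573489) (nat_lit 14) (.e (nat_lit 73754) (nat_lit 8) (.e (nat_lit 557100) (nat_lit 13) (.e (nat_lit 172065) (nat_lit 3) .nil)))) (.g (nat_lit 0) (.e (nat_lit 415842) (nat_lit 0) .nil) .nil)))))))) (.nd (nat_lit 5) (.nd (nat_lit 6) (.nd (nat_lit 7) (.nd (nat_lit 8) (.nd (nat_lit 9) 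
(.lf (nat_lit 598044) (.g (nat_lit 5600) (.e (nat_lit 573484) (nat_lit 13) (.e (nat_lit 65610) (nat_lit 10) (.e (nat_lit 344117) (nat_lit 21) (.e (nat_lit 516160) (nat_lit 10) (.e (nat_lit 434272) (nat_lit 38) (.e (nat_lit 655375) (nat_lit 3) (.e (nat_lit 163977) (nat_lit 30) .nil))))))) (.g (nat_lit 1) (.e (nat_lit 413951) (nat_lit 0) .nil) .nil))) 
(.lf (nat_lit 598556) (.g (nat_lit 1781) (.e (nat_lit 573485) (nat_lit 13) (.e (nat_lit 65619) (nat_lit 10) (.e (nat_lit 344126) (nat_lit 25) (.e (nat_lit 548874) (nat_lit 5) (.e (nat_lit 1562) (nat_lit 110) .nil))))) (.g (nat_lit 0) (.e (nat_lit 414745) (nat_lit 0) .nil) .nil)))) (.nd (nat_lit 9) 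
(.lf (nat_lit 598300) (.g (nat_lit 2996) (.e (nat_lit 573485) (nat_lit 13) (.e (nat_lit 65604) (nat_lit 9) (.e (nat_lit 336013) (nat_lit 2) (.e (nat_lit 90197) (nat_lit 18) .nil)))) (.g (nat_lit 0) (.e (nat_lit 414444) (nat_lit 0) .nil) .nil))) 
(.lf (nat_lit 598812) (.g (nat_lit 1251) (.e (nat_lit 573487) (nat_lit 14) (.e (nat_lit 73753) (nat_lit 8) (.e (nat_lit 557103) (nat_lit 14) (.e (nat_lit 180250) (nat_lit 10) .nil)))) (.g (nat_lit 0) (.e (nat_lit 415340) (nat_lit 0) .nil) .nil))))) (.nd (nat_lit 8) (.nd (nat_lit 9) 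
(.lf (nat_lit 598172) (.g (nat_lit 1602) (.e (nat_lit 573485) (nat_lit 13) (.e (nat_lit 65567) (nat_lit 2) (.e (nat_lit 90160) (nat_lit 11) (.e (nat_lit 24670) (nat_lit 15) .nil)))) (.g (nat_lit 0) (.e (nat_lit 414264) (nat_lit 0) .nil) .nil))) 
(.lf (nat_lit 598684) (.g (nat_lit 4059) (.e (nat_lit 573485) (nat_lit 13) (.e (nat_lit 65628) (nat_lit 14) (.e (nat_lit 401428) (nat_lit 3) (.e (nat_lit 204861) (nat_lit 26) (.e (nat_lit 336076) (nat_lit 9) (.e (nat_lit 336240) (nat_lit 15) (.e (nat_lit 3309) (nat_lit 202) .nil))))))) (.g (nat_lit 1) (.e (nat_lit 414941) (nat_lit 0) .nil) .nil)))) (.nd (nat_lit 9) 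
(.lf (nat_lit 598428) (.g (nat_lit 2408) (.e (nat_lit 573485) (nat_lit 13) (.e (nat_lit 65619) (nat_lit 10) (.e (nat_lit 344117) (nat_lit 21) (.e (nat_lit 516151) (nat_lit 9) (.e (nat_lit 426022) (nat_lit 0) .nil))))) (.g (nat_lit 0) (.e (nat_lit 414608) (nat_lit 0) .nil) .nil))) 
(.lf (nat_lit 598940) (.g (nat_lit 2442) (.e (nat_lit 573488) (nat_lit 14) (.e (nat_lit 73755) (nat_lit 8) (.e (nat_lit 557103) (nat_lit 14) (.e (nat_lit 180250) (nat_lit 10) (.e (nat_lit 573473) (nat_lit 12) (.e (nat_lit 57500) (nat_lit 37) (.e (nat_lit 630799) (nat_lit 7) (.e (nat_lit 163976) (nat_lit 30) .nil)))))))) (.g (nat_lit 1) (.e (nat_lit 415641) (nat_lit 0) .nil) .nil)))))) 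
(.nd (nat_lit 7) (.nd (nat_lit 8) (.nd (nat_lit 9) 
(.lf (nat_lit 598108) (.g (nat_lit 4404) (.e (nat_lit 573484) (nat_lit 13) (.e (nat_lit 65610) (nat_lit 10) (.e (nat_lit 344129) (nat_lit 26) (.e (nat_lit 557087) (nat_lit 11) (.e (nat_lit 24625) (nat_lit 9) (.e (nat_lit 343808) (nat_lit 15) (.e (nat_lit 3309) (nat_lit 202) .nil))))))) (.g (nat_lit 1) (.e (nat_lit 414091) (nat_lit 0) .nil) .nil))) 
(.lf (nat_lit 598620) (.g (nat_lit 2760) (.e (nat_lit 573485) (nat_lit 13) (.e (nat_lit 65619) (nat_lit 10) (.e (nat_lit 344129) (nat_lit 26) (.e (nat_lit 557087) (nat_lit 11) (.e (nat_lit 24589) (nat_lit 0) .nil))))) (.g (nat_lit 0) (.e (nat_lit 414843) (nat_lit 0) .nil) .nil)))) (.nd (nat_lit 9) 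
(.lf (nat_lit 598364) (.g (nat_lit 2469) (.e (nat_lit 573485) (nat_lit 13) (.e (nat_lit 65619) (nat_lit 10) (.e (nat_lit 344117) (nat_lit 21) (.e (nat_lit 516106) (nat_lit 0) (.e (nat_lit 6986) (nat_lit 377) (.e (nat_lit 2777) (nat_lit 178) (.e (nat_lit 286765) (nat_lit 15) (.e (nat_lit 3296) (nat_lit 202) .nil)))))))) (.g (nat_lit 1) (.e (nat_lit 414537) (nat_lit 0) .nil) .nil))) 
(.lf (nat_lit 598876) (.g (nat_lit 744) (.e (nat_lit 573488) (nat_lit 14) (.e (nat_lit 73729) (nat_lit 0) (.e (nat_lit 4046) (nat_lit 245) .nil))) (.g (nat_lit 0) (.e (nat_lit 415480) (nat_lit 0) .nil) .nil))))) (.nd (nat_lit 8) (.nd (nat_lit 9) 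
(.lf (nat_lit 598236) (.g (nat_lit 2959) (.e (nat_lit 573485) (nat_lit 13) (.e (nat_lit 65604) (nat_lit 9) (.e (nat_lit 336013) (nat_lit 2) (.e (nat_lit 90170) (nat_lit 13) (.e (nat_lit 172046) (nat_lit 0) (.e (nat_lit 2478) (nat_lit 157) (.e (nat_lit 5548) (nat_lit 306) (.e (nat_lit 2601) (nat_lit 163) (.e (nat_lit 163978) (nat_lit 30) .nil))))))))) (.g (nat_lit 1) (.e (nat_lit 414375) (nat_lit 0) .nil) .nil))) 
(.lf (nat_lit 598748) (.g (nat_lit 2537) (.e (nat_lit 573487) (nat_lit 14) (.e (nat_lit 73753) (nat_lit 8) (.e (nat_lit 557090) (nat_lit 12) (.e (nat_lit 163843) (nat_lit 0) (.e (nat_lit 5942) (nat_lit 322) .nil))))) (.g (nat_lit 0) (.e (nat_lit 415105) (nat_lit 0) .nil) .nil)))) (.nd (nat_lit 9) 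
(.lf (nat_lit 598492) (.g (nat_lit 3241) (.e (nat_lit 573485) (nat_lit 13) (.e (nat_lit 65619) (nat_lit 10) (.e (nat_lit 344117) (nat_lit 21) (.e (nat_lit 516151) (nat_lit 9) (.e (nat_lit 426104) (nat_lit 1) (.e (nat_lit 164348) (nat_lit 240) (.e (nat_lit 2601) (nat_lit 163) (.e (nat_lit 163978) (nat_lit 30) .nil)))))))) (.g (nat_lit 1) (.e (nat_lit 414673) (nat_lit 0) .nil) .nil))) 
(.lf (nat_lit 599004) (.g (nat_lit 2846) (.e (nat_lit 573489) (nat_lit 14) (.e (nat_lit 73753) (nat_lit 8) (.e (nat_lit 557100) (nat_lit 13) (.e (nat_lit 172065) (nat_lit 3) (.e (nat_lit 204817) (nat_lit 17) .nil))))) (.g (nat_lit 0) (.e (nat_lit 415806) (nat_lit 0) .nil) .nil))))))) (.nd (nat_lit 6) (.nd (nat_lit 7) (.nd (nat_lit 8) (.nd (nat_lit 9) 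
(.lf (nat_lit 598076) (.g (nat_lit 5541) (.e (nat_lit 573484) (nat_lit 13) (.e (nat_lit 65610) (nat_lit 10) (.e (nat_lit 344117) (nat_lit 21) (.e (nat_lit 516185) (nat_lit 16) (.e (nat_lit 491552) (nat_lit 9) (.e (nat_lit 336295) (nat_lit 15) (.e (nat_lit 3305) (nat_lit 202) .nil))))))) (.g (nat_lit 1) (.e (nat_lit 414001) (nat_lit 0) .nil) .nil))) 
(.lf (nat_lit 598588) (.g (nat_lit 2326) (.e (nat_lit 573485) (nat_lit 13) (.e (nat_lit 65619) (nat_lit 10) (.e (nat_lit 344129) (nat_lit 26) (.e (nat_lit 557066) (nat_lit 9) (.e (nat_lit 336) (nat_lit 26) .nil))))) (.g (nat_lit 0) (.e (nat_lit 414799) (nat_lit 0) .nil) .nil)))) (.nd (nat_lit 9) 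
(.lf (nat_lit 598332) (.g (nat_lit 1696) (.e (nat_lit 573485) (nat_lit 13) (.e (nat_lit 65604) (nat_lit 9) (.e (nat_lit 336028) (nat_lit 3) (.e (nat_lit 98368) (nat_lit 27) .nil)))) (.g (nat_lit 0) (.e (nat_lit 414490) (nat_lit 0) .nil) .nil))) 
(.lf (nat_lit 598844) (.g (nat_lit 2212) (.e (nat_lit 573487) (nat_lit 14) (.e (nat_lit 73754) (nat_lit 8) (.e (nat_lit 557105) (nat_lit 14) (.e (nat_lit 180251) (nat_lit 10) (.e (nat_lit 573475) (nat_lit 12) .nil))))) (.g (nat_lit 0) (.e (nat_lit 415397) (nat_lit 0) .nil) .nil))))) (.nd (nat_lit 8) (.nd (nat_lit 9) 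
(.lf (nat_lit 598204) (.g (nat_lit 2260) (.e (nat_lit 573485) (nat_lit 13) (.e (nat_lit 65604) (nat_lit 9) (.e (nat_lit 336013) (nat_lit 2) (.e (nat_lit 90170) (nat_lit 13) (.e (nat_lit 172032) (nat_lit 0) .nil))))) (.g (nat_lit 0) (.e (nat_lit 414337) (nat_lit 0) .nil) .nil))) 
(.lf (nat_lit 598716) (.g (nat_lit 1539) (.e (nat_lit 573486) (nat_lit 14) (.e (nat_lit 73753) (nat_lit 8) (.e (nat_lit 557096) (nat_lit 13) (.e (nat_lit 172064) (nat_lit 2) .nil)))) (.g (nat_lit 0) (.e (nat_lit 414982) (nat_lit 0) .nil) .nil)))) (.nd (nat_lit 9) 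
(.lf (nat_lit 598460) (.g (nat_lit 3433) (.e (nat_lit 573485) (nat_lit 13) (.e (nat_lit 65619) (nat_lit 10) (.e (nat_lit 344117) (nat_lit 21) (.e (nat_lit 516151) (nat_lit 9) (.e (nat_lit 426042) (nat_lit 0) (.e (nat_lit 2458) (nat_lit 157) (.e (nat_lit 5547) (nat_lit 306) (.e (nat_lit 2601) (nat_lit 163) (.e (nat_lit 163978) (nat_lit 30) .nil))))))))) (.g (nat_lit 1) (.e (nat_lit 414641) (nat_lit 0) .nil) .nil))) 
(.lf (nat_lit 598972) (.g (nat_lit 1088) (.e (nat_lit 573488) (nat_lit 14) (.e (nat_lit 73755) (nat_lit 8) (.e (nat_lit 557105) (nat_lit 14) (.e (nat_lit 180252) (nat_lit 10) .nil)))) (.g (nat_lit 0) (.e (nat_lit 415697) (nat_lit 0) .nil) .nil)))))) (.nd (nat_lit 7) (.nd (nat_lit 8) (.nd (nat_lit 9) 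
(.lf (nat_lit 598140) (.g (nat_lit 1198) (.e (nat_lit 573484) (nat_lit 13) (.e (nat_lit 65617) (nat_lit 10) (.e (nat_lit 344133) (nat_lit 26) (.e (nat_lit 557071) (nat_lit 9) .nil)))) (.g (nat_lit 0) (.e (nat_lit 414182) (nat_lit 0) .nil) .nil))) 
(.lf (nat_lit 598652) (.g (nat_lit 1918) (.e (nat_lit 573485) (nat_lit 13) (.e (nat_lit 65619) (nat_lit 10) (.e (nat_lit 344129) (nat_lit 26) (.e (nat_lit 557087) (nat_lit 11) (.e (nat_lit 32512) (nat_lit 12) .nil))))) (.g (nat_lit 0) (.e (nat_lit 414888) (nat_lit 0) .nil) .nil)))) (.nd (nat_lit 9) 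
(.lf (nat_lit 598396) (.g (nat_lit 3022) (.e (nat_lit 573485) (nat_lit 13) (.e (nat_lit 65619) (nat_lit 10) (.e (nat_lit 344117) (nat_lit 21) (.e (nat_lit 516145) (nat_lit 9) (.e (nat_lit 433920) (nat_lit 4) (.e (nat_lit 229663) (nat_lit 240) (.e (nat_lit 2612) (nat_lit 163) (.e (nat_lit 163978) (nat_lit 30) .nil)))))))) (.g (nat_lit 1) (.e (nat_lit 414576) (nat_lit 0) .nil) .nil))) 
(.lf (nat_lit 598908) (.g (nat_lit 1700) (.e (nat_lit 573488) (nat_lit 14) (.e (nat_lit 73754) (nat_lit 8) (.e (nat_lit 557105) (nat_lit 14) (.e (nat_lit 180252) (nat_lit 10) (.e (nat_lit 573475) (nat_lit 12) .nil))))) (.g (nat_lit 0) (.e (nat_lit 415544) (nat_lit 0) .nil) .nil))))) (.nd (nat_lit 8) (.nd (nat_lit 9) 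
(.lf (nat_lit 598268) (.g (nat_lit 3401) (.e (nat_lit 573485) (nat_lit 13) (.e (nat_lit 65604) (nat_lit 9) (.e (nat_lit 336013) (nat_lit 2) (.e (nat_lit 90170) (nat_lit 13) (.e (nat_lit 172060) (nat_lit 1) (.e (nat_lit 164348) (nat_lit 240) (.e (nat_lit 2610) (nat_lit 163) (.e (nat_lit 163977) (nat_lit 30) .nil)))))))) (.g (nat_lit 1) (.e (nat_lit 414409) (nat_lit 0) .nil) .nil))) 
(.lf (nat_lit 598780) (.g (nat_lit 1478) (.e (nat_lit 573487) (nat_lit 14) (.e (nat_lit 73753) (nat_lit 8) (.e (nat_lit 557098) (nat_lit 13) (.e (nat_lit 172067) (nat_lit 3) .nil)))) (.g (nat_lit 0) (.e (nat_lit 415197) (nat_lit 0) .nil) .nil)))) (.nd (nat_lit 9) 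
(.lf (nat_lit 598524) (.g (nat_lit 2835) (.e (nat_lit 573485) (nat_lit 13) (.e (nat_lit 65619) (nat_lit 10) (.e (nat_lit 344117) (nat_lit 21) (.e (nat_lit 516160) (nat_lit 10) (.e (nat_lit 434213) (nat_lit 18) .nil))))) (.g (nat_lit 0) (.e (nat_lit 414705) (nat_lit 0) .nil) .nil))) 
(.lf (nat_lit 599036) (.g (nat_lit 1551) (.e (nat_lit 573489) (nat_lit 14) (.e (nat_lit 73754) (nat_lit 8) (.e (nat_lit 557103) (nat_lit 14) (.e (nat_lit 180243) (nat_lit 5) .nil)))) (.g (nat_lit 0) (.e (nat_lit 415874) (nat_lit 0) .nil) .nil))))))))))) (.nd (nat_lit 2) (.nd (nat_lit 3) (.nd (nat_lit 4) (.nd (nat_lit 5) (.nd (nat_lit 6) (.nd (nat_lit 7) (.nd (nat_lit 8) (.nd (nat_lit 9) 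
(.lf (nat_lit 598018) (.g (nat_lit 3029) (.e (nat_lit 573484) (nat_lit 13) (.e (nat_lit 65610) (nat_lit 10) (.e (nat_lit 344117) (nat_lit 21) (.e (nat_lit 516151) (nat_lit 9) (.e (nat_lit 426047) (nat_lit 0) (.e (nat_lit 2458) (nat_lit 157) (.e (nat_lit 5548) (nat_lit 306) (.e (nat_lit 2610) (nat_lit 163) (.e (nat_lit 163977) (nat_lit 30) .nil))))))))) (.g (nat_lit 1) (.e (nat_lit 413901) (nat_lit 0) .nil) .nil))) 
(.lf (nat_lit 598530) (.g (nat_lit 2450) (.e (nat_lit 573485) (nat_lit 13) (.e (nat_lit 65619) (nat_lit 10) (.e (nat_lit 344117) (nat_lit 21) (.e (nat_lit 516168) (nat_lit 13) (.e (nat_lit 458774) (nat_lit 18) .nil))))) (.g (nat_lit 0) (.e (nat_lit 414711) (nat_lit 0) .nil) .nil)))) (.nd (nat_lit 9) 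
(.lf (nat_lit 598274) (.g (nat_lit 2549) (.e (nat_lit 573485) (nat_lit 13) (.e (nat_lit 65604) (nat_lit 9) (.e (nat_lit 336013) (nat_lit 2) (.e (nat_lit 90170) (nat_lit 13) (.e (nat_lit 172068) (nat_lit 4) (.e (nat_lit 229680) (nat_lit 244) (.e (nat_lit 163841) (nat_lit 0) (.e (nat_lit 3309) (nat_lit 202) .nil)))))))) (.g (nat_lit 1) (.e (nat_lit 414416) (nat_lit 0) .nil) .nil))) 
(.lf (nat_lit 598786) (.g (nat_lit 2787) (.e (nat_lit 573487) (nat_lit 14) (.e (nat_lit 73753) (nat_lit 8) (.e (nat_lit 557100) (nat_lit 13) (.e (nat_lit 172065) (nat_lit 3) (.e (nat_lit 204821) (nat_lit 17) .nil))))) (.g (nat_lit 0) (.e (nat_lit 415235) (nat_lit 0) .nil) .nil))))) (.nd (nat_lit 8) (.nd (nat_lit 9) 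
(.lf (nat_lit 598146) (.g (nat_lit 997) (.e (nat_lit 573484) (nat_lit 13) (.e (nat_lit 65617) (nat_lit 10) (.e (nat_lit 344133) (nat_lit 26) (.e (nat_lit 557087) (nat_lit 11) .nil)))) (.g (nat_lit 0) (.e (nat_lit 414191) (nat_lit 0) .nil) .nil))) 
(.lf (nat_lit 598658) (.g (nat_lit 3577) (.e (nat_lit 573485) (nat_lit 13) (.e (nat_lit 65620) (nat_lit 10) (.e (nat_lit 344117) (nat_lit 21) (.e (nat_lit 516179) (nat_lit 15) (.e (nat_lit 475198) (nat_lit 40) .nil))))) (.g (nat_lit 0) (.e (nat_lit 414898) (nat_lit 0) .nil) .nil)))) (.nd (nat_lit 9) 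
(.lf (nat_lit 598402) (.g (nat_lit 3489) (.e (nat_lit 573485) (nat_lit 13) (.e (nat_lit 65619) (nat_lit 10) (.e (nat_lit 344117) (nat_lit 21) (.e (nat_lit 516145) (nat_lit 9) (.e (nat_lit 426364) (nat_lit 15) .nil))))) (.g (nat_lit 0) (.e (nat_lit 414582) (nat_lit 0) .nil) .nil))) 
(.lf (nat_lit 598914) (.g (nat_lit 1507) (.e (nat_lit 573488) (nat_lit 14) (.e (nat_lit 73755) (nat_lit 8) (.e (nat_lit 557090) (nat_lit 12) (.e (nat_lit 163840) (nat_lit 0) .nil)))) (.g (nat_lit 0) (.e (nat_lit 415556) (nat_lit 0) .nil) .nil)))))) (.nd (nat_lit 7) (.nd (nat_lit 8) (.nd (nat_lit 9) 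
(.lf (nat_lit 598082) (.g (nat_lit 434) (.e (nat_lit 573484) (nat_lit 13) (.e (nat_lit 65610) (nat_lit 10) (.e (nat_lit 344129) (nat_lit 26) .nil))) (.g (nat_lit 0) (.e (nat_lit 414033) (nat_lit 0) .nil) .nil))) 
(.lf (nat_lit 598594) (.g (nat_lit 1210) (.e (nat_lit 573485) (nat_lit 13) (.e (nat_lit 65619) (nat_lit 10) (.e (nat_lit 344129) (nat_lit 26) (.e (nat_lit 557070) (nat_lit 9) .nil)))) (.g (nat_lit 0) (.e (nat_lit 414806) (nat_lit 0) .nil) .nil)))) (.nd (nat_lit 9) 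
(.lf (nat_lit 598338) (.g (nat_lit 3137) (.e (nat_lit 573485) (nat_lit 13) (.e (nat_lit 65610) (nat_lit 10) (.e (nat_lit 344117) (nat_lit 21) (.e (nat_lit 516151) (nat_lit 9) (.e (nat_lit 426396) (nat_lit 15) .nil))))) (.g (nat_lit 0) (.e (nat_lit 414498) (nat_lit 0) .nil) .nil))) 
(.lf (nat_lit 598850) (.g (nat_lit 1710) (.e (nat_lit 573487) (nat_lit 14) (.e (nat_lit 73755) (nat_lit 8) (.e (nat_lit 557091) (nat_lit 12) (.e (nat_lit 164006) (nat_lit 41) .nil)))) (.g (nat_lit 0) (.e (nat_lit 415404) (nat_lit 0) .nil) .nil))))) (.nd (nat_lit 8) (.nd (nat_lit 9) 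
(.lf (nat_lit 598210) (.g (nat_lit 2632) (.e (nat_lit 573485) (nat_lit 13) (.e (nat_lit 65604) (nat_lit 9) (.e (nat_lit 336013) (nat_lit 2) (.e (nat_lit 90170) (nat_lit 13) (.e (nat_lit 172038) (nat_lit 0) .nil))))) (.g (nat_lit 0) (.e (nat_lit 414343) (nat_lit 0) .nil) .nil))) 
(.lf (nat_lit 598722) (.g (nat_lit 2249) (.e (nat_lit 573486) (nat_lit 14) (.e (nat_lit 73754) (nat_lit 8) (.e (nat_lit 557100) (nat_lit 13) (.e (nat_lit 172064) (nat_lit 2) (.e (nat_lit 204544) (nat_lit 2) .nil))))) (.g (nat_lit 0) (.e (nat_lit 414991) (nat_lit 0) .nil) .nil)))) (.nd (nat_lit 9) 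
(.lf (nat_lit 598466) (.g (nat_lit 2976) (.e (nat_lit 573485) (nat_lit 13) (.e (nat_lit 65619) (nat_lit 10) (.e (nat_lit 344117) (nat_lit 21) (.e (nat_lit 516151) (nat_lit 9) (.e (nat_lit 426042) (nat_lit 0) (.e (nat_lit 7936) (nat_lit 211) (.e (nat_lit 647180) (nat_lit 3) (.e (nat_lit 163978) (nat_lit 30) .nil)))))))) (.g (nat_lit 1) (.e (nat_lit 414647) (nat_lit 0) .nil) .nil))) 
(.lf (nat_lit 598978) (.g (nat_lit 3717) (.e (nat_lit 573488) (nat_lit 14) (.e (nat_lit 73755) (nat_lit 8) (.e (nat_lit 557105) (nat_lit 14) (.e (nat_lit 180252) (nat_lit 10) (.e (nat_lit 573474) (nat_lit 12) (.e (nat_lit 57504) (nat_lit 38) (.e (nat_lit 638994) (nat_lit 7) (.e (nat_lit 163976) (nat_lit 30) .nil)))))))) (.g (nat_lit 1) (.e (nat_lit 415706) (nat_lit 0) .nil) .nil))))))) 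
(.nd (nat_lit 6) (.nd (nat_lit 7) (.nd (nat_lit 8) (.nd (nat_lit 9) 
(.lf (nat_lit 598050) (.g (nat_lit 1119) (.e (nat_lit 573484) (nat_lit 13) (.e (nat_lit 65610) (nat_lit 10) (.e (nat_lit 344117) (nat_lit 21) (.e (nat_lit 516179) (nat_lit 15) .nil)))) (.g (nat_lit 0) (.e (nat_lit 413959) (nat_lit 0) .nil) .nil))) 
(.lf (nat_lit 598562) (.g (nat_lit 2842) (.e (nat_lit 573485) (nat_lit 13) (.e (nat_lit 65619) (nat_lit 10) (.e (nat_lit 344126) (nat_lit 25) (.e (nat_lit 548889) (nat_lit 9) (.e (nat_lit 65593) (nat_lit 9) .nil))))) (.g (nat_lit 0) (.e (nat_lit 414758) (nat_lit 0) .nil) .nil)))) (.nd (nat_lit 9) 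
(.lf (nat_lit 598306) (.g (nat_lit 2359) (.e (nat_lit 573485) (nat_lit 13) (.e (nat_lit 65604) (nat_lit 9) (.e (nat_lit 336028) (nat_lit 3) (.e (nat_lit 98349) (nat_lit 24) (.e (nat_lit 409617) (nat_lit 10) .nil))))) (.g (nat_lit 0) (.e (nat_lit 414452) (nat_lit 0) .nil) .nil))) 
(.lf (nat_lit 598818) (.g (nat_lit 1854) (.e (nat_lit 573487) (nat_lit 14) (.e (nat_lit 73753) (nat_lit 8) (.e (nat_lit 557103) (nat_lit 14) (.e (nat_lit 180252) (nat_lit 10) .nil)))) (.g (nat_lit 0) (.e (nat_lit 415351) (nat_lit 0) .nil) .nil))))) (.nd (nat_lit 8) (.nd (nat_lit 9) 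
(.lf (nat_lit 598178) (.g (nat_lit 1822) (.e (nat_lit 573485) (nat_lit 13) (.e (nat_lit 65571) (nat_lit 3) (.e (nat_lit 98325) (nat_lit 17) (.e (nat_lit 3579) (nat_lit 223) (.e (nat_lit 745486) (nat_lit 3) .nil))))) (.g (nat_lit 0) (.e (nat_lit 414294) (nat_lit 0) .nil) .nil))) 
(.lf (nat_lit 598690) (.g (nat_lit 1846) (.e (nat_lit 573485) (nat_lit 13) (.e (nat_lit 65628) (nat_lit 14) (.e (nat_lit 401428) (nat_lit 3) (.e (nat_lit 204876) (nat_lit 31) (.e (nat_lit 376835) (nat_lit 0) (.e (nat_lit 3295) (nat_lit 202) .nil)))))) (.g (nat_lit 1) (.e (nat_lit 414947) (nat_lit 0) .nil) .nil)))) (.nd (nat_lit 9) 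
(.lf (nat_lit 598434) (.g (nat_lit 3969) (.e (nat_lit 573485) (nat_lit 13) (.e (nat_lit 65619) (nat_lit 10) (.e (nat_lit 344117) (nat_lit 21) (.e (nat_lit 516151) (nat_lit 9) (.e (nat_lit 426037) (nat_lit 0) (.e (nat_lit 2458) (nat_lit 157) (.e (nat_lit 5546) (nat_lit 306) (.e (nat_lit 2599) (nat_lit 163) (.e (nat_lit 163978) (nat_lit 30) .nil))))))))) (.g (nat_lit 1) (.e (nat_lit 414614) (nat_lit 0) .nil) .nil))) 
(.lf (nat_lit 598946) (.g (nat_lit 3422) (.e (nat_lit 573488) (nat_lit 14) (.e (nat_lit 73755) (nat_lit 8) (.e (nat_lit 557103) (nat_lit 14) (.e (nat_lit 180250) (nat_lit 10) (.e (nat_lit 573475) (nat_lit 12) (.e (nat_lit 57503) (nat_lit 38) (.e (nat_lit 638994) (nat_lit 7) (.e (nat_lit 163976) (nat_lit 30) .nil)))))))) (.g (nat_lit 1) (.e (nat_lit 415647) (nat_lit 0) .nil) .nil)))))) 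
(.nd (nat_lit 7) (.nd (nat_lit 8) (.nd (nat_lit 9) 
(.lf (nat_lit 598114) (.g (nat_lit 2459) (.e (nat_lit 573484) (nat_lit 13) (.e (nat_lit 65610) (nat_lit 10) (.e (nat_lit 344129) (nat_lit 26) (.e (nat_lit 557087) (nat_lit 11) (.e (nat_lit 24650) (nat_lit 12) .nil))))) (.g (nat_lit 0) (.e (nat_lit 414097) (nat_lit 0) .nil) .nil))) 
(.lf (nat_lit 598626) (.g (nat_lit 4517) (.e (nat_lit 573485) (nat_lit 13) (.e (nat_lit 65619) (nat_lit 10) (.e (nat_lit 344129) (nat_lit 26) (.e (nat_lit 557087) (nat_lit 11) (.e (nat_lit 24623) (nat_lit 9) (.e (nat_lit 336240) (nat_lit 15) (.e (nat_lit 3309) (nat_lit 202) .nil))))))) (.g (nat_lit 1) (.e (nat_lit 414862) (nat_lit 0) .nil) .nil)))) (.nd (nat_lit 9) 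
(.lf (nat_lit 598370) (.g (nat_lit 2659) (.e (nat_lit 573485) (nat_lit 13) (.e (nat_lit 65619) (nat_lit 10) (.e (nat_lit 344117) (nat_lit 21) (.e (nat_lit 516106) (nat_lit 0) (.e (nat_lit 7554) (nat_lit 402) .nil))))) (.g (nat_lit 0) (.e (nat_lit 414543) (nat_lit 0) .nil) .nil))) 
(.lf (nat_lit 598882) (.g (nat_lit 446) (.e (nat_lit 573488) (nat_lit 14) (.e (nat_lit 73747) (nat_lit 3) (.e (nat_lit 516195) (nat_lit 26) .nil))) (.g (nat_lit 0) (.e (nat_lit 415505) (nat_lit 0) .nil) .nil))))) (.nd (nat_lit 8) (.nd (nat_lit 9) 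
(.lf (nat_lit 598242) (.g (nat_lit 3903) (.e (nat_lit 573485) (nat_lit 13) (.e (nat_lit 65604) (nat_lit 9) (.e (nat_lit 336013) (nat_lit 2) (.e (nat_lit 90170) (nat_lit 13) (.e (nat_lit 172048) (nat_lit 0) (.e (nat_lit 3409) (nat_lit 212) (.e (nat_lit 655375) (nat_lit 3) (.e (nat_lit 163978) (nat_lit 30) .nil)))))))) (.g (nat_lit 1) (.e (nat_lit 414381) (nat_lit 0) .nil) .nil))) 
(.lf (nat_lit 598754) (.g (nat_lit 2144) (.e (nat_lit 573487) (nat_lit 14) (.e (nat_lit 73753) (nat_lit 8) (.e (nat_lit 557090) (nat_lit 12) (.e (nat_lit 163844) (nat_lit 0) (.e (nat_lit 5943) (nat_lit 322) .nil))))) (.g (nat_lit 0) (.e (nat_lit 415111) (nat_lit 0) .nil) .nil)))) (.nd (nat_lit 9) 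
(.lf (nat_lit 598498) (.g (nat_lit 3734) (.e (nat_lit 573485) (nat_lit 13) (.e (nat_lit 65619) (nat_lit 10) (.e (nat_lit 344117) (nat_lit 21) (.e (nat_lit 516151) (nat_lit 9) (.e (nat_lit 426380) (nat_lit 15) .nil))))) (.g (nat_lit 0) (.e (nat_lit 414679) (nat_lit 0) .nil) .nil))) 
(.lf (nat_lit 599010) (.g (nat_lit 1874) (.e (nat_lit 573489) (nat_lit 14) (.e (nat_lit 73753) (nat_lit 8) (.e (nat_lit 557105) (nat_lit 14) (.e (nat_lit 180251) (nat_lit 10) .nil)))) (.g (nat_lit 0) (.e (nat_lit 415816) (nat_lit 0) .nil) .nil)))))))) (.nd (nat_lit 5) (.nd (nat_lit 6) (.nd (nat_lit 7) (.nd (nat_lit 8) (.nd (nat_lit 9) 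
(.lf (nat_lit 598034) (.g (nat_lit 2828) (.e (nat_lit 573484) (nat_lit 13) (.e (nat_lit 65610) (nat_lit 10) (.e (nat_lit 344117) (nat_lit 21) (.e (nat_lit 516151) (nat_lit 9) (.e (nat_lit 426409) (nat_lit 15) .nil))))) (.g (nat_lit 0) (.e (nat_lit 413925) (nat_lit 0) .nil) .nil))) 
(.lf (nat_lit 598546) (.g (nat_lit 3953) (.e (nat_lit 573485) (nat_lit 13) (.e (nat_lit 65619) (nat_lit 10) (.e (nat_lit 344117) (nat_lit 21) (.e (nat_lit 516185) (nat_lit 16) (.e (nat_lit 491549) (nat_lit 9) (.e (nat_lit 336260) (nat_lit 15) (.e (nat_lit 3307) (nat_lit 202) .nil))))))) (.g (nat_lit 1) (.e (nat_lit 414732) (nat_lit 0) .nil) .nil)))) (.nd (nat_lit 9) 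
(.lf (nat_lit 598290) (.g (nat_lit 4929) (.e (nat_lit 573485) (nat_lit 13) (.e (nat_lit 65604) (nat_lit 9) (.e (nat_lit 336013) (nat_lit 2) (.e (nat_lit 90170) (nat_lit 13) (.e (nat_lit 172138) (nat_lit 15) (.e (nat_lit 2056) (nat_lit 142) (.e (nat_lit 704589) (nat_lit 3) (.e (nat_lit 163978) (nat_lit 30) .nil)))))))) (.g (nat_lit 1) (.e (nat_lit 414432) (nat_lit 0) .nil) .nil))) 
(.lf (nat_lit 598802) (.g (nat_lit 2363) (.e (nat_lit 573487) (nat_lit 14) (.e (nat_lit 73753) (nat_lit 8) (.e (nat_lit 557103) (nat_lit 14) (.e (nat_lit 180243) (nat_lit 5) (.e (nat_lit 532499) (nat_lit 1) .nil))))) (.g (nat_lit 0) (.e (nat_lit 415290) (nat_lit 0) .nil) .nil))))) (.nd (nat_lit 8) (.nd (nat_lit 9) 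
(.lf (nat_lit 598162) (.g (nat_lit 4090) (.e (nat_lit 573484) (nat_lit 13) (.e (nat_lit 65628) (nat_lit 14) (.e (nat_lit 401425) (nat_lit 2) (.e (nat_lit 196666) (nat_lit 13) (.e (nat_lit 65622) (nat_lit 12) (.e (nat_lit 385074) (nat_lit 31) .nil)))))) (.g (nat_lit 1) (.e (nat_lit 414226) (nat_lit 0) .nil) .nil))) 
(.lf (nat_lit 598674) (.g (nat_lit 1654) (.e (nat_lit 573485) (nat_lit 13) (.e (nat_lit 65628) (nat_lit 14) (.e (nat_lit 401425) (nat_lit 2) (.e (nat_lit 196681) (nat_lit 17) .nil)))) (.g (nat_lit 0) (.e (nat_lit 414930) (nat_lit 0) .nil) .nil)))) (.nd (nat_lit 9) 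
(.lf (nat_lit 598418) (.g (nat_lit 3235) (.e (nat_lit 573485) (nat_lit 13) (.e (nat_lit 65619) (nat_lit 10) (.e (nat_lit 344117) (nat_lit 21) (.e (nat_lit 516145) (nat_lit 9) (.e (nat_lit 426467) (nat_lit 24) .nil))))) (.g (nat_lit 0) (.e (nat_lit 414598) (nat_lit 0) .nil) .nil))) 
(.lf (nat_lit 598930) (.g (nat_lit 1809) (.e (nat_lit 573488) (nat_lit 14) (.e (nat_lit 73755) (nat_lit 8) (.e (nat_lit 557098) (nat_lit 13) (.e (nat_lit 172065) (nat_lit 3) .nil)))) (.g (nat_lit 0) (.e (nat_lit 415597) (nat_lit 0) .nil) .nil)))))) (.nd (nat_lit 7) (.nd (nat_lit 8) (.nd (nat_lit 9) 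
(.lf (nat_lit 598098) (.g (nat_lit 2474) (.e (nat_lit 573484) (nat_lit 13) (.e (nat_lit 65610) (nat_lit 10) (.e (nat_lit 344129) (nat_lit 26) (.e (nat_lit 557085) (nat_lit 11) (.e (nat_lit 24625) (nat_lit 9) (.e (nat_lit 336258) (nat_lit 15) (.e (nat_lit 3309) (nat_lit 202) .nil))))))) (.g (nat_lit 1) (.e (nat_lit 414079) (nat_lit 0) .nil) .nil))) 
(.lf (nat_lit 598610) (.g (nat_lit 3035) (.e (nat_lit 573485) (nat_lit 13) (.e (nat_lit 65619) (nat_lit 10) (.e (nat_lit 344129) (nat_lit 26) (.e (nat_lit 557085) (nat_lit 11) (.e (nat_lit 24652) (nat_lit 12) (.e (nat_lit 385074) (nat_lit 31) .nil)))))) (.g (nat_lit 1) (.e (nat_lit 414827) (nat_lit 0) .nil) .nil)))) (.nd (nat_lit 9) 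
(.lf (nat_lit 598354) (.g (nat_lit 2092) (.e (nat_lit 573485) (nat_lit 13) (.e (nat_lit 65619) (nat_lit 10) (.e (nat_lit 344117) (nat_lit 21) (.e (nat_lit 516097) (nat_lit 0) (.e (nat_lit 7542) (nat_lit 402) .nil))))) (.g (nat_lit 0) (.e (nat_lit 414519) (nat_lit 0) .nil) .nil))) 
(.lf (nat_lit 598866) (.g (nat_lit 3216) (.e (nat_lit 573487) (nat_lit 14) (.e (nat_lit 73781) (nat_lit 32) (.e (nat_lit 2664) (nat_lit 167) (.e (nat_lit 196666) (nat_lit 13) (.e (nat_lit 65622) (nat_lit 12) (.e (nat_lit 385074) (nat_lit 31) .nil)))))) (.g (nat_lit 1) (.e (nat_lit 415427) (nat_lit 0) .nil) .nil))))) (.nd (nat_lit 8) (.nd (nat_lit 9) 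
(.lf (nat_lit 598226) (.g (nat_lit 3568) (.e (nat_lit 573485) (nat_lit 13) (.e (nat_lit 65604) (nat_lit 9) (.e (nat_lit 336013) (nat_lit 2) (.e (nat_lit 90170) (nat_lit 13) (.e (nat_lit 172043) (nat_lit 0) (.e (nat_lit 3409) (nat_lit 212) (.e (nat_lit 655373) (nat_lit 3) (.e (nat_lit 163978) (nat_lit 30) .nil)))))))) (.g (nat_lit 1) (.e (nat_lit 414360) (nat_lit 0) .nil) .nil))) 
(.lf (nat_lit 598738) (.g (nat_lit 1299) (.e (nat_lit 573487) (nat_lit 14) (.e (nat_lit 73747) (nat_lit 3) (.e (nat_lit 516119) (nat_lit 1) (.e (nat_lit 164195) (nat_lit 158) .nil)))) (.g (nat_lit 0) (.e (nat_lit 415046) (nat_lit 0) .nil) .nil)))) (.nd (nat_lit 9) 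
(.lf (nat_lit 598482) (.g (nat_lit 3817) (.e (nat_lit 573485) (nat_lit 13) (.e (nat_lit 65619) (nat_lit 10) (.e (nat_lit 344117) (nat_lit 21) (.e (nat_lit 516151) (nat_lit 9) (.e (nat_lit 426101) (nat_lit 1) .nil))))) (.g (nat_lit 0) (.e (nat_lit 414663) (nat_lit 0) .nil) .nil))) 
(.lf (nat_lit 598994) (.g (nat_lit 2390) (.e (nat_lit 573489) (nat_lit 14) (.e (nat_lit 73747) (nat_lit 3) (.e (nat_lit 516115) (nat_lit 1) (.e (nat_lit 164196) (nat_lit 158) .nil)))) (.g (nat_lit 0) (.e (nat_lit 415790) (nat_lit 0) .nil) .nil))))))) (.nd (nat_lit 6) (.nd (nat_lit 7) (.nd (nat_lit 8) (.nd (nat_lit 9) 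
(.lf (nat_lit 598066) (.g (nat_lit 4363) (.e (nat_lit 573484) (nat_lit 13) (.e (nat_lit 65610) (nat_lit 10) (.e (nat_lit 344117) (nat_lit 21) (.e (nat_lit 516183) (nat_lit 16) (.e (nat_lit 491550) (nat_lit 9) (.e (nat_lit 336306) (nat_lit 15) (.e (nat_lit 3307) (nat_lit 202) .nil))))))) (.g (nat_lit 1) (.e (nat_lit 413990) (nat_lit 0) .nil) .nil))) 
(.lf (nat_lit 598578) (.g (nat_lit 2208) (.e (nat_lit 573485) (nat_lit 13) (.e (nat_lit 65619) (nat_lit 10) (.e (nat_lit 344129) (nat_lit 26) (.e (nat_lit 557065) (nat_lit 9) (.e (nat_lit 7936) (nat_lit 23) .nil))))) (.g (nat_lit 0) (.e (nat_lit 414779) (nat_lit 0) .nil) .nil)))) (.nd (nat_lit 9) 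
(.lf (nat_lit 598322) (.g (nat_lit 1696) (.e (nat_lit 573485) (nat_lit 13) (.e (nat_lit 65604) (nat_lit 9) (.e (nat_lit 336028) (nat_lit 3) (.e (nat_lit 98365) (nat_lit 26) .nil)))) (.g (nat_lit 0) (.e (nat_lit 414475) (nat_lit 0) .nil) .nil))) 
(.lf (nat_lit 598834) (.g (nat_lit 2707) (.e (nat_lit 573487) (nat_lit 14) (.e (nat_lit 73753) (nat_lit 8) (.e (nat_lit 557105) (nat_lit 14) (.e (nat_lit 180252) (nat_lit 10) (.e (nat_lit 573475) (nat_lit 12) (.e (nat_lit 57502) (nat_lit 38) (.e (nat_lit 638994) (nat_lit 7) (.e (nat_lit 163979) (nat_lit 30) .nil)))))))) (.g (nat_lit 1) (.e (nat_lit 415385) (nat_lit 0) .nil) .nil))))) 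
(.nd (nat_lit 8) (.nd (nat_lit 9) 
(.lf (nat_lit 598194) (.g (nat_lit 4063) (.e (nat_lit 573485) (nat_lit 13) (.e (nat_lit 65604) (nat_lit 9) (.e (nat_lit 336013) (nat_lit 2) (.e (nat_lit 90140) (nat_lit 9) .nil)))) (.g (nat_lit 0) (.e (nat_lit 414327) (nat_lit 0) .nil) .nil))) 
(.lf (nat_lit 598706) (.g (nat_lit 2292) (.e (nat_lit 573485) (nat_lit 13) (.e (nat_lit 65630) (nat_lit 14) (.e (nat_lit 401425) (nat_lit 2) (.e (nat_lit 196681) (nat_lit 17) (.e (nat_lit 131122) (nat_lit 12) .nil))))) (.g (nat_lit 0) (.e (nat_lit 414964) (nat_lit 0) .nil) .nil)))) (.nd (nat_lit 9) 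
(.lf (nat_lit 598450) (.g (nat_lit 3686) (.e (nat_lit 573485) (nat_lit 13) (.e (nat_lit 65619) (nat_lit 10) (.e (nat_lit 344117) (nat_lit 21) (.e (nat_lit 516151) (nat_lit 9) (.e (nat_lit 426039) (nat_lit 0) (.e (nat_lit 2458) (nat_lit 157) (.e (nat_lit 5546) (nat_lit 306) (.e (nat_lit 2610) (nat_lit 163) (.e (nat_lit 163978) (nat_lit 30) .nil))))))))) (.g (nat_lit 1) (.e (nat_lit 414630) (nat_lit 0) .nil) .nil))) 
(.lf (nat_lit 598962) (.g (nat_lit 2787) (.e (nat_lit 573488) (nat_lit 14) (.e (nat_lit 73755) (nat_lit 8) (.e (nat_lit 557104) (nat_lit 14) (.e (nat_lit 180252) (nat_lit 10) (.e (nat_lit 573473) (nat_lit 12) (.e (nat_lit 57504) (nat_lit 38) (.e (nat_lit 638994) (nat_lit 7) (.e (nat_lit 163975) (nat_lit 30) .nil)))))))) (.g (nat_lit 1) (.e (nat_lit 415684) (nat_lit 0) .nil) .nil)))))) 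
(.nd (nat_lit 7) (.nd (nat_lit 8) (.nd (nat_lit 9) 
(.lf (nat_lit 598130) (.g (nat_lit 4233) (.e (nat_lit 573484) (nat_lit 13) (.e (nat_lit 65617) (nat_lit 10) (.e (nat_lit 344130) (nat_lit 26) (.e (nat_lit 557087) (nat_lit 11) (.e (nat_lit 24625) (nat_lit 9) (.e (nat_lit 336297) (nat_lit 15) (.e (nat_lit 3304) (nat_lit 202) .nil))))))) (.g (nat_lit 1) (.e (nat_lit 414146) (nat_lit 0) .nil) .nil))) 
(.lf (nat_lit 598642) (.g (nat_lit 2921) (.e (nat_lit 573485) (nat_lit 13) (.e (nat_lit 65619) (nat_lit 10) (.e (nat_lit 344129) (nat_lit 26) (.e (nat_lit 557087) (nat_lit 11) (.e (nat_lit 24634) (nat_lit 9) (.e (nat_lit 343808) (nat_lit 15) (.e (nat_lit 3309) (nat_lit 202) .nil))))))) (.g (nat_lit 1) (.e (nat_lit 414878) (nat_lit 0) .nil) .nil)))) (.nd (nat_lit 9) 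
(.lf (nat_lit 598386) (.g (nat_lit 3535) (.e (nat_lit 573485) (nat_lit 13) (.e (nat_lit 65619) (nat_lit 10) (.e (nat_lit 344117) (nat_lit 21) (.e (nat_lit 516145) (nat_lit 9) (.e (nat_lit 426091) (nat_lit 0) .nil))))) (.g (nat_lit 0) (.e (nat_lit 414566) (nat_lit 0) .nil) .nil))) 
(.lf (nat_lit 598898) (.g (nat_lit 1663) (.e (nat_lit 573488) (nat_lit 14) (.e (nat_lit 73754) (nat_lit 8) (.e (nat_lit 557100) (nat_lit 13) (.e (nat_lit 172065) (nat_lit 3) .nil)))) (.g (nat_lit 0) (.e (nat_lit 415533) (nat_lit 0) .nil) .nil))))) (.nd (nat_lit 8) (.nd (nat_lit 9) 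
(.lf (nat_lit 598258) (.g (nat_lit 2111) (.e (nat_lit 573485) (nat_lit 13) (.e (nat_lit 65604) (nat_lit 9) (.e (nat_lit 336013) (nat_lit 2) (.e (nat_lit 90170) (nat_lit 13) (.e (nat_lit 172059) (nat_lit 1) (.e (nat_lit 164347) (nat_lit 240) (.e (nat_lit 2600) (nat_lit 163) (.e (nat_lit 163977) (nat_lit 30) .nil)))))))) (.g (nat_lit 1) (.e (nat_lit 414398) (nat_lit 0) .nil) .nil))) 
(.lf (nat_lit 598770) (.g (nat_lit 1559) (.e (nat_lit 573487) (nat_lit 14) (.e (nat_lit 73753) (nat_lit 8) (.e (nat_lit 557091) (nat_lit 12) (.e (nat_lit 164007) (nat_lit 41) .nil)))) (.g (nat_lit 0) (.e (nat_lit 415150) (nat_lit 0) .nil) .nil)))) (.nd (nat_lit 9) 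
(.lf (nat_lit 598514) (.g (nat_lit 2305) (.e (nat_lit 573485) (nat_lit 13) (.e (nat_lit 65619) (nat_lit 10) (.e (nat_lit 344117) (nat_lit 21) (.e (nat_lit 516159) (nat_lit 10) (.e (nat_lit 434213) (nat_lit 18) .nil))))) (.g (nat_lit 0) (.e (nat_lit 414695) (nat_lit 0) .nil) .nil))) 
(.lf (nat_lit 599026) (.g (nat_lit 2014) (.e (nat_lit 573489) (nat_lit 14) (.e (nat_lit 73754) (nat_lit 8) (.e (nat_lit 557100) (nat_lit 13) (.e (nat_lit 172138) (nat_lit 15) .nil)))) (.g (nat_lit 0) (.e (nat_lit 415852) (nat_lit 0) .nil) .nil))))))))) (.nd (nat_lit 4) (.nd (nat_lit 5) (.nd (nat_lit 6) (.nd (nat_lit 7) (.nd (nat_lit 8) (.nd (nat_lit 9) 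
(.lf (nat_lit 598026) (.g (nat_lit 3898) (.e (nat_lit 573484) (nat_lit 13) (.e (nat_lit 65610) (nat_lit 10) (.e (nat_lit 344117) (nat_lit 21) (.e (nat_lit 516151) (nat_lit 9) (.e (nat_lit 426047) (nat_lit 0) (.e (nat_lit 3409) (nat_lit 212) (.e (nat_lit 655375) (nat_lit 3) (.e (nat_lit 163978) (nat_lit 30) .nil)))))))) (.g (nat_lit 1) (.e (nat_lit 413911) (nat_lit 0) .nil) .nil))) 
(.lf (nat_lit 598538) (.g (nat_lit 2757) (.e (nat_lit 573485) (nat_lit 13) (.e (nat_lit 65619) (nat_lit 10) (.e (nat_lit 344117) (nat_lit 21) (.e (nat_lit 516183) (nat_lit 16) (.e (nat_lit 491547) (nat_lit 9) (.e (nat_lit 336306) (nat_lit 15) (.e (nat_lit 3307) (nat_lit 202) .nil))))))) (.g (nat_lit 1) (.e (nat_lit 414724) (nat_lit 0) .nil) .nil)))) (.nd (nat_lit 9) 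
(.lf (nat_lit 598282) (.g (nat_lit 2324) (.e (nat_lit 573485) (nat_lit 13) (.e (nat_lit 65604) (nat_lit 9) (.e (nat_lit 336013) (nat_lit 2) (.e (nat_lit 90170) (nat_lit 13) (.e (nat_lit 172070) (nat_lit 4) (.e (nat_lit 229678) (nat_lit 244) (.e (nat_lit 163845) (nat_lit 0) (.e (nat_lit 3309) (nat_lit 202) .nil)))))))) (.g (nat_lit 1) (.e (nat_lit 414424) (nat_lit 0) .nil) .nil))) 
(.lf (nat_lit 598794) (.g (nat_lit 2053) (.e (nat_lit 573487) (nat_lit 14) (.e (nat_lit 73753) (nat_lit 8) (.e (nat_lit 557101) (nat_lit 13) (.e (nat_lit 172067) (nat_lit 3) (.e (nat_lit 204817) (nat_lit 17) .nil))))) (.g (nat_lit 0) (.e (nat_lit 415263) (nat_lit 0) .nil) .nil))))) (.nd (nat_lit 8) (.nd (nat_lit 9) 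
(.lf (nat_lit 598154) (.g (nat_lit 2091) (.e (nat_lit 573484) (nat_lit 13) (.e (nat_lit 65624) (nat_lit 12) (.e (nat_lit 385074) (nat_lit 31) (.e (nat_lit 573454) (nat_lit 9) .nil)))) (.g (nat_lit 0) (.e (nat_lit 414214) (nat_lit 0) .nil) .nil))) 
(.lf (nat_lit 598666) (.g (nat_lit 2232) (.e (nat_lit 573485) (nat_lit 13) (.e (nat_lit 65624) (nat_lit 12) (.e (nat_lit 385074) (nat_lit 31) (.e (nat_lit 573493) (nat_lit 15) .nil)))) (.g (nat_lit 0) (.e (nat_lit 414919) (nat_lit 0) .nil) .nil)))) (.nd (nat_lit 9) 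
(.lf (nat_lit 598410) (.g (nat_lit 3493) (.e (nat_lit 573485) (nat_lit 13) (.e (nat_lit 65619) (nat_lit 10) (.e (nat_lit 344117) (nat_lit 21) (.e (nat_lit 516145) (nat_lit 9) (.e (nat_lit 426399) (nat_lit 15) .nil))))) (.g (nat_lit 0) (.e (nat_lit 414590) (nat_lit 0) .nil) .nil))) 
(.lf (nat_lit 598922) (.g (nat_lit 912) (.e (nat_lit 573488) (nat_lit 14) (.e (nat_lit 73755) (nat_lit 8) (.e (nat_lit 557097) (nat_lit 13) (.e (nat_lit 172067) (nat_lit 3) .nil)))) (.g (nat_lit 0) (.e (nat_lit 415581) (nat_lit 0) .nil) .nil)))))) (.nd (nat_lit 7) (.nd (nat_lit 8) (.nd (nat_lit 9) 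
(.lf (nat_lit 598090) (.g (nat_lit 2628) (.e (nat_lit 573484) (nat_lit 13) (.e (nat_lit 65610) (nat_lit 10) (.e (nat_lit 344129) (nat_lit 26) (.e (nat_lit 557067) (nat_lit 9) (.e (nat_lit 251) (nat_lit 21) .nil))))) (.g (nat_lit 0) (.e (nat_lit 414057) (nat_lit 0) .nil) .nil))) 
(.lf (nat_lit 598602) (.g (nat_lit 1324) (.e (nat_lit 573485) (nat_lit 13) (.e (nat_lit 65619) (nat_lit 10) (.e (nat_lit 344129) (nat_lit 26) (.e (nat_lit 557084) (nat_lit 10) .nil)))) (.g (nat_lit 0) (.e (nat_lit 414814) (nat_lit 0) .nil) .nil)))) (.nd (nat_lit 9) 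
(.lf (nat_lit 598346) (.g (nat_lit 2471) (.e (nat_lit 573485) (nat_lit 13) (.e (nat_lit 65619) (nat_lit 10) (.e (nat_lit 344115) (nat_lit 20) (.e (nat_lit 507921) (nat_lit 6) (.e (nat_lit 286748) (nat_lit 9) (.e (nat_lit 336295) (nat_lit 15) (.e (nat_lit 3305) (nat_lit 202) .nil))))))) (.g (nat_lit 1) (.e (nat_lit 414509) (nat_lit 0) .nil) .nil))) 
(.lf (nat_lit 598858) (.g (nat_lit 1845) (.e (nat_lit 573487) (nat_lit 14) (.e (nat_lit 73755) (nat_lit 8) (.e (nat_lit 557104) (nat_lit 14) (.e (nat_lit 180252) (nat_lit 10) .nil)))) (.g (nat_lit 0) (.e (nat_lit 415414) (nat_lit 0) .nil) .nil))))) (.nd (nat_lit 8) (.nd (nat_lit 9) 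
(.lf (nat_lit 598218) (.g (nat_lit 3882) (.e (nat_lit 573485) (nat_lit 13) (.e (nat_lit 65604) (nat_lit 9) (.e (nat_lit 336013) (nat_lit 2) (.e (nat_lit 90170) (nat_lit 13) (.e (nat_lit 172039) (nat_lit 0) (.e (nat_lit 3401) (nat_lit 211) (.e (nat_lit 647180) (nat_lit 3) (.e (nat_lit 163978) (nat_lit 30) .nil)))))))) (.g (nat_lit 1) (.e (nat_lit 414351) (nat_lit 0) .nil) .nil))) 
(.lf (nat_lit 598730) (.g (nat_lit 1473) (.e (nat_lit 573487) (nat_lit 14) (.e (nat_lit 73746) (nat_lit 3) (.e (nat_lit 516117) (nat_lit 1) (.e (nat_lit 164195) (nat_lit 158) .nil)))) (.g (nat_lit 0) (.e (nat_lit 415022) (nat_lit 0) .nil) .nil)))) (.nd (nat_lit 9) 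
(.lf (nat_lit 598474) (.g (nat_lit 3917) (.e (nat_lit 573485) (nat_lit 13) (.e (nat_lit 65619) (nat_lit 10) (.e (nat_lit 344117) (nat_lit 21) (.e (nat_lit 516151) (nat_lit 9) (.e (nat_lit 426047) (nat_lit 0) .nil))))) (.g (nat_lit 0) (.e (nat_lit 414655) (nat_lit 0) .nil) .nil))) 
(.lf (nat_lit 598986) (.g (nat_lit 3652) (.e (nat_lit 573488) (nat_lit 14) (.e (nat_lit 73755) (nat_lit 8) (.e (nat_lit 557105) (nat_lit 14) (.e (nat_lit 180252) (nat_lit 10) (.e (nat_lit 573475) (nat_lit 12) (.e (nat_lit 57504) (nat_lit 38) (.e (nat_lit 638994) (nat_lit 7) (.e (nat_lit 163975) (nat_lit 30) .nil)))))))) (.g (nat_lit 1) (.e (nat_lit 415714) (nat_lit 0) .nil) .nil))))))) 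
(.nd (nat_lit 6) (.nd (nat_lit 7) (.nd (nat_lit 8) (.nd (nat_lit 9) 
(.lf (nat_lit 598058) (.g (nat_lit 2540) (.e (nat_lit 573484) (nat_lit 13) (.e (nat_lit 65610) (nat_lit 10) (.e (nat_lit 344117) (nat_lit 21) (.e (nat_lit 516179) (nat_lit 15) (.e (nat_lit 475200) (nat_lit 40) .nil))))) (.g (nat_lit 0) (.e (nat_lit 413967) (nat_lit 0) .nil) .nil))) 
(.lf (nat_lit 598570) (.g (nat_lit 2232) (.e (nat_lit 573485) (nat_lit 13) (.e (nat_lit 65619) (nat_lit 10) (.e (nat_lit 344129) (nat_lit 26) (.e (nat_lit 557065) (nat_lit 9) (.e (nat_lit 225) (nat_lit 21) .nil))))) (.g (nat_lit 0) (.e (nat_lit 414769) (nat_lit 0) .nil) .nil)))) (.nd (nat_lit 9) 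
(.lf (nat_lit 598314) (.g (nat_lit 4662) (.e (nat_lit 573485) (nat_lit 13) (.e (nat_lit 65604) (nat_lit 9) (.e (nat_lit 336028) (nat_lit 3) (.e (nat_lit 98359) (nat_lit 26) (.e (nat_lit 426043) (nat_lit 0) (.e (nat_lit 3409) (nat_lit 212) (.e (nat_lit 655375) (nat_lit 3) (.e (nat_lit 163978) (nat_lit 30) .nil)))))))) (.g (nat_lit 1) (.e (nat_lit 414464) (nat_lit 0) .nil) .nil))) 
(.lf (nat_lit 598826) (.g (nat_lit 2392) (.e (nat_lit 573487) (nat_lit 14) (.e (nat_lit 73753) (nat_lit 8) (.e (nat_lit 557105) (nat_lit 14) (.e (nat_lit 180251) (nat_lit 10) (.e (nat_lit 573475) (nat_lit 12) .nil))))) (.g (nat_lit 0) (.e (nat_lit 415369) (nat_lit 0) .nil) .nil))))) (.nd (nat_lit 8) (.nd (nat_lit 9) 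
(.lf (nat_lit 598186) (.g (nat_lit 1007) (.e (nat_lit 573485) (nat_lit 13) (.e (nat_lit 65604) (nat_lit 9) (.e (nat_lit 336013) (nat_lit 2) (.e (nat_lit 90134) (nat_lit 9) .nil)))) (.g (nat_lit 0) (.e (nat_lit 414314) (nat_lit 0) .nil) .nil))) 
(.lf (nat_lit 598698) (.g (nat_lit 2358) (.e (nat_lit 573485) (nat_lit 13) (.e (nat_lit 65630) (nat_lit 14) (.e (nat_lit 401425) (nat_lit 2) (.e (nat_lit 196671) (nat_lit 15) .nil)))) (.g (nat_lit 0) (.e (nat_lit 414956) (nat_lit 0) .nil) .nil)))) (.nd (nat_lit 9) 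
(.lf (nat_lit 598442) (.g (nat_lit 4050) (.e (nat_lit 573485) (nat_lit 13) (.e (nat_lit 65619) (nat_lit 10) (.e (nat_lit 344117) (nat_lit 21) (.e (nat_lit 516151) (nat_lit 9) (.e (nat_lit 426038) (nat_lit 0) (.e (nat_lit 2458) (nat_lit 157) (.e (nat_lit 5546) (nat_lit 306) (.e (nat_lit 2611) (nat_lit 163) (.e (nat_lit 163978) (nat_lit 30) .nil))))))))) (.g (nat_lit 1) (.e (nat_lit 414622) (nat_lit 0) .nil) .nil))) 
(.lf (nat_lit 598954) (.g (nat_lit 1438) (.e (nat_lit 573488) (nat_lit 14) (.e (nat_lit 73755) (nat_lit 8) (.e (nat_lit 557104) (nat_lit 14) (.e (nat_lit 180242) (nat_lit 5) .nil)))) (.g (nat_lit 0) (.e (nat_lit 415657) (nat_lit 0) .nil) .nil)))))) (.nd (nat_lit 7) (.nd (nat_lit 8) (.nd (nat_lit 9) 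
(.lf (nat_lit 598122) (.g (nat_lit 2148) (.e (nat_lit 573484) (nat_lit 13) (.e (nat_lit 65617) (nat_lit 10) (.e (nat_lit 344117) (nat_lit 21) (.e (nat_lit 516098) (nat_lit 0) (.e (nat_lit 7589) (nat_lit 406) .nil))))) (.g (nat_lit 0) (.e (nat_lit 414109) (nat_lit 0) .nil) .nil))) 
(.lf (nat_lit 598634) (.g (nat_lit 2702) (.e (nat_lit 573485) (nat_lit 13) (.e (nat_lit 65619) (nat_lit 10) (.e (nat_lit 344129) (nat_lit 26) (.e (nat_lit 557087) (nat_lit 11) (.e (nat_lit 24626) (nat_lit 9) (.e (nat_lit 336260) (nat_lit 15) (.e (nat_lit 3307) (nat_lit 202) .nil))))))) (.g (nat_lit 1) (.e (nat_lit 414870) (nat_lit 0) .nil) .nil)))) (.nd (nat_lit 9) 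
(.lf (nat_lit 598378) (.g (nat_lit 2328) (.e (nat_lit 573485) (nat_lit 13) (.e (nat_lit 65619) (nat_lit 10) (.e (nat_lit 344117) (nat_lit 21) (.e (nat_lit 516143) (nat_lit 9) (.e (nat_lit 426144) (nat_lit 4) .nil))))) (.g (nat_lit 0) (.e (nat_lit 414558) (nat_lit 0) .nil) .nil))) 
(.lf (nat_lit 598890) (.g (nat_lit 3098) (.e (nat_lit 573488) (nat_lit 14) (.e (nat_lit 73753) (nat_lit 8) (.e (nat_lit 557103) (nat_lit 14) (.e (nat_lit 180252) (nat_lit 10) (.e (nat_lit 573475) (nat_lit 12) .nil))))) (.g (nat_lit 0) (.e (nat_lit 415525) (nat_lit 0) .nil) .nil))))) (.nd (nat_lit 8) (.nd (nat_lit 9) 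
(.lf (nat_lit 598250) (.g (nat_lit 3345) (.e (nat_lit 573485) (nat_lit 13) (.e (nat_lit 65604) (nat_lit 9) (.e (nat_lit 336013) (nat_lit 2) (.e (nat_lit 90170) (nat_lit 13) (.e (nat_lit 172055) (nat_lit 0) .nil))))) (.g (nat_lit 0) (.e (nat_lit 414390) (nat_lit 0) .nil) .nil))) 
(.lf (nat_lit 598762) (.g (nat_lit 2513) (.e (nat_lit 573487) (nat_lit 14) (.e (nat_lit 73753) (nat_lit 8) (.e (nat_lit 557090) (nat_lit 12) (.e (nat_lit 164006) (nat_lit 41) (.e (nat_lit 663564) (nat_lit 3) .nil))))) (.g (nat_lit 0) (.e (nat_lit 415130) (nat_lit 0) .nil) .nil)))) (.nd (nat_lit 9) 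
(.lf (nat_lit 598506) (.g (nat_lit 2687) (.e (nat_lit 573485) (nat_lit 13) (.e (nat_lit 65619) (nat_lit 10) (.e (nat_lit 344117) (nat_lit 21) (.e (nat_lit 516152) (nat_lit 9) (.e (nat_lit 426109) (nat_lit 1) (.e (nat_lit 164347) (nat_lit 240) (.e (nat_lit 2601) (nat_lit 163) (.e (nat_lit 163977) (nat_lit 30) .nil)))))))) (.g (nat_lit 1) (.e (nat_lit 414687) (nat_lit 0) .nil) .nil))) 
(.lf (nat_lit 599018) (.g (nat_lit 478) (.e (nat_lit 573489) (nat_lit 14) (.e (nat_lit 73754) (nat_lit 8) (.e (nat_lit 557100) (nat_lit 13) .nil))) (.g (nat_lit 0) (.e (nat_lit 415835) (nat_lit 0) .nil) .nil)))))))) (.nd (nat_lit 5) (.nd (nat_lit 6) (.nd (nat_lit 7) (.nd (nat_lit 8) (.nd (nat_lit 9) 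
(.lf (nat_lit 598042) (.g (nat_lit 4960) (.e (nat_lit 573484) (nat_lit 13) (.e (nat_lit 65610) (nat_lit 10) (.e (nat_lit 344117) (nat_lit 21) (.e (nat_lit 516159) (nat_lit 10) (.e (nat_lit 434272) (nat_lit 38) (.e (nat_lit 655375) (nat_lit 3) (.e (nat_lit 163977) (nat_lit 30) .nil))))))) (.g (nat_lit 1) (.e (nat_lit 413942) (nat_lit 0) .nil) .nil))) 
(.lf (nat_lit 598554) (.g (nat_lit 2063) (.e (nat_lit 573485) (nat_lit 13) (.e (nat_lit 65619) (nat_lit 10) (.e (nat_lit 344126) (nat_lit 25) (.e (nat_lit 548874) (nat_lit 5) (.e (nat_lit 1439) (nat_lit 108) .nil))))) (.g (nat_lit 0) (.e (nat_lit 414740) (nat_lit 0) .nil) .nil)))) (.nd (nat_lit 9) 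
(.lf (nat_lit 598298) (.g (nat_lit 3585) (.e (nat_lit 573485) (nat_lit 13) (.e (nat_lit 65604) (nat_lit 9) (.e (nat_lit 336013) (nat_lit 2) (.e (nat_lit 90185) (nat_lit 17) .nil)))) (.g (nat_lit 0) (.e (nat_lit 414441) (nat_lit 0) .nil) .nil))) 
(.lf (nat_lit 598810) (.g (nat_lit 2156) (.e (nat_lit 573487) (nat_lit 14) (.e (nat_lit 73753) (nat_lit 8) (.e (nat_lit 557103) (nat_lit 14) (.e (nat_lit 180244) (nat_lit 5) (.e (nat_lit 532503) (nat_lit 1) .nil))))) (.g (nat_lit 0) (.e (nat_lit 415323) (nat_lit 0) .nil) .nil))))) (.nd (nat_lit 8) (.nd (nat_lit 9) 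
(.lf (nat_lit 598170) (.g (nat_lit 1816) (.e (nat_lit 573484) (nat_lit 13) (.e (nat_lit 65630) (nat_lit 14) (.e (nat_lit 401425) (nat_lit 2) (.e (nat_lit 196628) (nat_lit 9) .nil)))) (.g (nat_lit 0) (.e (nat_lit 414242) (nat_lit 0) .nil) .nil))) 
(.lf (nat_lit 598682) (.g (nat_lit 1167) (.e (nat_lit 573485) (nat_lit 13) (.e (nat_lit 65628) (nat_lit 14) (.e (nat_lit 401428) (nat_lit 3) (.e (nat_lit 204858) (nat_lit 26) (.e (nat_lit 336200) (nat_lit 12) .nil))))) (.g (nat_lit 0) (.e (nat_lit 414939) (nat_lit 0) .nil) .nil)))) (.nd (nat_lit 9) 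
(.lf (nat_lit 598426) (.g (nat_lit 4070) (.e (nat_lit 573485) (nat_lit 13) (.e (nat_lit 65619) (nat_lit 10) (.e (nat_lit 344117) (nat_lit 21) (.e (nat_lit 516151) (nat_lit 9) (.e (nat_lit 426018) (nat_lit 0) (.e (nat_lit 2536) (nat_lit 157) (.e (nat_lit 5543) (nat_lit 306) (.e (nat_lit 2611) (nat_lit 163) (.e (nat_lit 163978) (nat_lit 30) .nil))))))))) (.g (nat_lit 1) (.e (nat_lit 414606) (nat_lit 0) .nil) .nil))) 
(.lf (nat_lit 598938) (.g (nat_lit 2990) (.e (nat_lit 573488) (nat_lit 14) (.e (nat_lit 73755) (nat_lit 8) (.e (nat_lit 557103) (nat_lit 14) (.e (nat_lit 180243) (nat_lit 5) (.e (nat_lit 532484) (nat_lit 0) .nil))))) (.g (nat_lit 0) (.e (nat_lit 415621) (nat_lit 0) .nil) .nil)))))) (.nd (nat_lit 7) (.nd (nat_lit 8) (.nd (nat_lit 9) 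
(.lf (nat_lit 598106) (.g (nat_lit 2510) (.e (nat_lit 573484) (nat_lit 13) (.e (nat_lit 65610) (nat_lit 10) (.e (nat_lit 344129) (nat_lit 26) (.e (nat_lit 557087) (nat_lit 11) (.e (nat_lit 24624) (nat_lit 9) (.e (nat_lit 336258) (nat_lit 15) (.e (nat_lit 3309) (nat_lit 202) .nil))))))) (.g (nat_lit 1) (.e (nat_lit 414089) (nat_lit 0) .nil) .nil))) 
(.lf (nat_lit 598618) (.g (nat_lit 2575) (.e (nat_lit 573485) (nat_lit 13) (.e (nat_lit 65619) (nat_lit 10) (.e (nat_lit 344129) (nat_lit 26) (.e (nat_lit 557087) (nat_lit 11) (.e (nat_lit 24584) (nat_lit 0) .nil))))) (.g (nat_lit 0) (.e (nat_lit 414838) (nat_lit 0) .nil) .nil)))) (.nd (nat_lit 9) 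
(.lf (nat_lit 598362) (.g (nat_lit 2218) (.e (nat_lit 573485) (nat_lit 13) (.e (nat_lit 65619) (nat_lit 10) (.e (nat_lit 344117) (nat_lit 21) (.e (nat_lit 516106) (nat_lit 0) (.e (nat_lit 6986) (nat_lit 377) .nil))))) (.g (nat_lit 0) (.e (nat_lit 414528) (nat_lit 0) .nil) .nil))) 
(.lf (nat_lit 598874) (.g (nat_lit 221) (.e (nat_lit 573487) (nat_lit 14) (.e (nat_lit 73789) (nat_lit 45) (.e (nat_lit 1139) (nat_lit 84) .nil))) (.g (nat_lit 0) (.e (nat_lit 415466) (nat_lit 0) .nil) .nil))))) (.nd (nat_lit 8) (.nd (nat_lit 9) 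
(.lf (nat_lit 598234) (.g (nat_lit 2499) (.e (nat_lit 573485) (nat_lit 13) (.e (nat_lit 65604) (nat_lit 9) (.e (nat_lit 336013) (nat_lit 2) (.e (nat_lit 90170) (nat_lit 13) (.e (nat_lit 172046) (nat_lit 0) (.e (nat_lit 2478) (nat_lit 157) (.e (nat_lit 5547) (nat_lit 306) (.e (nat_lit 2599) (nat_lit 163) (.e (nat_lit 163978) (nat_lit 30) .nil))))))))) (.g (nat_lit 1) (.e (nat_lit 414372) (nat_lit 0) .nil) .nil))) 
(.lf (nat_lit 598746) (.g (nat_lit 2528) (.e (nat_lit 573487) (nat_lit 14) (.e (nat_lit 73753) (nat_lit 8) (.e (nat_lit 557090) (nat_lit 12) (.e (nat_lit 163843) (nat_lit 0) (.e (nat_lit 5940) (nat_lit 322) .nil))))) (.g (nat_lit 0) (.e (nat_lit 415103) (nat_lit 0) .nil) .nil)))) (.nd (nat_lit 9) 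
(.lf (nat_lit 598490) (.g (nat_lit 3375) (.e (nat_lit 573485) (nat_lit 13) (.e (nat_lit 65619) (nat_lit 10) (.e (nat_lit 344117) (nat_lit 21) (.e (nat_lit 516151) (nat_lit 9) (.e (nat_lit 426104) (nat_lit 1) (.e (nat_lit 164347) (nat_lit 240) (.e (nat_lit 2610) (nat_lit 163) (.e (nat_lit 163977) (nat_lit 30) .nil)))))))) (.g (nat_lit 1) (.e (nat_lit 414671) (nat_lit 0) .nil) .nil))) 
(.lf (nat_lit 599002) (.g (nat_lit 1623) (.e (nat_lit 573489) (nat_lit 14) (.e (nat_lit 73753) (nat_lit 8) (.e (nat_lit 557098) (nat_lit 13) (.e (nat_lit 172140) (nat_lit 22) .nil)))) (.g (nat_lit 0) (.e (nat_lit 415804) (nat_lit 0) .nil) .nil))))))) (.nd (nat_lit 6) (.nd (nat_lit 7) (.nd (nat_lit 8) (.nd (nat_lit 9) 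
(.lf (nat_lit 598074) (.g (nat_lit 4357) (.e (nat_lit 573484) (nat_lit 13) (.e (nat_lit 65610) (nat_lit 10) (.e (nat_lit 344117) (nat_lit 21) (.e (nat_lit 516185) (nat_lit 16) (.e (nat_lit 491549) (nat_lit 9) (.e (nat_lit 336240) (nat_lit 15) (.e (nat_lit 3309) (nat_lit 202) .nil))))))) (.g (nat_lit 1) (.e (nat_lit 413999) (nat_lit 0) .nil) .nil))) 
(.lf (nat_lit 598586) (.g (nat_lit 2404) (.e (nat_lit 573485) (nat_lit 13) (.e (nat_lit 65619) (nat_lit 10) (.e (nat_lit 344129) (nat_lit 26) (.e (nat_lit 557066) (nat_lit 9) (.e (nat_lit 315) (nat_lit 23) .nil))))) (.g (nat_lit 0) (.e (nat_lit 414796) (nat_lit 0) .nil) .nil)))) (.nd (nat_lit 9) 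
(.lf (nat_lit 598330) (.g (nat_lit 4986) (.e (nat_lit 573485) (nat_lit 13) (.e (nat_lit 65604) (nat_lit 9) (.e (nat_lit 336028) (nat_lit 3) (.e (nat_lit 98367) (nat_lit 27) (.e (nat_lit 434271) (nat_lit 38) (.e (nat_lit 655375) (nat_lit 3) (.e (nat_lit 163978) (nat_lit 30) .nil))))))) (.g (nat_lit 1) (.e (nat_lit 414488) (nat_lit 0) .nil) .nil))) 
(.lf (nat_lit 598842) (.g (nat_lit 2305) (.e (nat_lit 573487) (nat_lit 14) (.e (nat_lit 73754) (nat_lit 8) (.e (nat_lit 557100) (nat_lit 13) (.e (nat_lit 172138) (nat_lit 15) .nil)))) (.g (nat_lit 0) (.e (nat_lit 415395) (nat_lit 0) .nil) .nil))))) (.nd (nat_lit 8) (.nd (nat_lit 9) 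
(.lf (nat_lit 598202) (.g (nat_lit 4072) (.e (nat_lit 573485) (nat_lit 13) (.e (nat_lit 65604) (nat_lit 9) (.e (nat_lit 336013) (nat_lit 2) (.e (nat_lit 90165) (nat_lit 12) (.e (nat_lit 164208) (nat_lit 176) (.e (nat_lit 2782) (nat_lit 178) (.e (nat_lit 286765) (nat_lit 15) (.e (nat_lit 3307) (nat_lit 202) .nil)))))))) (.g (nat_lit 1) (.e (nat_lit 414335) (nat_lit 0) .nil) .nil))) 
(.lf (nat_lit 598714) (.g (nat_lit 1857) (.e (nat_lit 581376) (nat_lit 13) (.e (nat_lit 65630) (nat_lit 14) (.e (nat_lit 401425) (nat_lit 2) (.e (nat_lit 196674) (nat_lit 15) .nil)))) (.g (nat_lit 0) (.e (nat_lit 414979) (nat_lit 0) .nil) .nil)))) (.nd (nat_lit 9) 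
(.lf (nat_lit 598458) (.g (nat_lit 3180) (.e (nat_lit 573485) (nat_lit 13) (.e (nat_lit 65619) (nat_lit 10) (.e (nat_lit 344117) (nat_lit 21) (.e (nat_lit 516151) (nat_lit 9) (.e (nat_lit 426042) (nat_lit 0) (.e (nat_lit 2427) (nat_lit 157) (.e (nat_lit 5537) (nat_lit 306) (.e (nat_lit 2611) (nat_lit 163) (.e (nat_lit 163978) (nat_lit 30) .nil))))))))) (.g (nat_lit 1) (.e (nat_lit 414638) (nat_lit 0) .nil) .nil))) 
(.lf (nat_lit 598970) (.g (nat_lit 3088) (.e (nat_lit 573488) (nat_lit 14) (.e (nat_lit 73755) (nat_lit 8) (.e (nat_lit 557105) (nat_lit 14) (.e (nat_lit 180251) (nat_lit 10) (.e (nat_lit 573473) (nat_lit 12) (.e (nat_lit 57503) (nat_lit 38) (.e (nat_lit 638995) (nat_lit 7) (.e (nat_lit 163979) (nat_lit 30) .nil)))))))) (.g (nat_lit 1) (.e (nat_lit 415695) (nat_lit 0) .nil) .nil)))))) 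
(.nd (nat_lit 7) (.nd (nat_lit 8) (.nd (nat_lit 9) 
(.lf (nat_lit 598138) (.g (nat_lit 1874) (.e (nat_lit 573484) (nat_lit 13) (.e (nat_lit 65617) (nat_lit 10) (.e (nat_lit 344133) (nat_lit 26) (.e (nat_lit 557065) (nat_lit 9) (.e (nat_lit 312) (nat_lit 23) .nil))))) (.g (nat_lit 0) (.e (nat_lit 414170) (nat_lit 0) .nil) .nil))) 
(.lf (nat_lit 598650) (.g (nat_lit 2227) (.e (nat_lit 573485) (nat_lit 13) (.e (nat_lit 65619) (nat_lit 10) (.e (nat_lit 344129) (nat_lit 26) (.e (nat_lit 557087) (nat_lit 11) (.e (nat_lit 24652) (nat_lit 12) .nil))))) (.g (nat_lit 0) (.e (nat_lit 414886) (nat_lit 0) .nil) .nil)))) (.nd (nat_lit 9) 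
(.lf (nat_lit 598394) (.g (nat_lit 3505) (.e (nat_lit 573485) (nat_lit 13) (.e (nat_lit 65619) (nat_lit 10) (.e (nat_lit 344117) (nat_lit 21) (.e (nat_lit 516145) (nat_lit 9) (.e (nat_lit 426148) (nat_lit 4) .nil))))) (.g (nat_lit 0) (.e (nat_lit 414574) (nat_lit 0) .nil) .nil))) 
(.lf (nat_lit 598906) (.g (nat_lit 2115) (.e (nat_lit 573488) (nat_lit 14) (.e (nat_lit 73754) (nat_lit 8) (.e (nat_lit 557105) (nat_lit 14) (.e (nat_lit 180252) (nat_lit 10) (.e (nat_lit 573473) (nat_lit 12) .nil))))) (.g (nat_lit 0) (.e (nat_lit 415542) (nat_lit 0) .nil) .nil))))) (.nd (nat_lit 8) (.nd (nat_lit 9) 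
(.lf (nat_lit 598266) (.g (nat_lit 3317) (.e (nat_lit 573485) (nat_lit 13) (.e (nat_lit 65604) (nat_lit 9) (.e (nat_lit 336013) (nat_lit 2) (.e (nat_lit 90170) (nat_lit 13) (.e (nat_lit 172060) (nat_lit 1) (.e (nat_lit 164347) (nat_lit 240) (.e (nat_lit 2611) (nat_lit 163) (.e (nat_lit 163977) (nat_lit 30) .nil)))))))) (.g (nat_lit 1) (.e (nat_lit 414407) (nat_lit 0) .nil) .nil))) 
(.lf (nat_lit 598778) (.g (nat_lit 436) (.e (nat_lit 573487) (nat_lit 14) (.e (nat_lit 73753) (nat_lit 8) (.e (nat_lit 557098) (nat_lit 13) .nil))) (.g (nat_lit 0) (.e (nat_lit 415172) (nat_lit 0) .nil) .nil)))) (.nd (nat_lit 9) 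
(.lf (nat_lit 598522) (.g (nat_lit 2689) (.e (nat_lit 573485) (nat_lit 13) (.e (nat_lit 65619) (nat_lit 10) (.e (nat_lit 344117) (nat_lit 21) (.e (nat_lit 516160) (nat_lit 10) (.e (nat_lit 434211) (nat_lit 18) .nil))))) (.g (nat_lit 0) (.e (nat_lit 414703) (nat_lit 0) .nil) .nil))) 
(.lf (nat_lit 599034) (.g (nat_lit 2598) (.e (nat_lit 573489) (nat_lit 14) (.e (nat_lit 73754) (nat_lit 8) (.e (nat_lit 557101) (nat_lit 13) (.e (nat_lit 172067) (nat_lit 3) (.e (nat_lit 204815) (nat_lit 17) (.e (nat_lit 2271) (nat_lit 149) (.e (nat_lit 761899) (nat_lit 15) (.e (nat_lit 163978) (nat_lit 30) .nil)))))))) (.g (nat_lit 1) (.e (nat_lit 415872) (nat_lit 0) .nil) .nil)))))))))) 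
(.nd (nat_lit 3) (.nd (nat_lit 4) (.nd (nat_lit 5) (.nd (nat_lit 6) (.nd (nat_lit 7) 
(.nd (nat_lit 8) (.nd (nat_lit 9) 
(.lf (nat_lit 598022) (.g (nat_lit 3729) (.e (nat_lit 573484) (nat_lit 13) (.e (nat_lit 65610) (nat_lit 10) (.e (nat_lit 344117) (nat_lit 21) (.e (nat_lit 516151) (nat_lit 9) (.e (nat_lit 426047) (nat_lit 0) (.e (nat_lit 3403) (nat_lit 212) (.e (nat_lit 655374) (nat_lit 3) (.e (nat_lit 163978) (nat_lit 30) .nil)))))))) (.g (nat_lit 1) (.e (nat_lit 413907) (nat_lit 0) .nil) .nil))) 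
(.lf (nat_lit 598534) (.g (nat_lit 4067) (.e (nat_lit 573485) (nat_lit 13) (.e (nat_lit 65619) (nat_lit 10) (.e (nat_lit 344117) (nat_lit 21) (.e (nat_lit 516179) (nat_lit 15) (.e (nat_lit 475196) (nat_lit 40) (.e (nat_lit 704589) (nat_lit 3) (.e (nat_lit 163978) (nat_lit 30) .nil))))))) (.g (nat_lit 1) (.e (nat_lit 414719) (nat_lit 0) .nil) .nil)))) (.nd (nat_lit 9) 
(.lf (nat_lit 598278) (.g (nat_lit 2528) (.e (nat_lit 573485) (nat_lit 13) (.e (nat_lit 65604) (nat_lit 9) (.e (nat_lit 336013) (nat_lit 2) (.e (nat_lit 90170) (nat_lit 13) (.e (nat_lit 172069) (nat_lit 4) (.e (nat_lit 229666) (nat_lit 240) (.e (nat_lit 2612) (nat_lit 163) (.e (nat_lit 163977) (nat_lit 30) .nil)))))))) (.g (nat_lit 1) (.e (nat_lit 414420) (nat_lit 0) .nil) .nil))) 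
(.lf (nat_lit 598790) (.g (nat_lit 533) (.e (nat_lit 573487) (nat_lit 14) (.e (nat_lit 73753) (nat_lit 8) (.e (nat_lit 557101) (nat_lit 13) .nil))) (.g (nat_lit 0) (.e (nat_lit 415248) (nat_lit 0) .nil) .nil))))) (.nd (nat_lit 8) (.nd (nat_lit 9) 
(.lf (nat_lit 598150) (.g (nat_lit 5082) (.e (nat_lit 573484) (nat_lit 13) (.e (nat_lit 65617) (nat_lit 10) (.e (nat_lit 344133) (nat_lit 26) (.e (nat_lit 557087) (nat_lit 11) (.e (nat_lit 24625) (nat_lit 9) (.e (nat_lit 336260) (nat_lit 15) (.e (nat_lit 3307) (nat_lit 202) .nil))))))) (.g (nat_lit 1) (.e (nat_lit 414195) (nat_lit 0) .nil) .nil))) 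
(.lf (nat_lit 598662) (.g (nat_lit 2186) (.e (nat_lit 573485) (nat_lit 13) (.e (nat_lit 65624) (nat_lit 12) (.e (nat_lit 385074) (nat_lit 31) (.e (nat_lit 573484) (nat_lit 13) (.e (nat_lit 65622) (nat_lit 12) .nil))))) (.g (nat_lit 0) (.e (nat_lit 414915) (nat_lit 0) .nil) .nil)))) (.nd (nat_lit 9) 
(.lf (nat_lit 598406) (.g (nat_lit 3464) (.e (nat_lit 573485) (nat_lit 13) (.e (nat_lit 65619) (nat_lit 10) (.e (nat_lit 344117) (nat_lit 21) (.e (nat_lit 516145) (nat_lit 9) (.e (nat_lit 426379) (nat_lit 15) (.e (nat_lit 2056) (nat_lit 142) (.e (nat_lit 704589) (nat_lit 3) (.e (nat_lit 163978) (nat_lit 30) .nil)))))))) (.g (nat_lit 1) (.e (nat_lit 414586) (nat_lit 0) .nil) .nil))) 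
(.lf (nat_lit 598918) (.g (nat_lit 505) (.e (nat_lit 573488) (nat_lit 14) (.e (nat_lit 73755) (nat_lit 8) (.e (nat_lit 557096) (nat_lit 13) .nil))) (.g (nat_lit 0) (.e (nat_lit 415573) (nat_lit 0) .nil) .nil)))))) (.nd (nat_lit 7) (.nd (nat_lit 8) (.nd (nat_lit 9) 
(.lf (nat_lit 598086) (.g (nat_lit 1239) (.e (nat_lit 573484) (nat_lit 13) (.e (nat_lit 65610) (nat_lit 10) (.e (nat_lit 344129) (nat_lit 26) (.e (nat_lit 557066) (nat_lit 9) .nil)))) (.g (nat_lit 0) (.e (nat_lit 414039) (nat_lit 0) .nil) .nil))) 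
(.lf (nat_lit 598598) (.g (nat_lit 1959) (.e (nat_lit 573485) (nat_lit 13) (.e (nat_lit 65619) (nat_lit 10) (.e (nat_lit 344129) (nat_lit 26) (.e (nat_lit 557074) (nat_lit 9) (.e (nat_lit 278) (nat_lit 21) .nil))))) (.g (nat_lit 0) (.e (nat_lit 414810) (nat_lit 0) .nil) .nil)))) (.nd (nat_lit 9) 
(.lf (nat_lit 598342) (.g (nat_lit 4328) (.e (nat_lit 573485) (nat_lit 13) (.e (nat_lit 65619) (nat_lit 10) (.e (nat_lit 344090) (nat_lit 18) (.e (nat_lit 7710) (nat_lit 414) (.e (nat_lit 163908) (nat_lit 12) (.e (nat_lit 426171) (nat_lit 7) (.e (nat_lit 409617) (nat_lit 10) (.e (nat_lit 632) (nat_lit 50) .nil)))))))) (.g (nat_lit 1) (.e (nat_lit 414503) (nat_lit 0) .nil) .nil))) 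
(.lf (nat_lit 598854) (.g (nat_lit 1897) (.e (nat_lit 573487) (nat_lit 14) (.e (nat_lit 73755) (nat_lit 8) (.e (nat_lit 557098) (nat_lit 13) (.e (nat_lit 172067) (nat_lit 3) .nil)))) (.g (nat_lit 0) (.e (nat_lit 415409) (nat_lit 0) .nil) .nil))))) (.nd (nat_lit 8) (.nd (nat_lit 9) 
(.lf (nat_lit 598214) (.g (nat_lit 3141) (.e (nat_lit 573485) (nat_lit 13) (.e (nat_lit 65604) (nat_lit 9) (.e (nat_lit 336013) (nat_lit 2) (.e (nat_lit 90170) (nat_lit 13) (.e (nat_lit 172038) (nat_lit 0) (.e (nat_lit 3399) (nat_lit 211) (.e (nat_lit 647181) (nat_lit 3) (.e (nat_lit 163978) (nat_lit 30) .nil)))))))) (.g (nat_lit 1) (.e (nat_lit 414347) (nat_lit 0) .nil) .nil))) 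
(.lf (nat_lit 598726) (.g (nat_lit 2099) (.e (nat_lit 573486) (nat_lit 14) (.e (nat_lit 73755) (nat_lit 8) (.e (nat_lit 557098) (nat_lit 13) (.e (nat_lit 172062) (nat_lit 2) .nil)))) (.g (nat_lit 0) (.e (nat_lit 414995) (nat_lit 0) .nil) .nil)))) (.nd (nat_lit 9) 
(.lf (nat_lit 598470) (.g (nat_lit 3613) (.e (nat_lit 573485) (nat_lit 13) (.e (nat_lit 65619) (nat_lit 10) (.e (nat_lit 344117) (nat_lit 21) (.e (nat_lit 516151) (nat_lit 9) (.e (nat_lit 426042) (nat_lit 0) (.e (nat_lit 3408) (nat_lit 212) (.e (nat_lit 655373) (nat_lit 3) (.e (nat_lit 163978) (nat_lit 30) .nil)))))))) (.g (nat_lit 1) (.e (nat_lit 414651) (nat_lit 0) .nil) .nil))) 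
(.lf (nat_lit 598982) (.g (nat_lit 2933) (.e (nat_lit 573488) (nat_lit 14) (.e (nat_lit 73755) (nat_lit 8) (.e (nat_lit 557105) (nat_lit 14) (.e (nat_lit 180252) (nat_lit 10) (.e (nat_lit 573475) (nat_lit 12) (.e (nat_lit 57502) (nat_lit 38) (.e (nat_lit 638994) (nat_lit 7) (.e (nat_lit 163975) (nat_lit 30) .nil)))))))) (.g (nat_lit 1) (.e (nat_lit 415710) (nat_lit 0) .nil) .nil))))))) 
(.nd (nat_lit 6) (.nd (nat_lit 7) (.nd (nat_lit 8) (.nd (nat_lit 9) 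
(.lf (nat_lit 598054) (.g (nat_lit 4823) (.e (nat_lit 573484) (nat_lit 13) (.e (nat_lit 65610) (nat_lit 10) (.e (nat_lit 344117) (nat_lit 21) (.e (nat_lit 516179) (nat_lit 15) (.e (nat_lit 475199) (nat_lit 40) (.e (nat_lit 704589) (nat_lit 3) (.e (nat_lit 163977) (nat_lit 30) .nil))))))) (.g (nat_lit 1) (.e (nat_lit 413963) (nat_lit 0) .nil) .nil))) 
(.lf (nat_lit 598566) (.g (nat_lit 3077) (.e (nat_lit 573485) (nat_lit 13) (.e (nat_lit 65619) (nat_lit 10) (.e (nat_lit 344126) (nat_lit 25) (.e (nat_lit 548891) (nat_lit 11) (.e (nat_lit 81923) (nat_lit 0) (.e (nat_lit 3305) (nat_lit 202) .nil)))))) (.g (nat_lit 1) (.e (nat_lit 414763) (nat_lit 0) .nil) .nil)))) (.nd (nat_lit 9) 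
(.lf (nat_lit 598310) (.g (nat_lit 3553) (.e (nat_lit 573485) (nat_lit 13) (.e (nat_lit 65604) (nat_lit 9) (.e (nat_lit 336028) (nat_lit 3) (.e (nat_lit 98359) (nat_lit 26) (.e (nat_lit 426023) (nat_lit 0) (.e (nat_lit 3401) (nat_lit 211) (.e (nat_lit 647180) (nat_lit 3) (.e (nat_lit 163978) (nat_lit 30) .nil)))))))) (.g (nat_lit 1) (.e (nat_lit 414457) (nat_lit 0) .nil) .nil))) 
(.lf (nat_lit 598822) (.g (nat_lit 1696) (.e (nat_lit 573487) (nat_lit 14) (.e (nat_lit 73753) (nat_lit 8) (.e (nat_lit 557105) (nat_lit 14) (.e (nat_lit 180244) (nat_lit 5) .nil)))) (.g (nat_lit 0) (.e (nat_lit 415362) (nat_lit 0) .nil) .nil))))) (.nd (nat_lit 8) (.nd (nat_lit 9) 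
(.lf (nat_lit 598182) (.g (nat_lit 4063) (.e (nat_lit 573485) (nat_lit 13) (.e (nat_lit 65604) (nat_lit 9) (.e (nat_lit 336013) (nat_lit 2) (.e (nat_lit 90123) (nat_lit 9) .nil)))) (.g (nat_lit 0) (.e (nat_lit 414310) (nat_lit 0) .nil) .nil))) 
(.lf (nat_lit 598694) (.g (nat_lit 1456) (.e (nat_lit 573485) (nat_lit 13) (.e (nat_lit 65630) (nat_lit 14) (.e (nat_lit 401424) (nat_lit 2) (.e (nat_lit 196672) (nat_lit 15) .nil)))) (.g (nat_lit 0) (.e (nat_lit 414952) (nat_lit 0) .nil) .nil)))) (.nd (nat_lit 9) 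
(.lf (nat_lit 598438) (.g (nat_lit 3909) (.e (nat_lit 573485) (nat_lit 13) (.e (nat_lit 65619) (nat_lit 10) (.e (nat_lit 344117) (nat_lit 21) (.e (nat_lit 516151) (nat_lit 9) (.e (nat_lit 426038) (nat_lit 0) .nil))))) (.g (nat_lit 0) (.e (nat_lit 414618) (nat_lit 0) .nil) .nil))) 
(.lf (nat_lit 598950) (.g (nat_lit 2519) (.e (nat_lit 573488) (nat_lit 14) (.e (nat_lit 73755) (nat_lit 8) (.e (nat_lit 557103) (nat_lit 14) (.e (nat_lit 180250) (nat_lit 10) (.e (nat_lit 573477) (nat_lit 12) (.e (nat_lit 57502) (nat_lit 38) (.e (nat_lit 638994) (nat_lit 7) (.e (nat_lit 163976) (nat_lit 30) .nil)))))))) (.g (nat_lit 1) (.e (nat_lit 415651) (nat_lit 0) .nil) .nil)))))) 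
(.nd (nat_lit 7) (.nd (nat_lit 8) (.nd (nat_lit 9) 
(.lf (nat_lit 598118) (.g (nat_lit 783) (.e (nat_lit 573484) (nat_lit 13) (.e (nat_lit 65616) (nat_lit 10) (.e (nat_lit 344126) (nat_lit 25) (.e (nat_lit 548889) (nat_lit 9) .nil)))) (.g (nat_lit 0) (.e (nat_lit 414105) (nat_lit 0) .nil) .nil))) 
(.lf (nat_lit 598630) (.g (nat_lit 4815) (.e (nat_lit 573485) (nat_lit 13) (.e (nat_lit 65619) (nat_lit 10) (.e (nat_lit 344129) (nat_lit 26) (.e (nat_lit 557087) (nat_lit 11) (.e (nat_lit 24625) (nat_lit 9) (.e (nat_lit 336258) (nat_lit 15) (.e (nat_lit 3309) (nat_lit 202) .nil))))))) (.g (nat_lit 1) (.e (nat_lit 414866) (nat_lit 0) .nil) .nil)))) (.nd (nat_lit 9) 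
(.lf (nat_lit 598374) (.g (nat_lit 2296) (.e (nat_lit 573485) (nat_lit 13) (.e (nat_lit 65619) (nat_lit 10) (.e (nat_lit 344117) (nat_lit 21) (.e (nat_lit 516143) (nat_lit 9) (.e (nat_lit 426104) (nat_lit 1) .nil))))) (.g (nat_lit 0) (.e (nat_lit 414554) (nat_lit 0) .nil) .nil))) 
(.lf (nat_lit 598886) (.g (nat_lit 2071) (.e (nat_lit 573488) (nat_lit 14) (.e (nat_lit 73753) (nat_lit 8) (.e (nat_lit 557100) (nat_lit 13) (.e (nat_lit 172065) (nat_lit 3) .nil)))) (.g (nat_lit 0) (.e (nat_lit 415521) (nat_lit 0) .nil) .nil))))) (.nd (nat_lit 8) (.nd (nat_lit 9) 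
(.lf (nat_lit 598246) (.g (nat_lit 4813) (.e (nat_lit 573485) (nat_lit 13) (.e (nat_lit 65604) (nat_lit 9) (.e (nat_lit 336013) (nat_lit 2) (.e (nat_lit 90170) (nat_lit 13) (.e (nat_lit 172049) (nat_lit 0) (.e (nat_lit 3406) (nat_lit 212) (.e (nat_lit 655375) (nat_lit 3) (.e (nat_lit 163978) (nat_lit 30) .nil)))))))) (.g (nat_lit 1) (.e (nat_lit 414386) (nat_lit 0) .nil) .nil))) 
(.lf (nat_lit 598758) (.g (nat_lit 2403) (.e (nat_lit 573487) (nat_lit 14) (.e (nat_lit 73753) (nat_lit 8) (.e (nat_lit 557090) (nat_lit 12) (.e (nat_lit 164006) (nat_lit 41) (.e (nat_lit 663554) (nat_lit 0) .nil))))) (.g (nat_lit 0) (.e (nat_lit 415125) (nat_lit 0) .nil) .nil)))) (.nd (nat_lit 9) 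
(.lf (nat_lit 598502) (.g (nat_lit 3597) (.e (nat_lit 573485) (nat_lit 13) (.e (nat_lit 65619) (nat_lit 10) (.e (nat_lit 344117) (nat_lit 21) (.e (nat_lit 516151) (nat_lit 9) (.e (nat_lit 426414) (nat_lit 15) (.e (nat_lit 2056) (nat_lit 142) (.e (nat_lit 704589) (nat_lit 3) (.e (nat_lit 163978) (nat_lit 30) .nil)))))))) (.g (nat_lit 1) (.e (nat_lit 414683) (nat_lit 0) .nil) .nil))) 
(.lf (nat_lit 599014) (.g (nat_lit 1740) (.e (nat_lit 573489) (nat_lit 14) (.e (nat_lit 73754) (nat_lit 8) (.e (nat_lit 557091) (nat_lit 12) (.e (nat_lit 164006) (nat_lit 41) .nil)))) (.g (nat_lit 0) (.e (nat_lit 415828) (nat_lit 0) .nil) .nil)))))))) (.nd (nat_lit 5) (.nd (nat_lit 6) (.nd (nat_lit 7) (.nd (nat_lit 8) (.nd (nat_lit 9) 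
(.lf (nat_lit 598038) (.g (nat_lit 2805) (.e (nat_lit 573484) (nat_lit 13) (.e (nat_lit 65610) (nat_lit 10) (.e (nat_lit 344117) (nat_lit 21) (.e (nat_lit 516155) (nat_lit 9) .nil)))) (.g (nat_lit 0) (.e (nat_lit 413935) (nat_lit 0) .nil) .nil))) 
(.lf (nat_lit 598550) (.g (nat_lit 375) (.e (nat_lit 573485) (nat_lit 13) (.e (nat_lit 65619) (nat_lit 10) (.e (nat_lit 344126) (nat_lit 25) .nil))) (.g (nat_lit 0) (.e (nat_lit 414736) (nat_lit 0) .nil) .nil)))) (.nd (nat_lit 9) 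
(.lf (nat_lit 598294) (.g (nat_lit 4047) (.e (nat_lit 573485) (nat_lit 13) (.e (nat_lit 65604) (nat_lit 9) (.e (nat_lit 336013) (nat_lit 2) (.e (nat_lit 90172) (nat_lit 14) .nil)))) (.g (nat_lit 0) (.e (nat_lit 414437) (nat_lit 0) .nil) .nil))) 
(.lf (nat_lit 598806) (.g (nat_lit 2056) (.e (nat_lit 573487) (nat_lit 14) (.e (nat_lit 73753) (nat_lit 8) (.e (nat_lit 557103) (nat_lit 14) (.e (nat_lit 180244) (nat_lit 5) (.e (nat_lit 532481) (nat_lit 0) .nil))))) (.g (nat_lit 0) (.e (nat_lit 415308) (nat_lit 0) .nil) .nil))))) (.nd (nat_lit 8) (.nd (nat_lit 9) 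
(.lf (nat_lit 598166) (.g (nat_lit 704) (.e (nat_lit 573484) (nat_lit 13) (.e (nat_lit 65630) (nat_lit 14) (.e (nat_lit 401412) (nat_lit 0) .nil))) (.g (nat_lit 0) (.e (nat_lit 414237) (nat_lit 0) .nil) .nil))) 
(.lf (nat_lit 598678) (.g (nat_lit 2655) (.e (nat_lit 573485) (nat_lit 13) (.e (nat_lit 65628) (nat_lit 14) (.e (nat_lit 401425) (nat_lit 2) (.e (nat_lit 196681) (nat_lit 17) (.e (nat_lit 131122) (nat_lit 12) .nil))))) (.g (nat_lit 0) (.e (nat_lit 414934) (nat_lit 0) .nil) .nil)))) (.nd (nat_lit 9) 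
(.lf (nat_lit 598422) (.g (nat_lit 2152) (.e (nat_lit 573485) (nat_lit 13) (.e (nat_lit 65619) (nat_lit 10) (.e (nat_lit 344117) (nat_lit 21) (.e (nat_lit 516151) (nat_lit 9) (.e (nat_lit 426003) (nat_lit 0) .nil))))) (.g (nat_lit 0) (.e (nat_lit 414602) (nat_lit 0) .nil) .nil))) 
(.lf (nat_lit 598934) (.g (nat_lit 1553) (.e (nat_lit 573488) (nat_lit 14) (.e (nat_lit 73755) (nat_lit 8) (.e (nat_lit 557098) (nat_lit 13) (.e (nat_lit 172140) (nat_lit 22) .nil)))) (.g (nat_lit 0) (.e (nat_lit 415617) (nat_lit 0) .nil) .nil)))))) (.nd (nat_lit 7) (.nd (nat_lit 8) (.nd (nat_lit 9) 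
(.lf (nat_lit 598102) (.g (nat_lit 1941) (.e (nat_lit 573484) (nat_lit 13) (.e (nat_lit 65610) (nat_lit 10) (.e (nat_lit 344129) (nat_lit 26) (.e (nat_lit 557086) (nat_lit 11) (.e (nat_lit 24648) (nat_lit 12) .nil))))) (.g (nat_lit 0) (.e (nat_lit 414083) (nat_lit 0) .nil) .nil))) 
(.lf (nat_lit 598614) (.g (nat_lit 2840) (.e (nat_lit 573485) (nat_lit 13) (.e (nat_lit 65619) (nat_lit 10) (.e (nat_lit 344129) (nat_lit 26) (.e (nat_lit 557086) (nat_lit 11) (.e (nat_lit 24650) (nat_lit 12) (.e (nat_lit 385073) (nat_lit 31) .nil)))))) (.g (nat_lit 1) (.e (nat_lit 414831) (nat_lit 0) .nil) .nil)))) (.nd (nat_lit 9) 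
(.lf (nat_lit 598358) (.g (nat_lit 2656) (.e (nat_lit 573485) (nat_lit 13) (.e (nat_lit 65619) (nat_lit 10) (.e (nat_lit 344117) (nat_lit 21) (.e (nat_lit 516100) (nat_lit 0) (.e (nat_lit 7562) (nat_lit 402) .nil))))) (.g (nat_lit 0) (.e (nat_lit 414524) (nat_lit 0) .nil) .nil))) 
(.lf (nat_lit 598870) (.g (nat_lit 2186) (.e (nat_lit 573487) (nat_lit 14) (.e (nat_lit 73782) (nat_lit 32) (.e (nat_lit 2663) (nat_lit 167) (.e (nat_lit 196672) (nat_lit 15) (.e (nat_lit 81922) (nat_lit 0) .nil))))) (.g (nat_lit 0) (.e (nat_lit 415437) (nat_lit 0) .nil) .nil))))) (.nd (nat_lit 8) (.nd (nat_lit 9) 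
(.lf (nat_lit 598230) (.g (nat_lit 2798) (.e (nat_lit 573485) (nat_lit 13) (.e (nat_lit 65604) (nat_lit 9) (.e (nat_lit 336013) (nat_lit 2) (.e (nat_lit 90170) (nat_lit 13) (.e (nat_lit 172046) (nat_lit 0) (.e (nat_lit 2458) (nat_lit 157) (.e (nat_lit 5543) (nat_lit 306) (.e (nat_lit 2610) (nat_lit 163) (.e (nat_lit 163978) (nat_lit 30) .nil))))))))) (.g (nat_lit 1) (.e (nat_lit 414364) (nat_lit 0) .nil) .nil))) 
(.lf (nat_lit 598742) (.g (nat_lit 2340) (.e (nat_lit 573487) (nat_lit 14) (.e (nat_lit 73753) (nat_lit 8) (.e (nat_lit 557089) (nat_lit 12) (.e (nat_lit 164000) (nat_lit 38) (.e (nat_lit 639008) (nat_lit 13) .nil))))) (.g (nat_lit 0) (.e (nat_lit 415099) (nat_lit 0) .nil) .nil)))) (.nd (nat_lit 9) 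
(.lf (nat_lit 598486) (.g (nat_lit 3299) (.e (nat_lit 573485) (nat_lit 13) (.e (nat_lit 65619) (nat_lit 10) (.e (nat_lit 344117) (nat_lit 21) (.e (nat_lit 516151) (nat_lit 9) (.e (nat_lit 426104) (nat_lit 1) (.e (nat_lit 164346) (nat_lit 240) (.e (nat_lit 2599) (nat_lit 163) (.e (nat_lit 163978) (nat_lit 30) .nil)))))))) (.g (nat_lit 1) (.e (nat_lit 414667) (nat_lit 0) .nil) .nil))) 
(.lf (nat_lit 598998) (.g (nat_lit 3079) (.e (nat_lit 573489) (nat_lit 14) (.e (nat_lit 73753) (nat_lit 8) (.e (nat_lit 557091) (nat_lit 12) (.e (nat_lit 163999) (nat_lit 38) (.e (nat_lit 639005) (nat_lit 13) .nil))))) (.g (nat_lit 0) (.e (nat_lit 415800) (nat_lit 0) .nil) .nil))))))) (.nd (nat_lit 6) (.nd (nat_lit 7) (.nd (nat_lit 8) (.nd (nat_lit 9) 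
(.lf (nat_lit 598070) (.g (nat_lit 1023) (.e (nat_lit 573484) (nat_lit 13) (.e (nat_lit 65610) (nat_lit 10) (.e (nat_lit 344117) (nat_lit 21) (.e (nat_lit 516185) (nat_lit 16) .nil)))) (.g (nat_lit 0) (.e (nat_lit 413994) (nat_lit 0) .nil) .nil))) 
(.lf (nat_lit 598582) (.g (nat_lit 2407) (.e (nat_lit 573485) (nat_lit 13) (.e (nat_lit 65619) (nat_lit 10) (.e (nat_lit 344129) (nat_lit 26) (.e (nat_lit 557066) (nat_lit 9) (.e (nat_lit 244) (nat_lit 21) .nil))))) (.g (nat_lit 0) (.e (nat_lit 414786) (nat_lit 0) .nil) .nil)))) (.nd (nat_lit 9) 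
(.lf (nat_lit 598326) (.g (nat_lit 1107) (.e (nat_lit 573485) (nat_lit 13) (.e (nat_lit 65604) (nat_lit 9) (.e (nat_lit 336028) (nat_lit 3) (.e (nat_lit 98367) (nat_lit 27) .nil)))) (.g (nat_lit 0) (.e (nat_lit 414481) (nat_lit 0) .nil) .nil))) 
(.lf (nat_lit 598838) (.g (nat_lit 2014) (.e (nat_lit 573487) (nat_lit 14) (.e (nat_lit 73753) (nat_lit 8) (.e (nat_lit 557105) (nat_lit 14) (.e (nat_lit 180252) (nat_lit 10) (.e (nat_lit 573503) (nat_lit 18) .nil))))) (.g (nat_lit 0) (.e (nat_lit 415389) (nat_lit 0) .nil) .nil))))) (.nd (nat_lit 8) (.nd (nat_lit 9) 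
(.lf (nat_lit 598198) (.g (nat_lit 4063) (.e (nat_lit 573485) (nat_lit 13) (.e (nat_lit 65604) (nat_lit 9) (.e (nat_lit 336013) (nat_lit 2) (.e (nat_lit 90144) (nat_lit 9) .nil)))) (.g (nat_lit 0) (.e (nat_lit 414331) (nat_lit 0) .nil) .nil))) 
(.lf (nat_lit 598710) (.g (nat_lit 839) (.e (nat_lit 573485) (nat_lit 13) (.e (nat_lit 65630) (nat_lit 14) (.e (nat_lit 401428) (nat_lit 3) (.e (nat_lit 204866) (nat_lit 28) .nil)))) (.g (nat_lit 0) (.e (nat_lit 414975) (nat_lit 0) .nil) .nil)))) (.nd (nat_lit 9) 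
(.lf (nat_lit 598454) (.g (nat_lit 4035) (.e (nat_lit 573485) (nat_lit 13) (.e (nat_lit 65619) (nat_lit 10) (.e (nat_lit 344117) (nat_lit 21) (.e (nat_lit 516151) (nat_lit 9) (.e (nat_lit 426039) (nat_lit 0) (.e (nat_lit 2458) (nat_lit 157) (.e (nat_lit 5548) (nat_lit 306) (.e (nat_lit 2610) (nat_lit 163) (.e (nat_lit 163978) (nat_lit 30) .nil))))))))) (.g (nat_lit 1) (.e (nat_lit 414634) (nat_lit 0) .nil) .nil))) 
(.lf (nat_lit 598966) (.g (nat_lit 1710) (.e (nat_lit 573488) (nat_lit 14) (.e (nat_lit 73755) (nat_lit 8) (.e (nat_lit 557105) (nat_lit 14) (.e (nat_lit 180245) (nat_lit 5) .nil)))) (.g (nat_lit 0) (.e (nat_lit 415689) (nat_lit 0) .nil) .nil)))))) (.nd (nat_lit 7) (.nd (nat_lit 8) (.nd (nat_lit 9) 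
(.lf (nat_lit 598134) (.g (nat_lit 1013) (.e (nat_lit 573484) (nat_lit 13) (.e (nat_lit 65617) (nat_lit 10) (.e (nat_lit 344132) (nat_lit 26) (.e (nat_lit 557073) (nat_lit 9) .nil)))) (.g (nat_lit 0) (.e (nat_lit 414161) (nat_lit 0) .nil) .nil))) 
(.lf (nat_lit 598646) (.g (nat_lit 2021) (.e (nat_lit 573485) (nat_lit 13) (.e (nat_lit 65619) (nat_lit 10) (.e (nat_lit 344129) (nat_lit 26) (.e (nat_lit 557087) (nat_lit 11) (.e (nat_lit 24638) (nat_lit 9) .nil))))) (.g (nat_lit 0) (.e (nat_lit 414882) (nat_lit 0) .nil) .nil)))) (.nd (nat_lit 9) 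
(.lf (nat_lit 598390) (.g (nat_lit 3294) (.e (nat_lit 573485) (nat_lit 13) (.e (nat_lit 65619) (nat_lit 10) (.e (nat_lit 344117) (nat_lit 21) (.e (nat_lit 516145) (nat_lit 9) (.e (nat_lit 433920) (nat_lit 1) (.e (nat_lit 164348) (nat_lit 240) (.e (nat_lit 2599) (nat_lit 163) (.e (nat_lit 163978) (nat_lit 30) .nil)))))))) (.g (nat_lit 1) (.e (nat_lit 414570) (nat_lit 0) .nil) .nil))) 
(.lf (nat_lit 598902) (.g (nat_lit 718) (.e (nat_lit 573488) (nat_lit 14) (.e (nat_lit 73754) (nat_lit 8) (.e (nat_lit 557103) (nat_lit 14) .nil))) (.g (nat_lit 0) (.e (nat_lit 415538) (nat_lit 0) .nil) .nil))))) (.nd (nat_lit 8) (.nd (nat_lit 9) 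
(.lf (nat_lit 598262) (.g (nat_lit 3418) (.e (nat_lit 573485) (nat_lit 13) (.e (nat_lit 65604) (nat_lit 9) (.e (nat_lit 336013) (nat_lit 2) (.e (nat_lit 90170) (nat_lit 13) (.e (nat_lit 172060) (nat_lit 1) (.e (nat_lit 164345) (nat_lit 240) (.e (nat_lit 2600) (nat_lit 163) (.e (nat_lit 163977) (nat_lit 30) .nil)))))))) (.g (nat_lit 1) (.e (nat_lit 414403) (nat_lit 0) .nil) .nil))) 
(.lf (nat_lit 598774) (.g (nat_lit 529) (.e (nat_lit 573487) (nat_lit 14) (.e (nat_lit 73753) (nat_lit 8) (.e (nat_lit 557096) (nat_lit 13) .nil))) (.g (nat_lit 0) (.e (nat_lit 415156) (nat_lit 0) .nil) .nil)))) (.nd (nat_lit 9) 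
(.lf (nat_lit 598518) (.g (nat_lit 1255) (.e (nat_lit 573485) (nat_lit 13) (.e (nat_lit 65619) (nat_lit 10) (.e (nat_lit 344117) (nat_lit 21) (.e (nat_lit 516160) (nat_lit 10) .nil)))) (.g (nat_lit 0) (.e (nat_lit 414699) (nat_lit 0) .nil) .nil))) 
(.lf (nat_lit 599030) (.g (nat_lit 312) (.e (nat_lit 573489) (nat_lit 14) (.e (nat_lit 73754) (nat_lit 8) (.e (nat_lit 557101) (nat_lit 13) .nil))) (.g (nat_lit 0) (.e (nat_lit 415858) (nat_lit 0) .nil) .nil))))))))) (.nd (nat_lit 4) (.nd (nat_lit 5) (.nd (nat_lit 6) (.nd (nat_lit 7) (.nd (nat_lit 8) (.nd (nat_lit 9) 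
(.lf (nat_lit 598030) (.g (nat_lit 2113) (.e (nat_lit 573484) (nat_lit 13) (.e (nat_lit 65610) (nat_lit 10) (.e (nat_lit 344117) (nat_lit 21) (.e (nat_lit 516151) (nat_lit 9) (.e (nat_lit 426146) (nat_lit 4) (.e (nat_lit 229678) (nat_lit 244) (.e (nat_lit 163850) (nat_lit 0) (.e (nat_lit 3304) (nat_lit 202) .nil)))))))) (.g (nat_lit 1) (.e (nat_lit 413921) (nat_lit 0) .nil) .nil))) 
(.lf (nat_lit 598542) (.g (nat_lit 2177) (.e (nat_lit 573485) (nat_lit 13) (.e (nat_lit 65619) (nat_lit 10) (.e (nat_lit 344117) (nat_lit 21) (.e (nat_lit 516185) (nat_lit 16) (.e (nat_lit 491546) (nat_lit 9) (.e (nat_lit 336258) (nat_lit 15) (.e (nat_lit 3309) (nat_lit 202) .nil))))))) (.g (nat_lit 1) (.e (nat_lit 414728) (nat_lit 0) .nil) .nil)))) (.nd (nat_lit 9) 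
(.lf (nat_lit 598286) (.g (nat_lit 2475) (.e (nat_lit 573485) (nat_lit 13) (.e (nat_lit 65604) (nat_lit 9) (.e (nat_lit 336013) (nat_lit 2) (.e (nat_lit 90170) (nat_lit 13) (.e (nat_lit 179968) (nat_lit 4) (.e (nat_lit 229663) (nat_lit 240) (.e (nat_lit 2612) (nat_lit 163) (.e (nat_lit 163977) (nat_lit 30) .nil)))))))) (.g (nat_lit 1) (.e (nat_lit 414428) (nat_lit 0) .nil) .nil))) 
(.lf (nat_lit 598798) (.g (nat_lit 3216) (.e (nat_lit 573487) (nat_lit 14) (.e (nat_lit 73753) (nat_lit 8) (.e (nat_lit 557103) (nat_lit 14) (.e (nat_lit 180243) (nat_lit 5) (.e (nat_lit 532481) (nat_lit 0) (.e (nat_lit 2271) (nat_lit 149) (.e (nat_lit 761898) (nat_lit 15) (.e (nat_lit 163977) (nat_lit 30) .nil)))))))) (.g (nat_lit 1) (.e (nat_lit 415279) (nat_lit 0) .nil) .nil))))) 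
(.nd (nat_lit 8) (.nd (nat_lit 9) 
(.lf (nat_lit 598158) (.g (nat_lit 2745) (.e (nat_lit 573484) (nat_lit 13) (.e (nat_lit 65624) (nat_lit 12) (.e (nat_lit 385074) (nat_lit 31) (.e (nat_lit 573493) (nat_lit 15) (.e (nat_lit 81923) (nat_lit 0) .nil))))) (.g (nat_lit 0) (.e (nat_lit 414218) (nat_lit 0) .nil) .nil))) 
(.lf (nat_lit 598670) (.g (nat_lit 352) (.e (nat_lit 573485) (nat_lit 13) (.e (nat_lit 65628) (nat_lit 14) (.e (nat_lit 401425) (nat_lit 2) .nil))) (.g (nat_lit 0) (.e (nat_lit 414926) (nat_lit 0) .nil) .nil)))) (.nd (nat_lit 9) 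
(.lf (nat_lit 598414) (.g (nat_lit 2902) (.e (nat_lit 573485) (nat_lit 13) (.e (nat_lit 65619) (nat_lit 10) (.e (nat_lit 344117) (nat_lit 21) (.e (nat_lit 516145) (nat_lit 9) (.e (nat_lit 433920) (nat_lit 15) .nil))))) (.g (nat_lit 0) (.e (nat_lit 414594) (nat_lit 0) .nil) .nil))) 
(.lf (nat_lit 598926) (.g (nat_lit 453) (.e (nat_lit 573488) (nat_lit 14) (.e (nat_lit 73755) (nat_lit 8) (.e (nat_lit 557098) (nat_lit 13) .nil))) (.g (nat_lit 0) (.e (nat_lit 415591) (nat_lit 0) .nil) .nil)))))) (.nd (nat_lit 7) (.nd (nat_lit 8) (.nd (nat_lit 9) 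
(.lf (nat_lit 598094) (.g (nat_lit 2536) (.e (nat_lit 573484) (nat_lit 13) (.e (nat_lit 65610) (nat_lit 10) (.e (nat_lit 344129) (nat_lit 26) (.e (nat_lit 557072) (nat_lit 9) .nil)))) (.g (nat_lit 0) (.e (nat_lit 414067) (nat_lit 0) .nil) .nil))) 
(.lf (nat_lit 598606) (.g (nat_lit 2953) (.e (nat_lit 573485) (nat_lit 13) (.e (nat_lit 65619) (nat_lit 10) (.e (nat_lit 344129) (nat_lit 26) (.e (nat_lit 557085) (nat_lit 11) (.e (nat_lit 24629) (nat_lit 9) (.e (nat_lit 336306) (nat_lit 15) (.e (nat_lit 3307) (nat_lit 202) .nil))))))) (.g (nat_lit 1) (.e (nat_lit 414823) (nat_lit 0) .nil) .nil)))) (.nd (nat_lit 9) 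
(.lf (nat_lit 598350) (.g (nat_lit 2071) (.e (nat_lit 573485) (nat_lit 13) (.e (nat_lit 65619) (nat_lit 10) (.e (nat_lit 344117) (nat_lit 21) (.e (nat_lit 516097) (nat_lit 0) (.e (nat_lit 7366) (nat_lit 388) .nil))))) (.g (nat_lit 0) (.e (nat_lit 414513) (nat_lit 0) .nil) .nil))) 
(.lf (nat_lit 598862) (.g (nat_lit 1801) (.e (nat_lit 573487) (nat_lit 14) (.e (nat_lit 73755) (nat_lit 8) (.e (nat_lit 557105) (nat_lit 14) (.e (nat_lit 180252) (nat_lit 10) .nil)))) (.g (nat_lit 0) (.e (nat_lit 415418) (nat_lit 0) .nil) .nil))))) (.nd (nat_lit 8) (.nd (nat_lit 9) 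
(.lf (nat_lit 598222) (.g (nat_lit 2961) (.e (nat_lit 573485) (nat_lit 13) (.e (nat_lit 65604) (nat_lit 9) (.e (nat_lit 336013) (nat_lit 2) (.e (nat_lit 90170) (nat_lit 13) (.e (nat_lit 172041) (nat_lit 0) (.e (nat_lit 3403) (nat_lit 212) (.e (nat_lit 655374) (nat_lit 3) (.e (nat_lit 163978) (nat_lit 30) .nil)))))))) (.g (nat_lit 1) (.e (nat_lit 414355) (nat_lit 0) .nil) .nil))) 
(.lf (nat_lit 598734) (.g (nat_lit 1450) (.e (nat_lit 573487) (nat_lit 14) (.e (nat_lit 73746) (nat_lit 3) (.e (nat_lit 516120) (nat_lit 1) (.e (nat_lit 171776) (nat_lit 160) .nil)))) (.g (nat_lit 0) (.e (nat_lit 415028) (nat_lit 0) .nil) .nil)))) (.nd (nat_lit 9) 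
(.lf (nat_lit 598478) (.g (nat_lit 3959) (.e (nat_lit 573485) (nat_lit 13) (.e (nat_lit 65619) (nat_lit 10) (.e (nat_lit 344117) (nat_lit 21) (.e (nat_lit 516151) (nat_lit 9) (.e (nat_lit 426047) (nat_lit 0) (.e (nat_lit 2458) (nat_lit 157) (.e (nat_lit 5548) (nat_lit 306) (.e (nat_lit 2610) (nat_lit 163) (.e (nat_lit 163978) (nat_lit 30) .nil))))))))) (.g (nat_lit 1) (.e (nat_lit 414659) (nat_lit 0) .nil) .nil))) 
(.lf (nat_lit 598990) (.g (nat_lit 2634) (.e (nat_lit 573488) (nat_lit 14) (.e (nat_lit 73755) (nat_lit 8) (.e (nat_lit 557119) (nat_lit 18) (.e (nat_lit 2798) (nat_lit 180) (.e (nat_lit 311040) (nat_lit 18) (.e (nat_lit 98367) (nat_lit 27) (.e (nat_lit 434245) (nat_lit 28) .nil))))))) (.g (nat_lit 1) (.e (nat_lit 415718) (nat_lit 0) .nil) .nil))))))) 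
(.nd (nat_lit 6) (.nd (nat_lit 7) (.nd (nat_lit 8) (.nd (nat_lit 9) 
(.lf (nat_lit 598062) (.g (nat_lit 3778) (.e (nat_lit 573484) (nat_lit 13) (.e (nat_lit 65610) (nat_lit 10) (.e (nat_lit 344117) (nat_lit 21) (.e (nat_lit 516179) (nat_lit 15) (.e (nat_lit 475211) (nat_lit 41) (.e (nat_lit 712722) (nat_lit 15) (.e (nat_lit 3295) (nat_lit 202) .nil))))))) (.g (nat_lit 1) (.e (nat_lit 413979) (nat_lit 0) .nil) .nil))) 
(.lf (nat_lit 598574) (.g (nat_lit 1880) (.e (nat_lit 573485) (nat_lit 13) (.e (nat_lit 65619) (nat_lit 10) (.e (nat_lit 344129) (nat_lit 26) (.e (nat_lit 557065) (nat_lit 9) (.e (nat_lit 251) (nat_lit 21) .nil))))) (.g (nat_lit 0) (.e (nat_lit 414773) (nat_lit 0) .nil) .nil)))) (.nd (nat_lit 9) 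
(.lf (nat_lit 598318) (.g (nat_lit 4581) (.e (nat_lit 573485) (nat_lit 13) (.e (nat_lit 65604) (nat_lit 9) (.e (nat_lit 336028) (nat_lit 3) (.e (nat_lit 98359) (nat_lit 26) (.e (nat_lit 426412) (nat_lit 15) (.e (nat_lit 2056) (nat_lit 142) (.e (nat_lit 704589) (nat_lit 3) (.e (nat_lit 163978) (nat_lit 30) .nil)))))))) (.g (nat_lit 1) (.e (nat_lit 414471) (nat_lit 0) .nil) .nil))) 
(.lf (nat_lit 598830) (.g (nat_lit 2110) (.e (nat_lit 573487) (nat_lit 14) (.e (nat_lit 73753) (nat_lit 8) (.e (nat_lit 557105) (nat_lit 14) (.e (nat_lit 180251) (nat_lit 10) (.e (nat_lit 573478) (nat_lit 12) .nil))))) (.g (nat_lit 0) (.e (nat_lit 415373) (nat_lit 0) .nil) .nil))))) (.nd (nat_lit 8) (.nd (nat_lit 9) 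
(.lf (nat_lit 598190) (.g (nat_lit 1914) (.e (nat_lit 573485) (nat_lit 13) (.e (nat_lit 65604) (nat_lit 9) (.e (nat_lit 336013) (nat_lit 2) (.e (nat_lit 90134) (nat_lit 9) (.e (nat_lit 3098) (nat_lit 192) .nil))))) (.g (nat_lit 0) (.e (nat_lit 414323) (nat_lit 0) .nil) .nil))) 
(.lf (nat_lit 598702) (.g (nat_lit 1336) (.e (nat_lit 573485) (nat_lit 13) (.e (nat_lit 65630) (nat_lit 14) (.e (nat_lit 401425) (nat_lit 2) (.e (nat_lit 196681) (nat_lit 17) .nil)))) (.g (nat_lit 0) (.e (nat_lit 414960) (nat_lit 0) .nil) .nil)))) (.nd (nat_lit 9) 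
(.lf (nat_lit 598446) (.g (nat_lit 3924) (.e (nat_lit 573485) (nat_lit 13) (.e (nat_lit 65619) (nat_lit 10) (.e (nat_lit 344117) (nat_lit 21) (.e (nat_lit 516151) (nat_lit 9) (.e (nat_lit 426040) (nat_lit 0) .nil))))) (.g (nat_lit 0) (.e (nat_lit 414626) (nat_lit 0) .nil) .nil))) 
(.lf (nat_lit 598958) (.g (nat_lit 2498) (.e (nat_lit 573488) (nat_lit 14) (.e (nat_lit 73755) (nat_lit 8) (.e (nat_lit 557104) (nat_lit 14) (.e (nat_lit 180252) (nat_lit 10) (.e (nat_lit 573473) (nat_lit 12) .nil))))) (.g (nat_lit 0) (.e (nat_lit 415680) (nat_lit 0) .nil) .nil)))))) (.nd (nat_lit 7) (.nd (nat_lit 8) (.nd (nat_lit 9) 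
(.lf (nat_lit 598126) (.g (nat_lit 1599) (.e (nat_lit 573484) (nat_lit 13) (.e (nat_lit 65617) (nat_lit 10) (.e (nat_lit 344130) (nat_lit 26) (.e (nat_lit 557065) (nat_lit 9) (.e (nat_lit 7936) (nat_lit 21) .nil))))) (.g (nat_lit 0) (.e (nat_lit 414128) (nat_lit 0) .nil) .nil))) 
(.lf (nat_lit 598638) (.g (nat_lit 4590) (.e (nat_lit 573485) (nat_lit 13) (.e (nat_lit 65619) (nat_lit 10) (.e (nat_lit 344129) (nat_lit 26) (.e (nat_lit 557087) (nat_lit 11) (.e (nat_lit 24628) (nat_lit 9) (.e (nat_lit 336258) (nat_lit 15) (.e (nat_lit 3309) (nat_lit 202) .nil))))))) (.g (nat_lit 1) (.e (nat_lit 414874) (nat_lit 0) .nil) .nil)))) (.nd (nat_lit 9) 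
(.lf (nat_lit 598382) (.g (nat_lit 2338) (.e (nat_lit 573485) (nat_lit 13) (.e (nat_lit 65619) (nat_lit 10) (.e (nat_lit 344117) (nat_lit 21) (.e (nat_lit 516144) (nat_lit 9) (.e (nat_lit 426402) (nat_lit 15) .nil))))) (.g (nat_lit 0) (.e (nat_lit 414562) (nat_lit 0) .nil) .nil))) 
(.lf (nat_lit 598894) (.g (nat_lit 1710) (.e (nat_lit 573488) (nat_lit 14) (.e (nat_lit 73753) (nat_lit 8) (.e (nat_lit 557105) (nat_lit 14) (.e (nat_lit 180252) (nat_lit 10) .nil)))) (.g (nat_lit 0) (.e (nat_lit 415529) (nat_lit 0) .nil) .nil))))) (.nd (nat_lit 8) (.nd (nat_lit 9) 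
(.lf (nat_lit 598254) (.g (nat_lit 3614) (.e (nat_lit 573485) (nat_lit 13) (.e (nat_lit 65604) (nat_lit 9) (.e (nat_lit 336013) (nat_lit 2) (.e (nat_lit 90170) (nat_lit 13) (.e (nat_lit 172052) (nat_lit 0) (.e (nat_lit 3409) (nat_lit 212) (.e (nat_lit 655373) (nat_lit 3) (.e (nat_lit 163978) (nat_lit 30) .nil)))))))) (.g (nat_lit 1) (.e (nat_lit 414394) (nat_lit 0) .nil) .nil))) 
(.lf (nat_lit 598766) (.g (nat_lit 2805) (.e (nat_lit 573487) (nat_lit 14) (.e (nat_lit 73753) (nat_lit 8) (.e (nat_lit 557091) (nat_lit 12) (.e (nat_lit 163843) (nat_lit 0) (.e (nat_lit 5940) (nat_lit 322) .nil))))) (.g (nat_lit 0) (.e (nat_lit 415142) (nat_lit 0) .nil) .nil)))) (.nd (nat_lit 9) 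
(.lf (nat_lit 598510) (.g (nat_lit 2306) (.e (nat_lit 573485) (nat_lit 13) (.e (nat_lit 65619) (nat_lit 10) (.e (nat_lit 344117) (nat_lit 21) (.e (nat_lit 516159) (nat_lit 10) (.e (nat_lit 434202) (nat_lit 18) .nil))))) (.g (nat_lit 0) (.e (nat_lit 414691) (nat_lit 0) .nil) .nil))) 
(.lf (nat_lit 599022) (.g (nat_lit 3689) (.e (nat_lit 573489) (nat_lit 14) (.e (nat_lit 73754) (nat_lit 8) (.e (nat_lit 557100) (nat_lit 13) (.e (nat_lit 172065) (nat_lit 3) (.e (nat_lit 204821) (nat_lit 17) (.e (nat_lit 2270) (nat_lit 149) (.e (nat_lit 761899) (nat_lit 15) (.e (nat_lit 163978) (nat_lit 30) .nil)))))))) (.g (nat_lit 1) (.e (nat_lit 415844) (nat_lit 0) .nil) .nil)))))))) 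
(.nd (nat_lit 5) (.nd (nat_lit 6) (.nd (nat_lit 7) (.nd (nat_lit 8) (.nd (nat_lit 9) 
(.lf (nat_lit 598046) (.g (nat_lit 2320) (.e (nat_lit 573484) (nat_lit 13) (.e (nat_lit 65610) (nat_lit 10) (.e (nat_lit 344117) (nat_lit 21) (.e (nat_lit 516171) (nat_lit 13) (.e (nat_lit 458774) (nat_lit 18) .nil))))) (.g (nat_lit 0) (.e (nat_lit 413955) (nat_lit 0) .nil) .nil))) 
(.lf (nat_lit 598558) (.g (nat_lit 1708) (.e (nat_lit 573485) (nat_lit 13) (.e (nat_lit 65619) (nat_lit 10) (.e (nat_lit 344126) (nat_lit 25) (.e (nat_lit 548874) (nat_lit 5) (.e (nat_lit 1575) (nat_lit 110) .nil))))) (.g (nat_lit 0) (.e (nat_lit 414747) (nat_lit 0) .nil) .nil)))) (.nd (nat_lit 9) 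
(.lf (nat_lit 598302) (.g (nat_lit 383) (.e (nat_lit 573485) (nat_lit 13) (.e (nat_lit 65604) (nat_lit 9) (.e (nat_lit 336028) (nat_lit 3) .nil))) (.g (nat_lit 0) (.e (nat_lit 414446) (nat_lit 0) .nil) .nil))) 
(.lf (nat_lit 598814) (.g (nat_lit 3710) (.e (nat_lit 573487) (nat_lit 14) (.e (nat_lit 73753) (nat_lit 8) (.e (nat_lit 557103) (nat_lit 14) (.e (nat_lit 180250) (nat_lit 10) (.e (nat_lit 573475) (nat_lit 12) (.e (nat_lit 57502) (nat_lit 38) (.e (nat_lit 638995) (nat_lit 7) (.e (nat_lit 163979) (nat_lit 30) .nil)))))))) (.g (nat_lit 1) (.e (nat_lit 415347) (nat_lit 0) .nil) .nil))))) 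
(.nd (nat_lit 8) (.nd (nat_lit 9) 
(.lf (nat_lit 598174) (.g (nat_lit 526) (.e (nat_lit 573485) (nat_lit 13) (.e (nat_lit 65568) (nat_lit 2) (.e (nat_lit 98048) (nat_lit 0) .nil))) (.g (nat_lit 0) (.e (nat_lit 414266) (nat_lit 0) .nil) .nil))) 
(.lf (nat_lit 598686) (.g (nat_lit 2713) (.e (nat_lit 573485) (nat_lit 13) (.e (nat_lit 65628) (nat_lit 14) (.e (nat_lit 401428) (nat_lit 3) (.e (nat_lit 204863) (nat_lit 27) (.e (nat_lit 344149) (nat_lit 33) .nil))))) (.g (nat_lit 0) (.e (nat_lit 414943) (nat_lit 0) .nil) .nil)))) (.nd (nat_lit 9) 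
(.lf (nat_lit 598430) (.g (nat_lit 2538) (.e (nat_lit 573485) (nat_lit 13) (.e (nat_lit 65619) (nat_lit 10) (.e (nat_lit 344117) (nat_lit 21) (.e (nat_lit 516151) (nat_lit 9) (.e (nat_lit 426022) (nat_lit 0) (.e (nat_lit 7936) (nat_lit 211) (.e (nat_lit 647181) (nat_lit 3) (.e (nat_lit 163977) (nat_lit 30) .nil)))))))) (.g (nat_lit 1) (.e (nat_lit 414610) (nat_lit 0) .nil) .nil))) 
(.lf (nat_lit 598942) (.g (nat_lit 2853) (.e (nat_lit 573488) (nat_lit 14) (.e (nat_lit 73755) (nat_lit 8) (.e (nat_lit 557103) (nat_lit 14) (.e (nat_lit 180250) (nat_lit 10) (.e (nat_lit 573473) (nat_lit 12) (.e (nat_lit 57504) (nat_lit 38) (.e (nat_lit 638994) (nat_lit 7) (.e (nat_lit 163976) (nat_lit 30) .nil)))))))) (.g (nat_lit 1) (.e (nat_lit 415643) (nat_lit 0) .nil) .nil)))))) 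
(.nd (nat_lit 7) (.nd (nat_lit 8) (.nd (nat_lit 9) 
(.lf (nat_lit 598110) (.g (nat_lit 2678) (.e (nat_lit 573484) (nat_lit 13) (.e (nat_lit 65610) (nat_lit 10) (.e (nat_lit 344129) (nat_lit 26) (.e (nat_lit 557087) (nat_lit 11) (.e (nat_lit 24630) (nat_lit 9) (.e (nat_lit 336240) (nat_lit 15) (.e (nat_lit 3309) (nat_lit 202) .nil))))))) (.g (nat_lit 1) (.e (nat_lit 414093) (nat_lit 0) .nil) .nil))) 
(.lf (nat_lit 598622) (.g (nat_lit 2859) (.e (nat_lit 573485) (nat_lit 13) (.e (nat_lit 65619) (nat_lit 10) (.e (nat_lit 344129) (nat_lit 26) (.e (nat_lit 557087) (nat_lit 11) (.e (nat_lit 24597) (nat_lit 1) (.e (nat_lit 57770) (nat_lit 227) (.e (nat_lit 2610) (nat_lit 163) (.e (nat_lit 163978) (nat_lit 30) .nil)))))))) (.g (nat_lit 1) (.e (nat_lit 414848) (nat_lit 0) .nil) .nil)))) 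
(.nd (nat_lit 9) 
(.lf (nat_lit 598366) (.g (nat_lit 3506) (.e (nat_lit 573485) (nat_lit 13) (.e (nat_lit 65619) (nat_lit 10) (.e (nat_lit 344117) (nat_lit 21) (.e (nat_lit 516106) (nat_lit 0) (.e (nat_lit 6986) (nat_lit 377) (.e (nat_lit 2779) (nat_lit 178) (.e (nat_lit 286765) (nat_lit 15) (.e (nat_lit 3295) (nat_lit 202) .nil)))))))) (.g (nat_lit 1) (.e (nat_lit 414539) (nat_lit 0) .nil) .nil))) 
(.lf (nat_lit 598878) (.g (nat_lit 2364) (.e (nat_lit 573488) (nat_lit 14) (.e (nat_lit 73747) (nat_lit 3) (.e (nat_lit 516115) (nat_lit 1) (.e (nat_lit 164196) (nat_lit 158) .nil)))) (.g (nat_lit 0) (.e (nat_lit 415500) (nat_lit 0) .nil) .nil))))) (.nd (nat_lit 8) (.nd (nat_lit 9) 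
(.lf (nat_lit 598238) (.g (nat_lit 2823) (.e (nat_lit 573485) (nat_lit 13) (.e (nat_lit 65604) (nat_lit 9) (.e (nat_lit 336013) (nat_lit 2) (.e (nat_lit 90170) (nat_lit 13) (.e (nat_lit 172046) (nat_lit 0) (.e (nat_lit 3407) (nat_lit 212) (.e (nat_lit 655375) (nat_lit 3) (.e (nat_lit 163977) (nat_lit 30) .nil)))))))) (.g (nat_lit 1) (.e (nat_lit 414377) (nat_lit 0) .nil) .nil))) 
(.lf (nat_lit 598750) (.g (nat_lit 2343) (.e (nat_lit 573487) (nat_lit 14) (.e (nat_lit 73753) (nat_lit 8) (.e (nat_lit 557090) (nat_lit 12) (.e (nat_lit 163844) (nat_lit 0) (.e (nat_lit 5934) (nat_lit 322) .nil))))) (.g (nat_lit 0) (.e (nat_lit 415107) (nat_lit 0) .nil) .nil)))) (.nd (nat_lit 9) 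
(.lf (nat_lit 598494) (.g (nat_lit 3353) (.e (nat_lit 573485) (nat_lit 13) (.e (nat_lit 65619) (nat_lit 10) (.e (nat_lit 344117) (nat_lit 21) (.e (nat_lit 516151) (nat_lit 9) (.e (nat_lit 426142) (nat_lit 4) (.e (nat_lit 229678) (nat_lit 244) (.e (nat_lit 163850) (nat_lit 0) (.e (nat_lit 3306) (nat_lit 202) .nil)))))))) (.g (nat_lit 1) (.e (nat_lit 414675) (nat_lit 0) .nil) .nil))) 
(.lf (nat_lit 599006) (.g (nat_lit 1953) (.e (nat_lit 573489) (nat_lit 14) (.e (nat_lit 73753) (nat_lit 8) (.e (nat_lit 557103) (nat_lit 14) (.e (nat_lit 180243) (nat_lit 5) .nil)))) (.g (nat_lit 0) (.e (nat_lit 415810) (nat_lit 0) .nil) .nil))))))) (.nd (nat_lit 6) (.nd (nat_lit 7) (.nd (nat_lit 8) (.nd (nat_lit 9) 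
(.lf (nat_lit 598078) (.g (nat_lit 3791) (.e (nat_lit 573484) (nat_lit 13) (.e (nat_lit 65610) (nat_lit 10) (.e (nat_lit 344117) (nat_lit 21) (.e (nat_lit 516185) (nat_lit 16) (.e (nat_lit 491556) (nat_lit 9) (.e (nat_lit 343808) (nat_lit 15) (.e (nat_lit 3307) (nat_lit 202) .nil))))))) (.g (nat_lit 1) (.e (nat_lit 414003) (nat_lit 0) .nil) .nil))) 
(.lf (nat_lit 598590) (.g (nat_lit 3085) (.e (nat_lit 573485) (nat_lit 13) (.e (nat_lit 65619) (nat_lit 10) (.e (nat_lit 344129) (nat_lit 26) (.e (nat_lit 557067) (nat_lit 9) (.e (nat_lit 249) (nat_lit 21) .nil))))) (.g (nat_lit 0) (.e (nat_lit 414801) (nat_lit 0) .nil) .nil)))) (.nd (nat_lit 9) 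
(.lf (nat_lit 598334) (.g (nat_lit 4134) (.e (nat_lit 573485) (nat_lit 13) (.e (nat_lit 65604) (nat_lit 9) (.e (nat_lit 336028) (nat_lit 3) (.e (nat_lit 98384) (nat_lit 32) (.e (nat_lit 475199) (nat_lit 40) (.e (nat_lit 704589) (nat_lit 3) (.e (nat_lit 163978) (nat_lit 30) .nil))))))) (.g (nat_lit 1) (.e (nat_lit 414493) (nat_lit 0) .nil) .nil))) 
(.lf (nat_lit 598846) (.g (nat_lit 2158) (.e (nat_lit 573487) (nat_lit 14) (.e (nat_lit 73754) (nat_lit 8) (.e (nat_lit 557105) (nat_lit 14) (.e (nat_lit 180252) (nat_lit 10) (.e (nat_lit 573473) (nat_lit 12) .nil))))) (.g (nat_lit 0) (.e (nat_lit 415399) (nat_lit 0) .nil) .nil))))) (.nd (nat_lit 8) (.nd (nat_lit 9) 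
(.lf (nat_lit 598206) (.g (nat_lit 2625) (.e (nat_lit 573485) (nat_lit 13) (.e (nat_lit 65604) (nat_lit 9) (.e (nat_lit 336013) (nat_lit 2) (.e (nat_lit 90170) (nat_lit 13) (.e (nat_lit 172034) (nat_lit 0) .nil))))) (.g (nat_lit 0) (.e (nat_lit 414339) (nat_lit 0) .nil) .nil))) 
(.lf (nat_lit 598718) (.g (nat_lit 2577) (.e (nat_lit 573486) (nat_lit 14) (.e (nat_lit 73753) (nat_lit 8) (.e (nat_lit 557098) (nat_lit 13) (.e (nat_lit 172064) (nat_lit 2) (.e (nat_lit 204544) (nat_lit 2) .nil))))) (.g (nat_lit 0) (.e (nat_lit 414984) (nat_lit 0) .nil) .nil)))) (.nd (nat_lit 9) 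
(.lf (nat_lit 598462) (.g (nat_lit 3503) (.e (nat_lit 573485) (nat_lit 13) (.e (nat_lit 65619) (nat_lit 10) (.e (nat_lit 344117) (nat_lit 21) (.e (nat_lit 516151) (nat_lit 9) (.e (nat_lit 426042) (nat_lit 0) (.e (nat_lit 2458) (nat_lit 157) (.e (nat_lit 5548) (nat_lit 306) (.e (nat_lit 2599) (nat_lit 163) (.e (nat_lit 163978) (nat_lit 30) .nil))))))))) (.g (nat_lit 1) (.e (nat_lit 414643) (nat_lit 0) .nil) .nil))) 
(.lf (nat_lit 598974) (.g (nat_lit 3380) (.e (nat_lit 573488) (nat_lit 14) (.e (nat_lit 73755) (nat_lit 8) (.e (nat_lit 557105) (nat_lit 14) (.e (nat_lit 180252) (nat_lit 10) (.e (nat_lit 573473) (nat_lit 12) (.e (nat_lit 57503) (nat_lit 38) (.e (nat_lit 638994) (nat_lit 7) (.e (nat_lit 163975) (nat_lit 30) .nil)))))))) (.g (nat_lit 1) (.e (nat_lit 415702) (nat_lit 0) .nil) .nil)))))) 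
(.nd (nat_lit 7) (.nd (nat_lit 8) (.nd (nat_lit 9) 
(.lf (nat_lit 598142) (.g (nat_lit 1602) (.e (nat_lit 573484) (nat_lit 13) (.e (nat_lit 65617) (nat_lit 10) (.e (nat_lit 344133) (nat_lit 26) (.e (nat_lit 557073) (nat_lit 9) (.e (nat_lit 290) (nat_lit 21) .nil))))) (.g (nat_lit 0) (.e (nat_lit 414184) (nat_lit 0) .nil) .nil))) 
(.lf (nat_lit 598654) (.g (nat_lit 1291) (.e (nat_lit 573485) (nat_lit 13) (.e (nat_lit 65619) (nat_lit 10) (.e (nat_lit 344129) (nat_lit 26) (.e (nat_lit 557090) (nat_lit 12) .nil)))) (.g (nat_lit 0) (.e (nat_lit 414891) (nat_lit 0) .nil) .nil)))) (.nd (nat_lit 9) 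
(.lf (nat_lit 598398) (.g (nat_lit 3483) (.e (nat_lit 573485) (nat_lit 13) (.e (nat_lit 65619) (nat_lit 10) (.e (nat_lit 344117) (nat_lit 21) (.e (nat_lit 516145) (nat_lit 9) (.e (nat_lit 426357) (nat_lit 15) .nil))))) (.g (nat_lit 0) (.e (nat_lit 414578) (nat_lit 0) .nil) .nil))) 
(.lf (nat_lit 598910) (.g (nat_lit 2939) (.e (nat_lit 573488) (nat_lit 14) (.e (nat_lit 73754) (nat_lit 8) (.e (nat_lit 557105) (nat_lit 14) (.e (nat_lit 180252) (nat_lit 10) (.e (nat_lit 573475) (nat_lit 12) (.e (nat_lit 57501) (nat_lit 37) (.e (nat_lit 630799) (nat_lit 7) (.e (nat_lit 163976) (nat_lit 30) .nil)))))))) (.g (nat_lit 1) (.e (nat_lit 415546) (nat_lit 0) .nil) .nil))))) 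
(.nd (nat_lit 8) (.nd (nat_lit 9) 
(.lf (nat_lit 598270) (.g (nat_lit 1874) (.e (nat_lit 573485) (nat_lit 13) (.e (nat_lit 65604) (nat_lit 9) (.e (nat_lit 336013) (nat_lit 2) (.e (nat_lit 90170) (nat_lit 13) (.e (nat_lit 172068) (nat_lit 4) .nil))))) (.g (nat_lit 0) (.e (nat_lit 414412) (nat_lit 0) .nil) .nil))) 
(.lf (nat_lit 598782) (.g (nat_lit 3107) (.e (nat_lit 573487) (nat_lit 14) (.e (nat_lit 73753) (nat_lit 8) (.e (nat_lit 557098) (nat_lit 13) (.e (nat_lit 172067) (nat_lit 3) (.e (nat_lit 204821) (nat_lit 17) (.e (nat_lit 2270) (nat_lit 149) (.e (nat_lit 761898) (nat_lit 15) (.e (nat_lit 163977) (nat_lit 30) .nil)))))))) (.g (nat_lit 1) (.e (nat_lit 415205) (nat_lit 0) .nil) .nil)))) 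
(.nd (nat_lit 9) 
(.lf (nat_lit 598526) (.g (nat_lit 2723) (.e (nat_lit 573485) (nat_lit 13) (.e (nat_lit 65619) (nat_lit 10) (.e (nat_lit 344117) (nat_lit 21) (.e (nat_lit 516160) (nat_lit 10) (.e (nat_lit 434275) (nat_lit 39) .nil))))) (.g (nat_lit 0) (.e (nat_lit 414707) (nat_lit 0) .nil) .nil))) 
(.lf (nat_lit 599038) (.g (nat_lit 450) (.e (nat_lit 573489) (nat_lit 14) (.e (nat_lit 73754) (nat_lit 8) (.e (nat_lit 557105) (nat_lit 14) .nil))) (.g (nat_lit 0) (.e (nat_lit 415884) (nat_lit 0) .nil) .nil)))))))))))) (.nd (nat_lit 1) (.nd (nat_lit 2) (.nd (nat_lit 3) (.nd (nat_lit 4) (.nd (nat_lit 5) (.nd (nat_lit 6) (.nd (nat_lit 7) (.nd (nat_lit 8) (.nd (nat_lit 9) 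
(.lf (nat_lit 598017) (.g (nat_lit 3229) (.e (nat_lit 573484) (nat_lit 13) (.e (nat_lit 65610) (nat_lit 10) (.e (nat_lit 344117) (nat_lit 21) (.e (nat_lit 516151) (nat_lit 9) (.e (nat_lit 426047) (nat_lit 0) (.e (nat_lit 2458) (nat_lit 157) (.e (nat_lit 5547) (nat_lit 306) (.e (nat_lit 2610) (nat_lit 163) (.e (nat_lit 163977) (nat_lit 30) .nil))))))))) (.g (nat_lit 1) (.e (nat_lit 413896) (nat_lit 0) .nil) .nil))) 
(.lf (nat_lit 598529) (.g (nat_lit 4767) (.e (nat_lit 573485) (nat_lit 13) (.e (nat_lit 65619) (nat_lit 10) (.e (nat_lit 344117) (nat_lit 21) (.e (nat_lit 516160) (nat_lit 10) (.e (nat_lit 434272) (nat_lit 38) (.e (nat_lit 655375) (nat_lit 3) (.e (nat_lit 163977) (nat_lit 30) .nil))))))) (.g (nat_lit 1) (.e (nat_lit 414710) (nat_lit 0) .nil) .nil)))) (.nd (nat_lit 9) 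
(.lf (nat_lit 598273) (.g (nat_lit 2551) (.e (nat_lit 573485) (nat_lit 13) (.e (nat_lit 65604) (nat_lit 9) (.e (nat_lit 336013) (nat_lit 2) (.e (nat_lit 90170) (nat_lit 13) (.e (nat_lit 172068) (nat_lit 4) (.e (nat_lit 229678) (nat_lit 244) (.e (nat_lit 163845) (nat_lit 0) (.e (nat_lit 3309) (nat_lit 202) .nil)))))))) (.g (nat_lit 1) (.e (nat_lit 414415) (nat_lit 0) .nil) .nil))) 
(.lf (nat_lit 598785) (.g (nat_lit 1770) (.e (nat_lit 573487) (nat_lit 14) (.e (nat_lit 73753) (nat_lit 8) (.e (nat_lit 557100) (nat_lit 13) (.e (nat_lit 172065) (nat_lit 3) .nil)))) (.g (nat_lit 0) (.e (nat_lit 415231) (nat_lit 0) .nil) .nil))))) (.nd (nat_lit 8) (.nd (nat_lit 9) 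
(.lf (nat_lit 598145) (.g (nat_lit 2415) (.e (nat_lit 573484) (nat_lit 13) (.e (nat_lit 65617) (nat_lit 10) (.e (nat_lit 344133) (nat_lit 26) (.e (nat_lit 557086) (nat_lit 11) (.e (nat_lit 24631) (nat_lit 9) (.e (nat_lit 336295) (nat_lit 15) (.e (nat_lit 3305) (nat_lit 202) .nil))))))) (.g (nat_lit 1) (.e (nat_lit 414190) (nat_lit 0) .nil) .nil))) 
(.lf (nat_lit 598657) (.g (nat_lit 3770) (.e (nat_lit 573485) (nat_lit 13) (.e (nat_lit 65619) (nat_lit 10) (.e (nat_lit 344183) (nat_lit 49) (.e (nat_lit 819219) (nat_lit 4) (.e (nat_lit 172082) (nat_lit 7) (.e (nat_lit 409617) (nat_lit 10) (.e (nat_lit 632) (nat_lit 50) .nil))))))) (.g (nat_lit 1) (.e (nat_lit 414897) (nat_lit 0) .nil) .nil)))) (.nd (nat_lit 9) 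
(.lf (nat_lit 598401) (.g (nat_lit 3476) (.e (nat_lit 573485) (nat_lit 13) (.e (nat_lit 65619) (nat_lit 10) (.e (nat_lit 344117) (nat_lit 21) (.e (nat_lit 516145) (nat_lit 9) (.e (nat_lit 426362) (nat_lit 15) .nil))))) (.g (nat_lit 0) (.e (nat_lit 414581) (nat_lit 0) .nil) .nil))) 
(.lf (nat_lit 598913) (.g (nat_lit 1755) (.e (nat_lit 573488) (nat_lit 14) (.e (nat_lit 73755) (nat_lit 8) (.e (nat_lit 557067) (nat_lit 9) (.e (nat_lit 2604) (nat_lit 163) .nil)))) (.g (nat_lit 0) (.e (nat_lit 415549) (nat_lit 0) .nil) .nil)))))) (.nd (nat_lit 7) (.nd (nat_lit 8) (.nd (nat_lit 9) 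
(.lf (nat_lit 598081) (.g (nat_lit 392) (.e (nat_lit 573484) (nat_lit 13) (.e (nat_lit 65610) (nat_lit 10) (.e (nat_lit 344126) (nat_lit 25) .nil))) (.g (nat_lit 0) (.e (nat_lit 414007) (nat_lit 0) .nil) .nil))) 
(.lf (nat_lit 598593) (.g (nat_lit 2533) (.e (nat_lit 573485) (nat_lit 13) (.e (nat_lit 65619) (nat_lit 10) (.e (nat_lit 344129) (nat_lit 26) (.e (nat_lit 557068) (nat_lit 9) (.e (nat_lit 290) (nat_lit 21) .nil))))) (.g (nat_lit 0) (.e (nat_lit 414805) (nat_lit 0) .nil) .nil)))) (.nd (nat_lit 9) 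
(.lf (nat_lit 598337) (.g (nat_lit 1316) (.e (nat_lit 573485) (nat_lit 13) (.e (nat_lit 65604) (nat_lit 9) (.e (nat_lit 336028) (nat_lit 3) (.e (nat_lit 98389) (nat_lit 33) .nil)))) (.g (nat_lit 0) (.e (nat_lit 414497) (nat_lit 0) .nil) .nil))) 
(.lf (nat_lit 598849) (.g (nat_lit 1894) (.e (nat_lit 573487) (nat_lit 14) (.e (nat_lit 73755) (nat_lit 8) (.e (nat_lit 557091) (nat_lit 12) (.e (nat_lit 164005) (nat_lit 41) .nil)))) (.g (nat_lit 0) (.e (nat_lit 415403) (nat_lit 0) .nil) .nil))))) (.nd (nat_lit 8) (.nd (nat_lit 9) 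
(.lf (nat_lit 598209) (.g (nat_lit 2849) (.e (nat_lit 573485) (nat_lit 13) (.e (nat_lit 65604) (nat_lit 9) (.e (nat_lit 336013) (nat_lit 2) (.e (nat_lit 90170) (nat_lit 13) (.e (nat_lit 172036) (nat_lit 0) (.e (nat_lit 3401) (nat_lit 211) (.e (nat_lit 647181) (nat_lit 3) (.e (nat_lit 163978) (nat_lit 30) .nil)))))))) (.g (nat_lit 1) (.e (nat_lit 414342) (nat_lit 0) .nil) .nil))) 
(.lf (nat_lit 598721) (.g (nat_lit 2181) (.e (nat_lit 573486) (nat_lit 14) (.e (nat_lit 73754) (nat_lit 8) (.e (nat_lit 557100) (nat_lit 13) (.e (nat_lit 172062) (nat_lit 2) .nil)))) (.g (nat_lit 0) (.e (nat_lit 414990) (nat_lit 0) .nil) .nil)))) (.nd (nat_lit 9) 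
(.lf (nat_lit 598465) (.g (nat_lit 3334) (.e (nat_lit 573485) (nat_lit 13) (.e (nat_lit 65619) (nat_lit 10) (.e (nat_lit 344117) (nat_lit 21) (.e (nat_lit 516151) (nat_lit 9) (.e (nat_lit 426042) (nat_lit 0) (.e (nat_lit 2458) (nat_lit 157) (.e (nat_lit 5548) (nat_lit 306) (.e (nat_lit 2611) (nat_lit 163) (.e (nat_lit 163977) (nat_lit 30) .nil))))))))) (.g (nat_lit 1) (.e (nat_lit 414646) (nat_lit 0) .nil) .nil))) 
(.lf (nat_lit 598977) (.g (nat_lit 4160) (.e (nat_lit 573488) (nat_lit 14) (.e (nat_lit 73755) (nat_lit 8) (.e (nat_lit 557105) (nat_lit 14) (.e (nat_lit 180252) (nat_lit 10) (.e (nat_lit 573474) (nat_lit 12) (.e (nat_lit 57503) (nat_lit 38) (.e (nat_lit 638994) (nat_lit 7) (.e (nat_lit 163975) (nat_lit 30) .nil)))))))) (.g (nat_lit 1) (.e (nat_lit 415705) (nat_lit 0) .nil) .nil))))))) 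
(.nd (nat_lit 6) (.nd (nat_lit 7) (.nd (nat_lit 8) (.nd (nat_lit 9) 
(.lf (nat_lit 598049) (.g (nat_lit 3690) (.e (nat_lit 573484) (nat_lit 13) (.e (nat_lit 65610) (nat_lit 10) (.e (nat_lit 344117) (nat_lit 21) (.e (nat_lit 516178) (nat_lit 15) (.e (nat_lit 475210) (nat_lit 41) (.e (nat_lit 712722) (nat_lit 15) (.e (nat_lit 3295) (nat_lit 202) .nil))))))) (.g (nat_lit 1) (.e (nat_lit 413958) (nat_lit 0) .nil) .nil))) 
(.lf (nat_lit 598561) (.g (nat_lit 3125) (.e (nat_lit 573485) (nat_lit 13) (.e (nat_lit 65619) (nat_lit 10) (.e (nat_lit 344126) (nat_lit 25) (.e (nat_lit 548889) (nat_lit 9) (.e (nat_lit 65592) (nat_lit 9) (.e (nat_lit 336295) (nat_lit 15) (.e (nat_lit 3305) (nat_lit 202) .nil))))))) (.g (nat_lit 1) (.e (nat_lit 414757) (nat_lit 0) .nil) .nil)))) (.nd (nat_lit 9) 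
(.lf (nat_lit 598305) (.g (nat_lit 994) (.e (nat_lit 573485) (nat_lit 13) (.e (nat_lit 65604) (nat_lit 9) (.e (nat_lit 336028) (nat_lit 3) (.e (nat_lit 106240) (nat_lit 17) .nil)))) (.g (nat_lit 0) (.e (nat_lit 414451) (nat_lit 0) .nil) .nil))) 
(.lf (nat_lit 598817) (.g (nat_lit 2915) (.e (nat_lit 573487) (nat_lit 14) (.e (nat_lit 73753) (nat_lit 8) (.e (nat_lit 557103) (nat_lit 14) (.e (nat_lit 180250) (nat_lit 10) (.e (nat_lit 573478) (nat_lit 12) (.e (nat_lit 57502) (nat_lit 38) (.e (nat_lit 638995) (nat_lit 7) (.e (nat_lit 163977) (nat_lit 30) .nil)))))))) (.g (nat_lit 1) (.e (nat_lit 415350) (nat_lit 0) .nil) .nil))))) 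
(.nd (nat_lit 8) (.nd (nat_lit 9) 
(.lf (nat_lit 598177) (.g (nat_lit 1102) (.e (nat_lit 573485) (nat_lit 13) (.e (nat_lit 65571) (nat_lit 3) (.e (nat_lit 98320) (nat_lit 17) .nil))) (.g (nat_lit 0) (.e (nat_lit 414291) (nat_lit 0) .nil) .nil))) 
(.lf (nat_lit 598689) (.g (nat_lit 1263) (.e (nat_lit 573485) (nat_lit 13) (.e (nat_lit 65628) (nat_lit 14) (.e (nat_lit 401428) (nat_lit 3) (.e (nat_lit 204875) (nat_lit 31) .nil)))) (.g (nat_lit 0) (.e (nat_lit 414946) (nat_lit 0) .nil) .nil)))) (.nd (nat_lit 9) 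
(.lf (nat_lit 598433) (.g (nat_lit 3931) (.e (nat_lit 573485) (nat_lit 13) (.e (nat_lit 65619) (nat_lit 10) (.e (nat_lit 344117) (nat_lit 21) (.e (nat_lit 516151) (nat_lit 9) (.e (nat_lit 426034) (nat_lit 0) .nil))))) (.g (nat_lit 0) (.e (nat_lit 414613) (nat_lit 0) .nil) .nil))) 
(.lf (nat_lit 598945) (.g (nat_lit 3386) (.e (nat_lit 573488) (nat_lit 14) (.e (nat_lit 73755) (nat_lit 8) (.e (nat_lit 557103) (nat_lit 14) (.e (nat_lit 180250) (nat_lit 10) (.e (nat_lit 573475) (nat_lit 12) (.e (nat_lit 57501) (nat_lit 37) (.e (nat_lit 630799) (nat_lit 7) (.e (nat_lit 163976) (nat_lit 30) .nil)))))))) (.g (nat_lit 1) (.e (nat_lit 415646) (nat_lit 0) .nil) .nil)))))) 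
(.nd (nat_lit 7) (.nd (nat_lit 8) (.nd (nat_lit 9) 
(.lf (nat_lit 598113) (.g (nat_lit 3681) (.e (nat_lit 573484) (nat_lit 13) (.e (nat_lit 65610) (nat_lit 10) (.e (nat_lit 344129) (nat_lit 26) (.e (nat_lit 557087) (nat_lit 11) (.e (nat_lit 24648) (nat_lit 12) (.e (nat_lit 385074) (nat_lit 31) .nil)))))) (.g (nat_lit 1) (.e (nat_lit 414096) (nat_lit 0) .nil) .nil))) 
(.lf (nat_lit 598625) (.g (nat_lit 1792) (.e (nat_lit 573485) (nat_lit 13) (.e (nat_lit 65619) (nat_lit 10) (.e (nat_lit 344129) (nat_lit 26) (.e (nat_lit 557087) (nat_lit 11) (.e (nat_lit 24623) (nat_lit 9) .nil))))) (.g (nat_lit 0) (.e (nat_lit 414861) (nat_lit 0) .nil) .nil)))) (.nd (nat_lit 9) 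
(.lf (nat_lit 598369) (.g (nat_lit 3576) (.e (nat_lit 573485) (nat_lit 13) (.e (nat_lit 65619) (nat_lit 10) (.e (nat_lit 344117) (nat_lit 21) (.e (nat_lit 516106) (nat_lit 0) (.e (nat_lit 6986) (nat_lit 377) (.e (nat_lit 2781) (nat_lit 178) (.e (nat_lit 286765) (nat_lit 15) (.e (nat_lit 3295) (nat_lit 202) .nil)))))))) (.g (nat_lit 1) (.e (nat_lit 414542) (nat_lit 0) .nil) .nil))) 
(.lf (nat_lit 598881) (.g (nat_lit 1956) (.e (nat_lit 573488) (nat_lit 14) (.e (nat_lit 73747) (nat_lit 3) (.e (nat_lit 516120) (nat_lit 1) (.e (nat_lit 171776) (nat_lit 160) .nil)))) (.g (nat_lit 0) (.e (nat_lit 415503) (nat_lit 0) .nil) .nil))))) (.nd (nat_lit 8) (.nd (nat_lit 9) 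
(.lf (nat_lit 598241) (.g (nat_lit 3386) (.e (nat_lit 573485) (nat_lit 13) (.e (nat_lit 65604) (nat_lit 9) (.e (nat_lit 336013) (nat_lit 2) (.e (nat_lit 90170) (nat_lit 13) (.e (nat_lit 172048) (nat_lit 0) (.e (nat_lit 3409) (nat_lit 212) (.e (nat_lit 655375) (nat_lit 3) (.e (nat_lit 163977) (nat_lit 30) .nil)))))))) (.g (nat_lit 1) (.e (nat_lit 414380) (nat_lit 0) .nil) .nil))) 
(.lf (nat_lit 598753) (.g (nat_lit 2231) (.e (nat_lit 573487) (nat_lit 14) (.e (nat_lit 73753) (nat_lit 8) (.e (nat_lit 557090) (nat_lit 12) (.e (nat_lit 163844) (nat_lit 0) (.e (nat_lit 5941) (nat_lit 322) .nil))))) (.g (nat_lit 0) (.e (nat_lit 415110) (nat_lit 0) .nil) .nil)))) (.nd (nat_lit 9) 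
(.lf (nat_lit 598497) (.g (nat_lit 3827) (.e (nat_lit 573485) (nat_lit 13) (.e (nat_lit 65619) (nat_lit 10) (.e (nat_lit 344117) (nat_lit 21) (.e (nat_lit 516151) (nat_lit 9) (.e (nat_lit 426367) (nat_lit 15) .nil))))) (.g (nat_lit 0) (.e (nat_lit 414678) (nat_lit 0) .nil) .nil))) 
(.lf (nat_lit 599009) (.g (nat_lit 3076) (.e (nat_lit 573489) (nat_lit 14) (.e (nat_lit 73753) (nat_lit 8) (.e (nat_lit 557103) (nat_lit 14) (.e (nat_lit 180251) (nat_lit 10) (.e (nat_lit 573475) (nat_lit 12) .nil))))) (.g (nat_lit 0) (.e (nat_lit 415815) (nat_lit 0) .nil) .nil)))))))) (.nd (nat_lit 5) (.nd (nat_lit 6) (.nd (nat_lit 7) (.nd (nat_lit 8) (.nd (nat_lit 9) 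
(.lf (nat_lit 598033) (.g (nat_lit 2816) (.e (nat_lit 573484) (nat_lit 13) (.e (nat_lit 65610) (nat_lit 10) (.e (nat_lit 344117) (nat_lit 21) (.e (nat_lit 516151) (nat_lit 9) (.e (nat_lit 426406) (nat_lit 15) .nil))))) (.g (nat_lit 0) (.e (nat_lit 413924) (nat_lit 0) .nil) .nil))) 
(.lf (nat_lit 598545) (.g (nat_lit 4267) (.e (nat_lit 573485) (nat_lit 13) (.e (nat_lit 65619) (nat_lit 10) (.e (nat_lit 344117) (nat_lit 21) (.e (nat_lit 516185) (nat_lit 16) (.e (nat_lit 491549) (nat_lit 9) (.e (nat_lit 336240) (nat_lit 15) (.e (nat_lit 3309) (nat_lit 202) .nil))))))) (.g (nat_lit 1) (.e (nat_lit 414731) (nat_lit 0) .nil) .nil)))) (.nd (nat_lit 9) 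
(.lf (nat_lit 598289) (.g (nat_lit 3061) (.e (nat_lit 573485) (nat_lit 13) (.e (nat_lit 65604) (nat_lit 9) (.e (nat_lit 336013) (nat_lit 2) (.e (nat_lit 90170) (nat_lit 13) (.e (nat_lit 172137) (nat_lit 15) (.e (nat_lit 2056) (nat_lit 142) (.e (nat_lit 704589) (nat_lit 3) (.e (nat_lit 163978) (nat_lit 30) .nil)))))))) (.g (nat_lit 1) (.e (nat_lit 414431) (nat_lit 0) .nil) .nil))) 
(.lf (nat_lit 598801) (.g (nat_lit 2545) (.e (nat_lit 573487) (nat_lit 14) (.e (nat_lit 73753) (nat_lit 8) (.e (nat_lit 557103) (nat_lit 14) (.e (nat_lit 180243) (nat_lit 5) (.e (nat_lit 532489) (nat_lit 0) .nil))))) (.g (nat_lit 0) (.e (nat_lit 415287) (nat_lit 0) .nil) .nil))))) (.nd (nat_lit 8) (.nd (nat_lit 9) 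
(.lf (nat_lit 598161) (.g (nat_lit 1210) (.e (nat_lit 573484) (nat_lit 13) (.e (nat_lit 65628) (nat_lit 14) (.e (nat_lit 401412) (nat_lit 0) (.e (nat_lit 3114) (nat_lit 193) (.e (nat_lit 500075) (nat_lit 20) .nil))))) (.g (nat_lit 0) (.e (nat_lit 414223) (nat_lit 0) .nil) .nil))) 
(.lf (nat_lit 598673) (.g (nat_lit 2374) (.e (nat_lit 573485) (nat_lit 13) (.e (nat_lit 65628) (nat_lit 14) (.e (nat_lit 401425) (nat_lit 2) (.e (nat_lit 196672) (nat_lit 15) (.e (nat_lit 81922) (nat_lit 0) .nil))))) (.g (nat_lit 0) (.e (nat_lit 414929) (nat_lit 0) .nil) .nil)))) (.nd (nat_lit 9) 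
(.lf (nat_lit 598417) (.g (nat_lit 3329) (.e (nat_lit 573485) (nat_lit 13) (.e (nat_lit 65619) (nat_lit 10) (.e (nat_lit 344117) (nat_lit 21) (.e (nat_lit 516145) (nat_lit 9) (.e (nat_lit 426466) (nat_lit 24) (.e (nat_lit 163584) (nat_lit 3) (.e (nat_lit 163978) (nat_lit 30) .nil))))))) (.g (nat_lit 1) (.e (nat_lit 414597) (nat_lit 0) .nil) .nil))) 
(.lf (nat_lit 598929) (.g (nat_lit 2487) (.e (nat_lit 573488) (nat_lit 14) (.e (nat_lit 73755) (nat_lit 8) (.e (nat_lit 557098) (nat_lit 13) (.e (nat_lit 172064) (nat_lit 2) (.e (nat_lit 204544) (nat_lit 2) .nil))))) (.g (nat_lit 0) (.e (nat_lit 415596) (nat_lit 0) .nil) .nil)))))) (.nd (nat_lit 7) (.nd (nat_lit 8) (.nd (nat_lit 9) 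
(.lf (nat_lit 598097) (.g (nat_lit 1933) (.e (nat_lit 573484) (nat_lit 13) (.e (nat_lit 65610) (nat_lit 10) (.e (nat_lit 344129) (nat_lit 26) (.e (nat_lit 564992) (nat_lit 9) .nil)))) (.g (nat_lit 0) (.e (nat_lit 414076) (nat_lit 0) .nil) .nil))) 
(.lf (nat_lit 598609) (.g (nat_lit 2343) (.e (nat_lit 573485) (nat_lit 13) (.e (nat_lit 65619) (nat_lit 10) (.e (nat_lit 344129) (nat_lit 26) (.e (nat_lit 557085) (nat_lit 11) (.e (nat_lit 24650) (nat_lit 12) .nil))))) (.g (nat_lit 0) (.e (nat_lit 414826) (nat_lit 0) .nil) .nil)))) (.nd (nat_lit 9) 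
(.lf (nat_lit 598353) (.g (nat_lit 2071) (.e (nat_lit 573485) (nat_lit 13) (.e (nat_lit 65619) (nat_lit 10) (.e (nat_lit 344117) (nat_lit 21) (.e (nat_lit 516097) (nat_lit 0) (.e (nat_lit 7562) (nat_lit 402) .nil))))) (.g (nat_lit 0) (.e (nat_lit 414518) (nat_lit 0) .nil) .nil))) 
(.lf (nat_lit 598865) (.g (nat_lit 1496) (.e (nat_lit 573487) (nat_lit 14) (.e (nat_lit 73781) (nat_lit 32) (.e (nat_lit 2664) (nat_lit 167) (.e (nat_lit 196630) (nat_lit 9) (.e (nat_lit 1573) (nat_lit 110) .nil))))) (.g (nat_lit 0) (.e (nat_lit 415425) (nat_lit 0) .nil) .nil))))) (.nd (nat_lit 8) (.nd (nat_lit 9) 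
(.lf (nat_lit 598225) (.g (nat_lit 3334) (.e (nat_lit 573485) (nat_lit 13) (.e (nat_lit 65604) (nat_lit 9) (.e (nat_lit 336013) (nat_lit 2) (.e (nat_lit 90170) (nat_lit 13) (.e (nat_lit 172043) (nat_lit 0) .nil))))) (.g (nat_lit 0) (.e (nat_lit 414359) (nat_lit 0) .nil) .nil))) 
(.lf (nat_lit 598737) (.g (nat_lit 1752) (.e (nat_lit 573487) (nat_lit 14) (.e (nat_lit 73747) (nat_lit 3) (.e (nat_lit 516117) (nat_lit 1) (.e (nat_lit 171776) (nat_lit 160) .nil)))) (.g (nat_lit 0) (.e (nat_lit 415045) (nat_lit 0) .nil) .nil)))) (.nd (nat_lit 9) 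
(.lf (nat_lit 598481) (.g (nat_lit 5317) (.e (nat_lit 573485) (nat_lit 13) (.e (nat_lit 65619) (nat_lit 10) (.e (nat_lit 344117) (nat_lit 21) (.e (nat_lit 516151) (nat_lit 9) (.e (nat_lit 426097) (nat_lit 1) (.e (nat_lit 164348) (nat_lit 240) (.e (nat_lit 2610) (nat_lit 163) (.e (nat_lit 163978) (nat_lit 30) .nil)))))))) (.g (nat_lit 1) (.e (nat_lit 414662) (nat_lit 0) .nil) .nil))) 
(.lf (nat_lit 598993) (.g (nat_lit 1810) (.e (nat_lit 573488) (nat_lit 14) (.e (nat_lit 73782) (nat_lit 32) (.e (nat_lit 2664) (nat_lit 167) (.e (nat_lit 196672) (nat_lit 15) (.e (nat_lit 81922) (nat_lit 0) .nil))))) (.g (nat_lit 0) (.e (nat_lit 415759) (nat_lit 0) .nil) .nil))))))) (.nd (nat_lit 6) (.nd (nat_lit 7) (.nd (nat_lit 8) (.nd (nat_lit 9) 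
(.lf (nat_lit 598065) (.g (nat_lit 4607) (.e (nat_lit 573484) (nat_lit 13) (.e (nat_lit 65610) (nat_lit 10) (.e (nat_lit 344117) (nat_lit 21) (.e (nat_lit 516183) (nat_lit 16) (.e (nat_lit 491549) (nat_lit 9) (.e (nat_lit 336306) (nat_lit 15) (.e (nat_lit 3307) (nat_lit 202) .nil))))))) (.g (nat_lit 1) (.e (nat_lit 413989) (nat_lit 0) .nil) .nil))) 
(.lf (nat_lit 598577) (.g (nat_lit 1815) (.e (nat_lit 573485) (nat_lit 13) (.e (nat_lit 65619) (nat_lit 10) (.e (nat_lit 344129) (nat_lit 26) (.e (nat_lit 557065) (nat_lit 9) (.e (nat_lit 312) (nat_lit 23) .nil))))) (.g (nat_lit 0) (.e (nat_lit 414778) (nat_lit 0) .nil) .nil)))) (.nd (nat_lit 9) 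
(.lf (nat_lit 598321) (.g (nat_lit 2279) (.e (nat_lit 573485) (nat_lit 13) (.e (nat_lit 65604) (nat_lit 9) (.e (nat_lit 336028) (nat_lit 3) (.e (nat_lit 98363) (nat_lit 26) (.e (nat_lit 426443) (nat_lit 19) .nil))))) (.g (nat_lit 0) (.e (nat_lit 414474) (nat_lit 0) .nil) .nil))) 
(.lf (nat_lit 598833) (.g (nat_lit 2827) (.e (nat_lit 573487) (nat_lit 14) (.e (nat_lit 73753) (nat_lit 8) (.e (nat_lit 557105) (nat_lit 14) (.e (nat_lit 180252) (nat_lit 10) (.e (nat_lit 573475) (nat_lit 12) (.e (nat_lit 57502) (nat_lit 38) (.e (nat_lit 638994) (nat_lit 7) (.e (nat_lit 163976) (nat_lit 30) .nil)))))))) (.g (nat_lit 1) (.e (nat_lit 415384) (nat_lit 0) .nil) .nil))))) 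
(.nd (nat_lit 8) (.nd (nat_lit 9) 
(.lf (nat_lit 598193) (.g (nat_lit 4063) (.e (nat_lit 573485) (nat_lit 13) (.e (nat_lit 65604) (nat_lit 9) (.e (nat_lit 336013) (nat_lit 2) (.e (nat_lit 90138) (nat_lit 9) .nil)))) (.g (nat_lit 0) (.e (nat_lit 414326) (nat_lit 0) .nil) .nil))) 
(.lf (nat_lit 598705) (.g (nat_lit 2199) (.e (nat_lit 573485) (nat_lit 13) (.e (nat_lit 65630) (nat_lit 14) (.e (nat_lit 401425) (nat_lit 2) (.e (nat_lit 196681) (nat_lit 17) (.e (nat_lit 131119) (nat_lit 12) .nil))))) (.g (nat_lit 0) (.e (nat_lit 414963) (nat_lit 0) .nil) .nil)))) (.nd (nat_lit 9) 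
(.lf (nat_lit 598449) (.g (nat_lit 4014) (.e (nat_lit 573485) (nat_lit 13) (.e (nat_lit 65619) (nat_lit 10) (.e (nat_lit 344117) (nat_lit 21) (.e (nat_lit 516151) (nat_lit 9) (.e (nat_lit 426039) (nat_lit 0) (.e (nat_lit 2458) (nat_lit 157) (.e (nat_lit 5546) (nat_lit 306) (.e (nat_lit 2599) (nat_lit 163) (.e (nat_lit 163978) (nat_lit 30) .nil))))))))) (.g (nat_lit 1) (.e (nat_lit 414629) (nat_lit 0) .nil) .nil))) 
(.lf (nat_lit 598961) (.g (nat_lit 2576) (.e (nat_lit 573488) (nat_lit 14) (.e (nat_lit 73755) (nat_lit 8) (.e (nat_lit 557104) (nat_lit 14) (.e (nat_lit 180252) (nat_lit 10) (.e (nat_lit 573473) (nat_lit 12) (.e (nat_lit 57503) (nat_lit 38) (.e (nat_lit 638994) (nat_lit 7) (.e (nat_lit 163975) (nat_lit 30) .nil)))))))) (.g (nat_lit 1) (.e (nat_lit 415683) (nat_lit 0) .nil) .nil)))))) 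
(.nd (nat_lit 7) (.nd (nat_lit 8) (.nd (nat_lit 9) 
(.lf (nat_lit 598129) (.g (nat_lit 4324) (.e (nat_lit 573484) (nat_lit 13) (.e (nat_lit 65617) (nat_lit 10) (.e (nat_lit 344130) (nat_lit 26) (.e (nat_lit 557087) (nat_lit 11) (.e (nat_lit 24625) (nat_lit 9) (.e (nat_lit 336263) (nat_lit 15) (.e (nat_lit 3305) (nat_lit 202) .nil))))))) (.g (nat_lit 1) (.e (nat_lit 414145) (nat_lit 0) .nil) .nil))) 
(.lf (nat_lit 598641) (.g (nat_lit 2875) (.e (nat_lit 573485) (nat_lit 13) (.e (nat_lit 65619) (nat_lit 10) (.e (nat_lit 344129) (nat_lit 26) (.e (nat_lit 557087) (nat_lit 11) (.e (nat_lit 24633) (nat_lit 9) .nil))))) (.g (nat_lit 0) (.e (nat_lit 414877) (nat_lit 0) .nil) .nil)))) (.nd (nat_lit 9) 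
(.lf (nat_lit 598385) (.g (nat_lit 3469) (.e (nat_lit 573485) (nat_lit 13) (.e (nat_lit 65619) (nat_lit 10) (.e (nat_lit 344117) (nat_lit 21) (.e (nat_lit 516145) (nat_lit 9) (.e (nat_lit 425996) (nat_lit 0) .nil))))) (.g (nat_lit 0) (.e (nat_lit 414565) (nat_lit 0) .nil) .nil))) 
(.lf (nat_lit 598897) (.g (nat_lit 1850) (.e (nat_lit 573488) (nat_lit 14) (.e (nat_lit 73754) (nat_lit 8) (.e (nat_lit 557100) (nat_lit 13) (.e (nat_lit 172064) (nat_lit 2) (.e (nat_lit 204544) (nat_lit 2) .nil))))) (.g (nat_lit 0) (.e (nat_lit 415532) (nat_lit 0) .nil) .nil))))) (.nd (nat_lit 8) (.nd (nat_lit 9) 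
(.lf (nat_lit 598257) (.g (nat_lit 3836) (.e (nat_lit 573485) (nat_lit 13) (.e (nat_lit 65604) (nat_lit 9) (.e (nat_lit 336013) (nat_lit 2) (.e (nat_lit 90170) (nat_lit 13) (.e (nat_lit 172059) (nat_lit 1) (.e (nat_lit 164345) (nat_lit 240) (.e (nat_lit 2600) (nat_lit 163) (.e (nat_lit 163977) (nat_lit 30) .nil)))))))) (.g (nat_lit 1) (.e (nat_lit 414397) (nat_lit 0) .nil) .nil))) 
(.lf (nat_lit 598769) (.g (nat_lit 1580) (.e (nat_lit 573487) (nat_lit 14) (.e (nat_lit 73753) (nat_lit 8) (.e (nat_lit 557091) (nat_lit 12) (.e (nat_lit 164006) (nat_lit 41) .nil)))) (.g (nat_lit 0) (.e (nat_lit 415149) (nat_lit 0) .nil) .nil)))) (.nd (nat_lit 9) 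
(.lf (nat_lit 598513) (.g (nat_lit 2277) (.e (nat_lit 573485) (nat_lit 13) (.e (nat_lit 65619) (nat_lit 10) (.e (nat_lit 344117) (nat_lit 21) (.e (nat_lit 516159) (nat_lit 10) (.e (nat_lit 434212) (nat_lit 18) .nil))))) (.g (nat_lit 0) (.e (nat_lit 414694) (nat_lit 0) .nil) .nil))) 
(.lf (nat_lit 599025) (.g (nat_lit 3404) (.e (nat_lit 573489) (nat_lit 14) (.e (nat_lit 73754) (nat_lit 8) (.e (nat_lit 557100) (nat_lit 13) (.e (nat_lit 172067) (nat_lit 3) (.e (nat_lit 204817) (nat_lit 17) (.e (nat_lit 2272) (nat_lit 149) (.e (nat_lit 761899) (nat_lit 15) (.e (nat_lit 163977) (nat_lit 30) .nil)))))))) (.g (nat_lit 1) (.e (nat_lit 415849) (nat_lit 0) .nil) .nil))))))))) 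
(.nd (nat_lit 4) (.nd (nat_lit 5) (.nd (nat_lit 6) (.nd (nat_lit 7) (.nd (nat_lit 8) 
(.nd (nat_lit 9) 
(.lf (nat_lit 598025) (.g (nat_lit 3905) (.e (nat_lit 573484) (nat_lit 13) (.e (nat_lit 65610) (nat_lit 10) (.e (nat_lit 344117) (nat_lit 21) (.e (nat_lit 516151) (nat_lit 9) (.e (nat_lit 426047) (nat_lit 0) (.e (nat_lit 3409) (nat_lit 212) (.e (nat_lit 655375) (nat_lit 3) (.e (nat_lit 163977) (nat_lit 30) .nil)))))))) (.g (nat_lit 1) (.e (nat_lit 413910) (nat_lit 0) .nil) .nil))) 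
(.lf (nat_lit 598537) (.g (nat_lit 3986) (.e (nat_lit 573485) (nat_lit 13) (.e (nat_lit 65619) (nat_lit 10) (.e (nat_lit 344117) (nat_lit 21) (.e (nat_lit 516180) (nat_lit 15) (.e (nat_lit 475210) (nat_lit 41) (.e (nat_lit 712722) (nat_lit 15) (.e (nat_lit 3302) (nat_lit 202) .nil))))))) (.g (nat_lit 1) (.e (nat_lit 414723) (nat_lit 0) .nil) .nil)))) (.nd (nat_lit 9) 
(.lf (nat_lit 598281) (.g (nat_lit 3466) (.e (nat_lit 573485) (nat_lit 13) (.e (nat_lit 65604) (nat_lit 9) (.e (nat_lit 336013) (nat_lit 2) (.e (nat_lit 90170) (nat_lit 13) (.e (nat_lit 172070) (nat_lit 4) (.e (nat_lit 229663) (nat_lit 240) (.e (nat_lit 2604) (nat_lit 163) (.e (nat_lit 163977) (nat_lit 30) .nil)))))))) (.g (nat_lit 1) (.e (nat_lit 414423) (nat_lit 0) .nil) .nil))) 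
(.lf (nat_lit 598793) (.g (nat_lit 1221) (.e (nat_lit 573487) (nat_lit 14) (.e (nat_lit 73753) (nat_lit 8) (.e (nat_lit 557101) (nat_lit 13) (.e (nat_lit 172067) (nat_lit 3) .nil)))) (.g (nat_lit 0) (.e (nat_lit 415262) (nat_lit 0) .nil) .nil))))) (.nd (nat_lit 8) (.nd (nat_lit 9) 
(.lf (nat_lit 598153) (.g (nat_lit 1807) (.e (nat_lit 573484) (nat_lit 13) (.e (nat_lit 65622) (nat_lit 12) (.e (nat_lit 385074) (nat_lit 31) (.e (nat_lit 573481) (nat_lit 13) .nil)))) (.g (nat_lit 0) (.e (nat_lit 414203) (nat_lit 0) .nil) .nil))) 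
(.lf (nat_lit 598665) (.g (nat_lit 1760) (.e (nat_lit 573485) (nat_lit 13) (.e (nat_lit 65624) (nat_lit 12) (.e (nat_lit 385074) (nat_lit 31) (.e (nat_lit 573491) (nat_lit 15) .nil)))) (.g (nat_lit 0) (.e (nat_lit 414918) (nat_lit 0) .nil) .nil)))) (.nd (nat_lit 9) 
(.lf (nat_lit 598409) (.g (nat_lit 3493) (.e (nat_lit 573485) (nat_lit 13) (.e (nat_lit 65619) (nat_lit 10) (.e (nat_lit 344117) (nat_lit 21) (.e (nat_lit 516145) (nat_lit 9) (.e (nat_lit 426418) (nat_lit 15) .nil))))) (.g (nat_lit 0) (.e (nat_lit 414589) (nat_lit 0) .nil) .nil))) 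
(.lf (nat_lit 598921) (.g (nat_lit 1180) (.e (nat_lit 573488) (nat_lit 14) (.e (nat_lit 73755) (nat_lit 8) (.e (nat_lit 557097) (nat_lit 13) (.e (nat_lit 172065) (nat_lit 3) .nil)))) (.g (nat_lit 0) (.e (nat_lit 415576) (nat_lit 0) .nil) .nil)))))) (.nd (nat_lit 7) (.nd (nat_lit 8) (.nd (nat_lit 9) 
(.lf (nat_lit 598089) (.g (nat_lit 2263) (.e (nat_lit 573484) (nat_lit 13) (.e (nat_lit 65610) (nat_lit 10) (.e (nat_lit 344129) (nat_lit 26) (.e (nat_lit 557067) (nat_lit 9) (.e (nat_lit 20) (nat_lit 0) .nil))))) (.g (nat_lit 0) (.e (nat_lit 414055) (nat_lit 0) .nil) .nil))) 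
(.lf (nat_lit 598601) (.g (nat_lit 1288) (.e (nat_lit 573485) (nat_lit 13) (.e (nat_lit 65619) (nat_lit 10) (.e (nat_lit 344129) (nat_lit 26) (.e (nat_lit 564992) (nat_lit 9) .nil)))) (.g (nat_lit 0) (.e (nat_lit 414813) (nat_lit 0) .nil) .nil)))) (.nd (nat_lit 9) 
(.lf (nat_lit 598345) (.g (nat_lit 303) (.e (nat_lit 573485) (nat_lit 13) (.e (nat_lit 65619) (nat_lit 10) (.e (nat_lit 344115) (nat_lit 20) .nil))) (.g (nat_lit 0) (.e (nat_lit 414508) (nat_lit 0) .nil) .nil))) 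
(.lf (nat_lit 598857) (.g (nat_lit 1739) (.e (nat_lit 573487) (nat_lit 14) (.e (nat_lit 73755) (nat_lit 8) (.e (nat_lit 557103) (nat_lit 14) (.e (nat_lit 180250) (nat_lit 10) .nil)))) (.g (nat_lit 0) (.e (nat_lit 415412) (nat_lit 0) .nil) .nil))))) (.nd (nat_lit 8) (.nd (nat_lit 9) 
(.lf (nat_lit 598217) (.g (nat_lit 4000) (.e (nat_lit 573485) (nat_lit 13) (.e (nat_lit 65604) (nat_lit 9) (.e (nat_lit 336013) (nat_lit 2) (.e (nat_lit 90170) (nat_lit 13) (.e (nat_lit 172039) (nat_lit 0) (.e (nat_lit 3397) (nat_lit 211) (.e (nat_lit 647180) (nat_lit 3) (.e (nat_lit 163978) (nat_lit 30) .nil)))))))) (.g (nat_lit 1) (.e (nat_lit 414350) (nat_lit 0) .nil) .nil))) 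
(.lf (nat_lit 598729) (.g (nat_lit 993) (.e (nat_lit 573487) (nat_lit 14) (.e (nat_lit 73746) (nat_lit 3) (.e (nat_lit 516115) (nat_lit 1) (.e (nat_lit 171776) (nat_lit 160) .nil)))) (.g (nat_lit 0) (.e (nat_lit 415021) (nat_lit 0) .nil) .nil)))) (.nd (nat_lit 9) 
(.lf (nat_lit 598473) (.g (nat_lit 3630) (.e (nat_lit 573485) (nat_lit 13) (.e (nat_lit 65619) (nat_lit 10) (.e (nat_lit 344117) (nat_lit 21) (.e (nat_lit 516151) (nat_lit 9) (.e (nat_lit 426046) (nat_lit 0) .nil))))) (.g (nat_lit 0) (.e (nat_lit 414654) (nat_lit 0) .nil) .nil))) 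
(.lf (nat_lit 598985) (.g (nat_lit 3331) (.e (nat_lit 573488) (nat_lit 14) (.e (nat_lit 73755) (nat_lit 8) (.e (nat_lit 557105) (nat_lit 14) (.e (nat_lit 180252) (nat_lit 10) (.e (nat_lit 573475) (nat_lit 12) (.e (nat_lit 57503) (nat_lit 38) (.e (nat_lit 638995) (nat_lit 7) (.e (nat_lit 163977) (nat_lit 30) .nil)))))))) (.g (nat_lit 1) (.e (nat_lit 415713) (nat_lit 0) .nil) .nil))))))) 
(.nd (nat_lit 6) (.nd (nat_lit 7) (.nd (nat_lit 8) (.nd (nat_lit 9) 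
(.lf (nat_lit 598057) (.g (nat_lit 3588) (.e (nat_lit 573484) (nat_lit 13) (.e (nat_lit 65610) (nat_lit 10) (.e (nat_lit 344117) (nat_lit 21) (.e (nat_lit 516179) (nat_lit 15) (.e (nat_lit 475199) (nat_lit 40) (.e (nat_lit 704590) (nat_lit 3) (.e (nat_lit 163975) (nat_lit 30) .nil))))))) (.g (nat_lit 1) (.e (nat_lit 413966) (nat_lit 0) .nil) .nil))) 
(.lf (nat_lit 598569) (.g (nat_lit 1013) (.e (nat_lit 573485) (nat_lit 13) (.e (nat_lit 65619) (nat_lit 10) (.e (nat_lit 344129) (nat_lit 26) (.e (nat_lit 557065) (nat_lit 9) .nil)))) (.g (nat_lit 0) (.e (nat_lit 414768) (nat_lit 0) .nil) .nil)))) (.nd (nat_lit 9) 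
(.lf (nat_lit 598313) (.g (nat_lit 4009) (.e (nat_lit 573485) (nat_lit 13) (.e (nat_lit 65604) (nat_lit 9) (.e (nat_lit 336028) (nat_lit 3) (.e (nat_lit 98359) (nat_lit 26) (.e (nat_lit 426043) (nat_lit 0) (.e (nat_lit 3409) (nat_lit 212) (.e (nat_lit 655375) (nat_lit 3) (.e (nat_lit 163977) (nat_lit 30) .nil)))))))) (.g (nat_lit 1) (.e (nat_lit 414463) (nat_lit 0) .nil) .nil))) 
(.lf (nat_lit 598825) (.g (nat_lit 2814) (.e (nat_lit 573487) (nat_lit 14) (.e (nat_lit 73753) (nat_lit 8) (.e (nat_lit 557105) (nat_lit 14) (.e (nat_lit 180251) (nat_lit 10) (.e (nat_lit 573473) (nat_lit 12) .nil))))) (.g (nat_lit 0) (.e (nat_lit 415368) (nat_lit 0) .nil) .nil))))) (.nd (nat_lit 8) (.nd (nat_lit 9) 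
(.lf (nat_lit 598185) (.g (nat_lit 4063) (.e (nat_lit 573485) (nat_lit 13) (.e (nat_lit 65604) (nat_lit 9) (.e (nat_lit 336013) (nat_lit 2) (.e (nat_lit 90131) (nat_lit 9) .nil)))) (.g (nat_lit 0) (.e (nat_lit 414313) (nat_lit 0) .nil) .nil))) 
(.lf (nat_lit 598697) (.g (nat_lit 2392) (.e (nat_lit 573485) (nat_lit 13) (.e (nat_lit 65630) (nat_lit 14) (.e (nat_lit 401425) (nat_lit 2) (.e (nat_lit 196666) (nat_lit 13) (.e (nat_lit 65623) (nat_lit 12) .nil))))) (.g (nat_lit 0) (.e (nat_lit 414955) (nat_lit 0) .nil) .nil)))) (.nd (nat_lit 9) 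
(.lf (nat_lit 598441) (.g (nat_lit 4107) (.e (nat_lit 573485) (nat_lit 13) (.e (nat_lit 65619) (nat_lit 10) (.e (nat_lit 344117) (nat_lit 21) (.e (nat_lit 516151) (nat_lit 9) (.e (nat_lit 426038) (nat_lit 0) (.e (nat_lit 2458) (nat_lit 157) (.e (nat_lit 5546) (nat_lit 306) (.e (nat_lit 2610) (nat_lit 163) (.e (nat_lit 163978) (nat_lit 30) .nil))))))))) (.g (nat_lit 1) (.e (nat_lit 414621) (nat_lit 0) .nil) .nil))) 
(.lf (nat_lit 598953) (.g (nat_lit 271) (.e (nat_lit 573488) (nat_lit 14) (.e (nat_lit 73755) (nat_lit 8) (.e (nat_lit 557104) (nat_lit 14) .nil))) (.g (nat_lit 0) (.e (nat_lit 415655) (nat_lit 0) .nil) .nil)))))) (.nd (nat_lit 7) (.nd (nat_lit 8) (.nd (nat_lit 9) 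
(.lf (nat_lit 598121) (.g (nat_lit 2403) (.e (nat_lit 573484) (nat_lit 13) (.e (nat_lit 65617) (nat_lit 10) (.e (nat_lit 344117) (nat_lit 21) (.e (nat_lit 516097) (nat_lit 0) (.e (nat_lit 7589) (nat_lit 406) .nil))))) (.g (nat_lit 0) (.e (nat_lit 414108) (nat_lit 0) .nil) .nil))) 
(.lf (nat_lit 598633) (.g (nat_lit 3768) (.e (nat_lit 573485) (nat_lit 13) (.e (nat_lit 65619) (nat_lit 10) (.e (nat_lit 344129) (nat_lit 26) (.e (nat_lit 557087) (nat_lit 11) (.e (nat_lit 24626) (nat_lit 9) (.e (nat_lit 336258) (nat_lit 15) (.e (nat_lit 3309) (nat_lit 202) .nil))))))) (.g (nat_lit 1) (.e (nat_lit 414869) (nat_lit 0) .nil) .nil)))) (.nd (nat_lit 9) 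
(.lf (nat_lit 598377) (.g (nat_lit 2787) (.e (nat_lit 573485) (nat_lit 13) (.e (nat_lit 65619) (nat_lit 10) (.e (nat_lit 344117) (nat_lit 21) (.e (nat_lit 516143) (nat_lit 9) (.e (nat_lit 426143) (nat_lit 4) (.e (nat_lit 229663) (nat_lit 240) (.e (nat_lit 2612) (nat_lit 163) (.e (nat_lit 163977) (nat_lit 30) .nil)))))))) (.g (nat_lit 1) (.e (nat_lit 414557) (nat_lit 0) .nil) .nil))) 
(.lf (nat_lit 598889) (.g (nat_lit 1854) (.e (nat_lit 573488) (nat_lit 14) (.e (nat_lit 73753) (nat_lit 8) (.e (nat_lit 557103) (nat_lit 14) (.e (nat_lit 180250) (nat_lit 10) .nil)))) (.g (nat_lit 0) (.e (nat_lit 415524) (nat_lit 0) .nil) .nil))))) (.nd (nat_lit 8) (.nd (nat_lit 9) 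
(.lf (nat_lit 598249) (.g (nat_lit 3344) (.e (nat_lit 573485) (nat_lit 13) (.e (nat_lit 65604) (nat_lit 9) (.e (nat_lit 336013) (nat_lit 2) (.e (nat_lit 90170) (nat_lit 13) (.e (nat_lit 172054) (nat_lit 0) .nil))))) (.g (nat_lit 0) (.e (nat_lit 414389) (nat_lit 0) .nil) .nil))) 
(.lf (nat_lit 598761) (.g (nat_lit 2402) (.e (nat_lit 573487) (nat_lit 14) (.e (nat_lit 73753) (nat_lit 8) (.e (nat_lit 557090) (nat_lit 12) (.e (nat_lit 164006) (nat_lit 41) (.e (nat_lit 671488) (nat_lit 0) .nil))))) (.g (nat_lit 0) (.e (nat_lit 415129) (nat_lit 0) .nil) .nil)))) (.nd (nat_lit 9) 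
(.lf (nat_lit 598505) (.g (nat_lit 2696) (.e (nat_lit 573485) (nat_lit 13) (.e (nat_lit 65619) (nat_lit 10) (.e (nat_lit 344117) (nat_lit 21) (.e (nat_lit 516152) (nat_lit 9) (.e (nat_lit 426109) (nat_lit 1) (.e (nat_lit 164345) (nat_lit 240) (.e (nat_lit 2611) (nat_lit 163) (.e (nat_lit 163977) (nat_lit 30) .nil)))))))) (.g (nat_lit 1) (.e (nat_lit 414686) (nat_lit 0) .nil) .nil))) 
(.lf (nat_lit 599017) (.g (nat_lit 1667) (.e (nat_lit 573489) (nat_lit 14) (.e (nat_lit 73754) (nat_lit 8) (.e (nat_lit 557098) (nat_lit 13) (.e (nat_lit 172067) (nat_lit 3) .nil)))) (.g (nat_lit 0) (.e (nat_lit 415834) (nat_lit 0) .nil) .nil)))))))) (.nd (nat_lit 5) (.nd (nat_lit 6) (.nd (nat_lit 7) (.nd (nat_lit 8) (.nd (nat_lit 9) 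
(.lf (nat_lit 598041) (.g (nat_lit 4698) (.e (nat_lit 573484) (nat_lit 13) (.e (nat_lit 65610) (nat_lit 10) (.e (nat_lit 344117) (nat_lit 21) (.e (nat_lit 516159) (nat_lit 10) (.e (nat_lit 434271) (nat_lit 38) (.e (nat_lit 655375) (nat_lit 3) (.e (nat_lit 163977) (nat_lit 30) .nil))))))) (.g (nat_lit 1) (.e (nat_lit 413941) (nat_lit 0) .nil) .nil))) 
(.lf (nat_lit 598553) (.g (nat_lit 892) (.e (nat_lit 573485) (nat_lit 13) (.e (nat_lit 65619) (nat_lit 10) (.e (nat_lit 344126) (nat_lit 25) (.e (nat_lit 548874) (nat_lit 5) .nil)))) (.g (nat_lit 0) (.e (nat_lit 414739) (nat_lit 0) .nil) .nil)))) (.nd (nat_lit 9) 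
(.lf (nat_lit 598297) (.g (nat_lit 3898) (.e (nat_lit 573485) (nat_lit 13) (.e (nat_lit 65604) (nat_lit 9) (.e (nat_lit 336013) (nat_lit 2) (.e (nat_lit 90183) (nat_lit 17) .nil)))) (.g (nat_lit 0) (.e (nat_lit 414440) (nat_lit 0) .nil) .nil))) 
(.lf (nat_lit 598809) (.g (nat_lit 2114) (.e (nat_lit 573487) (nat_lit 14) (.e (nat_lit 73753) (nat_lit 8) (.e (nat_lit 557103) (nat_lit 14) (.e (nat_lit 180244) (nat_lit 5) (.e (nat_lit 532501) (nat_lit 1) .nil))))) (.g (nat_lit 0) (.e (nat_lit 415322) (nat_lit 0) .nil) .nil))))) (.nd (nat_lit 8) (.nd (nat_lit 9) 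
(.lf (nat_lit 598169) (.g (nat_lit 2273) (.e (nat_lit 573484) (nat_lit 13) (.e (nat_lit 65630) (nat_lit 14) (.e (nat_lit 401425) (nat_lit 2) (.e (nat_lit 196622) (nat_lit 9) .nil)))) (.g (nat_lit 0) (.e (nat_lit 414241) (nat_lit 0) .nil) .nil))) 
(.lf (nat_lit 598681) (.g (nat_lit 1738) (.e (nat_lit 573485) (nat_lit 13) (.e (nat_lit 65628) (nat_lit 14) (.e (nat_lit 401428) (nat_lit 3) (.e (nat_lit 204854) (nat_lit 26) (.e (nat_lit 336115) (nat_lit 9) .nil))))) (.g (nat_lit 0) (.e (nat_lit 414938) (nat_lit 0) .nil) .nil)))) (.nd (nat_lit 9) 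
(.lf (nat_lit 598425) (.g (nat_lit 4003) (.e (nat_lit 573485) (nat_lit 13) (.e (nat_lit 65619) (nat_lit 10) (.e (nat_lit 344117) (nat_lit 21) (.e (nat_lit 516151) (nat_lit 9) (.e (nat_lit 426018) (nat_lit 0) (.e (nat_lit 2536) (nat_lit 157) (.e (nat_lit 5543) (nat_lit 306) (.e (nat_lit 2610) (nat_lit 163) (.e (nat_lit 163978) (nat_lit 30) .nil))))))))) (.g (nat_lit 1) (.e (nat_lit 414605) (nat_lit 0) .nil) .nil))) 
(.lf (nat_lit 598937) (.g (nat_lit 458) (.e (nat_lit 573488) (nat_lit 14) (.e (nat_lit 73755) (nat_lit 8) (.e (nat_lit 557103) (nat_lit 14) .nil))) (.g (nat_lit 0) (.e (nat_lit 415620) (nat_lit 0) .nil) .nil)))))) (.nd (nat_lit 7) (.nd (nat_lit 8) (.nd (nat_lit 9) 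
(.lf (nat_lit 598105) (.g (nat_lit 4768) (.e (nat_lit 573484) (nat_lit 13) (.e (nat_lit 65610) (nat_lit 10) (.e (nat_lit 344129) (nat_lit 26) (.e (nat_lit 557087) (nat_lit 11) (.e (nat_lit 24623) (nat_lit 9) (.e (nat_lit 336295) (nat_lit 15) (.e (nat_lit 3305) (nat_lit 202) .nil))))))) (.g (nat_lit 1) (.e (nat_lit 414088) (nat_lit 0) .nil) .nil))) 
(.lf (nat_lit 598617) (.g (nat_lit 873) (.e (nat_lit 573485) (nat_lit 13) (.e (nat_lit 65619) (nat_lit 10) (.e (nat_lit 344129) (nat_lit 26) (.e (nat_lit 557087) (nat_lit 11) .nil)))) (.g (nat_lit 0) (.e (nat_lit 414834) (nat_lit 0) .nil) .nil)))) (.nd (nat_lit 9) 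
(.lf (nat_lit 598361) (.g (nat_lit 2573) (.e (nat_lit 573485) (nat_lit 13) (.e (nat_lit 65619) (nat_lit 10) (.e (nat_lit 344117) (nat_lit 21) (.e (nat_lit 516106) (nat_lit 0) (.e (nat_lit 6966) (nat_lit 377) (.e (nat_lit 2779) (nat_lit 178) (.e (nat_lit 286765) (nat_lit 15) (.e (nat_lit 3307) (nat_lit 202) .nil)))))))) (.g (nat_lit 1) (.e (nat_lit 414527) (nat_lit 0) .nil) .nil))) 
(.lf (nat_lit 598873) (.g (nat_lit 3144) (.e (nat_lit 573487) (nat_lit 14) (.e (nat_lit 73782) (nat_lit 32) (.e (nat_lit 2664) (nat_lit 167) (.e (nat_lit 196674) (nat_lit 15) (.e (nat_lit 81922) (nat_lit 0) (.e (nat_lit 3305) (nat_lit 202) .nil)))))) (.g (nat_lit 1) (.e (nat_lit 415448) (nat_lit 0) .nil) .nil))))) (.nd (nat_lit 8) (.nd (nat_lit 9) 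
(.lf (nat_lit 598233) (.g (nat_lit 2942) (.e (nat_lit 573485) (nat_lit 13) (.e (nat_lit 65604) (nat_lit 9) (.e (nat_lit 336013) (nat_lit 2) (.e (nat_lit 90170) (nat_lit 13) (.e (nat_lit 172046) (nat_lit 0) (.e (nat_lit 2478) (nat_lit 157) (.e (nat_lit 5543) (nat_lit 306) (.e (nat_lit 2610) (nat_lit 163) (.e (nat_lit 163978) (nat_lit 30) .nil))))))))) (.g (nat_lit 1) (.e (nat_lit 414370) (nat_lit 0) .nil) .nil))) 
(.lf (nat_lit 598745) (.g (nat_lit 1438) (.e (nat_lit 573487) (nat_lit 14) (.e (nat_lit 73753) (nat_lit 8) (.e (nat_lit 557089) (nat_lit 12) (.e (nat_lit 164010) (nat_lit 41) .nil)))) (.g (nat_lit 0) (.e (nat_lit 415102) (nat_lit 0) .nil) .nil)))) (.nd (nat_lit 9) 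
(.lf (nat_lit 598489) (.g (nat_lit 3376) (.e (nat_lit 573485) (nat_lit 13) (.e (nat_lit 65619) (nat_lit 10) (.e (nat_lit 344117) (nat_lit 21) (.e (nat_lit 516151) (nat_lit 9) (.e (nat_lit 426104) (nat_lit 1) (.e (nat_lit 164347) (nat_lit 240) (.e (nat_lit 2601) (nat_lit 163) (.e (nat_lit 163978) (nat_lit 30) .nil)))))))) (.g (nat_lit 1) (.e (nat_lit 414670) (nat_lit 0) .nil) .nil))) 
(.lf (nat_lit 599001) (.g (nat_lit 1570) (.e (nat_lit 573489) (nat_lit 14) (.e (nat_lit 73753) (nat_lit 8) (.e (nat_lit 557098) (nat_lit 13) (.e (nat_lit 172065) (nat_lit 3) .nil)))) (.g (nat_lit 0) (.e (nat_lit 415803) (nat_lit 0) .nil) .nil))))))) (.nd (nat_lit 6) (.nd (nat_lit 7) (.nd (nat_lit 8) (.nd (nat_lit 9) 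
(.lf (nat_lit 598073) (.g (nat_lit 4468) (.e (nat_lit 573484) (nat_lit 13) (.e (nat_lit 65610) (nat_lit 10) (.e (nat_lit 344117) (nat_lit 21) (.e (nat_lit 516185) (nat_lit 16) (.e (nat_lit 491547) (nat_lit 9) (.e (nat_lit 336306) (nat_lit 15) (.e (nat_lit 3307) (nat_lit 202) .nil))))))) (.g (nat_lit 1) (.e (nat_lit 413998) (nat_lit 0) .nil) .nil))) 
(.lf (nat_lit 598585) (.g (nat_lit 1937) (.e (nat_lit 573485) (nat_lit 13) (.e (nat_lit 65619) (nat_lit 10) (.e (nat_lit 344129) (nat_lit 26) (.e (nat_lit 557066) (nat_lit 9) (.e (nat_lit 314) (nat_lit 23) .nil))))) (.g (nat_lit 0) (.e (nat_lit 414795) (nat_lit 0) .nil) .nil)))) (.nd (nat_lit 9) 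
(.lf (nat_lit 598329) (.g (nat_lit 3120) (.e (nat_lit 573485) (nat_lit 13) (.e (nat_lit 65604) (nat_lit 9) (.e (nat_lit 336028) (nat_lit 3) (.e (nat_lit 98367) (nat_lit 27) (.e (nat_lit 434209) (nat_lit 18) (.e (nat_lit 5548) (nat_lit 306) (.e (nat_lit 2600) (nat_lit 163) (.e (nat_lit 163977) (nat_lit 30) .nil)))))))) (.g (nat_lit 1) (.e (nat_lit 414487) (nat_lit 0) .nil) .nil))) 
(.lf (nat_lit 598841) (.g (nat_lit 2960) (.e (nat_lit 573487) (nat_lit 14) (.e (nat_lit 73754) (nat_lit 8) (.e (nat_lit 557100) (nat_lit 13) (.e (nat_lit 172065) (nat_lit 3) (.e (nat_lit 204817) (nat_lit 17) .nil))))) (.g (nat_lit 0) (.e (nat_lit 415394) (nat_lit 0) .nil) .nil))))) (.nd (nat_lit 8) (.nd (nat_lit 9) 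
(.lf (nat_lit 598201) (.g (nat_lit 1576) (.e (nat_lit 573485) (nat_lit 13) (.e (nat_lit 65604) (nat_lit 9) (.e (nat_lit 336013) (nat_lit 2) (.e (nat_lit 90165) (nat_lit 12) (.e (nat_lit 164208) (nat_lit 176) .nil))))) (.g (nat_lit 0) (.e (nat_lit 414334) (nat_lit 0) .nil) .nil))) 
(.lf (nat_lit 598713) (.g (nat_lit 1724) (.e (nat_lit 573485) (nat_lit 13) (.e (nat_lit 65640) (nat_lit 15) (.e (nat_lit 3253) (nat_lit 197) (.e (nat_lit 532503) (nat_lit 1) (.e (nat_lit 57870) (nat_lit 264) .nil))))) (.g (nat_lit 0) (.e (nat_lit 414978) (nat_lit 0) .nil) .nil)))) (.nd (nat_lit 9) 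
(.lf (nat_lit 598457) (.g (nat_lit 2952) (.e (nat_lit 573485) (nat_lit 13) (.e (nat_lit 65619) (nat_lit 10) (.e (nat_lit 344117) (nat_lit 21) (.e (nat_lit 516151) (nat_lit 9) (.e (nat_lit 426042) (nat_lit 0) .nil))))) (.g (nat_lit 0) (.e (nat_lit 414637) (nat_lit 0) .nil) .nil))) 
(.lf (nat_lit 598969) (.g (nat_lit 1582) (.e (nat_lit 573488) (nat_lit 14) (.e (nat_lit 73755) (nat_lit 8) (.e (nat_lit 557105) (nat_lit 14) (.e (nat_lit 180251) (nat_lit 10) .nil)))) (.g (nat_lit 0) (.e (nat_lit 415694) (nat_lit 0) .nil) .nil)))))) (.nd (nat_lit 7) (.nd (nat_lit 8) (.nd (nat_lit 9) 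
(.lf (nat_lit 598137) (.g (nat_lit 1099) (.e (nat_lit 573484) (nat_lit 13) (.e (nat_lit 65617) (nat_lit 10) (.e (nat_lit 344133) (nat_lit 26) (.e (nat_lit 557065) (nat_lit 9) .nil)))) (.g (nat_lit 0) (.e (nat_lit 414168) (nat_lit 0) .nil) .nil))) 
(.lf (nat_lit 598649) (.g (nat_lit 4669) (.e (nat_lit 573485) (nat_lit 13) (.e (nat_lit 65619) (nat_lit 10) (.e (nat_lit 344129) (nat_lit 26) (.e (nat_lit 557087) (nat_lit 11) (.e (nat_lit 24651) (nat_lit 12) (.e (nat_lit 385074) (nat_lit 31) .nil)))))) (.g (nat_lit 1) (.e (nat_lit 414885) (nat_lit 0) .nil) .nil)))) (.nd (nat_lit 9) 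
(.lf (nat_lit 598393) (.g (nat_lit 2998) (.e (nat_lit 573485) (nat_lit 13) (.e (nat_lit 65619) (nat_lit 10) (.e (nat_lit 344117) (nat_lit 21) (.e (nat_lit 516145) (nat_lit 9) (.e (nat_lit 433920) (nat_lit 1) (.e (nat_lit 164348) (nat_lit 240) (.e (nat_lit 2611) (nat_lit 163) (.e (nat_lit 163977) (nat_lit 30) .nil)))))))) (.g (nat_lit 1) (.e (nat_lit 414573) (nat_lit 0) .nil) .nil))) 
(.lf (nat_lit 598905) (.g (nat_lit 2127) (.e (nat_lit 573488) (nat_lit 14) (.e (nat_lit 73754) (nat_lit 8) (.e (nat_lit 557105) (nat_lit 14) (.e (nat_lit 180251) (nat_lit 10) (.e (nat_lit 573475) (nat_lit 12) .nil))))) (.g (nat_lit 0) (.e (nat_lit 415541) (nat_lit 0) .nil) .nil))))) (.nd (nat_lit 8) (.nd (nat_lit 9) 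
(.lf (nat_lit 598265) (.g (nat_lit 3517) (.e (nat_lit 573485) (nat_lit 13) (.e (nat_lit 65604) (nat_lit 9) (.e (nat_lit 336013) (nat_lit 2) (.e (nat_lit 90170) (nat_lit 13) (.e (nat_lit 172060) (nat_lit 1) (.e (nat_lit 164347) (nat_lit 240) (.e (nat_lit 2599) (nat_lit 163) (.e (nat_lit 163978) (nat_lit 30) .nil)))))))) (.g (nat_lit 1) (.e (nat_lit 414406) (nat_lit 0) .nil) .nil))) 
(.lf (nat_lit 598777) (.g (nat_lit 863) (.e (nat_lit 573487) (nat_lit 14) (.e (nat_lit 73753) (nat_lit 8) (.e (nat_lit 557097) (nat_lit 13) (.e (nat_lit 172067) (nat_lit 3) .nil)))) (.g (nat_lit 0) (.e (nat_lit 415171) (nat_lit 0) .nil) .nil)))) (.nd (nat_lit 9) 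
(.lf (nat_lit 598521) (.g (nat_lit 3825) (.e (nat_lit 573485) (nat_lit 13) (.e (nat_lit 65619) (nat_lit 10) (.e (nat_lit 344117) (nat_lit 21) (.e (nat_lit 516160) (nat_lit 10) (.e (nat_lit 434209) (nat_lit 18) (.e (nat_lit 5546) (nat_lit 306) (.e (nat_lit 2611) (nat_lit 163) (.e (nat_lit 163977) (nat_lit 30) .nil)))))))) (.g (nat_lit 1) (.e (nat_lit 414702) (nat_lit 0) .nil) .nil))) 
(.lf (nat_lit 599033) (.g (nat_lit 2983) (.e (nat_lit 573489) (nat_lit 14) (.e (nat_lit 73754) (nat_lit 8) (.e (nat_lit 557101) (nat_lit 13) (.e (nat_lit 172067) (nat_lit 3) (.e (nat_lit 204815) (nat_lit 17) (.e (nat_lit 2271) (nat_lit 149) (.e (nat_lit 761898) (nat_lit 15) (.e (nat_lit 163978) (nat_lit 30) .nil)))))))) (.g (nat_lit 1) (.e (nat_lit 415871) (nat_lit 0) .nil) .nil)))))))))) 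
(.nd (nat_lit 3) (.nd (nat_lit 4) (.nd (nat_lit 5) (.nd (nat_lit 6) (.nd (nat_lit 7) 
(.nd (nat_lit 8) (.nd (nat_lit 9) 
(.lf (nat_lit 598021) (.g (nat_lit 3465) (.e (nat_lit 573484) (nat_lit 13) (.e (nat_lit 65610) (nat_lit 10) (.e (nat_lit 344117) (nat_lit 21) (.e (nat_lit 516151) (nat_lit 9) (.e (nat_lit 426047) (nat_lit 0) (.e (nat_lit 3403) (nat_lit 212) (.e (nat_lit 655373) (nat_lit 3) (.e (nat_lit 163978) (nat_lit 30) .nil)))))))) (.g (nat_lit 1) (.e (nat_lit 413906) (nat_lit 0) .nil) .nil))) 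
(.lf (nat_lit 598533) (.g (nat_lit 3063) (.e (nat_lit 573485) (nat_lit 13) (.e (nat_lit 65619) (nat_lit 10) (.e (nat_lit 344117) (nat_lit 21) (.e (nat_lit 516178) (nat_lit 15) (.e (nat_lit 475210) (nat_lit 41) (.e (nat_lit 712722) (nat_lit 15) (.e (nat_lit 3302) (nat_lit 202) .nil))))))) (.g (nat_lit 1) (.e (nat_lit 414718) (nat_lit 0) .nil) .nil)))) (.nd (nat_lit 9) 
(.lf (nat_lit 598277) (.g (nat_lit 2709) (.e (nat_lit 573485) (nat_lit 13) (.e (nat_lit 65604) (nat_lit 9) (.e (nat_lit 336013) (nat_lit 2) (.e (nat_lit 90170) (nat_lit 13) (.e (nat_lit 172069) (nat_lit 4) (.e (nat_lit 229664) (nat_lit 240) (.e (nat_lit 2598) (nat_lit 163) (.e (nat_lit 163978) (nat_lit 30) .nil)))))))) (.g (nat_lit 1) (.e (nat_lit 414419) (nat_lit 0) .nil) .nil))) 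
(.lf (nat_lit 598789) (.g (nat_lit 2659) (.e (nat_lit 573487) (nat_lit 14) (.e (nat_lit 73753) (nat_lit 8) (.e (nat_lit 557100) (nat_lit 13) (.e (nat_lit 172067) (nat_lit 3) (.e (nat_lit 204821) (nat_lit 17) .nil))))) (.g (nat_lit 0) (.e (nat_lit 415244) (nat_lit 0) .nil) .nil))))) (.nd (nat_lit 8) (.nd (nat_lit 9) 
(.lf (nat_lit 598149) (.g (nat_lit 4798) (.e (nat_lit 573484) (nat_lit 13) (.e (nat_lit 65617) (nat_lit 10) (.e (nat_lit 344133) (nat_lit 26) (.e (nat_lit 557087) (nat_lit 11) (.e (nat_lit 24625) (nat_lit 9) (.e (nat_lit 336260) (nat_lit 15) (.e (nat_lit 3304) (nat_lit 202) .nil))))))) (.g (nat_lit 1) (.e (nat_lit 414194) (nat_lit 0) .nil) .nil))) 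
(.lf (nat_lit 598661) (.g (nat_lit 3210) (.e (nat_lit 573485) (nat_lit 13) (.e (nat_lit 65624) (nat_lit 12) (.e (nat_lit 385074) (nat_lit 31) (.e (nat_lit 573482) (nat_lit 13) (.e (nat_lit 65623) (nat_lit 12) .nil))))) (.g (nat_lit 0) (.e (nat_lit 414914) (nat_lit 0) .nil) .nil)))) (.nd (nat_lit 9) 
(.lf (nat_lit 598405) (.g (nat_lit 4118) (.e (nat_lit 573485) (nat_lit 13) (.e (nat_lit 65619) (nat_lit 10) (.e (nat_lit 344117) (nat_lit 21) (.e (nat_lit 516145) (nat_lit 9) (.e (nat_lit 426376) (nat_lit 15) (.e (nat_lit 2057) (nat_lit 142) (.e (nat_lit 704589) (nat_lit 3) (.e (nat_lit 163978) (nat_lit 30) .nil)))))))) (.g (nat_lit 1) (.e (nat_lit 414585) (nat_lit 0) .nil) .nil))) 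
(.lf (nat_lit 598917) (.g (nat_lit 3062) (.e (nat_lit 573488) (nat_lit 14) (.e (nat_lit 73755) (nat_lit 8) (.e (nat_lit 557090) (nat_lit 12) (.e (nat_lit 163843) (nat_lit 0) (.e (nat_lit 5943) (nat_lit 322) (.e (nat_lit 57379) (nat_lit 3) (.e (nat_lit 98367) (nat_lit 27) (.e (nat_lit 434245) (nat_lit 28) .nil)))))))) (.g (nat_lit 1) (.e (nat_lit 415559) (nat_lit 0) .nil) .nil)))))) 
(.nd (nat_lit 7) (.nd (nat_lit 8) (.nd (nat_lit 9) 
(.lf (nat_lit 598085) (.g (nat_lit 2256) (.e (nat_lit 573484) (nat_lit 13) (.e (nat_lit 65610) (nat_lit 10) (.e (nat_lit 344129) (nat_lit 26) (.e (nat_lit 557065) (nat_lit 9) (.e (nat_lit 312) (nat_lit 23) .nil))))) (.g (nat_lit 0) (.e (nat_lit 414038) (nat_lit 0) .nil) .nil))) 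
(.lf (nat_lit 598597) (.g (nat_lit 1088) (.e (nat_lit 573485) (nat_lit 13) (.e (nat_lit 65619) (nat_lit 10) (.e (nat_lit 344129) (nat_lit 26) (.e (nat_lit 557074) (nat_lit 9) .nil)))) (.g (nat_lit 0) (.e (nat_lit 414809) (nat_lit 0) .nil) .nil)))) (.nd (nat_lit 9) 
(.lf (nat_lit 598341) (.g (nat_lit 1984) (.e (nat_lit 573485) (nat_lit 13) (.e (nat_lit 65619) (nat_lit 10) (.e (nat_lit 344090) (nat_lit 18) (.e (nat_lit 7710) (nat_lit 414) (.e (nat_lit 163908) (nat_lit 12) .nil))))) (.g (nat_lit 0) (.e (nat_lit 414502) (nat_lit 0) .nil) .nil))) 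
(.lf (nat_lit 598853) (.g (nat_lit 2120) (.e (nat_lit 573487) (nat_lit 14) (.e (nat_lit 73755) (nat_lit 8) (.e (nat_lit 557098) (nat_lit 13) (.e (nat_lit 172065) (nat_lit 3) .nil)))) (.g (nat_lit 0) (.e (nat_lit 415408) (nat_lit 0) .nil) .nil))))) (.nd (nat_lit 8) (.nd (nat_lit 9) 
(.lf (nat_lit 598213) (.g (nat_lit 3256) (.e (nat_lit 573485) (nat_lit 13) (.e (nat_lit 65604) (nat_lit 9) (.e (nat_lit 336013) (nat_lit 2) (.e (nat_lit 90170) (nat_lit 13) (.e (nat_lit 172038) (nat_lit 0) (.e (nat_lit 3399) (nat_lit 211) (.e (nat_lit 647181) (nat_lit 3) (.e (nat_lit 163977) (nat_lit 30) .nil)))))))) (.g (nat_lit 1) (.e (nat_lit 414346) (nat_lit 0) .nil) .nil))) 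
(.lf (nat_lit 598725) (.g (nat_lit 1505) (.e (nat_lit 573486) (nat_lit 14) (.e (nat_lit 73755) (nat_lit 8) (.e (nat_lit 557097) (nat_lit 13) (.e (nat_lit 172064) (nat_lit 2) .nil)))) (.g (nat_lit 0) (.e (nat_lit 414994) (nat_lit 0) .nil) .nil)))) (.nd (nat_lit 9) 
(.lf (nat_lit 598469) (.g (nat_lit 3387) (.e (nat_lit 573485) (nat_lit 13) (.e (nat_lit 65619) (nat_lit 10) (.e (nat_lit 344117) (nat_lit 21) (.e (nat_lit 516151) (nat_lit 9) (.e (nat_lit 426042) (nat_lit 0) (.e (nat_lit 3407) (nat_lit 212) (.e (nat_lit 655375) (nat_lit 3) (.e (nat_lit 163977) (nat_lit 30) .nil)))))))) (.g (nat_lit 1) (.e (nat_lit 414650) (nat_lit 0) .nil) .nil))) 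
(.lf (nat_lit 598981) (.g (nat_lit 3614) (.e (nat_lit 573488) (nat_lit 14) (.e (nat_lit 73755) (nat_lit 8) (.e (nat_lit 557105) (nat_lit 14) (.e (nat_lit 180252) (nat_lit 10) (.e (nat_lit 573475) (nat_lit 12) (.e (nat_lit 57501) (nat_lit 37) (.e (nat_lit 630799) (nat_lit 7) (.e (nat_lit 163976) (nat_lit 30) .nil)))))))) (.g (nat_lit 1) (.e (nat_lit 415709) (nat_lit 0) .nil) .nil))))))) 
(.nd (nat_lit 6) (.nd (nat_lit 7) (.nd (nat_lit 8) (.nd (nat_lit 9) 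
(.lf (nat_lit 598053) (.g (nat_lit 2982) (.e (nat_lit 573484) (nat_lit 13) (.e (nat_lit 65610) (nat_lit 10) (.e (nat_lit 344117) (nat_lit 21) (.e (nat_lit 516179) (nat_lit 15) (.e (nat_lit 475198) (nat_lit 40) (.e (nat_lit 712448) (nat_lit 3) (.e (nat_lit 163978) (nat_lit 30) .nil))))))) (.g (nat_lit 1) (.e (nat_lit 413962) (nat_lit 0) .nil) .nil))) 
(.lf (nat_lit 598565) (.g (nat_lit 2842) (.e (nat_lit 573485) (nat_lit 13) (.e (nat_lit 65619) (nat_lit 10) (.e (nat_lit 344126) (nat_lit 25) (.e (nat_lit 548889) (nat_lit 9) (.e (nat_lit 65602) (nat_lit 9) .nil))))) (.g (nat_lit 0) (.e (nat_lit 414762) (nat_lit 0) .nil) .nil)))) (.nd (nat_lit 9) 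
(.lf (nat_lit 598309) (.g (nat_lit 2329) (.e (nat_lit 573485) (nat_lit 13) (.e (nat_lit 65604) (nat_lit 9) (.e (nat_lit 336028) (nat_lit 3) (.e (nat_lit 98358) (nat_lit 26) (.e (nat_lit 426444) (nat_lit 19) .nil))))) (.g (nat_lit 0) (.e (nat_lit 414456) (nat_lit 0) .nil) .nil))) 
(.lf (nat_lit 598821) (.g (nat_lit 214) (.e (nat_lit 573487) (nat_lit 14) (.e (nat_lit 73753) (nat_lit 8) (.e (nat_lit 557105) (nat_lit 14) .nil))) (.g (nat_lit 0) (.e (nat_lit 415359) (nat_lit 0) .nil) .nil))))) (.nd (nat_lit 8) (.nd (nat_lit 9) 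
(.lf (nat_lit 598181) (.g (nat_lit 3694) (.e (nat_lit 573485) (nat_lit 13) (.e (nat_lit 65604) (nat_lit 9) (.e (nat_lit 336013) (nat_lit 2) (.e (nat_lit 90121) (nat_lit 9) .nil)))) (.g (nat_lit 0) (.e (nat_lit 414309) (nat_lit 0) .nil) .nil))) 
(.lf (nat_lit 598693) (.g (nat_lit 855) (.e (nat_lit 573485) (nat_lit 13) (.e (nat_lit 65630) (nat_lit 14) (.e (nat_lit 401423) (nat_lit 2) .nil))) (.g (nat_lit 0) (.e (nat_lit 414950) (nat_lit 0) .nil) .nil)))) (.nd (nat_lit 9) 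
(.lf (nat_lit 598437) (.g (nat_lit 3990) (.e (nat_lit 573485) (nat_lit 13) (.e (nat_lit 65619) (nat_lit 10) (.e (nat_lit 344117) (nat_lit 21) (.e (nat_lit 516151) (nat_lit 9) (.e (nat_lit 426037) (nat_lit 0) (.e (nat_lit 2458) (nat_lit 157) (.e (nat_lit 5548) (nat_lit 306) (.e (nat_lit 2610) (nat_lit 163) (.e (nat_lit 163978) (nat_lit 30) .nil))))))))) (.g (nat_lit 1) (.e (nat_lit 414617) (nat_lit 0) .nil) .nil))) 
(.lf (nat_lit 598949) (.g (nat_lit 2929) (.e (nat_lit 573488) (nat_lit 14) (.e (nat_lit 73755) (nat_lit 8) (.e (nat_lit 557103) (nat_lit 14) (.e (nat_lit 180250) (nat_lit 10) (.e (nat_lit 573477) (nat_lit 12) (.e (nat_lit 57502) (nat_lit 38) (.e (nat_lit 638994) (nat_lit 7) (.e (nat_lit 163975) (nat_lit 30) .nil)))))))) (.g (nat_lit 1) (.e (nat_lit 415650) (nat_lit 0) .nil) .nil)))))) 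
(.nd (nat_lit 7) (.nd (nat_lit 8) (.nd (nat_lit 9) 
(.lf (nat_lit 598117) (.g (nat_lit 3522) (.e (nat_lit 573484) (nat_lit 13) (.e (nat_lit 65610) (nat_lit 10) (.e (nat_lit 344133) (nat_lit 26) (.e (nat_lit 557087) (nat_lit 11) (.e (nat_lit 24625) (nat_lit 9) (.e (nat_lit 336258) (nat_lit 15) (.e (nat_lit 3309) (nat_lit 202) .nil))))))) (.g (nat_lit 1) (.e (nat_lit 414100) (nat_lit 0) .nil) .nil))) 
(.lf (nat_lit 598629) (.g (nat_lit 2229) (.e (nat_lit 573485) (nat_lit 13) (.e (nat_lit 65619) (nat_lit 10) (.e (nat_lit 344129) (nat_lit 26) (.e (nat_lit 557087) (nat_lit 11) (.e (nat_lit 24625) (nat_lit 9) .nil))))) (.g (nat_lit 0) (.e (nat_lit 414865) (nat_lit 0) .nil) .nil)))) (.nd (nat_lit 9) 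
(.lf (nat_lit 598373) (.g (nat_lit 3703) (.e (nat_lit 573485) (nat_lit 13) (.e (nat_lit 65619) (nat_lit 10) (.e (nat_lit 344117) (nat_lit 21) (.e (nat_lit 516139) (nat_lit 7) (.e (nat_lit 409642) (nat_lit 17) (.e (nat_lit 294966) (nat_lit 15) (.e (nat_lit 3307) (nat_lit 202) .nil))))))) (.g (nat_lit 1) (.e (nat_lit 414546) (nat_lit 0) .nil) .nil))) 
(.lf (nat_lit 598885) (.g (nat_lit 2090) (.e (nat_lit 573488) (nat_lit 14) (.e (nat_lit 73753) (nat_lit 8) (.e (nat_lit 557091) (nat_lit 12) (.e (nat_lit 164006) (nat_lit 41) .nil)))) (.g (nat_lit 0) (.e (nat_lit 415520) (nat_lit 0) .nil) .nil))))) (.nd (nat_lit 8) (.nd (nat_lit 9) 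
(.lf (nat_lit 598245) (.g (nat_lit 4173) (.e (nat_lit 573485) (nat_lit 13) (.e (nat_lit 65604) (nat_lit 9) (.e (nat_lit 336013) (nat_lit 2) (.e (nat_lit 90170) (nat_lit 13) (.e (nat_lit 172049) (nat_lit 0) (.e (nat_lit 3406) (nat_lit 212) (.e (nat_lit 655375) (nat_lit 3) (.e (nat_lit 163977) (nat_lit 30) .nil)))))))) (.g (nat_lit 1) (.e (nat_lit 414385) (nat_lit 0) .nil) .nil))) 
(.lf (nat_lit 598757) (.g (nat_lit 1423) (.e (nat_lit 573487) (nat_lit 14) (.e (nat_lit 73753) (nat_lit 8) (.e (nat_lit 557090) (nat_lit 12) (.e (nat_lit 164006) (nat_lit 41) .nil)))) (.g (nat_lit 0) (.e (nat_lit 415124) (nat_lit 0) .nil) .nil)))) (.nd (nat_lit 9) 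
(.lf (nat_lit 598501) (.g (nat_lit 3946) (.e (nat_lit 573485) (nat_lit 13) (.e (nat_lit 65619) (nat_lit 10) (.e (nat_lit 344117) (nat_lit 21) (.e (nat_lit 516151) (nat_lit 9) (.e (nat_lit 426409) (nat_lit 15) (.e (nat_lit 7936) (nat_lit 142) (.e (nat_lit 704589) (nat_lit 3) (.e (nat_lit 163978) (nat_lit 30) .nil)))))))) (.g (nat_lit 1) (.e (nat_lit 414682) (nat_lit 0) .nil) .nil))) 
(.lf (nat_lit 599013) (.g (nat_lit 744) (.e (nat_lit 573489) (nat_lit 14) (.e (nat_lit 73754) (nat_lit 8) (.e (nat_lit 557089) (nat_lit 12) .nil))) (.g (nat_lit 0) (.e (nat_lit 415822) (nat_lit 0) .nil) .nil)))))))) (.nd (nat_lit 5) (.nd (nat_lit 6) (.nd (nat_lit 7) (.nd (nat_lit 8) (.nd (nat_lit 9) 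
(.lf (nat_lit 598037) (.g (nat_lit 3023) (.e (nat_lit 573484) (nat_lit 13) (.e (nat_lit 65610) (nat_lit 10) (.e (nat_lit 344117) (nat_lit 21) (.e (nat_lit 516151) (nat_lit 9) (.e (nat_lit 433920) (nat_lit 19) (.e (nat_lit 114432) (nat_lit 3) (.e (nat_lit 163974) (nat_lit 30) .nil))))))) (.g (nat_lit 1) (.e (nat_lit 413934) (nat_lit 0) .nil) .nil))) 
(.lf (nat_lit 598549) (.g (nat_lit 2431) (.e (nat_lit 573485) (nat_lit 13) (.e (nat_lit 65619) (nat_lit 10) (.e (nat_lit 344117) (nat_lit 21) (.e (nat_lit 516185) (nat_lit 16) (.e (nat_lit 491563) (nat_lit 12) .nil))))) (.g (nat_lit 0) (.e (nat_lit 414735) (nat_lit 0) .nil) .nil)))) (.nd (nat_lit 9) 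
(.lf (nat_lit 598293) (.g (nat_lit 3455) (.e (nat_lit 573485) (nat_lit 13) (.e (nat_lit 65604) (nat_lit 9) (.e (nat_lit 336013) (nat_lit 2) (.e (nat_lit 90171) (nat_lit 14) .nil)))) (.g (nat_lit 0) (.e (nat_lit 414436) (nat_lit 0) .nil) .nil))) 
(.lf (nat_lit 598805) (.g (nat_lit 1197) (.e (nat_lit 573487) (nat_lit 14) (.e (nat_lit 73753) (nat_lit 8) (.e (nat_lit 557103) (nat_lit 14) (.e (nat_lit 180244) (nat_lit 5) .nil)))) (.g (nat_lit 0) (.e (nat_lit 415307) (nat_lit 0) .nil) .nil))))) (.nd (nat_lit 8) (.nd (nat_lit 9) 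
(.lf (nat_lit 598165) (.g (nat_lit 1241) (.e (nat_lit 573484) (nat_lit 13) (.e (nat_lit 65630) (nat_lit 14) (.e (nat_lit 401410) (nat_lit 0) (.e (nat_lit 3114) (nat_lit 193) .nil)))) (.g (nat_lit 0) (.e (nat_lit 414235) (nat_lit 0) .nil) .nil))) 
(.lf (nat_lit 598677) (.g (nat_lit 2584) (.e (nat_lit 573485) (nat_lit 13) (.e (nat_lit 65628) (nat_lit 14) (.e (nat_lit 401425) (nat_lit 2) (.e (nat_lit 196681) (nat_lit 17) (.e (nat_lit 131119) (nat_lit 12) .nil))))) (.g (nat_lit 0) (.e (nat_lit 414933) (nat_lit 0) .nil) .nil)))) (.nd (nat_lit 9) 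
(.lf (nat_lit 598421) (.g (nat_lit 1153) (.e (nat_lit 573485) (nat_lit 13) (.e (nat_lit 65619) (nat_lit 10) (.e (nat_lit 344117) (nat_lit 21) (.e (nat_lit 516151) (nat_lit 9) .nil)))) (.g (nat_lit 0) (.e (nat_lit 414601) (nat_lit 0) .nil) .nil))) 
(.lf (nat_lit 598933) (.g (nat_lit 1583) (.e (nat_lit 573488) (nat_lit 14) (.e (nat_lit 73755) (nat_lit 8) (.e (nat_lit 557098) (nat_lit 13) (.e (nat_lit 179968) (nat_lit 17) .nil)))) (.g (nat_lit 0) (.e (nat_lit 415614) (nat_lit 0) .nil) .nil)))))) (.nd (nat_lit 7) (.nd (nat_lit 8) (.nd (nat_lit 9) 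
(.lf (nat_lit 598101) (.g (nat_lit 1709) (.e (nat_lit 573484) (nat_lit 13) (.e (nat_lit 65610) (nat_lit 10) (.e (nat_lit 344129) (nat_lit 26) (.e (nat_lit 557086) (nat_lit 11) .nil)))) (.g (nat_lit 0) (.e (nat_lit 414082) (nat_lit 0) .nil) .nil))) 
(.lf (nat_lit 598613) (.g (nat_lit 2585) (.e (nat_lit 573485) (nat_lit 13) (.e (nat_lit 65619) (nat_lit 10) (.e (nat_lit 344129) (nat_lit 26) (.e (nat_lit 557086) (nat_lit 11) (.e (nat_lit 24648) (nat_lit 12) .nil))))) (.g (nat_lit 0) (.e (nat_lit 414830) (nat_lit 0) .nil) .nil)))) (.nd (nat_lit 9) 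
(.lf (nat_lit 598357) (.g (nat_lit 4104) (.e (nat_lit 573485) (nat_lit 13) (.e (nat_lit 65619) (nat_lit 10) (.e (nat_lit 344117) (nat_lit 21) (.e (nat_lit 516099) (nat_lit 0) (.e (nat_lit 7366) (nat_lit 388) .nil))))) (.g (nat_lit 0) (.e (nat_lit 414523) (nat_lit 0) .nil) .nil))) 
(.lf (nat_lit 598869) (.g (nat_lit 3040) (.e (nat_lit 573487) (nat_lit 14) (.e (nat_lit 73781) (nat_lit 32) (.e (nat_lit 2664) (nat_lit 167) (.e (nat_lit 196674) (nat_lit 15) (.e (nat_lit 81922) (nat_lit 0) (.e (nat_lit 3305) (nat_lit 202) .nil)))))) (.g (nat_lit 1) (.e (nat_lit 415430) (nat_lit 0) .nil) .nil))))) (.nd (nat_lit 8) (.nd (nat_lit 9) 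
(.lf (nat_lit 598229) (.g (nat_lit 2491) (.e (nat_lit 573485) (nat_lit 13) (.e (nat_lit 65604) (nat_lit 9) (.e (nat_lit 336013) (nat_lit 2) (.e (nat_lit 90170) (nat_lit 13) (.e (nat_lit 172046) (nat_lit 0) .nil))))) (.g (nat_lit 0) (.e (nat_lit 414363) (nat_lit 0) .nil) .nil))) 
(.lf (nat_lit 598741) (.g (nat_lit 464) (.e (nat_lit 573487) (nat_lit 14) (.e (nat_lit 73753) (nat_lit 8) (.e (nat_lit 557089) (nat_lit 12) .nil))) (.g (nat_lit 0) (.e (nat_lit 415096) (nat_lit 0) .nil) .nil)))) (.nd (nat_lit 9) 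
(.lf (nat_lit 598485) (.g (nat_lit 3034) (.e (nat_lit 573485) (nat_lit 13) (.e (nat_lit 65619) (nat_lit 10) (.e (nat_lit 344117) (nat_lit 21) (.e (nat_lit 516151) (nat_lit 9) (.e (nat_lit 426104) (nat_lit 1) .nil))))) (.g (nat_lit 0) (.e (nat_lit 414666) (nat_lit 0) .nil) .nil))) 
(.lf (nat_lit 598997) (.g (nat_lit 666) (.e (nat_lit 573489) (nat_lit 14) (.e (nat_lit 73747) (nat_lit 3) (.e (nat_lit 516195) (nat_lit 26) .nil))) (.g (nat_lit 0) (.e (nat_lit 415794) (nat_lit 0) .nil) .nil))))))) (.nd (nat_lit 6) (.nd (nat_lit 7) (.nd (nat_lit 8) (.nd (nat_lit 9) 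
(.lf (nat_lit 598069) (.g (nat_lit 2348) (.e (nat_lit 573484) (nat_lit 13) (.e (nat_lit 65610) (nat_lit 10) (.e (nat_lit 344117) (nat_lit 21) (.e (nat_lit 516184) (nat_lit 16) (.e (nat_lit 491556) (nat_lit 9) (.e (nat_lit 336305) (nat_lit 15) (.e (nat_lit 3307) (nat_lit 202) .nil))))))) (.g (nat_lit 1) (.e (nat_lit 413993) (nat_lit 0) .nil) .nil))) 
(.lf (nat_lit 598581) (.g (nat_lit 2344) (.e (nat_lit 573485) (nat_lit 13) (.e (nat_lit 65619) (nat_lit 10) (.e (nat_lit 344129) (nat_lit 26) (.e (nat_lit 557066) (nat_lit 9) (.e (nat_lit 230) (nat_lit 21) .nil))))) (.g (nat_lit 0) (.e (nat_lit 414785) (nat_lit 0) .nil) .nil)))) (.nd (nat_lit 9) 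
(.lf (nat_lit 598325) (.g (nat_lit 4253) (.e (nat_lit 573485) (nat_lit 13) (.e (nat_lit 65604) (nat_lit 9) (.e (nat_lit 336028) (nat_lit 3) (.e (nat_lit 98366) (nat_lit 27) (.e (nat_lit 434272) (nat_lit 38) (.e (nat_lit 655375) (nat_lit 3) (.e (nat_lit 163977) (nat_lit 30) .nil))))))) (.g (nat_lit 1) (.e (nat_lit 414480) (nat_lit 0) .nil) .nil))) 
(.lf (nat_lit 598837) (.g (nat_lit 3562) (.e (nat_lit 573487) (nat_lit 14) (.e (nat_lit 73753) (nat_lit 8) (.e (nat_lit 557105) (nat_lit 14) (.e (nat_lit 180252) (nat_lit 10) (.e (nat_lit 573475) (nat_lit 12) (.e (nat_lit 57504) (nat_lit 38) (.e (nat_lit 638994) (nat_lit 7) (.e (nat_lit 163976) (nat_lit 30) .nil)))))))) (.g (nat_lit 1) (.e (nat_lit 415388) (nat_lit 0) .nil) .nil))))) 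
(.nd (nat_lit 8) (.nd (nat_lit 9) 
(.lf (nat_lit 598197) (.g (nat_lit 3800) (.e (nat_lit 573485) (nat_lit 13) (.e (nat_lit 65604) (nat_lit 9) (.e (nat_lit 336013) (nat_lit 2) (.e (nat_lit 90147) (nat_lit 9) .nil)))) (.g (nat_lit 0) (.e (nat_lit 414330) (nat_lit 0) .nil) .nil))) 
(.lf (nat_lit 598709) (.g (nat_lit 2922) (.e (nat_lit 573485) (nat_lit 13) (.e (nat_lit 65630) (nat_lit 14) (.e (nat_lit 401428) (nat_lit 3) (.e (nat_lit 204863) (nat_lit 27) (.e (nat_lit 344149) (nat_lit 33) .nil))))) (.g (nat_lit 0) (.e (nat_lit 414974) (nat_lit 0) .nil) .nil)))) (.nd (nat_lit 9) 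
(.lf (nat_lit 598453) (.g (nat_lit 4056) (.e (nat_lit 573485) (nat_lit 13) (.e (nat_lit 65619) (nat_lit 10) (.e (nat_lit 344117) (nat_lit 21) (.e (nat_lit 516151) (nat_lit 9) (.e (nat_lit 426039) (nat_lit 0) (.e (nat_lit 2458) (nat_lit 157) (.e (nat_lit 5547) (nat_lit 306) (.e (nat_lit 2611) (nat_lit 163) (.e (nat_lit 163978) (nat_lit 30) .nil))))))))) (.g (nat_lit 1) (.e (nat_lit 414633) (nat_lit 0) .nil) .nil))) 
(.lf (nat_lit 598965) (.g (nat_lit 1684) (.e (nat_lit 573488) (nat_lit 14) (.e (nat_lit 73755) (nat_lit 8) (.e (nat_lit 557105) (nat_lit 14) (.e (nat_lit 180244) (nat_lit 5) .nil)))) (.g (nat_lit 0) (.e (nat_lit 415688) (nat_lit 0) .nil) .nil)))))) (.nd (nat_lit 7) (.nd (nat_lit 8) (.nd (nat_lit 9) 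
(.lf (nat_lit 598133) (.g (nat_lit 1123) (.e (nat_lit 573484) (nat_lit 13) (.e (nat_lit 65617) (nat_lit 10) (.e (nat_lit 344132) (nat_lit 26) (.e (nat_lit 557072) (nat_lit 9) .nil)))) (.g (nat_lit 0) (.e (nat_lit 414158) (nat_lit 0) .nil) .nil))) 
(.lf (nat_lit 598645) (.g (nat_lit 2730) (.e (nat_lit 573485) (nat_lit 13) (.e (nat_lit 65619) (nat_lit 10) (.e (nat_lit 344129) (nat_lit 26) (.e (nat_lit 557087) (nat_lit 11) (.e (nat_lit 24637) (nat_lit 9) .nil))))) (.g (nat_lit 0) (.e (nat_lit 414881) (nat_lit 0) .nil) .nil)))) (.nd (nat_lit 9) 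
(.lf (nat_lit 598389) (.g (nat_lit 3275) (.e (nat_lit 573485) (nat_lit 13) (.e (nat_lit 65619) (nat_lit 10) (.e (nat_lit 344117) (nat_lit 21) (.e (nat_lit 516145) (nat_lit 9) (.e (nat_lit 433920) (nat_lit 1) (.e (nat_lit 164347) (nat_lit 240) (.e (nat_lit 2610) (nat_lit 163) (.e (nat_lit 163978) (nat_lit 30) .nil)))))))) (.g (nat_lit 1) (.e (nat_lit 414569) (nat_lit 0) .nil) .nil))) 
(.lf (nat_lit 598901) (.g (nat_lit 1388) (.e (nat_lit 573488) (nat_lit 14) (.e (nat_lit 73754) (nat_lit 8) (.e (nat_lit 557101) (nat_lit 13) (.e (nat_lit 172065) (nat_lit 3) (.e (nat_lit 204817) (nat_lit 17) .nil))))) (.g (nat_lit 0) (.e (nat_lit 415537) (nat_lit 0) .nil) .nil))))) (.nd (nat_lit 8) (.nd (nat_lit 9) 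
(.lf (nat_lit 598261) (.g (nat_lit 3853) (.e (nat_lit 573485) (nat_lit 13) (.e (nat_lit 65604) (nat_lit 9) (.e (nat_lit 336013) (nat_lit 2) (.e (nat_lit 90170) (nat_lit 13) (.e (nat_lit 172060) (nat_lit 1) (.e (nat_lit 164345) (nat_lit 240) (.e (nat_lit 2599) (nat_lit 163) (.e (nat_lit 163978) (nat_lit 30) .nil)))))))) (.g (nat_lit 1) (.e (nat_lit 414402) (nat_lit 0) .nil) .nil))) 
(.lf (nat_lit 598773) (.g (nat_lit 532) (.e (nat_lit 573487) (nat_lit 14) (.e (nat_lit 73753) (nat_lit 8) (.e (nat_lit 557094) (nat_lit 12) .nil))) (.g (nat_lit 0) (.e (nat_lit 415155) (nat_lit 0) .nil) .nil)))) (.nd (nat_lit 9) 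
(.lf (nat_lit 598517) (.g (nat_lit 4244) (.e (nat_lit 573485) (nat_lit 13) (.e (nat_lit 65619) (nat_lit 10) (.e (nat_lit 344117) (nat_lit 21) (.e (nat_lit 516159) (nat_lit 10) (.e (nat_lit 434272) (nat_lit 38) (.e (nat_lit 655375) (nat_lit 3) (.e (nat_lit 163977) (nat_lit 30) .nil))))))) (.g (nat_lit 1) (.e (nat_lit 414698) (nat_lit 0) .nil) .nil))) 
(.lf (nat_lit 599029) (.g (nat_lit 1769) (.e (nat_lit 573489) (nat_lit 14) (.e (nat_lit 73754) (nat_lit 8) (.e (nat_lit 557100) (nat_lit 13) (.e (nat_lit 179968) (nat_lit 22) .nil)))) (.g (nat_lit 0) (.e (nat_lit 415857) (nat_lit 0) .nil) .nil))))))))) (.nd (nat_lit 4) (.nd (nat_lit 5) (.nd (nat_lit 6) (.nd (nat_lit 7) (.nd (nat_lit 8) (.nd (nat_lit 9) 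
(.lf (nat_lit 598029) (.g (nat_lit 2145) (.e (nat_lit 573484) (nat_lit 13) (.e (nat_lit 65610) (nat_lit 10) (.e (nat_lit 344117) (nat_lit 21) (.e (nat_lit 516151) (nat_lit 9) (.e (nat_lit 426101) (nat_lit 1) .nil))))) (.g (nat_lit 0) (.e (nat_lit 413916) (nat_lit 0) .nil) .nil))) 
(.lf (nat_lit 598541) (.g (nat_lit 1690) (.e (nat_lit 573485) (nat_lit 13) (.e (nat_lit 65619) (nat_lit 10) (.e (nat_lit 344117) (nat_lit 21) (.e (nat_lit 516184) (nat_lit 16) (.e (nat_lit 491564) (nat_lit 12) .nil))))) (.g (nat_lit 0) (.e (nat_lit 414727) (nat_lit 0) .nil) .nil)))) (.nd (nat_lit 9) 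
(.lf (nat_lit 598285) (.g (nat_lit 2114) (.e (nat_lit 573485) (nat_lit 13) (.e (nat_lit 65604) (nat_lit 9) (.e (nat_lit 336013) (nat_lit 2) (.e (nat_lit 90170) (nat_lit 13) (.e (nat_lit 179968) (nat_lit 4) .nil))))) (.g (nat_lit 0) (.e (nat_lit 414427) (nat_lit 0) .nil) .nil))) 
(.lf (nat_lit 598797) (.g (nat_lit 1340) (.e (nat_lit 573487) (nat_lit 14) (.e (nat_lit 73753) (nat_lit 8) (.e (nat_lit 557103) (nat_lit 14) (.e (nat_lit 180243) (nat_lit 5) .nil)))) (.g (nat_lit 0) (.e (nat_lit 415277) (nat_lit 0) .nil) .nil))))) (.nd (nat_lit 8) (.nd (nat_lit 9) 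
(.lf (nat_lit 598157) (.g (nat_lit 2898) (.e (nat_lit 573484) (nat_lit 13) (.e (nat_lit 65624) (nat_lit 12) (.e (nat_lit 385074) (nat_lit 31) (.e (nat_lit 573484) (nat_lit 13) (.e (nat_lit 65623) (nat_lit 12) (.e (nat_lit 385074) (nat_lit 31) .nil)))))) (.g (nat_lit 1) (.e (nat_lit 414217) (nat_lit 0) .nil) .nil))) 
(.lf (nat_lit 598669) (.g (nat_lit 1379) (.e (nat_lit 573485) (nat_lit 13) (.e (nat_lit 65628) (nat_lit 14) (.e (nat_lit 401424) (nat_lit 2) (.e (nat_lit 196672) (nat_lit 15) .nil)))) (.g (nat_lit 0) (.e (nat_lit 414925) (nat_lit 0) .nil) .nil)))) (.nd (nat_lit 9) 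
(.lf (nat_lit 598413) (.g (nat_lit 3428) (.e (nat_lit 573485) (nat_lit 13) (.e (nat_lit 65619) (nat_lit 10) (.e (nat_lit 344117) (nat_lit 21) (.e (nat_lit 516145) (nat_lit 9) (.e (nat_lit 426402) (nat_lit 15) (.e (nat_lit 2046) (nat_lit 142) (.e (nat_lit 704589) (nat_lit 3) (.e (nat_lit 163978) (nat_lit 30) .nil)))))))) (.g (nat_lit 1) (.e (nat_lit 414593) (nat_lit 0) .nil) .nil))) 
(.lf (nat_lit 598925) (.g (nat_lit 717) (.e (nat_lit 573488) (nat_lit 14) (.e (nat_lit 73755) (nat_lit 8) (.e (nat_lit 557097) (nat_lit 13) (.e (nat_lit 179968) (nat_lit 17) .nil)))) (.g (nat_lit 0) (.e (nat_lit 415589) (nat_lit 0) .nil) .nil)))))) (.nd (nat_lit 7) (.nd (nat_lit 8) (.nd (nat_lit 9) 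
(.lf (nat_lit 598093) (.g (nat_lit 2607) (.e (nat_lit 573484) (nat_lit 13) (.e (nat_lit 65610) (nat_lit 10) (.e (nat_lit 344129) (nat_lit 26) (.e (nat_lit 557067) (nat_lit 9) (.e (nat_lit 272) (nat_lit 21) .nil))))) (.g (nat_lit 0) (.e (nat_lit 414065) (nat_lit 0) .nil) .nil))) 
(.lf (nat_lit 598605) (.g (nat_lit 1289) (.e (nat_lit 573485) (nat_lit 13) (.e (nat_lit 65619) (nat_lit 10) (.e (nat_lit 344129) (nat_lit 26) (.e (nat_lit 557085) (nat_lit 11) .nil)))) (.g (nat_lit 0) (.e (nat_lit 414822) (nat_lit 0) .nil) .nil)))) (.nd (nat_lit 9) 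
(.lf (nat_lit 598349) (.g (nat_lit 2428) (.e (nat_lit 573485) (nat_lit 13) (.e (nat_lit 65619) (nat_lit 10) (.e (nat_lit 344117) (nat_lit 21) (.e (nat_lit 516096) (nat_lit 0) (.e (nat_lit 7557) (nat_lit 402) .nil))))) (.g (nat_lit 0) (.e (nat_lit 414512) (nat_lit 0) .nil) .nil))) 
(.lf (nat_lit 598861) (.g (nat_lit 2724) (.e (nat_lit 573487) (nat_lit 14) (.e (nat_lit 73755) (nat_lit 8) (.e (nat_lit 557105) (nat_lit 14) (.e (nat_lit 180251) (nat_lit 10) (.e (nat_lit 573475) (nat_lit 12) .nil))))) (.g (nat_lit 0) (.e (nat_lit 415417) (nat_lit 0) .nil) .nil))))) (.nd (nat_lit 8) (.nd (nat_lit 9) 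
(.lf (nat_lit 598221) (.g (nat_lit 2965) (.e (nat_lit 573485) (nat_lit 13) (.e (nat_lit 65604) (nat_lit 9) (.e (nat_lit 336013) (nat_lit 2) (.e (nat_lit 90170) (nat_lit 13) (.e (nat_lit 172041) (nat_lit 0) (.e (nat_lit 3403) (nat_lit 212) (.e (nat_lit 655373) (nat_lit 3) (.e (nat_lit 163978) (nat_lit 30) .nil)))))))) (.g (nat_lit 1) (.e (nat_lit 414354) (nat_lit 0) .nil) .nil))) 
(.lf (nat_lit 598733) (.g (nat_lit 1227) (.e (nat_lit 573487) (nat_lit 14) (.e (nat_lit 73746) (nat_lit 3) (.e (nat_lit 516120) (nat_lit 1) (.e (nat_lit 164195) (nat_lit 158) .nil)))) (.g (nat_lit 0) (.e (nat_lit 415027) (nat_lit 0) .nil) .nil)))) (.nd (nat_lit 9) 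
(.lf (nat_lit 598477) (.g (nat_lit 3980) (.e (nat_lit 573485) (nat_lit 13) (.e (nat_lit 65619) (nat_lit 10) (.e (nat_lit 344117) (nat_lit 21) (.e (nat_lit 516151) (nat_lit 9) (.e (nat_lit 426047) (nat_lit 0) (.e (nat_lit 2458) (nat_lit 157) (.e (nat_lit 5547) (nat_lit 306) (.e (nat_lit 2611) (nat_lit 163) (.e (nat_lit 163978) (nat_lit 30) .nil))))))))) (.g (nat_lit 1) (.e (nat_lit 414658) (nat_lit 0) .nil) .nil))) 
(.lf (nat_lit 598989) (.g (nat_lit 2539) (.e (nat_lit 573488) (nat_lit 14) (.e (nat_lit 73755) (nat_lit 8) (.e (nat_lit 557119) (nat_lit 18) (.e (nat_lit 2798) (nat_lit 180) (.e (nat_lit 311040) (nat_lit 18) (.e (nat_lit 98366) (nat_lit 27) (.e (nat_lit 434245) (nat_lit 28) .nil))))))) (.g (nat_lit 1) (.e (nat_lit 415717) (nat_lit 0) .nil) .nil))))))) 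
(.nd (nat_lit 6) (.nd (nat_lit 7) (.nd (nat_lit 8) (.nd (nat_lit 9) 
(.lf (nat_lit 598061) (.g (nat_lit 2422) (.e (nat_lit 573484) (nat_lit 13) (.e (nat_lit 65610) (nat_lit 10) (.e (nat_lit 344117) (nat_lit 21) (.e (nat_lit 516179) (nat_lit 15) (.e (nat_lit 475207) (nat_lit 41) .nil))))) (.g (nat_lit 0) (.e (nat_lit 413971) (nat_lit 0) .nil) .nil))) 
(.lf (nat_lit 598573) (.g (nat_lit 2214) (.e (nat_lit 573485) (nat_lit 13) (.e (nat_lit 65619) (nat_lit 10) (.e (nat_lit 344129) (nat_lit 26) (.e (nat_lit 557065) (nat_lit 9) (.e (nat_lit 246) (nat_lit 21) .nil))))) (.g (nat_lit 0) (.e (nat_lit 414772) (nat_lit 0) .nil) .nil)))) (.nd (nat_lit 9) 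
(.lf (nat_lit 598317) (.g (nat_lit 2602) (.e (nat_lit 573485) (nat_lit 13) (.e (nat_lit 65604) (nat_lit 9) (.e (nat_lit 336028) (nat_lit 3) (.e (nat_lit 98359) (nat_lit 26) (.e (nat_lit 426146) (nat_lit 4) (.e (nat_lit 229663) (nat_lit 240) (.e (nat_lit 2612) (nat_lit 163) (.e (nat_lit 163977) (nat_lit 30) .nil)))))))) (.g (nat_lit 1) (.e (nat_lit 414470) (nat_lit 0) .nil) .nil))) 
(.lf (nat_lit 598829) (.g (nat_lit 2929) (.e (nat_lit 573487) (nat_lit 14) (.e (nat_lit 73753) (nat_lit 8) (.e (nat_lit 557105) (nat_lit 14) (.e (nat_lit 180251) (nat_lit 10) (.e (nat_lit 573477) (nat_lit 12) (.e (nat_lit 57502) (nat_lit 38) (.e (nat_lit 638994) (nat_lit 7) (.e (nat_lit 163975) (nat_lit 30) .nil)))))))) (.g (nat_lit 1) (.e (nat_lit 415372) (nat_lit 0) .nil) .nil))))) 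
(.nd (nat_lit 8) (.nd (nat_lit 9) 
(.lf (nat_lit 598189) (.g (nat_lit 2302) (.e (nat_lit 573485) (nat_lit 13) (.e (nat_lit 65604) (nat_lit 9) (.e (nat_lit 336013) (nat_lit 2) (.e (nat_lit 90134) (nat_lit 9) (.e (nat_lit 3097) (nat_lit 192) (.e (nat_lit 491566) (nat_lit 12) (.e (nat_lit 385073) (nat_lit 31) .nil))))))) (.g (nat_lit 1) (.e (nat_lit 414322) (nat_lit 0) .nil) .nil))) 
(.lf (nat_lit 598701) (.g (nat_lit 1401) (.e (nat_lit 573485) (nat_lit 13) (.e (nat_lit 65630) (nat_lit 14) (.e (nat_lit 401425) (nat_lit 2) (.e (nat_lit 196674) (nat_lit 15) .nil)))) (.g (nat_lit 0) (.e (nat_lit 414959) (nat_lit 0) .nil) .nil)))) (.nd (nat_lit 9) 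
(.lf (nat_lit 598445) (.g (nat_lit 4456) (.e (nat_lit 573485) (nat_lit 13) (.e (nat_lit 65619) (nat_lit 10) (.e (nat_lit 344117) (nat_lit 21) (.e (nat_lit 516151) (nat_lit 9) (.e (nat_lit 426038) (nat_lit 0) (.e (nat_lit 2458) (nat_lit 157) (.e (nat_lit 5548) (nat_lit 306) (.e (nat_lit 2610) (nat_lit 163) (.e (nat_lit 163978) (nat_lit 30) .nil))))))))) (.g (nat_lit 1) (.e (nat_lit 414625) (nat_lit 0) .nil) .nil))) 
(.lf (nat_lit 598957) (.g (nat_lit 1977) (.e (nat_lit 573488) (nat_lit 14) (.e (nat_lit 73755) (nat_lit 8) (.e (nat_lit 557104) (nat_lit 14) (.e (nat_lit 180251) (nat_lit 10) (.e (nat_lit 573478) (nat_lit 12) .nil))))) (.g (nat_lit 0) (.e (nat_lit 415679) (nat_lit 0) .nil) .nil)))))) (.nd (nat_lit 7) (.nd (nat_lit 8) (.nd (nat_lit 9) 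
(.lf (nat_lit 598125) (.g (nat_lit 270) (.e (nat_lit 573484) (nat_lit 13) (.e (nat_lit 65617) (nat_lit 10) (.e (nat_lit 344130) (nat_lit 26) .nil))) (.g (nat_lit 0) (.e (nat_lit 414127) (nat_lit 0) .nil) .nil))) 
(.lf (nat_lit 598637) (.g (nat_lit 5479) (.e (nat_lit 573485) (nat_lit 13) (.e (nat_lit 65619) (nat_lit 10) (.e (nat_lit 344129) (nat_lit 26) (.e (nat_lit 557087) (nat_lit 11) (.e (nat_lit 24628) (nat_lit 9) (.e (nat_lit 336240) (nat_lit 15) (.e (nat_lit 3309) (nat_lit 202) .nil))))))) (.g (nat_lit 1) (.e (nat_lit 414873) (nat_lit 0) .nil) .nil)))) (.nd (nat_lit 9) 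
(.lf (nat_lit 598381) (.g (nat_lit 2339) (.e (nat_lit 573485) (nat_lit 13) (.e (nat_lit 65619) (nat_lit 10) (.e (nat_lit 344117) (nat_lit 21) (.e (nat_lit 516144) (nat_lit 9) (.e (nat_lit 426382) (nat_lit 15) .nil))))) (.g (nat_lit 0) (.e (nat_lit 414561) (nat_lit 0) .nil) .nil))) 
(.lf (nat_lit 598893) (.g (nat_lit 3197) (.e (nat_lit 573488) (nat_lit 14) (.e (nat_lit 73753) (nat_lit 8) (.e (nat_lit 557105) (nat_lit 14) (.e (nat_lit 180251) (nat_lit 10) (.e (nat_lit 573473) (nat_lit 12) .nil))))) (.g (nat_lit 0) (.e (nat_lit 415528) (nat_lit 0) .nil) .nil))))) (.nd (nat_lit 8) (.nd (nat_lit 9) 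
(.lf (nat_lit 598253) (.g (nat_lit 3314) (.e (nat_lit 573485) (nat_lit 13) (.e (nat_lit 65604) (nat_lit 9) (.e (nat_lit 336013) (nat_lit 2) (.e (nat_lit 90170) (nat_lit 13) (.e (nat_lit 172052) (nat_lit 0) .nil))))) (.g (nat_lit 0) (.e (nat_lit 414393) (nat_lit 0) .nil) .nil))) 
(.lf (nat_lit 598765) (.g (nat_lit 1556) (.e (nat_lit 573487) (nat_lit 14) (.e (nat_lit 73753) (nat_lit 8) (.e (nat_lit 557091) (nat_lit 12) (.e (nat_lit 163841) (nat_lit 0) .nil)))) (.g (nat_lit 0) (.e (nat_lit 415141) (nat_lit 0) .nil) .nil)))) (.nd (nat_lit 9) 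
(.lf (nat_lit 598509) (.g (nat_lit 2276) (.e (nat_lit 573485) (nat_lit 13) (.e (nat_lit 65619) (nat_lit 10) (.e (nat_lit 344117) (nat_lit 21) (.e (nat_lit 516153) (nat_lit 9) (.e (nat_lit 426144) (nat_lit 4) .nil))))) (.g (nat_lit 0) (.e (nat_lit 414690) (nat_lit 0) .nil) .nil))) 
(.lf (nat_lit 599021) (.g (nat_lit 2832) (.e (nat_lit 573489) (nat_lit 14) (.e (nat_lit 73754) (nat_lit 8) (.e (nat_lit 557100) (nat_lit 13) (.e (nat_lit 172065) (nat_lit 3) (.e (nat_lit 204821) (nat_lit 17) .nil))))) (.g (nat_lit 0) (.e (nat_lit 415843) (nat_lit 0) .nil) .nil)))))))) (.nd (nat_lit 5) (.nd (nat_lit 6) (.nd (nat_lit 7) (.nd (nat_lit 8) (.nd (nat_lit 9) 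
(.lf (nat_lit 598045) (.g (nat_lit 1952) (.e (nat_lit 573484) (nat_lit 13) (.e (nat_lit 65610) (nat_lit 10) (.e (nat_lit 344117) (nat_lit 21) (.e (nat_lit 516161) (nat_lit 10) .nil)))) (.g (nat_lit 0) (.e (nat_lit 413952) (nat_lit 0) .nil) .nil))) 
(.lf (nat_lit 598557) (.g (nat_lit 1989) (.e (nat_lit 573485) (nat_lit 13) (.e (nat_lit 65619) (nat_lit 10) (.e (nat_lit 344126) (nat_lit 25) (.e (nat_lit 548874) (nat_lit 5) (.e (nat_lit 1572) (nat_lit 110) .nil))))) (.g (nat_lit 0) (.e (nat_lit 414746) (nat_lit 0) .nil) .nil)))) (.nd (nat_lit 9) 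
(.lf (nat_lit 598301) (.g (nat_lit 3437) (.e (nat_lit 573485) (nat_lit 13) (.e (nat_lit 65604) (nat_lit 9) (.e (nat_lit 336013) (nat_lit 2) (.e (nat_lit 90198) (nat_lit 18) .nil)))) (.g (nat_lit 0) (.e (nat_lit 414445) (nat_lit 0) .nil) .nil))) 
(.lf (nat_lit 598813) (.g (nat_lit 2915) (.e (nat_lit 573487) (nat_lit 14) (.e (nat_lit 73753) (nat_lit 8) (.e (nat_lit 557103) (nat_lit 14) (.e (nat_lit 180250) (nat_lit 10) (.e (nat_lit 573473) (nat_lit 12) (.e (nat_lit 57503) (nat_lit 38) (.e (nat_lit 638994) (nat_lit 7) (.e (nat_lit 163976) (nat_lit 30) .nil)))))))) (.g (nat_lit 1) (.e (nat_lit 415344) (nat_lit 0) .nil) .nil))))) 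
(.nd (nat_lit 8) (.nd (nat_lit 9) 
(.lf (nat_lit 598173) (.g (nat_lit 1599) (.e (nat_lit 573485) (nat_lit 13) (.e (nat_lit 65567) (nat_lit 2) (.e (nat_lit 90160) (nat_lit 11) (.e (nat_lit 24671) (nat_lit 15) .nil)))) (.g (nat_lit 0) (.e (nat_lit 414265) (nat_lit 0) .nil) .nil))) 
(.lf (nat_lit 598685) (.g (nat_lit 1865) (.e (nat_lit 573485) (nat_lit 13) (.e (nat_lit 65628) (nat_lit 14) (.e (nat_lit 401428) (nat_lit 3) (.e (nat_lit 204861) (nat_lit 26) (.e (nat_lit 336203) (nat_lit 12) .nil))))) (.g (nat_lit 0) (.e (nat_lit 414942) (nat_lit 0) .nil) .nil)))) (.nd (nat_lit 9) 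
(.lf (nat_lit 598429) (.g (nat_lit 2991) (.e (nat_lit 573485) (nat_lit 13) (.e (nat_lit 65619) (nat_lit 10) (.e (nat_lit 344117) (nat_lit 21) (.e (nat_lit 516151) (nat_lit 9) (.e (nat_lit 426022) (nat_lit 0) (.e (nat_lit 7936) (nat_lit 211) (.e (nat_lit 647180) (nat_lit 3) (.e (nat_lit 163978) (nat_lit 30) .nil)))))))) (.g (nat_lit 1) (.e (nat_lit 414609) (nat_lit 0) .nil) .nil))) 
(.lf (nat_lit 598941) (.g (nat_lit 2702) (.e (nat_lit 573488) (nat_lit 14) (.e (nat_lit 73755) (nat_lit 8) (.e (nat_lit 557103) (nat_lit 14) (.e (nat_lit 180250) (nat_lit 10) (.e (nat_lit 573473) (nat_lit 12) (.e (nat_lit 57503) (nat_lit 38) (.e (nat_lit 638994) (nat_lit 7) (.e (nat_lit 163976) (nat_lit 30) .nil)))))))) (.g (nat_lit 1) (.e (nat_lit 415642) (nat_lit 0) .nil) .nil)))))) 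
(.nd (nat_lit 7) (.nd (nat_lit 8) (.nd (nat_lit 9) 
(.lf (nat_lit 598109) (.g (nat_lit 3081) (.e (nat_lit 573484) (nat_lit 13) (.e (nat_lit 65610) (nat_lit 10) (.e (nat_lit 344129) (nat_lit 26) (.e (nat_lit 557087) (nat_lit 11) (.e (nat_lit 24626) (nat_lit 9) (.e (nat_lit 336258) (nat_lit 15) (.e (nat_lit 3309) (nat_lit 202) .nil))))))) (.g (nat_lit 1) (.e (nat_lit 414092) (nat_lit 0) .nil) .nil))) 
(.lf (nat_lit 598621) (.g (nat_lit 2453) (.e (nat_lit 573485) (nat_lit 13) (.e (nat_lit 65619) (nat_lit 10) (.e (nat_lit 344129) (nat_lit 26) (.e (nat_lit 557087) (nat_lit 11) (.e (nat_lit 24597) (nat_lit 1) .nil))))) (.g (nat_lit 0) (.e (nat_lit 414847) (nat_lit 0) .nil) .nil)))) (.nd (nat_lit 9) 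
(.lf (nat_lit 598365) (.g (nat_lit 2656) (.e (nat_lit 573485) (nat_lit 13) (.e (nat_lit 65619) (nat_lit 10) (.e (nat_lit 344117) (nat_lit 21) (.e (nat_lit 516106) (nat_lit 0) (.e (nat_lit 6986) (nat_lit 377) (.e (nat_lit 2777) (nat_lit 178) (.e (nat_lit 294656) (nat_lit 15) (.e (nat_lit 3307) (nat_lit 202) .nil)))))))) (.g (nat_lit 1) (.e (nat_lit 414538) (nat_lit 0) .nil) .nil))) 
(.lf (nat_lit 598877) (.g (nat_lit 2521) (.e (nat_lit 573488) (nat_lit 14) (.e (nat_lit 73747) (nat_lit 3) (.e (nat_lit 516106) (nat_lit 0) (.e (nat_lit 3579) (nat_lit 223) (.e (nat_lit 745476) (nat_lit 0) .nil))))) (.g (nat_lit 0) (.e (nat_lit 415498) (nat_lit 0) .nil) .nil))))) (.nd (nat_lit 8) (.nd (nat_lit 9) 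
(.lf (nat_lit 598237) (.g (nat_lit 3014) (.e (nat_lit 573485) (nat_lit 13) (.e (nat_lit 65604) (nat_lit 9) (.e (nat_lit 336013) (nat_lit 2) (.e (nat_lit 90170) (nat_lit 13) (.e (nat_lit 172046) (nat_lit 0) (.e (nat_lit 3407) (nat_lit 212) (.e (nat_lit 655373) (nat_lit 3) (.e (nat_lit 163978) (nat_lit 30) .nil)))))))) (.g (nat_lit 1) (.e (nat_lit 414376) (nat_lit 0) .nil) .nil))) 
(.lf (nat_lit 598749) (.g (nat_lit 2530) (.e (nat_lit 573487) (nat_lit 14) (.e (nat_lit 73753) (nat_lit 8) (.e (nat_lit 557090) (nat_lit 12) (.e (nat_lit 163843) (nat_lit 0) (.e (nat_lit 5943) (nat_lit 322) .nil))))) (.g (nat_lit 0) (.e (nat_lit 415106) (nat_lit 0) .nil) .nil)))) (.nd (nat_lit 9) 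
(.lf (nat_lit 598493) (.g (nat_lit 1856) (.e (nat_lit 573485) (nat_lit 13) (.e (nat_lit 65619) (nat_lit 10) (.e (nat_lit 344117) (nat_lit 21) (.e (nat_lit 516151) (nat_lit 9) (.e (nat_lit 426142) (nat_lit 4) .nil))))) (.g (nat_lit 0) (.e (nat_lit 414674) (nat_lit 0) .nil) .nil))) 
(.lf (nat_lit 599005) (.g (nat_lit 731) (.e (nat_lit 573489) (nat_lit 14) (.e (nat_lit 73753) (nat_lit 8) (.e (nat_lit 557103) (nat_lit 14) .nil))) (.g (nat_lit 0) (.e (nat_lit 415808) (nat_lit 0) .nil) .nil))))))) (.nd (nat_lit 6) (.nd (nat_lit 7) (.nd (nat_lit 8) (.nd (nat_lit 9) 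
(.lf (nat_lit 598077) (.g (nat_lit 4672) (.e (nat_lit 573484) (nat_lit 13) (.e (nat_lit 65610) (nat_lit 10) (.e (nat_lit 344117) (nat_lit 21) (.e (nat_lit 516185) (nat_lit 16) (.e (nat_lit 491554) (nat_lit 9) (.e (nat_lit 336295) (nat_lit 15) (.e (nat_lit 3305) (nat_lit 202) .nil))))))) (.g (nat_lit 1) (.e (nat_lit 414002) (nat_lit 0) .nil) .nil))) 
(.lf (nat_lit 598589) (.g (nat_lit 1181) (.e (nat_lit 573485) (nat_lit 13) (.e (nat_lit 65619) (nat_lit 10) (.e (nat_lit 344129) (nat_lit 26) (.e (nat_lit 557067) (nat_lit 9) .nil)))) (.g (nat_lit 0) (.e (nat_lit 414800) (nat_lit 0) .nil) .nil)))) (.nd (nat_lit 9) 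
(.lf (nat_lit 598333) (.g (nat_lit 2891) (.e (nat_lit 573485) (nat_lit 13) (.e (nat_lit 65604) (nat_lit 9) (.e (nat_lit 336028) (nat_lit 3) (.e (nat_lit 98384) (nat_lit 32) (.e (nat_lit 475197) (nat_lit 40) .nil))))) (.g (nat_lit 0) (.e (nat_lit 414492) (nat_lit 0) .nil) .nil))) 
(.lf (nat_lit 598845) (.g (nat_lit 1857) (.e (nat_lit 573487) (nat_lit 14) (.e (nat_lit 73754) (nat_lit 8) (.e (nat_lit 557105) (nat_lit 14) (.e (nat_lit 180251) (nat_lit 10) (.e (nat_lit 573478) (nat_lit 12) .nil))))) (.g (nat_lit 0) (.e (nat_lit 415398) (nat_lit 0) .nil) .nil))))) (.nd (nat_lit 8) (.nd (nat_lit 9) 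
(.lf (nat_lit 598205) (.g (nat_lit 2897) (.e (nat_lit 573485) (nat_lit 13) (.e (nat_lit 65604) (nat_lit 9) (.e (nat_lit 336013) (nat_lit 2) (.e (nat_lit 90170) (nat_lit 13) (.e (nat_lit 172032) (nat_lit 0) (.e (nat_lit 3401) (nat_lit 211) (.e (nat_lit 647180) (nat_lit 3) (.e (nat_lit 163978) (nat_lit 30) .nil)))))))) (.g (nat_lit 1) (.e (nat_lit 414338) (nat_lit 0) .nil) .nil))) 
(.lf (nat_lit 598717) (.g (nat_lit 543) (.e (nat_lit 573486) (nat_lit 14) (.e (nat_lit 73753) (nat_lit 8) (.e (nat_lit 557098) (nat_lit 13) .nil))) (.g (nat_lit 0) (.e (nat_lit 414983) (nat_lit 0) .nil) .nil)))) (.nd (nat_lit 9) 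
(.lf (nat_lit 598461) (.g (nat_lit 3590) (.e (nat_lit 573485) (nat_lit 13) (.e (nat_lit 65619) (nat_lit 10) (.e (nat_lit 344117) (nat_lit 21) (.e (nat_lit 516151) (nat_lit 9) (.e (nat_lit 426042) (nat_lit 0) (.e (nat_lit 2458) (nat_lit 157) (.e (nat_lit 5547) (nat_lit 306) (.e (nat_lit 2610) (nat_lit 163) (.e (nat_lit 163977) (nat_lit 30) .nil))))))))) (.g (nat_lit 1) (.e (nat_lit 414642) (nat_lit 0) .nil) .nil))) 
(.lf (nat_lit 598973) (.g (nat_lit 2984) (.e (nat_lit 573488) (nat_lit 14) (.e (nat_lit 73755) (nat_lit 8) (.e (nat_lit 557105) (nat_lit 14) (.e (nat_lit 180252) (nat_lit 10) (.e (nat_lit 573472) (nat_lit 12) .nil))))) (.g (nat_lit 0) (.e (nat_lit 415701) (nat_lit 0) .nil) .nil)))))) (.nd (nat_lit 7) (.nd (nat_lit 8) (.nd (nat_lit 9) 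
(.lf (nat_lit 598141) (.g (nat_lit 2269) (.e (nat_lit 573484) (nat_lit 13) (.e (nat_lit 65617) (nat_lit 10) (.e (nat_lit 344133) (nat_lit 26) (.e (nat_lit 557072) (nat_lit 9) (.e (nat_lit 290) (nat_lit 21) .nil))))) (.g (nat_lit 0) (.e (nat_lit 414183) (nat_lit 0) .nil) .nil))) 
(.lf (nat_lit 598653) (.g (nat_lit 2110) (.e (nat_lit 573485) (nat_lit 13) (.e (nat_lit 65619) (nat_lit 10) (.e (nat_lit 344129) (nat_lit 26) (.e (nat_lit 557087) (nat_lit 11) (.e (nat_lit 32512) (nat_lit 12) (.e (nat_lit 385073) (nat_lit 31) .nil)))))) (.g (nat_lit 1) (.e (nat_lit 414889) (nat_lit 0) .nil) .nil)))) (.nd (nat_lit 9) 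
(.lf (nat_lit 598397) (.g (nat_lit 3470) (.e (nat_lit 573485) (nat_lit 13) (.e (nat_lit 65619) (nat_lit 10) (.e (nat_lit 344117) (nat_lit 21) (.e (nat_lit 516145) (nat_lit 9) (.e (nat_lit 426352) (nat_lit 15) .nil))))) (.g (nat_lit 0) (.e (nat_lit 414577) (nat_lit 0) .nil) .nil))) 
(.lf (nat_lit 598909) (.g (nat_lit 2965) (.e (nat_lit 573488) (nat_lit 14) (.e (nat_lit 73754) (nat_lit 8) (.e (nat_lit 557105) (nat_lit 14) (.e (nat_lit 180252) (nat_lit 10) (.e (nat_lit 573475) (nat_lit 12) (.e (nat_lit 57500) (nat_lit 37) (.e (nat_lit 630799) (nat_lit 7) (.e (nat_lit 163976) (nat_lit 30) .nil)))))))) (.g (nat_lit 1) (.e (nat_lit 415545) (nat_lit 0) .nil) .nil))))) 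
(.nd (nat_lit 8) (.nd (nat_lit 9) 
(.lf (nat_lit 598269) (.g (nat_lit 3857) (.e (nat_lit 573485) (nat_lit 13) (.e (nat_lit 65604) (nat_lit 9) (.e (nat_lit 336013) (nat_lit 2) (.e (nat_lit 90170) (nat_lit 13) (.e (nat_lit 172060) (nat_lit 1) (.e (nat_lit 164348) (nat_lit 240) (.e (nat_lit 2611) (nat_lit 163) (.e (nat_lit 163978) (nat_lit 30) .nil)))))))) (.g (nat_lit 1) (.e (nat_lit 414410) (nat_lit 0) .nil) .nil))) 
(.lf (nat_lit 598781) (.g (nat_lit 2785) (.e (nat_lit 573487) (nat_lit 14) (.e (nat_lit 73753) (nat_lit 8) (.e (nat_lit 557098) (nat_lit 13) (.e (nat_lit 172067) (nat_lit 3) (.e (nat_lit 204814) (nat_lit 17) .nil))))) (.g (nat_lit 0) (.e (nat_lit 415198) (nat_lit 0) .nil) .nil)))) (.nd (nat_lit 9) 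
(.lf (nat_lit 598525) (.g (nat_lit 2331) (.e (nat_lit 573485) (nat_lit 13) (.e (nat_lit 65619) (nat_lit 10) (.e (nat_lit 344117) (nat_lit 21) (.e (nat_lit 516160) (nat_lit 10) (.e (nat_lit 434215) (nat_lit 18) .nil))))) (.g (nat_lit 0) (.e (nat_lit 414706) (nat_lit 0) .nil) .nil))) 
(.lf (nat_lit 599037) (.g (nat_lit 1822) (.e (nat_lit 573489) (nat_lit 14) (.e (nat_lit 73754) (nat_lit 8) (.e (nat_lit 557103) (nat_lit 14) (.e (nat_lit 180244) (nat_lit 5) .nil)))) (.g (nat_lit 0) (.e (nat_lit 415880) (nat_lit 0) .nil) .nil))))))))))) (.nd (nat_lit 2) (.nd (nat_lit 3) (.nd (nat_lit 4) (.nd (nat_lit 5) (.nd (nat_lit 6) (.nd (nat_lit 7) (.nd (nat_lit 8) (.nd (nat_lit 9) 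
(.lf (nat_lit 598019) (.g (nat_lit 3528) (.e (nat_lit 573484) (nat_lit 13) (.e (nat_lit 65610) (nat_lit 10) (.e (nat_lit 344117) (nat_lit 21) (.e (nat_lit 516151) (nat_lit 9) (.e (nat_lit 426047) (nat_lit 0) (.e (nat_lit 2478) (nat_lit 157) (.e (nat_lit 5548) (nat_lit 306) (.e (nat_lit 2610) (nat_lit 163) (.e (nat_lit 163978) (nat_lit 30) .nil))))))))) (.g (nat_lit 1) (.e (nat_lit 413904) (nat_lit 0) .nil) .nil))) 
(.lf (nat_lit 598531) (.g (nat_lit 2237) (.e (nat_lit 573485) (nat_lit 13) (.e (nat_lit 65619) (nat_lit 10) (.e (nat_lit 344117) (nat_lit 21) (.e (nat_lit 516170) (nat_lit 13) (.e (nat_lit 458774) (nat_lit 18) .nil))))) (.g (nat_lit 0) (.e (nat_lit 414712) (nat_lit 0) .nil) .nil)))) (.nd (nat_lit 9) 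
(.lf (nat_lit 598275) (.g (nat_lit 2176) (.e (nat_lit 573485) (nat_lit 13) (.e (nat_lit 65604) (nat_lit 9) (.e (nat_lit 336013) (nat_lit 2) (.e (nat_lit 90170) (nat_lit 13) (.e (nat_lit 172069) (nat_lit 4) .nil))))) (.g (nat_lit 0) (.e (nat_lit 414417) (nat_lit 0) .nil) .nil))) 
(.lf (nat_lit 598787) (.g (nat_lit 1629) (.e (nat_lit 573487) (nat_lit 14) (.e (nat_lit 73753) (nat_lit 8) (.e (nat_lit 557100) (nat_lit 13) (.e (nat_lit 172067) (nat_lit 3) .nil)))) (.g (nat_lit 0) (.e (nat_lit 415239) (nat_lit 0) .nil) .nil))))) (.nd (nat_lit 8) (.nd (nat_lit 9) 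
(.lf (nat_lit 598147) (.g (nat_lit 2180) (.e (nat_lit 573484) (nat_lit 13) (.e (nat_lit 65617) (nat_lit 10) (.e (nat_lit 344133) (nat_lit 26) (.e (nat_lit 557087) (nat_lit 11) (.e (nat_lit 24625) (nat_lit 9) .nil))))) (.g (nat_lit 0) (.e (nat_lit 414192) (nat_lit 0) .nil) .nil))) 
(.lf (nat_lit 598659) (.g (nat_lit 218) (.e (nat_lit 573485) (nat_lit 13) (.e (nat_lit 65620) (nat_lit 10) (.e (nat_lit 344126) (nat_lit 25) .nil))) (.g (nat_lit 0) (.e (nat_lit 414899) (nat_lit 0) .nil) .nil)))) (.nd (nat_lit 9) 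
(.lf (nat_lit 598403) (.g (nat_lit 3653) (.e (nat_lit 573485) (nat_lit 13) (.e (nat_lit 65619) (nat_lit 10) (.e (nat_lit 344117) (nat_lit 21) (.e (nat_lit 516145) (nat_lit 9) (.e (nat_lit 426364) (nat_lit 15) (.e (nat_lit 2160) (nat_lit 143) (.e (nat_lit 712719) (nat_lit 15) (.e (nat_lit 3304) (nat_lit 202) .nil)))))))) (.g (nat_lit 1) (.e (nat_lit 414583) (nat_lit 0) .nil) .nil))) 
(.lf (nat_lit 598915) (.g (nat_lit 2515) (.e (nat_lit 573488) (nat_lit 14) (.e (nat_lit 73755) (nat_lit 8) (.e (nat_lit 557090) (nat_lit 12) (.e (nat_lit 163843) (nat_lit 0) (.e (nat_lit 5940) (nat_lit 322) (.e (nat_lit 57379) (nat_lit 3) (.e (nat_lit 98366) (nat_lit 27) (.e (nat_lit 434242) (nat_lit 28) .nil)))))))) (.g (nat_lit 1) (.e (nat_lit 415557) (nat_lit 0) .nil) .nil)))))) 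
(.nd (nat_lit 7) (.nd (nat_lit 8) (.nd (nat_lit 9) 
(.lf (nat_lit 598083) (.g (nat_lit 2289) (.e (nat_lit 573484) (nat_lit 13) (.e (nat_lit 65610) (nat_lit 10) (.e (nat_lit 344129) (nat_lit 26) (.e (nat_lit 557064) (nat_lit 9) .nil)))) (.g (nat_lit 0) (.e (nat_lit 414034) (nat_lit 0) .nil) .nil))) 
(.lf (nat_lit 598595) (.g (nat_lit 2810) (.e (nat_lit 573485) (nat_lit 13) (.e (nat_lit 65619) (nat_lit 10) (.e (nat_lit 344129) (nat_lit 26) (.e (nat_lit 557070) (nat_lit 9) (.e (nat_lit 313) (nat_lit 23) .nil))))) (.g (nat_lit 0) (.e (nat_lit 414807) (nat_lit 0) .nil) .nil)))) (.nd (nat_lit 9) 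
(.lf (nat_lit 598339) (.g (nat_lit 2150) (.e (nat_lit 573485) (nat_lit 13) (.e (nat_lit 65610) (nat_lit 10) (.e (nat_lit 344117) (nat_lit 21) (.e (nat_lit 516179) (nat_lit 15) .nil)))) (.g (nat_lit 0) (.e (nat_lit 414499) (nat_lit 0) .nil) .nil))) 
(.lf (nat_lit 598851) (.g (nat_lit 1966) (.e (nat_lit 573487) (nat_lit 14) (.e (nat_lit 73755) (nat_lit 8) (.e (nat_lit 557091) (nat_lit 12) (.e (nat_lit 164007) (nat_lit 41) .nil)))) (.g (nat_lit 0) (.e (nat_lit 415405) (nat_lit 0) .nil) .nil))))) (.nd (nat_lit 8) (.nd (nat_lit 9) 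
(.lf (nat_lit 598211) (.g (nat_lit 2729) (.e (nat_lit 573485) (nat_lit 13) (.e (nat_lit 65604) (nat_lit 9) (.e (nat_lit 336013) (nat_lit 2) (.e (nat_lit 90170) (nat_lit 13) (.e (nat_lit 172038) (nat_lit 0) (.e (nat_lit 3397) (nat_lit 211) (.e (nat_lit 647180) (nat_lit 3) (.e (nat_lit 163978) (nat_lit 30) .nil)))))))) (.g (nat_lit 1) (.e (nat_lit 414344) (nat_lit 0) .nil) .nil))) 
(.lf (nat_lit 598723) (.g (nat_lit 1978) (.e (nat_lit 573486) (nat_lit 14) (.e (nat_lit 73754) (nat_lit 8) (.e (nat_lit 557101) (nat_lit 13) (.e (nat_lit 172064) (nat_lit 2) (.e (nat_lit 204544) (nat_lit 2) .nil))))) (.g (nat_lit 0) (.e (nat_lit 414992) (nat_lit 0) .nil) .nil)))) (.nd (nat_lit 9) 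
(.lf (nat_lit 598467) (.g (nat_lit 3578) (.e (nat_lit 573485) (nat_lit 13) (.e (nat_lit 65619) (nat_lit 10) (.e (nat_lit 344117) (nat_lit 21) (.e (nat_lit 516151) (nat_lit 9) (.e (nat_lit 426042) (nat_lit 0) (.e (nat_lit 3406) (nat_lit 212) (.e (nat_lit 655375) (nat_lit 3) (.e (nat_lit 163977) (nat_lit 30) .nil)))))))) (.g (nat_lit 1) (.e (nat_lit 414648) (nat_lit 0) .nil) .nil))) 
(.lf (nat_lit 598979) (.g (nat_lit 2292) (.e (nat_lit 573488) (nat_lit 14) (.e (nat_lit 73755) (nat_lit 8) (.e (nat_lit 557105) (nat_lit 14) (.e (nat_lit 180252) (nat_lit 10) (.e (nat_lit 573475) (nat_lit 12) .nil))))) (.g (nat_lit 0) (.e (nat_lit 415707) (nat_lit 0) .nil) .nil))))))) (.nd (nat_lit 6) (.nd (nat_lit 7) (.nd (nat_lit 8) (.nd (nat_lit 9) 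
(.lf (nat_lit 598051) (.g (nat_lit 2540) (.e (nat_lit 573484) (nat_lit 13) (.e (nat_lit 65610) (nat_lit 10) (.e (nat_lit 344117) (nat_lit 21) (.e (nat_lit 516179) (nat_lit 15) (.e (nat_lit 475195) (nat_lit 40) .nil))))) (.g (nat_lit 0) (.e (nat_lit 413960) (nat_lit 0) .nil) .nil))) 
(.lf (nat_lit 598563) (.g (nat_lit 2665) (.e (nat_lit 573485) (nat_lit 13) (.e (nat_lit 65619) (nat_lit 10) (.e (nat_lit 344126) (nat_lit 25) (.e (nat_lit 548889) (nat_lit 9) (.e (nat_lit 65598) (nat_lit 9) .nil))))) (.g (nat_lit 0) (.e (nat_lit 414759) (nat_lit 0) .nil) .nil)))) (.nd (nat_lit 9) 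
(.lf (nat_lit 598307) (.g (nat_lit 2111) (.e (nat_lit 573485) (nat_lit 13) (.e (nat_lit 65604) (nat_lit 9) (.e (nat_lit 336028) (nat_lit 3) (.e (nat_lit 98350) (nat_lit 24) (.e (nat_lit 409617) (nat_lit 10) .nil))))) (.g (nat_lit 0) (.e (nat_lit 414453) (nat_lit 0) .nil) .nil))) 
(.lf (nat_lit 598819) (.g (nat_lit 3171) (.e (nat_lit 573487) (nat_lit 14) (.e (nat_lit 73753) (nat_lit 8) (.e (nat_lit 557104) (nat_lit 14) (.e (nat_lit 180252) (nat_lit 10) (.e (nat_lit 573475) (nat_lit 12) (.e (nat_lit 57503) (nat_lit 38) (.e (nat_lit 638994) (nat_lit 7) (.e (nat_lit 163975) (nat_lit 30) .nil)))))))) (.g (nat_lit 1) (.e (nat_lit 415356) (nat_lit 0) .nil) .nil))))) 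
(.nd (nat_lit 8) (.nd (nat_lit 9) 
(.lf (nat_lit 598179) (.g (nat_lit 2148) (.e (nat_lit 573485) (nat_lit 13) (.e (nat_lit 65571) (nat_lit 3) (.e (nat_lit 98333) (nat_lit 18) (.e (nat_lit 164196) (nat_lit 158) .nil)))) (.g (nat_lit 0) (.e (nat_lit 414295) (nat_lit 0) .nil) .nil))) 
(.lf (nat_lit 598691) (.g (nat_lit 1889) (.e (nat_lit 573485) (nat_lit 13) (.e (nat_lit 65628) (nat_lit 14) (.e (nat_lit 401428) (nat_lit 3) (.e (nat_lit 204877) (nat_lit 31) (.e (nat_lit 376835) (nat_lit 0) (.e (nat_lit 3295) (nat_lit 202) .nil)))))) (.g (nat_lit 1) (.e (nat_lit 414948) (nat_lit 0) .nil) .nil)))) (.nd (nat_lit 9) 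
(.lf (nat_lit 598435) (.g (nat_lit 4305) (.e (nat_lit 573485) (nat_lit 13) (.e (nat_lit 65619) (nat_lit 10) (.e (nat_lit 344117) (nat_lit 21) (.e (nat_lit 516151) (nat_lit 9) (.e (nat_lit 426037) (nat_lit 0) (.e (nat_lit 2458) (nat_lit 157) (.e (nat_lit 5547) (nat_lit 306) (.e (nat_lit 2610) (nat_lit 163) (.e (nat_lit 163978) (nat_lit 30) .nil))))))))) (.g (nat_lit 1) (.e (nat_lit 414615) (nat_lit 0) .nil) .nil))) 
(.lf (nat_lit 598947) (.g (nat_lit 2940) (.e (nat_lit 573488) (nat_lit 14) (.e (nat_lit 73755) (nat_lit 8) (.e (nat_lit 557103) (nat_lit 14) (.e (nat_lit 180250) (nat_lit 10) (.e (nat_lit 573475) (nat_lit 12) (.e (nat_lit 57504) (nat_lit 38) (.e (nat_lit 638994) (nat_lit 7) (.e (nat_lit 163975) (nat_lit 30) .nil)))))))) (.g (nat_lit 1) (.e (nat_lit 415648) (nat_lit 0) .nil) .nil)))))) 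
(.nd (nat_lit 7) (.nd (nat_lit 8) (.nd (nat_lit 9) 
(.lf (nat_lit 598115) (.g (nat_lit 2948) (.e (nat_lit 573484) (nat_lit 13) (.e (nat_lit 65610) (nat_lit 10) (.e (nat_lit 344129) (nat_lit 26) (.e (nat_lit 557087) (nat_lit 11) (.e (nat_lit 24650) (nat_lit 12) (.e (nat_lit 385072) (nat_lit 31) .nil)))))) (.g (nat_lit 1) (.e (nat_lit 414098) (nat_lit 0) .nil) .nil))) 
(.lf (nat_lit 598627) (.g (nat_lit 3831) (.e (nat_lit 573485) (nat_lit 13) (.e (nat_lit 65619) (nat_lit 10) (.e (nat_lit 344129) (nat_lit 26) (.e (nat_lit 557087) (nat_lit 11) (.e (nat_lit 24623) (nat_lit 9) (.e (nat_lit 336258) (nat_lit 15) (.e (nat_lit 3309) (nat_lit 202) .nil))))))) (.g (nat_lit 1) (.e (nat_lit 414863) (nat_lit 0) .nil) .nil)))) (.nd (nat_lit 9) 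
(.lf (nat_lit 598371) (.g (nat_lit 3172) (.e (nat_lit 573485) (nat_lit 13) (.e (nat_lit 65619) (nat_lit 10) (.e (nat_lit 344117) (nat_lit 21) (.e (nat_lit 516115) (nat_lit 1) (.e (nat_lit 171776) (nat_lit 262) .nil))))) (.g (nat_lit 0) (.e (nat_lit 414544) (nat_lit 0) .nil) .nil))) 
(.lf (nat_lit 598883) (.g (nat_lit 612) (.e (nat_lit 573488) (nat_lit 14) (.e (nat_lit 73753) (nat_lit 8) (.e (nat_lit 557091) (nat_lit 12) .nil))) (.g (nat_lit 0) (.e (nat_lit 415518) (nat_lit 0) .nil) .nil))))) (.nd (nat_lit 8) (.nd (nat_lit 9) 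
(.lf (nat_lit 598243) (.g (nat_lit 2316) (.e (nat_lit 573485) (nat_lit 13) (.e (nat_lit 65604) (nat_lit 9) (.e (nat_lit 336013) (nat_lit 2) (.e (nat_lit 90170) (nat_lit 13) (.e (nat_lit 172049) (nat_lit 0) (.e (nat_lit 2458) (nat_lit 157) (.e (nat_lit 5548) (nat_lit 306) (.e (nat_lit 2601) (nat_lit 163) (.e (nat_lit 163977) (nat_lit 30) .nil))))))))) (.g (nat_lit 1) (.e (nat_lit 414382) (nat_lit 0) .nil) .nil))) 
(.lf (nat_lit 598755) (.g (nat_lit 2192) (.e (nat_lit 573487) (nat_lit 14) (.e (nat_lit 73753) (nat_lit 8) (.e (nat_lit 557090) (nat_lit 12) (.e (nat_lit 163850) (nat_lit 0) (.e (nat_lit 5939) (nat_lit 322) .nil))))) (.g (nat_lit 0) (.e (nat_lit 415122) (nat_lit 0) .nil) .nil)))) (.nd (nat_lit 9) 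
(.lf (nat_lit 598499) (.g (nat_lit 3900) (.e (nat_lit 573485) (nat_lit 13) (.e (nat_lit 65619) (nat_lit 10) (.e (nat_lit 344117) (nat_lit 21) (.e (nat_lit 516151) (nat_lit 9) (.e (nat_lit 426380) (nat_lit 15) (.e (nat_lit 2056) (nat_lit 142) (.e (nat_lit 704589) (nat_lit 3) (.e (nat_lit 163978) (nat_lit 30) .nil)))))))) (.g (nat_lit 1) (.e (nat_lit 414680) (nat_lit 0) .nil) .nil))) 
(.lf (nat_lit 599011) (.g (nat_lit 2767) (.e (nat_lit 573489) (nat_lit 14) (.e (nat_lit 73753) (nat_lit 8) (.e (nat_lit 557105) (nat_lit 14) (.e (nat_lit 180251) (nat_lit 10) (.e (nat_lit 573475) (nat_lit 12) .nil))))) (.g (nat_lit 0) (.e (nat_lit 415817) (nat_lit 0) .nil) .nil)))))))) (.nd (nat_lit 5) (.nd (nat_lit 6) (.nd (nat_lit 7) (.nd (nat_lit 8) (.nd (nat_lit 9) 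
(.lf (nat_lit 598035) (.g (nat_lit 4319) (.e (nat_lit 573484) (nat_lit 13) (.e (nat_lit 65610) (nat_lit 10) (.e (nat_lit 344117) (nat_lit 21) (.e (nat_lit 516151) (nat_lit 9) (.e (nat_lit 426412) (nat_lit 15) (.e (nat_lit 2174) (nat_lit 143) (.e (nat_lit 712722) (nat_lit 15) (.e (nat_lit 3295) (nat_lit 202) .nil)))))))) (.g (nat_lit 1) (.e (nat_lit 413930) (nat_lit 0) .nil) .nil))) 
(.lf (nat_lit 598547) (.g (nat_lit 4537) (.e (nat_lit 573485) (nat_lit 13) (.e (nat_lit 65619) (nat_lit 10) (.e (nat_lit 344117) (nat_lit 21) (.e (nat_lit 516185) (nat_lit 16) (.e (nat_lit 491552) (nat_lit 9) (.e (nat_lit 336295) (nat_lit 15) (.e (nat_lit 3305) (nat_lit 202) .nil))))))) (.g (nat_lit 1) (.e (nat_lit 414733) (nat_lit 0) .nil) .nil)))) (.nd (nat_lit 9) 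
(.lf (nat_lit 598291) (.g (nat_lit 2682) (.e (nat_lit 573485) (nat_lit 13) (.e (nat_lit 65604) (nat_lit 9) (.e (nat_lit 336013) (nat_lit 2) (.e (nat_lit 90170) (nat_lit 13) (.e (nat_lit 179968) (nat_lit 19) (.e (nat_lit 114432) (nat_lit 3) (.e (nat_lit 163977) (nat_lit 30) .nil))))))) (.g (nat_lit 1) (.e (nat_lit 414433) (nat_lit 0) .nil) .nil))) 
(.lf (nat_lit 598803) (.g (nat_lit 2413) (.e (nat_lit 573487) (nat_lit 14) (.e (nat_lit 73753) (nat_lit 8) (.e (nat_lit 557103) (nat_lit 14) (.e (nat_lit 180243) (nat_lit 5) (.e (nat_lit 532501) (nat_lit 1) .nil))))) (.g (nat_lit 0) (.e (nat_lit 415294) (nat_lit 0) .nil) .nil))))) (.nd (nat_lit 8) (.nd (nat_lit 9) 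
(.lf (nat_lit 598163) (.g (nat_lit 2744) (.e (nat_lit 573484) (nat_lit 13) (.e (nat_lit 65628) (nat_lit 14) (.e (nat_lit 401425) (nat_lit 2) (.e (nat_lit 196672) (nat_lit 15) (.e (nat_lit 81922) (nat_lit 0) (.e (nat_lit 3305) (nat_lit 202) .nil)))))) (.g (nat_lit 1) (.e (nat_lit 414228) (nat_lit 0) .nil) .nil))) 
(.lf (nat_lit 598675) (.g (nat_lit 2941) (.e (nat_lit 573485) (nat_lit 13) (.e (nat_lit 65628) (nat_lit 14) (.e (nat_lit 401425) (nat_lit 2) (.e (nat_lit 196681) (nat_lit 17) (.e (nat_lit 131107) (nat_lit 9) .nil))))) (.g (nat_lit 0) (.e (nat_lit 414931) (nat_lit 0) .nil) .nil)))) (.nd (nat_lit 9) 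
(.lf (nat_lit 598419) (.g (nat_lit 3104) (.e (nat_lit 573485) (nat_lit 13) (.e (nat_lit 65619) (nat_lit 10) (.e (nat_lit 344117) (nat_lit 21) (.e (nat_lit 516145) (nat_lit 9) (.e (nat_lit 433920) (nat_lit 24) (.e (nat_lit 163584) (nat_lit 3) (.e (nat_lit 163978) (nat_lit 30) .nil))))))) (.g (nat_lit 1) (.e (nat_lit 414599) (nat_lit 0) .nil) .nil))) 
(.lf (nat_lit 598931) (.g (nat_lit 1733) (.e (nat_lit 573488) (nat_lit 14) (.e (nat_lit 73755) (nat_lit 8) (.e (nat_lit 557098) (nat_lit 13) (.e (nat_lit 172066) (nat_lit 3) .nil)))) (.g (nat_lit 0) (.e (nat_lit 415602) (nat_lit 0) .nil) .nil)))))) (.nd (nat_lit 7) (.nd (nat_lit 8) (.nd (nat_lit 9) 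
(.lf (nat_lit 598099) (.g (nat_lit 3482) (.e (nat_lit 573484) (nat_lit 13) (.e (nat_lit 65610) (nat_lit 10) (.e (nat_lit 344129) (nat_lit 26) (.e (nat_lit 557085) (nat_lit 11) (.e (nat_lit 24648) (nat_lit 12) (.e (nat_lit 385074) (nat_lit 31) .nil)))))) (.g (nat_lit 1) (.e (nat_lit 414080) (nat_lit 0) .nil) .nil))) 
(.lf (nat_lit 598611) (.g (nat_lit 1275) (.e (nat_lit 573485) (nat_lit 13) (.e (nat_lit 65619) (nat_lit 10) (.e (nat_lit 344129) (nat_lit 26) (.e (nat_lit 557086) (nat_lit 11) .nil)))) (.g (nat_lit 0) (.e (nat_lit 414828) (nat_lit 0) .nil) .nil)))) (.nd (nat_lit 9) 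
(.lf (nat_lit 598355) (.g (nat_lit 2071) (.e (nat_lit 573485) (nat_lit 13) (.e (nat_lit 65619) (nat_lit 10) (.e (nat_lit 344117) (nat_lit 21) (.e (nat_lit 516097) (nat_lit 0) (.e (nat_lit 7585) (nat_lit 406) .nil))))) (.g (nat_lit 0) (.e (nat_lit 414521) (nat_lit 0) .nil) .nil))) 
(.lf (nat_lit 598867) (.g (nat_lit 3950) (.e (nat_lit 573487) (nat_lit 14) (.e (nat_lit 73781) (nat_lit 32) (.e (nat_lit 2664) (nat_lit 167) (.e (nat_lit 196666) (nat_lit 13) (.e (nat_lit 65624) (nat_lit 12) (.e (nat_lit 385074) (nat_lit 31) .nil)))))) (.g (nat_lit 1) (.e (nat_lit 415428) (nat_lit 0) .nil) .nil))))) (.nd (nat_lit 8) (.nd (nat_lit 9) 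
(.lf (nat_lit 598227) (.g (nat_lit 3574) (.e (nat_lit 573485) (nat_lit 13) (.e (nat_lit 65604) (nat_lit 9) (.e (nat_lit 336013) (nat_lit 2) (.e (nat_lit 90170) (nat_lit 13) (.e (nat_lit 172043) (nat_lit 0) (.e (nat_lit 3409) (nat_lit 212) (.e (nat_lit 655375) (nat_lit 3) (.e (nat_lit 163977) (nat_lit 30) .nil)))))))) (.g (nat_lit 1) (.e (nat_lit 414361) (nat_lit 0) .nil) .nil))) 
(.lf (nat_lit 598739) (.g (nat_lit 1477) (.e (nat_lit 573487) (nat_lit 14) (.e (nat_lit 73747) (nat_lit 3) (.e (nat_lit 516119) (nat_lit 1) (.e (nat_lit 164196) (nat_lit 158) .nil)))) (.g (nat_lit 0) (.e (nat_lit 415047) (nat_lit 0) .nil) .nil)))) (.nd (nat_lit 9) 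
(.lf (nat_lit 598483) (.g (nat_lit 3811) (.e (nat_lit 573485) (nat_lit 13) (.e (nat_lit 65619) (nat_lit 10) (.e (nat_lit 344117) (nat_lit 21) (.e (nat_lit 516151) (nat_lit 9) (.e (nat_lit 426103) (nat_lit 1) .nil))))) (.g (nat_lit 0) (.e (nat_lit 414664) (nat_lit 0) .nil) .nil))) 
(.lf (nat_lit 598995) (.g (nat_lit 1543) (.e (nat_lit 573489) (nat_lit 14) (.e (nat_lit 73747) (nat_lit 3) (.e (nat_lit 516115) (nat_lit 1) (.e (nat_lit 171776) (nat_lit 160) .nil)))) (.g (nat_lit 0) (.e (nat_lit 415791) (nat_lit 0) .nil) .nil))))))) (.nd (nat_lit 6) (.nd (nat_lit 7) (.nd (nat_lit 8) (.nd (nat_lit 9) 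
(.lf (nat_lit 598067) (.g (nat_lit 3872) (.e (nat_lit 573484) (nat_lit 13) (.e (nat_lit 65610) (nat_lit 10) (.e (nat_lit 344117) (nat_lit 21) (.e (nat_lit 516183) (nat_lit 16) (.e (nat_lit 491566) (nat_lit 12) (.e (nat_lit 385073) (nat_lit 31) .nil)))))) (.g (nat_lit 1) (.e (nat_lit 413991) (nat_lit 0) .nil) .nil))) 
(.lf (nat_lit 598579) (.g (nat_lit 2208) (.e (nat_lit 573485) (nat_lit 13) (.e (nat_lit 65619) (nat_lit 10) (.e (nat_lit 344129) (nat_lit 26) (.e (nat_lit 557065) (nat_lit 9) (.e (nat_lit 336) (nat_lit 26) .nil))))) (.g (nat_lit 0) (.e (nat_lit 414781) (nat_lit 0) .nil) .nil)))) (.nd (nat_lit 9) 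
(.lf (nat_lit 598323) (.g (nat_lit 3652) (.e (nat_lit 573485) (nat_lit 13) (.e (nat_lit 65604) (nat_lit 9) (.e (nat_lit 336028) (nat_lit 3) (.e (nat_lit 98366) (nat_lit 27) (.e (nat_lit 434209) (nat_lit 18) (.e (nat_lit 5546) (nat_lit 306) (.e (nat_lit 2611) (nat_lit 163) (.e (nat_lit 163977) (nat_lit 30) .nil)))))))) (.g (nat_lit 1) (.e (nat_lit 414478) (nat_lit 0) .nil) .nil))) 
(.lf (nat_lit 598835) (.g (nat_lit 4350) (.e (nat_lit 573487) (nat_lit 14) (.e (nat_lit 73753) (nat_lit 8) (.e (nat_lit 557105) (nat_lit 14) (.e (nat_lit 180252) (nat_lit 10) (.e (nat_lit 573475) (nat_lit 12) (.e (nat_lit 57503) (nat_lit 38) (.e (nat_lit 638994) (nat_lit 7) (.e (nat_lit 163976) (nat_lit 30) .nil)))))))) (.g (nat_lit 1) (.e (nat_lit 415386) (nat_lit 0) .nil) .nil))))) 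
(.nd (nat_lit 8) (.nd (nat_lit 9) 
(.lf (nat_lit 598195) (.g (nat_lit 4063) (.e (nat_lit 573485) (nat_lit 13) (.e (nat_lit 65604) (nat_lit 9) (.e (nat_lit 336013) (nat_lit 2) (.e (nat_lit 90141) (nat_lit 9) .nil)))) (.g (nat_lit 0) (.e (nat_lit 414328) (nat_lit 0) .nil) .nil))) 
(.lf (nat_lit 598707) (.g (nat_lit 359) (.e (nat_lit 573485) (nat_lit 13) (.e (nat_lit 65630) (nat_lit 14) (.e (nat_lit 401428) (nat_lit 3) .nil))) (.g (nat_lit 0) (.e (nat_lit 414972) (nat_lit 0) .nil) .nil)))) (.nd (nat_lit 9) 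
(.lf (nat_lit 598451) (.g (nat_lit 3629) (.e (nat_lit 573485) (nat_lit 13) (.e (nat_lit 65619) (nat_lit 10) (.e (nat_lit 344117) (nat_lit 21) (.e (nat_lit 516151) (nat_lit 9) (.e (nat_lit 426039) (nat_lit 0) (.e (nat_lit 2458) (nat_lit 157) (.e (nat_lit 5546) (nat_lit 306) (.e (nat_lit 2611) (nat_lit 163) (.e (nat_lit 163978) (nat_lit 30) .nil))))))))) (.g (nat_lit 1) (.e (nat_lit 414631) (nat_lit 0) .nil) .nil))) 
(.lf (nat_lit 598963) (.g (nat_lit 1942) (.e (nat_lit 573488) (nat_lit 14) (.e (nat_lit 73755) (nat_lit 8) (.e (nat_lit 557104) (nat_lit 14) (.e (nat_lit 180252) (nat_lit 10) (.e (nat_lit 573474) (nat_lit 12) .nil))))) (.g (nat_lit 0) (.e (nat_lit 415685) (nat_lit 0) .nil) .nil)))))) (.nd (nat_lit 7) (.nd (nat_lit 8) (.nd (nat_lit 9) 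
(.lf (nat_lit 598131) (.g (nat_lit 4578) (.e (nat_lit 573484) (nat_lit 13) (.e (nat_lit 65617) (nat_lit 10) (.e (nat_lit 344130) (nat_lit 26) (.e (nat_lit 557087) (nat_lit 11) (.e (nat_lit 24625) (nat_lit 9) (.e (nat_lit 336297) (nat_lit 15) (.e (nat_lit 3305) (nat_lit 202) .nil))))))) (.g (nat_lit 1) (.e (nat_lit 414147) (nat_lit 0) .nil) .nil))) 
(.lf (nat_lit 598643) (.g (nat_lit 2598) (.e (nat_lit 573485) (nat_lit 13) (.e (nat_lit 65619) (nat_lit 10) (.e (nat_lit 344129) (nat_lit 26) (.e (nat_lit 557087) (nat_lit 11) (.e (nat_lit 24636) (nat_lit 9) (.e (nat_lit 336300) (nat_lit 15) (.e (nat_lit 3305) (nat_lit 202) .nil))))))) (.g (nat_lit 1) (.e (nat_lit 414879) (nat_lit 0) .nil) .nil)))) (.nd (nat_lit 9) 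
(.lf (nat_lit 598387) (.g (nat_lit 3495) (.e (nat_lit 573485) (nat_lit 13) (.e (nat_lit 65619) (nat_lit 10) (.e (nat_lit 344117) (nat_lit 21) (.e (nat_lit 516145) (nat_lit 9) (.e (nat_lit 426093) (nat_lit 0) .nil))))) (.g (nat_lit 0) (.e (nat_lit 414567) (nat_lit 0) .nil) .nil))) 
(.lf (nat_lit 598899) (.g (nat_lit 2301) (.e (nat_lit 573488) (nat_lit 14) (.e (nat_lit 73754) (nat_lit 8) (.e (nat_lit 557100) (nat_lit 13) (.e (nat_lit 172067) (nat_lit 3) (.e (nat_lit 204817) (nat_lit 17) .nil))))) (.g (nat_lit 0) (.e (nat_lit 415534) (nat_lit 0) .nil) .nil))))) (.nd (nat_lit 8) (.nd (nat_lit 9) 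
(.lf (nat_lit 598259) (.g (nat_lit 5405) (.e (nat_lit 573485) (nat_lit 13) (.e (nat_lit 65604) (nat_lit 9) (.e (nat_lit 336013) (nat_lit 2) (.e (nat_lit 90170) (nat_lit 13) (.e (nat_lit 172059) (nat_lit 1) (.e (nat_lit 164348) (nat_lit 240) (.e (nat_lit 2610) (nat_lit 163) (.e (nat_lit 163978) (nat_lit 30) .nil)))))))) (.g (nat_lit 1) (.e (nat_lit 414400) (nat_lit 0) .nil) .nil))) 
(.lf (nat_lit 598771) (.g (nat_lit 1571) (.e (nat_lit 573487) (nat_lit 14) (.e (nat_lit 73753) (nat_lit 8) (.e (nat_lit 557091) (nat_lit 12) (.e (nat_lit 164003) (nat_lit 40) .nil)))) (.g (nat_lit 0) (.e (nat_lit 415152) (nat_lit 0) .nil) .nil)))) (.nd (nat_lit 9) 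
(.lf (nat_lit 598515) (.g (nat_lit 2218) (.e (nat_lit 573485) (nat_lit 13) (.e (nat_lit 65619) (nat_lit 10) (.e (nat_lit 344117) (nat_lit 21) (.e (nat_lit 516159) (nat_lit 10) (.e (nat_lit 434216) (nat_lit 18) .nil))))) (.g (nat_lit 0) (.e (nat_lit 414696) (nat_lit 0) .nil) .nil))) 
(.lf (nat_lit 599027) (.g (nat_lit 1769) (.e (nat_lit 573489) (nat_lit 14) (.e (nat_lit 73754) (nat_lit 8) (.e (nat_lit 557100) (nat_lit 13) (.e (nat_lit 179968) (nat_lit 15) .nil)))) (.g (nat_lit 0) (.e (nat_lit 415855) (nat_lit 0) .nil) .nil))))))))) (.nd (nat_lit 4) (.nd (nat_lit 5) (.nd (nat_lit 6) (.nd (nat_lit 7) (.nd (nat_lit 8) (.nd (nat_lit 9) 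
(.lf (nat_lit 598027) (.g (nat_lit 4292) (.e (nat_lit 573484) (nat_lit 13) (.e (nat_lit 65610) (nat_lit 10) (.e (nat_lit 344117) (nat_lit 21) (.e (nat_lit 516151) (nat_lit 9) (.e (nat_lit 426097) (nat_lit 1) (.e (nat_lit 164345) (nat_lit 240) (.e (nat_lit 2601) (nat_lit 163) (.e (nat_lit 163977) (nat_lit 30) .nil)))))))) (.g (nat_lit 1) (.e (nat_lit 413913) (nat_lit 0) .nil) .nil))) 
(.lf (nat_lit 598539) (.g (nat_lit 2707) (.e (nat_lit 573485) (nat_lit 13) (.e (nat_lit 65619) (nat_lit 10) (.e (nat_lit 344117) (nat_lit 21) (.e (nat_lit 516183) (nat_lit 16) (.e (nat_lit 491549) (nat_lit 9) (.e (nat_lit 336240) (nat_lit 15) (.e (nat_lit 3309) (nat_lit 202) .nil))))))) (.g (nat_lit 1) (.e (nat_lit 414725) (nat_lit 0) .nil) .nil)))) (.nd (nat_lit 9) 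
(.lf (nat_lit 598283) (.g (nat_lit 2815) (.e (nat_lit 573485) (nat_lit 13) (.e (nat_lit 65604) (nat_lit 9) (.e (nat_lit 336013) (nat_lit 2) (.e (nat_lit 90170) (nat_lit 13) (.e (nat_lit 172070) (nat_lit 4) (.e (nat_lit 229679) (nat_lit 244) (.e (nat_lit 163850) (nat_lit 0) (.e (nat_lit 3306) (nat_lit 202) .nil)))))))) (.g (nat_lit 1) (.e (nat_lit 414425) (nat_lit 0) .nil) .nil))) 
(.lf (nat_lit 598795) (.g (nat_lit 2265) (.e (nat_lit 573487) (nat_lit 14) (.e (nat_lit 73753) (nat_lit 8) (.e (nat_lit 557101) (nat_lit 13) (.e (nat_lit 172067) (nat_lit 3) (.e (nat_lit 204821) (nat_lit 17) .nil))))) (.g (nat_lit 0) (.e (nat_lit 415265) (nat_lit 0) .nil) .nil))))) (.nd (nat_lit 8) (.nd (nat_lit 9) 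
(.lf (nat_lit 598155) (.g (nat_lit 1830) (.e (nat_lit 573484) (nat_lit 13) (.e (nat_lit 65624) (nat_lit 12) (.e (nat_lit 385074) (nat_lit 31) (.e (nat_lit 573480) (nat_lit 13) .nil)))) (.g (nat_lit 0) (.e (nat_lit 414215) (nat_lit 0) .nil) .nil))) 
(.lf (nat_lit 598667) (.g (nat_lit 3516) (.e (nat_lit 573485) (nat_lit 13) (.e (nat_lit 65624) (nat_lit 12) (.e (nat_lit 385074) (nat_lit 31) (.e (nat_lit 573493) (nat_lit 15) (.e (nat_lit 81922) (nat_lit 0) .nil))))) (.g (nat_lit 0) (.e (nat_lit 414920) (nat_lit 0) .nil) .nil)))) (.nd (nat_lit 9) 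
(.lf (nat_lit 598411) (.g (nat_lit 3493) (.e (nat_lit 573485) (nat_lit 13) (.e (nat_lit 65619) (nat_lit 10) (.e (nat_lit 344117) (nat_lit 21) (.e (nat_lit 516145) (nat_lit 9) (.e (nat_lit 426400) (nat_lit 15) .nil))))) (.g (nat_lit 0) (.e (nat_lit 414591) (nat_lit 0) .nil) .nil))) 
(.lf (nat_lit 598923) (.g (nat_lit 2007) (.e (nat_lit 573488) (nat_lit 14) (.e (nat_lit 73755) (nat_lit 8) (.e (nat_lit 557097) (nat_lit 13) (.e (nat_lit 172067) (nat_lit 3) (.e (nat_lit 204817) (nat_lit 17) .nil))))) (.g (nat_lit 0) (.e (nat_lit 415584) (nat_lit 0) .nil) .nil)))))) (.nd (nat_lit 7) (.nd (nat_lit 8) (.nd (nat_lit 9) 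
(.lf (nat_lit 598091) (.g (nat_lit 2597) (.e (nat_lit 573484) (nat_lit 13) (.e (nat_lit 65610) (nat_lit 10) (.e (nat_lit 344129) (nat_lit 26) (.e (nat_lit 557067) (nat_lit 9) (.e (nat_lit 249) (nat_lit 21) .nil))))) (.g (nat_lit 0) (.e (nat_lit 414058) (nat_lit 0) .nil) .nil))) 
(.lf (nat_lit 598603) (.g (nat_lit 2741) (.e (nat_lit 573485) (nat_lit 13) (.e (nat_lit 65619) (nat_lit 10) (.e (nat_lit 344129) (nat_lit 26) (.e (nat_lit 557084) (nat_lit 10) (.e (nat_lit 8567) (nat_lit 250) .nil))))) (.g (nat_lit 0) (.e (nat_lit 414817) (nat_lit 0) .nil) .nil)))) (.nd (nat_lit 9) 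
(.lf (nat_lit 598347) (.g (nat_lit 3211) (.e (nat_lit 573485) (nat_lit 13) (.e (nat_lit 65619) (nat_lit 10) (.e (nat_lit 344115) (nat_lit 20) (.e (nat_lit 507923) (nat_lit 6) (.e (nat_lit 286748) (nat_lit 9) (.e (nat_lit 336295) (nat_lit 15) (.e (nat_lit 3305) (nat_lit 202) .nil))))))) (.g (nat_lit 1) (.e (nat_lit 414510) (nat_lit 0) .nil) .nil))) 
(.lf (nat_lit 598859) (.g (nat_lit 2253) (.e (nat_lit 573487) (nat_lit 14) (.e (nat_lit 73755) (nat_lit 8) (.e (nat_lit 557105) (nat_lit 14) (.e (nat_lit 180250) (nat_lit 10) .nil)))) (.g (nat_lit 0) (.e (nat_lit 415415) (nat_lit 0) .nil) .nil))))) (.nd (nat_lit 8) (.nd (nat_lit 9) 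
(.lf (nat_lit 598219) (.g (nat_lit 2710) (.e (nat_lit 573485) (nat_lit 13) (.e (nat_lit 65604) (nat_lit 9) (.e (nat_lit 336013) (nat_lit 2) (.e (nat_lit 90170) (nat_lit 13) (.e (nat_lit 172041) (nat_lit 0) .nil))))) (.g (nat_lit 0) (.e (nat_lit 414352) (nat_lit 0) .nil) .nil))) 
(.lf (nat_lit 598731) (.g (nat_lit 1416) (.e (nat_lit 573487) (nat_lit 14) (.e (nat_lit 73746) (nat_lit 3) (.e (nat_lit 516119) (nat_lit 1) (.e (nat_lit 164195) (nat_lit 158) .nil)))) (.g (nat_lit 0) (.e (nat_lit 415025) (nat_lit 0) .nil) .nil)))) (.nd (nat_lit 9) 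
(.lf (nat_lit 598475) (.g (nat_lit 3938) (.e (nat_lit 573485) (nat_lit 13) (.e (nat_lit 65619) (nat_lit 10) (.e (nat_lit 344117) (nat_lit 21) (.e (nat_lit 516151) (nat_lit 9) (.e (nat_lit 426047) (nat_lit 0) (.e (nat_lit 2458) (nat_lit 157) (.e (nat_lit 5546) (nat_lit 306) (.e (nat_lit 2599) (nat_lit 163) (.e (nat_lit 163978) (nat_lit 30) .nil))))))))) (.g (nat_lit 1) (.e (nat_lit 414656) (nat_lit 0) .nil) .nil))) 
(.lf (nat_lit 598987) (.g (nat_lit 2834) (.e (nat_lit 573488) (nat_lit 14) (.e (nat_lit 73755) (nat_lit 8) (.e (nat_lit 557105) (nat_lit 14) (.e (nat_lit 180252) (nat_lit 10) (.e (nat_lit 573478) (nat_lit 12) .nil))))) (.g (nat_lit 0) (.e (nat_lit 415715) (nat_lit 0) .nil) .nil))))))) (.nd (nat_lit 6) (.nd (nat_lit 7) (.nd (nat_lit 8) (.nd (nat_lit 9) 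
(.lf (nat_lit 598059) (.g (nat_lit 3326) (.e (nat_lit 573484) (nat_lit 13) (.e (nat_lit 65610) (nat_lit 10) (.e (nat_lit 344117) (nat_lit 21) (.e (nat_lit 516179) (nat_lit 15) (.e (nat_lit 475201) (nat_lit 40) (.e (nat_lit 712448) (nat_lit 3) (.e (nat_lit 163977) (nat_lit 30) .nil))))))) (.g (nat_lit 1) (.e (nat_lit 413968) (nat_lit 0) .nil) .nil))) 
(.lf (nat_lit 598571) (.g (nat_lit 2206) (.e (nat_lit 573485) (nat_lit 13) (.e (nat_lit 65619) (nat_lit 10) (.e (nat_lit 344129) (nat_lit 26) (.e (nat_lit 557065) (nat_lit 9) (.e (nat_lit 230) (nat_lit 21) .nil))))) (.g (nat_lit 0) (.e (nat_lit 414770) (nat_lit 0) .nil) .nil)))) (.nd (nat_lit 9) 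
(.lf (nat_lit 598315) (.g (nat_lit 5015) (.e (nat_lit 573485) (nat_lit 13) (.e (nat_lit 65604) (nat_lit 9) (.e (nat_lit 336028) (nat_lit 3) (.e (nat_lit 98359) (nat_lit 26) (.e (nat_lit 426097) (nat_lit 1) (.e (nat_lit 164348) (nat_lit 240) (.e (nat_lit 2610) (nat_lit 163) (.e (nat_lit 163978) (nat_lit 30) .nil)))))))) (.g (nat_lit 1) (.e (nat_lit 414466) (nat_lit 0) .nil) .nil))) 
(.lf (nat_lit 598827) (.g (nat_lit 3746) (.e (nat_lit 573487) (nat_lit 14) (.e (nat_lit 73753) (nat_lit 8) (.e (nat_lit 557105) (nat_lit 14) (.e (nat_lit 180251) (nat_lit 10) (.e (nat_lit 573475) (nat_lit 12) (.e (nat_lit 57503) (nat_lit 38) (.e (nat_lit 638994) (nat_lit 7) (.e (nat_lit 163976) (nat_lit 30) .nil)))))))) (.g (nat_lit 1) (.e (nat_lit 415370) (nat_lit 0) .nil) .nil))))) 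
(.nd (nat_lit 8) (.nd (nat_lit 9) 
(.lf (nat_lit 598187) (.g (nat_lit 2688) (.e (nat_lit 573485) (nat_lit 13) (.e (nat_lit 65604) (nat_lit 9) (.e (nat_lit 336013) (nat_lit 2) (.e (nat_lit 90134) (nat_lit 9) (.e (nat_lit 2884) (nat_lit 184) (.e (nat_lit 426025) (nat_lit 0) (.e (nat_lit 3397) (nat_lit 211) (.e (nat_lit 647181) (nat_lit 3) (.e (nat_lit 163977) (nat_lit 30) .nil))))))))) (.g (nat_lit 1) (.e (nat_lit 414316) (nat_lit 0) .nil) .nil))) 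
(.lf (nat_lit 598699) (.g (nat_lit 2510) (.e (nat_lit 573485) (nat_lit 13) (.e (nat_lit 65630) (nat_lit 14) (.e (nat_lit 401425) (nat_lit 2) (.e (nat_lit 196672) (nat_lit 15) (.e (nat_lit 81922) (nat_lit 0) .nil))))) (.g (nat_lit 0) (.e (nat_lit 414957) (nat_lit 0) .nil) .nil)))) (.nd (nat_lit 9) 
(.lf (nat_lit 598443) (.g (nat_lit 4115) (.e (nat_lit 573485) (nat_lit 13) (.e (nat_lit 65619) (nat_lit 10) (.e (nat_lit 344117) (nat_lit 21) (.e (nat_lit 516151) (nat_lit 9) (.e (nat_lit 426038) (nat_lit 0) (.e (nat_lit 2458) (nat_lit 157) (.e (nat_lit 5547) (nat_lit 306) (.e (nat_lit 2599) (nat_lit 163) (.e (nat_lit 163978) (nat_lit 30) .nil))))))))) (.g (nat_lit 1) (.e (nat_lit 414623) (nat_lit 0) .nil) .nil))) 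
(.lf (nat_lit 598955) (.g (nat_lit 1093) (.e (nat_lit 573488) (nat_lit 14) (.e (nat_lit 73755) (nat_lit 8) (.e (nat_lit 557104) (nat_lit 14) (.e (nat_lit 180244) (nat_lit 5) .nil)))) (.g (nat_lit 0) (.e (nat_lit 415658) (nat_lit 0) .nil) .nil)))))) (.nd (nat_lit 7) (.nd (nat_lit 8) (.nd (nat_lit 9) 
(.lf (nat_lit 598123) (.g (nat_lit 1346) (.e (nat_lit 573484) (nat_lit 13) (.e (nat_lit 65617) (nat_lit 10) (.e (nat_lit 344117) (nat_lit 21) (.e (nat_lit 516106) (nat_lit 0) .nil)))) (.g (nat_lit 0) (.e (nat_lit 414110) (nat_lit 0) .nil) .nil))) 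
(.lf (nat_lit 598635) (.g (nat_lit 2945) (.e (nat_lit 573485) (nat_lit 13) (.e (nat_lit 65619) (nat_lit 10) (.e (nat_lit 344129) (nat_lit 26) (.e (nat_lit 557087) (nat_lit 11) (.e (nat_lit 24626) (nat_lit 9) (.e (nat_lit 336306) (nat_lit 15) (.e (nat_lit 3307) (nat_lit 202) .nil))))))) (.g (nat_lit 1) (.e (nat_lit 414871) (nat_lit 0) .nil) .nil)))) (.nd (nat_lit 9) 
(.lf (nat_lit 598379) (.g (nat_lit 2296) (.e (nat_lit 573485) (nat_lit 13) (.e (nat_lit 65619) (nat_lit 10) (.e (nat_lit 344117) (nat_lit 21) (.e (nat_lit 516143) (nat_lit 9) (.e (nat_lit 426396) (nat_lit 15) .nil))))) (.g (nat_lit 0) (.e (nat_lit 414559) (nat_lit 0) .nil) .nil))) 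
(.lf (nat_lit 598891) (.g (nat_lit 2512) (.e (nat_lit 573488) (nat_lit 14) (.e (nat_lit 73753) (nat_lit 8) (.e (nat_lit 557105) (nat_lit 14) (.e (nat_lit 180250) (nat_lit 10) .nil)))) (.g (nat_lit 0) (.e (nat_lit 415526) (nat_lit 0) .nil) .nil))))) (.nd (nat_lit 8) (.nd (nat_lit 9) 
(.lf (nat_lit 598251) (.g (nat_lit 3344) (.e (nat_lit 573485) (nat_lit 13) (.e (nat_lit 65604) (nat_lit 9) (.e (nat_lit 336013) (nat_lit 2) (.e (nat_lit 90170) (nat_lit 13) (.e (nat_lit 172051) (nat_lit 0) .nil))))) (.g (nat_lit 0) (.e (nat_lit 414391) (nat_lit 0) .nil) .nil))) 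
(.lf (nat_lit 598763) (.g (nat_lit 1603) (.e (nat_lit 573487) (nat_lit 14) (.e (nat_lit 73753) (nat_lit 8) (.e (nat_lit 557090) (nat_lit 12) (.e (nat_lit 164007) (nat_lit 41) .nil)))) (.g (nat_lit 0) (.e (nat_lit 415132) (nat_lit 0) .nil) .nil)))) (.nd (nat_lit 9) 
(.lf (nat_lit 598507) (.g (nat_lit 2758) (.e (nat_lit 573485) (nat_lit 13) (.e (nat_lit 65619) (nat_lit 10) (.e (nat_lit 344117) (nat_lit 21) (.e (nat_lit 516152) (nat_lit 9) (.e (nat_lit 426109) (nat_lit 1) (.e (nat_lit 164347) (nat_lit 240) (.e (nat_lit 2611) (nat_lit 163) (.e (nat_lit 163977) (nat_lit 30) .nil)))))))) (.g (nat_lit 1) (.e (nat_lit 414688) (nat_lit 0) .nil) .nil))) 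
(.lf (nat_lit 599019) (.g (nat_lit 1940) (.e (nat_lit 573489) (nat_lit 14) (.e (nat_lit 73754) (nat_lit 8) (.e (nat_lit 557100) (nat_lit 13) (.e (nat_lit 172062) (nat_lit 2) .nil)))) (.g (nat_lit 0) (.e (nat_lit 415838) (nat_lit 0) .nil) .nil)))))))) (.nd (nat_lit 5) (.nd (nat_lit 6) (.nd (nat_lit 7) (.nd (nat_lit 8) (.nd (nat_lit 9) 
(.lf (nat_lit 598043) (.g (nat_lit 5297) (.e (nat_lit 573484) (nat_lit 13) (.e (nat_lit 65610) (nat_lit 10) (.e (nat_lit 344117) (nat_lit 21) (.e (nat_lit 516160) (nat_lit 10) (.e (nat_lit 434271) (nat_lit 38) (.e (nat_lit 655375) (nat_lit 3) (.e (nat_lit 163977) (nat_lit 30) .nil))))))) (.g (nat_lit 1) (.e (nat_lit 413950) (nat_lit 0) .nil) .nil))) 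
(.lf (nat_lit 598555) (.g (nat_lit 2093) (.e (nat_lit 573485) (nat_lit 13) (.e (nat_lit 65619) (nat_lit 10) (.e (nat_lit 344126) (nat_lit 25) (.e (nat_lit 548874) (nat_lit 5) (.e (nat_lit 1442) (nat_lit 108) .nil))))) (.g (nat_lit 0) (.e (nat_lit 414741) (nat_lit 0) .nil) .nil)))) (.nd (nat_lit 9) 
(.lf (nat_lit 598299) (.g (nat_lit 3444) (.e (nat_lit 573485) (nat_lit 13) (.e (nat_lit 65604) (nat_lit 9) (.e (nat_lit 336013) (nat_lit 2) (.e (nat_lit 90193) (nat_lit 18) .nil)))) (.g (nat_lit 0) (.e (nat_lit 414443) (nat_lit 0) .nil) .nil))) 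
(.lf (nat_lit 598811) (.g (nat_lit 2177) (.e (nat_lit 573487) (nat_lit 14) (.e (nat_lit 73753) (nat_lit 8) (.e (nat_lit 557103) (nat_lit 14) (.e (nat_lit 180244) (nat_lit 5) (.e (nat_lit 532504) (nat_lit 1) .nil))))) (.g (nat_lit 0) (.e (nat_lit 415331) (nat_lit 0) .nil) .nil))))) (.nd (nat_lit 8) (.nd (nat_lit 9) 
(.lf (nat_lit 598171) (.g (nat_lit 1711) (.e (nat_lit 573484) (nat_lit 13) (.e (nat_lit 65630) (nat_lit 14) (.e (nat_lit 401425) (nat_lit 2) (.e (nat_lit 196630) (nat_lit 9) .nil)))) (.g (nat_lit 0) (.e (nat_lit 414243) (nat_lit 0) .nil) .nil))) 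
(.lf (nat_lit 598683) (.g (nat_lit 3779) (.e (nat_lit 573485) (nat_lit 13) (.e (nat_lit 65628) (nat_lit 14) (.e (nat_lit 401428) (nat_lit 3) (.e (nat_lit 204861) (nat_lit 26) (.e (nat_lit 336075) (nat_lit 9) (.e (nat_lit 336240) (nat_lit 15) (.e (nat_lit 3309) (nat_lit 202) .nil))))))) (.g (nat_lit 1) (.e (nat_lit 414940) (nat_lit 0) .nil) .nil)))) (.nd (nat_lit 9) 
(.lf (nat_lit 598427) (.g (nat_lit 3601) (.e (nat_lit 573485) (nat_lit 13) (.e (nat_lit 65619) (nat_lit 10) (.e (nat_lit 344117) (nat_lit 21) (.e (nat_lit 516151) (nat_lit 9) (.e (nat_lit 426018) (nat_lit 0) (.e (nat_lit 2536) (nat_lit 157) (.e (nat_lit 5547) (nat_lit 306) (.e (nat_lit 2610) (nat_lit 163) (.e (nat_lit 163978) (nat_lit 30) .nil))))))))) (.g (nat_lit 1) (.e (nat_lit 414607) (nat_lit 0) .nil) .nil))) 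
(.lf (nat_lit 598939) (.g (nat_lit 1393) (.e (nat_lit 573488) (nat_lit 14) (.e (nat_lit 73755) (nat_lit 8) (.e (nat_lit 557103) (nat_lit 14) (.e (nat_lit 180244) (nat_lit 5) .nil)))) (.g (nat_lit 0) (.e (nat_lit 415622) (nat_lit 0) .nil) .nil)))))) (.nd (nat_lit 7) (.nd (nat_lit 8) (.nd (nat_lit 9) 
(.lf (nat_lit 598107) (.g (nat_lit 4286) (.e (nat_lit 573484) (nat_lit 13) (.e (nat_lit 65610) (nat_lit 10) (.e (nat_lit 344129) (nat_lit 26) (.e (nat_lit 557087) (nat_lit 11) (.e (nat_lit 24625) (nat_lit 9) (.e (nat_lit 336258) (nat_lit 15) (.e (nat_lit 3309) (nat_lit 202) .nil))))))) (.g (nat_lit 1) (.e (nat_lit 414090) (nat_lit 0) .nil) .nil))) 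
(.lf (nat_lit 598619) (.g (nat_lit 3034) (.e (nat_lit 573485) (nat_lit 13) (.e (nat_lit 65619) (nat_lit 10) (.e (nat_lit 344129) (nat_lit 26) (.e (nat_lit 557087) (nat_lit 11) (.e (nat_lit 24584) (nat_lit 0) (.e (nat_lit 6477) (nat_lit 343) (.e (nat_lit 75) (nat_lit 0) (.e (nat_lit 3307) (nat_lit 202) .nil)))))))) (.g (nat_lit 1) (.e (nat_lit 414841) (nat_lit 0) .nil) .nil)))) (.nd (nat_lit 9) 
(.lf (nat_lit 598363) (.g (nat_lit 2622) (.e (nat_lit 573485) (nat_lit 13) (.e (nat_lit 65619) (nat_lit 10) (.e (nat_lit 344117) (nat_lit 21) (.e (nat_lit 516106) (nat_lit 0) (.e (nat_lit 6986) (nat_lit 377) (.e (nat_lit 2777) (nat_lit 178) (.e (nat_lit 286765) (nat_lit 15) (.e (nat_lit 3295) (nat_lit 202) .nil)))))))) (.g (nat_lit 1) (.e (nat_lit 414536) (nat_lit 0) .nil) .nil))) 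
(.lf (nat_lit 598875) (.g (nat_lit 185) (.e (nat_lit 573487) (nat_lit 14) (.e (nat_lit 73789) (nat_lit 45) (.e (nat_lit 1141) (nat_lit 84) .nil))) (.g (nat_lit 0) (.e (nat_lit 415475) (nat_lit 0) .nil) .nil))))) (.nd (nat_lit 8) (.nd (nat_lit 9) 
(.lf (nat_lit 598235) (.g (nat_lit 3163) (.e (nat_lit 573485) (nat_lit 13) (.e (nat_lit 65604) (nat_lit 9) (.e (nat_lit 336013) (nat_lit 2) (.e (nat_lit 90170) (nat_lit 13) (.e (nat_lit 172046) (nat_lit 0) (.e (nat_lit 2478) (nat_lit 157) (.e (nat_lit 5547) (nat_lit 306) (.e (nat_lit 2610) (nat_lit 163) (.e (nat_lit 163978) (nat_lit 30) .nil))))))))) (.g (nat_lit 1) (.e (nat_lit 414373) (nat_lit 0) .nil) .nil))) 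
(.lf (nat_lit 598747) (.g (nat_lit 2531) (.e (nat_lit 573487) (nat_lit 14) (.e (nat_lit 73753) (nat_lit 8) (.e (nat_lit 557090) (nat_lit 12) (.e (nat_lit 163843) (nat_lit 0) (.e (nat_lit 5941) (nat_lit 322) .nil))))) (.g (nat_lit 0) (.e (nat_lit 415104) (nat_lit 0) .nil) .nil)))) (.nd (nat_lit 9) 
(.lf (nat_lit 598491) (.g (nat_lit 3635) (.e (nat_lit 573485) (nat_lit 13) (.e (nat_lit 65619) (nat_lit 10) (.e (nat_lit 344117) (nat_lit 21) (.e (nat_lit 516151) (nat_lit 9) (.e (nat_lit 426104) (nat_lit 1) (.e (nat_lit 164348) (nat_lit 240) (.e (nat_lit 2601) (nat_lit 163) (.e (nat_lit 163977) (nat_lit 30) .nil)))))))) (.g (nat_lit 1) (.e (nat_lit 414672) (nat_lit 0) .nil) .nil))) 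
(.lf (nat_lit 599003) (.g (nat_lit 2071) (.e (nat_lit 573489) (nat_lit 14) (.e (nat_lit 73753) (nat_lit 8) (.e (nat_lit 557100) (nat_lit 13) (.e (nat_lit 172065) (nat_lit 3) .nil)))) (.g (nat_lit 0) (.e (nat_lit 415805) (nat_lit 0) .nil) .nil))))))) (.nd (nat_lit 6) (.nd (nat_lit 7) (.nd (nat_lit 8) (.nd (nat_lit 9) 
(.lf (nat_lit 598075) (.g (nat_lit 3425) (.e (nat_lit 573484) (nat_lit 13) (.e (nat_lit 65610) (nat_lit 10) (.e (nat_lit 344117) (nat_lit 21) (.e (nat_lit 516185) (nat_lit 16) (.e (nat_lit 491551) (nat_lit 9) (.e (nat_lit 336295) (nat_lit 15) (.e (nat_lit 3305) (nat_lit 202) .nil))))))) (.g (nat_lit 1) (.e (nat_lit 414000) (nat_lit 0) .nil) .nil))) 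
(.lf (nat_lit 598587) (.g (nat_lit 1736) (.e (nat_lit 573485) (nat_lit 13) (.e (nat_lit 65619) (nat_lit 10) (.e (nat_lit 344129) (nat_lit 26) (.e (nat_lit 557066) (nat_lit 9) (.e (nat_lit 334) (nat_lit 26) .nil))))) (.g (nat_lit 0) (.e (nat_lit 414797) (nat_lit 0) .nil) .nil)))) (.nd (nat_lit 9) 
(.lf (nat_lit 598331) (.g (nat_lit 4356) (.e (nat_lit 573485) (nat_lit 13) (.e (nat_lit 65604) (nat_lit 9) (.e (nat_lit 336028) (nat_lit 3) (.e (nat_lit 98367) (nat_lit 27) (.e (nat_lit 434272) (nat_lit 38) (.e (nat_lit 655375) (nat_lit 3) (.e (nat_lit 163977) (nat_lit 30) .nil))))))) (.g (nat_lit 1) (.e (nat_lit 414489) (nat_lit 0) .nil) .nil))) 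
(.lf (nat_lit 598843) (.g (nat_lit 1346) (.e (nat_lit 573487) (nat_lit 14) (.e (nat_lit 73754) (nat_lit 8) (.e (nat_lit 557101) (nat_lit 13) (.e (nat_lit 172065) (nat_lit 3) .nil)))) (.g (nat_lit 0) (.e (nat_lit 415396) (nat_lit 0) .nil) .nil))))) (.nd (nat_lit 8) (.nd (nat_lit 9) 
(.lf (nat_lit 598203) (.g (nat_lit 852) (.e (nat_lit 573485) (nat_lit 13) (.e (nat_lit 65604) (nat_lit 9) (.e (nat_lit 336013) (nat_lit 2) (.e (nat_lit 90170) (nat_lit 13) .nil)))) (.g (nat_lit 0) (.e (nat_lit 414336) (nat_lit 0) .nil) .nil))) 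
(.lf (nat_lit 598715) (.g (nat_lit 2141) (.e (nat_lit 581376) (nat_lit 13) (.e (nat_lit 65630) (nat_lit 14) (.e (nat_lit 401425) (nat_lit 2) (.e (nat_lit 196681) (nat_lit 17) .nil)))) (.g (nat_lit 0) (.e (nat_lit 414980) (nat_lit 0) .nil) .nil)))) (.nd (nat_lit 9) 
(.lf (nat_lit 598459) (.g (nat_lit 3552) (.e (nat_lit 573485) (nat_lit 13) (.e (nat_lit 65619) (nat_lit 10) (.e (nat_lit 344117) (nat_lit 21) (.e (nat_lit 516151) (nat_lit 9) (.e (nat_lit 426042) (nat_lit 0) (.e (nat_lit 2458) (nat_lit 157) (.e (nat_lit 5546) (nat_lit 306) (.e (nat_lit 2601) (nat_lit 163) (.e (nat_lit 163977) (nat_lit 30) .nil))))))))) (.g (nat_lit 1) (.e (nat_lit 414640) (nat_lit 0) .nil) .nil))) 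
(.lf (nat_lit 598971) (.g (nat_lit 2244) (.e (nat_lit 573488) (nat_lit 14) (.e (nat_lit 73755) (nat_lit 8) (.e (nat_lit 557105) (nat_lit 14) (.e (nat_lit 180251) (nat_lit 10) (.e (nat_lit 573477) (nat_lit 12) .nil))))) (.g (nat_lit 0) (.e (nat_lit 415696) (nat_lit 0) .nil) .nil)))))) (.nd (nat_lit 7) (.nd (nat_lit 8) (.nd (nat_lit 9) 
(.lf (nat_lit 598139) (.g (nat_lit 1918) (.e (nat_lit 573484) (nat_lit 13) (.e (nat_lit 65617) (nat_lit 10) (.e (nat_lit 344133) (nat_lit 26) (.e (nat_lit 557066) (nat_lit 9) (.e (nat_lit 312) (nat_lit 23) .nil))))) (.g (nat_lit 0) (.e (nat_lit 414174) (nat_lit 0) .nil) .nil))) 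
(.lf (nat_lit 598651) (.g (nat_lit 3393) (.e (nat_lit 573485) (nat_lit 13) (.e (nat_lit 65619) (nat_lit 10) (.e (nat_lit 344129) (nat_lit 26) (.e (nat_lit 557087) (nat_lit 11) (.e (nat_lit 24653) (nat_lit 12) (.e (nat_lit 385073) (nat_lit 31) .nil)))))) (.g (nat_lit 1) (.e (nat_lit 414887) (nat_lit 0) .nil) .nil)))) (.nd (nat_lit 9) 
(.lf (nat_lit 598395) (.g (nat_lit 2902) (.e (nat_lit 573485) (nat_lit 13) (.e (nat_lit 65619) (nat_lit 10) (.e (nat_lit 344117) (nat_lit 21) (.e (nat_lit 516145) (nat_lit 9) (.e (nat_lit 433920) (nat_lit 4) .nil))))) (.g (nat_lit 0) (.e (nat_lit 414575) (nat_lit 0) .nil) .nil))) 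
(.lf (nat_lit 598907) (.g (nat_lit 2337) (.e (nat_lit 573488) (nat_lit 14) (.e (nat_lit 73754) (nat_lit 8) (.e (nat_lit 557105) (nat_lit 14) (.e (nat_lit 180252) (nat_lit 10) (.e (nat_lit 573473) (nat_lit 12) (.e (nat_lit 57501) (nat_lit 37) (.e (nat_lit 630799) (nat_lit 7) (.e (nat_lit 163976) (nat_lit 30) .nil)))))))) (.g (nat_lit 1) (.e (nat_lit 415543) (nat_lit 0) .nil) .nil))))) 
(.nd (nat_lit 8) (.nd (nat_lit 9) 
(.lf (nat_lit 598267) (.g (nat_lit 3967) (.e (nat_lit 573485) (nat_lit 13) (.e (nat_lit 65604) (nat_lit 9) (.e (nat_lit 336013) (nat_lit 2) (.e (nat_lit 90170) (nat_lit 13) (.e (nat_lit 172060) (nat_lit 1) (.e (nat_lit 164347) (nat_lit 240) (.e (nat_lit 2611) (nat_lit 163) (.e (nat_lit 163978) (nat_lit 30) .nil)))))))) (.g (nat_lit 1) (.e (nat_lit 414408) (nat_lit 0) .nil) .nil))) 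
(.lf (nat_lit 598779) (.g (nat_lit 1391) (.e (nat_lit 573487) (nat_lit 14) (.e (nat_lit 73753) (nat_lit 8) (.e (nat_lit 557098) (nat_lit 13) (.e (nat_lit 172062) (nat_lit 2) (.e (nat_lit 204544) (nat_lit 2) .nil))))) (.g (nat_lit 0) (.e (nat_lit 415174) (nat_lit 0) .nil) .nil)))) (.nd (nat_lit 9) 
(.lf (nat_lit 598523) (.g (nat_lit 3069) (.e (nat_lit 573485) (nat_lit 13) (.e (nat_lit 65619) (nat_lit 10) (.e (nat_lit 344117) (nat_lit 21) (.e (nat_lit 516160) (nat_lit 10) (.e (nat_lit 434211) (nat_lit 18) (.e (nat_lit 5548) (nat_lit 306) (.e (nat_lit 2610) (nat_lit 163) (.e (nat_lit 163978) (nat_lit 30) .nil)))))))) (.g (nat_lit 1) (.e (nat_lit 414704) (nat_lit 0) .nil) .nil))) 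
(.lf (nat_lit 599035) (.g (nat_lit 536) (.e (nat_lit 573489) (nat_lit 14) (.e (nat_lit 73754) (nat_lit 8) (.e (nat_lit 557102) (nat_lit 14) .nil))) (.g (nat_lit 0) (.e (nat_lit 415873) (nat_lit 0) .nil) .nil)))))))))) (.nd (nat_lit 3) (.nd (nat_lit 4) (.nd (nat_lit 5) (.nd (nat_lit 6) (.nd (nat_lit 7) (.nd (nat_lit 8) (.nd (nat_lit 9) 
(.lf (nat_lit 598023) (.g (nat_lit 3199) (.e (nat_lit 573484) (nat_lit 13) (.e (nat_lit 65610) (nat_lit 10) (.e (nat_lit 344117) (nat_lit 21) (.e (nat_lit 516151) (nat_lit 9) (.e (nat_lit 426047) (nat_lit 0) (.e (nat_lit 3406) (nat_lit 212) (.e (nat_lit 655375) (nat_lit 3) (.e (nat_lit 163978) (nat_lit 30) .nil)))))))) (.g (nat_lit 1) (.e (nat_lit 413908) (nat_lit 0) .nil) .nil))) 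
(.lf (nat_lit 598535) (.g (nat_lit 4281) (.e (nat_lit 573485) (nat_lit 13) (.e (nat_lit 65619) (nat_lit 10) (.e (nat_lit 344117) (nat_lit 21) (.e (nat_lit 516179) (nat_lit 15) (.e (nat_lit 475205) (nat_lit 40) .nil))))) (.g (nat_lit 0) (.e (nat_lit 414720) (nat_lit 0) .nil) .nil)))) (.nd (nat_lit 9) 
(.lf (nat_lit 598279) (.g (nat_lit 2750) (.e (nat_lit 573485) (nat_lit 13) (.e (nat_lit 65604) (nat_lit 9) (.e (nat_lit 336013) (nat_lit 2) (.e (nat_lit 90170) (nat_lit 13) (.e (nat_lit 172069) (nat_lit 4) (.e (nat_lit 229678) (nat_lit 244) (.e (nat_lit 163850) (nat_lit 0) (.e (nat_lit 3306) (nat_lit 202) .nil)))))))) (.g (nat_lit 1) (.e (nat_lit 414421) (nat_lit 0) .nil) .nil))) 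
(.lf (nat_lit 598791) (.g (nat_lit 1590) (.e (nat_lit 573487) (nat_lit 14) (.e (nat_lit 73753) (nat_lit 8) (.e (nat_lit 557101) (nat_lit 13) (.e (nat_lit 172062) (nat_lit 2) (.e (nat_lit 204544) (nat_lit 2) .nil))))) (.g (nat_lit 0) (.e (nat_lit 415249) (nat_lit 0) .nil) .nil))))) (.nd (nat_lit 8) (.nd (nat_lit 9) 
(.lf (nat_lit 598151) (.g (nat_lit 981) (.e (nat_lit 573484) (nat_lit 13) (.e (nat_lit 65617) (nat_lit 10) (.e (nat_lit 344133) (nat_lit 26) (.e (nat_lit 557091) (nat_lit 12) .nil)))) (.g (nat_lit 0) (.e (nat_lit 414196) (nat_lit 0) .nil) .nil))) 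
(.lf (nat_lit 598663) (.g (nat_lit 1778) (.e (nat_lit 573485) (nat_lit 13) (.e (nat_lit 65624) (nat_lit 12) (.e (nat_lit 385074) (nat_lit 31) (.e (nat_lit 573485) (nat_lit 13) .nil)))) (.g (nat_lit 0) (.e (nat_lit 414916) (nat_lit 0) .nil) .nil)))) (.nd (nat_lit 9) 
(.lf (nat_lit 598407) (.g (nat_lit 3449) (.e (nat_lit 573485) (nat_lit 13) (.e (nat_lit 65619) (nat_lit 10) (.e (nat_lit 344117) (nat_lit 21) (.e (nat_lit 516145) (nat_lit 9) (.e (nat_lit 426393) (nat_lit 15) (.e (nat_lit 2056) (nat_lit 142) (.e (nat_lit 704589) (nat_lit 3) (.e (nat_lit 163978) (nat_lit 30) .nil)))))))) (.g (nat_lit 1) (.e (nat_lit 414587) (nat_lit 0) .nil) .nil))) 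
(.lf (nat_lit 598919) (.g (nat_lit 1644) (.e (nat_lit 573488) (nat_lit 14) (.e (nat_lit 73755) (nat_lit 8) (.e (nat_lit 557096) (nat_lit 13) (.e (nat_lit 172067) (nat_lit 3) (.e (nat_lit 204817) (nat_lit 17) .nil))))) (.g (nat_lit 0) (.e (nat_lit 415574) (nat_lit 0) .nil) .nil)))))) (.nd (nat_lit 7) (.nd (nat_lit 8) (.nd (nat_lit 9) 
(.lf (nat_lit 598087) (.g (nat_lit 2222) (.e (nat_lit 573484) (nat_lit 13) (.e (nat_lit 65610) (nat_lit 10) (.e (nat_lit 344129) (nat_lit 26) (.e (nat_lit 557066) (nat_lit 9) (.e (nat_lit 225) (nat_lit 21) .nil))))) (.g (nat_lit 0) (.e (nat_lit 414040) (nat_lit 0) .nil) .nil))) 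
(.lf (nat_lit 598599) (.g (nat_lit 1793) (.e (nat_lit 573485) (nat_lit 13) (.e (nat_lit 65619) (nat_lit 10) (.e (nat_lit 344129) (nat_lit 26) (.e (nat_lit 557074) (nat_lit 9) (.e (nat_lit 282) (nat_lit 21) .nil))))) (.g (nat_lit 0) (.e (nat_lit 414811) (nat_lit 0) .nil) .nil)))) (.nd (nat_lit 9) 
(.lf (nat_lit 598343) (.g (nat_lit 480) (.e (nat_lit 573485) (nat_lit 13) (.e (nat_lit 65619) (nat_lit 10) (.e (nat_lit 344107) (nat_lit 19) .nil))) (.g (nat_lit 0) (.e (nat_lit 414506) (nat_lit 0) .nil) .nil))) 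
(.lf (nat_lit 598855) (.g (nat_lit 1904) (.e (nat_lit 573487) (nat_lit 14) (.e (nat_lit 73755) (nat_lit 8) (.e (nat_lit 557098) (nat_lit 13) (.e (nat_lit 179968) (nat_lit 18) .nil)))) (.g (nat_lit 0) (.e (nat_lit 415410) (nat_lit 0) .nil) .nil))))) (.nd (nat_lit 8) (.nd (nat_lit 9) 
(.lf (nat_lit 598215) (.g (nat_lit 3032) (.e (nat_lit 573485) (nat_lit 13) (.e (nat_lit 65604) (nat_lit 9) (.e (nat_lit 336013) (nat_lit 2) (.e (nat_lit 90170) (nat_lit 13) (.e (nat_lit 172038) (nat_lit 0) (.e (nat_lit 3402) (nat_lit 211) (.e (nat_lit 647180) (nat_lit 3) (.e (nat_lit 163978) (nat_lit 30) .nil)))))))) (.g (nat_lit 1) (.e (nat_lit 414348) (nat_lit 0) .nil) .nil))) 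
(.lf (nat_lit 598727) (.g (nat_lit 1884) (.e (nat_lit 573486) (nat_lit 14) (.e (nat_lit 73755) (nat_lit 8) (.e (nat_lit 557098) (nat_lit 13) (.e (nat_lit 172064) (nat_lit 2) .nil)))) (.g (nat_lit 0) (.e (nat_lit 414996) (nat_lit 0) .nil) .nil)))) (.nd (nat_lit 9) 
(.lf (nat_lit 598471) (.g (nat_lit 3331) (.e (nat_lit 573485) (nat_lit 13) (.e (nat_lit 65619) (nat_lit 10) (.e (nat_lit 344117) (nat_lit 21) (.e (nat_lit 516151) (nat_lit 9) (.e (nat_lit 426042) (nat_lit 0) (.e (nat_lit 3408) (nat_lit 212) (.e (nat_lit 655375) (nat_lit 3) (.e (nat_lit 163977) (nat_lit 30) .nil)))))))) (.g (nat_lit 1) (.e (nat_lit 414652) (nat_lit 0) .nil) .nil))) 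
(.lf (nat_lit 598983) (.g (nat_lit 3958) (.e (nat_lit 573488) (nat_lit 14) (.e (nat_lit 73755) (nat_lit 8) (.e (nat_lit 557105) (nat_lit 14) (.e (nat_lit 180252) (nat_lit 10) (.e (nat_lit 573475) (nat_lit 12) (.e (nat_lit 57502) (nat_lit 38) (.e (nat_lit 638995) (nat_lit 7) (.e (nat_lit 163979) (nat_lit 30) .nil)))))))) (.g (nat_lit 1) (.e (nat_lit 415711) (nat_lit 0) .nil) .nil))))))) 
(.nd (nat_lit 6) (.nd (nat_lit 7) (.nd (nat_lit 8) (.nd (nat_lit 9) 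
(.lf (nat_lit 598055) (.g (nat_lit 5599) (.e (nat_lit 573484) (nat_lit 13) (.e (nat_lit 65610) (nat_lit 10) (.e (nat_lit 344117) (nat_lit 21) (.e (nat_lit 516179) (nat_lit 15) (.e (nat_lit 475199) (nat_lit 40) (.e (nat_lit 704589) (nat_lit 3) (.e (nat_lit 163978) (nat_lit 30) .nil))))))) (.g (nat_lit 1) (.e (nat_lit 413964) (nat_lit 0) .nil) .nil))) 
(.lf (nat_lit 598567) (.g (nat_lit 270) (.e (nat_lit 573485) (nat_lit 13) (.e (nat_lit 65619) (nat_lit 10) (.e (nat_lit 344129) (nat_lit 26) .nil))) (.g (nat_lit 0) (.e (nat_lit 414766) (nat_lit 0) .nil) .nil)))) (.nd (nat_lit 9) 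
(.lf (nat_lit 598311) (.g (nat_lit 3903) (.e (nat_lit 573485) (nat_lit 13) (.e (nat_lit 65604) (nat_lit 9) (.e (nat_lit 336028) (nat_lit 3) (.e (nat_lit 98359) (nat_lit 26) (.e (nat_lit 426043) (nat_lit 0) (.e (nat_lit 3406) (nat_lit 212) (.e (nat_lit 655375) (nat_lit 3) (.e (nat_lit 163977) (nat_lit 30) .nil)))))))) (.g (nat_lit 1) (.e (nat_lit 414461) (nat_lit 0) .nil) .nil))) 
(.lf (nat_lit 598823) (.g (nat_lit 1412) (.e (nat_lit 573487) (nat_lit 14) (.e (nat_lit 73753) (nat_lit 8) (.e (nat_lit 557105) (nat_lit 14) (.e (nat_lit 180245) (nat_lit 5) .nil)))) (.g (nat_lit 0) (.e (nat_lit 415363) (nat_lit 0) .nil) .nil))))) (.nd (nat_lit 8) (.nd (nat_lit 9) 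
(.lf (nat_lit 598183) (.g (nat_lit 4063) (.e (nat_lit 573485) (nat_lit 13) (.e (nat_lit 65604) (nat_lit 9) (.e (nat_lit 336013) (nat_lit 2) (.e (nat_lit 90127) (nat_lit 9) .nil)))) (.g (nat_lit 0) (.e (nat_lit 414311) (nat_lit 0) .nil) .nil))) 
(.lf (nat_lit 598695) (.g (nat_lit 388) (.e (nat_lit 573485) (nat_lit 13) (.e (nat_lit 65630) (nat_lit 14) (.e (nat_lit 401425) (nat_lit 2) .nil))) (.g (nat_lit 0) (.e (nat_lit 414953) (nat_lit 0) .nil) .nil)))) (.nd (nat_lit 9) 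
(.lf (nat_lit 598439) (.g (nat_lit 4435) (.e (nat_lit 573485) (nat_lit 13) (.e (nat_lit 65619) (nat_lit 10) (.e (nat_lit 344117) (nat_lit 21) (.e (nat_lit 516151) (nat_lit 9) (.e (nat_lit 426038) (nat_lit 0) (.e (nat_lit 2458) (nat_lit 157) (.e (nat_lit 5546) (nat_lit 306) (.e (nat_lit 2599) (nat_lit 163) (.e (nat_lit 163978) (nat_lit 30) .nil))))))))) (.g (nat_lit 1) (.e (nat_lit 414619) (nat_lit 0) .nil) .nil))) 
(.lf (nat_lit 598951) (.g (nat_lit 1874) (.e (nat_lit 573488) (nat_lit 14) (.e (nat_lit 73755) (nat_lit 8) (.e (nat_lit 557103) (nat_lit 14) (.e (nat_lit 180252) (nat_lit 10) .nil)))) (.g (nat_lit 0) (.e (nat_lit 415652) (nat_lit 0) .nil) .nil)))))) (.nd (nat_lit 7) (.nd (nat_lit 8) (.nd (nat_lit 9) 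
(.lf (nat_lit 598119) (.g (nat_lit 1831) (.e (nat_lit 573484) (nat_lit 13) (.e (nat_lit 65616) (nat_lit 10) (.e (nat_lit 344133) (nat_lit 26) (.e (nat_lit 557087) (nat_lit 11) (.e (nat_lit 24625) (nat_lit 9) .nil))))) (.g (nat_lit 0) (.e (nat_lit 414106) (nat_lit 0) .nil) .nil))) 
(.lf (nat_lit 598631) (.g (nat_lit 2355) (.e (nat_lit 573485) (nat_lit 13) (.e (nat_lit 65619) (nat_lit 10) (.e (nat_lit 344129) (nat_lit 26) (.e (nat_lit 557087) (nat_lit 11) (.e (nat_lit 24626) (nat_lit 9) .nil))))) (.g (nat_lit 0) (.e (nat_lit 414867) (nat_lit 0) .nil) .nil)))) (.nd (nat_lit 9) 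
(.lf (nat_lit 598375) (.g (nat_lit 3705) (.e (nat_lit 573485) (nat_lit 13) (.e (nat_lit 65619) (nat_lit 10) (.e (nat_lit 344117) (nat_lit 21) (.e (nat_lit 516143) (nat_lit 9) (.e (nat_lit 426109) (nat_lit 1) (.e (nat_lit 164345) (nat_lit 240) (.e (nat_lit 2600) (nat_lit 163) (.e (nat_lit 163977) (nat_lit 30) .nil)))))))) (.g (nat_lit 1) (.e (nat_lit 414555) (nat_lit 0) .nil) .nil))) 
(.lf (nat_lit 598887) (.g (nat_lit 731) (.e (nat_lit 573488) (nat_lit 14) (.e (nat_lit 73753) (nat_lit 8) (.e (nat_lit 557103) (nat_lit 14) .nil))) (.g (nat_lit 0) (.e (nat_lit 415522) (nat_lit 0) .nil) .nil))))) (.nd (nat_lit 8) (.nd (nat_lit 9) 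
(.lf (nat_lit 598247) (.g (nat_lit 4297) (.e (nat_lit 573485) (nat_lit 13) (.e (nat_lit 65604) (nat_lit 9) (.e (nat_lit 336013) (nat_lit 2) (.e (nat_lit 90170) (nat_lit 13) (.e (nat_lit 172049) (nat_lit 0) (.e (nat_lit 3409) (nat_lit 212) (.e (nat_lit 655375) (nat_lit 3) (.e (nat_lit 163977) (nat_lit 30) .nil)))))))) (.g (nat_lit 1) (.e (nat_lit 414387) (nat_lit 0) .nil) .nil))) 
(.lf (nat_lit 598759) (.g (nat_lit 2497) (.e (nat_lit 573487) (nat_lit 14) (.e (nat_lit 73753) (nat_lit 8) (.e (nat_lit 557090) (nat_lit 12) (.e (nat_lit 164006) (nat_lit 41) (.e (nat_lit 663560) (nat_lit 0) .nil))))) (.g (nat_lit 0) (.e (nat_lit 415126) (nat_lit 0) .nil) .nil)))) (.nd (nat_lit 9) 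
(.lf (nat_lit 598503) (.g (nat_lit 3523) (.e (nat_lit 573485) (nat_lit 13) (.e (nat_lit 65619) (nat_lit 10) (.e (nat_lit 344117) (nat_lit 21) (.e (nat_lit 516151) (nat_lit 9) (.e (nat_lit 426414) (nat_lit 15) (.e (nat_lit 2057) (nat_lit 142) (.e (nat_lit 704589) (nat_lit 3) (.e (nat_lit 163978) (nat_lit 30) .nil)))))))) (.g (nat_lit 1) (.e (nat_lit 414684) (nat_lit 0) .nil) .nil))) 
(.lf (nat_lit 599015) (.g (nat_lit 406) (.e (nat_lit 573489) (nat_lit 14) (.e (nat_lit 73754) (nat_lit 8) (.e (nat_lit 557095) (nat_lit 13) .nil))) (.g (nat_lit 0) (.e (nat_lit 415831) (nat_lit 0) .nil) .nil)))))))) (.nd (nat_lit 5) (.nd (nat_lit 6) (.nd (nat_lit 7) (.nd (nat_lit 8) (.nd (nat_lit 9) 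
(.lf (nat_lit 598039) (.g (nat_lit 2546) (.e (nat_lit 573484) (nat_lit 13) (.e (nat_lit 65610) (nat_lit 10) (.e (nat_lit 344117) (nat_lit 21) (.e (nat_lit 516156) (nat_lit 9) .nil)))) (.g (nat_lit 0) (.e (nat_lit 413936) (nat_lit 0) .nil) .nil))) 
(.lf (nat_lit 598551) (.g (nat_lit 1058) (.e (nat_lit 573485) (nat_lit 13) (.e (nat_lit 65619) (nat_lit 10) (.e (nat_lit 344126) (nat_lit 25) (.e (nat_lit 548872) (nat_lit 5) .nil)))) (.g (nat_lit 0) (.e (nat_lit 414737) (nat_lit 0) .nil) .nil)))) (.nd (nat_lit 9) 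
(.lf (nat_lit 598295) (.g (nat_lit 4063) (.e (nat_lit 573485) (nat_lit 13) (.e (nat_lit 65604) (nat_lit 9) (.e (nat_lit 336013) (nat_lit 2) (.e (nat_lit 90173) (nat_lit 14) .nil)))) (.g (nat_lit 0) (.e (nat_lit 414438) (nat_lit 0) .nil) .nil))) 
(.lf (nat_lit 598807) (.g (nat_lit 2837) (.e (nat_lit 573487) (nat_lit 14) (.e (nat_lit 73753) (nat_lit 8) (.e (nat_lit 557103) (nat_lit 14) (.e (nat_lit 180244) (nat_lit 5) (.e (nat_lit 532489) (nat_lit 0) (.e (nat_lit 7936) (nat_lit 149) (.e (nat_lit 761898) (nat_lit 15) (.e (nat_lit 163977) (nat_lit 30) .nil)))))))) (.g (nat_lit 1) (.e (nat_lit 415314) (nat_lit 0) .nil) .nil))))) 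
(.nd (nat_lit 8) (.nd (nat_lit 9) 
(.lf (nat_lit 598167) (.g (nat_lit 907) (.e (nat_lit 573484) (nat_lit 13) (.e (nat_lit 65630) (nat_lit 14) (.e (nat_lit 401424) (nat_lit 2) .nil))) (.g (nat_lit 0) (.e (nat_lit 414239) (nat_lit 0) .nil) .nil))) 
(.lf (nat_lit 598679) (.g (nat_lit 778) (.e (nat_lit 573485) (nat_lit 13) (.e (nat_lit 65628) (nat_lit 14) (.e (nat_lit 401427) (nat_lit 3) .nil))) (.g (nat_lit 0) (.e (nat_lit 414935) (nat_lit 0) .nil) .nil)))) (.nd (nat_lit 9) 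
(.lf (nat_lit 598423) (.g (nat_lit 2595) (.e (nat_lit 573485) (nat_lit 13) (.e (nat_lit 65619) (nat_lit 10) (.e (nat_lit 344117) (nat_lit 21) (.e (nat_lit 516151) (nat_lit 9) (.e (nat_lit 426003) (nat_lit 0) (.e (nat_lit 3409) (nat_lit 212) (.e (nat_lit 655375) (nat_lit 3) (.e (nat_lit 163977) (nat_lit 30) .nil)))))))) (.g (nat_lit 1) (.e (nat_lit 414603) (nat_lit 0) .nil) .nil))) 
(.lf (nat_lit 598935) (.g (nat_lit 1931) (.e (nat_lit 573488) (nat_lit 14) (.e (nat_lit 73755) (nat_lit 8) (.e (nat_lit 557098) (nat_lit 13) (.e (nat_lit 172140) (nat_lit 22) (.e (nat_lit 139280) (nat_lit 4) .nil))))) (.g (nat_lit 0) (.e (nat_lit 415618) (nat_lit 0) .nil) .nil)))))) (.nd (nat_lit 7) (.nd (nat_lit 8) (.nd (nat_lit 9) 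
(.lf (nat_lit 598103) (.g (nat_lit 1073) (.e (nat_lit 573484) (nat_lit 13) (.e (nat_lit 65610) (nat_lit 10) (.e (nat_lit 344129) (nat_lit 26) (.e (nat_lit 557087) (nat_lit 11) .nil)))) (.g (nat_lit 0) (.e (nat_lit 414084) (nat_lit 0) .nil) .nil))) 
(.lf (nat_lit 598615) (.g (nat_lit 2808) (.e (nat_lit 573485) (nat_lit 13) (.e (nat_lit 65619) (nat_lit 10) (.e (nat_lit 344129) (nat_lit 26) (.e (nat_lit 557086) (nat_lit 11) (.e (nat_lit 24651) (nat_lit 12) (.e (nat_lit 385074) (nat_lit 31) .nil)))))) (.g (nat_lit 1) (.e (nat_lit 414832) (nat_lit 0) .nil) .nil)))) (.nd (nat_lit 9) 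
(.lf (nat_lit 598359) (.g (nat_lit 2067) (.e (nat_lit 573485) (nat_lit 13) (.e (nat_lit 65619) (nat_lit 10) (.e (nat_lit 344117) (nat_lit 21) (.e (nat_lit 516102) (nat_lit 0) (.e (nat_lit 6989) (nat_lit 377) .nil))))) (.g (nat_lit 0) (.e (nat_lit 414525) (nat_lit 0) .nil) .nil))) 
(.lf (nat_lit 598871) (.g (nat_lit 1543) (.e (nat_lit 573487) (nat_lit 14) (.e (nat_lit 73782) (nat_lit 32) (.e (nat_lit 2664) (nat_lit 167) (.e (nat_lit 196630) (nat_lit 9) (.e (nat_lit 1413) (nat_lit 108) .nil))))) (.g (nat_lit 0) (.e (nat_lit 415445) (nat_lit 0) .nil) .nil))))) (.nd (nat_lit 8) (.nd (nat_lit 9) 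
(.lf (nat_lit 598231) (.g (nat_lit 2921) (.e (nat_lit 573485) (nat_lit 13) (.e (nat_lit 65604) (nat_lit 9) (.e (nat_lit 336013) (nat_lit 2) (.e (nat_lit 90170) (nat_lit 13) (.e (nat_lit 172046) (nat_lit 0) (.e (nat_lit 2458) (nat_lit 157) (.e (nat_lit 5546) (nat_lit 306) (.e (nat_lit 2610) (nat_lit 163) (.e (nat_lit 163977) (nat_lit 30) .nil))))))))) (.g (nat_lit 1) (.e (nat_lit 414368) (nat_lit 0) .nil) .nil))) 
(.lf (nat_lit 598743) (.g (nat_lit 1221) (.e (nat_lit 573487) (nat_lit 14) (.e (nat_lit 73753) (nat_lit 8) (.e (nat_lit 557089) (nat_lit 12) (.e (nat_lit 164006) (nat_lit 41) .nil)))) (.g (nat_lit 0) (.e (nat_lit 415100) (nat_lit 0) .nil) .nil)))) (.nd (nat_lit 9) 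
(.lf (nat_lit 598487) (.g (nat_lit 3439) (.e (nat_lit 573485) (nat_lit 13) (.e (nat_lit 65619) (nat_lit 10) (.e (nat_lit 344117) (nat_lit 21) (.e (nat_lit 516151) (nat_lit 9) (.e (nat_lit 426104) (nat_lit 1) (.e (nat_lit 164346) (nat_lit 240) (.e (nat_lit 2610) (nat_lit 163) (.e (nat_lit 163978) (nat_lit 30) .nil)))))))) (.g (nat_lit 1) (.e (nat_lit 414668) (nat_lit 0) .nil) .nil))) 
(.lf (nat_lit 598999) (.g (nat_lit 3072) (.e (nat_lit 573489) (nat_lit 14) (.e (nat_lit 73753) (nat_lit 8) (.e (nat_lit 557091) (nat_lit 12) (.e (nat_lit 163999) (nat_lit 38) (.e (nat_lit 639016) (nat_lit 15) .nil))))) (.g (nat_lit 0) (.e (nat_lit 415801) (nat_lit 0) .nil) .nil))))))) (.nd (nat_lit 6) (.nd (nat_lit 7) (.nd (nat_lit 8) (.nd (nat_lit 9) 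
(.lf (nat_lit 598071) (.g (nat_lit 5340) (.e (nat_lit 573484) (nat_lit 13) (.e (nat_lit 65610) (nat_lit 10) (.e (nat_lit 344117) (nat_lit 21) (.e (nat_lit 516185) (nat_lit 16) (.e (nat_lit 491546) (nat_lit 9) (.e (nat_lit 336295) (nat_lit 15) (.e (nat_lit 3305) (nat_lit 202) .nil))))))) (.g (nat_lit 1) (.e (nat_lit 413996) (nat_lit 0) .nil) .nil))) 
(.lf (nat_lit 598583) (.g (nat_lit 1888) (.e (nat_lit 573485) (nat_lit 13) (.e (nat_lit 65619) (nat_lit 10) (.e (nat_lit 344129) (nat_lit 26) (.e (nat_lit 557066) (nat_lit 9) (.e (nat_lit 276) (nat_lit 21) .nil))))) (.g (nat_lit 0) (.e (nat_lit 414787) (nat_lit 0) .nil) .nil)))) (.nd (nat_lit 9) 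
(.lf (nat_lit 598327) (.g (nat_lit 2429) (.e (nat_lit 573485) (nat_lit 13) (.e (nat_lit 65604) (nat_lit 9) (.e (nat_lit 336028) (nat_lit 3) (.e (nat_lit 98367) (nat_lit 27) (.e (nat_lit 434208) (nat_lit 18) (.e (nat_lit 5537) (nat_lit 306) (.e (nat_lit 2611) (nat_lit 163) (.e (nat_lit 163977) (nat_lit 30) .nil)))))))) (.g (nat_lit 1) (.e (nat_lit 414485) (nat_lit 0) .nil) .nil))) 
(.lf (nat_lit 598839) (.g (nat_lit 2138) (.e (nat_lit 573487) (nat_lit 14) (.e (nat_lit 73753) (nat_lit 8) (.e (nat_lit 557119) (nat_lit 18) (.e (nat_lit 2797) (nat_lit 180) (.e (nat_lit 311040) (nat_lit 18) .nil))))) (.g (nat_lit 0) (.e (nat_lit 415392) (nat_lit 0) .nil) .nil))))) (.nd (nat_lit 8) (.nd (nat_lit 9) 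
(.lf (nat_lit 598199) (.g (nat_lit 4063) (.e (nat_lit 573485) (nat_lit 13) (.e (nat_lit 65604) (nat_lit 9) (.e (nat_lit 336013) (nat_lit 2) (.e (nat_lit 90150) (nat_lit 9) .nil)))) (.g (nat_lit 0) (.e (nat_lit 414332) (nat_lit 0) .nil) .nil))) 
(.lf (nat_lit 598711) (.g (nat_lit 1941) (.e (nat_lit 573485) (nat_lit 13) (.e (nat_lit 65630) (nat_lit 14) (.e (nat_lit 401428) (nat_lit 3) (.e (nat_lit 204866) (nat_lit 28) (.e (nat_lit 352260) (nat_lit 0) (.e (nat_lit 3304) (nat_lit 202) .nil)))))) (.g (nat_lit 1) (.e (nat_lit 414976) (nat_lit 0) .nil) .nil)))) (.nd (nat_lit 9) 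
(.lf (nat_lit 598455) (.g (nat_lit 3475) (.e (nat_lit 573485) (nat_lit 13) (.e (nat_lit 65619) (nat_lit 10) (.e (nat_lit 344117) (nat_lit 21) (.e (nat_lit 516151) (nat_lit 9) (.e (nat_lit 426041) (nat_lit 0) .nil))))) (.g (nat_lit 0) (.e (nat_lit 414635) (nat_lit 0) .nil) .nil))) 
(.lf (nat_lit 598967) (.g (nat_lit 1912) (.e (nat_lit 573488) (nat_lit 14) (.e (nat_lit 73755) (nat_lit 8) (.e (nat_lit 557105) (nat_lit 14) (.e (nat_lit 180250) (nat_lit 10) .nil)))) (.g (nat_lit 0) (.e (nat_lit 415692) (nat_lit 0) .nil) .nil)))))) (.nd (nat_lit 7) (.nd (nat_lit 8) (.nd (nat_lit 9) 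
(.lf (nat_lit 598135) (.g (nat_lit 2979) (.e (nat_lit 573484) (nat_lit 13) (.e (nat_lit 65617) (nat_lit 10) (.e (nat_lit 344132) (nat_lit 26) (.e (nat_lit 557085) (nat_lit 11) (.e (nat_lit 24631) (nat_lit 9) (.e (nat_lit 336295) (nat_lit 15) (.e (nat_lit 3305) (nat_lit 202) .nil))))))) (.g (nat_lit 1) (.e (nat_lit 414163) (nat_lit 0) .nil) .nil))) 
(.lf (nat_lit 598647) (.g (nat_lit 2259) (.e (nat_lit 573485) (nat_lit 13) (.e (nat_lit 65619) (nat_lit 10) (.e (nat_lit 344129) (nat_lit 26) (.e (nat_lit 557087) (nat_lit 11) (.e (nat_lit 32512) (nat_lit 9) (.e (nat_lit 336239) (nat_lit 15) (.e (nat_lit 3309) (nat_lit 202) .nil))))))) (.g (nat_lit 1) (.e (nat_lit 414883) (nat_lit 0) .nil) .nil)))) (.nd (nat_lit 9) 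
(.lf (nat_lit 598391) (.g (nat_lit 3006) (.e (nat_lit 573485) (nat_lit 13) (.e (nat_lit 65619) (nat_lit 10) (.e (nat_lit 344117) (nat_lit 21) (.e (nat_lit 516145) (nat_lit 9) (.e (nat_lit 433920) (nat_lit 1) (.e (nat_lit 164348) (nat_lit 240) (.e (nat_lit 2601) (nat_lit 163) (.e (nat_lit 163977) (nat_lit 30) .nil)))))))) (.g (nat_lit 1) (.e (nat_lit 414571) (nat_lit 0) .nil) .nil))) 
(.lf (nat_lit 598903) (.g (nat_lit 2530) (.e (nat_lit 573488) (nat_lit 14) (.e (nat_lit 73754) (nat_lit 8) (.e (nat_lit 557103) (nat_lit 14) (.e (nat_lit 180243) (nat_lit 5) (.e (nat_lit 532484) (nat_lit 0) .nil))))) (.g (nat_lit 0) (.e (nat_lit 415539) (nat_lit 0) .nil) .nil))))) (.nd (nat_lit 8) (.nd (nat_lit 9) 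
(.lf (nat_lit 598263) (.g (nat_lit 3503) (.e (nat_lit 573485) (nat_lit 13) (.e (nat_lit 65604) (nat_lit 9) (.e (nat_lit 336013) (nat_lit 2) (.e (nat_lit 90170) (nat_lit 13) (.e (nat_lit 172060) (nat_lit 1) (.e (nat_lit 164345) (nat_lit 240) (.e (nat_lit 2601) (nat_lit 163) (.e (nat_lit 163977) (nat_lit 30) .nil)))))))) (.g (nat_lit 1) (.e (nat_lit 414404) (nat_lit 0) .nil) .nil))) 
(.lf (nat_lit 598775) (.g (nat_lit 1873) (.e (nat_lit 573487) (nat_lit 14) (.e (nat_lit 73753) (nat_lit 8) (.e (nat_lit 557096) (nat_lit 13) (.e (nat_lit 172067) (nat_lit 3) (.e (nat_lit 204817) (nat_lit 17) .nil))))) (.g (nat_lit 0) (.e (nat_lit 415163) (nat_lit 0) .nil) .nil)))) (.nd (nat_lit 9) 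
(.lf (nat_lit 598519) (.g (nat_lit 2737) (.e (nat_lit 573485) (nat_lit 13) (.e (nat_lit 65619) (nat_lit 10) (.e (nat_lit 344117) (nat_lit 21) (.e (nat_lit 516160) (nat_lit 10) (.e (nat_lit 434202) (nat_lit 18) .nil))))) (.g (nat_lit 0) (.e (nat_lit 414700) (nat_lit 0) .nil) .nil))) 
(.lf (nat_lit 599031) (.g (nat_lit 1578) (.e (nat_lit 573489) (nat_lit 14) (.e (nat_lit 73754) (nat_lit 8) (.e (nat_lit 557101) (nat_lit 13) (.e (nat_lit 172065) (nat_lit 3) (.e (nat_lit 204830) (nat_lit 18) .nil))))) (.g (nat_lit 0) (.e (nat_lit 415862) (nat_lit 0) .nil) .nil))))))))) (.nd (nat_lit 4) (.nd (nat_lit 5) (.nd (nat_lit 6) (.nd (nat_lit 7) (.nd (nat_lit 8) (.nd (nat_lit 9) 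
(.lf (nat_lit 598031) (.g (nat_lit 2739) (.e (nat_lit 573484) (nat_lit 13) (.e (nat_lit 65610) (nat_lit 10) (.e (nat_lit 344117) (nat_lit 21) (.e (nat_lit 516151) (nat_lit 9) (.e (nat_lit 426367) (nat_lit 15) .nil))))) (.g (nat_lit 0) (.e (nat_lit 413922) (nat_lit 0) .nil) .nil))) 
(.lf (nat_lit 598543) (.g (nat_lit 4034) (.e (nat_lit 573485) (nat_lit 13) (.e (nat_lit 65619) (nat_lit 10) (.e (nat_lit 344117) (nat_lit 21) (.e (nat_lit 516185) (nat_lit 16) (.e (nat_lit 491546) (nat_lit 9) (.e (nat_lit 336295) (nat_lit 15) (.e (nat_lit 3305) (nat_lit 202) .nil))))))) (.g (nat_lit 1) (.e (nat_lit 414729) (nat_lit 0) .nil) .nil)))) (.nd (nat_lit 9) 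
(.lf (nat_lit 598287) (.g (nat_lit 3319) (.e (nat_lit 573485) (nat_lit 13) (.e (nat_lit 65604) (nat_lit 9) (.e (nat_lit 336013) (nat_lit 2) (.e (nat_lit 90170) (nat_lit 13) (.e (nat_lit 172134) (nat_lit 15) .nil))))) (.g (nat_lit 0) (.e (nat_lit 414429) (nat_lit 0) .nil) .nil))) 
(.lf (nat_lit 598799) (.g (nat_lit 2498) (.e (nat_lit 573487) (nat_lit 14) (.e (nat_lit 73753) (nat_lit 8) (.e (nat_lit 557103) (nat_lit 14) (.e (nat_lit 180243) (nat_lit 5) (.e (nat_lit 532484) (nat_lit 0) .nil))))) (.g (nat_lit 0) (.e (nat_lit 415281) (nat_lit 0) .nil) .nil))))) (.nd (nat_lit 8) (.nd (nat_lit 9) 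
(.lf (nat_lit 598159) (.g (nat_lit 3438) (.e (nat_lit 573484) (nat_lit 13) (.e (nat_lit 65624) (nat_lit 12) (.e (nat_lit 385074) (nat_lit 31) (.e (nat_lit 573493) (nat_lit 15) (.e (nat_lit 81924) (nat_lit 0) .nil))))) (.g (nat_lit 0) (.e (nat_lit 414219) (nat_lit 0) .nil) .nil))) 
(.lf (nat_lit 598671) (.g (nat_lit 1763) (.e (nat_lit 573485) (nat_lit 13) (.e (nat_lit 65628) (nat_lit 14) (.e (nat_lit 401425) (nat_lit 2) (.e (nat_lit 196628) (nat_lit 9) .nil)))) (.g (nat_lit 0) (.e (nat_lit 414927) (nat_lit 0) .nil) .nil)))) (.nd (nat_lit 9) 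
(.lf (nat_lit 598415) (.g (nat_lit 2902) (.e (nat_lit 573485) (nat_lit 13) (.e (nat_lit 65619) (nat_lit 10) (.e (nat_lit 344117) (nat_lit 21) (.e (nat_lit 516145) (nat_lit 9) (.e (nat_lit 433920) (nat_lit 19) .nil))))) (.g (nat_lit 0) (.e (nat_lit 414595) (nat_lit 0) .nil) .nil))) 
(.lf (nat_lit 598927) (.g (nat_lit 1781) (.e (nat_lit 573488) (nat_lit 14) (.e (nat_lit 73755) (nat_lit 8) (.e (nat_lit 557098) (nat_lit 13) (.e (nat_lit 172062) (nat_lit 2) .nil)))) (.g (nat_lit 0) (.e (nat_lit 415594) (nat_lit 0) .nil) .nil)))))) (.nd (nat_lit 7) (.nd (nat_lit 8) (.nd (nat_lit 9) 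
(.lf (nat_lit 598095) (.g (nat_lit 1169) (.e (nat_lit 573484) (nat_lit 13) (.e (nat_lit 65610) (nat_lit 10) (.e (nat_lit 344129) (nat_lit 26) (.e (nat_lit 557074) (nat_lit 9) .nil)))) (.g (nat_lit 0) (.e (nat_lit 414068) (nat_lit 0) .nil) .nil))) 
(.lf (nat_lit 598607) (.g (nat_lit 2385) (.e (nat_lit 573485) (nat_lit 13) (.e (nat_lit 65619) (nat_lit 10) (.e (nat_lit 344129) (nat_lit 26) (.e (nat_lit 557085) (nat_lit 11) (.e (nat_lit 24630) (nat_lit 9) (.e (nat_lit 336240) (nat_lit 15) (.e (nat_lit 3309) (nat_lit 202) .nil))))))) (.g (nat_lit 1) (.e (nat_lit 414824) (nat_lit 0) .nil) .nil)))) (.nd (nat_lit 9) 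
(.lf (nat_lit 598351) (.g (nat_lit 2071) (.e (nat_lit 573485) (nat_lit 13) (.e (nat_lit 65619) (nat_lit 10) (.e (nat_lit 344117) (nat_lit 21) (.e (nat_lit 516097) (nat_lit 0) (.e (nat_lit 7511) (nat_lit 402) .nil))))) (.g (nat_lit 0) (.e (nat_lit 414516) (nat_lit 0) .nil) .nil))) 
(.lf (nat_lit 598863) (.g (nat_lit 1939) (.e (nat_lit 573487) (nat_lit 14) (.e (nat_lit 73781) (nat_lit 32) (.e (nat_lit 2663) (nat_lit 167) (.e (nat_lit 196672) (nat_lit 15) (.e (nat_lit 81922) (nat_lit 0) .nil))))) (.g (nat_lit 0) (.e (nat_lit 415422) (nat_lit 0) .nil) .nil))))) (.nd (nat_lit 8) (.nd (nat_lit 9) 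
(.lf (nat_lit 598223) (.g (nat_lit 1657) (.e (nat_lit 573485) (nat_lit 13) (.e (nat_lit 65604) (nat_lit 9) (.e (nat_lit 336013) (nat_lit 2) (.e (nat_lit 90170) (nat_lit 13) (.e (nat_lit 172042) (nat_lit 0) .nil))))) (.g (nat_lit 0) (.e (nat_lit 414356) (nat_lit 0) .nil) .nil))) 
(.lf (nat_lit 598735) (.g (nat_lit 2096) (.e (nat_lit 573487) (nat_lit 14) (.e (nat_lit 73747) (nat_lit 3) (.e (nat_lit 516115) (nat_lit 1) (.e (nat_lit 164196) (nat_lit 158) .nil)))) (.g (nat_lit 0) (.e (nat_lit 415041) (nat_lit 0) .nil) .nil)))) (.nd (nat_lit 9) 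
(.lf (nat_lit 598479) (.g (nat_lit 2020) (.e (nat_lit 573485) (nat_lit 13) (.e (nat_lit 65619) (nat_lit 10) (.e (nat_lit 344117) (nat_lit 21) (.e (nat_lit 516151) (nat_lit 9) (.e (nat_lit 426097) (nat_lit 1) .nil))))) (.g (nat_lit 0) (.e (nat_lit 414660) (nat_lit 0) .nil) .nil))) 
(.lf (nat_lit 598991) (.g (nat_lit 1690) (.e (nat_lit 573488) (nat_lit 14) (.e (nat_lit 73781) (nat_lit 32) (.e (nat_lit 2663) (nat_lit 167) (.e (nat_lit 196674) (nat_lit 15) (.e (nat_lit 81922) (nat_lit 0) .nil))))) (.g (nat_lit 0) (.e (nat_lit 415728) (nat_lit 0) .nil) .nil))))))) (.nd (nat_lit 6) (.nd (nat_lit 7) (.nd (nat_lit 8) (.nd (nat_lit 9) 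
(.lf (nat_lit 598063) (.g (nat_lit 1591) (.e (nat_lit 573484) (nat_lit 13) (.e (nat_lit 65610) (nat_lit 10) (.e (nat_lit 344117) (nat_lit 21) (.e (nat_lit 516180) (nat_lit 15) .nil)))) (.g (nat_lit 0) (.e (nat_lit 413982) (nat_lit 0) .nil) .nil))) 
(.lf (nat_lit 598575) (.g (nat_lit 2205) (.e (nat_lit 573485) (nat_lit 13) (.e (nat_lit 65619) (nat_lit 10) (.e (nat_lit 344129) (nat_lit 26) (.e (nat_lit 557065) (nat_lit 9) (.e (nat_lit 290) (nat_lit 21) .nil))))) (.g (nat_lit 0) (.e (nat_lit 414774) (nat_lit 0) .nil) .nil)))) (.nd (nat_lit 9) 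
(.lf (nat_lit 598319) (.g (nat_lit 1690) (.e (nat_lit 573485) (nat_lit 13) (.e (nat_lit 65604) (nat_lit 9) (.e (nat_lit 336028) (nat_lit 3) (.e (nat_lit 98362) (nat_lit 26) .nil)))) (.g (nat_lit 0) (.e (nat_lit 414472) (nat_lit 0) .nil) .nil))) 
(.lf (nat_lit 598831) (.g (nat_lit 2050) (.e (nat_lit 573487) (nat_lit 14) (.e (nat_lit 73753) (nat_lit 8) (.e (nat_lit 557105) (nat_lit 14) (.e (nat_lit 180252) (nat_lit 10) (.e (nat_lit 573473) (nat_lit 12) .nil))))) (.g (nat_lit 0) (.e (nat_lit 415374) (nat_lit 0) .nil) .nil))))) (.nd (nat_lit 8) (.nd (nat_lit 9) 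
(.lf (nat_lit 598191) (.g (nat_lit 4711) (.e (nat_lit 573485) (nat_lit 13) (.e (nat_lit 65604) (nat_lit 9) (.e (nat_lit 336013) (nat_lit 2) (.e (nat_lit 90134) (nat_lit 9) (.e (nat_lit 3098) (nat_lit 192) (.e (nat_lit 491566) (nat_lit 12) (.e (nat_lit 385073) (nat_lit 31) .nil))))))) (.g (nat_lit 1) (.e (nat_lit 414324) (nat_lit 0) .nil) .nil))) 
(.lf (nat_lit 598703) (.g (nat_lit 2680) (.e (nat_lit 573485) (nat_lit 13) (.e (nat_lit 65630) (nat_lit 14) (.e (nat_lit 401425) (nat_lit 2) (.e (nat_lit 196681) (nat_lit 17) (.e (nat_lit 131107) (nat_lit 9) .nil))))) (.g (nat_lit 0) (.e (nat_lit 414961) (nat_lit 0) .nil) .nil)))) (.nd (nat_lit 9) 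
(.lf (nat_lit 598447) (.g (nat_lit 4136) (.e (nat_lit 573485) (nat_lit 13) (.e (nat_lit 65619) (nat_lit 10) (.e (nat_lit 344117) (nat_lit 21) (.e (nat_lit 516151) (nat_lit 9) (.e (nat_lit 426040) (nat_lit 0) (.e (nat_lit 2458) (nat_lit 157) (.e (nat_lit 5547) (nat_lit 306) (.e (nat_lit 2610) (nat_lit 163) (.e (nat_lit 163978) (nat_lit 30) .nil))))))))) (.g (nat_lit 1) (.e (nat_lit 414627) (nat_lit 0) .nil) .nil))) 
(.lf (nat_lit 598959) (.g (nat_lit 2567) (.e (nat_lit 573488) (nat_lit 14) (.e (nat_lit 73755) (nat_lit 8) (.e (nat_lit 557104) (nat_lit 14) (.e (nat_lit 180252) (nat_lit 10) (.e (nat_lit 573473) (nat_lit 12) (.e (nat_lit 57500) (nat_lit 37) (.e (nat_lit 630799) (nat_lit 7) (.e (nat_lit 163976) (nat_lit 30) .nil)))))))) (.g (nat_lit 1) (.e (nat_lit 415681) (nat_lit 0) .nil) .nil)))))) 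
(.nd (nat_lit 7) (.nd (nat_lit 8) (.nd (nat_lit 9) 
(.lf (nat_lit 598127) (.g (nat_lit 2123) (.e (nat_lit 573484) (nat_lit 13) (.e (nat_lit 65617) (nat_lit 10) (.e (nat_lit 344130) (nat_lit 26) (.e (nat_lit 557066) (nat_lit 9) (.e (nat_lit 225) (nat_lit 21) .nil))))) (.g (nat_lit 0) (.e (nat_lit 414132) (nat_lit 0) .nil) .nil))) 
(.lf (nat_lit 598639) (.g (nat_lit 2589) (.e (nat_lit 573485) (nat_lit 13) (.e (nat_lit 65619) (nat_lit 10) (.e (nat_lit 344129) (nat_lit 26) (.e (nat_lit 557087) (nat_lit 11) (.e (nat_lit 24630) (nat_lit 9) (.e (nat_lit 336260) (nat_lit 15) (.e (nat_lit 3307) (nat_lit 202) .nil))))))) (.g (nat_lit 1) (.e (nat_lit 414875) (nat_lit 0) .nil) .nil)))) (.nd (nat_lit 9) 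
(.lf (nat_lit 598383) (.g (nat_lit 3493) (.e (nat_lit 573485) (nat_lit 13) (.e (nat_lit 65619) (nat_lit 10) (.e (nat_lit 344117) (nat_lit 21) (.e (nat_lit 516145) (nat_lit 9) (.e (nat_lit 425985) (nat_lit 0) .nil))))) (.g (nat_lit 0) (.e (nat_lit 414563) (nat_lit 0) .nil) .nil))) 
(.lf (nat_lit 598895) (.g (nat_lit 3825) (.e (nat_lit 573488) (nat_lit 14) (.e (nat_lit 73753) (nat_lit 8) (.e (nat_lit 557105) (nat_lit 14) (.e (nat_lit 180252) (nat_lit 10) (.e (nat_lit 573474) (nat_lit 12) (.e (nat_lit 57503) (nat_lit 38) (.e (nat_lit 638995) (nat_lit 7) (.e (nat_lit 163979) (nat_lit 30) .nil)))))))) (.g (nat_lit 1) (.e (nat_lit 415530) (nat_lit 0) .nil) .nil))))) 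
(.nd (nat_lit 8) (.nd (nat_lit 9) 
(.lf (nat_lit 598255) (.g (nat_lit 3552) (.e (nat_lit 573485) (nat_lit 13) (.e (nat_lit 65604) (nat_lit 9) (.e (nat_lit 336013) (nat_lit 2) (.e (nat_lit 90170) (nat_lit 13) (.e (nat_lit 172052) (nat_lit 0) (.e (nat_lit 3409) (nat_lit 212) (.e (nat_lit 655375) (nat_lit 3) (.e (nat_lit 163977) (nat_lit 30) .nil)))))))) (.g (nat_lit 1) (.e (nat_lit 414395) (nat_lit 0) .nil) .nil))) 
(.lf (nat_lit 598767) (.g (nat_lit 1449) (.e (nat_lit 573487) (nat_lit 14) (.e (nat_lit 73753) (nat_lit 8) (.e (nat_lit 557091) (nat_lit 12) (.e (nat_lit 163856) (nat_lit 0) .nil)))) (.g (nat_lit 0) (.e (nat_lit 415147) (nat_lit 0) .nil) .nil)))) (.nd (nat_lit 9) 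
(.lf (nat_lit 598511) (.g (nat_lit 3590) (.e (nat_lit 573485) (nat_lit 13) (.e (nat_lit 65619) (nat_lit 10) (.e (nat_lit 344117) (nat_lit 21) (.e (nat_lit 516159) (nat_lit 10) (.e (nat_lit 434209) (nat_lit 18) (.e (nat_lit 5546) (nat_lit 306) (.e (nat_lit 2611) (nat_lit 163) (.e (nat_lit 163977) (nat_lit 30) .nil)))))))) (.g (nat_lit 1) (.e (nat_lit 414692) (nat_lit 0) .nil) .nil))) 
(.lf (nat_lit 599023) (.g (nat_lit 1554) (.e (nat_lit 573489) (nat_lit 14) (.e (nat_lit 73754) (nat_lit 8) (.e (nat_lit 557100) (nat_lit 13) (.e (nat_lit 172067) (nat_lit 3) .nil)))) (.g (nat_lit 0) (.e (nat_lit 415846) (nat_lit 0) .nil) .nil)))))))) (.nd (nat_lit 5) (.nd (nat_lit 6) (.nd (nat_lit 7) (.nd (nat_lit 8) (.nd (nat_lit 9) 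
(.lf (nat_lit 598047) (.g (nat_lit 2535) (.e (nat_lit 573484) (nat_lit 13) (.e (nat_lit 65610) (nat_lit 10) (.e (nat_lit 344117) (nat_lit 21) (.e (nat_lit 516172) (nat_lit 13) .nil)))) (.g (nat_lit 0) (.e (nat_lit 413956) (nat_lit 0) .nil) .nil))) 
(.lf (nat_lit 598559) (.g (nat_lit 1937) (.e (nat_lit 573485) (nat_lit 13) (.e (nat_lit 65619) (nat_lit 10) (.e (nat_lit 344126) (nat_lit 25) (.e (nat_lit 548874) (nat_lit 5) (.e (nat_lit 1576) (nat_lit 110) .nil))))) (.g (nat_lit 0) (.e (nat_lit 414748) (nat_lit 0) .nil) .nil)))) (.nd (nat_lit 9) 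
(.lf (nat_lit 598303) (.g (nat_lit 1022) (.e (nat_lit 573485) (nat_lit 13) (.e (nat_lit 65604) (nat_lit 9) (.e (nat_lit 336028) (nat_lit 3) (.e (nat_lit 98325) (nat_lit 17) .nil)))) (.g (nat_lit 0) (.e (nat_lit 414447) (nat_lit 0) .nil) .nil))) 
(.lf (nat_lit 598815) (.g (nat_lit 3916) (.e (nat_lit 573487) (nat_lit 14) (.e (nat_lit 73753) (nat_lit 8) (.e (nat_lit 557103) (nat_lit 14) (.e (nat_lit 180250) (nat_lit 10) (.e (nat_lit 573475) (nat_lit 12) (.e (nat_lit 57504) (nat_lit 38) (.e (nat_lit 638996) (nat_lit 7) (.e (nat_lit 163977) (nat_lit 30) .nil)))))))) (.g (nat_lit 1) (.e (nat_lit 415348) (nat_lit 0) .nil) .nil))))) 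
(.nd (nat_lit 8) (.nd (nat_lit 9) 
(.lf (nat_lit 598175) (.g (nat_lit 526) (.e (nat_lit 573485) (nat_lit 13) (.e (nat_lit 65568) (nat_lit 2) (.e (nat_lit 98048) (nat_lit 2) .nil))) (.g (nat_lit 0) (.e (nat_lit 414267) (nat_lit 0) .nil) .nil))) 
(.lf (nat_lit 598687) (.g (nat_lit 1900) (.e (nat_lit 573485) (nat_lit 13) (.e (nat_lit 65628) (nat_lit 14) (.e (nat_lit 401428) (nat_lit 3) (.e (nat_lit 204865) (nat_lit 28) (.e (nat_lit 352262) (nat_lit 0) (.e (nat_lit 3295) (nat_lit 202) .nil)))))) (.g (nat_lit 1) (.e (nat_lit 414944) (nat_lit 0) .nil) .nil)))) (.nd (nat_lit 9) 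
(.lf (nat_lit 598431) (.g (nat_lit 3875) (.e (nat_lit 573485) (nat_lit 13) (.e (nat_lit 65619) (nat_lit 10) (.e (nat_lit 344117) (nat_lit 21) (.e (nat_lit 516151) (nat_lit 9) (.e (nat_lit 426023) (nat_lit 0) (.e (nat_lit 3401) (nat_lit 211) (.e (nat_lit 647180) (nat_lit 3) (.e (nat_lit 163978) (nat_lit 30) .nil)))))))) (.g (nat_lit 1) (.e (nat_lit 414611) (nat_lit 0) .nil) .nil))) 
(.lf (nat_lit 598943) (.g (nat_lit 3444) (.e (nat_lit 573488) (nat_lit 14) (.e (nat_lit 73755) (nat_lit 8) (.e (nat_lit 557103) (nat_lit 14) (.e (nat_lit 180250) (nat_lit 10) (.e (nat_lit 573474) (nat_lit 12) (.e (nat_lit 57503) (nat_lit 38) (.e (nat_lit 638994) (nat_lit 7) (.e (nat_lit 163976) (nat_lit 30) .nil)))))))) (.g (nat_lit 1) (.e (nat_lit 415644) (nat_lit 0) .nil) .nil)))))) 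
(.nd (nat_lit 7) (.nd (nat_lit 8) (.nd (nat_lit 9) 
(.lf (nat_lit 598111) (.g (nat_lit 3721) (.e (nat_lit 573484) (nat_lit 13) (.e (nat_lit 65610) (nat_lit 10) (.e (nat_lit 344129) (nat_lit 26) (.e (nat_lit 557087) (nat_lit 11) (.e (nat_lit 24633) (nat_lit 9) (.e (nat_lit 336295) (nat_lit 15) (.e (nat_lit 3305) (nat_lit 202) .nil))))))) (.g (nat_lit 1) (.e (nat_lit 414094) (nat_lit 0) .nil) .nil))) 
(.lf (nat_lit 598623) (.g (nat_lit 3180) (.e (nat_lit 573485) (nat_lit 13) (.e (nat_lit 65619) (nat_lit 10) (.e (nat_lit 344129) (nat_lit 26) (.e (nat_lit 557087) (nat_lit 11) (.e (nat_lit 24599) (nat_lit 1) (.e (nat_lit 57772) (nat_lit 227) (.e (nat_lit 2610) (nat_lit 163) (.e (nat_lit 163978) (nat_lit 30) .nil)))))))) (.g (nat_lit 1) (.e (nat_lit 414858) (nat_lit 0) .nil) .nil)))) 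
(.nd (nat_lit 9) 
(.lf (nat_lit 598367) (.g (nat_lit 2633) (.e (nat_lit 573485) (nat_lit 13) (.e (nat_lit 65619) (nat_lit 10) (.e (nat_lit 344117) (nat_lit 21) (.e (nat_lit 516106) (nat_lit 0) (.e (nat_lit 6986) (nat_lit 377) (.e (nat_lit 2779) (nat_lit 178) (.e (nat_lit 286765) (nat_lit 15) (.e (nat_lit 3296) (nat_lit 202) .nil)))))))) (.g (nat_lit 1) (.e (nat_lit 414540) (nat_lit 0) .nil) .nil))) 
(.lf (nat_lit 598879) (.g (nat_lit 1606) (.e (nat_lit 573488) (nat_lit 14) (.e (nat_lit 73747) (nat_lit 3) (.e (nat_lit 516115) (nat_lit 1) (.e (nat_lit 171776) (nat_lit 160) .nil)))) (.g (nat_lit 0) (.e (nat_lit 415501) (nat_lit 0) .nil) .nil))))) (.nd (nat_lit 8) (.nd (nat_lit 9) 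
(.lf (nat_lit 598239) (.g (nat_lit 3342) (.e (nat_lit 573485) (nat_lit 13) (.e (nat_lit 65604) (nat_lit 9) (.e (nat_lit 336013) (nat_lit 2) (.e (nat_lit 90170) (nat_lit 13) (.e (nat_lit 172048) (nat_lit 0) .nil))))) (.g (nat_lit 0) (.e (nat_lit 414378) (nat_lit 0) .nil) .nil))) 
(.lf (nat_lit 598751) (.g (nat_lit 2242) (.e (nat_lit 573487) (nat_lit 14) (.e (nat_lit 73753) (nat_lit 8) (.e (nat_lit 557090) (nat_lit 12) (.e (nat_lit 163844) (nat_lit 0) (.e (nat_lit 5940) (nat_lit 322) .nil))))) (.g (nat_lit 0) (.e (nat_lit 415108) (nat_lit 0) .nil) .nil)))) (.nd (nat_lit 9) 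
(.lf (nat_lit 598495) (.g (nat_lit 3597) (.e (nat_lit 573485) (nat_lit 13) (.e (nat_lit 65619) (nat_lit 10) (.e (nat_lit 344117) (nat_lit 21) (.e (nat_lit 516151) (nat_lit 9) (.e (nat_lit 426146) (nat_lit 4) .nil))))) (.g (nat_lit 0) (.e (nat_lit 414676) (nat_lit 0) .nil) .nil))) 
(.lf (nat_lit 599007) (.g (nat_lit 3111) (.e (nat_lit 573489) (nat_lit 14) (.e (nat_lit 73753) (nat_lit 8) (.e (nat_lit 557103) (nat_lit 14) (.e (nat_lit 180243) (nat_lit 5) (.e (nat_lit 532484) (nat_lit 0) .nil))))) (.g (nat_lit 0) (.e (nat_lit 415811) (nat_lit 0) .nil) .nil))))))) (.nd (nat_lit 6) (.nd (nat_lit 7) (.nd (nat_lit 8) (.nd (nat_lit 9) 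
(.lf (nat_lit 598079) (.g (nat_lit 2145) (.e (nat_lit 573484) (nat_lit 13) (.e (nat_lit 65610) (nat_lit 10) (.e (nat_lit 344117) (nat_lit 21) (.e (nat_lit 516185) (nat_lit 16) (.e (nat_lit 491564) (nat_lit 12) .nil))))) (.g (nat_lit 0) (.e (nat_lit 414004) (nat_lit 0) .nil) .nil))) 
(.lf (nat_lit 598591) (.g (nat_lit 2814) (.e (nat_lit 573485) (nat_lit 13) (.e (nat_lit 65619) (nat_lit 10) (.e (nat_lit 344129) (nat_lit 26) (.e (nat_lit 557067) (nat_lit 9) (.e (nat_lit 290) (nat_lit 21) .nil))))) (.g (nat_lit 0) (.e (nat_lit 414802) (nat_lit 0) .nil) .nil)))) (.nd (nat_lit 9) 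
(.lf (nat_lit 598335) (.g (nat_lit 1098) (.e (nat_lit 573485) (nat_lit 13) (.e (nat_lit 65604) (nat_lit 9) (.e (nat_lit 336028) (nat_lit 3) (.e (nat_lit 98387) (nat_lit 33) .nil)))) (.g (nat_lit 0) (.e (nat_lit 414495) (nat_lit 0) .nil) .nil))) 
(.lf (nat_lit 598847) (.g (nat_lit 775) (.e (nat_lit 573487) (nat_lit 14) (.e (nat_lit 73755) (nat_lit 8) (.e (nat_lit 557090) (nat_lit 12) .nil))) (.g (nat_lit 0) (.e (nat_lit 415400) (nat_lit 0) .nil) .nil))))) (.nd (nat_lit 8) (.nd (nat_lit 9) 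
(.lf (nat_lit 598207) (.g (nat_lit 2994) (.e (nat_lit 573485) (nat_lit 13) (.e (nat_lit 65604) (nat_lit 9) (.e (nat_lit 336013) (nat_lit 2) (.e (nat_lit 90170) (nat_lit 13) (.e (nat_lit 172034) (nat_lit 0) (.e (nat_lit 3396) (nat_lit 211) (.e (nat_lit 647180) (nat_lit 3) (.e (nat_lit 163978) (nat_lit 30) .nil)))))))) (.g (nat_lit 1) (.e (nat_lit 414340) (nat_lit 0) .nil) .nil))) 
(.lf (nat_lit 598719) (.g (nat_lit 2319) (.e (nat_lit 573486) (nat_lit 14) (.e (nat_lit 73753) (nat_lit 8) (.e (nat_lit 557100) (nat_lit 13) (.e (nat_lit 172064) (nat_lit 2) (.e (nat_lit 204544) (nat_lit 2) .nil))))) (.g (nat_lit 0) (.e (nat_lit 414986) (nat_lit 0) .nil) .nil)))) (.nd (nat_lit 9) 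
(.lf (nat_lit 598463) (.g (nat_lit 3187) (.e (nat_lit 573485) (nat_lit 13) (.e (nat_lit 65619) (nat_lit 10) (.e (nat_lit 344117) (nat_lit 21) (.e (nat_lit 516151) (nat_lit 9) (.e (nat_lit 426042) (nat_lit 0) (.e (nat_lit 2458) (nat_lit 157) (.e (nat_lit 5548) (nat_lit 306) (.e (nat_lit 2601) (nat_lit 163) (.e (nat_lit 163977) (nat_lit 30) .nil))))))))) (.g (nat_lit 1) (.e (nat_lit 414644) (nat_lit 0) .nil) .nil))) 
(.lf (nat_lit 598975) (.g (nat_lit 1568) (.e (nat_lit 573488) (nat_lit 14) (.e (nat_lit 73755) (nat_lit 8) (.e (nat_lit 557105) (nat_lit 14) (.e (nat_lit 180252) (nat_lit 10) (.e (nat_lit 573474) (nat_lit 12) .nil))))) (.g (nat_lit 0) (.e (nat_lit 415703) (nat_lit 0) .nil) .nil)))))) (.nd (nat_lit 7) (.nd (nat_lit 8) (.nd (nat_lit 9) 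
(.lf (nat_lit 598143) (.g (nat_lit 1857) (.e (nat_lit 573484) (nat_lit 13) (.e (nat_lit 65617) (nat_lit 10) (.e (nat_lit 344133) (nat_lit 26) (.e (nat_lit 557074) (nat_lit 9) .nil)))) (.g (nat_lit 0) (.e (nat_lit 414185) (nat_lit 0) .nil) .nil))) 
(.lf (nat_lit 598655) (.g (nat_lit 3732) (.e (nat_lit 573485) (nat_lit 13) (.e (nat_lit 65619) (nat_lit 10) (.e (nat_lit 344129) (nat_lit 26) (.e (nat_lit 557090) (nat_lit 12) (.e (nat_lit 163847) (nat_lit 0) .nil))))) (.g (nat_lit 0) (.e (nat_lit 414892) (nat_lit 0) .nil) .nil)))) (.nd (nat_lit 9) 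
(.lf (nat_lit 598399) (.g (nat_lit 3251) (.e (nat_lit 573485) (nat_lit 13) (.e (nat_lit 65619) (nat_lit 10) (.e (nat_lit 344117) (nat_lit 21) (.e (nat_lit 516145) (nat_lit 9) (.e (nat_lit 426360) (nat_lit 15) .nil))))) (.g (nat_lit 0) (.e (nat_lit 414579) (nat_lit 0) .nil) .nil))) 
(.lf (nat_lit 598911) (.g (nat_lit 2720) (.e (nat_lit 573488) (nat_lit 14) (.e (nat_lit 73754) (nat_lit 8) (.e (nat_lit 557105) (nat_lit 14) (.e (nat_lit 180252) (nat_lit 10) (.e (nat_lit 573475) (nat_lit 12) (.e (nat_lit 57504) (nat_lit 38) (.e (nat_lit 638994) (nat_lit 7) (.e (nat_lit 163975) (nat_lit 30) .nil)))))))) (.g (nat_lit 1) (.e (nat_lit 415547) (nat_lit 0) .nil) .nil))))) 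
(.nd (nat_lit 8) (.nd (nat_lit 9) 
(.lf (nat_lit 598271) (.g (nat_lit 2570) (.e (nat_lit 573485) (nat_lit 13) (.e (nat_lit 65604) (nat_lit 9) (.e (nat_lit 336013) (nat_lit 2) (.e (nat_lit 90170) (nat_lit 13) (.e (nat_lit 172068) (nat_lit 4) (.e (nat_lit 229664) (nat_lit 240) (.e (nat_lit 2598) (nat_lit 163) (.e (nat_lit 163978) (nat_lit 30) .nil)))))))) (.g (nat_lit 1) (.e (nat_lit 414413) (nat_lit 0) .nil) .nil))) 
(.lf (nat_lit 598783) (.g (nat_lit 2155) (.e (nat_lit 573487) (nat_lit 14) (.e (nat_lit 73753) (nat_lit 8) (.e (nat_lit 557098) (nat_lit 13) (.e (nat_lit 172133) (nat_lit 15) (.e (nat_lit 1800) (nat_lit 119) .nil))))) (.g (nat_lit 0) (.e (nat_lit 415208) (nat_lit 0) .nil) .nil)))) (.nd (nat_lit 9) 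
(.lf (nat_lit 598527) (.g (nat_lit 2056) (.e (nat_lit 573485) (nat_lit 13) (.e (nat_lit 65619) (nat_lit 10) (.e (nat_lit 344117) (nat_lit 21) (.e (nat_lit 516160) (nat_lit 10) (.e (nat_lit 442112) (nat_lit 37) .nil))))) (.g (nat_lit 0) (.e (nat_lit 414708) (nat_lit 0) .nil) .nil))) 
(.lf (nat_lit 599039) (.g (nat_lit 1493) (.e (nat_lit 573489) (nat_lit 14) (.e (nat_lit 73754) (nat_lit 8) (.e (nat_lit 557105) (nat_lit 14) (.e (nat_lit 180245) (nat_lit 5) .nil)))) (.g (nat_lit 0) (.e (nat_lit 415887) (nat_lit 0) .nil) .nil)))))))))))))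


end

end Pool.Agent.Lib.MP_5854e1_co.Cz
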