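import Pool.Agent.Lib.MP_5854e1_co.DtD

/-!
# Windows and cells of the rings
-/

set_option autoImplicit false
set_option maxRecDepth 100000
set_option deprecated.oldSectionVars true

namespace Pool.Agent.Lib.MP_5854e1_co.Cz

open Pool.Agent.Lib.MP_5854e1_co

noncomputable section

noncomputable def tv5645 : DT := (.nd (nat_lit 0) (.nd (nat_lit 1) (.nd (nat_lit 2) (.nd (nat_lit 3) (.nd (nat_lit 4) (.nd (nat_lit 5) (.nd (nat_lit 6) (.nd (nat_lit 7) (.nd (nat_lit 8) (.nd (nat_lit 9) 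
(.lf (nat_lit 599040) (.g (nat_lit 2089) (.e (nat_lit 573489) (nat_lit 14) (.e (nat_lit 73754) (nat_lit 8) (.e (nat_lit 557105) (nat_lit 14) (.e (nat_lit 180251) (nat_lit 10) (.e (nat_lit 573475) (nat_lit 12) .nil))))) (.g (nat_lit 0) (.e (nat_lit 415890) (nat_lit 0) .nil) .nil))) 
(.lf (nat_lit 599552) (.g (nat_lit 1991) (.e (nat_lit 573492) (nat_lit 15) (.e (nat_lit 81951) (nat_lit 22) (.e (nat_lit 90170) (nat_lit 13) (.e (nat_lit 172046) (nat_lit 0) .nil)))) (.g (nat_lit 0) (.e (nat_lit 417352) (nat_lit 0) .nil) .nil)))) (.nd (nat_lit 9) 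
(.lf (nat_lit 599296) (.g (nat_lit 2099) (.e (nat_lit 573491) (nat_lit 15) (.e (nat_lit 81946) (nat_lit 20) (.e (nat_lit 1858) (nat_lit 124) (.e (nat_lit 557065) (nat_lit 9) (.e (nat_lit 291) (nat_lit 21) .nil))))) (.g (nat_lit 0) (.e (nat_lit 416828) (nat_lit 0) .nil) .nil))) 
(.lf (nat_lit 599808) (.g (nat_lit 1794) (.e (nat_lit 557058) (nat_lit 0) (.e (nat_lit 1454) (nat_lit 108) (.e (nat_lit 336295) (nat_lit 15) (.e (nat_lit 7936) (nat_lit 195) .nil)))) (.g (nat_lit 0) (.e (nat_lit 418160) (nat_lit 0) .nil) .nil))))) (.nd (nat_lit 8) (.nd (nat_lit 9) 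
(.lf (nat_lit 599168) (.g (nat_lit 3633) (.e (nat_lit 573489) (nat_lit 14) (.e (nat_lit 73755) (nat_lit 8) (.e (nat_lit 557104) (nat_lit 14) (.e (nat_lit 180250) (nat_lit 10) (.e (nat_lit 573473) (nat_lit 12) (.e (nat_lit 57504) (nat_lit 38) (.e (nat_lit 638996) (nat_lit 7) (.e (nat_lit 163979) (nat_lit 30) .nil)))))))) (.g (nat_lit 1) (.e (nat_lit 416360) (nat_lit 0) .nil) .nil))) 
(.lf (nat_lit 599680) (.g (nat_lit 820) (.e (nat_lit 573493) (nat_lit 15) (.e (nat_lit 81953) (nat_lit 22) (.e (nat_lit 90189) (nat_lit 18) .nil))) (.g (nat_lit 0) (.e (nat_lit 417689) (nat_lit 0) .nil) .nil)))) (.nd (nat_lit 9) 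
(.lf (nat_lit 599424) (.g (nat_lit 2326) (.e (nat_lit 573491) (nat_lit 15) (.e (nat_lit 81954) (nat_lit 23) (.e (nat_lit 98362) (nat_lit 26) (.e (nat_lit 426412) (nat_lit 15) (.e (nat_lit 2058) (nat_lit 142) (.e (nat_lit 704589) (nat_lit 3) (.e (nat_lit 163976) (nat_lit 30) .nil))))))) (.g (nat_lit 1) (.e (nat_lit 417122) (nat_lit 0) .nil) .nil))) 
(.lf (nat_lit 599936) (.g (nat_lit 1934) (.e (nat_lit 557070) (nat_lit 9) (.e (nat_lit 2744) (nat_lit 174) (.e (nat_lit 253992) (nat_lit 11) (.e (nat_lit 16412) (nat_lit 2) (.e (nat_lit 196673) (nat_lit 15) .nil))))) (.g (nat_lit 0) (.e (nat_lit 418552) (nat_lit 0) .nil) .nil)))))) (.nd (nat_lit 7) (.nd (nat_lit 8) (.nd (nat_lit 9) 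
(.lf (nat_lit 599104) (.g (nat_lit 4078) (.e (nat_lit 573489) (nat_lit 14) (.e (nat_lit 73755) (nat_lit 8) (.e (nat_lit 557098) (nat_lit 13) (.e (nat_lit 172067) (nat_lit 3) (.e (nat_lit 204815) (nat_lit 17) (.e (nat_lit 2271) (nat_lit 149) (.e (nat_lit 761897) (nat_lit 15) (.e (nat_lit 163979) (nat_lit 30) .nil)))))))) (.g (nat_lit 1) (.e (nat_lit 416098) (nat_lit 0) .nil) .nil))) 
(.lf (nat_lit 599616) (.g (nat_lit 4241) (.e (nat_lit 573492) (nat_lit 15) (.e (nat_lit 81956) (nat_lit 23) (.e (nat_lit 98368) (nat_lit 27) (.e (nat_lit 434271) (nat_lit 38) (.e (nat_lit 655375) (nat_lit 3) (.e (nat_lit 163979) (nat_lit 30) .nil)))))) (.g (nat_lit 1) (.e (nat_lit 417571) (nat_lit 0) .nil) .nil)))) (.nd (nat_lit 9) 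
(.lf (nat_lit 599360) (.g (nat_lit 1820) (.e (nat_lit 573491) (nat_lit 15) (.e (nat_lit 81953) (nat_lit 22) (.e (nat_lit 90170) (nat_lit 13) (.e (nat_lit 172061) (nat_lit 1) .nil)))) (.g (nat_lit 0) (.e (nat_lit 416982) (nat_lit 0) .nil) .nil))) 
(.lf (nat_lit 599872) (.g (nat_lit 1538) (.e (nat_lit 557065) (nat_lit 9) (.e (nat_lit 3044) (nat_lit 189) (.e (nat_lit 466981) (nat_lit 23) (.e (nat_lit 204880) (nat_lit 32) (.e (nat_lit 385096) (nat_lit 49) (.e (nat_lit 778580) (nat_lit 17) (.e (nat_lit 171776) (nat_lit 89) .nil))))))) (.g (nat_lit 1) (.e (nat_lit 418325) (nat_lit 0) .nil) .nil))))) (.nd (nat_lit 8) (.nd (nat_lit 9) 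
(.lf (nat_lit 599232) (.g (nat_lit 1805) (.e (nat_lit 573489) (nat_lit 14) (.e (nat_lit 73755) (nat_lit 8) (.e (nat_lit 557105) (nat_lit 14) (.e (nat_lit 180252) (nat_lit 10) (.e (nat_lit 573475) (nat_lit 12) .nil))))) (.g (nat_lit 0) (.e (nat_lit 416608) (nat_lit 0) .nil) .nil))) 
(.lf (nat_lit 599744) (.g (nat_lit 2919) (.e (nat_lit 573503) (nat_lit 18) (.e (nat_lit 1348) (nat_lit 102) (.e (nat_lit 286761) (nat_lit 13) (.e (nat_lit 393251) (nat_lit 18) (.e (nat_lit 164145) (nat_lit 146) .nil))))) (.g (nat_lit 0) (.e (nat_lit 417837) (nat_lit 0) .nil) .nil)))) (.nd (nat_lit 9) 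
(.lf (nat_lit 599488) (.g (nat_lit 2228) (.e (nat_lit 573491) (nat_lit 15) (.e (nat_lit 81954) (nat_lit 23) (.e (nat_lit 98387) (nat_lit 33) (.e (nat_lit 491550) (nat_lit 9) (.e (nat_lit 336306) (nat_lit 15) (.e (nat_lit 3298) (nat_lit 202) .nil)))))) (.g (nat_lit 1) (.e (nat_lit 417239) (nat_lit 0) .nil) .nil))) 
(.lf (nat_lit 600000) (.g (nat_lit 537) (.e (nat_lit 557087) (nat_lit 11) (.e (nat_lit 24640) (nat_lit 10) (.e (nat_lit 344107) (nat_lit 19) .nil))) (.g (nat_lit 0) (.e (nat_lit 418685) (nat_lit 0) .nil) .nil))))))) (.nd (nat_lit 6) (.nd (nat_lit 7) (.nd (nat_lit 8) (.nd (nat_lit 9) 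
(.lf (nat_lit 599072) (.g (nat_lit 2838) (.e (nat_lit 573489) (nat_lit 14) (.e (nat_lit 73755) (nat_lit 8) (.e (nat_lit 557091) (nat_lit 12) (.e (nat_lit 163843) (nat_lit 0) (.e (nat_lit 5941) (nat_lit 322) .nil))))) (.g (nat_lit 0) (.e (nat_lit 415999) (nat_lit 0) .nil) .nil))) 
(.lf (nat_lit 599584) (.g (nat_lit 2439) (.e (nat_lit 573492) (nat_lit 15) (.e (nat_lit 81954) (nat_lit 23) (.e (nat_lit 98386) (nat_lit 32) (.e (nat_lit 475210) (nat_lit 41) (.e (nat_lit 712722) (nat_lit 15) .nil))))) (.g (nat_lit 0) (.e (nat_lit 417449) (nat_lit 0) .nil) .nil)))) (.nd (nat_lit 9) 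
(.lf (nat_lit 599328) (.g (nat_lit 3760) (.e (nat_lit 573491) (nat_lit 15) (.e (nat_lit 81951) (nat_lit 22) (.e (nat_lit 90170) (nat_lit 13) (.e (nat_lit 172042) (nat_lit 0) (.e (nat_lit 3406) (nat_lit 212) (.e (nat_lit 655375) (nat_lit 3) (.e (nat_lit 163977) (nat_lit 30) .nil))))))) (.g (nat_lit 1) (.e (nat_lit 416906) (nat_lit 0) .nil) .nil))) 
(.lf (nat_lit 599840) (.g (nat_lit 3333) (.e (nat_lit 557065) (nat_lit 9) (.e (nat_lit 2690) (nat_lit 169) (.e (nat_lit 213032) (nat_lit 11) (.e (nat_lit 24604) (nat_lit 2) (.e (nat_lit 90176) (nat_lit 15) (.e (nat_lit 188430) (nat_lit 20) (.e (nat_lit 7936) (nat_lit 200) .nil))))))) (.g (nat_lit 1) (.e (nat_lit 418248) (nat_lit 0) .nil) .nil))))) (.nd (nat_lit 8) (.nd (nat_lit 9) 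
(.lf (nat_lit 599200) (.g (nat_lit 1801) (.e (nat_lit 573489) (nat_lit 14) (.e (nat_lit 73755) (nat_lit 8) (.e (nat_lit 557105) (nat_lit 14) (.e (nat_lit 180250) (nat_lit 10) .nil)))) (.g (nat_lit 0) (.e (nat_lit 416458) (nat_lit 0) .nil) .nil))) 
(.lf (nat_lit 599712) (.g (nat_lit 3318) (.e (nat_lit 573493) (nat_lit 15) (.e (nat_lit 81956) (nat_lit 23) (.e (nat_lit 98367) (nat_lit 27) (.e (nat_lit 434272) (nat_lit 38) (.e (nat_lit 655367) (nat_lit 0) (.e (nat_lit 2515) (nat_lit 157) (.e (nat_lit 3304) (nat_lit 202) .nil))))))) (.g (nat_lit 1) (.e (nat_lit 417764) (nat_lit 0) .nil) .nil)))) (.nd (nat_lit 9) 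
(.lf (nat_lit 599456) (.g (nat_lit 3498) (.e (nat_lit 573491) (nat_lit 15) (.e (nat_lit 81954) (nat_lit 23) (.e (nat_lit 98384) (nat_lit 32) (.e (nat_lit 475199) (nat_lit 40) (.e (nat_lit 704589) (nat_lit 3) (.e (nat_lit 163976) (nat_lit 30) .nil)))))) (.g (nat_lit 1) (.e (nat_lit 417206) (nat_lit 0) .nil) .nil))) 
(.lf (nat_lit 599968) (.g (nat_lit 2775) (.e (nat_lit 557085) (nat_lit 11) (.e (nat_lit 24662) (nat_lit 14) (.e (nat_lit 401412) (nat_lit 0) (.e (nat_lit 3262) (nat_lit 198) .nil)))) (.g (nat_lit 0) (.e (nat_lit 418639) (nat_lit 0) .nil) .nil)))))) (.nd (nat_lit 7) (.nd (nat_lit 8) (.nd (nat_lit 9) 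
(.lf (nat_lit 599136) (.g (nat_lit 2925) (.e (nat_lit 573489) (nat_lit 14) (.e (nat_lit 73755) (nat_lit 8) (.e (nat_lit 557103) (nat_lit 14) (.e (nat_lit 180244) (nat_lit 5) (.e (nat_lit 532485) (nat_lit 0) (.e (nat_lit 2272) (nat_lit 149) (.e (nat_lit 761899) (nat_lit 15) (.e (nat_lit 163978) (nat_lit 30) .nil)))))))) (.g (nat_lit 1) (.e (nat_lit 416181) (nat_lit 0) .nil) .nil))) 
(.lf (nat_lit 599648) (.g (nat_lit 3794) (.e (nat_lit 573493) (nat_lit 15) (.e (nat_lit 81951) (nat_lit 22) (.e (nat_lit 90134) (nat_lit 9) (.e (nat_lit 3098) (nat_lit 192) (.e (nat_lit 491566) (nat_lit 12) (.e (nat_lit 392960) (nat_lit 31) .nil)))))) (.g (nat_lit 1) (.e (nat_lit 417645) (nat_lit 0) .nil) .nil)))) (.nd (nat_lit 9) 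
(.lf (nat_lit 599392) (.g (nat_lit 1549) (.e (nat_lit 573491) (nat_lit 15) (.e (nat_lit 81954) (nat_lit 23) (.e (nat_lit 98356) (nat_lit 26) (.e (nat_lit 426360) (nat_lit 15) .nil)))) (.g (nat_lit 0) (.e (nat_lit 417060) (nat_lit 0) .nil) .nil))) 
(.lf (nat_lit 599904) (.g (nat_lit 377) (.e (nat_lit 557068) (nat_lit 9) (.e (nat_lit 214) (nat_lit 19) (.e (nat_lit 319491) (nat_lit 0) .nil))) (.g (nat_lit 0) (.e (nat_lit 418491) (nat_lit 0) .nil) .nil))))) (.nd (nat_lit 8) (.nd (nat_lit 9) 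
(.lf (nat_lit 599264) (.g (nat_lit 1701) (.e (nat_lit 573490) (nat_lit 15) (.e (nat_lit 81953) (nat_lit 22) (.e (nat_lit 90170) (nat_lit 13) (.e (nat_lit 172059) (nat_lit 1) .nil)))) (.g (nat_lit 0) (.e (nat_lit 416705) (nat_lit 0) .nil) .nil))) 
(.lf (nat_lit 599776) (.g (nat_lit 448) (.e (nat_lit 581651) (nat_lit 4) (.e (nat_lit 172094) (nat_lit 9) (.e (nat_lit 433920) (nat_lit 33) .nil))) (.g (nat_lit 0) (.e (nat_lit 417952) (nat_lit 0) .nil) .nil)))) (.nd (nat_lit 9) 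
(.lf (nat_lit 599520) (.g (nat_lit 2118) (.e (nat_lit 573491) (nat_lit 15) (.e (nat_lit 81956) (nat_lit 23) (.e (nat_lit 98356) (nat_lit 26) (.e (nat_lit 426444) (nat_lit 19) (.e (nat_lit 114432) (nat_lit 3) .nil))))) (.g (nat_lit 0) (.e (nat_lit 417273) (nat_lit 0) .nil) .nil))) 
(.lf (nat_lit 600032) (.g (nat_lit 4094) (.e (nat_lit 557089) (nat_lit 12) (.e (nat_lit 163849) (nat_lit 0) (.e (nat_lit 6254) (nat_lit 337) (.e (nat_lit 2630) (nat_lit 164) (.e (nat_lit 172062) (nat_lit 2) (.e (nat_lit 196666) (nat_lit 13) (.e (nat_lit 65617) (nat_lit 10) (.e (nat_lit 344130) (nat_lit 26) .nil)))))))) (.g (nat_lit 1) (.e (nat_lit 418738) (nat_lit 0) .nil) .nil)))))))) 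
(.nd (nat_lit 5) (.nd (nat_lit 6) (.nd (nat_lit 7) (.nd (nat_lit 8) (.nd (nat_lit 9) 
(.lf (nat_lit 599056) (.g (nat_lit 2356) (.e (nat_lit 573489) (nat_lit 14) (.e (nat_lit 73755) (nat_lit 8) (.e (nat_lit 557090) (nat_lit 12) (.e (nat_lit 163850) (nat_lit 0) (.e (nat_lit 5950) (nat_lit 322) .nil))))) (.g (nat_lit 0) (.e (nat_lit 415981) (nat_lit 0) .nil) .nil))) 
(.lf (nat_lit 599568) (.g (nat_lit 2008) (.e (nat_lit 573492) (nat_lit 15) (.e (nat_lit 81954) (nat_lit 23) (.e (nat_lit 98356) (nat_lit 26) (.e (nat_lit 426354) (nat_lit 15) .nil)))) (.g (nat_lit 0) (.e (nat_lit 417433) (nat_lit 0) .nil) .nil)))) (.nd (nat_lit 9) 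
(.lf (nat_lit 599312) (.g (nat_lit 4140) (.e (nat_lit 573491) (nat_lit 15) (.e (nat_lit 81951) (nat_lit 22) (.e (nat_lit 90134) (nat_lit 9) (.e (nat_lit 3098) (nat_lit 192) (.e (nat_lit 491566) (nat_lit 12) (.e (nat_lit 385072) (nat_lit 31) .nil)))))) (.g (nat_lit 1) (.e (nat_lit 416866) (nat_lit 0) .nil) .nil))) 
(.lf (nat_lit 599824) (.g (nat_lit 405) (.e (nat_lit 564992) (nat_lit 6) (.e (nat_lit 81935) (nat_lit 20) (.e (nat_lit 2395) (nat_lit 156) .nil))) (.g (nat_lit 0) (.e (nat_lit 418210) (nat_lit 0) .nil) .nil))))) (.nd (nat_lit 8) (.nd (nat_lit 9) 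
(.lf (nat_lit 599184) (.g (nat_lit 4186) (.e (nat_lit 573489) (nat_lit 14) (.e (nat_lit 73755) (nat_lit 8) (.e (nat_lit 557104) (nat_lit 14) (.e (nat_lit 180252) (nat_lit 10) (.e (nat_lit 573475) (nat_lit 12) (.e (nat_lit 57504) (nat_lit 38) (.e (nat_lit 638995) (nat_lit 7) (.e (nat_lit 163977) (nat_lit 30) .nil)))))))) (.g (nat_lit 1) (.e (nat_lit 416377) (nat_lit 0) .nil) .nil))) 
(.lf (nat_lit 599696) (.g (nat_lit 859) (.e (nat_lit 573493) (nat_lit 15) (.e (nat_lit 81956) (nat_lit 23) (.e (nat_lit 98329) (nat_lit 17) .nil))) (.g (nat_lit 0) (.e (nat_lit 417718) (nat_lit 0) .nil) .nil)))) (.nd (nat_lit 9) 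
(.lf (nat_lit 599440) (.g (nat_lit 1791) (.e (nat_lit 573491) (nat_lit 15) (.e (nat_lit 81954) (nat_lit 23) (.e (nat_lit 98367) (nat_lit 27) (.e (nat_lit 434213) (nat_lit 18) .nil)))) (.g (nat_lit 0) (.e (nat_lit 417171) (nat_lit 0) .nil) .nil))) 
(.lf (nat_lit 599952) (.g (nat_lit 2915) (.e (nat_lit 557072) (nat_lit 9) (.e (nat_lit 3098) (nat_lit 192) (.e (nat_lit 491571) (nat_lit 13) (.e (nat_lit 393251) (nat_lit 18) (.e (nat_lit 164185) (nat_lit 155) (.e (nat_lit 122911) (nat_lit 13) (.e (nat_lit 344132) (nat_lit 26) .nil))))))) (.g (nat_lit 1) (.e (nat_lit 418600) (nat_lit 0) .nil) .nil)))))) 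
(.nd (nat_lit 7) (.nd (nat_lit 8) (.nd (nat_lit 9) 
(.lf (nat_lit 599120) (.g (nat_lit 487) (.e (nat_lit 573489) (nat_lit 14) (.e (nat_lit 73755) (nat_lit 8) (.e (nat_lit 557100) (nat_lit 13) .nil))) (.g (nat_lit 0) (.e (nat_lit 416147) (nat_lit 0) .nil) .nil))) 
(.lf (nat_lit 599632) (.g (nat_lit 4433) (.e (nat_lit 573492) (nat_lit 15) (.e (nat_lit 81956) (nat_lit 23) (.e (nat_lit 98386) (nat_lit 32) (.e (nat_lit 475196) (nat_lit 40) (.e (nat_lit 704590) (nat_lit 3) (.e (nat_lit 163975) (nat_lit 30) .nil)))))) (.g (nat_lit 1) (.e (nat_lit 417595) (nat_lit 0) .nil) .nil)))) (.nd (nat_lit 9) 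
(.lf (nat_lit 599376) (.g (nat_lit 3060) (.e (nat_lit 573491) (nat_lit 15) (.e (nat_lit 81954) (nat_lit 23) (.e (nat_lit 98325) (nat_lit 17) (.e (nat_lit 6986) (nat_lit 377) (.e (nat_lit 2779) (nat_lit 178) (.e (nat_lit 286765) (nat_lit 15) (.e (nat_lit 3308) (nat_lit 202) .nil))))))) (.g (nat_lit 1) (.e (nat_lit 417002) (nat_lit 0) .nil) .nil))) 
(.lf (nat_lit 599888) (.g (nat_lit 1158) (.e (nat_lit 557067) (nat_lit 9) (.e (nat_lit 3022) (nat_lit 187) (.e (nat_lit 450580) (nat_lit 5) (.e (nat_lit 532530) (nat_lit 9) .nil)))) (.g (nat_lit 0) (.e (nat_lit 418418) (nat_lit 0) .nil) .nil))))) (.nd (nat_lit 8) (.nd (nat_lit 9) 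
(.lf (nat_lit 599248) (.g (nat_lit 2559) (.e (nat_lit 573489) (nat_lit 14) (.e (nat_lit 73755) (nat_lit 8) (.e (nat_lit 557105) (nat_lit 14) (.e (nat_lit 180252) (nat_lit 10) (.e (nat_lit 573478) (nat_lit 12) (.e (nat_lit 57502) (nat_lit 38) (.e (nat_lit 638994) (nat_lit 7) (.e (nat_lit 163978) (nat_lit 30) .nil)))))))) (.g (nat_lit 1) (.e (nat_lit 416627) (nat_lit 0) .nil) .nil))) 
(.lf (nat_lit 599760) (.g (nat_lit 1490) (.e (nat_lit 581636) (nat_lit 0) (.e (nat_lit 3015) (nat_lit 187) (.e (nat_lit 450563) (nat_lit 0) (.e (nat_lit 6835) (nat_lit 368) .nil)))) (.g (nat_lit 0) (.e (nat_lit 417898) (nat_lit 0) .nil) .nil)))) (.nd (nat_lit 9) 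
(.lf (nat_lit 599504) (.g (nat_lit 2321) (.e (nat_lit 573491) (nat_lit 15) (.e (nat_lit 81955) (nat_lit 23) (.e (nat_lit 98367) (nat_lit 27) (.e (nat_lit 434272) (nat_lit 38) (.e (nat_lit 655373) (nat_lit 3) .nil))))) (.g (nat_lit 0) (.e (nat_lit 417256) (nat_lit 0) .nil) .nil))) 
(.lf (nat_lit 600016) (.g (nat_lit 1882) (.e (nat_lit 557089) (nat_lit 12) (.e (nat_lit 163843) (nat_lit 0) (.e (nat_lit 6420) (nat_lit 341) (.e (nat_lit 163843) (nat_lit 0) (.e (nat_lit 7936) (nat_lit 388) .nil))))) (.g (nat_lit 0) (.e (nat_lit 418706) (nat_lit 0) .nil) .nil))))))) (.nd (nat_lit 6) (.nd (nat_lit 7) (.nd (nat_lit 8) (.nd (nat_lit 9) 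
(.lf (nat_lit 599088) (.g (nat_lit 362) (.e (nat_lit 573489) (nat_lit 14) (.e (nat_lit 73755) (nat_lit 8) (.e (nat_lit 557097) (nat_lit 13) .nil))) (.g (nat_lit 0) (.e (nat_lit 416037) (nat_lit 0) .nil) .nil))) 
(.lf (nat_lit 599600) (.g (nat_lit 3916) (.e (nat_lit 573492) (nat_lit 15) (.e (nat_lit 81956) (nat_lit 23) (.e (nat_lit 98360) (nat_lit 26) (.e (nat_lit 426047) (nat_lit 0) (.e (nat_lit 3408) (nat_lit 212) (.e (nat_lit 655375) (nat_lit 3) (.e (nat_lit 163979) (nat_lit 30) .nil))))))) (.g (nat_lit 1) (.e (nat_lit 417520) (nat_lit 0) .nil) .nil)))) (.nd (nat_lit 9) 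
(.lf (nat_lit 599344) (.g (nat_lit 2428) (.e (nat_lit 573491) (nat_lit 15) (.e (nat_lit 81951) (nat_lit 22) (.e (nat_lit 90170) (nat_lit 13) (.e (nat_lit 172051) (nat_lit 0) .nil)))) (.g (nat_lit 0) (.e (nat_lit 416929) (nat_lit 0) .nil) .nil))) 
(.lf (nat_lit 599856) (.g (nat_lit 2441) (.e (nat_lit 557065) (nat_lit 9) (.e (nat_lit 3044) (nat_lit 189) (.e (nat_lit 466977) (nat_lit 22) (.e (nat_lit 196681) (nat_lit 17) (.e (nat_lit 131086) (nat_lit 1) (.e (nat_lit 57929) (nat_lit 282) (.e (nat_lit 163850) (nat_lit 0) (.e (nat_lit 7936) (nat_lit 200) .nil)))))))) (.g (nat_lit 1) (.e (nat_lit 418300) (nat_lit 0) .nil) .nil))))) 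
(.nd (nat_lit 8) (.nd (nat_lit 9) 
(.lf (nat_lit 599216) (.g (nat_lit 3844) (.e (nat_lit 573489) (nat_lit 14) (.e (nat_lit 73755) (nat_lit 8) (.e (nat_lit 557105) (nat_lit 14) (.e (nat_lit 180252) (nat_lit 10) (.e (nat_lit 573473) (nat_lit 12) (.e (nat_lit 57504) (nat_lit 38) (.e (nat_lit 638985) (nat_lit 5) (.e (nat_lit 2472) (nat_lit 157) (.e (nat_lit 3307) (nat_lit 202) .nil))))))))) (.g (nat_lit 1) (.e (nat_lit 416540) (nat_lit 0) .nil) .nil))) 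
(.lf (nat_lit 599728) (.g (nat_lit 745) (.e (nat_lit 573502) (nat_lit 18) (.e (nat_lit 1348) (nat_lit 102) (.e (nat_lit 286743) (nat_lit 9) .nil))) (.g (nat_lit 0) (.e (nat_lit 417814) (nat_lit 0) .nil) .nil)))) (.nd (nat_lit 9) 
(.lf (nat_lit 599472) (.g (nat_lit 3343) (.e (nat_lit 573491) (nat_lit 15) (.e (nat_lit 81954) (nat_lit 23) (.e (nat_lit 98384) (nat_lit 32) (.e (nat_lit 475211) (nat_lit 41) (.e (nat_lit 712722) (nat_lit 15) (.e (nat_lit 3302) (nat_lit 202) .nil)))))) (.g (nat_lit 1) (.e (nat_lit 417222) (nat_lit 0) .nil) .nil))) 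
(.lf (nat_lit 599984) (.g (nat_lit 3976) (.e (nat_lit 557086) (nat_lit 11) (.e (nat_lit 24664) (nat_lit 14) (.e (nat_lit 401427) (nat_lit 3) (.e (nat_lit 204869) (nat_lit 29) (.e (nat_lit 360475) (nat_lit 8) .nil))))) (.g (nat_lit 1) (.e (nat_lit 418662) (nat_lit 0) .nil) .nil)))))) (.nd (nat_lit 7) (.nd (nat_lit 8) (.nd (nat_lit 9) 
(.lf (nat_lit 599152) (.g (nat_lit 1710) (.e (nat_lit 573489) (nat_lit 14) (.e (nat_lit 73755) (nat_lit 8) (.e (nat_lit 557103) (nat_lit 14) (.e (nat_lit 180251) (nat_lit 10) .nil)))) (.g (nat_lit 0) (.e (nat_lit 416263) (nat_lit 0) .nil) .nil))) 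
(.lf (nat_lit 599664) (.g (nat_lit 186) (.e (nat_lit 573493) (nat_lit 15) (.e (nat_lit 81953) (nat_lit 22) (.e (nat_lit 90170) (nat_lit 13) .nil))) (.g (nat_lit 0) (.e (nat_lit 417666) (nat_lit 0) .nil) .nil)))) (.nd (nat_lit 9) 
(.lf (nat_lit 599408) (.g (nat_lit 3335) (.e (nat_lit 573491) (nat_lit 15) (.e (nat_lit 81954) (nat_lit 23) (.e (nat_lit 98359) (nat_lit 26) (.e (nat_lit 426043) (nat_lit 0) (.e (nat_lit 3406) (nat_lit 212) (.e (nat_lit 655375) (nat_lit 3) (.e (nat_lit 163977) (nat_lit 30) .nil))))))) (.g (nat_lit 1) (.e (nat_lit 417088) (nat_lit 0) .nil) .nil))) 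
(.lf (nat_lit 599920) (.g (nat_lit 1886) (.e (nat_lit 557070) (nat_lit 9) (.e (nat_lit 2744) (nat_lit 174) (.e (nat_lit 253991) (nat_lit 11) (.e (nat_lit 16414) (nat_lit 3) (.e (nat_lit 204855) (nat_lit 26) .nil))))) (.g (nat_lit 0) (.e (nat_lit 418535) (nat_lit 0) .nil) .nil))))) (.nd (nat_lit 8) (.nd (nat_lit 9) 
(.lf (nat_lit 599280) (.g (nat_lit 757) (.e (nat_lit 573490) (nat_lit 15) (.e (nat_lit 81956) (nat_lit 23) (.e (nat_lit 98376) (nat_lit 30) .nil))) (.g (nat_lit 0) (.e (nat_lit 416723) (nat_lit 0) .nil) .nil))) 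
(.lf (nat_lit 599792) (.g (nat_lit 903) (.e (nat_lit 581652) (nat_lit 5) (.e (nat_lit 180285) (nat_lit 45) (.e (nat_lit 2580) (nat_lit 161) (.e (nat_lit 40965) (nat_lit 0) (.e (nat_lit 1582) (nat_lit 111) (.e (nat_lit 368384) (nat_lit 11) .nil)))))) (.g (nat_lit 1) (.e (nat_lit 418105) (nat_lit 0) .nil) .nil)))) (.nd (nat_lit 9) 
(.lf (nat_lit 599536) (.g (nat_lit 2101) (.e (nat_lit 573491) (nat_lit 15) (.e (nat_lit 81956) (nat_lit 23) (.e (nat_lit 98384) (nat_lit 32) (.e (nat_lit 475210) (nat_lit 41) .nil)))) (.g (nat_lit 0) (.e (nat_lit 417296) (nat_lit 0) .nil) .nil))) 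
(.lf (nat_lit 600048) (.g (nat_lit 1492) (.e (nat_lit 557089) (nat_lit 12) (.e (nat_lit 163850) (nat_lit 0) (.e (nat_lit 6425) (nat_lit 342) (.e (nat_lit 229409) (nat_lit 13) .nil)))) (.g (nat_lit 0) (.e (nat_lit 418763) (nat_lit 0) .nil) .nil))))))))) (.nd (nat_lit 4) (.nd (nat_lit 5) (.nd (nat_lit 6) (.nd (nat_lit 7) (.nd (nat_lit 8) (.nd (nat_lit 9) 
(.lf (nat_lit 599048) (.g (nat_lit 3054) (.e (nat_lit 573489) (nat_lit 14) (.e (nat_lit 73755) (nat_lit 8) (.e (nat_lit 557090) (nat_lit 12) (.e (nat_lit 163843) (nat_lit 0) (.e (nat_lit 5940) (nat_lit 322) (.e (nat_lit 57379) (nat_lit 3) (.e (nat_lit 98366) (nat_lit 27) (.e (nat_lit 434246) (nat_lit 28) .nil)))))))) (.g (nat_lit 1) (.e (nat_lit 415963) (nat_lit 0) .nil) .nil))) 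
(.lf (nat_lit 599560) (.g (nat_lit 1602) (.e (nat_lit 573492) (nat_lit 15) (.e (nat_lit 81953) (nat_lit 22) (.e (nat_lit 90144) (nat_lit 9) (.e (nat_lit 3099) (nat_lit 192) .nil)))) (.g (nat_lit 0) (.e (nat_lit 417382) (nat_lit 0) .nil) .nil)))) (.nd (nat_lit 9) 
(.lf (nat_lit 599304) (.g (nat_lit 1411) (.e (nat_lit 573491) (nat_lit 15) (.e (nat_lit 81947) (nat_lit 20) (.e (nat_lit 1841) (nat_lit 123) (.e (nat_lit 548891) (nat_lit 11) (.e (nat_lit 89856) (nat_lit 0) .nil))))) (.g (nat_lit 0) (.e (nat_lit 416842) (nat_lit 0) .nil) .nil))) 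
(.lf (nat_lit 599816) (.g (nat_lit 778) (.e (nat_lit 557061) (nat_lit 0) (.e (nat_lit 1591) (nat_lit 111) (.e (nat_lit 360493) (nat_lit 27) (.e (nat_lit 819203) (nat_lit 0) (.e (nat_lit 3016) (nat_lit 187) (.e (nat_lit 458496) (nat_lit 8) .nil)))))) (.g (nat_lit 1) (.e (nat_lit 418190) (nat_lit 0) .nil) .nil))))) (.nd (nat_lit 8) (.nd (nat_lit 9) 
(.lf (nat_lit 599176) (.g (nat_lit 3231) (.e (nat_lit 573489) (nat_lit 14) (.e (nat_lit 73755) (nat_lit 8) (.e (nat_lit 557104) (nat_lit 14) (.e (nat_lit 180252) (nat_lit 10) (.e (nat_lit 573473) (nat_lit 12) (.e (nat_lit 57501) (nat_lit 37) (.e (nat_lit 630799) (nat_lit 7) (.e (nat_lit 163977) (nat_lit 30) .nil)))))))) (.g (nat_lit 1) (.e (nat_lit 416369) (nat_lit 0) .nil) .nil))) 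
(.lf (nat_lit 599688) (.g (nat_lit 4522) (.e (nat_lit 573493) (nat_lit 15) (.e (nat_lit 81954) (nat_lit 23) (.e (nat_lit 98367) (nat_lit 27) (.e (nat_lit 434272) (nat_lit 38) (.e (nat_lit 655364) (nat_lit 0) (.e (nat_lit 2472) (nat_lit 157) (.e (nat_lit 3307) (nat_lit 202) .nil))))))) (.g (nat_lit 1) (.e (nat_lit 417702) (nat_lit 0) .nil) .nil)))) (.nd (nat_lit 9) 
(.lf (nat_lit 599432) (.g (nat_lit 1597) (.e (nat_lit 573491) (nat_lit 15) (.e (nat_lit 81954) (nat_lit 23) (.e (nat_lit 98365) (nat_lit 26) (.e (nat_lit 426413) (nat_lit 15) .nil)))) (.g (nat_lit 0) (.e (nat_lit 417144) (nat_lit 0) .nil) .nil))) 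
(.lf (nat_lit 599944) (.g (nat_lit 546) (.e (nat_lit 557072) (nat_lit 9) (.e (nat_lit 3098) (nat_lit 192) (.e (nat_lit 491568) (nat_lit 13) .nil))) (.g (nat_lit 0) (.e (nat_lit 418590) (nat_lit 0) .nil) .nil)))))) (.nd (nat_lit 7) (.nd (nat_lit 8) (.nd (nat_lit 9) 
(.lf (nat_lit 599112) (.g (nat_lit 3875) (.e (nat_lit 573489) (nat_lit 14) (.e (nat_lit 73755) (nat_lit 8) (.e (nat_lit 557098) (nat_lit 13) (.e (nat_lit 172067) (nat_lit 3) (.e (nat_lit 204829) (nat_lit 18) (.e (nat_lit 57659) (nat_lit 152) (.e (nat_lit 2612) (nat_lit 163) (.e (nat_lit 163978) (nat_lit 30) .nil)))))))) (.g (nat_lit 1) (.e (nat_lit 416111) (nat_lit 0) .nil) .nil))) 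
(.lf (nat_lit 599624) (.g (nat_lit 5129) (.e (nat_lit 573492) (nat_lit 15) (.e (nat_lit 81956) (nat_lit 23) (.e (nat_lit 98384) (nat_lit 32) (.e (nat_lit 475199) (nat_lit 40) (.e (nat_lit 704590) (nat_lit 3) (.e (nat_lit 163975) (nat_lit 30) .nil)))))) (.g (nat_lit 1) (.e (nat_lit 417584) (nat_lit 0) .nil) .nil)))) (.nd (nat_lit 9) 
(.lf (nat_lit 599368) (.g (nat_lit 3823) (.e (nat_lit 573491) (nat_lit 15) (.e (nat_lit 81954) (nat_lit 23) (.e (nat_lit 98323) (nat_lit 17) (.e (nat_lit 6989) (nat_lit 377) (.e (nat_lit 2777) (nat_lit 178) (.e (nat_lit 286765) (nat_lit 15) (.e (nat_lit 3298) (nat_lit 202) .nil))))))) (.g (nat_lit 1) (.e (nat_lit 416992) (nat_lit 0) .nil) .nil))) 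
(.lf (nat_lit 599880) (.g (nat_lit 4043) (.e (nat_lit 557067) (nat_lit 9) (.e (nat_lit 214) (nat_lit 19) (.e (nat_lit 319492) (nat_lit 0) (.e (nat_lit 5761) (nat_lit 315) (.e (nat_lit 163962) (nat_lit 25) (.e (nat_lit 532535) (nat_lit 9) (.e (nat_lit 336176) (nat_lit 10) (.e (nat_lit 344130) (nat_lit 26) .nil)))))))) (.g (nat_lit 1) (.e (nat_lit 418362) (nat_lit 0) .nil) .nil))))) 
(.nd (nat_lit 8) (.nd (nat_lit 9) 
(.lf (nat_lit 599240) (.g (nat_lit 3786) (.e (nat_lit 573489) (nat_lit 14) (.e (nat_lit 73755) (nat_lit 8) (.e (nat_lit 557105) (nat_lit 14) (.e (nat_lit 180252) (nat_lit 10) (.e (nat_lit 573475) (nat_lit 12) (.e (nat_lit 57504) (nat_lit 38) (.e (nat_lit 638985) (nat_lit 5) (.e (nat_lit 2472) (nat_lit 157) (.e (nat_lit 3307) (nat_lit 202) .nil))))))))) (.g (nat_lit 1) (.e (nat_lit 416618) (nat_lit 0) .nil) .nil))) 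
(.lf (nat_lit 599752) (.g (nat_lit 847) (.e (nat_lit 573503) (nat_lit 18) (.e (nat_lit 1359) (nat_lit 102) (.e (nat_lit 286756) (nat_lit 10) (.e (nat_lit 344183) (nat_lit 49) .nil)))) (.g (nat_lit 0) (.e (nat_lit 417864) (nat_lit 0) .nil) .nil)))) (.nd (nat_lit 9) 
(.lf (nat_lit 599496) (.g (nat_lit 2313) (.e (nat_lit 573491) (nat_lit 15) (.e (nat_lit 81954) (nat_lit 23) (.e (nat_lit 98389) (nat_lit 33) (.e (nat_lit 491556) (nat_lit 9) (.e (nat_lit 336305) (nat_lit 15) (.e (nat_lit 3298) (nat_lit 202) .nil)))))) (.g (nat_lit 1) (.e (nat_lit 417247) (nat_lit 0) .nil) .nil))) 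
(.lf (nat_lit 600008) (.g (nat_lit 3897) (.e (nat_lit 557087) (nat_lit 11) (.e (nat_lit 24663) (nat_lit 14) (.e (nat_lit 401427) (nat_lit 3) (.e (nat_lit 204869) (nat_lit 29) (.e (nat_lit 360475) (nat_lit 8) .nil))))) (.g (nat_lit 1) (.e (nat_lit 418696) (nat_lit 0) .nil) .nil))))))) (.nd (nat_lit 6) (.nd (nat_lit 7) (.nd (nat_lit 8) (.nd (nat_lit 9) 
(.lf (nat_lit 599080) (.g (nat_lit 2269) (.e (nat_lit 573489) (nat_lit 14) (.e (nat_lit 73755) (nat_lit 8) (.e (nat_lit 557091) (nat_lit 12) (.e (nat_lit 164000) (nat_lit 38) (.e (nat_lit 639016) (nat_lit 15) .nil))))) (.g (nat_lit 0) (.e (nat_lit 416013) (nat_lit 0) .nil) .nil))) 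
(.lf (nat_lit 599592) (.g (nat_lit 2023) (.e (nat_lit 573492) (nat_lit 15) (.e (nat_lit 81956) (nat_lit 23) (.e (nat_lit 98350) (nat_lit 24) (.e (nat_lit 409614) (nat_lit 10) .nil)))) (.g (nat_lit 0) (.e (nat_lit 417473) (nat_lit 0) .nil) .nil)))) (.nd (nat_lit 9) 
(.lf (nat_lit 599336) (.g (nat_lit 3522) (.e (nat_lit 573491) (nat_lit 15) (.e (nat_lit 81951) (nat_lit 22) (.e (nat_lit 90170) (nat_lit 13) (.e (nat_lit 172049) (nat_lit 0) (.e (nat_lit 3406) (nat_lit 212) (.e (nat_lit 655373) (nat_lit 3) (.e (nat_lit 163979) (nat_lit 30) .nil))))))) (.g (nat_lit 1) (.e (nat_lit 416918) (nat_lit 0) .nil) .nil))) 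
(.lf (nat_lit 599848) (.g (nat_lit 3232) (.e (nat_lit 557065) (nat_lit 9) (.e (nat_lit 2700) (nat_lit 169) (.e (nat_lit 213032) (nat_lit 11) (.e (nat_lit 24608) (nat_lit 3) (.e (nat_lit 98373) (nat_lit 29) (.e (nat_lit 458496) (nat_lit 8) .nil)))))) (.g (nat_lit 1) (.e (nat_lit 418256) (nat_lit 0) .nil) .nil))))) (.nd (nat_lit 8) (.nd (nat_lit 9) 
(.lf (nat_lit 599208) (.g (nat_lit 2497) (.e (nat_lit 573489) (nat_lit 14) (.e (nat_lit 73755) (nat_lit 8) (.e (nat_lit 557105) (nat_lit 14) (.e (nat_lit 180252) (nat_lit 10) (.e (nat_lit 573472) (nat_lit 12) .nil))))) (.g (nat_lit 0) (.e (nat_lit 416531) (nat_lit 0) .nil) .nil))) 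
(.lf (nat_lit 599720) (.g (nat_lit 4276) (.e (nat_lit 573493) (nat_lit 15) (.e (nat_lit 81956) (nat_lit 23) (.e (nat_lit 98389) (nat_lit 33) (.e (nat_lit 491556) (nat_lit 9) (.e (nat_lit 336305) (nat_lit 15) (.e (nat_lit 3298) (nat_lit 202) .nil)))))) (.g (nat_lit 1) (.e (nat_lit 417774) (nat_lit 0) .nil) .nil)))) (.nd (nat_lit 9) 
(.lf (nat_lit 599464) (.g (nat_lit 2115) (.e (nat_lit 573491) (nat_lit 15) (.e (nat_lit 81954) (nat_lit 23) (.e (nat_lit 98384) (nat_lit 32) (.e (nat_lit 475208) (nat_lit 41) .nil)))) (.g (nat_lit 0) (.e (nat_lit 417214) (nat_lit 0) .nil) .nil))) 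
(.lf (nat_lit 599976) (.g (nat_lit 470) (.e (nat_lit 557085) (nat_lit 11) (.e (nat_lit 24665) (nat_lit 14) (.e (nat_lit 401426) (nat_lit 3) .nil))) (.g (nat_lit 0) (.e (nat_lit 418648) (nat_lit 0) .nil) .nil)))))) (.nd (nat_lit 7) (.nd (nat_lit 8) (.nd (nat_lit 9) 
(.lf (nat_lit 599144) (.g (nat_lit 3173) (.e (nat_lit 573489) (nat_lit 14) (.e (nat_lit 73755) (nat_lit 8) (.e (nat_lit 557103) (nat_lit 14) (.e (nat_lit 180250) (nat_lit 10) (.e (nat_lit 573474) (nat_lit 12) (.e (nat_lit 57504) (nat_lit 38) (.e (nat_lit 638996) (nat_lit 7) (.e (nat_lit 163977) (nat_lit 30) .nil)))))))) (.g (nat_lit 1) (.e (nat_lit 416255) (nat_lit 0) .nil) .nil))) 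
(.lf (nat_lit 599656) (.g (nat_lit 562) (.e (nat_lit 573493) (nat_lit 15) (.e (nat_lit 81953) (nat_lit 22) (.e (nat_lit 90133) (nat_lit 9) .nil))) (.g (nat_lit 0) (.e (nat_lit 417655) (nat_lit 0) .nil) .nil)))) (.nd (nat_lit 9) 
(.lf (nat_lit 599400) (.g (nat_lit 1553) (.e (nat_lit 573491) (nat_lit 15) (.e (nat_lit 81954) (nat_lit 23) (.e (nat_lit 98358) (nat_lit 26) (.e (nat_lit 426402) (nat_lit 15) .nil)))) (.g (nat_lit 0) (.e (nat_lit 417073) (nat_lit 0) .nil) .nil))) 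
(.lf (nat_lit 599912) (.g (nat_lit 1856) (.e (nat_lit 557070) (nat_lit 9) (.e (nat_lit 2744) (nat_lit 174) (.e (nat_lit 253991) (nat_lit 11) (.e (nat_lit 16411) (nat_lit 2) .nil)))) (.g (nat_lit 0) (.e (nat_lit 418526) (nat_lit 0) .nil) .nil))))) (.nd (nat_lit 8) (.nd (nat_lit 9) 
(.lf (nat_lit 599272) (.g (nat_lit 1721) (.e (nat_lit 573490) (nat_lit 15) (.e (nat_lit 81956) (nat_lit 23) (.e (nat_lit 98325) (nat_lit 17) (.e (nat_lit 6986) (nat_lit 377) .nil)))) (.g (nat_lit 0) (.e (nat_lit 416714) (nat_lit 0) .nil) .nil))) 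
(.lf (nat_lit 599784) (.g (nat_lit 1733) (.e (nat_lit 581651) (nat_lit 4) (.e (nat_lit 172113) (nat_lit 10) (.e (nat_lit 434208) (nat_lit 18) (.e (nat_lit 6830) (nat_lit 367) (.e (nat_lit 57412) (nat_lit 12) .nil))))) (.g (nat_lit 0) (.e (nat_lit 417973) (nat_lit 0) .nil) .nil)))) (.nd (nat_lit 9) 
(.lf (nat_lit 599528) (.g (nat_lit 2330) (.e (nat_lit 573491) (nat_lit 15) (.e (nat_lit 81956) (nat_lit 23) (.e (nat_lit 98384) (nat_lit 32) (.e (nat_lit 475195) (nat_lit 40) (.e (nat_lit 704590) (nat_lit 3) .nil))))) (.g (nat_lit 0) (.e (nat_lit 417288) (nat_lit 0) .nil) .nil))) 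
(.lf (nat_lit 600040) (.g (nat_lit 3979) (.e (nat_lit 557089) (nat_lit 12) (.e (nat_lit 163849) (nat_lit 0) (.e (nat_lit 6420) (nat_lit 341) (.e (nat_lit 163900) (nat_lit 12) (.e (nat_lit 426125) (nat_lit 2) (.e (nat_lit 196666) (nat_lit 13) (.e (nat_lit 65617) (nat_lit 10) (.e (nat_lit 344130) (nat_lit 26) .nil)))))))) (.g (nat_lit 1) (.e (nat_lit 418750) (nat_lit 0) .nil) .nil)))))))) 
(.nd (nat_lit 5) (.nd (nat_lit 6) (.nd (nat_lit 7) (.nd (nat_lit 8) (.nd (nat_lit 9) 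
(.lf (nat_lit 599064) (.g (nat_lit 1470) (.e (nat_lit 573489) (nat_lit 14) (.e (nat_lit 73755) (nat_lit 8) (.e (nat_lit 557090) (nat_lit 12) (.e (nat_lit 164005) (nat_lit 41) .nil)))) (.g (nat_lit 0) (.e (nat_lit 415989) (nat_lit 0) .nil) .nil))) 
(.lf (nat_lit 599576) (.g (nat_lit 3422) (.e (nat_lit 573492) (nat_lit 15) (.e (nat_lit 81954) (nat_lit 23) (.e (nat_lit 98384) (nat_lit 32) (.e (nat_lit 475199) (nat_lit 40) (.e (nat_lit 704590) (nat_lit 3) .nil))))) (.g (nat_lit 0) (.e (nat_lit 417441) (nat_lit 0) .nil) .nil)))) (.nd (nat_lit 9) 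
(.lf (nat_lit 599320) (.g (nat_lit 5394) (.e (nat_lit 573491) (nat_lit 15) (.e (nat_lit 81951) (nat_lit 22) (.e (nat_lit 90167) (nat_lit 13) (.e (nat_lit 172133) (nat_lit 15) (.e (nat_lit 2059) (nat_lit 142) (.e (nat_lit 704589) (nat_lit 3) (.e (nat_lit 163979) (nat_lit 30) .nil))))))) (.g (nat_lit 1) (.e (nat_lit 416891) (nat_lit 0) .nil) .nil))) 
(.lf (nat_lit 599832) (.g (nat_lit 941) (.e (nat_lit 564992) (nat_lit 6) (.e (nat_lit 81946) (nat_lit 20) (.e (nat_lit 2391) (nat_lit 156) (.e (nat_lit 819221) (nat_lit 6) .nil)))) (.g (nat_lit 0) (.e (nat_lit 418218) (nat_lit 0) .nil) .nil))))) (.nd (nat_lit 8) (.nd (nat_lit 9) 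
(.lf (nat_lit 599192) (.g (nat_lit 2333) (.e (nat_lit 573489) (nat_lit 14) (.e (nat_lit 73755) (nat_lit 8) (.e (nat_lit 557105) (nat_lit 14) (.e (nat_lit 180244) (nat_lit 5) (.e (nat_lit 532484) (nat_lit 0) .nil))))) (.g (nat_lit 0) (.e (nat_lit 416404) (nat_lit 0) .nil) .nil))) 
(.lf (nat_lit 599704) (.g (nat_lit 2564) (.e (nat_lit 573493) (nat_lit 15) (.e (nat_lit 81956) (nat_lit 23) (.e (nat_lit 98350) (nat_lit 24) (.e (nat_lit 409646) (nat_lit 18) (.e (nat_lit 303147) (nat_lit 15) .nil))))) (.g (nat_lit 0) (.e (nat_lit 417748) (nat_lit 0) .nil) .nil)))) (.nd (nat_lit 9) 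
(.lf (nat_lit 599448) (.g (nat_lit 3971) (.e (nat_lit 573491) (nat_lit 15) (.e (nat_lit 81954) (nat_lit 23) (.e (nat_lit 98367) (nat_lit 27) (.e (nat_lit 434272) (nat_lit 38) (.e (nat_lit 655375) (nat_lit 3) (.e (nat_lit 163977) (nat_lit 30) .nil)))))) (.g (nat_lit 1) (.e (nat_lit 417183) (nat_lit 0) .nil) .nil))) 
(.lf (nat_lit 599960) (.g (nat_lit 4756) (.e (nat_lit 557085) (nat_lit 11) (.e (nat_lit 24580) (nat_lit 0) (.e (nat_lit 6619) (nat_lit 357) (.e (nat_lit 2668) (nat_lit 167) (.e (nat_lit 196666) (nat_lit 13) (.e (nat_lit 65617) (nat_lit 10) (.e (nat_lit 344132) (nat_lit 26) .nil))))))) (.g (nat_lit 1) (.e (nat_lit 418631) (nat_lit 0) .nil) .nil)))))) 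
(.nd (nat_lit 7) (.nd (nat_lit 8) (.nd (nat_lit 9) 
(.lf (nat_lit 599128) (.g (nat_lit 3504) (.e (nat_lit 573489) (nat_lit 14) (.e (nat_lit 73755) (nat_lit 8) (.e (nat_lit 557103) (nat_lit 14) (.e (nat_lit 180243) (nat_lit 5) (.e (nat_lit 532484) (nat_lit 0) (.e (nat_lit 7936) (nat_lit 149) (.e (nat_lit 761894) (nat_lit 15) (.e (nat_lit 163979) (nat_lit 30) .nil)))))))) (.g (nat_lit 1) (.e (nat_lit 416159) (nat_lit 0) .nil) .nil))) 
(.lf (nat_lit 599640) (.g (nat_lit 5211) (.e (nat_lit 573492) (nat_lit 15) (.e (nat_lit 81956) (nat_lit 23) (.e (nat_lit 98389) (nat_lit 33) (.e (nat_lit 491552) (nat_lit 9) (.e (nat_lit 336248) (nat_lit 15) (.e (nat_lit 3311) (nat_lit 202) .nil)))))) (.g (nat_lit 1) (.e (nat_lit 417606) (nat_lit 0) .nil) .nil)))) (.nd (nat_lit 9) 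
(.lf (nat_lit 599384) (.g (nat_lit 1759) (.e (nat_lit 573491) (nat_lit 15) (.e (nat_lit 81954) (nat_lit 23) (.e (nat_lit 98356) (nat_lit 26) (.e (nat_lit 426148) (nat_lit 4) .nil)))) (.g (nat_lit 0) (.e (nat_lit 417052) (nat_lit 0) .nil) .nil))) 
(.lf (nat_lit 599896) (.g (nat_lit 3282) (.e (nat_lit 557067) (nat_lit 9) (.e (nat_lit 3022) (nat_lit 187) (.e (nat_lit 450580) (nat_lit 5) (.e (nat_lit 532563) (nat_lit 15) (.e (nat_lit 385092) (nat_lit 49) (.e (nat_lit 778317) (nat_lit 3) (.e (nat_lit 57477) (nat_lit 28) .nil))))))) (.g (nat_lit 1) (.e (nat_lit 418434) (nat_lit 0) .nil) .nil))))) (.nd (nat_lit 8) (.nd (nat_lit 9) 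
(.lf (nat_lit 599256) (.g (nat_lit 3100) (.e (nat_lit 573489) (nat_lit 14) (.e (nat_lit 73755) (nat_lit 8) (.e (nat_lit 557119) (nat_lit 18) (.e (nat_lit 2798) (nat_lit 180) (.e (nat_lit 303108) (nat_lit 0) (.e (nat_lit 7936) (nat_lit 200) (.e (nat_lit 557105) (nat_lit 14) (.e (nat_lit 180252) (nat_lit 10) .nil)))))))) (.g (nat_lit 1) (.e (nat_lit 416655) (nat_lit 0) .nil) .nil))) 
(.lf (nat_lit 599768) (.g (nat_lit 805) (.e (nat_lit 581645) (nat_lit 2) (.e (nat_lit 24665) (nat_lit 14) (.e (nat_lit 409344) (nat_lit 34) .nil))) (.g (nat_lit 0) (.e (nat_lit 417928) (nat_lit 0) .nil) .nil)))) (.nd (nat_lit 9) 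
(.lf (nat_lit 599512) (.g (nat_lit 1324) (.e (nat_lit 573491) (nat_lit 15) (.e (nat_lit 81956) (nat_lit 23) (.e (nat_lit 98325) (nat_lit 17) (.e (nat_lit 7554) (nat_lit 402) .nil)))) (.g (nat_lit 0) (.e (nat_lit 417264) (nat_lit 0) .nil) .nil))) 
(.lf (nat_lit 600024) (.g (nat_lit 3082) (.e (nat_lit 557089) (nat_lit 12) (.e (nat_lit 163844) (nat_lit 0) (.e (nat_lit 6255) (nat_lit 337) (.e (nat_lit 2725) (nat_lit 172) (.e (nat_lit 237592) (nat_lit 3) (.e (nat_lit 204868) (nat_lit 29) (.e (nat_lit 360473) (nat_lit 8) .nil))))))) (.g (nat_lit 1) (.e (nat_lit 418718) (nat_lit 0) .nil) .nil))))))) 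
(.nd (nat_lit 6) (.nd (nat_lit 7) (.nd (nat_lit 8) (.nd (nat_lit 9) 
(.lf (nat_lit 599096) (.g (nat_lit 2134) (.e (nat_lit 573489) (nat_lit 14) (.e (nat_lit 73755) (nat_lit 8) (.e (nat_lit 557097) (nat_lit 13) (.e (nat_lit 172067) (nat_lit 3) (.e (nat_lit 204820) (nat_lit 17) .nil))))) (.g (nat_lit 0) (.e (nat_lit 416063) (nat_lit 0) .nil) .nil))) 
(.lf (nat_lit 599608) (.g (nat_lit 4649) (.e (nat_lit 573492) (nat_lit 15) (.e (nat_lit 81956) (nat_lit 23) (.e (nat_lit 98362) (nat_lit 26) (.e (nat_lit 426412) (nat_lit 15) (.e (nat_lit 2059) (nat_lit 142) (.e (nat_lit 704589) (nat_lit 3) (.e (nat_lit 163976) (nat_lit 30) .nil))))))) (.g (nat_lit 1) (.e (nat_lit 417533) (nat_lit 0) .nil) .nil)))) (.nd (nat_lit 9) 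
(.lf (nat_lit 599352) (.g (nat_lit 4722) (.e (nat_lit 573491) (nat_lit 15) (.e (nat_lit 81951) (nat_lit 22) (.e (nat_lit 90170) (nat_lit 13) (.e (nat_lit 172138) (nat_lit 15) (.e (nat_lit 2059) (nat_lit 142) (.e (nat_lit 704589) (nat_lit 3) (.e (nat_lit 163979) (nat_lit 30) .nil))))))) (.g (nat_lit 1) (.e (nat_lit 416962) (nat_lit 0) .nil) .nil))) 
(.lf (nat_lit 599864) (.g (nat_lit 2010) (.e (nat_lit 557065) (nat_lit 9) (.e (nat_lit 3044) (nat_lit 189) (.e (nat_lit 466977) (nat_lit 22) (.e (nat_lit 196681) (nat_lit 17) (.e (nat_lit 131089) (nat_lit 1) (.e (nat_lit 57930) (nat_lit 282) (.e (nat_lit 163851) (nat_lit 0) (.e (nat_lit 7936) (nat_lit 200) .nil)))))))) (.g (nat_lit 1) (.e (nat_lit 418315) (nat_lit 0) .nil) .nil))))) 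
(.nd (nat_lit 8) (.nd (nat_lit 9) 
(.lf (nat_lit 599224) (.g (nat_lit 3540) (.e (nat_lit 573489) (nat_lit 14) (.e (nat_lit 73755) (nat_lit 8) (.e (nat_lit 557105) (nat_lit 14) (.e (nat_lit 180252) (nat_lit 10) (.e (nat_lit 573474) (nat_lit 12) (.e (nat_lit 57503) (nat_lit 38) (.e (nat_lit 638994) (nat_lit 7) (.e (nat_lit 163976) (nat_lit 30) .nil)))))))) (.g (nat_lit 1) (.e (nat_lit 416593) (nat_lit 0) .nil) .nil))) 
(.lf (nat_lit 599736) (.g (nat_lit 562) (.e (nat_lit 573503) (nat_lit 18) (.e (nat_lit 1348) (nat_lit 102) (.e (nat_lit 286748) (nat_lit 9) .nil))) (.g (nat_lit 0) (.e (nat_lit 417824) (nat_lit 0) .nil) .nil)))) (.nd (nat_lit 9) 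
(.lf (nat_lit 599480) (.g (nat_lit 3393) (.e (nat_lit 573491) (nat_lit 15) (.e (nat_lit 81954) (nat_lit 23) (.e (nat_lit 98386) (nat_lit 32) (.e (nat_lit 475197) (nat_lit 40) (.e (nat_lit 704589) (nat_lit 3) (.e (nat_lit 163975) (nat_lit 30) .nil)))))) (.g (nat_lit 1) (.e (nat_lit 417231) (nat_lit 0) .nil) .nil))) 
(.lf (nat_lit 599992) (.g (nat_lit 4303) (.e (nat_lit 557087) (nat_lit 11) (.e (nat_lit 24588) (nat_lit 0) (.e (nat_lit 6680) (nat_lit 357) (.e (nat_lit 2682) (nat_lit 168) (.e (nat_lit 204869) (nat_lit 29) (.e (nat_lit 360475) (nat_lit 8) .nil)))))) (.g (nat_lit 1) (.e (nat_lit 418672) (nat_lit 0) .nil) .nil)))))) (.nd (nat_lit 7) (.nd (nat_lit 8) (.nd (nat_lit 9) 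
(.lf (nat_lit 599160) (.g (nat_lit 2811) (.e (nat_lit 573489) (nat_lit 14) (.e (nat_lit 73755) (nat_lit 8) (.e (nat_lit 557104) (nat_lit 14) (.e (nat_lit 180244) (nat_lit 5) (.e (nat_lit 532481) (nat_lit 0) (.e (nat_lit 2265) (nat_lit 149) (.e (nat_lit 761899) (nat_lit 15) (.e (nat_lit 163977) (nat_lit 30) .nil)))))))) (.g (nat_lit 1) (.e (nat_lit 416276) (nat_lit 0) .nil) .nil))) 
(.lf (nat_lit 599672) (.g (nat_lit 5028) (.e (nat_lit 573493) (nat_lit 15) (.e (nat_lit 81953) (nat_lit 22) (.e (nat_lit 90170) (nat_lit 13) (.e (nat_lit 172059) (nat_lit 1) (.e (nat_lit 164348) (nat_lit 240) (.e (nat_lit 2610) (nat_lit 163) (.e (nat_lit 163979) (nat_lit 30) .nil))))))) (.g (nat_lit 1) (.e (nat_lit 417675) (nat_lit 0) .nil) .nil)))) (.nd (nat_lit 9) 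
(.lf (nat_lit 599416) (.g (nat_lit 3099) (.e (nat_lit 573491) (nat_lit 15) (.e (nat_lit 81954) (nat_lit 23) (.e (nat_lit 98359) (nat_lit 26) (.e (nat_lit 426396) (nat_lit 15) (.e (nat_lit 2058) (nat_lit 142) (.e (nat_lit 704589) (nat_lit 3) (.e (nat_lit 163975) (nat_lit 30) .nil))))))) (.g (nat_lit 1) (.e (nat_lit 417113) (nat_lit 0) .nil) .nil))) 
(.lf (nat_lit 599928) (.g (nat_lit 1255) (.e (nat_lit 557070) (nat_lit 9) (.e (nat_lit 2744) (nat_lit 174) (.e (nat_lit 253992) (nat_lit 11) (.e (nat_lit 16409) (nat_lit 2) .nil)))) (.g (nat_lit 0) (.e (nat_lit 418544) (nat_lit 0) .nil) .nil))))) (.nd (nat_lit 8) (.nd (nat_lit 9) 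
(.lf (nat_lit 599288) (.g (nat_lit 3947) (.e (nat_lit 573491) (nat_lit 15) (.e (nat_lit 81943) (nat_lit 20) (.e (nat_lit 2391) (nat_lit 156) (.e (nat_lit 819219) (nat_lit 4) (.e (nat_lit 172082) (nat_lit 7) (.e (nat_lit 409617) (nat_lit 10) (.e (nat_lit 632) (nat_lit 50) .nil))))))) (.g (nat_lit 1) (.e (nat_lit 416793) (nat_lit 0) .nil) .nil))) 
(.lf (nat_lit 599800) (.g (nat_lit 1137) (.e (nat_lit 581653) (nat_lit 6) (.e (nat_lit 188434) (nat_lit 20) (.e (nat_lit 3579) (nat_lit 223) (.e (nat_lit 745489) (nat_lit 4) .nil)))) (.g (nat_lit 0) (.e (nat_lit 418126) (nat_lit 0) .nil) .nil)))) (.nd (nat_lit 9) 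
(.lf (nat_lit 599544) (.g (nat_lit 308) (.e (nat_lit 573491) (nat_lit 15) (.e (nat_lit 81956) (nat_lit 23) (.e (nat_lit 98389) (nat_lit 33) .nil))) (.g (nat_lit 0) (.e (nat_lit 417304) (nat_lit 0) .nil) .nil))) 
(.lf (nat_lit 600056) (.g (nat_lit 5807) (.e (nat_lit 557090) (nat_lit 12) (.e (nat_lit 163843) (nat_lit 0) (.e (nat_lit 6255) (nat_lit 337) (.e (nat_lit 2630) (nat_lit 164) (.e (nat_lit 172064) (nat_lit 2) (.e (nat_lit 196666) (nat_lit 13) (.e (nat_lit 65617) (nat_lit 10) (.e (nat_lit 344130) (nat_lit 26) .nil)))))))) (.g (nat_lit 1) (.e (nat_lit 418787) (nat_lit 0) .nil) .nil)))))))))) 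
(.nd (nat_lit 3) (.nd (nat_lit 4) (.nd (nat_lit 5) (.nd (nat_lit 6) (.nd (nat_lit 7) 
(.nd (nat_lit 8) (.nd (nat_lit 9) 
(.lf (nat_lit 599044) (.g (nat_lit 1780) (.e (nat_lit 573489) (nat_lit 14) (.e (nat_lit 73755) (nat_lit 8) (.e (nat_lit 557067) (nat_lit 9) (.e (nat_lit 2598) (nat_lit 163) .nil)))) (.g (nat_lit 0) (.e (nat_lit 415913) (nat_lit 0) .nil) .nil))) 
(.lf (nat_lit 599556) (.g (nat_lit 2064) (.e (nat_lit 573492) (nat_lit 15) (.e (nat_lit 81951) (nat_lit 22) (.e (nat_lit 90170) (nat_lit 13) (.e (nat_lit 172068) (nat_lit 4) .nil)))) (.g (nat_lit 0) (.e (nat_lit 417357) (nat_lit 0) .nil) .nil)))) (.nd (nat_lit 9) 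
(.lf (nat_lit 599300) (.g (nat_lit 2941) (.e (nat_lit 573491) (nat_lit 15) (.e (nat_lit 81946) (nat_lit 20) (.e (nat_lit 1858) (nat_lit 124) (.e (nat_lit 557087) (nat_lit 11) (.e (nat_lit 24625) (nat_lit 9) .nil))))) (.g (nat_lit 0) (.e (nat_lit 416834) (nat_lit 0) .nil) .nil))) 
(.lf (nat_lit 599812) (.g (nat_lit 1496) (.e (nat_lit 557059) (nat_lit 0) (.e (nat_lit 1582) (nat_lit 111) (.e (nat_lit 360493) (nat_lit 27) (.e (nat_lit 819204) (nat_lit 0) (.e (nat_lit 3022) (nat_lit 187) (.e (nat_lit 458496) (nat_lit 8) .nil)))))) (.g (nat_lit 1) (.e (nat_lit 418174) (nat_lit 0) .nil) .nil))))) (.nd (nat_lit 8) (.nd (nat_lit 9) 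
(.lf (nat_lit 599172) (.g (nat_lit 2973) (.e (nat_lit 573489) (nat_lit 14) (.e (nat_lit 73755) (nat_lit 8) (.e (nat_lit 557104) (nat_lit 14) (.e (nat_lit 180250) (nat_lit 10) (.e (nat_lit 573478) (nat_lit 12) (.e (nat_lit 57502) (nat_lit 38) (.e (nat_lit 638995) (nat_lit 7) (.e (nat_lit 163979) (nat_lit 30) .nil)))))))) (.g (nat_lit 1) (.e (nat_lit 416364) (nat_lit 0) .nil) .nil))) 
(.lf (nat_lit 599684) (.g (nat_lit 413) (.e (nat_lit 573493) (nat_lit 15) (.e (nat_lit 81954) (nat_lit 23) (.e (nat_lit 98325) (nat_lit 17) .nil))) (.g (nat_lit 0) (.e (nat_lit 417697) (nat_lit 0) .nil) .nil)))) (.nd (nat_lit 9) 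
(.lf (nat_lit 599428) (.g (nat_lit 1585) (.e (nat_lit 573491) (nat_lit 15) (.e (nat_lit 81954) (nat_lit 23) (.e (nat_lit 98365) (nat_lit 26) (.e (nat_lit 426106) (nat_lit 1) .nil)))) (.g (nat_lit 0) (.e (nat_lit 417132) (nat_lit 0) .nil) .nil))) 
(.lf (nat_lit 599940) (.g (nat_lit 1861) (.e (nat_lit 557070) (nat_lit 9) (.e (nat_lit 2744) (nat_lit 174) (.e (nat_lit 253992) (nat_lit 11) (.e (nat_lit 16416) (nat_lit 3) (.e (nat_lit 204876) (nat_lit 31) .nil))))) (.g (nat_lit 0) (.e (nat_lit 418556) (nat_lit 0) .nil) .nil)))))) (.nd (nat_lit 7) (.nd (nat_lit 8) (.nd (nat_lit 9) 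
(.lf (nat_lit 599108) (.g (nat_lit 2876) (.e (nat_lit 573489) (nat_lit 14) (.e (nat_lit 73755) (nat_lit 8) (.e (nat_lit 557098) (nat_lit 13) (.e (nat_lit 172067) (nat_lit 3) (.e (nat_lit 204818) (nat_lit 17) .nil))))) (.g (nat_lit 0) (.e (nat_lit 416102) (nat_lit 0) .nil) .nil))) 
(.lf (nat_lit 599620) (.g (nat_lit 4374) (.e (nat_lit 573492) (nat_lit 15) (.e (nat_lit 81956) (nat_lit 23) (.e (nat_lit 98383) (nat_lit 32) (.e (nat_lit 475210) (nat_lit 41) (.e (nat_lit 712722) (nat_lit 15) (.e (nat_lit 3302) (nat_lit 202) .nil)))))) (.g (nat_lit 1) (.e (nat_lit 417579) (nat_lit 0) .nil) .nil)))) (.nd (nat_lit 9) 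
(.lf (nat_lit 599364) (.g (nat_lit 2731) (.e (nat_lit 573491) (nat_lit 15) (.e (nat_lit 81954) (nat_lit 23) (.e (nat_lit 98320) (nat_lit 17) (.e (nat_lit 7587) (nat_lit 406) (.e (nat_lit 65637) (nat_lit 15) (.e (nat_lit 3305) (nat_lit 202) .nil)))))) (.g (nat_lit 1) (.e (nat_lit 416987) (nat_lit 0) .nil) .nil))) 
(.lf (nat_lit 599876) (.g (nat_lit 2198) (.e (nat_lit 557065) (nat_lit 9) (.e (nat_lit 3098) (nat_lit 192) (.e (nat_lit 491571) (nat_lit 13) (.e (nat_lit 393253) (nat_lit 18) .nil)))) (.g (nat_lit 0) (.e (nat_lit 418337) (nat_lit 0) .nil) .nil))))) (.nd (nat_lit 8) (.nd (nat_lit 9) 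
(.lf (nat_lit 599236) (.g (nat_lit 3175) (.e (nat_lit 573489) (nat_lit 14) (.e (nat_lit 73755) (nat_lit 8) (.e (nat_lit 557105) (nat_lit 14) (.e (nat_lit 180252) (nat_lit 10) (.e (nat_lit 573475) (nat_lit 12) (.e (nat_lit 57503) (nat_lit 38) (.e (nat_lit 638994) (nat_lit 7) (.e (nat_lit 163974) (nat_lit 30) .nil)))))))) (.g (nat_lit 1) (.e (nat_lit 416613) (nat_lit 0) .nil) .nil))) 
(.lf (nat_lit 599748) (.g (nat_lit 455) (.e (nat_lit 573503) (nat_lit 18) (.e (nat_lit 1349) (nat_lit 102) (.e (nat_lit 286759) (nat_lit 12) .nil))) (.g (nat_lit 0) (.e (nat_lit 417849) (nat_lit 0) .nil) .nil)))) (.nd (nat_lit 9) 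
(.lf (nat_lit 599492) (.g (nat_lit 386) (.e (nat_lit 573491) (nat_lit 15) (.e (nat_lit 81954) (nat_lit 23) (.e (nat_lit 98389) (nat_lit 33) .nil))) (.g (nat_lit 0) (.e (nat_lit 417243) (nat_lit 0) .nil) .nil))) 
(.lf (nat_lit 600004) (.g (nat_lit 2389) (.e (nat_lit 557087) (nat_lit 11) (.e (nat_lit 24662) (nat_lit 14) (.e (nat_lit 401425) (nat_lit 2) (.e (nat_lit 196681) (nat_lit 17) .nil)))) (.g (nat_lit 0) (.e (nat_lit 418691) (nat_lit 0) .nil) .nil))))))) (.nd (nat_lit 6) (.nd (nat_lit 7) (.nd (nat_lit 8) (.nd (nat_lit 9) 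
(.lf (nat_lit 599076) (.g (nat_lit 3207) (.e (nat_lit 573489) (nat_lit 14) (.e (nat_lit 73755) (nat_lit 8) (.e (nat_lit 557091) (nat_lit 12) (.e (nat_lit 163843) (nat_lit 0) (.e (nat_lit 5943) (nat_lit 322) (.e (nat_lit 57372) (nat_lit 2) (.e (nat_lit 90174) (nat_lit 14) (.e (nat_lit 180251) (nat_lit 10) .nil)))))))) (.g (nat_lit 1) (.e (nat_lit 416003) (nat_lit 0) .nil) .nil))) 
(.lf (nat_lit 599588) (.g (nat_lit 763) (.e (nat_lit 573492) (nat_lit 15) (.e (nat_lit 81956) (nat_lit 23) (.e (nat_lit 98326) (nat_lit 17) .nil))) (.g (nat_lit 0) (.e (nat_lit 417461) (nat_lit 0) .nil) .nil)))) (.nd (nat_lit 9) 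
(.lf (nat_lit 599332) (.g (nat_lit 3882) (.e (nat_lit 573491) (nat_lit 15) (.e (nat_lit 81951) (nat_lit 22) (.e (nat_lit 90170) (nat_lit 13) (.e (nat_lit 172042) (nat_lit 0) (.e (nat_lit 3409) (nat_lit 212) (.e (nat_lit 655375) (nat_lit 3) (.e (nat_lit 163977) (nat_lit 30) .nil))))))) (.g (nat_lit 1) (.e (nat_lit 416912) (nat_lit 0) .nil) .nil))) 
(.lf (nat_lit 599844) (.g (nat_lit 1398) (.e (nat_lit 557065) (nat_lit 9) (.e (nat_lit 2700) (nat_lit 169) (.e (nat_lit 213030) (nat_lit 11) (.e (nat_lit 24609) (nat_lit 3) (.e (nat_lit 98374) (nat_lit 29) (.e (nat_lit 458496) (nat_lit 8) .nil)))))) (.g (nat_lit 1) (.e (nat_lit 418252) (nat_lit 0) .nil) .nil))))) (.nd (nat_lit 8) (.nd (nat_lit 9) 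
(.lf (nat_lit 599204) (.g (nat_lit 3331) (.e (nat_lit 573489) (nat_lit 14) (.e (nat_lit 73755) (nat_lit 8) (.e (nat_lit 557105) (nat_lit 14) (.e (nat_lit 180251) (nat_lit 10) (.e (nat_lit 573473) (nat_lit 12) (.e (nat_lit 57503) (nat_lit 38) (.e (nat_lit 638995) (nat_lit 7) (.e (nat_lit 163979) (nat_lit 30) .nil)))))))) (.g (nat_lit 1) (.e (nat_lit 416462) (nat_lit 0) .nil) .nil))) 
(.lf (nat_lit 599716) (.g (nat_lit 4166) (.e (nat_lit 573493) (nat_lit 15) (.e (nat_lit 81956) (nat_lit 23) (.e (nat_lit 98389) (nat_lit 33) (.e (nat_lit 491546) (nat_lit 9) (.e (nat_lit 336306) (nat_lit 15) (.e (nat_lit 3298) (nat_lit 202) .nil)))))) (.g (nat_lit 1) (.e (nat_lit 417770) (nat_lit 0) .nil) .nil)))) (.nd (nat_lit 9) 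
(.lf (nat_lit 599460) (.g (nat_lit 2663) (.e (nat_lit 573491) (nat_lit 15) (.e (nat_lit 81954) (nat_lit 23) (.e (nat_lit 98384) (nat_lit 32) (.e (nat_lit 475204) (nat_lit 40) .nil)))) (.g (nat_lit 0) (.e (nat_lit 417210) (nat_lit 0) .nil) .nil))) 
(.lf (nat_lit 599972) (.g (nat_lit 4140) (.e (nat_lit 557085) (nat_lit 11) (.e (nat_lit 24665) (nat_lit 14) (.e (nat_lit 401414) (nat_lit 0) (.e (nat_lit 3238) (nat_lit 197) (.e (nat_lit 532549) (nat_lit 12) (.e (nat_lit 360473) (nat_lit 8) .nil)))))) (.g (nat_lit 1) (.e (nat_lit 418643) (nat_lit 0) .nil) .nil)))))) (.nd (nat_lit 7) (.nd (nat_lit 8) (.nd (nat_lit 9) 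
(.lf (nat_lit 599140) (.g (nat_lit 1077) (.e (nat_lit 573489) (nat_lit 14) (.e (nat_lit 73755) (nat_lit 8) (.e (nat_lit 557103) (nat_lit 14) (.e (nat_lit 188160) (nat_lit 3) .nil)))) (.g (nat_lit 0) (.e (nat_lit 416237) (nat_lit 0) .nil) .nil))) 
(.lf (nat_lit 599652) (.g (nat_lit 722) (.e (nat_lit 573493) (nat_lit 15) (.e (nat_lit 81953) (nat_lit 22) (.e (nat_lit 90121) (nat_lit 9) .nil))) (.g (nat_lit 0) (.e (nat_lit 417651) (nat_lit 0) .nil) .nil)))) (.nd (nat_lit 9) 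
(.lf (nat_lit 599396) (.g (nat_lit 1879) (.e (nat_lit 573491) (nat_lit 15) (.e (nat_lit 81954) (nat_lit 23) (.e (nat_lit 98356) (nat_lit 26) (.e (nat_lit 426397) (nat_lit 15) .nil)))) (.g (nat_lit 0) (.e (nat_lit 417065) (nat_lit 0) .nil) .nil))) 
(.lf (nat_lit 599908) (.g (nat_lit 2295) (.e (nat_lit 557070) (nat_lit 9) (.e (nat_lit 253) (nat_lit 21) (.e (nat_lit 335894) (nat_lit 0) (.e (nat_lit 6712) (nat_lit 360) (.e (nat_lit 163962) (nat_lit 25) .nil))))) (.g (nat_lit 0) (.e (nat_lit 418519) (nat_lit 0) .nil) .nil))))) (.nd (nat_lit 8) (.nd (nat_lit 9) 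
(.lf (nat_lit 599268) (.g (nat_lit 1804) (.e (nat_lit 573490) (nat_lit 15) (.e (nat_lit 81954) (nat_lit 23) (.e (nat_lit 98367) (nat_lit 27) (.e (nat_lit 434209) (nat_lit 18) .nil)))) (.g (nat_lit 0) (.e (nat_lit 416710) (nat_lit 0) .nil) .nil))) 
(.lf (nat_lit 599780) (.g (nat_lit 2000) (.e (nat_lit 581651) (nat_lit 4) (.e (nat_lit 172106) (nat_lit 10) (.e (nat_lit 434295) (nat_lit 49) (.e (nat_lit 745491) (nat_lit 4) (.e (nat_lit 65617) (nat_lit 10) (.e (nat_lit 344138) (nat_lit 29) .nil)))))) (.g (nat_lit 1) (.e (nat_lit 417969) (nat_lit 0) .nil) .nil)))) (.nd (nat_lit 9) 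
(.lf (nat_lit 599524) (.g (nat_lit 1523) (.e (nat_lit 573491) (nat_lit 15) (.e (nat_lit 81956) (nat_lit 23) (.e (nat_lit 98363) (nat_lit 26) (.e (nat_lit 426391) (nat_lit 15) .nil)))) (.g (nat_lit 0) (.e (nat_lit 417278) (nat_lit 0) .nil) .nil))) 
(.lf (nat_lit 600036) (.g (nat_lit 4668) (.e (nat_lit 557089) (nat_lit 12) (.e (nat_lit 163849) (nat_lit 0) (.e (nat_lit 6255) (nat_lit 337) (.e (nat_lit 2630) (nat_lit 164) (.e (nat_lit 172064) (nat_lit 2) (.e (nat_lit 196666) (nat_lit 13) (.e (nat_lit 65617) (nat_lit 10) (.e (nat_lit 344130) (nat_lit 26) .nil)))))))) (.g (nat_lit 1) (.e (nat_lit 418743) (nat_lit 0) .nil) .nil)))))))) 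
(.nd (nat_lit 5) (.nd (nat_lit 6) (.nd (nat_lit 7) (.nd (nat_lit 8) (.nd (nat_lit 9) 
(.lf (nat_lit 599060) (.g (nat_lit 3111) (.e (nat_lit 573489) (nat_lit 14) (.e (nat_lit 73755) (nat_lit 8) (.e (nat_lit 557090) (nat_lit 12) (.e (nat_lit 163999) (nat_lit 38) (.e (nat_lit 639008) (nat_lit 13) .nil))))) (.g (nat_lit 0) (.e (nat_lit 415985) (nat_lit 0) .nil) .nil))) 
(.lf (nat_lit 599572) (.g (nat_lit 1449) (.e (nat_lit 573492) (nat_lit 15) (.e (nat_lit 81954) (nat_lit 23) (.e (nat_lit 98367) (nat_lit 27) (.e (nat_lit 434272) (nat_lit 38) .nil)))) (.g (nat_lit 0) (.e (nat_lit 417437) (nat_lit 0) .nil) .nil)))) (.nd (nat_lit 9) 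
(.lf (nat_lit 599316) (.g (nat_lit 2572) (.e (nat_lit 573491) (nat_lit 15) (.e (nat_lit 81951) (nat_lit 22) (.e (nat_lit 90165) (nat_lit 12) (.e (nat_lit 164208) (nat_lit 176) (.e (nat_lit 2781) (nat_lit 178) (.e (nat_lit 286765) (nat_lit 15) (.e (nat_lit 3308) (nat_lit 202) .nil))))))) (.g (nat_lit 1) (.e (nat_lit 416873) (nat_lit 0) .nil) .nil))) 
(.lf (nat_lit 599828) (.g (nat_lit 349) (.e (nat_lit 564992) (nat_lit 6) (.e (nat_lit 81942) (nat_lit 20) (.e (nat_lit 2390) (nat_lit 156) (.e (nat_lit 819221) (nat_lit 6) (.e (nat_lit 188428) (nat_lit 20) .nil))))) (.g (nat_lit 0) (.e (nat_lit 418214) (nat_lit 0) .nil) .nil))))) (.nd (nat_lit 8) (.nd (nat_lit 9) 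
(.lf (nat_lit 599188) (.g (nat_lit 2233) (.e (nat_lit 573489) (nat_lit 14) (.e (nat_lit 73755) (nat_lit 8) (.e (nat_lit 557105) (nat_lit 14) (.e (nat_lit 180243) (nat_lit 5) (.e (nat_lit 532484) (nat_lit 0) .nil))))) (.g (nat_lit 0) (.e (nat_lit 416391) (nat_lit 0) .nil) .nil))) 
(.lf (nat_lit 599700) (.g (nat_lit 2146) (.e (nat_lit 573493) (nat_lit 15) (.e (nat_lit 81956) (nat_lit 23) (.e (nat_lit 98350) (nat_lit 24) (.e (nat_lit 409614) (nat_lit 10) .nil)))) (.g (nat_lit 0) (.e (nat_lit 417728) (nat_lit 0) .nil) .nil)))) (.nd (nat_lit 9) 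
(.lf (nat_lit 599444) (.g (nat_lit 4319) (.e (nat_lit 573491) (nat_lit 15) (.e (nat_lit 81954) (nat_lit 23) (.e (nat_lit 98367) (nat_lit 27) (.e (nat_lit 434271) (nat_lit 38) (.e (nat_lit 655375) (nat_lit 3) (.e (nat_lit 163979) (nat_lit 30) .nil)))))) (.g (nat_lit 1) (.e (nat_lit 417179) (nat_lit 0) .nil) .nil))) 
(.lf (nat_lit 599956) (.g (nat_lit 1272) (.e (nat_lit 557073) (nat_lit 9) (.e (nat_lit 290) (nat_lit 21) (.e (nat_lit 336231) (nat_lit 14) (.e (nat_lit 401408) (nat_lit 0) .nil)))) (.g (nat_lit 0) (.e (nat_lit 418610) (nat_lit 0) .nil) .nil)))))) (.nd (nat_lit 7) (.nd (nat_lit 8) (.nd (nat_lit 9) 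
(.lf (nat_lit 599124) (.g (nat_lit 381) (.e (nat_lit 573489) (nat_lit 14) (.e (nat_lit 73755) (nat_lit 8) (.e (nat_lit 557103) (nat_lit 14) .nil))) (.g (nat_lit 0) (.e (nat_lit 416153) (nat_lit 0) .nil) .nil))) 
(.lf (nat_lit 599636) (.g (nat_lit 2911) (.e (nat_lit 573492) (nat_lit 15) (.e (nat_lit 81956) (nat_lit 23) (.e (nat_lit 98387) (nat_lit 33) (.e (nat_lit 491549) (nat_lit 9) (.e (nat_lit 336284) (nat_lit 15) (.e (nat_lit 3302) (nat_lit 202) .nil)))))) (.g (nat_lit 1) (.e (nat_lit 417599) (nat_lit 0) .nil) .nil)))) (.nd (nat_lit 9) 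
(.lf (nat_lit 599380) (.g (nat_lit 2850) (.e (nat_lit 573491) (nat_lit 15) (.e (nat_lit 81954) (nat_lit 23) (.e (nat_lit 98325) (nat_lit 17) (.e (nat_lit 6986) (nat_lit 377) (.e (nat_lit 2782) (nat_lit 178) (.e (nat_lit 286765) (nat_lit 15) (.e (nat_lit 3308) (nat_lit 202) .nil))))))) (.g (nat_lit 1) (.e (nat_lit 417006) (nat_lit 0) .nil) .nil))) 
(.lf (nat_lit 599892) (.g (nat_lit 1655) (.e (nat_lit 557067) (nat_lit 9) (.e (nat_lit 3022) (nat_lit 187) (.e (nat_lit 450580) (nat_lit 5) (.e (nat_lit 532555) (nat_lit 13) (.e (nat_lit 368662) (nat_lit 18) .nil))))) (.g (nat_lit 0) (.e (nat_lit 418429) (nat_lit 0) .nil) .nil))))) (.nd (nat_lit 8) (.nd (nat_lit 9) 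
(.lf (nat_lit 599252) (.g (nat_lit 3127) (.e (nat_lit 573489) (nat_lit 14) (.e (nat_lit 73755) (nat_lit 8) (.e (nat_lit 557119) (nat_lit 18) (.e (nat_lit 2797) (nat_lit 180) (.e (nat_lit 303110) (nat_lit 0) (.e (nat_lit 7936) (nat_lit 200) (.e (nat_lit 557105) (nat_lit 14) (.e (nat_lit 180252) (nat_lit 10) .nil)))))))) (.g (nat_lit 1) (.e (nat_lit 416650) (nat_lit 0) .nil) .nil))) 
(.lf (nat_lit 599764) (.g (nat_lit 2059) (.e (nat_lit 581636) (nat_lit 0) (.e (nat_lit 3016) (nat_lit 187) (.e (nat_lit 450563) (nat_lit 0) (.e (nat_lit 6830) (nat_lit 367) (.e (nat_lit 57412) (nat_lit 12) .nil))))) (.g (nat_lit 0) (.e (nat_lit 417902) (nat_lit 0) .nil) .nil)))) (.nd (nat_lit 9) 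
(.lf (nat_lit 599508) (.g (nat_lit 421) (.e (nat_lit 573491) (nat_lit 15) (.e (nat_lit 81956) (nat_lit 23) (.e (nat_lit 98320) (nat_lit 17) .nil))) (.g (nat_lit 0) (.e (nat_lit 417260) (nat_lit 0) .nil) .nil))) 
(.lf (nat_lit 600020) (.g (nat_lit 4471) (.e (nat_lit 557089) (nat_lit 12) (.e (nat_lit 163844) (nat_lit 0) (.e (nat_lit 6254) (nat_lit 337) (.e (nat_lit 2630) (nat_lit 164) (.e (nat_lit 172064) (nat_lit 2) (.e (nat_lit 196666) (nat_lit 13) (.e (nat_lit 65617) (nat_lit 10) (.e (nat_lit 344130) (nat_lit 26) .nil)))))))) (.g (nat_lit 1) (.e (nat_lit 418711) (nat_lit 0) .nil) .nil))))))) 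
(.nd (nat_lit 6) (.nd (nat_lit 7) (.nd (nat_lit 8) (.nd (nat_lit 9) 
(.lf (nat_lit 599092) (.g (nat_lit 2520) (.e (nat_lit 573489) (nat_lit 14) (.e (nat_lit 73755) (nat_lit 8) (.e (nat_lit 557097) (nat_lit 13) (.e (nat_lit 172067) (nat_lit 3) (.e (nat_lit 204816) (nat_lit 17) (.e (nat_lit 2273) (nat_lit 149) (.e (nat_lit 761897) (nat_lit 15) (.e (nat_lit 163979) (nat_lit 30) .nil)))))))) (.g (nat_lit 1) (.e (nat_lit 416058) (nat_lit 0) .nil) .nil))) 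
(.lf (nat_lit 599604) (.g (nat_lit 3457) (.e (nat_lit 573492) (nat_lit 15) (.e (nat_lit 81956) (nat_lit 23) (.e (nat_lit 98361) (nat_lit 26) (.e (nat_lit 426412) (nat_lit 15) (.e (nat_lit 2059) (nat_lit 142) (.e (nat_lit 704589) (nat_lit 3) (.e (nat_lit 163976) (nat_lit 30) .nil))))))) (.g (nat_lit 1) (.e (nat_lit 417529) (nat_lit 0) .nil) .nil)))) (.nd (nat_lit 9) 
(.lf (nat_lit 599348) (.g (nat_lit 1566) (.e (nat_lit 573491) (nat_lit 15) (.e (nat_lit 81951) (nat_lit 22) (.e (nat_lit 90170) (nat_lit 13) (.e (nat_lit 172136) (nat_lit 15) .nil)))) (.g (nat_lit 0) (.e (nat_lit 416958) (nat_lit 0) .nil) .nil))) 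
(.lf (nat_lit 599860) (.g (nat_lit 1937) (.e (nat_lit 557065) (nat_lit 9) (.e (nat_lit 3044) (nat_lit 189) (.e (nat_lit 466977) (nat_lit 22) (.e (nat_lit 196681) (nat_lit 17) (.e (nat_lit 131089) (nat_lit 1) (.e (nat_lit 57930) (nat_lit 282) (.e (nat_lit 163842) (nat_lit 0) (.e (nat_lit 7936) (nat_lit 200) .nil)))))))) (.g (nat_lit 1) (.e (nat_lit 418310) (nat_lit 0) .nil) .nil))))) 
(.nd (nat_lit 8) (.nd (nat_lit 9) 
(.lf (nat_lit 599220) (.g (nat_lit 4204) (.e (nat_lit 573489) (nat_lit 14) (.e (nat_lit 73755) (nat_lit 8) (.e (nat_lit 557105) (nat_lit 14) (.e (nat_lit 180252) (nat_lit 10) (.e (nat_lit 573474) (nat_lit 12) (.e (nat_lit 57503) (nat_lit 38) (.e (nat_lit 638983) (nat_lit 5) (.e (nat_lit 2472) (nat_lit 157) (.e (nat_lit 3307) (nat_lit 202) .nil))))))))) (.g (nat_lit 1) (.e (nat_lit 416589) (nat_lit 0) .nil) .nil))) 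
(.lf (nat_lit 599732) (.g (nat_lit 1108) (.e (nat_lit 573503) (nat_lit 18) (.e (nat_lit 1348) (nat_lit 102) (.e (nat_lit 286739) (nat_lit 7) (.e (nat_lit 319500) (nat_lit 10) (.e (nat_lit 806) (nat_lit 67) .nil))))) (.g (nat_lit 0) (.e (nat_lit 417820) (nat_lit 0) .nil) .nil)))) (.nd (nat_lit 9) 
(.lf (nat_lit 599476) (.g (nat_lit 2210) (.e (nat_lit 573491) (nat_lit 15) (.e (nat_lit 81954) (nat_lit 23) (.e (nat_lit 98385) (nat_lit 32) (.e (nat_lit 475197) (nat_lit 40) (.e (nat_lit 704589) (nat_lit 3) (.e (nat_lit 163976) (nat_lit 30) .nil)))))) (.g (nat_lit 1) (.e (nat_lit 417227) (nat_lit 0) .nil) .nil))) 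
(.lf (nat_lit 599988) (.g (nat_lit 439) (.e (nat_lit 557087) (nat_lit 11) (.e (nat_lit 24584) (nat_lit 0) (.e (nat_lit 6225) (nat_lit 334) .nil))) (.g (nat_lit 0) (.e (nat_lit 418668) (nat_lit 0) .nil) .nil)))))) (.nd (nat_lit 7) (.nd (nat_lit 8) (.nd (nat_lit 9) 
(.lf (nat_lit 599156) (.g (nat_lit 1449) (.e (nat_lit 573489) (nat_lit 14) (.e (nat_lit 73755) (nat_lit 8) (.e (nat_lit 557104) (nat_lit 14) (.e (nat_lit 180242) (nat_lit 5) .nil)))) (.g (nat_lit 0) (.e (nat_lit 416269) (nat_lit 0) .nil) .nil))) 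
(.lf (nat_lit 599668) (.g (nat_lit 2283) (.e (nat_lit 573493) (nat_lit 15) (.e (nat_lit 81953) (nat_lit 22) (.e (nat_lit 90170) (nat_lit 13) (.e (nat_lit 172045) (nat_lit 0) .nil)))) (.g (nat_lit 0) (.e (nat_lit 417671) (nat_lit 0) .nil) .nil)))) (.nd (nat_lit 9) 
(.lf (nat_lit 599412) (.g (nat_lit 1550) (.e (nat_lit 573491) (nat_lit 15) (.e (nat_lit 81954) (nat_lit 23) (.e (nat_lit 98359) (nat_lit 26) (.e (nat_lit 426047) (nat_lit 0) .nil)))) (.g (nat_lit 0) (.e (nat_lit 417097) (nat_lit 0) .nil) .nil))) 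
(.lf (nat_lit 599924) (.g (nat_lit 2354) (.e (nat_lit 557070) (nat_lit 9) (.e (nat_lit 2744) (nat_lit 174) (.e (nat_lit 253991) (nat_lit 11) (.e (nat_lit 16416) (nat_lit 3) (.e (nat_lit 204876) (nat_lit 31) .nil))))) (.g (nat_lit 0) (.e (nat_lit 418539) (nat_lit 0) .nil) .nil))))) (.nd (nat_lit 8) (.nd (nat_lit 9) 
(.lf (nat_lit 599284) (.g (nat_lit 1181) (.e (nat_lit 573491) (nat_lit 15) (.e (nat_lit 81942) (nat_lit 20) (.e (nat_lit 1842) (nat_lit 123) (.e (nat_lit 548891) (nat_lit 11) (.e (nat_lit 81924) (nat_lit 0) .nil))))) (.g (nat_lit 0) (.e (nat_lit 416762) (nat_lit 0) .nil) .nil))) 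
(.lf (nat_lit 599796) (.g (nat_lit 726) (.e (nat_lit 581652) (nat_lit 5) (.e (nat_lit 180288) (nat_lit 45) (.e (nat_lit 2579) (nat_lit 161) (.e (nat_lit 40964) (nat_lit 0) (.e (nat_lit 1582) (nat_lit 111) (.e (nat_lit 368384) (nat_lit 11) .nil)))))) (.g (nat_lit 1) (.e (nat_lit 418109) (nat_lit 0) .nil) .nil)))) (.nd (nat_lit 9) 
(.lf (nat_lit 599540) (.g (nat_lit 1020) (.e (nat_lit 573491) (nat_lit 15) (.e (nat_lit 81956) (nat_lit 23) (.e (nat_lit 98387) (nat_lit 33) (.e (nat_lit 491550) (nat_lit 9) .nil)))) (.g (nat_lit 0) (.e (nat_lit 417300) (nat_lit 0) .nil) .nil))) 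
(.lf (nat_lit 600052) (.g (nat_lit 4996) (.e (nat_lit 557090) (nat_lit 12) (.e (nat_lit 163843) (nat_lit 0) (.e (nat_lit 6254) (nat_lit 337) (.e (nat_lit 2630) (nat_lit 164) (.e (nat_lit 172062) (nat_lit 2) (.e (nat_lit 196666) (nat_lit 13) (.e (nat_lit 65617) (nat_lit 10) (.e (nat_lit 344130) (nat_lit 26) .nil)))))))) (.g (nat_lit 1) (.e (nat_lit 418782) (nat_lit 0) .nil) .nil))))))))) 
(.nd (nat_lit 4) (.nd (nat_lit 5) (.nd (nat_lit 6) (.nd (nat_lit 7) (.nd (nat_lit 8) 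
(.nd (nat_lit 9) 
(.lf (nat_lit 599052) (.g (nat_lit 2202) (.e (nat_lit 573489) (nat_lit 14) (.e (nat_lit 73755) (nat_lit 8) (.e (nat_lit 557090) (nat_lit 12) (.e (nat_lit 163843) (nat_lit 0) (.e (nat_lit 5943) (nat_lit 322) .nil))))) (.g (nat_lit 0) (.e (nat_lit 415967) (nat_lit 0) .nil) .nil))) 
(.lf (nat_lit 599564) (.g (nat_lit 1128) (.e (nat_lit 573492) (nat_lit 15) (.e (nat_lit 81953) (nat_lit 22) (.e (nat_lit 90168) (nat_lit 13) .nil))) (.g (nat_lit 0) (.e (nat_lit 417390) (nat_lit 0) .nil) .nil)))) (.nd (nat_lit 9) 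
(.lf (nat_lit 599308) (.g (nat_lit 1109) (.e (nat_lit 573491) (nat_lit 15) (.e (nat_lit 81947) (nat_lit 20) (.e (nat_lit 1842) (nat_lit 123) (.e (nat_lit 548889) (nat_lit 9) .nil)))) (.g (nat_lit 0) (.e (nat_lit 416853) (nat_lit 0) .nil) .nil))) 
(.lf (nat_lit 599820) (.g (nat_lit 1621) (.e (nat_lit 557061) (nat_lit 0) (.e (nat_lit 1597) (nat_lit 111) (.e (nat_lit 360493) (nat_lit 27) (.e (nat_lit 819204) (nat_lit 0) (.e (nat_lit 3015) (nat_lit 187) (.e (nat_lit 458496) (nat_lit 8) .nil)))))) (.g (nat_lit 1) (.e (nat_lit 418196) (nat_lit 0) .nil) .nil))))) (.nd (nat_lit 8) (.nd (nat_lit 9) 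
(.lf (nat_lit 599180) (.g (nat_lit 2865) (.e (nat_lit 573489) (nat_lit 14) (.e (nat_lit 73755) (nat_lit 8) (.e (nat_lit 557104) (nat_lit 14) (.e (nat_lit 180252) (nat_lit 10) (.e (nat_lit 573474) (nat_lit 12) (.e (nat_lit 57504) (nat_lit 38) (.e (nat_lit 638995) (nat_lit 7) (.e (nat_lit 163977) (nat_lit 30) .nil)))))))) (.g (nat_lit 1) (.e (nat_lit 416373) (nat_lit 0) .nil) .nil))) 
(.lf (nat_lit 599692) (.g (nat_lit 814) (.e (nat_lit 573493) (nat_lit 15) (.e (nat_lit 81956) (nat_lit 23) (.e (nat_lit 98322) (nat_lit 17) .nil))) (.g (nat_lit 0) (.e (nat_lit 417711) (nat_lit 0) .nil) .nil)))) (.nd (nat_lit 9) 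
(.lf (nat_lit 599436) (.g (nat_lit 3372) (.e (nat_lit 573491) (nat_lit 15) (.e (nat_lit 81954) (nat_lit 23) (.e (nat_lit 98366) (nat_lit 27) (.e (nat_lit 434272) (nat_lit 38) (.e (nat_lit 655373) (nat_lit 3) (.e (nat_lit 163979) (nat_lit 30) .nil)))))) (.g (nat_lit 1) (.e (nat_lit 417157) (nat_lit 0) .nil) .nil))) 
(.lf (nat_lit 599948) (.g (nat_lit 485) (.e (nat_lit 557072) (nat_lit 9) (.e (nat_lit 3098) (nat_lit 192) (.e (nat_lit 491571) (nat_lit 13) .nil))) (.g (nat_lit 0) (.e (nat_lit 418594) (nat_lit 0) .nil) .nil)))))) (.nd (nat_lit 7) (.nd (nat_lit 8) (.nd (nat_lit 9) 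
(.lf (nat_lit 599116) (.g (nat_lit 4284) (.e (nat_lit 573489) (nat_lit 14) (.e (nat_lit 73755) (nat_lit 8) (.e (nat_lit 557098) (nat_lit 13) (.e (nat_lit 179968) (nat_lit 18) (.e (nat_lit 98334) (nat_lit 18) (.e (nat_lit 164330) (nat_lit 230) (.e (nat_lit 163851) (nat_lit 0) (.e (nat_lit 3307) (nat_lit 202) .nil)))))))) (.g (nat_lit 1) (.e (nat_lit 416128) (nat_lit 0) .nil) .nil))) 
(.lf (nat_lit 599628) (.g (nat_lit 4819) (.e (nat_lit 573492) (nat_lit 15) (.e (nat_lit 81956) (nat_lit 23) (.e (nat_lit 98384) (nat_lit 32) (.e (nat_lit 475210) (nat_lit 41) (.e (nat_lit 712722) (nat_lit 15) (.e (nat_lit 3302) (nat_lit 202) .nil)))))) (.g (nat_lit 1) (.e (nat_lit 417588) (nat_lit 0) .nil) .nil)))) (.nd (nat_lit 9) 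
(.lf (nat_lit 599372) (.g (nat_lit 1203) (.e (nat_lit 573491) (nat_lit 15) (.e (nat_lit 81954) (nat_lit 23) (.e (nat_lit 98325) (nat_lit 17) (.e (nat_lit 6966) (nat_lit 377) (.e (nat_lit 2779) (nat_lit 178) .nil))))) (.g (nat_lit 0) (.e (nat_lit 416998) (nat_lit 0) .nil) .nil))) 
(.lf (nat_lit 599884) (.g (nat_lit 2846) (.e (nat_lit 557067) (nat_lit 9) (.e (nat_lit 2878) (nat_lit 184) (.e (nat_lit 426125) (nat_lit 2) (.e (nat_lit 196661) (nat_lit 12) (.e (nat_lit 57353) (nat_lit 0) .nil))))) (.g (nat_lit 0) (.e (nat_lit 418387) (nat_lit 0) .nil) .nil))))) (.nd (nat_lit 8) (.nd (nat_lit 9) 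
(.lf (nat_lit 599244) (.g (nat_lit 2879) (.e (nat_lit 573489) (nat_lit 14) (.e (nat_lit 73755) (nat_lit 8) (.e (nat_lit 557105) (nat_lit 14) (.e (nat_lit 180252) (nat_lit 10) (.e (nat_lit 573476) (nat_lit 12) (.e (nat_lit 57502) (nat_lit 38) (.e (nat_lit 638995) (nat_lit 7) (.e (nat_lit 163978) (nat_lit 30) .nil)))))))) (.g (nat_lit 1) (.e (nat_lit 416623) (nat_lit 0) .nil) .nil))) 
(.lf (nat_lit 599756) (.g (nat_lit 2123) (.e (nat_lit 581635) (nat_lit 0) (.e (nat_lit 3015) (nat_lit 187) (.e (nat_lit 450563) (nat_lit 0) (.e (nat_lit 6830) (nat_lit 367) (.e (nat_lit 57426) (nat_lit 15) .nil))))) (.g (nat_lit 0) (.e (nat_lit 417877) (nat_lit 0) .nil) .nil)))) (.nd (nat_lit 9) 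
(.lf (nat_lit 599500) (.g (nat_lit 771) (.e (nat_lit 573491) (nat_lit 15) (.e (nat_lit 81954) (nat_lit 23) (.e (nat_lit 98389) (nat_lit 33) (.e (nat_lit 499456) (nat_lit 9) .nil)))) (.g (nat_lit 0) (.e (nat_lit 417251) (nat_lit 0) .nil) .nil))) 
(.lf (nat_lit 600012) (.g (nat_lit 1129) (.e (nat_lit 557087) (nat_lit 11) (.e (nat_lit 24665) (nat_lit 14) (.e (nat_lit 401461) (nat_lit 15) .nil))) (.g (nat_lit 0) (.e (nat_lit 418701) (nat_lit 0) .nil) .nil))))))) (.nd (nat_lit 6) (.nd (nat_lit 7) (.nd (nat_lit 8) (.nd (nat_lit 9) 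
(.lf (nat_lit 599084) (.g (nat_lit 793) (.e (nat_lit 573489) (nat_lit 14) (.e (nat_lit 73755) (nat_lit 8) (.e (nat_lit 557096) (nat_lit 13) (.e (nat_lit 172064) (nat_lit 2) .nil)))) (.g (nat_lit 0) (.e (nat_lit 416020) (nat_lit 0) .nil) .nil))) 
(.lf (nat_lit 599596) (.g (nat_lit 1684) (.e (nat_lit 573492) (nat_lit 15) (.e (nat_lit 81956) (nat_lit 23) (.e (nat_lit 98359) (nat_lit 26) (.e (nat_lit 426409) (nat_lit 15) .nil)))) (.g (nat_lit 0) (.e (nat_lit 417515) (nat_lit 0) .nil) .nil)))) (.nd (nat_lit 9) 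
(.lf (nat_lit 599340) (.g (nat_lit 3406) (.e (nat_lit 573491) (nat_lit 15) (.e (nat_lit 81951) (nat_lit 22) (.e (nat_lit 90170) (nat_lit 13) (.e (nat_lit 172049) (nat_lit 0) (.e (nat_lit 3408) (nat_lit 212) (.e (nat_lit 655373) (nat_lit 3) (.e (nat_lit 163979) (nat_lit 30) .nil))))))) (.g (nat_lit 1) (.e (nat_lit 416924) (nat_lit 0) .nil) .nil))) 
(.lf (nat_lit 599852) (.g (nat_lit 4694) (.e (nat_lit 557065) (nat_lit 9) (.e (nat_lit 3022) (nat_lit 187) (.e (nat_lit 450586) (nat_lit 10) (.e (nat_lit 573474) (nat_lit 12) (.e (nat_lit 57572) (nat_lit 54) (.e (nat_lit 770072) (nat_lit 8) (.e (nat_lit 65642) (nat_lit 15) (.e (nat_lit 7936) (nat_lit 200) .nil)))))))) (.g (nat_lit 1) (.e (nat_lit 418284) (nat_lit 0) .nil) .nil))))) 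
(.nd (nat_lit 8) (.nd (nat_lit 9) 
(.lf (nat_lit 599212) (.g (nat_lit 2826) (.e (nat_lit 573489) (nat_lit 14) (.e (nat_lit 73755) (nat_lit 8) (.e (nat_lit 557105) (nat_lit 14) (.e (nat_lit 180252) (nat_lit 10) (.e (nat_lit 573472) (nat_lit 12) (.e (nat_lit 57503) (nat_lit 38) (.e (nat_lit 638995) (nat_lit 7) (.e (nat_lit 163979) (nat_lit 30) .nil)))))))) (.g (nat_lit 1) (.e (nat_lit 416535) (nat_lit 0) .nil) .nil))) 
(.lf (nat_lit 599724) (.g (nat_lit 2400) (.e (nat_lit 573497) (nat_lit 17) (.e (nat_lit 131091) (nat_lit 2) (.e (nat_lit 90160) (nat_lit 11) (.e (nat_lit 24671) (nat_lit 15) (.e (nat_lit 7936) (nat_lit 195) .nil))))) (.g (nat_lit 0) (.e (nat_lit 417803) (nat_lit 0) .nil) .nil)))) (.nd (nat_lit 9) 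
(.lf (nat_lit 599468) (.g (nat_lit 2915) (.e (nat_lit 573491) (nat_lit 15) (.e (nat_lit 81954) (nat_lit 23) (.e (nat_lit 98384) (nat_lit 32) (.e (nat_lit 475210) (nat_lit 41) (.e (nat_lit 712720) (nat_lit 15) .nil))))) (.g (nat_lit 0) (.e (nat_lit 417218) (nat_lit 0) .nil) .nil))) 
(.lf (nat_lit 599980) (.g (nat_lit 1169) (.e (nat_lit 557086) (nat_lit 11) (.e (nat_lit 24580) (nat_lit 0) (.e (nat_lit 6712) (nat_lit 360) (.e (nat_lit 163962) (nat_lit 25) .nil)))) (.g (nat_lit 0) (.e (nat_lit 418656) (nat_lit 0) .nil) .nil)))))) (.nd (nat_lit 7) (.nd (nat_lit 8) (.nd (nat_lit 9) 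
(.lf (nat_lit 599148) (.g (nat_lit 2782) (.e (nat_lit 573489) (nat_lit 14) (.e (nat_lit 73755) (nat_lit 8) (.e (nat_lit 557103) (nat_lit 14) (.e (nat_lit 180250) (nat_lit 10) (.e (nat_lit 573475) (nat_lit 12) (.e (nat_lit 57503) (nat_lit 38) (.e (nat_lit 638985) (nat_lit 5) (.e (nat_lit 2472) (nat_lit 157) (.e (nat_lit 3307) (nat_lit 202) .nil))))))))) (.g (nat_lit 1) (.e (nat_lit 416259) (nat_lit 0) .nil) .nil))) 
(.lf (nat_lit 599660) (.g (nat_lit 907) (.e (nat_lit 573493) (nat_lit 15) (.e (nat_lit 81953) (nat_lit 22) (.e (nat_lit 90140) (nat_lit 9) .nil))) (.g (nat_lit 0) (.e (nat_lit 417661) (nat_lit 0) .nil) .nil)))) (.nd (nat_lit 9) 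
(.lf (nat_lit 599404) (.g (nat_lit 2203) (.e (nat_lit 573491) (nat_lit 15) (.e (nat_lit 81954) (nat_lit 23) (.e (nat_lit 98359) (nat_lit 26) (.e (nat_lit 426023) (nat_lit 0) (.e (nat_lit 3397) (nat_lit 211) (.e (nat_lit 647180) (nat_lit 3) (.e (nat_lit 163976) (nat_lit 30) .nil))))))) (.g (nat_lit 1) (.e (nat_lit 417078) (nat_lit 0) .nil) .nil))) 
(.lf (nat_lit 599916) (.g (nat_lit 5826) (.e (nat_lit 557070) (nat_lit 9) (.e (nat_lit 2744) (nat_lit 174) (.e (nat_lit 253991) (nat_lit 11) (.e (nat_lit 16412) (nat_lit 2) (.e (nat_lit 196674) (nat_lit 15) (.e (nat_lit 81946) (nat_lit 20) (.e (nat_lit 1858) (nat_lit 124) .nil))))))) (.g (nat_lit 1) (.e (nat_lit 418531) (nat_lit 0) .nil) .nil))))) (.nd (nat_lit 8) (.nd (nat_lit 9) 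
(.lf (nat_lit 599276) (.g (nat_lit 687) (.e (nat_lit 573490) (nat_lit 15) (.e (nat_lit 81956) (nat_lit 23) (.e (nat_lit 98356) (nat_lit 26) .nil))) (.g (nat_lit 0) (.e (nat_lit 416719) (nat_lit 0) .nil) .nil))) 
(.lf (nat_lit 599788) (.g (nat_lit 1577) (.e (nat_lit 581651) (nat_lit 4) (.e (nat_lit 172116) (nat_lit 10) (.e (nat_lit 434202) (nat_lit 18) (.e (nat_lit 6830) (nat_lit 367) (.e (nat_lit 57412) (nat_lit 12) .nil))))) (.g (nat_lit 0) (.e (nat_lit 417978) (nat_lit 0) .nil) .nil)))) (.nd (nat_lit 9) 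
(.lf (nat_lit 599532) (.g (nat_lit 2495) (.e (nat_lit 573491) (nat_lit 15) (.e (nat_lit 81956) (nat_lit 23) (.e (nat_lit 98384) (nat_lit 32) (.e (nat_lit 475201) (nat_lit 40) (.e (nat_lit 712448) (nat_lit 3) .nil))))) (.g (nat_lit 0) (.e (nat_lit 417292) (nat_lit 0) .nil) .nil))) 
(.lf (nat_lit 600044) (.g (nat_lit 851) (.e (nat_lit 557089) (nat_lit 12) (.e (nat_lit 163850) (nat_lit 0) (.e (nat_lit 6273) (nat_lit 337) (.e (nat_lit 2636) (nat_lit 165) .nil)))) (.g (nat_lit 0) (.e (nat_lit 418757) (nat_lit 0) .nil) .nil)))))))) (.nd (nat_lit 5) (.nd (nat_lit 6) (.nd (nat_lit 7) (.nd (nat_lit 8) (.nd (nat_lit 9) 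
(.lf (nat_lit 599068) (.g (nat_lit 1714) (.e (nat_lit 573489) (nat_lit 14) (.e (nat_lit 73755) (nat_lit 8) (.e (nat_lit 557090) (nat_lit 12) (.e (nat_lit 164008) (nat_lit 41) .nil)))) (.g (nat_lit 0) (.e (nat_lit 415993) (nat_lit 0) .nil) .nil))) 
(.lf (nat_lit 599580) (.g (nat_lit 2994) (.e (nat_lit 573492) (nat_lit 15) (.e (nat_lit 81954) (nat_lit 23) (.e (nat_lit 98384) (nat_lit 32) (.e (nat_lit 475211) (nat_lit 41) (.e (nat_lit 712722) (nat_lit 15) .nil))))) (.g (nat_lit 0) (.e (nat_lit 417445) (nat_lit 0) .nil) .nil)))) (.nd (nat_lit 9) 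
(.lf (nat_lit 599324) (.g (nat_lit 1494) (.e (nat_lit 573491) (nat_lit 15) (.e (nat_lit 81951) (nat_lit 22) (.e (nat_lit 90170) (nat_lit 13) (.e (nat_lit 172032) (nat_lit 0) .nil)))) (.g (nat_lit 0) (.e (nat_lit 416895) (nat_lit 0) .nil) .nil))) 
(.lf (nat_lit 599836) (.g (nat_lit 914) (.e (nat_lit 564992) (nat_lit 6) (.e (nat_lit 81947) (nat_lit 20) (.e (nat_lit 2391) (nat_lit 156) (.e (nat_lit 819221) (nat_lit 6) .nil)))) (.g (nat_lit 0) (.e (nat_lit 418222) (nat_lit 0) .nil) .nil))))) (.nd (nat_lit 8) (.nd (nat_lit 9) 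
(.lf (nat_lit 599196) (.g (nat_lit 2589) (.e (nat_lit 573489) (nat_lit 14) (.e (nat_lit 73755) (nat_lit 8) (.e (nat_lit 557105) (nat_lit 14) (.e (nat_lit 180244) (nat_lit 5) (.e (nat_lit 532503) (nat_lit 1) .nil))))) (.g (nat_lit 0) (.e (nat_lit 416420) (nat_lit 0) .nil) .nil))) 
(.lf (nat_lit 599708) (.g (nat_lit 5812) (.e (nat_lit 573493) (nat_lit 15) (.e (nat_lit 81956) (nat_lit 23) (.e (nat_lit 98365) (nat_lit 26) (.e (nat_lit 426108) (nat_lit 1) (.e (nat_lit 164345) (nat_lit 240) (.e (nat_lit 2610) (nat_lit 163) (.e (nat_lit 163977) (nat_lit 30) .nil))))))) (.g (nat_lit 1) (.e (nat_lit 417759) (nat_lit 0) .nil) .nil)))) (.nd (nat_lit 9) 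
(.lf (nat_lit 599452) (.g (nat_lit 2826) (.e (nat_lit 573491) (nat_lit 15) (.e (nat_lit 81954) (nat_lit 23) (.e (nat_lit 98384) (nat_lit 32) (.e (nat_lit 475196) (nat_lit 40) (.e (nat_lit 704589) (nat_lit 3) (.e (nat_lit 163976) (nat_lit 30) .nil)))))) (.g (nat_lit 1) (.e (nat_lit 417202) (nat_lit 0) .nil) .nil))) 
(.lf (nat_lit 599964) (.g (nat_lit 1579) (.e (nat_lit 557085) (nat_lit 11) (.e (nat_lit 24652) (nat_lit 12) (.e (nat_lit 385074) (nat_lit 31) (.e (nat_lit 573482) (nat_lit 13) .nil)))) (.g (nat_lit 0) (.e (nat_lit 418635) (nat_lit 0) .nil) .nil)))))) (.nd (nat_lit 7) (.nd (nat_lit 8) (.nd (nat_lit 9) 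
(.lf (nat_lit 599132) (.g (nat_lit 2753) (.e (nat_lit 573489) (nat_lit 14) (.e (nat_lit 73755) (nat_lit 8) (.e (nat_lit 557103) (nat_lit 14) (.e (nat_lit 180243) (nat_lit 5) (.e (nat_lit 532489) (nat_lit 0) .nil))))) (.g (nat_lit 0) (.e (nat_lit 416164) (nat_lit 0) .nil) .nil))) 
(.lf (nat_lit 599644) (.g (nat_lit 2879) (.e (nat_lit 573492) (nat_lit 15) (.e (nat_lit 81956) (nat_lit 23) (.e (nat_lit 98389) (nat_lit 33) (.e (nat_lit 491556) (nat_lit 9) (.e (nat_lit 343808) (nat_lit 15) (.e (nat_lit 3308) (nat_lit 202) .nil)))))) (.g (nat_lit 1) (.e (nat_lit 417611) (nat_lit 0) .nil) .nil)))) (.nd (nat_lit 9) 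
(.lf (nat_lit 599388) (.g (nat_lit 1913) (.e (nat_lit 573491) (nat_lit 15) (.e (nat_lit 81954) (nat_lit 23) (.e (nat_lit 98356) (nat_lit 26) (.e (nat_lit 426354) (nat_lit 15) (.e (nat_lit 2053) (nat_lit 142) .nil))))) (.g (nat_lit 0) (.e (nat_lit 417056) (nat_lit 0) .nil) .nil))) 
(.lf (nat_lit 599900) (.g (nat_lit 2930) (.e (nat_lit 557067) (nat_lit 9) (.e (nat_lit 3022) (nat_lit 187) (.e (nat_lit 450580) (nat_lit 5) (.e (nat_lit 532563) (nat_lit 15) (.e (nat_lit 385115) (nat_lit 53) (.e (nat_lit 811008) (nat_lit 0) (.e (nat_lit 621) (nat_lit 48) .nil))))))) (.g (nat_lit 1) (.e (nat_lit 418447) (nat_lit 0) .nil) .nil))))) (.nd (nat_lit 8) (.nd (nat_lit 9) 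
(.lf (nat_lit 599260) (.g (nat_lit 2215) (.e (nat_lit 573489) (nat_lit 14) (.e (nat_lit 73782) (nat_lit 32) (.e (nat_lit 2663) (nat_lit 167) (.e (nat_lit 196672) (nat_lit 15) (.e (nat_lit 81922) (nat_lit 0) .nil))))) (.g (nat_lit 0) (.e (nat_lit 416690) (nat_lit 0) .nil) .nil))) 
(.lf (nat_lit 599772) (.g (nat_lit 1583) (.e (nat_lit 581651) (nat_lit 4) (.e (nat_lit 172082) (nat_lit 7) (.e (nat_lit 409612) (nat_lit 10) (.e (nat_lit 934) (nat_lit 76) (.e (nat_lit 786470) (nat_lit 27) (.e (nat_lit 336173) (nat_lit 10) (.e (nat_lit 344138) (nat_lit 29) .nil))))))) (.g (nat_lit 1) (.e (nat_lit 417946) (nat_lit 0) .nil) .nil)))) (.nd (nat_lit 9) 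
(.lf (nat_lit 599516) (.g (nat_lit 595) (.e (nat_lit 573491) (nat_lit 15) (.e (nat_lit 81956) (nat_lit 23) (.e (nat_lit 98356) (nat_lit 26) .nil))) (.g (nat_lit 0) (.e (nat_lit 417269) (nat_lit 0) .nil) .nil))) 
(.lf (nat_lit 600028) (.g (nat_lit 4141) (.e (nat_lit 557089) (nat_lit 12) (.e (nat_lit 163848) (nat_lit 0) (.e (nat_lit 6252) (nat_lit 337) (.e (nat_lit 2630) (nat_lit 164) (.e (nat_lit 172062) (nat_lit 2) (.e (nat_lit 196666) (nat_lit 13) (.e (nat_lit 65617) (nat_lit 10) (.e (nat_lit 344130) (nat_lit 26) .nil)))))))) (.g (nat_lit 1) (.e (nat_lit 418727) (nat_lit 0) .nil) .nil))))))) 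
(.nd (nat_lit 6) (.nd (nat_lit 7) (.nd (nat_lit 8) (.nd (nat_lit 9) 
(.lf (nat_lit 599100) (.g (nat_lit 1430) (.e (nat_lit 573489) (nat_lit 14) (.e (nat_lit 73755) (nat_lit 8) (.e (nat_lit 557098) (nat_lit 13) (.e (nat_lit 172067) (nat_lit 3) .nil)))) (.g (nat_lit 0) (.e (nat_lit 416091) (nat_lit 0) .nil) .nil))) 
(.lf (nat_lit 599612) (.g (nat_lit 4594) (.e (nat_lit 573492) (nat_lit 15) (.e (nat_lit 81956) (nat_lit 23) (.e (nat_lit 98366) (nat_lit 27) (.e (nat_lit 434271) (nat_lit 38) (.e (nat_lit 655375) (nat_lit 3) (.e (nat_lit 163979) (nat_lit 30) .nil)))))) (.g (nat_lit 1) (.e (nat_lit 417549) (nat_lit 0) .nil) .nil)))) (.nd (nat_lit 9) 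
(.lf (nat_lit 599356) (.g (nat_lit 763) (.e (nat_lit 573491) (nat_lit 15) (.e (nat_lit 81953) (nat_lit 22) (.e (nat_lit 90133) (nat_lit 9) .nil))) (.g (nat_lit 0) (.e (nat_lit 416978) (nat_lit 0) .nil) .nil))) 
(.lf (nat_lit 599868) (.g (nat_lit 3230) (.e (nat_lit 557065) (nat_lit 9) (.e (nat_lit 3044) (nat_lit 189) (.e (nat_lit 466977) (nat_lit 22) (.e (nat_lit 196681) (nat_lit 17) (.e (nat_lit 131089) (nat_lit 1) (.e (nat_lit 57931) (nat_lit 282) (.e (nat_lit 163847) (nat_lit 0) (.e (nat_lit 7936) (nat_lit 200) .nil)))))))) (.g (nat_lit 1) (.e (nat_lit 418319) (nat_lit 0) .nil) .nil))))) 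
(.nd (nat_lit 8) (.nd (nat_lit 9) 
(.lf (nat_lit 599228) (.g (nat_lit 4909) (.e (nat_lit 573489) (nat_lit 14) (.e (nat_lit 73755) (nat_lit 8) (.e (nat_lit 557105) (nat_lit 14) (.e (nat_lit 180252) (nat_lit 10) (.e (nat_lit 573474) (nat_lit 12) (.e (nat_lit 57504) (nat_lit 38) (.e (nat_lit 638986) (nat_lit 5) (.e (nat_lit 2472) (nat_lit 157) (.e (nat_lit 3307) (nat_lit 202) .nil))))))))) (.g (nat_lit 1) (.e (nat_lit 416597) (nat_lit 0) .nil) .nil))) 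
(.lf (nat_lit 599740) (.g (nat_lit 2919) (.e (nat_lit 573503) (nat_lit 18) (.e (nat_lit 1348) (nat_lit 102) (.e (nat_lit 286761) (nat_lit 13) (.e (nat_lit 393251) (nat_lit 18) (.e (nat_lit 164141) (nat_lit 146) .nil))))) (.g (nat_lit 0) (.e (nat_lit 417833) (nat_lit 0) .nil) .nil)))) (.nd (nat_lit 9) 
(.lf (nat_lit 599484) (.g (nat_lit 1193) (.e (nat_lit 573491) (nat_lit 15) (.e (nat_lit 81954) (nat_lit 23) (.e (nat_lit 98386) (nat_lit 32) (.e (nat_lit 475209) (nat_lit 41) .nil)))) (.g (nat_lit 0) (.e (nat_lit 417235) (nat_lit 0) .nil) .nil))) 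
(.lf (nat_lit 599996) (.g (nat_lit 5241) (.e (nat_lit 557087) (nat_lit 11) (.e (nat_lit 24625) (nat_lit 9) (.e (nat_lit 336284) (nat_lit 15) (.e (nat_lit 3302) (nat_lit 202) (.e (nat_lit 573484) (nat_lit 13) (.e (nat_lit 65617) (nat_lit 10) (.e (nat_lit 344130) (nat_lit 26) .nil))))))) (.g (nat_lit 1) (.e (nat_lit 418681) (nat_lit 0) .nil) .nil)))))) 
(.nd (nat_lit 7) (.nd (nat_lit 8) (.nd (nat_lit 9) 
(.lf (nat_lit 599164) (.g (nat_lit 2908) (.e (nat_lit 573489) (nat_lit 14) (.e (nat_lit 73755) (nat_lit 8) (.e (nat_lit 557104) (nat_lit 14) (.e (nat_lit 180244) (nat_lit 5) (.e (nat_lit 532491) (nat_lit 0) (.e (nat_lit 2270) (nat_lit 149) (.e (nat_lit 761898) (nat_lit 15) (.e (nat_lit 163977) (nat_lit 30) .nil)))))))) (.g (nat_lit 1) (.e (nat_lit 416280) (nat_lit 0) .nil) .nil))) 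
(.lf (nat_lit 599676) (.g (nat_lit 7353) (.e (nat_lit 573493) (nat_lit 15) (.e (nat_lit 81953) (nat_lit 22) (.e (nat_lit 90185) (nat_lit 17) (.e (nat_lit 237582) (nat_lit 1) (.e (nat_lit 164348) (nat_lit 240) (.e (nat_lit 2610) (nat_lit 163) (.e (nat_lit 163979) (nat_lit 30) .nil))))))) (.g (nat_lit 1) (.e (nat_lit 417684) (nat_lit 0) .nil) .nil)))) (.nd (nat_lit 9) 
(.lf (nat_lit 599420) (.g (nat_lit 3122) (.e (nat_lit 573491) (nat_lit 15) (.e (nat_lit 81954) (nat_lit 23) (.e (nat_lit 98359) (nat_lit 26) (.e (nat_lit 426412) (nat_lit 15) (.e (nat_lit 2056) (nat_lit 142) (.e (nat_lit 704589) (nat_lit 3) (.e (nat_lit 163976) (nat_lit 30) .nil))))))) (.g (nat_lit 1) (.e (nat_lit 417117) (nat_lit 0) .nil) .nil))) 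
(.lf (nat_lit 599932) (.g (nat_lit 2185) (.e (nat_lit 557070) (nat_lit 9) (.e (nat_lit 2744) (nat_lit 174) (.e (nat_lit 253992) (nat_lit 11) (.e (nat_lit 16411) (nat_lit 2) (.e (nat_lit 196681) (nat_lit 17) (.e (nat_lit 131109) (nat_lit 9) (.e (nat_lit 335878) (nat_lit 0) (.e (nat_lit 1852) (nat_lit 124) .nil)))))))) (.g (nat_lit 1) (.e (nat_lit 418548) (nat_lit 0) .nil) .nil))))) 
(.nd (nat_lit 8) (.nd (nat_lit 9) 
(.lf (nat_lit 599292) (.g (nat_lit 889) (.e (nat_lit 573491) (nat_lit 15) (.e (nat_lit 81946) (nat_lit 20) (.e (nat_lit 1842) (nat_lit 123) (.e (nat_lit 548874) (nat_lit 5) .nil)))) (.g (nat_lit 0) (.e (nat_lit 416804) (nat_lit 0) .nil) .nil))) 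
(.lf (nat_lit 599804) (.g (nat_lit 359) (.e (nat_lit 581653) (nat_lit 6) (.e (nat_lit 188440) (nat_lit 20) (.e (nat_lit 3578) (nat_lit 223) .nil))) (.g (nat_lit 0) (.e (nat_lit 418130) (nat_lit 0) .nil) .nil)))) (.nd (nat_lit 9) 
(.lf (nat_lit 599548) (.g (nat_lit 659) (.e (nat_lit 573492) (nat_lit 15) (.e (nat_lit 81947) (nat_lit 20) (.e (nat_lit 1842) (nat_lit 123) .nil))) (.g (nat_lit 0) (.e (nat_lit 417326) (nat_lit 0) .nil) .nil))) 
(.lf (nat_lit 600060) (.g (nat_lit 4875) (.e (nat_lit 557090) (nat_lit 12) (.e (nat_lit 163847) (nat_lit 0) (.e (nat_lit 6252) (nat_lit 337) (.e (nat_lit 2630) (nat_lit 164) (.e (nat_lit 172064) (nat_lit 2) (.e (nat_lit 196666) (nat_lit 13) (.e (nat_lit 65617) (nat_lit 10) (.e (nat_lit 344130) (nat_lit 26) .nil)))))))) (.g (nat_lit 1) (.e (nat_lit 418795) (nat_lit 0) .nil) .nil))))))))))) 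
(.nd (nat_lit 2) (.nd (nat_lit 3) (.nd (nat_lit 4) (.nd (nat_lit 5) (.nd (nat_lit 6) 
(.nd (nat_lit 7) (.nd (nat_lit 8) (.nd (nat_lit 9) 
(.lf (nat_lit 599042) (.g (nat_lit 3046) (.e (nat_lit 573489) (nat_lit 14) (.e (nat_lit 73754) (nat_lit 8) (.e (nat_lit 557105) (nat_lit 14) (.e (nat_lit 180252) (nat_lit 10) (.e (nat_lit 573474) (nat_lit 12) .nil))))) (.g (nat_lit 0) (.e (nat_lit 415893) (nat_lit 0) .nil) .nil))) 
(.lf (nat_lit 599554) (.g (nat_lit 1578) (.e (nat_lit 573492) (nat_lit 15) (.e (nat_lit 81951) (nat_lit 22) (.e (nat_lit 90170) (nat_lit 13) (.e (nat_lit 172049) (nat_lit 0) .nil)))) (.g (nat_lit 0) (.e (nat_lit 417354) (nat_lit 0) .nil) .nil)))) (.nd (nat_lit 9) 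
(.lf (nat_lit 599298) (.g (nat_lit 1442) (.e (nat_lit 573491) (nat_lit 15) (.e (nat_lit 81946) (nat_lit 20) (.e (nat_lit 1858) (nat_lit 124) (.e (nat_lit 557085) (nat_lit 11) .nil)))) (.g (nat_lit 0) (.e (nat_lit 416831) (nat_lit 0) .nil) .nil))) 
(.lf (nat_lit 599810) (.g (nat_lit 1668) (.e (nat_lit 557059) (nat_lit 0) (.e (nat_lit 1582) (nat_lit 111) (.e (nat_lit 360493) (nat_lit 27) (.e (nat_lit 819204) (nat_lit 0) (.e (nat_lit 3015) (nat_lit 187) (.e (nat_lit 458496) (nat_lit 8) .nil)))))) (.g (nat_lit 1) (.e (nat_lit 418172) (nat_lit 0) .nil) .nil))))) (.nd (nat_lit 8) (.nd (nat_lit 9) 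
(.lf (nat_lit 599170) (.g (nat_lit 5249) (.e (nat_lit 573489) (nat_lit 14) (.e (nat_lit 73755) (nat_lit 8) (.e (nat_lit 557104) (nat_lit 14) (.e (nat_lit 180250) (nat_lit 10) (.e (nat_lit 573475) (nat_lit 12) (.e (nat_lit 57503) (nat_lit 38) (.e (nat_lit 638995) (nat_lit 7) (.e (nat_lit 163979) (nat_lit 30) .nil)))))))) (.g (nat_lit 1) (.e (nat_lit 416362) (nat_lit 0) .nil) .nil))) 
(.lf (nat_lit 599682) (.g (nat_lit 1186) (.e (nat_lit 573493) (nat_lit 15) (.e (nat_lit 81953) (nat_lit 22) (.e (nat_lit 90200) (nat_lit 18) .nil))) (.g (nat_lit 0) (.e (nat_lit 417692) (nat_lit 0) .nil) .nil)))) (.nd (nat_lit 9) 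
(.lf (nat_lit 599426) (.g (nat_lit 2523) (.e (nat_lit 573491) (nat_lit 15) (.e (nat_lit 81954) (nat_lit 23) (.e (nat_lit 98365) (nat_lit 26) (.e (nat_lit 426100) (nat_lit 1) (.e (nat_lit 164345) (nat_lit 240) .nil))))) (.g (nat_lit 0) (.e (nat_lit 417130) (nat_lit 0) .nil) .nil))) 
(.lf (nat_lit 599938) (.g (nat_lit 3028) (.e (nat_lit 557070) (nat_lit 9) (.e (nat_lit 2744) (nat_lit 174) (.e (nat_lit 253992) (nat_lit 11) (.e (nat_lit 16412) (nat_lit 2) (.e (nat_lit 196681) (nat_lit 17) (.e (nat_lit 131109) (nat_lit 9) (.e (nat_lit 335878) (nat_lit 0) (.e (nat_lit 1852) (nat_lit 124) .nil)))))))) (.g (nat_lit 1) (.e (nat_lit 418554) (nat_lit 0) .nil) .nil)))))) 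
(.nd (nat_lit 7) (.nd (nat_lit 8) (.nd (nat_lit 9) 
(.lf (nat_lit 599106) (.g (nat_lit 3893) (.e (nat_lit 573489) (nat_lit 14) (.e (nat_lit 73755) (nat_lit 8) (.e (nat_lit 557098) (nat_lit 13) (.e (nat_lit 172067) (nat_lit 3) (.e (nat_lit 204816) (nat_lit 17) (.e (nat_lit 2273) (nat_lit 149) (.e (nat_lit 761898) (nat_lit 15) (.e (nat_lit 163978) (nat_lit 30) .nil)))))))) (.g (nat_lit 1) (.e (nat_lit 416100) (nat_lit 0) .nil) .nil))) 
(.lf (nat_lit 599618) (.g (nat_lit 4753) (.e (nat_lit 573492) (nat_lit 15) (.e (nat_lit 81956) (nat_lit 23) (.e (nat_lit 98376) (nat_lit 30) (.e (nat_lit 458774) (nat_lit 18) (.e (nat_lit 5548) (nat_lit 306) (.e (nat_lit 2610) (nat_lit 163) (.e (nat_lit 163977) (nat_lit 30) .nil))))))) (.g (nat_lit 1) (.e (nat_lit 417574) (nat_lit 0) .nil) .nil)))) (.nd (nat_lit 9) 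
(.lf (nat_lit 599362) (.g (nat_lit 2581) (.e (nat_lit 573491) (nat_lit 15) (.e (nat_lit 81954) (nat_lit 23) (.e (nat_lit 98319) (nat_lit 17) (.e (nat_lit 7587) (nat_lit 406) (.e (nat_lit 65637) (nat_lit 15) (.e (nat_lit 3305) (nat_lit 202) .nil)))))) (.g (nat_lit 1) (.e (nat_lit 416985) (nat_lit 0) .nil) .nil))) 
(.lf (nat_lit 599874) (.g (nat_lit 2591) (.e (nat_lit 557065) (nat_lit 9) (.e (nat_lit 3098) (nat_lit 192) (.e (nat_lit 491571) (nat_lit 13) (.e (nat_lit 393251) (nat_lit 18) (.e (nat_lit 164179) (nat_lit 154) .nil))))) (.g (nat_lit 0) (.e (nat_lit 418334) (nat_lit 0) .nil) .nil))))) (.nd (nat_lit 8) (.nd (nat_lit 9) 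
(.lf (nat_lit 599234) (.g (nat_lit 3981) (.e (nat_lit 573489) (nat_lit 14) (.e (nat_lit 73755) (nat_lit 8) (.e (nat_lit 557105) (nat_lit 14) (.e (nat_lit 180252) (nat_lit 10) (.e (nat_lit 573475) (nat_lit 12) (.e (nat_lit 57503) (nat_lit 38) (.e (nat_lit 638983) (nat_lit 5) (.e (nat_lit 2472) (nat_lit 157) (.e (nat_lit 3307) (nat_lit 202) .nil))))))))) (.g (nat_lit 1) (.e (nat_lit 416611) (nat_lit 0) .nil) .nil))) 
(.lf (nat_lit 599746) (.g (nat_lit 579) (.e (nat_lit 573503) (nat_lit 18) (.e (nat_lit 1349) (nat_lit 102) (.e (nat_lit 286740) (nat_lit 7) .nil))) (.g (nat_lit 0) (.e (nat_lit 417839) (nat_lit 0) .nil) .nil)))) (.nd (nat_lit 9) 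
(.lf (nat_lit 599490) (.g (nat_lit 2569) (.e (nat_lit 573491) (nat_lit 15) (.e (nat_lit 81954) (nat_lit 23) (.e (nat_lit 98387) (nat_lit 33) (.e (nat_lit 491566) (nat_lit 12) (.e (nat_lit 385073) (nat_lit 31) .nil))))) (.g (nat_lit 1) (.e (nat_lit 417241) (nat_lit 0) .nil) .nil))) 
(.lf (nat_lit 600002) (.g (nat_lit 3482) (.e (nat_lit 557087) (nat_lit 11) (.e (nat_lit 24651) (nat_lit 12) (.e (nat_lit 385072) (nat_lit 31) (.e (nat_lit 573484) (nat_lit 13) (.e (nat_lit 65610) (nat_lit 10) (.e (nat_lit 344129) (nat_lit 26) .nil)))))) (.g (nat_lit 1) (.e (nat_lit 418688) (nat_lit 0) .nil) .nil))))))) (.nd (nat_lit 6) (.nd (nat_lit 7) (.nd (nat_lit 8) (.nd (nat_lit 9) 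
(.lf (nat_lit 599074) (.g (nat_lit 3436) (.e (nat_lit 573489) (nat_lit 14) (.e (nat_lit 73755) (nat_lit 8) (.e (nat_lit 557091) (nat_lit 12) (.e (nat_lit 163843) (nat_lit 0) (.e (nat_lit 5941) (nat_lit 322) (.e (nat_lit 57372) (nat_lit 2) (.e (nat_lit 90174) (nat_lit 14) (.e (nat_lit 180251) (nat_lit 10) .nil)))))))) (.g (nat_lit 1) (.e (nat_lit 416001) (nat_lit 0) .nil) .nil))) 
(.lf (nat_lit 599586) (.g (nat_lit 2436) (.e (nat_lit 573492) (nat_lit 15) (.e (nat_lit 81956) (nat_lit 23) (.e (nat_lit 98323) (nat_lit 17) (.e (nat_lit 6989) (nat_lit 377) (.e (nat_lit 2779) (nat_lit 178) (.e (nat_lit 294656) (nat_lit 15) (.e (nat_lit 3298) (nat_lit 202) .nil))))))) (.g (nat_lit 1) (.e (nat_lit 417457) (nat_lit 0) .nil) .nil)))) (.nd (nat_lit 9) 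
(.lf (nat_lit 599330) (.g (nat_lit 3473) (.e (nat_lit 573491) (nat_lit 15) (.e (nat_lit 81951) (nat_lit 22) (.e (nat_lit 90170) (nat_lit 13) (.e (nat_lit 172042) (nat_lit 0) (.e (nat_lit 3408) (nat_lit 212) (.e (nat_lit 655373) (nat_lit 3) (.e (nat_lit 163979) (nat_lit 30) .nil))))))) (.g (nat_lit 1) (.e (nat_lit 416909) (nat_lit 0) .nil) .nil))) 
(.lf (nat_lit 599842) (.g (nat_lit 2188) (.e (nat_lit 557065) (nat_lit 9) (.e (nat_lit 2700) (nat_lit 169) (.e (nat_lit 213030) (nat_lit 11) (.e (nat_lit 24609) (nat_lit 3) (.e (nat_lit 98372) (nat_lit 29) (.e (nat_lit 458496) (nat_lit 8) .nil)))))) (.g (nat_lit 1) (.e (nat_lit 418250) (nat_lit 0) .nil) .nil))))) (.nd (nat_lit 8) (.nd (nat_lit 9) 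
(.lf (nat_lit 599202) (.g (nat_lit 2494) (.e (nat_lit 573489) (nat_lit 14) (.e (nat_lit 73755) (nat_lit 8) (.e (nat_lit 557105) (nat_lit 14) (.e (nat_lit 180250) (nat_lit 10) (.e (nat_lit 573475) (nat_lit 12) .nil))))) (.g (nat_lit 0) (.e (nat_lit 416460) (nat_lit 0) .nil) .nil))) 
(.lf (nat_lit 599714) (.g (nat_lit 2353) (.e (nat_lit 573493) (nat_lit 15) (.e (nat_lit 81956) (nat_lit 23) (.e (nat_lit 98388) (nat_lit 33) (.e (nat_lit 491562) (nat_lit 12) (.e (nat_lit 385073) (nat_lit 31) .nil))))) (.g (nat_lit 0) (.e (nat_lit 417768) (nat_lit 0) .nil) .nil)))) (.nd (nat_lit 9) 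
(.lf (nat_lit 599458) (.g (nat_lit 2355) (.e (nat_lit 573491) (nat_lit 15) (.e (nat_lit 81954) (nat_lit 23) (.e (nat_lit 98384) (nat_lit 32) (.e (nat_lit 475200) (nat_lit 40) .nil)))) (.g (nat_lit 0) (.e (nat_lit 417208) (nat_lit 0) .nil) .nil))) 
(.lf (nat_lit 599970) (.g (nat_lit 830) (.e (nat_lit 557085) (nat_lit 11) (.e (nat_lit 24664) (nat_lit 14) (.e (nat_lit 401410) (nat_lit 0) .nil))) (.g (nat_lit 0) (.e (nat_lit 418641) (nat_lit 0) .nil) .nil)))))) (.nd (nat_lit 7) (.nd (nat_lit 8) (.nd (nat_lit 9) 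
(.lf (nat_lit 599138) (.g (nat_lit 3009) (.e (nat_lit 573489) (nat_lit 14) (.e (nat_lit 73755) (nat_lit 8) (.e (nat_lit 557103) (nat_lit 14) (.e (nat_lit 180244) (nat_lit 5) (.e (nat_lit 532490) (nat_lit 0) (.e (nat_lit 2264) (nat_lit 149) (.e (nat_lit 761899) (nat_lit 15) (.e (nat_lit 163978) (nat_lit 30) .nil)))))))) (.g (nat_lit 1) (.e (nat_lit 416183) (nat_lit 0) .nil) .nil))) 
(.lf (nat_lit 599650) (.g (nat_lit 2446) (.e (nat_lit 573493) (nat_lit 15) (.e (nat_lit 81951) (nat_lit 22) (.e (nat_lit 90170) (nat_lit 13) (.e (nat_lit 172043) (nat_lit 0) .nil)))) (.g (nat_lit 0) (.e (nat_lit 417647) (nat_lit 0) .nil) .nil)))) (.nd (nat_lit 9) 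
(.lf (nat_lit 599394) (.g (nat_lit 3033) (.e (nat_lit 573491) (nat_lit 15) (.e (nat_lit 81954) (nat_lit 23) (.e (nat_lit 98356) (nat_lit 26) (.e (nat_lit 426379) (nat_lit 15) (.e (nat_lit 2058) (nat_lit 142) (.e (nat_lit 704589) (nat_lit 3) (.e (nat_lit 163975) (nat_lit 30) .nil))))))) (.g (nat_lit 1) (.e (nat_lit 417063) (nat_lit 0) .nil) .nil))) 
(.lf (nat_lit 599906) (.g (nat_lit 1137) (.e (nat_lit 557068) (nat_lit 9) (.e (nat_lit 3096) (nat_lit 192) (.e (nat_lit 491571) (nat_lit 13) (.e (nat_lit 393251) (nat_lit 18) .nil)))) (.g (nat_lit 0) (.e (nat_lit 418516) (nat_lit 0) .nil) .nil))))) (.nd (nat_lit 8) (.nd (nat_lit 9) 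
(.lf (nat_lit 599266) (.g (nat_lit 1186) (.e (nat_lit 573490) (nat_lit 15) (.e (nat_lit 81953) (nat_lit 22) (.e (nat_lit 90171) (nat_lit 14) .nil))) (.g (nat_lit 0) (.e (nat_lit 416707) (nat_lit 0) .nil) .nil))) 
(.lf (nat_lit 599778) (.g (nat_lit 917) (.e (nat_lit 581651) (nat_lit 4) (.e (nat_lit 172106) (nat_lit 10) (.e (nat_lit 434295) (nat_lit 49) (.e (nat_lit 745490) (nat_lit 4) .nil)))) (.g (nat_lit 0) (.e (nat_lit 417967) (nat_lit 0) .nil) .nil)))) (.nd (nat_lit 9) 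
(.lf (nat_lit 599522) (.g (nat_lit 1311) (.e (nat_lit 573491) (nat_lit 15) (.e (nat_lit 81956) (nat_lit 23) (.e (nat_lit 98359) (nat_lit 26) (.e (nat_lit 426412) (nat_lit 15) .nil)))) (.g (nat_lit 0) (.e (nat_lit 417275) (nat_lit 0) .nil) .nil))) 
(.lf (nat_lit 600034) (.g (nat_lit 3553) (.e (nat_lit 557089) (nat_lit 12) (.e (nat_lit 163849) (nat_lit 0) (.e (nat_lit 6254) (nat_lit 337) (.e (nat_lit 2630) (nat_lit 164) (.e (nat_lit 172065) (nat_lit 3) (.e (nat_lit 204868) (nat_lit 29) (.e (nat_lit 360473) (nat_lit 8) .nil))))))) (.g (nat_lit 1) (.e (nat_lit 418741) (nat_lit 0) .nil) .nil)))))))) 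
(.nd (nat_lit 5) (.nd (nat_lit 6) (.nd (nat_lit 7) (.nd (nat_lit 8) (.nd (nat_lit 9) 
(.lf (nat_lit 599058) (.g (nat_lit 3169) (.e (nat_lit 573489) (nat_lit 14) (.e (nat_lit 73755) (nat_lit 8) (.e (nat_lit 557090) (nat_lit 12) (.e (nat_lit 163999) (nat_lit 38) (.e (nat_lit 639005) (nat_lit 13) .nil))))) (.g (nat_lit 0) (.e (nat_lit 415983) (nat_lit 0) .nil) .nil))) 
(.lf (nat_lit 599570) (.g (nat_lit 1831) (.e (nat_lit 573492) (nat_lit 15) (.e (nat_lit 81954) (nat_lit 23) (.e (nat_lit 98367) (nat_lit 27) (.e (nat_lit 434270) (nat_lit 38) .nil)))) (.g (nat_lit 0) (.e (nat_lit 417435) (nat_lit 0) .nil) .nil)))) (.nd (nat_lit 9) 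
(.lf (nat_lit 599314) (.g (nat_lit 3186) (.e (nat_lit 573491) (nat_lit 15) (.e (nat_lit 81951) (nat_lit 22) (.e (nat_lit 90134) (nat_lit 9) (.e (nat_lit 3098) (nat_lit 192) (.e (nat_lit 491566) (nat_lit 12) (.e (nat_lit 392960) (nat_lit 31) .nil)))))) (.g (nat_lit 1) (.e (nat_lit 416868) (nat_lit 0) .nil) .nil))) 
(.lf (nat_lit 599826) (.g (nat_lit 844) (.e (nat_lit 564992) (nat_lit 6) (.e (nat_lit 81938) (nat_lit 20) (.e (nat_lit 2390) (nat_lit 156) (.e (nat_lit 819221) (nat_lit 6) (.e (nat_lit 188428) (nat_lit 20) .nil))))) (.g (nat_lit 0) (.e (nat_lit 418212) (nat_lit 0) .nil) .nil))))) (.nd (nat_lit 8) (.nd (nat_lit 9) 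
(.lf (nat_lit 599186) (.g (nat_lit 2582) (.e (nat_lit 573489) (nat_lit 14) (.e (nat_lit 73755) (nat_lit 8) (.e (nat_lit 557104) (nat_lit 14) (.e (nat_lit 180252) (nat_lit 10) (.e (nat_lit 573478) (nat_lit 12) .nil))))) (.g (nat_lit 0) (.e (nat_lit 416379) (nat_lit 0) .nil) .nil))) 
(.lf (nat_lit 599698) (.g (nat_lit 3606) (.e (nat_lit 573493) (nat_lit 15) (.e (nat_lit 81956) (nat_lit 23) (.e (nat_lit 98349) (nat_lit 24) (.e (nat_lit 409641) (nat_lit 17) (.e (nat_lit 294966) (nat_lit 15) (.e (nat_lit 3308) (nat_lit 202) .nil)))))) (.g (nat_lit 1) (.e (nat_lit 417722) (nat_lit 0) .nil) .nil)))) (.nd (nat_lit 9) 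
(.lf (nat_lit 599442) (.g (nat_lit 3802) (.e (nat_lit 573491) (nat_lit 15) (.e (nat_lit 81954) (nat_lit 23) (.e (nat_lit 98367) (nat_lit 27) (.e (nat_lit 434271) (nat_lit 38) (.e (nat_lit 655373) (nat_lit 3) (.e (nat_lit 163979) (nat_lit 30) .nil)))))) (.g (nat_lit 1) (.e (nat_lit 417177) (nat_lit 0) .nil) .nil))) 
(.lf (nat_lit 599954) (.g (nat_lit 2447) (.e (nat_lit 557072) (nat_lit 9) (.e (nat_lit 3098) (nat_lit 192) (.e (nat_lit 491571) (nat_lit 13) (.e (nat_lit 393252) (nat_lit 18) (.e (nat_lit 164166) (nat_lit 152) .nil))))) (.g (nat_lit 0) (.e (nat_lit 418602) (nat_lit 0) .nil) .nil)))))) (.nd (nat_lit 7) (.nd (nat_lit 8) (.nd (nat_lit 9) 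
(.lf (nat_lit 599122) (.g (nat_lit 583) (.e (nat_lit 573489) (nat_lit 14) (.e (nat_lit 73755) (nat_lit 8) (.e (nat_lit 557101) (nat_lit 13) .nil))) (.g (nat_lit 0) (.e (nat_lit 416151) (nat_lit 0) .nil) .nil))) 
(.lf (nat_lit 599634) (.g (nat_lit 4766) (.e (nat_lit 573492) (nat_lit 15) (.e (nat_lit 81956) (nat_lit 23) (.e (nat_lit 98386) (nat_lit 32) (.e (nat_lit 475210) (nat_lit 41) (.e (nat_lit 712722) (nat_lit 15) (.e (nat_lit 3302) (nat_lit 202) .nil)))))) (.g (nat_lit 1) (.e (nat_lit 417597) (nat_lit 0) .nil) .nil)))) (.nd (nat_lit 9) 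
(.lf (nat_lit 599378) (.g (nat_lit 3008) (.e (nat_lit 573491) (nat_lit 15) (.e (nat_lit 81954) (nat_lit 23) (.e (nat_lit 98325) (nat_lit 17) (.e (nat_lit 6986) (nat_lit 377) (.e (nat_lit 2781) (nat_lit 178) (.e (nat_lit 286765) (nat_lit 15) (.e (nat_lit 3308) (nat_lit 202) .nil))))))) (.g (nat_lit 1) (.e (nat_lit 417004) (nat_lit 0) .nil) .nil))) 
(.lf (nat_lit 599890) (.g (nat_lit 1194) (.e (nat_lit 557067) (nat_lit 9) (.e (nat_lit 3022) (nat_lit 187) (.e (nat_lit 450580) (nat_lit 5) (.e (nat_lit 532542) (nat_lit 9) .nil)))) (.g (nat_lit 0) (.e (nat_lit 418426) (nat_lit 0) .nil) .nil))))) (.nd (nat_lit 8) (.nd (nat_lit 9) 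
(.lf (nat_lit 599250) (.g (nat_lit 3083) (.e (nat_lit 573489) (nat_lit 14) (.e (nat_lit 73755) (nat_lit 8) (.e (nat_lit 557105) (nat_lit 14) (.e (nat_lit 180252) (nat_lit 10) (.e (nat_lit 573478) (nat_lit 12) (.e (nat_lit 57502) (nat_lit 38) (.e (nat_lit 638996) (nat_lit 7) (.e (nat_lit 163977) (nat_lit 30) .nil)))))))) (.g (nat_lit 1) (.e (nat_lit 416629) (nat_lit 0) .nil) .nil))) 
(.lf (nat_lit 599762) (.g (nat_lit 643) (.e (nat_lit 581636) (nat_lit 0) (.e (nat_lit 3015) (nat_lit 187) (.e (nat_lit 450605) (nat_lit 27) (.e (nat_lit 745493) (nat_lit 6) (.e (nat_lit 81939) (nat_lit 20) .nil))))) (.g (nat_lit 0) (.e (nat_lit 417900) (nat_lit 0) .nil) .nil)))) (.nd (nat_lit 9) 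
(.lf (nat_lit 599506) (.g (nat_lit 2300) (.e (nat_lit 573491) (nat_lit 15) (.e (nat_lit 81955) (nat_lit 23) (.e (nat_lit 98386) (nat_lit 32) (.e (nat_lit 475198) (nat_lit 40) (.e (nat_lit 704589) (nat_lit 3) (.e (nat_lit 163976) (nat_lit 30) .nil)))))) (.g (nat_lit 1) (.e (nat_lit 417258) (nat_lit 0) .nil) .nil))) 
(.lf (nat_lit 600018) (.g (nat_lit 1374) (.e (nat_lit 557089) (nat_lit 12) (.e (nat_lit 163843) (nat_lit 0) (.e (nat_lit 6421) (nat_lit 341) (.e (nat_lit 163913) (nat_lit 12) .nil)))) (.g (nat_lit 0) (.e (nat_lit 418709) (nat_lit 0) .nil) .nil))))))) (.nd (nat_lit 6) (.nd (nat_lit 7) (.nd (nat_lit 8) (.nd (nat_lit 9) 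
(.lf (nat_lit 599090) (.g (nat_lit 3941) (.e (nat_lit 573489) (nat_lit 14) (.e (nat_lit 73755) (nat_lit 8) (.e (nat_lit 557097) (nat_lit 13) (.e (nat_lit 172067) (nat_lit 3) (.e (nat_lit 204814) (nat_lit 17) (.e (nat_lit 2270) (nat_lit 149) (.e (nat_lit 761899) (nat_lit 15) (.e (nat_lit 163978) (nat_lit 30) .nil)))))))) (.g (nat_lit 1) (.e (nat_lit 416056) (nat_lit 0) .nil) .nil))) 
(.lf (nat_lit 599602) (.g (nat_lit 4048) (.e (nat_lit 573492) (nat_lit 15) (.e (nat_lit 81956) (nat_lit 23) (.e (nat_lit 98360) (nat_lit 26) (.e (nat_lit 426396) (nat_lit 15) (.e (nat_lit 2059) (nat_lit 142) (.e (nat_lit 704589) (nat_lit 3) (.e (nat_lit 163976) (nat_lit 30) .nil))))))) (.g (nat_lit 1) (.e (nat_lit 417524) (nat_lit 0) .nil) .nil)))) (.nd (nat_lit 9) 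
(.lf (nat_lit 599346) (.g (nat_lit 1178) (.e (nat_lit 573491) (nat_lit 15) (.e (nat_lit 81951) (nat_lit 22) (.e (nat_lit 90170) (nat_lit 13) (.e (nat_lit 172068) (nat_lit 4) .nil)))) (.g (nat_lit 0) (.e (nat_lit 416949) (nat_lit 0) .nil) .nil))) 
(.lf (nat_lit 599858) (.g (nat_lit 1733) (.e (nat_lit 557065) (nat_lit 9) (.e (nat_lit 3044) (nat_lit 189) (.e (nat_lit 466977) (nat_lit 22) (.e (nat_lit 196681) (nat_lit 17) (.e (nat_lit 131089) (nat_lit 1) .nil))))) (.g (nat_lit 0) (.e (nat_lit 418306) (nat_lit 0) .nil) .nil))))) (.nd (nat_lit 8) (.nd (nat_lit 9) 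
(.lf (nat_lit 599218) (.g (nat_lit 4003) (.e (nat_lit 573489) (nat_lit 14) (.e (nat_lit 73755) (nat_lit 8) (.e (nat_lit 557105) (nat_lit 14) (.e (nat_lit 180252) (nat_lit 10) (.e (nat_lit 573474) (nat_lit 12) (.e (nat_lit 57500) (nat_lit 37) (.e (nat_lit 630799) (nat_lit 7) (.e (nat_lit 163976) (nat_lit 30) .nil)))))))) (.g (nat_lit 1) (.e (nat_lit 416587) (nat_lit 0) .nil) .nil))) 
(.lf (nat_lit 599730) (.g (nat_lit 3070) (.e (nat_lit 573503) (nat_lit 18) (.e (nat_lit 1348) (nat_lit 102) (.e (nat_lit 286735) (nat_lit 3) (.e (nat_lit 98342) (nat_lit 20) (.e (nat_lit 221211) (nat_lit 22) .nil))))) (.g (nat_lit 0) (.e (nat_lit 417818) (nat_lit 0) .nil) .nil)))) (.nd (nat_lit 9) 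
(.lf (nat_lit 599474) (.g (nat_lit 2998) (.e (nat_lit 573491) (nat_lit 15) (.e (nat_lit 81954) (nat_lit 23) (.e (nat_lit 98385) (nat_lit 32) (.e (nat_lit 475196) (nat_lit 40) (.e (nat_lit 704590) (nat_lit 3) (.e (nat_lit 163975) (nat_lit 30) .nil)))))) (.g (nat_lit 1) (.e (nat_lit 417225) (nat_lit 0) .nil) .nil))) 
(.lf (nat_lit 599986) (.g (nat_lit 4247) (.e (nat_lit 557087) (nat_lit 11) (.e (nat_lit 24578) (nat_lit 0) (.e (nat_lit 6619) (nat_lit 357) (.e (nat_lit 2668) (nat_lit 167) (.e (nat_lit 196666) (nat_lit 13) (.e (nat_lit 65617) (nat_lit 10) (.e (nat_lit 344130) (nat_lit 26) .nil))))))) (.g (nat_lit 1) (.e (nat_lit 418665) (nat_lit 0) .nil) .nil)))))) 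
(.nd (nat_lit 7) (.nd (nat_lit 8) (.nd (nat_lit 9) 
(.lf (nat_lit 599154) (.g (nat_lit 2326) (.e (nat_lit 573489) (nat_lit 14) (.e (nat_lit 73755) (nat_lit 8) (.e (nat_lit 557103) (nat_lit 14) (.e (nat_lit 180252) (nat_lit 10) (.e (nat_lit 573475) (nat_lit 12) .nil))))) (.g (nat_lit 0) (.e (nat_lit 416265) (nat_lit 0) .nil) .nil))) 
(.lf (nat_lit 599666) (.g (nat_lit 2010) (.e (nat_lit 573493) (nat_lit 15) (.e (nat_lit 81953) (nat_lit 22) (.e (nat_lit 90170) (nat_lit 13) (.e (nat_lit 172041) (nat_lit 0) .nil)))) (.g (nat_lit 0) (.e (nat_lit 417669) (nat_lit 0) .nil) .nil)))) (.nd (nat_lit 9) 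
(.lf (nat_lit 599410) (.g (nat_lit 3272) (.e (nat_lit 573491) (nat_lit 15) (.e (nat_lit 81954) (nat_lit 23) (.e (nat_lit 98359) (nat_lit 26) (.e (nat_lit 426043) (nat_lit 0) (.e (nat_lit 3408) (nat_lit 212) (.e (nat_lit 655375) (nat_lit 3) (.e (nat_lit 163977) (nat_lit 30) .nil))))))) (.g (nat_lit 1) (.e (nat_lit 417094) (nat_lit 0) .nil) .nil))) 
(.lf (nat_lit 599922) (.g (nat_lit 2684) (.e (nat_lit 557070) (nat_lit 9) (.e (nat_lit 2744) (nat_lit 174) (.e (nat_lit 253991) (nat_lit 11) (.e (nat_lit 16415) (nat_lit 3) (.e (nat_lit 204855) (nat_lit 26) .nil))))) (.g (nat_lit 0) (.e (nat_lit 418537) (nat_lit 0) .nil) .nil))))) (.nd (nat_lit 8) (.nd (nat_lit 9) 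
(.lf (nat_lit 599282) (.g (nat_lit 2335) (.e (nat_lit 573490) (nat_lit 15) (.e (nat_lit 81956) (nat_lit 23) (.e (nat_lit 98384) (nat_lit 32) (.e (nat_lit 475201) (nat_lit 40) .nil)))) (.g (nat_lit 0) (.e (nat_lit 416725) (nat_lit 0) .nil) .nil))) 
(.lf (nat_lit 599794) (.g (nat_lit 742) (.e (nat_lit 581652) (nat_lit 5) (.e (nat_lit 180287) (nat_lit 45) (.e (nat_lit 2579) (nat_lit 161) (.e (nat_lit 40965) (nat_lit 0) (.e (nat_lit 1582) (nat_lit 111) (.e (nat_lit 368384) (nat_lit 11) .nil)))))) (.g (nat_lit 1) (.e (nat_lit 418107) (nat_lit 0) .nil) .nil)))) (.nd (nat_lit 9) 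
(.lf (nat_lit 599538) (.g (nat_lit 855) (.e (nat_lit 573491) (nat_lit 15) (.e (nat_lit 81956) (nat_lit 23) (.e (nat_lit 106240) (nat_lit 32) .nil))) (.g (nat_lit 0) (.e (nat_lit 417298) (nat_lit 0) .nil) .nil))) 
(.lf (nat_lit 600050) (.g (nat_lit 1586) (.e (nat_lit 557089) (nat_lit 12) (.e (nat_lit 164038) (nat_lit 55) (.e (nat_lit 786176) (nat_lit 11) (.e (nat_lit 24608) (nat_lit 3) (.e (nat_lit 98381) (nat_lit 31) (.e (nat_lit 466967) (nat_lit 20) (.e (nat_lit 7936) (nat_lit 200) .nil))))))) (.g (nat_lit 1) (.e (nat_lit 418780) (nat_lit 0) .nil) .nil))))))))) 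
(.nd (nat_lit 4) (.nd (nat_lit 5) (.nd (nat_lit 6) (.nd (nat_lit 7) (.nd (nat_lit 8) 
(.nd (nat_lit 9) 
(.lf (nat_lit 599050) (.g (nat_lit 2226) (.e (nat_lit 573489) (nat_lit 14) (.e (nat_lit 73755) (nat_lit 8) (.e (nat_lit 557090) (nat_lit 12) (.e (nat_lit 163843) (nat_lit 0) (.e (nat_lit 5942) (nat_lit 322) .nil))))) (.g (nat_lit 0) (.e (nat_lit 415965) (nat_lit 0) .nil) .nil))) 
(.lf (nat_lit 599562) (.g (nat_lit 1174) (.e (nat_lit 573492) (nat_lit 15) (.e (nat_lit 81953) (nat_lit 22) (.e (nat_lit 90163) (nat_lit 12) .nil))) (.g (nat_lit 0) (.e (nat_lit 417387) (nat_lit 0) .nil) .nil)))) (.nd (nat_lit 9) 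
(.lf (nat_lit 599306) (.g (nat_lit 1180) (.e (nat_lit 573491) (nat_lit 15) (.e (nat_lit 81947) (nat_lit 20) (.e (nat_lit 1842) (nat_lit 123) (.e (nat_lit 548873) (nat_lit 5) (.e (nat_lit 1562) (nat_lit 110) .nil))))) (.g (nat_lit 0) (.e (nat_lit 416845) (nat_lit 0) .nil) .nil))) 
(.lf (nat_lit 599818) (.g (nat_lit 443) (.e (nat_lit 557061) (nat_lit 0) (.e (nat_lit 1597) (nat_lit 111) (.e (nat_lit 360449) (nat_lit 0) .nil))) (.g (nat_lit 0) (.e (nat_lit 418192) (nat_lit 0) .nil) .nil))))) (.nd (nat_lit 8) (.nd (nat_lit 9) 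
(.lf (nat_lit 599178) (.g (nat_lit 4113) (.e (nat_lit 573489) (nat_lit 14) (.e (nat_lit 73755) (nat_lit 8) (.e (nat_lit 557104) (nat_lit 14) (.e (nat_lit 180252) (nat_lit 10) (.e (nat_lit 573473) (nat_lit 12) (.e (nat_lit 57504) (nat_lit 38) (.e (nat_lit 638995) (nat_lit 7) (.e (nat_lit 163977) (nat_lit 30) .nil)))))))) (.g (nat_lit 1) (.e (nat_lit 416371) (nat_lit 0) .nil) .nil))) 
(.lf (nat_lit 599690) (.g (nat_lit 502) (.e (nat_lit 573493) (nat_lit 15) (.e (nat_lit 81954) (nat_lit 23) (.e (nat_lit 98384) (nat_lit 32) .nil))) (.g (nat_lit 0) (.e (nat_lit 417704) (nat_lit 0) .nil) .nil)))) (.nd (nat_lit 9) 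
(.lf (nat_lit 599434) (.g (nat_lit 3417) (.e (nat_lit 573491) (nat_lit 15) (.e (nat_lit 81954) (nat_lit 23) (.e (nat_lit 98366) (nat_lit 27) (.e (nat_lit 434271) (nat_lit 38) (.e (nat_lit 655375) (nat_lit 3) (.e (nat_lit 163977) (nat_lit 30) .nil)))))) (.g (nat_lit 1) (.e (nat_lit 417155) (nat_lit 0) .nil) .nil))) 
(.lf (nat_lit 599946) (.g (nat_lit 2001) (.e (nat_lit 557072) (nat_lit 9) (.e (nat_lit 3098) (nat_lit 192) (.e (nat_lit 491569) (nat_lit 13) (.e (nat_lit 393253) (nat_lit 18) .nil)))) (.g (nat_lit 0) (.e (nat_lit 418592) (nat_lit 0) .nil) .nil)))))) (.nd (nat_lit 7) (.nd (nat_lit 8) (.nd (nat_lit 9) 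
(.lf (nat_lit 599114) (.g (nat_lit 4366) (.e (nat_lit 573489) (nat_lit 14) (.e (nat_lit 73755) (nat_lit 8) (.e (nat_lit 557098) (nat_lit 13) (.e (nat_lit 179968) (nat_lit 18) (.e (nat_lit 98333) (nat_lit 18) (.e (nat_lit 164325) (nat_lit 230) (.e (nat_lit 163851) (nat_lit 0) (.e (nat_lit 3307) (nat_lit 202) .nil)))))))) (.g (nat_lit 1) (.e (nat_lit 416126) (nat_lit 0) .nil) .nil))) 
(.lf (nat_lit 599626) (.g (nat_lit 2517) (.e (nat_lit 573492) (nat_lit 15) (.e (nat_lit 81956) (nat_lit 23) (.e (nat_lit 98384) (nat_lit 32) (.e (nat_lit 475204) (nat_lit 40) .nil)))) (.g (nat_lit 0) (.e (nat_lit 417586) (nat_lit 0) .nil) .nil)))) (.nd (nat_lit 9) 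
(.lf (nat_lit 599370) (.g (nat_lit 1595) (.e (nat_lit 573491) (nat_lit 15) (.e (nat_lit 81954) (nat_lit 23) (.e (nat_lit 98323) (nat_lit 17) (.e (nat_lit 7537) (nat_lit 402) (.e (nat_lit 1638) (nat_lit 114) .nil))))) (.g (nat_lit 0) (.e (nat_lit 416996) (nat_lit 0) .nil) .nil))) 
(.lf (nat_lit 599882) (.g (nat_lit 3266) (.e (nat_lit 557067) (nat_lit 9) (.e (nat_lit 2602) (nat_lit 163) (.e (nat_lit 164403) (nat_lit 256) (.e (nat_lit 57378) (nat_lit 3) (.e (nat_lit 98368) (nat_lit 27) (.e (nat_lit 434245) (nat_lit 28) (.e (nat_lit 573488) (nat_lit 14) (.e (nat_lit 73755) (nat_lit 8) .nil)))))))) (.g (nat_lit 1) (.e (nat_lit 418379) (nat_lit 0) .nil) .nil))))) 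
(.nd (nat_lit 8) (.nd (nat_lit 9) 
(.lf (nat_lit 599242) (.g (nat_lit 3048) (.e (nat_lit 573489) (nat_lit 14) (.e (nat_lit 73755) (nat_lit 8) (.e (nat_lit 557105) (nat_lit 14) (.e (nat_lit 180252) (nat_lit 10) (.e (nat_lit 573475) (nat_lit 12) (.e (nat_lit 57504) (nat_lit 38) (.e (nat_lit 638994) (nat_lit 7) (.e (nat_lit 163976) (nat_lit 30) .nil)))))))) (.g (nat_lit 1) (.e (nat_lit 416620) (nat_lit 0) .nil) .nil))) 
(.lf (nat_lit 599754) (.g (nat_lit 1511) (.e (nat_lit 581635) (nat_lit 0) (.e (nat_lit 3015) (nat_lit 187) (.e (nat_lit 450562) (nat_lit 0) (.e (nat_lit 6740) (nat_lit 365) .nil)))) (.g (nat_lit 0) (.e (nat_lit 417872) (nat_lit 0) .nil) .nil)))) (.nd (nat_lit 9) 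
(.lf (nat_lit 599498) (.g (nat_lit 1744) (.e (nat_lit 573491) (nat_lit 15) (.e (nat_lit 81954) (nat_lit 23) (.e (nat_lit 98389) (nat_lit 33) (.e (nat_lit 491556) (nat_lit 9) (.e (nat_lit 343808) (nat_lit 15) (.e (nat_lit 3298) (nat_lit 202) .nil)))))) (.g (nat_lit 1) (.e (nat_lit 417249) (nat_lit 0) .nil) .nil))) 
(.lf (nat_lit 600010) (.g (nat_lit 430) (.e (nat_lit 557087) (nat_lit 11) (.e (nat_lit 24665) (nat_lit 14) (.e (nat_lit 401426) (nat_lit 3) .nil))) (.g (nat_lit 0) (.e (nat_lit 418699) (nat_lit 0) .nil) .nil))))))) (.nd (nat_lit 6) (.nd (nat_lit 7) (.nd (nat_lit 8) (.nd (nat_lit 9) 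
(.lf (nat_lit 599082) (.g (nat_lit 1529) (.e (nat_lit 573489) (nat_lit 14) (.e (nat_lit 73755) (nat_lit 8) (.e (nat_lit 557091) (nat_lit 12) (.e (nat_lit 164007) (nat_lit 41) .nil)))) (.g (nat_lit 0) (.e (nat_lit 416017) (nat_lit 0) .nil) .nil))) 
(.lf (nat_lit 599594) (.g (nat_lit 1684) (.e (nat_lit 573492) (nat_lit 15) (.e (nat_lit 81956) (nat_lit 23) (.e (nat_lit 98359) (nat_lit 26) (.e (nat_lit 426365) (nat_lit 15) .nil)))) (.g (nat_lit 0) (.e (nat_lit 417513) (nat_lit 0) .nil) .nil)))) (.nd (nat_lit 9) 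
(.lf (nat_lit 599338) (.g (nat_lit 3968) (.e (nat_lit 573491) (nat_lit 15) (.e (nat_lit 81951) (nat_lit 22) (.e (nat_lit 90170) (nat_lit 13) (.e (nat_lit 172049) (nat_lit 0) (.e (nat_lit 3406) (nat_lit 212) (.e (nat_lit 655375) (nat_lit 3) (.e (nat_lit 163979) (nat_lit 30) .nil))))))) (.g (nat_lit 1) (.e (nat_lit 416920) (nat_lit 0) .nil) .nil))) 
(.lf (nat_lit 599850) (.g (nat_lit 2510) (.e (nat_lit 557065) (nat_lit 9) (.e (nat_lit 2700) (nat_lit 169) (.e (nat_lit 213032) (nat_lit 11) (.e (nat_lit 24609) (nat_lit 3) (.e (nat_lit 98373) (nat_lit 29) (.e (nat_lit 458496) (nat_lit 8) .nil)))))) (.g (nat_lit 1) (.e (nat_lit 418258) (nat_lit 0) .nil) .nil))))) (.nd (nat_lit 8) (.nd (nat_lit 9) 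
(.lf (nat_lit 599210) (.g (nat_lit 2914) (.e (nat_lit 573489) (nat_lit 14) (.e (nat_lit 73755) (nat_lit 8) (.e (nat_lit 557105) (nat_lit 14) (.e (nat_lit 180252) (nat_lit 10) (.e (nat_lit 573472) (nat_lit 12) (.e (nat_lit 57502) (nat_lit 38) (.e (nat_lit 638996) (nat_lit 7) (.e (nat_lit 163978) (nat_lit 30) .nil)))))))) (.g (nat_lit 1) (.e (nat_lit 416533) (nat_lit 0) .nil) .nil))) 
(.lf (nat_lit 599722) (.g (nat_lit 495) (.e (nat_lit 573493) (nat_lit 15) (.e (nat_lit 81959) (nat_lit 24) (.e (nat_lit 130816) (nat_lit 140) .nil))) (.g (nat_lit 0) (.e (nat_lit 417779) (nat_lit 0) .nil) .nil)))) (.nd (nat_lit 9) 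
(.lf (nat_lit 599466) (.g (nat_lit 2945) (.e (nat_lit 573491) (nat_lit 15) (.e (nat_lit 81954) (nat_lit 23) (.e (nat_lit 98384) (nat_lit 32) (.e (nat_lit 475210) (nat_lit 41) (.e (nat_lit 712716) (nat_lit 15) (.e (nat_lit 3308) (nat_lit 202) .nil)))))) (.g (nat_lit 1) (.e (nat_lit 417216) (nat_lit 0) .nil) .nil))) 
(.lf (nat_lit 599978) (.g (nat_lit 3741) (.e (nat_lit 557085) (nat_lit 11) (.e (nat_lit 24665) (nat_lit 14) (.e (nat_lit 401426) (nat_lit 3) (.e (nat_lit 204869) (nat_lit 29) (.e (nat_lit 360474) (nat_lit 8) .nil))))) (.g (nat_lit 1) (.e (nat_lit 418650) (nat_lit 0) .nil) .nil)))))) (.nd (nat_lit 7) (.nd (nat_lit 8) (.nd (nat_lit 9) 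
(.lf (nat_lit 599146) (.g (nat_lit 4107) (.e (nat_lit 573489) (nat_lit 14) (.e (nat_lit 73755) (nat_lit 8) (.e (nat_lit 557103) (nat_lit 14) (.e (nat_lit 180250) (nat_lit 10) (.e (nat_lit 573475) (nat_lit 12) (.e (nat_lit 57501) (nat_lit 37) (.e (nat_lit 630799) (nat_lit 7) (.e (nat_lit 163979) (nat_lit 30) .nil)))))))) (.g (nat_lit 1) (.e (nat_lit 416257) (nat_lit 0) .nil) .nil))) 
(.lf (nat_lit 599658) (.g (nat_lit 1066) (.e (nat_lit 573493) (nat_lit 15) (.e (nat_lit 81953) (nat_lit 22) (.e (nat_lit 90135) (nat_lit 9) .nil))) (.g (nat_lit 0) (.e (nat_lit 417658) (nat_lit 0) .nil) .nil)))) (.nd (nat_lit 9) 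
(.lf (nat_lit 599402) (.g (nat_lit 1550) (.e (nat_lit 573491) (nat_lit 15) (.e (nat_lit 81954) (nat_lit 23) (.e (nat_lit 98359) (nat_lit 26) (.e (nat_lit 426018) (nat_lit 0) .nil)))) (.g (nat_lit 0) (.e (nat_lit 417076) (nat_lit 0) .nil) .nil))) 
(.lf (nat_lit 599914) (.g (nat_lit 2483) (.e (nat_lit 557070) (nat_lit 9) (.e (nat_lit 2744) (nat_lit 174) (.e (nat_lit 253991) (nat_lit 11) (.e (nat_lit 16412) (nat_lit 2) (.e (nat_lit 196673) (nat_lit 15) .nil))))) (.g (nat_lit 0) (.e (nat_lit 418529) (nat_lit 0) .nil) .nil))))) (.nd (nat_lit 8) (.nd (nat_lit 9) 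
(.lf (nat_lit 599274) (.g (nat_lit 1640) (.e (nat_lit 573490) (nat_lit 15) (.e (nat_lit 81956) (nat_lit 23) (.e (nat_lit 98350) (nat_lit 24) (.e (nat_lit 409648) (nat_lit 18) .nil)))) (.g (nat_lit 0) (.e (nat_lit 416717) (nat_lit 0) .nil) .nil))) 
(.lf (nat_lit 599786) (.g (nat_lit 1425) (.e (nat_lit 581651) (nat_lit 4) (.e (nat_lit 172115) (nat_lit 10) (.e (nat_lit 434202) (nat_lit 18) (.e (nat_lit 6828) (nat_lit 367) (.e (nat_lit 57413) (nat_lit 12) .nil))))) (.g (nat_lit 0) (.e (nat_lit 417975) (nat_lit 0) .nil) .nil)))) (.nd (nat_lit 9) 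
(.lf (nat_lit 599530) (.g (nat_lit 3754) (.e (nat_lit 573491) (nat_lit 15) (.e (nat_lit 81956) (nat_lit 23) (.e (nat_lit 98384) (nat_lit 32) (.e (nat_lit 475198) (nat_lit 40) (.e (nat_lit 704590) (nat_lit 3) (.e (nat_lit 163975) (nat_lit 30) .nil)))))) (.g (nat_lit 1) (.e (nat_lit 417290) (nat_lit 0) .nil) .nil))) 
(.lf (nat_lit 600042) (.g (nat_lit 3953) (.e (nat_lit 557089) (nat_lit 12) (.e (nat_lit 163849) (nat_lit 0) (.e (nat_lit 6420) (nat_lit 341) (.e (nat_lit 163916) (nat_lit 13) (.e (nat_lit 434231) (nat_lit 23) (.e (nat_lit 532550) (nat_lit 12) (.e (nat_lit 360475) (nat_lit 8) .nil))))))) (.g (nat_lit 1) (.e (nat_lit 418754) (nat_lit 0) .nil) .nil)))))))) 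
(.nd (nat_lit 5) (.nd (nat_lit 6) (.nd (nat_lit 7) (.nd (nat_lit 8) (.nd (nat_lit 9) 
(.lf (nat_lit 599066) (.g (nat_lit 4907) (.e (nat_lit 573489) (nat_lit 14) (.e (nat_lit 73755) (nat_lit 8) (.e (nat_lit 557090) (nat_lit 12) (.e (nat_lit 164006) (nat_lit 41) (.e (nat_lit 663582) (nat_lit 10) (.e (nat_lit 8326) (nat_lit 69) (.e (nat_lit 557105) (nat_lit 14) (.e (nat_lit 180252) (nat_lit 10) .nil)))))))) (.g (nat_lit 1) (.e (nat_lit 415991) (nat_lit 0) .nil) .nil))) 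
(.lf (nat_lit 599578) (.g (nat_lit 2351) (.e (nat_lit 573492) (nat_lit 15) (.e (nat_lit 81954) (nat_lit 23) (.e (nat_lit 98384) (nat_lit 32) (.e (nat_lit 475205) (nat_lit 40) .nil)))) (.g (nat_lit 0) (.e (nat_lit 417443) (nat_lit 0) .nil) .nil)))) (.nd (nat_lit 9) 
(.lf (nat_lit 599322) (.g (nat_lit 5501) (.e (nat_lit 573491) (nat_lit 15) (.e (nat_lit 81951) (nat_lit 22) (.e (nat_lit 90169) (nat_lit 13) (.e (nat_lit 172133) (nat_lit 15) (.e (nat_lit 2059) (nat_lit 142) (.e (nat_lit 704589) (nat_lit 3) (.e (nat_lit 163975) (nat_lit 30) .nil))))))) (.g (nat_lit 1) (.e (nat_lit 416893) (nat_lit 0) .nil) .nil))) 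
(.lf (nat_lit 599834) (.g (nat_lit 600) (.e (nat_lit 564992) (nat_lit 6) (.e (nat_lit 81947) (nat_lit 20) (.e (nat_lit 2390) (nat_lit 156) (.e (nat_lit 819221) (nat_lit 6) .nil)))) (.g (nat_lit 0) (.e (nat_lit 418220) (nat_lit 0) .nil) .nil))))) (.nd (nat_lit 8) (.nd (nat_lit 9) 
(.lf (nat_lit 599194) (.g (nat_lit 2727) (.e (nat_lit 573489) (nat_lit 14) (.e (nat_lit 73755) (nat_lit 8) (.e (nat_lit 557105) (nat_lit 14) (.e (nat_lit 180244) (nat_lit 5) (.e (nat_lit 532491) (nat_lit 0) .nil))))) (.g (nat_lit 0) (.e (nat_lit 416406) (nat_lit 0) .nil) .nil))) 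
(.lf (nat_lit 599706) (.g (nat_lit 5860) (.e (nat_lit 573493) (nat_lit 15) (.e (nat_lit 81956) (nat_lit 23) (.e (nat_lit 98360) (nat_lit 26) (.e (nat_lit 426144) (nat_lit 4) (.e (nat_lit 229663) (nat_lit 240) (.e (nat_lit 2612) (nat_lit 163) (.e (nat_lit 163979) (nat_lit 30) .nil))))))) (.g (nat_lit 1) (.e (nat_lit 417751) (nat_lit 0) .nil) .nil)))) (.nd (nat_lit 9) 
(.lf (nat_lit 599450) (.g (nat_lit 2678) (.e (nat_lit 573491) (nat_lit 15) (.e (nat_lit 81954) (nat_lit 23) (.e (nat_lit 98384) (nat_lit 32) (.e (nat_lit 475195) (nat_lit 40) (.e (nat_lit 704589) (nat_lit 3) (.e (nat_lit 163975) (nat_lit 30) .nil)))))) (.g (nat_lit 1) (.e (nat_lit 417200) (nat_lit 0) .nil) .nil))) 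
(.lf (nat_lit 599962) (.g (nat_lit 3971) (.e (nat_lit 557085) (nat_lit 11) (.e (nat_lit 24580) (nat_lit 0) (.e (nat_lit 6619) (nat_lit 357) (.e (nat_lit 2685) (nat_lit 168) (.e (nat_lit 204869) (nat_lit 29) (.e (nat_lit 360474) (nat_lit 8) .nil)))))) (.g (nat_lit 1) (.e (nat_lit 418633) (nat_lit 0) .nil) .nil)))))) (.nd (nat_lit 7) (.nd (nat_lit 8) (.nd (nat_lit 9) 
(.lf (nat_lit 599130) (.g (nat_lit 4091) (.e (nat_lit 573489) (nat_lit 14) (.e (nat_lit 73755) (nat_lit 8) (.e (nat_lit 557103) (nat_lit 14) (.e (nat_lit 180243) (nat_lit 5) (.e (nat_lit 532484) (nat_lit 0) (.e (nat_lit 7936) (nat_lit 149) (.e (nat_lit 761899) (nat_lit 15) (.e (nat_lit 163978) (nat_lit 30) .nil)))))))) (.g (nat_lit 1) (.e (nat_lit 416162) (nat_lit 0) .nil) .nil))) 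
(.lf (nat_lit 599642) (.g (nat_lit 4046) (.e (nat_lit 573492) (nat_lit 15) (.e (nat_lit 81956) (nat_lit 23) (.e (nat_lit 98389) (nat_lit 33) (.e (nat_lit 491556) (nat_lit 9) (.e (nat_lit 336246) (nat_lit 15) (.e (nat_lit 3295) (nat_lit 202) .nil)))))) (.g (nat_lit 1) (.e (nat_lit 417608) (nat_lit 0) .nil) .nil)))) (.nd (nat_lit 9) 
(.lf (nat_lit 599386) (.g (nat_lit 2410) (.e (nat_lit 573491) (nat_lit 15) (.e (nat_lit 81954) (nat_lit 23) (.e (nat_lit 98356) (nat_lit 26) (.e (nat_lit 426354) (nat_lit 15) (.e (nat_lit 2050) (nat_lit 142) (.e (nat_lit 704589) (nat_lit 3) (.e (nat_lit 163975) (nat_lit 30) .nil))))))) (.g (nat_lit 1) (.e (nat_lit 417054) (nat_lit 0) .nil) .nil))) 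
(.lf (nat_lit 599898) (.g (nat_lit 2560) (.e (nat_lit 557067) (nat_lit 9) (.e (nat_lit 3022) (nat_lit 187) (.e (nat_lit 450580) (nat_lit 5) (.e (nat_lit 532563) (nat_lit 15) (.e (nat_lit 385115) (nat_lit 53) .nil))))) (.g (nat_lit 0) (.e (nat_lit 418445) (nat_lit 0) .nil) .nil))))) (.nd (nat_lit 8) (.nd (nat_lit 9) 
(.lf (nat_lit 599258) (.g (nat_lit 2234) (.e (nat_lit 573489) (nat_lit 14) (.e (nat_lit 73755) (nat_lit 8) (.e (nat_lit 557119) (nat_lit 18) (.e (nat_lit 2807) (nat_lit 180) (.e (nat_lit 303105) (nat_lit 0) (.e (nat_lit 7936) (nat_lit 200) (.e (nat_lit 557105) (nat_lit 14) (.e (nat_lit 180252) (nat_lit 10) .nil)))))))) (.g (nat_lit 1) (.e (nat_lit 416667) (nat_lit 0) .nil) .nil))) 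
(.lf (nat_lit 599770) (.g (nat_lit 995) (.e (nat_lit 581651) (nat_lit 4) (.e (nat_lit 172079) (nat_lit 7) (.e (nat_lit 409611) (nat_lit 10) (.e (nat_lit 934) (nat_lit 76) (.e (nat_lit 786470) (nat_lit 27) .nil))))) (.g (nat_lit 0) (.e (nat_lit 417943) (nat_lit 0) .nil) .nil)))) (.nd (nat_lit 9) 
(.lf (nat_lit 599514) (.g (nat_lit 1399) (.e (nat_lit 573491) (nat_lit 15) (.e (nat_lit 81956) (nat_lit 23) (.e (nat_lit 98334) (nat_lit 18) (.e (nat_lit 171776) (nat_lit 262) .nil)))) (.g (nat_lit 0) (.e (nat_lit 417266) (nat_lit 0) .nil) .nil))) 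
(.lf (nat_lit 600026) (.g (nat_lit 3207) (.e (nat_lit 557089) (nat_lit 12) (.e (nat_lit 163844) (nat_lit 0) (.e (nat_lit 6420) (nat_lit 341) (.e (nat_lit 163908) (nat_lit 12) (.e (nat_lit 426132) (nat_lit 3) (.e (nat_lit 204868) (nat_lit 29) (.e (nat_lit 360473) (nat_lit 8) .nil))))))) (.g (nat_lit 1) (.e (nat_lit 418722) (nat_lit 0) .nil) .nil))))))) 
(.nd (nat_lit 6) (.nd (nat_lit 7) (.nd (nat_lit 8) (.nd (nat_lit 9) 
(.lf (nat_lit 599098) (.g (nat_lit 306) (.e (nat_lit 573489) (nat_lit 14) (.e (nat_lit 73755) (nat_lit 8) (.e (nat_lit 557098) (nat_lit 13) .nil))) (.g (nat_lit 0) (.e (nat_lit 416073) (nat_lit 0) .nil) .nil))) 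
(.lf (nat_lit 599610) (.g (nat_lit 6427) (.e (nat_lit 573492) (nat_lit 15) (.e (nat_lit 81956) (nat_lit 23) (.e (nat_lit 98365) (nat_lit 26) (.e (nat_lit 426009) (nat_lit 0) (.e (nat_lit 3410) (nat_lit 212) (.e (nat_lit 655375) (nat_lit 3) (.e (nat_lit 163979) (nat_lit 30) .nil))))))) (.g (nat_lit 1) (.e (nat_lit 417536) (nat_lit 0) .nil) .nil)))) (.nd (nat_lit 9) 
(.lf (nat_lit 599354) (.g (nat_lit 1368) (.e (nat_lit 573491) (nat_lit 15) (.e (nat_lit 81951) (nat_lit 22) (.e (nat_lit 90185) (nat_lit 17) (.e (nat_lit 237582) (nat_lit 1) .nil)))) (.g (nat_lit 0) (.e (nat_lit 416970) (nat_lit 0) .nil) .nil))) 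
(.lf (nat_lit 599866) (.g (nat_lit 2463) (.e (nat_lit 557065) (nat_lit 9) (.e (nat_lit 3044) (nat_lit 189) (.e (nat_lit 466977) (nat_lit 22) (.e (nat_lit 196681) (nat_lit 17) (.e (nat_lit 131089) (nat_lit 1) (.e (nat_lit 57930) (nat_lit 282) (.e (nat_lit 163857) (nat_lit 0) (.e (nat_lit 7936) (nat_lit 200) .nil)))))))) (.g (nat_lit 1) (.e (nat_lit 418317) (nat_lit 0) .nil) .nil))))) 
(.nd (nat_lit 8) (.nd (nat_lit 9) 
(.lf (nat_lit 599226) (.g (nat_lit 2820) (.e (nat_lit 573489) (nat_lit 14) (.e (nat_lit 73755) (nat_lit 8) (.e (nat_lit 557105) (nat_lit 14) (.e (nat_lit 180252) (nat_lit 10) (.e (nat_lit 573474) (nat_lit 12) (.e (nat_lit 57503) (nat_lit 38) (.e (nat_lit 638995) (nat_lit 7) (.e (nat_lit 163973) (nat_lit 30) .nil)))))))) (.g (nat_lit 1) (.e (nat_lit 416595) (nat_lit 0) .nil) .nil))) 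
(.lf (nat_lit 599738) (.g (nat_lit 3196) (.e (nat_lit 573503) (nat_lit 18) (.e (nat_lit 1348) (nat_lit 102) (.e (nat_lit 286761) (nat_lit 13) (.e (nat_lit 393234) (nat_lit 17) (.e (nat_lit 2407) (nat_lit 157) (.e (nat_lit 6025) (nat_lit 326) (.e (nat_lit 2637) (nat_lit 165) (.e (nat_lit 180252) (nat_lit 10) .nil)))))))) (.g (nat_lit 1) (.e (nat_lit 417831) (nat_lit 0) .nil) .nil)))) 
(.nd (nat_lit 9) 
(.lf (nat_lit 599482) (.g (nat_lit 4163) (.e (nat_lit 573491) (nat_lit 15) (.e (nat_lit 81954) (nat_lit 23) (.e (nat_lit 98386) (nat_lit 32) (.e (nat_lit 475198) (nat_lit 40) (.e (nat_lit 704590) (nat_lit 3) (.e (nat_lit 163975) (nat_lit 30) .nil)))))) (.g (nat_lit 1) (.e (nat_lit 417233) (nat_lit 0) .nil) .nil))) 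
(.lf (nat_lit 599994) (.g (nat_lit 491) (.e (nat_lit 557087) (nat_lit 11) (.e (nat_lit 24625) (nat_lit 9) (.e (nat_lit 336261) (nat_lit 15) .nil))) (.g (nat_lit 0) (.e (nat_lit 418679) (nat_lit 0) .nil) .nil)))))) (.nd (nat_lit 7) (.nd (nat_lit 8) (.nd (nat_lit 9) 
(.lf (nat_lit 599162) (.g (nat_lit 3805) (.e (nat_lit 573489) (nat_lit 14) (.e (nat_lit 73755) (nat_lit 8) (.e (nat_lit 557104) (nat_lit 14) (.e (nat_lit 180244) (nat_lit 5) (.e (nat_lit 532481) (nat_lit 0) (.e (nat_lit 2272) (nat_lit 149) (.e (nat_lit 761899) (nat_lit 15) (.e (nat_lit 163978) (nat_lit 30) .nil)))))))) (.g (nat_lit 1) (.e (nat_lit 416278) (nat_lit 0) .nil) .nil))) 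
(.lf (nat_lit 599674) (.g (nat_lit 1105) (.e (nat_lit 573493) (nat_lit 15) (.e (nat_lit 81953) (nat_lit 22) (.e (nat_lit 90179) (nat_lit 16) .nil))) (.g (nat_lit 0) (.e (nat_lit 417680) (nat_lit 0) .nil) .nil)))) (.nd (nat_lit 9) 
(.lf (nat_lit 599418) (.g (nat_lit 1181) (.e (nat_lit 573491) (nat_lit 15) (.e (nat_lit 81954) (nat_lit 23) (.e (nat_lit 98359) (nat_lit 26) (.e (nat_lit 426407) (nat_lit 15) (.e (nat_lit 2147) (nat_lit 142) .nil))))) (.g (nat_lit 0) (.e (nat_lit 417115) (nat_lit 0) .nil) .nil))) 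
(.lf (nat_lit 599930) (.g (nat_lit 2901) (.e (nat_lit 557070) (nat_lit 9) (.e (nat_lit 2744) (nat_lit 174) (.e (nat_lit 253992) (nat_lit 11) (.e (nat_lit 16411) (nat_lit 2) (.e (nat_lit 196672) (nat_lit 15) (.e (nat_lit 81943) (nat_lit 20) (.e (nat_lit 1847) (nat_lit 124) .nil))))))) (.g (nat_lit 1) (.e (nat_lit 418546) (nat_lit 0) .nil) .nil))))) (.nd (nat_lit 8) (.nd (nat_lit 9) 
(.lf (nat_lit 599290) (.g (nat_lit 367) (.e (nat_lit 573491) (nat_lit 15) (.e (nat_lit 81946) (nat_lit 20) (.e (nat_lit 1841) (nat_lit 123) .nil))) (.g (nat_lit 0) (.e (nat_lit 416797) (nat_lit 0) .nil) .nil))) 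
(.lf (nat_lit 599802) (.g (nat_lit 992) (.e (nat_lit 581653) (nat_lit 6) (.e (nat_lit 188439) (nat_lit 20) (.e (nat_lit 3579) (nat_lit 223) (.e (nat_lit 745489) (nat_lit 4) .nil)))) (.g (nat_lit 0) (.e (nat_lit 418128) (nat_lit 0) .nil) .nil)))) (.nd (nat_lit 9) 
(.lf (nat_lit 599546) (.g (nat_lit 2104) (.e (nat_lit 573491) (nat_lit 15) (.e (nat_lit 89856) (nat_lit 23) (.e (nat_lit 98386) (nat_lit 32) (.e (nat_lit 475199) (nat_lit 40) (.e (nat_lit 704589) (nat_lit 3) (.e (nat_lit 163976) (nat_lit 30) .nil)))))) (.g (nat_lit 1) (.e (nat_lit 417306) (nat_lit 0) .nil) .nil))) 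
(.lf (nat_lit 600058) (.g (nat_lit 4921) (.e (nat_lit 557090) (nat_lit 12) (.e (nat_lit 163843) (nat_lit 0) (.e (nat_lit 6420) (nat_lit 341) (.e (nat_lit 163900) (nat_lit 12) (.e (nat_lit 426125) (nat_lit 2) (.e (nat_lit 196666) (nat_lit 13) (.e (nat_lit 65617) (nat_lit 10) (.e (nat_lit 344130) (nat_lit 26) .nil)))))))) (.g (nat_lit 1) (.e (nat_lit 418790) (nat_lit 0) .nil) .nil)))))))))) 
(.nd (nat_lit 3) (.nd (nat_lit 4) (.nd (nat_lit 5) (.nd (nat_lit 6) (.nd (nat_lit 7) 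
(.nd (nat_lit 8) (.nd (nat_lit 9) 
(.lf (nat_lit 599046) (.g (nat_lit 461) (.e (nat_lit 573489) (nat_lit 14) (.e (nat_lit 73755) (nat_lit 8) (.e (nat_lit 557068) (nat_lit 9) .nil))) (.g (nat_lit 0) (.e (nat_lit 415947) (nat_lit 0) .nil) .nil))) 
(.lf (nat_lit 599558) (.g (nat_lit 1174) (.e (nat_lit 573492) (nat_lit 15) (.e (nat_lit 81953) (nat_lit 22) (.e (nat_lit 90129) (nat_lit 9) .nil))) (.g (nat_lit 0) (.e (nat_lit 417367) (nat_lit 0) .nil) .nil)))) (.nd (nat_lit 9) 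
(.lf (nat_lit 599302) (.g (nat_lit 1380) (.e (nat_lit 573491) (nat_lit 15) (.e (nat_lit 81946) (nat_lit 20) (.e (nat_lit 1859) (nat_lit 124) (.e (nat_lit 557086) (nat_lit 11) (.e (nat_lit 24653) (nat_lit 12) .nil))))) (.g (nat_lit 0) (.e (nat_lit 416836) (nat_lit 0) .nil) .nil))) 
(.lf (nat_lit 599814) (.g (nat_lit 445) (.e (nat_lit 557060) (nat_lit 0) (.e (nat_lit 1597) (nat_lit 111) (.e (nat_lit 360449) (nat_lit 0) .nil))) (.g (nat_lit 0) (.e (nat_lit 418183) (nat_lit 0) .nil) .nil))))) (.nd (nat_lit 8) (.nd (nat_lit 9) 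
(.lf (nat_lit 599174) (.g (nat_lit 2720) (.e (nat_lit 573489) (nat_lit 14) (.e (nat_lit 73755) (nat_lit 8) (.e (nat_lit 557104) (nat_lit 14) (.e (nat_lit 180251) (nat_lit 10) (.e (nat_lit 573477) (nat_lit 12) (.e (nat_lit 57502) (nat_lit 38) (.e (nat_lit 638996) (nat_lit 7) (.e (nat_lit 163979) (nat_lit 30) .nil)))))))) (.g (nat_lit 1) (.e (nat_lit 416366) (nat_lit 0) .nil) .nil))) 
(.lf (nat_lit 599686) (.g (nat_lit 570) (.e (nat_lit 573493) (nat_lit 15) (.e (nat_lit 81954) (nat_lit 23) (.e (nat_lit 98334) (nat_lit 18) .nil))) (.g (nat_lit 0) (.e (nat_lit 417699) (nat_lit 0) .nil) .nil)))) (.nd (nat_lit 9) 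
(.lf (nat_lit 599430) (.g (nat_lit 1529) (.e (nat_lit 573491) (nat_lit 15) (.e (nat_lit 81954) (nat_lit 23) (.e (nat_lit 98365) (nat_lit 26) (.e (nat_lit 426145) (nat_lit 4) .nil)))) (.g (nat_lit 0) (.e (nat_lit 417142) (nat_lit 0) .nil) .nil))) 
(.lf (nat_lit 599942) (.g (nat_lit 542) (.e (nat_lit 557071) (nat_lit 9) (.e (nat_lit 2741) (nat_lit 174) (.e (nat_lit 253990) (nat_lit 11) (.e (nat_lit 16417) (nat_lit 3) .nil)))) (.g (nat_lit 0) (.e (nat_lit 418558) (nat_lit 0) .nil) .nil)))))) (.nd (nat_lit 7) (.nd (nat_lit 8) (.nd (nat_lit 9) 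
(.lf (nat_lit 599110) (.g (nat_lit 3709) (.e (nat_lit 573489) (nat_lit 14) (.e (nat_lit 73755) (nat_lit 8) (.e (nat_lit 557098) (nat_lit 13) (.e (nat_lit 172067) (nat_lit 3) (.e (nat_lit 204821) (nat_lit 17) (.e (nat_lit 2270) (nat_lit 149) (.e (nat_lit 761898) (nat_lit 15) (.e (nat_lit 163977) (nat_lit 30) .nil)))))))) (.g (nat_lit 1) (.e (nat_lit 416108) (nat_lit 0) .nil) .nil))) 
(.lf (nat_lit 599622) (.g (nat_lit 4760) (.e (nat_lit 573492) (nat_lit 15) (.e (nat_lit 81956) (nat_lit 23) (.e (nat_lit 98384) (nat_lit 32) (.e (nat_lit 475195) (nat_lit 40) (.e (nat_lit 704590) (nat_lit 3) (.e (nat_lit 163975) (nat_lit 30) .nil)))))) (.g (nat_lit 1) (.e (nat_lit 417582) (nat_lit 0) .nil) .nil)))) (.nd (nat_lit 9) 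
(.lf (nat_lit 599366) (.g (nat_lit 370) (.e (nat_lit 573491) (nat_lit 15) (.e (nat_lit 81954) (nat_lit 23) (.e (nat_lit 98321) (nat_lit 17) .nil))) (.g (nat_lit 0) (.e (nat_lit 416989) (nat_lit 0) .nil) .nil))) 
(.lf (nat_lit 599878) (.g (nat_lit 4363) (.e (nat_lit 557067) (nat_lit 9) (.e (nat_lit 214) (nat_lit 19) (.e (nat_lit 319490) (nat_lit 0) (.e (nat_lit 5761) (nat_lit 315) (.e (nat_lit 163962) (nat_lit 25) (.e (nat_lit 532535) (nat_lit 9) (.e (nat_lit 336176) (nat_lit 10) (.e (nat_lit 344130) (nat_lit 26) .nil)))))))) (.g (nat_lit 1) (.e (nat_lit 418359) (nat_lit 0) .nil) .nil))))) 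
(.nd (nat_lit 8) (.nd (nat_lit 9) 
(.lf (nat_lit 599238) (.g (nat_lit 2826) (.e (nat_lit 573489) (nat_lit 14) (.e (nat_lit 73755) (nat_lit 8) (.e (nat_lit 557105) (nat_lit 14) (.e (nat_lit 180252) (nat_lit 10) (.e (nat_lit 573475) (nat_lit 12) (.e (nat_lit 57503) (nat_lit 38) (.e (nat_lit 638995) (nat_lit 7) (.e (nat_lit 163973) (nat_lit 30) .nil)))))))) (.g (nat_lit 1) (.e (nat_lit 416615) (nat_lit 0) .nil) .nil))) 
(.lf (nat_lit 599750) (.g (nat_lit 122) (.e (nat_lit 573503) (nat_lit 18) (.e (nat_lit 1358) (nat_lit 102) (.e (nat_lit 286743) (nat_lit 9) .nil))) (.g (nat_lit 0) (.e (nat_lit 417862) (nat_lit 0) .nil) .nil)))) (.nd (nat_lit 9) 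
(.lf (nat_lit 599494) (.g (nat_lit 2411) (.e (nat_lit 573491) (nat_lit 15) (.e (nat_lit 81954) (nat_lit 23) (.e (nat_lit 98389) (nat_lit 33) (.e (nat_lit 491547) (nat_lit 9) (.e (nat_lit 336306) (nat_lit 15) (.e (nat_lit 3308) (nat_lit 202) .nil)))))) (.g (nat_lit 1) (.e (nat_lit 417245) (nat_lit 0) .nil) .nil))) 
(.lf (nat_lit 600006) (.g (nat_lit 4255) (.e (nat_lit 557087) (nat_lit 11) (.e (nat_lit 24663) (nat_lit 14) (.e (nat_lit 401414) (nat_lit 0) (.e (nat_lit 3238) (nat_lit 197) (.e (nat_lit 532550) (nat_lit 12) (.e (nat_lit 360475) (nat_lit 8) .nil)))))) (.g (nat_lit 1) (.e (nat_lit 418694) (nat_lit 0) .nil) .nil))))))) (.nd (nat_lit 6) (.nd (nat_lit 7) (.nd (nat_lit 8) (.nd (nat_lit 9) 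
(.lf (nat_lit 599078) (.g (nat_lit 1985) (.e (nat_lit 573489) (nat_lit 14) (.e (nat_lit 73755) (nat_lit 8) (.e (nat_lit 557091) (nat_lit 12) (.e (nat_lit 163999) (nat_lit 38) (.e (nat_lit 639016) (nat_lit 15) .nil))))) (.g (nat_lit 0) (.e (nat_lit 416011) (nat_lit 0) .nil) .nil))) 
(.lf (nat_lit 599590) (.g (nat_lit 2867) (.e (nat_lit 573492) (nat_lit 15) (.e (nat_lit 81956) (nat_lit 23) (.e (nat_lit 98349) (nat_lit 24) (.e (nat_lit 409641) (nat_lit 17) (.e (nat_lit 294966) (nat_lit 15) (.e (nat_lit 3297) (nat_lit 202) .nil)))))) (.g (nat_lit 1) (.e (nat_lit 417468) (nat_lit 0) .nil) .nil)))) (.nd (nat_lit 9) 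
(.lf (nat_lit 599334) (.g (nat_lit 2428) (.e (nat_lit 573491) (nat_lit 15) (.e (nat_lit 81951) (nat_lit 22) (.e (nat_lit 90170) (nat_lit 13) (.e (nat_lit 172045) (nat_lit 0) .nil)))) (.g (nat_lit 0) (.e (nat_lit 416914) (nat_lit 0) .nil) .nil))) 
(.lf (nat_lit 599846) (.g (nat_lit 3452) (.e (nat_lit 557065) (nat_lit 9) (.e (nat_lit 2700) (nat_lit 169) (.e (nat_lit 213032) (nat_lit 11) (.e (nat_lit 24604) (nat_lit 2) (.e (nat_lit 90176) (nat_lit 15) (.e (nat_lit 188439) (nat_lit 20) (.e (nat_lit 7936) (nat_lit 200) .nil))))))) (.g (nat_lit 1) (.e (nat_lit 418254) (nat_lit 0) .nil) .nil))))) (.nd (nat_lit 8) (.nd (nat_lit 9) 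
(.lf (nat_lit 599206) (.g (nat_lit 1861) (.e (nat_lit 573489) (nat_lit 14) (.e (nat_lit 73755) (nat_lit 8) (.e (nat_lit 557105) (nat_lit 14) (.e (nat_lit 180251) (nat_lit 10) (.e (nat_lit 573475) (nat_lit 12) .nil))))) (.g (nat_lit 0) (.e (nat_lit 416464) (nat_lit 0) .nil) .nil))) 
(.lf (nat_lit 599718) (.g (nat_lit 2337) (.e (nat_lit 573493) (nat_lit 15) (.e (nat_lit 81956) (nat_lit 23) (.e (nat_lit 98389) (nat_lit 33) (.e (nat_lit 491552) (nat_lit 9) (.e (nat_lit 336282) (nat_lit 15) (.e (nat_lit 7936) (nat_lit 202) .nil)))))) (.g (nat_lit 1) (.e (nat_lit 417772) (nat_lit 0) .nil) .nil)))) (.nd (nat_lit 9) 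
(.lf (nat_lit 599462) (.g (nat_lit 2224) (.e (nat_lit 573491) (nat_lit 15) (.e (nat_lit 81954) (nat_lit 23) (.e (nat_lit 98384) (nat_lit 32) (.e (nat_lit 483072) (nat_lit 40) .nil)))) (.g (nat_lit 0) (.e (nat_lit 417212) (nat_lit 0) .nil) .nil))) 
(.lf (nat_lit 599974) (.g (nat_lit 1172) (.e (nat_lit 557085) (nat_lit 11) (.e (nat_lit 24665) (nat_lit 14) (.e (nat_lit 401417) (nat_lit 0) .nil))) (.g (nat_lit 0) (.e (nat_lit 418645) (nat_lit 0) .nil) .nil)))))) (.nd (nat_lit 7) (.nd (nat_lit 8) (.nd (nat_lit 9) 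
(.lf (nat_lit 599142) (.g (nat_lit 3859) (.e (nat_lit 573489) (nat_lit 14) (.e (nat_lit 73755) (nat_lit 8) (.e (nat_lit 557103) (nat_lit 14) (.e (nat_lit 180250) (nat_lit 10) (.e (nat_lit 573473) (nat_lit 12) (.e (nat_lit 57501) (nat_lit 37) (.e (nat_lit 630799) (nat_lit 7) (.e (nat_lit 163979) (nat_lit 30) .nil)))))))) (.g (nat_lit 1) (.e (nat_lit 416253) (nat_lit 0) .nil) .nil))) 
(.lf (nat_lit 599654) (.g (nat_lit 670) (.e (nat_lit 573493) (nat_lit 15) (.e (nat_lit 81953) (nat_lit 22) (.e (nat_lit 90125) (nat_lit 9) .nil))) (.g (nat_lit 0) (.e (nat_lit 417653) (nat_lit 0) .nil) .nil)))) (.nd (nat_lit 9) 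
(.lf (nat_lit 599398) (.g (nat_lit 1604) (.e (nat_lit 573491) (nat_lit 15) (.e (nat_lit 81954) (nat_lit 23) (.e (nat_lit 98356) (nat_lit 26) (.e (nat_lit 426402) (nat_lit 15) .nil)))) (.g (nat_lit 0) (.e (nat_lit 417068) (nat_lit 0) .nil) .nil))) 
(.lf (nat_lit 599910) (.g (nat_lit 1563) (.e (nat_lit 557070) (nat_lit 9) (.e (nat_lit 2744) (nat_lit 174) (.e (nat_lit 253991) (nat_lit 11) (.e (nat_lit 16409) (nat_lit 2) .nil)))) (.g (nat_lit 0) (.e (nat_lit 418524) (nat_lit 0) .nil) .nil))))) (.nd (nat_lit 8) (.nd (nat_lit 9) 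
(.lf (nat_lit 599270) (.g (nat_lit 920) (.e (nat_lit 573490) (nat_lit 15) (.e (nat_lit 81956) (nat_lit 23) (.e (nat_lit 98320) (nat_lit 17) (.e (nat_lit 7589) (nat_lit 406) .nil)))) (.g (nat_lit 0) (.e (nat_lit 416712) (nat_lit 0) .nil) .nil))) 
(.lf (nat_lit 599782) (.g (nat_lit 1637) (.e (nat_lit 581651) (nat_lit 4) (.e (nat_lit 172112) (nat_lit 10) (.e (nat_lit 434295) (nat_lit 49) (.e (nat_lit 745491) (nat_lit 4) (.e (nat_lit 65617) (nat_lit 10) (.e (nat_lit 344138) (nat_lit 29) .nil)))))) (.g (nat_lit 1) (.e (nat_lit 417971) (nat_lit 0) .nil) .nil)))) (.nd (nat_lit 9) 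
(.lf (nat_lit 599526) (.g (nat_lit 1509) (.e (nat_lit 573491) (nat_lit 15) (.e (nat_lit 81956) (nat_lit 23) (.e (nat_lit 98367) (nat_lit 27) (.e (nat_lit 434209) (nat_lit 18) .nil)))) (.g (nat_lit 0) (.e (nat_lit 417281) (nat_lit 0) .nil) .nil))) 
(.lf (nat_lit 600038) (.g (nat_lit 3900) (.e (nat_lit 557089) (nat_lit 12) (.e (nat_lit 163849) (nat_lit 0) (.e (nat_lit 6416) (nat_lit 341) (.e (nat_lit 163900) (nat_lit 12) (.e (nat_lit 426125) (nat_lit 2) (.e (nat_lit 196666) (nat_lit 13) (.e (nat_lit 65617) (nat_lit 10) (.e (nat_lit 344130) (nat_lit 26) .nil)))))))) (.g (nat_lit 1) (.e (nat_lit 418745) (nat_lit 0) .nil) .nil)))))))) 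
(.nd (nat_lit 5) (.nd (nat_lit 6) (.nd (nat_lit 7) (.nd (nat_lit 8) (.nd (nat_lit 9) 
(.lf (nat_lit 599062) (.g (nat_lit 2690) (.e (nat_lit 573489) (nat_lit 14) (.e (nat_lit 73755) (nat_lit 8) (.e (nat_lit 557090) (nat_lit 12) (.e (nat_lit 164000) (nat_lit 38) (.e (nat_lit 639004) (nat_lit 13) .nil))))) (.g (nat_lit 0) (.e (nat_lit 415987) (nat_lit 0) .nil) .nil))) 
(.lf (nat_lit 599574) (.g (nat_lit 2302) (.e (nat_lit 573492) (nat_lit 15) (.e (nat_lit 81954) (nat_lit 23) (.e (nat_lit 98384) (nat_lit 32) (.e (nat_lit 475196) (nat_lit 40) .nil)))) (.g (nat_lit 0) (.e (nat_lit 417439) (nat_lit 0) .nil) .nil)))) (.nd (nat_lit 9) 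
(.lf (nat_lit 599318) (.g (nat_lit 5065) (.e (nat_lit 573491) (nat_lit 15) (.e (nat_lit 81951) (nat_lit 22) (.e (nat_lit 90167) (nat_lit 13) (.e (nat_lit 172133) (nat_lit 15) (.e (nat_lit 2059) (nat_lit 142) (.e (nat_lit 704589) (nat_lit 3) (.e (nat_lit 163975) (nat_lit 30) .nil))))))) (.g (nat_lit 1) (.e (nat_lit 416889) (nat_lit 0) .nil) .nil))) 
(.lf (nat_lit 599830) (.g (nat_lit 608) (.e (nat_lit 564992) (nat_lit 6) (.e (nat_lit 81946) (nat_lit 20) (.e (nat_lit 2390) (nat_lit 156) (.e (nat_lit 819221) (nat_lit 6) .nil)))) (.g (nat_lit 0) (.e (nat_lit 418216) (nat_lit 0) .nil) .nil))))) (.nd (nat_lit 8) (.nd (nat_lit 9) 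
(.lf (nat_lit 599190) (.g (nat_lit 4317) (.e (nat_lit 573489) (nat_lit 14) (.e (nat_lit 73755) (nat_lit 8) (.e (nat_lit 557105) (nat_lit 14) (.e (nat_lit 180244) (nat_lit 5) (.e (nat_lit 532481) (nat_lit 0) (.e (nat_lit 2271) (nat_lit 149) (.e (nat_lit 761898) (nat_lit 15) (.e (nat_lit 163978) (nat_lit 30) .nil)))))))) (.g (nat_lit 1) (.e (nat_lit 416402) (nat_lit 0) .nil) .nil))) 
(.lf (nat_lit 599702) (.g (nat_lit 1313) (.e (nat_lit 573493) (nat_lit 15) (.e (nat_lit 81956) (nat_lit 23) (.e (nat_lit 98350) (nat_lit 24) (.e (nat_lit 417536) (nat_lit 10) .nil)))) (.g (nat_lit 0) (.e (nat_lit 417744) (nat_lit 0) .nil) .nil)))) (.nd (nat_lit 9) 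
(.lf (nat_lit 599446) (.g (nat_lit 3122) (.e (nat_lit 573491) (nat_lit 15) (.e (nat_lit 81954) (nat_lit 23) (.e (nat_lit 98367) (nat_lit 27) (.e (nat_lit 434272) (nat_lit 38) (.e (nat_lit 655373) (nat_lit 3) (.e (nat_lit 163976) (nat_lit 30) .nil)))))) (.g (nat_lit 1) (.e (nat_lit 417181) (nat_lit 0) .nil) .nil))) 
(.lf (nat_lit 599958) (.g (nat_lit 3254) (.e (nat_lit 557074) (nat_lit 9) (.e (nat_lit 2697) (nat_lit 169) (.e (nat_lit 213032) (nat_lit 11) (.e (nat_lit 24604) (nat_lit 2) (.e (nat_lit 90176) (nat_lit 15) (.e (nat_lit 188439) (nat_lit 20) (.e (nat_lit 7936) (nat_lit 200) .nil))))))) (.g (nat_lit 1) (.e (nat_lit 418617) (nat_lit 0) .nil) .nil)))))) 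
(.nd (nat_lit 7) (.nd (nat_lit 8) (.nd (nat_lit 9) 
(.lf (nat_lit 599126) (.g (nat_lit 2728) (.e (nat_lit 573489) (nat_lit 14) (.e (nat_lit 73755) (nat_lit 8) (.e (nat_lit 557103) (nat_lit 14) (.e (nat_lit 180243) (nat_lit 5) (.e (nat_lit 532484) (nat_lit 0) .nil))))) (.g (nat_lit 0) (.e (nat_lit 416157) (nat_lit 0) .nil) .nil))) 
(.lf (nat_lit 599638) (.g (nat_lit 3653) (.e (nat_lit 573492) (nat_lit 15) (.e (nat_lit 81956) (nat_lit 23) (.e (nat_lit 98389) (nat_lit 33) (.e (nat_lit 491547) (nat_lit 9) (.e (nat_lit 336303) (nat_lit 15) (.e (nat_lit 3304) (nat_lit 202) .nil)))))) (.g (nat_lit 1) (.e (nat_lit 417604) (nat_lit 0) .nil) .nil)))) (.nd (nat_lit 9) 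
(.lf (nat_lit 599382) (.g (nat_lit 447) (.e (nat_lit 573491) (nat_lit 15) (.e (nat_lit 81954) (nat_lit 23) (.e (nat_lit 98356) (nat_lit 26) .nil))) (.g (nat_lit 0) (.e (nat_lit 417042) (nat_lit 0) .nil) .nil))) 
(.lf (nat_lit 599894) (.g (nat_lit 1185) (.e (nat_lit 557067) (nat_lit 9) (.e (nat_lit 3022) (nat_lit 187) (.e (nat_lit 450580) (nat_lit 5) (.e (nat_lit 532556) (nat_lit 13) .nil)))) (.g (nat_lit 0) (.e (nat_lit 418432) (nat_lit 0) .nil) .nil))))) (.nd (nat_lit 8) (.nd (nat_lit 9) 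
(.lf (nat_lit 599254) (.g (nat_lit 1264) (.e (nat_lit 573489) (nat_lit 14) (.e (nat_lit 73755) (nat_lit 8) (.e (nat_lit 557119) (nat_lit 18) (.e (nat_lit 2798) (nat_lit 180) .nil)))) (.g (nat_lit 0) (.e (nat_lit 416652) (nat_lit 0) .nil) .nil))) 
(.lf (nat_lit 599766) (.g (nat_lit 960) (.e (nat_lit 581636) (nat_lit 0) (.e (nat_lit 3016) (nat_lit 187) (.e (nat_lit 450605) (nat_lit 27) (.e (nat_lit 745493) (nat_lit 6) (.e (nat_lit 81939) (nat_lit 20) (.e (nat_lit 1886) (nat_lit 127) .nil)))))) (.g (nat_lit 1) (.e (nat_lit 417905) (nat_lit 0) .nil) .nil)))) (.nd (nat_lit 9) 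
(.lf (nat_lit 599510) (.g (nat_lit 663) (.e (nat_lit 573491) (nat_lit 15) (.e (nat_lit 81956) (nat_lit 23) (.e (nat_lit 98325) (nat_lit 17) .nil))) (.g (nat_lit 0) (.e (nat_lit 417262) (nat_lit 0) .nil) .nil))) 
(.lf (nat_lit 600022) (.g (nat_lit 4453) (.e (nat_lit 557089) (nat_lit 12) (.e (nat_lit 163844) (nat_lit 0) (.e (nat_lit 6255) (nat_lit 337) (.e (nat_lit 2630) (nat_lit 164) (.e (nat_lit 172062) (nat_lit 2) (.e (nat_lit 196666) (nat_lit 13) (.e (nat_lit 65617) (nat_lit 10) (.e (nat_lit 344130) (nat_lit 26) .nil)))))))) (.g (nat_lit 1) (.e (nat_lit 418714) (nat_lit 0) .nil) .nil))))))) 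
(.nd (nat_lit 6) (.nd (nat_lit 7) (.nd (nat_lit 8) (.nd (nat_lit 9) 
(.lf (nat_lit 599094) (.g (nat_lit 3754) (.e (nat_lit 573489) (nat_lit 14) (.e (nat_lit 73755) (nat_lit 8) (.e (nat_lit 557097) (nat_lit 13) (.e (nat_lit 172067) (nat_lit 3) (.e (nat_lit 204817) (nat_lit 17) (.e (nat_lit 2272) (nat_lit 149) (.e (nat_lit 761897) (nat_lit 15) (.e (nat_lit 163978) (nat_lit 30) .nil)))))))) (.g (nat_lit 1) (.e (nat_lit 416060) (nat_lit 0) .nil) .nil))) 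
(.lf (nat_lit 599606) (.g (nat_lit 4964) (.e (nat_lit 573492) (nat_lit 15) (.e (nat_lit 81956) (nat_lit 23) (.e (nat_lit 98362) (nat_lit 26) (.e (nat_lit 426043) (nat_lit 0) (.e (nat_lit 3408) (nat_lit 212) (.e (nat_lit 655375) (nat_lit 3) (.e (nat_lit 163979) (nat_lit 30) .nil))))))) (.g (nat_lit 1) (.e (nat_lit 417531) (nat_lit 0) .nil) .nil)))) (.nd (nat_lit 9) 
(.lf (nat_lit 599350) (.g (nat_lit 3967) (.e (nat_lit 573491) (nat_lit 15) (.e (nat_lit 81951) (nat_lit 22) (.e (nat_lit 90170) (nat_lit 13) (.e (nat_lit 172138) (nat_lit 15) (.e (nat_lit 2058) (nat_lit 142) (.e (nat_lit 704589) (nat_lit 3) (.e (nat_lit 163976) (nat_lit 30) .nil))))))) (.g (nat_lit 1) (.e (nat_lit 416960) (nat_lit 0) .nil) .nil))) 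
(.lf (nat_lit 599862) (.g (nat_lit 2332) (.e (nat_lit 557065) (nat_lit 9) (.e (nat_lit 3044) (nat_lit 189) (.e (nat_lit 466977) (nat_lit 22) (.e (nat_lit 196681) (nat_lit 17) (.e (nat_lit 131089) (nat_lit 1) (.e (nat_lit 57930) (nat_lit 282) (.e (nat_lit 163846) (nat_lit 0) (.e (nat_lit 7936) (nat_lit 200) .nil)))))))) (.g (nat_lit 1) (.e (nat_lit 418313) (nat_lit 0) .nil) .nil))))) 
(.nd (nat_lit 8) (.nd (nat_lit 9) 
(.lf (nat_lit 599222) (.g (nat_lit 4604) (.e (nat_lit 573489) (nat_lit 14) (.e (nat_lit 73755) (nat_lit 8) (.e (nat_lit 557105) (nat_lit 14) (.e (nat_lit 180252) (nat_lit 10) (.e (nat_lit 573474) (nat_lit 12) (.e (nat_lit 57503) (nat_lit 38) (.e (nat_lit 638985) (nat_lit 5) (.e (nat_lit 2467) (nat_lit 157) (.e (nat_lit 3307) (nat_lit 202) .nil))))))))) (.g (nat_lit 1) (.e (nat_lit 416591) (nat_lit 0) .nil) .nil))) 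
(.lf (nat_lit 599734) (.g (nat_lit 1414) (.e (nat_lit 573503) (nat_lit 18) (.e (nat_lit 1348) (nat_lit 102) (.e (nat_lit 286743) (nat_lit 9) (.e (nat_lit 336445) (nat_lit 33) .nil)))) (.g (nat_lit 0) (.e (nat_lit 417822) (nat_lit 0) .nil) .nil)))) (.nd (nat_lit 9) 
(.lf (nat_lit 599478) (.g (nat_lit 2905) (.e (nat_lit 573491) (nat_lit 15) (.e (nat_lit 81954) (nat_lit 23) (.e (nat_lit 98386) (nat_lit 32) (.e (nat_lit 475196) (nat_lit 40) (.e (nat_lit 704589) (nat_lit 3) (.e (nat_lit 163975) (nat_lit 30) .nil)))))) (.g (nat_lit 1) (.e (nat_lit 417229) (nat_lit 0) .nil) .nil))) 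
(.lf (nat_lit 599990) (.g (nat_lit 3800) (.e (nat_lit 557087) (nat_lit 11) (.e (nat_lit 24588) (nat_lit 0) (.e (nat_lit 6680) (nat_lit 357) (.e (nat_lit 2663) (nat_lit 167) (.e (nat_lit 196666) (nat_lit 13) (.e (nat_lit 65617) (nat_lit 10) (.e (nat_lit 344130) (nat_lit 26) .nil))))))) (.g (nat_lit 1) (.e (nat_lit 418670) (nat_lit 0) .nil) .nil)))))) 
(.nd (nat_lit 7) (.nd (nat_lit 8) (.nd (nat_lit 9) 
(.lf (nat_lit 599158) (.g (nat_lit 2873) (.e (nat_lit 573489) (nat_lit 14) (.e (nat_lit 73755) (nat_lit 8) (.e (nat_lit 557104) (nat_lit 14) (.e (nat_lit 180244) (nat_lit 5) (.e (nat_lit 532480) (nat_lit 0) (.e (nat_lit 2270) (nat_lit 149) (.e (nat_lit 761899) (nat_lit 15) (.e (nat_lit 163977) (nat_lit 30) .nil)))))))) (.g (nat_lit 1) (.e (nat_lit 416274) (nat_lit 0) .nil) .nil))) 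
(.lf (nat_lit 599670) (.g (nat_lit 2280) (.e (nat_lit 573493) (nat_lit 15) (.e (nat_lit 81953) (nat_lit 22) (.e (nat_lit 90170) (nat_lit 13) (.e (nat_lit 172051) (nat_lit 0) .nil)))) (.g (nat_lit 0) (.e (nat_lit 417673) (nat_lit 0) .nil) .nil)))) (.nd (nat_lit 9) 
(.lf (nat_lit 599414) (.g (nat_lit 1550) (.e (nat_lit 573491) (nat_lit 15) (.e (nat_lit 81954) (nat_lit 23) (.e (nat_lit 98359) (nat_lit 26) (.e (nat_lit 426380) (nat_lit 15) .nil)))) (.g (nat_lit 0) (.e (nat_lit 417111) (nat_lit 0) .nil) .nil))) 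
(.lf (nat_lit 599926) (.g (nat_lit 1368) (.e (nat_lit 557070) (nat_lit 9) (.e (nat_lit 2744) (nat_lit 174) (.e (nat_lit 253991) (nat_lit 11) (.e (nat_lit 16417) (nat_lit 3) .nil)))) (.g (nat_lit 0) (.e (nat_lit 418541) (nat_lit 0) .nil) .nil))))) (.nd (nat_lit 8) (.nd (nat_lit 9) 
(.lf (nat_lit 599286) (.g (nat_lit 882) (.e (nat_lit 573491) (nat_lit 15) (.e (nat_lit 81943) (nat_lit 20) (.e (nat_lit 2391) (nat_lit 156) (.e (nat_lit 819219) (nat_lit 4) .nil)))) (.g (nat_lit 0) (.e (nat_lit 416791) (nat_lit 0) .nil) .nil))) 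
(.lf (nat_lit 599798) (.g (nat_lit 846) (.e (nat_lit 581652) (nat_lit 5) (.e (nat_lit 180288) (nat_lit 45) (.e (nat_lit 2580) (nat_lit 161) (.e (nat_lit 40965) (nat_lit 0) (.e (nat_lit 1582) (nat_lit 111) (.e (nat_lit 368384) (nat_lit 11) .nil)))))) (.g (nat_lit 1) (.e (nat_lit 418111) (nat_lit 0) .nil) .nil)))) (.nd (nat_lit 9) 
(.lf (nat_lit 599542) (.g (nat_lit 1458) (.e (nat_lit 573491) (nat_lit 15) (.e (nat_lit 81956) (nat_lit 23) (.e (nat_lit 98388) (nat_lit 33) (.e (nat_lit 491547) (nat_lit 9) .nil)))) (.g (nat_lit 0) (.e (nat_lit 417302) (nat_lit 0) .nil) .nil))) 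
(.lf (nat_lit 600054) (.g (nat_lit 5517) (.e (nat_lit 557090) (nat_lit 12) (.e (nat_lit 163843) (nat_lit 0) (.e (nat_lit 6255) (nat_lit 337) (.e (nat_lit 2630) (nat_lit 164) (.e (nat_lit 172062) (nat_lit 2) (.e (nat_lit 196666) (nat_lit 13) (.e (nat_lit 65617) (nat_lit 10) (.e (nat_lit 344130) (nat_lit 26) .nil)))))))) (.g (nat_lit 1) (.e (nat_lit 418785) (nat_lit 0) .nil) .nil))))))))) 
(.nd (nat_lit 4) (.nd (nat_lit 5) (.nd (nat_lit 6) (.nd (nat_lit 7) (.nd (nat_lit 8) 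
(.nd (nat_lit 9) 
(.lf (nat_lit 599054) (.g (nat_lit 1432) (.e (nat_lit 573489) (nat_lit 14) (.e (nat_lit 73755) (nat_lit 8) (.e (nat_lit 557090) (nat_lit 12) (.e (nat_lit 163850) (nat_lit 0) .nil)))) (.g (nat_lit 0) (.e (nat_lit 415969) (nat_lit 0) .nil) .nil))) 
(.lf (nat_lit 599566) (.g (nat_lit 1830) (.e (nat_lit 573492) (nat_lit 15) (.e (nat_lit 81953) (nat_lit 22) (.e (nat_lit 90170) (nat_lit 13) (.e (nat_lit 172138) (nat_lit 15) (.e (nat_lit 2175) (nat_lit 143) (.e (nat_lit 712722) (nat_lit 15) (.e (nat_lit 3302) (nat_lit 202) .nil))))))) (.g (nat_lit 1) (.e (nat_lit 417411) (nat_lit 0) .nil) .nil)))) (.nd (nat_lit 9) 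
(.lf (nat_lit 599310) (.g (nat_lit 949) (.e (nat_lit 573491) (nat_lit 15) (.e (nat_lit 81947) (nat_lit 20) (.e (nat_lit 2391) (nat_lit 156) (.e (nat_lit 819219) (nat_lit 4) .nil)))) (.g (nat_lit 0) (.e (nat_lit 416858) (nat_lit 0) .nil) .nil))) 
(.lf (nat_lit 599822) (.g (nat_lit 1539) (.e (nat_lit 557061) (nat_lit 0) (.e (nat_lit 1597) (nat_lit 111) (.e (nat_lit 360493) (nat_lit 27) (.e (nat_lit 819204) (nat_lit 0) (.e (nat_lit 3022) (nat_lit 187) (.e (nat_lit 458496) (nat_lit 8) .nil)))))) (.g (nat_lit 1) (.e (nat_lit 418198) (nat_lit 0) .nil) .nil))))) (.nd (nat_lit 8) (.nd (nat_lit 9) 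
(.lf (nat_lit 599182) (.g (nat_lit 3329) (.e (nat_lit 573489) (nat_lit 14) (.e (nat_lit 73755) (nat_lit 8) (.e (nat_lit 557104) (nat_lit 14) (.e (nat_lit 180252) (nat_lit 10) (.e (nat_lit 573475) (nat_lit 12) (.e (nat_lit 57502) (nat_lit 38) (.e (nat_lit 638996) (nat_lit 7) (.e (nat_lit 163977) (nat_lit 30) .nil)))))))) (.g (nat_lit 1) (.e (nat_lit 416375) (nat_lit 0) .nil) .nil))) 
(.lf (nat_lit 599694) (.g (nat_lit 937) (.e (nat_lit 573493) (nat_lit 15) (.e (nat_lit 81956) (nat_lit 23) (.e (nat_lit 98327) (nat_lit 17) (.e (nat_lit 7556) (nat_lit 402) .nil)))) (.g (nat_lit 0) (.e (nat_lit 417716) (nat_lit 0) .nil) .nil)))) (.nd (nat_lit 9) 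
(.lf (nat_lit 599438) (.g (nat_lit 2220) (.e (nat_lit 573491) (nat_lit 15) (.e (nat_lit 81954) (nat_lit 23) (.e (nat_lit 98367) (nat_lit 27) (.e (nat_lit 434202) (nat_lit 18) (.e (nat_lit 5537) (nat_lit 306) .nil))))) (.g (nat_lit 0) (.e (nat_lit 417160) (nat_lit 0) .nil) .nil))) 
(.lf (nat_lit 599950) (.g (nat_lit 1516) (.e (nat_lit 557072) (nat_lit 9) (.e (nat_lit 3098) (nat_lit 192) (.e (nat_lit 491571) (nat_lit 13) (.e (nat_lit 393251) (nat_lit 18) .nil)))) (.g (nat_lit 0) (.e (nat_lit 418596) (nat_lit 0) .nil) .nil)))))) (.nd (nat_lit 7) (.nd (nat_lit 8) (.nd (nat_lit 9) 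
(.lf (nat_lit 599118) (.g (nat_lit 2831) (.e (nat_lit 573489) (nat_lit 14) (.e (nat_lit 73755) (nat_lit 8) (.e (nat_lit 557098) (nat_lit 13) (.e (nat_lit 172140) (nat_lit 22) (.e (nat_lit 139281) (nat_lit 5) (.e (nat_lit 81664) (nat_lit 10) .nil)))))) (.g (nat_lit 1) (.e (nat_lit 416145) (nat_lit 0) .nil) .nil))) 
(.lf (nat_lit 599630) (.g (nat_lit 2962) (.e (nat_lit 573492) (nat_lit 15) (.e (nat_lit 81956) (nat_lit 23) (.e (nat_lit 98385) (nat_lit 32) (.e (nat_lit 475207) (nat_lit 41) (.e (nat_lit 712722) (nat_lit 15) (.e (nat_lit 3302) (nat_lit 202) .nil)))))) (.g (nat_lit 1) (.e (nat_lit 417593) (nat_lit 0) .nil) .nil)))) (.nd (nat_lit 9) 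
(.lf (nat_lit 599374) (.g (nat_lit 3364) (.e (nat_lit 573491) (nat_lit 15) (.e (nat_lit 81954) (nat_lit 23) (.e (nat_lit 98325) (nat_lit 17) (.e (nat_lit 6986) (nat_lit 377) (.e (nat_lit 2777) (nat_lit 178) (.e (nat_lit 286765) (nat_lit 15) (.e (nat_lit 3308) (nat_lit 202) .nil))))))) (.g (nat_lit 1) (.e (nat_lit 417000) (nat_lit 0) .nil) .nil))) 
(.lf (nat_lit 599886) (.g (nat_lit 980) (.e (nat_lit 557067) (nat_lit 9) (.e (nat_lit 3022) (nat_lit 187) (.e (nat_lit 450579) (nat_lit 5) (.e (nat_lit 532563) (nat_lit 15) .nil)))) (.g (nat_lit 0) (.e (nat_lit 418410) (nat_lit 0) .nil) .nil))))) (.nd (nat_lit 8) (.nd (nat_lit 9) 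
(.lf (nat_lit 599246) (.g (nat_lit 3299) (.e (nat_lit 573489) (nat_lit 14) (.e (nat_lit 73755) (nat_lit 8) (.e (nat_lit 557105) (nat_lit 14) (.e (nat_lit 180252) (nat_lit 10) (.e (nat_lit 573477) (nat_lit 12) (.e (nat_lit 57502) (nat_lit 38) (.e (nat_lit 638995) (nat_lit 7) (.e (nat_lit 163979) (nat_lit 30) .nil)))))))) (.g (nat_lit 1) (.e (nat_lit 416625) (nat_lit 0) .nil) .nil))) 
(.lf (nat_lit 599758) (.g (nat_lit 1173) (.e (nat_lit 581635) (nat_lit 0) (.e (nat_lit 3022) (nat_lit 187) (.e (nat_lit 450561) (nat_lit 0) (.e (nat_lit 6740) (nat_lit 365) (.e (nat_lit 1222) (nat_lit 90) .nil))))) (.g (nat_lit 0) (.e (nat_lit 417882) (nat_lit 0) .nil) .nil)))) (.nd (nat_lit 9) 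
(.lf (nat_lit 599502) (.g (nat_lit 1245) (.e (nat_lit 573491) (nat_lit 15) (.e (nat_lit 81955) (nat_lit 23) (.e (nat_lit 98359) (nat_lit 26) (.e (nat_lit 426043) (nat_lit 0) .nil)))) (.g (nat_lit 0) (.e (nat_lit 417254) (nat_lit 0) .nil) .nil))) 
(.lf (nat_lit 600014) (.g (nat_lit 1162) (.e (nat_lit 557088) (nat_lit 12) (.e (nat_lit 163843) (nat_lit 0) (.e (nat_lit 6255) (nat_lit 337) (.e (nat_lit 2725) (nat_lit 172) .nil)))) (.g (nat_lit 0) (.e (nat_lit 418704) (nat_lit 0) .nil) .nil))))))) (.nd (nat_lit 6) (.nd (nat_lit 7) (.nd (nat_lit 8) (.nd (nat_lit 9) 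
(.lf (nat_lit 599086) (.g (nat_lit 3060) (.e (nat_lit 573489) (nat_lit 14) (.e (nat_lit 73755) (nat_lit 8) (.e (nat_lit 557096) (nat_lit 13) (.e (nat_lit 172067) (nat_lit 3) (.e (nat_lit 204816) (nat_lit 17) (.e (nat_lit 2273) (nat_lit 149) (.e (nat_lit 761899) (nat_lit 15) (.e (nat_lit 163978) (nat_lit 30) .nil)))))))) (.g (nat_lit 1) (.e (nat_lit 416024) (nat_lit 0) .nil) .nil))) 
(.lf (nat_lit 599598) (.g (nat_lit 4752) (.e (nat_lit 573492) (nat_lit 15) (.e (nat_lit 81956) (nat_lit 23) (.e (nat_lit 98360) (nat_lit 26) (.e (nat_lit 426036) (nat_lit 0) (.e (nat_lit 3409) (nat_lit 212) (.e (nat_lit 655375) (nat_lit 3) (.e (nat_lit 163979) (nat_lit 30) .nil))))))) (.g (nat_lit 1) (.e (nat_lit 417518) (nat_lit 0) .nil) .nil)))) (.nd (nat_lit 9) 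
(.lf (nat_lit 599342) (.g (nat_lit 2427) (.e (nat_lit 573491) (nat_lit 15) (.e (nat_lit 81951) (nat_lit 22) (.e (nat_lit 90170) (nat_lit 13) (.e (nat_lit 172054) (nat_lit 0) .nil)))) (.g (nat_lit 0) (.e (nat_lit 416927) (nat_lit 0) .nil) .nil))) 
(.lf (nat_lit 599854) (.g (nat_lit 1958) (.e (nat_lit 557065) (nat_lit 9) (.e (nat_lit 3044) (nat_lit 189) (.e (nat_lit 466974) (nat_lit 22) (.e (nat_lit 196681) (nat_lit 17) (.e (nat_lit 131089) (nat_lit 1) (.e (nat_lit 57930) (nat_lit 282) (.e (nat_lit 163853) (nat_lit 0) (.e (nat_lit 7936) (nat_lit 200) .nil)))))))) (.g (nat_lit 1) (.e (nat_lit 418289) (nat_lit 0) .nil) .nil))))) 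
(.nd (nat_lit 8) (.nd (nat_lit 9) 
(.lf (nat_lit 599214) (.g (nat_lit 3609) (.e (nat_lit 573489) (nat_lit 14) (.e (nat_lit 73755) (nat_lit 8) (.e (nat_lit 557105) (nat_lit 14) (.e (nat_lit 180252) (nat_lit 10) (.e (nat_lit 573473) (nat_lit 12) (.e (nat_lit 57504) (nat_lit 38) (.e (nat_lit 638983) (nat_lit 5) (.e (nat_lit 2472) (nat_lit 157) (.e (nat_lit 3307) (nat_lit 202) .nil))))))))) (.g (nat_lit 1) (.e (nat_lit 416538) (nat_lit 0) .nil) .nil))) 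
(.lf (nat_lit 599726) (.g (nat_lit 1192) (.e (nat_lit 573497) (nat_lit 17) (.e (nat_lit 131123) (nat_lit 12) (.e (nat_lit 385074) (nat_lit 31) (.e (nat_lit 573491) (nat_lit 15) .nil)))) (.g (nat_lit 0) (.e (nat_lit 417812) (nat_lit 0) .nil) .nil)))) (.nd (nat_lit 9) 
(.lf (nat_lit 599470) (.g (nat_lit 2613) (.e (nat_lit 573491) (nat_lit 15) (.e (nat_lit 81954) (nat_lit 23) (.e (nat_lit 98384) (nat_lit 32) (.e (nat_lit 475210) (nat_lit 41) (.e (nat_lit 720640) (nat_lit 15) .nil))))) (.g (nat_lit 0) (.e (nat_lit 417220) (nat_lit 0) .nil) .nil))) 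
(.lf (nat_lit 599982) (.g (nat_lit 1376) (.e (nat_lit 557086) (nat_lit 11) (.e (nat_lit 24638) (nat_lit 9) (.e (nat_lit 336004) (nat_lit 2) (.e (nat_lit 90133) (nat_lit 9) .nil)))) (.g (nat_lit 0) (.e (nat_lit 418659) (nat_lit 0) .nil) .nil)))))) (.nd (nat_lit 7) (.nd (nat_lit 8) (.nd (nat_lit 9) 
(.lf (nat_lit 599150) (.g (nat_lit 3873) (.e (nat_lit 573489) (nat_lit 14) (.e (nat_lit 73755) (nat_lit 8) (.e (nat_lit 557103) (nat_lit 14) (.e (nat_lit 180250) (nat_lit 10) (.e (nat_lit 573475) (nat_lit 12) (.e (nat_lit 57504) (nat_lit 38) (.e (nat_lit 638995) (nat_lit 7) (.e (nat_lit 163977) (nat_lit 30) .nil)))))))) (.g (nat_lit 1) (.e (nat_lit 416261) (nat_lit 0) .nil) .nil))) 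
(.lf (nat_lit 599662) (.g (nat_lit 765) (.e (nat_lit 573493) (nat_lit 15) (.e (nat_lit 81953) (nat_lit 22) (.e (nat_lit 90150) (nat_lit 9) .nil))) (.g (nat_lit 0) (.e (nat_lit 417664) (nat_lit 0) .nil) .nil)))) (.nd (nat_lit 9) 
(.lf (nat_lit 599406) (.g (nat_lit 2266) (.e (nat_lit 573491) (nat_lit 15) (.e (nat_lit 81954) (nat_lit 23) (.e (nat_lit 98359) (nat_lit 26) (.e (nat_lit 426023) (nat_lit 0) (.e (nat_lit 3402) (nat_lit 211) (.e (nat_lit 647180) (nat_lit 3) (.e (nat_lit 163976) (nat_lit 30) .nil))))))) (.g (nat_lit 1) (.e (nat_lit 417080) (nat_lit 0) .nil) .nil))) 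
(.lf (nat_lit 599918) (.g (nat_lit 3630) (.e (nat_lit 557070) (nat_lit 9) (.e (nat_lit 2744) (nat_lit 174) (.e (nat_lit 253991) (nat_lit 11) (.e (nat_lit 16412) (nat_lit 2) (.e (nat_lit 196681) (nat_lit 17) (.e (nat_lit 131109) (nat_lit 9) (.e (nat_lit 335878) (nat_lit 0) (.e (nat_lit 1850) (nat_lit 124) .nil)))))))) (.g (nat_lit 1) (.e (nat_lit 418533) (nat_lit 0) .nil) .nil))))) 
(.nd (nat_lit 8) (.nd (nat_lit 9) 
(.lf (nat_lit 599278) (.g (nat_lit 1764) (.e (nat_lit 573490) (nat_lit 15) (.e (nat_lit 81956) (nat_lit 23) (.e (nat_lit 98366) (nat_lit 27) (.e (nat_lit 434270) (nat_lit 38) .nil)))) (.g (nat_lit 0) (.e (nat_lit 416721) (nat_lit 0) .nil) .nil))) 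
(.lf (nat_lit 599790) (.g (nat_lit 699) (.e (nat_lit 581652) (nat_lit 5) (.e (nat_lit 180284) (nat_lit 45) (.e (nat_lit 2580) (nat_lit 161) (.e (nat_lit 40965) (nat_lit 0) (.e (nat_lit 1582) (nat_lit 111) (.e (nat_lit 368384) (nat_lit 11) .nil)))))) (.g (nat_lit 1) (.e (nat_lit 418103) (nat_lit 0) .nil) .nil)))) (.nd (nat_lit 9) 
(.lf (nat_lit 599534) (.g (nat_lit 2696) (.e (nat_lit 573491) (nat_lit 15) (.e (nat_lit 81956) (nat_lit 23) (.e (nat_lit 98384) (nat_lit 32) (.e (nat_lit 483072) (nat_lit 40) .nil)))) (.g (nat_lit 0) (.e (nat_lit 417294) (nat_lit 0) .nil) .nil))) 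
(.lf (nat_lit 600046) (.g (nat_lit 1641) (.e (nat_lit 557089) (nat_lit 12) (.e (nat_lit 163850) (nat_lit 0) (.e (nat_lit 6425) (nat_lit 342) (.e (nat_lit 229404) (nat_lit 12) .nil)))) (.g (nat_lit 0) (.e (nat_lit 418761) (nat_lit 0) .nil) .nil)))))))) (.nd (nat_lit 5) (.nd (nat_lit 6) (.nd (nat_lit 7) (.nd (nat_lit 8) (.nd (nat_lit 9) 
(.lf (nat_lit 599070) (.g (nat_lit 2816) (.e (nat_lit 573489) (nat_lit 14) (.e (nat_lit 73755) (nat_lit 8) (.e (nat_lit 557091) (nat_lit 12) (.e (nat_lit 163843) (nat_lit 0) (.e (nat_lit 5934) (nat_lit 322) .nil))))) (.g (nat_lit 0) (.e (nat_lit 415997) (nat_lit 0) .nil) .nil))) 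
(.lf (nat_lit 599582) (.g (nat_lit 2286) (.e (nat_lit 573492) (nat_lit 15) (.e (nat_lit 81954) (nat_lit 23) (.e (nat_lit 98386) (nat_lit 32) (.e (nat_lit 475199) (nat_lit 40) (.e (nat_lit 704589) (nat_lit 3) (.e (nat_lit 163976) (nat_lit 30) .nil)))))) (.g (nat_lit 1) (.e (nat_lit 417447) (nat_lit 0) .nil) .nil)))) (.nd (nat_lit 9) 
(.lf (nat_lit 599326) (.g (nat_lit 2224) (.e (nat_lit 573491) (nat_lit 15) (.e (nat_lit 81951) (nat_lit 22) (.e (nat_lit 90170) (nat_lit 13) (.e (nat_lit 172041) (nat_lit 0) .nil)))) (.g (nat_lit 0) (.e (nat_lit 416903) (nat_lit 0) .nil) .nil))) 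
(.lf (nat_lit 599838) (.g (nat_lit 1809) (.e (nat_lit 557064) (nat_lit 9) (.e (nat_lit 2744) (nat_lit 174) (.e (nat_lit 253991) (nat_lit 11) (.e (nat_lit 16413) (nat_lit 2) .nil)))) (.g (nat_lit 0) (.e (nat_lit 418225) (nat_lit 0) .nil) .nil))))) (.nd (nat_lit 8) (.nd (nat_lit 9) 
(.lf (nat_lit 599198) (.g (nat_lit 1401) (.e (nat_lit 573489) (nat_lit 14) (.e (nat_lit 73755) (nat_lit 8) (.e (nat_lit 557105) (nat_lit 14) (.e (nat_lit 180245) (nat_lit 5) .nil)))) (.g (nat_lit 0) (.e (nat_lit 416430) (nat_lit 0) .nil) .nil))) 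
(.lf (nat_lit 599710) (.g (nat_lit 4956) (.e (nat_lit 573493) (nat_lit 15) (.e (nat_lit 81956) (nat_lit 23) (.e (nat_lit 98367) (nat_lit 27) (.e (nat_lit 434272) (nat_lit 38) (.e (nat_lit 655364) (nat_lit 0) (.e (nat_lit 2472) (nat_lit 157) (.e (nat_lit 3308) (nat_lit 202) .nil))))))) (.g (nat_lit 1) (.e (nat_lit 417762) (nat_lit 0) .nil) .nil)))) (.nd (nat_lit 9) 
(.lf (nat_lit 599454) (.g (nat_lit 3565) (.e (nat_lit 573491) (nat_lit 15) (.e (nat_lit 81954) (nat_lit 23) (.e (nat_lit 98384) (nat_lit 32) (.e (nat_lit 475198) (nat_lit 40) (.e (nat_lit 704589) (nat_lit 3) (.e (nat_lit 163975) (nat_lit 30) .nil)))))) (.g (nat_lit 1) (.e (nat_lit 417204) (nat_lit 0) .nil) .nil))) 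
(.lf (nat_lit 599966) (.g (nat_lit 908) (.e (nat_lit 557085) (nat_lit 11) (.e (nat_lit 24661) (nat_lit 14) (.e (nat_lit 401412) (nat_lit 0) .nil))) (.g (nat_lit 0) (.e (nat_lit 418637) (nat_lit 0) .nil) .nil)))))) (.nd (nat_lit 7) (.nd (nat_lit 8) (.nd (nat_lit 9) 
(.lf (nat_lit 599134) (.g (nat_lit 2968) (.e (nat_lit 573489) (nat_lit 14) (.e (nat_lit 73755) (nat_lit 8) (.e (nat_lit 557103) (nat_lit 14) (.e (nat_lit 180244) (nat_lit 5) (.e (nat_lit 532481) (nat_lit 0) (.e (nat_lit 2264) (nat_lit 149) (.e (nat_lit 761899) (nat_lit 15) (.e (nat_lit 163978) (nat_lit 30) .nil)))))))) (.g (nat_lit 1) (.e (nat_lit 416178) (nat_lit 0) .nil) .nil))) 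
(.lf (nat_lit 599646) (.g (nat_lit 347) (.e (nat_lit 573493) (nat_lit 15) (.e (nat_lit 81938) (nat_lit 20) (.e (nat_lit 1842) (nat_lit 123) .nil))) (.g (nat_lit 0) (.e (nat_lit 417627) (nat_lit 0) .nil) .nil)))) (.nd (nat_lit 9) 
(.lf (nat_lit 599390) (.g (nat_lit 1772) (.e (nat_lit 573491) (nat_lit 15) (.e (nat_lit 81954) (nat_lit 23) (.e (nat_lit 98356) (nat_lit 26) (.e (nat_lit 426352) (nat_lit 15) (.e (nat_lit 2108) (nat_lit 142) .nil))))) (.g (nat_lit 0) (.e (nat_lit 417058) (nat_lit 0) .nil) .nil))) 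
(.lf (nat_lit 599902) (.g (nat_lit 870) (.e (nat_lit 557067) (nat_lit 9) (.e (nat_lit 3022) (nat_lit 187) (.e (nat_lit 450586) (nat_lit 10) (.e (nat_lit 573471) (nat_lit 11) .nil)))) (.g (nat_lit 0) (.e (nat_lit 418469) (nat_lit 0) .nil) .nil))))) (.nd (nat_lit 8) (.nd (nat_lit 9) 
(.lf (nat_lit 599262) (.g (nat_lit 2158) (.e (nat_lit 573490) (nat_lit 15) (.e (nat_lit 81950) (nat_lit 21) (.e (nat_lit 57704) (nat_lit 164) (.e (nat_lit 2628) (nat_lit 164) (.e (nat_lit 172082) (nat_lit 7) .nil))))) (.g (nat_lit 0) (.e (nat_lit 416703) (nat_lit 0) .nil) .nil))) 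
(.lf (nat_lit 599774) (.g (nat_lit 373) (.e (nat_lit 581651) (nat_lit 4) (.e (nat_lit 172086) (nat_lit 9) (.e (nat_lit 426558) (nat_lit 33) (.e (nat_lit 392960) (nat_lit 5) .nil)))) (.g (nat_lit 0) (.e (nat_lit 417948) (nat_lit 0) .nil) .nil)))) (.nd (nat_lit 9) 
(.lf (nat_lit 599518) (.g (nat_lit 2444) (.e (nat_lit 573491) (nat_lit 15) (.e (nat_lit 81956) (nat_lit 23) (.e (nat_lit 98356) (nat_lit 26) (.e (nat_lit 426374) (nat_lit 15) (.e (nat_lit 2059) (nat_lit 142) .nil))))) (.g (nat_lit 0) (.e (nat_lit 417271) (nat_lit 0) .nil) .nil))) 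
(.lf (nat_lit 600030) (.g (nat_lit 3797) (.e (nat_lit 557089) (nat_lit 12) (.e (nat_lit 163848) (nat_lit 0) (.e (nat_lit 6416) (nat_lit 341) (.e (nat_lit 163900) (nat_lit 12) (.e (nat_lit 426125) (nat_lit 2) (.e (nat_lit 196666) (nat_lit 13) (.e (nat_lit 65617) (nat_lit 10) (.e (nat_lit 344130) (nat_lit 26) .nil)))))))) (.g (nat_lit 1) (.e (nat_lit 418732) (nat_lit 0) .nil) .nil))))))) 
(.nd (nat_lit 6) (.nd (nat_lit 7) (.nd (nat_lit 8) (.nd (nat_lit 9) 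
(.lf (nat_lit 599102) (.g (nat_lit 3692) (.e (nat_lit 573489) (nat_lit 14) (.e (nat_lit 73755) (nat_lit 8) (.e (nat_lit 557098) (nat_lit 13) (.e (nat_lit 172067) (nat_lit 3) (.e (nat_lit 212736) (nat_lit 7) (.e (nat_lit 409615) (nat_lit 10) (.e (nat_lit 632) (nat_lit 50) .nil))))))) (.g (nat_lit 1) (.e (nat_lit 416095) (nat_lit 0) .nil) .nil))) 
(.lf (nat_lit 599614) (.g (nat_lit 5201) (.e (nat_lit 573492) (nat_lit 15) (.e (nat_lit 81956) (nat_lit 23) (.e (nat_lit 98367) (nat_lit 27) (.e (nat_lit 434271) (nat_lit 38) (.e (nat_lit 655375) (nat_lit 3) (.e (nat_lit 163979) (nat_lit 30) .nil)))))) (.g (nat_lit 1) (.e (nat_lit 417561) (nat_lit 0) .nil) .nil)))) (.nd (nat_lit 9) 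
(.lf (nat_lit 599358) (.g (nat_lit 1550) (.e (nat_lit 573491) (nat_lit 15) (.e (nat_lit 81953) (nat_lit 22) (.e (nat_lit 90170) (nat_lit 13) (.e (nat_lit 172032) (nat_lit 0) .nil)))) (.g (nat_lit 0) (.e (nat_lit 416980) (nat_lit 0) .nil) .nil))) 
(.lf (nat_lit 599870) (.g (nat_lit 3463) (.e (nat_lit 557065) (nat_lit 9) (.e (nat_lit 3044) (nat_lit 189) (.e (nat_lit 466981) (nat_lit 23) (.e (nat_lit 204861) (nat_lit 26) (.e (nat_lit 335988) (nat_lit 1) (.e (nat_lit 57927) (nat_lit 282) (.e (nat_lit 163844) (nat_lit 0) (.e (nat_lit 7936) (nat_lit 200) .nil)))))))) (.g (nat_lit 1) (.e (nat_lit 418323) (nat_lit 0) .nil) .nil))))) 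
(.nd (nat_lit 8) (.nd (nat_lit 9) 
(.lf (nat_lit 599230) (.g (nat_lit 3107) (.e (nat_lit 573489) (nat_lit 14) (.e (nat_lit 73755) (nat_lit 8) (.e (nat_lit 557105) (nat_lit 14) (.e (nat_lit 180252) (nat_lit 10) (.e (nat_lit 573474) (nat_lit 12) (.e (nat_lit 57504) (nat_lit 38) (.e (nat_lit 638994) (nat_lit 7) (.e (nat_lit 163974) (nat_lit 30) .nil)))))))) (.g (nat_lit 1) (.e (nat_lit 416599) (nat_lit 0) .nil) .nil))) 
(.lf (nat_lit 599742) (.g (nat_lit 3036) (.e (nat_lit 573503) (nat_lit 18) (.e (nat_lit 1348) (nat_lit 102) (.e (nat_lit 286761) (nat_lit 13) (.e (nat_lit 393251) (nat_lit 18) (.e (nat_lit 164143) (nat_lit 146) (.e (nat_lit 2637) (nat_lit 165) (.e (nat_lit 180252) (nat_lit 10) .nil))))))) (.g (nat_lit 1) (.e (nat_lit 417835) (nat_lit 0) .nil) .nil)))) (.nd (nat_lit 9) 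
(.lf (nat_lit 599486) (.g (nat_lit 2354) (.e (nat_lit 573491) (nat_lit 15) (.e (nat_lit 81954) (nat_lit 23) (.e (nat_lit 98387) (nat_lit 33) (.e (nat_lit 491549) (nat_lit 9) (.e (nat_lit 336306) (nat_lit 15) (.e (nat_lit 3298) (nat_lit 202) .nil)))))) (.g (nat_lit 1) (.e (nat_lit 417237) (nat_lit 0) .nil) .nil))) 
(.lf (nat_lit 599998) (.g (nat_lit 4464) (.e (nat_lit 557087) (nat_lit 11) (.e (nat_lit 24628) (nat_lit 9) (.e (nat_lit 336240) (nat_lit 15) (.e (nat_lit 3309) (nat_lit 202) (.e (nat_lit 573484) (nat_lit 13) (.e (nat_lit 65610) (nat_lit 10) (.e (nat_lit 344129) (nat_lit 26) .nil))))))) (.g (nat_lit 1) (.e (nat_lit 418683) (nat_lit 0) .nil) .nil)))))) 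
(.nd (nat_lit 7) (.nd (nat_lit 8) (.nd (nat_lit 9) 
(.lf (nat_lit 599166) (.g (nat_lit 1281) (.e (nat_lit 573489) (nat_lit 14) (.e (nat_lit 73755) (nat_lit 8) (.e (nat_lit 557104) (nat_lit 14) (.e (nat_lit 188160) (nat_lit 3) .nil)))) (.g (nat_lit 0) (.e (nat_lit 416342) (nat_lit 0) .nil) .nil))) 
(.lf (nat_lit 599678) (.g (nat_lit 1186) (.e (nat_lit 573493) (nat_lit 15) (.e (nat_lit 81953) (nat_lit 22) (.e (nat_lit 90188) (nat_lit 18) .nil))) (.g (nat_lit 0) (.e (nat_lit 417687) (nat_lit 0) .nil) .nil)))) (.nd (nat_lit 9) 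
(.lf (nat_lit 599422) (.g (nat_lit 4051) (.e (nat_lit 573491) (nat_lit 15) (.e (nat_lit 81954) (nat_lit 23) (.e (nat_lit 98359) (nat_lit 26) (.e (nat_lit 426412) (nat_lit 15) (.e (nat_lit 2059) (nat_lit 142) (.e (nat_lit 704589) (nat_lit 3) (.e (nat_lit 163976) (nat_lit 30) .nil))))))) (.g (nat_lit 1) (.e (nat_lit 417119) (nat_lit 0) .nil) .nil))) 
(.lf (nat_lit 599934) (.g (nat_lit 1839) (.e (nat_lit 557070) (nat_lit 9) (.e (nat_lit 2744) (nat_lit 174) (.e (nat_lit 253992) (nat_lit 11) (.e (nat_lit 16412) (nat_lit 2) (.e (nat_lit 196672) (nat_lit 15) .nil))))) (.g (nat_lit 0) (.e (nat_lit 418550) (nat_lit 0) .nil) .nil))))) (.nd (nat_lit 8) (.nd (nat_lit 9) 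
(.lf (nat_lit 599294) (.g (nat_lit 499) (.e (nat_lit 573491) (nat_lit 15) (.e (nat_lit 81946) (nat_lit 20) (.e (nat_lit 1846) (nat_lit 124) .nil))) (.g (nat_lit 0) (.e (nat_lit 416826) (nat_lit 0) .nil) .nil))) 
(.lf (nat_lit 599806) (.g (nat_lit 1089) (.e (nat_lit 581653) (nat_lit 6) (.e (nat_lit 188441) (nat_lit 20) (.e (nat_lit 3579) (nat_lit 223) (.e (nat_lit 745489) (nat_lit 4) .nil)))) (.g (nat_lit 0) (.e (nat_lit 418132) (nat_lit 0) .nil) .nil)))) (.nd (nat_lit 9) 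
(.lf (nat_lit 599550) (.g (nat_lit 497) (.e (nat_lit 573492) (nat_lit 15) (.e (nat_lit 81951) (nat_lit 22) (.e (nat_lit 90133) (nat_lit 9) .nil))) (.g (nat_lit 0) (.e (nat_lit 417345) (nat_lit 0) .nil) .nil))) 
(.lf (nat_lit 600062) (.g (nat_lit 4705) (.e (nat_lit 557090) (nat_lit 12) (.e (nat_lit 163847) (nat_lit 0) (.e (nat_lit 6254) (nat_lit 337) (.e (nat_lit 2630) (nat_lit 164) (.e (nat_lit 172064) (nat_lit 2) (.e (nat_lit 196666) (nat_lit 13) (.e (nat_lit 65617) (nat_lit 10) (.e (nat_lit 344130) (nat_lit 26) .nil)))))))) (.g (nat_lit 1) (.e (nat_lit 418799) (nat_lit 0) .nil) .nil)))))))))))) 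
(.nd (nat_lit 1) (.nd (nat_lit 2) (.nd (nat_lit 3) (.nd (nat_lit 4) (.nd (nat_lit 5) 
(.nd (nat_lit 6) (.nd (nat_lit 7) (.nd (nat_lit 8) (.nd (nat_lit 9) 
(.lf (nat_lit 599041) (.g (nat_lit 2139) (.e (nat_lit 573489) (nat_lit 14) (.e (nat_lit 73754) (nat_lit 8) (.e (nat_lit 557105) (nat_lit 14) (.e (nat_lit 180252) (nat_lit 10) (.e (nat_lit 573473) (nat_lit 12) .nil))))) (.g (nat_lit 0) (.e (nat_lit 415892) (nat_lit 0) .nil) .nil))) 
(.lf (nat_lit 599553) (.g (nat_lit 2624) (.e (nat_lit 573492) (nat_lit 15) (.e (nat_lit 81951) (nat_lit 22) (.e (nat_lit 90170) (nat_lit 13) (.e (nat_lit 172048) (nat_lit 0) .nil)))) (.g (nat_lit 0) (.e (nat_lit 417353) (nat_lit 0) .nil) .nil)))) (.nd (nat_lit 9) 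
(.lf (nat_lit 599297) (.g (nat_lit 1439) (.e (nat_lit 573491) (nat_lit 15) (.e (nat_lit 81946) (nat_lit 20) (.e (nat_lit 1858) (nat_lit 124) (.e (nat_lit 557072) (nat_lit 9) .nil)))) (.g (nat_lit 0) (.e (nat_lit 416829) (nat_lit 0) .nil) .nil))) 
(.lf (nat_lit 599809) (.g (nat_lit 1237) (.e (nat_lit 557059) (nat_lit 0) (.e (nat_lit 1582) (nat_lit 111) (.e (nat_lit 360493) (nat_lit 27) (.e (nat_lit 819203) (nat_lit 0) (.e (nat_lit 3015) (nat_lit 187) (.e (nat_lit 458496) (nat_lit 8) .nil)))))) (.g (nat_lit 1) (.e (nat_lit 418169) (nat_lit 0) .nil) .nil))))) (.nd (nat_lit 8) (.nd (nat_lit 9) 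
(.lf (nat_lit 599169) (.g (nat_lit 3378) (.e (nat_lit 573489) (nat_lit 14) (.e (nat_lit 73755) (nat_lit 8) (.e (nat_lit 557104) (nat_lit 14) (.e (nat_lit 180250) (nat_lit 10) (.e (nat_lit 573475) (nat_lit 12) (.e (nat_lit 57502) (nat_lit 38) (.e (nat_lit 638995) (nat_lit 7) (.e (nat_lit 163979) (nat_lit 30) .nil)))))))) (.g (nat_lit 1) (.e (nat_lit 416361) (nat_lit 0) .nil) .nil))) 
(.lf (nat_lit 599681) (.g (nat_lit 1179) (.e (nat_lit 573493) (nat_lit 15) (.e (nat_lit 81953) (nat_lit 22) (.e (nat_lit 90194) (nat_lit 18) .nil))) (.g (nat_lit 0) (.e (nat_lit 417690) (nat_lit 0) .nil) .nil)))) (.nd (nat_lit 9) 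
(.lf (nat_lit 599425) (.g (nat_lit 3192) (.e (nat_lit 573491) (nat_lit 15) (.e (nat_lit 81954) (nat_lit 23) (.e (nat_lit 98362) (nat_lit 26) (.e (nat_lit 426412) (nat_lit 15) (.e (nat_lit 2059) (nat_lit 142) (.e (nat_lit 704589) (nat_lit 3) (.e (nat_lit 163976) (nat_lit 30) .nil))))))) (.g (nat_lit 1) (.e (nat_lit 417123) (nat_lit 0) .nil) .nil))) 
(.lf (nat_lit 599937) (.g (nat_lit 3391) (.e (nat_lit 557070) (nat_lit 9) (.e (nat_lit 2744) (nat_lit 174) (.e (nat_lit 253992) (nat_lit 11) (.e (nat_lit 16412) (nat_lit 2) (.e (nat_lit 196681) (nat_lit 17) (.e (nat_lit 131109) (nat_lit 9) (.e (nat_lit 335878) (nat_lit 0) (.e (nat_lit 1850) (nat_lit 124) .nil)))))))) (.g (nat_lit 1) (.e (nat_lit 418553) (nat_lit 0) .nil) .nil)))))) 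
(.nd (nat_lit 7) (.nd (nat_lit 8) (.nd (nat_lit 9) 
(.lf (nat_lit 599105) (.g (nat_lit 4044) (.e (nat_lit 573489) (nat_lit 14) (.e (nat_lit 73755) (nat_lit 8) (.e (nat_lit 557098) (nat_lit 13) (.e (nat_lit 172067) (nat_lit 3) (.e (nat_lit 204815) (nat_lit 17) (.e (nat_lit 2271) (nat_lit 149) (.e (nat_lit 761899) (nat_lit 15) (.e (nat_lit 163977) (nat_lit 30) .nil)))))))) (.g (nat_lit 1) (.e (nat_lit 416099) (nat_lit 0) .nil) .nil))) 
(.lf (nat_lit 599617) (.g (nat_lit 4366) (.e (nat_lit 573492) (nat_lit 15) (.e (nat_lit 81956) (nat_lit 23) (.e (nat_lit 98368) (nat_lit 27) (.e (nat_lit 434272) (nat_lit 38) (.e (nat_lit 655375) (nat_lit 3) (.e (nat_lit 163979) (nat_lit 30) .nil)))))) (.g (nat_lit 1) (.e (nat_lit 417572) (nat_lit 0) .nil) .nil)))) (.nd (nat_lit 9) 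
(.lf (nat_lit 599361) (.g (nat_lit 1569) (.e (nat_lit 573491) (nat_lit 15) (.e (nat_lit 81953) (nat_lit 22) (.e (nat_lit 90170) (nat_lit 13) (.e (nat_lit 172138) (nat_lit 15) .nil)))) (.g (nat_lit 0) (.e (nat_lit 416983) (nat_lit 0) .nil) .nil))) 
(.lf (nat_lit 599873) (.g (nat_lit 1625) (.e (nat_lit 557065) (nat_lit 9) (.e (nat_lit 3098) (nat_lit 192) (.e (nat_lit 491571) (nat_lit 13) (.e (nat_lit 393251) (nat_lit 18) .nil)))) (.g (nat_lit 0) (.e (nat_lit 418333) (nat_lit 0) .nil) .nil))))) (.nd (nat_lit 8) (.nd (nat_lit 9) 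
(.lf (nat_lit 599233) (.g (nat_lit 2613) (.e (nat_lit 573489) (nat_lit 14) (.e (nat_lit 73755) (nat_lit 8) (.e (nat_lit 557105) (nat_lit 14) (.e (nat_lit 180252) (nat_lit 10) (.e (nat_lit 573475) (nat_lit 12) (.e (nat_lit 57503) (nat_lit 38) (.e (nat_lit 638983) (nat_lit 5) (.e (nat_lit 2461) (nat_lit 157) (.e (nat_lit 3308) (nat_lit 202) .nil))))))))) (.g (nat_lit 1) (.e (nat_lit 416610) (nat_lit 0) .nil) .nil))) 
(.lf (nat_lit 599745) (.g (nat_lit 2998) (.e (nat_lit 573503) (nat_lit 18) (.e (nat_lit 1348) (nat_lit 102) (.e (nat_lit 286761) (nat_lit 13) (.e (nat_lit 393251) (nat_lit 18) (.e (nat_lit 164146) (nat_lit 146) (.e (nat_lit 2637) (nat_lit 165) (.e (nat_lit 180252) (nat_lit 10) .nil))))))) (.g (nat_lit 1) (.e (nat_lit 417838) (nat_lit 0) .nil) .nil)))) (.nd (nat_lit 9) 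
(.lf (nat_lit 599489) (.g (nat_lit 2939) (.e (nat_lit 573491) (nat_lit 15) (.e (nat_lit 81954) (nat_lit 23) (.e (nat_lit 98387) (nat_lit 33) (.e (nat_lit 491566) (nat_lit 12) (.e (nat_lit 385072) (nat_lit 31) .nil))))) (.g (nat_lit 1) (.e (nat_lit 417240) (nat_lit 0) .nil) .nil))) 
(.lf (nat_lit 600001) (.g (nat_lit 1052) (.e (nat_lit 557087) (nat_lit 11) (.e (nat_lit 24640) (nat_lit 10) (.e (nat_lit 344107) (nat_lit 19) (.e (nat_lit 499825) (nat_lit 5) .nil)))) (.g (nat_lit 0) (.e (nat_lit 418686) (nat_lit 0) .nil) .nil))))))) (.nd (nat_lit 6) (.nd (nat_lit 7) (.nd (nat_lit 8) (.nd (nat_lit 9) 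
(.lf (nat_lit 599073) (.g (nat_lit 3270) (.e (nat_lit 573489) (nat_lit 14) (.e (nat_lit 73755) (nat_lit 8) (.e (nat_lit 557091) (nat_lit 12) (.e (nat_lit 163843) (nat_lit 0) (.e (nat_lit 5941) (nat_lit 322) (.e (nat_lit 57371) (nat_lit 2) (.e (nat_lit 90174) (nat_lit 14) (.e (nat_lit 180251) (nat_lit 10) .nil)))))))) (.g (nat_lit 1) (.e (nat_lit 416000) (nat_lit 0) .nil) .nil))) 
(.lf (nat_lit 599585) (.g (nat_lit 472) (.e (nat_lit 573492) (nat_lit 15) (.e (nat_lit 81956) (nat_lit 23) (.e (nat_lit 98318) (nat_lit 17) .nil))) (.g (nat_lit 0) (.e (nat_lit 417450) (nat_lit 0) .nil) .nil)))) (.nd (nat_lit 9) 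
(.lf (nat_lit 599329) (.g (nat_lit 4024) (.e (nat_lit 573491) (nat_lit 15) (.e (nat_lit 81951) (nat_lit 22) (.e (nat_lit 90170) (nat_lit 13) (.e (nat_lit 172042) (nat_lit 0) (.e (nat_lit 3406) (nat_lit 212) (.e (nat_lit 655375) (nat_lit 3) (.e (nat_lit 163979) (nat_lit 30) .nil))))))) (.g (nat_lit 1) (.e (nat_lit 416907) (nat_lit 0) .nil) .nil))) 
(.lf (nat_lit 599841) (.g (nat_lit 3657) (.e (nat_lit 557065) (nat_lit 9) (.e (nat_lit 2690) (nat_lit 169) (.e (nat_lit 213032) (nat_lit 11) (.e (nat_lit 24604) (nat_lit 2) (.e (nat_lit 90176) (nat_lit 15) (.e (nat_lit 188439) (nat_lit 20) (.e (nat_lit 7936) (nat_lit 200) .nil))))))) (.g (nat_lit 1) (.e (nat_lit 418249) (nat_lit 0) .nil) .nil))))) (.nd (nat_lit 8) (.nd (nat_lit 9) 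
(.lf (nat_lit 599201) (.g (nat_lit 2675) (.e (nat_lit 573489) (nat_lit 14) (.e (nat_lit 73755) (nat_lit 8) (.e (nat_lit 557105) (nat_lit 14) (.e (nat_lit 180250) (nat_lit 10) (.e (nat_lit 573473) (nat_lit 12) .nil))))) (.g (nat_lit 0) (.e (nat_lit 416459) (nat_lit 0) .nil) .nil))) 
(.lf (nat_lit 599713) (.g (nat_lit 1206) (.e (nat_lit 573493) (nat_lit 15) (.e (nat_lit 81956) (nat_lit 23) (.e (nat_lit 98386) (nat_lit 32) (.e (nat_lit 475209) (nat_lit 41) .nil)))) (.g (nat_lit 0) (.e (nat_lit 417767) (nat_lit 0) .nil) .nil)))) (.nd (nat_lit 9) 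
(.lf (nat_lit 599457) (.g (nat_lit 4213) (.e (nat_lit 573491) (nat_lit 15) (.e (nat_lit 81954) (nat_lit 23) (.e (nat_lit 98384) (nat_lit 32) (.e (nat_lit 475199) (nat_lit 40) (.e (nat_lit 704590) (nat_lit 3) (.e (nat_lit 163975) (nat_lit 30) .nil)))))) (.g (nat_lit 1) (.e (nat_lit 417207) (nat_lit 0) .nil) .nil))) 
(.lf (nat_lit 599969) (.g (nat_lit 606) (.e (nat_lit 557085) (nat_lit 11) (.e (nat_lit 24663) (nat_lit 14) (.e (nat_lit 401410) (nat_lit 0) .nil))) (.g (nat_lit 0) (.e (nat_lit 418640) (nat_lit 0) .nil) .nil)))))) (.nd (nat_lit 7) (.nd (nat_lit 8) (.nd (nat_lit 9) 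
(.lf (nat_lit 599137) (.g (nat_lit 3182) (.e (nat_lit 573489) (nat_lit 14) (.e (nat_lit 73755) (nat_lit 8) (.e (nat_lit 557103) (nat_lit 14) (.e (nat_lit 180244) (nat_lit 5) (.e (nat_lit 532489) (nat_lit 0) (.e (nat_lit 7936) (nat_lit 149) (.e (nat_lit 761899) (nat_lit 15) (.e (nat_lit 163978) (nat_lit 30) .nil)))))))) (.g (nat_lit 1) (.e (nat_lit 416182) (nat_lit 0) .nil) .nil))) 
(.lf (nat_lit 599649) (.g (nat_lit 419) (.e (nat_lit 573493) (nat_lit 15) (.e (nat_lit 81951) (nat_lit 22) (.e (nat_lit 90165) (nat_lit 12) .nil))) (.g (nat_lit 0) (.e (nat_lit 417646) (nat_lit 0) .nil) .nil)))) (.nd (nat_lit 9) 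
(.lf (nat_lit 599393) (.g (nat_lit 1390) (.e (nat_lit 573491) (nat_lit 15) (.e (nat_lit 81954) (nat_lit 23) (.e (nat_lit 98356) (nat_lit 26) (.e (nat_lit 426363) (nat_lit 15) .nil)))) (.g (nat_lit 0) (.e (nat_lit 417062) (nat_lit 0) .nil) .nil))) 
(.lf (nat_lit 599905) (.g (nat_lit 1972) (.e (nat_lit 557068) (nat_lit 9) (.e (nat_lit 2828) (nat_lit 182) (.e (nat_lit 409646) (nat_lit 18) (.e (nat_lit 303152) (nat_lit 27) .nil)))) (.g (nat_lit 0) (.e (nat_lit 418501) (nat_lit 0) .nil) .nil))))) (.nd (nat_lit 8) (.nd (nat_lit 9) 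
(.lf (nat_lit 599265) (.g (nat_lit 1981) (.e (nat_lit 573490) (nat_lit 15) (.e (nat_lit 81953) (nat_lit 22) (.e (nat_lit 90170) (nat_lit 13) (.e (nat_lit 172061) (nat_lit 1) .nil)))) (.g (nat_lit 0) (.e (nat_lit 416706) (nat_lit 0) .nil) .nil))) 
(.lf (nat_lit 599777) (.g (nat_lit 1211) (.e (nat_lit 581651) (nat_lit 4) (.e (nat_lit 172097) (nat_lit 9) (.e (nat_lit 426025) (nat_lit 0) (.e (nat_lit 3569) (nat_lit 222) .nil)))) (.g (nat_lit 0) (.e (nat_lit 417953) (nat_lit 0) .nil) .nil)))) (.nd (nat_lit 9) 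
(.lf (nat_lit 599521) (.g (nat_lit 2066) (.e (nat_lit 573491) (nat_lit 15) (.e (nat_lit 81956) (nat_lit 23) (.e (nat_lit 98359) (nat_lit 26) (.e (nat_lit 426396) (nat_lit 15) (.e (nat_lit 2059) (nat_lit 142) .nil))))) (.g (nat_lit 0) (.e (nat_lit 417274) (nat_lit 0) .nil) .nil))) 
(.lf (nat_lit 600033) (.g (nat_lit 4406) (.e (nat_lit 557089) (nat_lit 12) (.e (nat_lit 163849) (nat_lit 0) (.e (nat_lit 6254) (nat_lit 337) (.e (nat_lit 2630) (nat_lit 164) (.e (nat_lit 172064) (nat_lit 2) (.e (nat_lit 196666) (nat_lit 13) (.e (nat_lit 65617) (nat_lit 10) (.e (nat_lit 344130) (nat_lit 26) .nil)))))))) (.g (nat_lit 1) (.e (nat_lit 418739) (nat_lit 0) .nil) .nil)))))))) 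
(.nd (nat_lit 5) (.nd (nat_lit 6) (.nd (nat_lit 7) (.nd (nat_lit 8) (.nd (nat_lit 9) 
(.lf (nat_lit 599057) (.g (nat_lit 3289) (.e (nat_lit 573489) (nat_lit 14) (.e (nat_lit 73755) (nat_lit 8) (.e (nat_lit 557090) (nat_lit 12) (.e (nat_lit 163850) (nat_lit 0) (.e (nat_lit 5950) (nat_lit 322) (.e (nat_lit 57371) (nat_lit 2) (.e (nat_lit 90174) (nat_lit 14) (.e (nat_lit 180250) (nat_lit 10) .nil)))))))) (.g (nat_lit 1) (.e (nat_lit 415982) (nat_lit 0) .nil) .nil))) 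
(.lf (nat_lit 599569) (.g (nat_lit 1308) (.e (nat_lit 573492) (nat_lit 15) (.e (nat_lit 81954) (nat_lit 23) (.e (nat_lit 98358) (nat_lit 26) (.e (nat_lit 426444) (nat_lit 19) .nil)))) (.g (nat_lit 0) (.e (nat_lit 417434) (nat_lit 0) .nil) .nil)))) (.nd (nat_lit 9) 
(.lf (nat_lit 599313) (.g (nat_lit 3796) (.e (nat_lit 573491) (nat_lit 15) (.e (nat_lit 81951) (nat_lit 22) (.e (nat_lit 90134) (nat_lit 9) (.e (nat_lit 3098) (nat_lit 192) (.e (nat_lit 491566) (nat_lit 12) (.e (nat_lit 385073) (nat_lit 31) .nil)))))) (.g (nat_lit 1) (.e (nat_lit 416867) (nat_lit 0) .nil) .nil))) 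
(.lf (nat_lit 599825) (.g (nat_lit 508) (.e (nat_lit 564992) (nat_lit 6) (.e (nat_lit 81938) (nat_lit 20) (.e (nat_lit 2389) (nat_lit 156) .nil))) (.g (nat_lit 0) (.e (nat_lit 418211) (nat_lit 0) .nil) .nil))))) (.nd (nat_lit 8) (.nd (nat_lit 9) 
(.lf (nat_lit 599185) (.g (nat_lit 4273) (.e (nat_lit 573489) (nat_lit 14) (.e (nat_lit 73755) (nat_lit 8) (.e (nat_lit 557104) (nat_lit 14) (.e (nat_lit 180252) (nat_lit 10) (.e (nat_lit 573475) (nat_lit 12) (.e (nat_lit 57504) (nat_lit 38) (.e (nat_lit 638996) (nat_lit 7) (.e (nat_lit 163977) (nat_lit 30) .nil)))))))) (.g (nat_lit 1) (.e (nat_lit 416378) (nat_lit 0) .nil) .nil))) 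
(.lf (nat_lit 599697) (.g (nat_lit 880) (.e (nat_lit 573493) (nat_lit 15) (.e (nat_lit 81956) (nat_lit 23) (.e (nat_lit 98335) (nat_lit 18) .nil))) (.g (nat_lit 0) (.e (nat_lit 417721) (nat_lit 0) .nil) .nil)))) (.nd (nat_lit 9) 
(.lf (nat_lit 599441) (.g (nat_lit 3175) (.e (nat_lit 573491) (nat_lit 15) (.e (nat_lit 81954) (nat_lit 23) (.e (nat_lit 98367) (nat_lit 27) (.e (nat_lit 434271) (nat_lit 38) (.e (nat_lit 655373) (nat_lit 3) (.e (nat_lit 163976) (nat_lit 30) .nil)))))) (.g (nat_lit 1) (.e (nat_lit 417176) (nat_lit 0) .nil) .nil))) 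
(.lf (nat_lit 599953) (.g (nat_lit 1502) (.e (nat_lit 557072) (nat_lit 9) (.e (nat_lit 3098) (nat_lit 192) (.e (nat_lit 491571) (nat_lit 13) (.e (nat_lit 393252) (nat_lit 18) .nil)))) (.g (nat_lit 0) (.e (nat_lit 418601) (nat_lit 0) .nil) .nil)))))) (.nd (nat_lit 7) (.nd (nat_lit 8) (.nd (nat_lit 9) 
(.lf (nat_lit 599121) (.g (nat_lit 1518) (.e (nat_lit 573489) (nat_lit 14) (.e (nat_lit 73755) (nat_lit 8) (.e (nat_lit 557100) (nat_lit 13) (.e (nat_lit 172065) (nat_lit 3) .nil)))) (.g (nat_lit 0) (.e (nat_lit 416148) (nat_lit 0) .nil) .nil))) 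
(.lf (nat_lit 599633) (.g (nat_lit 4679) (.e (nat_lit 573492) (nat_lit 15) (.e (nat_lit 81956) (nat_lit 23) (.e (nat_lit 98386) (nat_lit 32) (.e (nat_lit 475198) (nat_lit 40) (.e (nat_lit 704589) (nat_lit 3) (.e (nat_lit 163975) (nat_lit 30) .nil)))))) (.g (nat_lit 1) (.e (nat_lit 417596) (nat_lit 0) .nil) .nil)))) (.nd (nat_lit 9) 
(.lf (nat_lit 599377) (.g (nat_lit 2847) (.e (nat_lit 573491) (nat_lit 15) (.e (nat_lit 81954) (nat_lit 23) (.e (nat_lit 98325) (nat_lit 17) (.e (nat_lit 6986) (nat_lit 377) (.e (nat_lit 2781) (nat_lit 178) (.e (nat_lit 286765) (nat_lit 15) (.e (nat_lit 3298) (nat_lit 202) .nil))))))) (.g (nat_lit 1) (.e (nat_lit 417003) (nat_lit 0) .nil) .nil))) 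
(.lf (nat_lit 599889) (.g (nat_lit 4179) (.e (nat_lit 557067) (nat_lit 9) (.e (nat_lit 3022) (nat_lit 187) (.e (nat_lit 450580) (nat_lit 5) (.e (nat_lit 532535) (nat_lit 9) (.e (nat_lit 336295) (nat_lit 15) .nil))))) (.g (nat_lit 0) (.e (nat_lit 418425) (nat_lit 0) .nil) .nil))))) (.nd (nat_lit 8) (.nd (nat_lit 9) 
(.lf (nat_lit 599249) (.g (nat_lit 2760) (.e (nat_lit 573489) (nat_lit 14) (.e (nat_lit 73755) (nat_lit 8) (.e (nat_lit 557105) (nat_lit 14) (.e (nat_lit 180252) (nat_lit 10) (.e (nat_lit 573478) (nat_lit 12) (.e (nat_lit 57502) (nat_lit 38) (.e (nat_lit 638995) (nat_lit 7) (.e (nat_lit 163977) (nat_lit 30) .nil)))))))) (.g (nat_lit 1) (.e (nat_lit 416628) (nat_lit 0) .nil) .nil))) 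
(.lf (nat_lit 599761) (.g (nat_lit 1389) (.e (nat_lit 581636) (nat_lit 0) (.e (nat_lit 3015) (nat_lit 187) (.e (nat_lit 450605) (nat_lit 27) (.e (nat_lit 745493) (nat_lit 6) (.e (nat_lit 81938) (nat_lit 20) (.e (nat_lit 1885) (nat_lit 127) .nil)))))) (.g (nat_lit 1) (.e (nat_lit 417899) (nat_lit 0) .nil) .nil)))) (.nd (nat_lit 9) 
(.lf (nat_lit 599505) (.g (nat_lit 1676) (.e (nat_lit 573491) (nat_lit 15) (.e (nat_lit 81955) (nat_lit 23) (.e (nat_lit 98386) (nat_lit 32) (.e (nat_lit 475196) (nat_lit 40) (.e (nat_lit 704589) (nat_lit 3) .nil))))) (.g (nat_lit 0) (.e (nat_lit 417257) (nat_lit 0) .nil) .nil))) 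
(.lf (nat_lit 600017) (.g (nat_lit 2196) (.e (nat_lit 557089) (nat_lit 12) (.e (nat_lit 163843) (nat_lit 0) (.e (nat_lit 6420) (nat_lit 341) (.e (nat_lit 163902) (nat_lit 12) (.e (nat_lit 426093) (nat_lit 0) .nil))))) (.g (nat_lit 0) (.e (nat_lit 418707) (nat_lit 0) .nil) .nil))))))) (.nd (nat_lit 6) (.nd (nat_lit 7) (.nd (nat_lit 8) (.nd (nat_lit 9) 
(.lf (nat_lit 599089) (.g (nat_lit 3639) (.e (nat_lit 573489) (nat_lit 14) (.e (nat_lit 73755) (nat_lit 8) (.e (nat_lit 557097) (nat_lit 13) (.e (nat_lit 172065) (nat_lit 3) (.e (nat_lit 204817) (nat_lit 17) (.e (nat_lit 7936) (nat_lit 149) (.e (nat_lit 761899) (nat_lit 15) (.e (nat_lit 163978) (nat_lit 30) .nil)))))))) (.g (nat_lit 1) (.e (nat_lit 416040) (nat_lit 0) .nil) .nil))) 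
(.lf (nat_lit 599601) (.g (nat_lit 4002) (.e (nat_lit 573492) (nat_lit 15) (.e (nat_lit 81956) (nat_lit 23) (.e (nat_lit 98360) (nat_lit 26) (.e (nat_lit 426048) (nat_lit 0) (.e (nat_lit 3408) (nat_lit 212) (.e (nat_lit 655375) (nat_lit 3) (.e (nat_lit 163979) (nat_lit 30) .nil))))))) (.g (nat_lit 1) (.e (nat_lit 417521) (nat_lit 0) .nil) .nil)))) (.nd (nat_lit 9) 
(.lf (nat_lit 599345) (.g (nat_lit 2428) (.e (nat_lit 573491) (nat_lit 15) (.e (nat_lit 81951) (nat_lit 22) (.e (nat_lit 90170) (nat_lit 13) (.e (nat_lit 172052) (nat_lit 0) .nil)))) (.g (nat_lit 0) (.e (nat_lit 416930) (nat_lit 0) .nil) .nil))) 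
(.lf (nat_lit 599857) (.g (nat_lit 1719) (.e (nat_lit 557065) (nat_lit 9) (.e (nat_lit 3044) (nat_lit 189) (.e (nat_lit 466977) (nat_lit 22) (.e (nat_lit 196681) (nat_lit 17) (.e (nat_lit 131088) (nat_lit 1) .nil))))) (.g (nat_lit 0) (.e (nat_lit 418301) (nat_lit 0) .nil) .nil))))) (.nd (nat_lit 8) (.nd (nat_lit 9) 
(.lf (nat_lit 599217) (.g (nat_lit 3083) (.e (nat_lit 573489) (nat_lit 14) (.e (nat_lit 73755) (nat_lit 8) (.e (nat_lit 557105) (nat_lit 14) (.e (nat_lit 180252) (nat_lit 10) (.e (nat_lit 573473) (nat_lit 12) (.e (nat_lit 57504) (nat_lit 38) (.e (nat_lit 638994) (nat_lit 7) (.e (nat_lit 163976) (nat_lit 30) .nil)))))))) (.g (nat_lit 1) (.e (nat_lit 416541) (nat_lit 0) .nil) .nil))) 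
(.lf (nat_lit 599729) (.g (nat_lit 565) (.e (nat_lit 573502) (nat_lit 18) (.e (nat_lit 1349) (nat_lit 102) (.e (nat_lit 286743) (nat_lit 9) .nil))) (.g (nat_lit 0) (.e (nat_lit 417815) (nat_lit 0) .nil) .nil)))) (.nd (nat_lit 9) 
(.lf (nat_lit 599473) (.g (nat_lit 2004) (.e (nat_lit 573491) (nat_lit 15) (.e (nat_lit 81954) (nat_lit 23) (.e (nat_lit 98385) (nat_lit 32) (.e (nat_lit 475196) (nat_lit 40) (.e (nat_lit 704589) (nat_lit 3) (.e (nat_lit 163976) (nat_lit 30) .nil)))))) (.g (nat_lit 1) (.e (nat_lit 417224) (nat_lit 0) .nil) .nil))) 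
(.lf (nat_lit 599985) (.g (nat_lit 4147) (.e (nat_lit 557087) (nat_lit 11) (.e (nat_lit 24577) (nat_lit 0) (.e (nat_lit 6619) (nat_lit 357) (.e (nat_lit 2668) (nat_lit 167) (.e (nat_lit 196666) (nat_lit 13) (.e (nat_lit 65617) (nat_lit 10) (.e (nat_lit 344130) (nat_lit 26) .nil))))))) (.g (nat_lit 1) (.e (nat_lit 418663) (nat_lit 0) .nil) .nil)))))) 
(.nd (nat_lit 7) (.nd (nat_lit 8) (.nd (nat_lit 9) 
(.lf (nat_lit 599153) (.g (nat_lit 5583) (.e (nat_lit 573489) (nat_lit 14) (.e (nat_lit 73755) (nat_lit 8) (.e (nat_lit 557103) (nat_lit 14) (.e (nat_lit 180251) (nat_lit 10) (.e (nat_lit 573475) (nat_lit 12) (.e (nat_lit 57503) (nat_lit 38) (.e (nat_lit 638995) (nat_lit 7) (.e (nat_lit 163979) (nat_lit 30) .nil)))))))) (.g (nat_lit 1) (.e (nat_lit 416264) (nat_lit 0) .nil) .nil))) 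
(.lf (nat_lit 599665) (.g (nat_lit 2280) (.e (nat_lit 573493) (nat_lit 15) (.e (nat_lit 81953) (nat_lit 22) (.e (nat_lit 90170) (nat_lit 13) (.e (nat_lit 172040) (nat_lit 0) .nil)))) (.g (nat_lit 0) (.e (nat_lit 417668) (nat_lit 0) .nil) .nil)))) (.nd (nat_lit 9) 
(.lf (nat_lit 599409) (.g (nat_lit 3624) (.e (nat_lit 573491) (nat_lit 15) (.e (nat_lit 81954) (nat_lit 23) (.e (nat_lit 98359) (nat_lit 26) (.e (nat_lit 426043) (nat_lit 0) (.e (nat_lit 3406) (nat_lit 212) (.e (nat_lit 655375) (nat_lit 3) (.e (nat_lit 163979) (nat_lit 30) .nil))))))) (.g (nat_lit 1) (.e (nat_lit 417089) (nat_lit 0) .nil) .nil))) 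
(.lf (nat_lit 599921) (.g (nat_lit 4374) (.e (nat_lit 557070) (nat_lit 9) (.e (nat_lit 2744) (nat_lit 174) (.e (nat_lit 253991) (nat_lit 11) (.e (nat_lit 16414) (nat_lit 3) (.e (nat_lit 204869) (nat_lit 29) (.e (nat_lit 360474) (nat_lit 8) .nil)))))) (.g (nat_lit 1) (.e (nat_lit 418536) (nat_lit 0) .nil) .nil))))) (.nd (nat_lit 8) (.nd (nat_lit 9) 
(.lf (nat_lit 599281) (.g (nat_lit 767) (.e (nat_lit 573490) (nat_lit 15) (.e (nat_lit 81956) (nat_lit 23) (.e (nat_lit 98377) (nat_lit 30) .nil))) (.g (nat_lit 0) (.e (nat_lit 416724) (nat_lit 0) .nil) .nil))) 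
(.lf (nat_lit 599793) (.g (nat_lit 688) (.e (nat_lit 581652) (nat_lit 5) (.e (nat_lit 180287) (nat_lit 45) (.e (nat_lit 2577) (nat_lit 161) (.e (nat_lit 40965) (nat_lit 0) (.e (nat_lit 1582) (nat_lit 111) (.e (nat_lit 368384) (nat_lit 11) .nil)))))) (.g (nat_lit 1) (.e (nat_lit 418106) (nat_lit 0) .nil) .nil)))) (.nd (nat_lit 9) 
(.lf (nat_lit 599537) (.g (nat_lit 889) (.e (nat_lit 573491) (nat_lit 15) (.e (nat_lit 81956) (nat_lit 23) (.e (nat_lit 98385) (nat_lit 32) .nil))) (.g (nat_lit 0) (.e (nat_lit 417297) (nat_lit 0) .nil) .nil))) 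
(.lf (nat_lit 600049) (.g (nat_lit 1715) (.e (nat_lit 557089) (nat_lit 12) (.e (nat_lit 164038) (nat_lit 55) (.e (nat_lit 786176) (nat_lit 11) (.e (nat_lit 24604) (nat_lit 2) (.e (nat_lit 90176) (nat_lit 15) (.e (nat_lit 188439) (nat_lit 20) (.e (nat_lit 7936) (nat_lit 200) .nil))))))) (.g (nat_lit 1) (.e (nat_lit 418779) (nat_lit 0) .nil) .nil))))))))) 
(.nd (nat_lit 4) (.nd (nat_lit 5) (.nd (nat_lit 6) (.nd (nat_lit 7) (.nd (nat_lit 8) 
(.nd (nat_lit 9) 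
(.lf (nat_lit 599049) (.g (nat_lit 2208) (.e (nat_lit 573489) (nat_lit 14) (.e (nat_lit 73755) (nat_lit 8) (.e (nat_lit 557090) (nat_lit 12) (.e (nat_lit 163843) (nat_lit 0) (.e (nat_lit 5941) (nat_lit 322) .nil))))) (.g (nat_lit 0) (.e (nat_lit 415964) (nat_lit 0) .nil) .nil))) 
(.lf (nat_lit 599561) (.g (nat_lit 1174) (.e (nat_lit 573492) (nat_lit 15) (.e (nat_lit 81953) (nat_lit 22) (.e (nat_lit 90162) (nat_lit 12) .nil))) (.g (nat_lit 0) (.e (nat_lit 417386) (nat_lit 0) .nil) .nil)))) (.nd (nat_lit 9) 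
(.lf (nat_lit 599305) (.g (nat_lit 437) (.e (nat_lit 573491) (nat_lit 15) (.e (nat_lit 81947) (nat_lit 20) (.e (nat_lit 1842) (nat_lit 123) .nil))) (.g (nat_lit 0) (.e (nat_lit 416843) (nat_lit 0) .nil) .nil))) 
(.lf (nat_lit 599817) (.g (nat_lit 1141) (.e (nat_lit 557061) (nat_lit 0) (.e (nat_lit 1591) (nat_lit 111) (.e (nat_lit 360493) (nat_lit 27) (.e (nat_lit 819204) (nat_lit 0) (.e (nat_lit 3016) (nat_lit 187) (.e (nat_lit 458496) (nat_lit 8) .nil)))))) (.g (nat_lit 1) (.e (nat_lit 418191) (nat_lit 0) .nil) .nil))))) (.nd (nat_lit 8) (.nd (nat_lit 9) 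
(.lf (nat_lit 599177) (.g (nat_lit 5330) (.e (nat_lit 573489) (nat_lit 14) (.e (nat_lit 73755) (nat_lit 8) (.e (nat_lit 557104) (nat_lit 14) (.e (nat_lit 180252) (nat_lit 10) (.e (nat_lit 573473) (nat_lit 12) (.e (nat_lit 57503) (nat_lit 38) (.e (nat_lit 638995) (nat_lit 7) (.e (nat_lit 163979) (nat_lit 30) .nil)))))))) (.g (nat_lit 1) (.e (nat_lit 416370) (nat_lit 0) .nil) .nil))) 
(.lf (nat_lit 599689) (.g (nat_lit 3209) (.e (nat_lit 573493) (nat_lit 15) (.e (nat_lit 81954) (nat_lit 23) (.e (nat_lit 98367) (nat_lit 27) (.e (nat_lit 434272) (nat_lit 38) (.e (nat_lit 655367) (nat_lit 0) .nil))))) (.g (nat_lit 0) (.e (nat_lit 417703) (nat_lit 0) .nil) .nil)))) (.nd (nat_lit 9) 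
(.lf (nat_lit 599433) (.g (nat_lit 2589) (.e (nat_lit 573491) (nat_lit 15) (.e (nat_lit 81954) (nat_lit 23) (.e (nat_lit 98366) (nat_lit 27) (.e (nat_lit 434271) (nat_lit 38) (.e (nat_lit 655373) (nat_lit 3) (.e (nat_lit 163976) (nat_lit 30) .nil)))))) (.g (nat_lit 1) (.e (nat_lit 417154) (nat_lit 0) .nil) .nil))) 
(.lf (nat_lit 599945) (.g (nat_lit 3154) (.e (nat_lit 557072) (nat_lit 9) (.e (nat_lit 3098) (nat_lit 192) (.e (nat_lit 491568) (nat_lit 13) (.e (nat_lit 393251) (nat_lit 18) (.e (nat_lit 164183) (nat_lit 154) .nil))))) (.g (nat_lit 0) (.e (nat_lit 418591) (nat_lit 0) .nil) .nil)))))) (.nd (nat_lit 7) (.nd (nat_lit 8) (.nd (nat_lit 9) 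
(.lf (nat_lit 599113) (.g (nat_lit 2012) (.e (nat_lit 573489) (nat_lit 14) (.e (nat_lit 73755) (nat_lit 8) (.e (nat_lit 557098) (nat_lit 13) (.e (nat_lit 172133) (nat_lit 15) (.e (nat_lit 1800) (nat_lit 119) .nil))))) (.g (nat_lit 0) (.e (nat_lit 416119) (nat_lit 0) .nil) .nil))) 
(.lf (nat_lit 599625) (.g (nat_lit 2302) (.e (nat_lit 573492) (nat_lit 15) (.e (nat_lit 81956) (nat_lit 23) (.e (nat_lit 98384) (nat_lit 32) (.e (nat_lit 475200) (nat_lit 40) (.e (nat_lit 712448) (nat_lit 3) .nil))))) (.g (nat_lit 0) (.e (nat_lit 417585) (nat_lit 0) .nil) .nil)))) (.nd (nat_lit 9) 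
(.lf (nat_lit 599369) (.g (nat_lit 3080) (.e (nat_lit 573491) (nat_lit 15) (.e (nat_lit 81954) (nat_lit 23) (.e (nat_lit 98323) (nat_lit 17) (.e (nat_lit 6989) (nat_lit 377) (.e (nat_lit 2779) (nat_lit 178) (.e (nat_lit 286765) (nat_lit 15) (.e (nat_lit 3298) (nat_lit 202) .nil))))))) (.g (nat_lit 1) (.e (nat_lit 416993) (nat_lit 0) .nil) .nil))) 
(.lf (nat_lit 599881) (.g (nat_lit 1836) (.e (nat_lit 557067) (nat_lit 9) (.e (nat_lit 2466) (nat_lit 157) (.e (nat_lit 3469) (nat_lit 217) (.e (nat_lit 696344) (nat_lit 8) (.e (nat_lit 172065) (nat_lit 3) .nil))))) (.g (nat_lit 0) (.e (nat_lit 418375) (nat_lit 0) .nil) .nil))))) (.nd (nat_lit 8) (.nd (nat_lit 9) 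
(.lf (nat_lit 599241) (.g (nat_lit 4204) (.e (nat_lit 573489) (nat_lit 14) (.e (nat_lit 73755) (nat_lit 8) (.e (nat_lit 557105) (nat_lit 14) (.e (nat_lit 180252) (nat_lit 10) (.e (nat_lit 573475) (nat_lit 12) (.e (nat_lit 57504) (nat_lit 38) (.e (nat_lit 638986) (nat_lit 5) (.e (nat_lit 2472) (nat_lit 157) (.e (nat_lit 3307) (nat_lit 202) .nil))))))))) (.g (nat_lit 1) (.e (nat_lit 416619) (nat_lit 0) .nil) .nil))) 
(.lf (nat_lit 599753) (.g (nat_lit 479) (.e (nat_lit 581635) (nat_lit 0) (.e (nat_lit 3015) (nat_lit 187) (.e (nat_lit 450562) (nat_lit 0) .nil))) (.g (nat_lit 0) (.e (nat_lit 417871) (nat_lit 0) .nil) .nil)))) (.nd (nat_lit 9) 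
(.lf (nat_lit 599497) (.g (nat_lit 1697) (.e (nat_lit 573491) (nat_lit 15) (.e (nat_lit 81954) (nat_lit 23) (.e (nat_lit 98389) (nat_lit 33) (.e (nat_lit 491556) (nat_lit 9) (.e (nat_lit 343808) (nat_lit 15) (.e (nat_lit 3297) (nat_lit 202) .nil)))))) (.g (nat_lit 1) (.e (nat_lit 417248) (nat_lit 0) .nil) .nil))) 
(.lf (nat_lit 600009) (.g (nat_lit 1161) (.e (nat_lit 557087) (nat_lit 11) (.e (nat_lit 24665) (nat_lit 14) (.e (nat_lit 401419) (nat_lit 0) .nil))) (.g (nat_lit 0) (.e (nat_lit 418698) (nat_lit 0) .nil) .nil))))))) (.nd (nat_lit 6) (.nd (nat_lit 7) (.nd (nat_lit 8) (.nd (nat_lit 9) 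
(.lf (nat_lit 599081) (.g (nat_lit 1275) (.e (nat_lit 573489) (nat_lit 14) (.e (nat_lit 73755) (nat_lit 8) (.e (nat_lit 557091) (nat_lit 12) (.e (nat_lit 164006) (nat_lit 41) .nil)))) (.g (nat_lit 0) (.e (nat_lit 416015) (nat_lit 0) .nil) .nil))) 
(.lf (nat_lit 599593) (.g (nat_lit 3109) (.e (nat_lit 573492) (nat_lit 15) (.e (nat_lit 81956) (nat_lit 23) (.e (nat_lit 98355) (nat_lit 26) (.e (nat_lit 425986) (nat_lit 0) (.e (nat_lit 3411) (nat_lit 212) (.e (nat_lit 655375) (nat_lit 3) (.e (nat_lit 163979) (nat_lit 30) .nil))))))) (.g (nat_lit 1) (.e (nat_lit 417497) (nat_lit 0) .nil) .nil)))) (.nd (nat_lit 9) 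
(.lf (nat_lit 599337) (.g (nat_lit 3705) (.e (nat_lit 573491) (nat_lit 15) (.e (nat_lit 81951) (nat_lit 22) (.e (nat_lit 90170) (nat_lit 13) (.e (nat_lit 172049) (nat_lit 0) (.e (nat_lit 3406) (nat_lit 212) (.e (nat_lit 655375) (nat_lit 3) (.e (nat_lit 163977) (nat_lit 30) .nil))))))) (.g (nat_lit 1) (.e (nat_lit 416919) (nat_lit 0) .nil) .nil))) 
(.lf (nat_lit 599849) (.g (nat_lit 2192) (.e (nat_lit 557065) (nat_lit 9) (.e (nat_lit 2700) (nat_lit 169) (.e (nat_lit 213032) (nat_lit 11) (.e (nat_lit 24609) (nat_lit 3) (.e (nat_lit 98372) (nat_lit 29) (.e (nat_lit 458496) (nat_lit 8) .nil)))))) (.g (nat_lit 1) (.e (nat_lit 418257) (nat_lit 0) .nil) .nil))))) (.nd (nat_lit 8) (.nd (nat_lit 9) 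
(.lf (nat_lit 599209) (.g (nat_lit 2982) (.e (nat_lit 573489) (nat_lit 14) (.e (nat_lit 73755) (nat_lit 8) (.e (nat_lit 557105) (nat_lit 14) (.e (nat_lit 180252) (nat_lit 10) (.e (nat_lit 573472) (nat_lit 12) (.e (nat_lit 57502) (nat_lit 38) (.e (nat_lit 638995) (nat_lit 7) (.e (nat_lit 163979) (nat_lit 30) .nil)))))))) (.g (nat_lit 1) (.e (nat_lit 416532) (nat_lit 0) .nil) .nil))) 
(.lf (nat_lit 599721) (.g (nat_lit 622) (.e (nat_lit 573493) (nat_lit 15) (.e (nat_lit 81957) (nat_lit 24) (.e (nat_lit 130816) (nat_lit 140) .nil))) (.g (nat_lit 0) (.e (nat_lit 417775) (nat_lit 0) .nil) .nil)))) (.nd (nat_lit 9) 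
(.lf (nat_lit 599465) (.g (nat_lit 2240) (.e (nat_lit 573491) (nat_lit 15) (.e (nat_lit 81954) (nat_lit 23) (.e (nat_lit 98384) (nat_lit 32) (.e (nat_lit 475209) (nat_lit 41) .nil)))) (.g (nat_lit 0) (.e (nat_lit 417215) (nat_lit 0) .nil) .nil))) 
(.lf (nat_lit 599977) (.g (nat_lit 2939) (.e (nat_lit 557085) (nat_lit 11) (.e (nat_lit 24665) (nat_lit 14) (.e (nat_lit 401426) (nat_lit 3) (.e (nat_lit 204868) (nat_lit 29) (.e (nat_lit 360473) (nat_lit 8) .nil))))) (.g (nat_lit 1) (.e (nat_lit 418649) (nat_lit 0) .nil) .nil)))))) (.nd (nat_lit 7) (.nd (nat_lit 8) (.nd (nat_lit 9) 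
(.lf (nat_lit 599145) (.g (nat_lit 3681) (.e (nat_lit 573489) (nat_lit 14) (.e (nat_lit 73755) (nat_lit 8) (.e (nat_lit 557103) (nat_lit 14) (.e (nat_lit 180250) (nat_lit 10) (.e (nat_lit 573474) (nat_lit 12) (.e (nat_lit 57504) (nat_lit 38) (.e (nat_lit 638996) (nat_lit 7) (.e (nat_lit 163979) (nat_lit 30) .nil)))))))) (.g (nat_lit 1) (.e (nat_lit 416256) (nat_lit 0) .nil) .nil))) 
(.lf (nat_lit 599657) (.g (nat_lit 4106) (.e (nat_lit 573493) (nat_lit 15) (.e (nat_lit 81953) (nat_lit 22) (.e (nat_lit 90134) (nat_lit 9) (.e (nat_lit 3098) (nat_lit 192) (.e (nat_lit 491566) (nat_lit 12) (.e (nat_lit 392960) (nat_lit 31) .nil)))))) (.g (nat_lit 1) (.e (nat_lit 417657) (nat_lit 0) .nil) .nil)))) (.nd (nat_lit 9) 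
(.lf (nat_lit 599401) (.g (nat_lit 1959) (.e (nat_lit 573491) (nat_lit 15) (.e (nat_lit 81954) (nat_lit 23) (.e (nat_lit 98358) (nat_lit 26) (.e (nat_lit 426442) (nat_lit 19) .nil)))) (.g (nat_lit 0) (.e (nat_lit 417074) (nat_lit 0) .nil) .nil))) 
(.lf (nat_lit 599913) (.g (nat_lit 2242) (.e (nat_lit 557070) (nat_lit 9) (.e (nat_lit 2744) (nat_lit 174) (.e (nat_lit 253991) (nat_lit 11) (.e (nat_lit 16412) (nat_lit 2) (.e (nat_lit 196672) (nat_lit 15) .nil))))) (.g (nat_lit 0) (.e (nat_lit 418528) (nat_lit 0) .nil) .nil))))) (.nd (nat_lit 8) (.nd (nat_lit 9) 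
(.lf (nat_lit 599273) (.g (nat_lit 2248) (.e (nat_lit 573490) (nat_lit 15) (.e (nat_lit 81956) (nat_lit 23) (.e (nat_lit 98350) (nat_lit 24) (.e (nat_lit 409617) (nat_lit 10) (.e (nat_lit 7936) (nat_lit 299) .nil))))) (.g (nat_lit 0) (.e (nat_lit 416716) (nat_lit 0) .nil) .nil))) 
(.lf (nat_lit 599785) (.g (nat_lit 408) (.e (nat_lit 581651) (nat_lit 4) (.e (nat_lit 172113) (nat_lit 10) (.e (nat_lit 434295) (nat_lit 49) .nil))) (.g (nat_lit 0) (.e (nat_lit 417974) (nat_lit 0) .nil) .nil)))) (.nd (nat_lit 9) 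
(.lf (nat_lit 599529) (.g (nat_lit 2326) (.e (nat_lit 573491) (nat_lit 15) (.e (nat_lit 81956) (nat_lit 23) (.e (nat_lit 98384) (nat_lit 32) (.e (nat_lit 475196) (nat_lit 40) .nil)))) (.g (nat_lit 0) (.e (nat_lit 417289) (nat_lit 0) .nil) .nil))) 
(.lf (nat_lit 600041) (.g (nat_lit 3113) (.e (nat_lit 557089) (nat_lit 12) (.e (nat_lit 163849) (nat_lit 0) (.e (nat_lit 6420) (nat_lit 341) (.e (nat_lit 163908) (nat_lit 12) (.e (nat_lit 426132) (nat_lit 3) (.e (nat_lit 204868) (nat_lit 29) (.e (nat_lit 360473) (nat_lit 8) .nil))))))) (.g (nat_lit 1) (.e (nat_lit 418753) (nat_lit 0) .nil) .nil)))))))) 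
(.nd (nat_lit 5) (.nd (nat_lit 6) (.nd (nat_lit 7) (.nd (nat_lit 8) (.nd (nat_lit 9) 
(.lf (nat_lit 599065) (.g (nat_lit 1468) (.e (nat_lit 573489) (nat_lit 14) (.e (nat_lit 73755) (nat_lit 8) (.e (nat_lit 557090) (nat_lit 12) (.e (nat_lit 164006) (nat_lit 41) .nil)))) (.g (nat_lit 0) (.e (nat_lit 415990) (nat_lit 0) .nil) .nil))) 
(.lf (nat_lit 599577) (.g (nat_lit 1889) (.e (nat_lit 573492) (nat_lit 15) (.e (nat_lit 81954) (nat_lit 23) (.e (nat_lit 98384) (nat_lit 32) (.e (nat_lit 475201) (nat_lit 40) .nil)))) (.g (nat_lit 0) (.e (nat_lit 417442) (nat_lit 0) .nil) .nil)))) (.nd (nat_lit 9) 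
(.lf (nat_lit 599321) (.g (nat_lit 5129) (.e (nat_lit 573491) (nat_lit 15) (.e (nat_lit 81951) (nat_lit 22) (.e (nat_lit 90168) (nat_lit 13) (.e (nat_lit 172133) (nat_lit 15) (.e (nat_lit 2059) (nat_lit 142) (.e (nat_lit 704589) (nat_lit 3) (.e (nat_lit 163976) (nat_lit 30) .nil))))))) (.g (nat_lit 1) (.e (nat_lit 416892) (nat_lit 0) .nil) .nil))) 
(.lf (nat_lit 599833) (.g (nat_lit 1080) (.e (nat_lit 564992) (nat_lit 6) (.e (nat_lit 81946) (nat_lit 20) (.e (nat_lit 2391) (nat_lit 156) (.e (nat_lit 819221) (nat_lit 6) (.e (nat_lit 188428) (nat_lit 20) .nil))))) (.g (nat_lit 0) (.e (nat_lit 418219) (nat_lit 0) .nil) .nil))))) (.nd (nat_lit 8) (.nd (nat_lit 9) 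
(.lf (nat_lit 599193) (.g (nat_lit 2723) (.e (nat_lit 573489) (nat_lit 14) (.e (nat_lit 73755) (nat_lit 8) (.e (nat_lit 557105) (nat_lit 14) (.e (nat_lit 180244) (nat_lit 5) (.e (nat_lit 532484) (nat_lit 0) (.e (nat_lit 2271) (nat_lit 149) (.e (nat_lit 761899) (nat_lit 15) (.e (nat_lit 163978) (nat_lit 30) .nil)))))))) (.g (nat_lit 1) (.e (nat_lit 416405) (nat_lit 0) .nil) .nil))) 
(.lf (nat_lit 599705) (.g (nat_lit 5020) (.e (nat_lit 573493) (nat_lit 15) (.e (nat_lit 81956) (nat_lit 23) (.e (nat_lit 98359) (nat_lit 26) (.e (nat_lit 426097) (nat_lit 1) (.e (nat_lit 164348) (nat_lit 240) (.e (nat_lit 2610) (nat_lit 163) (.e (nat_lit 163979) (nat_lit 30) .nil))))))) (.g (nat_lit 1) (.e (nat_lit 417750) (nat_lit 0) .nil) .nil)))) (.nd (nat_lit 9) 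
(.lf (nat_lit 599449) (.g (nat_lit 2913) (.e (nat_lit 573491) (nat_lit 15) (.e (nat_lit 81954) (nat_lit 23) (.e (nat_lit 98383) (nat_lit 32) (.e (nat_lit 475198) (nat_lit 40) (.e (nat_lit 704589) (nat_lit 3) (.e (nat_lit 163975) (nat_lit 30) .nil)))))) (.g (nat_lit 1) (.e (nat_lit 417198) (nat_lit 0) .nil) .nil))) 
(.lf (nat_lit 599961) (.g (nat_lit 3018) (.e (nat_lit 557085) (nat_lit 11) (.e (nat_lit 24580) (nat_lit 0) (.e (nat_lit 6619) (nat_lit 357) (.e (nat_lit 2685) (nat_lit 168) (.e (nat_lit 204868) (nat_lit 29) (.e (nat_lit 360473) (nat_lit 8) .nil)))))) (.g (nat_lit 1) (.e (nat_lit 418632) (nat_lit 0) .nil) .nil)))))) (.nd (nat_lit 7) (.nd (nat_lit 8) (.nd (nat_lit 9) 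
(.lf (nat_lit 599129) (.g (nat_lit 4478) (.e (nat_lit 573489) (nat_lit 14) (.e (nat_lit 73755) (nat_lit 8) (.e (nat_lit 557103) (nat_lit 14) (.e (nat_lit 180243) (nat_lit 5) (.e (nat_lit 532484) (nat_lit 0) (.e (nat_lit 7936) (nat_lit 149) (.e (nat_lit 761898) (nat_lit 15) (.e (nat_lit 163978) (nat_lit 30) .nil)))))))) (.g (nat_lit 1) (.e (nat_lit 416161) (nat_lit 0) .nil) .nil))) 
(.lf (nat_lit 599641) (.g (nat_lit 3236) (.e (nat_lit 573492) (nat_lit 15) (.e (nat_lit 81956) (nat_lit 23) (.e (nat_lit 98389) (nat_lit 33) (.e (nat_lit 491552) (nat_lit 9) (.e (nat_lit 336282) (nat_lit 15) (.e (nat_lit 7936) (nat_lit 202) .nil)))))) (.g (nat_lit 1) (.e (nat_lit 417607) (nat_lit 0) .nil) .nil)))) (.nd (nat_lit 9) 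
(.lf (nat_lit 599385) (.g (nat_lit 1430) (.e (nat_lit 573491) (nat_lit 15) (.e (nat_lit 81954) (nat_lit 23) (.e (nat_lit 98356) (nat_lit 26) (.e (nat_lit 426354) (nat_lit 15) .nil)))) (.g (nat_lit 0) (.e (nat_lit 417053) (nat_lit 0) .nil) .nil))) 
(.lf (nat_lit 599897) (.g (nat_lit 4442) (.e (nat_lit 557067) (nat_lit 9) (.e (nat_lit 3022) (nat_lit 187) (.e (nat_lit 450580) (nat_lit 5) (.e (nat_lit 532563) (nat_lit 15) (.e (nat_lit 385093) (nat_lit 49) (.e (nat_lit 778317) (nat_lit 3) (.e (nat_lit 57477) (nat_lit 28) .nil))))))) (.g (nat_lit 1) (.e (nat_lit 418435) (nat_lit 0) .nil) .nil))))) (.nd (nat_lit 8) (.nd (nat_lit 9) 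
(.lf (nat_lit 599257) (.g (nat_lit 3259) (.e (nat_lit 573489) (nat_lit 14) (.e (nat_lit 73755) (nat_lit 8) (.e (nat_lit 557119) (nat_lit 18) (.e (nat_lit 2798) (nat_lit 180) (.e (nat_lit 303113) (nat_lit 0) (.e (nat_lit 7936) (nat_lit 200) (.e (nat_lit 557105) (nat_lit 14) (.e (nat_lit 180252) (nat_lit 10) .nil)))))))) (.g (nat_lit 1) (.e (nat_lit 416657) (nat_lit 0) .nil) .nil))) 
(.lf (nat_lit 599769) (.g (nat_lit 681) (.e (nat_lit 581651) (nat_lit 4) (.e (nat_lit 172067) (nat_lit 3) (.e (nat_lit 204838) (nat_lit 20) .nil))) (.g (nat_lit 0) (.e (nat_lit 417940) (nat_lit 0) .nil) .nil)))) (.nd (nat_lit 9) 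
(.lf (nat_lit 599513) (.g (nat_lit 1293) (.e (nat_lit 573491) (nat_lit 15) (.e (nat_lit 81956) (nat_lit 23) (.e (nat_lit 98325) (nat_lit 17) (.e (nat_lit 7556) (nat_lit 402) .nil)))) (.g (nat_lit 0) (.e (nat_lit 417265) (nat_lit 0) .nil) .nil))) 
(.lf (nat_lit 600025) (.g (nat_lit 4055) (.e (nat_lit 557089) (nat_lit 12) (.e (nat_lit 163844) (nat_lit 0) (.e (nat_lit 6420) (nat_lit 341) (.e (nat_lit 163900) (nat_lit 12) (.e (nat_lit 426125) (nat_lit 2) (.e (nat_lit 196666) (nat_lit 13) (.e (nat_lit 65617) (nat_lit 10) (.e (nat_lit 344130) (nat_lit 26) .nil)))))))) (.g (nat_lit 1) (.e (nat_lit 418719) (nat_lit 0) .nil) .nil))))))) 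
(.nd (nat_lit 6) (.nd (nat_lit 7) (.nd (nat_lit 8) (.nd (nat_lit 9) 
(.lf (nat_lit 599097) (.g (nat_lit 3689) (.e (nat_lit 573489) (nat_lit 14) (.e (nat_lit 73755) (nat_lit 8) (.e (nat_lit 557097) (nat_lit 13) (.e (nat_lit 179968) (nat_lit 18) (.e (nat_lit 98333) (nat_lit 18) (.e (nat_lit 164325) (nat_lit 230) (.e (nat_lit 163841) (nat_lit 0) (.e (nat_lit 3309) (nat_lit 202) .nil)))))))) (.g (nat_lit 1) (.e (nat_lit 416072) (nat_lit 0) .nil) .nil))) 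
(.lf (nat_lit 599609) (.g (nat_lit 743) (.e (nat_lit 573492) (nat_lit 15) (.e (nat_lit 81956) (nat_lit 23) (.e (nat_lit 98365) (nat_lit 26) .nil))) (.g (nat_lit 0) (.e (nat_lit 417535) (nat_lit 0) .nil) .nil)))) (.nd (nat_lit 9) 
(.lf (nat_lit 599353) (.g (nat_lit 2074) (.e (nat_lit 573491) (nat_lit 15) (.e (nat_lit 81951) (nat_lit 22) (.e (nat_lit 90185) (nat_lit 17) (.e (nat_lit 237581) (nat_lit 1) .nil)))) (.g (nat_lit 0) (.e (nat_lit 416969) (nat_lit 0) .nil) .nil))) 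
(.lf (nat_lit 599865) (.g (nat_lit 2952) (.e (nat_lit 557065) (nat_lit 9) (.e (nat_lit 3044) (nat_lit 189) (.e (nat_lit 466977) (nat_lit 22) (.e (nat_lit 196681) (nat_lit 17) (.e (nat_lit 131089) (nat_lit 1) (.e (nat_lit 57930) (nat_lit 282) (.e (nat_lit 163853) (nat_lit 0) (.e (nat_lit 7936) (nat_lit 200) .nil)))))))) (.g (nat_lit 1) (.e (nat_lit 418316) (nat_lit 0) .nil) .nil))))) 
(.nd (nat_lit 8) (.nd (nat_lit 9) 
(.lf (nat_lit 599225) (.g (nat_lit 4634) (.e (nat_lit 573489) (nat_lit 14) (.e (nat_lit 73755) (nat_lit 8) (.e (nat_lit 557105) (nat_lit 14) (.e (nat_lit 180252) (nat_lit 10) (.e (nat_lit 573474) (nat_lit 12) (.e (nat_lit 57503) (nat_lit 38) (.e (nat_lit 638994) (nat_lit 7) (.e (nat_lit 163979) (nat_lit 30) .nil)))))))) (.g (nat_lit 1) (.e (nat_lit 416594) (nat_lit 0) .nil) .nil))) 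
(.lf (nat_lit 599737) (.g (nat_lit 3296) (.e (nat_lit 573503) (nat_lit 18) (.e (nat_lit 1348) (nat_lit 102) (.e (nat_lit 286761) (nat_lit 13) (.e (nat_lit 393234) (nat_lit 17) (.e (nat_lit 2399) (nat_lit 157) (.e (nat_lit 6025) (nat_lit 326) (.e (nat_lit 2637) (nat_lit 165) (.e (nat_lit 180252) (nat_lit 10) .nil)))))))) (.g (nat_lit 1) (.e (nat_lit 417830) (nat_lit 0) .nil) .nil)))) 
(.nd (nat_lit 9) 
(.lf (nat_lit 599481) (.g (nat_lit 3560) (.e (nat_lit 573491) (nat_lit 15) (.e (nat_lit 81954) (nat_lit 23) (.e (nat_lit 98386) (nat_lit 32) (.e (nat_lit 475198) (nat_lit 40) (.e (nat_lit 704589) (nat_lit 3) (.e (nat_lit 163975) (nat_lit 30) .nil)))))) (.g (nat_lit 1) (.e (nat_lit 417232) (nat_lit 0) .nil) .nil))) 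
(.lf (nat_lit 599993) (.g (nat_lit 3983) (.e (nat_lit 557087) (nat_lit 11) (.e (nat_lit 24625) (nat_lit 9) (.e (nat_lit 336257) (nat_lit 15) (.e (nat_lit 3304) (nat_lit 202) (.e (nat_lit 573484) (nat_lit 13) (.e (nat_lit 65617) (nat_lit 10) (.e (nat_lit 344130) (nat_lit 26) .nil))))))) (.g (nat_lit 1) (.e (nat_lit 418678) (nat_lit 0) .nil) .nil)))))) 
(.nd (nat_lit 7) (.nd (nat_lit 8) (.nd (nat_lit 9) 
(.lf (nat_lit 599161) (.g (nat_lit 3876) (.e (nat_lit 573489) (nat_lit 14) (.e (nat_lit 73755) (nat_lit 8) (.e (nat_lit 557104) (nat_lit 14) (.e (nat_lit 180244) (nat_lit 5) (.e (nat_lit 532481) (nat_lit 0) (.e (nat_lit 2272) (nat_lit 149) (.e (nat_lit 761899) (nat_lit 15) (.e (nat_lit 163977) (nat_lit 30) .nil)))))))) (.g (nat_lit 1) (.e (nat_lit 416277) (nat_lit 0) .nil) .nil))) 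
(.lf (nat_lit 599673) (.g (nat_lit 5051) (.e (nat_lit 573493) (nat_lit 15) (.e (nat_lit 81953) (nat_lit 22) (.e (nat_lit 90170) (nat_lit 13) (.e (nat_lit 172061) (nat_lit 1) (.e (nat_lit 164348) (nat_lit 240) (.e (nat_lit 2610) (nat_lit 163) (.e (nat_lit 163979) (nat_lit 30) .nil))))))) (.g (nat_lit 1) (.e (nat_lit 417676) (nat_lit 0) .nil) .nil)))) (.nd (nat_lit 9) 
(.lf (nat_lit 599417) (.g (nat_lit 3113) (.e (nat_lit 573491) (nat_lit 15) (.e (nat_lit 81954) (nat_lit 23) (.e (nat_lit 98359) (nat_lit 26) (.e (nat_lit 426396) (nat_lit 15) (.e (nat_lit 2058) (nat_lit 142) (.e (nat_lit 704589) (nat_lit 3) (.e (nat_lit 163976) (nat_lit 30) .nil))))))) (.g (nat_lit 1) (.e (nat_lit 417114) (nat_lit 0) .nil) .nil))) 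
(.lf (nat_lit 599929) (.g (nat_lit 1256) (.e (nat_lit 557070) (nat_lit 9) (.e (nat_lit 2744) (nat_lit 174) (.e (nat_lit 253992) (nat_lit 11) (.e (nat_lit 16410) (nat_lit 2) .nil)))) (.g (nat_lit 0) (.e (nat_lit 418545) (nat_lit 0) .nil) .nil))))) (.nd (nat_lit 8) (.nd (nat_lit 9) 
(.lf (nat_lit 599289) (.g (nat_lit 446) (.e (nat_lit 573491) (nat_lit 15) (.e (nat_lit 81946) (nat_lit 20) (.e (nat_lit 1802) (nat_lit 119) .nil))) (.g (nat_lit 0) (.e (nat_lit 416795) (nat_lit 0) .nil) .nil))) 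
(.lf (nat_lit 599801) (.g (nat_lit 1054) (.e (nat_lit 581653) (nat_lit 6) (.e (nat_lit 188434) (nat_lit 20) (.e (nat_lit 3579) (nat_lit 223) (.e (nat_lit 745493) (nat_lit 6) .nil)))) (.g (nat_lit 0) (.e (nat_lit 418127) (nat_lit 0) .nil) .nil)))) (.nd (nat_lit 9) 
(.lf (nat_lit 599545) (.g (nat_lit 3386) (.e (nat_lit 573491) (nat_lit 15) (.e (nat_lit 81956) (nat_lit 23) (.e (nat_lit 98389) (nat_lit 33) (.e (nat_lit 491549) (nat_lit 9) (.e (nat_lit 336306) (nat_lit 15) (.e (nat_lit 3308) (nat_lit 202) .nil)))))) (.g (nat_lit 1) (.e (nat_lit 417305) (nat_lit 0) .nil) .nil))) 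
(.lf (nat_lit 600057) (.g (nat_lit 2802) (.e (nat_lit 557090) (nat_lit 12) (.e (nat_lit 163843) (nat_lit 0) (.e (nat_lit 6420) (nat_lit 341) (.e (nat_lit 163843) (nat_lit 0) (.e (nat_lit 7936) (nat_lit 388) (.e (nat_lit 2668) (nat_lit 167) (.e (nat_lit 196666) (nat_lit 13) (.e (nat_lit 65617) (nat_lit 10) (.e (nat_lit 344127) (nat_lit 26) .nil))))))))) (.g (nat_lit 1) (.e (nat_lit 418789) (nat_lit 0) .nil) .nil)))))))))) 
(.nd (nat_lit 3) (.nd (nat_lit 4) (.nd (nat_lit 5) (.nd (nat_lit 6) (.nd (nat_lit 7) 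
(.nd (nat_lit 8) (.nd (nat_lit 9) 
(.lf (nat_lit 599045) (.g (nat_lit 1767) (.e (nat_lit 573489) (nat_lit 14) (.e (nat_lit 73755) (nat_lit 8) (.e (nat_lit 557067) (nat_lit 9) (.e (nat_lit 2604) (nat_lit 163) .nil)))) (.g (nat_lit 0) (.e (nat_lit 415918) (nat_lit 0) .nil) .nil))) 
(.lf (nat_lit 599557) (.g (nat_lit 3104) (.e (nat_lit 573492) (nat_lit 15) (.e (nat_lit 81951) (nat_lit 22) (.e (nat_lit 90170) (nat_lit 13) (.e (nat_lit 172138) (nat_lit 15) (.e (nat_lit 2058) (nat_lit 142) (.e (nat_lit 704589) (nat_lit 3) (.e (nat_lit 163976) (nat_lit 30) .nil))))))) (.g (nat_lit 1) (.e (nat_lit 417359) (nat_lit 0) .nil) .nil)))) (.nd (nat_lit 9) 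
(.lf (nat_lit 599301) (.g (nat_lit 1292) (.e (nat_lit 573491) (nat_lit 15) (.e (nat_lit 81946) (nat_lit 20) (.e (nat_lit 1859) (nat_lit 124) (.e (nat_lit 557086) (nat_lit 11) (.e (nat_lit 24650) (nat_lit 12) .nil))))) (.g (nat_lit 0) (.e (nat_lit 416835) (nat_lit 0) .nil) .nil))) 
(.lf (nat_lit 599813) (.g (nat_lit 1413) (.e (nat_lit 557059) (nat_lit 0) (.e (nat_lit 1582) (nat_lit 111) (.e (nat_lit 360493) (nat_lit 27) (.e (nat_lit 819204) (nat_lit 0) (.e (nat_lit 3027) (nat_lit 187) (.e (nat_lit 458496) (nat_lit 8) .nil)))))) (.g (nat_lit 1) (.e (nat_lit 418175) (nat_lit 0) .nil) .nil))))) (.nd (nat_lit 8) (.nd (nat_lit 9) 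
(.lf (nat_lit 599173) (.g (nat_lit 5280) (.e (nat_lit 573489) (nat_lit 14) (.e (nat_lit 73755) (nat_lit 8) (.e (nat_lit 557104) (nat_lit 14) (.e (nat_lit 180251) (nat_lit 10) (.e (nat_lit 573475) (nat_lit 12) (.e (nat_lit 57503) (nat_lit 38) (.e (nat_lit 638995) (nat_lit 7) (.e (nat_lit 163979) (nat_lit 30) .nil)))))))) (.g (nat_lit 1) (.e (nat_lit 416365) (nat_lit 0) .nil) .nil))) 
(.lf (nat_lit 599685) (.g (nat_lit 612) (.e (nat_lit 573493) (nat_lit 15) (.e (nat_lit 81954) (nat_lit 23) (.e (nat_lit 98333) (nat_lit 18) .nil))) (.g (nat_lit 0) (.e (nat_lit 417698) (nat_lit 0) .nil) .nil)))) (.nd (nat_lit 9) 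
(.lf (nat_lit 599429) (.g (nat_lit 2173) (.e (nat_lit 573491) (nat_lit 15) (.e (nat_lit 81954) (nat_lit 23) (.e (nat_lit 98365) (nat_lit 26) (.e (nat_lit 426107) (nat_lit 1) (.e (nat_lit 164345) (nat_lit 240) .nil))))) (.g (nat_lit 0) (.e (nat_lit 417133) (nat_lit 0) .nil) .nil))) 
(.lf (nat_lit 599941) (.g (nat_lit 2615) (.e (nat_lit 557070) (nat_lit 9) (.e (nat_lit 2744) (nat_lit 174) (.e (nat_lit 253992) (nat_lit 11) (.e (nat_lit 16416) (nat_lit 3) (.e (nat_lit 204876) (nat_lit 31) (.e (nat_lit 376855) (nat_lit 20) (.e (nat_lit 1856) (nat_lit 124) .nil))))))) (.g (nat_lit 1) (.e (nat_lit 418557) (nat_lit 0) .nil) .nil)))))) 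
(.nd (nat_lit 7) (.nd (nat_lit 8) (.nd (nat_lit 9) 
(.lf (nat_lit 599109) (.g (nat_lit 3632) (.e (nat_lit 573489) (nat_lit 14) (.e (nat_lit 73755) (nat_lit 8) (.e (nat_lit 557098) (nat_lit 13) (.e (nat_lit 172067) (nat_lit 3) (.e (nat_lit 204821) (nat_lit 17) (.e (nat_lit 2264) (nat_lit 149) (.e (nat_lit 761899) (nat_lit 15) (.e (nat_lit 163977) (nat_lit 30) .nil)))))))) (.g (nat_lit 1) (.e (nat_lit 416107) (nat_lit 0) .nil) .nil))) 
(.lf (nat_lit 599621) (.g (nat_lit 2832) (.e (nat_lit 573492) (nat_lit 15) (.e (nat_lit 81956) (nat_lit 23) (.e (nat_lit 98383) (nat_lit 32) (.e (nat_lit 475211) (nat_lit 41) (.e (nat_lit 712722) (nat_lit 15) (.e (nat_lit 3302) (nat_lit 202) .nil)))))) (.g (nat_lit 1) (.e (nat_lit 417580) (nat_lit 0) .nil) .nil)))) (.nd (nat_lit 9) 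
(.lf (nat_lit 599365) (.g (nat_lit 2714) (.e (nat_lit 573491) (nat_lit 15) (.e (nat_lit 81954) (nat_lit 23) (.e (nat_lit 98320) (nat_lit 17) (.e (nat_lit 7589) (nat_lit 406) (.e (nat_lit 65637) (nat_lit 15) (.e (nat_lit 3305) (nat_lit 202) .nil)))))) (.g (nat_lit 1) (.e (nat_lit 416988) (nat_lit 0) .nil) .nil))) 
(.lf (nat_lit 599877) (.g (nat_lit 2618) (.e (nat_lit 557066) (nat_lit 9) (.e (nat_lit 217) (nat_lit 19) (.e (nat_lit 319490) (nat_lit 0) (.e (nat_lit 5664) (nat_lit 312) (.e (nat_lit 2661) (nat_lit 167) .nil))))) (.g (nat_lit 0) (.e (nat_lit 418339) (nat_lit 0) .nil) .nil))))) (.nd (nat_lit 8) (.nd (nat_lit 9) 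
(.lf (nat_lit 599237) (.g (nat_lit 3299) (.e (nat_lit 573489) (nat_lit 14) (.e (nat_lit 73755) (nat_lit 8) (.e (nat_lit 557105) (nat_lit 14) (.e (nat_lit 180252) (nat_lit 10) (.e (nat_lit 573475) (nat_lit 12) (.e (nat_lit 57503) (nat_lit 38) (.e (nat_lit 638994) (nat_lit 7) (.e (nat_lit 163975) (nat_lit 30) .nil)))))))) (.g (nat_lit 1) (.e (nat_lit 416614) (nat_lit 0) .nil) .nil))) 
(.lf (nat_lit 599749) (.g (nat_lit 3150) (.e (nat_lit 573503) (nat_lit 18) (.e (nat_lit 1349) (nat_lit 102) (.e (nat_lit 286761) (nat_lit 13) (.e (nat_lit 393251) (nat_lit 18) (.e (nat_lit 164146) (nat_lit 146) .nil))))) (.g (nat_lit 0) (.e (nat_lit 417860) (nat_lit 0) .nil) .nil)))) (.nd (nat_lit 9) 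
(.lf (nat_lit 599493) (.g (nat_lit 2337) (.e (nat_lit 573491) (nat_lit 15) (.e (nat_lit 81954) (nat_lit 23) (.e (nat_lit 98389) (nat_lit 33) (.e (nat_lit 491547) (nat_lit 9) (.e (nat_lit 336306) (nat_lit 15) (.e (nat_lit 3298) (nat_lit 202) .nil)))))) (.g (nat_lit 1) (.e (nat_lit 417244) (nat_lit 0) .nil) .nil))) 
(.lf (nat_lit 600005) (.g (nat_lit 883) (.e (nat_lit 557087) (nat_lit 11) (.e (nat_lit 24662) (nat_lit 14) (.e (nat_lit 401463) (nat_lit 15) .nil))) (.g (nat_lit 0) (.e (nat_lit 418693) (nat_lit 0) .nil) .nil))))))) (.nd (nat_lit 6) (.nd (nat_lit 7) (.nd (nat_lit 8) (.nd (nat_lit 9) 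
(.lf (nat_lit 599077) (.g (nat_lit 2838) (.e (nat_lit 573489) (nat_lit 14) (.e (nat_lit 73755) (nat_lit 8) (.e (nat_lit 557091) (nat_lit 12) (.e (nat_lit 163843) (nat_lit 0) (.e (nat_lit 5945) (nat_lit 322) .nil))))) (.g (nat_lit 0) (.e (nat_lit 416004) (nat_lit 0) .nil) .nil))) 
(.lf (nat_lit 599589) (.g (nat_lit 793) (.e (nat_lit 573492) (nat_lit 15) (.e (nat_lit 81956) (nat_lit 23) (.e (nat_lit 98328) (nat_lit 17) .nil))) (.g (nat_lit 0) (.e (nat_lit 417463) (nat_lit 0) .nil) .nil)))) (.nd (nat_lit 9) 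
(.lf (nat_lit 599333) (.g (nat_lit 2428) (.e (nat_lit 573491) (nat_lit 15) (.e (nat_lit 81951) (nat_lit 22) (.e (nat_lit 90170) (nat_lit 13) (.e (nat_lit 172043) (nat_lit 0) .nil)))) (.g (nat_lit 0) (.e (nat_lit 416913) (nat_lit 0) .nil) .nil))) 
(.lf (nat_lit 599845) (.g (nat_lit 3128) (.e (nat_lit 557065) (nat_lit 9) (.e (nat_lit 2700) (nat_lit 169) (.e (nat_lit 213032) (nat_lit 11) (.e (nat_lit 24604) (nat_lit 2) (.e (nat_lit 90176) (nat_lit 15) (.e (nat_lit 188430) (nat_lit 20) (.e (nat_lit 7936) (nat_lit 200) .nil))))))) (.g (nat_lit 1) (.e (nat_lit 418253) (nat_lit 0) .nil) .nil))))) (.nd (nat_lit 8) (.nd (nat_lit 9) 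
(.lf (nat_lit 599205) (.g (nat_lit 2655) (.e (nat_lit 573489) (nat_lit 14) (.e (nat_lit 73755) (nat_lit 8) (.e (nat_lit 557105) (nat_lit 14) (.e (nat_lit 180251) (nat_lit 10) (.e (nat_lit 573473) (nat_lit 12) (.e (nat_lit 57503) (nat_lit 38) (.e (nat_lit 638996) (nat_lit 7) (.e (nat_lit 163977) (nat_lit 30) .nil)))))))) (.g (nat_lit 1) (.e (nat_lit 416463) (nat_lit 0) .nil) .nil))) 
(.lf (nat_lit 599717) (.g (nat_lit 5130) (.e (nat_lit 573493) (nat_lit 15) (.e (nat_lit 81956) (nat_lit 23) (.e (nat_lit 98389) (nat_lit 33) (.e (nat_lit 491552) (nat_lit 9) (.e (nat_lit 336282) (nat_lit 15) (.e (nat_lit 3295) (nat_lit 202) .nil)))))) (.g (nat_lit 1) (.e (nat_lit 417771) (nat_lit 0) .nil) .nil)))) (.nd (nat_lit 9) 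
(.lf (nat_lit 599461) (.g (nat_lit 1826) (.e (nat_lit 573491) (nat_lit 15) (.e (nat_lit 81954) (nat_lit 23) (.e (nat_lit 98384) (nat_lit 32) (.e (nat_lit 475205) (nat_lit 40) (.e (nat_lit 712448) (nat_lit 3) .nil))))) (.g (nat_lit 0) (.e (nat_lit 417211) (nat_lit 0) .nil) .nil))) 
(.lf (nat_lit 599973) (.g (nat_lit 4417) (.e (nat_lit 557085) (nat_lit 11) (.e (nat_lit 24665) (nat_lit 14) (.e (nat_lit 401414) (nat_lit 0) (.e (nat_lit 3238) (nat_lit 197) (.e (nat_lit 532550) (nat_lit 12) (.e (nat_lit 360474) (nat_lit 8) .nil)))))) (.g (nat_lit 1) (.e (nat_lit 418644) (nat_lit 0) .nil) .nil)))))) (.nd (nat_lit 7) (.nd (nat_lit 8) (.nd (nat_lit 9) 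
(.lf (nat_lit 599141) (.g (nat_lit 3046) (.e (nat_lit 573489) (nat_lit 14) (.e (nat_lit 73755) (nat_lit 8) (.e (nat_lit 557103) (nat_lit 14) (.e (nat_lit 180250) (nat_lit 10) (.e (nat_lit 573473) (nat_lit 12) (.e (nat_lit 57500) (nat_lit 37) (.e (nat_lit 630799) (nat_lit 7) (.e (nat_lit 163979) (nat_lit 30) .nil)))))))) (.g (nat_lit 1) (.e (nat_lit 416252) (nat_lit 0) .nil) .nil))) 
(.lf (nat_lit 599653) (.g (nat_lit 667) (.e (nat_lit 573493) (nat_lit 15) (.e (nat_lit 81953) (nat_lit 22) (.e (nat_lit 90122) (nat_lit 9) .nil))) (.g (nat_lit 0) (.e (nat_lit 417652) (nat_lit 0) .nil) .nil)))) (.nd (nat_lit 9) 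
(.lf (nat_lit 599397) (.g (nat_lit 1742) (.e (nat_lit 573491) (nat_lit 15) (.e (nat_lit 81954) (nat_lit 23) (.e (nat_lit 98356) (nat_lit 26) (.e (nat_lit 426418) (nat_lit 15) .nil)))) (.g (nat_lit 0) (.e (nat_lit 417067) (nat_lit 0) .nil) .nil))) 
(.lf (nat_lit 599909) (.g (nat_lit 2238) (.e (nat_lit 557070) (nat_lit 9) (.e (nat_lit 253) (nat_lit 21) (.e (nat_lit 336231) (nat_lit 14) (.e (nat_lit 401414) (nat_lit 0) (.e (nat_lit 3238) (nat_lit 197) .nil))))) (.g (nat_lit 0) (.e (nat_lit 418520) (nat_lit 0) .nil) .nil))))) (.nd (nat_lit 8) (.nd (nat_lit 9) 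
(.lf (nat_lit 599269) (.g (nat_lit 962) (.e (nat_lit 573490) (nat_lit 15) (.e (nat_lit 81956) (nat_lit 23) (.e (nat_lit 98320) (nat_lit 17) (.e (nat_lit 7587) (nat_lit 406) .nil)))) (.g (nat_lit 0) (.e (nat_lit 416711) (nat_lit 0) .nil) .nil))) 
(.lf (nat_lit 599781) (.g (nat_lit 1363) (.e (nat_lit 581651) (nat_lit 4) (.e (nat_lit 172107) (nat_lit 10) (.e (nat_lit 434203) (nat_lit 18) (.e (nat_lit 6830) (nat_lit 367) (.e (nat_lit 57412) (nat_lit 12) .nil))))) (.g (nat_lit 0) (.e (nat_lit 417970) (nat_lit 0) .nil) .nil)))) (.nd (nat_lit 9) 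
(.lf (nat_lit 599525) (.g (nat_lit 1271) (.e (nat_lit 573491) (nat_lit 15) (.e (nat_lit 81956) (nat_lit 23) (.e (nat_lit 98366) (nat_lit 27) (.e (nat_lit 434209) (nat_lit 18) .nil)))) (.g (nat_lit 0) (.e (nat_lit 417280) (nat_lit 0) .nil) .nil))) 
(.lf (nat_lit 600037) (.g (nat_lit 4352) (.e (nat_lit 557089) (nat_lit 12) (.e (nat_lit 163849) (nat_lit 0) (.e (nat_lit 6255) (nat_lit 337) (.e (nat_lit 2630) (nat_lit 164) (.e (nat_lit 172067) (nat_lit 3) (.e (nat_lit 204868) (nat_lit 29) (.e (nat_lit 360473) (nat_lit 8) .nil))))))) (.g (nat_lit 1) (.e (nat_lit 418744) (nat_lit 0) .nil) .nil)))))))) 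
(.nd (nat_lit 5) (.nd (nat_lit 6) (.nd (nat_lit 7) (.nd (nat_lit 8) (.nd (nat_lit 9) 
(.lf (nat_lit 599061) (.g (nat_lit 3111) (.e (nat_lit 573489) (nat_lit 14) (.e (nat_lit 73755) (nat_lit 8) (.e (nat_lit 557090) (nat_lit 12) (.e (nat_lit 163999) (nat_lit 38) (.e (nat_lit 646912) (nat_lit 15) .nil))))) (.g (nat_lit 0) (.e (nat_lit 415986) (nat_lit 0) .nil) .nil))) 
(.lf (nat_lit 599573) (.g (nat_lit 1923) (.e (nat_lit 573492) (nat_lit 15) (.e (nat_lit 81954) (nat_lit 23) (.e (nat_lit 98384) (nat_lit 32) (.e (nat_lit 475195) (nat_lit 40) .nil)))) (.g (nat_lit 0) (.e (nat_lit 417438) (nat_lit 0) .nil) .nil)))) (.nd (nat_lit 9) 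
(.lf (nat_lit 599317) (.g (nat_lit 2541) (.e (nat_lit 573491) (nat_lit 15) (.e (nat_lit 81951) (nat_lit 22) (.e (nat_lit 90165) (nat_lit 12) (.e (nat_lit 164208) (nat_lit 176) (.e (nat_lit 2782) (nat_lit 178) (.e (nat_lit 286765) (nat_lit 15) (.e (nat_lit 3308) (nat_lit 202) .nil))))))) (.g (nat_lit 1) (.e (nat_lit 416874) (nat_lit 0) .nil) .nil))) 
(.lf (nat_lit 599829) (.g (nat_lit 868) (.e (nat_lit 564992) (nat_lit 6) (.e (nat_lit 81943) (nat_lit 20) (.e (nat_lit 2391) (nat_lit 156) (.e (nat_lit 819221) (nat_lit 6) .nil)))) (.g (nat_lit 0) (.e (nat_lit 418215) (nat_lit 0) .nil) .nil))))) (.nd (nat_lit 8) (.nd (nat_lit 9) 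
(.lf (nat_lit 599189) (.g (nat_lit 2711) (.e (nat_lit 573489) (nat_lit 14) (.e (nat_lit 73755) (nat_lit 8) (.e (nat_lit 557105) (nat_lit 14) (.e (nat_lit 180244) (nat_lit 5) (.e (nat_lit 532481) (nat_lit 0) .nil))))) (.g (nat_lit 0) (.e (nat_lit 416401) (nat_lit 0) .nil) .nil))) 
(.lf (nat_lit 599701) (.g (nat_lit 2427) (.e (nat_lit 573493) (nat_lit 15) (.e (nat_lit 81956) (nat_lit 23) (.e (nat_lit 98350) (nat_lit 24) (.e (nat_lit 409623) (nat_lit 10) .nil)))) (.g (nat_lit 0) (.e (nat_lit 417742) (nat_lit 0) .nil) .nil)))) (.nd (nat_lit 9) 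
(.lf (nat_lit 599445) (.g (nat_lit 3773) (.e (nat_lit 573491) (nat_lit 15) (.e (nat_lit 81954) (nat_lit 23) (.e (nat_lit 98367) (nat_lit 27) (.e (nat_lit 434272) (nat_lit 38) (.e (nat_lit 655364) (nat_lit 0) (.e (nat_lit 2472) (nat_lit 157) (.e (nat_lit 3307) (nat_lit 202) .nil))))))) (.g (nat_lit 1) (.e (nat_lit 417180) (nat_lit 0) .nil) .nil))) 
(.lf (nat_lit 599957) (.g (nat_lit 1137) (.e (nat_lit 557073) (nat_lit 9) (.e (nat_lit 3096) (nat_lit 192) (.e (nat_lit 491571) (nat_lit 13) (.e (nat_lit 393251) (nat_lit 18) .nil)))) (.g (nat_lit 0) (.e (nat_lit 418612) (nat_lit 0) .nil) .nil)))))) (.nd (nat_lit 7) (.nd (nat_lit 8) (.nd (nat_lit 9) 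
(.lf (nat_lit 599125) (.g (nat_lit 1378) (.e (nat_lit 573489) (nat_lit 14) (.e (nat_lit 73755) (nat_lit 8) (.e (nat_lit 557103) (nat_lit 14) (.e (nat_lit 180243) (nat_lit 5) .nil)))) (.g (nat_lit 0) (.e (nat_lit 416156) (nat_lit 0) .nil) .nil))) 
(.lf (nat_lit 599637) (.g (nat_lit 2892) (.e (nat_lit 573492) (nat_lit 15) (.e (nat_lit 81956) (nat_lit 23) (.e (nat_lit 98387) (nat_lit 33) (.e (nat_lit 491550) (nat_lit 9) (.e (nat_lit 336284) (nat_lit 15) (.e (nat_lit 3302) (nat_lit 202) .nil)))))) (.g (nat_lit 1) (.e (nat_lit 417600) (nat_lit 0) .nil) .nil)))) (.nd (nat_lit 9) 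
(.lf (nat_lit 599381) (.g (nat_lit 1827) (.e (nat_lit 573491) (nat_lit 15) (.e (nat_lit 81954) (nat_lit 23) (.e (nat_lit 98349) (nat_lit 24) (.e (nat_lit 409616) (nat_lit 10) (.e (nat_lit 7936) (nat_lit 299) .nil))))) (.g (nat_lit 0) (.e (nat_lit 417035) (nat_lit 0) .nil) .nil))) 
(.lf (nat_lit 599893) (.g (nat_lit 2343) (.e (nat_lit 557067) (nat_lit 9) (.e (nat_lit 3022) (nat_lit 187) (.e (nat_lit 450580) (nat_lit 5) (.e (nat_lit 532555) (nat_lit 13) (.e (nat_lit 368662) (nat_lit 18) (.e (nat_lit 5589) (nat_lit 310) (.e (nat_lit 163841) (nat_lit 0) (.e (nat_lit 3280) (nat_lit 200) .nil)))))))) (.g (nat_lit 1) (.e (nat_lit 418430) (nat_lit 0) .nil) .nil))))) 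
(.nd (nat_lit 8) (.nd (nat_lit 9) 
(.lf (nat_lit 599253) (.g (nat_lit 2342) (.e (nat_lit 573489) (nat_lit 14) (.e (nat_lit 73755) (nat_lit 8) (.e (nat_lit 557119) (nat_lit 18) (.e (nat_lit 2797) (nat_lit 180) (.e (nat_lit 303147) (nat_lit 15) .nil))))) (.g (nat_lit 0) (.e (nat_lit 416651) (nat_lit 0) .nil) .nil))) 
(.lf (nat_lit 599765) (.g (nat_lit 2066) (.e (nat_lit 581636) (nat_lit 0) (.e (nat_lit 3016) (nat_lit 187) (.e (nat_lit 450563) (nat_lit 0) (.e (nat_lit 6830) (nat_lit 367) (.e (nat_lit 57427) (nat_lit 15) .nil))))) (.g (nat_lit 0) (.e (nat_lit 417903) (nat_lit 0) .nil) .nil)))) (.nd (nat_lit 9) 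
(.lf (nat_lit 599509) (.g (nat_lit 772) (.e (nat_lit 573491) (nat_lit 15) (.e (nat_lit 81956) (nat_lit 23) (.e (nat_lit 98323) (nat_lit 17) .nil))) (.g (nat_lit 0) (.e (nat_lit 417261) (nat_lit 0) .nil) .nil))) 
(.lf (nat_lit 600021) (.g (nat_lit 5163) (.e (nat_lit 557089) (nat_lit 12) (.e (nat_lit 163844) (nat_lit 0) (.e (nat_lit 6255) (nat_lit 337) (.e (nat_lit 2630) (nat_lit 164) (.e (nat_lit 172062) (nat_lit 2) (.e (nat_lit 196666) (nat_lit 13) (.e (nat_lit 65610) (nat_lit 10) (.e (nat_lit 344129) (nat_lit 26) .nil)))))))) (.g (nat_lit 1) (.e (nat_lit 418713) (nat_lit 0) .nil) .nil))))))) 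
(.nd (nat_lit 6) (.nd (nat_lit 7) (.nd (nat_lit 8) (.nd (nat_lit 9) 
(.lf (nat_lit 599093) (.g (nat_lit 3454) (.e (nat_lit 573489) (nat_lit 14) (.e (nat_lit 73755) (nat_lit 8) (.e (nat_lit 557097) (nat_lit 13) (.e (nat_lit 172067) (nat_lit 3) (.e (nat_lit 204816) (nat_lit 17) (.e (nat_lit 2273) (nat_lit 149) (.e (nat_lit 761899) (nat_lit 15) (.e (nat_lit 163978) (nat_lit 30) .nil)))))))) (.g (nat_lit 1) (.e (nat_lit 416059) (nat_lit 0) .nil) .nil))) 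
(.lf (nat_lit 599605) (.g (nat_lit 678) (.e (nat_lit 573492) (nat_lit 15) (.e (nat_lit 81956) (nat_lit 23) (.e (nat_lit 98362) (nat_lit 26) .nil))) (.g (nat_lit 0) (.e (nat_lit 417530) (nat_lit 0) .nil) .nil)))) (.nd (nat_lit 9) 
(.lf (nat_lit 599349) (.g (nat_lit 3483) (.e (nat_lit 573491) (nat_lit 15) (.e (nat_lit 81951) (nat_lit 22) (.e (nat_lit 90170) (nat_lit 13) (.e (nat_lit 172138) (nat_lit 15) (.e (nat_lit 2056) (nat_lit 142) (.e (nat_lit 704589) (nat_lit 3) (.e (nat_lit 163976) (nat_lit 30) .nil))))))) (.g (nat_lit 1) (.e (nat_lit 416959) (nat_lit 0) .nil) .nil))) 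
(.lf (nat_lit 599861) (.g (nat_lit 3539) (.e (nat_lit 557065) (nat_lit 9) (.e (nat_lit 3044) (nat_lit 189) (.e (nat_lit 466977) (nat_lit 22) (.e (nat_lit 196681) (nat_lit 17) (.e (nat_lit 131089) (nat_lit 1) (.e (nat_lit 57930) (nat_lit 282) (.e (nat_lit 163843) (nat_lit 0) (.e (nat_lit 7936) (nat_lit 200) .nil)))))))) (.g (nat_lit 1) (.e (nat_lit 418311) (nat_lit 0) .nil) .nil))))) 
(.nd (nat_lit 8) (.nd (nat_lit 9) 
(.lf (nat_lit 599221) (.g (nat_lit 4350) (.e (nat_lit 573489) (nat_lit 14) (.e (nat_lit 73755) (nat_lit 8) (.e (nat_lit 557105) (nat_lit 14) (.e (nat_lit 180252) (nat_lit 10) (.e (nat_lit 573474) (nat_lit 12) (.e (nat_lit 57503) (nat_lit 38) (.e (nat_lit 638985) (nat_lit 5) (.e (nat_lit 2466) (nat_lit 157) (.e (nat_lit 3307) (nat_lit 202) .nil))))))))) (.g (nat_lit 1) (.e (nat_lit 416590) (nat_lit 0) .nil) .nil))) 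
(.lf (nat_lit 599733) (.g (nat_lit 784) (.e (nat_lit 573503) (nat_lit 18) (.e (nat_lit 1348) (nat_lit 102) (.e (nat_lit 286742) (nat_lit 9) .nil))) (.g (nat_lit 0) (.e (nat_lit 417821) (nat_lit 0) .nil) .nil)))) (.nd (nat_lit 9) 
(.lf (nat_lit 599477) (.g (nat_lit 1656) (.e (nat_lit 573491) (nat_lit 15) (.e (nat_lit 81954) (nat_lit 23) (.e (nat_lit 98385) (nat_lit 32) (.e (nat_lit 475201) (nat_lit 40) (.e (nat_lit 712448) (nat_lit 3) (.e (nat_lit 163976) (nat_lit 30) .nil)))))) (.g (nat_lit 1) (.e (nat_lit 417228) (nat_lit 0) .nil) .nil))) 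
(.lf (nat_lit 599989) (.g (nat_lit 4679) (.e (nat_lit 557087) (nat_lit 11) (.e (nat_lit 24584) (nat_lit 0) (.e (nat_lit 6651) (nat_lit 357) (.e (nat_lit 2663) (nat_lit 167) (.e (nat_lit 196666) (nat_lit 13) (.e (nat_lit 65617) (nat_lit 10) (.e (nat_lit 344130) (nat_lit 26) .nil))))))) (.g (nat_lit 1) (.e (nat_lit 418669) (nat_lit 0) .nil) .nil)))))) 
(.nd (nat_lit 7) (.nd (nat_lit 8) (.nd (nat_lit 9) 
(.lf (nat_lit 599157) (.g (nat_lit 984) (.e (nat_lit 573489) (nat_lit 14) (.e (nat_lit 73755) (nat_lit 8) (.e (nat_lit 557104) (nat_lit 14) (.e (nat_lit 180244) (nat_lit 5) .nil)))) (.g (nat_lit 0) (.e (nat_lit 416272) (nat_lit 0) .nil) .nil))) 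
(.lf (nat_lit 599669) (.g (nat_lit 2280) (.e (nat_lit 573493) (nat_lit 15) (.e (nat_lit 81953) (nat_lit 22) (.e (nat_lit 90170) (nat_lit 13) (.e (nat_lit 172048) (nat_lit 0) .nil)))) (.g (nat_lit 0) (.e (nat_lit 417672) (nat_lit 0) .nil) .nil)))) (.nd (nat_lit 9) 
(.lf (nat_lit 599413) (.g (nat_lit 1902) (.e (nat_lit 573491) (nat_lit 15) (.e (nat_lit 81954) (nat_lit 23) (.e (nat_lit 98359) (nat_lit 26) (.e (nat_lit 426372) (nat_lit 15) (.e (nat_lit 2147) (nat_lit 142) .nil))))) (.g (nat_lit 0) (.e (nat_lit 417110) (nat_lit 0) .nil) .nil))) 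
(.lf (nat_lit 599925) (.g (nat_lit 2958) (.e (nat_lit 557070) (nat_lit 9) (.e (nat_lit 2744) (nat_lit 174) (.e (nat_lit 253991) (nat_lit 11) (.e (nat_lit 16416) (nat_lit 3) (.e (nat_lit 204876) (nat_lit 31) (.e (nat_lit 376855) (nat_lit 20) (.e (nat_lit 1856) (nat_lit 124) .nil))))))) (.g (nat_lit 1) (.e (nat_lit 418540) (nat_lit 0) .nil) .nil))))) (.nd (nat_lit 8) (.nd (nat_lit 9) 
(.lf (nat_lit 599285) (.g (nat_lit 1608) (.e (nat_lit 573491) (nat_lit 15) (.e (nat_lit 81942) (nat_lit 20) (.e (nat_lit 1858) (nat_lit 124) (.e (nat_lit 557072) (nat_lit 9) (.e (nat_lit 290) (nat_lit 21) .nil))))) (.g (nat_lit 0) (.e (nat_lit 416763) (nat_lit 0) .nil) .nil))) 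
(.lf (nat_lit 599797) (.g (nat_lit 900) (.e (nat_lit 581652) (nat_lit 5) (.e (nat_lit 180288) (nat_lit 45) (.e (nat_lit 2579) (nat_lit 161) (.e (nat_lit 40965) (nat_lit 0) (.e (nat_lit 1582) (nat_lit 111) (.e (nat_lit 368384) (nat_lit 11) .nil)))))) (.g (nat_lit 1) (.e (nat_lit 418110) (nat_lit 0) .nil) .nil)))) (.nd (nat_lit 9) 
(.lf (nat_lit 599541) (.g (nat_lit 444) (.e (nat_lit 573491) (nat_lit 15) (.e (nat_lit 81956) (nat_lit 23) (.e (nat_lit 98388) (nat_lit 33) .nil))) (.g (nat_lit 0) (.e (nat_lit 417301) (nat_lit 0) .nil) .nil))) 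
(.lf (nat_lit 600053) (.g (nat_lit 5302) (.e (nat_lit 557090) (nat_lit 12) (.e (nat_lit 163843) (nat_lit 0) (.e (nat_lit 6254) (nat_lit 337) (.e (nat_lit 2630) (nat_lit 164) (.e (nat_lit 172064) (nat_lit 2) (.e (nat_lit 196666) (nat_lit 13) (.e (nat_lit 65617) (nat_lit 10) (.e (nat_lit 344130) (nat_lit 26) .nil)))))))) (.g (nat_lit 1) (.e (nat_lit 418783) (nat_lit 0) .nil) .nil))))))))) 
(.nd (nat_lit 4) (.nd (nat_lit 5) (.nd (nat_lit 6) (.nd (nat_lit 7) (.nd (nat_lit 8) 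
(.nd (nat_lit 9) 
(.lf (nat_lit 599053) (.g (nat_lit 3302) (.e (nat_lit 573489) (nat_lit 14) (.e (nat_lit 73755) (nat_lit 8) (.e (nat_lit 557090) (nat_lit 12) (.e (nat_lit 163843) (nat_lit 0) (.e (nat_lit 5943) (nat_lit 322) (.e (nat_lit 57371) (nat_lit 2) (.e (nat_lit 90174) (nat_lit 14) (.e (nat_lit 180250) (nat_lit 10) .nil)))))))) (.g (nat_lit 1) (.e (nat_lit 415968) (nat_lit 0) .nil) .nil))) 
(.lf (nat_lit 599565) (.g (nat_lit 1239) (.e (nat_lit 573492) (nat_lit 15) (.e (nat_lit 81953) (nat_lit 22) (.e (nat_lit 90170) (nat_lit 13) (.e (nat_lit 172135) (nat_lit 15) .nil)))) (.g (nat_lit 0) (.e (nat_lit 417410) (nat_lit 0) .nil) .nil)))) (.nd (nat_lit 9) 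
(.lf (nat_lit 599309) (.g (nat_lit 2022) (.e (nat_lit 573491) (nat_lit 15) (.e (nat_lit 81947) (nat_lit 20) (.e (nat_lit 1842) (nat_lit 123) (.e (nat_lit 548891) (nat_lit 11) (.e (nat_lit 89856) (nat_lit 0) .nil))))) (.g (nat_lit 0) (.e (nat_lit 416855) (nat_lit 0) .nil) .nil))) 
(.lf (nat_lit 599821) (.g (nat_lit 1510) (.e (nat_lit 557061) (nat_lit 0) (.e (nat_lit 1597) (nat_lit 111) (.e (nat_lit 360493) (nat_lit 27) (.e (nat_lit 819204) (nat_lit 0) (.e (nat_lit 3016) (nat_lit 187) (.e (nat_lit 458496) (nat_lit 8) .nil)))))) (.g (nat_lit 1) (.e (nat_lit 418197) (nat_lit 0) .nil) .nil))))) (.nd (nat_lit 8) (.nd (nat_lit 9) 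
(.lf (nat_lit 599181) (.g (nat_lit 3006) (.e (nat_lit 573489) (nat_lit 14) (.e (nat_lit 73755) (nat_lit 8) (.e (nat_lit 557104) (nat_lit 14) (.e (nat_lit 180252) (nat_lit 10) (.e (nat_lit 573475) (nat_lit 12) (.e (nat_lit 57502) (nat_lit 38) (.e (nat_lit 638995) (nat_lit 7) (.e (nat_lit 163977) (nat_lit 30) .nil)))))))) (.g (nat_lit 1) (.e (nat_lit 416374) (nat_lit 0) .nil) .nil))) 
(.lf (nat_lit 599693) (.g (nat_lit 4480) (.e (nat_lit 573493) (nat_lit 15) (.e (nat_lit 81956) (nat_lit 23) (.e (nat_lit 98323) (nat_lit 17) (.e (nat_lit 6989) (nat_lit 377) (.e (nat_lit 2777) (nat_lit 178) (.e (nat_lit 286765) (nat_lit 15) (.e (nat_lit 3298) (nat_lit 202) .nil))))))) (.g (nat_lit 1) (.e (nat_lit 417712) (nat_lit 0) .nil) .nil)))) (.nd (nat_lit 9) 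
(.lf (nat_lit 599437) (.g (nat_lit 3664) (.e (nat_lit 573491) (nat_lit 15) (.e (nat_lit 81954) (nat_lit 23) (.e (nat_lit 98366) (nat_lit 27) (.e (nat_lit 434272) (nat_lit 38) (.e (nat_lit 655375) (nat_lit 3) (.e (nat_lit 163977) (nat_lit 30) .nil)))))) (.g (nat_lit 1) (.e (nat_lit 417158) (nat_lit 0) .nil) .nil))) 
(.lf (nat_lit 599949) (.g (nat_lit 2375) (.e (nat_lit 557072) (nat_lit 9) (.e (nat_lit 3098) (nat_lit 192) (.e (nat_lit 491571) (nat_lit 13) (.e (nat_lit 393232) (nat_lit 17) (.e (nat_lit 3461) (nat_lit 216) .nil))))) (.g (nat_lit 0) (.e (nat_lit 418595) (nat_lit 0) .nil) .nil)))))) (.nd (nat_lit 7) (.nd (nat_lit 8) (.nd (nat_lit 9) 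
(.lf (nat_lit 599117) (.g (nat_lit 4579) (.e (nat_lit 573489) (nat_lit 14) (.e (nat_lit 73755) (nat_lit 8) (.e (nat_lit 557098) (nat_lit 13) (.e (nat_lit 179968) (nat_lit 18) (.e (nat_lit 98335) (nat_lit 18) (.e (nat_lit 164330) (nat_lit 230) (.e (nat_lit 163840) (nat_lit 0) (.e (nat_lit 3307) (nat_lit 202) .nil)))))))) (.g (nat_lit 1) (.e (nat_lit 416129) (nat_lit 0) .nil) .nil))) 
(.lf (nat_lit 599629) (.g (nat_lit 2130) (.e (nat_lit 573492) (nat_lit 15) (.e (nat_lit 81956) (nat_lit 23) (.e (nat_lit 98384) (nat_lit 32) (.e (nat_lit 475211) (nat_lit 41) (.e (nat_lit 712719) (nat_lit 15) .nil))))) (.g (nat_lit 0) (.e (nat_lit 417589) (nat_lit 0) .nil) .nil)))) (.nd (nat_lit 9) 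
(.lf (nat_lit 599373) (.g (nat_lit 3193) (.e (nat_lit 573491) (nat_lit 15) (.e (nat_lit 81954) (nat_lit 23) (.e (nat_lit 98325) (nat_lit 17) (.e (nat_lit 6986) (nat_lit 377) (.e (nat_lit 2777) (nat_lit 178) (.e (nat_lit 286765) (nat_lit 15) (.e (nat_lit 3298) (nat_lit 202) .nil))))))) (.g (nat_lit 1) (.e (nat_lit 416999) (nat_lit 0) .nil) .nil))) 
(.lf (nat_lit 599885) (.g (nat_lit 1653) (.e (nat_lit 557067) (nat_lit 9) (.e (nat_lit 2878) (nat_lit 184) (.e (nat_lit 426125) (nat_lit 2) (.e (nat_lit 196686) (nat_lit 18) .nil)))) (.g (nat_lit 0) (.e (nat_lit 418389) (nat_lit 0) .nil) .nil))))) (.nd (nat_lit 8) (.nd (nat_lit 9) 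
(.lf (nat_lit 599245) (.g (nat_lit 3175) (.e (nat_lit 573489) (nat_lit 14) (.e (nat_lit 73755) (nat_lit 8) (.e (nat_lit 557105) (nat_lit 14) (.e (nat_lit 180252) (nat_lit 10) (.e (nat_lit 573476) (nat_lit 12) (.e (nat_lit 57502) (nat_lit 38) (.e (nat_lit 638995) (nat_lit 7) (.e (nat_lit 163979) (nat_lit 30) .nil)))))))) (.g (nat_lit 1) (.e (nat_lit 416624) (nat_lit 0) .nil) .nil))) 
(.lf (nat_lit 599757) (.g (nat_lit 1825) (.e (nat_lit 581635) (nat_lit 0) (.e (nat_lit 3016) (nat_lit 187) (.e (nat_lit 450563) (nat_lit 0) (.e (nat_lit 6740) (nat_lit 365) (.e (nat_lit 1201) (nat_lit 88) .nil))))) (.g (nat_lit 0) (.e (nat_lit 417881) (nat_lit 0) .nil) .nil)))) (.nd (nat_lit 9) 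
(.lf (nat_lit 599501) (.g (nat_lit 2002) (.e (nat_lit 573491) (nat_lit 15) (.e (nat_lit 81954) (nat_lit 23) (.e (nat_lit 98389) (nat_lit 33) (.e (nat_lit 491562) (nat_lit 12) (.e (nat_lit 385073) (nat_lit 31) .nil))))) (.g (nat_lit 0) (.e (nat_lit 417252) (nat_lit 0) .nil) .nil))) 
(.lf (nat_lit 600013) (.g (nat_lit 1172) (.e (nat_lit 557087) (nat_lit 11) (.e (nat_lit 24665) (nat_lit 14) (.e (nat_lit 401463) (nat_lit 15) .nil))) (.g (nat_lit 0) (.e (nat_lit 418703) (nat_lit 0) .nil) .nil))))))) (.nd (nat_lit 6) (.nd (nat_lit 7) (.nd (nat_lit 8) (.nd (nat_lit 9) 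
(.lf (nat_lit 599085) (.g (nat_lit 2989) (.e (nat_lit 573489) (nat_lit 14) (.e (nat_lit 73755) (nat_lit 8) (.e (nat_lit 557096) (nat_lit 13) (.e (nat_lit 172067) (nat_lit 3) (.e (nat_lit 204816) (nat_lit 17) (.e (nat_lit 2273) (nat_lit 149) (.e (nat_lit 761899) (nat_lit 15) (.e (nat_lit 163977) (nat_lit 30) .nil)))))))) (.g (nat_lit 1) (.e (nat_lit 416023) (nat_lit 0) .nil) .nil))) 
(.lf (nat_lit 599597) (.g (nat_lit 4054) (.e (nat_lit 573492) (nat_lit 15) (.e (nat_lit 81956) (nat_lit 23) (.e (nat_lit 98360) (nat_lit 26) (.e (nat_lit 426003) (nat_lit 0) (.e (nat_lit 3408) (nat_lit 212) (.e (nat_lit 655375) (nat_lit 3) (.e (nat_lit 163979) (nat_lit 30) .nil))))))) (.g (nat_lit 1) (.e (nat_lit 417517) (nat_lit 0) .nil) .nil)))) (.nd (nat_lit 9) 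
(.lf (nat_lit 599341) (.g (nat_lit 3837) (.e (nat_lit 573491) (nat_lit 15) (.e (nat_lit 81951) (nat_lit 22) (.e (nat_lit 90170) (nat_lit 13) (.e (nat_lit 172049) (nat_lit 0) (.e (nat_lit 3409) (nat_lit 212) (.e (nat_lit 655375) (nat_lit 3) (.e (nat_lit 163977) (nat_lit 30) .nil))))))) (.g (nat_lit 1) (.e (nat_lit 416926) (nat_lit 0) .nil) .nil))) 
(.lf (nat_lit 599853) (.g (nat_lit 1500) (.e (nat_lit 557065) (nat_lit 9) (.e (nat_lit 3044) (nat_lit 189) (.e (nat_lit 466974) (nat_lit 22) (.e (nat_lit 196681) (nat_lit 17) (.e (nat_lit 131086) (nat_lit 1) .nil))))) (.g (nat_lit 0) (.e (nat_lit 418287) (nat_lit 0) .nil) .nil))))) (.nd (nat_lit 8) (.nd (nat_lit 9) 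
(.lf (nat_lit 599213) (.g (nat_lit 2803) (.e (nat_lit 573489) (nat_lit 14) (.e (nat_lit 73755) (nat_lit 8) (.e (nat_lit 557105) (nat_lit 14) (.e (nat_lit 180252) (nat_lit 10) (.e (nat_lit 573473) (nat_lit 12) (.e (nat_lit 57503) (nat_lit 38) (.e (nat_lit 638983) (nat_lit 5) (.e (nat_lit 2472) (nat_lit 157) (.e (nat_lit 3307) (nat_lit 202) .nil))))))))) (.g (nat_lit 1) (.e (nat_lit 416537) (nat_lit 0) .nil) .nil))) 
(.lf (nat_lit 599725) (.g (nat_lit 1510) (.e (nat_lit 573497) (nat_lit 17) (.e (nat_lit 131094) (nat_lit 2) (.e (nat_lit 90160) (nat_lit 11) (.e (nat_lit 24671) (nat_lit 15) .nil)))) (.g (nat_lit 0) (.e (nat_lit 417810) (nat_lit 0) .nil) .nil)))) (.nd (nat_lit 9) 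
(.lf (nat_lit 599469) (.g (nat_lit 3985) (.e (nat_lit 573491) (nat_lit 15) (.e (nat_lit 81954) (nat_lit 23) (.e (nat_lit 98384) (nat_lit 32) (.e (nat_lit 475210) (nat_lit 41) (.e (nat_lit 712722) (nat_lit 15) (.e (nat_lit 3302) (nat_lit 202) .nil)))))) (.g (nat_lit 1) (.e (nat_lit 417219) (nat_lit 0) .nil) .nil))) 
(.lf (nat_lit 599981) (.g (nat_lit 1724) (.e (nat_lit 557086) (nat_lit 11) (.e (nat_lit 24632) (nat_lit 9) (.e (nat_lit 336013) (nat_lit 2) (.e (nat_lit 90133) (nat_lit 9) .nil)))) (.g (nat_lit 0) (.e (nat_lit 418658) (nat_lit 0) .nil) .nil)))))) (.nd (nat_lit 7) (.nd (nat_lit 8) (.nd (nat_lit 9) 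
(.lf (nat_lit 599149) (.g (nat_lit 5534) (.e (nat_lit 573489) (nat_lit 14) (.e (nat_lit 73755) (nat_lit 8) (.e (nat_lit 557103) (nat_lit 14) (.e (nat_lit 180250) (nat_lit 10) (.e (nat_lit 573475) (nat_lit 12) (.e (nat_lit 57503) (nat_lit 38) (.e (nat_lit 638995) (nat_lit 7) (.e (nat_lit 163979) (nat_lit 30) .nil)))))))) (.g (nat_lit 1) (.e (nat_lit 416260) (nat_lit 0) .nil) .nil))) 
(.lf (nat_lit 599661) (.g (nat_lit 1076) (.e (nat_lit 573493) (nat_lit 15) (.e (nat_lit 81953) (nat_lit 22) (.e (nat_lit 90148) (nat_lit 9) .nil))) (.g (nat_lit 0) (.e (nat_lit 417662) (nat_lit 0) .nil) .nil)))) (.nd (nat_lit 9) 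
(.lf (nat_lit 599405) (.g (nat_lit 2116) (.e (nat_lit 573491) (nat_lit 15) (.e (nat_lit 81954) (nat_lit 23) (.e (nat_lit 98359) (nat_lit 26) (.e (nat_lit 426023) (nat_lit 0) (.e (nat_lit 3401) (nat_lit 211) (.e (nat_lit 647180) (nat_lit 3) (.e (nat_lit 163976) (nat_lit 30) .nil))))))) (.g (nat_lit 1) (.e (nat_lit 417079) (nat_lit 0) .nil) .nil))) 
(.lf (nat_lit 599917) (.g (nat_lit 4316) (.e (nat_lit 557070) (nat_lit 9) (.e (nat_lit 2744) (nat_lit 174) (.e (nat_lit 253991) (nat_lit 11) (.e (nat_lit 16412) (nat_lit 2) (.e (nat_lit 196674) (nat_lit 15) (.e (nat_lit 81947) (nat_lit 20) (.e (nat_lit 1855) (nat_lit 124) .nil))))))) (.g (nat_lit 1) (.e (nat_lit 418532) (nat_lit 0) .nil) .nil))))) (.nd (nat_lit 8) (.nd (nat_lit 9) 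
(.lf (nat_lit 599277) (.g (nat_lit 2013) (.e (nat_lit 573490) (nat_lit 15) (.e (nat_lit 81956) (nat_lit 23) (.e (nat_lit 98356) (nat_lit 26) (.e (nat_lit 426148) (nat_lit 4) .nil)))) (.g (nat_lit 0) (.e (nat_lit 416720) (nat_lit 0) .nil) .nil))) 
(.lf (nat_lit 599789) (.g (nat_lit 745) (.e (nat_lit 581652) (nat_lit 5) (.e (nat_lit 180284) (nat_lit 45) (.e (nat_lit 2579) (nat_lit 161) (.e (nat_lit 40965) (nat_lit 0) (.e (nat_lit 1582) (nat_lit 111) (.e (nat_lit 368384) (nat_lit 11) .nil)))))) (.g (nat_lit 1) (.e (nat_lit 418102) (nat_lit 0) .nil) .nil)))) (.nd (nat_lit 9) 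
(.lf (nat_lit 599533) (.g (nat_lit 2244) (.e (nat_lit 573491) (nat_lit 15) (.e (nat_lit 81956) (nat_lit 23) (.e (nat_lit 98384) (nat_lit 32) (.e (nat_lit 475205) (nat_lit 40) .nil)))) (.g (nat_lit 0) (.e (nat_lit 417293) (nat_lit 0) .nil) .nil))) 
(.lf (nat_lit 600045) (.g (nat_lit 1601) (.e (nat_lit 557089) (nat_lit 12) (.e (nat_lit 163850) (nat_lit 0) (.e (nat_lit 6425) (nat_lit 342) (.e (nat_lit 229402) (nat_lit 12) .nil)))) (.g (nat_lit 0) (.e (nat_lit 418760) (nat_lit 0) .nil) .nil)))))))) (.nd (nat_lit 5) (.nd (nat_lit 6) (.nd (nat_lit 7) (.nd (nat_lit 8) (.nd (nat_lit 9) 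
(.lf (nat_lit 599069) (.g (nat_lit 1649) (.e (nat_lit 573489) (nat_lit 14) (.e (nat_lit 73755) (nat_lit 8) (.e (nat_lit 557090) (nat_lit 12) (.e (nat_lit 164010) (nat_lit 41) .nil)))) (.g (nat_lit 0) (.e (nat_lit 415994) (nat_lit 0) .nil) .nil))) 
(.lf (nat_lit 599581) (.g (nat_lit 2280) (.e (nat_lit 573492) (nat_lit 15) (.e (nat_lit 81954) (nat_lit 23) (.e (nat_lit 98386) (nat_lit 32) (.e (nat_lit 475198) (nat_lit 40) (.e (nat_lit 704589) (nat_lit 3) (.e (nat_lit 163976) (nat_lit 30) .nil)))))) (.g (nat_lit 1) (.e (nat_lit 417446) (nat_lit 0) .nil) .nil)))) (.nd (nat_lit 9) 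
(.lf (nat_lit 599325) (.g (nat_lit 1776) (.e (nat_lit 573491) (nat_lit 15) (.e (nat_lit 81951) (nat_lit 22) (.e (nat_lit 90170) (nat_lit 13) (.e (nat_lit 172038) (nat_lit 0) .nil)))) (.g (nat_lit 0) (.e (nat_lit 416898) (nat_lit 0) .nil) .nil))) 
(.lf (nat_lit 599837) (.g (nat_lit 1059) (.e (nat_lit 564992) (nat_lit 6) (.e (nat_lit 81947) (nat_lit 20) (.e (nat_lit 2391) (nat_lit 156) (.e (nat_lit 819221) (nat_lit 6) (.e (nat_lit 188427) (nat_lit 20) .nil))))) (.g (nat_lit 0) (.e (nat_lit 418223) (nat_lit 0) .nil) .nil))))) (.nd (nat_lit 8) (.nd (nat_lit 9) 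
(.lf (nat_lit 599197) (.g (nat_lit 4060) (.e (nat_lit 573489) (nat_lit 14) (.e (nat_lit 73755) (nat_lit 8) (.e (nat_lit 557105) (nat_lit 14) (.e (nat_lit 180244) (nat_lit 5) (.e (nat_lit 532503) (nat_lit 1) (.e (nat_lit 57659) (nat_lit 152) (.e (nat_lit 2612) (nat_lit 163) (.e (nat_lit 163978) (nat_lit 30) .nil)))))))) (.g (nat_lit 1) (.e (nat_lit 416422) (nat_lit 0) .nil) .nil))) 
(.lf (nat_lit 599709) (.g (nat_lit 4754) (.e (nat_lit 573493) (nat_lit 15) (.e (nat_lit 81956) (nat_lit 23) (.e (nat_lit 98367) (nat_lit 27) (.e (nat_lit 434272) (nat_lit 38) (.e (nat_lit 655364) (nat_lit 0) (.e (nat_lit 2472) (nat_lit 157) (.e (nat_lit 3307) (nat_lit 202) .nil))))))) (.g (nat_lit 1) (.e (nat_lit 417761) (nat_lit 0) .nil) .nil)))) (.nd (nat_lit 9) 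
(.lf (nat_lit 599453) (.g (nat_lit 3720) (.e (nat_lit 573491) (nat_lit 15) (.e (nat_lit 81954) (nat_lit 23) (.e (nat_lit 98384) (nat_lit 32) (.e (nat_lit 475197) (nat_lit 40) (.e (nat_lit 704589) (nat_lit 3) (.e (nat_lit 163975) (nat_lit 30) .nil)))))) (.g (nat_lit 1) (.e (nat_lit 417203) (nat_lit 0) .nil) .nil))) 
(.lf (nat_lit 599965) (.g (nat_lit 1811) (.e (nat_lit 557085) (nat_lit 11) (.e (nat_lit 24661) (nat_lit 14) (.e (nat_lit 401410) (nat_lit 0) (.e (nat_lit 3262) (nat_lit 198) .nil)))) (.g (nat_lit 0) (.e (nat_lit 418636) (nat_lit 0) .nil) .nil)))))) (.nd (nat_lit 7) (.nd (nat_lit 8) (.nd (nat_lit 9) 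
(.lf (nat_lit 599133) (.g (nat_lit 959) (.e (nat_lit 573489) (nat_lit 14) (.e (nat_lit 73755) (nat_lit 8) (.e (nat_lit 557103) (nat_lit 14) (.e (nat_lit 180244) (nat_lit 5) .nil)))) (.g (nat_lit 0) (.e (nat_lit 416177) (nat_lit 0) .nil) .nil))) 
(.lf (nat_lit 599645) (.g (nat_lit 2257) (.e (nat_lit 573493) (nat_lit 15) (.e (nat_lit 81931) (nat_lit 20) (.e (nat_lit 1834) (nat_lit 123) (.e (nat_lit 548889) (nat_lit 9) (.e (nat_lit 65624) (nat_lit 12) .nil))))) (.g (nat_lit 0) (.e (nat_lit 417622) (nat_lit 0) .nil) .nil)))) (.nd (nat_lit 9) 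
(.lf (nat_lit 599389) (.g (nat_lit 2345) (.e (nat_lit 573491) (nat_lit 15) (.e (nat_lit 81954) (nat_lit 23) (.e (nat_lit 98356) (nat_lit 26) (.e (nat_lit 426354) (nat_lit 15) (.e (nat_lit 2064) (nat_lit 142) (.e (nat_lit 704589) (nat_lit 3) (.e (nat_lit 163975) (nat_lit 30) .nil))))))) (.g (nat_lit 1) (.e (nat_lit 417057) (nat_lit 0) .nil) .nil))) 
(.lf (nat_lit 599901) (.g (nat_lit 2855) (.e (nat_lit 557067) (nat_lit 9) (.e (nat_lit 3022) (nat_lit 187) (.e (nat_lit 450580) (nat_lit 5) (.e (nat_lit 532563) (nat_lit 15) (.e (nat_lit 385115) (nat_lit 53) (.e (nat_lit 811008) (nat_lit 0) (.e (nat_lit 623) (nat_lit 48) .nil))))))) (.g (nat_lit 1) (.e (nat_lit 418448) (nat_lit 0) .nil) .nil))))) (.nd (nat_lit 8) (.nd (nat_lit 9) 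
(.lf (nat_lit 599261) (.g (nat_lit 1585) (.e (nat_lit 573489) (nat_lit 14) (.e (nat_lit 73782) (nat_lit 32) (.e (nat_lit 2664) (nat_lit 167) (.e (nat_lit 196630) (nat_lit 9) (.e (nat_lit 1413) (nat_lit 108) .nil))))) (.g (nat_lit 0) (.e (nat_lit 416694) (nat_lit 0) .nil) .nil))) 
(.lf (nat_lit 599773) (.g (nat_lit 733) (.e (nat_lit 581651) (nat_lit 4) (.e (nat_lit 172085) (nat_lit 9) (.e (nat_lit 426558) (nat_lit 33) (.e (nat_lit 392960) (nat_lit 5) .nil)))) (.g (nat_lit 0) (.e (nat_lit 417947) (nat_lit 0) .nil) .nil)))) (.nd (nat_lit 9) 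
(.lf (nat_lit 599517) (.g (nat_lit 1799) (.e (nat_lit 573491) (nat_lit 15) (.e (nat_lit 81956) (nat_lit 23) (.e (nat_lit 98356) (nat_lit 26) (.e (nat_lit 433920) (nat_lit 1) .nil)))) (.g (nat_lit 0) (.e (nat_lit 417270) (nat_lit 0) .nil) .nil))) 
(.lf (nat_lit 600029) (.g (nat_lit 4385) (.e (nat_lit 557089) (nat_lit 12) (.e (nat_lit 163848) (nat_lit 0) (.e (nat_lit 6252) (nat_lit 337) (.e (nat_lit 2630) (nat_lit 164) (.e (nat_lit 172064) (nat_lit 2) (.e (nat_lit 196666) (nat_lit 13) (.e (nat_lit 65617) (nat_lit 10) (.e (nat_lit 344130) (nat_lit 26) .nil)))))))) (.g (nat_lit 1) (.e (nat_lit 418728) (nat_lit 0) .nil) .nil))))))) 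
(.nd (nat_lit 6) (.nd (nat_lit 7) (.nd (nat_lit 8) (.nd (nat_lit 9) 
(.lf (nat_lit 599101) (.g (nat_lit 3546) (.e (nat_lit 573489) (nat_lit 14) (.e (nat_lit 73755) (nat_lit 8) (.e (nat_lit 557098) (nat_lit 13) (.e (nat_lit 172067) (nat_lit 3) (.e (nat_lit 212736) (nat_lit 7) (.e (nat_lit 409612) (nat_lit 10) (.e (nat_lit 632) (nat_lit 50) .nil))))))) (.g (nat_lit 1) (.e (nat_lit 416094) (nat_lit 0) .nil) .nil))) 
(.lf (nat_lit 599613) (.g (nat_lit 4189) (.e (nat_lit 573492) (nat_lit 15) (.e (nat_lit 81956) (nat_lit 23) (.e (nat_lit 98367) (nat_lit 27) (.e (nat_lit 434271) (nat_lit 38) (.e (nat_lit 655375) (nat_lit 3) (.e (nat_lit 163973) (nat_lit 30) .nil)))))) (.g (nat_lit 1) (.e (nat_lit 417560) (nat_lit 0) .nil) .nil)))) (.nd (nat_lit 9) 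
(.lf (nat_lit 599357) (.g (nat_lit 533) (.e (nat_lit 573491) (nat_lit 15) (.e (nat_lit 81953) (nat_lit 22) (.e (nat_lit 90165) (nat_lit 12) .nil))) (.g (nat_lit 0) (.e (nat_lit 416979) (nat_lit 0) .nil) .nil))) 
(.lf (nat_lit 599869) (.g (nat_lit 2982) (.e (nat_lit 557065) (nat_lit 9) (.e (nat_lit 3044) (nat_lit 189) (.e (nat_lit 466977) (nat_lit 22) (.e (nat_lit 196681) (nat_lit 17) (.e (nat_lit 131089) (nat_lit 1) (.e (nat_lit 57931) (nat_lit 282) (.e (nat_lit 163852) (nat_lit 0) (.e (nat_lit 7936) (nat_lit 200) .nil)))))))) (.g (nat_lit 1) (.e (nat_lit 418320) (nat_lit 0) .nil) .nil))))) 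
(.nd (nat_lit 8) (.nd (nat_lit 9) 
(.lf (nat_lit 599229) (.g (nat_lit 2914) (.e (nat_lit 573489) (nat_lit 14) (.e (nat_lit 73755) (nat_lit 8) (.e (nat_lit 557105) (nat_lit 14) (.e (nat_lit 180252) (nat_lit 10) (.e (nat_lit 573474) (nat_lit 12) (.e (nat_lit 57504) (nat_lit 38) (.e (nat_lit 638994) (nat_lit 7) (.e (nat_lit 163973) (nat_lit 30) .nil)))))))) (.g (nat_lit 1) (.e (nat_lit 416598) (nat_lit 0) .nil) .nil))) 
(.lf (nat_lit 599741) (.g (nat_lit 2929) (.e (nat_lit 573503) (nat_lit 18) (.e (nat_lit 1348) (nat_lit 102) (.e (nat_lit 286761) (nat_lit 13) (.e (nat_lit 393251) (nat_lit 18) (.e (nat_lit 164142) (nat_lit 146) (.e (nat_lit 2637) (nat_lit 165) (.e (nat_lit 180252) (nat_lit 10) .nil))))))) (.g (nat_lit 1) (.e (nat_lit 417834) (nat_lit 0) .nil) .nil)))) (.nd (nat_lit 9) 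
(.lf (nat_lit 599485) (.g (nat_lit 1927) (.e (nat_lit 573491) (nat_lit 15) (.e (nat_lit 81954) (nat_lit 23) (.e (nat_lit 98387) (nat_lit 33) (.e (nat_lit 491548) (nat_lit 9) (.e (nat_lit 336306) (nat_lit 15) (.e (nat_lit 3298) (nat_lit 202) .nil)))))) (.g (nat_lit 1) (.e (nat_lit 417236) (nat_lit 0) .nil) .nil))) 
(.lf (nat_lit 599997) (.g (nat_lit 5056) (.e (nat_lit 557087) (nat_lit 11) (.e (nat_lit 24625) (nat_lit 9) (.e (nat_lit 336303) (nat_lit 15) (.e (nat_lit 3304) (nat_lit 202) (.e (nat_lit 573484) (nat_lit 13) (.e (nat_lit 65617) (nat_lit 10) (.e (nat_lit 344130) (nat_lit 26) .nil))))))) (.g (nat_lit 1) (.e (nat_lit 418682) (nat_lit 0) .nil) .nil)))))) 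
(.nd (nat_lit 7) (.nd (nat_lit 8) (.nd (nat_lit 9) 
(.lf (nat_lit 599165) (.g (nat_lit 5470) (.e (nat_lit 573489) (nat_lit 14) (.e (nat_lit 73755) (nat_lit 8) (.e (nat_lit 557104) (nat_lit 14) (.e (nat_lit 180244) (nat_lit 5) (.e (nat_lit 532499) (nat_lit 1) (.e (nat_lit 57659) (nat_lit 152) (.e (nat_lit 2612) (nat_lit 163) (.e (nat_lit 163978) (nat_lit 30) .nil)))))))) (.g (nat_lit 1) (.e (nat_lit 416287) (nat_lit 0) .nil) .nil))) 
(.lf (nat_lit 599677) (.g (nat_lit 6176) (.e (nat_lit 573493) (nat_lit 15) (.e (nat_lit 81953) (nat_lit 22) (.e (nat_lit 90185) (nat_lit 17) (.e (nat_lit 237584) (nat_lit 1) (.e (nat_lit 164348) (nat_lit 240) (.e (nat_lit 2610) (nat_lit 163) (.e (nat_lit 163977) (nat_lit 30) .nil))))))) (.g (nat_lit 1) (.e (nat_lit 417685) (nat_lit 0) .nil) .nil)))) (.nd (nat_lit 9) 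
(.lf (nat_lit 599421) (.g (nat_lit 3605) (.e (nat_lit 573491) (nat_lit 15) (.e (nat_lit 81954) (nat_lit 23) (.e (nat_lit 98359) (nat_lit 26) (.e (nat_lit 426412) (nat_lit 15) (.e (nat_lit 2058) (nat_lit 142) (.e (nat_lit 704589) (nat_lit 3) (.e (nat_lit 163976) (nat_lit 30) .nil))))))) (.g (nat_lit 1) (.e (nat_lit 417118) (nat_lit 0) .nil) .nil))) 
(.lf (nat_lit 599933) (.g (nat_lit 1011) (.e (nat_lit 557070) (nat_lit 9) (.e (nat_lit 2744) (nat_lit 174) (.e (nat_lit 253992) (nat_lit 11) (.e (nat_lit 16412) (nat_lit 2) .nil)))) (.g (nat_lit 0) (.e (nat_lit 418549) (nat_lit 0) .nil) .nil))))) (.nd (nat_lit 8) (.nd (nat_lit 9) 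
(.lf (nat_lit 599293) (.g (nat_lit 718) (.e (nat_lit 573491) (nat_lit 15) (.e (nat_lit 81946) (nat_lit 20) (.e (nat_lit 1842) (nat_lit 123) (.e (nat_lit 548889) (nat_lit 9) .nil)))) (.g (nat_lit 0) (.e (nat_lit 416812) (nat_lit 0) .nil) .nil))) 
(.lf (nat_lit 599805) (.g (nat_lit 1166) (.e (nat_lit 581653) (nat_lit 6) (.e (nat_lit 188440) (nat_lit 20) (.e (nat_lit 3579) (nat_lit 223) (.e (nat_lit 745489) (nat_lit 4) .nil)))) (.g (nat_lit 0) (.e (nat_lit 418131) (nat_lit 0) .nil) .nil)))) (.nd (nat_lit 9) 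
(.lf (nat_lit 599549) (.g (nat_lit 610) (.e (nat_lit 573492) (nat_lit 15) (.e (nat_lit 81950) (nat_lit 21) (.e (nat_lit 65280) (nat_lit 140) .nil))) (.g (nat_lit 0) (.e (nat_lit 417329) (nat_lit 0) .nil) .nil))) 
(.lf (nat_lit 600061) (.g (nat_lit 4397) (.e (nat_lit 557090) (nat_lit 12) (.e (nat_lit 163847) (nat_lit 0) (.e (nat_lit 6254) (nat_lit 337) (.e (nat_lit 2630) (nat_lit 164) (.e (nat_lit 172062) (nat_lit 2) (.e (nat_lit 196666) (nat_lit 13) (.e (nat_lit 65617) (nat_lit 10) (.e (nat_lit 344130) (nat_lit 26) .nil)))))))) (.g (nat_lit 1) (.e (nat_lit 418798) (nat_lit 0) .nil) .nil))))))))))) 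
(.nd (nat_lit 2) (.nd (nat_lit 3) (.nd (nat_lit 4) (.nd (nat_lit 5) (.nd (nat_lit 6) 
(.nd (nat_lit 7) (.nd (nat_lit 8) (.nd (nat_lit 9) 
(.lf (nat_lit 599043) (.g (nat_lit 2147) (.e (nat_lit 573489) (nat_lit 14) (.e (nat_lit 73754) (nat_lit 8) (.e (nat_lit 557105) (nat_lit 14) (.e (nat_lit 180252) (nat_lit 10) (.e (nat_lit 573503) (nat_lit 18) .nil))))) (.g (nat_lit 0) (.e (nat_lit 415894) (nat_lit 0) .nil) .nil))) 
(.lf (nat_lit 599555) (.g (nat_lit 2774) (.e (nat_lit 573492) (nat_lit 15) (.e (nat_lit 81951) (nat_lit 22) (.e (nat_lit 90170) (nat_lit 13) (.e (nat_lit 172051) (nat_lit 0) .nil)))) (.g (nat_lit 0) (.e (nat_lit 417355) (nat_lit 0) .nil) .nil)))) (.nd (nat_lit 9) 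
(.lf (nat_lit 599299) (.g (nat_lit 2311) (.e (nat_lit 573491) (nat_lit 15) (.e (nat_lit 81946) (nat_lit 20) (.e (nat_lit 1858) (nat_lit 124) (.e (nat_lit 557085) (nat_lit 11) (.e (nat_lit 24647) (nat_lit 12) .nil))))) (.g (nat_lit 0) (.e (nat_lit 416833) (nat_lit 0) .nil) .nil))) 
(.lf (nat_lit 599811) (.g (nat_lit 1345) (.e (nat_lit 557059) (nat_lit 0) (.e (nat_lit 1582) (nat_lit 111) (.e (nat_lit 360493) (nat_lit 27) (.e (nat_lit 819204) (nat_lit 0) (.e (nat_lit 3016) (nat_lit 187) (.e (nat_lit 458496) (nat_lit 8) .nil)))))) (.g (nat_lit 1) (.e (nat_lit 418173) (nat_lit 0) .nil) .nil))))) (.nd (nat_lit 8) (.nd (nat_lit 9) 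
(.lf (nat_lit 599171) (.g (nat_lit 3582) (.e (nat_lit 573489) (nat_lit 14) (.e (nat_lit 73755) (nat_lit 8) (.e (nat_lit 557104) (nat_lit 14) (.e (nat_lit 180250) (nat_lit 10) (.e (nat_lit 573475) (nat_lit 12) (.e (nat_lit 57504) (nat_lit 38) (.e (nat_lit 638996) (nat_lit 7) (.e (nat_lit 163979) (nat_lit 30) .nil)))))))) (.g (nat_lit 1) (.e (nat_lit 416363) (nat_lit 0) .nil) .nil))) 
(.lf (nat_lit 599683) (.g (nat_lit 564) (.e (nat_lit 573493) (nat_lit 15) (.e (nat_lit 81954) (nat_lit 23) (.e (nat_lit 98319) (nat_lit 17) .nil))) (.g (nat_lit 0) (.e (nat_lit 417696) (nat_lit 0) .nil) .nil)))) (.nd (nat_lit 9) 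
(.lf (nat_lit 599427) (.g (nat_lit 1585) (.e (nat_lit 573491) (nat_lit 15) (.e (nat_lit 81954) (nat_lit 23) (.e (nat_lit 98365) (nat_lit 26) (.e (nat_lit 426105) (nat_lit 1) .nil)))) (.g (nat_lit 0) (.e (nat_lit 417131) (nat_lit 0) .nil) .nil))) 
(.lf (nat_lit 599939) (.g (nat_lit 1799) (.e (nat_lit 557070) (nat_lit 9) (.e (nat_lit 2744) (nat_lit 174) (.e (nat_lit 253992) (nat_lit 11) (.e (nat_lit 16415) (nat_lit 3) (.e (nat_lit 204868) (nat_lit 29) .nil))))) (.g (nat_lit 0) (.e (nat_lit 418555) (nat_lit 0) .nil) .nil)))))) (.nd (nat_lit 7) (.nd (nat_lit 8) (.nd (nat_lit 9) 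
(.lf (nat_lit 599107) (.g (nat_lit 3888) (.e (nat_lit 573489) (nat_lit 14) (.e (nat_lit 73755) (nat_lit 8) (.e (nat_lit 557098) (nat_lit 13) (.e (nat_lit 172067) (nat_lit 3) (.e (nat_lit 204816) (nat_lit 17) (.e (nat_lit 2273) (nat_lit 149) (.e (nat_lit 761899) (nat_lit 15) (.e (nat_lit 163978) (nat_lit 30) .nil)))))))) (.g (nat_lit 1) (.e (nat_lit 416101) (nat_lit 0) .nil) .nil))) 
(.lf (nat_lit 599619) (.g (nat_lit 4058) (.e (nat_lit 573492) (nat_lit 15) (.e (nat_lit 81956) (nat_lit 23) (.e (nat_lit 98383) (nat_lit 32) (.e (nat_lit 475199) (nat_lit 40) (.e (nat_lit 704590) (nat_lit 3) (.e (nat_lit 163975) (nat_lit 30) .nil)))))) (.g (nat_lit 1) (.e (nat_lit 417578) (nat_lit 0) .nil) .nil)))) (.nd (nat_lit 9) 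
(.lf (nat_lit 599363) (.g (nat_lit 2563) (.e (nat_lit 573491) (nat_lit 15) (.e (nat_lit 81954) (nat_lit 23) (.e (nat_lit 98319) (nat_lit 17) (.e (nat_lit 7589) (nat_lit 406) (.e (nat_lit 65637) (nat_lit 15) (.e (nat_lit 3305) (nat_lit 202) .nil)))))) (.g (nat_lit 1) (.e (nat_lit 416986) (nat_lit 0) .nil) .nil))) 
(.lf (nat_lit 599875) (.g (nat_lit 1606) (.e (nat_lit 557065) (nat_lit 9) (.e (nat_lit 3098) (nat_lit 192) (.e (nat_lit 491571) (nat_lit 13) (.e (nat_lit 393252) (nat_lit 18) .nil)))) (.g (nat_lit 0) (.e (nat_lit 418336) (nat_lit 0) .nil) .nil))))) (.nd (nat_lit 8) (.nd (nat_lit 9) 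
(.lf (nat_lit 599235) (.g (nat_lit 2982) (.e (nat_lit 573489) (nat_lit 14) (.e (nat_lit 73755) (nat_lit 8) (.e (nat_lit 557105) (nat_lit 14) (.e (nat_lit 180252) (nat_lit 10) (.e (nat_lit 573475) (nat_lit 12) (.e (nat_lit 57503) (nat_lit 38) (.e (nat_lit 638994) (nat_lit 7) (.e (nat_lit 163973) (nat_lit 30) .nil)))))))) (.g (nat_lit 1) (.e (nat_lit 416612) (nat_lit 0) .nil) .nil))) 
(.lf (nat_lit 599747) (.g (nat_lit 377) (.e (nat_lit 573503) (nat_lit 18) (.e (nat_lit 1349) (nat_lit 102) (.e (nat_lit 286748) (nat_lit 9) .nil))) (.g (nat_lit 0) (.e (nat_lit 417841) (nat_lit 0) .nil) .nil)))) (.nd (nat_lit 9) 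
(.lf (nat_lit 599491) (.g (nat_lit 2245) (.e (nat_lit 573491) (nat_lit 15) (.e (nat_lit 81954) (nat_lit 23) (.e (nat_lit 98388) (nat_lit 33) (.e (nat_lit 491550) (nat_lit 9) (.e (nat_lit 336306) (nat_lit 15) (.e (nat_lit 3298) (nat_lit 202) .nil)))))) (.g (nat_lit 1) (.e (nat_lit 417242) (nat_lit 0) .nil) .nil))) 
(.lf (nat_lit 600003) (.g (nat_lit 3681) (.e (nat_lit 557087) (nat_lit 11) (.e (nat_lit 24651) (nat_lit 12) (.e (nat_lit 385074) (nat_lit 31) (.e (nat_lit 573484) (nat_lit 13) (.e (nat_lit 65610) (nat_lit 10) (.e (nat_lit 344129) (nat_lit 26) .nil)))))) (.g (nat_lit 1) (.e (nat_lit 418689) (nat_lit 0) .nil) .nil))))))) (.nd (nat_lit 6) (.nd (nat_lit 7) (.nd (nat_lit 8) (.nd (nat_lit 9) 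
(.lf (nat_lit 599075) (.g (nat_lit 2841) (.e (nat_lit 573489) (nat_lit 14) (.e (nat_lit 73755) (nat_lit 8) (.e (nat_lit 557091) (nat_lit 12) (.e (nat_lit 163843) (nat_lit 0) (.e (nat_lit 5943) (nat_lit 322) .nil))))) (.g (nat_lit 0) (.e (nat_lit 416002) (nat_lit 0) .nil) .nil))) 
(.lf (nat_lit 599587) (.g (nat_lit 863) (.e (nat_lit 573492) (nat_lit 15) (.e (nat_lit 81956) (nat_lit 23) (.e (nat_lit 98324) (nat_lit 17) .nil))) (.g (nat_lit 0) (.e (nat_lit 417458) (nat_lit 0) .nil) .nil)))) (.nd (nat_lit 9) 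
(.lf (nat_lit 599331) (.g (nat_lit 3546) (.e (nat_lit 573491) (nat_lit 15) (.e (nat_lit 81951) (nat_lit 22) (.e (nat_lit 90170) (nat_lit 13) (.e (nat_lit 172042) (nat_lit 0) (.e (nat_lit 3409) (nat_lit 212) (.e (nat_lit 655373) (nat_lit 3) (.e (nat_lit 163979) (nat_lit 30) .nil))))))) (.g (nat_lit 1) (.e (nat_lit 416911) (nat_lit 0) .nil) .nil))) 
(.lf (nat_lit 599843) (.g (nat_lit 2472) (.e (nat_lit 557065) (nat_lit 9) (.e (nat_lit 2700) (nat_lit 169) (.e (nat_lit 213030) (nat_lit 11) (.e (nat_lit 24609) (nat_lit 3) (.e (nat_lit 98373) (nat_lit 29) (.e (nat_lit 458496) (nat_lit 8) .nil)))))) (.g (nat_lit 1) (.e (nat_lit 418251) (nat_lit 0) .nil) .nil))))) (.nd (nat_lit 8) (.nd (nat_lit 9) 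
(.lf (nat_lit 599203) (.g (nat_lit 4090) (.e (nat_lit 573489) (nat_lit 14) (.e (nat_lit 73755) (nat_lit 8) (.e (nat_lit 557105) (nat_lit 14) (.e (nat_lit 180250) (nat_lit 10) (.e (nat_lit 573475) (nat_lit 12) (.e (nat_lit 57503) (nat_lit 38) (.e (nat_lit 638995) (nat_lit 7) (.e (nat_lit 163978) (nat_lit 30) .nil)))))))) (.g (nat_lit 1) (.e (nat_lit 416461) (nat_lit 0) .nil) .nil))) 
(.lf (nat_lit 599715) (.g (nat_lit 1111) (.e (nat_lit 573493) (nat_lit 15) (.e (nat_lit 81956) (nat_lit 23) (.e (nat_lit 98388) (nat_lit 33) (.e (nat_lit 499456) (nat_lit 12) .nil)))) (.g (nat_lit 0) (.e (nat_lit 417769) (nat_lit 0) .nil) .nil)))) (.nd (nat_lit 9) 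
(.lf (nat_lit 599459) (.g (nat_lit 2923) (.e (nat_lit 573491) (nat_lit 15) (.e (nat_lit 81954) (nat_lit 23) (.e (nat_lit 98384) (nat_lit 32) (.e (nat_lit 475203) (nat_lit 40) .nil)))) (.g (nat_lit 0) (.e (nat_lit 417209) (nat_lit 0) .nil) .nil))) 
(.lf (nat_lit 599971) (.g (nat_lit 3327) (.e (nat_lit 557085) (nat_lit 11) (.e (nat_lit 24664) (nat_lit 14) (.e (nat_lit 401425) (nat_lit 2) (.e (nat_lit 196666) (nat_lit 13) (.e (nat_lit 65610) (nat_lit 10) (.e (nat_lit 344129) (nat_lit 26) .nil)))))) (.g (nat_lit 1) (.e (nat_lit 418642) (nat_lit 0) .nil) .nil)))))) (.nd (nat_lit 7) (.nd (nat_lit 8) (.nd (nat_lit 9) 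
(.lf (nat_lit 599139) (.g (nat_lit 4357) (.e (nat_lit 573489) (nat_lit 14) (.e (nat_lit 73755) (nat_lit 8) (.e (nat_lit 557103) (nat_lit 14) (.e (nat_lit 180244) (nat_lit 5) (.e (nat_lit 532499) (nat_lit 1) (.e (nat_lit 57652) (nat_lit 152) (.e (nat_lit 2612) (nat_lit 163) (.e (nat_lit 163978) (nat_lit 30) .nil)))))))) (.g (nat_lit 1) (.e (nat_lit 416187) (nat_lit 0) .nil) .nil))) 
(.lf (nat_lit 599651) (.g (nat_lit 2606) (.e (nat_lit 573493) (nat_lit 15) (.e (nat_lit 81951) (nat_lit 22) (.e (nat_lit 90170) (nat_lit 13) (.e (nat_lit 172052) (nat_lit 0) .nil)))) (.g (nat_lit 0) (.e (nat_lit 417648) (nat_lit 0) .nil) .nil)))) (.nd (nat_lit 9) 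
(.lf (nat_lit 599395) (.g (nat_lit 3034) (.e (nat_lit 573491) (nat_lit 15) (.e (nat_lit 81954) (nat_lit 23) (.e (nat_lit 98356) (nat_lit 26) (.e (nat_lit 426379) (nat_lit 15) (.e (nat_lit 2058) (nat_lit 142) (.e (nat_lit 704589) (nat_lit 3) (.e (nat_lit 163976) (nat_lit 30) .nil))))))) (.g (nat_lit 1) (.e (nat_lit 417064) (nat_lit 0) .nil) .nil))) 
(.lf (nat_lit 599907) (.g (nat_lit 1680) (.e (nat_lit 557069) (nat_lit 9) (.e (nat_lit 3098) (nat_lit 192) (.e (nat_lit 491571) (nat_lit 13) (.e (nat_lit 393251) (nat_lit 18) .nil)))) (.g (nat_lit 0) (.e (nat_lit 418518) (nat_lit 0) .nil) .nil))))) (.nd (nat_lit 8) (.nd (nat_lit 9) 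
(.lf (nat_lit 599267) (.g (nat_lit 1224) (.e (nat_lit 573490) (nat_lit 15) (.e (nat_lit 81953) (nat_lit 22) (.e (nat_lit 90173) (nat_lit 14) .nil))) (.g (nat_lit 0) (.e (nat_lit 416708) (nat_lit 0) .nil) .nil))) 
(.lf (nat_lit 599779) (.g (nat_lit 1794) (.e (nat_lit 581651) (nat_lit 4) (.e (nat_lit 172106) (nat_lit 10) (.e (nat_lit 434295) (nat_lit 49) (.e (nat_lit 745491) (nat_lit 4) (.e (nat_lit 65616) (nat_lit 10) (.e (nat_lit 344138) (nat_lit 29) .nil)))))) (.g (nat_lit 1) (.e (nat_lit 417968) (nat_lit 0) .nil) .nil)))) (.nd (nat_lit 9) 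
(.lf (nat_lit 599523) (.g (nat_lit 825) (.e (nat_lit 573491) (nat_lit 15) (.e (nat_lit 81956) (nat_lit 23) (.e (nat_lit 98363) (nat_lit 26) .nil))) (.g (nat_lit 0) (.e (nat_lit 417276) (nat_lit 0) .nil) .nil))) 
(.lf (nat_lit 600035) (.g (nat_lit 4372) (.e (nat_lit 557089) (nat_lit 12) (.e (nat_lit 163849) (nat_lit 0) (.e (nat_lit 6255) (nat_lit 337) (.e (nat_lit 2630) (nat_lit 164) (.e (nat_lit 172062) (nat_lit 2) (.e (nat_lit 196666) (nat_lit 13) (.e (nat_lit 65617) (nat_lit 10) (.e (nat_lit 344130) (nat_lit 26) .nil)))))))) (.g (nat_lit 1) (.e (nat_lit 418742) (nat_lit 0) .nil) .nil)))))))) 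
(.nd (nat_lit 5) (.nd (nat_lit 6) (.nd (nat_lit 7) (.nd (nat_lit 8) (.nd (nat_lit 9) 
(.lf (nat_lit 599059) (.g (nat_lit 3109) (.e (nat_lit 573489) (nat_lit 14) (.e (nat_lit 73755) (nat_lit 8) (.e (nat_lit 557090) (nat_lit 12) (.e (nat_lit 163999) (nat_lit 38) (.e (nat_lit 639006) (nat_lit 13) .nil))))) (.g (nat_lit 0) (.e (nat_lit 415984) (nat_lit 0) .nil) .nil))) 
(.lf (nat_lit 599571) (.g (nat_lit 1709) (.e (nat_lit 573492) (nat_lit 15) (.e (nat_lit 81954) (nat_lit 23) (.e (nat_lit 98367) (nat_lit 27) (.e (nat_lit 434271) (nat_lit 38) .nil)))) (.g (nat_lit 0) (.e (nat_lit 417436) (nat_lit 0) .nil) .nil)))) (.nd (nat_lit 9) 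
(.lf (nat_lit 599315) (.g (nat_lit 2957) (.e (nat_lit 573491) (nat_lit 15) (.e (nat_lit 81951) (nat_lit 22) (.e (nat_lit 90165) (nat_lit 12) (.e (nat_lit 164208) (nat_lit 176) (.e (nat_lit 2777) (nat_lit 178) (.e (nat_lit 286765) (nat_lit 15) (.e (nat_lit 3308) (nat_lit 202) .nil))))))) (.g (nat_lit 1) (.e (nat_lit 416871) (nat_lit 0) .nil) .nil))) 
(.lf (nat_lit 599827) (.g (nat_lit 848) (.e (nat_lit 564992) (nat_lit 6) (.e (nat_lit 81938) (nat_lit 20) (.e (nat_lit 2390) (nat_lit 156) (.e (nat_lit 819221) (nat_lit 6) (.e (nat_lit 188430) (nat_lit 20) .nil))))) (.g (nat_lit 0) (.e (nat_lit 418213) (nat_lit 0) .nil) .nil))))) (.nd (nat_lit 8) (.nd (nat_lit 9) 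
(.lf (nat_lit 599187) (.g (nat_lit 1600) (.e (nat_lit 573489) (nat_lit 14) (.e (nat_lit 73755) (nat_lit 8) (.e (nat_lit 557105) (nat_lit 14) (.e (nat_lit 180242) (nat_lit 5) .nil)))) (.g (nat_lit 0) (.e (nat_lit 416388) (nat_lit 0) .nil) .nil))) 
(.lf (nat_lit 599699) (.g (nat_lit 4330) (.e (nat_lit 573493) (nat_lit 15) (.e (nat_lit 81956) (nat_lit 23) (.e (nat_lit 98349) (nat_lit 24) (.e (nat_lit 409642) (nat_lit 17) (.e (nat_lit 294966) (nat_lit 15) (.e (nat_lit 3298) (nat_lit 202) .nil)))))) (.g (nat_lit 1) (.e (nat_lit 417723) (nat_lit 0) .nil) .nil)))) (.nd (nat_lit 9) 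
(.lf (nat_lit 599443) (.g (nat_lit 4016) (.e (nat_lit 573491) (nat_lit 15) (.e (nat_lit 81954) (nat_lit 23) (.e (nat_lit 98367) (nat_lit 27) (.e (nat_lit 434271) (nat_lit 38) (.e (nat_lit 655375) (nat_lit 3) (.e (nat_lit 163977) (nat_lit 30) .nil)))))) (.g (nat_lit 1) (.e (nat_lit 417178) (nat_lit 0) .nil) .nil))) 
(.lf (nat_lit 599955) (.g (nat_lit 2071) (.e (nat_lit 557072) (nat_lit 9) (.e (nat_lit 3098) (nat_lit 192) (.e (nat_lit 491571) (nat_lit 13) (.e (nat_lit 393253) (nat_lit 18) .nil)))) (.g (nat_lit 0) (.e (nat_lit 418603) (nat_lit 0) .nil) .nil)))))) (.nd (nat_lit 7) (.nd (nat_lit 8) (.nd (nat_lit 9) 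
(.lf (nat_lit 599123) (.g (nat_lit 642) (.e (nat_lit 573489) (nat_lit 14) (.e (nat_lit 73755) (nat_lit 8) (.e (nat_lit 557102) (nat_lit 14) .nil))) (.g (nat_lit 0) (.e (nat_lit 416152) (nat_lit 0) .nil) .nil))) 
(.lf (nat_lit 599635) (.g (nat_lit 4006) (.e (nat_lit 573492) (nat_lit 15) (.e (nat_lit 81956) (nat_lit 23) (.e (nat_lit 98386) (nat_lit 32) (.e (nat_lit 475211) (nat_lit 41) (.e (nat_lit 712722) (nat_lit 15) (.e (nat_lit 3302) (nat_lit 202) .nil)))))) (.g (nat_lit 1) (.e (nat_lit 417598) (nat_lit 0) .nil) .nil)))) (.nd (nat_lit 9) 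
(.lf (nat_lit 599379) (.g (nat_lit 2694) (.e (nat_lit 573491) (nat_lit 15) (.e (nat_lit 81954) (nat_lit 23) (.e (nat_lit 98325) (nat_lit 17) (.e (nat_lit 6986) (nat_lit 377) (.e (nat_lit 2782) (nat_lit 178) (.e (nat_lit 286765) (nat_lit 15) (.e (nat_lit 3298) (nat_lit 202) .nil))))))) (.g (nat_lit 1) (.e (nat_lit 417005) (nat_lit 0) .nil) .nil))) 
(.lf (nat_lit 599891) (.g (nat_lit 1765) (.e (nat_lit 557067) (nat_lit 9) (.e (nat_lit 3022) (nat_lit 187) (.e (nat_lit 450580) (nat_lit 5) (.e (nat_lit 532553) (nat_lit 13) (.e (nat_lit 368662) (nat_lit 18) .nil))))) (.g (nat_lit 0) (.e (nat_lit 418427) (nat_lit 0) .nil) .nil))))) (.nd (nat_lit 8) (.nd (nat_lit 9) 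
(.lf (nat_lit 599251) (.g (nat_lit 3048) (.e (nat_lit 573489) (nat_lit 14) (.e (nat_lit 73755) (nat_lit 8) (.e (nat_lit 557105) (nat_lit 14) (.e (nat_lit 180252) (nat_lit 10) (.e (nat_lit 573478) (nat_lit 12) (.e (nat_lit 57502) (nat_lit 38) (.e (nat_lit 638996) (nat_lit 7) (.e (nat_lit 163979) (nat_lit 30) .nil)))))))) (.g (nat_lit 1) (.e (nat_lit 416630) (nat_lit 0) .nil) .nil))) 
(.lf (nat_lit 599763) (.g (nat_lit 1321) (.e (nat_lit 581636) (nat_lit 0) (.e (nat_lit 3015) (nat_lit 187) (.e (nat_lit 450605) (nat_lit 27) (.e (nat_lit 745493) (nat_lit 6) (.e (nat_lit 81946) (nat_lit 20) (.e (nat_lit 1886) (nat_lit 127) .nil)))))) (.g (nat_lit 1) (.e (nat_lit 417901) (nat_lit 0) .nil) .nil)))) (.nd (nat_lit 9) 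
(.lf (nat_lit 599507) (.g (nat_lit 1884) (.e (nat_lit 573491) (nat_lit 15) (.e (nat_lit 81955) (nat_lit 23) (.e (nat_lit 98386) (nat_lit 32) (.e (nat_lit 475209) (nat_lit 41) (.e (nat_lit 712719) (nat_lit 15) .nil))))) (.g (nat_lit 0) (.e (nat_lit 417259) (nat_lit 0) .nil) .nil))) 
(.lf (nat_lit 600019) (.g (nat_lit 4157) (.e (nat_lit 557089) (nat_lit 12) (.e (nat_lit 163844) (nat_lit 0) (.e (nat_lit 6254) (nat_lit 337) (.e (nat_lit 2630) (nat_lit 164) (.e (nat_lit 172062) (nat_lit 2) (.e (nat_lit 196666) (nat_lit 13) (.e (nat_lit 65617) (nat_lit 10) (.e (nat_lit 344130) (nat_lit 26) .nil)))))))) (.g (nat_lit 1) (.e (nat_lit 418710) (nat_lit 0) .nil) .nil))))))) 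
(.nd (nat_lit 6) (.nd (nat_lit 7) (.nd (nat_lit 8) (.nd (nat_lit 9) 
(.lf (nat_lit 599091) (.g (nat_lit 2023) (.e (nat_lit 573489) (nat_lit 14) (.e (nat_lit 73755) (nat_lit 8) (.e (nat_lit 557097) (nat_lit 13) (.e (nat_lit 172067) (nat_lit 3) (.e (nat_lit 204815) (nat_lit 17) .nil))))) (.g (nat_lit 0) (.e (nat_lit 416057) (nat_lit 0) .nil) .nil))) 
(.lf (nat_lit 599603) (.g (nat_lit 3009) (.e (nat_lit 573492) (nat_lit 15) (.e (nat_lit 81956) (nat_lit 23) (.e (nat_lit 98361) (nat_lit 26) (.e (nat_lit 426025) (nat_lit 0) (.e (nat_lit 3399) (nat_lit 211) (.e (nat_lit 647180) (nat_lit 3) (.e (nat_lit 163976) (nat_lit 30) .nil))))))) (.g (nat_lit 1) (.e (nat_lit 417525) (nat_lit 0) .nil) .nil)))) (.nd (nat_lit 9) 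
(.lf (nat_lit 599347) (.g (nat_lit 1178) (.e (nat_lit 573491) (nat_lit 15) (.e (nat_lit 81951) (nat_lit 22) (.e (nat_lit 90170) (nat_lit 13) (.e (nat_lit 172070) (nat_lit 4) .nil)))) (.g (nat_lit 0) (.e (nat_lit 416954) (nat_lit 0) .nil) .nil))) 
(.lf (nat_lit 599859) (.g (nat_lit 2492) (.e (nat_lit 557065) (nat_lit 9) (.e (nat_lit 3044) (nat_lit 189) (.e (nat_lit 466977) (nat_lit 22) (.e (nat_lit 196681) (nat_lit 17) (.e (nat_lit 131089) (nat_lit 1) (.e (nat_lit 57930) (nat_lit 282) (.e (nat_lit 163841) (nat_lit 0) (.e (nat_lit 7936) (nat_lit 200) .nil)))))))) (.g (nat_lit 1) (.e (nat_lit 418309) (nat_lit 0) .nil) .nil))))) 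
(.nd (nat_lit 8) (.nd (nat_lit 9) 
(.lf (nat_lit 599219) (.g (nat_lit 3648) (.e (nat_lit 573489) (nat_lit 14) (.e (nat_lit 73755) (nat_lit 8) (.e (nat_lit 557105) (nat_lit 14) (.e (nat_lit 180252) (nat_lit 10) (.e (nat_lit 573474) (nat_lit 12) (.e (nat_lit 57501) (nat_lit 37) (.e (nat_lit 630799) (nat_lit 7) (.e (nat_lit 163976) (nat_lit 30) .nil)))))))) (.g (nat_lit 1) (.e (nat_lit 416588) (nat_lit 0) .nil) .nil))) 
(.lf (nat_lit 599731) (.g (nat_lit 3280) (.e (nat_lit 573503) (nat_lit 18) (.e (nat_lit 1348) (nat_lit 102) (.e (nat_lit 286735) (nat_lit 3) (.e (nat_lit 98342) (nat_lit 20) (.e (nat_lit 221212) (nat_lit 22) .nil))))) (.g (nat_lit 0) (.e (nat_lit 417819) (nat_lit 0) .nil) .nil)))) (.nd (nat_lit 9) 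
(.lf (nat_lit 599475) (.g (nat_lit 2379) (.e (nat_lit 573491) (nat_lit 15) (.e (nat_lit 81954) (nat_lit 23) (.e (nat_lit 98385) (nat_lit 32) (.e (nat_lit 475197) (nat_lit 40) (.e (nat_lit 704589) (nat_lit 3) (.e (nat_lit 163975) (nat_lit 30) .nil)))))) (.g (nat_lit 1) (.e (nat_lit 417226) (nat_lit 0) .nil) .nil))) 
(.lf (nat_lit 599987) (.g (nat_lit 3622) (.e (nat_lit 557087) (nat_lit 11) (.e (nat_lit 24578) (nat_lit 0) (.e (nat_lit 6619) (nat_lit 357) (.e (nat_lit 2685) (nat_lit 168) (.e (nat_lit 204869) (nat_lit 29) (.e (nat_lit 360475) (nat_lit 8) .nil)))))) (.g (nat_lit 1) (.e (nat_lit 418667) (nat_lit 0) .nil) .nil)))))) (.nd (nat_lit 7) (.nd (nat_lit 8) (.nd (nat_lit 9) 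
(.lf (nat_lit 599155) (.g (nat_lit 4055) (.e (nat_lit 573489) (nat_lit 14) (.e (nat_lit 73755) (nat_lit 8) (.e (nat_lit 557103) (nat_lit 14) (.e (nat_lit 180252) (nat_lit 10) (.e (nat_lit 573475) (nat_lit 12) (.e (nat_lit 57503) (nat_lit 38) (.e (nat_lit 638995) (nat_lit 7) (.e (nat_lit 163979) (nat_lit 30) .nil)))))))) (.g (nat_lit 1) (.e (nat_lit 416266) (nat_lit 0) .nil) .nil))) 
(.lf (nat_lit 599667) (.g (nat_lit 2279) (.e (nat_lit 573493) (nat_lit 15) (.e (nat_lit 81953) (nat_lit 22) (.e (nat_lit 90170) (nat_lit 13) (.e (nat_lit 172043) (nat_lit 0) .nil)))) (.g (nat_lit 0) (.e (nat_lit 417670) (nat_lit 0) .nil) .nil)))) (.nd (nat_lit 9) 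
(.lf (nat_lit 599411) (.g (nat_lit 3445) (.e (nat_lit 573491) (nat_lit 15) (.e (nat_lit 81954) (nat_lit 23) (.e (nat_lit 98359) (nat_lit 26) (.e (nat_lit 426043) (nat_lit 0) (.e (nat_lit 3409) (nat_lit 212) (.e (nat_lit 655375) (nat_lit 3) (.e (nat_lit 163977) (nat_lit 30) .nil))))))) (.g (nat_lit 1) (.e (nat_lit 417096) (nat_lit 0) .nil) .nil))) 
(.lf (nat_lit 599923) (.g (nat_lit 4819) (.e (nat_lit 557070) (nat_lit 9) (.e (nat_lit 2744) (nat_lit 174) (.e (nat_lit 253991) (nat_lit 11) (.e (nat_lit 16416) (nat_lit 3) (.e (nat_lit 204869) (nat_lit 29) (.e (nat_lit 360474) (nat_lit 8) .nil)))))) (.g (nat_lit 1) (.e (nat_lit 418538) (nat_lit 0) .nil) .nil))))) (.nd (nat_lit 8) (.nd (nat_lit 9) 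
(.lf (nat_lit 599283) (.g (nat_lit 3797) (.e (nat_lit 573491) (nat_lit 15) (.e (nat_lit 81924) (nat_lit 0) (.e (nat_lit 3305) (nat_lit 202) (.e (nat_lit 573484) (nat_lit 13) (.e (nat_lit 65624) (nat_lit 12) (.e (nat_lit 385074) (nat_lit 31) .nil)))))) (.g (nat_lit 1) (.e (nat_lit 416735) (nat_lit 0) .nil) .nil))) 
(.lf (nat_lit 599795) (.g (nat_lit 687) (.e (nat_lit 581652) (nat_lit 5) (.e (nat_lit 180287) (nat_lit 45) (.e (nat_lit 2580) (nat_lit 161) (.e (nat_lit 40965) (nat_lit 0) (.e (nat_lit 1582) (nat_lit 111) (.e (nat_lit 368384) (nat_lit 11) .nil)))))) (.g (nat_lit 1) (.e (nat_lit 418108) (nat_lit 0) .nil) .nil)))) (.nd (nat_lit 9) 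
(.lf (nat_lit 599539) (.g (nat_lit 1018) (.e (nat_lit 573491) (nat_lit 15) (.e (nat_lit 81956) (nat_lit 23) (.e (nat_lit 98387) (nat_lit 33) (.e (nat_lit 491549) (nat_lit 9) .nil)))) (.g (nat_lit 0) (.e (nat_lit 417299) (nat_lit 0) .nil) .nil))) 
(.lf (nat_lit 600051) (.g (nat_lit 997) (.e (nat_lit 557089) (nat_lit 12) (.e (nat_lit 164017) (nat_lit 44) (.e (nat_lit 688138) (nat_lit 5) (.e (nat_lit 2887) (nat_lit 184) .nil)))) (.g (nat_lit 0) (.e (nat_lit 418781) (nat_lit 0) .nil) .nil))))))))) (.nd (nat_lit 4) (.nd (nat_lit 5) (.nd (nat_lit 6) (.nd (nat_lit 7) (.nd (nat_lit 8) (.nd (nat_lit 9) 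
(.lf (nat_lit 599051) (.g (nat_lit 3367) (.e (nat_lit 573489) (nat_lit 14) (.e (nat_lit 73755) (nat_lit 8) (.e (nat_lit 557090) (nat_lit 12) (.e (nat_lit 163843) (nat_lit 0) (.e (nat_lit 5942) (nat_lit 322) (.e (nat_lit 57378) (nat_lit 3) (.e (nat_lit 98368) (nat_lit 27) (.e (nat_lit 434248) (nat_lit 28) .nil)))))))) (.g (nat_lit 1) (.e (nat_lit 415966) (nat_lit 0) .nil) .nil))) 
(.lf (nat_lit 599563) (.g (nat_lit 1174) (.e (nat_lit 573492) (nat_lit 15) (.e (nat_lit 81953) (nat_lit 22) (.e (nat_lit 90164) (nat_lit 12) .nil))) (.g (nat_lit 0) (.e (nat_lit 417388) (nat_lit 0) .nil) .nil)))) (.nd (nat_lit 9) 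
(.lf (nat_lit 599307) (.g (nat_lit 911) (.e (nat_lit 573491) (nat_lit 15) (.e (nat_lit 81947) (nat_lit 20) (.e (nat_lit 1842) (nat_lit 123) (.e (nat_lit 548874) (nat_lit 5) .nil)))) (.g (nat_lit 0) (.e (nat_lit 416846) (nat_lit 0) .nil) .nil))) 
(.lf (nat_lit 599819) (.g (nat_lit 1148) (.e (nat_lit 557061) (nat_lit 0) (.e (nat_lit 1597) (nat_lit 111) (.e (nat_lit 360493) (nat_lit 27) (.e (nat_lit 819203) (nat_lit 0) (.e (nat_lit 3016) (nat_lit 187) (.e (nat_lit 458496) (nat_lit 8) .nil)))))) (.g (nat_lit 1) (.e (nat_lit 418195) (nat_lit 0) .nil) .nil))))) (.nd (nat_lit 8) (.nd (nat_lit 9) 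
(.lf (nat_lit 599179) (.g (nat_lit 4614) (.e (nat_lit 573489) (nat_lit 14) (.e (nat_lit 73755) (nat_lit 8) (.e (nat_lit 557104) (nat_lit 14) (.e (nat_lit 180252) (nat_lit 10) (.e (nat_lit 573474) (nat_lit 12) (.e (nat_lit 57503) (nat_lit 38) (.e (nat_lit 638995) (nat_lit 7) (.e (nat_lit 163979) (nat_lit 30) .nil)))))))) (.g (nat_lit 1) (.e (nat_lit 416372) (nat_lit 0) .nil) .nil))) 
(.lf (nat_lit 599691) (.g (nat_lit 420) (.e (nat_lit 573493) (nat_lit 15) (.e (nat_lit 81956) (nat_lit 23) (.e (nat_lit 98318) (nat_lit 17) .nil))) (.g (nat_lit 0) (.e (nat_lit 417710) (nat_lit 0) .nil) .nil)))) (.nd (nat_lit 9) 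
(.lf (nat_lit 599435) (.g (nat_lit 2783) (.e (nat_lit 573491) (nat_lit 15) (.e (nat_lit 81954) (nat_lit 23) (.e (nat_lit 98366) (nat_lit 27) (.e (nat_lit 434272) (nat_lit 38) (.e (nat_lit 655373) (nat_lit 3) (.e (nat_lit 163976) (nat_lit 30) .nil)))))) (.g (nat_lit 1) (.e (nat_lit 417156) (nat_lit 0) .nil) .nil))) 
(.lf (nat_lit 599947) (.g (nat_lit 2812) (.e (nat_lit 557072) (nat_lit 9) (.e (nat_lit 3098) (nat_lit 192) (.e (nat_lit 491570) (nat_lit 13) (.e (nat_lit 393251) (nat_lit 18) (.e (nat_lit 164179) (nat_lit 154) .nil))))) (.g (nat_lit 0) (.e (nat_lit 418593) (nat_lit 0) .nil) .nil)))))) (.nd (nat_lit 7) (.nd (nat_lit 8) (.nd (nat_lit 9) 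
(.lf (nat_lit 599115) (.g (nat_lit 4455) (.e (nat_lit 573489) (nat_lit 14) (.e (nat_lit 73755) (nat_lit 8) (.e (nat_lit 557098) (nat_lit 13) (.e (nat_lit 179968) (nat_lit 18) (.e (nat_lit 98334) (nat_lit 18) (.e (nat_lit 164330) (nat_lit 230) (.e (nat_lit 163850) (nat_lit 0) (.e (nat_lit 3304) (nat_lit 202) .nil)))))))) (.g (nat_lit 1) (.e (nat_lit 416127) (nat_lit 0) .nil) .nil))) 
(.lf (nat_lit 599627) (.g (nat_lit 2261) (.e (nat_lit 573492) (nat_lit 15) (.e (nat_lit 81956) (nat_lit 23) (.e (nat_lit 98384) (nat_lit 32) (.e (nat_lit 475209) (nat_lit 41) (.e (nat_lit 712722) (nat_lit 15) .nil))))) (.g (nat_lit 0) (.e (nat_lit 417587) (nat_lit 0) .nil) .nil)))) (.nd (nat_lit 9) 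
(.lf (nat_lit 599371) (.g (nat_lit 386) (.e (nat_lit 573491) (nat_lit 15) (.e (nat_lit 81954) (nat_lit 23) (.e (nat_lit 98325) (nat_lit 17) .nil))) (.g (nat_lit 0) (.e (nat_lit 416997) (nat_lit 0) .nil) .nil))) 
(.lf (nat_lit 599883) (.g (nat_lit 2800) (.e (nat_lit 557067) (nat_lit 9) (.e (nat_lit 2878) (nat_lit 184) (.e (nat_lit 426125) (nat_lit 2) (.e (nat_lit 196661) (nat_lit 12) (.e (nat_lit 57351) (nat_lit 0) .nil))))) (.g (nat_lit 0) (.e (nat_lit 418386) (nat_lit 0) .nil) .nil))))) (.nd (nat_lit 8) (.nd (nat_lit 9) 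
(.lf (nat_lit 599243) (.g (nat_lit 2497) (.e (nat_lit 573489) (nat_lit 14) (.e (nat_lit 73755) (nat_lit 8) (.e (nat_lit 557105) (nat_lit 14) (.e (nat_lit 180252) (nat_lit 10) (.e (nat_lit 573476) (nat_lit 12) .nil))))) (.g (nat_lit 0) (.e (nat_lit 416622) (nat_lit 0) .nil) .nil))) 
(.lf (nat_lit 599755) (.g (nat_lit 1746) (.e (nat_lit 581635) (nat_lit 0) (.e (nat_lit 3015) (nat_lit 187) (.e (nat_lit 450563) (nat_lit 0) (.e (nat_lit 6808) (nat_lit 365) (.e (nat_lit 7936) (nat_lit 90) .nil))))) (.g (nat_lit 0) (.e (nat_lit 417875) (nat_lit 0) .nil) .nil)))) (.nd (nat_lit 9) 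
(.lf (nat_lit 599499) (.g (nat_lit 1861) (.e (nat_lit 573491) (nat_lit 15) (.e (nat_lit 81954) (nat_lit 23) (.e (nat_lit 98389) (nat_lit 33) (.e (nat_lit 491556) (nat_lit 9) (.e (nat_lit 343808) (nat_lit 15) (.e (nat_lit 3308) (nat_lit 202) .nil)))))) (.g (nat_lit 1) (.e (nat_lit 417250) (nat_lit 0) .nil) .nil))) 
(.lf (nat_lit 600011) (.g (nat_lit 3661) (.e (nat_lit 557087) (nat_lit 11) (.e (nat_lit 24665) (nat_lit 14) (.e (nat_lit 401426) (nat_lit 3) (.e (nat_lit 204868) (nat_lit 29) (.e (nat_lit 360475) (nat_lit 8) .nil))))) (.g (nat_lit 1) (.e (nat_lit 418700) (nat_lit 0) .nil) .nil))))))) (.nd (nat_lit 6) (.nd (nat_lit 7) (.nd (nat_lit 8) (.nd (nat_lit 9) 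
(.lf (nat_lit 599083) (.g (nat_lit 399) (.e (nat_lit 573489) (nat_lit 14) (.e (nat_lit 73755) (nat_lit 8) (.e (nat_lit 557096) (nat_lit 13) .nil))) (.g (nat_lit 0) (.e (nat_lit 416019) (nat_lit 0) .nil) .nil))) 
(.lf (nat_lit 599595) (.g (nat_lit 1684) (.e (nat_lit 573492) (nat_lit 15) (.e (nat_lit 81956) (nat_lit 23) (.e (nat_lit 98359) (nat_lit 26) (.e (nat_lit 426367) (nat_lit 15) .nil)))) (.g (nat_lit 0) (.e (nat_lit 417514) (nat_lit 0) .nil) .nil)))) (.nd (nat_lit 9) 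
(.lf (nat_lit 599339) (.g (nat_lit 3369) (.e (nat_lit 573491) (nat_lit 15) (.e (nat_lit 81951) (nat_lit 22) (.e (nat_lit 90170) (nat_lit 13) (.e (nat_lit 172049) (nat_lit 0) (.e (nat_lit 3407) (nat_lit 212) (.e (nat_lit 655373) (nat_lit 3) (.e (nat_lit 163979) (nat_lit 30) .nil))))))) (.g (nat_lit 1) (.e (nat_lit 416922) (nat_lit 0) .nil) .nil))) 
(.lf (nat_lit 599851) (.g (nat_lit 1306) (.e (nat_lit 557065) (nat_lit 9) (.e (nat_lit 3024) (nat_lit 187) (.e (nat_lit 450580) (nat_lit 5) (.e (nat_lit 532563) (nat_lit 15) (.e (nat_lit 385096) (nat_lit 49) (.e (nat_lit 778578) (nat_lit 17) (.e (nat_lit 171776) (nat_lit 89) .nil))))))) (.g (nat_lit 1) (.e (nat_lit 418281) (nat_lit 0) .nil) .nil))))) (.nd (nat_lit 8) (.nd (nat_lit 9) 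
(.lf (nat_lit 599211) (.g (nat_lit 2820) (.e (nat_lit 573489) (nat_lit 14) (.e (nat_lit 73755) (nat_lit 8) (.e (nat_lit 557105) (nat_lit 14) (.e (nat_lit 180252) (nat_lit 10) (.e (nat_lit 573472) (nat_lit 12) (.e (nat_lit 57503) (nat_lit 38) (.e (nat_lit 638995) (nat_lit 7) (.e (nat_lit 163978) (nat_lit 30) .nil)))))))) (.g (nat_lit 1) (.e (nat_lit 416534) (nat_lit 0) .nil) .nil))) 
(.lf (nat_lit 599723) (.g (nat_lit 495) (.e (nat_lit 573493) (nat_lit 15) (.e (nat_lit 81959) (nat_lit 24) (.e (nat_lit 130816) (nat_lit 141) .nil))) (.g (nat_lit 0) (.e (nat_lit 417780) (nat_lit 0) .nil) .nil)))) (.nd (nat_lit 9) 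
(.lf (nat_lit 599467) (.g (nat_lit 2803) (.e (nat_lit 573491) (nat_lit 15) (.e (nat_lit 81954) (nat_lit 23) (.e (nat_lit 98384) (nat_lit 32) (.e (nat_lit 475210) (nat_lit 41) (.e (nat_lit 712719) (nat_lit 15) .nil))))) (.g (nat_lit 0) (.e (nat_lit 417217) (nat_lit 0) .nil) .nil))) 
(.lf (nat_lit 599979) (.g (nat_lit 2703) (.e (nat_lit 557085) (nat_lit 11) (.e (nat_lit 24665) (nat_lit 14) (.e (nat_lit 401427) (nat_lit 3) (.e (nat_lit 204868) (nat_lit 29) (.e (nat_lit 360473) (nat_lit 8) .nil))))) (.g (nat_lit 1) (.e (nat_lit 418651) (nat_lit 0) .nil) .nil)))))) (.nd (nat_lit 7) (.nd (nat_lit 8) (.nd (nat_lit 9) 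
(.lf (nat_lit 599147) (.g (nat_lit 3612) (.e (nat_lit 573489) (nat_lit 14) (.e (nat_lit 73755) (nat_lit 8) (.e (nat_lit 557103) (nat_lit 14) (.e (nat_lit 180250) (nat_lit 10) (.e (nat_lit 573475) (nat_lit 12) (.e (nat_lit 57501) (nat_lit 37) (.e (nat_lit 630800) (nat_lit 7) (.e (nat_lit 163977) (nat_lit 30) .nil)))))))) (.g (nat_lit 1) (.e (nat_lit 416258) (nat_lit 0) .nil) .nil))) 
(.lf (nat_lit 599659) (.g (nat_lit 824) (.e (nat_lit 573493) (nat_lit 15) (.e (nat_lit 81953) (nat_lit 22) (.e (nat_lit 90137) (nat_lit 9) .nil))) (.g (nat_lit 0) (.e (nat_lit 417659) (nat_lit 0) .nil) .nil)))) (.nd (nat_lit 9) 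
(.lf (nat_lit 599403) (.g (nat_lit 1426) (.e (nat_lit 573491) (nat_lit 15) (.e (nat_lit 81954) (nat_lit 23) (.e (nat_lit 98359) (nat_lit 26) (.e (nat_lit 426022) (nat_lit 0) (.e (nat_lit 3401) (nat_lit 211) .nil))))) (.g (nat_lit 0) (.e (nat_lit 417077) (nat_lit 0) .nil) .nil))) 
(.lf (nat_lit 599915) (.g (nat_lit 2345) (.e (nat_lit 557070) (nat_lit 9) (.e (nat_lit 2744) (nat_lit 174) (.e (nat_lit 253991) (nat_lit 11) (.e (nat_lit 16412) (nat_lit 2) (.e (nat_lit 196674) (nat_lit 15) .nil))))) (.g (nat_lit 0) (.e (nat_lit 418530) (nat_lit 0) .nil) .nil))))) (.nd (nat_lit 8) (.nd (nat_lit 9) 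
(.lf (nat_lit 599275) (.g (nat_lit 1512) (.e (nat_lit 573490) (nat_lit 15) (.e (nat_lit 81956) (nat_lit 23) (.e (nat_lit 98350) (nat_lit 24) (.e (nat_lit 409649) (nat_lit 18) .nil)))) (.g (nat_lit 0) (.e (nat_lit 416718) (nat_lit 0) .nil) .nil))) 
(.lf (nat_lit 599787) (.g (nat_lit 1199) (.e (nat_lit 581651) (nat_lit 4) (.e (nat_lit 172115) (nat_lit 10) (.e (nat_lit 434202) (nat_lit 18) (.e (nat_lit 6830) (nat_lit 367) .nil)))) (.g (nat_lit 0) (.e (nat_lit 417976) (nat_lit 0) .nil) .nil)))) (.nd (nat_lit 9) 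
(.lf (nat_lit 599531) (.g (nat_lit 3833) (.e (nat_lit 573491) (nat_lit 15) (.e (nat_lit 81956) (nat_lit 23) (.e (nat_lit 98384) (nat_lit 32) (.e (nat_lit 475199) (nat_lit 40) (.e (nat_lit 704590) (nat_lit 3) (.e (nat_lit 163975) (nat_lit 30) .nil)))))) (.g (nat_lit 1) (.e (nat_lit 417291) (nat_lit 0) .nil) .nil))) 
(.lf (nat_lit 600043) (.g (nat_lit 3980) (.e (nat_lit 557089) (nat_lit 12) (.e (nat_lit 163849) (nat_lit 0) (.e (nat_lit 6420) (nat_lit 341) (.e (nat_lit 163917) (nat_lit 13) (.e (nat_lit 434231) (nat_lit 23) (.e (nat_lit 532550) (nat_lit 12) (.e (nat_lit 360475) (nat_lit 8) .nil))))))) (.g (nat_lit 1) (.e (nat_lit 418756) (nat_lit 0) .nil) .nil)))))))) 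
(.nd (nat_lit 5) (.nd (nat_lit 6) (.nd (nat_lit 7) (.nd (nat_lit 8) (.nd (nat_lit 9) 
(.lf (nat_lit 599067) (.g (nat_lit 4480) (.e (nat_lit 573489) (nat_lit 14) (.e (nat_lit 73755) (nat_lit 8) (.e (nat_lit 557090) (nat_lit 12) (.e (nat_lit 164007) (nat_lit 41) (.e (nat_lit 663582) (nat_lit 10) (.e (nat_lit 8326) (nat_lit 69) (.e (nat_lit 557105) (nat_lit 14) (.e (nat_lit 180252) (nat_lit 10) .nil)))))))) (.g (nat_lit 1) (.e (nat_lit 415992) (nat_lit 0) .nil) .nil))) 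
(.lf (nat_lit 599579) (.g (nat_lit 2445) (.e (nat_lit 573492) (nat_lit 15) (.e (nat_lit 81954) (nat_lit 23) (.e (nat_lit 98384) (nat_lit 32) (.e (nat_lit 483072) (nat_lit 40) .nil)))) (.g (nat_lit 0) (.e (nat_lit 417444) (nat_lit 0) .nil) .nil)))) (.nd (nat_lit 9) 
(.lf (nat_lit 599323) (.g (nat_lit 332) (.e (nat_lit 573491) (nat_lit 15) (.e (nat_lit 81951) (nat_lit 22) (.e (nat_lit 90170) (nat_lit 13) .nil))) (.g (nat_lit 0) (.e (nat_lit 416894) (nat_lit 0) .nil) .nil))) 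
(.lf (nat_lit 599835) (.g (nat_lit 699) (.e (nat_lit 564992) (nat_lit 6) (.e (nat_lit 81947) (nat_lit 20) (.e (nat_lit 2390) (nat_lit 156) (.e (nat_lit 819221) (nat_lit 6) (.e (nat_lit 188427) (nat_lit 20) .nil))))) (.g (nat_lit 0) (.e (nat_lit 418221) (nat_lit 0) .nil) .nil))))) (.nd (nat_lit 8) (.nd (nat_lit 9) 
(.lf (nat_lit 599195) (.g (nat_lit 2567) (.e (nat_lit 573489) (nat_lit 14) (.e (nat_lit 73755) (nat_lit 8) (.e (nat_lit 557105) (nat_lit 14) (.e (nat_lit 180244) (nat_lit 5) (.e (nat_lit 532499) (nat_lit 1) .nil))))) (.g (nat_lit 0) (.e (nat_lit 416407) (nat_lit 0) .nil) .nil))) 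
(.lf (nat_lit 599707) (.g (nat_lit 577) (.e (nat_lit 573493) (nat_lit 15) (.e (nat_lit 81956) (nat_lit 23) (.e (nat_lit 98363) (nat_lit 26) .nil))) (.g (nat_lit 0) (.e (nat_lit 417752) (nat_lit 0) .nil) .nil)))) (.nd (nat_lit 9) 
(.lf (nat_lit 599451) (.g (nat_lit 2513) (.e (nat_lit 573491) (nat_lit 15) (.e (nat_lit 81954) (nat_lit 23) (.e (nat_lit 98384) (nat_lit 32) (.e (nat_lit 475195) (nat_lit 40) (.e (nat_lit 704589) (nat_lit 3) (.e (nat_lit 163976) (nat_lit 30) .nil)))))) (.g (nat_lit 1) (.e (nat_lit 417201) (nat_lit 0) .nil) .nil))) 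
(.lf (nat_lit 599963) (.g (nat_lit 3516) (.e (nat_lit 557085) (nat_lit 11) (.e (nat_lit 24651) (nat_lit 12) (.e (nat_lit 385074) (nat_lit 31) (.e (nat_lit 573484) (nat_lit 13) (.e (nat_lit 65610) (nat_lit 10) (.e (nat_lit 344129) (nat_lit 26) .nil)))))) (.g (nat_lit 1) (.e (nat_lit 418634) (nat_lit 0) .nil) .nil)))))) (.nd (nat_lit 7) (.nd (nat_lit 8) (.nd (nat_lit 9) 
(.lf (nat_lit 599131) (.g (nat_lit 2855) (.e (nat_lit 573489) (nat_lit 14) (.e (nat_lit 73755) (nat_lit 8) (.e (nat_lit 557103) (nat_lit 14) (.e (nat_lit 180243) (nat_lit 5) (.e (nat_lit 532488) (nat_lit 0) .nil))))) (.g (nat_lit 0) (.e (nat_lit 416163) (nat_lit 0) .nil) .nil))) 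
(.lf (nat_lit 599643) (.g (nat_lit 2952) (.e (nat_lit 573492) (nat_lit 15) (.e (nat_lit 81956) (nat_lit 23) (.e (nat_lit 98389) (nat_lit 33) (.e (nat_lit 491556) (nat_lit 9) (.e (nat_lit 343808) (nat_lit 15) (.e (nat_lit 3298) (nat_lit 202) .nil)))))) (.g (nat_lit 1) (.e (nat_lit 417609) (nat_lit 0) .nil) .nil)))) (.nd (nat_lit 9) 
(.lf (nat_lit 599387) (.g (nat_lit 2262) (.e (nat_lit 573491) (nat_lit 15) (.e (nat_lit 81954) (nat_lit 23) (.e (nat_lit 98356) (nat_lit 26) (.e (nat_lit 426354) (nat_lit 15) (.e (nat_lit 2050) (nat_lit 142) (.e (nat_lit 704589) (nat_lit 3) (.e (nat_lit 163976) (nat_lit 30) .nil))))))) (.g (nat_lit 1) (.e (nat_lit 417055) (nat_lit 0) .nil) .nil))) 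
(.lf (nat_lit 599899) (.g (nat_lit 3082) (.e (nat_lit 557067) (nat_lit 9) (.e (nat_lit 3022) (nat_lit 187) (.e (nat_lit 450580) (nat_lit 5) (.e (nat_lit 532563) (nat_lit 15) (.e (nat_lit 385115) (nat_lit 53) (.e (nat_lit 811008) (nat_lit 0) (.e (nat_lit 617) (nat_lit 48) .nil))))))) (.g (nat_lit 1) (.e (nat_lit 418446) (nat_lit 0) .nil) .nil))))) (.nd (nat_lit 8) (.nd (nat_lit 9) 
(.lf (nat_lit 599259) (.g (nat_lit 1614) (.e (nat_lit 573489) (nat_lit 14) (.e (nat_lit 73781) (nat_lit 32) (.e (nat_lit 2664) (nat_lit 167) (.e (nat_lit 196630) (nat_lit 9) (.e (nat_lit 1413) (nat_lit 108) .nil))))) (.g (nat_lit 0) (.e (nat_lit 416681) (nat_lit 0) .nil) .nil))) 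
(.lf (nat_lit 599771) (.g (nat_lit 802) (.e (nat_lit 581651) (nat_lit 4) (.e (nat_lit 172082) (nat_lit 7) (.e (nat_lit 409612) (nat_lit 10) (.e (nat_lit 934) (nat_lit 76) .nil)))) (.g (nat_lit 0) (.e (nat_lit 417945) (nat_lit 0) .nil) .nil)))) (.nd (nat_lit 9) 
(.lf (nat_lit 599515) (.g (nat_lit 2586) (.e (nat_lit 573491) (nat_lit 15) (.e (nat_lit 81956) (nat_lit 23) (.e (nat_lit 98350) (nat_lit 24) (.e (nat_lit 409617) (nat_lit 10) .nil)))) (.g (nat_lit 0) (.e (nat_lit 417267) (nat_lit 0) .nil) .nil))) 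
(.lf (nat_lit 600027) (.g (nat_lit 4275) (.e (nat_lit 557089) (nat_lit 12) (.e (nat_lit 163844) (nat_lit 0) (.e (nat_lit 6421) (nat_lit 341) (.e (nat_lit 163900) (nat_lit 12) (.e (nat_lit 426125) (nat_lit 2) (.e (nat_lit 196666) (nat_lit 13) (.e (nat_lit 65617) (nat_lit 10) (.e (nat_lit 344130) (nat_lit 26) .nil)))))))) (.g (nat_lit 1) (.e (nat_lit 418724) (nat_lit 0) .nil) .nil))))))) 
(.nd (nat_lit 6) (.nd (nat_lit 7) (.nd (nat_lit 8) (.nd (nat_lit 9) 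
(.lf (nat_lit 599099) (.g (nat_lit 1493) (.e (nat_lit 573489) (nat_lit 14) (.e (nat_lit 73755) (nat_lit 8) (.e (nat_lit 557098) (nat_lit 13) (.e (nat_lit 172066) (nat_lit 3) .nil)))) (.g (nat_lit 0) (.e (nat_lit 416085) (nat_lit 0) .nil) .nil))) 
(.lf (nat_lit 599611) (.g (nat_lit 5352) (.e (nat_lit 573492) (nat_lit 15) (.e (nat_lit 81956) (nat_lit 23) (.e (nat_lit 98365) (nat_lit 26) (.e (nat_lit 426035) (nat_lit 0) (.e (nat_lit 3409) (nat_lit 212) (.e (nat_lit 655375) (nat_lit 3) (.e (nat_lit 163979) (nat_lit 30) .nil))))))) (.g (nat_lit 1) (.e (nat_lit 417537) (nat_lit 0) .nil) .nil)))) (.nd (nat_lit 9) 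
(.lf (nat_lit 599355) (.g (nat_lit 2074) (.e (nat_lit 573491) (nat_lit 15) (.e (nat_lit 81951) (nat_lit 22) (.e (nat_lit 90185) (nat_lit 17) (.e (nat_lit 237583) (nat_lit 1) .nil)))) (.g (nat_lit 0) (.e (nat_lit 416973) (nat_lit 0) .nil) .nil))) 
(.lf (nat_lit 599867) (.g (nat_lit 3713) (.e (nat_lit 557065) (nat_lit 9) (.e (nat_lit 3044) (nat_lit 189) (.e (nat_lit 466977) (nat_lit 22) (.e (nat_lit 196681) (nat_lit 17) (.e (nat_lit 131089) (nat_lit 1) (.e (nat_lit 57931) (nat_lit 282) (.e (nat_lit 163843) (nat_lit 0) (.e (nat_lit 7936) (nat_lit 200) .nil)))))))) (.g (nat_lit 1) (.e (nat_lit 418318) (nat_lit 0) .nil) .nil))))) 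
(.nd (nat_lit 8) (.nd (nat_lit 9) 
(.lf (nat_lit 599227) (.g (nat_lit 3409) (.e (nat_lit 573489) (nat_lit 14) (.e (nat_lit 73755) (nat_lit 8) (.e (nat_lit 557105) (nat_lit 14) (.e (nat_lit 180252) (nat_lit 10) (.e (nat_lit 573474) (nat_lit 12) (.e (nat_lit 57504) (nat_lit 38) (.e (nat_lit 638983) (nat_lit 5) (.e (nat_lit 2461) (nat_lit 157) (.e (nat_lit 3308) (nat_lit 202) .nil))))))))) (.g (nat_lit 1) (.e (nat_lit 416596) (nat_lit 0) .nil) .nil))) 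
(.lf (nat_lit 599739) (.g (nat_lit 3205) (.e (nat_lit 573503) (nat_lit 18) (.e (nat_lit 1348) (nat_lit 102) (.e (nat_lit 286761) (nat_lit 13) (.e (nat_lit 393234) (nat_lit 17) (.e (nat_lit 2536) (nat_lit 157) .nil))))) (.g (nat_lit 0) (.e (nat_lit 417832) (nat_lit 0) .nil) .nil)))) (.nd (nat_lit 9) 
(.lf (nat_lit 599483) (.g (nat_lit 1298) (.e (nat_lit 573491) (nat_lit 15) (.e (nat_lit 81954) (nat_lit 23) (.e (nat_lit 98386) (nat_lit 32) (.e (nat_lit 475207) (nat_lit 41) .nil)))) (.g (nat_lit 0) (.e (nat_lit 417234) (nat_lit 0) .nil) .nil))) 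
(.lf (nat_lit 599995) (.g (nat_lit 4947) (.e (nat_lit 557087) (nat_lit 11) (.e (nat_lit 24625) (nat_lit 9) (.e (nat_lit 336260) (nat_lit 15) (.e (nat_lit 3307) (nat_lit 202) (.e (nat_lit 573484) (nat_lit 13) (.e (nat_lit 65617) (nat_lit 10) (.e (nat_lit 344130) (nat_lit 26) .nil))))))) (.g (nat_lit 1) (.e (nat_lit 418680) (nat_lit 0) .nil) .nil)))))) 
(.nd (nat_lit 7) (.nd (nat_lit 8) (.nd (nat_lit 9) 
(.lf (nat_lit 599163) (.g (nat_lit 2695) (.e (nat_lit 573489) (nat_lit 14) (.e (nat_lit 73755) (nat_lit 8) (.e (nat_lit 557104) (nat_lit 14) (.e (nat_lit 180244) (nat_lit 5) (.e (nat_lit 532490) (nat_lit 0) (.e (nat_lit 2270) (nat_lit 149) (.e (nat_lit 761899) (nat_lit 15) (.e (nat_lit 163977) (nat_lit 30) .nil)))))))) (.g (nat_lit 1) (.e (nat_lit 416279) (nat_lit 0) .nil) .nil))) 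
(.lf (nat_lit 599675) (.g (nat_lit 969) (.e (nat_lit 573493) (nat_lit 15) (.e (nat_lit 81953) (nat_lit 22) (.e (nat_lit 90181) (nat_lit 16) .nil))) (.g (nat_lit 0) (.e (nat_lit 417682) (nat_lit 0) .nil) .nil)))) (.nd (nat_lit 9) 
(.lf (nat_lit 599419) (.g (nat_lit 1550) (.e (nat_lit 573491) (nat_lit 15) (.e (nat_lit 81954) (nat_lit 23) (.e (nat_lit 98359) (nat_lit 26) (.e (nat_lit 426414) (nat_lit 15) .nil)))) (.g (nat_lit 0) (.e (nat_lit 417116) (nat_lit 0) .nil) .nil))) 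
(.lf (nat_lit 599931) (.g (nat_lit 2548) (.e (nat_lit 557070) (nat_lit 9) (.e (nat_lit 2744) (nat_lit 174) (.e (nat_lit 253992) (nat_lit 11) (.e (nat_lit 16411) (nat_lit 2) (.e (nat_lit 196681) (nat_lit 17) (.e (nat_lit 131109) (nat_lit 9) (.e (nat_lit 335878) (nat_lit 0) (.e (nat_lit 1850) (nat_lit 124) .nil)))))))) (.g (nat_lit 1) (.e (nat_lit 418547) (nat_lit 0) .nil) .nil))))) 
(.nd (nat_lit 8) (.nd (nat_lit 9) 
(.lf (nat_lit 599291) (.g (nat_lit 1185) (.e (nat_lit 573491) (nat_lit 15) (.e (nat_lit 81946) (nat_lit 20) (.e (nat_lit 1841) (nat_lit 123) (.e (nat_lit 548874) (nat_lit 5) (.e (nat_lit 1562) (nat_lit 110) .nil))))) (.g (nat_lit 0) (.e (nat_lit 416798) (nat_lit 0) .nil) .nil))) 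
(.lf (nat_lit 599803) (.g (nat_lit 955) (.e (nat_lit 581653) (nat_lit 6) (.e (nat_lit 188439) (nat_lit 20) (.e (nat_lit 3579) (nat_lit 223) (.e (nat_lit 745490) (nat_lit 4) .nil)))) (.g (nat_lit 0) (.e (nat_lit 418129) (nat_lit 0) .nil) .nil)))) (.nd (nat_lit 9) 
(.lf (nat_lit 599547) (.g (nat_lit 378) (.e (nat_lit 573492) (nat_lit 15) (.e (nat_lit 81938) (nat_lit 20) (.e (nat_lit 1841) (nat_lit 123) .nil))) (.g (nat_lit 0) (.e (nat_lit 417317) (nat_lit 0) .nil) .nil))) 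
(.lf (nat_lit 600059) (.g (nat_lit 4631) (.e (nat_lit 557090) (nat_lit 12) (.e (nat_lit 163847) (nat_lit 0) (.e (nat_lit 6252) (nat_lit 337) (.e (nat_lit 2630) (nat_lit 164) (.e (nat_lit 172062) (nat_lit 2) (.e (nat_lit 196666) (nat_lit 13) (.e (nat_lit 65617) (nat_lit 10) (.e (nat_lit 344130) (nat_lit 26) .nil)))))))) (.g (nat_lit 1) (.e (nat_lit 418794) (nat_lit 0) .nil) .nil)))))))))) 
(.nd (nat_lit 3) (.nd (nat_lit 4) (.nd (nat_lit 5) (.nd (nat_lit 6) (.nd (nat_lit 7) 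
(.nd (nat_lit 8) (.nd (nat_lit 9) 
(.lf (nat_lit 599047) (.g (nat_lit 642) (.e (nat_lit 573489) (nat_lit 14) (.e (nat_lit 73755) (nat_lit 8) (.e (nat_lit 557088) (nat_lit 12) .nil))) (.g (nat_lit 0) (.e (nat_lit 415957) (nat_lit 0) .nil) .nil))) 
(.lf (nat_lit 599559) (.g (nat_lit 1565) (.e (nat_lit 573492) (nat_lit 15) (.e (nat_lit 81953) (nat_lit 22) (.e (nat_lit 90134) (nat_lit 9) (.e (nat_lit 3096) (nat_lit 192) .nil)))) (.g (nat_lit 0) (.e (nat_lit 417374) (nat_lit 0) .nil) .nil)))) (.nd (nat_lit 9) 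
(.lf (nat_lit 599303) (.g (nat_lit 1424) (.e (nat_lit 573491) (nat_lit 15) (.e (nat_lit 81947) (nat_lit 20) (.e (nat_lit 1841) (nat_lit 123) (.e (nat_lit 548874) (nat_lit 5) (.e (nat_lit 1572) (nat_lit 110) .nil))))) (.g (nat_lit 0) (.e (nat_lit 416841) (nat_lit 0) .nil) .nil))) 
(.lf (nat_lit 599815) (.g (nat_lit 1641) (.e (nat_lit 557060) (nat_lit 0) (.e (nat_lit 1597) (nat_lit 111) (.e (nat_lit 360493) (nat_lit 27) (.e (nat_lit 819204) (nat_lit 0) (.e (nat_lit 3015) (nat_lit 187) (.e (nat_lit 458496) (nat_lit 8) .nil)))))) (.g (nat_lit 1) (.e (nat_lit 418185) (nat_lit 0) .nil) .nil))))) (.nd (nat_lit 8) (.nd (nat_lit 9) 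
(.lf (nat_lit 599175) (.g (nat_lit 3109) (.e (nat_lit 573489) (nat_lit 14) (.e (nat_lit 73755) (nat_lit 8) (.e (nat_lit 557104) (nat_lit 14) (.e (nat_lit 180252) (nat_lit 10) (.e (nat_lit 573473) (nat_lit 12) (.e (nat_lit 57500) (nat_lit 37) (.e (nat_lit 630800) (nat_lit 7) (.e (nat_lit 163977) (nat_lit 30) .nil)))))))) (.g (nat_lit 1) (.e (nat_lit 416368) (nat_lit 0) .nil) .nil))) 
(.lf (nat_lit 599687) (.g (nat_lit 1427) (.e (nat_lit 573493) (nat_lit 15) (.e (nat_lit 81954) (nat_lit 23) (.e (nat_lit 98349) (nat_lit 24) (.e (nat_lit 409616) (nat_lit 10) .nil)))) (.g (nat_lit 0) (.e (nat_lit 417700) (nat_lit 0) .nil) .nil)))) (.nd (nat_lit 9) 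
(.lf (nat_lit 599431) (.g (nat_lit 1585) (.e (nat_lit 573491) (nat_lit 15) (.e (nat_lit 81954) (nat_lit 23) (.e (nat_lit 98365) (nat_lit 26) (.e (nat_lit 426387) (nat_lit 15) .nil)))) (.g (nat_lit 0) (.e (nat_lit 417143) (nat_lit 0) .nil) .nil))) 
(.lf (nat_lit 599943) (.g (nat_lit 1912) (.e (nat_lit 557072) (nat_lit 9) (.e (nat_lit 2741) (nat_lit 174) (.e (nat_lit 253991) (nat_lit 11) (.e (nat_lit 16416) (nat_lit 3) (.e (nat_lit 204877) (nat_lit 31) .nil))))) (.g (nat_lit 0) (.e (nat_lit 418577) (nat_lit 0) .nil) .nil)))))) (.nd (nat_lit 7) (.nd (nat_lit 8) (.nd (nat_lit 9) 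
(.lf (nat_lit 599111) (.g (nat_lit 3422) (.e (nat_lit 573489) (nat_lit 14) (.e (nat_lit 73755) (nat_lit 8) (.e (nat_lit 557098) (nat_lit 13) (.e (nat_lit 172067) (nat_lit 3) (.e (nat_lit 204821) (nat_lit 17) (.e (nat_lit 7936) (nat_lit 149) (.e (nat_lit 761899) (nat_lit 15) (.e (nat_lit 163978) (nat_lit 30) .nil)))))))) (.g (nat_lit 1) (.e (nat_lit 416109) (nat_lit 0) .nil) .nil))) 
(.lf (nat_lit 599623) (.g (nat_lit 3373) (.e (nat_lit 573492) (nat_lit 15) (.e (nat_lit 81956) (nat_lit 23) (.e (nat_lit 98384) (nat_lit 32) (.e (nat_lit 475196) (nat_lit 40) (.e (nat_lit 704589) (nat_lit 3) (.e (nat_lit 163976) (nat_lit 30) .nil)))))) (.g (nat_lit 1) (.e (nat_lit 417583) (nat_lit 0) .nil) .nil)))) (.nd (nat_lit 9) 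
(.lf (nat_lit 599367) (.g (nat_lit 1088) (.e (nat_lit 573491) (nat_lit 15) (.e (nat_lit 81954) (nat_lit 23) (.e (nat_lit 98323) (nat_lit 17) (.e (nat_lit 6989) (nat_lit 377) .nil)))) (.g (nat_lit 0) (.e (nat_lit 416991) (nat_lit 0) .nil) .nil))) 
(.lf (nat_lit 599879) (.g (nat_lit 4059) (.e (nat_lit 557067) (nat_lit 9) (.e (nat_lit 214) (nat_lit 19) (.e (nat_lit 319491) (nat_lit 0) (.e (nat_lit 5761) (nat_lit 315) (.e (nat_lit 163962) (nat_lit 25) (.e (nat_lit 532535) (nat_lit 9) (.e (nat_lit 336176) (nat_lit 10) (.e (nat_lit 344130) (nat_lit 26) .nil)))))))) (.g (nat_lit 1) (.e (nat_lit 418360) (nat_lit 0) .nil) .nil))))) 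
(.nd (nat_lit 8) (.nd (nat_lit 9) 
(.lf (nat_lit 599239) (.g (nat_lit 3551) (.e (nat_lit 573489) (nat_lit 14) (.e (nat_lit 73755) (nat_lit 8) (.e (nat_lit 557105) (nat_lit 14) (.e (nat_lit 180252) (nat_lit 10) (.e (nat_lit 573475) (nat_lit 12) (.e (nat_lit 57504) (nat_lit 38) (.e (nat_lit 638983) (nat_lit 5) (.e (nat_lit 2472) (nat_lit 157) (.e (nat_lit 3307) (nat_lit 202) .nil))))))))) (.g (nat_lit 1) (.e (nat_lit 416617) (nat_lit 0) .nil) .nil))) 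
(.lf (nat_lit 599751) (.g (nat_lit 363) (.e (nat_lit 573503) (nat_lit 18) (.e (nat_lit 1359) (nat_lit 102) (.e (nat_lit 286742) (nat_lit 9) (.e (nat_lit 336446) (nat_lit 33) .nil)))) (.g (nat_lit 0) (.e (nat_lit 417863) (nat_lit 0) .nil) .nil)))) (.nd (nat_lit 9) 
(.lf (nat_lit 599495) (.g (nat_lit 2868) (.e (nat_lit 573491) (nat_lit 15) (.e (nat_lit 81954) (nat_lit 23) (.e (nat_lit 98389) (nat_lit 33) (.e (nat_lit 491552) (nat_lit 9) (.e (nat_lit 336282) (nat_lit 15) (.e (nat_lit 3305) (nat_lit 202) .nil)))))) (.g (nat_lit 1) (.e (nat_lit 417246) (nat_lit 0) .nil) .nil))) 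
(.lf (nat_lit 600007) (.g (nat_lit 3429) (.e (nat_lit 557087) (nat_lit 11) (.e (nat_lit 24663) (nat_lit 14) (.e (nat_lit 401426) (nat_lit 3) (.e (nat_lit 204869) (nat_lit 29) (.e (nat_lit 360475) (nat_lit 8) .nil))))) (.g (nat_lit 1) (.e (nat_lit 418695) (nat_lit 0) .nil) .nil))))))) (.nd (nat_lit 6) (.nd (nat_lit 7) (.nd (nat_lit 8) (.nd (nat_lit 9) 
(.lf (nat_lit 599079) (.g (nat_lit 2270) (.e (nat_lit 573489) (nat_lit 14) (.e (nat_lit 73755) (nat_lit 8) (.e (nat_lit 557091) (nat_lit 12) (.e (nat_lit 164000) (nat_lit 38) (.e (nat_lit 639008) (nat_lit 13) .nil))))) (.g (nat_lit 0) (.e (nat_lit 416012) (nat_lit 0) .nil) .nil))) 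
(.lf (nat_lit 599591) (.g (nat_lit 2609) (.e (nat_lit 573492) (nat_lit 15) (.e (nat_lit 81956) (nat_lit 23) (.e (nat_lit 98349) (nat_lit 24) (.e (nat_lit 409641) (nat_lit 17) (.e (nat_lit 294966) (nat_lit 15) (.e (nat_lit 3298) (nat_lit 202) .nil)))))) (.g (nat_lit 1) (.e (nat_lit 417469) (nat_lit 0) .nil) .nil)))) (.nd (nat_lit 9) 
(.lf (nat_lit 599335) (.g (nat_lit 2428) (.e (nat_lit 573491) (nat_lit 15) (.e (nat_lit 81951) (nat_lit 22) (.e (nat_lit 90170) (nat_lit 13) (.e (nat_lit 172048) (nat_lit 0) .nil)))) (.g (nat_lit 0) (.e (nat_lit 416915) (nat_lit 0) .nil) .nil))) 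
(.lf (nat_lit 599847) (.g (nat_lit 2993) (.e (nat_lit 557065) (nat_lit 9) (.e (nat_lit 2700) (nat_lit 169) (.e (nat_lit 213032) (nat_lit 11) (.e (nat_lit 24608) (nat_lit 3) (.e (nat_lit 98372) (nat_lit 29) (.e (nat_lit 458496) (nat_lit 8) .nil)))))) (.g (nat_lit 1) (.e (nat_lit 418255) (nat_lit 0) .nil) .nil))))) (.nd (nat_lit 8) (.nd (nat_lit 9) 
(.lf (nat_lit 599207) (.g (nat_lit 4101) (.e (nat_lit 573489) (nat_lit 14) (.e (nat_lit 73755) (nat_lit 8) (.e (nat_lit 557105) (nat_lit 14) (.e (nat_lit 180251) (nat_lit 10) (.e (nat_lit 573475) (nat_lit 12) (.e (nat_lit 57503) (nat_lit 38) (.e (nat_lit 638985) (nat_lit 5) (.e (nat_lit 2472) (nat_lit 157) (.e (nat_lit 3307) (nat_lit 202) .nil))))))))) (.g (nat_lit 1) (.e (nat_lit 416465) (nat_lit 0) .nil) .nil))) 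
(.lf (nat_lit 599719) (.g (nat_lit 3620) (.e (nat_lit 573493) (nat_lit 15) (.e (nat_lit 81956) (nat_lit 23) (.e (nat_lit 98389) (nat_lit 33) (.e (nat_lit 491552) (nat_lit 9) (.e (nat_lit 343808) (nat_lit 15) (.e (nat_lit 3298) (nat_lit 202) .nil)))))) (.g (nat_lit 1) (.e (nat_lit 417773) (nat_lit 0) .nil) .nil)))) (.nd (nat_lit 9) 
(.lf (nat_lit 599463) (.g (nat_lit 2036) (.e (nat_lit 573491) (nat_lit 15) (.e (nat_lit 81954) (nat_lit 23) (.e (nat_lit 98384) (nat_lit 32) (.e (nat_lit 475207) (nat_lit 41) .nil)))) (.g (nat_lit 0) (.e (nat_lit 417213) (nat_lit 0) .nil) .nil))) 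
(.lf (nat_lit 599975) (.g (nat_lit 574) (.e (nat_lit 557085) (nat_lit 11) (.e (nat_lit 24665) (nat_lit 14) (.e (nat_lit 409344) (nat_lit 0) .nil))) (.g (nat_lit 0) (.e (nat_lit 418647) (nat_lit 0) .nil) .nil)))))) (.nd (nat_lit 7) (.nd (nat_lit 8) (.nd (nat_lit 9) 
(.lf (nat_lit 599143) (.g (nat_lit 4830) (.e (nat_lit 573489) (nat_lit 14) (.e (nat_lit 73755) (nat_lit 8) (.e (nat_lit 557103) (nat_lit 14) (.e (nat_lit 180250) (nat_lit 10) (.e (nat_lit 573474) (nat_lit 12) (.e (nat_lit 57503) (nat_lit 38) (.e (nat_lit 638996) (nat_lit 7) (.e (nat_lit 163977) (nat_lit 30) .nil)))))))) (.g (nat_lit 1) (.e (nat_lit 416254) (nat_lit 0) .nil) .nil))) 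
(.lf (nat_lit 599655) (.g (nat_lit 532) (.e (nat_lit 573493) (nat_lit 15) (.e (nat_lit 81953) (nat_lit 22) (.e (nat_lit 90130) (nat_lit 9) .nil))) (.g (nat_lit 0) (.e (nat_lit 417654) (nat_lit 0) .nil) .nil)))) (.nd (nat_lit 9) 
(.lf (nat_lit 599399) (.g (nat_lit 1871) (.e (nat_lit 573491) (nat_lit 15) (.e (nat_lit 81954) (nat_lit 23) (.e (nat_lit 98358) (nat_lit 26) (.e (nat_lit 426364) (nat_lit 15) .nil)))) (.g (nat_lit 0) (.e (nat_lit 417071) (nat_lit 0) .nil) .nil))) 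
(.lf (nat_lit 599911) (.g (nat_lit 1849) (.e (nat_lit 557070) (nat_lit 9) (.e (nat_lit 2744) (nat_lit 174) (.e (nat_lit 253991) (nat_lit 11) (.e (nat_lit 16410) (nat_lit 2) .nil)))) (.g (nat_lit 0) (.e (nat_lit 418525) (nat_lit 0) .nil) .nil))))) (.nd (nat_lit 8) (.nd (nat_lit 9) 
(.lf (nat_lit 599271) (.g (nat_lit 913) (.e (nat_lit 573490) (nat_lit 15) (.e (nat_lit 81956) (nat_lit 23) (.e (nat_lit 98325) (nat_lit 17) .nil))) (.g (nat_lit 0) (.e (nat_lit 416713) (nat_lit 0) .nil) .nil))) 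
(.lf (nat_lit 599783) (.g (nat_lit 1220) (.e (nat_lit 581651) (nat_lit 4) (.e (nat_lit 172113) (nat_lit 10) (.e (nat_lit 434203) (nat_lit 18) (.e (nat_lit 6828) (nat_lit 367) .nil)))) (.g (nat_lit 0) (.e (nat_lit 417972) (nat_lit 0) .nil) .nil)))) (.nd (nat_lit 9) 
(.lf (nat_lit 599527) (.g (nat_lit 2009) (.e (nat_lit 573491) (nat_lit 15) (.e (nat_lit 81956) (nat_lit 23) (.e (nat_lit 98384) (nat_lit 32) (.e (nat_lit 475195) (nat_lit 40) .nil)))) (.g (nat_lit 0) (.e (nat_lit 417287) (nat_lit 0) .nil) .nil))) 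
(.lf (nat_lit 600039) (.g (nat_lit 2964) (.e (nat_lit 557089) (nat_lit 12) (.e (nat_lit 163849) (nat_lit 0) (.e (nat_lit 6416) (nat_lit 341) (.e (nat_lit 163908) (nat_lit 12) (.e (nat_lit 426132) (nat_lit 3) (.e (nat_lit 204868) (nat_lit 29) (.e (nat_lit 360473) (nat_lit 8) .nil))))))) (.g (nat_lit 1) (.e (nat_lit 418748) (nat_lit 0) .nil) .nil)))))))) 
(.nd (nat_lit 5) (.nd (nat_lit 6) (.nd (nat_lit 7) (.nd (nat_lit 8) (.nd (nat_lit 9) 
(.lf (nat_lit 599063) (.g (nat_lit 1769) (.e (nat_lit 573489) (nat_lit 14) (.e (nat_lit 73755) (nat_lit 8) (.e (nat_lit 557090) (nat_lit 12) (.e (nat_lit 164004) (nat_lit 41) .nil)))) (.g (nat_lit 0) (.e (nat_lit 415988) (nat_lit 0) .nil) .nil))) 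
(.lf (nat_lit 599575) (.g (nat_lit 2534) (.e (nat_lit 573492) (nat_lit 15) (.e (nat_lit 81954) (nat_lit 23) (.e (nat_lit 98384) (nat_lit 32) (.e (nat_lit 475197) (nat_lit 40) (.e (nat_lit 704589) (nat_lit 3) .nil))))) (.g (nat_lit 0) (.e (nat_lit 417440) (nat_lit 0) .nil) .nil)))) (.nd (nat_lit 9) 
(.lf (nat_lit 599319) (.g (nat_lit 4818) (.e (nat_lit 573491) (nat_lit 15) (.e (nat_lit 81951) (nat_lit 22) (.e (nat_lit 90167) (nat_lit 13) (.e (nat_lit 172133) (nat_lit 15) (.e (nat_lit 2059) (nat_lit 142) (.e (nat_lit 704589) (nat_lit 3) (.e (nat_lit 163976) (nat_lit 30) .nil))))))) (.g (nat_lit 1) (.e (nat_lit 416890) (nat_lit 0) .nil) .nil))) 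
(.lf (nat_lit 599831) (.g (nat_lit 698) (.e (nat_lit 564992) (nat_lit 6) (.e (nat_lit 81946) (nat_lit 20) (.e (nat_lit 2390) (nat_lit 156) (.e (nat_lit 819221) (nat_lit 6) (.e (nat_lit 188428) (nat_lit 20) .nil))))) (.g (nat_lit 0) (.e (nat_lit 418217) (nat_lit 0) .nil) .nil))))) (.nd (nat_lit 8) (.nd (nat_lit 9) 
(.lf (nat_lit 599191) (.g (nat_lit 3939) (.e (nat_lit 573489) (nat_lit 14) (.e (nat_lit 73755) (nat_lit 8) (.e (nat_lit 557105) (nat_lit 14) (.e (nat_lit 180244) (nat_lit 5) (.e (nat_lit 532481) (nat_lit 0) (.e (nat_lit 2271) (nat_lit 149) (.e (nat_lit 761899) (nat_lit 15) (.e (nat_lit 163978) (nat_lit 30) .nil)))))))) (.g (nat_lit 1) (.e (nat_lit 416403) (nat_lit 0) .nil) .nil))) 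
(.lf (nat_lit 599703) (.g (nat_lit 3150) (.e (nat_lit 573493) (nat_lit 15) (.e (nat_lit 81956) (nat_lit 23) (.e (nat_lit 98350) (nat_lit 24) (.e (nat_lit 409645) (nat_lit 18) (.e (nat_lit 303149) (nat_lit 15) .nil))))) (.g (nat_lit 0) (.e (nat_lit 417747) (nat_lit 0) .nil) .nil)))) (.nd (nat_lit 9) 
(.lf (nat_lit 599447) (.g (nat_lit 3710) (.e (nat_lit 573491) (nat_lit 15) (.e (nat_lit 81954) (nat_lit 23) (.e (nat_lit 98367) (nat_lit 27) (.e (nat_lit 434272) (nat_lit 38) (.e (nat_lit 655373) (nat_lit 3) (.e (nat_lit 163979) (nat_lit 30) .nil)))))) (.g (nat_lit 1) (.e (nat_lit 417182) (nat_lit 0) .nil) .nil))) 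
(.lf (nat_lit 599959) (.g (nat_lit 815) (.e (nat_lit 557074) (nat_lit 9) (.e (nat_lit 2854) (nat_lit 184) (.e (nat_lit 426436) (nat_lit 18) (.e (nat_lit 98358) (nat_lit 26) .nil)))) (.g (nat_lit 0) (.e (nat_lit 418618) (nat_lit 0) .nil) .nil)))))) (.nd (nat_lit 7) (.nd (nat_lit 8) (.nd (nat_lit 9) 
(.lf (nat_lit 599127) (.g (nat_lit 3242) (.e (nat_lit 573489) (nat_lit 14) (.e (nat_lit 73755) (nat_lit 8) (.e (nat_lit 557103) (nat_lit 14) (.e (nat_lit 180243) (nat_lit 5) (.e (nat_lit 532484) (nat_lit 0) (.e (nat_lit 2272) (nat_lit 149) (.e (nat_lit 761899) (nat_lit 15) (.e (nat_lit 163977) (nat_lit 30) .nil)))))))) (.g (nat_lit 1) (.e (nat_lit 416158) (nat_lit 0) .nil) .nil))) 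
(.lf (nat_lit 599639) (.g (nat_lit 4118) (.e (nat_lit 573492) (nat_lit 15) (.e (nat_lit 81956) (nat_lit 23) (.e (nat_lit 98389) (nat_lit 33) (.e (nat_lit 491549) (nat_lit 9) (.e (nat_lit 336284) (nat_lit 15) (.e (nat_lit 3302) (nat_lit 202) .nil)))))) (.g (nat_lit 1) (.e (nat_lit 417605) (nat_lit 0) .nil) .nil)))) (.nd (nat_lit 9) 
(.lf (nat_lit 599383) (.g (nat_lit 1879) (.e (nat_lit 573491) (nat_lit 15) (.e (nat_lit 81954) (nat_lit 23) (.e (nat_lit 98356) (nat_lit 26) (.e (nat_lit 426111) (nat_lit 1) .nil)))) (.g (nat_lit 0) (.e (nat_lit 417050) (nat_lit 0) .nil) .nil))) 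
(.lf (nat_lit 599895) (.g (nat_lit 1314) (.e (nat_lit 557067) (nat_lit 9) (.e (nat_lit 3022) (nat_lit 187) (.e (nat_lit 450580) (nat_lit 5) (.e (nat_lit 532563) (nat_lit 15) .nil)))) (.g (nat_lit 0) (.e (nat_lit 418433) (nat_lit 0) .nil) .nil))))) (.nd (nat_lit 8) (.nd (nat_lit 9) 
(.lf (nat_lit 599255) (.g (nat_lit 3465) (.e (nat_lit 573489) (nat_lit 14) (.e (nat_lit 73755) (nat_lit 8) (.e (nat_lit 557119) (nat_lit 18) (.e (nat_lit 2798) (nat_lit 180) (.e (nat_lit 303107) (nat_lit 0) (.e (nat_lit 7936) (nat_lit 200) (.e (nat_lit 557105) (nat_lit 14) (.e (nat_lit 180252) (nat_lit 10) .nil)))))))) (.g (nat_lit 1) (.e (nat_lit 416653) (nat_lit 0) .nil) .nil))) 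
(.lf (nat_lit 599767) (.g (nat_lit 1369) (.e (nat_lit 581636) (nat_lit 0) (.e (nat_lit 3027) (nat_lit 187) (.e (nat_lit 450605) (nat_lit 27) (.e (nat_lit 745491) (nat_lit 4) (.e (nat_lit 65617) (nat_lit 10) (.e (nat_lit 344138) (nat_lit 29) .nil)))))) (.g (nat_lit 1) (.e (nat_lit 417910) (nat_lit 0) .nil) .nil)))) (.nd (nat_lit 9) 
(.lf (nat_lit 599511) (.g (nat_lit 1317) (.e (nat_lit 573491) (nat_lit 15) (.e (nat_lit 81956) (nat_lit 23) (.e (nat_lit 98325) (nat_lit 17) (.e (nat_lit 6986) (nat_lit 377) .nil)))) (.g (nat_lit 0) (.e (nat_lit 417263) (nat_lit 0) .nil) .nil))) 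
(.lf (nat_lit 600023) (.g (nat_lit 4733) (.e (nat_lit 557089) (nat_lit 12) (.e (nat_lit 163844) (nat_lit 0) (.e (nat_lit 6255) (nat_lit 337) (.e (nat_lit 2630) (nat_lit 164) (.e (nat_lit 172064) (nat_lit 2) (.e (nat_lit 196666) (nat_lit 13) (.e (nat_lit 65617) (nat_lit 10) (.e (nat_lit 344130) (nat_lit 26) .nil)))))))) (.g (nat_lit 1) (.e (nat_lit 418715) (nat_lit 0) .nil) .nil))))))) 
(.nd (nat_lit 6) (.nd (nat_lit 7) (.nd (nat_lit 8) (.nd (nat_lit 9) 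
(.lf (nat_lit 599095) (.g (nat_lit 2134) (.e (nat_lit 573489) (nat_lit 14) (.e (nat_lit 73755) (nat_lit 8) (.e (nat_lit 557097) (nat_lit 13) (.e (nat_lit 172067) (nat_lit 3) (.e (nat_lit 204818) (nat_lit 17) .nil))))) (.g (nat_lit 0) (.e (nat_lit 416061) (nat_lit 0) .nil) .nil))) 
(.lf (nat_lit 599607) (.g (nat_lit 3946) (.e (nat_lit 573492) (nat_lit 15) (.e (nat_lit 81956) (nat_lit 23) (.e (nat_lit 98362) (nat_lit 26) (.e (nat_lit 426412) (nat_lit 15) (.e (nat_lit 2058) (nat_lit 142) (.e (nat_lit 704589) (nat_lit 3) (.e (nat_lit 163976) (nat_lit 30) .nil))))))) (.g (nat_lit 1) (.e (nat_lit 417532) (nat_lit 0) .nil) .nil)))) (.nd (nat_lit 9) 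
(.lf (nat_lit 599351) (.g (nat_lit 4136) (.e (nat_lit 573491) (nat_lit 15) (.e (nat_lit 81951) (nat_lit 22) (.e (nat_lit 90170) (nat_lit 13) (.e (nat_lit 172138) (nat_lit 15) (.e (nat_lit 2059) (nat_lit 142) (.e (nat_lit 704589) (nat_lit 3) (.e (nat_lit 163976) (nat_lit 30) .nil))))))) (.g (nat_lit 1) (.e (nat_lit 416961) (nat_lit 0) .nil) .nil))) 
(.lf (nat_lit 599863) (.g (nat_lit 3564) (.e (nat_lit 557065) (nat_lit 9) (.e (nat_lit 3044) (nat_lit 189) (.e (nat_lit 466977) (nat_lit 22) (.e (nat_lit 196681) (nat_lit 17) (.e (nat_lit 131089) (nat_lit 1) (.e (nat_lit 57930) (nat_lit 282) (.e (nat_lit 163850) (nat_lit 0) (.e (nat_lit 7936) (nat_lit 200) .nil)))))))) (.g (nat_lit 1) (.e (nat_lit 418314) (nat_lit 0) .nil) .nil))))) 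
(.nd (nat_lit 8) (.nd (nat_lit 9) 
(.lf (nat_lit 599223) (.g (nat_lit 2879) (.e (nat_lit 573489) (nat_lit 14) (.e (nat_lit 73755) (nat_lit 8) (.e (nat_lit 557105) (nat_lit 14) (.e (nat_lit 180252) (nat_lit 10) (.e (nat_lit 573474) (nat_lit 12) (.e (nat_lit 57503) (nat_lit 38) (.e (nat_lit 638994) (nat_lit 7) (.e (nat_lit 163974) (nat_lit 30) .nil)))))))) (.g (nat_lit 1) (.e (nat_lit 416592) (nat_lit 0) .nil) .nil))) 
(.lf (nat_lit 599735) (.g (nat_lit 1414) (.e (nat_lit 573503) (nat_lit 18) (.e (nat_lit 1348) (nat_lit 102) (.e (nat_lit 286743) (nat_lit 9) (.e (nat_lit 336450) (nat_lit 33) .nil)))) (.g (nat_lit 0) (.e (nat_lit 417823) (nat_lit 0) .nil) .nil)))) (.nd (nat_lit 9) 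
(.lf (nat_lit 599479) (.g (nat_lit 3745) (.e (nat_lit 573491) (nat_lit 15) (.e (nat_lit 81954) (nat_lit 23) (.e (nat_lit 98386) (nat_lit 32) (.e (nat_lit 475196) (nat_lit 40) (.e (nat_lit 704590) (nat_lit 3) (.e (nat_lit 163975) (nat_lit 30) .nil)))))) (.g (nat_lit 1) (.e (nat_lit 417230) (nat_lit 0) .nil) .nil))) 
(.lf (nat_lit 599991) (.g (nat_lit 3483) (.e (nat_lit 557087) (nat_lit 11) (.e (nat_lit 24588) (nat_lit 0) (.e (nat_lit 6680) (nat_lit 357) (.e (nat_lit 2664) (nat_lit 167) (.e (nat_lit 196666) (nat_lit 13) (.e (nat_lit 65617) (nat_lit 10) (.e (nat_lit 344130) (nat_lit 26) .nil))))))) (.g (nat_lit 1) (.e (nat_lit 418671) (nat_lit 0) .nil) .nil)))))) 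
(.nd (nat_lit 7) (.nd (nat_lit 8) (.nd (nat_lit 9) 
(.lf (nat_lit 599159) (.g (nat_lit 2819) (.e (nat_lit 573489) (nat_lit 14) (.e (nat_lit 73755) (nat_lit 8) (.e (nat_lit 557104) (nat_lit 14) (.e (nat_lit 180244) (nat_lit 5) (.e (nat_lit 532481) (nat_lit 0) (.e (nat_lit 2264) (nat_lit 149) (.e (nat_lit 761899) (nat_lit 15) (.e (nat_lit 163977) (nat_lit 30) .nil)))))))) (.g (nat_lit 1) (.e (nat_lit 416275) (nat_lit 0) .nil) .nil))) 
(.lf (nat_lit 599671) (.g (nat_lit 2271) (.e (nat_lit 573493) (nat_lit 15) (.e (nat_lit 81953) (nat_lit 22) (.e (nat_lit 90170) (nat_lit 13) (.e (nat_lit 172052) (nat_lit 0) .nil)))) (.g (nat_lit 0) (.e (nat_lit 417674) (nat_lit 0) .nil) .nil)))) (.nd (nat_lit 9) 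
(.lf (nat_lit 599415) (.g (nat_lit 1623) (.e (nat_lit 573491) (nat_lit 15) (.e (nat_lit 81954) (nat_lit 23) (.e (nat_lit 98359) (nat_lit 26) (.e (nat_lit 426396) (nat_lit 15) (.e (nat_lit 2057) (nat_lit 142) .nil))))) (.g (nat_lit 0) (.e (nat_lit 417112) (nat_lit 0) .nil) .nil))) 
(.lf (nat_lit 599927) (.g (nat_lit 4654) (.e (nat_lit 557070) (nat_lit 9) (.e (nat_lit 2744) (nat_lit 174) (.e (nat_lit 253991) (nat_lit 11) (.e (nat_lit 16417) (nat_lit 3) (.e (nat_lit 204869) (nat_lit 29) (.e (nat_lit 360474) (nat_lit 8) .nil)))))) (.g (nat_lit 1) (.e (nat_lit 418542) (nat_lit 0) .nil) .nil))))) (.nd (nat_lit 8) (.nd (nat_lit 9) 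
(.lf (nat_lit 599287) (.g (nat_lit 3857) (.e (nat_lit 573491) (nat_lit 15) (.e (nat_lit 81943) (nat_lit 20) (.e (nat_lit 2391) (nat_lit 156) (.e (nat_lit 819219) (nat_lit 4) (.e (nat_lit 172082) (nat_lit 7) (.e (nat_lit 409612) (nat_lit 10) (.e (nat_lit 632) (nat_lit 50) .nil))))))) (.g (nat_lit 1) (.e (nat_lit 416792) (nat_lit 0) .nil) .nil))) 
(.lf (nat_lit 599799) (.g (nat_lit 1067) (.e (nat_lit 581653) (nat_lit 6) (.e (nat_lit 188431) (nat_lit 20) (.e (nat_lit 3572) (nat_lit 222) (.e (nat_lit 737282) (nat_lit 0) (.e (nat_lit 5272) (nat_lit 298) .nil))))) (.g (nat_lit 0) (.e (nat_lit 418124) (nat_lit 0) .nil) .nil)))) (.nd (nat_lit 9) 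
(.lf (nat_lit 599543) (.g (nat_lit 3977) (.e (nat_lit 573491) (nat_lit 15) (.e (nat_lit 81956) (nat_lit 23) (.e (nat_lit 98388) (nat_lit 33) (.e (nat_lit 491549) (nat_lit 9) (.e (nat_lit 336306) (nat_lit 15) (.e (nat_lit 3308) (nat_lit 202) .nil)))))) (.g (nat_lit 1) (.e (nat_lit 417303) (nat_lit 0) .nil) .nil))) 
(.lf (nat_lit 600055) (.g (nat_lit 3420) (.e (nat_lit 557090) (nat_lit 12) (.e (nat_lit 163843) (nat_lit 0) (.e (nat_lit 6255) (nat_lit 337) (.e (nat_lit 2630) (nat_lit 164) (.e (nat_lit 172063) (nat_lit 2) (.e (nat_lit 196666) (nat_lit 13) (.e (nat_lit 65617) (nat_lit 10) (.e (nat_lit 344127) (nat_lit 26) .nil)))))))) (.g (nat_lit 1) (.e (nat_lit 418786) (nat_lit 0) .nil) .nil))))))))) 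
(.nd (nat_lit 4) (.nd (nat_lit 5) (.nd (nat_lit 6) (.nd (nat_lit 7) (.nd (nat_lit 8) 
(.nd (nat_lit 9) 
(.lf (nat_lit 599055) (.g (nat_lit 3684) (.e (nat_lit 573489) (nat_lit 14) (.e (nat_lit 73755) (nat_lit 8) (.e (nat_lit 557090) (nat_lit 12) (.e (nat_lit 163850) (nat_lit 0) (.e (nat_lit 5946) (nat_lit 322) (.e (nat_lit 57371) (nat_lit 2) (.e (nat_lit 90174) (nat_lit 14) (.e (nat_lit 180250) (nat_lit 10) .nil)))))))) (.g (nat_lit 1) (.e (nat_lit 415980) (nat_lit 0) .nil) .nil))) 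
(.lf (nat_lit 599567) (.g (nat_lit 1164) (.e (nat_lit 573492) (nat_lit 15) (.e (nat_lit 81953) (nat_lit 22) (.e (nat_lit 90192) (nat_lit 18) .nil))) (.g (nat_lit 0) (.e (nat_lit 417426) (nat_lit 0) .nil) .nil)))) (.nd (nat_lit 9) 
(.lf (nat_lit 599311) (.g (nat_lit 1515) (.e (nat_lit 573491) (nat_lit 15) (.e (nat_lit 81951) (nat_lit 22) (.e (nat_lit 90128) (nat_lit 9) (.e (nat_lit 3106) (nat_lit 192) .nil)))) (.g (nat_lit 0) (.e (nat_lit 416862) (nat_lit 0) .nil) .nil))) 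
(.lf (nat_lit 599823) (.g (nat_lit 1294) (.e (nat_lit 564992) (nat_lit 0) (.e (nat_lit 502) (nat_lit 40) (.e (nat_lit 491566) (nat_lit 12) (.e (nat_lit 385072) (nat_lit 31) .nil)))) (.g (nat_lit 0) (.e (nat_lit 418201) (nat_lit 0) .nil) .nil))))) (.nd (nat_lit 8) (.nd (nat_lit 9) 
(.lf (nat_lit 599183) (.g (nat_lit 5719) (.e (nat_lit 573489) (nat_lit 14) (.e (nat_lit 73755) (nat_lit 8) (.e (nat_lit 557104) (nat_lit 14) (.e (nat_lit 180252) (nat_lit 10) (.e (nat_lit 573475) (nat_lit 12) (.e (nat_lit 57503) (nat_lit 38) (.e (nat_lit 638995) (nat_lit 7) (.e (nat_lit 163979) (nat_lit 30) .nil)))))))) (.g (nat_lit 1) (.e (nat_lit 416376) (nat_lit 0) .nil) .nil))) 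
(.lf (nat_lit 599695) (.g (nat_lit 817) (.e (nat_lit 573493) (nat_lit 15) (.e (nat_lit 81956) (nat_lit 23) (.e (nat_lit 98328) (nat_lit 17) .nil))) (.g (nat_lit 0) (.e (nat_lit 417717) (nat_lit 0) .nil) .nil)))) (.nd (nat_lit 9) 
(.lf (nat_lit 599439) (.g (nat_lit 1473) (.e (nat_lit 573491) (nat_lit 15) (.e (nat_lit 81954) (nat_lit 23) (.e (nat_lit 98367) (nat_lit 27) (.e (nat_lit 434208) (nat_lit 18) (.e (nat_lit 5537) (nat_lit 306) .nil))))) (.g (nat_lit 0) (.e (nat_lit 417164) (nat_lit 0) .nil) .nil))) 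
(.lf (nat_lit 599951) (.g (nat_lit 2482) (.e (nat_lit 557072) (nat_lit 9) (.e (nat_lit 3098) (nat_lit 192) (.e (nat_lit 491571) (nat_lit 13) (.e (nat_lit 393251) (nat_lit 18) (.e (nat_lit 164179) (nat_lit 154) .nil))))) (.g (nat_lit 0) (.e (nat_lit 418597) (nat_lit 0) .nil) .nil)))))) (.nd (nat_lit 7) (.nd (nat_lit 8) (.nd (nat_lit 9) 
(.lf (nat_lit 599119) (.g (nat_lit 642) (.e (nat_lit 573489) (nat_lit 14) (.e (nat_lit 73755) (nat_lit 8) (.e (nat_lit 557099) (nat_lit 13) .nil))) (.g (nat_lit 0) (.e (nat_lit 416146) (nat_lit 0) .nil) .nil))) 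
(.lf (nat_lit 599631) (.g (nat_lit 4654) (.e (nat_lit 573492) (nat_lit 15) (.e (nat_lit 81956) (nat_lit 23) (.e (nat_lit 98385) (nat_lit 32) (.e (nat_lit 475210) (nat_lit 41) (.e (nat_lit 712722) (nat_lit 15) (.e (nat_lit 3302) (nat_lit 202) .nil)))))) (.g (nat_lit 1) (.e (nat_lit 417594) (nat_lit 0) .nil) .nil)))) (.nd (nat_lit 9) 
(.lf (nat_lit 599375) (.g (nat_lit 2911) (.e (nat_lit 573491) (nat_lit 15) (.e (nat_lit 81954) (nat_lit 23) (.e (nat_lit 98325) (nat_lit 17) (.e (nat_lit 6986) (nat_lit 377) (.e (nat_lit 2779) (nat_lit 178) (.e (nat_lit 286765) (nat_lit 15) (.e (nat_lit 3298) (nat_lit 202) .nil))))))) (.g (nat_lit 1) (.e (nat_lit 417001) (nat_lit 0) .nil) .nil))) 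
(.lf (nat_lit 599887) (.g (nat_lit 159) (.e (nat_lit 557067) (nat_lit 9) (.e (nat_lit 3022) (nat_lit 187) (.e (nat_lit 450580) (nat_lit 5) .nil))) (.g (nat_lit 0) (.e (nat_lit 418416) (nat_lit 0) .nil) .nil))))) (.nd (nat_lit 8) (.nd (nat_lit 9) 
(.lf (nat_lit 599247) (.g (nat_lit 2804) (.e (nat_lit 573489) (nat_lit 14) (.e (nat_lit 73755) (nat_lit 8) (.e (nat_lit 557105) (nat_lit 14) (.e (nat_lit 180252) (nat_lit 10) (.e (nat_lit 573478) (nat_lit 12) (.e (nat_lit 57500) (nat_lit 37) (.e (nat_lit 630799) (nat_lit 7) (.e (nat_lit 163976) (nat_lit 30) .nil)))))))) (.g (nat_lit 1) (.e (nat_lit 416626) (nat_lit 0) .nil) .nil))) 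
(.lf (nat_lit 599759) (.g (nat_lit 1481) (.e (nat_lit 581636) (nat_lit 0) (.e (nat_lit 3015) (nat_lit 187) (.e (nat_lit 450562) (nat_lit 0) (.e (nat_lit 6830) (nat_lit 367) .nil)))) (.g (nat_lit 0) (.e (nat_lit 417896) (nat_lit 0) .nil) .nil)))) (.nd (nat_lit 9) 
(.lf (nat_lit 599503) (.g (nat_lit 1026) (.e (nat_lit 573491) (nat_lit 15) (.e (nat_lit 81955) (nat_lit 23) (.e (nat_lit 98367) (nat_lit 27) (.e (nat_lit 434271) (nat_lit 38) .nil)))) (.g (nat_lit 0) (.e (nat_lit 417255) (nat_lit 0) .nil) .nil))) 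
(.lf (nat_lit 600015) (.g (nat_lit 2064) (.e (nat_lit 557088) (nat_lit 12) (.e (nat_lit 164022) (nat_lit 46) (.e (nat_lit 704738) (nat_lit 11) (.e (nat_lit 16412) (nat_lit 2) .nil)))) (.g (nat_lit 0) (.e (nat_lit 418705) (nat_lit 0) .nil) .nil))))))) (.nd (nat_lit 6) (.nd (nat_lit 7) (.nd (nat_lit 8) (.nd (nat_lit 9) 
(.lf (nat_lit 599087) (.g (nat_lit 1860) (.e (nat_lit 573489) (nat_lit 14) (.e (nat_lit 73755) (nat_lit 8) (.e (nat_lit 557096) (nat_lit 13) (.e (nat_lit 172140) (nat_lit 22) (.e (nat_lit 139281) (nat_lit 5) (.e (nat_lit 81664) (nat_lit 10) .nil)))))) (.g (nat_lit 1) (.e (nat_lit 416036) (nat_lit 0) .nil) .nil))) 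
(.lf (nat_lit 599599) (.g (nat_lit 4611) (.e (nat_lit 573492) (nat_lit 15) (.e (nat_lit 81956) (nat_lit 23) (.e (nat_lit 98360) (nat_lit 26) (.e (nat_lit 426041) (nat_lit 0) (.e (nat_lit 3406) (nat_lit 212) (.e (nat_lit 655375) (nat_lit 3) (.e (nat_lit 163979) (nat_lit 30) .nil))))))) (.g (nat_lit 1) (.e (nat_lit 417519) (nat_lit 0) .nil) .nil)))) (.nd (nat_lit 9) 
(.lf (nat_lit 599343) (.g (nat_lit 2428) (.e (nat_lit 573491) (nat_lit 15) (.e (nat_lit 81951) (nat_lit 22) (.e (nat_lit 90170) (nat_lit 13) (.e (nat_lit 172055) (nat_lit 0) .nil)))) (.g (nat_lit 0) (.e (nat_lit 416928) (nat_lit 0) .nil) .nil))) 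
(.lf (nat_lit 599855) (.g (nat_lit 1847) (.e (nat_lit 557065) (nat_lit 9) (.e (nat_lit 3044) (nat_lit 189) (.e (nat_lit 466977) (nat_lit 22) (.e (nat_lit 196681) (nat_lit 17) (.e (nat_lit 131086) (nat_lit 1) .nil))))) (.g (nat_lit 0) (.e (nat_lit 418290) (nat_lit 0) .nil) .nil))))) (.nd (nat_lit 8) (.nd (nat_lit 9) 
(.lf (nat_lit 599215) (.g (nat_lit 2084) (.e (nat_lit 573489) (nat_lit 14) (.e (nat_lit 73755) (nat_lit 8) (.e (nat_lit 557105) (nat_lit 14) (.e (nat_lit 180252) (nat_lit 10) (.e (nat_lit 573473) (nat_lit 12) (.e (nat_lit 57504) (nat_lit 38) (.e (nat_lit 638984) (nat_lit 5) (.e (nat_lit 2472) (nat_lit 157) (.e (nat_lit 3307) (nat_lit 202) .nil))))))))) (.g (nat_lit 1) (.e (nat_lit 416539) (nat_lit 0) .nil) .nil))) 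
(.lf (nat_lit 599727) (.g (nat_lit 2233) (.e (nat_lit 573497) (nat_lit 17) (.e (nat_lit 131123) (nat_lit 12) (.e (nat_lit 385074) (nat_lit 31) (.e (nat_lit 573493) (nat_lit 15) (.e (nat_lit 89856) (nat_lit 0) .nil))))) (.g (nat_lit 0) (.e (nat_lit 417813) (nat_lit 0) .nil) .nil)))) (.nd (nat_lit 9) 
(.lf (nat_lit 599471) (.g (nat_lit 2726) (.e (nat_lit 573491) (nat_lit 15) (.e (nat_lit 81954) (nat_lit 23) (.e (nat_lit 98384) (nat_lit 32) (.e (nat_lit 475211) (nat_lit 41) (.e (nat_lit 712719) (nat_lit 15) .nil))))) (.g (nat_lit 0) (.e (nat_lit 417221) (nat_lit 0) .nil) .nil))) 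
(.lf (nat_lit 599983) (.g (nat_lit 3642) (.e (nat_lit 557086) (nat_lit 11) (.e (nat_lit 24664) (nat_lit 14) (.e (nat_lit 401426) (nat_lit 3) (.e (nat_lit 204869) (nat_lit 29) (.e (nat_lit 360475) (nat_lit 8) .nil))))) (.g (nat_lit 1) (.e (nat_lit 418661) (nat_lit 0) .nil) .nil)))))) (.nd (nat_lit 7) (.nd (nat_lit 8) (.nd (nat_lit 9) 
(.lf (nat_lit 599151) (.g (nat_lit 2785) (.e (nat_lit 573489) (nat_lit 14) (.e (nat_lit 73755) (nat_lit 8) (.e (nat_lit 557103) (nat_lit 14) (.e (nat_lit 180250) (nat_lit 10) (.e (nat_lit 573477) (nat_lit 12) (.e (nat_lit 57500) (nat_lit 37) (.e (nat_lit 630799) (nat_lit 7) (.e (nat_lit 163979) (nat_lit 30) .nil)))))))) (.g (nat_lit 1) (.e (nat_lit 416262) (nat_lit 0) .nil) .nil))) 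
(.lf (nat_lit 599663) (.g (nat_lit 1015) (.e (nat_lit 573493) (nat_lit 15) (.e (nat_lit 81953) (nat_lit 22) (.e (nat_lit 90161) (nat_lit 12) .nil))) (.g (nat_lit 0) (.e (nat_lit 417665) (nat_lit 0) .nil) .nil)))) (.nd (nat_lit 9) 
(.lf (nat_lit 599407) (.g (nat_lit 1342) (.e (nat_lit 573491) (nat_lit 15) (.e (nat_lit 81954) (nat_lit 23) (.e (nat_lit 98359) (nat_lit 26) (.e (nat_lit 426042) (nat_lit 0) .nil)))) (.g (nat_lit 0) (.e (nat_lit 417084) (nat_lit 0) .nil) .nil))) 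
(.lf (nat_lit 599919) (.g (nat_lit 4484) (.e (nat_lit 557070) (nat_lit 9) (.e (nat_lit 2744) (nat_lit 174) (.e (nat_lit 253991) (nat_lit 11) (.e (nat_lit 16413) (nat_lit 2) (.e (nat_lit 196666) (nat_lit 13) (.e (nat_lit 65617) (nat_lit 10) (.e (nat_lit 344132) (nat_lit 26) .nil))))))) (.g (nat_lit 1) (.e (nat_lit 418534) (nat_lit 0) .nil) .nil))))) (.nd (nat_lit 8) (.nd (nat_lit 9) 
(.lf (nat_lit 599279) (.g (nat_lit 1685) (.e (nat_lit 573490) (nat_lit 15) (.e (nat_lit 81956) (nat_lit 23) (.e (nat_lit 98367) (nat_lit 27) (.e (nat_lit 434215) (nat_lit 18) .nil)))) (.g (nat_lit 0) (.e (nat_lit 416722) (nat_lit 0) .nil) .nil))) 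
(.lf (nat_lit 599791) (.g (nat_lit 941) (.e (nat_lit 581652) (nat_lit 5) (.e (nat_lit 180285) (nat_lit 45) (.e (nat_lit 2579) (nat_lit 161) (.e (nat_lit 40965) (nat_lit 0) (.e (nat_lit 1582) (nat_lit 111) (.e (nat_lit 368384) (nat_lit 11) .nil)))))) (.g (nat_lit 1) (.e (nat_lit 418104) (nat_lit 0) .nil) .nil)))) (.nd (nat_lit 9) 
(.lf (nat_lit 599535) (.g (nat_lit 2477) (.e (nat_lit 573491) (nat_lit 15) (.e (nat_lit 81956) (nat_lit 23) (.e (nat_lit 98384) (nat_lit 32) (.e (nat_lit 475209) (nat_lit 41) .nil)))) (.g (nat_lit 0) (.e (nat_lit 417295) (nat_lit 0) .nil) .nil))) 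
(.lf (nat_lit 600047) (.g (nat_lit 1663) (.e (nat_lit 557089) (nat_lit 12) (.e (nat_lit 163850) (nat_lit 0) (.e (nat_lit 6425) (nat_lit 342) (.e (nat_lit 229406) (nat_lit 12) .nil)))) (.g (nat_lit 0) (.e (nat_lit 418762) (nat_lit 0) .nil) .nil)))))))) (.nd (nat_lit 5) (.nd (nat_lit 6) (.nd (nat_lit 7) (.nd (nat_lit 8) (.nd (nat_lit 9) 
(.lf (nat_lit 599071) (.g (nat_lit 2874) (.e (nat_lit 573489) (nat_lit 14) (.e (nat_lit 73755) (nat_lit 8) (.e (nat_lit 557091) (nat_lit 12) (.e (nat_lit 163843) (nat_lit 0) (.e (nat_lit 5940) (nat_lit 322) (.e (nat_lit 57374) (nat_lit 2) (.e (nat_lit 90174) (nat_lit 14) (.e (nat_lit 180251) (nat_lit 10) .nil)))))))) (.g (nat_lit 1) (.e (nat_lit 415998) (nat_lit 0) .nil) .nil))) 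
(.lf (nat_lit 599583) (.g (nat_lit 1706) (.e (nat_lit 573492) (nat_lit 15) (.e (nat_lit 81954) (nat_lit 23) (.e (nat_lit 98386) (nat_lit 32) (.e (nat_lit 475209) (nat_lit 41) (.e (nat_lit 712719) (nat_lit 15) .nil))))) (.g (nat_lit 0) (.e (nat_lit 417448) (nat_lit 0) .nil) .nil)))) (.nd (nat_lit 9) 
(.lf (nat_lit 599327) (.g (nat_lit 3587) (.e (nat_lit 573491) (nat_lit 15) (.e (nat_lit 81951) (nat_lit 22) (.e (nat_lit 90170) (nat_lit 13) (.e (nat_lit 172042) (nat_lit 0) (.e (nat_lit 3406) (nat_lit 212) (.e (nat_lit 655373) (nat_lit 3) (.e (nat_lit 163979) (nat_lit 30) .nil))))))) (.g (nat_lit 1) (.e (nat_lit 416905) (nat_lit 0) .nil) .nil))) 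
(.lf (nat_lit 599839) (.g (nat_lit 2955) (.e (nat_lit 557065) (nat_lit 9) (.e (nat_lit 2612) (nat_lit 163) (.e (nat_lit 164403) (nat_lit 256) (.e (nat_lit 57373) (nat_lit 2) (.e (nat_lit 90173) (nat_lit 14) (.e (nat_lit 180252) (nat_lit 10) (.e (nat_lit 573489) (nat_lit 14) (.e (nat_lit 73755) (nat_lit 8) .nil)))))))) (.g (nat_lit 1) (.e (nat_lit 418247) (nat_lit 0) .nil) .nil))))) 
(.nd (nat_lit 8) (.nd (nat_lit 9) 
(.lf (nat_lit 599199) (.g (nat_lit 1360) (.e (nat_lit 573489) (nat_lit 14) (.e (nat_lit 73755) (nat_lit 8) (.e (nat_lit 557105) (nat_lit 14) (.e (nat_lit 188160) (nat_lit 3) .nil)))) (.g (nat_lit 0) (.e (nat_lit 416442) (nat_lit 0) .nil) .nil))) 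
(.lf (nat_lit 599711) (.g (nat_lit 4602) (.e (nat_lit 573493) (nat_lit 15) (.e (nat_lit 81956) (nat_lit 23) (.e (nat_lit 98367) (nat_lit 27) (.e (nat_lit 434272) (nat_lit 38) (.e (nat_lit 655367) (nat_lit 0) (.e (nat_lit 2477) (nat_lit 157) (.e (nat_lit 3308) (nat_lit 202) .nil))))))) (.g (nat_lit 1) (.e (nat_lit 417763) (nat_lit 0) .nil) .nil)))) (.nd (nat_lit 9) 
(.lf (nat_lit 599455) (.g (nat_lit 4503) (.e (nat_lit 573491) (nat_lit 15) (.e (nat_lit 81954) (nat_lit 23) (.e (nat_lit 98384) (nat_lit 32) (.e (nat_lit 475198) (nat_lit 40) (.e (nat_lit 704590) (nat_lit 3) (.e (nat_lit 163975) (nat_lit 30) .nil)))))) (.g (nat_lit 1) (.e (nat_lit 417205) (nat_lit 0) .nil) .nil))) 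
(.lf (nat_lit 599967) (.g (nat_lit 1967) (.e (nat_lit 557085) (nat_lit 11) (.e (nat_lit 24662) (nat_lit 14) (.e (nat_lit 401410) (nat_lit 0) .nil))) (.g (nat_lit 0) (.e (nat_lit 418638) (nat_lit 0) .nil) .nil)))))) (.nd (nat_lit 7) (.nd (nat_lit 8) (.nd (nat_lit 9) 
(.lf (nat_lit 599135) (.g (nat_lit 3883) (.e (nat_lit 573489) (nat_lit 14) (.e (nat_lit 73755) (nat_lit 8) (.e (nat_lit 557103) (nat_lit 14) (.e (nat_lit 180244) (nat_lit 5) (.e (nat_lit 532481) (nat_lit 0) (.e (nat_lit 2272) (nat_lit 149) (.e (nat_lit 761899) (nat_lit 15) (.e (nat_lit 163978) (nat_lit 30) .nil)))))))) (.g (nat_lit 1) (.e (nat_lit 416180) (nat_lit 0) .nil) .nil))) 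
(.lf (nat_lit 599647) (.g (nat_lit 498) (.e (nat_lit 573493) (nat_lit 15) (.e (nat_lit 81938) (nat_lit 20) (.e (nat_lit 1855) (nat_lit 124) .nil))) (.g (nat_lit 0) (.e (nat_lit 417631) (nat_lit 0) .nil) .nil)))) (.nd (nat_lit 9) 
(.lf (nat_lit 599391) (.g (nat_lit 1768) (.e (nat_lit 573491) (nat_lit 15) (.e (nat_lit 81954) (nat_lit 23) (.e (nat_lit 98356) (nat_lit 26) (.e (nat_lit 426352) (nat_lit 15) (.e (nat_lit 2112) (nat_lit 142) .nil))))) (.g (nat_lit 0) (.e (nat_lit 417059) (nat_lit 0) .nil) .nil))) 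
(.lf (nat_lit 599903) (.g (nat_lit 2727) (.e (nat_lit 557068) (nat_lit 9) (.e (nat_lit 214) (nat_lit 19) (.e (nat_lit 319490) (nat_lit 0) (.e (nat_lit 5664) (nat_lit 312) (.e (nat_lit 2440) (nat_lit 157) .nil))))) (.g (nat_lit 0) (.e (nat_lit 418490) (nat_lit 0) .nil) .nil))))) (.nd (nat_lit 8) (.nd (nat_lit 9) 
(.lf (nat_lit 599263) (.g (nat_lit 1441) (.e (nat_lit 573490) (nat_lit 15) (.e (nat_lit 81951) (nat_lit 22) (.e (nat_lit 90172) (nat_lit 14) (.e (nat_lit 180229) (nat_lit 0) .nil)))) (.g (nat_lit 0) (.e (nat_lit 416704) (nat_lit 0) .nil) .nil))) 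
(.lf (nat_lit 599775) (.g (nat_lit 1181) (.e (nat_lit 581651) (nat_lit 4) (.e (nat_lit 172094) (nat_lit 9) (.e (nat_lit 426025) (nat_lit 0) (.e (nat_lit 3569) (nat_lit 222) .nil)))) (.g (nat_lit 0) (.e (nat_lit 417949) (nat_lit 0) .nil) .nil)))) (.nd (nat_lit 9) 
(.lf (nat_lit 599519) (.g (nat_lit 2059) (.e (nat_lit 573491) (nat_lit 15) (.e (nat_lit 81956) (nat_lit 23) (.e (nat_lit 98356) (nat_lit 26) (.e (nat_lit 426375) (nat_lit 15) (.e (nat_lit 2059) (nat_lit 142) .nil))))) (.g (nat_lit 0) (.e (nat_lit 417272) (nat_lit 0) .nil) .nil))) 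
(.lf (nat_lit 600031) (.g (nat_lit 2847) (.e (nat_lit 557089) (nat_lit 12) (.e (nat_lit 163848) (nat_lit 0) (.e (nat_lit 6416) (nat_lit 341) (.e (nat_lit 163908) (nat_lit 12) (.e (nat_lit 426132) (nat_lit 3) (.e (nat_lit 204868) (nat_lit 29) (.e (nat_lit 360473) (nat_lit 8) .nil))))))) (.g (nat_lit 1) (.e (nat_lit 418735) (nat_lit 0) .nil) .nil))))))) 
(.nd (nat_lit 6) (.nd (nat_lit 7) (.nd (nat_lit 8) (.nd (nat_lit 9) 
(.lf (nat_lit 599103) (.g (nat_lit 2864) (.e (nat_lit 573489) (nat_lit 14) (.e (nat_lit 73755) (nat_lit 8) (.e (nat_lit 557098) (nat_lit 13) (.e (nat_lit 172067) (nat_lit 3) (.e (nat_lit 204815) (nat_lit 17) .nil))))) (.g (nat_lit 0) (.e (nat_lit 416097) (nat_lit 0) .nil) .nil))) 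
(.lf (nat_lit 599615) (.g (nat_lit 3085) (.e (nat_lit 573492) (nat_lit 15) (.e (nat_lit 81956) (nat_lit 23) (.e (nat_lit 98368) (nat_lit 27) (.e (nat_lit 434270) (nat_lit 38) (.e (nat_lit 655375) (nat_lit 3) (.e (nat_lit 163979) (nat_lit 30) .nil)))))) (.g (nat_lit 1) (.e (nat_lit 417570) (nat_lit 0) .nil) .nil)))) (.nd (nat_lit 9) 
(.lf (nat_lit 599359) (.g (nat_lit 1434) (.e (nat_lit 573491) (nat_lit 15) (.e (nat_lit 81953) (nat_lit 22) (.e (nat_lit 90170) (nat_lit 13) (.e (nat_lit 172039) (nat_lit 0) .nil)))) (.g (nat_lit 0) (.e (nat_lit 416981) (nat_lit 0) .nil) .nil))) 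
(.lf (nat_lit 599871) (.g (nat_lit 1801) (.e (nat_lit 557065) (nat_lit 9) (.e (nat_lit 3044) (nat_lit 189) (.e (nat_lit 466981) (nat_lit 23) (.e (nat_lit 204880) (nat_lit 32) (.e (nat_lit 385096) (nat_lit 49) (.e (nat_lit 778578) (nat_lit 17) (.e (nat_lit 171776) (nat_lit 89) .nil))))))) (.g (nat_lit 1) (.e (nat_lit 418324) (nat_lit 0) .nil) .nil))))) (.nd (nat_lit 8) (.nd (nat_lit 9) 
(.lf (nat_lit 599231) (.g (nat_lit 3768) (.e (nat_lit 573489) (nat_lit 14) (.e (nat_lit 73755) (nat_lit 8) (.e (nat_lit 557105) (nat_lit 14) (.e (nat_lit 180252) (nat_lit 10) (.e (nat_lit 573474) (nat_lit 12) (.e (nat_lit 57504) (nat_lit 38) (.e (nat_lit 638994) (nat_lit 7) (.e (nat_lit 163976) (nat_lit 30) .nil)))))))) (.g (nat_lit 1) (.e (nat_lit 416600) (nat_lit 0) .nil) .nil))) 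
(.lf (nat_lit 599743) (.g (nat_lit 2919) (.e (nat_lit 573503) (nat_lit 18) (.e (nat_lit 1348) (nat_lit 102) (.e (nat_lit 286761) (nat_lit 13) (.e (nat_lit 393251) (nat_lit 18) (.e (nat_lit 164144) (nat_lit 146) .nil))))) (.g (nat_lit 0) (.e (nat_lit 417836) (nat_lit 0) .nil) .nil)))) (.nd (nat_lit 9) 
(.lf (nat_lit 599487) (.g (nat_lit 2445) (.e (nat_lit 573491) (nat_lit 15) (.e (nat_lit 81954) (nat_lit 23) (.e (nat_lit 98387) (nat_lit 33) (.e (nat_lit 491549) (nat_lit 9) (.e (nat_lit 336306) (nat_lit 15) (.e (nat_lit 3308) (nat_lit 202) .nil)))))) (.g (nat_lit 1) (.e (nat_lit 417238) (nat_lit 0) .nil) .nil))) 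
(.lf (nat_lit 599999) (.g (nat_lit 1617) (.e (nat_lit 557087) (nat_lit 11) (.e (nat_lit 24632) (nat_lit 9) (.e (nat_lit 336013) (nat_lit 2) (.e (nat_lit 90141) (nat_lit 9) .nil)))) (.g (nat_lit 0) (.e (nat_lit 418684) (nat_lit 0) .nil) .nil)))))) (.nd (nat_lit 7) (.nd (nat_lit 8) (.nd (nat_lit 9) 
(.lf (nat_lit 599167) (.g (nat_lit 2076) (.e (nat_lit 573489) (nat_lit 14) (.e (nat_lit 73755) (nat_lit 8) (.e (nat_lit 557104) (nat_lit 14) (.e (nat_lit 180250) (nat_lit 10) (.e (nat_lit 573473) (nat_lit 12) .nil))))) (.g (nat_lit 0) (.e (nat_lit 416359) (nat_lit 0) .nil) .nil))) 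
(.lf (nat_lit 599679) (.g (nat_lit 1186) (.e (nat_lit 573493) (nat_lit 15) (.e (nat_lit 81953) (nat_lit 22) (.e (nat_lit 90190) (nat_lit 18) .nil))) (.g (nat_lit 0) (.e (nat_lit 417688) (nat_lit 0) .nil) .nil)))) (.nd (nat_lit 9) 
(.lf (nat_lit 599423) (.g (nat_lit 4651) (.e (nat_lit 573491) (nat_lit 15) (.e (nat_lit 81954) (nat_lit 23) (.e (nat_lit 98359) (nat_lit 26) (.e (nat_lit 426412) (nat_lit 15) (.e (nat_lit 2059) (nat_lit 142) (.e (nat_lit 704589) (nat_lit 3) (.e (nat_lit 163979) (nat_lit 30) .nil))))))) (.g (nat_lit 1) (.e (nat_lit 417120) (nat_lit 0) .nil) .nil))) 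
(.lf (nat_lit 599935) (.g (nat_lit 2567) (.e (nat_lit 557070) (nat_lit 9) (.e (nat_lit 2744) (nat_lit 174) (.e (nat_lit 253992) (nat_lit 11) (.e (nat_lit 16412) (nat_lit 2) (.e (nat_lit 196672) (nat_lit 15) (.e (nat_lit 81943) (nat_lit 20) (.e (nat_lit 1847) (nat_lit 124) .nil))))))) (.g (nat_lit 1) (.e (nat_lit 418551) (nat_lit 0) .nil) .nil))))) (.nd (nat_lit 8) (.nd (nat_lit 9) 
(.lf (nat_lit 599295) (.g (nat_lit 406) (.e (nat_lit 573491) (nat_lit 15) (.e (nat_lit 81946) (nat_lit 20) (.e (nat_lit 1858) (nat_lit 124) .nil))) (.g (nat_lit 0) (.e (nat_lit 416827) (nat_lit 0) .nil) .nil))) 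
(.lf (nat_lit 599807) (.g (nat_lit 2084) (.e (nat_lit 581665) (nat_lit 11) (.e (nat_lit 16448) (nat_lit 10) (.e (nat_lit 434231) (nat_lit 23) (.e (nat_lit 532569) (nat_lit 16) .nil)))) (.g (nat_lit 0) (.e (nat_lit 418156) (nat_lit 0) .nil) .nil)))) (.nd (nat_lit 9) 
(.lf (nat_lit 599551) (.g (nat_lit 1457) (.e (nat_lit 573492) (nat_lit 15) (.e (nat_lit 81951) (nat_lit 22) (.e (nat_lit 90170) (nat_lit 13) (.e (nat_lit 172042) (nat_lit 0) .nil)))) (.g (nat_lit 0) (.e (nat_lit 417351) (nat_lit 0) .nil) .nil))) 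
(.lf (nat_lit 600063) (.g (nat_lit 4677) (.e (nat_lit 557090) (nat_lit 12) (.e (nat_lit 163847) (nat_lit 0) (.e (nat_lit 6255) (nat_lit 337) (.e (nat_lit 2630) (nat_lit 164) (.e (nat_lit 172062) (nat_lit 2) (.e (nat_lit 196666) (nat_lit 13) (.e (nat_lit 65617) (nat_lit 10) (.e (nat_lit 344130) (nat_lit 26) .nil)))))))) (.g (nat_lit 1) (.e (nat_lit 418801) (nat_lit 0) .nil) .nil)))))))))))))

noncomputable def tv5646 : DT := (.nd (nat_lit 0) (.nd (nat_lit 1) (.nd (nat_lit 2) (.nd (nat_lit 3) (.nd (nat_lit 4) (.nd (nat_lit 5) (.nd (nat_lit 6) (.nd (nat_lit 7) (.nd (nat_lit 8) (.nd (nat_lit 9) 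
(.lf (nat_lit 600064) (.g (nat_lit 4956) (.e (nat_lit 557090) (nat_lit 12) (.e (nat_lit 163847) (nat_lit 0) (.e (nat_lit 6255) (nat_lit 337) (.e (nat_lit 2630) (nat_lit 164) (.e (nat_lit 172064) (nat_lit 2) (.e (nat_lit 196666) (nat_lit 13) (.e (nat_lit 65617) (nat_lit 10) (.e (nat_lit 344130) (nat_lit 26) .nil)))))))) (.g (nat_lit 1) (.e (nat_lit 418802) (nat_lit 0) .nil) .nil))) 
(.lf (nat_lit 600576) (.g (nat_lit 3004) (.e (nat_lit 557098) (nat_lit 13) (.e (nat_lit 172115) (nat_lit 10) (.e (nat_lit 434244) (nat_lit 28) (.e (nat_lit 573458) (nat_lit 9) (.e (nat_lit 426) (nat_lit 32) (.e (nat_lit 426198) (nat_lit 9) (.e (nat_lit 426402) (nat_lit 15) (.e (nat_lit 1849) (nat_lit 124) .nil)))))))) (.g (nat_lit 1) (.e (nat_lit 419511) (nat_lit 0) .nil) .nil)))) 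
(.nd (nat_lit 9) 
(.lf (nat_lit 600320) (.g (nat_lit 522) (.e (nat_lit 557097) (nat_lit 13) (.e (nat_lit 172064) (nat_lit 2) (.e (nat_lit 196683) (nat_lit 18) .nil))) (.g (nat_lit 0) (.e (nat_lit 419244) (nat_lit 0) .nil) .nil))) 
(.lf (nat_lit 600832) (.g (nat_lit 2544) (.e (nat_lit 557101) (nat_lit 13) (.e (nat_lit 172115) (nat_lit 10) (.e (nat_lit 434244) (nat_lit 28) (.e (nat_lit 573450) (nat_lit 9) (.e (nat_lit 379) (nat_lit 32) (.e (nat_lit 426319) (nat_lit 12) (.e (nat_lit 475185) (nat_lit 29) .nil))))))) (.g (nat_lit 1) (.e (nat_lit 419790) (nat_lit 0) .nil) .nil))))) (.nd (nat_lit 8) (.nd (nat_lit 9) 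
(.lf (nat_lit 600192) (.g (nat_lit 4050) (.e (nat_lit 557093) (nat_lit 12) (.e (nat_lit 164018) (nat_lit 45) (.e (nat_lit 696344) (nat_lit 8) (.e (nat_lit 172062) (nat_lit 2) (.e (nat_lit 196666) (nat_lit 13) (.e (nat_lit 65617) (nat_lit 10) (.e (nat_lit 344132) (nat_lit 26) .nil))))))) (.g (nat_lit 1) (.e (nat_lit 419030) (nat_lit 0) .nil) .nil))) 
(.lf (nat_lit 600704) (.g (nat_lit 2094) (.e (nat_lit 557100) (nat_lit 13) (.e (nat_lit 172113) (nat_lit 10) (.e (nat_lit 434245) (nat_lit 28) (.e (nat_lit 573471) (nat_lit 11) (.e (nat_lit 16431) (nat_lit 9) (.e (nat_lit 433920) (nat_lit 15) (.e (nat_lit 1860) (nat_lit 124) .nil))))))) (.g (nat_lit 1) (.e (nat_lit 419649) (nat_lit 0) .nil) .nil)))) (.nd (nat_lit 9) 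
(.lf (nat_lit 600448) (.g (nat_lit 2353) (.e (nat_lit 557097) (nat_lit 13) (.e (nat_lit 172115) (nat_lit 10) (.e (nat_lit 434244) (nat_lit 28) (.e (nat_lit 573450) (nat_lit 9) (.e (nat_lit 388) (nat_lit 32) .nil))))) (.g (nat_lit 0) (.e (nat_lit 419378) (nat_lit 0) .nil) .nil))) 
(.lf (nat_lit 600960) (.g (nat_lit 3416) (.e (nat_lit 557104) (nat_lit 14) (.e (nat_lit 180252) (nat_lit 10) (.e (nat_lit 573474) (nat_lit 12) (.e (nat_lit 57503) (nat_lit 38) (.e (nat_lit 638996) (nat_lit 7) (.e (nat_lit 163977) (nat_lit 30) (.e (nat_lit 573489) (nat_lit 14) (.e (nat_lit 73755) (nat_lit 8) .nil)))))))) (.g (nat_lit 1) (.e (nat_lit 419944) (nat_lit 0) .nil) .nil)))))) 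
(.nd (nat_lit 7) (.nd (nat_lit 8) (.nd (nat_lit 9) 
(.lf (nat_lit 600128) (.g (nat_lit 6188) (.e (nat_lit 557091) (nat_lit 12) (.e (nat_lit 164022) (nat_lit 46) (.e (nat_lit 704629) (nat_lit 9) (.e (nat_lit 375) (nat_lit 32) (.e (nat_lit 426125) (nat_lit 2) (.e (nat_lit 196666) (nat_lit 13) (.e (nat_lit 65617) (nat_lit 10) (.e (nat_lit 344133) (nat_lit 26) .nil)))))))) (.g (nat_lit 1) (.e (nat_lit 418936) (nat_lit 0) .nil) .nil))) 
(.lf (nat_lit 600640) (.g (nat_lit 4147) (.e (nat_lit 557100) (nat_lit 13) (.e (nat_lit 172106) (nat_lit 10) (.e (nat_lit 434231) (nat_lit 23) (.e (nat_lit 532490) (nat_lit 0) (.e (nat_lit 6680) (nat_lit 357) (.e (nat_lit 2854) (nat_lit 184) (.e (nat_lit 426402) (nat_lit 15) (.e (nat_lit 1858) (nat_lit 124) .nil)))))))) (.g (nat_lit 1) (.e (nat_lit 419585) (nat_lit 0) .nil) .nil)))) 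
(.nd (nat_lit 9) 
(.lf (nat_lit 600384) (.g (nat_lit 4126) (.e (nat_lit 557097) (nat_lit 13) (.e (nat_lit 172115) (nat_lit 10) (.e (nat_lit 434231) (nat_lit 23) (.e (nat_lit 532529) (nat_lit 9) (.e (nat_lit 336257) (nat_lit 15) (.e (nat_lit 3620) (nat_lit 227) (.e (nat_lit 778318) (nat_lit 3) (.e (nat_lit 57476) (nat_lit 28) .nil)))))))) (.g (nat_lit 1) (.e (nat_lit 419314) (nat_lit 0) .nil) .nil))) 
(.lf (nat_lit 600896) (.g (nat_lit 4108) (.e (nat_lit 557101) (nat_lit 13) (.e (nat_lit 172115) (nat_lit 10) (.e (nat_lit 434244) (nat_lit 28) (.e (nat_lit 573474) (nat_lit 12) (.e (nat_lit 57347) (nat_lit 0) (.e (nat_lit 6938) (nat_lit 375) (.e (nat_lit 163939) (nat_lit 18) (.e (nat_lit 475185) (nat_lit 29) .nil)))))))) (.g (nat_lit 1) (.e (nat_lit 419854) (nat_lit 0) .nil) .nil))))) 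
(.nd (nat_lit 8) (.nd (nat_lit 9) 
(.lf (nat_lit 600256) (.g (nat_lit 3538) (.e (nat_lit 557094) (nat_lit 12) (.e (nat_lit 164022) (nat_lit 46) (.e (nat_lit 704629) (nat_lit 9) (.e (nat_lit 442) (nat_lit 33) (.e (nat_lit 434232) (nat_lit 23) .nil))))) (.g (nat_lit 0) (.e (nat_lit 419126) (nat_lit 0) .nil) .nil))) 
(.lf (nat_lit 600768) (.g (nat_lit 2793) (.e (nat_lit 557101) (nat_lit 13) (.e (nat_lit 172115) (nat_lit 10) (.e (nat_lit 434231) (nat_lit 23) (.e (nat_lit 532490) (nat_lit 0) (.e (nat_lit 6648) (nat_lit 357) (.e (nat_lit 2856) (nat_lit 184) (.e (nat_lit 426402) (nat_lit 15) (.e (nat_lit 1858) (nat_lit 124) .nil)))))))) (.g (nat_lit 1) (.e (nat_lit 419726) (nat_lit 0) .nil) .nil)))) 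
(.nd (nat_lit 9) 
(.lf (nat_lit 600512) (.g (nat_lit 2614) (.e (nat_lit 557098) (nat_lit 13) (.e (nat_lit 172115) (nat_lit 10) (.e (nat_lit 434231) (nat_lit 23) (.e (nat_lit 532490) (nat_lit 0) (.e (nat_lit 6680) (nat_lit 357) (.e (nat_lit 2855) (nat_lit 184) (.e (nat_lit 426402) (nat_lit 15) (.e (nat_lit 1849) (nat_lit 124) .nil)))))))) (.g (nat_lit 1) (.e (nat_lit 419445) (nat_lit 0) .nil) .nil))) 
(.lf (nat_lit 601024) (.g (nat_lit 4313) (.e (nat_lit 557105) (nat_lit 14) (.e (nat_lit 180252) (nat_lit 10) (.e (nat_lit 573473) (nat_lit 12) (.e (nat_lit 57501) (nat_lit 37) (.e (nat_lit 630800) (nat_lit 7) (.e (nat_lit 163978) (nat_lit 30) (.e (nat_lit 573489) (nat_lit 14) (.e (nat_lit 73755) (nat_lit 8) .nil)))))))) (.g (nat_lit 1) (.e (nat_lit 420033) (nat_lit 0) .nil) .nil))))))) 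
(.nd (nat_lit 6) (.nd (nat_lit 7) (.nd (nat_lit 8) (.nd (nat_lit 9) 
(.lf (nat_lit 600096) (.g (nat_lit 3391) (.e (nat_lit 557090) (nat_lit 12) (.e (nat_lit 164022) (nat_lit 46) (.e (nat_lit 704629) (nat_lit 9) (.e (nat_lit 442) (nat_lit 33) (.e (nat_lit 434222) (nat_lit 19) (.e (nat_lit 500060) (nat_lit 18) (.e (nat_lit 65617) (nat_lit 10) (.e (nat_lit 344130) (nat_lit 26) .nil)))))))) (.g (nat_lit 1) (.e (nat_lit 418880) (nat_lit 0) .nil) .nil))) 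
(.lf (nat_lit 600608) (.g (nat_lit 494) (.e (nat_lit 557099) (nat_lit 13) (.e (nat_lit 172126) (nat_lit 14) (.e (nat_lit 491537) (nat_lit 2) .nil))) (.g (nat_lit 0) (.e (nat_lit 419546) (nat_lit 0) .nil) .nil)))) (.nd (nat_lit 9) 
(.lf (nat_lit 600352) (.g (nat_lit 2267) (.e (nat_lit 557097) (nat_lit 13) (.e (nat_lit 172115) (nat_lit 10) (.e (nat_lit 434231) (nat_lit 23) (.e (nat_lit 532481) (nat_lit 0) (.e (nat_lit 6650) (nat_lit 357) (.e (nat_lit 2856) (nat_lit 184) (.e (nat_lit 426402) (nat_lit 15) (.e (nat_lit 1849) (nat_lit 124) .nil)))))))) (.g (nat_lit 1) (.e (nat_lit 419282) (nat_lit 0) .nil) .nil))) 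
(.lf (nat_lit 600864) (.g (nat_lit 2709) (.e (nat_lit 557101) (nat_lit 13) (.e (nat_lit 172115) (nat_lit 10) (.e (nat_lit 434244) (nat_lit 28) (.e (nat_lit 573451) (nat_lit 9) (.e (nat_lit 7936) (nat_lit 32) .nil))))) (.g (nat_lit 0) (.e (nat_lit 419822) (nat_lit 0) .nil) .nil))))) (.nd (nat_lit 8) (.nd (nat_lit 9) 
(.lf (nat_lit 600224) (.g (nat_lit 2764) (.e (nat_lit 557093) (nat_lit 12) (.e (nat_lit 164023) (nat_lit 46) (.e (nat_lit 704629) (nat_lit 9) (.e (nat_lit 375) (nat_lit 32) (.e (nat_lit 426032) (nat_lit 0) .nil))))) (.g (nat_lit 0) (.e (nat_lit 419065) (nat_lit 0) .nil) .nil))) 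
(.lf (nat_lit 600736) (.g (nat_lit 1738) (.e (nat_lit 557101) (nat_lit 13) (.e (nat_lit 172067) (nat_lit 3) (.e (nat_lit 204830) (nat_lit 18) (.e (nat_lit 65280) (nat_lit 168) .nil)))) (.g (nat_lit 0) (.e (nat_lit 419694) (nat_lit 0) .nil) .nil)))) (.nd (nat_lit 9) 
(.lf (nat_lit 600480) (.g (nat_lit 811) (.e (nat_lit 557098) (nat_lit 13) (.e (nat_lit 172067) (nat_lit 3) (.e (nat_lit 204816) (nat_lit 17) .nil))) (.g (nat_lit 0) (.e (nat_lit 419413) (nat_lit 0) .nil) .nil))) 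
(.lf (nat_lit 600992) (.g (nat_lit 2637) (.e (nat_lit 557105) (nat_lit 14) (.e (nat_lit 180251) (nat_lit 10) (.e (nat_lit 573484) (nat_lit 13) (.e (nat_lit 65568) (nat_lit 2) (.e (nat_lit 98048) (nat_lit 2) (.e (nat_lit 16392) (nat_lit 0) (.e (nat_lit 7936) (nat_lit 200) .nil))))))) (.g (nat_lit 1) (.e (nat_lit 419980) (nat_lit 0) .nil) .nil)))))) 
(.nd (nat_lit 7) (.nd (nat_lit 8) (.nd (nat_lit 9) 
(.lf (nat_lit 600160) (.g (nat_lit 4437) (.e (nat_lit 557093) (nat_lit 12) (.e (nat_lit 163849) (nat_lit 0) (.e (nat_lit 6255) (nat_lit 337) (.e (nat_lit 2630) (nat_lit 164) (.e (nat_lit 172067) (nat_lit 3) (.e (nat_lit 204869) (nat_lit 29) (.e (nat_lit 360474) (nat_lit 8) .nil))))))) (.g (nat_lit 1) (.e (nat_lit 418983) (nat_lit 0) .nil) .nil))) 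
(.lf (nat_lit 600672) (.g (nat_lit 3753) (.e (nat_lit 557100) (nat_lit 13) (.e (nat_lit 172106) (nat_lit 10) (.e (nat_lit 434231) (nat_lit 23) (.e (nat_lit 532567) (nat_lit 16) (.e (nat_lit 401453) (nat_lit 12) (.e (nat_lit 475184) (nat_lit 29) .nil)))))) (.g (nat_lit 1) (.e (nat_lit 419617) (nat_lit 0) .nil) .nil)))) (.nd (nat_lit 9) 
(.lf (nat_lit 600416) (.g (nat_lit 3659) (.e (nat_lit 557097) (nat_lit 13) (.e (nat_lit 172115) (nat_lit 10) (.e (nat_lit 434231) (nat_lit 23) (.e (nat_lit 532529) (nat_lit 9) (.e (nat_lit 336303) (nat_lit 15) (.e (nat_lit 3620) (nat_lit 227) (.e (nat_lit 778318) (nat_lit 3) (.e (nat_lit 57476) (nat_lit 28) .nil)))))))) (.g (nat_lit 1) (.e (nat_lit 419346) (nat_lit 0) .nil) .nil))) 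
(.lf (nat_lit 600928) (.g (nat_lit 2930) (.e (nat_lit 557103) (nat_lit 14) (.e (nat_lit 180250) (nat_lit 10) (.e (nat_lit 573482) (nat_lit 13) (.e (nat_lit 65568) (nat_lit 2) (.e (nat_lit 98048) (nat_lit 2) (.e (nat_lit 16388) (nat_lit 0) (.e (nat_lit 3275) (nat_lit 200) .nil))))))) (.g (nat_lit 1) (.e (nat_lit 419894) (nat_lit 0) .nil) .nil))))) (.nd (nat_lit 8) (.nd (nat_lit 9) 
(.lf (nat_lit 600288) (.g (nat_lit 1445) (.e (nat_lit 557095) (nat_lit 13) (.e (nat_lit 172115) (nat_lit 10) (.e (nat_lit 434231) (nat_lit 23) (.e (nat_lit 532545) (nat_lit 10) .nil)))) (.g (nat_lit 0) (.e (nat_lit 419184) (nat_lit 0) .nil) .nil))) 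
(.lf (nat_lit 600800) (.g (nat_lit 2009) (.e (nat_lit 557101) (nat_lit 13) (.e (nat_lit 172115) (nat_lit 10) (.e (nat_lit 434238) (nat_lit 25) (.e (nat_lit 548898) (nat_lit 14) (.e (nat_lit 2878) (nat_lit 184) .nil))))) (.g (nat_lit 0) (.e (nat_lit 419758) (nat_lit 0) .nil) .nil)))) (.nd (nat_lit 9) 
(.lf (nat_lit 600544) (.g (nat_lit 2845) (.e (nat_lit 557098) (nat_lit 13) (.e (nat_lit 172115) (nat_lit 10) (.e (nat_lit 434244) (nat_lit 28) (.e (nat_lit 573449) (nat_lit 9) (.e (nat_lit 460) (nat_lit 34) (.e (nat_lit 442377) (nat_lit 0) (.e (nat_lit 1855) (nat_lit 124) .nil))))))) (.g (nat_lit 1) (.e (nat_lit 419478) (nat_lit 0) .nil) .nil))) 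
(.lf (nat_lit 601056) (.g (nat_lit 6201) (.e (nat_lit 557105) (nat_lit 14) (.e (nat_lit 180252) (nat_lit 10) (.e (nat_lit 573474) (nat_lit 12) (.e (nat_lit 57503) (nat_lit 38) (.e (nat_lit 638995) (nat_lit 7) (.e (nat_lit 163978) (nat_lit 30) (.e (nat_lit 573489) (nat_lit 14) (.e (nat_lit 73755) (nat_lit 8) .nil)))))))) (.g (nat_lit 1) (.e (nat_lit 420105) (nat_lit 0) .nil) .nil)))))))) 
(.nd (nat_lit 5) (.nd (nat_lit 6) (.nd (nat_lit 7) (.nd (nat_lit 8) (.nd (nat_lit 9) 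
(.lf (nat_lit 600080) (.g (nat_lit 4352) (.e (nat_lit 557090) (nat_lit 12) (.e (nat_lit 164018) (nat_lit 45) (.e (nat_lit 696330) (nat_lit 5) (.e (nat_lit 2884) (nat_lit 184) (.e (nat_lit 426125) (nat_lit 2) (.e (nat_lit 196666) (nat_lit 13) (.e (nat_lit 65617) (nat_lit 10) (.e (nat_lit 344130) (nat_lit 26) .nil)))))))) (.g (nat_lit 1) (.e (nat_lit 418851) (nat_lit 0) .nil) .nil))) 
(.lf (nat_lit 600592) (.g (nat_lit 2475) (.e (nat_lit 557098) (nat_lit 13) (.e (nat_lit 172120) (nat_lit 12) (.e (nat_lit 475185) (nat_lit 29) (.e (nat_lit 557097) (nat_lit 13) .nil)))) (.g (nat_lit 0) (.e (nat_lit 419527) (nat_lit 0) .nil) .nil)))) (.nd (nat_lit 9) 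
(.lf (nat_lit 600336) (.g (nat_lit 3225) (.e (nat_lit 557097) (nat_lit 13) (.e (nat_lit 172097) (nat_lit 9) (.e (nat_lit 426125) (nat_lit 2) (.e (nat_lit 196666) (nat_lit 13) (.e (nat_lit 65639) (nat_lit 15) (.e (nat_lit 3711) (nat_lit 227) (.e (nat_lit 778316) (nat_lit 3) (.e (nat_lit 57477) (nat_lit 28) .nil)))))))) (.g (nat_lit 1) (.e (nat_lit 419266) (nat_lit 0) .nil) .nil))) 
(.lf (nat_lit 600848) (.g (nat_lit 2837) (.e (nat_lit 557101) (nat_lit 13) (.e (nat_lit 172115) (nat_lit 10) (.e (nat_lit 434244) (nat_lit 28) (.e (nat_lit 573450) (nat_lit 9) (.e (nat_lit 457) (nat_lit 34) (.e (nat_lit 442369) (nat_lit 0) (.e (nat_lit 7936) (nat_lit 124) .nil))))))) (.g (nat_lit 1) (.e (nat_lit 419806) (nat_lit 0) .nil) .nil))))) (.nd (nat_lit 8) (.nd (nat_lit 9) 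
(.lf (nat_lit 600208) (.g (nat_lit 3699) (.e (nat_lit 557093) (nat_lit 12) (.e (nat_lit 164022) (nat_lit 46) (.e (nat_lit 704629) (nat_lit 9) (.e (nat_lit 442) (nat_lit 33) (.e (nat_lit 434222) (nat_lit 19) (.e (nat_lit 500060) (nat_lit 18) (.e (nat_lit 65615) (nat_lit 10) (.e (nat_lit 344132) (nat_lit 26) .nil)))))))) (.g (nat_lit 1) (.e (nat_lit 419048) (nat_lit 0) .nil) .nil))) 
(.lf (nat_lit 600720) (.g (nat_lit 2097) (.e (nat_lit 557100) (nat_lit 13) (.e (nat_lit 172113) (nat_lit 10) (.e (nat_lit 434248) (nat_lit 28) (.e (nat_lit 573469) (nat_lit 11) (.e (nat_lit 16455) (nat_lit 12) (.e (nat_lit 475185) (nat_lit 29) .nil)))))) (.g (nat_lit 1) (.e (nat_lit 419665) (nat_lit 0) .nil) .nil)))) (.nd (nat_lit 9) 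
(.lf (nat_lit 600464) (.g (nat_lit 3158) (.e (nat_lit 557097) (nat_lit 13) (.e (nat_lit 172115) (nat_lit 10) (.e (nat_lit 434244) (nat_lit 28) (.e (nat_lit 573458) (nat_lit 9) (.e (nat_lit 394) (nat_lit 32) (.e (nat_lit 426198) (nat_lit 9) (.e (nat_lit 426402) (nat_lit 15) (.e (nat_lit 1848) (nat_lit 124) .nil)))))))) (.g (nat_lit 1) (.e (nat_lit 419394) (nat_lit 0) .nil) .nil))) 
(.lf (nat_lit 600976) (.g (nat_lit 3533) (.e (nat_lit 557104) (nat_lit 14) (.e (nat_lit 180252) (nat_lit 10) (.e (nat_lit 573482) (nat_lit 13) (.e (nat_lit 65568) (nat_lit 2) (.e (nat_lit 98048) (nat_lit 2) (.e (nat_lit 16392) (nat_lit 0) (.e (nat_lit 3281) (nat_lit 200) .nil))))))) (.g (nat_lit 1) (.e (nat_lit 419960) (nat_lit 0) .nil) .nil)))))) 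
(.nd (nat_lit 7) (.nd (nat_lit 8) (.nd (nat_lit 9) 
(.lf (nat_lit 600144) (.g (nat_lit 3914) (.e (nat_lit 557093) (nat_lit 12) (.e (nat_lit 163848) (nat_lit 0) (.e (nat_lit 6252) (nat_lit 337) (.e (nat_lit 2630) (nat_lit 164) (.e (nat_lit 172065) (nat_lit 3) (.e (nat_lit 204869) (nat_lit 29) (.e (nat_lit 360474) (nat_lit 8) .nil))))))) (.g (nat_lit 1) (.e (nat_lit 418957) (nat_lit 0) .nil) .nil))) 
(.lf (nat_lit 600656) (.g (nat_lit 3378) (.e (nat_lit 557100) (nat_lit 13) (.e (nat_lit 172106) (nat_lit 10) (.e (nat_lit 434231) (nat_lit 23) (.e (nat_lit 532535) (nat_lit 9) (.e (nat_lit 336250) (nat_lit 15) (.e (nat_lit 3705) (nat_lit 227) (.e (nat_lit 778316) (nat_lit 3) (.e (nat_lit 57479) (nat_lit 28) .nil)))))))) (.g (nat_lit 1) (.e (nat_lit 419601) (nat_lit 0) .nil) .nil)))) 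
(.nd (nat_lit 9) 
(.lf (nat_lit 600400) (.g (nat_lit 4142) (.e (nat_lit 557097) (nat_lit 13) (.e (nat_lit 172115) (nat_lit 10) (.e (nat_lit 434231) (nat_lit 23) (.e (nat_lit 532529) (nat_lit 9) (.e (nat_lit 336259) (nat_lit 15) (.e (nat_lit 3634) (nat_lit 227) (.e (nat_lit 778318) (nat_lit 3) (.e (nat_lit 57476) (nat_lit 28) .nil)))))))) (.g (nat_lit 1) (.e (nat_lit 419330) (nat_lit 0) .nil) .nil))) 
(.lf (nat_lit 600912) (.g (nat_lit 1449) (.e (nat_lit 557103) (nat_lit 14) (.e (nat_lit 180250) (nat_lit 10) (.e (nat_lit 573474) (nat_lit 12) (.e (nat_lit 57348) (nat_lit 0) .nil)))) (.g (nat_lit 0) (.e (nat_lit 419878) (nat_lit 0) .nil) .nil))))) (.nd (nat_lit 8) (.nd (nat_lit 9) 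
(.lf (nat_lit 600272) (.g (nat_lit 1141) (.e (nat_lit 557095) (nat_lit 13) (.e (nat_lit 172097) (nat_lit 9) (.e (nat_lit 426140) (nat_lit 3) (.e (nat_lit 204863) (nat_lit 27) .nil)))) (.g (nat_lit 0) (.e (nat_lit 419152) (nat_lit 0) .nil) .nil))) 
(.lf (nat_lit 600784) (.g (nat_lit 3870) (.e (nat_lit 557101) (nat_lit 13) (.e (nat_lit 172115) (nat_lit 10) (.e (nat_lit 434231) (nat_lit 23) (.e (nat_lit 532535) (nat_lit 9) (.e (nat_lit 336287) (nat_lit 15) (.e (nat_lit 3715) (nat_lit 227) (.e (nat_lit 778316) (nat_lit 3) (.e (nat_lit 57479) (nat_lit 28) .nil)))))))) (.g (nat_lit 1) (.e (nat_lit 419742) (nat_lit 0) .nil) .nil)))) 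
(.nd (nat_lit 9) 
(.lf (nat_lit 600528) (.g (nat_lit 3993) (.e (nat_lit 557098) (nat_lit 13) (.e (nat_lit 172115) (nat_lit 10) (.e (nat_lit 434231) (nat_lit 23) (.e (nat_lit 532535) (nat_lit 9) (.e (nat_lit 336287) (nat_lit 15) (.e (nat_lit 3715) (nat_lit 227) (.e (nat_lit 778316) (nat_lit 3) (.e (nat_lit 57480) (nat_lit 28) .nil)))))))) (.g (nat_lit 1) (.e (nat_lit 419461) (nat_lit 0) .nil) .nil))) 
(.lf (nat_lit 601040) (.g (nat_lit 3699) (.e (nat_lit 557105) (nat_lit 14) (.e (nat_lit 180252) (nat_lit 10) (.e (nat_lit 573474) (nat_lit 12) (.e (nat_lit 57347) (nat_lit 0) (.e (nat_lit 5438) (nat_lit 306) (.e (nat_lit 2433) (nat_lit 157) (.e (nat_lit 2685) (nat_lit 168) (.e (nat_lit 204863) (nat_lit 27) (.e (nat_lit 344132) (nat_lit 26) .nil))))))))) (.g (nat_lit 1) (.e (nat_lit 420063) (nat_lit 0) .nil) .nil))))))) 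
(.nd (nat_lit 6) (.nd (nat_lit 7) (.nd (nat_lit 8) (.nd (nat_lit 9) 
(.lf (nat_lit 600112) (.g (nat_lit 4261) (.e (nat_lit 557091) (nat_lit 12) (.e (nat_lit 164018) (nat_lit 45) (.e (nat_lit 696344) (nat_lit 8) (.e (nat_lit 172067) (nat_lit 3) (.e (nat_lit 204869) (nat_lit 29) (.e (nat_lit 360475) (nat_lit 8) .nil)))))) (.g (nat_lit 1) (.e (nat_lit 418913) (nat_lit 0) .nil) .nil))) 
(.lf (nat_lit 600624) (.g (nat_lit 4245) (.e (nat_lit 557100) (nat_lit 13) (.e (nat_lit 172106) (nat_lit 10) (.e (nat_lit 434231) (nat_lit 23) (.e (nat_lit 532481) (nat_lit 0) (.e (nat_lit 6622) (nat_lit 357) (.e (nat_lit 2887) (nat_lit 184) (.e (nat_lit 426412) (nat_lit 15) (.e (nat_lit 1856) (nat_lit 124) .nil)))))))) (.g (nat_lit 1) (.e (nat_lit 419569) (nat_lit 0) .nil) .nil)))) 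
(.nd (nat_lit 9) 
(.lf (nat_lit 600368) (.g (nat_lit 3119) (.e (nat_lit 557097) (nat_lit 13) (.e (nat_lit 172115) (nat_lit 10) (.e (nat_lit 434231) (nat_lit 23) (.e (nat_lit 532490) (nat_lit 0) (.e (nat_lit 6676) (nat_lit 357) (.e (nat_lit 2856) (nat_lit 184) (.e (nat_lit 426402) (nat_lit 15) (.e (nat_lit 1849) (nat_lit 124) .nil)))))))) (.g (nat_lit 1) (.e (nat_lit 419298) (nat_lit 0) .nil) .nil))) 
(.lf (nat_lit 600880) (.g (nat_lit 3018) (.e (nat_lit 557101) (nat_lit 13) (.e (nat_lit 172115) (nat_lit 10) (.e (nat_lit 434244) (nat_lit 28) (.e (nat_lit 573468) (nat_lit 10) (.e (nat_lit 8193) (nat_lit 0) .nil))))) (.g (nat_lit 0) (.e (nat_lit 419838) (nat_lit 0) .nil) .nil))))) (.nd (nat_lit 8) (.nd (nat_lit 9) 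
(.lf (nat_lit 600240) (.g (nat_lit 3813) (.e (nat_lit 557094) (nat_lit 12) (.e (nat_lit 163849) (nat_lit 0) (.e (nat_lit 6255) (nat_lit 337) (.e (nat_lit 2630) (nat_lit 164) (.e (nat_lit 172067) (nat_lit 3) (.e (nat_lit 204868) (nat_lit 29) (.e (nat_lit 360473) (nat_lit 8) .nil))))))) (.g (nat_lit 1) (.e (nat_lit 419086) (nat_lit 0) .nil) .nil))) 
(.lf (nat_lit 600752) (.g (nat_lit 3757) (.e (nat_lit 557101) (nat_lit 13) (.e (nat_lit 172097) (nat_lit 9) (.e (nat_lit 426140) (nat_lit 3) (.e (nat_lit 204855) (nat_lit 26) (.e (nat_lit 336290) (nat_lit 15) (.e (nat_lit 3711) (nat_lit 227) (.e (nat_lit 778316) (nat_lit 3) (.e (nat_lit 57479) (nat_lit 28) .nil)))))))) (.g (nat_lit 1) (.e (nat_lit 419710) (nat_lit 0) .nil) .nil)))) 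
(.nd (nat_lit 9) 
(.lf (nat_lit 600496) (.g (nat_lit 2002) (.e (nat_lit 557098) (nat_lit 13) (.e (nat_lit 172112) (nat_lit 10) (.e (nat_lit 434248) (nat_lit 28) (.e (nat_lit 573471) (nat_lit 11) (.e (nat_lit 16458) (nat_lit 12) .nil))))) (.g (nat_lit 0) (.e (nat_lit 419429) (nat_lit 0) .nil) .nil))) 
(.lf (nat_lit 601008) (.g (nat_lit 2270) (.e (nat_lit 557105) (nat_lit 14) (.e (nat_lit 180251) (nat_lit 10) (.e (nat_lit 573485) (nat_lit 13) (.e (nat_lit 65568) (nat_lit 2) (.e (nat_lit 98048) (nat_lit 2) (.e (nat_lit 16396) (nat_lit 0) (.e (nat_lit 7936) (nat_lit 200) .nil))))))) (.g (nat_lit 1) (.e (nat_lit 419996) (nat_lit 0) .nil) .nil)))))) 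
(.nd (nat_lit 7) (.nd (nat_lit 8) (.nd (nat_lit 9) 
(.lf (nat_lit 600176) (.g (nat_lit 3054) (.e (nat_lit 557093) (nat_lit 12) (.e (nat_lit 164018) (nat_lit 45) (.e (nat_lit 696328) (nat_lit 5) (.e (nat_lit 2980) (nat_lit 185) (.e (nat_lit 434231) (nat_lit 23) (.e (nat_lit 532550) (nat_lit 12) (.e (nat_lit 360474) (nat_lit 8) .nil))))))) (.g (nat_lit 1) (.e (nat_lit 419010) (nat_lit 0) .nil) .nil))) 
(.lf (nat_lit 600688) (.g (nat_lit 3391) (.e (nat_lit 557100) (nat_lit 13) (.e (nat_lit 172106) (nat_lit 10) (.e (nat_lit 434244) (nat_lit 28) (.e (nat_lit 573450) (nat_lit 9) (.e (nat_lit 457) (nat_lit 34) (.e (nat_lit 450304) (nat_lit 0) (.e (nat_lit 1853) (nat_lit 124) .nil))))))) (.g (nat_lit 1) (.e (nat_lit 419633) (nat_lit 0) .nil) .nil)))) (.nd (nat_lit 9) 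
(.lf (nat_lit 600432) (.g (nat_lit 3271) (.e (nat_lit 557097) (nat_lit 13) (.e (nat_lit 172115) (nat_lit 10) (.e (nat_lit 434231) (nat_lit 23) (.e (nat_lit 532535) (nat_lit 9) (.e (nat_lit 336294) (nat_lit 15) (.e (nat_lit 3631) (nat_lit 227) (.e (nat_lit 778318) (nat_lit 3) (.e (nat_lit 57476) (nat_lit 28) .nil)))))))) (.g (nat_lit 1) (.e (nat_lit 419362) (nat_lit 0) .nil) .nil))) 
(.lf (nat_lit 600944) (.g (nat_lit 3204) (.e (nat_lit 557104) (nat_lit 14) (.e (nat_lit 180250) (nat_lit 10) (.e (nat_lit 573474) (nat_lit 12) (.e (nat_lit 57503) (nat_lit 38) (.e (nat_lit 638995) (nat_lit 7) .nil))))) (.g (nat_lit 0) (.e (nat_lit 419928) (nat_lit 0) .nil) .nil))))) (.nd (nat_lit 8) (.nd (nat_lit 9) 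
(.lf (nat_lit 600304) (.g (nat_lit 4254) (.e (nat_lit 557096) (nat_lit 13) (.e (nat_lit 172114) (nat_lit 10) (.e (nat_lit 434231) (nat_lit 23) (.e (nat_lit 532535) (nat_lit 9) (.e (nat_lit 336295) (nat_lit 15) (.e (nat_lit 3632) (nat_lit 227) (.e (nat_lit 778317) (nat_lit 3) (.e (nat_lit 57480) (nat_lit 28) .nil)))))))) (.g (nat_lit 1) (.e (nat_lit 419227) (nat_lit 0) .nil) .nil))) 
(.lf (nat_lit 600816) (.g (nat_lit 2208) (.e (nat_lit 557101) (nat_lit 13) (.e (nat_lit 172115) (nat_lit 10) (.e (nat_lit 434244) (nat_lit 28) (.e (nat_lit 573449) (nat_lit 9) (.e (nat_lit 416) (nat_lit 32) .nil))))) (.g (nat_lit 0) (.e (nat_lit 419774) (nat_lit 0) .nil) .nil)))) (.nd (nat_lit 9) 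
(.lf (nat_lit 600560) (.g (nat_lit 2626) (.e (nat_lit 557098) (nat_lit 13) (.e (nat_lit 172115) (nat_lit 10) (.e (nat_lit 434244) (nat_lit 28) (.e (nat_lit 573450) (nat_lit 9) (.e (nat_lit 459) (nat_lit 34) (.e (nat_lit 450304) (nat_lit 0) (.e (nat_lit 1859) (nat_lit 124) .nil))))))) (.g (nat_lit 1) (.e (nat_lit 419495) (nat_lit 0) .nil) .nil))) 
(.lf (nat_lit 601072) (.g (nat_lit 2088) (.e (nat_lit 557105) (nat_lit 14) (.e (nat_lit 180252) (nat_lit 10) (.e (nat_lit 573475) (nat_lit 12) (.e (nat_lit 57346) (nat_lit 0) (.e (nat_lit 5583) (nat_lit 310) .nil))))) (.g (nat_lit 0) (.e (nat_lit 420129) (nat_lit 0) .nil) .nil))))))))) (.nd (nat_lit 4) (.nd (nat_lit 5) (.nd (nat_lit 6) (.nd (nat_lit 7) (.nd (nat_lit 8) (.nd (nat_lit 9) 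
(.lf (nat_lit 600072) (.g (nat_lit 3688) (.e (nat_lit 557090) (nat_lit 12) (.e (nat_lit 164038) (nat_lit 55) (.e (nat_lit 778336) (nat_lit 9) (.e (nat_lit 2668) (nat_lit 167) (.e (nat_lit 196666) (nat_lit 13) (.e (nat_lit 65571) (nat_lit 3) (.e (nat_lit 98346) (nat_lit 22) (.e (nat_lit 253994) (nat_lit 12) (.e (nat_lit 57477) (nat_lit 28) .nil))))))))) (.g (nat_lit 1) (.e (nat_lit 418831) (nat_lit 0) .nil) .nil))) 
(.lf (nat_lit 600584) (.g (nat_lit 1228) (.e (nat_lit 557098) (nat_lit 13) (.e (nat_lit 172115) (nat_lit 10) (.e (nat_lit 434244) (nat_lit 28) (.e (nat_lit 573469) (nat_lit 11) .nil)))) (.g (nat_lit 0) (.e (nat_lit 419519) (nat_lit 0) .nil) .nil)))) (.nd (nat_lit 9) 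
(.lf (nat_lit 600328) (.g (nat_lit 3716) (.e (nat_lit 557097) (nat_lit 13) (.e (nat_lit 172097) (nat_lit 9) (.e (nat_lit 426125) (nat_lit 2) (.e (nat_lit 196661) (nat_lit 12) (.e (nat_lit 57750) (nat_lit 201) (.e (nat_lit 2857) (nat_lit 184) (.e (nat_lit 426402) (nat_lit 15) (.e (nat_lit 1849) (nat_lit 124) .nil)))))))) (.g (nat_lit 1) (.e (nat_lit 419258) (nat_lit 0) .nil) .nil))) 
(.lf (nat_lit 600840) (.g (nat_lit 2277) (.e (nat_lit 557101) (nat_lit 13) (.e (nat_lit 172115) (nat_lit 10) (.e (nat_lit 434244) (nat_lit 28) (.e (nat_lit 573450) (nat_lit 9) (.e (nat_lit 411) (nat_lit 32) .nil))))) (.g (nat_lit 0) (.e (nat_lit 419798) (nat_lit 0) .nil) .nil))))) (.nd (nat_lit 8) (.nd (nat_lit 9) 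
(.lf (nat_lit 600200) (.g (nat_lit 546) (.e (nat_lit 557093) (nat_lit 12) (.e (nat_lit 164022) (nat_lit 46) (.e (nat_lit 704629) (nat_lit 9) .nil))) (.g (nat_lit 0) (.e (nat_lit 419039) (nat_lit 0) .nil) .nil))) 
(.lf (nat_lit 600712) (.g (nat_lit 2711) (.e (nat_lit 557100) (nat_lit 13) (.e (nat_lit 172113) (nat_lit 10) (.e (nat_lit 434247) (nat_lit 28) (.e (nat_lit 573469) (nat_lit 11) (.e (nat_lit 16435) (nat_lit 9) (.e (nat_lit 426350) (nat_lit 15) (.e (nat_lit 1860) (nat_lit 124) .nil))))))) (.g (nat_lit 1) (.e (nat_lit 419657) (nat_lit 0) .nil) .nil)))) (.nd (nat_lit 9) 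
(.lf (nat_lit 600456) (.g (nat_lit 2372) (.e (nat_lit 557097) (nat_lit 13) (.e (nat_lit 172115) (nat_lit 10) (.e (nat_lit 434244) (nat_lit 28) (.e (nat_lit 573450) (nat_lit 9) (.e (nat_lit 459) (nat_lit 34) (.e (nat_lit 450304) (nat_lit 0) (.e (nat_lit 1849) (nat_lit 124) .nil))))))) (.g (nat_lit 1) (.e (nat_lit 419386) (nat_lit 0) .nil) .nil))) 
(.lf (nat_lit 600968) (.g (nat_lit 2128) (.e (nat_lit 557104) (nat_lit 14) (.e (nat_lit 180252) (nat_lit 10) (.e (nat_lit 573480) (nat_lit 13) (.e (nat_lit 65571) (nat_lit 3) (.e (nat_lit 98321) (nat_lit 17) (.e (nat_lit 7936) (nat_lit 216) (.e (nat_lit 688166) (nat_lit 15) (.e (nat_lit 57477) (nat_lit 28) .nil)))))))) (.g (nat_lit 1) (.e (nat_lit 419952) (nat_lit 0) .nil) .nil)))))) 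
(.nd (nat_lit 7) (.nd (nat_lit 8) (.nd (nat_lit 9) 
(.lf (nat_lit 600136) (.g (nat_lit 1833) (.e (nat_lit 557091) (nat_lit 12) (.e (nat_lit 164022) (nat_lit 46) (.e (nat_lit 704629) (nat_lit 9) (.e (nat_lit 452) (nat_lit 33) (.e (nat_lit 434219) (nat_lit 19) .nil))))) (.g (nat_lit 0) (.e (nat_lit 418944) (nat_lit 0) .nil) .nil))) 
(.lf (nat_lit 600648) (.g (nat_lit 2448) (.e (nat_lit 557100) (nat_lit 13) (.e (nat_lit 172106) (nat_lit 10) (.e (nat_lit 434231) (nat_lit 23) (.e (nat_lit 532499) (nat_lit 1) (.e (nat_lit 57760) (nat_lit 215) .nil))))) (.g (nat_lit 0) (.e (nat_lit 419593) (nat_lit 0) .nil) .nil)))) (.nd (nat_lit 9) 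
(.lf (nat_lit 600392) (.g (nat_lit 4048) (.e (nat_lit 557097) (nat_lit 13) (.e (nat_lit 172115) (nat_lit 10) (.e (nat_lit 434231) (nat_lit 23) (.e (nat_lit 532529) (nat_lit 9) (.e (nat_lit 336257) (nat_lit 15) (.e (nat_lit 3634) (nat_lit 227) (.e (nat_lit 778318) (nat_lit 3) (.e (nat_lit 57476) (nat_lit 28) .nil)))))))) (.g (nat_lit 1) (.e (nat_lit 419322) (nat_lit 0) .nil) .nil))) 
(.lf (nat_lit 600904) (.g (nat_lit 1975) (.e (nat_lit 557102) (nat_lit 14) (.e (nat_lit 180251) (nat_lit 10) (.e (nat_lit 573489) (nat_lit 14) (.e (nat_lit 73755) (nat_lit 8) (.e (nat_lit 557091) (nat_lit 12) .nil))))) (.g (nat_lit 0) (.e (nat_lit 419865) (nat_lit 0) .nil) .nil))))) (.nd (nat_lit 8) (.nd (nat_lit 9) 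
(.lf (nat_lit 600264) (.g (nat_lit 1203) (.e (nat_lit 557095) (nat_lit 13) (.e (nat_lit 172097) (nat_lit 9) (.e (nat_lit 426125) (nat_lit 2) (.e (nat_lit 196661) (nat_lit 12) .nil)))) (.g (nat_lit 0) (.e (nat_lit 419143) (nat_lit 0) .nil) .nil))) 
(.lf (nat_lit 600776) (.g (nat_lit 3601) (.e (nat_lit 557101) (nat_lit 13) (.e (nat_lit 172115) (nat_lit 10) (.e (nat_lit 434231) (nat_lit 23) (.e (nat_lit 532523) (nat_lit 7) (.e (nat_lit 327424) (nat_lit 10) .nil))))) (.g (nat_lit 0) (.e (nat_lit 419734) (nat_lit 0) .nil) .nil)))) (.nd (nat_lit 9) 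
(.lf (nat_lit 600520) (.g (nat_lit 3625) (.e (nat_lit 557098) (nat_lit 13) (.e (nat_lit 172115) (nat_lit 10) (.e (nat_lit 434231) (nat_lit 23) (.e (nat_lit 532529) (nat_lit 9) (.e (nat_lit 336242) (nat_lit 15) (.e (nat_lit 3681) (nat_lit 227) (.e (nat_lit 786176) (nat_lit 3) (.e (nat_lit 57480) (nat_lit 28) .nil)))))))) (.g (nat_lit 1) (.e (nat_lit 419453) (nat_lit 0) .nil) .nil))) 
(.lf (nat_lit 601032) (.g (nat_lit 5045) (.e (nat_lit 557105) (nat_lit 14) (.e (nat_lit 180252) (nat_lit 10) (.e (nat_lit 573473) (nat_lit 12) (.e (nat_lit 57504) (nat_lit 38) (.e (nat_lit 638996) (nat_lit 7) (.e (nat_lit 163977) (nat_lit 30) (.e (nat_lit 573489) (nat_lit 14) (.e (nat_lit 73755) (nat_lit 8) .nil)))))))) (.g (nat_lit 1) (.e (nat_lit 420041) (nat_lit 0) .nil) .nil))))))) 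
(.nd (nat_lit 6) (.nd (nat_lit 7) (.nd (nat_lit 8) (.nd (nat_lit 9) 
(.lf (nat_lit 600104) (.g (nat_lit 4369) (.e (nat_lit 557091) (nat_lit 12) (.e (nat_lit 163847) (nat_lit 0) (.e (nat_lit 6420) (nat_lit 341) (.e (nat_lit 163900) (nat_lit 12) (.e (nat_lit 426125) (nat_lit 2) (.e (nat_lit 196666) (nat_lit 13) (.e (nat_lit 65617) (nat_lit 10) (.e (nat_lit 344133) (nat_lit 26) .nil)))))))) (.g (nat_lit 1) (.e (nat_lit 418893) (nat_lit 0) .nil) .nil))) 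
(.lf (nat_lit 600616) (.g (nat_lit 2822) (.e (nat_lit 557100) (nat_lit 13) (.e (nat_lit 172082) (nat_lit 7) (.e (nat_lit 409631) (nat_lit 12) (.e (nat_lit 32807) (nat_lit 18) (.e (nat_lit 172118) (nat_lit 12) (.e (nat_lit 475185) (nat_lit 29) .nil)))))) (.g (nat_lit 1) (.e (nat_lit 419561) (nat_lit 0) .nil) .nil)))) (.nd (nat_lit 9) 
(.lf (nat_lit 600360) (.g (nat_lit 2359) (.e (nat_lit 557097) (nat_lit 13) (.e (nat_lit 172115) (nat_lit 10) (.e (nat_lit 434231) (nat_lit 23) (.e (nat_lit 532482) (nat_lit 0) (.e (nat_lit 6696) (nat_lit 357) (.e (nat_lit 2844) (nat_lit 184) (.e (nat_lit 426402) (nat_lit 15) (.e (nat_lit 1848) (nat_lit 124) .nil)))))))) (.g (nat_lit 1) (.e (nat_lit 419290) (nat_lit 0) .nil) .nil))) 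
(.lf (nat_lit 600872) (.g (nat_lit 2362) (.e (nat_lit 557101) (nat_lit 13) (.e (nat_lit 172115) (nat_lit 10) (.e (nat_lit 434244) (nat_lit 28) (.e (nat_lit 573458) (nat_lit 9) (.e (nat_lit 392) (nat_lit 32) .nil))))) (.g (nat_lit 0) (.e (nat_lit 419830) (nat_lit 0) .nil) .nil))))) (.nd (nat_lit 8) (.nd (nat_lit 9) 
(.lf (nat_lit 600232) (.g (nat_lit 3603) (.e (nat_lit 557094) (nat_lit 12) (.e (nat_lit 163847) (nat_lit 0) (.e (nat_lit 6254) (nat_lit 337) (.e (nat_lit 2630) (nat_lit 164) (.e (nat_lit 172065) (nat_lit 3) (.e (nat_lit 204869) (nat_lit 29) (.e (nat_lit 360474) (nat_lit 8) .nil))))))) (.g (nat_lit 1) (.e (nat_lit 419075) (nat_lit 0) .nil) .nil))) 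
(.lf (nat_lit 600744) (.g (nat_lit 2275) (.e (nat_lit 557101) (nat_lit 13) (.e (nat_lit 172097) (nat_lit 9) (.e (nat_lit 426125) (nat_lit 2) (.e (nat_lit 196683) (nat_lit 18) .nil)))) (.g (nat_lit 0) (.e (nat_lit 419702) (nat_lit 0) .nil) .nil)))) (.nd (nat_lit 9) 
(.lf (nat_lit 600488) (.g (nat_lit 1087) (.e (nat_lit 557098) (nat_lit 13) (.e (nat_lit 172097) (nat_lit 9) (.e (nat_lit 426140) (nat_lit 3) (.e (nat_lit 212736) (nat_lit 17) .nil)))) (.g (nat_lit 0) (.e (nat_lit 419421) (nat_lit 0) .nil) .nil))) 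
(.lf (nat_lit 601000) (.g (nat_lit 1913) (.e (nat_lit 557105) (nat_lit 14) (.e (nat_lit 180251) (nat_lit 10) (.e (nat_lit 573485) (nat_lit 13) (.e (nat_lit 65568) (nat_lit 2) (.e (nat_lit 98048) (nat_lit 2) (.e (nat_lit 16388) (nat_lit 0) (.e (nat_lit 7936) (nat_lit 200) .nil))))))) (.g (nat_lit 1) (.e (nat_lit 419988) (nat_lit 0) .nil) .nil)))))) 
(.nd (nat_lit 7) (.nd (nat_lit 8) (.nd (nat_lit 9) 
(.lf (nat_lit 600168) (.g (nat_lit 3309) (.e (nat_lit 557093) (nat_lit 12) (.e (nat_lit 164018) (nat_lit 45) (.e (nat_lit 696327) (nat_lit 5) (.e (nat_lit 2884) (nat_lit 184) (.e (nat_lit 426140) (nat_lit 3) (.e (nat_lit 204869) (nat_lit 29) (.e (nat_lit 360474) (nat_lit 8) .nil))))))) (.g (nat_lit 1) (.e (nat_lit 419000) (nat_lit 0) .nil) .nil))) 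
(.lf (nat_lit 600680) (.g (nat_lit 3449) (.e (nat_lit 557100) (nat_lit 13) (.e (nat_lit 172106) (nat_lit 10) (.e (nat_lit 434238) (nat_lit 25) (.e (nat_lit 548896) (nat_lit 14) (.e (nat_lit 2884) (nat_lit 184) (.e (nat_lit 426317) (nat_lit 12) (.e (nat_lit 475185) (nat_lit 29) .nil))))))) (.g (nat_lit 1) (.e (nat_lit 419625) (nat_lit 0) .nil) .nil)))) (.nd (nat_lit 9) 
(.lf (nat_lit 600424) (.g (nat_lit 4369) (.e (nat_lit 557097) (nat_lit 13) (.e (nat_lit 172115) (nat_lit 10) (.e (nat_lit 434231) (nat_lit 23) (.e (nat_lit 532529) (nat_lit 9) (.e (nat_lit 336301) (nat_lit 15) (.e (nat_lit 3629) (nat_lit 227) (.e (nat_lit 778318) (nat_lit 3) (.e (nat_lit 57476) (nat_lit 28) .nil)))))))) (.g (nat_lit 1) (.e (nat_lit 419354) (nat_lit 0) .nil) .nil))) 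
(.lf (nat_lit 600936) (.g (nat_lit 847) (.e (nat_lit 557103) (nat_lit 14) (.e (nat_lit 180252) (nat_lit 10) (.e (nat_lit 573473) (nat_lit 12) .nil))) (.g (nat_lit 0) (.e (nat_lit 419902) (nat_lit 0) .nil) .nil))))) (.nd (nat_lit 8) (.nd (nat_lit 9) 
(.lf (nat_lit 600296) (.g (nat_lit 1102) (.e (nat_lit 557096) (nat_lit 13) (.e (nat_lit 172067) (nat_lit 3) (.e (nat_lit 204816) (nat_lit 17) .nil))) (.g (nat_lit 0) (.e (nat_lit 419217) (nat_lit 0) .nil) .nil))) 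
(.lf (nat_lit 600808) (.g (nat_lit 2560) (.e (nat_lit 557101) (nat_lit 13) (.e (nat_lit 172115) (nat_lit 10) (.e (nat_lit 434244) (nat_lit 28) (.e (nat_lit 573448) (nat_lit 9) (.e (nat_lit 460) (nat_lit 34) .nil))))) (.g (nat_lit 0) (.e (nat_lit 419766) (nat_lit 0) .nil) .nil)))) (.nd (nat_lit 9) 
(.lf (nat_lit 600552) (.g (nat_lit 2241) (.e (nat_lit 557098) (nat_lit 13) (.e (nat_lit 172115) (nat_lit 10) (.e (nat_lit 434244) (nat_lit 28) (.e (nat_lit 573450) (nat_lit 9) (.e (nat_lit 389) (nat_lit 32) (.e (nat_lit 426198) (nat_lit 9) (.e (nat_lit 426402) (nat_lit 15) (.e (nat_lit 1849) (nat_lit 124) .nil)))))))) (.g (nat_lit 1) (.e (nat_lit 419486) (nat_lit 0) .nil) .nil))) 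
(.lf (nat_lit 601064) (.g (nat_lit 4944) (.e (nat_lit 557105) (nat_lit 14) (.e (nat_lit 180252) (nat_lit 10) (.e (nat_lit 573474) (nat_lit 12) (.e (nat_lit 57504) (nat_lit 38) (.e (nat_lit 638994) (nat_lit 7) (.e (nat_lit 163978) (nat_lit 30) (.e (nat_lit 573489) (nat_lit 14) (.e (nat_lit 73755) (nat_lit 8) .nil)))))))) (.g (nat_lit 1) (.e (nat_lit 420114) (nat_lit 0) .nil) .nil)))))))) 
(.nd (nat_lit 5) (.nd (nat_lit 6) (.nd (nat_lit 7) (.nd (nat_lit 8) (.nd (nat_lit 9) 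
(.lf (nat_lit 600088) (.g (nat_lit 360) (.e (nat_lit 557090) (nat_lit 12) (.e (nat_lit 164020) (nat_lit 45) (.e (nat_lit 696328) (nat_lit 5) .nil))) (.g (nat_lit 0) (.e (nat_lit 418861) (nat_lit 0) .nil) .nil))) 
(.lf (nat_lit 600600) (.g (nat_lit 2924) (.e (nat_lit 557099) (nat_lit 13) (.e (nat_lit 172106) (nat_lit 10) (.e (nat_lit 434231) (nat_lit 23) (.e (nat_lit 532535) (nat_lit 9) (.e (nat_lit 336295) (nat_lit 15) (.e (nat_lit 3632) (nat_lit 227) (.e (nat_lit 778317) (nat_lit 3) (.e (nat_lit 57475) (nat_lit 28) .nil)))))))) (.g (nat_lit 1) (.e (nat_lit 419537) (nat_lit 0) .nil) .nil)))) 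
(.nd (nat_lit 9) 
(.lf (nat_lit 600344) (.g (nat_lit 1099) (.e (nat_lit 557097) (nat_lit 13) (.e (nat_lit 172097) (nat_lit 9) (.e (nat_lit 426140) (nat_lit 3) (.e (nat_lit 212736) (nat_lit 33) .nil)))) (.g (nat_lit 0) (.e (nat_lit 419274) (nat_lit 0) .nil) .nil))) 
(.lf (nat_lit 600856) (.g (nat_lit 3264) (.e (nat_lit 557101) (nat_lit 13) (.e (nat_lit 172115) (nat_lit 10) (.e (nat_lit 434244) (nat_lit 28) (.e (nat_lit 573451) (nat_lit 9) (.e (nat_lit 11) (nat_lit 0) .nil))))) (.g (nat_lit 0) (.e (nat_lit 419814) (nat_lit 0) .nil) .nil))))) (.nd (nat_lit 8) (.nd (nat_lit 9) 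
(.lf (nat_lit 600216) (.g (nat_lit 3821) (.e (nat_lit 557093) (nat_lit 12) (.e (nat_lit 164022) (nat_lit 46) (.e (nat_lit 704629) (nat_lit 9) (.e (nat_lit 442) (nat_lit 33) (.e (nat_lit 434234) (nat_lit 23) (.e (nat_lit 532535) (nat_lit 9) (.e (nat_lit 336173) (nat_lit 10) (.e (nat_lit 344132) (nat_lit 26) .nil)))))))) (.g (nat_lit 1) (.e (nat_lit 419056) (nat_lit 0) .nil) .nil))) 
(.lf (nat_lit 600728) (.g (nat_lit 2176) (.e (nat_lit 557100) (nat_lit 13) (.e (nat_lit 172124) (nat_lit 14) (.e (nat_lit 491537) (nat_lit 2) (.e (nat_lit 90125) (nat_lit 9) .nil)))) (.g (nat_lit 0) (.e (nat_lit 419673) (nat_lit 0) .nil) .nil)))) (.nd (nat_lit 9) 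
(.lf (nat_lit 600472) (.g (nat_lit 3102) (.e (nat_lit 557097) (nat_lit 13) (.e (nat_lit 172115) (nat_lit 10) (.e (nat_lit 434244) (nat_lit 28) (.e (nat_lit 573458) (nat_lit 9) (.e (nat_lit 426) (nat_lit 32) (.e (nat_lit 426196) (nat_lit 9) (.e (nat_lit 426402) (nat_lit 15) (.e (nat_lit 1849) (nat_lit 124) .nil)))))))) (.g (nat_lit 1) (.e (nat_lit 419402) (nat_lit 0) .nil) .nil))) 
(.lf (nat_lit 600984) (.g (nat_lit 3204) (.e (nat_lit 557105) (nat_lit 14) (.e (nat_lit 180250) (nat_lit 10) (.e (nat_lit 573474) (nat_lit 12) (.e (nat_lit 57503) (nat_lit 38) (.e (nat_lit 638995) (nat_lit 7) .nil))))) (.g (nat_lit 0) (.e (nat_lit 419972) (nat_lit 0) .nil) .nil)))))) (.nd (nat_lit 7) (.nd (nat_lit 8) (.nd (nat_lit 9) 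
(.lf (nat_lit 600152) (.g (nat_lit 4256) (.e (nat_lit 557093) (nat_lit 12) (.e (nat_lit 163849) (nat_lit 0) (.e (nat_lit 6254) (nat_lit 337) (.e (nat_lit 2630) (nat_lit 164) (.e (nat_lit 172062) (nat_lit 2) (.e (nat_lit 196666) (nat_lit 13) (.e (nat_lit 65617) (nat_lit 10) (.e (nat_lit 344132) (nat_lit 26) .nil)))))))) (.g (nat_lit 1) (.e (nat_lit 418972) (nat_lit 0) .nil) .nil))) 
(.lf (nat_lit 600664) (.g (nat_lit 2867) (.e (nat_lit 557100) (nat_lit 13) (.e (nat_lit 172106) (nat_lit 10) (.e (nat_lit 434231) (nat_lit 23) (.e (nat_lit 532535) (nat_lit 9) (.e (nat_lit 336287) (nat_lit 15) (.e (nat_lit 3714) (nat_lit 227) (.e (nat_lit 786176) (nat_lit 3) (.e (nat_lit 57479) (nat_lit 28) .nil)))))))) (.g (nat_lit 1) (.e (nat_lit 419609) (nat_lit 0) .nil) .nil)))) 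
(.nd (nat_lit 9) 
(.lf (nat_lit 600408) (.g (nat_lit 4285) (.e (nat_lit 557097) (nat_lit 13) (.e (nat_lit 172115) (nat_lit 10) (.e (nat_lit 434231) (nat_lit 23) (.e (nat_lit 532529) (nat_lit 9) (.e (nat_lit 336263) (nat_lit 15) (.e (nat_lit 3629) (nat_lit 227) (.e (nat_lit 778318) (nat_lit 3) (.e (nat_lit 57476) (nat_lit 28) .nil)))))))) (.g (nat_lit 1) (.e (nat_lit 419338) (nat_lit 0) .nil) .nil))) 
(.lf (nat_lit 600920) (.g (nat_lit 2811) (.e (nat_lit 557103) (nat_lit 14) (.e (nat_lit 180250) (nat_lit 10) (.e (nat_lit 573474) (nat_lit 12) (.e (nat_lit 57507) (nat_lit 39) (.e (nat_lit 647170) (nat_lit 0) (.e (nat_lit 2685) (nat_lit 168) (.e (nat_lit 204863) (nat_lit 27) (.e (nat_lit 344131) (nat_lit 26) .nil)))))))) (.g (nat_lit 1) (.e (nat_lit 419886) (nat_lit 0) .nil) .nil))))) 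
(.nd (nat_lit 8) (.nd (nat_lit 9) 
(.lf (nat_lit 600280) (.g (nat_lit 1222) (.e (nat_lit 557095) (nat_lit 13) (.e (nat_lit 172115) (nat_lit 10) (.e (nat_lit 434231) (nat_lit 23) (.e (nat_lit 532486) (nat_lit 0) .nil)))) (.g (nat_lit 0) (.e (nat_lit 419167) (nat_lit 0) .nil) .nil))) 
(.lf (nat_lit 600792) (.g (nat_lit 1210) (.e (nat_lit 557101) (nat_lit 13) (.e (nat_lit 172115) (nat_lit 10) (.e (nat_lit 434231) (nat_lit 23) (.e (nat_lit 532568) (nat_lit 16) .nil)))) (.g (nat_lit 0) (.e (nat_lit 419750) (nat_lit 0) .nil) .nil)))) (.nd (nat_lit 9) 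
(.lf (nat_lit 600536) (.g (nat_lit 1921) (.e (nat_lit 557098) (nat_lit 13) (.e (nat_lit 172115) (nat_lit 10) (.e (nat_lit 434238) (nat_lit 25) (.e (nat_lit 548898) (nat_lit 14) (.e (nat_lit 3004) (nat_lit 186) (.e (nat_lit 442368) (nat_lit 0) (.e (nat_lit 1861) (nat_lit 124) .nil))))))) (.g (nat_lit 1) (.e (nat_lit 419469) (nat_lit 0) .nil) .nil))) 
(.lf (nat_lit 601048) (.g (nat_lit 4281) (.e (nat_lit 557105) (nat_lit 14) (.e (nat_lit 180252) (nat_lit 10) (.e (nat_lit 573474) (nat_lit 12) (.e (nat_lit 57501) (nat_lit 37) (.e (nat_lit 630800) (nat_lit 7) (.e (nat_lit 163978) (nat_lit 30) (.e (nat_lit 573489) (nat_lit 14) (.e (nat_lit 73755) (nat_lit 8) .nil)))))))) (.g (nat_lit 1) (.e (nat_lit 420097) (nat_lit 0) .nil) .nil))))))) 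
(.nd (nat_lit 6) (.nd (nat_lit 7) (.nd (nat_lit 8) (.nd (nat_lit 9) 
(.lf (nat_lit 600120) (.g (nat_lit 4366) (.e (nat_lit 557091) (nat_lit 12) (.e (nat_lit 164020) (nat_lit 45) (.e (nat_lit 696344) (nat_lit 8) (.e (nat_lit 172066) (nat_lit 3) (.e (nat_lit 204869) (nat_lit 29) (.e (nat_lit 360474) (nat_lit 8) .nil)))))) (.g (nat_lit 1) (.e (nat_lit 418926) (nat_lit 0) .nil) .nil))) 
(.lf (nat_lit 600632) (.g (nat_lit 2424) (.e (nat_lit 557100) (nat_lit 13) (.e (nat_lit 172106) (nat_lit 10) (.e (nat_lit 434231) (nat_lit 23) (.e (nat_lit 532485) (nat_lit 0) .nil)))) (.g (nat_lit 0) (.e (nat_lit 419577) (nat_lit 0) .nil) .nil)))) (.nd (nat_lit 9) 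
(.lf (nat_lit 600376) (.g (nat_lit 3134) (.e (nat_lit 557097) (nat_lit 13) (.e (nat_lit 172115) (nat_lit 10) (.e (nat_lit 434231) (nat_lit 23) (.e (nat_lit 532528) (nat_lit 9) (.e (nat_lit 336260) (nat_lit 15) (.e (nat_lit 3634) (nat_lit 227) (.e (nat_lit 778318) (nat_lit 3) (.e (nat_lit 57476) (nat_lit 28) .nil)))))))) (.g (nat_lit 1) (.e (nat_lit 419306) (nat_lit 0) .nil) .nil))) 
(.lf (nat_lit 600888) (.g (nat_lit 4688) (.e (nat_lit 557101) (nat_lit 13) (.e (nat_lit 172115) (nat_lit 10) (.e (nat_lit 434244) (nat_lit 28) (.e (nat_lit 573471) (nat_lit 11) (.e (nat_lit 16388) (nat_lit 0) (.e (nat_lit 7374) (nat_lit 389) (.e (nat_lit 8326) (nat_lit 69) .nil))))))) (.g (nat_lit 1) (.e (nat_lit 419846) (nat_lit 0) .nil) .nil))))) (.nd (nat_lit 8) (.nd (nat_lit 9) 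
(.lf (nat_lit 600248) (.g (nat_lit 3705) (.e (nat_lit 557094) (nat_lit 12) (.e (nat_lit 164022) (nat_lit 46) (.e (nat_lit 704626) (nat_lit 9) (.e (nat_lit 375) (nat_lit 32) (.e (nat_lit 426140) (nat_lit 3) (.e (nat_lit 204869) (nat_lit 29) (.e (nat_lit 360474) (nat_lit 8) .nil))))))) (.g (nat_lit 1) (.e (nat_lit 419115) (nat_lit 0) .nil) .nil))) 
(.lf (nat_lit 600760) (.g (nat_lit 2442) (.e (nat_lit 557101) (nat_lit 13) (.e (nat_lit 172115) (nat_lit 10) (.e (nat_lit 434231) (nat_lit 23) (.e (nat_lit 532481) (nat_lit 0) (.e (nat_lit 6691) (nat_lit 357) (.e (nat_lit 2846) (nat_lit 184) (.e (nat_lit 426354) (nat_lit 15) (.e (nat_lit 1860) (nat_lit 124) .nil)))))))) (.g (nat_lit 1) (.e (nat_lit 419718) (nat_lit 0) .nil) .nil)))) 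
(.nd (nat_lit 9) 
(.lf (nat_lit 600504) (.g (nat_lit 2801) (.e (nat_lit 557098) (nat_lit 13) (.e (nat_lit 172115) (nat_lit 10) (.e (nat_lit 434231) (nat_lit 23) (.e (nat_lit 532481) (nat_lit 0) (.e (nat_lit 6684) (nat_lit 357) (.e (nat_lit 3067) (nat_lit 190) (.e (nat_lit 475184) (nat_lit 29) .nil))))))) (.g (nat_lit 1) (.e (nat_lit 419437) (nat_lit 0) .nil) .nil))) 
(.lf (nat_lit 601016) (.g (nat_lit 2142) (.e (nat_lit 557105) (nat_lit 14) (.e (nat_lit 180251) (nat_lit 10) (.e (nat_lit 573489) (nat_lit 14) (.e (nat_lit 73748) (nat_lit 3) (.e (nat_lit 524032) (nat_lit 24) .nil))))) (.g (nat_lit 0) (.e (nat_lit 420004) (nat_lit 0) .nil) .nil)))))) (.nd (nat_lit 7) (.nd (nat_lit 8) (.nd (nat_lit 9) 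
(.lf (nat_lit 600184) (.g (nat_lit 3273) (.e (nat_lit 557093) (nat_lit 12) (.e (nat_lit 164018) (nat_lit 45) (.e (nat_lit 696330) (nat_lit 5) (.e (nat_lit 2884) (nat_lit 184) (.e (nat_lit 426140) (nat_lit 3) (.e (nat_lit 204869) (nat_lit 29) (.e (nat_lit 360474) (nat_lit 8) .nil))))))) (.g (nat_lit 1) (.e (nat_lit 419021) (nat_lit 0) .nil) .nil))) 
(.lf (nat_lit 600696) (.g (nat_lit 610) (.e (nat_lit 557100) (nat_lit 13) (.e (nat_lit 172113) (nat_lit 10) (.e (nat_lit 434199) (nat_lit 18) .nil))) (.g (nat_lit 0) (.e (nat_lit 419641) (nat_lit 0) .nil) .nil)))) (.nd (nat_lit 9) 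
(.lf (nat_lit 600440) (.g (nat_lit 3195) (.e (nat_lit 557097) (nat_lit 13) (.e (nat_lit 172115) (nat_lit 10) (.e (nat_lit 434244) (nat_lit 28) (.e (nat_lit 573449) (nat_lit 9) (.e (nat_lit 430) (nat_lit 32) (.e (nat_lit 426198) (nat_lit 9) (.e (nat_lit 426402) (nat_lit 15) (.e (nat_lit 1849) (nat_lit 124) .nil)))))))) (.g (nat_lit 1) (.e (nat_lit 419370) (nat_lit 0) .nil) .nil))) 
(.lf (nat_lit 600952) (.g (nat_lit 1862) (.e (nat_lit 557104) (nat_lit 14) (.e (nat_lit 180252) (nat_lit 10) (.e (nat_lit 573451) (nat_lit 9) (.e (nat_lit 1173) (nat_lit 87) .nil)))) (.g (nat_lit 0) (.e (nat_lit 419936) (nat_lit 0) .nil) .nil))))) (.nd (nat_lit 8) (.nd (nat_lit 9) 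
(.lf (nat_lit 600312) (.g (nat_lit 944) (.e (nat_lit 557096) (nat_lit 13) (.e (nat_lit 172126) (nat_lit 14) (.e (nat_lit 491540) (nat_lit 3) (.e (nat_lit 98369) (nat_lit 28) .nil)))) (.g (nat_lit 0) (.e (nat_lit 419235) (nat_lit 0) .nil) .nil))) 
(.lf (nat_lit 600824) (.g (nat_lit 2387) (.e (nat_lit 557101) (nat_lit 13) (.e (nat_lit 172115) (nat_lit 10) (.e (nat_lit 434244) (nat_lit 28) (.e (nat_lit 573449) (nat_lit 9) (.e (nat_lit 459) (nat_lit 34) (.e (nat_lit 442379) (nat_lit 0) (.e (nat_lit 1855) (nat_lit 124) .nil))))))) (.g (nat_lit 1) (.e (nat_lit 419782) (nat_lit 0) .nil) .nil)))) (.nd (nat_lit 9) 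
(.lf (nat_lit 600568) (.g (nat_lit 3211) (.e (nat_lit 557098) (nat_lit 13) (.e (nat_lit 172115) (nat_lit 10) (.e (nat_lit 434244) (nat_lit 28) (.e (nat_lit 573456) (nat_lit 9) (.e (nat_lit 430) (nat_lit 32) (.e (nat_lit 426308) (nat_lit 12) (.e (nat_lit 475183) (nat_lit 29) .nil))))))) (.g (nat_lit 1) (.e (nat_lit 419503) (nat_lit 0) .nil) .nil))) 
(.lf (nat_lit 601080) (.g (nat_lit 3204) (.e (nat_lit 557105) (nat_lit 14) (.e (nat_lit 180252) (nat_lit 10) (.e (nat_lit 573475) (nat_lit 12) (.e (nat_lit 57504) (nat_lit 38) (.e (nat_lit 638986) (nat_lit 5) (.e (nat_lit 2416) (nat_lit 157) (.e (nat_lit 3307) (nat_lit 202) (.e (nat_lit 573489) (nat_lit 14) (.e (nat_lit 73755) (nat_lit 8) .nil))))))))) (.g (nat_lit 1) (.e (nat_lit 420137) (nat_lit 0) .nil) .nil)))))))))) 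
(.nd (nat_lit 3) (.nd (nat_lit 4) (.nd (nat_lit 5) (.nd (nat_lit 6) (.nd (nat_lit 7) 
(.nd (nat_lit 8) (.nd (nat_lit 9) 
(.lf (nat_lit 600068) (.g (nat_lit 4392) (.e (nat_lit 557090) (nat_lit 12) (.e (nat_lit 163852) (nat_lit 0) (.e (nat_lit 6425) (nat_lit 342) (.e (nat_lit 229399) (nat_lit 12) (.e (nat_lit 426125) (nat_lit 2) (.e (nat_lit 196666) (nat_lit 13) (.e (nat_lit 65617) (nat_lit 10) (.e (nat_lit 344130) (nat_lit 26) .nil)))))))) (.g (nat_lit 1) (.e (nat_lit 418817) (nat_lit 0) .nil) .nil))) 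
(.lf (nat_lit 600580) (.g (nat_lit 2671) (.e (nat_lit 557098) (nat_lit 13) (.e (nat_lit 172115) (nat_lit 10) (.e (nat_lit 434244) (nat_lit 28) (.e (nat_lit 573468) (nat_lit 10) (.e (nat_lit 8525) (nat_lit 205) .nil))))) (.g (nat_lit 0) (.e (nat_lit 419515) (nat_lit 0) .nil) .nil)))) (.nd (nat_lit 9) 
(.lf (nat_lit 600324) (.g (nat_lit 2886) (.e (nat_lit 557097) (nat_lit 13) (.e (nat_lit 172097) (nat_lit 9) (.e (nat_lit 426125) (nat_lit 2) (.e (nat_lit 196661) (nat_lit 12) (.e (nat_lit 57749) (nat_lit 201) (.e (nat_lit 2936) (nat_lit 184) (.e (nat_lit 426401) (nat_lit 15) (.e (nat_lit 1849) (nat_lit 124) .nil)))))))) (.g (nat_lit 1) (.e (nat_lit 419254) (nat_lit 0) .nil) .nil))) 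
(.lf (nat_lit 600836) (.g (nat_lit 2640) (.e (nat_lit 557101) (nat_lit 13) (.e (nat_lit 172115) (nat_lit 10) (.e (nat_lit 434244) (nat_lit 28) (.e (nat_lit 573450) (nat_lit 9) (.e (nat_lit 388) (nat_lit 32) (.e (nat_lit 426314) (nat_lit 12) (.e (nat_lit 475185) (nat_lit 29) .nil))))))) (.g (nat_lit 1) (.e (nat_lit 419794) (nat_lit 0) .nil) .nil))))) (.nd (nat_lit 8) (.nd (nat_lit 9) 
(.lf (nat_lit 600196) (.g (nat_lit 3437) (.e (nat_lit 557093) (nat_lit 12) (.e (nat_lit 164018) (nat_lit 45) (.e (nat_lit 696344) (nat_lit 8) (.e (nat_lit 172065) (nat_lit 3) (.e (nat_lit 204869) (nat_lit 29) (.e (nat_lit 360474) (nat_lit 8) .nil)))))) (.g (nat_lit 1) (.e (nat_lit 419034) (nat_lit 0) .nil) .nil))) 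
(.lf (nat_lit 600708) (.g (nat_lit 2030) (.e (nat_lit 557100) (nat_lit 13) (.e (nat_lit 172113) (nat_lit 10) (.e (nat_lit 434245) (nat_lit 28) (.e (nat_lit 573471) (nat_lit 11) (.e (nat_lit 16442) (nat_lit 9) (.e (nat_lit 433920) (nat_lit 15) (.e (nat_lit 1860) (nat_lit 124) .nil))))))) (.g (nat_lit 1) (.e (nat_lit 419653) (nat_lit 0) .nil) .nil)))) (.nd (nat_lit 9) 
(.lf (nat_lit 600452) (.g (nat_lit 3640) (.e (nat_lit 557097) (nat_lit 13) (.e (nat_lit 172115) (nat_lit 10) (.e (nat_lit 434244) (nat_lit 28) (.e (nat_lit 573450) (nat_lit 9) (.e (nat_lit 389) (nat_lit 32) (.e (nat_lit 426198) (nat_lit 9) (.e (nat_lit 426402) (nat_lit 15) (.e (nat_lit 1849) (nat_lit 124) .nil)))))))) (.g (nat_lit 1) (.e (nat_lit 419382) (nat_lit 0) .nil) .nil))) 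
(.lf (nat_lit 600964) (.g (nat_lit 3486) (.e (nat_lit 557104) (nat_lit 14) (.e (nat_lit 180252) (nat_lit 10) (.e (nat_lit 573475) (nat_lit 12) (.e (nat_lit 57503) (nat_lit 38) (.e (nat_lit 638994) (nat_lit 7) (.e (nat_lit 163975) (nat_lit 30) (.e (nat_lit 573488) (nat_lit 14) (.e (nat_lit 73755) (nat_lit 8) .nil)))))))) (.g (nat_lit 1) (.e (nat_lit 419948) (nat_lit 0) .nil) .nil)))))) 
(.nd (nat_lit 7) (.nd (nat_lit 8) (.nd (nat_lit 9) 
(.lf (nat_lit 600132) (.g (nat_lit 3665) (.e (nat_lit 557091) (nat_lit 12) (.e (nat_lit 164022) (nat_lit 46) (.e (nat_lit 704629) (nat_lit 9) (.e (nat_lit 442) (nat_lit 33) (.e (nat_lit 434222) (nat_lit 19) (.e (nat_lit 500064) (nat_lit 18) (.e (nat_lit 65617) (nat_lit 10) (.e (nat_lit 344133) (nat_lit 26) .nil)))))))) (.g (nat_lit 1) (.e (nat_lit 418940) (nat_lit 0) .nil) .nil))) 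
(.lf (nat_lit 600644) (.g (nat_lit 2709) (.e (nat_lit 557100) (nat_lit 13) (.e (nat_lit 172106) (nat_lit 10) (.e (nat_lit 434231) (nat_lit 23) (.e (nat_lit 532495) (nat_lit 0) .nil)))) (.g (nat_lit 0) (.e (nat_lit 419589) (nat_lit 0) .nil) .nil)))) (.nd (nat_lit 9) 
(.lf (nat_lit 600388) (.g (nat_lit 3884) (.e (nat_lit 557097) (nat_lit 13) (.e (nat_lit 172115) (nat_lit 10) (.e (nat_lit 434231) (nat_lit 23) (.e (nat_lit 532529) (nat_lit 9) (.e (nat_lit 336257) (nat_lit 15) (.e (nat_lit 3624) (nat_lit 227) (.e (nat_lit 778318) (nat_lit 3) (.e (nat_lit 57476) (nat_lit 28) .nil)))))))) (.g (nat_lit 1) (.e (nat_lit 419318) (nat_lit 0) .nil) .nil))) 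
(.lf (nat_lit 600900) (.g (nat_lit 3147) (.e (nat_lit 557101) (nat_lit 13) (.e (nat_lit 172120) (nat_lit 12) (.e (nat_lit 475185) (nat_lit 29) (.e (nat_lit 557098) (nat_lit 13) (.e (nat_lit 172120) (nat_lit 12) .nil))))) (.g (nat_lit 0) (.e (nat_lit 419858) (nat_lit 0) .nil) .nil))))) (.nd (nat_lit 8) (.nd (nat_lit 9) 
(.lf (nat_lit 600260) (.g (nat_lit 2531) (.e (nat_lit 557094) (nat_lit 12) (.e (nat_lit 164022) (nat_lit 46) (.e (nat_lit 704737) (nat_lit 11) (.e (nat_lit 16392) (nat_lit 0) (.e (nat_lit 7936) (nat_lit 197) (.e (nat_lit 532550) (nat_lit 12) (.e (nat_lit 360474) (nat_lit 8) .nil))))))) (.g (nat_lit 1) (.e (nat_lit 419131) (nat_lit 0) .nil) .nil))) 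
(.lf (nat_lit 600772) (.g (nat_lit 2545) (.e (nat_lit 557101) (nat_lit 13) (.e (nat_lit 172115) (nat_lit 10) (.e (nat_lit 434231) (nat_lit 23) (.e (nat_lit 532490) (nat_lit 0) (.e (nat_lit 6680) (nat_lit 357) (.e (nat_lit 3065) (nat_lit 190) (.e (nat_lit 475184) (nat_lit 29) .nil))))))) (.g (nat_lit 1) (.e (nat_lit 419730) (nat_lit 0) .nil) .nil)))) (.nd (nat_lit 9) 
(.lf (nat_lit 600516) (.g (nat_lit 4333) (.e (nat_lit 557098) (nat_lit 13) (.e (nat_lit 172115) (nat_lit 10) (.e (nat_lit 434231) (nat_lit 23) (.e (nat_lit 532490) (nat_lit 0) (.e (nat_lit 6680) (nat_lit 357) (.e (nat_lit 3067) (nat_lit 190) (.e (nat_lit 475183) (nat_lit 29) .nil))))))) (.g (nat_lit 1) (.e (nat_lit 419449) (nat_lit 0) .nil) .nil))) 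
(.lf (nat_lit 601028) (.g (nat_lit 5086) (.e (nat_lit 557105) (nat_lit 14) (.e (nat_lit 180252) (nat_lit 10) (.e (nat_lit 573473) (nat_lit 12) (.e (nat_lit 57503) (nat_lit 38) (.e (nat_lit 638996) (nat_lit 7) (.e (nat_lit 163977) (nat_lit 30) (.e (nat_lit 573489) (nat_lit 14) (.e (nat_lit 73755) (nat_lit 8) .nil)))))))) (.g (nat_lit 1) (.e (nat_lit 420037) (nat_lit 0) .nil) .nil))))))) 
(.nd (nat_lit 6) (.nd (nat_lit 7) (.nd (nat_lit 8) (.nd (nat_lit 9) 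
(.lf (nat_lit 600100) (.g (nat_lit 415) (.e (nat_lit 557091) (nat_lit 12) (.e (nat_lit 163843) (nat_lit 0) (.e (nat_lit 6421) (nat_lit 341) .nil))) (.g (nat_lit 0) (.e (nat_lit 418887) (nat_lit 0) .nil) .nil))) 
(.lf (nat_lit 600612) (.g (nat_lit 1311) (.e (nat_lit 557099) (nat_lit 13) (.e (nat_lit 172126) (nat_lit 14) (.e (nat_lit 491540) (nat_lit 3) (.e (nat_lit 98365) (nat_lit 26) .nil)))) (.g (nat_lit 0) (.e (nat_lit 419551) (nat_lit 0) .nil) .nil)))) (.nd (nat_lit 9) 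
(.lf (nat_lit 600356) (.g (nat_lit 2897) (.e (nat_lit 557097) (nat_lit 13) (.e (nat_lit 172115) (nat_lit 10) (.e (nat_lit 434231) (nat_lit 23) (.e (nat_lit 532481) (nat_lit 0) (.e (nat_lit 6684) (nat_lit 357) (.e (nat_lit 2857) (nat_lit 184) (.e (nat_lit 426402) (nat_lit 15) (.e (nat_lit 1848) (nat_lit 124) .nil)))))))) (.g (nat_lit 1) (.e (nat_lit 419286) (nat_lit 0) .nil) .nil))) 
(.lf (nat_lit 600868) (.g (nat_lit 2352) (.e (nat_lit 557101) (nat_lit 13) (.e (nat_lit 172115) (nat_lit 10) (.e (nat_lit 434244) (nat_lit 28) (.e (nat_lit 573454) (nat_lit 9) (.e (nat_lit 7936) (nat_lit 34) .nil))))) (.g (nat_lit 0) (.e (nat_lit 419826) (nat_lit 0) .nil) .nil))))) (.nd (nat_lit 8) (.nd (nat_lit 9) 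
(.lf (nat_lit 600228) (.g (nat_lit 2442) (.e (nat_lit 557093) (nat_lit 12) (.e (nat_lit 164023) (nat_lit 46) (.e (nat_lit 704738) (nat_lit 11) (.e (nat_lit 16397) (nat_lit 0) (.e (nat_lit 3238) (nat_lit 197) .nil))))) (.g (nat_lit 0) (.e (nat_lit 419071) (nat_lit 0) .nil) .nil))) 
(.lf (nat_lit 600740) (.g (nat_lit 3565) (.e (nat_lit 557101) (nat_lit 13) (.e (nat_lit 172097) (nat_lit 9) (.e (nat_lit 426125) (nat_lit 2) (.e (nat_lit 196666) (nat_lit 13) (.e (nat_lit 65638) (nat_lit 15) (.e (nat_lit 3714) (nat_lit 227) (.e (nat_lit 778316) (nat_lit 3) (.e (nat_lit 57479) (nat_lit 28) .nil)))))))) (.g (nat_lit 1) (.e (nat_lit 419698) (nat_lit 0) .nil) .nil)))) 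
(.nd (nat_lit 9) 
(.lf (nat_lit 600484) (.g (nat_lit 3040) (.e (nat_lit 557098) (nat_lit 13) (.e (nat_lit 172097) (nat_lit 9) (.e (nat_lit 426125) (nat_lit 2) (.e (nat_lit 196661) (nat_lit 12) (.e (nat_lit 57750) (nat_lit 201) (.e (nat_lit 2856) (nat_lit 184) (.e (nat_lit 426402) (nat_lit 15) (.e (nat_lit 1849) (nat_lit 124) .nil)))))))) (.g (nat_lit 1) (.e (nat_lit 419417) (nat_lit 0) .nil) .nil))) 
(.lf (nat_lit 600996) (.g (nat_lit 2243) (.e (nat_lit 557105) (nat_lit 14) (.e (nat_lit 180251) (nat_lit 10) (.e (nat_lit 573485) (nat_lit 13) (.e (nat_lit 65568) (nat_lit 2) (.e (nat_lit 98048) (nat_lit 2) (.e (nat_lit 16387) (nat_lit 0) (.e (nat_lit 3276) (nat_lit 200) .nil))))))) (.g (nat_lit 1) (.e (nat_lit 419984) (nat_lit 0) .nil) .nil)))))) 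
(.nd (nat_lit 7) (.nd (nat_lit 8) (.nd (nat_lit 9) 
(.lf (nat_lit 600164) (.g (nat_lit 3552) (.e (nat_lit 557093) (nat_lit 12) (.e (nat_lit 163849) (nat_lit 0) (.e (nat_lit 6421) (nat_lit 341) (.e (nat_lit 163900) (nat_lit 12) (.e (nat_lit 426140) (nat_lit 3) (.e (nat_lit 204869) (nat_lit 29) (.e (nat_lit 360474) (nat_lit 8) .nil))))))) (.g (nat_lit 1) (.e (nat_lit 418990) (nat_lit 0) .nil) .nil))) 
(.lf (nat_lit 600676) (.g (nat_lit 3768) (.e (nat_lit 557100) (nat_lit 13) (.e (nat_lit 172106) (nat_lit 10) (.e (nat_lit 434231) (nat_lit 23) (.e (nat_lit 532568) (nat_lit 16) (.e (nat_lit 401454) (nat_lit 12) (.e (nat_lit 475184) (nat_lit 29) .nil)))))) (.g (nat_lit 1) (.e (nat_lit 419621) (nat_lit 0) .nil) .nil)))) (.nd (nat_lit 9) 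
(.lf (nat_lit 600420) (.g (nat_lit 3360) (.e (nat_lit 557097) (nat_lit 13) (.e (nat_lit 172115) (nat_lit 10) (.e (nat_lit 434231) (nat_lit 23) (.e (nat_lit 532529) (nat_lit 9) (.e (nat_lit 336296) (nat_lit 15) (.e (nat_lit 3716) (nat_lit 227) (.e (nat_lit 778316) (nat_lit 3) (.e (nat_lit 57476) (nat_lit 28) .nil)))))))) (.g (nat_lit 1) (.e (nat_lit 419350) (nat_lit 0) .nil) .nil))) 
(.lf (nat_lit 600932) (.g (nat_lit 2998) (.e (nat_lit 557103) (nat_lit 14) (.e (nat_lit 180250) (nat_lit 10) (.e (nat_lit 573484) (nat_lit 13) (.e (nat_lit 65568) (nat_lit 2) (.e (nat_lit 98048) (nat_lit 2) (.e (nat_lit 16392) (nat_lit 0) (.e (nat_lit 3279) (nat_lit 200) .nil))))))) (.g (nat_lit 1) (.e (nat_lit 419898) (nat_lit 0) .nil) .nil))))) (.nd (nat_lit 8) (.nd (nat_lit 9) 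
(.lf (nat_lit 600292) (.g (nat_lit 758) (.e (nat_lit 557095) (nat_lit 13) (.e (nat_lit 172120) (nat_lit 12) (.e (nat_lit 475185) (nat_lit 29) .nil))) (.g (nat_lit 0) (.e (nat_lit 419211) (nat_lit 0) .nil) .nil))) 
(.lf (nat_lit 600804) (.g (nat_lit 1321) (.e (nat_lit 557101) (nat_lit 13) (.e (nat_lit 172115) (nat_lit 10) (.e (nat_lit 434238) (nat_lit 25) (.e (nat_lit 548902) (nat_lit 14) .nil)))) (.g (nat_lit 0) (.e (nat_lit 419762) (nat_lit 0) .nil) .nil)))) (.nd (nat_lit 9) 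
(.lf (nat_lit 600548) (.g (nat_lit 2426) (.e (nat_lit 557098) (nat_lit 13) (.e (nat_lit 172115) (nat_lit 10) (.e (nat_lit 434244) (nat_lit 28) (.e (nat_lit 573449) (nat_lit 9) (.e (nat_lit 481) (nat_lit 37) (.e (nat_lit 474880) (nat_lit 0) (.e (nat_lit 1859) (nat_lit 124) .nil))))))) (.g (nat_lit 1) (.e (nat_lit 419482) (nat_lit 0) .nil) .nil))) 
(.lf (nat_lit 601060) (.g (nat_lit 3271) (.e (nat_lit 557105) (nat_lit 14) (.e (nat_lit 180252) (nat_lit 10) (.e (nat_lit 573474) (nat_lit 12) (.e (nat_lit 57503) (nat_lit 38) (.e (nat_lit 638996) (nat_lit 7) (.e (nat_lit 163977) (nat_lit 30) (.e (nat_lit 573487) (nat_lit 14) (.e (nat_lit 73753) (nat_lit 8) .nil)))))))) (.g (nat_lit 1) (.e (nat_lit 420109) (nat_lit 0) .nil) .nil)))))))) 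
(.nd (nat_lit 5) (.nd (nat_lit 6) (.nd (nat_lit 7) (.nd (nat_lit 8) (.nd (nat_lit 9) 
(.lf (nat_lit 600084) (.g (nat_lit 4768) (.e (nat_lit 557090) (nat_lit 12) (.e (nat_lit 164018) (nat_lit 45) (.e (nat_lit 696344) (nat_lit 8) (.e (nat_lit 172064) (nat_lit 2) (.e (nat_lit 196666) (nat_lit 13) (.e (nat_lit 65617) (nat_lit 10) (.e (nat_lit 344130) (nat_lit 26) .nil))))))) (.g (nat_lit 1) (.e (nat_lit 418857) (nat_lit 0) .nil) .nil))) 
(.lf (nat_lit 600596) (.g (nat_lit 4293) (.e (nat_lit 557099) (nat_lit 13) (.e (nat_lit 172094) (nat_lit 9) (.e (nat_lit 426125) (nat_lit 2) (.e (nat_lit 196666) (nat_lit 13) (.e (nat_lit 65546) (nat_lit 0) .nil))))) (.g (nat_lit 0) (.e (nat_lit 419531) (nat_lit 0) .nil) .nil)))) (.nd (nat_lit 9) 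
(.lf (nat_lit 600340) (.g (nat_lit 3234) (.e (nat_lit 557097) (nat_lit 13) (.e (nat_lit 172097) (nat_lit 9) (.e (nat_lit 426140) (nat_lit 3) (.e (nat_lit 204854) (nat_lit 26) (.e (nat_lit 336306) (nat_lit 15) (.e (nat_lit 3619) (nat_lit 227) (.e (nat_lit 778318) (nat_lit 3) (.e (nat_lit 57476) (nat_lit 28) .nil)))))))) (.g (nat_lit 1) (.e (nat_lit 419270) (nat_lit 0) .nil) .nil))) 
(.lf (nat_lit 600852) (.g (nat_lit 2423) (.e (nat_lit 557101) (nat_lit 13) (.e (nat_lit 172115) (nat_lit 10) (.e (nat_lit 434244) (nat_lit 28) (.e (nat_lit 573450) (nat_lit 9) (.e (nat_lit 460) (nat_lit 34) (.e (nat_lit 450304) (nat_lit 0) (.e (nat_lit 1860) (nat_lit 124) .nil))))))) (.g (nat_lit 1) (.e (nat_lit 419810) (nat_lit 0) .nil) .nil))))) (.nd (nat_lit 8) (.nd (nat_lit 9) 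
(.lf (nat_lit 600212) (.g (nat_lit 3606) (.e (nat_lit 557093) (nat_lit 12) (.e (nat_lit 164022) (nat_lit 46) (.e (nat_lit 704629) (nat_lit 9) (.e (nat_lit 442) (nat_lit 33) (.e (nat_lit 434232) (nat_lit 23) .nil))))) (.g (nat_lit 0) (.e (nat_lit 419052) (nat_lit 0) .nil) .nil))) 
(.lf (nat_lit 600724) (.g (nat_lit 3329) (.e (nat_lit 557100) (nat_lit 13) (.e (nat_lit 172113) (nat_lit 10) (.e (nat_lit 434248) (nat_lit 28) (.e (nat_lit 573471) (nat_lit 11) (.e (nat_lit 16455) (nat_lit 12) (.e (nat_lit 475185) (nat_lit 29) .nil)))))) (.g (nat_lit 1) (.e (nat_lit 419669) (nat_lit 0) .nil) .nil)))) (.nd (nat_lit 9) 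
(.lf (nat_lit 600468) (.g (nat_lit 2013) (.e (nat_lit 557097) (nat_lit 13) (.e (nat_lit 172115) (nat_lit 10) (.e (nat_lit 434244) (nat_lit 28) (.e (nat_lit 573458) (nat_lit 9) (.e (nat_lit 426) (nat_lit 32) .nil))))) (.g (nat_lit 0) (.e (nat_lit 419398) (nat_lit 0) .nil) .nil))) 
(.lf (nat_lit 600980) (.g (nat_lit 3378) (.e (nat_lit 557104) (nat_lit 14) (.e (nat_lit 180252) (nat_lit 10) (.e (nat_lit 573487) (nat_lit 14) (.e (nat_lit 73747) (nat_lit 3) (.e (nat_lit 516100) (nat_lit 0) (.e (nat_lit 7936) (nat_lit 216) (.e (nat_lit 688166) (nat_lit 15) (.e (nat_lit 57477) (nat_lit 28) .nil)))))))) (.g (nat_lit 1) (.e (nat_lit 419964) (nat_lit 0) .nil) .nil)))))) 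
(.nd (nat_lit 7) (.nd (nat_lit 8) (.nd (nat_lit 9) 
(.lf (nat_lit 600148) (.g (nat_lit 2543) (.e (nat_lit 557093) (nat_lit 12) (.e (nat_lit 163848) (nat_lit 0) (.e (nat_lit 6416) (nat_lit 341) (.e (nat_lit 163908) (nat_lit 12) (.e (nat_lit 426132) (nat_lit 3) (.e (nat_lit 204868) (nat_lit 29) (.e (nat_lit 360473) (nat_lit 8) .nil))))))) (.g (nat_lit 1) (.e (nat_lit 418965) (nat_lit 0) .nil) .nil))) 
(.lf (nat_lit 600660) (.g (nat_lit 3387) (.e (nat_lit 557100) (nat_lit 13) (.e (nat_lit 172106) (nat_lit 10) (.e (nat_lit 434231) (nat_lit 23) (.e (nat_lit 532535) (nat_lit 9) (.e (nat_lit 336253) (nat_lit 15) (.e (nat_lit 3716) (nat_lit 227) (.e (nat_lit 786176) (nat_lit 3) (.e (nat_lit 57479) (nat_lit 28) .nil)))))))) (.g (nat_lit 1) (.e (nat_lit 419605) (nat_lit 0) .nil) .nil)))) 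
(.nd (nat_lit 9) 
(.lf (nat_lit 600404) (.g (nat_lit 3900) (.e (nat_lit 557097) (nat_lit 13) (.e (nat_lit 172115) (nat_lit 10) (.e (nat_lit 434231) (nat_lit 23) (.e (nat_lit 532529) (nat_lit 9) (.e (nat_lit 336261) (nat_lit 15) (.e (nat_lit 3636) (nat_lit 227) (.e (nat_lit 778318) (nat_lit 3) (.e (nat_lit 57476) (nat_lit 28) .nil)))))))) (.g (nat_lit 1) (.e (nat_lit 419334) (nat_lit 0) .nil) .nil))) 
(.lf (nat_lit 600916) (.g (nat_lit 2822) (.e (nat_lit 557103) (nat_lit 14) (.e (nat_lit 180250) (nat_lit 10) (.e (nat_lit 573474) (nat_lit 12) (.e (nat_lit 57503) (nat_lit 38) (.e (nat_lit 638985) (nat_lit 5) (.e (nat_lit 2472) (nat_lit 157) (.e (nat_lit 3307) (nat_lit 202) (.e (nat_lit 573489) (nat_lit 14) (.e (nat_lit 73755) (nat_lit 8) .nil))))))))) (.g (nat_lit 1) (.e (nat_lit 419882) (nat_lit 0) .nil) .nil))))) 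
(.nd (nat_lit 8) (.nd (nat_lit 9) 
(.lf (nat_lit 600276) (.g (nat_lit 3811) (.e (nat_lit 557095) (nat_lit 13) (.e (nat_lit 172106) (nat_lit 10) (.e (nat_lit 434231) (nat_lit 23) (.e (nat_lit 532535) (nat_lit 9) (.e (nat_lit 336295) (nat_lit 15) (.e (nat_lit 3630) (nat_lit 227) (.e (nat_lit 778317) (nat_lit 3) (.e (nat_lit 57477) (nat_lit 28) .nil)))))))) (.g (nat_lit 1) (.e (nat_lit 419157) (nat_lit 0) .nil) .nil))) 
(.lf (nat_lit 600788) (.g (nat_lit 3537) (.e (nat_lit 557101) (nat_lit 13) (.e (nat_lit 172115) (nat_lit 10) (.e (nat_lit 434231) (nat_lit 23) (.e (nat_lit 532535) (nat_lit 9) (.e (nat_lit 336289) (nat_lit 15) .nil))))) (.g (nat_lit 0) (.e (nat_lit 419746) (nat_lit 0) .nil) .nil)))) (.nd (nat_lit 9) 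
(.lf (nat_lit 600532) (.g (nat_lit 1144) (.e (nat_lit 557098) (nat_lit 13) (.e (nat_lit 172115) (nat_lit 10) (.e (nat_lit 434231) (nat_lit 23) (.e (nat_lit 532567) (nat_lit 16) .nil)))) (.g (nat_lit 0) (.e (nat_lit 419465) (nat_lit 0) .nil) .nil))) 
(.lf (nat_lit 601044) (.g (nat_lit 4550) (.e (nat_lit 557105) (nat_lit 14) (.e (nat_lit 180252) (nat_lit 10) (.e (nat_lit 573474) (nat_lit 12) (.e (nat_lit 57500) (nat_lit 37) (.e (nat_lit 630799) (nat_lit 7) (.e (nat_lit 163977) (nat_lit 30) (.e (nat_lit 573489) (nat_lit 14) (.e (nat_lit 73755) (nat_lit 8) .nil)))))))) (.g (nat_lit 1) (.e (nat_lit 420092) (nat_lit 0) .nil) .nil))))))) 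
(.nd (nat_lit 6) (.nd (nat_lit 7) (.nd (nat_lit 8) (.nd (nat_lit 9) 
(.lf (nat_lit 600116) (.g (nat_lit 4664) (.e (nat_lit 557091) (nat_lit 12) (.e (nat_lit 164020) (nat_lit 45) (.e (nat_lit 696329) (nat_lit 5) (.e (nat_lit 2980) (nat_lit 185) (.e (nat_lit 434231) (nat_lit 23) (.e (nat_lit 532550) (nat_lit 12) (.e (nat_lit 360474) (nat_lit 8) .nil))))))) (.g (nat_lit 1) (.e (nat_lit 418917) (nat_lit 0) .nil) .nil))) 
(.lf (nat_lit 600628) (.g (nat_lit 4683) (.e (nat_lit 557100) (nat_lit 13) (.e (nat_lit 172106) (nat_lit 10) (.e (nat_lit 434231) (nat_lit 23) (.e (nat_lit 532482) (nat_lit 0) (.e (nat_lit 6622) (nat_lit 357) (.e (nat_lit 2887) (nat_lit 184) (.e (nat_lit 426412) (nat_lit 15) (.e (nat_lit 1856) (nat_lit 124) .nil)))))))) (.g (nat_lit 1) (.e (nat_lit 419573) (nat_lit 0) .nil) .nil)))) 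
(.nd (nat_lit 9) 
(.lf (nat_lit 600372) (.g (nat_lit 3836) (.e (nat_lit 557097) (nat_lit 13) (.e (nat_lit 172115) (nat_lit 10) (.e (nat_lit 434231) (nat_lit 23) (.e (nat_lit 532490) (nat_lit 0) (.e (nat_lit 6680) (nat_lit 357) (.e (nat_lit 2854) (nat_lit 184) (.e (nat_lit 426402) (nat_lit 15) (.e (nat_lit 1849) (nat_lit 124) .nil)))))))) (.g (nat_lit 1) (.e (nat_lit 419302) (nat_lit 0) .nil) .nil))) 
(.lf (nat_lit 600884) (.g (nat_lit 3342) (.e (nat_lit 557101) (nat_lit 13) (.e (nat_lit 172115) (nat_lit 10) (.e (nat_lit 434244) (nat_lit 28) (.e (nat_lit 573471) (nat_lit 11) (.e (nat_lit 16384) (nat_lit 0) (.e (nat_lit 7374) (nat_lit 389) (.e (nat_lit 8326) (nat_lit 69) .nil))))))) (.g (nat_lit 1) (.e (nat_lit 419842) (nat_lit 0) .nil) .nil))))) (.nd (nat_lit 8) (.nd (nat_lit 9) 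
(.lf (nat_lit 600244) (.g (nat_lit 3133) (.e (nat_lit 557094) (nat_lit 12) (.e (nat_lit 164018) (nat_lit 45) (.e (nat_lit 696327) (nat_lit 5) (.e (nat_lit 2884) (nat_lit 184) (.e (nat_lit 426140) (nat_lit 3) (.e (nat_lit 204869) (nat_lit 29) (.e (nat_lit 360474) (nat_lit 8) .nil))))))) (.g (nat_lit 1) (.e (nat_lit 419108) (nat_lit 0) .nil) .nil))) 
(.lf (nat_lit 600756) (.g (nat_lit 1304) (.e (nat_lit 557101) (nat_lit 13) (.e (nat_lit 172115) (nat_lit 10) (.e (nat_lit 434219) (nat_lit 19) (.e (nat_lit 499725) (nat_lit 0) .nil)))) (.g (nat_lit 0) (.e (nat_lit 419714) (nat_lit 0) .nil) .nil)))) (.nd (nat_lit 9) 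
(.lf (nat_lit 600500) (.g (nat_lit 2986) (.e (nat_lit 557098) (nat_lit 13) (.e (nat_lit 172115) (nat_lit 10) (.e (nat_lit 434231) (nat_lit 23) (.e (nat_lit 532481) (nat_lit 0) (.e (nat_lit 6691) (nat_lit 357) (.e (nat_lit 2854) (nat_lit 184) (.e (nat_lit 426402) (nat_lit 15) (.e (nat_lit 1859) (nat_lit 124) .nil)))))))) (.g (nat_lit 1) (.e (nat_lit 419433) (nat_lit 0) .nil) .nil))) 
(.lf (nat_lit 601012) (.g (nat_lit 2237) (.e (nat_lit 557105) (nat_lit 14) (.e (nat_lit 180251) (nat_lit 10) (.e (nat_lit 573485) (nat_lit 13) (.e (nat_lit 65568) (nat_lit 2) (.e (nat_lit 98048) (nat_lit 2) (.e (nat_lit 16401) (nat_lit 0) (.e (nat_lit 7936) (nat_lit 200) .nil))))))) (.g (nat_lit 1) (.e (nat_lit 420000) (nat_lit 0) .nil) .nil)))))) 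
(.nd (nat_lit 7) (.nd (nat_lit 8) (.nd (nat_lit 9) 
(.lf (nat_lit 600180) (.g (nat_lit 3176) (.e (nat_lit 557093) (nat_lit 12) (.e (nat_lit 164018) (nat_lit 45) (.e (nat_lit 696329) (nat_lit 5) (.e (nat_lit 2964) (nat_lit 185) (.e (nat_lit 434231) (nat_lit 23) (.e (nat_lit 532550) (nat_lit 12) (.e (nat_lit 360474) (nat_lit 8) .nil))))))) (.g (nat_lit 1) (.e (nat_lit 419016) (nat_lit 0) .nil) .nil))) 
(.lf (nat_lit 600692) (.g (nat_lit 4464) (.e (nat_lit 557100) (nat_lit 13) (.e (nat_lit 172106) (nat_lit 10) (.e (nat_lit 434244) (nat_lit 28) (.e (nat_lit 573458) (nat_lit 9) (.e (nat_lit 426) (nat_lit 32) (.e (nat_lit 426306) (nat_lit 12) (.e (nat_lit 475185) (nat_lit 29) .nil))))))) (.g (nat_lit 1) (.e (nat_lit 419637) (nat_lit 0) .nil) .nil)))) (.nd (nat_lit 9) 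
(.lf (nat_lit 600436) (.g (nat_lit 1319) (.e (nat_lit 557097) (nat_lit 13) (.e (nat_lit 172115) (nat_lit 10) (.e (nat_lit 434231) (nat_lit 23) (.e (nat_lit 532569) (nat_lit 16) (.e (nat_lit 401444) (nat_lit 9) .nil))))) (.g (nat_lit 0) (.e (nat_lit 419366) (nat_lit 0) .nil) .nil))) 
(.lf (nat_lit 600948) (.g (nat_lit 2837) (.e (nat_lit 557104) (nat_lit 14) (.e (nat_lit 180250) (nat_lit 10) (.e (nat_lit 573475) (nat_lit 12) (.e (nat_lit 57504) (nat_lit 38) (.e (nat_lit 638994) (nat_lit 7) .nil))))) (.g (nat_lit 0) (.e (nat_lit 419932) (nat_lit 0) .nil) .nil))))) (.nd (nat_lit 8) (.nd (nat_lit 9) 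
(.lf (nat_lit 600308) (.g (nat_lit 2049) (.e (nat_lit 557096) (nat_lit 13) (.e (nat_lit 172126) (nat_lit 14) (.e (nat_lit 491537) (nat_lit 2) (.e (nat_lit 90134) (nat_lit 9) .nil)))) (.g (nat_lit 0) (.e (nat_lit 419231) (nat_lit 0) .nil) .nil))) 
(.lf (nat_lit 600820) (.g (nat_lit 2505) (.e (nat_lit 557101) (nat_lit 13) (.e (nat_lit 172115) (nat_lit 10) (.e (nat_lit 434244) (nat_lit 28) (.e (nat_lit 573449) (nat_lit 9) (.e (nat_lit 455) (nat_lit 34) (.e (nat_lit 442372) (nat_lit 0) (.e (nat_lit 1846) (nat_lit 124) .nil))))))) (.g (nat_lit 1) (.e (nat_lit 419778) (nat_lit 0) .nil) .nil)))) (.nd (nat_lit 9) 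
(.lf (nat_lit 600564) (.g (nat_lit 3455) (.e (nat_lit 557098) (nat_lit 13) (.e (nat_lit 172115) (nat_lit 10) (.e (nat_lit 434244) (nat_lit 28) (.e (nat_lit 573451) (nat_lit 9) (.e (nat_lit 430) (nat_lit 32) (.e (nat_lit 426190) (nat_lit 9) (.e (nat_lit 426402) (nat_lit 15) (.e (nat_lit 1859) (nat_lit 124) .nil)))))))) (.g (nat_lit 1) (.e (nat_lit 419499) (nat_lit 0) .nil) .nil))) 
(.lf (nat_lit 601076) (.g (nat_lit 4862) (.e (nat_lit 557105) (nat_lit 14) (.e (nat_lit 180252) (nat_lit 10) (.e (nat_lit 573475) (nat_lit 12) (.e (nat_lit 57502) (nat_lit 38) (.e (nat_lit 638996) (nat_lit 7) (.e (nat_lit 163978) (nat_lit 30) (.e (nat_lit 573489) (nat_lit 14) (.e (nat_lit 73755) (nat_lit 8) .nil)))))))) (.g (nat_lit 1) (.e (nat_lit 420133) (nat_lit 0) .nil) .nil))))))))) 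
(.nd (nat_lit 4) (.nd (nat_lit 5) (.nd (nat_lit 6) (.nd (nat_lit 7) (.nd (nat_lit 8) 
(.nd (nat_lit 9) 
(.lf (nat_lit 600076) (.g (nat_lit 4013) (.e (nat_lit 557090) (nat_lit 12) (.e (nat_lit 164016) (nat_lit 44) (.e (nat_lit 688141) (nat_lit 5) (.e (nat_lit 2883) (nat_lit 184) (.e (nat_lit 426125) (nat_lit 2) (.e (nat_lit 196666) (nat_lit 13) (.e (nat_lit 65617) (nat_lit 10) (.e (nat_lit 344130) (nat_lit 26) .nil)))))))) (.g (nat_lit 1) (.e (nat_lit 418841) (nat_lit 0) .nil) .nil))) 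
(.lf (nat_lit 600588) (.g (nat_lit 4435) (.e (nat_lit 557098) (nat_lit 13) (.e (nat_lit 172115) (nat_lit 10) (.e (nat_lit 434244) (nat_lit 28) (.e (nat_lit 573471) (nat_lit 11) (.e (nat_lit 16473) (nat_lit 14) (.e (nat_lit 491573) (nat_lit 15) (.e (nat_lit 7936) (nat_lit 200) .nil))))))) (.g (nat_lit 1) (.e (nat_lit 419523) (nat_lit 0) .nil) .nil)))) (.nd (nat_lit 9) 
(.lf (nat_lit 600332) (.g (nat_lit 3364) (.e (nat_lit 557097) (nat_lit 13) (.e (nat_lit 172097) (nat_lit 9) (.e (nat_lit 426125) (nat_lit 2) (.e (nat_lit 196661) (nat_lit 12) (.e (nat_lit 57751) (nat_lit 201) (.e (nat_lit 2857) (nat_lit 184) (.e (nat_lit 426402) (nat_lit 15) (.e (nat_lit 1849) (nat_lit 124) .nil)))))))) (.g (nat_lit 1) (.e (nat_lit 419262) (nat_lit 0) .nil) .nil))) 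
(.lf (nat_lit 600844) (.g (nat_lit 2357) (.e (nat_lit 557101) (nat_lit 13) (.e (nat_lit 172115) (nat_lit 10) (.e (nat_lit 434244) (nat_lit 28) (.e (nat_lit 573450) (nat_lit 9) (.e (nat_lit 454) (nat_lit 34) (.e (nat_lit 442372) (nat_lit 0) (.e (nat_lit 1846) (nat_lit 124) .nil))))))) (.g (nat_lit 1) (.e (nat_lit 419802) (nat_lit 0) .nil) .nil))))) (.nd (nat_lit 8) (.nd (nat_lit 9) 
(.lf (nat_lit 600204) (.g (nat_lit 5985) (.e (nat_lit 557093) (nat_lit 12) (.e (nat_lit 164022) (nat_lit 46) (.e (nat_lit 704629) (nat_lit 9) (.e (nat_lit 375) (nat_lit 32) (.e (nat_lit 426125) (nat_lit 2) (.e (nat_lit 196666) (nat_lit 13) (.e (nat_lit 65617) (nat_lit 10) (.e (nat_lit 344132) (nat_lit 26) .nil)))))))) (.g (nat_lit 1) (.e (nat_lit 419043) (nat_lit 0) .nil) .nil))) 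
(.lf (nat_lit 600716) (.g (nat_lit 2497) (.e (nat_lit 557100) (nat_lit 13) (.e (nat_lit 172113) (nat_lit 10) (.e (nat_lit 434247) (nat_lit 28) (.e (nat_lit 573469) (nat_lit 11) (.e (nat_lit 16458) (nat_lit 12) (.e (nat_lit 475184) (nat_lit 29) .nil)))))) (.g (nat_lit 1) (.e (nat_lit 419661) (nat_lit 0) .nil) .nil)))) (.nd (nat_lit 9) 
(.lf (nat_lit 600460) (.g (nat_lit 3185) (.e (nat_lit 557097) (nat_lit 13) (.e (nat_lit 172115) (nat_lit 10) (.e (nat_lit 434244) (nat_lit 28) (.e (nat_lit 573451) (nat_lit 9) (.e (nat_lit 430) (nat_lit 32) (.e (nat_lit 426198) (nat_lit 9) (.e (nat_lit 426402) (nat_lit 15) (.e (nat_lit 1849) (nat_lit 124) .nil)))))))) (.g (nat_lit 1) (.e (nat_lit 419390) (nat_lit 0) .nil) .nil))) 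
(.lf (nat_lit 600972) (.g (nat_lit 2364) (.e (nat_lit 557104) (nat_lit 14) (.e (nat_lit 180252) (nat_lit 10) (.e (nat_lit 573481) (nat_lit 13) (.e (nat_lit 65568) (nat_lit 2) (.e (nat_lit 98048) (nat_lit 2) (.e (nat_lit 16392) (nat_lit 0) (.e (nat_lit 3281) (nat_lit 200) .nil))))))) (.g (nat_lit 1) (.e (nat_lit 419956) (nat_lit 0) .nil) .nil)))))) 
(.nd (nat_lit 7) (.nd (nat_lit 8) (.nd (nat_lit 9) 
(.lf (nat_lit 600140) (.g (nat_lit 4013) (.e (nat_lit 557091) (nat_lit 12) (.e (nat_lit 164238) (nat_lit 187) (.e (nat_lit 1179) (nat_lit 87) (.e (nat_lit 57931) (nat_lit 282) (.e (nat_lit 163943) (nat_lit 19) (.e (nat_lit 483372) (nat_lit 21) (.e (nat_lit 319504) (nat_lit 10) (.e (nat_lit 618) (nat_lit 48) .nil)))))))) (.g (nat_lit 1) (.e (nat_lit 418950) (nat_lit 0) .nil) .nil))) 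
(.lf (nat_lit 600652) (.g (nat_lit 3550) (.e (nat_lit 557100) (nat_lit 13) (.e (nat_lit 172106) (nat_lit 10) (.e (nat_lit 434231) (nat_lit 23) (.e (nat_lit 532501) (nat_lit 1) (.e (nat_lit 57762) (nat_lit 215) .nil))))) (.g (nat_lit 0) (.e (nat_lit 419597) (nat_lit 0) .nil) .nil)))) (.nd (nat_lit 9) 
(.lf (nat_lit 600396) (.g (nat_lit 3944) (.e (nat_lit 557097) (nat_lit 13) (.e (nat_lit 172115) (nat_lit 10) (.e (nat_lit 434231) (nat_lit 23) (.e (nat_lit 532529) (nat_lit 9) (.e (nat_lit 336259) (nat_lit 15) (.e (nat_lit 3618) (nat_lit 227) (.e (nat_lit 778318) (nat_lit 3) (.e (nat_lit 57476) (nat_lit 28) .nil)))))))) (.g (nat_lit 1) (.e (nat_lit 419326) (nat_lit 0) .nil) .nil))) 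
(.lf (nat_lit 600908) (.g (nat_lit 463) (.e (nat_lit 557103) (nat_lit 14) (.e (nat_lit 180243) (nat_lit 5) (.e (nat_lit 532503) (nat_lit 1) .nil))) (.g (nat_lit 0) (.e (nat_lit 419872) (nat_lit 0) .nil) .nil))))) (.nd (nat_lit 8) (.nd (nat_lit 9) 
(.lf (nat_lit 600268) (.g (nat_lit 2029) (.e (nat_lit 557095) (nat_lit 13) (.e (nat_lit 172097) (nat_lit 9) (.e (nat_lit 426125) (nat_lit 2) (.e (nat_lit 196666) (nat_lit 13) (.e (nat_lit 65572) (nat_lit 4) .nil))))) (.g (nat_lit 0) (.e (nat_lit 419148) (nat_lit 0) .nil) .nil))) 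
(.lf (nat_lit 600780) (.g (nat_lit 3474) (.e (nat_lit 557101) (nat_lit 13) (.e (nat_lit 172115) (nat_lit 10) (.e (nat_lit 434231) (nat_lit 23) (.e (nat_lit 532529) (nat_lit 9) (.e (nat_lit 336296) (nat_lit 15) (.e (nat_lit 3714) (nat_lit 227) (.e (nat_lit 778316) (nat_lit 3) (.e (nat_lit 57479) (nat_lit 28) .nil)))))))) (.g (nat_lit 1) (.e (nat_lit 419738) (nat_lit 0) .nil) .nil)))) 
(.nd (nat_lit 9) 
(.lf (nat_lit 600524) (.g (nat_lit 3460) (.e (nat_lit 557098) (nat_lit 13) (.e (nat_lit 172115) (nat_lit 10) (.e (nat_lit 434231) (nat_lit 23) (.e (nat_lit 532529) (nat_lit 9) (.e (nat_lit 336296) (nat_lit 15) (.e (nat_lit 3714) (nat_lit 227) (.e (nat_lit 786176) (nat_lit 3) (.e (nat_lit 57480) (nat_lit 28) .nil)))))))) (.g (nat_lit 1) (.e (nat_lit 419457) (nat_lit 0) .nil) .nil))) 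
(.lf (nat_lit 601036) (.g (nat_lit 2785) (.e (nat_lit 557105) (nat_lit 14) (.e (nat_lit 180252) (nat_lit 10) (.e (nat_lit 573474) (nat_lit 12) (.e (nat_lit 57347) (nat_lit 0) (.e (nat_lit 5436) (nat_lit 306) (.e (nat_lit 2604) (nat_lit 163) (.e (nat_lit 163962) (nat_lit 25) (.e (nat_lit 532544) (nat_lit 10) (.e (nat_lit 344131) (nat_lit 26) .nil))))))))) (.g (nat_lit 1) (.e (nat_lit 420059) (nat_lit 0) .nil) .nil))))))) 
(.nd (nat_lit 6) (.nd (nat_lit 7) (.nd (nat_lit 8) (.nd (nat_lit 9) 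
(.lf (nat_lit 600108) (.g (nat_lit 428) (.e (nat_lit 557091) (nat_lit 12) (.e (nat_lit 164017) (nat_lit 44) (.e (nat_lit 688138) (nat_lit 5) .nil))) (.g (nat_lit 0) (.e (nat_lit 418909) (nat_lit 0) .nil) .nil))) 
(.lf (nat_lit 600620) (.g (nat_lit 3799) (.e (nat_lit 557100) (nat_lit 13) (.e (nat_lit 172106) (nat_lit 10) (.e (nat_lit 434219) (nat_lit 19) (.e (nat_lit 499741) (nat_lit 0) (.e (nat_lit 2795) (nat_lit 180) (.e (nat_lit 303143) (nat_lit 12) (.e (nat_lit 475185) (nat_lit 29) .nil))))))) (.g (nat_lit 1) (.e (nat_lit 419565) (nat_lit 0) .nil) .nil)))) (.nd (nat_lit 9) 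
(.lf (nat_lit 600364) (.g (nat_lit 2756) (.e (nat_lit 557097) (nat_lit 13) (.e (nat_lit 172115) (nat_lit 10) (.e (nat_lit 434231) (nat_lit 23) (.e (nat_lit 532490) (nat_lit 0) (.e (nat_lit 6648) (nat_lit 357) (.e (nat_lit 2856) (nat_lit 184) (.e (nat_lit 426402) (nat_lit 15) (.e (nat_lit 1848) (nat_lit 124) .nil)))))))) (.g (nat_lit 1) (.e (nat_lit 419294) (nat_lit 0) .nil) .nil))) 
(.lf (nat_lit 600876) (.g (nat_lit 3141) (.e (nat_lit 557101) (nat_lit 13) (.e (nat_lit 172115) (nat_lit 10) (.e (nat_lit 434244) (nat_lit 28) (.e (nat_lit 573458) (nat_lit 9) (.e (nat_lit 426) (nat_lit 32) (.e (nat_lit 426188) (nat_lit 9) (.e (nat_lit 426361) (nat_lit 15) (.e (nat_lit 1860) (nat_lit 124) .nil)))))))) (.g (nat_lit 1) (.e (nat_lit 419834) (nat_lit 0) .nil) .nil))))) 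
(.nd (nat_lit 8) (.nd (nat_lit 9) 
(.lf (nat_lit 600236) (.g (nat_lit 3114) (.e (nat_lit 557094) (nat_lit 12) (.e (nat_lit 163847) (nat_lit 0) (.e (nat_lit 6420) (nat_lit 341) (.e (nat_lit 163908) (nat_lit 12) (.e (nat_lit 426132) (nat_lit 3) (.e (nat_lit 204869) (nat_lit 29) (.e (nat_lit 360474) (nat_lit 8) .nil))))))) (.g (nat_lit 1) (.e (nat_lit 419079) (nat_lit 0) .nil) .nil))) 
(.lf (nat_lit 600748) (.g (nat_lit 1609) (.e (nat_lit 557101) (nat_lit 13) (.e (nat_lit 172097) (nat_lit 9) (.e (nat_lit 426140) (nat_lit 3) (.e (nat_lit 204819) (nat_lit 17) .nil)))) (.g (nat_lit 0) (.e (nat_lit 419706) (nat_lit 0) .nil) .nil)))) (.nd (nat_lit 9) 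
(.lf (nat_lit 600492) (.g (nat_lit 3034) (.e (nat_lit 557098) (nat_lit 13) (.e (nat_lit 172106) (nat_lit 10) (.e (nat_lit 434244) (nat_lit 28) (.e (nat_lit 573451) (nat_lit 9) (.e (nat_lit 395) (nat_lit 32) .nil))))) (.g (nat_lit 0) (.e (nat_lit 419425) (nat_lit 0) .nil) .nil))) 
(.lf (nat_lit 601004) (.g (nat_lit 2453) (.e (nat_lit 557105) (nat_lit 14) (.e (nat_lit 180251) (nat_lit 10) (.e (nat_lit 573485) (nat_lit 13) (.e (nat_lit 65568) (nat_lit 2) (.e (nat_lit 98048) (nat_lit 2) (.e (nat_lit 16392) (nat_lit 0) (.e (nat_lit 3277) (nat_lit 200) .nil))))))) (.g (nat_lit 1) (.e (nat_lit 419992) (nat_lit 0) .nil) .nil)))))) 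
(.nd (nat_lit 7) (.nd (nat_lit 8) (.nd (nat_lit 9) 
(.lf (nat_lit 600172) (.g (nat_lit 3196) (.e (nat_lit 557093) (nat_lit 12) (.e (nat_lit 164018) (nat_lit 45) (.e (nat_lit 696327) (nat_lit 5) (.e (nat_lit 2980) (nat_lit 185) (.e (nat_lit 434231) (nat_lit 23) (.e (nat_lit 532550) (nat_lit 12) (.e (nat_lit 360474) (nat_lit 8) .nil))))))) (.g (nat_lit 1) (.e (nat_lit 419005) (nat_lit 0) .nil) .nil))) 
(.lf (nat_lit 600684) (.g (nat_lit 4219) (.e (nat_lit 557100) (nat_lit 13) (.e (nat_lit 172106) (nat_lit 10) (.e (nat_lit 434238) (nat_lit 25) (.e (nat_lit 548913) (nat_lit 18) (.e (nat_lit 172118) (nat_lit 12) (.e (nat_lit 475185) (nat_lit 29) .nil)))))) (.g (nat_lit 1) (.e (nat_lit 419629) (nat_lit 0) .nil) .nil)))) (.nd (nat_lit 9) 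
(.lf (nat_lit 600428) (.g (nat_lit 3709) (.e (nat_lit 557097) (nat_lit 13) (.e (nat_lit 172115) (nat_lit 10) (.e (nat_lit 434231) (nat_lit 23) (.e (nat_lit 532535) (nat_lit 9) (.e (nat_lit 336253) (nat_lit 15) (.e (nat_lit 3716) (nat_lit 227) (.e (nat_lit 778316) (nat_lit 3) (.e (nat_lit 57477) (nat_lit 28) .nil)))))))) (.g (nat_lit 1) (.e (nat_lit 419358) (nat_lit 0) .nil) .nil))) 
(.lf (nat_lit 600940) (.g (nat_lit 1707) (.e (nat_lit 557104) (nat_lit 14) (.e (nat_lit 180244) (nat_lit 5) (.e (nat_lit 532501) (nat_lit 1) (.e (nat_lit 57703) (nat_lit 164) .nil)))) (.g (nat_lit 0) (.e (nat_lit 419922) (nat_lit 0) .nil) .nil))))) (.nd (nat_lit 8) (.nd (nat_lit 9) 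
(.lf (nat_lit 600300) (.g (nat_lit 878) (.e (nat_lit 557096) (nat_lit 13) (.e (nat_lit 172067) (nat_lit 3) (.e (nat_lit 204830) (nat_lit 18) .nil))) (.g (nat_lit 0) (.e (nat_lit 419221) (nat_lit 0) .nil) .nil))) 
(.lf (nat_lit 600812) (.g (nat_lit 2208) (.e (nat_lit 557101) (nat_lit 13) (.e (nat_lit 172115) (nat_lit 10) (.e (nat_lit 434244) (nat_lit 28) (.e (nat_lit 573449) (nat_lit 9) (.e (nat_lit 400) (nat_lit 32) .nil))))) (.g (nat_lit 0) (.e (nat_lit 419770) (nat_lit 0) .nil) .nil)))) (.nd (nat_lit 9) 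
(.lf (nat_lit 600556) (.g (nat_lit 2336) (.e (nat_lit 557098) (nat_lit 13) (.e (nat_lit 172115) (nat_lit 10) (.e (nat_lit 434244) (nat_lit 28) (.e (nat_lit 573450) (nat_lit 9) (.e (nat_lit 457) (nat_lit 34) (.e (nat_lit 442372) (nat_lit 0) (.e (nat_lit 1846) (nat_lit 124) .nil))))))) (.g (nat_lit 1) (.e (nat_lit 419491) (nat_lit 0) .nil) .nil))) 
(.lf (nat_lit 601068) (.g (nat_lit 5875) (.e (nat_lit 557105) (nat_lit 14) (.e (nat_lit 180252) (nat_lit 10) (.e (nat_lit 573474) (nat_lit 12) (.e (nat_lit 57504) (nat_lit 38) (.e (nat_lit 638995) (nat_lit 7) (.e (nat_lit 163978) (nat_lit 30) (.e (nat_lit 573489) (nat_lit 14) (.e (nat_lit 73755) (nat_lit 8) .nil)))))))) (.g (nat_lit 1) (.e (nat_lit 420118) (nat_lit 0) .nil) .nil)))))))) 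
(.nd (nat_lit 5) (.nd (nat_lit 6) (.nd (nat_lit 7) (.nd (nat_lit 8) (.nd (nat_lit 9) 
(.lf (nat_lit 600092) (.g (nat_lit 5032) (.e (nat_lit 557090) (nat_lit 12) (.e (nat_lit 164022) (nat_lit 46) (.e (nat_lit 704628) (nat_lit 9) (.e (nat_lit 375) (nat_lit 32) (.e (nat_lit 426140) (nat_lit 3) (.e (nat_lit 204855) (nat_lit 26) (.e (nat_lit 336176) (nat_lit 10) (.e (nat_lit 344130) (nat_lit 26) .nil)))))))) (.g (nat_lit 1) (.e (nat_lit 418875) (nat_lit 0) .nil) .nil))) 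
(.lf (nat_lit 600604) (.g (nat_lit 1962) (.e (nat_lit 557099) (nat_lit 13) (.e (nat_lit 172119) (nat_lit 12) (.e (nat_lit 475185) (nat_lit 29) (.e (nat_lit 557109) (nat_lit 15) .nil)))) (.g (nat_lit 0) (.e (nat_lit 419542) (nat_lit 0) .nil) .nil)))) (.nd (nat_lit 9) 
(.lf (nat_lit 600348) (.g (nat_lit 2164) (.e (nat_lit 557097) (nat_lit 13) (.e (nat_lit 172115) (nat_lit 10) (.e (nat_lit 434231) (nat_lit 23) (.e (nat_lit 532481) (nat_lit 0) (.e (nat_lit 6642) (nat_lit 357) .nil))))) (.g (nat_lit 0) (.e (nat_lit 419278) (nat_lit 0) .nil) .nil))) 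
(.lf (nat_lit 600860) (.g (nat_lit 3404) (.e (nat_lit 557101) (nat_lit 13) (.e (nat_lit 172115) (nat_lit 10) (.e (nat_lit 434244) (nat_lit 28) (.e (nat_lit 573451) (nat_lit 9) (.e (nat_lit 430) (nat_lit 32) (.e (nat_lit 426190) (nat_lit 9) (.e (nat_lit 426402) (nat_lit 15) (.e (nat_lit 1858) (nat_lit 124) .nil)))))))) (.g (nat_lit 1) (.e (nat_lit 419818) (nat_lit 0) .nil) .nil))))) 
(.nd (nat_lit 8) (.nd (nat_lit 9) 
(.lf (nat_lit 600220) (.g (nat_lit 2181) (.e (nat_lit 557093) (nat_lit 12) (.e (nat_lit 164022) (nat_lit 46) (.e (nat_lit 704738) (nat_lit 11) (.e (nat_lit 16389) (nat_lit 0) (.e (nat_lit 3248) (nat_lit 197) .nil))))) (.g (nat_lit 0) (.e (nat_lit 419060) (nat_lit 0) .nil) .nil))) 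
(.lf (nat_lit 600732) (.g (nat_lit 513) (.e (nat_lit 557101) (nat_lit 13) (.e (nat_lit 172065) (nat_lit 3) (.e (nat_lit 204821) (nat_lit 17) .nil))) (.g (nat_lit 0) (.e (nat_lit 419680) (nat_lit 0) .nil) .nil)))) (.nd (nat_lit 9) 
(.lf (nat_lit 600476) (.g (nat_lit 2735) (.e (nat_lit 557097) (nat_lit 13) (.e (nat_lit 172115) (nat_lit 10) (.e (nat_lit 434244) (nat_lit 28) (.e (nat_lit 573468) (nat_lit 10) (.e (nat_lit 8525) (nat_lit 205) (.e (nat_lit 3067) (nat_lit 190) (.e (nat_lit 475183) (nat_lit 29) .nil))))))) (.g (nat_lit 1) (.e (nat_lit 419406) (nat_lit 0) .nil) .nil))) 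
(.lf (nat_lit 600988) (.g (nat_lit 2912) (.e (nat_lit 557105) (nat_lit 14) (.e (nat_lit 180251) (nat_lit 10) (.e (nat_lit 573484) (nat_lit 13) (.e (nat_lit 65568) (nat_lit 2) (.e (nat_lit 98048) (nat_lit 0) (.e (nat_lit 375) (nat_lit 32) (.e (nat_lit 426025) (nat_lit 0) (.e (nat_lit 7936) (nat_lit 200) .nil)))))))) (.g (nat_lit 1) (.e (nat_lit 419976) (nat_lit 0) .nil) .nil)))))) 
(.nd (nat_lit 7) (.nd (nat_lit 8) (.nd (nat_lit 9) 
(.lf (nat_lit 600156) (.g (nat_lit 4878) (.e (nat_lit 557093) (nat_lit 12) (.e (nat_lit 163849) (nat_lit 0) (.e (nat_lit 6255) (nat_lit 337) (.e (nat_lit 2630) (nat_lit 164) (.e (nat_lit 172064) (nat_lit 2) (.e (nat_lit 196666) (nat_lit 13) (.e (nat_lit 65617) (nat_lit 10) (.e (nat_lit 344132) (nat_lit 26) .nil)))))))) (.g (nat_lit 1) (.e (nat_lit 418977) (nat_lit 0) .nil) .nil))) 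
(.lf (nat_lit 600668) (.g (nat_lit 3444) (.e (nat_lit 557100) (nat_lit 13) (.e (nat_lit 172106) (nat_lit 10) (.e (nat_lit 434231) (nat_lit 23) (.e (nat_lit 532535) (nat_lit 9) (.e (nat_lit 336289) (nat_lit 15) (.e (nat_lit 3715) (nat_lit 227) (.e (nat_lit 778316) (nat_lit 3) (.e (nat_lit 57479) (nat_lit 28) .nil)))))))) (.g (nat_lit 1) (.e (nat_lit 419613) (nat_lit 0) .nil) .nil)))) 
(.nd (nat_lit 9) 
(.lf (nat_lit 600412) (.g (nat_lit 3285) (.e (nat_lit 557097) (nat_lit 13) (.e (nat_lit 172115) (nat_lit 10) (.e (nat_lit 434231) (nat_lit 23) (.e (nat_lit 532529) (nat_lit 9) (.e (nat_lit 336269) (nat_lit 15) (.e (nat_lit 3629) (nat_lit 227) (.e (nat_lit 778318) (nat_lit 3) (.e (nat_lit 57476) (nat_lit 28) .nil)))))))) (.g (nat_lit 1) (.e (nat_lit 419342) (nat_lit 0) .nil) .nil))) 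
(.lf (nat_lit 600924) (.g (nat_lit 2172) (.e (nat_lit 557103) (nat_lit 14) (.e (nat_lit 180250) (nat_lit 10) (.e (nat_lit 573474) (nat_lit 12) (.e (nat_lit 57508) (nat_lit 39) (.e (nat_lit 647177) (nat_lit 0) .nil))))) (.g (nat_lit 0) (.e (nat_lit 419890) (nat_lit 0) .nil) .nil))))) (.nd (nat_lit 8) (.nd (nat_lit 9) 
(.lf (nat_lit 600284) (.g (nat_lit 2264) (.e (nat_lit 557095) (nat_lit 13) (.e (nat_lit 172115) (nat_lit 10) (.e (nat_lit 434231) (nat_lit 23) (.e (nat_lit 532535) (nat_lit 9) (.e (nat_lit 335905) (nat_lit 0) .nil))))) (.g (nat_lit 0) (.e (nat_lit 419179) (nat_lit 0) .nil) .nil))) 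
(.lf (nat_lit 600796) (.g (nat_lit 4888) (.e (nat_lit 557101) (nat_lit 13) (.e (nat_lit 172115) (nat_lit 10) (.e (nat_lit 434231) (nat_lit 23) (.e (nat_lit 532569) (nat_lit 16) (.e (nat_lit 401451) (nat_lit 12) (.e (nat_lit 475184) (nat_lit 29) .nil)))))) (.g (nat_lit 1) (.e (nat_lit 419754) (nat_lit 0) .nil) .nil)))) (.nd (nat_lit 9) 
(.lf (nat_lit 600540) (.g (nat_lit 2730) (.e (nat_lit 557098) (nat_lit 13) (.e (nat_lit 172115) (nat_lit 10) (.e (nat_lit 434244) (nat_lit 28) (.e (nat_lit 573449) (nat_lit 9) (.e (nat_lit 455) (nat_lit 34) (.e (nat_lit 442372) (nat_lit 0) (.e (nat_lit 1855) (nat_lit 124) .nil))))))) (.g (nat_lit 1) (.e (nat_lit 419473) (nat_lit 0) .nil) .nil))) 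
(.lf (nat_lit 601052) (.g (nat_lit 3132) (.e (nat_lit 557105) (nat_lit 14) (.e (nat_lit 180252) (nat_lit 10) (.e (nat_lit 573474) (nat_lit 12) (.e (nat_lit 57503) (nat_lit 38) (.e (nat_lit 638984) (nat_lit 5) (.e (nat_lit 2466) (nat_lit 157) (.e (nat_lit 3307) (nat_lit 202) (.e (nat_lit 573489) (nat_lit 14) (.e (nat_lit 73755) (nat_lit 8) .nil))))))))) (.g (nat_lit 1) (.e (nat_lit 420101) (nat_lit 0) .nil) .nil))))))) 
(.nd (nat_lit 6) (.nd (nat_lit 7) (.nd (nat_lit 8) (.nd (nat_lit 9) 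
(.lf (nat_lit 600124) (.g (nat_lit 4995) (.e (nat_lit 557091) (nat_lit 12) (.e (nat_lit 164022) (nat_lit 46) (.e (nat_lit 704628) (nat_lit 9) (.e (nat_lit 375) (nat_lit 32) (.e (nat_lit 426140) (nat_lit 3) (.e (nat_lit 204855) (nat_lit 26) (.e (nat_lit 336176) (nat_lit 10) (.e (nat_lit 344133) (nat_lit 26) .nil)))))))) (.g (nat_lit 1) (.e (nat_lit 418931) (nat_lit 0) .nil) .nil))) 
(.lf (nat_lit 600636) (.g (nat_lit 2691) (.e (nat_lit 557100) (nat_lit 13) (.e (nat_lit 172106) (nat_lit 10) (.e (nat_lit 434231) (nat_lit 23) (.e (nat_lit 532490) (nat_lit 0) (.e (nat_lit 6674) (nat_lit 357) (.e (nat_lit 2936) (nat_lit 184) (.e (nat_lit 433920) (nat_lit 15) (.e (nat_lit 1858) (nat_lit 124) .nil)))))))) (.g (nat_lit 1) (.e (nat_lit 419581) (nat_lit 0) .nil) .nil)))) 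
(.nd (nat_lit 9) 
(.lf (nat_lit 600380) (.g (nat_lit 3655) (.e (nat_lit 557097) (nat_lit 13) (.e (nat_lit 172115) (nat_lit 10) (.e (nat_lit 434231) (nat_lit 23) (.e (nat_lit 532529) (nat_lit 9) (.e (nat_lit 336240) (nat_lit 15) (.e (nat_lit 3623) (nat_lit 227) (.e (nat_lit 778318) (nat_lit 3) (.e (nat_lit 57476) (nat_lit 28) .nil)))))))) (.g (nat_lit 1) (.e (nat_lit 419310) (nat_lit 0) .nil) .nil))) 
(.lf (nat_lit 600892) (.g (nat_lit 4561) (.e (nat_lit 557101) (nat_lit 13) (.e (nat_lit 172115) (nat_lit 10) (.e (nat_lit 434244) (nat_lit 28) (.e (nat_lit 573471) (nat_lit 11) (.e (nat_lit 16473) (nat_lit 14) (.e (nat_lit 491575) (nat_lit 15) (.e (nat_lit 7936) (nat_lit 200) .nil))))))) (.g (nat_lit 1) (.e (nat_lit 419850) (nat_lit 0) .nil) .nil))))) (.nd (nat_lit 8) (.nd (nat_lit 9) 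
(.lf (nat_lit 600252) (.g (nat_lit 2112) (.e (nat_lit 557094) (nat_lit 12) (.e (nat_lit 164022) (nat_lit 46) (.e (nat_lit 704629) (nat_lit 9) (.e (nat_lit 411) (nat_lit 32) (.e (nat_lit 426132) (nat_lit 3) .nil))))) (.g (nat_lit 0) (.e (nat_lit 419122) (nat_lit 0) .nil) .nil))) 
(.lf (nat_lit 600764) (.g (nat_lit 2071) (.e (nat_lit 557101) (nat_lit 13) (.e (nat_lit 172115) (nat_lit 10) (.e (nat_lit 434231) (nat_lit 23) (.e (nat_lit 532481) (nat_lit 0) (.e (nat_lit 6696) (nat_lit 357) .nil))))) (.g (nat_lit 0) (.e (nat_lit 419722) (nat_lit 0) .nil) .nil)))) (.nd (nat_lit 9) 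
(.lf (nat_lit 600508) (.g (nat_lit 2892) (.e (nat_lit 557098) (nat_lit 13) (.e (nat_lit 172115) (nat_lit 10) (.e (nat_lit 434231) (nat_lit 23) (.e (nat_lit 532490) (nat_lit 0) (.e (nat_lit 6676) (nat_lit 357) (.e (nat_lit 2857) (nat_lit 184) (.e (nat_lit 426402) (nat_lit 15) (.e (nat_lit 1859) (nat_lit 124) .nil)))))))) (.g (nat_lit 1) (.e (nat_lit 419441) (nat_lit 0) .nil) .nil))) 
(.lf (nat_lit 601020) (.g (nat_lit 3904) (.e (nat_lit 557105) (nat_lit 14) (.e (nat_lit 180252) (nat_lit 10) (.e (nat_lit 573473) (nat_lit 12) (.e (nat_lit 57500) (nat_lit 37) (.e (nat_lit 630799) (nat_lit 7) (.e (nat_lit 163977) (nat_lit 30) (.e (nat_lit 573489) (nat_lit 14) (.e (nat_lit 73755) (nat_lit 8) .nil)))))))) (.g (nat_lit 1) (.e (nat_lit 420029) (nat_lit 0) .nil) .nil)))))) 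
(.nd (nat_lit 7) (.nd (nat_lit 8) (.nd (nat_lit 9) 
(.lf (nat_lit 600188) (.g (nat_lit 3178) (.e (nat_lit 557093) (nat_lit 12) (.e (nat_lit 164018) (nat_lit 45) (.e (nat_lit 696330) (nat_lit 5) (.e (nat_lit 2980) (nat_lit 185) (.e (nat_lit 434231) (nat_lit 23) (.e (nat_lit 532550) (nat_lit 12) (.e (nat_lit 360474) (nat_lit 8) .nil))))))) (.g (nat_lit 1) (.e (nat_lit 419026) (nat_lit 0) .nil) .nil))) 
(.lf (nat_lit 600700) (.g (nat_lit 2503) (.e (nat_lit 557100) (nat_lit 13) (.e (nat_lit 172113) (nat_lit 10) (.e (nat_lit 434245) (nat_lit 28) (.e (nat_lit 573469) (nat_lit 11) (.e (nat_lit 16435) (nat_lit 9) (.e (nat_lit 433920) (nat_lit 15) (.e (nat_lit 1860) (nat_lit 124) .nil))))))) (.g (nat_lit 1) (.e (nat_lit 419645) (nat_lit 0) .nil) .nil)))) (.nd (nat_lit 9) 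
(.lf (nat_lit 600444) (.g (nat_lit 2373) (.e (nat_lit 557097) (nat_lit 13) (.e (nat_lit 172115) (nat_lit 10) (.e (nat_lit 434244) (nat_lit 28) (.e (nat_lit 573449) (nat_lit 9) (.e (nat_lit 455) (nat_lit 34) (.e (nat_lit 450304) (nat_lit 0) (.e (nat_lit 1849) (nat_lit 124) .nil))))))) (.g (nat_lit 1) (.e (nat_lit 419374) (nat_lit 0) .nil) .nil))) 
(.lf (nat_lit 600956) (.g (nat_lit 2365) (.e (nat_lit 557104) (nat_lit 14) (.e (nat_lit 180252) (nat_lit 10) (.e (nat_lit 573474) (nat_lit 12) (.e (nat_lit 57347) (nat_lit 0) (.e (nat_lit 5438) (nat_lit 306) .nil))))) (.g (nat_lit 0) (.e (nat_lit 419940) (nat_lit 0) .nil) .nil))))) (.nd (nat_lit 8) (.nd (nat_lit 9) 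
(.lf (nat_lit 600316) (.g (nat_lit 1324) (.e (nat_lit 557096) (nat_lit 13) (.e (nat_lit 172126) (nat_lit 14) (.e (nat_lit 491540) (nat_lit 3) (.e (nat_lit 98380) (nat_lit 31) (.e (nat_lit 474880) (nat_lit 0) .nil))))) (.g (nat_lit 0) (.e (nat_lit 419239) (nat_lit 0) .nil) .nil))) 
(.lf (nat_lit 600828) (.g (nat_lit 3221) (.e (nat_lit 557101) (nat_lit 13) (.e (nat_lit 172115) (nat_lit 10) (.e (nat_lit 434244) (nat_lit 28) (.e (nat_lit 573450) (nat_lit 9) (.e (nat_lit 375) (nat_lit 32) (.e (nat_lit 426191) (nat_lit 9) (.e (nat_lit 426354) (nat_lit 15) (.e (nat_lit 1860) (nat_lit 124) .nil)))))))) (.g (nat_lit 1) (.e (nat_lit 419786) (nat_lit 0) .nil) .nil)))) 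
(.nd (nat_lit 9) 
(.lf (nat_lit 600572) (.g (nat_lit 2922) (.e (nat_lit 557098) (nat_lit 13) (.e (nat_lit 172115) (nat_lit 10) (.e (nat_lit 434244) (nat_lit 28) (.e (nat_lit 573458) (nat_lit 9) (.e (nat_lit 394) (nat_lit 32) (.e (nat_lit 426197) (nat_lit 9) (.e (nat_lit 426402) (nat_lit 15) (.e (nat_lit 1859) (nat_lit 124) .nil)))))))) (.g (nat_lit 1) (.e (nat_lit 419507) (nat_lit 0) .nil) .nil))) 
(.lf (nat_lit 601084) (.g (nat_lit 1924) (.e (nat_lit 557105) (nat_lit 14) (.e (nat_lit 180252) (nat_lit 10) (.e (nat_lit 573480) (nat_lit 13) (.e (nat_lit 65568) (nat_lit 2) (.e (nat_lit 98048) (nat_lit 2) (.e (nat_lit 16385) (nat_lit 0) (.e (nat_lit 7936) (nat_lit 200) .nil))))))) (.g (nat_lit 1) (.e (nat_lit 420141) (nat_lit 0) .nil) .nil))))))))))) 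
(.nd (nat_lit 2) (.nd (nat_lit 3) (.nd (nat_lit 4) (.nd (nat_lit 5) (.nd (nat_lit 6) 
(.nd (nat_lit 7) (.nd (nat_lit 8) (.nd (nat_lit 9) 
(.lf (nat_lit 600066) (.g (nat_lit 4289) (.e (nat_lit 557090) (nat_lit 12) (.e (nat_lit 163847) (nat_lit 0) (.e (nat_lit 6420) (nat_lit 341) (.e (nat_lit 163900) (nat_lit 12) (.e (nat_lit 426125) (nat_lit 2) (.e (nat_lit 196666) (nat_lit 13) (.e (nat_lit 65617) (nat_lit 10) (.e (nat_lit 344130) (nat_lit 26) .nil)))))))) (.g (nat_lit 1) (.e (nat_lit 418809) (nat_lit 0) .nil) .nil))) 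
(.lf (nat_lit 600578) (.g (nat_lit 2668) (.e (nat_lit 557098) (nat_lit 13) (.e (nat_lit 172115) (nat_lit 10) (.e (nat_lit 434244) (nat_lit 28) (.e (nat_lit 573468) (nat_lit 10) (.e (nat_lit 8524) (nat_lit 205) .nil))))) (.g (nat_lit 0) (.e (nat_lit 419513) (nat_lit 0) .nil) .nil)))) (.nd (nat_lit 9) 
(.lf (nat_lit 600322) (.g (nat_lit 2049) (.e (nat_lit 557097) (nat_lit 13) (.e (nat_lit 172097) (nat_lit 9) (.e (nat_lit 426125) (nat_lit 2) (.e (nat_lit 196630) (nat_lit 9) (.e (nat_lit 1667) (nat_lit 116) .nil))))) (.g (nat_lit 0) (.e (nat_lit 419252) (nat_lit 0) .nil) .nil))) 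
(.lf (nat_lit 600834) (.g (nat_lit 2406) (.e (nat_lit 557101) (nat_lit 13) (.e (nat_lit 172115) (nat_lit 10) (.e (nat_lit 434244) (nat_lit 28) (.e (nat_lit 573450) (nat_lit 9) (.e (nat_lit 386) (nat_lit 32) (.e (nat_lit 433920) (nat_lit 12) (.e (nat_lit 475185) (nat_lit 29) .nil))))))) (.g (nat_lit 1) (.e (nat_lit 419792) (nat_lit 0) .nil) .nil))))) (.nd (nat_lit 8) (.nd (nat_lit 9) 
(.lf (nat_lit 600194) (.g (nat_lit 3821) (.e (nat_lit 557093) (nat_lit 12) (.e (nat_lit 164018) (nat_lit 45) (.e (nat_lit 696344) (nat_lit 8) (.e (nat_lit 172065) (nat_lit 3) (.e (nat_lit 204855) (nat_lit 26) (.e (nat_lit 336176) (nat_lit 10) (.e (nat_lit 344132) (nat_lit 26) .nil))))))) (.g (nat_lit 1) (.e (nat_lit 419032) (nat_lit 0) .nil) .nil))) 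
(.lf (nat_lit 600706) (.g (nat_lit 1709) (.e (nat_lit 557100) (nat_lit 13) (.e (nat_lit 172113) (nat_lit 10) (.e (nat_lit 434245) (nat_lit 28) (.e (nat_lit 573471) (nat_lit 11) (.e (nat_lit 16434) (nat_lit 9) .nil))))) (.g (nat_lit 0) (.e (nat_lit 419651) (nat_lit 0) .nil) .nil)))) (.nd (nat_lit 9) 
(.lf (nat_lit 600450) (.g (nat_lit 2578) (.e (nat_lit 557097) (nat_lit 13) (.e (nat_lit 172115) (nat_lit 10) (.e (nat_lit 434244) (nat_lit 28) (.e (nat_lit 573450) (nat_lit 9) (.e (nat_lit 389) (nat_lit 32) (.e (nat_lit 426197) (nat_lit 9) (.e (nat_lit 426402) (nat_lit 15) (.e (nat_lit 1849) (nat_lit 124) .nil)))))))) (.g (nat_lit 1) (.e (nat_lit 419380) (nat_lit 0) .nil) .nil))) 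
(.lf (nat_lit 600962) (.g (nat_lit 3410) (.e (nat_lit 557104) (nat_lit 14) (.e (nat_lit 180252) (nat_lit 10) (.e (nat_lit 573474) (nat_lit 12) (.e (nat_lit 57507) (nat_lit 39) (.e (nat_lit 647170) (nat_lit 0) (.e (nat_lit 2685) (nat_lit 168) (.e (nat_lit 204864) (nat_lit 27) (.e (nat_lit 344130) (nat_lit 26) .nil)))))))) (.g (nat_lit 1) (.e (nat_lit 419946) (nat_lit 0) .nil) .nil)))))) 
(.nd (nat_lit 7) (.nd (nat_lit 8) (.nd (nat_lit 9) 
(.lf (nat_lit 600130) (.g (nat_lit 2112) (.e (nat_lit 557091) (nat_lit 12) (.e (nat_lit 164022) (nat_lit 46) (.e (nat_lit 704629) (nat_lit 9) (.e (nat_lit 411) (nat_lit 32) (.e (nat_lit 426132) (nat_lit 3) .nil))))) (.g (nat_lit 0) (.e (nat_lit 418938) (nat_lit 0) .nil) .nil))) 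
(.lf (nat_lit 600642) (.g (nat_lit 4512) (.e (nat_lit 557100) (nat_lit 13) (.e (nat_lit 172106) (nat_lit 10) (.e (nat_lit 434231) (nat_lit 23) (.e (nat_lit 532490) (nat_lit 0) (.e (nat_lit 6680) (nat_lit 357) (.e (nat_lit 2857) (nat_lit 184) (.e (nat_lit 426402) (nat_lit 15) (.e (nat_lit 1858) (nat_lit 124) .nil)))))))) (.g (nat_lit 1) (.e (nat_lit 419587) (nat_lit 0) .nil) .nil)))) 
(.nd (nat_lit 9) 
(.lf (nat_lit 600386) (.g (nat_lit 3409) (.e (nat_lit 557097) (nat_lit 13) (.e (nat_lit 172115) (nat_lit 10) (.e (nat_lit 434231) (nat_lit 23) (.e (nat_lit 532529) (nat_lit 9) (.e (nat_lit 336257) (nat_lit 15) (.e (nat_lit 3622) (nat_lit 227) (.e (nat_lit 778318) (nat_lit 3) (.e (nat_lit 57476) (nat_lit 28) .nil)))))))) (.g (nat_lit 1) (.e (nat_lit 419316) (nat_lit 0) .nil) .nil))) 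
(.lf (nat_lit 600898) (.g (nat_lit 4275) (.e (nat_lit 557101) (nat_lit 13) (.e (nat_lit 172115) (nat_lit 10) (.e (nat_lit 434244) (nat_lit 28) (.e (nat_lit 573474) (nat_lit 12) (.e (nat_lit 57348) (nat_lit 0) (.e (nat_lit 6938) (nat_lit 375) (.e (nat_lit 163939) (nat_lit 18) (.e (nat_lit 475185) (nat_lit 29) .nil)))))))) (.g (nat_lit 1) (.e (nat_lit 419856) (nat_lit 0) .nil) .nil))))) 
(.nd (nat_lit 8) (.nd (nat_lit 9) 
(.lf (nat_lit 600258) (.g (nat_lit 1236) (.e (nat_lit 557094) (nat_lit 12) (.e (nat_lit 164022) (nat_lit 46) (.e (nat_lit 704629) (nat_lit 9) (.e (nat_lit 452) (nat_lit 33) .nil)))) (.g (nat_lit 0) (.e (nat_lit 419129) (nat_lit 0) .nil) .nil))) 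
(.lf (nat_lit 600770) (.g (nat_lit 2831) (.e (nat_lit 557101) (nat_lit 13) (.e (nat_lit 172115) (nat_lit 10) (.e (nat_lit 434231) (nat_lit 23) (.e (nat_lit 532490) (nat_lit 0) (.e (nat_lit 6676) (nat_lit 357) (.e (nat_lit 3067) (nat_lit 190) (.e (nat_lit 475183) (nat_lit 29) .nil))))))) (.g (nat_lit 1) (.e (nat_lit 419728) (nat_lit 0) .nil) .nil)))) (.nd (nat_lit 9) 
(.lf (nat_lit 600514) (.g (nat_lit 2853) (.e (nat_lit 557098) (nat_lit 13) (.e (nat_lit 172115) (nat_lit 10) (.e (nat_lit 434231) (nat_lit 23) (.e (nat_lit 532490) (nat_lit 0) (.e (nat_lit 6680) (nat_lit 357) (.e (nat_lit 2857) (nat_lit 184) (.e (nat_lit 426402) (nat_lit 15) (.e (nat_lit 1849) (nat_lit 124) .nil)))))))) (.g (nat_lit 1) (.e (nat_lit 419447) (nat_lit 0) .nil) .nil))) 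
(.lf (nat_lit 601026) (.g (nat_lit 5680) (.e (nat_lit 557105) (nat_lit 14) (.e (nat_lit 180252) (nat_lit 10) (.e (nat_lit 573473) (nat_lit 12) (.e (nat_lit 57503) (nat_lit 38) (.e (nat_lit 638995) (nat_lit 7) (.e (nat_lit 163978) (nat_lit 30) (.e (nat_lit 573489) (nat_lit 14) (.e (nat_lit 73755) (nat_lit 8) .nil)))))))) (.g (nat_lit 1) (.e (nat_lit 420035) (nat_lit 0) .nil) .nil))))))) 
(.nd (nat_lit 6) (.nd (nat_lit 7) (.nd (nat_lit 8) (.nd (nat_lit 9) 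
(.lf (nat_lit 600098) (.g (nat_lit 5607) (.e (nat_lit 557091) (nat_lit 12) (.e (nat_lit 163843) (nat_lit 0) (.e (nat_lit 6255) (nat_lit 337) (.e (nat_lit 2630) (nat_lit 164) (.e (nat_lit 172065) (nat_lit 3) (.e (nat_lit 204869) (nat_lit 29) (.e (nat_lit 360475) (nat_lit 8) .nil))))))) (.g (nat_lit 1) (.e (nat_lit 418885) (nat_lit 0) .nil) .nil))) 
(.lf (nat_lit 600610) (.g (nat_lit 1558) (.e (nat_lit 557099) (nat_lit 13) (.e (nat_lit 172126) (nat_lit 14) (.e (nat_lit 491537) (nat_lit 2) (.e (nat_lit 90185) (nat_lit 17) .nil)))) (.g (nat_lit 0) (.e (nat_lit 419548) (nat_lit 0) .nil) .nil)))) (.nd (nat_lit 9) 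
(.lf (nat_lit 600354) (.g (nat_lit 2949) (.e (nat_lit 557097) (nat_lit 13) (.e (nat_lit 172115) (nat_lit 10) (.e (nat_lit 434231) (nat_lit 23) (.e (nat_lit 532481) (nat_lit 0) (.e (nat_lit 6691) (nat_lit 357) (.e (nat_lit 2854) (nat_lit 184) (.e (nat_lit 426402) (nat_lit 15) (.e (nat_lit 1848) (nat_lit 124) .nil)))))))) (.g (nat_lit 1) (.e (nat_lit 419284) (nat_lit 0) .nil) .nil))) 
(.lf (nat_lit 600866) (.g (nat_lit 1471) (.e (nat_lit 557101) (nat_lit 13) (.e (nat_lit 172115) (nat_lit 10) (.e (nat_lit 434244) (nat_lit 28) (.e (nat_lit 573453) (nat_lit 9) .nil)))) (.g (nat_lit 0) (.e (nat_lit 419824) (nat_lit 0) .nil) .nil))))) (.nd (nat_lit 8) (.nd (nat_lit 9) 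
(.lf (nat_lit 600226) (.g (nat_lit 2409) (.e (nat_lit 557093) (nat_lit 12) (.e (nat_lit 164023) (nat_lit 46) (.e (nat_lit 704629) (nat_lit 9) (.e (nat_lit 442) (nat_lit 33) (.e (nat_lit 434232) (nat_lit 23) .nil))))) (.g (nat_lit 0) (.e (nat_lit 419067) (nat_lit 0) .nil) .nil))) 
(.lf (nat_lit 600738) (.g (nat_lit 3692) (.e (nat_lit 557101) (nat_lit 13) (.e (nat_lit 172097) (nat_lit 9) (.e (nat_lit 426125) (nat_lit 2) (.e (nat_lit 196661) (nat_lit 12) (.e (nat_lit 57751) (nat_lit 201) (.e (nat_lit 3067) (nat_lit 190) (.e (nat_lit 475184) (nat_lit 29) .nil))))))) (.g (nat_lit 1) (.e (nat_lit 419696) (nat_lit 0) .nil) .nil)))) (.nd (nat_lit 9) 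
(.lf (nat_lit 600482) (.g (nat_lit 804) (.e (nat_lit 557098) (nat_lit 13) (.e (nat_lit 172067) (nat_lit 3) (.e (nat_lit 204829) (nat_lit 18) .nil))) (.g (nat_lit 0) (.e (nat_lit 419415) (nat_lit 0) .nil) .nil))) 
(.lf (nat_lit 600994) (.g (nat_lit 2425) (.e (nat_lit 557105) (nat_lit 14) (.e (nat_lit 180251) (nat_lit 10) (.e (nat_lit 573484) (nat_lit 13) (.e (nat_lit 65571) (nat_lit 3) (.e (nat_lit 106240) (nat_lit 7) .nil))))) (.g (nat_lit 0) (.e (nat_lit 419982) (nat_lit 0) .nil) .nil)))))) (.nd (nat_lit 7) (.nd (nat_lit 8) (.nd (nat_lit 9) 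
(.lf (nat_lit 600162) (.g (nat_lit 3507) (.e (nat_lit 557093) (nat_lit 12) (.e (nat_lit 163849) (nat_lit 0) (.e (nat_lit 6255) (nat_lit 337) (.e (nat_lit 2725) (nat_lit 172) (.e (nat_lit 237592) (nat_lit 3) (.e (nat_lit 204869) (nat_lit 29) (.e (nat_lit 360474) (nat_lit 8) .nil))))))) (.g (nat_lit 1) (.e (nat_lit 418985) (nat_lit 0) .nil) .nil))) 
(.lf (nat_lit 600674) (.g (nat_lit 4816) (.e (nat_lit 557100) (nat_lit 13) (.e (nat_lit 172106) (nat_lit 10) (.e (nat_lit 434231) (nat_lit 23) (.e (nat_lit 532568) (nat_lit 16) (.e (nat_lit 401450) (nat_lit 12) (.e (nat_lit 475185) (nat_lit 29) .nil)))))) (.g (nat_lit 1) (.e (nat_lit 419619) (nat_lit 0) .nil) .nil)))) (.nd (nat_lit 9) 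
(.lf (nat_lit 600418) (.g (nat_lit 3833) (.e (nat_lit 557097) (nat_lit 13) (.e (nat_lit 172115) (nat_lit 10) (.e (nat_lit 434231) (nat_lit 23) (.e (nat_lit 532529) (nat_lit 9) (.e (nat_lit 336306) (nat_lit 15) (.e (nat_lit 3620) (nat_lit 227) (.e (nat_lit 778318) (nat_lit 3) (.e (nat_lit 57476) (nat_lit 28) .nil)))))))) (.g (nat_lit 1) (.e (nat_lit 419348) (nat_lit 0) .nil) .nil))) 
(.lf (nat_lit 600930) (.g (nat_lit 2689) (.e (nat_lit 557103) (nat_lit 14) (.e (nat_lit 180250) (nat_lit 10) (.e (nat_lit 573482) (nat_lit 13) (.e (nat_lit 65568) (nat_lit 2) (.e (nat_lit 98048) (nat_lit 2) (.e (nat_lit 16392) (nat_lit 0) (.e (nat_lit 3281) (nat_lit 200) .nil))))))) (.g (nat_lit 1) (.e (nat_lit 419896) (nat_lit 0) .nil) .nil))))) (.nd (nat_lit 8) (.nd (nat_lit 9) 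
(.lf (nat_lit 600290) (.g (nat_lit 2406) (.e (nat_lit 557095) (nat_lit 13) (.e (nat_lit 172115) (nat_lit 10) (.e (nat_lit 434231) (nat_lit 23) (.e (nat_lit 532563) (nat_lit 15) (.e (nat_lit 385093) (nat_lit 49) .nil))))) (.g (nat_lit 0) (.e (nat_lit 419186) (nat_lit 0) .nil) .nil))) 
(.lf (nat_lit 600802) (.g (nat_lit 2279) (.e (nat_lit 557101) (nat_lit 13) (.e (nat_lit 172115) (nat_lit 10) (.e (nat_lit 434238) (nat_lit 25) (.e (nat_lit 548898) (nat_lit 14) (.e (nat_lit 2998) (nat_lit 186) (.e (nat_lit 450304) (nat_lit 0) (.e (nat_lit 1853) (nat_lit 124) .nil))))))) (.g (nat_lit 1) (.e (nat_lit 419760) (nat_lit 0) .nil) .nil)))) (.nd (nat_lit 9) 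
(.lf (nat_lit 600546) (.g (nat_lit 2429) (.e (nat_lit 557098) (nat_lit 13) (.e (nat_lit 172115) (nat_lit 10) (.e (nat_lit 434244) (nat_lit 28) (.e (nat_lit 573449) (nat_lit 9) (.e (nat_lit 479) (nat_lit 37) (.e (nat_lit 474880) (nat_lit 0) (.e (nat_lit 1859) (nat_lit 124) .nil))))))) (.g (nat_lit 1) (.e (nat_lit 419480) (nat_lit 0) .nil) .nil))) 
(.lf (nat_lit 601058) (.g (nat_lit 6239) (.e (nat_lit 557105) (nat_lit 14) (.e (nat_lit 180252) (nat_lit 10) (.e (nat_lit 573474) (nat_lit 12) (.e (nat_lit 57503) (nat_lit 38) (.e (nat_lit 638995) (nat_lit 7) (.e (nat_lit 163979) (nat_lit 30) (.e (nat_lit 573489) (nat_lit 14) (.e (nat_lit 73755) (nat_lit 8) .nil)))))))) (.g (nat_lit 1) (.e (nat_lit 420107) (nat_lit 0) .nil) .nil)))))))) 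
(.nd (nat_lit 5) (.nd (nat_lit 6) (.nd (nat_lit 7) (.nd (nat_lit 8) (.nd (nat_lit 9) 
(.lf (nat_lit 600082) (.g (nat_lit 4381) (.e (nat_lit 557090) (nat_lit 12) (.e (nat_lit 164018) (nat_lit 45) (.e (nat_lit 696343) (nat_lit 8) (.e (nat_lit 172067) (nat_lit 3) (.e (nat_lit 204855) (nat_lit 26) (.e (nat_lit 336176) (nat_lit 10) (.e (nat_lit 344130) (nat_lit 26) .nil))))))) (.g (nat_lit 1) (.e (nat_lit 418855) (nat_lit 0) .nil) .nil))) 
(.lf (nat_lit 600594) (.g (nat_lit 2047) (.e (nat_lit 557098) (nat_lit 13) (.e (nat_lit 172126) (nat_lit 14) (.e (nat_lit 491537) (nat_lit 2) (.e (nat_lit 90134) (nat_lit 9) .nil)))) (.g (nat_lit 0) (.e (nat_lit 419529) (nat_lit 0) .nil) .nil)))) (.nd (nat_lit 9) 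
(.lf (nat_lit 600338) (.g (nat_lit 3513) (.e (nat_lit 557097) (nat_lit 13) (.e (nat_lit 172097) (nat_lit 9) (.e (nat_lit 426125) (nat_lit 2) (.e (nat_lit 196666) (nat_lit 13) (.e (nat_lit 65640) (nat_lit 15) (.e (nat_lit 3629) (nat_lit 227) (.e (nat_lit 778318) (nat_lit 3) (.e (nat_lit 57476) (nat_lit 28) .nil)))))))) (.g (nat_lit 1) (.e (nat_lit 419268) (nat_lit 0) .nil) .nil))) 
(.lf (nat_lit 600850) (.g (nat_lit 3001) (.e (nat_lit 557101) (nat_lit 13) (.e (nat_lit 172115) (nat_lit 10) (.e (nat_lit 434244) (nat_lit 28) (.e (nat_lit 573450) (nat_lit 9) (.e (nat_lit 460) (nat_lit 34) (.e (nat_lit 442378) (nat_lit 0) (.e (nat_lit 1856) (nat_lit 124) .nil))))))) (.g (nat_lit 1) (.e (nat_lit 419808) (nat_lit 0) .nil) .nil))))) (.nd (nat_lit 8) (.nd (nat_lit 9) 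
(.lf (nat_lit 600210) (.g (nat_lit 3605) (.e (nat_lit 557093) (nat_lit 12) (.e (nat_lit 164022) (nat_lit 46) (.e (nat_lit 704629) (nat_lit 9) (.e (nat_lit 442) (nat_lit 33) (.e (nat_lit 434223) (nat_lit 19) .nil))))) (.g (nat_lit 0) (.e (nat_lit 419050) (nat_lit 0) .nil) .nil))) 
(.lf (nat_lit 600722) (.g (nat_lit 2572) (.e (nat_lit 557100) (nat_lit 13) (.e (nat_lit 172113) (nat_lit 10) (.e (nat_lit 434248) (nat_lit 28) (.e (nat_lit 573471) (nat_lit 11) (.e (nat_lit 16432) (nat_lit 9) .nil))))) (.g (nat_lit 0) (.e (nat_lit 419667) (nat_lit 0) .nil) .nil)))) (.nd (nat_lit 9) 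
(.lf (nat_lit 600466) (.g (nat_lit 3527) (.e (nat_lit 557097) (nat_lit 13) (.e (nat_lit 172115) (nat_lit 10) (.e (nat_lit 434244) (nat_lit 28) (.e (nat_lit 573458) (nat_lit 9) (.e (nat_lit 422) (nat_lit 32) (.e (nat_lit 426198) (nat_lit 9) (.e (nat_lit 426402) (nat_lit 15) (.e (nat_lit 1848) (nat_lit 124) .nil)))))))) (.g (nat_lit 1) (.e (nat_lit 419396) (nat_lit 0) .nil) .nil))) 
(.lf (nat_lit 600978) (.g (nat_lit 3290) (.e (nat_lit 557104) (nat_lit 14) (.e (nat_lit 180252) (nat_lit 10) (.e (nat_lit 573482) (nat_lit 13) (.e (nat_lit 65644) (nat_lit 22) (.e (nat_lit 245776) (nat_lit 4) (.e (nat_lit 172036) (nat_lit 0) (.e (nat_lit 3281) (nat_lit 200) .nil))))))) (.g (nat_lit 1) (.e (nat_lit 419962) (nat_lit 0) .nil) .nil)))))) 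
(.nd (nat_lit 7) (.nd (nat_lit 8) (.nd (nat_lit 9) 
(.lf (nat_lit 600146) (.g (nat_lit 4019) (.e (nat_lit 557093) (nat_lit 12) (.e (nat_lit 163848) (nat_lit 0) (.e (nat_lit 6416) (nat_lit 341) (.e (nat_lit 163900) (nat_lit 12) (.e (nat_lit 426125) (nat_lit 2) (.e (nat_lit 196666) (nat_lit 13) (.e (nat_lit 65617) (nat_lit 10) (.e (nat_lit 344132) (nat_lit 26) .nil)))))))) (.g (nat_lit 1) (.e (nat_lit 418961) (nat_lit 0) .nil) .nil))) 
(.lf (nat_lit 600658) (.g (nat_lit 4078) (.e (nat_lit 557100) (nat_lit 13) (.e (nat_lit 172106) (nat_lit 10) (.e (nat_lit 434231) (nat_lit 23) (.e (nat_lit 532535) (nat_lit 9) (.e (nat_lit 336253) (nat_lit 15) (.e (nat_lit 3715) (nat_lit 227) (.e (nat_lit 778316) (nat_lit 3) (.e (nat_lit 57479) (nat_lit 28) .nil)))))))) (.g (nat_lit 1) (.e (nat_lit 419603) (nat_lit 0) .nil) .nil)))) 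
(.nd (nat_lit 9) 
(.lf (nat_lit 600402) (.g (nat_lit 3984) (.e (nat_lit 557097) (nat_lit 13) (.e (nat_lit 172115) (nat_lit 10) (.e (nat_lit 434231) (nat_lit 23) (.e (nat_lit 532529) (nat_lit 9) (.e (nat_lit 336261) (nat_lit 15) (.e (nat_lit 3634) (nat_lit 227) (.e (nat_lit 778318) (nat_lit 3) (.e (nat_lit 57476) (nat_lit 28) .nil)))))))) (.g (nat_lit 1) (.e (nat_lit 419332) (nat_lit 0) .nil) .nil))) 
(.lf (nat_lit 600914) (.g (nat_lit 2586) (.e (nat_lit 557103) (nat_lit 14) (.e (nat_lit 180250) (nat_lit 10) (.e (nat_lit 573474) (nat_lit 12) (.e (nat_lit 57500) (nat_lit 37) (.e (nat_lit 630800) (nat_lit 7) .nil))))) (.g (nat_lit 0) (.e (nat_lit 419880) (nat_lit 0) .nil) .nil))))) (.nd (nat_lit 8) (.nd (nat_lit 9) 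
(.lf (nat_lit 600274) (.g (nat_lit 2815) (.e (nat_lit 557095) (nat_lit 13) (.e (nat_lit 172106) (nat_lit 10) (.e (nat_lit 434231) (nat_lit 23) (.e (nat_lit 532535) (nat_lit 9) (.e (nat_lit 336295) (nat_lit 15) .nil))))) (.g (nat_lit 0) (.e (nat_lit 419155) (nat_lit 0) .nil) .nil))) 
(.lf (nat_lit 600786) (.g (nat_lit 3908) (.e (nat_lit 557101) (nat_lit 13) (.e (nat_lit 172115) (nat_lit 10) (.e (nat_lit 434231) (nat_lit 23) (.e (nat_lit 532535) (nat_lit 9) (.e (nat_lit 336290) (nat_lit 15) (.e (nat_lit 3711) (nat_lit 227) (.e (nat_lit 778316) (nat_lit 3) (.e (nat_lit 57479) (nat_lit 28) .nil)))))))) (.g (nat_lit 1) (.e (nat_lit 419744) (nat_lit 0) .nil) .nil)))) 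
(.nd (nat_lit 9) 
(.lf (nat_lit 600530) (.g (nat_lit 3920) (.e (nat_lit 557098) (nat_lit 13) (.e (nat_lit 172115) (nat_lit 10) (.e (nat_lit 434231) (nat_lit 23) (.e (nat_lit 532535) (nat_lit 9) (.e (nat_lit 336289) (nat_lit 15) (.e (nat_lit 3716) (nat_lit 227) (.e (nat_lit 778316) (nat_lit 3) (.e (nat_lit 57480) (nat_lit 28) .nil)))))))) (.g (nat_lit 1) (.e (nat_lit 419463) (nat_lit 0) .nil) .nil))) 
(.lf (nat_lit 601042) (.g (nat_lit 3351) (.e (nat_lit 557105) (nat_lit 14) (.e (nat_lit 180252) (nat_lit 10) (.e (nat_lit 573474) (nat_lit 12) (.e (nat_lit 57347) (nat_lit 0) (.e (nat_lit 5438) (nat_lit 306) (.e (nat_lit 2604) (nat_lit 163) (.e (nat_lit 163962) (nat_lit 25) (.e (nat_lit 532544) (nat_lit 10) (.e (nat_lit 344132) (nat_lit 26) .nil))))))))) (.g (nat_lit 1) (.e (nat_lit 420065) (nat_lit 0) .nil) .nil))))))) 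
(.nd (nat_lit 6) (.nd (nat_lit 7) (.nd (nat_lit 8) (.nd (nat_lit 9) 
(.lf (nat_lit 600114) (.g (nat_lit 5344) (.e (nat_lit 557091) (nat_lit 12) (.e (nat_lit 164020) (nat_lit 45) (.e (nat_lit 696329) (nat_lit 5) (.e (nat_lit 2884) (nat_lit 184) (.e (nat_lit 426140) (nat_lit 3) (.e (nat_lit 204869) (nat_lit 29) (.e (nat_lit 360474) (nat_lit 8) .nil))))))) (.g (nat_lit 1) (.e (nat_lit 418915) (nat_lit 0) .nil) .nil))) 
(.lf (nat_lit 600626) (.g (nat_lit 3081) (.e (nat_lit 557100) (nat_lit 13) (.e (nat_lit 172106) (nat_lit 10) (.e (nat_lit 434231) (nat_lit 23) (.e (nat_lit 532481) (nat_lit 0) (.e (nat_lit 6693) (nat_lit 357) (.e (nat_lit 2866) (nat_lit 184) (.e (nat_lit 426412) (nat_lit 15) (.e (nat_lit 1856) (nat_lit 124) .nil)))))))) (.g (nat_lit 1) (.e (nat_lit 419571) (nat_lit 0) .nil) .nil)))) 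
(.nd (nat_lit 9) 
(.lf (nat_lit 600370) (.g (nat_lit 3142) (.e (nat_lit 557097) (nat_lit 13) (.e (nat_lit 172115) (nat_lit 10) (.e (nat_lit 434231) (nat_lit 23) (.e (nat_lit 532490) (nat_lit 0) (.e (nat_lit 6676) (nat_lit 357) (.e (nat_lit 3067) (nat_lit 190) (.e (nat_lit 475183) (nat_lit 29) .nil))))))) (.g (nat_lit 1) (.e (nat_lit 419300) (nat_lit 0) .nil) .nil))) 
(.lf (nat_lit 600882) (.g (nat_lit 3245) (.e (nat_lit 557101) (nat_lit 13) (.e (nat_lit 172115) (nat_lit 10) (.e (nat_lit 434244) (nat_lit 28) (.e (nat_lit 573468) (nat_lit 10) (.e (nat_lit 8524) (nat_lit 205) (.e (nat_lit 3067) (nat_lit 190) (.e (nat_lit 475184) (nat_lit 29) .nil))))))) (.g (nat_lit 1) (.e (nat_lit 419840) (nat_lit 0) .nil) .nil))))) (.nd (nat_lit 8) (.nd (nat_lit 9) 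
(.lf (nat_lit 600242) (.g (nat_lit 3038) (.e (nat_lit 557094) (nat_lit 12) (.e (nat_lit 163852) (nat_lit 0) (.e (nat_lit 6427) (nat_lit 342) (.e (nat_lit 229399) (nat_lit 12) (.e (nat_lit 426140) (nat_lit 3) (.e (nat_lit 204869) (nat_lit 29) (.e (nat_lit 360474) (nat_lit 8) .nil))))))) (.g (nat_lit 1) (.e (nat_lit 419088) (nat_lit 0) .nil) .nil))) 
(.lf (nat_lit 600754) (.g (nat_lit 2748) (.e (nat_lit 557101) (nat_lit 13) (.e (nat_lit 172097) (nat_lit 9) (.e (nat_lit 426140) (nat_lit 3) (.e (nat_lit 204883) (nat_lit 33) (.e (nat_lit 401454) (nat_lit 12) (.e (nat_lit 483072) (nat_lit 29) .nil)))))) (.g (nat_lit 1) (.e (nat_lit 419712) (nat_lit 0) .nil) .nil)))) (.nd (nat_lit 9) 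
(.lf (nat_lit 600498) (.g (nat_lit 2125) (.e (nat_lit 557098) (nat_lit 13) (.e (nat_lit 172115) (nat_lit 10) (.e (nat_lit 434231) (nat_lit 23) (.e (nat_lit 532481) (nat_lit 0) (.e (nat_lit 6647) (nat_lit 357) .nil))))) (.g (nat_lit 0) (.e (nat_lit 419431) (nat_lit 0) .nil) .nil))) 
(.lf (nat_lit 601010) (.g (nat_lit 1987) (.e (nat_lit 557105) (nat_lit 14) (.e (nat_lit 180251) (nat_lit 10) (.e (nat_lit 573485) (nat_lit 13) (.e (nat_lit 65568) (nat_lit 2) (.e (nat_lit 98048) (nat_lit 2) (.e (nat_lit 16399) (nat_lit 0) (.e (nat_lit 7936) (nat_lit 200) .nil))))))) (.g (nat_lit 1) (.e (nat_lit 419998) (nat_lit 0) .nil) .nil)))))) 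
(.nd (nat_lit 7) (.nd (nat_lit 8) (.nd (nat_lit 9) 
(.lf (nat_lit 600178) (.g (nat_lit 3199) (.e (nat_lit 557093) (nat_lit 12) (.e (nat_lit 164018) (nat_lit 45) (.e (nat_lit 696329) (nat_lit 5) (.e (nat_lit 2884) (nat_lit 184) (.e (nat_lit 426140) (nat_lit 3) (.e (nat_lit 204869) (nat_lit 29) (.e (nat_lit 360474) (nat_lit 8) .nil))))))) (.g (nat_lit 1) (.e (nat_lit 419013) (nat_lit 0) .nil) .nil))) 
(.lf (nat_lit 600690) (.g (nat_lit 3160) (.e (nat_lit 557100) (nat_lit 13) (.e (nat_lit 172106) (nat_lit 10) (.e (nat_lit 434244) (nat_lit 28) (.e (nat_lit 573451) (nat_lit 9) (.e (nat_lit 396) (nat_lit 32) (.e (nat_lit 426306) (nat_lit 12) (.e (nat_lit 475185) (nat_lit 29) .nil))))))) (.g (nat_lit 1) (.e (nat_lit 419635) (nat_lit 0) .nil) .nil)))) (.nd (nat_lit 9) 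
(.lf (nat_lit 600434) (.g (nat_lit 2166) (.e (nat_lit 557097) (nat_lit 13) (.e (nat_lit 172115) (nat_lit 10) (.e (nat_lit 434231) (nat_lit 23) (.e (nat_lit 532567) (nat_lit 16) (.e (nat_lit 401454) (nat_lit 12) (.e (nat_lit 483072) (nat_lit 29) .nil)))))) (.g (nat_lit 1) (.e (nat_lit 419364) (nat_lit 0) .nil) .nil))) 
(.lf (nat_lit 600946) (.g (nat_lit 3423) (.e (nat_lit 557104) (nat_lit 14) (.e (nat_lit 180250) (nat_lit 10) (.e (nat_lit 573474) (nat_lit 12) (.e (nat_lit 57503) (nat_lit 38) (.e (nat_lit 638996) (nat_lit 7) .nil))))) (.g (nat_lit 0) (.e (nat_lit 419930) (nat_lit 0) .nil) .nil))))) (.nd (nat_lit 8) (.nd (nat_lit 9) 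
(.lf (nat_lit 600306) (.g (nat_lit 1626) (.e (nat_lit 557096) (nat_lit 13) (.e (nat_lit 172126) (nat_lit 14) (.e (nat_lit 491537) (nat_lit 2) (.e (nat_lit 90133) (nat_lit 9) .nil)))) (.g (nat_lit 0) (.e (nat_lit 419229) (nat_lit 0) .nil) .nil))) 
(.lf (nat_lit 600818) (.g (nat_lit 2560) (.e (nat_lit 557101) (nat_lit 13) (.e (nat_lit 172115) (nat_lit 10) (.e (nat_lit 434244) (nat_lit 28) (.e (nat_lit 573449) (nat_lit 9) (.e (nat_lit 430) (nat_lit 32) (.e (nat_lit 426198) (nat_lit 9) (.e (nat_lit 426354) (nat_lit 15) (.e (nat_lit 1860) (nat_lit 124) .nil)))))))) (.g (nat_lit 1) (.e (nat_lit 419776) (nat_lit 0) .nil) .nil)))) 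
(.nd (nat_lit 9) 
(.lf (nat_lit 600562) (.g (nat_lit 2225) (.e (nat_lit 557098) (nat_lit 13) (.e (nat_lit 172115) (nat_lit 10) (.e (nat_lit 434244) (nat_lit 28) (.e (nat_lit 573450) (nat_lit 9) (.e (nat_lit 479) (nat_lit 37) (.e (nat_lit 474880) (nat_lit 0) (.e (nat_lit 1859) (nat_lit 124) .nil))))))) (.g (nat_lit 1) (.e (nat_lit 419497) (nat_lit 0) .nil) .nil))) 
(.lf (nat_lit 601074) (.g (nat_lit 2841) (.e (nat_lit 557105) (nat_lit 14) (.e (nat_lit 180252) (nat_lit 10) (.e (nat_lit 573475) (nat_lit 12) (.e (nat_lit 57347) (nat_lit 0) (.e (nat_lit 5590) (nat_lit 310) .nil))))) (.g (nat_lit 0) (.e (nat_lit 420131) (nat_lit 0) .nil) .nil))))))))) (.nd (nat_lit 4) (.nd (nat_lit 5) (.nd (nat_lit 6) (.nd (nat_lit 7) (.nd (nat_lit 8) (.nd (nat_lit 9) 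
(.lf (nat_lit 600074) (.g (nat_lit 2808) (.e (nat_lit 557090) (nat_lit 12) (.e (nat_lit 164038) (nat_lit 55) (.e (nat_lit 786176) (nat_lit 11) (.e (nat_lit 24604) (nat_lit 2) (.e (nat_lit 90176) (nat_lit 15) (.e (nat_lit 188439) (nat_lit 20) (.e (nat_lit 7936) (nat_lit 200) .nil))))))) (.g (nat_lit 1) (.e (nat_lit 418833) (nat_lit 0) .nil) .nil))) 
(.lf (nat_lit 600586) (.g (nat_lit 1497) (.e (nat_lit 557098) (nat_lit 13) (.e (nat_lit 172115) (nat_lit 10) (.e (nat_lit 434244) (nat_lit 28) (.e (nat_lit 573471) (nat_lit 11) (.e (nat_lit 16439) (nat_lit 9) .nil))))) (.g (nat_lit 0) (.e (nat_lit 419521) (nat_lit 0) .nil) .nil)))) (.nd (nat_lit 9) 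
(.lf (nat_lit 600330) (.g (nat_lit 3296) (.e (nat_lit 557097) (nat_lit 13) (.e (nat_lit 172097) (nat_lit 9) (.e (nat_lit 426125) (nat_lit 2) (.e (nat_lit 196661) (nat_lit 12) (.e (nat_lit 57751) (nat_lit 201) (.e (nat_lit 2855) (nat_lit 184) (.e (nat_lit 426402) (nat_lit 15) (.e (nat_lit 1849) (nat_lit 124) .nil)))))))) (.g (nat_lit 1) (.e (nat_lit 419260) (nat_lit 0) .nil) .nil))) 
(.lf (nat_lit 600842) (.g (nat_lit 2391) (.e (nat_lit 557101) (nat_lit 13) (.e (nat_lit 172115) (nat_lit 10) (.e (nat_lit 434244) (nat_lit 28) (.e (nat_lit 573450) (nat_lit 9) (.e (nat_lit 7936) (nat_lit 32) .nil))))) (.g (nat_lit 0) (.e (nat_lit 419800) (nat_lit 0) .nil) .nil))))) (.nd (nat_lit 8) (.nd (nat_lit 9) 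
(.lf (nat_lit 600202) (.g (nat_lit 5599) (.e (nat_lit 557093) (nat_lit 12) (.e (nat_lit 164022) (nat_lit 46) (.e (nat_lit 704629) (nat_lit 9) (.e (nat_lit 375) (nat_lit 32) (.e (nat_lit 426125) (nat_lit 2) (.e (nat_lit 196666) (nat_lit 13) (.e (nat_lit 65610) (nat_lit 10) (.e (nat_lit 344128) (nat_lit 26) .nil)))))))) (.g (nat_lit 1) (.e (nat_lit 419041) (nat_lit 0) .nil) .nil))) 
(.lf (nat_lit 600714) (.g (nat_lit 2130) (.e (nat_lit 557100) (nat_lit 13) (.e (nat_lit 172113) (nat_lit 10) (.e (nat_lit 434247) (nat_lit 28) (.e (nat_lit 573469) (nat_lit 11) (.e (nat_lit 16437) (nat_lit 9) .nil))))) (.g (nat_lit 0) (.e (nat_lit 419659) (nat_lit 0) .nil) .nil)))) (.nd (nat_lit 9) 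
(.lf (nat_lit 600458) (.g (nat_lit 3111) (.e (nat_lit 557097) (nat_lit 13) (.e (nat_lit 172115) (nat_lit 10) (.e (nat_lit 434244) (nat_lit 28) (.e (nat_lit 573451) (nat_lit 9) (.e (nat_lit 430) (nat_lit 32) (.e (nat_lit 426190) (nat_lit 9) (.e (nat_lit 426402) (nat_lit 15) (.e (nat_lit 1849) (nat_lit 124) .nil)))))))) (.g (nat_lit 1) (.e (nat_lit 419388) (nat_lit 0) .nil) .nil))) 
(.lf (nat_lit 600970) (.g (nat_lit 3000) (.e (nat_lit 557104) (nat_lit 14) (.e (nat_lit 180252) (nat_lit 10) (.e (nat_lit 573481) (nat_lit 13) (.e (nat_lit 65568) (nat_lit 2) (.e (nat_lit 98048) (nat_lit 2) (.e (nat_lit 16388) (nat_lit 0) (.e (nat_lit 3280) (nat_lit 200) .nil))))))) (.g (nat_lit 1) (.e (nat_lit 419954) (nat_lit 0) .nil) .nil)))))) 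
(.nd (nat_lit 7) (.nd (nat_lit 8) (.nd (nat_lit 9) 
(.lf (nat_lit 600138) (.g (nat_lit 2372) (.e (nat_lit 557091) (nat_lit 12) (.e (nat_lit 164022) (nat_lit 46) (.e (nat_lit 704737) (nat_lit 11) (.e (nat_lit 16392) (nat_lit 0) (.e (nat_lit 7936) (nat_lit 197) (.e (nat_lit 532550) (nat_lit 12) (.e (nat_lit 360475) (nat_lit 8) .nil))))))) (.g (nat_lit 1) (.e (nat_lit 418946) (nat_lit 0) .nil) .nil))) 
(.lf (nat_lit 600650) (.g (nat_lit 2250) (.e (nat_lit 557100) (nat_lit 13) (.e (nat_lit 172106) (nat_lit 10) (.e (nat_lit 434231) (nat_lit 23) (.e (nat_lit 532500) (nat_lit 1) (.e (nat_lit 57762) (nat_lit 215) (.e (nat_lit 2509) (nat_lit 157) (.e (nat_lit 3062) (nat_lit 190) (.e (nat_lit 475185) (nat_lit 29) .nil)))))))) (.g (nat_lit 1) (.e (nat_lit 419595) (nat_lit 0) .nil) .nil)))) 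
(.nd (nat_lit 9) 
(.lf (nat_lit 600394) (.g (nat_lit 4023) (.e (nat_lit 557097) (nat_lit 13) (.e (nat_lit 172115) (nat_lit 10) (.e (nat_lit 434231) (nat_lit 23) (.e (nat_lit 532529) (nat_lit 9) (.e (nat_lit 336257) (nat_lit 15) (.e (nat_lit 3636) (nat_lit 227) (.e (nat_lit 778318) (nat_lit 3) (.e (nat_lit 57476) (nat_lit 28) .nil)))))))) (.g (nat_lit 1) (.e (nat_lit 419324) (nat_lit 0) .nil) .nil))) 
(.lf (nat_lit 600906) (.g (nat_lit 468) (.e (nat_lit 557103) (nat_lit 14) (.e (nat_lit 180243) (nat_lit 5) (.e (nat_lit 532501) (nat_lit 1) .nil))) (.g (nat_lit 0) (.e (nat_lit 419870) (nat_lit 0) .nil) .nil))))) (.nd (nat_lit 8) (.nd (nat_lit 9) 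
(.lf (nat_lit 600266) (.g (nat_lit 1839) (.e (nat_lit 557095) (nat_lit 13) (.e (nat_lit 172097) (nat_lit 9) (.e (nat_lit 426125) (nat_lit 2) (.e (nat_lit 196666) (nat_lit 13) (.e (nat_lit 65546) (nat_lit 0) .nil))))) (.g (nat_lit 0) (.e (nat_lit 419146) (nat_lit 0) .nil) .nil))) 
(.lf (nat_lit 600778) (.g (nat_lit 3482) (.e (nat_lit 557101) (nat_lit 13) (.e (nat_lit 172115) (nat_lit 10) (.e (nat_lit 434231) (nat_lit 23) (.e (nat_lit 532529) (nat_lit 9) (.e (nat_lit 336242) (nat_lit 15) (.e (nat_lit 3681) (nat_lit 227) (.e (nat_lit 786176) (nat_lit 3) (.e (nat_lit 57479) (nat_lit 28) .nil)))))))) (.g (nat_lit 1) (.e (nat_lit 419736) (nat_lit 0) .nil) .nil)))) 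
(.nd (nat_lit 9) 
(.lf (nat_lit 600522) (.g (nat_lit 3156) (.e (nat_lit 557098) (nat_lit 13) (.e (nat_lit 172115) (nat_lit 10) (.e (nat_lit 434231) (nat_lit 23) (.e (nat_lit 532529) (nat_lit 9) (.e (nat_lit 336296) (nat_lit 15) (.e (nat_lit 3711) (nat_lit 227) (.e (nat_lit 778316) (nat_lit 3) (.e (nat_lit 57480) (nat_lit 28) .nil)))))))) (.g (nat_lit 1) (.e (nat_lit 419455) (nat_lit 0) .nil) .nil))) 
(.lf (nat_lit 601034) (.g (nat_lit 2430) (.e (nat_lit 557105) (nat_lit 14) (.e (nat_lit 180252) (nat_lit 10) (.e (nat_lit 573473) (nat_lit 12) (.e (nat_lit 57507) (nat_lit 39) (.e (nat_lit 647180) (nat_lit 3) (.e (nat_lit 163962) (nat_lit 25) (.e (nat_lit 532544) (nat_lit 10) (.e (nat_lit 344132) (nat_lit 26) .nil)))))))) (.g (nat_lit 1) (.e (nat_lit 420043) (nat_lit 0) .nil) .nil))))))) 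
(.nd (nat_lit 6) (.nd (nat_lit 7) (.nd (nat_lit 8) (.nd (nat_lit 9) 
(.lf (nat_lit 600106) (.g (nat_lit 1480) (.e (nat_lit 557091) (nat_lit 12) (.e (nat_lit 163850) (nat_lit 0) (.e (nat_lit 6425) (nat_lit 342) (.e (nat_lit 229409) (nat_lit 13) .nil)))) (.g (nat_lit 0) (.e (nat_lit 418897) (nat_lit 0) .nil) .nil))) 
(.lf (nat_lit 600618) (.g (nat_lit 3798) (.e (nat_lit 557100) (nat_lit 13) (.e (nat_lit 172106) (nat_lit 10) (.e (nat_lit 434218) (nat_lit 19) (.e (nat_lit 499728) (nat_lit 0) (.e (nat_lit 2798) (nat_lit 180) (.e (nat_lit 303143) (nat_lit 12) (.e (nat_lit 475185) (nat_lit 29) .nil))))))) (.g (nat_lit 1) (.e (nat_lit 419563) (nat_lit 0) .nil) .nil)))) (.nd (nat_lit 9) 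
(.lf (nat_lit 600362) (.g (nat_lit 3305) (.e (nat_lit 557097) (nat_lit 13) (.e (nat_lit 172115) (nat_lit 10) (.e (nat_lit 434231) (nat_lit 23) (.e (nat_lit 532483) (nat_lit 0) (.e (nat_lit 6684) (nat_lit 357) .nil))))) (.g (nat_lit 0) (.e (nat_lit 419292) (nat_lit 0) .nil) .nil))) 
(.lf (nat_lit 600874) (.g (nat_lit 2926) (.e (nat_lit 557101) (nat_lit 13) (.e (nat_lit 172115) (nat_lit 10) (.e (nat_lit 434244) (nat_lit 28) (.e (nat_lit 573458) (nat_lit 9) (.e (nat_lit 394) (nat_lit 32) (.e (nat_lit 426197) (nat_lit 9) (.e (nat_lit 426402) (nat_lit 15) (.e (nat_lit 1858) (nat_lit 124) .nil)))))))) (.g (nat_lit 1) (.e (nat_lit 419832) (nat_lit 0) .nil) .nil))))) 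
(.nd (nat_lit 8) (.nd (nat_lit 9) 
(.lf (nat_lit 600234) (.g (nat_lit 3011) (.e (nat_lit 557094) (nat_lit 12) (.e (nat_lit 163847) (nat_lit 0) (.e (nat_lit 6416) (nat_lit 341) (.e (nat_lit 163900) (nat_lit 12) (.e (nat_lit 426140) (nat_lit 3) (.e (nat_lit 204869) (nat_lit 29) (.e (nat_lit 360474) (nat_lit 8) .nil))))))) (.g (nat_lit 1) (.e (nat_lit 419077) (nat_lit 0) .nil) .nil))) 
(.lf (nat_lit 600746) (.g (nat_lit 4047) (.e (nat_lit 557101) (nat_lit 13) (.e (nat_lit 172097) (nat_lit 9) (.e (nat_lit 426125) (nat_lit 2) (.e (nat_lit 196685) (nat_lit 18) .nil)))) (.g (nat_lit 0) (.e (nat_lit 419704) (nat_lit 0) .nil) .nil)))) (.nd (nat_lit 9) 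
(.lf (nat_lit 600490) (.g (nat_lit 2645) (.e (nat_lit 557098) (nat_lit 13) (.e (nat_lit 172105) (nat_lit 10) (.e (nat_lit 434244) (nat_lit 28) (.e (nat_lit 573458) (nat_lit 9) (.e (nat_lit 394) (nat_lit 32) (.e (nat_lit 426316) (nat_lit 12) (.e (nat_lit 475185) (nat_lit 29) .nil))))))) (.g (nat_lit 1) (.e (nat_lit 419423) (nat_lit 0) .nil) .nil))) 
(.lf (nat_lit 601002) (.g (nat_lit 2234) (.e (nat_lit 557105) (nat_lit 14) (.e (nat_lit 180251) (nat_lit 10) (.e (nat_lit 573485) (nat_lit 13) (.e (nat_lit 65568) (nat_lit 2) (.e (nat_lit 98048) (nat_lit 2) (.e (nat_lit 16390) (nat_lit 0) (.e (nat_lit 7936) (nat_lit 200) .nil))))))) (.g (nat_lit 1) (.e (nat_lit 419990) (nat_lit 0) .nil) .nil)))))) 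
(.nd (nat_lit 7) (.nd (nat_lit 8) (.nd (nat_lit 9) 
(.lf (nat_lit 600170) (.g (nat_lit 3275) (.e (nat_lit 557093) (nat_lit 12) (.e (nat_lit 164018) (nat_lit 45) (.e (nat_lit 696327) (nat_lit 5) (.e (nat_lit 2964) (nat_lit 185) (.e (nat_lit 434231) (nat_lit 23) (.e (nat_lit 532550) (nat_lit 12) (.e (nat_lit 360474) (nat_lit 8) .nil))))))) (.g (nat_lit 1) (.e (nat_lit 419003) (nat_lit 0) .nil) .nil))) 
(.lf (nat_lit 600682) (.g (nat_lit 2789) (.e (nat_lit 557100) (nat_lit 13) (.e (nat_lit 172106) (nat_lit 10) (.e (nat_lit 434238) (nat_lit 25) (.e (nat_lit 548898) (nat_lit 14) (.e (nat_lit 2842) (nat_lit 184) (.e (nat_lit 426317) (nat_lit 12) (.e (nat_lit 475185) (nat_lit 29) .nil))))))) (.g (nat_lit 1) (.e (nat_lit 419627) (nat_lit 0) .nil) .nil)))) (.nd (nat_lit 9) 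
(.lf (nat_lit 600426) (.g (nat_lit 3353) (.e (nat_lit 557097) (nat_lit 13) (.e (nat_lit 172115) (nat_lit 10) (.e (nat_lit 434231) (nat_lit 23) (.e (nat_lit 532529) (nat_lit 9) (.e (nat_lit 343808) (nat_lit 15) (.e (nat_lit 3627) (nat_lit 227) (.e (nat_lit 778318) (nat_lit 3) (.e (nat_lit 57476) (nat_lit 28) .nil)))))))) (.g (nat_lit 1) (.e (nat_lit 419356) (nat_lit 0) .nil) .nil))) 
(.lf (nat_lit 600938) (.g (nat_lit 2205) (.e (nat_lit 557104) (nat_lit 14) (.e (nat_lit 180244) (nat_lit 5) (.e (nat_lit 532499) (nat_lit 1) (.e (nat_lit 57652) (nat_lit 152) .nil)))) (.g (nat_lit 0) (.e (nat_lit 419911) (nat_lit 0) .nil) .nil))))) (.nd (nat_lit 8) (.nd (nat_lit 9) 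
(.lf (nat_lit 600298) (.g (nat_lit 983) (.e (nat_lit 557096) (nat_lit 13) (.e (nat_lit 172067) (nat_lit 3) (.e (nat_lit 204829) (nat_lit 18) .nil))) (.g (nat_lit 0) (.e (nat_lit 419219) (nat_lit 0) .nil) .nil))) 
(.lf (nat_lit 600810) (.g (nat_lit 2214) (.e (nat_lit 557101) (nat_lit 13) (.e (nat_lit 172115) (nat_lit 10) (.e (nat_lit 434244) (nat_lit 28) (.e (nat_lit 573449) (nat_lit 9) (.e (nat_lit 393) (nat_lit 32) .nil))))) (.g (nat_lit 0) (.e (nat_lit 419768) (nat_lit 0) .nil) .nil)))) (.nd (nat_lit 9) 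
(.lf (nat_lit 600554) (.g (nat_lit 2400) (.e (nat_lit 557098) (nat_lit 13) (.e (nat_lit 172115) (nat_lit 10) (.e (nat_lit 434244) (nat_lit 28) (.e (nat_lit 573450) (nat_lit 9) (.e (nat_lit 457) (nat_lit 34) (.e (nat_lit 442368) (nat_lit 0) (.e (nat_lit 7936) (nat_lit 124) .nil))))))) (.g (nat_lit 1) (.e (nat_lit 419489) (nat_lit 0) .nil) .nil))) 
(.lf (nat_lit 601066) (.g (nat_lit 5469) (.e (nat_lit 557105) (nat_lit 14) (.e (nat_lit 180252) (nat_lit 10) (.e (nat_lit 573474) (nat_lit 12) (.e (nat_lit 57504) (nat_lit 38) (.e (nat_lit 638995) (nat_lit 7) (.e (nat_lit 163977) (nat_lit 30) (.e (nat_lit 573489) (nat_lit 14) (.e (nat_lit 73755) (nat_lit 8) .nil)))))))) (.g (nat_lit 1) (.e (nat_lit 420116) (nat_lit 0) .nil) .nil)))))))) 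
(.nd (nat_lit 5) (.nd (nat_lit 6) (.nd (nat_lit 7) (.nd (nat_lit 8) (.nd (nat_lit 9) 
(.lf (nat_lit 600090) (.g (nat_lit 338) (.e (nat_lit 557090) (nat_lit 12) (.e (nat_lit 164020) (nat_lit 45) (.e (nat_lit 696330) (nat_lit 5) .nil))) (.g (nat_lit 0) (.e (nat_lit 418863) (nat_lit 0) .nil) .nil))) 
(.lf (nat_lit 600602) (.g (nat_lit 2166) (.e (nat_lit 557099) (nat_lit 13) (.e (nat_lit 172106) (nat_lit 10) (.e (nat_lit 434231) (nat_lit 23) (.e (nat_lit 532544) (nat_lit 10) .nil)))) (.g (nat_lit 0) (.e (nat_lit 419540) (nat_lit 0) .nil) .nil)))) (.nd (nat_lit 9) 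
(.lf (nat_lit 600346) (.g (nat_lit 4576) (.e (nat_lit 557097) (nat_lit 13) (.e (nat_lit 172114) (nat_lit 10) (.e (nat_lit 434231) (nat_lit 23) (.e (nat_lit 532535) (nat_lit 9) (.e (nat_lit 336295) (nat_lit 15) (.e (nat_lit 3631) (nat_lit 227) (.e (nat_lit 778318) (nat_lit 3) (.e (nat_lit 57476) (nat_lit 28) .nil)))))))) (.g (nat_lit 1) (.e (nat_lit 419276) (nat_lit 0) .nil) .nil))) 
(.lf (nat_lit 600858) (.g (nat_lit 2927) (.e (nat_lit 557101) (nat_lit 13) (.e (nat_lit 172115) (nat_lit 10) (.e (nat_lit 434244) (nat_lit 28) (.e (nat_lit 573451) (nat_lit 9) (.e (nat_lit 428) (nat_lit 32) .nil))))) (.g (nat_lit 0) (.e (nat_lit 419816) (nat_lit 0) .nil) .nil))))) (.nd (nat_lit 8) (.nd (nat_lit 9) 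
(.lf (nat_lit 600218) (.g (nat_lit 4664) (.e (nat_lit 557093) (nat_lit 12) (.e (nat_lit 164022) (nat_lit 46) (.e (nat_lit 704629) (nat_lit 9) (.e (nat_lit 452) (nat_lit 33) (.e (nat_lit 434231) (nat_lit 23) (.e (nat_lit 532550) (nat_lit 12) (.e (nat_lit 360474) (nat_lit 8) .nil))))))) (.g (nat_lit 1) (.e (nat_lit 419058) (nat_lit 0) .nil) .nil))) 
(.lf (nat_lit 600730) (.g (nat_lit 2224) (.e (nat_lit 557100) (nat_lit 13) (.e (nat_lit 172126) (nat_lit 14) (.e (nat_lit 491537) (nat_lit 2) (.e (nat_lit 90168) (nat_lit 13) .nil)))) (.g (nat_lit 0) (.e (nat_lit 419676) (nat_lit 0) .nil) .nil)))) (.nd (nat_lit 9) 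
(.lf (nat_lit 600474) (.g (nat_lit 2711) (.e (nat_lit 557097) (nat_lit 13) (.e (nat_lit 172115) (nat_lit 10) (.e (nat_lit 434244) (nat_lit 28) (.e (nat_lit 573458) (nat_lit 9) (.e (nat_lit 426) (nat_lit 32) (.e (nat_lit 426199) (nat_lit 9) (.e (nat_lit 426402) (nat_lit 15) (.e (nat_lit 1848) (nat_lit 124) .nil)))))))) (.g (nat_lit 1) (.e (nat_lit 419404) (nat_lit 0) .nil) .nil))) 
(.lf (nat_lit 600986) (.g (nat_lit 1651) (.e (nat_lit 557105) (nat_lit 14) (.e (nat_lit 180251) (nat_lit 10) (.e (nat_lit 573475) (nat_lit 12) (.e (nat_lit 57503) (nat_lit 38) (.e (nat_lit 638995) (nat_lit 7) .nil))))) (.g (nat_lit 0) (.e (nat_lit 419974) (nat_lit 0) .nil) .nil)))))) (.nd (nat_lit 7) (.nd (nat_lit 8) (.nd (nat_lit 9) 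
(.lf (nat_lit 600154) (.g (nat_lit 3784) (.e (nat_lit 557093) (nat_lit 12) (.e (nat_lit 163849) (nat_lit 0) (.e (nat_lit 6254) (nat_lit 337) (.e (nat_lit 2630) (nat_lit 164) (.e (nat_lit 172065) (nat_lit 3) (.e (nat_lit 204869) (nat_lit 29) (.e (nat_lit 360474) (nat_lit 8) .nil))))))) (.g (nat_lit 1) (.e (nat_lit 418975) (nat_lit 0) .nil) .nil))) 
(.lf (nat_lit 600666) (.g (nat_lit 3173) (.e (nat_lit 557100) (nat_lit 13) (.e (nat_lit 172106) (nat_lit 10) (.e (nat_lit 434231) (nat_lit 23) (.e (nat_lit 532535) (nat_lit 9) (.e (nat_lit 336287) (nat_lit 15) (.e (nat_lit 3716) (nat_lit 227) (.e (nat_lit 786176) (nat_lit 3) (.e (nat_lit 57479) (nat_lit 28) .nil)))))))) (.g (nat_lit 1) (.e (nat_lit 419611) (nat_lit 0) .nil) .nil)))) 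
(.nd (nat_lit 9) 
(.lf (nat_lit 600410) (.g (nat_lit 4136) (.e (nat_lit 557097) (nat_lit 13) (.e (nat_lit 172115) (nat_lit 10) (.e (nat_lit 434231) (nat_lit 23) (.e (nat_lit 532529) (nat_lit 9) (.e (nat_lit 336263) (nat_lit 15) (.e (nat_lit 3631) (nat_lit 227) (.e (nat_lit 778318) (nat_lit 3) (.e (nat_lit 57476) (nat_lit 28) .nil)))))))) (.g (nat_lit 1) (.e (nat_lit 419340) (nat_lit 0) .nil) .nil))) 
(.lf (nat_lit 600922) (.g (nat_lit 2846) (.e (nat_lit 557103) (nat_lit 14) (.e (nat_lit 180250) (nat_lit 10) (.e (nat_lit 573474) (nat_lit 12) (.e (nat_lit 57507) (nat_lit 39) (.e (nat_lit 647176) (nat_lit 0) (.e (nat_lit 2684) (nat_lit 168) (.e (nat_lit 204862) (nat_lit 27) (.e (nat_lit 344133) (nat_lit 26) .nil)))))))) (.g (nat_lit 1) (.e (nat_lit 419888) (nat_lit 0) .nil) .nil))))) 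
(.nd (nat_lit 8) (.nd (nat_lit 9) 
(.lf (nat_lit 600282) (.g (nat_lit 1497) (.e (nat_lit 557095) (nat_lit 13) (.e (nat_lit 172115) (nat_lit 10) (.e (nat_lit 434231) (nat_lit 23) (.e (nat_lit 532490) (nat_lit 0) (.e (nat_lit 6223) (nat_lit 334) .nil))))) (.g (nat_lit 0) (.e (nat_lit 419172) (nat_lit 0) .nil) .nil))) 
(.lf (nat_lit 600794) (.g (nat_lit 2728) (.e (nat_lit 557101) (nat_lit 13) (.e (nat_lit 172115) (nat_lit 10) (.e (nat_lit 434231) (nat_lit 23) (.e (nat_lit 532569) (nat_lit 16) (.e (nat_lit 401439) (nat_lit 9) .nil))))) (.g (nat_lit 0) (.e (nat_lit 419752) (nat_lit 0) .nil) .nil)))) (.nd (nat_lit 9) 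
(.lf (nat_lit 600538) (.g (nat_lit 2869) (.e (nat_lit 557098) (nat_lit 13) (.e (nat_lit 172115) (nat_lit 10) (.e (nat_lit 434244) (nat_lit 28) (.e (nat_lit 573449) (nat_lit 9) (.e (nat_lit 430) (nat_lit 32) (.e (nat_lit 426315) (nat_lit 12) (.e (nat_lit 475183) (nat_lit 29) .nil))))))) (.g (nat_lit 1) (.e (nat_lit 419471) (nat_lit 0) .nil) .nil))) 
(.lf (nat_lit 601050) (.g (nat_lit 4894) (.e (nat_lit 557105) (nat_lit 14) (.e (nat_lit 180252) (nat_lit 10) (.e (nat_lit 573474) (nat_lit 12) (.e (nat_lit 57502) (nat_lit 38) (.e (nat_lit 638995) (nat_lit 7) (.e (nat_lit 163978) (nat_lit 30) (.e (nat_lit 573489) (nat_lit 14) (.e (nat_lit 73755) (nat_lit 8) .nil)))))))) (.g (nat_lit 1) (.e (nat_lit 420099) (nat_lit 0) .nil) .nil))))))) 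
(.nd (nat_lit 6) (.nd (nat_lit 7) (.nd (nat_lit 8) (.nd (nat_lit 9) 
(.lf (nat_lit 600122) (.g (nat_lit 3782) (.e (nat_lit 557091) (nat_lit 12) (.e (nat_lit 164020) (nat_lit 45) (.e (nat_lit 696348) (nat_lit 12) (.e (nat_lit 237594) (nat_lit 3) (.e (nat_lit 204869) (nat_lit 29) (.e (nat_lit 360474) (nat_lit 8) .nil)))))) (.g (nat_lit 1) (.e (nat_lit 418928) (nat_lit 0) .nil) .nil))) 
(.lf (nat_lit 600634) (.g (nat_lit 2842) (.e (nat_lit 557100) (nat_lit 13) (.e (nat_lit 172106) (nat_lit 10) (.e (nat_lit 434231) (nat_lit 23) (.e (nat_lit 532488) (nat_lit 0) .nil)))) (.g (nat_lit 0) (.e (nat_lit 419579) (nat_lit 0) .nil) .nil)))) (.nd (nat_lit 9) 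
(.lf (nat_lit 600378) (.g (nat_lit 3229) (.e (nat_lit 557097) (nat_lit 13) (.e (nat_lit 172115) (nat_lit 10) (.e (nat_lit 434231) (nat_lit 23) (.e (nat_lit 532528) (nat_lit 9) (.e (nat_lit 336301) (nat_lit 15) (.e (nat_lit 3629) (nat_lit 227) (.e (nat_lit 778318) (nat_lit 3) (.e (nat_lit 57476) (nat_lit 28) .nil)))))))) (.g (nat_lit 1) (.e (nat_lit 419308) (nat_lit 0) .nil) .nil))) 
(.lf (nat_lit 600890) (.g (nat_lit 2053) (.e (nat_lit 557101) (nat_lit 13) (.e (nat_lit 172115) (nat_lit 10) (.e (nat_lit 434244) (nat_lit 28) (.e (nat_lit 573471) (nat_lit 11) (.e (nat_lit 16444) (nat_lit 9) .nil))))) (.g (nat_lit 0) (.e (nat_lit 419848) (nat_lit 0) .nil) .nil))))) (.nd (nat_lit 8) (.nd (nat_lit 9) 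
(.lf (nat_lit 600250) (.g (nat_lit 480) (.e (nat_lit 557094) (nat_lit 12) (.e (nat_lit 164022) (nat_lit 46) (.e (nat_lit 704629) (nat_lit 9) .nil))) (.g (nat_lit 0) (.e (nat_lit 419119) (nat_lit 0) .nil) .nil))) 
(.lf (nat_lit 600762) (.g (nat_lit 2495) (.e (nat_lit 557101) (nat_lit 13) (.e (nat_lit 172115) (nat_lit 10) (.e (nat_lit 434231) (nat_lit 23) (.e (nat_lit 532481) (nat_lit 0) (.e (nat_lit 6693) (nat_lit 357) (.e (nat_lit 2842) (nat_lit 184) (.e (nat_lit 426354) (nat_lit 15) (.e (nat_lit 1860) (nat_lit 124) .nil)))))))) (.g (nat_lit 1) (.e (nat_lit 419720) (nat_lit 0) .nil) .nil)))) 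
(.nd (nat_lit 9) 
(.lf (nat_lit 600506) (.g (nat_lit 2669) (.e (nat_lit 557098) (nat_lit 13) (.e (nat_lit 172115) (nat_lit 10) (.e (nat_lit 434231) (nat_lit 23) (.e (nat_lit 532490) (nat_lit 0) (.e (nat_lit 6648) (nat_lit 357) .nil))))) (.g (nat_lit 0) (.e (nat_lit 419439) (nat_lit 0) .nil) .nil))) 
(.lf (nat_lit 601018) (.g (nat_lit 460) (.e (nat_lit 557105) (nat_lit 14) (.e (nat_lit 180252) (nat_lit 10) (.e (nat_lit 573451) (nat_lit 9) .nil))) (.g (nat_lit 0) (.e (nat_lit 420011) (nat_lit 0) .nil) .nil)))))) (.nd (nat_lit 7) (.nd (nat_lit 8) (.nd (nat_lit 9) 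
(.lf (nat_lit 600186) (.g (nat_lit 3251) (.e (nat_lit 557093) (nat_lit 12) (.e (nat_lit 164018) (nat_lit 45) (.e (nat_lit 696330) (nat_lit 5) (.e (nat_lit 2964) (nat_lit 185) (.e (nat_lit 434231) (nat_lit 23) (.e (nat_lit 532550) (nat_lit 12) (.e (nat_lit 360474) (nat_lit 8) .nil))))))) (.g (nat_lit 1) (.e (nat_lit 419024) (nat_lit 0) .nil) .nil))) 
(.lf (nat_lit 600698) (.g (nat_lit 3329) (.e (nat_lit 557100) (nat_lit 13) (.e (nat_lit 172113) (nat_lit 10) (.e (nat_lit 434236) (nat_lit 25) (.e (nat_lit 548913) (nat_lit 18) (.e (nat_lit 172120) (nat_lit 12) .nil))))) (.g (nat_lit 0) (.e (nat_lit 419643) (nat_lit 0) .nil) .nil)))) (.nd (nat_lit 9) 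
(.lf (nat_lit 600442) (.g (nat_lit 2621) (.e (nat_lit 557097) (nat_lit 13) (.e (nat_lit 172115) (nat_lit 10) (.e (nat_lit 434244) (nat_lit 28) (.e (nat_lit 573449) (nat_lit 9) (.e (nat_lit 454) (nat_lit 34) (.e (nat_lit 450304) (nat_lit 0) (.e (nat_lit 1849) (nat_lit 124) .nil))))))) (.g (nat_lit 1) (.e (nat_lit 419372) (nat_lit 0) .nil) .nil))) 
(.lf (nat_lit 600954) (.g (nat_lit 1404) (.e (nat_lit 557104) (nat_lit 14) (.e (nat_lit 180252) (nat_lit 10) (.e (nat_lit 573474) (nat_lit 12) (.e (nat_lit 57345) (nat_lit 0) .nil)))) (.g (nat_lit 0) (.e (nat_lit 419938) (nat_lit 0) .nil) .nil))))) (.nd (nat_lit 8) (.nd (nat_lit 9) 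
(.lf (nat_lit 600314) (.g (nat_lit 1881) (.e (nat_lit 557096) (nat_lit 13) (.e (nat_lit 172126) (nat_lit 14) (.e (nat_lit 491540) (nat_lit 3) (.e (nat_lit 98370) (nat_lit 28) (.e (nat_lit 442372) (nat_lit 0) .nil))))) (.g (nat_lit 0) (.e (nat_lit 419237) (nat_lit 0) .nil) .nil))) 
(.lf (nat_lit 600826) (.g (nat_lit 2670) (.e (nat_lit 557101) (nat_lit 13) (.e (nat_lit 172115) (nat_lit 10) (.e (nat_lit 434244) (nat_lit 28) (.e (nat_lit 573450) (nat_lit 9) (.e (nat_lit 373) (nat_lit 32) (.e (nat_lit 426309) (nat_lit 12) (.e (nat_lit 475185) (nat_lit 29) .nil))))))) (.g (nat_lit 1) (.e (nat_lit 419784) (nat_lit 0) .nil) .nil)))) (.nd (nat_lit 9) 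
(.lf (nat_lit 600570) (.g (nat_lit 2395) (.e (nat_lit 557098) (nat_lit 13) (.e (nat_lit 172115) (nat_lit 10) (.e (nat_lit 434244) (nat_lit 28) (.e (nat_lit 573457) (nat_lit 9) (.e (nat_lit 430) (nat_lit 32) .nil))))) (.g (nat_lit 0) (.e (nat_lit 419505) (nat_lit 0) .nil) .nil))) 
(.lf (nat_lit 601082) (.g (nat_lit 5480) (.e (nat_lit 557105) (nat_lit 14) (.e (nat_lit 180252) (nat_lit 10) (.e (nat_lit 573475) (nat_lit 12) (.e (nat_lit 57504) (nat_lit 38) (.e (nat_lit 638996) (nat_lit 7) (.e (nat_lit 163978) (nat_lit 30) (.e (nat_lit 573489) (nat_lit 14) (.e (nat_lit 73755) (nat_lit 8) .nil)))))))) (.g (nat_lit 1) (.e (nat_lit 420139) (nat_lit 0) .nil) .nil)))))))))) 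
(.nd (nat_lit 3) (.nd (nat_lit 4) (.nd (nat_lit 5) (.nd (nat_lit 6) (.nd (nat_lit 7) 
(.nd (nat_lit 8) (.nd (nat_lit 9) 
(.lf (nat_lit 600070) (.g (nat_lit 3907) (.e (nat_lit 557090) (nat_lit 12) (.e (nat_lit 163852) (nat_lit 0) (.e (nat_lit 6428) (nat_lit 342) (.e (nat_lit 229399) (nat_lit 12) (.e (nat_lit 426125) (nat_lit 2) (.e (nat_lit 196666) (nat_lit 13) (.e (nat_lit 65617) (nat_lit 10) (.e (nat_lit 344130) (nat_lit 26) .nil)))))))) (.g (nat_lit 1) (.e (nat_lit 418820) (nat_lit 0) .nil) .nil))) 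
(.lf (nat_lit 600582) (.g (nat_lit 3227) (.e (nat_lit 557098) (nat_lit 13) (.e (nat_lit 172115) (nat_lit 10) (.e (nat_lit 434244) (nat_lit 28) (.e (nat_lit 573468) (nat_lit 10) (.e (nat_lit 8525) (nat_lit 205) (.e (nat_lit 2856) (nat_lit 184) (.e (nat_lit 426402) (nat_lit 15) (.e (nat_lit 1859) (nat_lit 124) .nil)))))))) (.g (nat_lit 1) (.e (nat_lit 419517) (nat_lit 0) .nil) .nil)))) 
(.nd (nat_lit 9) 
(.lf (nat_lit 600326) (.g (nat_lit 3345) (.e (nat_lit 557097) (nat_lit 13) (.e (nat_lit 172097) (nat_lit 9) (.e (nat_lit 426125) (nat_lit 2) (.e (nat_lit 196661) (nat_lit 12) (.e (nat_lit 57750) (nat_lit 201) (.e (nat_lit 2854) (nat_lit 184) (.e (nat_lit 426402) (nat_lit 15) (.e (nat_lit 1849) (nat_lit 124) .nil)))))))) (.g (nat_lit 1) (.e (nat_lit 419256) (nat_lit 0) .nil) .nil))) 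
(.lf (nat_lit 600838) (.g (nat_lit 2486) (.e (nat_lit 557101) (nat_lit 13) (.e (nat_lit 172115) (nat_lit 10) (.e (nat_lit 434244) (nat_lit 28) (.e (nat_lit 573450) (nat_lit 9) (.e (nat_lit 389) (nat_lit 32) (.e (nat_lit 426198) (nat_lit 9) (.e (nat_lit 426354) (nat_lit 15) (.e (nat_lit 1860) (nat_lit 124) .nil)))))))) (.g (nat_lit 1) (.e (nat_lit 419796) (nat_lit 0) .nil) .nil))))) 
(.nd (nat_lit 8) (.nd (nat_lit 9) 
(.lf (nat_lit 600198) (.g (nat_lit 3720) (.e (nat_lit 557093) (nat_lit 12) (.e (nat_lit 164018) (nat_lit 45) (.e (nat_lit 696344) (nat_lit 8) (.e (nat_lit 172067) (nat_lit 3) (.e (nat_lit 204869) (nat_lit 29) (.e (nat_lit 360474) (nat_lit 8) .nil)))))) (.g (nat_lit 1) (.e (nat_lit 419036) (nat_lit 0) .nil) .nil))) 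
(.lf (nat_lit 600710) (.g (nat_lit 2886) (.e (nat_lit 557100) (nat_lit 13) (.e (nat_lit 172113) (nat_lit 10) (.e (nat_lit 434245) (nat_lit 28) (.e (nat_lit 573474) (nat_lit 12) (.e (nat_lit 57567) (nat_lit 52) (.e (nat_lit 753673) (nat_lit 5) (.e (nat_lit 3071) (nat_lit 190) (.e (nat_lit 475185) (nat_lit 29) .nil)))))))) (.g (nat_lit 1) (.e (nat_lit 419655) (nat_lit 0) .nil) .nil)))) 
(.nd (nat_lit 9) 
(.lf (nat_lit 600454) (.g (nat_lit 2590) (.e (nat_lit 557097) (nat_lit 13) (.e (nat_lit 172115) (nat_lit 10) (.e (nat_lit 434244) (nat_lit 28) (.e (nat_lit 573450) (nat_lit 9) (.e (nat_lit 457) (nat_lit 34) (.e (nat_lit 442374) (nat_lit 0) (.e (nat_lit 1846) (nat_lit 124) .nil))))))) (.g (nat_lit 1) (.e (nat_lit 419384) (nat_lit 0) .nil) .nil))) 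
(.lf (nat_lit 600966) (.g (nat_lit 3381) (.e (nat_lit 557104) (nat_lit 14) (.e (nat_lit 180252) (nat_lit 10) (.e (nat_lit 573475) (nat_lit 12) (.e (nat_lit 57503) (nat_lit 38) (.e (nat_lit 638996) (nat_lit 7) (.e (nat_lit 163977) (nat_lit 30) (.e (nat_lit 573487) (nat_lit 14) (.e (nat_lit 73753) (nat_lit 8) .nil)))))))) (.g (nat_lit 1) (.e (nat_lit 419950) (nat_lit 0) .nil) .nil)))))) 
(.nd (nat_lit 7) (.nd (nat_lit 8) (.nd (nat_lit 9) 
(.lf (nat_lit 600134) (.g (nat_lit 2971) (.e (nat_lit 557091) (nat_lit 12) (.e (nat_lit 164022) (nat_lit 46) (.e (nat_lit 704629) (nat_lit 9) (.e (nat_lit 442) (nat_lit 33) (.e (nat_lit 434233) (nat_lit 23) .nil))))) (.g (nat_lit 0) (.e (nat_lit 418942) (nat_lit 0) .nil) .nil))) 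
(.lf (nat_lit 600646) (.g (nat_lit 1210) (.e (nat_lit 557100) (nat_lit 13) (.e (nat_lit 172106) (nat_lit 10) (.e (nat_lit 434231) (nat_lit 23) (.e (nat_lit 532499) (nat_lit 1) .nil)))) (.g (nat_lit 0) (.e (nat_lit 419591) (nat_lit 0) .nil) .nil)))) (.nd (nat_lit 9) 
(.lf (nat_lit 600390) (.g (nat_lit 3394) (.e (nat_lit 557097) (nat_lit 13) (.e (nat_lit 172115) (nat_lit 10) (.e (nat_lit 434231) (nat_lit 23) (.e (nat_lit 532529) (nat_lit 9) (.e (nat_lit 336257) (nat_lit 15) (.e (nat_lit 3628) (nat_lit 227) (.e (nat_lit 778318) (nat_lit 3) (.e (nat_lit 57476) (nat_lit 28) .nil)))))))) (.g (nat_lit 1) (.e (nat_lit 419320) (nat_lit 0) .nil) .nil))) 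
(.lf (nat_lit 600902) (.g (nat_lit 2223) (.e (nat_lit 557101) (nat_lit 13) (.e (nat_lit 172126) (nat_lit 14) (.e (nat_lit 491537) (nat_lit 2) (.e (nat_lit 90125) (nat_lit 9) .nil)))) (.g (nat_lit 0) (.e (nat_lit 419860) (nat_lit 0) .nil) .nil))))) (.nd (nat_lit 8) (.nd (nat_lit 9) 
(.lf (nat_lit 600262) (.g (nat_lit 2127) (.e (nat_lit 557094) (nat_lit 12) (.e (nat_lit 164022) (nat_lit 46) (.e (nat_lit 704738) (nat_lit 11) (.e (nat_lit 16403) (nat_lit 0) .nil)))) (.g (nat_lit 0) (.e (nat_lit 419133) (nat_lit 0) .nil) .nil))) 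
(.lf (nat_lit 600774) (.g (nat_lit 3389) (.e (nat_lit 557101) (nat_lit 13) (.e (nat_lit 172115) (nat_lit 10) (.e (nat_lit 434231) (nat_lit 23) (.e (nat_lit 532499) (nat_lit 1) (.e (nat_lit 57762) (nat_lit 215) .nil))))) (.g (nat_lit 0) (.e (nat_lit 419732) (nat_lit 0) .nil) .nil)))) (.nd (nat_lit 9) 
(.lf (nat_lit 600518) (.g (nat_lit 4372) (.e (nat_lit 557098) (nat_lit 13) (.e (nat_lit 172115) (nat_lit 10) (.e (nat_lit 434231) (nat_lit 23) (.e (nat_lit 532523) (nat_lit 7) (.e (nat_lit 319505) (nat_lit 10) (.e (nat_lit 7936) (nat_lit 313) (.e (nat_lit 8326) (nat_lit 69) .nil))))))) (.g (nat_lit 1) (.e (nat_lit 419451) (nat_lit 0) .nil) .nil))) 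
(.lf (nat_lit 601030) (.g (nat_lit 4830) (.e (nat_lit 557105) (nat_lit 14) (.e (nat_lit 180252) (nat_lit 10) (.e (nat_lit 573473) (nat_lit 12) (.e (nat_lit 57504) (nat_lit 38) (.e (nat_lit 638995) (nat_lit 7) (.e (nat_lit 163978) (nat_lit 30) (.e (nat_lit 573487) (nat_lit 14) (.e (nat_lit 73753) (nat_lit 8) .nil)))))))) (.g (nat_lit 1) (.e (nat_lit 420039) (nat_lit 0) .nil) .nil))))))) 
(.nd (nat_lit 6) (.nd (nat_lit 7) (.nd (nat_lit 8) (.nd (nat_lit 9) 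
(.lf (nat_lit 600102) (.g (nat_lit 4342) (.e (nat_lit 557091) (nat_lit 12) (.e (nat_lit 163847) (nat_lit 0) (.e (nat_lit 6254) (nat_lit 337) (.e (nat_lit 2630) (nat_lit 164) (.e (nat_lit 172065) (nat_lit 3) (.e (nat_lit 204869) (nat_lit 29) (.e (nat_lit 360475) (nat_lit 8) .nil))))))) (.g (nat_lit 1) (.e (nat_lit 418891) (nat_lit 0) .nil) .nil))) 
(.lf (nat_lit 600614) (.g (nat_lit 696) (.e (nat_lit 557100) (nat_lit 13) (.e (nat_lit 172067) (nat_lit 3) (.e (nat_lit 204821) (nat_lit 17) .nil))) (.g (nat_lit 0) (.e (nat_lit 419559) (nat_lit 0) .nil) .nil)))) (.nd (nat_lit 9) 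
(.lf (nat_lit 600358) (.g (nat_lit 2943) (.e (nat_lit 557097) (nat_lit 13) (.e (nat_lit 172115) (nat_lit 10) (.e (nat_lit 434231) (nat_lit 23) (.e (nat_lit 532481) (nat_lit 0) (.e (nat_lit 6684) (nat_lit 357) (.e (nat_lit 3067) (nat_lit 190) (.e (nat_lit 475183) (nat_lit 29) .nil))))))) (.g (nat_lit 1) (.e (nat_lit 419288) (nat_lit 0) .nil) .nil))) 
(.lf (nat_lit 600870) (.g (nat_lit 2954) (.e (nat_lit 557101) (nat_lit 13) (.e (nat_lit 172115) (nat_lit 10) (.e (nat_lit 434244) (nat_lit 28) (.e (nat_lit 573456) (nat_lit 9) (.e (nat_lit 430) (nat_lit 32) (.e (nat_lit 426308) (nat_lit 12) (.e (nat_lit 475184) (nat_lit 29) .nil))))))) (.g (nat_lit 1) (.e (nat_lit 419828) (nat_lit 0) .nil) .nil))))) (.nd (nat_lit 8) (.nd (nat_lit 9) 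
(.lf (nat_lit 600230) (.g (nat_lit 2608) (.e (nat_lit 557093) (nat_lit 12) (.e (nat_lit 164023) (nat_lit 46) (.e (nat_lit 704738) (nat_lit 11) (.e (nat_lit 16412) (nat_lit 2) (.e (nat_lit 196663) (nat_lit 13) .nil))))) (.g (nat_lit 0) (.e (nat_lit 419073) (nat_lit 0) .nil) .nil))) 
(.lf (nat_lit 600742) (.g (nat_lit 4027) (.e (nat_lit 557101) (nat_lit 13) (.e (nat_lit 172097) (nat_lit 9) (.e (nat_lit 426125) (nat_lit 2) (.e (nat_lit 196666) (nat_lit 13) (.e (nat_lit 65639) (nat_lit 15) (.e (nat_lit 3711) (nat_lit 227) (.e (nat_lit 778316) (nat_lit 3) (.e (nat_lit 57479) (nat_lit 28) .nil)))))))) (.g (nat_lit 1) (.e (nat_lit 419700) (nat_lit 0) .nil) .nil)))) 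
(.nd (nat_lit 9) 
(.lf (nat_lit 600486) (.g (nat_lit 3606) (.e (nat_lit 557098) (nat_lit 13) (.e (nat_lit 172097) (nat_lit 9) (.e (nat_lit 426125) (nat_lit 2) (.e (nat_lit 196666) (nat_lit 13) (.e (nat_lit 65638) (nat_lit 15) (.e (nat_lit 3714) (nat_lit 227) (.e (nat_lit 778316) (nat_lit 3) (.e (nat_lit 57480) (nat_lit 28) .nil)))))))) (.g (nat_lit 1) (.e (nat_lit 419419) (nat_lit 0) .nil) .nil))) 
(.lf (nat_lit 600998) (.g (nat_lit 2739) (.e (nat_lit 557105) (nat_lit 14) (.e (nat_lit 180251) (nat_lit 10) (.e (nat_lit 573485) (nat_lit 13) (.e (nat_lit 65568) (nat_lit 2) (.e (nat_lit 98048) (nat_lit 2) (.e (nat_lit 16388) (nat_lit 0) (.e (nat_lit 3276) (nat_lit 200) .nil))))))) (.g (nat_lit 1) (.e (nat_lit 419986) (nat_lit 0) .nil) .nil)))))) 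
(.nd (nat_lit 7) (.nd (nat_lit 8) (.nd (nat_lit 9) 
(.lf (nat_lit 600166) (.g (nat_lit 3538) (.e (nat_lit 557093) (nat_lit 12) (.e (nat_lit 163849) (nat_lit 0) (.e (nat_lit 6421) (nat_lit 341) (.e (nat_lit 163917) (nat_lit 13) (.e (nat_lit 434231) (nat_lit 23) (.e (nat_lit 532550) (nat_lit 12) (.e (nat_lit 360474) (nat_lit 8) .nil))))))) (.g (nat_lit 1) (.e (nat_lit 418995) (nat_lit 0) .nil) .nil))) 
(.lf (nat_lit 600678) (.g (nat_lit 3166) (.e (nat_lit 557100) (nat_lit 13) (.e (nat_lit 172106) (nat_lit 10) (.e (nat_lit 434231) (nat_lit 23) (.e (nat_lit 532569) (nat_lit 16) (.e (nat_lit 401453) (nat_lit 12) (.e (nat_lit 475184) (nat_lit 29) .nil)))))) (.g (nat_lit 1) (.e (nat_lit 419623) (nat_lit 0) .nil) .nil)))) (.nd (nat_lit 9) 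
(.lf (nat_lit 600422) (.g (nat_lit 3585) (.e (nat_lit 557097) (nat_lit 13) (.e (nat_lit 172115) (nat_lit 10) (.e (nat_lit 434231) (nat_lit 23) (.e (nat_lit 532529) (nat_lit 9) (.e (nat_lit 336296) (nat_lit 15) (.e (nat_lit 7936) (nat_lit 227) (.e (nat_lit 778318) (nat_lit 3) (.e (nat_lit 57476) (nat_lit 28) .nil)))))))) (.g (nat_lit 1) (.e (nat_lit 419352) (nat_lit 0) .nil) .nil))) 
(.lf (nat_lit 600934) (.g (nat_lit 3298) (.e (nat_lit 557103) (nat_lit 14) (.e (nat_lit 180250) (nat_lit 10) (.e (nat_lit 573485) (nat_lit 13) (.e (nat_lit 65568) (nat_lit 2) (.e (nat_lit 98048) (nat_lit 2) (.e (nat_lit 16392) (nat_lit 0) (.e (nat_lit 3279) (nat_lit 200) .nil))))))) (.g (nat_lit 1) (.e (nat_lit 419900) (nat_lit 0) .nil) .nil))))) (.nd (nat_lit 8) (.nd (nat_lit 9) 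
(.lf (nat_lit 600294) (.g (nat_lit 2193) (.e (nat_lit 557096) (nat_lit 13) (.e (nat_lit 172064) (nat_lit 2) (.e (nat_lit 196656) (nat_lit 11) (.e (nat_lit 16476) (nat_lit 15) .nil)))) (.g (nat_lit 0) (.e (nat_lit 419214) (nat_lit 0) .nil) .nil))) 
(.lf (nat_lit 600806) (.g (nat_lit 2559) (.e (nat_lit 557101) (nat_lit 13) (.e (nat_lit 172115) (nat_lit 10) (.e (nat_lit 434244) (nat_lit 28) (.e (nat_lit 573448) (nat_lit 9) (.e (nat_lit 430) (nat_lit 32) .nil))))) (.g (nat_lit 0) (.e (nat_lit 419764) (nat_lit 0) .nil) .nil)))) (.nd (nat_lit 9) 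
(.lf (nat_lit 600550) (.g (nat_lit 3453) (.e (nat_lit 557098) (nat_lit 13) (.e (nat_lit 172115) (nat_lit 10) (.e (nat_lit 434244) (nat_lit 28) (.e (nat_lit 573450) (nat_lit 9) (.e (nat_lit 375) (nat_lit 32) (.e (nat_lit 426201) (nat_lit 9) (.e (nat_lit 426399) (nat_lit 15) (.e (nat_lit 1855) (nat_lit 124) .nil)))))))) (.g (nat_lit 1) (.e (nat_lit 419484) (nat_lit 0) .nil) .nil))) 
(.lf (nat_lit 601062) (.g (nat_lit 5875) (.e (nat_lit 557105) (nat_lit 14) (.e (nat_lit 180252) (nat_lit 10) (.e (nat_lit 573474) (nat_lit 12) (.e (nat_lit 57503) (nat_lit 38) (.e (nat_lit 638996) (nat_lit 7) (.e (nat_lit 163978) (nat_lit 30) (.e (nat_lit 573489) (nat_lit 14) (.e (nat_lit 73755) (nat_lit 8) .nil)))))))) (.g (nat_lit 1) (.e (nat_lit 420111) (nat_lit 0) .nil) .nil)))))))) 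
(.nd (nat_lit 5) (.nd (nat_lit 6) (.nd (nat_lit 7) (.nd (nat_lit 8) (.nd (nat_lit 9) 
(.lf (nat_lit 600086) (.g (nat_lit 4374) (.e (nat_lit 557090) (nat_lit 12) (.e (nat_lit 164018) (nat_lit 45) (.e (nat_lit 696344) (nat_lit 8) (.e (nat_lit 172067) (nat_lit 3) (.e (nat_lit 204855) (nat_lit 26) (.e (nat_lit 336176) (nat_lit 10) (.e (nat_lit 344130) (nat_lit 26) .nil))))))) (.g (nat_lit 1) (.e (nat_lit 418859) (nat_lit 0) .nil) .nil))) 
(.lf (nat_lit 600598) (.g (nat_lit 440) (.e (nat_lit 557099) (nat_lit 13) (.e (nat_lit 172106) (nat_lit 10) (.e (nat_lit 434231) (nat_lit 23) .nil))) (.g (nat_lit 0) (.e (nat_lit 419534) (nat_lit 0) .nil) .nil)))) (.nd (nat_lit 9) 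
(.lf (nat_lit 600342) (.g (nat_lit 3715) (.e (nat_lit 557097) (nat_lit 13) (.e (nat_lit 172097) (nat_lit 9) (.e (nat_lit 426140) (nat_lit 3) (.e (nat_lit 204883) (nat_lit 33) (.e (nat_lit 401454) (nat_lit 12) (.e (nat_lit 475183) (nat_lit 29) .nil)))))) (.g (nat_lit 1) (.e (nat_lit 419272) (nat_lit 0) .nil) .nil))) 
(.lf (nat_lit 600854) (.g (nat_lit 2845) (.e (nat_lit 557101) (nat_lit 13) (.e (nat_lit 172115) (nat_lit 10) (.e (nat_lit 434244) (nat_lit 28) (.e (nat_lit 573450) (nat_lit 9) (.e (nat_lit 477) (nat_lit 37) (.e (nat_lit 474880) (nat_lit 0) (.e (nat_lit 1860) (nat_lit 124) .nil))))))) (.g (nat_lit 1) (.e (nat_lit 419812) (nat_lit 0) .nil) .nil))))) (.nd (nat_lit 8) (.nd (nat_lit 9) 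
(.lf (nat_lit 600214) (.g (nat_lit 3086) (.e (nat_lit 557093) (nat_lit 12) (.e (nat_lit 164022) (nat_lit 46) (.e (nat_lit 704629) (nat_lit 9) (.e (nat_lit 442) (nat_lit 33) (.e (nat_lit 434233) (nat_lit 23) .nil))))) (.g (nat_lit 0) (.e (nat_lit 419054) (nat_lit 0) .nil) .nil))) 
(.lf (nat_lit 600726) (.g (nat_lit 2955) (.e (nat_lit 557100) (nat_lit 13) (.e (nat_lit 172115) (nat_lit 10) (.e (nat_lit 434231) (nat_lit 23) (.e (nat_lit 532569) (nat_lit 16) (.e (nat_lit 401451) (nat_lit 12) .nil))))) (.g (nat_lit 0) (.e (nat_lit 419671) (nat_lit 0) .nil) .nil)))) (.nd (nat_lit 9) 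
(.lf (nat_lit 600470) (.g (nat_lit 2491) (.e (nat_lit 557097) (nat_lit 13) (.e (nat_lit 172115) (nat_lit 10) (.e (nat_lit 434244) (nat_lit 28) (.e (nat_lit 573458) (nat_lit 9) (.e (nat_lit 426) (nat_lit 32) (.e (nat_lit 426186) (nat_lit 9) (.e (nat_lit 426402) (nat_lit 15) (.e (nat_lit 1849) (nat_lit 124) .nil)))))))) (.g (nat_lit 1) (.e (nat_lit 419400) (nat_lit 0) .nil) .nil))) 
(.lf (nat_lit 600982) (.g (nat_lit 2188) (.e (nat_lit 557104) (nat_lit 14) (.e (nat_lit 180252) (nat_lit 10) (.e (nat_lit 573489) (nat_lit 14) (.e (nat_lit 73755) (nat_lit 8) (.e (nat_lit 557119) (nat_lit 18) (.e (nat_lit 2798) (nat_lit 180) (.e (nat_lit 303112) (nat_lit 0) (.e (nat_lit 7936) (nat_lit 200) .nil)))))))) (.g (nat_lit 1) (.e (nat_lit 419966) (nat_lit 0) .nil) .nil)))))) 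
(.nd (nat_lit 7) (.nd (nat_lit 8) (.nd (nat_lit 9) 
(.lf (nat_lit 600150) (.g (nat_lit 3114) (.e (nat_lit 557093) (nat_lit 12) (.e (nat_lit 163848) (nat_lit 0) (.e (nat_lit 6416) (nat_lit 341) (.e (nat_lit 163916) (nat_lit 13) (.e (nat_lit 434231) (nat_lit 23) (.e (nat_lit 532550) (nat_lit 12) (.e (nat_lit 360474) (nat_lit 8) .nil))))))) (.g (nat_lit 1) (.e (nat_lit 418968) (nat_lit 0) .nil) .nil))) 
(.lf (nat_lit 600662) (.g (nat_lit 3223) (.e (nat_lit 557100) (nat_lit 13) (.e (nat_lit 172106) (nat_lit 10) (.e (nat_lit 434231) (nat_lit 23) (.e (nat_lit 532535) (nat_lit 9) (.e (nat_lit 336287) (nat_lit 15) (.e (nat_lit 3683) (nat_lit 227) (.e (nat_lit 786176) (nat_lit 3) (.e (nat_lit 57479) (nat_lit 28) .nil)))))))) (.g (nat_lit 1) (.e (nat_lit 419607) (nat_lit 0) .nil) .nil)))) 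
(.nd (nat_lit 9) 
(.lf (nat_lit 600406) (.g (nat_lit 4062) (.e (nat_lit 557097) (nat_lit 13) (.e (nat_lit 172115) (nat_lit 10) (.e (nat_lit 434231) (nat_lit 23) (.e (nat_lit 532529) (nat_lit 9) (.e (nat_lit 336260) (nat_lit 15) (.e (nat_lit 3629) (nat_lit 227) (.e (nat_lit 778318) (nat_lit 3) (.e (nat_lit 57476) (nat_lit 28) .nil)))))))) (.g (nat_lit 1) (.e (nat_lit 419336) (nat_lit 0) .nil) .nil))) 
(.lf (nat_lit 600918) (.g (nat_lit 2488) (.e (nat_lit 557103) (nat_lit 14) (.e (nat_lit 180250) (nat_lit 10) (.e (nat_lit 573474) (nat_lit 12) (.e (nat_lit 57507) (nat_lit 39) (.e (nat_lit 647168) (nat_lit 0) .nil))))) (.g (nat_lit 0) (.e (nat_lit 419884) (nat_lit 0) .nil) .nil))))) (.nd (nat_lit 8) (.nd (nat_lit 9) 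
(.lf (nat_lit 600278) (.g (nat_lit 811) (.e (nat_lit 557095) (nat_lit 13) (.e (nat_lit 172115) (nat_lit 10) (.e (nat_lit 434231) (nat_lit 23) (.e (nat_lit 532481) (nat_lit 0) .nil)))) (.g (nat_lit 0) (.e (nat_lit 419164) (nat_lit 0) .nil) .nil))) 
(.lf (nat_lit 600790) (.g (nat_lit 1136) (.e (nat_lit 557101) (nat_lit 13) (.e (nat_lit 172115) (nat_lit 10) (.e (nat_lit 434231) (nat_lit 23) (.e (nat_lit 532567) (nat_lit 16) .nil)))) (.g (nat_lit 0) (.e (nat_lit 419748) (nat_lit 0) .nil) .nil)))) (.nd (nat_lit 9) 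
(.lf (nat_lit 600534) (.g (nat_lit 1666) (.e (nat_lit 557098) (nat_lit 13) (.e (nat_lit 172115) (nat_lit 10) (.e (nat_lit 434231) (nat_lit 23) (.e (nat_lit 532569) (nat_lit 16) (.e (nat_lit 401440) (nat_lit 9) .nil))))) (.g (nat_lit 0) (.e (nat_lit 419467) (nat_lit 0) .nil) .nil))) 
(.lf (nat_lit 601046) (.g (nat_lit 4205) (.e (nat_lit 557105) (nat_lit 14) (.e (nat_lit 180252) (nat_lit 10) (.e (nat_lit 573474) (nat_lit 12) (.e (nat_lit 57501) (nat_lit 37) (.e (nat_lit 630799) (nat_lit 7) (.e (nat_lit 163977) (nat_lit 30) (.e (nat_lit 573489) (nat_lit 14) (.e (nat_lit 73755) (nat_lit 8) .nil)))))))) (.g (nat_lit 1) (.e (nat_lit 420095) (nat_lit 0) .nil) .nil))))))) 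
(.nd (nat_lit 6) (.nd (nat_lit 7) (.nd (nat_lit 8) (.nd (nat_lit 9) 
(.lf (nat_lit 600118) (.g (nat_lit 4241) (.e (nat_lit 557091) (nat_lit 12) (.e (nat_lit 164020) (nat_lit 45) (.e (nat_lit 696343) (nat_lit 8) (.e (nat_lit 172066) (nat_lit 3) (.e (nat_lit 204869) (nat_lit 29) (.e (nat_lit 360474) (nat_lit 8) .nil)))))) (.g (nat_lit 1) (.e (nat_lit 418923) (nat_lit 0) .nil) .nil))) 
(.lf (nat_lit 600630) (.g (nat_lit 2271) (.e (nat_lit 557100) (nat_lit 13) (.e (nat_lit 172106) (nat_lit 10) (.e (nat_lit 434231) (nat_lit 23) (.e (nat_lit 532484) (nat_lit 0) .nil)))) (.g (nat_lit 0) (.e (nat_lit 419575) (nat_lit 0) .nil) .nil)))) (.nd (nat_lit 9) 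
(.lf (nat_lit 600374) (.g (nat_lit 4198) (.e (nat_lit 557097) (nat_lit 13) (.e (nat_lit 172115) (nat_lit 10) (.e (nat_lit 434231) (nat_lit 23) (.e (nat_lit 532490) (nat_lit 0) (.e (nat_lit 6680) (nat_lit 357) (.e (nat_lit 2857) (nat_lit 184) (.e (nat_lit 426402) (nat_lit 15) (.e (nat_lit 1849) (nat_lit 124) .nil)))))))) (.g (nat_lit 1) (.e (nat_lit 419304) (nat_lit 0) .nil) .nil))) 
(.lf (nat_lit 600886) (.g (nat_lit 3594) (.e (nat_lit 557101) (nat_lit 13) (.e (nat_lit 172115) (nat_lit 10) (.e (nat_lit 434244) (nat_lit 28) (.e (nat_lit 573471) (nat_lit 11) (.e (nat_lit 16386) (nat_lit 0) (.e (nat_lit 7374) (nat_lit 389) (.e (nat_lit 8326) (nat_lit 69) .nil))))))) (.g (nat_lit 1) (.e (nat_lit 419844) (nat_lit 0) .nil) .nil))))) (.nd (nat_lit 8) (.nd (nat_lit 9) 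
(.lf (nat_lit 600246) (.g (nat_lit 3100) (.e (nat_lit 557094) (nat_lit 12) (.e (nat_lit 164018) (nat_lit 45) (.e (nat_lit 696330) (nat_lit 5) (.e (nat_lit 2884) (nat_lit 184) (.e (nat_lit 426140) (nat_lit 3) (.e (nat_lit 204869) (nat_lit 29) (.e (nat_lit 360474) (nat_lit 8) .nil))))))) (.g (nat_lit 1) (.e (nat_lit 419110) (nat_lit 0) .nil) .nil))) 
(.lf (nat_lit 600758) (.g (nat_lit 2071) (.e (nat_lit 557101) (nat_lit 13) (.e (nat_lit 172115) (nat_lit 10) (.e (nat_lit 434231) (nat_lit 23) (.e (nat_lit 532481) (nat_lit 0) (.e (nat_lit 6640) (nat_lit 357) .nil))))) (.g (nat_lit 0) (.e (nat_lit 419716) (nat_lit 0) .nil) .nil)))) (.nd (nat_lit 9) 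
(.lf (nat_lit 600502) (.g (nat_lit 2145) (.e (nat_lit 557098) (nat_lit 13) (.e (nat_lit 172115) (nat_lit 10) (.e (nat_lit 434231) (nat_lit 23) (.e (nat_lit 532481) (nat_lit 0) (.e (nat_lit 6693) (nat_lit 357) .nil))))) (.g (nat_lit 0) (.e (nat_lit 419435) (nat_lit 0) .nil) .nil))) 
(.lf (nat_lit 601014) (.g (nat_lit 2221) (.e (nat_lit 557105) (nat_lit 14) (.e (nat_lit 180251) (nat_lit 10) (.e (nat_lit 573485) (nat_lit 13) (.e (nat_lit 65568) (nat_lit 2) (.e (nat_lit 98048) (nat_lit 2) (.e (nat_lit 16403) (nat_lit 0) (.e (nat_lit 7936) (nat_lit 200) .nil))))))) (.g (nat_lit 1) (.e (nat_lit 420002) (nat_lit 0) .nil) .nil)))))) 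
(.nd (nat_lit 7) (.nd (nat_lit 8) (.nd (nat_lit 9) 
(.lf (nat_lit 600182) (.g (nat_lit 3083) (.e (nat_lit 557093) (nat_lit 12) (.e (nat_lit 164018) (nat_lit 45) (.e (nat_lit 696329) (nat_lit 5) (.e (nat_lit 2980) (nat_lit 185) (.e (nat_lit 434231) (nat_lit 23) (.e (nat_lit 532550) (nat_lit 12) (.e (nat_lit 360474) (nat_lit 8) .nil))))))) (.g (nat_lit 1) (.e (nat_lit 419018) (nat_lit 0) .nil) .nil))) 
(.lf (nat_lit 600694) (.g (nat_lit 1882) (.e (nat_lit 557100) (nat_lit 13) (.e (nat_lit 172106) (nat_lit 10) (.e (nat_lit 434244) (nat_lit 28) (.e (nat_lit 573469) (nat_lit 11) (.e (nat_lit 16438) (nat_lit 9) .nil))))) (.g (nat_lit 0) (.e (nat_lit 419639) (nat_lit 0) .nil) .nil)))) (.nd (nat_lit 9) 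
(.lf (nat_lit 600438) (.g (nat_lit 1902) (.e (nat_lit 557097) (nat_lit 13) (.e (nat_lit 172115) (nat_lit 10) (.e (nat_lit 434244) (nat_lit 28) (.e (nat_lit 573449) (nat_lit 9) (.e (nat_lit 395) (nat_lit 32) .nil))))) (.g (nat_lit 0) (.e (nat_lit 419368) (nat_lit 0) .nil) .nil))) 
(.lf (nat_lit 600950) (.g (nat_lit 1009) (.e (nat_lit 557104) (nat_lit 14) (.e (nat_lit 180251) (nat_lit 10) (.e (nat_lit 573487) (nat_lit 14) (.e (nat_lit 73753) (nat_lit 8) .nil)))) (.g (nat_lit 0) (.e (nat_lit 419934) (nat_lit 0) .nil) .nil))))) (.nd (nat_lit 8) (.nd (nat_lit 9) 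
(.lf (nat_lit 600310) (.g (nat_lit 3088) (.e (nat_lit 557096) (nat_lit 13) (.e (nat_lit 172126) (nat_lit 14) (.e (nat_lit 491537) (nat_lit 2) (.e (nat_lit 90185) (nat_lit 17) (.e (nat_lit 237618) (nat_lit 12) (.e (nat_lit 475184) (nat_lit 29) .nil)))))) (.g (nat_lit 1) (.e (nat_lit 419233) (nat_lit 0) .nil) .nil))) 
(.lf (nat_lit 600822) (.g (nat_lit 2718) (.e (nat_lit 557101) (nat_lit 13) (.e (nat_lit 172115) (nat_lit 10) (.e (nat_lit 434244) (nat_lit 28) (.e (nat_lit 573449) (nat_lit 9) (.e (nat_lit 455) (nat_lit 34) (.e (nat_lit 450304) (nat_lit 0) (.e (nat_lit 1860) (nat_lit 124) .nil))))))) (.g (nat_lit 1) (.e (nat_lit 419780) (nat_lit 0) .nil) .nil)))) (.nd (nat_lit 9) 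
(.lf (nat_lit 600566) (.g (nat_lit 3219) (.e (nat_lit 557098) (nat_lit 13) (.e (nat_lit 172115) (nat_lit 10) (.e (nat_lit 434244) (nat_lit 28) (.e (nat_lit 573451) (nat_lit 9) (.e (nat_lit 430) (nat_lit 32) (.e (nat_lit 426315) (nat_lit 12) (.e (nat_lit 475184) (nat_lit 29) .nil))))))) (.g (nat_lit 1) (.e (nat_lit 419501) (nat_lit 0) .nil) .nil))) 
(.lf (nat_lit 601078) (.g (nat_lit 2777) (.e (nat_lit 557105) (nat_lit 14) (.e (nat_lit 180252) (nat_lit 10) (.e (nat_lit 573475) (nat_lit 12) (.e (nat_lit 57503) (nat_lit 38) (.e (nat_lit 638984) (nat_lit 5) (.e (nat_lit 2472) (nat_lit 157) (.e (nat_lit 3307) (nat_lit 202) (.e (nat_lit 573489) (nat_lit 14) (.e (nat_lit 73755) (nat_lit 8) .nil))))))))) (.g (nat_lit 1) (.e (nat_lit 420135) (nat_lit 0) .nil) .nil))))))))) 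
(.nd (nat_lit 4) (.nd (nat_lit 5) (.nd (nat_lit 6) (.nd (nat_lit 7) (.nd (nat_lit 8) 
(.nd (nat_lit 9) 
(.lf (nat_lit 600078) (.g (nat_lit 4239) (.e (nat_lit 557090) (nat_lit 12) (.e (nat_lit 164018) (nat_lit 45) (.e (nat_lit 696328) (nat_lit 5) (.e (nat_lit 2884) (nat_lit 184) (.e (nat_lit 426125) (nat_lit 2) (.e (nat_lit 196666) (nat_lit 13) (.e (nat_lit 65617) (nat_lit 10) (.e (nat_lit 344130) (nat_lit 26) .nil)))))))) (.g (nat_lit 1) (.e (nat_lit 418846) (nat_lit 0) .nil) .nil))) 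
(.lf (nat_lit 600590) (.g (nat_lit 4127) (.e (nat_lit 557098) (nat_lit 13) (.e (nat_lit 172116) (nat_lit 10) (.e (nat_lit 434231) (nat_lit 23) (.e (nat_lit 532535) (nat_lit 9) (.e (nat_lit 336295) (nat_lit 15) .nil))))) (.g (nat_lit 0) (.e (nat_lit 419525) (nat_lit 0) .nil) .nil)))) (.nd (nat_lit 9) 
(.lf (nat_lit 600334) (.g (nat_lit 3432) (.e (nat_lit 557097) (nat_lit 13) (.e (nat_lit 172097) (nat_lit 9) (.e (nat_lit 426125) (nat_lit 2) (.e (nat_lit 196666) (nat_lit 13) (.e (nat_lit 65638) (nat_lit 15) (.e (nat_lit 3715) (nat_lit 227) (.e (nat_lit 778316) (nat_lit 3) (.e (nat_lit 57476) (nat_lit 28) .nil)))))))) (.g (nat_lit 1) (.e (nat_lit 419264) (nat_lit 0) .nil) .nil))) 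
(.lf (nat_lit 600846) (.g (nat_lit 2518) (.e (nat_lit 557101) (nat_lit 13) (.e (nat_lit 172115) (nat_lit 10) (.e (nat_lit 434244) (nat_lit 28) (.e (nat_lit 573450) (nat_lit 9) (.e (nat_lit 455) (nat_lit 34) (.e (nat_lit 442373) (nat_lit 0) (.e (nat_lit 1853) (nat_lit 124) .nil))))))) (.g (nat_lit 1) (.e (nat_lit 419804) (nat_lit 0) .nil) .nil))))) (.nd (nat_lit 8) (.nd (nat_lit 9) 
(.lf (nat_lit 600206) (.g (nat_lit 5017) (.e (nat_lit 557093) (nat_lit 12) (.e (nat_lit 164022) (nat_lit 46) (.e (nat_lit 704629) (nat_lit 9) (.e (nat_lit 375) (nat_lit 32) (.e (nat_lit 426140) (nat_lit 3) (.e (nat_lit 204869) (nat_lit 29) (.e (nat_lit 360474) (nat_lit 8) .nil))))))) (.g (nat_lit 1) (.e (nat_lit 419046) (nat_lit 0) .nil) .nil))) 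
(.lf (nat_lit 600718) (.g (nat_lit 1356) (.e (nat_lit 557100) (nat_lit 13) (.e (nat_lit 172113) (nat_lit 10) (.e (nat_lit 434247) (nat_lit 28) (.e (nat_lit 573471) (nat_lit 11) .nil)))) (.g (nat_lit 0) (.e (nat_lit 419663) (nat_lit 0) .nil) .nil)))) (.nd (nat_lit 9) 
(.lf (nat_lit 600462) (.g (nat_lit 2777) (.e (nat_lit 557097) (nat_lit 13) (.e (nat_lit 172115) (nat_lit 10) (.e (nat_lit 434244) (nat_lit 28) (.e (nat_lit 573458) (nat_lit 9) (.e (nat_lit 394) (nat_lit 32) (.e (nat_lit 426197) (nat_lit 9) (.e (nat_lit 426402) (nat_lit 15) (.e (nat_lit 1848) (nat_lit 124) .nil)))))))) (.g (nat_lit 1) (.e (nat_lit 419392) (nat_lit 0) .nil) .nil))) 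
(.lf (nat_lit 600974) (.g (nat_lit 3679) (.e (nat_lit 557104) (nat_lit 14) (.e (nat_lit 180252) (nat_lit 10) (.e (nat_lit 573482) (nat_lit 13) (.e (nat_lit 65568) (nat_lit 2) (.e (nat_lit 98048) (nat_lit 2) (.e (nat_lit 16392) (nat_lit 0) (.e (nat_lit 3277) (nat_lit 200) .nil))))))) (.g (nat_lit 1) (.e (nat_lit 419958) (nat_lit 0) .nil) .nil)))))) 
(.nd (nat_lit 7) (.nd (nat_lit 8) (.nd (nat_lit 9) 
(.lf (nat_lit 600142) (.g (nat_lit 4367) (.e (nat_lit 557093) (nat_lit 12) (.e (nat_lit 163848) (nat_lit 0) (.e (nat_lit 6252) (nat_lit 337) (.e (nat_lit 2630) (nat_lit 164) (.e (nat_lit 172062) (nat_lit 2) (.e (nat_lit 196666) (nat_lit 13) (.e (nat_lit 65617) (nat_lit 10) (.e (nat_lit 344132) (nat_lit 26) .nil)))))))) (.g (nat_lit 1) (.e (nat_lit 418953) (nat_lit 0) .nil) .nil))) 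
(.lf (nat_lit 600654) (.g (nat_lit 2704) (.e (nat_lit 557100) (nat_lit 13) (.e (nat_lit 172106) (nat_lit 10) (.e (nat_lit 434231) (nat_lit 23) (.e (nat_lit 532529) (nat_lit 9) (.e (nat_lit 336296) (nat_lit 15) (.e (nat_lit 3711) (nat_lit 227) (.e (nat_lit 778316) (nat_lit 3) (.e (nat_lit 57479) (nat_lit 28) .nil)))))))) (.g (nat_lit 1) (.e (nat_lit 419599) (nat_lit 0) .nil) .nil)))) 
(.nd (nat_lit 9) 
(.lf (nat_lit 600398) (.g (nat_lit 3893) (.e (nat_lit 557097) (nat_lit 13) (.e (nat_lit 172115) (nat_lit 10) (.e (nat_lit 434231) (nat_lit 23) (.e (nat_lit 532529) (nat_lit 9) (.e (nat_lit 336259) (nat_lit 15) (.e (nat_lit 3621) (nat_lit 227) (.e (nat_lit 778318) (nat_lit 3) (.e (nat_lit 57476) (nat_lit 28) .nil)))))))) (.g (nat_lit 1) (.e (nat_lit 419328) (nat_lit 0) .nil) .nil))) 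
(.lf (nat_lit 600910) (.g (nat_lit 1461) (.e (nat_lit 557103) (nat_lit 14) (.e (nat_lit 180244) (nat_lit 5) (.e (nat_lit 532481) (nat_lit 0) (.e (nat_lit 2271) (nat_lit 149) .nil)))) (.g (nat_lit 0) (.e (nat_lit 419874) (nat_lit 0) .nil) .nil))))) (.nd (nat_lit 8) (.nd (nat_lit 9) 
(.lf (nat_lit 600270) (.g (nat_lit 1101) (.e (nat_lit 557095) (nat_lit 13) (.e (nat_lit 172097) (nat_lit 9) (.e (nat_lit 426140) (nat_lit 3) (.e (nat_lit 204821) (nat_lit 17) .nil)))) (.g (nat_lit 0) (.e (nat_lit 419150) (nat_lit 0) .nil) .nil))) 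
(.lf (nat_lit 600782) (.g (nat_lit 4015) (.e (nat_lit 557101) (nat_lit 13) (.e (nat_lit 172115) (nat_lit 10) (.e (nat_lit 434231) (nat_lit 23) (.e (nat_lit 532535) (nat_lit 9) (.e (nat_lit 336250) (nat_lit 15) (.e (nat_lit 3705) (nat_lit 227) (.e (nat_lit 778316) (nat_lit 3) (.e (nat_lit 57479) (nat_lit 28) .nil)))))))) (.g (nat_lit 1) (.e (nat_lit 419740) (nat_lit 0) .nil) .nil)))) 
(.nd (nat_lit 9) 
(.lf (nat_lit 600526) (.g (nat_lit 4107) (.e (nat_lit 557098) (nat_lit 13) (.e (nat_lit 172115) (nat_lit 10) (.e (nat_lit 434231) (nat_lit 23) (.e (nat_lit 532535) (nat_lit 9) (.e (nat_lit 336250) (nat_lit 15) (.e (nat_lit 3705) (nat_lit 227) (.e (nat_lit 778316) (nat_lit 3) (.e (nat_lit 57480) (nat_lit 28) .nil)))))))) (.g (nat_lit 1) (.e (nat_lit 419459) (nat_lit 0) .nil) .nil))) 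
(.lf (nat_lit 601038) (.g (nat_lit 2322) (.e (nat_lit 557105) (nat_lit 14) (.e (nat_lit 180252) (nat_lit 10) (.e (nat_lit 573474) (nat_lit 12) (.e (nat_lit 57347) (nat_lit 0) (.e (nat_lit 5437) (nat_lit 306) .nil))))) (.g (nat_lit 0) (.e (nat_lit 420061) (nat_lit 0) .nil) .nil))))))) (.nd (nat_lit 6) (.nd (nat_lit 7) (.nd (nat_lit 8) (.nd (nat_lit 9) 
(.lf (nat_lit 600110) (.g (nat_lit 4270) (.e (nat_lit 557091) (nat_lit 12) (.e (nat_lit 164018) (nat_lit 45) (.e (nat_lit 696343) (nat_lit 8) (.e (nat_lit 172067) (nat_lit 3) (.e (nat_lit 204869) (nat_lit 29) (.e (nat_lit 360475) (nat_lit 8) .nil)))))) (.g (nat_lit 1) (.e (nat_lit 418911) (nat_lit 0) .nil) .nil))) 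
(.lf (nat_lit 600622) (.g (nat_lit 3137) (.e (nat_lit 557100) (nat_lit 13) (.e (nat_lit 172106) (nat_lit 10) (.e (nat_lit 434226) (nat_lit 20) (.e (nat_lit 507945) (nat_lit 18) (.e (nat_lit 303143) (nat_lit 12) (.e (nat_lit 475185) (nat_lit 29) .nil)))))) (.g (nat_lit 1) (.e (nat_lit 419567) (nat_lit 0) .nil) .nil)))) (.nd (nat_lit 9) 
(.lf (nat_lit 600366) (.g (nat_lit 3001) (.e (nat_lit 557097) (nat_lit 13) (.e (nat_lit 172115) (nat_lit 10) (.e (nat_lit 434231) (nat_lit 23) (.e (nat_lit 532490) (nat_lit 0) (.e (nat_lit 6674) (nat_lit 357) (.e (nat_lit 2940) (nat_lit 184) (.e (nat_lit 426401) (nat_lit 15) (.e (nat_lit 1849) (nat_lit 124) .nil)))))))) (.g (nat_lit 1) (.e (nat_lit 419296) (nat_lit 0) .nil) .nil))) 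
(.lf (nat_lit 600878) (.g (nat_lit 2439) (.e (nat_lit 557101) (nat_lit 13) (.e (nat_lit 172115) (nat_lit 10) (.e (nat_lit 434244) (nat_lit 28) (.e (nat_lit 573458) (nat_lit 9) (.e (nat_lit 426) (nat_lit 32) (.e (nat_lit 426314) (nat_lit 12) (.e (nat_lit 475184) (nat_lit 29) .nil))))))) (.g (nat_lit 1) (.e (nat_lit 419836) (nat_lit 0) .nil) .nil))))) (.nd (nat_lit 8) (.nd (nat_lit 9) 
(.lf (nat_lit 600238) (.g (nat_lit 3031) (.e (nat_lit 557094) (nat_lit 12) (.e (nat_lit 163847) (nat_lit 0) (.e (nat_lit 6420) (nat_lit 341) (.e (nat_lit 163917) (nat_lit 13) (.e (nat_lit 434231) (nat_lit 23) (.e (nat_lit 532550) (nat_lit 12) (.e (nat_lit 360474) (nat_lit 8) .nil))))))) (.g (nat_lit 1) (.e (nat_lit 419081) (nat_lit 0) .nil) .nil))) 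
(.lf (nat_lit 600750) (.g (nat_lit 3316) (.e (nat_lit 557101) (nat_lit 13) (.e (nat_lit 172097) (nat_lit 9) (.e (nat_lit 426140) (nat_lit 3) (.e (nat_lit 204821) (nat_lit 17) (.e (nat_lit 6674) (nat_lit 357) (.e (nat_lit 2940) (nat_lit 184) (.e (nat_lit 426401) (nat_lit 15) (.e (nat_lit 1858) (nat_lit 124) .nil)))))))) (.g (nat_lit 1) (.e (nat_lit 419708) (nat_lit 0) .nil) .nil)))) 
(.nd (nat_lit 9) 
(.lf (nat_lit 600494) (.g (nat_lit 1423) (.e (nat_lit 557098) (nat_lit 13) (.e (nat_lit 172112) (nat_lit 10) (.e (nat_lit 434248) (nat_lit 28) (.e (nat_lit 573469) (nat_lit 11) .nil)))) (.g (nat_lit 0) (.e (nat_lit 419427) (nat_lit 0) .nil) .nil))) 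
(.lf (nat_lit 601006) (.g (nat_lit 2236) (.e (nat_lit 557105) (nat_lit 14) (.e (nat_lit 180251) (nat_lit 10) (.e (nat_lit 573485) (nat_lit 13) (.e (nat_lit 65568) (nat_lit 2) (.e (nat_lit 98048) (nat_lit 2) (.e (nat_lit 16393) (nat_lit 0) (.e (nat_lit 7936) (nat_lit 200) .nil))))))) (.g (nat_lit 1) (.e (nat_lit 419994) (nat_lit 0) .nil) .nil)))))) 
(.nd (nat_lit 7) (.nd (nat_lit 8) (.nd (nat_lit 9) 
(.lf (nat_lit 600174) (.g (nat_lit 3171) (.e (nat_lit 557093) (nat_lit 12) (.e (nat_lit 164018) (nat_lit 45) (.e (nat_lit 696328) (nat_lit 5) (.e (nat_lit 2884) (nat_lit 184) (.e (nat_lit 426140) (nat_lit 3) (.e (nat_lit 204869) (nat_lit 29) (.e (nat_lit 360474) (nat_lit 8) .nil))))))) (.g (nat_lit 1) (.e (nat_lit 419008) (nat_lit 0) .nil) .nil))) 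
(.lf (nat_lit 600686) (.g (nat_lit 2948) (.e (nat_lit 557100) (nat_lit 13) (.e (nat_lit 172106) (nat_lit 10) (.e (nat_lit 434244) (nat_lit 28) (.e (nat_lit 573449) (nat_lit 9) (.e (nat_lit 372) (nat_lit 32) (.e (nat_lit 426320) (nat_lit 12) (.e (nat_lit 475185) (nat_lit 29) .nil))))))) (.g (nat_lit 1) (.e (nat_lit 419631) (nat_lit 0) .nil) .nil)))) (.nd (nat_lit 9) 
(.lf (nat_lit 600430) (.g (nat_lit 3313) (.e (nat_lit 557097) (nat_lit 13) (.e (nat_lit 172115) (nat_lit 10) (.e (nat_lit 434231) (nat_lit 23) (.e (nat_lit 532535) (nat_lit 9) (.e (nat_lit 336290) (nat_lit 15) (.e (nat_lit 3715) (nat_lit 227) (.e (nat_lit 778316) (nat_lit 3) (.e (nat_lit 57477) (nat_lit 28) .nil)))))))) (.g (nat_lit 1) (.e (nat_lit 419360) (nat_lit 0) .nil) .nil))) 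
(.lf (nat_lit 600942) (.g (nat_lit 782) (.e (nat_lit 557104) (nat_lit 14) (.e (nat_lit 180250) (nat_lit 10) (.e (nat_lit 573473) (nat_lit 12) .nil))) (.g (nat_lit 0) (.e (nat_lit 419926) (nat_lit 0) .nil) .nil))))) (.nd (nat_lit 8) (.nd (nat_lit 9) 
(.lf (nat_lit 600302) (.g (nat_lit 3103) (.e (nat_lit 557096) (nat_lit 13) (.e (nat_lit 172106) (nat_lit 10) (.e (nat_lit 434231) (nat_lit 23) (.e (nat_lit 532535) (nat_lit 9) (.e (nat_lit 336295) (nat_lit 15) (.e (nat_lit 3630) (nat_lit 227) (.e (nat_lit 778318) (nat_lit 3) (.e (nat_lit 57476) (nat_lit 28) .nil)))))))) (.g (nat_lit 1) (.e (nat_lit 419225) (nat_lit 0) .nil) .nil))) 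
(.lf (nat_lit 600814) (.g (nat_lit 2234) (.e (nat_lit 557101) (nat_lit 13) (.e (nat_lit 172115) (nat_lit 10) (.e (nat_lit 434244) (nat_lit 28) (.e (nat_lit 573449) (nat_lit 9) (.e (nat_lit 437) (nat_lit 32) (.e (nat_lit 426196) (nat_lit 9) (.e (nat_lit 426354) (nat_lit 15) (.e (nat_lit 1860) (nat_lit 124) .nil)))))))) (.g (nat_lit 1) (.e (nat_lit 419772) (nat_lit 0) .nil) .nil)))) 
(.nd (nat_lit 9) 
(.lf (nat_lit 600558) (.g (nat_lit 2914) (.e (nat_lit 557098) (nat_lit 13) (.e (nat_lit 172115) (nat_lit 10) (.e (nat_lit 434244) (nat_lit 28) (.e (nat_lit 573450) (nat_lit 9) (.e (nat_lit 457) (nat_lit 34) (.e (nat_lit 442374) (nat_lit 0) (.e (nat_lit 1846) (nat_lit 124) .nil))))))) (.g (nat_lit 1) (.e (nat_lit 419493) (nat_lit 0) .nil) .nil))) 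
(.lf (nat_lit 601070) (.g (nat_lit 5345) (.e (nat_lit 557105) (nat_lit 14) (.e (nat_lit 180252) (nat_lit 10) (.e (nat_lit 573474) (nat_lit 12) (.e (nat_lit 57504) (nat_lit 38) (.e (nat_lit 638996) (nat_lit 7) (.e (nat_lit 163977) (nat_lit 30) (.e (nat_lit 573489) (nat_lit 14) (.e (nat_lit 73755) (nat_lit 8) .nil)))))))) (.g (nat_lit 1) (.e (nat_lit 420120) (nat_lit 0) .nil) .nil)))))))) 
(.nd (nat_lit 5) (.nd (nat_lit 6) (.nd (nat_lit 7) (.nd (nat_lit 8) (.nd (nat_lit 9) 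
(.lf (nat_lit 600094) (.g (nat_lit 5425) (.e (nat_lit 557090) (nat_lit 12) (.e (nat_lit 164022) (nat_lit 46) (.e (nat_lit 704629) (nat_lit 9) (.e (nat_lit 375) (nat_lit 32) (.e (nat_lit 426140) (nat_lit 3) (.e (nat_lit 204855) (nat_lit 26) (.e (nat_lit 336176) (nat_lit 10) (.e (nat_lit 344130) (nat_lit 26) .nil)))))))) (.g (nat_lit 1) (.e (nat_lit 418877) (nat_lit 0) .nil) .nil))) 
(.lf (nat_lit 600606) (.g (nat_lit 2611) (.e (nat_lit 557099) (nat_lit 13) (.e (nat_lit 172120) (nat_lit 12) (.e (nat_lit 475185) (nat_lit 29) (.e (nat_lit 557109) (nat_lit 15) .nil)))) (.g (nat_lit 0) (.e (nat_lit 419544) (nat_lit 0) .nil) .nil)))) (.nd (nat_lit 9) 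
(.lf (nat_lit 600350) (.g (nat_lit 2164) (.e (nat_lit 557097) (nat_lit 13) (.e (nat_lit 172115) (nat_lit 10) (.e (nat_lit 434231) (nat_lit 23) (.e (nat_lit 532481) (nat_lit 0) (.e (nat_lit 6647) (nat_lit 357) .nil))))) (.g (nat_lit 0) (.e (nat_lit 419280) (nat_lit 0) .nil) .nil))) 
(.lf (nat_lit 600862) (.g (nat_lit 2859) (.e (nat_lit 557101) (nat_lit 13) (.e (nat_lit 172115) (nat_lit 10) (.e (nat_lit 434244) (nat_lit 28) (.e (nat_lit 573451) (nat_lit 9) (.e (nat_lit 430) (nat_lit 32) (.e (nat_lit 426315) (nat_lit 12) (.e (nat_lit 475183) (nat_lit 29) .nil))))))) (.g (nat_lit 1) (.e (nat_lit 419820) (nat_lit 0) .nil) .nil))))) (.nd (nat_lit 8) (.nd (nat_lit 9) 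
(.lf (nat_lit 600222) (.g (nat_lit 1876) (.e (nat_lit 557093) (nat_lit 12) (.e (nat_lit 164022) (nat_lit 46) (.e (nat_lit 704738) (nat_lit 11) (.e (nat_lit 16403) (nat_lit 0) .nil)))) (.g (nat_lit 0) (.e (nat_lit 419062) (nat_lit 0) .nil) .nil))) 
(.lf (nat_lit 600734) (.g (nat_lit 1665) (.e (nat_lit 557101) (nat_lit 13) (.e (nat_lit 172066) (nat_lit 3) (.e (nat_lit 204829) (nat_lit 18) (.e (nat_lit 57704) (nat_lit 164) .nil)))) (.g (nat_lit 0) (.e (nat_lit 419690) (nat_lit 0) .nil) .nil)))) (.nd (nat_lit 9) 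
(.lf (nat_lit 600478) (.g (nat_lit 2462) (.e (nat_lit 557097) (nat_lit 13) (.e (nat_lit 172133) (nat_lit 15) (.e (nat_lit 1800) (nat_lit 119) (.e (nat_lit 516119) (nat_lit 1) (.e (nat_lit 164345) (nat_lit 240) (.e (nat_lit 2599) (nat_lit 163) (.e (nat_lit 163962) (nat_lit 25) (.e (nat_lit 532544) (nat_lit 10) (.e (nat_lit 344130) (nat_lit 26) .nil))))))))) (.g (nat_lit 1) (.e (nat_lit 419408) (nat_lit 0) .nil) .nil))) 
(.lf (nat_lit 600990) (.g (nat_lit 2795) (.e (nat_lit 557105) (nat_lit 14) (.e (nat_lit 180251) (nat_lit 10) (.e (nat_lit 573484) (nat_lit 13) (.e (nat_lit 65568) (nat_lit 2) (.e (nat_lit 98048) (nat_lit 2) (.e (nat_lit 16388) (nat_lit 0) (.e (nat_lit 3276) (nat_lit 200) .nil))))))) (.g (nat_lit 1) (.e (nat_lit 419978) (nat_lit 0) .nil) .nil)))))) 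
(.nd (nat_lit 7) (.nd (nat_lit 8) (.nd (nat_lit 9) 
(.lf (nat_lit 600158) (.g (nat_lit 4119) (.e (nat_lit 557093) (nat_lit 12) (.e (nat_lit 163849) (nat_lit 0) (.e (nat_lit 6255) (nat_lit 337) (.e (nat_lit 2630) (nat_lit 164) (.e (nat_lit 172065) (nat_lit 3) (.e (nat_lit 204869) (nat_lit 29) (.e (nat_lit 360474) (nat_lit 8) .nil))))))) (.g (nat_lit 1) (.e (nat_lit 418980) (nat_lit 0) .nil) .nil))) 
(.lf (nat_lit 600670) (.g (nat_lit 2578) (.e (nat_lit 557100) (nat_lit 13) (.e (nat_lit 172106) (nat_lit 10) (.e (nat_lit 434231) (nat_lit 23) (.e (nat_lit 532535) (nat_lit 9) (.e (nat_lit 336295) (nat_lit 15) (.e (nat_lit 3629) (nat_lit 227) (.e (nat_lit 778317) (nat_lit 3) (.e (nat_lit 57474) (nat_lit 28) .nil)))))))) (.g (nat_lit 1) (.e (nat_lit 419615) (nat_lit 0) .nil) .nil)))) 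
(.nd (nat_lit 9) 
(.lf (nat_lit 600414) (.g (nat_lit 4140) (.e (nat_lit 557097) (nat_lit 13) (.e (nat_lit 172115) (nat_lit 10) (.e (nat_lit 434231) (nat_lit 23) (.e (nat_lit 532529) (nat_lit 9) (.e (nat_lit 336303) (nat_lit 15) (.e (nat_lit 3618) (nat_lit 227) (.e (nat_lit 778318) (nat_lit 3) (.e (nat_lit 57476) (nat_lit 28) .nil)))))))) (.g (nat_lit 1) (.e (nat_lit 419344) (nat_lit 0) .nil) .nil))) 
(.lf (nat_lit 600926) (.g (nat_lit 3092) (.e (nat_lit 557103) (nat_lit 14) (.e (nat_lit 180250) (nat_lit 10) (.e (nat_lit 573480) (nat_lit 13) (.e (nat_lit 65568) (nat_lit 2) (.e (nat_lit 98048) (nat_lit 2) (.e (nat_lit 16392) (nat_lit 0) (.e (nat_lit 3279) (nat_lit 200) .nil))))))) (.g (nat_lit 1) (.e (nat_lit 419892) (nat_lit 0) .nil) .nil))))) (.nd (nat_lit 8) (.nd (nat_lit 9) 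
(.lf (nat_lit 600286) (.g (nat_lit 2210) (.e (nat_lit 557095) (nat_lit 13) (.e (nat_lit 172115) (nat_lit 10) (.e (nat_lit 434231) (nat_lit 23) (.e (nat_lit 532535) (nat_lit 9) (.e (nat_lit 336291) (nat_lit 15) .nil))))) (.g (nat_lit 0) (.e (nat_lit 419181) (nat_lit 0) .nil) .nil))) 
(.lf (nat_lit 600798) (.g (nat_lit 2357) (.e (nat_lit 557101) (nat_lit 13) (.e (nat_lit 172115) (nat_lit 10) (.e (nat_lit 434238) (nat_lit 25) (.e (nat_lit 548898) (nat_lit 14) (.e (nat_lit 2868) (nat_lit 184) (.e (nat_lit 426312) (nat_lit 12) (.e (nat_lit 475185) (nat_lit 29) .nil))))))) (.g (nat_lit 1) (.e (nat_lit 419756) (nat_lit 0) .nil) .nil)))) (.nd (nat_lit 9) 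
(.lf (nat_lit 600542) (.g (nat_lit 1786) (.e (nat_lit 557098) (nat_lit 13) (.e (nat_lit 172115) (nat_lit 10) (.e (nat_lit 434244) (nat_lit 28) (.e (nat_lit 573449) (nat_lit 9) (.e (nat_lit 457) (nat_lit 34) .nil))))) (.g (nat_lit 0) (.e (nat_lit 419475) (nat_lit 0) .nil) .nil))) 
(.lf (nat_lit 601054) (.g (nat_lit 3645) (.e (nat_lit 557105) (nat_lit 14) (.e (nat_lit 180252) (nat_lit 10) (.e (nat_lit 573474) (nat_lit 12) (.e (nat_lit 57503) (nat_lit 38) (.e (nat_lit 638995) (nat_lit 7) (.e (nat_lit 163977) (nat_lit 30) (.e (nat_lit 573487) (nat_lit 14) (.e (nat_lit 73753) (nat_lit 8) .nil)))))))) (.g (nat_lit 1) (.e (nat_lit 420103) (nat_lit 0) .nil) .nil))))))) 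
(.nd (nat_lit 6) (.nd (nat_lit 7) (.nd (nat_lit 8) (.nd (nat_lit 9) 
(.lf (nat_lit 600126) (.g (nat_lit 480) (.e (nat_lit 557091) (nat_lit 12) (.e (nat_lit 164022) (nat_lit 46) (.e (nat_lit 704629) (nat_lit 9) .nil))) (.g (nat_lit 0) (.e (nat_lit 418934) (nat_lit 0) .nil) .nil))) 
(.lf (nat_lit 600638) (.g (nat_lit 4485) (.e (nat_lit 557100) (nat_lit 13) (.e (nat_lit 172106) (nat_lit 10) (.e (nat_lit 434231) (nat_lit 23) (.e (nat_lit 532490) (nat_lit 0) (.e (nat_lit 6674) (nat_lit 357) (.e (nat_lit 2940) (nat_lit 184) (.e (nat_lit 426401) (nat_lit 15) (.e (nat_lit 1858) (nat_lit 124) .nil)))))))) (.g (nat_lit 1) (.e (nat_lit 419583) (nat_lit 0) .nil) .nil)))) 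
(.nd (nat_lit 9) 
(.lf (nat_lit 600382) (.g (nat_lit 3841) (.e (nat_lit 557097) (nat_lit 13) (.e (nat_lit 172115) (nat_lit 10) (.e (nat_lit 434231) (nat_lit 23) (.e (nat_lit 532529) (nat_lit 9) (.e (nat_lit 336257) (nat_lit 15) (.e (nat_lit 3618) (nat_lit 227) (.e (nat_lit 778318) (nat_lit 3) (.e (nat_lit 57476) (nat_lit 28) .nil)))))))) (.g (nat_lit 1) (.e (nat_lit 419312) (nat_lit 0) .nil) .nil))) 
(.lf (nat_lit 600894) (.g (nat_lit 4276) (.e (nat_lit 557101) (nat_lit 13) (.e (nat_lit 172115) (nat_lit 10) (.e (nat_lit 434244) (nat_lit 28) (.e (nat_lit 573474) (nat_lit 12) (.e (nat_lit 57346) (nat_lit 0) .nil))))) (.g (nat_lit 0) (.e (nat_lit 419852) (nat_lit 0) .nil) .nil))))) (.nd (nat_lit 8) (.nd (nat_lit 9) 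
(.lf (nat_lit 600254) (.g (nat_lit 1352) (.e (nat_lit 557094) (nat_lit 12) (.e (nat_lit 164022) (nat_lit 46) (.e (nat_lit 704629) (nat_lit 9) (.e (nat_lit 433) (nat_lit 32) .nil)))) (.g (nat_lit 0) (.e (nat_lit 419124) (nat_lit 0) .nil) .nil))) 
(.lf (nat_lit 600766) (.g (nat_lit 3329) (.e (nat_lit 557101) (nat_lit 13) (.e (nat_lit 172115) (nat_lit 10) (.e (nat_lit 434231) (nat_lit 23) (.e (nat_lit 532483) (nat_lit 0) (.e (nat_lit 6684) (nat_lit 357) .nil))))) (.g (nat_lit 0) (.e (nat_lit 419724) (nat_lit 0) .nil) .nil)))) (.nd (nat_lit 9) 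
(.lf (nat_lit 600510) (.g (nat_lit 2690) (.e (nat_lit 557098) (nat_lit 13) (.e (nat_lit 172115) (nat_lit 10) (.e (nat_lit 434231) (nat_lit 23) (.e (nat_lit 532490) (nat_lit 0) (.e (nat_lit 6676) (nat_lit 357) (.e (nat_lit 3067) (nat_lit 190) (.e (nat_lit 475184) (nat_lit 29) .nil))))))) (.g (nat_lit 1) (.e (nat_lit 419443) (nat_lit 0) .nil) .nil))) 
(.lf (nat_lit 601022) (.g (nat_lit 4843) (.e (nat_lit 557105) (nat_lit 14) (.e (nat_lit 180252) (nat_lit 10) (.e (nat_lit 573473) (nat_lit 12) (.e (nat_lit 57501) (nat_lit 37) (.e (nat_lit 630799) (nat_lit 7) (.e (nat_lit 163978) (nat_lit 30) (.e (nat_lit 573489) (nat_lit 14) (.e (nat_lit 73755) (nat_lit 8) .nil)))))))) (.g (nat_lit 1) (.e (nat_lit 420031) (nat_lit 0) .nil) .nil)))))) 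
(.nd (nat_lit 7) (.nd (nat_lit 8) (.nd (nat_lit 9) 
(.lf (nat_lit 600190) (.g (nat_lit 3952) (.e (nat_lit 557093) (nat_lit 12) (.e (nat_lit 164018) (nat_lit 45) (.e (nat_lit 696343) (nat_lit 8) (.e (nat_lit 172067) (nat_lit 3) (.e (nat_lit 204855) (nat_lit 26) (.e (nat_lit 336176) (nat_lit 10) (.e (nat_lit 344132) (nat_lit 26) .nil))))))) (.g (nat_lit 1) (.e (nat_lit 419028) (nat_lit 0) .nil) .nil))) 
(.lf (nat_lit 600702) (.g (nat_lit 2509) (.e (nat_lit 557100) (nat_lit 13) (.e (nat_lit 172113) (nat_lit 10) (.e (nat_lit 434245) (nat_lit 28) (.e (nat_lit 573469) (nat_lit 11) (.e (nat_lit 16458) (nat_lit 12) (.e (nat_lit 475184) (nat_lit 29) .nil)))))) (.g (nat_lit 1) (.e (nat_lit 419647) (nat_lit 0) .nil) .nil)))) (.nd (nat_lit 9) 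
(.lf (nat_lit 600446) (.g (nat_lit 2322) (.e (nat_lit 557097) (nat_lit 13) (.e (nat_lit 172115) (nat_lit 10) (.e (nat_lit 434244) (nat_lit 28) (.e (nat_lit 573449) (nat_lit 9) (.e (nat_lit 7936) (nat_lit 34) (.e (nat_lit 450304) (nat_lit 0) (.e (nat_lit 1848) (nat_lit 124) .nil))))))) (.g (nat_lit 1) (.e (nat_lit 419376) (nat_lit 0) .nil) .nil))) 
(.lf (nat_lit 600958) (.g (nat_lit 3121) (.e (nat_lit 557104) (nat_lit 14) (.e (nat_lit 180252) (nat_lit 10) (.e (nat_lit 573474) (nat_lit 12) (.e (nat_lit 57503) (nat_lit 38) (.e (nat_lit 638994) (nat_lit 7) .nil))))) (.g (nat_lit 0) (.e (nat_lit 419942) (nat_lit 0) .nil) .nil))))) (.nd (nat_lit 8) (.nd (nat_lit 9) 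
(.lf (nat_lit 600318) (.g (nat_lit 2196) (.e (nat_lit 557096) (nat_lit 13) (.e (nat_lit 172133) (nat_lit 15) (.e (nat_lit 1800) (nat_lit 119) (.e (nat_lit 516119) (nat_lit 1) (.e (nat_lit 164345) (nat_lit 240) (.e (nat_lit 2601) (nat_lit 163) (.e (nat_lit 163962) (nat_lit 25) (.e (nat_lit 532544) (nat_lit 10) (.e (nat_lit 344131) (nat_lit 26) .nil))))))))) (.g (nat_lit 1) (.e (nat_lit 419241) (nat_lit 0) .nil) .nil))) 
(.lf (nat_lit 600830) (.g (nat_lit 3807) (.e (nat_lit 557101) (nat_lit 13) (.e (nat_lit 172115) (nat_lit 10) (.e (nat_lit 434244) (nat_lit 28) (.e (nat_lit 573450) (nat_lit 9) (.e (nat_lit 375) (nat_lit 32) (.e (nat_lit 426201) (nat_lit 9) (.e (nat_lit 426361) (nat_lit 15) (.e (nat_lit 1860) (nat_lit 124) .nil)))))))) (.g (nat_lit 1) (.e (nat_lit 419788) (nat_lit 0) .nil) .nil)))) 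
(.nd (nat_lit 9) 
(.lf (nat_lit 600574) (.g (nat_lit 3463) (.e (nat_lit 557098) (nat_lit 13) (.e (nat_lit 172115) (nat_lit 10) (.e (nat_lit 434244) (nat_lit 28) (.e (nat_lit 573458) (nat_lit 9) (.e (nat_lit 426) (nat_lit 32) (.e (nat_lit 426196) (nat_lit 9) (.e (nat_lit 426402) (nat_lit 15) (.e (nat_lit 1859) (nat_lit 124) .nil)))))))) (.g (nat_lit 1) (.e (nat_lit 419509) (nat_lit 0) .nil) .nil))) 
(.lf (nat_lit 601086) (.g (nat_lit 2558) (.e (nat_lit 557105) (nat_lit 14) (.e (nat_lit 180252) (nat_lit 10) (.e (nat_lit 573480) (nat_lit 13) (.e (nat_lit 65568) (nat_lit 2) (.e (nat_lit 98048) (nat_lit 2) (.e (nat_lit 16392) (nat_lit 0) (.e (nat_lit 3277) (nat_lit 200) .nil))))))) (.g (nat_lit 1) (.e (nat_lit 420143) (nat_lit 0) .nil) .nil)))))))))))) 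
(.nd (nat_lit 1) (.nd (nat_lit 2) (.nd (nat_lit 3) (.nd (nat_lit 4) (.nd (nat_lit 5) 
(.nd (nat_lit 6) (.nd (nat_lit 7) (.nd (nat_lit 8) (.nd (nat_lit 9) 
(.lf (nat_lit 600065) (.g (nat_lit 4220) (.e (nat_lit 557090) (nat_lit 12) (.e (nat_lit 163847) (nat_lit 0) (.e (nat_lit 6416) (nat_lit 341) (.e (nat_lit 163900) (nat_lit 12) (.e (nat_lit 426125) (nat_lit 2) (.e (nat_lit 196666) (nat_lit 13) (.e (nat_lit 65617) (nat_lit 10) (.e (nat_lit 344130) (nat_lit 26) .nil)))))))) (.g (nat_lit 1) (.e (nat_lit 418805) (nat_lit 0) .nil) .nil))) 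
(.lf (nat_lit 600577) (.g (nat_lit 1276) (.e (nat_lit 557098) (nat_lit 13) (.e (nat_lit 172115) (nat_lit 10) (.e (nat_lit 434244) (nat_lit 28) (.e (nat_lit 573458) (nat_lit 9) (.e (nat_lit 7936) (nat_lit 34) .nil))))) (.g (nat_lit 0) (.e (nat_lit 419512) (nat_lit 0) .nil) .nil)))) (.nd (nat_lit 9) 
(.lf (nat_lit 600321) (.g (nat_lit 1322) (.e (nat_lit 557097) (nat_lit 13) (.e (nat_lit 172067) (nat_lit 3) (.e (nat_lit 204830) (nat_lit 18) (.e (nat_lit 65280) (nat_lit 168) .nil)))) (.g (nat_lit 0) (.e (nat_lit 419250) (nat_lit 0) .nil) .nil))) 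
(.lf (nat_lit 600833) (.g (nat_lit 2786) (.e (nat_lit 557101) (nat_lit 13) (.e (nat_lit 172115) (nat_lit 10) (.e (nat_lit 434244) (nat_lit 28) (.e (nat_lit 573450) (nat_lit 9) (.e (nat_lit 386) (nat_lit 32) (.e (nat_lit 426230) (nat_lit 9) (.e (nat_lit 426353) (nat_lit 15) (.e (nat_lit 1860) (nat_lit 124) .nil)))))))) (.g (nat_lit 1) (.e (nat_lit 419791) (nat_lit 0) .nil) .nil))))) 
(.nd (nat_lit 8) (.nd (nat_lit 9) 
(.lf (nat_lit 600193) (.g (nat_lit 4620) (.e (nat_lit 557093) (nat_lit 12) (.e (nat_lit 164018) (nat_lit 45) (.e (nat_lit 696344) (nat_lit 8) (.e (nat_lit 172064) (nat_lit 2) (.e (nat_lit 196666) (nat_lit 13) (.e (nat_lit 65617) (nat_lit 10) (.e (nat_lit 344132) (nat_lit 26) .nil))))))) (.g (nat_lit 1) (.e (nat_lit 419031) (nat_lit 0) .nil) .nil))) 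
(.lf (nat_lit 600705) (.g (nat_lit 2162) (.e (nat_lit 557100) (nat_lit 13) (.e (nat_lit 172113) (nat_lit 10) (.e (nat_lit 434245) (nat_lit 28) (.e (nat_lit 573471) (nat_lit 11) (.e (nat_lit 16432) (nat_lit 9) .nil))))) (.g (nat_lit 0) (.e (nat_lit 419650) (nat_lit 0) .nil) .nil)))) (.nd (nat_lit 9) 
(.lf (nat_lit 600449) (.g (nat_lit 2818) (.e (nat_lit 557097) (nat_lit 13) (.e (nat_lit 172115) (nat_lit 10) (.e (nat_lit 434244) (nat_lit 28) (.e (nat_lit 573450) (nat_lit 9) (.e (nat_lit 389) (nat_lit 32) (.e (nat_lit 426197) (nat_lit 9) (.e (nat_lit 426402) (nat_lit 15) (.e (nat_lit 1848) (nat_lit 124) .nil)))))))) (.g (nat_lit 1) (.e (nat_lit 419379) (nat_lit 0) .nil) .nil))) 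
(.lf (nat_lit 600961) (.g (nat_lit 3319) (.e (nat_lit 557104) (nat_lit 14) (.e (nat_lit 180252) (nat_lit 10) (.e (nat_lit 573474) (nat_lit 12) (.e (nat_lit 57504) (nat_lit 38) (.e (nat_lit 638995) (nat_lit 7) (.e (nat_lit 163979) (nat_lit 30) (.e (nat_lit 573488) (nat_lit 14) (.e (nat_lit 73755) (nat_lit 8) .nil)))))))) (.g (nat_lit 1) (.e (nat_lit 419945) (nat_lit 0) .nil) .nil)))))) 
(.nd (nat_lit 7) (.nd (nat_lit 8) (.nd (nat_lit 9) 
(.lf (nat_lit 600129) (.g (nat_lit 5440) (.e (nat_lit 557091) (nat_lit 12) (.e (nat_lit 164022) (nat_lit 46) (.e (nat_lit 704629) (nat_lit 9) (.e (nat_lit 375) (nat_lit 32) (.e (nat_lit 426140) (nat_lit 3) (.e (nat_lit 204869) (nat_lit 29) (.e (nat_lit 360475) (nat_lit 8) .nil))))))) (.g (nat_lit 1) (.e (nat_lit 418937) (nat_lit 0) .nil) .nil))) 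
(.lf (nat_lit 600641) (.g (nat_lit 4773) (.e (nat_lit 557100) (nat_lit 13) (.e (nat_lit 172106) (nat_lit 10) (.e (nat_lit 434231) (nat_lit 23) (.e (nat_lit 532490) (nat_lit 0) (.e (nat_lit 6680) (nat_lit 357) (.e (nat_lit 2856) (nat_lit 184) (.e (nat_lit 426402) (nat_lit 15) (.e (nat_lit 1858) (nat_lit 124) .nil)))))))) (.g (nat_lit 1) (.e (nat_lit 419586) (nat_lit 0) .nil) .nil)))) 
(.nd (nat_lit 9) 
(.lf (nat_lit 600385) (.g (nat_lit 3752) (.e (nat_lit 557097) (nat_lit 13) (.e (nat_lit 172115) (nat_lit 10) (.e (nat_lit 434231) (nat_lit 23) (.e (nat_lit 532529) (nat_lit 9) (.e (nat_lit 336257) (nat_lit 15) (.e (nat_lit 3621) (nat_lit 227) (.e (nat_lit 778318) (nat_lit 3) (.e (nat_lit 57476) (nat_lit 28) .nil)))))))) (.g (nat_lit 1) (.e (nat_lit 419315) (nat_lit 0) .nil) .nil))) 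
(.lf (nat_lit 600897) (.g (nat_lit 3875) (.e (nat_lit 557101) (nat_lit 13) (.e (nat_lit 172115) (nat_lit 10) (.e (nat_lit 434244) (nat_lit 28) (.e (nat_lit 573474) (nat_lit 12) (.e (nat_lit 57348) (nat_lit 0) .nil))))) (.g (nat_lit 0) (.e (nat_lit 419855) (nat_lit 0) .nil) .nil))))) (.nd (nat_lit 8) (.nd (nat_lit 9) 
(.lf (nat_lit 600257) (.g (nat_lit 3313) (.e (nat_lit 557094) (nat_lit 12) (.e (nat_lit 164022) (nat_lit 46) (.e (nat_lit 704629) (nat_lit 9) (.e (nat_lit 442) (nat_lit 33) (.e (nat_lit 434234) (nat_lit 23) .nil))))) (.g (nat_lit 0) (.e (nat_lit 419128) (nat_lit 0) .nil) .nil))) 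
(.lf (nat_lit 600769) (.g (nat_lit 2927) (.e (nat_lit 557101) (nat_lit 13) (.e (nat_lit 172115) (nat_lit 10) (.e (nat_lit 434231) (nat_lit 23) (.e (nat_lit 532490) (nat_lit 0) (.e (nat_lit 6676) (nat_lit 357) (.e (nat_lit 2857) (nat_lit 184) (.e (nat_lit 426402) (nat_lit 15) (.e (nat_lit 1858) (nat_lit 124) .nil)))))))) (.g (nat_lit 1) (.e (nat_lit 419727) (nat_lit 0) .nil) .nil)))) 
(.nd (nat_lit 9) 
(.lf (nat_lit 600513) (.g (nat_lit 3097) (.e (nat_lit 557098) (nat_lit 13) (.e (nat_lit 172115) (nat_lit 10) (.e (nat_lit 434231) (nat_lit 23) (.e (nat_lit 532490) (nat_lit 0) (.e (nat_lit 6680) (nat_lit 357) (.e (nat_lit 2856) (nat_lit 184) (.e (nat_lit 426402) (nat_lit 15) (.e (nat_lit 1849) (nat_lit 124) .nil)))))))) (.g (nat_lit 1) (.e (nat_lit 419446) (nat_lit 0) .nil) .nil))) 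
(.lf (nat_lit 601025) (.g (nat_lit 5157) (.e (nat_lit 557105) (nat_lit 14) (.e (nat_lit 180252) (nat_lit 10) (.e (nat_lit 573473) (nat_lit 12) (.e (nat_lit 57503) (nat_lit 38) (.e (nat_lit 638995) (nat_lit 7) (.e (nat_lit 163977) (nat_lit 30) (.e (nat_lit 573489) (nat_lit 14) (.e (nat_lit 73755) (nat_lit 8) .nil)))))))) (.g (nat_lit 1) (.e (nat_lit 420034) (nat_lit 0) .nil) .nil))))))) 
(.nd (nat_lit 6) (.nd (nat_lit 7) (.nd (nat_lit 8) (.nd (nat_lit 9) 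
(.lf (nat_lit 600097) (.g (nat_lit 2938) (.e (nat_lit 557091) (nat_lit 12) (.e (nat_lit 163843) (nat_lit 0) (.e (nat_lit 6255) (nat_lit 337) (.e (nat_lit 2630) (nat_lit 164) (.e (nat_lit 172046) (nat_lit 0) (.e (nat_lit 3238) (nat_lit 197) (.e (nat_lit 532550) (nat_lit 12) (.e (nat_lit 360475) (nat_lit 8) .nil)))))))) (.g (nat_lit 1) (.e (nat_lit 418884) (nat_lit 0) .nil) .nil))) 
(.lf (nat_lit 600609) (.g (nat_lit 1888) (.e (nat_lit 557099) (nat_lit 13) (.e (nat_lit 172126) (nat_lit 14) (.e (nat_lit 491537) (nat_lit 2) (.e (nat_lit 90176) (nat_lit 15) .nil)))) (.g (nat_lit 0) (.e (nat_lit 419547) (nat_lit 0) .nil) .nil)))) (.nd (nat_lit 9) 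
(.lf (nat_lit 600353) (.g (nat_lit 2164) (.e (nat_lit 557097) (nat_lit 13) (.e (nat_lit 172115) (nat_lit 10) (.e (nat_lit 434231) (nat_lit 23) (.e (nat_lit 532481) (nat_lit 0) (.e (nat_lit 6654) (nat_lit 357) .nil))))) (.g (nat_lit 0) (.e (nat_lit 419283) (nat_lit 0) .nil) .nil))) 
(.lf (nat_lit 600865) (.g (nat_lit 2686) (.e (nat_lit 557101) (nat_lit 13) (.e (nat_lit 172115) (nat_lit 10) (.e (nat_lit 434244) (nat_lit 28) (.e (nat_lit 573452) (nat_lit 9) (.e (nat_lit 430) (nat_lit 32) (.e (nat_lit 426308) (nat_lit 12) (.e (nat_lit 475183) (nat_lit 29) .nil))))))) (.g (nat_lit 1) (.e (nat_lit 419823) (nat_lit 0) .nil) .nil))))) (.nd (nat_lit 8) (.nd (nat_lit 9) 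
(.lf (nat_lit 600225) (.g (nat_lit 1104) (.e (nat_lit 557093) (nat_lit 12) (.e (nat_lit 164023) (nat_lit 46) (.e (nat_lit 704629) (nat_lit 9) (.e (nat_lit 442) (nat_lit 33) .nil)))) (.g (nat_lit 0) (.e (nat_lit 419066) (nat_lit 0) .nil) .nil))) 
(.lf (nat_lit 600737) (.g (nat_lit 4406) (.e (nat_lit 557101) (nat_lit 13) (.e (nat_lit 172097) (nat_lit 9) (.e (nat_lit 426125) (nat_lit 2) (.e (nat_lit 196661) (nat_lit 12) (.e (nat_lit 57750) (nat_lit 201) (.e (nat_lit 2856) (nat_lit 184) (.e (nat_lit 426354) (nat_lit 15) (.e (nat_lit 1860) (nat_lit 124) .nil)))))))) (.g (nat_lit 1) (.e (nat_lit 419695) (nat_lit 0) .nil) .nil)))) 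
(.nd (nat_lit 9) 
(.lf (nat_lit 600481) (.g (nat_lit 501) (.e (nat_lit 557098) (nat_lit 13) (.e (nat_lit 172067) (nat_lit 3) (.e (nat_lit 204821) (nat_lit 17) .nil))) (.g (nat_lit 0) (.e (nat_lit 419414) (nat_lit 0) .nil) .nil))) 
(.lf (nat_lit 600993) (.g (nat_lit 2403) (.e (nat_lit 557105) (nat_lit 14) (.e (nat_lit 180251) (nat_lit 10) (.e (nat_lit 573484) (nat_lit 13) (.e (nat_lit 65568) (nat_lit 2) (.e (nat_lit 98048) (nat_lit 2) (.e (nat_lit 16400) (nat_lit 0) (.e (nat_lit 7936) (nat_lit 200) .nil))))))) (.g (nat_lit 1) (.e (nat_lit 419981) (nat_lit 0) .nil) .nil)))))) 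
(.nd (nat_lit 7) (.nd (nat_lit 8) (.nd (nat_lit 9) 
(.lf (nat_lit 600161) (.g (nat_lit 2623) (.e (nat_lit 557093) (nat_lit 12) (.e (nat_lit 163849) (nat_lit 0) (.e (nat_lit 6255) (nat_lit 337) (.e (nat_lit 2725) (nat_lit 172) (.e (nat_lit 237592) (nat_lit 3) (.e (nat_lit 204868) (nat_lit 29) (.e (nat_lit 360473) (nat_lit 8) .nil))))))) (.g (nat_lit 1) (.e (nat_lit 418984) (nat_lit 0) .nil) .nil))) 
(.lf (nat_lit 600673) (.g (nat_lit 2994) (.e (nat_lit 557100) (nat_lit 13) (.e (nat_lit 172106) (nat_lit 10) (.e (nat_lit 434231) (nat_lit 23) (.e (nat_lit 532567) (nat_lit 16) (.e (nat_lit 401454) (nat_lit 12) (.e (nat_lit 483072) (nat_lit 29) .nil)))))) (.g (nat_lit 1) (.e (nat_lit 419618) (nat_lit 0) .nil) .nil)))) (.nd (nat_lit 9) 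
(.lf (nat_lit 600417) (.g (nat_lit 4013) (.e (nat_lit 557097) (nat_lit 13) (.e (nat_lit 172115) (nat_lit 10) (.e (nat_lit 434231) (nat_lit 23) (.e (nat_lit 532529) (nat_lit 9) (.e (nat_lit 336303) (nat_lit 15) (.e (nat_lit 3621) (nat_lit 227) (.e (nat_lit 778318) (nat_lit 3) (.e (nat_lit 57476) (nat_lit 28) .nil)))))))) (.g (nat_lit 1) (.e (nat_lit 419347) (nat_lit 0) .nil) .nil))) 
(.lf (nat_lit 600929) (.g (nat_lit 3593) (.e (nat_lit 557103) (nat_lit 14) (.e (nat_lit 180250) (nat_lit 10) (.e (nat_lit 573482) (nat_lit 13) (.e (nat_lit 65568) (nat_lit 2) (.e (nat_lit 98048) (nat_lit 2) (.e (nat_lit 16392) (nat_lit 0) (.e (nat_lit 3279) (nat_lit 200) .nil))))))) (.g (nat_lit 1) (.e (nat_lit 419895) (nat_lit 0) .nil) .nil))))) (.nd (nat_lit 8) (.nd (nat_lit 9) 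
(.lf (nat_lit 600289) (.g (nat_lit 1140) (.e (nat_lit 557095) (nat_lit 13) (.e (nat_lit 172115) (nat_lit 10) (.e (nat_lit 434231) (nat_lit 23) (.e (nat_lit 532562) (nat_lit 15) .nil)))) (.g (nat_lit 0) (.e (nat_lit 419185) (nat_lit 0) .nil) .nil))) 
(.lf (nat_lit 600801) (.g (nat_lit 2306) (.e (nat_lit 557101) (nat_lit 13) (.e (nat_lit 172115) (nat_lit 10) (.e (nat_lit 434238) (nat_lit 25) (.e (nat_lit 548898) (nat_lit 14) (.e (nat_lit 2888) (nat_lit 184) (.e (nat_lit 426312) (nat_lit 12) (.e (nat_lit 475185) (nat_lit 29) .nil))))))) (.g (nat_lit 1) (.e (nat_lit 419759) (nat_lit 0) .nil) .nil)))) (.nd (nat_lit 9) 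
(.lf (nat_lit 600545) (.g (nat_lit 3024) (.e (nat_lit 557098) (nat_lit 13) (.e (nat_lit 172115) (nat_lit 10) (.e (nat_lit 434244) (nat_lit 28) (.e (nat_lit 573449) (nat_lit 9) (.e (nat_lit 460) (nat_lit 34) (.e (nat_lit 442378) (nat_lit 0) (.e (nat_lit 1855) (nat_lit 124) .nil))))))) (.g (nat_lit 1) (.e (nat_lit 419479) (nat_lit 0) .nil) .nil))) 
(.lf (nat_lit 601057) (.g (nat_lit 3776) (.e (nat_lit 557105) (nat_lit 14) (.e (nat_lit 180252) (nat_lit 10) (.e (nat_lit 573474) (nat_lit 12) (.e (nat_lit 57503) (nat_lit 38) (.e (nat_lit 638995) (nat_lit 7) (.e (nat_lit 163979) (nat_lit 30) (.e (nat_lit 573487) (nat_lit 14) (.e (nat_lit 73753) (nat_lit 8) .nil)))))))) (.g (nat_lit 1) (.e (nat_lit 420106) (nat_lit 0) .nil) .nil)))))))) 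
(.nd (nat_lit 5) (.nd (nat_lit 6) (.nd (nat_lit 7) (.nd (nat_lit 8) (.nd (nat_lit 9) 
(.lf (nat_lit 600081) (.g (nat_lit 4496) (.e (nat_lit 557090) (nat_lit 12) (.e (nat_lit 164018) (nat_lit 45) (.e (nat_lit 696343) (nat_lit 8) (.e (nat_lit 172064) (nat_lit 2) (.e (nat_lit 196666) (nat_lit 13) (.e (nat_lit 65617) (nat_lit 10) (.e (nat_lit 344130) (nat_lit 26) .nil))))))) (.g (nat_lit 1) (.e (nat_lit 418854) (nat_lit 0) .nil) .nil))) 
(.lf (nat_lit 600593) (.g (nat_lit 2571) (.e (nat_lit 557098) (nat_lit 13) (.e (nat_lit 172126) (nat_lit 14) (.e (nat_lit 491537) (nat_lit 2) (.e (nat_lit 90125) (nat_lit 9) .nil)))) (.g (nat_lit 0) (.e (nat_lit 419528) (nat_lit 0) .nil) .nil)))) (.nd (nat_lit 9) 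
(.lf (nat_lit 600337) (.g (nat_lit 3156) (.e (nat_lit 557097) (nat_lit 13) (.e (nat_lit 172097) (nat_lit 9) (.e (nat_lit 426125) (nat_lit 2) (.e (nat_lit 196666) (nat_lit 13) (.e (nat_lit 65639) (nat_lit 15) (.e (nat_lit 3715) (nat_lit 227) (.e (nat_lit 778316) (nat_lit 3) (.e (nat_lit 57477) (nat_lit 28) .nil)))))))) (.g (nat_lit 1) (.e (nat_lit 419267) (nat_lit 0) .nil) .nil))) 
(.lf (nat_lit 600849) (.g (nat_lit 3316) (.e (nat_lit 557101) (nat_lit 13) (.e (nat_lit 172115) (nat_lit 10) (.e (nat_lit 434244) (nat_lit 28) (.e (nat_lit 573450) (nat_lit 9) (.e (nat_lit 457) (nat_lit 34) (.e (nat_lit 442372) (nat_lit 0) (.e (nat_lit 1846) (nat_lit 124) .nil))))))) (.g (nat_lit 1) (.e (nat_lit 419807) (nat_lit 0) .nil) .nil))))) (.nd (nat_lit 8) (.nd (nat_lit 9) 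
(.lf (nat_lit 600209) (.g (nat_lit 3680) (.e (nat_lit 557093) (nat_lit 12) (.e (nat_lit 164022) (nat_lit 46) (.e (nat_lit 704629) (nat_lit 9) (.e (nat_lit 442) (nat_lit 33) (.e (nat_lit 434222) (nat_lit 19) (.e (nat_lit 500061) (nat_lit 18) (.e (nat_lit 65615) (nat_lit 10) (.e (nat_lit 344132) (nat_lit 26) .nil)))))))) (.g (nat_lit 1) (.e (nat_lit 419049) (nat_lit 0) .nil) .nil))) 
(.lf (nat_lit 600721) (.g (nat_lit 2256) (.e (nat_lit 557100) (nat_lit 13) (.e (nat_lit 172113) (nat_lit 10) (.e (nat_lit 434248) (nat_lit 28) (.e (nat_lit 573470) (nat_lit 11) (.e (nat_lit 16455) (nat_lit 12) (.e (nat_lit 475185) (nat_lit 29) .nil)))))) (.g (nat_lit 1) (.e (nat_lit 419666) (nat_lit 0) .nil) .nil)))) (.nd (nat_lit 9) 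
(.lf (nat_lit 600465) (.g (nat_lit 2999) (.e (nat_lit 557097) (nat_lit 13) (.e (nat_lit 172115) (nat_lit 10) (.e (nat_lit 434244) (nat_lit 28) (.e (nat_lit 573458) (nat_lit 9) (.e (nat_lit 394) (nat_lit 32) (.e (nat_lit 426198) (nat_lit 9) (.e (nat_lit 426402) (nat_lit 15) (.e (nat_lit 1849) (nat_lit 124) .nil)))))))) (.g (nat_lit 1) (.e (nat_lit 419395) (nat_lit 0) .nil) .nil))) 
(.lf (nat_lit 600977) (.g (nat_lit 2878) (.e (nat_lit 557104) (nat_lit 14) (.e (nat_lit 180252) (nat_lit 10) (.e (nat_lit 573482) (nat_lit 13) (.e (nat_lit 65568) (nat_lit 2) (.e (nat_lit 98048) (nat_lit 2) (.e (nat_lit 16392) (nat_lit 0) (.e (nat_lit 7936) (nat_lit 200) .nil))))))) (.g (nat_lit 1) (.e (nat_lit 419961) (nat_lit 0) .nil) .nil)))))) 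
(.nd (nat_lit 7) (.nd (nat_lit 8) (.nd (nat_lit 9) 
(.lf (nat_lit 600145) (.g (nat_lit 4238) (.e (nat_lit 557093) (nat_lit 12) (.e (nat_lit 163848) (nat_lit 0) (.e (nat_lit 6252) (nat_lit 337) (.e (nat_lit 2630) (nat_lit 164) (.e (nat_lit 172067) (nat_lit 3) (.e (nat_lit 204869) (nat_lit 29) (.e (nat_lit 360474) (nat_lit 8) .nil))))))) (.g (nat_lit 1) (.e (nat_lit 418959) (nat_lit 0) .nil) .nil))) 
(.lf (nat_lit 600657) (.g (nat_lit 3153) (.e (nat_lit 557100) (nat_lit 13) (.e (nat_lit 172106) (nat_lit 10) (.e (nat_lit 434231) (nat_lit 23) (.e (nat_lit 532535) (nat_lit 9) (.e (nat_lit 336250) (nat_lit 15) (.e (nat_lit 3705) (nat_lit 227) (.e (nat_lit 786176) (nat_lit 3) (.e (nat_lit 57479) (nat_lit 28) .nil)))))))) (.g (nat_lit 1) (.e (nat_lit 419602) (nat_lit 0) .nil) .nil)))) 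
(.nd (nat_lit 9) 
(.lf (nat_lit 600401) (.g (nat_lit 3821) (.e (nat_lit 557097) (nat_lit 13) (.e (nat_lit 172115) (nat_lit 10) (.e (nat_lit 434231) (nat_lit 23) (.e (nat_lit 532529) (nat_lit 9) (.e (nat_lit 336261) (nat_lit 15) (.e (nat_lit 3633) (nat_lit 227) (.e (nat_lit 778318) (nat_lit 3) (.e (nat_lit 57476) (nat_lit 28) .nil)))))))) (.g (nat_lit 1) (.e (nat_lit 419331) (nat_lit 0) .nil) .nil))) 
(.lf (nat_lit 600913) (.g (nat_lit 2412) (.e (nat_lit 557103) (nat_lit 14) (.e (nat_lit 180250) (nat_lit 10) (.e (nat_lit 573474) (nat_lit 12) (.e (nat_lit 57500) (nat_lit 37) (.e (nat_lit 630799) (nat_lit 7) .nil))))) (.g (nat_lit 0) (.e (nat_lit 419879) (nat_lit 0) .nil) .nil))))) (.nd (nat_lit 8) (.nd (nat_lit 9) 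
(.lf (nat_lit 600273) (.g (nat_lit 3125) (.e (nat_lit 557095) (nat_lit 13) (.e (nat_lit 172106) (nat_lit 10) (.e (nat_lit 434231) (nat_lit 23) (.e (nat_lit 532535) (nat_lit 9) (.e (nat_lit 336282) (nat_lit 15) .nil))))) (.g (nat_lit 0) (.e (nat_lit 419154) (nat_lit 0) .nil) .nil))) 
(.lf (nat_lit 600785) (.g (nat_lit 4007) (.e (nat_lit 557101) (nat_lit 13) (.e (nat_lit 172115) (nat_lit 10) (.e (nat_lit 434231) (nat_lit 23) (.e (nat_lit 532535) (nat_lit 9) (.e (nat_lit 336287) (nat_lit 15) (.e (nat_lit 3716) (nat_lit 227) (.e (nat_lit 778316) (nat_lit 3) (.e (nat_lit 57479) (nat_lit 28) .nil)))))))) (.g (nat_lit 1) (.e (nat_lit 419743) (nat_lit 0) .nil) .nil)))) 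
(.nd (nat_lit 9) 
(.lf (nat_lit 600529) (.g (nat_lit 4129) (.e (nat_lit 557098) (nat_lit 13) (.e (nat_lit 172115) (nat_lit 10) (.e (nat_lit 434231) (nat_lit 23) (.e (nat_lit 532535) (nat_lit 9) (.e (nat_lit 336287) (nat_lit 15) (.e (nat_lit 3716) (nat_lit 227) (.e (nat_lit 778316) (nat_lit 3) (.e (nat_lit 57480) (nat_lit 28) .nil)))))))) (.g (nat_lit 1) (.e (nat_lit 419462) (nat_lit 0) .nil) .nil))) 
(.lf (nat_lit 601041) (.g (nat_lit 2790) (.e (nat_lit 557105) (nat_lit 14) (.e (nat_lit 180252) (nat_lit 10) (.e (nat_lit 573474) (nat_lit 12) (.e (nat_lit 57347) (nat_lit 0) (.e (nat_lit 5438) (nat_lit 306) (.e (nat_lit 2604) (nat_lit 163) (.e (nat_lit 163962) (nat_lit 25) (.e (nat_lit 532544) (nat_lit 10) (.e (nat_lit 344131) (nat_lit 26) .nil))))))))) (.g (nat_lit 1) (.e (nat_lit 420064) (nat_lit 0) .nil) .nil))))))) 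
(.nd (nat_lit 6) (.nd (nat_lit 7) (.nd (nat_lit 8) (.nd (nat_lit 9) 
(.lf (nat_lit 600113) (.g (nat_lit 4611) (.e (nat_lit 557091) (nat_lit 12) (.e (nat_lit 164020) (nat_lit 45) (.e (nat_lit 696327) (nat_lit 5) (.e (nat_lit 2873) (nat_lit 184) (.e (nat_lit 426136) (nat_lit 3) (.e (nat_lit 204869) (nat_lit 29) (.e (nat_lit 360474) (nat_lit 8) .nil))))))) (.g (nat_lit 1) (.e (nat_lit 418914) (nat_lit 0) .nil) .nil))) 
(.lf (nat_lit 600625) (.g (nat_lit 2974) (.e (nat_lit 557100) (nat_lit 13) (.e (nat_lit 172106) (nat_lit 10) (.e (nat_lit 434231) (nat_lit 23) (.e (nat_lit 532481) (nat_lit 0) (.e (nat_lit 6637) (nat_lit 357) .nil))))) (.g (nat_lit 0) (.e (nat_lit 419570) (nat_lit 0) .nil) .nil)))) (.nd (nat_lit 9) 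
(.lf (nat_lit 600369) (.g (nat_lit 2909) (.e (nat_lit 557097) (nat_lit 13) (.e (nat_lit 172115) (nat_lit 10) (.e (nat_lit 434231) (nat_lit 23) (.e (nat_lit 532490) (nat_lit 0) (.e (nat_lit 6676) (nat_lit 357) (.e (nat_lit 2857) (nat_lit 184) (.e (nat_lit 426402) (nat_lit 15) (.e (nat_lit 1848) (nat_lit 124) .nil)))))))) (.g (nat_lit 1) (.e (nat_lit 419299) (nat_lit 0) .nil) .nil))) 
(.lf (nat_lit 600881) (.g (nat_lit 2991) (.e (nat_lit 557101) (nat_lit 13) (.e (nat_lit 172115) (nat_lit 10) (.e (nat_lit 434244) (nat_lit 28) (.e (nat_lit 573468) (nat_lit 10) (.e (nat_lit 8524) (nat_lit 205) (.e (nat_lit 3067) (nat_lit 190) (.e (nat_lit 475183) (nat_lit 29) .nil))))))) (.g (nat_lit 1) (.e (nat_lit 419839) (nat_lit 0) .nil) .nil))))) (.nd (nat_lit 8) (.nd (nat_lit 9) 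
(.lf (nat_lit 600241) (.g (nat_lit 3209) (.e (nat_lit 557094) (nat_lit 12) (.e (nat_lit 163852) (nat_lit 0) (.e (nat_lit 6425) (nat_lit 342) (.e (nat_lit 229409) (nat_lit 13) (.e (nat_lit 434231) (nat_lit 23) (.e (nat_lit 532549) (nat_lit 12) (.e (nat_lit 360473) (nat_lit 8) .nil))))))) (.g (nat_lit 1) (.e (nat_lit 419087) (nat_lit 0) .nil) .nil))) 
(.lf (nat_lit 600753) (.g (nat_lit 3693) (.e (nat_lit 557101) (nat_lit 13) (.e (nat_lit 172097) (nat_lit 9) (.e (nat_lit 426140) (nat_lit 3) (.e (nat_lit 204855) (nat_lit 26) (.e (nat_lit 336290) (nat_lit 15) (.e (nat_lit 3715) (nat_lit 227) (.e (nat_lit 778316) (nat_lit 3) (.e (nat_lit 57479) (nat_lit 28) .nil)))))))) (.g (nat_lit 1) (.e (nat_lit 419711) (nat_lit 0) .nil) .nil)))) 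
(.nd (nat_lit 9) 
(.lf (nat_lit 600497) (.g (nat_lit 2125) (.e (nat_lit 557098) (nat_lit 13) (.e (nat_lit 172115) (nat_lit 10) (.e (nat_lit 434231) (nat_lit 23) (.e (nat_lit 532481) (nat_lit 0) (.e (nat_lit 6642) (nat_lit 357) .nil))))) (.g (nat_lit 0) (.e (nat_lit 419430) (nat_lit 0) .nil) .nil))) 
(.lf (nat_lit 601009) (.g (nat_lit 2224) (.e (nat_lit 557105) (nat_lit 14) (.e (nat_lit 180251) (nat_lit 10) (.e (nat_lit 573485) (nat_lit 13) (.e (nat_lit 65568) (nat_lit 2) (.e (nat_lit 98048) (nat_lit 2) (.e (nat_lit 16398) (nat_lit 0) (.e (nat_lit 7936) (nat_lit 200) .nil))))))) (.g (nat_lit 1) (.e (nat_lit 419997) (nat_lit 0) .nil) .nil)))))) 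
(.nd (nat_lit 7) (.nd (nat_lit 8) (.nd (nat_lit 9) 
(.lf (nat_lit 600177) (.g (nat_lit 4116) (.e (nat_lit 557093) (nat_lit 12) (.e (nat_lit 164018) (nat_lit 45) (.e (nat_lit 696329) (nat_lit 5) (.e (nat_lit 2884) (nat_lit 184) (.e (nat_lit 426125) (nat_lit 2) (.e (nat_lit 196666) (nat_lit 13) (.e (nat_lit 65617) (nat_lit 10) (.e (nat_lit 344132) (nat_lit 26) .nil)))))))) (.g (nat_lit 1) (.e (nat_lit 419011) (nat_lit 0) .nil) .nil))) 
(.lf (nat_lit 600689) (.g (nat_lit 2748) (.e (nat_lit 557100) (nat_lit 13) (.e (nat_lit 172106) (nat_lit 10) (.e (nat_lit 434244) (nat_lit 28) (.e (nat_lit 573451) (nat_lit 9) (.e (nat_lit 396) (nat_lit 32) (.e (nat_lit 426305) (nat_lit 12) (.e (nat_lit 475185) (nat_lit 29) .nil))))))) (.g (nat_lit 1) (.e (nat_lit 419634) (nat_lit 0) .nil) .nil)))) (.nd (nat_lit 9) 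
(.lf (nat_lit 600433) (.g (nat_lit 4207) (.e (nat_lit 557097) (nat_lit 13) (.e (nat_lit 172115) (nat_lit 10) (.e (nat_lit 434231) (nat_lit 23) (.e (nat_lit 532567) (nat_lit 16) (.e (nat_lit 401454) (nat_lit 12) (.e (nat_lit 475183) (nat_lit 29) .nil)))))) (.g (nat_lit 1) (.e (nat_lit 419363) (nat_lit 0) .nil) .nil))) 
(.lf (nat_lit 600945) (.g (nat_lit 3599) (.e (nat_lit 557104) (nat_lit 14) (.e (nat_lit 180250) (nat_lit 10) (.e (nat_lit 573474) (nat_lit 12) (.e (nat_lit 57503) (nat_lit 38) (.e (nat_lit 638995) (nat_lit 7) (.e (nat_lit 163979) (nat_lit 30) (.e (nat_lit 573488) (nat_lit 14) (.e (nat_lit 73755) (nat_lit 8) .nil)))))))) (.g (nat_lit 1) (.e (nat_lit 419929) (nat_lit 0) .nil) .nil))))) 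
(.nd (nat_lit 8) (.nd (nat_lit 9) 
(.lf (nat_lit 600305) (.g (nat_lit 2259) (.e (nat_lit 557096) (nat_lit 13) (.e (nat_lit 172126) (nat_lit 14) (.e (nat_lit 491537) (nat_lit 2) (.e (nat_lit 90125) (nat_lit 9) .nil)))) (.g (nat_lit 0) (.e (nat_lit 419228) (nat_lit 0) .nil) .nil))) 
(.lf (nat_lit 600817) (.g (nat_lit 2772) (.e (nat_lit 557101) (nat_lit 13) (.e (nat_lit 172115) (nat_lit 10) (.e (nat_lit 434244) (nat_lit 28) (.e (nat_lit 573449) (nat_lit 9) (.e (nat_lit 430) (nat_lit 32) (.e (nat_lit 426190) (nat_lit 9) (.e (nat_lit 426354) (nat_lit 15) (.e (nat_lit 1860) (nat_lit 124) .nil)))))))) (.g (nat_lit 1) (.e (nat_lit 419775) (nat_lit 0) .nil) .nil)))) 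
(.nd (nat_lit 9) 
(.lf (nat_lit 600561) (.g (nat_lit 2431) (.e (nat_lit 557098) (nat_lit 13) (.e (nat_lit 172115) (nat_lit 10) (.e (nat_lit 434244) (nat_lit 28) (.e (nat_lit 573450) (nat_lit 9) (.e (nat_lit 479) (nat_lit 37) (.e (nat_lit 466949) (nat_lit 0) (.e (nat_lit 1855) (nat_lit 124) .nil))))))) (.g (nat_lit 1) (.e (nat_lit 419496) (nat_lit 0) .nil) .nil))) 
(.lf (nat_lit 601073) (.g (nat_lit 1651) (.e (nat_lit 557105) (nat_lit 14) (.e (nat_lit 180252) (nat_lit 10) (.e (nat_lit 573475) (nat_lit 12) (.e (nat_lit 57347) (nat_lit 0) .nil)))) (.g (nat_lit 0) (.e (nat_lit 420130) (nat_lit 0) .nil) .nil))))))))) (.nd (nat_lit 4) (.nd (nat_lit 5) (.nd (nat_lit 6) (.nd (nat_lit 7) (.nd (nat_lit 8) (.nd (nat_lit 9) 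
(.lf (nat_lit 600073) (.g (nat_lit 2363) (.e (nat_lit 557090) (nat_lit 12) (.e (nat_lit 164038) (nat_lit 55) (.e (nat_lit 786176) (nat_lit 11) (.e (nat_lit 24604) (nat_lit 2) (.e (nat_lit 90176) (nat_lit 15) (.e (nat_lit 188430) (nat_lit 20) (.e (nat_lit 7936) (nat_lit 200) .nil))))))) (.g (nat_lit 1) (.e (nat_lit 418832) (nat_lit 0) .nil) .nil))) 
(.lf (nat_lit 600585) (.g (nat_lit 3989) (.e (nat_lit 557098) (nat_lit 13) (.e (nat_lit 172115) (nat_lit 10) (.e (nat_lit 434244) (nat_lit 28) (.e (nat_lit 573471) (nat_lit 11) (.e (nat_lit 16392) (nat_lit 0) (.e (nat_lit 7936) (nat_lit 389) (.e (nat_lit 8326) (nat_lit 69) .nil))))))) (.g (nat_lit 1) (.e (nat_lit 419520) (nat_lit 0) .nil) .nil)))) (.nd (nat_lit 9) 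
(.lf (nat_lit 600329) (.g (nat_lit 3059) (.e (nat_lit 557097) (nat_lit 13) (.e (nat_lit 172097) (nat_lit 9) (.e (nat_lit 426125) (nat_lit 2) (.e (nat_lit 196661) (nat_lit 12) (.e (nat_lit 57751) (nat_lit 201) (.e (nat_lit 2854) (nat_lit 184) (.e (nat_lit 426402) (nat_lit 15) (.e (nat_lit 1849) (nat_lit 124) .nil)))))))) (.g (nat_lit 1) (.e (nat_lit 419259) (nat_lit 0) .nil) .nil))) 
(.lf (nat_lit 600841) (.g (nat_lit 2726) (.e (nat_lit 557101) (nat_lit 13) (.e (nat_lit 172115) (nat_lit 10) (.e (nat_lit 434244) (nat_lit 28) (.e (nat_lit 573450) (nat_lit 9) (.e (nat_lit 411) (nat_lit 32) (.e (nat_lit 426305) (nat_lit 12) (.e (nat_lit 475185) (nat_lit 29) .nil))))))) (.g (nat_lit 1) (.e (nat_lit 419799) (nat_lit 0) .nil) .nil))))) (.nd (nat_lit 8) (.nd (nat_lit 9) 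
(.lf (nat_lit 600201) (.g (nat_lit 2003) (.e (nat_lit 557093) (nat_lit 12) (.e (nat_lit 164022) (nat_lit 46) (.e (nat_lit 704629) (nat_lit 9) (.e (nat_lit 375) (nat_lit 32) (.e (nat_lit 426125) (nat_lit 2) .nil))))) (.g (nat_lit 0) (.e (nat_lit 419040) (nat_lit 0) .nil) .nil))) 
(.lf (nat_lit 600713) (.g (nat_lit 2658) (.e (nat_lit 557100) (nat_lit 13) (.e (nat_lit 172113) (nat_lit 10) (.e (nat_lit 434247) (nat_lit 28) (.e (nat_lit 573469) (nat_lit 11) (.e (nat_lit 16435) (nat_lit 9) (.e (nat_lit 433920) (nat_lit 15) (.e (nat_lit 1860) (nat_lit 124) .nil))))))) (.g (nat_lit 1) (.e (nat_lit 419658) (nat_lit 0) .nil) .nil)))) (.nd (nat_lit 9) 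
(.lf (nat_lit 600457) (.g (nat_lit 3323) (.e (nat_lit 557097) (nat_lit 13) (.e (nat_lit 172115) (nat_lit 10) (.e (nat_lit 434244) (nat_lit 28) (.e (nat_lit 573451) (nat_lit 9) (.e (nat_lit 430) (nat_lit 32) (.e (nat_lit 426190) (nat_lit 9) (.e (nat_lit 426402) (nat_lit 15) (.e (nat_lit 1848) (nat_lit 124) .nil)))))))) (.g (nat_lit 1) (.e (nat_lit 419387) (nat_lit 0) .nil) .nil))) 
(.lf (nat_lit 600969) (.g (nat_lit 3124) (.e (nat_lit 557104) (nat_lit 14) (.e (nat_lit 180252) (nat_lit 10) (.e (nat_lit 573481) (nat_lit 13) (.e (nat_lit 65568) (nat_lit 2) (.e (nat_lit 98048) (nat_lit 2) (.e (nat_lit 16388) (nat_lit 0) (.e (nat_lit 3275) (nat_lit 200) .nil))))))) (.g (nat_lit 1) (.e (nat_lit 419953) (nat_lit 0) .nil) .nil)))))) 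
(.nd (nat_lit 7) (.nd (nat_lit 8) (.nd (nat_lit 9) 
(.lf (nat_lit 600137) (.g (nat_lit 5101) (.e (nat_lit 557091) (nat_lit 12) (.e (nat_lit 164022) (nat_lit 46) (.e (nat_lit 704629) (nat_lit 9) (.e (nat_lit 452) (nat_lit 33) (.e (nat_lit 434231) (nat_lit 23) (.e (nat_lit 532550) (nat_lit 12) (.e (nat_lit 360475) (nat_lit 8) .nil))))))) (.g (nat_lit 1) (.e (nat_lit 418945) (nat_lit 0) .nil) .nil))) 
(.lf (nat_lit 600649) (.g (nat_lit 2442) (.e (nat_lit 557100) (nat_lit 13) (.e (nat_lit 172106) (nat_lit 10) (.e (nat_lit 434231) (nat_lit 23) (.e (nat_lit 532499) (nat_lit 1) (.e (nat_lit 57762) (nat_lit 215) (.e (nat_lit 2509) (nat_lit 157) (.e (nat_lit 3062) (nat_lit 190) (.e (nat_lit 475185) (nat_lit 29) .nil)))))))) (.g (nat_lit 1) (.e (nat_lit 419594) (nat_lit 0) .nil) .nil)))) 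
(.nd (nat_lit 9) 
(.lf (nat_lit 600393) (.g (nat_lit 4042) (.e (nat_lit 557097) (nat_lit 13) (.e (nat_lit 172115) (nat_lit 10) (.e (nat_lit 434231) (nat_lit 23) (.e (nat_lit 532529) (nat_lit 9) (.e (nat_lit 336257) (nat_lit 15) (.e (nat_lit 3635) (nat_lit 227) (.e (nat_lit 778318) (nat_lit 3) (.e (nat_lit 57476) (nat_lit 28) .nil)))))))) (.g (nat_lit 1) (.e (nat_lit 419323) (nat_lit 0) .nil) .nil))) 
(.lf (nat_lit 600905) (.g (nat_lit 426) (.e (nat_lit 557103) (nat_lit 14) (.e (nat_lit 180243) (nat_lit 5) (.e (nat_lit 532499) (nat_lit 1) .nil))) (.g (nat_lit 0) (.e (nat_lit 419869) (nat_lit 0) .nil) .nil))))) (.nd (nat_lit 8) (.nd (nat_lit 9) 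
(.lf (nat_lit 600265) (.g (nat_lit 1034) (.e (nat_lit 557095) (nat_lit 13) (.e (nat_lit 172097) (nat_lit 9) (.e (nat_lit 426125) (nat_lit 2) (.e (nat_lit 196666) (nat_lit 13) .nil)))) (.g (nat_lit 0) (.e (nat_lit 419145) (nat_lit 0) .nil) .nil))) 
(.lf (nat_lit 600777) (.g (nat_lit 2296) (.e (nat_lit 557101) (nat_lit 13) (.e (nat_lit 172115) (nat_lit 10) (.e (nat_lit 434231) (nat_lit 23) (.e (nat_lit 532527) (nat_lit 9) (.e (nat_lit 336034) (nat_lit 4) .nil))))) (.g (nat_lit 0) (.e (nat_lit 419735) (nat_lit 0) .nil) .nil)))) (.nd (nat_lit 9) 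
(.lf (nat_lit 600521) (.g (nat_lit 3602) (.e (nat_lit 557098) (nat_lit 13) (.e (nat_lit 172115) (nat_lit 10) (.e (nat_lit 434231) (nat_lit 23) (.e (nat_lit 532529) (nat_lit 9) (.e (nat_lit 336242) (nat_lit 15) (.e (nat_lit 3684) (nat_lit 227) (.e (nat_lit 786176) (nat_lit 3) (.e (nat_lit 57480) (nat_lit 28) .nil)))))))) (.g (nat_lit 1) (.e (nat_lit 419454) (nat_lit 0) .nil) .nil))) 
(.lf (nat_lit 601033) (.g (nat_lit 5345) (.e (nat_lit 557105) (nat_lit 14) (.e (nat_lit 180252) (nat_lit 10) (.e (nat_lit 573473) (nat_lit 12) (.e (nat_lit 57504) (nat_lit 38) (.e (nat_lit 638996) (nat_lit 7) (.e (nat_lit 163978) (nat_lit 30) (.e (nat_lit 573489) (nat_lit 14) (.e (nat_lit 73755) (nat_lit 8) .nil)))))))) (.g (nat_lit 1) (.e (nat_lit 420042) (nat_lit 0) .nil) .nil))))))) 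
(.nd (nat_lit 6) (.nd (nat_lit 7) (.nd (nat_lit 8) (.nd (nat_lit 9) 
(.lf (nat_lit 600105) (.g (nat_lit 3110) (.e (nat_lit 557091) (nat_lit 12) (.e (nat_lit 163847) (nat_lit 0) (.e (nat_lit 6420) (nat_lit 341) (.e (nat_lit 163908) (nat_lit 12) (.e (nat_lit 426132) (nat_lit 3) (.e (nat_lit 204868) (nat_lit 29) (.e (nat_lit 360473) (nat_lit 8) .nil))))))) (.g (nat_lit 1) (.e (nat_lit 418895) (nat_lit 0) .nil) .nil))) 
(.lf (nat_lit 600617) (.g (nat_lit 3680) (.e (nat_lit 557100) (nat_lit 13) (.e (nat_lit 172105) (nat_lit 10) (.e (nat_lit 434238) (nat_lit 25) (.e (nat_lit 548913) (nat_lit 18) (.e (nat_lit 172120) (nat_lit 12) .nil))))) (.g (nat_lit 0) (.e (nat_lit 419562) (nat_lit 0) .nil) .nil)))) (.nd (nat_lit 9) 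
(.lf (nat_lit 600361) (.g (nat_lit 2160) (.e (nat_lit 557097) (nat_lit 13) (.e (nat_lit 172115) (nat_lit 10) (.e (nat_lit 434231) (nat_lit 23) (.e (nat_lit 532482) (nat_lit 0) (.e (nat_lit 6696) (nat_lit 357) (.e (nat_lit 2844) (nat_lit 184) (.e (nat_lit 426402) (nat_lit 15) (.e (nat_lit 1849) (nat_lit 124) .nil)))))))) (.g (nat_lit 1) (.e (nat_lit 419291) (nat_lit 0) .nil) .nil))) 
(.lf (nat_lit 600873) (.g (nat_lit 2313) (.e (nat_lit 557101) (nat_lit 13) (.e (nat_lit 172115) (nat_lit 10) (.e (nat_lit 434244) (nat_lit 28) (.e (nat_lit 573458) (nat_lit 9) (.e (nat_lit 394) (nat_lit 32) .nil))))) (.g (nat_lit 0) (.e (nat_lit 419831) (nat_lit 0) .nil) .nil))))) (.nd (nat_lit 8) (.nd (nat_lit 9) 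
(.lf (nat_lit 600233) (.g (nat_lit 3859) (.e (nat_lit 557094) (nat_lit 12) (.e (nat_lit 163847) (nat_lit 0) (.e (nat_lit 6255) (nat_lit 337) (.e (nat_lit 2630) (nat_lit 164) (.e (nat_lit 172065) (nat_lit 3) (.e (nat_lit 204869) (nat_lit 29) (.e (nat_lit 360474) (nat_lit 8) .nil))))))) (.g (nat_lit 1) (.e (nat_lit 419076) (nat_lit 0) .nil) .nil))) 
(.lf (nat_lit 600745) (.g (nat_lit 2115) (.e (nat_lit 557101) (nat_lit 13) (.e (nat_lit 172097) (nat_lit 9) (.e (nat_lit 426125) (nat_lit 2) (.e (nat_lit 196686) (nat_lit 18) .nil)))) (.g (nat_lit 0) (.e (nat_lit 419703) (nat_lit 0) .nil) .nil)))) (.nd (nat_lit 9) 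
(.lf (nat_lit 600489) (.g (nat_lit 2637) (.e (nat_lit 557098) (nat_lit 13) (.e (nat_lit 172097) (nat_lit 9) (.e (nat_lit 426140) (nat_lit 3) (.e (nat_lit 204883) (nat_lit 33) (.e (nat_lit 401454) (nat_lit 12) (.e (nat_lit 483072) (nat_lit 29) .nil)))))) (.g (nat_lit 1) (.e (nat_lit 419422) (nat_lit 0) .nil) .nil))) 
(.lf (nat_lit 601001) (.g (nat_lit 2119) (.e (nat_lit 557105) (nat_lit 14) (.e (nat_lit 180251) (nat_lit 10) (.e (nat_lit 573485) (nat_lit 13) (.e (nat_lit 65568) (nat_lit 2) (.e (nat_lit 98048) (nat_lit 2) (.e (nat_lit 16389) (nat_lit 0) (.e (nat_lit 7936) (nat_lit 200) .nil))))))) (.g (nat_lit 1) (.e (nat_lit 419989) (nat_lit 0) .nil) .nil)))))) 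
(.nd (nat_lit 7) (.nd (nat_lit 8) (.nd (nat_lit 9) 
(.lf (nat_lit 600169) (.g (nat_lit 3189) (.e (nat_lit 557093) (nat_lit 12) (.e (nat_lit 164018) (nat_lit 45) (.e (nat_lit 696327) (nat_lit 5) (.e (nat_lit 2964) (nat_lit 185) (.e (nat_lit 434231) (nat_lit 23) (.e (nat_lit 532549) (nat_lit 12) (.e (nat_lit 360473) (nat_lit 8) .nil))))))) (.g (nat_lit 1) (.e (nat_lit 419002) (nat_lit 0) .nil) .nil))) 
(.lf (nat_lit 600681) (.g (nat_lit 3462) (.e (nat_lit 557100) (nat_lit 13) (.e (nat_lit 172106) (nat_lit 10) (.e (nat_lit 434238) (nat_lit 25) (.e (nat_lit 548897) (nat_lit 14) (.e (nat_lit 2884) (nat_lit 184) (.e (nat_lit 426317) (nat_lit 12) (.e (nat_lit 475185) (nat_lit 29) .nil))))))) (.g (nat_lit 1) (.e (nat_lit 419626) (nat_lit 0) .nil) .nil)))) (.nd (nat_lit 9) 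
(.lf (nat_lit 600425) (.g (nat_lit 3639) (.e (nat_lit 557097) (nat_lit 13) (.e (nat_lit 172115) (nat_lit 10) (.e (nat_lit 434231) (nat_lit 23) (.e (nat_lit 532529) (nat_lit 9) (.e (nat_lit 336301) (nat_lit 15) (.e (nat_lit 3631) (nat_lit 227) (.e (nat_lit 778318) (nat_lit 3) (.e (nat_lit 57476) (nat_lit 28) .nil)))))))) (.g (nat_lit 1) (.e (nat_lit 419355) (nat_lit 0) .nil) .nil))) 
(.lf (nat_lit 600937) (.g (nat_lit 502) (.e (nat_lit 557104) (nat_lit 14) (.e (nat_lit 180244) (nat_lit 5) (.e (nat_lit 532499) (nat_lit 1) .nil))) (.g (nat_lit 0) (.e (nat_lit 419908) (nat_lit 0) .nil) .nil))))) (.nd (nat_lit 8) (.nd (nat_lit 9) 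
(.lf (nat_lit 600297) (.g (nat_lit 746) (.e (nat_lit 557096) (nat_lit 13) (.e (nat_lit 172067) (nat_lit 3) (.e (nat_lit 204821) (nat_lit 17) .nil))) (.g (nat_lit 0) (.e (nat_lit 419218) (nat_lit 0) .nil) .nil))) 
(.lf (nat_lit 600809) (.g (nat_lit 2371) (.e (nat_lit 557101) (nat_lit 13) (.e (nat_lit 172115) (nat_lit 10) (.e (nat_lit 434244) (nat_lit 28) (.e (nat_lit 573449) (nat_lit 9) (.e (nat_lit 373) (nat_lit 32) (.e (nat_lit 426312) (nat_lit 12) (.e (nat_lit 475185) (nat_lit 29) .nil))))))) (.g (nat_lit 1) (.e (nat_lit 419767) (nat_lit 0) .nil) .nil)))) (.nd (nat_lit 9) 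
(.lf (nat_lit 600553) (.g (nat_lit 2479) (.e (nat_lit 557098) (nat_lit 13) (.e (nat_lit 172115) (nat_lit 10) (.e (nat_lit 434244) (nat_lit 28) (.e (nat_lit 573450) (nat_lit 9) (.e (nat_lit 455) (nat_lit 34) (.e (nat_lit 442372) (nat_lit 0) (.e (nat_lit 1846) (nat_lit 124) .nil))))))) (.g (nat_lit 1) (.e (nat_lit 419487) (nat_lit 0) .nil) .nil))) 
(.lf (nat_lit 601065) (.g (nat_lit 3414) (.e (nat_lit 557105) (nat_lit 14) (.e (nat_lit 180252) (nat_lit 10) (.e (nat_lit 573474) (nat_lit 12) (.e (nat_lit 57504) (nat_lit 38) (.e (nat_lit 638995) (nat_lit 7) (.e (nat_lit 163977) (nat_lit 30) (.e (nat_lit 573487) (nat_lit 14) (.e (nat_lit 73753) (nat_lit 8) .nil)))))))) (.g (nat_lit 1) (.e (nat_lit 420115) (nat_lit 0) .nil) .nil)))))))) 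
(.nd (nat_lit 5) (.nd (nat_lit 6) (.nd (nat_lit 7) (.nd (nat_lit 8) (.nd (nat_lit 9) 
(.lf (nat_lit 600089) (.g (nat_lit 362) (.e (nat_lit 557090) (nat_lit 12) (.e (nat_lit 164020) (nat_lit 45) (.e (nat_lit 696329) (nat_lit 5) .nil))) (.g (nat_lit 0) (.e (nat_lit 418862) (nat_lit 0) .nil) .nil))) 
(.lf (nat_lit 600601) (.g (nat_lit 1731) (.e (nat_lit 557099) (nat_lit 13) (.e (nat_lit 172106) (nat_lit 10) (.e (nat_lit 434231) (nat_lit 23) (.e (nat_lit 532543) (nat_lit 10) .nil)))) (.g (nat_lit 0) (.e (nat_lit 419539) (nat_lit 0) .nil) .nil)))) (.nd (nat_lit 9) 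
(.lf (nat_lit 600345) (.g (nat_lit 2203) (.e (nat_lit 557097) (nat_lit 13) (.e (nat_lit 172105) (nat_lit 10) (.e (nat_lit 434248) (nat_lit 28) (.e (nat_lit 573471) (nat_lit 11) (.e (nat_lit 16458) (nat_lit 12) (.e (nat_lit 475183) (nat_lit 29) .nil)))))) (.g (nat_lit 1) (.e (nat_lit 419275) (nat_lit 0) .nil) .nil))) 
(.lf (nat_lit 600857) (.g (nat_lit 3539) (.e (nat_lit 557101) (nat_lit 13) (.e (nat_lit 172115) (nat_lit 10) (.e (nat_lit 434244) (nat_lit 28) (.e (nat_lit 573451) (nat_lit 9) (.e (nat_lit 11) (nat_lit 0) (.e (nat_lit 7306) (nat_lit 388) (.e (nat_lit 3062) (nat_lit 190) (.e (nat_lit 475185) (nat_lit 29) .nil)))))))) (.g (nat_lit 1) (.e (nat_lit 419815) (nat_lit 0) .nil) .nil))))) 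
(.nd (nat_lit 8) (.nd (nat_lit 9) 
(.lf (nat_lit 600217) (.g (nat_lit 4426) (.e (nat_lit 557093) (nat_lit 12) (.e (nat_lit 164022) (nat_lit 46) (.e (nat_lit 704629) (nat_lit 9) (.e (nat_lit 452) (nat_lit 33) (.e (nat_lit 434231) (nat_lit 23) (.e (nat_lit 532549) (nat_lit 12) (.e (nat_lit 360473) (nat_lit 8) .nil))))))) (.g (nat_lit 1) (.e (nat_lit 419057) (nat_lit 0) .nil) .nil))) 
(.lf (nat_lit 600729) (.g (nat_lit 2176) (.e (nat_lit 557100) (nat_lit 13) (.e (nat_lit 172124) (nat_lit 14) (.e (nat_lit 491537) (nat_lit 2) (.e (nat_lit 90168) (nat_lit 13) .nil)))) (.g (nat_lit 0) (.e (nat_lit 419674) (nat_lit 0) .nil) .nil)))) (.nd (nat_lit 9) 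
(.lf (nat_lit 600473) (.g (nat_lit 3946) (.e (nat_lit 557097) (nat_lit 13) (.e (nat_lit 172115) (nat_lit 10) (.e (nat_lit 434244) (nat_lit 28) (.e (nat_lit 573458) (nat_lit 9) (.e (nat_lit 426) (nat_lit 32) (.e (nat_lit 426197) (nat_lit 9) (.e (nat_lit 426402) (nat_lit 15) (.e (nat_lit 1849) (nat_lit 124) .nil)))))))) (.g (nat_lit 1) (.e (nat_lit 419403) (nat_lit 0) .nil) .nil))) 
(.lf (nat_lit 600985) (.g (nat_lit 1764) (.e (nat_lit 557105) (nat_lit 14) (.e (nat_lit 180250) (nat_lit 10) (.e (nat_lit 573475) (nat_lit 12) (.e (nat_lit 57503) (nat_lit 38) .nil)))) (.g (nat_lit 0) (.e (nat_lit 419973) (nat_lit 0) .nil) .nil)))))) (.nd (nat_lit 7) (.nd (nat_lit 8) (.nd (nat_lit 9) 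
(.lf (nat_lit 600153) (.g (nat_lit 3196) (.e (nat_lit 557093) (nat_lit 12) (.e (nat_lit 163849) (nat_lit 0) (.e (nat_lit 6254) (nat_lit 337) (.e (nat_lit 2630) (nat_lit 164) (.e (nat_lit 172065) (nat_lit 3) (.e (nat_lit 204868) (nat_lit 29) (.e (nat_lit 360473) (nat_lit 8) .nil))))))) (.g (nat_lit 1) (.e (nat_lit 418974) (nat_lit 0) .nil) .nil))) 
(.lf (nat_lit 600665) (.g (nat_lit 3128) (.e (nat_lit 557100) (nat_lit 13) (.e (nat_lit 172106) (nat_lit 10) (.e (nat_lit 434231) (nat_lit 23) (.e (nat_lit 532535) (nat_lit 9) (.e (nat_lit 336287) (nat_lit 15) (.e (nat_lit 3715) (nat_lit 227) (.e (nat_lit 786176) (nat_lit 3) (.e (nat_lit 57479) (nat_lit 28) .nil)))))))) (.g (nat_lit 1) (.e (nat_lit 419610) (nat_lit 0) .nil) .nil)))) 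
(.nd (nat_lit 9) 
(.lf (nat_lit 600409) (.g (nat_lit 3575) (.e (nat_lit 557097) (nat_lit 13) (.e (nat_lit 172115) (nat_lit 10) (.e (nat_lit 434231) (nat_lit 23) (.e (nat_lit 532529) (nat_lit 9) (.e (nat_lit 336263) (nat_lit 15) (.e (nat_lit 3630) (nat_lit 227) (.e (nat_lit 778318) (nat_lit 3) (.e (nat_lit 57476) (nat_lit 28) .nil)))))))) (.g (nat_lit 1) (.e (nat_lit 419339) (nat_lit 0) .nil) .nil))) 
(.lf (nat_lit 600921) (.g (nat_lit 2638) (.e (nat_lit 557103) (nat_lit 14) (.e (nat_lit 180250) (nat_lit 10) (.e (nat_lit 573474) (nat_lit 12) (.e (nat_lit 57507) (nat_lit 39) (.e (nat_lit 647176) (nat_lit 0) (.e (nat_lit 2681) (nat_lit 168) (.e (nat_lit 204863) (nat_lit 27) (.e (nat_lit 344132) (nat_lit 26) .nil)))))))) (.g (nat_lit 1) (.e (nat_lit 419887) (nat_lit 0) .nil) .nil))))) 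
(.nd (nat_lit 8) (.nd (nat_lit 9) 
(.lf (nat_lit 600281) (.g (nat_lit 2065) (.e (nat_lit 557095) (nat_lit 13) (.e (nat_lit 172115) (nat_lit 10) (.e (nat_lit 434231) (nat_lit 23) (.e (nat_lit 532490) (nat_lit 0) (.e (nat_lit 6114) (nat_lit 332) .nil))))) (.g (nat_lit 0) (.e (nat_lit 419169) (nat_lit 0) .nil) .nil))) 
(.lf (nat_lit 600793) (.g (nat_lit 1769) (.e (nat_lit 557101) (nat_lit 13) (.e (nat_lit 172115) (nat_lit 10) (.e (nat_lit 434231) (nat_lit 23) (.e (nat_lit 532569) (nat_lit 16) (.e (nat_lit 401434) (nat_lit 9) .nil))))) (.g (nat_lit 0) (.e (nat_lit 419751) (nat_lit 0) .nil) .nil)))) (.nd (nat_lit 9) 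
(.lf (nat_lit 600537) (.g (nat_lit 2505) (.e (nat_lit 557098) (nat_lit 13) (.e (nat_lit 172115) (nat_lit 10) (.e (nat_lit 434244) (nat_lit 28) (.e (nat_lit 573448) (nat_lit 9) (.e (nat_lit 430) (nat_lit 32) .nil))))) (.g (nat_lit 0) (.e (nat_lit 419470) (nat_lit 0) .nil) .nil))) 
(.lf (nat_lit 601049) (.g (nat_lit 3911) (.e (nat_lit 557105) (nat_lit 14) (.e (nat_lit 180252) (nat_lit 10) (.e (nat_lit 573474) (nat_lit 12) (.e (nat_lit 65280) (nat_lit 37) (.e (nat_lit 630800) (nat_lit 7) (.e (nat_lit 163978) (nat_lit 30) (.e (nat_lit 573489) (nat_lit 14) (.e (nat_lit 73755) (nat_lit 8) .nil)))))))) (.g (nat_lit 1) (.e (nat_lit 420098) (nat_lit 0) .nil) .nil))))))) 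
(.nd (nat_lit 6) (.nd (nat_lit 7) (.nd (nat_lit 8) (.nd (nat_lit 9) 
(.lf (nat_lit 600121) (.g (nat_lit 4101) (.e (nat_lit 557091) (nat_lit 12) (.e (nat_lit 164020) (nat_lit 45) (.e (nat_lit 696344) (nat_lit 8) (.e (nat_lit 172067) (nat_lit 3) (.e (nat_lit 204868) (nat_lit 29) (.e (nat_lit 360474) (nat_lit 8) .nil)))))) (.g (nat_lit 1) (.e (nat_lit 418927) (nat_lit 0) .nil) .nil))) 
(.lf (nat_lit 600633) (.g (nat_lit 2837) (.e (nat_lit 557100) (nat_lit 13) (.e (nat_lit 172106) (nat_lit 10) (.e (nat_lit 434231) (nat_lit 23) (.e (nat_lit 532487) (nat_lit 0) .nil)))) (.g (nat_lit 0) (.e (nat_lit 419578) (nat_lit 0) .nil) .nil)))) (.nd (nat_lit 9) 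
(.lf (nat_lit 600377) (.g (nat_lit 3214) (.e (nat_lit 557097) (nat_lit 13) (.e (nat_lit 172115) (nat_lit 10) (.e (nat_lit 434231) (nat_lit 23) (.e (nat_lit 532528) (nat_lit 9) (.e (nat_lit 336303) (nat_lit 15) (.e (nat_lit 3618) (nat_lit 227) (.e (nat_lit 778318) (nat_lit 3) (.e (nat_lit 57476) (nat_lit 28) .nil)))))))) (.g (nat_lit 1) (.e (nat_lit 419307) (nat_lit 0) .nil) .nil))) 
(.lf (nat_lit 600889) (.g (nat_lit 1549) (.e (nat_lit 557101) (nat_lit 13) (.e (nat_lit 172115) (nat_lit 10) (.e (nat_lit 434244) (nat_lit 28) (.e (nat_lit 573471) (nat_lit 11) (.e (nat_lit 16439) (nat_lit 9) .nil))))) (.g (nat_lit 0) (.e (nat_lit 419847) (nat_lit 0) .nil) .nil))))) (.nd (nat_lit 8) (.nd (nat_lit 9) 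
(.lf (nat_lit 600249) (.g (nat_lit 4184) (.e (nat_lit 557094) (nat_lit 12) (.e (nat_lit 164022) (nat_lit 46) (.e (nat_lit 704628) (nat_lit 9) (.e (nat_lit 375) (nat_lit 32) (.e (nat_lit 426140) (nat_lit 3) (.e (nat_lit 204869) (nat_lit 29) (.e (nat_lit 360474) (nat_lit 8) .nil))))))) (.g (nat_lit 1) (.e (nat_lit 419118) (nat_lit 0) .nil) .nil))) 
(.lf (nat_lit 600761) (.g (nat_lit 2065) (.e (nat_lit 557101) (nat_lit 13) (.e (nat_lit 172115) (nat_lit 10) (.e (nat_lit 434231) (nat_lit 23) (.e (nat_lit 532481) (nat_lit 0) (.e (nat_lit 6691) (nat_lit 357) (.e (nat_lit 3064) (nat_lit 190) (.e (nat_lit 475184) (nat_lit 29) .nil))))))) (.g (nat_lit 1) (.e (nat_lit 419719) (nat_lit 0) .nil) .nil)))) (.nd (nat_lit 9) 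
(.lf (nat_lit 600505) (.g (nat_lit 3230) (.e (nat_lit 557098) (nat_lit 13) (.e (nat_lit 172115) (nat_lit 10) (.e (nat_lit 434231) (nat_lit 23) (.e (nat_lit 532483) (nat_lit 0) (.e (nat_lit 6684) (nat_lit 357) .nil))))) (.g (nat_lit 0) (.e (nat_lit 419438) (nat_lit 0) .nil) .nil))) 
(.lf (nat_lit 601017) (.g (nat_lit 2843) (.e (nat_lit 557105) (nat_lit 14) (.e (nat_lit 180252) (nat_lit 10) (.e (nat_lit 581376) (nat_lit 0) (.e (nat_lit 2887) (nat_lit 184) (.e (nat_lit 426412) (nat_lit 15) (.e (nat_lit 7936) (nat_lit 121) (.e (nat_lit 532544) (nat_lit 10) (.e (nat_lit 344132) (nat_lit 26) .nil)))))))) (.g (nat_lit 1) (.e (nat_lit 420005) (nat_lit 0) .nil) .nil)))))) 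
(.nd (nat_lit 7) (.nd (nat_lit 8) (.nd (nat_lit 9) 
(.lf (nat_lit 600185) (.g (nat_lit 3135) (.e (nat_lit 557093) (nat_lit 12) (.e (nat_lit 164018) (nat_lit 45) (.e (nat_lit 696330) (nat_lit 5) (.e (nat_lit 2964) (nat_lit 185) (.e (nat_lit 434231) (nat_lit 23) (.e (nat_lit 532549) (nat_lit 12) (.e (nat_lit 360473) (nat_lit 8) .nil))))))) (.g (nat_lit 1) (.e (nat_lit 419023) (nat_lit 0) .nil) .nil))) 
(.lf (nat_lit 600697) (.g (nat_lit 3363) (.e (nat_lit 557100) (nat_lit 13) (.e (nat_lit 172113) (nat_lit 10) (.e (nat_lit 434231) (nat_lit 23) (.e (nat_lit 532523) (nat_lit 7) (.e (nat_lit 319504) (nat_lit 10) (.e (nat_lit 7936) (nat_lit 313) (.e (nat_lit 8326) (nat_lit 69) .nil))))))) (.g (nat_lit 1) (.e (nat_lit 419642) (nat_lit 0) .nil) .nil)))) (.nd (nat_lit 9) 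
(.lf (nat_lit 600441) (.g (nat_lit 2697) (.e (nat_lit 557097) (nat_lit 13) (.e (nat_lit 172115) (nat_lit 10) (.e (nat_lit 434244) (nat_lit 28) (.e (nat_lit 573449) (nat_lit 9) (.e (nat_lit 454) (nat_lit 34) (.e (nat_lit 450304) (nat_lit 0) (.e (nat_lit 1848) (nat_lit 124) .nil))))))) (.g (nat_lit 1) (.e (nat_lit 419371) (nat_lit 0) .nil) .nil))) 
(.lf (nat_lit 600953) (.g (nat_lit 3373) (.e (nat_lit 557104) (nat_lit 14) (.e (nat_lit 180252) (nat_lit 10) (.e (nat_lit 573473) (nat_lit 12) (.e (nat_lit 57503) (nat_lit 38) (.e (nat_lit 638995) (nat_lit 7) (.e (nat_lit 163978) (nat_lit 30) (.e (nat_lit 573487) (nat_lit 14) (.e (nat_lit 73753) (nat_lit 8) .nil)))))))) (.g (nat_lit 1) (.e (nat_lit 419937) (nat_lit 0) .nil) .nil))))) 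
(.nd (nat_lit 8) (.nd (nat_lit 9) 
(.lf (nat_lit 600313) (.g (nat_lit 968) (.e (nat_lit 557096) (nat_lit 13) (.e (nat_lit 172126) (nat_lit 14) (.e (nat_lit 491540) (nat_lit 3) (.e (nat_lit 98370) (nat_lit 28) .nil)))) (.g (nat_lit 0) (.e (nat_lit 419236) (nat_lit 0) .nil) .nil))) 
(.lf (nat_lit 600825) (.g (nat_lit 2570) (.e (nat_lit 557101) (nat_lit 13) (.e (nat_lit 172115) (nat_lit 10) (.e (nat_lit 434244) (nat_lit 28) (.e (nat_lit 573449) (nat_lit 9) (.e (nat_lit 477) (nat_lit 37) (.e (nat_lit 474880) (nat_lit 0) (.e (nat_lit 1860) (nat_lit 124) .nil))))))) (.g (nat_lit 1) (.e (nat_lit 419783) (nat_lit 0) .nil) .nil)))) (.nd (nat_lit 9) 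
(.lf (nat_lit 600569) (.g (nat_lit 3073) (.e (nat_lit 557098) (nat_lit 13) (.e (nat_lit 172115) (nat_lit 10) (.e (nat_lit 434244) (nat_lit 28) (.e (nat_lit 573456) (nat_lit 9) (.e (nat_lit 430) (nat_lit 32) (.e (nat_lit 426308) (nat_lit 12) (.e (nat_lit 475184) (nat_lit 29) .nil))))))) (.g (nat_lit 1) (.e (nat_lit 419504) (nat_lit 0) .nil) .nil))) 
(.lf (nat_lit 601081) (.g (nat_lit 5509) (.e (nat_lit 557105) (nat_lit 14) (.e (nat_lit 180252) (nat_lit 10) (.e (nat_lit 573475) (nat_lit 12) (.e (nat_lit 57504) (nat_lit 38) (.e (nat_lit 638995) (nat_lit 7) (.e (nat_lit 163978) (nat_lit 30) (.e (nat_lit 573489) (nat_lit 14) (.e (nat_lit 73755) (nat_lit 8) .nil)))))))) (.g (nat_lit 1) (.e (nat_lit 420138) (nat_lit 0) .nil) .nil)))))))))) 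
(.nd (nat_lit 3) (.nd (nat_lit 4) (.nd (nat_lit 5) (.nd (nat_lit 6) (.nd (nat_lit 7) 
(.nd (nat_lit 8) (.nd (nat_lit 9) 
(.lf (nat_lit 600069) (.g (nat_lit 4246) (.e (nat_lit 557090) (nat_lit 12) (.e (nat_lit 163852) (nat_lit 0) (.e (nat_lit 6427) (nat_lit 342) (.e (nat_lit 229399) (nat_lit 12) (.e (nat_lit 426125) (nat_lit 2) (.e (nat_lit 196666) (nat_lit 13) (.e (nat_lit 65617) (nat_lit 10) (.e (nat_lit 344130) (nat_lit 26) .nil)))))))) (.g (nat_lit 1) (.e (nat_lit 418818) (nat_lit 0) .nil) .nil))) 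
(.lf (nat_lit 600581) (.g (nat_lit 2839) (.e (nat_lit 557098) (nat_lit 13) (.e (nat_lit 172115) (nat_lit 10) (.e (nat_lit 434244) (nat_lit 28) (.e (nat_lit 573468) (nat_lit 10) (.e (nat_lit 8525) (nat_lit 205) (.e (nat_lit 2854) (nat_lit 184) (.e (nat_lit 426402) (nat_lit 15) (.e (nat_lit 1859) (nat_lit 124) .nil)))))))) (.g (nat_lit 1) (.e (nat_lit 419516) (nat_lit 0) .nil) .nil)))) 
(.nd (nat_lit 9) 
(.lf (nat_lit 600325) (.g (nat_lit 2801) (.e (nat_lit 557097) (nat_lit 13) (.e (nat_lit 172097) (nat_lit 9) (.e (nat_lit 426125) (nat_lit 2) (.e (nat_lit 196661) (nat_lit 12) (.e (nat_lit 57749) (nat_lit 201) (.e (nat_lit 2940) (nat_lit 184) (.e (nat_lit 426401) (nat_lit 15) (.e (nat_lit 1849) (nat_lit 124) .nil)))))))) (.g (nat_lit 1) (.e (nat_lit 419255) (nat_lit 0) .nil) .nil))) 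
(.lf (nat_lit 600837) (.g (nat_lit 2621) (.e (nat_lit 557101) (nat_lit 13) (.e (nat_lit 172115) (nat_lit 10) (.e (nat_lit 434244) (nat_lit 28) (.e (nat_lit 573450) (nat_lit 9) (.e (nat_lit 389) (nat_lit 32) (.e (nat_lit 426196) (nat_lit 9) (.e (nat_lit 426354) (nat_lit 15) (.e (nat_lit 1860) (nat_lit 124) .nil)))))))) (.g (nat_lit 1) (.e (nat_lit 419795) (nat_lit 0) .nil) .nil))))) 
(.nd (nat_lit 8) (.nd (nat_lit 9) 
(.lf (nat_lit 600197) (.g (nat_lit 3952) (.e (nat_lit 557093) (nat_lit 12) (.e (nat_lit 164018) (nat_lit 45) (.e (nat_lit 696344) (nat_lit 8) (.e (nat_lit 172067) (nat_lit 3) (.e (nat_lit 204855) (nat_lit 26) (.e (nat_lit 336176) (nat_lit 10) (.e (nat_lit 344132) (nat_lit 26) .nil))))))) (.g (nat_lit 1) (.e (nat_lit 419035) (nat_lit 0) .nil) .nil))) 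
(.lf (nat_lit 600709) (.g (nat_lit 3013) (.e (nat_lit 557100) (nat_lit 13) (.e (nat_lit 172113) (nat_lit 10) (.e (nat_lit 434245) (nat_lit 28) (.e (nat_lit 573474) (nat_lit 12) (.e (nat_lit 57566) (nat_lit 52) (.e (nat_lit 753672) (nat_lit 5) (.e (nat_lit 3071) (nat_lit 190) (.e (nat_lit 475185) (nat_lit 29) .nil)))))))) (.g (nat_lit 1) (.e (nat_lit 419654) (nat_lit 0) .nil) .nil)))) 
(.nd (nat_lit 9) 
(.lf (nat_lit 600453) (.g (nat_lit 2312) (.e (nat_lit 557097) (nat_lit 13) (.e (nat_lit 172115) (nat_lit 10) (.e (nat_lit 434244) (nat_lit 28) (.e (nat_lit 573450) (nat_lit 9) (.e (nat_lit 457) (nat_lit 34) (.e (nat_lit 442368) (nat_lit 0) (.e (nat_lit 1862) (nat_lit 124) .nil))))))) (.g (nat_lit 1) (.e (nat_lit 419383) (nat_lit 0) .nil) .nil))) 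
(.lf (nat_lit 600965) (.g (nat_lit 4037) (.e (nat_lit 557104) (nat_lit 14) (.e (nat_lit 180252) (nat_lit 10) (.e (nat_lit 573475) (nat_lit 12) (.e (nat_lit 57503) (nat_lit 38) (.e (nat_lit 638995) (nat_lit 7) (.e (nat_lit 163979) (nat_lit 30) (.e (nat_lit 573487) (nat_lit 14) (.e (nat_lit 73753) (nat_lit 8) .nil)))))))) (.g (nat_lit 1) (.e (nat_lit 419949) (nat_lit 0) .nil) .nil)))))) 
(.nd (nat_lit 7) (.nd (nat_lit 8) (.nd (nat_lit 9) 
(.lf (nat_lit 600133) (.g (nat_lit 3377) (.e (nat_lit 557091) (nat_lit 12) (.e (nat_lit 164022) (nat_lit 46) (.e (nat_lit 704629) (nat_lit 9) (.e (nat_lit 442) (nat_lit 33) (.e (nat_lit 434230) (nat_lit 23) .nil))))) (.g (nat_lit 0) (.e (nat_lit 418941) (nat_lit 0) .nil) .nil))) 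
(.lf (nat_lit 600645) (.g (nat_lit 2781) (.e (nat_lit 557100) (nat_lit 13) (.e (nat_lit 172106) (nat_lit 10) (.e (nat_lit 434231) (nat_lit 23) (.e (nat_lit 532496) (nat_lit 0) .nil)))) (.g (nat_lit 0) (.e (nat_lit 419590) (nat_lit 0) .nil) .nil)))) (.nd (nat_lit 9) 
(.lf (nat_lit 600389) (.g (nat_lit 3891) (.e (nat_lit 557097) (nat_lit 13) (.e (nat_lit 172115) (nat_lit 10) (.e (nat_lit 434231) (nat_lit 23) (.e (nat_lit 532529) (nat_lit 9) (.e (nat_lit 336257) (nat_lit 15) (.e (nat_lit 3626) (nat_lit 227) (.e (nat_lit 778318) (nat_lit 3) (.e (nat_lit 57476) (nat_lit 28) .nil)))))))) (.g (nat_lit 1) (.e (nat_lit 419319) (nat_lit 0) .nil) .nil))) 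
(.lf (nat_lit 600901) (.g (nat_lit 1325) (.e (nat_lit 557101) (nat_lit 13) (.e (nat_lit 172124) (nat_lit 14) (.e (nat_lit 491540) (nat_lit 3) (.e (nat_lit 98370) (nat_lit 28) (.e (nat_lit 450304) (nat_lit 0) .nil))))) (.g (nat_lit 0) (.e (nat_lit 419859) (nat_lit 0) .nil) .nil))))) (.nd (nat_lit 8) (.nd (nat_lit 9) 
(.lf (nat_lit 600261) (.g (nat_lit 2632) (.e (nat_lit 557094) (nat_lit 12) (.e (nat_lit 164022) (nat_lit 46) (.e (nat_lit 704738) (nat_lit 11) (.e (nat_lit 16399) (nat_lit 0) .nil)))) (.g (nat_lit 0) (.e (nat_lit 419132) (nat_lit 0) .nil) .nil))) 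
(.lf (nat_lit 600773) (.g (nat_lit 4126) (.e (nat_lit 557101) (nat_lit 13) (.e (nat_lit 172115) (nat_lit 10) (.e (nat_lit 434231) (nat_lit 23) (.e (nat_lit 532490) (nat_lit 0) (.e (nat_lit 6680) (nat_lit 357) (.e (nat_lit 3067) (nat_lit 190) (.e (nat_lit 475184) (nat_lit 29) .nil))))))) (.g (nat_lit 1) (.e (nat_lit 419731) (nat_lit 0) .nil) .nil)))) (.nd (nat_lit 9) 
(.lf (nat_lit 600517) (.g (nat_lit 4017) (.e (nat_lit 557098) (nat_lit 13) (.e (nat_lit 172115) (nat_lit 10) (.e (nat_lit 434231) (nat_lit 23) (.e (nat_lit 532522) (nat_lit 7) (.e (nat_lit 319504) (nat_lit 10) (.e (nat_lit 7936) (nat_lit 313) (.e (nat_lit 8326) (nat_lit 69) .nil))))))) (.g (nat_lit 1) (.e (nat_lit 419450) (nat_lit 0) .nil) .nil))) 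
(.lf (nat_lit 601029) (.g (nat_lit 5086) (.e (nat_lit 557105) (nat_lit 14) (.e (nat_lit 180252) (nat_lit 10) (.e (nat_lit 573473) (nat_lit 12) (.e (nat_lit 57504) (nat_lit 38) (.e (nat_lit 638995) (nat_lit 7) (.e (nat_lit 163977) (nat_lit 30) (.e (nat_lit 573489) (nat_lit 14) (.e (nat_lit 73755) (nat_lit 8) .nil)))))))) (.g (nat_lit 1) (.e (nat_lit 420038) (nat_lit 0) .nil) .nil))))))) 
(.nd (nat_lit 6) (.nd (nat_lit 7) (.nd (nat_lit 8) (.nd (nat_lit 9) 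
(.lf (nat_lit 600101) (.g (nat_lit 4462) (.e (nat_lit 557091) (nat_lit 12) (.e (nat_lit 163847) (nat_lit 0) (.e (nat_lit 6254) (nat_lit 337) (.e (nat_lit 2630) (nat_lit 164) (.e (nat_lit 172062) (nat_lit 2) (.e (nat_lit 196666) (nat_lit 13) (.e (nat_lit 65617) (nat_lit 10) (.e (nat_lit 344133) (nat_lit 26) .nil)))))))) (.g (nat_lit 1) (.e (nat_lit 418889) (nat_lit 0) .nil) .nil))) 
(.lf (nat_lit 600613) (.g (nat_lit 1349) (.e (nat_lit 557099) (nat_lit 13) (.e (nat_lit 172126) (nat_lit 14) (.e (nat_lit 491540) (nat_lit 3) (.e (nat_lit 98370) (nat_lit 28) .nil)))) (.g (nat_lit 0) (.e (nat_lit 419553) (nat_lit 0) .nil) .nil)))) (.nd (nat_lit 9) 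
(.lf (nat_lit 600357) (.g (nat_lit 2574) (.e (nat_lit 557097) (nat_lit 13) (.e (nat_lit 172115) (nat_lit 10) (.e (nat_lit 434231) (nat_lit 23) (.e (nat_lit 532481) (nat_lit 0) (.e (nat_lit 6684) (nat_lit 357) (.e (nat_lit 2857) (nat_lit 184) (.e (nat_lit 426402) (nat_lit 15) (.e (nat_lit 1849) (nat_lit 124) .nil)))))))) (.g (nat_lit 1) (.e (nat_lit 419287) (nat_lit 0) .nil) .nil))) 
(.lf (nat_lit 600869) (.g (nat_lit 3410) (.e (nat_lit 557101) (nat_lit 13) (.e (nat_lit 172115) (nat_lit 10) (.e (nat_lit 434244) (nat_lit 28) (.e (nat_lit 573454) (nat_lit 9) (.e (nat_lit 478) (nat_lit 37) (.e (nat_lit 474880) (nat_lit 0) (.e (nat_lit 1860) (nat_lit 124) .nil))))))) (.g (nat_lit 1) (.e (nat_lit 419827) (nat_lit 0) .nil) .nil))))) (.nd (nat_lit 8) (.nd (nat_lit 9) 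
(.lf (nat_lit 600229) (.g (nat_lit 1862) (.e (nat_lit 557093) (nat_lit 12) (.e (nat_lit 164023) (nat_lit 46) (.e (nat_lit 704738) (nat_lit 11) (.e (nat_lit 24320) (nat_lit 0) .nil)))) (.g (nat_lit 0) (.e (nat_lit 419072) (nat_lit 0) .nil) .nil))) 
(.lf (nat_lit 600741) (.g (nat_lit 3890) (.e (nat_lit 557101) (nat_lit 13) (.e (nat_lit 172097) (nat_lit 9) (.e (nat_lit 426125) (nat_lit 2) (.e (nat_lit 196666) (nat_lit 13) (.e (nat_lit 65638) (nat_lit 15) (.e (nat_lit 3716) (nat_lit 227) (.e (nat_lit 778316) (nat_lit 3) (.e (nat_lit 57479) (nat_lit 28) .nil)))))))) (.g (nat_lit 1) (.e (nat_lit 419699) (nat_lit 0) .nil) .nil)))) 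
(.nd (nat_lit 9) 
(.lf (nat_lit 600485) (.g (nat_lit 3392) (.e (nat_lit 557098) (nat_lit 13) (.e (nat_lit 172097) (nat_lit 9) (.e (nat_lit 426125) (nat_lit 2) (.e (nat_lit 196666) (nat_lit 13) (.e (nat_lit 65638) (nat_lit 15) .nil))))) (.g (nat_lit 0) (.e (nat_lit 419418) (nat_lit 0) .nil) .nil))) 
(.lf (nat_lit 600997) (.g (nat_lit 2639) (.e (nat_lit 557105) (nat_lit 14) (.e (nat_lit 180251) (nat_lit 10) (.e (nat_lit 573485) (nat_lit 13) (.e (nat_lit 65568) (nat_lit 2) (.e (nat_lit 98048) (nat_lit 2) (.e (nat_lit 16388) (nat_lit 0) (.e (nat_lit 3275) (nat_lit 200) .nil))))))) (.g (nat_lit 1) (.e (nat_lit 419985) (nat_lit 0) .nil) .nil)))))) 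
(.nd (nat_lit 7) (.nd (nat_lit 8) (.nd (nat_lit 9) 
(.lf (nat_lit 600165) (.g (nat_lit 3519) (.e (nat_lit 557093) (nat_lit 12) (.e (nat_lit 163849) (nat_lit 0) (.e (nat_lit 6421) (nat_lit 341) (.e (nat_lit 163916) (nat_lit 13) (.e (nat_lit 434231) (nat_lit 23) (.e (nat_lit 532550) (nat_lit 12) (.e (nat_lit 360474) (nat_lit 8) .nil))))))) (.g (nat_lit 1) (.e (nat_lit 418992) (nat_lit 0) .nil) .nil))) 
(.lf (nat_lit 600677) (.g (nat_lit 1977) (.e (nat_lit 557100) (nat_lit 13) (.e (nat_lit 172106) (nat_lit 10) (.e (nat_lit 434231) (nat_lit 23) (.e (nat_lit 532569) (nat_lit 16) (.e (nat_lit 401440) (nat_lit 9) .nil))))) (.g (nat_lit 0) (.e (nat_lit 419622) (nat_lit 0) .nil) .nil)))) (.nd (nat_lit 9) 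
(.lf (nat_lit 600421) (.g (nat_lit 3366) (.e (nat_lit 557097) (nat_lit 13) (.e (nat_lit 172115) (nat_lit 10) (.e (nat_lit 434231) (nat_lit 23) (.e (nat_lit 532529) (nat_lit 9) (.e (nat_lit 336296) (nat_lit 15) (.e (nat_lit 3716) (nat_lit 227) (.e (nat_lit 778316) (nat_lit 3) (.e (nat_lit 57477) (nat_lit 28) .nil)))))))) (.g (nat_lit 1) (.e (nat_lit 419351) (nat_lit 0) .nil) .nil))) 
(.lf (nat_lit 600933) (.g (nat_lit 2631) (.e (nat_lit 557103) (nat_lit 14) (.e (nat_lit 180250) (nat_lit 10) (.e (nat_lit 573485) (nat_lit 13) (.e (nat_lit 65568) (nat_lit 2) (.e (nat_lit 98048) (nat_lit 2) (.e (nat_lit 16388) (nat_lit 0) (.e (nat_lit 3275) (nat_lit 200) .nil))))))) (.g (nat_lit 1) (.e (nat_lit 419899) (nat_lit 0) .nil) .nil))))) (.nd (nat_lit 8) (.nd (nat_lit 9) 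
(.lf (nat_lit 600293) (.g (nat_lit 1807) (.e (nat_lit 557095) (nat_lit 13) (.e (nat_lit 172126) (nat_lit 14) (.e (nat_lit 491537) (nat_lit 2) (.e (nat_lit 90176) (nat_lit 15) .nil)))) (.g (nat_lit 0) (.e (nat_lit 419212) (nat_lit 0) .nil) .nil))) 
(.lf (nat_lit 600805) (.g (nat_lit 2511) (.e (nat_lit 557101) (nat_lit 13) (.e (nat_lit 172115) (nat_lit 10) (.e (nat_lit 434244) (nat_lit 28) (.e (nat_lit 573448) (nat_lit 9) (.e (nat_lit 414) (nat_lit 32) .nil))))) (.g (nat_lit 0) (.e (nat_lit 419763) (nat_lit 0) .nil) .nil)))) (.nd (nat_lit 9) 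
(.lf (nat_lit 600549) (.g (nat_lit 3605) (.e (nat_lit 557098) (nat_lit 13) (.e (nat_lit 172115) (nat_lit 10) (.e (nat_lit 434244) (nat_lit 28) (.e (nat_lit 573450) (nat_lit 9) (.e (nat_lit 375) (nat_lit 32) (.e (nat_lit 426201) (nat_lit 9) (.e (nat_lit 426360) (nat_lit 15) (.e (nat_lit 1859) (nat_lit 124) .nil)))))))) (.g (nat_lit 1) (.e (nat_lit 419483) (nat_lit 0) .nil) .nil))) 
(.lf (nat_lit 601061) (.g (nat_lit 5536) (.e (nat_lit 557105) (nat_lit 14) (.e (nat_lit 180252) (nat_lit 10) (.e (nat_lit 573474) (nat_lit 12) (.e (nat_lit 57503) (nat_lit 38) (.e (nat_lit 638996) (nat_lit 7) (.e (nat_lit 163977) (nat_lit 30) (.e (nat_lit 573489) (nat_lit 14) (.e (nat_lit 73755) (nat_lit 8) .nil)))))))) (.g (nat_lit 1) (.e (nat_lit 420110) (nat_lit 0) .nil) .nil)))))))) 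
(.nd (nat_lit 5) (.nd (nat_lit 6) (.nd (nat_lit 7) (.nd (nat_lit 8) (.nd (nat_lit 9) 
(.lf (nat_lit 600085) (.g (nat_lit 4242) (.e (nat_lit 557090) (nat_lit 12) (.e (nat_lit 164018) (nat_lit 45) (.e (nat_lit 696344) (nat_lit 8) (.e (nat_lit 172065) (nat_lit 3) (.e (nat_lit 204855) (nat_lit 26) (.e (nat_lit 336176) (nat_lit 10) (.e (nat_lit 344130) (nat_lit 26) .nil))))))) (.g (nat_lit 1) (.e (nat_lit 418858) (nat_lit 0) .nil) .nil))) 
(.lf (nat_lit 600597) (.g (nat_lit 4366) (.e (nat_lit 557099) (nat_lit 13) (.e (nat_lit 172094) (nat_lit 9) (.e (nat_lit 426125) (nat_lit 2) (.e (nat_lit 196666) (nat_lit 13) (.e (nat_lit 65553) (nat_lit 0) .nil))))) (.g (nat_lit 0) (.e (nat_lit 419532) (nat_lit 0) .nil) .nil)))) (.nd (nat_lit 9) 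
(.lf (nat_lit 600341) (.g (nat_lit 1154) (.e (nat_lit 557097) (nat_lit 13) (.e (nat_lit 172097) (nat_lit 9) (.e (nat_lit 426140) (nat_lit 3) (.e (nat_lit 204883) (nat_lit 33) .nil)))) (.g (nat_lit 0) (.e (nat_lit 419271) (nat_lit 0) .nil) .nil))) 
(.lf (nat_lit 600853) (.g (nat_lit 2391) (.e (nat_lit 557101) (nat_lit 13) (.e (nat_lit 172115) (nat_lit 10) (.e (nat_lit 434244) (nat_lit 28) (.e (nat_lit 573450) (nat_lit 9) (.e (nat_lit 7936) (nat_lit 34) .nil))))) (.g (nat_lit 0) (.e (nat_lit 419811) (nat_lit 0) .nil) .nil))))) (.nd (nat_lit 8) (.nd (nat_lit 9) 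
(.lf (nat_lit 600213) (.g (nat_lit 4019) (.e (nat_lit 557093) (nat_lit 12) (.e (nat_lit 164022) (nat_lit 46) (.e (nat_lit 704629) (nat_lit 9) (.e (nat_lit 442) (nat_lit 33) (.e (nat_lit 434232) (nat_lit 23) (.e (nat_lit 532549) (nat_lit 12) (.e (nat_lit 360474) (nat_lit 8) .nil))))))) (.g (nat_lit 1) (.e (nat_lit 419053) (nat_lit 0) .nil) .nil))) 
(.lf (nat_lit 600725) (.g (nat_lit 1823) (.e (nat_lit 557100) (nat_lit 13) (.e (nat_lit 172113) (nat_lit 10) (.e (nat_lit 434248) (nat_lit 28) (.e (nat_lit 573471) (nat_lit 11) (.e (nat_lit 16458) (nat_lit 12) .nil))))) (.g (nat_lit 0) (.e (nat_lit 419670) (nat_lit 0) .nil) .nil)))) (.nd (nat_lit 9) 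
(.lf (nat_lit 600469) (.g (nat_lit 2703) (.e (nat_lit 557097) (nat_lit 13) (.e (nat_lit 172115) (nat_lit 10) (.e (nat_lit 434244) (nat_lit 28) (.e (nat_lit 573458) (nat_lit 9) (.e (nat_lit 426) (nat_lit 32) (.e (nat_lit 426186) (nat_lit 9) (.e (nat_lit 426402) (nat_lit 15) (.e (nat_lit 1848) (nat_lit 124) .nil)))))))) (.g (nat_lit 1) (.e (nat_lit 419399) (nat_lit 0) .nil) .nil))) 
(.lf (nat_lit 600981) (.g (nat_lit 3167) (.e (nat_lit 557104) (nat_lit 14) (.e (nat_lit 180252) (nat_lit 10) (.e (nat_lit 573488) (nat_lit 14) (.e (nat_lit 73747) (nat_lit 3) (.e (nat_lit 516100) (nat_lit 0) (.e (nat_lit 7936) (nat_lit 216) (.e (nat_lit 688166) (nat_lit 15) (.e (nat_lit 57477) (nat_lit 28) .nil)))))))) (.g (nat_lit 1) (.e (nat_lit 419965) (nat_lit 0) .nil) .nil)))))) 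
(.nd (nat_lit 7) (.nd (nat_lit 8) (.nd (nat_lit 9) 
(.lf (nat_lit 600149) (.g (nat_lit 3094) (.e (nat_lit 557093) (nat_lit 12) (.e (nat_lit 163848) (nat_lit 0) (.e (nat_lit 6416) (nat_lit 341) (.e (nat_lit 163908) (nat_lit 12) (.e (nat_lit 426132) (nat_lit 3) (.e (nat_lit 204869) (nat_lit 29) (.e (nat_lit 360474) (nat_lit 8) .nil))))))) (.g (nat_lit 1) (.e (nat_lit 418966) (nat_lit 0) .nil) .nil))) 
(.lf (nat_lit 600661) (.g (nat_lit 3325) (.e (nat_lit 557100) (nat_lit 13) (.e (nat_lit 172106) (nat_lit 10) (.e (nat_lit 434231) (nat_lit 23) (.e (nat_lit 532535) (nat_lit 9) (.e (nat_lit 336287) (nat_lit 15) (.e (nat_lit 3681) (nat_lit 227) (.e (nat_lit 786176) (nat_lit 3) (.e (nat_lit 57479) (nat_lit 28) .nil)))))))) (.g (nat_lit 1) (.e (nat_lit 419606) (nat_lit 0) .nil) .nil)))) 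
(.nd (nat_lit 9) 
(.lf (nat_lit 600405) (.g (nat_lit 3795) (.e (nat_lit 557097) (nat_lit 13) (.e (nat_lit 172115) (nat_lit 10) (.e (nat_lit 434231) (nat_lit 23) (.e (nat_lit 532529) (nat_lit 9) (.e (nat_lit 336260) (nat_lit 15) (.e (nat_lit 3618) (nat_lit 227) (.e (nat_lit 778318) (nat_lit 3) (.e (nat_lit 57476) (nat_lit 28) .nil)))))))) (.g (nat_lit 1) (.e (nat_lit 419335) (nat_lit 0) .nil) .nil))) 
(.lf (nat_lit 600917) (.g (nat_lit 2858) (.e (nat_lit 557103) (nat_lit 14) (.e (nat_lit 180250) (nat_lit 10) (.e (nat_lit 573474) (nat_lit 12) (.e (nat_lit 57504) (nat_lit 38) (.e (nat_lit 638994) (nat_lit 7) .nil))))) (.g (nat_lit 0) (.e (nat_lit 419883) (nat_lit 0) .nil) .nil))))) (.nd (nat_lit 8) (.nd (nat_lit 9) 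
(.lf (nat_lit 600277) (.g (nat_lit 2239) (.e (nat_lit 557095) (nat_lit 13) (.e (nat_lit 172106) (nat_lit 10) (.e (nat_lit 434231) (nat_lit 23) (.e (nat_lit 532563) (nat_lit 15) .nil)))) (.g (nat_lit 0) (.e (nat_lit 419160) (nat_lit 0) .nil) .nil))) 
(.lf (nat_lit 600789) (.g (nat_lit 3797) (.e (nat_lit 557101) (nat_lit 13) (.e (nat_lit 172115) (nat_lit 10) (.e (nat_lit 434231) (nat_lit 23) (.e (nat_lit 532535) (nat_lit 9) (.e (nat_lit 336289) (nat_lit 15) (.e (nat_lit 3716) (nat_lit 227) (.e (nat_lit 778316) (nat_lit 3) (.e (nat_lit 57479) (nat_lit 28) .nil)))))))) (.g (nat_lit 1) (.e (nat_lit 419747) (nat_lit 0) .nil) .nil)))) 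
(.nd (nat_lit 9) 
(.lf (nat_lit 600533) (.g (nat_lit 3131) (.e (nat_lit 557098) (nat_lit 13) (.e (nat_lit 172115) (nat_lit 10) (.e (nat_lit 434231) (nat_lit 23) (.e (nat_lit 532567) (nat_lit 16) (.e (nat_lit 401454) (nat_lit 12) (.e (nat_lit 483072) (nat_lit 29) .nil)))))) (.g (nat_lit 1) (.e (nat_lit 419466) (nat_lit 0) .nil) .nil))) 
(.lf (nat_lit 601045) (.g (nat_lit 4843) (.e (nat_lit 557105) (nat_lit 14) (.e (nat_lit 180252) (nat_lit 10) (.e (nat_lit 573474) (nat_lit 12) (.e (nat_lit 57500) (nat_lit 37) (.e (nat_lit 630800) (nat_lit 7) (.e (nat_lit 163977) (nat_lit 30) (.e (nat_lit 573489) (nat_lit 14) (.e (nat_lit 73755) (nat_lit 8) .nil)))))))) (.g (nat_lit 1) (.e (nat_lit 420093) (nat_lit 0) .nil) .nil))))))) 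
(.nd (nat_lit 6) (.nd (nat_lit 7) (.nd (nat_lit 8) (.nd (nat_lit 9) 
(.lf (nat_lit 600117) (.g (nat_lit 6427) (.e (nat_lit 557091) (nat_lit 12) (.e (nat_lit 164020) (nat_lit 45) (.e (nat_lit 696333) (nat_lit 5) (.e (nat_lit 2854) (nat_lit 184) (.e (nat_lit 426131) (nat_lit 3) (.e (nat_lit 204869) (nat_lit 29) (.e (nat_lit 360474) (nat_lit 8) .nil))))))) (.g (nat_lit 1) (.e (nat_lit 418918) (nat_lit 0) .nil) .nil))) 
(.lf (nat_lit 600629) (.g (nat_lit 2494) (.e (nat_lit 557100) (nat_lit 13) (.e (nat_lit 172106) (nat_lit 10) (.e (nat_lit 434231) (nat_lit 23) (.e (nat_lit 532482) (nat_lit 0) (.e (nat_lit 6665) (nat_lit 357) (.e (nat_lit 2887) (nat_lit 184) (.e (nat_lit 426412) (nat_lit 15) (.e (nat_lit 1856) (nat_lit 124) .nil)))))))) (.g (nat_lit 1) (.e (nat_lit 419574) (nat_lit 0) .nil) .nil)))) 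
(.nd (nat_lit 9) 
(.lf (nat_lit 600373) (.g (nat_lit 4444) (.e (nat_lit 557097) (nat_lit 13) (.e (nat_lit 172115) (nat_lit 10) (.e (nat_lit 434231) (nat_lit 23) (.e (nat_lit 532490) (nat_lit 0) (.e (nat_lit 6680) (nat_lit 357) (.e (nat_lit 2856) (nat_lit 184) (.e (nat_lit 426402) (nat_lit 15) (.e (nat_lit 1849) (nat_lit 124) .nil)))))))) (.g (nat_lit 1) (.e (nat_lit 419303) (nat_lit 0) .nil) .nil))) 
(.lf (nat_lit 600885) (.g (nat_lit 3464) (.e (nat_lit 557101) (nat_lit 13) (.e (nat_lit 172115) (nat_lit 10) (.e (nat_lit 434244) (nat_lit 28) (.e (nat_lit 573471) (nat_lit 11) (.e (nat_lit 16385) (nat_lit 0) (.e (nat_lit 7374) (nat_lit 389) (.e (nat_lit 8326) (nat_lit 69) .nil))))))) (.g (nat_lit 1) (.e (nat_lit 419843) (nat_lit 0) .nil) .nil))))) (.nd (nat_lit 8) (.nd (nat_lit 9) 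
(.lf (nat_lit 600245) (.g (nat_lit 3011) (.e (nat_lit 557094) (nat_lit 12) (.e (nat_lit 164018) (nat_lit 45) (.e (nat_lit 696329) (nat_lit 5) (.e (nat_lit 2884) (nat_lit 184) (.e (nat_lit 426140) (nat_lit 3) (.e (nat_lit 204869) (nat_lit 29) (.e (nat_lit 360474) (nat_lit 8) .nil))))))) (.g (nat_lit 1) (.e (nat_lit 419109) (nat_lit 0) .nil) .nil))) 
(.lf (nat_lit 600757) (.g (nat_lit 2410) (.e (nat_lit 557101) (nat_lit 13) (.e (nat_lit 172115) (nat_lit 10) (.e (nat_lit 434231) (nat_lit 23) (.e (nat_lit 532480) (nat_lit 0) (.e (nat_lit 6668) (nat_lit 357) .nil))))) (.g (nat_lit 0) (.e (nat_lit 419715) (nat_lit 0) .nil) .nil)))) (.nd (nat_lit 9) 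
(.lf (nat_lit 600501) (.g (nat_lit 2314) (.e (nat_lit 557098) (nat_lit 13) (.e (nat_lit 172115) (nat_lit 10) (.e (nat_lit 434231) (nat_lit 23) (.e (nat_lit 532481) (nat_lit 0) (.e (nat_lit 6691) (nat_lit 357) (.e (nat_lit 3064) (nat_lit 190) (.e (nat_lit 475184) (nat_lit 29) .nil))))))) (.g (nat_lit 1) (.e (nat_lit 419434) (nat_lit 0) .nil) .nil))) 
(.lf (nat_lit 601013) (.g (nat_lit 2263) (.e (nat_lit 557105) (nat_lit 14) (.e (nat_lit 180251) (nat_lit 10) (.e (nat_lit 573485) (nat_lit 13) (.e (nat_lit 65568) (nat_lit 2) (.e (nat_lit 98048) (nat_lit 2) (.e (nat_lit 16402) (nat_lit 0) (.e (nat_lit 7936) (nat_lit 200) .nil))))))) (.g (nat_lit 1) (.e (nat_lit 420001) (nat_lit 0) .nil) .nil)))))) 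
(.nd (nat_lit 7) (.nd (nat_lit 8) (.nd (nat_lit 9) 
(.lf (nat_lit 600181) (.g (nat_lit 3007) (.e (nat_lit 557093) (nat_lit 12) (.e (nat_lit 164018) (nat_lit 45) (.e (nat_lit 696329) (nat_lit 5) (.e (nat_lit 2980) (nat_lit 185) (.e (nat_lit 434231) (nat_lit 23) (.e (nat_lit 532549) (nat_lit 12) (.e (nat_lit 360473) (nat_lit 8) .nil))))))) (.g (nat_lit 1) (.e (nat_lit 419017) (nat_lit 0) .nil) .nil))) 
(.lf (nat_lit 600693) (.g (nat_lit 3465) (.e (nat_lit 557100) (nat_lit 13) (.e (nat_lit 172106) (nat_lit 10) (.e (nat_lit 434244) (nat_lit 28) (.e (nat_lit 573458) (nat_lit 9) (.e (nat_lit 426) (nat_lit 32) (.e (nat_lit 426315) (nat_lit 12) (.e (nat_lit 475184) (nat_lit 29) .nil))))))) (.g (nat_lit 1) (.e (nat_lit 419638) (nat_lit 0) .nil) .nil)))) (.nd (nat_lit 9) 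
(.lf (nat_lit 600437) (.g (nat_lit 1988) (.e (nat_lit 557097) (nat_lit 13) (.e (nat_lit 172115) (nat_lit 10) (.e (nat_lit 434244) (nat_lit 28) (.e (nat_lit 573449) (nat_lit 9) (.e (nat_lit 396) (nat_lit 32) .nil))))) (.g (nat_lit 0) (.e (nat_lit 419367) (nat_lit 0) .nil) .nil))) 
(.lf (nat_lit 600949) (.g (nat_lit 2918) (.e (nat_lit 557104) (nat_lit 14) (.e (nat_lit 180251) (nat_lit 10) (.e (nat_lit 573475) (nat_lit 12) (.e (nat_lit 57503) (nat_lit 38) (.e (nat_lit 638995) (nat_lit 7) (.e (nat_lit 163977) (nat_lit 30) (.e (nat_lit 573487) (nat_lit 14) (.e (nat_lit 73753) (nat_lit 8) .nil)))))))) (.g (nat_lit 1) (.e (nat_lit 419933) (nat_lit 0) .nil) .nil))))) 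
(.nd (nat_lit 8) (.nd (nat_lit 9) 
(.lf (nat_lit 600309) (.g (nat_lit 2882) (.e (nat_lit 557096) (nat_lit 13) (.e (nat_lit 172126) (nat_lit 14) (.e (nat_lit 491537) (nat_lit 2) (.e (nat_lit 90134) (nat_lit 9) (.e (nat_lit 2950) (nat_lit 184) .nil))))) (.g (nat_lit 0) (.e (nat_lit 419232) (nat_lit 0) .nil) .nil))) 
(.lf (nat_lit 600821) (.g (nat_lit 2507) (.e (nat_lit 557101) (nat_lit 13) (.e (nat_lit 172115) (nat_lit 10) (.e (nat_lit 434244) (nat_lit 28) (.e (nat_lit 573449) (nat_lit 9) (.e (nat_lit 455) (nat_lit 34) (.e (nat_lit 450304) (nat_lit 0) (.e (nat_lit 1858) (nat_lit 124) .nil))))))) (.g (nat_lit 1) (.e (nat_lit 419779) (nat_lit 0) .nil) .nil)))) (.nd (nat_lit 9) 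
(.lf (nat_lit 600565) (.g (nat_lit 3445) (.e (nat_lit 557098) (nat_lit 13) (.e (nat_lit 172115) (nat_lit 10) (.e (nat_lit 434244) (nat_lit 28) (.e (nat_lit 573451) (nat_lit 9) (.e (nat_lit 430) (nat_lit 32) (.e (nat_lit 426198) (nat_lit 9) (.e (nat_lit 426402) (nat_lit 15) (.e (nat_lit 1859) (nat_lit 124) .nil)))))))) (.g (nat_lit 1) (.e (nat_lit 419500) (nat_lit 0) .nil) .nil))) 
(.lf (nat_lit 601077) (.g (nat_lit 2900) (.e (nat_lit 557105) (nat_lit 14) (.e (nat_lit 180252) (nat_lit 10) (.e (nat_lit 573475) (nat_lit 12) (.e (nat_lit 57503) (nat_lit 38) (.e (nat_lit 638984) (nat_lit 5) (.e (nat_lit 2466) (nat_lit 157) (.e (nat_lit 3307) (nat_lit 202) (.e (nat_lit 573489) (nat_lit 14) (.e (nat_lit 73755) (nat_lit 8) .nil))))))))) (.g (nat_lit 1) (.e (nat_lit 420134) (nat_lit 0) .nil) .nil))))))))) 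
(.nd (nat_lit 4) (.nd (nat_lit 5) (.nd (nat_lit 6) (.nd (nat_lit 7) (.nd (nat_lit 8) 
(.nd (nat_lit 9) 
(.lf (nat_lit 600077) (.g (nat_lit 4390) (.e (nat_lit 557090) (nat_lit 12) (.e (nat_lit 164018) (nat_lit 45) (.e (nat_lit 696327) (nat_lit 5) (.e (nat_lit 2884) (nat_lit 184) (.e (nat_lit 426125) (nat_lit 2) (.e (nat_lit 196666) (nat_lit 13) (.e (nat_lit 65617) (nat_lit 10) (.e (nat_lit 344130) (nat_lit 26) .nil)))))))) (.g (nat_lit 1) (.e (nat_lit 418843) (nat_lit 0) .nil) .nil))) 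
(.lf (nat_lit 600589) (.g (nat_lit 4486) (.e (nat_lit 557098) (nat_lit 13) (.e (nat_lit 172115) (nat_lit 10) (.e (nat_lit 434244) (nat_lit 28) (.e (nat_lit 573471) (nat_lit 11) (.e (nat_lit 16473) (nat_lit 14) (.e (nat_lit 491575) (nat_lit 15) (.e (nat_lit 7936) (nat_lit 200) .nil))))))) (.g (nat_lit 1) (.e (nat_lit 419524) (nat_lit 0) .nil) .nil)))) (.nd (nat_lit 9) 
(.lf (nat_lit 600333) (.g (nat_lit 3425) (.e (nat_lit 557097) (nat_lit 13) (.e (nat_lit 172097) (nat_lit 9) (.e (nat_lit 426125) (nat_lit 2) (.e (nat_lit 196666) (nat_lit 13) (.e (nat_lit 65638) (nat_lit 15) .nil))))) (.g (nat_lit 0) (.e (nat_lit 419263) (nat_lit 0) .nil) .nil))) 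
(.lf (nat_lit 600845) (.g (nat_lit 1938) (.e (nat_lit 557101) (nat_lit 13) (.e (nat_lit 172115) (nat_lit 10) (.e (nat_lit 434244) (nat_lit 28) (.e (nat_lit 573450) (nat_lit 9) (.e (nat_lit 455) (nat_lit 34) (.e (nat_lit 442373) (nat_lit 0) (.e (nat_lit 1846) (nat_lit 124) .nil))))))) (.g (nat_lit 1) (.e (nat_lit 419803) (nat_lit 0) .nil) .nil))))) (.nd (nat_lit 8) (.nd (nat_lit 9) 
(.lf (nat_lit 600205) (.g (nat_lit 5077) (.e (nat_lit 557093) (nat_lit 12) (.e (nat_lit 164022) (nat_lit 46) (.e (nat_lit 704629) (nat_lit 9) (.e (nat_lit 375) (nat_lit 32) (.e (nat_lit 426140) (nat_lit 3) (.e (nat_lit 204855) (nat_lit 26) (.e (nat_lit 336176) (nat_lit 10) (.e (nat_lit 344132) (nat_lit 26) .nil)))))))) (.g (nat_lit 1) (.e (nat_lit 419045) (nat_lit 0) .nil) .nil))) 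
(.lf (nat_lit 600717) (.g (nat_lit 1624) (.e (nat_lit 557100) (nat_lit 13) (.e (nat_lit 172113) (nat_lit 10) (.e (nat_lit 434247) (nat_lit 28) (.e (nat_lit 573470) (nat_lit 11) .nil)))) (.g (nat_lit 0) (.e (nat_lit 419662) (nat_lit 0) .nil) .nil)))) (.nd (nat_lit 9) 
(.lf (nat_lit 600461) (.g (nat_lit 3078) (.e (nat_lit 557097) (nat_lit 13) (.e (nat_lit 172115) (nat_lit 10) (.e (nat_lit 434244) (nat_lit 28) (.e (nat_lit 573451) (nat_lit 9) (.e (nat_lit 430) (nat_lit 32) (.e (nat_lit 426315) (nat_lit 12) (.e (nat_lit 475183) (nat_lit 29) .nil))))))) (.g (nat_lit 1) (.e (nat_lit 419391) (nat_lit 0) .nil) .nil))) 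
(.lf (nat_lit 600973) (.g (nat_lit 4305) (.e (nat_lit 557104) (nat_lit 14) (.e (nat_lit 180252) (nat_lit 10) (.e (nat_lit 573482) (nat_lit 13) (.e (nat_lit 65568) (nat_lit 2) (.e (nat_lit 98048) (nat_lit 2) (.e (nat_lit 16388) (nat_lit 0) (.e (nat_lit 3275) (nat_lit 200) .nil))))))) (.g (nat_lit 1) (.e (nat_lit 419957) (nat_lit 0) .nil) .nil)))))) 
(.nd (nat_lit 7) (.nd (nat_lit 8) (.nd (nat_lit 9) 
(.lf (nat_lit 600141) (.g (nat_lit 4201) (.e (nat_lit 557091) (nat_lit 12) (.e (nat_lit 164238) (nat_lit 187) (.e (nat_lit 1179) (nat_lit 87) (.e (nat_lit 57931) (nat_lit 282) (.e (nat_lit 163943) (nat_lit 19) (.e (nat_lit 483372) (nat_lit 21) (.e (nat_lit 319505) (nat_lit 10) (.e (nat_lit 618) (nat_lit 48) .nil)))))))) (.g (nat_lit 1) (.e (nat_lit 418951) (nat_lit 0) .nil) .nil))) 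
(.lf (nat_lit 600653) (.g (nat_lit 2842) (.e (nat_lit 557100) (nat_lit 13) (.e (nat_lit 172106) (nat_lit 10) (.e (nat_lit 434231) (nat_lit 23) (.e (nat_lit 532503) (nat_lit 1) .nil)))) (.g (nat_lit 0) (.e (nat_lit 419598) (nat_lit 0) .nil) .nil)))) (.nd (nat_lit 9) 
(.lf (nat_lit 600397) (.g (nat_lit 3703) (.e (nat_lit 557097) (nat_lit 13) (.e (nat_lit 172115) (nat_lit 10) (.e (nat_lit 434231) (nat_lit 23) (.e (nat_lit 532529) (nat_lit 9) (.e (nat_lit 336259) (nat_lit 15) (.e (nat_lit 3619) (nat_lit 227) (.e (nat_lit 778318) (nat_lit 3) (.e (nat_lit 57476) (nat_lit 28) .nil)))))))) (.g (nat_lit 1) (.e (nat_lit 419327) (nat_lit 0) .nil) .nil))) 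
(.lf (nat_lit 600909) (.g (nat_lit 474) (.e (nat_lit 557103) (nat_lit 14) (.e (nat_lit 180243) (nat_lit 5) (.e (nat_lit 532504) (nat_lit 1) .nil))) (.g (nat_lit 0) (.e (nat_lit 419873) (nat_lit 0) .nil) .nil))))) (.nd (nat_lit 8) (.nd (nat_lit 9) 
(.lf (nat_lit 600269) (.g (nat_lit 1808) (.e (nat_lit 557095) (nat_lit 13) (.e (nat_lit 172097) (nat_lit 9) (.e (nat_lit 426125) (nat_lit 2) (.e (nat_lit 196666) (nat_lit 13) (.e (nat_lit 65574) (nat_lit 4) .nil))))) (.g (nat_lit 0) (.e (nat_lit 419149) (nat_lit 0) .nil) .nil))) 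
(.lf (nat_lit 600781) (.g (nat_lit 3392) (.e (nat_lit 557101) (nat_lit 13) (.e (nat_lit 172115) (nat_lit 10) (.e (nat_lit 434231) (nat_lit 23) (.e (nat_lit 532529) (nat_lit 9) (.e (nat_lit 336296) (nat_lit 15) (.e (nat_lit 3715) (nat_lit 227) (.e (nat_lit 778316) (nat_lit 3) (.e (nat_lit 57479) (nat_lit 28) .nil)))))))) (.g (nat_lit 1) (.e (nat_lit 419739) (nat_lit 0) .nil) .nil)))) 
(.nd (nat_lit 9) 
(.lf (nat_lit 600525) (.g (nat_lit 3616) (.e (nat_lit 557098) (nat_lit 13) (.e (nat_lit 172115) (nat_lit 10) (.e (nat_lit 434231) (nat_lit 23) (.e (nat_lit 532529) (nat_lit 9) (.e (nat_lit 336296) (nat_lit 15) (.e (nat_lit 3715) (nat_lit 227) (.e (nat_lit 778316) (nat_lit 3) (.e (nat_lit 57480) (nat_lit 28) .nil)))))))) (.g (nat_lit 1) (.e (nat_lit 419458) (nat_lit 0) .nil) .nil))) 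
(.lf (nat_lit 601037) (.g (nat_lit 3346) (.e (nat_lit 557105) (nat_lit 14) (.e (nat_lit 180252) (nat_lit 10) (.e (nat_lit 573474) (nat_lit 12) (.e (nat_lit 57347) (nat_lit 0) (.e (nat_lit 5436) (nat_lit 306) (.e (nat_lit 2604) (nat_lit 163) (.e (nat_lit 163962) (nat_lit 25) (.e (nat_lit 532544) (nat_lit 10) (.e (nat_lit 344132) (nat_lit 26) .nil))))))))) (.g (nat_lit 1) (.e (nat_lit 420060) (nat_lit 0) .nil) .nil))))))) 
(.nd (nat_lit 6) (.nd (nat_lit 7) (.nd (nat_lit 8) (.nd (nat_lit 9) 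
(.lf (nat_lit 600109) (.g (nat_lit 3802) (.e (nat_lit 557091) (nat_lit 12) (.e (nat_lit 164018) (nat_lit 45) (.e (nat_lit 696343) (nat_lit 8) (.e (nat_lit 172067) (nat_lit 3) (.e (nat_lit 204868) (nat_lit 29) (.e (nat_lit 360473) (nat_lit 8) .nil)))))) (.g (nat_lit 1) (.e (nat_lit 418910) (nat_lit 0) .nil) .nil))) 
(.lf (nat_lit 600621) (.g (nat_lit 2884) (.e (nat_lit 557100) (nat_lit 13) (.e (nat_lit 172106) (nat_lit 10) (.e (nat_lit 434223) (nat_lit 19) (.e (nat_lit 499741) (nat_lit 0) (.e (nat_lit 2795) (nat_lit 180) (.e (nat_lit 303143) (nat_lit 12) (.e (nat_lit 475185) (nat_lit 29) .nil))))))) (.g (nat_lit 1) (.e (nat_lit 419566) (nat_lit 0) .nil) .nil)))) (.nd (nat_lit 9) 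
(.lf (nat_lit 600365) (.g (nat_lit 3043) (.e (nat_lit 557097) (nat_lit 13) (.e (nat_lit 172115) (nat_lit 10) (.e (nat_lit 434231) (nat_lit 23) (.e (nat_lit 532490) (nat_lit 0) (.e (nat_lit 6674) (nat_lit 357) (.e (nat_lit 2936) (nat_lit 184) (.e (nat_lit 426401) (nat_lit 15) (.e (nat_lit 1849) (nat_lit 124) .nil)))))))) (.g (nat_lit 1) (.e (nat_lit 419295) (nat_lit 0) .nil) .nil))) 
(.lf (nat_lit 600877) (.g (nat_lit 3929) (.e (nat_lit 557101) (nat_lit 13) (.e (nat_lit 172115) (nat_lit 10) (.e (nat_lit 434244) (nat_lit 28) (.e (nat_lit 573458) (nat_lit 9) (.e (nat_lit 426) (nat_lit 32) (.e (nat_lit 426198) (nat_lit 9) (.e (nat_lit 426354) (nat_lit 15) (.e (nat_lit 1860) (nat_lit 124) .nil)))))))) (.g (nat_lit 1) (.e (nat_lit 419835) (nat_lit 0) .nil) .nil))))) 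
(.nd (nat_lit 8) (.nd (nat_lit 9) 
(.lf (nat_lit 600237) (.g (nat_lit 3009) (.e (nat_lit 557094) (nat_lit 12) (.e (nat_lit 163847) (nat_lit 0) (.e (nat_lit 6420) (nat_lit 341) (.e (nat_lit 163916) (nat_lit 13) (.e (nat_lit 434231) (nat_lit 23) (.e (nat_lit 532550) (nat_lit 12) (.e (nat_lit 360474) (nat_lit 8) .nil))))))) (.g (nat_lit 1) (.e (nat_lit 419080) (nat_lit 0) .nil) .nil))) 
(.lf (nat_lit 600749) (.g (nat_lit 3384) (.e (nat_lit 557101) (nat_lit 13) (.e (nat_lit 172097) (nat_lit 9) (.e (nat_lit 426140) (nat_lit 3) (.e (nat_lit 204821) (nat_lit 17) (.e (nat_lit 6674) (nat_lit 357) (.e (nat_lit 2936) (nat_lit 184) (.e (nat_lit 426401) (nat_lit 15) (.e (nat_lit 1858) (nat_lit 124) .nil)))))))) (.g (nat_lit 1) (.e (nat_lit 419707) (nat_lit 0) .nil) .nil)))) 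
(.nd (nat_lit 9) 
(.lf (nat_lit 600493) (.g (nat_lit 3989) (.e (nat_lit 557098) (nat_lit 13) (.e (nat_lit 172112) (nat_lit 10) (.e (nat_lit 434231) (nat_lit 23) (.e (nat_lit 532535) (nat_lit 9) (.e (nat_lit 336295) (nat_lit 15) .nil))))) (.g (nat_lit 0) (.e (nat_lit 419426) (nat_lit 0) .nil) .nil))) 
(.lf (nat_lit 601005) (.g (nat_lit 2564) (.e (nat_lit 557105) (nat_lit 14) (.e (nat_lit 180251) (nat_lit 10) (.e (nat_lit 573485) (nat_lit 13) (.e (nat_lit 65568) (nat_lit 2) (.e (nat_lit 98048) (nat_lit 2) (.e (nat_lit 16392) (nat_lit 0) (.e (nat_lit 7936) (nat_lit 200) .nil))))))) (.g (nat_lit 1) (.e (nat_lit 419993) (nat_lit 0) .nil) .nil)))))) 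
(.nd (nat_lit 7) (.nd (nat_lit 8) (.nd (nat_lit 9) 
(.lf (nat_lit 600173) (.g (nat_lit 4107) (.e (nat_lit 557093) (nat_lit 12) (.e (nat_lit 164018) (nat_lit 45) (.e (nat_lit 696328) (nat_lit 5) (.e (nat_lit 2884) (nat_lit 184) (.e (nat_lit 426125) (nat_lit 2) (.e (nat_lit 196666) (nat_lit 13) (.e (nat_lit 65617) (nat_lit 10) (.e (nat_lit 344132) (nat_lit 26) .nil)))))))) (.g (nat_lit 1) (.e (nat_lit 419006) (nat_lit 0) .nil) .nil))) 
(.lf (nat_lit 600685) (.g (nat_lit 4840) (.e (nat_lit 557100) (nat_lit 13) (.e (nat_lit 172106) (nat_lit 10) (.e (nat_lit 434238) (nat_lit 25) (.e (nat_lit 548913) (nat_lit 18) (.e (nat_lit 172120) (nat_lit 12) (.e (nat_lit 475185) (nat_lit 29) .nil)))))) (.g (nat_lit 1) (.e (nat_lit 419630) (nat_lit 0) .nil) .nil)))) (.nd (nat_lit 9) 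
(.lf (nat_lit 600429) (.g (nat_lit 3374) (.e (nat_lit 557097) (nat_lit 13) (.e (nat_lit 172115) (nat_lit 10) (.e (nat_lit 434231) (nat_lit 23) (.e (nat_lit 532535) (nat_lit 9) (.e (nat_lit 336290) (nat_lit 15) (.e (nat_lit 3711) (nat_lit 227) (.e (nat_lit 778316) (nat_lit 3) (.e (nat_lit 57477) (nat_lit 28) .nil)))))))) (.g (nat_lit 1) (.e (nat_lit 419359) (nat_lit 0) .nil) .nil))) 
(.lf (nat_lit 600941) (.g (nat_lit 1064) (.e (nat_lit 557104) (nat_lit 14) (.e (nat_lit 180247) (nat_lit 7) (.e (nat_lit 548874) (nat_lit 5) (.e (nat_lit 1320) (nat_lit 99) .nil)))) (.g (nat_lit 0) (.e (nat_lit 419925) (nat_lit 0) .nil) .nil))))) (.nd (nat_lit 8) (.nd (nat_lit 9) 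
(.lf (nat_lit 600301) (.g (nat_lit 1035) (.e (nat_lit 557096) (nat_lit 13) (.e (nat_lit 172094) (nat_lit 9) (.e (nat_lit 426125) (nat_lit 2) (.e (nat_lit 204544) (nat_lit 18) .nil)))) (.g (nat_lit 0) (.e (nat_lit 419224) (nat_lit 0) .nil) .nil))) 
(.lf (nat_lit 600813) (.g (nat_lit 2469) (.e (nat_lit 557101) (nat_lit 13) (.e (nat_lit 172115) (nat_lit 10) (.e (nat_lit 434244) (nat_lit 28) (.e (nat_lit 573449) (nat_lit 9) (.e (nat_lit 414) (nat_lit 32) (.e (nat_lit 426195) (nat_lit 9) (.e (nat_lit 426354) (nat_lit 15) (.e (nat_lit 1860) (nat_lit 124) .nil)))))))) (.g (nat_lit 1) (.e (nat_lit 419771) (nat_lit 0) .nil) .nil)))) 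
(.nd (nat_lit 9) 
(.lf (nat_lit 600557) (.g (nat_lit 2369) (.e (nat_lit 557098) (nat_lit 13) (.e (nat_lit 172115) (nat_lit 10) (.e (nat_lit 434244) (nat_lit 28) (.e (nat_lit 573450) (nat_lit 9) (.e (nat_lit 457) (nat_lit 34) (.e (nat_lit 442373) (nat_lit 0) (.e (nat_lit 1846) (nat_lit 124) .nil))))))) (.g (nat_lit 1) (.e (nat_lit 419492) (nat_lit 0) .nil) .nil))) 
(.lf (nat_lit 601069) (.g (nat_lit 3434) (.e (nat_lit 557105) (nat_lit 14) (.e (nat_lit 180252) (nat_lit 10) (.e (nat_lit 573474) (nat_lit 12) (.e (nat_lit 57504) (nat_lit 38) (.e (nat_lit 638995) (nat_lit 7) (.e (nat_lit 163979) (nat_lit 30) (.e (nat_lit 573487) (nat_lit 14) (.e (nat_lit 73753) (nat_lit 8) .nil)))))))) (.g (nat_lit 1) (.e (nat_lit 420119) (nat_lit 0) .nil) .nil)))))))) 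
(.nd (nat_lit 5) (.nd (nat_lit 6) (.nd (nat_lit 7) (.nd (nat_lit 8) (.nd (nat_lit 9) 
(.lf (nat_lit 600093) (.g (nat_lit 6037) (.e (nat_lit 557090) (nat_lit 12) (.e (nat_lit 164022) (nat_lit 46) (.e (nat_lit 704629) (nat_lit 9) (.e (nat_lit 375) (nat_lit 32) (.e (nat_lit 426125) (nat_lit 2) (.e (nat_lit 196666) (nat_lit 13) (.e (nat_lit 65617) (nat_lit 10) (.e (nat_lit 344130) (nat_lit 26) .nil)))))))) (.g (nat_lit 1) (.e (nat_lit 418876) (nat_lit 0) .nil) .nil))) 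
(.lf (nat_lit 600605) (.g (nat_lit 2249) (.e (nat_lit 557099) (nat_lit 13) (.e (nat_lit 172120) (nat_lit 12) (.e (nat_lit 475185) (nat_lit 29) (.e (nat_lit 557107) (nat_lit 15) .nil)))) (.g (nat_lit 0) (.e (nat_lit 419543) (nat_lit 0) .nil) .nil)))) (.nd (nat_lit 9) 
(.lf (nat_lit 600349) (.g (nat_lit 2164) (.e (nat_lit 557097) (nat_lit 13) (.e (nat_lit 172115) (nat_lit 10) (.e (nat_lit 434231) (nat_lit 23) (.e (nat_lit 532481) (nat_lit 0) (.e (nat_lit 6643) (nat_lit 357) .nil))))) (.g (nat_lit 0) (.e (nat_lit 419279) (nat_lit 0) .nil) .nil))) 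
(.lf (nat_lit 600861) (.g (nat_lit 3383) (.e (nat_lit 557101) (nat_lit 13) (.e (nat_lit 172115) (nat_lit 10) (.e (nat_lit 434244) (nat_lit 28) (.e (nat_lit 573451) (nat_lit 9) (.e (nat_lit 430) (nat_lit 32) (.e (nat_lit 426198) (nat_lit 9) (.e (nat_lit 426402) (nat_lit 15) (.e (nat_lit 1858) (nat_lit 124) .nil)))))))) (.g (nat_lit 1) (.e (nat_lit 419819) (nat_lit 0) .nil) .nil))))) 
(.nd (nat_lit 8) (.nd (nat_lit 9) 
(.lf (nat_lit 600221) (.g (nat_lit 2602) (.e (nat_lit 557093) (nat_lit 12) (.e (nat_lit 164022) (nat_lit 46) (.e (nat_lit 704738) (nat_lit 11) (.e (nat_lit 16399) (nat_lit 0) .nil)))) (.g (nat_lit 0) (.e (nat_lit 419061) (nat_lit 0) .nil) .nil))) 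
(.lf (nat_lit 600733) (.g (nat_lit 1806) (.e (nat_lit 557101) (nat_lit 13) (.e (nat_lit 172065) (nat_lit 3) (.e (nat_lit 204830) (nat_lit 18) (.e (nat_lit 57703) (nat_lit 164) .nil)))) (.g (nat_lit 0) (.e (nat_lit 419683) (nat_lit 0) .nil) .nil)))) (.nd (nat_lit 9) 
(.lf (nat_lit 600477) (.g (nat_lit 1947) (.e (nat_lit 557097) (nat_lit 13) (.e (nat_lit 172120) (nat_lit 12) (.e (nat_lit 475185) (nat_lit 29) (.e (nat_lit 557109) (nat_lit 15) (.e (nat_lit 196352) (nat_lit 0) .nil))))) (.g (nat_lit 0) (.e (nat_lit 419407) (nat_lit 0) .nil) .nil))) 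
(.lf (nat_lit 600989) (.g (nat_lit 2427) (.e (nat_lit 557105) (nat_lit 14) (.e (nat_lit 180251) (nat_lit 10) (.e (nat_lit 573484) (nat_lit 13) (.e (nat_lit 65568) (nat_lit 2) (.e (nat_lit 98048) (nat_lit 2) (.e (nat_lit 16385) (nat_lit 0) (.e (nat_lit 7936) (nat_lit 200) .nil))))))) (.g (nat_lit 1) (.e (nat_lit 419977) (nat_lit 0) .nil) .nil)))))) 
(.nd (nat_lit 7) (.nd (nat_lit 8) (.nd (nat_lit 9) 
(.lf (nat_lit 600157) (.g (nat_lit 3524) (.e (nat_lit 557093) (nat_lit 12) (.e (nat_lit 163849) (nat_lit 0) (.e (nat_lit 6255) (nat_lit 337) (.e (nat_lit 2630) (nat_lit 164) (.e (nat_lit 172065) (nat_lit 3) (.e (nat_lit 204868) (nat_lit 29) (.e (nat_lit 360473) (nat_lit 8) .nil))))))) (.g (nat_lit 1) (.e (nat_lit 418979) (nat_lit 0) .nil) .nil))) 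
(.lf (nat_lit 600669) (.g (nat_lit 3924) (.e (nat_lit 557100) (nat_lit 13) (.e (nat_lit 172106) (nat_lit 10) (.e (nat_lit 434231) (nat_lit 23) (.e (nat_lit 532535) (nat_lit 9) (.e (nat_lit 336289) (nat_lit 15) (.e (nat_lit 3716) (nat_lit 227) (.e (nat_lit 778316) (nat_lit 3) (.e (nat_lit 57479) (nat_lit 28) .nil)))))))) (.g (nat_lit 1) (.e (nat_lit 419614) (nat_lit 0) .nil) .nil)))) 
(.nd (nat_lit 9) 
(.lf (nat_lit 600413) (.g (nat_lit 3299) (.e (nat_lit 557097) (nat_lit 13) (.e (nat_lit 172115) (nat_lit 10) (.e (nat_lit 434231) (nat_lit 23) (.e (nat_lit 532529) (nat_lit 9) (.e (nat_lit 336285) (nat_lit 15) (.e (nat_lit 3629) (nat_lit 227) (.e (nat_lit 778318) (nat_lit 3) (.e (nat_lit 57476) (nat_lit 28) .nil)))))))) (.g (nat_lit 1) (.e (nat_lit 419343) (nat_lit 0) .nil) .nil))) 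
(.lf (nat_lit 600925) (.g (nat_lit 2425) (.e (nat_lit 557103) (nat_lit 14) (.e (nat_lit 180250) (nat_lit 10) (.e (nat_lit 573480) (nat_lit 13) (.e (nat_lit 65568) (nat_lit 2) (.e (nat_lit 98048) (nat_lit 2) (.e (nat_lit 16388) (nat_lit 0) (.e (nat_lit 3275) (nat_lit 200) .nil))))))) (.g (nat_lit 1) (.e (nat_lit 419891) (nat_lit 0) .nil) .nil))))) (.nd (nat_lit 8) (.nd (nat_lit 9) 
(.lf (nat_lit 600285) (.g (nat_lit 1712) (.e (nat_lit 557095) (nat_lit 13) (.e (nat_lit 172115) (nat_lit 10) (.e (nat_lit 434231) (nat_lit 23) (.e (nat_lit 532535) (nat_lit 9) (.e (nat_lit 336030) (nat_lit 4) .nil))))) (.g (nat_lit 0) (.e (nat_lit 419180) (nat_lit 0) .nil) .nil))) 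
(.lf (nat_lit 600797) (.g (nat_lit 4211) (.e (nat_lit 557101) (nat_lit 13) (.e (nat_lit 172115) (nat_lit 10) (.e (nat_lit 434231) (nat_lit 23) (.e (nat_lit 532569) (nat_lit 16) (.e (nat_lit 401453) (nat_lit 12) (.e (nat_lit 475184) (nat_lit 29) .nil)))))) (.g (nat_lit 1) (.e (nat_lit 419755) (nat_lit 0) .nil) .nil)))) (.nd (nat_lit 9) 
(.lf (nat_lit 600541) (.g (nat_lit 2633) (.e (nat_lit 557098) (nat_lit 13) (.e (nat_lit 172115) (nat_lit 10) (.e (nat_lit 434244) (nat_lit 28) (.e (nat_lit 573449) (nat_lit 9) (.e (nat_lit 455) (nat_lit 34) (.e (nat_lit 450304) (nat_lit 0) (.e (nat_lit 1859) (nat_lit 124) .nil))))))) (.g (nat_lit 1) (.e (nat_lit 419474) (nat_lit 0) .nil) .nil))) 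
(.lf (nat_lit 601053) (.g (nat_lit 2816) (.e (nat_lit 557105) (nat_lit 14) (.e (nat_lit 180252) (nat_lit 10) (.e (nat_lit 573474) (nat_lit 12) (.e (nat_lit 57503) (nat_lit 38) (.e (nat_lit 638994) (nat_lit 7) .nil))))) (.g (nat_lit 0) (.e (nat_lit 420102) (nat_lit 0) .nil) .nil))))))) (.nd (nat_lit 6) (.nd (nat_lit 7) (.nd (nat_lit 8) (.nd (nat_lit 9) 
(.lf (nat_lit 600125) (.g (nat_lit 4960) (.e (nat_lit 557091) (nat_lit 12) (.e (nat_lit 164022) (nat_lit 46) (.e (nat_lit 704628) (nat_lit 9) (.e (nat_lit 375) (nat_lit 32) (.e (nat_lit 426140) (nat_lit 3) (.e (nat_lit 204869) (nat_lit 29) (.e (nat_lit 360475) (nat_lit 8) .nil))))))) (.g (nat_lit 1) (.e (nat_lit 418932) (nat_lit 0) .nil) .nil))) 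
(.lf (nat_lit 600637) (.g (nat_lit 2796) (.e (nat_lit 557100) (nat_lit 13) (.e (nat_lit 172106) (nat_lit 10) (.e (nat_lit 434231) (nat_lit 23) (.e (nat_lit 532490) (nat_lit 0) (.e (nat_lit 6674) (nat_lit 357) (.e (nat_lit 2939) (nat_lit 184) (.e (nat_lit 433920) (nat_lit 15) (.e (nat_lit 1858) (nat_lit 124) .nil)))))))) (.g (nat_lit 1) (.e (nat_lit 419582) (nat_lit 0) .nil) .nil)))) 
(.nd (nat_lit 9) 
(.lf (nat_lit 600381) (.g (nat_lit 3758) (.e (nat_lit 557097) (nat_lit 13) (.e (nat_lit 172115) (nat_lit 10) (.e (nat_lit 434231) (nat_lit 23) (.e (nat_lit 532529) (nat_lit 9) (.e (nat_lit 336243) (nat_lit 15) (.e (nat_lit 3627) (nat_lit 227) (.e (nat_lit 778318) (nat_lit 3) (.e (nat_lit 57476) (nat_lit 28) .nil)))))))) (.g (nat_lit 1) (.e (nat_lit 419311) (nat_lit 0) .nil) .nil))) 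
(.lf (nat_lit 600893) (.g (nat_lit 2974) (.e (nat_lit 557101) (nat_lit 13) (.e (nat_lit 172115) (nat_lit 10) (.e (nat_lit 434244) (nat_lit 28) (.e (nat_lit 573473) (nat_lit 12) (.e (nat_lit 57348) (nat_lit 0) .nil))))) (.g (nat_lit 0) (.e (nat_lit 419851) (nat_lit 0) .nil) .nil))))) (.nd (nat_lit 8) (.nd (nat_lit 9) 
(.lf (nat_lit 600253) (.g (nat_lit 2130) (.e (nat_lit 557094) (nat_lit 12) (.e (nat_lit 164022) (nat_lit 46) (.e (nat_lit 704629) (nat_lit 9) (.e (nat_lit 411) (nat_lit 32) (.e (nat_lit 426136) (nat_lit 3) .nil))))) (.g (nat_lit 0) (.e (nat_lit 419123) (nat_lit 0) .nil) .nil))) 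
(.lf (nat_lit 600765) (.g (nat_lit 2553) (.e (nat_lit 557101) (nat_lit 13) (.e (nat_lit 172115) (nat_lit 10) (.e (nat_lit 434231) (nat_lit 23) (.e (nat_lit 532481) (nat_lit 0) (.e (nat_lit 6684) (nat_lit 357) (.e (nat_lit 3067) (nat_lit 190) (.e (nat_lit 475184) (nat_lit 29) .nil))))))) (.g (nat_lit 1) (.e (nat_lit 419723) (nat_lit 0) .nil) .nil)))) (.nd (nat_lit 9) 
(.lf (nat_lit 600509) (.g (nat_lit 2710) (.e (nat_lit 557098) (nat_lit 13) (.e (nat_lit 172115) (nat_lit 10) (.e (nat_lit 434231) (nat_lit 23) (.e (nat_lit 532490) (nat_lit 0) (.e (nat_lit 6676) (nat_lit 357) (.e (nat_lit 3067) (nat_lit 190) (.e (nat_lit 475183) (nat_lit 29) .nil))))))) (.g (nat_lit 1) (.e (nat_lit 419442) (nat_lit 0) .nil) .nil))) 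
(.lf (nat_lit 601021) (.g (nat_lit 4128) (.e (nat_lit 557105) (nat_lit 14) (.e (nat_lit 180252) (nat_lit 10) (.e (nat_lit 573473) (nat_lit 12) (.e (nat_lit 57501) (nat_lit 37) (.e (nat_lit 630799) (nat_lit 7) (.e (nat_lit 163977) (nat_lit 30) (.e (nat_lit 573489) (nat_lit 14) (.e (nat_lit 73755) (nat_lit 8) .nil)))))))) (.g (nat_lit 1) (.e (nat_lit 420030) (nat_lit 0) .nil) .nil)))))) 
(.nd (nat_lit 7) (.nd (nat_lit 8) (.nd (nat_lit 9) 
(.lf (nat_lit 600189) (.g (nat_lit 4340) (.e (nat_lit 557093) (nat_lit 12) (.e (nat_lit 164018) (nat_lit 45) (.e (nat_lit 696343) (nat_lit 8) (.e (nat_lit 172064) (nat_lit 2) (.e (nat_lit 196666) (nat_lit 13) (.e (nat_lit 65617) (nat_lit 10) (.e (nat_lit 344132) (nat_lit 26) .nil))))))) (.g (nat_lit 1) (.e (nat_lit 419027) (nat_lit 0) .nil) .nil))) 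
(.lf (nat_lit 600701) (.g (nat_lit 2251) (.e (nat_lit 557100) (nat_lit 13) (.e (nat_lit 172113) (nat_lit 10) (.e (nat_lit 434245) (nat_lit 28) (.e (nat_lit 573469) (nat_lit 11) (.e (nat_lit 16455) (nat_lit 12) (.e (nat_lit 475185) (nat_lit 29) .nil)))))) (.g (nat_lit 1) (.e (nat_lit 419646) (nat_lit 0) .nil) .nil)))) (.nd (nat_lit 9) 
(.lf (nat_lit 600445) (.g (nat_lit 2914) (.e (nat_lit 557097) (nat_lit 13) (.e (nat_lit 172115) (nat_lit 10) (.e (nat_lit 434244) (nat_lit 28) (.e (nat_lit 573449) (nat_lit 9) (.e (nat_lit 457) (nat_lit 34) (.e (nat_lit 442368) (nat_lit 0) (.e (nat_lit 1863) (nat_lit 124) .nil))))))) (.g (nat_lit 1) (.e (nat_lit 419375) (nat_lit 0) .nil) .nil))) 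
(.lf (nat_lit 600957) (.g (nat_lit 1796) (.e (nat_lit 557104) (nat_lit 14) (.e (nat_lit 180252) (nat_lit 10) (.e (nat_lit 573474) (nat_lit 12) (.e (nat_lit 57355) (nat_lit 0) .nil)))) (.g (nat_lit 0) (.e (nat_lit 419941) (nat_lit 0) .nil) .nil))))) (.nd (nat_lit 8) (.nd (nat_lit 9) 
(.lf (nat_lit 600317) (.g (nat_lit 1439) (.e (nat_lit 557096) (nat_lit 13) (.e (nat_lit 172126) (nat_lit 14) (.e (nat_lit 491540) (nat_lit 3) (.e (nat_lit 98381) (nat_lit 31) (.e (nat_lit 474880) (nat_lit 0) .nil))))) (.g (nat_lit 0) (.e (nat_lit 419240) (nat_lit 0) .nil) .nil))) 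
(.lf (nat_lit 600829) (.g (nat_lit 3429) (.e (nat_lit 557101) (nat_lit 13) (.e (nat_lit 172115) (nat_lit 10) (.e (nat_lit 434244) (nat_lit 28) (.e (nat_lit 573450) (nat_lit 9) (.e (nat_lit 375) (nat_lit 32) (.e (nat_lit 426201) (nat_lit 9) (.e (nat_lit 426360) (nat_lit 15) (.e (nat_lit 1858) (nat_lit 124) .nil)))))))) (.g (nat_lit 1) (.e (nat_lit 419787) (nat_lit 0) .nil) .nil)))) 
(.nd (nat_lit 9) 
(.lf (nat_lit 600573) (.g (nat_lit 3201) (.e (nat_lit 557098) (nat_lit 13) (.e (nat_lit 172115) (nat_lit 10) (.e (nat_lit 434244) (nat_lit 28) (.e (nat_lit 573458) (nat_lit 9) (.e (nat_lit 426) (nat_lit 32) (.e (nat_lit 426188) (nat_lit 9) (.e (nat_lit 426363) (nat_lit 15) (.e (nat_lit 1859) (nat_lit 124) .nil)))))))) (.g (nat_lit 1) (.e (nat_lit 419508) (nat_lit 0) .nil) .nil))) 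
(.lf (nat_lit 601085) (.g (nat_lit 2508) (.e (nat_lit 557105) (nat_lit 14) (.e (nat_lit 180252) (nat_lit 10) (.e (nat_lit 573480) (nat_lit 13) (.e (nat_lit 65568) (nat_lit 2) (.e (nat_lit 98048) (nat_lit 2) (.e (nat_lit 16387) (nat_lit 0) (.e (nat_lit 3276) (nat_lit 200) .nil))))))) (.g (nat_lit 1) (.e (nat_lit 420142) (nat_lit 0) .nil) .nil))))))))))) 
(.nd (nat_lit 2) (.nd (nat_lit 3) (.nd (nat_lit 4) (.nd (nat_lit 5) (.nd (nat_lit 6) 
(.nd (nat_lit 7) (.nd (nat_lit 8) (.nd (nat_lit 9) 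
(.lf (nat_lit 600067) (.g (nat_lit 4481) (.e (nat_lit 557090) (nat_lit 12) (.e (nat_lit 163847) (nat_lit 0) (.e (nat_lit 6421) (nat_lit 341) (.e (nat_lit 163900) (nat_lit 12) (.e (nat_lit 426125) (nat_lit 2) (.e (nat_lit 196666) (nat_lit 13) (.e (nat_lit 65617) (nat_lit 10) (.e (nat_lit 344130) (nat_lit 26) .nil)))))))) (.g (nat_lit 1) (.e (nat_lit 418813) (nat_lit 0) .nil) .nil))) 
(.lf (nat_lit 600579) (.g (nat_lit 3287) (.e (nat_lit 557098) (nat_lit 13) (.e (nat_lit 172115) (nat_lit 10) (.e (nat_lit 434244) (nat_lit 28) (.e (nat_lit 573468) (nat_lit 10) (.e (nat_lit 8524) (nat_lit 205) (.e (nat_lit 2857) (nat_lit 184) (.e (nat_lit 426402) (nat_lit 15) (.e (nat_lit 1859) (nat_lit 124) .nil)))))))) (.g (nat_lit 1) (.e (nat_lit 419514) (nat_lit 0) .nil) .nil)))) 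
(.nd (nat_lit 9) 
(.lf (nat_lit 600323) (.g (nat_lit 1994) (.e (nat_lit 557097) (nat_lit 13) (.e (nat_lit 172097) (nat_lit 9) (.e (nat_lit 426125) (nat_lit 2) (.e (nat_lit 196661) (nat_lit 12) (.e (nat_lit 57748) (nat_lit 201) (.e (nat_lit 2939) (nat_lit 184) (.e (nat_lit 433920) (nat_lit 15) (.e (nat_lit 1849) (nat_lit 124) .nil)))))))) (.g (nat_lit 1) (.e (nat_lit 419253) (nat_lit 0) .nil) .nil))) 
(.lf (nat_lit 600835) (.g (nat_lit 2306) (.e (nat_lit 557101) (nat_lit 13) (.e (nat_lit 172115) (nat_lit 10) (.e (nat_lit 434244) (nat_lit 28) (.e (nat_lit 573450) (nat_lit 9) (.e (nat_lit 388) (nat_lit 32) .nil))))) (.g (nat_lit 0) (.e (nat_lit 419793) (nat_lit 0) .nil) .nil))))) (.nd (nat_lit 8) (.nd (nat_lit 9) 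
(.lf (nat_lit 600195) (.g (nat_lit 2951) (.e (nat_lit 557093) (nat_lit 12) (.e (nat_lit 164018) (nat_lit 45) (.e (nat_lit 696344) (nat_lit 8) (.e (nat_lit 172065) (nat_lit 3) (.e (nat_lit 204868) (nat_lit 29) (.e (nat_lit 360473) (nat_lit 8) .nil)))))) (.g (nat_lit 1) (.e (nat_lit 419033) (nat_lit 0) .nil) .nil))) 
(.lf (nat_lit 600707) (.g (nat_lit 2080) (.e (nat_lit 557100) (nat_lit 13) (.e (nat_lit 172113) (nat_lit 10) (.e (nat_lit 434245) (nat_lit 28) (.e (nat_lit 573471) (nat_lit 11) (.e (nat_lit 16440) (nat_lit 9) (.e (nat_lit 433920) (nat_lit 15) (.e (nat_lit 1860) (nat_lit 124) .nil))))))) (.g (nat_lit 1) (.e (nat_lit 419652) (nat_lit 0) .nil) .nil)))) (.nd (nat_lit 9) 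
(.lf (nat_lit 600451) (.g (nat_lit 3799) (.e (nat_lit 557097) (nat_lit 13) (.e (nat_lit 172115) (nat_lit 10) (.e (nat_lit 434244) (nat_lit 28) (.e (nat_lit 573450) (nat_lit 9) (.e (nat_lit 389) (nat_lit 32) (.e (nat_lit 426198) (nat_lit 9) (.e (nat_lit 426402) (nat_lit 15) (.e (nat_lit 1848) (nat_lit 124) .nil)))))))) (.g (nat_lit 1) (.e (nat_lit 419381) (nat_lit 0) .nil) .nil))) 
(.lf (nat_lit 600963) (.g (nat_lit 3085) (.e (nat_lit 557104) (nat_lit 14) (.e (nat_lit 180252) (nat_lit 10) (.e (nat_lit 573475) (nat_lit 12) (.e (nat_lit 57347) (nat_lit 0) (.e (nat_lit 5590) (nat_lit 310) .nil))))) (.g (nat_lit 0) (.e (nat_lit 419947) (nat_lit 0) .nil) .nil)))))) (.nd (nat_lit 7) (.nd (nat_lit 8) (.nd (nat_lit 9) 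
(.lf (nat_lit 600131) (.g (nat_lit 3597) (.e (nat_lit 557091) (nat_lit 12) (.e (nat_lit 164022) (nat_lit 46) (.e (nat_lit 704629) (nat_lit 9) (.e (nat_lit 442) (nat_lit 33) (.e (nat_lit 434222) (nat_lit 19) (.e (nat_lit 500059) (nat_lit 18) (.e (nat_lit 65617) (nat_lit 10) (.e (nat_lit 344133) (nat_lit 26) .nil)))))))) (.g (nat_lit 1) (.e (nat_lit 418939) (nat_lit 0) .nil) .nil))) 
(.lf (nat_lit 600643) (.g (nat_lit 3912) (.e (nat_lit 557100) (nat_lit 13) (.e (nat_lit 172106) (nat_lit 10) (.e (nat_lit 434231) (nat_lit 23) (.e (nat_lit 532490) (nat_lit 0) (.e (nat_lit 6680) (nat_lit 357) (.e (nat_lit 3067) (nat_lit 190) (.e (nat_lit 475184) (nat_lit 29) .nil))))))) (.g (nat_lit 1) (.e (nat_lit 419588) (nat_lit 0) .nil) .nil)))) (.nd (nat_lit 9) 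
(.lf (nat_lit 600387) (.g (nat_lit 3534) (.e (nat_lit 557097) (nat_lit 13) (.e (nat_lit 172115) (nat_lit 10) (.e (nat_lit 434231) (nat_lit 23) (.e (nat_lit 532529) (nat_lit 9) (.e (nat_lit 336257) (nat_lit 15) (.e (nat_lit 3623) (nat_lit 227) (.e (nat_lit 778318) (nat_lit 3) (.e (nat_lit 57476) (nat_lit 28) .nil)))))))) (.g (nat_lit 1) (.e (nat_lit 419317) (nat_lit 0) .nil) .nil))) 
(.lf (nat_lit 600899) (.g (nat_lit 4502) (.e (nat_lit 557101) (nat_lit 13) (.e (nat_lit 172116) (nat_lit 10) (.e (nat_lit 434231) (nat_lit 23) (.e (nat_lit 532535) (nat_lit 9) (.e (nat_lit 336295) (nat_lit 15) (.e (nat_lit 3629) (nat_lit 227) (.e (nat_lit 778317) (nat_lit 3) (.e (nat_lit 57479) (nat_lit 28) .nil)))))))) (.g (nat_lit 1) (.e (nat_lit 419857) (nat_lit 0) .nil) .nil))))) 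
(.nd (nat_lit 8) (.nd (nat_lit 9) 
(.lf (nat_lit 600259) (.g (nat_lit 1554) (.e (nat_lit 557094) (nat_lit 12) (.e (nat_lit 164022) (nat_lit 46) (.e (nat_lit 704629) (nat_lit 9) (.e (nat_lit 473) (nat_lit 36) .nil)))) (.g (nat_lit 0) (.e (nat_lit 419130) (nat_lit 0) .nil) .nil))) 
(.lf (nat_lit 600771) (.g (nat_lit 2705) (.e (nat_lit 557101) (nat_lit 13) (.e (nat_lit 172115) (nat_lit 10) (.e (nat_lit 434231) (nat_lit 23) (.e (nat_lit 532490) (nat_lit 0) (.e (nat_lit 6680) (nat_lit 357) (.e (nat_lit 2855) (nat_lit 184) (.e (nat_lit 426354) (nat_lit 15) (.e (nat_lit 1860) (nat_lit 124) .nil)))))))) (.g (nat_lit 1) (.e (nat_lit 419729) (nat_lit 0) .nil) .nil)))) 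
(.nd (nat_lit 9) 
(.lf (nat_lit 600515) (.g (nat_lit 2743) (.e (nat_lit 557098) (nat_lit 13) (.e (nat_lit 172115) (nat_lit 10) (.e (nat_lit 434231) (nat_lit 23) (.e (nat_lit 532490) (nat_lit 0) (.e (nat_lit 6680) (nat_lit 357) (.e (nat_lit 3065) (nat_lit 190) (.e (nat_lit 475184) (nat_lit 29) .nil))))))) (.g (nat_lit 1) (.e (nat_lit 419448) (nat_lit 0) .nil) .nil))) 
(.lf (nat_lit 601027) (.g (nat_lit 5712) (.e (nat_lit 557105) (nat_lit 14) (.e (nat_lit 180252) (nat_lit 10) (.e (nat_lit 573473) (nat_lit 12) (.e (nat_lit 57503) (nat_lit 38) (.e (nat_lit 638995) (nat_lit 7) (.e (nat_lit 163979) (nat_lit 30) (.e (nat_lit 573489) (nat_lit 14) (.e (nat_lit 73755) (nat_lit 8) .nil)))))))) (.g (nat_lit 1) (.e (nat_lit 420036) (nat_lit 0) .nil) .nil))))))) 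
(.nd (nat_lit 6) (.nd (nat_lit 7) (.nd (nat_lit 8) (.nd (nat_lit 9) 
(.lf (nat_lit 600099) (.g (nat_lit 1541) (.e (nat_lit 557091) (nat_lit 12) (.e (nat_lit 163843) (nat_lit 0) (.e (nat_lit 6255) (nat_lit 337) (.e (nat_lit 2643) (nat_lit 165) (.e (nat_lit 180243) (nat_lit 5) .nil))))) (.g (nat_lit 0) (.e (nat_lit 418886) (nat_lit 0) .nil) .nil))) 
(.lf (nat_lit 600611) (.g (nat_lit 588) (.e (nat_lit 557099) (nat_lit 13) (.e (nat_lit 172126) (nat_lit 14) (.e (nat_lit 491540) (nat_lit 3) .nil))) (.g (nat_lit 0) (.e (nat_lit 419550) (nat_lit 0) .nil) .nil)))) (.nd (nat_lit 9) 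
(.lf (nat_lit 600355) (.g (nat_lit 2623) (.e (nat_lit 557097) (nat_lit 13) (.e (nat_lit 172115) (nat_lit 10) (.e (nat_lit 434231) (nat_lit 23) (.e (nat_lit 532481) (nat_lit 0) (.e (nat_lit 6691) (nat_lit 357) (.e (nat_lit 2854) (nat_lit 184) (.e (nat_lit 426402) (nat_lit 15) (.e (nat_lit 1849) (nat_lit 124) .nil)))))))) (.g (nat_lit 1) (.e (nat_lit 419285) (nat_lit 0) .nil) .nil))) 
(.lf (nat_lit 600867) (.g (nat_lit 2352) (.e (nat_lit 557101) (nat_lit 13) (.e (nat_lit 172115) (nat_lit 10) (.e (nat_lit 434244) (nat_lit 28) (.e (nat_lit 573454) (nat_lit 9) (.e (nat_lit 7936) (nat_lit 32) .nil))))) (.g (nat_lit 0) (.e (nat_lit 419825) (nat_lit 0) .nil) .nil))))) (.nd (nat_lit 8) (.nd (nat_lit 9) 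
(.lf (nat_lit 600227) (.g (nat_lit 2868) (.e (nat_lit 557093) (nat_lit 12) (.e (nat_lit 164023) (nat_lit 46) (.e (nat_lit 704738) (nat_lit 11) (.e (nat_lit 16392) (nat_lit 0) (.e (nat_lit 7936) (nat_lit 197) .nil))))) (.g (nat_lit 0) (.e (nat_lit 419070) (nat_lit 0) .nil) .nil))) 
(.lf (nat_lit 600739) (.g (nat_lit 1438) (.e (nat_lit 557101) (nat_lit 13) (.e (nat_lit 172097) (nat_lit 9) (.e (nat_lit 426125) (nat_lit 2) (.e (nat_lit 196661) (nat_lit 12) (.e (nat_lit 65280) (nat_lit 201) .nil))))) (.g (nat_lit 0) (.e (nat_lit 419697) (nat_lit 0) .nil) .nil)))) (.nd (nat_lit 9) 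
(.lf (nat_lit 600483) (.g (nat_lit 3282) (.e (nat_lit 557098) (nat_lit 13) (.e (nat_lit 172096) (nat_lit 9) (.e (nat_lit 426125) (nat_lit 2) (.e (nat_lit 196661) (nat_lit 12) (.e (nat_lit 57750) (nat_lit 201) (.e (nat_lit 3067) (nat_lit 190) (.e (nat_lit 475185) (nat_lit 29) .nil))))))) (.g (nat_lit 1) (.e (nat_lit 419416) (nat_lit 0) .nil) .nil))) 
(.lf (nat_lit 600995) (.g (nat_lit 2354) (.e (nat_lit 557105) (nat_lit 14) (.e (nat_lit 180251) (nat_lit 10) (.e (nat_lit 573485) (nat_lit 13) (.e (nat_lit 65568) (nat_lit 2) (.e (nat_lit 98048) (nat_lit 2) (.e (nat_lit 16385) (nat_lit 0) (.e (nat_lit 7936) (nat_lit 200) .nil))))))) (.g (nat_lit 1) (.e (nat_lit 419983) (nat_lit 0) .nil) .nil)))))) 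
(.nd (nat_lit 7) (.nd (nat_lit 8) (.nd (nat_lit 9) 
(.lf (nat_lit 600163) (.g (nat_lit 4403) (.e (nat_lit 557093) (nat_lit 12) (.e (nat_lit 163849) (nat_lit 0) (.e (nat_lit 6421) (nat_lit 341) (.e (nat_lit 163900) (nat_lit 12) (.e (nat_lit 426125) (nat_lit 2) (.e (nat_lit 196666) (nat_lit 13) (.e (nat_lit 65617) (nat_lit 10) (.e (nat_lit 344132) (nat_lit 26) .nil)))))))) (.g (nat_lit 1) (.e (nat_lit 418988) (nat_lit 0) .nil) .nil))) 
(.lf (nat_lit 600675) (.g (nat_lit 4550) (.e (nat_lit 557100) (nat_lit 13) (.e (nat_lit 172106) (nat_lit 10) (.e (nat_lit 434231) (nat_lit 23) (.e (nat_lit 532568) (nat_lit 16) (.e (nat_lit 401452) (nat_lit 12) (.e (nat_lit 475185) (nat_lit 29) .nil)))))) (.g (nat_lit 1) (.e (nat_lit 419620) (nat_lit 0) .nil) .nil)))) (.nd (nat_lit 9) 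
(.lf (nat_lit 600419) (.g (nat_lit 3172) (.e (nat_lit 557097) (nat_lit 13) (.e (nat_lit 172115) (nat_lit 10) (.e (nat_lit 434231) (nat_lit 23) (.e (nat_lit 532529) (nat_lit 9) (.e (nat_lit 336296) (nat_lit 15) (.e (nat_lit 3714) (nat_lit 227) (.e (nat_lit 786176) (nat_lit 3) (.e (nat_lit 57476) (nat_lit 28) .nil)))))))) (.g (nat_lit 1) (.e (nat_lit 419349) (nat_lit 0) .nil) .nil))) 
(.lf (nat_lit 600931) (.g (nat_lit 2550) (.e (nat_lit 557103) (nat_lit 14) (.e (nat_lit 180250) (nat_lit 10) (.e (nat_lit 573484) (nat_lit 13) (.e (nat_lit 65566) (nat_lit 2) (.e (nat_lit 98048) (nat_lit 2) .nil))))) (.g (nat_lit 0) (.e (nat_lit 419897) (nat_lit 0) .nil) .nil))))) (.nd (nat_lit 8) (.nd (nat_lit 9) 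
(.lf (nat_lit 600291) (.g (nat_lit 1603) (.e (nat_lit 557095) (nat_lit 13) (.e (nat_lit 172115) (nat_lit 10) (.e (nat_lit 434238) (nat_lit 25) (.e (nat_lit 548898) (nat_lit 14) (.e (nat_lit 2988) (nat_lit 186) .nil))))) (.g (nat_lit 0) (.e (nat_lit 419198) (nat_lit 0) .nil) .nil))) 
(.lf (nat_lit 600803) (.g (nat_lit 2177) (.e (nat_lit 557101) (nat_lit 13) (.e (nat_lit 172115) (nat_lit 10) (.e (nat_lit 434238) (nat_lit 25) (.e (nat_lit 548898) (nat_lit 14) (.e (nat_lit 3004) (nat_lit 186) (.e (nat_lit 442368) (nat_lit 0) (.e (nat_lit 1862) (nat_lit 124) .nil))))))) (.g (nat_lit 1) (.e (nat_lit 419761) (nat_lit 0) .nil) .nil)))) (.nd (nat_lit 9) 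
(.lf (nat_lit 600547) (.g (nat_lit 2179) (.e (nat_lit 557098) (nat_lit 13) (.e (nat_lit 172115) (nat_lit 10) (.e (nat_lit 434244) (nat_lit 28) (.e (nat_lit 573449) (nat_lit 9) (.e (nat_lit 481) (nat_lit 37) .nil))))) (.g (nat_lit 0) (.e (nat_lit 419481) (nat_lit 0) .nil) .nil))) 
(.lf (nat_lit 601059) (.g (nat_lit 2607) (.e (nat_lit 557105) (nat_lit 14) (.e (nat_lit 180252) (nat_lit 10) (.e (nat_lit 573474) (nat_lit 12) (.e (nat_lit 57503) (nat_lit 38) (.e (nat_lit 638996) (nat_lit 7) .nil))))) (.g (nat_lit 0) (.e (nat_lit 420108) (nat_lit 0) .nil) .nil)))))))) (.nd (nat_lit 5) (.nd (nat_lit 6) (.nd (nat_lit 7) (.nd (nat_lit 8) (.nd (nat_lit 9) 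
(.lf (nat_lit 600083) (.g (nat_lit 4201) (.e (nat_lit 557090) (nat_lit 12) (.e (nat_lit 164018) (nat_lit 45) (.e (nat_lit 696344) (nat_lit 8) (.e (nat_lit 172062) (nat_lit 2) (.e (nat_lit 196666) (nat_lit 13) (.e (nat_lit 65617) (nat_lit 10) (.e (nat_lit 344130) (nat_lit 26) .nil))))))) (.g (nat_lit 1) (.e (nat_lit 418856) (nat_lit 0) .nil) .nil))) 
(.lf (nat_lit 600595) (.g (nat_lit 831) (.e (nat_lit 557099) (nat_lit 13) (.e (nat_lit 172067) (nat_lit 3) (.e (nat_lit 204817) (nat_lit 17) .nil))) (.g (nat_lit 0) (.e (nat_lit 419530) (nat_lit 0) .nil) .nil)))) (.nd (nat_lit 9) 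
(.lf (nat_lit 600339) (.g (nat_lit 3912) (.e (nat_lit 557097) (nat_lit 13) (.e (nat_lit 172097) (nat_lit 9) (.e (nat_lit 426125) (nat_lit 2) (.e (nat_lit 196666) (nat_lit 13) (.e (nat_lit 65640) (nat_lit 15) (.e (nat_lit 3632) (nat_lit 227) (.e (nat_lit 778318) (nat_lit 3) (.e (nat_lit 57476) (nat_lit 28) .nil)))))))) (.g (nat_lit 1) (.e (nat_lit 419269) (nat_lit 0) .nil) .nil))) 
(.lf (nat_lit 600851) (.g (nat_lit 2891) (.e (nat_lit 557101) (nat_lit 13) (.e (nat_lit 172115) (nat_lit 10) (.e (nat_lit 434244) (nat_lit 28) (.e (nat_lit 573450) (nat_lit 9) (.e (nat_lit 460) (nat_lit 34) (.e (nat_lit 442379) (nat_lit 0) (.e (nat_lit 1856) (nat_lit 124) .nil))))))) (.g (nat_lit 1) (.e (nat_lit 419809) (nat_lit 0) .nil) .nil))))) (.nd (nat_lit 8) (.nd (nat_lit 9) 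
(.lf (nat_lit 600211) (.g (nat_lit 3493) (.e (nat_lit 557093) (nat_lit 12) (.e (nat_lit 164022) (nat_lit 46) (.e (nat_lit 704629) (nat_lit 9) (.e (nat_lit 442) (nat_lit 33) (.e (nat_lit 434230) (nat_lit 23) .nil))))) (.g (nat_lit 0) (.e (nat_lit 419051) (nat_lit 0) .nil) .nil))) 
(.lf (nat_lit 600723) (.g (nat_lit 2621) (.e (nat_lit 557100) (nat_lit 13) (.e (nat_lit 172113) (nat_lit 10) (.e (nat_lit 434248) (nat_lit 28) (.e (nat_lit 573471) (nat_lit 11) (.e (nat_lit 16434) (nat_lit 9) .nil))))) (.g (nat_lit 0) (.e (nat_lit 419668) (nat_lit 0) .nil) .nil)))) (.nd (nat_lit 9) 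
(.lf (nat_lit 600467) (.g (nat_lit 3368) (.e (nat_lit 557097) (nat_lit 13) (.e (nat_lit 172115) (nat_lit 10) (.e (nat_lit 434244) (nat_lit 28) (.e (nat_lit 573458) (nat_lit 9) (.e (nat_lit 422) (nat_lit 32) (.e (nat_lit 426198) (nat_lit 9) (.e (nat_lit 426402) (nat_lit 15) (.e (nat_lit 1849) (nat_lit 124) .nil)))))))) (.g (nat_lit 1) (.e (nat_lit 419397) (nat_lit 0) .nil) .nil))) 
(.lf (nat_lit 600979) (.g (nat_lit 3312) (.e (nat_lit 557104) (nat_lit 14) (.e (nat_lit 180252) (nat_lit 10) (.e (nat_lit 573487) (nat_lit 14) (.e (nat_lit 73746) (nat_lit 3) (.e (nat_lit 516100) (nat_lit 0) (.e (nat_lit 7936) (nat_lit 216) (.e (nat_lit 688166) (nat_lit 15) (.e (nat_lit 57477) (nat_lit 28) .nil)))))))) (.g (nat_lit 1) (.e (nat_lit 419963) (nat_lit 0) .nil) .nil)))))) 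
(.nd (nat_lit 7) (.nd (nat_lit 8) (.nd (nat_lit 9) 
(.lf (nat_lit 600147) (.g (nat_lit 3150) (.e (nat_lit 557093) (nat_lit 12) (.e (nat_lit 163848) (nat_lit 0) (.e (nat_lit 6416) (nat_lit 341) (.e (nat_lit 163900) (nat_lit 12) (.e (nat_lit 426140) (nat_lit 3) (.e (nat_lit 204869) (nat_lit 29) (.e (nat_lit 360474) (nat_lit 8) .nil))))))) (.g (nat_lit 1) (.e (nat_lit 418963) (nat_lit 0) .nil) .nil))) 
(.lf (nat_lit 600659) (.g (nat_lit 3048) (.e (nat_lit 557100) (nat_lit 13) (.e (nat_lit 172106) (nat_lit 10) (.e (nat_lit 434231) (nat_lit 23) (.e (nat_lit 532535) (nat_lit 9) (.e (nat_lit 336253) (nat_lit 15) (.e (nat_lit 3715) (nat_lit 227) (.e (nat_lit 786176) (nat_lit 3) (.e (nat_lit 57479) (nat_lit 28) .nil)))))))) (.g (nat_lit 1) (.e (nat_lit 419604) (nat_lit 0) .nil) .nil)))) 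
(.nd (nat_lit 9) 
(.lf (nat_lit 600403) (.g (nat_lit 3866) (.e (nat_lit 557097) (nat_lit 13) (.e (nat_lit 172115) (nat_lit 10) (.e (nat_lit 434231) (nat_lit 23) (.e (nat_lit 532529) (nat_lit 9) (.e (nat_lit 336261) (nat_lit 15) (.e (nat_lit 3635) (nat_lit 227) (.e (nat_lit 778318) (nat_lit 3) (.e (nat_lit 57476) (nat_lit 28) .nil)))))))) (.g (nat_lit 1) (.e (nat_lit 419333) (nat_lit 0) .nil) .nil))) 
(.lf (nat_lit 600915) (.g (nat_lit 2385) (.e (nat_lit 557103) (nat_lit 14) (.e (nat_lit 180250) (nat_lit 10) (.e (nat_lit 573474) (nat_lit 12) (.e (nat_lit 57501) (nat_lit 37) (.e (nat_lit 630799) (nat_lit 7) .nil))))) (.g (nat_lit 0) (.e (nat_lit 419881) (nat_lit 0) .nil) .nil))))) (.nd (nat_lit 8) (.nd (nat_lit 9) 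
(.lf (nat_lit 600275) (.g (nat_lit 3920) (.e (nat_lit 557095) (nat_lit 13) (.e (nat_lit 172106) (nat_lit 10) (.e (nat_lit 434231) (nat_lit 23) (.e (nat_lit 532535) (nat_lit 9) (.e (nat_lit 336295) (nat_lit 15) (.e (nat_lit 3629) (nat_lit 227) (.e (nat_lit 778317) (nat_lit 3) (.e (nat_lit 57477) (nat_lit 28) .nil)))))))) (.g (nat_lit 1) (.e (nat_lit 419156) (nat_lit 0) .nil) .nil))) 
(.lf (nat_lit 600787) (.g (nat_lit 3854) (.e (nat_lit 557101) (nat_lit 13) (.e (nat_lit 172115) (nat_lit 10) (.e (nat_lit 434231) (nat_lit 23) (.e (nat_lit 532535) (nat_lit 9) (.e (nat_lit 336290) (nat_lit 15) (.e (nat_lit 3715) (nat_lit 227) (.e (nat_lit 778316) (nat_lit 3) (.e (nat_lit 57479) (nat_lit 28) .nil)))))))) (.g (nat_lit 1) (.e (nat_lit 419745) (nat_lit 0) .nil) .nil)))) 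
(.nd (nat_lit 9) 
(.lf (nat_lit 600531) (.g (nat_lit 2412) (.e (nat_lit 557098) (nat_lit 13) (.e (nat_lit 172115) (nat_lit 10) (.e (nat_lit 434231) (nat_lit 23) (.e (nat_lit 532543) (nat_lit 10) (.e (nat_lit 344160) (nat_lit 37) (.e (nat_lit 647181) (nat_lit 3) (.e (nat_lit 171776) (nat_lit 28) .nil))))))) (.g (nat_lit 1) (.e (nat_lit 419464) (nat_lit 0) .nil) .nil))) 
(.lf (nat_lit 601043) (.g (nat_lit 2270) (.e (nat_lit 557105) (nat_lit 14) (.e (nat_lit 180252) (nat_lit 10) (.e (nat_lit 573474) (nat_lit 12) (.e (nat_lit 57354) (nat_lit 0) (.e (nat_lit 7936) (nat_lit 310) .nil))))) (.g (nat_lit 0) (.e (nat_lit 420089) (nat_lit 0) .nil) .nil))))))) (.nd (nat_lit 6) (.nd (nat_lit 7) (.nd (nat_lit 8) (.nd (nat_lit 9) 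
(.lf (nat_lit 600115) (.g (nat_lit 4764) (.e (nat_lit 557091) (nat_lit 12) (.e (nat_lit 164020) (nat_lit 45) (.e (nat_lit 696329) (nat_lit 5) (.e (nat_lit 2964) (nat_lit 185) (.e (nat_lit 434231) (nat_lit 23) (.e (nat_lit 532550) (nat_lit 12) (.e (nat_lit 360474) (nat_lit 8) .nil))))))) (.g (nat_lit 1) (.e (nat_lit 418916) (nat_lit 0) .nil) .nil))) 
(.lf (nat_lit 600627) (.g (nat_lit 4191) (.e (nat_lit 557100) (nat_lit 13) (.e (nat_lit 172106) (nat_lit 10) (.e (nat_lit 434231) (nat_lit 23) (.e (nat_lit 532482) (nat_lit 0) (.e (nat_lit 6617) (nat_lit 357) (.e (nat_lit 2887) (nat_lit 184) (.e (nat_lit 426412) (nat_lit 15) (.e (nat_lit 1856) (nat_lit 124) .nil)))))))) (.g (nat_lit 1) (.e (nat_lit 419572) (nat_lit 0) .nil) .nil)))) 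
(.nd (nat_lit 9) 
(.lf (nat_lit 600371) (.g (nat_lit 2175) (.e (nat_lit 557097) (nat_lit 13) (.e (nat_lit 172115) (nat_lit 10) (.e (nat_lit 434231) (nat_lit 23) (.e (nat_lit 532490) (nat_lit 0) (.e (nat_lit 6680) (nat_lit 357) .nil))))) (.g (nat_lit 0) (.e (nat_lit 419301) (nat_lit 0) .nil) .nil))) 
(.lf (nat_lit 600883) (.g (nat_lit 2911) (.e (nat_lit 557101) (nat_lit 13) (.e (nat_lit 172115) (nat_lit 10) (.e (nat_lit 434244) (nat_lit 28) (.e (nat_lit 573468) (nat_lit 10) (.e (nat_lit 8525) (nat_lit 205) (.e (nat_lit 3064) (nat_lit 190) (.e (nat_lit 475185) (nat_lit 29) .nil))))))) (.g (nat_lit 1) (.e (nat_lit 419841) (nat_lit 0) .nil) .nil))))) (.nd (nat_lit 8) (.nd (nat_lit 9) 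
(.lf (nat_lit 600243) (.g (nat_lit 3284) (.e (nat_lit 557094) (nat_lit 12) (.e (nat_lit 163852) (nat_lit 0) (.e (nat_lit 6427) (nat_lit 342) (.e (nat_lit 229409) (nat_lit 13) (.e (nat_lit 434231) (nat_lit 23) (.e (nat_lit 532550) (nat_lit 12) (.e (nat_lit 360474) (nat_lit 8) .nil))))))) (.g (nat_lit 1) (.e (nat_lit 419089) (nat_lit 0) .nil) .nil))) 
(.lf (nat_lit 600755) (.g (nat_lit 1602) (.e (nat_lit 557101) (nat_lit 13) (.e (nat_lit 172097) (nat_lit 9) (.e (nat_lit 426140) (nat_lit 3) (.e (nat_lit 204884) (nat_lit 33) .nil)))) (.g (nat_lit 0) (.e (nat_lit 419713) (nat_lit 0) .nil) .nil)))) (.nd (nat_lit 9) 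
(.lf (nat_lit 600499) (.g (nat_lit 2647) (.e (nat_lit 557098) (nat_lit 13) (.e (nat_lit 172115) (nat_lit 10) (.e (nat_lit 434231) (nat_lit 23) (.e (nat_lit 532481) (nat_lit 0) (.e (nat_lit 6650) (nat_lit 357) (.e (nat_lit 2856) (nat_lit 184) (.e (nat_lit 426402) (nat_lit 15) (.e (nat_lit 1859) (nat_lit 124) .nil)))))))) (.g (nat_lit 1) (.e (nat_lit 419432) (nat_lit 0) .nil) .nil))) 
(.lf (nat_lit 601011) (.g (nat_lit 2330) (.e (nat_lit 557105) (nat_lit 14) (.e (nat_lit 180251) (nat_lit 10) (.e (nat_lit 573485) (nat_lit 13) (.e (nat_lit 65568) (nat_lit 2) (.e (nat_lit 98048) (nat_lit 2) (.e (nat_lit 16400) (nat_lit 0) (.e (nat_lit 7936) (nat_lit 200) .nil))))))) (.g (nat_lit 1) (.e (nat_lit 419999) (nat_lit 0) .nil) .nil)))))) 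
(.nd (nat_lit 7) (.nd (nat_lit 8) (.nd (nat_lit 9) 
(.lf (nat_lit 600179) (.g (nat_lit 3082) (.e (nat_lit 557093) (nat_lit 12) (.e (nat_lit 164018) (nat_lit 45) (.e (nat_lit 696329) (nat_lit 5) (.e (nat_lit 2964) (nat_lit 185) (.e (nat_lit 434231) (nat_lit 23) (.e (nat_lit 532549) (nat_lit 12) (.e (nat_lit 360473) (nat_lit 8) .nil))))))) (.g (nat_lit 1) (.e (nat_lit 419015) (nat_lit 0) .nil) .nil))) 
(.lf (nat_lit 600691) (.g (nat_lit 3670) (.e (nat_lit 557100) (nat_lit 13) (.e (nat_lit 172106) (nat_lit 10) (.e (nat_lit 434244) (nat_lit 28) (.e (nat_lit 573451) (nat_lit 9) (.e (nat_lit 430) (nat_lit 32) (.e (nat_lit 426315) (nat_lit 12) (.e (nat_lit 475184) (nat_lit 29) .nil))))))) (.g (nat_lit 1) (.e (nat_lit 419636) (nat_lit 0) .nil) .nil)))) (.nd (nat_lit 9) 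
(.lf (nat_lit 600435) (.g (nat_lit 1860) (.e (nat_lit 557097) (nat_lit 13) (.e (nat_lit 172115) (nat_lit 10) (.e (nat_lit 434231) (nat_lit 23) (.e (nat_lit 532569) (nat_lit 16) (.e (nat_lit 401434) (nat_lit 9) .nil))))) (.g (nat_lit 0) (.e (nat_lit 419365) (nat_lit 0) .nil) .nil))) 
(.lf (nat_lit 600947) (.g (nat_lit 1640) (.e (nat_lit 557104) (nat_lit 14) (.e (nat_lit 180250) (nat_lit 10) (.e (nat_lit 573475) (nat_lit 12) (.e (nat_lit 57503) (nat_lit 38) .nil)))) (.g (nat_lit 0) (.e (nat_lit 419931) (nat_lit 0) .nil) .nil))))) (.nd (nat_lit 8) (.nd (nat_lit 9) 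
(.lf (nat_lit 600307) (.g (nat_lit 2034) (.e (nat_lit 557096) (nat_lit 13) (.e (nat_lit 172126) (nat_lit 14) (.e (nat_lit 491537) (nat_lit 2) (.e (nat_lit 90133) (nat_lit 9) (.e (nat_lit 2938) (nat_lit 184) .nil))))) (.g (nat_lit 0) (.e (nat_lit 419230) (nat_lit 0) .nil) .nil))) 
(.lf (nat_lit 600819) (.g (nat_lit 2066) (.e (nat_lit 557101) (nat_lit 13) (.e (nat_lit 172115) (nat_lit 10) (.e (nat_lit 434244) (nat_lit 28) (.e (nat_lit 573449) (nat_lit 9) (.e (nat_lit 455) (nat_lit 34) .nil))))) (.g (nat_lit 0) (.e (nat_lit 419777) (nat_lit 0) .nil) .nil)))) (.nd (nat_lit 9) 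
(.lf (nat_lit 600563) (.g (nat_lit 2302) (.e (nat_lit 557098) (nat_lit 13) (.e (nat_lit 172115) (nat_lit 10) (.e (nat_lit 434244) (nat_lit 28) (.e (nat_lit 573450) (nat_lit 9) (.e (nat_lit 481) (nat_lit 37) .nil))))) (.g (nat_lit 0) (.e (nat_lit 419498) (nat_lit 0) .nil) .nil))) 
(.lf (nat_lit 601075) (.g (nat_lit 2161) (.e (nat_lit 557105) (nat_lit 14) (.e (nat_lit 180252) (nat_lit 10) (.e (nat_lit 573475) (nat_lit 12) (.e (nat_lit 57348) (nat_lit 0) (.e (nat_lit 5590) (nat_lit 310) .nil))))) (.g (nat_lit 0) (.e (nat_lit 420132) (nat_lit 0) .nil) .nil))))))))) (.nd (nat_lit 4) (.nd (nat_lit 5) (.nd (nat_lit 6) (.nd (nat_lit 7) (.nd (nat_lit 8) (.nd (nat_lit 9) 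
(.lf (nat_lit 600075) (.g (nat_lit 2994) (.e (nat_lit 557090) (nat_lit 12) (.e (nat_lit 164038) (nat_lit 55) (.e (nat_lit 786176) (nat_lit 11) (.e (nat_lit 24608) (nat_lit 3) (.e (nat_lit 98381) (nat_lit 31) (.e (nat_lit 466967) (nat_lit 20) (.e (nat_lit 7936) (nat_lit 200) .nil))))))) (.g (nat_lit 1) (.e (nat_lit 418834) (nat_lit 0) .nil) .nil))) 
(.lf (nat_lit 600587) (.g (nat_lit 2001) (.e (nat_lit 557098) (nat_lit 13) (.e (nat_lit 172115) (nat_lit 10) (.e (nat_lit 434244) (nat_lit 28) (.e (nat_lit 573471) (nat_lit 11) (.e (nat_lit 16444) (nat_lit 9) .nil))))) (.g (nat_lit 0) (.e (nat_lit 419522) (nat_lit 0) .nil) .nil)))) (.nd (nat_lit 9) 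
(.lf (nat_lit 600331) (.g (nat_lit 3775) (.e (nat_lit 557097) (nat_lit 13) (.e (nat_lit 172097) (nat_lit 9) (.e (nat_lit 426125) (nat_lit 2) (.e (nat_lit 196661) (nat_lit 12) (.e (nat_lit 57751) (nat_lit 201) (.e (nat_lit 2856) (nat_lit 184) (.e (nat_lit 426402) (nat_lit 15) (.e (nat_lit 1849) (nat_lit 124) .nil)))))))) (.g (nat_lit 1) (.e (nat_lit 419261) (nat_lit 0) .nil) .nil))) 
(.lf (nat_lit 600843) (.g (nat_lit 1682) (.e (nat_lit 557101) (nat_lit 13) (.e (nat_lit 172115) (nat_lit 10) (.e (nat_lit 434244) (nat_lit 28) (.e (nat_lit 573450) (nat_lit 9) (.e (nat_lit 454) (nat_lit 34) .nil))))) (.g (nat_lit 0) (.e (nat_lit 419801) (nat_lit 0) .nil) .nil))))) (.nd (nat_lit 8) (.nd (nat_lit 9) 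
(.lf (nat_lit 600203) (.g (nat_lit 5944) (.e (nat_lit 557093) (nat_lit 12) (.e (nat_lit 164022) (nat_lit 46) (.e (nat_lit 704629) (nat_lit 9) (.e (nat_lit 375) (nat_lit 32) (.e (nat_lit 426125) (nat_lit 2) (.e (nat_lit 196666) (nat_lit 13) (.e (nat_lit 65614) (nat_lit 10) (.e (nat_lit 344132) (nat_lit 26) .nil)))))))) (.g (nat_lit 1) (.e (nat_lit 419042) (nat_lit 0) .nil) .nil))) 
(.lf (nat_lit 600715) (.g (nat_lit 2516) (.e (nat_lit 557100) (nat_lit 13) (.e (nat_lit 172113) (nat_lit 10) (.e (nat_lit 434247) (nat_lit 28) (.e (nat_lit 573469) (nat_lit 11) (.e (nat_lit 16455) (nat_lit 12) (.e (nat_lit 475185) (nat_lit 29) .nil)))))) (.g (nat_lit 1) (.e (nat_lit 419660) (nat_lit 0) .nil) .nil)))) (.nd (nat_lit 9) 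
(.lf (nat_lit 600459) (.g (nat_lit 3344) (.e (nat_lit 557097) (nat_lit 13) (.e (nat_lit 172115) (nat_lit 10) (.e (nat_lit 434244) (nat_lit 28) (.e (nat_lit 573451) (nat_lit 9) (.e (nat_lit 430) (nat_lit 32) (.e (nat_lit 426198) (nat_lit 9) (.e (nat_lit 426402) (nat_lit 15) (.e (nat_lit 1848) (nat_lit 124) .nil)))))))) (.g (nat_lit 1) (.e (nat_lit 419389) (nat_lit 0) .nil) .nil))) 
(.lf (nat_lit 600971) (.g (nat_lit 2877) (.e (nat_lit 557104) (nat_lit 14) (.e (nat_lit 180252) (nat_lit 10) (.e (nat_lit 573481) (nat_lit 13) (.e (nat_lit 65568) (nat_lit 2) (.e (nat_lit 98048) (nat_lit 2) (.e (nat_lit 16392) (nat_lit 0) (.e (nat_lit 3279) (nat_lit 200) .nil))))))) (.g (nat_lit 1) (.e (nat_lit 419955) (nat_lit 0) .nil) .nil)))))) 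
(.nd (nat_lit 7) (.nd (nat_lit 8) (.nd (nat_lit 9) 
(.lf (nat_lit 600139) (.g (nat_lit 1549) (.e (nat_lit 557091) (nat_lit 12) (.e (nat_lit 164022) (nat_lit 46) (.e (nat_lit 704738) (nat_lit 11) (.e (nat_lit 16385) (nat_lit 0) .nil)))) (.g (nat_lit 0) (.e (nat_lit 418947) (nat_lit 0) .nil) .nil))) 
(.lf (nat_lit 600651) (.g (nat_lit 3571) (.e (nat_lit 557100) (nat_lit 13) (.e (nat_lit 172106) (nat_lit 10) (.e (nat_lit 434231) (nat_lit 23) (.e (nat_lit 532501) (nat_lit 1) (.e (nat_lit 57761) (nat_lit 215) .nil))))) (.g (nat_lit 0) (.e (nat_lit 419596) (nat_lit 0) .nil) .nil)))) (.nd (nat_lit 9) 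
(.lf (nat_lit 600395) (.g (nat_lit 3650) (.e (nat_lit 557097) (nat_lit 13) (.e (nat_lit 172115) (nat_lit 10) (.e (nat_lit 434231) (nat_lit 23) (.e (nat_lit 532529) (nat_lit 9) (.e (nat_lit 336257) (nat_lit 15) (.e (nat_lit 3637) (nat_lit 227) (.e (nat_lit 778318) (nat_lit 3) (.e (nat_lit 57476) (nat_lit 28) .nil)))))))) (.g (nat_lit 1) (.e (nat_lit 419325) (nat_lit 0) .nil) .nil))) 
(.lf (nat_lit 600907) (.g (nat_lit 1638) (.e (nat_lit 557103) (nat_lit 14) (.e (nat_lit 180243) (nat_lit 5) (.e (nat_lit 532501) (nat_lit 1) (.e (nat_lit 57702) (nat_lit 164) .nil)))) (.g (nat_lit 0) (.e (nat_lit 419871) (nat_lit 0) .nil) .nil))))) (.nd (nat_lit 8) (.nd (nat_lit 9) 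
(.lf (nat_lit 600267) (.g (nat_lit 2038) (.e (nat_lit 557095) (nat_lit 13) (.e (nat_lit 172097) (nat_lit 9) (.e (nat_lit 426125) (nat_lit 2) (.e (nat_lit 196666) (nat_lit 13) (.e (nat_lit 65553) (nat_lit 0) .nil))))) (.g (nat_lit 0) (.e (nat_lit 419147) (nat_lit 0) .nil) .nil))) 
(.lf (nat_lit 600779) (.g (nat_lit 3073) (.e (nat_lit 557101) (nat_lit 13) (.e (nat_lit 172115) (nat_lit 10) (.e (nat_lit 434231) (nat_lit 23) (.e (nat_lit 532529) (nat_lit 9) (.e (nat_lit 336296) (nat_lit 15) .nil))))) (.g (nat_lit 0) (.e (nat_lit 419737) (nat_lit 0) .nil) .nil)))) (.nd (nat_lit 9) 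
(.lf (nat_lit 600523) (.g (nat_lit 3698) (.e (nat_lit 557098) (nat_lit 13) (.e (nat_lit 172115) (nat_lit 10) (.e (nat_lit 434231) (nat_lit 23) (.e (nat_lit 532529) (nat_lit 9) (.e (nat_lit 336296) (nat_lit 15) (.e (nat_lit 3714) (nat_lit 227) (.e (nat_lit 778316) (nat_lit 3) (.e (nat_lit 57480) (nat_lit 28) .nil)))))))) (.g (nat_lit 1) (.e (nat_lit 419456) (nat_lit 0) .nil) .nil))) 
(.lf (nat_lit 601035) (.g (nat_lit 3666) (.e (nat_lit 557105) (nat_lit 14) (.e (nat_lit 180252) (nat_lit 10) (.e (nat_lit 573474) (nat_lit 12) (.e (nat_lit 57347) (nat_lit 0) (.e (nat_lit 5436) (nat_lit 306) (.e (nat_lit 2433) (nat_lit 157) (.e (nat_lit 2685) (nat_lit 168) (.e (nat_lit 204863) (nat_lit 27) (.e (nat_lit 344132) (nat_lit 26) .nil))))))))) (.g (nat_lit 1) (.e (nat_lit 420058) (nat_lit 0) .nil) .nil))))))) 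
(.nd (nat_lit 6) (.nd (nat_lit 7) (.nd (nat_lit 8) (.nd (nat_lit 9) 
(.lf (nat_lit 600107) (.g (nat_lit 1884) (.e (nat_lit 557091) (nat_lit 12) (.e (nat_lit 163999) (nat_lit 38) (.e (nat_lit 639016) (nat_lit 15) (.e (nat_lit 57479) (nat_lit 28) (.e (nat_lit 557103) (nat_lit 14) .nil))))) (.g (nat_lit 0) (.e (nat_lit 418898) (nat_lit 0) .nil) .nil))) 
(.lf (nat_lit 600619) (.g (nat_lit 3734) (.e (nat_lit 557100) (nat_lit 13) (.e (nat_lit 172106) (nat_lit 10) (.e (nat_lit 434218) (nat_lit 19) (.e (nat_lit 499774) (nat_lit 0) (.e (nat_lit 2798) (nat_lit 180) (.e (nat_lit 303143) (nat_lit 12) (.e (nat_lit 475185) (nat_lit 29) .nil))))))) (.g (nat_lit 1) (.e (nat_lit 419564) (nat_lit 0) .nil) .nil)))) (.nd (nat_lit 9) 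
(.lf (nat_lit 600363) (.g (nat_lit 2751) (.e (nat_lit 557097) (nat_lit 13) (.e (nat_lit 172115) (nat_lit 10) (.e (nat_lit 434231) (nat_lit 23) (.e (nat_lit 532490) (nat_lit 0) (.e (nat_lit 6648) (nat_lit 357) .nil))))) (.g (nat_lit 0) (.e (nat_lit 419293) (nat_lit 0) .nil) .nil))) 
(.lf (nat_lit 600875) (.g (nat_lit 2643) (.e (nat_lit 557101) (nat_lit 13) (.e (nat_lit 172115) (nat_lit 10) (.e (nat_lit 434244) (nat_lit 28) (.e (nat_lit 573458) (nat_lit 9) (.e (nat_lit 394) (nat_lit 32) (.e (nat_lit 426305) (nat_lit 12) (.e (nat_lit 475185) (nat_lit 29) .nil))))))) (.g (nat_lit 1) (.e (nat_lit 419833) (nat_lit 0) .nil) .nil))))) (.nd (nat_lit 8) (.nd (nat_lit 9) 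
(.lf (nat_lit 600235) (.g (nat_lit 3105) (.e (nat_lit 557094) (nat_lit 12) (.e (nat_lit 163847) (nat_lit 0) (.e (nat_lit 6420) (nat_lit 341) (.e (nat_lit 163900) (nat_lit 12) (.e (nat_lit 426140) (nat_lit 3) (.e (nat_lit 204869) (nat_lit 29) (.e (nat_lit 360474) (nat_lit 8) .nil))))))) (.g (nat_lit 1) (.e (nat_lit 419078) (nat_lit 0) .nil) .nil))) 
(.lf (nat_lit 600747) (.g (nat_lit 4063) (.e (nat_lit 557101) (nat_lit 13) (.e (nat_lit 172097) (nat_lit 9) (.e (nat_lit 426125) (nat_lit 2) (.e (nat_lit 196691) (nat_lit 18) .nil)))) (.g (nat_lit 0) (.e (nat_lit 419705) (nat_lit 0) .nil) .nil)))) (.nd (nat_lit 9) 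
(.lf (nat_lit 600491) (.g (nat_lit 1811) (.e (nat_lit 557098) (nat_lit 13) (.e (nat_lit 172105) (nat_lit 10) (.e (nat_lit 434247) (nat_lit 28) (.e (nat_lit 573469) (nat_lit 11) (.e (nat_lit 16458) (nat_lit 12) .nil))))) (.g (nat_lit 0) (.e (nat_lit 419424) (nat_lit 0) .nil) .nil))) 
(.lf (nat_lit 601003) (.g (nat_lit 2286) (.e (nat_lit 557105) (nat_lit 14) (.e (nat_lit 180251) (nat_lit 10) (.e (nat_lit 573485) (nat_lit 13) (.e (nat_lit 65568) (nat_lit 2) (.e (nat_lit 98048) (nat_lit 2) (.e (nat_lit 16391) (nat_lit 0) (.e (nat_lit 7936) (nat_lit 200) .nil))))))) (.g (nat_lit 1) (.e (nat_lit 419991) (nat_lit 0) .nil) .nil)))))) 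
(.nd (nat_lit 7) (.nd (nat_lit 8) (.nd (nat_lit 9) 
(.lf (nat_lit 600171) (.g (nat_lit 3120) (.e (nat_lit 557093) (nat_lit 12) (.e (nat_lit 164018) (nat_lit 45) (.e (nat_lit 696327) (nat_lit 5) (.e (nat_lit 2980) (nat_lit 185) (.e (nat_lit 434231) (nat_lit 23) (.e (nat_lit 532549) (nat_lit 12) (.e (nat_lit 360473) (nat_lit 8) .nil))))))) (.g (nat_lit 1) (.e (nat_lit 419004) (nat_lit 0) .nil) .nil))) 
(.lf (nat_lit 600683) (.g (nat_lit 4251) (.e (nat_lit 557100) (nat_lit 13) (.e (nat_lit 172106) (nat_lit 10) (.e (nat_lit 434238) (nat_lit 25) (.e (nat_lit 548898) (nat_lit 14) (.e (nat_lit 2884) (nat_lit 184) (.e (nat_lit 426317) (nat_lit 12) (.e (nat_lit 475185) (nat_lit 29) .nil))))))) (.g (nat_lit 1) (.e (nat_lit 419628) (nat_lit 0) .nil) .nil)))) (.nd (nat_lit 9) 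
(.lf (nat_lit 600427) (.g (nat_lit 3703) (.e (nat_lit 557097) (nat_lit 13) (.e (nat_lit 172115) (nat_lit 10) (.e (nat_lit 434231) (nat_lit 23) (.e (nat_lit 532535) (nat_lit 9) (.e (nat_lit 336253) (nat_lit 15) (.e (nat_lit 3716) (nat_lit 227) (.e (nat_lit 778316) (nat_lit 3) (.e (nat_lit 57476) (nat_lit 28) .nil)))))))) (.g (nat_lit 1) (.e (nat_lit 419357) (nat_lit 0) .nil) .nil))) 
(.lf (nat_lit 600939) (.g (nat_lit 2964) (.e (nat_lit 557104) (nat_lit 14) (.e (nat_lit 180244) (nat_lit 5) (.e (nat_lit 532499) (nat_lit 1) (.e (nat_lit 57704) (nat_lit 164) (.e (nat_lit 2601) (nat_lit 163) .nil))))) (.g (nat_lit 0) (.e (nat_lit 419920) (nat_lit 0) .nil) .nil))))) (.nd (nat_lit 8) (.nd (nat_lit 9) 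
(.lf (nat_lit 600299) (.g (nat_lit 1862) (.e (nat_lit 557096) (nat_lit 13) (.e (nat_lit 172067) (nat_lit 3) (.e (nat_lit 204829) (nat_lit 18) (.e (nat_lit 65280) (nat_lit 168) .nil)))) (.g (nat_lit 0) (.e (nat_lit 419220) (nat_lit 0) .nil) .nil))) 
(.lf (nat_lit 600811) (.g (nat_lit 1966) (.e (nat_lit 557101) (nat_lit 13) (.e (nat_lit 172115) (nat_lit 10) (.e (nat_lit 434244) (nat_lit 28) (.e (nat_lit 573449) (nat_lit 9) (.e (nat_lit 396) (nat_lit 32) .nil))))) (.g (nat_lit 0) (.e (nat_lit 419769) (nat_lit 0) .nil) .nil)))) (.nd (nat_lit 9) 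
(.lf (nat_lit 600555) (.g (nat_lit 2570) (.e (nat_lit 557098) (nat_lit 13) (.e (nat_lit 172115) (nat_lit 10) (.e (nat_lit 434244) (nat_lit 28) (.e (nat_lit 573450) (nat_lit 9) (.e (nat_lit 457) (nat_lit 34) (.e (nat_lit 442369) (nat_lit 0) (.e (nat_lit 7936) (nat_lit 124) .nil))))))) (.g (nat_lit 1) (.e (nat_lit 419490) (nat_lit 0) .nil) .nil))) 
(.lf (nat_lit 601067) (.g (nat_lit 3812) (.e (nat_lit 557105) (nat_lit 14) (.e (nat_lit 180252) (nat_lit 10) (.e (nat_lit 573474) (nat_lit 12) (.e (nat_lit 57504) (nat_lit 38) (.e (nat_lit 638995) (nat_lit 7) (.e (nat_lit 163978) (nat_lit 30) (.e (nat_lit 573487) (nat_lit 14) (.e (nat_lit 73753) (nat_lit 8) .nil)))))))) (.g (nat_lit 1) (.e (nat_lit 420117) (nat_lit 0) .nil) .nil)))))))) 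
(.nd (nat_lit 5) (.nd (nat_lit 6) (.nd (nat_lit 7) (.nd (nat_lit 8) (.nd (nat_lit 9) 
(.lf (nat_lit 600091) (.g (nat_lit 2245) (.e (nat_lit 557090) (nat_lit 12) (.e (nat_lit 164020) (nat_lit 45) (.e (nat_lit 696344) (nat_lit 8) (.e (nat_lit 172067) (nat_lit 3) (.e (nat_lit 204866) (nat_lit 28) .nil))))) (.g (nat_lit 0) (.e (nat_lit 418864) (nat_lit 0) .nil) .nil))) 
(.lf (nat_lit 600603) (.g (nat_lit 2062) (.e (nat_lit 557099) (nat_lit 13) (.e (nat_lit 172106) (nat_lit 10) (.e (nat_lit 434231) (nat_lit 23) (.e (nat_lit 532563) (nat_lit 15) .nil)))) (.g (nat_lit 0) (.e (nat_lit 419541) (nat_lit 0) .nil) .nil)))) (.nd (nat_lit 9) 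
(.lf (nat_lit 600347) (.g (nat_lit 4555) (.e (nat_lit 557097) (nat_lit 13) (.e (nat_lit 172114) (nat_lit 10) (.e (nat_lit 434231) (nat_lit 23) (.e (nat_lit 532535) (nat_lit 9) (.e (nat_lit 336295) (nat_lit 15) (.e (nat_lit 3632) (nat_lit 227) (.e (nat_lit 778318) (nat_lit 3) (.e (nat_lit 57476) (nat_lit 28) .nil)))))))) (.g (nat_lit 1) (.e (nat_lit 419277) (nat_lit 0) .nil) .nil))) 
(.lf (nat_lit 600859) (.g (nat_lit 3372) (.e (nat_lit 557101) (nat_lit 13) (.e (nat_lit 172115) (nat_lit 10) (.e (nat_lit 434244) (nat_lit 28) (.e (nat_lit 573451) (nat_lit 9) (.e (nat_lit 428) (nat_lit 32) (.e (nat_lit 426234) (nat_lit 9) (.e (nat_lit 426353) (nat_lit 15) (.e (nat_lit 1860) (nat_lit 124) .nil)))))))) (.g (nat_lit 1) (.e (nat_lit 419817) (nat_lit 0) .nil) .nil))))) 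
(.nd (nat_lit 8) (.nd (nat_lit 9) 
(.lf (nat_lit 600219) (.g (nat_lit 2603) (.e (nat_lit 557093) (nat_lit 12) (.e (nat_lit 164022) (nat_lit 46) (.e (nat_lit 704737) (nat_lit 11) (.e (nat_lit 16388) (nat_lit 0) (.e (nat_lit 3257) (nat_lit 198) (.e (nat_lit 540704) (nat_lit 12) (.e (nat_lit 360473) (nat_lit 8) .nil))))))) (.g (nat_lit 1) (.e (nat_lit 419059) (nat_lit 0) .nil) .nil))) 
(.lf (nat_lit 600731) (.g (nat_lit 430) (.e (nat_lit 557101) (nat_lit 13) (.e (nat_lit 172065) (nat_lit 3) (.e (nat_lit 204817) (nat_lit 17) .nil))) (.g (nat_lit 0) (.e (nat_lit 419679) (nat_lit 0) .nil) .nil)))) (.nd (nat_lit 9) 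
(.lf (nat_lit 600475) (.g (nat_lit 2499) (.e (nat_lit 557097) (nat_lit 13) (.e (nat_lit 172115) (nat_lit 10) (.e (nat_lit 434244) (nat_lit 28) (.e (nat_lit 573458) (nat_lit 9) (.e (nat_lit 426) (nat_lit 32) (.e (nat_lit 426199) (nat_lit 9) (.e (nat_lit 426402) (nat_lit 15) (.e (nat_lit 1849) (nat_lit 124) .nil)))))))) (.g (nat_lit 1) (.e (nat_lit 419405) (nat_lit 0) .nil) .nil))) 
(.lf (nat_lit 600987) (.g (nat_lit 1572) (.e (nat_lit 557105) (nat_lit 14) (.e (nat_lit 180251) (nat_lit 10) (.e (nat_lit 573479) (nat_lit 13) (.e (nat_lit 65571) (nat_lit 3) (.e (nat_lit 106240) (nat_lit 7) .nil))))) (.g (nat_lit 0) (.e (nat_lit 419975) (nat_lit 0) .nil) .nil)))))) (.nd (nat_lit 7) (.nd (nat_lit 8) (.nd (nat_lit 9) 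
(.lf (nat_lit 600155) (.g (nat_lit 4586) (.e (nat_lit 557093) (nat_lit 12) (.e (nat_lit 163849) (nat_lit 0) (.e (nat_lit 6255) (nat_lit 337) (.e (nat_lit 2630) (nat_lit 164) (.e (nat_lit 172062) (nat_lit 2) (.e (nat_lit 196666) (nat_lit 13) (.e (nat_lit 65617) (nat_lit 10) (.e (nat_lit 344132) (nat_lit 26) .nil)))))))) (.g (nat_lit 1) (.e (nat_lit 418976) (nat_lit 0) .nil) .nil))) 
(.lf (nat_lit 600667) (.g (nat_lit 2936) (.e (nat_lit 557100) (nat_lit 13) (.e (nat_lit 172106) (nat_lit 10) (.e (nat_lit 434231) (nat_lit 23) (.e (nat_lit 532535) (nat_lit 9) (.e (nat_lit 336289) (nat_lit 15) (.e (nat_lit 3681) (nat_lit 227) (.e (nat_lit 786176) (nat_lit 3) (.e (nat_lit 57479) (nat_lit 28) .nil)))))))) (.g (nat_lit 1) (.e (nat_lit 419612) (nat_lit 0) .nil) .nil)))) 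
(.nd (nat_lit 9) 
(.lf (nat_lit 600411) (.g (nat_lit 4070) (.e (nat_lit 557097) (nat_lit 13) (.e (nat_lit 172115) (nat_lit 10) (.e (nat_lit 434231) (nat_lit 23) (.e (nat_lit 532529) (nat_lit 9) (.e (nat_lit 336265) (nat_lit 15) (.e (nat_lit 3629) (nat_lit 227) (.e (nat_lit 778318) (nat_lit 3) (.e (nat_lit 57476) (nat_lit 28) .nil)))))))) (.g (nat_lit 1) (.e (nat_lit 419341) (nat_lit 0) .nil) .nil))) 
(.lf (nat_lit 600923) (.g (nat_lit 2862) (.e (nat_lit 557103) (nat_lit 14) (.e (nat_lit 180250) (nat_lit 10) (.e (nat_lit 573474) (nat_lit 12) (.e (nat_lit 57507) (nat_lit 39) (.e (nat_lit 647175) (nat_lit 0) (.e (nat_lit 2684) (nat_lit 168) (.e (nat_lit 204862) (nat_lit 27) (.e (nat_lit 344133) (nat_lit 26) .nil)))))))) (.g (nat_lit 1) (.e (nat_lit 419889) (nat_lit 0) .nil) .nil))))) 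
(.nd (nat_lit 8) (.nd (nat_lit 9) 
(.lf (nat_lit 600283) (.g (nat_lit 3244) (.e (nat_lit 557095) (nat_lit 13) (.e (nat_lit 172115) (nat_lit 10) (.e (nat_lit 434231) (nat_lit 23) (.e (nat_lit 532529) (nat_lit 9) (.e (nat_lit 336263) (nat_lit 15) .nil))))) (.g (nat_lit 0) (.e (nat_lit 419178) (nat_lit 0) .nil) .nil))) 
(.lf (nat_lit 600795) (.g (nat_lit 1660) (.e (nat_lit 557101) (nat_lit 13) (.e (nat_lit 172115) (nat_lit 10) (.e (nat_lit 434231) (nat_lit 23) (.e (nat_lit 532569) (nat_lit 16) (.e (nat_lit 409344) (nat_lit 9) .nil))))) (.g (nat_lit 0) (.e (nat_lit 419753) (nat_lit 0) .nil) .nil)))) (.nd (nat_lit 9) 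
(.lf (nat_lit 600539) (.g (nat_lit 2036) (.e (nat_lit 557098) (nat_lit 13) (.e (nat_lit 172115) (nat_lit 10) (.e (nat_lit 434244) (nat_lit 28) (.e (nat_lit 573449) (nat_lit 9) (.e (nat_lit 455) (nat_lit 34) .nil))))) (.g (nat_lit 0) (.e (nat_lit 419472) (nat_lit 0) .nil) .nil))) 
(.lf (nat_lit 601051) (.g (nat_lit 4944) (.e (nat_lit 557105) (nat_lit 14) (.e (nat_lit 180252) (nat_lit 10) (.e (nat_lit 573474) (nat_lit 12) (.e (nat_lit 57502) (nat_lit 38) (.e (nat_lit 638996) (nat_lit 7) (.e (nat_lit 163978) (nat_lit 30) (.e (nat_lit 573489) (nat_lit 14) (.e (nat_lit 73755) (nat_lit 8) .nil)))))))) (.g (nat_lit 1) (.e (nat_lit 420100) (nat_lit 0) .nil) .nil))))))) 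
(.nd (nat_lit 6) (.nd (nat_lit 7) (.nd (nat_lit 8) (.nd (nat_lit 9) 
(.lf (nat_lit 600123) (.g (nat_lit 402) (.e (nat_lit 557091) (nat_lit 12) (.e (nat_lit 164022) (nat_lit 46) (.e (nat_lit 704628) (nat_lit 9) .nil))) (.g (nat_lit 0) (.e (nat_lit 418930) (nat_lit 0) .nil) .nil))) 
(.lf (nat_lit 600635) (.g (nat_lit 4527) (.e (nat_lit 557100) (nat_lit 13) (.e (nat_lit 172106) (nat_lit 10) (.e (nat_lit 434231) (nat_lit 23) (.e (nat_lit 532490) (nat_lit 0) (.e (nat_lit 6674) (nat_lit 357) (.e (nat_lit 2936) (nat_lit 184) (.e (nat_lit 426401) (nat_lit 15) (.e (nat_lit 1858) (nat_lit 124) .nil)))))))) (.g (nat_lit 1) (.e (nat_lit 419580) (nat_lit 0) .nil) .nil)))) 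
(.nd (nat_lit 9) 
(.lf (nat_lit 600379) (.g (nat_lit 3956) (.e (nat_lit 557097) (nat_lit 13) (.e (nat_lit 172115) (nat_lit 10) (.e (nat_lit 434231) (nat_lit 23) (.e (nat_lit 532529) (nat_lit 9) (.e (nat_lit 336238) (nat_lit 15) (.e (nat_lit 3627) (nat_lit 227) (.e (nat_lit 778318) (nat_lit 3) (.e (nat_lit 57476) (nat_lit 28) .nil)))))))) (.g (nat_lit 1) (.e (nat_lit 419309) (nat_lit 0) .nil) .nil))) 
(.lf (nat_lit 600891) (.g (nat_lit 4510) (.e (nat_lit 557101) (nat_lit 13) (.e (nat_lit 172115) (nat_lit 10) (.e (nat_lit 434244) (nat_lit 28) (.e (nat_lit 573471) (nat_lit 11) (.e (nat_lit 16473) (nat_lit 14) (.e (nat_lit 491573) (nat_lit 15) (.e (nat_lit 7936) (nat_lit 200) .nil))))))) (.g (nat_lit 1) (.e (nat_lit 419849) (nat_lit 0) .nil) .nil))))) (.nd (nat_lit 8) (.nd (nat_lit 9) 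
(.lf (nat_lit 600251) (.g (nat_lit 1432) (.e (nat_lit 557094) (nat_lit 12) (.e (nat_lit 164022) (nat_lit 46) (.e (nat_lit 704629) (nat_lit 9) (.e (nat_lit 370) (nat_lit 32) .nil)))) (.g (nat_lit 0) (.e (nat_lit 419120) (nat_lit 0) .nil) .nil))) 
(.lf (nat_lit 600763) (.g (nat_lit 2484) (.e (nat_lit 557101) (nat_lit 13) (.e (nat_lit 172115) (nat_lit 10) (.e (nat_lit 434231) (nat_lit 23) (.e (nat_lit 532481) (nat_lit 0) (.e (nat_lit 6693) (nat_lit 357) (.e (nat_lit 7936) (nat_lit 190) (.e (nat_lit 475185) (nat_lit 29) .nil))))))) (.g (nat_lit 1) (.e (nat_lit 419721) (nat_lit 0) .nil) .nil)))) (.nd (nat_lit 9) 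
(.lf (nat_lit 600507) (.g (nat_lit 3456) (.e (nat_lit 557098) (nat_lit 13) (.e (nat_lit 172115) (nat_lit 10) (.e (nat_lit 434231) (nat_lit 23) (.e (nat_lit 532490) (nat_lit 0) (.e (nat_lit 6676) (nat_lit 357) (.e (nat_lit 2856) (nat_lit 184) (.e (nat_lit 426402) (nat_lit 15) (.e (nat_lit 1859) (nat_lit 124) .nil)))))))) (.g (nat_lit 1) (.e (nat_lit 419440) (nat_lit 0) .nil) .nil))) 
(.lf (nat_lit 601019) (.g (nat_lit 1867) (.e (nat_lit 557105) (nat_lit 14) (.e (nat_lit 180252) (nat_lit 10) (.e (nat_lit 573451) (nat_lit 9) (.e (nat_lit 1174) (nat_lit 87) .nil)))) (.g (nat_lit 0) (.e (nat_lit 420026) (nat_lit 0) .nil) .nil)))))) (.nd (nat_lit 7) (.nd (nat_lit 8) (.nd (nat_lit 9) 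
(.lf (nat_lit 600187) (.g (nat_lit 3096) (.e (nat_lit 557093) (nat_lit 12) (.e (nat_lit 164018) (nat_lit 45) (.e (nat_lit 696330) (nat_lit 5) (.e (nat_lit 2980) (nat_lit 185) (.e (nat_lit 434231) (nat_lit 23) (.e (nat_lit 532549) (nat_lit 12) (.e (nat_lit 360473) (nat_lit 8) .nil))))))) (.g (nat_lit 1) (.e (nat_lit 419025) (nat_lit 0) .nil) .nil))) 
(.lf (nat_lit 600699) (.g (nat_lit 2277) (.e (nat_lit 557100) (nat_lit 13) (.e (nat_lit 172113) (nat_lit 10) (.e (nat_lit 434245) (nat_lit 28) (.e (nat_lit 573450) (nat_lit 9) (.e (nat_lit 370) (nat_lit 32) (.e (nat_lit 426317) (nat_lit 12) (.e (nat_lit 475185) (nat_lit 29) .nil))))))) (.g (nat_lit 1) (.e (nat_lit 419644) (nat_lit 0) .nil) .nil)))) (.nd (nat_lit 9) 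
(.lf (nat_lit 600443) (.g (nat_lit 2663) (.e (nat_lit 557097) (nat_lit 13) (.e (nat_lit 172115) (nat_lit 10) (.e (nat_lit 434244) (nat_lit 28) (.e (nat_lit 573449) (nat_lit 9) (.e (nat_lit 455) (nat_lit 34) (.e (nat_lit 450304) (nat_lit 0) (.e (nat_lit 1848) (nat_lit 124) .nil))))))) (.g (nat_lit 1) (.e (nat_lit 419373) (nat_lit 0) .nil) .nil))) 
(.lf (nat_lit 600955) (.g (nat_lit 2365) (.e (nat_lit 557104) (nat_lit 14) (.e (nat_lit 180252) (nat_lit 10) (.e (nat_lit 573474) (nat_lit 12) (.e (nat_lit 57347) (nat_lit 0) (.e (nat_lit 5436) (nat_lit 306) .nil))))) (.g (nat_lit 0) (.e (nat_lit 419939) (nat_lit 0) .nil) .nil))))) (.nd (nat_lit 8) (.nd (nat_lit 9) 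
(.lf (nat_lit 600315) (.g (nat_lit 1235) (.e (nat_lit 557096) (nat_lit 13) (.e (nat_lit 172126) (nat_lit 14) (.e (nat_lit 491540) (nat_lit 3) (.e (nat_lit 98379) (nat_lit 31) .nil)))) (.g (nat_lit 0) (.e (nat_lit 419238) (nat_lit 0) .nil) .nil))) 
(.lf (nat_lit 600827) (.g (nat_lit 3029) (.e (nat_lit 557101) (nat_lit 13) (.e (nat_lit 172115) (nat_lit 10) (.e (nat_lit 434244) (nat_lit 28) (.e (nat_lit 573450) (nat_lit 9) (.e (nat_lit 375) (nat_lit 32) (.e (nat_lit 426185) (nat_lit 9) (.e (nat_lit 426354) (nat_lit 15) (.e (nat_lit 1860) (nat_lit 124) .nil)))))))) (.g (nat_lit 1) (.e (nat_lit 419785) (nat_lit 0) .nil) .nil)))) 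
(.nd (nat_lit 9) 
(.lf (nat_lit 600571) (.g (nat_lit 2279) (.e (nat_lit 557098) (nat_lit 13) (.e (nat_lit 172115) (nat_lit 10) (.e (nat_lit 434244) (nat_lit 28) (.e (nat_lit 573458) (nat_lit 9) (.e (nat_lit 394) (nat_lit 32) .nil))))) (.g (nat_lit 0) (.e (nat_lit 419506) (nat_lit 0) .nil) .nil))) 
(.lf (nat_lit 601083) (.g (nat_lit 2425) (.e (nat_lit 557105) (nat_lit 14) (.e (nat_lit 180252) (nat_lit 10) (.e (nat_lit 573475) (nat_lit 12) (.e (nat_lit 57507) (nat_lit 39) (.e (nat_lit 647180) (nat_lit 3) (.e (nat_lit 163962) (nat_lit 25) (.e (nat_lit 532544) (nat_lit 10) (.e (nat_lit 344132) (nat_lit 26) .nil)))))))) (.g (nat_lit 1) (.e (nat_lit 420140) (nat_lit 0) .nil) .nil)))))))))) 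
(.nd (nat_lit 3) (.nd (nat_lit 4) (.nd (nat_lit 5) (.nd (nat_lit 6) (.nd (nat_lit 7) 
(.nd (nat_lit 8) (.nd (nat_lit 9) 
(.lf (nat_lit 600071) (.g (nat_lit 3355) (.e (nat_lit 557090) (nat_lit 12) (.e (nat_lit 164038) (nat_lit 55) (.e (nat_lit 778336) (nat_lit 9) (.e (nat_lit 2668) (nat_lit 167) (.e (nat_lit 196666) (nat_lit 13) (.e (nat_lit 65569) (nat_lit 3) (.e (nat_lit 98346) (nat_lit 22) (.e (nat_lit 253994) (nat_lit 12) (.e (nat_lit 57477) (nat_lit 28) .nil))))))))) (.g (nat_lit 1) (.e (nat_lit 418830) (nat_lit 0) .nil) .nil))) 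
(.lf (nat_lit 600583) (.g (nat_lit 2739) (.e (nat_lit 557098) (nat_lit 13) (.e (nat_lit 172115) (nat_lit 10) (.e (nat_lit 434244) (nat_lit 28) (.e (nat_lit 573468) (nat_lit 10) (.e (nat_lit 8525) (nat_lit 205) (.e (nat_lit 3067) (nat_lit 190) (.e (nat_lit 475184) (nat_lit 29) .nil))))))) (.g (nat_lit 1) (.e (nat_lit 419518) (nat_lit 0) .nil) .nil)))) (.nd (nat_lit 9) 
(.lf (nat_lit 600327) (.g (nat_lit 4491) (.e (nat_lit 557097) (nat_lit 13) (.e (nat_lit 172097) (nat_lit 9) (.e (nat_lit 426125) (nat_lit 2) (.e (nat_lit 196661) (nat_lit 12) (.e (nat_lit 57750) (nat_lit 201) (.e (nat_lit 2856) (nat_lit 184) (.e (nat_lit 426402) (nat_lit 15) (.e (nat_lit 1849) (nat_lit 124) .nil)))))))) (.g (nat_lit 1) (.e (nat_lit 419257) (nat_lit 0) .nil) .nil))) 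
(.lf (nat_lit 600839) (.g (nat_lit 2105) (.e (nat_lit 557101) (nat_lit 13) (.e (nat_lit 172115) (nat_lit 10) (.e (nat_lit 434244) (nat_lit 28) (.e (nat_lit 573450) (nat_lit 9) (.e (nat_lit 400) (nat_lit 32) .nil))))) (.g (nat_lit 0) (.e (nat_lit 419797) (nat_lit 0) .nil) .nil))))) (.nd (nat_lit 8) (.nd (nat_lit 9) 
(.lf (nat_lit 600199) (.g (nat_lit 465) (.e (nat_lit 557093) (nat_lit 12) (.e (nat_lit 164022) (nat_lit 46) (.e (nat_lit 704628) (nat_lit 9) .nil))) (.g (nat_lit 0) (.e (nat_lit 419037) (nat_lit 0) .nil) .nil))) 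
(.lf (nat_lit 600711) (.g (nat_lit 944) (.e (nat_lit 557100) (nat_lit 13) (.e (nat_lit 172113) (nat_lit 10) (.e (nat_lit 434247) (nat_lit 28) (.e (nat_lit 573469) (nat_lit 11) .nil)))) (.g (nat_lit 0) (.e (nat_lit 419656) (nat_lit 0) .nil) .nil)))) (.nd (nat_lit 9) 
(.lf (nat_lit 600455) (.g (nat_lit 2489) (.e (nat_lit 557097) (nat_lit 13) (.e (nat_lit 172115) (nat_lit 10) (.e (nat_lit 434244) (nat_lit 28) (.e (nat_lit 573450) (nat_lit 9) (.e (nat_lit 459) (nat_lit 34) (.e (nat_lit 450304) (nat_lit 0) (.e (nat_lit 1848) (nat_lit 124) .nil))))))) (.g (nat_lit 1) (.e (nat_lit 419385) (nat_lit 0) .nil) .nil))) 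
(.lf (nat_lit 600967) (.g (nat_lit 3645) (.e (nat_lit 557104) (nat_lit 14) (.e (nat_lit 180252) (nat_lit 10) (.e (nat_lit 573475) (nat_lit 12) (.e (nat_lit 57504) (nat_lit 38) (.e (nat_lit 638995) (nat_lit 7) (.e (nat_lit 163978) (nat_lit 30) (.e (nat_lit 573487) (nat_lit 14) (.e (nat_lit 73753) (nat_lit 8) .nil)))))))) (.g (nat_lit 1) (.e (nat_lit 419951) (nat_lit 0) .nil) .nil)))))) 
(.nd (nat_lit 7) (.nd (nat_lit 8) (.nd (nat_lit 9) 
(.lf (nat_lit 600135) (.g (nat_lit 3265) (.e (nat_lit 557091) (nat_lit 12) (.e (nat_lit 164022) (nat_lit 46) (.e (nat_lit 704629) (nat_lit 9) (.e (nat_lit 442) (nat_lit 33) (.e (nat_lit 434234) (nat_lit 23) .nil))))) (.g (nat_lit 0) (.e (nat_lit 418943) (nat_lit 0) .nil) .nil))) 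
(.lf (nat_lit 600647) (.g (nat_lit 2643) (.e (nat_lit 557100) (nat_lit 13) (.e (nat_lit 172106) (nat_lit 10) (.e (nat_lit 434231) (nat_lit 23) (.e (nat_lit 532499) (nat_lit 1) (.e (nat_lit 57759) (nat_lit 215) (.e (nat_lit 2505) (nat_lit 157) (.e (nat_lit 3062) (nat_lit 190) (.e (nat_lit 475185) (nat_lit 29) .nil)))))))) (.g (nat_lit 1) (.e (nat_lit 419592) (nat_lit 0) .nil) .nil)))) 
(.nd (nat_lit 9) 
(.lf (nat_lit 600391) (.g (nat_lit 4003) (.e (nat_lit 557097) (nat_lit 13) (.e (nat_lit 172115) (nat_lit 10) (.e (nat_lit 434231) (nat_lit 23) (.e (nat_lit 532529) (nat_lit 9) (.e (nat_lit 336257) (nat_lit 15) (.e (nat_lit 3633) (nat_lit 227) (.e (nat_lit 778318) (nat_lit 3) (.e (nat_lit 57476) (nat_lit 28) .nil)))))))) (.g (nat_lit 1) (.e (nat_lit 419321) (nat_lit 0) .nil) .nil))) 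
(.lf (nat_lit 600903) (.g (nat_lit 1707) (.e (nat_lit 564992) (nat_lit 13) (.e (nat_lit 172126) (nat_lit 14) (.e (nat_lit 491537) (nat_lit 2) (.e (nat_lit 90176) (nat_lit 15) .nil)))) (.g (nat_lit 0) (.e (nat_lit 419864) (nat_lit 0) .nil) .nil))))) (.nd (nat_lit 8) (.nd (nat_lit 9) 
(.lf (nat_lit 600263) (.g (nat_lit 2095) (.e (nat_lit 557095) (nat_lit 13) (.e (nat_lit 172097) (nat_lit 9) (.e (nat_lit 426125) (nat_lit 2) (.e (nat_lit 196630) (nat_lit 9) (.e (nat_lit 1669) (nat_lit 116) .nil))))) (.g (nat_lit 0) (.e (nat_lit 419142) (nat_lit 0) .nil) .nil))) 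
(.lf (nat_lit 600775) (.g (nat_lit 3946) (.e (nat_lit 557101) (nat_lit 13) (.e (nat_lit 172115) (nat_lit 10) (.e (nat_lit 434231) (nat_lit 23) (.e (nat_lit 532523) (nat_lit 7) (.e (nat_lit 319505) (nat_lit 10) (.e (nat_lit 7936) (nat_lit 313) (.e (nat_lit 8326) (nat_lit 69) .nil))))))) (.g (nat_lit 1) (.e (nat_lit 419733) (nat_lit 0) .nil) .nil)))) (.nd (nat_lit 9) 
(.lf (nat_lit 600519) (.g (nat_lit 3354) (.e (nat_lit 557098) (nat_lit 13) (.e (nat_lit 172115) (nat_lit 10) (.e (nat_lit 434231) (nat_lit 23) (.e (nat_lit 532523) (nat_lit 7) (.e (nat_lit 327424) (nat_lit 10) .nil))))) (.g (nat_lit 0) (.e (nat_lit 419452) (nat_lit 0) .nil) .nil))) 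
(.lf (nat_lit 601031) (.g (nat_lit 5532) (.e (nat_lit 557105) (nat_lit 14) (.e (nat_lit 180252) (nat_lit 10) (.e (nat_lit 573473) (nat_lit 12) (.e (nat_lit 57504) (nat_lit 38) (.e (nat_lit 638995) (nat_lit 7) (.e (nat_lit 163979) (nat_lit 30) (.e (nat_lit 573489) (nat_lit 14) (.e (nat_lit 73755) (nat_lit 8) .nil)))))))) (.g (nat_lit 1) (.e (nat_lit 420040) (nat_lit 0) .nil) .nil))))))) 
(.nd (nat_lit 6) (.nd (nat_lit 7) (.nd (nat_lit 8) (.nd (nat_lit 9) 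
(.lf (nat_lit 600103) (.g (nat_lit 4307) (.e (nat_lit 557091) (nat_lit 12) (.e (nat_lit 163847) (nat_lit 0) (.e (nat_lit 6416) (nat_lit 341) (.e (nat_lit 163900) (nat_lit 12) (.e (nat_lit 426125) (nat_lit 2) (.e (nat_lit 196666) (nat_lit 13) (.e (nat_lit 65617) (nat_lit 10) (.e (nat_lit 344133) (nat_lit 26) .nil)))))))) (.g (nat_lit 1) (.e (nat_lit 418892) (nat_lit 0) .nil) .nil))) 
(.lf (nat_lit 600615) (.g (nat_lit 574) (.e (nat_lit 557100) (nat_lit 13) (.e (nat_lit 172067) (nat_lit 3) (.e (nat_lit 204829) (nat_lit 18) .nil))) (.g (nat_lit 0) (.e (nat_lit 419560) (nat_lit 0) .nil) .nil)))) (.nd (nat_lit 9) 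
(.lf (nat_lit 600359) (.g (nat_lit 2223) (.e (nat_lit 557097) (nat_lit 13) (.e (nat_lit 172115) (nat_lit 10) (.e (nat_lit 434231) (nat_lit 23) (.e (nat_lit 532482) (nat_lit 0) (.e (nat_lit 6643) (nat_lit 357) (.e (nat_lit 2856) (nat_lit 184) (.e (nat_lit 426402) (nat_lit 15) (.e (nat_lit 1849) (nat_lit 124) .nil)))))))) (.g (nat_lit 1) (.e (nat_lit 419289) (nat_lit 0) .nil) .nil))) 
(.lf (nat_lit 600871) (.g (nat_lit 2493) (.e (nat_lit 557101) (nat_lit 13) (.e (nat_lit 172115) (nat_lit 10) (.e (nat_lit 434244) (nat_lit 28) (.e (nat_lit 573457) (nat_lit 9) (.e (nat_lit 430) (nat_lit 32) .nil))))) (.g (nat_lit 0) (.e (nat_lit 419829) (nat_lit 0) .nil) .nil))))) (.nd (nat_lit 8) (.nd (nat_lit 9) 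
(.lf (nat_lit 600231) (.g (nat_lit 3982) (.e (nat_lit 557093) (nat_lit 12) (.e (nat_lit 164023) (nat_lit 46) (.e (nat_lit 704738) (nat_lit 11) (.e (nat_lit 16416) (nat_lit 3) (.e (nat_lit 204852) (nat_lit 26) .nil))))) (.g (nat_lit 0) (.e (nat_lit 419074) (nat_lit 0) .nil) .nil))) 
(.lf (nat_lit 600743) (.g (nat_lit 3957) (.e (nat_lit 557101) (nat_lit 13) (.e (nat_lit 172097) (nat_lit 9) (.e (nat_lit 426125) (nat_lit 2) (.e (nat_lit 196666) (nat_lit 13) (.e (nat_lit 65639) (nat_lit 15) (.e (nat_lit 3715) (nat_lit 227) (.e (nat_lit 778316) (nat_lit 3) (.e (nat_lit 57479) (nat_lit 28) .nil)))))))) (.g (nat_lit 1) (.e (nat_lit 419701) (nat_lit 0) .nil) .nil)))) 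
(.nd (nat_lit 9) 
(.lf (nat_lit 600487) (.g (nat_lit 3932) (.e (nat_lit 557098) (nat_lit 13) (.e (nat_lit 172097) (nat_lit 9) (.e (nat_lit 426125) (nat_lit 2) (.e (nat_lit 196666) (nat_lit 13) (.e (nat_lit 65638) (nat_lit 15) (.e (nat_lit 3716) (nat_lit 227) (.e (nat_lit 778316) (nat_lit 3) (.e (nat_lit 57480) (nat_lit 28) .nil)))))))) (.g (nat_lit 1) (.e (nat_lit 419420) (nat_lit 0) .nil) .nil))) 
(.lf (nat_lit 600999) (.g (nat_lit 2384) (.e (nat_lit 557105) (nat_lit 14) (.e (nat_lit 180251) (nat_lit 10) (.e (nat_lit 573485) (nat_lit 13) (.e (nat_lit 65568) (nat_lit 2) (.e (nat_lit 98048) (nat_lit 2) (.e (nat_lit 16388) (nat_lit 0) (.e (nat_lit 3278) (nat_lit 200) .nil))))))) (.g (nat_lit 1) (.e (nat_lit 419987) (nat_lit 0) .nil) .nil)))))) 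
(.nd (nat_lit 7) (.nd (nat_lit 8) (.nd (nat_lit 9) 
(.lf (nat_lit 600167) (.g (nat_lit 4258) (.e (nat_lit 557093) (nat_lit 12) (.e (nat_lit 164018) (nat_lit 45) (.e (nat_lit 696327) (nat_lit 5) (.e (nat_lit 2884) (nat_lit 184) (.e (nat_lit 426125) (nat_lit 2) (.e (nat_lit 196666) (nat_lit 13) (.e (nat_lit 65617) (nat_lit 10) (.e (nat_lit 344132) (nat_lit 26) .nil)))))))) (.g (nat_lit 1) (.e (nat_lit 418998) (nat_lit 0) .nil) .nil))) 
(.lf (nat_lit 600679) (.g (nat_lit 1347) (.e (nat_lit 557100) (nat_lit 13) (.e (nat_lit 172106) (nat_lit 10) (.e (nat_lit 434231) (nat_lit 23) (.e (nat_lit 540416) (nat_lit 16) .nil)))) (.g (nat_lit 0) (.e (nat_lit 419624) (nat_lit 0) .nil) .nil)))) (.nd (nat_lit 9) 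
(.lf (nat_lit 600423) (.g (nat_lit 3343) (.e (nat_lit 557097) (nat_lit 13) (.e (nat_lit 172115) (nat_lit 10) (.e (nat_lit 434231) (nat_lit 23) (.e (nat_lit 532529) (nat_lit 9) (.e (nat_lit 336297) (nat_lit 15) (.e (nat_lit 3631) (nat_lit 227) (.e (nat_lit 778318) (nat_lit 3) (.e (nat_lit 57476) (nat_lit 28) .nil)))))))) (.g (nat_lit 1) (.e (nat_lit 419353) (nat_lit 0) .nil) .nil))) 
(.lf (nat_lit 600935) (.g (nat_lit 1066) (.e (nat_lit 557103) (nat_lit 14) (.e (nat_lit 180251) (nat_lit 10) (.e (nat_lit 573478) (nat_lit 12) (.e (nat_lit 57500) (nat_lit 37) .nil)))) (.g (nat_lit 0) (.e (nat_lit 419901) (nat_lit 0) .nil) .nil))))) (.nd (nat_lit 8) (.nd (nat_lit 9) 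
(.lf (nat_lit 600295) (.g (nat_lit 517) (.e (nat_lit 557096) (nat_lit 13) (.e (nat_lit 172064) (nat_lit 2) (.e (nat_lit 196661) (nat_lit 12) .nil))) (.g (nat_lit 0) (.e (nat_lit 419215) (nat_lit 0) .nil) .nil))) 
(.lf (nat_lit 600807) (.g (nat_lit 2558) (.e (nat_lit 557101) (nat_lit 13) (.e (nat_lit 172115) (nat_lit 10) (.e (nat_lit 434244) (nat_lit 28) (.e (nat_lit 573448) (nat_lit 9) (.e (nat_lit 458) (nat_lit 34) .nil))))) (.g (nat_lit 0) (.e (nat_lit 419765) (nat_lit 0) .nil) .nil)))) (.nd (nat_lit 9) 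
(.lf (nat_lit 600551) (.g (nat_lit 3509) (.e (nat_lit 557098) (nat_lit 13) (.e (nat_lit 172115) (nat_lit 10) (.e (nat_lit 434244) (nat_lit 28) (.e (nat_lit 573450) (nat_lit 9) (.e (nat_lit 375) (nat_lit 32) (.e (nat_lit 426201) (nat_lit 9) (.e (nat_lit 426399) (nat_lit 15) (.e (nat_lit 1859) (nat_lit 124) .nil)))))))) (.g (nat_lit 1) (.e (nat_lit 419485) (nat_lit 0) .nil) .nil))) 
(.lf (nat_lit 601063) (.g (nat_lit 2434) (.e (nat_lit 557105) (nat_lit 14) (.e (nat_lit 180252) (nat_lit 10) (.e (nat_lit 573474) (nat_lit 12) (.e (nat_lit 57504) (nat_lit 38) (.e (nat_lit 638994) (nat_lit 7) .nil))))) (.g (nat_lit 0) (.e (nat_lit 420113) (nat_lit 0) .nil) .nil)))))))) (.nd (nat_lit 5) (.nd (nat_lit 6) (.nd (nat_lit 7) (.nd (nat_lit 8) (.nd (nat_lit 9) 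
(.lf (nat_lit 600087) (.g (nat_lit 359) (.e (nat_lit 557090) (nat_lit 12) (.e (nat_lit 164020) (nat_lit 45) (.e (nat_lit 696327) (nat_lit 5) .nil))) (.g (nat_lit 0) (.e (nat_lit 418860) (nat_lit 0) .nil) .nil))) 
(.lf (nat_lit 600599) (.g (nat_lit 1818) (.e (nat_lit 557099) (nat_lit 13) (.e (nat_lit 172106) (nat_lit 10) (.e (nat_lit 434231) (nat_lit 23) (.e (nat_lit 532535) (nat_lit 9) .nil)))) (.g (nat_lit 0) (.e (nat_lit 419535) (nat_lit 0) .nil) .nil)))) (.nd (nat_lit 9) 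
(.lf (nat_lit 600343) (.g (nat_lit 2023) (.e (nat_lit 557097) (nat_lit 13) (.e (nat_lit 172097) (nat_lit 9) (.e (nat_lit 426140) (nat_lit 3) (.e (nat_lit 204883) (nat_lit 33) (.e (nat_lit 401454) (nat_lit 12) (.e (nat_lit 483072) (nat_lit 29) .nil)))))) (.g (nat_lit 1) (.e (nat_lit 419273) (nat_lit 0) .nil) .nil))) 
(.lf (nat_lit 600855) (.g (nat_lit 2294) (.e (nat_lit 557101) (nat_lit 13) (.e (nat_lit 172115) (nat_lit 10) (.e (nat_lit 434244) (nat_lit 28) (.e (nat_lit 573450) (nat_lit 9) (.e (nat_lit 479) (nat_lit 37) (.e (nat_lit 466949) (nat_lit 0) (.e (nat_lit 1855) (nat_lit 124) .nil))))))) (.g (nat_lit 1) (.e (nat_lit 419813) (nat_lit 0) .nil) .nil))))) (.nd (nat_lit 8) (.nd (nat_lit 9) 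
(.lf (nat_lit 600215) (.g (nat_lit 3381) (.e (nat_lit 557093) (nat_lit 12) (.e (nat_lit 164022) (nat_lit 46) (.e (nat_lit 704629) (nat_lit 9) (.e (nat_lit 442) (nat_lit 33) (.e (nat_lit 434234) (nat_lit 23) .nil))))) (.g (nat_lit 0) (.e (nat_lit 419055) (nat_lit 0) .nil) .nil))) 
(.lf (nat_lit 600727) (.g (nat_lit 2127) (.e (nat_lit 557100) (nat_lit 13) (.e (nat_lit 172120) (nat_lit 12) (.e (nat_lit 475185) (nat_lit 29) (.e (nat_lit 557099) (nat_lit 13) .nil)))) (.g (nat_lit 0) (.e (nat_lit 419672) (nat_lit 0) .nil) .nil)))) (.nd (nat_lit 9) 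
(.lf (nat_lit 600471) (.g (nat_lit 3314) (.e (nat_lit 557097) (nat_lit 13) (.e (nat_lit 172115) (nat_lit 10) (.e (nat_lit 434244) (nat_lit 28) (.e (nat_lit 573458) (nat_lit 9) (.e (nat_lit 426) (nat_lit 32) (.e (nat_lit 426196) (nat_lit 9) (.e (nat_lit 426402) (nat_lit 15) (.e (nat_lit 1848) (nat_lit 124) .nil)))))))) (.g (nat_lit 1) (.e (nat_lit 419401) (nat_lit 0) .nil) .nil))) 
(.lf (nat_lit 600983) (.g (nat_lit 1064) (.e (nat_lit 557105) (nat_lit 14) (.e (nat_lit 180247) (nat_lit 7) (.e (nat_lit 548874) (nat_lit 5) (.e (nat_lit 1320) (nat_lit 99) .nil)))) (.g (nat_lit 0) (.e (nat_lit 419971) (nat_lit 0) .nil) .nil)))))) (.nd (nat_lit 7) (.nd (nat_lit 8) (.nd (nat_lit 9) 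
(.lf (nat_lit 600151) (.g (nat_lit 3132) (.e (nat_lit 557093) (nat_lit 12) (.e (nat_lit 163848) (nat_lit 0) (.e (nat_lit 6416) (nat_lit 341) (.e (nat_lit 163917) (nat_lit 13) (.e (nat_lit 434231) (nat_lit 23) (.e (nat_lit 532550) (nat_lit 12) (.e (nat_lit 360474) (nat_lit 8) .nil))))))) (.g (nat_lit 1) (.e (nat_lit 418971) (nat_lit 0) .nil) .nil))) 
(.lf (nat_lit 600663) (.g (nat_lit 3024) (.e (nat_lit 557100) (nat_lit 13) (.e (nat_lit 172106) (nat_lit 10) (.e (nat_lit 434231) (nat_lit 23) (.e (nat_lit 532535) (nat_lit 9) (.e (nat_lit 336287) (nat_lit 15) (.e (nat_lit 3714) (nat_lit 227) (.e (nat_lit 778316) (nat_lit 3) (.e (nat_lit 57479) (nat_lit 28) .nil)))))))) (.g (nat_lit 1) (.e (nat_lit 419608) (nat_lit 0) .nil) .nil)))) 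
(.nd (nat_lit 9) 
(.lf (nat_lit 600407) (.g (nat_lit 4320) (.e (nat_lit 557097) (nat_lit 13) (.e (nat_lit 172115) (nat_lit 10) (.e (nat_lit 434231) (nat_lit 23) (.e (nat_lit 532529) (nat_lit 9) (.e (nat_lit 336260) (nat_lit 15) (.e (nat_lit 3634) (nat_lit 227) (.e (nat_lit 778318) (nat_lit 3) (.e (nat_lit 57476) (nat_lit 28) .nil)))))))) (.g (nat_lit 1) (.e (nat_lit 419337) (nat_lit 0) .nil) .nil))) 
(.lf (nat_lit 600919) (.g (nat_lit 3041) (.e (nat_lit 557103) (nat_lit 14) (.e (nat_lit 180250) (nat_lit 10) (.e (nat_lit 573474) (nat_lit 12) (.e (nat_lit 57507) (nat_lit 39) (.e (nat_lit 647170) (nat_lit 0) (.e (nat_lit 2685) (nat_lit 168) (.e (nat_lit 204863) (nat_lit 27) (.e (nat_lit 344130) (nat_lit 26) .nil)))))))) (.g (nat_lit 1) (.e (nat_lit 419885) (nat_lit 0) .nil) .nil))))) 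
(.nd (nat_lit 8) (.nd (nat_lit 9) 
(.lf (nat_lit 600279) (.g (nat_lit 743) (.e (nat_lit 557095) (nat_lit 13) (.e (nat_lit 172115) (nat_lit 10) (.e (nat_lit 434231) (nat_lit 23) (.e (nat_lit 532482) (nat_lit 0) .nil)))) (.g (nat_lit 0) (.e (nat_lit 419165) (nat_lit 0) .nil) .nil))) 
(.lf (nat_lit 600791) (.g (nat_lit 2921) (.e (nat_lit 557101) (nat_lit 13) (.e (nat_lit 172115) (nat_lit 10) (.e (nat_lit 434231) (nat_lit 23) (.e (nat_lit 532567) (nat_lit 16) (.e (nat_lit 401454) (nat_lit 12) (.e (nat_lit 483072) (nat_lit 29) .nil)))))) (.g (nat_lit 1) (.e (nat_lit 419749) (nat_lit 0) .nil) .nil)))) (.nd (nat_lit 9) 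
(.lf (nat_lit 600535) (.g (nat_lit 2471) (.e (nat_lit 557098) (nat_lit 13) (.e (nat_lit 172115) (nat_lit 10) (.e (nat_lit 434238) (nat_lit 25) (.e (nat_lit 548898) (nat_lit 14) (.e (nat_lit 2982) (nat_lit 186) (.e (nat_lit 450304) (nat_lit 0) (.e (nat_lit 1859) (nat_lit 124) .nil))))))) (.g (nat_lit 1) (.e (nat_lit 419468) (nat_lit 0) .nil) .nil))) 
(.lf (nat_lit 601047) (.g (nat_lit 4313) (.e (nat_lit 557105) (nat_lit 14) (.e (nat_lit 180252) (nat_lit 10) (.e (nat_lit 573474) (nat_lit 12) (.e (nat_lit 57501) (nat_lit 37) (.e (nat_lit 630800) (nat_lit 7) (.e (nat_lit 163977) (nat_lit 30) (.e (nat_lit 573489) (nat_lit 14) (.e (nat_lit 73755) (nat_lit 8) .nil)))))))) (.g (nat_lit 1) (.e (nat_lit 420096) (nat_lit 0) .nil) .nil))))))) 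
(.nd (nat_lit 6) (.nd (nat_lit 7) (.nd (nat_lit 8) (.nd (nat_lit 9) 
(.lf (nat_lit 600119) (.g (nat_lit 5605) (.e (nat_lit 557091) (nat_lit 12) (.e (nat_lit 164020) (nat_lit 45) (.e (nat_lit 696344) (nat_lit 8) (.e (nat_lit 172065) (nat_lit 3) (.e (nat_lit 204869) (nat_lit 29) (.e (nat_lit 360474) (nat_lit 8) .nil)))))) (.g (nat_lit 1) (.e (nat_lit 418925) (nat_lit 0) .nil) .nil))) 
(.lf (nat_lit 600631) (.g (nat_lit 2621) (.e (nat_lit 557100) (nat_lit 13) (.e (nat_lit 172106) (nat_lit 10) (.e (nat_lit 434231) (nat_lit 23) (.e (nat_lit 532484) (nat_lit 0) (.e (nat_lit 7936) (nat_lit 357) .nil))))) (.g (nat_lit 0) (.e (nat_lit 419576) (nat_lit 0) .nil) .nil)))) (.nd (nat_lit 9) 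
(.lf (nat_lit 600375) (.g (nat_lit 1601) (.e (nat_lit 557097) (nat_lit 13) (.e (nat_lit 172115) (nat_lit 10) (.e (nat_lit 434231) (nat_lit 23) (.e (nat_lit 532490) (nat_lit 0) (.e (nat_lit 7936) (nat_lit 364) .nil))))) (.g (nat_lit 0) (.e (nat_lit 419305) (nat_lit 0) .nil) .nil))) 
(.lf (nat_lit 600887) (.g (nat_lit 3615) (.e (nat_lit 557101) (nat_lit 13) (.e (nat_lit 172115) (nat_lit 10) (.e (nat_lit 434244) (nat_lit 28) (.e (nat_lit 573471) (nat_lit 11) (.e (nat_lit 16386) (nat_lit 0) (.e (nat_lit 7376) (nat_lit 389) (.e (nat_lit 8326) (nat_lit 69) .nil))))))) (.g (nat_lit 1) (.e (nat_lit 419845) (nat_lit 0) .nil) .nil))))) (.nd (nat_lit 8) (.nd (nat_lit 9) 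
(.lf (nat_lit 600247) (.g (nat_lit 2933) (.e (nat_lit 557094) (nat_lit 12) (.e (nat_lit 164018) (nat_lit 45) (.e (nat_lit 696330) (nat_lit 5) (.e (nat_lit 2980) (nat_lit 185) (.e (nat_lit 434231) (nat_lit 23) (.e (nat_lit 532550) (nat_lit 12) (.e (nat_lit 360474) (nat_lit 8) .nil))))))) (.g (nat_lit 1) (.e (nat_lit 419111) (nat_lit 0) .nil) .nil))) 
(.lf (nat_lit 600759) (.g (nat_lit 2633) (.e (nat_lit 557101) (nat_lit 13) (.e (nat_lit 172115) (nat_lit 10) (.e (nat_lit 434231) (nat_lit 23) (.e (nat_lit 532481) (nat_lit 0) (.e (nat_lit 6650) (nat_lit 357) (.e (nat_lit 2856) (nat_lit 184) (.e (nat_lit 426402) (nat_lit 15) (.e (nat_lit 1858) (nat_lit 124) .nil)))))))) (.g (nat_lit 1) (.e (nat_lit 419717) (nat_lit 0) .nil) .nil)))) 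
(.nd (nat_lit 9) 
(.lf (nat_lit 600503) (.g (nat_lit 2924) (.e (nat_lit 557098) (nat_lit 13) (.e (nat_lit 172115) (nat_lit 10) (.e (nat_lit 434231) (nat_lit 23) (.e (nat_lit 532481) (nat_lit 0) (.e (nat_lit 6684) (nat_lit 357) (.e (nat_lit 2857) (nat_lit 184) (.e (nat_lit 426402) (nat_lit 15) (.e (nat_lit 1859) (nat_lit 124) .nil)))))))) (.g (nat_lit 1) (.e (nat_lit 419436) (nat_lit 0) .nil) .nil))) 
(.lf (nat_lit 601015) (.g (nat_lit 2788) (.e (nat_lit 557105) (nat_lit 14) (.e (nat_lit 180251) (nat_lit 10) (.e (nat_lit 573487) (nat_lit 14) (.e (nat_lit 73747) (nat_lit 3) (.e (nat_lit 524032) (nat_lit 24) .nil))))) (.g (nat_lit 0) (.e (nat_lit 420003) (nat_lit 0) .nil) .nil)))))) (.nd (nat_lit 7) (.nd (nat_lit 8) (.nd (nat_lit 9) 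
(.lf (nat_lit 600183) (.g (nat_lit 4226) (.e (nat_lit 557093) (nat_lit 12) (.e (nat_lit 164018) (nat_lit 45) (.e (nat_lit 696330) (nat_lit 5) (.e (nat_lit 2884) (nat_lit 184) (.e (nat_lit 426125) (nat_lit 2) (.e (nat_lit 196666) (nat_lit 13) (.e (nat_lit 65617) (nat_lit 10) (.e (nat_lit 344132) (nat_lit 26) .nil)))))))) (.g (nat_lit 1) (.e (nat_lit 419019) (nat_lit 0) .nil) .nil))) 
(.lf (nat_lit 600695) (.g (nat_lit 2586) (.e (nat_lit 557100) (nat_lit 13) (.e (nat_lit 172106) (nat_lit 10) (.e (nat_lit 434244) (nat_lit 28) (.e (nat_lit 573471) (nat_lit 11) (.e (nat_lit 16435) (nat_lit 9) .nil))))) (.g (nat_lit 0) (.e (nat_lit 419640) (nat_lit 0) .nil) .nil)))) (.nd (nat_lit 9) 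
(.lf (nat_lit 600439) (.g (nat_lit 3195) (.e (nat_lit 557097) (nat_lit 13) (.e (nat_lit 172115) (nat_lit 10) (.e (nat_lit 434244) (nat_lit 28) (.e (nat_lit 573449) (nat_lit 9) (.e (nat_lit 430) (nat_lit 32) (.e (nat_lit 426190) (nat_lit 9) (.e (nat_lit 426402) (nat_lit 15) (.e (nat_lit 1849) (nat_lit 124) .nil)))))))) (.g (nat_lit 1) (.e (nat_lit 419369) (nat_lit 0) .nil) .nil))) 
(.lf (nat_lit 600951) (.g (nat_lit 2839) (.e (nat_lit 557104) (nat_lit 14) (.e (nat_lit 180252) (nat_lit 10) (.e (nat_lit 581376) (nat_lit 0) (.e (nat_lit 2887) (nat_lit 184) (.e (nat_lit 426412) (nat_lit 15) (.e (nat_lit 7936) (nat_lit 121) (.e (nat_lit 532544) (nat_lit 10) (.e (nat_lit 344130) (nat_lit 26) .nil)))))))) (.g (nat_lit 1) (.e (nat_lit 419935) (nat_lit 0) .nil) .nil))))) 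
(.nd (nat_lit 8) (.nd (nat_lit 9) 
(.lf (nat_lit 600311) (.g (nat_lit 2185) (.e (nat_lit 557096) (nat_lit 13) (.e (nat_lit 172126) (nat_lit 14) (.e (nat_lit 491539) (nat_lit 3) (.e (nat_lit 98365) (nat_lit 26) (.e (nat_lit 426315) (nat_lit 12) .nil))))) (.g (nat_lit 0) (.e (nat_lit 419234) (nat_lit 0) .nil) .nil))) 
(.lf (nat_lit 600823) (.g (nat_lit 2616) (.e (nat_lit 557101) (nat_lit 13) (.e (nat_lit 172115) (nat_lit 10) (.e (nat_lit 434244) (nat_lit 28) (.e (nat_lit 573449) (nat_lit 9) (.e (nat_lit 457) (nat_lit 34) (.e (nat_lit 442368) (nat_lit 0) (.e (nat_lit 1862) (nat_lit 124) .nil))))))) (.g (nat_lit 1) (.e (nat_lit 419781) (nat_lit 0) .nil) .nil)))) (.nd (nat_lit 9) 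
(.lf (nat_lit 600567) (.g (nat_lit 2626) (.e (nat_lit 557098) (nat_lit 13) (.e (nat_lit 172115) (nat_lit 10) (.e (nat_lit 434244) (nat_lit 28) (.e (nat_lit 573452) (nat_lit 9) (.e (nat_lit 430) (nat_lit 32) (.e (nat_lit 426308) (nat_lit 12) (.e (nat_lit 475184) (nat_lit 29) .nil))))))) (.g (nat_lit 1) (.e (nat_lit 419502) (nat_lit 0) .nil) .nil))) 
(.lf (nat_lit 601079) (.g (nat_lit 1417) (.e (nat_lit 557105) (nat_lit 14) (.e (nat_lit 180252) (nat_lit 10) (.e (nat_lit 573475) (nat_lit 12) (.e (nat_lit 57504) (nat_lit 38) .nil)))) (.g (nat_lit 0) (.e (nat_lit 420136) (nat_lit 0) .nil) .nil))))))))) (.nd (nat_lit 4) (.nd (nat_lit 5) (.nd (nat_lit 6) (.nd (nat_lit 7) (.nd (nat_lit 8) (.nd (nat_lit 9) 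
(.lf (nat_lit 600079) (.g (nat_lit 4253) (.e (nat_lit 557090) (nat_lit 12) (.e (nat_lit 164018) (nat_lit 45) (.e (nat_lit 696329) (nat_lit 5) (.e (nat_lit 2884) (nat_lit 184) (.e (nat_lit 426125) (nat_lit 2) (.e (nat_lit 196666) (nat_lit 13) (.e (nat_lit 65617) (nat_lit 10) (.e (nat_lit 344130) (nat_lit 26) .nil)))))))) (.g (nat_lit 1) (.e (nat_lit 418848) (nat_lit 0) .nil) .nil))) 
(.lf (nat_lit 600591) (.g (nat_lit 4433) (.e (nat_lit 557098) (nat_lit 13) (.e (nat_lit 172116) (nat_lit 10) (.e (nat_lit 434231) (nat_lit 23) (.e (nat_lit 532535) (nat_lit 9) (.e (nat_lit 336295) (nat_lit 15) (.e (nat_lit 3631) (nat_lit 227) (.e (nat_lit 778317) (nat_lit 3) (.e (nat_lit 57480) (nat_lit 28) .nil)))))))) (.g (nat_lit 1) (.e (nat_lit 419526) (nat_lit 0) .nil) .nil)))) 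
(.nd (nat_lit 9) 
(.lf (nat_lit 600335) (.g (nat_lit 3474) (.e (nat_lit 557097) (nat_lit 13) (.e (nat_lit 172097) (nat_lit 9) (.e (nat_lit 426125) (nat_lit 2) (.e (nat_lit 196666) (nat_lit 13) (.e (nat_lit 65638) (nat_lit 15) (.e (nat_lit 3715) (nat_lit 227) (.e (nat_lit 778316) (nat_lit 3) (.e (nat_lit 57477) (nat_lit 28) .nil)))))))) (.g (nat_lit 1) (.e (nat_lit 419265) (nat_lit 0) .nil) .nil))) 
(.lf (nat_lit 600847) (.g (nat_lit 2478) (.e (nat_lit 557101) (nat_lit 13) (.e (nat_lit 172115) (nat_lit 10) (.e (nat_lit 434244) (nat_lit 28) (.e (nat_lit 573450) (nat_lit 9) (.e (nat_lit 457) (nat_lit 34) (.e (nat_lit 442368) (nat_lit 0) (.e (nat_lit 7936) (nat_lit 124) .nil))))))) (.g (nat_lit 1) (.e (nat_lit 419805) (nat_lit 0) .nil) .nil))))) (.nd (nat_lit 8) (.nd (nat_lit 9) 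
(.lf (nat_lit 600207) (.g (nat_lit 3605) (.e (nat_lit 557093) (nat_lit 12) (.e (nat_lit 164022) (nat_lit 46) (.e (nat_lit 704629) (nat_lit 9) (.e (nat_lit 442) (nat_lit 33) (.e (nat_lit 434217) (nat_lit 19) .nil))))) (.g (nat_lit 0) (.e (nat_lit 419047) (nat_lit 0) .nil) .nil))) 
(.lf (nat_lit 600719) (.g (nat_lit 2327) (.e (nat_lit 557100) (nat_lit 13) (.e (nat_lit 172113) (nat_lit 10) (.e (nat_lit 434248) (nat_lit 28) (.e (nat_lit 573469) (nat_lit 11) (.e (nat_lit 16435) (nat_lit 9) (.e (nat_lit 433920) (nat_lit 15) (.e (nat_lit 1860) (nat_lit 124) .nil))))))) (.g (nat_lit 1) (.e (nat_lit 419664) (nat_lit 0) .nil) .nil)))) (.nd (nat_lit 9) 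
(.lf (nat_lit 600463) (.g (nat_lit 2537) (.e (nat_lit 557097) (nat_lit 13) (.e (nat_lit 172115) (nat_lit 10) (.e (nat_lit 434244) (nat_lit 28) (.e (nat_lit 573458) (nat_lit 9) (.e (nat_lit 394) (nat_lit 32) (.e (nat_lit 426197) (nat_lit 9) (.e (nat_lit 426402) (nat_lit 15) (.e (nat_lit 1849) (nat_lit 124) .nil)))))))) (.g (nat_lit 1) (.e (nat_lit 419393) (nat_lit 0) .nil) .nil))) 
(.lf (nat_lit 600975) (.g (nat_lit 4086) (.e (nat_lit 557104) (nat_lit 14) (.e (nat_lit 180252) (nat_lit 10) (.e (nat_lit 573482) (nat_lit 13) (.e (nat_lit 65568) (nat_lit 2) (.e (nat_lit 98048) (nat_lit 2) (.e (nat_lit 16392) (nat_lit 0) (.e (nat_lit 3279) (nat_lit 200) .nil))))))) (.g (nat_lit 1) (.e (nat_lit 419959) (nat_lit 0) .nil) .nil)))))) 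
(.nd (nat_lit 7) (.nd (nat_lit 8) (.nd (nat_lit 9) 
(.lf (nat_lit 600143) (.g (nat_lit 4607) (.e (nat_lit 557093) (nat_lit 12) (.e (nat_lit 163848) (nat_lit 0) (.e (nat_lit 6252) (nat_lit 337) (.e (nat_lit 2630) (nat_lit 164) (.e (nat_lit 172064) (nat_lit 2) (.e (nat_lit 196666) (nat_lit 13) (.e (nat_lit 65617) (nat_lit 10) (.e (nat_lit 344132) (nat_lit 26) .nil)))))))) (.g (nat_lit 1) (.e (nat_lit 418954) (nat_lit 0) .nil) .nil))) 
(.lf (nat_lit 600655) (.g (nat_lit 3266) (.e (nat_lit 557100) (nat_lit 13) (.e (nat_lit 172106) (nat_lit 10) (.e (nat_lit 434231) (nat_lit 23) (.e (nat_lit 532535) (nat_lit 9) (.e (nat_lit 336250) (nat_lit 15) (.e (nat_lit 3681) (nat_lit 227) (.e (nat_lit 786176) (nat_lit 3) (.e (nat_lit 57479) (nat_lit 28) .nil)))))))) (.g (nat_lit 1) (.e (nat_lit 419600) (nat_lit 0) .nil) .nil)))) 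
(.nd (nat_lit 9) 
(.lf (nat_lit 600399) (.g (nat_lit 3790) (.e (nat_lit 557097) (nat_lit 13) (.e (nat_lit 172115) (nat_lit 10) (.e (nat_lit 434231) (nat_lit 23) (.e (nat_lit 532529) (nat_lit 9) (.e (nat_lit 336259) (nat_lit 15) (.e (nat_lit 3633) (nat_lit 227) (.e (nat_lit 778318) (nat_lit 3) (.e (nat_lit 57476) (nat_lit 28) .nil)))))))) (.g (nat_lit 1) (.e (nat_lit 419329) (nat_lit 0) .nil) .nil))) 
(.lf (nat_lit 600911) (.g (nat_lit 1728) (.e (nat_lit 557103) (nat_lit 14) (.e (nat_lit 180244) (nat_lit 5) (.e (nat_lit 532501) (nat_lit 1) (.e (nat_lit 57703) (nat_lit 164) .nil)))) (.g (nat_lit 0) (.e (nat_lit 419876) (nat_lit 0) .nil) .nil))))) (.nd (nat_lit 8) (.nd (nat_lit 9) 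
(.lf (nat_lit 600271) (.g (nat_lit 1176) (.e (nat_lit 557095) (nat_lit 13) (.e (nat_lit 172097) (nat_lit 9) (.e (nat_lit 426140) (nat_lit 3) (.e (nat_lit 204862) (nat_lit 27) .nil)))) (.g (nat_lit 0) (.e (nat_lit 419151) (nat_lit 0) .nil) .nil))) 
(.lf (nat_lit 600783) (.g (nat_lit 3820) (.e (nat_lit 557101) (nat_lit 13) (.e (nat_lit 172115) (nat_lit 10) (.e (nat_lit 434231) (nat_lit 23) (.e (nat_lit 532535) (nat_lit 9) (.e (nat_lit 336253) (nat_lit 15) (.e (nat_lit 3715) (nat_lit 227) (.e (nat_lit 778316) (nat_lit 3) (.e (nat_lit 57479) (nat_lit 28) .nil)))))))) (.g (nat_lit 1) (.e (nat_lit 419741) (nat_lit 0) .nil) .nil)))) 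
(.nd (nat_lit 9) 
(.lf (nat_lit 600527) (.g (nat_lit 3943) (.e (nat_lit 557098) (nat_lit 13) (.e (nat_lit 172115) (nat_lit 10) (.e (nat_lit 434231) (nat_lit 23) (.e (nat_lit 532535) (nat_lit 9) (.e (nat_lit 336253) (nat_lit 15) (.e (nat_lit 3715) (nat_lit 227) (.e (nat_lit 778316) (nat_lit 3) (.e (nat_lit 57480) (nat_lit 28) .nil)))))))) (.g (nat_lit 1) (.e (nat_lit 419460) (nat_lit 0) .nil) .nil))) 
(.lf (nat_lit 601039) (.g (nat_lit 3063) (.e (nat_lit 557105) (nat_lit 14) (.e (nat_lit 180252) (nat_lit 10) (.e (nat_lit 573474) (nat_lit 12) (.e (nat_lit 57347) (nat_lit 0) (.e (nat_lit 5437) (nat_lit 306) (.e (nat_lit 2461) (nat_lit 157) (.e (nat_lit 2667) (nat_lit 167) (.e (nat_lit 196670) (nat_lit 14) (.e (nat_lit 73753) (nat_lit 8) .nil))))))))) (.g (nat_lit 1) (.e (nat_lit 420062) (nat_lit 0) .nil) .nil))))))) 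
(.nd (nat_lit 6) (.nd (nat_lit 7) (.nd (nat_lit 8) (.nd (nat_lit 9) 
(.lf (nat_lit 600111) (.g (nat_lit 3710) (.e (nat_lit 557091) (nat_lit 12) (.e (nat_lit 164018) (nat_lit 45) (.e (nat_lit 696344) (nat_lit 8) (.e (nat_lit 172067) (nat_lit 3) (.e (nat_lit 204868) (nat_lit 29) (.e (nat_lit 360473) (nat_lit 8) .nil)))))) (.g (nat_lit 1) (.e (nat_lit 418912) (nat_lit 0) .nil) .nil))) 
(.lf (nat_lit 600623) (.g (nat_lit 3097) (.e (nat_lit 557100) (nat_lit 13) (.e (nat_lit 172106) (nat_lit 10) (.e (nat_lit 434227) (nat_lit 20) (.e (nat_lit 507944) (nat_lit 18) (.e (nat_lit 303143) (nat_lit 12) (.e (nat_lit 475185) (nat_lit 29) .nil)))))) (.g (nat_lit 1) (.e (nat_lit 419568) (nat_lit 0) .nil) .nil)))) (.nd (nat_lit 9) 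
(.lf (nat_lit 600367) (.g (nat_lit 3443) (.e (nat_lit 557097) (nat_lit 13) (.e (nat_lit 172115) (nat_lit 10) (.e (nat_lit 434231) (nat_lit 23) (.e (nat_lit 532490) (nat_lit 0) (.e (nat_lit 6676) (nat_lit 357) (.e (nat_lit 2856) (nat_lit 184) (.e (nat_lit 426402) (nat_lit 15) (.e (nat_lit 1848) (nat_lit 124) .nil)))))))) (.g (nat_lit 1) (.e (nat_lit 419297) (nat_lit 0) .nil) .nil))) 
(.lf (nat_lit 600879) (.g (nat_lit 3230) (.e (nat_lit 557101) (nat_lit 13) (.e (nat_lit 172115) (nat_lit 10) (.e (nat_lit 434244) (nat_lit 28) (.e (nat_lit 573468) (nat_lit 10) (.e (nat_lit 8192) (nat_lit 0) .nil))))) (.g (nat_lit 0) (.e (nat_lit 419837) (nat_lit 0) .nil) .nil))))) (.nd (nat_lit 8) (.nd (nat_lit 9) 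
(.lf (nat_lit 600239) (.g (nat_lit 3297) (.e (nat_lit 557094) (nat_lit 12) (.e (nat_lit 163849) (nat_lit 0) (.e (nat_lit 6255) (nat_lit 337) (.e (nat_lit 2630) (nat_lit 164) (.e (nat_lit 172065) (nat_lit 3) (.e (nat_lit 204868) (nat_lit 29) (.e (nat_lit 360473) (nat_lit 8) .nil))))))) (.g (nat_lit 1) (.e (nat_lit 419085) (nat_lit 0) .nil) .nil))) 
(.lf (nat_lit 600751) (.g (nat_lit 3447) (.e (nat_lit 557101) (nat_lit 13) (.e (nat_lit 172097) (nat_lit 9) (.e (nat_lit 426140) (nat_lit 3) (.e (nat_lit 204821) (nat_lit 17) (.e (nat_lit 6680) (nat_lit 357) (.e (nat_lit 3067) (nat_lit 190) (.e (nat_lit 475184) (nat_lit 29) .nil))))))) (.g (nat_lit 1) (.e (nat_lit 419709) (nat_lit 0) .nil) .nil)))) (.nd (nat_lit 9) 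
(.lf (nat_lit 600495) (.g (nat_lit 1212) (.e (nat_lit 557098) (nat_lit 13) (.e (nat_lit 172112) (nat_lit 10) (.e (nat_lit 434248) (nat_lit 28) (.e (nat_lit 573470) (nat_lit 11) .nil)))) (.g (nat_lit 0) (.e (nat_lit 419428) (nat_lit 0) .nil) .nil))) 
(.lf (nat_lit 601007) (.g (nat_lit 2239) (.e (nat_lit 557105) (nat_lit 14) (.e (nat_lit 180251) (nat_lit 10) (.e (nat_lit 573485) (nat_lit 13) (.e (nat_lit 65568) (nat_lit 2) (.e (nat_lit 98048) (nat_lit 2) (.e (nat_lit 16395) (nat_lit 0) (.e (nat_lit 7936) (nat_lit 200) .nil))))))) (.g (nat_lit 1) (.e (nat_lit 419995) (nat_lit 0) .nil) .nil)))))) 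
(.nd (nat_lit 7) (.nd (nat_lit 8) (.nd (nat_lit 9) 
(.lf (nat_lit 600175) (.g (nat_lit 2967) (.e (nat_lit 557093) (nat_lit 12) (.e (nat_lit 164018) (nat_lit 45) (.e (nat_lit 696328) (nat_lit 5) (.e (nat_lit 2980) (nat_lit 185) (.e (nat_lit 434231) (nat_lit 23) (.e (nat_lit 532549) (nat_lit 12) (.e (nat_lit 360473) (nat_lit 8) .nil))))))) (.g (nat_lit 1) (.e (nat_lit 419009) (nat_lit 0) .nil) .nil))) 
(.lf (nat_lit 600687) (.g (nat_lit 4471) (.e (nat_lit 557100) (nat_lit 13) (.e (nat_lit 172106) (nat_lit 10) (.e (nat_lit 434244) (nat_lit 28) (.e (nat_lit 573450) (nat_lit 9) (.e (nat_lit 375) (nat_lit 32) (.e (nat_lit 426317) (nat_lit 12) (.e (nat_lit 475185) (nat_lit 29) .nil))))))) (.g (nat_lit 1) (.e (nat_lit 419632) (nat_lit 0) .nil) .nil)))) (.nd (nat_lit 9) 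
(.lf (nat_lit 600431) (.g (nat_lit 3318) (.e (nat_lit 557097) (nat_lit 13) (.e (nat_lit 172115) (nat_lit 10) (.e (nat_lit 434231) (nat_lit 23) (.e (nat_lit 532535) (nat_lit 9) (.e (nat_lit 336294) (nat_lit 15) (.e (nat_lit 3629) (nat_lit 227) (.e (nat_lit 778318) (nat_lit 3) (.e (nat_lit 57476) (nat_lit 28) .nil)))))))) (.g (nat_lit 1) (.e (nat_lit 419361) (nat_lit 0) .nil) .nil))) 
(.lf (nat_lit 600943) (.g (nat_lit 2791) (.e (nat_lit 557104) (nat_lit 14) (.e (nat_lit 180250) (nat_lit 10) (.e (nat_lit 573473) (nat_lit 12) (.e (nat_lit 57504) (nat_lit 38) (.e (nat_lit 638994) (nat_lit 7) .nil))))) (.g (nat_lit 0) (.e (nat_lit 419927) (nat_lit 0) .nil) .nil))))) (.nd (nat_lit 8) (.nd (nat_lit 9) 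
(.lf (nat_lit 600303) (.g (nat_lit 1707) (.e (nat_lit 557096) (nat_lit 13) (.e (nat_lit 172106) (nat_lit 10) (.e (nat_lit 434244) (nat_lit 28) (.e (nat_lit 573458) (nat_lit 9) .nil)))) (.g (nat_lit 0) (.e (nat_lit 419226) (nat_lit 0) .nil) .nil))) 
(.lf (nat_lit 600815) (.g (nat_lit 3771) (.e (nat_lit 557101) (nat_lit 13) (.e (nat_lit 172115) (nat_lit 10) (.e (nat_lit 434244) (nat_lit 28) (.e (nat_lit 573449) (nat_lit 9) (.e (nat_lit 437) (nat_lit 32) (.e (nat_lit 426200) (nat_lit 9) (.e (nat_lit 426354) (nat_lit 15) (.e (nat_lit 1860) (nat_lit 124) .nil)))))))) (.g (nat_lit 1) (.e (nat_lit 419773) (nat_lit 0) .nil) .nil)))) 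
(.nd (nat_lit 9) 
(.lf (nat_lit 600559) (.g (nat_lit 2772) (.e (nat_lit 557098) (nat_lit 13) (.e (nat_lit 172115) (nat_lit 10) (.e (nat_lit 434244) (nat_lit 28) (.e (nat_lit 573450) (nat_lit 9) (.e (nat_lit 457) (nat_lit 34) (.e (nat_lit 450304) (nat_lit 0) (.e (nat_lit 1853) (nat_lit 124) .nil))))))) (.g (nat_lit 1) (.e (nat_lit 419494) (nat_lit 0) .nil) .nil))) 
(.lf (nat_lit 601071) (.g (nat_lit 5647) (.e (nat_lit 557105) (nat_lit 14) (.e (nat_lit 180252) (nat_lit 10) (.e (nat_lit 573474) (nat_lit 12) (.e (nat_lit 57504) (nat_lit 38) (.e (nat_lit 638996) (nat_lit 7) (.e (nat_lit 163978) (nat_lit 30) (.e (nat_lit 573489) (nat_lit 14) (.e (nat_lit 73755) (nat_lit 8) .nil)))))))) (.g (nat_lit 1) (.e (nat_lit 420121) (nat_lit 0) .nil) .nil)))))))) 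
(.nd (nat_lit 5) (.nd (nat_lit 6) (.nd (nat_lit 7) (.nd (nat_lit 8) (.nd (nat_lit 9) 
(.lf (nat_lit 600095) (.g (nat_lit 3292) (.e (nat_lit 557090) (nat_lit 12) (.e (nat_lit 164022) (nat_lit 46) (.e (nat_lit 704629) (nat_lit 9) (.e (nat_lit 442) (nat_lit 33) (.e (nat_lit 434222) (nat_lit 19) (.e (nat_lit 500059) (nat_lit 18) (.e (nat_lit 65617) (nat_lit 10) (.e (nat_lit 344130) (nat_lit 26) .nil)))))))) (.g (nat_lit 1) (.e (nat_lit 418879) (nat_lit 0) .nil) .nil))) 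
(.lf (nat_lit 600607) (.g (nat_lit 647) (.e (nat_lit 557099) (nat_lit 13) (.e (nat_lit 172124) (nat_lit 14) (.e (nat_lit 491540) (nat_lit 3) .nil))) (.g (nat_lit 0) (.e (nat_lit 419545) (nat_lit 0) .nil) .nil)))) (.nd (nat_lit 9) 
(.lf (nat_lit 600351) (.g (nat_lit 2589) (.e (nat_lit 557097) (nat_lit 13) (.e (nat_lit 172115) (nat_lit 10) (.e (nat_lit 434231) (nat_lit 23) (.e (nat_lit 532481) (nat_lit 0) (.e (nat_lit 6650) (nat_lit 357) (.e (nat_lit 2856) (nat_lit 184) (.e (nat_lit 426402) (nat_lit 15) (.e (nat_lit 1848) (nat_lit 124) .nil)))))))) (.g (nat_lit 1) (.e (nat_lit 419281) (nat_lit 0) .nil) .nil))) 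
(.lf (nat_lit 600863) (.g (nat_lit 3013) (.e (nat_lit 557101) (nat_lit 13) (.e (nat_lit 172115) (nat_lit 10) (.e (nat_lit 434244) (nat_lit 28) (.e (nat_lit 573451) (nat_lit 9) (.e (nat_lit 430) (nat_lit 32) (.e (nat_lit 426315) (nat_lit 12) (.e (nat_lit 475184) (nat_lit 29) .nil))))))) (.g (nat_lit 1) (.e (nat_lit 419821) (nat_lit 0) .nil) .nil))))) (.nd (nat_lit 8) (.nd (nat_lit 9) 
(.lf (nat_lit 600223) (.g (nat_lit 1866) (.e (nat_lit 557093) (nat_lit 12) (.e (nat_lit 164023) (nat_lit 46) (.e (nat_lit 704628) (nat_lit 9) (.e (nat_lit 375) (nat_lit 32) (.e (nat_lit 426032) (nat_lit 0) .nil))))) (.g (nat_lit 0) (.e (nat_lit 419064) (nat_lit 0) .nil) .nil))) 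
(.lf (nat_lit 600735) (.g (nat_lit 989) (.e (nat_lit 557101) (nat_lit 13) (.e (nat_lit 172067) (nat_lit 3) (.e (nat_lit 204815) (nat_lit 17) .nil))) (.g (nat_lit 0) (.e (nat_lit 419693) (nat_lit 0) .nil) .nil)))) (.nd (nat_lit 9) 
(.lf (nat_lit 600479) (.g (nat_lit 2733) (.e (nat_lit 557097) (nat_lit 13) (.e (nat_lit 172133) (nat_lit 15) (.e (nat_lit 1800) (nat_lit 119) (.e (nat_lit 516119) (nat_lit 1) (.e (nat_lit 164347) (nat_lit 240) (.e (nat_lit 2601) (nat_lit 163) (.e (nat_lit 163962) (nat_lit 25) (.e (nat_lit 532543) (nat_lit 10) (.e (nat_lit 344130) (nat_lit 26) .nil))))))))) (.g (nat_lit 1) (.e (nat_lit 419409) (nat_lit 0) .nil) .nil))) 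
(.lf (nat_lit 600991) (.g (nat_lit 2359) (.e (nat_lit 557105) (nat_lit 14) (.e (nat_lit 180251) (nat_lit 10) (.e (nat_lit 573484) (nat_lit 13) (.e (nat_lit 65568) (nat_lit 2) (.e (nat_lit 98048) (nat_lit 2) (.e (nat_lit 16391) (nat_lit 0) (.e (nat_lit 7936) (nat_lit 200) .nil))))))) (.g (nat_lit 1) (.e (nat_lit 419979) (nat_lit 0) .nil) .nil)))))) 
(.nd (nat_lit 7) (.nd (nat_lit 8) (.nd (nat_lit 9) 
(.lf (nat_lit 600159) (.g (nat_lit 4037) (.e (nat_lit 557093) (nat_lit 12) (.e (nat_lit 163849) (nat_lit 0) (.e (nat_lit 6255) (nat_lit 337) (.e (nat_lit 2630) (nat_lit 164) (.e (nat_lit 172067) (nat_lit 3) (.e (nat_lit 204868) (nat_lit 29) (.e (nat_lit 360473) (nat_lit 8) .nil))))))) (.g (nat_lit 1) (.e (nat_lit 418982) (nat_lit 0) .nil) .nil))) 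
(.lf (nat_lit 600671) (.g (nat_lit 4034) (.e (nat_lit 557100) (nat_lit 13) (.e (nat_lit 172106) (nat_lit 10) (.e (nat_lit 434231) (nat_lit 23) (.e (nat_lit 532567) (nat_lit 16) (.e (nat_lit 401450) (nat_lit 12) (.e (nat_lit 475185) (nat_lit 29) .nil)))))) (.g (nat_lit 1) (.e (nat_lit 419616) (nat_lit 0) .nil) .nil)))) (.nd (nat_lit 9) 
(.lf (nat_lit 600415) (.g (nat_lit 3970) (.e (nat_lit 557097) (nat_lit 13) (.e (nat_lit 172115) (nat_lit 10) (.e (nat_lit 434231) (nat_lit 23) (.e (nat_lit 532529) (nat_lit 9) (.e (nat_lit 336303) (nat_lit 15) (.e (nat_lit 3619) (nat_lit 227) (.e (nat_lit 778318) (nat_lit 3) (.e (nat_lit 57476) (nat_lit 28) .nil)))))))) (.g (nat_lit 1) (.e (nat_lit 419345) (nat_lit 0) .nil) .nil))) 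
(.lf (nat_lit 600927) (.g (nat_lit 2264) (.e (nat_lit 557103) (nat_lit 14) (.e (nat_lit 180250) (nat_lit 10) (.e (nat_lit 573481) (nat_lit 13) (.e (nat_lit 65568) (nat_lit 2) (.e (nat_lit 98048) (nat_lit 2) (.e (nat_lit 16388) (nat_lit 0) (.e (nat_lit 3280) (nat_lit 200) .nil))))))) (.g (nat_lit 1) (.e (nat_lit 419893) (nat_lit 0) .nil) .nil))))) (.nd (nat_lit 8) (.nd (nat_lit 9) 
(.lf (nat_lit 600287) (.g (nat_lit 1842) (.e (nat_lit 557095) (nat_lit 13) (.e (nat_lit 172115) (nat_lit 10) (.e (nat_lit 434231) (nat_lit 23) (.e (nat_lit 532535) (nat_lit 9) (.e (nat_lit 336295) (nat_lit 15) .nil))))) (.g (nat_lit 0) (.e (nat_lit 419182) (nat_lit 0) .nil) .nil))) 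
(.lf (nat_lit 600799) (.g (nat_lit 2369) (.e (nat_lit 557101) (nat_lit 13) (.e (nat_lit 172115) (nat_lit 10) (.e (nat_lit 434238) (nat_lit 25) (.e (nat_lit 548898) (nat_lit 14) (.e (nat_lit 2869) (nat_lit 184) (.e (nat_lit 426312) (nat_lit 12) (.e (nat_lit 475185) (nat_lit 29) .nil))))))) (.g (nat_lit 1) (.e (nat_lit 419757) (nat_lit 0) .nil) .nil)))) (.nd (nat_lit 9) 
(.lf (nat_lit 600543) (.g (nat_lit 2418) (.e (nat_lit 557098) (nat_lit 13) (.e (nat_lit 172115) (nat_lit 10) (.e (nat_lit 434244) (nat_lit 28) (.e (nat_lit 573449) (nat_lit 9) (.e (nat_lit 457) (nat_lit 34) (.e (nat_lit 442368) (nat_lit 0) (.e (nat_lit 1861) (nat_lit 124) .nil))))))) (.g (nat_lit 1) (.e (nat_lit 419476) (nat_lit 0) .nil) .nil))) 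
(.lf (nat_lit 601055) (.g (nat_lit 5680) (.e (nat_lit 557105) (nat_lit 14) (.e (nat_lit 180252) (nat_lit 10) (.e (nat_lit 573474) (nat_lit 12) (.e (nat_lit 57503) (nat_lit 38) (.e (nat_lit 638995) (nat_lit 7) (.e (nat_lit 163977) (nat_lit 30) (.e (nat_lit 573489) (nat_lit 14) (.e (nat_lit 73755) (nat_lit 8) .nil)))))))) (.g (nat_lit 1) (.e (nat_lit 420104) (nat_lit 0) .nil) .nil))))))) 
(.nd (nat_lit 6) (.nd (nat_lit 7) (.nd (nat_lit 8) (.nd (nat_lit 9) 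
(.lf (nat_lit 600127) (.g (nat_lit 1914) (.e (nat_lit 557091) (nat_lit 12) (.e (nat_lit 164022) (nat_lit 46) (.e (nat_lit 704629) (nat_lit 9) (.e (nat_lit 375) (nat_lit 32) (.e (nat_lit 426125) (nat_lit 2) .nil))))) (.g (nat_lit 0) (.e (nat_lit 418935) (nat_lit 0) .nil) .nil))) 
(.lf (nat_lit 600639) (.g (nat_lit 2601) (.e (nat_lit 557100) (nat_lit 13) (.e (nat_lit 172106) (nat_lit 10) (.e (nat_lit 434231) (nat_lit 23) (.e (nat_lit 532490) (nat_lit 0) (.e (nat_lit 6674) (nat_lit 357) (.e (nat_lit 2941) (nat_lit 184) (.e (nat_lit 433920) (nat_lit 15) (.e (nat_lit 1858) (nat_lit 124) .nil)))))))) (.g (nat_lit 1) (.e (nat_lit 419584) (nat_lit 0) .nil) .nil)))) 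
(.nd (nat_lit 9) 
(.lf (nat_lit 600383) (.g (nat_lit 3652) (.e (nat_lit 557097) (nat_lit 13) (.e (nat_lit 172115) (nat_lit 10) (.e (nat_lit 434231) (nat_lit 23) (.e (nat_lit 532529) (nat_lit 9) (.e (nat_lit 336257) (nat_lit 15) (.e (nat_lit 3619) (nat_lit 227) (.e (nat_lit 778318) (nat_lit 3) (.e (nat_lit 57476) (nat_lit 28) .nil)))))))) (.g (nat_lit 1) (.e (nat_lit 419313) (nat_lit 0) .nil) .nil))) 
(.lf (nat_lit 600895) (.g (nat_lit 3736) (.e (nat_lit 557101) (nat_lit 13) (.e (nat_lit 172115) (nat_lit 10) (.e (nat_lit 434244) (nat_lit 28) (.e (nat_lit 573474) (nat_lit 12) (.e (nat_lit 57347) (nat_lit 0) .nil))))) (.g (nat_lit 0) (.e (nat_lit 419853) (nat_lit 0) .nil) .nil))))) (.nd (nat_lit 8) (.nd (nat_lit 9) 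
(.lf (nat_lit 600255) (.g (nat_lit 3426) (.e (nat_lit 557094) (nat_lit 12) (.e (nat_lit 164022) (nat_lit 46) (.e (nat_lit 704629) (nat_lit 9) (.e (nat_lit 442) (nat_lit 33) (.e (nat_lit 434230) (nat_lit 23) .nil))))) (.g (nat_lit 0) (.e (nat_lit 419125) (nat_lit 0) .nil) .nil))) 
(.lf (nat_lit 600767) (.g (nat_lit 2675) (.e (nat_lit 557101) (nat_lit 13) (.e (nat_lit 172115) (nat_lit 10) (.e (nat_lit 434231) (nat_lit 23) (.e (nat_lit 532490) (nat_lit 0) (.e (nat_lit 6648) (nat_lit 357) .nil))))) (.g (nat_lit 0) (.e (nat_lit 419725) (nat_lit 0) .nil) .nil)))) (.nd (nat_lit 9) 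
(.lf (nat_lit 600511) (.g (nat_lit 2501) (.e (nat_lit 557098) (nat_lit 13) (.e (nat_lit 172115) (nat_lit 10) (.e (nat_lit 434231) (nat_lit 23) (.e (nat_lit 532490) (nat_lit 0) (.e (nat_lit 6680) (nat_lit 357) (.e (nat_lit 2854) (nat_lit 184) (.e (nat_lit 426402) (nat_lit 15) (.e (nat_lit 1849) (nat_lit 124) .nil)))))))) (.g (nat_lit 1) (.e (nat_lit 419444) (nat_lit 0) .nil) .nil))) 
(.lf (nat_lit 601023) (.g (nat_lit 4363) (.e (nat_lit 557105) (nat_lit 14) (.e (nat_lit 180252) (nat_lit 10) (.e (nat_lit 573473) (nat_lit 12) (.e (nat_lit 57501) (nat_lit 37) (.e (nat_lit 630800) (nat_lit 7) (.e (nat_lit 163977) (nat_lit 30) (.e (nat_lit 573489) (nat_lit 14) (.e (nat_lit 73755) (nat_lit 8) .nil)))))))) (.g (nat_lit 1) (.e (nat_lit 420032) (nat_lit 0) .nil) .nil)))))) 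
(.nd (nat_lit 7) (.nd (nat_lit 8) (.nd (nat_lit 9) 
(.lf (nat_lit 600191) (.g (nat_lit 3352) (.e (nat_lit 557093) (nat_lit 12) (.e (nat_lit 164018) (nat_lit 45) (.e (nat_lit 696343) (nat_lit 8) (.e (nat_lit 172067) (nat_lit 3) (.e (nat_lit 204868) (nat_lit 29) (.e (nat_lit 360473) (nat_lit 8) .nil)))))) (.g (nat_lit 1) (.e (nat_lit 419029) (nat_lit 0) .nil) .nil))) 
(.lf (nat_lit 600703) (.g (nat_lit 2121) (.e (nat_lit 557100) (nat_lit 13) (.e (nat_lit 172113) (nat_lit 10) (.e (nat_lit 434245) (nat_lit 28) (.e (nat_lit 573470) (nat_lit 11) (.e (nat_lit 16455) (nat_lit 12) (.e (nat_lit 475185) (nat_lit 29) .nil)))))) (.g (nat_lit 1) (.e (nat_lit 419648) (nat_lit 0) .nil) .nil)))) (.nd (nat_lit 9) 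
(.lf (nat_lit 600447) (.g (nat_lit 3530) (.e (nat_lit 557097) (nat_lit 13) (.e (nat_lit 172115) (nat_lit 10) (.e (nat_lit 434244) (nat_lit 28) (.e (nat_lit 573450) (nat_lit 9) (.e (nat_lit 375) (nat_lit 32) (.e (nat_lit 426201) (nat_lit 9) (.e (nat_lit 426402) (nat_lit 15) (.e (nat_lit 1849) (nat_lit 124) .nil)))))))) (.g (nat_lit 1) (.e (nat_lit 419377) (nat_lit 0) .nil) .nil))) 
(.lf (nat_lit 600959) (.g (nat_lit 3560) (.e (nat_lit 557104) (nat_lit 14) (.e (nat_lit 180252) (nat_lit 10) (.e (nat_lit 573474) (nat_lit 12) (.e (nat_lit 57503) (nat_lit 38) (.e (nat_lit 638995) (nat_lit 7) (.e (nat_lit 163977) (nat_lit 30) (.e (nat_lit 573489) (nat_lit 14) (.e (nat_lit 73755) (nat_lit 8) .nil)))))))) (.g (nat_lit 1) (.e (nat_lit 419943) (nat_lit 0) .nil) .nil))))) 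
(.nd (nat_lit 8) (.nd (nat_lit 9) 
(.lf (nat_lit 600319) (.g (nat_lit 2141) (.e (nat_lit 557096) (nat_lit 13) (.e (nat_lit 172133) (nat_lit 15) (.e (nat_lit 1800) (nat_lit 119) (.e (nat_lit 516119) (nat_lit 1) (.e (nat_lit 164347) (nat_lit 240) .nil))))) (.g (nat_lit 0) (.e (nat_lit 419242) (nat_lit 0) .nil) .nil))) 
(.lf (nat_lit 600831) (.g (nat_lit 3340) (.e (nat_lit 557101) (nat_lit 13) (.e (nat_lit 172115) (nat_lit 10) (.e (nat_lit 434244) (nat_lit 28) (.e (nat_lit 573450) (nat_lit 9) (.e (nat_lit 375) (nat_lit 32) (.e (nat_lit 426201) (nat_lit 9) (.e (nat_lit 426363) (nat_lit 15) (.e (nat_lit 1858) (nat_lit 124) .nil)))))))) (.g (nat_lit 1) (.e (nat_lit 419789) (nat_lit 0) .nil) .nil)))) 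
(.nd (nat_lit 9) 
(.lf (nat_lit 600575) (.g (nat_lit 2574) (.e (nat_lit 557098) (nat_lit 13) (.e (nat_lit 172115) (nat_lit 10) (.e (nat_lit 434244) (nat_lit 28) (.e (nat_lit 573458) (nat_lit 9) (.e (nat_lit 426) (nat_lit 32) (.e (nat_lit 426197) (nat_lit 9) (.e (nat_lit 426402) (nat_lit 15) (.e (nat_lit 1849) (nat_lit 124) .nil)))))))) (.g (nat_lit 1) (.e (nat_lit 419510) (nat_lit 0) .nil) .nil))) 
(.lf (nat_lit 601087) (.g (nat_lit 2134) (.e (nat_lit 557105) (nat_lit 14) (.e (nat_lit 180252) (nat_lit 10) (.e (nat_lit 573480) (nat_lit 13) (.e (nat_lit 65568) (nat_lit 2) (.e (nat_lit 98048) (nat_lit 2) (.e (nat_lit 16392) (nat_lit 0) (.e (nat_lit 7936) (nat_lit 200) .nil))))))) (.g (nat_lit 1) (.e (nat_lit 420144) (nat_lit 0) .nil) .nil)))))))))))))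

noncomputable def tv5647 : DT := (.nd (nat_lit 0) (.nd (nat_lit 1) (.nd (nat_lit 2) (.nd (nat_lit 3) (.nd (nat_lit 4) (.nd (nat_lit 5) (.nd (nat_lit 6) (.nd (nat_lit 7) (.nd (nat_lit 8) (.nd (nat_lit 9) 
(.lf (nat_lit 601088) (.g (nat_lit 1900) (.e (nat_lit 557105) (nat_lit 14) (.e (nat_lit 180252) (nat_lit 10) (.e (nat_lit 573480) (nat_lit 13) (.e (nat_lit 65568) (nat_lit 2) (.e (nat_lit 98048) (nat_lit 2) (.e (nat_lit 16400) (nat_lit 0) (.e (nat_lit 7936) (nat_lit 200) .nil))))))) (.g (nat_lit 1) (.e (nat_lit 420145) (nat_lit 0) .nil) .nil))) 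
(.lf (nat_lit 601600) (.g (nat_lit 497) (.e (nat_lit 639008) (nat_lit 13) (.e (nat_lit 1595) (nat_lit 111) (.e (nat_lit 360448) (nat_lit 0) .nil))) (.g (nat_lit 0) (.e (nat_lit 421666) (nat_lit 0) .nil) .nil)))) (.nd (nat_lit 9) 
(.lf (nat_lit 601344) (.g (nat_lit 2785) (.e (nat_lit 565267) (nat_lit 4) (.e (nat_lit 65619) (nat_lit 10) (.e (nat_lit 344090) (nat_lit 18) (.e (nat_lit 7708) (nat_lit 414) (.e (nat_lit 163908) (nat_lit 12) (.e (nat_lit 426286) (nat_lit 10) (.e (nat_lit 434241) (nat_lit 27) .nil))))))) (.g (nat_lit 1) (.e (nat_lit 420524) (nat_lit 0) .nil) .nil))) 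
(.lf (nat_lit 601856) (.g (nat_lit 2430) (.e (nat_lit 663555) (nat_lit 0) (.e (nat_lit 1234) (nat_lit 91) (.e (nat_lit 90174) (nat_lit 14) (.e (nat_lit 180251) (nat_lit 10) (.e (nat_lit 573489) (nat_lit 14) .nil))))) (.g (nat_lit 0) (.e (nat_lit 422805) (nat_lit 0) .nil) .nil))))) (.nd (nat_lit 8) (.nd (nat_lit 9) 
(.lf (nat_lit 601216) (.g (nat_lit 1420) (.e (nat_lit 557107) (nat_lit 15) (.e (nat_lit 188450) (nat_lit 23) (.e (nat_lit 204846) (nat_lit 24) (.e (nat_lit 319502) (nat_lit 10) .nil)))) (.g (nat_lit 0) (.e (nat_lit 420298) (nat_lit 0) .nil) .nil))) 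
(.lf (nat_lit 601728) (.g (nat_lit 976) (.e (nat_lit 638986) (nat_lit 5) (.e (nat_lit 3027) (nat_lit 187) (.e (nat_lit 450564) (nat_lit 0) (.e (nat_lit 5190) (nat_lit 294) .nil)))) (.g (nat_lit 0) (.e (nat_lit 422159) (nat_lit 0) .nil) .nil)))) (.nd (nat_lit 9) 
(.lf (nat_lit 601472) (.g (nat_lit 1497) (.e (nat_lit 622607) (nat_lit 5) (.e (nat_lit 1232) (nat_lit 91) (.e (nat_lit 90170) (nat_lit 13) (.e (nat_lit 172106) (nat_lit 10) (.e (nat_lit 434231) (nat_lit 23) .nil))))) (.g (nat_lit 0) (.e (nat_lit 421300) (nat_lit 0) .nil) .nil))) 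
(.lf (nat_lit 601984) (.g (nat_lit 1717) (.e (nat_lit 663567) (nat_lit 4) (.e (nat_lit 65628) (nat_lit 14) (.e (nat_lit 401458) (nat_lit 13) (.e (nat_lit 483395) (nat_lit 24) (.e (nat_lit 352000) (nat_lit 39) .nil))))) (.g (nat_lit 0) (.e (nat_lit 422957) (nat_lit 0) .nil) .nil)))))) (.nd (nat_lit 7) (.nd (nat_lit 8) (.nd (nat_lit 9) 
(.lf (nat_lit 601152) (.g (nat_lit 4698) (.e (nat_lit 557105) (nat_lit 14) (.e (nat_lit 180252) (nat_lit 10) (.e (nat_lit 573489) (nat_lit 14) (.e (nat_lit 73755) (nat_lit 8) (.e (nat_lit 557119) (nat_lit 18) (.e (nat_lit 2798) (nat_lit 180) (.e (nat_lit 303112) (nat_lit 0) (.e (nat_lit 7936) (nat_lit 200) .nil)))))))) (.g (nat_lit 1) (.e (nat_lit 420209) (nat_lit 0) .nil) .nil))) 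
(.lf (nat_lit 601664) (.g (nat_lit 2518) (.e (nat_lit 639021) (nat_lit 16) (.e (nat_lit 65604) (nat_lit 9) (.e (nat_lit 335997) (nat_lit 1) (.e (nat_lit 57857) (nat_lit 254) (.e (nat_lit 163920) (nat_lit 14) (.e (nat_lit 442412) (nat_lit 20) (.e (nat_lit 3391) (nat_lit 210) .nil))))))) (.g (nat_lit 1) (.e (nat_lit 421853) (nat_lit 0) .nil) .nil)))) (.nd (nat_lit 9) 
(.lf (nat_lit 601408) (.g (nat_lit 1733) (.e (nat_lit 598065) (nat_lit 20) (.e (nat_lit 237587) (nat_lit 2) (.e (nat_lit 196672) (nat_lit 15) (.e (nat_lit 81954) (nat_lit 23) (.e (nat_lit 98321) (nat_lit 17) (.e (nat_lit 7936) (nat_lit 205) .nil)))))) (.g (nat_lit 1) (.e (nat_lit 420872) (nat_lit 0) .nil) .nil))) 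
(.lf (nat_lit 601920) (.g (nat_lit 1733) (.e (nat_lit 663566) (nat_lit 4) (.e (nat_lit 65630) (nat_lit 14) (.e (nat_lit 401438) (nat_lit 9) (.e (nat_lit 426544) (nat_lit 30) (.e (nat_lit 368384) (nat_lit 17) .nil))))) (.g (nat_lit 0) (.e (nat_lit 422893) (nat_lit 0) .nil) .nil))))) (.nd (nat_lit 8) (.nd (nat_lit 9) 
(.lf (nat_lit 601280) (.g (nat_lit 3601) (.e (nat_lit 557119) (nat_lit 18) (.e (nat_lit 2798) (nat_lit 180) (.e (nat_lit 303145) (nat_lit 13) (.e (nat_lit 483346) (nat_lit 17) (.e (nat_lit 976) (nat_lit 81) (.e (nat_lit 6892) (nat_lit 371) (.e (nat_lit 1208) (nat_lit 89) (.e (nat_lit 73755) (nat_lit 8) .nil)))))))) (.g (nat_lit 1) (.e (nat_lit 420393) (nat_lit 0) .nil) .nil))) 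
(.lf (nat_lit 601792) (.g (nat_lit 2577) (.e (nat_lit 638996) (nat_lit 7) (.e (nat_lit 163979) (nat_lit 30) (.e (nat_lit 573489) (nat_lit 14) (.e (nat_lit 73753) (nat_lit 8) (.e (nat_lit 557103) (nat_lit 14) .nil))))) (.g (nat_lit 0) (.e (nat_lit 422491) (nat_lit 0) .nil) .nil)))) (.nd (nat_lit 9) 
(.lf (nat_lit 601536) (.g (nat_lit 1428) (.e (nat_lit 630821) (nat_lit 16) (.e (nat_lit 65617) (nat_lit 10) (.e (nat_lit 344164) (nat_lit 37) (.e (nat_lit 647195) (nat_lit 9) (.e (nat_lit 7936) (nat_lit 35) .nil))))) (.g (nat_lit 0) (.e (nat_lit 421382) (nat_lit 0) .nil) .nil))) 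
(.lf (nat_lit 602048) (.g (nat_lit 2400) (.e (nat_lit 663567) (nat_lit 4) (.e (nat_lit 65630) (nat_lit 14) (.e (nat_lit 401459) (nat_lit 13) (.e (nat_lit 483387) (nat_lit 23) (.e (nat_lit 335891) (nat_lit 0) .nil))))) (.g (nat_lit 0) (.e (nat_lit 423021) (nat_lit 0) .nil) .nil))))))) (.nd (nat_lit 6) (.nd (nat_lit 7) (.nd (nat_lit 8) (.nd (nat_lit 9) 
(.lf (nat_lit 601120) (.g (nat_lit 3314) (.e (nat_lit 557105) (nat_lit 14) (.e (nat_lit 180252) (nat_lit 10) (.e (nat_lit 573482) (nat_lit 13) (.e (nat_lit 65568) (nat_lit 2) (.e (nat_lit 98048) (nat_lit 2) (.e (nat_lit 16392) (nat_lit 0) (.e (nat_lit 7936) (nat_lit 200) .nil))))))) (.g (nat_lit 1) (.e (nat_lit 420177) (nat_lit 0) .nil) .nil))) 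
(.lf (nat_lit 601632) (.g (nat_lit 1288) (.e (nat_lit 639020) (nat_lit 16) (.e (nat_lit 65583) (nat_lit 7) (.e (nat_lit 319506) (nat_lit 10) (.e (nat_lit 5019) (nat_lit 290) .nil)))) (.g (nat_lit 0) (.e (nat_lit 421724) (nat_lit 0) .nil) .nil)))) (.nd (nat_lit 9) 
(.lf (nat_lit 601376) (.g (nat_lit 436) (.e (nat_lit 565268) (nat_lit 5) (.e (nat_lit 73791) (nat_lit 45) (.e (nat_lit 1162) (nat_lit 86) (.e (nat_lit 49156) (nat_lit 0) (.e (nat_lit 3012) (nat_lit 187) (.e (nat_lit 458496) (nat_lit 9) .nil)))))) (.g (nat_lit 1) (.e (nat_lit 420567) (nat_lit 0) .nil) .nil))) 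
(.lf (nat_lit 601888) (.g (nat_lit 2273) (.e (nat_lit 663565) (nat_lit 3) (.e (nat_lit 57479) (nat_lit 28) (.e (nat_lit 557101) (nat_lit 13) (.e (nat_lit 172097) (nat_lit 9) (.e (nat_lit 426140) (nat_lit 3) .nil))))) (.g (nat_lit 0) (.e (nat_lit 422858) (nat_lit 0) .nil) .nil))))) (.nd (nat_lit 8) (.nd (nat_lit 9) 
(.lf (nat_lit 601248) (.g (nat_lit 847) (.e (nat_lit 557109) (nat_lit 15) (.e (nat_lit 188449) (nat_lit 22) (.e (nat_lit 196660) (nat_lit 12) .nil))) (.g (nat_lit 0) (.e (nat_lit 420331) (nat_lit 0) .nil) .nil))) 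
(.lf (nat_lit 601760) (.g (nat_lit 2725) (.e (nat_lit 638995) (nat_lit 7) (.e (nat_lit 163979) (nat_lit 30) (.e (nat_lit 573487) (nat_lit 14) (.e (nat_lit 73755) (nat_lit 8) (.e (nat_lit 557103) (nat_lit 14) .nil))))) (.g (nat_lit 0) (.e (nat_lit 422283) (nat_lit 0) .nil) .nil)))) (.nd (nat_lit 9) 
(.lf (nat_lit 601504) (.g (nat_lit 2027) (.e (nat_lit 630821) (nat_lit 16) (.e (nat_lit 65586) (nat_lit 7) (.e (nat_lit 319531) (nat_lit 16) (.e (nat_lit 286727) (nat_lit 0) (.e (nat_lit 6646) (nat_lit 357) (.e (nat_lit 2962) (nat_lit 185) (.e (nat_lit 434266) (nat_lit 35) .nil))))))) (.g (nat_lit 1) (.e (nat_lit 421348) (nat_lit 0) .nil) .nil))) 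
(.lf (nat_lit 602016) (.g (nat_lit 2430) (.e (nat_lit 663567) (nat_lit 4) (.e (nat_lit 65630) (nat_lit 14) (.e (nat_lit 401437) (nat_lit 9) (.e (nat_lit 426540) (nat_lit 29) (.e (nat_lit 352287) (nat_lit 20) (.e (nat_lit 1999) (nat_lit 137) .nil)))))) (.g (nat_lit 1) (.e (nat_lit 422989) (nat_lit 0) .nil) .nil)))))) (.nd (nat_lit 7) (.nd (nat_lit 8) (.nd (nat_lit 9) 
(.lf (nat_lit 601184) (.g (nat_lit 3120) (.e (nat_lit 557107) (nat_lit 15) (.e (nat_lit 188439) (nat_lit 20) (.e (nat_lit 3272) (nat_lit 199) (.e (nat_lit 548898) (nat_lit 14) (.e (nat_lit 2988) (nat_lit 186) (.e (nat_lit 442374) (nat_lit 0) (.e (nat_lit 1856) (nat_lit 124) .nil))))))) (.g (nat_lit 1) (.e (nat_lit 420266) (nat_lit 0) .nil) .nil))) 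
(.lf (nat_lit 601696) (.g (nat_lit 398) (.e (nat_lit 639023) (nat_lit 18) (.e (nat_lit 81938) (nat_lit 20) (.e (nat_lit 1962) (nat_lit 134) .nil))) (.g (nat_lit 0) (.e (nat_lit 422048) (nat_lit 0) .nil) .nil)))) (.nd (nat_lit 9) 
(.lf (nat_lit 601440) (.g (nat_lit 2207) (.e (nat_lit 622624) (nat_lit 13) (.e (nat_lit 2668) (nat_lit 167) (.e (nat_lit 196666) (nat_lit 13) (.e (nat_lit 65610) (nat_lit 10) (.e (nat_lit 344117) (nat_lit 21) .nil))))) (.g (nat_lit 0) (.e (nat_lit 421176) (nat_lit 0) .nil) .nil))) 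
(.lf (nat_lit 601952) (.g (nat_lit 2066) (.e (nat_lit 663567) (nat_lit 4) (.e (nat_lit 65628) (nat_lit 14) (.e (nat_lit 401437) (nat_lit 9) (.e (nat_lit 426515) (nat_lit 27) .nil)))) (.g (nat_lit 0) (.e (nat_lit 422925) (nat_lit 0) .nil) .nil))))) (.nd (nat_lit 8) (.nd (nat_lit 9) 
(.lf (nat_lit 601312) (.g (nat_lit 612) (.e (nat_lit 565265) (nat_lit 4) (.e (nat_lit 65619) (nat_lit 10) (.e (nat_lit 344090) (nat_lit 18) .nil))) (.g (nat_lit 0) (.e (nat_lit 420457) (nat_lit 0) .nil) .nil))) 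
(.lf (nat_lit 601824) (.g (nat_lit 1866) (.e (nat_lit 638999) (nat_lit 8) (.e (nat_lit 172106) (nat_lit 10) (.e (nat_lit 434275) (nat_lit 39) (.e (nat_lit 663574) (nat_lit 9) (.e (nat_lit 7936) (nat_lit 23) .nil))))) (.g (nat_lit 0) (.e (nat_lit 422710) (nat_lit 0) .nil) .nil)))) (.nd (nat_lit 9) 
(.lf (nat_lit 601568) (.g (nat_lit 1127) (.e (nat_lit 630802) (nat_lit 8) (.e (nat_lit 172082) (nat_lit 7) (.e (nat_lit 409636) (nat_lit 14) (.e (nat_lit 270373) (nat_lit 16) (.e (nat_lit 286753) (nat_lit 10) (.e (nat_lit 344154) (nat_lit 35) .nil)))))) (.g (nat_lit 1) (.e (nat_lit 421534) (nat_lit 0) .nil) .nil))) 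
(.lf (nat_lit 602080) (.g (nat_lit 1606) (.e (nat_lit 663569) (nat_lit 6) (.e (nat_lit 81922) (nat_lit 0) (.e (nat_lit 3748) (nat_lit 228) (.e (nat_lit 786483) (nat_lit 30) (.e (nat_lit 368384) (nat_lit 17) .nil))))) (.g (nat_lit 1) (.e (nat_lit 423056) (nat_lit 0) .nil) .nil)))))))) (.nd (nat_lit 5) (.nd (nat_lit 6) (.nd (nat_lit 7) (.nd (nat_lit 8) (.nd (nat_lit 9) 
(.lf (nat_lit 601104) (.g (nat_lit 2241) (.e (nat_lit 557105) (nat_lit 14) (.e (nat_lit 180252) (nat_lit 10) (.e (nat_lit 573481) (nat_lit 13) (.e (nat_lit 65568) (nat_lit 2) (.e (nat_lit 98048) (nat_lit 2) (.e (nat_lit 16401) (nat_lit 0) (.e (nat_lit 7936) (nat_lit 200) .nil))))))) (.g (nat_lit 1) (.e (nat_lit 420161) (nat_lit 0) .nil) .nil))) 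
(.lf (nat_lit 601616) (.g (nat_lit 441) (.e (nat_lit 639019) (nat_lit 16) (.e (nat_lit 65598) (nat_lit 9) (.e (nat_lit 335997) (nat_lit 1) .nil))) (.g (nat_lit 0) (.e (nat_lit 421697) (nat_lit 0) .nil) .nil)))) (.nd (nat_lit 9) 
(.lf (nat_lit 601360) (.g (nat_lit 1002) (.e (nat_lit 565267) (nat_lit 4) (.e (nat_lit 65620) (nat_lit 10) (.e (nat_lit 344183) (nat_lit 49) (.e (nat_lit 819221) (nat_lit 6) (.e (nat_lit 188439) (nat_lit 20) (.e (nat_lit 3288) (nat_lit 201) .nil)))))) (.g (nat_lit 1) (.e (nat_lit 420549) (nat_lit 0) .nil) .nil))) 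
(.lf (nat_lit 601872) (.g (nat_lit 2680) (.e (nat_lit 663559) (nat_lit 0) (.e (nat_lit 1234) (nat_lit 91) (.e (nat_lit 90172) (nat_lit 14) (.e (nat_lit 180250) (nat_lit 10) (.e (nat_lit 573487) (nat_lit 14) .nil))))) (.g (nat_lit 0) (.e (nat_lit 422828) (nat_lit 0) .nil) .nil))))) (.nd (nat_lit 8) (.nd (nat_lit 9) 
(.lf (nat_lit 601232) (.g (nat_lit 3803) (.e (nat_lit 557108) (nat_lit 15) (.e (nat_lit 188452) (nat_lit 23) (.e (nat_lit 204846) (nat_lit 24) (.e (nat_lit 319533) (nat_lit 16) (.e (nat_lit 286765) (nat_lit 15) (.e (nat_lit 7936) (nat_lit 200) .nil)))))) (.g (nat_lit 1) (.e (nat_lit 420314) (nat_lit 0) .nil) .nil))) 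
(.lf (nat_lit 601744) (.g (nat_lit 3599) (.e (nat_lit 638995) (nat_lit 7) (.e (nat_lit 163978) (nat_lit 30) (.e (nat_lit 573487) (nat_lit 14) (.e (nat_lit 73754) (nat_lit 8) (.e (nat_lit 557105) (nat_lit 14) (.e (nat_lit 180251) (nat_lit 10) (.e (nat_lit 573475) (nat_lit 12) (.e (nat_lit 57503) (nat_lit 38) .nil)))))))) (.g (nat_lit 1) (.e (nat_lit 422227) (nat_lit 0) .nil) .nil)))) 
(.nd (nat_lit 9) 
(.lf (nat_lit 601488) (.g (nat_lit 1004) (.e (nat_lit 630820) (nat_lit 16) (.e (nat_lit 65617) (nat_lit 10) (.e (nat_lit 344164) (nat_lit 37) (.e (nat_lit 647190) (nat_lit 9) .nil)))) (.g (nat_lit 0) (.e (nat_lit 421328) (nat_lit 0) .nil) .nil))) 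
(.lf (nat_lit 602000) (.g (nat_lit 2074) (.e (nat_lit 663567) (nat_lit 4) (.e (nat_lit 65630) (nat_lit 14) (.e (nat_lit 401437) (nat_lit 9) (.e (nat_lit 426478) (nat_lit 27) .nil)))) (.g (nat_lit 0) (.e (nat_lit 422973) (nat_lit 0) .nil) .nil)))))) (.nd (nat_lit 7) (.nd (nat_lit 8) (.nd (nat_lit 9) 
(.lf (nat_lit 601168) (.g (nat_lit 716) (.e (nat_lit 557106) (nat_lit 15) (.e (nat_lit 188452) (nat_lit 23) (.e (nat_lit 204885) (nat_lit 33) (.e (nat_lit 401440) (nat_lit 9) .nil)))) (.g (nat_lit 0) (.e (nat_lit 420249) (nat_lit 0) .nil) .nil))) 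
(.lf (nat_lit 601680) (.g (nat_lit 1945) (.e (nat_lit 639021) (nat_lit 16) (.e (nat_lit 65617) (nat_lit 10) (.e (nat_lit 344161) (nat_lit 37) (.e (nat_lit 647195) (nat_lit 9) (.e (nat_lit 7936) (nat_lit 35) .nil))))) (.g (nat_lit 0) (.e (nat_lit 421971) (nat_lit 0) .nil) .nil)))) (.nd (nat_lit 9) 
(.lf (nat_lit 601424) (.g (nat_lit 2110) (.e (nat_lit 614435) (nat_lit 11) (.e (nat_lit 16466) (nat_lit 13) (.e (nat_lit 483413) (nat_lit 27) (.e (nat_lit 401451) (nat_lit 12) .nil)))) (.g (nat_lit 0) (.e (nat_lit 421120) (nat_lit 0) .nil) .nil))) 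
(.lf (nat_lit 601936) (.g (nat_lit 2185) (.e (nat_lit 663567) (nat_lit 4) (.e (nat_lit 65620) (nat_lit 10) (.e (nat_lit 344169) (nat_lit 40) (.e (nat_lit 671764) (nat_lit 6) (.e (nat_lit 81935) (nat_lit 20) (.e (nat_lit 1999) (nat_lit 137) .nil)))))) (.g (nat_lit 1) (.e (nat_lit 422909) (nat_lit 0) .nil) .nil))))) (.nd (nat_lit 8) (.nd (nat_lit 9) 
(.lf (nat_lit 601296) (.g (nat_lit 1491) (.e (nat_lit 565252) (nat_lit 0) (.e (nat_lit 1586) (nat_lit 111) (.e (nat_lit 360451) (nat_lit 0) (.e (nat_lit 7605) (nat_lit 410) .nil)))) (.g (nat_lit 0) (.e (nat_lit 420421) (nat_lit 0) .nil) .nil))) 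
(.lf (nat_lit 601808) (.g (nat_lit 4190) (.e (nat_lit 638998) (nat_lit 8) (.e (nat_lit 172120) (nat_lit 12) (.e (nat_lit 475221) (nat_lit 45) (.e (nat_lit 745509) (nat_lit 11) (.e (nat_lit 24640) (nat_lit 10) (.e (nat_lit 344156) (nat_lit 36) .nil)))))) (.g (nat_lit 1) (.e (nat_lit 422552) (nat_lit 0) .nil) .nil)))) (.nd (nat_lit 9) 
(.lf (nat_lit 601552) (.g (nat_lit 2770) (.e (nat_lit 630799) (nat_lit 7) (.e (nat_lit 163979) (nat_lit 30) (.e (nat_lit 573489) (nat_lit 14) (.e (nat_lit 73754) (nat_lit 8) (.e (nat_lit 557103) (nat_lit 14) .nil))))) (.g (nat_lit 0) (.e (nat_lit 421431) (nat_lit 0) .nil) .nil))) 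
(.lf (nat_lit 602064) (.g (nat_lit 580) (.e (nat_lit 663568) (nat_lit 5) (.e (nat_lit 73782) (nat_lit 32) (.e (nat_lit 2842) (nat_lit 184) .nil))) (.g (nat_lit 0) (.e (nat_lit 423039) (nat_lit 0) .nil) .nil))))))) (.nd (nat_lit 6) (.nd (nat_lit 7) (.nd (nat_lit 8) (.nd (nat_lit 9) 
(.lf (nat_lit 601136) (.g (nat_lit 2959) (.e (nat_lit 557105) (nat_lit 14) (.e (nat_lit 180252) (nat_lit 10) (.e (nat_lit 573489) (nat_lit 14) (.e (nat_lit 73755) (nat_lit 8) (.e (nat_lit 557090) (nat_lit 12) (.e (nat_lit 164008) (nat_lit 41) (.e (nat_lit 663582) (nat_lit 10) (.e (nat_lit 8324) (nat_lit 69) .nil)))))))) (.g (nat_lit 1) (.e (nat_lit 420193) (nat_lit 0) .nil) .nil))) 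
(.lf (nat_lit 601648) (.g (nat_lit 348) (.e (nat_lit 639020) (nat_lit 16) (.e (nat_lit 65627) (nat_lit 13) (.e (nat_lit 393283) (nat_lit 24) .nil))) (.g (nat_lit 0) (.e (nat_lit 421816) (nat_lit 0) .nil) .nil)))) (.nd (nat_lit 9) 
(.lf (nat_lit 601392) (.g (nat_lit 2355) (.e (nat_lit 565269) (nat_lit 6) (.e (nat_lit 81938) (nat_lit 20) (.e (nat_lit 2391) (nat_lit 156) (.e (nat_lit 819221) (nat_lit 6) (.e (nat_lit 188441) (nat_lit 20) (.e (nat_lit 3289) (nat_lit 201) .nil)))))) (.g (nat_lit 1) (.e (nat_lit 420595) (nat_lit 0) .nil) .nil))) 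
(.lf (nat_lit 601904) (.g (nat_lit 5339) (.e (nat_lit 663565) (nat_lit 3) (.e (nat_lit 57480) (nat_lit 28) (.e (nat_lit 557108) (nat_lit 15) (.e (nat_lit 188452) (nat_lit 23) (.e (nat_lit 204857) (nat_lit 26) .nil))))) (.g (nat_lit 0) (.e (nat_lit 422875) (nat_lit 0) .nil) .nil))))) (.nd (nat_lit 8) (.nd (nat_lit 9) 
(.lf (nat_lit 601264) (.g (nat_lit 1916) (.e (nat_lit 557119) (nat_lit 18) (.e (nat_lit 2797) (nat_lit 180) (.e (nat_lit 303119) (nat_lit 3) (.e (nat_lit 204837) (nat_lit 20) .nil)))) (.g (nat_lit 0) (.e (nat_lit 420357) (nat_lit 0) .nil) .nil))) 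
(.lf (nat_lit 601776) (.g (nat_lit 2518) (.e (nat_lit 638996) (nat_lit 7) (.e (nat_lit 163977) (nat_lit 30) (.e (nat_lit 573488) (nat_lit 14) (.e (nat_lit 73755) (nat_lit 8) (.e (nat_lit 557105) (nat_lit 14) .nil))))) (.g (nat_lit 0) (.e (nat_lit 422416) (nat_lit 0) .nil) .nil)))) (.nd (nat_lit 9) 
(.lf (nat_lit 601520) (.g (nat_lit 255) (.e (nat_lit 630821) (nat_lit 16) (.e (nat_lit 65611) (nat_lit 10) (.e (nat_lit 344157) (nat_lit 36) .nil))) (.g (nat_lit 0) (.e (nat_lit 421365) (nat_lit 0) .nil) .nil))) 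
(.lf (nat_lit 602032) (.g (nat_lit 1876) (.e (nat_lit 663567) (nat_lit 4) (.e (nat_lit 65630) (nat_lit 14) (.e (nat_lit 401438) (nat_lit 9) (.e (nat_lit 426546) (nat_lit 30) (.e (nat_lit 368384) (nat_lit 17) .nil))))) (.g (nat_lit 1) (.e (nat_lit 423005) (nat_lit 0) .nil) .nil)))))) (.nd (nat_lit 7) (.nd (nat_lit 8) (.nd (nat_lit 9) 
(.lf (nat_lit 601200) (.g (nat_lit 2993) (.e (nat_lit 557107) (nat_lit 15) (.e (nat_lit 188447) (nat_lit 22) (.e (nat_lit 196661) (nat_lit 12) (.e (nat_lit 57750) (nat_lit 201) (.e (nat_lit 2857) (nat_lit 184) (.e (nat_lit 426402) (nat_lit 15) (.e (nat_lit 1859) (nat_lit 124) .nil))))))) (.g (nat_lit 1) (.e (nat_lit 420282) (nat_lit 0) .nil) .nil))) 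
(.lf (nat_lit 601712) (.g (nat_lit 433) (.e (nat_lit 638985) (nat_lit 5) (.e (nat_lit 3015) (nat_lit 187) (.e (nat_lit 450562) (nat_lit 0) .nil))) (.g (nat_lit 0) (.e (nat_lit 422109) (nat_lit 0) .nil) .nil)))) (.nd (nat_lit 9) 
(.lf (nat_lit 601456) (.g (nat_lit 4383) (.e (nat_lit 622627) (nat_lit 13) (.e (nat_lit 2666) (nat_lit 167) (.e (nat_lit 196666) (nat_lit 13) (.e (nat_lit 65610) (nat_lit 10) (.e (nat_lit 344117) (nat_lit 21) (.e (nat_lit 516151) (nat_lit 9) (.e (nat_lit 426022) (nat_lit 0) (.e (nat_lit 7936) (nat_lit 208) .nil)))))))) (.g (nat_lit 1) (.e (nat_lit 421205) (nat_lit 0) .nil) .nil))) 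
(.lf (nat_lit 601968) (.g (nat_lit 1008) (.e (nat_lit 663567) (nat_lit 4) (.e (nat_lit 65628) (nat_lit 14) (.e (nat_lit 401438) (nat_lit 9) (.e (nat_lit 426542) (nat_lit 29) .nil)))) (.g (nat_lit 0) (.e (nat_lit 422941) (nat_lit 0) .nil) .nil))))) (.nd (nat_lit 8) (.nd (nat_lit 9) 
(.lf (nat_lit 601328) (.g (nat_lit 886) (.e (nat_lit 565267) (nat_lit 4) (.e (nat_lit 65616) (nat_lit 10) (.e (nat_lit 344183) (nat_lit 49) (.e (nat_lit 819221) (nat_lit 6) (.e (nat_lit 188439) (nat_lit 20) (.e (nat_lit 3288) (nat_lit 201) .nil)))))) (.g (nat_lit 1) (.e (nat_lit 420504) (nat_lit 0) .nil) .nil))) 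
(.lf (nat_lit 601840) (.g (nat_lit 2396) (.e (nat_lit 663552) (nat_lit 0) (.e (nat_lit 1239) (nat_lit 91) (.e (nat_lit 90174) (nat_lit 14) (.e (nat_lit 180250) (nat_lit 10) (.e (nat_lit 573489) (nat_lit 14) .nil))))) (.g (nat_lit 0) (.e (nat_lit 422777) (nat_lit 0) .nil) .nil)))) (.nd (nat_lit 9) 
(.lf (nat_lit 601584) (.g (nat_lit 2141) (.e (nat_lit 639007) (nat_lit 13) (.e (nat_lit 1035) (nat_lit 81) (.e (nat_lit 1858) (nat_lit 124) (.e (nat_lit 557105) (nat_lit 14) (.e (nat_lit 180252) (nat_lit 10) .nil))))) (.g (nat_lit 0) (.e (nat_lit 421610) (nat_lit 0) .nil) .nil))) 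
(.lf (nat_lit 602096) (.g (nat_lit 1703) (.e (nat_lit 663569) (nat_lit 6) (.e (nat_lit 81947) (nat_lit 20) (.e (nat_lit 2006) (nat_lit 138) (.e (nat_lit 671762) (nat_lit 4) (.e (nat_lit 65593) (nat_lit 9) .nil))))) (.g (nat_lit 0) (.e (nat_lit 423072) (nat_lit 0) .nil) .nil))))))))) (.nd (nat_lit 4) (.nd (nat_lit 5) (.nd (nat_lit 6) (.nd (nat_lit 7) (.nd (nat_lit 8) (.nd (nat_lit 9) 
(.lf (nat_lit 601096) (.g (nat_lit 2290) (.e (nat_lit 557105) (nat_lit 14) (.e (nat_lit 180252) (nat_lit 10) (.e (nat_lit 573481) (nat_lit 13) (.e (nat_lit 65568) (nat_lit 2) (.e (nat_lit 98048) (nat_lit 2) (.e (nat_lit 16391) (nat_lit 0) (.e (nat_lit 7936) (nat_lit 200) .nil))))))) (.g (nat_lit 1) (.e (nat_lit 420153) (nat_lit 0) .nil) .nil))) 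
(.lf (nat_lit 601608) (.g (nat_lit 1002) (.e (nat_lit 639008) (nat_lit 13) (.e (nat_lit 1599) (nat_lit 111) (.e (nat_lit 360480) (nat_lit 14) (.e (nat_lit 638986) (nat_lit 5) (.e (nat_lit 3016) (nat_lit 187) (.e (nat_lit 450592) (nat_lit 14) .nil)))))) (.g (nat_lit 1) (.e (nat_lit 421686) (nat_lit 0) .nil) .nil)))) (.nd (nat_lit 9) 
(.lf (nat_lit 601352) (.g (nat_lit 1369) (.e (nat_lit 565267) (nat_lit 4) (.e (nat_lit 65619) (nat_lit 10) (.e (nat_lit 344183) (nat_lit 49) (.e (nat_lit 819221) (nat_lit 6) (.e (nat_lit 188439) (nat_lit 20) (.e (nat_lit 3289) (nat_lit 201) .nil)))))) (.g (nat_lit 1) (.e (nat_lit 420540) (nat_lit 0) .nil) .nil))) 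
(.lf (nat_lit 601864) (.g (nat_lit 1737) (.e (nat_lit 663556) (nat_lit 0) (.e (nat_lit 1667) (nat_lit 116) (.e (nat_lit 401454) (nat_lit 12) (.e (nat_lit 475210) (nat_lit 41) (.e (nat_lit 712755) (nat_lit 30) .nil))))) (.g (nat_lit 0) (.e (nat_lit 422817) (nat_lit 0) .nil) .nil))))) (.nd (nat_lit 8) (.nd (nat_lit 9) 
(.lf (nat_lit 601224) (.g (nat_lit 1945) (.e (nat_lit 557107) (nat_lit 15) (.e (nat_lit 188450) (nat_lit 23) (.e (nat_lit 204883) (nat_lit 33) (.e (nat_lit 401454) (nat_lit 12) (.e (nat_lit 483072) (nat_lit 29) .nil))))) (.g (nat_lit 1) (.e (nat_lit 420306) (nat_lit 0) .nil) .nil))) 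
(.lf (nat_lit 601736) (.g (nat_lit 2387) (.e (nat_lit 638995) (nat_lit 7) (.e (nat_lit 163977) (nat_lit 30) (.e (nat_lit 573488) (nat_lit 14) (.e (nat_lit 73754) (nat_lit 8) (.e (nat_lit 557105) (nat_lit 14) .nil))))) (.g (nat_lit 0) (.e (nat_lit 422192) (nat_lit 0) .nil) .nil)))) (.nd (nat_lit 9) 
(.lf (nat_lit 601480) (.g (nat_lit 501) (.e (nat_lit 630820) (nat_lit 16) (.e (nat_lit 65586) (nat_lit 7) (.e (nat_lit 319526) (nat_lit 15) .nil))) (.g (nat_lit 0) (.e (nat_lit 421317) (nat_lit 0) .nil) .nil))) 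
(.lf (nat_lit 601992) (.g (nat_lit 1778) (.e (nat_lit 663567) (nat_lit 4) (.e (nat_lit 65628) (nat_lit 14) (.e (nat_lit 401459) (nat_lit 13) (.e (nat_lit 483394) (nat_lit 24) (.e (nat_lit 352000) (nat_lit 39) .nil))))) (.g (nat_lit 0) (.e (nat_lit 422965) (nat_lit 0) .nil) .nil)))))) (.nd (nat_lit 7) (.nd (nat_lit 8) (.nd (nat_lit 9) 
(.lf (nat_lit 601160) (.g (nat_lit 1833) (.e (nat_lit 557105) (nat_lit 14) (.e (nat_lit 180252) (nat_lit 10) (.e (nat_lit 573489) (nat_lit 14) (.e (nat_lit 73755) (nat_lit 8) (.e (nat_lit 557119) (nat_lit 18) (.e (nat_lit 2808) (nat_lit 180) (.e (nat_lit 303108) (nat_lit 0) (.e (nat_lit 7936) (nat_lit 200) .nil)))))))) (.g (nat_lit 1) (.e (nat_lit 420217) (nat_lit 0) .nil) .nil))) 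
(.lf (nat_lit 601672) (.g (nat_lit 621) (.e (nat_lit 639021) (nat_lit 16) (.e (nat_lit 65617) (nat_lit 10) (.e (nat_lit 344153) (nat_lit 35) .nil))) (.g (nat_lit 0) (.e (nat_lit 421946) (nat_lit 0) .nil) .nil)))) (.nd (nat_lit 9) 
(.lf (nat_lit 601416) (.g (nat_lit 814) (.e (nat_lit 614420) (nat_lit 6) (.e (nat_lit 188446) (nat_lit 21) (.e (nat_lit 164402) (nat_lit 256) .nil))) (.g (nat_lit 0) (.e (nat_lit 421081) (nat_lit 0) .nil) .nil))) 
(.lf (nat_lit 601928) (.g (nat_lit 2376) (.e (nat_lit 663567) (nat_lit 4) (.e (nat_lit 65610) (nat_lit 10) (.e (nat_lit 344169) (nat_lit 40) (.e (nat_lit 671764) (nat_lit 6) (.e (nat_lit 81931) (nat_lit 20) (.e (nat_lit 1994) (nat_lit 137) .nil)))))) (.g (nat_lit 1) (.e (nat_lit 422901) (nat_lit 0) .nil) .nil))))) (.nd (nat_lit 8) (.nd (nat_lit 9) 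
(.lf (nat_lit 601288) (.g (nat_lit 1281) (.e (nat_lit 557119) (nat_lit 18) (.e (nat_lit 2787) (nat_lit 179) (.e (nat_lit 294959) (nat_lit 13) (.e (nat_lit 393221) (nat_lit 0) (.e (nat_lit 6217) (nat_lit 333) (.e (nat_lit 57814) (nat_lit 246) (.e (nat_lit 65280) (nat_lit 89) .nil))))))) (.g (nat_lit 1) (.e (nat_lit 420406) (nat_lit 0) .nil) .nil))) 
(.lf (nat_lit 601800) (.g (nat_lit 1914) (.e (nat_lit 638998) (nat_lit 8) (.e (nat_lit 172067) (nat_lit 3) (.e (nat_lit 204866) (nat_lit 28) (.e (nat_lit 352320) (nat_lit 25) .nil)))) (.g (nat_lit 0) (.e (nat_lit 422544) (nat_lit 0) .nil) .nil)))) (.nd (nat_lit 9) 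
(.lf (nat_lit 601544) (.g (nat_lit 1014) (.e (nat_lit 630821) (nat_lit 16) (.e (nat_lit 65619) (nat_lit 10) (.e (nat_lit 344160) (nat_lit 37) (.e (nat_lit 647190) (nat_lit 9) .nil)))) (.g (nat_lit 0) (.e (nat_lit 421390) (nat_lit 0) .nil) .nil))) 
(.lf (nat_lit 602056) (.g (nat_lit 2267) (.e (nat_lit 663567) (nat_lit 4) (.e (nat_lit 65651) (nat_lit 27) (.e (nat_lit 426275) (nat_lit 10) (.e (nat_lit 434248) (nat_lit 28) (.e (nat_lit 581376) (nat_lit 0) (.e (nat_lit 2980) (nat_lit 185) (.e (nat_lit 434275) (nat_lit 39) .nil))))))) (.g (nat_lit 1) (.e (nat_lit 423029) (nat_lit 0) .nil) .nil))))))) 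
(.nd (nat_lit 6) (.nd (nat_lit 7) (.nd (nat_lit 8) (.nd (nat_lit 9) 
(.lf (nat_lit 601128) (.g (nat_lit 3013) (.e (nat_lit 557105) (nat_lit 14) (.e (nat_lit 180252) (nat_lit 10) (.e (nat_lit 573482) (nat_lit 13) (.e (nat_lit 65568) (nat_lit 2) (.e (nat_lit 98048) (nat_lit 2) (.e (nat_lit 16402) (nat_lit 0) (.e (nat_lit 7936) (nat_lit 200) .nil))))))) (.g (nat_lit 1) (.e (nat_lit 420185) (nat_lit 0) .nil) .nil))) 
(.lf (nat_lit 601640) (.g (nat_lit 2123) (.e (nat_lit 639020) (nat_lit 16) (.e (nat_lit 65586) (nat_lit 7) (.e (nat_lit 319531) (nat_lit 16) (.e (nat_lit 286727) (nat_lit 0) (.e (nat_lit 6646) (nat_lit 357) .nil))))) (.g (nat_lit 0) (.e (nat_lit 421733) (nat_lit 0) .nil) .nil)))) (.nd (nat_lit 9) 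
(.lf (nat_lit 601384) (.g (nat_lit 677) (.e (nat_lit 565268) (nat_lit 5) (.e (nat_lit 73792) (nat_lit 45) (.e (nat_lit 1162) (nat_lit 86) (.e (nat_lit 49157) (nat_lit 0) (.e (nat_lit 3012) (nat_lit 187) (.e (nat_lit 458496) (nat_lit 9) .nil)))))) (.g (nat_lit 1) (.e (nat_lit 420575) (nat_lit 0) .nil) .nil))) 
(.lf (nat_lit 601896) (.g (nat_lit 2222) (.e (nat_lit 663565) (nat_lit 3) (.e (nat_lit 57480) (nat_lit 28) (.e (nat_lit 557107) (nat_lit 15) (.e (nat_lit 188450) (nat_lit 23) (.e (nat_lit 204850) (nat_lit 26) .nil))))) (.g (nat_lit 0) (.e (nat_lit 422867) (nat_lit 0) .nil) .nil))))) (.nd (nat_lit 8) (.nd (nat_lit 9) 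
(.lf (nat_lit 601256) (.g (nat_lit 2393) (.e (nat_lit 557109) (nat_lit 15) (.e (nat_lit 188452) (nat_lit 23) (.e (nat_lit 204846) (nat_lit 24) (.e (nat_lit 319533) (nat_lit 16) (.e (nat_lit 286763) (nat_lit 15) (.e (nat_lit 7936) (nat_lit 200) .nil)))))) (.g (nat_lit 1) (.e (nat_lit 420339) (nat_lit 0) .nil) .nil))) 
(.lf (nat_lit 601768) (.g (nat_lit 3486) (.e (nat_lit 638995) (nat_lit 7) (.e (nat_lit 163979) (nat_lit 30) (.e (nat_lit 573489) (nat_lit 14) (.e (nat_lit 73754) (nat_lit 8) (.e (nat_lit 557105) (nat_lit 14) (.e (nat_lit 180251) (nat_lit 10) (.e (nat_lit 573477) (nat_lit 12) (.e (nat_lit 57502) (nat_lit 38) .nil)))))))) (.g (nat_lit 1) (.e (nat_lit 422301) (nat_lit 0) .nil) .nil)))) 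
(.nd (nat_lit 9) 
(.lf (nat_lit 601512) (.g (nat_lit 326) (.e (nat_lit 630821) (nat_lit 16) (.e (nat_lit 65610) (nat_lit 10) (.e (nat_lit 344157) (nat_lit 36) .nil))) (.g (nat_lit 0) (.e (nat_lit 421357) (nat_lit 0) .nil) .nil))) 
(.lf (nat_lit 602024) (.g (nat_lit 2272) (.e (nat_lit 663567) (nat_lit 4) (.e (nat_lit 65630) (nat_lit 14) (.e (nat_lit 401437) (nat_lit 9) (.e (nat_lit 426555) (nat_lit 32) (.e (nat_lit 376843) (nat_lit 20) .nil))))) (.g (nat_lit 0) (.e (nat_lit 422997) (nat_lit 0) .nil) .nil)))))) (.nd (nat_lit 7) (.nd (nat_lit 8) (.nd (nat_lit 9) 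
(.lf (nat_lit 601192) (.g (nat_lit 2063) (.e (nat_lit 557107) (nat_lit 15) (.e (nat_lit 188447) (nat_lit 22) (.e (nat_lit 196661) (nat_lit 12) (.e (nat_lit 57749) (nat_lit 201) (.e (nat_lit 2936) (nat_lit 184) (.e (nat_lit 426401) (nat_lit 15) (.e (nat_lit 1849) (nat_lit 124) .nil))))))) (.g (nat_lit 1) (.e (nat_lit 420274) (nat_lit 0) .nil) .nil))) 
(.lf (nat_lit 601704) (.g (nat_lit 1966) (.e (nat_lit 639023) (nat_lit 18) (.e (nat_lit 81959) (nat_lit 24) (.e (nat_lit 123160) (nat_lit 254) (.e (nat_lit 163905) (nat_lit 12) (.e (nat_lit 426294) (nat_lit 11) (.e (nat_lit 458803) (nat_lit 36) .nil)))))) (.g (nat_lit 1) (.e (nat_lit 422088) (nat_lit 0) .nil) .nil)))) (.nd (nat_lit 9) 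
(.lf (nat_lit 601448) (.g (nat_lit 3618) (.e (nat_lit 622626) (nat_lit 13) (.e (nat_lit 2663) (nat_lit 167) (.e (nat_lit 196666) (nat_lit 13) (.e (nat_lit 65610) (nat_lit 10) (.e (nat_lit 344117) (nat_lit 21) (.e (nat_lit 516160) (nat_lit 10) (.e (nat_lit 434262) (nat_lit 34) .nil))))))) (.g (nat_lit 1) (.e (nat_lit 421193) (nat_lit 0) .nil) .nil))) 
(.lf (nat_lit 601960) (.g (nat_lit 1853) (.e (nat_lit 663567) (nat_lit 4) (.e (nat_lit 65628) (nat_lit 14) (.e (nat_lit 401437) (nat_lit 9) (.e (nat_lit 426542) (nat_lit 29) (.e (nat_lit 352285) (nat_lit 20) .nil))))) (.g (nat_lit 0) (.e (nat_lit 422933) (nat_lit 0) .nil) .nil))))) (.nd (nat_lit 8) (.nd (nat_lit 9) 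
(.lf (nat_lit 601320) (.g (nat_lit 1146) (.e (nat_lit 565267) (nat_lit 4) (.e (nat_lit 65611) (nat_lit 10) (.e (nat_lit 344183) (nat_lit 49) (.e (nat_lit 819221) (nat_lit 6) (.e (nat_lit 188439) (nat_lit 20) (.e (nat_lit 3289) (nat_lit 201) .nil)))))) (.g (nat_lit 1) (.e (nat_lit 420494) (nat_lit 0) .nil) .nil))) 
(.lf (nat_lit 601832) (.g (nat_lit 1132) (.e (nat_lit 639001) (nat_lit 10) (.e (nat_lit 188439) (nat_lit 20) (.e (nat_lit 3391) (nat_lit 210) (.e (nat_lit 639023) (nat_lit 18) (.e (nat_lit 81938) (nat_lit 20) (.e (nat_lit 1963) (nat_lit 134) .nil)))))) (.g (nat_lit 1) (.e (nat_lit 422762) (nat_lit 0) .nil) .nil)))) (.nd (nat_lit 9) 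
(.lf (nat_lit 601576) (.g (nat_lit 2526) (.e (nat_lit 630802) (nat_lit 8) (.e (nat_lit 172106) (nat_lit 10) (.e (nat_lit 434268) (nat_lit 36) (.e (nat_lit 639020) (nat_lit 16) (.e (nat_lit 65619) (nat_lit 10) (.e (nat_lit 344154) (nat_lit 35) .nil)))))) (.g (nat_lit 1) (.e (nat_lit 421565) (nat_lit 0) .nil) .nil))) 
(.lf (nat_lit 602088) (.g (nat_lit 1604) (.e (nat_lit 663569) (nat_lit 6) (.e (nat_lit 81924) (nat_lit 0) (.e (nat_lit 3747) (nat_lit 228) (.e (nat_lit 786483) (nat_lit 30) (.e (nat_lit 368384) (nat_lit 17) .nil))))) (.g (nat_lit 1) (.e (nat_lit 423064) (nat_lit 0) .nil) .nil)))))))) (.nd (nat_lit 5) (.nd (nat_lit 6) (.nd (nat_lit 7) (.nd (nat_lit 8) (.nd (nat_lit 9) 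
(.lf (nat_lit 601112) (.g (nat_lit 3104) (.e (nat_lit 557105) (nat_lit 14) (.e (nat_lit 180252) (nat_lit 10) (.e (nat_lit 573482) (nat_lit 13) (.e (nat_lit 65568) (nat_lit 2) (.e (nat_lit 98048) (nat_lit 2) (.e (nat_lit 16385) (nat_lit 0) (.e (nat_lit 7936) (nat_lit 200) .nil))))))) (.g (nat_lit 1) (.e (nat_lit 420169) (nat_lit 0) .nil) .nil))) 
(.lf (nat_lit 601624) (.g (nat_lit 1899) (.e (nat_lit 639020) (nat_lit 16) (.e (nat_lit 65571) (nat_lit 3) (.e (nat_lit 98372) (nat_lit 29) (.e (nat_lit 450577) (nat_lit 4) .nil)))) (.g (nat_lit 0) (.e (nat_lit 421715) (nat_lit 0) .nil) .nil)))) (.nd (nat_lit 9) 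
(.lf (nat_lit 601368) (.g (nat_lit 649) (.e (nat_lit 565268) (nat_lit 5) (.e (nat_lit 73789) (nat_lit 45) (.e (nat_lit 1162) (nat_lit 86) (.e (nat_lit 49156) (nat_lit 0) (.e (nat_lit 3012) (nat_lit 187) (.e (nat_lit 458496) (nat_lit 9) .nil)))))) (.g (nat_lit 1) (.e (nat_lit 420559) (nat_lit 0) .nil) .nil))) 
(.lf (nat_lit 601880) (.g (nat_lit 873) (.e (nat_lit 671488) (nat_lit 0) (.e (nat_lit 1667) (nat_lit 116) (.e (nat_lit 401453) (nat_lit 12) (.e (nat_lit 475207) (nat_lit 41) .nil)))) (.g (nat_lit 0) (.e (nat_lit 422837) (nat_lit 0) .nil) .nil))))) (.nd (nat_lit 8) (.nd (nat_lit 9) 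
(.lf (nat_lit 601240) (.g (nat_lit 1886) (.e (nat_lit 557108) (nat_lit 15) (.e (nat_lit 188452) (nat_lit 23) (.e (nat_lit 204855) (nat_lit 26) (.e (nat_lit 336250) (nat_lit 15) (.e (nat_lit 3705) (nat_lit 227) .nil))))) (.g (nat_lit 0) (.e (nat_lit 420322) (nat_lit 0) .nil) .nil))) 
(.lf (nat_lit 601752) (.g (nat_lit 3489) (.e (nat_lit 638995) (nat_lit 7) (.e (nat_lit 163978) (nat_lit 30) (.e (nat_lit 573489) (nat_lit 14) (.e (nat_lit 73755) (nat_lit 8) (.e (nat_lit 557105) (nat_lit 14) (.e (nat_lit 180251) (nat_lit 10) (.e (nat_lit 573478) (nat_lit 12) (.e (nat_lit 57502) (nat_lit 38) .nil)))))))) (.g (nat_lit 1) (.e (nat_lit 422236) (nat_lit 0) .nil) .nil)))) 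
(.nd (nat_lit 9) 
(.lf (nat_lit 601496) (.g (nat_lit 1825) (.e (nat_lit 630821) (nat_lit 16) (.e (nat_lit 65583) (nat_lit 7) (.e (nat_lit 319530) (nat_lit 16) (.e (nat_lit 286727) (nat_lit 0) (.e (nat_lit 6680) (nat_lit 357) .nil))))) (.g (nat_lit 0) (.e (nat_lit 421340) (nat_lit 0) .nil) .nil))) 
(.lf (nat_lit 602008) (.g (nat_lit 2104) (.e (nat_lit 663567) (nat_lit 4) (.e (nat_lit 65630) (nat_lit 14) (.e (nat_lit 401437) (nat_lit 9) (.e (nat_lit 426512) (nat_lit 27) .nil)))) (.g (nat_lit 0) (.e (nat_lit 422981) (nat_lit 0) .nil) .nil)))))) (.nd (nat_lit 7) (.nd (nat_lit 8) (.nd (nat_lit 9) 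
(.lf (nat_lit 601176) (.g (nat_lit 2646) (.e (nat_lit 557107) (nat_lit 15) (.e (nat_lit 188439) (nat_lit 20) (.e (nat_lit 3271) (nat_lit 199) (.e (nat_lit 548898) (nat_lit 14) (.e (nat_lit 3004) (nat_lit 186) (.e (nat_lit 442374) (nat_lit 0) (.e (nat_lit 1856) (nat_lit 124) .nil))))))) (.g (nat_lit 1) (.e (nat_lit 420258) (nat_lit 0) .nil) .nil))) 
(.lf (nat_lit 601688) (.g (nat_lit 532) (.e (nat_lit 639021) (nat_lit 16) (.e (nat_lit 65619) (nat_lit 10) (.e (nat_lit 344153) (nat_lit 35) .nil))) (.g (nat_lit 0) (.e (nat_lit 421996) (nat_lit 0) .nil) .nil)))) (.nd (nat_lit 9) 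
(.lf (nat_lit 601432) (.g (nat_lit 4981) (.e (nat_lit 622620) (nat_lit 13) (.e (nat_lit 2663) (nat_lit 167) (.e (nat_lit 196666) (nat_lit 13) (.e (nat_lit 65610) (nat_lit 10) (.e (nat_lit 344117) (nat_lit 21) (.e (nat_lit 516151) (nat_lit 9) (.e (nat_lit 426042) (nat_lit 0) (.e (nat_lit 3370) (nat_lit 208) .nil)))))))) (.g (nat_lit 1) (.e (nat_lit 421147) (nat_lit 0) .nil) .nil))) 
(.lf (nat_lit 601944) (.g (nat_lit 2478) (.e (nat_lit 663567) (nat_lit 4) (.e (nat_lit 65628) (nat_lit 14) (.e (nat_lit 401437) (nat_lit 9) (.e (nat_lit 426482) (nat_lit 27) (.e (nat_lit 336092) (nat_lit 9) .nil))))) (.g (nat_lit 0) (.e (nat_lit 422917) (nat_lit 0) .nil) .nil))))) (.nd (nat_lit 8) (.nd (nat_lit 9) 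
(.lf (nat_lit 601304) (.g (nat_lit 2095) (.e (nat_lit 565252) (nat_lit 0) (.e (nat_lit 1589) (nat_lit 111) (.e (nat_lit 360493) (nat_lit 27) (.e (nat_lit 819203) (nat_lit 0) (.e (nat_lit 3015) (nat_lit 187) (.e (nat_lit 450584) (nat_lit 9) .nil)))))) (.g (nat_lit 1) (.e (nat_lit 420444) (nat_lit 0) .nil) .nil))) 
(.lf (nat_lit 601816) (.g (nat_lit 1246) (.e (nat_lit 638998) (nat_lit 8) (.e (nat_lit 172123) (nat_lit 13) (.e (nat_lit 483408) (nat_lit 26) (.e (nat_lit 385090) (nat_lit 49) .nil)))) (.g (nat_lit 0) (.e (nat_lit 422573) (nat_lit 0) .nil) .nil)))) (.nd (nat_lit 9) 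
(.lf (nat_lit 601560) (.g (nat_lit 2575) (.e (nat_lit 630800) (nat_lit 7) (.e (nat_lit 163979) (nat_lit 30) (.e (nat_lit 573489) (nat_lit 14) (.e (nat_lit 73755) (nat_lit 8) (.e (nat_lit 557105) (nat_lit 14) .nil))))) (.g (nat_lit 0) (.e (nat_lit 421462) (nat_lit 0) .nil) .nil))) 
(.lf (nat_lit 602072) (.g (nat_lit 1156) (.e (nat_lit 663569) (nat_lit 6) (.e (nat_lit 81922) (nat_lit 0) (.e (nat_lit 3631) (nat_lit 227) (.e (nat_lit 778327) (nat_lit 6) (.e (nat_lit 81934) (nat_lit 20) .nil))))) (.g (nat_lit 0) (.e (nat_lit 423047) (nat_lit 0) .nil) .nil))))))) (.nd (nat_lit 6) (.nd (nat_lit 7) (.nd (nat_lit 8) (.nd (nat_lit 9) 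
(.lf (nat_lit 601144) (.g (nat_lit 3878) (.e (nat_lit 557105) (nat_lit 14) (.e (nat_lit 180252) (nat_lit 10) (.e (nat_lit 573489) (nat_lit 14) (.e (nat_lit 73755) (nat_lit 8) (.e (nat_lit 557119) (nat_lit 18) (.e (nat_lit 2797) (nat_lit 180) (.e (nat_lit 303105) (nat_lit 0) (.e (nat_lit 7936) (nat_lit 200) .nil)))))))) (.g (nat_lit 1) (.e (nat_lit 420201) (nat_lit 0) .nil) .nil))) 
(.lf (nat_lit 601656) (.g (nat_lit 1267) (.e (nat_lit 639020) (nat_lit 16) (.e (nat_lit 65627) (nat_lit 13) (.e (nat_lit 393296) (nat_lit 26) (.e (nat_lit 475217) (nat_lit 44) .nil)))) (.g (nat_lit 0) (.e (nat_lit 421824) (nat_lit 0) .nil) .nil)))) (.nd (nat_lit 9) 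
(.lf (nat_lit 601400) (.g (nat_lit 2000) (.e (nat_lit 565269) (nat_lit 6) (.e (nat_lit 81943) (nat_lit 20) (.e (nat_lit 2391) (nat_lit 156) (.e (nat_lit 819221) (nat_lit 6) (.e (nat_lit 188439) (nat_lit 20) (.e (nat_lit 3289) (nat_lit 201) .nil)))))) (.g (nat_lit 1) (.e (nat_lit 420610) (nat_lit 0) .nil) .nil))) 
(.lf (nat_lit 601912) (.g (nat_lit 2564) (.e (nat_lit 663565) (nat_lit 3) (.e (nat_lit 57480) (nat_lit 28) (.e (nat_lit 557109) (nat_lit 15) (.e (nat_lit 188452) (nat_lit 23) (.e (nat_lit 204855) (nat_lit 26) .nil))))) (.g (nat_lit 0) (.e (nat_lit 422883) (nat_lit 0) .nil) .nil))))) (.nd (nat_lit 8) (.nd (nat_lit 9) 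
(.lf (nat_lit 601272) (.g (nat_lit 1291) (.e (nat_lit 557119) (nat_lit 18) (.e (nat_lit 2798) (nat_lit 180) (.e (nat_lit 303119) (nat_lit 3) (.e (nat_lit 204837) (nat_lit 20) .nil)))) (.g (nat_lit 0) (.e (nat_lit 420372) (nat_lit 0) .nil) .nil))) 
(.lf (nat_lit 601784) (.g (nat_lit 3434) (.e (nat_lit 638996) (nat_lit 7) (.e (nat_lit 163978) (nat_lit 30) (.e (nat_lit 573489) (nat_lit 14) (.e (nat_lit 73755) (nat_lit 8) (.e (nat_lit 557103) (nat_lit 14) (.e (nat_lit 180250) (nat_lit 10) (.e (nat_lit 573475) (nat_lit 12) (.e (nat_lit 57503) (nat_lit 38) .nil)))))))) (.g (nat_lit 1) (.e (nat_lit 422456) (nat_lit 0) .nil) .nil)))) 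
(.nd (nat_lit 9) 
(.lf (nat_lit 601528) (.g (nat_lit 1548) (.e (nat_lit 630821) (nat_lit 16) (.e (nat_lit 65617) (nat_lit 10) (.e (nat_lit 344161) (nat_lit 37) (.e (nat_lit 647188) (nat_lit 9) (.e (nat_lit 414) (nat_lit 32) (.e (nat_lit 426290) (nat_lit 10) (.e (nat_lit 434266) (nat_lit 35) .nil))))))) (.g (nat_lit 1) (.e (nat_lit 421374) (nat_lit 0) .nil) .nil))) 
(.lf (nat_lit 602040) (.g (nat_lit 1627) (.e (nat_lit 663567) (nat_lit 4) (.e (nat_lit 65630) (nat_lit 14) (.e (nat_lit 401457) (nat_lit 13) (.e (nat_lit 483401) (nat_lit 25) .nil)))) (.g (nat_lit 0) (.e (nat_lit 423013) (nat_lit 0) .nil) .nil)))))) (.nd (nat_lit 7) (.nd (nat_lit 8) (.nd (nat_lit 9) 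
(.lf (nat_lit 601208) (.g (nat_lit 2560) (.e (nat_lit 557107) (nat_lit 15) (.e (nat_lit 188447) (nat_lit 22) (.e (nat_lit 196661) (nat_lit 12) (.e (nat_lit 57751) (nat_lit 201) (.e (nat_lit 2857) (nat_lit 184) (.e (nat_lit 426402) (nat_lit 15) (.e (nat_lit 1849) (nat_lit 124) .nil))))))) (.g (nat_lit 1) (.e (nat_lit 420290) (nat_lit 0) .nil) .nil))) 
(.lf (nat_lit 601720) (.g (nat_lit 1401) (.e (nat_lit 638986) (nat_lit 5) (.e (nat_lit 3015) (nat_lit 187) (.e (nat_lit 450597) (nat_lit 17) (.e (nat_lit 663574) (nat_lit 9) (.e (nat_lit 7936) (nat_lit 24) .nil))))) (.g (nat_lit 0) (.e (nat_lit 422138) (nat_lit 0) .nil) .nil)))) (.nd (nat_lit 9) 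
(.lf (nat_lit 601464) (.g (nat_lit 3245) (.e (nat_lit 622632) (nat_lit 15) (.e (nat_lit 24662) (nat_lit 14) (.e (nat_lit 401459) (nat_lit 13) (.e (nat_lit 483396) (nat_lit 24) .nil)))) (.g (nat_lit 0) (.e (nat_lit 421238) (nat_lit 0) .nil) .nil))) 
(.lf (nat_lit 601976) (.g (nat_lit 2333) (.e (nat_lit 663567) (nat_lit 4) (.e (nat_lit 65628) (nat_lit 14) (.e (nat_lit 401454) (nat_lit 12) (.e (nat_lit 475163) (nat_lit 21) .nil)))) (.g (nat_lit 0) (.e (nat_lit 422949) (nat_lit 0) .nil) .nil))))) (.nd (nat_lit 8) (.nd (nat_lit 9) 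
(.lf (nat_lit 601336) (.g (nat_lit 1733) (.e (nat_lit 565267) (nat_lit 4) (.e (nat_lit 65617) (nat_lit 10) (.e (nat_lit 344183) (nat_lit 49) (.e (nat_lit 819219) (nat_lit 4) (.e (nat_lit 172112) (nat_lit 10) (.e (nat_lit 434241) (nat_lit 27) .nil)))))) (.g (nat_lit 1) (.e (nat_lit 420515) (nat_lit 0) .nil) .nil))) 
(.lf (nat_lit 601848) (.g (nat_lit 2077) (.e (nat_lit 663554) (nat_lit 0) (.e (nat_lit 1239) (nat_lit 91) (.e (nat_lit 90173) (nat_lit 14) (.e (nat_lit 180252) (nat_lit 10) (.e (nat_lit 573489) (nat_lit 14) .nil))))) (.g (nat_lit 0) (.e (nat_lit 422787) (nat_lit 0) .nil) .nil)))) (.nd (nat_lit 9) 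
(.lf (nat_lit 601592) (.g (nat_lit 345) (.e (nat_lit 639008) (nat_lit 13) (.e (nat_lit 1586) (nat_lit 111) (.e (nat_lit 360450) (nat_lit 0) .nil))) (.g (nat_lit 0) (.e (nat_lit 421643) (nat_lit 0) .nil) .nil))) 
(.lf (nat_lit 602104) (.g (nat_lit 2545) (.e (nat_lit 663573) (nat_lit 9) (.e (nat_lit 2744) (nat_lit 174) (.e (nat_lit 253991) (nat_lit 11) (.e (nat_lit 16425) (nat_lit 7) (.e (nat_lit 409649) (nat_lit 18) .nil))))) (.g (nat_lit 0) (.e (nat_lit 423085) (nat_lit 0) .nil) .nil)))))))))) 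
(.nd (nat_lit 3) (.nd (nat_lit 4) (.nd (nat_lit 5) (.nd (nat_lit 6) (.nd (nat_lit 7) 
(.nd (nat_lit 8) (.nd (nat_lit 9) 
(.lf (nat_lit 601092) (.g (nat_lit 2358) (.e (nat_lit 557105) (nat_lit 14) (.e (nat_lit 180252) (nat_lit 10) (.e (nat_lit 573481) (nat_lit 13) (.e (nat_lit 65568) (nat_lit 2) (.e (nat_lit 98048) (nat_lit 2) (.e (nat_lit 16385) (nat_lit 0) (.e (nat_lit 7936) (nat_lit 200) .nil))))))) (.g (nat_lit 1) (.e (nat_lit 420149) (nat_lit 0) .nil) .nil))) 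
(.lf (nat_lit 601604) (.g (nat_lit 206) (.e (nat_lit 639008) (nat_lit 13) (.e (nat_lit 1598) (nat_lit 111) (.e (nat_lit 368384) (nat_lit 0) .nil))) (.g (nat_lit 0) (.e (nat_lit 421680) (nat_lit 0) .nil) .nil)))) (.nd (nat_lit 9) 
(.lf (nat_lit 601348) (.g (nat_lit 1546) (.e (nat_lit 565267) (nat_lit 4) (.e (nat_lit 65619) (nat_lit 10) (.e (nat_lit 344183) (nat_lit 49) (.e (nat_lit 819221) (nat_lit 6) (.e (nat_lit 188434) (nat_lit 20) (.e (nat_lit 3288) (nat_lit 201) .nil)))))) (.g (nat_lit 1) (.e (nat_lit 420536) (nat_lit 0) .nil) .nil))) 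
(.lf (nat_lit 601860) (.g (nat_lit 1302) (.e (nat_lit 663555) (nat_lit 0) (.e (nat_lit 1399) (nat_lit 106) (.e (nat_lit 319533) (nat_lit 16) (.e (nat_lit 286746) (nat_lit 9) .nil)))) (.g (nat_lit 0) (.e (nat_lit 422809) (nat_lit 0) .nil) .nil))))) (.nd (nat_lit 8) (.nd (nat_lit 9) 
(.lf (nat_lit 601220) (.g (nat_lit 3241) (.e (nat_lit 557107) (nat_lit 15) (.e (nat_lit 188450) (nat_lit 23) (.e (nat_lit 204855) (nat_lit 26) (.e (nat_lit 336295) (nat_lit 15) (.e (nat_lit 3632) (nat_lit 227) (.e (nat_lit 778318) (nat_lit 3) (.e (nat_lit 57476) (nat_lit 28) .nil))))))) (.g (nat_lit 1) (.e (nat_lit 420302) (nat_lit 0) .nil) .nil))) 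
(.lf (nat_lit 601732) (.g (nat_lit 3213) (.e (nat_lit 638994) (nat_lit 7) (.e (nat_lit 163979) (nat_lit 30) (.e (nat_lit 573489) (nat_lit 14) (.e (nat_lit 73754) (nat_lit 8) (.e (nat_lit 557103) (nat_lit 14) .nil))))) (.g (nat_lit 0) (.e (nat_lit 422179) (nat_lit 0) .nil) .nil)))) (.nd (nat_lit 9) 
(.lf (nat_lit 601476) (.g (nat_lit 1895) (.e (nat_lit 638720) (nat_lit 15) (.e (nat_lit 57479) (nat_lit 28) (.e (nat_lit 557105) (nat_lit 14) (.e (nat_lit 180252) (nat_lit 10) (.e (nat_lit 573489) (nat_lit 14) .nil))))) (.g (nat_lit 0) (.e (nat_lit 421313) (nat_lit 0) .nil) .nil))) 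
(.lf (nat_lit 601988) (.g (nat_lit 1623) (.e (nat_lit 663567) (nat_lit 4) (.e (nat_lit 65628) (nat_lit 14) (.e (nat_lit 401459) (nat_lit 13) (.e (nat_lit 483387) (nat_lit 23) .nil)))) (.g (nat_lit 0) (.e (nat_lit 422961) (nat_lit 0) .nil) .nil)))))) (.nd (nat_lit 7) (.nd (nat_lit 8) (.nd (nat_lit 9) 
(.lf (nat_lit 601156) (.g (nat_lit 2697) (.e (nat_lit 557105) (nat_lit 14) (.e (nat_lit 180252) (nat_lit 10) (.e (nat_lit 573489) (nat_lit 14) (.e (nat_lit 73755) (nat_lit 8) (.e (nat_lit 557119) (nat_lit 18) (.e (nat_lit 2808) (nat_lit 180) (.e (nat_lit 303104) (nat_lit 0) (.e (nat_lit 7936) (nat_lit 200) .nil)))))))) (.g (nat_lit 1) (.e (nat_lit 420213) (nat_lit 0) .nil) .nil))) 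
(.lf (nat_lit 601668) (.g (nat_lit 2003) (.e (nat_lit 639021) (nat_lit 16) (.e (nat_lit 65610) (nat_lit 10) (.e (nat_lit 344160) (nat_lit 37) (.e (nat_lit 647195) (nat_lit 9) (.e (nat_lit 7936) (nat_lit 34) .nil))))) (.g (nat_lit 0) (.e (nat_lit 421901) (nat_lit 0) .nil) .nil)))) (.nd (nat_lit 9) 
(.lf (nat_lit 601412) (.g (nat_lit 2206) (.e (nat_lit 598043) (nat_lit 12) (.e (nat_lit 131091) (nat_lit 2) (.e (nat_lit 90170) (nat_lit 13) (.e (nat_lit 172106) (nat_lit 10) (.e (nat_lit 434231) (nat_lit 23) .nil))))) (.g (nat_lit 0) (.e (nat_lit 420886) (nat_lit 0) .nil) .nil))) 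
(.lf (nat_lit 601924) (.g (nat_lit 2280) (.e (nat_lit 663567) (nat_lit 4) (.e (nat_lit 65586) (nat_lit 7) (.e (nat_lit 319531) (nat_lit 16) (.e (nat_lit 286728) (nat_lit 0) (.e (nat_lit 2390) (nat_lit 156) .nil))))) (.g (nat_lit 0) (.e (nat_lit 422897) (nat_lit 0) .nil) .nil))))) (.nd (nat_lit 8) (.nd (nat_lit 9) 
(.lf (nat_lit 601284) (.g (nat_lit 3150) (.e (nat_lit 557119) (nat_lit 18) (.e (nat_lit 2798) (nat_lit 180) (.e (nat_lit 303145) (nat_lit 13) (.e (nat_lit 483363) (nat_lit 18) (.e (nat_lit 57648) (nat_lit 146) .nil))))) (.g (nat_lit 0) (.e (nat_lit 420397) (nat_lit 0) .nil) .nil))) 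
(.lf (nat_lit 601796) (.g (nat_lit 1813) (.e (nat_lit 638996) (nat_lit 7) (.e (nat_lit 163979) (nat_lit 30) (.e (nat_lit 573489) (nat_lit 14) (.e (nat_lit 73755) (nat_lit 8) (.e (nat_lit 557104) (nat_lit 14) .nil))))) (.g (nat_lit 0) (.e (nat_lit 422495) (nat_lit 0) .nil) .nil)))) (.nd (nat_lit 9) 
(.lf (nat_lit 601540) (.g (nat_lit 2010) (.e (nat_lit 630821) (nat_lit 16) (.e (nat_lit 65619) (nat_lit 10) (.e (nat_lit 344156) (nat_lit 36) (.e (nat_lit 638998) (nat_lit 8) (.e (nat_lit 172115) (nat_lit 10) .nil))))) (.g (nat_lit 0) (.e (nat_lit 421386) (nat_lit 0) .nil) .nil))) 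
(.lf (nat_lit 602052) (.g (nat_lit 2321) (.e (nat_lit 663567) (nat_lit 4) (.e (nat_lit 65630) (nat_lit 14) (.e (nat_lit 401459) (nat_lit 13) (.e (nat_lit 483398) (nat_lit 25) .nil)))) (.g (nat_lit 0) (.e (nat_lit 423025) (nat_lit 0) .nil) .nil))))))) (.nd (nat_lit 6) (.nd (nat_lit 7) (.nd (nat_lit 8) (.nd (nat_lit 9) 
(.lf (nat_lit 601124) (.g (nat_lit 2974) (.e (nat_lit 557105) (nat_lit 14) (.e (nat_lit 180252) (nat_lit 10) (.e (nat_lit 573482) (nat_lit 13) (.e (nat_lit 65568) (nat_lit 2) (.e (nat_lit 98048) (nat_lit 2) (.e (nat_lit 16398) (nat_lit 0) (.e (nat_lit 7936) (nat_lit 200) .nil))))))) (.g (nat_lit 1) (.e (nat_lit 420181) (nat_lit 0) .nil) .nil))) 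
(.lf (nat_lit 601636) (.g (nat_lit 2032) (.e (nat_lit 639020) (nat_lit 16) (.e (nat_lit 65586) (nat_lit 7) (.e (nat_lit 319531) (nat_lit 16) (.e (nat_lit 286724) (nat_lit 0) .nil)))) (.g (nat_lit 0) (.e (nat_lit 421729) (nat_lit 0) .nil) .nil)))) (.nd (nat_lit 9) 
(.lf (nat_lit 601380) (.g (nat_lit 408) (.e (nat_lit 565268) (nat_lit 5) (.e (nat_lit 73791) (nat_lit 45) (.e (nat_lit 1163) (nat_lit 86) (.e (nat_lit 49156) (nat_lit 0) (.e (nat_lit 3012) (nat_lit 187) (.e (nat_lit 458496) (nat_lit 9) .nil)))))) (.g (nat_lit 1) (.e (nat_lit 420571) (nat_lit 0) .nil) .nil))) 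
(.lf (nat_lit 601892) (.g (nat_lit 5577) (.e (nat_lit 663565) (nat_lit 3) (.e (nat_lit 57479) (nat_lit 28) (.e (nat_lit 557109) (nat_lit 15) (.e (nat_lit 188452) (nat_lit 23) (.e (nat_lit 212736) (nat_lit 26) .nil))))) (.g (nat_lit 0) (.e (nat_lit 422862) (nat_lit 0) .nil) .nil))))) (.nd (nat_lit 8) (.nd (nat_lit 9) 
(.lf (nat_lit 601252) (.g (nat_lit 3732) (.e (nat_lit 557109) (nat_lit 15) (.e (nat_lit 188452) (nat_lit 23) (.e (nat_lit 204846) (nat_lit 24) (.e (nat_lit 319505) (nat_lit 10) (.e (nat_lit 7936) (nat_lit 313) (.e (nat_lit 8324) (nat_lit 69) .nil)))))) (.g (nat_lit 1) (.e (nat_lit 420335) (nat_lit 0) .nil) .nil))) 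
(.lf (nat_lit 601764) (.g (nat_lit 2588) (.e (nat_lit 638995) (nat_lit 7) (.e (nat_lit 163979) (nat_lit 30) (.e (nat_lit 573489) (nat_lit 14) (.e (nat_lit 73753) (nat_lit 8) (.e (nat_lit 557103) (nat_lit 14) .nil))))) (.g (nat_lit 0) (.e (nat_lit 422297) (nat_lit 0) .nil) .nil)))) (.nd (nat_lit 9) 
(.lf (nat_lit 601508) (.g (nat_lit 372) (.e (nat_lit 630821) (nat_lit 16) (.e (nat_lit 65610) (nat_lit 10) (.e (nat_lit 344154) (nat_lit 35) .nil))) (.g (nat_lit 0) (.e (nat_lit 421353) (nat_lit 0) .nil) .nil))) 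
(.lf (nat_lit 602020) (.g (nat_lit 1938) (.e (nat_lit 663567) (nat_lit 4) (.e (nat_lit 65630) (nat_lit 14) (.e (nat_lit 401437) (nat_lit 9) (.e (nat_lit 426542) (nat_lit 29) (.e (nat_lit 352285) (nat_lit 20) .nil))))) (.g (nat_lit 0) (.e (nat_lit 422993) (nat_lit 0) .nil) .nil)))))) (.nd (nat_lit 7) (.nd (nat_lit 8) (.nd (nat_lit 9) 
(.lf (nat_lit 601188) (.g (nat_lit 2749) (.e (nat_lit 557107) (nat_lit 15) (.e (nat_lit 188439) (nat_lit 20) (.e (nat_lit 3272) (nat_lit 199) (.e (nat_lit 548915) (nat_lit 20) (.e (nat_lit 188420) (nat_lit 0) (.e (nat_lit 1856) (nat_lit 124) .nil)))))) (.g (nat_lit 1) (.e (nat_lit 420270) (nat_lit 0) .nil) .nil))) 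
(.lf (nat_lit 601700) (.g (nat_lit 1248) (.e (nat_lit 639023) (nat_lit 18) (.e (nat_lit 81950) (nat_lit 21) (.e (nat_lit 57857) (nat_lit 254) (.e (nat_lit 163908) (nat_lit 12) (.e (nat_lit 426286) (nat_lit 10) .nil))))) (.g (nat_lit 0) (.e (nat_lit 422074) (nat_lit 0) .nil) .nil)))) (.nd (nat_lit 9) 
(.lf (nat_lit 601444) (.g (nat_lit 3274) (.e (nat_lit 622626) (nat_lit 13) (.e (nat_lit 2663) (nat_lit 167) (.e (nat_lit 196666) (nat_lit 13) (.e (nat_lit 65610) (nat_lit 10) (.e (nat_lit 344117) (nat_lit 21) .nil))))) (.g (nat_lit 0) (.e (nat_lit 421189) (nat_lit 0) .nil) .nil))) 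
(.lf (nat_lit 601956) (.g (nat_lit 1204) (.e (nat_lit 663567) (nat_lit 4) (.e (nat_lit 65628) (nat_lit 14) (.e (nat_lit 401437) (nat_lit 9) (.e (nat_lit 426540) (nat_lit 29) .nil)))) (.g (nat_lit 0) (.e (nat_lit 422929) (nat_lit 0) .nil) .nil))))) (.nd (nat_lit 8) (.nd (nat_lit 9) 
(.lf (nat_lit 601316) (.g (nat_lit 1715) (.e (nat_lit 565267) (nat_lit 4) (.e (nat_lit 65610) (nat_lit 10) (.e (nat_lit 344183) (nat_lit 49) (.e (nat_lit 819221) (nat_lit 6) (.e (nat_lit 188440) (nat_lit 20) (.e (nat_lit 3289) (nat_lit 201) .nil)))))) (.g (nat_lit 1) (.e (nat_lit 420485) (nat_lit 0) .nil) .nil))) 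
(.lf (nat_lit 601828) (.g (nat_lit 421) (.e (nat_lit 638999) (nat_lit 8) (.e (nat_lit 172115) (nat_lit 10) (.e (nat_lit 434266) (nat_lit 35) .nil))) (.g (nat_lit 0) (.e (nat_lit 422724) (nat_lit 0) .nil) .nil)))) (.nd (nat_lit 9) 
(.lf (nat_lit 601572) (.g (nat_lit 1103) (.e (nat_lit 630802) (nat_lit 8) (.e (nat_lit 172082) (nat_lit 7) (.e (nat_lit 409646) (nat_lit 18) (.e (nat_lit 303112) (nat_lit 0) .nil)))) (.g (nat_lit 0) (.e (nat_lit 421548) (nat_lit 0) .nil) .nil))) 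
(.lf (nat_lit 602084) (.g (nat_lit 1853) (.e (nat_lit 663569) (nat_lit 6) (.e (nat_lit 81924) (nat_lit 0) (.e (nat_lit 3632) (nat_lit 227) (.e (nat_lit 778326) (nat_lit 6) (.e (nat_lit 81935) (nat_lit 20) (.e (nat_lit 1994) (nat_lit 137) .nil)))))) (.g (nat_lit 1) (.e (nat_lit 423060) (nat_lit 0) .nil) .nil)))))))) 
(.nd (nat_lit 5) (.nd (nat_lit 6) (.nd (nat_lit 7) (.nd (nat_lit 8) (.nd (nat_lit 9) 
(.lf (nat_lit 601108) (.g (nat_lit 3300) (.e (nat_lit 557105) (nat_lit 14) (.e (nat_lit 180252) (nat_lit 10) (.e (nat_lit 573482) (nat_lit 13) (.e (nat_lit 65568) (nat_lit 2) (.e (nat_lit 98048) (nat_lit 0) (.e (nat_lit 375) (nat_lit 32) (.e (nat_lit 426025) (nat_lit 0) (.e (nat_lit 3277) (nat_lit 200) .nil)))))))) (.g (nat_lit 1) (.e (nat_lit 420165) (nat_lit 0) .nil) .nil))) 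
(.lf (nat_lit 601620) (.g (nat_lit 1860) (.e (nat_lit 639020) (nat_lit 16) (.e (nat_lit 65571) (nat_lit 3) (.e (nat_lit 98370) (nat_lit 28) (.e (nat_lit 442394) (nat_lit 20) .nil)))) (.g (nat_lit 0) (.e (nat_lit 421711) (nat_lit 0) .nil) .nil)))) (.nd (nat_lit 9) 
(.lf (nat_lit 601364) (.g (nat_lit 524) (.e (nat_lit 565268) (nat_lit 5) (.e (nat_lit 73788) (nat_lit 45) (.e (nat_lit 1162) (nat_lit 86) (.e (nat_lit 49157) (nat_lit 0) (.e (nat_lit 3012) (nat_lit 187) (.e (nat_lit 458496) (nat_lit 9) .nil)))))) (.g (nat_lit 1) (.e (nat_lit 420555) (nat_lit 0) .nil) .nil))) 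
(.lf (nat_lit 601876) (.g (nat_lit 991) (.e (nat_lit 663559) (nat_lit 0) (.e (nat_lit 1425) (nat_lit 108) (.e (nat_lit 336208) (nat_lit 12) (.e (nat_lit 385102) (nat_lit 50) .nil)))) (.g (nat_lit 0) (.e (nat_lit 422832) (nat_lit 0) .nil) .nil))))) (.nd (nat_lit 8) (.nd (nat_lit 9) 
(.lf (nat_lit 601236) (.g (nat_lit 3157) (.e (nat_lit 557108) (nat_lit 15) (.e (nat_lit 188452) (nat_lit 23) (.e (nat_lit 204846) (nat_lit 24) (.e (nat_lit 319534) (nat_lit 16) (.e (nat_lit 286765) (nat_lit 15) (.e (nat_lit 7936) (nat_lit 200) .nil)))))) (.g (nat_lit 1) (.e (nat_lit 420318) (nat_lit 0) .nil) .nil))) 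
(.lf (nat_lit 601748) (.g (nat_lit 3560) (.e (nat_lit 638995) (nat_lit 7) (.e (nat_lit 163978) (nat_lit 30) (.e (nat_lit 573489) (nat_lit 14) (.e (nat_lit 73754) (nat_lit 8) (.e (nat_lit 557105) (nat_lit 14) (.e (nat_lit 180252) (nat_lit 10) (.e (nat_lit 573473) (nat_lit 12) (.e (nat_lit 57503) (nat_lit 38) .nil)))))))) (.g (nat_lit 1) (.e (nat_lit 422232) (nat_lit 0) .nil) .nil)))) 
(.nd (nat_lit 9) 
(.lf (nat_lit 601492) (.g (nat_lit 1345) (.e (nat_lit 630821) (nat_lit 16) (.e (nat_lit 65542) (nat_lit 0) (.e (nat_lit 6218) (nat_lit 333) (.e (nat_lit 57819) (nat_lit 248) (.e (nat_lit 164359) (nat_lit 246) (.e (nat_lit 2979) (nat_lit 185) (.e (nat_lit 434266) (nat_lit 35) .nil))))))) (.g (nat_lit 1) (.e (nat_lit 421336) (nat_lit 0) .nil) .nil))) 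
(.lf (nat_lit 602004) (.g (nat_lit 2054) (.e (nat_lit 663567) (nat_lit 4) (.e (nat_lit 65630) (nat_lit 14) (.e (nat_lit 401437) (nat_lit 9) (.e (nat_lit 426493) (nat_lit 27) .nil)))) (.g (nat_lit 0) (.e (nat_lit 422977) (nat_lit 0) .nil) .nil)))))) (.nd (nat_lit 7) (.nd (nat_lit 8) (.nd (nat_lit 9) 
(.lf (nat_lit 601172) (.g (nat_lit 1034) (.e (nat_lit 557107) (nat_lit 15) (.e (nat_lit 188439) (nat_lit 20) (.e (nat_lit 3270) (nat_lit 199) (.e (nat_lit 548898) (nat_lit 14) (.e (nat_lit 2989) (nat_lit 186) (.e (nat_lit 450304) (nat_lit 0) (.e (nat_lit 1859) (nat_lit 124) .nil))))))) (.g (nat_lit 1) (.e (nat_lit 420254) (nat_lit 0) .nil) .nil))) 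
(.lf (nat_lit 601684) (.g (nat_lit 1621) (.e (nat_lit 639021) (nat_lit 16) (.e (nat_lit 65617) (nat_lit 10) (.e (nat_lit 344164) (nat_lit 37) (.e (nat_lit 647190) (nat_lit 9) (.e (nat_lit 7936) (nat_lit 34) (.e (nat_lit 442408) (nat_lit 20) (.e (nat_lit 3390) (nat_lit 210) .nil))))))) (.g (nat_lit 1) (.e (nat_lit 421978) (nat_lit 0) .nil) .nil)))) (.nd (nat_lit 9) 
(.lf (nat_lit 601428) (.g (nat_lit 3215) (.e (nat_lit 622620) (nat_lit 13) (.e (nat_lit 2663) (nat_lit 167) (.e (nat_lit 196666) (nat_lit 13) (.e (nat_lit 65610) (nat_lit 10) (.e (nat_lit 344117) (nat_lit 21) .nil))))) (.g (nat_lit 0) (.e (nat_lit 421143) (nat_lit 0) .nil) .nil))) 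
(.lf (nat_lit 601940) (.g (nat_lit 1338) (.e (nat_lit 663567) (nat_lit 4) (.e (nat_lit 65628) (nat_lit 14) (.e (nat_lit 401436) (nat_lit 9) (.e (nat_lit 426546) (nat_lit 30) (.e (nat_lit 368384) (nat_lit 17) .nil))))) (.g (nat_lit 1) (.e (nat_lit 422913) (nat_lit 0) .nil) .nil))))) (.nd (nat_lit 8) (.nd (nat_lit 9) 
(.lf (nat_lit 601300) (.g (nat_lit 2408) (.e (nat_lit 565252) (nat_lit 0) (.e (nat_lit 1586) (nat_lit 111) (.e (nat_lit 360493) (nat_lit 27) (.e (nat_lit 819204) (nat_lit 0) (.e (nat_lit 3015) (nat_lit 187) (.e (nat_lit 450584) (nat_lit 9) .nil)))))) (.g (nat_lit 1) (.e (nat_lit 420432) (nat_lit 0) .nil) .nil))) 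
(.lf (nat_lit 601812) (.g (nat_lit 1663) (.e (nat_lit 638998) (nat_lit 8) (.e (nat_lit 172123) (nat_lit 13) (.e (nat_lit 483404) (nat_lit 26) (.e (nat_lit 385109) (nat_lit 51) (.e (nat_lit 794641) (nat_lit 20) .nil))))) (.g (nat_lit 0) (.e (nat_lit 422559) (nat_lit 0) .nil) .nil)))) (.nd (nat_lit 9) 
(.lf (nat_lit 601556) (.g (nat_lit 2454) (.e (nat_lit 630800) (nat_lit 7) (.e (nat_lit 163979) (nat_lit 30) (.e (nat_lit 573487) (nat_lit 14) (.e (nat_lit 73754) (nat_lit 8) (.e (nat_lit 557105) (nat_lit 14) .nil))))) (.g (nat_lit 0) (.e (nat_lit 421457) (nat_lit 0) .nil) .nil))) 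
(.lf (nat_lit 602068) (.g (nat_lit 1710) (.e (nat_lit 663568) (nat_lit 5) (.e (nat_lit 73782) (nat_lit 32) (.e (nat_lit 2856) (nat_lit 184) (.e (nat_lit 426546) (nat_lit 30) (.e (nat_lit 368384) (nat_lit 17) .nil))))) (.g (nat_lit 1) (.e (nat_lit 423043) (nat_lit 0) .nil) .nil))))))) (.nd (nat_lit 6) (.nd (nat_lit 7) (.nd (nat_lit 8) (.nd (nat_lit 9) 
(.lf (nat_lit 601140) (.g (nat_lit 3138) (.e (nat_lit 557105) (nat_lit 14) (.e (nat_lit 180252) (nat_lit 10) (.e (nat_lit 573489) (nat_lit 14) (.e (nat_lit 73755) (nat_lit 8) (.e (nat_lit 557119) (nat_lit 18) (.e (nat_lit 2796) (nat_lit 180) (.e (nat_lit 303109) (nat_lit 0) (.e (nat_lit 7936) (nat_lit 200) .nil)))))))) (.g (nat_lit 1) (.e (nat_lit 420197) (nat_lit 0) .nil) .nil))) 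
(.lf (nat_lit 601652) (.g (nat_lit 2260) (.e (nat_lit 639020) (nat_lit 16) (.e (nat_lit 65627) (nat_lit 13) (.e (nat_lit 393284) (nat_lit 24) (.e (nat_lit 434276) (nat_lit 39) (.e (nat_lit 663580) (nat_lit 9) (.e (nat_lit 2416) (nat_lit 157) (.e (nat_lit 3388) (nat_lit 210) .nil))))))) (.g (nat_lit 1) (.e (nat_lit 421820) (nat_lit 0) .nil) .nil)))) (.nd (nat_lit 9) 
(.lf (nat_lit 601396) (.g (nat_lit 1723) (.e (nat_lit 565269) (nat_lit 6) (.e (nat_lit 81943) (nat_lit 20) (.e (nat_lit 2390) (nat_lit 156) (.e (nat_lit 819221) (nat_lit 6) (.e (nat_lit 188441) (nat_lit 20) (.e (nat_lit 3289) (nat_lit 201) .nil)))))) (.g (nat_lit 1) (.e (nat_lit 420603) (nat_lit 0) .nil) .nil))) 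
(.lf (nat_lit 601908) (.g (nat_lit 3782) (.e (nat_lit 663565) (nat_lit 3) (.e (nat_lit 57480) (nat_lit 28) (.e (nat_lit 557109) (nat_lit 15) (.e (nat_lit 188450) (nat_lit 23) (.e (nat_lit 204855) (nat_lit 26) .nil))))) (.g (nat_lit 0) (.e (nat_lit 422879) (nat_lit 0) .nil) .nil))))) (.nd (nat_lit 8) (.nd (nat_lit 9) 
(.lf (nat_lit 601268) (.g (nat_lit 1291) (.e (nat_lit 557119) (nat_lit 18) (.e (nat_lit 2797) (nat_lit 180) (.e (nat_lit 303145) (nat_lit 13) (.e (nat_lit 491264) (nat_lit 0) .nil)))) (.g (nat_lit 0) (.e (nat_lit 420366) (nat_lit 0) .nil) .nil))) 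
(.lf (nat_lit 601780) (.g (nat_lit 2569) (.e (nat_lit 638996) (nat_lit 7) (.e (nat_lit 163978) (nat_lit 30) (.e (nat_lit 573487) (nat_lit 14) (.e (nat_lit 73754) (nat_lit 8) (.e (nat_lit 557105) (nat_lit 14) .nil))))) (.g (nat_lit 0) (.e (nat_lit 422451) (nat_lit 0) .nil) .nil)))) (.nd (nat_lit 9) 
(.lf (nat_lit 601524) (.g (nat_lit 1693) (.e (nat_lit 630821) (nat_lit 16) (.e (nat_lit 65617) (nat_lit 10) (.e (nat_lit 344156) (nat_lit 36) (.e (nat_lit 638998) (nat_lit 8) (.e (nat_lit 172116) (nat_lit 10) .nil))))) (.g (nat_lit 0) (.e (nat_lit 421369) (nat_lit 0) .nil) .nil))) 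
(.lf (nat_lit 602036) (.g (nat_lit 2936) (.e (nat_lit 663567) (nat_lit 4) (.e (nat_lit 65630) (nat_lit 14) (.e (nat_lit 401454) (nat_lit 12) (.e (nat_lit 475163) (nat_lit 21) .nil)))) (.g (nat_lit 0) (.e (nat_lit 423009) (nat_lit 0) .nil) .nil)))))) (.nd (nat_lit 7) (.nd (nat_lit 8) (.nd (nat_lit 9) 
(.lf (nat_lit 601204) (.g (nat_lit 2489) (.e (nat_lit 557107) (nat_lit 15) (.e (nat_lit 188447) (nat_lit 22) (.e (nat_lit 196661) (nat_lit 12) (.e (nat_lit 57751) (nat_lit 201) (.e (nat_lit 2855) (nat_lit 184) (.e (nat_lit 426402) (nat_lit 15) (.e (nat_lit 1849) (nat_lit 124) .nil))))))) (.g (nat_lit 1) (.e (nat_lit 420286) (nat_lit 0) .nil) .nil))) 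
(.lf (nat_lit 601716) (.g (nat_lit 407) (.e (nat_lit 638985) (nat_lit 5) (.e (nat_lit 3016) (nat_lit 187) (.e (nat_lit 450592) (nat_lit 14) .nil))) (.g (nat_lit 0) (.e (nat_lit 422117) (nat_lit 0) .nil) .nil)))) (.nd (nat_lit 9) 
(.lf (nat_lit 601460) (.g (nat_lit 3371) (.e (nat_lit 622630) (nat_lit 13) (.e (nat_lit 2663) (nat_lit 167) (.e (nat_lit 196666) (nat_lit 13) (.e (nat_lit 65610) (nat_lit 10) (.e (nat_lit 344117) (nat_lit 21) .nil))))) (.g (nat_lit 0) (.e (nat_lit 421221) (nat_lit 0) .nil) .nil))) 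
(.lf (nat_lit 601972) (.g (nat_lit 1759) (.e (nat_lit 663567) (nat_lit 4) (.e (nat_lit 65628) (nat_lit 14) (.e (nat_lit 401438) (nat_lit 9) (.e (nat_lit 426546) (nat_lit 30) (.e (nat_lit 368384) (nat_lit 17) .nil))))) (.g (nat_lit 1) (.e (nat_lit 422945) (nat_lit 0) .nil) .nil))))) (.nd (nat_lit 8) (.nd (nat_lit 9) 
(.lf (nat_lit 601332) (.g (nat_lit 2236) (.e (nat_lit 565267) (nat_lit 4) (.e (nat_lit 65617) (nat_lit 10) (.e (nat_lit 344091) (nat_lit 18) (.e (nat_lit 7708) (nat_lit 414) (.e (nat_lit 163908) (nat_lit 12) (.e (nat_lit 426286) (nat_lit 10) (.e (nat_lit 434241) (nat_lit 27) .nil))))))) (.g (nat_lit 1) (.e (nat_lit 420509) (nat_lit 0) .nil) .nil))) 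
(.lf (nat_lit 601844) (.g (nat_lit 3922) (.e (nat_lit 663552) (nat_lit 0) (.e (nat_lit 1671) (nat_lit 116) (.e (nat_lit 401451) (nat_lit 12) (.e (nat_lit 475207) (nat_lit 41) .nil)))) (.g (nat_lit 0) (.e (nat_lit 422781) (nat_lit 0) .nil) .nil)))) (.nd (nat_lit 9) 
(.lf (nat_lit 601588) (.g (nat_lit 468) (.e (nat_lit 639007) (nat_lit 13) (.e (nat_lit 1586) (nat_lit 111) (.e (nat_lit 368384) (nat_lit 0) .nil))) (.g (nat_lit 0) (.e (nat_lit 421625) (nat_lit 0) .nil) .nil))) 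
(.lf (nat_lit 602100) (.g (nat_lit 1069) (.e (nat_lit 663569) (nat_lit 6) (.e (nat_lit 81956) (nat_lit 23) (.e (nat_lit 98346) (nat_lit 22) .nil))) (.g (nat_lit 0) (.e (nat_lit 423076) (nat_lit 0) .nil) .nil))))))))) (.nd (nat_lit 4) (.nd (nat_lit 5) (.nd (nat_lit 6) (.nd (nat_lit 7) (.nd (nat_lit 8) (.nd (nat_lit 9) 
(.lf (nat_lit 601100) (.g (nat_lit 2243) (.e (nat_lit 557105) (nat_lit 14) (.e (nat_lit 180252) (nat_lit 10) (.e (nat_lit 573481) (nat_lit 13) (.e (nat_lit 65568) (nat_lit 2) (.e (nat_lit 98048) (nat_lit 2) (.e (nat_lit 16395) (nat_lit 0) (.e (nat_lit 7936) (nat_lit 200) .nil))))))) (.g (nat_lit 1) (.e (nat_lit 420157) (nat_lit 0) .nil) .nil))) 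
(.lf (nat_lit 601612) (.g (nat_lit 2510) (.e (nat_lit 639016) (nat_lit 15) (.e (nat_lit 57477) (nat_lit 28) (.e (nat_lit 557105) (nat_lit 14) (.e (nat_lit 180252) (nat_lit 10) (.e (nat_lit 573489) (nat_lit 14) .nil))))) (.g (nat_lit 0) (.e (nat_lit 421691) (nat_lit 0) .nil) .nil)))) (.nd (nat_lit 9) 
(.lf (nat_lit 601356) (.g (nat_lit 1468) (.e (nat_lit 565267) (nat_lit 4) (.e (nat_lit 65620) (nat_lit 10) (.e (nat_lit 344183) (nat_lit 49) (.e (nat_lit 819219) (nat_lit 4) (.e (nat_lit 172112) (nat_lit 10) (.e (nat_lit 434241) (nat_lit 27) .nil)))))) (.g (nat_lit 1) (.e (nat_lit 420545) (nat_lit 0) .nil) .nil))) 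
(.lf (nat_lit 601868) (.g (nat_lit 4284) (.e (nat_lit 663557) (nat_lit 0) (.e (nat_lit 1671) (nat_lit 116) (.e (nat_lit 401451) (nat_lit 12) (.e (nat_lit 475207) (nat_lit 41) (.e (nat_lit 712755) (nat_lit 30) .nil))))) (.g (nat_lit 0) (.e (nat_lit 422823) (nat_lit 0) .nil) .nil))))) (.nd (nat_lit 8) (.nd (nat_lit 9) 
(.lf (nat_lit 601228) (.g (nat_lit 3604) (.e (nat_lit 557107) (nat_lit 15) (.e (nat_lit 188452) (nat_lit 23) (.e (nat_lit 204885) (nat_lit 33) (.e (nat_lit 401453) (nat_lit 12) (.e (nat_lit 475184) (nat_lit 29) .nil))))) (.g (nat_lit 1) (.e (nat_lit 420310) (nat_lit 0) .nil) .nil))) 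
(.lf (nat_lit 601740) (.g (nat_lit 5432) (.e (nat_lit 638995) (nat_lit 7) (.e (nat_lit 163977) (nat_lit 30) (.e (nat_lit 573489) (nat_lit 14) (.e (nat_lit 73755) (nat_lit 8) (.e (nat_lit 557105) (nat_lit 14) (.e (nat_lit 180251) (nat_lit 10) (.e (nat_lit 573475) (nat_lit 12) (.e (nat_lit 57503) (nat_lit 38) .nil)))))))) (.g (nat_lit 1) (.e (nat_lit 422196) (nat_lit 0) .nil) .nil)))) 
(.nd (nat_lit 9) 
(.lf (nat_lit 601484) (.g (nat_lit 1911) (.e (nat_lit 630820) (nat_lit 16) (.e (nat_lit 65617) (nat_lit 10) (.e (nat_lit 344156) (nat_lit 36) (.e (nat_lit 638998) (nat_lit 8) (.e (nat_lit 172112) (nat_lit 10) (.e (nat_lit 434265) (nat_lit 35) .nil)))))) (.g (nat_lit 1) (.e (nat_lit 421322) (nat_lit 0) .nil) .nil))) 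
(.lf (nat_lit 601996) (.g (nat_lit 1611) (.e (nat_lit 663567) (nat_lit 4) (.e (nat_lit 65630) (nat_lit 14) (.e (nat_lit 401435) (nat_lit 9) (.e (nat_lit 426555) (nat_lit 32) .nil)))) (.g (nat_lit 0) (.e (nat_lit 422969) (nat_lit 0) .nil) .nil)))))) (.nd (nat_lit 7) (.nd (nat_lit 8) (.nd (nat_lit 9) 
(.lf (nat_lit 601164) (.g (nat_lit 1535) (.e (nat_lit 557105) (nat_lit 14) (.e (nat_lit 180277) (nat_lit 32) (.e (nat_lit 1235) (nat_lit 91) (.e (nat_lit 90134) (nat_lit 9) (.e (nat_lit 3002) (nat_lit 186) .nil))))) (.g (nat_lit 0) (.e (nat_lit 420241) (nat_lit 0) .nil) .nil))) 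
(.lf (nat_lit 601676) (.g (nat_lit 2050) (.e (nat_lit 639021) (nat_lit 16) (.e (nat_lit 65617) (nat_lit 10) (.e (nat_lit 344161) (nat_lit 37) (.e (nat_lit 647190) (nat_lit 9) (.e (nat_lit 7936) (nat_lit 34) (.e (nat_lit 442403) (nat_lit 20) (.e (nat_lit 3390) (nat_lit 210) .nil))))))) (.g (nat_lit 1) (.e (nat_lit 421967) (nat_lit 0) .nil) .nil)))) (.nd (nat_lit 9) 
(.lf (nat_lit 601420) (.g (nat_lit 5393) (.e (nat_lit 614435) (nat_lit 11) (.e (nat_lit 16412) (nat_lit 2) (.e (nat_lit 196666) (nat_lit 13) (.e (nat_lit 65610) (nat_lit 10) (.e (nat_lit 344117) (nat_lit 21) (.e (nat_lit 516097) (nat_lit 0) (.e (nat_lit 3358) (nat_lit 207) .nil))))))) (.g (nat_lit 1) (.e (nat_lit 421107) (nat_lit 0) .nil) .nil))) 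
(.lf (nat_lit 601932) (.g (nat_lit 903) (.e (nat_lit 663567) (nat_lit 4) (.e (nat_lit 65617) (nat_lit 10) (.e (nat_lit 344169) (nat_lit 40) (.e (nat_lit 671764) (nat_lit 6) .nil)))) (.g (nat_lit 0) (.e (nat_lit 422905) (nat_lit 0) .nil) .nil))))) (.nd (nat_lit 8) (.nd (nat_lit 9) 
(.lf (nat_lit 601292) (.g (nat_lit 1511) (.e (nat_lit 565251) (nat_lit 0) (.e (nat_lit 1586) (nat_lit 111) (.e (nat_lit 360451) (nat_lit 0) (.e (nat_lit 7612) (nat_lit 410) .nil)))) (.g (nat_lit 0) (.e (nat_lit 420412) (nat_lit 0) .nil) .nil))) 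
(.lf (nat_lit 601804) (.g (nat_lit 3150) (.e (nat_lit 638998) (nat_lit 8) (.e (nat_lit 172107) (nat_lit 10) (.e (nat_lit 434268) (nat_lit 36) (.e (nat_lit 639020) (nat_lit 16) (.e (nat_lit 65610) (nat_lit 10) (.e (nat_lit 344156) (nat_lit 36) .nil)))))) (.g (nat_lit 1) (.e (nat_lit 422548) (nat_lit 0) .nil) .nil)))) (.nd (nat_lit 9) 
(.lf (nat_lit 601548) (.g (nat_lit 2676) (.e (nat_lit 630799) (nat_lit 7) (.e (nat_lit 163978) (nat_lit 30) (.e (nat_lit 573489) (nat_lit 14) (.e (nat_lit 73754) (nat_lit 8) (.e (nat_lit 557105) (nat_lit 14) .nil))))) (.g (nat_lit 0) (.e (nat_lit 421419) (nat_lit 0) .nil) .nil))) 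
(.lf (nat_lit 602060) (.g (nat_lit 1677) (.e (nat_lit 663568) (nat_lit 5) (.e (nat_lit 73781) (nat_lit 32) (.e (nat_lit 2856) (nat_lit 184) (.e (nat_lit 426544) (nat_lit 30) (.e (nat_lit 368384) (nat_lit 17) .nil))))) (.g (nat_lit 1) (.e (nat_lit 423035) (nat_lit 0) .nil) .nil))))))) (.nd (nat_lit 6) (.nd (nat_lit 7) (.nd (nat_lit 8) (.nd (nat_lit 9) 
(.lf (nat_lit 601132) (.g (nat_lit 2491) (.e (nat_lit 557105) (nat_lit 14) (.e (nat_lit 180252) (nat_lit 10) (.e (nat_lit 573489) (nat_lit 14) (.e (nat_lit 73747) (nat_lit 3) (.e (nat_lit 524032) (nat_lit 24) .nil))))) (.g (nat_lit 0) (.e (nat_lit 420189) (nat_lit 0) .nil) .nil))) 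
(.lf (nat_lit 601644) (.g (nat_lit 552) (.e (nat_lit 639020) (nat_lit 16) (.e (nat_lit 65619) (nat_lit 10) (.e (nat_lit 344156) (nat_lit 36) .nil))) (.g (nat_lit 0) (.e (nat_lit 421784) (nat_lit 0) .nil) .nil)))) (.nd (nat_lit 9) 
(.lf (nat_lit 601388) (.g (nat_lit 625) (.e (nat_lit 565268) (nat_lit 5) (.e (nat_lit 73792) (nat_lit 45) (.e (nat_lit 1163) (nat_lit 86) (.e (nat_lit 49157) (nat_lit 0) (.e (nat_lit 3012) (nat_lit 187) (.e (nat_lit 458496) (nat_lit 9) .nil)))))) (.g (nat_lit 1) (.e (nat_lit 420579) (nat_lit 0) .nil) .nil))) 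
(.lf (nat_lit 601900) (.g (nat_lit 2384) (.e (nat_lit 663565) (nat_lit 3) (.e (nat_lit 57480) (nat_lit 28) (.e (nat_lit 557108) (nat_lit 15) (.e (nat_lit 188452) (nat_lit 23) (.e (nat_lit 204851) (nat_lit 26) .nil))))) (.g (nat_lit 0) (.e (nat_lit 422871) (nat_lit 0) .nil) .nil))))) (.nd (nat_lit 8) (.nd (nat_lit 9) 
(.lf (nat_lit 601260) (.g (nat_lit 3039) (.e (nat_lit 557109) (nat_lit 15) (.e (nat_lit 188452) (nat_lit 23) (.e (nat_lit 204846) (nat_lit 24) (.e (nat_lit 319534) (nat_lit 16) (.e (nat_lit 286766) (nat_lit 15) (.e (nat_lit 7936) (nat_lit 200) .nil)))))) (.g (nat_lit 1) (.e (nat_lit 420343) (nat_lit 0) .nil) .nil))) 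
(.lf (nat_lit 601772) (.g (nat_lit 5987) (.e (nat_lit 638995) (nat_lit 7) (.e (nat_lit 163979) (nat_lit 30) (.e (nat_lit 573489) (nat_lit 14) (.e (nat_lit 73755) (nat_lit 8) (.e (nat_lit 557105) (nat_lit 14) (.e (nat_lit 180251) (nat_lit 10) (.e (nat_lit 573475) (nat_lit 12) (.e (nat_lit 57503) (nat_lit 38) .nil)))))))) (.g (nat_lit 1) (.e (nat_lit 422305) (nat_lit 0) .nil) .nil)))) 
(.nd (nat_lit 9) 
(.lf (nat_lit 601516) (.g (nat_lit 1852) (.e (nat_lit 630821) (nat_lit 16) (.e (nat_lit 65610) (nat_lit 10) (.e (nat_lit 344160) (nat_lit 37) (.e (nat_lit 647190) (nat_lit 9) (.e (nat_lit 7936) (nat_lit 35) .nil))))) (.g (nat_lit 0) (.e (nat_lit 421361) (nat_lit 0) .nil) .nil))) 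
(.lf (nat_lit 602028) (.g (nat_lit 2174) (.e (nat_lit 663567) (nat_lit 4) (.e (nat_lit 65630) (nat_lit 14) (.e (nat_lit 401438) (nat_lit 9) (.e (nat_lit 426542) (nat_lit 29) (.e (nat_lit 352280) (nat_lit 20) (.e (nat_lit 1994) (nat_lit 137) .nil)))))) (.g (nat_lit 1) (.e (nat_lit 423001) (nat_lit 0) .nil) .nil)))))) (.nd (nat_lit 7) (.nd (nat_lit 8) (.nd (nat_lit 9) 
(.lf (nat_lit 601196) (.g (nat_lit 2546) (.e (nat_lit 557107) (nat_lit 15) (.e (nat_lit 188447) (nat_lit 22) (.e (nat_lit 196661) (nat_lit 12) (.e (nat_lit 57750) (nat_lit 201) (.e (nat_lit 2854) (nat_lit 184) (.e (nat_lit 426402) (nat_lit 15) (.e (nat_lit 1849) (nat_lit 124) .nil))))))) (.g (nat_lit 1) (.e (nat_lit 420278) (nat_lit 0) .nil) .nil))) 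
(.lf (nat_lit 601708) (.g (nat_lit 1787) (.e (nat_lit 639025) (nat_lit 20) (.e (nat_lit 131116) (nat_lit 9) (.e (nat_lit 335988) (nat_lit 1) (.e (nat_lit 57830) (nat_lit 250) (.e (nat_lit 7936) (nat_lit 166) (.e (nat_lit 188435) (nat_lit 20) (.e (nat_lit 3391) (nat_lit 210) .nil))))))) (.g (nat_lit 1) (.e (nat_lit 422093) (nat_lit 0) .nil) .nil)))) (.nd (nat_lit 9) 
(.lf (nat_lit 601452) (.g (nat_lit 4344) (.e (nat_lit 622627) (nat_lit 13) (.e (nat_lit 2663) (nat_lit 167) (.e (nat_lit 196666) (nat_lit 13) (.e (nat_lit 65610) (nat_lit 10) (.e (nat_lit 344117) (nat_lit 21) (.e (nat_lit 516151) (nat_lit 9) (.e (nat_lit 426023) (nat_lit 0) (.e (nat_lit 7936) (nat_lit 208) .nil)))))))) (.g (nat_lit 1) (.e (nat_lit 421199) (nat_lit 0) .nil) .nil))) 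
(.lf (nat_lit 601964) (.g (nat_lit 2093) (.e (nat_lit 663567) (nat_lit 4) (.e (nat_lit 65628) (nat_lit 14) (.e (nat_lit 401437) (nat_lit 9) (.e (nat_lit 426555) (nat_lit 32) (.e (nat_lit 376843) (nat_lit 20) .nil))))) (.g (nat_lit 0) (.e (nat_lit 422937) (nat_lit 0) .nil) .nil))))) (.nd (nat_lit 8) (.nd (nat_lit 9) 
(.lf (nat_lit 601324) (.g (nat_lit 1431) (.e (nat_lit 565267) (nat_lit 4) (.e (nat_lit 65616) (nat_lit 10) (.e (nat_lit 344183) (nat_lit 49) (.e (nat_lit 819219) (nat_lit 4) (.e (nat_lit 172112) (nat_lit 10) (.e (nat_lit 434241) (nat_lit 27) .nil)))))) (.g (nat_lit 1) (.e (nat_lit 420500) (nat_lit 0) .nil) .nil))) 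
(.lf (nat_lit 601836) (.g (nat_lit 407) (.e (nat_lit 639001) (nat_lit 10) (.e (nat_lit 188441) (nat_lit 20) (.e (nat_lit 3390) (nat_lit 210) .nil))) (.g (nat_lit 0) (.e (nat_lit 422768) (nat_lit 0) .nil) .nil)))) (.nd (nat_lit 9) 
(.lf (nat_lit 601580) (.g (nat_lit 456) (.e (nat_lit 630802) (nat_lit 8) (.e (nat_lit 172113) (nat_lit 10) (.e (nat_lit 434279) (nat_lit 39) .nil))) (.g (nat_lit 0) (.e (nat_lit 421571) (nat_lit 0) .nil) .nil))) 
(.lf (nat_lit 602092) (.g (nat_lit 496) (.e (nat_lit 663569) (nat_lit 6) (.e (nat_lit 81938) (nat_lit 20) (.e (nat_lit 2006) (nat_lit 138) .nil))) (.g (nat_lit 0) (.e (nat_lit 423068) (nat_lit 0) .nil) .nil)))))))) (.nd (nat_lit 5) (.nd (nat_lit 6) (.nd (nat_lit 7) (.nd (nat_lit 8) (.nd (nat_lit 9) 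
(.lf (nat_lit 601116) (.g (nat_lit 2869) (.e (nat_lit 557105) (nat_lit 14) (.e (nat_lit 180252) (nat_lit 10) (.e (nat_lit 573482) (nat_lit 13) (.e (nat_lit 65568) (nat_lit 2) (.e (nat_lit 98048) (nat_lit 2) (.e (nat_lit 16389) (nat_lit 0) (.e (nat_lit 7936) (nat_lit 200) .nil))))))) (.g (nat_lit 1) (.e (nat_lit 420173) (nat_lit 0) .nil) .nil))) 
(.lf (nat_lit 601628) (.g (nat_lit 2779) (.e (nat_lit 639020) (nat_lit 16) (.e (nat_lit 65571) (nat_lit 3) (.e (nat_lit 98374) (nat_lit 29) (.e (nat_lit 458496) (nat_lit 3) (.e (nat_lit 516106) (nat_lit 0) (.e (nat_lit 3386) (nat_lit 210) .nil)))))) (.g (nat_lit 1) (.e (nat_lit 421719) (nat_lit 0) .nil) .nil)))) (.nd (nat_lit 9) 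
(.lf (nat_lit 601372) (.g (nat_lit 623) (.e (nat_lit 565268) (nat_lit 5) (.e (nat_lit 73789) (nat_lit 45) (.e (nat_lit 1163) (nat_lit 86) (.e (nat_lit 49156) (nat_lit 0) (.e (nat_lit 3012) (nat_lit 187) (.e (nat_lit 458496) (nat_lit 9) .nil)))))) (.g (nat_lit 1) (.e (nat_lit 420563) (nat_lit 0) .nil) .nil))) 
(.lf (nat_lit 601884) (.g (nat_lit 2197) (.e (nat_lit 663565) (nat_lit 3) (.e (nat_lit 57479) (nat_lit 28) (.e (nat_lit 557095) (nat_lit 13) (.e (nat_lit 172097) (nat_lit 9) .nil)))) (.g (nat_lit 0) (.e (nat_lit 422854) (nat_lit 0) .nil) .nil))))) (.nd (nat_lit 8) (.nd (nat_lit 9) 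
(.lf (nat_lit 601244) (.g (nat_lit 179) (.e (nat_lit 557109) (nat_lit 15) (.e (nat_lit 188427) (nat_lit 20) (.e (nat_lit 3263) (nat_lit 199) .nil))) (.g (nat_lit 0) (.e (nat_lit 420326) (nat_lit 0) .nil) .nil))) 
(.lf (nat_lit 601756) (.g (nat_lit 3832) (.e (nat_lit 638995) (nat_lit 7) (.e (nat_lit 163979) (nat_lit 30) (.e (nat_lit 573487) (nat_lit 14) (.e (nat_lit 73753) (nat_lit 8) (.e (nat_lit 557105) (nat_lit 14) (.e (nat_lit 180251) (nat_lit 10) (.e (nat_lit 573477) (nat_lit 12) (.e (nat_lit 57502) (nat_lit 38) .nil)))))))) (.g (nat_lit 1) (.e (nat_lit 422278) (nat_lit 0) .nil) .nil)))) 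
(.nd (nat_lit 9) 
(.lf (nat_lit 601500) (.g (nat_lit 341) (.e (nat_lit 630821) (nat_lit 16) (.e (nat_lit 65585) (nat_lit 7) (.e (nat_lit 319527) (nat_lit 15) (.e (nat_lit 278546) (nat_lit 8) (.e (nat_lit 303139) (nat_lit 10) .nil))))) (.g (nat_lit 0) (.e (nat_lit 421344) (nat_lit 0) .nil) .nil))) 
(.lf (nat_lit 602012) (.g (nat_lit 1952) (.e (nat_lit 663567) (nat_lit 4) (.e (nat_lit 65630) (nat_lit 14) (.e (nat_lit 401437) (nat_lit 9) (.e (nat_lit 426538) (nat_lit 29) (.e (nat_lit 352287) (nat_lit 20) .nil))))) (.g (nat_lit 0) (.e (nat_lit 422985) (nat_lit 0) .nil) .nil)))))) (.nd (nat_lit 7) (.nd (nat_lit 8) (.nd (nat_lit 9) 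
(.lf (nat_lit 601180) (.g (nat_lit 2439) (.e (nat_lit 557107) (nat_lit 15) (.e (nat_lit 188439) (nat_lit 20) (.e (nat_lit 3271) (nat_lit 199) (.e (nat_lit 548915) (nat_lit 20) (.e (nat_lit 188420) (nat_lit 0) (.e (nat_lit 1856) (nat_lit 124) .nil)))))) (.g (nat_lit 1) (.e (nat_lit 420262) (nat_lit 0) .nil) .nil))) 
(.lf (nat_lit 601692) (.g (nat_lit 1609) (.e (nat_lit 639021) (nat_lit 16) (.e (nat_lit 65619) (nat_lit 10) (.e (nat_lit 344160) (nat_lit 37) (.e (nat_lit 647190) (nat_lit 9) (.e (nat_lit 7936) (nat_lit 37) .nil))))) (.g (nat_lit 0) (.e (nat_lit 422010) (nat_lit 0) .nil) .nil)))) (.nd (nat_lit 9) 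
(.lf (nat_lit 601436) (.g (nat_lit 2042) (.e (nat_lit 622622) (nat_lit 13) (.e (nat_lit 353) (nat_lit 29) (.e (nat_lit 401451) (nat_lit 12) (.e (nat_lit 475207) (nat_lit 41) .nil)))) (.g (nat_lit 0) (.e (nat_lit 421157) (nat_lit 0) .nil) .nil))) 
(.lf (nat_lit 601948) (.g (nat_lit 1991) (.e (nat_lit 663567) (nat_lit 4) (.e (nat_lit 65628) (nat_lit 14) (.e (nat_lit 401437) (nat_lit 9) (.e (nat_lit 426496) (nat_lit 27) (.e (nat_lit 336091) (nat_lit 9) .nil))))) (.g (nat_lit 0) (.e (nat_lit 422921) (nat_lit 0) .nil) .nil))))) (.nd (nat_lit 8) (.nd (nat_lit 9) 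
(.lf (nat_lit 601308) (.g (nat_lit 2343) (.e (nat_lit 565252) (nat_lit 0) (.e (nat_lit 1595) (nat_lit 111) (.e (nat_lit 360493) (nat_lit 27) (.e (nat_lit 819204) (nat_lit 0) (.e (nat_lit 3015) (nat_lit 187) (.e (nat_lit 450584) (nat_lit 9) .nil)))))) (.g (nat_lit 1) (.e (nat_lit 420449) (nat_lit 0) .nil) .nil))) 
(.lf (nat_lit 601820) (.g (nat_lit 1980) (.e (nat_lit 638999) (nat_lit 8) (.e (nat_lit 172082) (nat_lit 7) (.e (nat_lit 409638) (nat_lit 15) (.e (nat_lit 278566) (nat_lit 16) (.e (nat_lit 286756) (nat_lit 10) (.e (nat_lit 344157) (nat_lit 36) .nil)))))) (.g (nat_lit 1) (.e (nat_lit 422643) (nat_lit 0) .nil) .nil)))) (.nd (nat_lit 9) 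
(.lf (nat_lit 601564) (.g (nat_lit 215) (.e (nat_lit 630802) (nat_lit 8) (.e (nat_lit 172079) (nat_lit 7) (.e (nat_lit 409636) (nat_lit 14) .nil))) (.g (nat_lit 0) (.e (nat_lit 421514) (nat_lit 0) .nil) .nil))) 
(.lf (nat_lit 602076) (.g (nat_lit 954) (.e (nat_lit 663569) (nat_lit 6) (.e (nat_lit 81922) (nat_lit 0) (.e (nat_lit 3632) (nat_lit 227) (.e (nat_lit 778327) (nat_lit 6) (.e (nat_lit 81933) (nat_lit 20) .nil))))) (.g (nat_lit 0) (.e (nat_lit 423051) (nat_lit 0) .nil) .nil))))))) (.nd (nat_lit 6) (.nd (nat_lit 7) (.nd (nat_lit 8) (.nd (nat_lit 9) 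
(.lf (nat_lit 601148) (.g (nat_lit 4092) (.e (nat_lit 557105) (nat_lit 14) (.e (nat_lit 180252) (nat_lit 10) (.e (nat_lit 573489) (nat_lit 14) (.e (nat_lit 73755) (nat_lit 8) (.e (nat_lit 557119) (nat_lit 18) (.e (nat_lit 2798) (nat_lit 180) (.e (nat_lit 303104) (nat_lit 0) (.e (nat_lit 7936) (nat_lit 200) .nil)))))))) (.g (nat_lit 1) (.e (nat_lit 420205) (nat_lit 0) .nil) .nil))) 
(.lf (nat_lit 601660) (.g (nat_lit 2342) (.e (nat_lit 639021) (nat_lit 16) (.e (nat_lit 65598) (nat_lit 9) (.e (nat_lit 335997) (nat_lit 1) (.e (nat_lit 57857) (nat_lit 254) (.e (nat_lit 163920) (nat_lit 14) (.e (nat_lit 442411) (nat_lit 20) (.e (nat_lit 3390) (nat_lit 210) .nil))))))) (.g (nat_lit 1) (.e (nat_lit 421845) (nat_lit 0) .nil) .nil)))) (.nd (nat_lit 9) 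
(.lf (nat_lit 601404) (.g (nat_lit 4207) (.e (nat_lit 598061) (nat_lit 16) (.e (nat_lit 172064) (nat_lit 2) (.e (nat_lit 196666) (nat_lit 13) (.e (nat_lit 65610) (nat_lit 10) (.e (nat_lit 344117) (nat_lit 21) (.e (nat_lit 516097) (nat_lit 0) (.e (nat_lit 3335) (nat_lit 205) .nil))))))) (.g (nat_lit 1) (.e (nat_lit 420789) (nat_lit 0) .nil) .nil))) 
(.lf (nat_lit 601916) (.g (nat_lit 4674) (.e (nat_lit 663565) (nat_lit 3) (.e (nat_lit 57480) (nat_lit 28) (.e (nat_lit 557109) (nat_lit 15) (.e (nat_lit 188452) (nat_lit 23) (.e (nat_lit 204861) (nat_lit 26) .nil))))) (.g (nat_lit 0) (.e (nat_lit 422887) (nat_lit 0) .nil) .nil))))) (.nd (nat_lit 8) (.nd (nat_lit 9) 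
(.lf (nat_lit 601276) (.g (nat_lit 315) (.e (nat_lit 557119) (nat_lit 18) (.e (nat_lit 2798) (nat_lit 180) (.e (nat_lit 303145) (nat_lit 13) .nil))) (.g (nat_lit 0) (.e (nat_lit 420389) (nat_lit 0) .nil) .nil))) 
(.lf (nat_lit 601788) (.g (nat_lit 2740) (.e (nat_lit 638996) (nat_lit 7) (.e (nat_lit 163979) (nat_lit 30) (.e (nat_lit 573488) (nat_lit 14) (.e (nat_lit 73753) (nat_lit 8) (.e (nat_lit 557105) (nat_lit 14) .nil))))) (.g (nat_lit 0) (.e (nat_lit 422486) (nat_lit 0) .nil) .nil)))) (.nd (nat_lit 9) 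
(.lf (nat_lit 601532) (.g (nat_lit 1834) (.e (nat_lit 630821) (nat_lit 16) (.e (nat_lit 65617) (nat_lit 10) (.e (nat_lit 344161) (nat_lit 37) (.e (nat_lit 647195) (nat_lit 9) (.e (nat_lit 426) (nat_lit 32) (.e (nat_lit 426287) (nat_lit 10) (.e (nat_lit 434266) (nat_lit 35) .nil))))))) (.g (nat_lit 1) (.e (nat_lit 421378) (nat_lit 0) .nil) .nil))) 
(.lf (nat_lit 602044) (.g (nat_lit 3018) (.e (nat_lit 663567) (nat_lit 4) (.e (nat_lit 65630) (nat_lit 14) (.e (nat_lit 401459) (nat_lit 13) (.e (nat_lit 483344) (nat_lit 17) (.e (nat_lit 6434) (nat_lit 343) .nil))))) (.g (nat_lit 0) (.e (nat_lit 423017) (nat_lit 0) .nil) .nil)))))) (.nd (nat_lit 7) (.nd (nat_lit 8) (.nd (nat_lit 9) 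
(.lf (nat_lit 601212) (.g (nat_lit 2574) (.e (nat_lit 557107) (nat_lit 15) (.e (nat_lit 188447) (nat_lit 22) (.e (nat_lit 196666) (nat_lit 13) (.e (nat_lit 65639) (nat_lit 15) (.e (nat_lit 3715) (nat_lit 227) (.e (nat_lit 778316) (nat_lit 3) (.e (nat_lit 57477) (nat_lit 28) .nil))))))) (.g (nat_lit 1) (.e (nat_lit 420294) (nat_lit 0) .nil) .nil))) 
(.lf (nat_lit 601724) (.g (nat_lit 1334) (.e (nat_lit 638986) (nat_lit 5) (.e (nat_lit 3016) (nat_lit 187) (.e (nat_lit 450592) (nat_lit 14) (.e (nat_lit 639008) (nat_lit 13) (.e (nat_lit 1595) (nat_lit 111) (.e (nat_lit 360480) (nat_lit 14) .nil)))))) (.g (nat_lit 1) (.e (nat_lit 422144) (nat_lit 0) .nil) .nil)))) (.nd (nat_lit 9) 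
(.lf (nat_lit 601468) (.g (nat_lit 2213) (.e (nat_lit 622635) (nat_lit 16) (.e (nat_lit 163978) (nat_lit 30) (.e (nat_lit 573485) (nat_lit 13) (.e (nat_lit 65574) (nat_lit 4) .nil)))) (.g (nat_lit 0) (.e (nat_lit 421272) (nat_lit 0) .nil) .nil))) 
(.lf (nat_lit 601980) (.g (nat_lit 1542) (.e (nat_lit 663567) (nat_lit 4) (.e (nat_lit 65628) (nat_lit 14) (.e (nat_lit 401457) (nat_lit 13) (.e (nat_lit 483390) (nat_lit 23) .nil)))) (.g (nat_lit 0) (.e (nat_lit 422953) (nat_lit 0) .nil) .nil))))) (.nd (nat_lit 8) (.nd (nat_lit 9) 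
(.lf (nat_lit 601340) (.g (nat_lit 1405) (.e (nat_lit 565267) (nat_lit 4) (.e (nat_lit 65617) (nat_lit 10) (.e (nat_lit 344183) (nat_lit 49) (.e (nat_lit 819221) (nat_lit 6) (.e (nat_lit 188439) (nat_lit 20) (.e (nat_lit 3289) (nat_lit 201) .nil)))))) (.g (nat_lit 1) (.e (nat_lit 420519) (nat_lit 0) .nil) .nil))) 
(.lf (nat_lit 601852) (.g (nat_lit 2337) (.e (nat_lit 663555) (nat_lit 0) (.e (nat_lit 1234) (nat_lit 91) (.e (nat_lit 90174) (nat_lit 14) (.e (nat_lit 180243) (nat_lit 5) (.e (nat_lit 532513) (nat_lit 3) .nil))))) (.g (nat_lit 0) (.e (nat_lit 422801) (nat_lit 0) .nil) .nil)))) (.nd (nat_lit 9) 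
(.lf (nat_lit 601596) (.g (nat_lit 1032) (.e (nat_lit 639008) (nat_lit 13) (.e (nat_lit 1589) (nat_lit 111) (.e (nat_lit 360453) (nat_lit 0) (.e (nat_lit 5243) (nat_lit 297) .nil)))) (.g (nat_lit 0) (.e (nat_lit 421660) (nat_lit 0) .nil) .nil))) 
(.lf (nat_lit 602108) (.g (nat_lit 2565) (.e (nat_lit 663582) (nat_lit 10) (.e (nat_lit 8326) (nat_lit 69) (.e (nat_lit 557105) (nat_lit 14) (.e (nat_lit 180251) (nat_lit 10) (.e (nat_lit 573489) (nat_lit 14) .nil))))) (.g (nat_lit 0) (.e (nat_lit 423163) (nat_lit 0) .nil) .nil))))))))))) 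
(.nd (nat_lit 2) (.nd (nat_lit 3) (.nd (nat_lit 4) (.nd (nat_lit 5) (.nd (nat_lit 6) 
(.nd (nat_lit 7) (.nd (nat_lit 8) (.nd (nat_lit 9) 
(.lf (nat_lit 601090) (.g (nat_lit 2508) (.e (nat_lit 557105) (nat_lit 14) (.e (nat_lit 180252) (nat_lit 10) (.e (nat_lit 573481) (nat_lit 13) (.e (nat_lit 65568) (nat_lit 2) (.e (nat_lit 98048) (nat_lit 0) (.e (nat_lit 375) (nat_lit 32) (.e (nat_lit 426025) (nat_lit 0) (.e (nat_lit 3277) (nat_lit 200) .nil)))))))) (.g (nat_lit 1) (.e (nat_lit 420147) (nat_lit 0) .nil) .nil))) 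
(.lf (nat_lit 601602) (.g (nat_lit 564) (.e (nat_lit 639008) (nat_lit 13) (.e (nat_lit 1595) (nat_lit 111) (.e (nat_lit 360480) (nat_lit 14) (.e (nat_lit 638985) (nat_lit 5) .nil)))) (.g (nat_lit 0) (.e (nat_lit 421673) (nat_lit 0) .nil) .nil)))) (.nd (nat_lit 9) 
(.lf (nat_lit 601346) (.g (nat_lit 378) (.e (nat_lit 565267) (nat_lit 4) (.e (nat_lit 65619) (nat_lit 10) (.e (nat_lit 344183) (nat_lit 49) .nil))) (.g (nat_lit 0) (.e (nat_lit 420529) (nat_lit 0) .nil) .nil))) 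
(.lf (nat_lit 601858) (.g (nat_lit 1356) (.e (nat_lit 663555) (nat_lit 0) (.e (nat_lit 1399) (nat_lit 106) (.e (nat_lit 319533) (nat_lit 16) (.e (nat_lit 286744) (nat_lit 9) .nil)))) (.g (nat_lit 0) (.e (nat_lit 422807) (nat_lit 0) .nil) .nil))))) (.nd (nat_lit 8) (.nd (nat_lit 9) 
(.lf (nat_lit 601218) (.g (nat_lit 2331) (.e (nat_lit 557107) (nat_lit 15) (.e (nat_lit 188450) (nat_lit 23) (.e (nat_lit 204855) (nat_lit 26) (.e (nat_lit 336290) (nat_lit 15) (.e (nat_lit 3711) (nat_lit 227) (.e (nat_lit 778316) (nat_lit 3) (.e (nat_lit 57477) (nat_lit 28) .nil))))))) (.g (nat_lit 1) (.e (nat_lit 420300) (nat_lit 0) .nil) .nil))) 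
(.lf (nat_lit 601730) (.g (nat_lit 715) (.e (nat_lit 638986) (nat_lit 5) (.e (nat_lit 3028) (nat_lit 187) (.e (nat_lit 450592) (nat_lit 14) (.e (nat_lit 639008) (nat_lit 13) (.e (nat_lit 1598) (nat_lit 111) (.e (nat_lit 360480) (nat_lit 14) .nil)))))) (.g (nat_lit 1) (.e (nat_lit 422163) (nat_lit 0) .nil) .nil)))) (.nd (nat_lit 9) 
(.lf (nat_lit 601474) (.g (nat_lit 2470) (.e (nat_lit 630819) (nat_lit 15) (.e (nat_lit 57479) (nat_lit 28) (.e (nat_lit 557105) (nat_lit 14) (.e (nat_lit 180251) (nat_lit 10) (.e (nat_lit 573489) (nat_lit 14) .nil))))) (.g (nat_lit 0) (.e (nat_lit 421311) (nat_lit 0) .nil) .nil))) 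
(.lf (nat_lit 601986) (.g (nat_lit 1797) (.e (nat_lit 663567) (nat_lit 4) (.e (nat_lit 65628) (nat_lit 14) (.e (nat_lit 401459) (nat_lit 13) (.e (nat_lit 483379) (nat_lit 23) .nil)))) (.g (nat_lit 0) (.e (nat_lit 422959) (nat_lit 0) .nil) .nil)))))) (.nd (nat_lit 7) (.nd (nat_lit 8) (.nd (nat_lit 9) 
(.lf (nat_lit 601154) (.g (nat_lit 2537) (.e (nat_lit 557105) (nat_lit 14) (.e (nat_lit 180252) (nat_lit 10) (.e (nat_lit 573489) (nat_lit 14) (.e (nat_lit 73755) (nat_lit 8) (.e (nat_lit 557119) (nat_lit 18) (.e (nat_lit 2807) (nat_lit 180) (.e (nat_lit 303108) (nat_lit 0) (.e (nat_lit 7936) (nat_lit 200) .nil)))))))) (.g (nat_lit 1) (.e (nat_lit 420211) (nat_lit 0) .nil) .nil))) 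
(.lf (nat_lit 601666) (.g (nat_lit 1919) (.e (nat_lit 639021) (nat_lit 16) (.e (nat_lit 65610) (nat_lit 10) (.e (nat_lit 344160) (nat_lit 37) (.e (nat_lit 647190) (nat_lit 9) (.e (nat_lit 7936) (nat_lit 35) (.e (nat_lit 450592) (nat_lit 14) .nil)))))) (.g (nat_lit 1) (.e (nat_lit 421899) (nat_lit 0) .nil) .nil)))) (.nd (nat_lit 9) 
(.lf (nat_lit 601410) (.g (nat_lit 1791) (.e (nat_lit 598065) (nat_lit 20) (.e (nat_lit 237590) (nat_lit 2) (.e (nat_lit 196672) (nat_lit 15) (.e (nat_lit 81954) (nat_lit 23) (.e (nat_lit 98321) (nat_lit 17) (.e (nat_lit 7936) (nat_lit 205) .nil)))))) (.g (nat_lit 1) (.e (nat_lit 420875) (nat_lit 0) .nil) .nil))) 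
(.lf (nat_lit 601922) (.g (nat_lit 1326) (.e (nat_lit 663567) (nat_lit 4) (.e (nat_lit 65583) (nat_lit 7) (.e (nat_lit 319530) (nat_lit 16) (.e (nat_lit 286763) (nat_lit 15) (.e (nat_lit 7936) (nat_lit 407) .nil))))) (.g (nat_lit 0) (.e (nat_lit 422895) (nat_lit 0) .nil) .nil))))) (.nd (nat_lit 8) (.nd (nat_lit 9) 
(.lf (nat_lit 601282) (.g (nat_lit 3150) (.e (nat_lit 557119) (nat_lit 18) (.e (nat_lit 2798) (nat_lit 180) (.e (nat_lit 303145) (nat_lit 13) (.e (nat_lit 483363) (nat_lit 18) (.e (nat_lit 57645) (nat_lit 146) .nil))))) (.g (nat_lit 0) (.e (nat_lit 420395) (nat_lit 0) .nil) .nil))) 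
(.lf (nat_lit 601794) (.g (nat_lit 3645) (.e (nat_lit 638996) (nat_lit 7) (.e (nat_lit 163979) (nat_lit 30) (.e (nat_lit 573489) (nat_lit 14) (.e (nat_lit 73754) (nat_lit 8) (.e (nat_lit 557103) (nat_lit 14) (.e (nat_lit 180250) (nat_lit 10) (.e (nat_lit 573474) (nat_lit 12) (.e (nat_lit 57503) (nat_lit 38) .nil)))))))) (.g (nat_lit 1) (.e (nat_lit 422493) (nat_lit 0) .nil) .nil)))) 
(.nd (nat_lit 9) 
(.lf (nat_lit 601538) (.g (nat_lit 846) (.e (nat_lit 630821) (nat_lit 16) (.e (nat_lit 65619) (nat_lit 10) (.e (nat_lit 344154) (nat_lit 35) (.e (nat_lit 630802) (nat_lit 8) .nil)))) (.g (nat_lit 0) (.e (nat_lit 421384) (nat_lit 0) .nil) .nil))) 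
(.lf (nat_lit 602050) (.g (nat_lit 2603) (.e (nat_lit 663567) (nat_lit 4) (.e (nat_lit 65630) (nat_lit 14) (.e (nat_lit 401459) (nat_lit 13) (.e (nat_lit 483396) (nat_lit 24) (.e (nat_lit 352000) (nat_lit 39) .nil))))) (.g (nat_lit 0) (.e (nat_lit 423023) (nat_lit 0) .nil) .nil))))))) (.nd (nat_lit 6) (.nd (nat_lit 7) (.nd (nat_lit 8) (.nd (nat_lit 9) 
(.lf (nat_lit 601122) (.g (nat_lit 2989) (.e (nat_lit 557105) (nat_lit 14) (.e (nat_lit 180252) (nat_lit 10) (.e (nat_lit 573482) (nat_lit 13) (.e (nat_lit 65568) (nat_lit 2) (.e (nat_lit 98048) (nat_lit 2) (.e (nat_lit 16395) (nat_lit 0) (.e (nat_lit 7936) (nat_lit 200) .nil))))))) (.g (nat_lit 1) (.e (nat_lit 420179) (nat_lit 0) .nil) .nil))) 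
(.lf (nat_lit 601634) (.g (nat_lit 1628) (.e (nat_lit 639020) (nat_lit 16) (.e (nat_lit 65583) (nat_lit 7) (.e (nat_lit 319530) (nat_lit 16) (.e (nat_lit 286728) (nat_lit 0) (.e (nat_lit 7936) (nat_lit 362) .nil))))) (.g (nat_lit 0) (.e (nat_lit 421726) (nat_lit 0) .nil) .nil)))) (.nd (nat_lit 9) 
(.lf (nat_lit 601378) (.g (nat_lit 520) (.e (nat_lit 565268) (nat_lit 5) (.e (nat_lit 73791) (nat_lit 45) (.e (nat_lit 1162) (nat_lit 86) (.e (nat_lit 49157) (nat_lit 0) (.e (nat_lit 3012) (nat_lit 187) (.e (nat_lit 458496) (nat_lit 9) .nil)))))) (.g (nat_lit 1) (.e (nat_lit 420569) (nat_lit 0) .nil) .nil))) 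
(.lf (nat_lit 601890) (.g (nat_lit 2841) (.e (nat_lit 663565) (nat_lit 3) (.e (nat_lit 57479) (nat_lit 28) (.e (nat_lit 557109) (nat_lit 15) (.e (nat_lit 188450) (nat_lit 23) .nil)))) (.g (nat_lit 0) (.e (nat_lit 422860) (nat_lit 0) .nil) .nil))))) (.nd (nat_lit 8) (.nd (nat_lit 9) 
(.lf (nat_lit 601250) (.g (nat_lit 542) (.e (nat_lit 557109) (nat_lit 15) (.e (nat_lit 188450) (nat_lit 23) (.e (nat_lit 204885) (nat_lit 33) .nil))) (.g (nat_lit 0) (.e (nat_lit 420333) (nat_lit 0) .nil) .nil))) 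
(.lf (nat_lit 601762) (.g (nat_lit 2918) (.e (nat_lit 638995) (nat_lit 7) (.e (nat_lit 163979) (nat_lit 30) (.e (nat_lit 573488) (nat_lit 14) (.e (nat_lit 73754) (nat_lit 8) (.e (nat_lit 557103) (nat_lit 14) (.e (nat_lit 180250) (nat_lit 10) (.e (nat_lit 573473) (nat_lit 12) (.e (nat_lit 57503) (nat_lit 38) .nil)))))))) (.g (nat_lit 1) (.e (nat_lit 422291) (nat_lit 0) .nil) .nil)))) 
(.nd (nat_lit 9) 
(.lf (nat_lit 601506) (.g (nat_lit 2710) (.e (nat_lit 630821) (nat_lit 16) (.e (nat_lit 65586) (nat_lit 7) (.e (nat_lit 319531) (nat_lit 16) (.e (nat_lit 286762) (nat_lit 14) (.e (nat_lit 401447) (nat_lit 10) .nil))))) (.g (nat_lit 0) (.e (nat_lit 421350) (nat_lit 0) .nil) .nil))) 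
(.lf (nat_lit 602018) (.g (nat_lit 2124) (.e (nat_lit 663567) (nat_lit 4) (.e (nat_lit 65630) (nat_lit 14) (.e (nat_lit 401437) (nat_lit 9) (.e (nat_lit 426542) (nat_lit 29) (.e (nat_lit 352281) (nat_lit 20) .nil))))) (.g (nat_lit 0) (.e (nat_lit 422991) (nat_lit 0) .nil) .nil)))))) (.nd (nat_lit 7) (.nd (nat_lit 8) (.nd (nat_lit 9) 
(.lf (nat_lit 601186) (.g (nat_lit 3576) (.e (nat_lit 557107) (nat_lit 15) (.e (nat_lit 188439) (nat_lit 20) (.e (nat_lit 3272) (nat_lit 199) (.e (nat_lit 548913) (nat_lit 18) (.e (nat_lit 172118) (nat_lit 12) (.e (nat_lit 475185) (nat_lit 29) .nil)))))) (.g (nat_lit 1) (.e (nat_lit 420268) (nat_lit 0) .nil) .nil))) 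
(.lf (nat_lit 601698) (.g (nat_lit 1334) (.e (nat_lit 639023) (nat_lit 18) (.e (nat_lit 81946) (nat_lit 20) (.e (nat_lit 1963) (nat_lit 134) (.e (nat_lit 639001) (nat_lit 10) (.e (nat_lit 188441) (nat_lit 20) (.e (nat_lit 3391) (nat_lit 210) .nil)))))) (.g (nat_lit 1) (.e (nat_lit 422060) (nat_lit 0) .nil) .nil)))) (.nd (nat_lit 9) 
(.lf (nat_lit 601442) (.g (nat_lit 3352) (.e (nat_lit 622625) (nat_lit 13) (.e (nat_lit 2663) (nat_lit 167) (.e (nat_lit 196666) (nat_lit 13) (.e (nat_lit 65610) (nat_lit 10) (.e (nat_lit 344117) (nat_lit 21) .nil))))) (.g (nat_lit 0) (.e (nat_lit 421186) (nat_lit 0) .nil) .nil))) 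
(.lf (nat_lit 601954) (.g (nat_lit 1860) (.e (nat_lit 663567) (nat_lit 4) (.e (nat_lit 65628) (nat_lit 14) (.e (nat_lit 401437) (nat_lit 9) (.e (nat_lit 426538) (nat_lit 29) (.e (nat_lit 352287) (nat_lit 20) .nil))))) (.g (nat_lit 0) (.e (nat_lit 422927) (nat_lit 0) .nil) .nil))))) (.nd (nat_lit 8) (.nd (nat_lit 9) 
(.lf (nat_lit 601314) (.g (nat_lit 1564) (.e (nat_lit 565267) (nat_lit 4) (.e (nat_lit 65610) (nat_lit 10) (.e (nat_lit 344183) (nat_lit 49) (.e (nat_lit 819221) (nat_lit 6) (.e (nat_lit 188439) (nat_lit 20) (.e (nat_lit 3288) (nat_lit 201) .nil)))))) (.g (nat_lit 1) (.e (nat_lit 420483) (nat_lit 0) .nil) .nil))) 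
(.lf (nat_lit 601826) (.g (nat_lit 1307) (.e (nat_lit 638999) (nat_lit 8) (.e (nat_lit 172113) (nat_lit 10) (.e (nat_lit 434279) (nat_lit 39) (.e (nat_lit 663574) (nat_lit 9) (.e (nat_lit 7936) (nat_lit 23) .nil))))) (.g (nat_lit 0) (.e (nat_lit 422722) (nat_lit 0) .nil) .nil)))) (.nd (nat_lit 9) 
(.lf (nat_lit 601570) (.g (nat_lit 1749) (.e (nat_lit 630802) (nat_lit 8) (.e (nat_lit 172082) (nat_lit 7) (.e (nat_lit 409638) (nat_lit 15) (.e (nat_lit 278566) (nat_lit 16) (.e (nat_lit 286756) (nat_lit 10) (.e (nat_lit 344154) (nat_lit 35) .nil)))))) (.g (nat_lit 1) (.e (nat_lit 421537) (nat_lit 0) .nil) .nil))) 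
(.lf (nat_lit 602082) (.g (nat_lit 1240) (.e (nat_lit 663569) (nat_lit 6) (.e (nat_lit 81924) (nat_lit 0) (.e (nat_lit 3629) (nat_lit 227) (.e (nat_lit 778326) (nat_lit 6) (.e (nat_lit 81935) (nat_lit 20) (.e (nat_lit 1994) (nat_lit 137) .nil)))))) (.g (nat_lit 1) (.e (nat_lit 423058) (nat_lit 0) .nil) .nil)))))))) 
(.nd (nat_lit 5) (.nd (nat_lit 6) (.nd (nat_lit 7) (.nd (nat_lit 8) (.nd (nat_lit 9) 
(.lf (nat_lit 601106) (.g (nat_lit 2225) (.e (nat_lit 557105) (nat_lit 14) (.e (nat_lit 180252) (nat_lit 10) (.e (nat_lit 573481) (nat_lit 13) (.e (nat_lit 65568) (nat_lit 2) (.e (nat_lit 98048) (nat_lit 2) (.e (nat_lit 16403) (nat_lit 0) (.e (nat_lit 7936) (nat_lit 200) .nil))))))) (.g (nat_lit 1) (.e (nat_lit 420163) (nat_lit 0) .nil) .nil))) 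
(.lf (nat_lit 601618) (.g (nat_lit 1812) (.e (nat_lit 639020) (nat_lit 16) (.e (nat_lit 65571) (nat_lit 3) (.e (nat_lit 98359) (nat_lit 26) (.e (nat_lit 426285) (nat_lit 10) .nil)))) (.g (nat_lit 0) (.e (nat_lit 421707) (nat_lit 0) .nil) .nil)))) (.nd (nat_lit 9) 
(.lf (nat_lit 601362) (.g (nat_lit 1353) (.e (nat_lit 565267) (nat_lit 4) (.e (nat_lit 65620) (nat_lit 10) (.e (nat_lit 344183) (nat_lit 49) (.e (nat_lit 819221) (nat_lit 6) (.e (nat_lit 188441) (nat_lit 20) (.e (nat_lit 3289) (nat_lit 201) .nil)))))) (.g (nat_lit 1) (.e (nat_lit 420551) (nat_lit 0) .nil) .nil))) 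
(.lf (nat_lit 601874) (.g (nat_lit 1461) (.e (nat_lit 663559) (nat_lit 0) (.e (nat_lit 1234) (nat_lit 91) (.e (nat_lit 90174) (nat_lit 14) (.e (nat_lit 180250) (nat_lit 10) .nil)))) (.g (nat_lit 0) (.e (nat_lit 422830) (nat_lit 0) .nil) .nil))))) (.nd (nat_lit 8) (.nd (nat_lit 9) 
(.lf (nat_lit 601234) (.g (nat_lit 2470) (.e (nat_lit 557108) (nat_lit 15) (.e (nat_lit 188452) (nat_lit 23) (.e (nat_lit 204846) (nat_lit 24) (.e (nat_lit 319533) (nat_lit 16) (.e (nat_lit 286763) (nat_lit 15) (.e (nat_lit 7936) (nat_lit 200) .nil)))))) (.g (nat_lit 1) (.e (nat_lit 420316) (nat_lit 0) .nil) .nil))) 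
(.lf (nat_lit 601746) (.g (nat_lit 3034) (.e (nat_lit 638995) (nat_lit 7) (.e (nat_lit 163978) (nat_lit 30) (.e (nat_lit 573489) (nat_lit 14) (.e (nat_lit 73754) (nat_lit 8) (.e (nat_lit 557103) (nat_lit 14) .nil))))) (.g (nat_lit 0) (.e (nat_lit 422230) (nat_lit 0) .nil) .nil)))) (.nd (nat_lit 9) 
(.lf (nat_lit 601490) (.g (nat_lit 606) (.e (nat_lit 630820) (nat_lit 16) (.e (nat_lit 65619) (nat_lit 10) (.e (nat_lit 344160) (nat_lit 37) .nil))) (.g (nat_lit 0) (.e (nat_lit 421330) (nat_lit 0) .nil) .nil))) 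
(.lf (nat_lit 602002) (.g (nat_lit 2520) (.e (nat_lit 663567) (nat_lit 4) (.e (nat_lit 65630) (nat_lit 14) (.e (nat_lit 401437) (nat_lit 9) (.e (nat_lit 426482) (nat_lit 27) (.e (nat_lit 336102) (nat_lit 9) .nil))))) (.g (nat_lit 0) (.e (nat_lit 422975) (nat_lit 0) .nil) .nil)))))) (.nd (nat_lit 7) (.nd (nat_lit 8) (.nd (nat_lit 9) 
(.lf (nat_lit 601170) (.g (nat_lit 1049) (.e (nat_lit 557107) (nat_lit 15) (.e (nat_lit 188434) (nat_lit 20) (.e (nat_lit 3272) (nat_lit 199) (.e (nat_lit 548898) (nat_lit 14) .nil)))) (.g (nat_lit 0) (.e (nat_lit 420252) (nat_lit 0) .nil) .nil))) 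
(.lf (nat_lit 601682) (.g (nat_lit 408) (.e (nat_lit 639021) (nat_lit 16) (.e (nat_lit 65617) (nat_lit 10) (.e (nat_lit 344164) (nat_lit 37) .nil))) (.g (nat_lit 0) (.e (nat_lit 421975) (nat_lit 0) .nil) .nil)))) (.nd (nat_lit 9) 
(.lf (nat_lit 601426) (.g (nat_lit 2329) (.e (nat_lit 614435) (nat_lit 11) (.e (nat_lit 16468) (nat_lit 13) (.e (nat_lit 483372) (nat_lit 21) (.e (nat_lit 319504) (nat_lit 10) (.e (nat_lit 7936) (nat_lit 299) .nil))))) (.g (nat_lit 0) (.e (nat_lit 421122) (nat_lit 0) .nil) .nil))) 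
(.lf (nat_lit 601938) (.g (nat_lit 467) (.e (nat_lit 663567) (nat_lit 4) (.e (nat_lit 65623) (nat_lit 12) (.e (nat_lit 385100) (nat_lit 49) .nil))) (.g (nat_lit 0) (.e (nat_lit 422911) (nat_lit 0) .nil) .nil))))) (.nd (nat_lit 8) (.nd (nat_lit 9) 
(.lf (nat_lit 601298) (.g (nat_lit 393) (.e (nat_lit 565252) (nat_lit 0) (.e (nat_lit 1586) (nat_lit 111) (.e (nat_lit 360493) (nat_lit 27) .nil))) (.g (nat_lit 0) (.e (nat_lit 420430) (nat_lit 0) .nil) .nil))) 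
(.lf (nat_lit 601810) (.g (nat_lit 1247) (.e (nat_lit 638998) (nat_lit 8) (.e (nat_lit 172123) (nat_lit 13) (.e (nat_lit 483396) (nat_lit 24) (.e (nat_lit 344163) (nat_lit 37) (.e (nat_lit 647192) (nat_lit 9) .nil))))) (.g (nat_lit 0) (.e (nat_lit 422556) (nat_lit 0) .nil) .nil)))) (.nd (nat_lit 9) 
(.lf (nat_lit 601554) (.g (nat_lit 3037) (.e (nat_lit 630800) (nat_lit 7) (.e (nat_lit 163977) (nat_lit 30) (.e (nat_lit 573489) (nat_lit 14) (.e (nat_lit 73754) (nat_lit 8) (.e (nat_lit 557103) (nat_lit 14) .nil))))) (.g (nat_lit 0) (.e (nat_lit 421445) (nat_lit 0) .nil) .nil))) 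
(.lf (nat_lit 602066) (.g (nat_lit 1042) (.e (nat_lit 663568) (nat_lit 5) (.e (nat_lit 73782) (nat_lit 32) (.e (nat_lit 2855) (nat_lit 184) (.e (nat_lit 426546) (nat_lit 30) (.e (nat_lit 368384) (nat_lit 17) .nil))))) (.g (nat_lit 1) (.e (nat_lit 423041) (nat_lit 0) .nil) .nil))))))) (.nd (nat_lit 6) (.nd (nat_lit 7) (.nd (nat_lit 8) (.nd (nat_lit 9) 
(.lf (nat_lit 601138) (.g (nat_lit 2661) (.e (nat_lit 557105) (nat_lit 14) (.e (nat_lit 180252) (nat_lit 10) (.e (nat_lit 573489) (nat_lit 14) (.e (nat_lit 73755) (nat_lit 8) (.e (nat_lit 557119) (nat_lit 18) (.e (nat_lit 2796) (nat_lit 180) (.e (nat_lit 303105) (nat_lit 0) (.e (nat_lit 7936) (nat_lit 200) .nil)))))))) (.g (nat_lit 1) (.e (nat_lit 420195) (nat_lit 0) .nil) .nil))) 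
(.lf (nat_lit 601650) (.g (nat_lit 1106) (.e (nat_lit 639020) (nat_lit 16) (.e (nat_lit 65627) (nat_lit 13) (.e (nat_lit 393284) (nat_lit 24) (.e (nat_lit 434276) (nat_lit 39) .nil)))) (.g (nat_lit 0) (.e (nat_lit 421818) (nat_lit 0) .nil) .nil)))) (.nd (nat_lit 9) 
(.lf (nat_lit 601394) (.g (nat_lit 1512) (.e (nat_lit 565269) (nat_lit 6) (.e (nat_lit 81943) (nat_lit 20) (.e (nat_lit 2390) (nat_lit 156) (.e (nat_lit 819221) (nat_lit 6) (.e (nat_lit 188439) (nat_lit 20) (.e (nat_lit 3289) (nat_lit 201) .nil)))))) (.g (nat_lit 1) (.e (nat_lit 420601) (nat_lit 0) .nil) .nil))) 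
(.lf (nat_lit 601906) (.g (nat_lit 2382) (.e (nat_lit 663565) (nat_lit 3) (.e (nat_lit 57480) (nat_lit 28) (.e (nat_lit 557109) (nat_lit 15) (.e (nat_lit 188449) (nat_lit 22) (.e (nat_lit 196666) (nat_lit 13) .nil))))) (.g (nat_lit 0) (.e (nat_lit 422877) (nat_lit 0) .nil) .nil))))) (.nd (nat_lit 8) (.nd (nat_lit 9) 
(.lf (nat_lit 601266) (.g (nat_lit 983) (.e (nat_lit 557119) (nat_lit 18) (.e (nat_lit 2797) (nat_lit 180) (.e (nat_lit 303133) (nat_lit 9) (.e (nat_lit 426499) (nat_lit 27) .nil)))) (.g (nat_lit 0) (.e (nat_lit 420360) (nat_lit 0) .nil) .nil))) 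
(.lf (nat_lit 601778) (.g (nat_lit 3032) (.e (nat_lit 638996) (nat_lit 7) (.e (nat_lit 163977) (nat_lit 30) (.e (nat_lit 573489) (nat_lit 14) (.e (nat_lit 73755) (nat_lit 8) (.e (nat_lit 557105) (nat_lit 14) (.e (nat_lit 180251) (nat_lit 10) (.e (nat_lit 573478) (nat_lit 12) (.e (nat_lit 57502) (nat_lit 38) .nil)))))))) (.g (nat_lit 1) (.e (nat_lit 422420) (nat_lit 0) .nil) .nil)))) 
(.nd (nat_lit 9) 
(.lf (nat_lit 601522) (.g (nat_lit 2526) (.e (nat_lit 630821) (nat_lit 16) (.e (nat_lit 65617) (nat_lit 10) (.e (nat_lit 344156) (nat_lit 36) (.e (nat_lit 638998) (nat_lit 8) (.e (nat_lit 172106) (nat_lit 10) (.e (nat_lit 434266) (nat_lit 35) .nil)))))) (.g (nat_lit 1) (.e (nat_lit 421367) (nat_lit 0) .nil) .nil))) 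
(.lf (nat_lit 602034) (.g (nat_lit 2084) (.e (nat_lit 663567) (nat_lit 4) (.e (nat_lit 65630) (nat_lit 14) (.e (nat_lit 401454) (nat_lit 12) (.e (nat_lit 483072) (nat_lit 8) .nil)))) (.g (nat_lit 0) (.e (nat_lit 423007) (nat_lit 0) .nil) .nil)))))) (.nd (nat_lit 7) (.nd (nat_lit 8) (.nd (nat_lit 9) 
(.lf (nat_lit 601202) (.g (nat_lit 2253) (.e (nat_lit 557107) (nat_lit 15) (.e (nat_lit 188447) (nat_lit 22) (.e (nat_lit 196661) (nat_lit 12) (.e (nat_lit 57751) (nat_lit 201) (.e (nat_lit 2854) (nat_lit 184) (.e (nat_lit 426402) (nat_lit 15) (.e (nat_lit 1849) (nat_lit 124) .nil))))))) (.g (nat_lit 1) (.e (nat_lit 420284) (nat_lit 0) .nil) .nil))) 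
(.lf (nat_lit 601714) (.g (nat_lit 449) (.e (nat_lit 638985) (nat_lit 5) (.e (nat_lit 3015) (nat_lit 187) (.e (nat_lit 450597) (nat_lit 17) .nil))) (.g (nat_lit 0) (.e (nat_lit 422115) (nat_lit 0) .nil) .nil)))) (.nd (nat_lit 9) 
(.lf (nat_lit 601458) (.g (nat_lit 5212) (.e (nat_lit 622627) (nat_lit 13) (.e (nat_lit 2666) (nat_lit 167) (.e (nat_lit 196666) (nat_lit 13) (.e (nat_lit 65610) (nat_lit 10) (.e (nat_lit 344117) (nat_lit 21) (.e (nat_lit 516151) (nat_lit 9) (.e (nat_lit 426040) (nat_lit 0) (.e (nat_lit 3366) (nat_lit 208) .nil)))))))) (.g (nat_lit 1) (.e (nat_lit 421207) (nat_lit 0) .nil) .nil))) 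
(.lf (nat_lit 601970) (.g (nat_lit 1744) (.e (nat_lit 663567) (nat_lit 4) (.e (nat_lit 65628) (nat_lit 14) (.e (nat_lit 401438) (nat_lit 9) (.e (nat_lit 426542) (nat_lit 29) (.e (nat_lit 352285) (nat_lit 20) .nil))))) (.g (nat_lit 0) (.e (nat_lit 422943) (nat_lit 0) .nil) .nil))))) (.nd (nat_lit 8) (.nd (nat_lit 9) 
(.lf (nat_lit 601330) (.g (nat_lit 1308) (.e (nat_lit 565267) (nat_lit 4) (.e (nat_lit 65616) (nat_lit 10) (.e (nat_lit 344183) (nat_lit 49) (.e (nat_lit 819221) (nat_lit 6) (.e (nat_lit 188440) (nat_lit 20) (.e (nat_lit 3289) (nat_lit 201) .nil)))))) (.g (nat_lit 1) (.e (nat_lit 420506) (nat_lit 0) .nil) .nil))) 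
(.lf (nat_lit 601842) (.g (nat_lit 878) (.e (nat_lit 663552) (nat_lit 0) (.e (nat_lit 1667) (nat_lit 116) (.e (nat_lit 401453) (nat_lit 12) (.e (nat_lit 475207) (nat_lit 41) .nil)))) (.g (nat_lit 0) (.e (nat_lit 422779) (nat_lit 0) .nil) .nil)))) (.nd (nat_lit 9) 
(.lf (nat_lit 601586) (.g (nat_lit 473) (.e (nat_lit 639007) (nat_lit 13) (.e (nat_lit 1586) (nat_lit 111) (.e (nat_lit 360448) (nat_lit 0) .nil))) (.g (nat_lit 0) (.e (nat_lit 421614) (nat_lit 0) .nil) .nil))) 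
(.lf (nat_lit 602098) (.g (nat_lit 2281) (.e (nat_lit 663569) (nat_lit 6) (.e (nat_lit 81953) (nat_lit 22) (.e (nat_lit 90160) (nat_lit 11) (.e (nat_lit 24584) (nat_lit 0) .nil)))) (.g (nat_lit 0) (.e (nat_lit 423074) (nat_lit 0) .nil) .nil))))))))) (.nd (nat_lit 4) (.nd (nat_lit 5) (.nd (nat_lit 6) (.nd (nat_lit 7) (.nd (nat_lit 8) (.nd (nat_lit 9) 
(.lf (nat_lit 601098) (.g (nat_lit 2568) (.e (nat_lit 557105) (nat_lit 14) (.e (nat_lit 180252) (nat_lit 10) (.e (nat_lit 573481) (nat_lit 13) (.e (nat_lit 65568) (nat_lit 2) (.e (nat_lit 98048) (nat_lit 2) (.e (nat_lit 16392) (nat_lit 0) (.e (nat_lit 7936) (nat_lit 200) .nil))))))) (.g (nat_lit 1) (.e (nat_lit 420155) (nat_lit 0) .nil) .nil))) 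
(.lf (nat_lit 601610) (.g (nat_lit 1700) (.e (nat_lit 639016) (nat_lit 15) (.e (nat_lit 57476) (nat_lit 28) (.e (nat_lit 557104) (nat_lit 14) (.e (nat_lit 180252) (nat_lit 10) (.e (nat_lit 573488) (nat_lit 14) .nil))))) (.g (nat_lit 0) (.e (nat_lit 421689) (nat_lit 0) .nil) .nil)))) (.nd (nat_lit 9) 
(.lf (nat_lit 601354) (.g (nat_lit 1588) (.e (nat_lit 565267) (nat_lit 4) (.e (nat_lit 65619) (nat_lit 10) (.e (nat_lit 344183) (nat_lit 49) (.e (nat_lit 819221) (nat_lit 6) (.e (nat_lit 188441) (nat_lit 20) (.e (nat_lit 3289) (nat_lit 201) .nil)))))) (.g (nat_lit 1) (.e (nat_lit 420542) (nat_lit 0) .nil) .nil))) 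
(.lf (nat_lit 601866) (.g (nat_lit 2464) (.e (nat_lit 663556) (nat_lit 0) (.e (nat_lit 1673) (nat_lit 116) (.e (nat_lit 401451) (nat_lit 12) (.e (nat_lit 475207) (nat_lit 41) .nil)))) (.g (nat_lit 0) (.e (nat_lit 422820) (nat_lit 0) .nil) .nil))))) (.nd (nat_lit 8) (.nd (nat_lit 9) 
(.lf (nat_lit 601226) (.g (nat_lit 855) (.e (nat_lit 557107) (nat_lit 15) (.e (nat_lit 188452) (nat_lit 23) (.e (nat_lit 212736) (nat_lit 17) .nil))) (.g (nat_lit 0) (.e (nat_lit 420308) (nat_lit 0) .nil) .nil))) 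
(.lf (nat_lit 601738) (.g (nat_lit 3373) (.e (nat_lit 638995) (nat_lit 7) (.e (nat_lit 163977) (nat_lit 30) (.e (nat_lit 573489) (nat_lit 14) (.e (nat_lit 73754) (nat_lit 8) (.e (nat_lit 557103) (nat_lit 14) (.e (nat_lit 180250) (nat_lit 10) (.e (nat_lit 573474) (nat_lit 12) (.e (nat_lit 57503) (nat_lit 38) .nil)))))))) (.g (nat_lit 1) (.e (nat_lit 422194) (nat_lit 0) .nil) .nil)))) 
(.nd (nat_lit 9) 
(.lf (nat_lit 601482) (.g (nat_lit 496) (.e (nat_lit 630820) (nat_lit 16) (.e (nat_lit 65586) (nat_lit 7) (.e (nat_lit 319536) (nat_lit 17) .nil))) (.g (nat_lit 0) (.e (nat_lit 421319) (nat_lit 0) .nil) .nil))) 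
(.lf (nat_lit 601994) (.g (nat_lit 2119) (.e (nat_lit 663567) (nat_lit 4) (.e (nat_lit 65628) (nat_lit 14) (.e (nat_lit 401459) (nat_lit 13) (.e (nat_lit 483400) (nat_lit 25) (.e (nat_lit 376576) (nat_lit 39) .nil))))) (.g (nat_lit 0) (.e (nat_lit 422967) (nat_lit 0) .nil) .nil)))))) (.nd (nat_lit 7) (.nd (nat_lit 8) (.nd (nat_lit 9) 
(.lf (nat_lit 601162) (.g (nat_lit 1438) (.e (nat_lit 557105) (nat_lit 14) (.e (nat_lit 180252) (nat_lit 10) (.e (nat_lit 573503) (nat_lit 18) (.e (nat_lit 1074) (nat_lit 81) .nil)))) (.g (nat_lit 0) (.e (nat_lit 420219) (nat_lit 0) .nil) .nil))) 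
(.lf (nat_lit 601674) (.g (nat_lit 1123) (.e (nat_lit 639021) (nat_lit 16) (.e (nat_lit 65617) (nat_lit 10) (.e (nat_lit 344156) (nat_lit 36) (.e (nat_lit 638999) (nat_lit 8) .nil)))) (.g (nat_lit 0) (.e (nat_lit 421956) (nat_lit 0) .nil) .nil)))) (.nd (nat_lit 9) 
(.lf (nat_lit 601418) (.g (nat_lit 501) (.e (nat_lit 614420) (nat_lit 6) (.e (nat_lit 188455) (nat_lit 24) (.e (nat_lit 229708) (nat_lit 256) .nil))) (.g (nat_lit 0) (.e (nat_lit 421094) (nat_lit 0) .nil) .nil))) 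
(.lf (nat_lit 601930) (.g (nat_lit 2150) (.e (nat_lit 663567) (nat_lit 4) (.e (nat_lit 65616) (nat_lit 10) (.e (nat_lit 344169) (nat_lit 40) (.e (nat_lit 671764) (nat_lit 6) (.e (nat_lit 81935) (nat_lit 20) (.e (nat_lit 1999) (nat_lit 137) .nil)))))) (.g (nat_lit 1) (.e (nat_lit 422903) (nat_lit 0) .nil) .nil))))) (.nd (nat_lit 8) (.nd (nat_lit 9) 
(.lf (nat_lit 601290) (.g (nat_lit 1259) (.e (nat_lit 565251) (nat_lit 0) (.e (nat_lit 1586) (nat_lit 111) (.e (nat_lit 360450) (nat_lit 0) (.e (nat_lit 7686) (nat_lit 410) .nil)))) (.g (nat_lit 0) (.e (nat_lit 420408) (nat_lit 0) .nil) .nil))) 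
(.lf (nat_lit 601802) (.g (nat_lit 1461) (.e (nat_lit 638998) (nat_lit 8) (.e (nat_lit 172067) (nat_lit 3) (.e (nat_lit 204869) (nat_lit 29) (.e (nat_lit 368384) (nat_lit 5) .nil)))) (.g (nat_lit 0) (.e (nat_lit 422546) (nat_lit 0) .nil) .nil)))) (.nd (nat_lit 9) 
(.lf (nat_lit 601546) (.g (nat_lit 3640) (.e (nat_lit 630799) (nat_lit 7) (.e (nat_lit 163976) (nat_lit 30) (.e (nat_lit 573488) (nat_lit 14) (.e (nat_lit 73755) (nat_lit 8) (.e (nat_lit 557105) (nat_lit 14) (.e (nat_lit 180252) (nat_lit 10) (.e (nat_lit 573475) (nat_lit 12) (.e (nat_lit 57500) (nat_lit 37) .nil)))))))) (.g (nat_lit 1) (.e (nat_lit 421405) (nat_lit 0) .nil) .nil))) 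
(.lf (nat_lit 602058) (.g (nat_lit 602) (.e (nat_lit 663568) (nat_lit 5) (.e (nat_lit 73781) (nat_lit 32) (.e (nat_lit 2855) (nat_lit 184) (.e (nat_lit 426545) (nat_lit 30) .nil)))) (.g (nat_lit 0) (.e (nat_lit 423033) (nat_lit 0) .nil) .nil))))))) (.nd (nat_lit 6) (.nd (nat_lit 7) (.nd (nat_lit 8) (.nd (nat_lit 9) 
(.lf (nat_lit 601130) (.g (nat_lit 3821) (.e (nat_lit 557105) (nat_lit 14) (.e (nat_lit 180252) (nat_lit 10) (.e (nat_lit 573482) (nat_lit 13) (.e (nat_lit 65637) (nat_lit 15) (.e (nat_lit 3253) (nat_lit 197) (.e (nat_lit 532501) (nat_lit 1) (.e (nat_lit 57851) (nat_lit 252) (.e (nat_lit 57354) (nat_lit 0) (.e (nat_lit 1857) (nat_lit 124) .nil))))))))) (.g (nat_lit 1) (.e (nat_lit 420187) (nat_lit 0) .nil) .nil))) 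
(.lf (nat_lit 601642) (.g (nat_lit 1951) (.e (nat_lit 639020) (nat_lit 16) (.e (nat_lit 65611) (nat_lit 10) (.e (nat_lit 344154) (nat_lit 35) (.e (nat_lit 630802) (nat_lit 8) (.e (nat_lit 172106) (nat_lit 10) (.e (nat_lit 434268) (nat_lit 36) .nil)))))) (.g (nat_lit 1) (.e (nat_lit 421760) (nat_lit 0) .nil) .nil)))) (.nd (nat_lit 9) 
(.lf (nat_lit 601386) (.g (nat_lit 568) (.e (nat_lit 565268) (nat_lit 5) (.e (nat_lit 73792) (nat_lit 45) (.e (nat_lit 1163) (nat_lit 86) (.e (nat_lit 49156) (nat_lit 0) (.e (nat_lit 3012) (nat_lit 187) (.e (nat_lit 458496) (nat_lit 9) .nil)))))) (.g (nat_lit 1) (.e (nat_lit 420577) (nat_lit 0) .nil) .nil))) 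
(.lf (nat_lit 601898) (.g (nat_lit 2408) (.e (nat_lit 663565) (nat_lit 3) (.e (nat_lit 57480) (nat_lit 28) (.e (nat_lit 557107) (nat_lit 15) (.e (nat_lit 188450) (nat_lit 23) (.e (nat_lit 204856) (nat_lit 26) .nil))))) (.g (nat_lit 0) (.e (nat_lit 422869) (nat_lit 0) .nil) .nil))))) (.nd (nat_lit 8) (.nd (nat_lit 9) 
(.lf (nat_lit 601258) (.g (nat_lit 2123) (.e (nat_lit 557109) (nat_lit 15) (.e (nat_lit 188452) (nat_lit 23) (.e (nat_lit 204846) (nat_lit 24) (.e (nat_lit 319533) (nat_lit 16) (.e (nat_lit 294656) (nat_lit 15) (.e (nat_lit 7936) (nat_lit 200) .nil)))))) (.g (nat_lit 1) (.e (nat_lit 420341) (nat_lit 0) .nil) .nil))) 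
(.lf (nat_lit 601770) (.g (nat_lit 4350) (.e (nat_lit 638995) (nat_lit 7) (.e (nat_lit 163979) (nat_lit 30) (.e (nat_lit 573489) (nat_lit 14) (.e (nat_lit 73755) (nat_lit 8) (.e (nat_lit 557103) (nat_lit 14) (.e (nat_lit 180250) (nat_lit 10) (.e (nat_lit 573478) (nat_lit 12) (.e (nat_lit 57502) (nat_lit 38) .nil)))))))) (.g (nat_lit 1) (.e (nat_lit 422303) (nat_lit 0) .nil) .nil)))) 
(.nd (nat_lit 9) 
(.lf (nat_lit 601514) (.g (nat_lit 1312) (.e (nat_lit 630821) (nat_lit 16) (.e (nat_lit 65610) (nat_lit 10) (.e (nat_lit 344157) (nat_lit 36) (.e (nat_lit 638986) (nat_lit 5) (.e (nat_lit 3022) (nat_lit 187) (.e (nat_lit 450591) (nat_lit 13) .nil)))))) (.g (nat_lit 1) (.e (nat_lit 421359) (nat_lit 0) .nil) .nil))) 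
(.lf (nat_lit 602026) (.g (nat_lit 1769) (.e (nat_lit 663567) (nat_lit 4) (.e (nat_lit 65630) (nat_lit 14) (.e (nat_lit 401438) (nat_lit 9) (.e (nat_lit 426540) (nat_lit 29) (.e (nat_lit 352287) (nat_lit 20) .nil))))) (.g (nat_lit 0) (.e (nat_lit 422999) (nat_lit 0) .nil) .nil)))))) (.nd (nat_lit 7) (.nd (nat_lit 8) (.nd (nat_lit 9) 
(.lf (nat_lit 601194) (.g (nat_lit 1980) (.e (nat_lit 557107) (nat_lit 15) (.e (nat_lit 188447) (nat_lit 22) (.e (nat_lit 196661) (nat_lit 12) (.e (nat_lit 57749) (nat_lit 201) (.e (nat_lit 2940) (nat_lit 184) (.e (nat_lit 426401) (nat_lit 15) (.e (nat_lit 1849) (nat_lit 124) .nil))))))) (.g (nat_lit 1) (.e (nat_lit 420276) (nat_lit 0) .nil) .nil))) 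
(.lf (nat_lit 601706) (.g (nat_lit 1961) (.e (nat_lit 639023) (nat_lit 18) (.e (nat_lit 81959) (nat_lit 24) (.e (nat_lit 123161) (nat_lit 255) (.e (nat_lit 229415) (nat_lit 15) (.e (nat_lit 450592) (nat_lit 14) .nil))))) (.g (nat_lit 0) (.e (nat_lit 422091) (nat_lit 0) .nil) .nil)))) (.nd (nat_lit 9) 
(.lf (nat_lit 601450) (.g (nat_lit 1562) (.e (nat_lit 622627) (nat_lit 13) (.e (nat_lit 284) (nat_lit 21) (.e (nat_lit 336203) (nat_lit 12) (.e (nat_lit 385102) (nat_lit 50) (.e (nat_lit 786483) (nat_lit 30) .nil))))) (.g (nat_lit 0) (.e (nat_lit 421197) (nat_lit 0) .nil) .nil))) 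
(.lf (nat_lit 601962) (.g (nat_lit 1976) (.e (nat_lit 663567) (nat_lit 4) (.e (nat_lit 65628) (nat_lit 14) (.e (nat_lit 401437) (nat_lit 9) (.e (nat_lit 426542) (nat_lit 29) (.e (nat_lit 352286) (nat_lit 20) (.e (nat_lit 1999) (nat_lit 137) .nil)))))) (.g (nat_lit 1) (.e (nat_lit 422935) (nat_lit 0) .nil) .nil))))) (.nd (nat_lit 8) (.nd (nat_lit 9) 
(.lf (nat_lit 601322) (.g (nat_lit 1360) (.e (nat_lit 565267) (nat_lit 4) (.e (nat_lit 65611) (nat_lit 10) (.e (nat_lit 344183) (nat_lit 49) (.e (nat_lit 819221) (nat_lit 6) (.e (nat_lit 188441) (nat_lit 20) (.e (nat_lit 3289) (nat_lit 201) .nil)))))) (.g (nat_lit 1) (.e (nat_lit 420496) (nat_lit 0) .nil) .nil))) 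
(.lf (nat_lit 601834) (.g (nat_lit 377) (.e (nat_lit 639001) (nat_lit 10) (.e (nat_lit 188440) (nat_lit 20) (.e (nat_lit 3391) (nat_lit 210) .nil))) (.g (nat_lit 0) (.e (nat_lit 422764) (nat_lit 0) .nil) .nil)))) (.nd (nat_lit 9) 
(.lf (nat_lit 601578) (.g (nat_lit 2825) (.e (nat_lit 630802) (nat_lit 8) (.e (nat_lit 172113) (nat_lit 10) (.e (nat_lit 434268) (nat_lit 36) (.e (nat_lit 639020) (nat_lit 16) (.e (nat_lit 65619) (nat_lit 10) (.e (nat_lit 344154) (nat_lit 35) .nil)))))) (.g (nat_lit 1) (.e (nat_lit 421568) (nat_lit 0) .nil) .nil))) 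
(.lf (nat_lit 602090) (.g (nat_lit 1542) (.e (nat_lit 663569) (nat_lit 6) (.e (nat_lit 81924) (nat_lit 0) (.e (nat_lit 3748) (nat_lit 228) (.e (nat_lit 786483) (nat_lit 30) (.e (nat_lit 368384) (nat_lit 17) .nil))))) (.g (nat_lit 1) (.e (nat_lit 423066) (nat_lit 0) .nil) .nil)))))))) (.nd (nat_lit 5) (.nd (nat_lit 6) (.nd (nat_lit 7) (.nd (nat_lit 8) (.nd (nat_lit 9) 
(.lf (nat_lit 601114) (.g (nat_lit 4568) (.e (nat_lit 557105) (nat_lit 14) (.e (nat_lit 180252) (nat_lit 10) (.e (nat_lit 573482) (nat_lit 13) (.e (nat_lit 65568) (nat_lit 2) (.e (nat_lit 98048) (nat_lit 2) (.e (nat_lit 16388) (nat_lit 0) (.e (nat_lit 3278) (nat_lit 200) .nil))))))) (.g (nat_lit 1) (.e (nat_lit 420171) (nat_lit 0) .nil) .nil))) 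
(.lf (nat_lit 601626) (.g (nat_lit 2295) (.e (nat_lit 639020) (nat_lit 16) (.e (nat_lit 65571) (nat_lit 3) (.e (nat_lit 98373) (nat_lit 29) (.e (nat_lit 450577) (nat_lit 4) .nil)))) (.g (nat_lit 0) (.e (nat_lit 421717) (nat_lit 0) .nil) .nil)))) (.nd (nat_lit 9) 
(.lf (nat_lit 601370) (.g (nat_lit 719) (.e (nat_lit 565268) (nat_lit 5) (.e (nat_lit 73789) (nat_lit 45) (.e (nat_lit 1162) (nat_lit 86) (.e (nat_lit 49157) (nat_lit 0) (.e (nat_lit 3012) (nat_lit 187) (.e (nat_lit 458496) (nat_lit 9) .nil)))))) (.g (nat_lit 1) (.e (nat_lit 420561) (nat_lit 0) .nil) .nil))) 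
(.lf (nat_lit 601882) (.g (nat_lit 2289) (.e (nat_lit 671488) (nat_lit 0) (.e (nat_lit 1669) (nat_lit 116) (.e (nat_lit 401454) (nat_lit 12) (.e (nat_lit 475210) (nat_lit 41) (.e (nat_lit 712755) (nat_lit 30) .nil))))) (.g (nat_lit 0) (.e (nat_lit 422839) (nat_lit 0) .nil) .nil))))) (.nd (nat_lit 8) (.nd (nat_lit 9) 
(.lf (nat_lit 601242) (.g (nat_lit 3463) (.e (nat_lit 557108) (nat_lit 15) (.e (nat_lit 188452) (nat_lit 23) (.e (nat_lit 204884) (nat_lit 33) (.e (nat_lit 401454) (nat_lit 12) (.e (nat_lit 483072) (nat_lit 29) .nil))))) (.g (nat_lit 1) (.e (nat_lit 420324) (nat_lit 0) .nil) .nil))) 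
(.lf (nat_lit 601754) (.g (nat_lit 4760) (.e (nat_lit 638995) (nat_lit 7) (.e (nat_lit 163979) (nat_lit 30) (.e (nat_lit 573487) (nat_lit 14) (.e (nat_lit 73753) (nat_lit 8) (.e (nat_lit 557103) (nat_lit 14) (.e (nat_lit 180250) (nat_lit 10) (.e (nat_lit 573473) (nat_lit 12) (.e (nat_lit 57503) (nat_lit 38) .nil)))))))) (.g (nat_lit 1) (.e (nat_lit 422276) (nat_lit 0) .nil) .nil)))) 
(.nd (nat_lit 9) 
(.lf (nat_lit 601498) (.g (nat_lit 555) (.e (nat_lit 630821) (nat_lit 16) (.e (nat_lit 65584) (nat_lit 7) (.e (nat_lit 319527) (nat_lit 15) (.e (nat_lit 278546) (nat_lit 8) (.e (nat_lit 303139) (nat_lit 10) .nil))))) (.g (nat_lit 0) (.e (nat_lit 421342) (nat_lit 0) .nil) .nil))) 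
(.lf (nat_lit 602010) (.g (nat_lit 1381) (.e (nat_lit 663567) (nat_lit 4) (.e (nat_lit 65630) (nat_lit 14) (.e (nat_lit 401437) (nat_lit 9) (.e (nat_lit 426538) (nat_lit 29) .nil)))) (.g (nat_lit 0) (.e (nat_lit 422983) (nat_lit 0) .nil) .nil)))))) (.nd (nat_lit 7) (.nd (nat_lit 8) (.nd (nat_lit 9) 
(.lf (nat_lit 601178) (.g (nat_lit 3212) (.e (nat_lit 557107) (nat_lit 15) (.e (nat_lit 188439) (nat_lit 20) (.e (nat_lit 3271) (nat_lit 199) (.e (nat_lit 548913) (nat_lit 18) (.e (nat_lit 172120) (nat_lit 12) (.e (nat_lit 475185) (nat_lit 29) .nil)))))) (.g (nat_lit 1) (.e (nat_lit 420260) (nat_lit 0) .nil) .nil))) 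
(.lf (nat_lit 601690) (.g (nat_lit 1609) (.e (nat_lit 639021) (nat_lit 16) (.e (nat_lit 65619) (nat_lit 10) (.e (nat_lit 344160) (nat_lit 37) (.e (nat_lit 647190) (nat_lit 9) (.e (nat_lit 7936) (nat_lit 34) .nil))))) (.g (nat_lit 0) (.e (nat_lit 422008) (nat_lit 0) .nil) .nil)))) (.nd (nat_lit 9) 
(.lf (nat_lit 601434) (.g (nat_lit 2450) (.e (nat_lit 622620) (nat_lit 13) (.e (nat_lit 2668) (nat_lit 167) (.e (nat_lit 196666) (nat_lit 13) (.e (nat_lit 65610) (nat_lit 10) (.e (nat_lit 344117) (nat_lit 21) .nil))))) (.g (nat_lit 0) (.e (nat_lit 421151) (nat_lit 0) .nil) .nil))) 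
(.lf (nat_lit 601946) (.g (nat_lit 1924) (.e (nat_lit 663567) (nat_lit 4) (.e (nat_lit 65628) (nat_lit 14) (.e (nat_lit 401437) (nat_lit 9) (.e (nat_lit 426493) (nat_lit 27) .nil)))) (.g (nat_lit 0) (.e (nat_lit 422919) (nat_lit 0) .nil) .nil))))) (.nd (nat_lit 8) (.nd (nat_lit 9) 
(.lf (nat_lit 601306) (.g (nat_lit 2062) (.e (nat_lit 565252) (nat_lit 0) (.e (nat_lit 1595) (nat_lit 111) (.e (nat_lit 368384) (nat_lit 0) (.e (nat_lit 7685) (nat_lit 410) (.e (nat_lit 2649) (nat_lit 166) (.e (nat_lit 188434) (nat_lit 20) (.e (nat_lit 3288) (nat_lit 201) .nil))))))) (.g (nat_lit 1) (.e (nat_lit 420447) (nat_lit 0) .nil) .nil))) 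
(.lf (nat_lit 601818) (.g (nat_lit 2084) (.e (nat_lit 638998) (nat_lit 8) (.e (nat_lit 172123) (nat_lit 13) (.e (nat_lit 483408) (nat_lit 26) (.e (nat_lit 385111) (nat_lit 53) (.e (nat_lit 811032) (nat_lit 11) (.e (nat_lit 682) (nat_lit 58) .nil)))))) (.g (nat_lit 1) (.e (nat_lit 422575) (nat_lit 0) .nil) .nil)))) (.nd (nat_lit 9) 
(.lf (nat_lit 601562) (.g (nat_lit 1169) (.e (nat_lit 630801) (nat_lit 8) (.e (nat_lit 172113) (nat_lit 10) (.e (nat_lit 434268) (nat_lit 36) (.e (nat_lit 639020) (nat_lit 16) .nil)))) (.g (nat_lit 0) (.e (nat_lit 421497) (nat_lit 0) .nil) .nil))) 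
(.lf (nat_lit 602074) (.g (nat_lit 1864) (.e (nat_lit 663569) (nat_lit 6) (.e (nat_lit 81922) (nat_lit 0) (.e (nat_lit 3632) (nat_lit 227) (.e (nat_lit 778326) (nat_lit 6) (.e (nat_lit 81935) (nat_lit 20) (.e (nat_lit 1994) (nat_lit 137) .nil)))))) (.g (nat_lit 1) (.e (nat_lit 423049) (nat_lit 0) .nil) .nil))))))) (.nd (nat_lit 6) (.nd (nat_lit 7) (.nd (nat_lit 8) (.nd (nat_lit 9) 
(.lf (nat_lit 601146) (.g (nat_lit 4419) (.e (nat_lit 557105) (nat_lit 14) (.e (nat_lit 180252) (nat_lit 10) (.e (nat_lit 573489) (nat_lit 14) (.e (nat_lit 73755) (nat_lit 8) (.e (nat_lit 557119) (nat_lit 18) (.e (nat_lit 2797) (nat_lit 180) (.e (nat_lit 303112) (nat_lit 0) (.e (nat_lit 7936) (nat_lit 200) .nil)))))))) (.g (nat_lit 1) (.e (nat_lit 420203) (nat_lit 0) .nil) .nil))) 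
(.lf (nat_lit 601658) (.g (nat_lit 453) (.e (nat_lit 639021) (nat_lit 16) (.e (nat_lit 65586) (nat_lit 7) (.e (nat_lit 319525) (nat_lit 15) .nil))) (.g (nat_lit 0) (.e (nat_lit 421842) (nat_lit 0) .nil) .nil)))) (.nd (nat_lit 9) 
(.lf (nat_lit 601402) (.g (nat_lit 2219) (.e (nat_lit 565269) (nat_lit 6) (.e (nat_lit 81943) (nat_lit 20) (.e (nat_lit 2391) (nat_lit 156) (.e (nat_lit 819221) (nat_lit 6) (.e (nat_lit 188441) (nat_lit 20) (.e (nat_lit 3289) (nat_lit 201) .nil)))))) (.g (nat_lit 1) (.e (nat_lit 420612) (nat_lit 0) .nil) .nil))) 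
(.lf (nat_lit 601914) (.g (nat_lit 4581) (.e (nat_lit 663565) (nat_lit 3) (.e (nat_lit 57480) (nat_lit 28) (.e (nat_lit 557109) (nat_lit 15) (.e (nat_lit 188452) (nat_lit 23) (.e (nat_lit 204858) (nat_lit 26) .nil))))) (.g (nat_lit 0) (.e (nat_lit 422885) (nat_lit 0) .nil) .nil))))) (.nd (nat_lit 8) (.nd (nat_lit 9) 
(.lf (nat_lit 601274) (.g (nat_lit 1052) (.e (nat_lit 557119) (nat_lit 18) (.e (nat_lit 2798) (nat_lit 180) (.e (nat_lit 303119) (nat_lit 3) (.e (nat_lit 204838) (nat_lit 20) .nil)))) (.g (nat_lit 0) (.e (nat_lit 420374) (nat_lit 0) .nil) .nil))) 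
(.lf (nat_lit 601786) (.g (nat_lit 3717) (.e (nat_lit 638996) (nat_lit 7) (.e (nat_lit 163978) (nat_lit 30) (.e (nat_lit 573489) (nat_lit 14) (.e (nat_lit 73755) (nat_lit 8) (.e (nat_lit 557105) (nat_lit 14) (.e (nat_lit 180251) (nat_lit 10) (.e (nat_lit 573478) (nat_lit 12) (.e (nat_lit 57502) (nat_lit 38) .nil)))))))) (.g (nat_lit 1) (.e (nat_lit 422458) (nat_lit 0) .nil) .nil)))) 
(.nd (nat_lit 9) 
(.lf (nat_lit 601530) (.g (nat_lit 1849) (.e (nat_lit 630821) (nat_lit 16) (.e (nat_lit 65617) (nat_lit 10) (.e (nat_lit 344161) (nat_lit 37) (.e (nat_lit 647190) (nat_lit 9) (.e (nat_lit 7936) (nat_lit 35) (.e (nat_lit 450591) (nat_lit 13) .nil)))))) (.g (nat_lit 1) (.e (nat_lit 421376) (nat_lit 0) .nil) .nil))) 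
(.lf (nat_lit 602042) (.g (nat_lit 1168) (.e (nat_lit 663567) (nat_lit 4) (.e (nat_lit 65630) (nat_lit 14) (.e (nat_lit 401458) (nat_lit 13) (.e (nat_lit 483394) (nat_lit 24) .nil)))) (.g (nat_lit 0) (.e (nat_lit 423015) (nat_lit 0) .nil) .nil)))))) (.nd (nat_lit 7) (.nd (nat_lit 8) (.nd (nat_lit 9) 
(.lf (nat_lit 601210) (.g (nat_lit 2808) (.e (nat_lit 557107) (nat_lit 15) (.e (nat_lit 188447) (nat_lit 22) (.e (nat_lit 196661) (nat_lit 12) (.e (nat_lit 57751) (nat_lit 201) (.e (nat_lit 3067) (nat_lit 190) (.e (nat_lit 475184) (nat_lit 29) .nil)))))) (.g (nat_lit 1) (.e (nat_lit 420292) (nat_lit 0) .nil) .nil))) 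
(.lf (nat_lit 601722) (.g (nat_lit 401) (.e (nat_lit 638986) (nat_lit 5) (.e (nat_lit 3016) (nat_lit 187) (.e (nat_lit 450591) (nat_lit 13) .nil))) (.g (nat_lit 0) (.e (nat_lit 422141) (nat_lit 0) .nil) .nil)))) (.nd (nat_lit 9) 
(.lf (nat_lit 601466) (.g (nat_lit 3057) (.e (nat_lit 622635) (nat_lit 16) (.e (nat_lit 163978) (nat_lit 30) (.e (nat_lit 573484) (nat_lit 13) (.e (nat_lit 65574) (nat_lit 4) .nil)))) (.g (nat_lit 0) (.e (nat_lit 421270) (nat_lit 0) .nil) .nil))) 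
(.lf (nat_lit 601978) (.g (nat_lit 2035) (.e (nat_lit 663567) (nat_lit 4) (.e (nat_lit 65628) (nat_lit 14) (.e (nat_lit 401457) (nat_lit 13) (.e (nat_lit 483386) (nat_lit 23) (.e (nat_lit 335907) (nat_lit 0) .nil))))) (.g (nat_lit 0) (.e (nat_lit 422951) (nat_lit 0) .nil) .nil))))) (.nd (nat_lit 8) (.nd (nat_lit 9) 
(.lf (nat_lit 601338) (.g (nat_lit 1619) (.e (nat_lit 565267) (nat_lit 4) (.e (nat_lit 65617) (nat_lit 10) (.e (nat_lit 344183) (nat_lit 49) (.e (nat_lit 819221) (nat_lit 6) (.e (nat_lit 188434) (nat_lit 20) (.e (nat_lit 3288) (nat_lit 201) .nil)))))) (.g (nat_lit 1) (.e (nat_lit 420517) (nat_lit 0) .nil) .nil))) 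
(.lf (nat_lit 601850) (.g (nat_lit 1433) (.e (nat_lit 663554) (nat_lit 0) (.e (nat_lit 1239) (nat_lit 91) (.e (nat_lit 90189) (nat_lit 18) (.e (nat_lit 2788) (nat_lit 179) (.e (nat_lit 294940) (nat_lit 9) .nil))))) (.g (nat_lit 0) (.e (nat_lit 422789) (nat_lit 0) .nil) .nil)))) (.nd (nat_lit 9) 
(.lf (nat_lit 601594) (.g (nat_lit 1394) (.e (nat_lit 639008) (nat_lit 13) (.e (nat_lit 1586) (nat_lit 111) (.e (nat_lit 360451) (nat_lit 0) (.e (nat_lit 5107) (nat_lit 292) .nil)))) (.g (nat_lit 0) (.e (nat_lit 421650) (nat_lit 0) .nil) .nil))) 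
(.lf (nat_lit 602106) (.g (nat_lit 1332) (.e (nat_lit 663580) (nat_lit 9) (.e (nat_lit 284) (nat_lit 21) (.e (nat_lit 335894) (nat_lit 0) (.e (nat_lit 2361) (nat_lit 152) .nil)))) (.g (nat_lit 0) (.e (nat_lit 423099) (nat_lit 0) .nil) .nil)))))))))) (.nd (nat_lit 3) (.nd (nat_lit 4) (.nd (nat_lit 5) (.nd (nat_lit 6) (.nd (nat_lit 7) (.nd (nat_lit 8) (.nd (nat_lit 9) 
(.lf (nat_lit 601094) (.g (nat_lit 2123) (.e (nat_lit 557105) (nat_lit 14) (.e (nat_lit 180252) (nat_lit 10) (.e (nat_lit 573481) (nat_lit 13) (.e (nat_lit 65568) (nat_lit 2) (.e (nat_lit 98048) (nat_lit 2) (.e (nat_lit 16389) (nat_lit 0) (.e (nat_lit 7936) (nat_lit 200) .nil))))))) (.g (nat_lit 1) (.e (nat_lit 420151) (nat_lit 0) .nil) .nil))) 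
(.lf (nat_lit 601606) (.g (nat_lit 728) (.e (nat_lit 639008) (nat_lit 13) (.e (nat_lit 1598) (nat_lit 111) (.e (nat_lit 360480) (nat_lit 14) (.e (nat_lit 638986) (nat_lit 5) (.e (nat_lit 3021) (nat_lit 187) (.e (nat_lit 450592) (nat_lit 14) .nil)))))) (.g (nat_lit 1) (.e (nat_lit 421682) (nat_lit 0) .nil) .nil)))) (.nd (nat_lit 9) 
(.lf (nat_lit 601350) (.g (nat_lit 1276) (.e (nat_lit 565267) (nat_lit 4) (.e (nat_lit 65619) (nat_lit 10) (.e (nat_lit 344183) (nat_lit 49) (.e (nat_lit 819221) (nat_lit 6) (.e (nat_lit 188438) (nat_lit 20) (.e (nat_lit 3289) (nat_lit 201) .nil)))))) (.g (nat_lit 1) (.e (nat_lit 420538) (nat_lit 0) .nil) .nil))) 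
(.lf (nat_lit 601862) (.g (nat_lit 2354) (.e (nat_lit 663555) (nat_lit 0) (.e (nat_lit 1673) (nat_lit 116) (.e (nat_lit 401450) (nat_lit 12) (.e (nat_lit 475211) (nat_lit 41) (.e (nat_lit 712755) (nat_lit 30) .nil))))) (.g (nat_lit 0) (.e (nat_lit 422814) (nat_lit 0) .nil) .nil))))) (.nd (nat_lit 8) (.nd (nat_lit 9) 
(.lf (nat_lit 601222) (.g (nat_lit 816) (.e (nat_lit 557107) (nat_lit 15) (.e (nat_lit 188450) (nat_lit 23) (.e (nat_lit 204881) (nat_lit 32) (.e (nat_lit 385100) (nat_lit 49) .nil)))) (.g (nat_lit 0) (.e (nat_lit 420304) (nat_lit 0) .nil) .nil))) 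
(.lf (nat_lit 601734) (.g (nat_lit 5495) (.e (nat_lit 638995) (nat_lit 7) (.e (nat_lit 163977) (nat_lit 30) (.e (nat_lit 573487) (nat_lit 14) (.e (nat_lit 73753) (nat_lit 8) (.e (nat_lit 557105) (nat_lit 14) (.e (nat_lit 180251) (nat_lit 10) (.e (nat_lit 573475) (nat_lit 12) (.e (nat_lit 57503) (nat_lit 38) .nil)))))))) (.g (nat_lit 1) (.e (nat_lit 422189) (nat_lit 0) .nil) .nil)))) 
(.nd (nat_lit 9) 
(.lf (nat_lit 601478) (.g (nat_lit 559) (.e (nat_lit 630820) (nat_lit 16) (.e (nat_lit 65584) (nat_lit 7) (.e (nat_lit 319527) (nat_lit 15) (.e (nat_lit 278546) (nat_lit 8) (.e (nat_lit 303139) (nat_lit 10) .nil))))) (.g (nat_lit 0) (.e (nat_lit 421315) (nat_lit 0) .nil) .nil))) 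
(.lf (nat_lit 601990) (.g (nat_lit 2158) (.e (nat_lit 663567) (nat_lit 4) (.e (nat_lit 65628) (nat_lit 14) (.e (nat_lit 401459) (nat_lit 13) (.e (nat_lit 483388) (nat_lit 23) .nil)))) (.g (nat_lit 0) (.e (nat_lit 422963) (nat_lit 0) .nil) .nil)))))) (.nd (nat_lit 7) (.nd (nat_lit 8) (.nd (nat_lit 9) 
(.lf (nat_lit 601158) (.g (nat_lit 1780) (.e (nat_lit 557105) (nat_lit 14) (.e (nat_lit 180252) (nat_lit 10) (.e (nat_lit 573489) (nat_lit 14) (.e (nat_lit 73755) (nat_lit 8) (.e (nat_lit 557119) (nat_lit 18) (.e (nat_lit 2808) (nat_lit 180) (.e (nat_lit 303106) (nat_lit 0) (.e (nat_lit 7936) (nat_lit 200) .nil)))))))) (.g (nat_lit 1) (.e (nat_lit 420215) (nat_lit 0) .nil) .nil))) 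
(.lf (nat_lit 601670) (.g (nat_lit 2003) (.e (nat_lit 639021) (nat_lit 16) (.e (nat_lit 65610) (nat_lit 10) (.e (nat_lit 344160) (nat_lit 37) (.e (nat_lit 647195) (nat_lit 9) (.e (nat_lit 7936) (nat_lit 35) .nil))))) (.g (nat_lit 0) (.e (nat_lit 421903) (nat_lit 0) .nil) .nil)))) (.nd (nat_lit 9) 
(.lf (nat_lit 601414) (.g (nat_lit 2088) (.e (nat_lit 614415) (nat_lit 3) (.e (nat_lit 163979) (nat_lit 30) (.e (nat_lit 573482) (nat_lit 13) (.e (nat_lit 65619) (nat_lit 10) (.e (nat_lit 344129) (nat_lit 26) .nil))))) (.g (nat_lit 0) (.e (nat_lit 420935) (nat_lit 0) .nil) .nil))) 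
(.lf (nat_lit 601926) (.g (nat_lit 318) (.e (nat_lit 663567) (nat_lit 4) (.e (nat_lit 65599) (nat_lit 9) (.e (nat_lit 343808) (nat_lit 19) .nil))) (.g (nat_lit 0) (.e (nat_lit 422899) (nat_lit 0) .nil) .nil))))) (.nd (nat_lit 8) (.nd (nat_lit 9) 
(.lf (nat_lit 601286) (.g (nat_lit 1495) (.e (nat_lit 557119) (nat_lit 18) (.e (nat_lit 2787) (nat_lit 179) (.e (nat_lit 294959) (nat_lit 13) (.e (nat_lit 393221) (nat_lit 0) (.e (nat_lit 6209) (nat_lit 333) (.e (nat_lit 57814) (nat_lit 246) (.e (nat_lit 65280) (nat_lit 89) .nil))))))) (.g (nat_lit 1) (.e (nat_lit 420404) (nat_lit 0) .nil) .nil))) 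
(.lf (nat_lit 601798) (.g (nat_lit 3638) (.e (nat_lit 638996) (nat_lit 7) (.e (nat_lit 163979) (nat_lit 30) (.e (nat_lit 573489) (nat_lit 14) (.e (nat_lit 73755) (nat_lit 8) (.e (nat_lit 557105) (nat_lit 14) (.e (nat_lit 180252) (nat_lit 10) (.e (nat_lit 573474) (nat_lit 12) (.e (nat_lit 65280) (nat_lit 38) .nil)))))))) (.g (nat_lit 1) (.e (nat_lit 422502) (nat_lit 0) .nil) .nil)))) 
(.nd (nat_lit 9) 
(.lf (nat_lit 601542) (.g (nat_lit 868) (.e (nat_lit 630821) (nat_lit 16) (.e (nat_lit 65619) (nat_lit 10) (.e (nat_lit 344157) (nat_lit 36) (.e (nat_lit 638999) (nat_lit 8) .nil)))) (.g (nat_lit 0) (.e (nat_lit 421388) (nat_lit 0) .nil) .nil))) 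
(.lf (nat_lit 602054) (.g (nat_lit 2987) (.e (nat_lit 663567) (nat_lit 4) (.e (nat_lit 65651) (nat_lit 27) (.e (nat_lit 426011) (nat_lit 0) (.e (nat_lit 7581) (nat_lit 405) (.e (nat_lit 57476) (nat_lit 28) (.e (nat_lit 557067) (nat_lit 9) (.e (nat_lit 2975) (nat_lit 185) (.e (nat_lit 434276) (nat_lit 39) .nil)))))))) (.g (nat_lit 1) (.e (nat_lit 423027) (nat_lit 0) .nil) .nil))))))) 
(.nd (nat_lit 6) (.nd (nat_lit 7) (.nd (nat_lit 8) (.nd (nat_lit 9) 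
(.lf (nat_lit 601126) (.g (nat_lit 3080) (.e (nat_lit 557105) (nat_lit 14) (.e (nat_lit 180252) (nat_lit 10) (.e (nat_lit 573482) (nat_lit 13) (.e (nat_lit 65568) (nat_lit 2) (.e (nat_lit 98048) (nat_lit 2) (.e (nat_lit 16400) (nat_lit 0) (.e (nat_lit 7936) (nat_lit 200) .nil))))))) (.g (nat_lit 1) (.e (nat_lit 420183) (nat_lit 0) .nil) .nil))) 
(.lf (nat_lit 601638) (.g (nat_lit 2383) (.e (nat_lit 639020) (nat_lit 16) (.e (nat_lit 65586) (nat_lit 7) (.e (nat_lit 319531) (nat_lit 16) (.e (nat_lit 286728) (nat_lit 0) (.e (nat_lit 7936) (nat_lit 362) .nil))))) (.g (nat_lit 0) (.e (nat_lit 421731) (nat_lit 0) .nil) .nil)))) (.nd (nat_lit 9) 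
(.lf (nat_lit 601382) (.g (nat_lit 615) (.e (nat_lit 565268) (nat_lit 5) (.e (nat_lit 73792) (nat_lit 45) (.e (nat_lit 1162) (nat_lit 86) (.e (nat_lit 49156) (nat_lit 0) (.e (nat_lit 3012) (nat_lit 187) (.e (nat_lit 458496) (nat_lit 9) .nil)))))) (.g (nat_lit 1) (.e (nat_lit 420573) (nat_lit 0) .nil) .nil))) 
(.lf (nat_lit 601894) (.g (nat_lit 2141) (.e (nat_lit 663565) (nat_lit 3) (.e (nat_lit 57480) (nat_lit 28) (.e (nat_lit 557098) (nat_lit 13) (.e (nat_lit 172097) (nat_lit 9) (.e (nat_lit 426140) (nat_lit 3) .nil))))) (.g (nat_lit 0) (.e (nat_lit 422865) (nat_lit 0) .nil) .nil))))) (.nd (nat_lit 8) (.nd (nat_lit 9) 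
(.lf (nat_lit 601254) (.g (nat_lit 3920) (.e (nat_lit 557109) (nat_lit 15) (.e (nat_lit 188452) (nat_lit 23) (.e (nat_lit 204846) (nat_lit 24) (.e (nat_lit 319533) (nat_lit 16) (.e (nat_lit 286765) (nat_lit 15) (.e (nat_lit 7936) (nat_lit 200) .nil)))))) (.g (nat_lit 1) (.e (nat_lit 420337) (nat_lit 0) .nil) .nil))) 
(.lf (nat_lit 601766) (.g (nat_lit 3381) (.e (nat_lit 638995) (nat_lit 7) (.e (nat_lit 163979) (nat_lit 30) (.e (nat_lit 573489) (nat_lit 14) (.e (nat_lit 73754) (nat_lit 8) (.e (nat_lit 557103) (nat_lit 14) (.e (nat_lit 180250) (nat_lit 10) (.e (nat_lit 573473) (nat_lit 12) (.e (nat_lit 57504) (nat_lit 38) .nil)))))))) (.g (nat_lit 1) (.e (nat_lit 422299) (nat_lit 0) .nil) .nil)))) 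
(.nd (nat_lit 9) 
(.lf (nat_lit 601510) (.g (nat_lit 1545) (.e (nat_lit 630821) (nat_lit 16) (.e (nat_lit 65610) (nat_lit 10) (.e (nat_lit 344156) (nat_lit 36) (.e (nat_lit 638998) (nat_lit 8) (.e (nat_lit 172113) (nat_lit 10) .nil))))) (.g (nat_lit 0) (.e (nat_lit 421355) (nat_lit 0) .nil) .nil))) 
(.lf (nat_lit 602022) (.g (nat_lit 2037) (.e (nat_lit 663567) (nat_lit 4) (.e (nat_lit 65630) (nat_lit 14) (.e (nat_lit 401437) (nat_lit 9) (.e (nat_lit 426542) (nat_lit 29) (.e (nat_lit 352286) (nat_lit 20) (.e (nat_lit 1999) (nat_lit 137) .nil)))))) (.g (nat_lit 1) (.e (nat_lit 422995) (nat_lit 0) .nil) .nil)))))) (.nd (nat_lit 7) (.nd (nat_lit 8) (.nd (nat_lit 9) 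
(.lf (nat_lit 601190) (.g (nat_lit 2300) (.e (nat_lit 557107) (nat_lit 15) (.e (nat_lit 188440) (nat_lit 20) (.e (nat_lit 3272) (nat_lit 199) (.e (nat_lit 548915) (nat_lit 20) (.e (nat_lit 188419) (nat_lit 0) (.e (nat_lit 1856) (nat_lit 124) .nil)))))) (.g (nat_lit 1) (.e (nat_lit 420272) (nat_lit 0) .nil) .nil))) 
(.lf (nat_lit 601702) (.g (nat_lit 622) (.e (nat_lit 639023) (nat_lit 18) (.e (nat_lit 81957) (nat_lit 24) (.e (nat_lit 130816) (nat_lit 255) .nil))) (.g (nat_lit 0) (.e (nat_lit 422077) (nat_lit 0) .nil) .nil)))) (.nd (nat_lit 9) 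
(.lf (nat_lit 601446) (.g (nat_lit 5250) (.e (nat_lit 622626) (nat_lit 13) (.e (nat_lit 2663) (nat_lit 167) (.e (nat_lit 196666) (nat_lit 13) (.e (nat_lit 65610) (nat_lit 10) (.e (nat_lit 344117) (nat_lit 21) (.e (nat_lit 516151) (nat_lit 9) (.e (nat_lit 426042) (nat_lit 0) (.e (nat_lit 3370) (nat_lit 208) .nil)))))))) (.g (nat_lit 1) (.e (nat_lit 421191) (nat_lit 0) .nil) .nil))) 
(.lf (nat_lit 601958) (.g (nat_lit 2297) (.e (nat_lit 663567) (nat_lit 4) (.e (nat_lit 65628) (nat_lit 14) (.e (nat_lit 401437) (nat_lit 9) (.e (nat_lit 426542) (nat_lit 29) (.e (nat_lit 352280) (nat_lit 20) (.e (nat_lit 1994) (nat_lit 137) .nil)))))) (.g (nat_lit 1) (.e (nat_lit 422931) (nat_lit 0) .nil) .nil))))) (.nd (nat_lit 8) (.nd (nat_lit 9) 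
(.lf (nat_lit 601318) (.g (nat_lit 1041) (.e (nat_lit 565267) (nat_lit 4) (.e (nat_lit 65611) (nat_lit 10) (.e (nat_lit 344183) (nat_lit 49) (.e (nat_lit 819221) (nat_lit 6) (.e (nat_lit 188435) (nat_lit 20) (.e (nat_lit 3289) (nat_lit 201) .nil)))))) (.g (nat_lit 1) (.e (nat_lit 420492) (nat_lit 0) .nil) .nil))) 
(.lf (nat_lit 601830) (.g (nat_lit 464) (.e (nat_lit 639001) (nat_lit 10) (.e (nat_lit 188434) (nat_lit 20) (.e (nat_lit 3388) (nat_lit 210) .nil))) (.g (nat_lit 0) (.e (nat_lit 422755) (nat_lit 0) .nil) .nil)))) (.nd (nat_lit 9) 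
(.lf (nat_lit 601574) (.g (nat_lit 962) (.e (nat_lit 630802) (nat_lit 8) (.e (nat_lit 172094) (nat_lit 9) (.e (nat_lit 426109) (nat_lit 1) (.e (nat_lit 164319) (nat_lit 228) .nil)))) (.g (nat_lit 0) (.e (nat_lit 421563) (nat_lit 0) .nil) .nil))) 
(.lf (nat_lit 602086) (.g (nat_lit 918) (.e (nat_lit 663569) (nat_lit 6) (.e (nat_lit 81924) (nat_lit 0) (.e (nat_lit 3632) (nat_lit 227) (.e (nat_lit 778327) (nat_lit 6) (.e (nat_lit 81933) (nat_lit 20) .nil))))) (.g (nat_lit 0) (.e (nat_lit 423062) (nat_lit 0) .nil) .nil)))))))) (.nd (nat_lit 5) (.nd (nat_lit 6) (.nd (nat_lit 7) (.nd (nat_lit 8) (.nd (nat_lit 9) 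
(.lf (nat_lit 601110) (.g (nat_lit 3119) (.e (nat_lit 557105) (nat_lit 14) (.e (nat_lit 180252) (nat_lit 10) (.e (nat_lit 573482) (nat_lit 13) (.e (nat_lit 65568) (nat_lit 2) (.e (nat_lit 98048) (nat_lit 2) (.e (nat_lit 16384) (nat_lit 0) (.e (nat_lit 3276) (nat_lit 200) .nil))))))) (.g (nat_lit 1) (.e (nat_lit 420167) (nat_lit 0) .nil) .nil))) 
(.lf (nat_lit 601622) (.g (nat_lit 2019) (.e (nat_lit 639020) (nat_lit 16) (.e (nat_lit 65571) (nat_lit 3) (.e (nat_lit 98372) (nat_lit 29) (.e (nat_lit 450574) (nat_lit 1) .nil)))) (.g (nat_lit 0) (.e (nat_lit 421713) (nat_lit 0) .nil) .nil)))) (.nd (nat_lit 9) 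
(.lf (nat_lit 601366) (.g (nat_lit 477) (.e (nat_lit 565268) (nat_lit 5) (.e (nat_lit 73788) (nat_lit 45) (.e (nat_lit 1163) (nat_lit 86) (.e (nat_lit 49157) (nat_lit 0) (.e (nat_lit 3012) (nat_lit 187) (.e (nat_lit 458496) (nat_lit 9) .nil)))))) (.g (nat_lit 1) (.e (nat_lit 420557) (nat_lit 0) .nil) .nil))) 
(.lf (nat_lit 601878) (.g (nat_lit 1602) (.e (nat_lit 671488) (nat_lit 0) (.e (nat_lit 1238) (nat_lit 91) (.e (nat_lit 90172) (nat_lit 14) (.e (nat_lit 180251) (nat_lit 10) (.e (nat_lit 573489) (nat_lit 14) .nil))))) (.g (nat_lit 0) (.e (nat_lit 422835) (nat_lit 0) .nil) .nil))))) (.nd (nat_lit 8) (.nd (nat_lit 9) 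
(.lf (nat_lit 601238) (.g (nat_lit 2986) (.e (nat_lit 557108) (nat_lit 15) (.e (nat_lit 188452) (nat_lit 23) (.e (nat_lit 204846) (nat_lit 24) (.e (nat_lit 319534) (nat_lit 16) (.e (nat_lit 286763) (nat_lit 15) (.e (nat_lit 7936) (nat_lit 200) .nil)))))) (.g (nat_lit 1) (.e (nat_lit 420320) (nat_lit 0) .nil) .nil))) 
(.lf (nat_lit 601750) (.g (nat_lit 3271) (.e (nat_lit 638995) (nat_lit 7) (.e (nat_lit 163978) (nat_lit 30) (.e (nat_lit 573489) (nat_lit 14) (.e (nat_lit 73755) (nat_lit 8) (.e (nat_lit 557103) (nat_lit 14) (.e (nat_lit 180250) (nat_lit 10) (.e (nat_lit 573473) (nat_lit 12) (.e (nat_lit 57504) (nat_lit 38) .nil)))))))) (.g (nat_lit 1) (.e (nat_lit 422234) (nat_lit 0) .nil) .nil)))) 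
(.nd (nat_lit 9) 
(.lf (nat_lit 601494) (.g (nat_lit 867) (.e (nat_lit 630821) (nat_lit 16) (.e (nat_lit 65583) (nat_lit 7) (.e (nat_lit 319530) (nat_lit 16) (.e (nat_lit 286722) (nat_lit 0) .nil)))) (.g (nat_lit 0) (.e (nat_lit 421338) (nat_lit 0) .nil) .nil))) 
(.lf (nat_lit 602006) (.g (nat_lit 2125) (.e (nat_lit 663567) (nat_lit 4) (.e (nat_lit 65630) (nat_lit 14) (.e (nat_lit 401437) (nat_lit 9) (.e (nat_lit 426504) (nat_lit 27) .nil)))) (.g (nat_lit 0) (.e (nat_lit 422979) (nat_lit 0) .nil) .nil)))))) (.nd (nat_lit 7) (.nd (nat_lit 8) (.nd (nat_lit 9) 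
(.lf (nat_lit 601174) (.g (nat_lit 2691) (.e (nat_lit 557107) (nat_lit 15) (.e (nat_lit 188439) (nat_lit 20) (.e (nat_lit 3271) (nat_lit 199) (.e (nat_lit 548898) (nat_lit 14) (.e (nat_lit 2988) (nat_lit 186) (.e (nat_lit 442374) (nat_lit 0) (.e (nat_lit 1856) (nat_lit 124) .nil))))))) (.g (nat_lit 1) (.e (nat_lit 420256) (nat_lit 0) .nil) .nil))) 
(.lf (nat_lit 601686) (.g (nat_lit 1307) (.e (nat_lit 639021) (nat_lit 16) (.e (nat_lit 65617) (nat_lit 10) (.e (nat_lit 344164) (nat_lit 37) (.e (nat_lit 647190) (nat_lit 9) (.e (nat_lit 7936) (nat_lit 37) .nil))))) (.g (nat_lit 0) (.e (nat_lit 421980) (nat_lit 0) .nil) .nil)))) (.nd (nat_lit 9) 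
(.lf (nat_lit 601430) (.g (nat_lit 5363) (.e (nat_lit 622620) (nat_lit 13) (.e (nat_lit 2663) (nat_lit 167) (.e (nat_lit 196666) (nat_lit 13) (.e (nat_lit 65610) (nat_lit 10) (.e (nat_lit 344117) (nat_lit 21) (.e (nat_lit 516151) (nat_lit 9) (.e (nat_lit 426022) (nat_lit 0) (.e (nat_lit 7936) (nat_lit 208) .nil)))))))) (.g (nat_lit 1) (.e (nat_lit 421145) (nat_lit 0) .nil) .nil))) 
(.lf (nat_lit 601942) (.g (nat_lit 1924) (.e (nat_lit 663567) (nat_lit 4) (.e (nat_lit 65628) (nat_lit 14) (.e (nat_lit 401437) (nat_lit 9) (.e (nat_lit 426478) (nat_lit 27) .nil)))) (.g (nat_lit 0) (.e (nat_lit 422915) (nat_lit 0) .nil) .nil))))) (.nd (nat_lit 8) (.nd (nat_lit 9) 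
(.lf (nat_lit 601302) (.g (nat_lit 2114) (.e (nat_lit 565252) (nat_lit 0) (.e (nat_lit 1589) (nat_lit 111) (.e (nat_lit 368384) (nat_lit 0) (.e (nat_lit 7685) (nat_lit 410) (.e (nat_lit 2649) (nat_lit 166) (.e (nat_lit 188434) (nat_lit 20) (.e (nat_lit 3288) (nat_lit 201) .nil))))))) (.g (nat_lit 1) (.e (nat_lit 420442) (nat_lit 0) .nil) .nil))) 
(.lf (nat_lit 601814) (.g (nat_lit 1529) (.e (nat_lit 638998) (nat_lit 8) (.e (nat_lit 172123) (nat_lit 13) (.e (nat_lit 483405) (nat_lit 26) (.e (nat_lit 385109) (nat_lit 51) (.e (nat_lit 794641) (nat_lit 20) (.e (nat_lit 7936) (nat_lit 210) .nil)))))) (.g (nat_lit 1) (.e (nat_lit 422568) (nat_lit 0) .nil) .nil)))) (.nd (nat_lit 9) 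
(.lf (nat_lit 601558) (.g (nat_lit 3340) (.e (nat_lit 630800) (nat_lit 7) (.e (nat_lit 163979) (nat_lit 30) (.e (nat_lit 573489) (nat_lit 14) (.e (nat_lit 73754) (nat_lit 8) (.e (nat_lit 557103) (nat_lit 14) .nil))))) (.g (nat_lit 0) (.e (nat_lit 421459) (nat_lit 0) .nil) .nil))) 
(.lf (nat_lit 602070) (.g (nat_lit 1469) (.e (nat_lit 663568) (nat_lit 5) (.e (nat_lit 73782) (nat_lit 32) (.e (nat_lit 2857) (nat_lit 184) (.e (nat_lit 426546) (nat_lit 30) (.e (nat_lit 368384) (nat_lit 17) .nil))))) (.g (nat_lit 1) (.e (nat_lit 423045) (nat_lit 0) .nil) .nil))))))) (.nd (nat_lit 6) (.nd (nat_lit 7) (.nd (nat_lit 8) (.nd (nat_lit 9) 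
(.lf (nat_lit 601142) (.g (nat_lit 2877) (.e (nat_lit 557105) (nat_lit 14) (.e (nat_lit 180252) (nat_lit 10) (.e (nat_lit 573489) (nat_lit 14) (.e (nat_lit 73755) (nat_lit 8) (.e (nat_lit 557119) (nat_lit 18) (.e (nat_lit 2796) (nat_lit 180) (.e (nat_lit 303111) (nat_lit 0) (.e (nat_lit 7936) (nat_lit 200) .nil)))))))) (.g (nat_lit 1) (.e (nat_lit 420199) (nat_lit 0) .nil) .nil))) 
(.lf (nat_lit 601654) (.g (nat_lit 1939) (.e (nat_lit 639020) (nat_lit 16) (.e (nat_lit 65627) (nat_lit 13) (.e (nat_lit 393293) (nat_lit 26) (.e (nat_lit 475214) (nat_lit 42) (.e (nat_lit 720912) (nat_lit 20) .nil))))) (.g (nat_lit 0) (.e (nat_lit 421822) (nat_lit 0) .nil) .nil)))) (.nd (nat_lit 9) 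
(.lf (nat_lit 601398) (.g (nat_lit 1896) (.e (nat_lit 565269) (nat_lit 6) (.e (nat_lit 81943) (nat_lit 20) (.e (nat_lit 2391) (nat_lit 156) (.e (nat_lit 819221) (nat_lit 6) (.e (nat_lit 188435) (nat_lit 20) (.e (nat_lit 3289) (nat_lit 201) .nil)))))) (.g (nat_lit 1) (.e (nat_lit 420608) (nat_lit 0) .nil) .nil))) 
(.lf (nat_lit 601910) (.g (nat_lit 4002) (.e (nat_lit 663565) (nat_lit 3) (.e (nat_lit 57480) (nat_lit 28) (.e (nat_lit 557109) (nat_lit 15) (.e (nat_lit 188450) (nat_lit 23) (.e (nat_lit 204857) (nat_lit 26) .nil))))) (.g (nat_lit 0) (.e (nat_lit 422881) (nat_lit 0) .nil) .nil))))) (.nd (nat_lit 8) (.nd (nat_lit 9) 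
(.lf (nat_lit 601270) (.g (nat_lit 3184) (.e (nat_lit 557119) (nat_lit 18) (.e (nat_lit 2797) (nat_lit 180) (.e (nat_lit 303145) (nat_lit 13) (.e (nat_lit 483346) (nat_lit 17) (.e (nat_lit 974) (nat_lit 81) .nil))))) (.g (nat_lit 0) (.e (nat_lit 420368) (nat_lit 0) .nil) .nil))) 
(.lf (nat_lit 601782) (.g (nat_lit 2984) (.e (nat_lit 638996) (nat_lit 7) (.e (nat_lit 163978) (nat_lit 30) (.e (nat_lit 573489) (nat_lit 14) (.e (nat_lit 73755) (nat_lit 8) (.e (nat_lit 557103) (nat_lit 14) .nil))))) (.g (nat_lit 0) (.e (nat_lit 422454) (nat_lit 0) .nil) .nil)))) (.nd (nat_lit 9) 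
(.lf (nat_lit 601526) (.g (nat_lit 1343) (.e (nat_lit 630821) (nat_lit 16) (.e (nat_lit 65617) (nat_lit 10) (.e (nat_lit 344157) (nat_lit 36) (.e (nat_lit 638985) (nat_lit 5) (.e (nat_lit 3022) (nat_lit 187) (.e (nat_lit 450591) (nat_lit 13) .nil)))))) (.g (nat_lit 1) (.e (nat_lit 421371) (nat_lit 0) .nil) .nil))) 
(.lf (nat_lit 602038) (.g (nat_lit 1381) (.e (nat_lit 663567) (nat_lit 4) (.e (nat_lit 65630) (nat_lit 14) (.e (nat_lit 401457) (nat_lit 13) (.e (nat_lit 483389) (nat_lit 23) .nil)))) (.g (nat_lit 0) (.e (nat_lit 423011) (nat_lit 0) .nil) .nil)))))) (.nd (nat_lit 7) (.nd (nat_lit 8) (.nd (nat_lit 9) 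
(.lf (nat_lit 601206) (.g (nat_lit 2970) (.e (nat_lit 557107) (nat_lit 15) (.e (nat_lit 188447) (nat_lit 22) (.e (nat_lit 196661) (nat_lit 12) (.e (nat_lit 57751) (nat_lit 201) (.e (nat_lit 2856) (nat_lit 184) (.e (nat_lit 426402) (nat_lit 15) (.e (nat_lit 1849) (nat_lit 124) .nil))))))) (.g (nat_lit 1) (.e (nat_lit 420288) (nat_lit 0) .nil) .nil))) 
(.lf (nat_lit 601718) (.g (nat_lit 1093) (.e (nat_lit 638985) (nat_lit 5) (.e (nat_lit 3022) (nat_lit 187) (.e (nat_lit 450591) (nat_lit 13) (.e (nat_lit 630821) (nat_lit 16) (.e (nat_lit 65620) (nat_lit 10) (.e (nat_lit 344157) (nat_lit 36) .nil)))))) (.g (nat_lit 1) (.e (nat_lit 422123) (nat_lit 0) .nil) .nil)))) (.nd (nat_lit 9) 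
(.lf (nat_lit 601462) (.g (nat_lit 691) (.e (nat_lit 622632) (nat_lit 15) (.e (nat_lit 24662) (nat_lit 14) (.e (nat_lit 401459) (nat_lit 13) .nil))) (.g (nat_lit 0) (.e (nat_lit 421236) (nat_lit 0) .nil) .nil))) 
(.lf (nat_lit 601974) (.g (nat_lit 2700) (.e (nat_lit 663567) (nat_lit 4) (.e (nat_lit 65628) (nat_lit 14) (.e (nat_lit 401454) (nat_lit 12) (.e (nat_lit 475142) (nat_lit 8) .nil)))) (.g (nat_lit 0) (.e (nat_lit 422947) (nat_lit 0) .nil) .nil))))) (.nd (nat_lit 8) (.nd (nat_lit 9) 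
(.lf (nat_lit 601334) (.g (nat_lit 1193) (.e (nat_lit 565267) (nat_lit 4) (.e (nat_lit 65617) (nat_lit 10) (.e (nat_lit 344096) (nat_lit 18) (.e (nat_lit 7710) (nat_lit 414) .nil)))) (.g (nat_lit 0) (.e (nat_lit 420512) (nat_lit 0) .nil) .nil))) 
(.lf (nat_lit 601846) (.g (nat_lit 2253) (.e (nat_lit 663552) (nat_lit 0) (.e (nat_lit 1674) (nat_lit 116) (.e (nat_lit 401454) (nat_lit 12) (.e (nat_lit 475210) (nat_lit 41) (.e (nat_lit 712755) (nat_lit 30) .nil))))) (.g (nat_lit 0) (.e (nat_lit 422783) (nat_lit 0) .nil) .nil)))) (.nd (nat_lit 9) 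
(.lf (nat_lit 601590) (.g (nat_lit 239) (.e (nat_lit 639007) (nat_lit 13) (.e (nat_lit 1598) (nat_lit 111) (.e (nat_lit 368384) (nat_lit 0) .nil))) (.g (nat_lit 0) (.e (nat_lit 421638) (nat_lit 0) .nil) .nil))) 
(.lf (nat_lit 602102) (.g (nat_lit 1422) (.e (nat_lit 663572) (nat_lit 9) (.e (nat_lit 309) (nat_lit 23) (.e (nat_lit 352309) (nat_lit 21) (.e (nat_lit 57857) (nat_lit 254) (.e (nat_lit 163923) (nat_lit 15) .nil))))) (.g (nat_lit 0) (.e (nat_lit 423081) (nat_lit 0) .nil) .nil))))))))) (.nd (nat_lit 4) (.nd (nat_lit 5) (.nd (nat_lit 6) (.nd (nat_lit 7) (.nd (nat_lit 8) (.nd (nat_lit 9) 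
(.lf (nat_lit 601102) (.g (nat_lit 2228) (.e (nat_lit 557105) (nat_lit 14) (.e (nat_lit 180252) (nat_lit 10) (.e (nat_lit 573481) (nat_lit 13) (.e (nat_lit 65568) (nat_lit 2) (.e (nat_lit 98048) (nat_lit 2) (.e (nat_lit 16398) (nat_lit 0) (.e (nat_lit 7936) (nat_lit 200) .nil))))))) (.g (nat_lit 1) (.e (nat_lit 420159) (nat_lit 0) .nil) .nil))) 
(.lf (nat_lit 601614) (.g (nat_lit 3071) (.e (nat_lit 639016) (nat_lit 15) (.e (nat_lit 57479) (nat_lit 28) (.e (nat_lit 557105) (nat_lit 14) (.e (nat_lit 180252) (nat_lit 10) (.e (nat_lit 573487) (nat_lit 14) .nil))))) (.g (nat_lit 0) (.e (nat_lit 421693) (nat_lit 0) .nil) .nil)))) (.nd (nat_lit 9) 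
(.lf (nat_lit 601358) (.g (nat_lit 1244) (.e (nat_lit 565267) (nat_lit 4) (.e (nat_lit 65620) (nat_lit 10) (.e (nat_lit 344183) (nat_lit 49) (.e (nat_lit 819221) (nat_lit 6) (.e (nat_lit 188434) (nat_lit 20) (.e (nat_lit 3288) (nat_lit 201) .nil)))))) (.g (nat_lit 1) (.e (nat_lit 420547) (nat_lit 0) .nil) .nil))) 
(.lf (nat_lit 601870) (.g (nat_lit 2394) (.e (nat_lit 663560) (nat_lit 0) (.e (nat_lit 1234) (nat_lit 91) (.e (nat_lit 90174) (nat_lit 14) (.e (nat_lit 180250) (nat_lit 10) (.e (nat_lit 573487) (nat_lit 14) .nil))))) (.g (nat_lit 0) (.e (nat_lit 422825) (nat_lit 0) .nil) .nil))))) (.nd (nat_lit 8) (.nd (nat_lit 9) 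
(.lf (nat_lit 601230) (.g (nat_lit 1882) (.e (nat_lit 557108) (nat_lit 15) (.e (nat_lit 188447) (nat_lit 22) (.e (nat_lit 196666) (nat_lit 13) (.e (nat_lit 65639) (nat_lit 15) .nil)))) (.g (nat_lit 0) (.e (nat_lit 420312) (nat_lit 0) .nil) .nil))) 
(.lf (nat_lit 601742) (.g (nat_lit 946) (.e (nat_lit 638995) (nat_lit 7) (.e (nat_lit 163978) (nat_lit 30) (.e (nat_lit 573487) (nat_lit 14) .nil))) (.g (nat_lit 0) (.e (nat_lit 422224) (nat_lit 0) .nil) .nil)))) (.nd (nat_lit 9) 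
(.lf (nat_lit 601486) (.g (nat_lit 1738) (.e (nat_lit 630820) (nat_lit 16) (.e (nat_lit 65617) (nat_lit 10) (.e (nat_lit 344161) (nat_lit 37) (.e (nat_lit 647190) (nat_lit 9) (.e (nat_lit 7936) (nat_lit 35) .nil))))) (.g (nat_lit 0) (.e (nat_lit 421325) (nat_lit 0) .nil) .nil))) 
(.lf (nat_lit 601998) (.g (nat_lit 1159) (.e (nat_lit 663567) (nat_lit 4) (.e (nat_lit 65630) (nat_lit 14) (.e (nat_lit 401436) (nat_lit 9) (.e (nat_lit 426553) (nat_lit 32) .nil)))) (.g (nat_lit 0) (.e (nat_lit 422971) (nat_lit 0) .nil) .nil)))))) (.nd (nat_lit 7) (.nd (nat_lit 8) (.nd (nat_lit 9) 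
(.lf (nat_lit 601166) (.g (nat_lit 2164) (.e (nat_lit 557106) (nat_lit 15) (.e (nat_lit 188452) (nat_lit 23) (.e (nat_lit 204846) (nat_lit 24) (.e (nat_lit 319504) (nat_lit 10) (.e (nat_lit 7936) (nat_lit 313) .nil))))) (.g (nat_lit 0) (.e (nat_lit 420246) (nat_lit 0) .nil) .nil))) 
(.lf (nat_lit 601678) (.g (nat_lit 1715) (.e (nat_lit 639021) (nat_lit 16) (.e (nat_lit 65617) (nat_lit 10) (.e (nat_lit 344161) (nat_lit 37) (.e (nat_lit 647190) (nat_lit 9) (.e (nat_lit 7936) (nat_lit 37) .nil))))) (.g (nat_lit 0) (.e (nat_lit 421969) (nat_lit 0) .nil) .nil)))) (.nd (nat_lit 9) 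
(.lf (nat_lit 601422) (.g (nat_lit 861) (.e (nat_lit 614435) (nat_lit 11) (.e (nat_lit 16416) (nat_lit 3) (.e (nat_lit 204868) (nat_lit 29) .nil))) (.g (nat_lit 0) (.e (nat_lit 421118) (nat_lit 0) .nil) .nil))) 
(.lf (nat_lit 601934) (.g (nat_lit 949) (.e (nat_lit 663567) (nat_lit 4) (.e (nat_lit 65619) (nat_lit 10) (.e (nat_lit 344169) (nat_lit 40) (.e (nat_lit 671764) (nat_lit 6) .nil)))) (.g (nat_lit 0) (.e (nat_lit 422907) (nat_lit 0) .nil) .nil))))) (.nd (nat_lit 8) (.nd (nat_lit 9) 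
(.lf (nat_lit 601294) (.g (nat_lit 474) (.e (nat_lit 565251) (nat_lit 0) (.e (nat_lit 1586) (nat_lit 111) (.e (nat_lit 368384) (nat_lit 0) .nil))) (.g (nat_lit 0) (.e (nat_lit 420414) (nat_lit 0) .nil) .nil))) 
(.lf (nat_lit 601806) (.g (nat_lit 3150) (.e (nat_lit 638998) (nat_lit 8) (.e (nat_lit 172116) (nat_lit 10) (.e (nat_lit 434268) (nat_lit 36) (.e (nat_lit 639020) (nat_lit 16) (.e (nat_lit 65610) (nat_lit 10) (.e (nat_lit 344156) (nat_lit 36) .nil)))))) (.g (nat_lit 1) (.e (nat_lit 422550) (nat_lit 0) .nil) .nil)))) (.nd (nat_lit 9) 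
(.lf (nat_lit 601550) (.g (nat_lit 2131) (.e (nat_lit 630799) (nat_lit 7) (.e (nat_lit 163978) (nat_lit 30) (.e (nat_lit 573489) (nat_lit 14) (.e (nat_lit 73755) (nat_lit 8) (.e (nat_lit 557105) (nat_lit 14) .nil))))) (.g (nat_lit 0) (.e (nat_lit 421421) (nat_lit 0) .nil) .nil))) 
(.lf (nat_lit 602062) (.g (nat_lit 1458) (.e (nat_lit 663568) (nat_lit 5) (.e (nat_lit 73781) (nat_lit 32) (.e (nat_lit 2857) (nat_lit 184) (.e (nat_lit 426544) (nat_lit 30) (.e (nat_lit 368384) (nat_lit 17) .nil))))) (.g (nat_lit 1) (.e (nat_lit 423037) (nat_lit 0) .nil) .nil))))))) (.nd (nat_lit 6) (.nd (nat_lit 7) (.nd (nat_lit 8) (.nd (nat_lit 9) 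
(.lf (nat_lit 601134) (.g (nat_lit 2899) (.e (nat_lit 557105) (nat_lit 14) (.e (nat_lit 180252) (nat_lit 10) (.e (nat_lit 573489) (nat_lit 14) (.e (nat_lit 73755) (nat_lit 8) (.e (nat_lit 557089) (nat_lit 12) (.e (nat_lit 164010) (nat_lit 41) (.e (nat_lit 663582) (nat_lit 10) (.e (nat_lit 8326) (nat_lit 69) .nil)))))))) (.g (nat_lit 1) (.e (nat_lit 420191) (nat_lit 0) .nil) .nil))) 
(.lf (nat_lit 601646) (.g (nat_lit 2748) (.e (nat_lit 639020) (nat_lit 16) (.e (nat_lit 65627) (nat_lit 13) (.e (nat_lit 393282) (nat_lit 24) (.e (nat_lit 434275) (nat_lit 39) (.e (nat_lit 663574) (nat_lit 9) (.e (nat_lit 2464) (nat_lit 157) (.e (nat_lit 3388) (nat_lit 210) .nil))))))) (.g (nat_lit 1) (.e (nat_lit 421814) (nat_lit 0) .nil) .nil)))) (.nd (nat_lit 9) 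
(.lf (nat_lit 601390) (.g (nat_lit 487) (.e (nat_lit 565269) (nat_lit 6) (.e (nat_lit 81938) (nat_lit 20) (.e (nat_lit 2390) (nat_lit 156) .nil))) (.g (nat_lit 0) (.e (nat_lit 420583) (nat_lit 0) .nil) .nil))) 
(.lf (nat_lit 601902) (.g (nat_lit 2443) (.e (nat_lit 663565) (nat_lit 3) (.e (nat_lit 57480) (nat_lit 28) (.e (nat_lit 557108) (nat_lit 15) (.e (nat_lit 188452) (nat_lit 23) (.e (nat_lit 204853) (nat_lit 26) .nil))))) (.g (nat_lit 0) (.e (nat_lit 422873) (nat_lit 0) .nil) .nil))))) (.nd (nat_lit 8) (.nd (nat_lit 9) 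
(.lf (nat_lit 601262) (.g (nat_lit 3097) (.e (nat_lit 557109) (nat_lit 15) (.e (nat_lit 188452) (nat_lit 23) (.e (nat_lit 204846) (nat_lit 24) (.e (nat_lit 319534) (nat_lit 16) (.e (nat_lit 286764) (nat_lit 15) (.e (nat_lit 7936) (nat_lit 200) .nil)))))) (.g (nat_lit 1) (.e (nat_lit 420345) (nat_lit 0) .nil) .nil))) 
(.lf (nat_lit 601774) (.g (nat_lit 6267) (.e (nat_lit 638995) (nat_lit 7) (.e (nat_lit 163979) (nat_lit 30) (.e (nat_lit 573489) (nat_lit 14) (.e (nat_lit 73755) (nat_lit 8) (.e (nat_lit 557105) (nat_lit 14) (.e (nat_lit 180252) (nat_lit 10) (.e (nat_lit 573475) (nat_lit 12) (.e (nat_lit 57503) (nat_lit 38) .nil)))))))) (.g (nat_lit 1) (.e (nat_lit 422312) (nat_lit 0) .nil) .nil)))) 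
(.nd (nat_lit 9) 
(.lf (nat_lit 601518) (.g (nat_lit 2034) (.e (nat_lit 630821) (nat_lit 16) (.e (nat_lit 65610) (nat_lit 10) (.e (nat_lit 344160) (nat_lit 37) (.e (nat_lit 647195) (nat_lit 9) (.e (nat_lit 7936) (nat_lit 37) .nil))))) (.g (nat_lit 0) (.e (nat_lit 421363) (nat_lit 0) .nil) .nil))) 
(.lf (nat_lit 602030) (.g (nat_lit 1756) (.e (nat_lit 663567) (nat_lit 4) (.e (nat_lit 65630) (nat_lit 14) (.e (nat_lit 401438) (nat_lit 9) (.e (nat_lit 426542) (nat_lit 29) (.e (nat_lit 352286) (nat_lit 20) .nil))))) (.g (nat_lit 0) (.e (nat_lit 423003) (nat_lit 0) .nil) .nil)))))) (.nd (nat_lit 7) (.nd (nat_lit 8) (.nd (nat_lit 9) 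
(.lf (nat_lit 601198) (.g (nat_lit 3817) (.e (nat_lit 557107) (nat_lit 15) (.e (nat_lit 188447) (nat_lit 22) (.e (nat_lit 196661) (nat_lit 12) (.e (nat_lit 57750) (nat_lit 201) (.e (nat_lit 2856) (nat_lit 184) (.e (nat_lit 426402) (nat_lit 15) (.e (nat_lit 1859) (nat_lit 124) .nil))))))) (.g (nat_lit 1) (.e (nat_lit 420280) (nat_lit 0) .nil) .nil))) 
(.lf (nat_lit 601710) (.g (nat_lit 464) (.e (nat_lit 638983) (nat_lit 5) (.e (nat_lit 3015) (nat_lit 187) (.e (nat_lit 450592) (nat_lit 14) .nil))) (.g (nat_lit 0) (.e (nat_lit 422100) (nat_lit 0) .nil) .nil)))) (.nd (nat_lit 9) 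
(.lf (nat_lit 601454) (.g (nat_lit 3662) (.e (nat_lit 622627) (nat_lit 13) (.e (nat_lit 2663) (nat_lit 167) (.e (nat_lit 196666) (nat_lit 13) (.e (nat_lit 65610) (nat_lit 10) (.e (nat_lit 344117) (nat_lit 21) (.e (nat_lit 516151) (nat_lit 9) (.e (nat_lit 426043) (nat_lit 0) (.e (nat_lit 7936) (nat_lit 208) .nil)))))))) (.g (nat_lit 1) (.e (nat_lit 421201) (nat_lit 0) .nil) .nil))) 
(.lf (nat_lit 601966) (.g (nat_lit 2166) (.e (nat_lit 663567) (nat_lit 4) (.e (nat_lit 65628) (nat_lit 14) (.e (nat_lit 401438) (nat_lit 9) (.e (nat_lit 426482) (nat_lit 27) (.e (nat_lit 336102) (nat_lit 9) .nil))))) (.g (nat_lit 0) (.e (nat_lit 422939) (nat_lit 0) .nil) .nil))))) (.nd (nat_lit 8) (.nd (nat_lit 9) 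
(.lf (nat_lit 601326) (.g (nat_lit 1132) (.e (nat_lit 565267) (nat_lit 4) (.e (nat_lit 65616) (nat_lit 10) (.e (nat_lit 344183) (nat_lit 49) (.e (nat_lit 819221) (nat_lit 6) (.e (nat_lit 188434) (nat_lit 20) (.e (nat_lit 3288) (nat_lit 201) .nil)))))) (.g (nat_lit 1) (.e (nat_lit 420502) (nat_lit 0) .nil) .nil))) 
(.lf (nat_lit 601838) (.g (nat_lit 1420) (.e (nat_lit 639001) (nat_lit 10) (.e (nat_lit 188441) (nat_lit 20) (.e (nat_lit 3391) (nat_lit 210) (.e (nat_lit 639023) (nat_lit 18) (.e (nat_lit 81938) (nat_lit 20) (.e (nat_lit 1963) (nat_lit 134) .nil)))))) (.g (nat_lit 1) (.e (nat_lit 422772) (nat_lit 0) .nil) .nil)))) (.nd (nat_lit 9) 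
(.lf (nat_lit 601582) (.g (nat_lit 1135) (.e (nat_lit 639004) (nat_lit 13) (.e (nat_lit 1615) (nat_lit 113) (.e (nat_lit 376860) (nat_lit 21) (.e (nat_lit 57832) (nat_lit 250) (.e (nat_lit 7936) (nat_lit 166) .nil))))) (.g (nat_lit 0) (.e (nat_lit 421606) (nat_lit 0) .nil) .nil))) 
(.lf (nat_lit 602094) (.g (nat_lit 1798) (.e (nat_lit 663569) (nat_lit 6) (.e (nat_lit 81943) (nat_lit 20) (.e (nat_lit 2006) (nat_lit 138) (.e (nat_lit 671764) (nat_lit 6) (.e (nat_lit 81935) (nat_lit 20) (.e (nat_lit 1994) (nat_lit 137) .nil)))))) (.g (nat_lit 1) (.e (nat_lit 423070) (nat_lit 0) .nil) .nil)))))))) 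
(.nd (nat_lit 5) (.nd (nat_lit 6) (.nd (nat_lit 7) (.nd (nat_lit 8) (.nd (nat_lit 9) 
(.lf (nat_lit 601118) (.g (nat_lit 3036) (.e (nat_lit 557105) (nat_lit 14) (.e (nat_lit 180252) (nat_lit 10) (.e (nat_lit 573482) (nat_lit 13) (.e (nat_lit 65568) (nat_lit 2) (.e (nat_lit 98048) (nat_lit 2) (.e (nat_lit 16391) (nat_lit 0) (.e (nat_lit 7936) (nat_lit 200) .nil))))))) (.g (nat_lit 1) (.e (nat_lit 420175) (nat_lit 0) .nil) .nil))) 
(.lf (nat_lit 601630) (.g (nat_lit 2715) (.e (nat_lit 639020) (nat_lit 16) (.e (nat_lit 65571) (nat_lit 3) (.e (nat_lit 98374) (nat_lit 29) (.e (nat_lit 458496) (nat_lit 3) (.e (nat_lit 516106) (nat_lit 0) (.e (nat_lit 3389) (nat_lit 210) .nil)))))) (.g (nat_lit 1) (.e (nat_lit 421721) (nat_lit 0) .nil) .nil)))) (.nd (nat_lit 9) 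
(.lf (nat_lit 601374) (.g (nat_lit 1213) (.e (nat_lit 565268) (nat_lit 5) (.e (nat_lit 73789) (nat_lit 45) (.e (nat_lit 1163) (nat_lit 86) (.e (nat_lit 49157) (nat_lit 0) (.e (nat_lit 3026) (nat_lit 187) (.e (nat_lit 458496) (nat_lit 9) .nil)))))) (.g (nat_lit 1) (.e (nat_lit 420565) (nat_lit 0) .nil) .nil))) 
(.lf (nat_lit 601886) (.g (nat_lit 2036) (.e (nat_lit 663565) (nat_lit 3) (.e (nat_lit 57479) (nat_lit 28) (.e (nat_lit 557095) (nat_lit 13) (.e (nat_lit 172115) (nat_lit 10) .nil)))) (.g (nat_lit 0) (.e (nat_lit 422856) (nat_lit 0) .nil) .nil))))) (.nd (nat_lit 8) (.nd (nat_lit 9) 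
(.lf (nat_lit 601246) (.g (nat_lit 1186) (.e (nat_lit 557109) (nat_lit 15) (.e (nat_lit 188449) (nat_lit 22) (.e (nat_lit 196658) (nat_lit 12) .nil))) (.g (nat_lit 0) (.e (nat_lit 420329) (nat_lit 0) .nil) .nil))) 
(.lf (nat_lit 601758) (.g (nat_lit 1640) (.e (nat_lit 638995) (nat_lit 7) (.e (nat_lit 163979) (nat_lit 30) (.e (nat_lit 573487) (nat_lit 14) (.e (nat_lit 73754) (nat_lit 8) .nil)))) (.g (nat_lit 0) (.e (nat_lit 422281) (nat_lit 0) .nil) .nil)))) (.nd (nat_lit 9) 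
(.lf (nat_lit 601502) (.g (nat_lit 710) (.e (nat_lit 630821) (nat_lit 16) (.e (nat_lit 65586) (nat_lit 7) (.e (nat_lit 319527) (nat_lit 15) (.e (nat_lit 278546) (nat_lit 8) (.e (nat_lit 303138) (nat_lit 10) .nil))))) (.g (nat_lit 0) (.e (nat_lit 421346) (nat_lit 0) .nil) .nil))) 
(.lf (nat_lit 602014) (.g (nat_lit 1338) (.e (nat_lit 663567) (nat_lit 4) (.e (nat_lit 65630) (nat_lit 14) (.e (nat_lit 401437) (nat_lit 9) (.e (nat_lit 426540) (nat_lit 29) .nil)))) (.g (nat_lit 0) (.e (nat_lit 422987) (nat_lit 0) .nil) .nil)))))) (.nd (nat_lit 7) (.nd (nat_lit 8) (.nd (nat_lit 9) 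
(.lf (nat_lit 601182) (.g (nat_lit 2732) (.e (nat_lit 557107) (nat_lit 15) (.e (nat_lit 188439) (nat_lit 20) (.e (nat_lit 3272) (nat_lit 199) (.e (nat_lit 548897) (nat_lit 14) (.e (nat_lit 2988) (nat_lit 186) (.e (nat_lit 442374) (nat_lit 0) (.e (nat_lit 1856) (nat_lit 124) .nil))))))) (.g (nat_lit 1) (.e (nat_lit 420264) (nat_lit 0) .nil) .nil))) 
(.lf (nat_lit 601694) (.g (nat_lit 1528) (.e (nat_lit 639021) (nat_lit 16) (.e (nat_lit 65619) (nat_lit 10) (.e (nat_lit 344160) (nat_lit 37) (.e (nat_lit 647195) (nat_lit 9) (.e (nat_lit 7936) (nat_lit 37) .nil))))) (.g (nat_lit 0) (.e (nat_lit 422012) (nat_lit 0) .nil) .nil)))) (.nd (nat_lit 9) 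
(.lf (nat_lit 601438) (.g (nat_lit 2176) (.e (nat_lit 622623) (nat_lit 13) (.e (nat_lit 2668) (nat_lit 167) (.e (nat_lit 196666) (nat_lit 13) (.e (nat_lit 65610) (nat_lit 10) (.e (nat_lit 344117) (nat_lit 21) .nil))))) (.g (nat_lit 0) (.e (nat_lit 421165) (nat_lit 0) .nil) .nil))) 
(.lf (nat_lit 601950) (.g (nat_lit 1944) (.e (nat_lit 663567) (nat_lit 4) (.e (nat_lit 65628) (nat_lit 14) (.e (nat_lit 401437) (nat_lit 9) (.e (nat_lit 426516) (nat_lit 27) .nil)))) (.g (nat_lit 0) (.e (nat_lit 422923) (nat_lit 0) .nil) .nil))))) (.nd (nat_lit 8) (.nd (nat_lit 9) 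
(.lf (nat_lit 601310) (.g (nat_lit 2139) (.e (nat_lit 565252) (nat_lit 0) (.e (nat_lit 1598) (nat_lit 111) (.e (nat_lit 360493) (nat_lit 27) (.e (nat_lit 819204) (nat_lit 0) (.e (nat_lit 3015) (nat_lit 187) (.e (nat_lit 450584) (nat_lit 9) .nil)))))) (.g (nat_lit 1) (.e (nat_lit 420454) (nat_lit 0) .nil) .nil))) 
(.lf (nat_lit 601822) (.g (nat_lit 2632) (.e (nat_lit 638999) (nat_lit 8) (.e (nat_lit 172097) (nat_lit 9) (.e (nat_lit 426109) (nat_lit 1) (.e (nat_lit 164319) (nat_lit 228) (.e (nat_lit 57412) (nat_lit 12) (.e (nat_lit 336176) (nat_lit 10) (.e (nat_lit 344157) (nat_lit 36) .nil))))))) (.g (nat_lit 1) (.e (nat_lit 422704) (nat_lit 0) .nil) .nil)))) (.nd (nat_lit 9) 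
(.lf (nat_lit 601566) (.g (nat_lit 1505) (.e (nat_lit 630802) (nat_lit 8) (.e (nat_lit 172079) (nat_lit 7) (.e (nat_lit 409638) (nat_lit 15) (.e (nat_lit 278566) (nat_lit 16) (.e (nat_lit 286756) (nat_lit 10) (.e (nat_lit 344154) (nat_lit 35) .nil)))))) (.g (nat_lit 1) (.e (nat_lit 421517) (nat_lit 0) .nil) .nil))) 
(.lf (nat_lit 602078) (.g (nat_lit 1650) (.e (nat_lit 663569) (nat_lit 6) (.e (nat_lit 81922) (nat_lit 0) (.e (nat_lit 3747) (nat_lit 228) (.e (nat_lit 786483) (nat_lit 30) (.e (nat_lit 368384) (nat_lit 17) .nil))))) (.g (nat_lit 1) (.e (nat_lit 423054) (nat_lit 0) .nil) .nil))))))) (.nd (nat_lit 6) (.nd (nat_lit 7) (.nd (nat_lit 8) (.nd (nat_lit 9) 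
(.lf (nat_lit 601150) (.g (nat_lit 4473) (.e (nat_lit 557105) (nat_lit 14) (.e (nat_lit 180252) (nat_lit 10) (.e (nat_lit 573489) (nat_lit 14) (.e (nat_lit 73755) (nat_lit 8) (.e (nat_lit 557119) (nat_lit 18) (.e (nat_lit 2798) (nat_lit 180) (.e (nat_lit 303106) (nat_lit 0) (.e (nat_lit 7936) (nat_lit 200) .nil)))))))) (.g (nat_lit 1) (.e (nat_lit 420207) (nat_lit 0) .nil) .nil))) 
(.lf (nat_lit 601662) (.g (nat_lit 2391) (.e (nat_lit 639021) (nat_lit 16) (.e (nat_lit 65604) (nat_lit 9) (.e (nat_lit 335997) (nat_lit 1) (.e (nat_lit 57857) (nat_lit 254) (.e (nat_lit 163920) (nat_lit 14) (.e (nat_lit 442411) (nat_lit 20) (.e (nat_lit 3391) (nat_lit 210) .nil))))))) (.g (nat_lit 1) (.e (nat_lit 421851) (nat_lit 0) .nil) .nil)))) (.nd (nat_lit 9) 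
(.lf (nat_lit 601406) (.g (nat_lit 3464) (.e (nat_lit 598061) (nat_lit 16) (.e (nat_lit 172064) (nat_lit 2) (.e (nat_lit 196666) (nat_lit 13) (.e (nat_lit 65610) (nat_lit 10) (.e (nat_lit 344117) (nat_lit 21) (.e (nat_lit 516099) (nat_lit 0) (.e (nat_lit 7936) (nat_lit 205) .nil))))))) (.g (nat_lit 1) (.e (nat_lit 420791) (nat_lit 0) .nil) .nil))) 
(.lf (nat_lit 601918) (.g (nat_lit 2273) (.e (nat_lit 663566) (nat_lit 4) (.e (nat_lit 65630) (nat_lit 14) (.e (nat_lit 401437) (nat_lit 9) (.e (nat_lit 426544) (nat_lit 30) (.e (nat_lit 368384) (nat_lit 17) .nil))))) (.g (nat_lit 0) (.e (nat_lit 422891) (nat_lit 0) .nil) .nil))))) (.nd (nat_lit 8) (.nd (nat_lit 9) 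
(.lf (nat_lit 601278) (.g (nat_lit 1339) (.e (nat_lit 557119) (nat_lit 18) (.e (nat_lit 2798) (nat_lit 180) (.e (nat_lit 303145) (nat_lit 13) (.e (nat_lit 491264) (nat_lit 0) .nil)))) (.g (nat_lit 0) (.e (nat_lit 420391) (nat_lit 0) .nil) .nil))) 
(.lf (nat_lit 601790) (.g (nat_lit 2794) (.e (nat_lit 638996) (nat_lit 7) (.e (nat_lit 163979) (nat_lit 30) (.e (nat_lit 573488) (nat_lit 14) (.e (nat_lit 73755) (nat_lit 8) (.e (nat_lit 557103) (nat_lit 14) .nil))))) (.g (nat_lit 0) (.e (nat_lit 422488) (nat_lit 0) .nil) .nil)))) (.nd (nat_lit 9) 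
(.lf (nat_lit 601534) (.g (nat_lit 1374) (.e (nat_lit 630821) (nat_lit 16) (.e (nat_lit 65617) (nat_lit 10) (.e (nat_lit 344164) (nat_lit 37) (.e (nat_lit 647190) (nat_lit 9) (.e (nat_lit 7936) (nat_lit 35) .nil))))) (.g (nat_lit 0) (.e (nat_lit 421380) (nat_lit 0) .nil) .nil))) 
(.lf (nat_lit 602046) (.g (nat_lit 2528) (.e (nat_lit 663567) (nat_lit 4) (.e (nat_lit 65630) (nat_lit 14) (.e (nat_lit 401459) (nat_lit 13) (.e (nat_lit 483381) (nat_lit 23) (.e (nat_lit 335939) (nat_lit 0) .nil))))) (.g (nat_lit 0) (.e (nat_lit 423019) (nat_lit 0) .nil) .nil)))))) (.nd (nat_lit 7) (.nd (nat_lit 8) (.nd (nat_lit 9) 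
(.lf (nat_lit 601214) (.g (nat_lit 1077) (.e (nat_lit 557107) (nat_lit 15) (.e (nat_lit 188449) (nat_lit 22) (.e (nat_lit 196700) (nat_lit 22) .nil))) (.g (nat_lit 0) (.e (nat_lit 420296) (nat_lit 0) .nil) .nil))) 
(.lf (nat_lit 601726) (.g (nat_lit 380) (.e (nat_lit 638986) (nat_lit 5) (.e (nat_lit 3022) (nat_lit 187) (.e (nat_lit 450591) (nat_lit 13) .nil))) (.g (nat_lit 0) (.e (nat_lit 422154) (nat_lit 0) .nil) .nil)))) (.nd (nat_lit 9) 
(.lf (nat_lit 601470) (.g (nat_lit 2151) (.e (nat_lit 622635) (nat_lit 16) (.e (nat_lit 163979) (nat_lit 30) (.e (nat_lit 573482) (nat_lit 13) (.e (nat_lit 65572) (nat_lit 4) .nil)))) (.g (nat_lit 0) (.e (nat_lit 421276) (nat_lit 0) .nil) .nil))) 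
(.lf (nat_lit 601982) (.g (nat_lit 1120) (.e (nat_lit 663567) (nat_lit 4) (.e (nat_lit 65628) (nat_lit 14) (.e (nat_lit 401458) (nat_lit 13) (.e (nat_lit 483389) (nat_lit 23) .nil)))) (.g (nat_lit 0) (.e (nat_lit 422955) (nat_lit 0) .nil) .nil))))) (.nd (nat_lit 8) (.nd (nat_lit 9) 
(.lf (nat_lit 601342) (.g (nat_lit 1622) (.e (nat_lit 565267) (nat_lit 4) (.e (nat_lit 65617) (nat_lit 10) (.e (nat_lit 344183) (nat_lit 49) (.e (nat_lit 819221) (nat_lit 6) (.e (nat_lit 188441) (nat_lit 20) (.e (nat_lit 3289) (nat_lit 201) .nil)))))) (.g (nat_lit 1) (.e (nat_lit 420521) (nat_lit 0) .nil) .nil))) 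
(.lf (nat_lit 601854) (.g (nat_lit 2279) (.e (nat_lit 663555) (nat_lit 0) (.e (nat_lit 1234) (nat_lit 91) (.e (nat_lit 90174) (nat_lit 14) (.e (nat_lit 180250) (nat_lit 10) (.e (nat_lit 573489) (nat_lit 14) .nil))))) (.g (nat_lit 0) (.e (nat_lit 422803) (nat_lit 0) .nil) .nil)))) (.nd (nat_lit 9) 
(.lf (nat_lit 601598) (.g (nat_lit 540) (.e (nat_lit 639008) (nat_lit 13) (.e (nat_lit 1589) (nat_lit 111) (.e (nat_lit 360482) (nat_lit 15) .nil))) (.g (nat_lit 0) (.e (nat_lit 421663) (nat_lit 0) .nil) .nil))) 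
(.lf (nat_lit 602110) (.g (nat_lit 4417) (.e (nat_lit 663582) (nat_lit 10) (.e (nat_lit 8326) (nat_lit 69) (.e (nat_lit 557105) (nat_lit 14) (.e (nat_lit 180252) (nat_lit 10) (.e (nat_lit 573489) (nat_lit 14) (.e (nat_lit 73755) (nat_lit 8) (.e (nat_lit 557090) (nat_lit 12) (.e (nat_lit 164005) (nat_lit 41) .nil)))))))) (.g (nat_lit 1) (.e (nat_lit 423165) (nat_lit 0) .nil) .nil)))))))))))) 
(.nd (nat_lit 1) (.nd (nat_lit 2) (.nd (nat_lit 3) (.nd (nat_lit 4) (.nd (nat_lit 5) 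
(.nd (nat_lit 6) (.nd (nat_lit 7) (.nd (nat_lit 8) (.nd (nat_lit 9) 
(.lf (nat_lit 601089) (.g (nat_lit 1312) (.e (nat_lit 557105) (nat_lit 14) (.e (nat_lit 180252) (nat_lit 10) (.e (nat_lit 573481) (nat_lit 13) (.e (nat_lit 65566) (nat_lit 2) (.e (nat_lit 98048) (nat_lit 2) .nil))))) (.g (nat_lit 0) (.e (nat_lit 420146) (nat_lit 0) .nil) .nil))) 
(.lf (nat_lit 601601) (.g (nat_lit 436) (.e (nat_lit 639008) (nat_lit 13) (.e (nat_lit 1595) (nat_lit 111) (.e (nat_lit 368384) (nat_lit 0) .nil))) (.g (nat_lit 0) (.e (nat_lit 421672) (nat_lit 0) .nil) .nil)))) (.nd (nat_lit 9) 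
(.lf (nat_lit 601345) (.g (nat_lit 1638) (.e (nat_lit 565267) (nat_lit 4) (.e (nat_lit 65619) (nat_lit 10) (.e (nat_lit 344090) (nat_lit 18) (.e (nat_lit 7708) (nat_lit 414) (.e (nat_lit 163910) (nat_lit 12) (.e (nat_lit 426285) (nat_lit 10) (.e (nat_lit 434241) (nat_lit 27) .nil))))))) (.g (nat_lit 1) (.e (nat_lit 420525) (nat_lit 0) .nil) .nil))) 
(.lf (nat_lit 601857) (.g (nat_lit 2903) (.e (nat_lit 663555) (nat_lit 0) (.e (nat_lit 1234) (nat_lit 91) (.e (nat_lit 90174) (nat_lit 14) (.e (nat_lit 180252) (nat_lit 10) (.e (nat_lit 573489) (nat_lit 14) .nil))))) (.g (nat_lit 0) (.e (nat_lit 422806) (nat_lit 0) .nil) .nil))))) (.nd (nat_lit 8) (.nd (nat_lit 9) 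
(.lf (nat_lit 601217) (.g (nat_lit 1550) (.e (nat_lit 557107) (nat_lit 15) (.e (nat_lit 188450) (nat_lit 23) (.e (nat_lit 204855) (nat_lit 26) (.e (nat_lit 336287) (nat_lit 15) .nil)))) (.g (nat_lit 0) (.e (nat_lit 420299) (nat_lit 0) .nil) .nil))) 
(.lf (nat_lit 601729) (.g (nat_lit 948) (.e (nat_lit 638986) (nat_lit 5) (.e (nat_lit 3028) (nat_lit 187) (.e (nat_lit 450592) (nat_lit 14) (.e (nat_lit 639008) (nat_lit 13) (.e (nat_lit 1595) (nat_lit 111) (.e (nat_lit 360480) (nat_lit 14) .nil)))))) (.g (nat_lit 1) (.e (nat_lit 422162) (nat_lit 0) .nil) .nil)))) (.nd (nat_lit 9) 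
(.lf (nat_lit 601473) (.g (nat_lit 3244) (.e (nat_lit 630811) (nat_lit 13) (.e (nat_lit 1399) (nat_lit 106) (.e (nat_lit 319490) (nat_lit 0) (.e (nat_lit 5664) (nat_lit 312) (.e (nat_lit 2826) (nat_lit 182) .nil))))) (.g (nat_lit 0) (.e (nat_lit 421306) (nat_lit 0) .nil) .nil))) 
(.lf (nat_lit 601985) (.g (nat_lit 2127) (.e (nat_lit 663567) (nat_lit 4) (.e (nat_lit 65628) (nat_lit 14) (.e (nat_lit 401459) (nat_lit 13) (.e (nat_lit 483344) (nat_lit 17) (.e (nat_lit 6434) (nat_lit 343) .nil))))) (.g (nat_lit 0) (.e (nat_lit 422958) (nat_lit 0) .nil) .nil)))))) (.nd (nat_lit 7) (.nd (nat_lit 8) (.nd (nat_lit 9) 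
(.lf (nat_lit 601153) (.g (nat_lit 4700) (.e (nat_lit 557105) (nat_lit 14) (.e (nat_lit 180252) (nat_lit 10) (.e (nat_lit 573489) (nat_lit 14) (.e (nat_lit 73755) (nat_lit 8) (.e (nat_lit 557119) (nat_lit 18) (.e (nat_lit 2798) (nat_lit 180) (.e (nat_lit 303111) (nat_lit 0) (.e (nat_lit 7936) (nat_lit 200) .nil)))))))) (.g (nat_lit 1) (.e (nat_lit 420210) (nat_lit 0) .nil) .nil))) 
(.lf (nat_lit 601665) (.g (nat_lit 997) (.e (nat_lit 639021) (nat_lit 16) (.e (nat_lit 65610) (nat_lit 10) (.e (nat_lit 344156) (nat_lit 36) (.e (nat_lit 638999) (nat_lit 8) .nil)))) (.g (nat_lit 0) (.e (nat_lit 421892) (nat_lit 0) .nil) .nil)))) (.nd (nat_lit 9) 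
(.lf (nat_lit 601409) (.g (nat_lit 2136) (.e (nat_lit 598065) (nat_lit 20) (.e (nat_lit 237590) (nat_lit 2) (.e (nat_lit 196672) (nat_lit 15) (.e (nat_lit 81954) (nat_lit 23) (.e (nat_lit 98321) (nat_lit 17) (.e (nat_lit 3342) (nat_lit 205) .nil)))))) (.g (nat_lit 1) (.e (nat_lit 420874) (nat_lit 0) .nil) .nil))) 
(.lf (nat_lit 601921) (.g (nat_lit 1593) (.e (nat_lit 663566) (nat_lit 4) (.e (nat_lit 65630) (nat_lit 14) (.e (nat_lit 401438) (nat_lit 9) (.e (nat_lit 426546) (nat_lit 30) (.e (nat_lit 368384) (nat_lit 17) .nil))))) (.g (nat_lit 0) (.e (nat_lit 422894) (nat_lit 0) .nil) .nil))))) (.nd (nat_lit 8) (.nd (nat_lit 9) 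
(.lf (nat_lit 601281) (.g (nat_lit 1751) (.e (nat_lit 557119) (nat_lit 18) (.e (nat_lit 2798) (nat_lit 180) (.e (nat_lit 303145) (nat_lit 13) (.e (nat_lit 483363) (nat_lit 18) .nil)))) (.g (nat_lit 0) (.e (nat_lit 420394) (nat_lit 0) .nil) .nil))) 
(.lf (nat_lit 601793) (.g (nat_lit 3333) (.e (nat_lit 638996) (nat_lit 7) (.e (nat_lit 163979) (nat_lit 30) (.e (nat_lit 573489) (nat_lit 14) (.e (nat_lit 73754) (nat_lit 8) (.e (nat_lit 557103) (nat_lit 14) .nil))))) (.g (nat_lit 0) (.e (nat_lit 422492) (nat_lit 0) .nil) .nil)))) (.nd (nat_lit 9) 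
(.lf (nat_lit 601537) (.g (nat_lit 717) (.e (nat_lit 630821) (nat_lit 16) (.e (nat_lit 65619) (nat_lit 10) (.e (nat_lit 344153) (nat_lit 35) .nil))) (.g (nat_lit 0) (.e (nat_lit 421383) (nat_lit 0) .nil) .nil))) 
(.lf (nat_lit 602049) (.g (nat_lit 3058) (.e (nat_lit 663567) (nat_lit 4) (.e (nat_lit 65630) (nat_lit 14) (.e (nat_lit 401459) (nat_lit 13) (.e (nat_lit 483393) (nat_lit 23) (.e (nat_lit 335906) (nat_lit 0) .nil))))) (.g (nat_lit 0) (.e (nat_lit 423022) (nat_lit 0) .nil) .nil))))))) (.nd (nat_lit 6) (.nd (nat_lit 7) (.nd (nat_lit 8) (.nd (nat_lit 9) 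
(.lf (nat_lit 601121) (.g (nat_lit 2986) (.e (nat_lit 557105) (nat_lit 14) (.e (nat_lit 180252) (nat_lit 10) (.e (nat_lit 573482) (nat_lit 13) (.e (nat_lit 65568) (nat_lit 2) (.e (nat_lit 98048) (nat_lit 2) (.e (nat_lit 16393) (nat_lit 0) (.e (nat_lit 7936) (nat_lit 200) .nil))))))) (.g (nat_lit 1) (.e (nat_lit 420178) (nat_lit 0) .nil) .nil))) 
(.lf (nat_lit 601633) (.g (nat_lit 1646) (.e (nat_lit 639020) (nat_lit 16) (.e (nat_lit 65583) (nat_lit 7) (.e (nat_lit 319530) (nat_lit 16) (.e (nat_lit 286728) (nat_lit 0) (.e (nat_lit 6648) (nat_lit 357) .nil))))) (.g (nat_lit 0) (.e (nat_lit 421725) (nat_lit 0) .nil) .nil)))) (.nd (nat_lit 9) 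
(.lf (nat_lit 601377) (.g (nat_lit 697) (.e (nat_lit 565268) (nat_lit 5) (.e (nat_lit 73791) (nat_lit 45) (.e (nat_lit 1162) (nat_lit 86) (.e (nat_lit 49156) (nat_lit 0) (.e (nat_lit 3026) (nat_lit 187) (.e (nat_lit 458496) (nat_lit 9) .nil)))))) (.g (nat_lit 1) (.e (nat_lit 420568) (nat_lit 0) .nil) .nil))) 
(.lf (nat_lit 601889) (.g (nat_lit 2085) (.e (nat_lit 663565) (nat_lit 3) (.e (nat_lit 57479) (nat_lit 28) (.e (nat_lit 557106) (nat_lit 15) (.e (nat_lit 188452) (nat_lit 23) .nil)))) (.g (nat_lit 0) (.e (nat_lit 422859) (nat_lit 0) .nil) .nil))))) (.nd (nat_lit 8) (.nd (nat_lit 9) 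
(.lf (nat_lit 601249) (.g (nat_lit 1063) (.e (nat_lit 557109) (nat_lit 15) (.e (nat_lit 188449) (nat_lit 22) (.e (nat_lit 196694) (nat_lit 18) .nil))) (.g (nat_lit 0) (.e (nat_lit 420332) (nat_lit 0) .nil) .nil))) 
(.lf (nat_lit 601761) (.g (nat_lit 2452) (.e (nat_lit 638995) (nat_lit 7) (.e (nat_lit 163979) (nat_lit 30) (.e (nat_lit 573488) (nat_lit 14) (.e (nat_lit 73754) (nat_lit 8) (.e (nat_lit 557103) (nat_lit 14) .nil))))) (.g (nat_lit 0) (.e (nat_lit 422290) (nat_lit 0) .nil) .nil)))) (.nd (nat_lit 9) 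
(.lf (nat_lit 601505) (.g (nat_lit 2416) (.e (nat_lit 630821) (nat_lit 16) (.e (nat_lit 65586) (nat_lit 7) (.e (nat_lit 319531) (nat_lit 16) (.e (nat_lit 286727) (nat_lit 0) (.e (nat_lit 6680) (nat_lit 357) (.e (nat_lit 2958) (nat_lit 185) (.e (nat_lit 434266) (nat_lit 35) .nil))))))) (.g (nat_lit 1) (.e (nat_lit 421349) (nat_lit 0) .nil) .nil))) 
(.lf (nat_lit 602017) (.g (nat_lit 2532) (.e (nat_lit 663567) (nat_lit 4) (.e (nat_lit 65630) (nat_lit 14) (.e (nat_lit 401437) (nat_lit 9) (.e (nat_lit 426542) (nat_lit 29) (.e (nat_lit 352280) (nat_lit 20) (.e (nat_lit 1994) (nat_lit 137) .nil)))))) (.g (nat_lit 1) (.e (nat_lit 422990) (nat_lit 0) .nil) .nil)))))) (.nd (nat_lit 7) (.nd (nat_lit 8) (.nd (nat_lit 9) 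
(.lf (nat_lit 601185) (.g (nat_lit 2999) (.e (nat_lit 557107) (nat_lit 15) (.e (nat_lit 188439) (nat_lit 20) (.e (nat_lit 3272) (nat_lit 199) (.e (nat_lit 548898) (nat_lit 14) (.e (nat_lit 3004) (nat_lit 186) (.e (nat_lit 442374) (nat_lit 0) (.e (nat_lit 1856) (nat_lit 124) .nil))))))) (.g (nat_lit 1) (.e (nat_lit 420267) (nat_lit 0) .nil) .nil))) 
(.lf (nat_lit 601697) (.g (nat_lit 1366) (.e (nat_lit 639023) (nat_lit 18) (.e (nat_lit 81938) (nat_lit 20) (.e (nat_lit 1963) (nat_lit 134) (.e (nat_lit 639001) (nat_lit 10) (.e (nat_lit 188440) (nat_lit 20) (.e (nat_lit 3391) (nat_lit 210) .nil)))))) (.g (nat_lit 1) (.e (nat_lit 422051) (nat_lit 0) .nil) .nil)))) (.nd (nat_lit 9) 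
(.lf (nat_lit 601441) (.g (nat_lit 5262) (.e (nat_lit 622624) (nat_lit 13) (.e (nat_lit 2668) (nat_lit 167) (.e (nat_lit 196666) (nat_lit 13) (.e (nat_lit 65610) (nat_lit 10) (.e (nat_lit 344117) (nat_lit 21) (.e (nat_lit 516151) (nat_lit 9) (.e (nat_lit 426017) (nat_lit 0) (.e (nat_lit 3367) (nat_lit 208) .nil)))))))) (.g (nat_lit 1) (.e (nat_lit 421177) (nat_lit 0) .nil) .nil))) 
(.lf (nat_lit 601953) (.g (nat_lit 1303) (.e (nat_lit 663567) (nat_lit 4) (.e (nat_lit 65628) (nat_lit 14) (.e (nat_lit 401437) (nat_lit 9) (.e (nat_lit 426538) (nat_lit 29) .nil)))) (.g (nat_lit 0) (.e (nat_lit 422926) (nat_lit 0) .nil) .nil))))) (.nd (nat_lit 8) (.nd (nat_lit 9) 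
(.lf (nat_lit 601313) (.g (nat_lit 410) (.e (nat_lit 565267) (nat_lit 4) (.e (nat_lit 65610) (nat_lit 10) (.e (nat_lit 344090) (nat_lit 18) .nil))) (.g (nat_lit 0) (.e (nat_lit 420475) (nat_lit 0) .nil) .nil))) 
(.lf (nat_lit 601825) (.g (nat_lit 451) (.e (nat_lit 638999) (nat_lit 8) (.e (nat_lit 172113) (nat_lit 10) (.e (nat_lit 434276) (nat_lit 39) .nil))) (.g (nat_lit 0) (.e (nat_lit 422719) (nat_lit 0) .nil) .nil)))) (.nd (nat_lit 9) 
(.lf (nat_lit 601569) (.g (nat_lit 1505) (.e (nat_lit 630802) (nat_lit 8) (.e (nat_lit 172082) (nat_lit 7) (.e (nat_lit 409638) (nat_lit 15) (.e (nat_lit 278566) (nat_lit 16) (.e (nat_lit 286753) (nat_lit 10) (.e (nat_lit 344154) (nat_lit 35) .nil)))))) (.g (nat_lit 1) (.e (nat_lit 421536) (nat_lit 0) .nil) .nil))) 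
(.lf (nat_lit 602081) (.g (nat_lit 1120) (.e (nat_lit 663569) (nat_lit 6) (.e (nat_lit 81924) (nat_lit 0) (.e (nat_lit 3629) (nat_lit 227) (.e (nat_lit 778326) (nat_lit 6) (.e (nat_lit 81931) (nat_lit 20) (.e (nat_lit 1994) (nat_lit 137) .nil)))))) (.g (nat_lit 1) (.e (nat_lit 423057) (nat_lit 0) .nil) .nil)))))))) 
(.nd (nat_lit 5) (.nd (nat_lit 6) (.nd (nat_lit 7) (.nd (nat_lit 8) (.nd (nat_lit 9) 
(.lf (nat_lit 601105) (.g (nat_lit 2267) (.e (nat_lit 557105) (nat_lit 14) (.e (nat_lit 180252) (nat_lit 10) (.e (nat_lit 573481) (nat_lit 13) (.e (nat_lit 65568) (nat_lit 2) (.e (nat_lit 98048) (nat_lit 2) (.e (nat_lit 16402) (nat_lit 0) (.e (nat_lit 7936) (nat_lit 200) .nil))))))) (.g (nat_lit 1) (.e (nat_lit 420162) (nat_lit 0) .nil) .nil))) 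
(.lf (nat_lit 601617) (.g (nat_lit 1284) (.e (nat_lit 639019) (nat_lit 16) (.e (nat_lit 65604) (nat_lit 9) (.e (nat_lit 335997) (nat_lit 1) (.e (nat_lit 57857) (nat_lit 254) (.e (nat_lit 163908) (nat_lit 12) .nil))))) (.g (nat_lit 0) (.e (nat_lit 421698) (nat_lit 0) .nil) .nil)))) (.nd (nat_lit 9) 
(.lf (nat_lit 601361) (.g (nat_lit 1135) (.e (nat_lit 565267) (nat_lit 4) (.e (nat_lit 65620) (nat_lit 10) (.e (nat_lit 344183) (nat_lit 49) (.e (nat_lit 819221) (nat_lit 6) (.e (nat_lit 188439) (nat_lit 20) (.e (nat_lit 3289) (nat_lit 201) .nil)))))) (.g (nat_lit 1) (.e (nat_lit 420550) (nat_lit 0) .nil) .nil))) 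
(.lf (nat_lit 601873) (.g (nat_lit 2274) (.e (nat_lit 663559) (nat_lit 0) (.e (nat_lit 1234) (nat_lit 91) (.e (nat_lit 90174) (nat_lit 14) (.e (nat_lit 180243) (nat_lit 5) (.e (nat_lit 532513) (nat_lit 3) .nil))))) (.g (nat_lit 0) (.e (nat_lit 422829) (nat_lit 0) .nil) .nil))))) (.nd (nat_lit 8) (.nd (nat_lit 9) 
(.lf (nat_lit 601233) (.g (nat_lit 2906) (.e (nat_lit 557108) (nat_lit 15) (.e (nat_lit 188452) (nat_lit 23) (.e (nat_lit 204846) (nat_lit 24) (.e (nat_lit 319533) (nat_lit 16) (.e (nat_lit 286766) (nat_lit 15) (.e (nat_lit 7936) (nat_lit 200) .nil)))))) (.g (nat_lit 1) (.e (nat_lit 420315) (nat_lit 0) .nil) .nil))) 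
(.lf (nat_lit 601745) (.g (nat_lit 2811) (.e (nat_lit 638995) (nat_lit 7) (.e (nat_lit 163978) (nat_lit 30) (.e (nat_lit 573487) (nat_lit 14) (.e (nat_lit 73755) (nat_lit 8) (.e (nat_lit 557105) (nat_lit 14) .nil))))) (.g (nat_lit 0) (.e (nat_lit 422228) (nat_lit 0) .nil) .nil)))) (.nd (nat_lit 9) 
(.lf (nat_lit 601489) (.g (nat_lit 621) (.e (nat_lit 630820) (nat_lit 16) (.e (nat_lit 65619) (nat_lit 10) (.e (nat_lit 344157) (nat_lit 36) .nil))) (.g (nat_lit 0) (.e (nat_lit 421329) (nat_lit 0) .nil) .nil))) 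
(.lf (nat_lit 602001) (.g (nat_lit 1551) (.e (nat_lit 663567) (nat_lit 4) (.e (nat_lit 65630) (nat_lit 14) (.e (nat_lit 401437) (nat_lit 9) (.e (nat_lit 426482) (nat_lit 27) .nil)))) (.g (nat_lit 0) (.e (nat_lit 422974) (nat_lit 0) .nil) .nil)))))) (.nd (nat_lit 7) (.nd (nat_lit 8) (.nd (nat_lit 9) 
(.lf (nat_lit 601169) (.g (nat_lit 818) (.e (nat_lit 557106) (nat_lit 15) (.e (nat_lit 188452) (nat_lit 23) (.e (nat_lit 204885) (nat_lit 33) (.e (nat_lit 401444) (nat_lit 9) .nil)))) (.g (nat_lit 0) (.e (nat_lit 420250) (nat_lit 0) .nil) .nil))) 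
(.lf (nat_lit 601681) (.g (nat_lit 1945) (.e (nat_lit 639021) (nat_lit 16) (.e (nat_lit 65617) (nat_lit 10) (.e (nat_lit 344161) (nat_lit 37) (.e (nat_lit 647195) (nat_lit 9) (.e (nat_lit 7936) (nat_lit 37) .nil))))) (.g (nat_lit 0) (.e (nat_lit 421972) (nat_lit 0) .nil) .nil)))) (.nd (nat_lit 9) 
(.lf (nat_lit 601425) (.g (nat_lit 2329) (.e (nat_lit 614435) (nat_lit 11) (.e (nat_lit 16468) (nat_lit 13) (.e (nat_lit 483372) (nat_lit 21) (.e (nat_lit 319504) (nat_lit 10) (.e (nat_lit 7936) (nat_lit 313) .nil))))) (.g (nat_lit 0) (.e (nat_lit 421121) (nat_lit 0) .nil) .nil))) 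
(.lf (nat_lit 601937) (.g (nat_lit 1097) (.e (nat_lit 663567) (nat_lit 4) (.e (nat_lit 65622) (nat_lit 12) (.e (nat_lit 385105) (nat_lit 50) (.e (nat_lit 786478) (nat_lit 29) .nil)))) (.g (nat_lit 0) (.e (nat_lit 422910) (nat_lit 0) .nil) .nil))))) (.nd (nat_lit 8) (.nd (nat_lit 9) 
(.lf (nat_lit 601297) (.g (nat_lit 2269) (.e (nat_lit 565252) (nat_lit 0) (.e (nat_lit 1586) (nat_lit 111) (.e (nat_lit 368384) (nat_lit 0) (.e (nat_lit 7685) (nat_lit 410) (.e (nat_lit 2650) (nat_lit 166) (.e (nat_lit 188434) (nat_lit 20) (.e (nat_lit 3289) (nat_lit 201) .nil))))))) (.g (nat_lit 1) (.e (nat_lit 420429) (nat_lit 0) .nil) .nil))) 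
(.lf (nat_lit 601809) (.g (nat_lit 2252) (.e (nat_lit 638998) (nat_lit 8) (.e (nat_lit 172123) (nat_lit 13) (.e (nat_lit 483385) (nat_lit 23) (.e (nat_lit 336260) (nat_lit 15) (.e (nat_lit 3721) (nat_lit 227) (.e (nat_lit 778474) (nat_lit 12) (.e (nat_lit 163999) (nat_lit 38) .nil))))))) (.g (nat_lit 1) (.e (nat_lit 422555) (nat_lit 0) .nil) .nil)))) (.nd (nat_lit 9) 
(.lf (nat_lit 601553) (.g (nat_lit 1733) (.e (nat_lit 630799) (nat_lit 7) (.e (nat_lit 163979) (nat_lit 30) (.e (nat_lit 573489) (nat_lit 14) (.e (nat_lit 73755) (nat_lit 8) (.e (nat_lit 557104) (nat_lit 14) .nil))))) (.g (nat_lit 0) (.e (nat_lit 421432) (nat_lit 0) .nil) .nil))) 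
(.lf (nat_lit 602065) (.g (nat_lit 1005) (.e (nat_lit 663568) (nat_lit 5) (.e (nat_lit 73782) (nat_lit 32) (.e (nat_lit 2855) (nat_lit 184) (.e (nat_lit 426544) (nat_lit 30) (.e (nat_lit 368384) (nat_lit 17) .nil))))) (.g (nat_lit 0) (.e (nat_lit 423040) (nat_lit 0) .nil) .nil))))))) (.nd (nat_lit 6) (.nd (nat_lit 7) (.nd (nat_lit 8) (.nd (nat_lit 9) 
(.lf (nat_lit 601137) (.g (nat_lit 4019) (.e (nat_lit 557105) (nat_lit 14) (.e (nat_lit 180252) (nat_lit 10) (.e (nat_lit 573489) (nat_lit 14) (.e (nat_lit 73755) (nat_lit 8) (.e (nat_lit 557090) (nat_lit 12) (.e (nat_lit 164009) (nat_lit 41) (.e (nat_lit 663582) (nat_lit 10) (.e (nat_lit 8326) (nat_lit 69) .nil)))))))) (.g (nat_lit 1) (.e (nat_lit 420194) (nat_lit 0) .nil) .nil))) 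
(.lf (nat_lit 601649) (.g (nat_lit 447) (.e (nat_lit 639020) (nat_lit 16) (.e (nat_lit 65627) (nat_lit 13) (.e (nat_lit 393284) (nat_lit 24) .nil))) (.g (nat_lit 0) (.e (nat_lit 421817) (nat_lit 0) .nil) .nil)))) (.nd (nat_lit 9) 
(.lf (nat_lit 601393) (.g (nat_lit 1403) (.e (nat_lit 565269) (nat_lit 6) (.e (nat_lit 81943) (nat_lit 20) (.e (nat_lit 2390) (nat_lit 156) (.e (nat_lit 819221) (nat_lit 6) (.e (nat_lit 188435) (nat_lit 20) (.e (nat_lit 3289) (nat_lit 201) .nil)))))) (.g (nat_lit 1) (.e (nat_lit 420600) (nat_lit 0) .nil) .nil))) 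
(.lf (nat_lit 601905) (.g (nat_lit 3680) (.e (nat_lit 663565) (nat_lit 3) (.e (nat_lit 57480) (nat_lit 28) (.e (nat_lit 557109) (nat_lit 15) (.e (nat_lit 188447) (nat_lit 22) (.e (nat_lit 196666) (nat_lit 13) .nil))))) (.g (nat_lit 0) (.e (nat_lit 422876) (nat_lit 0) .nil) .nil))))) (.nd (nat_lit 8) (.nd (nat_lit 9) 
(.lf (nat_lit 601265) (.g (nat_lit 1570) (.e (nat_lit 557119) (nat_lit 18) (.e (nat_lit 2797) (nat_lit 180) (.e (nat_lit 303119) (nat_lit 3) (.e (nat_lit 204838) (nat_lit 20) .nil)))) (.g (nat_lit 0) (.e (nat_lit 420358) (nat_lit 0) .nil) .nil))) 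
(.lf (nat_lit 601777) (.g (nat_lit 3068) (.e (nat_lit 638996) (nat_lit 7) (.e (nat_lit 163977) (nat_lit 30) (.e (nat_lit 573489) (nat_lit 14) (.e (nat_lit 73754) (nat_lit 8) (.e (nat_lit 557103) (nat_lit 14) .nil))))) (.g (nat_lit 0) (.e (nat_lit 422419) (nat_lit 0) .nil) .nil)))) (.nd (nat_lit 9) 
(.lf (nat_lit 601521) (.g (nat_lit 1033) (.e (nat_lit 630821) (nat_lit 16) (.e (nat_lit 65617) (nat_lit 10) (.e (nat_lit 344156) (nat_lit 36) (.e (nat_lit 638985) (nat_lit 5) .nil)))) (.g (nat_lit 0) (.e (nat_lit 421366) (nat_lit 0) .nil) .nil))) 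
(.lf (nat_lit 602033) (.g (nat_lit 2787) (.e (nat_lit 663567) (nat_lit 4) (.e (nat_lit 65630) (nat_lit 14) (.e (nat_lit 401438) (nat_lit 9) (.e (nat_lit 426555) (nat_lit 32) (.e (nat_lit 376843) (nat_lit 20) .nil))))) (.g (nat_lit 0) (.e (nat_lit 423006) (nat_lit 0) .nil) .nil)))))) (.nd (nat_lit 7) (.nd (nat_lit 8) (.nd (nat_lit 9) 
(.lf (nat_lit 601201) (.g (nat_lit 3252) (.e (nat_lit 557107) (nat_lit 15) (.e (nat_lit 188447) (nat_lit 22) (.e (nat_lit 196661) (nat_lit 12) (.e (nat_lit 57750) (nat_lit 201) (.e (nat_lit 3067) (nat_lit 190) (.e (nat_lit 475184) (nat_lit 29) .nil)))))) (.g (nat_lit 1) (.e (nat_lit 420283) (nat_lit 0) .nil) .nil))) 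
(.lf (nat_lit 601713) (.g (nat_lit 398) (.e (nat_lit 638985) (nat_lit 5) (.e (nat_lit 3015) (nat_lit 187) (.e (nat_lit 450592) (nat_lit 14) .nil))) (.g (nat_lit 0) (.e (nat_lit 422111) (nat_lit 0) .nil) .nil)))) (.nd (nat_lit 9) 
(.lf (nat_lit 601457) (.g (nat_lit 3379) (.e (nat_lit 622627) (nat_lit 13) (.e (nat_lit 2666) (nat_lit 167) (.e (nat_lit 196666) (nat_lit 13) (.e (nat_lit 65610) (nat_lit 10) (.e (nat_lit 344117) (nat_lit 21) (.e (nat_lit 516151) (nat_lit 9) (.e (nat_lit 426023) (nat_lit 0) (.e (nat_lit 7936) (nat_lit 208) .nil)))))))) (.g (nat_lit 1) (.e (nat_lit 421206) (nat_lit 0) .nil) .nil))) 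
(.lf (nat_lit 601969) (.g (nat_lit 2196) (.e (nat_lit 663567) (nat_lit 4) (.e (nat_lit 65628) (nat_lit 14) (.e (nat_lit 401438) (nat_lit 9) (.e (nat_lit 426542) (nat_lit 29) (.e (nat_lit 352280) (nat_lit 20) (.e (nat_lit 1994) (nat_lit 137) .nil)))))) (.g (nat_lit 1) (.e (nat_lit 422942) (nat_lit 0) .nil) .nil))))) (.nd (nat_lit 8) (.nd (nat_lit 9) 
(.lf (nat_lit 601329) (.g (nat_lit 1108) (.e (nat_lit 565267) (nat_lit 4) (.e (nat_lit 65616) (nat_lit 10) (.e (nat_lit 344183) (nat_lit 49) (.e (nat_lit 819221) (nat_lit 6) (.e (nat_lit 188439) (nat_lit 20) (.e (nat_lit 3289) (nat_lit 201) .nil)))))) (.g (nat_lit 1) (.e (nat_lit 420505) (nat_lit 0) .nil) .nil))) 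
(.lf (nat_lit 601841) (.g (nat_lit 1534) (.e (nat_lit 663552) (nat_lit 0) (.e (nat_lit 1666) (nat_lit 116) (.e (nat_lit 401454) (nat_lit 12) (.e (nat_lit 475210) (nat_lit 41) .nil)))) (.g (nat_lit 0) (.e (nat_lit 422778) (nat_lit 0) .nil) .nil)))) (.nd (nat_lit 9) 
(.lf (nat_lit 601585) (.g (nat_lit 1588) (.e (nat_lit 639007) (nat_lit 13) (.e (nat_lit 1433) (nat_lit 108) (.e (nat_lit 336456) (nat_lit 34) (.e (nat_lit 483396) (nat_lit 24) (.e (nat_lit 344132) (nat_lit 26) .nil))))) (.g (nat_lit 0) (.e (nat_lit 421613) (nat_lit 0) .nil) .nil))) 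
(.lf (nat_lit 602097) (.g (nat_lit 981) (.e (nat_lit 663569) (nat_lit 6) (.e (nat_lit 81953) (nat_lit 22) (.e (nat_lit 90160) (nat_lit 11) .nil))) (.g (nat_lit 0) (.e (nat_lit 423073) (nat_lit 0) .nil) .nil))))))))) (.nd (nat_lit 4) (.nd (nat_lit 5) (.nd (nat_lit 6) (.nd (nat_lit 7) (.nd (nat_lit 8) (.nd (nat_lit 9) 
(.lf (nat_lit 601097) (.g (nat_lit 3142) (.e (nat_lit 557105) (nat_lit 14) (.e (nat_lit 180252) (nat_lit 10) (.e (nat_lit 573481) (nat_lit 13) (.e (nat_lit 65568) (nat_lit 2) (.e (nat_lit 98048) (nat_lit 2) (.e (nat_lit 16392) (nat_lit 0) (.e (nat_lit 3277) (nat_lit 200) .nil))))))) (.g (nat_lit 1) (.e (nat_lit 420154) (nat_lit 0) .nil) .nil))) 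
(.lf (nat_lit 601609) (.g (nat_lit 629) (.e (nat_lit 639008) (nat_lit 13) (.e (nat_lit 1599) (nat_lit 111) (.e (nat_lit 360480) (nat_lit 14) (.e (nat_lit 638986) (nat_lit 5) (.e (nat_lit 3021) (nat_lit 187) (.e (nat_lit 450592) (nat_lit 14) .nil)))))) (.g (nat_lit 1) (.e (nat_lit 421687) (nat_lit 0) .nil) .nil)))) (.nd (nat_lit 9) 
(.lf (nat_lit 601353) (.g (nat_lit 1572) (.e (nat_lit 565267) (nat_lit 4) (.e (nat_lit 65619) (nat_lit 10) (.e (nat_lit 344183) (nat_lit 49) (.e (nat_lit 819221) (nat_lit 6) (.e (nat_lit 188440) (nat_lit 20) (.e (nat_lit 3289) (nat_lit 201) .nil)))))) (.g (nat_lit 1) (.e (nat_lit 420541) (nat_lit 0) .nil) .nil))) 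
(.lf (nat_lit 601865) (.g (nat_lit 2174) (.e (nat_lit 663556) (nat_lit 0) (.e (nat_lit 1672) (nat_lit 116) (.e (nat_lit 401451) (nat_lit 12) (.e (nat_lit 475207) (nat_lit 41) .nil)))) (.g (nat_lit 0) (.e (nat_lit 422818) (nat_lit 0) .nil) .nil))))) (.nd (nat_lit 8) (.nd (nat_lit 9) 
(.lf (nat_lit 601225) (.g (nat_lit 2547) (.e (nat_lit 557107) (nat_lit 15) (.e (nat_lit 188450) (nat_lit 23) (.e (nat_lit 204884) (nat_lit 33) (.e (nat_lit 401453) (nat_lit 12) (.e (nat_lit 475184) (nat_lit 29) .nil))))) (.g (nat_lit 1) (.e (nat_lit 420307) (nat_lit 0) .nil) .nil))) 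
(.lf (nat_lit 601737) (.g (nat_lit 2958) (.e (nat_lit 638995) (nat_lit 7) (.e (nat_lit 163977) (nat_lit 30) (.e (nat_lit 573489) (nat_lit 14) (.e (nat_lit 73754) (nat_lit 8) (.e (nat_lit 557103) (nat_lit 14) .nil))))) (.g (nat_lit 0) (.e (nat_lit 422193) (nat_lit 0) .nil) .nil)))) (.nd (nat_lit 9) 
(.lf (nat_lit 601481) (.g (nat_lit 1585) (.e (nat_lit 630820) (nat_lit 16) (.e (nat_lit 65586) (nat_lit 7) (.e (nat_lit 319531) (nat_lit 16) (.e (nat_lit 286762) (nat_lit 14) .nil)))) (.g (nat_lit 0) (.e (nat_lit 421318) (nat_lit 0) .nil) .nil))) 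
(.lf (nat_lit 601993) (.g (nat_lit 2621) (.e (nat_lit 663567) (nat_lit 4) (.e (nat_lit 65628) (nat_lit 14) (.e (nat_lit 401459) (nat_lit 13) (.e (nat_lit 483396) (nat_lit 24) (.e (nat_lit 352000) (nat_lit 39) .nil))))) (.g (nat_lit 0) (.e (nat_lit 422966) (nat_lit 0) .nil) .nil)))))) (.nd (nat_lit 7) (.nd (nat_lit 8) (.nd (nat_lit 9) 
(.lf (nat_lit 601161) (.g (nat_lit 3425) (.e (nat_lit 557105) (nat_lit 14) (.e (nat_lit 180252) (nat_lit 10) (.e (nat_lit 573489) (nat_lit 14) (.e (nat_lit 73755) (nat_lit 8) (.e (nat_lit 557119) (nat_lit 18) (.e (nat_lit 2808) (nat_lit 180) (.e (nat_lit 303111) (nat_lit 0) (.e (nat_lit 7936) (nat_lit 200) .nil)))))))) (.g (nat_lit 1) (.e (nat_lit 420218) (nat_lit 0) .nil) .nil))) 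
(.lf (nat_lit 601673) (.g (nat_lit 586) (.e (nat_lit 639021) (nat_lit 16) (.e (nat_lit 65617) (nat_lit 10) (.e (nat_lit 344155) (nat_lit 36) (.e (nat_lit 638999) (nat_lit 8) .nil)))) (.g (nat_lit 0) (.e (nat_lit 421947) (nat_lit 0) .nil) .nil)))) (.nd (nat_lit 9) 
(.lf (nat_lit 601417) (.g (nat_lit 793) (.e (nat_lit 614420) (nat_lit 6) (.e (nat_lit 188455) (nat_lit 24) (.e (nat_lit 229707) (nat_lit 256) .nil))) (.g (nat_lit 0) (.e (nat_lit 421093) (nat_lit 0) .nil) .nil))) 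
(.lf (nat_lit 601929) (.g (nat_lit 2366) (.e (nat_lit 663567) (nat_lit 4) (.e (nat_lit 65611) (nat_lit 10) (.e (nat_lit 344169) (nat_lit 40) (.e (nat_lit 671764) (nat_lit 6) (.e (nat_lit 81935) (nat_lit 20) (.e (nat_lit 1994) (nat_lit 137) .nil)))))) (.g (nat_lit 1) (.e (nat_lit 422902) (nat_lit 0) .nil) .nil))))) (.nd (nat_lit 8) (.nd (nat_lit 9) 
(.lf (nat_lit 601289) (.g (nat_lit 1270) (.e (nat_lit 557119) (nat_lit 18) (.e (nat_lit 2787) (nat_lit 179) (.e (nat_lit 294959) (nat_lit 13) (.e (nat_lit 393221) (nat_lit 0) (.e (nat_lit 6217) (nat_lit 333) (.e (nat_lit 57816) (nat_lit 246) (.e (nat_lit 65280) (nat_lit 89) .nil))))))) (.g (nat_lit 1) (.e (nat_lit 420407) (nat_lit 0) .nil) .nil))) 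
(.lf (nat_lit 601801) (.g (nat_lit 1749) (.e (nat_lit 638998) (nat_lit 8) (.e (nat_lit 172067) (nat_lit 3) (.e (nat_lit 204866) (nat_lit 28) (.e (nat_lit 352321) (nat_lit 25) .nil)))) (.g (nat_lit 0) (.e (nat_lit 422545) (nat_lit 0) .nil) .nil)))) (.nd (nat_lit 9) 
(.lf (nat_lit 601545) (.g (nat_lit 1545) (.e (nat_lit 630821) (nat_lit 16) (.e (nat_lit 65619) (nat_lit 10) (.e (nat_lit 344160) (nat_lit 37) (.e (nat_lit 647195) (nat_lit 9) (.e (nat_lit 7936) (nat_lit 35) .nil))))) (.g (nat_lit 0) (.e (nat_lit 421391) (nat_lit 0) .nil) .nil))) 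
(.lf (nat_lit 602057) (.g (nat_lit 947) (.e (nat_lit 663568) (nat_lit 5) (.e (nat_lit 73781) (nat_lit 32) (.e (nat_lit 2855) (nat_lit 184) (.e (nat_lit 426544) (nat_lit 30) (.e (nat_lit 368384) (nat_lit 17) .nil))))) (.g (nat_lit 0) (.e (nat_lit 423032) (nat_lit 0) .nil) .nil))))))) (.nd (nat_lit 6) (.nd (nat_lit 7) (.nd (nat_lit 8) (.nd (nat_lit 9) 
(.lf (nat_lit 601129) (.g (nat_lit 2971) (.e (nat_lit 557105) (nat_lit 14) (.e (nat_lit 180252) (nat_lit 10) (.e (nat_lit 573482) (nat_lit 13) (.e (nat_lit 65568) (nat_lit 2) (.e (nat_lit 98048) (nat_lit 2) (.e (nat_lit 16403) (nat_lit 0) (.e (nat_lit 7936) (nat_lit 200) .nil))))))) (.g (nat_lit 1) (.e (nat_lit 420186) (nat_lit 0) .nil) .nil))) 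
(.lf (nat_lit 601641) (.g (nat_lit 1560) (.e (nat_lit 639020) (nat_lit 16) (.e (nat_lit 65586) (nat_lit 7) (.e (nat_lit 319531) (nat_lit 16) (.e (nat_lit 286762) (nat_lit 14) .nil)))) (.g (nat_lit 0) (.e (nat_lit 421734) (nat_lit 0) .nil) .nil)))) (.nd (nat_lit 9) 
(.lf (nat_lit 601385) (.g (nat_lit 1208) (.e (nat_lit 565268) (nat_lit 5) (.e (nat_lit 73792) (nat_lit 45) (.e (nat_lit 1162) (nat_lit 86) (.e (nat_lit 49157) (nat_lit 0) (.e (nat_lit 3026) (nat_lit 187) (.e (nat_lit 458496) (nat_lit 9) .nil)))))) (.g (nat_lit 1) (.e (nat_lit 420576) (nat_lit 0) .nil) .nil))) 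
(.lf (nat_lit 601897) (.g (nat_lit 2125) (.e (nat_lit 663565) (nat_lit 3) (.e (nat_lit 57480) (nat_lit 28) (.e (nat_lit 557107) (nat_lit 15) (.e (nat_lit 188450) (nat_lit 23) (.e (nat_lit 204855) (nat_lit 26) .nil))))) (.g (nat_lit 0) (.e (nat_lit 422868) (nat_lit 0) .nil) .nil))))) (.nd (nat_lit 8) (.nd (nat_lit 9) 
(.lf (nat_lit 601257) (.g (nat_lit 2162) (.e (nat_lit 557109) (nat_lit 15) (.e (nat_lit 188452) (nat_lit 23) (.e (nat_lit 204846) (nat_lit 24) (.e (nat_lit 319533) (nat_lit 16) (.e (nat_lit 286764) (nat_lit 15) (.e (nat_lit 7936) (nat_lit 200) .nil)))))) (.g (nat_lit 1) (.e (nat_lit 420340) (nat_lit 0) .nil) .nil))) 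
(.lf (nat_lit 601769) (.g (nat_lit 4382) (.e (nat_lit 638995) (nat_lit 7) (.e (nat_lit 163979) (nat_lit 30) (.e (nat_lit 573489) (nat_lit 14) (.e (nat_lit 73754) (nat_lit 8) (.e (nat_lit 557105) (nat_lit 14) (.e (nat_lit 180252) (nat_lit 10) (.e (nat_lit 573475) (nat_lit 12) (.e (nat_lit 57502) (nat_lit 38) .nil)))))))) (.g (nat_lit 1) (.e (nat_lit 422302) (nat_lit 0) .nil) .nil)))) 
(.nd (nat_lit 9) 
(.lf (nat_lit 601513) (.g (nat_lit 1287) (.e (nat_lit 630821) (nat_lit 16) (.e (nat_lit 65610) (nat_lit 10) (.e (nat_lit 344157) (nat_lit 36) (.e (nat_lit 638985) (nat_lit 5) (.e (nat_lit 3022) (nat_lit 187) (.e (nat_lit 450591) (nat_lit 13) .nil)))))) (.g (nat_lit 1) (.e (nat_lit 421358) (nat_lit 0) .nil) .nil))) 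
(.lf (nat_lit 602025) (.g (nat_lit 1763) (.e (nat_lit 663567) (nat_lit 4) (.e (nat_lit 65630) (nat_lit 14) (.e (nat_lit 401438) (nat_lit 9) (.e (nat_lit 426509) (nat_lit 27) (.e (nat_lit 336099) (nat_lit 9) .nil))))) (.g (nat_lit 0) (.e (nat_lit 422998) (nat_lit 0) .nil) .nil)))))) (.nd (nat_lit 7) (.nd (nat_lit 8) (.nd (nat_lit 9) 
(.lf (nat_lit 601193) (.g (nat_lit 2158) (.e (nat_lit 557107) (nat_lit 15) (.e (nat_lit 188447) (nat_lit 22) (.e (nat_lit 196661) (nat_lit 12) (.e (nat_lit 57749) (nat_lit 201) (.e (nat_lit 2936) (nat_lit 184) (.e (nat_lit 426401) (nat_lit 15) (.e (nat_lit 1859) (nat_lit 124) .nil))))))) (.g (nat_lit 1) (.e (nat_lit 420275) (nat_lit 0) .nil) .nil))) 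
(.lf (nat_lit 601705) (.g (nat_lit 1693) (.e (nat_lit 639023) (nat_lit 18) (.e (nat_lit 81959) (nat_lit 24) (.e (nat_lit 123160) (nat_lit 254) (.e (nat_lit 163923) (nat_lit 15) (.e (nat_lit 450592) (nat_lit 14) .nil))))) (.g (nat_lit 1) (.e (nat_lit 422089) (nat_lit 0) .nil) .nil)))) (.nd (nat_lit 9) 
(.lf (nat_lit 601449) (.g (nat_lit 4684) (.e (nat_lit 622626) (nat_lit 13) (.e (nat_lit 2663) (nat_lit 167) (.e (nat_lit 196666) (nat_lit 13) (.e (nat_lit 65610) (nat_lit 10) (.e (nat_lit 344117) (nat_lit 21) (.e (nat_lit 516160) (nat_lit 10) (.e (nat_lit 434264) (nat_lit 34) .nil))))))) (.g (nat_lit 1) (.e (nat_lit 421194) (nat_lit 0) .nil) .nil))) 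
(.lf (nat_lit 601961) (.g (nat_lit 1923) (.e (nat_lit 663567) (nat_lit 4) (.e (nat_lit 65628) (nat_lit 14) (.e (nat_lit 401437) (nat_lit 9) (.e (nat_lit 426542) (nat_lit 29) (.e (nat_lit 352286) (nat_lit 20) (.e (nat_lit 1994) (nat_lit 137) .nil)))))) (.g (nat_lit 1) (.e (nat_lit 422934) (nat_lit 0) .nil) .nil))))) (.nd (nat_lit 8) (.nd (nat_lit 9) 
(.lf (nat_lit 601321) (.g (nat_lit 1342) (.e (nat_lit 565267) (nat_lit 4) (.e (nat_lit 65611) (nat_lit 10) (.e (nat_lit 344183) (nat_lit 49) (.e (nat_lit 819221) (nat_lit 6) (.e (nat_lit 188440) (nat_lit 20) (.e (nat_lit 3289) (nat_lit 201) .nil)))))) (.g (nat_lit 1) (.e (nat_lit 420495) (nat_lit 0) .nil) .nil))) 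
(.lf (nat_lit 601833) (.g (nat_lit 385) (.e (nat_lit 639001) (nat_lit 10) (.e (nat_lit 188440) (nat_lit 20) (.e (nat_lit 3390) (nat_lit 210) .nil))) (.g (nat_lit 0) (.e (nat_lit 422763) (nat_lit 0) .nil) .nil)))) (.nd (nat_lit 9) 
(.lf (nat_lit 601577) (.g (nat_lit 2271) (.e (nat_lit 630802) (nat_lit 8) (.e (nat_lit 172112) (nat_lit 10) (.e (nat_lit 434268) (nat_lit 36) (.e (nat_lit 639020) (nat_lit 16) (.e (nat_lit 65619) (nat_lit 10) (.e (nat_lit 344154) (nat_lit 35) .nil)))))) (.g (nat_lit 1) (.e (nat_lit 421567) (nat_lit 0) .nil) .nil))) 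
(.lf (nat_lit 602089) (.g (nat_lit 877) (.e (nat_lit 663569) (nat_lit 6) (.e (nat_lit 81924) (nat_lit 0) (.e (nat_lit 3748) (nat_lit 228) (.e (nat_lit 786482) (nat_lit 30) (.e (nat_lit 368384) (nat_lit 17) .nil))))) (.g (nat_lit 1) (.e (nat_lit 423065) (nat_lit 0) .nil) .nil)))))))) (.nd (nat_lit 5) (.nd (nat_lit 6) (.nd (nat_lit 7) (.nd (nat_lit 8) (.nd (nat_lit 9) 
(.lf (nat_lit 601113) (.g (nat_lit 4805) (.e (nat_lit 557105) (nat_lit 14) (.e (nat_lit 180252) (nat_lit 10) (.e (nat_lit 573482) (nat_lit 13) (.e (nat_lit 65568) (nat_lit 2) (.e (nat_lit 98048) (nat_lit 2) (.e (nat_lit 16388) (nat_lit 0) (.e (nat_lit 3275) (nat_lit 200) .nil))))))) (.g (nat_lit 1) (.e (nat_lit 420170) (nat_lit 0) .nil) .nil))) 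
(.lf (nat_lit 601625) (.g (nat_lit 2924) (.e (nat_lit 639020) (nat_lit 16) (.e (nat_lit 65571) (nat_lit 3) (.e (nat_lit 98373) (nat_lit 29) (.e (nat_lit 458496) (nat_lit 3) (.e (nat_lit 516097) (nat_lit 0) (.e (nat_lit 3387) (nat_lit 210) .nil)))))) (.g (nat_lit 1) (.e (nat_lit 421716) (nat_lit 0) .nil) .nil)))) (.nd (nat_lit 9) 
(.lf (nat_lit 601369) (.g (nat_lit 914) (.e (nat_lit 565268) (nat_lit 5) (.e (nat_lit 73789) (nat_lit 45) (.e (nat_lit 1162) (nat_lit 86) (.e (nat_lit 49156) (nat_lit 0) (.e (nat_lit 3026) (nat_lit 187) (.e (nat_lit 458496) (nat_lit 9) .nil)))))) (.g (nat_lit 1) (.e (nat_lit 420560) (nat_lit 0) .nil) .nil))) 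
(.lf (nat_lit 601881) (.g (nat_lit 2147) (.e (nat_lit 671488) (nat_lit 0) (.e (nat_lit 1669) (nat_lit 116) (.e (nat_lit 401454) (nat_lit 12) (.e (nat_lit 475209) (nat_lit 41) (.e (nat_lit 712755) (nat_lit 30) .nil))))) (.g (nat_lit 0) (.e (nat_lit 422838) (nat_lit 0) .nil) .nil))))) (.nd (nat_lit 8) (.nd (nat_lit 9) 
(.lf (nat_lit 601241) (.g (nat_lit 2760) (.e (nat_lit 557108) (nat_lit 15) (.e (nat_lit 188452) (nat_lit 23) (.e (nat_lit 204855) (nat_lit 26) (.e (nat_lit 336253) (nat_lit 15) (.e (nat_lit 3716) (nat_lit 227) (.e (nat_lit 778316) (nat_lit 3) (.e (nat_lit 57477) (nat_lit 28) .nil))))))) (.g (nat_lit 1) (.e (nat_lit 420323) (nat_lit 0) .nil) .nil))) 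
(.lf (nat_lit 601753) (.g (nat_lit 4634) (.e (nat_lit 638995) (nat_lit 7) (.e (nat_lit 163978) (nat_lit 30) (.e (nat_lit 573489) (nat_lit 14) (.e (nat_lit 73755) (nat_lit 8) (.e (nat_lit 557105) (nat_lit 14) (.e (nat_lit 180252) (nat_lit 10) (.e (nat_lit 573475) (nat_lit 12) (.e (nat_lit 57502) (nat_lit 38) .nil)))))))) (.g (nat_lit 1) (.e (nat_lit 422244) (nat_lit 0) .nil) .nil)))) 
(.nd (nat_lit 9) 
(.lf (nat_lit 601497) (.g (nat_lit 438) (.e (nat_lit 630821) (nat_lit 16) (.e (nat_lit 65584) (nat_lit 7) (.e (nat_lit 319526) (nat_lit 15) (.e (nat_lit 278547) (nat_lit 8) .nil)))) (.g (nat_lit 0) (.e (nat_lit 421341) (nat_lit 0) .nil) .nil))) 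
(.lf (nat_lit 602009) (.g (nat_lit 2094) (.e (nat_lit 663567) (nat_lit 4) (.e (nat_lit 65630) (nat_lit 14) (.e (nat_lit 401437) (nat_lit 9) (.e (nat_lit 426515) (nat_lit 27) .nil)))) (.g (nat_lit 0) (.e (nat_lit 422982) (nat_lit 0) .nil) .nil)))))) (.nd (nat_lit 7) (.nd (nat_lit 8) (.nd (nat_lit 9) 
(.lf (nat_lit 601177) (.g (nat_lit 2949) (.e (nat_lit 557107) (nat_lit 15) (.e (nat_lit 188439) (nat_lit 20) (.e (nat_lit 3271) (nat_lit 199) (.e (nat_lit 548913) (nat_lit 18) (.e (nat_lit 172118) (nat_lit 12) (.e (nat_lit 475185) (nat_lit 29) .nil)))))) (.g (nat_lit 1) (.e (nat_lit 420259) (nat_lit 0) .nil) .nil))) 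
(.lf (nat_lit 601689) (.g (nat_lit 490) (.e (nat_lit 639021) (nat_lit 16) (.e (nat_lit 65619) (nat_lit 10) (.e (nat_lit 344156) (nat_lit 36) .nil))) (.g (nat_lit 0) (.e (nat_lit 421998) (nat_lit 0) .nil) .nil)))) (.nd (nat_lit 9) 
(.lf (nat_lit 601433) (.g (nat_lit 3682) (.e (nat_lit 622620) (nat_lit 13) (.e (nat_lit 2663) (nat_lit 167) (.e (nat_lit 196666) (nat_lit 13) (.e (nat_lit 65610) (nat_lit 10) (.e (nat_lit 344117) (nat_lit 21) (.e (nat_lit 516151) (nat_lit 9) (.e (nat_lit 426043) (nat_lit 0) (.e (nat_lit 7936) (nat_lit 208) .nil)))))))) (.g (nat_lit 1) (.e (nat_lit 421148) (nat_lit 0) .nil) .nil))) 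
(.lf (nat_lit 601945) (.g (nat_lit 2478) (.e (nat_lit 663567) (nat_lit 4) (.e (nat_lit 65628) (nat_lit 14) (.e (nat_lit 401437) (nat_lit 9) (.e (nat_lit 426482) (nat_lit 27) (.e (nat_lit 336101) (nat_lit 9) .nil))))) (.g (nat_lit 0) (.e (nat_lit 422918) (nat_lit 0) .nil) .nil))))) (.nd (nat_lit 8) (.nd (nat_lit 9) 
(.lf (nat_lit 601305) (.g (nat_lit 2355) (.e (nat_lit 565252) (nat_lit 0) (.e (nat_lit 1589) (nat_lit 111) (.e (nat_lit 360493) (nat_lit 27) (.e (nat_lit 819204) (nat_lit 0) (.e (nat_lit 3015) (nat_lit 187) (.e (nat_lit 450584) (nat_lit 9) .nil)))))) (.g (nat_lit 1) (.e (nat_lit 420445) (nat_lit 0) .nil) .nil))) 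
(.lf (nat_lit 601817) (.g (nat_lit 2179) (.e (nat_lit 638998) (nat_lit 8) (.e (nat_lit 172123) (nat_lit 13) (.e (nat_lit 483408) (nat_lit 26) (.e (nat_lit 385111) (nat_lit 53) (.e (nat_lit 811031) (nat_lit 11) (.e (nat_lit 682) (nat_lit 58) .nil)))))) (.g (nat_lit 1) (.e (nat_lit 422574) (nat_lit 0) .nil) .nil)))) (.nd (nat_lit 9) 
(.lf (nat_lit 601561) (.g (nat_lit 431) (.e (nat_lit 630801) (nat_lit 8) (.e (nat_lit 172082) (nat_lit 7) (.e (nat_lit 409639) (nat_lit 15) .nil))) (.g (nat_lit 0) (.e (nat_lit 421479) (nat_lit 0) .nil) .nil))) 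
(.lf (nat_lit 602073) (.g (nat_lit 1785) (.e (nat_lit 663569) (nat_lit 6) (.e (nat_lit 81922) (nat_lit 0) (.e (nat_lit 3632) (nat_lit 227) (.e (nat_lit 778326) (nat_lit 6) (.e (nat_lit 81931) (nat_lit 20) (.e (nat_lit 1994) (nat_lit 137) .nil)))))) (.g (nat_lit 1) (.e (nat_lit 423048) (nat_lit 0) .nil) .nil))))))) (.nd (nat_lit 6) (.nd (nat_lit 7) (.nd (nat_lit 8) (.nd (nat_lit 9) 
(.lf (nat_lit 601145) (.g (nat_lit 4082) (.e (nat_lit 557105) (nat_lit 14) (.e (nat_lit 180252) (nat_lit 10) (.e (nat_lit 573489) (nat_lit 14) (.e (nat_lit 73755) (nat_lit 8) (.e (nat_lit 557119) (nat_lit 18) (.e (nat_lit 2797) (nat_lit 180) (.e (nat_lit 303106) (nat_lit 0) (.e (nat_lit 7936) (nat_lit 200) .nil)))))))) (.g (nat_lit 1) (.e (nat_lit 420202) (nat_lit 0) .nil) .nil))) 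
(.lf (nat_lit 601657) (.g (nat_lit 1266) (.e (nat_lit 639020) (nat_lit 16) (.e (nat_lit 65627) (nat_lit 13) (.e (nat_lit 393296) (nat_lit 26) (.e (nat_lit 475219) (nat_lit 44) .nil)))) (.g (nat_lit 0) (.e (nat_lit 421825) (nat_lit 0) .nil) .nil)))) (.nd (nat_lit 9) 
(.lf (nat_lit 601401) (.g (nat_lit 2205) (.e (nat_lit 565269) (nat_lit 6) (.e (nat_lit 81943) (nat_lit 20) (.e (nat_lit 2391) (nat_lit 156) (.e (nat_lit 819221) (nat_lit 6) (.e (nat_lit 188440) (nat_lit 20) (.e (nat_lit 3289) (nat_lit 201) .nil)))))) (.g (nat_lit 1) (.e (nat_lit 420611) (nat_lit 0) .nil) .nil))) 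
(.lf (nat_lit 601913) (.g (nat_lit 3270) (.e (nat_lit 663565) (nat_lit 3) (.e (nat_lit 57480) (nat_lit 28) (.e (nat_lit 557109) (nat_lit 15) (.e (nat_lit 188452) (nat_lit 23) (.e (nat_lit 204856) (nat_lit 26) .nil))))) (.g (nat_lit 0) (.e (nat_lit 422884) (nat_lit 0) .nil) .nil))))) (.nd (nat_lit 8) (.nd (nat_lit 9) 
(.lf (nat_lit 601273) (.g (nat_lit 2587) (.e (nat_lit 557119) (nat_lit 18) (.e (nat_lit 2798) (nat_lit 180) (.e (nat_lit 303119) (nat_lit 3) (.e (nat_lit 204837) (nat_lit 20) (.e (nat_lit 114715) (nat_lit 22) .nil))))) (.g (nat_lit 0) (.e (nat_lit 420373) (nat_lit 0) .nil) .nil))) 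
(.lf (nat_lit 601785) (.g (nat_lit 1913) (.e (nat_lit 638996) (nat_lit 7) (.e (nat_lit 163978) (nat_lit 30) (.e (nat_lit 573489) (nat_lit 14) (.e (nat_lit 73755) (nat_lit 8) (.e (nat_lit 557105) (nat_lit 14) .nil))))) (.g (nat_lit 0) (.e (nat_lit 422457) (nat_lit 0) .nil) .nil)))) (.nd (nat_lit 9) 
(.lf (nat_lit 601529) (.g (nat_lit 1030) (.e (nat_lit 630821) (nat_lit 16) (.e (nat_lit 65617) (nat_lit 10) (.e (nat_lit 344161) (nat_lit 37) (.e (nat_lit 647190) (nat_lit 9) .nil)))) (.g (nat_lit 0) (.e (nat_lit 421375) (nat_lit 0) .nil) .nil))) 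
(.lf (nat_lit 602041) (.g (nat_lit 1219) (.e (nat_lit 663567) (nat_lit 4) (.e (nat_lit 65630) (nat_lit 14) (.e (nat_lit 401458) (nat_lit 13) (.e (nat_lit 483387) (nat_lit 23) .nil)))) (.g (nat_lit 0) (.e (nat_lit 423014) (nat_lit 0) .nil) .nil)))))) (.nd (nat_lit 7) (.nd (nat_lit 8) (.nd (nat_lit 9) 
(.lf (nat_lit 601209) (.g (nat_lit 2635) (.e (nat_lit 557107) (nat_lit 15) (.e (nat_lit 188447) (nat_lit 22) (.e (nat_lit 196661) (nat_lit 12) (.e (nat_lit 57751) (nat_lit 201) (.e (nat_lit 2857) (nat_lit 184) (.e (nat_lit 426402) (nat_lit 15) (.e (nat_lit 1859) (nat_lit 124) .nil))))))) (.g (nat_lit 1) (.e (nat_lit 420291) (nat_lit 0) .nil) .nil))) 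
(.lf (nat_lit 601721) (.g (nat_lit 1133) (.e (nat_lit 638986) (nat_lit 5) (.e (nat_lit 3015) (nat_lit 187) (.e (nat_lit 450597) (nat_lit 17) (.e (nat_lit 663579) (nat_lit 9) (.e (nat_lit 7936) (nat_lit 24) .nil))))) (.g (nat_lit 0) (.e (nat_lit 422139) (nat_lit 0) .nil) .nil)))) (.nd (nat_lit 9) 
(.lf (nat_lit 601465) (.g (nat_lit 3067) (.e (nat_lit 622635) (nat_lit 16) (.e (nat_lit 163978) (nat_lit 30) (.e (nat_lit 573484) (nat_lit 13) (.e (nat_lit 65572) (nat_lit 4) .nil)))) (.g (nat_lit 0) (.e (nat_lit 421269) (nat_lit 0) .nil) .nil))) 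
(.lf (nat_lit 601977) (.g (nat_lit 2511) (.e (nat_lit 663567) (nat_lit 4) (.e (nat_lit 65628) (nat_lit 14) (.e (nat_lit 401454) (nat_lit 12) (.e (nat_lit 475188) (nat_lit 33) .nil)))) (.g (nat_lit 0) (.e (nat_lit 422950) (nat_lit 0) .nil) .nil))))) (.nd (nat_lit 8) (.nd (nat_lit 9) 
(.lf (nat_lit 601337) (.g (nat_lit 1941) (.e (nat_lit 565267) (nat_lit 4) (.e (nat_lit 65617) (nat_lit 10) (.e (nat_lit 344183) (nat_lit 49) (.e (nat_lit 819219) (nat_lit 4) (.e (nat_lit 172113) (nat_lit 10) (.e (nat_lit 434241) (nat_lit 27) .nil)))))) (.g (nat_lit 1) (.e (nat_lit 420516) (nat_lit 0) .nil) .nil))) 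
(.lf (nat_lit 601849) (.g (nat_lit 821) (.e (nat_lit 663554) (nat_lit 0) (.e (nat_lit 1239) (nat_lit 91) (.e (nat_lit 90189) (nat_lit 18) .nil))) (.g (nat_lit 0) (.e (nat_lit 422788) (nat_lit 0) .nil) .nil)))) (.nd (nat_lit 9) 
(.lf (nat_lit 601593) (.g (nat_lit 1327) (.e (nat_lit 639008) (nat_lit 13) (.e (nat_lit 1586) (nat_lit 111) (.e (nat_lit 360450) (nat_lit 0) (.e (nat_lit 5107) (nat_lit 292) .nil)))) (.g (nat_lit 0) (.e (nat_lit 421644) (nat_lit 0) .nil) .nil))) 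
(.lf (nat_lit 602105) (.g (nat_lit 1820) (.e (nat_lit 663573) (nat_lit 9) (.e (nat_lit 2744) (nat_lit 174) (.e (nat_lit 253992) (nat_lit 11) (.e (nat_lit 16425) (nat_lit 7) (.e (nat_lit 409648) (nat_lit 18) .nil))))) (.g (nat_lit 0) (.e (nat_lit 423086) (nat_lit 0) .nil) .nil)))))))))) 
(.nd (nat_lit 3) (.nd (nat_lit 4) (.nd (nat_lit 5) (.nd (nat_lit 6) (.nd (nat_lit 7) 
(.nd (nat_lit 8) (.nd (nat_lit 9) 
(.lf (nat_lit 601093) (.g (nat_lit 3663) (.e (nat_lit 557105) (nat_lit 14) (.e (nat_lit 180252) (nat_lit 10) (.e (nat_lit 573481) (nat_lit 13) (.e (nat_lit 65568) (nat_lit 2) (.e (nat_lit 98048) (nat_lit 2) (.e (nat_lit 16388) (nat_lit 0) (.e (nat_lit 3278) (nat_lit 200) .nil))))))) (.g (nat_lit 1) (.e (nat_lit 420150) (nat_lit 0) .nil) .nil))) 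
(.lf (nat_lit 601605) (.g (nat_lit 1101) (.e (nat_lit 639008) (nat_lit 13) (.e (nat_lit 1598) (nat_lit 111) (.e (nat_lit 360480) (nat_lit 14) (.e (nat_lit 638986) (nat_lit 5) (.e (nat_lit 3016) (nat_lit 187) (.e (nat_lit 450592) (nat_lit 14) .nil)))))) (.g (nat_lit 1) (.e (nat_lit 421681) (nat_lit 0) .nil) .nil)))) (.nd (nat_lit 9) 
(.lf (nat_lit 601349) (.g (nat_lit 1265) (.e (nat_lit 565267) (nat_lit 4) (.e (nat_lit 65619) (nat_lit 10) (.e (nat_lit 344183) (nat_lit 49) (.e (nat_lit 819221) (nat_lit 6) (.e (nat_lit 188435) (nat_lit 20) (.e (nat_lit 3289) (nat_lit 201) .nil)))))) (.g (nat_lit 1) (.e (nat_lit 420537) (nat_lit 0) .nil) .nil))) 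
(.lf (nat_lit 601861) (.g (nat_lit 1370) (.e (nat_lit 663555) (nat_lit 0) (.e (nat_lit 1673) (nat_lit 116) (.e (nat_lit 401448) (nat_lit 10) (.e (nat_lit 434272) (nat_lit 38) .nil)))) (.g (nat_lit 0) (.e (nat_lit 422812) (nat_lit 0) .nil) .nil))))) (.nd (nat_lit 8) (.nd (nat_lit 9) 
(.lf (nat_lit 601221) (.g (nat_lit 1937) (.e (nat_lit 557107) (nat_lit 15) (.e (nat_lit 188450) (nat_lit 23) (.e (nat_lit 204880) (nat_lit 32) (.e (nat_lit 385106) (nat_lit 50) .nil)))) (.g (nat_lit 0) (.e (nat_lit 420303) (nat_lit 0) .nil) .nil))) 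
(.lf (nat_lit 601733) (.g (nat_lit 2007) (.e (nat_lit 638994) (nat_lit 7) (.e (nat_lit 163979) (nat_lit 30) (.e (nat_lit 573489) (nat_lit 14) (.e (nat_lit 73755) (nat_lit 8) (.e (nat_lit 557104) (nat_lit 14) .nil))))) (.g (nat_lit 0) (.e (nat_lit 422180) (nat_lit 0) .nil) .nil)))) (.nd (nat_lit 9) 
(.lf (nat_lit 601477) (.g (nat_lit 458) (.e (nat_lit 630820) (nat_lit 16) (.e (nat_lit 65584) (nat_lit 7) (.e (nat_lit 319526) (nat_lit 15) (.e (nat_lit 278547) (nat_lit 8) .nil)))) (.g (nat_lit 0) (.e (nat_lit 421314) (nat_lit 0) .nil) .nil))) 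
(.lf (nat_lit 601989) (.g (nat_lit 2117) (.e (nat_lit 663567) (nat_lit 4) (.e (nat_lit 65628) (nat_lit 14) (.e (nat_lit 401459) (nat_lit 13) (.e (nat_lit 483387) (nat_lit 23) (.e (nat_lit 335891) (nat_lit 0) .nil))))) (.g (nat_lit 0) (.e (nat_lit 422962) (nat_lit 0) .nil) .nil)))))) (.nd (nat_lit 7) (.nd (nat_lit 8) (.nd (nat_lit 9) 
(.lf (nat_lit 601157) (.g (nat_lit 2568) (.e (nat_lit 557105) (nat_lit 14) (.e (nat_lit 180252) (nat_lit 10) (.e (nat_lit 573489) (nat_lit 14) (.e (nat_lit 73755) (nat_lit 8) (.e (nat_lit 557119) (nat_lit 18) (.e (nat_lit 2808) (nat_lit 180) (.e (nat_lit 303105) (nat_lit 0) (.e (nat_lit 7936) (nat_lit 200) .nil)))))))) (.g (nat_lit 1) (.e (nat_lit 420214) (nat_lit 0) .nil) .nil))) 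
(.lf (nat_lit 601669) (.g (nat_lit 2071) (.e (nat_lit 639021) (nat_lit 16) (.e (nat_lit 65610) (nat_lit 10) (.e (nat_lit 344160) (nat_lit 37) (.e (nat_lit 647195) (nat_lit 9) (.e (nat_lit 7936) (nat_lit 34) (.e (nat_lit 442411) (nat_lit 20) (.e (nat_lit 3390) (nat_lit 210) .nil))))))) (.g (nat_lit 1) (.e (nat_lit 421902) (nat_lit 0) .nil) .nil)))) (.nd (nat_lit 9) 
(.lf (nat_lit 601413) (.g (nat_lit 1773) (.e (nat_lit 598043) (nat_lit 12) (.e (nat_lit 131091) (nat_lit 2) (.e (nat_lit 90176) (nat_lit 15) (.e (nat_lit 188450) (nat_lit 23) (.e (nat_lit 204821) (nat_lit 17) .nil))))) (.g (nat_lit 0) (.e (nat_lit 420887) (nat_lit 0) .nil) .nil))) 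
(.lf (nat_lit 601925) (.g (nat_lit 1186) (.e (nat_lit 663567) (nat_lit 4) (.e (nat_lit 65586) (nat_lit 7) (.e (nat_lit 319531) (nat_lit 16) (.e (nat_lit 286763) (nat_lit 15) .nil)))) (.g (nat_lit 0) (.e (nat_lit 422898) (nat_lit 0) .nil) .nil))))) (.nd (nat_lit 8) (.nd (nat_lit 9) 
(.lf (nat_lit 601285) (.g (nat_lit 3150) (.e (nat_lit 557119) (nat_lit 18) (.e (nat_lit 2798) (nat_lit 180) (.e (nat_lit 303145) (nat_lit 13) (.e (nat_lit 483363) (nat_lit 18) (.e (nat_lit 57649) (nat_lit 146) .nil))))) (.g (nat_lit 0) (.e (nat_lit 420398) (nat_lit 0) .nil) .nil))) 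
(.lf (nat_lit 601797) (.g (nat_lit 2566) (.e (nat_lit 638996) (nat_lit 7) (.e (nat_lit 163979) (nat_lit 30) (.e (nat_lit 573489) (nat_lit 14) (.e (nat_lit 73755) (nat_lit 8) (.e (nat_lit 557105) (nat_lit 14) .nil))))) (.g (nat_lit 0) (.e (nat_lit 422496) (nat_lit 0) .nil) .nil)))) (.nd (nat_lit 9) 
(.lf (nat_lit 601541) (.g (nat_lit 822) (.e (nat_lit 630821) (nat_lit 16) (.e (nat_lit 65619) (nat_lit 10) (.e (nat_lit 344157) (nat_lit 36) (.e (nat_lit 638986) (nat_lit 5) .nil)))) (.g (nat_lit 0) (.e (nat_lit 421387) (nat_lit 0) .nil) .nil))) 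
(.lf (nat_lit 602053) (.g (nat_lit 2350) (.e (nat_lit 663567) (nat_lit 4) (.e (nat_lit 65630) (nat_lit 14) (.e (nat_lit 401459) (nat_lit 13) (.e (nat_lit 483399) (nat_lit 25) .nil)))) (.g (nat_lit 0) (.e (nat_lit 423026) (nat_lit 0) .nil) .nil))))))) (.nd (nat_lit 6) (.nd (nat_lit 7) (.nd (nat_lit 8) (.nd (nat_lit 9) 
(.lf (nat_lit 601125) (.g (nat_lit 2737) (.e (nat_lit 557105) (nat_lit 14) (.e (nat_lit 180252) (nat_lit 10) (.e (nat_lit 573482) (nat_lit 13) (.e (nat_lit 65568) (nat_lit 2) (.e (nat_lit 98048) (nat_lit 2) (.e (nat_lit 16399) (nat_lit 0) (.e (nat_lit 7936) (nat_lit 200) .nil))))))) (.g (nat_lit 1) (.e (nat_lit 420182) (nat_lit 0) .nil) .nil))) 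
(.lf (nat_lit 601637) (.g (nat_lit 2400) (.e (nat_lit 639020) (nat_lit 16) (.e (nat_lit 65586) (nat_lit 7) (.e (nat_lit 319531) (nat_lit 16) (.e (nat_lit 286728) (nat_lit 0) (.e (nat_lit 6648) (nat_lit 357) .nil))))) (.g (nat_lit 0) (.e (nat_lit 421730) (nat_lit 0) .nil) .nil)))) (.nd (nat_lit 9) 
(.lf (nat_lit 601381) (.g (nat_lit 467) (.e (nat_lit 565268) (nat_lit 5) (.e (nat_lit 73791) (nat_lit 45) (.e (nat_lit 1163) (nat_lit 86) (.e (nat_lit 49157) (nat_lit 0) (.e (nat_lit 3012) (nat_lit 187) (.e (nat_lit 458496) (nat_lit 9) .nil)))))) (.g (nat_lit 1) (.e (nat_lit 420572) (nat_lit 0) .nil) .nil))) 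
(.lf (nat_lit 601893) (.g (nat_lit 2143) (.e (nat_lit 663565) (nat_lit 3) (.e (nat_lit 57480) (nat_lit 28) (.e (nat_lit 557098) (nat_lit 13) (.e (nat_lit 172097) (nat_lit 9) (.e (nat_lit 426125) (nat_lit 2) .nil))))) (.g (nat_lit 0) (.e (nat_lit 422864) (nat_lit 0) .nil) .nil))))) (.nd (nat_lit 8) (.nd (nat_lit 9) 
(.lf (nat_lit 601253) (.g (nat_lit 3499) (.e (nat_lit 557109) (nat_lit 15) (.e (nat_lit 188452) (nat_lit 23) (.e (nat_lit 204846) (nat_lit 24) (.e (nat_lit 319505) (nat_lit 10) (.e (nat_lit 7936) (nat_lit 313) (.e (nat_lit 8326) (nat_lit 69) .nil)))))) (.g (nat_lit 1) (.e (nat_lit 420336) (nat_lit 0) .nil) .nil))) 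
(.lf (nat_lit 601765) (.g (nat_lit 3019) (.e (nat_lit 638995) (nat_lit 7) (.e (nat_lit 163979) (nat_lit 30) (.e (nat_lit 573489) (nat_lit 14) (.e (nat_lit 73754) (nat_lit 8) (.e (nat_lit 557103) (nat_lit 14) .nil))))) (.g (nat_lit 0) (.e (nat_lit 422298) (nat_lit 0) .nil) .nil)))) (.nd (nat_lit 9) 
(.lf (nat_lit 601509) (.g (nat_lit 862) (.e (nat_lit 630821) (nat_lit 16) (.e (nat_lit 65610) (nat_lit 10) (.e (nat_lit 344156) (nat_lit 36) (.e (nat_lit 638985) (nat_lit 5) .nil)))) (.g (nat_lit 0) (.e (nat_lit 421354) (nat_lit 0) .nil) .nil))) 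
(.lf (nat_lit 602021) (.g (nat_lit 1945) (.e (nat_lit 663567) (nat_lit 4) (.e (nat_lit 65630) (nat_lit 14) (.e (nat_lit 401437) (nat_lit 9) (.e (nat_lit 426542) (nat_lit 29) (.e (nat_lit 352286) (nat_lit 20) .nil))))) (.g (nat_lit 0) (.e (nat_lit 422994) (nat_lit 0) .nil) .nil)))))) (.nd (nat_lit 7) (.nd (nat_lit 8) (.nd (nat_lit 9) 
(.lf (nat_lit 601189) (.g (nat_lit 1993) (.e (nat_lit 557107) (nat_lit 15) (.e (nat_lit 188440) (nat_lit 20) (.e (nat_lit 3271) (nat_lit 199) (.e (nat_lit 548898) (nat_lit 14) (.e (nat_lit 2999) (nat_lit 186) (.e (nat_lit 450304) (nat_lit 0) (.e (nat_lit 1859) (nat_lit 124) .nil))))))) (.g (nat_lit 1) (.e (nat_lit 420271) (nat_lit 0) .nil) .nil))) 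
(.lf (nat_lit 601701) (.g (nat_lit 660) (.e (nat_lit 639023) (nat_lit 18) (.e (nat_lit 81957) (nat_lit 24) (.e (nat_lit 123160) (nat_lit 254) .nil))) (.g (nat_lit 0) (.e (nat_lit 422076) (nat_lit 0) .nil) .nil)))) (.nd (nat_lit 9) 
(.lf (nat_lit 601445) (.g (nat_lit 3627) (.e (nat_lit 622626) (nat_lit 13) (.e (nat_lit 2663) (nat_lit 167) (.e (nat_lit 196666) (nat_lit 13) (.e (nat_lit 65610) (nat_lit 10) (.e (nat_lit 344117) (nat_lit 21) (.e (nat_lit 516151) (nat_lit 9) (.e (nat_lit 426003) (nat_lit 0) (.e (nat_lit 3363) (nat_lit 208) .nil)))))))) (.g (nat_lit 1) (.e (nat_lit 421190) (nat_lit 0) .nil) .nil))) 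
(.lf (nat_lit 601957) (.g (nat_lit 2309) (.e (nat_lit 663567) (nat_lit 4) (.e (nat_lit 65628) (nat_lit 14) (.e (nat_lit 401437) (nat_lit 9) (.e (nat_lit 426540) (nat_lit 29) (.e (nat_lit 352287) (nat_lit 20) (.e (nat_lit 1994) (nat_lit 137) .nil)))))) (.g (nat_lit 1) (.e (nat_lit 422930) (nat_lit 0) .nil) .nil))))) (.nd (nat_lit 8) (.nd (nat_lit 9) 
(.lf (nat_lit 601317) (.g (nat_lit 1280) (.e (nat_lit 565267) (nat_lit 4) (.e (nat_lit 65611) (nat_lit 10) (.e (nat_lit 344183) (nat_lit 49) (.e (nat_lit 819221) (nat_lit 6) (.e (nat_lit 188434) (nat_lit 20) (.e (nat_lit 3288) (nat_lit 201) .nil)))))) (.g (nat_lit 1) (.e (nat_lit 420491) (nat_lit 0) .nil) .nil))) 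
(.lf (nat_lit 601829) (.g (nat_lit 992) (.e (nat_lit 638999) (nat_lit 8) (.e (nat_lit 172115) (nat_lit 10) (.e (nat_lit 434275) (nat_lit 39) (.e (nat_lit 663580) (nat_lit 9) .nil)))) (.g (nat_lit 0) (.e (nat_lit 422728) (nat_lit 0) .nil) .nil)))) (.nd (nat_lit 9) 
(.lf (nat_lit 601573) (.g (nat_lit 1628) (.e (nat_lit 630802) (nat_lit 8) (.e (nat_lit 172082) (nat_lit 7) (.e (nat_lit 409646) (nat_lit 18) (.e (nat_lit 303127) (nat_lit 9) .nil)))) (.g (nat_lit 0) (.e (nat_lit 421560) (nat_lit 0) .nil) .nil))) 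
(.lf (nat_lit 602085) (.g (nat_lit 639) (.e (nat_lit 663569) (nat_lit 6) (.e (nat_lit 81924) (nat_lit 0) (.e (nat_lit 3632) (nat_lit 227) (.e (nat_lit 778327) (nat_lit 6) .nil)))) (.g (nat_lit 0) (.e (nat_lit 423061) (nat_lit 0) .nil) .nil)))))))) (.nd (nat_lit 5) (.nd (nat_lit 6) (.nd (nat_lit 7) (.nd (nat_lit 8) (.nd (nat_lit 9) 
(.lf (nat_lit 601109) (.g (nat_lit 2409) (.e (nat_lit 557105) (nat_lit 14) (.e (nat_lit 180252) (nat_lit 10) (.e (nat_lit 573482) (nat_lit 13) (.e (nat_lit 65568) (nat_lit 2) (.e (nat_lit 98048) (nat_lit 2) .nil))))) (.g (nat_lit 0) (.e (nat_lit 420166) (nat_lit 0) .nil) .nil))) 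
(.lf (nat_lit 601621) (.g (nat_lit 3103) (.e (nat_lit 639020) (nat_lit 16) (.e (nat_lit 65571) (nat_lit 3) (.e (nat_lit 98370) (nat_lit 28) (.e (nat_lit 442433) (nat_lit 25) (.e (nat_lit 245768) (nat_lit 0) (.e (nat_lit 2458) (nat_lit 157) (.e (nat_lit 3390) (nat_lit 210) .nil))))))) (.g (nat_lit 1) (.e (nat_lit 421712) (nat_lit 0) .nil) .nil)))) (.nd (nat_lit 9) 
(.lf (nat_lit 601365) (.g (nat_lit 420) (.e (nat_lit 565268) (nat_lit 5) (.e (nat_lit 73788) (nat_lit 45) (.e (nat_lit 1163) (nat_lit 86) (.e (nat_lit 49156) (nat_lit 0) (.e (nat_lit 3012) (nat_lit 187) (.e (nat_lit 458496) (nat_lit 9) .nil)))))) (.g (nat_lit 1) (.e (nat_lit 420556) (nat_lit 0) .nil) .nil))) 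
(.lf (nat_lit 601877) (.g (nat_lit 1884) (.e (nat_lit 663559) (nat_lit 0) (.e (nat_lit 1457) (nat_lit 108) (.e (nat_lit 336226) (nat_lit 14) (.e (nat_lit 401437) (nat_lit 9) (.e (nat_lit 426544) (nat_lit 30) .nil))))) (.g (nat_lit 0) (.e (nat_lit 422833) (nat_lit 0) .nil) .nil))))) (.nd (nat_lit 8) (.nd (nat_lit 9) 
(.lf (nat_lit 601237) (.g (nat_lit 2898) (.e (nat_lit 557108) (nat_lit 15) (.e (nat_lit 188452) (nat_lit 23) (.e (nat_lit 204846) (nat_lit 24) (.e (nat_lit 319534) (nat_lit 16) (.e (nat_lit 286766) (nat_lit 15) (.e (nat_lit 7936) (nat_lit 200) .nil)))))) (.g (nat_lit 1) (.e (nat_lit 420319) (nat_lit 0) .nil) .nil))) 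
(.lf (nat_lit 601749) (.g (nat_lit 3645) (.e (nat_lit 638995) (nat_lit 7) (.e (nat_lit 163978) (nat_lit 30) (.e (nat_lit 573489) (nat_lit 14) (.e (nat_lit 73755) (nat_lit 8) (.e (nat_lit 557103) (nat_lit 14) (.e (nat_lit 180250) (nat_lit 10) (.e (nat_lit 573473) (nat_lit 12) (.e (nat_lit 57503) (nat_lit 38) .nil)))))))) (.g (nat_lit 1) (.e (nat_lit 422233) (nat_lit 0) .nil) .nil)))) 
(.nd (nat_lit 9) 
(.lf (nat_lit 601493) (.g (nat_lit 1345) (.e (nat_lit 630821) (nat_lit 16) (.e (nat_lit 65543) (nat_lit 0) (.e (nat_lit 6218) (nat_lit 333) (.e (nat_lit 57819) (nat_lit 248) (.e (nat_lit 164359) (nat_lit 246) (.e (nat_lit 2973) (nat_lit 185) (.e (nat_lit 434266) (nat_lit 35) .nil))))))) (.g (nat_lit 1) (.e (nat_lit 421337) (nat_lit 0) .nil) .nil))) 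
(.lf (nat_lit 602005) (.g (nat_lit 2039) (.e (nat_lit 663567) (nat_lit 4) (.e (nat_lit 65630) (nat_lit 14) (.e (nat_lit 401437) (nat_lit 9) (.e (nat_lit 426495) (nat_lit 27) .nil)))) (.g (nat_lit 0) (.e (nat_lit 422978) (nat_lit 0) .nil) .nil)))))) (.nd (nat_lit 7) (.nd (nat_lit 8) (.nd (nat_lit 9) 
(.lf (nat_lit 601173) (.g (nat_lit 2580) (.e (nat_lit 557107) (nat_lit 15) (.e (nat_lit 188439) (nat_lit 20) (.e (nat_lit 3270) (nat_lit 199) (.e (nat_lit 548898) (nat_lit 14) (.e (nat_lit 3004) (nat_lit 186) (.e (nat_lit 442374) (nat_lit 0) (.e (nat_lit 1856) (nat_lit 124) .nil))))))) (.g (nat_lit 1) (.e (nat_lit 420255) (nat_lit 0) .nil) .nil))) 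
(.lf (nat_lit 601685) (.g (nat_lit 1487) (.e (nat_lit 639021) (nat_lit 16) (.e (nat_lit 65617) (nat_lit 10) (.e (nat_lit 344164) (nat_lit 37) (.e (nat_lit 647190) (nat_lit 9) (.e (nat_lit 7936) (nat_lit 35) (.e (nat_lit 450592) (nat_lit 14) .nil)))))) (.g (nat_lit 1) (.e (nat_lit 421979) (nat_lit 0) .nil) .nil)))) (.nd (nat_lit 9) 
(.lf (nat_lit 601429) (.g (nat_lit 6256) (.e (nat_lit 622620) (nat_lit 13) (.e (nat_lit 2663) (nat_lit 167) (.e (nat_lit 196666) (nat_lit 13) (.e (nat_lit 65610) (nat_lit 10) (.e (nat_lit 344117) (nat_lit 21) (.e (nat_lit 516151) (nat_lit 9) (.e (nat_lit 426017) (nat_lit 0) (.e (nat_lit 7936) (nat_lit 208) .nil)))))))) (.g (nat_lit 1) (.e (nat_lit 421144) (nat_lit 0) .nil) .nil))) 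
(.lf (nat_lit 601941) (.g (nat_lit 2184) (.e (nat_lit 663567) (nat_lit 4) (.e (nat_lit 65628) (nat_lit 14) (.e (nat_lit 401436) (nat_lit 9) (.e (nat_lit 426555) (nat_lit 32) (.e (nat_lit 376843) (nat_lit 20) .nil))))) (.g (nat_lit 0) (.e (nat_lit 422914) (nat_lit 0) .nil) .nil))))) (.nd (nat_lit 8) (.nd (nat_lit 9) 
(.lf (nat_lit 601301) (.g (nat_lit 1045) (.e (nat_lit 565252) (nat_lit 0) (.e (nat_lit 1589) (nat_lit 111) (.e (nat_lit 360449) (nat_lit 0) (.e (nat_lit 7710) (nat_lit 414) .nil)))) (.g (nat_lit 0) (.e (nat_lit 420434) (nat_lit 0) .nil) .nil))) 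
(.lf (nat_lit 601813) (.g (nat_lit 173) (.e (nat_lit 638998) (nat_lit 8) (.e (nat_lit 172123) (nat_lit 13) (.e (nat_lit 483405) (nat_lit 26) .nil))) (.g (nat_lit 0) (.e (nat_lit 422562) (nat_lit 0) .nil) .nil)))) (.nd (nat_lit 9) 
(.lf (nat_lit 601557) (.g (nat_lit 2386) (.e (nat_lit 630800) (nat_lit 7) (.e (nat_lit 163979) (nat_lit 30) (.e (nat_lit 573488) (nat_lit 14) (.e (nat_lit 73755) (nat_lit 8) (.e (nat_lit 557105) (nat_lit 14) .nil))))) (.g (nat_lit 0) (.e (nat_lit 421458) (nat_lit 0) .nil) .nil))) 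
(.lf (nat_lit 602069) (.g (nat_lit 1598) (.e (nat_lit 663568) (nat_lit 5) (.e (nat_lit 73782) (nat_lit 32) (.e (nat_lit 2857) (nat_lit 184) (.e (nat_lit 426544) (nat_lit 30) (.e (nat_lit 368384) (nat_lit 17) .nil))))) (.g (nat_lit 1) (.e (nat_lit 423044) (nat_lit 0) .nil) .nil))))))) (.nd (nat_lit 6) (.nd (nat_lit 7) (.nd (nat_lit 8) (.nd (nat_lit 9) 
(.lf (nat_lit 601141) (.g (nat_lit 3000) (.e (nat_lit 557105) (nat_lit 14) (.e (nat_lit 180252) (nat_lit 10) (.e (nat_lit 573489) (nat_lit 14) (.e (nat_lit 73755) (nat_lit 8) (.e (nat_lit 557119) (nat_lit 18) (.e (nat_lit 2796) (nat_lit 180) (.e (nat_lit 303110) (nat_lit 0) (.e (nat_lit 7936) (nat_lit 200) .nil)))))))) (.g (nat_lit 1) (.e (nat_lit 420198) (nat_lit 0) .nil) .nil))) 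
(.lf (nat_lit 601653) (.g (nat_lit 2063) (.e (nat_lit 639020) (nat_lit 16) (.e (nat_lit 65627) (nat_lit 13) (.e (nat_lit 393292) (nat_lit 26) (.e (nat_lit 475214) (nat_lit 42) (.e (nat_lit 720912) (nat_lit 20) .nil))))) (.g (nat_lit 0) (.e (nat_lit 421821) (nat_lit 0) .nil) .nil)))) (.nd (nat_lit 9) 
(.lf (nat_lit 601397) (.g (nat_lit 2271) (.e (nat_lit 565269) (nat_lit 6) (.e (nat_lit 81943) (nat_lit 20) (.e (nat_lit 2391) (nat_lit 156) (.e (nat_lit 819221) (nat_lit 6) (.e (nat_lit 188434) (nat_lit 20) (.e (nat_lit 3289) (nat_lit 201) .nil)))))) (.g (nat_lit 1) (.e (nat_lit 420607) (nat_lit 0) .nil) .nil))) 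
(.lf (nat_lit 601909) (.g (nat_lit 3978) (.e (nat_lit 663565) (nat_lit 3) (.e (nat_lit 57480) (nat_lit 28) (.e (nat_lit 557109) (nat_lit 15) (.e (nat_lit 188450) (nat_lit 23) (.e (nat_lit 204856) (nat_lit 26) .nil))))) (.g (nat_lit 0) (.e (nat_lit 422880) (nat_lit 0) .nil) .nil))))) (.nd (nat_lit 8) (.nd (nat_lit 9) 
(.lf (nat_lit 601269) (.g (nat_lit 1291) (.e (nat_lit 557119) (nat_lit 18) (.e (nat_lit 2797) (nat_lit 180) (.e (nat_lit 303145) (nat_lit 13) (.e (nat_lit 491264) (nat_lit 16) .nil)))) (.g (nat_lit 0) (.e (nat_lit 420367) (nat_lit 0) .nil) .nil))) 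
(.lf (nat_lit 601781) (.g (nat_lit 3319) (.e (nat_lit 638996) (nat_lit 7) (.e (nat_lit 163978) (nat_lit 30) (.e (nat_lit 573489) (nat_lit 14) (.e (nat_lit 73754) (nat_lit 8) (.e (nat_lit 557105) (nat_lit 14) (.e (nat_lit 180251) (nat_lit 10) (.e (nat_lit 573475) (nat_lit 12) (.e (nat_lit 57503) (nat_lit 38) .nil)))))))) (.g (nat_lit 1) (.e (nat_lit 422453) (nat_lit 0) .nil) .nil)))) 
(.nd (nat_lit 9) 
(.lf (nat_lit 601525) (.g (nat_lit 421) (.e (nat_lit 630821) (nat_lit 16) (.e (nat_lit 65617) (nat_lit 10) (.e (nat_lit 344157) (nat_lit 36) .nil))) (.g (nat_lit 0) (.e (nat_lit 421370) (nat_lit 0) .nil) .nil))) 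
(.lf (nat_lit 602037) (.g (nat_lit 3114) (.e (nat_lit 663567) (nat_lit 4) (.e (nat_lit 65630) (nat_lit 14) (.e (nat_lit 401454) (nat_lit 12) (.e (nat_lit 475188) (nat_lit 33) .nil)))) (.g (nat_lit 0) (.e (nat_lit 423010) (nat_lit 0) .nil) .nil)))))) (.nd (nat_lit 7) (.nd (nat_lit 8) (.nd (nat_lit 9) 
(.lf (nat_lit 601205) (.g (nat_lit 2565) (.e (nat_lit 557107) (nat_lit 15) (.e (nat_lit 188447) (nat_lit 22) (.e (nat_lit 196661) (nat_lit 12) (.e (nat_lit 57751) (nat_lit 201) (.e (nat_lit 2855) (nat_lit 184) (.e (nat_lit 426402) (nat_lit 15) (.e (nat_lit 1859) (nat_lit 124) .nil))))))) (.g (nat_lit 1) (.e (nat_lit 420287) (nat_lit 0) .nil) .nil))) 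
(.lf (nat_lit 601717) (.g (nat_lit 1029) (.e (nat_lit 638985) (nat_lit 5) (.e (nat_lit 3022) (nat_lit 187) (.e (nat_lit 450591) (nat_lit 13) (.e (nat_lit 630821) (nat_lit 16) (.e (nat_lit 65616) (nat_lit 10) (.e (nat_lit 344157) (nat_lit 36) .nil)))))) (.g (nat_lit 1) (.e (nat_lit 422122) (nat_lit 0) .nil) .nil)))) (.nd (nat_lit 9) 
(.lf (nat_lit 601461) (.g (nat_lit 2252) (.e (nat_lit 622630) (nat_lit 13) (.e (nat_lit 2664) (nat_lit 167) (.e (nat_lit 196666) (nat_lit 13) (.e (nat_lit 65610) (nat_lit 10) (.e (nat_lit 344117) (nat_lit 21) .nil))))) (.g (nat_lit 0) (.e (nat_lit 421222) (nat_lit 0) .nil) .nil))) 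
(.lf (nat_lit 601973) (.g (nat_lit 2787) (.e (nat_lit 663567) (nat_lit 4) (.e (nat_lit 65628) (nat_lit 14) (.e (nat_lit 401438) (nat_lit 9) (.e (nat_lit 426555) (nat_lit 32) (.e (nat_lit 376843) (nat_lit 20) .nil))))) (.g (nat_lit 0) (.e (nat_lit 422946) (nat_lit 0) .nil) .nil))))) (.nd (nat_lit 8) (.nd (nat_lit 9) 
(.lf (nat_lit 601333) (.g (nat_lit 2361) (.e (nat_lit 565267) (nat_lit 4) (.e (nat_lit 65617) (nat_lit 10) (.e (nat_lit 344091) (nat_lit 18) (.e (nat_lit 7710) (nat_lit 414) (.e (nat_lit 163908) (nat_lit 12) (.e (nat_lit 426286) (nat_lit 10) (.e (nat_lit 434241) (nat_lit 27) .nil))))))) (.g (nat_lit 1) (.e (nat_lit 420510) (nat_lit 0) .nil) .nil))) 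
(.lf (nat_lit 601845) (.g (nat_lit 1894) (.e (nat_lit 663552) (nat_lit 0) (.e (nat_lit 1674) (nat_lit 116) (.e (nat_lit 401454) (nat_lit 12) (.e (nat_lit 475209) (nat_lit 41) (.e (nat_lit 712755) (nat_lit 30) .nil))))) (.g (nat_lit 0) (.e (nat_lit 422782) (nat_lit 0) .nil) .nil)))) (.nd (nat_lit 9) 
(.lf (nat_lit 601589) (.g (nat_lit 427) (.e (nat_lit 639007) (nat_lit 13) (.e (nat_lit 1595) (nat_lit 111) (.e (nat_lit 368384) (nat_lit 0) .nil))) (.g (nat_lit 0) (.e (nat_lit 421631) (nat_lit 0) .nil) .nil))) 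
(.lf (nat_lit 602101) (.g (nat_lit 2380) (.e (nat_lit 663569) (nat_lit 6) (.e (nat_lit 81959) (nat_lit 24) (.e (nat_lit 123182) (nat_lit 264) (.e (nat_lit 1193) (nat_lit 88) .nil)))) (.g (nat_lit 0) (.e (nat_lit 423077) (nat_lit 0) .nil) .nil))))))))) (.nd (nat_lit 4) (.nd (nat_lit 5) (.nd (nat_lit 6) (.nd (nat_lit 7) (.nd (nat_lit 8) (.nd (nat_lit 9) 
(.lf (nat_lit 601101) (.g (nat_lit 2274) (.e (nat_lit 557105) (nat_lit 14) (.e (nat_lit 180252) (nat_lit 10) (.e (nat_lit 573481) (nat_lit 13) (.e (nat_lit 65568) (nat_lit 2) (.e (nat_lit 98048) (nat_lit 2) (.e (nat_lit 16396) (nat_lit 0) (.e (nat_lit 7936) (nat_lit 200) .nil))))))) (.g (nat_lit 1) (.e (nat_lit 420158) (nat_lit 0) .nil) .nil))) 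
(.lf (nat_lit 601613) (.g (nat_lit 2111) (.e (nat_lit 639016) (nat_lit 15) (.e (nat_lit 57478) (nat_lit 28) (.e (nat_lit 557105) (nat_lit 14) (.e (nat_lit 180252) (nat_lit 10) (.e (nat_lit 573489) (nat_lit 14) .nil))))) (.g (nat_lit 0) (.e (nat_lit 421692) (nat_lit 0) .nil) .nil)))) (.nd (nat_lit 9) 
(.lf (nat_lit 601357) (.g (nat_lit 1674) (.e (nat_lit 565267) (nat_lit 4) (.e (nat_lit 65620) (nat_lit 10) (.e (nat_lit 344183) (nat_lit 49) (.e (nat_lit 819219) (nat_lit 4) (.e (nat_lit 172113) (nat_lit 10) (.e (nat_lit 434241) (nat_lit 27) .nil)))))) (.g (nat_lit 1) (.e (nat_lit 420546) (nat_lit 0) .nil) .nil))) 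
(.lf (nat_lit 601869) (.g (nat_lit 2462) (.e (nat_lit 663557) (nat_lit 0) (.e (nat_lit 1673) (nat_lit 116) (.e (nat_lit 401451) (nat_lit 12) (.e (nat_lit 475207) (nat_lit 41) .nil)))) (.g (nat_lit 0) (.e (nat_lit 422824) (nat_lit 0) .nil) .nil))))) (.nd (nat_lit 8) (.nd (nat_lit 9) 
(.lf (nat_lit 601229) (.g (nat_lit 2172) (.e (nat_lit 557108) (nat_lit 15) (.e (nat_lit 188447) (nat_lit 22) (.e (nat_lit 196661) (nat_lit 12) (.e (nat_lit 57750) (nat_lit 201) (.e (nat_lit 2856) (nat_lit 184) (.e (nat_lit 426402) (nat_lit 15) (.e (nat_lit 1849) (nat_lit 124) .nil))))))) (.g (nat_lit 1) (.e (nat_lit 420311) (nat_lit 0) .nil) .nil))) 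
(.lf (nat_lit 601741) (.g (nat_lit 5712) (.e (nat_lit 638995) (nat_lit 7) (.e (nat_lit 163977) (nat_lit 30) (.e (nat_lit 573489) (nat_lit 14) (.e (nat_lit 73755) (nat_lit 8) (.e (nat_lit 557105) (nat_lit 14) (.e (nat_lit 180252) (nat_lit 10) (.e (nat_lit 573475) (nat_lit 12) (.e (nat_lit 57503) (nat_lit 38) .nil)))))))) (.g (nat_lit 1) (.e (nat_lit 422198) (nat_lit 0) .nil) .nil)))) 
(.nd (nat_lit 9) 
(.lf (nat_lit 601485) (.g (nat_lit 532) (.e (nat_lit 630820) (nat_lit 16) (.e (nat_lit 65617) (nat_lit 10) (.e (nat_lit 344157) (nat_lit 36) .nil))) (.g (nat_lit 0) (.e (nat_lit 421323) (nat_lit 0) .nil) .nil))) 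
(.lf (nat_lit 601997) (.g (nat_lit 1707) (.e (nat_lit 663567) (nat_lit 4) (.e (nat_lit 65630) (nat_lit 14) (.e (nat_lit 401436) (nat_lit 9) (.e (nat_lit 426546) (nat_lit 30) (.e (nat_lit 368384) (nat_lit 17) .nil))))) (.g (nat_lit 1) (.e (nat_lit 422970) (nat_lit 0) .nil) .nil)))))) (.nd (nat_lit 7) (.nd (nat_lit 8) (.nd (nat_lit 9) 
(.lf (nat_lit 601165) (.g (nat_lit 2102) (.e (nat_lit 557106) (nat_lit 15) (.e (nat_lit 188449) (nat_lit 22) (.e (nat_lit 196666) (nat_lit 13) (.e (nat_lit 65543) (nat_lit 0) .nil)))) (.g (nat_lit 0) (.e (nat_lit 420242) (nat_lit 0) .nil) .nil))) 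
(.lf (nat_lit 601677) (.g (nat_lit 2009) (.e (nat_lit 639021) (nat_lit 16) (.e (nat_lit 65617) (nat_lit 10) (.e (nat_lit 344161) (nat_lit 37) (.e (nat_lit 647190) (nat_lit 9) (.e (nat_lit 7936) (nat_lit 35) (.e (nat_lit 450592) (nat_lit 14) .nil)))))) (.g (nat_lit 1) (.e (nat_lit 421968) (nat_lit 0) .nil) .nil)))) (.nd (nat_lit 9) 
(.lf (nat_lit 601421) (.g (nat_lit 1927) (.e (nat_lit 614435) (nat_lit 11) (.e (nat_lit 16416) (nat_lit 3) (.e (nat_lit 204861) (nat_lit 26) (.e (nat_lit 336186) (nat_lit 11) (.e (nat_lit 368676) (nat_lit 21) .nil))))) (.g (nat_lit 0) (.e (nat_lit 421117) (nat_lit 0) .nil) .nil))) 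
(.lf (nat_lit 601933) (.g (nat_lit 1159) (.e (nat_lit 663567) (nat_lit 4) (.e (nat_lit 65619) (nat_lit 10) (.e (nat_lit 344097) (nat_lit 18) (.e (nat_lit 5907) (nat_lit 320) .nil)))) (.g (nat_lit 0) (.e (nat_lit 422906) (nat_lit 0) .nil) .nil))))) (.nd (nat_lit 8) (.nd (nat_lit 9) 
(.lf (nat_lit 601293) (.g (nat_lit 1869) (.e (nat_lit 565251) (nat_lit 0) (.e (nat_lit 1586) (nat_lit 111) (.e (nat_lit 360451) (nat_lit 0) (.e (nat_lit 7686) (nat_lit 410) (.e (nat_lit 7936) (nat_lit 166) (.e (nat_lit 188440) (nat_lit 20) (.e (nat_lit 3289) (nat_lit 201) .nil))))))) (.g (nat_lit 1) (.e (nat_lit 420413) (nat_lit 0) .nil) .nil))) 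
(.lf (nat_lit 601805) (.g (nat_lit 3055) (.e (nat_lit 638998) (nat_lit 8) (.e (nat_lit 172112) (nat_lit 10) (.e (nat_lit 434268) (nat_lit 36) (.e (nat_lit 639020) (nat_lit 16) (.e (nat_lit 65610) (nat_lit 10) (.e (nat_lit 344156) (nat_lit 36) .nil)))))) (.g (nat_lit 1) (.e (nat_lit 422549) (nat_lit 0) .nil) .nil)))) (.nd (nat_lit 9) 
(.lf (nat_lit 601549) (.g (nat_lit 3202) (.e (nat_lit 630799) (nat_lit 7) (.e (nat_lit 163978) (nat_lit 30) (.e (nat_lit 573489) (nat_lit 14) (.e (nat_lit 73755) (nat_lit 8) (.e (nat_lit 557103) (nat_lit 14) .nil))))) (.g (nat_lit 0) (.e (nat_lit 421420) (nat_lit 0) .nil) .nil))) 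
(.lf (nat_lit 602061) (.g (nat_lit 1598) (.e (nat_lit 663568) (nat_lit 5) (.e (nat_lit 73781) (nat_lit 32) (.e (nat_lit 2856) (nat_lit 184) (.e (nat_lit 426546) (nat_lit 30) (.e (nat_lit 368384) (nat_lit 17) .nil))))) (.g (nat_lit 1) (.e (nat_lit 423036) (nat_lit 0) .nil) .nil))))))) (.nd (nat_lit 6) (.nd (nat_lit 7) (.nd (nat_lit 8) (.nd (nat_lit 9) 
(.lf (nat_lit 601133) (.g (nat_lit 2889) (.e (nat_lit 557105) (nat_lit 14) (.e (nat_lit 180252) (nat_lit 10) (.e (nat_lit 573489) (nat_lit 14) (.e (nat_lit 73755) (nat_lit 8) (.e (nat_lit 557089) (nat_lit 12) (.e (nat_lit 164007) (nat_lit 41) (.e (nat_lit 663582) (nat_lit 10) (.e (nat_lit 8326) (nat_lit 69) .nil)))))))) (.g (nat_lit 1) (.e (nat_lit 420190) (nat_lit 0) .nil) .nil))) 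
(.lf (nat_lit 601645) (.g (nat_lit 1914) (.e (nat_lit 639020) (nat_lit 16) (.e (nat_lit 65619) (nat_lit 10) (.e (nat_lit 344156) (nat_lit 36) (.e (nat_lit 638998) (nat_lit 8) (.e (nat_lit 172105) (nat_lit 10) .nil))))) (.g (nat_lit 0) (.e (nat_lit 421786) (nat_lit 0) .nil) .nil)))) (.nd (nat_lit 9) 
(.lf (nat_lit 601389) (.g (nat_lit 1156) (.e (nat_lit 565268) (nat_lit 5) (.e (nat_lit 73792) (nat_lit 45) (.e (nat_lit 1163) (nat_lit 86) (.e (nat_lit 49157) (nat_lit 0) (.e (nat_lit 3026) (nat_lit 187) (.e (nat_lit 458496) (nat_lit 9) .nil)))))) (.g (nat_lit 1) (.e (nat_lit 420580) (nat_lit 0) .nil) .nil))) 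
(.lf (nat_lit 601901) (.g (nat_lit 2826) (.e (nat_lit 663565) (nat_lit 3) (.e (nat_lit 57480) (nat_lit 28) (.e (nat_lit 557108) (nat_lit 15) (.e (nat_lit 188452) (nat_lit 23) (.e (nat_lit 204852) (nat_lit 26) .nil))))) (.g (nat_lit 0) (.e (nat_lit 422872) (nat_lit 0) .nil) .nil))))) (.nd (nat_lit 8) (.nd (nat_lit 9) 
(.lf (nat_lit 601261) (.g (nat_lit 2997) (.e (nat_lit 557109) (nat_lit 15) (.e (nat_lit 188452) (nat_lit 23) (.e (nat_lit 204846) (nat_lit 24) (.e (nat_lit 319534) (nat_lit 16) (.e (nat_lit 286763) (nat_lit 15) (.e (nat_lit 7936) (nat_lit 200) .nil)))))) (.g (nat_lit 1) (.e (nat_lit 420344) (nat_lit 0) .nil) .nil))) 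
(.lf (nat_lit 601773) (.g (nat_lit 3785) (.e (nat_lit 638995) (nat_lit 7) (.e (nat_lit 163979) (nat_lit 30) (.e (nat_lit 573489) (nat_lit 14) (.e (nat_lit 73755) (nat_lit 8) (.e (nat_lit 557105) (nat_lit 14) (.e (nat_lit 180251) (nat_lit 10) (.e (nat_lit 573478) (nat_lit 12) (.e (nat_lit 57502) (nat_lit 38) .nil)))))))) (.g (nat_lit 1) (.e (nat_lit 422306) (nat_lit 0) .nil) .nil)))) 
(.nd (nat_lit 9) 
(.lf (nat_lit 601517) (.g (nat_lit 1723) (.e (nat_lit 630821) (nat_lit 16) (.e (nat_lit 65610) (nat_lit 10) (.e (nat_lit 344160) (nat_lit 37) (.e (nat_lit 647195) (nat_lit 9) (.e (nat_lit 426) (nat_lit 32) .nil))))) (.g (nat_lit 0) (.e (nat_lit 421362) (nat_lit 0) .nil) .nil))) 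
(.lf (nat_lit 602029) (.g (nat_lit 1724) (.e (nat_lit 663567) (nat_lit 4) (.e (nat_lit 65630) (nat_lit 14) (.e (nat_lit 401438) (nat_lit 9) (.e (nat_lit 426542) (nat_lit 29) (.e (nat_lit 352285) (nat_lit 20) .nil))))) (.g (nat_lit 0) (.e (nat_lit 423002) (nat_lit 0) .nil) .nil)))))) (.nd (nat_lit 7) (.nd (nat_lit 8) (.nd (nat_lit 9) 
(.lf (nat_lit 601197) (.g (nat_lit 3722) (.e (nat_lit 557107) (nat_lit 15) (.e (nat_lit 188447) (nat_lit 22) (.e (nat_lit 196661) (nat_lit 12) (.e (nat_lit 57750) (nat_lit 201) (.e (nat_lit 2856) (nat_lit 184) (.e (nat_lit 426402) (nat_lit 15) (.e (nat_lit 1849) (nat_lit 124) .nil))))))) (.g (nat_lit 1) (.e (nat_lit 420279) (nat_lit 0) .nil) .nil))) 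
(.lf (nat_lit 601709) (.g (nat_lit 1338) (.e (nat_lit 639025) (nat_lit 20) (.e (nat_lit 131116) (nat_lit 9) (.e (nat_lit 335988) (nat_lit 1) (.e (nat_lit 57832) (nat_lit 250) (.e (nat_lit 7936) (nat_lit 166) .nil))))) (.g (nat_lit 0) (.e (nat_lit 422094) (nat_lit 0) .nil) .nil)))) (.nd (nat_lit 9) 
(.lf (nat_lit 601453) (.g (nat_lit 6226) (.e (nat_lit 622627) (nat_lit 13) (.e (nat_lit 2663) (nat_lit 167) (.e (nat_lit 196666) (nat_lit 13) (.e (nat_lit 65610) (nat_lit 10) (.e (nat_lit 344117) (nat_lit 21) (.e (nat_lit 516151) (nat_lit 9) (.e (nat_lit 426040) (nat_lit 0) (.e (nat_lit 3366) (nat_lit 208) .nil)))))))) (.g (nat_lit 1) (.e (nat_lit 421200) (nat_lit 0) .nil) .nil))) 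
(.lf (nat_lit 601965) (.g (nat_lit 1051) (.e (nat_lit 663567) (nat_lit 4) (.e (nat_lit 65628) (nat_lit 14) (.e (nat_lit 401438) (nat_lit 9) (.e (nat_lit 426482) (nat_lit 27) .nil)))) (.g (nat_lit 0) (.e (nat_lit 422938) (nat_lit 0) .nil) .nil))))) (.nd (nat_lit 8) (.nd (nat_lit 9) 
(.lf (nat_lit 601325) (.g (nat_lit 404) (.e (nat_lit 565267) (nat_lit 4) (.e (nat_lit 65616) (nat_lit 10) (.e (nat_lit 344183) (nat_lit 49) (.e (nat_lit 819221) (nat_lit 6) .nil)))) (.g (nat_lit 0) (.e (nat_lit 420501) (nat_lit 0) .nil) .nil))) 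
(.lf (nat_lit 601837) (.g (nat_lit 406) (.e (nat_lit 639001) (nat_lit 10) (.e (nat_lit 188441) (nat_lit 20) (.e (nat_lit 3391) (nat_lit 210) .nil))) (.g (nat_lit 0) (.e (nat_lit 422770) (nat_lit 0) .nil) .nil)))) (.nd (nat_lit 9) 
(.lf (nat_lit 601581) (.g (nat_lit 1518) (.e (nat_lit 639004) (nat_lit 13) (.e (nat_lit 1615) (nat_lit 113) (.e (nat_lit 376860) (nat_lit 21) (.e (nat_lit 57830) (nat_lit 250) (.e (nat_lit 7936) (nat_lit 166) .nil))))) (.g (nat_lit 0) (.e (nat_lit 421605) (nat_lit 0) .nil) .nil))) 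
(.lf (nat_lit 602093) (.g (nat_lit 1632) (.e (nat_lit 663569) (nat_lit 6) (.e (nat_lit 81939) (nat_lit 20) (.e (nat_lit 2006) (nat_lit 138) (.e (nat_lit 671764) (nat_lit 6) (.e (nat_lit 81935) (nat_lit 20) (.e (nat_lit 1994) (nat_lit 137) .nil)))))) (.g (nat_lit 1) (.e (nat_lit 423069) (nat_lit 0) .nil) .nil)))))))) 
(.nd (nat_lit 5) (.nd (nat_lit 6) (.nd (nat_lit 7) (.nd (nat_lit 8) (.nd (nat_lit 9) 
(.lf (nat_lit 601117) (.g (nat_lit 2984) (.e (nat_lit 557105) (nat_lit 14) (.e (nat_lit 180252) (nat_lit 10) (.e (nat_lit 573482) (nat_lit 13) (.e (nat_lit 65568) (nat_lit 2) (.e (nat_lit 98048) (nat_lit 2) (.e (nat_lit 16390) (nat_lit 0) (.e (nat_lit 7936) (nat_lit 200) .nil))))))) (.g (nat_lit 1) (.e (nat_lit 420174) (nat_lit 0) .nil) .nil))) 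
(.lf (nat_lit 601629) (.g (nat_lit 2924) (.e (nat_lit 639020) (nat_lit 16) (.e (nat_lit 65571) (nat_lit 3) (.e (nat_lit 98374) (nat_lit 29) (.e (nat_lit 458496) (nat_lit 3) (.e (nat_lit 516106) (nat_lit 0) (.e (nat_lit 3388) (nat_lit 210) .nil)))))) (.g (nat_lit 1) (.e (nat_lit 421720) (nat_lit 0) .nil) .nil)))) (.nd (nat_lit 9) 
(.lf (nat_lit 601373) (.g (nat_lit 682) (.e (nat_lit 565268) (nat_lit 5) (.e (nat_lit 73789) (nat_lit 45) (.e (nat_lit 1163) (nat_lit 86) (.e (nat_lit 49157) (nat_lit 0) (.e (nat_lit 3012) (nat_lit 187) (.e (nat_lit 458496) (nat_lit 9) .nil)))))) (.g (nat_lit 1) (.e (nat_lit 420564) (nat_lit 0) .nil) .nil))) 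
(.lf (nat_lit 601885) (.g (nat_lit 2744) (.e (nat_lit 663565) (nat_lit 3) (.e (nat_lit 57479) (nat_lit 28) (.e (nat_lit 557095) (nat_lit 13) (.e (nat_lit 172097) (nat_lit 9) (.e (nat_lit 426125) (nat_lit 2) .nil))))) (.g (nat_lit 0) (.e (nat_lit 422855) (nat_lit 0) .nil) .nil))))) (.nd (nat_lit 8) (.nd (nat_lit 9) 
(.lf (nat_lit 601245) (.g (nat_lit 1312) (.e (nat_lit 557109) (nat_lit 15) (.e (nat_lit 188449) (nat_lit 22) (.e (nat_lit 196634) (nat_lit 9) (.e (nat_lit 1667) (nat_lit 116) .nil)))) (.g (nat_lit 0) (.e (nat_lit 420328) (nat_lit 0) .nil) .nil))) 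
(.lf (nat_lit 601757) (.g (nat_lit 4606) (.e (nat_lit 638995) (nat_lit 7) (.e (nat_lit 163979) (nat_lit 30) (.e (nat_lit 573487) (nat_lit 14) (.e (nat_lit 73753) (nat_lit 8) (.e (nat_lit 557105) (nat_lit 14) (.e (nat_lit 180252) (nat_lit 10) (.e (nat_lit 573473) (nat_lit 12) (.e (nat_lit 57503) (nat_lit 38) .nil)))))))) (.g (nat_lit 1) (.e (nat_lit 422280) (nat_lit 0) .nil) .nil)))) 
(.nd (nat_lit 9) 
(.lf (nat_lit 601501) (.g (nat_lit 455) (.e (nat_lit 630821) (nat_lit 16) (.e (nat_lit 65586) (nat_lit 7) (.e (nat_lit 319525) (nat_lit 15) .nil))) (.g (nat_lit 0) (.e (nat_lit 421345) (nat_lit 0) .nil) .nil))) 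
(.lf (nat_lit 602013) (.g (nat_lit 1774) (.e (nat_lit 663567) (nat_lit 4) (.e (nat_lit 65630) (nat_lit 14) (.e (nat_lit 401437) (nat_lit 9) (.e (nat_lit 426539) (nat_lit 29) .nil)))) (.g (nat_lit 0) (.e (nat_lit 422986) (nat_lit 0) .nil) .nil)))))) (.nd (nat_lit 7) (.nd (nat_lit 8) (.nd (nat_lit 9) 
(.lf (nat_lit 601181) (.g (nat_lit 2648) (.e (nat_lit 557107) (nat_lit 15) (.e (nat_lit 188439) (nat_lit 20) (.e (nat_lit 3272) (nat_lit 199) (.e (nat_lit 548896) (nat_lit 14) (.e (nat_lit 3004) (nat_lit 186) (.e (nat_lit 442374) (nat_lit 0) (.e (nat_lit 1856) (nat_lit 124) .nil))))))) (.g (nat_lit 1) (.e (nat_lit 420263) (nat_lit 0) .nil) .nil))) 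
(.lf (nat_lit 601693) (.g (nat_lit 1531) (.e (nat_lit 639021) (nat_lit 16) (.e (nat_lit 65619) (nat_lit 10) (.e (nat_lit 344160) (nat_lit 37) (.e (nat_lit 647195) (nat_lit 9) (.e (nat_lit 7936) (nat_lit 34) (.e (nat_lit 442392) (nat_lit 20) (.e (nat_lit 3390) (nat_lit 210) .nil))))))) (.g (nat_lit 1) (.e (nat_lit 422011) (nat_lit 0) .nil) .nil)))) (.nd (nat_lit 9) 
(.lf (nat_lit 601437) (.g (nat_lit 2085) (.e (nat_lit 622622) (nat_lit 13) (.e (nat_lit 2668) (nat_lit 167) (.e (nat_lit 196666) (nat_lit 13) (.e (nat_lit 65610) (nat_lit 10) (.e (nat_lit 344117) (nat_lit 21) .nil))))) (.g (nat_lit 0) (.e (nat_lit 421158) (nat_lit 0) .nil) .nil))) 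
(.lf (nat_lit 601949) (.g (nat_lit 1950) (.e (nat_lit 663567) (nat_lit 4) (.e (nat_lit 65628) (nat_lit 14) (.e (nat_lit 401437) (nat_lit 9) (.e (nat_lit 426504) (nat_lit 27) .nil)))) (.g (nat_lit 0) (.e (nat_lit 422922) (nat_lit 0) .nil) .nil))))) (.nd (nat_lit 8) (.nd (nat_lit 9) 
(.lf (nat_lit 601309) (.g (nat_lit 1880) (.e (nat_lit 565252) (nat_lit 0) (.e (nat_lit 1598) (nat_lit 111) (.e (nat_lit 368384) (nat_lit 0) (.e (nat_lit 7685) (nat_lit 410) (.e (nat_lit 2649) (nat_lit 166) (.e (nat_lit 188434) (nat_lit 20) (.e (nat_lit 3288) (nat_lit 201) .nil))))))) (.g (nat_lit 1) (.e (nat_lit 420453) (nat_lit 0) .nil) .nil))) 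
(.lf (nat_lit 601821) (.g (nat_lit 922) (.e (nat_lit 638999) (nat_lit 8) (.e (nat_lit 172095) (nat_lit 9) (.e (nat_lit 426109) (nat_lit 1) (.e (nat_lit 164319) (nat_lit 228) .nil)))) (.g (nat_lit 0) (.e (nat_lit 422703) (nat_lit 0) .nil) .nil)))) (.nd (nat_lit 9) 
(.lf (nat_lit 601565) (.g (nat_lit 1127) (.e (nat_lit 630802) (nat_lit 8) (.e (nat_lit 172079) (nat_lit 7) (.e (nat_lit 409636) (nat_lit 14) (.e (nat_lit 270373) (nat_lit 16) (.e (nat_lit 286756) (nat_lit 10) (.e (nat_lit 344154) (nat_lit 35) .nil)))))) (.g (nat_lit 1) (.e (nat_lit 421515) (nat_lit 0) .nil) .nil))) 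
(.lf (nat_lit 602077) (.g (nat_lit 965) (.e (nat_lit 663569) (nat_lit 6) (.e (nat_lit 81922) (nat_lit 0) (.e (nat_lit 3632) (nat_lit 227) (.e (nat_lit 778327) (nat_lit 6) (.e (nat_lit 81934) (nat_lit 20) .nil))))) (.g (nat_lit 0) (.e (nat_lit 423052) (nat_lit 0) .nil) .nil))))))) (.nd (nat_lit 6) (.nd (nat_lit 7) (.nd (nat_lit 8) (.nd (nat_lit 9) 
(.lf (nat_lit 601149) (.g (nat_lit 3959) (.e (nat_lit 557105) (nat_lit 14) (.e (nat_lit 180252) (nat_lit 10) (.e (nat_lit 573489) (nat_lit 14) (.e (nat_lit 73755) (nat_lit 8) (.e (nat_lit 557119) (nat_lit 18) (.e (nat_lit 2798) (nat_lit 180) (.e (nat_lit 303105) (nat_lit 0) (.e (nat_lit 7936) (nat_lit 200) .nil)))))))) (.g (nat_lit 1) (.e (nat_lit 420206) (nat_lit 0) .nil) .nil))) 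
(.lf (nat_lit 601661) (.g (nat_lit 2423) (.e (nat_lit 639021) (nat_lit 16) (.e (nat_lit 65598) (nat_lit 9) (.e (nat_lit 335997) (nat_lit 1) (.e (nat_lit 57857) (nat_lit 254) (.e (nat_lit 163920) (nat_lit 14) (.e (nat_lit 442411) (nat_lit 20) (.e (nat_lit 3391) (nat_lit 210) .nil))))))) (.g (nat_lit 1) (.e (nat_lit 421846) (nat_lit 0) .nil) .nil)))) (.nd (nat_lit 9) 
(.lf (nat_lit 601405) (.g (nat_lit 4724) (.e (nat_lit 598061) (nat_lit 16) (.e (nat_lit 172064) (nat_lit 2) (.e (nat_lit 196666) (nat_lit 13) (.e (nat_lit 65610) (nat_lit 10) (.e (nat_lit 344117) (nat_lit 21) (.e (nat_lit 516097) (nat_lit 0) (.e (nat_lit 3336) (nat_lit 205) .nil))))))) (.g (nat_lit 1) (.e (nat_lit 420790) (nat_lit 0) .nil) .nil))) 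
(.lf (nat_lit 601917) (.g (nat_lit 3319) (.e (nat_lit 663565) (nat_lit 3) (.e (nat_lit 57480) (nat_lit 28) (.e (nat_lit 557109) (nat_lit 15) (.e (nat_lit 188452) (nat_lit 23) (.e (nat_lit 212736) (nat_lit 26) .nil))))) (.g (nat_lit 0) (.e (nat_lit 422888) (nat_lit 0) .nil) .nil))))) (.nd (nat_lit 8) (.nd (nat_lit 9) 
(.lf (nat_lit 601277) (.g (nat_lit 2002) (.e (nat_lit 557119) (nat_lit 18) (.e (nat_lit 2798) (nat_lit 180) (.e (nat_lit 303145) (nat_lit 13) (.e (nat_lit 483329) (nat_lit 0) (.e (nat_lit 7936) (nat_lit 407) .nil))))) (.g (nat_lit 0) (.e (nat_lit 420390) (nat_lit 0) .nil) .nil))) 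
(.lf (nat_lit 601789) (.g (nat_lit 2811) (.e (nat_lit 638996) (nat_lit 7) (.e (nat_lit 163979) (nat_lit 30) (.e (nat_lit 573488) (nat_lit 14) (.e (nat_lit 73754) (nat_lit 8) (.e (nat_lit 557105) (nat_lit 14) .nil))))) (.g (nat_lit 0) (.e (nat_lit 422487) (nat_lit 0) .nil) .nil)))) (.nd (nat_lit 9) 
(.lf (nat_lit 601533) (.g (nat_lit 1936) (.e (nat_lit 630821) (nat_lit 16) (.e (nat_lit 65617) (nat_lit 10) (.e (nat_lit 344161) (nat_lit 37) (.e (nat_lit 647195) (nat_lit 9) (.e (nat_lit 7936) (nat_lit 35) .nil))))) (.g (nat_lit 0) (.e (nat_lit 421379) (nat_lit 0) .nil) .nil))) 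
(.lf (nat_lit 602045) (.g (nat_lit 2906) (.e (nat_lit 663567) (nat_lit 4) (.e (nat_lit 65630) (nat_lit 14) (.e (nat_lit 401459) (nat_lit 13) (.e (nat_lit 483344) (nat_lit 17) (.e (nat_lit 6440) (nat_lit 343) .nil))))) (.g (nat_lit 0) (.e (nat_lit 423018) (nat_lit 0) .nil) .nil)))))) (.nd (nat_lit 7) (.nd (nat_lit 8) (.nd (nat_lit 9) 
(.lf (nat_lit 601213) (.g (nat_lit 3184) (.e (nat_lit 557107) (nat_lit 15) (.e (nat_lit 188447) (nat_lit 22) (.e (nat_lit 196666) (nat_lit 13) (.e (nat_lit 65639) (nat_lit 15) (.e (nat_lit 3715) (nat_lit 227) (.e (nat_lit 778316) (nat_lit 3) (.e (nat_lit 57480) (nat_lit 28) .nil))))))) (.g (nat_lit 1) (.e (nat_lit 420295) (nat_lit 0) .nil) .nil))) 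
(.lf (nat_lit 601725) (.g (nat_lit 962) (.e (nat_lit 638986) (nat_lit 5) (.e (nat_lit 3021) (nat_lit 187) (.e (nat_lit 450592) (nat_lit 14) (.e (nat_lit 639008) (nat_lit 13) (.e (nat_lit 1595) (nat_lit 111) (.e (nat_lit 360480) (nat_lit 14) .nil)))))) (.g (nat_lit 1) (.e (nat_lit 422148) (nat_lit 0) .nil) .nil)))) (.nd (nat_lit 9) 
(.lf (nat_lit 601469) (.g (nat_lit 868) (.e (nat_lit 622635) (nat_lit 16) (.e (nat_lit 163979) (nat_lit 30) (.e (nat_lit 573480) (nat_lit 13) .nil))) (.g (nat_lit 0) (.e (nat_lit 421275) (nat_lit 0) .nil) .nil))) 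
(.lf (nat_lit 601981) (.g (nat_lit 1566) (.e (nat_lit 663567) (nat_lit 4) (.e (nat_lit 65628) (nat_lit 14) (.e (nat_lit 401457) (nat_lit 13) (.e (nat_lit 483401) (nat_lit 25) .nil)))) (.g (nat_lit 0) (.e (nat_lit 422954) (nat_lit 0) .nil) .nil))))) (.nd (nat_lit 8) (.nd (nat_lit 9) 
(.lf (nat_lit 601341) (.g (nat_lit 1607) (.e (nat_lit 565267) (nat_lit 4) (.e (nat_lit 65617) (nat_lit 10) (.e (nat_lit 344183) (nat_lit 49) (.e (nat_lit 819221) (nat_lit 6) (.e (nat_lit 188440) (nat_lit 20) (.e (nat_lit 3289) (nat_lit 201) .nil)))))) (.g (nat_lit 1) (.e (nat_lit 420520) (nat_lit 0) .nil) .nil))) 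
(.lf (nat_lit 601853) (.g (nat_lit 2394) (.e (nat_lit 663555) (nat_lit 0) (.e (nat_lit 1234) (nat_lit 91) (.e (nat_lit 90174) (nat_lit 14) (.e (nat_lit 180250) (nat_lit 10) (.e (nat_lit 573487) (nat_lit 14) .nil))))) (.g (nat_lit 0) (.e (nat_lit 422802) (nat_lit 0) .nil) .nil)))) (.nd (nat_lit 9) 
(.lf (nat_lit 601597) (.g (nat_lit 606) (.e (nat_lit 639008) (nat_lit 13) (.e (nat_lit 1589) (nat_lit 111) (.e (nat_lit 360480) (nat_lit 14) (.e (nat_lit 638985) (nat_lit 5) .nil)))) (.g (nat_lit 0) (.e (nat_lit 421661) (nat_lit 0) .nil) .nil))) 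
(.lf (nat_lit 602109) (.g (nat_lit 2579) (.e (nat_lit 663582) (nat_lit 10) (.e (nat_lit 8326) (nat_lit 69) (.e (nat_lit 557105) (nat_lit 14) (.e (nat_lit 180252) (nat_lit 10) (.e (nat_lit 573489) (nat_lit 14) .nil))))) (.g (nat_lit 0) (.e (nat_lit 423164) (nat_lit 0) .nil) .nil))))))))))) 
(.nd (nat_lit 2) (.nd (nat_lit 3) (.nd (nat_lit 4) (.nd (nat_lit 5) (.nd (nat_lit 6) 
(.nd (nat_lit 7) (.nd (nat_lit 8) (.nd (nat_lit 9) 
(.lf (nat_lit 601091) (.g (nat_lit 2343) (.e (nat_lit 557105) (nat_lit 14) (.e (nat_lit 180252) (nat_lit 10) (.e (nat_lit 573481) (nat_lit 13) (.e (nat_lit 65568) (nat_lit 2) (.e (nat_lit 98048) (nat_lit 2) (.e (nat_lit 16385) (nat_lit 0) (.e (nat_lit 3276) (nat_lit 200) .nil))))))) (.g (nat_lit 1) (.e (nat_lit 420148) (nat_lit 0) .nil) .nil))) 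
(.lf (nat_lit 601603) (.g (nat_lit 1002) (.e (nat_lit 639008) (nat_lit 13) (.e (nat_lit 1598) (nat_lit 111) (.e (nat_lit 360452) (nat_lit 0) (.e (nat_lit 5243) (nat_lit 297) .nil)))) (.g (nat_lit 0) (.e (nat_lit 421679) (nat_lit 0) .nil) .nil)))) (.nd (nat_lit 9) 
(.lf (nat_lit 601347) (.g (nat_lit 1845) (.e (nat_lit 565267) (nat_lit 4) (.e (nat_lit 65619) (nat_lit 10) (.e (nat_lit 344183) (nat_lit 49) (.e (nat_lit 819219) (nat_lit 4) (.e (nat_lit 172113) (nat_lit 10) (.e (nat_lit 434241) (nat_lit 27) .nil)))))) (.g (nat_lit 1) (.e (nat_lit 420535) (nat_lit 0) .nil) .nil))) 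
(.lf (nat_lit 601859) (.g (nat_lit 1038) (.e (nat_lit 663555) (nat_lit 0) (.e (nat_lit 1399) (nat_lit 106) (.e (nat_lit 319533) (nat_lit 16) (.e (nat_lit 286745) (nat_lit 9) .nil)))) (.g (nat_lit 0) (.e (nat_lit 422808) (nat_lit 0) .nil) .nil))))) (.nd (nat_lit 8) (.nd (nat_lit 9) 
(.lf (nat_lit 601219) (.g (nat_lit 2270) (.e (nat_lit 557107) (nat_lit 15) (.e (nat_lit 188450) (nat_lit 23) (.e (nat_lit 204855) (nat_lit 26) (.e (nat_lit 336290) (nat_lit 15) (.e (nat_lit 3715) (nat_lit 227) (.e (nat_lit 778316) (nat_lit 3) (.e (nat_lit 57477) (nat_lit 28) .nil))))))) (.g (nat_lit 1) (.e (nat_lit 420301) (nat_lit 0) .nil) .nil))) 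
(.lf (nat_lit 601731) (.g (nat_lit 2265) (.e (nat_lit 638994) (nat_lit 7) (.e (nat_lit 163979) (nat_lit 30) (.e (nat_lit 573487) (nat_lit 14) (.e (nat_lit 73754) (nat_lit 8) (.e (nat_lit 557105) (nat_lit 14) .nil))))) (.g (nat_lit 0) (.e (nat_lit 422178) (nat_lit 0) .nil) .nil)))) (.nd (nat_lit 9) 
(.lf (nat_lit 601475) (.g (nat_lit 2995) (.e (nat_lit 630819) (nat_lit 15) (.e (nat_lit 57479) (nat_lit 28) (.e (nat_lit 557105) (nat_lit 14) (.e (nat_lit 180252) (nat_lit 10) (.e (nat_lit 573487) (nat_lit 14) .nil))))) (.g (nat_lit 0) (.e (nat_lit 421312) (nat_lit 0) .nil) .nil))) 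
(.lf (nat_lit 601987) (.g (nat_lit 1763) (.e (nat_lit 663567) (nat_lit 4) (.e (nat_lit 65628) (nat_lit 14) (.e (nat_lit 401459) (nat_lit 13) (.e (nat_lit 483381) (nat_lit 23) .nil)))) (.g (nat_lit 0) (.e (nat_lit 422960) (nat_lit 0) .nil) .nil)))))) (.nd (nat_lit 7) (.nd (nat_lit 8) (.nd (nat_lit 9) 
(.lf (nat_lit 601155) (.g (nat_lit 3128) (.e (nat_lit 557105) (nat_lit 14) (.e (nat_lit 180252) (nat_lit 10) (.e (nat_lit 573489) (nat_lit 14) (.e (nat_lit 73755) (nat_lit 8) (.e (nat_lit 557119) (nat_lit 18) (.e (nat_lit 2807) (nat_lit 180) (.e (nat_lit 303109) (nat_lit 0) (.e (nat_lit 7936) (nat_lit 200) .nil)))))))) (.g (nat_lit 1) (.e (nat_lit 420212) (nat_lit 0) .nil) .nil))) 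
(.lf (nat_lit 601667) (.g (nat_lit 1866) (.e (nat_lit 639021) (nat_lit 16) (.e (nat_lit 65610) (nat_lit 10) (.e (nat_lit 344160) (nat_lit 37) (.e (nat_lit 647190) (nat_lit 9) (.e (nat_lit 7936) (nat_lit 37) .nil))))) (.g (nat_lit 0) (.e (nat_lit 421900) (nat_lit 0) .nil) .nil)))) (.nd (nat_lit 9) 
(.lf (nat_lit 601411) (.g (nat_lit 1407) (.e (nat_lit 598034) (nat_lit 7) (.e (nat_lit 57464) (nat_lit 23) (.e (nat_lit 516115) (nat_lit 1) (.e (nat_lit 164325) (nat_lit 230) .nil)))) (.g (nat_lit 0) (.e (nat_lit 420885) (nat_lit 0) .nil) .nil))) 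
(.lf (nat_lit 601923) (.g (nat_lit 1152) (.e (nat_lit 663567) (nat_lit 4) (.e (nat_lit 65586) (nat_lit 7) (.e (nat_lit 319538) (nat_lit 19) (.e (nat_lit 311358) (nat_lit 29) .nil)))) (.g (nat_lit 0) (.e (nat_lit 422896) (nat_lit 0) .nil) .nil))))) (.nd (nat_lit 8) (.nd (nat_lit 9) 
(.lf (nat_lit 601283) (.g (nat_lit 3150) (.e (nat_lit 557119) (nat_lit 18) (.e (nat_lit 2798) (nat_lit 180) (.e (nat_lit 303145) (nat_lit 13) (.e (nat_lit 483363) (nat_lit 18) (.e (nat_lit 57646) (nat_lit 146) .nil))))) (.g (nat_lit 0) (.e (nat_lit 420396) (nat_lit 0) .nil) .nil))) 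
(.lf (nat_lit 601795) (.g (nat_lit 2860) (.e (nat_lit 638996) (nat_lit 7) (.e (nat_lit 163979) (nat_lit 30) (.e (nat_lit 573489) (nat_lit 14) (.e (nat_lit 73754) (nat_lit 8) (.e (nat_lit 557105) (nat_lit 14) .nil))))) (.g (nat_lit 0) (.e (nat_lit 422494) (nat_lit 0) .nil) .nil)))) (.nd (nat_lit 9) 
(.lf (nat_lit 601539) (.g (nat_lit 1310) (.e (nat_lit 630821) (nat_lit 16) (.e (nat_lit 65619) (nat_lit 10) (.e (nat_lit 344156) (nat_lit 36) (.e (nat_lit 638998) (nat_lit 8) .nil)))) (.g (nat_lit 0) (.e (nat_lit 421385) (nat_lit 0) .nil) .nil))) 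
(.lf (nat_lit 602051) (.g (nat_lit 2756) (.e (nat_lit 663567) (nat_lit 4) (.e (nat_lit 65630) (nat_lit 14) (.e (nat_lit 401459) (nat_lit 13) (.e (nat_lit 483397) (nat_lit 25) .nil)))) (.g (nat_lit 0) (.e (nat_lit 423024) (nat_lit 0) .nil) .nil))))))) (.nd (nat_lit 6) (.nd (nat_lit 7) (.nd (nat_lit 8) (.nd (nat_lit 9) 
(.lf (nat_lit 601123) (.g (nat_lit 3020) (.e (nat_lit 557105) (nat_lit 14) (.e (nat_lit 180252) (nat_lit 10) (.e (nat_lit 573482) (nat_lit 13) (.e (nat_lit 65568) (nat_lit 2) (.e (nat_lit 98048) (nat_lit 2) (.e (nat_lit 16396) (nat_lit 0) (.e (nat_lit 7936) (nat_lit 200) .nil))))))) (.g (nat_lit 1) (.e (nat_lit 420180) (nat_lit 0) .nil) .nil))) 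
(.lf (nat_lit 601635) (.g (nat_lit 1720) (.e (nat_lit 639020) (nat_lit 16) (.e (nat_lit 65583) (nat_lit 7) (.e (nat_lit 319530) (nat_lit 16) (.e (nat_lit 286727) (nat_lit 0) (.e (nat_lit 7936) (nat_lit 362) .nil))))) (.g (nat_lit 0) (.e (nat_lit 421727) (nat_lit 0) .nil) .nil)))) (.nd (nat_lit 9) 
(.lf (nat_lit 601379) (.g (nat_lit 1051) (.e (nat_lit 565268) (nat_lit 5) (.e (nat_lit 73791) (nat_lit 45) (.e (nat_lit 1162) (nat_lit 86) (.e (nat_lit 49157) (nat_lit 0) (.e (nat_lit 3026) (nat_lit 187) (.e (nat_lit 458496) (nat_lit 9) .nil)))))) (.g (nat_lit 1) (.e (nat_lit 420570) (nat_lit 0) .nil) .nil))) 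
(.lf (nat_lit 601891) (.g (nat_lit 2766) (.e (nat_lit 663565) (nat_lit 3) (.e (nat_lit 57479) (nat_lit 28) (.e (nat_lit 557109) (nat_lit 15) (.e (nat_lit 188452) (nat_lit 23) .nil)))) (.g (nat_lit 0) (.e (nat_lit 422861) (nat_lit 0) .nil) .nil))))) (.nd (nat_lit 8) (.nd (nat_lit 9) 
(.lf (nat_lit 601251) (.g (nat_lit 2868) (.e (nat_lit 557109) (nat_lit 15) (.e (nat_lit 188452) (nat_lit 23) (.e (nat_lit 204845) (nat_lit 24) (.e (nat_lit 319504) (nat_lit 10) (.e (nat_lit 7936) (nat_lit 313) (.e (nat_lit 8326) (nat_lit 69) .nil)))))) (.g (nat_lit 1) (.e (nat_lit 420334) (nat_lit 0) .nil) .nil))) 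
(.lf (nat_lit 601763) (.g (nat_lit 5495) (.e (nat_lit 638995) (nat_lit 7) (.e (nat_lit 163979) (nat_lit 30) (.e (nat_lit 573488) (nat_lit 14) (.e (nat_lit 73755) (nat_lit 8) (.e (nat_lit 557103) (nat_lit 14) (.e (nat_lit 180250) (nat_lit 10) (.e (nat_lit 573473) (nat_lit 12) (.e (nat_lit 57503) (nat_lit 38) .nil)))))))) (.g (nat_lit 1) (.e (nat_lit 422293) (nat_lit 0) .nil) .nil)))) 
(.nd (nat_lit 9) 
(.lf (nat_lit 601507) (.g (nat_lit 2635) (.e (nat_lit 630821) (nat_lit 16) (.e (nat_lit 65586) (nat_lit 7) (.e (nat_lit 319534) (nat_lit 16) (.e (nat_lit 286756) (nat_lit 10) (.e (nat_lit 344097) (nat_lit 18) .nil))))) (.g (nat_lit 0) (.e (nat_lit 421351) (nat_lit 0) .nil) .nil))) 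
(.lf (nat_lit 602019) (.g (nat_lit 1885) (.e (nat_lit 663567) (nat_lit 4) (.e (nat_lit 65630) (nat_lit 14) (.e (nat_lit 401437) (nat_lit 9) (.e (nat_lit 426542) (nat_lit 29) (.e (nat_lit 352283) (nat_lit 20) .nil))))) (.g (nat_lit 0) (.e (nat_lit 422992) (nat_lit 0) .nil) .nil)))))) (.nd (nat_lit 7) (.nd (nat_lit 8) (.nd (nat_lit 9) 
(.lf (nat_lit 601187) (.g (nat_lit 2770) (.e (nat_lit 557107) (nat_lit 15) (.e (nat_lit 188439) (nat_lit 20) (.e (nat_lit 3272) (nat_lit 199) (.e (nat_lit 548915) (nat_lit 20) (.e (nat_lit 188418) (nat_lit 0) (.e (nat_lit 1856) (nat_lit 124) .nil)))))) (.g (nat_lit 1) (.e (nat_lit 420269) (nat_lit 0) .nil) .nil))) 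
(.lf (nat_lit 601699) (.g (nat_lit 448) (.e (nat_lit 639023) (nat_lit 18) (.e (nat_lit 81950) (nat_lit 21) (.e (nat_lit 57857) (nat_lit 254) .nil))) (.g (nat_lit 0) (.e (nat_lit 422073) (nat_lit 0) .nil) .nil)))) (.nd (nat_lit 9) 
(.lf (nat_lit 601443) (.g (nat_lit 5186) (.e (nat_lit 622625) (nat_lit 13) (.e (nat_lit 2663) (nat_lit 167) (.e (nat_lit 196666) (nat_lit 13) (.e (nat_lit 65610) (nat_lit 10) (.e (nat_lit 344117) (nat_lit 21) (.e (nat_lit 516151) (nat_lit 9) (.e (nat_lit 426042) (nat_lit 0) (.e (nat_lit 3370) (nat_lit 208) .nil)))))))) (.g (nat_lit 1) (.e (nat_lit 421187) (nat_lit 0) .nil) .nil))) 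
(.lf (nat_lit 601955) (.g (nat_lit 1735) (.e (nat_lit 663567) (nat_lit 4) (.e (nat_lit 65628) (nat_lit 14) (.e (nat_lit 401437) (nat_lit 9) (.e (nat_lit 426539) (nat_lit 29) .nil)))) (.g (nat_lit 0) (.e (nat_lit 422928) (nat_lit 0) .nil) .nil))))) (.nd (nat_lit 8) (.nd (nat_lit 9) 
(.lf (nat_lit 601315) (.g (nat_lit 1458) (.e (nat_lit 565267) (nat_lit 4) (.e (nat_lit 65610) (nat_lit 10) (.e (nat_lit 344183) (nat_lit 49) (.e (nat_lit 819221) (nat_lit 6) (.e (nat_lit 188440) (nat_lit 20) (.e (nat_lit 3288) (nat_lit 201) .nil)))))) (.g (nat_lit 1) (.e (nat_lit 420484) (nat_lit 0) .nil) .nil))) 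
(.lf (nat_lit 601827) (.g (nat_lit 907) (.e (nat_lit 638999) (nat_lit 8) (.e (nat_lit 172113) (nat_lit 10) (.e (nat_lit 434279) (nat_lit 39) (.e (nat_lit 663580) (nat_lit 9) .nil)))) (.g (nat_lit 0) (.e (nat_lit 422723) (nat_lit 0) .nil) .nil)))) (.nd (nat_lit 9) 
(.lf (nat_lit 601571) (.g (nat_lit 364) (.e (nat_lit 630802) (nat_lit 8) (.e (nat_lit 172082) (nat_lit 7) (.e (nat_lit 409646) (nat_lit 18) .nil))) (.g (nat_lit 0) (.e (nat_lit 421539) (nat_lit 0) .nil) .nil))) 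
(.lf (nat_lit 602083) (.g (nat_lit 1716) (.e (nat_lit 663569) (nat_lit 6) (.e (nat_lit 81924) (nat_lit 0) (.e (nat_lit 3631) (nat_lit 227) (.e (nat_lit 778326) (nat_lit 6) (.e (nat_lit 81935) (nat_lit 20) (.e (nat_lit 1994) (nat_lit 137) .nil)))))) (.g (nat_lit 1) (.e (nat_lit 423059) (nat_lit 0) .nil) .nil)))))))) 
(.nd (nat_lit 5) (.nd (nat_lit 6) (.nd (nat_lit 7) (.nd (nat_lit 8) (.nd (nat_lit 9) 
(.lf (nat_lit 601107) (.g (nat_lit 3951) (.e (nat_lit 557105) (nat_lit 14) (.e (nat_lit 180252) (nat_lit 10) (.e (nat_lit 573481) (nat_lit 13) (.e (nat_lit 65637) (nat_lit 15) (.e (nat_lit 3253) (nat_lit 197) (.e (nat_lit 532501) (nat_lit 1) (.e (nat_lit 57851) (nat_lit 252) (.e (nat_lit 57354) (nat_lit 0) (.e (nat_lit 1857) (nat_lit 124) .nil))))))))) (.g (nat_lit 1) (.e (nat_lit 420164) (nat_lit 0) .nil) .nil))) 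
(.lf (nat_lit 601619) (.g (nat_lit 1452) (.e (nat_lit 639020) (nat_lit 16) (.e (nat_lit 65571) (nat_lit 3) (.e (nat_lit 98359) (nat_lit 26) (.e (nat_lit 426286) (nat_lit 10) .nil)))) (.g (nat_lit 0) (.e (nat_lit 421708) (nat_lit 0) .nil) .nil)))) (.nd (nat_lit 9) 
(.lf (nat_lit 601363) (.g (nat_lit 458) (.e (nat_lit 565268) (nat_lit 5) (.e (nat_lit 73788) (nat_lit 45) (.e (nat_lit 1162) (nat_lit 86) (.e (nat_lit 49156) (nat_lit 0) (.e (nat_lit 3012) (nat_lit 187) (.e (nat_lit 458496) (nat_lit 9) .nil)))))) (.g (nat_lit 1) (.e (nat_lit 420554) (nat_lit 0) .nil) .nil))) 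
(.lf (nat_lit 601875) (.g (nat_lit 2327) (.e (nat_lit 663559) (nat_lit 0) (.e (nat_lit 1234) (nat_lit 91) (.e (nat_lit 90174) (nat_lit 14) (.e (nat_lit 180251) (nat_lit 10) (.e (nat_lit 573489) (nat_lit 14) .nil))))) (.g (nat_lit 0) (.e (nat_lit 422831) (nat_lit 0) .nil) .nil))))) (.nd (nat_lit 8) (.nd (nat_lit 9) 
(.lf (nat_lit 601235) (.g (nat_lit 2239) (.e (nat_lit 557108) (nat_lit 15) (.e (nat_lit 188452) (nat_lit 23) (.e (nat_lit 204846) (nat_lit 24) (.e (nat_lit 319533) (nat_lit 16) (.e (nat_lit 286764) (nat_lit 15) (.e (nat_lit 7936) (nat_lit 200) .nil)))))) (.g (nat_lit 1) (.e (nat_lit 420317) (nat_lit 0) .nil) .nil))) 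
(.lf (nat_lit 601747) (.g (nat_lit 4246) (.e (nat_lit 638995) (nat_lit 7) (.e (nat_lit 163978) (nat_lit 30) (.e (nat_lit 573489) (nat_lit 14) (.e (nat_lit 73754) (nat_lit 8) (.e (nat_lit 557105) (nat_lit 14) (.e (nat_lit 180251) (nat_lit 10) (.e (nat_lit 573475) (nat_lit 12) (.e (nat_lit 57503) (nat_lit 38) .nil)))))))) (.g (nat_lit 1) (.e (nat_lit 422231) (nat_lit 0) .nil) .nil)))) 
(.nd (nat_lit 9) 
(.lf (nat_lit 601491) (.g (nat_lit 1298) (.e (nat_lit 630820) (nat_lit 16) (.e (nat_lit 65619) (nat_lit 10) (.e (nat_lit 344160) (nat_lit 37) (.e (nat_lit 647195) (nat_lit 9) .nil)))) (.g (nat_lit 0) (.e (nat_lit 421331) (nat_lit 0) .nil) .nil))) 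
(.lf (nat_lit 602003) (.g (nat_lit 2520) (.e (nat_lit 663567) (nat_lit 4) (.e (nat_lit 65630) (nat_lit 14) (.e (nat_lit 401437) (nat_lit 9) (.e (nat_lit 426482) (nat_lit 27) (.e (nat_lit 336101) (nat_lit 9) .nil))))) (.g (nat_lit 0) (.e (nat_lit 422976) (nat_lit 0) .nil) .nil)))))) (.nd (nat_lit 7) (.nd (nat_lit 8) (.nd (nat_lit 9) 
(.lf (nat_lit 601171) (.g (nat_lit 2711) (.e (nat_lit 557107) (nat_lit 15) (.e (nat_lit 188439) (nat_lit 20) (.e (nat_lit 3270) (nat_lit 199) (.e (nat_lit 548898) (nat_lit 14) (.e (nat_lit 2988) (nat_lit 186) (.e (nat_lit 442374) (nat_lit 0) (.e (nat_lit 1856) (nat_lit 124) .nil))))))) (.g (nat_lit 1) (.e (nat_lit 420253) (nat_lit 0) .nil) .nil))) 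
(.lf (nat_lit 601683) (.g (nat_lit 1539) (.e (nat_lit 639021) (nat_lit 16) (.e (nat_lit 65617) (nat_lit 10) (.e (nat_lit 344164) (nat_lit 37) (.e (nat_lit 647190) (nat_lit 9) (.e (nat_lit 7936) (nat_lit 34) (.e (nat_lit 442403) (nat_lit 20) (.e (nat_lit 3390) (nat_lit 210) .nil))))))) (.g (nat_lit 1) (.e (nat_lit 421977) (nat_lit 0) .nil) .nil)))) (.nd (nat_lit 9) 
(.lf (nat_lit 601427) (.g (nat_lit 1175) (.e (nat_lit 614435) (nat_lit 11) (.e (nat_lit 16468) (nat_lit 13) (.e (nat_lit 483372) (nat_lit 21) (.e (nat_lit 319505) (nat_lit 10) .nil)))) (.g (nat_lit 0) (.e (nat_lit 421123) (nat_lit 0) .nil) .nil))) 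
(.lf (nat_lit 601939) (.g (nat_lit 1051) (.e (nat_lit 663567) (nat_lit 4) (.e (nat_lit 65624) (nat_lit 12) (.e (nat_lit 385093) (nat_lit 49) (.e (nat_lit 778326) (nat_lit 6) .nil)))) (.g (nat_lit 0) (.e (nat_lit 422912) (nat_lit 0) .nil) .nil))))) (.nd (nat_lit 8) (.nd (nat_lit 9) 
(.lf (nat_lit 601299) (.g (nat_lit 2144) (.e (nat_lit 565252) (nat_lit 0) (.e (nat_lit 1586) (nat_lit 111) (.e (nat_lit 360493) (nat_lit 27) (.e (nat_lit 819203) (nat_lit 0) (.e (nat_lit 3015) (nat_lit 187) (.e (nat_lit 450584) (nat_lit 9) .nil)))))) (.g (nat_lit 1) (.e (nat_lit 420431) (nat_lit 0) .nil) .nil))) 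
(.lf (nat_lit 601811) (.g (nat_lit 351) (.e (nat_lit 638998) (nat_lit 8) (.e (nat_lit 172123) (nat_lit 13) (.e (nat_lit 483404) (nat_lit 26) .nil))) (.g (nat_lit 0) (.e (nat_lit 422557) (nat_lit 0) .nil) .nil)))) (.nd (nat_lit 9) 
(.lf (nat_lit 601555) (.g (nat_lit 2269) (.e (nat_lit 630800) (nat_lit 7) (.e (nat_lit 163979) (nat_lit 30) (.e (nat_lit 573487) (nat_lit 14) (.e (nat_lit 73753) (nat_lit 8) (.e (nat_lit 557103) (nat_lit 14) .nil))))) (.g (nat_lit 0) (.e (nat_lit 421456) (nat_lit 0) .nil) .nil))) 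
(.lf (nat_lit 602067) (.g (nat_lit 1787) (.e (nat_lit 663568) (nat_lit 5) (.e (nat_lit 73782) (nat_lit 32) (.e (nat_lit 2856) (nat_lit 184) (.e (nat_lit 426544) (nat_lit 30) (.e (nat_lit 368384) (nat_lit 17) .nil))))) (.g (nat_lit 1) (.e (nat_lit 423042) (nat_lit 0) .nil) .nil))))))) (.nd (nat_lit 6) (.nd (nat_lit 7) (.nd (nat_lit 8) (.nd (nat_lit 9) 
(.lf (nat_lit 601139) (.g (nat_lit 2689) (.e (nat_lit 557105) (nat_lit 14) (.e (nat_lit 180252) (nat_lit 10) (.e (nat_lit 573489) (nat_lit 14) (.e (nat_lit 73755) (nat_lit 8) (.e (nat_lit 557119) (nat_lit 18) (.e (nat_lit 2796) (nat_lit 180) (.e (nat_lit 303106) (nat_lit 0) (.e (nat_lit 7936) (nat_lit 200) .nil)))))))) (.g (nat_lit 1) (.e (nat_lit 420196) (nat_lit 0) .nil) .nil))) 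
(.lf (nat_lit 601651) (.g (nat_lit 3069) (.e (nat_lit 639020) (nat_lit 16) (.e (nat_lit 65627) (nat_lit 13) (.e (nat_lit 393284) (nat_lit 24) (.e (nat_lit 434276) (nat_lit 39) (.e (nat_lit 663574) (nat_lit 9) (.e (nat_lit 2464) (nat_lit 157) (.e (nat_lit 3388) (nat_lit 210) .nil))))))) (.g (nat_lit 1) (.e (nat_lit 421819) (nat_lit 0) .nil) .nil)))) (.nd (nat_lit 9) 
(.lf (nat_lit 601395) (.g (nat_lit 1711) (.e (nat_lit 565269) (nat_lit 6) (.e (nat_lit 81943) (nat_lit 20) (.e (nat_lit 2390) (nat_lit 156) (.e (nat_lit 819221) (nat_lit 6) (.e (nat_lit 188440) (nat_lit 20) (.e (nat_lit 3289) (nat_lit 201) .nil)))))) (.g (nat_lit 1) (.e (nat_lit 420602) (nat_lit 0) .nil) .nil))) 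
(.lf (nat_lit 601907) (.g (nat_lit 3882) (.e (nat_lit 663565) (nat_lit 3) (.e (nat_lit 57480) (nat_lit 28) (.e (nat_lit 557109) (nat_lit 15) (.e (nat_lit 188450) (nat_lit 23) (.e (nat_lit 204850) (nat_lit 26) .nil))))) (.g (nat_lit 0) (.e (nat_lit 422878) (nat_lit 0) .nil) .nil))))) (.nd (nat_lit 8) (.nd (nat_lit 9) 
(.lf (nat_lit 601267) (.g (nat_lit 286) (.e (nat_lit 557119) (nat_lit 18) (.e (nat_lit 2797) (nat_lit 180) (.e (nat_lit 303145) (nat_lit 13) .nil))) (.g (nat_lit 0) (.e (nat_lit 420364) (nat_lit 0) .nil) .nil))) 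
(.lf (nat_lit 601779) (.g (nat_lit 4070) (.e (nat_lit 638996) (nat_lit 7) (.e (nat_lit 163978) (nat_lit 30) (.e (nat_lit 573487) (nat_lit 14) (.e (nat_lit 73753) (nat_lit 8) (.e (nat_lit 557105) (nat_lit 14) (.e (nat_lit 180251) (nat_lit 10) (.e (nat_lit 573475) (nat_lit 12) (.e (nat_lit 57503) (nat_lit 38) .nil)))))))) (.g (nat_lit 1) (.e (nat_lit 422450) (nat_lit 0) .nil) .nil)))) 
(.nd (nat_lit 9) 
(.lf (nat_lit 601523) (.g (nat_lit 2271) (.e (nat_lit 630821) (nat_lit 16) (.e (nat_lit 65617) (nat_lit 10) (.e (nat_lit 344156) (nat_lit 36) (.e (nat_lit 638998) (nat_lit 8) (.e (nat_lit 172112) (nat_lit 10) (.e (nat_lit 434266) (nat_lit 35) .nil)))))) (.g (nat_lit 1) (.e (nat_lit 421368) (nat_lit 0) .nil) .nil))) 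
(.lf (nat_lit 602035) (.g (nat_lit 2628) (.e (nat_lit 663567) (nat_lit 4) (.e (nat_lit 65630) (nat_lit 14) (.e (nat_lit 401454) (nat_lit 12) (.e (nat_lit 475155) (nat_lit 21) .nil)))) (.g (nat_lit 0) (.e (nat_lit 423008) (nat_lit 0) .nil) .nil)))))) (.nd (nat_lit 7) (.nd (nat_lit 8) (.nd (nat_lit 9) 
(.lf (nat_lit 601203) (.g (nat_lit 2331) (.e (nat_lit 557107) (nat_lit 15) (.e (nat_lit 188447) (nat_lit 22) (.e (nat_lit 196661) (nat_lit 12) (.e (nat_lit 57751) (nat_lit 201) (.e (nat_lit 2854) (nat_lit 184) (.e (nat_lit 426402) (nat_lit 15) (.e (nat_lit 1859) (nat_lit 124) .nil))))))) (.g (nat_lit 1) (.e (nat_lit 420285) (nat_lit 0) .nil) .nil))) 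
(.lf (nat_lit 601715) (.g (nat_lit 404) (.e (nat_lit 638985) (nat_lit 5) (.e (nat_lit 3016) (nat_lit 187) (.e (nat_lit 450591) (nat_lit 13) .nil))) (.g (nat_lit 0) (.e (nat_lit 422116) (nat_lit 0) .nil) .nil)))) (.nd (nat_lit 9) 
(.lf (nat_lit 601459) (.g (nat_lit 2252) (.e (nat_lit 622628) (nat_lit 13) (.e (nat_lit 2664) (nat_lit 167) (.e (nat_lit 196666) (nat_lit 13) (.e (nat_lit 65610) (nat_lit 10) (.e (nat_lit 344117) (nat_lit 21) .nil))))) (.g (nat_lit 0) (.e (nat_lit 421214) (nat_lit 0) .nil) .nil))) 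
(.lf (nat_lit 601971) (.g (nat_lit 1803) (.e (nat_lit 663567) (nat_lit 4) (.e (nat_lit 65628) (nat_lit 14) (.e (nat_lit 401438) (nat_lit 9) (.e (nat_lit 426542) (nat_lit 29) (.e (nat_lit 352286) (nat_lit 20) (.e (nat_lit 1999) (nat_lit 137) .nil)))))) (.g (nat_lit 1) (.e (nat_lit 422944) (nat_lit 0) .nil) .nil))))) (.nd (nat_lit 8) (.nd (nat_lit 9) 
(.lf (nat_lit 601331) (.g (nat_lit 1324) (.e (nat_lit 565267) (nat_lit 4) (.e (nat_lit 65616) (nat_lit 10) (.e (nat_lit 344183) (nat_lit 49) (.e (nat_lit 819221) (nat_lit 6) (.e (nat_lit 188441) (nat_lit 20) (.e (nat_lit 3289) (nat_lit 201) .nil)))))) (.g (nat_lit 1) (.e (nat_lit 420507) (nat_lit 0) .nil) .nil))) 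
(.lf (nat_lit 601843) (.g (nat_lit 1652) (.e (nat_lit 663552) (nat_lit 0) (.e (nat_lit 1669) (nat_lit 116) (.e (nat_lit 401454) (nat_lit 12) (.e (nat_lit 475209) (nat_lit 41) .nil)))) (.g (nat_lit 0) (.e (nat_lit 422780) (nat_lit 0) .nil) .nil)))) (.nd (nat_lit 9) 
(.lf (nat_lit 601587) (.g (nat_lit 1410) (.e (nat_lit 639007) (nat_lit 13) (.e (nat_lit 1586) (nat_lit 111) (.e (nat_lit 360450) (nat_lit 0) (.e (nat_lit 5107) (nat_lit 292) .nil)))) (.g (nat_lit 0) (.e (nat_lit 421615) (nat_lit 0) .nil) .nil))) 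
(.lf (nat_lit 602099) (.g (nat_lit 983) (.e (nat_lit 663569) (nat_lit 6) (.e (nat_lit 81956) (nat_lit 23) (.e (nat_lit 98313) (nat_lit 9) .nil))) (.g (nat_lit 0) (.e (nat_lit 423075) (nat_lit 0) .nil) .nil))))))))) (.nd (nat_lit 4) (.nd (nat_lit 5) (.nd (nat_lit 6) (.nd (nat_lit 7) (.nd (nat_lit 8) (.nd (nat_lit 9) 
(.lf (nat_lit 601099) (.g (nat_lit 2240) (.e (nat_lit 557105) (nat_lit 14) (.e (nat_lit 180252) (nat_lit 10) (.e (nat_lit 573481) (nat_lit 13) (.e (nat_lit 65568) (nat_lit 2) (.e (nat_lit 98048) (nat_lit 2) (.e (nat_lit 16393) (nat_lit 0) (.e (nat_lit 7936) (nat_lit 200) .nil))))))) (.g (nat_lit 1) (.e (nat_lit 420156) (nat_lit 0) .nil) .nil))) 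
(.lf (nat_lit 601611) (.g (nat_lit 2752) (.e (nat_lit 639016) (nat_lit 15) (.e (nat_lit 57476) (nat_lit 28) (.e (nat_lit 557105) (nat_lit 14) (.e (nat_lit 180252) (nat_lit 10) (.e (nat_lit 573489) (nat_lit 14) .nil))))) (.g (nat_lit 0) (.e (nat_lit 421690) (nat_lit 0) .nil) .nil)))) (.nd (nat_lit 9) 
(.lf (nat_lit 601355) (.g (nat_lit 1828) (.e (nat_lit 565267) (nat_lit 4) (.e (nat_lit 65620) (nat_lit 10) (.e (nat_lit 344183) (nat_lit 49) (.e (nat_lit 819219) (nat_lit 4) (.e (nat_lit 172106) (nat_lit 10) (.e (nat_lit 434241) (nat_lit 27) .nil)))))) (.g (nat_lit 1) (.e (nat_lit 420544) (nat_lit 0) .nil) .nil))) 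
(.lf (nat_lit 601867) (.g (nat_lit 2431) (.e (nat_lit 663557) (nat_lit 0) (.e (nat_lit 1234) (nat_lit 91) (.e (nat_lit 90174) (nat_lit 14) (.e (nat_lit 180251) (nat_lit 10) (.e (nat_lit 573489) (nat_lit 14) .nil))))) (.g (nat_lit 0) (.e (nat_lit 422822) (nat_lit 0) .nil) .nil))))) (.nd (nat_lit 8) (.nd (nat_lit 9) 
(.lf (nat_lit 601227) (.g (nat_lit 612) (.e (nat_lit 557107) (nat_lit 15) (.e (nat_lit 188452) (nat_lit 23) (.e (nat_lit 204880) (nat_lit 32) .nil))) (.g (nat_lit 0) (.e (nat_lit 420309) (nat_lit 0) .nil) .nil))) 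
(.lf (nat_lit 601739) (.g (nat_lit 1995) (.e (nat_lit 638995) (nat_lit 7) (.e (nat_lit 163977) (nat_lit 30) (.e (nat_lit 573489) (nat_lit 14) (.e (nat_lit 73755) (nat_lit 8) (.e (nat_lit 557105) (nat_lit 14) .nil))))) (.g (nat_lit 0) (.e (nat_lit 422195) (nat_lit 0) .nil) .nil)))) (.nd (nat_lit 9) 
(.lf (nat_lit 601483) (.g (nat_lit 717) (.e (nat_lit 630820) (nat_lit 16) (.e (nat_lit 65617) (nat_lit 10) (.e (nat_lit 344154) (nat_lit 35) .nil))) (.g (nat_lit 0) (.e (nat_lit 421321) (nat_lit 0) .nil) .nil))) 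
(.lf (nat_lit 601995) (.g (nat_lit 1805) (.e (nat_lit 663567) (nat_lit 4) (.e (nat_lit 65629) (nat_lit 14) (.e (nat_lit 401459) (nat_lit 13) (.e (nat_lit 483344) (nat_lit 17) .nil)))) (.g (nat_lit 0) (.e (nat_lit 422968) (nat_lit 0) .nil) .nil)))))) (.nd (nat_lit 7) (.nd (nat_lit 8) (.nd (nat_lit 9) 
(.lf (nat_lit 601163) (.g (nat_lit 1908) (.e (nat_lit 557105) (nat_lit 14) (.e (nat_lit 180252) (nat_lit 10) (.e (nat_lit 573503) (nat_lit 18) (.e (nat_lit 1348) (nat_lit 102) (.e (nat_lit 294656) (nat_lit 18) .nil))))) (.g (nat_lit 0) (.e (nat_lit 420228) (nat_lit 0) .nil) .nil))) 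
(.lf (nat_lit 601675) (.g (nat_lit 1715) (.e (nat_lit 639021) (nat_lit 16) (.e (nat_lit 65617) (nat_lit 10) (.e (nat_lit 344161) (nat_lit 37) (.e (nat_lit 647190) (nat_lit 9) (.e (nat_lit 7936) (nat_lit 34) .nil))))) (.g (nat_lit 0) (.e (nat_lit 421966) (nat_lit 0) .nil) .nil)))) (.nd (nat_lit 9) 
(.lf (nat_lit 601419) (.g (nat_lit 3010) (.e (nat_lit 614420) (nat_lit 6) (.e (nat_lit 188455) (nat_lit 24) (.e (nat_lit 229708) (nat_lit 256) (.e (nat_lit 57400) (nat_lit 10) (.e (nat_lit 319533) (nat_lit 16) (.e (nat_lit 286724) (nat_lit 0) (.e (nat_lit 1928) (nat_lit 131) .nil))))))) (.g (nat_lit 1) (.e (nat_lit 421095) (nat_lit 0) .nil) .nil))) 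
(.lf (nat_lit 601931) (.g (nat_lit 507) (.e (nat_lit 663567) (nat_lit 4) (.e (nat_lit 65617) (nat_lit 10) (.e (nat_lit 344167) (nat_lit 40) .nil))) (.g (nat_lit 0) (.e (nat_lit 422904) (nat_lit 0) .nil) .nil))))) (.nd (nat_lit 8) (.nd (nat_lit 9) 
(.lf (nat_lit 601291) (.g (nat_lit 1363) (.e (nat_lit 565251) (nat_lit 0) (.e (nat_lit 1586) (nat_lit 111) (.e (nat_lit 360451) (nat_lit 0) (.e (nat_lit 7607) (nat_lit 410) .nil)))) (.g (nat_lit 0) (.e (nat_lit 420410) (nat_lit 0) .nil) .nil))) 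
(.lf (nat_lit 601803) (.g (nat_lit 2919) (.e (nat_lit 638998) (nat_lit 8) (.e (nat_lit 172106) (nat_lit 10) (.e (nat_lit 434281) (nat_lit 40) (.e (nat_lit 671779) (nat_lit 11) (.e (nat_lit 24640) (nat_lit 10) (.e (nat_lit 344156) (nat_lit 36) .nil)))))) (.g (nat_lit 1) (.e (nat_lit 422547) (nat_lit 0) .nil) .nil)))) (.nd (nat_lit 9) 
(.lf (nat_lit 601547) (.g (nat_lit 2171) (.e (nat_lit 630799) (nat_lit 7) (.e (nat_lit 163977) (nat_lit 30) (.e (nat_lit 573489) (nat_lit 14) (.e (nat_lit 73755) (nat_lit 8) (.e (nat_lit 557104) (nat_lit 14) .nil))))) (.g (nat_lit 0) (.e (nat_lit 421412) (nat_lit 0) .nil) .nil))) 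
(.lf (nat_lit 602059) (.g (nat_lit 817) (.e (nat_lit 663568) (nat_lit 5) (.e (nat_lit 73781) (nat_lit 32) (.e (nat_lit 2855) (nat_lit 184) (.e (nat_lit 426546) (nat_lit 30) (.e (nat_lit 368384) (nat_lit 17) .nil))))) (.g (nat_lit 1) (.e (nat_lit 423034) (nat_lit 0) .nil) .nil))))))) (.nd (nat_lit 6) (.nd (nat_lit 7) (.nd (nat_lit 8) (.nd (nat_lit 9) 
(.lf (nat_lit 601131) (.g (nat_lit 2600) (.e (nat_lit 557105) (nat_lit 14) (.e (nat_lit 180252) (nat_lit 10) (.e (nat_lit 573487) (nat_lit 14) (.e (nat_lit 73746) (nat_lit 3) (.e (nat_lit 524032) (nat_lit 24) .nil))))) (.g (nat_lit 0) (.e (nat_lit 420188) (nat_lit 0) .nil) .nil))) 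
(.lf (nat_lit 601643) (.g (nat_lit 1731) (.e (nat_lit 639020) (nat_lit 16) (.e (nat_lit 65617) (nat_lit 10) (.e (nat_lit 344156) (nat_lit 36) (.e (nat_lit 638998) (nat_lit 8) (.e (nat_lit 172105) (nat_lit 10) .nil))))) (.g (nat_lit 0) (.e (nat_lit 421765) (nat_lit 0) .nil) .nil)))) (.nd (nat_lit 9) 
(.lf (nat_lit 601387) (.g (nat_lit 823) (.e (nat_lit 565268) (nat_lit 5) (.e (nat_lit 73792) (nat_lit 45) (.e (nat_lit 1163) (nat_lit 86) (.e (nat_lit 49156) (nat_lit 0) (.e (nat_lit 3026) (nat_lit 187) (.e (nat_lit 458496) (nat_lit 9) .nil)))))) (.g (nat_lit 1) (.e (nat_lit 420578) (nat_lit 0) .nil) .nil))) 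
(.lf (nat_lit 601899) (.g (nat_lit 2687) (.e (nat_lit 663565) (nat_lit 3) (.e (nat_lit 57480) (nat_lit 28) (.e (nat_lit 557107) (nat_lit 15) (.e (nat_lit 188450) (nat_lit 23) (.e (nat_lit 204857) (nat_lit 26) .nil))))) (.g (nat_lit 0) (.e (nat_lit 422870) (nat_lit 0) .nil) .nil))))) (.nd (nat_lit 8) (.nd (nat_lit 9) 
(.lf (nat_lit 601259) (.g (nat_lit 3362) (.e (nat_lit 557109) (nat_lit 15) (.e (nat_lit 188452) (nat_lit 23) (.e (nat_lit 204846) (nat_lit 24) (.e (nat_lit 319534) (nat_lit 16) (.e (nat_lit 286765) (nat_lit 15) (.e (nat_lit 7936) (nat_lit 200) .nil)))))) (.g (nat_lit 1) (.e (nat_lit 420342) (nat_lit 0) .nil) .nil))) 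
(.lf (nat_lit 601771) (.g (nat_lit 3110) (.e (nat_lit 638995) (nat_lit 7) (.e (nat_lit 163979) (nat_lit 30) (.e (nat_lit 573489) (nat_lit 14) (.e (nat_lit 73755) (nat_lit 8) (.e (nat_lit 557104) (nat_lit 14) (.e (nat_lit 180251) (nat_lit 10) (.e (nat_lit 573478) (nat_lit 12) (.e (nat_lit 57502) (nat_lit 38) .nil)))))))) (.g (nat_lit 1) (.e (nat_lit 422304) (nat_lit 0) .nil) .nil)))) 
(.nd (nat_lit 9) 
(.lf (nat_lit 601515) (.g (nat_lit 309) (.e (nat_lit 630821) (nat_lit 16) (.e (nat_lit 65610) (nat_lit 10) (.e (nat_lit 344160) (nat_lit 37) .nil))) (.g (nat_lit 0) (.e (nat_lit 421360) (nat_lit 0) .nil) .nil))) 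
(.lf (nat_lit 602027) (.g (nat_lit 1041) (.e (nat_lit 663567) (nat_lit 4) (.e (nat_lit 65630) (nat_lit 14) (.e (nat_lit 401438) (nat_lit 9) (.e (nat_lit 426542) (nat_lit 29) .nil)))) (.g (nat_lit 0) (.e (nat_lit 423000) (nat_lit 0) .nil) .nil)))))) (.nd (nat_lit 7) (.nd (nat_lit 8) (.nd (nat_lit 9) 
(.lf (nat_lit 601195) (.g (nat_lit 2072) (.e (nat_lit 557107) (nat_lit 15) (.e (nat_lit 188447) (nat_lit 22) (.e (nat_lit 196661) (nat_lit 12) (.e (nat_lit 57749) (nat_lit 201) (.e (nat_lit 2940) (nat_lit 184) (.e (nat_lit 426401) (nat_lit 15) (.e (nat_lit 1859) (nat_lit 124) .nil))))))) (.g (nat_lit 1) (.e (nat_lit 420277) (nat_lit 0) .nil) .nil))) 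
(.lf (nat_lit 601707) (.g (nat_lit 1737) (.e (nat_lit 639025) (nat_lit 20) (.e (nat_lit 131116) (nat_lit 9) (.e (nat_lit 335988) (nat_lit 1) (.e (nat_lit 57830) (nat_lit 250) (.e (nat_lit 7936) (nat_lit 166) .nil))))) (.g (nat_lit 0) (.e (nat_lit 422092) (nat_lit 0) .nil) .nil)))) (.nd (nat_lit 9) 
(.lf (nat_lit 601451) (.g (nat_lit 3236) (.e (nat_lit 622627) (nat_lit 13) (.e (nat_lit 2663) (nat_lit 167) (.e (nat_lit 196666) (nat_lit 13) (.e (nat_lit 65610) (nat_lit 10) (.e (nat_lit 344117) (nat_lit 21) .nil))))) (.g (nat_lit 0) (.e (nat_lit 421198) (nat_lit 0) .nil) .nil))) 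
(.lf (nat_lit 601963) (.g (nat_lit 2273) (.e (nat_lit 663567) (nat_lit 4) (.e (nat_lit 65628) (nat_lit 14) (.e (nat_lit 401437) (nat_lit 9) (.e (nat_lit 426546) (nat_lit 30) (.e (nat_lit 368384) (nat_lit 17) .nil))))) (.g (nat_lit 1) (.e (nat_lit 422936) (nat_lit 0) .nil) .nil))))) (.nd (nat_lit 8) (.nd (nat_lit 9) 
(.lf (nat_lit 601323) (.g (nat_lit 1794) (.e (nat_lit 565267) (nat_lit 4) (.e (nat_lit 65616) (nat_lit 10) (.e (nat_lit 344183) (nat_lit 49) (.e (nat_lit 819219) (nat_lit 4) (.e (nat_lit 172106) (nat_lit 10) (.e (nat_lit 434241) (nat_lit 27) .nil)))))) (.g (nat_lit 1) (.e (nat_lit 420499) (nat_lit 0) .nil) .nil))) 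
(.lf (nat_lit 601835) (.g (nat_lit 1048) (.e (nat_lit 639001) (nat_lit 10) (.e (nat_lit 188440) (nat_lit 20) (.e (nat_lit 3391) (nat_lit 210) (.e (nat_lit 639023) (nat_lit 18) (.e (nat_lit 81943) (nat_lit 20) (.e (nat_lit 1963) (nat_lit 134) .nil)))))) (.g (nat_lit 1) (.e (nat_lit 422767) (nat_lit 0) .nil) .nil)))) (.nd (nat_lit 9) 
(.lf (nat_lit 601579) (.g (nat_lit 1645) (.e (nat_lit 630802) (nat_lit 8) (.e (nat_lit 172113) (nat_lit 10) (.e (nat_lit 434276) (nat_lit 39) (.e (nat_lit 663583) (nat_lit 11) (.e (nat_lit 24641) (nat_lit 10) (.e (nat_lit 344154) (nat_lit 35) .nil)))))) (.g (nat_lit 1) (.e (nat_lit 421570) (nat_lit 0) .nil) .nil))) 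
(.lf (nat_lit 602091) (.g (nat_lit 1280) (.e (nat_lit 663569) (nat_lit 6) (.e (nat_lit 81935) (nat_lit 20) (.e (nat_lit 1994) (nat_lit 137) (.e (nat_lit 663567) (nat_lit 4) (.e (nat_lit 65601) (nat_lit 9) .nil))))) (.g (nat_lit 0) (.e (nat_lit 423067) (nat_lit 0) .nil) .nil)))))))) (.nd (nat_lit 5) (.nd (nat_lit 6) (.nd (nat_lit 7) (.nd (nat_lit 8) (.nd (nat_lit 9) 
(.lf (nat_lit 601115) (.g (nat_lit 2663) (.e (nat_lit 557105) (nat_lit 14) (.e (nat_lit 180252) (nat_lit 10) (.e (nat_lit 573482) (nat_lit 13) (.e (nat_lit 65568) (nat_lit 2) (.e (nat_lit 98048) (nat_lit 2) (.e (nat_lit 16388) (nat_lit 0) (.e (nat_lit 7936) (nat_lit 200) .nil))))))) (.g (nat_lit 1) (.e (nat_lit 420172) (nat_lit 0) .nil) .nil))) 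
(.lf (nat_lit 601627) (.g (nat_lit 1311) (.e (nat_lit 639020) (nat_lit 16) (.e (nat_lit 65571) (nat_lit 3) (.e (nat_lit 98374) (nat_lit 29) (.e (nat_lit 458496) (nat_lit 1) .nil)))) (.g (nat_lit 0) (.e (nat_lit 421718) (nat_lit 0) .nil) .nil)))) (.nd (nat_lit 9) 
(.lf (nat_lit 601371) (.g (nat_lit 1250) (.e (nat_lit 565268) (nat_lit 5) (.e (nat_lit 73789) (nat_lit 45) (.e (nat_lit 1162) (nat_lit 86) (.e (nat_lit 49157) (nat_lit 0) (.e (nat_lit 3026) (nat_lit 187) (.e (nat_lit 458496) (nat_lit 9) .nil)))))) (.g (nat_lit 1) (.e (nat_lit 420562) (nat_lit 0) .nil) .nil))) 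
(.lf (nat_lit 601883) (.g (nat_lit 2606) (.e (nat_lit 663564) (nat_lit 3) (.e (nat_lit 57478) (nat_lit 28) (.e (nat_lit 557109) (nat_lit 15) (.e (nat_lit 188452) (nat_lit 23) (.e (nat_lit 204855) (nat_lit 26) .nil))))) (.g (nat_lit 0) (.e (nat_lit 422846) (nat_lit 0) .nil) .nil))))) (.nd (nat_lit 8) (.nd (nat_lit 9) 
(.lf (nat_lit 601243) (.g (nat_lit 2560) (.e (nat_lit 557108) (nat_lit 15) (.e (nat_lit 188452) (nat_lit 23) (.e (nat_lit 204885) (nat_lit 33) (.e (nat_lit 401451) (nat_lit 12) (.e (nat_lit 483072) (nat_lit 29) .nil))))) (.g (nat_lit 1) (.e (nat_lit 420325) (nat_lit 0) .nil) .nil))) 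
(.lf (nat_lit 601755) (.g (nat_lit 3754) (.e (nat_lit 638995) (nat_lit 7) (.e (nat_lit 163979) (nat_lit 30) (.e (nat_lit 573487) (nat_lit 14) (.e (nat_lit 73753) (nat_lit 8) (.e (nat_lit 557103) (nat_lit 14) (.e (nat_lit 180250) (nat_lit 10) (.e (nat_lit 573478) (nat_lit 12) (.e (nat_lit 57502) (nat_lit 38) .nil)))))))) (.g (nat_lit 1) (.e (nat_lit 422277) (nat_lit 0) .nil) .nil)))) 
(.nd (nat_lit 9) 
(.lf (nat_lit 601499) (.g (nat_lit 363) (.e (nat_lit 630821) (nat_lit 16) (.e (nat_lit 65585) (nat_lit 7) (.e (nat_lit 319526) (nat_lit 15) (.e (nat_lit 278547) (nat_lit 8) (.e (nat_lit 303139) (nat_lit 10) .nil))))) (.g (nat_lit 0) (.e (nat_lit 421343) (nat_lit 0) .nil) .nil))) 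
(.lf (nat_lit 602011) (.g (nat_lit 1834) (.e (nat_lit 663567) (nat_lit 4) (.e (nat_lit 65630) (nat_lit 14) (.e (nat_lit 401437) (nat_lit 9) (.e (nat_lit 426538) (nat_lit 29) (.e (nat_lit 352285) (nat_lit 20) .nil))))) (.g (nat_lit 0) (.e (nat_lit 422984) (nat_lit 0) .nil) .nil)))))) (.nd (nat_lit 7) (.nd (nat_lit 8) (.nd (nat_lit 9) 
(.lf (nat_lit 601179) (.g (nat_lit 2438) (.e (nat_lit 557107) (nat_lit 15) (.e (nat_lit 188439) (nat_lit 20) (.e (nat_lit 3271) (nat_lit 199) (.e (nat_lit 548915) (nat_lit 20) (.e (nat_lit 188418) (nat_lit 0) (.e (nat_lit 1856) (nat_lit 124) .nil)))))) (.g (nat_lit 1) (.e (nat_lit 420261) (nat_lit 0) .nil) .nil))) 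
(.lf (nat_lit 601691) (.g (nat_lit 1748) (.e (nat_lit 639021) (nat_lit 16) (.e (nat_lit 65619) (nat_lit 10) (.e (nat_lit 344160) (nat_lit 37) (.e (nat_lit 647190) (nat_lit 9) (.e (nat_lit 7936) (nat_lit 35) (.e (nat_lit 450592) (nat_lit 14) .nil)))))) (.g (nat_lit 1) (.e (nat_lit 422009) (nat_lit 0) .nil) .nil)))) (.nd (nat_lit 9) 
(.lf (nat_lit 601435) (.g (nat_lit 2358) (.e (nat_lit 622621) (nat_lit 13) (.e (nat_lit 2668) (nat_lit 167) (.e (nat_lit 196666) (nat_lit 13) (.e (nat_lit 65610) (nat_lit 10) (.e (nat_lit 344117) (nat_lit 21) .nil))))) (.g (nat_lit 0) (.e (nat_lit 421155) (nat_lit 0) .nil) .nil))) 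
(.lf (nat_lit 601947) (.g (nat_lit 1979) (.e (nat_lit 663567) (nat_lit 4) (.e (nat_lit 65628) (nat_lit 14) (.e (nat_lit 401437) (nat_lit 9) (.e (nat_lit 426495) (nat_lit 27) .nil)))) (.g (nat_lit 0) (.e (nat_lit 422920) (nat_lit 0) .nil) .nil))))) (.nd (nat_lit 8) (.nd (nat_lit 9) 
(.lf (nat_lit 601307) (.g (nat_lit 2081) (.e (nat_lit 565252) (nat_lit 0) (.e (nat_lit 1595) (nat_lit 111) (.e (nat_lit 360493) (nat_lit 27) (.e (nat_lit 819203) (nat_lit 0) (.e (nat_lit 3015) (nat_lit 187) (.e (nat_lit 450584) (nat_lit 9) .nil)))))) (.g (nat_lit 1) (.e (nat_lit 420448) (nat_lit 0) .nil) .nil))) 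
(.lf (nat_lit 601819) (.g (nat_lit 2487) (.e (nat_lit 638998) (nat_lit 8) (.e (nat_lit 172123) (nat_lit 13) (.e (nat_lit 483408) (nat_lit 26) (.e (nat_lit 385113) (nat_lit 53) (.e (nat_lit 811033) (nat_lit 11) (.e (nat_lit 682) (nat_lit 58) .nil)))))) (.g (nat_lit 1) (.e (nat_lit 422576) (nat_lit 0) .nil) .nil)))) (.nd (nat_lit 9) 
(.lf (nat_lit 601563) (.g (nat_lit 353) (.e (nat_lit 630802) (nat_lit 8) (.e (nat_lit 172079) (nat_lit 7) (.e (nat_lit 409635) (nat_lit 14) .nil))) (.g (nat_lit 0) (.e (nat_lit 421513) (nat_lit 0) .nil) .nil))) 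
(.lf (nat_lit 602075) (.g (nat_lit 657) (.e (nat_lit 663569) (nat_lit 6) (.e (nat_lit 81922) (nat_lit 0) (.e (nat_lit 3632) (nat_lit 227) (.e (nat_lit 778327) (nat_lit 6) .nil)))) (.g (nat_lit 0) (.e (nat_lit 423050) (nat_lit 0) .nil) .nil))))))) (.nd (nat_lit 6) (.nd (nat_lit 7) (.nd (nat_lit 8) (.nd (nat_lit 9) 
(.lf (nat_lit 601147) (.g (nat_lit 3924) (.e (nat_lit 557105) (nat_lit 14) (.e (nat_lit 180252) (nat_lit 10) (.e (nat_lit 573489) (nat_lit 14) (.e (nat_lit 73755) (nat_lit 8) (.e (nat_lit 557119) (nat_lit 18) (.e (nat_lit 2797) (nat_lit 180) (.e (nat_lit 303111) (nat_lit 0) (.e (nat_lit 7936) (nat_lit 200) .nil)))))))) (.g (nat_lit 1) (.e (nat_lit 420204) (nat_lit 0) .nil) .nil))) 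
(.lf (nat_lit 601659) (.g (nat_lit 2160) (.e (nat_lit 639021) (nat_lit 16) (.e (nat_lit 65586) (nat_lit 7) (.e (nat_lit 319534) (nat_lit 16) (.e (nat_lit 286762) (nat_lit 14) (.e (nat_lit 401448) (nat_lit 10) .nil))))) (.g (nat_lit 0) (.e (nat_lit 421843) (nat_lit 0) .nil) .nil)))) (.nd (nat_lit 9) 
(.lf (nat_lit 601403) (.g (nat_lit 3319) (.e (nat_lit 598059) (nat_lit 16) (.e (nat_lit 172064) (nat_lit 2) (.e (nat_lit 196666) (nat_lit 13) (.e (nat_lit 65610) (nat_lit 10) (.e (nat_lit 344117) (nat_lit 21) (.e (nat_lit 516106) (nat_lit 0) (.e (nat_lit 3340) (nat_lit 205) .nil))))))) (.g (nat_lit 1) (.e (nat_lit 420755) (nat_lit 0) .nil) .nil))) 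
(.lf (nat_lit 601915) (.g (nat_lit 4737) (.e (nat_lit 663565) (nat_lit 3) (.e (nat_lit 57480) (nat_lit 28) (.e (nat_lit 557109) (nat_lit 15) (.e (nat_lit 188452) (nat_lit 23) (.e (nat_lit 204860) (nat_lit 26) .nil))))) (.g (nat_lit 0) (.e (nat_lit 422886) (nat_lit 0) .nil) .nil))))) (.nd (nat_lit 8) (.nd (nat_lit 9) 
(.lf (nat_lit 601275) (.g (nat_lit 593) (.e (nat_lit 557119) (nat_lit 18) (.e (nat_lit 2798) (nat_lit 180) (.e (nat_lit 303142) (nat_lit 12) .nil))) (.g (nat_lit 0) (.e (nat_lit 420387) (nat_lit 0) .nil) .nil))) 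
(.lf (nat_lit 601787) (.g (nat_lit 4860) (.e (nat_lit 638996) (nat_lit 7) (.e (nat_lit 163978) (nat_lit 30) (.e (nat_lit 573489) (nat_lit 14) (.e (nat_lit 73755) (nat_lit 8) (.e (nat_lit 557105) (nat_lit 14) (.e (nat_lit 180252) (nat_lit 10) (.e (nat_lit 573474) (nat_lit 12) (.e (nat_lit 65280) (nat_lit 38) .nil)))))))) (.g (nat_lit 1) (.e (nat_lit 422470) (nat_lit 0) .nil) .nil)))) 
(.nd (nat_lit 9) 
(.lf (nat_lit 601531) (.g (nat_lit 1764) (.e (nat_lit 630821) (nat_lit 16) (.e (nat_lit 65617) (nat_lit 10) (.e (nat_lit 344161) (nat_lit 37) (.e (nat_lit 647195) (nat_lit 9) (.e (nat_lit 426) (nat_lit 32) (.e (nat_lit 426275) (nat_lit 10) (.e (nat_lit 434266) (nat_lit 35) .nil))))))) (.g (nat_lit 1) (.e (nat_lit 421377) (nat_lit 0) .nil) .nil))) 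
(.lf (nat_lit 602043) (.g (nat_lit 1789) (.e (nat_lit 663567) (nat_lit 4) (.e (nat_lit 65630) (nat_lit 14) (.e (nat_lit 401458) (nat_lit 13) (.e (nat_lit 483395) (nat_lit 24) (.e (nat_lit 352000) (nat_lit 39) .nil))))) (.g (nat_lit 0) (.e (nat_lit 423016) (nat_lit 0) .nil) .nil)))))) (.nd (nat_lit 7) (.nd (nat_lit 8) (.nd (nat_lit 9) 
(.lf (nat_lit 601211) (.g (nat_lit 2628) (.e (nat_lit 557107) (nat_lit 15) (.e (nat_lit 188447) (nat_lit 22) (.e (nat_lit 196666) (nat_lit 13) (.e (nat_lit 65639) (nat_lit 15) (.e (nat_lit 3711) (nat_lit 227) (.e (nat_lit 778316) (nat_lit 3) (.e (nat_lit 57477) (nat_lit 28) .nil))))))) (.g (nat_lit 1) (.e (nat_lit 420293) (nat_lit 0) .nil) .nil))) 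
(.lf (nat_lit 601723) (.g (nat_lit 406) (.e (nat_lit 638986) (nat_lit 5) (.e (nat_lit 3016) (nat_lit 187) (.e (nat_lit 450592) (nat_lit 14) .nil))) (.g (nat_lit 0) (.e (nat_lit 422143) (nat_lit 0) .nil) .nil)))) (.nd (nat_lit 9) 
(.lf (nat_lit 601467) (.g (nat_lit 809) (.e (nat_lit 622635) (nat_lit 16) (.e (nat_lit 163978) (nat_lit 30) (.e (nat_lit 573485) (nat_lit 13) .nil))) (.g (nat_lit 0) (.e (nat_lit 421271) (nat_lit 0) .nil) .nil))) 
(.lf (nat_lit 601979) (.g (nat_lit 1542) (.e (nat_lit 663567) (nat_lit 4) (.e (nat_lit 65628) (nat_lit 14) (.e (nat_lit 401457) (nat_lit 13) (.e (nat_lit 483387) (nat_lit 23) .nil)))) (.g (nat_lit 0) (.e (nat_lit 422952) (nat_lit 0) .nil) .nil))))) (.nd (nat_lit 8) (.nd (nat_lit 9) 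
(.lf (nat_lit 601339) (.g (nat_lit 1303) (.e (nat_lit 565267) (nat_lit 4) (.e (nat_lit 65617) (nat_lit 10) (.e (nat_lit 344183) (nat_lit 49) (.e (nat_lit 819221) (nat_lit 6) (.e (nat_lit 188435) (nat_lit 20) (.e (nat_lit 3289) (nat_lit 201) .nil)))))) (.g (nat_lit 1) (.e (nat_lit 420518) (nat_lit 0) .nil) .nil))) 
(.lf (nat_lit 601851) (.g (nat_lit 2995) (.e (nat_lit 663554) (nat_lit 0) (.e (nat_lit 1669) (nat_lit 116) (.e (nat_lit 401454) (nat_lit 12) (.e (nat_lit 475200) (nat_lit 40) .nil)))) (.g (nat_lit 0) (.e (nat_lit 422790) (nat_lit 0) .nil) .nil)))) (.nd (nat_lit 9) 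
(.lf (nat_lit 601595) (.g (nat_lit 464) (.e (nat_lit 639008) (nat_lit 13) (.e (nat_lit 1586) (nat_lit 111) (.e (nat_lit 368384) (nat_lit 0) .nil))) (.g (nat_lit 0) (.e (nat_lit 421656) (nat_lit 0) .nil) .nil))) 
(.lf (nat_lit 602107) (.g (nat_lit 515) (.e (nat_lit 663580) (nat_lit 9) (.e (nat_lit 2663) (nat_lit 167) (.e (nat_lit 204544) (nat_lit 2) .nil))) (.g (nat_lit 0) (.e (nat_lit 423126) (nat_lit 0) .nil) .nil)))))))))) (.nd (nat_lit 3) (.nd (nat_lit 4) (.nd (nat_lit 5) (.nd (nat_lit 6) (.nd (nat_lit 7) (.nd (nat_lit 8) (.nd (nat_lit 9) 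
(.lf (nat_lit 601095) (.g (nat_lit 2238) (.e (nat_lit 557105) (nat_lit 14) (.e (nat_lit 180252) (nat_lit 10) (.e (nat_lit 573481) (nat_lit 13) (.e (nat_lit 65568) (nat_lit 2) (.e (nat_lit 98048) (nat_lit 2) (.e (nat_lit 16390) (nat_lit 0) (.e (nat_lit 7936) (nat_lit 200) .nil))))))) (.g (nat_lit 1) (.e (nat_lit 420152) (nat_lit 0) .nil) .nil))) 
(.lf (nat_lit 601607) (.g (nat_lit 1048) (.e (nat_lit 639008) (nat_lit 13) (.e (nat_lit 1598) (nat_lit 111) (.e (nat_lit 360480) (nat_lit 14) (.e (nat_lit 638986) (nat_lit 5) (.e (nat_lit 3022) (nat_lit 187) (.e (nat_lit 450592) (nat_lit 14) .nil)))))) (.g (nat_lit 1) (.e (nat_lit 421683) (nat_lit 0) .nil) .nil)))) (.nd (nat_lit 9) 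
(.lf (nat_lit 601351) (.g (nat_lit 1311) (.e (nat_lit 565267) (nat_lit 4) (.e (nat_lit 65619) (nat_lit 10) (.e (nat_lit 344183) (nat_lit 49) (.e (nat_lit 819221) (nat_lit 6) (.e (nat_lit 188439) (nat_lit 20) (.e (nat_lit 3288) (nat_lit 201) .nil)))))) (.g (nat_lit 1) (.e (nat_lit 420539) (nat_lit 0) .nil) .nil))) 
(.lf (nat_lit 601863) (.g (nat_lit 2431) (.e (nat_lit 663556) (nat_lit 0) (.e (nat_lit 1234) (nat_lit 91) (.e (nat_lit 90174) (nat_lit 14) (.e (nat_lit 180251) (nat_lit 10) (.e (nat_lit 573489) (nat_lit 14) .nil))))) (.g (nat_lit 0) (.e (nat_lit 422816) (nat_lit 0) .nil) .nil))))) (.nd (nat_lit 8) (.nd (nat_lit 9) 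
(.lf (nat_lit 601223) (.g (nat_lit 2738) (.e (nat_lit 557107) (nat_lit 15) (.e (nat_lit 188450) (nat_lit 23) (.e (nat_lit 204883) (nat_lit 33) (.e (nat_lit 401453) (nat_lit 12) (.e (nat_lit 475185) (nat_lit 29) .nil))))) (.g (nat_lit 1) (.e (nat_lit 420305) (nat_lit 0) .nil) .nil))) 
(.lf (nat_lit 601735) (.g (nat_lit 5407) (.e (nat_lit 638995) (nat_lit 7) (.e (nat_lit 163977) (nat_lit 30) (.e (nat_lit 573487) (nat_lit 14) (.e (nat_lit 73753) (nat_lit 8) (.e (nat_lit 557105) (nat_lit 14) (.e (nat_lit 180252) (nat_lit 10) (.e (nat_lit 573475) (nat_lit 12) (.e (nat_lit 57503) (nat_lit 38) .nil)))))))) (.g (nat_lit 1) (.e (nat_lit 422191) (nat_lit 0) .nil) .nil)))) 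
(.nd (nat_lit 9) 
(.lf (nat_lit 601479) (.g (nat_lit 509) (.e (nat_lit 630820) (nat_lit 16) (.e (nat_lit 65586) (nat_lit 7) (.e (nat_lit 319524) (nat_lit 14) .nil))) (.g (nat_lit 0) (.e (nat_lit 421316) (nat_lit 0) .nil) .nil))) 
(.lf (nat_lit 601991) (.g (nat_lit 1977) (.e (nat_lit 663567) (nat_lit 4) (.e (nat_lit 65628) (nat_lit 14) (.e (nat_lit 401459) (nat_lit 13) (.e (nat_lit 483389) (nat_lit 23) .nil)))) (.g (nat_lit 0) (.e (nat_lit 422964) (nat_lit 0) .nil) .nil)))))) (.nd (nat_lit 7) (.nd (nat_lit 8) (.nd (nat_lit 9) 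
(.lf (nat_lit 601159) (.g (nat_lit 1784) (.e (nat_lit 557105) (nat_lit 14) (.e (nat_lit 180252) (nat_lit 10) (.e (nat_lit 573489) (nat_lit 14) (.e (nat_lit 73755) (nat_lit 8) (.e (nat_lit 557119) (nat_lit 18) (.e (nat_lit 2808) (nat_lit 180) (.e (nat_lit 303107) (nat_lit 0) (.e (nat_lit 7936) (nat_lit 200) .nil)))))))) (.g (nat_lit 1) (.e (nat_lit 420216) (nat_lit 0) .nil) .nil))) 
(.lf (nat_lit 601671) (.g (nat_lit 2003) (.e (nat_lit 639021) (nat_lit 16) (.e (nat_lit 65610) (nat_lit 10) (.e (nat_lit 344160) (nat_lit 37) (.e (nat_lit 647195) (nat_lit 9) (.e (nat_lit 7936) (nat_lit 37) .nil))))) (.g (nat_lit 0) (.e (nat_lit 421904) (nat_lit 0) .nil) .nil)))) (.nd (nat_lit 9) 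
(.lf (nat_lit 601415) (.g (nat_lit 1871) (.e (nat_lit 614417) (nat_lit 4) (.e (nat_lit 172079) (nat_lit 7) (.e (nat_lit 409645) (nat_lit 18) (.e (nat_lit 303115) (nat_lit 1) (.e (nat_lit 164178) (nat_lit 154) .nil))))) (.g (nat_lit 0) (.e (nat_lit 420965) (nat_lit 0) .nil) .nil))) 
(.lf (nat_lit 601927) (.g (nat_lit 1053) (.e (nat_lit 663567) (nat_lit 4) (.e (nat_lit 65609) (nat_lit 10) (.e (nat_lit 344169) (nat_lit 40) (.e (nat_lit 671764) (nat_lit 6) (.e (nat_lit 81933) (nat_lit 20) .nil))))) (.g (nat_lit 0) (.e (nat_lit 422900) (nat_lit 0) .nil) .nil))))) (.nd (nat_lit 8) (.nd (nat_lit 9) 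
(.lf (nat_lit 601287) (.g (nat_lit 1444) (.e (nat_lit 557119) (nat_lit 18) (.e (nat_lit 2787) (nat_lit 179) (.e (nat_lit 294959) (nat_lit 13) (.e (nat_lit 393221) (nat_lit 0) (.e (nat_lit 6209) (nat_lit 333) (.e (nat_lit 57816) (nat_lit 246) (.e (nat_lit 65280) (nat_lit 89) .nil))))))) (.g (nat_lit 1) (.e (nat_lit 420405) (nat_lit 0) .nil) .nil))) 
(.lf (nat_lit 601799) (.g (nat_lit 195) (.e (nat_lit 638997) (nat_lit 8) (.e (nat_lit 172080) (nat_lit 7) (.e (nat_lit 409639) (nat_lit 15) .nil))) (.g (nat_lit 0) (.e (nat_lit 422538) (nat_lit 0) .nil) .nil)))) (.nd (nat_lit 9) 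
(.lf (nat_lit 601543) (.g (nat_lit 1049) (.e (nat_lit 630821) (nat_lit 16) (.e (nat_lit 65619) (nat_lit 10) (.e (nat_lit 344157) (nat_lit 36) (.e (nat_lit 638999) (nat_lit 8) (.e (nat_lit 172106) (nat_lit 10) .nil))))) (.g (nat_lit 0) (.e (nat_lit 421389) (nat_lit 0) .nil) .nil))) 
(.lf (nat_lit 602055) (.g (nat_lit 3788) (.e (nat_lit 663567) (nat_lit 4) (.e (nat_lit 65651) (nat_lit 27) (.e (nat_lit 426012) (nat_lit 0) (.e (nat_lit 7581) (nat_lit 405) (.e (nat_lit 57476) (nat_lit 28) (.e (nat_lit 557067) (nat_lit 9) (.e (nat_lit 2975) (nat_lit 185) (.e (nat_lit 434276) (nat_lit 39) .nil)))))))) (.g (nat_lit 1) (.e (nat_lit 423028) (nat_lit 0) .nil) .nil))))))) 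
(.nd (nat_lit 6) (.nd (nat_lit 7) (.nd (nat_lit 8) (.nd (nat_lit 9) 
(.lf (nat_lit 601127) (.g (nat_lit 2987) (.e (nat_lit 557105) (nat_lit 14) (.e (nat_lit 180252) (nat_lit 10) (.e (nat_lit 573482) (nat_lit 13) (.e (nat_lit 65568) (nat_lit 2) (.e (nat_lit 98048) (nat_lit 2) (.e (nat_lit 16401) (nat_lit 0) (.e (nat_lit 7936) (nat_lit 200) .nil))))))) (.g (nat_lit 1) (.e (nat_lit 420184) (nat_lit 0) .nil) .nil))) 
(.lf (nat_lit 601639) (.g (nat_lit 1222) (.e (nat_lit 639020) (nat_lit 16) (.e (nat_lit 65586) (nat_lit 7) (.e (nat_lit 319531) (nat_lit 16) (.e (nat_lit 286727) (nat_lit 0) .nil)))) (.g (nat_lit 0) (.e (nat_lit 421732) (nat_lit 0) .nil) .nil)))) (.nd (nat_lit 9) 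
(.lf (nat_lit 601383) (.g (nat_lit 877) (.e (nat_lit 565268) (nat_lit 5) (.e (nat_lit 73792) (nat_lit 45) (.e (nat_lit 1162) (nat_lit 86) (.e (nat_lit 49156) (nat_lit 0) (.e (nat_lit 3026) (nat_lit 187) (.e (nat_lit 458496) (nat_lit 9) .nil)))))) (.g (nat_lit 1) (.e (nat_lit 420574) (nat_lit 0) .nil) .nil))) 
(.lf (nat_lit 601895) (.g (nat_lit 2257) (.e (nat_lit 663565) (nat_lit 3) (.e (nat_lit 57480) (nat_lit 28) (.e (nat_lit 557107) (nat_lit 15) (.e (nat_lit 188447) (nat_lit 22) (.e (nat_lit 196666) (nat_lit 13) .nil))))) (.g (nat_lit 0) (.e (nat_lit 422866) (nat_lit 0) .nil) .nil))))) (.nd (nat_lit 8) (.nd (nat_lit 9) 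
(.lf (nat_lit 601255) (.g (nat_lit 2959) (.e (nat_lit 557109) (nat_lit 15) (.e (nat_lit 188452) (nat_lit 23) (.e (nat_lit 204846) (nat_lit 24) (.e (nat_lit 319533) (nat_lit 16) (.e (nat_lit 286766) (nat_lit 15) (.e (nat_lit 7936) (nat_lit 200) .nil)))))) (.g (nat_lit 1) (.e (nat_lit 420338) (nat_lit 0) .nil) .nil))) 
(.lf (nat_lit 601767) (.g (nat_lit 5351) (.e (nat_lit 638995) (nat_lit 7) (.e (nat_lit 163979) (nat_lit 30) (.e (nat_lit 573489) (nat_lit 14) (.e (nat_lit 73754) (nat_lit 8) (.e (nat_lit 557105) (nat_lit 14) (.e (nat_lit 180251) (nat_lit 10) (.e (nat_lit 573475) (nat_lit 12) (.e (nat_lit 57503) (nat_lit 38) .nil)))))))) (.g (nat_lit 1) (.e (nat_lit 422300) (nat_lit 0) .nil) .nil)))) 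
(.nd (nat_lit 9) 
(.lf (nat_lit 601511) (.g (nat_lit 1569) (.e (nat_lit 630821) (nat_lit 16) (.e (nat_lit 65610) (nat_lit 10) (.e (nat_lit 344156) (nat_lit 36) (.e (nat_lit 638998) (nat_lit 8) (.e (nat_lit 172116) (nat_lit 10) .nil))))) (.g (nat_lit 0) (.e (nat_lit 421356) (nat_lit 0) .nil) .nil))) 
(.lf (nat_lit 602023) (.g (nat_lit 2382) (.e (nat_lit 663567) (nat_lit 4) (.e (nat_lit 65630) (nat_lit 14) (.e (nat_lit 401437) (nat_lit 9) (.e (nat_lit 426546) (nat_lit 30) (.e (nat_lit 368384) (nat_lit 17) .nil))))) (.g (nat_lit 1) (.e (nat_lit 422996) (nat_lit 0) .nil) .nil)))))) (.nd (nat_lit 7) (.nd (nat_lit 8) (.nd (nat_lit 9) 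
(.lf (nat_lit 601191) (.g (nat_lit 3029) (.e (nat_lit 557107) (nat_lit 15) (.e (nat_lit 188440) (nat_lit 20) (.e (nat_lit 3307) (nat_lit 202) (.e (nat_lit 573469) (nat_lit 11) (.e (nat_lit 16458) (nat_lit 12) (.e (nat_lit 475183) (nat_lit 29) .nil)))))) (.g (nat_lit 1) (.e (nat_lit 420273) (nat_lit 0) .nil) .nil))) 
(.lf (nat_lit 601703) (.g (nat_lit 761) (.e (nat_lit 639023) (nat_lit 18) (.e (nat_lit 81959) (nat_lit 24) (.e (nat_lit 123153) (nat_lit 250) .nil))) (.g (nat_lit 0) (.e (nat_lit 422084) (nat_lit 0) .nil) .nil)))) (.nd (nat_lit 9) 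
(.lf (nat_lit 601447) (.g (nat_lit 5291) (.e (nat_lit 622626) (nat_lit 13) (.e (nat_lit 2663) (nat_lit 167) (.e (nat_lit 196666) (nat_lit 13) (.e (nat_lit 65610) (nat_lit 10) (.e (nat_lit 344117) (nat_lit 21) (.e (nat_lit 516151) (nat_lit 9) (.e (nat_lit 426042) (nat_lit 0) (.e (nat_lit 3371) (nat_lit 208) .nil)))))))) (.g (nat_lit 1) (.e (nat_lit 421192) (nat_lit 0) .nil) .nil))) 
(.lf (nat_lit 601959) (.g (nat_lit 2010) (.e (nat_lit 663567) (nat_lit 4) (.e (nat_lit 65628) (nat_lit 14) (.e (nat_lit 401437) (nat_lit 9) (.e (nat_lit 426542) (nat_lit 29) (.e (nat_lit 352281) (nat_lit 20) .nil))))) (.g (nat_lit 0) (.e (nat_lit 422932) (nat_lit 0) .nil) .nil))))) (.nd (nat_lit 8) (.nd (nat_lit 9) 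
(.lf (nat_lit 601319) (.g (nat_lit 1042) (.e (nat_lit 565267) (nat_lit 4) (.e (nat_lit 65611) (nat_lit 10) (.e (nat_lit 344183) (nat_lit 49) (.e (nat_lit 819221) (nat_lit 6) (.e (nat_lit 188439) (nat_lit 20) (.e (nat_lit 3288) (nat_lit 201) .nil)))))) (.g (nat_lit 1) (.e (nat_lit 420493) (nat_lit 0) .nil) .nil))) 
(.lf (nat_lit 601831) (.g (nat_lit 481) (.e (nat_lit 639001) (nat_lit 10) (.e (nat_lit 188434) (nat_lit 20) (.e (nat_lit 3389) (nat_lit 210) .nil))) (.g (nat_lit 0) (.e (nat_lit 422756) (nat_lit 0) .nil) .nil)))) (.nd (nat_lit 9) 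
(.lf (nat_lit 601575) (.g (nat_lit 985) (.e (nat_lit 630802) (nat_lit 8) (.e (nat_lit 172097) (nat_lit 9) (.e (nat_lit 426109) (nat_lit 1) (.e (nat_lit 164319) (nat_lit 228) .nil)))) (.g (nat_lit 0) (.e (nat_lit 421564) (nat_lit 0) .nil) .nil))) 
(.lf (nat_lit 602087) (.g (nat_lit 928) (.e (nat_lit 663569) (nat_lit 6) (.e (nat_lit 81924) (nat_lit 0) (.e (nat_lit 3632) (nat_lit 227) (.e (nat_lit 778327) (nat_lit 6) (.e (nat_lit 81934) (nat_lit 20) .nil))))) (.g (nat_lit 0) (.e (nat_lit 423063) (nat_lit 0) .nil) .nil)))))))) (.nd (nat_lit 5) (.nd (nat_lit 6) (.nd (nat_lit 7) (.nd (nat_lit 8) (.nd (nat_lit 9) 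
(.lf (nat_lit 601111) (.g (nat_lit 3343) (.e (nat_lit 557105) (nat_lit 14) (.e (nat_lit 180252) (nat_lit 10) (.e (nat_lit 573482) (nat_lit 13) (.e (nat_lit 65568) (nat_lit 2) (.e (nat_lit 98048) (nat_lit 2) (.e (nat_lit 16385) (nat_lit 0) (.e (nat_lit 3276) (nat_lit 200) .nil))))))) (.g (nat_lit 1) (.e (nat_lit 420168) (nat_lit 0) .nil) .nil))) 
(.lf (nat_lit 601623) (.g (nat_lit 1819) (.e (nat_lit 639020) (nat_lit 16) (.e (nat_lit 65571) (nat_lit 3) (.e (nat_lit 98372) (nat_lit 29) (.e (nat_lit 458496) (nat_lit 3) .nil)))) (.g (nat_lit 0) (.e (nat_lit 421714) (nat_lit 0) .nil) .nil)))) (.nd (nat_lit 9) 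
(.lf (nat_lit 601367) (.g (nat_lit 256) (.e (nat_lit 565268) (nat_lit 5) (.e (nat_lit 73789) (nat_lit 45) (.e (nat_lit 1160) (nat_lit 86) .nil))) (.g (nat_lit 0) (.e (nat_lit 420558) (nat_lit 0) .nil) .nil))) 
(.lf (nat_lit 601879) (.g (nat_lit 1494) (.e (nat_lit 671488) (nat_lit 0) (.e (nat_lit 1255) (nat_lit 92) (.e (nat_lit 98365) (nat_lit 26) (.e (nat_lit 426327) (nat_lit 13) (.e (nat_lit 491264) (nat_lit 10) .nil))))) (.g (nat_lit 0) (.e (nat_lit 422836) (nat_lit 0) .nil) .nil))))) (.nd (nat_lit 8) (.nd (nat_lit 9) 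
(.lf (nat_lit 601239) (.g (nat_lit 3086) (.e (nat_lit 557108) (nat_lit 15) (.e (nat_lit 188452) (nat_lit 23) (.e (nat_lit 204846) (nat_lit 24) (.e (nat_lit 319534) (nat_lit 16) (.e (nat_lit 286764) (nat_lit 15) (.e (nat_lit 7936) (nat_lit 200) .nil)))))) (.g (nat_lit 1) (.e (nat_lit 420321) (nat_lit 0) .nil) .nil))) 
(.lf (nat_lit 601751) (.g (nat_lit 3776) (.e (nat_lit 638995) (nat_lit 7) (.e (nat_lit 163978) (nat_lit 30) (.e (nat_lit 573489) (nat_lit 14) (.e (nat_lit 73755) (nat_lit 8) (.e (nat_lit 557103) (nat_lit 14) (.e (nat_lit 180250) (nat_lit 10) (.e (nat_lit 573475) (nat_lit 12) (.e (nat_lit 57503) (nat_lit 38) .nil)))))))) (.g (nat_lit 1) (.e (nat_lit 422235) (nat_lit 0) .nil) .nil)))) 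
(.nd (nat_lit 9) 
(.lf (nat_lit 601495) (.g (nat_lit 1840) (.e (nat_lit 630821) (nat_lit 16) (.e (nat_lit 65583) (nat_lit 7) (.e (nat_lit 319530) (nat_lit 16) (.e (nat_lit 286727) (nat_lit 0) (.e (nat_lit 6646) (nat_lit 357) .nil))))) (.g (nat_lit 0) (.e (nat_lit 421339) (nat_lit 0) .nil) .nil))) 
(.lf (nat_lit 602007) (.g (nat_lit 2263) (.e (nat_lit 663567) (nat_lit 4) (.e (nat_lit 65630) (nat_lit 14) (.e (nat_lit 401437) (nat_lit 9) (.e (nat_lit 426531) (nat_lit 27) (.e (nat_lit 336091) (nat_lit 9) .nil))))) (.g (nat_lit 0) (.e (nat_lit 422980) (nat_lit 0) .nil) .nil)))))) (.nd (nat_lit 7) (.nd (nat_lit 8) (.nd (nat_lit 9) 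
(.lf (nat_lit 601175) (.g (nat_lit 1151) (.e (nat_lit 557107) (nat_lit 15) (.e (nat_lit 188439) (nat_lit 20) (.e (nat_lit 3271) (nat_lit 199) (.e (nat_lit 548898) (nat_lit 14) (.e (nat_lit 2989) (nat_lit 186) (.e (nat_lit 450304) (nat_lit 0) (.e (nat_lit 1859) (nat_lit 124) .nil))))))) (.g (nat_lit 1) (.e (nat_lit 420257) (nat_lit 0) .nil) .nil))) 
(.lf (nat_lit 601687) (.g (nat_lit 1351) (.e (nat_lit 639021) (nat_lit 16) (.e (nat_lit 65617) (nat_lit 10) (.e (nat_lit 344164) (nat_lit 37) (.e (nat_lit 647195) (nat_lit 9) (.e (nat_lit 7936) (nat_lit 34) .nil))))) (.g (nat_lit 0) (.e (nat_lit 421981) (nat_lit 0) .nil) .nil)))) (.nd (nat_lit 9) 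
(.lf (nat_lit 601431) (.g (nat_lit 4366) (.e (nat_lit 622620) (nat_lit 13) (.e (nat_lit 2663) (nat_lit 167) (.e (nat_lit 196666) (nat_lit 13) (.e (nat_lit 65610) (nat_lit 10) (.e (nat_lit 344117) (nat_lit 21) (.e (nat_lit 516151) (nat_lit 9) (.e (nat_lit 426023) (nat_lit 0) (.e (nat_lit 7936) (nat_lit 208) .nil)))))))) (.g (nat_lit 1) (.e (nat_lit 421146) (nat_lit 0) .nil) .nil))) 
(.lf (nat_lit 601943) (.g (nat_lit 2478) (.e (nat_lit 663567) (nat_lit 4) (.e (nat_lit 65628) (nat_lit 14) (.e (nat_lit 401437) (nat_lit 9) (.e (nat_lit 426482) (nat_lit 27) (.e (nat_lit 336093) (nat_lit 9) .nil))))) (.g (nat_lit 0) (.e (nat_lit 422916) (nat_lit 0) .nil) .nil))))) (.nd (nat_lit 8) (.nd (nat_lit 9) 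
(.lf (nat_lit 601303) (.g (nat_lit 2150) (.e (nat_lit 565252) (nat_lit 0) (.e (nat_lit 1589) (nat_lit 111) (.e (nat_lit 368384) (nat_lit 0) (.e (nat_lit 7685) (nat_lit 410) (.e (nat_lit 2650) (nat_lit 166) (.e (nat_lit 188434) (nat_lit 20) (.e (nat_lit 3289) (nat_lit 201) .nil))))))) (.g (nat_lit 1) (.e (nat_lit 420443) (nat_lit 0) .nil) .nil))) 
(.lf (nat_lit 601815) (.g (nat_lit 1187) (.e (nat_lit 638998) (nat_lit 8) (.e (nat_lit 172123) (nat_lit 13) (.e (nat_lit 483406) (nat_lit 26) (.e (nat_lit 385109) (nat_lit 51) .nil)))) (.g (nat_lit 0) (.e (nat_lit 422571) (nat_lit 0) .nil) .nil)))) (.nd (nat_lit 9) 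
(.lf (nat_lit 601559) (.g (nat_lit 1949) (.e (nat_lit 630800) (nat_lit 7) (.e (nat_lit 163979) (nat_lit 30) (.e (nat_lit 573489) (nat_lit 14) (.e (nat_lit 73755) (nat_lit 8) (.e (nat_lit 557104) (nat_lit 14) .nil))))) (.g (nat_lit 0) (.e (nat_lit 421461) (nat_lit 0) .nil) .nil))) 
(.lf (nat_lit 602071) (.g (nat_lit 799) (.e (nat_lit 663569) (nat_lit 6) (.e (nat_lit 81922) (nat_lit 0) (.e (nat_lit 3631) (nat_lit 227) (.e (nat_lit 778327) (nat_lit 6) .nil)))) (.g (nat_lit 0) (.e (nat_lit 423046) (nat_lit 0) .nil) .nil))))))) (.nd (nat_lit 6) (.nd (nat_lit 7) (.nd (nat_lit 8) (.nd (nat_lit 9) 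
(.lf (nat_lit 601143) (.g (nat_lit 3682) (.e (nat_lit 557105) (nat_lit 14) (.e (nat_lit 180252) (nat_lit 10) (.e (nat_lit 573489) (nat_lit 14) (.e (nat_lit 73755) (nat_lit 8) (.e (nat_lit 557119) (nat_lit 18) (.e (nat_lit 2797) (nat_lit 180) (.e (nat_lit 303104) (nat_lit 0) (.e (nat_lit 7936) (nat_lit 200) .nil)))))))) (.g (nat_lit 1) (.e (nat_lit 420200) (nat_lit 0) .nil) .nil))) 
(.lf (nat_lit 601655) (.g (nat_lit 1394) (.e (nat_lit 639020) (nat_lit 16) (.e (nat_lit 65627) (nat_lit 13) (.e (nat_lit 393296) (nat_lit 26) (.e (nat_lit 475216) (nat_lit 44) (.e (nat_lit 737303) (nat_lit 11) .nil))))) (.g (nat_lit 0) (.e (nat_lit 421823) (nat_lit 0) .nil) .nil)))) (.nd (nat_lit 9) 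
(.lf (nat_lit 601399) (.g (nat_lit 1898) (.e (nat_lit 565269) (nat_lit 6) (.e (nat_lit 81943) (nat_lit 20) (.e (nat_lit 2391) (nat_lit 156) (.e (nat_lit 819221) (nat_lit 6) (.e (nat_lit 188438) (nat_lit 20) (.e (nat_lit 3289) (nat_lit 201) .nil)))))) (.g (nat_lit 1) (.e (nat_lit 420609) (nat_lit 0) .nil) .nil))) 
(.lf (nat_lit 601911) (.g (nat_lit 4002) (.e (nat_lit 663565) (nat_lit 3) (.e (nat_lit 57480) (nat_lit 28) (.e (nat_lit 557109) (nat_lit 15) (.e (nat_lit 188450) (nat_lit 23) (.e (nat_lit 204858) (nat_lit 26) .nil))))) (.g (nat_lit 0) (.e (nat_lit 422882) (nat_lit 0) .nil) .nil))))) (.nd (nat_lit 8) (.nd (nat_lit 9) 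
(.lf (nat_lit 601271) (.g (nat_lit 1248) (.e (nat_lit 557119) (nat_lit 18) (.e (nat_lit 2797) (nat_lit 180) (.e (nat_lit 303145) (nat_lit 13) (.e (nat_lit 483363) (nat_lit 18) .nil)))) (.g (nat_lit 0) (.e (nat_lit 420369) (nat_lit 0) .nil) .nil))) 
(.lf (nat_lit 601783) (.g (nat_lit 3414) (.e (nat_lit 638996) (nat_lit 7) (.e (nat_lit 163978) (nat_lit 30) (.e (nat_lit 573489) (nat_lit 14) (.e (nat_lit 73755) (nat_lit 8) (.e (nat_lit 557103) (nat_lit 14) (.e (nat_lit 180250) (nat_lit 10) (.e (nat_lit 573473) (nat_lit 12) (.e (nat_lit 57503) (nat_lit 38) .nil)))))))) (.g (nat_lit 1) (.e (nat_lit 422455) (nat_lit 0) .nil) .nil)))) 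
(.nd (nat_lit 9) 
(.lf (nat_lit 601527) (.g (nat_lit 1372) (.e (nat_lit 630821) (nat_lit 16) (.e (nat_lit 65617) (nat_lit 10) (.e (nat_lit 344157) (nat_lit 36) (.e (nat_lit 638986) (nat_lit 5) (.e (nat_lit 3022) (nat_lit 187) (.e (nat_lit 450591) (nat_lit 13) .nil)))))) (.g (nat_lit 1) (.e (nat_lit 421372) (nat_lit 0) .nil) .nil))) 
(.lf (nat_lit 602039) (.g (nat_lit 1847) (.e (nat_lit 663567) (nat_lit 4) (.e (nat_lit 65630) (nat_lit 14) (.e (nat_lit 401457) (nat_lit 13) (.e (nat_lit 483390) (nat_lit 23) .nil)))) (.g (nat_lit 0) (.e (nat_lit 423012) (nat_lit 0) .nil) .nil)))))) (.nd (nat_lit 7) (.nd (nat_lit 8) (.nd (nat_lit 9) 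
(.lf (nat_lit 601207) (.g (nat_lit 3065) (.e (nat_lit 557107) (nat_lit 15) (.e (nat_lit 188447) (nat_lit 22) (.e (nat_lit 196661) (nat_lit 12) (.e (nat_lit 57751) (nat_lit 201) (.e (nat_lit 2856) (nat_lit 184) (.e (nat_lit 426402) (nat_lit 15) (.e (nat_lit 1859) (nat_lit 124) .nil))))))) (.g (nat_lit 1) (.e (nat_lit 420289) (nat_lit 0) .nil) .nil))) 
(.lf (nat_lit 601719) (.g (nat_lit 385) (.e (nat_lit 638985) (nat_lit 5) (.e (nat_lit 3022) (nat_lit 187) (.e (nat_lit 450592) (nat_lit 14) .nil))) (.g (nat_lit 0) (.e (nat_lit 422124) (nat_lit 0) .nil) .nil)))) (.nd (nat_lit 9) 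
(.lf (nat_lit 601463) (.g (nat_lit 2419) (.e (nat_lit 622632) (nat_lit 15) (.e (nat_lit 24662) (nat_lit 14) (.e (nat_lit 401459) (nat_lit 13) (.e (nat_lit 483395) (nat_lit 24) .nil)))) (.g (nat_lit 0) (.e (nat_lit 421237) (nat_lit 0) .nil) .nil))) 
(.lf (nat_lit 601975) (.g (nat_lit 1237) (.e (nat_lit 663567) (nat_lit 4) (.e (nat_lit 65628) (nat_lit 14) (.e (nat_lit 401454) (nat_lit 12) (.e (nat_lit 483072) (nat_lit 12) .nil)))) (.g (nat_lit 0) (.e (nat_lit 422948) (nat_lit 0) .nil) .nil))))) (.nd (nat_lit 8) (.nd (nat_lit 9) 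
(.lf (nat_lit 601335) (.g (nat_lit 2090) (.e (nat_lit 565267) (nat_lit 4) (.e (nat_lit 65617) (nat_lit 10) (.e (nat_lit 344183) (nat_lit 49) (.e (nat_lit 819219) (nat_lit 4) (.e (nat_lit 172106) (nat_lit 10) (.e (nat_lit 434241) (nat_lit 27) .nil)))))) (.g (nat_lit 1) (.e (nat_lit 420514) (nat_lit 0) .nil) .nil))) 
(.lf (nat_lit 601847) (.g (nat_lit 2249) (.e (nat_lit 663552) (nat_lit 0) (.e (nat_lit 1675) (nat_lit 116) (.e (nat_lit 401451) (nat_lit 12) (.e (nat_lit 475207) (nat_lit 41) .nil)))) (.g (nat_lit 0) (.e (nat_lit 422784) (nat_lit 0) .nil) .nil)))) (.nd (nat_lit 9) 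
(.lf (nat_lit 601591) (.g (nat_lit 469) (.e (nat_lit 639008) (nat_lit 13) (.e (nat_lit 1586) (nat_lit 111) (.e (nat_lit 360448) (nat_lit 0) .nil))) (.g (nat_lit 0) (.e (nat_lit 421642) (nat_lit 0) .nil) .nil))) 
(.lf (nat_lit 602103) (.g (nat_lit 2324) (.e (nat_lit 663572) (nat_lit 9) (.e (nat_lit 2744) (nat_lit 174) (.e (nat_lit 253991) (nat_lit 11) (.e (nat_lit 16424) (nat_lit 7) (.e (nat_lit 409648) (nat_lit 18) .nil))))) (.g (nat_lit 0) (.e (nat_lit 423084) (nat_lit 0) .nil) .nil))))))))) (.nd (nat_lit 4) (.nd (nat_lit 5) (.nd (nat_lit 6) (.nd (nat_lit 7) (.nd (nat_lit 8) (.nd (nat_lit 9) 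
(.lf (nat_lit 601103) (.g (nat_lit 2334) (.e (nat_lit 557105) (nat_lit 14) (.e (nat_lit 180252) (nat_lit 10) (.e (nat_lit 573481) (nat_lit 13) (.e (nat_lit 65568) (nat_lit 2) (.e (nat_lit 98048) (nat_lit 2) (.e (nat_lit 16400) (nat_lit 0) (.e (nat_lit 7936) (nat_lit 200) .nil))))))) (.g (nat_lit 1) (.e (nat_lit 420160) (nat_lit 0) .nil) .nil))) 
(.lf (nat_lit 601615) (.g (nat_lit 1419) (.e (nat_lit 639017) (nat_lit 15) (.e (nat_lit 57480) (nat_lit 28) (.e (nat_lit 557067) (nat_lit 9) (.e (nat_lit 3021) (nat_lit 187) .nil)))) (.g (nat_lit 0) (.e (nat_lit 421695) (nat_lit 0) .nil) .nil)))) (.nd (nat_lit 9) 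
(.lf (nat_lit 601359) (.g (nat_lit 1034) (.e (nat_lit 565267) (nat_lit 4) (.e (nat_lit 65620) (nat_lit 10) (.e (nat_lit 344183) (nat_lit 49) (.e (nat_lit 819221) (nat_lit 6) (.e (nat_lit 188435) (nat_lit 20) (.e (nat_lit 3289) (nat_lit 201) .nil)))))) (.g (nat_lit 1) (.e (nat_lit 420548) (nat_lit 0) .nil) .nil))) 
(.lf (nat_lit 601871) (.g (nat_lit 1332) (.e (nat_lit 663560) (nat_lit 0) (.e (nat_lit 1255) (nat_lit 92) (.e (nat_lit 98367) (nat_lit 27) (.e (nat_lit 434234) (nat_lit 23) .nil)))) (.g (nat_lit 0) (.e (nat_lit 422826) (nat_lit 0) .nil) .nil))))) (.nd (nat_lit 8) (.nd (nat_lit 9) 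
(.lf (nat_lit 601231) (.g (nat_lit 3120) (.e (nat_lit 557108) (nat_lit 15) (.e (nat_lit 188452) (nat_lit 23) (.e (nat_lit 204846) (nat_lit 24) (.e (nat_lit 319505) (nat_lit 10) (.e (nat_lit 7936) (nat_lit 313) (.e (nat_lit 8324) (nat_lit 69) .nil)))))) (.g (nat_lit 1) (.e (nat_lit 420313) (nat_lit 0) .nil) .nil))) 
(.lf (nat_lit 601743) (.g (nat_lit 3854) (.e (nat_lit 638995) (nat_lit 7) (.e (nat_lit 163978) (nat_lit 30) (.e (nat_lit 573487) (nat_lit 14) (.e (nat_lit 73753) (nat_lit 8) (.e (nat_lit 557105) (nat_lit 14) (.e (nat_lit 180251) (nat_lit 10) (.e (nat_lit 573477) (nat_lit 12) (.e (nat_lit 57502) (nat_lit 38) .nil)))))))) (.g (nat_lit 1) (.e (nat_lit 422225) (nat_lit 0) .nil) .nil)))) 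
(.nd (nat_lit 9) 
(.lf (nat_lit 601487) (.g (nat_lit 2032) (.e (nat_lit 630820) (nat_lit 16) (.e (nat_lit 65617) (nat_lit 10) (.e (nat_lit 344161) (nat_lit 37) (.e (nat_lit 647195) (nat_lit 9) (.e (nat_lit 7936) (nat_lit 35) .nil))))) (.g (nat_lit 0) (.e (nat_lit 421326) (nat_lit 0) .nil) .nil))) 
(.lf (nat_lit 601999) (.g (nat_lit 2413) (.e (nat_lit 663567) (nat_lit 4) (.e (nat_lit 65630) (nat_lit 14) (.e (nat_lit 401436) (nat_lit 9) (.e (nat_lit 426555) (nat_lit 32) (.e (nat_lit 376843) (nat_lit 20) .nil))))) (.g (nat_lit 0) (.e (nat_lit 422972) (nat_lit 0) .nil) .nil)))))) (.nd (nat_lit 7) (.nd (nat_lit 8) (.nd (nat_lit 9) 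
(.lf (nat_lit 601167) (.g (nat_lit 385) (.e (nat_lit 557106) (nat_lit 15) (.e (nat_lit 188452) (nat_lit 23) (.e (nat_lit 204884) (nat_lit 33) .nil))) (.g (nat_lit 0) (.e (nat_lit 420248) (nat_lit 0) .nil) .nil))) 
(.lf (nat_lit 601679) (.g (nat_lit 1945) (.e (nat_lit 639021) (nat_lit 16) (.e (nat_lit 65617) (nat_lit 10) (.e (nat_lit 344161) (nat_lit 37) (.e (nat_lit 647195) (nat_lit 9) (.e (nat_lit 7936) (nat_lit 34) .nil))))) (.g (nat_lit 0) (.e (nat_lit 421970) (nat_lit 0) .nil) .nil)))) (.nd (nat_lit 9) 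
(.lf (nat_lit 601423) (.g (nat_lit 2496) (.e (nat_lit 614435) (nat_lit 11) (.e (nat_lit 16416) (nat_lit 3) (.e (nat_lit 204868) (nat_lit 29) (.e (nat_lit 360466) (nat_lit 3) (.e (nat_lit 516100) (nat_lit 0) .nil))))) (.g (nat_lit 0) (.e (nat_lit 421119) (nat_lit 0) .nil) .nil))) 
(.lf (nat_lit 601935) (.g (nat_lit 2537) (.e (nat_lit 663567) (nat_lit 4) (.e (nat_lit 65619) (nat_lit 10) (.e (nat_lit 344169) (nat_lit 40) (.e (nat_lit 671764) (nat_lit 6) (.e (nat_lit 81935) (nat_lit 20) (.e (nat_lit 1994) (nat_lit 137) .nil)))))) (.g (nat_lit 1) (.e (nat_lit 422908) (nat_lit 0) .nil) .nil))))) (.nd (nat_lit 8) (.nd (nat_lit 9) 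
(.lf (nat_lit 601295) (.g (nat_lit 453) (.e (nat_lit 565252) (nat_lit 0) (.e (nat_lit 1586) (nat_lit 111) (.e (nat_lit 360451) (nat_lit 0) .nil))) (.g (nat_lit 0) (.e (nat_lit 420420) (nat_lit 0) .nil) .nil))) 
(.lf (nat_lit 601807) (.g (nat_lit 2834) (.e (nat_lit 638998) (nat_lit 8) (.e (nat_lit 172116) (nat_lit 10) (.e (nat_lit 434268) (nat_lit 36) (.e (nat_lit 639020) (nat_lit 16) (.e (nat_lit 65611) (nat_lit 10) (.e (nat_lit 344156) (nat_lit 36) .nil)))))) (.g (nat_lit 1) (.e (nat_lit 422551) (nat_lit 0) .nil) .nil)))) (.nd (nat_lit 9) 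
(.lf (nat_lit 601551) (.g (nat_lit 2804) (.e (nat_lit 630799) (nat_lit 7) (.e (nat_lit 163979) (nat_lit 30) (.e (nat_lit 573488) (nat_lit 14) (.e (nat_lit 73755) (nat_lit 8) (.e (nat_lit 557105) (nat_lit 14) .nil))))) (.g (nat_lit 0) (.e (nat_lit 421430) (nat_lit 0) .nil) .nil))) 
(.lf (nat_lit 602063) (.g (nat_lit 1343) (.e (nat_lit 663568) (nat_lit 5) (.e (nat_lit 73781) (nat_lit 32) (.e (nat_lit 2857) (nat_lit 184) (.e (nat_lit 426546) (nat_lit 30) (.e (nat_lit 368384) (nat_lit 17) .nil))))) (.g (nat_lit 1) (.e (nat_lit 423038) (nat_lit 0) .nil) .nil))))))) (.nd (nat_lit 6) (.nd (nat_lit 7) (.nd (nat_lit 8) (.nd (nat_lit 9) 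
(.lf (nat_lit 601135) (.g (nat_lit 3710) (.e (nat_lit 557105) (nat_lit 14) (.e (nat_lit 180252) (nat_lit 10) (.e (nat_lit 573489) (nat_lit 14) (.e (nat_lit 73755) (nat_lit 8) (.e (nat_lit 557090) (nat_lit 12) (.e (nat_lit 164006) (nat_lit 41) (.e (nat_lit 663582) (nat_lit 10) (.e (nat_lit 8324) (nat_lit 69) .nil)))))))) (.g (nat_lit 1) (.e (nat_lit 420192) (nat_lit 0) .nil) .nil))) 
(.lf (nat_lit 601647) (.g (nat_lit 798) (.e (nat_lit 639020) (nat_lit 16) (.e (nat_lit 65627) (nat_lit 13) (.e (nat_lit 393282) (nat_lit 24) (.e (nat_lit 434276) (nat_lit 39) .nil)))) (.g (nat_lit 0) (.e (nat_lit 421815) (nat_lit 0) .nil) .nil)))) (.nd (nat_lit 9) 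
(.lf (nat_lit 601391) (.g (nat_lit 2035) (.e (nat_lit 565269) (nat_lit 6) (.e (nat_lit 81938) (nat_lit 20) (.e (nat_lit 2391) (nat_lit 156) (.e (nat_lit 819221) (nat_lit 6) (.e (nat_lit 188435) (nat_lit 20) (.e (nat_lit 3289) (nat_lit 201) .nil)))))) (.g (nat_lit 1) (.e (nat_lit 420594) (nat_lit 0) .nil) .nil))) 
(.lf (nat_lit 601903) (.g (nat_lit 3897) (.e (nat_lit 663565) (nat_lit 3) (.e (nat_lit 57480) (nat_lit 28) (.e (nat_lit 557108) (nat_lit 15) (.e (nat_lit 188452) (nat_lit 23) (.e (nat_lit 204856) (nat_lit 26) .nil))))) (.g (nat_lit 0) (.e (nat_lit 422874) (nat_lit 0) .nil) .nil))))) (.nd (nat_lit 8) (.nd (nat_lit 9) 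
(.lf (nat_lit 601263) (.g (nat_lit 3396) (.e (nat_lit 557109) (nat_lit 15) (.e (nat_lit 188452) (nat_lit 23) (.e (nat_lit 204883) (nat_lit 33) (.e (nat_lit 401454) (nat_lit 12) (.e (nat_lit 483072) (nat_lit 29) .nil))))) (.g (nat_lit 1) (.e (nat_lit 420346) (nat_lit 0) .nil) .nil))) 
(.lf (nat_lit 601775) (.g (nat_lit 5506) (.e (nat_lit 638995) (nat_lit 7) (.e (nat_lit 163979) (nat_lit 30) (.e (nat_lit 573489) (nat_lit 14) (.e (nat_lit 73755) (nat_lit 8) (.e (nat_lit 557105) (nat_lit 14) (.e (nat_lit 180252) (nat_lit 10) (.e (nat_lit 573475) (nat_lit 12) (.e (nat_lit 57504) (nat_lit 38) .nil)))))))) (.g (nat_lit 1) (.e (nat_lit 422313) (nat_lit 0) .nil) .nil)))) 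
(.nd (nat_lit 9) 
(.lf (nat_lit 601519) (.g (nat_lit 1493) (.e (nat_lit 630821) (nat_lit 16) (.e (nat_lit 65611) (nat_lit 10) (.e (nat_lit 344156) (nat_lit 36) (.e (nat_lit 638998) (nat_lit 8) (.e (nat_lit 172115) (nat_lit 10) .nil))))) (.g (nat_lit 0) (.e (nat_lit 421364) (nat_lit 0) .nil) .nil))) 
(.lf (nat_lit 602031) (.g (nat_lit 1814) (.e (nat_lit 663567) (nat_lit 4) (.e (nat_lit 65630) (nat_lit 14) (.e (nat_lit 401438) (nat_lit 9) (.e (nat_lit 426542) (nat_lit 29) (.e (nat_lit 352286) (nat_lit 20) (.e (nat_lit 1999) (nat_lit 137) .nil)))))) (.g (nat_lit 1) (.e (nat_lit 423004) (nat_lit 0) .nil) .nil)))))) (.nd (nat_lit 7) (.nd (nat_lit 8) (.nd (nat_lit 9) 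
(.lf (nat_lit 601199) (.g (nat_lit 2918) (.e (nat_lit 557107) (nat_lit 15) (.e (nat_lit 188447) (nat_lit 22) (.e (nat_lit 196661) (nat_lit 12) (.e (nat_lit 57750) (nat_lit 201) (.e (nat_lit 2857) (nat_lit 184) (.e (nat_lit 426402) (nat_lit 15) (.e (nat_lit 1849) (nat_lit 124) .nil))))))) (.g (nat_lit 1) (.e (nat_lit 420281) (nat_lit 0) .nil) .nil))) 
(.lf (nat_lit 601711) (.g (nat_lit 481) (.e (nat_lit 638984) (nat_lit 5) (.e (nat_lit 3015) (nat_lit 187) (.e (nat_lit 450592) (nat_lit 14) .nil))) (.g (nat_lit 0) (.e (nat_lit 422105) (nat_lit 0) .nil) .nil)))) (.nd (nat_lit 9) 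
(.lf (nat_lit 601455) (.g (nat_lit 5270) (.e (nat_lit 622627) (nat_lit 13) (.e (nat_lit 2666) (nat_lit 167) (.e (nat_lit 196666) (nat_lit 13) (.e (nat_lit 65610) (nat_lit 10) (.e (nat_lit 344117) (nat_lit 21) (.e (nat_lit 516151) (nat_lit 9) (.e (nat_lit 426017) (nat_lit 0) (.e (nat_lit 7936) (nat_lit 208) .nil)))))))) (.g (nat_lit 1) (.e (nat_lit 421204) (nat_lit 0) .nil) .nil))) 
(.lf (nat_lit 601967) (.g (nat_lit 1633) (.e (nat_lit 663567) (nat_lit 4) (.e (nat_lit 65628) (nat_lit 14) (.e (nat_lit 401438) (nat_lit 9) (.e (nat_lit 426540) (nat_lit 29) (.e (nat_lit 352287) (nat_lit 20) .nil))))) (.g (nat_lit 0) (.e (nat_lit 422940) (nat_lit 0) .nil) .nil))))) (.nd (nat_lit 8) (.nd (nat_lit 9) 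
(.lf (nat_lit 601327) (.g (nat_lit 1006) (.e (nat_lit 565267) (nat_lit 4) (.e (nat_lit 65616) (nat_lit 10) (.e (nat_lit 344183) (nat_lit 49) (.e (nat_lit 819221) (nat_lit 6) (.e (nat_lit 188435) (nat_lit 20) (.e (nat_lit 3289) (nat_lit 201) .nil)))))) (.g (nat_lit 1) (.e (nat_lit 420503) (nat_lit 0) .nil) .nil))) 
(.lf (nat_lit 601839) (.g (nat_lit 752) (.e (nat_lit 639002) (nat_lit 11) (.e (nat_lit 229433) (nat_lit 25) (.e (nat_lit 532513) (nat_lit 3) (.e (nat_lit 114714) (nat_lit 22) .nil)))) (.g (nat_lit 0) (.e (nat_lit 422773) (nat_lit 0) .nil) .nil)))) (.nd (nat_lit 9) 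
(.lf (nat_lit 601583) (.g (nat_lit 1005) (.e (nat_lit 639005) (nat_lit 13) (.e (nat_lit 1598) (nat_lit 111) (.e (nat_lit 360452) (nat_lit 0) (.e (nat_lit 5243) (nat_lit 297) .nil)))) (.g (nat_lit 0) (.e (nat_lit 421609) (nat_lit 0) .nil) .nil))) 
(.lf (nat_lit 602095) (.g (nat_lit 1703) (.e (nat_lit 663569) (nat_lit 6) (.e (nat_lit 81947) (nat_lit 20) (.e (nat_lit 2006) (nat_lit 138) (.e (nat_lit 671762) (nat_lit 4) (.e (nat_lit 65592) (nat_lit 9) .nil))))) (.g (nat_lit 0) (.e (nat_lit 423071) (nat_lit 0) .nil) .nil)))))))) (.nd (nat_lit 5) (.nd (nat_lit 6) (.nd (nat_lit 7) (.nd (nat_lit 8) (.nd (nat_lit 9) 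
(.lf (nat_lit 601119) (.g (nat_lit 3934) (.e (nat_lit 557105) (nat_lit 14) (.e (nat_lit 180252) (nat_lit 10) (.e (nat_lit 573482) (nat_lit 13) (.e (nat_lit 65568) (nat_lit 2) (.e (nat_lit 98048) (nat_lit 2) (.e (nat_lit 16392) (nat_lit 0) (.e (nat_lit 3277) (nat_lit 200) .nil))))))) (.g (nat_lit 1) (.e (nat_lit 420176) (nat_lit 0) .nil) .nil))) 
(.lf (nat_lit 601631) (.g (nat_lit 2300) (.e (nat_lit 639020) (nat_lit 16) (.e (nat_lit 65582) (nat_lit 7) (.e (nat_lit 319531) (nat_lit 16) (.e (nat_lit 286762) (nat_lit 14) (.e (nat_lit 401448) (nat_lit 10) .nil))))) (.g (nat_lit 0) (.e (nat_lit 421722) (nat_lit 0) .nil) .nil)))) (.nd (nat_lit 9) 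
(.lf (nat_lit 601375) (.g (nat_lit 439) (.e (nat_lit 565268) (nat_lit 5) (.e (nat_lit 73791) (nat_lit 45) (.e (nat_lit 1160) (nat_lit 86) (.e (nat_lit 49157) (nat_lit 0) (.e (nat_lit 3012) (nat_lit 187) (.e (nat_lit 458496) (nat_lit 9) .nil)))))) (.g (nat_lit 1) (.e (nat_lit 420566) (nat_lit 0) .nil) .nil))) 
(.lf (nat_lit 601887) (.g (nat_lit 2274) (.e (nat_lit 663565) (nat_lit 3) (.e (nat_lit 57479) (nat_lit 28) (.e (nat_lit 557101) (nat_lit 13) (.e (nat_lit 172097) (nat_lit 9) (.e (nat_lit 426125) (nat_lit 2) .nil))))) (.g (nat_lit 0) (.e (nat_lit 422857) (nat_lit 0) .nil) .nil))))) (.nd (nat_lit 8) (.nd (nat_lit 9) 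
(.lf (nat_lit 601247) (.g (nat_lit 1186) (.e (nat_lit 557109) (nat_lit 15) (.e (nat_lit 188449) (nat_lit 22) (.e (nat_lit 196659) (nat_lit 12) .nil))) (.g (nat_lit 0) (.e (nat_lit 420330) (nat_lit 0) .nil) .nil))) 
(.lf (nat_lit 601759) (.g (nat_lit 3920) (.e (nat_lit 638995) (nat_lit 7) (.e (nat_lit 163979) (nat_lit 30) (.e (nat_lit 573487) (nat_lit 14) (.e (nat_lit 73754) (nat_lit 8) (.e (nat_lit 557105) (nat_lit 14) (.e (nat_lit 180252) (nat_lit 10) (.e (nat_lit 573475) (nat_lit 12) (.e (nat_lit 57502) (nat_lit 38) .nil)))))))) (.g (nat_lit 1) (.e (nat_lit 422282) (nat_lit 0) .nil) .nil)))) 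
(.nd (nat_lit 9) 
(.lf (nat_lit 601503) (.g (nat_lit 1248) (.e (nat_lit 630821) (nat_lit 16) (.e (nat_lit 65586) (nat_lit 7) (.e (nat_lit 319531) (nat_lit 16) (.e (nat_lit 286722) (nat_lit 0) .nil)))) (.g (nat_lit 0) (.e (nat_lit 421347) (nat_lit 0) .nil) .nil))) 
(.lf (nat_lit 602015) (.g (nat_lit 2354) (.e (nat_lit 663567) (nat_lit 4) (.e (nat_lit 65630) (nat_lit 14) (.e (nat_lit 401437) (nat_lit 9) (.e (nat_lit 426540) (nat_lit 29) (.e (nat_lit 352287) (nat_lit 20) (.e (nat_lit 1994) (nat_lit 137) .nil)))))) (.g (nat_lit 1) (.e (nat_lit 422988) (nat_lit 0) .nil) .nil)))))) (.nd (nat_lit 7) (.nd (nat_lit 8) (.nd (nat_lit 9) 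
(.lf (nat_lit 601183) (.g (nat_lit 2641) (.e (nat_lit 557107) (nat_lit 15) (.e (nat_lit 188439) (nat_lit 20) (.e (nat_lit 3272) (nat_lit 199) (.e (nat_lit 548897) (nat_lit 14) (.e (nat_lit 3004) (nat_lit 186) (.e (nat_lit 442374) (nat_lit 0) (.e (nat_lit 1856) (nat_lit 124) .nil))))))) (.g (nat_lit 1) (.e (nat_lit 420265) (nat_lit 0) .nil) .nil))) 
(.lf (nat_lit 601695) (.g (nat_lit 255) (.e (nat_lit 639021) (nat_lit 16) (.e (nat_lit 65620) (nat_lit 10) (.e (nat_lit 344154) (nat_lit 35) .nil))) (.g (nat_lit 0) (.e (nat_lit 422013) (nat_lit 0) .nil) .nil)))) (.nd (nat_lit 9) 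
(.lf (nat_lit 601439) (.g (nat_lit 2385) (.e (nat_lit 622623) (nat_lit 13) (.e (nat_lit 2668) (nat_lit 167) (.e (nat_lit 196666) (nat_lit 13) (.e (nat_lit 65610) (nat_lit 10) (.e (nat_lit 344117) (nat_lit 21) (.e (nat_lit 516160) (nat_lit 10) (.e (nat_lit 434262) (nat_lit 34) .nil))))))) (.g (nat_lit 1) (.e (nat_lit 421166) (nat_lit 0) .nil) .nil))) 
(.lf (nat_lit 601951) (.g (nat_lit 1976) (.e (nat_lit 663567) (nat_lit 4) (.e (nat_lit 65628) (nat_lit 14) (.e (nat_lit 401437) (nat_lit 9) (.e (nat_lit 426531) (nat_lit 27) .nil)))) (.g (nat_lit 0) (.e (nat_lit 422924) (nat_lit 0) .nil) .nil))))) (.nd (nat_lit 8) (.nd (nat_lit 9) 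
(.lf (nat_lit 601311) (.g (nat_lit 2035) (.e (nat_lit 565252) (nat_lit 0) (.e (nat_lit 1599) (nat_lit 111) (.e (nat_lit 360493) (nat_lit 27) (.e (nat_lit 819204) (nat_lit 0) (.e (nat_lit 3015) (nat_lit 187) (.e (nat_lit 450584) (nat_lit 9) .nil)))))) (.g (nat_lit 1) (.e (nat_lit 420456) (nat_lit 0) .nil) .nil))) 
(.lf (nat_lit 601823) (.g (nat_lit 326) (.e (nat_lit 638999) (nat_lit 8) (.e (nat_lit 172106) (nat_lit 10) (.e (nat_lit 434266) (nat_lit 35) .nil))) (.g (nat_lit 0) (.e (nat_lit 422705) (nat_lit 0) .nil) .nil)))) (.nd (nat_lit 9) 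
(.lf (nat_lit 601567) (.g (nat_lit 406) (.e (nat_lit 630802) (nat_lit 8) (.e (nat_lit 172082) (nat_lit 7) (.e (nat_lit 409636) (nat_lit 14) .nil))) (.g (nat_lit 0) (.e (nat_lit 421533) (nat_lit 0) .nil) .nil))) 
(.lf (nat_lit 602079) (.g (nat_lit 942) (.e (nat_lit 663569) (nat_lit 6) (.e (nat_lit 81922) (nat_lit 0) (.e (nat_lit 3748) (nat_lit 228) (.e (nat_lit 786482) (nat_lit 30) (.e (nat_lit 368384) (nat_lit 17) .nil))))) (.g (nat_lit 1) (.e (nat_lit 423055) (nat_lit 0) .nil) .nil))))))) (.nd (nat_lit 6) (.nd (nat_lit 7) (.nd (nat_lit 8) (.nd (nat_lit 9) 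
(.lf (nat_lit 601151) (.g (nat_lit 4262) (.e (nat_lit 557105) (nat_lit 14) (.e (nat_lit 180252) (nat_lit 10) (.e (nat_lit 573489) (nat_lit 14) (.e (nat_lit 73755) (nat_lit 8) (.e (nat_lit 557119) (nat_lit 18) (.e (nat_lit 2798) (nat_lit 180) (.e (nat_lit 303110) (nat_lit 0) (.e (nat_lit 7936) (nat_lit 200) .nil)))))))) (.g (nat_lit 1) (.e (nat_lit 420208) (nat_lit 0) .nil) .nil))) 
(.lf (nat_lit 601663) (.g (nat_lit 2483) (.e (nat_lit 639021) (nat_lit 16) (.e (nat_lit 65604) (nat_lit 9) (.e (nat_lit 335997) (nat_lit 1) (.e (nat_lit 57857) (nat_lit 254) (.e (nat_lit 163920) (nat_lit 14) (.e (nat_lit 442412) (nat_lit 20) (.e (nat_lit 3390) (nat_lit 210) .nil))))))) (.g (nat_lit 1) (.e (nat_lit 421852) (nat_lit 0) .nil) .nil)))) (.nd (nat_lit 9) 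
(.lf (nat_lit 601407) (.g (nat_lit 1707) (.e (nat_lit 598065) (nat_lit 20) (.e (nat_lit 237587) (nat_lit 2) (.e (nat_lit 196672) (nat_lit 15) (.e (nat_lit 81954) (nat_lit 23) (.e (nat_lit 98321) (nat_lit 17) .nil))))) (.g (nat_lit 0) (.e (nat_lit 420871) (nat_lit 0) .nil) .nil))) 
(.lf (nat_lit 601919) (.g (nat_lit 2226) (.e (nat_lit 663566) (nat_lit 4) (.e (nat_lit 65630) (nat_lit 14) (.e (nat_lit 401437) (nat_lit 9) (.e (nat_lit 426546) (nat_lit 30) (.e (nat_lit 368384) (nat_lit 17) .nil))))) (.g (nat_lit 0) (.e (nat_lit 422892) (nat_lit 0) .nil) .nil))))) (.nd (nat_lit 8) (.nd (nat_lit 9) 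
(.lf (nat_lit 601279) (.g (nat_lit 2879) (.e (nat_lit 557119) (nat_lit 18) (.e (nat_lit 2798) (nat_lit 180) (.e (nat_lit 303145) (nat_lit 13) (.e (nat_lit 483346) (nat_lit 17) (.e (nat_lit 974) (nat_lit 81) .nil))))) (.g (nat_lit 0) (.e (nat_lit 420392) (nat_lit 0) .nil) .nil))) 
(.lf (nat_lit 601791) (.g (nat_lit 2472) (.e (nat_lit 638996) (nat_lit 7) (.e (nat_lit 163979) (nat_lit 30) (.e (nat_lit 573488) (nat_lit 14) (.e (nat_lit 73755) (nat_lit 8) (.e (nat_lit 557105) (nat_lit 14) .nil))))) (.g (nat_lit 0) (.e (nat_lit 422489) (nat_lit 0) .nil) .nil)))) (.nd (nat_lit 9) 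
(.lf (nat_lit 601535) (.g (nat_lit 994) (.e (nat_lit 630821) (nat_lit 16) (.e (nat_lit 65617) (nat_lit 10) (.e (nat_lit 344164) (nat_lit 37) (.e (nat_lit 647196) (nat_lit 9) .nil)))) (.g (nat_lit 0) (.e (nat_lit 421381) (nat_lit 0) .nil) .nil))) 
(.lf (nat_lit 602047) (.g (nat_lit 2218) (.e (nat_lit 663567) (nat_lit 4) (.e (nat_lit 65630) (nat_lit 14) (.e (nat_lit 401459) (nat_lit 13) (.e (nat_lit 483386) (nat_lit 23) (.e (nat_lit 335886) (nat_lit 0) .nil))))) (.g (nat_lit 0) (.e (nat_lit 423020) (nat_lit 0) .nil) .nil)))))) (.nd (nat_lit 7) (.nd (nat_lit 8) (.nd (nat_lit 9) 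
(.lf (nat_lit 601215) (.g (nat_lit 2677) (.e (nat_lit 557107) (nat_lit 15) (.e (nat_lit 188450) (nat_lit 23) (.e (nat_lit 204821) (nat_lit 17) (.e (nat_lit 6680) (nat_lit 357) (.e (nat_lit 3067) (nat_lit 190) (.e (nat_lit 475184) (nat_lit 29) .nil)))))) (.g (nat_lit 1) (.e (nat_lit 420297) (nat_lit 0) .nil) .nil))) 
(.lf (nat_lit 601727) (.g (nat_lit 377) (.e (nat_lit 638986) (nat_lit 5) (.e (nat_lit 3022) (nat_lit 187) (.e (nat_lit 450592) (nat_lit 14) .nil))) (.g (nat_lit 0) (.e (nat_lit 422155) (nat_lit 0) .nil) .nil)))) (.nd (nat_lit 9) 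
(.lf (nat_lit 601471) (.g (nat_lit 2160) (.e (nat_lit 622635) (nat_lit 16) (.e (nat_lit 163979) (nat_lit 30) (.e (nat_lit 573482) (nat_lit 13) (.e (nat_lit 65574) (nat_lit 4) .nil)))) (.g (nat_lit 0) (.e (nat_lit 421277) (nat_lit 0) .nil) .nil))) 
(.lf (nat_lit 601983) (.g (nat_lit 1072) (.e (nat_lit 663567) (nat_lit 4) (.e (nat_lit 65628) (nat_lit 14) (.e (nat_lit 401458) (nat_lit 13) (.e (nat_lit 483394) (nat_lit 24) .nil)))) (.g (nat_lit 0) (.e (nat_lit 422956) (nat_lit 0) .nil) .nil))))) (.nd (nat_lit 8) (.nd (nat_lit 9) 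
(.lf (nat_lit 601343) (.g (nat_lit 453) (.e (nat_lit 565267) (nat_lit 4) (.e (nat_lit 65619) (nat_lit 10) (.e (nat_lit 344090) (nat_lit 18) .nil))) (.g (nat_lit 0) (.e (nat_lit 420522) (nat_lit 0) .nil) .nil))) 
(.lf (nat_lit 601855) (.g (nat_lit 1776) (.e (nat_lit 663555) (nat_lit 0) (.e (nat_lit 1234) (nat_lit 91) (.e (nat_lit 90174) (nat_lit 14) (.e (nat_lit 180251) (nat_lit 10) .nil)))) (.g (nat_lit 0) (.e (nat_lit 422804) (nat_lit 0) .nil) .nil)))) (.nd (nat_lit 9) 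
(.lf (nat_lit 601599) (.g (nat_lit 1015) (.e (nat_lit 639008) (nat_lit 13) (.e (nat_lit 1592) (nat_lit 111) (.e (nat_lit 360480) (nat_lit 14) (.e (nat_lit 638986) (nat_lit 5) (.e (nat_lit 3016) (nat_lit 187) (.e (nat_lit 450592) (nat_lit 14) .nil)))))) (.g (nat_lit 1) (.e (nat_lit 421664) (nat_lit 0) .nil) .nil))) 
(.lf (nat_lit 602111) (.g (nat_lit 2216) (.e (nat_lit 671488) (nat_lit 10) (.e (nat_lit 8326) (nat_lit 69) (.e (nat_lit 557105) (nat_lit 14) (.e (nat_lit 180252) (nat_lit 10) (.e (nat_lit 573489) (nat_lit 14) .nil))))) (.g (nat_lit 0) (.e (nat_lit 423166) (nat_lit 0) .nil) .nil)))))))))))))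

noncomputable def tv5648 : DT := (.nd (nat_lit 0) (.nd (nat_lit 1) (.nd (nat_lit 2) (.nd (nat_lit 3) (.nd (nat_lit 4) (.nd (nat_lit 5) (.nd (nat_lit 6) (.nd (nat_lit 7) (.nd (nat_lit 8) (.nd (nat_lit 9) 
(.lf (nat_lit 602112) (.g (nat_lit 1519) (.e (nat_lit 663583) (nat_lit 11) (.e (nat_lit 24580) (nat_lit 0) (.e (nat_lit 2356) (nat_lit 152) (.e (nat_lit 786481) (nat_lit 30) (.e (nat_lit 360473) (nat_lit 8) .nil))))) (.g (nat_lit 0) (.e (nat_lit 423167) (nat_lit 0) .nil) .nil))) 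
(.lf (nat_lit 602624) (.g (nat_lit 3119) (.e (nat_lit 647181) (nat_lit 3) (.e (nat_lit 163979) (nat_lit 30) (.e (nat_lit 573491) (nat_lit 15) (.e (nat_lit 81954) (nat_lit 23) (.e (nat_lit 98361) (nat_lit 26) (.e (nat_lit 426025) (nat_lit 0) (.e (nat_lit 3397) (nat_lit 211) .nil))))))) (.g (nat_lit 1) (.e (nat_lit 424565) (nat_lit 0) .nil) .nil)))) (.nd (nat_lit 9) 
(.lf (nat_lit 602368) (.g (nat_lit 3916) (.e (nat_lit 647171) (nat_lit 0) (.e (nat_lit 3100) (nat_lit 192) (.e (nat_lit 491563) (nat_lit 12) (.e (nat_lit 385102) (nat_lit 50) .nil)))) (.g (nat_lit 0) (.e (nat_lit 424049) (nat_lit 0) .nil) .nil))) 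
(.lf (nat_lit 602880) (.g (nat_lit 2048) (.e (nat_lit 647183) (nat_lit 4) (.e (nat_lit 172120) (nat_lit 12) (.e (nat_lit 475211) (nat_lit 41) (.e (nat_lit 712752) (nat_lit 29) (.e (nat_lit 442396) (nat_lit 20) .nil))))) (.g (nat_lit 0) (.e (nat_lit 425120) (nat_lit 0) .nil) .nil))))) (.nd (nat_lit 8) (.nd (nat_lit 9) 
(.lf (nat_lit 602240) (.g (nat_lit 2921) (.e (nat_lit 671761) (nat_lit 4) (.e (nat_lit 65630) (nat_lit 14) (.e (nat_lit 401457) (nat_lit 13) (.e (nat_lit 483395) (nat_lit 24) (.e (nat_lit 344168) (nat_lit 40) .nil))))) (.g (nat_lit 0) (.e (nat_lit 423608) (nat_lit 0) .nil) .nil))) 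
(.lf (nat_lit 602752) (.g (nat_lit 2079) (.e (nat_lit 647183) (nat_lit 4) (.e (nat_lit 172113) (nat_lit 10) (.e (nat_lit 434271) (nat_lit 38) (.e (nat_lit 655378) (nat_lit 4) (.e (nat_lit 172097) (nat_lit 9) (.e (nat_lit 426025) (nat_lit 0) (.e (nat_lit 3399) (nat_lit 211) .nil))))))) (.g (nat_lit 1) (.e (nat_lit 424967) (nat_lit 0) .nil) .nil)))) (.nd (nat_lit 9) 
(.lf (nat_lit 602496) (.g (nat_lit 2694) (.e (nat_lit 647181) (nat_lit 3) (.e (nat_lit 163977) (nat_lit 30) (.e (nat_lit 573492) (nat_lit 15) (.e (nat_lit 81956) (nat_lit 23) (.e (nat_lit 98355) (nat_lit 26) .nil))))) (.g (nat_lit 0) (.e (nat_lit 424403) (nat_lit 0) .nil) .nil))) 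
(.lf (nat_lit 603008) (.g (nat_lit 1267) (.e (nat_lit 647185) (nat_lit 6) (.e (nat_lit 188420) (nat_lit 0) (.e (nat_lit 2057) (nat_lit 142) (.e (nat_lit 704598) (nat_lit 6) (.e (nat_lit 188431) (nat_lit 20) (.e (nat_lit 3397) (nat_lit 211) .nil)))))) (.g (nat_lit 1) (.e (nat_lit 425533) (nat_lit 0) .nil) .nil)))))) (.nd (nat_lit 7) (.nd (nat_lit 8) (.nd (nat_lit 9) 
(.lf (nat_lit 602176) (.g (nat_lit 1387) (.e (nat_lit 671748) (nat_lit 0) (.e (nat_lit 1669) (nat_lit 116) (.e (nat_lit 401453) (nat_lit 12) (.e (nat_lit 475207) (nat_lit 41) .nil)))) (.g (nat_lit 0) (.e (nat_lit 423531) (nat_lit 0) .nil) .nil))) 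
(.lf (nat_lit 602688) (.g (nat_lit 3078) (.e (nat_lit 647183) (nat_lit 4) (.e (nat_lit 172106) (nat_lit 10) (.e (nat_lit 434209) (nat_lit 18) (.e (nat_lit 5547) (nat_lit 306) (.e (nat_lit 2648) (nat_lit 166) (.e (nat_lit 188431) (nat_lit 20) (.e (nat_lit 3402) (nat_lit 211) .nil))))))) (.g (nat_lit 1) (.e (nat_lit 424894) (nat_lit 0) .nil) .nil)))) (.nd (nat_lit 9) 
(.lf (nat_lit 602432) (.g (nat_lit 3197) (.e (nat_lit 647180) (nat_lit 3) (.e (nat_lit 163979) (nat_lit 30) (.e (nat_lit 573493) (nat_lit 15) (.e (nat_lit 81954) (nat_lit 23) (.e (nat_lit 98359) (nat_lit 26) .nil))))) (.g (nat_lit 0) (.e (nat_lit 424316) (nat_lit 0) .nil) .nil))) 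
(.lf (nat_lit 602944) (.g (nat_lit 1532) (.e (nat_lit 647183) (nat_lit 4) (.e (nat_lit 172126) (nat_lit 14) (.e (nat_lit 491548) (nat_lit 9) (.e (nat_lit 336430) (nat_lit 29) (.e (nat_lit 442396) (nat_lit 20) .nil))))) (.g (nat_lit 0) (.e (nat_lit 425223) (nat_lit 0) .nil) .nil))))) (.nd (nat_lit 8) (.nd (nat_lit 9) 
(.lf (nat_lit 602304) (.g (nat_lit 1473) (.e (nat_lit 671763) (nat_lit 5) (.e (nat_lit 73782) (nat_lit 32) (.e (nat_lit 3089) (nat_lit 191) (.e (nat_lit 483396) (nat_lit 24) (.e (nat_lit 344168) (nat_lit 40) .nil))))) (.g (nat_lit 0) (.e (nat_lit 423678) (nat_lit 0) .nil) .nil))) 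
(.lf (nat_lit 602816) (.g (nat_lit 1885) (.e (nat_lit 647183) (nat_lit 4) (.e (nat_lit 172116) (nat_lit 10) (.e (nat_lit 434272) (nat_lit 38) (.e (nat_lit 655363) (nat_lit 0) (.e (nat_lit 3022) (nat_lit 187) (.e (nat_lit 458496) (nat_lit 15) .nil)))))) (.g (nat_lit 1) (.e (nat_lit 425044) (nat_lit 0) .nil) .nil)))) (.nd (nat_lit 9) 
(.lf (nat_lit 602560) (.g (nat_lit 4827) (.e (nat_lit 647181) (nat_lit 3) (.e (nat_lit 163978) (nat_lit 30) (.e (nat_lit 573484) (nat_lit 13) (.e (nat_lit 65610) (nat_lit 10) (.e (nat_lit 344117) (nat_lit 21) (.e (nat_lit 516151) (nat_lit 9) (.e (nat_lit 426022) (nat_lit 0) (.e (nat_lit 3401) (nat_lit 211) .nil)))))))) (.g (nat_lit 1) (.e (nat_lit 424496) (nat_lit 0) .nil) .nil))) 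
(.lf (nat_lit 603072) (.g (nat_lit 3870) (.e (nat_lit 647195) (nat_lit 9) (.e (nat_lit 426) (nat_lit 32) (.e (nat_lit 426011) (nat_lit 0) (.e (nat_lit 3544) (nat_lit 219) (.e (nat_lit 712753) (nat_lit 30) (.e (nat_lit 450586) (nat_lit 10) (.e (nat_lit 573473) (nat_lit 12) (.e (nat_lit 57508) (nat_lit 39) .nil)))))))) (.g (nat_lit 1) (.e (nat_lit 425785) (nat_lit 0) .nil) .nil))))))) 
(.nd (nat_lit 6) (.nd (nat_lit 7) (.nd (nat_lit 8) (.nd (nat_lit 9) 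
(.lf (nat_lit 602144) (.g (nat_lit 2613) (.e (nat_lit 663585) (nat_lit 12) (.e (nat_lit 164050) (nat_lit 55) (.e (nat_lit 778464) (nat_lit 11) (.e (nat_lit 24617) (nat_lit 7) (.e (nat_lit 319533) (nat_lit 16) (.e (nat_lit 286754) (nat_lit 10) (.e (nat_lit 352000) (nat_lit 39) .nil))))))) (.g (nat_lit 1) (.e (nat_lit 423397) (nat_lit 0) .nil) .nil))) 
(.lf (nat_lit 602656) (.g (nat_lit 1724) (.e (nat_lit 647183) (nat_lit 4) (.e (nat_lit 172038) (nat_lit 0) (.e (nat_lit 6989) (nat_lit 377) (.e (nat_lit 2777) (nat_lit 178) (.e (nat_lit 286771) (nat_lit 29) (.e (nat_lit 442399) (nat_lit 20) (.e (nat_lit 3402) (nat_lit 211) .nil))))))) (.g (nat_lit 1) (.e (nat_lit 424806) (nat_lit 0) .nil) .nil)))) (.nd (nat_lit 9) 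
(.lf (nat_lit 602400) (.g (nat_lit 4580) (.e (nat_lit 647180) (nat_lit 3) (.e (nat_lit 163978) (nat_lit 30) (.e (nat_lit 573484) (nat_lit 13) (.e (nat_lit 65610) (nat_lit 10) (.e (nat_lit 344117) (nat_lit 21) (.e (nat_lit 516151) (nat_lit 9) (.e (nat_lit 426025) (nat_lit 0) (.e (nat_lit 3397) (nat_lit 211) .nil)))))))) (.g (nat_lit 1) (.e (nat_lit 424264) (nat_lit 0) .nil) .nil))) 
(.lf (nat_lit 602912) (.g (nat_lit 1467) (.e (nat_lit 647183) (nat_lit 4) (.e (nat_lit 172124) (nat_lit 14) (.e (nat_lit 491569) (nat_lit 13) (.e (nat_lit 393281) (nat_lit 23) .nil)))) (.g (nat_lit 0) (.e (nat_lit 425161) (nat_lit 0) .nil) .nil))))) (.nd (nat_lit 8) (.nd (nat_lit 9) 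
(.lf (nat_lit 602272) (.g (nat_lit 2178) (.e (nat_lit 671762) (nat_lit 4) (.e (nat_lit 65630) (nat_lit 14) (.e (nat_lit 401438) (nat_lit 9) (.e (nat_lit 426482) (nat_lit 27) .nil)))) (.g (nat_lit 0) (.e (nat_lit 423646) (nat_lit 0) .nil) .nil))) 
(.lf (nat_lit 602784) (.g (nat_lit 2807) (.e (nat_lit 647183) (nat_lit 4) (.e (nat_lit 172115) (nat_lit 10) (.e (nat_lit 434209) (nat_lit 18) (.e (nat_lit 5548) (nat_lit 306) (.e (nat_lit 2648) (nat_lit 166) (.e (nat_lit 188428) (nat_lit 20) (.e (nat_lit 3402) (nat_lit 211) .nil))))))) (.g (nat_lit 1) (.e (nat_lit 425008) (nat_lit 0) .nil) .nil)))) (.nd (nat_lit 9) 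
(.lf (nat_lit 602528) (.g (nat_lit 3648) (.e (nat_lit 647181) (nat_lit 3) (.e (nat_lit 163977) (nat_lit 30) (.e (nat_lit 573493) (nat_lit 15) (.e (nat_lit 81954) (nat_lit 23) (.e (nat_lit 98360) (nat_lit 26) .nil))))) (.g (nat_lit 0) (.e (nat_lit 424447) (nat_lit 0) .nil) .nil))) 
(.lf (nat_lit 603040) (.g (nat_lit 1970) (.e (nat_lit 647185) (nat_lit 6) (.e (nat_lit 188441) (nat_lit 20) (.e (nat_lit 3409) (nat_lit 212) (.e (nat_lit 655378) (nat_lit 4) (.e (nat_lit 172097) (nat_lit 9) (.e (nat_lit 426025) (nat_lit 0) (.e (nat_lit 3399) (nat_lit 211) .nil))))))) (.g (nat_lit 1) (.e (nat_lit 425644) (nat_lit 0) .nil) .nil)))))) 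
(.nd (nat_lit 7) (.nd (nat_lit 8) (.nd (nat_lit 9) 
(.lf (nat_lit 602208) (.g (nat_lit 1107) (.e (nat_lit 671760) (nat_lit 4) (.e (nat_lit 65622) (nat_lit 12) (.e (nat_lit 385105) (nat_lit 50) (.e (nat_lit 786481) (nat_lit 30) .nil)))) (.g (nat_lit 0) (.e (nat_lit 423574) (nat_lit 0) .nil) .nil))) 
(.lf (nat_lit 602720) (.g (nat_lit 1558) (.e (nat_lit 647183) (nat_lit 4) (.e (nat_lit 172107) (nat_lit 10) (.e (nat_lit 434271) (nat_lit 38) (.e (nat_lit 655378) (nat_lit 4) (.e (nat_lit 172089) (nat_lit 9) (.e (nat_lit 426025) (nat_lit 0) (.e (nat_lit 3399) (nat_lit 211) .nil))))))) (.g (nat_lit 1) (.e (nat_lit 424932) (nat_lit 0) .nil) .nil)))) (.nd (nat_lit 9) 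
(.lf (nat_lit 602464) (.g (nat_lit 5430) (.e (nat_lit 647181) (nat_lit 3) (.e (nat_lit 163977) (nat_lit 30) (.e (nat_lit 573484) (nat_lit 13) (.e (nat_lit 65610) (nat_lit 10) (.e (nat_lit 344117) (nat_lit 21) (.e (nat_lit 516151) (nat_lit 9) (.e (nat_lit 426022) (nat_lit 0) (.e (nat_lit 3402) (nat_lit 211) .nil)))))))) (.g (nat_lit 1) (.e (nat_lit 424366) (nat_lit 0) .nil) .nil))) 
(.lf (nat_lit 602976) (.g (nat_lit 1444) (.e (nat_lit 647183) (nat_lit 4) (.e (nat_lit 172126) (nat_lit 14) (.e (nat_lit 491571) (nat_lit 13) (.e (nat_lit 393266) (nat_lit 23) .nil)))) (.g (nat_lit 0) (.e (nat_lit 425291) (nat_lit 0) .nil) .nil))))) (.nd (nat_lit 8) (.nd (nat_lit 9) 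
(.lf (nat_lit 602336) (.g (nat_lit 2454) (.e (nat_lit 647170) (nat_lit 0) (.e (nat_lit 3097) (nat_lit 192) (.e (nat_lit 491566) (nat_lit 12) (.e (nat_lit 385104) (nat_lit 50) (.e (nat_lit 786481) (nat_lit 30) (.e (nat_lit 368384) (nat_lit 15) .nil)))))) (.g (nat_lit 1) (.e (nat_lit 423939) (nat_lit 0) .nil) .nil))) 
(.lf (nat_lit 602848) (.g (nat_lit 2015) (.e (nat_lit 647183) (nat_lit 4) (.e (nat_lit 172118) (nat_lit 12) (.e (nat_lit 475211) (nat_lit 41) (.e (nat_lit 712753) (nat_lit 30) (.e (nat_lit 458496) (nat_lit 15) .nil))))) (.g (nat_lit 1) (.e (nat_lit 425078) (nat_lit 0) .nil) .nil)))) (.nd (nat_lit 9) 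
(.lf (nat_lit 602592) (.g (nat_lit 4336) (.e (nat_lit 647181) (nat_lit 3) (.e (nat_lit 163979) (nat_lit 30) (.e (nat_lit 573482) (nat_lit 13) (.e (nat_lit 65604) (nat_lit 9) (.e (nat_lit 336013) (nat_lit 2) (.e (nat_lit 90170) (nat_lit 13) (.e (nat_lit 172032) (nat_lit 0) (.e (nat_lit 3399) (nat_lit 211) .nil)))))))) (.g (nat_lit 1) (.e (nat_lit 424531) (nat_lit 0) .nil) .nil))) 
(.lf (nat_lit 603104) (.g (nat_lit 3695) (.e (nat_lit 655364) (nat_lit 0) (.e (nat_lit 3098) (nat_lit 192) (.e (nat_lit 491566) (nat_lit 12) (.e (nat_lit 385105) (nat_lit 50) (.e (nat_lit 786483) (nat_lit 30) (.e (nat_lit 360485) (nat_lit 16) .nil)))))) (.g (nat_lit 1) (.e (nat_lit 426158) (nat_lit 0) .nil) .nil)))))))) 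
(.nd (nat_lit 5) (.nd (nat_lit 6) (.nd (nat_lit 7) (.nd (nat_lit 8) (.nd (nat_lit 9) 
(.lf (nat_lit 602128) (.g (nat_lit 1782) (.e (nat_lit 663583) (nat_lit 11) (.e (nat_lit 24640) (nat_lit 10) (.e (nat_lit 344156) (nat_lit 36) (.e (nat_lit 638985) (nat_lit 5) (.e (nat_lit 3027) (nat_lit 187) .nil))))) (.g (nat_lit 0) (.e (nat_lit 423222) (nat_lit 0) .nil) .nil))) 
(.lf (nat_lit 602640) (.g (nat_lit 3965) (.e (nat_lit 647181) (nat_lit 3) (.e (nat_lit 163979) (nat_lit 30) (.e (nat_lit 573493) (nat_lit 15) (.e (nat_lit 81954) (nat_lit 23) (.e (nat_lit 98359) (nat_lit 26) (.e (nat_lit 426022) (nat_lit 0) (.e (nat_lit 3397) (nat_lit 211) .nil))))))) (.g (nat_lit 1) (.e (nat_lit 424591) (nat_lit 0) .nil) .nil)))) (.nd (nat_lit 9) 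
(.lf (nat_lit 602384) (.g (nat_lit 2384) (.e (nat_lit 655104) (nat_lit 0) (.e (nat_lit 2682) (nat_lit 168) (.e (nat_lit 204863) (nat_lit 27) (.e (nat_lit 344132) (nat_lit 26) (.e (nat_lit 557105) (nat_lit 14) .nil))))) (.g (nat_lit 0) (.e (nat_lit 424205) (nat_lit 0) .nil) .nil))) 
(.lf (nat_lit 602896) (.g (nat_lit 2024) (.e (nat_lit 647183) (nat_lit 4) (.e (nat_lit 172124) (nat_lit 14) (.e (nat_lit 491549) (nat_lit 9) (.e (nat_lit 336428) (nat_lit 29) (.e (nat_lit 442399) (nat_lit 20) (.e (nat_lit 3401) (nat_lit 211) .nil)))))) (.g (nat_lit 1) (.e (nat_lit 425140) (nat_lit 0) .nil) .nil))))) (.nd (nat_lit 8) (.nd (nat_lit 9) 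
(.lf (nat_lit 602256) (.g (nat_lit 2048) (.e (nat_lit 671762) (nat_lit 4) (.e (nat_lit 65629) (nat_lit 14) (.e (nat_lit 401437) (nat_lit 9) (.e (nat_lit 426542) (nat_lit 29) (.e (nat_lit 352297) (nat_lit 20) .nil))))) (.g (nat_lit 0) (.e (nat_lit 423630) (nat_lit 0) .nil) .nil))) 
(.lf (nat_lit 602768) (.g (nat_lit 2879) (.e (nat_lit 647183) (nat_lit 4) (.e (nat_lit 172113) (nat_lit 10) (.e (nat_lit 434272) (nat_lit 38) (.e (nat_lit 655378) (nat_lit 4) (.e (nat_lit 172097) (nat_lit 9) (.e (nat_lit 426025) (nat_lit 0) (.e (nat_lit 3397) (nat_lit 211) .nil))))))) (.g (nat_lit 1) (.e (nat_lit 424983) (nat_lit 0) .nil) .nil)))) (.nd (nat_lit 9) 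
(.lf (nat_lit 602512) (.g (nat_lit 4128) (.e (nat_lit 647181) (nat_lit 3) (.e (nat_lit 163977) (nat_lit 30) (.e (nat_lit 573493) (nat_lit 15) (.e (nat_lit 81953) (nat_lit 22) (.e (nat_lit 90170) (nat_lit 13) (.e (nat_lit 172033) (nat_lit 0) (.e (nat_lit 3397) (nat_lit 211) .nil))))))) (.g (nat_lit 1) (.e (nat_lit 424427) (nat_lit 0) .nil) .nil))) 
(.lf (nat_lit 603024) (.g (nat_lit 1324) (.e (nat_lit 647185) (nat_lit 6) (.e (nat_lit 188439) (nat_lit 20) (.e (nat_lit 3409) (nat_lit 212) (.e (nat_lit 655380) (nat_lit 6) (.e (nat_lit 188428) (nat_lit 20) (.e (nat_lit 3401) (nat_lit 211) .nil)))))) (.g (nat_lit 1) (.e (nat_lit 425599) (nat_lit 0) .nil) .nil)))))) (.nd (nat_lit 7) (.nd (nat_lit 8) (.nd (nat_lit 9) 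
(.lf (nat_lit 602192) (.g (nat_lit 1280) (.e (nat_lit 671759) (nat_lit 3) (.e (nat_lit 57478) (nat_lit 28) (.e (nat_lit 557107) (nat_lit 15) (.e (nat_lit 188452) (nat_lit 23) .nil)))) (.g (nat_lit 0) (.e (nat_lit 423553) (nat_lit 0) .nil) .nil))) 
(.lf (nat_lit 602704) (.g (nat_lit 1678) (.e (nat_lit 647183) (nat_lit 4) (.e (nat_lit 172106) (nat_lit 10) (.e (nat_lit 434272) (nat_lit 38) (.e (nat_lit 655363) (nat_lit 0) (.e (nat_lit 3027) (nat_lit 187) (.e (nat_lit 458496) (nat_lit 15) .nil)))))) (.g (nat_lit 1) (.e (nat_lit 424916) (nat_lit 0) .nil) .nil)))) (.nd (nat_lit 9) 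
(.lf (nat_lit 602448) (.g (nat_lit 3792) (.e (nat_lit 647181) (nat_lit 3) (.e (nat_lit 163977) (nat_lit 30) (.e (nat_lit 573482) (nat_lit 13) (.e (nat_lit 65604) (nat_lit 9) (.e (nat_lit 336013) (nat_lit 2) (.e (nat_lit 90170) (nat_lit 13) (.e (nat_lit 172033) (nat_lit 0) (.e (nat_lit 3397) (nat_lit 211) .nil)))))))) (.g (nat_lit 1) (.e (nat_lit 424350) (nat_lit 0) .nil) .nil))) 
(.lf (nat_lit 602960) (.g (nat_lit 1268) (.e (nat_lit 647183) (nat_lit 4) (.e (nat_lit 172126) (nat_lit 14) (.e (nat_lit 491550) (nat_lit 9) (.e (nat_lit 336369) (nat_lit 27) .nil)))) (.g (nat_lit 0) (.e (nat_lit 425244) (nat_lit 0) .nil) .nil))))) (.nd (nat_lit 8) (.nd (nat_lit 9) 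
(.lf (nat_lit 602320) (.g (nat_lit 1543) (.e (nat_lit 671764) (nat_lit 6) (.e (nat_lit 81957) (nat_lit 24) (.e (nat_lit 123195) (nat_lit 266) (.e (nat_lit 57413) (nat_lit 12) .nil)))) (.g (nat_lit 0) (.e (nat_lit 423699) (nat_lit 0) .nil) .nil))) 
(.lf (nat_lit 602832) (.g (nat_lit 1544) (.e (nat_lit 647183) (nat_lit 4) (.e (nat_lit 172118) (nat_lit 12) (.e (nat_lit 475198) (nat_lit 40) (.e (nat_lit 704599) (nat_lit 6) (.e (nat_lit 188430) (nat_lit 20) .nil))))) (.g (nat_lit 0) (.e (nat_lit 425060) (nat_lit 0) .nil) .nil)))) (.nd (nat_lit 9) 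
(.lf (nat_lit 602576) (.g (nat_lit 3559) (.e (nat_lit 647181) (nat_lit 3) (.e (nat_lit 163978) (nat_lit 30) (.e (nat_lit 573485) (nat_lit 13) (.e (nat_lit 65604) (nat_lit 9) (.e (nat_lit 336028) (nat_lit 3) (.e (nat_lit 98359) (nat_lit 26) (.e (nat_lit 426022) (nat_lit 0) (.e (nat_lit 3401) (nat_lit 211) .nil)))))))) (.g (nat_lit 1) (.e (nat_lit 424512) (nat_lit 0) .nil) .nil))) 
(.lf (nat_lit 603088) (.g (nat_lit 2488) (.e (nat_lit 647203) (nat_lit 14) (.e (nat_lit 1349) (nat_lit 102) (.e (nat_lit 286759) (nat_lit 12) (.e (nat_lit 385106) (nat_lit 50) (.e (nat_lit 786481) (nat_lit 30) .nil))))) (.g (nat_lit 0) (.e (nat_lit 425859) (nat_lit 0) .nil) .nil))))))) (.nd (nat_lit 6) (.nd (nat_lit 7) (.nd (nat_lit 8) (.nd (nat_lit 9) 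
(.lf (nat_lit 602160) (.g (nat_lit 265) (.e (nat_lit 663589) (nat_lit 14) (.e (nat_lit 2808) (nat_lit 180) (.e (nat_lit 303146) (nat_lit 14) .nil))) (.g (nat_lit 0) (.e (nat_lit 423502) (nat_lit 0) .nil) .nil))) 
(.lf (nat_lit 602672) (.g (nat_lit 2018) (.e (nat_lit 647183) (nat_lit 4) (.e (nat_lit 172094) (nat_lit 9) (.e (nat_lit 426025) (nat_lit 0) (.e (nat_lit 3399) (nat_lit 211) (.e (nat_lit 647183) (nat_lit 4) (.e (nat_lit 172097) (nat_lit 9) (.e (nat_lit 426025) (nat_lit 0) (.e (nat_lit 3399) (nat_lit 211) .nil)))))))) (.g (nat_lit 1) (.e (nat_lit 424837) (nat_lit 0) .nil) .nil)))) (.nd (nat_lit 9) 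
(.lf (nat_lit 602416) (.g (nat_lit 3856) (.e (nat_lit 647180) (nat_lit 3) (.e (nat_lit 163979) (nat_lit 30) (.e (nat_lit 573482) (nat_lit 13) (.e (nat_lit 65604) (nat_lit 9) (.e (nat_lit 336013) (nat_lit 2) (.e (nat_lit 90170) (nat_lit 13) (.e (nat_lit 172039) (nat_lit 0) (.e (nat_lit 3401) (nat_lit 211) .nil)))))))) (.g (nat_lit 1) (.e (nat_lit 424282) (nat_lit 0) .nil) .nil))) 
(.lf (nat_lit 602928) (.g (nat_lit 2103) (.e (nat_lit 647183) (nat_lit 4) (.e (nat_lit 172124) (nat_lit 14) (.e (nat_lit 491571) (nat_lit 13) (.e (nat_lit 393280) (nat_lit 23) .nil)))) (.g (nat_lit 0) (.e (nat_lit 425199) (nat_lit 0) .nil) .nil))))) (.nd (nat_lit 8) (.nd (nat_lit 9) 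
(.lf (nat_lit 602288) (.g (nat_lit 2761) (.e (nat_lit 671763) (nat_lit 5) (.e (nat_lit 73781) (nat_lit 32) (.e (nat_lit 2856) (nat_lit 184) (.e (nat_lit 426542) (nat_lit 29) (.e (nat_lit 352297) (nat_lit 20) (.e (nat_lit 2006) (nat_lit 138) .nil)))))) (.g (nat_lit 1) (.e (nat_lit 423662) (nat_lit 0) .nil) .nil))) 
(.lf (nat_lit 602800) (.g (nat_lit 2631) (.e (nat_lit 647183) (nat_lit 4) (.e (nat_lit 172115) (nat_lit 10) (.e (nat_lit 434272) (nat_lit 38) (.e (nat_lit 655364) (nat_lit 0) (.e (nat_lit 3022) (nat_lit 187) (.e (nat_lit 458496) (nat_lit 15) .nil)))))) (.g (nat_lit 1) (.e (nat_lit 425026) (nat_lit 0) .nil) .nil)))) (.nd (nat_lit 9) 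
(.lf (nat_lit 602544) (.g (nat_lit 4393) (.e (nat_lit 647181) (nat_lit 3) (.e (nat_lit 163977) (nat_lit 30) (.e (nat_lit 573493) (nat_lit 15) (.e (nat_lit 81956) (nat_lit 23) (.e (nat_lit 98364) (nat_lit 26) .nil))))) (.g (nat_lit 0) (.e (nat_lit 424465) (nat_lit 0) .nil) .nil))) 
(.lf (nat_lit 603056) (.g (nat_lit 1762) (.e (nat_lit 647185) (nat_lit 6) (.e (nat_lit 188452) (nat_lit 23) (.e (nat_lit 204821) (nat_lit 17) (.e (nat_lit 7936) (nat_lit 155) .nil)))) (.g (nat_lit 0) (.e (nat_lit 425695) (nat_lit 0) .nil) .nil)))))) (.nd (nat_lit 7) (.nd (nat_lit 8) (.nd (nat_lit 9) 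
(.lf (nat_lit 602224) (.g (nat_lit 2452) (.e (nat_lit 671761) (nat_lit 4) (.e (nat_lit 65628) (nat_lit 14) (.e (nat_lit 401437) (nat_lit 9) (.e (nat_lit 426544) (nat_lit 30) (.e (nat_lit 360486) (nat_lit 18) .nil))))) (.g (nat_lit 0) (.e (nat_lit 423592) (nat_lit 0) .nil) .nil))) 
(.lf (nat_lit 602736) (.g (nat_lit 1863) (.e (nat_lit 647183) (nat_lit 4) (.e (nat_lit 172112) (nat_lit 10) (.e (nat_lit 434272) (nat_lit 38) (.e (nat_lit 655363) (nat_lit 0) (.e (nat_lit 3015) (nat_lit 187) (.e (nat_lit 458496) (nat_lit 15) .nil)))))) (.g (nat_lit 1) (.e (nat_lit 424949) (nat_lit 0) .nil) .nil)))) (.nd (nat_lit 9) 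
(.lf (nat_lit 602480) (.g (nat_lit 2144) (.e (nat_lit 647181) (nat_lit 3) (.e (nat_lit 163977) (nat_lit 30) (.e (nat_lit 573485) (nat_lit 13) (.e (nat_lit 65619) (nat_lit 10) (.e (nat_lit 344117) (nat_lit 21) (.e (nat_lit 516151) (nat_lit 9) (.e (nat_lit 426043) (nat_lit 0) (.e (nat_lit 7936) (nat_lit 211) .nil)))))))) (.g (nat_lit 1) (.e (nat_lit 424382) (nat_lit 0) .nil) .nil))) 
(.lf (nat_lit 602992) (.g (nat_lit 1991) (.e (nat_lit 647183) (nat_lit 4) (.e (nat_lit 172126) (nat_lit 14) (.e (nat_lit 491571) (nat_lit 13) (.e (nat_lit 393283) (nat_lit 24) (.e (nat_lit 442112) (nat_lit 37) .nil))))) (.g (nat_lit 1) (.e (nat_lit 425315) (nat_lit 0) .nil) .nil))))) (.nd (nat_lit 8) (.nd (nat_lit 9) 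
(.lf (nat_lit 602352) (.g (nat_lit 2929) (.e (nat_lit 647170) (nat_lit 0) (.e (nat_lit 3098) (nat_lit 192) (.e (nat_lit 491566) (nat_lit 12) (.e (nat_lit 385098) (nat_lit 49) .nil)))) (.g (nat_lit 0) (.e (nat_lit 423980) (nat_lit 0) .nil) .nil))) 
(.lf (nat_lit 602864) (.g (nat_lit 1624) (.e (nat_lit 647183) (nat_lit 4) (.e (nat_lit 172120) (nat_lit 12) (.e (nat_lit 475198) (nat_lit 40) (.e (nat_lit 704599) (nat_lit 6) (.e (nat_lit 188424) (nat_lit 20) .nil))))) (.g (nat_lit 0) (.e (nat_lit 425100) (nat_lit 0) .nil) .nil)))) (.nd (nat_lit 9) 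
(.lf (nat_lit 602608) (.g (nat_lit 4670) (.e (nat_lit 647181) (nat_lit 3) (.e (nat_lit 163979) (nat_lit 30) (.e (nat_lit 573482) (nat_lit 13) (.e (nat_lit 65619) (nat_lit 10) (.e (nat_lit 344117) (nat_lit 21) (.e (nat_lit 516151) (nat_lit 9) (.e (nat_lit 426022) (nat_lit 0) (.e (nat_lit 3401) (nat_lit 211) .nil)))))))) (.g (nat_lit 1) (.e (nat_lit 424547) (nat_lit 0) .nil) .nil))) 
(.lf (nat_lit 603120) (.g (nat_lit 2847) (.e (nat_lit 655373) (nat_lit 3) (.e (nat_lit 163978) (nat_lit 30) (.e (nat_lit 573479) (nat_lit 13) (.e (nat_lit 65604) (nat_lit 9) (.e (nat_lit 336013) (nat_lit 2) .nil))))) (.g (nat_lit 0) (.e (nat_lit 426223) (nat_lit 0) .nil) .nil))))))))) (.nd (nat_lit 4) (.nd (nat_lit 5) (.nd (nat_lit 6) (.nd (nat_lit 7) (.nd (nat_lit 8) (.nd (nat_lit 9) 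
(.lf (nat_lit 602120) (.g (nat_lit 1629) (.e (nat_lit 663583) (nat_lit 11) (.e (nat_lit 24617) (nat_lit 7) (.e (nat_lit 319533) (nat_lit 16) (.e (nat_lit 286723) (nat_lit 0) .nil)))) (.g (nat_lit 0) (.e (nat_lit 423187) (nat_lit 0) .nil) .nil))) 
(.lf (nat_lit 602632) (.g (nat_lit 4122) (.e (nat_lit 647181) (nat_lit 3) (.e (nat_lit 163979) (nat_lit 30) (.e (nat_lit 573493) (nat_lit 15) (.e (nat_lit 81951) (nat_lit 22) (.e (nat_lit 90170) (nat_lit 13) (.e (nat_lit 172035) (nat_lit 0) (.e (nat_lit 3397) (nat_lit 211) .nil))))))) (.g (nat_lit 1) (.e (nat_lit 424581) (nat_lit 0) .nil) .nil)))) (.nd (nat_lit 9) 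
(.lf (nat_lit 602376) (.g (nat_lit 1294) (.e (nat_lit 647177) (nat_lit 0) (.e (nat_lit 2682) (nat_lit 168) (.e (nat_lit 204863) (nat_lit 27) (.e (nat_lit 344129) (nat_lit 26) .nil)))) (.g (nat_lit 0) (.e (nat_lit 424152) (nat_lit 0) .nil) .nil))) 
(.lf (nat_lit 602888) (.g (nat_lit 1552) (.e (nat_lit 647183) (nat_lit 4) (.e (nat_lit 172124) (nat_lit 14) (.e (nat_lit 491548) (nat_lit 9) (.e (nat_lit 336432) (nat_lit 30) (.e (nat_lit 458496) (nat_lit 15) .nil))))) (.g (nat_lit 1) (.e (nat_lit 425131) (nat_lit 0) .nil) .nil))))) (.nd (nat_lit 8) (.nd (nat_lit 9) 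
(.lf (nat_lit 602248) (.g (nat_lit 2593) (.e (nat_lit 671762) (nat_lit 4) (.e (nat_lit 65628) (nat_lit 14) (.e (nat_lit 401437) (nat_lit 9) (.e (nat_lit 426482) (nat_lit 27) (.e (nat_lit 336164) (nat_lit 10) .nil))))) (.g (nat_lit 0) (.e (nat_lit 423622) (nat_lit 0) .nil) .nil))) 
(.lf (nat_lit 602760) (.g (nat_lit 2826) (.e (nat_lit 647183) (nat_lit 4) (.e (nat_lit 172113) (nat_lit 10) (.e (nat_lit 434272) (nat_lit 38) (.e (nat_lit 655364) (nat_lit 0) (.e (nat_lit 3022) (nat_lit 187) (.e (nat_lit 458496) (nat_lit 15) .nil)))))) (.g (nat_lit 1) (.e (nat_lit 424975) (nat_lit 0) .nil) .nil)))) (.nd (nat_lit 9) 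
(.lf (nat_lit 602504) (.g (nat_lit 2753) (.e (nat_lit 647181) (nat_lit 3) (.e (nat_lit 163977) (nat_lit 30) (.e (nat_lit 573492) (nat_lit 15) (.e (nat_lit 81956) (nat_lit 23) (.e (nat_lit 106240) (nat_lit 26) .nil))))) (.g (nat_lit 0) (.e (nat_lit 424411) (nat_lit 0) .nil) .nil))) 
(.lf (nat_lit 603016) (.g (nat_lit 1738) (.e (nat_lit 647185) (nat_lit 6) (.e (nat_lit 188431) (nat_lit 20) (.e (nat_lit 3401) (nat_lit 211) (.e (nat_lit 647183) (nat_lit 4) (.e (nat_lit 172097) (nat_lit 9) (.e (nat_lit 426025) (nat_lit 0) (.e (nat_lit 3399) (nat_lit 211) .nil))))))) (.g (nat_lit 1) (.e (nat_lit 425560) (nat_lit 0) .nil) .nil)))))) 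
(.nd (nat_lit 7) (.nd (nat_lit 8) (.nd (nat_lit 9) 
(.lf (nat_lit 602184) (.g (nat_lit 2601) (.e (nat_lit 671757) (nat_lit 3) (.e (nat_lit 57478) (nat_lit 28) (.e (nat_lit 557109) (nat_lit 15) (.e (nat_lit 188452) (nat_lit 23) (.e (nat_lit 204862) (nat_lit 27) .nil))))) (.g (nat_lit 0) (.e (nat_lit 423541) (nat_lit 0) .nil) .nil))) 
(.lf (nat_lit 602696) (.g (nat_lit 1381) (.e (nat_lit 647183) (nat_lit 4) (.e (nat_lit 172106) (nat_lit 10) (.e (nat_lit 434271) (nat_lit 38) (.e (nat_lit 655362) (nat_lit 0) (.e (nat_lit 3015) (nat_lit 187) (.e (nat_lit 458496) (nat_lit 15) .nil)))))) (.g (nat_lit 1) (.e (nat_lit 424908) (nat_lit 0) .nil) .nil)))) (.nd (nat_lit 9) 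
(.lf (nat_lit 602440) (.g (nat_lit 4558) (.e (nat_lit 647180) (nat_lit 3) (.e (nat_lit 163979) (nat_lit 30) (.e (nat_lit 573493) (nat_lit 15) (.e (nat_lit 81956) (nat_lit 23) (.e (nat_lit 98360) (nat_lit 26) (.e (nat_lit 426025) (nat_lit 0) (.e (nat_lit 3397) (nat_lit 211) .nil))))))) (.g (nat_lit 1) (.e (nat_lit 424325) (nat_lit 0) .nil) .nil))) 
(.lf (nat_lit 602952) (.g (nat_lit 2124) (.e (nat_lit 647183) (nat_lit 4) (.e (nat_lit 172126) (nat_lit 14) (.e (nat_lit 491549) (nat_lit 9) (.e (nat_lit 336428) (nat_lit 29) (.e (nat_lit 442399) (nat_lit 20) (.e (nat_lit 3401) (nat_lit 211) .nil)))))) (.g (nat_lit 1) (.e (nat_lit 425234) (nat_lit 0) .nil) .nil))))) (.nd (nat_lit 8) (.nd (nat_lit 9) 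
(.lf (nat_lit 602312) (.g (nat_lit 290) (.e (nat_lit 671764) (nat_lit 6) (.e (nat_lit 81935) (nat_lit 20) (.e (nat_lit 1996) (nat_lit 137) .nil))) (.g (nat_lit 0) (.e (nat_lit 423688) (nat_lit 0) .nil) .nil))) 
(.lf (nat_lit 602824) (.g (nat_lit 1783) (.e (nat_lit 647183) (nat_lit 4) (.e (nat_lit 172116) (nat_lit 10) (.e (nat_lit 434272) (nat_lit 38) (.e (nat_lit 655378) (nat_lit 4) (.e (nat_lit 172089) (nat_lit 9) (.e (nat_lit 426025) (nat_lit 0) (.e (nat_lit 3399) (nat_lit 211) .nil))))))) (.g (nat_lit 1) (.e (nat_lit 425052) (nat_lit 0) .nil) .nil)))) (.nd (nat_lit 9) 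
(.lf (nat_lit 602568) (.g (nat_lit 2696) (.e (nat_lit 647181) (nat_lit 3) (.e (nat_lit 163978) (nat_lit 30) (.e (nat_lit 573485) (nat_lit 13) (.e (nat_lit 65604) (nat_lit 9) (.e (nat_lit 336013) (nat_lit 2) (.e (nat_lit 90170) (nat_lit 13) (.e (nat_lit 172033) (nat_lit 0) (.e (nat_lit 3402) (nat_lit 211) .nil)))))))) (.g (nat_lit 1) (.e (nat_lit 424504) (nat_lit 0) .nil) .nil))) 
(.lf (nat_lit 603080) (.g (nat_lit 2258) (.e (nat_lit 647201) (nat_lit 12) (.e (nat_lit 57574) (nat_lit 55) (.e (nat_lit 778466) (nat_lit 11) (.e (nat_lit 24617) (nat_lit 7) (.e (nat_lit 319534) (nat_lit 16) (.e (nat_lit 286756) (nat_lit 10) (.e (nat_lit 344159) (nat_lit 37) .nil))))))) (.g (nat_lit 1) (.e (nat_lit 425845) (nat_lit 0) .nil) .nil))))))) 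
(.nd (nat_lit 6) (.nd (nat_lit 7) (.nd (nat_lit 8) (.nd (nat_lit 9) 
(.lf (nat_lit 602152) (.g (nat_lit 2013) (.e (nat_lit 663589) (nat_lit 14) (.e (nat_lit 2797) (nat_lit 180) (.e (nat_lit 303143) (nat_lit 12) (.e (nat_lit 475211) (nat_lit 41) (.e (nat_lit 712755) (nat_lit 30) .nil))))) (.g (nat_lit 0) (.e (nat_lit 423422) (nat_lit 0) .nil) .nil))) 
(.lf (nat_lit 602664) (.g (nat_lit 780) (.e (nat_lit 647183) (nat_lit 4) (.e (nat_lit 172082) (nat_lit 7) (.e (nat_lit 409642) (nat_lit 17) (.e (nat_lit 302848) (nat_lit 29) .nil)))) (.g (nat_lit 0) (.e (nat_lit 424825) (nat_lit 0) .nil) .nil)))) (.nd (nat_lit 9) 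
(.lf (nat_lit 602408) (.g (nat_lit 3651) (.e (nat_lit 647180) (nat_lit 3) (.e (nat_lit 163978) (nat_lit 30) (.e (nat_lit 573485) (nat_lit 13) (.e (nat_lit 65604) (nat_lit 9) (.e (nat_lit 336028) (nat_lit 3) (.e (nat_lit 98359) (nat_lit 26) (.e (nat_lit 426023) (nat_lit 0) (.e (nat_lit 3397) (nat_lit 211) .nil)))))))) (.g (nat_lit 1) (.e (nat_lit 424272) (nat_lit 0) .nil) .nil))) 
(.lf (nat_lit 602920) (.g (nat_lit 2182) (.e (nat_lit 647183) (nat_lit 4) (.e (nat_lit 172124) (nat_lit 14) (.e (nat_lit 491571) (nat_lit 13) (.e (nat_lit 393232) (nat_lit 17) (.e (nat_lit 7303) (nat_lit 388) (.e (nat_lit 2439) (nat_lit 157) (.e (nat_lit 3399) (nat_lit 211) .nil))))))) (.g (nat_lit 1) (.e (nat_lit 425172) (nat_lit 0) .nil) .nil))))) (.nd (nat_lit 8) (.nd (nat_lit 9) 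
(.lf (nat_lit 602280) (.g (nat_lit 2078) (.e (nat_lit 671762) (nat_lit 4) (.e (nat_lit 65630) (nat_lit 14) (.e (nat_lit 401456) (nat_lit 13) (.e (nat_lit 483396) (nat_lit 24) (.e (nat_lit 344169) (nat_lit 40) .nil))))) (.g (nat_lit 0) (.e (nat_lit 423654) (nat_lit 0) .nil) .nil))) 
(.lf (nat_lit 602792) (.g (nat_lit 1894) (.e (nat_lit 647183) (nat_lit 4) (.e (nat_lit 172115) (nat_lit 10) (.e (nat_lit 434271) (nat_lit 38) (.e (nat_lit 655378) (nat_lit 4) (.e (nat_lit 172088) (nat_lit 9) .nil))))) (.g (nat_lit 0) (.e (nat_lit 425018) (nat_lit 0) .nil) .nil)))) (.nd (nat_lit 9) 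
(.lf (nat_lit 602536) (.g (nat_lit 2974) (.e (nat_lit 647181) (nat_lit 3) (.e (nat_lit 163977) (nat_lit 30) (.e (nat_lit 573493) (nat_lit 15) (.e (nat_lit 81956) (nat_lit 23) (.e (nat_lit 98360) (nat_lit 26) .nil))))) (.g (nat_lit 0) (.e (nat_lit 424457) (nat_lit 0) .nil) .nil))) 
(.lf (nat_lit 603048) (.g (nat_lit 2665) (.e (nat_lit 647185) (nat_lit 6) (.e (nat_lit 188446) (nat_lit 21) (.e (nat_lit 164347) (nat_lit 240) (.e (nat_lit 2648) (nat_lit 166) (.e (nat_lit 188431) (nat_lit 20) (.e (nat_lit 3397) (nat_lit 211) .nil)))))) (.g (nat_lit 1) (.e (nat_lit 425681) (nat_lit 0) .nil) .nil)))))) (.nd (nat_lit 7) (.nd (nat_lit 8) (.nd (nat_lit 9) 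
(.lf (nat_lit 602216) (.g (nat_lit 1510) (.e (nat_lit 671760) (nat_lit 4) (.e (nat_lit 65630) (nat_lit 14) (.e (nat_lit 401437) (nat_lit 9) (.e (nat_lit 426555) (nat_lit 32) .nil)))) (.g (nat_lit 0) (.e (nat_lit 423584) (nat_lit 0) .nil) .nil))) 
(.lf (nat_lit 602728) (.g (nat_lit 1779) (.e (nat_lit 647183) (nat_lit 4) (.e (nat_lit 172107) (nat_lit 10) (.e (nat_lit 434272) (nat_lit 38) (.e (nat_lit 655378) (nat_lit 4) (.e (nat_lit 172088) (nat_lit 9) .nil))))) (.g (nat_lit 0) (.e (nat_lit 424940) (nat_lit 0) .nil) .nil)))) (.nd (nat_lit 9) 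
(.lf (nat_lit 602472) (.g (nat_lit 3372) (.e (nat_lit 647181) (nat_lit 3) (.e (nat_lit 163977) (nat_lit 30) (.e (nat_lit 573485) (nat_lit 13) (.e (nat_lit 65604) (nat_lit 9) (.e (nat_lit 336028) (nat_lit 3) (.e (nat_lit 98359) (nat_lit 26) (.e (nat_lit 426003) (nat_lit 0) (.e (nat_lit 3399) (nat_lit 211) .nil)))))))) (.g (nat_lit 1) (.e (nat_lit 424374) (nat_lit 0) .nil) .nil))) 
(.lf (nat_lit 602984) (.g (nat_lit 2114) (.e (nat_lit 647183) (nat_lit 4) (.e (nat_lit 172126) (nat_lit 14) (.e (nat_lit 491571) (nat_lit 13) (.e (nat_lit 393275) (nat_lit 23) .nil)))) (.g (nat_lit 0) (.e (nat_lit 425302) (nat_lit 0) .nil) .nil))))) (.nd (nat_lit 8) (.nd (nat_lit 9) 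
(.lf (nat_lit 602344) (.g (nat_lit 2552) (.e (nat_lit 647170) (nat_lit 0) (.e (nat_lit 3098) (nat_lit 192) (.e (nat_lit 491565) (nat_lit 12) (.e (nat_lit 385102) (nat_lit 50) (.e (nat_lit 786481) (nat_lit 30) (.e (nat_lit 368384) (nat_lit 15) .nil)))))) (.g (nat_lit 1) (.e (nat_lit 423952) (nat_lit 0) .nil) .nil))) 
(.lf (nat_lit 602856) (.g (nat_lit 1317) (.e (nat_lit 647183) (nat_lit 4) (.e (nat_lit 172119) (nat_lit 12) (.e (nat_lit 475211) (nat_lit 41) (.e (nat_lit 712754) (nat_lit 30) (.e (nat_lit 458496) (nat_lit 15) .nil))))) (.g (nat_lit 0) (.e (nat_lit 425087) (nat_lit 0) .nil) .nil)))) (.nd (nat_lit 9) 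
(.lf (nat_lit 602600) (.g (nat_lit 3199) (.e (nat_lit 647181) (nat_lit 3) (.e (nat_lit 163979) (nat_lit 30) (.e (nat_lit 573482) (nat_lit 13) (.e (nat_lit 65604) (nat_lit 9) (.e (nat_lit 336028) (nat_lit 3) (.e (nat_lit 98359) (nat_lit 26) (.e (nat_lit 426003) (nat_lit 0) (.e (nat_lit 3399) (nat_lit 211) .nil)))))))) (.g (nat_lit 1) (.e (nat_lit 424539) (nat_lit 0) .nil) .nil))) 
(.lf (nat_lit 603112) (.g (nat_lit 4258) (.e (nat_lit 655373) (nat_lit 3) (.e (nat_lit 163975) (nat_lit 30) (.e (nat_lit 573481) (nat_lit 13) (.e (nat_lit 65619) (nat_lit 10) (.e (nat_lit 344117) (nat_lit 21) (.e (nat_lit 516151) (nat_lit 9) (.e (nat_lit 426043) (nat_lit 0) (.e (nat_lit 3406) (nat_lit 212) .nil)))))))) (.g (nat_lit 1) (.e (nat_lit 426194) (nat_lit 0) .nil) .nil)))))))) 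
(.nd (nat_lit 5) (.nd (nat_lit 6) (.nd (nat_lit 7) (.nd (nat_lit 8) (.nd (nat_lit 9) 
(.lf (nat_lit 602136) (.g (nat_lit 1244) (.e (nat_lit 663584) (nat_lit 12) (.e (nat_lit 163999) (nat_lit 38) (.e (nat_lit 639020) (nat_lit 16) (.e (nat_lit 65627) (nat_lit 13) (.e (nat_lit 393283) (nat_lit 24) .nil))))) (.g (nat_lit 0) (.e (nat_lit 423348) (nat_lit 0) .nil) .nil))) 
(.lf (nat_lit 602648) (.g (nat_lit 3530) (.e (nat_lit 647181) (nat_lit 3) (.e (nat_lit 163979) (nat_lit 30) (.e (nat_lit 573493) (nat_lit 15) (.e (nat_lit 81956) (nat_lit 23) (.e (nat_lit 98359) (nat_lit 26) (.e (nat_lit 426022) (nat_lit 0) (.e (nat_lit 3401) (nat_lit 211) .nil))))))) (.g (nat_lit 1) (.e (nat_lit 424599) (nat_lit 0) .nil) .nil)))) (.nd (nat_lit 9) 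
(.lf (nat_lit 602392) (.g (nat_lit 3275) (.e (nat_lit 647180) (nat_lit 3) (.e (nat_lit 163976) (nat_lit 30) (.e (nat_lit 573492) (nat_lit 15) (.e (nat_lit 81956) (nat_lit 23) (.e (nat_lit 98359) (nat_lit 26) (.e (nat_lit 426025) (nat_lit 0) (.e (nat_lit 3397) (nat_lit 211) .nil))))))) (.g (nat_lit 1) (.e (nat_lit 424255) (nat_lit 0) .nil) .nil))) 
(.lf (nat_lit 602904) (.g (nat_lit 1799) (.e (nat_lit 647183) (nat_lit 4) (.e (nat_lit 172124) (nat_lit 14) (.e (nat_lit 491550) (nat_lit 9) (.e (nat_lit 336430) (nat_lit 29) (.e (nat_lit 442392) (nat_lit 20) (.e (nat_lit 3399) (nat_lit 211) .nil)))))) (.g (nat_lit 1) (.e (nat_lit 425150) (nat_lit 0) .nil) .nil))))) (.nd (nat_lit 8) (.nd (nat_lit 9) 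
(.lf (nat_lit 602264) (.g (nat_lit 2459) (.e (nat_lit 671762) (nat_lit 4) (.e (nat_lit 65630) (nat_lit 14) (.e (nat_lit 401437) (nat_lit 9) (.e (nat_lit 426538) (nat_lit 29) .nil)))) (.g (nat_lit 0) (.e (nat_lit 423638) (nat_lit 0) .nil) .nil))) 
(.lf (nat_lit 602776) (.g (nat_lit 2794) (.e (nat_lit 647183) (nat_lit 4) (.e (nat_lit 172115) (nat_lit 10) (.e (nat_lit 434209) (nat_lit 18) (.e (nat_lit 5546) (nat_lit 306) (.e (nat_lit 2649) (nat_lit 166) (.e (nat_lit 188427) (nat_lit 20) (.e (nat_lit 3402) (nat_lit 211) .nil))))))) (.g (nat_lit 1) (.e (nat_lit 424995) (nat_lit 0) .nil) .nil)))) (.nd (nat_lit 9) 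
(.lf (nat_lit 602520) (.g (nat_lit 3524) (.e (nat_lit 647181) (nat_lit 3) (.e (nat_lit 163977) (nat_lit 30) (.e (nat_lit 573493) (nat_lit 15) (.e (nat_lit 81954) (nat_lit 23) (.e (nat_lit 98359) (nat_lit 26) (.e (nat_lit 426003) (nat_lit 0) (.e (nat_lit 3399) (nat_lit 211) .nil))))))) (.g (nat_lit 1) (.e (nat_lit 424439) (nat_lit 0) .nil) .nil))) 
(.lf (nat_lit 603032) (.g (nat_lit 1666) (.e (nat_lit 647185) (nat_lit 6) (.e (nat_lit 188441) (nat_lit 20) (.e (nat_lit 3406) (nat_lit 212) (.e (nat_lit 655380) (nat_lit 6) (.e (nat_lit 188427) (nat_lit 20) (.e (nat_lit 3397) (nat_lit 211) .nil)))))) (.g (nat_lit 1) (.e (nat_lit 425619) (nat_lit 0) .nil) .nil)))))) (.nd (nat_lit 7) (.nd (nat_lit 8) (.nd (nat_lit 9) 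
(.lf (nat_lit 602200) (.g (nat_lit 2512) (.e (nat_lit 671759) (nat_lit 3) (.e (nat_lit 57479) (nat_lit 28) (.e (nat_lit 557107) (nat_lit 15) (.e (nat_lit 188448) (nat_lit 22) .nil)))) (.g (nat_lit 0) (.e (nat_lit 423565) (nat_lit 0) .nil) .nil))) 
(.lf (nat_lit 602712) (.g (nat_lit 2091) (.e (nat_lit 647183) (nat_lit 4) (.e (nat_lit 172106) (nat_lit 10) (.e (nat_lit 434272) (nat_lit 38) (.e (nat_lit 655378) (nat_lit 4) (.e (nat_lit 172088) (nat_lit 9) (.e (nat_lit 426025) (nat_lit 0) (.e (nat_lit 3397) (nat_lit 211) .nil))))))) (.g (nat_lit 1) (.e (nat_lit 424924) (nat_lit 0) .nil) .nil)))) (.nd (nat_lit 9) 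
(.lf (nat_lit 602456) (.g (nat_lit 3752) (.e (nat_lit 647181) (nat_lit 3) (.e (nat_lit 163977) (nat_lit 30) (.e (nat_lit 573482) (nat_lit 13) (.e (nat_lit 65619) (nat_lit 10) (.e (nat_lit 344117) (nat_lit 21) (.e (nat_lit 516151) (nat_lit 9) (.e (nat_lit 426003) (nat_lit 0) (.e (nat_lit 3402) (nat_lit 211) .nil)))))))) (.g (nat_lit 1) (.e (nat_lit 424358) (nat_lit 0) .nil) .nil))) 
(.lf (nat_lit 602968) (.g (nat_lit 1495) (.e (nat_lit 647183) (nat_lit 4) (.e (nat_lit 172126) (nat_lit 14) (.e (nat_lit 491569) (nat_lit 13) (.e (nat_lit 393281) (nat_lit 23) .nil)))) (.g (nat_lit 0) (.e (nat_lit 425256) (nat_lit 0) .nil) .nil))))) (.nd (nat_lit 8) (.nd (nat_lit 9) 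
(.lf (nat_lit 602328) (.g (nat_lit 2023) (.e (nat_lit 671779) (nat_lit 11) (.e (nat_lit 24640) (nat_lit 10) (.e (nat_lit 344156) (nat_lit 36) (.e (nat_lit 638998) (nat_lit 8) (.e (nat_lit 172115) (nat_lit 10) .nil))))) (.g (nat_lit 0) (.e (nat_lit 423735) (nat_lit 0) .nil) .nil))) 
(.lf (nat_lit 602840) (.g (nat_lit 2785) (.e (nat_lit 647183) (nat_lit 4) (.e (nat_lit 172118) (nat_lit 12) (.e (nat_lit 475210) (nat_lit 41) (.e (nat_lit 712750) (nat_lit 29) (.e (nat_lit 442399) (nat_lit 20) (.e (nat_lit 3402) (nat_lit 211) .nil)))))) (.g (nat_lit 1) (.e (nat_lit 425069) (nat_lit 0) .nil) .nil)))) (.nd (nat_lit 9) 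
(.lf (nat_lit 602584) (.g (nat_lit 4657) (.e (nat_lit 647181) (nat_lit 3) (.e (nat_lit 163978) (nat_lit 30) (.e (nat_lit 573485) (nat_lit 13) (.e (nat_lit 65619) (nat_lit 10) (.e (nat_lit 344117) (nat_lit 21) (.e (nat_lit 516151) (nat_lit 9) (.e (nat_lit 426022) (nat_lit 0) (.e (nat_lit 3402) (nat_lit 211) .nil)))))))) (.g (nat_lit 1) (.e (nat_lit 424520) (nat_lit 0) .nil) .nil))) 
(.lf (nat_lit 603096) (.g (nat_lit 572) (.e (nat_lit 655364) (nat_lit 0) (.e (nat_lit 3016) (nat_lit 187) (.e (nat_lit 450596) (nat_lit 17) .nil))) (.g (nat_lit 0) (.e (nat_lit 426089) (nat_lit 0) .nil) .nil))))))) (.nd (nat_lit 6) (.nd (nat_lit 7) (.nd (nat_lit 8) (.nd (nat_lit 9) 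
(.lf (nat_lit 602168) (.g (nat_lit 865) (.e (nat_lit 671746) (nat_lit 0) (.e (nat_lit 1595) (nat_lit 111) (.e (nat_lit 360457) (nat_lit 0) (.e (nat_lit 5597) (nat_lit 310) .nil)))) (.g (nat_lit 0) (.e (nat_lit 423517) (nat_lit 0) .nil) .nil))) 
(.lf (nat_lit 602680) (.g (nat_lit 900) (.e (nat_lit 647183) (nat_lit 4) (.e (nat_lit 172097) (nat_lit 9) (.e (nat_lit 426109) (nat_lit 1) (.e (nat_lit 164347) (nat_lit 240) .nil)))) (.g (nat_lit 0) (.e (nat_lit 424878) (nat_lit 0) .nil) .nil)))) (.nd (nat_lit 9) 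
(.lf (nat_lit 602424) (.g (nat_lit 2043) (.e (nat_lit 647180) (nat_lit 3) (.e (nat_lit 163979) (nat_lit 30) (.e (nat_lit 573491) (nat_lit 15) (.e (nat_lit 81954) (nat_lit 23) (.e (nat_lit 98360) (nat_lit 26) .nil))))) (.g (nat_lit 0) (.e (nat_lit 424293) (nat_lit 0) .nil) .nil))) 
(.lf (nat_lit 602936) (.g (nat_lit 2689) (.e (nat_lit 647183) (nat_lit 4) (.e (nat_lit 172125) (nat_lit 14) (.e (nat_lit 491571) (nat_lit 13) (.e (nat_lit 393277) (nat_lit 23) .nil)))) (.g (nat_lit 0) (.e (nat_lit 425214) (nat_lit 0) .nil) .nil))))) (.nd (nat_lit 8) (.nd (nat_lit 9) 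
(.lf (nat_lit 602296) (.g (nat_lit 615) (.e (nat_lit 671763) (nat_lit 5) (.e (nat_lit 73782) (nat_lit 32) (.e (nat_lit 2842) (nat_lit 184) .nil))) (.g (nat_lit 0) (.e (nat_lit 423670) (nat_lit 0) .nil) .nil))) 
(.lf (nat_lit 602808) (.g (nat_lit 1975) (.e (nat_lit 647183) (nat_lit 4) (.e (nat_lit 172116) (nat_lit 10) (.e (nat_lit 434271) (nat_lit 38) (.e (nat_lit 655363) (nat_lit 0) (.e (nat_lit 3015) (nat_lit 187) (.e (nat_lit 458496) (nat_lit 15) .nil)))))) (.g (nat_lit 1) (.e (nat_lit 425034) (nat_lit 0) .nil) .nil)))) (.nd (nat_lit 9) 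
(.lf (nat_lit 602552) (.g (nat_lit 4633) (.e (nat_lit 647181) (nat_lit 3) (.e (nat_lit 163978) (nat_lit 30) (.e (nat_lit 573479) (nat_lit 13) (.e (nat_lit 65619) (nat_lit 10) (.e (nat_lit 344117) (nat_lit 21) (.e (nat_lit 516151) (nat_lit 9) (.e (nat_lit 426022) (nat_lit 0) (.e (nat_lit 3399) (nat_lit 211) .nil)))))))) (.g (nat_lit 1) (.e (nat_lit 424488) (nat_lit 0) .nil) .nil))) 
(.lf (nat_lit 603064) (.g (nat_lit 1366) (.e (nat_lit 647185) (nat_lit 6) (.e (nat_lit 188455) (nat_lit 24) (.e (nat_lit 229663) (nat_lit 240) (.e (nat_lit 2651) (nat_lit 166) .nil)))) (.g (nat_lit 0) (.e (nat_lit 425718) (nat_lit 0) .nil) .nil)))))) (.nd (nat_lit 7) (.nd (nat_lit 8) (.nd (nat_lit 9) 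
(.lf (nat_lit 602232) (.g (nat_lit 1998) (.e (nat_lit 671761) (nat_lit 4) (.e (nat_lit 65630) (nat_lit 14) (.e (nat_lit 401435) (nat_lit 9) (.e (nat_lit 426544) (nat_lit 30) (.e (nat_lit 360486) (nat_lit 18) .nil))))) (.g (nat_lit 0) (.e (nat_lit 423600) (nat_lit 0) .nil) .nil))) 
(.lf (nat_lit 602744) (.g (nat_lit 2445) (.e (nat_lit 647183) (nat_lit 4) (.e (nat_lit 172113) (nat_lit 10) (.e (nat_lit 434271) (nat_lit 38) (.e (nat_lit 655363) (nat_lit 0) (.e (nat_lit 3015) (nat_lit 187) (.e (nat_lit 458496) (nat_lit 15) .nil)))))) (.g (nat_lit 1) (.e (nat_lit 424959) (nat_lit 0) .nil) .nil)))) (.nd (nat_lit 9) 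
(.lf (nat_lit 602488) (.g (nat_lit 2528) (.e (nat_lit 647181) (nat_lit 3) (.e (nat_lit 163977) (nat_lit 30) (.e (nat_lit 573491) (nat_lit 15) (.e (nat_lit 81954) (nat_lit 23) (.e (nat_lit 98354) (nat_lit 26) (.e (nat_lit 426025) (nat_lit 0) (.e (nat_lit 3399) (nat_lit 211) .nil))))))) (.g (nat_lit 1) (.e (nat_lit 424391) (nat_lit 0) .nil) .nil))) 
(.lf (nat_lit 603000) (.g (nat_lit 1381) (.e (nat_lit 647185) (nat_lit 6) (.e (nat_lit 188417) (nat_lit 0) (.e (nat_lit 2147) (nat_lit 142) (.e (nat_lit 704597) (nat_lit 6) (.e (nat_lit 188431) (nat_lit 20) (.e (nat_lit 3397) (nat_lit 211) .nil)))))) (.g (nat_lit 1) (.e (nat_lit 425521) (nat_lit 0) .nil) .nil))))) (.nd (nat_lit 8) (.nd (nat_lit 9) 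
(.lf (nat_lit 602360) (.g (nat_lit 2870) (.e (nat_lit 647170) (nat_lit 0) (.e (nat_lit 3098) (nat_lit 192) (.e (nat_lit 491566) (nat_lit 12) (.e (nat_lit 385104) (nat_lit 50) (.e (nat_lit 786481) (nat_lit 30) (.e (nat_lit 368384) (nat_lit 15) .nil)))))) (.g (nat_lit 1) (.e (nat_lit 424001) (nat_lit 0) .nil) .nil))) 
(.lf (nat_lit 602872) (.g (nat_lit 1273) (.e (nat_lit 647183) (nat_lit 4) (.e (nat_lit 172120) (nat_lit 12) (.e (nat_lit 475210) (nat_lit 41) (.e (nat_lit 712752) (nat_lit 29) .nil)))) (.g (nat_lit 0) (.e (nat_lit 425111) (nat_lit 0) .nil) .nil)))) (.nd (nat_lit 9) 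
(.lf (nat_lit 602616) (.g (nat_lit 2654) (.e (nat_lit 647181) (nat_lit 3) (.e (nat_lit 163979) (nat_lit 30) (.e (nat_lit 573491) (nat_lit 15) (.e (nat_lit 81951) (nat_lit 22) (.e (nat_lit 90170) (nat_lit 13) (.e (nat_lit 172038) (nat_lit 0) (.e (nat_lit 3397) (nat_lit 211) .nil))))))) (.g (nat_lit 1) (.e (nat_lit 424556) (nat_lit 0) .nil) .nil))) 
(.lf (nat_lit 603128) (.g (nat_lit 2656) (.e (nat_lit 655373) (nat_lit 3) (.e (nat_lit 163978) (nat_lit 30) (.e (nat_lit 573485) (nat_lit 13) (.e (nat_lit 65604) (nat_lit 9) (.e (nat_lit 336013) (nat_lit 2) (.e (nat_lit 90170) (nat_lit 13) (.e (nat_lit 172042) (nat_lit 0) (.e (nat_lit 3403) (nat_lit 212) .nil)))))))) (.g (nat_lit 1) (.e (nat_lit 426232) (nat_lit 0) .nil) .nil)))))))))) 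
(.nd (nat_lit 3) (.nd (nat_lit 4) (.nd (nat_lit 5) (.nd (nat_lit 6) (.nd (nat_lit 7) 
(.nd (nat_lit 8) (.nd (nat_lit 9) 
(.lf (nat_lit 602116) (.g (nat_lit 1886) (.e (nat_lit 663583) (nat_lit 11) (.e (nat_lit 24608) (nat_lit 3) (.e (nat_lit 98373) (nat_lit 29) (.e (nat_lit 458496) (nat_lit 3) .nil)))) (.g (nat_lit 0) (.e (nat_lit 423180) (nat_lit 0) .nil) .nil))) 
(.lf (nat_lit 602628) (.g (nat_lit 5412) (.e (nat_lit 647181) (nat_lit 3) (.e (nat_lit 163979) (nat_lit 30) (.e (nat_lit 573492) (nat_lit 15) (.e (nat_lit 81956) (nat_lit 23) (.e (nat_lit 98362) (nat_lit 26) (.e (nat_lit 426025) (nat_lit 0) (.e (nat_lit 3399) (nat_lit 211) .nil))))))) (.g (nat_lit 1) (.e (nat_lit 424575) (nat_lit 0) .nil) .nil)))) (.nd (nat_lit 9) 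
(.lf (nat_lit 602372) (.g (nat_lit 2440) (.e (nat_lit 647176) (nat_lit 0) (.e (nat_lit 2663) (nat_lit 167) (.e (nat_lit 196670) (nat_lit 14) (.e (nat_lit 73754) (nat_lit 8) (.e (nat_lit 557103) (nat_lit 14) .nil))))) (.g (nat_lit 0) (.e (nat_lit 424094) (nat_lit 0) .nil) .nil))) 
(.lf (nat_lit 602884) (.g (nat_lit 437) (.e (nat_lit 647183) (nat_lit 4) (.e (nat_lit 172124) (nat_lit 14) (.e (nat_lit 491548) (nat_lit 9) .nil))) (.g (nat_lit 0) (.e (nat_lit 425125) (nat_lit 0) .nil) .nil))))) (.nd (nat_lit 8) (.nd (nat_lit 9) 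
(.lf (nat_lit 602244) (.g (nat_lit 2318) (.e (nat_lit 671762) (nat_lit 4) (.e (nat_lit 65622) (nat_lit 12) (.e (nat_lit 385105) (nat_lit 50) (.e (nat_lit 786480) (nat_lit 29) (.e (nat_lit 352303) (nat_lit 20) .nil))))) (.g (nat_lit 0) (.e (nat_lit 423617) (nat_lit 0) .nil) .nil))) 
(.lf (nat_lit 602756) (.g (nat_lit 1626) (.e (nat_lit 647183) (nat_lit 4) (.e (nat_lit 172113) (nat_lit 10) (.e (nat_lit 434272) (nat_lit 38) (.e (nat_lit 655363) (nat_lit 0) (.e (nat_lit 3027) (nat_lit 187) (.e (nat_lit 458496) (nat_lit 15) .nil)))))) (.g (nat_lit 1) (.e (nat_lit 424971) (nat_lit 0) .nil) .nil)))) (.nd (nat_lit 9) 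
(.lf (nat_lit 602500) (.g (nat_lit 4042) (.e (nat_lit 647181) (nat_lit 3) (.e (nat_lit 163977) (nat_lit 30) (.e (nat_lit 573492) (nat_lit 15) (.e (nat_lit 81956) (nat_lit 23) (.e (nat_lit 98360) (nat_lit 26) (.e (nat_lit 426025) (nat_lit 0) (.e (nat_lit 3399) (nat_lit 211) .nil))))))) (.g (nat_lit 1) (.e (nat_lit 424407) (nat_lit 0) .nil) .nil))) 
(.lf (nat_lit 603012) (.g (nat_lit 1994) (.e (nat_lit 647185) (nat_lit 6) (.e (nat_lit 188431) (nat_lit 20) (.e (nat_lit 3397) (nat_lit 211) (.e (nat_lit 647185) (nat_lit 6) (.e (nat_lit 188431) (nat_lit 20) (.e (nat_lit 3397) (nat_lit 211) .nil)))))) (.g (nat_lit 1) (.e (nat_lit 425549) (nat_lit 0) .nil) .nil)))))) (.nd (nat_lit 7) (.nd (nat_lit 8) (.nd (nat_lit 9) 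
(.lf (nat_lit 602180) (.g (nat_lit 1060) (.e (nat_lit 671757) (nat_lit 3) (.e (nat_lit 57476) (nat_lit 28) (.e (nat_lit 557107) (nat_lit 15) (.e (nat_lit 188452) (nat_lit 23) .nil)))) (.g (nat_lit 0) (.e (nat_lit 423537) (nat_lit 0) .nil) .nil))) 
(.lf (nat_lit 602692) (.g (nat_lit 2840) (.e (nat_lit 647183) (nat_lit 4) (.e (nat_lit 172106) (nat_lit 10) (.e (nat_lit 434209) (nat_lit 18) (.e (nat_lit 5548) (nat_lit 306) (.e (nat_lit 2648) (nat_lit 166) (.e (nat_lit 188428) (nat_lit 20) (.e (nat_lit 3402) (nat_lit 211) .nil))))))) (.g (nat_lit 1) (.e (nat_lit 424902) (nat_lit 0) .nil) .nil)))) (.nd (nat_lit 9) 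
(.lf (nat_lit 602436) (.g (nat_lit 4030) (.e (nat_lit 647180) (nat_lit 3) (.e (nat_lit 163979) (nat_lit 30) (.e (nat_lit 573493) (nat_lit 15) (.e (nat_lit 81956) (nat_lit 23) (.e (nat_lit 98359) (nat_lit 26) (.e (nat_lit 426025) (nat_lit 0) (.e (nat_lit 3397) (nat_lit 211) .nil))))))) (.g (nat_lit 1) (.e (nat_lit 424321) (nat_lit 0) .nil) .nil))) 
(.lf (nat_lit 602948) (.g (nat_lit 422) (.e (nat_lit 647183) (nat_lit 4) (.e (nat_lit 172126) (nat_lit 14) (.e (nat_lit 491549) (nat_lit 9) .nil))) (.g (nat_lit 0) (.e (nat_lit 425230) (nat_lit 0) .nil) .nil))))) (.nd (nat_lit 8) (.nd (nat_lit 9) 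
(.lf (nat_lit 602308) (.g (nat_lit 370) (.e (nat_lit 671764) (nat_lit 6) (.e (nat_lit 81928) (nat_lit 20) (.e (nat_lit 2003) (nat_lit 138) (.e (nat_lit 671764) (nat_lit 6) .nil)))) (.g (nat_lit 0) (.e (nat_lit 423684) (nat_lit 0) .nil) .nil))) 
(.lf (nat_lit 602820) (.g (nat_lit 2435) (.e (nat_lit 647183) (nat_lit 4) (.e (nat_lit 172116) (nat_lit 10) (.e (nat_lit 434272) (nat_lit 38) (.e (nat_lit 655364) (nat_lit 0) (.e (nat_lit 3022) (nat_lit 187) (.e (nat_lit 458496) (nat_lit 15) .nil)))))) (.g (nat_lit 1) (.e (nat_lit 425048) (nat_lit 0) .nil) .nil)))) (.nd (nat_lit 9) 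
(.lf (nat_lit 602564) (.g (nat_lit 3093) (.e (nat_lit 647181) (nat_lit 3) (.e (nat_lit 163978) (nat_lit 30) (.e (nat_lit 573484) (nat_lit 13) (.e (nat_lit 65617) (nat_lit 10) .nil)))) (.g (nat_lit 0) (.e (nat_lit 424500) (nat_lit 0) .nil) .nil))) 
(.lf (nat_lit 603076) (.g (nat_lit 2722) (.e (nat_lit 647201) (nat_lit 12) (.e (nat_lit 57574) (nat_lit 55) (.e (nat_lit 778465) (nat_lit 11) (.e (nat_lit 24617) (nat_lit 7) (.e (nat_lit 319533) (nat_lit 16) .nil))))) (.g (nat_lit 0) (.e (nat_lit 425841) (nat_lit 0) .nil) .nil))))))) (.nd (nat_lit 6) (.nd (nat_lit 7) (.nd (nat_lit 8) (.nd (nat_lit 9) 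
(.lf (nat_lit 602148) (.g (nat_lit 1420) (.e (nat_lit 663589) (nat_lit 14) (.e (nat_lit 2797) (nat_lit 180) (.e (nat_lit 303133) (nat_lit 9) (.e (nat_lit 426412) (nat_lit 15) (.e (nat_lit 2175) (nat_lit 143) .nil))))) (.g (nat_lit 0) (.e (nat_lit 423415) (nat_lit 0) .nil) .nil))) 
(.lf (nat_lit 602660) (.g (nat_lit 1893) (.e (nat_lit 647183) (nat_lit 4) (.e (nat_lit 172081) (nat_lit 7) (.e (nat_lit 409642) (nat_lit 17) (.e (nat_lit 294974) (nat_lit 29) (.e (nat_lit 442399) (nat_lit 20) (.e (nat_lit 3402) (nat_lit 211) .nil)))))) (.g (nat_lit 1) (.e (nat_lit 424816) (nat_lit 0) .nil) .nil)))) (.nd (nat_lit 9) 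
(.lf (nat_lit 602404) (.g (nat_lit 1965) (.e (nat_lit 647180) (nat_lit 3) (.e (nat_lit 163978) (nat_lit 30) (.e (nat_lit 573485) (nat_lit 13) (.e (nat_lit 65604) (nat_lit 9) (.e (nat_lit 336028) (nat_lit 3) .nil))))) (.g (nat_lit 0) (.e (nat_lit 424268) (nat_lit 0) .nil) .nil))) 
(.lf (nat_lit 602916) (.g (nat_lit 2316) (.e (nat_lit 647183) (nat_lit 4) (.e (nat_lit 172124) (nat_lit 14) (.e (nat_lit 491570) (nat_lit 13) (.e (nat_lit 393277) (nat_lit 23) (.e (nat_lit 426025) (nat_lit 0) (.e (nat_lit 3399) (nat_lit 211) .nil)))))) (.g (nat_lit 1) (.e (nat_lit 425166) (nat_lit 0) .nil) .nil))))) (.nd (nat_lit 8) (.nd (nat_lit 9) 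
(.lf (nat_lit 602276) (.g (nat_lit 2115) (.e (nat_lit 671762) (nat_lit 4) (.e (nat_lit 65630) (nat_lit 14) (.e (nat_lit 401438) (nat_lit 9) (.e (nat_lit 426555) (nat_lit 32) .nil)))) (.g (nat_lit 0) (.e (nat_lit 423650) (nat_lit 0) .nil) .nil))) 
(.lf (nat_lit 602788) (.g (nat_lit 3012) (.e (nat_lit 647183) (nat_lit 4) (.e (nat_lit 172115) (nat_lit 10) (.e (nat_lit 434209) (nat_lit 18) (.e (nat_lit 5548) (nat_lit 306) (.e (nat_lit 2650) (nat_lit 166) (.e (nat_lit 188428) (nat_lit 20) (.e (nat_lit 3402) (nat_lit 211) .nil))))))) (.g (nat_lit 1) (.e (nat_lit 425013) (nat_lit 0) .nil) .nil)))) (.nd (nat_lit 9) 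
(.lf (nat_lit 602532) (.g (nat_lit 3350) (.e (nat_lit 647181) (nat_lit 3) (.e (nat_lit 163977) (nat_lit 30) (.e (nat_lit 573493) (nat_lit 15) (.e (nat_lit 81956) (nat_lit 23) (.e (nat_lit 98354) (nat_lit 26) (.e (nat_lit 426025) (nat_lit 0) (.e (nat_lit 3399) (nat_lit 211) .nil))))))) (.g (nat_lit 1) (.e (nat_lit 424453) (nat_lit 0) .nil) .nil))) 
(.lf (nat_lit 603044) (.g (nat_lit 2775) (.e (nat_lit 647185) (nat_lit 6) (.e (nat_lit 188444) (nat_lit 21) (.e (nat_lit 164347) (nat_lit 240) (.e (nat_lit 2648) (nat_lit 166) (.e (nat_lit 188431) (nat_lit 20) (.e (nat_lit 3397) (nat_lit 211) .nil)))))) (.g (nat_lit 1) (.e (nat_lit 425658) (nat_lit 0) .nil) .nil)))))) (.nd (nat_lit 7) (.nd (nat_lit 8) (.nd (nat_lit 9) 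
(.lf (nat_lit 602212) (.g (nat_lit 1844) (.e (nat_lit 671760) (nat_lit 4) (.e (nat_lit 65628) (nat_lit 14) (.e (nat_lit 401437) (nat_lit 9) (.e (nat_lit 426555) (nat_lit 32) .nil)))) (.g (nat_lit 0) (.e (nat_lit 423580) (nat_lit 0) .nil) .nil))) 
(.lf (nat_lit 602724) (.g (nat_lit 2513) (.e (nat_lit 647183) (nat_lit 4) (.e (nat_lit 172107) (nat_lit 10) (.e (nat_lit 434272) (nat_lit 38) (.e (nat_lit 655364) (nat_lit 0) (.e (nat_lit 3016) (nat_lit 187) (.e (nat_lit 458496) (nat_lit 15) .nil)))))) (.g (nat_lit 1) (.e (nat_lit 424936) (nat_lit 0) .nil) .nil)))) (.nd (nat_lit 9) 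
(.lf (nat_lit 602468) (.g (nat_lit 3740) (.e (nat_lit 647181) (nat_lit 3) (.e (nat_lit 163977) (nat_lit 30) (.e (nat_lit 573485) (nat_lit 13) (.e (nat_lit 65604) (nat_lit 9) (.e (nat_lit 336013) (nat_lit 2) (.e (nat_lit 90170) (nat_lit 13) (.e (nat_lit 172033) (nat_lit 0) (.e (nat_lit 3397) (nat_lit 211) .nil)))))))) (.g (nat_lit 1) (.e (nat_lit 424370) (nat_lit 0) .nil) .nil))) 
(.lf (nat_lit 602980) (.g (nat_lit 2071) (.e (nat_lit 647183) (nat_lit 4) (.e (nat_lit 172126) (nat_lit 14) (.e (nat_lit 491571) (nat_lit 13) (.e (nat_lit 393268) (nat_lit 23) .nil)))) (.g (nat_lit 0) (.e (nat_lit 425295) (nat_lit 0) .nil) .nil))))) (.nd (nat_lit 8) (.nd (nat_lit 9) 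
(.lf (nat_lit 602340) (.g (nat_lit 3055) (.e (nat_lit 647170) (nat_lit 0) (.e (nat_lit 3097) (nat_lit 192) (.e (nat_lit 491566) (nat_lit 12) (.e (nat_lit 385105) (nat_lit 50) (.e (nat_lit 786481) (nat_lit 30) (.e (nat_lit 368384) (nat_lit 15) .nil)))))) (.g (nat_lit 1) (.e (nat_lit 423945) (nat_lit 0) .nil) .nil))) 
(.lf (nat_lit 602852) (.g (nat_lit 884) (.e (nat_lit 647183) (nat_lit 4) (.e (nat_lit 172119) (nat_lit 12) (.e (nat_lit 475199) (nat_lit 40) (.e (nat_lit 704598) (nat_lit 6) .nil)))) (.g (nat_lit 0) (.e (nat_lit 425082) (nat_lit 0) .nil) .nil)))) (.nd (nat_lit 9) 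
(.lf (nat_lit 602596) (.g (nat_lit 4020) (.e (nat_lit 647181) (nat_lit 3) (.e (nat_lit 163979) (nat_lit 30) (.e (nat_lit 573482) (nat_lit 13) (.e (nat_lit 65604) (nat_lit 9) (.e (nat_lit 336013) (nat_lit 2) (.e (nat_lit 90170) (nat_lit 13) (.e (nat_lit 172039) (nat_lit 0) (.e (nat_lit 3399) (nat_lit 211) .nil)))))))) (.g (nat_lit 1) (.e (nat_lit 424535) (nat_lit 0) .nil) .nil))) 
(.lf (nat_lit 603108) (.g (nat_lit 3849) (.e (nat_lit 655373) (nat_lit 3) (.e (nat_lit 163975) (nat_lit 30) (.e (nat_lit 573481) (nat_lit 13) (.e (nat_lit 65604) (nat_lit 9) (.e (nat_lit 336013) (nat_lit 2) (.e (nat_lit 90170) (nat_lit 13) (.e (nat_lit 172042) (nat_lit 0) (.e (nat_lit 3406) (nat_lit 212) .nil)))))))) (.g (nat_lit 1) (.e (nat_lit 426188) (nat_lit 0) .nil) .nil)))))))) 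
(.nd (nat_lit 5) (.nd (nat_lit 6) (.nd (nat_lit 7) (.nd (nat_lit 8) (.nd (nat_lit 9) 
(.lf (nat_lit 602132) (.g (nat_lit 2413) (.e (nat_lit 663584) (nat_lit 12) (.e (nat_lit 163978) (nat_lit 30) (.e (nat_lit 573469) (nat_lit 11) (.e (nat_lit 16465) (nat_lit 13) (.e (nat_lit 491264) (nat_lit 10) .nil))))) (.g (nat_lit 0) (.e (nat_lit 423307) (nat_lit 0) .nil) .nil))) 
(.lf (nat_lit 602644) (.g (nat_lit 2904) (.e (nat_lit 647181) (nat_lit 3) (.e (nat_lit 163979) (nat_lit 30) (.e (nat_lit 573493) (nat_lit 15) (.e (nat_lit 81956) (nat_lit 23) (.e (nat_lit 98354) (nat_lit 26) (.e (nat_lit 426025) (nat_lit 0) (.e (nat_lit 3399) (nat_lit 211) .nil))))))) (.g (nat_lit 1) (.e (nat_lit 424595) (nat_lit 0) .nil) .nil)))) (.nd (nat_lit 9) 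
(.lf (nat_lit 602388) (.g (nat_lit 1924) (.e (nat_lit 655104) (nat_lit 0) (.e (nat_lit 2684) (nat_lit 168) (.e (nat_lit 204863) (nat_lit 27) (.e (nat_lit 344132) (nat_lit 26) (.e (nat_lit 557103) (nat_lit 14) .nil))))) (.g (nat_lit 0) (.e (nat_lit 424214) (nat_lit 0) .nil) .nil))) 
(.lf (nat_lit 602900) (.g (nat_lit 1294) (.e (nat_lit 647183) (nat_lit 4) (.e (nat_lit 172124) (nat_lit 14) (.e (nat_lit 491549) (nat_lit 9) (.e (nat_lit 343808) (nat_lit 29) .nil)))) (.g (nat_lit 0) (.e (nat_lit 425145) (nat_lit 0) .nil) .nil))))) (.nd (nat_lit 8) (.nd (nat_lit 9) 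
(.lf (nat_lit 602260) (.g (nat_lit 1830) (.e (nat_lit 671762) (nat_lit 4) (.e (nat_lit 65630) (nat_lit 14) (.e (nat_lit 401435) (nat_lit 9) (.e (nat_lit 426538) (nat_lit 29) .nil)))) (.g (nat_lit 0) (.e (nat_lit 423634) (nat_lit 0) .nil) .nil))) 
(.lf (nat_lit 602772) (.g (nat_lit 2713) (.e (nat_lit 647183) (nat_lit 4) (.e (nat_lit 172115) (nat_lit 10) (.e (nat_lit 434209) (nat_lit 18) (.e (nat_lit 5546) (nat_lit 306) (.e (nat_lit 2619) (nat_lit 164) (.e (nat_lit 172097) (nat_lit 9) (.e (nat_lit 426025) (nat_lit 0) (.e (nat_lit 3399) (nat_lit 211) .nil)))))))) (.g (nat_lit 1) (.e (nat_lit 424988) (nat_lit 0) .nil) .nil)))) 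
(.nd (nat_lit 9) 
(.lf (nat_lit 602516) (.g (nat_lit 3552) (.e (nat_lit 647181) (nat_lit 3) (.e (nat_lit 163977) (nat_lit 30) (.e (nat_lit 573493) (nat_lit 15) (.e (nat_lit 81954) (nat_lit 23) (.e (nat_lit 98354) (nat_lit 26) .nil))))) (.g (nat_lit 0) (.e (nat_lit 424435) (nat_lit 0) .nil) .nil))) 
(.lf (nat_lit 603028) (.g (nat_lit 1057) (.e (nat_lit 647185) (nat_lit 6) (.e (nat_lit 188440) (nat_lit 20) (.e (nat_lit 3406) (nat_lit 212) (.e (nat_lit 655380) (nat_lit 6) (.e (nat_lit 188431) (nat_lit 20) .nil))))) (.g (nat_lit 0) (.e (nat_lit 425603) (nat_lit 0) .nil) .nil)))))) (.nd (nat_lit 7) (.nd (nat_lit 8) (.nd (nat_lit 9) 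
(.lf (nat_lit 602196) (.g (nat_lit 4512) (.e (nat_lit 671759) (nat_lit 3) (.e (nat_lit 57478) (nat_lit 28) (.e (nat_lit 557108) (nat_lit 15) (.e (nat_lit 188452) (nat_lit 23) (.e (nat_lit 204863) (nat_lit 27) .nil))))) (.g (nat_lit 0) (.e (nat_lit 423557) (nat_lit 0) .nil) .nil))) 
(.lf (nat_lit 602708) (.g (nat_lit 2716) (.e (nat_lit 647183) (nat_lit 4) (.e (nat_lit 172106) (nat_lit 10) (.e (nat_lit 434272) (nat_lit 38) (.e (nat_lit 655364) (nat_lit 0) (.e (nat_lit 3022) (nat_lit 187) (.e (nat_lit 458496) (nat_lit 15) .nil)))))) (.g (nat_lit 1) (.e (nat_lit 424920) (nat_lit 0) .nil) .nil)))) (.nd (nat_lit 9) 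
(.lf (nat_lit 602452) (.g (nat_lit 3282) (.e (nat_lit 647181) (nat_lit 3) (.e (nat_lit 163977) (nat_lit 30) (.e (nat_lit 573482) (nat_lit 13) (.e (nat_lit 65604) (nat_lit 9) (.e (nat_lit 336028) (nat_lit 3) (.e (nat_lit 98361) (nat_lit 26) (.e (nat_lit 426025) (nat_lit 0) (.e (nat_lit 3399) (nat_lit 211) .nil)))))))) (.g (nat_lit 1) (.e (nat_lit 424354) (nat_lit 0) .nil) .nil))) 
(.lf (nat_lit 602964) (.g (nat_lit 1411) (.e (nat_lit 647183) (nat_lit 4) (.e (nat_lit 172126) (nat_lit 14) (.e (nat_lit 491550) (nat_lit 9) (.e (nat_lit 336433) (nat_lit 30) .nil)))) (.g (nat_lit 0) (.e (nat_lit 425249) (nat_lit 0) .nil) .nil))))) (.nd (nat_lit 8) (.nd (nat_lit 9) 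
(.lf (nat_lit 602324) (.g (nat_lit 765) (.e (nat_lit 671779) (nat_lit 11) (.e (nat_lit 24640) (nat_lit 10) (.e (nat_lit 344156) (nat_lit 36) .nil))) (.g (nat_lit 0) (.e (nat_lit 423729) (nat_lit 0) .nil) .nil))) 
(.lf (nat_lit 602836) (.g (nat_lit 1185) (.e (nat_lit 647183) (nat_lit 4) (.e (nat_lit 172118) (nat_lit 12) (.e (nat_lit 475199) (nat_lit 40) (.e (nat_lit 704599) (nat_lit 6) (.e (nat_lit 188424) (nat_lit 20) .nil))))) (.g (nat_lit 0) (.e (nat_lit 425064) (nat_lit 0) .nil) .nil)))) (.nd (nat_lit 9) 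
(.lf (nat_lit 602580) (.g (nat_lit 2415) (.e (nat_lit 647181) (nat_lit 3) (.e (nat_lit 163978) (nat_lit 30) (.e (nat_lit 573485) (nat_lit 13) (.e (nat_lit 65604) (nat_lit 9) (.e (nat_lit 336028) (nat_lit 3) (.e (nat_lit 98362) (nat_lit 26) (.e (nat_lit 426025) (nat_lit 0) (.e (nat_lit 3399) (nat_lit 211) .nil)))))))) (.g (nat_lit 1) (.e (nat_lit 424516) (nat_lit 0) .nil) .nil))) 
(.lf (nat_lit 603092) (.g (nat_lit 1813) (.e (nat_lit 655364) (nat_lit 0) (.e (nat_lit 2472) (nat_lit 157) (.e (nat_lit 3307) (nat_lit 202) (.e (nat_lit 573491) (nat_lit 15) (.e (nat_lit 81954) (nat_lit 23) .nil))))) (.g (nat_lit 0) (.e (nat_lit 425981) (nat_lit 0) .nil) .nil))))))) (.nd (nat_lit 6) (.nd (nat_lit 7) (.nd (nat_lit 8) (.nd (nat_lit 9) 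
(.lf (nat_lit 602164) (.g (nat_lit 1715) (.e (nat_lit 671488) (nat_lit 14) (.e (nat_lit 2798) (nat_lit 180) (.e (nat_lit 303143) (nat_lit 12) (.e (nat_lit 475207) (nat_lit 41) (.e (nat_lit 712755) (nat_lit 30) .nil))))) (.g (nat_lit 0) (.e (nat_lit 423509) (nat_lit 0) .nil) .nil))) 
(.lf (nat_lit 602676) (.g (nat_lit 3037) (.e (nat_lit 647183) (nat_lit 4) (.e (nat_lit 172094) (nat_lit 9) (.e (nat_lit 426109) (nat_lit 1) (.e (nat_lit 164347) (nat_lit 240) (.e (nat_lit 2648) (nat_lit 166) (.e (nat_lit 188431) (nat_lit 20) (.e (nat_lit 3399) (nat_lit 211) .nil))))))) (.g (nat_lit 1) (.e (nat_lit 424858) (nat_lit 0) .nil) .nil)))) (.nd (nat_lit 9) 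
(.lf (nat_lit 602420) (.g (nat_lit 4700) (.e (nat_lit 647180) (nat_lit 3) (.e (nat_lit 163979) (nat_lit 30) (.e (nat_lit 573482) (nat_lit 13) (.e (nat_lit 65619) (nat_lit 10) (.e (nat_lit 344117) (nat_lit 21) (.e (nat_lit 516151) (nat_lit 9) (.e (nat_lit 426022) (nat_lit 0) (.e (nat_lit 3399) (nat_lit 211) .nil)))))))) (.g (nat_lit 1) (.e (nat_lit 424286) (nat_lit 0) .nil) .nil))) 
(.lf (nat_lit 602932) (.g (nat_lit 2596) (.e (nat_lit 647183) (nat_lit 4) (.e (nat_lit 172125) (nat_lit 14) (.e (nat_lit 491571) (nat_lit 13) (.e (nat_lit 393266) (nat_lit 23) (.e (nat_lit 426025) (nat_lit 0) .nil))))) (.g (nat_lit 0) (.e (nat_lit 425210) (nat_lit 0) .nil) .nil))))) (.nd (nat_lit 8) (.nd (nat_lit 9) 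
(.lf (nat_lit 602292) (.g (nat_lit 1477) (.e (nat_lit 671763) (nat_lit 5) (.e (nat_lit 73781) (nat_lit 32) (.e (nat_lit 3089) (nat_lit 191) (.e (nat_lit 483396) (nat_lit 24) (.e (nat_lit 344168) (nat_lit 40) .nil))))) (.g (nat_lit 0) (.e (nat_lit 423666) (nat_lit 0) .nil) .nil))) 
(.lf (nat_lit 602804) (.g (nat_lit 2360) (.e (nat_lit 647183) (nat_lit 4) (.e (nat_lit 172115) (nat_lit 10) (.e (nat_lit 434272) (nat_lit 38) (.e (nat_lit 655378) (nat_lit 4) (.e (nat_lit 172089) (nat_lit 9) (.e (nat_lit 426025) (nat_lit 0) (.e (nat_lit 3397) (nat_lit 211) .nil))))))) (.g (nat_lit 1) (.e (nat_lit 425030) (nat_lit 0) .nil) .nil)))) (.nd (nat_lit 9) 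
(.lf (nat_lit 602548) (.g (nat_lit 3151) (.e (nat_lit 647181) (nat_lit 3) (.e (nat_lit 163978) (nat_lit 30) (.e (nat_lit 573479) (nat_lit 13) (.e (nat_lit 65604) (nat_lit 9) (.e (nat_lit 336013) (nat_lit 2) (.e (nat_lit 90170) (nat_lit 13) (.e (nat_lit 172032) (nat_lit 0) (.e (nat_lit 3399) (nat_lit 211) .nil)))))))) (.g (nat_lit 1) (.e (nat_lit 424484) (nat_lit 0) .nil) .nil))) 
(.lf (nat_lit 603060) (.g (nat_lit 1553) (.e (nat_lit 647185) (nat_lit 6) (.e (nat_lit 188453) (nat_lit 24) (.e (nat_lit 229663) (nat_lit 240) (.e (nat_lit 7936) (nat_lit 166) .nil)))) (.g (nat_lit 0) (.e (nat_lit 425701) (nat_lit 0) .nil) .nil)))))) (.nd (nat_lit 7) (.nd (nat_lit 8) (.nd (nat_lit 9) 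
(.lf (nat_lit 602228) (.g (nat_lit 2576) (.e (nat_lit 671761) (nat_lit 4) (.e (nat_lit 65628) (nat_lit 14) (.e (nat_lit 401438) (nat_lit 9) (.e (nat_lit 426555) (nat_lit 32) (.e (nat_lit 376848) (nat_lit 20) .nil))))) (.g (nat_lit 0) (.e (nat_lit 423596) (nat_lit 0) .nil) .nil))) 
(.lf (nat_lit 602740) (.g (nat_lit 2394) (.e (nat_lit 647183) (nat_lit 4) (.e (nat_lit 172112) (nat_lit 10) (.e (nat_lit 434272) (nat_lit 38) (.e (nat_lit 655364) (nat_lit 0) (.e (nat_lit 3022) (nat_lit 187) (.e (nat_lit 458496) (nat_lit 15) .nil)))))) (.g (nat_lit 1) (.e (nat_lit 424953) (nat_lit 0) .nil) .nil)))) (.nd (nat_lit 9) 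
(.lf (nat_lit 602484) (.g (nat_lit 3155) (.e (nat_lit 647181) (nat_lit 3) (.e (nat_lit 163977) (nat_lit 30) (.e (nat_lit 573491) (nat_lit 15) (.e (nat_lit 81951) (nat_lit 22) (.e (nat_lit 90170) (nat_lit 13) (.e (nat_lit 172032) (nat_lit 0) (.e (nat_lit 3402) (nat_lit 211) .nil))))))) (.g (nat_lit 1) (.e (nat_lit 424386) (nat_lit 0) .nil) .nil))) 
(.lf (nat_lit 602996) (.g (nat_lit 1727) (.e (nat_lit 647183) (nat_lit 4) (.e (nat_lit 172147) (nat_lit 27) (.e (nat_lit 336163) (nat_lit 10) (.e (nat_lit 344117) (nat_lit 21) (.e (nat_lit 524032) (nat_lit 27) (.e (nat_lit 344161) (nat_lit 37) .nil)))))) (.g (nat_lit 1) (.e (nat_lit 425325) (nat_lit 0) .nil) .nil))))) (.nd (nat_lit 8) (.nd (nat_lit 9) 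
(.lf (nat_lit 602356) (.g (nat_lit 2995) (.e (nat_lit 647170) (nat_lit 0) (.e (nat_lit 3098) (nat_lit 192) (.e (nat_lit 491566) (nat_lit 12) (.e (nat_lit 385101) (nat_lit 49) .nil)))) (.g (nat_lit 0) (.e (nat_lit 423985) (nat_lit 0) .nil) .nil))) 
(.lf (nat_lit 602868) (.g (nat_lit 1741) (.e (nat_lit 647183) (nat_lit 4) (.e (nat_lit 172120) (nat_lit 12) (.e (nat_lit 475199) (nat_lit 40) (.e (nat_lit 704599) (nat_lit 6) (.e (nat_lit 188424) (nat_lit 20) .nil))))) (.g (nat_lit 0) (.e (nat_lit 425105) (nat_lit 0) .nil) .nil)))) (.nd (nat_lit 9) 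
(.lf (nat_lit 602612) (.g (nat_lit 3613) (.e (nat_lit 647181) (nat_lit 3) (.e (nat_lit 163979) (nat_lit 30) (.e (nat_lit 573482) (nat_lit 13) (.e (nat_lit 65619) (nat_lit 10) (.e (nat_lit 344117) (nat_lit 21) (.e (nat_lit 516152) (nat_lit 9) (.e (nat_lit 426025) (nat_lit 0) (.e (nat_lit 3397) (nat_lit 211) .nil)))))))) (.g (nat_lit 1) (.e (nat_lit 424551) (nat_lit 0) .nil) .nil))) 
(.lf (nat_lit 603124) (.g (nat_lit 3328) (.e (nat_lit 655373) (nat_lit 3) (.e (nat_lit 163978) (nat_lit 30) (.e (nat_lit 573479) (nat_lit 13) (.e (nat_lit 65619) (nat_lit 10) (.e (nat_lit 344117) (nat_lit 21) (.e (nat_lit 516151) (nat_lit 9) (.e (nat_lit 426043) (nat_lit 0) (.e (nat_lit 3408) (nat_lit 212) .nil)))))))) (.g (nat_lit 1) (.e (nat_lit 426227) (nat_lit 0) .nil) .nil))))))))) 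
(.nd (nat_lit 4) (.nd (nat_lit 5) (.nd (nat_lit 6) (.nd (nat_lit 7) (.nd (nat_lit 8) 
(.nd (nat_lit 9) 
(.lf (nat_lit 602124) (.g (nat_lit 1857) (.e (nat_lit 663583) (nat_lit 11) (.e (nat_lit 24617) (nat_lit 7) (.e (nat_lit 319534) (nat_lit 16) (.e (nat_lit 286721) (nat_lit 0) .nil)))) (.g (nat_lit 0) (.e (nat_lit 423191) (nat_lit 0) .nil) .nil))) 
(.lf (nat_lit 602636) (.g (nat_lit 2783) (.e (nat_lit 647181) (nat_lit 3) (.e (nat_lit 163979) (nat_lit 30) (.e (nat_lit 573493) (nat_lit 15) (.e (nat_lit 81953) (nat_lit 22) (.e (nat_lit 90170) (nat_lit 13) (.e (nat_lit 172033) (nat_lit 0) (.e (nat_lit 3402) (nat_lit 211) .nil))))))) (.g (nat_lit 1) (.e (nat_lit 424586) (nat_lit 0) .nil) .nil)))) (.nd (nat_lit 9) 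
(.lf (nat_lit 602380) (.g (nat_lit 2496) (.e (nat_lit 647177) (nat_lit 0) (.e (nat_lit 2682) (nat_lit 168) (.e (nat_lit 204863) (nat_lit 27) (.e (nat_lit 344131) (nat_lit 26) (.e (nat_lit 557105) (nat_lit 14) .nil))))) (.g (nat_lit 0) (.e (nat_lit 424156) (nat_lit 0) .nil) .nil))) 
(.lf (nat_lit 602892) (.g (nat_lit 3861) (.e (nat_lit 647183) (nat_lit 4) (.e (nat_lit 172124) (nat_lit 14) (.e (nat_lit 491549) (nat_lit 9) (.e (nat_lit 336395) (nat_lit 27) (.e (nat_lit 426211) (nat_lit 9) (.e (nat_lit 426025) (nat_lit 0) (.e (nat_lit 3397) (nat_lit 211) .nil))))))) (.g (nat_lit 1) (.e (nat_lit 425136) (nat_lit 0) .nil) .nil))))) (.nd (nat_lit 8) (.nd (nat_lit 9) 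
(.lf (nat_lit 602252) (.g (nat_lit 2319) (.e (nat_lit 671762) (nat_lit 4) (.e (nat_lit 65628) (nat_lit 14) (.e (nat_lit 401438) (nat_lit 9) (.e (nat_lit 426555) (nat_lit 32) (.e (nat_lit 376848) (nat_lit 20) .nil))))) (.g (nat_lit 0) (.e (nat_lit 423626) (nat_lit 0) .nil) .nil))) 
(.lf (nat_lit 602764) (.g (nat_lit 2138) (.e (nat_lit 647183) (nat_lit 4) (.e (nat_lit 172113) (nat_lit 10) (.e (nat_lit 434272) (nat_lit 38) (.e (nat_lit 655378) (nat_lit 4) (.e (nat_lit 172088) (nat_lit 9) (.e (nat_lit 426025) (nat_lit 0) (.e (nat_lit 3399) (nat_lit 211) .nil))))))) (.g (nat_lit 1) (.e (nat_lit 424979) (nat_lit 0) .nil) .nil)))) (.nd (nat_lit 9) 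
(.lf (nat_lit 602508) (.g (nat_lit 3931) (.e (nat_lit 647181) (nat_lit 3) (.e (nat_lit 163977) (nat_lit 30) (.e (nat_lit 573493) (nat_lit 15) (.e (nat_lit 81951) (nat_lit 22) (.e (nat_lit 90170) (nat_lit 13) (.e (nat_lit 172036) (nat_lit 0) (.e (nat_lit 3402) (nat_lit 211) .nil))))))) (.g (nat_lit 1) (.e (nat_lit 424417) (nat_lit 0) .nil) .nil))) 
(.lf (nat_lit 603020) (.g (nat_lit 1287) (.e (nat_lit 647185) (nat_lit 6) (.e (nat_lit 188435) (nat_lit 20) (.e (nat_lit 3409) (nat_lit 212) (.e (nat_lit 655380) (nat_lit 6) (.e (nat_lit 188428) (nat_lit 20) (.e (nat_lit 3402) (nat_lit 211) .nil)))))) (.g (nat_lit 1) (.e (nat_lit 425577) (nat_lit 0) .nil) .nil)))))) (.nd (nat_lit 7) (.nd (nat_lit 8) (.nd (nat_lit 9) 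
(.lf (nat_lit 602188) (.g (nat_lit 2270) (.e (nat_lit 671759) (nat_lit 3) (.e (nat_lit 57474) (nat_lit 28) (.e (nat_lit 557100) (nat_lit 13) (.e (nat_lit 172106) (nat_lit 10) (.e (nat_lit 434231) (nat_lit 23) .nil))))) (.g (nat_lit 0) (.e (nat_lit 423546) (nat_lit 0) .nil) .nil))) 
(.lf (nat_lit 602700) (.g (nat_lit 2013) (.e (nat_lit 647183) (nat_lit 4) (.e (nat_lit 172106) (nat_lit 10) (.e (nat_lit 434271) (nat_lit 38) (.e (nat_lit 655378) (nat_lit 4) (.e (nat_lit 172089) (nat_lit 9) (.e (nat_lit 426025) (nat_lit 0) (.e (nat_lit 3397) (nat_lit 211) .nil))))))) (.g (nat_lit 1) (.e (nat_lit 424912) (nat_lit 0) .nil) .nil)))) (.nd (nat_lit 9) 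
(.lf (nat_lit 602444) (.g (nat_lit 2971) (.e (nat_lit 647181) (nat_lit 3) (.e (nat_lit 163977) (nat_lit 30) (.e (nat_lit 573481) (nat_lit 13) (.e (nat_lit 65619) (nat_lit 10) (.e (nat_lit 344117) (nat_lit 21) (.e (nat_lit 516151) (nat_lit 9) (.e (nat_lit 426022) (nat_lit 0) (.e (nat_lit 3399) (nat_lit 211) .nil)))))))) (.g (nat_lit 1) (.e (nat_lit 424346) (nat_lit 0) .nil) .nil))) 
(.lf (nat_lit 602956) (.g (nat_lit 1435) (.e (nat_lit 647183) (nat_lit 4) (.e (nat_lit 172126) (nat_lit 14) (.e (nat_lit 491549) (nat_lit 9) (.e (nat_lit 343808) (nat_lit 29) .nil)))) (.g (nat_lit 0) (.e (nat_lit 425239) (nat_lit 0) .nil) .nil))))) (.nd (nat_lit 8) (.nd (nat_lit 9) 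
(.lf (nat_lit 602316) (.g (nat_lit 1011) (.e (nat_lit 671764) (nat_lit 6) (.e (nat_lit 81946) (nat_lit 20) (.e (nat_lit 2003) (nat_lit 138) (.e (nat_lit 671764) (nat_lit 6) (.e (nat_lit 81938) (nat_lit 20) .nil))))) (.g (nat_lit 0) (.e (nat_lit 423692) (nat_lit 0) .nil) .nil))) 
(.lf (nat_lit 602828) (.g (nat_lit 2309) (.e (nat_lit 647183) (nat_lit 4) (.e (nat_lit 172118) (nat_lit 12) (.e (nat_lit 475198) (nat_lit 40) (.e (nat_lit 704549) (nat_lit 0) (.e (nat_lit 3010) (nat_lit 187) (.e (nat_lit 458496) (nat_lit 15) .nil)))))) (.g (nat_lit 1) (.e (nat_lit 425056) (nat_lit 0) .nil) .nil)))) (.nd (nat_lit 9) 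
(.lf (nat_lit 602572) (.g (nat_lit 4070) (.e (nat_lit 647181) (nat_lit 3) (.e (nat_lit 163978) (nat_lit 30) (.e (nat_lit 573485) (nat_lit 13) (.e (nat_lit 65604) (nat_lit 9) (.e (nat_lit 336013) (nat_lit 2) (.e (nat_lit 90170) (nat_lit 13) (.e (nat_lit 172039) (nat_lit 0) (.e (nat_lit 3399) (nat_lit 211) .nil)))))))) (.g (nat_lit 1) (.e (nat_lit 424508) (nat_lit 0) .nil) .nil))) 
(.lf (nat_lit 603084) (.g (nat_lit 3434) (.e (nat_lit 647201) (nat_lit 12) (.e (nat_lit 57575) (nat_lit 55) (.e (nat_lit 778466) (nat_lit 11) (.e (nat_lit 24617) (nat_lit 7) (.e (nat_lit 319533) (nat_lit 16) (.e (nat_lit 286754) (nat_lit 10) (.e (nat_lit 344161) (nat_lit 37) .nil))))))) (.g (nat_lit 1) (.e (nat_lit 425849) (nat_lit 0) .nil) .nil))))))) 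
(.nd (nat_lit 6) (.nd (nat_lit 7) (.nd (nat_lit 8) (.nd (nat_lit 9) 
(.lf (nat_lit 602156) (.g (nat_lit 390) (.e (nat_lit 663589) (nat_lit 14) (.e (nat_lit 2798) (nat_lit 180) (.e (nat_lit 303143) (nat_lit 12) .nil))) (.g (nat_lit 0) (.e (nat_lit 423435) (nat_lit 0) .nil) .nil))) 
(.lf (nat_lit 602668) (.g (nat_lit 1203) (.e (nat_lit 647183) (nat_lit 4) (.e (nat_lit 172094) (nat_lit 9) (.e (nat_lit 426025) (nat_lit 0) (.e (nat_lit 3397) (nat_lit 211) .nil)))) (.g (nat_lit 0) (.e (nat_lit 424832) (nat_lit 0) .nil) .nil)))) (.nd (nat_lit 9) 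
(.lf (nat_lit 602412) (.g (nat_lit 4271) (.e (nat_lit 647180) (nat_lit 3) (.e (nat_lit 163978) (nat_lit 30) (.e (nat_lit 573485) (nat_lit 13) (.e (nat_lit 65619) (nat_lit 10) (.e (nat_lit 344117) (nat_lit 21) (.e (nat_lit 516151) (nat_lit 9) (.e (nat_lit 426025) (nat_lit 0) (.e (nat_lit 3397) (nat_lit 211) .nil)))))))) (.g (nat_lit 1) (.e (nat_lit 424276) (nat_lit 0) .nil) .nil))) 
(.lf (nat_lit 602924) (.g (nat_lit 2180) (.e (nat_lit 647183) (nat_lit 4) (.e (nat_lit 172124) (nat_lit 14) (.e (nat_lit 491571) (nat_lit 13) (.e (nat_lit 393274) (nat_lit 23) (.e (nat_lit 426003) (nat_lit 0) (.e (nat_lit 3399) (nat_lit 211) .nil)))))) (.g (nat_lit 1) (.e (nat_lit 425193) (nat_lit 0) .nil) .nil))))) (.nd (nat_lit 8) (.nd (nat_lit 9) 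
(.lf (nat_lit 602284) (.g (nat_lit 1695) (.e (nat_lit 679680) (nat_lit 4) (.e (nat_lit 65630) (nat_lit 14) (.e (nat_lit 401437) (nat_lit 9) (.e (nat_lit 426546) (nat_lit 30) .nil)))) (.g (nat_lit 0) (.e (nat_lit 423658) (nat_lit 0) .nil) .nil))) 
(.lf (nat_lit 602796) (.g (nat_lit 2199) (.e (nat_lit 647183) (nat_lit 4) (.e (nat_lit 172115) (nat_lit 10) (.e (nat_lit 434272) (nat_lit 38) (.e (nat_lit 655363) (nat_lit 0) (.e (nat_lit 3015) (nat_lit 187) (.e (nat_lit 458496) (nat_lit 15) .nil)))))) (.g (nat_lit 1) (.e (nat_lit 425022) (nat_lit 0) .nil) .nil)))) (.nd (nat_lit 9) 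
(.lf (nat_lit 602540) (.g (nat_lit 3055) (.e (nat_lit 647181) (nat_lit 3) (.e (nat_lit 163977) (nat_lit 30) (.e (nat_lit 573493) (nat_lit 15) (.e (nat_lit 81956) (nat_lit 23) (.e (nat_lit 98360) (nat_lit 26) (.e (nat_lit 426007) (nat_lit 0) (.e (nat_lit 3399) (nat_lit 211) .nil))))))) (.g (nat_lit 1) (.e (nat_lit 424461) (nat_lit 0) .nil) .nil))) 
(.lf (nat_lit 603052) (.g (nat_lit 1882) (.e (nat_lit 647185) (nat_lit 6) (.e (nat_lit 188446) (nat_lit 21) (.e (nat_lit 164348) (nat_lit 240) (.e (nat_lit 2619) (nat_lit 164) (.e (nat_lit 172097) (nat_lit 9) (.e (nat_lit 426025) (nat_lit 0) (.e (nat_lit 3399) (nat_lit 211) .nil))))))) (.g (nat_lit 1) (.e (nat_lit 425687) (nat_lit 0) .nil) .nil)))))) 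
(.nd (nat_lit 7) (.nd (nat_lit 8) (.nd (nat_lit 9) 
(.lf (nat_lit 602220) (.g (nat_lit 1768) (.e (nat_lit 671760) (nat_lit 4) (.e (nat_lit 65630) (nat_lit 14) (.e (nat_lit 401457) (nat_lit 13) (.e (nat_lit 483394) (nat_lit 24) .nil)))) (.g (nat_lit 0) (.e (nat_lit 423588) (nat_lit 0) .nil) .nil))) 
(.lf (nat_lit 602732) (.g (nat_lit 1859) (.e (nat_lit 647183) (nat_lit 4) (.e (nat_lit 172112) (nat_lit 10) (.e (nat_lit 434271) (nat_lit 38) (.e (nat_lit 655363) (nat_lit 0) (.e (nat_lit 3022) (nat_lit 187) (.e (nat_lit 458496) (nat_lit 15) .nil)))))) (.g (nat_lit 1) (.e (nat_lit 424944) (nat_lit 0) .nil) .nil)))) (.nd (nat_lit 9) 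
(.lf (nat_lit 602476) (.g (nat_lit 3757) (.e (nat_lit 647181) (nat_lit 3) (.e (nat_lit 163977) (nat_lit 30) (.e (nat_lit 573485) (nat_lit 13) (.e (nat_lit 65619) (nat_lit 10) (.e (nat_lit 344117) (nat_lit 21) (.e (nat_lit 516143) (nat_lit 9) (.e (nat_lit 426025) (nat_lit 0) (.e (nat_lit 3399) (nat_lit 211) .nil)))))))) (.g (nat_lit 1) (.e (nat_lit 424378) (nat_lit 0) .nil) .nil))) 
(.lf (nat_lit 602988) (.g (nat_lit 2675) (.e (nat_lit 647183) (nat_lit 4) (.e (nat_lit 172126) (nat_lit 14) (.e (nat_lit 491571) (nat_lit 13) (.e (nat_lit 393280) (nat_lit 23) .nil)))) (.g (nat_lit 0) (.e (nat_lit 425307) (nat_lit 0) .nil) .nil))))) (.nd (nat_lit 8) (.nd (nat_lit 9) 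
(.lf (nat_lit 602348) (.g (nat_lit 2045) (.e (nat_lit 647170) (nat_lit 0) (.e (nat_lit 3098) (nat_lit 192) (.e (nat_lit 491566) (nat_lit 12) (.e (nat_lit 385092) (nat_lit 49) .nil)))) (.g (nat_lit 0) (.e (nat_lit 423957) (nat_lit 0) .nil) .nil))) 
(.lf (nat_lit 602860) (.g (nat_lit 1744) (.e (nat_lit 647183) (nat_lit 4) (.e (nat_lit 172120) (nat_lit 12) (.e (nat_lit 475197) (nat_lit 40) (.e (nat_lit 712448) (nat_lit 6) (.e (nat_lit 188431) (nat_lit 20) (.e (nat_lit 3399) (nat_lit 211) .nil)))))) (.g (nat_lit 1) (.e (nat_lit 425093) (nat_lit 0) .nil) .nil)))) (.nd (nat_lit 9) 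
(.lf (nat_lit 602604) (.g (nat_lit 3369) (.e (nat_lit 647181) (nat_lit 3) (.e (nat_lit 163979) (nat_lit 30) (.e (nat_lit 573482) (nat_lit 13) (.e (nat_lit 65604) (nat_lit 9) (.e (nat_lit 336028) (nat_lit 3) (.e (nat_lit 98359) (nat_lit 26) (.e (nat_lit 426023) (nat_lit 0) (.e (nat_lit 3402) (nat_lit 211) .nil)))))))) (.g (nat_lit 1) (.e (nat_lit 424543) (nat_lit 0) .nil) .nil))) 
(.lf (nat_lit 603116) (.g (nat_lit 3400) (.e (nat_lit 655373) (nat_lit 3) (.e (nat_lit 163976) (nat_lit 30) (.e (nat_lit 573481) (nat_lit 13) (.e (nat_lit 65604) (nat_lit 9) (.e (nat_lit 336013) (nat_lit 2) (.e (nat_lit 90170) (nat_lit 13) (.e (nat_lit 172046) (nat_lit 0) (.e (nat_lit 3406) (nat_lit 212) .nil)))))))) (.g (nat_lit 1) (.e (nat_lit 426213) (nat_lit 0) .nil) .nil)))))))) 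
(.nd (nat_lit 5) (.nd (nat_lit 6) (.nd (nat_lit 7) (.nd (nat_lit 8) (.nd (nat_lit 9) 
(.lf (nat_lit 602140) (.g (nat_lit 1817) (.e (nat_lit 663585) (nat_lit 12) (.e (nat_lit 163977) (nat_lit 30) (.e (nat_lit 573469) (nat_lit 11) (.e (nat_lit 16465) (nat_lit 13) (.e (nat_lit 491264) (nat_lit 10) .nil))))) (.g (nat_lit 0) (.e (nat_lit 423365) (nat_lit 0) .nil) .nil))) 
(.lf (nat_lit 602652) (.g (nat_lit 2037) (.e (nat_lit 647182) (nat_lit 4) (.e (nat_lit 172120) (nat_lit 12) (.e (nat_lit 475211) (nat_lit 41) (.e (nat_lit 712753) (nat_lit 30) (.e (nat_lit 458496) (nat_lit 15) .nil))))) (.g (nat_lit 1) (.e (nat_lit 424713) (nat_lit 0) .nil) .nil)))) (.nd (nat_lit 9) 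
(.lf (nat_lit 602396) (.g (nat_lit 3238) (.e (nat_lit 647180) (nat_lit 3) (.e (nat_lit 163978) (nat_lit 30) (.e (nat_lit 573479) (nat_lit 13) (.e (nat_lit 65619) (nat_lit 10) (.e (nat_lit 344117) (nat_lit 21) (.e (nat_lit 516151) (nat_lit 9) (.e (nat_lit 426022) (nat_lit 0) (.e (nat_lit 3397) (nat_lit 211) .nil)))))))) (.g (nat_lit 1) (.e (nat_lit 424260) (nat_lit 0) .nil) .nil))) 
(.lf (nat_lit 602908) (.g (nat_lit 1350) (.e (nat_lit 647183) (nat_lit 4) (.e (nat_lit 172124) (nat_lit 14) (.e (nat_lit 491550) (nat_lit 9) (.e (nat_lit 336433) (nat_lit 30) .nil)))) (.g (nat_lit 0) (.e (nat_lit 425155) (nat_lit 0) .nil) .nil))))) (.nd (nat_lit 8) (.nd (nat_lit 9) 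
(.lf (nat_lit 602268) (.g (nat_lit 3784) (.e (nat_lit 671762) (nat_lit 4) (.e (nat_lit 65630) (nat_lit 14) (.e (nat_lit 401437) (nat_lit 9) (.e (nat_lit 426540) (nat_lit 29) (.e (nat_lit 352302) (nat_lit 20) .nil))))) (.g (nat_lit 0) (.e (nat_lit 423642) (nat_lit 0) .nil) .nil))) 
(.lf (nat_lit 602780) (.g (nat_lit 2450) (.e (nat_lit 647183) (nat_lit 4) (.e (nat_lit 172115) (nat_lit 10) (.e (nat_lit 434209) (nat_lit 18) (.e (nat_lit 5547) (nat_lit 306) (.e (nat_lit 2619) (nat_lit 164) (.e (nat_lit 172097) (nat_lit 9) (.e (nat_lit 426025) (nat_lit 0) (.e (nat_lit 3399) (nat_lit 211) .nil)))))))) (.g (nat_lit 1) (.e (nat_lit 424999) (nat_lit 0) .nil) .nil)))) 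
(.nd (nat_lit 9) 
(.lf (nat_lit 602524) (.g (nat_lit 4070) (.e (nat_lit 647181) (nat_lit 3) (.e (nat_lit 163977) (nat_lit 30) (.e (nat_lit 573493) (nat_lit 15) (.e (nat_lit 81954) (nat_lit 23) (.e (nat_lit 98359) (nat_lit 26) (.e (nat_lit 426023) (nat_lit 0) (.e (nat_lit 3397) (nat_lit 211) .nil))))))) (.g (nat_lit 1) (.e (nat_lit 424443) (nat_lit 0) .nil) .nil))) 
(.lf (nat_lit 603036) (.g (nat_lit 406) (.e (nat_lit 647185) (nat_lit 6) (.e (nat_lit 188441) (nat_lit 20) (.e (nat_lit 3409) (nat_lit 212) .nil))) (.g (nat_lit 0) (.e (nat_lit 425634) (nat_lit 0) .nil) .nil)))))) (.nd (nat_lit 7) (.nd (nat_lit 8) (.nd (nat_lit 9) 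
(.lf (nat_lit 602204) (.g (nat_lit 1080) (.e (nat_lit 671760) (nat_lit 4) (.e (nat_lit 65610) (nat_lit 10) (.e (nat_lit 344169) (nat_lit 40) (.e (nat_lit 671764) (nat_lit 6) .nil)))) (.g (nat_lit 0) (.e (nat_lit 423570) (nat_lit 0) .nil) .nil))) 
(.lf (nat_lit 602716) (.g (nat_lit 1844) (.e (nat_lit 647183) (nat_lit 4) (.e (nat_lit 172107) (nat_lit 10) (.e (nat_lit 434271) (nat_lit 38) (.e (nat_lit 655363) (nat_lit 0) (.e (nat_lit 3015) (nat_lit 187) (.e (nat_lit 458496) (nat_lit 15) .nil)))))) (.g (nat_lit 1) (.e (nat_lit 424928) (nat_lit 0) .nil) .nil)))) (.nd (nat_lit 9) 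
(.lf (nat_lit 602460) (.g (nat_lit 3405) (.e (nat_lit 647181) (nat_lit 3) (.e (nat_lit 163977) (nat_lit 30) (.e (nat_lit 573482) (nat_lit 13) (.e (nat_lit 65619) (nat_lit 10) (.e (nat_lit 344117) (nat_lit 21) (.e (nat_lit 516152) (nat_lit 9) (.e (nat_lit 426025) (nat_lit 0) (.e (nat_lit 3399) (nat_lit 211) .nil)))))))) (.g (nat_lit 1) (.e (nat_lit 424362) (nat_lit 0) .nil) .nil))) 
(.lf (nat_lit 602972) (.g (nat_lit 1153) (.e (nat_lit 647183) (nat_lit 4) (.e (nat_lit 172126) (nat_lit 14) (.e (nat_lit 491570) (nat_lit 13) (.e (nat_lit 393281) (nat_lit 23) .nil)))) (.g (nat_lit 0) (.e (nat_lit 425261) (nat_lit 0) .nil) .nil))))) (.nd (nat_lit 8) (.nd (nat_lit 9) 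
(.lf (nat_lit 602332) (.g (nat_lit 2438) (.e (nat_lit 647170) (nat_lit 0) (.e (nat_lit 2668) (nat_lit 167) (.e (nat_lit 196670) (nat_lit 14) (.e (nat_lit 73754) (nat_lit 8) (.e (nat_lit 557105) (nat_lit 14) .nil))))) (.g (nat_lit 0) (.e (nat_lit 423813) (nat_lit 0) .nil) .nil))) 
(.lf (nat_lit 602844) (.g (nat_lit 2258) (.e (nat_lit 647183) (nat_lit 4) (.e (nat_lit 172118) (nat_lit 12) (.e (nat_lit 475210) (nat_lit 41) (.e (nat_lit 712755) (nat_lit 30) (.e (nat_lit 458496) (nat_lit 15) .nil))))) (.g (nat_lit 1) (.e (nat_lit 425073) (nat_lit 0) .nil) .nil)))) (.nd (nat_lit 9) 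
(.lf (nat_lit 602588) (.g (nat_lit 2600) (.e (nat_lit 647181) (nat_lit 3) (.e (nat_lit 163978) (nat_lit 30) (.e (nat_lit 573485) (nat_lit 13) (.e (nat_lit 65619) (nat_lit 10) (.e (nat_lit 344117) (nat_lit 21) (.e (nat_lit 516153) (nat_lit 9) (.e (nat_lit 426025) (nat_lit 0) (.e (nat_lit 3399) (nat_lit 211) .nil)))))))) (.g (nat_lit 1) (.e (nat_lit 424524) (nat_lit 0) .nil) .nil))) 
(.lf (nat_lit 603100) (.g (nat_lit 1554) (.e (nat_lit 655364) (nat_lit 0) (.e (nat_lit 3098) (nat_lit 192) (.e (nat_lit 491566) (nat_lit 12) (.e (nat_lit 385104) (nat_lit 50) .nil)))) (.g (nat_lit 0) (.e (nat_lit 426154) (nat_lit 0) .nil) .nil))))))) (.nd (nat_lit 6) (.nd (nat_lit 7) (.nd (nat_lit 8) (.nd (nat_lit 9) 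
(.lf (nat_lit 602172) (.g (nat_lit 983) (.e (nat_lit 671747) (nat_lit 0) (.e (nat_lit 1589) (nat_lit 111) (.e (nat_lit 360457) (nat_lit 0) (.e (nat_lit 5597) (nat_lit 310) .nil)))) (.g (nat_lit 0) (.e (nat_lit 423521) (nat_lit 0) .nil) .nil))) 
(.lf (nat_lit 602684) (.g (nat_lit 2819) (.e (nat_lit 647183) (nat_lit 4) (.e (nat_lit 172106) (nat_lit 10) (.e (nat_lit 434209) (nat_lit 18) (.e (nat_lit 5546) (nat_lit 306) (.e (nat_lit 2649) (nat_lit 166) (.e (nat_lit 188427) (nat_lit 20) (.e (nat_lit 3397) (nat_lit 211) .nil))))))) (.g (nat_lit 1) (.e (nat_lit 424887) (nat_lit 0) .nil) .nil)))) (.nd (nat_lit 9) 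
(.lf (nat_lit 602428) (.g (nat_lit 4306) (.e (nat_lit 647180) (nat_lit 3) (.e (nat_lit 163979) (nat_lit 30) (.e (nat_lit 573492) (nat_lit 15) (.e (nat_lit 81956) (nat_lit 23) (.e (nat_lit 98360) (nat_lit 26) .nil))))) (.g (nat_lit 0) (.e (nat_lit 424302) (nat_lit 0) .nil) .nil))) 
(.lf (nat_lit 602940) (.g (nat_lit 1159) (.e (nat_lit 647183) (nat_lit 4) (.e (nat_lit 172126) (nat_lit 14) (.e (nat_lit 491548) (nat_lit 9) (.e (nat_lit 336426) (nat_lit 29) .nil)))) (.g (nat_lit 0) (.e (nat_lit 425219) (nat_lit 0) .nil) .nil))))) (.nd (nat_lit 8) (.nd (nat_lit 9) 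
(.lf (nat_lit 602300) (.g (nat_lit 2517) (.e (nat_lit 671763) (nat_lit 5) (.e (nat_lit 73782) (nat_lit 32) (.e (nat_lit 2856) (nat_lit 184) (.e (nat_lit 426542) (nat_lit 29) (.e (nat_lit 352297) (nat_lit 20) (.e (nat_lit 2004) (nat_lit 138) .nil)))))) (.g (nat_lit 1) (.e (nat_lit 423674) (nat_lit 0) .nil) .nil))) 
(.lf (nat_lit 602812) (.g (nat_lit 1672) (.e (nat_lit 647183) (nat_lit 4) (.e (nat_lit 172116) (nat_lit 10) (.e (nat_lit 434271) (nat_lit 38) (.e (nat_lit 655380) (nat_lit 6) (.e (nat_lit 188430) (nat_lit 20) (.e (nat_lit 3397) (nat_lit 211) .nil)))))) (.g (nat_lit 1) (.e (nat_lit 425040) (nat_lit 0) .nil) .nil)))) (.nd (nat_lit 9) 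
(.lf (nat_lit 602556) (.g (nat_lit 4257) (.e (nat_lit 647181) (nat_lit 3) (.e (nat_lit 163978) (nat_lit 30) (.e (nat_lit 573479) (nat_lit 13) (.e (nat_lit 65619) (nat_lit 10) (.e (nat_lit 344117) (nat_lit 21) (.e (nat_lit 516151) (nat_lit 9) (.e (nat_lit 426023) (nat_lit 0) (.e (nat_lit 3397) (nat_lit 211) .nil)))))))) (.g (nat_lit 1) (.e (nat_lit 424492) (nat_lit 0) .nil) .nil))) 
(.lf (nat_lit 603068) (.g (nat_lit 1287) (.e (nat_lit 647185) (nat_lit 6) (.e (nat_lit 188455) (nat_lit 24) (.e (nat_lit 229665) (nat_lit 240) (.e (nat_lit 7936) (nat_lit 166) .nil)))) (.g (nat_lit 0) (.e (nat_lit 425726) (nat_lit 0) .nil) .nil)))))) (.nd (nat_lit 7) (.nd (nat_lit 8) (.nd (nat_lit 9) 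
(.lf (nat_lit 602236) (.g (nat_lit 1901) (.e (nat_lit 671761) (nat_lit 4) (.e (nat_lit 65630) (nat_lit 14) (.e (nat_lit 401456) (nat_lit 13) (.e (nat_lit 483394) (nat_lit 24) .nil)))) (.g (nat_lit 0) (.e (nat_lit 423604) (nat_lit 0) .nil) .nil))) 
(.lf (nat_lit 602748) (.g (nat_lit 1793) (.e (nat_lit 647183) (nat_lit 4) (.e (nat_lit 172113) (nat_lit 10) (.e (nat_lit 434271) (nat_lit 38) (.e (nat_lit 655378) (nat_lit 4) (.e (nat_lit 172089) (nat_lit 9) .nil))))) (.g (nat_lit 0) (.e (nat_lit 424963) (nat_lit 0) .nil) .nil)))) (.nd (nat_lit 9) 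
(.lf (nat_lit 602492) (.g (nat_lit 1832) (.e (nat_lit 647181) (nat_lit 3) (.e (nat_lit 163977) (nat_lit 30) (.e (nat_lit 573491) (nat_lit 15) (.e (nat_lit 81954) (nat_lit 23) (.e (nat_lit 106240) (nat_lit 26) .nil))))) (.g (nat_lit 0) (.e (nat_lit 424395) (nat_lit 0) .nil) .nil))) 
(.lf (nat_lit 603004) (.g (nat_lit 1259) (.e (nat_lit 647185) (nat_lit 6) (.e (nat_lit 188418) (nat_lit 0) (.e (nat_lit 2174) (nat_lit 143) (.e (nat_lit 712750) (nat_lit 29) (.e (nat_lit 442399) (nat_lit 20) .nil))))) (.g (nat_lit 0) (.e (nat_lit 425529) (nat_lit 0) .nil) .nil))))) (.nd (nat_lit 8) (.nd (nat_lit 9) 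
(.lf (nat_lit 602364) (.g (nat_lit 3335) (.e (nat_lit 647170) (nat_lit 0) (.e (nat_lit 3098) (nat_lit 192) (.e (nat_lit 491566) (nat_lit 12) (.e (nat_lit 385105) (nat_lit 50) (.e (nat_lit 786481) (nat_lit 30) (.e (nat_lit 368384) (nat_lit 15) .nil)))))) (.g (nat_lit 1) (.e (nat_lit 424009) (nat_lit 0) .nil) .nil))) 
(.lf (nat_lit 602876) (.g (nat_lit 2280) (.e (nat_lit 647183) (nat_lit 4) (.e (nat_lit 172120) (nat_lit 12) (.e (nat_lit 475211) (nat_lit 41) (.e (nat_lit 712750) (nat_lit 29) (.e (nat_lit 442399) (nat_lit 20) (.e (nat_lit 3397) (nat_lit 211) .nil)))))) (.g (nat_lit 1) (.e (nat_lit 425115) (nat_lit 0) .nil) .nil)))) (.nd (nat_lit 9) 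
(.lf (nat_lit 602620) (.g (nat_lit 3339) (.e (nat_lit 647181) (nat_lit 3) (.e (nat_lit 163979) (nat_lit 30) (.e (nat_lit 573491) (nat_lit 15) (.e (nat_lit 81954) (nat_lit 23) (.e (nat_lit 98359) (nat_lit 26) (.e (nat_lit 426022) (nat_lit 0) (.e (nat_lit 3397) (nat_lit 211) .nil))))))) (.g (nat_lit 1) (.e (nat_lit 424561) (nat_lit 0) .nil) .nil))) 
(.lf (nat_lit 603132) (.g (nat_lit 1920) (.e (nat_lit 655373) (nat_lit 3) (.e (nat_lit 163978) (nat_lit 30) (.e (nat_lit 573485) (nat_lit 13) (.e (nat_lit 65604) (nat_lit 9) (.e (nat_lit 336028) (nat_lit 3) .nil))))) (.g (nat_lit 0) (.e (nat_lit 426236) (nat_lit 0) .nil) .nil))))))))))) 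
(.nd (nat_lit 2) (.nd (nat_lit 3) (.nd (nat_lit 4) (.nd (nat_lit 5) (.nd (nat_lit 6) 
(.nd (nat_lit 7) (.nd (nat_lit 8) (.nd (nat_lit 9) 
(.lf (nat_lit 602114) (.g (nat_lit 1654) (.e (nat_lit 663583) (nat_lit 11) (.e (nat_lit 24608) (nat_lit 3) (.e (nat_lit 98372) (nat_lit 29) (.e (nat_lit 458496) (nat_lit 3) .nil)))) (.g (nat_lit 0) (.e (nat_lit 423177) (nat_lit 0) .nil) .nil))) 
(.lf (nat_lit 602626) (.g (nat_lit 3404) (.e (nat_lit 647181) (nat_lit 3) (.e (nat_lit 163979) (nat_lit 30) (.e (nat_lit 573492) (nat_lit 15) (.e (nat_lit 81956) (nat_lit 23) (.e (nat_lit 98356) (nat_lit 26) (.e (nat_lit 426094) (nat_lit 0) (.e (nat_lit 7936) (nat_lit 211) .nil))))))) (.g (nat_lit 1) (.e (nat_lit 424573) (nat_lit 0) .nil) .nil)))) (.nd (nat_lit 9) 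
(.lf (nat_lit 602370) (.g (nat_lit 2323) (.e (nat_lit 647176) (nat_lit 0) (.e (nat_lit 2663) (nat_lit 167) (.e (nat_lit 196670) (nat_lit 14) (.e (nat_lit 73746) (nat_lit 3) (.e (nat_lit 516131) (nat_lit 3) .nil))))) (.g (nat_lit 0) (.e (nat_lit 424092) (nat_lit 0) .nil) .nil))) 
(.lf (nat_lit 602882) (.g (nat_lit 2013) (.e (nat_lit 647183) (nat_lit 4) (.e (nat_lit 172120) (nat_lit 12) (.e (nat_lit 475211) (nat_lit 41) (.e (nat_lit 712754) (nat_lit 30) (.e (nat_lit 458496) (nat_lit 15) .nil))))) (.g (nat_lit 1) (.e (nat_lit 425122) (nat_lit 0) .nil) .nil))))) (.nd (nat_lit 8) (.nd (nat_lit 9) 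
(.lf (nat_lit 602242) (.g (nat_lit 1971) (.e (nat_lit 671762) (nat_lit 4) (.e (nat_lit 65586) (nat_lit 7) (.e (nat_lit 319531) (nat_lit 16) (.e (nat_lit 286767) (nat_lit 27) .nil)))) (.g (nat_lit 0) (.e (nat_lit 423612) (nat_lit 0) .nil) .nil))) 
(.lf (nat_lit 602754) (.g (nat_lit 2237) (.e (nat_lit 647183) (nat_lit 4) (.e (nat_lit 172113) (nat_lit 10) (.e (nat_lit 434272) (nat_lit 38) (.e (nat_lit 655363) (nat_lit 0) (.e (nat_lit 3015) (nat_lit 187) (.e (nat_lit 458496) (nat_lit 15) .nil)))))) (.g (nat_lit 1) (.e (nat_lit 424969) (nat_lit 0) .nil) .nil)))) (.nd (nat_lit 9) 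
(.lf (nat_lit 602498) (.g (nat_lit 3240) (.e (nat_lit 647181) (nat_lit 3) (.e (nat_lit 163977) (nat_lit 30) (.e (nat_lit 573492) (nat_lit 15) (.e (nat_lit 81956) (nat_lit 23) (.e (nat_lit 98356) (nat_lit 26) .nil))))) (.g (nat_lit 0) (.e (nat_lit 424405) (nat_lit 0) .nil) .nil))) 
(.lf (nat_lit 603010) (.g (nat_lit 1150) (.e (nat_lit 647185) (nat_lit 6) (.e (nat_lit 188420) (nat_lit 0) (.e (nat_lit 2175) (nat_lit 143) (.e (nat_lit 712753) (nat_lit 30) (.e (nat_lit 458496) (nat_lit 15) .nil))))) (.g (nat_lit 1) (.e (nat_lit 425537) (nat_lit 0) .nil) .nil)))))) (.nd (nat_lit 7) (.nd (nat_lit 8) (.nd (nat_lit 9) 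
(.lf (nat_lit 602178) (.g (nat_lit 1402) (.e (nat_lit 671751) (nat_lit 0) (.e (nat_lit 1086) (nat_lit 81) (.e (nat_lit 1855) (nat_lit 124) (.e (nat_lit 557098) (nat_lit 13) (.e (nat_lit 172115) (nat_lit 10) .nil))))) (.g (nat_lit 0) (.e (nat_lit 423533) (nat_lit 0) .nil) .nil))) 
(.lf (nat_lit 602690) (.g (nat_lit 2804) (.e (nat_lit 647183) (nat_lit 4) (.e (nat_lit 172106) (nat_lit 10) (.e (nat_lit 434209) (nat_lit 18) (.e (nat_lit 5548) (nat_lit 306) (.e (nat_lit 2619) (nat_lit 164) (.e (nat_lit 172097) (nat_lit 9) (.e (nat_lit 426025) (nat_lit 0) (.e (nat_lit 3399) (nat_lit 211) .nil)))))))) (.g (nat_lit 1) (.e (nat_lit 424898) (nat_lit 0) .nil) .nil)))) 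
(.nd (nat_lit 9) 
(.lf (nat_lit 602434) (.g (nat_lit 3417) (.e (nat_lit 647180) (nat_lit 3) (.e (nat_lit 163979) (nat_lit 30) (.e (nat_lit 573493) (nat_lit 15) (.e (nat_lit 81954) (nat_lit 23) (.e (nat_lit 98362) (nat_lit 26) .nil))))) (.g (nat_lit 0) (.e (nat_lit 424318) (nat_lit 0) .nil) .nil))) 
(.lf (nat_lit 602946) (.g (nat_lit 1126) (.e (nat_lit 647183) (nat_lit 4) (.e (nat_lit 172126) (nat_lit 14) (.e (nat_lit 491548) (nat_lit 9) (.e (nat_lit 343808) (nat_lit 29) .nil)))) (.g (nat_lit 0) (.e (nat_lit 425227) (nat_lit 0) .nil) .nil))))) (.nd (nat_lit 8) (.nd (nat_lit 9) 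
(.lf (nat_lit 602306) (.g (nat_lit 1504) (.e (nat_lit 671763) (nat_lit 5) (.e (nat_lit 73782) (nat_lit 32) (.e (nat_lit 3090) (nat_lit 191) (.e (nat_lit 483395) (nat_lit 24) (.e (nat_lit 344167) (nat_lit 40) .nil))))) (.g (nat_lit 0) (.e (nat_lit 423680) (nat_lit 0) .nil) .nil))) 
(.lf (nat_lit 602818) (.g (nat_lit 2409) (.e (nat_lit 647183) (nat_lit 4) (.e (nat_lit 172116) (nat_lit 10) (.e (nat_lit 434272) (nat_lit 38) (.e (nat_lit 655364) (nat_lit 0) (.e (nat_lit 3015) (nat_lit 187) (.e (nat_lit 458496) (nat_lit 15) .nil)))))) (.g (nat_lit 1) (.e (nat_lit 425046) (nat_lit 0) .nil) .nil)))) (.nd (nat_lit 9) 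
(.lf (nat_lit 602562) (.g (nat_lit 4494) (.e (nat_lit 647181) (nat_lit 3) (.e (nat_lit 163978) (nat_lit 30) (.e (nat_lit 573484) (nat_lit 13) (.e (nat_lit 65610) (nat_lit 10) (.e (nat_lit 344117) (nat_lit 21) (.e (nat_lit 516151) (nat_lit 9) (.e (nat_lit 426025) (nat_lit 0) (.e (nat_lit 3399) (nat_lit 211) .nil)))))))) (.g (nat_lit 1) (.e (nat_lit 424498) (nat_lit 0) .nil) .nil))) 
(.lf (nat_lit 603074) (.g (nat_lit 1035) (.e (nat_lit 647201) (nat_lit 12) (.e (nat_lit 57574) (nat_lit 55) (.e (nat_lit 778455) (nat_lit 10) .nil))) (.g (nat_lit 0) (.e (nat_lit 425839) (nat_lit 0) .nil) .nil))))))) (.nd (nat_lit 6) (.nd (nat_lit 7) (.nd (nat_lit 8) (.nd (nat_lit 9) 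
(.lf (nat_lit 602146) (.g (nat_lit 3058) (.e (nat_lit 663585) (nat_lit 12) (.e (nat_lit 164018) (nat_lit 45) (.e (nat_lit 696344) (nat_lit 8) (.e (nat_lit 172082) (nat_lit 7) (.e (nat_lit 409646) (nat_lit 18) (.e (nat_lit 303139) (nat_lit 10) (.e (nat_lit 434276) (nat_lit 39) .nil))))))) (.g (nat_lit 1) (.e (nat_lit 423401) (nat_lit 0) .nil) .nil))) 
(.lf (nat_lit 602658) (.g (nat_lit 993) (.e (nat_lit 647183) (nat_lit 4) (.e (nat_lit 172079) (nat_lit 7) (.e (nat_lit 409641) (nat_lit 17) (.e (nat_lit 294974) (nat_lit 29) .nil)))) (.g (nat_lit 0) (.e (nat_lit 424814) (nat_lit 0) .nil) .nil)))) (.nd (nat_lit 9) 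
(.lf (nat_lit 602402) (.g (nat_lit 3548) (.e (nat_lit 647180) (nat_lit 3) (.e (nat_lit 163978) (nat_lit 30) (.e (nat_lit 573485) (nat_lit 13) (.e (nat_lit 65604) (nat_lit 9) (.e (nat_lit 336013) (nat_lit 2) (.e (nat_lit 90170) (nat_lit 13) (.e (nat_lit 172035) (nat_lit 0) (.e (nat_lit 3399) (nat_lit 211) .nil)))))))) (.g (nat_lit 1) (.e (nat_lit 424266) (nat_lit 0) .nil) .nil))) 
(.lf (nat_lit 602914) (.g (nat_lit 1359) (.e (nat_lit 647183) (nat_lit 4) (.e (nat_lit 172124) (nat_lit 14) (.e (nat_lit 491570) (nat_lit 13) (.e (nat_lit 393275) (nat_lit 23) (.e (nat_lit 426007) (nat_lit 0) .nil))))) (.g (nat_lit 0) (.e (nat_lit 425164) (nat_lit 0) .nil) .nil))))) (.nd (nat_lit 8) (.nd (nat_lit 9) 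
(.lf (nat_lit 602274) (.g (nat_lit 1961) (.e (nat_lit 671762) (nat_lit 4) (.e (nat_lit 65630) (nat_lit 14) (.e (nat_lit 401438) (nat_lit 9) (.e (nat_lit 426509) (nat_lit 27) .nil)))) (.g (nat_lit 0) (.e (nat_lit 423648) (nat_lit 0) .nil) .nil))) 
(.lf (nat_lit 602786) (.g (nat_lit 2120) (.e (nat_lit 647183) (nat_lit 4) (.e (nat_lit 172115) (nat_lit 10) (.e (nat_lit 434209) (nat_lit 18) (.e (nat_lit 5548) (nat_lit 306) (.e (nat_lit 2649) (nat_lit 166) .nil))))) (.g (nat_lit 0) (.e (nat_lit 425010) (nat_lit 0) .nil) .nil)))) (.nd (nat_lit 9) 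
(.lf (nat_lit 602530) (.g (nat_lit 3672) (.e (nat_lit 647181) (nat_lit 3) (.e (nat_lit 163977) (nat_lit 30) (.e (nat_lit 573493) (nat_lit 15) (.e (nat_lit 81954) (nat_lit 23) (.e (nat_lit 98362) (nat_lit 26) .nil))))) (.g (nat_lit 0) (.e (nat_lit 424449) (nat_lit 0) .nil) .nil))) 
(.lf (nat_lit 603042) (.g (nat_lit 2276) (.e (nat_lit 647185) (nat_lit 6) (.e (nat_lit 188444) (nat_lit 21) (.e (nat_lit 164347) (nat_lit 240) (.e (nat_lit 2619) (nat_lit 164) (.e (nat_lit 172097) (nat_lit 9) (.e (nat_lit 426025) (nat_lit 0) (.e (nat_lit 3399) (nat_lit 211) .nil))))))) (.g (nat_lit 1) (.e (nat_lit 425655) (nat_lit 0) .nil) .nil)))))) 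
(.nd (nat_lit 7) (.nd (nat_lit 8) (.nd (nat_lit 9) 
(.lf (nat_lit 602210) (.g (nat_lit 1501) (.e (nat_lit 671760) (nat_lit 4) (.e (nat_lit 65622) (nat_lit 12) (.e (nat_lit 385106) (nat_lit 50) (.e (nat_lit 786481) (nat_lit 30) (.e (nat_lit 360486) (nat_lit 18) .nil))))) (.g (nat_lit 0) (.e (nat_lit 423576) (nat_lit 0) .nil) .nil))) 
(.lf (nat_lit 602722) (.g (nat_lit 1886) (.e (nat_lit 647183) (nat_lit 4) (.e (nat_lit 172107) (nat_lit 10) (.e (nat_lit 434272) (nat_lit 38) (.e (nat_lit 655363) (nat_lit 0) (.e (nat_lit 3022) (nat_lit 187) (.e (nat_lit 458496) (nat_lit 15) .nil)))))) (.g (nat_lit 1) (.e (nat_lit 424934) (nat_lit 0) .nil) .nil)))) (.nd (nat_lit 9) 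
(.lf (nat_lit 602466) (.g (nat_lit 4503) (.e (nat_lit 647181) (nat_lit 3) (.e (nat_lit 163977) (nat_lit 30) (.e (nat_lit 573484) (nat_lit 13) (.e (nat_lit 65610) (nat_lit 10) (.e (nat_lit 344117) (nat_lit 21) (.e (nat_lit 516151) (nat_lit 9) (.e (nat_lit 426023) (nat_lit 0) (.e (nat_lit 3402) (nat_lit 211) .nil)))))))) (.g (nat_lit 1) (.e (nat_lit 424368) (nat_lit 0) .nil) .nil))) 
(.lf (nat_lit 602978) (.g (nat_lit 2764) (.e (nat_lit 647183) (nat_lit 4) (.e (nat_lit 172126) (nat_lit 14) (.e (nat_lit 491571) (nat_lit 13) (.e (nat_lit 393266) (nat_lit 23) (.e (nat_lit 426025) (nat_lit 0) (.e (nat_lit 3399) (nat_lit 211) .nil)))))) (.g (nat_lit 1) (.e (nat_lit 425293) (nat_lit 0) .nil) .nil))))) (.nd (nat_lit 8) (.nd (nat_lit 9) 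
(.lf (nat_lit 602338) (.g (nat_lit 3140) (.e (nat_lit 647170) (nat_lit 0) (.e (nat_lit 3097) (nat_lit 192) (.e (nat_lit 491566) (nat_lit 12) (.e (nat_lit 385104) (nat_lit 50) (.e (nat_lit 786483) (nat_lit 30) (.e (nat_lit 368384) (nat_lit 15) .nil)))))) (.g (nat_lit 1) (.e (nat_lit 423941) (nat_lit 0) .nil) .nil))) 
(.lf (nat_lit 602850) (.g (nat_lit 2159) (.e (nat_lit 647183) (nat_lit 4) (.e (nat_lit 172118) (nat_lit 12) (.e (nat_lit 475211) (nat_lit 41) (.e (nat_lit 712755) (nat_lit 30) (.e (nat_lit 458496) (nat_lit 15) .nil))))) (.g (nat_lit 1) (.e (nat_lit 425080) (nat_lit 0) .nil) .nil)))) (.nd (nat_lit 9) 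
(.lf (nat_lit 602594) (.g (nat_lit 3724) (.e (nat_lit 647181) (nat_lit 3) (.e (nat_lit 163979) (nat_lit 30) (.e (nat_lit 573482) (nat_lit 13) (.e (nat_lit 65604) (nat_lit 9) (.e (nat_lit 336013) (nat_lit 2) (.e (nat_lit 90170) (nat_lit 13) (.e (nat_lit 172035) (nat_lit 0) (.e (nat_lit 3399) (nat_lit 211) .nil)))))))) (.g (nat_lit 1) (.e (nat_lit 424533) (nat_lit 0) .nil) .nil))) 
(.lf (nat_lit 603106) (.g (nat_lit 2335) (.e (nat_lit 655373) (nat_lit 3) (.e (nat_lit 163973) (nat_lit 30) (.e (nat_lit 573484) (nat_lit 13) (.e (nat_lit 65610) (nat_lit 10) (.e (nat_lit 344117) (nat_lit 21) (.e (nat_lit 516151) (nat_lit 9) (.e (nat_lit 426043) (nat_lit 0) (.e (nat_lit 3407) (nat_lit 212) .nil)))))))) (.g (nat_lit 1) (.e (nat_lit 426184) (nat_lit 0) .nil) .nil)))))))) 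
(.nd (nat_lit 5) (.nd (nat_lit 6) (.nd (nat_lit 7) (.nd (nat_lit 8) (.nd (nat_lit 9) 
(.lf (nat_lit 602130) (.g (nat_lit 2228) (.e (nat_lit 663584) (nat_lit 12) (.e (nat_lit 163962) (nat_lit 25) (.e (nat_lit 532567) (nat_lit 16) (.e (nat_lit 401459) (nat_lit 13) (.e (nat_lit 491264) (nat_lit 10) .nil))))) (.g (nat_lit 0) (.e (nat_lit 423288) (nat_lit 0) .nil) .nil))) 
(.lf (nat_lit 602642) (.g (nat_lit 3872) (.e (nat_lit 647181) (nat_lit 3) (.e (nat_lit 163979) (nat_lit 30) (.e (nat_lit 573493) (nat_lit 15) (.e (nat_lit 81954) (nat_lit 23) (.e (nat_lit 98359) (nat_lit 26) (.e (nat_lit 426023) (nat_lit 0) (.e (nat_lit 3397) (nat_lit 211) .nil))))))) (.g (nat_lit 1) (.e (nat_lit 424593) (nat_lit 0) .nil) .nil)))) (.nd (nat_lit 9) 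
(.lf (nat_lit 602386) (.g (nat_lit 1205) (.e (nat_lit 655104) (nat_lit 0) (.e (nat_lit 2684) (nat_lit 168) (.e (nat_lit 204863) (nat_lit 27) (.e (nat_lit 344120) (nat_lit 21) .nil)))) (.g (nat_lit 0) (.e (nat_lit 424212) (nat_lit 0) .nil) .nil))) 
(.lf (nat_lit 602898) (.g (nat_lit 1890) (.e (nat_lit 647183) (nat_lit 4) (.e (nat_lit 172124) (nat_lit 14) (.e (nat_lit 491549) (nat_lit 9) (.e (nat_lit 336430) (nat_lit 29) (.e (nat_lit 442392) (nat_lit 20) (.e (nat_lit 3399) (nat_lit 211) .nil)))))) (.g (nat_lit 1) (.e (nat_lit 425142) (nat_lit 0) .nil) .nil))))) (.nd (nat_lit 8) (.nd (nat_lit 9) 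
(.lf (nat_lit 602258) (.g (nat_lit 2630) (.e (nat_lit 671762) (nat_lit 4) (.e (nat_lit 65629) (nat_lit 14) (.e (nat_lit 401438) (nat_lit 9) (.e (nat_lit 426555) (nat_lit 32) (.e (nat_lit 376848) (nat_lit 20) .nil))))) (.g (nat_lit 0) (.e (nat_lit 423632) (nat_lit 0) .nil) .nil))) 
(.lf (nat_lit 602770) (.g (nat_lit 1161) (.e (nat_lit 647183) (nat_lit 4) (.e (nat_lit 172115) (nat_lit 10) (.e (nat_lit 434209) (nat_lit 18) (.e (nat_lit 5546) (nat_lit 306) .nil)))) (.g (nat_lit 0) (.e (nat_lit 424986) (nat_lit 0) .nil) .nil)))) (.nd (nat_lit 9) 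
(.lf (nat_lit 602514) (.g (nat_lit 3545) (.e (nat_lit 647181) (nat_lit 3) (.e (nat_lit 163977) (nat_lit 30) (.e (nat_lit 573493) (nat_lit 15) (.e (nat_lit 81953) (nat_lit 22) (.e (nat_lit 90170) (nat_lit 13) (.e (nat_lit 172033) (nat_lit 0) (.e (nat_lit 3401) (nat_lit 211) .nil))))))) (.g (nat_lit 1) (.e (nat_lit 424429) (nat_lit 0) .nil) .nil))) 
(.lf (nat_lit 603026) (.g (nat_lit 720) (.e (nat_lit 647185) (nat_lit 6) (.e (nat_lit 188440) (nat_lit 20) (.e (nat_lit 3406) (nat_lit 212) (.e (nat_lit 655380) (nat_lit 6) .nil)))) (.g (nat_lit 0) (.e (nat_lit 425601) (nat_lit 0) .nil) .nil)))))) (.nd (nat_lit 7) (.nd (nat_lit 8) (.nd (nat_lit 9) 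
(.lf (nat_lit 602194) (.g (nat_lit 4698) (.e (nat_lit 671759) (nat_lit 3) (.e (nat_lit 57478) (nat_lit 28) (.e (nat_lit 557108) (nat_lit 15) (.e (nat_lit 188449) (nat_lit 22) (.e (nat_lit 196666) (nat_lit 13) .nil))))) (.g (nat_lit 0) (.e (nat_lit 423555) (nat_lit 0) .nil) .nil))) 
(.lf (nat_lit 602706) (.g (nat_lit 2793) (.e (nat_lit 647183) (nat_lit 4) (.e (nat_lit 172106) (nat_lit 10) (.e (nat_lit 434272) (nat_lit 38) (.e (nat_lit 655364) (nat_lit 0) (.e (nat_lit 3016) (nat_lit 187) (.e (nat_lit 458496) (nat_lit 15) .nil)))))) (.g (nat_lit 1) (.e (nat_lit 424918) (nat_lit 0) .nil) .nil)))) (.nd (nat_lit 9) 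
(.lf (nat_lit 602450) (.g (nat_lit 3625) (.e (nat_lit 647181) (nat_lit 3) (.e (nat_lit 163977) (nat_lit 30) (.e (nat_lit 573482) (nat_lit 13) (.e (nat_lit 65604) (nat_lit 9) (.e (nat_lit 336028) (nat_lit 3) (.e (nat_lit 98359) (nat_lit 26) (.e (nat_lit 426003) (nat_lit 0) (.e (nat_lit 3397) (nat_lit 211) .nil)))))))) (.g (nat_lit 1) (.e (nat_lit 424352) (nat_lit 0) .nil) .nil))) 
(.lf (nat_lit 602962) (.g (nat_lit 1481) (.e (nat_lit 647183) (nat_lit 4) (.e (nat_lit 172126) (nat_lit 14) (.e (nat_lit 491550) (nat_lit 9) (.e (nat_lit 343808) (nat_lit 29) .nil)))) (.g (nat_lit 0) (.e (nat_lit 425247) (nat_lit 0) .nil) .nil))))) (.nd (nat_lit 8) (.nd (nat_lit 9) 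
(.lf (nat_lit 602322) (.g (nat_lit 731) (.e (nat_lit 671764) (nat_lit 6) (.e (nat_lit 81959) (nat_lit 24) (.e (nat_lit 123185) (nat_lit 264) (.e (nat_lit 1223) (nat_lit 90) .nil)))) (.g (nat_lit 0) (.e (nat_lit 423701) (nat_lit 0) .nil) .nil))) 
(.lf (nat_lit 602834) (.g (nat_lit 2033) (.e (nat_lit 647183) (nat_lit 4) (.e (nat_lit 172118) (nat_lit 12) (.e (nat_lit 475198) (nat_lit 40) (.e (nat_lit 712448) (nat_lit 6) (.e (nat_lit 188431) (nat_lit 20) (.e (nat_lit 3399) (nat_lit 211) .nil)))))) (.g (nat_lit 1) (.e (nat_lit 425062) (nat_lit 0) .nil) .nil)))) (.nd (nat_lit 9) 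
(.lf (nat_lit 602578) (.g (nat_lit 3434) (.e (nat_lit 647181) (nat_lit 3) (.e (nat_lit 163978) (nat_lit 30) (.e (nat_lit 573485) (nat_lit 13) (.e (nat_lit 65604) (nat_lit 9) (.e (nat_lit 336028) (nat_lit 3) (.e (nat_lit 98359) (nat_lit 26) (.e (nat_lit 426023) (nat_lit 0) (.e (nat_lit 3402) (nat_lit 211) .nil)))))))) (.g (nat_lit 1) (.e (nat_lit 424514) (nat_lit 0) .nil) .nil))) 
(.lf (nat_lit 603090) (.g (nat_lit 3458) (.e (nat_lit 655363) (nat_lit 0) (.e (nat_lit 3098) (nat_lit 192) (.e (nat_lit 491566) (nat_lit 12) (.e (nat_lit 385105) (nat_lit 50) (.e (nat_lit 786483) (nat_lit 30) (.e (nat_lit 360485) (nat_lit 16) .nil)))))) (.g (nat_lit 1) (.e (nat_lit 425979) (nat_lit 0) .nil) .nil))))))) (.nd (nat_lit 6) (.nd (nat_lit 7) (.nd (nat_lit 8) (.nd (nat_lit 9) 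
(.lf (nat_lit 602162) (.g (nat_lit 1817) (.e (nat_lit 671488) (nat_lit 14) (.e (nat_lit 2797) (nat_lit 180) (.e (nat_lit 303143) (nat_lit 12) (.e (nat_lit 475207) (nat_lit 41) (.e (nat_lit 712755) (nat_lit 30) .nil))))) (.g (nat_lit 0) (.e (nat_lit 423506) (nat_lit 0) .nil) .nil))) 
(.lf (nat_lit 602674) (.g (nat_lit 1129) (.e (nat_lit 647183) (nat_lit 4) (.e (nat_lit 172094) (nat_lit 9) (.e (nat_lit 426109) (nat_lit 1) (.e (nat_lit 164347) (nat_lit 240) .nil)))) (.g (nat_lit 0) (.e (nat_lit 424854) (nat_lit 0) .nil) .nil)))) (.nd (nat_lit 9) 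
(.lf (nat_lit 602418) (.g (nat_lit 3618) (.e (nat_lit 647180) (nat_lit 3) (.e (nat_lit 163979) (nat_lit 30) (.e (nat_lit 573482) (nat_lit 13) (.e (nat_lit 65604) (nat_lit 9) (.e (nat_lit 336028) (nat_lit 3) (.e (nat_lit 98359) (nat_lit 26) (.e (nat_lit 426023) (nat_lit 0) (.e (nat_lit 3397) (nat_lit 211) .nil)))))))) (.g (nat_lit 1) (.e (nat_lit 424284) (nat_lit 0) .nil) .nil))) 
(.lf (nat_lit 602930) (.g (nat_lit 1683) (.e (nat_lit 647183) (nat_lit 4) (.e (nat_lit 172124) (nat_lit 14) (.e (nat_lit 491571) (nat_lit 13) (.e (nat_lit 393283) (nat_lit 24) (.e (nat_lit 442112) (nat_lit 37) .nil))))) (.g (nat_lit 1) (.e (nat_lit 425203) (nat_lit 0) .nil) .nil))))) (.nd (nat_lit 8) (.nd (nat_lit 9) 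
(.lf (nat_lit 602290) (.g (nat_lit 2062) (.e (nat_lit 671763) (nat_lit 5) (.e (nat_lit 73781) (nat_lit 32) (.e (nat_lit 2857) (nat_lit 184) (.e (nat_lit 426542) (nat_lit 29) (.e (nat_lit 352297) (nat_lit 20) (.e (nat_lit 2004) (nat_lit 138) .nil)))))) (.g (nat_lit 1) (.e (nat_lit 423664) (nat_lit 0) .nil) .nil))) 
(.lf (nat_lit 602802) (.g (nat_lit 2232) (.e (nat_lit 647183) (nat_lit 4) (.e (nat_lit 172115) (nat_lit 10) (.e (nat_lit 434272) (nat_lit 38) (.e (nat_lit 655364) (nat_lit 0) (.e (nat_lit 3028) (nat_lit 187) (.e (nat_lit 458496) (nat_lit 15) .nil)))))) (.g (nat_lit 1) (.e (nat_lit 425028) (nat_lit 0) .nil) .nil)))) (.nd (nat_lit 9) 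
(.lf (nat_lit 602546) (.g (nat_lit 3586) (.e (nat_lit 647181) (nat_lit 3) (.e (nat_lit 163977) (nat_lit 30) (.e (nat_lit 573493) (nat_lit 15) (.e (nat_lit 81956) (nat_lit 23) (.e (nat_lit 106240) (nat_lit 26) .nil))))) (.g (nat_lit 0) (.e (nat_lit 424467) (nat_lit 0) .nil) .nil))) 
(.lf (nat_lit 603058) (.g (nat_lit 1290) (.e (nat_lit 647185) (nat_lit 6) (.e (nat_lit 188453) (nat_lit 24) (.e (nat_lit 229663) (nat_lit 240) (.e (nat_lit 2651) (nat_lit 166) .nil)))) (.g (nat_lit 0) (.e (nat_lit 425697) (nat_lit 0) .nil) .nil)))))) (.nd (nat_lit 7) (.nd (nat_lit 8) (.nd (nat_lit 9) 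
(.lf (nat_lit 602226) (.g (nat_lit 1442) (.e (nat_lit 671761) (nat_lit 4) (.e (nat_lit 65628) (nat_lit 14) (.e (nat_lit 401438) (nat_lit 9) (.e (nat_lit 426544) (nat_lit 30) .nil)))) (.g (nat_lit 0) (.e (nat_lit 423594) (nat_lit 0) .nil) .nil))) 
(.lf (nat_lit 602738) (.g (nat_lit 2363) (.e (nat_lit 647183) (nat_lit 4) (.e (nat_lit 172112) (nat_lit 10) (.e (nat_lit 434272) (nat_lit 38) (.e (nat_lit 655364) (nat_lit 0) (.e (nat_lit 3015) (nat_lit 187) (.e (nat_lit 458496) (nat_lit 15) .nil)))))) (.g (nat_lit 1) (.e (nat_lit 424951) (nat_lit 0) .nil) .nil)))) (.nd (nat_lit 9) 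
(.lf (nat_lit 602482) (.g (nat_lit 3127) (.e (nat_lit 647181) (nat_lit 3) (.e (nat_lit 163977) (nat_lit 30) (.e (nat_lit 573485) (nat_lit 13) (.e (nat_lit 65619) (nat_lit 10) (.e (nat_lit 344117) (nat_lit 21) (.e (nat_lit 516153) (nat_lit 9) (.e (nat_lit 426025) (nat_lit 0) (.e (nat_lit 3397) (nat_lit 211) .nil)))))))) (.g (nat_lit 1) (.e (nat_lit 424384) (nat_lit 0) .nil) .nil))) 
(.lf (nat_lit 602994) (.g (nat_lit 1183) (.e (nat_lit 647183) (nat_lit 4) (.e (nat_lit 172147) (nat_lit 27) (.e (nat_lit 336073) (nat_lit 9) (.e (nat_lit 336028) (nat_lit 3) (.e (nat_lit 106240) (nat_lit 10) (.e (nat_lit 344158) (nat_lit 37) .nil)))))) (.g (nat_lit 1) (.e (nat_lit 425322) (nat_lit 0) .nil) .nil))))) (.nd (nat_lit 8) (.nd (nat_lit 9) 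
(.lf (nat_lit 602354) (.g (nat_lit 2827) (.e (nat_lit 647170) (nat_lit 0) (.e (nat_lit 3098) (nat_lit 192) (.e (nat_lit 491566) (nat_lit 12) (.e (nat_lit 385100) (nat_lit 49) .nil)))) (.g (nat_lit 0) (.e (nat_lit 423982) (nat_lit 0) .nil) .nil))) 
(.lf (nat_lit 602866) (.g (nat_lit 1017) (.e (nat_lit 647183) (nat_lit 4) (.e (nat_lit 172120) (nat_lit 12) (.e (nat_lit 475199) (nat_lit 40) (.e (nat_lit 704598) (nat_lit 6) .nil)))) (.g (nat_lit 0) (.e (nat_lit 425103) (nat_lit 0) .nil) .nil)))) (.nd (nat_lit 9) 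
(.lf (nat_lit 602610) (.g (nat_lit 4336) (.e (nat_lit 647181) (nat_lit 3) (.e (nat_lit 163979) (nat_lit 30) (.e (nat_lit 573482) (nat_lit 13) (.e (nat_lit 65619) (nat_lit 10) (.e (nat_lit 344117) (nat_lit 21) (.e (nat_lit 516151) (nat_lit 9) (.e (nat_lit 426025) (nat_lit 0) (.e (nat_lit 3399) (nat_lit 211) .nil)))))))) (.g (nat_lit 1) (.e (nat_lit 424549) (nat_lit 0) .nil) .nil))) 
(.lf (nat_lit 603122) (.g (nat_lit 3466) (.e (nat_lit 655373) (nat_lit 3) (.e (nat_lit 163978) (nat_lit 30) (.e (nat_lit 573479) (nat_lit 13) (.e (nat_lit 65619) (nat_lit 10) (.e (nat_lit 344117) (nat_lit 21) (.e (nat_lit 516151) (nat_lit 9) (.e (nat_lit 426043) (nat_lit 0) (.e (nat_lit 3406) (nat_lit 212) .nil)))))))) (.g (nat_lit 1) (.e (nat_lit 426225) (nat_lit 0) .nil) .nil))))))))) 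
(.nd (nat_lit 4) (.nd (nat_lit 5) (.nd (nat_lit 6) (.nd (nat_lit 7) (.nd (nat_lit 8) 
(.nd (nat_lit 9) 
(.lf (nat_lit 602122) (.g (nat_lit 2685) (.e (nat_lit 663583) (nat_lit 11) (.e (nat_lit 24617) (nat_lit 7) (.e (nat_lit 319533) (nat_lit 16) (.e (nat_lit 286724) (nat_lit 0) (.e (nat_lit 7936) (nat_lit 362) (.e (nat_lit 180265) (nat_lit 21) .nil)))))) (.g (nat_lit 1) (.e (nat_lit 423189) (nat_lit 0) .nil) .nil))) 
(.lf (nat_lit 602634) (.g (nat_lit 3925) (.e (nat_lit 647181) (nat_lit 3) (.e (nat_lit 163979) (nat_lit 30) (.e (nat_lit 573493) (nat_lit 15) (.e (nat_lit 81953) (nat_lit 22) (.e (nat_lit 90170) (nat_lit 13) (.e (nat_lit 172032) (nat_lit 0) (.e (nat_lit 3399) (nat_lit 211) .nil))))))) (.g (nat_lit 1) (.e (nat_lit 424584) (nat_lit 0) .nil) .nil)))) (.nd (nat_lit 9) 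
(.lf (nat_lit 602378) (.g (nat_lit 2707) (.e (nat_lit 647177) (nat_lit 0) (.e (nat_lit 2682) (nat_lit 168) (.e (nat_lit 204863) (nat_lit 27) (.e (nat_lit 344130) (nat_lit 26) (.e (nat_lit 557104) (nat_lit 14) .nil))))) (.g (nat_lit 0) (.e (nat_lit 424154) (nat_lit 0) .nil) .nil))) 
(.lf (nat_lit 602890) (.g (nat_lit 2492) (.e (nat_lit 647183) (nat_lit 4) (.e (nat_lit 172124) (nat_lit 14) (.e (nat_lit 491549) (nat_lit 9) (.e (nat_lit 336369) (nat_lit 27) (.e (nat_lit 426212) (nat_lit 9) (.e (nat_lit 426025) (nat_lit 0) (.e (nat_lit 3399) (nat_lit 211) .nil))))))) (.g (nat_lit 1) (.e (nat_lit 425134) (nat_lit 0) .nil) .nil))))) (.nd (nat_lit 8) (.nd (nat_lit 9) 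
(.lf (nat_lit 602250) (.g (nat_lit 1604) (.e (nat_lit 671762) (nat_lit 4) (.e (nat_lit 65628) (nat_lit 14) (.e (nat_lit 401437) (nat_lit 9) (.e (nat_lit 426538) (nat_lit 29) .nil)))) (.g (nat_lit 0) (.e (nat_lit 423624) (nat_lit 0) .nil) .nil))) 
(.lf (nat_lit 602762) (.g (nat_lit 2425) (.e (nat_lit 647183) (nat_lit 4) (.e (nat_lit 172113) (nat_lit 10) (.e (nat_lit 434272) (nat_lit 38) (.e (nat_lit 655364) (nat_lit 0) (.e (nat_lit 3028) (nat_lit 187) (.e (nat_lit 458496) (nat_lit 15) .nil)))))) (.g (nat_lit 1) (.e (nat_lit 424977) (nat_lit 0) .nil) .nil)))) (.nd (nat_lit 9) 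
(.lf (nat_lit 602506) (.g (nat_lit 3470) (.e (nat_lit 647181) (nat_lit 3) (.e (nat_lit 163977) (nat_lit 30) (.e (nat_lit 573493) (nat_lit 15) (.e (nat_lit 81951) (nat_lit 22) (.e (nat_lit 90170) (nat_lit 13) .nil))))) (.g (nat_lit 0) (.e (nat_lit 424415) (nat_lit 0) .nil) .nil))) 
(.lf (nat_lit 603018) (.g (nat_lit 1443) (.e (nat_lit 647185) (nat_lit 6) (.e (nat_lit 188435) (nat_lit 20) (.e (nat_lit 3408) (nat_lit 212) (.e (nat_lit 655380) (nat_lit 6) (.e (nat_lit 188427) (nat_lit 20) (.e (nat_lit 3397) (nat_lit 211) .nil)))))) (.g (nat_lit 1) (.e (nat_lit 425568) (nat_lit 0) .nil) .nil)))))) (.nd (nat_lit 7) (.nd (nat_lit 8) (.nd (nat_lit 9) 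
(.lf (nat_lit 602186) (.g (nat_lit 540) (.e (nat_lit 671758) (nat_lit 3) (.e (nat_lit 57478) (nat_lit 28) (.e (nat_lit 557107) (nat_lit 15) .nil))) (.g (nat_lit 0) (.e (nat_lit 423544) (nat_lit 0) .nil) .nil))) 
(.lf (nat_lit 602698) (.g (nat_lit 2026) (.e (nat_lit 647183) (nat_lit 4) (.e (nat_lit 172106) (nat_lit 10) (.e (nat_lit 434271) (nat_lit 38) (.e (nat_lit 655363) (nat_lit 0) (.e (nat_lit 3022) (nat_lit 187) (.e (nat_lit 458496) (nat_lit 15) .nil)))))) (.g (nat_lit 1) (.e (nat_lit 424910) (nat_lit 0) .nil) .nil)))) (.nd (nat_lit 9) 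
(.lf (nat_lit 602442) (.g (nat_lit 2217) (.e (nat_lit 647181) (nat_lit 3) (.e (nat_lit 163964) (nat_lit 25) (.e (nat_lit 532534) (nat_lit 9) (.e (nat_lit 336019) (nat_lit 3) (.e (nat_lit 98342) (nat_lit 20) .nil))))) (.g (nat_lit 0) (.e (nat_lit 424340) (nat_lit 0) .nil) .nil))) 
(.lf (nat_lit 602954) (.g (nat_lit 2149) (.e (nat_lit 647183) (nat_lit 4) (.e (nat_lit 172126) (nat_lit 14) (.e (nat_lit 491549) (nat_lit 9) (.e (nat_lit 336430) (nat_lit 29) (.e (nat_lit 442392) (nat_lit 20) (.e (nat_lit 3399) (nat_lit 211) .nil)))))) (.g (nat_lit 1) (.e (nat_lit 425236) (nat_lit 0) .nil) .nil))))) (.nd (nat_lit 8) (.nd (nat_lit 9) 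
(.lf (nat_lit 602314) (.g (nat_lit 286) (.e (nat_lit 671764) (nat_lit 6) (.e (nat_lit 81942) (nat_lit 20) (.e (nat_lit 2003) (nat_lit 138) (.e (nat_lit 671764) (nat_lit 6) .nil)))) (.g (nat_lit 0) (.e (nat_lit 423690) (nat_lit 0) .nil) .nil))) 
(.lf (nat_lit 602826) (.g (nat_lit 2069) (.e (nat_lit 647183) (nat_lit 4) (.e (nat_lit 172116) (nat_lit 10) (.e (nat_lit 434272) (nat_lit 38) (.e (nat_lit 655378) (nat_lit 4) (.e (nat_lit 172097) (nat_lit 9) (.e (nat_lit 426025) (nat_lit 0) (.e (nat_lit 3399) (nat_lit 211) .nil))))))) (.g (nat_lit 1) (.e (nat_lit 425054) (nat_lit 0) .nil) .nil)))) (.nd (nat_lit 9) 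
(.lf (nat_lit 602570) (.g (nat_lit 2858) (.e (nat_lit 647181) (nat_lit 3) (.e (nat_lit 163978) (nat_lit 30) (.e (nat_lit 573485) (nat_lit 13) (.e (nat_lit 65604) (nat_lit 9) (.e (nat_lit 336013) (nat_lit 2) (.e (nat_lit 90170) (nat_lit 13) (.e (nat_lit 172036) (nat_lit 0) (.e (nat_lit 3402) (nat_lit 211) .nil)))))))) (.g (nat_lit 1) (.e (nat_lit 424506) (nat_lit 0) .nil) .nil))) 
(.lf (nat_lit 603082) (.g (nat_lit 2555) (.e (nat_lit 647201) (nat_lit 12) (.e (nat_lit 57575) (nat_lit 55) (.e (nat_lit 778465) (nat_lit 11) (.e (nat_lit 24617) (nat_lit 7) (.e (nat_lit 319533) (nat_lit 16) (.e (nat_lit 286753) (nat_lit 10) (.e (nat_lit 344161) (nat_lit 37) .nil))))))) (.g (nat_lit 1) (.e (nat_lit 425847) (nat_lit 0) .nil) .nil))))))) 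
(.nd (nat_lit 6) (.nd (nat_lit 7) (.nd (nat_lit 8) (.nd (nat_lit 9) 
(.lf (nat_lit 602154) (.g (nat_lit 2258) (.e (nat_lit 663589) (nat_lit 14) (.e (nat_lit 2797) (nat_lit 180) (.e (nat_lit 303146) (nat_lit 14) (.e (nat_lit 491569) (nat_lit 13) (.e (nat_lit 393283) (nat_lit 24) .nil))))) (.g (nat_lit 0) (.e (nat_lit 423424) (nat_lit 0) .nil) .nil))) 
(.lf (nat_lit 602666) (.g (nat_lit 1533) (.e (nat_lit 647183) (nat_lit 4) (.e (nat_lit 172089) (nat_lit 9) (.e (nat_lit 426025) (nat_lit 0) (.e (nat_lit 3397) (nat_lit 211) (.e (nat_lit 647185) (nat_lit 6) (.e (nat_lit 188431) (nat_lit 20) (.e (nat_lit 3402) (nat_lit 211) .nil))))))) (.g (nat_lit 1) (.e (nat_lit 424827) (nat_lit 0) .nil) .nil)))) (.nd (nat_lit 9) 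
(.lf (nat_lit 602410) (.g (nat_lit 4677) (.e (nat_lit 647180) (nat_lit 3) (.e (nat_lit 163978) (nat_lit 30) (.e (nat_lit 573485) (nat_lit 13) (.e (nat_lit 65619) (nat_lit 10) (.e (nat_lit 344117) (nat_lit 21) (.e (nat_lit 516151) (nat_lit 9) (.e (nat_lit 426022) (nat_lit 0) (.e (nat_lit 3397) (nat_lit 211) .nil)))))))) (.g (nat_lit 1) (.e (nat_lit 424274) (nat_lit 0) .nil) .nil))) 
(.lf (nat_lit 602922) (.g (nat_lit 1861) (.e (nat_lit 647183) (nat_lit 4) (.e (nat_lit 172124) (nat_lit 14) (.e (nat_lit 491571) (nat_lit 13) (.e (nat_lit 393268) (nat_lit 23) .nil)))) (.g (nat_lit 0) (.e (nat_lit 425190) (nat_lit 0) .nil) .nil))))) (.nd (nat_lit 8) (.nd (nat_lit 9) 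
(.lf (nat_lit 602282) (.g (nat_lit 2259) (.e (nat_lit 671762) (nat_lit 4) (.e (nat_lit 65630) (nat_lit 14) (.e (nat_lit 401457) (nat_lit 13) (.e (nat_lit 483396) (nat_lit 24) (.e (nat_lit 344168) (nat_lit 40) .nil))))) (.g (nat_lit 0) (.e (nat_lit 423656) (nat_lit 0) .nil) .nil))) 
(.lf (nat_lit 602794) (.g (nat_lit 1918) (.e (nat_lit 647183) (nat_lit 4) (.e (nat_lit 172115) (nat_lit 10) (.e (nat_lit 434271) (nat_lit 38) (.e (nat_lit 655378) (nat_lit 4) (.e (nat_lit 172089) (nat_lit 9) (.e (nat_lit 426025) (nat_lit 0) (.e (nat_lit 3399) (nat_lit 211) .nil))))))) (.g (nat_lit 1) (.e (nat_lit 425020) (nat_lit 0) .nil) .nil)))) (.nd (nat_lit 9) 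
(.lf (nat_lit 602538) (.g (nat_lit 3319) (.e (nat_lit 647181) (nat_lit 3) (.e (nat_lit 163977) (nat_lit 30) (.e (nat_lit 573493) (nat_lit 15) (.e (nat_lit 81956) (nat_lit 23) (.e (nat_lit 98360) (nat_lit 26) (.e (nat_lit 426004) (nat_lit 0) (.e (nat_lit 3399) (nat_lit 211) .nil))))))) (.g (nat_lit 1) (.e (nat_lit 424459) (nat_lit 0) .nil) .nil))) 
(.lf (nat_lit 603050) (.g (nat_lit 1111) (.e (nat_lit 647185) (nat_lit 6) (.e (nat_lit 188446) (nat_lit 21) (.e (nat_lit 164347) (nat_lit 240) (.e (nat_lit 2650) (nat_lit 166) .nil)))) (.g (nat_lit 0) (.e (nat_lit 425683) (nat_lit 0) .nil) .nil)))))) (.nd (nat_lit 7) (.nd (nat_lit 8) (.nd (nat_lit 9) 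
(.lf (nat_lit 602218) (.g (nat_lit 585) (.e (nat_lit 671760) (nat_lit 4) (.e (nat_lit 65630) (nat_lit 14) (.e (nat_lit 401456) (nat_lit 13) .nil))) (.g (nat_lit 0) (.e (nat_lit 423586) (nat_lit 0) .nil) .nil))) 
(.lf (nat_lit 602730) (.g (nat_lit 1890) (.e (nat_lit 647183) (nat_lit 4) (.e (nat_lit 172107) (nat_lit 10) (.e (nat_lit 434272) (nat_lit 38) (.e (nat_lit 655378) (nat_lit 4) (.e (nat_lit 172089) (nat_lit 9) (.e (nat_lit 426025) (nat_lit 0) (.e (nat_lit 3399) (nat_lit 211) .nil))))))) (.g (nat_lit 1) (.e (nat_lit 424942) (nat_lit 0) .nil) .nil)))) (.nd (nat_lit 9) 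
(.lf (nat_lit 602474) (.g (nat_lit 2121) (.e (nat_lit 647181) (nat_lit 3) (.e (nat_lit 163977) (nat_lit 30) (.e (nat_lit 573485) (nat_lit 13) (.e (nat_lit 65604) (nat_lit 9) (.e (nat_lit 336028) (nat_lit 3) (.e (nat_lit 106240) (nat_lit 26) (.e (nat_lit 426025) (nat_lit 0) (.e (nat_lit 3397) (nat_lit 211) .nil)))))))) (.g (nat_lit 1) (.e (nat_lit 424376) (nat_lit 0) .nil) .nil))) 
(.lf (nat_lit 602986) (.g (nat_lit 2546) (.e (nat_lit 647183) (nat_lit 4) (.e (nat_lit 172126) (nat_lit 14) (.e (nat_lit 491571) (nat_lit 13) (.e (nat_lit 393276) (nat_lit 23) .nil)))) (.g (nat_lit 0) (.e (nat_lit 425304) (nat_lit 0) .nil) .nil))))) (.nd (nat_lit 8) (.nd (nat_lit 9) 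
(.lf (nat_lit 602346) (.g (nat_lit 2642) (.e (nat_lit 647170) (nat_lit 0) (.e (nat_lit 3098) (nat_lit 192) (.e (nat_lit 491566) (nat_lit 12) (.e (nat_lit 385090) (nat_lit 49) .nil)))) (.g (nat_lit 0) (.e (nat_lit 423954) (nat_lit 0) .nil) .nil))) 
(.lf (nat_lit 602858) (.g (nat_lit 433) (.e (nat_lit 647183) (nat_lit 4) (.e (nat_lit 172120) (nat_lit 12) (.e (nat_lit 475197) (nat_lit 40) .nil))) (.g (nat_lit 0) (.e (nat_lit 425089) (nat_lit 0) .nil) .nil)))) (.nd (nat_lit 9) 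
(.lf (nat_lit 602602) (.g (nat_lit 3446) (.e (nat_lit 647181) (nat_lit 3) (.e (nat_lit 163979) (nat_lit 30) (.e (nat_lit 573482) (nat_lit 13) (.e (nat_lit 65604) (nat_lit 9) (.e (nat_lit 336028) (nat_lit 3) (.e (nat_lit 98359) (nat_lit 26) (.e (nat_lit 426022) (nat_lit 0) (.e (nat_lit 3401) (nat_lit 211) .nil)))))))) (.g (nat_lit 1) (.e (nat_lit 424541) (nat_lit 0) .nil) .nil))) 
(.lf (nat_lit 603114) (.g (nat_lit 4340) (.e (nat_lit 655373) (nat_lit 3) (.e (nat_lit 163975) (nat_lit 30) (.e (nat_lit 573481) (nat_lit 13) (.e (nat_lit 65619) (nat_lit 10) (.e (nat_lit 344117) (nat_lit 21) (.e (nat_lit 516160) (nat_lit 10) (.e (nat_lit 434271) (nat_lit 38) .nil))))))) (.g (nat_lit 1) (.e (nat_lit 426196) (nat_lit 0) .nil) .nil)))))))) 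
(.nd (nat_lit 5) (.nd (nat_lit 6) (.nd (nat_lit 7) (.nd (nat_lit 8) (.nd (nat_lit 9) 
(.lf (nat_lit 602138) (.g (nat_lit 2466) (.e (nat_lit 663584) (nat_lit 12) (.e (nat_lit 164000) (nat_lit 38) (.e (nat_lit 639020) (nat_lit 16) (.e (nat_lit 65627) (nat_lit 13) (.e (nat_lit 393284) (nat_lit 24) (.e (nat_lit 434278) (nat_lit 39) .nil)))))) (.g (nat_lit 1) (.e (nat_lit 423350) (nat_lit 0) .nil) .nil))) 
(.lf (nat_lit 602650) (.g (nat_lit 5422) (.e (nat_lit 647181) (nat_lit 3) (.e (nat_lit 163979) (nat_lit 30) (.e (nat_lit 573493) (nat_lit 15) (.e (nat_lit 81956) (nat_lit 23) (.e (nat_lit 98362) (nat_lit 26) (.e (nat_lit 426025) (nat_lit 0) (.e (nat_lit 3399) (nat_lit 211) .nil))))))) (.g (nat_lit 1) (.e (nat_lit 424601) (nat_lit 0) .nil) .nil)))) (.nd (nat_lit 9) 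
(.lf (nat_lit 602394) (.g (nat_lit 2206) (.e (nat_lit 647180) (nat_lit 3) (.e (nat_lit 163978) (nat_lit 30) (.e (nat_lit 573479) (nat_lit 13) (.e (nat_lit 65604) (nat_lit 9) .nil)))) (.g (nat_lit 0) (.e (nat_lit 424258) (nat_lit 0) .nil) .nil))) 
(.lf (nat_lit 602906) (.g (nat_lit 1374) (.e (nat_lit 647183) (nat_lit 4) (.e (nat_lit 172124) (nat_lit 14) (.e (nat_lit 491550) (nat_lit 9) (.e (nat_lit 343808) (nat_lit 29) .nil)))) (.g (nat_lit 0) (.e (nat_lit 425153) (nat_lit 0) .nil) .nil))))) (.nd (nat_lit 8) (.nd (nat_lit 9) 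
(.lf (nat_lit 602266) (.g (nat_lit 2390) (.e (nat_lit 671762) (nat_lit 4) (.e (nat_lit 65630) (nat_lit 14) (.e (nat_lit 401437) (nat_lit 9) (.e (nat_lit 426540) (nat_lit 29) .nil)))) (.g (nat_lit 0) (.e (nat_lit 423640) (nat_lit 0) .nil) .nil))) 
(.lf (nat_lit 602778) (.g (nat_lit 2209) (.e (nat_lit 647183) (nat_lit 4) (.e (nat_lit 172115) (nat_lit 10) (.e (nat_lit 434209) (nat_lit 18) (.e (nat_lit 5546) (nat_lit 306) (.e (nat_lit 2650) (nat_lit 166) (.e (nat_lit 188427) (nat_lit 20) (.e (nat_lit 3402) (nat_lit 211) .nil))))))) (.g (nat_lit 1) (.e (nat_lit 424997) (nat_lit 0) .nil) .nil)))) (.nd (nat_lit 9) 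
(.lf (nat_lit 602522) (.g (nat_lit 4054) (.e (nat_lit 647181) (nat_lit 3) (.e (nat_lit 163977) (nat_lit 30) (.e (nat_lit 573493) (nat_lit 15) (.e (nat_lit 81954) (nat_lit 23) (.e (nat_lit 98359) (nat_lit 26) (.e (nat_lit 426022) (nat_lit 0) (.e (nat_lit 3402) (nat_lit 211) .nil))))))) (.g (nat_lit 1) (.e (nat_lit 424441) (nat_lit 0) .nil) .nil))) 
(.lf (nat_lit 603034) (.g (nat_lit 1819) (.e (nat_lit 647185) (nat_lit 6) (.e (nat_lit 188441) (nat_lit 20) (.e (nat_lit 3408) (nat_lit 212) (.e (nat_lit 655378) (nat_lit 4) (.e (nat_lit 172097) (nat_lit 9) (.e (nat_lit 426025) (nat_lit 0) (.e (nat_lit 3397) (nat_lit 211) .nil))))))) (.g (nat_lit 1) (.e (nat_lit 425631) (nat_lit 0) .nil) .nil)))))) 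
(.nd (nat_lit 7) (.nd (nat_lit 8) (.nd (nat_lit 9) 
(.lf (nat_lit 602202) (.g (nat_lit 1130) (.e (nat_lit 671759) (nat_lit 3) (.e (nat_lit 57479) (nat_lit 28) (.e (nat_lit 557109) (nat_lit 15) (.e (nat_lit 188450) (nat_lit 23) .nil)))) (.g (nat_lit 0) (.e (nat_lit 423567) (nat_lit 0) .nil) .nil))) 
(.lf (nat_lit 602714) (.g (nat_lit 2228) (.e (nat_lit 647183) (nat_lit 4) (.e (nat_lit 172106) (nat_lit 10) (.e (nat_lit 434272) (nat_lit 38) (.e (nat_lit 655378) (nat_lit 4) (.e (nat_lit 172089) (nat_lit 9) (.e (nat_lit 426025) (nat_lit 0) (.e (nat_lit 3399) (nat_lit 211) .nil))))))) (.g (nat_lit 1) (.e (nat_lit 424926) (nat_lit 0) .nil) .nil)))) (.nd (nat_lit 9) 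
(.lf (nat_lit 602458) (.g (nat_lit 4497) (.e (nat_lit 647181) (nat_lit 3) (.e (nat_lit 163977) (nat_lit 30) (.e (nat_lit 573482) (nat_lit 13) (.e (nat_lit 65619) (nat_lit 10) (.e (nat_lit 344117) (nat_lit 21) (.e (nat_lit 516151) (nat_lit 9) (.e (nat_lit 426025) (nat_lit 0) (.e (nat_lit 3399) (nat_lit 211) .nil)))))))) (.g (nat_lit 1) (.e (nat_lit 424360) (nat_lit 0) .nil) .nil))) 
(.lf (nat_lit 602970) (.g (nat_lit 2463) (.e (nat_lit 647183) (nat_lit 4) (.e (nat_lit 172126) (nat_lit 14) (.e (nat_lit 491570) (nat_lit 13) (.e (nat_lit 393275) (nat_lit 23) (.e (nat_lit 426025) (nat_lit 0) (.e (nat_lit 3399) (nat_lit 211) .nil)))))) (.g (nat_lit 1) (.e (nat_lit 425259) (nat_lit 0) .nil) .nil))))) (.nd (nat_lit 8) (.nd (nat_lit 9) 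
(.lf (nat_lit 602330) (.g (nat_lit 3401) (.e (nat_lit 671782) (nat_lit 12) (.e (nat_lit 164050) (nat_lit 55) (.e (nat_lit 778464) (nat_lit 11) (.e (nat_lit 24617) (nat_lit 7) (.e (nat_lit 319534) (nat_lit 16) (.e (nat_lit 286756) (nat_lit 10) (.e (nat_lit 344168) (nat_lit 40) .nil))))))) (.g (nat_lit 1) (.e (nat_lit 423752) (nat_lit 0) .nil) .nil))) 
(.lf (nat_lit 602842) (.g (nat_lit 2106) (.e (nat_lit 647183) (nat_lit 4) (.e (nat_lit 172118) (nat_lit 12) (.e (nat_lit 475210) (nat_lit 41) (.e (nat_lit 712753) (nat_lit 30) (.e (nat_lit 458496) (nat_lit 15) .nil))))) (.g (nat_lit 1) (.e (nat_lit 425071) (nat_lit 0) .nil) .nil)))) (.nd (nat_lit 9) 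
(.lf (nat_lit 602586) (.g (nat_lit 4057) (.e (nat_lit 647181) (nat_lit 3) (.e (nat_lit 163978) (nat_lit 30) (.e (nat_lit 573485) (nat_lit 13) (.e (nat_lit 65619) (nat_lit 10) (.e (nat_lit 344117) (nat_lit 21) (.e (nat_lit 516151) (nat_lit 9) (.e (nat_lit 426023) (nat_lit 0) (.e (nat_lit 3399) (nat_lit 211) .nil)))))))) (.g (nat_lit 1) (.e (nat_lit 424522) (nat_lit 0) .nil) .nil))) 
(.lf (nat_lit 603098) (.g (nat_lit 395) (.e (nat_lit 655364) (nat_lit 0) (.e (nat_lit 3022) (nat_lit 187) (.e (nat_lit 458496) (nat_lit 15) .nil))) (.g (nat_lit 0) (.e (nat_lit 426118) (nat_lit 0) .nil) .nil))))))) (.nd (nat_lit 6) (.nd (nat_lit 7) (.nd (nat_lit 8) (.nd (nat_lit 9) 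
(.lf (nat_lit 602170) (.g (nat_lit 1539) (.e (nat_lit 671747) (nat_lit 0) (.e (nat_lit 1464) (nat_lit 108) (.e (nat_lit 336227) (nat_lit 14) (.e (nat_lit 401456) (nat_lit 13) (.e (nat_lit 483395) (nat_lit 24) .nil))))) (.g (nat_lit 0) (.e (nat_lit 423519) (nat_lit 0) .nil) .nil))) 
(.lf (nat_lit 602682) (.g (nat_lit 1187) (.e (nat_lit 647183) (nat_lit 4) (.e (nat_lit 172106) (nat_lit 10) (.e (nat_lit 434209) (nat_lit 18) (.e (nat_lit 5546) (nat_lit 306) .nil)))) (.g (nat_lit 0) (.e (nat_lit 424882) (nat_lit 0) .nil) .nil)))) (.nd (nat_lit 9) 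
(.lf (nat_lit 602426) (.g (nat_lit 2792) (.e (nat_lit 647180) (nat_lit 3) (.e (nat_lit 163979) (nat_lit 30) (.e (nat_lit 573492) (nat_lit 15) (.e (nat_lit 81956) (nat_lit 23) (.e (nat_lit 98355) (nat_lit 26) .nil))))) (.g (nat_lit 0) (.e (nat_lit 424300) (nat_lit 0) .nil) .nil))) 
(.lf (nat_lit 602938) (.g (nat_lit 2155) (.e (nat_lit 647183) (nat_lit 4) (.e (nat_lit 172125) (nat_lit 14) (.e (nat_lit 491571) (nat_lit 13) (.e (nat_lit 401152) (nat_lit 23) .nil)))) (.g (nat_lit 0) (.e (nat_lit 425217) (nat_lit 0) .nil) .nil))))) (.nd (nat_lit 8) (.nd (nat_lit 9) 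
(.lf (nat_lit 602298) (.g (nat_lit 1744) (.e (nat_lit 671763) (nat_lit 5) (.e (nat_lit 73782) (nat_lit 32) (.e (nat_lit 2855) (nat_lit 184) (.e (nat_lit 426542) (nat_lit 29) (.e (nat_lit 352297) (nat_lit 20) (.e (nat_lit 2003) (nat_lit 138) .nil)))))) (.g (nat_lit 1) (.e (nat_lit 423672) (nat_lit 0) .nil) .nil))) 
(.lf (nat_lit 602810) (.g (nat_lit 1350) (.e (nat_lit 647183) (nat_lit 4) (.e (nat_lit 172116) (nat_lit 10) (.e (nat_lit 434271) (nat_lit 38) (.e (nat_lit 655363) (nat_lit 0) (.e (nat_lit 3027) (nat_lit 187) (.e (nat_lit 458496) (nat_lit 15) .nil)))))) (.g (nat_lit 1) (.e (nat_lit 425036) (nat_lit 0) .nil) .nil)))) (.nd (nat_lit 9) 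
(.lf (nat_lit 602554) (.g (nat_lit 4375) (.e (nat_lit 647181) (nat_lit 3) (.e (nat_lit 163978) (nat_lit 30) (.e (nat_lit 573479) (nat_lit 13) (.e (nat_lit 65619) (nat_lit 10) (.e (nat_lit 344117) (nat_lit 21) (.e (nat_lit 516151) (nat_lit 9) (.e (nat_lit 426022) (nat_lit 0) (.e (nat_lit 3402) (nat_lit 211) .nil)))))))) (.g (nat_lit 1) (.e (nat_lit 424490) (nat_lit 0) .nil) .nil))) 
(.lf (nat_lit 603066) (.g (nat_lit 2437) (.e (nat_lit 647185) (nat_lit 6) (.e (nat_lit 188455) (nat_lit 24) (.e (nat_lit 229664) (nat_lit 240) (.e (nat_lit 2651) (nat_lit 166) (.e (nat_lit 188431) (nat_lit 20) (.e (nat_lit 3399) (nat_lit 211) .nil)))))) (.g (nat_lit 1) (.e (nat_lit 425723) (nat_lit 0) .nil) .nil)))))) (.nd (nat_lit 7) (.nd (nat_lit 8) (.nd (nat_lit 9) 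
(.lf (nat_lit 602234) (.g (nat_lit 2594) (.e (nat_lit 671761) (nat_lit 4) (.e (nat_lit 65630) (nat_lit 14) (.e (nat_lit 401435) (nat_lit 9) (.e (nat_lit 426555) (nat_lit 32) (.e (nat_lit 376848) (nat_lit 20) .nil))))) (.g (nat_lit 0) (.e (nat_lit 423602) (nat_lit 0) .nil) .nil))) 
(.lf (nat_lit 602746) (.g (nat_lit 1822) (.e (nat_lit 647183) (nat_lit 4) (.e (nat_lit 172113) (nat_lit 10) (.e (nat_lit 434271) (nat_lit 38) (.e (nat_lit 655363) (nat_lit 0) (.e (nat_lit 3027) (nat_lit 187) (.e (nat_lit 458496) (nat_lit 15) .nil)))))) (.g (nat_lit 1) (.e (nat_lit 424961) (nat_lit 0) .nil) .nil)))) (.nd (nat_lit 9) 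
(.lf (nat_lit 602490) (.g (nat_lit 2192) (.e (nat_lit 647181) (nat_lit 3) (.e (nat_lit 163977) (nat_lit 30) (.e (nat_lit 573491) (nat_lit 15) (.e (nat_lit 81954) (nat_lit 23) (.e (nat_lit 98359) (nat_lit 26) (.e (nat_lit 426003) (nat_lit 0) (.e (nat_lit 3402) (nat_lit 211) .nil))))))) (.g (nat_lit 1) (.e (nat_lit 424393) (nat_lit 0) .nil) .nil))) 
(.lf (nat_lit 603002) (.g (nat_lit 1925) (.e (nat_lit 647185) (nat_lit 6) (.e (nat_lit 188418) (nat_lit 0) (.e (nat_lit 2058) (nat_lit 142) (.e (nat_lit 704598) (nat_lit 6) (.e (nat_lit 188431) (nat_lit 20) (.e (nat_lit 3402) (nat_lit 211) .nil)))))) (.g (nat_lit 1) (.e (nat_lit 425526) (nat_lit 0) .nil) .nil))))) (.nd (nat_lit 8) (.nd (nat_lit 9) 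
(.lf (nat_lit 602362) (.g (nat_lit 3512) (.e (nat_lit 647170) (nat_lit 0) (.e (nat_lit 3098) (nat_lit 192) (.e (nat_lit 491566) (nat_lit 12) (.e (nat_lit 385104) (nat_lit 50) (.e (nat_lit 786483) (nat_lit 30) (.e (nat_lit 368384) (nat_lit 15) .nil)))))) (.g (nat_lit 1) (.e (nat_lit 424003) (nat_lit 0) .nil) .nil))) 
(.lf (nat_lit 602874) (.g (nat_lit 1607) (.e (nat_lit 647183) (nat_lit 4) (.e (nat_lit 172120) (nat_lit 12) (.e (nat_lit 475210) (nat_lit 41) (.e (nat_lit 712754) (nat_lit 30) (.e (nat_lit 458496) (nat_lit 15) .nil))))) (.g (nat_lit 1) (.e (nat_lit 425113) (nat_lit 0) .nil) .nil)))) (.nd (nat_lit 9) 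
(.lf (nat_lit 602618) (.g (nat_lit 1554) (.e (nat_lit 647181) (nat_lit 3) (.e (nat_lit 163979) (nat_lit 30) (.e (nat_lit 573491) (nat_lit 15) (.e (nat_lit 81954) (nat_lit 23) .nil)))) (.g (nat_lit 0) (.e (nat_lit 424559) (nat_lit 0) .nil) .nil))) 
(.lf (nat_lit 603130) (.g (nat_lit 4154) (.e (nat_lit 655373) (nat_lit 3) (.e (nat_lit 163978) (nat_lit 30) (.e (nat_lit 573485) (nat_lit 13) (.e (nat_lit 65604) (nat_lit 9) (.e (nat_lit 336013) (nat_lit 2) (.e (nat_lit 90170) (nat_lit 13) (.e (nat_lit 172046) (nat_lit 0) (.e (nat_lit 3406) (nat_lit 212) .nil)))))))) (.g (nat_lit 1) (.e (nat_lit 426234) (nat_lit 0) .nil) .nil)))))))))) 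
(.nd (nat_lit 3) (.nd (nat_lit 4) (.nd (nat_lit 5) (.nd (nat_lit 6) (.nd (nat_lit 7) 
(.nd (nat_lit 8) (.nd (nat_lit 9) 
(.lf (nat_lit 602118) (.g (nat_lit 580) (.e (nat_lit 663583) (nat_lit 11) (.e (nat_lit 24617) (nat_lit 7) (.e (nat_lit 319532) (nat_lit 16) .nil))) (.g (nat_lit 0) (.e (nat_lit 423185) (nat_lit 0) .nil) .nil))) 
(.lf (nat_lit 602630) (.g (nat_lit 3567) (.e (nat_lit 647181) (nat_lit 3) (.e (nat_lit 163979) (nat_lit 30) (.e (nat_lit 573492) (nat_lit 15) (.e (nat_lit 81956) (nat_lit 23) (.e (nat_lit 106240) (nat_lit 26) (.e (nat_lit 426024) (nat_lit 0) (.e (nat_lit 3399) (nat_lit 211) .nil))))))) (.g (nat_lit 1) (.e (nat_lit 424577) (nat_lit 0) .nil) .nil)))) (.nd (nat_lit 9) 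
(.lf (nat_lit 602374) (.g (nat_lit 2124) (.e (nat_lit 647176) (nat_lit 0) (.e (nat_lit 2681) (nat_lit 168) (.e (nat_lit 204863) (nat_lit 27) (.e (nat_lit 344132) (nat_lit 26) (.e (nat_lit 557103) (nat_lit 14) .nil))))) (.g (nat_lit 0) (.e (nat_lit 424111) (nat_lit 0) .nil) .nil))) 
(.lf (nat_lit 602886) (.g (nat_lit 1662) (.e (nat_lit 647183) (nat_lit 4) (.e (nat_lit 172124) (nat_lit 14) (.e (nat_lit 491548) (nat_lit 9) (.e (nat_lit 336430) (nat_lit 29) (.e (nat_lit 442392) (nat_lit 20) (.e (nat_lit 3397) (nat_lit 211) .nil)))))) (.g (nat_lit 1) (.e (nat_lit 425127) (nat_lit 0) .nil) .nil))))) (.nd (nat_lit 8) (.nd (nat_lit 9) 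
(.lf (nat_lit 602246) (.g (nat_lit 1589) (.e (nat_lit 671762) (nat_lit 4) (.e (nat_lit 65624) (nat_lit 12) (.e (nat_lit 385090) (nat_lit 49) (.e (nat_lit 778327) (nat_lit 6) .nil)))) (.g (nat_lit 0) (.e (nat_lit 423620) (nat_lit 0) .nil) .nil))) 
(.lf (nat_lit 602758) (.g (nat_lit 2877) (.e (nat_lit 647183) (nat_lit 4) (.e (nat_lit 172113) (nat_lit 10) (.e (nat_lit 434272) (nat_lit 38) (.e (nat_lit 655364) (nat_lit 0) (.e (nat_lit 3016) (nat_lit 187) (.e (nat_lit 458496) (nat_lit 15) .nil)))))) (.g (nat_lit 1) (.e (nat_lit 424973) (nat_lit 0) .nil) .nil)))) (.nd (nat_lit 9) 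
(.lf (nat_lit 602502) (.g (nat_lit 4687) (.e (nat_lit 647181) (nat_lit 3) (.e (nat_lit 163977) (nat_lit 30) (.e (nat_lit 573492) (nat_lit 15) (.e (nat_lit 81956) (nat_lit 23) (.e (nat_lit 98362) (nat_lit 26) .nil))))) (.g (nat_lit 0) (.e (nat_lit 424409) (nat_lit 0) .nil) .nil))) 
(.lf (nat_lit 603014) (.g (nat_lit 2420) (.e (nat_lit 647185) (nat_lit 6) (.e (nat_lit 188431) (nat_lit 20) (.e (nat_lit 3401) (nat_lit 211) (.e (nat_lit 647183) (nat_lit 4) (.e (nat_lit 172094) (nat_lit 9) (.e (nat_lit 426025) (nat_lit 0) (.e (nat_lit 3397) (nat_lit 211) .nil))))))) (.g (nat_lit 1) (.e (nat_lit 425558) (nat_lit 0) .nil) .nil)))))) 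
(.nd (nat_lit 7) (.nd (nat_lit 8) (.nd (nat_lit 9) 
(.lf (nat_lit 602182) (.g (nat_lit 1910) (.e (nat_lit 671757) (nat_lit 3) (.e (nat_lit 57478) (nat_lit 28) (.e (nat_lit 557107) (nat_lit 15) (.e (nat_lit 188450) (nat_lit 23) (.e (nat_lit 204863) (nat_lit 27) .nil))))) (.g (nat_lit 0) (.e (nat_lit 423539) (nat_lit 0) .nil) .nil))) 
(.lf (nat_lit 602694) (.g (nat_lit 3070) (.e (nat_lit 647183) (nat_lit 4) (.e (nat_lit 172106) (nat_lit 10) (.e (nat_lit 434209) (nat_lit 18) (.e (nat_lit 5548) (nat_lit 306) (.e (nat_lit 2650) (nat_lit 166) (.e (nat_lit 188428) (nat_lit 20) (.e (nat_lit 3402) (nat_lit 211) .nil))))))) (.g (nat_lit 1) (.e (nat_lit 424906) (nat_lit 0) .nil) .nil)))) (.nd (nat_lit 9) 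
(.lf (nat_lit 602438) (.g (nat_lit 3498) (.e (nat_lit 647180) (nat_lit 3) (.e (nat_lit 163979) (nat_lit 30) (.e (nat_lit 573493) (nat_lit 15) (.e (nat_lit 81956) (nat_lit 23) (.e (nat_lit 98359) (nat_lit 26) (.e (nat_lit 426023) (nat_lit 0) (.e (nat_lit 3397) (nat_lit 211) .nil))))))) (.g (nat_lit 1) (.e (nat_lit 424323) (nat_lit 0) .nil) .nil))) 
(.lf (nat_lit 602950) (.g (nat_lit 2988) (.e (nat_lit 647183) (nat_lit 4) (.e (nat_lit 172126) (nat_lit 14) (.e (nat_lit 491549) (nat_lit 9) (.e (nat_lit 336395) (nat_lit 27) (.e (nat_lit 426212) (nat_lit 9) (.e (nat_lit 426025) (nat_lit 0) (.e (nat_lit 3397) (nat_lit 211) .nil))))))) (.g (nat_lit 1) (.e (nat_lit 425232) (nat_lit 0) .nil) .nil))))) (.nd (nat_lit 8) (.nd (nat_lit 9) 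
(.lf (nat_lit 602310) (.g (nat_lit 2009) (.e (nat_lit 671764) (nat_lit 6) (.e (nat_lit 81931) (nat_lit 20) (.e (nat_lit 1999) (nat_lit 137) (.e (nat_lit 663567) (nat_lit 4) (.e (nat_lit 65620) (nat_lit 10) (.e (nat_lit 344169) (nat_lit 40) .nil)))))) (.g (nat_lit 1) (.e (nat_lit 423686) (nat_lit 0) .nil) .nil))) 
(.lf (nat_lit 602822) (.g (nat_lit 2053) (.e (nat_lit 647183) (nat_lit 4) (.e (nat_lit 172116) (nat_lit 10) (.e (nat_lit 434272) (nat_lit 38) (.e (nat_lit 655364) (nat_lit 0) (.e (nat_lit 3028) (nat_lit 187) (.e (nat_lit 458496) (nat_lit 15) .nil)))))) (.g (nat_lit 1) (.e (nat_lit 425050) (nat_lit 0) .nil) .nil)))) (.nd (nat_lit 9) 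
(.lf (nat_lit 602566) (.g (nat_lit 4678) (.e (nat_lit 647181) (nat_lit 3) (.e (nat_lit 163978) (nat_lit 30) (.e (nat_lit 573485) (nat_lit 13) (.e (nat_lit 65604) (nat_lit 9) (.e (nat_lit 336013) (nat_lit 2) (.e (nat_lit 90170) (nat_lit 13) (.e (nat_lit 172032) (nat_lit 0) (.e (nat_lit 3397) (nat_lit 211) .nil)))))))) (.g (nat_lit 1) (.e (nat_lit 424502) (nat_lit 0) .nil) .nil))) 
(.lf (nat_lit 603078) (.g (nat_lit 2275) (.e (nat_lit 647201) (nat_lit 12) (.e (nat_lit 57574) (nat_lit 55) (.e (nat_lit 778466) (nat_lit 11) (.e (nat_lit 24616) (nat_lit 7) .nil)))) (.g (nat_lit 0) (.e (nat_lit 425843) (nat_lit 0) .nil) .nil))))))) (.nd (nat_lit 6) (.nd (nat_lit 7) (.nd (nat_lit 8) (.nd (nat_lit 9) 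
(.lf (nat_lit 602150) (.g (nat_lit 1945) (.e (nat_lit 663589) (nat_lit 14) (.e (nat_lit 2797) (nat_lit 180) (.e (nat_lit 303143) (nat_lit 12) (.e (nat_lit 475207) (nat_lit 41) (.e (nat_lit 712755) (nat_lit 30) .nil))))) (.g (nat_lit 0) (.e (nat_lit 423418) (nat_lit 0) .nil) .nil))) 
(.lf (nat_lit 602662) (.g (nat_lit 476) (.e (nat_lit 647183) (nat_lit 4) (.e (nat_lit 172082) (nat_lit 7) (.e (nat_lit 409618) (nat_lit 10) .nil))) (.g (nat_lit 0) (.e (nat_lit 424818) (nat_lit 0) .nil) .nil)))) (.nd (nat_lit 9) 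
(.lf (nat_lit 602406) (.g (nat_lit 4168) (.e (nat_lit 647180) (nat_lit 3) (.e (nat_lit 163978) (nat_lit 30) (.e (nat_lit 573485) (nat_lit 13) (.e (nat_lit 65604) (nat_lit 9) (.e (nat_lit 336028) (nat_lit 3) (.e (nat_lit 98359) (nat_lit 26) (.e (nat_lit 426025) (nat_lit 0) (.e (nat_lit 3397) (nat_lit 211) .nil)))))))) (.g (nat_lit 1) (.e (nat_lit 424270) (nat_lit 0) .nil) .nil))) 
(.lf (nat_lit 602918) (.g (nat_lit 2075) (.e (nat_lit 647183) (nat_lit 4) (.e (nat_lit 172124) (nat_lit 14) (.e (nat_lit 491570) (nat_lit 13) (.e (nat_lit 393284) (nat_lit 24) (.e (nat_lit 442112) (nat_lit 37) .nil))))) (.g (nat_lit 1) (.e (nat_lit 425170) (nat_lit 0) .nil) .nil))))) (.nd (nat_lit 8) (.nd (nat_lit 9) 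
(.lf (nat_lit 602278) (.g (nat_lit 1635) (.e (nat_lit 671762) (nat_lit 4) (.e (nat_lit 65630) (nat_lit 14) (.e (nat_lit 401456) (nat_lit 13) (.e (nat_lit 483386) (nat_lit 23) .nil)))) (.g (nat_lit 0) (.e (nat_lit 423652) (nat_lit 0) .nil) .nil))) 
(.lf (nat_lit 602790) (.g (nat_lit 2156) (.e (nat_lit 647183) (nat_lit 4) (.e (nat_lit 172115) (nat_lit 10) (.e (nat_lit 434271) (nat_lit 38) (.e (nat_lit 655363) (nat_lit 0) (.e (nat_lit 3015) (nat_lit 187) (.e (nat_lit 458496) (nat_lit 15) .nil)))))) (.g (nat_lit 1) (.e (nat_lit 425016) (nat_lit 0) .nil) .nil)))) (.nd (nat_lit 9) 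
(.lf (nat_lit 602534) (.g (nat_lit 3468) (.e (nat_lit 647181) (nat_lit 3) (.e (nat_lit 163977) (nat_lit 30) (.e (nat_lit 573493) (nat_lit 15) (.e (nat_lit 81956) (nat_lit 23) (.e (nat_lit 98359) (nat_lit 26) (.e (nat_lit 426022) (nat_lit 0) (.e (nat_lit 3401) (nat_lit 211) .nil))))))) (.g (nat_lit 1) (.e (nat_lit 424455) (nat_lit 0) .nil) .nil))) 
(.lf (nat_lit 603046) (.g (nat_lit 2028) (.e (nat_lit 647185) (nat_lit 6) (.e (nat_lit 188446) (nat_lit 21) (.e (nat_lit 164347) (nat_lit 240) (.e (nat_lit 2619) (nat_lit 164) (.e (nat_lit 172097) (nat_lit 9) (.e (nat_lit 426025) (nat_lit 0) (.e (nat_lit 3399) (nat_lit 211) .nil))))))) (.g (nat_lit 1) (.e (nat_lit 425677) (nat_lit 0) .nil) .nil)))))) 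
(.nd (nat_lit 7) (.nd (nat_lit 8) (.nd (nat_lit 9) 
(.lf (nat_lit 602214) (.g (nat_lit 671) (.e (nat_lit 671760) (nat_lit 4) (.e (nat_lit 65628) (nat_lit 14) (.e (nat_lit 401458) (nat_lit 13) .nil))) (.g (nat_lit 0) (.e (nat_lit 423582) (nat_lit 0) .nil) .nil))) 
(.lf (nat_lit 602726) (.g (nat_lit 2279) (.e (nat_lit 647183) (nat_lit 4) (.e (nat_lit 172107) (nat_lit 10) (.e (nat_lit 434272) (nat_lit 38) (.e (nat_lit 655364) (nat_lit 0) (.e (nat_lit 3027) (nat_lit 187) (.e (nat_lit 458496) (nat_lit 15) .nil)))))) (.g (nat_lit 1) (.e (nat_lit 424938) (nat_lit 0) .nil) .nil)))) (.nd (nat_lit 9) 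
(.lf (nat_lit 602470) (.g (nat_lit 4307) (.e (nat_lit 647181) (nat_lit 3) (.e (nat_lit 163977) (nat_lit 30) (.e (nat_lit 573485) (nat_lit 13) (.e (nat_lit 65604) (nat_lit 9) (.e (nat_lit 336013) (nat_lit 2) (.e (nat_lit 90170) (nat_lit 13) (.e (nat_lit 172035) (nat_lit 0) (.e (nat_lit 3402) (nat_lit 211) .nil)))))))) (.g (nat_lit 1) (.e (nat_lit 424372) (nat_lit 0) .nil) .nil))) 
(.lf (nat_lit 602982) (.g (nat_lit 2617) (.e (nat_lit 647183) (nat_lit 4) (.e (nat_lit 172126) (nat_lit 14) (.e (nat_lit 491571) (nat_lit 13) (.e (nat_lit 393274) (nat_lit 23) (.e (nat_lit 426022) (nat_lit 0) (.e (nat_lit 3399) (nat_lit 211) .nil)))))) (.g (nat_lit 1) (.e (nat_lit 425299) (nat_lit 0) .nil) .nil))))) (.nd (nat_lit 8) (.nd (nat_lit 9) 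
(.lf (nat_lit 602342) (.g (nat_lit 3190) (.e (nat_lit 647170) (nat_lit 0) (.e (nat_lit 3097) (nat_lit 192) (.e (nat_lit 491566) (nat_lit 12) (.e (nat_lit 385105) (nat_lit 50) (.e (nat_lit 786483) (nat_lit 30) (.e (nat_lit 368384) (nat_lit 15) .nil)))))) (.g (nat_lit 1) (.e (nat_lit 423947) (nat_lit 0) .nil) .nil))) 
(.lf (nat_lit 602854) (.g (nat_lit 912) (.e (nat_lit 647183) (nat_lit 4) (.e (nat_lit 172119) (nat_lit 12) (.e (nat_lit 475199) (nat_lit 40) (.e (nat_lit 704599) (nat_lit 6) .nil)))) (.g (nat_lit 0) (.e (nat_lit 425085) (nat_lit 0) .nil) .nil)))) (.nd (nat_lit 9) 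
(.lf (nat_lit 602598) (.g (nat_lit 2822) (.e (nat_lit 647181) (nat_lit 3) (.e (nat_lit 163979) (nat_lit 30) (.e (nat_lit 573482) (nat_lit 13) (.e (nat_lit 65604) (nat_lit 9) (.e (nat_lit 336013) (nat_lit 2) (.e (nat_lit 90170) (nat_lit 13) (.e (nat_lit 172049) (nat_lit 0) (.e (nat_lit 7936) (nat_lit 211) .nil)))))))) (.g (nat_lit 1) (.e (nat_lit 424537) (nat_lit 0) .nil) .nil))) 
(.lf (nat_lit 603110) (.g (nat_lit 3883) (.e (nat_lit 655373) (nat_lit 3) (.e (nat_lit 163975) (nat_lit 30) (.e (nat_lit 573481) (nat_lit 13) (.e (nat_lit 65604) (nat_lit 9) (.e (nat_lit 336013) (nat_lit 2) (.e (nat_lit 90170) (nat_lit 13) (.e (nat_lit 172049) (nat_lit 0) (.e (nat_lit 3406) (nat_lit 212) .nil)))))))) (.g (nat_lit 1) (.e (nat_lit 426190) (nat_lit 0) .nil) .nil)))))))) 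
(.nd (nat_lit 5) (.nd (nat_lit 6) (.nd (nat_lit 7) (.nd (nat_lit 8) (.nd (nat_lit 9) 
(.lf (nat_lit 602134) (.g (nat_lit 1460) (.e (nat_lit 663584) (nat_lit 12) (.e (nat_lit 163979) (nat_lit 30) (.e (nat_lit 573469) (nat_lit 11) (.e (nat_lit 16465) (nat_lit 13) .nil)))) (.g (nat_lit 0) (.e (nat_lit 423335) (nat_lit 0) .nil) .nil))) 
(.lf (nat_lit 602646) (.g (nat_lit 3581) (.e (nat_lit 647181) (nat_lit 3) (.e (nat_lit 163979) (nat_lit 30) (.e (nat_lit 573493) (nat_lit 15) (.e (nat_lit 81956) (nat_lit 23) (.e (nat_lit 98359) (nat_lit 26) (.e (nat_lit 426003) (nat_lit 0) (.e (nat_lit 3399) (nat_lit 211) .nil))))))) (.g (nat_lit 1) (.e (nat_lit 424597) (nat_lit 0) .nil) .nil)))) (.nd (nat_lit 9) 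
(.lf (nat_lit 602390) (.g (nat_lit 4126) (.e (nat_lit 647180) (nat_lit 3) (.e (nat_lit 163976) (nat_lit 30) (.e (nat_lit 573481) (nat_lit 13) (.e (nat_lit 65619) (nat_lit 10) (.e (nat_lit 344117) (nat_lit 21) (.e (nat_lit 516151) (nat_lit 9) (.e (nat_lit 426022) (nat_lit 0) (.e (nat_lit 3397) (nat_lit 211) .nil)))))))) (.g (nat_lit 1) (.e (nat_lit 424245) (nat_lit 0) .nil) .nil))) 
(.lf (nat_lit 602902) (.g (nat_lit 1549) (.e (nat_lit 647183) (nat_lit 4) (.e (nat_lit 172124) (nat_lit 14) (.e (nat_lit 491549) (nat_lit 9) (.e (nat_lit 336433) (nat_lit 30) .nil)))) (.g (nat_lit 0) (.e (nat_lit 425147) (nat_lit 0) .nil) .nil))))) (.nd (nat_lit 8) (.nd (nat_lit 9) 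
(.lf (nat_lit 602262) (.g (nat_lit 3411) (.e (nat_lit 671762) (nat_lit 4) (.e (nat_lit 65630) (nat_lit 14) (.e (nat_lit 401437) (nat_lit 9) (.e (nat_lit 426482) (nat_lit 27) (.e (nat_lit 336179) (nat_lit 10) .nil))))) (.g (nat_lit 0) (.e (nat_lit 423636) (nat_lit 0) .nil) .nil))) 
(.lf (nat_lit 602774) (.g (nat_lit 2900) (.e (nat_lit 647183) (nat_lit 4) (.e (nat_lit 172115) (nat_lit 10) (.e (nat_lit 434209) (nat_lit 18) (.e (nat_lit 5546) (nat_lit 306) (.e (nat_lit 2648) (nat_lit 166) (.e (nat_lit 188431) (nat_lit 20) (.e (nat_lit 3402) (nat_lit 211) .nil))))))) (.g (nat_lit 1) (.e (nat_lit 424993) (nat_lit 0) .nil) .nil)))) (.nd (nat_lit 9) 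
(.lf (nat_lit 602518) (.g (nat_lit 3451) (.e (nat_lit 647181) (nat_lit 3) (.e (nat_lit 163977) (nat_lit 30) (.e (nat_lit 573493) (nat_lit 15) (.e (nat_lit 81954) (nat_lit 23) (.e (nat_lit 98359) (nat_lit 26) .nil))))) (.g (nat_lit 0) (.e (nat_lit 424437) (nat_lit 0) .nil) .nil))) 
(.lf (nat_lit 603030) (.g (nat_lit 1932) (.e (nat_lit 647185) (nat_lit 6) (.e (nat_lit 188441) (nat_lit 20) (.e (nat_lit 3406) (nat_lit 212) (.e (nat_lit 655378) (nat_lit 4) (.e (nat_lit 172094) (nat_lit 9) (.e (nat_lit 426025) (nat_lit 0) (.e (nat_lit 3397) (nat_lit 211) .nil))))))) (.g (nat_lit 1) (.e (nat_lit 425617) (nat_lit 0) .nil) .nil)))))) 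
(.nd (nat_lit 7) (.nd (nat_lit 8) (.nd (nat_lit 9) 
(.lf (nat_lit 602198) (.g (nat_lit 3565) (.e (nat_lit 671759) (nat_lit 3) (.e (nat_lit 57478) (nat_lit 28) (.e (nat_lit 557109) (nat_lit 15) (.e (nat_lit 188450) (nat_lit 23) (.e (nat_lit 204855) (nat_lit 26) .nil))))) (.g (nat_lit 0) (.e (nat_lit 423559) (nat_lit 0) .nil) .nil))) 
(.lf (nat_lit 602710) (.g (nat_lit 2336) (.e (nat_lit 647183) (nat_lit 4) (.e (nat_lit 172106) (nat_lit 10) (.e (nat_lit 434272) (nat_lit 38) (.e (nat_lit 655364) (nat_lit 0) (.e (nat_lit 3028) (nat_lit 187) (.e (nat_lit 458496) (nat_lit 15) .nil)))))) (.g (nat_lit 1) (.e (nat_lit 424922) (nat_lit 0) .nil) .nil)))) (.nd (nat_lit 9) 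
(.lf (nat_lit 602454) (.g (nat_lit 2225) (.e (nat_lit 647181) (nat_lit 3) (.e (nat_lit 163977) (nat_lit 30) (.e (nat_lit 573482) (nat_lit 13) (.e (nat_lit 65604) (nat_lit 9) (.e (nat_lit 336028) (nat_lit 3) (.e (nat_lit 106240) (nat_lit 26) (.e (nat_lit 426025) (nat_lit 0) (.e (nat_lit 3397) (nat_lit 211) .nil)))))))) (.g (nat_lit 1) (.e (nat_lit 424356) (nat_lit 0) .nil) .nil))) 
(.lf (nat_lit 602966) (.g (nat_lit 909) (.e (nat_lit 647183) (nat_lit 4) (.e (nat_lit 172126) (nat_lit 14) (.e (nat_lit 491566) (nat_lit 12) .nil))) (.g (nat_lit 0) (.e (nat_lit 425252) (nat_lit 0) .nil) .nil))))) (.nd (nat_lit 8) (.nd (nat_lit 9) 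
(.lf (nat_lit 602326) (.g (nat_lit 2180) (.e (nat_lit 671779) (nat_lit 11) (.e (nat_lit 24640) (nat_lit 10) (.e (nat_lit 344156) (nat_lit 36) (.e (nat_lit 638985) (nat_lit 5) (.e (nat_lit 3016) (nat_lit 187) .nil))))) (.g (nat_lit 0) (.e (nat_lit 423732) (nat_lit 0) .nil) .nil))) 
(.lf (nat_lit 602838) (.g (nat_lit 1333) (.e (nat_lit 647183) (nat_lit 4) (.e (nat_lit 172118) (nat_lit 12) (.e (nat_lit 475210) (nat_lit 41) (.e (nat_lit 712739) (nat_lit 27) .nil)))) (.g (nat_lit 0) (.e (nat_lit 425066) (nat_lit 0) .nil) .nil)))) (.nd (nat_lit 9) 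
(.lf (nat_lit 602582) (.g (nat_lit 4252) (.e (nat_lit 647181) (nat_lit 3) (.e (nat_lit 163978) (nat_lit 30) (.e (nat_lit 573485) (nat_lit 13) (.e (nat_lit 65619) (nat_lit 10) (.e (nat_lit 344117) (nat_lit 21) (.e (nat_lit 516151) (nat_lit 9) (.e (nat_lit 426003) (nat_lit 0) (.e (nat_lit 3399) (nat_lit 211) .nil)))))))) (.g (nat_lit 1) (.e (nat_lit 424518) (nat_lit 0) .nil) .nil))) 
(.lf (nat_lit 603094) (.g (nat_lit 3109) (.e (nat_lit 655364) (nat_lit 0) (.e (nat_lit 3004) (nat_lit 186) (.e (nat_lit 442374) (nat_lit 0) (.e (nat_lit 2059) (nat_lit 142) (.e (nat_lit 704599) (nat_lit 6) (.e (nat_lit 188440) (nat_lit 20) (.e (nat_lit 3408) (nat_lit 212) .nil))))))) (.g (nat_lit 1) (.e (nat_lit 426043) (nat_lit 0) .nil) .nil))))))) 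
(.nd (nat_lit 6) (.nd (nat_lit 7) (.nd (nat_lit 8) (.nd (nat_lit 9) 
(.lf (nat_lit 602166) (.g (nat_lit 1090) (.e (nat_lit 671488) (nat_lit 17) (.e (nat_lit 164366) (nat_lit 246) (.e (nat_lit 3067) (nat_lit 190) (.e (nat_lit 475207) (nat_lit 41) .nil)))) (.g (nat_lit 0) (.e (nat_lit 423515) (nat_lit 0) .nil) .nil))) 
(.lf (nat_lit 602678) (.g (nat_lit 1837) (.e (nat_lit 647183) (nat_lit 4) (.e (nat_lit 172097) (nat_lit 9) (.e (nat_lit 426025) (nat_lit 0) (.e (nat_lit 3397) (nat_lit 211) (.e (nat_lit 647185) (nat_lit 6) (.e (nat_lit 188431) (nat_lit 20) (.e (nat_lit 3402) (nat_lit 211) .nil))))))) (.g (nat_lit 1) (.e (nat_lit 424865) (nat_lit 0) .nil) .nil)))) (.nd (nat_lit 9) 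
(.lf (nat_lit 602422) (.g (nat_lit 1192) (.e (nat_lit 647180) (nat_lit 3) (.e (nat_lit 163979) (nat_lit 30) (.e (nat_lit 573491) (nat_lit 15) (.e (nat_lit 81954) (nat_lit 23) .nil)))) (.g (nat_lit 0) (.e (nat_lit 424291) (nat_lit 0) .nil) .nil))) 
(.lf (nat_lit 602934) (.g (nat_lit 2780) (.e (nat_lit 647183) (nat_lit 4) (.e (nat_lit 172125) (nat_lit 14) (.e (nat_lit 491571) (nat_lit 13) (.e (nat_lit 393275) (nat_lit 23) (.e (nat_lit 426025) (nat_lit 0) .nil))))) (.g (nat_lit 0) (.e (nat_lit 425212) (nat_lit 0) .nil) .nil))))) (.nd (nat_lit 8) (.nd (nat_lit 9) 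
(.lf (nat_lit 602294) (.g (nat_lit 1185) (.e (nat_lit 671763) (nat_lit 5) (.e (nat_lit 73781) (nat_lit 32) (.e (nat_lit 3090) (nat_lit 191) (.e (nat_lit 483395) (nat_lit 24) .nil)))) (.g (nat_lit 0) (.e (nat_lit 423668) (nat_lit 0) .nil) .nil))) 
(.lf (nat_lit 602806) (.g (nat_lit 2255) (.e (nat_lit 647183) (nat_lit 4) (.e (nat_lit 172115) (nat_lit 10) (.e (nat_lit 434272) (nat_lit 38) (.e (nat_lit 655378) (nat_lit 4) (.e (nat_lit 172097) (nat_lit 9) (.e (nat_lit 426025) (nat_lit 0) (.e (nat_lit 3399) (nat_lit 211) .nil))))))) (.g (nat_lit 1) (.e (nat_lit 425032) (nat_lit 0) .nil) .nil)))) (.nd (nat_lit 9) 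
(.lf (nat_lit 602550) (.g (nat_lit 4330) (.e (nat_lit 647181) (nat_lit 3) (.e (nat_lit 163978) (nat_lit 30) (.e (nat_lit 573479) (nat_lit 13) (.e (nat_lit 65619) (nat_lit 10) (.e (nat_lit 344117) (nat_lit 21) (.e (nat_lit 516151) (nat_lit 9) (.e (nat_lit 426003) (nat_lit 0) (.e (nat_lit 3397) (nat_lit 211) .nil)))))))) (.g (nat_lit 1) (.e (nat_lit 424486) (nat_lit 0) .nil) .nil))) 
(.lf (nat_lit 603062) (.g (nat_lit 1868) (.e (nat_lit 647185) (nat_lit 6) (.e (nat_lit 188455) (nat_lit 24) (.e (nat_lit 229663) (nat_lit 240) (.e (nat_lit 2630) (nat_lit 164) .nil)))) (.g (nat_lit 0) (.e (nat_lit 425716) (nat_lit 0) .nil) .nil)))))) (.nd (nat_lit 7) (.nd (nat_lit 8) (.nd (nat_lit 9) 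
(.lf (nat_lit 602230) (.g (nat_lit 1480) (.e (nat_lit 671761) (nat_lit 4) (.e (nat_lit 65628) (nat_lit 14) (.e (nat_lit 401457) (nat_lit 13) (.e (nat_lit 483394) (nat_lit 24) .nil)))) (.g (nat_lit 0) (.e (nat_lit 423598) (nat_lit 0) .nil) .nil))) 
(.lf (nat_lit 602742) (.g (nat_lit 2010) (.e (nat_lit 647183) (nat_lit 4) (.e (nat_lit 172112) (nat_lit 10) (.e (nat_lit 434272) (nat_lit 38) (.e (nat_lit 655364) (nat_lit 0) (.e (nat_lit 3028) (nat_lit 187) (.e (nat_lit 458496) (nat_lit 15) .nil)))))) (.g (nat_lit 1) (.e (nat_lit 424955) (nat_lit 0) .nil) .nil)))) (.nd (nat_lit 9) 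
(.lf (nat_lit 602486) (.g (nat_lit 3390) (.e (nat_lit 647181) (nat_lit 3) (.e (nat_lit 163977) (nat_lit 30) (.e (nat_lit 573491) (nat_lit 15) (.e (nat_lit 81951) (nat_lit 22) (.e (nat_lit 90170) (nat_lit 13) (.e (nat_lit 172033) (nat_lit 0) (.e (nat_lit 3399) (nat_lit 211) .nil))))))) (.g (nat_lit 1) (.e (nat_lit 424388) (nat_lit 0) .nil) .nil))) 
(.lf (nat_lit 602998) (.g (nat_lit 2501) (.e (nat_lit 647184) (nat_lit 5) (.e (nat_lit 180271) (nat_lit 26) (.e (nat_lit 704629) (nat_lit 9) (.e (nat_lit 442) (nat_lit 33) (.e (nat_lit 434248) (nat_lit 28) .nil))))) (.g (nat_lit 0) (.e (nat_lit 425341) (nat_lit 0) .nil) .nil))))) (.nd (nat_lit 8) (.nd (nat_lit 9) 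
(.lf (nat_lit 602358) (.g (nat_lit 2280) (.e (nat_lit 647170) (nat_lit 0) (.e (nat_lit 3098) (nat_lit 192) (.e (nat_lit 491566) (nat_lit 12) (.e (nat_lit 385104) (nat_lit 50) (.e (nat_lit 786471) (nat_lit 27) .nil))))) (.g (nat_lit 0) (.e (nat_lit 423993) (nat_lit 0) .nil) .nil))) 
(.lf (nat_lit 602870) (.g (nat_lit 1615) (.e (nat_lit 647183) (nat_lit 4) (.e (nat_lit 172120) (nat_lit 12) (.e (nat_lit 475210) (nat_lit 41) (.e (nat_lit 712739) (nat_lit 27) .nil)))) (.g (nat_lit 0) (.e (nat_lit 425108) (nat_lit 0) .nil) .nil)))) (.nd (nat_lit 9) 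
(.lf (nat_lit 602614) (.g (nat_lit 3649) (.e (nat_lit 647181) (nat_lit 3) (.e (nat_lit 163979) (nat_lit 30) (.e (nat_lit 573491) (nat_lit 15) (.e (nat_lit 81951) (nat_lit 22) (.e (nat_lit 90170) (nat_lit 13) (.e (nat_lit 172032) (nat_lit 0) (.e (nat_lit 3399) (nat_lit 211) .nil))))))) (.g (nat_lit 1) (.e (nat_lit 424554) (nat_lit 0) .nil) .nil))) 
(.lf (nat_lit 603126) (.g (nat_lit 4334) (.e (nat_lit 655373) (nat_lit 3) (.e (nat_lit 163978) (nat_lit 30) (.e (nat_lit 573484) (nat_lit 13) (.e (nat_lit 65610) (nat_lit 10) (.e (nat_lit 344117) (nat_lit 21) (.e (nat_lit 516151) (nat_lit 9) (.e (nat_lit 426042) (nat_lit 0) (.e (nat_lit 3409) (nat_lit 212) .nil)))))))) (.g (nat_lit 1) (.e (nat_lit 426230) (nat_lit 0) .nil) .nil))))))))) 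
(.nd (nat_lit 4) (.nd (nat_lit 5) (.nd (nat_lit 6) (.nd (nat_lit 7) (.nd (nat_lit 8) 
(.nd (nat_lit 9) 
(.lf (nat_lit 602126) (.g (nat_lit 2389) (.e (nat_lit 663583) (nat_lit 11) (.e (nat_lit 24617) (nat_lit 7) (.e (nat_lit 319534) (nat_lit 16) (.e (nat_lit 286728) (nat_lit 0) (.e (nat_lit 7936) (nat_lit 362) (.e (nat_lit 180265) (nat_lit 21) .nil)))))) (.g (nat_lit 1) (.e (nat_lit 423193) (nat_lit 0) .nil) .nil))) 
(.lf (nat_lit 602638) (.g (nat_lit 3514) (.e (nat_lit 647181) (nat_lit 3) (.e (nat_lit 163979) (nat_lit 30) (.e (nat_lit 573493) (nat_lit 15) (.e (nat_lit 81953) (nat_lit 22) (.e (nat_lit 90170) (nat_lit 13) (.e (nat_lit 172035) (nat_lit 0) (.e (nat_lit 3402) (nat_lit 211) .nil))))))) (.g (nat_lit 1) (.e (nat_lit 424588) (nat_lit 0) .nil) .nil)))) (.nd (nat_lit 9) 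
(.lf (nat_lit 602382) (.g (nat_lit 2525) (.e (nat_lit 647177) (nat_lit 0) (.e (nat_lit 2682) (nat_lit 168) (.e (nat_lit 204863) (nat_lit 27) (.e (nat_lit 344133) (nat_lit 26) (.e (nat_lit 557103) (nat_lit 14) .nil))))) (.g (nat_lit 0) (.e (nat_lit 424158) (nat_lit 0) .nil) .nil))) 
(.lf (nat_lit 602894) (.g (nat_lit 2513) (.e (nat_lit 647183) (nat_lit 4) (.e (nat_lit 172124) (nat_lit 14) (.e (nat_lit 491549) (nat_lit 9) (.e (nat_lit 336395) (nat_lit 27) (.e (nat_lit 426212) (nat_lit 9) (.e (nat_lit 426025) (nat_lit 0) (.e (nat_lit 3399) (nat_lit 211) .nil))))))) (.g (nat_lit 1) (.e (nat_lit 425138) (nat_lit 0) .nil) .nil))))) (.nd (nat_lit 8) (.nd (nat_lit 9) 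
(.lf (nat_lit 602254) (.g (nat_lit 420) (.e (nat_lit 671762) (nat_lit 4) (.e (nat_lit 65629) (nat_lit 14) (.e (nat_lit 401437) (nat_lit 9) .nil))) (.g (nat_lit 0) (.e (nat_lit 423628) (nat_lit 0) .nil) .nil))) 
(.lf (nat_lit 602766) (.g (nat_lit 3531) (.e (nat_lit 647183) (nat_lit 4) (.e (nat_lit 172113) (nat_lit 10) (.e (nat_lit 434272) (nat_lit 38) (.e (nat_lit 655378) (nat_lit 4) (.e (nat_lit 172094) (nat_lit 9) (.e (nat_lit 426025) (nat_lit 0) (.e (nat_lit 3397) (nat_lit 211) .nil))))))) (.g (nat_lit 1) (.e (nat_lit 424981) (nat_lit 0) .nil) .nil)))) (.nd (nat_lit 9) 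
(.lf (nat_lit 602510) (.g (nat_lit 4185) (.e (nat_lit 647181) (nat_lit 3) (.e (nat_lit 163977) (nat_lit 30) (.e (nat_lit 573493) (nat_lit 15) (.e (nat_lit 81953) (nat_lit 22) (.e (nat_lit 90166) (nat_lit 13) (.e (nat_lit 172036) (nat_lit 0) (.e (nat_lit 3402) (nat_lit 211) .nil))))))) (.g (nat_lit 1) (.e (nat_lit 424425) (nat_lit 0) .nil) .nil))) 
(.lf (nat_lit 603022) (.g (nat_lit 1757) (.e (nat_lit 647185) (nat_lit 6) (.e (nat_lit 188439) (nat_lit 20) (.e (nat_lit 3406) (nat_lit 212) (.e (nat_lit 655380) (nat_lit 6) (.e (nat_lit 188431) (nat_lit 20) (.e (nat_lit 3397) (nat_lit 211) .nil)))))) (.g (nat_lit 1) (.e (nat_lit 425579) (nat_lit 0) .nil) .nil)))))) (.nd (nat_lit 7) (.nd (nat_lit 8) (.nd (nat_lit 9) 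
(.lf (nat_lit 602190) (.g (nat_lit 1682) (.e (nat_lit 671759) (nat_lit 3) (.e (nat_lit 57478) (nat_lit 28) (.e (nat_lit 557107) (nat_lit 15) (.e (nat_lit 188450) (nat_lit 23) (.e (nat_lit 204855) (nat_lit 26) .nil))))) (.g (nat_lit 0) (.e (nat_lit 423551) (nat_lit 0) .nil) .nil))) 
(.lf (nat_lit 602702) (.g (nat_lit 2291) (.e (nat_lit 647183) (nat_lit 4) (.e (nat_lit 172106) (nat_lit 10) (.e (nat_lit 434272) (nat_lit 38) (.e (nat_lit 655363) (nat_lit 0) (.e (nat_lit 3015) (nat_lit 187) (.e (nat_lit 458496) (nat_lit 15) .nil)))))) (.g (nat_lit 1) (.e (nat_lit 424914) (nat_lit 0) .nil) .nil)))) (.nd (nat_lit 9) 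
(.lf (nat_lit 602446) (.g (nat_lit 2785) (.e (nat_lit 647181) (nat_lit 3) (.e (nat_lit 163977) (nat_lit 30) (.e (nat_lit 573481) (nat_lit 13) (.e (nat_lit 65619) (nat_lit 10) (.e (nat_lit 344117) (nat_lit 21) (.e (nat_lit 516151) (nat_lit 9) (.e (nat_lit 426025) (nat_lit 0) (.e (nat_lit 3397) (nat_lit 211) .nil)))))))) (.g (nat_lit 1) (.e (nat_lit 424348) (nat_lit 0) .nil) .nil))) 
(.lf (nat_lit 602958) (.g (nat_lit 1650) (.e (nat_lit 647183) (nat_lit 4) (.e (nat_lit 172126) (nat_lit 14) (.e (nat_lit 491549) (nat_lit 9) (.e (nat_lit 336433) (nat_lit 30) .nil)))) (.g (nat_lit 0) (.e (nat_lit 425241) (nat_lit 0) .nil) .nil))))) (.nd (nat_lit 8) (.nd (nat_lit 9) 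
(.lf (nat_lit 602318) (.g (nat_lit 396) (.e (nat_lit 671764) (nat_lit 6) (.e (nat_lit 81947) (nat_lit 20) (.e (nat_lit 2006) (nat_lit 138) .nil))) (.g (nat_lit 0) (.e (nat_lit 423694) (nat_lit 0) .nil) .nil))) 
(.lf (nat_lit 602830) (.g (nat_lit 1531) (.e (nat_lit 647183) (nat_lit 4) (.e (nat_lit 172118) (nat_lit 12) (.e (nat_lit 475198) (nat_lit 40) (.e (nat_lit 704599) (nat_lit 6) (.e (nat_lit 188424) (nat_lit 20) .nil))))) (.g (nat_lit 0) (.e (nat_lit 425058) (nat_lit 0) .nil) .nil)))) (.nd (nat_lit 9) 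
(.lf (nat_lit 602574) (.g (nat_lit 3470) (.e (nat_lit 647181) (nat_lit 3) (.e (nat_lit 163978) (nat_lit 30) (.e (nat_lit 573485) (nat_lit 13) (.e (nat_lit 65604) (nat_lit 9) (.e (nat_lit 336028) (nat_lit 3) (.e (nat_lit 98354) (nat_lit 26) (.e (nat_lit 426025) (nat_lit 0) (.e (nat_lit 3397) (nat_lit 211) .nil)))))))) (.g (nat_lit 1) (.e (nat_lit 424510) (nat_lit 0) .nil) .nil))) 
(.lf (nat_lit 603086) (.g (nat_lit 2632) (.e (nat_lit 655104) (nat_lit 12) (.e (nat_lit 57574) (nat_lit 55) (.e (nat_lit 778466) (nat_lit 11) (.e (nat_lit 24617) (nat_lit 7) (.e (nat_lit 319533) (nat_lit 16) .nil))))) (.g (nat_lit 0) (.e (nat_lit 425852) (nat_lit 0) .nil) .nil))))))) (.nd (nat_lit 6) (.nd (nat_lit 7) (.nd (nat_lit 8) (.nd (nat_lit 9) 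
(.lf (nat_lit 602158) (.g (nat_lit 1596) (.e (nat_lit 663589) (nat_lit 14) (.e (nat_lit 2798) (nat_lit 180) (.e (nat_lit 303143) (nat_lit 12) (.e (nat_lit 475210) (nat_lit 41) .nil)))) (.g (nat_lit 0) (.e (nat_lit 423478) (nat_lit 0) .nil) .nil))) 
(.lf (nat_lit 602670) (.g (nat_lit 1953) (.e (nat_lit 647183) (nat_lit 4) (.e (nat_lit 172094) (nat_lit 9) (.e (nat_lit 426025) (nat_lit 0) (.e (nat_lit 3397) (nat_lit 211) (.e (nat_lit 647185) (nat_lit 6) (.e (nat_lit 188428) (nat_lit 20) (.e (nat_lit 3401) (nat_lit 211) .nil))))))) (.g (nat_lit 1) (.e (nat_lit 424834) (nat_lit 0) .nil) .nil)))) (.nd (nat_lit 9) 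
(.lf (nat_lit 602414) (.g (nat_lit 4013) (.e (nat_lit 647180) (nat_lit 3) (.e (nat_lit 163978) (nat_lit 30) (.e (nat_lit 573485) (nat_lit 13) (.e (nat_lit 65619) (nat_lit 10) (.e (nat_lit 344117) (nat_lit 21) (.e (nat_lit 516151) (nat_lit 9) (.e (nat_lit 426023) (nat_lit 0) (.e (nat_lit 3402) (nat_lit 211) .nil)))))))) (.g (nat_lit 1) (.e (nat_lit 424278) (nat_lit 0) .nil) .nil))) 
(.lf (nat_lit 602926) (.g (nat_lit 3844) (.e (nat_lit 647183) (nat_lit 4) (.e (nat_lit 172124) (nat_lit 14) (.e (nat_lit 491571) (nat_lit 13) (.e (nat_lit 393276) (nat_lit 23) (.e (nat_lit 426025) (nat_lit 0) (.e (nat_lit 3397) (nat_lit 211) .nil)))))) (.g (nat_lit 1) (.e (nat_lit 425196) (nat_lit 0) .nil) .nil))))) (.nd (nat_lit 8) (.nd (nat_lit 9) 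
(.lf (nat_lit 602286) (.g (nat_lit 2580) (.e (nat_lit 671763) (nat_lit 5) (.e (nat_lit 73781) (nat_lit 32) (.e (nat_lit 2856) (nat_lit 184) (.e (nat_lit 426542) (nat_lit 29) (.e (nat_lit 352297) (nat_lit 20) (.e (nat_lit 2003) (nat_lit 138) .nil)))))) (.g (nat_lit 1) (.e (nat_lit 423660) (nat_lit 0) .nil) .nil))) 
(.lf (nat_lit 602798) (.g (nat_lit 2671) (.e (nat_lit 647183) (nat_lit 4) (.e (nat_lit 172115) (nat_lit 10) (.e (nat_lit 434272) (nat_lit 38) (.e (nat_lit 655364) (nat_lit 0) (.e (nat_lit 3016) (nat_lit 187) (.e (nat_lit 458496) (nat_lit 15) .nil)))))) (.g (nat_lit 1) (.e (nat_lit 425024) (nat_lit 0) .nil) .nil)))) (.nd (nat_lit 9) 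
(.lf (nat_lit 602542) (.g (nat_lit 3357) (.e (nat_lit 647181) (nat_lit 3) (.e (nat_lit 163977) (nat_lit 30) (.e (nat_lit 573493) (nat_lit 15) (.e (nat_lit 81956) (nat_lit 23) (.e (nat_lit 98360) (nat_lit 26) (.e (nat_lit 426007) (nat_lit 0) (.e (nat_lit 3402) (nat_lit 211) .nil))))))) (.g (nat_lit 1) (.e (nat_lit 424463) (nat_lit 0) .nil) .nil))) 
(.lf (nat_lit 603054) (.g (nat_lit 1420) (.e (nat_lit 647185) (nat_lit 6) (.e (nat_lit 188448) (nat_lit 22) (.e (nat_lit 196656) (nat_lit 11) (.e (nat_lit 16392) (nat_lit 0) .nil)))) (.g (nat_lit 0) (.e (nat_lit 425693) (nat_lit 0) .nil) .nil)))))) (.nd (nat_lit 7) (.nd (nat_lit 8) (.nd (nat_lit 9) 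
(.lf (nat_lit 602222) (.g (nat_lit 2227) (.e (nat_lit 671761) (nat_lit 4) (.e (nat_lit 65624) (nat_lit 12) (.e (nat_lit 385093) (nat_lit 49) (.e (nat_lit 778586) (nat_lit 18) .nil)))) (.g (nat_lit 0) (.e (nat_lit 423590) (nat_lit 0) .nil) .nil))) 
(.lf (nat_lit 602734) (.g (nat_lit 2399) (.e (nat_lit 647183) (nat_lit 4) (.e (nat_lit 172112) (nat_lit 10) (.e (nat_lit 434271) (nat_lit 38) (.e (nat_lit 655378) (nat_lit 4) (.e (nat_lit 172094) (nat_lit 9) (.e (nat_lit 426025) (nat_lit 0) (.e (nat_lit 3397) (nat_lit 211) .nil))))))) (.g (nat_lit 1) (.e (nat_lit 424946) (nat_lit 0) .nil) .nil)))) (.nd (nat_lit 9) 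
(.lf (nat_lit 602478) (.g (nat_lit 4211) (.e (nat_lit 647181) (nat_lit 3) (.e (nat_lit 163977) (nat_lit 30) (.e (nat_lit 573485) (nat_lit 13) (.e (nat_lit 65619) (nat_lit 10) (.e (nat_lit 344117) (nat_lit 21) (.e (nat_lit 516151) (nat_lit 9) (.e (nat_lit 426022) (nat_lit 0) (.e (nat_lit 3401) (nat_lit 211) .nil)))))))) (.g (nat_lit 1) (.e (nat_lit 424380) (nat_lit 0) .nil) .nil))) 
(.lf (nat_lit 602990) (.g (nat_lit 2127) (.e (nat_lit 647183) (nat_lit 4) (.e (nat_lit 172126) (nat_lit 14) (.e (nat_lit 491571) (nat_lit 13) (.e (nat_lit 401152) (nat_lit 23) .nil)))) (.g (nat_lit 0) (.e (nat_lit 425313) (nat_lit 0) .nil) .nil))))) (.nd (nat_lit 8) (.nd (nat_lit 9) 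
(.lf (nat_lit 602350) (.g (nat_lit 2531) (.e (nat_lit 647170) (nat_lit 0) (.e (nat_lit 3098) (nat_lit 192) (.e (nat_lit 491566) (nat_lit 12) (.e (nat_lit 385093) (nat_lit 49) (.e (nat_lit 786176) (nat_lit 4) .nil))))) (.g (nat_lit 0) (.e (nat_lit 423967) (nat_lit 0) .nil) .nil))) 
(.lf (nat_lit 602862) (.g (nat_lit 2781) (.e (nat_lit 647183) (nat_lit 4) (.e (nat_lit 172120) (nat_lit 12) (.e (nat_lit 475198) (nat_lit 40) (.e (nat_lit 704593) (nat_lit 4) (.e (nat_lit 172094) (nat_lit 9) (.e (nat_lit 426025) (nat_lit 0) (.e (nat_lit 3399) (nat_lit 211) .nil))))))) (.g (nat_lit 1) (.e (nat_lit 425098) (nat_lit 0) .nil) .nil)))) (.nd (nat_lit 9) 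
(.lf (nat_lit 602606) (.g (nat_lit 3652) (.e (nat_lit 647181) (nat_lit 3) (.e (nat_lit 163979) (nat_lit 30) (.e (nat_lit 573482) (nat_lit 13) (.e (nat_lit 65619) (nat_lit 10) (.e (nat_lit 344117) (nat_lit 21) (.e (nat_lit 516143) (nat_lit 9) (.e (nat_lit 426025) (nat_lit 0) (.e (nat_lit 3399) (nat_lit 211) .nil)))))))) (.g (nat_lit 1) (.e (nat_lit 424545) (nat_lit 0) .nil) .nil))) 
(.lf (nat_lit 603118) (.g (nat_lit 1336) (.e (nat_lit 655373) (nat_lit 3) (.e (nat_lit 163977) (nat_lit 30) (.e (nat_lit 573491) (nat_lit 15) (.e (nat_lit 81954) (nat_lit 23) .nil)))) (.g (nat_lit 0) (.e (nat_lit 426219) (nat_lit 0) .nil) .nil)))))))) (.nd (nat_lit 5) (.nd (nat_lit 6) (.nd (nat_lit 7) (.nd (nat_lit 8) (.nd (nat_lit 9) 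
(.lf (nat_lit 602142) (.g (nat_lit 2165) (.e (nat_lit 663585) (nat_lit 12) (.e (nat_lit 163978) (nat_lit 30) (.e (nat_lit 573469) (nat_lit 11) (.e (nat_lit 16465) (nat_lit 13) .nil)))) (.g (nat_lit 0) (.e (nat_lit 423382) (nat_lit 0) .nil) .nil))) 
(.lf (nat_lit 602654) (.g (nat_lit 1755) (.e (nat_lit 647183) (nat_lit 4) (.e (nat_lit 172038) (nat_lit 0) (.e (nat_lit 6989) (nat_lit 377) (.e (nat_lit 2777) (nat_lit 178) (.e (nat_lit 286771) (nat_lit 29) (.e (nat_lit 442399) (nat_lit 20) (.e (nat_lit 3397) (nat_lit 211) .nil))))))) (.g (nat_lit 1) (.e (nat_lit 424803) (nat_lit 0) .nil) .nil)))) (.nd (nat_lit 9) 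
(.lf (nat_lit 602398) (.g (nat_lit 2530) (.e (nat_lit 647180) (nat_lit 3) (.e (nat_lit 163978) (nat_lit 30) (.e (nat_lit 573479) (nat_lit 13) (.e (nat_lit 65619) (nat_lit 10) (.e (nat_lit 344117) (nat_lit 21) (.e (nat_lit 516151) (nat_lit 9) (.e (nat_lit 426023) (nat_lit 0) (.e (nat_lit 3397) (nat_lit 211) .nil)))))))) (.g (nat_lit 1) (.e (nat_lit 424262) (nat_lit 0) .nil) .nil))) 
(.lf (nat_lit 602910) (.g (nat_lit 2277) (.e (nat_lit 647183) (nat_lit 4) (.e (nat_lit 172124) (nat_lit 14) (.e (nat_lit 491569) (nat_lit 13) (.e (nat_lit 393266) (nat_lit 23) (.e (nat_lit 426025) (nat_lit 0) (.e (nat_lit 3399) (nat_lit 211) .nil)))))) (.g (nat_lit 1) (.e (nat_lit 425159) (nat_lit 0) .nil) .nil))))) (.nd (nat_lit 8) (.nd (nat_lit 9) 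
(.lf (nat_lit 602270) (.g (nat_lit 2020) (.e (nat_lit 671762) (nat_lit 4) (.e (nat_lit 65630) (nat_lit 14) (.e (nat_lit 401437) (nat_lit 9) (.e (nat_lit 426555) (nat_lit 32) .nil)))) (.g (nat_lit 0) (.e (nat_lit 423644) (nat_lit 0) .nil) .nil))) 
(.lf (nat_lit 602782) (.g (nat_lit 1740) (.e (nat_lit 647183) (nat_lit 4) (.e (nat_lit 172115) (nat_lit 10) (.e (nat_lit 434209) (nat_lit 18) (.e (nat_lit 5548) (nat_lit 306) (.e (nat_lit 2648) (nat_lit 166) .nil))))) (.g (nat_lit 0) (.e (nat_lit 425005) (nat_lit 0) .nil) .nil)))) (.nd (nat_lit 9) 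
(.lf (nat_lit 602526) (.g (nat_lit 3888) (.e (nat_lit 647181) (nat_lit 3) (.e (nat_lit 163977) (nat_lit 30) (.e (nat_lit 573493) (nat_lit 15) (.e (nat_lit 81954) (nat_lit 23) (.e (nat_lit 98359) (nat_lit 26) (.e (nat_lit 426023) (nat_lit 0) (.e (nat_lit 3401) (nat_lit 211) .nil))))))) (.g (nat_lit 1) (.e (nat_lit 424445) (nat_lit 0) .nil) .nil))) 
(.lf (nat_lit 603038) (.g (nat_lit 2492) (.e (nat_lit 647185) (nat_lit 6) (.e (nat_lit 188441) (nat_lit 20) (.e (nat_lit 3409) (nat_lit 212) (.e (nat_lit 655378) (nat_lit 4) (.e (nat_lit 172094) (nat_lit 9) (.e (nat_lit 426025) (nat_lit 0) (.e (nat_lit 3399) (nat_lit 211) .nil))))))) (.g (nat_lit 1) (.e (nat_lit 425642) (nat_lit 0) .nil) .nil)))))) 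
(.nd (nat_lit 7) (.nd (nat_lit 8) (.nd (nat_lit 9) 
(.lf (nat_lit 602206) (.g (nat_lit 1335) (.e (nat_lit 671760) (nat_lit 4) (.e (nat_lit 65619) (nat_lit 10) (.e (nat_lit 344169) (nat_lit 40) (.e (nat_lit 671764) (nat_lit 6) (.e (nat_lit 81938) (nat_lit 20) .nil))))) (.g (nat_lit 0) (.e (nat_lit 423572) (nat_lit 0) .nil) .nil))) 
(.lf (nat_lit 602718) (.g (nat_lit 1512) (.e (nat_lit 647183) (nat_lit 4) (.e (nat_lit 172107) (nat_lit 10) (.e (nat_lit 434271) (nat_lit 38) (.e (nat_lit 655378) (nat_lit 4) (.e (nat_lit 172088) (nat_lit 9) .nil))))) (.g (nat_lit 0) (.e (nat_lit 424930) (nat_lit 0) .nil) .nil)))) (.nd (nat_lit 9) 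
(.lf (nat_lit 602462) (.g (nat_lit 3763) (.e (nat_lit 647181) (nat_lit 3) (.e (nat_lit 163977) (nat_lit 30) (.e (nat_lit 573484) (nat_lit 13) (.e (nat_lit 65610) (nat_lit 10) (.e (nat_lit 344117) (nat_lit 21) (.e (nat_lit 516143) (nat_lit 9) (.e (nat_lit 426025) (nat_lit 0) (.e (nat_lit 3399) (nat_lit 211) .nil)))))))) (.g (nat_lit 1) (.e (nat_lit 424364) (nat_lit 0) .nil) .nil))) 
(.lf (nat_lit 602974) (.g (nat_lit 2082) (.e (nat_lit 647183) (nat_lit 4) (.e (nat_lit 172126) (nat_lit 14) (.e (nat_lit 491571) (nat_lit 13) (.e (nat_lit 393232) (nat_lit 17) .nil)))) (.g (nat_lit 0) (.e (nat_lit 425267) (nat_lit 0) .nil) .nil))))) (.nd (nat_lit 8) (.nd (nat_lit 9) 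
(.lf (nat_lit 602334) (.g (nat_lit 1155) (.e (nat_lit 647170) (nat_lit 0) (.e (nat_lit 3097) (nat_lit 192) (.e (nat_lit 491566) (nat_lit 12) (.e (nat_lit 385093) (nat_lit 49) .nil)))) (.g (nat_lit 0) (.e (nat_lit 423926) (nat_lit 0) .nil) .nil))) 
(.lf (nat_lit 602846) (.g (nat_lit 1920) (.e (nat_lit 647183) (nat_lit 4) (.e (nat_lit 172118) (nat_lit 12) (.e (nat_lit 475211) (nat_lit 41) (.e (nat_lit 712750) (nat_lit 29) (.e (nat_lit 442399) (nat_lit 20) (.e (nat_lit 3399) (nat_lit 211) .nil)))))) (.g (nat_lit 1) (.e (nat_lit 425075) (nat_lit 0) .nil) .nil)))) (.nd (nat_lit 9) 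
(.lf (nat_lit 602590) (.g (nat_lit 931) (.e (nat_lit 647181) (nat_lit 3) (.e (nat_lit 163978) (nat_lit 30) (.e (nat_lit 573493) (nat_lit 15) .nil))) (.g (nat_lit 0) (.e (nat_lit 424526) (nat_lit 0) .nil) .nil))) 
(.lf (nat_lit 603102) (.g (nat_lit 3901) (.e (nat_lit 655364) (nat_lit 0) (.e (nat_lit 3098) (nat_lit 192) (.e (nat_lit 491566) (nat_lit 12) (.e (nat_lit 385104) (nat_lit 50) (.e (nat_lit 786483) (nat_lit 30) (.e (nat_lit 360485) (nat_lit 16) .nil)))))) (.g (nat_lit 1) (.e (nat_lit 426156) (nat_lit 0) .nil) .nil))))))) (.nd (nat_lit 6) (.nd (nat_lit 7) (.nd (nat_lit 8) (.nd (nat_lit 9) 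
(.lf (nat_lit 602174) (.g (nat_lit 1530) (.e (nat_lit 671748) (nat_lit 0) (.e (nat_lit 1464) (nat_lit 108) (.e (nat_lit 336227) (nat_lit 14) (.e (nat_lit 401437) (nat_lit 9) (.e (nat_lit 426546) (nat_lit 30) .nil))))) (.g (nat_lit 0) (.e (nat_lit 423526) (nat_lit 0) .nil) .nil))) 
(.lf (nat_lit 602686) (.g (nat_lit 2429) (.e (nat_lit 647183) (nat_lit 4) (.e (nat_lit 172106) (nat_lit 10) (.e (nat_lit 434209) (nat_lit 18) (.e (nat_lit 5546) (nat_lit 306) (.e (nat_lit 2650) (nat_lit 166) (.e (nat_lit 188427) (nat_lit 20) (.e (nat_lit 3397) (nat_lit 211) .nil))))))) (.g (nat_lit 1) (.e (nat_lit 424890) (nat_lit 0) .nil) .nil)))) (.nd (nat_lit 9) 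
(.lf (nat_lit 602430) (.g (nat_lit 3947) (.e (nat_lit 647180) (nat_lit 3) (.e (nat_lit 163979) (nat_lit 30) (.e (nat_lit 573492) (nat_lit 15) (.e (nat_lit 81956) (nat_lit 23) (.e (nat_lit 106240) (nat_lit 26) .nil))))) (.g (nat_lit 0) (.e (nat_lit 424304) (nat_lit 0) .nil) .nil))) 
(.lf (nat_lit 602942) (.g (nat_lit 944) (.e (nat_lit 647183) (nat_lit 4) (.e (nat_lit 172126) (nat_lit 14) (.e (nat_lit 491548) (nat_lit 9) (.e (nat_lit 336430) (nat_lit 29) .nil)))) (.g (nat_lit 0) (.e (nat_lit 425221) (nat_lit 0) .nil) .nil))))) (.nd (nat_lit 8) (.nd (nat_lit 9) 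
(.lf (nat_lit 602302) (.g (nat_lit 2243) (.e (nat_lit 671763) (nat_lit 5) (.e (nat_lit 73782) (nat_lit 32) (.e (nat_lit 2857) (nat_lit 184) (.e (nat_lit 426542) (nat_lit 29) (.e (nat_lit 352297) (nat_lit 20) (.e (nat_lit 2003) (nat_lit 138) .nil)))))) (.g (nat_lit 1) (.e (nat_lit 423676) (nat_lit 0) .nil) .nil))) 
(.lf (nat_lit 602814) (.g (nat_lit 1958) (.e (nat_lit 647183) (nat_lit 4) (.e (nat_lit 172116) (nat_lit 10) (.e (nat_lit 434271) (nat_lit 38) (.e (nat_lit 655380) (nat_lit 6) (.e (nat_lit 188431) (nat_lit 20) (.e (nat_lit 3399) (nat_lit 211) .nil)))))) (.g (nat_lit 1) (.e (nat_lit 425042) (nat_lit 0) .nil) .nil)))) (.nd (nat_lit 9) 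
(.lf (nat_lit 602558) (.g (nat_lit 3465) (.e (nat_lit 647181) (nat_lit 3) (.e (nat_lit 163978) (nat_lit 30) (.e (nat_lit 573484) (nat_lit 13) (.e (nat_lit 65610) (nat_lit 10) (.e (nat_lit 344117) (nat_lit 21) (.e (nat_lit 516143) (nat_lit 9) (.e (nat_lit 426025) (nat_lit 0) (.e (nat_lit 3399) (nat_lit 211) .nil)))))))) (.g (nat_lit 1) (.e (nat_lit 424494) (nat_lit 0) .nil) .nil))) 
(.lf (nat_lit 603070) (.g (nat_lit 2265) (.e (nat_lit 647185) (nat_lit 6) (.e (nat_lit 188455) (nat_lit 24) (.e (nat_lit 229678) (nat_lit 244) (.e (nat_lit 163908) (nat_lit 12) .nil)))) (.g (nat_lit 0) (.e (nat_lit 425730) (nat_lit 0) .nil) .nil)))))) (.nd (nat_lit 7) (.nd (nat_lit 8) (.nd (nat_lit 9) 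
(.lf (nat_lit 602238) (.g (nat_lit 2113) (.e (nat_lit 671761) (nat_lit 4) (.e (nat_lit 65630) (nat_lit 14) (.e (nat_lit 401457) (nat_lit 13) (.e (nat_lit 483394) (nat_lit 24) .nil)))) (.g (nat_lit 0) (.e (nat_lit 423606) (nat_lit 0) .nil) .nil))) 
(.lf (nat_lit 602750) (.g (nat_lit 2807) (.e (nat_lit 647183) (nat_lit 4) (.e (nat_lit 172113) (nat_lit 10) (.e (nat_lit 434271) (nat_lit 38) (.e (nat_lit 655378) (nat_lit 4) (.e (nat_lit 172094) (nat_lit 9) (.e (nat_lit 426025) (nat_lit 0) (.e (nat_lit 3399) (nat_lit 211) .nil))))))) (.g (nat_lit 1) (.e (nat_lit 424965) (nat_lit 0) .nil) .nil)))) (.nd (nat_lit 9) 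
(.lf (nat_lit 602494) (.g (nat_lit 3536) (.e (nat_lit 647181) (nat_lit 3) (.e (nat_lit 163977) (nat_lit 30) (.e (nat_lit 573492) (nat_lit 15) (.e (nat_lit 81956) (nat_lit 23) (.e (nat_lit 98354) (nat_lit 26) (.e (nat_lit 426025) (nat_lit 0) (.e (nat_lit 3397) (nat_lit 211) .nil))))))) (.g (nat_lit 1) (.e (nat_lit 424401) (nat_lit 0) .nil) .nil))) 
(.lf (nat_lit 603006) (.g (nat_lit 1238) (.e (nat_lit 647185) (nat_lit 6) (.e (nat_lit 188418) (nat_lit 0) (.e (nat_lit 2175) (nat_lit 143) (.e (nat_lit 712753) (nat_lit 30) (.e (nat_lit 458496) (nat_lit 15) .nil))))) (.g (nat_lit 1) (.e (nat_lit 425531) (nat_lit 0) .nil) .nil))))) (.nd (nat_lit 8) (.nd (nat_lit 9) 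
(.lf (nat_lit 602366) (.g (nat_lit 3501) (.e (nat_lit 647170) (nat_lit 0) (.e (nat_lit 3098) (nat_lit 192) (.e (nat_lit 491566) (nat_lit 12) (.e (nat_lit 385105) (nat_lit 50) (.e (nat_lit 786483) (nat_lit 30) (.e (nat_lit 368384) (nat_lit 15) .nil)))))) (.g (nat_lit 1) (.e (nat_lit 424011) (nat_lit 0) .nil) .nil))) 
(.lf (nat_lit 602878) (.g (nat_lit 2384) (.e (nat_lit 647183) (nat_lit 4) (.e (nat_lit 172120) (nat_lit 12) (.e (nat_lit 475211) (nat_lit 41) (.e (nat_lit 712750) (nat_lit 29) (.e (nat_lit 442399) (nat_lit 20) (.e (nat_lit 3402) (nat_lit 211) .nil)))))) (.g (nat_lit 1) (.e (nat_lit 425118) (nat_lit 0) .nil) .nil)))) (.nd (nat_lit 9) 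
(.lf (nat_lit 602622) (.g (nat_lit 2573) (.e (nat_lit 647181) (nat_lit 3) (.e (nat_lit 163979) (nat_lit 30) (.e (nat_lit 573491) (nat_lit 15) (.e (nat_lit 81954) (nat_lit 23) (.e (nat_lit 98359) (nat_lit 26) (.e (nat_lit 426023) (nat_lit 0) (.e (nat_lit 3402) (nat_lit 211) .nil))))))) (.g (nat_lit 1) (.e (nat_lit 424563) (nat_lit 0) .nil) .nil))) 
(.lf (nat_lit 603134) (.g (nat_lit 2843) (.e (nat_lit 655373) (nat_lit 3) (.e (nat_lit 163979) (nat_lit 30) (.e (nat_lit 573481) (nat_lit 13) (.e (nat_lit 65619) (nat_lit 10) (.e (nat_lit 344117) (nat_lit 21) .nil))))) (.g (nat_lit 0) (.e (nat_lit 426238) (nat_lit 0) .nil) .nil)))))))))))) 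
(.nd (nat_lit 1) (.nd (nat_lit 2) (.nd (nat_lit 3) (.nd (nat_lit 4) (.nd (nat_lit 5) 
(.nd (nat_lit 6) (.nd (nat_lit 7) (.nd (nat_lit 8) (.nd (nat_lit 9) 
(.lf (nat_lit 602113) (.g (nat_lit 510) (.e (nat_lit 663583) (nat_lit 11) (.e (nat_lit 24580) (nat_lit 0) (.e (nat_lit 2360) (nat_lit 152) .nil))) (.g (nat_lit 0) (.e (nat_lit 423168) (nat_lit 0) .nil) .nil))) 
(.lf (nat_lit 602625) (.g (nat_lit 2821) (.e (nat_lit 647181) (nat_lit 3) (.e (nat_lit 163979) (nat_lit 30) (.e (nat_lit 573491) (nat_lit 15) (.e (nat_lit 81954) (nat_lit 23) (.e (nat_lit 98362) (nat_lit 26) (.e (nat_lit 426025) (nat_lit 0) (.e (nat_lit 3399) (nat_lit 211) .nil))))))) (.g (nat_lit 1) (.e (nat_lit 424566) (nat_lit 0) .nil) .nil)))) (.nd (nat_lit 9) 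
(.lf (nat_lit 602369) (.g (nat_lit 3922) (.e (nat_lit 647172) (nat_lit 0) (.e (nat_lit 3100) (nat_lit 192) (.e (nat_lit 491563) (nat_lit 12) (.e (nat_lit 385102) (nat_lit 50) .nil)))) (.g (nat_lit 0) (.e (nat_lit 424069) (nat_lit 0) .nil) .nil))) 
(.lf (nat_lit 602881) (.g (nat_lit 2112) (.e (nat_lit 647183) (nat_lit 4) (.e (nat_lit 172120) (nat_lit 12) (.e (nat_lit 475211) (nat_lit 41) (.e (nat_lit 712753) (nat_lit 30) (.e (nat_lit 458496) (nat_lit 15) .nil))))) (.g (nat_lit 1) (.e (nat_lit 425121) (nat_lit 0) .nil) .nil))))) (.nd (nat_lit 8) (.nd (nat_lit 9) 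
(.lf (nat_lit 602241) (.g (nat_lit 2807) (.e (nat_lit 671761) (nat_lit 4) (.e (nat_lit 65630) (nat_lit 14) (.e (nat_lit 401457) (nat_lit 13) (.e (nat_lit 483395) (nat_lit 24) (.e (nat_lit 344169) (nat_lit 40) .nil))))) (.g (nat_lit 0) (.e (nat_lit 423609) (nat_lit 0) .nil) .nil))) 
(.lf (nat_lit 602753) (.g (nat_lit 927) (.e (nat_lit 647183) (nat_lit 4) (.e (nat_lit 172113) (nat_lit 10) (.e (nat_lit 434271) (nat_lit 38) (.e (nat_lit 655380) (nat_lit 6) .nil)))) (.g (nat_lit 0) (.e (nat_lit 424968) (nat_lit 0) .nil) .nil)))) (.nd (nat_lit 9) 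
(.lf (nat_lit 602497) (.g (nat_lit 2728) (.e (nat_lit 647181) (nat_lit 3) (.e (nat_lit 163977) (nat_lit 30) (.e (nat_lit 573492) (nat_lit 15) (.e (nat_lit 81956) (nat_lit 23) (.e (nat_lit 98355) (nat_lit 26) (.e (nat_lit 425998) (nat_lit 0) (.e (nat_lit 3397) (nat_lit 211) .nil))))))) (.g (nat_lit 1) (.e (nat_lit 424404) (nat_lit 0) .nil) .nil))) 
(.lf (nat_lit 603009) (.g (nat_lit 1388) (.e (nat_lit 647185) (nat_lit 6) (.e (nat_lit 188420) (nat_lit 0) (.e (nat_lit 2174) (nat_lit 143) (.e (nat_lit 712753) (nat_lit 30) (.e (nat_lit 458496) (nat_lit 15) .nil))))) (.g (nat_lit 1) (.e (nat_lit 425535) (nat_lit 0) .nil) .nil)))))) (.nd (nat_lit 7) (.nd (nat_lit 8) (.nd (nat_lit 9) 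
(.lf (nat_lit 602177) (.g (nat_lit 2540) (.e (nat_lit 671749) (nat_lit 0) (.e (nat_lit 1399) (nat_lit 106) (.e (nat_lit 319490) (nat_lit 0) (.e (nat_lit 5664) (nat_lit 312) (.e (nat_lit 3085) (nat_lit 191) .nil))))) (.g (nat_lit 0) (.e (nat_lit 423532) (nat_lit 0) .nil) .nil))) 
(.lf (nat_lit 602689) (.g (nat_lit 2662) (.e (nat_lit 647183) (nat_lit 4) (.e (nat_lit 172106) (nat_lit 10) (.e (nat_lit 434209) (nat_lit 18) (.e (nat_lit 5547) (nat_lit 306) (.e (nat_lit 2650) (nat_lit 166) (.e (nat_lit 188428) (nat_lit 20) (.e (nat_lit 3402) (nat_lit 211) .nil))))))) (.g (nat_lit 1) (.e (nat_lit 424896) (nat_lit 0) .nil) .nil)))) (.nd (nat_lit 9) 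
(.lf (nat_lit 602433) (.g (nat_lit 3201) (.e (nat_lit 647180) (nat_lit 3) (.e (nat_lit 163979) (nat_lit 30) (.e (nat_lit 573493) (nat_lit 15) (.e (nat_lit 81954) (nat_lit 23) (.e (nat_lit 98359) (nat_lit 26) (.e (nat_lit 426023) (nat_lit 0) (.e (nat_lit 3401) (nat_lit 211) .nil))))))) (.g (nat_lit 1) (.e (nat_lit 424317) (nat_lit 0) .nil) .nil))) 
(.lf (nat_lit 602945) (.g (nat_lit 1103) (.e (nat_lit 647183) (nat_lit 4) (.e (nat_lit 172126) (nat_lit 14) (.e (nat_lit 491548) (nat_lit 9) (.e (nat_lit 336431) (nat_lit 29) .nil)))) (.g (nat_lit 0) (.e (nat_lit 425225) (nat_lit 0) .nil) .nil))))) (.nd (nat_lit 8) (.nd (nat_lit 9) 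
(.lf (nat_lit 602305) (.g (nat_lit 2323) (.e (nat_lit 671763) (nat_lit 5) (.e (nat_lit 73782) (nat_lit 32) (.e (nat_lit 3090) (nat_lit 191) (.e (nat_lit 483394) (nat_lit 24) (.e (nat_lit 344168) (nat_lit 40) .nil))))) (.g (nat_lit 1) (.e (nat_lit 423679) (nat_lit 0) .nil) .nil))) 
(.lf (nat_lit 602817) (.g (nat_lit 1290) (.e (nat_lit 647183) (nat_lit 4) (.e (nat_lit 172116) (nat_lit 10) (.e (nat_lit 434272) (nat_lit 38) (.e (nat_lit 655363) (nat_lit 0) (.e (nat_lit 3027) (nat_lit 187) (.e (nat_lit 458496) (nat_lit 15) .nil)))))) (.g (nat_lit 1) (.e (nat_lit 425045) (nat_lit 0) .nil) .nil)))) (.nd (nat_lit 9) 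
(.lf (nat_lit 602561) (.g (nat_lit 4785) (.e (nat_lit 647181) (nat_lit 3) (.e (nat_lit 163978) (nat_lit 30) (.e (nat_lit 573484) (nat_lit 13) (.e (nat_lit 65610) (nat_lit 10) (.e (nat_lit 344117) (nat_lit 21) (.e (nat_lit 516151) (nat_lit 9) (.e (nat_lit 426022) (nat_lit 0) (.e (nat_lit 3402) (nat_lit 211) .nil)))))))) (.g (nat_lit 1) (.e (nat_lit 424497) (nat_lit 0) .nil) .nil))) 
(.lf (nat_lit 603073) (.g (nat_lit 1075) (.e (nat_lit 647199) (nat_lit 11) (.e (nat_lit 16392) (nat_lit 0) (.e (nat_lit 7107) (nat_lit 380) (.e (nat_lit 164281) (nat_lit 222) .nil)))) (.g (nat_lit 0) (.e (nat_lit 425810) (nat_lit 0) .nil) .nil))))))) (.nd (nat_lit 6) (.nd (nat_lit 7) (.nd (nat_lit 8) (.nd (nat_lit 9) 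
(.lf (nat_lit 602145) (.g (nat_lit 3010) (.e (nat_lit 663585) (nat_lit 12) (.e (nat_lit 164018) (nat_lit 45) (.e (nat_lit 696344) (nat_lit 8) (.e (nat_lit 172082) (nat_lit 7) (.e (nat_lit 409646) (nat_lit 18) (.e (nat_lit 303135) (nat_lit 10) (.e (nat_lit 434276) (nat_lit 39) .nil))))))) (.g (nat_lit 1) (.e (nat_lit 423400) (nat_lit 0) .nil) .nil))) 
(.lf (nat_lit 602657) (.g (nat_lit 714) (.e (nat_lit 647183) (nat_lit 4) (.e (nat_lit 172038) (nat_lit 0) (.e (nat_lit 7107) (nat_lit 380) (.e (nat_lit 164339) (nat_lit 232) (.e (nat_lit 463) (nat_lit 34) .nil))))) (.g (nat_lit 0) (.e (nat_lit 424807) (nat_lit 0) .nil) .nil)))) (.nd (nat_lit 9) 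
(.lf (nat_lit 602401) (.g (nat_lit 4418) (.e (nat_lit 647180) (nat_lit 3) (.e (nat_lit 163978) (nat_lit 30) (.e (nat_lit 573484) (nat_lit 13) (.e (nat_lit 65610) (nat_lit 10) (.e (nat_lit 344117) (nat_lit 21) (.e (nat_lit 516151) (nat_lit 9) (.e (nat_lit 426025) (nat_lit 0) (.e (nat_lit 3399) (nat_lit 211) .nil)))))))) (.g (nat_lit 1) (.e (nat_lit 424265) (nat_lit 0) .nil) .nil))) 
(.lf (nat_lit 602913) (.g (nat_lit 1313) (.e (nat_lit 647183) (nat_lit 4) (.e (nat_lit 172124) (nat_lit 14) (.e (nat_lit 491570) (nat_lit 13) (.e (nat_lit 393274) (nat_lit 23) .nil)))) (.g (nat_lit 0) (.e (nat_lit 425163) (nat_lit 0) .nil) .nil))))) (.nd (nat_lit 8) (.nd (nat_lit 9) 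
(.lf (nat_lit 602273) (.g (nat_lit 3381) (.e (nat_lit 671762) (nat_lit 4) (.e (nat_lit 65630) (nat_lit 14) (.e (nat_lit 401438) (nat_lit 9) (.e (nat_lit 426482) (nat_lit 27) (.e (nat_lit 336164) (nat_lit 10) .nil))))) (.g (nat_lit 0) (.e (nat_lit 423647) (nat_lit 0) .nil) .nil))) 
(.lf (nat_lit 602785) (.g (nat_lit 1997) (.e (nat_lit 647183) (nat_lit 4) (.e (nat_lit 172115) (nat_lit 10) (.e (nat_lit 434209) (nat_lit 18) (.e (nat_lit 5548) (nat_lit 306) (.e (nat_lit 2648) (nat_lit 166) (.e (nat_lit 188430) (nat_lit 20) (.e (nat_lit 3399) (nat_lit 211) .nil))))))) (.g (nat_lit 1) (.e (nat_lit 425009) (nat_lit 0) .nil) .nil)))) (.nd (nat_lit 9) 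
(.lf (nat_lit 602529) (.g (nat_lit 3672) (.e (nat_lit 647181) (nat_lit 3) (.e (nat_lit 163977) (nat_lit 30) (.e (nat_lit 573493) (nat_lit 15) (.e (nat_lit 81954) (nat_lit 23) (.e (nat_lit 98361) (nat_lit 26) .nil))))) (.g (nat_lit 0) (.e (nat_lit 424448) (nat_lit 0) .nil) .nil))) 
(.lf (nat_lit 603041) (.g (nat_lit 1834) (.e (nat_lit 647185) (nat_lit 6) (.e (nat_lit 188441) (nat_lit 20) (.e (nat_lit 3409) (nat_lit 212) (.e (nat_lit 655380) (nat_lit 6) (.e (nat_lit 188428) (nat_lit 20) (.e (nat_lit 3401) (nat_lit 211) .nil)))))) (.g (nat_lit 1) (.e (nat_lit 425645) (nat_lit 0) .nil) .nil)))))) (.nd (nat_lit 7) (.nd (nat_lit 8) (.nd (nat_lit 9) 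
(.lf (nat_lit 602209) (.g (nat_lit 1857) (.e (nat_lit 671760) (nat_lit 4) (.e (nat_lit 65622) (nat_lit 12) (.e (nat_lit 385105) (nat_lit 50) (.e (nat_lit 786483) (nat_lit 30) (.e (nat_lit 360486) (nat_lit 18) .nil))))) (.g (nat_lit 0) (.e (nat_lit 423575) (nat_lit 0) .nil) .nil))) 
(.lf (nat_lit 602721) (.g (nat_lit 1908) (.e (nat_lit 647183) (nat_lit 4) (.e (nat_lit 172107) (nat_lit 10) (.e (nat_lit 434272) (nat_lit 38) (.e (nat_lit 655363) (nat_lit 0) (.e (nat_lit 3015) (nat_lit 187) (.e (nat_lit 458496) (nat_lit 15) .nil)))))) (.g (nat_lit 1) (.e (nat_lit 424933) (nat_lit 0) .nil) .nil)))) (.nd (nat_lit 9) 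
(.lf (nat_lit 602465) (.g (nat_lit 4792) (.e (nat_lit 647181) (nat_lit 3) (.e (nat_lit 163977) (nat_lit 30) (.e (nat_lit 573484) (nat_lit 13) (.e (nat_lit 65610) (nat_lit 10) (.e (nat_lit 344117) (nat_lit 21) (.e (nat_lit 516151) (nat_lit 9) (.e (nat_lit 426025) (nat_lit 0) (.e (nat_lit 3399) (nat_lit 211) .nil)))))))) (.g (nat_lit 1) (.e (nat_lit 424367) (nat_lit 0) .nil) .nil))) 
(.lf (nat_lit 602977) (.g (nat_lit 3055) (.e (nat_lit 647183) (nat_lit 4) (.e (nat_lit 172126) (nat_lit 14) (.e (nat_lit 491571) (nat_lit 13) (.e (nat_lit 393266) (nat_lit 23) (.e (nat_lit 426025) (nat_lit 0) (.e (nat_lit 3397) (nat_lit 211) .nil)))))) (.g (nat_lit 1) (.e (nat_lit 425292) (nat_lit 0) .nil) .nil))))) (.nd (nat_lit 8) (.nd (nat_lit 9) 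
(.lf (nat_lit 602337) (.g (nat_lit 3168) (.e (nat_lit 647170) (nat_lit 0) (.e (nat_lit 3097) (nat_lit 192) (.e (nat_lit 491566) (nat_lit 12) (.e (nat_lit 385104) (nat_lit 50) (.e (nat_lit 786483) (nat_lit 30) (.e (nat_lit 360481) (nat_lit 15) .nil)))))) (.g (nat_lit 1) (.e (nat_lit 423940) (nat_lit 0) .nil) .nil))) 
(.lf (nat_lit 602849) (.g (nat_lit 1824) (.e (nat_lit 647183) (nat_lit 4) (.e (nat_lit 172118) (nat_lit 12) (.e (nat_lit 475211) (nat_lit 41) (.e (nat_lit 712754) (nat_lit 30) (.e (nat_lit 458496) (nat_lit 15) .nil))))) (.g (nat_lit 1) (.e (nat_lit 425079) (nat_lit 0) .nil) .nil)))) (.nd (nat_lit 9) 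
(.lf (nat_lit 602593) (.g (nat_lit 2646) (.e (nat_lit 647181) (nat_lit 3) (.e (nat_lit 163979) (nat_lit 30) (.e (nat_lit 573482) (nat_lit 13) (.e (nat_lit 65604) (nat_lit 9) (.e (nat_lit 336013) (nat_lit 2) (.e (nat_lit 90170) (nat_lit 13) (.e (nat_lit 172033) (nat_lit 0) (.e (nat_lit 3402) (nat_lit 211) .nil)))))))) (.g (nat_lit 1) (.e (nat_lit 424532) (nat_lit 0) .nil) .nil))) 
(.lf (nat_lit 603105) (.g (nat_lit 2463) (.e (nat_lit 655373) (nat_lit 3) (.e (nat_lit 163973) (nat_lit 30) (.e (nat_lit 573484) (nat_lit 13) (.e (nat_lit 65610) (nat_lit 10) (.e (nat_lit 344117) (nat_lit 21) (.e (nat_lit 516151) (nat_lit 9) (.e (nat_lit 426042) (nat_lit 0) (.e (nat_lit 3409) (nat_lit 212) .nil)))))))) (.g (nat_lit 1) (.e (nat_lit 426183) (nat_lit 0) .nil) .nil)))))))) 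
(.nd (nat_lit 5) (.nd (nat_lit 6) (.nd (nat_lit 7) (.nd (nat_lit 8) (.nd (nat_lit 9) 
(.lf (nat_lit 602129) (.g (nat_lit 546) (.e (nat_lit 663583) (nat_lit 11) (.e (nat_lit 24641) (nat_lit 10) (.e (nat_lit 344154) (nat_lit 35) .nil))) (.g (nat_lit 0) (.e (nat_lit 423226) (nat_lit 0) .nil) .nil))) 
(.lf (nat_lit 602641) (.g (nat_lit 4141) (.e (nat_lit 647181) (nat_lit 3) (.e (nat_lit 163979) (nat_lit 30) (.e (nat_lit 573493) (nat_lit 15) (.e (nat_lit 81954) (nat_lit 23) (.e (nat_lit 98359) (nat_lit 26) (.e (nat_lit 426025) (nat_lit 0) (.e (nat_lit 3399) (nat_lit 211) .nil))))))) (.g (nat_lit 1) (.e (nat_lit 424592) (nat_lit 0) .nil) .nil)))) (.nd (nat_lit 9) 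
(.lf (nat_lit 602385) (.g (nat_lit 1767) (.e (nat_lit 655104) (nat_lit 0) (.e (nat_lit 2684) (nat_lit 168) (.e (nat_lit 204862) (nat_lit 27) (.e (nat_lit 344132) (nat_lit 26) (.e (nat_lit 557103) (nat_lit 14) .nil))))) (.g (nat_lit 0) (.e (nat_lit 424211) (nat_lit 0) .nil) .nil))) 
(.lf (nat_lit 602897) (.g (nat_lit 995) (.e (nat_lit 647183) (nat_lit 4) (.e (nat_lit 172124) (nat_lit 14) (.e (nat_lit 491549) (nat_lit 9) (.e (nat_lit 336430) (nat_lit 29) .nil)))) (.g (nat_lit 0) (.e (nat_lit 425141) (nat_lit 0) .nil) .nil))))) (.nd (nat_lit 8) (.nd (nat_lit 9) 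
(.lf (nat_lit 602257) (.g (nat_lit 2576) (.e (nat_lit 671762) (nat_lit 4) (.e (nat_lit 65629) (nat_lit 14) (.e (nat_lit 401437) (nat_lit 9) (.e (nat_lit 426555) (nat_lit 32) (.e (nat_lit 376848) (nat_lit 20) .nil))))) (.g (nat_lit 0) (.e (nat_lit 423631) (nat_lit 0) .nil) .nil))) 
(.lf (nat_lit 602769) (.g (nat_lit 2734) (.e (nat_lit 647183) (nat_lit 4) (.e (nat_lit 172113) (nat_lit 10) (.e (nat_lit 434272) (nat_lit 38) (.e (nat_lit 655378) (nat_lit 4) (.e (nat_lit 172097) (nat_lit 9) (.e (nat_lit 426025) (nat_lit 0) (.e (nat_lit 3399) (nat_lit 211) .nil))))))) (.g (nat_lit 1) (.e (nat_lit 424984) (nat_lit 0) .nil) .nil)))) (.nd (nat_lit 9) 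
(.lf (nat_lit 602513) (.g (nat_lit 3923) (.e (nat_lit 647181) (nat_lit 3) (.e (nat_lit 163977) (nat_lit 30) (.e (nat_lit 573493) (nat_lit 15) (.e (nat_lit 81953) (nat_lit 22) (.e (nat_lit 90170) (nat_lit 13) (.e (nat_lit 172033) (nat_lit 0) (.e (nat_lit 3399) (nat_lit 211) .nil))))))) (.g (nat_lit 1) (.e (nat_lit 424428) (nat_lit 0) .nil) .nil))) 
(.lf (nat_lit 603025) (.g (nat_lit 484) (.e (nat_lit 647185) (nat_lit 6) (.e (nat_lit 188440) (nat_lit 20) (.e (nat_lit 3406) (nat_lit 212) .nil))) (.g (nat_lit 0) (.e (nat_lit 425600) (nat_lit 0) .nil) .nil)))))) (.nd (nat_lit 7) (.nd (nat_lit 8) (.nd (nat_lit 9) 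
(.lf (nat_lit 602193) (.g (nat_lit 1849) (.e (nat_lit 671759) (nat_lit 3) (.e (nat_lit 57478) (nat_lit 28) (.e (nat_lit 557107) (nat_lit 15) (.e (nat_lit 188452) (nat_lit 23) (.e (nat_lit 204863) (nat_lit 27) .nil))))) (.g (nat_lit 0) (.e (nat_lit 423554) (nat_lit 0) .nil) .nil))) 
(.lf (nat_lit 602705) (.g (nat_lit 2685) (.e (nat_lit 647183) (nat_lit 4) (.e (nat_lit 172106) (nat_lit 10) (.e (nat_lit 434272) (nat_lit 38) (.e (nat_lit 655364) (nat_lit 0) (.e (nat_lit 3015) (nat_lit 187) (.e (nat_lit 458496) (nat_lit 15) .nil)))))) (.g (nat_lit 1) (.e (nat_lit 424917) (nat_lit 0) .nil) .nil)))) (.nd (nat_lit 9) 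
(.lf (nat_lit 602449) (.g (nat_lit 3585) (.e (nat_lit 647181) (nat_lit 3) (.e (nat_lit 163977) (nat_lit 30) (.e (nat_lit 573482) (nat_lit 13) (.e (nat_lit 65604) (nat_lit 9) (.e (nat_lit 336013) (nat_lit 2) (.e (nat_lit 90170) (nat_lit 13) (.e (nat_lit 172033) (nat_lit 0) (.e (nat_lit 3399) (nat_lit 211) .nil)))))))) (.g (nat_lit 1) (.e (nat_lit 424351) (nat_lit 0) .nil) .nil))) 
(.lf (nat_lit 602961) (.g (nat_lit 1481) (.e (nat_lit 647183) (nat_lit 4) (.e (nat_lit 172126) (nat_lit 14) (.e (nat_lit 491550) (nat_lit 9) (.e (nat_lit 336426) (nat_lit 29) .nil)))) (.g (nat_lit 0) (.e (nat_lit 425245) (nat_lit 0) .nil) .nil))))) (.nd (nat_lit 8) (.nd (nat_lit 9) 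
(.lf (nat_lit 602321) (.g (nat_lit 1175) (.e (nat_lit 671764) (nat_lit 6) (.e (nat_lit 81959) (nat_lit 24) (.e (nat_lit 123183) (nat_lit 264) (.e (nat_lit 1224) (nat_lit 90) .nil)))) (.g (nat_lit 0) (.e (nat_lit 423700) (nat_lit 0) .nil) .nil))) 
(.lf (nat_lit 602833) (.g (nat_lit 1078) (.e (nat_lit 647183) (nat_lit 4) (.e (nat_lit 172118) (nat_lit 12) (.e (nat_lit 475198) (nat_lit 40) (.e (nat_lit 712448) (nat_lit 6) .nil)))) (.g (nat_lit 0) (.e (nat_lit 425061) (nat_lit 0) .nil) .nil)))) (.nd (nat_lit 9) 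
(.lf (nat_lit 602577) (.g (nat_lit 3578) (.e (nat_lit 647181) (nat_lit 3) (.e (nat_lit 163978) (nat_lit 30) (.e (nat_lit 573485) (nat_lit 13) (.e (nat_lit 65604) (nat_lit 9) (.e (nat_lit 336028) (nat_lit 3) (.e (nat_lit 98359) (nat_lit 26) (.e (nat_lit 426022) (nat_lit 0) (.e (nat_lit 3402) (nat_lit 211) .nil)))))))) (.g (nat_lit 1) (.e (nat_lit 424513) (nat_lit 0) .nil) .nil))) 
(.lf (nat_lit 603089) (.g (nat_lit 1407) (.e (nat_lit 655363) (nat_lit 0) (.e (nat_lit 3098) (nat_lit 192) (.e (nat_lit 491566) (nat_lit 12) (.e (nat_lit 385104) (nat_lit 50) .nil)))) (.g (nat_lit 0) (.e (nat_lit 425978) (nat_lit 0) .nil) .nil))))))) (.nd (nat_lit 6) (.nd (nat_lit 7) (.nd (nat_lit 8) (.nd (nat_lit 9) 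
(.lf (nat_lit 602161) (.g (nat_lit 1468) (.e (nat_lit 671488) (nat_lit 14) (.e (nat_lit 2797) (nat_lit 180) (.e (nat_lit 303143) (nat_lit 12) (.e (nat_lit 475207) (nat_lit 41) .nil)))) (.g (nat_lit 0) (.e (nat_lit 423505) (nat_lit 0) .nil) .nil))) 
(.lf (nat_lit 602673) (.g (nat_lit 2247) (.e (nat_lit 647183) (nat_lit 4) (.e (nat_lit 172094) (nat_lit 9) (.e (nat_lit 426025) (nat_lit 0) (.e (nat_lit 3399) (nat_lit 211) (.e (nat_lit 647185) (nat_lit 6) (.e (nat_lit 188431) (nat_lit 20) (.e (nat_lit 3399) (nat_lit 211) .nil))))))) (.g (nat_lit 1) (.e (nat_lit 424838) (nat_lit 0) .nil) .nil)))) (.nd (nat_lit 9) 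
(.lf (nat_lit 602417) (.g (nat_lit 2834) (.e (nat_lit 647180) (nat_lit 3) (.e (nat_lit 163979) (nat_lit 30) (.e (nat_lit 573482) (nat_lit 13) (.e (nat_lit 65604) (nat_lit 9) (.e (nat_lit 336028) (nat_lit 3) (.e (nat_lit 98354) (nat_lit 26) (.e (nat_lit 426025) (nat_lit 0) (.e (nat_lit 3397) (nat_lit 211) .nil)))))))) (.g (nat_lit 1) (.e (nat_lit 424283) (nat_lit 0) .nil) .nil))) 
(.lf (nat_lit 602929) (.g (nat_lit 1965) (.e (nat_lit 647183) (nat_lit 4) (.e (nat_lit 172124) (nat_lit 14) (.e (nat_lit 491571) (nat_lit 13) (.e (nat_lit 393281) (nat_lit 23) .nil)))) (.g (nat_lit 0) (.e (nat_lit 425200) (nat_lit 0) .nil) .nil))))) (.nd (nat_lit 8) (.nd (nat_lit 9) 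
(.lf (nat_lit 602289) (.g (nat_lit 2162) (.e (nat_lit 671763) (nat_lit 5) (.e (nat_lit 73781) (nat_lit 32) (.e (nat_lit 2857) (nat_lit 184) (.e (nat_lit 426542) (nat_lit 29) (.e (nat_lit 352297) (nat_lit 20) (.e (nat_lit 2003) (nat_lit 138) .nil)))))) (.g (nat_lit 1) (.e (nat_lit 423663) (nat_lit 0) .nil) .nil))) 
(.lf (nat_lit 602801) (.g (nat_lit 2445) (.e (nat_lit 647183) (nat_lit 4) (.e (nat_lit 172115) (nat_lit 10) (.e (nat_lit 434272) (nat_lit 38) (.e (nat_lit 655364) (nat_lit 0) (.e (nat_lit 3027) (nat_lit 187) (.e (nat_lit 458496) (nat_lit 15) .nil)))))) (.g (nat_lit 1) (.e (nat_lit 425027) (nat_lit 0) .nil) .nil)))) (.nd (nat_lit 9) 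
(.lf (nat_lit 602545) (.g (nat_lit 4425) (.e (nat_lit 647181) (nat_lit 3) (.e (nat_lit 163977) (nat_lit 30) (.e (nat_lit 573493) (nat_lit 15) (.e (nat_lit 81956) (nat_lit 23) (.e (nat_lit 98365) (nat_lit 26) .nil))))) (.g (nat_lit 0) (.e (nat_lit 424466) (nat_lit 0) .nil) .nil))) 
(.lf (nat_lit 603057) (.g (nat_lit 2865) (.e (nat_lit 647185) (nat_lit 6) (.e (nat_lit 188453) (nat_lit 24) (.e (nat_lit 229663) (nat_lit 240) (.e (nat_lit 2630) (nat_lit 164) (.e (nat_lit 172088) (nat_lit 9) .nil))))) (.g (nat_lit 0) (.e (nat_lit 425696) (nat_lit 0) .nil) .nil)))))) (.nd (nat_lit 7) (.nd (nat_lit 8) (.nd (nat_lit 9) 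
(.lf (nat_lit 602225) (.g (nat_lit 2668) (.e (nat_lit 671761) (nat_lit 4) (.e (nat_lit 65628) (nat_lit 14) (.e (nat_lit 401437) (nat_lit 9) (.e (nat_lit 426555) (nat_lit 32) (.e (nat_lit 376848) (nat_lit 20) .nil))))) (.g (nat_lit 0) (.e (nat_lit 423593) (nat_lit 0) .nil) .nil))) 
(.lf (nat_lit 602737) (.g (nat_lit 1838) (.e (nat_lit 647183) (nat_lit 4) (.e (nat_lit 172112) (nat_lit 10) (.e (nat_lit 434272) (nat_lit 38) (.e (nat_lit 655363) (nat_lit 0) (.e (nat_lit 3022) (nat_lit 187) (.e (nat_lit 458496) (nat_lit 15) .nil)))))) (.g (nat_lit 1) (.e (nat_lit 424950) (nat_lit 0) .nil) .nil)))) (.nd (nat_lit 9) 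
(.lf (nat_lit 602481) (.g (nat_lit 3292) (.e (nat_lit 647181) (nat_lit 3) (.e (nat_lit 163977) (nat_lit 30) (.e (nat_lit 573485) (nat_lit 13) (.e (nat_lit 65619) (nat_lit 10) (.e (nat_lit 344117) (nat_lit 21) (.e (nat_lit 516152) (nat_lit 9) (.e (nat_lit 426025) (nat_lit 0) (.e (nat_lit 3399) (nat_lit 211) .nil)))))))) (.g (nat_lit 1) (.e (nat_lit 424383) (nat_lit 0) .nil) .nil))) 
(.lf (nat_lit 602993) (.g (nat_lit 2867) (.e (nat_lit 647183) (nat_lit 4) (.e (nat_lit 172126) (nat_lit 14) (.e (nat_lit 491571) (nat_lit 13) (.e (nat_lit 393288) (nat_lit 25) (.e (nat_lit 466688) (nat_lit 37) .nil))))) (.g (nat_lit 1) (.e (nat_lit 425316) (nat_lit 0) .nil) .nil))))) (.nd (nat_lit 8) (.nd (nat_lit 9) 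
(.lf (nat_lit 602353) (.g (nat_lit 2953) (.e (nat_lit 647170) (nat_lit 0) (.e (nat_lit 3098) (nat_lit 192) (.e (nat_lit 491566) (nat_lit 12) (.e (nat_lit 385099) (nat_lit 49) .nil)))) (.g (nat_lit 0) (.e (nat_lit 423981) (nat_lit 0) .nil) .nil))) 
(.lf (nat_lit 602865) (.g (nat_lit 1300) (.e (nat_lit 647183) (nat_lit 4) (.e (nat_lit 172120) (nat_lit 12) (.e (nat_lit 475198) (nat_lit 40) (.e (nat_lit 712448) (nat_lit 6) .nil)))) (.g (nat_lit 0) (.e (nat_lit 425101) (nat_lit 0) .nil) .nil)))) (.nd (nat_lit 9) 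
(.lf (nat_lit 602609) (.g (nat_lit 4691) (.e (nat_lit 647181) (nat_lit 3) (.e (nat_lit 163979) (nat_lit 30) (.e (nat_lit 573482) (nat_lit 13) (.e (nat_lit 65619) (nat_lit 10) (.e (nat_lit 344117) (nat_lit 21) (.e (nat_lit 516151) (nat_lit 9) (.e (nat_lit 426022) (nat_lit 0) (.e (nat_lit 3402) (nat_lit 211) .nil)))))))) (.g (nat_lit 1) (.e (nat_lit 424548) (nat_lit 0) .nil) .nil))) 
(.lf (nat_lit 603121) (.g (nat_lit 2139) (.e (nat_lit 655373) (nat_lit 3) (.e (nat_lit 163978) (nat_lit 30) (.e (nat_lit 573479) (nat_lit 13) (.e (nat_lit 65619) (nat_lit 10) .nil)))) (.g (nat_lit 0) (.e (nat_lit 426224) (nat_lit 0) .nil) .nil))))))))) (.nd (nat_lit 4) (.nd (nat_lit 5) (.nd (nat_lit 6) (.nd (nat_lit 7) (.nd (nat_lit 8) (.nd (nat_lit 9) 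
(.lf (nat_lit 602121) (.g (nat_lit 2682) (.e (nat_lit 663583) (nat_lit 11) (.e (nat_lit 24617) (nat_lit 7) (.e (nat_lit 319533) (nat_lit 16) (.e (nat_lit 286724) (nat_lit 0) (.e (nat_lit 7936) (nat_lit 362) (.e (nat_lit 180264) (nat_lit 21) .nil)))))) (.g (nat_lit 1) (.e (nat_lit 423188) (nat_lit 0) .nil) .nil))) 
(.lf (nat_lit 602633) (.g (nat_lit 4079) (.e (nat_lit 647181) (nat_lit 3) (.e (nat_lit 163979) (nat_lit 30) (.e (nat_lit 573493) (nat_lit 15) (.e (nat_lit 81951) (nat_lit 22) (.e (nat_lit 90170) (nat_lit 13) (.e (nat_lit 172039) (nat_lit 0) (.e (nat_lit 3397) (nat_lit 211) .nil))))))) (.g (nat_lit 1) (.e (nat_lit 424582) (nat_lit 0) .nil) .nil)))) (.nd (nat_lit 9) 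
(.lf (nat_lit 602377) (.g (nat_lit 2725) (.e (nat_lit 647177) (nat_lit 0) (.e (nat_lit 2682) (nat_lit 168) (.e (nat_lit 204863) (nat_lit 27) (.e (nat_lit 344130) (nat_lit 26) (.e (nat_lit 557103) (nat_lit 14) .nil))))) (.g (nat_lit 0) (.e (nat_lit 424153) (nat_lit 0) .nil) .nil))) 
(.lf (nat_lit 602889) (.g (nat_lit 2756) (.e (nat_lit 647183) (nat_lit 4) (.e (nat_lit 172124) (nat_lit 14) (.e (nat_lit 491549) (nat_lit 9) (.e (nat_lit 336369) (nat_lit 27) (.e (nat_lit 426212) (nat_lit 9) (.e (nat_lit 426025) (nat_lit 0) (.e (nat_lit 3397) (nat_lit 211) .nil))))))) (.g (nat_lit 1) (.e (nat_lit 425133) (nat_lit 0) .nil) .nil))))) (.nd (nat_lit 8) (.nd (nat_lit 9) 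
(.lf (nat_lit 602249) (.g (nat_lit 1534) (.e (nat_lit 671762) (nat_lit 4) (.e (nat_lit 65628) (nat_lit 14) (.e (nat_lit 401437) (nat_lit 9) (.e (nat_lit 426509) (nat_lit 27) (.e (nat_lit 336173) (nat_lit 10) .nil))))) (.g (nat_lit 0) (.e (nat_lit 423623) (nat_lit 0) .nil) .nil))) 
(.lf (nat_lit 602761) (.g (nat_lit 2640) (.e (nat_lit 647183) (nat_lit 4) (.e (nat_lit 172113) (nat_lit 10) (.e (nat_lit 434272) (nat_lit 38) (.e (nat_lit 655364) (nat_lit 0) (.e (nat_lit 3027) (nat_lit 187) (.e (nat_lit 458496) (nat_lit 15) .nil)))))) (.g (nat_lit 1) (.e (nat_lit 424976) (nat_lit 0) .nil) .nil)))) (.nd (nat_lit 9) 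
(.lf (nat_lit 602505) (.g (nat_lit 3697) (.e (nat_lit 647181) (nat_lit 3) (.e (nat_lit 163977) (nat_lit 30) (.e (nat_lit 573492) (nat_lit 15) (.e (nat_lit 81956) (nat_lit 23) (.e (nat_lit 106240) (nat_lit 26) (.e (nat_lit 426025) (nat_lit 0) (.e (nat_lit 3399) (nat_lit 211) .nil))))))) (.g (nat_lit 1) (.e (nat_lit 424412) (nat_lit 0) .nil) .nil))) 
(.lf (nat_lit 603017) (.g (nat_lit 2030) (.e (nat_lit 647185) (nat_lit 6) (.e (nat_lit 188431) (nat_lit 20) (.e (nat_lit 3401) (nat_lit 211) (.e (nat_lit 647185) (nat_lit 6) (.e (nat_lit 188431) (nat_lit 20) (.e (nat_lit 3397) (nat_lit 211) .nil)))))) (.g (nat_lit 1) (.e (nat_lit 425561) (nat_lit 0) .nil) .nil)))))) (.nd (nat_lit 7) (.nd (nat_lit 8) (.nd (nat_lit 9) 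
(.lf (nat_lit 602185) (.g (nat_lit 2545) (.e (nat_lit 671757) (nat_lit 3) (.e (nat_lit 57478) (nat_lit 28) (.e (nat_lit 557109) (nat_lit 15) (.e (nat_lit 188452) (nat_lit 23) (.e (nat_lit 204863) (nat_lit 27) .nil))))) (.g (nat_lit 0) (.e (nat_lit 423542) (nat_lit 0) .nil) .nil))) 
(.lf (nat_lit 602697) (.g (nat_lit 2014) (.e (nat_lit 647183) (nat_lit 4) (.e (nat_lit 172106) (nat_lit 10) (.e (nat_lit 434271) (nat_lit 38) (.e (nat_lit 655363) (nat_lit 0) (.e (nat_lit 3015) (nat_lit 187) (.e (nat_lit 458496) (nat_lit 15) .nil)))))) (.g (nat_lit 1) (.e (nat_lit 424909) (nat_lit 0) .nil) .nil)))) (.nd (nat_lit 9) 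
(.lf (nat_lit 602441) (.g (nat_lit 3090) (.e (nat_lit 647180) (nat_lit 3) (.e (nat_lit 163979) (nat_lit 30) (.e (nat_lit 573493) (nat_lit 15) (.e (nat_lit 81956) (nat_lit 23) (.e (nat_lit 106240) (nat_lit 26) .nil))))) (.g (nat_lit 0) (.e (nat_lit 424326) (nat_lit 0) .nil) .nil))) 
(.lf (nat_lit 602953) (.g (nat_lit 1125) (.e (nat_lit 647183) (nat_lit 4) (.e (nat_lit 172126) (nat_lit 14) (.e (nat_lit 491549) (nat_lit 9) (.e (nat_lit 336430) (nat_lit 29) .nil)))) (.g (nat_lit 0) (.e (nat_lit 425235) (nat_lit 0) .nil) .nil))))) (.nd (nat_lit 8) (.nd (nat_lit 9) 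
(.lf (nat_lit 602313) (.g (nat_lit 1149) (.e (nat_lit 671764) (nat_lit 6) (.e (nat_lit 81938) (nat_lit 20) (.e (nat_lit 2006) (nat_lit 138) (.e (nat_lit 671764) (nat_lit 6) (.e (nat_lit 81928) (nat_lit 20) .nil))))) (.g (nat_lit 0) (.e (nat_lit 423689) (nat_lit 0) .nil) .nil))) 
(.lf (nat_lit 602825) (.g (nat_lit 2785) (.e (nat_lit 647183) (nat_lit 4) (.e (nat_lit 172116) (nat_lit 10) (.e (nat_lit 434272) (nat_lit 38) (.e (nat_lit 655378) (nat_lit 4) (.e (nat_lit 172094) (nat_lit 9) (.e (nat_lit 426025) (nat_lit 0) (.e (nat_lit 3399) (nat_lit 211) .nil))))))) (.g (nat_lit 1) (.e (nat_lit 425053) (nat_lit 0) .nil) .nil)))) (.nd (nat_lit 9) 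
(.lf (nat_lit 602569) (.g (nat_lit 3774) (.e (nat_lit 647181) (nat_lit 3) (.e (nat_lit 163978) (nat_lit 30) (.e (nat_lit 573485) (nat_lit 13) (.e (nat_lit 65604) (nat_lit 9) (.e (nat_lit 336013) (nat_lit 2) (.e (nat_lit 90170) (nat_lit 13) (.e (nat_lit 172035) (nat_lit 0) (.e (nat_lit 3399) (nat_lit 211) .nil)))))))) (.g (nat_lit 1) (.e (nat_lit 424505) (nat_lit 0) .nil) .nil))) 
(.lf (nat_lit 603081) (.g (nat_lit 982) (.e (nat_lit 647201) (nat_lit 12) (.e (nat_lit 57575) (nat_lit 55) (.e (nat_lit 778465) (nat_lit 11) (.e (nat_lit 24617) (nat_lit 7) .nil)))) (.g (nat_lit 0) (.e (nat_lit 425846) (nat_lit 0) .nil) .nil))))))) (.nd (nat_lit 6) (.nd (nat_lit 7) (.nd (nat_lit 8) (.nd (nat_lit 9) 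
(.lf (nat_lit 602153) (.g (nat_lit 3123) (.e (nat_lit 663589) (nat_lit 14) (.e (nat_lit 2797) (nat_lit 180) (.e (nat_lit 303143) (nat_lit 12) (.e (nat_lit 475211) (nat_lit 41) (.e (nat_lit 712755) (nat_lit 30) (.e (nat_lit 450596) (nat_lit 17) .nil)))))) (.g (nat_lit 1) (.e (nat_lit 423423) (nat_lit 0) .nil) .nil))) 
(.lf (nat_lit 602665) (.g (nat_lit 1513) (.e (nat_lit 647183) (nat_lit 4) (.e (nat_lit 172089) (nat_lit 9) (.e (nat_lit 426025) (nat_lit 0) (.e (nat_lit 3397) (nat_lit 211) (.e (nat_lit 647185) (nat_lit 6) (.e (nat_lit 188431) (nat_lit 20) (.e (nat_lit 3401) (nat_lit 211) .nil))))))) (.g (nat_lit 1) (.e (nat_lit 424826) (nat_lit 0) .nil) .nil)))) (.nd (nat_lit 9) 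
(.lf (nat_lit 602409) (.g (nat_lit 3685) (.e (nat_lit 647180) (nat_lit 3) (.e (nat_lit 163978) (nat_lit 30) (.e (nat_lit 573485) (nat_lit 13) (.e (nat_lit 65604) (nat_lit 9) (.e (nat_lit 336028) (nat_lit 3) (.e (nat_lit 98359) (nat_lit 26) (.e (nat_lit 426023) (nat_lit 0) (.e (nat_lit 3402) (nat_lit 211) .nil)))))))) (.g (nat_lit 1) (.e (nat_lit 424273) (nat_lit 0) .nil) .nil))) 
(.lf (nat_lit 602921) (.g (nat_lit 2397) (.e (nat_lit 647183) (nat_lit 4) (.e (nat_lit 172124) (nat_lit 14) (.e (nat_lit 491571) (nat_lit 13) (.e (nat_lit 393266) (nat_lit 23) (.e (nat_lit 426025) (nat_lit 0) (.e (nat_lit 3399) (nat_lit 211) .nil)))))) (.g (nat_lit 1) (.e (nat_lit 425189) (nat_lit 0) .nil) .nil))))) (.nd (nat_lit 8) (.nd (nat_lit 9) 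
(.lf (nat_lit 602281) (.g (nat_lit 2700) (.e (nat_lit 671762) (nat_lit 4) (.e (nat_lit 65630) (nat_lit 14) (.e (nat_lit 401457) (nat_lit 13) (.e (nat_lit 483395) (nat_lit 24) (.e (nat_lit 344167) (nat_lit 40) .nil))))) (.g (nat_lit 0) (.e (nat_lit 423655) (nat_lit 0) .nil) .nil))) 
(.lf (nat_lit 602793) (.g (nat_lit 2098) (.e (nat_lit 647183) (nat_lit 4) (.e (nat_lit 172115) (nat_lit 10) (.e (nat_lit 434271) (nat_lit 38) (.e (nat_lit 655378) (nat_lit 4) (.e (nat_lit 172089) (nat_lit 9) (.e (nat_lit 426025) (nat_lit 0) (.e (nat_lit 3397) (nat_lit 211) .nil))))))) (.g (nat_lit 1) (.e (nat_lit 425019) (nat_lit 0) .nil) .nil)))) (.nd (nat_lit 9) 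
(.lf (nat_lit 602537) (.g (nat_lit 3486) (.e (nat_lit 647181) (nat_lit 3) (.e (nat_lit 163977) (nat_lit 30) (.e (nat_lit 573493) (nat_lit 15) (.e (nat_lit 81956) (nat_lit 23) (.e (nat_lit 98360) (nat_lit 26) (.e (nat_lit 426004) (nat_lit 0) (.e (nat_lit 3397) (nat_lit 211) .nil))))))) (.g (nat_lit 1) (.e (nat_lit 424458) (nat_lit 0) .nil) .nil))) 
(.lf (nat_lit 603049) (.g (nat_lit 2592) (.e (nat_lit 647185) (nat_lit 6) (.e (nat_lit 188446) (nat_lit 21) (.e (nat_lit 164347) (nat_lit 240) (.e (nat_lit 2648) (nat_lit 166) (.e (nat_lit 188431) (nat_lit 20) (.e (nat_lit 3399) (nat_lit 211) .nil)))))) (.g (nat_lit 1) (.e (nat_lit 425682) (nat_lit 0) .nil) .nil)))))) (.nd (nat_lit 7) (.nd (nat_lit 8) (.nd (nat_lit 9) 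
(.lf (nat_lit 602217) (.g (nat_lit 1462) (.e (nat_lit 671760) (nat_lit 4) (.e (nat_lit 65630) (nat_lit 14) (.e (nat_lit 401438) (nat_lit 9) (.e (nat_lit 426555) (nat_lit 32) .nil)))) (.g (nat_lit 0) (.e (nat_lit 423585) (nat_lit 0) .nil) .nil))) 
(.lf (nat_lit 602729) (.g (nat_lit 2092) (.e (nat_lit 647183) (nat_lit 4) (.e (nat_lit 172107) (nat_lit 10) (.e (nat_lit 434272) (nat_lit 38) (.e (nat_lit 655378) (nat_lit 4) (.e (nat_lit 172089) (nat_lit 9) (.e (nat_lit 426025) (nat_lit 0) (.e (nat_lit 3397) (nat_lit 211) .nil))))))) (.g (nat_lit 1) (.e (nat_lit 424941) (nat_lit 0) .nil) .nil)))) (.nd (nat_lit 9) 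
(.lf (nat_lit 602473) (.g (nat_lit 3206) (.e (nat_lit 647181) (nat_lit 3) (.e (nat_lit 163977) (nat_lit 30) (.e (nat_lit 573485) (nat_lit 13) (.e (nat_lit 65604) (nat_lit 9) (.e (nat_lit 336028) (nat_lit 3) (.e (nat_lit 98361) (nat_lit 26) (.e (nat_lit 426025) (nat_lit 0) (.e (nat_lit 3399) (nat_lit 211) .nil)))))))) (.g (nat_lit 1) (.e (nat_lit 424375) (nat_lit 0) .nil) .nil))) 
(.lf (nat_lit 602985) (.g (nat_lit 3392) (.e (nat_lit 647183) (nat_lit 4) (.e (nat_lit 172126) (nat_lit 14) (.e (nat_lit 491571) (nat_lit 13) (.e (nat_lit 393275) (nat_lit 23) (.e (nat_lit 426025) (nat_lit 0) (.e (nat_lit 3399) (nat_lit 211) .nil)))))) (.g (nat_lit 1) (.e (nat_lit 425303) (nat_lit 0) .nil) .nil))))) (.nd (nat_lit 8) (.nd (nat_lit 9) 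
(.lf (nat_lit 602345) (.g (nat_lit 2765) (.e (nat_lit 647170) (nat_lit 0) (.e (nat_lit 3098) (nat_lit 192) (.e (nat_lit 491565) (nat_lit 12) (.e (nat_lit 385102) (nat_lit 50) (.e (nat_lit 786483) (nat_lit 30) (.e (nat_lit 368384) (nat_lit 15) .nil)))))) (.g (nat_lit 1) (.e (nat_lit 423953) (nat_lit 0) .nil) .nil))) 
(.lf (nat_lit 602857) (.g (nat_lit 2202) (.e (nat_lit 647183) (nat_lit 4) (.e (nat_lit 172119) (nat_lit 12) (.e (nat_lit 475211) (nat_lit 41) (.e (nat_lit 712755) (nat_lit 30) (.e (nat_lit 458496) (nat_lit 15) .nil))))) (.g (nat_lit 1) (.e (nat_lit 425088) (nat_lit 0) .nil) .nil)))) (.nd (nat_lit 9) 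
(.lf (nat_lit 602601) (.g (nat_lit 3755) (.e (nat_lit 647181) (nat_lit 3) (.e (nat_lit 163979) (nat_lit 30) (.e (nat_lit 573482) (nat_lit 13) (.e (nat_lit 65604) (nat_lit 9) (.e (nat_lit 336028) (nat_lit 3) (.e (nat_lit 98359) (nat_lit 26) (.e (nat_lit 426022) (nat_lit 0) (.e (nat_lit 3399) (nat_lit 211) .nil)))))))) (.g (nat_lit 1) (.e (nat_lit 424540) (nat_lit 0) .nil) .nil))) 
(.lf (nat_lit 603113) (.g (nat_lit 4107) (.e (nat_lit 655373) (nat_lit 3) (.e (nat_lit 163975) (nat_lit 30) (.e (nat_lit 573481) (nat_lit 13) (.e (nat_lit 65619) (nat_lit 10) (.e (nat_lit 344117) (nat_lit 21) (.e (nat_lit 516151) (nat_lit 9) (.e (nat_lit 426043) (nat_lit 0) (.e (nat_lit 3407) (nat_lit 212) .nil)))))))) (.g (nat_lit 1) (.e (nat_lit 426195) (nat_lit 0) .nil) .nil)))))))) 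
(.nd (nat_lit 5) (.nd (nat_lit 6) (.nd (nat_lit 7) (.nd (nat_lit 8) (.nd (nat_lit 9) 
(.lf (nat_lit 602137) (.g (nat_lit 1011) (.e (nat_lit 663584) (nat_lit 12) (.e (nat_lit 164000) (nat_lit 38) (.e (nat_lit 639020) (nat_lit 16) (.e (nat_lit 65627) (nat_lit 13) .nil)))) (.g (nat_lit 0) (.e (nat_lit 423349) (nat_lit 0) .nil) .nil))) 
(.lf (nat_lit 602649) (.g (nat_lit 3623) (.e (nat_lit 647181) (nat_lit 3) (.e (nat_lit 163979) (nat_lit 30) (.e (nat_lit 573493) (nat_lit 15) (.e (nat_lit 81956) (nat_lit 23) (.e (nat_lit 98359) (nat_lit 26) (.e (nat_lit 426023) (nat_lit 0) (.e (nat_lit 3399) (nat_lit 211) .nil))))))) (.g (nat_lit 1) (.e (nat_lit 424600) (nat_lit 0) .nil) .nil)))) (.nd (nat_lit 9) 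
(.lf (nat_lit 602393) (.g (nat_lit 2759) (.e (nat_lit 647180) (nat_lit 3) (.e (nat_lit 163976) (nat_lit 30) (.e (nat_lit 573492) (nat_lit 15) (.e (nat_lit 81956) (nat_lit 23) (.e (nat_lit 98359) (nat_lit 26) (.e (nat_lit 426023) (nat_lit 0) (.e (nat_lit 3397) (nat_lit 211) .nil))))))) (.g (nat_lit 1) (.e (nat_lit 424256) (nat_lit 0) .nil) .nil))) 
(.lf (nat_lit 602905) (.g (nat_lit 1803) (.e (nat_lit 647183) (nat_lit 4) (.e (nat_lit 172124) (nat_lit 14) (.e (nat_lit 491550) (nat_lit 9) (.e (nat_lit 336430) (nat_lit 29) (.e (nat_lit 442398) (nat_lit 20) (.e (nat_lit 3399) (nat_lit 211) .nil)))))) (.g (nat_lit 1) (.e (nat_lit 425151) (nat_lit 0) .nil) .nil))))) (.nd (nat_lit 8) (.nd (nat_lit 9) 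
(.lf (nat_lit 602265) (.g (nat_lit 2988) (.e (nat_lit 671762) (nat_lit 4) (.e (nat_lit 65630) (nat_lit 14) (.e (nat_lit 401437) (nat_lit 9) (.e (nat_lit 426538) (nat_lit 29) (.e (nat_lit 352303) (nat_lit 20) .nil))))) (.g (nat_lit 0) (.e (nat_lit 423639) (nat_lit 0) .nil) .nil))) 
(.lf (nat_lit 602777) (.g (nat_lit 2137) (.e (nat_lit 647183) (nat_lit 4) (.e (nat_lit 172115) (nat_lit 10) (.e (nat_lit 434209) (nat_lit 18) (.e (nat_lit 5546) (nat_lit 306) (.e (nat_lit 2650) (nat_lit 166) (.e (nat_lit 188427) (nat_lit 20) (.e (nat_lit 3397) (nat_lit 211) .nil))))))) (.g (nat_lit 1) (.e (nat_lit 424996) (nat_lit 0) .nil) .nil)))) (.nd (nat_lit 9) 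
(.lf (nat_lit 602521) (.g (nat_lit 3970) (.e (nat_lit 647181) (nat_lit 3) (.e (nat_lit 163977) (nat_lit 30) (.e (nat_lit 573493) (nat_lit 15) (.e (nat_lit 81954) (nat_lit 23) (.e (nat_lit 98359) (nat_lit 26) (.e (nat_lit 426022) (nat_lit 0) (.e (nat_lit 3399) (nat_lit 211) .nil))))))) (.g (nat_lit 1) (.e (nat_lit 424440) (nat_lit 0) .nil) .nil))) 
(.lf (nat_lit 603033) (.g (nat_lit 1698) (.e (nat_lit 647185) (nat_lit 6) (.e (nat_lit 188441) (nat_lit 20) (.e (nat_lit 3406) (nat_lit 212) (.e (nat_lit 655380) (nat_lit 6) (.e (nat_lit 188431) (nat_lit 20) (.e (nat_lit 3399) (nat_lit 211) .nil)))))) (.g (nat_lit 1) (.e (nat_lit 425621) (nat_lit 0) .nil) .nil)))))) (.nd (nat_lit 7) (.nd (nat_lit 8) (.nd (nat_lit 9) 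
(.lf (nat_lit 602201) (.g (nat_lit 1159) (.e (nat_lit 671759) (nat_lit 3) (.e (nat_lit 57479) (nat_lit 28) (.e (nat_lit 557107) (nat_lit 15) (.e (nat_lit 188450) (nat_lit 23) .nil)))) (.g (nat_lit 0) (.e (nat_lit 423566) (nat_lit 0) .nil) .nil))) 
(.lf (nat_lit 602713) (.g (nat_lit 2422) (.e (nat_lit 647183) (nat_lit 4) (.e (nat_lit 172106) (nat_lit 10) (.e (nat_lit 434272) (nat_lit 38) (.e (nat_lit 655378) (nat_lit 4) (.e (nat_lit 172089) (nat_lit 9) (.e (nat_lit 426025) (nat_lit 0) (.e (nat_lit 3397) (nat_lit 211) .nil))))))) (.g (nat_lit 1) (.e (nat_lit 424925) (nat_lit 0) .nil) .nil)))) (.nd (nat_lit 9) 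
(.lf (nat_lit 602457) (.g (nat_lit 4314) (.e (nat_lit 647181) (nat_lit 3) (.e (nat_lit 163977) (nat_lit 30) (.e (nat_lit 573482) (nat_lit 13) (.e (nat_lit 65619) (nat_lit 10) (.e (nat_lit 344117) (nat_lit 21) (.e (nat_lit 516151) (nat_lit 9) (.e (nat_lit 426022) (nat_lit 0) (.e (nat_lit 3401) (nat_lit 211) .nil)))))))) (.g (nat_lit 1) (.e (nat_lit 424359) (nat_lit 0) .nil) .nil))) 
(.lf (nat_lit 602969) (.g (nat_lit 1337) (.e (nat_lit 647183) (nat_lit 4) (.e (nat_lit 172126) (nat_lit 14) (.e (nat_lit 491570) (nat_lit 13) (.e (nat_lit 393274) (nat_lit 23) .nil)))) (.g (nat_lit 0) (.e (nat_lit 425258) (nat_lit 0) .nil) .nil))))) (.nd (nat_lit 8) (.nd (nat_lit 9) 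
(.lf (nat_lit 602329) (.g (nat_lit 2040) (.e (nat_lit 671780) (nat_lit 12) (.e (nat_lit 164050) (nat_lit 55) (.e (nat_lit 778466) (nat_lit 11) (.e (nat_lit 24617) (nat_lit 7) (.e (nat_lit 319533) (nat_lit 16) .nil))))) (.g (nat_lit 0) (.e (nat_lit 423750) (nat_lit 0) .nil) .nil))) 
(.lf (nat_lit 602841) (.g (nat_lit 1918) (.e (nat_lit 647183) (nat_lit 4) (.e (nat_lit 172118) (nat_lit 12) (.e (nat_lit 475210) (nat_lit 41) (.e (nat_lit 712752) (nat_lit 29) (.e (nat_lit 442396) (nat_lit 20) .nil))))) (.g (nat_lit 0) (.e (nat_lit 425070) (nat_lit 0) .nil) .nil)))) (.nd (nat_lit 9) 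
(.lf (nat_lit 602585) (.g (nat_lit 4302) (.e (nat_lit 647181) (nat_lit 3) (.e (nat_lit 163978) (nat_lit 30) (.e (nat_lit 573485) (nat_lit 13) (.e (nat_lit 65619) (nat_lit 10) (.e (nat_lit 344117) (nat_lit 21) (.e (nat_lit 516151) (nat_lit 9) (.e (nat_lit 426025) (nat_lit 0) (.e (nat_lit 3399) (nat_lit 211) .nil)))))))) (.g (nat_lit 1) (.e (nat_lit 424521) (nat_lit 0) .nil) .nil))) 
(.lf (nat_lit 603097) (.g (nat_lit 415) (.e (nat_lit 655364) (nat_lit 0) (.e (nat_lit 3016) (nat_lit 187) (.e (nat_lit 458496) (nat_lit 15) .nil))) (.g (nat_lit 0) (.e (nat_lit 426090) (nat_lit 0) .nil) .nil))))))) (.nd (nat_lit 6) (.nd (nat_lit 7) (.nd (nat_lit 8) (.nd (nat_lit 9) 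
(.lf (nat_lit 602169) (.g (nat_lit 2029) (.e (nat_lit 671746) (nat_lit 0) (.e (nat_lit 1669) (nat_lit 116) (.e (nat_lit 401454) (nat_lit 12) (.e (nat_lit 475210) (nat_lit 41) .nil)))) (.g (nat_lit 0) (.e (nat_lit 423518) (nat_lit 0) .nil) .nil))) 
(.lf (nat_lit 602681) (.g (nat_lit 1199) (.e (nat_lit 647183) (nat_lit 4) (.e (nat_lit 172097) (nat_lit 9) (.e (nat_lit 426109) (nat_lit 1) (.e (nat_lit 164347) (nat_lit 240) (.e (nat_lit 2648) (nat_lit 166) .nil))))) (.g (nat_lit 0) (.e (nat_lit 424879) (nat_lit 0) .nil) .nil)))) (.nd (nat_lit 9) 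
(.lf (nat_lit 602425) (.g (nat_lit 3409) (.e (nat_lit 647180) (nat_lit 3) (.e (nat_lit 163979) (nat_lit 30) (.e (nat_lit 573492) (nat_lit 15) (.e (nat_lit 81956) (nat_lit 23) (.e (nat_lit 98354) (nat_lit 26) .nil))))) (.g (nat_lit 0) (.e (nat_lit 424299) (nat_lit 0) .nil) .nil))) 
(.lf (nat_lit 602937) (.g (nat_lit 3086) (.e (nat_lit 647183) (nat_lit 4) (.e (nat_lit 172125) (nat_lit 14) (.e (nat_lit 491571) (nat_lit 13) (.e (nat_lit 393280) (nat_lit 23) .nil)))) (.g (nat_lit 0) (.e (nat_lit 425215) (nat_lit 0) .nil) .nil))))) (.nd (nat_lit 8) (.nd (nat_lit 9) 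
(.lf (nat_lit 602297) (.g (nat_lit 1591) (.e (nat_lit 671763) (nat_lit 5) (.e (nat_lit 73782) (nat_lit 32) (.e (nat_lit 2854) (nat_lit 184) (.e (nat_lit 426542) (nat_lit 29) (.e (nat_lit 352297) (nat_lit 20) (.e (nat_lit 2003) (nat_lit 138) .nil)))))) (.g (nat_lit 1) (.e (nat_lit 423671) (nat_lit 0) .nil) .nil))) 
(.lf (nat_lit 602809) (.g (nat_lit 1984) (.e (nat_lit 647183) (nat_lit 4) (.e (nat_lit 172116) (nat_lit 10) (.e (nat_lit 434271) (nat_lit 38) (.e (nat_lit 655363) (nat_lit 0) (.e (nat_lit 3022) (nat_lit 187) (.e (nat_lit 458496) (nat_lit 15) .nil)))))) (.g (nat_lit 1) (.e (nat_lit 425035) (nat_lit 0) .nil) .nil)))) (.nd (nat_lit 9) 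
(.lf (nat_lit 602553) (.g (nat_lit 4422) (.e (nat_lit 647181) (nat_lit 3) (.e (nat_lit 163978) (nat_lit 30) (.e (nat_lit 573479) (nat_lit 13) (.e (nat_lit 65619) (nat_lit 10) (.e (nat_lit 344117) (nat_lit 21) (.e (nat_lit 516151) (nat_lit 9) (.e (nat_lit 426022) (nat_lit 0) (.e (nat_lit 3401) (nat_lit 211) .nil)))))))) (.g (nat_lit 1) (.e (nat_lit 424489) (nat_lit 0) .nil) .nil))) 
(.lf (nat_lit 603065) (.g (nat_lit 3028) (.e (nat_lit 647185) (nat_lit 6) (.e (nat_lit 188455) (nat_lit 24) (.e (nat_lit 229663) (nat_lit 240) (.e (nat_lit 2651) (nat_lit 166) (.e (nat_lit 188431) (nat_lit 20) (.e (nat_lit 3399) (nat_lit 211) .nil)))))) (.g (nat_lit 1) (.e (nat_lit 425720) (nat_lit 0) .nil) .nil)))))) (.nd (nat_lit 7) (.nd (nat_lit 8) (.nd (nat_lit 9) 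
(.lf (nat_lit 602233) (.g (nat_lit 1704) (.e (nat_lit 671761) (nat_lit 4) (.e (nat_lit 65630) (nat_lit 14) (.e (nat_lit 401435) (nat_lit 9) (.e (nat_lit 426546) (nat_lit 30) .nil)))) (.g (nat_lit 0) (.e (nat_lit 423601) (nat_lit 0) .nil) .nil))) 
(.lf (nat_lit 602745) (.g (nat_lit 2456) (.e (nat_lit 647183) (nat_lit 4) (.e (nat_lit 172113) (nat_lit 10) (.e (nat_lit 434271) (nat_lit 38) (.e (nat_lit 655363) (nat_lit 0) (.e (nat_lit 3022) (nat_lit 187) (.e (nat_lit 458496) (nat_lit 15) .nil)))))) (.g (nat_lit 1) (.e (nat_lit 424960) (nat_lit 0) .nil) .nil)))) (.nd (nat_lit 9) 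
(.lf (nat_lit 602489) (.g (nat_lit 2936) (.e (nat_lit 647181) (nat_lit 3) (.e (nat_lit 163977) (nat_lit 30) (.e (nat_lit 573491) (nat_lit 15) (.e (nat_lit 81954) (nat_lit 23) (.e (nat_lit 98359) (nat_lit 26) (.e (nat_lit 426003) (nat_lit 0) (.e (nat_lit 3399) (nat_lit 211) .nil))))))) (.g (nat_lit 1) (.e (nat_lit 424392) (nat_lit 0) .nil) .nil))) 
(.lf (nat_lit 603001) (.g (nat_lit 1143) (.e (nat_lit 647185) (nat_lit 6) (.e (nat_lit 188417) (nat_lit 0) (.e (nat_lit 2148) (nat_lit 142) (.e (nat_lit 704597) (nat_lit 6) (.e (nat_lit 188431) (nat_lit 20) (.e (nat_lit 3397) (nat_lit 211) .nil)))))) (.g (nat_lit 1) (.e (nat_lit 425522) (nat_lit 0) .nil) .nil))))) (.nd (nat_lit 8) (.nd (nat_lit 9) 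
(.lf (nat_lit 602361) (.g (nat_lit 3693) (.e (nat_lit 647170) (nat_lit 0) (.e (nat_lit 3098) (nat_lit 192) (.e (nat_lit 491566) (nat_lit 12) (.e (nat_lit 385104) (nat_lit 50) (.e (nat_lit 786483) (nat_lit 30) (.e (nat_lit 360481) (nat_lit 15) .nil)))))) (.g (nat_lit 1) (.e (nat_lit 424002) (nat_lit 0) .nil) .nil))) 
(.lf (nat_lit 602873) (.g (nat_lit 2130) (.e (nat_lit 647183) (nat_lit 4) (.e (nat_lit 172120) (nat_lit 12) (.e (nat_lit 475210) (nat_lit 41) (.e (nat_lit 712753) (nat_lit 30) (.e (nat_lit 458496) (nat_lit 15) .nil))))) (.g (nat_lit 1) (.e (nat_lit 425112) (nat_lit 0) .nil) .nil)))) (.nd (nat_lit 9) 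
(.lf (nat_lit 602617) (.g (nat_lit 3242) (.e (nat_lit 647181) (nat_lit 3) (.e (nat_lit 163979) (nat_lit 30) (.e (nat_lit 573491) (nat_lit 15) (.e (nat_lit 81951) (nat_lit 22) (.e (nat_lit 90170) (nat_lit 13) (.e (nat_lit 172039) (nat_lit 0) (.e (nat_lit 3399) (nat_lit 211) .nil))))))) (.g (nat_lit 1) (.e (nat_lit 424557) (nat_lit 0) .nil) .nil))) 
(.lf (nat_lit 603129) (.g (nat_lit 2675) (.e (nat_lit 655373) (nat_lit 3) (.e (nat_lit 163978) (nat_lit 30) (.e (nat_lit 573485) (nat_lit 13) (.e (nat_lit 65604) (nat_lit 9) (.e (nat_lit 336013) (nat_lit 2) (.e (nat_lit 90170) (nat_lit 13) (.e (nat_lit 172042) (nat_lit 0) (.e (nat_lit 3407) (nat_lit 212) .nil)))))))) (.g (nat_lit 1) (.e (nat_lit 426233) (nat_lit 0) .nil) .nil)))))))))) 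
(.nd (nat_lit 3) (.nd (nat_lit 4) (.nd (nat_lit 5) (.nd (nat_lit 6) (.nd (nat_lit 7) 
(.nd (nat_lit 8) (.nd (nat_lit 9) 
(.lf (nat_lit 602117) (.g (nat_lit 2597) (.e (nat_lit 663583) (nat_lit 11) (.e (nat_lit 24608) (nat_lit 3) (.e (nat_lit 98373) (nat_lit 29) (.e (nat_lit 458496) (nat_lit 3) (.e (nat_lit 516106) (nat_lit 0) (.e (nat_lit 3424) (nat_lit 213) .nil)))))) (.g (nat_lit 1) (.e (nat_lit 423181) (nat_lit 0) .nil) .nil))) 
(.lf (nat_lit 602629) (.g (nat_lit 3712) (.e (nat_lit 647181) (nat_lit 3) (.e (nat_lit 163979) (nat_lit 30) (.e (nat_lit 573492) (nat_lit 15) (.e (nat_lit 81956) (nat_lit 23) (.e (nat_lit 106240) (nat_lit 26) (.e (nat_lit 426024) (nat_lit 0) (.e (nat_lit 3397) (nat_lit 211) .nil))))))) (.g (nat_lit 1) (.e (nat_lit 424576) (nat_lit 0) .nil) .nil)))) (.nd (nat_lit 9) 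
(.lf (nat_lit 602373) (.g (nat_lit 5113) (.e (nat_lit 647176) (nat_lit 0) (.e (nat_lit 2663) (nat_lit 167) (.e (nat_lit 196670) (nat_lit 14) (.e (nat_lit 73754) (nat_lit 8) (.e (nat_lit 557105) (nat_lit 14) (.e (nat_lit 180252) (nat_lit 10) (.e (nat_lit 573473) (nat_lit 12) (.e (nat_lit 57508) (nat_lit 39) .nil)))))))) (.g (nat_lit 1) (.e (nat_lit 424095) (nat_lit 0) .nil) .nil))) 
(.lf (nat_lit 602885) (.g (nat_lit 1441) (.e (nat_lit 647183) (nat_lit 4) (.e (nat_lit 172124) (nat_lit 14) (.e (nat_lit 491548) (nat_lit 9) (.e (nat_lit 336428) (nat_lit 29) (.e (nat_lit 442399) (nat_lit 20) .nil))))) (.g (nat_lit 0) (.e (nat_lit 425126) (nat_lit 0) .nil) .nil))))) (.nd (nat_lit 8) (.nd (nat_lit 9) 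
(.lf (nat_lit 602245) (.g (nat_lit 2526) (.e (nat_lit 671762) (nat_lit 4) (.e (nat_lit 65622) (nat_lit 12) (.e (nat_lit 385106) (nat_lit 50) (.e (nat_lit 786480) (nat_lit 29) (.e (nat_lit 352302) (nat_lit 20) (.e (nat_lit 2006) (nat_lit 138) .nil)))))) (.g (nat_lit 1) (.e (nat_lit 423618) (nat_lit 0) .nil) .nil))) 
(.lf (nat_lit 602757) (.g (nat_lit 2779) (.e (nat_lit 647183) (nat_lit 4) (.e (nat_lit 172113) (nat_lit 10) (.e (nat_lit 434272) (nat_lit 38) (.e (nat_lit 655364) (nat_lit 0) (.e (nat_lit 3015) (nat_lit 187) (.e (nat_lit 458496) (nat_lit 15) .nil)))))) (.g (nat_lit 1) (.e (nat_lit 424972) (nat_lit 0) .nil) .nil)))) (.nd (nat_lit 9) 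
(.lf (nat_lit 602501) (.g (nat_lit 4612) (.e (nat_lit 647181) (nat_lit 3) (.e (nat_lit 163977) (nat_lit 30) (.e (nat_lit 573492) (nat_lit 15) (.e (nat_lit 81956) (nat_lit 23) (.e (nat_lit 98361) (nat_lit 26) .nil))))) (.g (nat_lit 0) (.e (nat_lit 424408) (nat_lit 0) .nil) .nil))) 
(.lf (nat_lit 603013) (.g (nat_lit 1362) (.e (nat_lit 647185) (nat_lit 6) (.e (nat_lit 188431) (nat_lit 20) (.e (nat_lit 3399) (nat_lit 211) (.e (nat_lit 647183) (nat_lit 4) (.e (nat_lit 172089) (nat_lit 9) (.e (nat_lit 426025) (nat_lit 0) (.e (nat_lit 3397) (nat_lit 211) .nil))))))) (.g (nat_lit 1) (.e (nat_lit 425550) (nat_lit 0) .nil) .nil)))))) 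
(.nd (nat_lit 7) (.nd (nat_lit 8) (.nd (nat_lit 9) 
(.lf (nat_lit 602181) (.g (nat_lit 1376) (.e (nat_lit 671757) (nat_lit 3) (.e (nat_lit 57478) (nat_lit 28) (.e (nat_lit 557107) (nat_lit 15) (.e (nat_lit 188447) (nat_lit 22) .nil)))) (.g (nat_lit 0) (.e (nat_lit 423538) (nat_lit 0) .nil) .nil))) 
(.lf (nat_lit 602693) (.g (nat_lit 3675) (.e (nat_lit 647183) (nat_lit 4) (.e (nat_lit 172106) (nat_lit 10) (.e (nat_lit 434209) (nat_lit 18) (.e (nat_lit 5548) (nat_lit 306) (.e (nat_lit 2650) (nat_lit 166) (.e (nat_lit 188427) (nat_lit 20) (.e (nat_lit 3402) (nat_lit 211) .nil))))))) (.g (nat_lit 1) (.e (nat_lit 424904) (nat_lit 0) .nil) .nil)))) (.nd (nat_lit 9) 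
(.lf (nat_lit 602437) (.g (nat_lit 3919) (.e (nat_lit 647180) (nat_lit 3) (.e (nat_lit 163979) (nat_lit 30) (.e (nat_lit 573493) (nat_lit 15) (.e (nat_lit 81956) (nat_lit 23) (.e (nat_lit 98359) (nat_lit 26) (.e (nat_lit 426025) (nat_lit 0) (.e (nat_lit 3399) (nat_lit 211) .nil))))))) (.g (nat_lit 1) (.e (nat_lit 424322) (nat_lit 0) .nil) .nil))) 
(.lf (nat_lit 602949) (.g (nat_lit 2686) (.e (nat_lit 647183) (nat_lit 4) (.e (nat_lit 172126) (nat_lit 14) (.e (nat_lit 491549) (nat_lit 9) (.e (nat_lit 336369) (nat_lit 27) (.e (nat_lit 426212) (nat_lit 9) (.e (nat_lit 426025) (nat_lit 0) (.e (nat_lit 3397) (nat_lit 211) .nil))))))) (.g (nat_lit 1) (.e (nat_lit 425231) (nat_lit 0) .nil) .nil))))) (.nd (nat_lit 8) (.nd (nat_lit 9) 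
(.lf (nat_lit 602309) (.g (nat_lit 156) (.e (nat_lit 671764) (nat_lit 6) (.e (nat_lit 81931) (nat_lit 20) (.e (nat_lit 1996) (nat_lit 137) .nil))) (.g (nat_lit 0) (.e (nat_lit 423685) (nat_lit 0) .nil) .nil))) 
(.lf (nat_lit 602821) (.g (nat_lit 2241) (.e (nat_lit 647183) (nat_lit 4) (.e (nat_lit 172116) (nat_lit 10) (.e (nat_lit 434272) (nat_lit 38) (.e (nat_lit 655364) (nat_lit 0) (.e (nat_lit 3027) (nat_lit 187) (.e (nat_lit 458496) (nat_lit 15) .nil)))))) (.g (nat_lit 1) (.e (nat_lit 425049) (nat_lit 0) .nil) .nil)))) (.nd (nat_lit 9) 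
(.lf (nat_lit 602565) (.g (nat_lit 2700) (.e (nat_lit 647181) (nat_lit 3) (.e (nat_lit 163978) (nat_lit 30) (.e (nat_lit 573485) (nat_lit 13) (.e (nat_lit 65604) (nat_lit 9) (.e (nat_lit 336013) (nat_lit 2) (.e (nat_lit 90134) (nat_lit 9) (.e (nat_lit 2884) (nat_lit 184) (.e (nat_lit 426025) (nat_lit 0) (.e (nat_lit 3397) (nat_lit 211) .nil))))))))) (.g (nat_lit 1) (.e (nat_lit 424501) (nat_lit 0) .nil) .nil))) 
(.lf (nat_lit 603077) (.g (nat_lit 3685) (.e (nat_lit 647201) (nat_lit 12) (.e (nat_lit 57574) (nat_lit 55) (.e (nat_lit 778465) (nat_lit 11) (.e (nat_lit 24617) (nat_lit 7) (.e (nat_lit 319533) (nat_lit 16) (.e (nat_lit 286754) (nat_lit 10) (.e (nat_lit 344161) (nat_lit 37) .nil))))))) (.g (nat_lit 1) (.e (nat_lit 425842) (nat_lit 0) .nil) .nil))))))) 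
(.nd (nat_lit 6) (.nd (nat_lit 7) (.nd (nat_lit 8) (.nd (nat_lit 9) 
(.lf (nat_lit 602149) (.g (nat_lit 1610) (.e (nat_lit 663589) (nat_lit 14) (.e (nat_lit 2797) (nat_lit 180) (.e (nat_lit 303143) (nat_lit 12) (.e (nat_lit 475207) (nat_lit 41) .nil)))) (.g (nat_lit 0) (.e (nat_lit 423417) (nat_lit 0) .nil) .nil))) 
(.lf (nat_lit 602661) (.g (nat_lit 421) (.e (nat_lit 647183) (nat_lit 4) (.e (nat_lit 172082) (nat_lit 7) (.e (nat_lit 409612) (nat_lit 10) .nil))) (.g (nat_lit 0) (.e (nat_lit 424817) (nat_lit 0) .nil) .nil)))) (.nd (nat_lit 9) 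
(.lf (nat_lit 602405) (.g (nat_lit 2874) (.e (nat_lit 647180) (nat_lit 3) (.e (nat_lit 163978) (nat_lit 30) (.e (nat_lit 573485) (nat_lit 13) (.e (nat_lit 65604) (nat_lit 9) (.e (nat_lit 336028) (nat_lit 3) (.e (nat_lit 98354) (nat_lit 26) (.e (nat_lit 426025) (nat_lit 0) (.e (nat_lit 3397) (nat_lit 211) .nil)))))))) (.g (nat_lit 1) (.e (nat_lit 424269) (nat_lit 0) .nil) .nil))) 
(.lf (nat_lit 602917) (.g (nat_lit 1108) (.e (nat_lit 647183) (nat_lit 4) (.e (nat_lit 172124) (nat_lit 14) (.e (nat_lit 491570) (nat_lit 13) (.e (nat_lit 393281) (nat_lit 23) .nil)))) (.g (nat_lit 0) (.e (nat_lit 425167) (nat_lit 0) .nil) .nil))))) (.nd (nat_lit 8) (.nd (nat_lit 9) 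
(.lf (nat_lit 602277) (.g (nat_lit 2127) (.e (nat_lit 671762) (nat_lit 4) (.e (nat_lit 65630) (nat_lit 14) (.e (nat_lit 401455) (nat_lit 13) (.e (nat_lit 483394) (nat_lit 24) (.e (nat_lit 344168) (nat_lit 40) .nil))))) (.g (nat_lit 0) (.e (nat_lit 423651) (nat_lit 0) .nil) .nil))) 
(.lf (nat_lit 602789) (.g (nat_lit 414) (.e (nat_lit 647183) (nat_lit 4) (.e (nat_lit 172115) (nat_lit 10) (.e (nat_lit 434271) (nat_lit 38) .nil))) (.g (nat_lit 0) (.e (nat_lit 425015) (nat_lit 0) .nil) .nil)))) (.nd (nat_lit 9) 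
(.lf (nat_lit 602533) (.g (nat_lit 2322) (.e (nat_lit 647181) (nat_lit 3) (.e (nat_lit 163977) (nat_lit 30) (.e (nat_lit 573493) (nat_lit 15) (.e (nat_lit 81956) (nat_lit 23) (.e (nat_lit 98359) (nat_lit 26) .nil))))) (.g (nat_lit 0) (.e (nat_lit 424454) (nat_lit 0) .nil) .nil))) 
(.lf (nat_lit 603045) (.g (nat_lit 2746) (.e (nat_lit 647185) (nat_lit 6) (.e (nat_lit 188444) (nat_lit 21) (.e (nat_lit 164347) (nat_lit 240) (.e (nat_lit 2650) (nat_lit 166) (.e (nat_lit 188427) (nat_lit 20) (.e (nat_lit 3397) (nat_lit 211) .nil)))))) (.g (nat_lit 1) (.e (nat_lit 425659) (nat_lit 0) .nil) .nil)))))) (.nd (nat_lit 7) (.nd (nat_lit 8) (.nd (nat_lit 9) 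
(.lf (nat_lit 602213) (.g (nat_lit 1406) (.e (nat_lit 671760) (nat_lit 4) (.e (nat_lit 65628) (nat_lit 14) (.e (nat_lit 401457) (nat_lit 13) (.e (nat_lit 483394) (nat_lit 24) .nil)))) (.g (nat_lit 0) (.e (nat_lit 423581) (nat_lit 0) .nil) .nil))) 
(.lf (nat_lit 602725) (.g (nat_lit 2463) (.e (nat_lit 647183) (nat_lit 4) (.e (nat_lit 172107) (nat_lit 10) (.e (nat_lit 434272) (nat_lit 38) (.e (nat_lit 655364) (nat_lit 0) (.e (nat_lit 3022) (nat_lit 187) (.e (nat_lit 458496) (nat_lit 15) .nil)))))) (.g (nat_lit 1) (.e (nat_lit 424937) (nat_lit 0) .nil) .nil)))) (.nd (nat_lit 9) 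
(.lf (nat_lit 602469) (.g (nat_lit 3535) (.e (nat_lit 647181) (nat_lit 3) (.e (nat_lit 163977) (nat_lit 30) (.e (nat_lit 573485) (nat_lit 13) (.e (nat_lit 65604) (nat_lit 9) (.e (nat_lit 336013) (nat_lit 2) (.e (nat_lit 90170) (nat_lit 13) (.e (nat_lit 172033) (nat_lit 0) (.e (nat_lit 3399) (nat_lit 211) .nil)))))))) (.g (nat_lit 1) (.e (nat_lit 424371) (nat_lit 0) .nil) .nil))) 
(.lf (nat_lit 602981) (.g (nat_lit 2628) (.e (nat_lit 647183) (nat_lit 4) (.e (nat_lit 172126) (nat_lit 14) (.e (nat_lit 491571) (nat_lit 13) (.e (nat_lit 393271) (nat_lit 23) .nil)))) (.g (nat_lit 0) (.e (nat_lit 425297) (nat_lit 0) .nil) .nil))))) (.nd (nat_lit 8) (.nd (nat_lit 9) 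
(.lf (nat_lit 602341) (.g (nat_lit 2952) (.e (nat_lit 647170) (nat_lit 0) (.e (nat_lit 3097) (nat_lit 192) (.e (nat_lit 491566) (nat_lit 12) (.e (nat_lit 385105) (nat_lit 50) (.e (nat_lit 786483) (nat_lit 30) (.e (nat_lit 360481) (nat_lit 15) .nil)))))) (.g (nat_lit 1) (.e (nat_lit 423946) (nat_lit 0) .nil) .nil))) 
(.lf (nat_lit 602853) (.g (nat_lit 2307) (.e (nat_lit 647183) (nat_lit 4) (.e (nat_lit 172119) (nat_lit 12) (.e (nat_lit 475199) (nat_lit 40) (.e (nat_lit 704598) (nat_lit 6) (.e (nat_lit 188427) (nat_lit 20) (.e (nat_lit 3397) (nat_lit 211) .nil)))))) (.g (nat_lit 1) (.e (nat_lit 425083) (nat_lit 0) .nil) .nil)))) (.nd (nat_lit 9) 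
(.lf (nat_lit 602597) (.g (nat_lit 3785) (.e (nat_lit 647181) (nat_lit 3) (.e (nat_lit 163979) (nat_lit 30) (.e (nat_lit 573482) (nat_lit 13) (.e (nat_lit 65604) (nat_lit 9) (.e (nat_lit 336013) (nat_lit 2) (.e (nat_lit 90170) (nat_lit 13) (.e (nat_lit 172039) (nat_lit 0) (.e (nat_lit 3402) (nat_lit 211) .nil)))))))) (.g (nat_lit 1) (.e (nat_lit 424536) (nat_lit 0) .nil) .nil))) 
(.lf (nat_lit 603109) (.g (nat_lit 3741) (.e (nat_lit 655373) (nat_lit 3) (.e (nat_lit 163975) (nat_lit 30) (.e (nat_lit 573481) (nat_lit 13) (.e (nat_lit 65604) (nat_lit 9) (.e (nat_lit 336013) (nat_lit 2) (.e (nat_lit 90170) (nat_lit 13) (.e (nat_lit 172046) (nat_lit 0) (.e (nat_lit 3406) (nat_lit 212) .nil)))))))) (.g (nat_lit 1) (.e (nat_lit 426189) (nat_lit 0) .nil) .nil)))))))) 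
(.nd (nat_lit 5) (.nd (nat_lit 6) (.nd (nat_lit 7) (.nd (nat_lit 8) (.nd (nat_lit 9) 
(.lf (nat_lit 602133) (.g (nat_lit 1729) (.e (nat_lit 663584) (nat_lit 12) (.e (nat_lit 163978) (nat_lit 30) (.e (nat_lit 573470) (nat_lit 11) (.e (nat_lit 16465) (nat_lit 13) .nil)))) (.g (nat_lit 0) (.e (nat_lit 423308) (nat_lit 0) .nil) .nil))) 
(.lf (nat_lit 602645) (.g (nat_lit 3855) (.e (nat_lit 647181) (nat_lit 3) (.e (nat_lit 163979) (nat_lit 30) (.e (nat_lit 573493) (nat_lit 15) (.e (nat_lit 81956) (nat_lit 23) (.e (nat_lit 98359) (nat_lit 26) (.e (nat_lit 426003) (nat_lit 0) (.e (nat_lit 3397) (nat_lit 211) .nil))))))) (.g (nat_lit 1) (.e (nat_lit 424596) (nat_lit 0) .nil) .nil)))) (.nd (nat_lit 9) 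
(.lf (nat_lit 602389) (.g (nat_lit 3616) (.e (nat_lit 647180) (nat_lit 3) (.e (nat_lit 163962) (nat_lit 25) (.e (nat_lit 532544) (nat_lit 10) (.e (nat_lit 344132) (nat_lit 26) (.e (nat_lit 557105) (nat_lit 14) (.e (nat_lit 180252) (nat_lit 10) (.e (nat_lit 573473) (nat_lit 12) (.e (nat_lit 57508) (nat_lit 39) .nil)))))))) (.g (nat_lit 1) (.e (nat_lit 424240) (nat_lit 0) .nil) .nil))) 
(.lf (nat_lit 602901) (.g (nat_lit 2254) (.e (nat_lit 647183) (nat_lit 4) (.e (nat_lit 172124) (nat_lit 14) (.e (nat_lit 491549) (nat_lit 9) (.e (nat_lit 336432) (nat_lit 30) (.e (nat_lit 458496) (nat_lit 15) .nil))))) (.g (nat_lit 1) (.e (nat_lit 425146) (nat_lit 0) .nil) .nil))))) (.nd (nat_lit 8) (.nd (nat_lit 9) 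
(.lf (nat_lit 602261) (.g (nat_lit 1640) (.e (nat_lit 671762) (nat_lit 4) (.e (nat_lit 65630) (nat_lit 14) (.e (nat_lit 401435) (nat_lit 9) (.e (nat_lit 426540) (nat_lit 29) .nil)))) (.g (nat_lit 0) (.e (nat_lit 423635) (nat_lit 0) .nil) .nil))) 
(.lf (nat_lit 602773) (.g (nat_lit 2863) (.e (nat_lit 647183) (nat_lit 4) (.e (nat_lit 172115) (nat_lit 10) (.e (nat_lit 434209) (nat_lit 18) (.e (nat_lit 5546) (nat_lit 306) (.e (nat_lit 2648) (nat_lit 166) (.e (nat_lit 188431) (nat_lit 20) (.e (nat_lit 3399) (nat_lit 211) .nil))))))) (.g (nat_lit 1) (.e (nat_lit 424991) (nat_lit 0) .nil) .nil)))) (.nd (nat_lit 9) 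
(.lf (nat_lit 602517) (.g (nat_lit 3825) (.e (nat_lit 647181) (nat_lit 3) (.e (nat_lit 163977) (nat_lit 30) (.e (nat_lit 573493) (nat_lit 15) (.e (nat_lit 81954) (nat_lit 23) (.e (nat_lit 98354) (nat_lit 26) (.e (nat_lit 426025) (nat_lit 0) (.e (nat_lit 3397) (nat_lit 211) .nil))))))) (.g (nat_lit 1) (.e (nat_lit 424436) (nat_lit 0) .nil) .nil))) 
(.lf (nat_lit 603029) (.g (nat_lit 2031) (.e (nat_lit 647185) (nat_lit 6) (.e (nat_lit 188440) (nat_lit 20) (.e (nat_lit 3409) (nat_lit 212) (.e (nat_lit 655380) (nat_lit 6) (.e (nat_lit 188431) (nat_lit 20) (.e (nat_lit 3402) (nat_lit 211) .nil)))))) (.g (nat_lit 1) (.e (nat_lit 425616) (nat_lit 0) .nil) .nil)))))) (.nd (nat_lit 7) (.nd (nat_lit 8) (.nd (nat_lit 9) 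
(.lf (nat_lit 602197) (.g (nat_lit 3589) (.e (nat_lit 671759) (nat_lit 3) (.e (nat_lit 57478) (nat_lit 28) (.e (nat_lit 557109) (nat_lit 15) (.e (nat_lit 188447) (nat_lit 22) (.e (nat_lit 196666) (nat_lit 13) .nil))))) (.g (nat_lit 0) (.e (nat_lit 423558) (nat_lit 0) .nil) .nil))) 
(.lf (nat_lit 602709) (.g (nat_lit 2522) (.e (nat_lit 647183) (nat_lit 4) (.e (nat_lit 172106) (nat_lit 10) (.e (nat_lit 434272) (nat_lit 38) (.e (nat_lit 655364) (nat_lit 0) (.e (nat_lit 3027) (nat_lit 187) (.e (nat_lit 458496) (nat_lit 15) .nil)))))) (.g (nat_lit 1) (.e (nat_lit 424921) (nat_lit 0) .nil) .nil)))) (.nd (nat_lit 9) 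
(.lf (nat_lit 602453) (.g (nat_lit 2996) (.e (nat_lit 647181) (nat_lit 3) (.e (nat_lit 163977) (nat_lit 30) (.e (nat_lit 573482) (nat_lit 13) (.e (nat_lit 65604) (nat_lit 9) (.e (nat_lit 336028) (nat_lit 3) (.e (nat_lit 98362) (nat_lit 26) (.e (nat_lit 426025) (nat_lit 0) (.e (nat_lit 3397) (nat_lit 211) .nil)))))))) (.g (nat_lit 1) (.e (nat_lit 424355) (nat_lit 0) .nil) .nil))) 
(.lf (nat_lit 602965) (.g (nat_lit 1835) (.e (nat_lit 647183) (nat_lit 4) (.e (nat_lit 172126) (nat_lit 14) (.e (nat_lit 491556) (nat_lit 9) (.e (nat_lit 336429) (nat_lit 29) .nil)))) (.g (nat_lit 0) (.e (nat_lit 425251) (nat_lit 0) .nil) .nil))))) (.nd (nat_lit 8) (.nd (nat_lit 9) 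
(.lf (nat_lit 602325) (.g (nat_lit 2805) (.e (nat_lit 671779) (nat_lit 11) (.e (nat_lit 24640) (nat_lit 10) (.e (nat_lit 344156) (nat_lit 36) (.e (nat_lit 638985) (nat_lit 5) (.e (nat_lit 3015) (nat_lit 187) (.e (nat_lit 450598) (nat_lit 18) .nil)))))) (.g (nat_lit 1) (.e (nat_lit 423731) (nat_lit 0) .nil) .nil))) 
(.lf (nat_lit 602837) (.g (nat_lit 1133) (.e (nat_lit 647183) (nat_lit 4) (.e (nat_lit 172118) (nat_lit 12) (.e (nat_lit 475199) (nat_lit 40) (.e (nat_lit 704599) (nat_lit 6) (.e (nat_lit 188430) (nat_lit 20) .nil))))) (.g (nat_lit 0) (.e (nat_lit 425065) (nat_lit 0) .nil) .nil)))) (.nd (nat_lit 9) 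
(.lf (nat_lit 602581) (.g (nat_lit 3650) (.e (nat_lit 647181) (nat_lit 3) (.e (nat_lit 163978) (nat_lit 30) (.e (nat_lit 573485) (nat_lit 13) (.e (nat_lit 65619) (nat_lit 10) (.e (nat_lit 344117) (nat_lit 21) (.e (nat_lit 516143) (nat_lit 9) (.e (nat_lit 426025) (nat_lit 0) (.e (nat_lit 3399) (nat_lit 211) .nil)))))))) (.g (nat_lit 1) (.e (nat_lit 424517) (nat_lit 0) .nil) .nil))) 
(.lf (nat_lit 603093) (.g (nat_lit 3177) (.e (nat_lit 655364) (nat_lit 0) (.e (nat_lit 2685) (nat_lit 168) (.e (nat_lit 204862) (nat_lit 27) (.e (nat_lit 344129) (nat_lit 26) (.e (nat_lit 557097) (nat_lit 13) (.e (nat_lit 179968) (nat_lit 18) (.e (nat_lit 98325) (nat_lit 17) (.e (nat_lit 3409) (nat_lit 212) .nil)))))))) (.g (nat_lit 1) (.e (nat_lit 425982) (nat_lit 0) .nil) .nil))))))) 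
(.nd (nat_lit 6) (.nd (nat_lit 7) (.nd (nat_lit 8) (.nd (nat_lit 9) 
(.lf (nat_lit 602165) (.g (nat_lit 1051) (.e (nat_lit 671488) (nat_lit 17) (.e (nat_lit 164359) (nat_lit 246) (.e (nat_lit 3062) (nat_lit 190) (.e (nat_lit 475207) (nat_lit 41) .nil)))) (.g (nat_lit 0) (.e (nat_lit 423514) (nat_lit 0) .nil) .nil))) 
(.lf (nat_lit 602677) (.g (nat_lit 1768) (.e (nat_lit 647183) (nat_lit 4) (.e (nat_lit 172097) (nat_lit 9) (.e (nat_lit 426025) (nat_lit 0) (.e (nat_lit 3397) (nat_lit 211) (.e (nat_lit 647185) (nat_lit 6) (.e (nat_lit 188431) (nat_lit 20) (.e (nat_lit 3399) (nat_lit 211) .nil))))))) (.g (nat_lit 1) (.e (nat_lit 424864) (nat_lit 0) .nil) .nil)))) (.nd (nat_lit 9) 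
(.lf (nat_lit 602421) (.g (nat_lit 4025) (.e (nat_lit 647180) (nat_lit 3) (.e (nat_lit 163979) (nat_lit 30) (.e (nat_lit 573482) (nat_lit 13) (.e (nat_lit 65619) (nat_lit 10) (.e (nat_lit 344117) (nat_lit 21) (.e (nat_lit 516151) (nat_lit 9) (.e (nat_lit 426023) (nat_lit 0) (.e (nat_lit 3397) (nat_lit 211) .nil)))))))) (.g (nat_lit 1) (.e (nat_lit 424287) (nat_lit 0) .nil) .nil))) 
(.lf (nat_lit 602933) (.g (nat_lit 2446) (.e (nat_lit 647183) (nat_lit 4) (.e (nat_lit 172125) (nat_lit 14) (.e (nat_lit 491571) (nat_lit 13) (.e (nat_lit 393275) (nat_lit 23) .nil)))) (.g (nat_lit 0) (.e (nat_lit 425211) (nat_lit 0) .nil) .nil))))) (.nd (nat_lit 8) (.nd (nat_lit 9) 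
(.lf (nat_lit 602293) (.g (nat_lit 2390) (.e (nat_lit 671763) (nat_lit 5) (.e (nat_lit 73781) (nat_lit 32) (.e (nat_lit 3090) (nat_lit 191) (.e (nat_lit 483394) (nat_lit 24) (.e (nat_lit 344168) (nat_lit 40) .nil))))) (.g (nat_lit 1) (.e (nat_lit 423667) (nat_lit 0) .nil) .nil))) 
(.lf (nat_lit 602805) (.g (nat_lit 2208) (.e (nat_lit 647183) (nat_lit 4) (.e (nat_lit 172115) (nat_lit 10) (.e (nat_lit 434272) (nat_lit 38) (.e (nat_lit 655378) (nat_lit 4) (.e (nat_lit 172089) (nat_lit 9) (.e (nat_lit 426025) (nat_lit 0) (.e (nat_lit 3399) (nat_lit 211) .nil))))))) (.g (nat_lit 1) (.e (nat_lit 425031) (nat_lit 0) .nil) .nil)))) (.nd (nat_lit 9) 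
(.lf (nat_lit 602549) (.g (nat_lit 3469) (.e (nat_lit 647181) (nat_lit 3) (.e (nat_lit 163978) (nat_lit 30) (.e (nat_lit 573479) (nat_lit 13) (.e (nat_lit 65619) (nat_lit 10) (.e (nat_lit 344117) (nat_lit 21) (.e (nat_lit 516143) (nat_lit 9) (.e (nat_lit 426025) (nat_lit 0) (.e (nat_lit 3399) (nat_lit 211) .nil)))))))) (.g (nat_lit 1) (.e (nat_lit 424485) (nat_lit 0) .nil) .nil))) 
(.lf (nat_lit 603061) (.g (nat_lit 1589) (.e (nat_lit 647185) (nat_lit 6) (.e (nat_lit 188454) (nat_lit 24) (.e (nat_lit 229663) (nat_lit 240) (.e (nat_lit 2651) (nat_lit 166) (.e (nat_lit 188431) (nat_lit 20) .nil))))) (.g (nat_lit 0) (.e (nat_lit 425713) (nat_lit 0) .nil) .nil)))))) (.nd (nat_lit 7) (.nd (nat_lit 8) (.nd (nat_lit 9) 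
(.lf (nat_lit 602229) (.g (nat_lit 1599) (.e (nat_lit 671761) (nat_lit 4) (.e (nat_lit 65628) (nat_lit 14) (.e (nat_lit 401456) (nat_lit 13) (.e (nat_lit 483395) (nat_lit 24) .nil)))) (.g (nat_lit 0) (.e (nat_lit 423597) (nat_lit 0) .nil) .nil))) 
(.lf (nat_lit 602741) (.g (nat_lit 2195) (.e (nat_lit 647183) (nat_lit 4) (.e (nat_lit 172112) (nat_lit 10) (.e (nat_lit 434272) (nat_lit 38) (.e (nat_lit 655364) (nat_lit 0) (.e (nat_lit 3027) (nat_lit 187) (.e (nat_lit 458496) (nat_lit 15) .nil)))))) (.g (nat_lit 1) (.e (nat_lit 424954) (nat_lit 0) .nil) .nil)))) (.nd (nat_lit 9) 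
(.lf (nat_lit 602485) (.g (nat_lit 3595) (.e (nat_lit 647181) (nat_lit 3) (.e (nat_lit 163977) (nat_lit 30) (.e (nat_lit 573491) (nat_lit 15) (.e (nat_lit 81951) (nat_lit 22) (.e (nat_lit 90170) (nat_lit 13) (.e (nat_lit 172033) (nat_lit 0) (.e (nat_lit 3397) (nat_lit 211) .nil))))))) (.g (nat_lit 1) (.e (nat_lit 424387) (nat_lit 0) .nil) .nil))) 
(.lf (nat_lit 602997) (.g (nat_lit 1644) (.e (nat_lit 647183) (nat_lit 4) (.e (nat_lit 172147) (nat_lit 27) (.e (nat_lit 336186) (nat_lit 11) (.e (nat_lit 368676) (nat_lit 21) (.e (nat_lit 524032) (nat_lit 27) (.e (nat_lit 344161) (nat_lit 37) .nil)))))) (.g (nat_lit 1) (.e (nat_lit 425326) (nat_lit 0) .nil) .nil))))) (.nd (nat_lit 8) (.nd (nat_lit 9) 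
(.lf (nat_lit 602357) (.g (nat_lit 1600) (.e (nat_lit 647170) (nat_lit 0) (.e (nat_lit 3098) (nat_lit 192) (.e (nat_lit 491566) (nat_lit 12) (.e (nat_lit 385104) (nat_lit 50) .nil)))) (.g (nat_lit 0) (.e (nat_lit 423991) (nat_lit 0) .nil) .nil))) 
(.lf (nat_lit 602869) (.g (nat_lit 1712) (.e (nat_lit 647183) (nat_lit 4) (.e (nat_lit 172120) (nat_lit 12) (.e (nat_lit 475199) (nat_lit 40) (.e (nat_lit 704599) (nat_lit 6) (.e (nat_lit 188430) (nat_lit 20) .nil))))) (.g (nat_lit 0) (.e (nat_lit 425107) (nat_lit 0) .nil) .nil)))) (.nd (nat_lit 9) 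
(.lf (nat_lit 602613) (.g (nat_lit 2660) (.e (nat_lit 647181) (nat_lit 3) (.e (nat_lit 163979) (nat_lit 30) (.e (nat_lit 573482) (nat_lit 13) (.e (nat_lit 65619) (nat_lit 10) (.e (nat_lit 344117) (nat_lit 21) (.e (nat_lit 516153) (nat_lit 9) (.e (nat_lit 426025) (nat_lit 0) (.e (nat_lit 3399) (nat_lit 211) .nil)))))))) (.g (nat_lit 1) (.e (nat_lit 424552) (nat_lit 0) .nil) .nil))) 
(.lf (nat_lit 603125) (.g (nat_lit 3426) (.e (nat_lit 655373) (nat_lit 3) (.e (nat_lit 163978) (nat_lit 30) (.e (nat_lit 573479) (nat_lit 13) (.e (nat_lit 65619) (nat_lit 10) (.e (nat_lit 344117) (nat_lit 21) (.e (nat_lit 516151) (nat_lit 9) (.e (nat_lit 426043) (nat_lit 0) (.e (nat_lit 3409) (nat_lit 212) .nil)))))))) (.g (nat_lit 1) (.e (nat_lit 426228) (nat_lit 0) .nil) .nil))))))))) 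
(.nd (nat_lit 4) (.nd (nat_lit 5) (.nd (nat_lit 6) (.nd (nat_lit 7) (.nd (nat_lit 8) 
(.nd (nat_lit 9) 
(.lf (nat_lit 602125) (.g (nat_lit 2308) (.e (nat_lit 663583) (nat_lit 11) (.e (nat_lit 24617) (nat_lit 7) (.e (nat_lit 319534) (nat_lit 16) (.e (nat_lit 286728) (nat_lit 0) (.e (nat_lit 7936) (nat_lit 362) .nil))))) (.g (nat_lit 0) (.e (nat_lit 423192) (nat_lit 0) .nil) .nil))) 
(.lf (nat_lit 602637) (.g (nat_lit 3400) (.e (nat_lit 647181) (nat_lit 3) (.e (nat_lit 163979) (nat_lit 30) (.e (nat_lit 573493) (nat_lit 15) (.e (nat_lit 81953) (nat_lit 22) (.e (nat_lit 90170) (nat_lit 13) (.e (nat_lit 172035) (nat_lit 0) (.e (nat_lit 3399) (nat_lit 211) .nil))))))) (.g (nat_lit 1) (.e (nat_lit 424587) (nat_lit 0) .nil) .nil)))) (.nd (nat_lit 9) 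
(.lf (nat_lit 602381) (.g (nat_lit 2247) (.e (nat_lit 647177) (nat_lit 0) (.e (nat_lit 2682) (nat_lit 168) (.e (nat_lit 204863) (nat_lit 27) (.e (nat_lit 344132) (nat_lit 26) (.e (nat_lit 557105) (nat_lit 14) .nil))))) (.g (nat_lit 0) (.e (nat_lit 424157) (nat_lit 0) .nil) .nil))) 
(.lf (nat_lit 602893) (.g (nat_lit 2777) (.e (nat_lit 647183) (nat_lit 4) (.e (nat_lit 172124) (nat_lit 14) (.e (nat_lit 491549) (nat_lit 9) (.e (nat_lit 336395) (nat_lit 27) (.e (nat_lit 426212) (nat_lit 9) (.e (nat_lit 426025) (nat_lit 0) (.e (nat_lit 3397) (nat_lit 211) .nil))))))) (.g (nat_lit 1) (.e (nat_lit 425137) (nat_lit 0) .nil) .nil))))) (.nd (nat_lit 8) (.nd (nat_lit 9) 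
(.lf (nat_lit 602253) (.g (nat_lit 1899) (.e (nat_lit 671762) (nat_lit 4) (.e (nat_lit 65628) (nat_lit 14) (.e (nat_lit 401456) (nat_lit 13) (.e (nat_lit 483394) (nat_lit 24) .nil)))) (.g (nat_lit 0) (.e (nat_lit 423627) (nat_lit 0) .nil) .nil))) 
(.lf (nat_lit 602765) (.g (nat_lit 2476) (.e (nat_lit 647183) (nat_lit 4) (.e (nat_lit 172113) (nat_lit 10) (.e (nat_lit 434272) (nat_lit 38) (.e (nat_lit 655378) (nat_lit 4) (.e (nat_lit 172089) (nat_lit 9) (.e (nat_lit 426025) (nat_lit 0) (.e (nat_lit 3399) (nat_lit 211) .nil))))))) (.g (nat_lit 1) (.e (nat_lit 424980) (nat_lit 0) .nil) .nil)))) (.nd (nat_lit 9) 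
(.lf (nat_lit 602509) (.g (nat_lit 3816) (.e (nat_lit 647181) (nat_lit 3) (.e (nat_lit 163977) (nat_lit 30) (.e (nat_lit 573493) (nat_lit 15) (.e (nat_lit 81953) (nat_lit 22) (.e (nat_lit 90166) (nat_lit 13) .nil))))) (.g (nat_lit 0) (.e (nat_lit 424424) (nat_lit 0) .nil) .nil))) 
(.lf (nat_lit 603021) (.g (nat_lit 1726) (.e (nat_lit 647185) (nat_lit 6) (.e (nat_lit 188435) (nat_lit 20) (.e (nat_lit 3409) (nat_lit 212) (.e (nat_lit 655380) (nat_lit 6) (.e (nat_lit 188431) (nat_lit 20) (.e (nat_lit 3402) (nat_lit 211) .nil)))))) (.g (nat_lit 1) (.e (nat_lit 425578) (nat_lit 0) .nil) .nil)))))) (.nd (nat_lit 7) (.nd (nat_lit 8) (.nd (nat_lit 9) 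
(.lf (nat_lit 602189) (.g (nat_lit 2056) (.e (nat_lit 671759) (nat_lit 3) (.e (nat_lit 57478) (nat_lit 28) (.e (nat_lit 557100) (nat_lit 13) (.e (nat_lit 172113) (nat_lit 10) .nil)))) (.g (nat_lit 0) (.e (nat_lit 423550) (nat_lit 0) .nil) .nil))) 
(.lf (nat_lit 602701) (.g (nat_lit 1827) (.e (nat_lit 647183) (nat_lit 4) (.e (nat_lit 172106) (nat_lit 10) (.e (nat_lit 434271) (nat_lit 38) (.e (nat_lit 655378) (nat_lit 4) (.e (nat_lit 172089) (nat_lit 9) (.e (nat_lit 426025) (nat_lit 0) (.e (nat_lit 3399) (nat_lit 211) .nil))))))) (.g (nat_lit 1) (.e (nat_lit 424913) (nat_lit 0) .nil) .nil)))) (.nd (nat_lit 9) 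
(.lf (nat_lit 602445) (.g (nat_lit 3028) (.e (nat_lit 647181) (nat_lit 3) (.e (nat_lit 163977) (nat_lit 30) (.e (nat_lit 573481) (nat_lit 13) (.e (nat_lit 65619) (nat_lit 10) (.e (nat_lit 344117) (nat_lit 21) (.e (nat_lit 516151) (nat_lit 9) (.e (nat_lit 426022) (nat_lit 0) (.e (nat_lit 3402) (nat_lit 211) .nil)))))))) (.g (nat_lit 1) (.e (nat_lit 424347) (nat_lit 0) .nil) .nil))) 
(.lf (nat_lit 602957) (.g (nat_lit 2347) (.e (nat_lit 647183) (nat_lit 4) (.e (nat_lit 172126) (nat_lit 14) (.e (nat_lit 491549) (nat_lit 9) (.e (nat_lit 336432) (nat_lit 30) (.e (nat_lit 458496) (nat_lit 15) .nil))))) (.g (nat_lit 1) (.e (nat_lit 425240) (nat_lit 0) .nil) .nil))))) (.nd (nat_lit 8) (.nd (nat_lit 9) 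
(.lf (nat_lit 602317) (.g (nat_lit 382) (.e (nat_lit 671764) (nat_lit 6) (.e (nat_lit 81947) (nat_lit 20) (.e (nat_lit 2005) (nat_lit 138) .nil))) (.g (nat_lit 0) (.e (nat_lit 423693) (nat_lit 0) .nil) .nil))) 
(.lf (nat_lit 602829) (.g (nat_lit 910) (.e (nat_lit 647183) (nat_lit 4) (.e (nat_lit 172118) (nat_lit 12) (.e (nat_lit 475198) (nat_lit 40) (.e (nat_lit 704598) (nat_lit 6) .nil)))) (.g (nat_lit 0) (.e (nat_lit 425057) (nat_lit 0) .nil) .nil)))) (.nd (nat_lit 9) 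
(.lf (nat_lit 602573) (.g (nat_lit 2872) (.e (nat_lit 647181) (nat_lit 3) (.e (nat_lit 163978) (nat_lit 30) (.e (nat_lit 573485) (nat_lit 13) (.e (nat_lit 65604) (nat_lit 9) (.e (nat_lit 336013) (nat_lit 2) (.e (nat_lit 90170) (nat_lit 13) (.e (nat_lit 172049) (nat_lit 0) (.e (nat_lit 7936) (nat_lit 211) .nil)))))))) (.g (nat_lit 1) (.e (nat_lit 424509) (nat_lit 0) .nil) .nil))) 
(.lf (nat_lit 603085) (.g (nat_lit 4345) (.e (nat_lit 647201) (nat_lit 12) (.e (nat_lit 57540) (nat_lit 46) (.e (nat_lit 704738) (nat_lit 11) (.e (nat_lit 16425) (nat_lit 7) (.e (nat_lit 409649) (nat_lit 18) (.e (nat_lit 303132) (nat_lit 9) (.e (nat_lit 426025) (nat_lit 0) (.e (nat_lit 3397) (nat_lit 211) .nil)))))))) (.g (nat_lit 1) (.e (nat_lit 425850) (nat_lit 0) .nil) .nil))))))) 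
(.nd (nat_lit 6) (.nd (nat_lit 7) (.nd (nat_lit 8) (.nd (nat_lit 9) 
(.lf (nat_lit 602157) (.g (nat_lit 1877) (.e (nat_lit 663589) (nat_lit 14) (.e (nat_lit 2798) (nat_lit 180) (.e (nat_lit 303143) (nat_lit 12) (.e (nat_lit 475209) (nat_lit 41) .nil)))) (.g (nat_lit 0) (.e (nat_lit 423477) (nat_lit 0) .nil) .nil))) 
(.lf (nat_lit 602669) (.g (nat_lit 2732) (.e (nat_lit 647183) (nat_lit 4) (.e (nat_lit 172094) (nat_lit 9) (.e (nat_lit 426025) (nat_lit 0) (.e (nat_lit 3397) (nat_lit 211) (.e (nat_lit 647183) (nat_lit 4) (.e (nat_lit 172094) (nat_lit 9) (.e (nat_lit 426025) (nat_lit 0) (.e (nat_lit 3399) (nat_lit 211) .nil)))))))) (.g (nat_lit 1) (.e (nat_lit 424833) (nat_lit 0) .nil) .nil)))) (.nd (nat_lit 9) 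
(.lf (nat_lit 602413) (.g (nat_lit 3969) (.e (nat_lit 647180) (nat_lit 3) (.e (nat_lit 163978) (nat_lit 30) (.e (nat_lit 573485) (nat_lit 13) (.e (nat_lit 65619) (nat_lit 10) (.e (nat_lit 344117) (nat_lit 21) (.e (nat_lit 516151) (nat_lit 9) (.e (nat_lit 426023) (nat_lit 0) (.e (nat_lit 3397) (nat_lit 211) .nil)))))))) (.g (nat_lit 1) (.e (nat_lit 424277) (nat_lit 0) .nil) .nil))) 
(.lf (nat_lit 602925) (.g (nat_lit 3190) (.e (nat_lit 647183) (nat_lit 4) (.e (nat_lit 172124) (nat_lit 14) (.e (nat_lit 491571) (nat_lit 13) (.e (nat_lit 393275) (nat_lit 23) (.e (nat_lit 426025) (nat_lit 0) (.e (nat_lit 3399) (nat_lit 211) .nil)))))) (.g (nat_lit 1) (.e (nat_lit 425195) (nat_lit 0) .nil) .nil))))) (.nd (nat_lit 8) (.nd (nat_lit 9) 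
(.lf (nat_lit 602285) (.g (nat_lit 1408) (.e (nat_lit 671763) (nat_lit 5) (.e (nat_lit 73781) (nat_lit 32) (.e (nat_lit 2854) (nat_lit 184) (.e (nat_lit 426542) (nat_lit 29) (.e (nat_lit 352297) (nat_lit 20) (.e (nat_lit 2004) (nat_lit 138) .nil)))))) (.g (nat_lit 1) (.e (nat_lit 423659) (nat_lit 0) .nil) .nil))) 
(.lf (nat_lit 602797) (.g (nat_lit 2587) (.e (nat_lit 647183) (nat_lit 4) (.e (nat_lit 172115) (nat_lit 10) (.e (nat_lit 434272) (nat_lit 38) (.e (nat_lit 655364) (nat_lit 0) (.e (nat_lit 3015) (nat_lit 187) (.e (nat_lit 458496) (nat_lit 15) .nil)))))) (.g (nat_lit 1) (.e (nat_lit 425023) (nat_lit 0) .nil) .nil)))) (.nd (nat_lit 9) 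
(.lf (nat_lit 602541) (.g (nat_lit 3092) (.e (nat_lit 647181) (nat_lit 3) (.e (nat_lit 163977) (nat_lit 30) (.e (nat_lit 573493) (nat_lit 15) (.e (nat_lit 81956) (nat_lit 23) (.e (nat_lit 98360) (nat_lit 26) (.e (nat_lit 426007) (nat_lit 0) (.e (nat_lit 3401) (nat_lit 211) .nil))))))) (.g (nat_lit 1) (.e (nat_lit 424462) (nat_lit 0) .nil) .nil))) 
(.lf (nat_lit 603053) (.g (nat_lit 1245) (.e (nat_lit 647185) (nat_lit 6) (.e (nat_lit 188446) (nat_lit 21) (.e (nat_lit 164348) (nat_lit 240) (.e (nat_lit 2648) (nat_lit 166) .nil)))) (.g (nat_lit 0) (.e (nat_lit 425688) (nat_lit 0) .nil) .nil)))))) (.nd (nat_lit 7) (.nd (nat_lit 8) (.nd (nat_lit 9) 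
(.lf (nat_lit 602221) (.g (nat_lit 1810) (.e (nat_lit 671760) (nat_lit 4) (.e (nat_lit 65630) (nat_lit 14) (.e (nat_lit 401457) (nat_lit 13) (.e (nat_lit 483395) (nat_lit 24) .nil)))) (.g (nat_lit 0) (.e (nat_lit 423589) (nat_lit 0) .nil) .nil))) 
(.lf (nat_lit 602733) (.g (nat_lit 1225) (.e (nat_lit 647183) (nat_lit 4) (.e (nat_lit 172112) (nat_lit 10) (.e (nat_lit 434271) (nat_lit 38) (.e (nat_lit 655363) (nat_lit 0) (.e (nat_lit 3027) (nat_lit 187) (.e (nat_lit 458496) (nat_lit 15) .nil)))))) (.g (nat_lit 1) (.e (nat_lit 424945) (nat_lit 0) .nil) .nil)))) (.nd (nat_lit 9) 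
(.lf (nat_lit 602477) (.g (nat_lit 3665) (.e (nat_lit 647181) (nat_lit 3) (.e (nat_lit 163977) (nat_lit 30) (.e (nat_lit 573485) (nat_lit 13) (.e (nat_lit 65619) (nat_lit 10) (.e (nat_lit 344117) (nat_lit 21) (.e (nat_lit 516151) (nat_lit 9) (.e (nat_lit 426003) (nat_lit 0) (.e (nat_lit 3402) (nat_lit 211) .nil)))))))) (.g (nat_lit 1) (.e (nat_lit 424379) (nat_lit 0) .nil) .nil))) 
(.lf (nat_lit 602989) (.g (nat_lit 2157) (.e (nat_lit 647183) (nat_lit 4) (.e (nat_lit 172126) (nat_lit 14) (.e (nat_lit 491571) (nat_lit 13) (.e (nat_lit 393281) (nat_lit 23) .nil)))) (.g (nat_lit 0) (.e (nat_lit 425308) (nat_lit 0) .nil) .nil))))) (.nd (nat_lit 8) (.nd (nat_lit 9) 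
(.lf (nat_lit 602349) (.g (nat_lit 1900) (.e (nat_lit 647170) (nat_lit 0) (.e (nat_lit 3098) (nat_lit 192) (.e (nat_lit 491566) (nat_lit 12) (.e (nat_lit 385093) (nat_lit 49) .nil)))) (.g (nat_lit 0) (.e (nat_lit 423964) (nat_lit 0) .nil) .nil))) 
(.lf (nat_lit 602861) (.g (nat_lit 2934) (.e (nat_lit 647183) (nat_lit 4) (.e (nat_lit 172120) (nat_lit 12) (.e (nat_lit 475198) (nat_lit 40) (.e (nat_lit 704549) (nat_lit 0) (.e (nat_lit 3010) (nat_lit 187) (.e (nat_lit 458496) (nat_lit 15) .nil)))))) (.g (nat_lit 1) (.e (nat_lit 425095) (nat_lit 0) .nil) .nil)))) (.nd (nat_lit 9) 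
(.lf (nat_lit 602605) (.g (nat_lit 3570) (.e (nat_lit 647181) (nat_lit 3) (.e (nat_lit 163979) (nat_lit 30) (.e (nat_lit 573482) (nat_lit 13) (.e (nat_lit 65604) (nat_lit 9) (.e (nat_lit 336028) (nat_lit 3) (.e (nat_lit 98361) (nat_lit 26) (.e (nat_lit 426025) (nat_lit 0) (.e (nat_lit 3397) (nat_lit 211) .nil)))))))) (.g (nat_lit 1) (.e (nat_lit 424544) (nat_lit 0) .nil) .nil))) 
(.lf (nat_lit 603117) (.g (nat_lit 2925) (.e (nat_lit 655373) (nat_lit 3) (.e (nat_lit 163976) (nat_lit 30) (.e (nat_lit 573492) (nat_lit 15) (.e (nat_lit 81956) (nat_lit 23) (.e (nat_lit 98367) (nat_lit 27) (.e (nat_lit 434270) (nat_lit 38) .nil)))))) (.g (nat_lit 1) (.e (nat_lit 426218) (nat_lit 0) .nil) .nil)))))))) 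
(.nd (nat_lit 5) (.nd (nat_lit 6) (.nd (nat_lit 7) (.nd (nat_lit 8) (.nd (nat_lit 9) 
(.lf (nat_lit 602141) (.g (nat_lit 1268) (.e (nat_lit 663585) (nat_lit 12) (.e (nat_lit 163977) (nat_lit 30) (.e (nat_lit 573470) (nat_lit 11) (.e (nat_lit 16465) (nat_lit 13) (.e (nat_lit 491264) (nat_lit 10) .nil))))) (.g (nat_lit 0) (.e (nat_lit 423366) (nat_lit 0) .nil) .nil))) 
(.lf (nat_lit 602653) (.g (nat_lit 2281) (.e (nat_lit 647182) (nat_lit 4) (.e (nat_lit 172120) (nat_lit 12) (.e (nat_lit 475211) (nat_lit 41) (.e (nat_lit 712755) (nat_lit 30) (.e (nat_lit 458496) (nat_lit 15) .nil))))) (.g (nat_lit 0) (.e (nat_lit 424715) (nat_lit 0) .nil) .nil)))) (.nd (nat_lit 9) 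
(.lf (nat_lit 602397) (.g (nat_lit 3217) (.e (nat_lit 647180) (nat_lit 3) (.e (nat_lit 163978) (nat_lit 30) (.e (nat_lit 573479) (nat_lit 13) (.e (nat_lit 65619) (nat_lit 10) (.e (nat_lit 344117) (nat_lit 21) (.e (nat_lit 516151) (nat_lit 9) (.e (nat_lit 426022) (nat_lit 0) (.e (nat_lit 3399) (nat_lit 211) .nil)))))))) (.g (nat_lit 1) (.e (nat_lit 424261) (nat_lit 0) .nil) .nil))) 
(.lf (nat_lit 602909) (.g (nat_lit 576) (.e (nat_lit 647183) (nat_lit 4) (.e (nat_lit 172124) (nat_lit 14) (.e (nat_lit 491566) (nat_lit 12) .nil))) (.g (nat_lit 0) (.e (nat_lit 425157) (nat_lit 0) .nil) .nil))))) (.nd (nat_lit 8) (.nd (nat_lit 9) 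
(.lf (nat_lit 602269) (.g (nat_lit 2319) (.e (nat_lit 671762) (nat_lit 4) (.e (nat_lit 65630) (nat_lit 14) (.e (nat_lit 401437) (nat_lit 9) (.e (nat_lit 426542) (nat_lit 29) (.e (nat_lit 352302) (nat_lit 20) .nil))))) (.g (nat_lit 0) (.e (nat_lit 423643) (nat_lit 0) .nil) .nil))) 
(.lf (nat_lit 602781) (.g (nat_lit 2671) (.e (nat_lit 647183) (nat_lit 4) (.e (nat_lit 172115) (nat_lit 10) (.e (nat_lit 434209) (nat_lit 18) (.e (nat_lit 5547) (nat_lit 306) (.e (nat_lit 2648) (nat_lit 166) (.e (nat_lit 188431) (nat_lit 20) (.e (nat_lit 3399) (nat_lit 211) .nil))))))) (.g (nat_lit 1) (.e (nat_lit 425001) (nat_lit 0) .nil) .nil)))) (.nd (nat_lit 9) 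
(.lf (nat_lit 602525) (.g (nat_lit 3745) (.e (nat_lit 647181) (nat_lit 3) (.e (nat_lit 163977) (nat_lit 30) (.e (nat_lit 573493) (nat_lit 15) (.e (nat_lit 81954) (nat_lit 23) (.e (nat_lit 98359) (nat_lit 26) (.e (nat_lit 426023) (nat_lit 0) (.e (nat_lit 3399) (nat_lit 211) .nil))))))) (.g (nat_lit 1) (.e (nat_lit 424444) (nat_lit 0) .nil) .nil))) 
(.lf (nat_lit 603037) (.g (nat_lit 2498) (.e (nat_lit 647185) (nat_lit 6) (.e (nat_lit 188441) (nat_lit 20) (.e (nat_lit 3409) (nat_lit 212) (.e (nat_lit 655378) (nat_lit 4) (.e (nat_lit 172094) (nat_lit 9) (.e (nat_lit 426025) (nat_lit 0) (.e (nat_lit 3397) (nat_lit 211) .nil))))))) (.g (nat_lit 1) (.e (nat_lit 425641) (nat_lit 0) .nil) .nil)))))) 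
(.nd (nat_lit 7) (.nd (nat_lit 8) (.nd (nat_lit 9) 
(.lf (nat_lit 602205) (.g (nat_lit 1059) (.e (nat_lit 671760) (nat_lit 4) (.e (nat_lit 65619) (nat_lit 10) (.e (nat_lit 344169) (nat_lit 40) (.e (nat_lit 671764) (nat_lit 6) .nil)))) (.g (nat_lit 0) (.e (nat_lit 423571) (nat_lit 0) .nil) .nil))) 
(.lf (nat_lit 602717) (.g (nat_lit 1855) (.e (nat_lit 647183) (nat_lit 4) (.e (nat_lit 172107) (nat_lit 10) (.e (nat_lit 434271) (nat_lit 38) (.e (nat_lit 655363) (nat_lit 0) (.e (nat_lit 3022) (nat_lit 187) (.e (nat_lit 458496) (nat_lit 15) .nil)))))) (.g (nat_lit 1) (.e (nat_lit 424929) (nat_lit 0) .nil) .nil)))) (.nd (nat_lit 9) 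
(.lf (nat_lit 602461) (.g (nat_lit 3243) (.e (nat_lit 647181) (nat_lit 3) (.e (nat_lit 163977) (nat_lit 30) (.e (nat_lit 573482) (nat_lit 13) (.e (nat_lit 65619) (nat_lit 10) (.e (nat_lit 344117) (nat_lit 21) (.e (nat_lit 516153) (nat_lit 9) (.e (nat_lit 426025) (nat_lit 0) (.e (nat_lit 3397) (nat_lit 211) .nil)))))))) (.g (nat_lit 1) (.e (nat_lit 424363) (nat_lit 0) .nil) .nil))) 
(.lf (nat_lit 602973) (.g (nat_lit 2188) (.e (nat_lit 647183) (nat_lit 4) (.e (nat_lit 172126) (nat_lit 14) (.e (nat_lit 491570) (nat_lit 13) (.e (nat_lit 393284) (nat_lit 24) (.e (nat_lit 442112) (nat_lit 37) .nil))))) (.g (nat_lit 1) (.e (nat_lit 425264) (nat_lit 0) .nil) .nil))))) (.nd (nat_lit 8) (.nd (nat_lit 9) 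
(.lf (nat_lit 602333) (.g (nat_lit 1910) (.e (nat_lit 647170) (nat_lit 0) (.e (nat_lit 2685) (nat_lit 168) (.e (nat_lit 204863) (nat_lit 27) (.e (nat_lit 344132) (nat_lit 26) (.e (nat_lit 557103) (nat_lit 14) .nil))))) (.g (nat_lit 0) (.e (nat_lit 423814) (nat_lit 0) .nil) .nil))) 
(.lf (nat_lit 602845) (.g (nat_lit 2120) (.e (nat_lit 647183) (nat_lit 4) (.e (nat_lit 172118) (nat_lit 12) (.e (nat_lit 475211) (nat_lit 41) (.e (nat_lit 712750) (nat_lit 29) (.e (nat_lit 442399) (nat_lit 20) (.e (nat_lit 3397) (nat_lit 211) .nil)))))) (.g (nat_lit 1) (.e (nat_lit 425074) (nat_lit 0) .nil) .nil)))) (.nd (nat_lit 9) 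
(.lf (nat_lit 602589) (.g (nat_lit 805) (.e (nat_lit 647181) (nat_lit 3) (.e (nat_lit 163978) (nat_lit 30) (.e (nat_lit 573490) (nat_lit 15) .nil))) (.g (nat_lit 0) (.e (nat_lit 424525) (nat_lit 0) .nil) .nil))) 
(.lf (nat_lit 603101) (.g (nat_lit 2025) (.e (nat_lit 655364) (nat_lit 0) (.e (nat_lit 3098) (nat_lit 192) (.e (nat_lit 491566) (nat_lit 12) (.e (nat_lit 385104) (nat_lit 50) (.e (nat_lit 786481) (nat_lit 30) .nil))))) (.g (nat_lit 0) (.e (nat_lit 426155) (nat_lit 0) .nil) .nil))))))) (.nd (nat_lit 6) (.nd (nat_lit 7) (.nd (nat_lit 8) (.nd (nat_lit 9) 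
(.lf (nat_lit 602173) (.g (nat_lit 2290) (.e (nat_lit 671747) (nat_lit 0) (.e (nat_lit 1669) (nat_lit 116) (.e (nat_lit 401454) (nat_lit 12) (.e (nat_lit 475210) (nat_lit 41) (.e (nat_lit 712753) (nat_lit 30) .nil))))) (.g (nat_lit 0) (.e (nat_lit 423523) (nat_lit 0) .nil) .nil))) 
(.lf (nat_lit 602685) (.g (nat_lit 2996) (.e (nat_lit 647183) (nat_lit 4) (.e (nat_lit 172106) (nat_lit 10) (.e (nat_lit 434209) (nat_lit 18) (.e (nat_lit 5546) (nat_lit 306) (.e (nat_lit 2649) (nat_lit 166) (.e (nat_lit 188427) (nat_lit 20) (.e (nat_lit 3402) (nat_lit 211) .nil))))))) (.g (nat_lit 1) (.e (nat_lit 424889) (nat_lit 0) .nil) .nil)))) (.nd (nat_lit 9) 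
(.lf (nat_lit 602429) (.g (nat_lit 5611) (.e (nat_lit 647180) (nat_lit 3) (.e (nat_lit 163979) (nat_lit 30) (.e (nat_lit 573492) (nat_lit 15) (.e (nat_lit 81956) (nat_lit 23) (.e (nat_lit 98362) (nat_lit 26) .nil))))) (.g (nat_lit 0) (.e (nat_lit 424303) (nat_lit 0) .nil) .nil))) 
(.lf (nat_lit 602941) (.g (nat_lit 1695) (.e (nat_lit 647183) (nat_lit 4) (.e (nat_lit 172126) (nat_lit 14) (.e (nat_lit 491548) (nat_lit 9) (.e (nat_lit 336428) (nat_lit 29) (.e (nat_lit 442399) (nat_lit 20) .nil))))) (.g (nat_lit 0) (.e (nat_lit 425220) (nat_lit 0) .nil) .nil))))) (.nd (nat_lit 8) (.nd (nat_lit 9) 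
(.lf (nat_lit 602301) (.g (nat_lit 954) (.e (nat_lit 671763) (nat_lit 5) (.e (nat_lit 73782) (nat_lit 32) (.e (nat_lit 2857) (nat_lit 184) (.e (nat_lit 426542) (nat_lit 29) .nil)))) (.g (nat_lit 0) (.e (nat_lit 423675) (nat_lit 0) .nil) .nil))) 
(.lf (nat_lit 602813) (.g (nat_lit 1617) (.e (nat_lit 647183) (nat_lit 4) (.e (nat_lit 172116) (nat_lit 10) (.e (nat_lit 434271) (nat_lit 38) (.e (nat_lit 655380) (nat_lit 6) (.e (nat_lit 188430) (nat_lit 20) (.e (nat_lit 3399) (nat_lit 211) .nil)))))) (.g (nat_lit 1) (.e (nat_lit 425041) (nat_lit 0) .nil) .nil)))) (.nd (nat_lit 9) 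
(.lf (nat_lit 602557) (.g (nat_lit 3473) (.e (nat_lit 647181) (nat_lit 3) (.e (nat_lit 163978) (nat_lit 30) (.e (nat_lit 573479) (nat_lit 13) (.e (nat_lit 65619) (nat_lit 10) (.e (nat_lit 344117) (nat_lit 21) (.e (nat_lit 516151) (nat_lit 9) (.e (nat_lit 426023) (nat_lit 0) (.e (nat_lit 3402) (nat_lit 211) .nil)))))))) (.g (nat_lit 1) (.e (nat_lit 424493) (nat_lit 0) .nil) .nil))) 
(.lf (nat_lit 603069) (.g (nat_lit 1991) (.e (nat_lit 647185) (nat_lit 6) (.e (nat_lit 188455) (nat_lit 24) (.e (nat_lit 229666) (nat_lit 240) (.e (nat_lit 2651) (nat_lit 166) (.e (nat_lit 188431) (nat_lit 20) (.e (nat_lit 3397) (nat_lit 211) .nil)))))) (.g (nat_lit 1) (.e (nat_lit 425728) (nat_lit 0) .nil) .nil)))))) (.nd (nat_lit 7) (.nd (nat_lit 8) (.nd (nat_lit 9) 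
(.lf (nat_lit 602237) (.g (nat_lit 2847) (.e (nat_lit 671761) (nat_lit 4) (.e (nat_lit 65630) (nat_lit 14) (.e (nat_lit 401456) (nat_lit 13) (.e (nat_lit 483395) (nat_lit 24) (.e (nat_lit 344167) (nat_lit 40) .nil))))) (.g (nat_lit 0) (.e (nat_lit 423605) (nat_lit 0) .nil) .nil))) 
(.lf (nat_lit 602749) (.g (nat_lit 2882) (.e (nat_lit 647183) (nat_lit 4) (.e (nat_lit 172113) (nat_lit 10) (.e (nat_lit 434271) (nat_lit 38) (.e (nat_lit 655378) (nat_lit 4) (.e (nat_lit 172094) (nat_lit 9) (.e (nat_lit 426025) (nat_lit 0) (.e (nat_lit 3397) (nat_lit 211) .nil))))))) (.g (nat_lit 1) (.e (nat_lit 424964) (nat_lit 0) .nil) .nil)))) (.nd (nat_lit 9) 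
(.lf (nat_lit 602493) (.g (nat_lit 4776) (.e (nat_lit 647181) (nat_lit 3) (.e (nat_lit 163977) (nat_lit 30) (.e (nat_lit 573492) (nat_lit 15) (.e (nat_lit 81953) (nat_lit 22) (.e (nat_lit 90170) (nat_lit 13) .nil))))) (.g (nat_lit 0) (.e (nat_lit 424397) (nat_lit 0) .nil) .nil))) 
(.lf (nat_lit 603005) (.g (nat_lit 1437) (.e (nat_lit 647185) (nat_lit 6) (.e (nat_lit 188418) (nat_lit 0) (.e (nat_lit 2174) (nat_lit 143) (.e (nat_lit 712753) (nat_lit 30) (.e (nat_lit 458496) (nat_lit 15) .nil))))) (.g (nat_lit 1) (.e (nat_lit 425530) (nat_lit 0) .nil) .nil))))) (.nd (nat_lit 8) (.nd (nat_lit 9) 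
(.lf (nat_lit 602365) (.g (nat_lit 3416) (.e (nat_lit 647170) (nat_lit 0) (.e (nat_lit 3098) (nat_lit 192) (.e (nat_lit 491566) (nat_lit 12) (.e (nat_lit 385105) (nat_lit 50) (.e (nat_lit 786483) (nat_lit 30) (.e (nat_lit 360481) (nat_lit 15) .nil)))))) (.g (nat_lit 1) (.e (nat_lit 424010) (nat_lit 0) .nil) .nil))) 
(.lf (nat_lit 602877) (.g (nat_lit 2182) (.e (nat_lit 647183) (nat_lit 4) (.e (nat_lit 172120) (nat_lit 12) (.e (nat_lit 475211) (nat_lit 41) (.e (nat_lit 712750) (nat_lit 29) (.e (nat_lit 442399) (nat_lit 20) (.e (nat_lit 3399) (nat_lit 211) .nil)))))) (.g (nat_lit 1) (.e (nat_lit 425116) (nat_lit 0) .nil) .nil)))) (.nd (nat_lit 9) 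
(.lf (nat_lit 602621) (.g (nat_lit 3014) (.e (nat_lit 647181) (nat_lit 3) (.e (nat_lit 163979) (nat_lit 30) (.e (nat_lit 573491) (nat_lit 15) (.e (nat_lit 81954) (nat_lit 23) (.e (nat_lit 98359) (nat_lit 26) (.e (nat_lit 426022) (nat_lit 0) (.e (nat_lit 3399) (nat_lit 211) .nil))))))) (.g (nat_lit 1) (.e (nat_lit 424562) (nat_lit 0) .nil) .nil))) 
(.lf (nat_lit 603133) (.g (nat_lit 2037) (.e (nat_lit 655373) (nat_lit 3) (.e (nat_lit 163979) (nat_lit 30) (.e (nat_lit 573481) (nat_lit 13) (.e (nat_lit 65604) (nat_lit 9) .nil)))) (.g (nat_lit 0) (.e (nat_lit 426237) (nat_lit 0) .nil) .nil))))))))))) (.nd (nat_lit 2) (.nd (nat_lit 3) (.nd (nat_lit 4) (.nd (nat_lit 5) (.nd (nat_lit 6) (.nd (nat_lit 7) (.nd (nat_lit 8) (.nd (nat_lit 9) 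
(.lf (nat_lit 602115) (.g (nat_lit 2474) (.e (nat_lit 663583) (nat_lit 11) (.e (nat_lit 24608) (nat_lit 3) (.e (nat_lit 98372) (nat_lit 29) (.e (nat_lit 458496) (nat_lit 3) (.e (nat_lit 516106) (nat_lit 0) (.e (nat_lit 3424) (nat_lit 213) .nil)))))) (.g (nat_lit 1) (.e (nat_lit 423178) (nat_lit 0) .nil) .nil))) 
(.lf (nat_lit 602627) (.g (nat_lit 5503) (.e (nat_lit 647181) (nat_lit 3) (.e (nat_lit 163979) (nat_lit 30) (.e (nat_lit 573492) (nat_lit 15) (.e (nat_lit 81956) (nat_lit 23) (.e (nat_lit 98361) (nat_lit 26) (.e (nat_lit 426025) (nat_lit 0) (.e (nat_lit 3397) (nat_lit 211) .nil))))))) (.g (nat_lit 1) (.e (nat_lit 424574) (nat_lit 0) .nil) .nil)))) (.nd (nat_lit 9) 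
(.lf (nat_lit 602371) (.g (nat_lit 5329) (.e (nat_lit 647176) (nat_lit 0) (.e (nat_lit 2663) (nat_lit 167) (.e (nat_lit 196670) (nat_lit 14) (.e (nat_lit 73753) (nat_lit 8) (.e (nat_lit 557105) (nat_lit 14) (.e (nat_lit 180252) (nat_lit 10) (.e (nat_lit 573474) (nat_lit 12) (.e (nat_lit 57508) (nat_lit 39) .nil)))))))) (.g (nat_lit 1) (.e (nat_lit 424093) (nat_lit 0) .nil) .nil))) 
(.lf (nat_lit 602883) (.g (nat_lit 2318) (.e (nat_lit 647183) (nat_lit 4) (.e (nat_lit 172120) (nat_lit 12) (.e (nat_lit 475211) (nat_lit 41) (.e (nat_lit 712755) (nat_lit 30) (.e (nat_lit 458496) (nat_lit 15) .nil))))) (.g (nat_lit 1) (.e (nat_lit 425123) (nat_lit 0) .nil) .nil))))) (.nd (nat_lit 8) (.nd (nat_lit 9) 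
(.lf (nat_lit 602243) (.g (nat_lit 2018) (.e (nat_lit 671762) (nat_lit 4) (.e (nat_lit 65617) (nat_lit 10) (.e (nat_lit 344161) (nat_lit 37) (.e (nat_lit 647181) (nat_lit 3) (.e (nat_lit 171776) (nat_lit 192) .nil))))) (.g (nat_lit 0) (.e (nat_lit 423616) (nat_lit 0) .nil) .nil))) 
(.lf (nat_lit 602755) (.g (nat_lit 2217) (.e (nat_lit 647183) (nat_lit 4) (.e (nat_lit 172113) (nat_lit 10) (.e (nat_lit 434272) (nat_lit 38) (.e (nat_lit 655363) (nat_lit 0) (.e (nat_lit 3022) (nat_lit 187) (.e (nat_lit 458496) (nat_lit 15) .nil)))))) (.g (nat_lit 1) (.e (nat_lit 424970) (nat_lit 0) .nil) .nil)))) (.nd (nat_lit 9) 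
(.lf (nat_lit 602499) (.g (nat_lit 3490) (.e (nat_lit 647181) (nat_lit 3) (.e (nat_lit 163977) (nat_lit 30) (.e (nat_lit 573492) (nat_lit 15) (.e (nat_lit 81956) (nat_lit 23) (.e (nat_lit 98356) (nat_lit 26) (.e (nat_lit 433920) (nat_lit 0) (.e (nat_lit 3397) (nat_lit 211) .nil))))))) (.g (nat_lit 1) (.e (nat_lit 424406) (nat_lit 0) .nil) .nil))) 
(.lf (nat_lit 603011) (.g (nat_lit 899) (.e (nat_lit 647185) (nat_lit 6) (.e (nat_lit 188427) (nat_lit 20) (.e (nat_lit 3402) (nat_lit 211) (.e (nat_lit 647185) (nat_lit 6) (.e (nat_lit 188431) (nat_lit 20) .nil))))) (.g (nat_lit 0) (.e (nat_lit 425544) (nat_lit 0) .nil) .nil)))))) (.nd (nat_lit 7) (.nd (nat_lit 8) (.nd (nat_lit 9) 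
(.lf (nat_lit 602179) (.g (nat_lit 64) (.e (nat_lit 671751) (nat_lit 0) (.e (nat_lit 1524) (nat_lit 108) (.e (nat_lit 336186) (nat_lit 11) .nil))) (.g (nat_lit 0) (.e (nat_lit 423534) (nat_lit 0) .nil) .nil))) 
(.lf (nat_lit 602691) (.g (nat_lit 2145) (.e (nat_lit 647183) (nat_lit 4) (.e (nat_lit 172106) (nat_lit 10) (.e (nat_lit 434209) (nat_lit 18) (.e (nat_lit 5548) (nat_lit 306) (.e (nat_lit 2648) (nat_lit 166) (.e (nat_lit 188427) (nat_lit 20) (.e (nat_lit 3402) (nat_lit 211) .nil))))))) (.g (nat_lit 1) (.e (nat_lit 424900) (nat_lit 0) .nil) .nil)))) (.nd (nat_lit 9) 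
(.lf (nat_lit 602435) (.g (nat_lit 2334) (.e (nat_lit 647180) (nat_lit 3) (.e (nat_lit 163979) (nat_lit 30) (.e (nat_lit 573493) (nat_lit 15) (.e (nat_lit 81956) (nat_lit 23) (.e (nat_lit 98359) (nat_lit 26) .nil))))) (.g (nat_lit 0) (.e (nat_lit 424320) (nat_lit 0) .nil) .nil))) 
(.lf (nat_lit 602947) (.g (nat_lit 1881) (.e (nat_lit 647183) (nat_lit 4) (.e (nat_lit 172126) (nat_lit 14) (.e (nat_lit 491548) (nat_lit 9) (.e (nat_lit 336432) (nat_lit 30) (.e (nat_lit 458496) (nat_lit 15) .nil))))) (.g (nat_lit 1) (.e (nat_lit 425228) (nat_lit 0) .nil) .nil))))) (.nd (nat_lit 8) (.nd (nat_lit 9) 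
(.lf (nat_lit 602307) (.g (nat_lit 2512) (.e (nat_lit 671763) (nat_lit 5) (.e (nat_lit 73782) (nat_lit 32) (.e (nat_lit 3090) (nat_lit 191) (.e (nat_lit 483396) (nat_lit 24) (.e (nat_lit 344169) (nat_lit 40) .nil))))) (.g (nat_lit 1) (.e (nat_lit 423681) (nat_lit 0) .nil) .nil))) 
(.lf (nat_lit 602819) (.g (nat_lit 2504) (.e (nat_lit 647183) (nat_lit 4) (.e (nat_lit 172116) (nat_lit 10) (.e (nat_lit 434272) (nat_lit 38) (.e (nat_lit 655364) (nat_lit 0) (.e (nat_lit 3016) (nat_lit 187) (.e (nat_lit 458496) (nat_lit 15) .nil)))))) (.g (nat_lit 1) (.e (nat_lit 425047) (nat_lit 0) .nil) .nil)))) (.nd (nat_lit 9) 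
(.lf (nat_lit 602563) (.g (nat_lit 4160) (.e (nat_lit 647181) (nat_lit 3) (.e (nat_lit 163978) (nat_lit 30) (.e (nat_lit 573484) (nat_lit 13) (.e (nat_lit 65610) (nat_lit 10) (.e (nat_lit 344117) (nat_lit 21) (.e (nat_lit 516151) (nat_lit 9) (.e (nat_lit 426023) (nat_lit 0) (.e (nat_lit 3399) (nat_lit 211) .nil)))))))) (.g (nat_lit 1) (.e (nat_lit 424499) (nat_lit 0) .nil) .nil))) 
(.lf (nat_lit 603075) (.g (nat_lit 2006) (.e (nat_lit 647201) (nat_lit 12) (.e (nat_lit 57574) (nat_lit 55) (.e (nat_lit 778465) (nat_lit 11) (.e (nat_lit 24617) (nat_lit 7) .nil)))) (.g (nat_lit 0) (.e (nat_lit 425840) (nat_lit 0) .nil) .nil))))))) (.nd (nat_lit 6) (.nd (nat_lit 7) (.nd (nat_lit 8) (.nd (nat_lit 9) 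
(.lf (nat_lit 602147) (.g (nat_lit 925) (.e (nat_lit 663585) (nat_lit 12) (.e (nat_lit 164022) (nat_lit 46) (.e (nat_lit 704736) (nat_lit 11) .nil))) (.g (nat_lit 0) (.e (nat_lit 423406) (nat_lit 0) .nil) .nil))) 
(.lf (nat_lit 602659) (.g (nat_lit 1084) (.e (nat_lit 647183) (nat_lit 4) (.e (nat_lit 172080) (nat_lit 7) (.e (nat_lit 409618) (nat_lit 10) (.e (nat_lit 5364) (nat_lit 298) (.e (nat_lit 463) (nat_lit 34) .nil))))) (.g (nat_lit 0) (.e (nat_lit 424815) (nat_lit 0) .nil) .nil)))) (.nd (nat_lit 9) 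
(.lf (nat_lit 602403) (.g (nat_lit 4053) (.e (nat_lit 647180) (nat_lit 3) (.e (nat_lit 163978) (nat_lit 30) (.e (nat_lit 573485) (nat_lit 13) (.e (nat_lit 65604) (nat_lit 9) (.e (nat_lit 336013) (nat_lit 2) (.e (nat_lit 90170) (nat_lit 13) (.e (nat_lit 172035) (nat_lit 0) (.e (nat_lit 3402) (nat_lit 211) .nil)))))))) (.g (nat_lit 1) (.e (nat_lit 424267) (nat_lit 0) .nil) .nil))) 
(.lf (nat_lit 602915) (.g (nat_lit 2592) (.e (nat_lit 647183) (nat_lit 4) (.e (nat_lit 172124) (nat_lit 14) (.e (nat_lit 491570) (nat_lit 13) (.e (nat_lit 393277) (nat_lit 23) (.e (nat_lit 426025) (nat_lit 0) (.e (nat_lit 3397) (nat_lit 211) .nil)))))) (.g (nat_lit 1) (.e (nat_lit 425165) (nat_lit 0) .nil) .nil))))) (.nd (nat_lit 8) (.nd (nat_lit 9) 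
(.lf (nat_lit 602275) (.g (nat_lit 2093) (.e (nat_lit 671762) (nat_lit 4) (.e (nat_lit 65630) (nat_lit 14) (.e (nat_lit 401438) (nat_lit 9) (.e (nat_lit 426540) (nat_lit 29) .nil)))) (.g (nat_lit 0) (.e (nat_lit 423649) (nat_lit 0) .nil) .nil))) 
(.lf (nat_lit 602787) (.g (nat_lit 1909) (.e (nat_lit 647183) (nat_lit 4) (.e (nat_lit 172115) (nat_lit 10) (.e (nat_lit 434209) (nat_lit 18) (.e (nat_lit 5548) (nat_lit 306) (.e (nat_lit 2650) (nat_lit 166) (.e (nat_lit 188427) (nat_lit 20) (.e (nat_lit 3399) (nat_lit 211) .nil))))))) (.g (nat_lit 1) (.e (nat_lit 425011) (nat_lit 0) .nil) .nil)))) (.nd (nat_lit 9) 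
(.lf (nat_lit 602531) (.g (nat_lit 3733) (.e (nat_lit 647181) (nat_lit 3) (.e (nat_lit 163977) (nat_lit 30) (.e (nat_lit 573493) (nat_lit 15) (.e (nat_lit 81954) (nat_lit 23) (.e (nat_lit 98362) (nat_lit 26) (.e (nat_lit 426025) (nat_lit 0) (.e (nat_lit 3397) (nat_lit 211) .nil))))))) (.g (nat_lit 1) (.e (nat_lit 424450) (nat_lit 0) .nil) .nil))) 
(.lf (nat_lit 603043) (.g (nat_lit 1042) (.e (nat_lit 647185) (nat_lit 6) (.e (nat_lit 188444) (nat_lit 21) (.e (nat_lit 164347) (nat_lit 240) (.e (nat_lit 2648) (nat_lit 166) .nil)))) (.g (nat_lit 0) (.e (nat_lit 425657) (nat_lit 0) .nil) .nil)))))) (.nd (nat_lit 7) (.nd (nat_lit 8) (.nd (nat_lit 9) 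
(.lf (nat_lit 602211) (.g (nat_lit 1844) (.e (nat_lit 671760) (nat_lit 4) (.e (nat_lit 65622) (nat_lit 12) (.e (nat_lit 385106) (nat_lit 50) (.e (nat_lit 786483) (nat_lit 30) (.e (nat_lit 360486) (nat_lit 18) .nil))))) (.g (nat_lit 0) (.e (nat_lit 423577) (nat_lit 0) .nil) .nil))) 
(.lf (nat_lit 602723) (.g (nat_lit 2449) (.e (nat_lit 647183) (nat_lit 4) (.e (nat_lit 172107) (nat_lit 10) (.e (nat_lit 434272) (nat_lit 38) (.e (nat_lit 655364) (nat_lit 0) (.e (nat_lit 3015) (nat_lit 187) (.e (nat_lit 458496) (nat_lit 15) .nil)))))) (.g (nat_lit 1) (.e (nat_lit 424935) (nat_lit 0) .nil) .nil)))) (.nd (nat_lit 9) 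
(.lf (nat_lit 602467) (.g (nat_lit 3580) (.e (nat_lit 647181) (nat_lit 3) (.e (nat_lit 163977) (nat_lit 30) (.e (nat_lit 573485) (nat_lit 13) (.e (nat_lit 65604) (nat_lit 9) (.e (nat_lit 336013) (nat_lit 2) (.e (nat_lit 90170) (nat_lit 13) (.e (nat_lit 172032) (nat_lit 0) (.e (nat_lit 3402) (nat_lit 211) .nil)))))))) (.g (nat_lit 1) (.e (nat_lit 424369) (nat_lit 0) .nil) .nil))) 
(.lf (nat_lit 602979) (.g (nat_lit 2235) (.e (nat_lit 647183) (nat_lit 4) (.e (nat_lit 172126) (nat_lit 14) (.e (nat_lit 491571) (nat_lit 13) (.e (nat_lit 393267) (nat_lit 23) .nil)))) (.g (nat_lit 0) (.e (nat_lit 425294) (nat_lit 0) .nil) .nil))))) (.nd (nat_lit 8) (.nd (nat_lit 9) 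
(.lf (nat_lit 602339) (.g (nat_lit 2749) (.e (nat_lit 647170) (nat_lit 0) (.e (nat_lit 3097) (nat_lit 192) (.e (nat_lit 491566) (nat_lit 12) (.e (nat_lit 385105) (nat_lit 50) (.e (nat_lit 786481) (nat_lit 30) (.e (nat_lit 360481) (nat_lit 15) .nil)))))) (.g (nat_lit 1) (.e (nat_lit 423944) (nat_lit 0) .nil) .nil))) 
(.lf (nat_lit 602851) (.g (nat_lit 905) (.e (nat_lit 647183) (nat_lit 4) (.e (nat_lit 172119) (nat_lit 12) (.e (nat_lit 475198) (nat_lit 40) (.e (nat_lit 704599) (nat_lit 6) .nil)))) (.g (nat_lit 0) (.e (nat_lit 425081) (nat_lit 0) .nil) .nil)))) (.nd (nat_lit 9) 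
(.lf (nat_lit 602595) (.g (nat_lit 3837) (.e (nat_lit 647181) (nat_lit 3) (.e (nat_lit 163979) (nat_lit 30) (.e (nat_lit 573482) (nat_lit 13) (.e (nat_lit 65604) (nat_lit 9) (.e (nat_lit 336013) (nat_lit 2) (.e (nat_lit 90170) (nat_lit 13) (.e (nat_lit 172035) (nat_lit 0) (.e (nat_lit 3402) (nat_lit 211) .nil)))))))) (.g (nat_lit 1) (.e (nat_lit 424534) (nat_lit 0) .nil) .nil))) 
(.lf (nat_lit 603107) (.g (nat_lit 2381) (.e (nat_lit 655373) (nat_lit 3) (.e (nat_lit 163973) (nat_lit 30) (.e (nat_lit 573484) (nat_lit 13) (.e (nat_lit 65610) (nat_lit 10) (.e (nat_lit 344117) (nat_lit 21) (.e (nat_lit 516151) (nat_lit 9) (.e (nat_lit 426043) (nat_lit 0) (.e (nat_lit 3408) (nat_lit 212) .nil)))))))) (.g (nat_lit 1) (.e (nat_lit 426185) (nat_lit 0) .nil) .nil)))))))) 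
(.nd (nat_lit 5) (.nd (nat_lit 6) (.nd (nat_lit 7) (.nd (nat_lit 8) (.nd (nat_lit 9) 
(.lf (nat_lit 602131) (.g (nat_lit 1391) (.e (nat_lit 663584) (nat_lit 12) (.e (nat_lit 163976) (nat_lit 30) (.e (nat_lit 573469) (nat_lit 11) (.e (nat_lit 16465) (nat_lit 13) (.e (nat_lit 491264) (nat_lit 10) .nil))))) (.g (nat_lit 0) (.e (nat_lit 423301) (nat_lit 0) .nil) .nil))) 
(.lf (nat_lit 602643) (.g (nat_lit 4129) (.e (nat_lit 647181) (nat_lit 3) (.e (nat_lit 163979) (nat_lit 30) (.e (nat_lit 573493) (nat_lit 15) (.e (nat_lit 81954) (nat_lit 23) (.e (nat_lit 98359) (nat_lit 26) (.e (nat_lit 426023) (nat_lit 0) (.e (nat_lit 3401) (nat_lit 211) .nil))))))) (.g (nat_lit 1) (.e (nat_lit 424594) (nat_lit 0) .nil) .nil)))) (.nd (nat_lit 9) 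
(.lf (nat_lit 602387) (.g (nat_lit 1286) (.e (nat_lit 655104) (nat_lit 0) (.e (nat_lit 2684) (nat_lit 168) (.e (nat_lit 204863) (nat_lit 27) (.e (nat_lit 344131) (nat_lit 26) (.e (nat_lit 557105) (nat_lit 14) .nil))))) (.g (nat_lit 0) (.e (nat_lit 424213) (nat_lit 0) .nil) .nil))) 
(.lf (nat_lit 602899) (.g (nat_lit 1922) (.e (nat_lit 647183) (nat_lit 4) (.e (nat_lit 172124) (nat_lit 14) (.e (nat_lit 491549) (nat_lit 9) (.e (nat_lit 336430) (nat_lit 29) (.e (nat_lit 442398) (nat_lit 20) (.e (nat_lit 3399) (nat_lit 211) .nil)))))) (.g (nat_lit 1) (.e (nat_lit 425143) (nat_lit 0) .nil) .nil))))) (.nd (nat_lit 8) (.nd (nat_lit 9) 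
(.lf (nat_lit 602259) (.g (nat_lit 467) (.e (nat_lit 671762) (nat_lit 4) (.e (nat_lit 65629) (nat_lit 14) (.e (nat_lit 401456) (nat_lit 13) .nil))) (.g (nat_lit 0) (.e (nat_lit 423633) (nat_lit 0) .nil) .nil))) 
(.lf (nat_lit 602771) (.g (nat_lit 2881) (.e (nat_lit 647183) (nat_lit 4) (.e (nat_lit 172115) (nat_lit 10) (.e (nat_lit 434209) (nat_lit 18) (.e (nat_lit 5546) (nat_lit 306) (.e (nat_lit 2619) (nat_lit 164) (.e (nat_lit 172097) (nat_lit 9) (.e (nat_lit 426025) (nat_lit 0) (.e (nat_lit 3397) (nat_lit 211) .nil)))))))) (.g (nat_lit 1) (.e (nat_lit 424987) (nat_lit 0) .nil) .nil)))) 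
(.nd (nat_lit 9) 
(.lf (nat_lit 602515) (.g (nat_lit 3520) (.e (nat_lit 647181) (nat_lit 3) (.e (nat_lit 163977) (nat_lit 30) (.e (nat_lit 573493) (nat_lit 15) (.e (nat_lit 81953) (nat_lit 22) (.e (nat_lit 90170) (nat_lit 13) (.e (nat_lit 172033) (nat_lit 0) (.e (nat_lit 3402) (nat_lit 211) .nil))))))) (.g (nat_lit 1) (.e (nat_lit 424430) (nat_lit 0) .nil) .nil))) 
(.lf (nat_lit 603027) (.g (nat_lit 1046) (.e (nat_lit 647185) (nat_lit 6) (.e (nat_lit 188440) (nat_lit 20) (.e (nat_lit 3406) (nat_lit 212) (.e (nat_lit 655380) (nat_lit 6) (.e (nat_lit 188427) (nat_lit 20) .nil))))) (.g (nat_lit 0) (.e (nat_lit 425602) (nat_lit 0) .nil) .nil)))))) (.nd (nat_lit 7) (.nd (nat_lit 8) (.nd (nat_lit 9) 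
(.lf (nat_lit 602195) (.g (nat_lit 2154) (.e (nat_lit 671759) (nat_lit 3) (.e (nat_lit 57478) (nat_lit 28) (.e (nat_lit 557108) (nat_lit 15) (.e (nat_lit 188450) (nat_lit 23) .nil)))) (.g (nat_lit 0) (.e (nat_lit 423556) (nat_lit 0) .nil) .nil))) 
(.lf (nat_lit 602707) (.g (nat_lit 1843) (.e (nat_lit 647183) (nat_lit 4) (.e (nat_lit 172106) (nat_lit 10) (.e (nat_lit 434272) (nat_lit 38) (.e (nat_lit 655364) (nat_lit 0) (.e (nat_lit 3021) (nat_lit 187) .nil))))) (.g (nat_lit 0) (.e (nat_lit 424919) (nat_lit 0) .nil) .nil)))) (.nd (nat_lit 9) 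
(.lf (nat_lit 602451) (.g (nat_lit 3415) (.e (nat_lit 647181) (nat_lit 3) (.e (nat_lit 163977) (nat_lit 30) (.e (nat_lit 573482) (nat_lit 13) (.e (nat_lit 65604) (nat_lit 9) (.e (nat_lit 336028) (nat_lit 3) (.e (nat_lit 98359) (nat_lit 26) (.e (nat_lit 426003) (nat_lit 0) (.e (nat_lit 3399) (nat_lit 211) .nil)))))))) (.g (nat_lit 1) (.e (nat_lit 424353) (nat_lit 0) .nil) .nil))) 
(.lf (nat_lit 602963) (.g (nat_lit 2059) (.e (nat_lit 647183) (nat_lit 4) (.e (nat_lit 172126) (nat_lit 14) (.e (nat_lit 491550) (nat_lit 9) (.e (nat_lit 336432) (nat_lit 30) (.e (nat_lit 458496) (nat_lit 15) .nil))))) (.g (nat_lit 1) (.e (nat_lit 425248) (nat_lit 0) .nil) .nil))))) (.nd (nat_lit 8) (.nd (nat_lit 9) 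
(.lf (nat_lit 602323) (.g (nat_lit 409) (.e (nat_lit 671764) (nat_lit 6) (.e (nat_lit 81959) (nat_lit 24) (.e (nat_lit 123195) (nat_lit 266) .nil))) (.g (nat_lit 0) (.e (nat_lit 423702) (nat_lit 0) .nil) .nil))) 
(.lf (nat_lit 602835) (.g (nat_lit 629) (.e (nat_lit 647183) (nat_lit 4) (.e (nat_lit 172118) (nat_lit 12) (.e (nat_lit 475199) (nat_lit 40) (.e (nat_lit 704598) (nat_lit 6) .nil)))) (.g (nat_lit 0) (.e (nat_lit 425063) (nat_lit 0) .nil) .nil)))) (.nd (nat_lit 9) 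
(.lf (nat_lit 602579) (.g (nat_lit 3641) (.e (nat_lit 647181) (nat_lit 3) (.e (nat_lit 163978) (nat_lit 30) (.e (nat_lit 573485) (nat_lit 13) (.e (nat_lit 65604) (nat_lit 9) (.e (nat_lit 336028) (nat_lit 3) (.e (nat_lit 98361) (nat_lit 26) (.e (nat_lit 426025) (nat_lit 0) (.e (nat_lit 3397) (nat_lit 211) .nil)))))))) (.g (nat_lit 1) (.e (nat_lit 424515) (nat_lit 0) .nil) .nil))) 
(.lf (nat_lit 603091) (.g (nat_lit 779) (.e (nat_lit 655364) (nat_lit 0) (.e (nat_lit 2472) (nat_lit 157) (.e (nat_lit 3307) (nat_lit 202) (.e (nat_lit 573491) (nat_lit 15) .nil)))) (.g (nat_lit 0) (.e (nat_lit 425980) (nat_lit 0) .nil) .nil))))))) (.nd (nat_lit 6) (.nd (nat_lit 7) (.nd (nat_lit 8) (.nd (nat_lit 9) 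
(.lf (nat_lit 602163) (.g (nat_lit 1511) (.e (nat_lit 671488) (nat_lit 14) (.e (nat_lit 2798) (nat_lit 180) (.e (nat_lit 303143) (nat_lit 12) (.e (nat_lit 475207) (nat_lit 41) .nil)))) (.g (nat_lit 0) (.e (nat_lit 423508) (nat_lit 0) .nil) .nil))) 
(.lf (nat_lit 602675) (.g (nat_lit 1450) (.e (nat_lit 647183) (nat_lit 4) (.e (nat_lit 172094) (nat_lit 9) (.e (nat_lit 426109) (nat_lit 1) (.e (nat_lit 164347) (nat_lit 240) (.e (nat_lit 2648) (nat_lit 166) .nil))))) (.g (nat_lit 0) (.e (nat_lit 424855) (nat_lit 0) .nil) .nil)))) (.nd (nat_lit 9) 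
(.lf (nat_lit 602419) (.g (nat_lit 4731) (.e (nat_lit 647180) (nat_lit 3) (.e (nat_lit 163979) (nat_lit 30) (.e (nat_lit 573482) (nat_lit 13) (.e (nat_lit 65619) (nat_lit 10) (.e (nat_lit 344117) (nat_lit 21) (.e (nat_lit 516151) (nat_lit 9) (.e (nat_lit 426022) (nat_lit 0) (.e (nat_lit 3397) (nat_lit 211) .nil)))))))) (.g (nat_lit 1) (.e (nat_lit 424285) (nat_lit 0) .nil) .nil))) 
(.lf (nat_lit 602931) (.g (nat_lit 490) (.e (nat_lit 647183) (nat_lit 4) (.e (nat_lit 172125) (nat_lit 14) (.e (nat_lit 491571) (nat_lit 13) .nil))) (.g (nat_lit 0) (.e (nat_lit 425204) (nat_lit 0) .nil) .nil))))) (.nd (nat_lit 8) (.nd (nat_lit 9) 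
(.lf (nat_lit 602291) (.g (nat_lit 2332) (.e (nat_lit 671763) (nat_lit 5) (.e (nat_lit 73781) (nat_lit 32) (.e (nat_lit 2857) (nat_lit 184) (.e (nat_lit 426542) (nat_lit 29) (.e (nat_lit 352297) (nat_lit 20) (.e (nat_lit 2006) (nat_lit 138) .nil)))))) (.g (nat_lit 1) (.e (nat_lit 423665) (nat_lit 0) .nil) .nil))) 
(.lf (nat_lit 602803) (.g (nat_lit 2080) (.e (nat_lit 647183) (nat_lit 4) (.e (nat_lit 172115) (nat_lit 10) (.e (nat_lit 434272) (nat_lit 38) (.e (nat_lit 655378) (nat_lit 4) (.e (nat_lit 172088) (nat_lit 9) .nil))))) (.g (nat_lit 0) (.e (nat_lit 425029) (nat_lit 0) .nil) .nil)))) (.nd (nat_lit 9) 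
(.lf (nat_lit 602547) (.g (nat_lit 4054) (.e (nat_lit 647181) (nat_lit 3) (.e (nat_lit 163977) (nat_lit 30) (.e (nat_lit 573493) (nat_lit 15) (.e (nat_lit 81956) (nat_lit 23) (.e (nat_lit 106240) (nat_lit 26) (.e (nat_lit 426025) (nat_lit 0) (.e (nat_lit 3399) (nat_lit 211) .nil))))))) (.g (nat_lit 1) (.e (nat_lit 424468) (nat_lit 0) .nil) .nil))) 
(.lf (nat_lit 603059) (.g (nat_lit 3195) (.e (nat_lit 647185) (nat_lit 6) (.e (nat_lit 188453) (nat_lit 24) (.e (nat_lit 229663) (nat_lit 240) (.e (nat_lit 2651) (nat_lit 166) (.e (nat_lit 188431) (nat_lit 20) (.e (nat_lit 3397) (nat_lit 211) .nil)))))) (.g (nat_lit 1) (.e (nat_lit 425699) (nat_lit 0) .nil) .nil)))))) (.nd (nat_lit 7) (.nd (nat_lit 8) (.nd (nat_lit 9) 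
(.lf (nat_lit 602227) (.g (nat_lit 1628) (.e (nat_lit 671761) (nat_lit 4) (.e (nat_lit 65628) (nat_lit 14) (.e (nat_lit 401438) (nat_lit 9) (.e (nat_lit 426546) (nat_lit 30) (.e (nat_lit 360486) (nat_lit 18) .nil))))) (.g (nat_lit 0) (.e (nat_lit 423595) (nat_lit 0) .nil) .nil))) 
(.lf (nat_lit 602739) (.g (nat_lit 2461) (.e (nat_lit 647183) (nat_lit 4) (.e (nat_lit 172112) (nat_lit 10) (.e (nat_lit 434272) (nat_lit 38) (.e (nat_lit 655364) (nat_lit 0) (.e (nat_lit 3016) (nat_lit 187) (.e (nat_lit 458496) (nat_lit 15) .nil)))))) (.g (nat_lit 1) (.e (nat_lit 424952) (nat_lit 0) .nil) .nil)))) (.nd (nat_lit 9) 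
(.lf (nat_lit 602483) (.g (nat_lit 2915) (.e (nat_lit 647181) (nat_lit 3) (.e (nat_lit 163977) (nat_lit 30) (.e (nat_lit 573491) (nat_lit 15) (.e (nat_lit 81951) (nat_lit 22) (.e (nat_lit 90170) (nat_lit 13) (.e (nat_lit 172032) (nat_lit 0) (.e (nat_lit 3401) (nat_lit 211) .nil))))))) (.g (nat_lit 1) (.e (nat_lit 424385) (nat_lit 0) .nil) .nil))) 
(.lf (nat_lit 602995) (.g (nat_lit 1512) (.e (nat_lit 647183) (nat_lit 4) (.e (nat_lit 172147) (nat_lit 27) (.e (nat_lit 336100) (nat_lit 9) (.e (nat_lit 336028) (nat_lit 3) (.e (nat_lit 106240) (nat_lit 10) (.e (nat_lit 344158) (nat_lit 37) .nil)))))) (.g (nat_lit 1) (.e (nat_lit 425324) (nat_lit 0) .nil) .nil))))) (.nd (nat_lit 8) (.nd (nat_lit 9) 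
(.lf (nat_lit 602355) (.g (nat_lit 3022) (.e (nat_lit 647170) (nat_lit 0) (.e (nat_lit 3098) (nat_lit 192) (.e (nat_lit 491566) (nat_lit 12) (.e (nat_lit 385100) (nat_lit 49) (.e (nat_lit 778279) (nat_lit 0) .nil))))) (.g (nat_lit 0) (.e (nat_lit 423983) (nat_lit 0) .nil) .nil))) 
(.lf (nat_lit 602867) (.g (nat_lit 1356) (.e (nat_lit 647183) (nat_lit 4) (.e (nat_lit 172120) (nat_lit 12) (.e (nat_lit 475199) (nat_lit 40) (.e (nat_lit 704599) (nat_lit 6) .nil)))) (.g (nat_lit 0) (.e (nat_lit 425104) (nat_lit 0) .nil) .nil)))) (.nd (nat_lit 9) 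
(.lf (nat_lit 602611) (.g (nat_lit 4091) (.e (nat_lit 647181) (nat_lit 3) (.e (nat_lit 163979) (nat_lit 30) (.e (nat_lit 573482) (nat_lit 13) (.e (nat_lit 65619) (nat_lit 10) (.e (nat_lit 344117) (nat_lit 21) (.e (nat_lit 516151) (nat_lit 9) (.e (nat_lit 426023) (nat_lit 0) (.e (nat_lit 3399) (nat_lit 211) .nil)))))))) (.g (nat_lit 1) (.e (nat_lit 424550) (nat_lit 0) .nil) .nil))) 
(.lf (nat_lit 603123) (.g (nat_lit 3312) (.e (nat_lit 655373) (nat_lit 3) (.e (nat_lit 163978) (nat_lit 30) (.e (nat_lit 573479) (nat_lit 13) (.e (nat_lit 65619) (nat_lit 10) (.e (nat_lit 344117) (nat_lit 21) (.e (nat_lit 516151) (nat_lit 9) (.e (nat_lit 426043) (nat_lit 0) (.e (nat_lit 3407) (nat_lit 212) .nil)))))))) (.g (nat_lit 1) (.e (nat_lit 426226) (nat_lit 0) .nil) .nil))))))))) 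
(.nd (nat_lit 4) (.nd (nat_lit 5) (.nd (nat_lit 6) (.nd (nat_lit 7) (.nd (nat_lit 8) 
(.nd (nat_lit 9) 
(.lf (nat_lit 602123) (.g (nat_lit 411) (.e (nat_lit 663583) (nat_lit 11) (.e (nat_lit 24617) (nat_lit 7) (.e (nat_lit 319534) (nat_lit 16) .nil))) (.g (nat_lit 0) (.e (nat_lit 423190) (nat_lit 0) .nil) .nil))) 
(.lf (nat_lit 602635) (.g (nat_lit 2692) (.e (nat_lit 647181) (nat_lit 3) (.e (nat_lit 163979) (nat_lit 30) (.e (nat_lit 573493) (nat_lit 15) (.e (nat_lit 81953) (nat_lit 22) (.e (nat_lit 90170) (nat_lit 13) (.e (nat_lit 172032) (nat_lit 0) (.e (nat_lit 3402) (nat_lit 211) .nil))))))) (.g (nat_lit 1) (.e (nat_lit 424585) (nat_lit 0) .nil) .nil)))) (.nd (nat_lit 9) 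
(.lf (nat_lit 602379) (.g (nat_lit 2515) (.e (nat_lit 647177) (nat_lit 0) (.e (nat_lit 2682) (nat_lit 168) (.e (nat_lit 204863) (nat_lit 27) (.e (nat_lit 344131) (nat_lit 26) (.e (nat_lit 557103) (nat_lit 14) .nil))))) (.g (nat_lit 0) (.e (nat_lit 424155) (nat_lit 0) .nil) .nil))) 
(.lf (nat_lit 602891) (.g (nat_lit 2139) (.e (nat_lit 647183) (nat_lit 4) (.e (nat_lit 172124) (nat_lit 14) (.e (nat_lit 491549) (nat_lit 9) (.e (nat_lit 336395) (nat_lit 27) (.e (nat_lit 426203) (nat_lit 9) (.e (nat_lit 426025) (nat_lit 0) (.e (nat_lit 3399) (nat_lit 211) .nil))))))) (.g (nat_lit 1) (.e (nat_lit 425135) (nat_lit 0) .nil) .nil))))) (.nd (nat_lit 8) (.nd (nat_lit 9) 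
(.lf (nat_lit 602251) (.g (nat_lit 2985) (.e (nat_lit 671762) (nat_lit 4) (.e (nat_lit 65628) (nat_lit 14) (.e (nat_lit 401437) (nat_lit 9) (.e (nat_lit 426540) (nat_lit 29) (.e (nat_lit 352295) (nat_lit 20) .nil))))) (.g (nat_lit 0) (.e (nat_lit 423625) (nat_lit 0) .nil) .nil))) 
(.lf (nat_lit 602763) (.g (nat_lit 2283) (.e (nat_lit 647183) (nat_lit 4) (.e (nat_lit 172113) (nat_lit 10) (.e (nat_lit 434272) (nat_lit 38) (.e (nat_lit 655378) (nat_lit 4) (.e (nat_lit 172088) (nat_lit 9) (.e (nat_lit 426025) (nat_lit 0) (.e (nat_lit 3397) (nat_lit 211) .nil))))))) (.g (nat_lit 1) (.e (nat_lit 424978) (nat_lit 0) .nil) .nil)))) (.nd (nat_lit 9) 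
(.lf (nat_lit 602507) (.g (nat_lit 3946) (.e (nat_lit 647181) (nat_lit 3) (.e (nat_lit 163977) (nat_lit 30) (.e (nat_lit 573493) (nat_lit 15) (.e (nat_lit 81951) (nat_lit 22) (.e (nat_lit 90170) (nat_lit 13) (.e (nat_lit 172032) (nat_lit 0) (.e (nat_lit 3402) (nat_lit 211) .nil))))))) (.g (nat_lit 1) (.e (nat_lit 424416) (nat_lit 0) .nil) .nil))) 
(.lf (nat_lit 603019) (.g (nat_lit 1635) (.e (nat_lit 647185) (nat_lit 6) (.e (nat_lit 188435) (nat_lit 20) (.e (nat_lit 3408) (nat_lit 212) (.e (nat_lit 655380) (nat_lit 6) (.e (nat_lit 188431) (nat_lit 20) (.e (nat_lit 3397) (nat_lit 211) .nil)))))) (.g (nat_lit 1) (.e (nat_lit 425570) (nat_lit 0) .nil) .nil)))))) (.nd (nat_lit 7) (.nd (nat_lit 8) (.nd (nat_lit 9) 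
(.lf (nat_lit 602187) (.g (nat_lit 1892) (.e (nat_lit 671758) (nat_lit 3) (.e (nat_lit 57478) (nat_lit 28) (.e (nat_lit 557107) (nat_lit 15) (.e (nat_lit 188450) (nat_lit 23) (.e (nat_lit 204862) (nat_lit 27) .nil))))) (.g (nat_lit 0) (.e (nat_lit 423545) (nat_lit 0) .nil) .nil))) 
(.lf (nat_lit 602699) (.g (nat_lit 1720) (.e (nat_lit 647183) (nat_lit 4) (.e (nat_lit 172106) (nat_lit 10) (.e (nat_lit 434271) (nat_lit 38) (.e (nat_lit 655378) (nat_lit 4) (.e (nat_lit 172088) (nat_lit 9) .nil))))) (.g (nat_lit 0) (.e (nat_lit 424911) (nat_lit 0) .nil) .nil)))) (.nd (nat_lit 9) 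
(.lf (nat_lit 602443) (.g (nat_lit 1893) (.e (nat_lit 647181) (nat_lit 3) (.e (nat_lit 163977) (nat_lit 30) (.e (nat_lit 573481) (nat_lit 13) (.e (nat_lit 65604) (nat_lit 9) (.e (nat_lit 336013) (nat_lit 2) .nil))))) (.g (nat_lit 0) (.e (nat_lit 424345) (nat_lit 0) .nil) .nil))) 
(.lf (nat_lit 602955) (.g (nat_lit 1965) (.e (nat_lit 647183) (nat_lit 4) (.e (nat_lit 172126) (nat_lit 14) (.e (nat_lit 491549) (nat_lit 9) (.e (nat_lit 336430) (nat_lit 29) (.e (nat_lit 442398) (nat_lit 20) (.e (nat_lit 3399) (nat_lit 211) .nil)))))) (.g (nat_lit 1) (.e (nat_lit 425237) (nat_lit 0) .nil) .nil))))) (.nd (nat_lit 8) (.nd (nat_lit 9) 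
(.lf (nat_lit 602315) (.g (nat_lit 695) (.e (nat_lit 671764) (nat_lit 6) (.e (nat_lit 81946) (nat_lit 20) (.e (nat_lit 2003) (nat_lit 138) (.e (nat_lit 671764) (nat_lit 6) .nil)))) (.g (nat_lit 0) (.e (nat_lit 423691) (nat_lit 0) .nil) .nil))) 
(.lf (nat_lit 602827) (.g (nat_lit 1361) (.e (nat_lit 647183) (nat_lit 4) (.e (nat_lit 172118) (nat_lit 12) (.e (nat_lit 475198) (nat_lit 40) (.e (nat_lit 704513) (nat_lit 0) .nil)))) (.g (nat_lit 0) (.e (nat_lit 425055) (nat_lit 0) .nil) .nil)))) (.nd (nat_lit 9) 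
(.lf (nat_lit 602571) (.g (nat_lit 2699) (.e (nat_lit 647181) (nat_lit 3) (.e (nat_lit 163978) (nat_lit 30) (.e (nat_lit 573485) (nat_lit 13) (.e (nat_lit 65604) (nat_lit 9) (.e (nat_lit 336013) (nat_lit 2) (.e (nat_lit 90170) (nat_lit 13) (.e (nat_lit 172038) (nat_lit 0) (.e (nat_lit 3402) (nat_lit 211) .nil)))))))) (.g (nat_lit 1) (.e (nat_lit 424507) (nat_lit 0) .nil) .nil))) 
(.lf (nat_lit 603083) (.g (nat_lit 1712) (.e (nat_lit 647201) (nat_lit 12) (.e (nat_lit 57575) (nat_lit 55) (.e (nat_lit 778466) (nat_lit 11) (.e (nat_lit 24616) (nat_lit 7) .nil)))) (.g (nat_lit 0) (.e (nat_lit 425848) (nat_lit 0) .nil) .nil))))))) (.nd (nat_lit 6) (.nd (nat_lit 7) (.nd (nat_lit 8) (.nd (nat_lit 9) 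
(.lf (nat_lit 602155) (.g (nat_lit 1666) (.e (nat_lit 663589) (nat_lit 14) (.e (nat_lit 2798) (nat_lit 180) (.e (nat_lit 303133) (nat_lit 9) (.e (nat_lit 426412) (nat_lit 15) (.e (nat_lit 2175) (nat_lit 143) .nil))))) (.g (nat_lit 0) (.e (nat_lit 423430) (nat_lit 0) .nil) .nil))) 
(.lf (nat_lit 602667) (.g (nat_lit 1402) (.e (nat_lit 647183) (nat_lit 4) (.e (nat_lit 172089) (nat_lit 9) (.e (nat_lit 426025) (nat_lit 0) (.e (nat_lit 3399) (nat_lit 211) (.e (nat_lit 647185) (nat_lit 6) (.e (nat_lit 188431) (nat_lit 20) (.e (nat_lit 3401) (nat_lit 211) .nil))))))) (.g (nat_lit 1) (.e (nat_lit 424828) (nat_lit 0) .nil) .nil)))) (.nd (nat_lit 9) 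
(.lf (nat_lit 602411) (.g (nat_lit 4653) (.e (nat_lit 647180) (nat_lit 3) (.e (nat_lit 163978) (nat_lit 30) (.e (nat_lit 573485) (nat_lit 13) (.e (nat_lit 65619) (nat_lit 10) (.e (nat_lit 344117) (nat_lit 21) (.e (nat_lit 516151) (nat_lit 9) (.e (nat_lit 426022) (nat_lit 0) (.e (nat_lit 3399) (nat_lit 211) .nil)))))))) (.g (nat_lit 1) (.e (nat_lit 424275) (nat_lit 0) .nil) .nil))) 
(.lf (nat_lit 602923) (.g (nat_lit 2233) (.e (nat_lit 647183) (nat_lit 4) (.e (nat_lit 172124) (nat_lit 14) (.e (nat_lit 491571) (nat_lit 13) (.e (nat_lit 393274) (nat_lit 23) (.e (nat_lit 426003) (nat_lit 0) (.e (nat_lit 3397) (nat_lit 211) .nil)))))) (.g (nat_lit 1) (.e (nat_lit 425192) (nat_lit 0) .nil) .nil))))) (.nd (nat_lit 8) (.nd (nat_lit 9) 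
(.lf (nat_lit 602283) (.g (nat_lit 480) (.e (nat_lit 679680) (nat_lit 4) (.e (nat_lit 65630) (nat_lit 14) (.e (nat_lit 401437) (nat_lit 9) .nil))) (.g (nat_lit 0) (.e (nat_lit 423657) (nat_lit 0) .nil) .nil))) 
(.lf (nat_lit 602795) (.g (nat_lit 992) (.e (nat_lit 647183) (nat_lit 4) (.e (nat_lit 172115) (nat_lit 10) (.e (nat_lit 434271) (nat_lit 38) (.e (nat_lit 655380) (nat_lit 6) .nil)))) (.g (nat_lit 0) (.e (nat_lit 425021) (nat_lit 0) .nil) .nil)))) (.nd (nat_lit 9) 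
(.lf (nat_lit 602539) (.g (nat_lit 3140) (.e (nat_lit 647181) (nat_lit 3) (.e (nat_lit 163977) (nat_lit 30) (.e (nat_lit 573493) (nat_lit 15) (.e (nat_lit 81956) (nat_lit 23) (.e (nat_lit 98360) (nat_lit 26) (.e (nat_lit 426007) (nat_lit 0) (.e (nat_lit 3397) (nat_lit 211) .nil))))))) (.g (nat_lit 1) (.e (nat_lit 424460) (nat_lit 0) .nil) .nil))) 
(.lf (nat_lit 603051) (.g (nat_lit 567) (.e (nat_lit 647185) (nat_lit 6) (.e (nat_lit 188446) (nat_lit 21) (.e (nat_lit 164348) (nat_lit 240) .nil))) (.g (nat_lit 0) (.e (nat_lit 425686) (nat_lit 0) .nil) .nil)))))) (.nd (nat_lit 7) (.nd (nat_lit 8) (.nd (nat_lit 9) 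
(.lf (nat_lit 602219) (.g (nat_lit 1580) (.e (nat_lit 671760) (nat_lit 4) (.e (nat_lit 65630) (nat_lit 14) (.e (nat_lit 401456) (nat_lit 13) (.e (nat_lit 483395) (nat_lit 24) (.e (nat_lit 344168) (nat_lit 40) .nil))))) (.g (nat_lit 0) (.e (nat_lit 423587) (nat_lit 0) .nil) .nil))) 
(.lf (nat_lit 602731) (.g (nat_lit 1848) (.e (nat_lit 647183) (nat_lit 4) (.e (nat_lit 172112) (nat_lit 10) (.e (nat_lit 434271) (nat_lit 38) (.e (nat_lit 655363) (nat_lit 0) (.e (nat_lit 3015) (nat_lit 187) (.e (nat_lit 458496) (nat_lit 15) .nil)))))) (.g (nat_lit 1) (.e (nat_lit 424943) (nat_lit 0) .nil) .nil)))) (.nd (nat_lit 9) 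
(.lf (nat_lit 602475) (.g (nat_lit 1702) (.e (nat_lit 647181) (nat_lit 3) (.e (nat_lit 163977) (nat_lit 30) (.e (nat_lit 573485) (nat_lit 13) (.e (nat_lit 65604) (nat_lit 9) (.e (nat_lit 336028) (nat_lit 3) (.e (nat_lit 106240) (nat_lit 26) (.e (nat_lit 426025) (nat_lit 0) (.e (nat_lit 3399) (nat_lit 211) .nil)))))))) (.g (nat_lit 1) (.e (nat_lit 424377) (nat_lit 0) .nil) .nil))) 
(.lf (nat_lit 602987) (.g (nat_lit 2421) (.e (nat_lit 647183) (nat_lit 4) (.e (nat_lit 172126) (nat_lit 14) (.e (nat_lit 491571) (nat_lit 13) (.e (nat_lit 393277) (nat_lit 23) .nil)))) (.g (nat_lit 0) (.e (nat_lit 425305) (nat_lit 0) .nil) .nil))))) (.nd (nat_lit 8) (.nd (nat_lit 9) 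
(.lf (nat_lit 602347) (.g (nat_lit 2995) (.e (nat_lit 647170) (nat_lit 0) (.e (nat_lit 3098) (nat_lit 192) (.e (nat_lit 491566) (nat_lit 12) (.e (nat_lit 385091) (nat_lit 49) .nil)))) (.g (nat_lit 0) (.e (nat_lit 423956) (nat_lit 0) .nil) .nil))) 
(.lf (nat_lit 602859) (.g (nat_lit 1104) (.e (nat_lit 647183) (nat_lit 4) (.e (nat_lit 172120) (nat_lit 12) (.e (nat_lit 475197) (nat_lit 40) (.e (nat_lit 704599) (nat_lit 6) .nil)))) (.g (nat_lit 0) (.e (nat_lit 425091) (nat_lit 0) .nil) .nil)))) (.nd (nat_lit 9) 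
(.lf (nat_lit 602603) (.g (nat_lit 3513) (.e (nat_lit 647181) (nat_lit 3) (.e (nat_lit 163979) (nat_lit 30) (.e (nat_lit 573482) (nat_lit 13) (.e (nat_lit 65604) (nat_lit 9) (.e (nat_lit 336028) (nat_lit 3) (.e (nat_lit 98359) (nat_lit 26) (.e (nat_lit 426022) (nat_lit 0) (.e (nat_lit 3402) (nat_lit 211) .nil)))))))) (.g (nat_lit 1) (.e (nat_lit 424542) (nat_lit 0) .nil) .nil))) 
(.lf (nat_lit 603115) (.g (nat_lit 3116) (.e (nat_lit 655373) (nat_lit 3) (.e (nat_lit 163975) (nat_lit 30) (.e (nat_lit 573492) (nat_lit 15) (.e (nat_lit 81956) (nat_lit 23) (.e (nat_lit 98367) (nat_lit 27) (.e (nat_lit 434270) (nat_lit 38) .nil)))))) (.g (nat_lit 1) (.e (nat_lit 426212) (nat_lit 0) .nil) .nil)))))))) 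
(.nd (nat_lit 5) (.nd (nat_lit 6) (.nd (nat_lit 7) (.nd (nat_lit 8) (.nd (nat_lit 9) 
(.lf (nat_lit 602139) (.g (nat_lit 2183) (.e (nat_lit 663584) (nat_lit 12) (.e (nat_lit 164003) (nat_lit 40) (.e (nat_lit 655380) (nat_lit 6) (.e (nat_lit 188452) (nat_lit 23) (.e (nat_lit 212736) (nat_lit 10) (.e (nat_lit 434279) (nat_lit 39) .nil)))))) (.g (nat_lit 1) (.e (nat_lit 423351) (nat_lit 0) .nil) .nil))) 
(.lf (nat_lit 602651) (.g (nat_lit 2533) (.e (nat_lit 647181) (nat_lit 3) (.e (nat_lit 171776) (nat_lit 189) (.e (nat_lit 16446) (nat_lit 9) (.e (nat_lit 426115) (nat_lit 2) (.e (nat_lit 196656) (nat_lit 11) (.e (nat_lit 16392) (nat_lit 0) (.e (nat_lit 3399) (nat_lit 211) .nil))))))) (.g (nat_lit 1) (.e (nat_lit 424613) (nat_lit 0) .nil) .nil)))) (.nd (nat_lit 9) 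
(.lf (nat_lit 602395) (.g (nat_lit 2045) (.e (nat_lit 647180) (nat_lit 3) (.e (nat_lit 163978) (nat_lit 30) (.e (nat_lit 573479) (nat_lit 13) (.e (nat_lit 65619) (nat_lit 10) .nil)))) (.g (nat_lit 0) (.e (nat_lit 424259) (nat_lit 0) .nil) .nil))) 
(.lf (nat_lit 602907) (.g (nat_lit 1932) (.e (nat_lit 647183) (nat_lit 4) (.e (nat_lit 172124) (nat_lit 14) (.e (nat_lit 491550) (nat_lit 9) (.e (nat_lit 336432) (nat_lit 30) (.e (nat_lit 458496) (nat_lit 15) .nil))))) (.g (nat_lit 1) (.e (nat_lit 425154) (nat_lit 0) .nil) .nil))))) (.nd (nat_lit 8) (.nd (nat_lit 9) 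
(.lf (nat_lit 602267) (.g (nat_lit 3771) (.e (nat_lit 671762) (nat_lit 4) (.e (nat_lit 65630) (nat_lit 14) (.e (nat_lit 401437) (nat_lit 9) (.e (nat_lit 426540) (nat_lit 29) (.e (nat_lit 352295) (nat_lit 20) .nil))))) (.g (nat_lit 0) (.e (nat_lit 423641) (nat_lit 0) .nil) .nil))) 
(.lf (nat_lit 602779) (.g (nat_lit 1129) (.e (nat_lit 647183) (nat_lit 4) (.e (nat_lit 172115) (nat_lit 10) (.e (nat_lit 434209) (nat_lit 18) (.e (nat_lit 5547) (nat_lit 306) .nil)))) (.g (nat_lit 0) (.e (nat_lit 424998) (nat_lit 0) .nil) .nil)))) (.nd (nat_lit 9) 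
(.lf (nat_lit 602523) (.g (nat_lit 4818) (.e (nat_lit 647181) (nat_lit 3) (.e (nat_lit 163977) (nat_lit 30) (.e (nat_lit 573493) (nat_lit 15) (.e (nat_lit 81954) (nat_lit 23) (.e (nat_lit 98359) (nat_lit 26) (.e (nat_lit 426025) (nat_lit 0) (.e (nat_lit 3397) (nat_lit 211) .nil))))))) (.g (nat_lit 1) (.e (nat_lit 424442) (nat_lit 0) .nil) .nil))) 
(.lf (nat_lit 603035) (.g (nat_lit 1712) (.e (nat_lit 647185) (nat_lit 6) (.e (nat_lit 188441) (nat_lit 20) (.e (nat_lit 3408) (nat_lit 212) (.e (nat_lit 655378) (nat_lit 4) (.e (nat_lit 172097) (nat_lit 9) (.e (nat_lit 426025) (nat_lit 0) (.e (nat_lit 3399) (nat_lit 211) .nil))))))) (.g (nat_lit 1) (.e (nat_lit 425632) (nat_lit 0) .nil) .nil)))))) 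
(.nd (nat_lit 7) (.nd (nat_lit 8) (.nd (nat_lit 9) 
(.lf (nat_lit 602203) (.g (nat_lit 1855) (.e (nat_lit 671759) (nat_lit 3) (.e (nat_lit 57480) (nat_lit 28) (.e (nat_lit 557095) (nat_lit 13) (.e (nat_lit 172115) (nat_lit 10) (.e (nat_lit 434231) (nat_lit 23) .nil))))) (.g (nat_lit 0) (.e (nat_lit 423568) (nat_lit 0) .nil) .nil))) 
(.lf (nat_lit 602715) (.g (nat_lit 3140) (.e (nat_lit 647183) (nat_lit 4) (.e (nat_lit 172106) (nat_lit 10) (.e (nat_lit 434272) (nat_lit 38) (.e (nat_lit 655378) (nat_lit 4) (.e (nat_lit 172094) (nat_lit 9) (.e (nat_lit 426025) (nat_lit 0) (.e (nat_lit 3399) (nat_lit 211) .nil))))))) (.g (nat_lit 1) (.e (nat_lit 424927) (nat_lit 0) .nil) .nil)))) (.nd (nat_lit 9) 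
(.lf (nat_lit 602459) (.g (nat_lit 2231) (.e (nat_lit 647181) (nat_lit 3) (.e (nat_lit 163977) (nat_lit 30) (.e (nat_lit 573482) (nat_lit 13) (.e (nat_lit 65619) (nat_lit 10) (.e (nat_lit 344117) (nat_lit 21) (.e (nat_lit 516151) (nat_lit 9) (.e (nat_lit 426043) (nat_lit 0) (.e (nat_lit 7936) (nat_lit 211) .nil)))))))) (.g (nat_lit 1) (.e (nat_lit 424361) (nat_lit 0) .nil) .nil))) 
(.lf (nat_lit 602971) (.g (nat_lit 1133) (.e (nat_lit 647183) (nat_lit 4) (.e (nat_lit 172126) (nat_lit 14) (.e (nat_lit 491570) (nat_lit 13) (.e (nat_lit 393277) (nat_lit 23) .nil)))) (.g (nat_lit 0) (.e (nat_lit 425260) (nat_lit 0) .nil) .nil))))) (.nd (nat_lit 8) (.nd (nat_lit 9) 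
(.lf (nat_lit 602331) (.g (nat_lit 2534) (.e (nat_lit 671783) (nat_lit 13) (.e (nat_lit 229469) (nat_lit 55) (.e (nat_lit 778466) (nat_lit 11) (.e (nat_lit 24617) (nat_lit 7) (.e (nat_lit 319534) (nat_lit 16) .nil))))) (.g (nat_lit 0) (.e (nat_lit 423755) (nat_lit 0) .nil) .nil))) 
(.lf (nat_lit 602843) (.g (nat_lit 1605) (.e (nat_lit 647183) (nat_lit 4) (.e (nat_lit 172118) (nat_lit 12) (.e (nat_lit 475210) (nat_lit 41) (.e (nat_lit 712754) (nat_lit 30) (.e (nat_lit 458496) (nat_lit 15) .nil))))) (.g (nat_lit 1) (.e (nat_lit 425072) (nat_lit 0) .nil) .nil)))) (.nd (nat_lit 9) 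
(.lf (nat_lit 602587) (.g (nat_lit 3593) (.e (nat_lit 647181) (nat_lit 3) (.e (nat_lit 163978) (nat_lit 30) (.e (nat_lit 573485) (nat_lit 13) (.e (nat_lit 65619) (nat_lit 10) (.e (nat_lit 344117) (nat_lit 21) (.e (nat_lit 516152) (nat_lit 9) (.e (nat_lit 426025) (nat_lit 0) (.e (nat_lit 3397) (nat_lit 211) .nil)))))))) (.g (nat_lit 1) (.e (nat_lit 424523) (nat_lit 0) .nil) .nil))) 
(.lf (nat_lit 603099) (.g (nat_lit 2942) (.e (nat_lit 655364) (nat_lit 0) (.e (nat_lit 3098) (nat_lit 192) (.e (nat_lit 491565) (nat_lit 12) (.e (nat_lit 385102) (nat_lit 50) (.e (nat_lit 786483) (nat_lit 30) (.e (nat_lit 360485) (nat_lit 16) .nil)))))) (.g (nat_lit 1) (.e (nat_lit 426139) (nat_lit 0) .nil) .nil))))))) (.nd (nat_lit 6) (.nd (nat_lit 7) (.nd (nat_lit 8) (.nd (nat_lit 9) 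
(.lf (nat_lit 602171) (.g (nat_lit 466) (.e (nat_lit 671747) (nat_lit 0) (.e (nat_lit 1586) (nat_lit 111) (.e (nat_lit 360450) (nat_lit 0) .nil))) (.g (nat_lit 0) (.e (nat_lit 423520) (nat_lit 0) .nil) .nil))) 
(.lf (nat_lit 602683) (.g (nat_lit 2632) (.e (nat_lit 647183) (nat_lit 4) (.e (nat_lit 172106) (nat_lit 10) (.e (nat_lit 434209) (nat_lit 18) (.e (nat_lit 5546) (nat_lit 306) (.e (nat_lit 2648) (nat_lit 166) (.e (nat_lit 188428) (nat_lit 20) (.e (nat_lit 3402) (nat_lit 211) .nil))))))) (.g (nat_lit 1) (.e (nat_lit 424885) (nat_lit 0) .nil) .nil)))) (.nd (nat_lit 9) 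
(.lf (nat_lit 602427) (.g (nat_lit 3235) (.e (nat_lit 647180) (nat_lit 3) (.e (nat_lit 163979) (nat_lit 30) (.e (nat_lit 573492) (nat_lit 15) (.e (nat_lit 81956) (nat_lit 23) (.e (nat_lit 98356) (nat_lit 26) .nil))))) (.g (nat_lit 0) (.e (nat_lit 424301) (nat_lit 0) .nil) .nil))) 
(.lf (nat_lit 602939) (.g (nat_lit 482) (.e (nat_lit 647183) (nat_lit 4) (.e (nat_lit 172126) (nat_lit 14) (.e (nat_lit 491548) (nat_lit 9) .nil))) (.g (nat_lit 0) (.e (nat_lit 425218) (nat_lit 0) .nil) .nil))))) (.nd (nat_lit 8) (.nd (nat_lit 9) 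
(.lf (nat_lit 602299) (.g (nat_lit 2587) (.e (nat_lit 671763) (nat_lit 5) (.e (nat_lit 73782) (nat_lit 32) (.e (nat_lit 2856) (nat_lit 184) (.e (nat_lit 426542) (nat_lit 29) (.e (nat_lit 352297) (nat_lit 20) (.e (nat_lit 2003) (nat_lit 138) .nil)))))) (.g (nat_lit 1) (.e (nat_lit 423673) (nat_lit 0) .nil) .nil))) 
(.lf (nat_lit 602811) (.g (nat_lit 2416) (.e (nat_lit 647183) (nat_lit 4) (.e (nat_lit 172116) (nat_lit 10) (.e (nat_lit 434271) (nat_lit 38) (.e (nat_lit 655378) (nat_lit 4) (.e (nat_lit 172094) (nat_lit 9) (.e (nat_lit 426025) (nat_lit 0) (.e (nat_lit 3397) (nat_lit 211) .nil))))))) (.g (nat_lit 1) (.e (nat_lit 425037) (nat_lit 0) .nil) .nil)))) (.nd (nat_lit 9) 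
(.lf (nat_lit 602555) (.g (nat_lit 4566) (.e (nat_lit 647181) (nat_lit 3) (.e (nat_lit 163978) (nat_lit 30) (.e (nat_lit 573479) (nat_lit 13) (.e (nat_lit 65619) (nat_lit 10) (.e (nat_lit 344117) (nat_lit 21) (.e (nat_lit 516151) (nat_lit 9) (.e (nat_lit 426025) (nat_lit 0) (.e (nat_lit 3397) (nat_lit 211) .nil)))))))) (.g (nat_lit 1) (.e (nat_lit 424491) (nat_lit 0) .nil) .nil))) 
(.lf (nat_lit 603067) (.g (nat_lit 1200) (.e (nat_lit 647185) (nat_lit 6) (.e (nat_lit 188455) (nat_lit 24) (.e (nat_lit 229664) (nat_lit 240) (.e (nat_lit 7936) (nat_lit 166) .nil)))) (.g (nat_lit 0) (.e (nat_lit 425724) (nat_lit 0) .nil) .nil)))))) (.nd (nat_lit 7) (.nd (nat_lit 8) (.nd (nat_lit 9) 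
(.lf (nat_lit 602235) (.g (nat_lit 3108) (.e (nat_lit 671761) (nat_lit 4) (.e (nat_lit 65630) (nat_lit 14) (.e (nat_lit 401437) (nat_lit 9) (.e (nat_lit 426555) (nat_lit 32) (.e (nat_lit 376847) (nat_lit 20) .nil))))) (.g (nat_lit 0) (.e (nat_lit 423603) (nat_lit 0) .nil) .nil))) 
(.lf (nat_lit 602747) (.g (nat_lit 1793) (.e (nat_lit 647183) (nat_lit 4) (.e (nat_lit 172113) (nat_lit 10) (.e (nat_lit 434271) (nat_lit 38) (.e (nat_lit 655378) (nat_lit 4) (.e (nat_lit 172088) (nat_lit 9) .nil))))) (.g (nat_lit 0) (.e (nat_lit 424962) (nat_lit 0) .nil) .nil)))) (.nd (nat_lit 9) 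
(.lf (nat_lit 602491) (.g (nat_lit 3197) (.e (nat_lit 647181) (nat_lit 3) (.e (nat_lit 163977) (nat_lit 30) (.e (nat_lit 573491) (nat_lit 15) (.e (nat_lit 81954) (nat_lit 23) (.e (nat_lit 98362) (nat_lit 26) (.e (nat_lit 426025) (nat_lit 0) (.e (nat_lit 3399) (nat_lit 211) .nil))))))) (.g (nat_lit 1) (.e (nat_lit 424394) (nat_lit 0) .nil) .nil))) 
(.lf (nat_lit 603003) (.g (nat_lit 1998) (.e (nat_lit 647185) (nat_lit 6) (.e (nat_lit 188418) (nat_lit 0) (.e (nat_lit 2059) (nat_lit 142) (.e (nat_lit 704598) (nat_lit 6) (.e (nat_lit 188431) (nat_lit 20) (.e (nat_lit 3402) (nat_lit 211) .nil)))))) (.g (nat_lit 1) (.e (nat_lit 425528) (nat_lit 0) .nil) .nil))))) (.nd (nat_lit 8) (.nd (nat_lit 9) 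
(.lf (nat_lit 602363) (.g (nat_lit 3195) (.e (nat_lit 647170) (nat_lit 0) (.e (nat_lit 3098) (nat_lit 192) (.e (nat_lit 491566) (nat_lit 12) (.e (nat_lit 385105) (nat_lit 50) (.e (nat_lit 786481) (nat_lit 30) (.e (nat_lit 360481) (nat_lit 15) .nil)))))) (.g (nat_lit 1) (.e (nat_lit 424008) (nat_lit 0) .nil) .nil))) 
(.lf (nat_lit 602875) (.g (nat_lit 2133) (.e (nat_lit 647183) (nat_lit 4) (.e (nat_lit 172120) (nat_lit 12) (.e (nat_lit 475210) (nat_lit 41) (.e (nat_lit 712755) (nat_lit 30) (.e (nat_lit 458496) (nat_lit 15) .nil))))) (.g (nat_lit 1) (.e (nat_lit 425114) (nat_lit 0) .nil) .nil)))) (.nd (nat_lit 9) 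
(.lf (nat_lit 602619) (.g (nat_lit 2561) (.e (nat_lit 647181) (nat_lit 3) (.e (nat_lit 163979) (nat_lit 30) (.e (nat_lit 573491) (nat_lit 15) (.e (nat_lit 81954) (nat_lit 23) (.e (nat_lit 98359) (nat_lit 26) (.e (nat_lit 426003) (nat_lit 0) (.e (nat_lit 3399) (nat_lit 211) .nil))))))) (.g (nat_lit 1) (.e (nat_lit 424560) (nat_lit 0) .nil) .nil))) 
(.lf (nat_lit 603131) (.g (nat_lit 2066) (.e (nat_lit 655373) (nat_lit 3) (.e (nat_lit 163978) (nat_lit 30) (.e (nat_lit 573485) (nat_lit 13) (.e (nat_lit 65604) (nat_lit 9) (.e (nat_lit 336013) (nat_lit 2) (.e (nat_lit 90170) (nat_lit 13) (.e (nat_lit 172049) (nat_lit 0) (.e (nat_lit 3403) (nat_lit 212) .nil)))))))) (.g (nat_lit 1) (.e (nat_lit 426235) (nat_lit 0) .nil) .nil)))))))))) 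
(.nd (nat_lit 3) (.nd (nat_lit 4) (.nd (nat_lit 5) (.nd (nat_lit 6) (.nd (nat_lit 7) 
(.nd (nat_lit 8) (.nd (nat_lit 9) 
(.lf (nat_lit 602119) (.g (nat_lit 2014) (.e (nat_lit 663583) (nat_lit 11) (.e (nat_lit 24617) (nat_lit 7) (.e (nat_lit 319533) (nat_lit 16) (.e (nat_lit 286721) (nat_lit 0) .nil)))) (.g (nat_lit 0) (.e (nat_lit 423186) (nat_lit 0) .nil) .nil))) 
(.lf (nat_lit 602631) (.g (nat_lit 4148) (.e (nat_lit 647181) (nat_lit 3) (.e (nat_lit 163979) (nat_lit 30) (.e (nat_lit 573493) (nat_lit 15) (.e (nat_lit 81951) (nat_lit 22) (.e (nat_lit 90170) (nat_lit 13) (.e (nat_lit 172032) (nat_lit 0) (.e (nat_lit 3399) (nat_lit 211) .nil))))))) (.g (nat_lit 1) (.e (nat_lit 424580) (nat_lit 0) .nil) .nil)))) (.nd (nat_lit 9) 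
(.lf (nat_lit 602375) (.g (nat_lit 2036) (.e (nat_lit 647175) (nat_lit 0) (.e (nat_lit 2684) (nat_lit 168) (.e (nat_lit 204863) (nat_lit 27) (.e (nat_lit 344132) (nat_lit 26) (.e (nat_lit 557103) (nat_lit 14) .nil))))) (.g (nat_lit 0) (.e (nat_lit 424138) (nat_lit 0) .nil) .nil))) 
(.lf (nat_lit 602887) (.g (nat_lit 1247) (.e (nat_lit 647183) (nat_lit 4) (.e (nat_lit 172124) (nat_lit 14) (.e (nat_lit 491548) (nat_lit 9) (.e (nat_lit 336430) (nat_lit 29) (.e (nat_lit 442396) (nat_lit 20) .nil))))) (.g (nat_lit 0) (.e (nat_lit 425128) (nat_lit 0) .nil) .nil))))) (.nd (nat_lit 8) (.nd (nat_lit 9) 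
(.lf (nat_lit 602247) (.g (nat_lit 1558) (.e (nat_lit 671762) (nat_lit 4) (.e (nat_lit 65628) (nat_lit 14) (.e (nat_lit 401437) (nat_lit 9) (.e (nat_lit 426482) (nat_lit 27) .nil)))) (.g (nat_lit 0) (.e (nat_lit 423621) (nat_lit 0) .nil) .nil))) 
(.lf (nat_lit 602759) (.g (nat_lit 1715) (.e (nat_lit 647183) (nat_lit 4) (.e (nat_lit 172113) (nat_lit 10) (.e (nat_lit 434272) (nat_lit 38) (.e (nat_lit 655364) (nat_lit 0) (.e (nat_lit 3021) (nat_lit 187) .nil))))) (.g (nat_lit 0) (.e (nat_lit 424974) (nat_lit 0) .nil) .nil)))) (.nd (nat_lit 9) 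
(.lf (nat_lit 602503) (.g (nat_lit 5033) (.e (nat_lit 647181) (nat_lit 3) (.e (nat_lit 163977) (nat_lit 30) (.e (nat_lit 573492) (nat_lit 15) (.e (nat_lit 81956) (nat_lit 23) (.e (nat_lit 98362) (nat_lit 26) (.e (nat_lit 426025) (nat_lit 0) (.e (nat_lit 3397) (nat_lit 211) .nil))))))) (.g (nat_lit 1) (.e (nat_lit 424410) (nat_lit 0) .nil) .nil))) 
(.lf (nat_lit 603015) (.g (nat_lit 2394) (.e (nat_lit 647185) (nat_lit 6) (.e (nat_lit 188431) (nat_lit 20) (.e (nat_lit 3401) (nat_lit 211) (.e (nat_lit 647183) (nat_lit 4) (.e (nat_lit 172094) (nat_lit 9) (.e (nat_lit 426025) (nat_lit 0) (.e (nat_lit 3399) (nat_lit 211) .nil))))))) (.g (nat_lit 1) (.e (nat_lit 425559) (nat_lit 0) .nil) .nil)))))) 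
(.nd (nat_lit 7) (.nd (nat_lit 8) (.nd (nat_lit 9) 
(.lf (nat_lit 602183) (.g (nat_lit 2404) (.e (nat_lit 671757) (nat_lit 3) (.e (nat_lit 57478) (nat_lit 28) (.e (nat_lit 557109) (nat_lit 15) (.e (nat_lit 188449) (nat_lit 22) (.e (nat_lit 196666) (nat_lit 13) .nil))))) (.g (nat_lit 0) (.e (nat_lit 423540) (nat_lit 0) .nil) .nil))) 
(.lf (nat_lit 602695) (.g (nat_lit 359) (.e (nat_lit 647183) (nat_lit 4) (.e (nat_lit 172106) (nat_lit 10) (.e (nat_lit 434271) (nat_lit 38) .nil))) (.g (nat_lit 0) (.e (nat_lit 424907) (nat_lit 0) .nil) .nil)))) (.nd (nat_lit 9) 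
(.lf (nat_lit 602439) (.g (nat_lit 3028) (.e (nat_lit 647180) (nat_lit 3) (.e (nat_lit 163979) (nat_lit 30) (.e (nat_lit 573493) (nat_lit 15) (.e (nat_lit 81956) (nat_lit 23) (.e (nat_lit 98360) (nat_lit 26) .nil))))) (.g (nat_lit 0) (.e (nat_lit 424324) (nat_lit 0) .nil) .nil))) 
(.lf (nat_lit 602951) (.g (nat_lit 2751) (.e (nat_lit 647183) (nat_lit 4) (.e (nat_lit 172126) (nat_lit 14) (.e (nat_lit 491549) (nat_lit 9) (.e (nat_lit 336395) (nat_lit 27) (.e (nat_lit 426212) (nat_lit 9) (.e (nat_lit 426025) (nat_lit 0) (.e (nat_lit 3399) (nat_lit 211) .nil))))))) (.g (nat_lit 1) (.e (nat_lit 425233) (nat_lit 0) .nil) .nil))))) (.nd (nat_lit 8) (.nd (nat_lit 9) 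
(.lf (nat_lit 602311) (.g (nat_lit 288) (.e (nat_lit 671764) (nat_lit 6) (.e (nat_lit 81935) (nat_lit 20) (.e (nat_lit 1994) (nat_lit 137) .nil))) (.g (nat_lit 0) (.e (nat_lit 423687) (nat_lit 0) .nil) .nil))) 
(.lf (nat_lit 602823) (.g (nat_lit 1963) (.e (nat_lit 647183) (nat_lit 4) (.e (nat_lit 172116) (nat_lit 10) (.e (nat_lit 434272) (nat_lit 38) (.e (nat_lit 655378) (nat_lit 4) (.e (nat_lit 172089) (nat_lit 9) (.e (nat_lit 426025) (nat_lit 0) (.e (nat_lit 3397) (nat_lit 211) .nil))))))) (.g (nat_lit 1) (.e (nat_lit 425051) (nat_lit 0) .nil) .nil)))) (.nd (nat_lit 9) 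
(.lf (nat_lit 602567) (.g (nat_lit 4386) (.e (nat_lit 647181) (nat_lit 3) (.e (nat_lit 163978) (nat_lit 30) (.e (nat_lit 573485) (nat_lit 13) (.e (nat_lit 65604) (nat_lit 9) (.e (nat_lit 336013) (nat_lit 2) (.e (nat_lit 90170) (nat_lit 13) (.e (nat_lit 172032) (nat_lit 0) (.e (nat_lit 3399) (nat_lit 211) .nil)))))))) (.g (nat_lit 1) (.e (nat_lit 424503) (nat_lit 0) .nil) .nil))) 
(.lf (nat_lit 603079) (.g (nat_lit 1776) (.e (nat_lit 647201) (nat_lit 12) (.e (nat_lit 57574) (nat_lit 55) (.e (nat_lit 778466) (nat_lit 11) (.e (nat_lit 24617) (nat_lit 7) (.e (nat_lit 319534) (nat_lit 16) .nil))))) (.g (nat_lit 0) (.e (nat_lit 425844) (nat_lit 0) .nil) .nil))))))) (.nd (nat_lit 6) (.nd (nat_lit 7) (.nd (nat_lit 8) (.nd (nat_lit 9) 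
(.lf (nat_lit 602151) (.g (nat_lit 3600) (.e (nat_lit 663589) (nat_lit 14) (.e (nat_lit 2797) (nat_lit 180) (.e (nat_lit 303143) (nat_lit 12) (.e (nat_lit 475211) (nat_lit 41) (.e (nat_lit 712753) (nat_lit 30) (.e (nat_lit 450595) (nat_lit 17) .nil)))))) (.g (nat_lit 1) (.e (nat_lit 423421) (nat_lit 0) .nil) .nil))) 
(.lf (nat_lit 602663) (.g (nat_lit 1141) (.e (nat_lit 647183) (nat_lit 4) (.e (nat_lit 172082) (nat_lit 7) (.e (nat_lit 409641) (nat_lit 17) (.e (nat_lit 302848) (nat_lit 30) .nil)))) (.g (nat_lit 0) (.e (nat_lit 424824) (nat_lit 0) .nil) .nil)))) (.nd (nat_lit 9) 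
(.lf (nat_lit 602407) (.g (nat_lit 4054) (.e (nat_lit 647180) (nat_lit 3) (.e (nat_lit 163978) (nat_lit 30) (.e (nat_lit 573485) (nat_lit 13) (.e (nat_lit 65604) (nat_lit 9) (.e (nat_lit 336028) (nat_lit 3) (.e (nat_lit 98359) (nat_lit 26) (.e (nat_lit 426025) (nat_lit 0) (.e (nat_lit 3399) (nat_lit 211) .nil)))))))) (.g (nat_lit 1) (.e (nat_lit 424271) (nat_lit 0) .nil) .nil))) 
(.lf (nat_lit 602919) (.g (nat_lit 1153) (.e (nat_lit 647183) (nat_lit 4) (.e (nat_lit 172124) (nat_lit 14) (.e (nat_lit 491571) (nat_lit 13) (.e (nat_lit 393232) (nat_lit 17) .nil)))) (.g (nat_lit 0) (.e (nat_lit 425171) (nat_lit 0) .nil) .nil))))) (.nd (nat_lit 8) (.nd (nat_lit 9) 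
(.lf (nat_lit 602279) (.g (nat_lit 1667) (.e (nat_lit 671762) (nat_lit 4) (.e (nat_lit 65630) (nat_lit 14) (.e (nat_lit 401456) (nat_lit 13) (.e (nat_lit 483396) (nat_lit 24) .nil)))) (.g (nat_lit 0) (.e (nat_lit 423653) (nat_lit 0) .nil) .nil))) 
(.lf (nat_lit 602791) (.g (nat_lit 2160) (.e (nat_lit 647183) (nat_lit 4) (.e (nat_lit 172115) (nat_lit 10) (.e (nat_lit 434271) (nat_lit 38) (.e (nat_lit 655363) (nat_lit 0) (.e (nat_lit 3022) (nat_lit 187) (.e (nat_lit 458496) (nat_lit 15) .nil)))))) (.g (nat_lit 1) (.e (nat_lit 425017) (nat_lit 0) .nil) .nil)))) (.nd (nat_lit 9) 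
(.lf (nat_lit 602535) (.g (nat_lit 4987) (.e (nat_lit 647181) (nat_lit 3) (.e (nat_lit 163977) (nat_lit 30) (.e (nat_lit 573493) (nat_lit 15) (.e (nat_lit 81956) (nat_lit 23) (.e (nat_lit 98359) (nat_lit 26) (.e (nat_lit 426025) (nat_lit 0) (.e (nat_lit 3397) (nat_lit 211) .nil))))))) (.g (nat_lit 1) (.e (nat_lit 424456) (nat_lit 0) .nil) .nil))) 
(.lf (nat_lit 603047) (.g (nat_lit 1179) (.e (nat_lit 647185) (nat_lit 6) (.e (nat_lit 188446) (nat_lit 21) (.e (nat_lit 164347) (nat_lit 240) (.e (nat_lit 2648) (nat_lit 166) .nil)))) (.g (nat_lit 0) (.e (nat_lit 425678) (nat_lit 0) .nil) .nil)))))) (.nd (nat_lit 7) (.nd (nat_lit 8) (.nd (nat_lit 9) 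
(.lf (nat_lit 602215) (.g (nat_lit 2138) (.e (nat_lit 671760) (nat_lit 4) (.e (nat_lit 65628) (nat_lit 14) (.e (nat_lit 401458) (nat_lit 13) (.e (nat_lit 483396) (nat_lit 24) (.e (nat_lit 344168) (nat_lit 40) .nil))))) (.g (nat_lit 0) (.e (nat_lit 423583) (nat_lit 0) .nil) .nil))) 
(.lf (nat_lit 602727) (.g (nat_lit 2059) (.e (nat_lit 647183) (nat_lit 4) (.e (nat_lit 172107) (nat_lit 10) (.e (nat_lit 434272) (nat_lit 38) (.e (nat_lit 655364) (nat_lit 0) (.e (nat_lit 3028) (nat_lit 187) (.e (nat_lit 458496) (nat_lit 15) .nil)))))) (.g (nat_lit 1) (.e (nat_lit 424939) (nat_lit 0) .nil) .nil)))) (.nd (nat_lit 9) 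
(.lf (nat_lit 602471) (.g (nat_lit 3580) (.e (nat_lit 647181) (nat_lit 3) (.e (nat_lit 163977) (nat_lit 30) (.e (nat_lit 573485) (nat_lit 13) (.e (nat_lit 65604) (nat_lit 9) (.e (nat_lit 336028) (nat_lit 3) (.e (nat_lit 98359) (nat_lit 26) (.e (nat_lit 426003) (nat_lit 0) (.e (nat_lit 3397) (nat_lit 211) .nil)))))))) (.g (nat_lit 1) (.e (nat_lit 424373) (nat_lit 0) .nil) .nil))) 
(.lf (nat_lit 602983) (.g (nat_lit 2526) (.e (nat_lit 647183) (nat_lit 4) (.e (nat_lit 172126) (nat_lit 14) (.e (nat_lit 491571) (nat_lit 13) (.e (nat_lit 393274) (nat_lit 23) (.e (nat_lit 426023) (nat_lit 0) (.e (nat_lit 3399) (nat_lit 211) .nil)))))) (.g (nat_lit 1) (.e (nat_lit 425300) (nat_lit 0) .nil) .nil))))) (.nd (nat_lit 8) (.nd (nat_lit 9) 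
(.lf (nat_lit 602343) (.g (nat_lit 473) (.e (nat_lit 647170) (nat_lit 0) (.e (nat_lit 3098) (nat_lit 192) (.e (nat_lit 491565) (nat_lit 12) .nil))) (.g (nat_lit 0) (.e (nat_lit 423951) (nat_lit 0) .nil) .nil))) 
(.lf (nat_lit 602855) (.g (nat_lit 1827) (.e (nat_lit 647183) (nat_lit 4) (.e (nat_lit 172119) (nat_lit 12) (.e (nat_lit 475211) (nat_lit 41) (.e (nat_lit 712753) (nat_lit 30) (.e (nat_lit 458496) (nat_lit 15) .nil))))) (.g (nat_lit 1) (.e (nat_lit 425086) (nat_lit 0) .nil) .nil)))) (.nd (nat_lit 9) 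
(.lf (nat_lit 602599) (.g (nat_lit 3360) (.e (nat_lit 647181) (nat_lit 3) (.e (nat_lit 163979) (nat_lit 30) (.e (nat_lit 573482) (nat_lit 13) (.e (nat_lit 65604) (nat_lit 9) (.e (nat_lit 336028) (nat_lit 3) (.e (nat_lit 98354) (nat_lit 26) (.e (nat_lit 426025) (nat_lit 0) (.e (nat_lit 3397) (nat_lit 211) .nil)))))))) (.g (nat_lit 1) (.e (nat_lit 424538) (nat_lit 0) .nil) .nil))) 
(.lf (nat_lit 603111) (.g (nat_lit 3730) (.e (nat_lit 655373) (nat_lit 3) (.e (nat_lit 163975) (nat_lit 30) (.e (nat_lit 573481) (nat_lit 13) (.e (nat_lit 65604) (nat_lit 9) (.e (nat_lit 336013) (nat_lit 2) (.e (nat_lit 90170) (nat_lit 13) (.e (nat_lit 172049) (nat_lit 0) (.e (nat_lit 3407) (nat_lit 212) .nil)))))))) (.g (nat_lit 1) (.e (nat_lit 426191) (nat_lit 0) .nil) .nil)))))))) 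
(.nd (nat_lit 5) (.nd (nat_lit 6) (.nd (nat_lit 7) (.nd (nat_lit 8) (.nd (nat_lit 9) 
(.lf (nat_lit 602135) (.g (nat_lit 2235) (.e (nat_lit 663584) (nat_lit 12) (.e (nat_lit 163979) (nat_lit 30) (.e (nat_lit 573470) (nat_lit 11) (.e (nat_lit 16463) (nat_lit 13) (.e (nat_lit 491264) (nat_lit 10) .nil))))) (.g (nat_lit 0) (.e (nat_lit 423336) (nat_lit 0) .nil) .nil))) 
(.lf (nat_lit 602647) (.g (nat_lit 3826) (.e (nat_lit 647181) (nat_lit 3) (.e (nat_lit 163979) (nat_lit 30) (.e (nat_lit 573493) (nat_lit 15) (.e (nat_lit 81956) (nat_lit 23) (.e (nat_lit 98359) (nat_lit 26) (.e (nat_lit 426022) (nat_lit 0) (.e (nat_lit 3399) (nat_lit 211) .nil))))))) (.g (nat_lit 1) (.e (nat_lit 424598) (nat_lit 0) .nil) .nil)))) (.nd (nat_lit 9) 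
(.lf (nat_lit 602391) (.g (nat_lit 4090) (.e (nat_lit 647180) (nat_lit 3) (.e (nat_lit 163976) (nat_lit 30) (.e (nat_lit 573481) (nat_lit 13) (.e (nat_lit 65619) (nat_lit 10) (.e (nat_lit 344117) (nat_lit 21) (.e (nat_lit 516151) (nat_lit 9) (.e (nat_lit 426022) (nat_lit 0) (.e (nat_lit 3399) (nat_lit 211) .nil)))))))) (.g (nat_lit 1) (.e (nat_lit 424246) (nat_lit 0) .nil) .nil))) 
(.lf (nat_lit 602903) (.g (nat_lit 2113) (.e (nat_lit 647183) (nat_lit 4) (.e (nat_lit 172124) (nat_lit 14) (.e (nat_lit 491549) (nat_lit 9) (.e (nat_lit 336443) (nat_lit 32) (.e (nat_lit 466955) (nat_lit 20) (.e (nat_lit 3399) (nat_lit 211) .nil)))))) (.g (nat_lit 1) (.e (nat_lit 425149) (nat_lit 0) .nil) .nil))))) (.nd (nat_lit 8) (.nd (nat_lit 9) 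
(.lf (nat_lit 602263) (.g (nat_lit 2306) (.e (nat_lit 671762) (nat_lit 4) (.e (nat_lit 65630) (nat_lit 14) (.e (nat_lit 401437) (nat_lit 9) (.e (nat_lit 426509) (nat_lit 27) (.e (nat_lit 336177) (nat_lit 10) .nil))))) (.g (nat_lit 0) (.e (nat_lit 423637) (nat_lit 0) .nil) .nil))) 
(.lf (nat_lit 602775) (.g (nat_lit 2679) (.e (nat_lit 647183) (nat_lit 4) (.e (nat_lit 172115) (nat_lit 10) (.e (nat_lit 434209) (nat_lit 18) (.e (nat_lit 5546) (nat_lit 306) (.e (nat_lit 2649) (nat_lit 166) (.e (nat_lit 188427) (nat_lit 20) (.e (nat_lit 3397) (nat_lit 211) .nil))))))) (.g (nat_lit 1) (.e (nat_lit 424994) (nat_lit 0) .nil) .nil)))) (.nd (nat_lit 9) 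
(.lf (nat_lit 602519) (.g (nat_lit 3732) (.e (nat_lit 647181) (nat_lit 3) (.e (nat_lit 163977) (nat_lit 30) (.e (nat_lit 573493) (nat_lit 15) (.e (nat_lit 81954) (nat_lit 23) (.e (nat_lit 98359) (nat_lit 26) (.e (nat_lit 426003) (nat_lit 0) (.e (nat_lit 3397) (nat_lit 211) .nil))))))) (.g (nat_lit 1) (.e (nat_lit 424438) (nat_lit 0) .nil) .nil))) 
(.lf (nat_lit 603031) (.g (nat_lit 1916) (.e (nat_lit 647185) (nat_lit 6) (.e (nat_lit 188441) (nat_lit 20) (.e (nat_lit 3406) (nat_lit 212) (.e (nat_lit 655378) (nat_lit 4) (.e (nat_lit 172094) (nat_lit 9) (.e (nat_lit 426025) (nat_lit 0) (.e (nat_lit 3399) (nat_lit 211) .nil))))))) (.g (nat_lit 1) (.e (nat_lit 425618) (nat_lit 0) .nil) .nil)))))) 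
(.nd (nat_lit 7) (.nd (nat_lit 8) (.nd (nat_lit 9) 
(.lf (nat_lit 602199) (.g (nat_lit 2093) (.e (nat_lit 671759) (nat_lit 3) (.e (nat_lit 57479) (nat_lit 28) (.e (nat_lit 557097) (nat_lit 13) (.e (nat_lit 172115) (nat_lit 10) (.e (nat_lit 434231) (nat_lit 23) .nil))))) (.g (nat_lit 0) (.e (nat_lit 423564) (nat_lit 0) .nil) .nil))) 
(.lf (nat_lit 602711) (.g (nat_lit 1995) (.e (nat_lit 647183) (nat_lit 4) (.e (nat_lit 172106) (nat_lit 10) (.e (nat_lit 434272) (nat_lit 38) (.e (nat_lit 655378) (nat_lit 4) (.e (nat_lit 172088) (nat_lit 9) .nil))))) (.g (nat_lit 0) (.e (nat_lit 424923) (nat_lit 0) .nil) .nil)))) (.nd (nat_lit 9) 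
(.lf (nat_lit 602455) (.g (nat_lit 3813) (.e (nat_lit 647181) (nat_lit 3) (.e (nat_lit 163977) (nat_lit 30) (.e (nat_lit 573482) (nat_lit 13) (.e (nat_lit 65619) (nat_lit 10) (.e (nat_lit 344117) (nat_lit 21) (.e (nat_lit 516143) (nat_lit 9) (.e (nat_lit 426025) (nat_lit 0) (.e (nat_lit 3399) (nat_lit 211) .nil)))))))) (.g (nat_lit 1) (.e (nat_lit 424357) (nat_lit 0) .nil) .nil))) 
(.lf (nat_lit 602967) (.g (nat_lit 471) (.e (nat_lit 647183) (nat_lit 4) (.e (nat_lit 172126) (nat_lit 14) (.e (nat_lit 491569) (nat_lit 13) .nil))) (.g (nat_lit 0) (.e (nat_lit 425254) (nat_lit 0) .nil) .nil))))) (.nd (nat_lit 8) (.nd (nat_lit 9) 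
(.lf (nat_lit 602327) (.g (nat_lit 2082) (.e (nat_lit 671779) (nat_lit 11) (.e (nat_lit 24640) (nat_lit 10) (.e (nat_lit 344156) (nat_lit 36) (.e (nat_lit 638998) (nat_lit 8) (.e (nat_lit 172113) (nat_lit 10) .nil))))) (.g (nat_lit 0) (.e (nat_lit 423734) (nat_lit 0) .nil) .nil))) 
(.lf (nat_lit 602839) (.g (nat_lit 1484) (.e (nat_lit 647183) (nat_lit 4) (.e (nat_lit 172118) (nat_lit 12) (.e (nat_lit 475210) (nat_lit 41) (.e (nat_lit 712742) (nat_lit 27) .nil)))) (.g (nat_lit 0) (.e (nat_lit 425067) (nat_lit 0) .nil) .nil)))) (.nd (nat_lit 9) 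
(.lf (nat_lit 602583) (.g (nat_lit 4684) (.e (nat_lit 647181) (nat_lit 3) (.e (nat_lit 163978) (nat_lit 30) (.e (nat_lit 573485) (nat_lit 13) (.e (nat_lit 65619) (nat_lit 10) (.e (nat_lit 344117) (nat_lit 21) (.e (nat_lit 516151) (nat_lit 9) (.e (nat_lit 426022) (nat_lit 0) (.e (nat_lit 3401) (nat_lit 211) .nil)))))))) (.g (nat_lit 1) (.e (nat_lit 424519) (nat_lit 0) .nil) .nil))) 
(.lf (nat_lit 603095) (.g (nat_lit 467) (.e (nat_lit 655364) (nat_lit 0) (.e (nat_lit 3015) (nat_lit 187) (.e (nat_lit 458496) (nat_lit 15) .nil))) (.g (nat_lit 0) (.e (nat_lit 426069) (nat_lit 0) .nil) .nil))))))) (.nd (nat_lit 6) (.nd (nat_lit 7) (.nd (nat_lit 8) (.nd (nat_lit 9) 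
(.lf (nat_lit 602167) (.g (nat_lit 1374) (.e (nat_lit 671746) (nat_lit 0) (.e (nat_lit 1575) (nat_lit 110) (.e (nat_lit 352262) (nat_lit 0) (.e (nat_lit 3632) (nat_lit 227) (.e (nat_lit 778326) (nat_lit 6) .nil))))) (.g (nat_lit 0) (.e (nat_lit 423516) (nat_lit 0) .nil) .nil))) 
(.lf (nat_lit 602679) (.g (nat_lit 2138) (.e (nat_lit 647183) (nat_lit 4) (.e (nat_lit 172097) (nat_lit 9) (.e (nat_lit 426025) (nat_lit 0) (.e (nat_lit 3399) (nat_lit 211) (.e (nat_lit 647183) (nat_lit 4) (.e (nat_lit 172094) (nat_lit 9) (.e (nat_lit 426025) (nat_lit 0) (.e (nat_lit 3397) (nat_lit 211) .nil)))))))) (.g (nat_lit 1) (.e (nat_lit 424866) (nat_lit 0) .nil) .nil)))) (.nd (nat_lit 9) 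
(.lf (nat_lit 602423) (.g (nat_lit 2764) (.e (nat_lit 647180) (nat_lit 3) (.e (nat_lit 163979) (nat_lit 30) (.e (nat_lit 573491) (nat_lit 15) (.e (nat_lit 81954) (nat_lit 23) (.e (nat_lit 98359) (nat_lit 26) (.e (nat_lit 426023) (nat_lit 0) (.e (nat_lit 3397) (nat_lit 211) .nil))))))) (.g (nat_lit 1) (.e (nat_lit 424292) (nat_lit 0) .nil) .nil))) 
(.lf (nat_lit 602935) (.g (nat_lit 2771) (.e (nat_lit 647183) (nat_lit 4) (.e (nat_lit 172125) (nat_lit 14) (.e (nat_lit 491571) (nat_lit 13) (.e (nat_lit 393276) (nat_lit 23) .nil)))) (.g (nat_lit 0) (.e (nat_lit 425213) (nat_lit 0) .nil) .nil))))) (.nd (nat_lit 8) (.nd (nat_lit 9) 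
(.lf (nat_lit 602295) (.g (nat_lit 2647) (.e (nat_lit 671763) (nat_lit 5) (.e (nat_lit 73781) (nat_lit 32) (.e (nat_lit 3090) (nat_lit 191) (.e (nat_lit 483396) (nat_lit 24) (.e (nat_lit 344169) (nat_lit 40) .nil))))) (.g (nat_lit 1) (.e (nat_lit 423669) (nat_lit 0) .nil) .nil))) 
(.lf (nat_lit 602807) (.g (nat_lit 777) (.e (nat_lit 647183) (nat_lit 4) (.e (nat_lit 172116) (nat_lit 10) (.e (nat_lit 434271) (nat_lit 38) (.e (nat_lit 655362) (nat_lit 0) .nil)))) (.g (nat_lit 0) (.e (nat_lit 425033) (nat_lit 0) .nil) .nil)))) (.nd (nat_lit 9) 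
(.lf (nat_lit 602551) (.g (nat_lit 3629) (.e (nat_lit 647181) (nat_lit 3) (.e (nat_lit 163978) (nat_lit 30) (.e (nat_lit 573479) (nat_lit 13) (.e (nat_lit 65619) (nat_lit 10) (.e (nat_lit 344117) (nat_lit 21) (.e (nat_lit 516151) (nat_lit 9) (.e (nat_lit 426003) (nat_lit 0) (.e (nat_lit 3401) (nat_lit 211) .nil)))))))) (.g (nat_lit 1) (.e (nat_lit 424487) (nat_lit 0) .nil) .nil))) 
(.lf (nat_lit 603063) (.g (nat_lit 3830) (.e (nat_lit 647185) (nat_lit 6) (.e (nat_lit 188455) (nat_lit 24) (.e (nat_lit 229663) (nat_lit 240) (.e (nat_lit 2630) (nat_lit 164) (.e (nat_lit 172088) (nat_lit 9) .nil))))) (.g (nat_lit 0) (.e (nat_lit 425717) (nat_lit 0) .nil) .nil)))))) (.nd (nat_lit 7) (.nd (nat_lit 8) (.nd (nat_lit 9) 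
(.lf (nat_lit 602231) (.g (nat_lit 2419) (.e (nat_lit 671761) (nat_lit 4) (.e (nat_lit 65628) (nat_lit 14) (.e (nat_lit 401457) (nat_lit 13) (.e (nat_lit 483395) (nat_lit 24) (.e (nat_lit 344167) (nat_lit 40) .nil))))) (.g (nat_lit 0) (.e (nat_lit 423599) (nat_lit 0) .nil) .nil))) 
(.lf (nat_lit 602743) (.g (nat_lit 834) (.e (nat_lit 647183) (nat_lit 4) (.e (nat_lit 172113) (nat_lit 10) (.e (nat_lit 434270) (nat_lit 38) (.e (nat_lit 655380) (nat_lit 6) (.e (nat_lit 188431) (nat_lit 20) .nil))))) (.g (nat_lit 0) (.e (nat_lit 424958) (nat_lit 0) .nil) .nil)))) (.nd (nat_lit 9) 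
(.lf (nat_lit 602487) (.g (nat_lit 1010) (.e (nat_lit 647181) (nat_lit 3) (.e (nat_lit 163977) (nat_lit 30) (.e (nat_lit 573491) (nat_lit 15) (.e (nat_lit 81954) (nat_lit 23) .nil)))) (.g (nat_lit 0) (.e (nat_lit 424390) (nat_lit 0) .nil) .nil))) 
(.lf (nat_lit 602999) (.g (nat_lit 1388) (.e (nat_lit 647185) (nat_lit 6) (.e (nat_lit 188417) (nat_lit 0) (.e (nat_lit 2143) (nat_lit 142) (.e (nat_lit 704597) (nat_lit 6) (.e (nat_lit 188431) (nat_lit 20) (.e (nat_lit 3397) (nat_lit 211) .nil)))))) (.g (nat_lit 1) (.e (nat_lit 425519) (nat_lit 0) .nil) .nil))))) (.nd (nat_lit 8) (.nd (nat_lit 9) 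
(.lf (nat_lit 602359) (.g (nat_lit 2845) (.e (nat_lit 647170) (nat_lit 0) (.e (nat_lit 3098) (nat_lit 192) (.e (nat_lit 491566) (nat_lit 12) (.e (nat_lit 385104) (nat_lit 50) (.e (nat_lit 786481) (nat_lit 30) (.e (nat_lit 360481) (nat_lit 15) .nil)))))) (.g (nat_lit 1) (.e (nat_lit 424000) (nat_lit 0) .nil) .nil))) 
(.lf (nat_lit 602871) (.g (nat_lit 2283) (.e (nat_lit 647183) (nat_lit 4) (.e (nat_lit 172120) (nat_lit 12) (.e (nat_lit 475210) (nat_lit 41) (.e (nat_lit 712750) (nat_lit 29) (.e (nat_lit 442399) (nat_lit 20) (.e (nat_lit 3399) (nat_lit 211) .nil)))))) (.g (nat_lit 1) (.e (nat_lit 425109) (nat_lit 0) .nil) .nil)))) (.nd (nat_lit 9) 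
(.lf (nat_lit 602615) (.g (nat_lit 3048) (.e (nat_lit 647181) (nat_lit 3) (.e (nat_lit 163979) (nat_lit 30) (.e (nat_lit 573491) (nat_lit 15) (.e (nat_lit 81951) (nat_lit 22) (.e (nat_lit 90170) (nat_lit 13) (.e (nat_lit 172035) (nat_lit 0) (.e (nat_lit 3399) (nat_lit 211) .nil))))))) (.g (nat_lit 1) (.e (nat_lit 424555) (nat_lit 0) .nil) .nil))) 
(.lf (nat_lit 603127) (.g (nat_lit 3091) (.e (nat_lit 655373) (nat_lit 3) (.e (nat_lit 163978) (nat_lit 30) (.e (nat_lit 573484) (nat_lit 13) (.e (nat_lit 65617) (nat_lit 10) .nil)))) (.g (nat_lit 0) (.e (nat_lit 426231) (nat_lit 0) .nil) .nil))))))))) (.nd (nat_lit 4) (.nd (nat_lit 5) (.nd (nat_lit 6) (.nd (nat_lit 7) (.nd (nat_lit 8) (.nd (nat_lit 9) 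
(.lf (nat_lit 602127) (.g (nat_lit 2517) (.e (nat_lit 663583) (nat_lit 11) (.e (nat_lit 24617) (nat_lit 7) (.e (nat_lit 319534) (nat_lit 16) (.e (nat_lit 286762) (nat_lit 14) (.e (nat_lit 401446) (nat_lit 10) .nil))))) (.g (nat_lit 0) (.e (nat_lit 423194) (nat_lit 0) .nil) .nil))) 
(.lf (nat_lit 602639) (.g (nat_lit 3573) (.e (nat_lit 647181) (nat_lit 3) (.e (nat_lit 163979) (nat_lit 30) (.e (nat_lit 573493) (nat_lit 15) (.e (nat_lit 81953) (nat_lit 22) (.e (nat_lit 90170) (nat_lit 13) (.e (nat_lit 172039) (nat_lit 0) (.e (nat_lit 3399) (nat_lit 211) .nil))))))) (.g (nat_lit 1) (.e (nat_lit 424589) (nat_lit 0) .nil) .nil)))) (.nd (nat_lit 9) 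
(.lf (nat_lit 602383) (.g (nat_lit 1888) (.e (nat_lit 655104) (nat_lit 0) (.e (nat_lit 2667) (nat_lit 167) (.e (nat_lit 196670) (nat_lit 14) (.e (nat_lit 73754) (nat_lit 8) (.e (nat_lit 557103) (nat_lit 14) .nil))))) (.g (nat_lit 0) (.e (nat_lit 424185) (nat_lit 0) .nil) .nil))) 
(.lf (nat_lit 602895) (.g (nat_lit 2071) (.e (nat_lit 647183) (nat_lit 4) (.e (nat_lit 172124) (nat_lit 14) (.e (nat_lit 491549) (nat_lit 9) (.e (nat_lit 336428) (nat_lit 29) (.e (nat_lit 442399) (nat_lit 20) (.e (nat_lit 3399) (nat_lit 211) .nil)))))) (.g (nat_lit 1) (.e (nat_lit 425139) (nat_lit 0) .nil) .nil))))) (.nd (nat_lit 8) (.nd (nat_lit 9) 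
(.lf (nat_lit 602255) (.g (nat_lit 2054) (.e (nat_lit 671762) (nat_lit 4) (.e (nat_lit 65629) (nat_lit 14) (.e (nat_lit 401437) (nat_lit 9) (.e (nat_lit 426542) (nat_lit 29) (.e (nat_lit 352290) (nat_lit 20) .nil))))) (.g (nat_lit 0) (.e (nat_lit 423629) (nat_lit 0) .nil) .nil))) 
(.lf (nat_lit 602767) (.g (nat_lit 3475) (.e (nat_lit 647183) (nat_lit 4) (.e (nat_lit 172113) (nat_lit 10) (.e (nat_lit 434272) (nat_lit 38) (.e (nat_lit 655378) (nat_lit 4) (.e (nat_lit 172094) (nat_lit 9) (.e (nat_lit 426025) (nat_lit 0) (.e (nat_lit 3399) (nat_lit 211) .nil))))))) (.g (nat_lit 1) (.e (nat_lit 424982) (nat_lit 0) .nil) .nil)))) (.nd (nat_lit 9) 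
(.lf (nat_lit 602511) (.g (nat_lit 3429) (.e (nat_lit 647181) (nat_lit 3) (.e (nat_lit 163977) (nat_lit 30) (.e (nat_lit 573493) (nat_lit 15) (.e (nat_lit 81953) (nat_lit 22) (.e (nat_lit 90170) (nat_lit 13) (.e (nat_lit 172032) (nat_lit 0) (.e (nat_lit 3402) (nat_lit 211) .nil))))))) (.g (nat_lit 1) (.e (nat_lit 424426) (nat_lit 0) .nil) .nil))) 
(.lf (nat_lit 603023) (.g (nat_lit 1759) (.e (nat_lit 647185) (nat_lit 6) (.e (nat_lit 188439) (nat_lit 20) (.e (nat_lit 3408) (nat_lit 212) (.e (nat_lit 655380) (nat_lit 6) (.e (nat_lit 188431) (nat_lit 20) (.e (nat_lit 3397) (nat_lit 211) .nil)))))) (.g (nat_lit 1) (.e (nat_lit 425593) (nat_lit 0) .nil) .nil)))))) (.nd (nat_lit 7) (.nd (nat_lit 8) (.nd (nat_lit 9) 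
(.lf (nat_lit 602191) (.g (nat_lit 1967) (.e (nat_lit 671759) (nat_lit 3) (.e (nat_lit 57478) (nat_lit 28) (.e (nat_lit 557107) (nat_lit 15) (.e (nat_lit 188451) (nat_lit 23) (.e (nat_lit 204863) (nat_lit 27) .nil))))) (.g (nat_lit 0) (.e (nat_lit 423552) (nat_lit 0) .nil) .nil))) 
(.lf (nat_lit 602703) (.g (nat_lit 2271) (.e (nat_lit 647183) (nat_lit 4) (.e (nat_lit 172106) (nat_lit 10) (.e (nat_lit 434272) (nat_lit 38) (.e (nat_lit 655363) (nat_lit 0) (.e (nat_lit 3022) (nat_lit 187) (.e (nat_lit 458496) (nat_lit 15) .nil)))))) (.g (nat_lit 1) (.e (nat_lit 424915) (nat_lit 0) .nil) .nil)))) (.nd (nat_lit 9) 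
(.lf (nat_lit 602447) (.g (nat_lit 3629) (.e (nat_lit 647181) (nat_lit 3) (.e (nat_lit 163977) (nat_lit 30) (.e (nat_lit 573482) (nat_lit 13) (.e (nat_lit 65604) (nat_lit 9) (.e (nat_lit 336013) (nat_lit 2) (.e (nat_lit 90170) (nat_lit 13) (.e (nat_lit 172032) (nat_lit 0) (.e (nat_lit 3402) (nat_lit 211) .nil)))))))) (.g (nat_lit 1) (.e (nat_lit 424349) (nat_lit 0) .nil) .nil))) 
(.lf (nat_lit 602959) (.g (nat_lit 2378) (.e (nat_lit 647183) (nat_lit 4) (.e (nat_lit 172126) (nat_lit 14) (.e (nat_lit 491549) (nat_lit 9) (.e (nat_lit 336443) (nat_lit 32) (.e (nat_lit 466955) (nat_lit 20) (.e (nat_lit 3399) (nat_lit 211) .nil)))))) (.g (nat_lit 1) (.e (nat_lit 425243) (nat_lit 0) .nil) .nil))))) (.nd (nat_lit 8) (.nd (nat_lit 9) 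
(.lf (nat_lit 602319) (.g (nat_lit 1068) (.e (nat_lit 671764) (nat_lit 6) (.e (nat_lit 81956) (nat_lit 23) (.e (nat_lit 106240) (nat_lit 10) .nil))) (.g (nat_lit 0) (.e (nat_lit 423697) (nat_lit 0) .nil) .nil))) 
(.lf (nat_lit 602831) (.g (nat_lit 1524) (.e (nat_lit 647183) (nat_lit 4) (.e (nat_lit 172118) (nat_lit 12) (.e (nat_lit 475198) (nat_lit 40) (.e (nat_lit 704599) (nat_lit 6) (.e (nat_lit 188428) (nat_lit 20) .nil))))) (.g (nat_lit 0) (.e (nat_lit 425059) (nat_lit 0) .nil) .nil)))) (.nd (nat_lit 9) 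
(.lf (nat_lit 602575) (.g (nat_lit 3264) (.e (nat_lit 647181) (nat_lit 3) (.e (nat_lit 163978) (nat_lit 30) (.e (nat_lit 573485) (nat_lit 13) (.e (nat_lit 65604) (nat_lit 9) (.e (nat_lit 336028) (nat_lit 3) (.e (nat_lit 98359) (nat_lit 26) (.e (nat_lit 426003) (nat_lit 0) (.e (nat_lit 3399) (nat_lit 211) .nil)))))))) (.g (nat_lit 1) (.e (nat_lit 424511) (nat_lit 0) .nil) .nil))) 
(.lf (nat_lit 603087) (.g (nat_lit 2200) (.e (nat_lit 655104) (nat_lit 12) (.e (nat_lit 57575) (nat_lit 55) (.e (nat_lit 778466) (nat_lit 11) (.e (nat_lit 24617) (nat_lit 7) .nil)))) (.g (nat_lit 0) (.e (nat_lit 425853) (nat_lit 0) .nil) .nil))))))) (.nd (nat_lit 6) (.nd (nat_lit 7) (.nd (nat_lit 8) (.nd (nat_lit 9) 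
(.lf (nat_lit 602159) (.g (nat_lit 3701) (.e (nat_lit 663589) (nat_lit 14) (.e (nat_lit 2808) (nat_lit 180) (.e (nat_lit 303143) (nat_lit 12) (.e (nat_lit 475211) (nat_lit 41) (.e (nat_lit 712755) (nat_lit 30) (.e (nat_lit 450597) (nat_lit 17) .nil)))))) (.g (nat_lit 1) (.e (nat_lit 423501) (nat_lit 0) .nil) .nil))) 
(.lf (nat_lit 602671) (.g (nat_lit 1226) (.e (nat_lit 647183) (nat_lit 4) (.e (nat_lit 172094) (nat_lit 9) (.e (nat_lit 426025) (nat_lit 0) (.e (nat_lit 3399) (nat_lit 211) .nil)))) (.g (nat_lit 0) (.e (nat_lit 424835) (nat_lit 0) .nil) .nil)))) (.nd (nat_lit 9) 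
(.lf (nat_lit 602415) (.g (nat_lit 3969) (.e (nat_lit 647180) (nat_lit 3) (.e (nat_lit 163979) (nat_lit 30) (.e (nat_lit 573482) (nat_lit 13) (.e (nat_lit 65604) (nat_lit 9) (.e (nat_lit 336013) (nat_lit 2) (.e (nat_lit 90170) (nat_lit 13) (.e (nat_lit 172039) (nat_lit 0) (.e (nat_lit 3397) (nat_lit 211) .nil)))))))) (.g (nat_lit 1) (.e (nat_lit 424281) (nat_lit 0) .nil) .nil))) 
(.lf (nat_lit 602927) (.g (nat_lit 3565) (.e (nat_lit 647183) (nat_lit 4) (.e (nat_lit 172124) (nat_lit 14) (.e (nat_lit 491571) (nat_lit 13) (.e (nat_lit 393276) (nat_lit 23) (.e (nat_lit 426025) (nat_lit 0) (.e (nat_lit 3399) (nat_lit 211) .nil)))))) (.g (nat_lit 1) (.e (nat_lit 425197) (nat_lit 0) .nil) .nil))))) (.nd (nat_lit 8) (.nd (nat_lit 9) 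
(.lf (nat_lit 602287) (.g (nat_lit 2482) (.e (nat_lit 671763) (nat_lit 5) (.e (nat_lit 73781) (nat_lit 32) (.e (nat_lit 2856) (nat_lit 184) (.e (nat_lit 426542) (nat_lit 29) (.e (nat_lit 352297) (nat_lit 20) (.e (nat_lit 2004) (nat_lit 138) .nil)))))) (.g (nat_lit 1) (.e (nat_lit 423661) (nat_lit 0) .nil) .nil))) 
(.lf (nat_lit 602799) (.g (nat_lit 1781) (.e (nat_lit 647183) (nat_lit 4) (.e (nat_lit 172115) (nat_lit 10) (.e (nat_lit 434272) (nat_lit 38) (.e (nat_lit 655364) (nat_lit 0) (.e (nat_lit 3021) (nat_lit 187) .nil))))) (.g (nat_lit 0) (.e (nat_lit 425025) (nat_lit 0) .nil) .nil)))) (.nd (nat_lit 9) 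
(.lf (nat_lit 602543) (.g (nat_lit 4331) (.e (nat_lit 647181) (nat_lit 3) (.e (nat_lit 163977) (nat_lit 30) (.e (nat_lit 573493) (nat_lit 15) (.e (nat_lit 81956) (nat_lit 23) (.e (nat_lit 98362) (nat_lit 26) .nil))))) (.g (nat_lit 0) (.e (nat_lit 424464) (nat_lit 0) .nil) .nil))) 
(.lf (nat_lit 603055) (.g (nat_lit 1062) (.e (nat_lit 647185) (nat_lit 6) (.e (nat_lit 188450) (nat_lit 23) (.e (nat_lit 204821) (nat_lit 17) (.e (nat_lit 7936) (nat_lit 155) .nil)))) (.g (nat_lit 0) (.e (nat_lit 425694) (nat_lit 0) .nil) .nil)))))) (.nd (nat_lit 7) (.nd (nat_lit 8) (.nd (nat_lit 9) 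
(.lf (nat_lit 602223) (.g (nat_lit 1232) (.e (nat_lit 671761) (nat_lit 4) (.e (nat_lit 65624) (nat_lit 12) (.e (nat_lit 385102) (nat_lit 50) (.e (nat_lit 786481) (nat_lit 30) .nil)))) (.g (nat_lit 0) (.e (nat_lit 423591) (nat_lit 0) .nil) .nil))) 
(.lf (nat_lit 602735) (.g (nat_lit 1615) (.e (nat_lit 647183) (nat_lit 4) (.e (nat_lit 172112) (nat_lit 10) (.e (nat_lit 434271) (nat_lit 38) (.e (nat_lit 655380) (nat_lit 6) (.e (nat_lit 188430) (nat_lit 20) (.e (nat_lit 3399) (nat_lit 211) .nil)))))) (.g (nat_lit 1) (.e (nat_lit 424948) (nat_lit 0) .nil) .nil)))) (.nd (nat_lit 9) 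
(.lf (nat_lit 602479) (.g (nat_lit 4409) (.e (nat_lit 647181) (nat_lit 3) (.e (nat_lit 163977) (nat_lit 30) (.e (nat_lit 573485) (nat_lit 13) (.e (nat_lit 65619) (nat_lit 10) (.e (nat_lit 344117) (nat_lit 21) (.e (nat_lit 516151) (nat_lit 9) (.e (nat_lit 426025) (nat_lit 0) (.e (nat_lit 3399) (nat_lit 211) .nil)))))))) (.g (nat_lit 1) (.e (nat_lit 424381) (nat_lit 0) .nil) .nil))) 
(.lf (nat_lit 602991) (.g (nat_lit 2108) (.e (nat_lit 647183) (nat_lit 4) (.e (nat_lit 172126) (nat_lit 14) (.e (nat_lit 491571) (nat_lit 13) (.e (nat_lit 393282) (nat_lit 24) (.e (nat_lit 442112) (nat_lit 37) .nil))))) (.g (nat_lit 1) (.e (nat_lit 425314) (nat_lit 0) .nil) .nil))))) (.nd (nat_lit 8) (.nd (nat_lit 9) 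
(.lf (nat_lit 602351) (.g (nat_lit 2995) (.e (nat_lit 647170) (nat_lit 0) (.e (nat_lit 3098) (nat_lit 192) (.e (nat_lit 491566) (nat_lit 12) (.e (nat_lit 385097) (nat_lit 49) .nil)))) (.g (nat_lit 0) (.e (nat_lit 423979) (nat_lit 0) .nil) .nil))) 
(.lf (nat_lit 602863) (.g (nat_lit 1175) (.e (nat_lit 647183) (nat_lit 4) (.e (nat_lit 172120) (nat_lit 12) (.e (nat_lit 475198) (nat_lit 40) (.e (nat_lit 704599) (nat_lit 6) .nil)))) (.g (nat_lit 0) (.e (nat_lit 425099) (nat_lit 0) .nil) .nil)))) (.nd (nat_lit 9) 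
(.lf (nat_lit 602607) (.g (nat_lit 4286) (.e (nat_lit 647181) (nat_lit 3) (.e (nat_lit 163979) (nat_lit 30) (.e (nat_lit 573482) (nat_lit 13) (.e (nat_lit 65619) (nat_lit 10) (.e (nat_lit 344117) (nat_lit 21) (.e (nat_lit 516151) (nat_lit 9) (.e (nat_lit 426003) (nat_lit 0) (.e (nat_lit 3399) (nat_lit 211) .nil)))))))) (.g (nat_lit 1) (.e (nat_lit 424546) (nat_lit 0) .nil) .nil))) 
(.lf (nat_lit 603119) (.g (nat_lit 2300) (.e (nat_lit 655373) (nat_lit 3) (.e (nat_lit 163978) (nat_lit 30) (.e (nat_lit 573479) (nat_lit 13) (.e (nat_lit 65604) (nat_lit 9) .nil)))) (.g (nat_lit 0) (.e (nat_lit 426222) (nat_lit 0) .nil) .nil)))))))) (.nd (nat_lit 5) (.nd (nat_lit 6) (.nd (nat_lit 7) (.nd (nat_lit 8) (.nd (nat_lit 9) 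
(.lf (nat_lit 602143) (.g (nat_lit 1354) (.e (nat_lit 663585) (nat_lit 12) (.e (nat_lit 163979) (nat_lit 30) (.e (nat_lit 573470) (nat_lit 11) (.e (nat_lit 16465) (nat_lit 13) .nil)))) (.g (nat_lit 0) (.e (nat_lit 423384) (nat_lit 0) .nil) .nil))) 
(.lf (nat_lit 602655) (.g (nat_lit 1536) (.e (nat_lit 647183) (nat_lit 4) (.e (nat_lit 172038) (nat_lit 0) (.e (nat_lit 6989) (nat_lit 377) (.e (nat_lit 2777) (nat_lit 178) (.e (nat_lit 286771) (nat_lit 29) (.e (nat_lit 442399) (nat_lit 20) (.e (nat_lit 3399) (nat_lit 211) .nil))))))) (.g (nat_lit 1) (.e (nat_lit 424804) (nat_lit 0) .nil) .nil)))) (.nd (nat_lit 9) 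
(.lf (nat_lit 602399) (.g (nat_lit 2440) (.e (nat_lit 647180) (nat_lit 3) (.e (nat_lit 163978) (nat_lit 30) (.e (nat_lit 573479) (nat_lit 13) (.e (nat_lit 65619) (nat_lit 10) (.e (nat_lit 344117) (nat_lit 21) (.e (nat_lit 516151) (nat_lit 9) (.e (nat_lit 426023) (nat_lit 0) (.e (nat_lit 3401) (nat_lit 211) .nil)))))))) (.g (nat_lit 1) (.e (nat_lit 424263) (nat_lit 0) .nil) .nil))) 
(.lf (nat_lit 602911) (.g (nat_lit 1441) (.e (nat_lit 647183) (nat_lit 4) (.e (nat_lit 172124) (nat_lit 14) (.e (nat_lit 491569) (nat_lit 13) (.e (nat_lit 393277) (nat_lit 23) .nil)))) (.g (nat_lit 0) (.e (nat_lit 425160) (nat_lit 0) .nil) .nil))))) (.nd (nat_lit 8) (.nd (nat_lit 9) 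
(.lf (nat_lit 602271) (.g (nat_lit 3443) (.e (nat_lit 671762) (nat_lit 4) (.e (nat_lit 65630) (nat_lit 14) (.e (nat_lit 401437) (nat_lit 9) (.e (nat_lit 426555) (nat_lit 32) (.e (nat_lit 376847) (nat_lit 20) .nil))))) (.g (nat_lit 0) (.e (nat_lit 423645) (nat_lit 0) .nil) .nil))) 
(.lf (nat_lit 602783) (.g (nat_lit 2113) (.e (nat_lit 647183) (nat_lit 4) (.e (nat_lit 172115) (nat_lit 10) (.e (nat_lit 434209) (nat_lit 18) (.e (nat_lit 5548) (nat_lit 306) (.e (nat_lit 2648) (nat_lit 166) (.e (nat_lit 188427) (nat_lit 20) (.e (nat_lit 3402) (nat_lit 211) .nil))))))) (.g (nat_lit 1) (.e (nat_lit 425006) (nat_lit 0) .nil) .nil)))) (.nd (nat_lit 9) 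
(.lf (nat_lit 602527) (.g (nat_lit 3802) (.e (nat_lit 647181) (nat_lit 3) (.e (nat_lit 163977) (nat_lit 30) (.e (nat_lit 573493) (nat_lit 15) (.e (nat_lit 81954) (nat_lit 23) (.e (nat_lit 98359) (nat_lit 26) (.e (nat_lit 426023) (nat_lit 0) (.e (nat_lit 3402) (nat_lit 211) .nil))))))) (.g (nat_lit 1) (.e (nat_lit 424446) (nat_lit 0) .nil) .nil))) 
(.lf (nat_lit 603039) (.g (nat_lit 2065) (.e (nat_lit 647185) (nat_lit 6) (.e (nat_lit 188441) (nat_lit 20) (.e (nat_lit 3409) (nat_lit 212) (.e (nat_lit 655378) (nat_lit 4) (.e (nat_lit 172097) (nat_lit 9) (.e (nat_lit 426025) (nat_lit 0) (.e (nat_lit 3397) (nat_lit 211) .nil))))))) (.g (nat_lit 1) (.e (nat_lit 425643) (nat_lit 0) .nil) .nil)))))) 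
(.nd (nat_lit 7) (.nd (nat_lit 8) (.nd (nat_lit 9) 
(.lf (nat_lit 602207) (.g (nat_lit 1339) (.e (nat_lit 671760) (nat_lit 4) (.e (nat_lit 65619) (nat_lit 10) (.e (nat_lit 344169) (nat_lit 40) (.e (nat_lit 671764) (nat_lit 6) (.e (nat_lit 81946) (nat_lit 20) .nil))))) (.g (nat_lit 0) (.e (nat_lit 423573) (nat_lit 0) .nil) .nil))) 
(.lf (nat_lit 602719) (.g (nat_lit 1778) (.e (nat_lit 647183) (nat_lit 4) (.e (nat_lit 172107) (nat_lit 10) (.e (nat_lit 434271) (nat_lit 38) (.e (nat_lit 655378) (nat_lit 4) (.e (nat_lit 172089) (nat_lit 9) (.e (nat_lit 426025) (nat_lit 0) (.e (nat_lit 3397) (nat_lit 211) .nil))))))) (.g (nat_lit 1) (.e (nat_lit 424931) (nat_lit 0) .nil) .nil)))) (.nd (nat_lit 9) 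
(.lf (nat_lit 602463) (.g (nat_lit 4582) (.e (nat_lit 647181) (nat_lit 3) (.e (nat_lit 163977) (nat_lit 30) (.e (nat_lit 573484) (nat_lit 13) (.e (nat_lit 65610) (nat_lit 10) (.e (nat_lit 344117) (nat_lit 21) (.e (nat_lit 516151) (nat_lit 9) (.e (nat_lit 426022) (nat_lit 0) (.e (nat_lit 3401) (nat_lit 211) .nil)))))))) (.g (nat_lit 1) (.e (nat_lit 424365) (nat_lit 0) .nil) .nil))) 
(.lf (nat_lit 602975) (.g (nat_lit 3160) (.e (nat_lit 647183) (nat_lit 4) (.e (nat_lit 172126) (nat_lit 14) (.e (nat_lit 491571) (nat_lit 13) (.e (nat_lit 393232) (nat_lit 17) (.e (nat_lit 7314) (nat_lit 388) (.e (nat_lit 2439) (nat_lit 157) (.e (nat_lit 3399) (nat_lit 211) .nil))))))) (.g (nat_lit 1) (.e (nat_lit 425272) (nat_lit 0) .nil) .nil))))) (.nd (nat_lit 8) (.nd (nat_lit 9) 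
(.lf (nat_lit 602335) (.g (nat_lit 1050) (.e (nat_lit 647170) (nat_lit 0) (.e (nat_lit 3097) (nat_lit 192) (.e (nat_lit 491566) (nat_lit 12) (.e (nat_lit 385104) (nat_lit 50) .nil)))) (.g (nat_lit 0) (.e (nat_lit 423932) (nat_lit 0) .nil) .nil))) 
(.lf (nat_lit 602847) (.g (nat_lit 1726) (.e (nat_lit 647183) (nat_lit 4) (.e (nat_lit 172118) (nat_lit 12) (.e (nat_lit 475211) (nat_lit 41) (.e (nat_lit 712752) (nat_lit 29) (.e (nat_lit 442396) (nat_lit 20) .nil))))) (.g (nat_lit 0) (.e (nat_lit 425077) (nat_lit 0) .nil) .nil)))) (.nd (nat_lit 9) 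
(.lf (nat_lit 602591) (.g (nat_lit 2589) (.e (nat_lit 647181) (nat_lit 3) (.e (nat_lit 163979) (nat_lit 30) (.e (nat_lit 573482) (nat_lit 13) (.e (nat_lit 65604) (nat_lit 9) (.e (nat_lit 336013) (nat_lit 2) (.e (nat_lit 90134) (nat_lit 9) (.e (nat_lit 2884) (nat_lit 184) (.e (nat_lit 426025) (nat_lit 0) (.e (nat_lit 3397) (nat_lit 211) .nil))))))))) (.g (nat_lit 1) (.e (nat_lit 424530) (nat_lit 0) .nil) .nil))) 
(.lf (nat_lit 603103) (.g (nat_lit 2442) (.e (nat_lit 655364) (nat_lit 0) (.e (nat_lit 3098) (nat_lit 192) (.e (nat_lit 491566) (nat_lit 12) (.e (nat_lit 385105) (nat_lit 50) (.e (nat_lit 786481) (nat_lit 30) .nil))))) (.g (nat_lit 0) (.e (nat_lit 426157) (nat_lit 0) .nil) .nil))))))) (.nd (nat_lit 6) (.nd (nat_lit 7) (.nd (nat_lit 8) (.nd (nat_lit 9) 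
(.lf (nat_lit 602175) (.g (nat_lit 1563) (.e (nat_lit 671748) (nat_lit 0) (.e (nat_lit 1562) (nat_lit 110) (.e (nat_lit 352262) (nat_lit 0) (.e (nat_lit 3748) (nat_lit 228) (.e (nat_lit 786483) (nat_lit 30) .nil))))) (.g (nat_lit 0) (.e (nat_lit 423529) (nat_lit 0) .nil) .nil))) 
(.lf (nat_lit 602687) (.g (nat_lit 1350) (.e (nat_lit 647183) (nat_lit 4) (.e (nat_lit 172106) (nat_lit 10) (.e (nat_lit 434209) (nat_lit 18) (.e (nat_lit 5547) (nat_lit 306) .nil)))) (.g (nat_lit 0) (.e (nat_lit 424892) (nat_lit 0) .nil) .nil)))) (.nd (nat_lit 9) 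
(.lf (nat_lit 602431) (.g (nat_lit 3297) (.e (nat_lit 647180) (nat_lit 3) (.e (nat_lit 163979) (nat_lit 30) (.e (nat_lit 573493) (nat_lit 15) (.e (nat_lit 81954) (nat_lit 23) (.e (nat_lit 98354) (nat_lit 26) .nil))))) (.g (nat_lit 0) (.e (nat_lit 424315) (nat_lit 0) .nil) .nil))) 
(.lf (nat_lit 602943) (.g (nat_lit 1966) (.e (nat_lit 647183) (nat_lit 4) (.e (nat_lit 172126) (nat_lit 14) (.e (nat_lit 491548) (nat_lit 9) (.e (nat_lit 336430) (nat_lit 29) (.e (nat_lit 442392) (nat_lit 20) (.e (nat_lit 3397) (nat_lit 211) .nil)))))) (.g (nat_lit 1) (.e (nat_lit 425222) (nat_lit 0) .nil) .nil))))) (.nd (nat_lit 8) (.nd (nat_lit 9) 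
(.lf (nat_lit 602303) (.g (nat_lit 2155) (.e (nat_lit 671763) (nat_lit 5) (.e (nat_lit 73782) (nat_lit 32) (.e (nat_lit 2857) (nat_lit 184) (.e (nat_lit 426542) (nat_lit 29) (.e (nat_lit 352297) (nat_lit 20) (.e (nat_lit 2004) (nat_lit 138) .nil)))))) (.g (nat_lit 1) (.e (nat_lit 423677) (nat_lit 0) .nil) .nil))) 
(.lf (nat_lit 602815) (.g (nat_lit 1905) (.e (nat_lit 647183) (nat_lit 4) (.e (nat_lit 172116) (nat_lit 10) (.e (nat_lit 434272) (nat_lit 38) (.e (nat_lit 655363) (nat_lit 0) (.e (nat_lit 3015) (nat_lit 187) (.e (nat_lit 458496) (nat_lit 15) .nil)))))) (.g (nat_lit 1) (.e (nat_lit 425043) (nat_lit 0) .nil) .nil)))) (.nd (nat_lit 9) 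
(.lf (nat_lit 602559) (.g (nat_lit 3487) (.e (nat_lit 647181) (nat_lit 3) (.e (nat_lit 163978) (nat_lit 30) (.e (nat_lit 573484) (nat_lit 13) (.e (nat_lit 65610) (nat_lit 10) (.e (nat_lit 344117) (nat_lit 21) (.e (nat_lit 516151) (nat_lit 9) (.e (nat_lit 426003) (nat_lit 0) (.e (nat_lit 3397) (nat_lit 211) .nil)))))))) (.g (nat_lit 1) (.e (nat_lit 424495) (nat_lit 0) .nil) .nil))) 
(.lf (nat_lit 603071) (.g (nat_lit 2227) (.e (nat_lit 647190) (nat_lit 9) (.e (nat_lit 430) (nat_lit 32) (.e (nat_lit 426011) (nat_lit 0) (.e (nat_lit 3544) (nat_lit 219) (.e (nat_lit 712753) (nat_lit 30) .nil))))) (.g (nat_lit 0) (.e (nat_lit 425763) (nat_lit 0) .nil) .nil)))))) (.nd (nat_lit 7) (.nd (nat_lit 8) (.nd (nat_lit 9) 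
(.lf (nat_lit 602239) (.g (nat_lit 2203) (.e (nat_lit 671761) (nat_lit 4) (.e (nat_lit 65630) (nat_lit 14) (.e (nat_lit 401457) (nat_lit 13) (.e (nat_lit 483395) (nat_lit 24) .nil)))) (.g (nat_lit 0) (.e (nat_lit 423607) (nat_lit 0) .nil) .nil))) 
(.lf (nat_lit 602751) (.g (nat_lit 2243) (.e (nat_lit 647183) (nat_lit 4) (.e (nat_lit 172113) (nat_lit 10) (.e (nat_lit 434271) (nat_lit 38) (.e (nat_lit 655378) (nat_lit 4) (.e (nat_lit 172097) (nat_lit 9) (.e (nat_lit 426025) (nat_lit 0) (.e (nat_lit 3397) (nat_lit 211) .nil))))))) (.g (nat_lit 1) (.e (nat_lit 424966) (nat_lit 0) .nil) .nil)))) (.nd (nat_lit 9) 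
(.lf (nat_lit 602495) (.g (nat_lit 3156) (.e (nat_lit 647181) (nat_lit 3) (.e (nat_lit 163977) (nat_lit 30) (.e (nat_lit 573492) (nat_lit 15) (.e (nat_lit 81956) (nat_lit 23) (.e (nat_lit 98354) (nat_lit 26) (.e (nat_lit 426025) (nat_lit 0) (.e (nat_lit 3399) (nat_lit 211) .nil))))))) (.g (nat_lit 1) (.e (nat_lit 424402) (nat_lit 0) .nil) .nil))) 
(.lf (nat_lit 603007) (.g (nat_lit 1134) (.e (nat_lit 647185) (nat_lit 6) (.e (nat_lit 188420) (nat_lit 0) (.e (nat_lit 2056) (nat_lit 142) (.e (nat_lit 704598) (nat_lit 6) (.e (nat_lit 188427) (nat_lit 20) (.e (nat_lit 3402) (nat_lit 211) .nil)))))) (.g (nat_lit 1) (.e (nat_lit 425532) (nat_lit 0) .nil) .nil))))) (.nd (nat_lit 8) (.nd (nat_lit 9) 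
(.lf (nat_lit 602367) (.g (nat_lit 130) (.e (nat_lit 647171) (nat_lit 0) (.e (nat_lit 2829) (nat_lit 182) (.e (nat_lit 409649) (nat_lit 18) .nil))) (.g (nat_lit 0) (.e (nat_lit 424037) (nat_lit 0) .nil) .nil))) 
(.lf (nat_lit 602879) (.g (nat_lit 1277) (.e (nat_lit 647183) (nat_lit 4) (.e (nat_lit 172120) (nat_lit 12) (.e (nat_lit 475211) (nat_lit 41) (.e (nat_lit 712752) (nat_lit 29) .nil)))) (.g (nat_lit 0) (.e (nat_lit 425119) (nat_lit 0) .nil) .nil)))) (.nd (nat_lit 9) 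
(.lf (nat_lit 602623) (.g (nat_lit 2711) (.e (nat_lit 647181) (nat_lit 3) (.e (nat_lit 163979) (nat_lit 30) (.e (nat_lit 573491) (nat_lit 15) (.e (nat_lit 81954) (nat_lit 23) (.e (nat_lit 98360) (nat_lit 26) (.e (nat_lit 426025) (nat_lit 0) (.e (nat_lit 3397) (nat_lit 211) .nil))))))) (.g (nat_lit 1) (.e (nat_lit 424564) (nat_lit 0) .nil) .nil))) 
(.lf (nat_lit 603135) (.g (nat_lit 2710) (.e (nat_lit 655373) (nat_lit 3) (.e (nat_lit 163979) (nat_lit 30) (.e (nat_lit 573482) (nat_lit 13) (.e (nat_lit 65604) (nat_lit 9) (.e (nat_lit 336013) (nat_lit 2) (.e (nat_lit 90170) (nat_lit 13) (.e (nat_lit 172042) (nat_lit 0) (.e (nat_lit 3403) (nat_lit 212) .nil)))))))) (.g (nat_lit 1) (.e (nat_lit 426239) (nat_lit 0) .nil) .nil)))))))))))))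

noncomputable def tv5649 : DT := (.nd (nat_lit 0) (.nd (nat_lit 1) (.nd (nat_lit 2) (.nd (nat_lit 3) (.nd (nat_lit 4) (.nd (nat_lit 5) (.nd (nat_lit 6) (.nd (nat_lit 7) (.nd (nat_lit 8) (.nd (nat_lit 9) 
(.lf (nat_lit 603136) (.g (nat_lit 2733) (.e (nat_lit 655373) (nat_lit 3) (.e (nat_lit 163979) (nat_lit 30) (.e (nat_lit 573482) (nat_lit 13) (.e (nat_lit 65604) (nat_lit 9) (.e (nat_lit 336013) (nat_lit 2) (.e (nat_lit 90170) (nat_lit 13) (.e (nat_lit 172042) (nat_lit 0) (.e (nat_lit 3407) (nat_lit 212) .nil)))))))) (.g (nat_lit 1) (.e (nat_lit 426240) (nat_lit 0) .nil) .nil))) 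
(.lf (nat_lit 603648) (.g (nat_lit 2333) (.e (nat_lit 655378) (nat_lit 4) (.e (nat_lit 172115) (nat_lit 10) (.e (nat_lit 434272) (nat_lit 38) (.e (nat_lit 655380) (nat_lit 6) (.e (nat_lit 188439) (nat_lit 20) (.e (nat_lit 3409) (nat_lit 212) .nil)))))) (.g (nat_lit 1) (.e (nat_lit 427387) (nat_lit 0) .nil) .nil)))) (.nd (nat_lit 9) 
(.lf (nat_lit 603392) (.g (nat_lit 3896) (.e (nat_lit 655375) (nat_lit 3) (.e (nat_lit 163979) (nat_lit 30) (.e (nat_lit 573481) (nat_lit 13) (.e (nat_lit 65619) (nat_lit 10) (.e (nat_lit 344117) (nat_lit 21) (.e (nat_lit 516159) (nat_lit 10) (.e (nat_lit 434271) (nat_lit 38) .nil))))))) (.g (nat_lit 1) (.e (nat_lit 426758) (nat_lit 0) .nil) .nil))) 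
(.lf (nat_lit 603904) (.g (nat_lit 2112) (.e (nat_lit 769792) (nat_lit 12) (.e (nat_lit 131098) (nat_lit 3) (.e (nat_lit 98373) (nat_lit 29) (.e (nat_lit 450587) (nat_lit 10) (.e (nat_lit 573475) (nat_lit 12) .nil))))) (.g (nat_lit 0) (.e (nat_lit 428039) (nat_lit 0) .nil) .nil))))) (.nd (nat_lit 8) (.nd (nat_lit 9) 
(.lf (nat_lit 603264) (.g (nat_lit 2016) (.e (nat_lit 655375) (nat_lit 3) (.e (nat_lit 163978) (nat_lit 30) (.e (nat_lit 573482) (nat_lit 13) (.e (nat_lit 65609) (nat_lit 10) .nil)))) (.g (nat_lit 0) (.e (nat_lit 426421) (nat_lit 0) .nil) .nil))) 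
(.lf (nat_lit 603776) (.g (nat_lit 2353) (.e (nat_lit 655380) (nat_lit 6) (.e (nat_lit 188431) (nat_lit 20) (.e (nat_lit 3401) (nat_lit 211) (.e (nat_lit 647185) (nat_lit 6) (.e (nat_lit 188441) (nat_lit 20) (.e (nat_lit 3409) (nat_lit 212) .nil)))))) (.g (nat_lit 1) (.e (nat_lit 427774) (nat_lit 0) .nil) .nil)))) (.nd (nat_lit 9) 
(.lf (nat_lit 603520) (.g (nat_lit 4477) (.e (nat_lit 655375) (nat_lit 3) (.e (nat_lit 163979) (nat_lit 30) (.e (nat_lit 573493) (nat_lit 15) (.e (nat_lit 81956) (nat_lit 23) (.e (nat_lit 98359) (nat_lit 26) (.e (nat_lit 426043) (nat_lit 0) (.e (nat_lit 3409) (nat_lit 212) .nil))))))) (.g (nat_lit 1) (.e (nat_lit 426901) (nat_lit 0) .nil) .nil))) 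
(.lf (nat_lit 604032) (.g (nat_lit 4960) (.e (nat_lit 761898) (nat_lit 15) (.e (nat_lit 163977) (nat_lit 30) (.e (nat_lit 573489) (nat_lit 14) (.e (nat_lit 73755) (nat_lit 8) (.e (nat_lit 557103) (nat_lit 14) (.e (nat_lit 180244) (nat_lit 5) (.e (nat_lit 532481) (nat_lit 0) (.e (nat_lit 2271) (nat_lit 149) .nil)))))))) (.g (nat_lit 1) (.e (nat_lit 428545) (nat_lit 0) .nil) .nil)))))) 
(.nd (nat_lit 7) (.nd (nat_lit 8) (.nd (nat_lit 9) 
(.lf (nat_lit 603200) (.g (nat_lit 2961) (.e (nat_lit 655375) (nat_lit 3) (.e (nat_lit 163977) (nat_lit 30) (.e (nat_lit 573491) (nat_lit 15) (.e (nat_lit 81954) (nat_lit 23) (.e (nat_lit 98359) (nat_lit 26) (.e (nat_lit 426042) (nat_lit 0) (.e (nat_lit 3409) (nat_lit 212) .nil))))))) (.g (nat_lit 1) (.e (nat_lit 426352) (nat_lit 0) .nil) .nil))) 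
(.lf (nat_lit 603712) (.g (nat_lit 1919) (.e (nat_lit 655378) (nat_lit 4) (.e (nat_lit 172126) (nat_lit 14) (.e (nat_lit 491546) (nat_lit 9) (.e (nat_lit 336430) (nat_lit 29) .nil)))) (.g (nat_lit 0) (.e (nat_lit 427578) (nat_lit 0) .nil) .nil)))) (.nd (nat_lit 9) 
(.lf (nat_lit 603456) (.g (nat_lit 4160) (.e (nat_lit 655375) (nat_lit 3) (.e (nat_lit 163979) (nat_lit 30) (.e (nat_lit 573492) (nat_lit 15) (.e (nat_lit 81956) (nat_lit 23) (.e (nat_lit 98359) (nat_lit 26) (.e (nat_lit 426042) (nat_lit 0) (.e (nat_lit 3409) (nat_lit 212) .nil))))))) (.g (nat_lit 1) (.e (nat_lit 426835) (nat_lit 0) .nil) .nil))) 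
(.lf (nat_lit 603968) (.g (nat_lit 2005) (.e (nat_lit 761897) (nat_lit 15) (.e (nat_lit 163979) (nat_lit 30) (.e (nat_lit 573489) (nat_lit 14) (.e (nat_lit 73755) (nat_lit 8) (.e (nat_lit 557097) (nat_lit 13) .nil))))) (.g (nat_lit 0) (.e (nat_lit 428436) (nat_lit 0) .nil) .nil))))) (.nd (nat_lit 8) (.nd (nat_lit 9) 
(.lf (nat_lit 603328) (.g (nat_lit 3011) (.e (nat_lit 655375) (nat_lit 3) (.e (nat_lit 163978) (nat_lit 30) (.e (nat_lit 573491) (nat_lit 15) (.e (nat_lit 81953) (nat_lit 22) (.e (nat_lit 90170) (nat_lit 13) (.e (nat_lit 172042) (nat_lit 0) (.e (nat_lit 3409) (nat_lit 212) .nil))))))) (.g (nat_lit 1) (.e (nat_lit 426551) (nat_lit 0) .nil) .nil))) 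
(.lf (nat_lit 603840) (.g (nat_lit 1536) (.e (nat_lit 655380) (nat_lit 6) (.e (nat_lit 188454) (nat_lit 24) (.e (nat_lit 229663) (nat_lit 240) (.e (nat_lit 2651) (nat_lit 166) (.e (nat_lit 188439) (nat_lit 20) .nil))))) (.g (nat_lit 0) (.e (nat_lit 427887) (nat_lit 0) .nil) .nil)))) (.nd (nat_lit 9) 
(.lf (nat_lit 603584) (.g (nat_lit 2318) (.e (nat_lit 655378) (nat_lit 4) (.e (nat_lit 172106) (nat_lit 10) (.e (nat_lit 434209) (nat_lit 18) (.e (nat_lit 5546) (nat_lit 306) (.e (nat_lit 2650) (nat_lit 166) (.e (nat_lit 188441) (nat_lit 20) (.e (nat_lit 3409) (nat_lit 212) .nil))))))) (.g (nat_lit 1) (.e (nat_lit 427277) (nat_lit 0) .nil) .nil))) 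
(.lf (nat_lit 604096) (.g (nat_lit 4586) (.e (nat_lit 761898) (nat_lit 15) (.e (nat_lit 163978) (nat_lit 30) (.e (nat_lit 573489) (nat_lit 14) (.e (nat_lit 73754) (nat_lit 8) (.e (nat_lit 557100) (nat_lit 13) (.e (nat_lit 172065) (nat_lit 3) (.e (nat_lit 204817) (nat_lit 17) (.e (nat_lit 7936) (nat_lit 149) .nil)))))))) (.g (nat_lit 1) (.e (nat_lit 428640) (nat_lit 0) .nil) .nil))))))) 
(.nd (nat_lit 6) (.nd (nat_lit 7) (.nd (nat_lit 8) (.nd (nat_lit 9) 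
(.lf (nat_lit 603168) (.g (nat_lit 2152) (.e (nat_lit 655374) (nat_lit 3) (.e (nat_lit 163978) (nat_lit 30) (.e (nat_lit 573485) (nat_lit 13) (.e (nat_lit 65604) (nat_lit 9) (.e (nat_lit 336013) (nat_lit 2) .nil))))) (.g (nat_lit 0) (.e (nat_lit 426293) (nat_lit 0) .nil) .nil))) 
(.lf (nat_lit 603680) (.g (nat_lit 2362) (.e (nat_lit 655378) (nat_lit 4) (.e (nat_lit 172120) (nat_lit 12) (.e (nat_lit 475210) (nat_lit 41) (.e (nat_lit 712752) (nat_lit 29) (.e (nat_lit 442411) (nat_lit 20) .nil))))) (.g (nat_lit 0) (.e (nat_lit 427435) (nat_lit 0) .nil) .nil)))) (.nd (nat_lit 9) 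
(.lf (nat_lit 603424) (.g (nat_lit 1453) (.e (nat_lit 655375) (nat_lit 3) (.e (nat_lit 163979) (nat_lit 30) (.e (nat_lit 573491) (nat_lit 15) (.e (nat_lit 81953) (nat_lit 22) .nil)))) (.g (nat_lit 0) (.e (nat_lit 426790) (nat_lit 0) .nil) .nil))) 
(.lf (nat_lit 603936) (.g (nat_lit 2878) (.e (nat_lit 761895) (nat_lit 15) (.e (nat_lit 163978) (nat_lit 30) (.e (nat_lit 573489) (nat_lit 14) (.e (nat_lit 73754) (nat_lit 8) (.e (nat_lit 557100) (nat_lit 13) .nil))))) (.g (nat_lit 0) (.e (nat_lit 428239) (nat_lit 0) .nil) .nil))))) (.nd (nat_lit 8) (.nd (nat_lit 9) 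
(.lf (nat_lit 603296) (.g (nat_lit 2888) (.e (nat_lit 655375) (nat_lit 3) (.e (nat_lit 163978) (nat_lit 30) (.e (nat_lit 573490) (nat_lit 15) (.e (nat_lit 81951) (nat_lit 22) (.e (nat_lit 90170) (nat_lit 13) (.e (nat_lit 172046) (nat_lit 0) (.e (nat_lit 3407) (nat_lit 212) .nil))))))) (.g (nat_lit 1) (.e (nat_lit 426459) (nat_lit 0) .nil) .nil))) 
(.lf (nat_lit 603808) (.g (nat_lit 1498) (.e (nat_lit 655380) (nat_lit 6) (.e (nat_lit 188438) (nat_lit 20) (.e (nat_lit 3409) (nat_lit 212) (.e (nat_lit 655380) (nat_lit 6) (.e (nat_lit 188440) (nat_lit 20) (.e (nat_lit 3408) (nat_lit 212) .nil)))))) (.g (nat_lit 1) (.e (nat_lit 427816) (nat_lit 0) .nil) .nil)))) (.nd (nat_lit 9) 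
(.lf (nat_lit 603552) (.g (nat_lit 2836) (.e (nat_lit 655377) (nat_lit 4) (.e (nat_lit 172120) (nat_lit 12) (.e (nat_lit 475211) (nat_lit 41) (.e (nat_lit 712755) (nat_lit 30) (.e (nat_lit 458496) (nat_lit 16) .nil))))) (.g (nat_lit 1) (.e (nat_lit 427131) (nat_lit 0) .nil) .nil))) 
(.lf (nat_lit 604064) (.g (nat_lit 3471) (.e (nat_lit 761898) (nat_lit 15) (.e (nat_lit 163978) (nat_lit 30) (.e (nat_lit 573487) (nat_lit 14) (.e (nat_lit 73753) (nat_lit 8) (.e (nat_lit 557098) (nat_lit 13) (.e (nat_lit 172066) (nat_lit 3) (.e (nat_lit 204817) (nat_lit 17) (.e (nat_lit 7936) (nat_lit 149) .nil)))))))) (.g (nat_lit 1) (.e (nat_lit 428606) (nat_lit 0) .nil) .nil)))))) 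
(.nd (nat_lit 7) (.nd (nat_lit 8) (.nd (nat_lit 9) 
(.lf (nat_lit 603232) (.g (nat_lit 3796) (.e (nat_lit 655375) (nat_lit 3) (.e (nat_lit 163978) (nat_lit 30) (.e (nat_lit 573480) (nat_lit 13) (.e (nat_lit 65604) (nat_lit 9) (.e (nat_lit 336013) (nat_lit 2) (.e (nat_lit 90170) (nat_lit 13) (.e (nat_lit 172042) (nat_lit 0) (.e (nat_lit 3408) (nat_lit 212) .nil)))))))) (.g (nat_lit 1) (.e (nat_lit 426388) (nat_lit 0) .nil) .nil))) 
(.lf (nat_lit 603744) (.g (nat_lit 1714) (.e (nat_lit 655378) (nat_lit 4) (.e (nat_lit 172126) (nat_lit 14) (.e (nat_lit 491567) (nat_lit 13) (.e (nat_lit 393274) (nat_lit 23) .nil)))) (.g (nat_lit 0) (.e (nat_lit 427647) (nat_lit 0) .nil) .nil)))) (.nd (nat_lit 9) 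
(.lf (nat_lit 603488) (.g (nat_lit 4583) (.e (nat_lit 655375) (nat_lit 3) (.e (nat_lit 163979) (nat_lit 30) (.e (nat_lit 573492) (nat_lit 15) (.e (nat_lit 81956) (nat_lit 23) (.e (nat_lit 98362) (nat_lit 26) (.e (nat_lit 426047) (nat_lit 0) (.e (nat_lit 3409) (nat_lit 212) .nil))))))) (.g (nat_lit 1) (.e (nat_lit 426867) (nat_lit 0) .nil) .nil))) 
(.lf (nat_lit 604000) (.g (nat_lit 3732) (.e (nat_lit 761898) (nat_lit 15) (.e (nat_lit 163977) (nat_lit 30) (.e (nat_lit 573489) (nat_lit 14) (.e (nat_lit 73754) (nat_lit 8) (.e (nat_lit 557100) (nat_lit 13) (.e (nat_lit 172067) (nat_lit 3) (.e (nat_lit 204817) (nat_lit 17) (.e (nat_lit 7936) (nat_lit 149) .nil)))))))) (.g (nat_lit 1) (.e (nat_lit 428504) (nat_lit 0) .nil) .nil))))) 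
(.nd (nat_lit 8) (.nd (nat_lit 9) 
(.lf (nat_lit 603360) (.g (nat_lit 3024) (.e (nat_lit 655375) (nat_lit 3) (.e (nat_lit 163978) (nat_lit 30) (.e (nat_lit 573493) (nat_lit 15) (.e (nat_lit 81954) (nat_lit 23) (.e (nat_lit 98359) (nat_lit 26) (.e (nat_lit 426043) (nat_lit 0) (.e (nat_lit 3409) (nat_lit 212) .nil))))))) (.g (nat_lit 1) (.e (nat_lit 426669) (nat_lit 0) .nil) .nil))) 
(.lf (nat_lit 603872) (.g (nat_lit 1582) (.e (nat_lit 753671) (nat_lit 5) (.e (nat_lit 3098) (nat_lit 192) (.e (nat_lit 491568) (nat_lit 13) (.e (nat_lit 393301) (nat_lit 27) .nil)))) (.g (nat_lit 0) (.e (nat_lit 427946) (nat_lit 0) .nil) .nil)))) (.nd (nat_lit 9) 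
(.lf (nat_lit 603616) (.g (nat_lit 1899) (.e (nat_lit 655378) (nat_lit 4) (.e (nat_lit 172107) (nat_lit 10) (.e (nat_lit 434272) (nat_lit 38) (.e (nat_lit 655380) (nat_lit 6) (.e (nat_lit 188441) (nat_lit 20) (.e (nat_lit 3406) (nat_lit 212) .nil)))))) (.g (nat_lit 1) (.e (nat_lit 427327) (nat_lit 0) .nil) .nil))) 
(.lf (nat_lit 604128) (.g (nat_lit 4888) (.e (nat_lit 761898) (nat_lit 15) (.e (nat_lit 163978) (nat_lit 30) (.e (nat_lit 573489) (nat_lit 14) (.e (nat_lit 73755) (nat_lit 8) (.e (nat_lit 557103) (nat_lit 14) (.e (nat_lit 180244) (nat_lit 5) (.e (nat_lit 532484) (nat_lit 0) (.e (nat_lit 7936) (nat_lit 149) .nil)))))))) (.g (nat_lit 1) (.e (nat_lit 428680) (nat_lit 0) .nil) .nil)))))))) 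
(.nd (nat_lit 5) (.nd (nat_lit 6) (.nd (nat_lit 7) (.nd (nat_lit 8) (.nd (nat_lit 9) 
(.lf (nat_lit 603152) (.g (nat_lit 3364) (.e (nat_lit 655373) (nat_lit 3) (.e (nat_lit 163979) (nat_lit 30) (.e (nat_lit 573493) (nat_lit 15) (.e (nat_lit 81951) (nat_lit 22) (.e (nat_lit 90170) (nat_lit 13) (.e (nat_lit 172049) (nat_lit 0) (.e (nat_lit 3407) (nat_lit 212) .nil))))))) (.g (nat_lit 1) (.e (nat_lit 426261) (nat_lit 0) .nil) .nil))) 
(.lf (nat_lit 603664) (.g (nat_lit 3090) (.e (nat_lit 655378) (nat_lit 4) (.e (nat_lit 172118) (nat_lit 12) (.e (nat_lit 475210) (nat_lit 41) (.e (nat_lit 712753) (nat_lit 30) (.e (nat_lit 450593) (nat_lit 16) .nil))))) (.g (nat_lit 1) (.e (nat_lit 427410) (nat_lit 0) .nil) .nil)))) (.nd (nat_lit 9) 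
(.lf (nat_lit 603408) (.g (nat_lit 3199) (.e (nat_lit 655375) (nat_lit 3) (.e (nat_lit 163979) (nat_lit 30) (.e (nat_lit 573485) (nat_lit 13) (.e (nat_lit 65604) (nat_lit 9) (.e (nat_lit 336013) (nat_lit 2) (.e (nat_lit 90170) (nat_lit 13) (.e (nat_lit 172049) (nat_lit 0) (.e (nat_lit 3409) (nat_lit 212) .nil)))))))) (.g (nat_lit 1) (.e (nat_lit 426774) (nat_lit 0) .nil) .nil))) 
(.lf (nat_lit 603920) (.g (nat_lit 3436) (.e (nat_lit 761894) (nat_lit 15) (.e (nat_lit 163978) (nat_lit 30) (.e (nat_lit 573489) (nat_lit 14) (.e (nat_lit 73755) (nat_lit 8) (.e (nat_lit 557104) (nat_lit 14) .nil))))) (.g (nat_lit 0) (.e (nat_lit 428156) (nat_lit 0) .nil) .nil))))) (.nd (nat_lit 8) (.nd (nat_lit 9) 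
(.lf (nat_lit 603280) (.g (nat_lit 2845) (.e (nat_lit 655375) (nat_lit 3) (.e (nat_lit 163978) (nat_lit 30) (.e (nat_lit 573484) (nat_lit 13) (.e (nat_lit 65619) (nat_lit 10) .nil)))) (.g (nat_lit 0) (.e (nat_lit 426438) (nat_lit 0) .nil) .nil))) 
(.lf (nat_lit 603792) (.g (nat_lit 1615) (.e (nat_lit 655380) (nat_lit 6) (.e (nat_lit 188434) (nat_lit 20) (.e (nat_lit 3408) (nat_lit 212) (.e (nat_lit 655380) (nat_lit 6) (.e (nat_lit 188439) (nat_lit 20) (.e (nat_lit 3409) (nat_lit 212) .nil)))))) (.g (nat_lit 1) (.e (nat_lit 427796) (nat_lit 0) .nil) .nil)))) (.nd (nat_lit 9) 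
(.lf (nat_lit 603536) (.g (nat_lit 1791) (.e (nat_lit 655376) (nat_lit 4) (.e (nat_lit 172124) (nat_lit 14) (.e (nat_lit 491549) (nat_lit 9) (.e (nat_lit 336430) (nat_lit 29) .nil)))) (.g (nat_lit 0) (.e (nat_lit 426994) (nat_lit 0) .nil) .nil))) 
(.lf (nat_lit 604048) (.g (nat_lit 2987) (.e (nat_lit 761898) (nat_lit 15) (.e (nat_lit 163977) (nat_lit 30) (.e (nat_lit 573489) (nat_lit 14) (.e (nat_lit 73755) (nat_lit 8) (.e (nat_lit 557104) (nat_lit 14) (.e (nat_lit 180244) (nat_lit 5) (.e (nat_lit 532485) (nat_lit 0) (.e (nat_lit 2271) (nat_lit 149) .nil)))))))) (.g (nat_lit 1) (.e (nat_lit 428562) (nat_lit 0) .nil) .nil)))))) 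
(.nd (nat_lit 7) (.nd (nat_lit 8) (.nd (nat_lit 9) 
(.lf (nat_lit 603216) (.g (nat_lit 3667) (.e (nat_lit 655375) (nat_lit 3) (.e (nat_lit 163978) (nat_lit 30) (.e (nat_lit 573479) (nat_lit 13) (.e (nat_lit 65604) (nat_lit 9) (.e (nat_lit 336013) (nat_lit 2) (.e (nat_lit 90170) (nat_lit 13) (.e (nat_lit 172042) (nat_lit 0) (.e (nat_lit 3407) (nat_lit 212) .nil)))))))) (.g (nat_lit 1) (.e (nat_lit 426372) (nat_lit 0) .nil) .nil))) 
(.lf (nat_lit 603728) (.g (nat_lit 3325) (.e (nat_lit 655378) (nat_lit 4) (.e (nat_lit 172126) (nat_lit 14) (.e (nat_lit 491549) (nat_lit 9) (.e (nat_lit 336430) (nat_lit 29) (.e (nat_lit 442409) (nat_lit 20) (.e (nat_lit 3409) (nat_lit 212) .nil)))))) (.g (nat_lit 1) (.e (nat_lit 427608) (nat_lit 0) .nil) .nil)))) (.nd (nat_lit 9) 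
(.lf (nat_lit 603472) (.g (nat_lit 3374) (.e (nat_lit 655375) (nat_lit 3) (.e (nat_lit 163979) (nat_lit 30) (.e (nat_lit 573492) (nat_lit 15) (.e (nat_lit 81956) (nat_lit 23) (.e (nat_lit 98360) (nat_lit 26) (.e (nat_lit 426046) (nat_lit 0) (.e (nat_lit 3406) (nat_lit 212) .nil))))))) (.g (nat_lit 1) (.e (nat_lit 426851) (nat_lit 0) .nil) .nil))) 
(.lf (nat_lit 603984) (.g (nat_lit 2441) (.e (nat_lit 761898) (nat_lit 15) (.e (nat_lit 163977) (nat_lit 30) (.e (nat_lit 573487) (nat_lit 14) (.e (nat_lit 73753) (nat_lit 8) (.e (nat_lit 557098) (nat_lit 13) (.e (nat_lit 172066) (nat_lit 3) (.e (nat_lit 204821) (nat_lit 17) (.e (nat_lit 2270) (nat_lit 149) .nil)))))))) (.g (nat_lit 1) (.e (nat_lit 428486) (nat_lit 0) .nil) .nil))))) 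
(.nd (nat_lit 8) (.nd (nat_lit 9) 
(.lf (nat_lit 603344) (.g (nat_lit 2298) (.e (nat_lit 655375) (nat_lit 3) (.e (nat_lit 163978) (nat_lit 30) (.e (nat_lit 573491) (nat_lit 15) (.e (nat_lit 81956) (nat_lit 23) (.e (nat_lit 98367) (nat_lit 27) .nil))))) (.g (nat_lit 0) (.e (nat_lit 426567) (nat_lit 0) .nil) .nil))) 
(.lf (nat_lit 603856) (.g (nat_lit 2382) (.e (nat_lit 655380) (nat_lit 6) (.e (nat_lit 188455) (nat_lit 24) (.e (nat_lit 229666) (nat_lit 240) (.e (nat_lit 2651) (nat_lit 166) (.e (nat_lit 188439) (nat_lit 20) (.e (nat_lit 3408) (nat_lit 212) .nil)))))) (.g (nat_lit 1) (.e (nat_lit 427909) (nat_lit 0) .nil) .nil)))) (.nd (nat_lit 9) 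
(.lf (nat_lit 603600) (.g (nat_lit 2511) (.e (nat_lit 655378) (nat_lit 4) (.e (nat_lit 172106) (nat_lit 10) (.e (nat_lit 434272) (nat_lit 38) (.e (nat_lit 655380) (nat_lit 6) (.e (nat_lit 188439) (nat_lit 20) (.e (nat_lit 3408) (nat_lit 212) .nil)))))) (.g (nat_lit 1) (.e (nat_lit 427311) (nat_lit 0) .nil) .nil))) 
(.lf (nat_lit 604112) (.g (nat_lit 3137) (.e (nat_lit 761898) (nat_lit 15) (.e (nat_lit 163978) (nat_lit 30) (.e (nat_lit 573489) (nat_lit 14) (.e (nat_lit 73755) (nat_lit 8) (.e (nat_lit 557097) (nat_lit 13) (.e (nat_lit 172066) (nat_lit 3) (.e (nat_lit 204814) (nat_lit 17) (.e (nat_lit 2270) (nat_lit 149) .nil)))))))) (.g (nat_lit 1) (.e (nat_lit 428661) (nat_lit 0) .nil) .nil))))))) 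
(.nd (nat_lit 6) (.nd (nat_lit 7) (.nd (nat_lit 8) (.nd (nat_lit 9) 
(.lf (nat_lit 603184) (.g (nat_lit 2615) (.e (nat_lit 655375) (nat_lit 3) (.e (nat_lit 163973) (nat_lit 30) (.e (nat_lit 573484) (nat_lit 13) (.e (nat_lit 65610) (nat_lit 10) (.e (nat_lit 344117) (nat_lit 21) (.e (nat_lit 516151) (nat_lit 9) (.e (nat_lit 426043) (nat_lit 0) (.e (nat_lit 3408) (nat_lit 212) .nil)))))))) (.g (nat_lit 1) (.e (nat_lit 426327) (nat_lit 0) .nil) .nil))) 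
(.lf (nat_lit 603696) (.g (nat_lit 951) (.e (nat_lit 655378) (nat_lit 4) (.e (nat_lit 172124) (nat_lit 14) (.e (nat_lit 491550) (nat_lit 9) (.e (nat_lit 336430) (nat_lit 29) .nil)))) (.g (nat_lit 0) (.e (nat_lit 427461) (nat_lit 0) .nil) .nil)))) (.nd (nat_lit 9) 
(.lf (nat_lit 603440) (.g (nat_lit 4049) (.e (nat_lit 655375) (nat_lit 3) (.e (nat_lit 163979) (nat_lit 30) (.e (nat_lit 573492) (nat_lit 15) (.e (nat_lit 81954) (nat_lit 23) (.e (nat_lit 98359) (nat_lit 26) (.e (nat_lit 426043) (nat_lit 0) (.e (nat_lit 3407) (nat_lit 212) .nil))))))) (.g (nat_lit 1) (.e (nat_lit 426810) (nat_lit 0) .nil) .nil))) 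
(.lf (nat_lit 603952) (.g (nat_lit 4004) (.e (nat_lit 761897) (nat_lit 15) (.e (nat_lit 163978) (nat_lit 30) (.e (nat_lit 573489) (nat_lit 14) (.e (nat_lit 73754) (nat_lit 8) (.e (nat_lit 557100) (nat_lit 13) (.e (nat_lit 172065) (nat_lit 3) (.e (nat_lit 204817) (nat_lit 17) (.e (nat_lit 2272) (nat_lit 149) .nil)))))))) (.g (nat_lit 1) (.e (nat_lit 428382) (nat_lit 0) .nil) .nil))))) 
(.nd (nat_lit 8) (.nd (nat_lit 9) 
(.lf (nat_lit 603312) (.g (nat_lit 5145) (.e (nat_lit 655375) (nat_lit 3) (.e (nat_lit 163978) (nat_lit 30) (.e (nat_lit 573490) (nat_lit 15) (.e (nat_lit 81956) (nat_lit 23) (.e (nat_lit 98367) (nat_lit 27) (.e (nat_lit 434271) (nat_lit 38) .nil)))))) (.g (nat_lit 1) (.e (nat_lit 426476) (nat_lit 0) .nil) .nil))) 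
(.lf (nat_lit 603824) (.g (nat_lit 2534) (.e (nat_lit 655380) (nat_lit 6) (.e (nat_lit 188441) (nat_lit 20) (.e (nat_lit 3409) (nat_lit 212) (.e (nat_lit 655380) (nat_lit 6) (.e (nat_lit 188441) (nat_lit 20) (.e (nat_lit 3408) (nat_lit 212) .nil)))))) (.g (nat_lit 1) (.e (nat_lit 427835) (nat_lit 0) .nil) .nil)))) (.nd (nat_lit 9) 
(.lf (nat_lit 603568) (.g (nat_lit 1019) (.e (nat_lit 655378) (nat_lit 4) (.e (nat_lit 172089) (nat_lit 9) (.e (nat_lit 426025) (nat_lit 0) (.e (nat_lit 3399) (nat_lit 211) (.e (nat_lit 647185) (nat_lit 6) .nil))))) (.g (nat_lit 0) (.e (nat_lit 427237) (nat_lit 0) .nil) .nil))) 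
(.lf (nat_lit 604080) (.g (nat_lit 2498) (.e (nat_lit 761898) (nat_lit 15) (.e (nat_lit 163978) (nat_lit 30) (.e (nat_lit 573487) (nat_lit 14) (.e (nat_lit 73753) (nat_lit 8) (.e (nat_lit 557101) (nat_lit 13) (.e (nat_lit 172065) (nat_lit 3) (.e (nat_lit 204821) (nat_lit 17) (.e (nat_lit 7936) (nat_lit 149) .nil)))))))) (.g (nat_lit 1) (.e (nat_lit 428623) (nat_lit 0) .nil) .nil)))))) 
(.nd (nat_lit 7) (.nd (nat_lit 8) (.nd (nat_lit 9) 
(.lf (nat_lit 603248) (.g (nat_lit 4019) (.e (nat_lit 655375) (nat_lit 3) (.e (nat_lit 163978) (nat_lit 30) (.e (nat_lit 573481) (nat_lit 13) (.e (nat_lit 65604) (nat_lit 9) (.e (nat_lit 336028) (nat_lit 3) (.e (nat_lit 98359) (nat_lit 26) (.e (nat_lit 426043) (nat_lit 0) (.e (nat_lit 3408) (nat_lit 212) .nil)))))))) (.g (nat_lit 1) (.e (nat_lit 426405) (nat_lit 0) .nil) .nil))) 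
(.lf (nat_lit 603760) (.g (nat_lit 3138) (.e (nat_lit 655378) (nat_lit 4) (.e (nat_lit 172126) (nat_lit 14) (.e (nat_lit 491571) (nat_lit 13) (.e (nat_lit 393280) (nat_lit 23) .nil)))) (.g (nat_lit 0) (.e (nat_lit 427711) (nat_lit 0) .nil) .nil)))) (.nd (nat_lit 9) 
(.lf (nat_lit 603504) (.g (nat_lit 4214) (.e (nat_lit 655375) (nat_lit 3) (.e (nat_lit 163979) (nat_lit 30) (.e (nat_lit 573493) (nat_lit 15) (.e (nat_lit 81951) (nat_lit 22) (.e (nat_lit 90170) (nat_lit 13) (.e (nat_lit 172049) (nat_lit 0) (.e (nat_lit 3408) (nat_lit 212) .nil))))))) (.g (nat_lit 1) (.e (nat_lit 426885) (nat_lit 0) .nil) .nil))) 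
(.lf (nat_lit 604016) (.g (nat_lit 4077) (.e (nat_lit 761898) (nat_lit 15) (.e (nat_lit 163977) (nat_lit 30) (.e (nat_lit 573489) (nat_lit 14) (.e (nat_lit 73755) (nat_lit 8) (.e (nat_lit 557097) (nat_lit 13) (.e (nat_lit 172066) (nat_lit 3) (.e (nat_lit 204817) (nat_lit 17) (.e (nat_lit 7936) (nat_lit 149) .nil)))))))) (.g (nat_lit 1) (.e (nat_lit 428525) (nat_lit 0) .nil) .nil))))) 
(.nd (nat_lit 8) (.nd (nat_lit 9) 
(.lf (nat_lit 603376) (.g (nat_lit 4351) (.e (nat_lit 655375) (nat_lit 3) (.e (nat_lit 163978) (nat_lit 30) (.e (nat_lit 573493) (nat_lit 15) (.e (nat_lit 81956) (nat_lit 23) (.e (nat_lit 106240) (nat_lit 27) (.e (nat_lit 434272) (nat_lit 38) .nil)))))) (.g (nat_lit 1) (.e (nat_lit 426701) (nat_lit 0) .nil) .nil))) 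
(.lf (nat_lit 603888) (.g (nat_lit 2767) (.e (nat_lit 753683) (nat_lit 7) (.e (nat_lit 24662) (nat_lit 14) (.e (nat_lit 401459) (nat_lit 13) (.e (nat_lit 483380) (nat_lit 23) .nil)))) (.g (nat_lit 0) (.e (nat_lit 427975) (nat_lit 0) .nil) .nil)))) (.nd (nat_lit 9) 
(.lf (nat_lit 603632) (.g (nat_lit 3244) (.e (nat_lit 655378) (nat_lit 4) (.e (nat_lit 172115) (nat_lit 10) (.e (nat_lit 434209) (nat_lit 18) (.e (nat_lit 5546) (nat_lit 306) (.e (nat_lit 2648) (nat_lit 166) (.e (nat_lit 188440) (nat_lit 20) (.e (nat_lit 3409) (nat_lit 212) .nil))))))) (.g (nat_lit 1) (.e (nat_lit 427352) (nat_lit 0) .nil) .nil))) 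
(.lf (nat_lit 604144) (.g (nat_lit 2542) (.e (nat_lit 761898) (nat_lit 15) (.e (nat_lit 163979) (nat_lit 30) (.e (nat_lit 573487) (nat_lit 14) (.e (nat_lit 73753) (nat_lit 8) (.e (nat_lit 557096) (nat_lit 13) .nil))))) (.g (nat_lit 0) (.e (nat_lit 428723) (nat_lit 0) .nil) .nil))))))))) (.nd (nat_lit 4) (.nd (nat_lit 5) (.nd (nat_lit 6) (.nd (nat_lit 7) (.nd (nat_lit 8) (.nd (nat_lit 9) 
(.lf (nat_lit 603144) (.g (nat_lit 3314) (.e (nat_lit 655373) (nat_lit 3) (.e (nat_lit 163979) (nat_lit 30) (.e (nat_lit 573491) (nat_lit 15) (.e (nat_lit 81951) (nat_lit 22) (.e (nat_lit 90170) (nat_lit 13) (.e (nat_lit 172046) (nat_lit 0) (.e (nat_lit 3406) (nat_lit 212) .nil))))))) (.g (nat_lit 1) (.e (nat_lit 426248) (nat_lit 0) .nil) .nil))) 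
(.lf (nat_lit 603656) (.g (nat_lit 1681) (.e (nat_lit 655378) (nat_lit 4) (.e (nat_lit 172116) (nat_lit 10) (.e (nat_lit 434271) (nat_lit 38) (.e (nat_lit 655380) (nat_lit 6) (.e (nat_lit 188435) (nat_lit 20) (.e (nat_lit 3409) (nat_lit 212) .nil)))))) (.g (nat_lit 1) (.e (nat_lit 427402) (nat_lit 0) .nil) .nil)))) (.nd (nat_lit 9) 
(.lf (nat_lit 603400) (.g (nat_lit 4630) (.e (nat_lit 655375) (nat_lit 3) (.e (nat_lit 163979) (nat_lit 30) (.e (nat_lit 573482) (nat_lit 13) (.e (nat_lit 65604) (nat_lit 9) (.e (nat_lit 336028) (nat_lit 3) (.e (nat_lit 98359) (nat_lit 26) (.e (nat_lit 426043) (nat_lit 0) (.e (nat_lit 3409) (nat_lit 212) .nil)))))))) (.g (nat_lit 1) (.e (nat_lit 426766) (nat_lit 0) .nil) .nil))) 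
(.lf (nat_lit 603912) (.g (nat_lit 2981) (.e (nat_lit 761893) (nat_lit 15) (.e (nat_lit 163979) (nat_lit 30) (.e (nat_lit 573489) (nat_lit 14) (.e (nat_lit 73755) (nat_lit 8) (.e (nat_lit 557096) (nat_lit 13) .nil))))) (.g (nat_lit 0) (.e (nat_lit 428108) (nat_lit 0) .nil) .nil))))) (.nd (nat_lit 8) (.nd (nat_lit 9) 
(.lf (nat_lit 603272) (.g (nat_lit 3420) (.e (nat_lit 655375) (nat_lit 3) (.e (nat_lit 163978) (nat_lit 30) (.e (nat_lit 573483) (nat_lit 13) (.e (nat_lit 65610) (nat_lit 10) (.e (nat_lit 344117) (nat_lit 21) (.e (nat_lit 516151) (nat_lit 9) (.e (nat_lit 426043) (nat_lit 0) (.e (nat_lit 3409) (nat_lit 212) .nil)))))))) (.g (nat_lit 1) (.e (nat_lit 426429) (nat_lit 0) .nil) .nil))) 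
(.lf (nat_lit 603784) (.g (nat_lit 1696) (.e (nat_lit 655380) (nat_lit 6) (.e (nat_lit 188434) (nat_lit 20) (.e (nat_lit 3406) (nat_lit 212) (.e (nat_lit 655380) (nat_lit 6) (.e (nat_lit 188439) (nat_lit 20) (.e (nat_lit 3409) (nat_lit 212) .nil)))))) (.g (nat_lit 1) (.e (nat_lit 427785) (nat_lit 0) .nil) .nil)))) (.nd (nat_lit 9) 
(.lf (nat_lit 603528) (.g (nat_lit 1907) (.e (nat_lit 655376) (nat_lit 4) (.e (nat_lit 172120) (nat_lit 12) (.e (nat_lit 475198) (nat_lit 40) (.e (nat_lit 704598) (nat_lit 6) (.e (nat_lit 188434) (nat_lit 20) (.e (nat_lit 3406) (nat_lit 212) .nil)))))) (.g (nat_lit 1) (.e (nat_lit 426977) (nat_lit 0) .nil) .nil))) 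
(.lf (nat_lit 604040) (.g (nat_lit 2520) (.e (nat_lit 761898) (nat_lit 15) (.e (nat_lit 163977) (nat_lit 30) (.e (nat_lit 573489) (nat_lit 14) (.e (nat_lit 73755) (nat_lit 8) (.e (nat_lit 557104) (nat_lit 14) (.e (nat_lit 180242) (nat_lit 5) (.e (nat_lit 532483) (nat_lit 0) (.e (nat_lit 7936) (nat_lit 149) .nil)))))))) (.g (nat_lit 1) (.e (nat_lit 428554) (nat_lit 0) .nil) .nil)))))) 
(.nd (nat_lit 7) (.nd (nat_lit 8) (.nd (nat_lit 9) 
(.lf (nat_lit 603208) (.g (nat_lit 3914) (.e (nat_lit 655375) (nat_lit 3) (.e (nat_lit 163977) (nat_lit 30) (.e (nat_lit 573493) (nat_lit 15) (.e (nat_lit 81953) (nat_lit 22) (.e (nat_lit 90170) (nat_lit 13) (.e (nat_lit 172046) (nat_lit 0) (.e (nat_lit 3406) (nat_lit 212) .nil))))))) (.g (nat_lit 1) (.e (nat_lit 426363) (nat_lit 0) .nil) .nil))) 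
(.lf (nat_lit 603720) (.g (nat_lit 3102) (.e (nat_lit 655378) (nat_lit 4) (.e (nat_lit 172126) (nat_lit 14) (.e (nat_lit 491548) (nat_lit 9) (.e (nat_lit 336443) (nat_lit 32) (.e (nat_lit 466960) (nat_lit 20) (.e (nat_lit 3403) (nat_lit 212) .nil)))))) (.g (nat_lit 1) (.e (nat_lit 427595) (nat_lit 0) .nil) .nil)))) (.nd (nat_lit 9) 
(.lf (nat_lit 603464) (.g (nat_lit 3441) (.e (nat_lit 655375) (nat_lit 3) (.e (nat_lit 163979) (nat_lit 30) (.e (nat_lit 573492) (nat_lit 15) (.e (nat_lit 81956) (nat_lit 23) (.e (nat_lit 98360) (nat_lit 26) (.e (nat_lit 426037) (nat_lit 0) (.e (nat_lit 3406) (nat_lit 212) .nil))))))) (.g (nat_lit 1) (.e (nat_lit 426843) (nat_lit 0) .nil) .nil))) 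
(.lf (nat_lit 603976) (.g (nat_lit 2096) (.e (nat_lit 761898) (nat_lit 15) (.e (nat_lit 163977) (nat_lit 30) (.e (nat_lit 573487) (nat_lit 14) (.e (nat_lit 73753) (nat_lit 8) (.e (nat_lit 557097) (nat_lit 13) (.e (nat_lit 172065) (nat_lit 3) (.e (nat_lit 204817) (nat_lit 17) (.e (nat_lit 7936) (nat_lit 149) .nil)))))))) (.g (nat_lit 1) (.e (nat_lit 428478) (nat_lit 0) .nil) .nil))))) 
(.nd (nat_lit 8) (.nd (nat_lit 9) 
(.lf (nat_lit 603336) (.g (nat_lit 3459) (.e (nat_lit 655375) (nat_lit 3) (.e (nat_lit 163978) (nat_lit 30) (.e (nat_lit 573491) (nat_lit 15) (.e (nat_lit 81954) (nat_lit 23) (.e (nat_lit 98367) (nat_lit 27) (.e (nat_lit 434271) (nat_lit 38) .nil)))))) (.g (nat_lit 1) (.e (nat_lit 426559) (nat_lit 0) .nil) .nil))) 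
(.lf (nat_lit 603848) (.g (nat_lit 2270) (.e (nat_lit 655380) (nat_lit 6) (.e (nat_lit 188455) (nat_lit 24) (.e (nat_lit 229663) (nat_lit 240) (.e (nat_lit 2652) (nat_lit 166) .nil)))) (.g (nat_lit 0) (.e (nat_lit 427900) (nat_lit 0) .nil) .nil)))) (.nd (nat_lit 9) 
(.lf (nat_lit 603592) (.g (nat_lit 2633) (.e (nat_lit 655378) (nat_lit 4) (.e (nat_lit 172106) (nat_lit 10) (.e (nat_lit 434271) (nat_lit 38) (.e (nat_lit 655380) (nat_lit 6) (.e (nat_lit 188434) (nat_lit 20) (.e (nat_lit 3409) (nat_lit 212) .nil)))))) (.g (nat_lit 1) (.e (nat_lit 427296) (nat_lit 0) .nil) .nil))) 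
(.lf (nat_lit 604104) (.g (nat_lit 3000) (.e (nat_lit 761898) (nat_lit 15) (.e (nat_lit 163978) (nat_lit 30) (.e (nat_lit 573489) (nat_lit 14) (.e (nat_lit 73754) (nat_lit 8) (.e (nat_lit 557103) (nat_lit 14) (.e (nat_lit 180244) (nat_lit 5) (.e (nat_lit 532481) (nat_lit 0) (.e (nat_lit 2271) (nat_lit 149) .nil)))))))) (.g (nat_lit 1) (.e (nat_lit 428651) (nat_lit 0) .nil) .nil))))))) 
(.nd (nat_lit 6) (.nd (nat_lit 7) (.nd (nat_lit 8) (.nd (nat_lit 9) 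
(.lf (nat_lit 603176) (.g (nat_lit 2216) (.e (nat_lit 655374) (nat_lit 3) (.e (nat_lit 163979) (nat_lit 30) (.e (nat_lit 573482) (nat_lit 13) (.e (nat_lit 65619) (nat_lit 10) (.e (nat_lit 344117) (nat_lit 21) (.e (nat_lit 516151) (nat_lit 9) (.e (nat_lit 426043) (nat_lit 0) (.e (nat_lit 3409) (nat_lit 212) .nil)))))))) (.g (nat_lit 1) (.e (nat_lit 426306) (nat_lit 0) .nil) .nil))) 
(.lf (nat_lit 603688) (.g (nat_lit 1837) (.e (nat_lit 655378) (nat_lit 4) (.e (nat_lit 172124) (nat_lit 14) (.e (nat_lit 491547) (nat_lit 9) (.e (nat_lit 336432) (nat_lit 30) (.e (nat_lit 450593) (nat_lit 16) .nil))))) (.g (nat_lit 0) (.e (nat_lit 427449) (nat_lit 0) .nil) .nil)))) (.nd (nat_lit 9) 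
(.lf (nat_lit 603432) (.g (nat_lit 4049) (.e (nat_lit 655375) (nat_lit 3) (.e (nat_lit 163979) (nat_lit 30) (.e (nat_lit 573492) (nat_lit 15) (.e (nat_lit 81951) (nat_lit 22) (.e (nat_lit 90170) (nat_lit 13) (.e (nat_lit 172049) (nat_lit 0) (.e (nat_lit 3407) (nat_lit 212) .nil))))))) (.g (nat_lit 1) (.e (nat_lit 426801) (nat_lit 0) .nil) .nil))) 
(.lf (nat_lit 603944) (.g (nat_lit 2173) (.e (nat_lit 761895) (nat_lit 15) (.e (nat_lit 163979) (nat_lit 30) (.e (nat_lit 573482) (nat_lit 13) (.e (nat_lit 65627) (nat_lit 13) .nil)))) (.g (nat_lit 0) (.e (nat_lit 428259) (nat_lit 0) .nil) .nil))))) (.nd (nat_lit 8) (.nd (nat_lit 9) 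
(.lf (nat_lit 603304) (.g (nat_lit 4072) (.e (nat_lit 655375) (nat_lit 3) (.e (nat_lit 163978) (nat_lit 30) (.e (nat_lit 573490) (nat_lit 15) (.e (nat_lit 81954) (nat_lit 23) (.e (nat_lit 98359) (nat_lit 26) (.e (nat_lit 426043) (nat_lit 0) (.e (nat_lit 3407) (nat_lit 212) .nil))))))) (.g (nat_lit 1) (.e (nat_lit 426468) (nat_lit 0) .nil) .nil))) 
(.lf (nat_lit 603816) (.g (nat_lit 2284) (.e (nat_lit 655380) (nat_lit 6) (.e (nat_lit 188440) (nat_lit 20) (.e (nat_lit 3409) (nat_lit 212) (.e (nat_lit 655378) (nat_lit 4) (.e (nat_lit 172112) (nat_lit 10) (.e (nat_lit 434272) (nat_lit 38) .nil)))))) (.g (nat_lit 1) (.e (nat_lit 427824) (nat_lit 0) .nil) .nil)))) (.nd (nat_lit 9) 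
(.lf (nat_lit 603560) (.g (nat_lit 2039) (.e (nat_lit 655378) (nat_lit 4) (.e (nat_lit 172079) (nat_lit 7) (.e (nat_lit 409642) (nat_lit 17) (.e (nat_lit 294974) (nat_lit 29) (.e (nat_lit 442409) (nat_lit 20) (.e (nat_lit 3409) (nat_lit 212) .nil)))))) (.g (nat_lit 1) (.e (nat_lit 427220) (nat_lit 0) .nil) .nil))) 
(.lf (nat_lit 604072) (.g (nat_lit 4100) (.e (nat_lit 761898) (nat_lit 15) (.e (nat_lit 163978) (nat_lit 30) (.e (nat_lit 573487) (nat_lit 14) (.e (nat_lit 73753) (nat_lit 8) (.e (nat_lit 557100) (nat_lit 13) (.e (nat_lit 172065) (nat_lit 3) (.e (nat_lit 204821) (nat_lit 17) (.e (nat_lit 2270) (nat_lit 149) .nil)))))))) (.g (nat_lit 1) (.e (nat_lit 428614) (nat_lit 0) .nil) .nil)))))) 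
(.nd (nat_lit 7) (.nd (nat_lit 8) (.nd (nat_lit 9) 
(.lf (nat_lit 603240) (.g (nat_lit 3979) (.e (nat_lit 655375) (nat_lit 3) (.e (nat_lit 163978) (nat_lit 30) (.e (nat_lit 573480) (nat_lit 13) (.e (nat_lit 65610) (nat_lit 10) (.e (nat_lit 344117) (nat_lit 21) (.e (nat_lit 516160) (nat_lit 10) (.e (nat_lit 434272) (nat_lit 38) .nil))))))) (.g (nat_lit 1) (.e (nat_lit 426397) (nat_lit 0) .nil) .nil))) 
(.lf (nat_lit 603752) (.g (nat_lit 4136) (.e (nat_lit 655378) (nat_lit 4) (.e (nat_lit 172126) (nat_lit 14) (.e (nat_lit 491569) (nat_lit 13) (.e (nat_lit 393283) (nat_lit 24) (.e (nat_lit 434272) (nat_lit 38) .nil))))) (.g (nat_lit 1) (.e (nat_lit 427666) (nat_lit 0) .nil) .nil)))) (.nd (nat_lit 9) 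
(.lf (nat_lit 603496) (.g (nat_lit 3542) (.e (nat_lit 655375) (nat_lit 3) (.e (nat_lit 163979) (nat_lit 30) (.e (nat_lit 573492) (nat_lit 15) (.e (nat_lit 81956) (nat_lit 23) (.e (nat_lit 98367) (nat_lit 27) .nil))))) (.g (nat_lit 0) (.e (nat_lit 426875) (nat_lit 0) .nil) .nil))) 
(.lf (nat_lit 604008) (.g (nat_lit 2543) (.e (nat_lit 761898) (nat_lit 15) (.e (nat_lit 163977) (nat_lit 30) (.e (nat_lit 573489) (nat_lit 14) (.e (nat_lit 73755) (nat_lit 8) (.e (nat_lit 557096) (nat_lit 13) (.e (nat_lit 172065) (nat_lit 3) (.e (nat_lit 204817) (nat_lit 17) (.e (nat_lit 7936) (nat_lit 149) .nil)))))))) (.g (nat_lit 1) (.e (nat_lit 428514) (nat_lit 0) .nil) .nil))))) 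
(.nd (nat_lit 8) (.nd (nat_lit 9) 
(.lf (nat_lit 603368) (.g (nat_lit 4616) (.e (nat_lit 655375) (nat_lit 3) (.e (nat_lit 163978) (nat_lit 30) (.e (nat_lit 573493) (nat_lit 15) (.e (nat_lit 81956) (nat_lit 23) (.e (nat_lit 98362) (nat_lit 26) .nil))))) (.g (nat_lit 0) (.e (nat_lit 426693) (nat_lit 0) .nil) .nil))) 
(.lf (nat_lit 603880) (.g (nat_lit 3556) (.e (nat_lit 753673) (nat_lit 5) (.e (nat_lit 3098) (nat_lit 192) (.e (nat_lit 491569) (nat_lit 13) (.e (nat_lit 393301) (nat_lit 27) (.e (nat_lit 491560) (nat_lit 10) (.e (nat_lit 344171) (nat_lit 41) .nil)))))) (.g (nat_lit 1) (.e (nat_lit 427956) (nat_lit 0) .nil) .nil)))) (.nd (nat_lit 9) 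
(.lf (nat_lit 603624) (.g (nat_lit 2665) (.e (nat_lit 655378) (nat_lit 4) (.e (nat_lit 172112) (nat_lit 10) (.e (nat_lit 434272) (nat_lit 38) (.e (nat_lit 655380) (nat_lit 6) (.e (nat_lit 188441) (nat_lit 20) (.e (nat_lit 3409) (nat_lit 212) .nil)))))) (.g (nat_lit 1) (.e (nat_lit 427335) (nat_lit 0) .nil) .nil))) 
(.lf (nat_lit 604136) (.g (nat_lit 3983) (.e (nat_lit 761898) (nat_lit 15) (.e (nat_lit 163978) (nat_lit 30) (.e (nat_lit 573489) (nat_lit 14) (.e (nat_lit 73755) (nat_lit 8) (.e (nat_lit 557105) (nat_lit 14) (.e (nat_lit 180244) (nat_lit 5) (.e (nat_lit 532484) (nat_lit 0) (.e (nat_lit 7936) (nat_lit 149) .nil)))))))) (.g (nat_lit 1) (.e (nat_lit 428689) (nat_lit 0) .nil) .nil)))))))) 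
(.nd (nat_lit 5) (.nd (nat_lit 6) (.nd (nat_lit 7) (.nd (nat_lit 8) (.nd (nat_lit 9) 
(.lf (nat_lit 603160) (.g (nat_lit 3736) (.e (nat_lit 655373) (nat_lit 3) (.e (nat_lit 163979) (nat_lit 30) (.e (nat_lit 573493) (nat_lit 15) (.e (nat_lit 81953) (nat_lit 22) (.e (nat_lit 90170) (nat_lit 13) (.e (nat_lit 172049) (nat_lit 0) (.e (nat_lit 3408) (nat_lit 212) .nil))))))) (.g (nat_lit 1) (.e (nat_lit 426270) (nat_lit 0) .nil) .nil))) 
(.lf (nat_lit 603672) (.g (nat_lit 2422) (.e (nat_lit 655378) (nat_lit 4) (.e (nat_lit 172120) (nat_lit 12) (.e (nat_lit 475198) (nat_lit 40) (.e (nat_lit 704598) (nat_lit 6) (.e (nat_lit 188435) (nat_lit 20) (.e (nat_lit 3409) (nat_lit 212) .nil)))))) (.g (nat_lit 1) (.e (nat_lit 427422) (nat_lit 0) .nil) .nil)))) (.nd (nat_lit 9) 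
(.lf (nat_lit 603416) (.g (nat_lit 3209) (.e (nat_lit 655375) (nat_lit 3) (.e (nat_lit 163979) (nat_lit 30) (.e (nat_lit 573485) (nat_lit 13) (.e (nat_lit 65619) (nat_lit 10) (.e (nat_lit 344117) (nat_lit 21) (.e (nat_lit 516151) (nat_lit 9) (.e (nat_lit 426042) (nat_lit 0) (.e (nat_lit 3408) (nat_lit 212) .nil)))))))) (.g (nat_lit 1) (.e (nat_lit 426782) (nat_lit 0) .nil) .nil))) 
(.lf (nat_lit 603928) (.g (nat_lit 2484) (.e (nat_lit 761894) (nat_lit 15) (.e (nat_lit 163979) (nat_lit 30) (.e (nat_lit 573489) (nat_lit 14) (.e (nat_lit 73755) (nat_lit 8) (.e (nat_lit 557096) (nat_lit 13) .nil))))) (.g (nat_lit 0) (.e (nat_lit 428181) (nat_lit 0) .nil) .nil))))) (.nd (nat_lit 8) (.nd (nat_lit 9) 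
(.lf (nat_lit 603288) (.g (nat_lit 2976) (.e (nat_lit 655375) (nat_lit 3) (.e (nat_lit 163978) (nat_lit 30) (.e (nat_lit 573485) (nat_lit 13) (.e (nat_lit 65619) (nat_lit 10) (.e (nat_lit 344117) (nat_lit 21) (.e (nat_lit 516151) (nat_lit 9) (.e (nat_lit 426042) (nat_lit 0) (.e (nat_lit 3403) (nat_lit 212) .nil)))))))) (.g (nat_lit 1) (.e (nat_lit 426446) (nat_lit 0) .nil) .nil))) 
(.lf (nat_lit 603800) (.g (nat_lit 1802) (.e (nat_lit 655380) (nat_lit 6) (.e (nat_lit 188434) (nat_lit 20) (.e (nat_lit 3409) (nat_lit 212) (.e (nat_lit 655380) (nat_lit 6) (.e (nat_lit 188439) (nat_lit 20) (.e (nat_lit 3409) (nat_lit 212) .nil)))))) (.g (nat_lit 1) (.e (nat_lit 427808) (nat_lit 0) .nil) .nil)))) (.nd (nat_lit 9) 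
(.lf (nat_lit 603544) (.g (nat_lit 1242) (.e (nat_lit 655376) (nat_lit 4) (.e (nat_lit 172126) (nat_lit 14) (.e (nat_lit 491549) (nat_lit 9) (.e (nat_lit 336430) (nat_lit 29) .nil)))) (.g (nat_lit 0) (.e (nat_lit 427036) (nat_lit 0) .nil) .nil))) 
(.lf (nat_lit 604056) (.g (nat_lit 2638) (.e (nat_lit 761898) (nat_lit 15) (.e (nat_lit 163978) (nat_lit 30) (.e (nat_lit 573487) (nat_lit 14) (.e (nat_lit 73753) (nat_lit 8) (.e (nat_lit 557097) (nat_lit 13) (.e (nat_lit 172067) (nat_lit 3) (.e (nat_lit 204815) (nat_lit 17) (.e (nat_lit 2271) (nat_lit 149) .nil)))))))) (.g (nat_lit 1) (.e (nat_lit 428598) (nat_lit 0) .nil) .nil)))))) 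
(.nd (nat_lit 7) (.nd (nat_lit 8) (.nd (nat_lit 9) 
(.lf (nat_lit 603224) (.g (nat_lit 4813) (.e (nat_lit 655375) (nat_lit 3) (.e (nat_lit 163978) (nat_lit 30) (.e (nat_lit 573479) (nat_lit 13) (.e (nat_lit 65604) (nat_lit 9) (.e (nat_lit 336028) (nat_lit 3) (.e (nat_lit 98359) (nat_lit 26) (.e (nat_lit 426043) (nat_lit 0) (.e (nat_lit 3408) (nat_lit 212) .nil)))))))) (.g (nat_lit 1) (.e (nat_lit 426380) (nat_lit 0) .nil) .nil))) 
(.lf (nat_lit 603736) (.g (nat_lit 3074) (.e (nat_lit 655378) (nat_lit 4) (.e (nat_lit 172126) (nat_lit 14) (.e (nat_lit 491550) (nat_lit 9) (.e (nat_lit 336430) (nat_lit 29) (.e (nat_lit 442409) (nat_lit 20) (.e (nat_lit 3406) (nat_lit 212) .nil)))))) (.g (nat_lit 1) (.e (nat_lit 427616) (nat_lit 0) .nil) .nil)))) (.nd (nat_lit 9) 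
(.lf (nat_lit 603480) (.g (nat_lit 5065) (.e (nat_lit 655375) (nat_lit 3) (.e (nat_lit 163979) (nat_lit 30) (.e (nat_lit 573492) (nat_lit 15) (.e (nat_lit 81956) (nat_lit 23) (.e (nat_lit 98362) (nat_lit 26) (.e (nat_lit 426003) (nat_lit 0) (.e (nat_lit 3409) (nat_lit 212) .nil))))))) (.g (nat_lit 1) (.e (nat_lit 426859) (nat_lit 0) .nil) .nil))) 
(.lf (nat_lit 603992) (.g (nat_lit 3062) (.e (nat_lit 761898) (nat_lit 15) (.e (nat_lit 163977) (nat_lit 30) (.e (nat_lit 573487) (nat_lit 14) (.e (nat_lit 73753) (nat_lit 8) (.e (nat_lit 557101) (nat_lit 13) (.e (nat_lit 172066) (nat_lit 3) (.e (nat_lit 204817) (nat_lit 17) (.e (nat_lit 7936) (nat_lit 149) .nil)))))))) (.g (nat_lit 1) (.e (nat_lit 428495) (nat_lit 0) .nil) .nil))))) 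
(.nd (nat_lit 8) (.nd (nat_lit 9) 
(.lf (nat_lit 603352) (.g (nat_lit 2750) (.e (nat_lit 655375) (nat_lit 3) (.e (nat_lit 163978) (nat_lit 30) (.e (nat_lit 573493) (nat_lit 15) (.e (nat_lit 81953) (nat_lit 22) (.e (nat_lit 90170) (nat_lit 13) (.e (nat_lit 172042) (nat_lit 0) (.e (nat_lit 3406) (nat_lit 212) .nil))))))) (.g (nat_lit 1) (.e (nat_lit 426658) (nat_lit 0) .nil) .nil))) 
(.lf (nat_lit 603864) (.g (nat_lit 2473) (.e (nat_lit 655395) (nat_lit 11) (.e (nat_lit 16425) (nat_lit 7) (.e (nat_lit 409648) (nat_lit 18) (.e (nat_lit 303137) (nat_lit 10) (.e (nat_lit 434209) (nat_lit 18) .nil))))) (.g (nat_lit 0) (.e (nat_lit 427930) (nat_lit 0) .nil) .nil)))) (.nd (nat_lit 9) 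
(.lf (nat_lit 603608) (.g (nat_lit 1863) (.e (nat_lit 655378) (nat_lit 4) (.e (nat_lit 172107) (nat_lit 10) (.e (nat_lit 434271) (nat_lit 38) (.e (nat_lit 655380) (nat_lit 6) (.e (nat_lit 188441) (nat_lit 20) (.e (nat_lit 3406) (nat_lit 212) .nil)))))) (.g (nat_lit 1) (.e (nat_lit 427319) (nat_lit 0) .nil) .nil))) 
(.lf (nat_lit 604120) (.g (nat_lit 3937) (.e (nat_lit 761898) (nat_lit 15) (.e (nat_lit 163978) (nat_lit 30) (.e (nat_lit 573489) (nat_lit 14) (.e (nat_lit 73755) (nat_lit 8) (.e (nat_lit 557098) (nat_lit 13) (.e (nat_lit 172066) (nat_lit 3) (.e (nat_lit 204817) (nat_lit 17) (.e (nat_lit 7936) (nat_lit 149) .nil)))))))) (.g (nat_lit 1) (.e (nat_lit 428672) (nat_lit 0) .nil) .nil))))))) 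
(.nd (nat_lit 6) (.nd (nat_lit 7) (.nd (nat_lit 8) (.nd (nat_lit 9) 
(.lf (nat_lit 603192) (.g (nat_lit 2584) (.e (nat_lit 655375) (nat_lit 3) (.e (nat_lit 163977) (nat_lit 30) (.e (nat_lit 573482) (nat_lit 13) (.e (nat_lit 65604) (nat_lit 9) (.e (nat_lit 336013) (nat_lit 2) (.e (nat_lit 90170) (nat_lit 13) (.e (nat_lit 172042) (nat_lit 0) (.e (nat_lit 3407) (nat_lit 212) .nil)))))))) (.g (nat_lit 1) (.e (nat_lit 426344) (nat_lit 0) .nil) .nil))) 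
(.lf (nat_lit 603704) (.g (nat_lit 3546) (.e (nat_lit 655378) (nat_lit 4) (.e (nat_lit 172125) (nat_lit 14) (.e (nat_lit 491570) (nat_lit 13) (.e (nat_lit 393283) (nat_lit 24) (.e (nat_lit 434272) (nat_lit 38) .nil))))) (.g (nat_lit 1) (.e (nat_lit 427490) (nat_lit 0) .nil) .nil)))) (.nd (nat_lit 9) 
(.lf (nat_lit 603448) (.g (nat_lit 3705) (.e (nat_lit 655375) (nat_lit 3) (.e (nat_lit 163979) (nat_lit 30) (.e (nat_lit 573492) (nat_lit 15) (.e (nat_lit 81956) (nat_lit 23) (.e (nat_lit 98356) (nat_lit 26) (.e (nat_lit 425986) (nat_lit 0) (.e (nat_lit 3410) (nat_lit 212) .nil))))))) (.g (nat_lit 1) (.e (nat_lit 426827) (nat_lit 0) .nil) .nil))) 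
(.lf (nat_lit 603960) (.g (nat_lit 3256) (.e (nat_lit 761897) (nat_lit 15) (.e (nat_lit 163978) (nat_lit 30) (.e (nat_lit 573489) (nat_lit 14) (.e (nat_lit 73755) (nat_lit 8) (.e (nat_lit 557097) (nat_lit 13) (.e (nat_lit 172066) (nat_lit 3) (.e (nat_lit 204817) (nat_lit 17) (.e (nat_lit 2272) (nat_lit 149) .nil)))))))) (.g (nat_lit 1) (.e (nat_lit 428392) (nat_lit 0) .nil) .nil))))) 
(.nd (nat_lit 8) (.nd (nat_lit 9) 
(.lf (nat_lit 603320) (.g (nat_lit 4339) (.e (nat_lit 655375) (nat_lit 3) (.e (nat_lit 163978) (nat_lit 30) (.e (nat_lit 573491) (nat_lit 15) (.e (nat_lit 81952) (nat_lit 22) (.e (nat_lit 90170) (nat_lit 13) (.e (nat_lit 172042) (nat_lit 0) (.e (nat_lit 3407) (nat_lit 212) .nil))))))) (.g (nat_lit 1) (.e (nat_lit 426541) (nat_lit 0) .nil) .nil))) 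
(.lf (nat_lit 603832) (.g (nat_lit 2237) (.e (nat_lit 655380) (nat_lit 6) (.e (nat_lit 188446) (nat_lit 21) (.e (nat_lit 164347) (nat_lit 240) (.e (nat_lit 2650) (nat_lit 166) (.e (nat_lit 188435) (nat_lit 20) .nil))))) (.g (nat_lit 0) (.e (nat_lit 427870) (nat_lit 0) .nil) .nil)))) (.nd (nat_lit 9) 
(.lf (nat_lit 603576) (.g (nat_lit 955) (.e (nat_lit 655378) (nat_lit 4) (.e (nat_lit 172097) (nat_lit 9) (.e (nat_lit 426025) (nat_lit 0) (.e (nat_lit 3397) (nat_lit 211) .nil)))) (.g (nat_lit 0) (.e (nat_lit 427256) (nat_lit 0) .nil) .nil))) 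
(.lf (nat_lit 604088) (.g (nat_lit 2914) (.e (nat_lit 761898) (nat_lit 15) (.e (nat_lit 163978) (nat_lit 30) (.e (nat_lit 573487) (nat_lit 14) (.e (nat_lit 73753) (nat_lit 8) (.e (nat_lit 557103) (nat_lit 14) (.e (nat_lit 180243) (nat_lit 5) (.e (nat_lit 532484) (nat_lit 0) (.e (nat_lit 2272) (nat_lit 149) .nil)))))))) (.g (nat_lit 1) (.e (nat_lit 428632) (nat_lit 0) .nil) .nil)))))) 
(.nd (nat_lit 7) (.nd (nat_lit 8) (.nd (nat_lit 9) 
(.lf (nat_lit 603256) (.g (nat_lit 1981) (.e (nat_lit 655375) (nat_lit 3) (.e (nat_lit 163978) (nat_lit 30) (.e (nat_lit 573482) (nat_lit 13) (.e (nat_lit 65603) (nat_lit 9) .nil)))) (.g (nat_lit 0) (.e (nat_lit 426413) (nat_lit 0) .nil) .nil))) 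
(.lf (nat_lit 603768) (.g (nat_lit 2100) (.e (nat_lit 655380) (nat_lit 6) (.e (nat_lit 188427) (nat_lit 20) (.e (nat_lit 3401) (nat_lit 211) (.e (nat_lit 647185) (nat_lit 6) (.e (nat_lit 188441) (nat_lit 20) (.e (nat_lit 3409) (nat_lit 212) .nil)))))) (.g (nat_lit 1) (.e (nat_lit 427758) (nat_lit 0) .nil) .nil)))) (.nd (nat_lit 9) 
(.lf (nat_lit 603512) (.g (nat_lit 4160) (.e (nat_lit 655375) (nat_lit 3) (.e (nat_lit 163979) (nat_lit 30) (.e (nat_lit 573493) (nat_lit 15) (.e (nat_lit 81954) (nat_lit 23) (.e (nat_lit 98359) (nat_lit 26) (.e (nat_lit 426043) (nat_lit 0) (.e (nat_lit 3408) (nat_lit 212) .nil))))))) (.g (nat_lit 1) (.e (nat_lit 426893) (nat_lit 0) .nil) .nil))) 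
(.lf (nat_lit 604024) (.g (nat_lit 4549) (.e (nat_lit 761898) (nat_lit 15) (.e (nat_lit 163977) (nat_lit 30) (.e (nat_lit 573489) (nat_lit 14) (.e (nat_lit 73755) (nat_lit 8) (.e (nat_lit 557097) (nat_lit 13) (.e (nat_lit 172067) (nat_lit 3) (.e (nat_lit 204817) (nat_lit 17) (.e (nat_lit 7936) (nat_lit 149) .nil)))))))) (.g (nat_lit 1) (.e (nat_lit 428533) (nat_lit 0) .nil) .nil))))) 
(.nd (nat_lit 8) (.nd (nat_lit 9) 
(.lf (nat_lit 603384) (.g (nat_lit 3981) (.e (nat_lit 655375) (nat_lit 3) (.e (nat_lit 163979) (nat_lit 30) (.e (nat_lit 573481) (nat_lit 13) (.e (nat_lit 65604) (nat_lit 9) (.e (nat_lit 336013) (nat_lit 2) (.e (nat_lit 90170) (nat_lit 13) (.e (nat_lit 172049) (nat_lit 0) (.e (nat_lit 3409) (nat_lit 212) .nil)))))))) (.g (nat_lit 1) (.e (nat_lit 426750) (nat_lit 0) .nil) .nil))) 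
(.lf (nat_lit 603896) (.g (nat_lit 1391) (.e (nat_lit 761866) (nat_lit 5) (.e (nat_lit 1423) (nat_lit 108) (.e (nat_lit 336326) (nat_lit 18) (.e (nat_lit 204866) (nat_lit 28) (.e (nat_lit 352279) (nat_lit 19) .nil))))) (.g (nat_lit 0) (.e (nat_lit 428026) (nat_lit 0) .nil) .nil)))) (.nd (nat_lit 9) 
(.lf (nat_lit 603640) (.g (nat_lit 4313) (.e (nat_lit 655378) (nat_lit 4) (.e (nat_lit 172115) (nat_lit 10) (.e (nat_lit 434209) (nat_lit 18) (.e (nat_lit 5548) (nat_lit 306) (.e (nat_lit 2650) (nat_lit 166) (.e (nat_lit 188441) (nat_lit 20) (.e (nat_lit 3409) (nat_lit 212) .nil))))))) (.g (nat_lit 1) (.e (nat_lit 427370) (nat_lit 0) .nil) .nil))) 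
(.lf (nat_lit 604152) (.g (nat_lit 4644) (.e (nat_lit 761898) (nat_lit 15) (.e (nat_lit 163979) (nat_lit 30) (.e (nat_lit 573487) (nat_lit 14) (.e (nat_lit 73753) (nat_lit 8) (.e (nat_lit 557098) (nat_lit 13) (.e (nat_lit 172065) (nat_lit 3) (.e (nat_lit 204817) (nat_lit 17) (.e (nat_lit 7936) (nat_lit 149) .nil)))))))) (.g (nat_lit 1) (.e (nat_lit 428731) (nat_lit 0) .nil) .nil)))))))))) 
(.nd (nat_lit 3) (.nd (nat_lit 4) (.nd (nat_lit 5) (.nd (nat_lit 6) (.nd (nat_lit 7) 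
(.nd (nat_lit 8) (.nd (nat_lit 9) 
(.lf (nat_lit 603140) (.g (nat_lit 4046) (.e (nat_lit 655373) (nat_lit 3) (.e (nat_lit 163979) (nat_lit 30) (.e (nat_lit 573482) (nat_lit 13) (.e (nat_lit 65604) (nat_lit 9) (.e (nat_lit 336028) (nat_lit 3) (.e (nat_lit 98359) (nat_lit 26) (.e (nat_lit 426043) (nat_lit 0) (.e (nat_lit 3409) (nat_lit 212) .nil)))))))) (.g (nat_lit 1) (.e (nat_lit 426244) (nat_lit 0) .nil) .nil))) 
(.lf (nat_lit 603652) (.g (nat_lit 2973) (.e (nat_lit 655378) (nat_lit 4) (.e (nat_lit 172115) (nat_lit 10) (.e (nat_lit 434272) (nat_lit 38) (.e (nat_lit 655380) (nat_lit 6) (.e (nat_lit 188441) (nat_lit 20) (.e (nat_lit 3409) (nat_lit 212) .nil)))))) (.g (nat_lit 1) (.e (nat_lit 427391) (nat_lit 0) .nil) .nil)))) (.nd (nat_lit 9) 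
(.lf (nat_lit 603396) (.g (nat_lit 3149) (.e (nat_lit 655375) (nat_lit 3) (.e (nat_lit 163979) (nat_lit 30) (.e (nat_lit 573482) (nat_lit 13) (.e (nat_lit 65604) (nat_lit 9) (.e (nat_lit 336013) (nat_lit 2) (.e (nat_lit 90170) (nat_lit 13) (.e (nat_lit 172042) (nat_lit 0) (.e (nat_lit 3407) (nat_lit 212) .nil)))))))) (.g (nat_lit 1) (.e (nat_lit 426762) (nat_lit 0) .nil) .nil))) 
(.lf (nat_lit 603908) (.g (nat_lit 3701) (.e (nat_lit 761893) (nat_lit 15) (.e (nat_lit 163978) (nat_lit 30) (.e (nat_lit 573489) (nat_lit 14) (.e (nat_lit 73755) (nat_lit 8) (.e (nat_lit 557100) (nat_lit 13) .nil))))) (.g (nat_lit 0) (.e (nat_lit 428095) (nat_lit 0) .nil) .nil))))) (.nd (nat_lit 8) (.nd (nat_lit 9) 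
(.lf (nat_lit 603268) (.g (nat_lit 3042) (.e (nat_lit 655375) (nat_lit 3) (.e (nat_lit 163978) (nat_lit 30) (.e (nat_lit 573483) (nat_lit 13) (.e (nat_lit 65604) (nat_lit 9) (.e (nat_lit 336013) (nat_lit 2) (.e (nat_lit 90170) (nat_lit 13) (.e (nat_lit 172049) (nat_lit 0) (.e (nat_lit 3407) (nat_lit 212) .nil)))))))) (.g (nat_lit 1) (.e (nat_lit 426425) (nat_lit 0) .nil) .nil))) 
(.lf (nat_lit 603780) (.g (nat_lit 2088) (.e (nat_lit 655380) (nat_lit 6) (.e (nat_lit 188434) (nat_lit 20) (.e (nat_lit 3406) (nat_lit 212) (.e (nat_lit 655380) (nat_lit 6) (.e (nat_lit 188434) (nat_lit 20) (.e (nat_lit 3406) (nat_lit 212) .nil)))))) (.g (nat_lit 1) (.e (nat_lit 427781) (nat_lit 0) .nil) .nil)))) (.nd (nat_lit 9) 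
(.lf (nat_lit 603524) (.g (nat_lit 1035) (.e (nat_lit 655376) (nat_lit 4) (.e (nat_lit 172118) (nat_lit 12) (.e (nat_lit 475199) (nat_lit 40) (.e (nat_lit 704598) (nat_lit 6) .nil)))) (.g (nat_lit 0) (.e (nat_lit 426971) (nat_lit 0) .nil) .nil))) 
(.lf (nat_lit 604036) (.g (nat_lit 2319) (.e (nat_lit 761898) (nat_lit 15) (.e (nat_lit 163977) (nat_lit 30) (.e (nat_lit 573489) (nat_lit 14) (.e (nat_lit 73755) (nat_lit 8) (.e (nat_lit 557103) (nat_lit 14) (.e (nat_lit 180244) (nat_lit 5) (.e (nat_lit 532485) (nat_lit 0) (.e (nat_lit 2271) (nat_lit 149) .nil)))))))) (.g (nat_lit 1) (.e (nat_lit 428549) (nat_lit 0) .nil) .nil)))))) 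
(.nd (nat_lit 7) (.nd (nat_lit 8) (.nd (nat_lit 9) 
(.lf (nat_lit 603204) (.g (nat_lit 4068) (.e (nat_lit 655375) (nat_lit 3) (.e (nat_lit 163977) (nat_lit 30) (.e (nat_lit 573493) (nat_lit 15) (.e (nat_lit 81951) (nat_lit 22) (.e (nat_lit 90170) (nat_lit 13) (.e (nat_lit 172049) (nat_lit 0) (.e (nat_lit 3406) (nat_lit 212) .nil))))))) (.g (nat_lit 1) (.e (nat_lit 426358) (nat_lit 0) .nil) .nil))) 
(.lf (nat_lit 603716) (.g (nat_lit 2753) (.e (nat_lit 655378) (nat_lit 4) (.e (nat_lit 172126) (nat_lit 14) (.e (nat_lit 491547) (nat_lit 9) (.e (nat_lit 336430) (nat_lit 29) (.e (nat_lit 442409) (nat_lit 20) (.e (nat_lit 3406) (nat_lit 212) .nil)))))) (.g (nat_lit 1) (.e (nat_lit 427583) (nat_lit 0) .nil) .nil)))) (.nd (nat_lit 9) 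
(.lf (nat_lit 603460) (.g (nat_lit 3633) (.e (nat_lit 655375) (nat_lit 3) (.e (nat_lit 163979) (nat_lit 30) (.e (nat_lit 573492) (nat_lit 15) (.e (nat_lit 81956) (nat_lit 23) (.e (nat_lit 98360) (nat_lit 26) (.e (nat_lit 426004) (nat_lit 0) (.e (nat_lit 3413) (nat_lit 212) .nil))))))) (.g (nat_lit 1) (.e (nat_lit 426839) (nat_lit 0) .nil) .nil))) 
(.lf (nat_lit 603972) (.g (nat_lit 1221) (.e (nat_lit 761898) (nat_lit 15) (.e (nat_lit 163977) (nat_lit 30) (.e (nat_lit 573487) (nat_lit 14) (.e (nat_lit 73753) (nat_lit 8) .nil)))) (.g (nat_lit 0) (.e (nat_lit 428474) (nat_lit 0) .nil) .nil))))) (.nd (nat_lit 8) (.nd (nat_lit 9) 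
(.lf (nat_lit 603332) (.g (nat_lit 2629) (.e (nat_lit 655375) (nat_lit 3) (.e (nat_lit 163978) (nat_lit 30) (.e (nat_lit 573491) (nat_lit 15) (.e (nat_lit 81953) (nat_lit 22) (.e (nat_lit 90170) (nat_lit 13) (.e (nat_lit 172049) (nat_lit 0) (.e (nat_lit 3409) (nat_lit 212) .nil))))))) (.g (nat_lit 1) (.e (nat_lit 426555) (nat_lit 0) .nil) .nil))) 
(.lf (nat_lit 603844) (.g (nat_lit 2986) (.e (nat_lit 655380) (nat_lit 6) (.e (nat_lit 188455) (nat_lit 24) (.e (nat_lit 229663) (nat_lit 240) (.e (nat_lit 2630) (nat_lit 164) (.e (nat_lit 172113) (nat_lit 10) .nil))))) (.g (nat_lit 0) (.e (nat_lit 427895) (nat_lit 0) .nil) .nil)))) (.nd (nat_lit 9) 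
(.lf (nat_lit 603588) (.g (nat_lit 4430) (.e (nat_lit 655378) (nat_lit 4) (.e (nat_lit 172106) (nat_lit 10) (.e (nat_lit 434209) (nat_lit 18) (.e (nat_lit 5548) (nat_lit 306) (.e (nat_lit 2650) (nat_lit 166) (.e (nat_lit 188434) (nat_lit 20) (.e (nat_lit 3409) (nat_lit 212) .nil))))))) (.g (nat_lit 1) (.e (nat_lit 427291) (nat_lit 0) .nil) .nil))) 
(.lf (nat_lit 604100) (.g (nat_lit 2641) (.e (nat_lit 761898) (nat_lit 15) (.e (nat_lit 163978) (nat_lit 30) (.e (nat_lit 573489) (nat_lit 14) (.e (nat_lit 73754) (nat_lit 8) (.e (nat_lit 557100) (nat_lit 13) (.e (nat_lit 172067) (nat_lit 3) (.e (nat_lit 204817) (nat_lit 17) (.e (nat_lit 2272) (nat_lit 149) .nil)))))))) (.g (nat_lit 1) (.e (nat_lit 428644) (nat_lit 0) .nil) .nil))))))) 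
(.nd (nat_lit 6) (.nd (nat_lit 7) (.nd (nat_lit 8) (.nd (nat_lit 9) 
(.lf (nat_lit 603172) (.g (nat_lit 2671) (.e (nat_lit 655374) (nat_lit 3) (.e (nat_lit 163979) (nat_lit 30) (.e (nat_lit 573482) (nat_lit 13) (.e (nat_lit 65604) (nat_lit 9) (.e (nat_lit 336013) (nat_lit 2) (.e (nat_lit 90170) (nat_lit 13) (.e (nat_lit 172042) (nat_lit 0) (.e (nat_lit 3403) (nat_lit 212) .nil)))))))) (.g (nat_lit 1) (.e (nat_lit 426300) (nat_lit 0) .nil) .nil))) 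
(.lf (nat_lit 603684) (.g (nat_lit 1458) (.e (nat_lit 655378) (nat_lit 4) (.e (nat_lit 172120) (nat_lit 12) (.e (nat_lit 475211) (nat_lit 41) (.e (nat_lit 712752) (nat_lit 29) .nil)))) (.g (nat_lit 0) (.e (nat_lit 427440) (nat_lit 0) .nil) .nil)))) (.nd (nat_lit 9) 
(.lf (nat_lit 603428) (.g (nat_lit 2345) (.e (nat_lit 655375) (nat_lit 3) (.e (nat_lit 163979) (nat_lit 30) (.e (nat_lit 573491) (nat_lit 15) (.e (nat_lit 81956) (nat_lit 23) (.e (nat_lit 98359) (nat_lit 26) .nil))))) (.g (nat_lit 0) (.e (nat_lit 426794) (nat_lit 0) .nil) .nil))) 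
(.lf (nat_lit 603940) (.g (nat_lit 3076) (.e (nat_lit 761895) (nat_lit 15) (.e (nat_lit 163978) (nat_lit 30) (.e (nat_lit 573489) (nat_lit 14) (.e (nat_lit 73755) (nat_lit 8) (.e (nat_lit 557098) (nat_lit 13) .nil))))) (.g (nat_lit 0) (.e (nat_lit 428243) (nat_lit 0) .nil) .nil))))) (.nd (nat_lit 8) (.nd (nat_lit 9) 
(.lf (nat_lit 603300) (.g (nat_lit 2410) (.e (nat_lit 655375) (nat_lit 3) (.e (nat_lit 163978) (nat_lit 30) (.e (nat_lit 573490) (nat_lit 15) (.e (nat_lit 81953) (nat_lit 22) (.e (nat_lit 90170) (nat_lit 13) (.e (nat_lit 172042) (nat_lit 0) (.e (nat_lit 3407) (nat_lit 212) .nil))))))) (.g (nat_lit 1) (.e (nat_lit 426463) (nat_lit 0) .nil) .nil))) 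
(.lf (nat_lit 603812) (.g (nat_lit 1228) (.e (nat_lit 655380) (nat_lit 6) (.e (nat_lit 188440) (nat_lit 20) (.e (nat_lit 3406) (nat_lit 212) (.e (nat_lit 655378) (nat_lit 4) (.e (nat_lit 172107) (nat_lit 10) .nil))))) (.g (nat_lit 0) (.e (nat_lit 427820) (nat_lit 0) .nil) .nil)))) (.nd (nat_lit 9) 
(.lf (nat_lit 603556) (.g (nat_lit 1905) (.e (nat_lit 655378) (nat_lit 4) (.e (nat_lit 172035) (nat_lit 0) (.e (nat_lit 6989) (nat_lit 377) (.e (nat_lit 2779) (nat_lit 178) (.e (nat_lit 286771) (nat_lit 29) (.e (nat_lit 442409) (nat_lit 20) (.e (nat_lit 3409) (nat_lit 212) .nil))))))) (.g (nat_lit 1) (.e (nat_lit 427193) (nat_lit 0) .nil) .nil))) 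
(.lf (nat_lit 604068) (.g (nat_lit 2885) (.e (nat_lit 761898) (nat_lit 15) (.e (nat_lit 163978) (nat_lit 30) (.e (nat_lit 573487) (nat_lit 14) (.e (nat_lit 73753) (nat_lit 8) (.e (nat_lit 557098) (nat_lit 13) (.e (nat_lit 172067) (nat_lit 3) (.e (nat_lit 204816) (nat_lit 17) (.e (nat_lit 2273) (nat_lit 149) .nil)))))))) (.g (nat_lit 1) (.e (nat_lit 428610) (nat_lit 0) .nil) .nil)))))) 
(.nd (nat_lit 7) (.nd (nat_lit 8) (.nd (nat_lit 9) 
(.lf (nat_lit 603236) (.g (nat_lit 3803) (.e (nat_lit 655375) (nat_lit 3) (.e (nat_lit 163978) (nat_lit 30) (.e (nat_lit 573480) (nat_lit 13) (.e (nat_lit 65604) (nat_lit 9) (.e (nat_lit 336013) (nat_lit 2) (.e (nat_lit 90170) (nat_lit 13) (.e (nat_lit 172049) (nat_lit 0) (.e (nat_lit 3408) (nat_lit 212) .nil)))))))) (.g (nat_lit 1) (.e (nat_lit 426392) (nat_lit 0) .nil) .nil))) 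
(.lf (nat_lit 603748) (.g (nat_lit 1481) (.e (nat_lit 655378) (nat_lit 4) (.e (nat_lit 172126) (nat_lit 14) (.e (nat_lit 491569) (nat_lit 13) (.e (nat_lit 393277) (nat_lit 23) .nil)))) (.g (nat_lit 0) (.e (nat_lit 427661) (nat_lit 0) .nil) .nil)))) (.nd (nat_lit 9) 
(.lf (nat_lit 603492) (.g (nat_lit 5247) (.e (nat_lit 655375) (nat_lit 3) (.e (nat_lit 163979) (nat_lit 30) (.e (nat_lit 573492) (nat_lit 15) (.e (nat_lit 81956) (nat_lit 23) (.e (nat_lit 98365) (nat_lit 26) (.e (nat_lit 426009) (nat_lit 0) (.e (nat_lit 3411) (nat_lit 212) .nil))))))) (.g (nat_lit 1) (.e (nat_lit 426871) (nat_lit 0) .nil) .nil))) 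
(.lf (nat_lit 604004) (.g (nat_lit 2855) (.e (nat_lit 761898) (nat_lit 15) (.e (nat_lit 163977) (nat_lit 30) (.e (nat_lit 573489) (nat_lit 14) (.e (nat_lit 73754) (nat_lit 8) (.e (nat_lit 557101) (nat_lit 13) (.e (nat_lit 172066) (nat_lit 3) (.e (nat_lit 204817) (nat_lit 17) (.e (nat_lit 7936) (nat_lit 149) .nil)))))))) (.g (nat_lit 1) (.e (nat_lit 428508) (nat_lit 0) .nil) .nil))))) 
(.nd (nat_lit 8) (.nd (nat_lit 9) 
(.lf (nat_lit 603364) (.g (nat_lit 2866) (.e (nat_lit 655375) (nat_lit 3) (.e (nat_lit 163978) (nat_lit 30) (.e (nat_lit 573493) (nat_lit 15) (.e (nat_lit 81956) (nat_lit 23) (.e (nat_lit 98359) (nat_lit 26) (.e (nat_lit 426043) (nat_lit 0) (.e (nat_lit 3406) (nat_lit 212) .nil))))))) (.g (nat_lit 1) (.e (nat_lit 426689) (nat_lit 0) .nil) .nil))) 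
(.lf (nat_lit 603876) (.g (nat_lit 1596) (.e (nat_lit 753672) (nat_lit 5) (.e (nat_lit 3098) (nat_lit 192) (.e (nat_lit 491568) (nat_lit 13) (.e (nat_lit 393301) (nat_lit 27) .nil)))) (.g (nat_lit 0) (.e (nat_lit 427951) (nat_lit 0) .nil) .nil)))) (.nd (nat_lit 9) 
(.lf (nat_lit 603620) (.g (nat_lit 2443) (.e (nat_lit 655378) (nat_lit 4) (.e (nat_lit 172112) (nat_lit 10) (.e (nat_lit 434271) (nat_lit 38) (.e (nat_lit 655380) (nat_lit 6) (.e (nat_lit 188441) (nat_lit 20) (.e (nat_lit 3408) (nat_lit 212) .nil)))))) (.g (nat_lit 1) (.e (nat_lit 427331) (nat_lit 0) .nil) .nil))) 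
(.lf (nat_lit 604132) (.g (nat_lit 4123) (.e (nat_lit 761898) (nat_lit 15) (.e (nat_lit 163978) (nat_lit 30) (.e (nat_lit 573489) (nat_lit 14) (.e (nat_lit 73755) (nat_lit 8) (.e (nat_lit 557104) (nat_lit 14) (.e (nat_lit 180244) (nat_lit 5) (.e (nat_lit 532489) (nat_lit 0) (.e (nat_lit 7936) (nat_lit 149) .nil)))))))) (.g (nat_lit 1) (.e (nat_lit 428684) (nat_lit 0) .nil) .nil)))))))) 
(.nd (nat_lit 5) (.nd (nat_lit 6) (.nd (nat_lit 7) (.nd (nat_lit 8) (.nd (nat_lit 9) 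
(.lf (nat_lit 603156) (.g (nat_lit 3816) (.e (nat_lit 655373) (nat_lit 3) (.e (nat_lit 163979) (nat_lit 30) (.e (nat_lit 573493) (nat_lit 15) (.e (nat_lit 81953) (nat_lit 22) (.e (nat_lit 90170) (nat_lit 13) (.e (nat_lit 172042) (nat_lit 0) (.e (nat_lit 3408) (nat_lit 212) .nil))))))) (.g (nat_lit 1) (.e (nat_lit 426266) (nat_lit 0) .nil) .nil))) 
(.lf (nat_lit 603668) (.g (nat_lit 1321) (.e (nat_lit 655378) (nat_lit 4) (.e (nat_lit 172119) (nat_lit 12) (.e (nat_lit 475199) (nat_lit 40) (.e (nat_lit 704598) (nat_lit 6) (.e (nat_lit 188441) (nat_lit 20) .nil))))) (.g (nat_lit 0) (.e (nat_lit 427414) (nat_lit 0) .nil) .nil)))) (.nd (nat_lit 9) 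
(.lf (nat_lit 603412) (.g (nat_lit 3607) (.e (nat_lit 655375) (nat_lit 3) (.e (nat_lit 163979) (nat_lit 30) (.e (nat_lit 573485) (nat_lit 13) (.e (nat_lit 65604) (nat_lit 9) (.e (nat_lit 336028) (nat_lit 3) (.e (nat_lit 98359) (nat_lit 26) (.e (nat_lit 426043) (nat_lit 0) (.e (nat_lit 3408) (nat_lit 212) .nil)))))))) (.g (nat_lit 1) (.e (nat_lit 426778) (nat_lit 0) .nil) .nil))) 
(.lf (nat_lit 603924) (.g (nat_lit 2199) (.e (nat_lit 761894) (nat_lit 15) (.e (nat_lit 163979) (nat_lit 30) (.e (nat_lit 573487) (nat_lit 14) (.e (nat_lit 73753) (nat_lit 8) (.e (nat_lit 557096) (nat_lit 13) .nil))))) (.g (nat_lit 0) (.e (nat_lit 428177) (nat_lit 0) .nil) .nil))))) (.nd (nat_lit 8) (.nd (nat_lit 9) 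
(.lf (nat_lit 603284) (.g (nat_lit 4623) (.e (nat_lit 655375) (nat_lit 3) (.e (nat_lit 163978) (nat_lit 30) (.e (nat_lit 573485) (nat_lit 13) (.e (nat_lit 65604) (nat_lit 9) (.e (nat_lit 336013) (nat_lit 2) (.e (nat_lit 90170) (nat_lit 13) (.e (nat_lit 172046) (nat_lit 0) (.e (nat_lit 3406) (nat_lit 212) .nil)))))))) (.g (nat_lit 1) (.e (nat_lit 426442) (nat_lit 0) .nil) .nil))) 
(.lf (nat_lit 603796) (.g (nat_lit 1513) (.e (nat_lit 655380) (nat_lit 6) (.e (nat_lit 188434) (nat_lit 20) (.e (nat_lit 3409) (nat_lit 212) (.e (nat_lit 655380) (nat_lit 6) (.e (nat_lit 188435) (nat_lit 20) (.e (nat_lit 3409) (nat_lit 212) .nil)))))) (.g (nat_lit 1) (.e (nat_lit 427804) (nat_lit 0) .nil) .nil)))) (.nd (nat_lit 9) 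
(.lf (nat_lit 603540) (.g (nat_lit 2522) (.e (nat_lit 655376) (nat_lit 4) (.e (nat_lit 172124) (nat_lit 14) (.e (nat_lit 491549) (nat_lit 9) (.e (nat_lit 336430) (nat_lit 29) (.e (nat_lit 442409) (nat_lit 20) .nil))))) (.g (nat_lit 0) (.e (nat_lit 426998) (nat_lit 0) .nil) .nil))) 
(.lf (nat_lit 604052) (.g (nat_lit 863) (.e (nat_lit 761898) (nat_lit 15) (.e (nat_lit 163978) (nat_lit 30) (.e (nat_lit 573487) (nat_lit 14) .nil))) (.g (nat_lit 0) (.e (nat_lit 428593) (nat_lit 0) .nil) .nil)))))) (.nd (nat_lit 7) (.nd (nat_lit 8) (.nd (nat_lit 9) 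
(.lf (nat_lit 603220) (.g (nat_lit 5073) (.e (nat_lit 655375) (nat_lit 3) (.e (nat_lit 163978) (nat_lit 30) (.e (nat_lit 573479) (nat_lit 13) (.e (nat_lit 65604) (nat_lit 9) (.e (nat_lit 336013) (nat_lit 2) (.e (nat_lit 90170) (nat_lit 13) (.e (nat_lit 172049) (nat_lit 0) (.e (nat_lit 3409) (nat_lit 212) .nil)))))))) (.g (nat_lit 1) (.e (nat_lit 426376) (nat_lit 0) .nil) .nil))) 
(.lf (nat_lit 603732) (.g (nat_lit 2260) (.e (nat_lit 655378) (nat_lit 4) (.e (nat_lit 172126) (nat_lit 14) (.e (nat_lit 491550) (nat_lit 9) (.e (nat_lit 336427) (nat_lit 29) .nil)))) (.g (nat_lit 0) (.e (nat_lit 427612) (nat_lit 0) .nil) .nil)))) (.nd (nat_lit 9) 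
(.lf (nat_lit 603476) (.g (nat_lit 3256) (.e (nat_lit 655375) (nat_lit 3) (.e (nat_lit 163979) (nat_lit 30) (.e (nat_lit 573492) (nat_lit 15) (.e (nat_lit 81956) (nat_lit 23) (.e (nat_lit 98360) (nat_lit 26) (.e (nat_lit 426048) (nat_lit 0) (.e (nat_lit 3406) (nat_lit 212) .nil))))))) (.g (nat_lit 1) (.e (nat_lit 426855) (nat_lit 0) .nil) .nil))) 
(.lf (nat_lit 603988) (.g (nat_lit 4120) (.e (nat_lit 761898) (nat_lit 15) (.e (nat_lit 163977) (nat_lit 30) (.e (nat_lit 573487) (nat_lit 14) (.e (nat_lit 73753) (nat_lit 8) (.e (nat_lit 557101) (nat_lit 13) (.e (nat_lit 172065) (nat_lit 3) (.e (nat_lit 204817) (nat_lit 17) (.e (nat_lit 7936) (nat_lit 149) .nil)))))))) (.g (nat_lit 1) (.e (nat_lit 428491) (nat_lit 0) .nil) .nil))))) 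
(.nd (nat_lit 8) (.nd (nat_lit 9) 
(.lf (nat_lit 603348) (.g (nat_lit 2685) (.e (nat_lit 655375) (nat_lit 3) (.e (nat_lit 163978) (nat_lit 30) (.e (nat_lit 573493) (nat_lit 15) (.e (nat_lit 81951) (nat_lit 22) (.e (nat_lit 90170) (nat_lit 13) (.e (nat_lit 172042) (nat_lit 0) (.e (nat_lit 3407) (nat_lit 212) .nil))))))) (.g (nat_lit 1) (.e (nat_lit 426651) (nat_lit 0) .nil) .nil))) 
(.lf (nat_lit 603860) (.g (nat_lit 2947) (.e (nat_lit 655380) (nat_lit 6) (.e (nat_lit 188455) (nat_lit 24) (.e (nat_lit 229678) (nat_lit 244) (.e (nat_lit 163909) (nat_lit 12) (.e (nat_lit 426285) (nat_lit 10) .nil))))) (.g (nat_lit 0) (.e (nat_lit 427914) (nat_lit 0) .nil) .nil)))) (.nd (nat_lit 9) 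
(.lf (nat_lit 603604) (.g (nat_lit 3160) (.e (nat_lit 655378) (nat_lit 4) (.e (nat_lit 172106) (nat_lit 10) (.e (nat_lit 434272) (nat_lit 38) (.e (nat_lit 655380) (nat_lit 6) (.e (nat_lit 188441) (nat_lit 20) (.e (nat_lit 3409) (nat_lit 212) .nil)))))) (.g (nat_lit 1) (.e (nat_lit 427315) (nat_lit 0) .nil) .nil))) 
(.lf (nat_lit 604116) (.g (nat_lit 4861) (.e (nat_lit 761898) (nat_lit 15) (.e (nat_lit 163978) (nat_lit 30) (.e (nat_lit 573489) (nat_lit 14) (.e (nat_lit 73755) (nat_lit 8) (.e (nat_lit 557097) (nat_lit 13) (.e (nat_lit 172067) (nat_lit 3) (.e (nat_lit 204821) (nat_lit 17) (.e (nat_lit 2270) (nat_lit 149) .nil)))))))) (.g (nat_lit 1) (.e (nat_lit 428665) (nat_lit 0) .nil) .nil))))))) 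
(.nd (nat_lit 6) (.nd (nat_lit 7) (.nd (nat_lit 8) (.nd (nat_lit 9) 
(.lf (nat_lit 603188) (.g (nat_lit 2568) (.e (nat_lit 655375) (nat_lit 3) (.e (nat_lit 163977) (nat_lit 30) (.e (nat_lit 573481) (nat_lit 13) (.e (nat_lit 65619) (nat_lit 10) (.e (nat_lit 344117) (nat_lit 21) (.e (nat_lit 516151) (nat_lit 9) (.e (nat_lit 426043) (nat_lit 0) (.e (nat_lit 3406) (nat_lit 212) .nil)))))))) (.g (nat_lit 1) (.e (nat_lit 426340) (nat_lit 0) .nil) .nil))) 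
(.lf (nat_lit 603700) (.g (nat_lit 1776) (.e (nat_lit 655378) (nat_lit 4) (.e (nat_lit 172125) (nat_lit 14) (.e (nat_lit 491547) (nat_lit 9) (.e (nat_lit 336434) (nat_lit 30) (.e (nat_lit 450593) (nat_lit 16) .nil))))) (.g (nat_lit 0) (.e (nat_lit 427476) (nat_lit 0) .nil) .nil)))) (.nd (nat_lit 9) 
(.lf (nat_lit 603444) (.g (nat_lit 1984) (.e (nat_lit 655375) (nat_lit 3) (.e (nat_lit 163979) (nat_lit 30) (.e (nat_lit 573492) (nat_lit 15) (.e (nat_lit 81956) (nat_lit 23) (.e (nat_lit 98355) (nat_lit 26) (.e (nat_lit 426091) (nat_lit 0) (.e (nat_lit 3407) (nat_lit 212) .nil))))))) (.g (nat_lit 1) (.e (nat_lit 426823) (nat_lit 0) .nil) .nil))) 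
(.lf (nat_lit 603956) (.g (nat_lit 2645) (.e (nat_lit 761897) (nat_lit 15) (.e (nat_lit 163978) (nat_lit 30) (.e (nat_lit 573489) (nat_lit 14) (.e (nat_lit 73755) (nat_lit 8) (.e (nat_lit 557096) (nat_lit 13) .nil))))) (.g (nat_lit 0) (.e (nat_lit 428388) (nat_lit 0) .nil) .nil))))) (.nd (nat_lit 8) (.nd (nat_lit 9) 
(.lf (nat_lit 603316) (.g (nat_lit 3330) (.e (nat_lit 655375) (nat_lit 3) (.e (nat_lit 163978) (nat_lit 30) (.e (nat_lit 573491) (nat_lit 15) (.e (nat_lit 81951) (nat_lit 22) (.e (nat_lit 90170) (nat_lit 13) (.e (nat_lit 172049) (nat_lit 0) (.e (nat_lit 3409) (nat_lit 212) .nil))))))) (.g (nat_lit 1) (.e (nat_lit 426537) (nat_lit 0) .nil) .nil))) 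
(.lf (nat_lit 603828) (.g (nat_lit 2109) (.e (nat_lit 655380) (nat_lit 6) (.e (nat_lit 188444) (nat_lit 21) (.e (nat_lit 164347) (nat_lit 240) (.e (nat_lit 2650) (nat_lit 166) (.e (nat_lit 188435) (nat_lit 20) .nil))))) (.g (nat_lit 0) (.e (nat_lit 427842) (nat_lit 0) .nil) .nil)))) (.nd (nat_lit 9) 
(.lf (nat_lit 603572) (.g (nat_lit 1409) (.e (nat_lit 655378) (nat_lit 4) (.e (nat_lit 172094) (nat_lit 9) (.e (nat_lit 426109) (nat_lit 1) (.e (nat_lit 164347) (nat_lit 240) (.e (nat_lit 2648) (nat_lit 166) .nil))))) (.g (nat_lit 0) (.e (nat_lit 427245) (nat_lit 0) .nil) .nil))) 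
(.lf (nat_lit 604084) (.g (nat_lit 2460) (.e (nat_lit 761898) (nat_lit 15) (.e (nat_lit 163978) (nat_lit 30) (.e (nat_lit 573487) (nat_lit 14) (.e (nat_lit 73753) (nat_lit 8) (.e (nat_lit 557101) (nat_lit 13) (.e (nat_lit 172066) (nat_lit 3) (.e (nat_lit 204821) (nat_lit 17) (.e (nat_lit 7936) (nat_lit 149) .nil)))))))) (.g (nat_lit 1) (.e (nat_lit 428627) (nat_lit 0) .nil) .nil)))))) 
(.nd (nat_lit 7) (.nd (nat_lit 8) (.nd (nat_lit 9) 
(.lf (nat_lit 603252) (.g (nat_lit 4386) (.e (nat_lit 655375) (nat_lit 3) (.e (nat_lit 163978) (nat_lit 30) (.e (nat_lit 573481) (nat_lit 13) (.e (nat_lit 65619) (nat_lit 10) (.e (nat_lit 344117) (nat_lit 21) (.e (nat_lit 516151) (nat_lit 9) (.e (nat_lit 426043) (nat_lit 0) (.e (nat_lit 3408) (nat_lit 212) .nil)))))))) (.g (nat_lit 1) (.e (nat_lit 426409) (nat_lit 0) .nil) .nil))) 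
(.lf (nat_lit 603764) (.g (nat_lit 366) (.e (nat_lit 655379) (nat_lit 5) (.e (nat_lit 180278) (nat_lit 32) (.e (nat_lit 1660) (nat_lit 115) .nil))) (.g (nat_lit 0) (.e (nat_lit 427731) (nat_lit 0) .nil) .nil)))) (.nd (nat_lit 9) 
(.lf (nat_lit 603508) (.g (nat_lit 4161) (.e (nat_lit 655375) (nat_lit 3) (.e (nat_lit 163979) (nat_lit 30) (.e (nat_lit 573493) (nat_lit 15) (.e (nat_lit 81953) (nat_lit 22) (.e (nat_lit 90170) (nat_lit 13) (.e (nat_lit 172046) (nat_lit 0) (.e (nat_lit 3406) (nat_lit 212) .nil))))))) (.g (nat_lit 1) (.e (nat_lit 426889) (nat_lit 0) .nil) .nil))) 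
(.lf (nat_lit 604020) (.g (nat_lit 2290) (.e (nat_lit 761898) (nat_lit 15) (.e (nat_lit 163977) (nat_lit 30) (.e (nat_lit 573489) (nat_lit 14) (.e (nat_lit 73755) (nat_lit 8) (.e (nat_lit 557097) (nat_lit 13) (.e (nat_lit 172067) (nat_lit 3) (.e (nat_lit 204815) (nat_lit 17) (.e (nat_lit 7936) (nat_lit 149) .nil)))))))) (.g (nat_lit 1) (.e (nat_lit 428529) (nat_lit 0) .nil) .nil))))) 
(.nd (nat_lit 8) (.nd (nat_lit 9) 
(.lf (nat_lit 603380) (.g (nat_lit 3928) (.e (nat_lit 655375) (nat_lit 3) (.e (nat_lit 163979) (nat_lit 30) (.e (nat_lit 573481) (nat_lit 13) (.e (nat_lit 65604) (nat_lit 9) (.e (nat_lit 336013) (nat_lit 2) (.e (nat_lit 90170) (nat_lit 13) (.e (nat_lit 172042) (nat_lit 0) (.e (nat_lit 3409) (nat_lit 212) .nil)))))))) (.g (nat_lit 1) (.e (nat_lit 426746) (nat_lit 0) .nil) .nil))) 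
(.lf (nat_lit 603892) (.g (nat_lit 4208) (.e (nat_lit 753694) (nat_lit 13) (.e (nat_lit 1669) (nat_lit 116) (.e (nat_lit 401459) (nat_lit 13) (.e (nat_lit 483372) (nat_lit 21) (.e (nat_lit 319533) (nat_lit 16) .nil))))) (.g (nat_lit 0) (.e (nat_lit 428015) (nat_lit 0) .nil) .nil)))) (.nd (nat_lit 9) 
(.lf (nat_lit 603636) (.g (nat_lit 1672) (.e (nat_lit 655378) (nat_lit 4) (.e (nat_lit 172115) (nat_lit 10) (.e (nat_lit 434209) (nat_lit 18) (.e (nat_lit 5548) (nat_lit 306) (.e (nat_lit 2648) (nat_lit 166) .nil))))) (.g (nat_lit 0) (.e (nat_lit 427361) (nat_lit 0) .nil) .nil))) 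
(.lf (nat_lit 604148) (.g (nat_lit 2326) (.e (nat_lit 761898) (nat_lit 15) (.e (nat_lit 163979) (nat_lit 30) (.e (nat_lit 573487) (nat_lit 14) (.e (nat_lit 73753) (nat_lit 8) (.e (nat_lit 557097) (nat_lit 13) (.e (nat_lit 172065) (nat_lit 3) (.e (nat_lit 204817) (nat_lit 17) (.e (nat_lit 7936) (nat_lit 149) .nil)))))))) (.g (nat_lit 1) (.e (nat_lit 428727) (nat_lit 0) .nil) .nil))))))))) 
(.nd (nat_lit 4) (.nd (nat_lit 5) (.nd (nat_lit 6) (.nd (nat_lit 7) (.nd (nat_lit 8) 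
(.nd (nat_lit 9) 
(.lf (nat_lit 603148) (.g (nat_lit 1316) (.e (nat_lit 655373) (nat_lit 3) (.e (nat_lit 163979) (nat_lit 30) (.e (nat_lit 573491) (nat_lit 15) (.e (nat_lit 81956) (nat_lit 23) .nil)))) (.g (nat_lit 0) (.e (nat_lit 426253) (nat_lit 0) .nil) .nil))) 
(.lf (nat_lit 603660) (.g (nat_lit 1633) (.e (nat_lit 655378) (nat_lit 4) (.e (nat_lit 172118) (nat_lit 12) (.e (nat_lit 475198) (nat_lit 40) (.e (nat_lit 704522) (nat_lit 0) .nil)))) (.g (nat_lit 0) (.e (nat_lit 427406) (nat_lit 0) .nil) .nil)))) (.nd (nat_lit 9) 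
(.lf (nat_lit 603404) (.g (nat_lit 3146) (.e (nat_lit 655375) (nat_lit 3) (.e (nat_lit 163979) (nat_lit 30) (.e (nat_lit 573485) (nat_lit 13) (.e (nat_lit 65604) (nat_lit 9) (.e (nat_lit 336013) (nat_lit 2) (.e (nat_lit 90170) (nat_lit 13) (.e (nat_lit 172042) (nat_lit 0) (.e (nat_lit 3409) (nat_lit 212) .nil)))))))) (.g (nat_lit 1) (.e (nat_lit 426770) (nat_lit 0) .nil) .nil))) 
(.lf (nat_lit 603916) (.g (nat_lit 2889) (.e (nat_lit 761894) (nat_lit 15) (.e (nat_lit 163978) (nat_lit 30) (.e (nat_lit 573489) (nat_lit 14) (.e (nat_lit 73755) (nat_lit 8) (.e (nat_lit 557096) (nat_lit 13) .nil))))) (.g (nat_lit 0) (.e (nat_lit 428151) (nat_lit 0) .nil) .nil))))) (.nd (nat_lit 8) (.nd (nat_lit 9) 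
(.lf (nat_lit 603276) (.g (nat_lit 3320) (.e (nat_lit 655375) (nat_lit 3) (.e (nat_lit 163978) (nat_lit 30) (.e (nat_lit 573483) (nat_lit 13) (.e (nat_lit 65619) (nat_lit 10) (.e (nat_lit 344117) (nat_lit 21) (.e (nat_lit 516151) (nat_lit 9) (.e (nat_lit 426043) (nat_lit 0) (.e (nat_lit 3408) (nat_lit 212) .nil)))))))) (.g (nat_lit 1) (.e (nat_lit 426433) (nat_lit 0) .nil) .nil))) 
(.lf (nat_lit 603788) (.g (nat_lit 1904) (.e (nat_lit 655380) (nat_lit 6) (.e (nat_lit 188434) (nat_lit 20) (.e (nat_lit 3408) (nat_lit 212) (.e (nat_lit 655380) (nat_lit 6) (.e (nat_lit 188434) (nat_lit 20) (.e (nat_lit 3409) (nat_lit 212) .nil)))))) (.g (nat_lit 1) (.e (nat_lit 427792) (nat_lit 0) .nil) .nil)))) (.nd (nat_lit 9) 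
(.lf (nat_lit 603532) (.g (nat_lit 1848) (.e (nat_lit 655376) (nat_lit 4) (.e (nat_lit 172120) (nat_lit 12) (.e (nat_lit 475198) (nat_lit 40) (.e (nat_lit 704599) (nat_lit 6) (.e (nat_lit 188441) (nat_lit 20) .nil))))) (.g (nat_lit 0) (.e (nat_lit 426981) (nat_lit 0) .nil) .nil))) 
(.lf (nat_lit 604044) (.g (nat_lit 2483) (.e (nat_lit 761898) (nat_lit 15) (.e (nat_lit 163977) (nat_lit 30) (.e (nat_lit 573489) (nat_lit 14) (.e (nat_lit 73755) (nat_lit 8) (.e (nat_lit 557104) (nat_lit 14) (.e (nat_lit 180244) (nat_lit 5) (.e (nat_lit 532481) (nat_lit 0) (.e (nat_lit 7936) (nat_lit 149) .nil)))))))) (.g (nat_lit 1) (.e (nat_lit 428558) (nat_lit 0) .nil) .nil)))))) 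
(.nd (nat_lit 7) (.nd (nat_lit 8) (.nd (nat_lit 9) 
(.lf (nat_lit 603212) (.g (nat_lit 4068) (.e (nat_lit 655375) (nat_lit 3) (.e (nat_lit 163977) (nat_lit 30) (.e (nat_lit 573493) (nat_lit 15) (.e (nat_lit 81954) (nat_lit 23) (.e (nat_lit 98359) (nat_lit 26) (.e (nat_lit 426043) (nat_lit 0) (.e (nat_lit 3409) (nat_lit 212) .nil))))))) (.g (nat_lit 1) (.e (nat_lit 426368) (nat_lit 0) .nil) .nil))) 
(.lf (nat_lit 603724) (.g (nat_lit 2319) (.e (nat_lit 655378) (nat_lit 4) (.e (nat_lit 172126) (nat_lit 14) (.e (nat_lit 491549) (nat_lit 9) (.e (nat_lit 336430) (nat_lit 29) (.e (nat_lit 442403) (nat_lit 20) .nil))))) (.g (nat_lit 0) (.e (nat_lit 427604) (nat_lit 0) .nil) .nil)))) (.nd (nat_lit 9) 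
(.lf (nat_lit 603468) (.g (nat_lit 3246) (.e (nat_lit 655375) (nat_lit 3) (.e (nat_lit 163979) (nat_lit 30) (.e (nat_lit 573492) (nat_lit 15) (.e (nat_lit 81956) (nat_lit 23) (.e (nat_lit 98360) (nat_lit 26) (.e (nat_lit 426040) (nat_lit 0) (.e (nat_lit 3407) (nat_lit 212) .nil))))))) (.g (nat_lit 1) (.e (nat_lit 426847) (nat_lit 0) .nil) .nil))) 
(.lf (nat_lit 603980) (.g (nat_lit 2178) (.e (nat_lit 761898) (nat_lit 15) (.e (nat_lit 163977) (nat_lit 30) (.e (nat_lit 573487) (nat_lit 14) (.e (nat_lit 73753) (nat_lit 8) (.e (nat_lit 557098) (nat_lit 13) (.e (nat_lit 172065) (nat_lit 3) (.e (nat_lit 204817) (nat_lit 17) (.e (nat_lit 2271) (nat_lit 149) .nil)))))))) (.g (nat_lit 1) (.e (nat_lit 428482) (nat_lit 0) .nil) .nil))))) 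
(.nd (nat_lit 8) (.nd (nat_lit 9) 
(.lf (nat_lit 603340) (.g (nat_lit 4246) (.e (nat_lit 655375) (nat_lit 3) (.e (nat_lit 163978) (nat_lit 30) (.e (nat_lit 573491) (nat_lit 15) (.e (nat_lit 81956) (nat_lit 23) (.e (nat_lit 98359) (nat_lit 26) (.e (nat_lit 426043) (nat_lit 0) (.e (nat_lit 3407) (nat_lit 212) .nil))))))) (.g (nat_lit 1) (.e (nat_lit 426563) (nat_lit 0) .nil) .nil))) 
(.lf (nat_lit 603852) (.g (nat_lit 1044) (.e (nat_lit 655380) (nat_lit 6) (.e (nat_lit 188455) (nat_lit 24) (.e (nat_lit 229665) (nat_lit 240) (.e (nat_lit 2651) (nat_lit 166) .nil)))) (.g (nat_lit 0) (.e (nat_lit 427905) (nat_lit 0) .nil) .nil)))) (.nd (nat_lit 9) 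
(.lf (nat_lit 603596) (.g (nat_lit 2703) (.e (nat_lit 655378) (nat_lit 4) (.e (nat_lit 172106) (nat_lit 10) (.e (nat_lit 434272) (nat_lit 38) (.e (nat_lit 655380) (nat_lit 6) (.e (nat_lit 188434) (nat_lit 20) (.e (nat_lit 3406) (nat_lit 212) .nil)))))) (.g (nat_lit 1) (.e (nat_lit 427307) (nat_lit 0) .nil) .nil))) 
(.lf (nat_lit 604108) (.g (nat_lit 3065) (.e (nat_lit 761898) (nat_lit 15) (.e (nat_lit 163978) (nat_lit 30) (.e (nat_lit 573489) (nat_lit 14) (.e (nat_lit 73755) (nat_lit 8) (.e (nat_lit 557096) (nat_lit 13) (.e (nat_lit 172067) (nat_lit 3) (.e (nat_lit 204816) (nat_lit 17) (.e (nat_lit 2273) (nat_lit 149) .nil)))))))) (.g (nat_lit 1) (.e (nat_lit 428656) (nat_lit 0) .nil) .nil))))))) 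
(.nd (nat_lit 6) (.nd (nat_lit 7) (.nd (nat_lit 8) (.nd (nat_lit 9) 
(.lf (nat_lit 603180) (.g (nat_lit 2830) (.e (nat_lit 655375) (nat_lit 3) (.e (nat_lit 163973) (nat_lit 30) (.e (nat_lit 573479) (nat_lit 13) (.e (nat_lit 65619) (nat_lit 10) (.e (nat_lit 344117) (nat_lit 21) (.e (nat_lit 516151) (nat_lit 9) (.e (nat_lit 426043) (nat_lit 0) (.e (nat_lit 3407) (nat_lit 212) .nil)))))))) (.g (nat_lit 1) (.e (nat_lit 426323) (nat_lit 0) .nil) .nil))) 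
(.lf (nat_lit 603692) (.g (nat_lit 2834) (.e (nat_lit 655378) (nat_lit 4) (.e (nat_lit 172124) (nat_lit 14) (.e (nat_lit 491549) (nat_lit 9) (.e (nat_lit 336430) (nat_lit 29) (.e (nat_lit 442409) (nat_lit 20) (.e (nat_lit 3407) (nat_lit 212) .nil)))))) (.g (nat_lit 1) (.e (nat_lit 427457) (nat_lit 0) .nil) .nil)))) (.nd (nat_lit 9) 
(.lf (nat_lit 603436) (.g (nat_lit 3705) (.e (nat_lit 655375) (nat_lit 3) (.e (nat_lit 163979) (nat_lit 30) (.e (nat_lit 573492) (nat_lit 15) (.e (nat_lit 81953) (nat_lit 22) (.e (nat_lit 90170) (nat_lit 13) (.e (nat_lit 172049) (nat_lit 0) (.e (nat_lit 3406) (nat_lit 212) .nil))))))) (.g (nat_lit 1) (.e (nat_lit 426805) (nat_lit 0) .nil) .nil))) 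
(.lf (nat_lit 603948) (.g (nat_lit 2250) (.e (nat_lit 761897) (nat_lit 15) (.e (nat_lit 163977) (nat_lit 30) (.e (nat_lit 573489) (nat_lit 14) (.e (nat_lit 73755) (nat_lit 8) (.e (nat_lit 557097) (nat_lit 13) .nil))))) (.g (nat_lit 0) (.e (nat_lit 428364) (nat_lit 0) .nil) .nil))))) (.nd (nat_lit 8) (.nd (nat_lit 9) 
(.lf (nat_lit 603308) (.g (nat_lit 2565) (.e (nat_lit 655375) (nat_lit 3) (.e (nat_lit 163978) (nat_lit 30) (.e (nat_lit 573490) (nat_lit 15) (.e (nat_lit 81956) (nat_lit 23) (.e (nat_lit 98359) (nat_lit 26) .nil))))) (.g (nat_lit 0) (.e (nat_lit 426472) (nat_lit 0) .nil) .nil))) 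
(.lf (nat_lit 603820) (.g (nat_lit 2402) (.e (nat_lit 655380) (nat_lit 6) (.e (nat_lit 188441) (nat_lit 20) (.e (nat_lit 3408) (nat_lit 212) (.e (nat_lit 655380) (nat_lit 6) (.e (nat_lit 188441) (nat_lit 20) (.e (nat_lit 3408) (nat_lit 212) .nil)))))) (.g (nat_lit 1) (.e (nat_lit 427830) (nat_lit 0) .nil) .nil)))) (.nd (nat_lit 9) 
(.lf (nat_lit 603564) (.g (nat_lit 922) (.e (nat_lit 655378) (nat_lit 4) (.e (nat_lit 172081) (nat_lit 7) (.e (nat_lit 409642) (nat_lit 17) (.e (nat_lit 294974) (nat_lit 29) (.e (nat_lit 442403) (nat_lit 20) .nil))))) (.g (nat_lit 0) (.e (nat_lit 427228) (nat_lit 0) .nil) .nil))) 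
(.lf (nat_lit 604076) (.g (nat_lit 3130) (.e (nat_lit 761898) (nat_lit 15) (.e (nat_lit 163978) (nat_lit 30) (.e (nat_lit 573487) (nat_lit 14) (.e (nat_lit 73753) (nat_lit 8) (.e (nat_lit 557100) (nat_lit 13) (.e (nat_lit 172067) (nat_lit 3) (.e (nat_lit 204821) (nat_lit 17) (.e (nat_lit 2270) (nat_lit 149) .nil)))))))) (.g (nat_lit 1) (.e (nat_lit 428618) (nat_lit 0) .nil) .nil)))))) 
(.nd (nat_lit 7) (.nd (nat_lit 8) (.nd (nat_lit 9) 
(.lf (nat_lit 603244) (.g (nat_lit 4012) (.e (nat_lit 655375) (nat_lit 3) (.e (nat_lit 163978) (nat_lit 30) (.e (nat_lit 573481) (nat_lit 13) (.e (nat_lit 65604) (nat_lit 9) (.e (nat_lit 336013) (nat_lit 2) (.e (nat_lit 90170) (nat_lit 13) (.e (nat_lit 172049) (nat_lit 0) (.e (nat_lit 3407) (nat_lit 212) .nil)))))))) (.g (nat_lit 1) (.e (nat_lit 426401) (nat_lit 0) .nil) .nil))) 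
(.lf (nat_lit 603756) (.g (nat_lit 3230) (.e (nat_lit 655378) (nat_lit 4) (.e (nat_lit 172126) (nat_lit 14) (.e (nat_lit 491571) (nat_lit 13) (.e (nat_lit 393274) (nat_lit 23) (.e (nat_lit 426043) (nat_lit 0) (.e (nat_lit 3409) (nat_lit 212) .nil)))))) (.g (nat_lit 1) (.e (nat_lit 427705) (nat_lit 0) .nil) .nil)))) (.nd (nat_lit 9) 
(.lf (nat_lit 603500) (.g (nat_lit 4364) (.e (nat_lit 655375) (nat_lit 3) (.e (nat_lit 163979) (nat_lit 30) (.e (nat_lit 573493) (nat_lit 15) (.e (nat_lit 81951) (nat_lit 22) (.e (nat_lit 90170) (nat_lit 13) (.e (nat_lit 172042) (nat_lit 0) (.e (nat_lit 3409) (nat_lit 212) .nil))))))) (.g (nat_lit 1) (.e (nat_lit 426881) (nat_lit 0) .nil) .nil))) 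
(.lf (nat_lit 604012) (.g (nat_lit 2239) (.e (nat_lit 761898) (nat_lit 15) (.e (nat_lit 163977) (nat_lit 30) (.e (nat_lit 573489) (nat_lit 14) (.e (nat_lit 73755) (nat_lit 8) (.e (nat_lit 557097) (nat_lit 13) (.e (nat_lit 172065) (nat_lit 3) (.e (nat_lit 204817) (nat_lit 17) (.e (nat_lit 2271) (nat_lit 149) .nil)))))))) (.g (nat_lit 1) (.e (nat_lit 428521) (nat_lit 0) .nil) .nil))))) 
(.nd (nat_lit 8) (.nd (nat_lit 9) 
(.lf (nat_lit 603372) (.g (nat_lit 5499) (.e (nat_lit 655375) (nat_lit 3) (.e (nat_lit 163978) (nat_lit 30) (.e (nat_lit 573493) (nat_lit 15) (.e (nat_lit 81956) (nat_lit 23) (.e (nat_lit 98365) (nat_lit 26) (.e (nat_lit 426009) (nat_lit 0) (.e (nat_lit 3414) (nat_lit 212) .nil))))))) (.g (nat_lit 1) (.e (nat_lit 426697) (nat_lit 0) .nil) .nil))) 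
(.lf (nat_lit 603884) (.g (nat_lit 3723) (.e (nat_lit 753674) (nat_lit 5) (.e (nat_lit 3098) (nat_lit 192) (.e (nat_lit 491569) (nat_lit 13) (.e (nat_lit 393301) (nat_lit 27) (.e (nat_lit 491558) (nat_lit 10) (.e (nat_lit 344172) (nat_lit 41) .nil)))))) (.g (nat_lit 1) (.e (nat_lit 427965) (nat_lit 0) .nil) .nil)))) (.nd (nat_lit 9) 
(.lf (nat_lit 603628) (.g (nat_lit 501) (.e (nat_lit 655378) (nat_lit 4) (.e (nat_lit 172113) (nat_lit 10) (.e (nat_lit 434270) (nat_lit 38) .nil))) (.g (nat_lit 0) (.e (nat_lit 427344) (nat_lit 0) .nil) .nil))) 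
(.lf (nat_lit 604140) (.g (nat_lit 3442) (.e (nat_lit 761898) (nat_lit 15) (.e (nat_lit 163978) (nat_lit 30) (.e (nat_lit 573489) (nat_lit 14) (.e (nat_lit 73755) (nat_lit 8) (.e (nat_lit 557105) (nat_lit 14) (.e (nat_lit 180245) (nat_lit 5) (.e (nat_lit 532489) (nat_lit 0) (.e (nat_lit 7936) (nat_lit 149) .nil)))))))) (.g (nat_lit 1) (.e (nat_lit 428693) (nat_lit 0) .nil) .nil)))))))) 
(.nd (nat_lit 5) (.nd (nat_lit 6) (.nd (nat_lit 7) (.nd (nat_lit 8) (.nd (nat_lit 9) 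
(.lf (nat_lit 603164) (.g (nat_lit 2171) (.e (nat_lit 655374) (nat_lit 3) (.e (nat_lit 163978) (nat_lit 30) (.e (nat_lit 573479) (nat_lit 13) (.e (nat_lit 65604) (nat_lit 9) .nil)))) (.g (nat_lit 0) (.e (nat_lit 426289) (nat_lit 0) .nil) .nil))) 
(.lf (nat_lit 603676) (.g (nat_lit 2118) (.e (nat_lit 655378) (nat_lit 4) (.e (nat_lit 172120) (nat_lit 12) (.e (nat_lit 475199) (nat_lit 40) (.e (nat_lit 704522) (nat_lit 0) .nil)))) (.g (nat_lit 0) (.e (nat_lit 427426) (nat_lit 0) .nil) .nil)))) (.nd (nat_lit 9) 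
(.lf (nat_lit 603420) (.g (nat_lit 4627) (.e (nat_lit 655375) (nat_lit 3) (.e (nat_lit 163979) (nat_lit 30) (.e (nat_lit 573485) (nat_lit 13) (.e (nat_lit 65619) (nat_lit 10) (.e (nat_lit 344117) (nat_lit 21) (.e (nat_lit 516160) (nat_lit 10) (.e (nat_lit 434272) (nat_lit 38) .nil))))))) (.g (nat_lit 1) (.e (nat_lit 426786) (nat_lit 0) .nil) .nil))) 
(.lf (nat_lit 603932) (.g (nat_lit 1940) (.e (nat_lit 761894) (nat_lit 15) (.e (nat_lit 163979) (nat_lit 30) (.e (nat_lit 573489) (nat_lit 14) (.e (nat_lit 73755) (nat_lit 8) (.e (nat_lit 557104) (nat_lit 14) .nil))))) (.g (nat_lit 0) (.e (nat_lit 428185) (nat_lit 0) .nil) .nil))))) (.nd (nat_lit 8) (.nd (nat_lit 9) 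
(.lf (nat_lit 603292) (.g (nat_lit 3217) (.e (nat_lit 655375) (nat_lit 3) (.e (nat_lit 163978) (nat_lit 30) (.e (nat_lit 573490) (nat_lit 15) (.e (nat_lit 81951) (nat_lit 22) (.e (nat_lit 90170) (nat_lit 13) (.e (nat_lit 172042) (nat_lit 0) (.e (nat_lit 3407) (nat_lit 212) .nil))))))) (.g (nat_lit 1) (.e (nat_lit 426455) (nat_lit 0) .nil) .nil))) 
(.lf (nat_lit 603804) (.g (nat_lit 2288) (.e (nat_lit 655380) (nat_lit 6) (.e (nat_lit 188434) (nat_lit 20) (.e (nat_lit 3409) (nat_lit 212) (.e (nat_lit 655380) (nat_lit 6) (.e (nat_lit 188441) (nat_lit 20) (.e (nat_lit 3409) (nat_lit 212) .nil)))))) (.g (nat_lit 1) (.e (nat_lit 427812) (nat_lit 0) .nil) .nil)))) (.nd (nat_lit 9) 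
(.lf (nat_lit 603548) (.g (nat_lit 2479) (.e (nat_lit 655376) (nat_lit 4) (.e (nat_lit 172126) (nat_lit 14) (.e (nat_lit 491550) (nat_lit 9) (.e (nat_lit 336430) (nat_lit 29) (.e (nat_lit 442409) (nat_lit 20) (.e (nat_lit 3407) (nat_lit 212) .nil)))))) (.g (nat_lit 1) (.e (nat_lit 427041) (nat_lit 0) .nil) .nil))) 
(.lf (nat_lit 604060) (.g (nat_lit 2846) (.e (nat_lit 761898) (nat_lit 15) (.e (nat_lit 163978) (nat_lit 30) (.e (nat_lit 573487) (nat_lit 14) (.e (nat_lit 73753) (nat_lit 8) (.e (nat_lit 557098) (nat_lit 13) (.e (nat_lit 172065) (nat_lit 3) (.e (nat_lit 204817) (nat_lit 17) (.e (nat_lit 2271) (nat_lit 149) .nil)))))))) (.g (nat_lit 1) (.e (nat_lit 428602) (nat_lit 0) .nil) .nil)))))) 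
(.nd (nat_lit 7) (.nd (nat_lit 8) (.nd (nat_lit 9) 
(.lf (nat_lit 603228) (.g (nat_lit 3689) (.e (nat_lit 655375) (nat_lit 3) (.e (nat_lit 163978) (nat_lit 30) (.e (nat_lit 573479) (nat_lit 13) (.e (nat_lit 65619) (nat_lit 10) (.e (nat_lit 344117) (nat_lit 21) (.e (nat_lit 516151) (nat_lit 9) (.e (nat_lit 426041) (nat_lit 0) (.e (nat_lit 3406) (nat_lit 212) .nil)))))))) (.g (nat_lit 1) (.e (nat_lit 426384) (nat_lit 0) .nil) .nil))) 
(.lf (nat_lit 603740) (.g (nat_lit 1890) (.e (nat_lit 655378) (nat_lit 4) (.e (nat_lit 172126) (nat_lit 14) (.e (nat_lit 491550) (nat_lit 9) (.e (nat_lit 336430) (nat_lit 29) (.e (nat_lit 442412) (nat_lit 20) .nil))))) (.g (nat_lit 0) (.e (nat_lit 427620) (nat_lit 0) .nil) .nil)))) (.nd (nat_lit 9) 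
(.lf (nat_lit 603484) (.g (nat_lit 4916) (.e (nat_lit 655375) (nat_lit 3) (.e (nat_lit 163979) (nat_lit 30) (.e (nat_lit 573492) (nat_lit 15) (.e (nat_lit 81956) (nat_lit 23) (.e (nat_lit 98362) (nat_lit 26) (.e (nat_lit 426042) (nat_lit 0) (.e (nat_lit 3409) (nat_lit 212) .nil))))))) (.g (nat_lit 1) (.e (nat_lit 426863) (nat_lit 0) .nil) .nil))) 
(.lf (nat_lit 603996) (.g (nat_lit 3725) (.e (nat_lit 761898) (nat_lit 15) (.e (nat_lit 163977) (nat_lit 30) (.e (nat_lit 573487) (nat_lit 14) (.e (nat_lit 73753) (nat_lit 8) (.e (nat_lit 557103) (nat_lit 14) (.e (nat_lit 180244) (nat_lit 5) (.e (nat_lit 532484) (nat_lit 0) (.e (nat_lit 7936) (nat_lit 149) .nil)))))))) (.g (nat_lit 1) (.e (nat_lit 428499) (nat_lit 0) .nil) .nil))))) 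
(.nd (nat_lit 8) (.nd (nat_lit 9) 
(.lf (nat_lit 603356) (.g (nat_lit 2683) (.e (nat_lit 655375) (nat_lit 3) (.e (nat_lit 163978) (nat_lit 30) (.e (nat_lit 573493) (nat_lit 15) (.e (nat_lit 81953) (nat_lit 22) (.e (nat_lit 90170) (nat_lit 13) (.e (nat_lit 172049) (nat_lit 0) (.e (nat_lit 3406) (nat_lit 212) .nil))))))) (.g (nat_lit 1) (.e (nat_lit 426662) (nat_lit 0) .nil) .nil))) 
(.lf (nat_lit 603868) (.g (nat_lit 2151) (.e (nat_lit 655398) (nat_lit 12) (.e (nat_lit 57575) (nat_lit 55) (.e (nat_lit 778466) (nat_lit 11) (.e (nat_lit 24617) (nat_lit 7) (.e (nat_lit 319533) (nat_lit 16) .nil))))) (.g (nat_lit 0) (.e (nat_lit 427939) (nat_lit 0) .nil) .nil)))) (.nd (nat_lit 9) 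
(.lf (nat_lit 603612) (.g (nat_lit 1921) (.e (nat_lit 655378) (nat_lit 4) (.e (nat_lit 172107) (nat_lit 10) (.e (nat_lit 434272) (nat_lit 38) (.e (nat_lit 655380) (nat_lit 6) (.e (nat_lit 188439) (nat_lit 20) (.e (nat_lit 3406) (nat_lit 212) .nil)))))) (.g (nat_lit 1) (.e (nat_lit 427323) (nat_lit 0) .nil) .nil))) 
(.lf (nat_lit 604124) (.g (nat_lit 2863) (.e (nat_lit 761898) (nat_lit 15) (.e (nat_lit 163978) (nat_lit 30) (.e (nat_lit 573489) (nat_lit 14) (.e (nat_lit 73755) (nat_lit 8) (.e (nat_lit 557103) (nat_lit 14) .nil))))) (.g (nat_lit 0) (.e (nat_lit 428676) (nat_lit 0) .nil) .nil))))))) (.nd (nat_lit 6) (.nd (nat_lit 7) (.nd (nat_lit 8) (.nd (nat_lit 9) 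
(.lf (nat_lit 603196) (.g (nat_lit 3981) (.e (nat_lit 655375) (nat_lit 3) (.e (nat_lit 163977) (nat_lit 30) (.e (nat_lit 573485) (nat_lit 13) (.e (nat_lit 65604) (nat_lit 9) (.e (nat_lit 336013) (nat_lit 2) (.e (nat_lit 90170) (nat_lit 13) (.e (nat_lit 172046) (nat_lit 0) (.e (nat_lit 3406) (nat_lit 212) .nil)))))))) (.g (nat_lit 1) (.e (nat_lit 426348) (nat_lit 0) .nil) .nil))) 
(.lf (nat_lit 603708) (.g (nat_lit 2981) (.e (nat_lit 655378) (nat_lit 4) (.e (nat_lit 172125) (nat_lit 14) (.e (nat_lit 491571) (nat_lit 13) (.e (nat_lit 393232) (nat_lit 17) (.e (nat_lit 7303) (nat_lit 388) (.e (nat_lit 2452) (nat_lit 157) (.e (nat_lit 3409) (nat_lit 212) .nil))))))) (.g (nat_lit 1) (.e (nat_lit 427496) (nat_lit 0) .nil) .nil)))) (.nd (nat_lit 9) 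
(.lf (nat_lit 603452) (.g (nat_lit 3871) (.e (nat_lit 655375) (nat_lit 3) (.e (nat_lit 163979) (nat_lit 30) (.e (nat_lit 573492) (nat_lit 15) (.e (nat_lit 81956) (nat_lit 23) (.e (nat_lit 98356) (nat_lit 26) (.e (nat_lit 426093) (nat_lit 0) (.e (nat_lit 3407) (nat_lit 212) .nil))))))) (.g (nat_lit 1) (.e (nat_lit 426831) (nat_lit 0) .nil) .nil))) 
(.lf (nat_lit 603964) (.g (nat_lit 4071) (.e (nat_lit 761897) (nat_lit 15) (.e (nat_lit 163979) (nat_lit 30) (.e (nat_lit 573489) (nat_lit 14) (.e (nat_lit 73754) (nat_lit 8) (.e (nat_lit 557100) (nat_lit 13) (.e (nat_lit 172065) (nat_lit 3) (.e (nat_lit 204817) (nat_lit 17) (.e (nat_lit 7936) (nat_lit 149) .nil)))))))) (.g (nat_lit 1) (.e (nat_lit 428430) (nat_lit 0) .nil) .nil))))) 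
(.nd (nat_lit 8) (.nd (nat_lit 9) 
(.lf (nat_lit 603324) (.g (nat_lit 5182) (.e (nat_lit 655375) (nat_lit 3) (.e (nat_lit 163978) (nat_lit 30) (.e (nat_lit 573491) (nat_lit 15) (.e (nat_lit 81952) (nat_lit 22) (.e (nat_lit 90170) (nat_lit 13) (.e (nat_lit 172049) (nat_lit 0) (.e (nat_lit 3409) (nat_lit 212) .nil))))))) (.g (nat_lit 1) (.e (nat_lit 426545) (nat_lit 0) .nil) .nil))) 
(.lf (nat_lit 603836) (.g (nat_lit 2594) (.e (nat_lit 655380) (nat_lit 6) (.e (nat_lit 188453) (nat_lit 24) (.e (nat_lit 229663) (nat_lit 240) (.e (nat_lit 2651) (nat_lit 166) (.e (nat_lit 188441) (nat_lit 20) .nil))))) (.g (nat_lit 0) (.e (nat_lit 427883) (nat_lit 0) .nil) .nil)))) (.nd (nat_lit 9) 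
(.lf (nat_lit 603580) (.g (nat_lit 1107) (.e (nat_lit 655378) (nat_lit 4) (.e (nat_lit 172106) (nat_lit 10) (.e (nat_lit 434209) (nat_lit 18) (.e (nat_lit 5546) (nat_lit 306) .nil)))) (.g (nat_lit 0) (.e (nat_lit 427266) (nat_lit 0) .nil) .nil))) 
(.lf (nat_lit 604092) (.g (nat_lit 3189) (.e (nat_lit 761898) (nat_lit 15) (.e (nat_lit 163978) (nat_lit 30) (.e (nat_lit 573487) (nat_lit 14) (.e (nat_lit 73753) (nat_lit 8) (.e (nat_lit 557103) (nat_lit 14) (.e (nat_lit 180244) (nat_lit 5) (.e (nat_lit 532484) (nat_lit 0) (.e (nat_lit 2271) (nat_lit 149) .nil)))))))) (.g (nat_lit 1) (.e (nat_lit 428636) (nat_lit 0) .nil) .nil)))))) 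
(.nd (nat_lit 7) (.nd (nat_lit 8) (.nd (nat_lit 9) 
(.lf (nat_lit 603260) (.g (nat_lit 3883) (.e (nat_lit 655375) (nat_lit 3) (.e (nat_lit 163978) (nat_lit 30) (.e (nat_lit 573482) (nat_lit 13) (.e (nat_lit 65604) (nat_lit 9) (.e (nat_lit 336028) (nat_lit 3) (.e (nat_lit 98359) (nat_lit 26) (.e (nat_lit 426043) (nat_lit 0) (.e (nat_lit 3406) (nat_lit 212) .nil)))))))) (.g (nat_lit 1) (.e (nat_lit 426417) (nat_lit 0) .nil) .nil))) 
(.lf (nat_lit 603772) (.g (nat_lit 2205) (.e (nat_lit 655380) (nat_lit 6) (.e (nat_lit 188427) (nat_lit 20) (.e (nat_lit 3402) (nat_lit 211) (.e (nat_lit 647185) (nat_lit 6) (.e (nat_lit 188441) (nat_lit 20) (.e (nat_lit 3409) (nat_lit 212) .nil)))))) (.g (nat_lit 1) (.e (nat_lit 427766) (nat_lit 0) .nil) .nil)))) (.nd (nat_lit 9) 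
(.lf (nat_lit 603516) (.g (nat_lit 2533) (.e (nat_lit 655375) (nat_lit 3) (.e (nat_lit 163979) (nat_lit 30) (.e (nat_lit 573493) (nat_lit 15) (.e (nat_lit 81956) (nat_lit 23) (.e (nat_lit 98359) (nat_lit 26) (.e (nat_lit 426003) (nat_lit 0) (.e (nat_lit 3409) (nat_lit 212) .nil))))))) (.g (nat_lit 1) (.e (nat_lit 426897) (nat_lit 0) .nil) .nil))) 
(.lf (nat_lit 604028) (.g (nat_lit 2425) (.e (nat_lit 761898) (nat_lit 15) (.e (nat_lit 163977) (nat_lit 30) (.e (nat_lit 573489) (nat_lit 14) (.e (nat_lit 73755) (nat_lit 8) (.e (nat_lit 557097) (nat_lit 13) (.e (nat_lit 172067) (nat_lit 3) (.e (nat_lit 204821) (nat_lit 17) (.e (nat_lit 2264) (nat_lit 149) .nil)))))))) (.g (nat_lit 1) (.e (nat_lit 428537) (nat_lit 0) .nil) .nil))))) 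
(.nd (nat_lit 8) (.nd (nat_lit 9) 
(.lf (nat_lit 603388) (.g (nat_lit 4729) (.e (nat_lit 655375) (nat_lit 3) (.e (nat_lit 163979) (nat_lit 30) (.e (nat_lit 573481) (nat_lit 13) (.e (nat_lit 65604) (nat_lit 9) (.e (nat_lit 336028) (nat_lit 3) (.e (nat_lit 98367) (nat_lit 27) (.e (nat_lit 434272) (nat_lit 38) .nil))))))) (.g (nat_lit 1) (.e (nat_lit 426754) (nat_lit 0) .nil) .nil))) 
(.lf (nat_lit 603900) (.g (nat_lit 1651) (.e (nat_lit 761867) (nat_lit 5) (.e (nat_lit 1454) (nat_lit 108) (.e (nat_lit 336001) (nat_lit 2) (.e (nat_lit 90170) (nat_lit 13) (.e (nat_lit 172113) (nat_lit 10) .nil))))) (.g (nat_lit 0) (.e (nat_lit 428032) (nat_lit 0) .nil) .nil)))) (.nd (nat_lit 9) 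
(.lf (nat_lit 603644) (.g (nat_lit 2633) (.e (nat_lit 655378) (nat_lit 4) (.e (nat_lit 172115) (nat_lit 10) (.e (nat_lit 434272) (nat_lit 38) (.e (nat_lit 655380) (nat_lit 6) (.e (nat_lit 188434) (nat_lit 20) (.e (nat_lit 3409) (nat_lit 212) .nil)))))) (.g (nat_lit 1) (.e (nat_lit 427383) (nat_lit 0) .nil) .nil))) 
(.lf (nat_lit 604156) (.g (nat_lit 5131) (.e (nat_lit 761898) (nat_lit 15) (.e (nat_lit 163979) (nat_lit 30) (.e (nat_lit 573487) (nat_lit 14) (.e (nat_lit 73753) (nat_lit 8) (.e (nat_lit 557100) (nat_lit 13) (.e (nat_lit 172065) (nat_lit 3) (.e (nat_lit 204817) (nat_lit 17) (.e (nat_lit 7936) (nat_lit 149) .nil)))))))) (.g (nat_lit 1) (.e (nat_lit 428735) (nat_lit 0) .nil) .nil))))))))))) 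
(.nd (nat_lit 2) (.nd (nat_lit 3) (.nd (nat_lit 4) (.nd (nat_lit 5) (.nd (nat_lit 6) 
(.nd (nat_lit 7) (.nd (nat_lit 8) (.nd (nat_lit 9) 
(.lf (nat_lit 603138) (.g (nat_lit 2120) (.e (nat_lit 655373) (nat_lit 3) (.e (nat_lit 163979) (nat_lit 30) (.e (nat_lit 573482) (nat_lit 13) (.e (nat_lit 65604) (nat_lit 9) (.e (nat_lit 336013) (nat_lit 2) (.e (nat_lit 90170) (nat_lit 13) (.e (nat_lit 172049) (nat_lit 0) (.e (nat_lit 3403) (nat_lit 212) .nil)))))))) (.g (nat_lit 1) (.e (nat_lit 426242) (nat_lit 0) .nil) .nil))) 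
(.lf (nat_lit 603650) (.g (nat_lit 2611) (.e (nat_lit 655378) (nat_lit 4) (.e (nat_lit 172115) (nat_lit 10) (.e (nat_lit 434272) (nat_lit 38) (.e (nat_lit 655380) (nat_lit 6) (.e (nat_lit 188440) (nat_lit 20) (.e (nat_lit 3409) (nat_lit 212) .nil)))))) (.g (nat_lit 1) (.e (nat_lit 427389) (nat_lit 0) .nil) .nil)))) (.nd (nat_lit 9) 
(.lf (nat_lit 603394) (.g (nat_lit 1632) (.e (nat_lit 655375) (nat_lit 3) (.e (nat_lit 163979) (nat_lit 30) (.e (nat_lit 573482) (nat_lit 13) (.e (nat_lit 65598) (nat_lit 9) .nil)))) (.g (nat_lit 0) (.e (nat_lit 426760) (nat_lit 0) .nil) .nil))) 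
(.lf (nat_lit 603906) (.g (nat_lit 2944) (.e (nat_lit 761893) (nat_lit 15) (.e (nat_lit 163978) (nat_lit 30) (.e (nat_lit 573489) (nat_lit 14) (.e (nat_lit 73755) (nat_lit 8) (.e (nat_lit 557096) (nat_lit 13) .nil))))) (.g (nat_lit 0) (.e (nat_lit 428092) (nat_lit 0) .nil) .nil))))) (.nd (nat_lit 8) (.nd (nat_lit 9) 
(.lf (nat_lit 603266) (.g (nat_lit 4349) (.e (nat_lit 655375) (nat_lit 3) (.e (nat_lit 163978) (nat_lit 30) (.e (nat_lit 573482) (nat_lit 13) (.e (nat_lit 65619) (nat_lit 10) (.e (nat_lit 344117) (nat_lit 21) (.e (nat_lit 516151) (nat_lit 9) (.e (nat_lit 426043) (nat_lit 0) (.e (nat_lit 3406) (nat_lit 212) .nil)))))))) (.g (nat_lit 1) (.e (nat_lit 426423) (nat_lit 0) .nil) .nil))) 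
(.lf (nat_lit 603778) (.g (nat_lit 2412) (.e (nat_lit 655380) (nat_lit 6) (.e (nat_lit 188431) (nat_lit 20) (.e (nat_lit 3402) (nat_lit 211) (.e (nat_lit 647185) (nat_lit 6) (.e (nat_lit 188441) (nat_lit 20) (.e (nat_lit 3409) (nat_lit 212) .nil)))))) (.g (nat_lit 1) (.e (nat_lit 427777) (nat_lit 0) .nil) .nil)))) (.nd (nat_lit 9) 
(.lf (nat_lit 603522) (.g (nat_lit 1157) (.e (nat_lit 655376) (nat_lit 4) (.e (nat_lit 172118) (nat_lit 12) (.e (nat_lit 475198) (nat_lit 40) (.e (nat_lit 704598) (nat_lit 6) .nil)))) (.g (nat_lit 0) (.e (nat_lit 426969) (nat_lit 0) .nil) .nil))) 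
(.lf (nat_lit 604034) (.g (nat_lit 3353) (.e (nat_lit 761898) (nat_lit 15) (.e (nat_lit 163977) (nat_lit 30) (.e (nat_lit 573489) (nat_lit 14) (.e (nat_lit 73755) (nat_lit 8) (.e (nat_lit 557103) (nat_lit 14) (.e (nat_lit 180244) (nat_lit 5) (.e (nat_lit 532484) (nat_lit 0) (.e (nat_lit 2271) (nat_lit 149) .nil)))))))) (.g (nat_lit 1) (.e (nat_lit 428547) (nat_lit 0) .nil) .nil)))))) 
(.nd (nat_lit 7) (.nd (nat_lit 8) (.nd (nat_lit 9) 
(.lf (nat_lit 603202) (.g (nat_lit 4058) (.e (nat_lit 655375) (nat_lit 3) (.e (nat_lit 163977) (nat_lit 30) (.e (nat_lit 573493) (nat_lit 15) (.e (nat_lit 81951) (nat_lit 22) (.e (nat_lit 90170) (nat_lit 13) (.e (nat_lit 172042) (nat_lit 0) (.e (nat_lit 3408) (nat_lit 212) .nil))))))) (.g (nat_lit 1) (.e (nat_lit 426356) (nat_lit 0) .nil) .nil))) 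
(.lf (nat_lit 603714) (.g (nat_lit 2730) (.e (nat_lit 655378) (nat_lit 4) (.e (nat_lit 172126) (nat_lit 14) (.e (nat_lit 491547) (nat_lit 9) (.e (nat_lit 336430) (nat_lit 29) (.e (nat_lit 442402) (nat_lit 20) (.e (nat_lit 3406) (nat_lit 212) .nil)))))) (.g (nat_lit 1) (.e (nat_lit 427581) (nat_lit 0) .nil) .nil)))) (.nd (nat_lit 9) 
(.lf (nat_lit 603458) (.g (nat_lit 5344) (.e (nat_lit 655375) (nat_lit 3) (.e (nat_lit 163979) (nat_lit 30) (.e (nat_lit 573492) (nat_lit 15) (.e (nat_lit 81956) (nat_lit 23) (.e (nat_lit 98359) (nat_lit 26) (.e (nat_lit 426043) (nat_lit 0) (.e (nat_lit 3408) (nat_lit 212) .nil))))))) (.g (nat_lit 1) (.e (nat_lit 426837) (nat_lit 0) .nil) .nil))) 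
(.lf (nat_lit 603970) (.g (nat_lit 3790) (.e (nat_lit 761897) (nat_lit 15) (.e (nat_lit 163979) (nat_lit 30) (.e (nat_lit 573489) (nat_lit 14) (.e (nat_lit 73755) (nat_lit 8) (.e (nat_lit 557097) (nat_lit 13) (.e (nat_lit 172067) (nat_lit 3) (.e (nat_lit 204815) (nat_lit 17) (.e (nat_lit 2271) (nat_lit 149) .nil)))))))) (.g (nat_lit 1) (.e (nat_lit 428438) (nat_lit 0) .nil) .nil))))) 
(.nd (nat_lit 8) (.nd (nat_lit 9) 
(.lf (nat_lit 603330) (.g (nat_lit 3333) (.e (nat_lit 655375) (nat_lit 3) (.e (nat_lit 163978) (nat_lit 30) (.e (nat_lit 573491) (nat_lit 15) (.e (nat_lit 81953) (nat_lit 22) (.e (nat_lit 90170) (nat_lit 13) (.e (nat_lit 172049) (nat_lit 0) (.e (nat_lit 3407) (nat_lit 212) .nil))))))) (.g (nat_lit 1) (.e (nat_lit 426553) (nat_lit 0) .nil) .nil))) 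
(.lf (nat_lit 603842) (.g (nat_lit 346) (.e (nat_lit 655380) (nat_lit 6) (.e (nat_lit 188455) (nat_lit 24) (.e (nat_lit 229663) (nat_lit 240) .nil))) (.g (nat_lit 0) (.e (nat_lit 427889) (nat_lit 0) .nil) .nil)))) (.nd (nat_lit 9) 
(.lf (nat_lit 603586) (.g (nat_lit 1444) (.e (nat_lit 655378) (nat_lit 4) (.e (nat_lit 172106) (nat_lit 10) (.e (nat_lit 434209) (nat_lit 18) (.e (nat_lit 5547) (nat_lit 306) (.e (nat_lit 2648) (nat_lit 166) .nil))))) (.g (nat_lit 0) (.e (nat_lit 427280) (nat_lit 0) .nil) .nil))) 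
(.lf (nat_lit 604098) (.g (nat_lit 3630) (.e (nat_lit 761898) (nat_lit 15) (.e (nat_lit 163978) (nat_lit 30) (.e (nat_lit 573489) (nat_lit 14) (.e (nat_lit 73754) (nat_lit 8) (.e (nat_lit 557100) (nat_lit 13) (.e (nat_lit 172067) (nat_lit 3) (.e (nat_lit 204815) (nat_lit 17) (.e (nat_lit 2271) (nat_lit 149) .nil)))))))) (.g (nat_lit 1) (.e (nat_lit 428642) (nat_lit 0) .nil) .nil))))))) 
(.nd (nat_lit 6) (.nd (nat_lit 7) (.nd (nat_lit 8) (.nd (nat_lit 9) 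
(.lf (nat_lit 603170) (.g (nat_lit 2291) (.e (nat_lit 655374) (nat_lit 3) (.e (nat_lit 163978) (nat_lit 30) (.e (nat_lit 573485) (nat_lit 13) (.e (nat_lit 65619) (nat_lit 10) (.e (nat_lit 344117) (nat_lit 21) (.e (nat_lit 516151) (nat_lit 9) (.e (nat_lit 426043) (nat_lit 0) (.e (nat_lit 3409) (nat_lit 212) .nil)))))))) (.g (nat_lit 1) (.e (nat_lit 426298) (nat_lit 0) .nil) .nil))) 
(.lf (nat_lit 603682) (.g (nat_lit 2547) (.e (nat_lit 655378) (nat_lit 4) (.e (nat_lit 172120) (nat_lit 12) (.e (nat_lit 475210) (nat_lit 41) (.e (nat_lit 712752) (nat_lit 29) (.e (nat_lit 442412) (nat_lit 20) .nil))))) (.g (nat_lit 0) (.e (nat_lit 427437) (nat_lit 0) .nil) .nil)))) (.nd (nat_lit 9) 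
(.lf (nat_lit 603426) (.g (nat_lit 3227) (.e (nat_lit 655375) (nat_lit 3) (.e (nat_lit 163979) (nat_lit 30) (.e (nat_lit 573491) (nat_lit 15) (.e (nat_lit 81954) (nat_lit 23) (.e (nat_lit 98359) (nat_lit 26) (.e (nat_lit 426042) (nat_lit 0) (.e (nat_lit 3409) (nat_lit 212) .nil))))))) (.g (nat_lit 1) (.e (nat_lit 426792) (nat_lit 0) .nil) .nil))) 
(.lf (nat_lit 603938) (.g (nat_lit 3107) (.e (nat_lit 761895) (nat_lit 15) (.e (nat_lit 163978) (nat_lit 30) (.e (nat_lit 573489) (nat_lit 14) (.e (nat_lit 73755) (nat_lit 8) (.e (nat_lit 557096) (nat_lit 13) .nil))))) (.g (nat_lit 0) (.e (nat_lit 428241) (nat_lit 0) .nil) .nil))))) (.nd (nat_lit 8) (.nd (nat_lit 9) 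
(.lf (nat_lit 603298) (.g (nat_lit 1136) (.e (nat_lit 655375) (nat_lit 3) (.e (nat_lit 163978) (nat_lit 30) (.e (nat_lit 573490) (nat_lit 15) (.e (nat_lit 81953) (nat_lit 22) .nil)))) (.g (nat_lit 0) (.e (nat_lit 426461) (nat_lit 0) .nil) .nil))) 
(.lf (nat_lit 603810) (.g (nat_lit 1256) (.e (nat_lit 655380) (nat_lit 6) (.e (nat_lit 188439) (nat_lit 20) (.e (nat_lit 3408) (nat_lit 212) (.e (nat_lit 655380) (nat_lit 6) (.e (nat_lit 188439) (nat_lit 20) (.e (nat_lit 3408) (nat_lit 212) .nil)))))) (.g (nat_lit 1) (.e (nat_lit 427818) (nat_lit 0) .nil) .nil)))) (.nd (nat_lit 9) 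
(.lf (nat_lit 603554) (.g (nat_lit 3040) (.e (nat_lit 655377) (nat_lit 4) (.e (nat_lit 172126) (nat_lit 14) (.e (nat_lit 491550) (nat_lit 9) (.e (nat_lit 336443) (nat_lit 32) (.e (nat_lit 466960) (nat_lit 20) (.e (nat_lit 3403) (nat_lit 212) .nil)))))) (.g (nat_lit 1) (.e (nat_lit 427165) (nat_lit 0) .nil) .nil))) 
(.lf (nat_lit 604066) (.g (nat_lit 2522) (.e (nat_lit 761898) (nat_lit 15) (.e (nat_lit 163978) (nat_lit 30) (.e (nat_lit 573487) (nat_lit 14) (.e (nat_lit 73753) (nat_lit 8) (.e (nat_lit 557098) (nat_lit 13) (.e (nat_lit 172066) (nat_lit 3) (.e (nat_lit 204821) (nat_lit 17) (.e (nat_lit 7936) (nat_lit 149) .nil)))))))) (.g (nat_lit 1) (.e (nat_lit 428608) (nat_lit 0) .nil) .nil)))))) 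
(.nd (nat_lit 7) (.nd (nat_lit 8) (.nd (nat_lit 9) 
(.lf (nat_lit 603234) (.g (nat_lit 3088) (.e (nat_lit 655375) (nat_lit 3) (.e (nat_lit 163978) (nat_lit 30) (.e (nat_lit 573480) (nat_lit 13) (.e (nat_lit 65604) (nat_lit 9) (.e (nat_lit 336013) (nat_lit 2) (.e (nat_lit 90170) (nat_lit 13) (.e (nat_lit 172049) (nat_lit 0) (.e (nat_lit 3406) (nat_lit 212) .nil)))))))) (.g (nat_lit 1) (.e (nat_lit 426390) (nat_lit 0) .nil) .nil))) 
(.lf (nat_lit 603746) (.g (nat_lit 200) (.e (nat_lit 655378) (nat_lit 4) (.e (nat_lit 172126) (nat_lit 14) (.e (nat_lit 491569) (nat_lit 13) .nil))) (.g (nat_lit 0) (.e (nat_lit 427652) (nat_lit 0) .nil) .nil)))) (.nd (nat_lit 9) 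
(.lf (nat_lit 603490) (.g (nat_lit 5248) (.e (nat_lit 655375) (nat_lit 3) (.e (nat_lit 163979) (nat_lit 30) (.e (nat_lit 573492) (nat_lit 15) (.e (nat_lit 81956) (nat_lit 23) (.e (nat_lit 98365) (nat_lit 26) (.e (nat_lit 426009) (nat_lit 0) (.e (nat_lit 3403) (nat_lit 212) .nil))))))) (.g (nat_lit 1) (.e (nat_lit 426869) (nat_lit 0) .nil) .nil))) 
(.lf (nat_lit 604002) (.g (nat_lit 3663) (.e (nat_lit 761898) (nat_lit 15) (.e (nat_lit 163977) (nat_lit 30) (.e (nat_lit 573489) (nat_lit 14) (.e (nat_lit 73754) (nat_lit 8) (.e (nat_lit 557101) (nat_lit 13) (.e (nat_lit 172065) (nat_lit 3) (.e (nat_lit 204817) (nat_lit 17) (.e (nat_lit 7936) (nat_lit 149) .nil)))))))) (.g (nat_lit 1) (.e (nat_lit 428506) (nat_lit 0) .nil) .nil))))) 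
(.nd (nat_lit 8) (.nd (nat_lit 9) 
(.lf (nat_lit 603362) (.g (nat_lit 2616) (.e (nat_lit 655375) (nat_lit 3) (.e (nat_lit 163978) (nat_lit 30) (.e (nat_lit 573493) (nat_lit 15) (.e (nat_lit 81956) (nat_lit 23) (.e (nat_lit 98356) (nat_lit 26) .nil))))) (.g (nat_lit 0) (.e (nat_lit 426687) (nat_lit 0) .nil) .nil))) 
(.lf (nat_lit 603874) (.g (nat_lit 3467) (.e (nat_lit 753671) (nat_lit 5) (.e (nat_lit 3098) (nat_lit 192) (.e (nat_lit 491569) (nat_lit 13) (.e (nat_lit 393301) (nat_lit 27) (.e (nat_lit 491560) (nat_lit 10) (.e (nat_lit 344171) (nat_lit 41) .nil)))))) (.g (nat_lit 1) (.e (nat_lit 427948) (nat_lit 0) .nil) .nil)))) (.nd (nat_lit 9) 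
(.lf (nat_lit 603618) (.g (nat_lit 1725) (.e (nat_lit 655378) (nat_lit 4) (.e (nat_lit 172112) (nat_lit 10) (.e (nat_lit 434271) (nat_lit 38) (.e (nat_lit 655380) (nat_lit 6) (.e (nat_lit 188438) (nat_lit 20) (.e (nat_lit 3407) (nat_lit 212) .nil)))))) (.g (nat_lit 1) (.e (nat_lit 427329) (nat_lit 0) .nil) .nil))) 
(.lf (nat_lit 604130) (.g (nat_lit 3191) (.e (nat_lit 761898) (nat_lit 15) (.e (nat_lit 163978) (nat_lit 30) (.e (nat_lit 573489) (nat_lit 14) (.e (nat_lit 73755) (nat_lit 8) (.e (nat_lit 557104) (nat_lit 14) .nil))))) (.g (nat_lit 0) (.e (nat_lit 428682) (nat_lit 0) .nil) .nil)))))))) (.nd (nat_lit 5) (.nd (nat_lit 6) (.nd (nat_lit 7) (.nd (nat_lit 8) (.nd (nat_lit 9) 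
(.lf (nat_lit 603154) (.g (nat_lit 2302) (.e (nat_lit 655373) (nat_lit 3) (.e (nat_lit 163979) (nat_lit 30) (.e (nat_lit 573493) (nat_lit 15) (.e (nat_lit 81953) (nat_lit 22) (.e (nat_lit 90170) (nat_lit 13) (.e (nat_lit 172042) (nat_lit 0) (.e (nat_lit 3403) (nat_lit 212) .nil))))))) (.g (nat_lit 1) (.e (nat_lit 426264) (nat_lit 0) .nil) .nil))) 
(.lf (nat_lit 603666) (.g (nat_lit 1385) (.e (nat_lit 655378) (nat_lit 4) (.e (nat_lit 172119) (nat_lit 12) (.e (nat_lit 475198) (nat_lit 40) (.e (nat_lit 704598) (nat_lit 6) (.e (nat_lit 188439) (nat_lit 20) .nil))))) (.g (nat_lit 0) (.e (nat_lit 427412) (nat_lit 0) .nil) .nil)))) (.nd (nat_lit 9) 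
(.lf (nat_lit 603410) (.g (nat_lit 2887) (.e (nat_lit 655375) (nat_lit 3) (.e (nat_lit 163979) (nat_lit 30) (.e (nat_lit 573485) (nat_lit 13) (.e (nat_lit 65604) (nat_lit 9) (.e (nat_lit 336028) (nat_lit 3) (.e (nat_lit 98359) (nat_lit 26) (.e (nat_lit 426043) (nat_lit 0) (.e (nat_lit 3406) (nat_lit 212) .nil)))))))) (.g (nat_lit 1) (.e (nat_lit 426776) (nat_lit 0) .nil) .nil))) 
(.lf (nat_lit 603922) (.g (nat_lit 1619) (.e (nat_lit 761894) (nat_lit 15) (.e (nat_lit 163979) (nat_lit 30) (.e (nat_lit 573482) (nat_lit 13) (.e (nat_lit 65625) (nat_lit 13) .nil)))) (.g (nat_lit 0) (.e (nat_lit 428175) (nat_lit 0) .nil) .nil))))) (.nd (nat_lit 8) (.nd (nat_lit 9) 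
(.lf (nat_lit 603282) (.g (nat_lit 3146) (.e (nat_lit 655375) (nat_lit 3) (.e (nat_lit 163978) (nat_lit 30) (.e (nat_lit 573485) (nat_lit 13) (.e (nat_lit 65604) (nat_lit 9) (.e (nat_lit 336013) (nat_lit 2) (.e (nat_lit 90170) (nat_lit 13) (.e (nat_lit 172042) (nat_lit 0) (.e (nat_lit 3407) (nat_lit 212) .nil)))))))) (.g (nat_lit 1) (.e (nat_lit 426440) (nat_lit 0) .nil) .nil))) 
(.lf (nat_lit 603794) (.g (nat_lit 2002) (.e (nat_lit 655380) (nat_lit 6) (.e (nat_lit 188434) (nat_lit 20) (.e (nat_lit 3409) (nat_lit 212) (.e (nat_lit 655380) (nat_lit 6) (.e (nat_lit 188434) (nat_lit 20) (.e (nat_lit 3409) (nat_lit 212) .nil)))))) (.g (nat_lit 1) (.e (nat_lit 427802) (nat_lit 0) .nil) .nil)))) (.nd (nat_lit 9) 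
(.lf (nat_lit 603538) (.g (nat_lit 2500) (.e (nat_lit 655376) (nat_lit 4) (.e (nat_lit 172124) (nat_lit 14) (.e (nat_lit 491549) (nat_lit 9) (.e (nat_lit 336430) (nat_lit 29) (.e (nat_lit 442402) (nat_lit 20) (.e (nat_lit 3406) (nat_lit 212) .nil)))))) (.g (nat_lit 1) (.e (nat_lit 426996) (nat_lit 0) .nil) .nil))) 
(.lf (nat_lit 604050) (.g (nat_lit 2471) (.e (nat_lit 761898) (nat_lit 15) (.e (nat_lit 163977) (nat_lit 30) (.e (nat_lit 573489) (nat_lit 14) (.e (nat_lit 73755) (nat_lit 8) (.e (nat_lit 557104) (nat_lit 14) (.e (nat_lit 180244) (nat_lit 5) (.e (nat_lit 532490) (nat_lit 0) (.e (nat_lit 7936) (nat_lit 149) .nil)))))))) (.g (nat_lit 1) (.e (nat_lit 428564) (nat_lit 0) .nil) .nil)))))) 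
(.nd (nat_lit 7) (.nd (nat_lit 8) (.nd (nat_lit 9) 
(.lf (nat_lit 603218) (.g (nat_lit 5221) (.e (nat_lit 655375) (nat_lit 3) (.e (nat_lit 163978) (nat_lit 30) (.e (nat_lit 573479) (nat_lit 13) (.e (nat_lit 65604) (nat_lit 9) (.e (nat_lit 336013) (nat_lit 2) (.e (nat_lit 90170) (nat_lit 13) (.e (nat_lit 172049) (nat_lit 0) (.e (nat_lit 3407) (nat_lit 212) .nil)))))))) (.g (nat_lit 1) (.e (nat_lit 426374) (nat_lit 0) .nil) .nil))) 
(.lf (nat_lit 603730) (.g (nat_lit 3603) (.e (nat_lit 655378) (nat_lit 4) (.e (nat_lit 172126) (nat_lit 14) (.e (nat_lit 491549) (nat_lit 9) (.e (nat_lit 336432) (nat_lit 30) (.e (nat_lit 450593) (nat_lit 16) .nil))))) (.g (nat_lit 1) (.e (nat_lit 427610) (nat_lit 0) .nil) .nil)))) (.nd (nat_lit 9) 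
(.lf (nat_lit 603474) (.g (nat_lit 3536) (.e (nat_lit 655375) (nat_lit 3) (.e (nat_lit 163979) (nat_lit 30) (.e (nat_lit 573492) (nat_lit 15) (.e (nat_lit 81956) (nat_lit 23) (.e (nat_lit 98360) (nat_lit 26) (.e (nat_lit 426047) (nat_lit 0) (.e (nat_lit 3406) (nat_lit 212) .nil))))))) (.g (nat_lit 1) (.e (nat_lit 426853) (nat_lit 0) .nil) .nil))) 
(.lf (nat_lit 603986) (.g (nat_lit 4854) (.e (nat_lit 761898) (nat_lit 15) (.e (nat_lit 163977) (nat_lit 30) (.e (nat_lit 573487) (nat_lit 14) (.e (nat_lit 73753) (nat_lit 8) (.e (nat_lit 557100) (nat_lit 13) (.e (nat_lit 172065) (nat_lit 3) (.e (nat_lit 204817) (nat_lit 17) (.e (nat_lit 7936) (nat_lit 149) .nil)))))))) (.g (nat_lit 1) (.e (nat_lit 428488) (nat_lit 0) .nil) .nil))))) 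
(.nd (nat_lit 8) (.nd (nat_lit 9) 
(.lf (nat_lit 603346) (.g (nat_lit 2224) (.e (nat_lit 655375) (nat_lit 3) (.e (nat_lit 163978) (nat_lit 30) (.e (nat_lit 573493) (nat_lit 15) (.e (nat_lit 81951) (nat_lit 22) (.e (nat_lit 90170) (nat_lit 13) .nil))))) (.g (nat_lit 0) (.e (nat_lit 426649) (nat_lit 0) .nil) .nil))) 
(.lf (nat_lit 603858) (.g (nat_lit 2279) (.e (nat_lit 655380) (nat_lit 6) (.e (nat_lit 188455) (nat_lit 24) (.e (nat_lit 229666) (nat_lit 240) (.e (nat_lit 2653) (nat_lit 166) (.e (nat_lit 188440) (nat_lit 20) (.e (nat_lit 3409) (nat_lit 212) .nil)))))) (.g (nat_lit 1) (.e (nat_lit 427911) (nat_lit 0) .nil) .nil)))) (.nd (nat_lit 9) 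
(.lf (nat_lit 603602) (.g (nat_lit 2719) (.e (nat_lit 655378) (nat_lit 4) (.e (nat_lit 172106) (nat_lit 10) (.e (nat_lit 434272) (nat_lit 38) (.e (nat_lit 655380) (nat_lit 6) (.e (nat_lit 188440) (nat_lit 20) (.e (nat_lit 3408) (nat_lit 212) .nil)))))) (.g (nat_lit 1) (.e (nat_lit 427313) (nat_lit 0) .nil) .nil))) 
(.lf (nat_lit 604114) (.g (nat_lit 3459) (.e (nat_lit 761898) (nat_lit 15) (.e (nat_lit 163978) (nat_lit 30) (.e (nat_lit 573489) (nat_lit 14) (.e (nat_lit 73755) (nat_lit 8) (.e (nat_lit 557097) (nat_lit 13) (.e (nat_lit 172067) (nat_lit 3) (.e (nat_lit 204816) (nat_lit 17) (.e (nat_lit 2273) (nat_lit 149) .nil)))))))) (.g (nat_lit 1) (.e (nat_lit 428663) (nat_lit 0) .nil) .nil))))))) 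
(.nd (nat_lit 6) (.nd (nat_lit 7) (.nd (nat_lit 8) (.nd (nat_lit 9) 
(.lf (nat_lit 603186) (.g (nat_lit 2426) (.e (nat_lit 655375) (nat_lit 3) (.e (nat_lit 163977) (nat_lit 30) (.e (nat_lit 573481) (nat_lit 13) (.e (nat_lit 65604) (nat_lit 9) (.e (nat_lit 336013) (nat_lit 2) (.e (nat_lit 90170) (nat_lit 13) (.e (nat_lit 172049) (nat_lit 0) (.e (nat_lit 3407) (nat_lit 212) .nil)))))))) (.g (nat_lit 1) (.e (nat_lit 426338) (nat_lit 0) .nil) .nil))) 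
(.lf (nat_lit 603698) (.g (nat_lit 2726) (.e (nat_lit 655378) (nat_lit 4) (.e (nat_lit 172124) (nat_lit 14) (.e (nat_lit 491550) (nat_lit 9) (.e (nat_lit 336430) (nat_lit 29) (.e (nat_lit 442409) (nat_lit 20) (.e (nat_lit 3408) (nat_lit 212) .nil)))))) (.g (nat_lit 1) (.e (nat_lit 427463) (nat_lit 0) .nil) .nil)))) (.nd (nat_lit 9) 
(.lf (nat_lit 603442) (.g (nat_lit 1946) (.e (nat_lit 655375) (nat_lit 3) (.e (nat_lit 163979) (nat_lit 30) (.e (nat_lit 573492) (nat_lit 15) (.e (nat_lit 81956) (nat_lit 23) (.e (nat_lit 98355) (nat_lit 26) (.e (nat_lit 425986) (nat_lit 0) (.e (nat_lit 3403) (nat_lit 212) .nil))))))) (.g (nat_lit 1) (.e (nat_lit 426821) (nat_lit 0) .nil) .nil))) 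
(.lf (nat_lit 603954) (.g (nat_lit 2465) (.e (nat_lit 761897) (nat_lit 15) (.e (nat_lit 163978) (nat_lit 30) (.e (nat_lit 573489) (nat_lit 14) (.e (nat_lit 73754) (nat_lit 8) (.e (nat_lit 557101) (nat_lit 13) (.e (nat_lit 172066) (nat_lit 3) (.e (nat_lit 204821) (nat_lit 17) (.e (nat_lit 2270) (nat_lit 149) .nil)))))))) (.g (nat_lit 1) (.e (nat_lit 428385) (nat_lit 0) .nil) .nil))))) 
(.nd (nat_lit 8) (.nd (nat_lit 9) 
(.lf (nat_lit 603314) (.g (nat_lit 3382) (.e (nat_lit 655375) (nat_lit 3) (.e (nat_lit 163978) (nat_lit 30) (.e (nat_lit 573491) (nat_lit 15) (.e (nat_lit 81951) (nat_lit 22) (.e (nat_lit 90170) (nat_lit 13) (.e (nat_lit 172042) (nat_lit 0) (.e (nat_lit 3409) (nat_lit 212) .nil))))))) (.g (nat_lit 1) (.e (nat_lit 426535) (nat_lit 0) .nil) .nil))) 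
(.lf (nat_lit 603826) (.g (nat_lit 972) (.e (nat_lit 655380) (nat_lit 6) (.e (nat_lit 188444) (nat_lit 21) (.e (nat_lit 164347) (nat_lit 240) (.e (nat_lit 2648) (nat_lit 166) .nil)))) (.g (nat_lit 0) (.e (nat_lit 427839) (nat_lit 0) .nil) .nil)))) (.nd (nat_lit 9) 
(.lf (nat_lit 603570) (.g (nat_lit 1079) (.e (nat_lit 655378) (nat_lit 4) (.e (nat_lit 172094) (nat_lit 9) (.e (nat_lit 426025) (nat_lit 0) (.e (nat_lit 3399) (nat_lit 211) .nil)))) (.g (nat_lit 0) (.e (nat_lit 427239) (nat_lit 0) .nil) .nil))) 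
(.lf (nat_lit 604082) (.g (nat_lit 3409) (.e (nat_lit 761898) (nat_lit 15) (.e (nat_lit 163978) (nat_lit 30) (.e (nat_lit 573487) (nat_lit 14) (.e (nat_lit 73753) (nat_lit 8) (.e (nat_lit 557101) (nat_lit 13) (.e (nat_lit 172066) (nat_lit 3) (.e (nat_lit 204817) (nat_lit 17) (.e (nat_lit 7936) (nat_lit 149) .nil)))))))) (.g (nat_lit 1) (.e (nat_lit 428625) (nat_lit 0) .nil) .nil)))))) 
(.nd (nat_lit 7) (.nd (nat_lit 8) (.nd (nat_lit 9) 
(.lf (nat_lit 603250) (.g (nat_lit 3403) (.e (nat_lit 655375) (nat_lit 3) (.e (nat_lit 163978) (nat_lit 30) (.e (nat_lit 573481) (nat_lit 13) (.e (nat_lit 65604) (nat_lit 9) (.e (nat_lit 336028) (nat_lit 3) (.e (nat_lit 98366) (nat_lit 27) (.e (nat_lit 434271) (nat_lit 38) .nil))))))) (.g (nat_lit 1) (.e (nat_lit 426407) (nat_lit 0) .nil) .nil))) 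
(.lf (nat_lit 603762) (.g (nat_lit 2074) (.e (nat_lit 655378) (nat_lit 4) (.e (nat_lit 172147) (nat_lit 27) (.e (nat_lit 335895) (nat_lit 0) (.e (nat_lit 6712) (nat_lit 360) (.e (nat_lit 163976) (nat_lit 30) (.e (nat_lit 573488) (nat_lit 14) (.e (nat_lit 73769) (nat_lit 20) .nil))))))) (.g (nat_lit 1) (.e (nat_lit 427716) (nat_lit 0) .nil) .nil)))) (.nd (nat_lit 9) 
(.lf (nat_lit 603506) (.g (nat_lit 4357) (.e (nat_lit 655375) (nat_lit 3) (.e (nat_lit 163979) (nat_lit 30) (.e (nat_lit 573493) (nat_lit 15) (.e (nat_lit 81953) (nat_lit 22) (.e (nat_lit 90170) (nat_lit 13) (.e (nat_lit 172042) (nat_lit 0) (.e (nat_lit 3406) (nat_lit 212) .nil))))))) (.g (nat_lit 1) (.e (nat_lit 426887) (nat_lit 0) .nil) .nil))) 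
(.lf (nat_lit 604018) (.g (nat_lit 3103) (.e (nat_lit 761898) (nat_lit 15) (.e (nat_lit 163977) (nat_lit 30) (.e (nat_lit 573489) (nat_lit 14) (.e (nat_lit 73755) (nat_lit 8) (.e (nat_lit 557097) (nat_lit 13) (.e (nat_lit 172066) (nat_lit 3) (.e (nat_lit 204820) (nat_lit 17) (.e (nat_lit 7936) (nat_lit 149) .nil)))))))) (.g (nat_lit 1) (.e (nat_lit 428527) (nat_lit 0) .nil) .nil))))) 
(.nd (nat_lit 8) (.nd (nat_lit 9) 
(.lf (nat_lit 603378) (.g (nat_lit 2770) (.e (nat_lit 655375) (nat_lit 3) (.e (nat_lit 163979) (nat_lit 30) (.e (nat_lit 573481) (nat_lit 13) (.e (nat_lit 65604) (nat_lit 9) (.e (nat_lit 336013) (nat_lit 2) (.e (nat_lit 90170) (nat_lit 13) (.e (nat_lit 172042) (nat_lit 0) (.e (nat_lit 3407) (nat_lit 212) .nil)))))))) (.g (nat_lit 1) (.e (nat_lit 426744) (nat_lit 0) .nil) .nil))) 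
(.lf (nat_lit 603890) (.g (nat_lit 3050) (.e (nat_lit 753683) (nat_lit 7) (.e (nat_lit 24662) (nat_lit 14) (.e (nat_lit 401459) (nat_lit 13) (.e (nat_lit 483404) (nat_lit 26) .nil)))) (.g (nat_lit 0) (.e (nat_lit 427977) (nat_lit 0) .nil) .nil)))) (.nd (nat_lit 9) 
(.lf (nat_lit 603634) (.g (nat_lit 1083) (.e (nat_lit 655378) (nat_lit 4) (.e (nat_lit 172115) (nat_lit 10) (.e (nat_lit 434209) (nat_lit 18) (.e (nat_lit 5547) (nat_lit 306) .nil)))) (.g (nat_lit 0) (.e (nat_lit 427355) (nat_lit 0) .nil) .nil))) 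
(.lf (nat_lit 604146) (.g (nat_lit 3466) (.e (nat_lit 761898) (nat_lit 15) (.e (nat_lit 163979) (nat_lit 30) (.e (nat_lit 573487) (nat_lit 14) (.e (nat_lit 73753) (nat_lit 8) (.e (nat_lit 557096) (nat_lit 13) (.e (nat_lit 172067) (nat_lit 3) (.e (nat_lit 204817) (nat_lit 17) (.e (nat_lit 7936) (nat_lit 149) .nil)))))))) (.g (nat_lit 1) (.e (nat_lit 428725) (nat_lit 0) .nil) .nil))))))))) 
(.nd (nat_lit 4) (.nd (nat_lit 5) (.nd (nat_lit 6) (.nd (nat_lit 7) (.nd (nat_lit 8) 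
(.nd (nat_lit 9) 
(.lf (nat_lit 603146) (.g (nat_lit 1216) (.e (nat_lit 655373) (nat_lit 3) (.e (nat_lit 163979) (nat_lit 30) (.e (nat_lit 573491) (nat_lit 15) (.e (nat_lit 81954) (nat_lit 23) .nil)))) (.g (nat_lit 0) (.e (nat_lit 426250) (nat_lit 0) .nil) .nil))) 
(.lf (nat_lit 603658) (.g (nat_lit 2075) (.e (nat_lit 655378) (nat_lit 4) (.e (nat_lit 172116) (nat_lit 10) (.e (nat_lit 434271) (nat_lit 38) (.e (nat_lit 655380) (nat_lit 6) (.e (nat_lit 188440) (nat_lit 20) (.e (nat_lit 3409) (nat_lit 212) .nil)))))) (.g (nat_lit 1) (.e (nat_lit 427404) (nat_lit 0) .nil) .nil)))) (.nd (nat_lit 9) 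
(.lf (nat_lit 603402) (.g (nat_lit 3997) (.e (nat_lit 655375) (nat_lit 3) (.e (nat_lit 163979) (nat_lit 30) (.e (nat_lit 573484) (nat_lit 13) (.e (nat_lit 65610) (nat_lit 10) (.e (nat_lit 344117) (nat_lit 21) .nil))))) (.g (nat_lit 0) (.e (nat_lit 426768) (nat_lit 0) .nil) .nil))) 
(.lf (nat_lit 603914) (.g (nat_lit 2572) (.e (nat_lit 761894) (nat_lit 15) (.e (nat_lit 163978) (nat_lit 30) (.e (nat_lit 573489) (nat_lit 14) (.e (nat_lit 73754) (nat_lit 8) (.e (nat_lit 557095) (nat_lit 13) .nil))))) (.g (nat_lit 0) (.e (nat_lit 428149) (nat_lit 0) .nil) .nil))))) (.nd (nat_lit 8) (.nd (nat_lit 9) 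
(.lf (nat_lit 603274) (.g (nat_lit 3637) (.e (nat_lit 655375) (nat_lit 3) (.e (nat_lit 163978) (nat_lit 30) (.e (nat_lit 573483) (nat_lit 13) (.e (nat_lit 65619) (nat_lit 10) (.e (nat_lit 344117) (nat_lit 21) (.e (nat_lit 516151) (nat_lit 9) (.e (nat_lit 426042) (nat_lit 0) (.e (nat_lit 3409) (nat_lit 212) .nil)))))))) (.g (nat_lit 1) (.e (nat_lit 426431) (nat_lit 0) .nil) .nil))) 
(.lf (nat_lit 603786) (.g (nat_lit 459) (.e (nat_lit 655380) (nat_lit 6) (.e (nat_lit 188434) (nat_lit 20) (.e (nat_lit 3407) (nat_lit 212) .nil))) (.g (nat_lit 0) (.e (nat_lit 427787) (nat_lit 0) .nil) .nil)))) (.nd (nat_lit 9) 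
(.lf (nat_lit 603530) (.g (nat_lit 1270) (.e (nat_lit 655376) (nat_lit 4) (.e (nat_lit 172120) (nat_lit 12) (.e (nat_lit 475198) (nat_lit 40) (.e (nat_lit 704599) (nat_lit 6) .nil)))) (.g (nat_lit 0) (.e (nat_lit 426979) (nat_lit 0) .nil) .nil))) 
(.lf (nat_lit 604042) (.g (nat_lit 3103) (.e (nat_lit 761898) (nat_lit 15) (.e (nat_lit 163977) (nat_lit 30) (.e (nat_lit 573489) (nat_lit 14) (.e (nat_lit 73755) (nat_lit 8) (.e (nat_lit 557104) (nat_lit 14) (.e (nat_lit 180243) (nat_lit 5) (.e (nat_lit 532484) (nat_lit 0) (.e (nat_lit 7936) (nat_lit 149) .nil)))))))) (.g (nat_lit 1) (.e (nat_lit 428556) (nat_lit 0) .nil) .nil)))))) 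
(.nd (nat_lit 7) (.nd (nat_lit 8) (.nd (nat_lit 9) 
(.lf (nat_lit 603210) (.g (nat_lit 3803) (.e (nat_lit 655375) (nat_lit 3) (.e (nat_lit 163977) (nat_lit 30) (.e (nat_lit 573493) (nat_lit 15) (.e (nat_lit 81954) (nat_lit 23) (.e (nat_lit 98359) (nat_lit 26) (.e (nat_lit 426043) (nat_lit 0) (.e (nat_lit 3407) (nat_lit 212) .nil))))))) (.g (nat_lit 1) (.e (nat_lit 426366) (nat_lit 0) .nil) .nil))) 
(.lf (nat_lit 603722) (.g (nat_lit 3191) (.e (nat_lit 655378) (nat_lit 4) (.e (nat_lit 172126) (nat_lit 14) (.e (nat_lit 491549) (nat_lit 9) (.e (nat_lit 336430) (nat_lit 29) (.e (nat_lit 442402) (nat_lit 20) (.e (nat_lit 3406) (nat_lit 212) .nil)))))) (.g (nat_lit 1) (.e (nat_lit 427602) (nat_lit 0) .nil) .nil)))) (.nd (nat_lit 9) 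
(.lf (nat_lit 603466) (.g (nat_lit 3342) (.e (nat_lit 655375) (nat_lit 3) (.e (nat_lit 163979) (nat_lit 30) (.e (nat_lit 573492) (nat_lit 15) (.e (nat_lit 81956) (nat_lit 23) (.e (nat_lit 98360) (nat_lit 26) (.e (nat_lit 426038) (nat_lit 0) (.e (nat_lit 3407) (nat_lit 212) .nil))))))) (.g (nat_lit 1) (.e (nat_lit 426845) (nat_lit 0) .nil) .nil))) 
(.lf (nat_lit 603978) (.g (nat_lit 2012) (.e (nat_lit 761898) (nat_lit 15) (.e (nat_lit 163977) (nat_lit 30) (.e (nat_lit 573487) (nat_lit 14) (.e (nat_lit 73753) (nat_lit 8) (.e (nat_lit 557098) (nat_lit 13) .nil))))) (.g (nat_lit 0) (.e (nat_lit 428480) (nat_lit 0) .nil) .nil))))) (.nd (nat_lit 8) (.nd (nat_lit 9) 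
(.lf (nat_lit 603338) (.g (nat_lit 3007) (.e (nat_lit 655375) (nat_lit 3) (.e (nat_lit 163978) (nat_lit 30) (.e (nat_lit 573491) (nat_lit 15) (.e (nat_lit 81956) (nat_lit 23) (.e (nat_lit 98359) (nat_lit 26) (.e (nat_lit 426042) (nat_lit 0) (.e (nat_lit 3409) (nat_lit 212) .nil))))))) (.g (nat_lit 1) (.e (nat_lit 426561) (nat_lit 0) .nil) .nil))) 
(.lf (nat_lit 603850) (.g (nat_lit 3025) (.e (nat_lit 655380) (nat_lit 6) (.e (nat_lit 188455) (nat_lit 24) (.e (nat_lit 229664) (nat_lit 240) (.e (nat_lit 2630) (nat_lit 164) (.e (nat_lit 172106) (nat_lit 10) (.e (nat_lit 434271) (nat_lit 38) .nil)))))) (.g (nat_lit 1) (.e (nat_lit 427903) (nat_lit 0) .nil) .nil)))) (.nd (nat_lit 9) 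
(.lf (nat_lit 603594) (.g (nat_lit 2305) (.e (nat_lit 655378) (nat_lit 4) (.e (nat_lit 172106) (nat_lit 10) (.e (nat_lit 434271) (nat_lit 38) (.e (nat_lit 655380) (nat_lit 6) (.e (nat_lit 188439) (nat_lit 20) (.e (nat_lit 3408) (nat_lit 212) .nil)))))) (.g (nat_lit 1) (.e (nat_lit 427298) (nat_lit 0) .nil) .nil))) 
(.lf (nat_lit 604106) (.g (nat_lit 2643) (.e (nat_lit 761898) (nat_lit 15) (.e (nat_lit 163978) (nat_lit 30) (.e (nat_lit 573489) (nat_lit 14) (.e (nat_lit 73755) (nat_lit 8) (.e (nat_lit 557096) (nat_lit 13) .nil))))) (.g (nat_lit 0) (.e (nat_lit 428654) (nat_lit 0) .nil) .nil))))))) (.nd (nat_lit 6) (.nd (nat_lit 7) (.nd (nat_lit 8) (.nd (nat_lit 9) 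
(.lf (nat_lit 603178) (.g (nat_lit 3807) (.e (nat_lit 655374) (nat_lit 3) (.e (nat_lit 163979) (nat_lit 30) (.e (nat_lit 573493) (nat_lit 15) (.e (nat_lit 81954) (nat_lit 23) (.e (nat_lit 98366) (nat_lit 27) .nil))))) (.g (nat_lit 0) (.e (nat_lit 426320) (nat_lit 0) .nil) .nil))) 
(.lf (nat_lit 603690) (.g (nat_lit 397) (.e (nat_lit 655378) (nat_lit 4) (.e (nat_lit 172124) (nat_lit 14) (.e (nat_lit 491549) (nat_lit 9) .nil))) (.g (nat_lit 0) (.e (nat_lit 427453) (nat_lit 0) .nil) .nil)))) (.nd (nat_lit 9) 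
(.lf (nat_lit 603434) (.g (nat_lit 3771) (.e (nat_lit 655375) (nat_lit 3) (.e (nat_lit 163979) (nat_lit 30) (.e (nat_lit 573492) (nat_lit 15) (.e (nat_lit 81953) (nat_lit 22) (.e (nat_lit 90170) (nat_lit 13) (.e (nat_lit 172042) (nat_lit 0) (.e (nat_lit 3406) (nat_lit 212) .nil))))))) (.g (nat_lit 1) (.e (nat_lit 426803) (nat_lit 0) .nil) .nil))) 
(.lf (nat_lit 603946) (.g (nat_lit 2457) (.e (nat_lit 761897) (nat_lit 15) (.e (nat_lit 163977) (nat_lit 30) (.e (nat_lit 573489) (nat_lit 14) (.e (nat_lit 73754) (nat_lit 8) (.e (nat_lit 557101) (nat_lit 13) (.e (nat_lit 172065) (nat_lit 3) (.e (nat_lit 204817) (nat_lit 17) (.e (nat_lit 7936) (nat_lit 149) .nil)))))))) (.g (nat_lit 1) (.e (nat_lit 428362) (nat_lit 0) .nil) .nil))))) 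
(.nd (nat_lit 8) (.nd (nat_lit 9) 
(.lf (nat_lit 603306) (.g (nat_lit 3746) (.e (nat_lit 655375) (nat_lit 3) (.e (nat_lit 163978) (nat_lit 30) (.e (nat_lit 573490) (nat_lit 15) (.e (nat_lit 81954) (nat_lit 23) (.e (nat_lit 98359) (nat_lit 26) (.e (nat_lit 426043) (nat_lit 0) (.e (nat_lit 3409) (nat_lit 212) .nil))))))) (.g (nat_lit 1) (.e (nat_lit 426470) (nat_lit 0) .nil) .nil))) 
(.lf (nat_lit 603818) (.g (nat_lit 1461) (.e (nat_lit 655380) (nat_lit 6) (.e (nat_lit 188440) (nat_lit 20) (.e (nat_lit 3409) (nat_lit 212) (.e (nat_lit 655380) (nat_lit 6) (.e (nat_lit 188435) (nat_lit 20) (.e (nat_lit 3409) (nat_lit 212) .nil)))))) (.g (nat_lit 1) (.e (nat_lit 427826) (nat_lit 0) .nil) .nil)))) (.nd (nat_lit 9) 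
(.lf (nat_lit 603562) (.g (nat_lit 1079) (.e (nat_lit 655378) (nat_lit 4) (.e (nat_lit 172080) (nat_lit 7) (.e (nat_lit 409618) (nat_lit 10) (.e (nat_lit 5364) (nat_lit 298) (.e (nat_lit 463) (nat_lit 34) .nil))))) (.g (nat_lit 0) (.e (nat_lit 427226) (nat_lit 0) .nil) .nil))) 
(.lf (nat_lit 604074) (.g (nat_lit 2738) (.e (nat_lit 761898) (nat_lit 15) (.e (nat_lit 163978) (nat_lit 30) (.e (nat_lit 573487) (nat_lit 14) (.e (nat_lit 73753) (nat_lit 8) (.e (nat_lit 557100) (nat_lit 13) (.e (nat_lit 172067) (nat_lit 3) (.e (nat_lit 204816) (nat_lit 17) (.e (nat_lit 2273) (nat_lit 149) .nil)))))))) (.g (nat_lit 1) (.e (nat_lit 428616) (nat_lit 0) .nil) .nil)))))) 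
(.nd (nat_lit 7) (.nd (nat_lit 8) (.nd (nat_lit 9) 
(.lf (nat_lit 603242) (.g (nat_lit 3381) (.e (nat_lit 655375) (nat_lit 3) (.e (nat_lit 163978) (nat_lit 30) (.e (nat_lit 573481) (nat_lit 13) (.e (nat_lit 65604) (nat_lit 9) (.e (nat_lit 336013) (nat_lit 2) (.e (nat_lit 90170) (nat_lit 13) (.e (nat_lit 172046) (nat_lit 0) (.e (nat_lit 3406) (nat_lit 212) .nil)))))))) (.g (nat_lit 1) (.e (nat_lit 426399) (nat_lit 0) .nil) .nil))) 
(.lf (nat_lit 603754) (.g (nat_lit 2434) (.e (nat_lit 655378) (nat_lit 4) (.e (nat_lit 172126) (nat_lit 14) (.e (nat_lit 491571) (nat_lit 13) (.e (nat_lit 393232) (nat_lit 17) (.e (nat_lit 7303) (nat_lit 388) (.e (nat_lit 2452) (nat_lit 157) (.e (nat_lit 3409) (nat_lit 212) .nil))))))) (.g (nat_lit 1) (.e (nat_lit 427672) (nat_lit 0) .nil) .nil)))) (.nd (nat_lit 9) 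
(.lf (nat_lit 603498) (.g (nat_lit 4250) (.e (nat_lit 655375) (nat_lit 3) (.e (nat_lit 163979) (nat_lit 30) (.e (nat_lit 573493) (nat_lit 15) (.e (nat_lit 81951) (nat_lit 22) (.e (nat_lit 90170) (nat_lit 13) (.e (nat_lit 172042) (nat_lit 0) (.e (nat_lit 3406) (nat_lit 212) .nil))))))) (.g (nat_lit 1) (.e (nat_lit 426879) (nat_lit 0) .nil) .nil))) 
(.lf (nat_lit 604010) (.g (nat_lit 2040) (.e (nat_lit 761898) (nat_lit 15) (.e (nat_lit 163977) (nat_lit 30) (.e (nat_lit 573489) (nat_lit 14) (.e (nat_lit 73755) (nat_lit 8) (.e (nat_lit 557097) (nat_lit 13) .nil))))) (.g (nat_lit 0) (.e (nat_lit 428517) (nat_lit 0) .nil) .nil))))) (.nd (nat_lit 8) (.nd (nat_lit 9) 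
(.lf (nat_lit 603370) (.g (nat_lit 5424) (.e (nat_lit 655375) (nat_lit 3) (.e (nat_lit 163978) (nat_lit 30) (.e (nat_lit 573493) (nat_lit 15) (.e (nat_lit 81956) (nat_lit 23) (.e (nat_lit 98365) (nat_lit 26) (.e (nat_lit 426009) (nat_lit 0) (.e (nat_lit 3404) (nat_lit 212) .nil))))))) (.g (nat_lit 1) (.e (nat_lit 426695) (nat_lit 0) .nil) .nil))) 
(.lf (nat_lit 603882) (.g (nat_lit 1568) (.e (nat_lit 753674) (nat_lit 5) (.e (nat_lit 3098) (nat_lit 192) (.e (nat_lit 491568) (nat_lit 13) (.e (nat_lit 393301) (nat_lit 27) .nil)))) (.g (nat_lit 0) (.e (nat_lit 427963) (nat_lit 0) .nil) .nil)))) (.nd (nat_lit 9) 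
(.lf (nat_lit 603626) (.g (nat_lit 1424) (.e (nat_lit 655378) (nat_lit 4) (.e (nat_lit 172113) (nat_lit 10) (.e (nat_lit 434209) (nat_lit 18) (.e (nat_lit 5547) (nat_lit 306) .nil)))) (.g (nat_lit 0) (.e (nat_lit 427339) (nat_lit 0) .nil) .nil))) 
(.lf (nat_lit 604138) (.g (nat_lit 3057) (.e (nat_lit 761898) (nat_lit 15) (.e (nat_lit 163978) (nat_lit 30) (.e (nat_lit 573489) (nat_lit 14) (.e (nat_lit 73755) (nat_lit 8) (.e (nat_lit 557105) (nat_lit 14) (.e (nat_lit 180245) (nat_lit 5) (.e (nat_lit 532484) (nat_lit 0) (.e (nat_lit 2271) (nat_lit 149) .nil)))))))) (.g (nat_lit 1) (.e (nat_lit 428691) (nat_lit 0) .nil) .nil)))))))) 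
(.nd (nat_lit 5) (.nd (nat_lit 6) (.nd (nat_lit 7) (.nd (nat_lit 8) (.nd (nat_lit 9) 
(.lf (nat_lit 603162) (.g (nat_lit 4062) (.e (nat_lit 655373) (nat_lit 3) (.e (nat_lit 163979) (nat_lit 30) (.e (nat_lit 573493) (nat_lit 15) (.e (nat_lit 81956) (nat_lit 23) (.e (nat_lit 98366) (nat_lit 27) (.e (nat_lit 434271) (nat_lit 38) .nil)))))) (.g (nat_lit 1) (.e (nat_lit 426280) (nat_lit 0) .nil) .nil))) 
(.lf (nat_lit 603674) (.g (nat_lit 3013) (.e (nat_lit 655378) (nat_lit 4) (.e (nat_lit 172120) (nat_lit 12) (.e (nat_lit 475198) (nat_lit 40) (.e (nat_lit 704599) (nat_lit 6) (.e (nat_lit 188440) (nat_lit 20) (.e (nat_lit 3409) (nat_lit 212) .nil)))))) (.g (nat_lit 1) (.e (nat_lit 427424) (nat_lit 0) .nil) .nil)))) (.nd (nat_lit 9) 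
(.lf (nat_lit 603418) (.g (nat_lit 4093) (.e (nat_lit 655375) (nat_lit 3) (.e (nat_lit 163979) (nat_lit 30) (.e (nat_lit 573485) (nat_lit 13) (.e (nat_lit 65619) (nat_lit 10) (.e (nat_lit 344117) (nat_lit 21) (.e (nat_lit 516151) (nat_lit 9) (.e (nat_lit 426043) (nat_lit 0) (.e (nat_lit 3408) (nat_lit 212) .nil)))))))) (.g (nat_lit 1) (.e (nat_lit 426784) (nat_lit 0) .nil) .nil))) 
(.lf (nat_lit 603930) (.g (nat_lit 3604) (.e (nat_lit 761894) (nat_lit 15) (.e (nat_lit 163979) (nat_lit 30) (.e (nat_lit 573489) (nat_lit 14) (.e (nat_lit 73755) (nat_lit 8) (.e (nat_lit 557097) (nat_lit 13) (.e (nat_lit 172065) (nat_lit 3) (.e (nat_lit 204817) (nat_lit 17) (.e (nat_lit 7936) (nat_lit 149) .nil)))))))) (.g (nat_lit 1) (.e (nat_lit 428183) (nat_lit 0) .nil) .nil))))) 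
(.nd (nat_lit 8) (.nd (nat_lit 9) 
(.lf (nat_lit 603290) (.g (nat_lit 1601) (.e (nat_lit 655375) (nat_lit 3) (.e (nat_lit 163978) (nat_lit 30) (.e (nat_lit 573490) (nat_lit 15) (.e (nat_lit 81951) (nat_lit 22) .nil)))) (.g (nat_lit 0) (.e (nat_lit 426453) (nat_lit 0) .nil) .nil))) 
(.lf (nat_lit 603802) (.g (nat_lit 1999) (.e (nat_lit 655380) (nat_lit 6) (.e (nat_lit 188434) (nat_lit 20) (.e (nat_lit 3409) (nat_lit 212) (.e (nat_lit 655380) (nat_lit 6) (.e (nat_lit 188440) (nat_lit 20) (.e (nat_lit 3409) (nat_lit 212) .nil)))))) (.g (nat_lit 1) (.e (nat_lit 427810) (nat_lit 0) .nil) .nil)))) (.nd (nat_lit 9) 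
(.lf (nat_lit 603546) (.g (nat_lit 2513) (.e (nat_lit 655376) (nat_lit 4) (.e (nat_lit 172126) (nat_lit 14) (.e (nat_lit 491550) (nat_lit 9) (.e (nat_lit 336430) (nat_lit 29) (.e (nat_lit 442402) (nat_lit 20) (.e (nat_lit 3408) (nat_lit 212) .nil)))))) (.g (nat_lit 1) (.e (nat_lit 427039) (nat_lit 0) .nil) .nil))) 
(.lf (nat_lit 604058) (.g (nat_lit 3208) (.e (nat_lit 761898) (nat_lit 15) (.e (nat_lit 163978) (nat_lit 30) (.e (nat_lit 573487) (nat_lit 14) (.e (nat_lit 73753) (nat_lit 8) (.e (nat_lit 557098) (nat_lit 13) (.e (nat_lit 172065) (nat_lit 3) (.e (nat_lit 204815) (nat_lit 17) (.e (nat_lit 2271) (nat_lit 149) .nil)))))))) (.g (nat_lit 1) (.e (nat_lit 428600) (nat_lit 0) .nil) .nil)))))) 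
(.nd (nat_lit 7) (.nd (nat_lit 8) (.nd (nat_lit 9) 
(.lf (nat_lit 603226) (.g (nat_lit 4643) (.e (nat_lit 655375) (nat_lit 3) (.e (nat_lit 163978) (nat_lit 30) (.e (nat_lit 573479) (nat_lit 13) (.e (nat_lit 65604) (nat_lit 9) (.e (nat_lit 336028) (nat_lit 3) (.e (nat_lit 98366) (nat_lit 27) (.e (nat_lit 434271) (nat_lit 38) .nil))))))) (.g (nat_lit 1) (.e (nat_lit 426382) (nat_lit 0) .nil) .nil))) 
(.lf (nat_lit 603738) (.g (nat_lit 3120) (.e (nat_lit 655378) (nat_lit 4) (.e (nat_lit 172126) (nat_lit 14) (.e (nat_lit 491550) (nat_lit 9) (.e (nat_lit 336430) (nat_lit 29) (.e (nat_lit 442409) (nat_lit 20) (.e (nat_lit 3408) (nat_lit 212) .nil)))))) (.g (nat_lit 1) (.e (nat_lit 427618) (nat_lit 0) .nil) .nil)))) (.nd (nat_lit 9) 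
(.lf (nat_lit 603482) (.g (nat_lit 5023) (.e (nat_lit 655375) (nat_lit 3) (.e (nat_lit 163979) (nat_lit 30) (.e (nat_lit 573492) (nat_lit 15) (.e (nat_lit 81956) (nat_lit 23) (.e (nat_lit 98362) (nat_lit 26) (.e (nat_lit 426036) (nat_lit 0) (.e (nat_lit 3409) (nat_lit 212) .nil))))))) (.g (nat_lit 1) (.e (nat_lit 426861) (nat_lit 0) .nil) .nil))) 
(.lf (nat_lit 603994) (.g (nat_lit 3399) (.e (nat_lit 761898) (nat_lit 15) (.e (nat_lit 163977) (nat_lit 30) (.e (nat_lit 573487) (nat_lit 14) (.e (nat_lit 73753) (nat_lit 8) (.e (nat_lit 557101) (nat_lit 13) (.e (nat_lit 172067) (nat_lit 3) (.e (nat_lit 204817) (nat_lit 17) (.e (nat_lit 7936) (nat_lit 149) .nil)))))))) (.g (nat_lit 1) (.e (nat_lit 428497) (nat_lit 0) .nil) .nil))))) 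
(.nd (nat_lit 8) (.nd (nat_lit 9) 
(.lf (nat_lit 603354) (.g (nat_lit 2916) (.e (nat_lit 655375) (nat_lit 3) (.e (nat_lit 163978) (nat_lit 30) (.e (nat_lit 573493) (nat_lit 15) (.e (nat_lit 81953) (nat_lit 22) (.e (nat_lit 90170) (nat_lit 13) (.e (nat_lit 172042) (nat_lit 0) (.e (nat_lit 3409) (nat_lit 212) .nil))))))) (.g (nat_lit 1) (.e (nat_lit 426660) (nat_lit 0) .nil) .nil))) 
(.lf (nat_lit 603866) (.g (nat_lit 2200) (.e (nat_lit 655397) (nat_lit 12) (.e (nat_lit 57575) (nat_lit 55) (.e (nat_lit 778466) (nat_lit 11) (.e (nat_lit 24617) (nat_lit 7) .nil)))) (.g (nat_lit 0) (.e (nat_lit 427936) (nat_lit 0) .nil) .nil)))) (.nd (nat_lit 9) 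
(.lf (nat_lit 603610) (.g (nat_lit 1116) (.e (nat_lit 655378) (nat_lit 4) (.e (nat_lit 172107) (nat_lit 10) (.e (nat_lit 434272) (nat_lit 38) (.e (nat_lit 655380) (nat_lit 6) (.e (nat_lit 188424) (nat_lit 20) .nil))))) (.g (nat_lit 0) (.e (nat_lit 427321) (nat_lit 0) .nil) .nil))) 
(.lf (nat_lit 604122) (.g (nat_lit 5207) (.e (nat_lit 761898) (nat_lit 15) (.e (nat_lit 163978) (nat_lit 30) (.e (nat_lit 573489) (nat_lit 14) (.e (nat_lit 73755) (nat_lit 8) (.e (nat_lit 557098) (nat_lit 13) (.e (nat_lit 172067) (nat_lit 3) (.e (nat_lit 204821) (nat_lit 17) (.e (nat_lit 2270) (nat_lit 149) .nil)))))))) (.g (nat_lit 1) (.e (nat_lit 428674) (nat_lit 0) .nil) .nil))))))) 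
(.nd (nat_lit 6) (.nd (nat_lit 7) (.nd (nat_lit 8) (.nd (nat_lit 9) 
(.lf (nat_lit 603194) (.g (nat_lit 4738) (.e (nat_lit 655375) (nat_lit 3) (.e (nat_lit 163977) (nat_lit 30) (.e (nat_lit 573484) (nat_lit 13) (.e (nat_lit 65610) (nat_lit 10) (.e (nat_lit 344117) (nat_lit 21) (.e (nat_lit 516151) (nat_lit 9) (.e (nat_lit 426042) (nat_lit 0) (.e (nat_lit 3409) (nat_lit 212) .nil)))))))) (.g (nat_lit 1) (.e (nat_lit 426346) (nat_lit 0) .nil) .nil))) 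
(.lf (nat_lit 603706) (.g (nat_lit 1840) (.e (nat_lit 655378) (nat_lit 4) (.e (nat_lit 172125) (nat_lit 14) (.e (nat_lit 491571) (nat_lit 13) (.e (nat_lit 393231) (nat_lit 17) .nil)))) (.g (nat_lit 0) (.e (nat_lit 427492) (nat_lit 0) .nil) .nil)))) (.nd (nat_lit 9) 
(.lf (nat_lit 603450) (.g (nat_lit 3396) (.e (nat_lit 655375) (nat_lit 3) (.e (nat_lit 163979) (nat_lit 30) (.e (nat_lit 573492) (nat_lit 15) (.e (nat_lit 81956) (nat_lit 23) (.e (nat_lit 98356) (nat_lit 26) (.e (nat_lit 426067) (nat_lit 0) (.e (nat_lit 3403) (nat_lit 212) .nil))))))) (.g (nat_lit 1) (.e (nat_lit 426829) (nat_lit 0) .nil) .nil))) 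
(.lf (nat_lit 603962) (.g (nat_lit 3133) (.e (nat_lit 761897) (nat_lit 15) (.e (nat_lit 163978) (nat_lit 30) (.e (nat_lit 573489) (nat_lit 14) (.e (nat_lit 73755) (nat_lit 8) (.e (nat_lit 557097) (nat_lit 13) (.e (nat_lit 172067) (nat_lit 3) (.e (nat_lit 204814) (nat_lit 17) (.e (nat_lit 2270) (nat_lit 149) .nil)))))))) (.g (nat_lit 1) (.e (nat_lit 428394) (nat_lit 0) .nil) .nil))))) 
(.nd (nat_lit 8) (.nd (nat_lit 9) 
(.lf (nat_lit 603322) (.g (nat_lit 5192) (.e (nat_lit 655375) (nat_lit 3) (.e (nat_lit 163978) (nat_lit 30) (.e (nat_lit 573491) (nat_lit 15) (.e (nat_lit 81952) (nat_lit 22) (.e (nat_lit 90170) (nat_lit 13) (.e (nat_lit 172049) (nat_lit 0) (.e (nat_lit 3406) (nat_lit 212) .nil))))))) (.g (nat_lit 1) (.e (nat_lit 426543) (nat_lit 0) .nil) .nil))) 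
(.lf (nat_lit 603834) (.g (nat_lit 2804) (.e (nat_lit 655380) (nat_lit 6) (.e (nat_lit 188453) (nat_lit 24) (.e (nat_lit 229663) (nat_lit 240) (.e (nat_lit 2630) (nat_lit 164) (.e (nat_lit 172113) (nat_lit 10) (.e (nat_lit 434270) (nat_lit 38) .nil)))))) (.g (nat_lit 1) (.e (nat_lit 427881) (nat_lit 0) .nil) .nil)))) (.nd (nat_lit 9) 
(.lf (nat_lit 603578) (.g (nat_lit 3195) (.e (nat_lit 655378) (nat_lit 4) (.e (nat_lit 172097) (nat_lit 9) (.e (nat_lit 426109) (nat_lit 1) (.e (nat_lit 164347) (nat_lit 240) (.e (nat_lit 2648) (nat_lit 166) (.e (nat_lit 188440) (nat_lit 20) (.e (nat_lit 3409) (nat_lit 212) .nil))))))) (.g (nat_lit 1) (.e (nat_lit 427264) (nat_lit 0) .nil) .nil))) 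
(.lf (nat_lit 604090) (.g (nat_lit 3433) (.e (nat_lit 761898) (nat_lit 15) (.e (nat_lit 163978) (nat_lit 30) (.e (nat_lit 573487) (nat_lit 14) (.e (nat_lit 73753) (nat_lit 8) (.e (nat_lit 557103) (nat_lit 14) (.e (nat_lit 180243) (nat_lit 5) (.e (nat_lit 532488) (nat_lit 0) (.e (nat_lit 7936) (nat_lit 149) .nil)))))))) (.g (nat_lit 1) (.e (nat_lit 428634) (nat_lit 0) .nil) .nil)))))) 
(.nd (nat_lit 7) (.nd (nat_lit 8) (.nd (nat_lit 9) 
(.lf (nat_lit 603258) (.g (nat_lit 3980) (.e (nat_lit 655375) (nat_lit 3) (.e (nat_lit 163978) (nat_lit 30) (.e (nat_lit 573482) (nat_lit 13) (.e (nat_lit 65604) (nat_lit 9) (.e (nat_lit 336013) (nat_lit 2) (.e (nat_lit 90170) (nat_lit 13) (.e (nat_lit 172046) (nat_lit 0) (.e (nat_lit 3406) (nat_lit 212) .nil)))))))) (.g (nat_lit 1) (.e (nat_lit 426415) (nat_lit 0) .nil) .nil))) 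
(.lf (nat_lit 603770) (.g (nat_lit 1691) (.e (nat_lit 655380) (nat_lit 6) (.e (nat_lit 188427) (nat_lit 20) (.e (nat_lit 3402) (nat_lit 211) (.e (nat_lit 647185) (nat_lit 6) (.e (nat_lit 188439) (nat_lit 20) (.e (nat_lit 3409) (nat_lit 212) .nil)))))) (.g (nat_lit 1) (.e (nat_lit 427763) (nat_lit 0) .nil) .nil)))) (.nd (nat_lit 9) 
(.lf (nat_lit 603514) (.g (nat_lit 5199) (.e (nat_lit 655375) (nat_lit 3) (.e (nat_lit 163979) (nat_lit 30) (.e (nat_lit 573493) (nat_lit 15) (.e (nat_lit 81954) (nat_lit 23) (.e (nat_lit 98367) (nat_lit 27) (.e (nat_lit 434271) (nat_lit 38) .nil)))))) (.g (nat_lit 1) (.e (nat_lit 426895) (nat_lit 0) .nil) .nil))) 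
(.lf (nat_lit 604026) (.g (nat_lit 2515) (.e (nat_lit 761898) (nat_lit 15) (.e (nat_lit 163977) (nat_lit 30) (.e (nat_lit 573489) (nat_lit 14) (.e (nat_lit 73755) (nat_lit 8) (.e (nat_lit 557097) (nat_lit 13) (.e (nat_lit 172067) (nat_lit 3) (.e (nat_lit 204819) (nat_lit 17) (.e (nat_lit 7936) (nat_lit 149) .nil)))))))) (.g (nat_lit 1) (.e (nat_lit 428535) (nat_lit 0) .nil) .nil))))) 
(.nd (nat_lit 8) (.nd (nat_lit 9) 
(.lf (nat_lit 603386) (.g (nat_lit 4252) (.e (nat_lit 655375) (nat_lit 3) (.e (nat_lit 163979) (nat_lit 30) (.e (nat_lit 573481) (nat_lit 13) (.e (nat_lit 65604) (nat_lit 9) (.e (nat_lit 336028) (nat_lit 3) (.e (nat_lit 98359) (nat_lit 26) (.e (nat_lit 426043) (nat_lit 0) (.e (nat_lit 3408) (nat_lit 212) .nil)))))))) (.g (nat_lit 1) (.e (nat_lit 426752) (nat_lit 0) .nil) .nil))) 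
(.lf (nat_lit 603898) (.g (nat_lit 1562) (.e (nat_lit 761867) (nat_lit 5) (.e (nat_lit 1423) (nat_lit 108) (.e (nat_lit 336019) (nat_lit 3) (.e (nat_lit 98372) (nat_lit 29) (.e (nat_lit 450586) (nat_lit 10) .nil))))) (.g (nat_lit 0) (.e (nat_lit 428029) (nat_lit 0) .nil) .nil)))) (.nd (nat_lit 9) 
(.lf (nat_lit 603642) (.g (nat_lit 2321) (.e (nat_lit 655378) (nat_lit 4) (.e (nat_lit 172115) (nat_lit 10) (.e (nat_lit 434271) (nat_lit 38) (.e (nat_lit 655380) (nat_lit 6) (.e (nat_lit 188439) (nat_lit 20) (.e (nat_lit 3408) (nat_lit 212) .nil)))))) (.g (nat_lit 1) (.e (nat_lit 427374) (nat_lit 0) .nil) .nil))) 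
(.lf (nat_lit 604154) (.g (nat_lit 2424) (.e (nat_lit 761898) (nat_lit 15) (.e (nat_lit 163979) (nat_lit 30) (.e (nat_lit 573487) (nat_lit 14) (.e (nat_lit 73753) (nat_lit 8) (.e (nat_lit 557098) (nat_lit 13) (.e (nat_lit 172066) (nat_lit 3) (.e (nat_lit 204821) (nat_lit 17) (.e (nat_lit 7936) (nat_lit 149) .nil)))))))) (.g (nat_lit 1) (.e (nat_lit 428733) (nat_lit 0) .nil) .nil)))))))))) 
(.nd (nat_lit 3) (.nd (nat_lit 4) (.nd (nat_lit 5) (.nd (nat_lit 6) (.nd (nat_lit 7) 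
(.nd (nat_lit 8) (.nd (nat_lit 9) 
(.lf (nat_lit 603142) (.g (nat_lit 1956) (.e (nat_lit 655373) (nat_lit 3) (.e (nat_lit 163979) (nat_lit 30) (.e (nat_lit 573491) (nat_lit 15) (.e (nat_lit 81951) (nat_lit 22) (.e (nat_lit 90170) (nat_lit 13) (.e (nat_lit 172042) (nat_lit 0) (.e (nat_lit 3403) (nat_lit 212) .nil))))))) (.g (nat_lit 1) (.e (nat_lit 426246) (nat_lit 0) .nil) .nil))) 
(.lf (nat_lit 603654) (.g (nat_lit 2006) (.e (nat_lit 655378) (nat_lit 4) (.e (nat_lit 172116) (nat_lit 10) (.e (nat_lit 434209) (nat_lit 18) (.e (nat_lit 5548) (nat_lit 306) (.e (nat_lit 2648) (nat_lit 166) (.e (nat_lit 188440) (nat_lit 20) (.e (nat_lit 3409) (nat_lit 212) .nil))))))) (.g (nat_lit 1) (.e (nat_lit 427397) (nat_lit 0) .nil) .nil)))) (.nd (nat_lit 9) 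
(.lf (nat_lit 603398) (.g (nat_lit 2027) (.e (nat_lit 655375) (nat_lit 3) (.e (nat_lit 163979) (nat_lit 30) (.e (nat_lit 573482) (nat_lit 13) (.e (nat_lit 65604) (nat_lit 9) (.e (nat_lit 336028) (nat_lit 3) .nil))))) (.g (nat_lit 0) (.e (nat_lit 426764) (nat_lit 0) .nil) .nil))) 
(.lf (nat_lit 603910) (.g (nat_lit 3491) (.e (nat_lit 761893) (nat_lit 15) (.e (nat_lit 163978) (nat_lit 30) (.e (nat_lit 573489) (nat_lit 14) (.e (nat_lit 73755) (nat_lit 8) (.e (nat_lit 557104) (nat_lit 14) .nil))))) (.g (nat_lit 0) (.e (nat_lit 428097) (nat_lit 0) .nil) .nil))))) (.nd (nat_lit 8) (.nd (nat_lit 9) 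
(.lf (nat_lit 603270) (.g (nat_lit 2263) (.e (nat_lit 655375) (nat_lit 3) (.e (nat_lit 163978) (nat_lit 30) (.e (nat_lit 573483) (nat_lit 13) (.e (nat_lit 65604) (nat_lit 9) (.e (nat_lit 336028) (nat_lit 3) (.e (nat_lit 98359) (nat_lit 26) (.e (nat_lit 426043) (nat_lit 0) (.e (nat_lit 3408) (nat_lit 212) .nil)))))))) (.g (nat_lit 1) (.e (nat_lit 426427) (nat_lit 0) .nil) .nil))) 
(.lf (nat_lit 603782) (.g (nat_lit 1702) (.e (nat_lit 655380) (nat_lit 6) (.e (nat_lit 188434) (nat_lit 20) (.e (nat_lit 3406) (nat_lit 212) (.e (nat_lit 655380) (nat_lit 6) (.e (nat_lit 188439) (nat_lit 20) (.e (nat_lit 3406) (nat_lit 212) .nil)))))) (.g (nat_lit 1) (.e (nat_lit 427783) (nat_lit 0) .nil) .nil)))) (.nd (nat_lit 9) 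
(.lf (nat_lit 603526) (.g (nat_lit 1483) (.e (nat_lit 655376) (nat_lit 4) (.e (nat_lit 172119) (nat_lit 12) (.e (nat_lit 475199) (nat_lit 40) (.e (nat_lit 704598) (nat_lit 6) (.e (nat_lit 188434) (nat_lit 20) .nil))))) (.g (nat_lit 0) (.e (nat_lit 426974) (nat_lit 0) .nil) .nil))) 
(.lf (nat_lit 604038) (.g (nat_lit 2118) (.e (nat_lit 761898) (nat_lit 15) (.e (nat_lit 163977) (nat_lit 30) (.e (nat_lit 573489) (nat_lit 14) (.e (nat_lit 73755) (nat_lit 8) (.e (nat_lit 557104) (nat_lit 14) .nil))))) (.g (nat_lit 0) (.e (nat_lit 428552) (nat_lit 0) .nil) .nil)))))) (.nd (nat_lit 7) (.nd (nat_lit 8) (.nd (nat_lit 9) 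
(.lf (nat_lit 603206) (.g (nat_lit 4006) (.e (nat_lit 655375) (nat_lit 3) (.e (nat_lit 163977) (nat_lit 30) (.e (nat_lit 573493) (nat_lit 15) (.e (nat_lit 81951) (nat_lit 22) (.e (nat_lit 90170) (nat_lit 13) (.e (nat_lit 172049) (nat_lit 0) (.e (nat_lit 3408) (nat_lit 212) .nil))))))) (.g (nat_lit 1) (.e (nat_lit 426360) (nat_lit 0) .nil) .nil))) 
(.lf (nat_lit 603718) (.g (nat_lit 2846) (.e (nat_lit 655378) (nat_lit 4) (.e (nat_lit 172126) (nat_lit 14) (.e (nat_lit 491547) (nat_lit 9) (.e (nat_lit 336430) (nat_lit 29) (.e (nat_lit 442409) (nat_lit 20) (.e (nat_lit 3408) (nat_lit 212) .nil)))))) (.g (nat_lit 1) (.e (nat_lit 427585) (nat_lit 0) .nil) .nil)))) (.nd (nat_lit 9) 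
(.lf (nat_lit 603462) (.g (nat_lit 3629) (.e (nat_lit 655375) (nat_lit 3) (.e (nat_lit 163979) (nat_lit 30) (.e (nat_lit 573492) (nat_lit 15) (.e (nat_lit 81956) (nat_lit 23) (.e (nat_lit 98360) (nat_lit 26) (.e (nat_lit 426036) (nat_lit 0) (.e (nat_lit 3406) (nat_lit 212) .nil))))))) (.g (nat_lit 1) (.e (nat_lit 426841) (nat_lit 0) .nil) .nil))) 
(.lf (nat_lit 603974) (.g (nat_lit 2585) (.e (nat_lit 761898) (nat_lit 15) (.e (nat_lit 163977) (nat_lit 30) (.e (nat_lit 573487) (nat_lit 14) (.e (nat_lit 73753) (nat_lit 8) (.e (nat_lit 557096) (nat_lit 13) (.e (nat_lit 172067) (nat_lit 3) (.e (nat_lit 204815) (nat_lit 17) (.e (nat_lit 2271) (nat_lit 149) .nil)))))))) (.g (nat_lit 1) (.e (nat_lit 428476) (nat_lit 0) .nil) .nil))))) 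
(.nd (nat_lit 8) (.nd (nat_lit 9) 
(.lf (nat_lit 603334) (.g (nat_lit 3577) (.e (nat_lit 655375) (nat_lit 3) (.e (nat_lit 163978) (nat_lit 30) (.e (nat_lit 573491) (nat_lit 15) (.e (nat_lit 81954) (nat_lit 23) (.e (nat_lit 98359) (nat_lit 26) (.e (nat_lit 426043) (nat_lit 0) (.e (nat_lit 3407) (nat_lit 212) .nil))))))) (.g (nat_lit 1) (.e (nat_lit 426557) (nat_lit 0) .nil) .nil))) 
(.lf (nat_lit 603846) (.g (nat_lit 1304) (.e (nat_lit 655380) (nat_lit 6) (.e (nat_lit 188455) (nat_lit 24) (.e (nat_lit 229663) (nat_lit 240) (.e (nat_lit 2651) (nat_lit 166) .nil)))) (.g (nat_lit 0) (.e (nat_lit 427898) (nat_lit 0) .nil) .nil)))) (.nd (nat_lit 9) 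
(.lf (nat_lit 603590) (.g (nat_lit 4396) (.e (nat_lit 655378) (nat_lit 4) (.e (nat_lit 172106) (nat_lit 10) (.e (nat_lit 434209) (nat_lit 18) (.e (nat_lit 5548) (nat_lit 306) (.e (nat_lit 2650) (nat_lit 166) (.e (nat_lit 188441) (nat_lit 20) (.e (nat_lit 3409) (nat_lit 212) .nil))))))) (.g (nat_lit 1) (.e (nat_lit 427293) (nat_lit 0) .nil) .nil))) 
(.lf (nat_lit 604102) (.g (nat_lit 2426) (.e (nat_lit 761898) (nat_lit 15) (.e (nat_lit 163978) (nat_lit 30) (.e (nat_lit 573489) (nat_lit 14) (.e (nat_lit 73754) (nat_lit 8) (.e (nat_lit 557101) (nat_lit 13) (.e (nat_lit 172065) (nat_lit 3) (.e (nat_lit 204817) (nat_lit 17) (.e (nat_lit 2272) (nat_lit 149) .nil)))))))) (.g (nat_lit 1) (.e (nat_lit 428648) (nat_lit 0) .nil) .nil))))))) 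
(.nd (nat_lit 6) (.nd (nat_lit 7) (.nd (nat_lit 8) (.nd (nat_lit 9) 
(.lf (nat_lit 603174) (.g (nat_lit 2160) (.e (nat_lit 655374) (nat_lit 3) (.e (nat_lit 163979) (nat_lit 30) (.e (nat_lit 573482) (nat_lit 13) (.e (nat_lit 65604) (nat_lit 9) (.e (nat_lit 336013) (nat_lit 2) (.e (nat_lit 90170) (nat_lit 13) (.e (nat_lit 172049) (nat_lit 0) (.e (nat_lit 3407) (nat_lit 212) .nil)))))))) (.g (nat_lit 1) (.e (nat_lit 426302) (nat_lit 0) .nil) .nil))) 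
(.lf (nat_lit 603686) (.g (nat_lit 3050) (.e (nat_lit 655378) (nat_lit 4) (.e (nat_lit 172120) (nat_lit 12) (.e (nat_lit 475211) (nat_lit 41) (.e (nat_lit 712752) (nat_lit 29) (.e (nat_lit 442411) (nat_lit 20) (.e (nat_lit 3409) (nat_lit 212) .nil)))))) (.g (nat_lit 1) (.e (nat_lit 427442) (nat_lit 0) .nil) .nil)))) (.nd (nat_lit 9) 
(.lf (nat_lit 603430) (.g (nat_lit 4403) (.e (nat_lit 655375) (nat_lit 3) (.e (nat_lit 163979) (nat_lit 30) (.e (nat_lit 573492) (nat_lit 15) (.e (nat_lit 81951) (nat_lit 22) (.e (nat_lit 90170) (nat_lit 13) (.e (nat_lit 172042) (nat_lit 0) (.e (nat_lit 3408) (nat_lit 212) .nil))))))) (.g (nat_lit 1) (.e (nat_lit 426799) (nat_lit 0) .nil) .nil))) 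
(.lf (nat_lit 603942) (.g (nat_lit 3654) (.e (nat_lit 761895) (nat_lit 15) (.e (nat_lit 163978) (nat_lit 30) (.e (nat_lit 573489) (nat_lit 14) (.e (nat_lit 73755) (nat_lit 8) (.e (nat_lit 557104) (nat_lit 14) .nil))))) (.g (nat_lit 0) (.e (nat_lit 428245) (nat_lit 0) .nil) .nil))))) (.nd (nat_lit 8) (.nd (nat_lit 9) 
(.lf (nat_lit 603302) (.g (nat_lit 3815) (.e (nat_lit 655375) (nat_lit 3) (.e (nat_lit 163978) (nat_lit 30) (.e (nat_lit 573490) (nat_lit 15) (.e (nat_lit 81953) (nat_lit 22) (.e (nat_lit 90170) (nat_lit 13) (.e (nat_lit 172049) (nat_lit 0) (.e (nat_lit 3407) (nat_lit 212) .nil))))))) (.g (nat_lit 1) (.e (nat_lit 426465) (nat_lit 0) .nil) .nil))) 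
(.lf (nat_lit 603814) (.g (nat_lit 2275) (.e (nat_lit 655380) (nat_lit 6) (.e (nat_lit 188440) (nat_lit 20) (.e (nat_lit 3408) (nat_lit 212) (.e (nat_lit 655380) (nat_lit 6) (.e (nat_lit 188441) (nat_lit 20) (.e (nat_lit 3409) (nat_lit 212) .nil)))))) (.g (nat_lit 1) (.e (nat_lit 427822) (nat_lit 0) .nil) .nil)))) (.nd (nat_lit 9) 
(.lf (nat_lit 603558) (.g (nat_lit 985) (.e (nat_lit 655378) (nat_lit 4) (.e (nat_lit 172079) (nat_lit 7) (.e (nat_lit 409641) (nat_lit 17) (.e (nat_lit 294974) (nat_lit 29) .nil)))) (.g (nat_lit 0) (.e (nat_lit 427217) (nat_lit 0) .nil) .nil))) 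
(.lf (nat_lit 604070) (.g (nat_lit 4001) (.e (nat_lit 761898) (nat_lit 15) (.e (nat_lit 163978) (nat_lit 30) (.e (nat_lit 573487) (nat_lit 14) (.e (nat_lit 73753) (nat_lit 8) (.e (nat_lit 557098) (nat_lit 13) (.e (nat_lit 172067) (nat_lit 3) (.e (nat_lit 204821) (nat_lit 17) (.e (nat_lit 2270) (nat_lit 149) .nil)))))))) (.g (nat_lit 1) (.e (nat_lit 428612) (nat_lit 0) .nil) .nil)))))) 
(.nd (nat_lit 7) (.nd (nat_lit 8) (.nd (nat_lit 9) 
(.lf (nat_lit 603238) (.g (nat_lit 2399) (.e (nat_lit 655375) (nat_lit 3) (.e (nat_lit 163978) (nat_lit 30) (.e (nat_lit 573480) (nat_lit 13) (.e (nat_lit 65610) (nat_lit 10) (.e (nat_lit 344117) (nat_lit 21) (.e (nat_lit 516151) (nat_lit 9) (.e (nat_lit 426043) (nat_lit 0) (.e (nat_lit 3407) (nat_lit 212) .nil)))))))) (.g (nat_lit 1) (.e (nat_lit 426395) (nat_lit 0) .nil) .nil))) 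
(.lf (nat_lit 603750) (.g (nat_lit 1544) (.e (nat_lit 655378) (nat_lit 4) (.e (nat_lit 172126) (nat_lit 14) (.e (nat_lit 491569) (nat_lit 13) (.e (nat_lit 393281) (nat_lit 23) .nil)))) (.g (nat_lit 0) (.e (nat_lit 427664) (nat_lit 0) .nil) .nil)))) (.nd (nat_lit 9) 
(.lf (nat_lit 603494) (.g (nat_lit 5530) (.e (nat_lit 655375) (nat_lit 3) (.e (nat_lit 163979) (nat_lit 30) (.e (nat_lit 573492) (nat_lit 15) (.e (nat_lit 81956) (nat_lit 23) (.e (nat_lit 98365) (nat_lit 26) (.e (nat_lit 426009) (nat_lit 0) (.e (nat_lit 3414) (nat_lit 212) .nil))))))) (.g (nat_lit 1) (.e (nat_lit 426873) (nat_lit 0) .nil) .nil))) 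
(.lf (nat_lit 604006) (.g (nat_lit 2990) (.e (nat_lit 761898) (nat_lit 15) (.e (nat_lit 163977) (nat_lit 30) (.e (nat_lit 573489) (nat_lit 14) (.e (nat_lit 73754) (nat_lit 8) (.e (nat_lit 557101) (nat_lit 13) (.e (nat_lit 172067) (nat_lit 3) (.e (nat_lit 204817) (nat_lit 17) (.e (nat_lit 7936) (nat_lit 149) .nil)))))))) (.g (nat_lit 1) (.e (nat_lit 428510) (nat_lit 0) .nil) .nil))))) 
(.nd (nat_lit 8) (.nd (nat_lit 9) 
(.lf (nat_lit 603366) (.g (nat_lit 4257) (.e (nat_lit 655375) (nat_lit 3) (.e (nat_lit 163978) (nat_lit 30) (.e (nat_lit 573493) (nat_lit 15) (.e (nat_lit 81956) (nat_lit 23) (.e (nat_lit 98359) (nat_lit 26) (.e (nat_lit 426043) (nat_lit 0) (.e (nat_lit 3408) (nat_lit 212) .nil))))))) (.g (nat_lit 1) (.e (nat_lit 426691) (nat_lit 0) .nil) .nil))) 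
(.lf (nat_lit 603878) (.g (nat_lit 3720) (.e (nat_lit 753673) (nat_lit 5) (.e (nat_lit 3098) (nat_lit 192) (.e (nat_lit 491569) (nat_lit 13) (.e (nat_lit 393301) (nat_lit 27) (.e (nat_lit 491558) (nat_lit 10) (.e (nat_lit 344171) (nat_lit 41) .nil)))))) (.g (nat_lit 1) (.e (nat_lit 427954) (nat_lit 0) .nil) .nil)))) (.nd (nat_lit 9) 
(.lf (nat_lit 603622) (.g (nat_lit 2023) (.e (nat_lit 655378) (nat_lit 4) (.e (nat_lit 172112) (nat_lit 10) (.e (nat_lit 434272) (nat_lit 38) (.e (nat_lit 655380) (nat_lit 6) (.e (nat_lit 188439) (nat_lit 20) (.e (nat_lit 3409) (nat_lit 212) .nil)))))) (.g (nat_lit 1) (.e (nat_lit 427333) (nat_lit 0) .nil) .nil))) 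
(.lf (nat_lit 604134) (.g (nat_lit 3172) (.e (nat_lit 761898) (nat_lit 15) (.e (nat_lit 163978) (nat_lit 30) (.e (nat_lit 573489) (nat_lit 14) (.e (nat_lit 73755) (nat_lit 8) (.e (nat_lit 557105) (nat_lit 14) (.e (nat_lit 180242) (nat_lit 5) (.e (nat_lit 532481) (nat_lit 0) (.e (nat_lit 2271) (nat_lit 149) .nil)))))))) (.g (nat_lit 1) (.e (nat_lit 428687) (nat_lit 0) .nil) .nil)))))))) 
(.nd (nat_lit 5) (.nd (nat_lit 6) (.nd (nat_lit 7) (.nd (nat_lit 8) (.nd (nat_lit 9) 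
(.lf (nat_lit 603158) (.g (nat_lit 3861) (.e (nat_lit 655373) (nat_lit 3) (.e (nat_lit 163979) (nat_lit 30) (.e (nat_lit 573493) (nat_lit 15) (.e (nat_lit 81953) (nat_lit 22) (.e (nat_lit 90170) (nat_lit 13) (.e (nat_lit 172049) (nat_lit 0) (.e (nat_lit 3406) (nat_lit 212) .nil))))))) (.g (nat_lit 1) (.e (nat_lit 426268) (nat_lit 0) .nil) .nil))) 
(.lf (nat_lit 603670) (.g (nat_lit 2375) (.e (nat_lit 655378) (nat_lit 4) (.e (nat_lit 172120) (nat_lit 12) (.e (nat_lit 475197) (nat_lit 40) (.e (nat_lit 704598) (nat_lit 6) (.e (nat_lit 188434) (nat_lit 20) (.e (nat_lit 3406) (nat_lit 212) .nil)))))) (.g (nat_lit 1) (.e (nat_lit 427416) (nat_lit 0) .nil) .nil)))) (.nd (nat_lit 9) 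
(.lf (nat_lit 603414) (.g (nat_lit 3324) (.e (nat_lit 655375) (nat_lit 3) (.e (nat_lit 163979) (nat_lit 30) (.e (nat_lit 573485) (nat_lit 13) (.e (nat_lit 65604) (nat_lit 9) (.e (nat_lit 336028) (nat_lit 3) (.e (nat_lit 98367) (nat_lit 27) (.e (nat_lit 434271) (nat_lit 38) .nil))))))) (.g (nat_lit 1) (.e (nat_lit 426780) (nat_lit 0) .nil) .nil))) 
(.lf (nat_lit 603926) (.g (nat_lit 2332) (.e (nat_lit 761894) (nat_lit 15) (.e (nat_lit 163979) (nat_lit 30) (.e (nat_lit 573487) (nat_lit 14) (.e (nat_lit 73753) (nat_lit 8) (.e (nat_lit 557101) (nat_lit 13) (.e (nat_lit 172067) (nat_lit 3) (.e (nat_lit 204817) (nat_lit 17) (.e (nat_lit 7936) (nat_lit 149) .nil)))))))) (.g (nat_lit 1) (.e (nat_lit 428179) (nat_lit 0) .nil) .nil))))) 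
(.nd (nat_lit 8) (.nd (nat_lit 9) 
(.lf (nat_lit 603286) (.g (nat_lit 2296) (.e (nat_lit 655375) (nat_lit 3) (.e (nat_lit 163978) (nat_lit 30) (.e (nat_lit 573485) (nat_lit 13) (.e (nat_lit 65604) (nat_lit 9) (.e (nat_lit 336028) (nat_lit 3) (.e (nat_lit 98359) (nat_lit 26) (.e (nat_lit 426039) (nat_lit 0) (.e (nat_lit 3406) (nat_lit 212) .nil)))))))) (.g (nat_lit 1) (.e (nat_lit 426444) (nat_lit 0) .nil) .nil))) 
(.lf (nat_lit 603798) (.g (nat_lit 1768) (.e (nat_lit 655380) (nat_lit 6) (.e (nat_lit 188434) (nat_lit 20) (.e (nat_lit 3409) (nat_lit 212) (.e (nat_lit 655380) (nat_lit 6) (.e (nat_lit 188439) (nat_lit 20) (.e (nat_lit 3406) (nat_lit 212) .nil)))))) (.g (nat_lit 1) (.e (nat_lit 427806) (nat_lit 0) .nil) .nil)))) (.nd (nat_lit 9) 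
(.lf (nat_lit 603542) (.g (nat_lit 2153) (.e (nat_lit 655376) (nat_lit 4) (.e (nat_lit 172124) (nat_lit 14) (.e (nat_lit 491550) (nat_lit 9) (.e (nat_lit 336430) (nat_lit 29) (.e (nat_lit 442402) (nat_lit 20) .nil))))) (.g (nat_lit 0) (.e (nat_lit 427000) (nat_lit 0) .nil) .nil))) 
(.lf (nat_lit 604054) (.g (nat_lit 3564) (.e (nat_lit 761898) (nat_lit 15) (.e (nat_lit 163978) (nat_lit 30) (.e (nat_lit 573487) (nat_lit 14) (.e (nat_lit 73753) (nat_lit 8) (.e (nat_lit 557096) (nat_lit 13) (.e (nat_lit 172067) (nat_lit 3) (.e (nat_lit 204817) (nat_lit 17) (.e (nat_lit 7936) (nat_lit 149) .nil)))))))) (.g (nat_lit 1) (.e (nat_lit 428596) (nat_lit 0) .nil) .nil)))))) 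
(.nd (nat_lit 7) (.nd (nat_lit 8) (.nd (nat_lit 9) 
(.lf (nat_lit 603222) (.g (nat_lit 4433) (.e (nat_lit 655375) (nat_lit 3) (.e (nat_lit 163978) (nat_lit 30) (.e (nat_lit 573479) (nat_lit 13) (.e (nat_lit 65604) (nat_lit 9) (.e (nat_lit 336028) (nat_lit 3) (.e (nat_lit 98359) (nat_lit 26) (.e (nat_lit 426043) (nat_lit 0) (.e (nat_lit 3406) (nat_lit 212) .nil)))))))) (.g (nat_lit 1) (.e (nat_lit 426378) (nat_lit 0) .nil) .nil))) 
(.lf (nat_lit 603734) (.g (nat_lit 3044) (.e (nat_lit 655378) (nat_lit 4) (.e (nat_lit 172126) (nat_lit 14) (.e (nat_lit 491550) (nat_lit 9) (.e (nat_lit 336430) (nat_lit 29) (.e (nat_lit 442402) (nat_lit 20) (.e (nat_lit 3406) (nat_lit 212) .nil)))))) (.g (nat_lit 1) (.e (nat_lit 427614) (nat_lit 0) .nil) .nil)))) (.nd (nat_lit 9) 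
(.lf (nat_lit 603478) (.g (nat_lit 4460) (.e (nat_lit 655375) (nat_lit 3) (.e (nat_lit 163979) (nat_lit 30) (.e (nat_lit 573492) (nat_lit 15) (.e (nat_lit 81956) (nat_lit 23) (.e (nat_lit 98362) (nat_lit 26) (.e (nat_lit 426003) (nat_lit 0) (.e (nat_lit 3406) (nat_lit 212) .nil))))))) (.g (nat_lit 1) (.e (nat_lit 426857) (nat_lit 0) .nil) .nil))) 
(.lf (nat_lit 603990) (.g (nat_lit 2151) (.e (nat_lit 761898) (nat_lit 15) (.e (nat_lit 163977) (nat_lit 30) (.e (nat_lit 573487) (nat_lit 14) (.e (nat_lit 73753) (nat_lit 8) (.e (nat_lit 557101) (nat_lit 13) (.e (nat_lit 172065) (nat_lit 3) (.e (nat_lit 204821) (nat_lit 17) (.e (nat_lit 7936) (nat_lit 149) .nil)))))))) (.g (nat_lit 1) (.e (nat_lit 428493) (nat_lit 0) .nil) .nil))))) 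
(.nd (nat_lit 8) (.nd (nat_lit 9) 
(.lf (nat_lit 603350) (.g (nat_lit 2972) (.e (nat_lit 655375) (nat_lit 3) (.e (nat_lit 163978) (nat_lit 30) (.e (nat_lit 573493) (nat_lit 15) (.e (nat_lit 81951) (nat_lit 22) (.e (nat_lit 90170) (nat_lit 13) (.e (nat_lit 172049) (nat_lit 0) (.e (nat_lit 3406) (nat_lit 212) .nil))))))) (.g (nat_lit 1) (.e (nat_lit 426653) (nat_lit 0) .nil) .nil))) 
(.lf (nat_lit 603862) (.g (nat_lit 2361) (.e (nat_lit 655380) (nat_lit 6) (.e (nat_lit 188455) (nat_lit 24) (.e (nat_lit 229681) (nat_lit 244) (.e (nat_lit 163923) (nat_lit 15) (.e (nat_lit 450593) (nat_lit 16) .nil))))) (.g (nat_lit 1) (.e (nat_lit 427921) (nat_lit 0) .nil) .nil)))) (.nd (nat_lit 9) 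
(.lf (nat_lit 603606) (.g (nat_lit 1912) (.e (nat_lit 655378) (nat_lit 4) (.e (nat_lit 172107) (nat_lit 10) (.e (nat_lit 434271) (nat_lit 38) (.e (nat_lit 655380) (nat_lit 6) (.e (nat_lit 188439) (nat_lit 20) (.e (nat_lit 3406) (nat_lit 212) .nil)))))) (.g (nat_lit 1) (.e (nat_lit 427317) (nat_lit 0) .nil) .nil))) 
(.lf (nat_lit 604118) (.g (nat_lit 5126) (.e (nat_lit 761898) (nat_lit 15) (.e (nat_lit 163978) (nat_lit 30) (.e (nat_lit 573489) (nat_lit 14) (.e (nat_lit 73755) (nat_lit 8) (.e (nat_lit 557098) (nat_lit 13) (.e (nat_lit 172065) (nat_lit 3) (.e (nat_lit 204817) (nat_lit 17) (.e (nat_lit 7936) (nat_lit 149) .nil)))))))) (.g (nat_lit 1) (.e (nat_lit 428670) (nat_lit 0) .nil) .nil))))))) 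
(.nd (nat_lit 6) (.nd (nat_lit 7) (.nd (nat_lit 8) (.nd (nat_lit 9) 
(.lf (nat_lit 603190) (.g (nat_lit 3069) (.e (nat_lit 655375) (nat_lit 3) (.e (nat_lit 163977) (nat_lit 30) (.e (nat_lit 573481) (nat_lit 13) (.e (nat_lit 65619) (nat_lit 10) (.e (nat_lit 344117) (nat_lit 21) (.e (nat_lit 516151) (nat_lit 9) (.e (nat_lit 426043) (nat_lit 0) (.e (nat_lit 3408) (nat_lit 212) .nil)))))))) (.g (nat_lit 1) (.e (nat_lit 426342) (nat_lit 0) .nil) .nil))) 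
(.lf (nat_lit 603702) (.g (nat_lit 525) (.e (nat_lit 655378) (nat_lit 4) (.e (nat_lit 172125) (nat_lit 14) (.e (nat_lit 491569) (nat_lit 13) .nil))) (.g (nat_lit 0) (.e (nat_lit 427487) (nat_lit 0) .nil) .nil)))) (.nd (nat_lit 9) 
(.lf (nat_lit 603446) (.g (nat_lit 3325) (.e (nat_lit 655375) (nat_lit 3) (.e (nat_lit 163979) (nat_lit 30) (.e (nat_lit 573492) (nat_lit 15) (.e (nat_lit 81956) (nat_lit 23) (.e (nat_lit 98356) (nat_lit 26) (.e (nat_lit 425985) (nat_lit 0) (.e (nat_lit 3404) (nat_lit 212) .nil))))))) (.g (nat_lit 1) (.e (nat_lit 426825) (nat_lit 0) .nil) .nil))) 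
(.lf (nat_lit 603958) (.g (nat_lit 2798) (.e (nat_lit 761897) (nat_lit 15) (.e (nat_lit 163978) (nat_lit 30) (.e (nat_lit 573489) (nat_lit 14) (.e (nat_lit 73755) (nat_lit 8) (.e (nat_lit 557096) (nat_lit 13) (.e (nat_lit 172067) (nat_lit 3) (.e (nat_lit 204821) (nat_lit 17) (.e (nat_lit 2270) (nat_lit 149) .nil)))))))) (.g (nat_lit 1) (.e (nat_lit 428390) (nat_lit 0) .nil) .nil))))) 
(.nd (nat_lit 8) (.nd (nat_lit 9) 
(.lf (nat_lit 603318) (.g (nat_lit 3700) (.e (nat_lit 655375) (nat_lit 3) (.e (nat_lit 163978) (nat_lit 30) (.e (nat_lit 573491) (nat_lit 15) (.e (nat_lit 81952) (nat_lit 22) (.e (nat_lit 90170) (nat_lit 13) .nil))))) (.g (nat_lit 0) (.e (nat_lit 426539) (nat_lit 0) .nil) .nil))) 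
(.lf (nat_lit 603830) (.g (nat_lit 1059) (.e (nat_lit 655380) (nat_lit 6) (.e (nat_lit 188446) (nat_lit 21) (.e (nat_lit 164347) (nat_lit 240) (.e (nat_lit 2648) (nat_lit 166) .nil)))) (.g (nat_lit 0) (.e (nat_lit 427866) (nat_lit 0) .nil) .nil)))) (.nd (nat_lit 9) 
(.lf (nat_lit 603574) (.g (nat_lit 991) (.e (nat_lit 655378) (nat_lit 4) (.e (nat_lit 172095) (nat_lit 9) (.e (nat_lit 426025) (nat_lit 0) (.e (nat_lit 3399) (nat_lit 211) .nil)))) (.g (nat_lit 0) (.e (nat_lit 427252) (nat_lit 0) .nil) .nil))) 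
(.lf (nat_lit 604086) (.g (nat_lit 3746) (.e (nat_lit 761898) (nat_lit 15) (.e (nat_lit 163978) (nat_lit 30) (.e (nat_lit 573487) (nat_lit 14) (.e (nat_lit 73753) (nat_lit 8) (.e (nat_lit 557101) (nat_lit 13) (.e (nat_lit 172067) (nat_lit 3) (.e (nat_lit 204817) (nat_lit 17) (.e (nat_lit 7936) (nat_lit 149) .nil)))))))) (.g (nat_lit 1) (.e (nat_lit 428629) (nat_lit 0) .nil) .nil)))))) 
(.nd (nat_lit 7) (.nd (nat_lit 8) (.nd (nat_lit 9) 
(.lf (nat_lit 603254) (.g (nat_lit 4797) (.e (nat_lit 655375) (nat_lit 3) (.e (nat_lit 163978) (nat_lit 30) (.e (nat_lit 573481) (nat_lit 13) (.e (nat_lit 65619) (nat_lit 10) (.e (nat_lit 344117) (nat_lit 21) (.e (nat_lit 516160) (nat_lit 10) (.e (nat_lit 434272) (nat_lit 38) .nil))))))) (.g (nat_lit 1) (.e (nat_lit 426411) (nat_lit 0) .nil) .nil))) 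
(.lf (nat_lit 603766) (.g (nat_lit 1736) (.e (nat_lit 655380) (nat_lit 6) (.e (nat_lit 188420) (nat_lit 0) (.e (nat_lit 2059) (nat_lit 142) (.e (nat_lit 704598) (nat_lit 6) (.e (nat_lit 188439) (nat_lit 20) (.e (nat_lit 3409) (nat_lit 212) .nil)))))) (.g (nat_lit 1) (.e (nat_lit 427753) (nat_lit 0) .nil) .nil)))) (.nd (nat_lit 9) 
(.lf (nat_lit 603510) (.g (nat_lit 3776) (.e (nat_lit 655375) (nat_lit 3) (.e (nat_lit 163979) (nat_lit 30) (.e (nat_lit 573493) (nat_lit 15) (.e (nat_lit 81954) (nat_lit 23) (.e (nat_lit 98359) (nat_lit 26) (.e (nat_lit 426042) (nat_lit 0) (.e (nat_lit 3409) (nat_lit 212) .nil))))))) (.g (nat_lit 1) (.e (nat_lit 426891) (nat_lit 0) .nil) .nil))) 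
(.lf (nat_lit 604022) (.g (nat_lit 2332) (.e (nat_lit 761898) (nat_lit 15) (.e (nat_lit 163977) (nat_lit 30) (.e (nat_lit 573489) (nat_lit 14) (.e (nat_lit 73755) (nat_lit 8) (.e (nat_lit 557097) (nat_lit 13) (.e (nat_lit 172067) (nat_lit 3) (.e (nat_lit 204817) (nat_lit 17) (.e (nat_lit 2272) (nat_lit 149) .nil)))))))) (.g (nat_lit 1) (.e (nat_lit 428531) (nat_lit 0) .nil) .nil))))) 
(.nd (nat_lit 8) (.nd (nat_lit 9) 
(.lf (nat_lit 603382) (.g (nat_lit 4306) (.e (nat_lit 655375) (nat_lit 3) (.e (nat_lit 163979) (nat_lit 30) (.e (nat_lit 573481) (nat_lit 13) (.e (nat_lit 65604) (nat_lit 9) (.e (nat_lit 336013) (nat_lit 2) (.e (nat_lit 90170) (nat_lit 13) (.e (nat_lit 172049) (nat_lit 0) (.e (nat_lit 3407) (nat_lit 212) .nil)))))))) (.g (nat_lit 1) (.e (nat_lit 426748) (nat_lit 0) .nil) .nil))) 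
(.lf (nat_lit 603894) (.g (nat_lit 3371) (.e (nat_lit 753697) (nat_lit 13) (.e (nat_lit 1234) (nat_lit 91) (.e (nat_lit 90170) (nat_lit 13) (.e (nat_lit 172106) (nat_lit 10) (.e (nat_lit 434231) (nat_lit 23) .nil))))) (.g (nat_lit 0) (.e (nat_lit 428017) (nat_lit 0) .nil) .nil)))) (.nd (nat_lit 9) 
(.lf (nat_lit 603638) (.g (nat_lit 1717) (.e (nat_lit 655378) (nat_lit 4) (.e (nat_lit 172115) (nat_lit 10) (.e (nat_lit 434209) (nat_lit 18) (.e (nat_lit 5548) (nat_lit 306) (.e (nat_lit 2650) (nat_lit 166) .nil))))) (.g (nat_lit 0) (.e (nat_lit 427365) (nat_lit 0) .nil) .nil))) 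
(.lf (nat_lit 604150) (.g (nat_lit 2383) (.e (nat_lit 761898) (nat_lit 15) (.e (nat_lit 163979) (nat_lit 30) (.e (nat_lit 573487) (nat_lit 14) (.e (nat_lit 73753) (nat_lit 8) (.e (nat_lit 557098) (nat_lit 13) .nil))))) (.g (nat_lit 0) (.e (nat_lit 428729) (nat_lit 0) .nil) .nil))))))))) (.nd (nat_lit 4) (.nd (nat_lit 5) (.nd (nat_lit 6) (.nd (nat_lit 7) (.nd (nat_lit 8) (.nd (nat_lit 9) 
(.lf (nat_lit 603150) (.g (nat_lit 3444) (.e (nat_lit 655373) (nat_lit 3) (.e (nat_lit 163979) (nat_lit 30) (.e (nat_lit 573493) (nat_lit 15) (.e (nat_lit 81951) (nat_lit 22) (.e (nat_lit 90170) (nat_lit 13) (.e (nat_lit 172042) (nat_lit 0) (.e (nat_lit 3408) (nat_lit 212) .nil))))))) (.g (nat_lit 1) (.e (nat_lit 426259) (nat_lit 0) .nil) .nil))) 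
(.lf (nat_lit 603662) (.g (nat_lit 2143) (.e (nat_lit 655378) (nat_lit 4) (.e (nat_lit 172118) (nat_lit 12) (.e (nat_lit 475198) (nat_lit 40) (.e (nat_lit 704599) (nat_lit 6) (.e (nat_lit 188441) (nat_lit 20) (.e (nat_lit 3409) (nat_lit 212) .nil)))))) (.g (nat_lit 1) (.e (nat_lit 427408) (nat_lit 0) .nil) .nil)))) (.nd (nat_lit 9) 
(.lf (nat_lit 603406) (.g (nat_lit 3108) (.e (nat_lit 655375) (nat_lit 3) (.e (nat_lit 163979) (nat_lit 30) (.e (nat_lit 573485) (nat_lit 13) (.e (nat_lit 65604) (nat_lit 9) (.e (nat_lit 336013) (nat_lit 2) (.e (nat_lit 90170) (nat_lit 13) (.e (nat_lit 172049) (nat_lit 0) (.e (nat_lit 3406) (nat_lit 212) .nil)))))))) (.g (nat_lit 1) (.e (nat_lit 426772) (nat_lit 0) .nil) .nil))) 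
(.lf (nat_lit 603918) (.g (nat_lit 3647) (.e (nat_lit 761894) (nat_lit 15) (.e (nat_lit 163978) (nat_lit 30) (.e (nat_lit 573489) (nat_lit 14) (.e (nat_lit 73755) (nat_lit 8) (.e (nat_lit 557100) (nat_lit 13) .nil))))) (.g (nat_lit 0) (.e (nat_lit 428154) (nat_lit 0) .nil) .nil))))) (.nd (nat_lit 8) (.nd (nat_lit 9) 
(.lf (nat_lit 603278) (.g (nat_lit 4677) (.e (nat_lit 655375) (nat_lit 3) (.e (nat_lit 163978) (nat_lit 30) (.e (nat_lit 573484) (nat_lit 13) (.e (nat_lit 65610) (nat_lit 10) (.e (nat_lit 344117) (nat_lit 21) (.e (nat_lit 516151) (nat_lit 9) (.e (nat_lit 426042) (nat_lit 0) (.e (nat_lit 3409) (nat_lit 212) .nil)))))))) (.g (nat_lit 1) (.e (nat_lit 426435) (nat_lit 0) .nil) .nil))) 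
(.lf (nat_lit 603790) (.g (nat_lit 1586) (.e (nat_lit 655380) (nat_lit 6) (.e (nat_lit 188434) (nat_lit 20) (.e (nat_lit 3408) (nat_lit 212) (.e (nat_lit 655380) (nat_lit 6) (.e (nat_lit 188439) (nat_lit 20) (.e (nat_lit 3406) (nat_lit 212) .nil)))))) (.g (nat_lit 1) (.e (nat_lit 427794) (nat_lit 0) .nil) .nil)))) (.nd (nat_lit 9) 
(.lf (nat_lit 603534) (.g (nat_lit 2479) (.e (nat_lit 655376) (nat_lit 4) (.e (nat_lit 172120) (nat_lit 12) (.e (nat_lit 475199) (nat_lit 40) (.e (nat_lit 704598) (nat_lit 6) (.e (nat_lit 188439) (nat_lit 20) (.e (nat_lit 3409) (nat_lit 212) .nil)))))) (.g (nat_lit 1) (.e (nat_lit 426983) (nat_lit 0) .nil) .nil))) 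
(.lf (nat_lit 604046) (.g (nat_lit 3661) (.e (nat_lit 761898) (nat_lit 15) (.e (nat_lit 163977) (nat_lit 30) (.e (nat_lit 573489) (nat_lit 14) (.e (nat_lit 73755) (nat_lit 8) (.e (nat_lit 557104) (nat_lit 14) (.e (nat_lit 180244) (nat_lit 5) (.e (nat_lit 532484) (nat_lit 0) (.e (nat_lit 2271) (nat_lit 149) .nil)))))))) (.g (nat_lit 1) (.e (nat_lit 428560) (nat_lit 0) .nil) .nil)))))) 
(.nd (nat_lit 7) (.nd (nat_lit 8) (.nd (nat_lit 9) 
(.lf (nat_lit 603214) (.g (nat_lit 3903) (.e (nat_lit 655375) (nat_lit 3) (.e (nat_lit 163977) (nat_lit 30) (.e (nat_lit 573493) (nat_lit 15) (.e (nat_lit 81956) (nat_lit 23) (.e (nat_lit 98359) (nat_lit 26) (.e (nat_lit 426042) (nat_lit 0) (.e (nat_lit 3409) (nat_lit 212) .nil))))))) (.g (nat_lit 1) (.e (nat_lit 426370) (nat_lit 0) .nil) .nil))) 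
(.lf (nat_lit 603726) (.g (nat_lit 3269) (.e (nat_lit 655378) (nat_lit 4) (.e (nat_lit 172126) (nat_lit 14) (.e (nat_lit 491549) (nat_lit 9) (.e (nat_lit 336430) (nat_lit 29) (.e (nat_lit 442409) (nat_lit 20) (.e (nat_lit 3407) (nat_lit 212) .nil)))))) (.g (nat_lit 1) (.e (nat_lit 427606) (nat_lit 0) .nil) .nil)))) (.nd (nat_lit 9) 
(.lf (nat_lit 603470) (.g (nat_lit 3335) (.e (nat_lit 655375) (nat_lit 3) (.e (nat_lit 163979) (nat_lit 30) (.e (nat_lit 573492) (nat_lit 15) (.e (nat_lit 81956) (nat_lit 23) (.e (nat_lit 98360) (nat_lit 26) (.e (nat_lit 426042) (nat_lit 0) (.e (nat_lit 3407) (nat_lit 212) .nil))))))) (.g (nat_lit 1) (.e (nat_lit 426849) (nat_lit 0) .nil) .nil))) 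
(.lf (nat_lit 603982) (.g (nat_lit 2489) (.e (nat_lit 761898) (nat_lit 15) (.e (nat_lit 163977) (nat_lit 30) (.e (nat_lit 573487) (nat_lit 14) (.e (nat_lit 73753) (nat_lit 8) (.e (nat_lit 557098) (nat_lit 13) (.e (nat_lit 172066) (nat_lit 3) (.e (nat_lit 204815) (nat_lit 17) (.e (nat_lit 2271) (nat_lit 149) .nil)))))))) (.g (nat_lit 1) (.e (nat_lit 428484) (nat_lit 0) .nil) .nil))))) 
(.nd (nat_lit 8) (.nd (nat_lit 9) 
(.lf (nat_lit 603342) (.g (nat_lit 3516) (.e (nat_lit 655375) (nat_lit 3) (.e (nat_lit 163978) (nat_lit 30) (.e (nat_lit 573491) (nat_lit 15) (.e (nat_lit 81956) (nat_lit 23) (.e (nat_lit 98359) (nat_lit 26) (.e (nat_lit 426043) (nat_lit 0) (.e (nat_lit 3409) (nat_lit 212) .nil))))))) (.g (nat_lit 1) (.e (nat_lit 426565) (nat_lit 0) .nil) .nil))) 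
(.lf (nat_lit 603854) (.g (nat_lit 2261) (.e (nat_lit 655380) (nat_lit 6) (.e (nat_lit 188455) (nat_lit 24) (.e (nat_lit 229665) (nat_lit 240) (.e (nat_lit 2653) (nat_lit 166) (.e (nat_lit 188440) (nat_lit 20) (.e (nat_lit 3409) (nat_lit 212) .nil)))))) (.g (nat_lit 1) (.e (nat_lit 427907) (nat_lit 0) .nil) .nil)))) (.nd (nat_lit 9) 
(.lf (nat_lit 603598) (.g (nat_lit 2393) (.e (nat_lit 655378) (nat_lit 4) (.e (nat_lit 172106) (nat_lit 10) (.e (nat_lit 434272) (nat_lit 38) (.e (nat_lit 655380) (nat_lit 6) (.e (nat_lit 188435) (nat_lit 20) (.e (nat_lit 3409) (nat_lit 212) .nil)))))) (.g (nat_lit 1) (.e (nat_lit 427309) (nat_lit 0) .nil) .nil))) 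
(.lf (nat_lit 604110) (.g (nat_lit 3129) (.e (nat_lit 761898) (nat_lit 15) (.e (nat_lit 163978) (nat_lit 30) (.e (nat_lit 573489) (nat_lit 14) (.e (nat_lit 73755) (nat_lit 8) (.e (nat_lit 557097) (nat_lit 13) .nil))))) (.g (nat_lit 0) (.e (nat_lit 428659) (nat_lit 0) .nil) .nil))))))) (.nd (nat_lit 6) (.nd (nat_lit 7) (.nd (nat_lit 8) (.nd (nat_lit 9) 
(.lf (nat_lit 603182) (.g (nat_lit 1917) (.e (nat_lit 655375) (nat_lit 3) (.e (nat_lit 163973) (nat_lit 30) (.e (nat_lit 573481) (nat_lit 13) (.e (nat_lit 65604) (nat_lit 9) (.e (nat_lit 336013) (nat_lit 2) (.e (nat_lit 90170) (nat_lit 13) (.e (nat_lit 172042) (nat_lit 0) (.e (nat_lit 3408) (nat_lit 212) .nil)))))))) (.g (nat_lit 1) (.e (nat_lit 426325) (nat_lit 0) .nil) .nil))) 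
(.lf (nat_lit 603694) (.g (nat_lit 2121) (.e (nat_lit 655378) (nat_lit 4) (.e (nat_lit 172124) (nat_lit 14) (.e (nat_lit 491549) (nat_lit 9) (.e (nat_lit 336430) (nat_lit 29) (.e (nat_lit 442411) (nat_lit 20) .nil))))) (.g (nat_lit 0) (.e (nat_lit 427459) (nat_lit 0) .nil) .nil)))) (.nd (nat_lit 9) 
(.lf (nat_lit 603438) (.g (nat_lit 3834) (.e (nat_lit 655375) (nat_lit 3) (.e (nat_lit 163979) (nat_lit 30) (.e (nat_lit 573492) (nat_lit 15) (.e (nat_lit 81953) (nat_lit 22) (.e (nat_lit 90170) (nat_lit 13) (.e (nat_lit 172049) (nat_lit 0) (.e (nat_lit 3409) (nat_lit 212) .nil))))))) (.g (nat_lit 1) (.e (nat_lit 426807) (nat_lit 0) .nil) .nil))) 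
(.lf (nat_lit 603950) (.g (nat_lit 2389) (.e (nat_lit 761897) (nat_lit 15) (.e (nat_lit 163978) (nat_lit 30) (.e (nat_lit 573489) (nat_lit 14) (.e (nat_lit 73754) (nat_lit 8) (.e (nat_lit 557095) (nat_lit 13) .nil))))) (.g (nat_lit 0) (.e (nat_lit 428380) (nat_lit 0) .nil) .nil))))) (.nd (nat_lit 8) (.nd (nat_lit 9) 
(.lf (nat_lit 603310) (.g (nat_lit 4833) (.e (nat_lit 655375) (nat_lit 3) (.e (nat_lit 163978) (nat_lit 30) (.e (nat_lit 573490) (nat_lit 15) (.e (nat_lit 81956) (nat_lit 23) (.e (nat_lit 98359) (nat_lit 26) (.e (nat_lit 426043) (nat_lit 0) (.e (nat_lit 3408) (nat_lit 212) .nil))))))) (.g (nat_lit 1) (.e (nat_lit 426474) (nat_lit 0) .nil) .nil))) 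
(.lf (nat_lit 603822) (.g (nat_lit 1880) (.e (nat_lit 655380) (nat_lit 6) (.e (nat_lit 188441) (nat_lit 20) (.e (nat_lit 3409) (nat_lit 212) (.e (nat_lit 655380) (nat_lit 6) (.e (nat_lit 188435) (nat_lit 20) (.e (nat_lit 3409) (nat_lit 212) .nil)))))) (.g (nat_lit 1) (.e (nat_lit 427833) (nat_lit 0) .nil) .nil)))) (.nd (nat_lit 9) 
(.lf (nat_lit 603566) (.g (nat_lit 1085) (.e (nat_lit 655378) (nat_lit 4) (.e (nat_lit 172088) (nat_lit 9) (.e (nat_lit 426025) (nat_lit 0) (.e (nat_lit 3399) (nat_lit 211) (.e (nat_lit 647185) (nat_lit 6) .nil))))) (.g (nat_lit 0) (.e (nat_lit 427235) (nat_lit 0) .nil) .nil))) 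
(.lf (nat_lit 604078) (.g (nat_lit 2661) (.e (nat_lit 761898) (nat_lit 15) (.e (nat_lit 163978) (nat_lit 30) (.e (nat_lit 573487) (nat_lit 14) (.e (nat_lit 73753) (nat_lit 8) (.e (nat_lit 557101) (nat_lit 13) (.e (nat_lit 172065) (nat_lit 3) (.e (nat_lit 204815) (nat_lit 17) (.e (nat_lit 2271) (nat_lit 149) .nil)))))))) (.g (nat_lit 1) (.e (nat_lit 428621) (nat_lit 0) .nil) .nil)))))) 
(.nd (nat_lit 7) (.nd (nat_lit 8) (.nd (nat_lit 9) 
(.lf (nat_lit 603246) (.g (nat_lit 3310) (.e (nat_lit 655375) (nat_lit 3) (.e (nat_lit 163978) (nat_lit 30) (.e (nat_lit 573481) (nat_lit 13) (.e (nat_lit 65604) (nat_lit 9) (.e (nat_lit 336028) (nat_lit 3) (.e (nat_lit 98359) (nat_lit 26) (.e (nat_lit 426043) (nat_lit 0) (.e (nat_lit 3406) (nat_lit 212) .nil)))))))) (.g (nat_lit 1) (.e (nat_lit 426403) (nat_lit 0) .nil) .nil))) 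
(.lf (nat_lit 603758) (.g (nat_lit 2992) (.e (nat_lit 655378) (nat_lit 4) (.e (nat_lit 172126) (nat_lit 14) (.e (nat_lit 491571) (nat_lit 13) (.e (nat_lit 393276) (nat_lit 23) .nil)))) (.g (nat_lit 0) (.e (nat_lit 427708) (nat_lit 0) .nil) .nil)))) (.nd (nat_lit 9) 
(.lf (nat_lit 603502) (.g (nat_lit 4216) (.e (nat_lit 655375) (nat_lit 3) (.e (nat_lit 163979) (nat_lit 30) (.e (nat_lit 573493) (nat_lit 15) (.e (nat_lit 81951) (nat_lit 22) (.e (nat_lit 90170) (nat_lit 13) (.e (nat_lit 172049) (nat_lit 0) (.e (nat_lit 3406) (nat_lit 212) .nil))))))) (.g (nat_lit 1) (.e (nat_lit 426883) (nat_lit 0) .nil) .nil))) 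
(.lf (nat_lit 604014) (.g (nat_lit 2435) (.e (nat_lit 761898) (nat_lit 15) (.e (nat_lit 163977) (nat_lit 30) (.e (nat_lit 573489) (nat_lit 14) (.e (nat_lit 73755) (nat_lit 8) (.e (nat_lit 557097) (nat_lit 13) (.e (nat_lit 172066) (nat_lit 3) (.e (nat_lit 204814) (nat_lit 17) (.e (nat_lit 2270) (nat_lit 149) .nil)))))))) (.g (nat_lit 1) (.e (nat_lit 428523) (nat_lit 0) .nil) .nil))))) 
(.nd (nat_lit 8) (.nd (nat_lit 9) 
(.lf (nat_lit 603374) (.g (nat_lit 3217) (.e (nat_lit 655375) (nat_lit 3) (.e (nat_lit 163978) (nat_lit 30) (.e (nat_lit 573493) (nat_lit 15) (.e (nat_lit 81956) (nat_lit 23) (.e (nat_lit 98367) (nat_lit 27) (.e (nat_lit 434271) (nat_lit 38) .nil)))))) (.g (nat_lit 1) (.e (nat_lit 426699) (nat_lit 0) .nil) .nil))) 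
(.lf (nat_lit 603886) (.g (nat_lit 3557) (.e (nat_lit 753674) (nat_lit 5) (.e (nat_lit 3098) (nat_lit 192) (.e (nat_lit 491569) (nat_lit 13) (.e (nat_lit 393301) (nat_lit 27) (.e (nat_lit 491560) (nat_lit 10) (.e (nat_lit 344171) (nat_lit 41) .nil)))))) (.g (nat_lit 1) (.e (nat_lit 427967) (nat_lit 0) .nil) .nil)))) (.nd (nat_lit 9) 
(.lf (nat_lit 603630) (.g (nat_lit 1137) (.e (nat_lit 655378) (nat_lit 4) (.e (nat_lit 172115) (nat_lit 10) (.e (nat_lit 434209) (nat_lit 18) (.e (nat_lit 5546) (nat_lit 306) .nil)))) (.g (nat_lit 0) (.e (nat_lit 427349) (nat_lit 0) .nil) .nil))) 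
(.lf (nat_lit 604142) (.g (nat_lit 3377) (.e (nat_lit 761898) (nat_lit 15) (.e (nat_lit 163978) (nat_lit 30) (.e (nat_lit 573489) (nat_lit 14) (.e (nat_lit 73755) (nat_lit 8) (.e (nat_lit 557105) (nat_lit 14) (.e (nat_lit 180245) (nat_lit 5) (.e (nat_lit 532491) (nat_lit 0) (.e (nat_lit 2270) (nat_lit 149) .nil)))))))) (.g (nat_lit 1) (.e (nat_lit 428695) (nat_lit 0) .nil) .nil)))))))) 
(.nd (nat_lit 5) (.nd (nat_lit 6) (.nd (nat_lit 7) (.nd (nat_lit 8) (.nd (nat_lit 9) 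
(.lf (nat_lit 603166) (.g (nat_lit 1898) (.e (nat_lit 655374) (nat_lit 3) (.e (nat_lit 163978) (nat_lit 30) (.e (nat_lit 573484) (nat_lit 13) (.e (nat_lit 65610) (nat_lit 10) (.e (nat_lit 344117) (nat_lit 21) .nil))))) (.g (nat_lit 0) (.e (nat_lit 426291) (nat_lit 0) .nil) .nil))) 
(.lf (nat_lit 603678) (.g (nat_lit 1815) (.e (nat_lit 655378) (nat_lit 4) (.e (nat_lit 172120) (nat_lit 12) (.e (nat_lit 475210) (nat_lit 41) (.e (nat_lit 712750) (nat_lit 29) .nil)))) (.g (nat_lit 0) (.e (nat_lit 427432) (nat_lit 0) .nil) .nil)))) (.nd (nat_lit 9) 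
(.lf (nat_lit 603422) (.g (nat_lit 3710) (.e (nat_lit 655375) (nat_lit 3) (.e (nat_lit 163979) (nat_lit 30) (.e (nat_lit 573491) (nat_lit 15) (.e (nat_lit 81951) (nat_lit 22) (.e (nat_lit 90170) (nat_lit 13) (.e (nat_lit 172046) (nat_lit 0) (.e (nat_lit 3406) (nat_lit 212) .nil))))))) (.g (nat_lit 1) (.e (nat_lit 426788) (nat_lit 0) .nil) .nil))) 
(.lf (nat_lit 603934) (.g (nat_lit 2726) (.e (nat_lit 761894) (nat_lit 15) (.e (nat_lit 163979) (nat_lit 30) (.e (nat_lit 573489) (nat_lit 14) (.e (nat_lit 73755) (nat_lit 8) (.e (nat_lit 557104) (nat_lit 14) (.e (nat_lit 180244) (nat_lit 5) (.e (nat_lit 532485) (nat_lit 0) (.e (nat_lit 2266) (nat_lit 149) .nil)))))))) (.g (nat_lit 1) (.e (nat_lit 428187) (nat_lit 0) .nil) .nil))))) 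
(.nd (nat_lit 8) (.nd (nat_lit 9) 
(.lf (nat_lit 603294) (.g (nat_lit 4445) (.e (nat_lit 655375) (nat_lit 3) (.e (nat_lit 163978) (nat_lit 30) (.e (nat_lit 573490) (nat_lit 15) (.e (nat_lit 81951) (nat_lit 22) (.e (nat_lit 90170) (nat_lit 13) (.e (nat_lit 172042) (nat_lit 0) (.e (nat_lit 3409) (nat_lit 212) .nil))))))) (.g (nat_lit 1) (.e (nat_lit 426457) (nat_lit 0) .nil) .nil))) 
(.lf (nat_lit 603806) (.g (nat_lit 983) (.e (nat_lit 655380) (nat_lit 6) (.e (nat_lit 188438) (nat_lit 20) (.e (nat_lit 3403) (nat_lit 212) (.e (nat_lit 655378) (nat_lit 4) (.e (nat_lit 172112) (nat_lit 10) .nil))))) (.g (nat_lit 0) (.e (nat_lit 427814) (nat_lit 0) .nil) .nil)))) (.nd (nat_lit 9) 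
(.lf (nat_lit 603550) (.g (nat_lit 1108) (.e (nat_lit 655377) (nat_lit 4) (.e (nat_lit 172118) (nat_lit 12) (.e (nat_lit 475211) (nat_lit 41) (.e (nat_lit 712755) (nat_lit 30) .nil)))) (.g (nat_lit 0) (.e (nat_lit 427103) (nat_lit 0) .nil) .nil))) 
(.lf (nat_lit 604062) (.g (nat_lit 2982) (.e (nat_lit 761898) (nat_lit 15) (.e (nat_lit 163978) (nat_lit 30) (.e (nat_lit 573487) (nat_lit 14) (.e (nat_lit 73753) (nat_lit 8) (.e (nat_lit 557098) (nat_lit 13) (.e (nat_lit 172065) (nat_lit 3) (.e (nat_lit 204821) (nat_lit 17) (.e (nat_lit 7936) (nat_lit 149) .nil)))))))) (.g (nat_lit 1) (.e (nat_lit 428604) (nat_lit 0) .nil) .nil)))))) 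
(.nd (nat_lit 7) (.nd (nat_lit 8) (.nd (nat_lit 9) 
(.lf (nat_lit 603230) (.g (nat_lit 556) (.e (nat_lit 655375) (nat_lit 3) (.e (nat_lit 163978) (nat_lit 30) (.e (nat_lit 573480) (nat_lit 13) .nil))) (.g (nat_lit 0) (.e (nat_lit 426386) (nat_lit 0) .nil) .nil))) 
(.lf (nat_lit 603742) (.g (nat_lit 3795) (.e (nat_lit 655378) (nat_lit 4) (.e (nat_lit 172126) (nat_lit 14) (.e (nat_lit 491550) (nat_lit 9) (.e (nat_lit 336443) (nat_lit 32) (.e (nat_lit 466960) (nat_lit 20) (.e (nat_lit 3403) (nat_lit 212) .nil)))))) (.g (nat_lit 1) (.e (nat_lit 427622) (nat_lit 0) .nil) .nil)))) (.nd (nat_lit 9) 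
(.lf (nat_lit 603486) (.g (nat_lit 4741) (.e (nat_lit 655375) (nat_lit 3) (.e (nat_lit 163979) (nat_lit 30) (.e (nat_lit 573492) (nat_lit 15) (.e (nat_lit 81956) (nat_lit 23) (.e (nat_lit 98362) (nat_lit 26) (.e (nat_lit 426043) (nat_lit 0) (.e (nat_lit 3407) (nat_lit 212) .nil))))))) (.g (nat_lit 1) (.e (nat_lit 426865) (nat_lit 0) .nil) .nil))) 
(.lf (nat_lit 603998) (.g (nat_lit 2310) (.e (nat_lit 761898) (nat_lit 15) (.e (nat_lit 163977) (nat_lit 30) (.e (nat_lit 573489) (nat_lit 14) (.e (nat_lit 73754) (nat_lit 8) (.e (nat_lit 557095) (nat_lit 13) (.e (nat_lit 172067) (nat_lit 3) (.e (nat_lit 204817) (nat_lit 17) (.e (nat_lit 7936) (nat_lit 149) .nil)))))))) (.g (nat_lit 1) (.e (nat_lit 428502) (nat_lit 0) .nil) .nil))))) 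
(.nd (nat_lit 8) (.nd (nat_lit 9) 
(.lf (nat_lit 603358) (.g (nat_lit 2896) (.e (nat_lit 655375) (nat_lit 3) (.e (nat_lit 163978) (nat_lit 30) (.e (nat_lit 573493) (nat_lit 15) (.e (nat_lit 81954) (nat_lit 23) (.e (nat_lit 98359) (nat_lit 26) (.e (nat_lit 426043) (nat_lit 0) (.e (nat_lit 3406) (nat_lit 212) .nil))))))) (.g (nat_lit 1) (.e (nat_lit 426667) (nat_lit 0) .nil) .nil))) 
(.lf (nat_lit 603870) (.g (nat_lit 1878) (.e (nat_lit 753670) (nat_lit 5) (.e (nat_lit 3098) (nat_lit 192) (.e (nat_lit 491569) (nat_lit 13) (.e (nat_lit 393301) (nat_lit 27) (.e (nat_lit 491558) (nat_lit 10) .nil))))) (.g (nat_lit 0) (.e (nat_lit 427944) (nat_lit 0) .nil) .nil)))) (.nd (nat_lit 9) 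
(.lf (nat_lit 603614) (.g (nat_lit 2072) (.e (nat_lit 655378) (nat_lit 4) (.e (nat_lit 172107) (nat_lit 10) (.e (nat_lit 434272) (nat_lit 38) (.e (nat_lit 655380) (nat_lit 6) (.e (nat_lit 188439) (nat_lit 20) (.e (nat_lit 3409) (nat_lit 212) .nil)))))) (.g (nat_lit 1) (.e (nat_lit 427325) (nat_lit 0) .nil) .nil))) 
(.lf (nat_lit 604126) (.g (nat_lit 3130) (.e (nat_lit 761898) (nat_lit 15) (.e (nat_lit 163978) (nat_lit 30) (.e (nat_lit 573489) (nat_lit 14) (.e (nat_lit 73755) (nat_lit 8) (.e (nat_lit 557103) (nat_lit 14) (.e (nat_lit 180244) (nat_lit 5) (.e (nat_lit 532484) (nat_lit 0) (.e (nat_lit 2272) (nat_lit 149) .nil)))))))) (.g (nat_lit 1) (.e (nat_lit 428678) (nat_lit 0) .nil) .nil))))))) 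
(.nd (nat_lit 6) (.nd (nat_lit 7) (.nd (nat_lit 8) (.nd (nat_lit 9) 
(.lf (nat_lit 603198) (.g (nat_lit 3445) (.e (nat_lit 655375) (nat_lit 3) (.e (nat_lit 163977) (nat_lit 30) (.e (nat_lit 573491) (nat_lit 15) (.e (nat_lit 81951) (nat_lit 22) (.e (nat_lit 90170) (nat_lit 13) (.e (nat_lit 172046) (nat_lit 0) (.e (nat_lit 3406) (nat_lit 212) .nil))))))) (.g (nat_lit 1) (.e (nat_lit 426350) (nat_lit 0) .nil) .nil))) 
(.lf (nat_lit 603710) (.g (nat_lit 1778) (.e (nat_lit 655378) (nat_lit 4) (.e (nat_lit 172125) (nat_lit 14) (.e (nat_lit 491571) (nat_lit 13) (.e (nat_lit 393268) (nat_lit 23) .nil)))) (.g (nat_lit 0) (.e (nat_lit 427541) (nat_lit 0) .nil) .nil)))) (.nd (nat_lit 9) 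
(.lf (nat_lit 603454) (.g (nat_lit 1943) (.e (nat_lit 655375) (nat_lit 3) (.e (nat_lit 163979) (nat_lit 30) (.e (nat_lit 573492) (nat_lit 15) (.e (nat_lit 81956) (nat_lit 23) (.e (nat_lit 98357) (nat_lit 26) (.e (nat_lit 425986) (nat_lit 0) (.e (nat_lit 3411) (nat_lit 212) .nil))))))) (.g (nat_lit 1) (.e (nat_lit 426833) (nat_lit 0) .nil) .nil))) 
(.lf (nat_lit 603966) (.g (nat_lit 2574) (.e (nat_lit 761897) (nat_lit 15) (.e (nat_lit 163979) (nat_lit 30) (.e (nat_lit 573489) (nat_lit 14) (.e (nat_lit 73754) (nat_lit 8) (.e (nat_lit 557101) (nat_lit 13) (.e (nat_lit 172066) (nat_lit 3) (.e (nat_lit 204817) (nat_lit 17) (.e (nat_lit 7936) (nat_lit 149) .nil)))))))) (.g (nat_lit 1) (.e (nat_lit 428433) (nat_lit 0) .nil) .nil))))) 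
(.nd (nat_lit 8) (.nd (nat_lit 9) 
(.lf (nat_lit 603326) (.g (nat_lit 3006) (.e (nat_lit 655375) (nat_lit 3) (.e (nat_lit 163978) (nat_lit 30) (.e (nat_lit 573491) (nat_lit 15) (.e (nat_lit 81953) (nat_lit 22) (.e (nat_lit 90170) (nat_lit 13) (.e (nat_lit 172042) (nat_lit 0) (.e (nat_lit 3406) (nat_lit 212) .nil))))))) (.g (nat_lit 1) (.e (nat_lit 426549) (nat_lit 0) .nil) .nil))) 
(.lf (nat_lit 603838) (.g (nat_lit 2502) (.e (nat_lit 655380) (nat_lit 6) (.e (nat_lit 188453) (nat_lit 24) (.e (nat_lit 229665) (nat_lit 240) (.e (nat_lit 2653) (nat_lit 166) (.e (nat_lit 188440) (nat_lit 20) (.e (nat_lit 3408) (nat_lit 212) .nil)))))) (.g (nat_lit 1) (.e (nat_lit 427885) (nat_lit 0) .nil) .nil)))) (.nd (nat_lit 9) 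
(.lf (nat_lit 603582) (.g (nat_lit 1522) (.e (nat_lit 655378) (nat_lit 4) (.e (nat_lit 172106) (nat_lit 10) (.e (nat_lit 434209) (nat_lit 18) (.e (nat_lit 5546) (nat_lit 306) (.e (nat_lit 2649) (nat_lit 166) .nil))))) (.g (nat_lit 0) (.e (nat_lit 427271) (nat_lit 0) .nil) .nil))) 
(.lf (nat_lit 604094) (.g (nat_lit 3165) (.e (nat_lit 761898) (nat_lit 15) (.e (nat_lit 163978) (nat_lit 30) (.e (nat_lit 573487) (nat_lit 14) (.e (nat_lit 73753) (nat_lit 8) (.e (nat_lit 557103) (nat_lit 14) (.e (nat_lit 180244) (nat_lit 5) (.e (nat_lit 532489) (nat_lit 0) (.e (nat_lit 7936) (nat_lit 149) .nil)))))))) (.g (nat_lit 1) (.e (nat_lit 428638) (nat_lit 0) .nil) .nil)))))) 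
(.nd (nat_lit 7) (.nd (nat_lit 8) (.nd (nat_lit 9) 
(.lf (nat_lit 603262) (.g (nat_lit 3974) (.e (nat_lit 655375) (nat_lit 3) (.e (nat_lit 163978) (nat_lit 30) (.e (nat_lit 573482) (nat_lit 13) (.e (nat_lit 65604) (nat_lit 9) (.e (nat_lit 336028) (nat_lit 3) (.e (nat_lit 98366) (nat_lit 27) (.e (nat_lit 434271) (nat_lit 38) .nil))))))) (.g (nat_lit 1) (.e (nat_lit 426419) (nat_lit 0) .nil) .nil))) 
(.lf (nat_lit 603774) (.g (nat_lit 298) (.e (nat_lit 655380) (nat_lit 6) (.e (nat_lit 188431) (nat_lit 20) (.e (nat_lit 3401) (nat_lit 211) .nil))) (.g (nat_lit 0) (.e (nat_lit 427772) (nat_lit 0) .nil) .nil)))) (.nd (nat_lit 9) 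
(.lf (nat_lit 603518) (.g (nat_lit 3084) (.e (nat_lit 655375) (nat_lit 3) (.e (nat_lit 163979) (nat_lit 30) (.e (nat_lit 573493) (nat_lit 15) (.e (nat_lit 81956) (nat_lit 23) (.e (nat_lit 98359) (nat_lit 26) (.e (nat_lit 426041) (nat_lit 0) (.e (nat_lit 3406) (nat_lit 212) .nil))))))) (.g (nat_lit 1) (.e (nat_lit 426899) (nat_lit 0) .nil) .nil))) 
(.lf (nat_lit 604030) (.g (nat_lit 3170) (.e (nat_lit 761898) (nat_lit 15) (.e (nat_lit 163977) (nat_lit 30) (.e (nat_lit 573489) (nat_lit 14) (.e (nat_lit 73755) (nat_lit 8) (.e (nat_lit 557098) (nat_lit 13) (.e (nat_lit 172067) (nat_lit 3) (.e (nat_lit 204821) (nat_lit 17) (.e (nat_lit 7936) (nat_lit 149) .nil)))))))) (.g (nat_lit 1) (.e (nat_lit 428540) (nat_lit 0) .nil) .nil))))) 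
(.nd (nat_lit 8) (.nd (nat_lit 9) 
(.lf (nat_lit 603390) (.g (nat_lit 4196) (.e (nat_lit 655375) (nat_lit 3) (.e (nat_lit 163979) (nat_lit 30) (.e (nat_lit 573481) (nat_lit 13) (.e (nat_lit 65619) (nat_lit 10) (.e (nat_lit 344117) (nat_lit 21) (.e (nat_lit 516151) (nat_lit 9) (.e (nat_lit 426043) (nat_lit 0) (.e (nat_lit 3406) (nat_lit 212) .nil)))))))) (.g (nat_lit 1) (.e (nat_lit 426756) (nat_lit 0) .nil) .nil))) 
(.lf (nat_lit 603902) (.g (nat_lit 1252) (.e (nat_lit 761867) (nat_lit 5) (.e (nat_lit 1656) (nat_lit 115) (.e (nat_lit 393225) (nat_lit 9) (.e (nat_lit 336165) (nat_lit 10) .nil)))) (.g (nat_lit 0) (.e (nat_lit 428036) (nat_lit 0) .nil) .nil)))) (.nd (nat_lit 9) 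
(.lf (nat_lit 603646) (.g (nat_lit 2175) (.e (nat_lit 655378) (nat_lit 4) (.e (nat_lit 172115) (nat_lit 10) (.e (nat_lit 434272) (nat_lit 38) (.e (nat_lit 655380) (nat_lit 6) (.e (nat_lit 188438) (nat_lit 20) (.e (nat_lit 3409) (nat_lit 212) .nil)))))) (.g (nat_lit 1) (.e (nat_lit 427385) (nat_lit 0) .nil) .nil))) 
(.lf (nat_lit 604158) (.g (nat_lit 4369) (.e (nat_lit 761898) (nat_lit 15) (.e (nat_lit 163979) (nat_lit 30) (.e (nat_lit 573487) (nat_lit 14) (.e (nat_lit 73753) (nat_lit 8) (.e (nat_lit 557101) (nat_lit 13) (.e (nat_lit 172065) (nat_lit 3) (.e (nat_lit 204817) (nat_lit 17) (.e (nat_lit 7936) (nat_lit 149) .nil)))))))) (.g (nat_lit 1) (.e (nat_lit 428738) (nat_lit 0) .nil) .nil)))))))))))) 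
(.nd (nat_lit 1) (.nd (nat_lit 2) (.nd (nat_lit 3) (.nd (nat_lit 4) (.nd (nat_lit 5) 
(.nd (nat_lit 6) (.nd (nat_lit 7) (.nd (nat_lit 8) (.nd (nat_lit 9) 
(.lf (nat_lit 603137) (.g (nat_lit 4221) (.e (nat_lit 655373) (nat_lit 3) (.e (nat_lit 163979) (nat_lit 30) (.e (nat_lit 573482) (nat_lit 13) (.e (nat_lit 65604) (nat_lit 9) (.e (nat_lit 336013) (nat_lit 2) (.e (nat_lit 90170) (nat_lit 13) (.e (nat_lit 172046) (nat_lit 0) (.e (nat_lit 3406) (nat_lit 212) .nil)))))))) (.g (nat_lit 1) (.e (nat_lit 426241) (nat_lit 0) .nil) .nil))) 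
(.lf (nat_lit 603649) (.g (nat_lit 2580) (.e (nat_lit 655378) (nat_lit 4) (.e (nat_lit 172115) (nat_lit 10) (.e (nat_lit 434272) (nat_lit 38) (.e (nat_lit 655380) (nat_lit 6) (.e (nat_lit 188440) (nat_lit 20) (.e (nat_lit 3408) (nat_lit 212) .nil)))))) (.g (nat_lit 1) (.e (nat_lit 427388) (nat_lit 0) .nil) .nil)))) (.nd (nat_lit 9) 
(.lf (nat_lit 603393) (.g (nat_lit 5313) (.e (nat_lit 655375) (nat_lit 3) (.e (nat_lit 163979) (nat_lit 30) (.e (nat_lit 573481) (nat_lit 13) (.e (nat_lit 65619) (nat_lit 10) (.e (nat_lit 344117) (nat_lit 21) (.e (nat_lit 516160) (nat_lit 10) (.e (nat_lit 434272) (nat_lit 38) .nil))))))) (.g (nat_lit 1) (.e (nat_lit 426759) (nat_lit 0) .nil) .nil))) 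
(.lf (nat_lit 603905) (.g (nat_lit 2622) (.e (nat_lit 761893) (nat_lit 15) (.e (nat_lit 163978) (nat_lit 30) (.e (nat_lit 573489) (nat_lit 14) (.e (nat_lit 73754) (nat_lit 8) (.e (nat_lit 557095) (nat_lit 13) .nil))))) (.g (nat_lit 0) (.e (nat_lit 428091) (nat_lit 0) .nil) .nil))))) (.nd (nat_lit 8) (.nd (nat_lit 9) 
(.lf (nat_lit 603265) (.g (nat_lit 5352) (.e (nat_lit 655375) (nat_lit 3) (.e (nat_lit 163978) (nat_lit 30) (.e (nat_lit 573482) (nat_lit 13) (.e (nat_lit 65619) (nat_lit 10) (.e (nat_lit 344117) (nat_lit 21) (.e (nat_lit 516151) (nat_lit 9) (.e (nat_lit 426042) (nat_lit 0) (.e (nat_lit 3409) (nat_lit 212) .nil)))))))) (.g (nat_lit 1) (.e (nat_lit 426422) (nat_lit 0) .nil) .nil))) 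
(.lf (nat_lit 603777) (.g (nat_lit 358) (.e (nat_lit 655380) (nat_lit 6) (.e (nat_lit 188431) (nat_lit 20) (.e (nat_lit 3402) (nat_lit 211) .nil))) (.g (nat_lit 0) (.e (nat_lit 427775) (nat_lit 0) .nil) .nil)))) (.nd (nat_lit 9) 
(.lf (nat_lit 603521) (.g (nat_lit 4556) (.e (nat_lit 655375) (nat_lit 3) (.e (nat_lit 163979) (nat_lit 30) (.e (nat_lit 573493) (nat_lit 15) (.e (nat_lit 81956) (nat_lit 23) (.e (nat_lit 98366) (nat_lit 27) (.e (nat_lit 434271) (nat_lit 38) .nil)))))) (.g (nat_lit 1) (.e (nat_lit 426902) (nat_lit 0) .nil) .nil))) 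
(.lf (nat_lit 604033) (.g (nat_lit 2060) (.e (nat_lit 761898) (nat_lit 15) (.e (nat_lit 163977) (nat_lit 30) (.e (nat_lit 573489) (nat_lit 14) (.e (nat_lit 73755) (nat_lit 8) (.e (nat_lit 557103) (nat_lit 14) (.e (nat_lit 180244) (nat_lit 5) (.e (nat_lit 532483) (nat_lit 0) (.e (nat_lit 7936) (nat_lit 149) .nil)))))))) (.g (nat_lit 1) (.e (nat_lit 428546) (nat_lit 0) .nil) .nil)))))) 
(.nd (nat_lit 7) (.nd (nat_lit 8) (.nd (nat_lit 9) 
(.lf (nat_lit 603201) (.g (nat_lit 4101) (.e (nat_lit 655375) (nat_lit 3) (.e (nat_lit 163977) (nat_lit 30) (.e (nat_lit 573493) (nat_lit 15) (.e (nat_lit 81951) (nat_lit 22) (.e (nat_lit 90170) (nat_lit 13) (.e (nat_lit 172042) (nat_lit 0) (.e (nat_lit 3406) (nat_lit 212) .nil))))))) (.g (nat_lit 1) (.e (nat_lit 426355) (nat_lit 0) .nil) .nil))) 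
(.lf (nat_lit 603713) (.g (nat_lit 1822) (.e (nat_lit 655378) (nat_lit 4) (.e (nat_lit 172126) (nat_lit 14) (.e (nat_lit 491547) (nat_lit 9) (.e (nat_lit 336427) (nat_lit 29) .nil)))) (.g (nat_lit 0) (.e (nat_lit 427580) (nat_lit 0) .nil) .nil)))) (.nd (nat_lit 9) 
(.lf (nat_lit 603457) (.g (nat_lit 5105) (.e (nat_lit 655375) (nat_lit 3) (.e (nat_lit 163979) (nat_lit 30) (.e (nat_lit 573492) (nat_lit 15) (.e (nat_lit 81956) (nat_lit 23) (.e (nat_lit 98359) (nat_lit 26) (.e (nat_lit 426043) (nat_lit 0) (.e (nat_lit 3407) (nat_lit 212) .nil))))))) (.g (nat_lit 1) (.e (nat_lit 426836) (nat_lit 0) .nil) .nil))) 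
(.lf (nat_lit 603969) (.g (nat_lit 2852) (.e (nat_lit 761897) (nat_lit 15) (.e (nat_lit 163979) (nat_lit 30) (.e (nat_lit 573489) (nat_lit 14) (.e (nat_lit 73755) (nat_lit 8) (.e (nat_lit 557097) (nat_lit 13) (.e (nat_lit 172066) (nat_lit 3) (.e (nat_lit 204821) (nat_lit 17) (.e (nat_lit 2270) (nat_lit 149) .nil)))))))) (.g (nat_lit 1) (.e (nat_lit 428437) (nat_lit 0) .nil) .nil))))) 
(.nd (nat_lit 8) (.nd (nat_lit 9) 
(.lf (nat_lit 603329) (.g (nat_lit 2638) (.e (nat_lit 655375) (nat_lit 3) (.e (nat_lit 163978) (nat_lit 30) (.e (nat_lit 573491) (nat_lit 15) (.e (nat_lit 81953) (nat_lit 22) (.e (nat_lit 90170) (nat_lit 13) (.e (nat_lit 172049) (nat_lit 0) (.e (nat_lit 3406) (nat_lit 212) .nil))))))) (.g (nat_lit 1) (.e (nat_lit 426552) (nat_lit 0) .nil) .nil))) 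
(.lf (nat_lit 603841) (.g (nat_lit 1925) (.e (nat_lit 655380) (nat_lit 6) (.e (nat_lit 188454) (nat_lit 24) (.e (nat_lit 229663) (nat_lit 240) (.e (nat_lit 2653) (nat_lit 166) (.e (nat_lit 188441) (nat_lit 20) .nil))))) (.g (nat_lit 0) (.e (nat_lit 427888) (nat_lit 0) .nil) .nil)))) (.nd (nat_lit 9) 
(.lf (nat_lit 603585) (.g (nat_lit 1023) (.e (nat_lit 655378) (nat_lit 4) (.e (nat_lit 172106) (nat_lit 10) (.e (nat_lit 434209) (nat_lit 18) (.e (nat_lit 5547) (nat_lit 306) .nil)))) (.g (nat_lit 0) (.e (nat_lit 427278) (nat_lit 0) .nil) .nil))) 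
(.lf (nat_lit 604097) (.g (nat_lit 3942) (.e (nat_lit 761898) (nat_lit 15) (.e (nat_lit 163978) (nat_lit 30) (.e (nat_lit 573489) (nat_lit 14) (.e (nat_lit 73754) (nat_lit 8) (.e (nat_lit 557100) (nat_lit 13) (.e (nat_lit 172065) (nat_lit 3) (.e (nat_lit 204821) (nat_lit 17) (.e (nat_lit 2270) (nat_lit 149) .nil)))))))) (.g (nat_lit 1) (.e (nat_lit 428641) (nat_lit 0) .nil) .nil))))))) 
(.nd (nat_lit 6) (.nd (nat_lit 7) (.nd (nat_lit 8) (.nd (nat_lit 9) 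
(.lf (nat_lit 603169) (.g (nat_lit 2243) (.e (nat_lit 655374) (nat_lit 3) (.e (nat_lit 163978) (nat_lit 30) (.e (nat_lit 573485) (nat_lit 13) (.e (nat_lit 65619) (nat_lit 10) (.e (nat_lit 344117) (nat_lit 21) .nil))))) (.g (nat_lit 0) (.e (nat_lit 426297) (nat_lit 0) .nil) .nil))) 
(.lf (nat_lit 603681) (.g (nat_lit 2951) (.e (nat_lit 655378) (nat_lit 4) (.e (nat_lit 172120) (nat_lit 12) (.e (nat_lit 475210) (nat_lit 41) (.e (nat_lit 712752) (nat_lit 29) (.e (nat_lit 442411) (nat_lit 20) (.e (nat_lit 3409) (nat_lit 212) .nil)))))) (.g (nat_lit 1) (.e (nat_lit 427436) (nat_lit 0) .nil) .nil)))) (.nd (nat_lit 9) 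
(.lf (nat_lit 603425) (.g (nat_lit 1256) (.e (nat_lit 655375) (nat_lit 3) (.e (nat_lit 163979) (nat_lit 30) (.e (nat_lit 573491) (nat_lit 15) (.e (nat_lit 81954) (nat_lit 23) .nil)))) (.g (nat_lit 0) (.e (nat_lit 426791) (nat_lit 0) .nil) .nil))) 
(.lf (nat_lit 603937) (.g (nat_lit 2644) (.e (nat_lit 761895) (nat_lit 15) (.e (nat_lit 163978) (nat_lit 30) (.e (nat_lit 573489) (nat_lit 14) (.e (nat_lit 73754) (nat_lit 8) (.e (nat_lit 557101) (nat_lit 13) .nil))))) (.g (nat_lit 0) (.e (nat_lit 428240) (nat_lit 0) .nil) .nil))))) (.nd (nat_lit 8) (.nd (nat_lit 9) 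
(.lf (nat_lit 603297) (.g (nat_lit 4618) (.e (nat_lit 655375) (nat_lit 3) (.e (nat_lit 163978) (nat_lit 30) (.e (nat_lit 573490) (nat_lit 15) (.e (nat_lit 81951) (nat_lit 22) (.e (nat_lit 90170) (nat_lit 13) (.e (nat_lit 172049) (nat_lit 0) (.e (nat_lit 3407) (nat_lit 212) .nil))))))) (.g (nat_lit 1) (.e (nat_lit 426460) (nat_lit 0) .nil) .nil))) 
(.lf (nat_lit 603809) (.g (nat_lit 1755) (.e (nat_lit 655380) (nat_lit 6) (.e (nat_lit 188438) (nat_lit 20) (.e (nat_lit 3409) (nat_lit 212) (.e (nat_lit 655380) (nat_lit 6) (.e (nat_lit 188441) (nat_lit 20) (.e (nat_lit 3408) (nat_lit 212) .nil)))))) (.g (nat_lit 1) (.e (nat_lit 427817) (nat_lit 0) .nil) .nil)))) (.nd (nat_lit 9) 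
(.lf (nat_lit 603553) (.g (nat_lit 673) (.e (nat_lit 655377) (nat_lit 4) (.e (nat_lit 172124) (nat_lit 14) (.e (nat_lit 491549) (nat_lit 9) .nil))) (.g (nat_lit 0) (.e (nat_lit 427137) (nat_lit 0) .nil) .nil))) 
(.lf (nat_lit 604065) (.g (nat_lit 2497) (.e (nat_lit 761898) (nat_lit 15) (.e (nat_lit 163978) (nat_lit 30) (.e (nat_lit 573487) (nat_lit 14) (.e (nat_lit 73753) (nat_lit 8) (.e (nat_lit 557098) (nat_lit 13) (.e (nat_lit 172066) (nat_lit 3) (.e (nat_lit 204820) (nat_lit 17) (.e (nat_lit 7936) (nat_lit 149) .nil)))))))) (.g (nat_lit 1) (.e (nat_lit 428607) (nat_lit 0) .nil) .nil)))))) 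
(.nd (nat_lit 7) (.nd (nat_lit 8) (.nd (nat_lit 9) 
(.lf (nat_lit 603233) (.g (nat_lit 3152) (.e (nat_lit 655375) (nat_lit 3) (.e (nat_lit 163978) (nat_lit 30) (.e (nat_lit 573480) (nat_lit 13) (.e (nat_lit 65604) (nat_lit 9) (.e (nat_lit 336013) (nat_lit 2) (.e (nat_lit 90170) (nat_lit 13) (.e (nat_lit 172042) (nat_lit 0) (.e (nat_lit 3409) (nat_lit 212) .nil)))))))) (.g (nat_lit 1) (.e (nat_lit 426389) (nat_lit 0) .nil) .nil))) 
(.lf (nat_lit 603745) (.g (nat_lit 3646) (.e (nat_lit 655378) (nat_lit 4) (.e (nat_lit 172126) (nat_lit 14) (.e (nat_lit 491568) (nat_lit 13) (.e (nat_lit 393283) (nat_lit 24) (.e (nat_lit 434272) (nat_lit 38) .nil))))) (.g (nat_lit 1) (.e (nat_lit 427651) (nat_lit 0) .nil) .nil)))) (.nd (nat_lit 9) 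
(.lf (nat_lit 603489) (.g (nat_lit 4464) (.e (nat_lit 655375) (nat_lit 3) (.e (nat_lit 163979) (nat_lit 30) (.e (nat_lit 573492) (nat_lit 15) (.e (nat_lit 81956) (nat_lit 23) (.e (nat_lit 98362) (nat_lit 26) (.e (nat_lit 426048) (nat_lit 0) (.e (nat_lit 3408) (nat_lit 212) .nil))))))) (.g (nat_lit 1) (.e (nat_lit 426868) (nat_lit 0) .nil) .nil))) 
(.lf (nat_lit 604001) (.g (nat_lit 2039) (.e (nat_lit 761898) (nat_lit 15) (.e (nat_lit 163977) (nat_lit 30) (.e (nat_lit 573489) (nat_lit 14) (.e (nat_lit 73754) (nat_lit 8) (.e (nat_lit 557101) (nat_lit 13) .nil))))) (.g (nat_lit 0) (.e (nat_lit 428505) (nat_lit 0) .nil) .nil))))) (.nd (nat_lit 8) (.nd (nat_lit 9) 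
(.lf (nat_lit 603361) (.g (nat_lit 2450) (.e (nat_lit 655375) (nat_lit 3) (.e (nat_lit 163978) (nat_lit 30) (.e (nat_lit 573493) (nat_lit 15) (.e (nat_lit 81954) (nat_lit 23) (.e (nat_lit 98367) (nat_lit 27) .nil))))) (.g (nat_lit 0) (.e (nat_lit 426670) (nat_lit 0) .nil) .nil))) 
(.lf (nat_lit 603873) (.g (nat_lit 3592) (.e (nat_lit 753671) (nat_lit 5) (.e (nat_lit 3098) (nat_lit 192) (.e (nat_lit 491569) (nat_lit 13) (.e (nat_lit 393301) (nat_lit 27) (.e (nat_lit 491558) (nat_lit 10) (.e (nat_lit 344172) (nat_lit 41) .nil)))))) (.g (nat_lit 1) (.e (nat_lit 427947) (nat_lit 0) .nil) .nil)))) (.nd (nat_lit 9) 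
(.lf (nat_lit 603617) (.g (nat_lit 2215) (.e (nat_lit 655378) (nat_lit 4) (.e (nat_lit 172112) (nat_lit 10) (.e (nat_lit 434271) (nat_lit 38) (.e (nat_lit 655380) (nat_lit 6) (.e (nat_lit 188434) (nat_lit 20) (.e (nat_lit 3406) (nat_lit 212) .nil)))))) (.g (nat_lit 1) (.e (nat_lit 427328) (nat_lit 0) .nil) .nil))) 
(.lf (nat_lit 604129) (.g (nat_lit 2889) (.e (nat_lit 761898) (nat_lit 15) (.e (nat_lit 163978) (nat_lit 30) (.e (nat_lit 573489) (nat_lit 14) (.e (nat_lit 73755) (nat_lit 8) (.e (nat_lit 557103) (nat_lit 14) (.e (nat_lit 180244) (nat_lit 5) (.e (nat_lit 532490) (nat_lit 0) (.e (nat_lit 2270) (nat_lit 149) .nil)))))))) (.g (nat_lit 1) (.e (nat_lit 428681) (nat_lit 0) .nil) .nil)))))))) 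
(.nd (nat_lit 5) (.nd (nat_lit 6) (.nd (nat_lit 7) (.nd (nat_lit 8) (.nd (nat_lit 9) 
(.lf (nat_lit 603153) (.g (nat_lit 3399) (.e (nat_lit 655373) (nat_lit 3) (.e (nat_lit 163979) (nat_lit 30) (.e (nat_lit 573493) (nat_lit 15) (.e (nat_lit 81951) (nat_lit 22) (.e (nat_lit 90170) (nat_lit 13) (.e (nat_lit 172049) (nat_lit 0) (.e (nat_lit 3408) (nat_lit 212) .nil))))))) (.g (nat_lit 1) (.e (nat_lit 426262) (nat_lit 0) .nil) .nil))) 
(.lf (nat_lit 603665) (.g (nat_lit 1421) (.e (nat_lit 655378) (nat_lit 4) (.e (nat_lit 172119) (nat_lit 12) (.e (nat_lit 475198) (nat_lit 40) (.e (nat_lit 704598) (nat_lit 6) (.e (nat_lit 188435) (nat_lit 20) .nil))))) (.g (nat_lit 0) (.e (nat_lit 427411) (nat_lit 0) .nil) .nil)))) (.nd (nat_lit 9) 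
(.lf (nat_lit 603409) (.g (nat_lit 2500) (.e (nat_lit 655375) (nat_lit 3) (.e (nat_lit 163979) (nat_lit 30) (.e (nat_lit 573485) (nat_lit 13) (.e (nat_lit 65604) (nat_lit 9) (.e (nat_lit 336028) (nat_lit 3) .nil))))) (.g (nat_lit 0) (.e (nat_lit 426775) (nat_lit 0) .nil) .nil))) 
(.lf (nat_lit 603921) (.g (nat_lit 2037) (.e (nat_lit 761894) (nat_lit 15) (.e (nat_lit 163978) (nat_lit 30) (.e (nat_lit 573489) (nat_lit 14) (.e (nat_lit 73755) (nat_lit 8) (.e (nat_lit 557105) (nat_lit 14) .nil))))) (.g (nat_lit 0) (.e (nat_lit 428157) (nat_lit 0) .nil) .nil))))) (.nd (nat_lit 8) (.nd (nat_lit 9) 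
(.lf (nat_lit 603281) (.g (nat_lit 2370) (.e (nat_lit 655375) (nat_lit 3) (.e (nat_lit 163978) (nat_lit 30) (.e (nat_lit 573485) (nat_lit 13) (.e (nat_lit 65604) (nat_lit 9) (.e (nat_lit 336013) (nat_lit 2) (.e (nat_lit 90170) (nat_lit 13) (.e (nat_lit 172032) (nat_lit 0) (.e (nat_lit 3406) (nat_lit 212) .nil)))))))) (.g (nat_lit 1) (.e (nat_lit 426439) (nat_lit 0) .nil) .nil))) 
(.lf (nat_lit 603793) (.g (nat_lit 2205) (.e (nat_lit 655380) (nat_lit 6) (.e (nat_lit 188434) (nat_lit 20) (.e (nat_lit 3408) (nat_lit 212) (.e (nat_lit 655380) (nat_lit 6) (.e (nat_lit 188441) (nat_lit 20) (.e (nat_lit 3409) (nat_lit 212) .nil)))))) (.g (nat_lit 1) (.e (nat_lit 427797) (nat_lit 0) .nil) .nil)))) (.nd (nat_lit 9) 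
(.lf (nat_lit 603537) (.g (nat_lit 2499) (.e (nat_lit 655376) (nat_lit 4) (.e (nat_lit 172124) (nat_lit 14) (.e (nat_lit 491549) (nat_lit 9) (.e (nat_lit 336430) (nat_lit 29) (.e (nat_lit 442402) (nat_lit 20) .nil))))) (.g (nat_lit 0) (.e (nat_lit 426995) (nat_lit 0) .nil) .nil))) 
(.lf (nat_lit 604049) (.g (nat_lit 4298) (.e (nat_lit 761898) (nat_lit 15) (.e (nat_lit 163977) (nat_lit 30) (.e (nat_lit 573489) (nat_lit 14) (.e (nat_lit 73755) (nat_lit 8) (.e (nat_lit 557104) (nat_lit 14) (.e (nat_lit 180244) (nat_lit 5) (.e (nat_lit 532489) (nat_lit 0) (.e (nat_lit 7936) (nat_lit 149) .nil)))))))) (.g (nat_lit 1) (.e (nat_lit 428563) (nat_lit 0) .nil) .nil)))))) 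
(.nd (nat_lit 7) (.nd (nat_lit 8) (.nd (nat_lit 9) 
(.lf (nat_lit 603217) (.g (nat_lit 5342) (.e (nat_lit 655375) (nat_lit 3) (.e (nat_lit 163978) (nat_lit 30) (.e (nat_lit 573479) (nat_lit 13) (.e (nat_lit 65604) (nat_lit 9) (.e (nat_lit 336013) (nat_lit 2) (.e (nat_lit 90170) (nat_lit 13) (.e (nat_lit 172042) (nat_lit 0) (.e (nat_lit 3408) (nat_lit 212) .nil)))))))) (.g (nat_lit 1) (.e (nat_lit 426373) (nat_lit 0) .nil) .nil))) 
(.lf (nat_lit 603729) (.g (nat_lit 2319) (.e (nat_lit 655378) (nat_lit 4) (.e (nat_lit 172126) (nat_lit 14) (.e (nat_lit 491549) (nat_lit 9) (.e (nat_lit 336430) (nat_lit 29) (.e (nat_lit 442412) (nat_lit 20) .nil))))) (.g (nat_lit 0) (.e (nat_lit 427609) (nat_lit 0) .nil) .nil)))) (.nd (nat_lit 9) 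
(.lf (nat_lit 603473) (.g (nat_lit 3315) (.e (nat_lit 655375) (nat_lit 3) (.e (nat_lit 163979) (nat_lit 30) (.e (nat_lit 573492) (nat_lit 15) (.e (nat_lit 81956) (nat_lit 23) (.e (nat_lit 98360) (nat_lit 26) (.e (nat_lit 426046) (nat_lit 0) (.e (nat_lit 3407) (nat_lit 212) .nil))))))) (.g (nat_lit 1) (.e (nat_lit 426852) (nat_lit 0) .nil) .nil))) 
(.lf (nat_lit 603985) (.g (nat_lit 3852) (.e (nat_lit 761898) (nat_lit 15) (.e (nat_lit 163977) (nat_lit 30) (.e (nat_lit 573487) (nat_lit 14) (.e (nat_lit 73753) (nat_lit 8) (.e (nat_lit 557098) (nat_lit 13) (.e (nat_lit 172067) (nat_lit 3) (.e (nat_lit 204817) (nat_lit 17) (.e (nat_lit 7936) (nat_lit 149) .nil)))))))) (.g (nat_lit 1) (.e (nat_lit 428487) (nat_lit 0) .nil) .nil))))) 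
(.nd (nat_lit 8) (.nd (nat_lit 9) 
(.lf (nat_lit 603345) (.g (nat_lit 242) (.e (nat_lit 655375) (nat_lit 3) (.e (nat_lit 163978) (nat_lit 30) (.e (nat_lit 573493) (nat_lit 15) .nil))) (.g (nat_lit 0) (.e (nat_lit 426571) (nat_lit 0) .nil) .nil))) 
(.lf (nat_lit 603857) (.g (nat_lit 2231) (.e (nat_lit 655380) (nat_lit 6) (.e (nat_lit 188455) (nat_lit 24) (.e (nat_lit 229666) (nat_lit 240) (.e (nat_lit 2653) (nat_lit 166) (.e (nat_lit 188440) (nat_lit 20) (.e (nat_lit 3408) (nat_lit 212) .nil)))))) (.g (nat_lit 1) (.e (nat_lit 427910) (nat_lit 0) .nil) .nil)))) (.nd (nat_lit 9) 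
(.lf (nat_lit 603601) (.g (nat_lit 2577) (.e (nat_lit 655378) (nat_lit 4) (.e (nat_lit 172106) (nat_lit 10) (.e (nat_lit 434272) (nat_lit 38) (.e (nat_lit 655380) (nat_lit 6) (.e (nat_lit 188439) (nat_lit 20) (.e (nat_lit 3409) (nat_lit 212) .nil)))))) (.g (nat_lit 1) (.e (nat_lit 427312) (nat_lit 0) .nil) .nil))) 
(.lf (nat_lit 604113) (.g (nat_lit 3318) (.e (nat_lit 761898) (nat_lit 15) (.e (nat_lit 163978) (nat_lit 30) (.e (nat_lit 573489) (nat_lit 14) (.e (nat_lit 73755) (nat_lit 8) (.e (nat_lit 557097) (nat_lit 13) (.e (nat_lit 172066) (nat_lit 3) (.e (nat_lit 204822) (nat_lit 17) (.e (nat_lit 2270) (nat_lit 149) .nil)))))))) (.g (nat_lit 1) (.e (nat_lit 428662) (nat_lit 0) .nil) .nil))))))) 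
(.nd (nat_lit 6) (.nd (nat_lit 7) (.nd (nat_lit 8) (.nd (nat_lit 9) 
(.lf (nat_lit 603185) (.g (nat_lit 2592) (.e (nat_lit 655375) (nat_lit 3) (.e (nat_lit 163977) (nat_lit 30) (.e (nat_lit 573481) (nat_lit 13) (.e (nat_lit 65604) (nat_lit 9) (.e (nat_lit 336013) (nat_lit 2) (.e (nat_lit 90170) (nat_lit 13) (.e (nat_lit 172042) (nat_lit 0) (.e (nat_lit 3408) (nat_lit 212) .nil)))))))) (.g (nat_lit 1) (.e (nat_lit 426337) (nat_lit 0) .nil) .nil))) 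
(.lf (nat_lit 603697) (.g (nat_lit 2713) (.e (nat_lit 655378) (nat_lit 4) (.e (nat_lit 172124) (nat_lit 14) (.e (nat_lit 491550) (nat_lit 9) (.e (nat_lit 336430) (nat_lit 29) (.e (nat_lit 442409) (nat_lit 20) (.e (nat_lit 3407) (nat_lit 212) .nil)))))) (.g (nat_lit 1) (.e (nat_lit 427462) (nat_lit 0) .nil) .nil)))) (.nd (nat_lit 9) 
(.lf (nat_lit 603441) (.g (nat_lit 4293) (.e (nat_lit 655375) (nat_lit 3) (.e (nat_lit 163979) (nat_lit 30) (.e (nat_lit 573492) (nat_lit 15) (.e (nat_lit 81954) (nat_lit 23) (.e (nat_lit 98359) (nat_lit 26) (.e (nat_lit 426043) (nat_lit 0) (.e (nat_lit 3408) (nat_lit 212) .nil))))))) (.g (nat_lit 1) (.e (nat_lit 426811) (nat_lit 0) .nil) .nil))) 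
(.lf (nat_lit 603953) (.g (nat_lit 2326) (.e (nat_lit 761897) (nat_lit 15) (.e (nat_lit 163978) (nat_lit 30) (.e (nat_lit 573489) (nat_lit 14) (.e (nat_lit 73754) (nat_lit 8) (.e (nat_lit 557101) (nat_lit 13) .nil))))) (.g (nat_lit 0) (.e (nat_lit 428384) (nat_lit 0) .nil) .nil))))) (.nd (nat_lit 8) (.nd (nat_lit 9) 
(.lf (nat_lit 603313) (.g (nat_lit 3401) (.e (nat_lit 655375) (nat_lit 3) (.e (nat_lit 163978) (nat_lit 30) (.e (nat_lit 573491) (nat_lit 15) (.e (nat_lit 81951) (nat_lit 22) (.e (nat_lit 90170) (nat_lit 13) (.e (nat_lit 172042) (nat_lit 0) (.e (nat_lit 3406) (nat_lit 212) .nil))))))) (.g (nat_lit 1) (.e (nat_lit 426534) (nat_lit 0) .nil) .nil))) 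
(.lf (nat_lit 603825) (.g (nat_lit 2660) (.e (nat_lit 655380) (nat_lit 6) (.e (nat_lit 188441) (nat_lit 20) (.e (nat_lit 3409) (nat_lit 212) (.e (nat_lit 655380) (nat_lit 6) (.e (nat_lit 188441) (nat_lit 20) (.e (nat_lit 3409) (nat_lit 212) .nil)))))) (.g (nat_lit 1) (.e (nat_lit 427836) (nat_lit 0) .nil) .nil)))) (.nd (nat_lit 9) 
(.lf (nat_lit 603569) (.g (nat_lit 1058) (.e (nat_lit 655378) (nat_lit 4) (.e (nat_lit 172094) (nat_lit 9) (.e (nat_lit 426025) (nat_lit 0) (.e (nat_lit 3397) (nat_lit 211) .nil)))) (.g (nat_lit 0) (.e (nat_lit 427238) (nat_lit 0) .nil) .nil))) 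
(.lf (nat_lit 604081) (.g (nat_lit 3096) (.e (nat_lit 761898) (nat_lit 15) (.e (nat_lit 163978) (nat_lit 30) (.e (nat_lit 573487) (nat_lit 14) (.e (nat_lit 73753) (nat_lit 8) (.e (nat_lit 557101) (nat_lit 13) (.e (nat_lit 172066) (nat_lit 3) (.e (nat_lit 204815) (nat_lit 17) (.e (nat_lit 2271) (nat_lit 149) .nil)))))))) (.g (nat_lit 1) (.e (nat_lit 428624) (nat_lit 0) .nil) .nil)))))) 
(.nd (nat_lit 7) (.nd (nat_lit 8) (.nd (nat_lit 9) 
(.lf (nat_lit 603249) (.g (nat_lit 3398) (.e (nat_lit 655375) (nat_lit 3) (.e (nat_lit 163978) (nat_lit 30) (.e (nat_lit 573481) (nat_lit 13) (.e (nat_lit 65604) (nat_lit 9) (.e (nat_lit 336028) (nat_lit 3) (.e (nat_lit 98359) (nat_lit 26) (.e (nat_lit 426043) (nat_lit 0) (.e (nat_lit 3409) (nat_lit 212) .nil)))))))) (.g (nat_lit 1) (.e (nat_lit 426406) (nat_lit 0) .nil) .nil))) 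
(.lf (nat_lit 603761) (.g (nat_lit 2764) (.e (nat_lit 655378) (nat_lit 4) (.e (nat_lit 172126) (nat_lit 14) (.e (nat_lit 491571) (nat_lit 13) (.e (nat_lit 393281) (nat_lit 23) .nil)))) (.g (nat_lit 0) (.e (nat_lit 427712) (nat_lit 0) .nil) .nil)))) (.nd (nat_lit 9) 
(.lf (nat_lit 603505) (.g (nat_lit 4343) (.e (nat_lit 655375) (nat_lit 3) (.e (nat_lit 163979) (nat_lit 30) (.e (nat_lit 573493) (nat_lit 15) (.e (nat_lit 81951) (nat_lit 22) (.e (nat_lit 90170) (nat_lit 13) (.e (nat_lit 172049) (nat_lit 0) (.e (nat_lit 3409) (nat_lit 212) .nil))))))) (.g (nat_lit 1) (.e (nat_lit 426886) (nat_lit 0) .nil) .nil))) 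
(.lf (nat_lit 604017) (.g (nat_lit 2852) (.e (nat_lit 761898) (nat_lit 15) (.e (nat_lit 163977) (nat_lit 30) (.e (nat_lit 573489) (nat_lit 14) (.e (nat_lit 73755) (nat_lit 8) (.e (nat_lit 557097) (nat_lit 13) (.e (nat_lit 172066) (nat_lit 3) (.e (nat_lit 204819) (nat_lit 17) (.e (nat_lit 7936) (nat_lit 149) .nil)))))))) (.g (nat_lit 1) (.e (nat_lit 428526) (nat_lit 0) .nil) .nil))))) 
(.nd (nat_lit 8) (.nd (nat_lit 9) 
(.lf (nat_lit 603377) (.g (nat_lit 3843) (.e (nat_lit 655375) (nat_lit 3) (.e (nat_lit 163979) (nat_lit 30) (.e (nat_lit 573481) (nat_lit 13) (.e (nat_lit 65604) (nat_lit 9) (.e (nat_lit 336013) (nat_lit 2) (.e (nat_lit 90170) (nat_lit 13) (.e (nat_lit 172042) (nat_lit 0) (.e (nat_lit 3406) (nat_lit 212) .nil)))))))) (.g (nat_lit 1) (.e (nat_lit 426743) (nat_lit 0) .nil) .nil))) 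
(.lf (nat_lit 603889) (.g (nat_lit 2781) (.e (nat_lit 753683) (nat_lit 7) (.e (nat_lit 24662) (nat_lit 14) (.e (nat_lit 401459) (nat_lit 13) (.e (nat_lit 483403) (nat_lit 26) .nil)))) (.g (nat_lit 0) (.e (nat_lit 427976) (nat_lit 0) .nil) .nil)))) (.nd (nat_lit 9) 
(.lf (nat_lit 603633) (.g (nat_lit 1578) (.e (nat_lit 655378) (nat_lit 4) (.e (nat_lit 172115) (nat_lit 10) (.e (nat_lit 434209) (nat_lit 18) (.e (nat_lit 5546) (nat_lit 306) (.e (nat_lit 2649) (nat_lit 166) .nil))))) (.g (nat_lit 0) (.e (nat_lit 427354) (nat_lit 0) .nil) .nil))) 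
(.lf (nat_lit 604145) (.g (nat_lit 2881) (.e (nat_lit 761898) (nat_lit 15) (.e (nat_lit 163979) (nat_lit 30) (.e (nat_lit 573487) (nat_lit 14) (.e (nat_lit 73753) (nat_lit 8) (.e (nat_lit 557096) (nat_lit 13) (.e (nat_lit 172067) (nat_lit 3) (.e (nat_lit 204815) (nat_lit 17) (.e (nat_lit 2271) (nat_lit 149) .nil)))))))) (.g (nat_lit 1) (.e (nat_lit 428724) (nat_lit 0) .nil) .nil))))))))) 
(.nd (nat_lit 4) (.nd (nat_lit 5) (.nd (nat_lit 6) (.nd (nat_lit 7) (.nd (nat_lit 8) 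
(.nd (nat_lit 9) 
(.lf (nat_lit 603145) (.g (nat_lit 3503) (.e (nat_lit 655373) (nat_lit 3) (.e (nat_lit 163979) (nat_lit 30) (.e (nat_lit 573491) (nat_lit 15) (.e (nat_lit 81951) (nat_lit 22) (.e (nat_lit 90170) (nat_lit 13) (.e (nat_lit 172049) (nat_lit 0) (.e (nat_lit 3409) (nat_lit 212) .nil))))))) (.g (nat_lit 1) (.e (nat_lit 426249) (nat_lit 0) .nil) .nil))) 
(.lf (nat_lit 603657) (.g (nat_lit 1725) (.e (nat_lit 655378) (nat_lit 4) (.e (nat_lit 172116) (nat_lit 10) (.e (nat_lit 434271) (nat_lit 38) (.e (nat_lit 655380) (nat_lit 6) (.e (nat_lit 188438) (nat_lit 20) (.e (nat_lit 3409) (nat_lit 212) .nil)))))) (.g (nat_lit 1) (.e (nat_lit 427403) (nat_lit 0) .nil) .nil)))) (.nd (nat_lit 9) 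
(.lf (nat_lit 603401) (.g (nat_lit 2689) (.e (nat_lit 655375) (nat_lit 3) (.e (nat_lit 163979) (nat_lit 30) (.e (nat_lit 573482) (nat_lit 13) (.e (nat_lit 65619) (nat_lit 10) (.e (nat_lit 344117) (nat_lit 21) (.e (nat_lit 516151) (nat_lit 9) (.e (nat_lit 426003) (nat_lit 0) (.e (nat_lit 3406) (nat_lit 212) .nil)))))))) (.g (nat_lit 1) (.e (nat_lit 426767) (nat_lit 0) .nil) .nil))) 
(.lf (nat_lit 603913) (.g (nat_lit 2187) (.e (nat_lit 761893) (nat_lit 15) (.e (nat_lit 163979) (nat_lit 30) (.e (nat_lit 573489) (nat_lit 14) (.e (nat_lit 73755) (nat_lit 8) (.e (nat_lit 557097) (nat_lit 13) .nil))))) (.g (nat_lit 0) (.e (nat_lit 428109) (nat_lit 0) .nil) .nil))))) (.nd (nat_lit 8) (.nd (nat_lit 9) 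
(.lf (nat_lit 603273) (.g (nat_lit 4236) (.e (nat_lit 655375) (nat_lit 3) (.e (nat_lit 163978) (nat_lit 30) (.e (nat_lit 573483) (nat_lit 13) (.e (nat_lit 65610) (nat_lit 10) (.e (nat_lit 344117) (nat_lit 21) (.e (nat_lit 516160) (nat_lit 10) (.e (nat_lit 434271) (nat_lit 38) .nil))))))) (.g (nat_lit 1) (.e (nat_lit 426430) (nat_lit 0) .nil) .nil))) 
(.lf (nat_lit 603785) (.g (nat_lit 2299) (.e (nat_lit 655380) (nat_lit 6) (.e (nat_lit 188434) (nat_lit 20) (.e (nat_lit 3406) (nat_lit 212) (.e (nat_lit 655380) (nat_lit 6) (.e (nat_lit 188441) (nat_lit 20) (.e (nat_lit 3409) (nat_lit 212) .nil)))))) (.g (nat_lit 1) (.e (nat_lit 427786) (nat_lit 0) .nil) .nil)))) (.nd (nat_lit 9) 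
(.lf (nat_lit 603529) (.g (nat_lit 1890) (.e (nat_lit 655376) (nat_lit 4) (.e (nat_lit 172120) (nat_lit 12) (.e (nat_lit 475198) (nat_lit 40) (.e (nat_lit 704598) (nat_lit 6) (.e (nat_lit 188434) (nat_lit 20) (.e (nat_lit 3408) (nat_lit 212) .nil)))))) (.g (nat_lit 1) (.e (nat_lit 426978) (nat_lit 0) .nil) .nil))) 
(.lf (nat_lit 604041) (.g (nat_lit 2492) (.e (nat_lit 761898) (nat_lit 15) (.e (nat_lit 163977) (nat_lit 30) (.e (nat_lit 573489) (nat_lit 14) (.e (nat_lit 73755) (nat_lit 8) (.e (nat_lit 557104) (nat_lit 14) (.e (nat_lit 180242) (nat_lit 5) (.e (nat_lit 532488) (nat_lit 0) (.e (nat_lit 7936) (nat_lit 149) .nil)))))))) (.g (nat_lit 1) (.e (nat_lit 428555) (nat_lit 0) .nil) .nil)))))) 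
(.nd (nat_lit 7) (.nd (nat_lit 8) (.nd (nat_lit 9) 
(.lf (nat_lit 603209) (.g (nat_lit 3961) (.e (nat_lit 655375) (nat_lit 3) (.e (nat_lit 163977) (nat_lit 30) (.e (nat_lit 573493) (nat_lit 15) (.e (nat_lit 81954) (nat_lit 23) (.e (nat_lit 98359) (nat_lit 26) (.e (nat_lit 426043) (nat_lit 0) (.e (nat_lit 3406) (nat_lit 212) .nil))))))) (.g (nat_lit 1) (.e (nat_lit 426365) (nat_lit 0) .nil) .nil))) 
(.lf (nat_lit 603721) (.g (nat_lit 2667) (.e (nat_lit 655378) (nat_lit 4) (.e (nat_lit 172126) (nat_lit 14) (.e (nat_lit 491549) (nat_lit 9) (.e (nat_lit 336427) (nat_lit 29) .nil)))) (.g (nat_lit 0) (.e (nat_lit 427601) (nat_lit 0) .nil) .nil)))) (.nd (nat_lit 9) 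
(.lf (nat_lit 603465) (.g (nat_lit 3717) (.e (nat_lit 655375) (nat_lit 3) (.e (nat_lit 163979) (nat_lit 30) (.e (nat_lit 573492) (nat_lit 15) (.e (nat_lit 81956) (nat_lit 23) (.e (nat_lit 98360) (nat_lit 26) (.e (nat_lit 426038) (nat_lit 0) (.e (nat_lit 3406) (nat_lit 212) .nil))))))) (.g (nat_lit 1) (.e (nat_lit 426844) (nat_lit 0) .nil) .nil))) 
(.lf (nat_lit 603977) (.g (nat_lit 1931) (.e (nat_lit 761898) (nat_lit 15) (.e (nat_lit 163977) (nat_lit 30) (.e (nat_lit 573487) (nat_lit 14) (.e (nat_lit 73753) (nat_lit 8) (.e (nat_lit 557097) (nat_lit 13) (.e (nat_lit 172067) (nat_lit 3) (.e (nat_lit 204817) (nat_lit 17) (.e (nat_lit 7936) (nat_lit 149) .nil)))))))) (.g (nat_lit 1) (.e (nat_lit 428479) (nat_lit 0) .nil) .nil))))) 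
(.nd (nat_lit 8) (.nd (nat_lit 9) 
(.lf (nat_lit 603337) (.g (nat_lit 2591) (.e (nat_lit 655375) (nat_lit 3) (.e (nat_lit 163978) (nat_lit 30) (.e (nat_lit 573491) (nat_lit 15) (.e (nat_lit 81956) (nat_lit 23) (.e (nat_lit 98359) (nat_lit 26) .nil))))) (.g (nat_lit 0) (.e (nat_lit 426560) (nat_lit 0) .nil) .nil))) 
(.lf (nat_lit 603849) (.g (nat_lit 2544) (.e (nat_lit 655380) (nat_lit 6) (.e (nat_lit 188455) (nat_lit 24) (.e (nat_lit 229663) (nat_lit 240) (.e (nat_lit 2653) (nat_lit 166) (.e (nat_lit 188440) (nat_lit 20) (.e (nat_lit 3406) (nat_lit 212) .nil)))))) (.g (nat_lit 1) (.e (nat_lit 427901) (nat_lit 0) .nil) .nil)))) (.nd (nat_lit 9) 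
(.lf (nat_lit 603593) (.g (nat_lit 2194) (.e (nat_lit 655378) (nat_lit 4) (.e (nat_lit 172106) (nat_lit 10) (.e (nat_lit 434271) (nat_lit 38) (.e (nat_lit 655380) (nat_lit 6) (.e (nat_lit 188439) (nat_lit 20) (.e (nat_lit 3406) (nat_lit 212) .nil)))))) (.g (nat_lit 1) (.e (nat_lit 427297) (nat_lit 0) .nil) .nil))) 
(.lf (nat_lit 604105) (.g (nat_lit 1468) (.e (nat_lit 761898) (nat_lit 15) (.e (nat_lit 163978) (nat_lit 30) (.e (nat_lit 573489) (nat_lit 14) (.e (nat_lit 73755) (nat_lit 8) .nil)))) (.g (nat_lit 0) (.e (nat_lit 428652) (nat_lit 0) .nil) .nil))))))) (.nd (nat_lit 6) (.nd (nat_lit 7) (.nd (nat_lit 8) (.nd (nat_lit 9) 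
(.lf (nat_lit 603177) (.g (nat_lit 1903) (.e (nat_lit 655374) (nat_lit 3) (.e (nat_lit 163979) (nat_lit 30) (.e (nat_lit 573491) (nat_lit 15) (.e (nat_lit 81956) (nat_lit 23) .nil)))) (.g (nat_lit 0) (.e (nat_lit 426308) (nat_lit 0) .nil) .nil))) 
(.lf (nat_lit 603689) (.g (nat_lit 1574) (.e (nat_lit 655378) (nat_lit 4) (.e (nat_lit 172124) (nat_lit 14) (.e (nat_lit 491547) (nat_lit 9) (.e (nat_lit 336434) (nat_lit 30) .nil)))) (.g (nat_lit 0) (.e (nat_lit 427450) (nat_lit 0) .nil) .nil)))) (.nd (nat_lit 9) 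
(.lf (nat_lit 603433) (.g (nat_lit 3045) (.e (nat_lit 655375) (nat_lit 3) (.e (nat_lit 163979) (nat_lit 30) (.e (nat_lit 573492) (nat_lit 15) (.e (nat_lit 81953) (nat_lit 22) (.e (nat_lit 90170) (nat_lit 13) .nil))))) (.g (nat_lit 0) (.e (nat_lit 426802) (nat_lit 0) .nil) .nil))) 
(.lf (nat_lit 603945) (.g (nat_lit 2381) (.e (nat_lit 761897) (nat_lit 15) (.e (nat_lit 163977) (nat_lit 30) (.e (nat_lit 573489) (nat_lit 14) (.e (nat_lit 73754) (nat_lit 8) (.e (nat_lit 557101) (nat_lit 13) .nil))))) (.g (nat_lit 0) (.e (nat_lit 428361) (nat_lit 0) .nil) .nil))))) (.nd (nat_lit 8) (.nd (nat_lit 9) 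
(.lf (nat_lit 603305) (.g (nat_lit 4251) (.e (nat_lit 655375) (nat_lit 3) (.e (nat_lit 163978) (nat_lit 30) (.e (nat_lit 573490) (nat_lit 15) (.e (nat_lit 81954) (nat_lit 23) (.e (nat_lit 98359) (nat_lit 26) (.e (nat_lit 426043) (nat_lit 0) (.e (nat_lit 3408) (nat_lit 212) .nil))))))) (.g (nat_lit 1) (.e (nat_lit 426469) (nat_lit 0) .nil) .nil))) 
(.lf (nat_lit 603817) (.g (nat_lit 2740) (.e (nat_lit 655380) (nat_lit 6) (.e (nat_lit 188440) (nat_lit 20) (.e (nat_lit 3409) (nat_lit 212) (.e (nat_lit 655378) (nat_lit 4) (.e (nat_lit 172113) (nat_lit 10) (.e (nat_lit 434272) (nat_lit 38) .nil)))))) (.g (nat_lit 1) (.e (nat_lit 427825) (nat_lit 0) .nil) .nil)))) (.nd (nat_lit 9) 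
(.lf (nat_lit 603561) (.g (nat_lit 1979) (.e (nat_lit 655378) (nat_lit 4) (.e (nat_lit 172079) (nat_lit 7) (.e (nat_lit 409642) (nat_lit 17) (.e (nat_lit 294974) (nat_lit 29) (.e (nat_lit 442412) (nat_lit 20) (.e (nat_lit 3409) (nat_lit 212) .nil)))))) (.g (nat_lit 1) (.e (nat_lit 427221) (nat_lit 0) .nil) .nil))) 
(.lf (nat_lit 604073) (.g (nat_lit 3698) (.e (nat_lit 761898) (nat_lit 15) (.e (nat_lit 163978) (nat_lit 30) (.e (nat_lit 573487) (nat_lit 14) (.e (nat_lit 73753) (nat_lit 8) (.e (nat_lit 557100) (nat_lit 13) (.e (nat_lit 172067) (nat_lit 3) (.e (nat_lit 204815) (nat_lit 17) (.e (nat_lit 2271) (nat_lit 149) .nil)))))))) (.g (nat_lit 1) (.e (nat_lit 428615) (nat_lit 0) .nil) .nil)))))) 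
(.nd (nat_lit 7) (.nd (nat_lit 8) (.nd (nat_lit 9) 
(.lf (nat_lit 603241) (.g (nat_lit 4273) (.e (nat_lit 655375) (nat_lit 3) (.e (nat_lit 163978) (nat_lit 30) (.e (nat_lit 573481) (nat_lit 13) (.e (nat_lit 65604) (nat_lit 9) (.e (nat_lit 336013) (nat_lit 2) (.e (nat_lit 90170) (nat_lit 13) (.e (nat_lit 172042) (nat_lit 0) (.e (nat_lit 3408) (nat_lit 212) .nil)))))))) (.g (nat_lit 1) (.e (nat_lit 426398) (nat_lit 0) .nil) .nil))) 
(.lf (nat_lit 603753) (.g (nat_lit 1975) (.e (nat_lit 655378) (nat_lit 4) (.e (nat_lit 172126) (nat_lit 14) (.e (nat_lit 491570) (nat_lit 13) (.e (nat_lit 393281) (nat_lit 23) .nil)))) (.g (nat_lit 0) (.e (nat_lit 427668) (nat_lit 0) .nil) .nil)))) (.nd (nat_lit 9) 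
(.lf (nat_lit 603497) (.g (nat_lit 3542) (.e (nat_lit 655375) (nat_lit 3) (.e (nat_lit 163979) (nat_lit 30) (.e (nat_lit 573493) (nat_lit 15) (.e (nat_lit 81951) (nat_lit 22) (.e (nat_lit 90170) (nat_lit 13) .nil))))) (.g (nat_lit 0) (.e (nat_lit 426878) (nat_lit 0) .nil) .nil))) 
(.lf (nat_lit 604009) (.g (nat_lit 4050) (.e (nat_lit 761898) (nat_lit 15) (.e (nat_lit 163977) (nat_lit 30) (.e (nat_lit 573489) (nat_lit 14) (.e (nat_lit 73755) (nat_lit 8) (.e (nat_lit 557096) (nat_lit 13) (.e (nat_lit 172067) (nat_lit 3) (.e (nat_lit 204817) (nat_lit 17) (.e (nat_lit 7936) (nat_lit 149) .nil)))))))) (.g (nat_lit 1) (.e (nat_lit 428515) (nat_lit 0) .nil) .nil))))) 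
(.nd (nat_lit 8) (.nd (nat_lit 9) 
(.lf (nat_lit 603369) (.g (nat_lit 5325) (.e (nat_lit 655375) (nat_lit 3) (.e (nat_lit 163978) (nat_lit 30) (.e (nat_lit 573493) (nat_lit 15) (.e (nat_lit 81956) (nat_lit 23) (.e (nat_lit 98365) (nat_lit 26) .nil))))) (.g (nat_lit 0) (.e (nat_lit 426694) (nat_lit 0) .nil) .nil))) 
(.lf (nat_lit 603881) (.g (nat_lit 3395) (.e (nat_lit 753674) (nat_lit 5) (.e (nat_lit 3096) (nat_lit 192) (.e (nat_lit 491569) (nat_lit 13) (.e (nat_lit 393301) (nat_lit 27) (.e (nat_lit 491558) (nat_lit 10) (.e (nat_lit 344171) (nat_lit 41) .nil)))))) (.g (nat_lit 1) (.e (nat_lit 427960) (nat_lit 0) .nil) .nil)))) (.nd (nat_lit 9) 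
(.lf (nat_lit 603625) (.g (nat_lit 1361) (.e (nat_lit 655378) (nat_lit 4) (.e (nat_lit 172113) (nat_lit 10) (.e (nat_lit 434209) (nat_lit 18) (.e (nat_lit 5546) (nat_lit 306) .nil)))) (.g (nat_lit 0) (.e (nat_lit 427338) (nat_lit 0) .nil) .nil))) 
(.lf (nat_lit 604137) (.g (nat_lit 2205) (.e (nat_lit 761898) (nat_lit 15) (.e (nat_lit 163978) (nat_lit 30) (.e (nat_lit 573489) (nat_lit 14) (.e (nat_lit 73755) (nat_lit 8) (.e (nat_lit 557105) (nat_lit 14) (.e (nat_lit 180245) (nat_lit 5) (.e (nat_lit 532484) (nat_lit 0) (.e (nat_lit 2272) (nat_lit 149) .nil)))))))) (.g (nat_lit 1) (.e (nat_lit 428690) (nat_lit 0) .nil) .nil)))))))) 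
(.nd (nat_lit 5) (.nd (nat_lit 6) (.nd (nat_lit 7) (.nd (nat_lit 8) (.nd (nat_lit 9) 
(.lf (nat_lit 603161) (.g (nat_lit 3844) (.e (nat_lit 655373) (nat_lit 3) (.e (nat_lit 163979) (nat_lit 30) (.e (nat_lit 573493) (nat_lit 15) (.e (nat_lit 81953) (nat_lit 22) (.e (nat_lit 90170) (nat_lit 13) (.e (nat_lit 172049) (nat_lit 0) (.e (nat_lit 3409) (nat_lit 212) .nil))))))) (.g (nat_lit 1) (.e (nat_lit 426271) (nat_lit 0) .nil) .nil))) 
(.lf (nat_lit 603673) (.g (nat_lit 2640) (.e (nat_lit 655378) (nat_lit 4) (.e (nat_lit 172120) (nat_lit 12) (.e (nat_lit 475198) (nat_lit 40) (.e (nat_lit 704598) (nat_lit 6) (.e (nat_lit 188439) (nat_lit 20) (.e (nat_lit 3409) (nat_lit 212) .nil)))))) (.g (nat_lit 1) (.e (nat_lit 427423) (nat_lit 0) .nil) .nil)))) (.nd (nat_lit 9) 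
(.lf (nat_lit 603417) (.g (nat_lit 3400) (.e (nat_lit 655375) (nat_lit 3) (.e (nat_lit 163979) (nat_lit 30) (.e (nat_lit 573485) (nat_lit 13) (.e (nat_lit 65619) (nat_lit 10) (.e (nat_lit 344117) (nat_lit 21) (.e (nat_lit 516151) (nat_lit 9) (.e (nat_lit 426043) (nat_lit 0) (.e (nat_lit 3406) (nat_lit 212) .nil)))))))) (.g (nat_lit 1) (.e (nat_lit 426783) (nat_lit 0) .nil) .nil))) 
(.lf (nat_lit 603929) (.g (nat_lit 1966) (.e (nat_lit 761894) (nat_lit 15) (.e (nat_lit 163979) (nat_lit 30) (.e (nat_lit 573489) (nat_lit 14) (.e (nat_lit 73755) (nat_lit 8) (.e (nat_lit 557097) (nat_lit 13) .nil))))) (.g (nat_lit 0) (.e (nat_lit 428182) (nat_lit 0) .nil) .nil))))) (.nd (nat_lit 8) (.nd (nat_lit 9) 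
(.lf (nat_lit 603289) (.g (nat_lit 627) (.e (nat_lit 655375) (nat_lit 3) (.e (nat_lit 163978) (nat_lit 30) (.e (nat_lit 573490) (nat_lit 15) .nil))) (.g (nat_lit 0) (.e (nat_lit 426452) (nat_lit 0) .nil) .nil))) 
(.lf (nat_lit 603801) (.g (nat_lit 2049) (.e (nat_lit 655380) (nat_lit 6) (.e (nat_lit 188434) (nat_lit 20) (.e (nat_lit 3409) (nat_lit 212) (.e (nat_lit 655380) (nat_lit 6) (.e (nat_lit 188440) (nat_lit 20) (.e (nat_lit 3408) (nat_lit 212) .nil)))))) (.g (nat_lit 1) (.e (nat_lit 427809) (nat_lit 0) .nil) .nil)))) (.nd (nat_lit 9) 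
(.lf (nat_lit 603545) (.g (nat_lit 1287) (.e (nat_lit 655376) (nat_lit 4) (.e (nat_lit 172126) (nat_lit 14) (.e (nat_lit 491550) (nat_lit 9) (.e (nat_lit 336430) (nat_lit 29) .nil)))) (.g (nat_lit 0) (.e (nat_lit 427038) (nat_lit 0) .nil) .nil))) 
(.lf (nat_lit 604057) (.g (nat_lit 1964) (.e (nat_lit 761898) (nat_lit 15) (.e (nat_lit 163978) (nat_lit 30) (.e (nat_lit 573487) (nat_lit 14) (.e (nat_lit 73753) (nat_lit 8) (.e (nat_lit 557098) (nat_lit 13) .nil))))) (.g (nat_lit 0) (.e (nat_lit 428599) (nat_lit 0) .nil) .nil)))))) (.nd (nat_lit 7) (.nd (nat_lit 8) (.nd (nat_lit 9) 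
(.lf (nat_lit 603225) (.g (nat_lit 4517) (.e (nat_lit 655375) (nat_lit 3) (.e (nat_lit 163978) (nat_lit 30) (.e (nat_lit 573479) (nat_lit 13) (.e (nat_lit 65604) (nat_lit 9) (.e (nat_lit 336028) (nat_lit 3) (.e (nat_lit 98359) (nat_lit 26) (.e (nat_lit 426043) (nat_lit 0) (.e (nat_lit 3409) (nat_lit 212) .nil)))))))) (.g (nat_lit 1) (.e (nat_lit 426381) (nat_lit 0) .nil) .nil))) 
(.lf (nat_lit 603737) (.g (nat_lit 3124) (.e (nat_lit 655378) (nat_lit 4) (.e (nat_lit 172126) (nat_lit 14) (.e (nat_lit 491550) (nat_lit 9) (.e (nat_lit 336430) (nat_lit 29) (.e (nat_lit 442409) (nat_lit 20) (.e (nat_lit 3407) (nat_lit 212) .nil)))))) (.g (nat_lit 1) (.e (nat_lit 427617) (nat_lit 0) .nil) .nil)))) (.nd (nat_lit 9) 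
(.lf (nat_lit 603481) (.g (nat_lit 4315) (.e (nat_lit 655375) (nat_lit 3) (.e (nat_lit 163979) (nat_lit 30) (.e (nat_lit 573492) (nat_lit 15) (.e (nat_lit 81956) (nat_lit 23) (.e (nat_lit 98362) (nat_lit 26) (.e (nat_lit 426033) (nat_lit 0) (.e (nat_lit 3408) (nat_lit 212) .nil))))))) (.g (nat_lit 1) (.e (nat_lit 426860) (nat_lit 0) .nil) .nil))) 
(.lf (nat_lit 603993) (.g (nat_lit 2443) (.e (nat_lit 761898) (nat_lit 15) (.e (nat_lit 163977) (nat_lit 30) (.e (nat_lit 573487) (nat_lit 14) (.e (nat_lit 73753) (nat_lit 8) (.e (nat_lit 557101) (nat_lit 13) (.e (nat_lit 172066) (nat_lit 3) (.e (nat_lit 204821) (nat_lit 17) (.e (nat_lit 2270) (nat_lit 149) .nil)))))))) (.g (nat_lit 1) (.e (nat_lit 428496) (nat_lit 0) .nil) .nil))))) 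
(.nd (nat_lit 8) (.nd (nat_lit 9) 
(.lf (nat_lit 603353) (.g (nat_lit 2427) (.e (nat_lit 655375) (nat_lit 3) (.e (nat_lit 163978) (nat_lit 30) (.e (nat_lit 573493) (nat_lit 15) (.e (nat_lit 81953) (nat_lit 22) (.e (nat_lit 90170) (nat_lit 13) (.e (nat_lit 172042) (nat_lit 0) (.e (nat_lit 3407) (nat_lit 212) .nil))))))) (.g (nat_lit 1) (.e (nat_lit 426659) (nat_lit 0) .nil) .nil))) 
(.lf (nat_lit 603865) (.g (nat_lit 1894) (.e (nat_lit 655395) (nat_lit 11) (.e (nat_lit 16448) (nat_lit 10) (.e (nat_lit 434268) (nat_lit 36) (.e (nat_lit 639021) (nat_lit 16) .nil)))) (.g (nat_lit 0) (.e (nat_lit 427931) (nat_lit 0) .nil) .nil)))) (.nd (nat_lit 9) 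
(.lf (nat_lit 603609) (.g (nat_lit 2680) (.e (nat_lit 655378) (nat_lit 4) (.e (nat_lit 172107) (nat_lit 10) (.e (nat_lit 434271) (nat_lit 38) (.e (nat_lit 655380) (nat_lit 6) (.e (nat_lit 188441) (nat_lit 20) (.e (nat_lit 3409) (nat_lit 212) .nil)))))) (.g (nat_lit 1) (.e (nat_lit 427320) (nat_lit 0) .nil) .nil))) 
(.lf (nat_lit 604121) (.g (nat_lit 4985) (.e (nat_lit 761898) (nat_lit 15) (.e (nat_lit 163978) (nat_lit 30) (.e (nat_lit 573489) (nat_lit 14) (.e (nat_lit 73755) (nat_lit 8) (.e (nat_lit 557098) (nat_lit 13) (.e (nat_lit 172067) (nat_lit 3) (.e (nat_lit 204817) (nat_lit 17) (.e (nat_lit 7936) (nat_lit 149) .nil)))))))) (.g (nat_lit 1) (.e (nat_lit 428673) (nat_lit 0) .nil) .nil))))))) 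
(.nd (nat_lit 6) (.nd (nat_lit 7) (.nd (nat_lit 8) (.nd (nat_lit 9) 
(.lf (nat_lit 603193) (.g (nat_lit 4089) (.e (nat_lit 655375) (nat_lit 3) (.e (nat_lit 163977) (nat_lit 30) (.e (nat_lit 573482) (nat_lit 13) (.e (nat_lit 65604) (nat_lit 9) (.e (nat_lit 336013) (nat_lit 2) (.e (nat_lit 90170) (nat_lit 13) (.e (nat_lit 172046) (nat_lit 0) (.e (nat_lit 3406) (nat_lit 212) .nil)))))))) (.g (nat_lit 1) (.e (nat_lit 426345) (nat_lit 0) .nil) .nil))) 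
(.lf (nat_lit 603705) (.g (nat_lit 462) (.e (nat_lit 655378) (nat_lit 4) (.e (nat_lit 172125) (nat_lit 14) (.e (nat_lit 491571) (nat_lit 13) .nil))) (.g (nat_lit 0) (.e (nat_lit 427491) (nat_lit 0) .nil) .nil)))) (.nd (nat_lit 9) 
(.lf (nat_lit 603449) (.g (nat_lit 4128) (.e (nat_lit 655375) (nat_lit 3) (.e (nat_lit 163979) (nat_lit 30) (.e (nat_lit 573492) (nat_lit 15) (.e (nat_lit 81956) (nat_lit 23) (.e (nat_lit 98356) (nat_lit 26) (.e (nat_lit 426066) (nat_lit 0) (.e (nat_lit 3403) (nat_lit 212) .nil))))))) (.g (nat_lit 1) (.e (nat_lit 426828) (nat_lit 0) .nil) .nil))) 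
(.lf (nat_lit 603961) (.g (nat_lit 3134) (.e (nat_lit 761897) (nat_lit 15) (.e (nat_lit 163978) (nat_lit 30) (.e (nat_lit 573489) (nat_lit 14) (.e (nat_lit 73755) (nat_lit 8) (.e (nat_lit 557097) (nat_lit 13) (.e (nat_lit 172066) (nat_lit 3) (.e (nat_lit 204821) (nat_lit 17) (.e (nat_lit 2270) (nat_lit 149) .nil)))))))) (.g (nat_lit 1) (.e (nat_lit 428393) (nat_lit 0) .nil) .nil))))) 
(.nd (nat_lit 8) (.nd (nat_lit 9) 
(.lf (nat_lit 603321) (.g (nat_lit 6102) (.e (nat_lit 655375) (nat_lit 3) (.e (nat_lit 163978) (nat_lit 30) (.e (nat_lit 573491) (nat_lit 15) (.e (nat_lit 81952) (nat_lit 22) (.e (nat_lit 90170) (nat_lit 13) (.e (nat_lit 172042) (nat_lit 0) (.e (nat_lit 3408) (nat_lit 212) .nil))))))) (.g (nat_lit 1) (.e (nat_lit 426542) (nat_lit 0) .nil) .nil))) 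
(.lf (nat_lit 603833) (.g (nat_lit 1228) (.e (nat_lit 655380) (nat_lit 6) (.e (nat_lit 188453) (nat_lit 24) (.e (nat_lit 229663) (nat_lit 240) (.e (nat_lit 2622) (nat_lit 164) .nil)))) (.g (nat_lit 0) (.e (nat_lit 427880) (nat_lit 0) .nil) .nil)))) (.nd (nat_lit 9) 
(.lf (nat_lit 603577) (.g (nat_lit 974) (.e (nat_lit 655378) (nat_lit 4) (.e (nat_lit 172097) (nat_lit 9) (.e (nat_lit 426025) (nat_lit 0) (.e (nat_lit 3399) (nat_lit 211) .nil)))) (.g (nat_lit 0) (.e (nat_lit 427257) (nat_lit 0) .nil) .nil))) 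
(.lf (nat_lit 604089) (.g (nat_lit 5200) (.e (nat_lit 761898) (nat_lit 15) (.e (nat_lit 163978) (nat_lit 30) (.e (nat_lit 573487) (nat_lit 14) (.e (nat_lit 73753) (nat_lit 8) (.e (nat_lit 557103) (nat_lit 14) (.e (nat_lit 180243) (nat_lit 5) (.e (nat_lit 532484) (nat_lit 0) (.e (nat_lit 7936) (nat_lit 149) .nil)))))))) (.g (nat_lit 1) (.e (nat_lit 428633) (nat_lit 0) .nil) .nil)))))) 
(.nd (nat_lit 7) (.nd (nat_lit 8) (.nd (nat_lit 9) 
(.lf (nat_lit 603257) (.g (nat_lit 3062) (.e (nat_lit 655375) (nat_lit 3) (.e (nat_lit 163978) (nat_lit 30) (.e (nat_lit 573482) (nat_lit 13) (.e (nat_lit 65604) (nat_lit 9) (.e (nat_lit 336013) (nat_lit 2) (.e (nat_lit 90170) (nat_lit 13) (.e (nat_lit 172042) (nat_lit 0) (.e (nat_lit 3407) (nat_lit 212) .nil)))))))) (.g (nat_lit 1) (.e (nat_lit 426414) (nat_lit 0) .nil) .nil))) 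
(.lf (nat_lit 603769) (.g (nat_lit 1526) (.e (nat_lit 655380) (nat_lit 6) (.e (nat_lit 188427) (nat_lit 20) (.e (nat_lit 3402) (nat_lit 211) (.e (nat_lit 647185) (nat_lit 6) (.e (nat_lit 188435) (nat_lit 20) (.e (nat_lit 3409) (nat_lit 212) .nil)))))) (.g (nat_lit 1) (.e (nat_lit 427760) (nat_lit 0) .nil) .nil)))) (.nd (nat_lit 9) 
(.lf (nat_lit 603513) (.g (nat_lit 4030) (.e (nat_lit 655375) (nat_lit 3) (.e (nat_lit 163979) (nat_lit 30) (.e (nat_lit 573493) (nat_lit 15) (.e (nat_lit 81954) (nat_lit 23) (.e (nat_lit 98366) (nat_lit 27) (.e (nat_lit 434271) (nat_lit 38) .nil)))))) (.g (nat_lit 1) (.e (nat_lit 426894) (nat_lit 0) .nil) .nil))) 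
(.lf (nat_lit 604025) (.g (nat_lit 2460) (.e (nat_lit 761898) (nat_lit 15) (.e (nat_lit 163977) (nat_lit 30) (.e (nat_lit 573489) (nat_lit 14) (.e (nat_lit 73755) (nat_lit 8) (.e (nat_lit 557097) (nat_lit 13) (.e (nat_lit 172067) (nat_lit 3) (.e (nat_lit 204818) (nat_lit 17) (.e (nat_lit 2271) (nat_lit 149) .nil)))))))) (.g (nat_lit 1) (.e (nat_lit 428534) (nat_lit 0) .nil) .nil))))) 
(.nd (nat_lit 8) (.nd (nat_lit 9) 
(.lf (nat_lit 603385) (.g (nat_lit 3646) (.e (nat_lit 655375) (nat_lit 3) (.e (nat_lit 163979) (nat_lit 30) (.e (nat_lit 573481) (nat_lit 13) (.e (nat_lit 65604) (nat_lit 9) (.e (nat_lit 336028) (nat_lit 3) (.e (nat_lit 98359) (nat_lit 26) (.e (nat_lit 426043) (nat_lit 0) (.e (nat_lit 3406) (nat_lit 212) .nil)))))))) (.g (nat_lit 1) (.e (nat_lit 426751) (nat_lit 0) .nil) .nil))) 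
(.lf (nat_lit 603897) (.g (nat_lit 2017) (.e (nat_lit 761866) (nat_lit 5) (.e (nat_lit 1454) (nat_lit 108) (.e (nat_lit 336028) (nat_lit 3) (.e (nat_lit 98373) (nat_lit 29) (.e (nat_lit 450586) (nat_lit 10) .nil))))) (.g (nat_lit 0) (.e (nat_lit 428027) (nat_lit 0) .nil) .nil)))) (.nd (nat_lit 9) 
(.lf (nat_lit 603641) (.g (nat_lit 388) (.e (nat_lit 655378) (nat_lit 4) (.e (nat_lit 172115) (nat_lit 10) (.e (nat_lit 434271) (nat_lit 38) .nil))) (.g (nat_lit 0) (.e (nat_lit 427372) (nat_lit 0) .nil) .nil))) 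
(.lf (nat_lit 604153) (.g (nat_lit 2399) (.e (nat_lit 761898) (nat_lit 15) (.e (nat_lit 163979) (nat_lit 30) (.e (nat_lit 573487) (nat_lit 14) (.e (nat_lit 73753) (nat_lit 8) (.e (nat_lit 557098) (nat_lit 13) (.e (nat_lit 172066) (nat_lit 3) (.e (nat_lit 204820) (nat_lit 17) (.e (nat_lit 7936) (nat_lit 149) .nil)))))))) (.g (nat_lit 1) (.e (nat_lit 428732) (nat_lit 0) .nil) .nil)))))))))) 
(.nd (nat_lit 3) (.nd (nat_lit 4) (.nd (nat_lit 5) (.nd (nat_lit 6) (.nd (nat_lit 7) 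
(.nd (nat_lit 8) (.nd (nat_lit 9) 
(.lf (nat_lit 603141) (.g (nat_lit 2286) (.e (nat_lit 655373) (nat_lit 3) (.e (nat_lit 163979) (nat_lit 30) (.e (nat_lit 573482) (nat_lit 13) (.e (nat_lit 65619) (nat_lit 10) (.e (nat_lit 344117) (nat_lit 21) (.e (nat_lit 516151) (nat_lit 9) (.e (nat_lit 426003) (nat_lit 0) (.e (nat_lit 3406) (nat_lit 212) .nil)))))))) (.g (nat_lit 1) (.e (nat_lit 426245) (nat_lit 0) .nil) .nil))) 
(.lf (nat_lit 603653) (.g (nat_lit 1624) (.e (nat_lit 655378) (nat_lit 4) (.e (nat_lit 172116) (nat_lit 10) (.e (nat_lit 434209) (nat_lit 18) (.e (nat_lit 5547) (nat_lit 306) (.e (nat_lit 2648) (nat_lit 166) .nil))))) (.g (nat_lit 0) (.e (nat_lit 427393) (nat_lit 0) .nil) .nil)))) (.nd (nat_lit 9) 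
(.lf (nat_lit 603397) (.g (nat_lit 4623) (.e (nat_lit 655375) (nat_lit 3) (.e (nat_lit 163979) (nat_lit 30) (.e (nat_lit 573482) (nat_lit 13) (.e (nat_lit 65604) (nat_lit 9) (.e (nat_lit 336013) (nat_lit 2) (.e (nat_lit 90170) (nat_lit 13) (.e (nat_lit 172046) (nat_lit 0) (.e (nat_lit 3406) (nat_lit 212) .nil)))))))) (.g (nat_lit 1) (.e (nat_lit 426763) (nat_lit 0) .nil) .nil))) 
(.lf (nat_lit 603909) (.g (nat_lit 3163) (.e (nat_lit 761893) (nat_lit 15) (.e (nat_lit 163978) (nat_lit 30) (.e (nat_lit 573489) (nat_lit 14) (.e (nat_lit 73755) (nat_lit 8) (.e (nat_lit 557103) (nat_lit 14) .nil))))) (.g (nat_lit 0) (.e (nat_lit 428096) (nat_lit 0) .nil) .nil))))) (.nd (nat_lit 8) (.nd (nat_lit 9) 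
(.lf (nat_lit 603269) (.g (nat_lit 2008) (.e (nat_lit 655375) (nat_lit 3) (.e (nat_lit 163978) (nat_lit 30) (.e (nat_lit 573483) (nat_lit 13) (.e (nat_lit 65604) (nat_lit 9) (.e (nat_lit 336028) (nat_lit 3) (.e (nat_lit 98359) (nat_lit 26) (.e (nat_lit 426043) (nat_lit 0) (.e (nat_lit 3407) (nat_lit 212) .nil)))))))) (.g (nat_lit 1) (.e (nat_lit 426426) (nat_lit 0) .nil) .nil))) 
(.lf (nat_lit 603781) (.g (nat_lit 2002) (.e (nat_lit 655380) (nat_lit 6) (.e (nat_lit 188434) (nat_lit 20) (.e (nat_lit 3406) (nat_lit 212) (.e (nat_lit 655380) (nat_lit 6) (.e (nat_lit 188434) (nat_lit 20) (.e (nat_lit 3409) (nat_lit 212) .nil)))))) (.g (nat_lit 1) (.e (nat_lit 427782) (nat_lit 0) .nil) .nil)))) (.nd (nat_lit 9) 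
(.lf (nat_lit 603525) (.g (nat_lit 1223) (.e (nat_lit 655376) (nat_lit 4) (.e (nat_lit 172119) (nat_lit 12) (.e (nat_lit 475199) (nat_lit 40) (.e (nat_lit 704598) (nat_lit 6) .nil)))) (.g (nat_lit 0) (.e (nat_lit 426973) (nat_lit 0) .nil) .nil))) 
(.lf (nat_lit 604037) (.g (nat_lit 2240) (.e (nat_lit 761898) (nat_lit 15) (.e (nat_lit 163977) (nat_lit 30) (.e (nat_lit 573489) (nat_lit 14) (.e (nat_lit 73755) (nat_lit 8) (.e (nat_lit 557103) (nat_lit 14) (.e (nat_lit 180244) (nat_lit 5) (.e (nat_lit 532491) (nat_lit 0) (.e (nat_lit 2270) (nat_lit 149) .nil)))))))) (.g (nat_lit 1) (.e (nat_lit 428550) (nat_lit 0) .nil) .nil)))))) 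
(.nd (nat_lit 7) (.nd (nat_lit 8) (.nd (nat_lit 9) 
(.lf (nat_lit 603205) (.g (nat_lit 3908) (.e (nat_lit 655375) (nat_lit 3) (.e (nat_lit 163977) (nat_lit 30) (.e (nat_lit 573493) (nat_lit 15) (.e (nat_lit 81951) (nat_lit 22) (.e (nat_lit 90170) (nat_lit 13) (.e (nat_lit 172049) (nat_lit 0) (.e (nat_lit 3407) (nat_lit 212) .nil))))))) (.g (nat_lit 1) (.e (nat_lit 426359) (nat_lit 0) .nil) .nil))) 
(.lf (nat_lit 603717) (.g (nat_lit 2827) (.e (nat_lit 655378) (nat_lit 4) (.e (nat_lit 172126) (nat_lit 14) (.e (nat_lit 491547) (nat_lit 9) (.e (nat_lit 336430) (nat_lit 29) (.e (nat_lit 442409) (nat_lit 20) (.e (nat_lit 3407) (nat_lit 212) .nil)))))) (.g (nat_lit 1) (.e (nat_lit 427584) (nat_lit 0) .nil) .nil)))) (.nd (nat_lit 9) 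
(.lf (nat_lit 603461) (.g (nat_lit 3354) (.e (nat_lit 655375) (nat_lit 3) (.e (nat_lit 163979) (nat_lit 30) (.e (nat_lit 573492) (nat_lit 15) (.e (nat_lit 81956) (nat_lit 23) (.e (nat_lit 98360) (nat_lit 26) (.e (nat_lit 426033) (nat_lit 0) (.e (nat_lit 3406) (nat_lit 212) .nil))))))) (.g (nat_lit 1) (.e (nat_lit 426840) (nat_lit 0) .nil) .nil))) 
(.lf (nat_lit 603973) (.g (nat_lit 2123) (.e (nat_lit 761898) (nat_lit 15) (.e (nat_lit 163977) (nat_lit 30) (.e (nat_lit 573487) (nat_lit 14) (.e (nat_lit 73753) (nat_lit 8) (.e (nat_lit 557096) (nat_lit 13) .nil))))) (.g (nat_lit 0) (.e (nat_lit 428475) (nat_lit 0) .nil) .nil))))) (.nd (nat_lit 8) (.nd (nat_lit 9) 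
(.lf (nat_lit 603333) (.g (nat_lit 2883) (.e (nat_lit 655375) (nat_lit 3) (.e (nat_lit 163978) (nat_lit 30) (.e (nat_lit 573491) (nat_lit 15) (.e (nat_lit 81954) (nat_lit 23) (.e (nat_lit 98359) (nat_lit 26) (.e (nat_lit 426043) (nat_lit 0) (.e (nat_lit 3406) (nat_lit 212) .nil))))))) (.g (nat_lit 1) (.e (nat_lit 426556) (nat_lit 0) .nil) .nil))) 
(.lf (nat_lit 603845) (.g (nat_lit 3373) (.e (nat_lit 655380) (nat_lit 6) (.e (nat_lit 188455) (nat_lit 24) (.e (nat_lit 229663) (nat_lit 240) (.e (nat_lit 2630) (nat_lit 164) (.e (nat_lit 172115) (nat_lit 10) .nil))))) (.g (nat_lit 0) (.e (nat_lit 427896) (nat_lit 0) .nil) .nil)))) (.nd (nat_lit 9) 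
(.lf (nat_lit 603589) (.g (nat_lit 2797) (.e (nat_lit 655378) (nat_lit 4) (.e (nat_lit 172106) (nat_lit 10) (.e (nat_lit 434209) (nat_lit 18) (.e (nat_lit 5548) (nat_lit 306) (.e (nat_lit 2650) (nat_lit 166) (.e (nat_lit 188435) (nat_lit 20) (.e (nat_lit 3409) (nat_lit 212) .nil))))))) (.g (nat_lit 1) (.e (nat_lit 427292) (nat_lit 0) .nil) .nil))) 
(.lf (nat_lit 604101) (.g (nat_lit 2278) (.e (nat_lit 761898) (nat_lit 15) (.e (nat_lit 163978) (nat_lit 30) (.e (nat_lit 573489) (nat_lit 14) (.e (nat_lit 73754) (nat_lit 8) (.e (nat_lit 557101) (nat_lit 13) .nil))))) (.g (nat_lit 0) (.e (nat_lit 428646) (nat_lit 0) .nil) .nil))))))) (.nd (nat_lit 6) (.nd (nat_lit 7) (.nd (nat_lit 8) (.nd (nat_lit 9) 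
(.lf (nat_lit 603173) (.g (nat_lit 2081) (.e (nat_lit 655374) (nat_lit 3) (.e (nat_lit 163979) (nat_lit 30) (.e (nat_lit 573482) (nat_lit 13) (.e (nat_lit 65604) (nat_lit 9) (.e (nat_lit 336013) (nat_lit 2) (.e (nat_lit 90170) (nat_lit 13) (.e (nat_lit 172049) (nat_lit 0) (.e (nat_lit 3403) (nat_lit 212) .nil)))))))) (.g (nat_lit 1) (.e (nat_lit 426301) (nat_lit 0) .nil) .nil))) 
(.lf (nat_lit 603685) (.g (nat_lit 2454) (.e (nat_lit 655378) (nat_lit 4) (.e (nat_lit 172120) (nat_lit 12) (.e (nat_lit 475211) (nat_lit 41) (.e (nat_lit 712752) (nat_lit 29) (.e (nat_lit 442411) (nat_lit 20) .nil))))) (.g (nat_lit 0) (.e (nat_lit 427441) (nat_lit 0) .nil) .nil)))) (.nd (nat_lit 9) 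
(.lf (nat_lit 603429) (.g (nat_lit 3410) (.e (nat_lit 655375) (nat_lit 3) (.e (nat_lit 163979) (nat_lit 30) (.e (nat_lit 573492) (nat_lit 15) (.e (nat_lit 81951) (nat_lit 22) (.e (nat_lit 90170) (nat_lit 13) (.e (nat_lit 172042) (nat_lit 0) (.e (nat_lit 3406) (nat_lit 212) .nil))))))) (.g (nat_lit 1) (.e (nat_lit 426798) (nat_lit 0) .nil) .nil))) 
(.lf (nat_lit 603941) (.g (nat_lit 3326) (.e (nat_lit 761895) (nat_lit 15) (.e (nat_lit 163978) (nat_lit 30) (.e (nat_lit 573489) (nat_lit 14) (.e (nat_lit 73755) (nat_lit 8) (.e (nat_lit 557103) (nat_lit 14) .nil))))) (.g (nat_lit 0) (.e (nat_lit 428244) (nat_lit 0) .nil) .nil))))) (.nd (nat_lit 8) (.nd (nat_lit 9) 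
(.lf (nat_lit 603301) (.g (nat_lit 3658) (.e (nat_lit 655375) (nat_lit 3) (.e (nat_lit 163978) (nat_lit 30) (.e (nat_lit 573490) (nat_lit 15) (.e (nat_lit 81953) (nat_lit 22) (.e (nat_lit 90170) (nat_lit 13) (.e (nat_lit 172042) (nat_lit 0) (.e (nat_lit 3409) (nat_lit 212) .nil))))))) (.g (nat_lit 1) (.e (nat_lit 426464) (nat_lit 0) .nil) .nil))) 
(.lf (nat_lit 603813) (.g (nat_lit 1488) (.e (nat_lit 655380) (nat_lit 6) (.e (nat_lit 188440) (nat_lit 20) (.e (nat_lit 3408) (nat_lit 212) (.e (nat_lit 655380) (nat_lit 6) (.e (nat_lit 188440) (nat_lit 20) (.e (nat_lit 3408) (nat_lit 212) .nil)))))) (.g (nat_lit 1) (.e (nat_lit 427821) (nat_lit 0) .nil) .nil)))) (.nd (nat_lit 9) 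
(.lf (nat_lit 603557) (.g (nat_lit 2242) (.e (nat_lit 655378) (nat_lit 4) (.e (nat_lit 172039) (nat_lit 0) (.e (nat_lit 6989) (nat_lit 377) (.e (nat_lit 2777) (nat_lit 178) (.e (nat_lit 286771) (nat_lit 29) (.e (nat_lit 442409) (nat_lit 20) (.e (nat_lit 3409) (nat_lit 212) .nil))))))) (.g (nat_lit 1) (.e (nat_lit 427197) (nat_lit 0) .nil) .nil))) 
(.lf (nat_lit 604069) (.g (nat_lit 4263) (.e (nat_lit 761898) (nat_lit 15) (.e (nat_lit 163978) (nat_lit 30) (.e (nat_lit 573487) (nat_lit 14) (.e (nat_lit 73753) (nat_lit 8) (.e (nat_lit 557098) (nat_lit 13) (.e (nat_lit 172067) (nat_lit 3) (.e (nat_lit 204817) (nat_lit 17) (.e (nat_lit 7936) (nat_lit 149) .nil)))))))) (.g (nat_lit 1) (.e (nat_lit 428611) (nat_lit 0) .nil) .nil)))))) 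
(.nd (nat_lit 7) (.nd (nat_lit 8) (.nd (nat_lit 9) 
(.lf (nat_lit 603237) (.g (nat_lit 3196) (.e (nat_lit 655375) (nat_lit 3) (.e (nat_lit 163978) (nat_lit 30) (.e (nat_lit 573480) (nat_lit 13) (.e (nat_lit 65604) (nat_lit 9) (.e (nat_lit 336013) (nat_lit 2) (.e (nat_lit 90170) (nat_lit 13) (.e (nat_lit 172049) (nat_lit 0) (.e (nat_lit 3409) (nat_lit 212) .nil)))))))) (.g (nat_lit 1) (.e (nat_lit 426393) (nat_lit 0) .nil) .nil))) 
(.lf (nat_lit 603749) (.g (nat_lit 2962) (.e (nat_lit 655378) (nat_lit 4) (.e (nat_lit 172126) (nat_lit 14) (.e (nat_lit 491569) (nat_lit 13) (.e (nat_lit 393280) (nat_lit 23) .nil)))) (.g (nat_lit 0) (.e (nat_lit 427663) (nat_lit 0) .nil) .nil)))) (.nd (nat_lit 9) 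
(.lf (nat_lit 603493) (.g (nat_lit 5264) (.e (nat_lit 655375) (nat_lit 3) (.e (nat_lit 163979) (nat_lit 30) (.e (nat_lit 573492) (nat_lit 15) (.e (nat_lit 81956) (nat_lit 23) (.e (nat_lit 98365) (nat_lit 26) (.e (nat_lit 426009) (nat_lit 0) (.e (nat_lit 3412) (nat_lit 212) .nil))))))) (.g (nat_lit 1) (.e (nat_lit 426872) (nat_lit 0) .nil) .nil))) 
(.lf (nat_lit 604005) (.g (nat_lit 2448) (.e (nat_lit 761898) (nat_lit 15) (.e (nat_lit 163977) (nat_lit 30) (.e (nat_lit 573489) (nat_lit 14) (.e (nat_lit 73754) (nat_lit 8) (.e (nat_lit 557101) (nat_lit 13) (.e (nat_lit 172067) (nat_lit 3) (.e (nat_lit 204815) (nat_lit 17) (.e (nat_lit 2271) (nat_lit 149) .nil)))))))) (.g (nat_lit 1) (.e (nat_lit 428509) (nat_lit 0) .nil) .nil))))) 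
(.nd (nat_lit 8) (.nd (nat_lit 9) 
(.lf (nat_lit 603365) (.g (nat_lit 4080) (.e (nat_lit 655375) (nat_lit 3) (.e (nat_lit 163978) (nat_lit 30) (.e (nat_lit 573493) (nat_lit 15) (.e (nat_lit 81956) (nat_lit 23) (.e (nat_lit 98359) (nat_lit 26) (.e (nat_lit 426043) (nat_lit 0) (.e (nat_lit 3407) (nat_lit 212) .nil))))))) (.g (nat_lit 1) (.e (nat_lit 426690) (nat_lit 0) .nil) .nil))) 
(.lf (nat_lit 603877) (.g (nat_lit 1534) (.e (nat_lit 753673) (nat_lit 5) (.e (nat_lit 3098) (nat_lit 192) (.e (nat_lit 491568) (nat_lit 13) (.e (nat_lit 393301) (nat_lit 27) .nil)))) (.g (nat_lit 0) (.e (nat_lit 427953) (nat_lit 0) .nil) .nil)))) (.nd (nat_lit 9) 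
(.lf (nat_lit 603621) (.g (nat_lit 1907) (.e (nat_lit 655378) (nat_lit 4) (.e (nat_lit 172112) (nat_lit 10) (.e (nat_lit 434272) (nat_lit 38) (.e (nat_lit 655380) (nat_lit 6) (.e (nat_lit 188435) (nat_lit 20) (.e (nat_lit 3409) (nat_lit 212) .nil)))))) (.g (nat_lit 1) (.e (nat_lit 427332) (nat_lit 0) .nil) .nil))) 
(.lf (nat_lit 604133) (.g (nat_lit 3656) (.e (nat_lit 761898) (nat_lit 15) (.e (nat_lit 163978) (nat_lit 30) (.e (nat_lit 573489) (nat_lit 14) (.e (nat_lit 73755) (nat_lit 8) (.e (nat_lit 557104) (nat_lit 14) (.e (nat_lit 180244) (nat_lit 5) (.e (nat_lit 532491) (nat_lit 0) (.e (nat_lit 2270) (nat_lit 149) .nil)))))))) (.g (nat_lit 1) (.e (nat_lit 428685) (nat_lit 0) .nil) .nil)))))))) 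
(.nd (nat_lit 5) (.nd (nat_lit 6) (.nd (nat_lit 7) (.nd (nat_lit 8) (.nd (nat_lit 9) 
(.lf (nat_lit 603157) (.g (nat_lit 3776) (.e (nat_lit 655373) (nat_lit 3) (.e (nat_lit 163979) (nat_lit 30) (.e (nat_lit 573493) (nat_lit 15) (.e (nat_lit 81953) (nat_lit 22) (.e (nat_lit 90170) (nat_lit 13) (.e (nat_lit 172046) (nat_lit 0) (.e (nat_lit 3406) (nat_lit 212) .nil))))))) (.g (nat_lit 1) (.e (nat_lit 426267) (nat_lit 0) .nil) .nil))) 
(.lf (nat_lit 603669) (.g (nat_lit 1483) (.e (nat_lit 655378) (nat_lit 4) (.e (nat_lit 172120) (nat_lit 12) (.e (nat_lit 475197) (nat_lit 40) (.e (nat_lit 704522) (nat_lit 0) .nil)))) (.g (nat_lit 0) (.e (nat_lit 427415) (nat_lit 0) .nil) .nil)))) (.nd (nat_lit 9) 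
(.lf (nat_lit 603413) (.g (nat_lit 2962) (.e (nat_lit 655375) (nat_lit 3) (.e (nat_lit 163979) (nat_lit 30) (.e (nat_lit 573485) (nat_lit 13) (.e (nat_lit 65604) (nat_lit 9) (.e (nat_lit 336028) (nat_lit 3) (.e (nat_lit 98359) (nat_lit 26) (.e (nat_lit 426043) (nat_lit 0) (.e (nat_lit 3409) (nat_lit 212) .nil)))))))) (.g (nat_lit 1) (.e (nat_lit 426779) (nat_lit 0) .nil) .nil))) 
(.lf (nat_lit 603925) (.g (nat_lit 3053) (.e (nat_lit 761894) (nat_lit 15) (.e (nat_lit 163979) (nat_lit 30) (.e (nat_lit 573487) (nat_lit 14) (.e (nat_lit 73753) (nat_lit 8) (.e (nat_lit 557101) (nat_lit 13) (.e (nat_lit 172065) (nat_lit 3) (.e (nat_lit 204817) (nat_lit 17) (.e (nat_lit 7936) (nat_lit 149) .nil)))))))) (.g (nat_lit 1) (.e (nat_lit 428178) (nat_lit 0) .nil) .nil))))) 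
(.nd (nat_lit 8) (.nd (nat_lit 9) 
(.lf (nat_lit 603285) (.g (nat_lit 2005) (.e (nat_lit 655375) (nat_lit 3) (.e (nat_lit 163978) (nat_lit 30) (.e (nat_lit 573485) (nat_lit 13) (.e (nat_lit 65604) (nat_lit 9) (.e (nat_lit 336028) (nat_lit 3) .nil))))) (.g (nat_lit 0) (.e (nat_lit 426443) (nat_lit 0) .nil) .nil))) 
(.lf (nat_lit 603797) (.g (nat_lit 1497) (.e (nat_lit 655380) (nat_lit 6) (.e (nat_lit 188434) (nat_lit 20) (.e (nat_lit 3409) (nat_lit 212) (.e (nat_lit 655380) (nat_lit 6) (.e (nat_lit 188438) (nat_lit 20) (.e (nat_lit 3409) (nat_lit 212) .nil)))))) (.g (nat_lit 1) (.e (nat_lit 427805) (nat_lit 0) .nil) .nil)))) (.nd (nat_lit 9) 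
(.lf (nat_lit 603541) (.g (nat_lit 675) (.e (nat_lit 655376) (nat_lit 4) (.e (nat_lit 172124) (nat_lit 14) (.e (nat_lit 491550) (nat_lit 9) .nil))) (.g (nat_lit 0) (.e (nat_lit 426999) (nat_lit 0) .nil) .nil))) 
(.lf (nat_lit 604053) (.g (nat_lit 1423) (.e (nat_lit 761898) (nat_lit 15) (.e (nat_lit 163978) (nat_lit 30) (.e (nat_lit 573487) (nat_lit 14) (.e (nat_lit 73753) (nat_lit 8) .nil)))) (.g (nat_lit 0) (.e (nat_lit 428595) (nat_lit 0) .nil) .nil)))))) (.nd (nat_lit 7) (.nd (nat_lit 8) (.nd (nat_lit 9) 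
(.lf (nat_lit 603221) (.g (nat_lit 2522) (.e (nat_lit 655375) (nat_lit 3) (.e (nat_lit 163978) (nat_lit 30) (.e (nat_lit 573479) (nat_lit 13) (.e (nat_lit 65604) (nat_lit 9) (.e (nat_lit 336028) (nat_lit 3) .nil))))) (.g (nat_lit 0) (.e (nat_lit 426377) (nat_lit 0) .nil) .nil))) 
(.lf (nat_lit 603733) (.g (nat_lit 1080) (.e (nat_lit 655378) (nat_lit 4) (.e (nat_lit 172126) (nat_lit 14) (.e (nat_lit 491550) (nat_lit 9) (.e (nat_lit 336430) (nat_lit 29) .nil)))) (.g (nat_lit 0) (.e (nat_lit 427613) (nat_lit 0) .nil) .nil)))) (.nd (nat_lit 9) 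
(.lf (nat_lit 603477) (.g (nat_lit 3256) (.e (nat_lit 655375) (nat_lit 3) (.e (nat_lit 163979) (nat_lit 30) (.e (nat_lit 573492) (nat_lit 15) (.e (nat_lit 81956) (nat_lit 23) (.e (nat_lit 98360) (nat_lit 26) (.e (nat_lit 426048) (nat_lit 0) (.e (nat_lit 3407) (nat_lit 212) .nil))))))) (.g (nat_lit 1) (.e (nat_lit 426856) (nat_lit 0) .nil) .nil))) 
(.lf (nat_lit 603989) (.g (nat_lit 2481) (.e (nat_lit 761898) (nat_lit 15) (.e (nat_lit 163977) (nat_lit 30) (.e (nat_lit 573487) (nat_lit 14) (.e (nat_lit 73753) (nat_lit 8) (.e (nat_lit 557101) (nat_lit 13) (.e (nat_lit 172065) (nat_lit 3) (.e (nat_lit 204821) (nat_lit 17) (.e (nat_lit 2270) (nat_lit 149) .nil)))))))) (.g (nat_lit 1) (.e (nat_lit 428492) (nat_lit 0) .nil) .nil))))) 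
(.nd (nat_lit 8) (.nd (nat_lit 9) 
(.lf (nat_lit 603349) (.g (nat_lit 3154) (.e (nat_lit 655375) (nat_lit 3) (.e (nat_lit 163978) (nat_lit 30) (.e (nat_lit 573493) (nat_lit 15) (.e (nat_lit 81951) (nat_lit 22) (.e (nat_lit 90170) (nat_lit 13) (.e (nat_lit 172042) (nat_lit 0) (.e (nat_lit 3409) (nat_lit 212) .nil))))))) (.g (nat_lit 1) (.e (nat_lit 426652) (nat_lit 0) .nil) .nil))) 
(.lf (nat_lit 603861) (.g (nat_lit 2433) (.e (nat_lit 655380) (nat_lit 6) (.e (nat_lit 188455) (nat_lit 24) (.e (nat_lit 229680) (nat_lit 244) (.e (nat_lit 163923) (nat_lit 15) (.e (nat_lit 450593) (nat_lit 16) .nil))))) (.g (nat_lit 1) (.e (nat_lit 427917) (nat_lit 0) .nil) .nil)))) (.nd (nat_lit 9) 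
(.lf (nat_lit 603605) (.g (nat_lit 2304) (.e (nat_lit 655378) (nat_lit 4) (.e (nat_lit 172107) (nat_lit 10) (.e (nat_lit 434271) (nat_lit 38) (.e (nat_lit 655380) (nat_lit 6) (.e (nat_lit 188434) (nat_lit 20) (.e (nat_lit 3406) (nat_lit 212) .nil)))))) (.g (nat_lit 1) (.e (nat_lit 427316) (nat_lit 0) .nil) .nil))) 
(.lf (nat_lit 604117) (.g (nat_lit 3403) (.e (nat_lit 761898) (nat_lit 15) (.e (nat_lit 163978) (nat_lit 30) (.e (nat_lit 573489) (nat_lit 14) (.e (nat_lit 73755) (nat_lit 8) (.e (nat_lit 557097) (nat_lit 13) (.e (nat_lit 172067) (nat_lit 3) (.e (nat_lit 204821) (nat_lit 17) (.e (nat_lit 7936) (nat_lit 149) .nil)))))))) (.g (nat_lit 1) (.e (nat_lit 428666) (nat_lit 0) .nil) .nil))))))) 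
(.nd (nat_lit 6) (.nd (nat_lit 7) (.nd (nat_lit 8) (.nd (nat_lit 9) 
(.lf (nat_lit 603189) (.g (nat_lit 2925) (.e (nat_lit 655375) (nat_lit 3) (.e (nat_lit 163977) (nat_lit 30) (.e (nat_lit 573481) (nat_lit 13) (.e (nat_lit 65619) (nat_lit 10) (.e (nat_lit 344117) (nat_lit 21) (.e (nat_lit 516151) (nat_lit 9) (.e (nat_lit 426043) (nat_lit 0) (.e (nat_lit 3407) (nat_lit 212) .nil)))))))) (.g (nat_lit 1) (.e (nat_lit 426341) (nat_lit 0) .nil) .nil))) 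
(.lf (nat_lit 603701) (.g (nat_lit 2730) (.e (nat_lit 655378) (nat_lit 4) (.e (nat_lit 172125) (nat_lit 14) (.e (nat_lit 491550) (nat_lit 9) (.e (nat_lit 336430) (nat_lit 29) (.e (nat_lit 442409) (nat_lit 20) (.e (nat_lit 3408) (nat_lit 212) .nil)))))) (.g (nat_lit 1) (.e (nat_lit 427478) (nat_lit 0) .nil) .nil)))) (.nd (nat_lit 9) 
(.lf (nat_lit 603445) (.g (nat_lit 2225) (.e (nat_lit 655375) (nat_lit 3) (.e (nat_lit 163979) (nat_lit 30) (.e (nat_lit 573492) (nat_lit 15) (.e (nat_lit 81956) (nat_lit 23) (.e (nat_lit 98355) (nat_lit 26) (.e (nat_lit 426093) (nat_lit 0) (.e (nat_lit 3407) (nat_lit 212) .nil))))))) (.g (nat_lit 1) (.e (nat_lit 426824) (nat_lit 0) .nil) .nil))) 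
(.lf (nat_lit 603957) (.g (nat_lit 3824) (.e (nat_lit 761897) (nat_lit 15) (.e (nat_lit 163978) (nat_lit 30) (.e (nat_lit 573489) (nat_lit 14) (.e (nat_lit 73755) (nat_lit 8) (.e (nat_lit 557096) (nat_lit 13) (.e (nat_lit 172067) (nat_lit 3) (.e (nat_lit 204817) (nat_lit 17) (.e (nat_lit 7936) (nat_lit 149) .nil)))))))) (.g (nat_lit 1) (.e (nat_lit 428389) (nat_lit 0) .nil) .nil))))) 
(.nd (nat_lit 8) (.nd (nat_lit 9) 
(.lf (nat_lit 603317) (.g (nat_lit 3783) (.e (nat_lit 655375) (nat_lit 3) (.e (nat_lit 163978) (nat_lit 30) (.e (nat_lit 573491) (nat_lit 15) (.e (nat_lit 81952) (nat_lit 22) (.e (nat_lit 90168) (nat_lit 13) .nil))))) (.g (nat_lit 0) (.e (nat_lit 426538) (nat_lit 0) .nil) .nil))) 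
(.lf (nat_lit 603829) (.g (nat_lit 1829) (.e (nat_lit 655380) (nat_lit 6) (.e (nat_lit 188445) (nat_lit 21) (.e (nat_lit 164347) (nat_lit 240) (.e (nat_lit 2648) (nat_lit 166) (.e (nat_lit 188440) (nat_lit 20) (.e (nat_lit 3409) (nat_lit 212) .nil)))))) (.g (nat_lit 1) (.e (nat_lit 427850) (nat_lit 0) .nil) .nil)))) (.nd (nat_lit 9) 
(.lf (nat_lit 603573) (.g (nat_lit 983) (.e (nat_lit 655378) (nat_lit 4) (.e (nat_lit 172095) (nat_lit 9) (.e (nat_lit 426025) (nat_lit 0) (.e (nat_lit 3397) (nat_lit 211) .nil)))) (.g (nat_lit 0) (.e (nat_lit 427251) (nat_lit 0) .nil) .nil))) 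
(.lf (nat_lit 604085) (.g (nat_lit 3438) (.e (nat_lit 761898) (nat_lit 15) (.e (nat_lit 163978) (nat_lit 30) (.e (nat_lit 573487) (nat_lit 14) (.e (nat_lit 73753) (nat_lit 8) (.e (nat_lit 557101) (nat_lit 13) (.e (nat_lit 172067) (nat_lit 3) (.e (nat_lit 204815) (nat_lit 17) (.e (nat_lit 2271) (nat_lit 149) .nil)))))))) (.g (nat_lit 1) (.e (nat_lit 428628) (nat_lit 0) .nil) .nil)))))) 
(.nd (nat_lit 7) (.nd (nat_lit 8) (.nd (nat_lit 9) 
(.lf (nat_lit 603253) (.g (nat_lit 3394) (.e (nat_lit 655375) (nat_lit 3) (.e (nat_lit 163978) (nat_lit 30) (.e (nat_lit 573481) (nat_lit 13) (.e (nat_lit 65619) (nat_lit 10) (.e (nat_lit 344117) (nat_lit 21) (.e (nat_lit 516159) (nat_lit 10) (.e (nat_lit 434271) (nat_lit 38) .nil))))))) (.g (nat_lit 1) (.e (nat_lit 426410) (nat_lit 0) .nil) .nil))) 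
(.lf (nat_lit 603765) (.g (nat_lit 1855) (.e (nat_lit 655380) (nat_lit 6) (.e (nat_lit 188418) (nat_lit 0) (.e (nat_lit 2059) (nat_lit 142) (.e (nat_lit 704598) (nat_lit 6) (.e (nat_lit 188439) (nat_lit 20) (.e (nat_lit 3409) (nat_lit 212) .nil)))))) (.g (nat_lit 1) (.e (nat_lit 427752) (nat_lit 0) .nil) .nil)))) (.nd (nat_lit 9) 
(.lf (nat_lit 603509) (.g (nat_lit 3370) (.e (nat_lit 655375) (nat_lit 3) (.e (nat_lit 163979) (nat_lit 30) (.e (nat_lit 573493) (nat_lit 15) (.e (nat_lit 81954) (nat_lit 23) (.e (nat_lit 98359) (nat_lit 26) .nil))))) (.g (nat_lit 0) (.e (nat_lit 426890) (nat_lit 0) .nil) .nil))) 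
(.lf (nat_lit 604021) (.g (nat_lit 3055) (.e (nat_lit 761898) (nat_lit 15) (.e (nat_lit 163977) (nat_lit 30) (.e (nat_lit 573489) (nat_lit 14) (.e (nat_lit 73755) (nat_lit 8) (.e (nat_lit 557097) (nat_lit 13) (.e (nat_lit 172067) (nat_lit 3) (.e (nat_lit 204816) (nat_lit 17) (.e (nat_lit 2273) (nat_lit 149) .nil)))))))) (.g (nat_lit 1) (.e (nat_lit 428530) (nat_lit 0) .nil) .nil))))) 
(.nd (nat_lit 8) (.nd (nat_lit 9) 
(.lf (nat_lit 603381) (.g (nat_lit 3890) (.e (nat_lit 655375) (nat_lit 3) (.e (nat_lit 163979) (nat_lit 30) (.e (nat_lit 573481) (nat_lit 13) (.e (nat_lit 65604) (nat_lit 9) (.e (nat_lit 336013) (nat_lit 2) (.e (nat_lit 90170) (nat_lit 13) (.e (nat_lit 172049) (nat_lit 0) (.e (nat_lit 3406) (nat_lit 212) .nil)))))))) (.g (nat_lit 1) (.e (nat_lit 426747) (nat_lit 0) .nil) .nil))) 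
(.lf (nat_lit 603893) (.g (nat_lit 3371) (.e (nat_lit 753695) (nat_lit 13) (.e (nat_lit 1234) (nat_lit 91) (.e (nat_lit 90170) (nat_lit 13) (.e (nat_lit 172106) (nat_lit 10) (.e (nat_lit 434231) (nat_lit 23) .nil))))) (.g (nat_lit 0) (.e (nat_lit 428016) (nat_lit 0) .nil) .nil)))) (.nd (nat_lit 9) 
(.lf (nat_lit 603637) (.g (nat_lit 2565) (.e (nat_lit 655378) (nat_lit 4) (.e (nat_lit 172115) (nat_lit 10) (.e (nat_lit 434209) (nat_lit 18) (.e (nat_lit 5548) (nat_lit 306) (.e (nat_lit 2649) (nat_lit 166) (.e (nat_lit 188434) (nat_lit 20) (.e (nat_lit 3409) (nat_lit 212) .nil))))))) (.g (nat_lit 1) (.e (nat_lit 427364) (nat_lit 0) .nil) .nil))) 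
(.lf (nat_lit 604149) (.g (nat_lit 2348) (.e (nat_lit 761898) (nat_lit 15) (.e (nat_lit 163979) (nat_lit 30) (.e (nat_lit 573487) (nat_lit 14) (.e (nat_lit 73753) (nat_lit 8) (.e (nat_lit 557097) (nat_lit 13) (.e (nat_lit 172067) (nat_lit 3) (.e (nat_lit 204815) (nat_lit 17) (.e (nat_lit 2271) (nat_lit 149) .nil)))))))) (.g (nat_lit 1) (.e (nat_lit 428728) (nat_lit 0) .nil) .nil))))))))) 
(.nd (nat_lit 4) (.nd (nat_lit 5) (.nd (nat_lit 6) (.nd (nat_lit 7) (.nd (nat_lit 8) 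
(.nd (nat_lit 9) 
(.lf (nat_lit 603149) (.g (nat_lit 3268) (.e (nat_lit 655373) (nat_lit 3) (.e (nat_lit 163979) (nat_lit 30) (.e (nat_lit 573493) (nat_lit 15) (.e (nat_lit 81951) (nat_lit 22) (.e (nat_lit 90170) (nat_lit 13) .nil))))) (.g (nat_lit 0) (.e (nat_lit 426258) (nat_lit 0) .nil) .nil))) 
(.lf (nat_lit 603661) (.g (nat_lit 2939) (.e (nat_lit 655378) (nat_lit 4) (.e (nat_lit 172118) (nat_lit 12) (.e (nat_lit 475198) (nat_lit 40) (.e (nat_lit 704599) (nat_lit 6) (.e (nat_lit 188440) (nat_lit 20) (.e (nat_lit 3409) (nat_lit 212) .nil)))))) (.g (nat_lit 1) (.e (nat_lit 427407) (nat_lit 0) .nil) .nil)))) (.nd (nat_lit 9) 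
(.lf (nat_lit 603405) (.g (nat_lit 2918) (.e (nat_lit 655375) (nat_lit 3) (.e (nat_lit 163979) (nat_lit 30) (.e (nat_lit 573485) (nat_lit 13) (.e (nat_lit 65604) (nat_lit 9) (.e (nat_lit 336013) (nat_lit 2) (.e (nat_lit 90170) (nat_lit 13) (.e (nat_lit 172046) (nat_lit 0) (.e (nat_lit 3406) (nat_lit 212) .nil)))))))) (.g (nat_lit 1) (.e (nat_lit 426771) (nat_lit 0) .nil) .nil))) 
(.lf (nat_lit 603917) (.g (nat_lit 3375) (.e (nat_lit 761894) (nat_lit 15) (.e (nat_lit 163978) (nat_lit 30) (.e (nat_lit 573489) (nat_lit 14) (.e (nat_lit 73755) (nat_lit 8) (.e (nat_lit 557097) (nat_lit 13) .nil))))) (.g (nat_lit 0) (.e (nat_lit 428152) (nat_lit 0) .nil) .nil))))) (.nd (nat_lit 8) (.nd (nat_lit 9) 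
(.lf (nat_lit 603277) (.g (nat_lit 3424) (.e (nat_lit 655375) (nat_lit 3) (.e (nat_lit 163978) (nat_lit 30) (.e (nat_lit 573483) (nat_lit 13) (.e (nat_lit 65619) (nat_lit 10) (.e (nat_lit 344117) (nat_lit 21) (.e (nat_lit 516159) (nat_lit 10) (.e (nat_lit 434272) (nat_lit 38) .nil))))))) (.g (nat_lit 1) (.e (nat_lit 426434) (nat_lit 0) .nil) .nil))) 
(.lf (nat_lit 603789) (.g (nat_lit 1412) (.e (nat_lit 655380) (nat_lit 6) (.e (nat_lit 188434) (nat_lit 20) (.e (nat_lit 3408) (nat_lit 212) (.e (nat_lit 655380) (nat_lit 6) (.e (nat_lit 188438) (nat_lit 20) (.e (nat_lit 3409) (nat_lit 212) .nil)))))) (.g (nat_lit 1) (.e (nat_lit 427793) (nat_lit 0) .nil) .nil)))) (.nd (nat_lit 9) 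
(.lf (nat_lit 603533) (.g (nat_lit 1315) (.e (nat_lit 655376) (nat_lit 4) (.e (nat_lit 172120) (nat_lit 12) (.e (nat_lit 475199) (nat_lit 40) (.e (nat_lit 704598) (nat_lit 6) .nil)))) (.g (nat_lit 0) (.e (nat_lit 426982) (nat_lit 0) .nil) .nil))) 
(.lf (nat_lit 604045) (.g (nat_lit 2172) (.e (nat_lit 761898) (nat_lit 15) (.e (nat_lit 163977) (nat_lit 30) (.e (nat_lit 573489) (nat_lit 14) (.e (nat_lit 73755) (nat_lit 8) (.e (nat_lit 557104) (nat_lit 14) (.e (nat_lit 180244) (nat_lit 5) (.e (nat_lit 532484) (nat_lit 0) (.e (nat_lit 2272) (nat_lit 149) .nil)))))))) (.g (nat_lit 1) (.e (nat_lit 428559) (nat_lit 0) .nil) .nil)))))) 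
(.nd (nat_lit 7) (.nd (nat_lit 8) (.nd (nat_lit 9) 
(.lf (nat_lit 603213) (.g (nat_lit 2860) (.e (nat_lit 655375) (nat_lit 3) (.e (nat_lit 163977) (nat_lit 30) (.e (nat_lit 573493) (nat_lit 15) (.e (nat_lit 81956) (nat_lit 23) (.e (nat_lit 98359) (nat_lit 26) (.e (nat_lit 426041) (nat_lit 0) (.e (nat_lit 3406) (nat_lit 212) .nil))))))) (.g (nat_lit 1) (.e (nat_lit 426369) (nat_lit 0) .nil) .nil))) 
(.lf (nat_lit 603725) (.g (nat_lit 3194) (.e (nat_lit 655378) (nat_lit 4) (.e (nat_lit 172126) (nat_lit 14) (.e (nat_lit 491549) (nat_lit 9) (.e (nat_lit 336430) (nat_lit 29) (.e (nat_lit 442409) (nat_lit 20) (.e (nat_lit 3406) (nat_lit 212) .nil)))))) (.g (nat_lit 1) (.e (nat_lit 427605) (nat_lit 0) .nil) .nil)))) (.nd (nat_lit 9) 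
(.lf (nat_lit 603469) (.g (nat_lit 3249) (.e (nat_lit 655375) (nat_lit 3) (.e (nat_lit 163979) (nat_lit 30) (.e (nat_lit 573492) (nat_lit 15) (.e (nat_lit 81956) (nat_lit 23) (.e (nat_lit 98360) (nat_lit 26) (.e (nat_lit 426041) (nat_lit 0) (.e (nat_lit 3407) (nat_lit 212) .nil))))))) (.g (nat_lit 1) (.e (nat_lit 426848) (nat_lit 0) .nil) .nil))) 
(.lf (nat_lit 603981) (.g (nat_lit 4331) (.e (nat_lit 761898) (nat_lit 15) (.e (nat_lit 163977) (nat_lit 30) (.e (nat_lit 573487) (nat_lit 14) (.e (nat_lit 73753) (nat_lit 8) (.e (nat_lit 557098) (nat_lit 13) (.e (nat_lit 172065) (nat_lit 3) (.e (nat_lit 204817) (nat_lit 17) (.e (nat_lit 7936) (nat_lit 149) .nil)))))))) (.g (nat_lit 1) (.e (nat_lit 428483) (nat_lit 0) .nil) .nil))))) 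
(.nd (nat_lit 8) (.nd (nat_lit 9) 
(.lf (nat_lit 603341) (.g (nat_lit 4439) (.e (nat_lit 655375) (nat_lit 3) (.e (nat_lit 163978) (nat_lit 30) (.e (nat_lit 573491) (nat_lit 15) (.e (nat_lit 81956) (nat_lit 23) (.e (nat_lit 98359) (nat_lit 26) (.e (nat_lit 426043) (nat_lit 0) (.e (nat_lit 3408) (nat_lit 212) .nil))))))) (.g (nat_lit 1) (.e (nat_lit 426564) (nat_lit 0) .nil) .nil))) 
(.lf (nat_lit 603853) (.g (nat_lit 2207) (.e (nat_lit 655380) (nat_lit 6) (.e (nat_lit 188455) (nat_lit 24) (.e (nat_lit 229665) (nat_lit 240) (.e (nat_lit 2653) (nat_lit 166) (.e (nat_lit 188440) (nat_lit 20) (.e (nat_lit 3408) (nat_lit 212) .nil)))))) (.g (nat_lit 1) (.e (nat_lit 427906) (nat_lit 0) .nil) .nil)))) (.nd (nat_lit 9) 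
(.lf (nat_lit 603597) (.g (nat_lit 2822) (.e (nat_lit 655378) (nat_lit 4) (.e (nat_lit 172106) (nat_lit 10) (.e (nat_lit 434272) (nat_lit 38) (.e (nat_lit 655380) (nat_lit 6) (.e (nat_lit 188434) (nat_lit 20) (.e (nat_lit 3409) (nat_lit 212) .nil)))))) (.g (nat_lit 1) (.e (nat_lit 427308) (nat_lit 0) .nil) .nil))) 
(.lf (nat_lit 604109) (.g (nat_lit 2785) (.e (nat_lit 761898) (nat_lit 15) (.e (nat_lit 163978) (nat_lit 30) (.e (nat_lit 573489) (nat_lit 14) (.e (nat_lit 73755) (nat_lit 8) (.e (nat_lit 557096) (nat_lit 13) (.e (nat_lit 172067) (nat_lit 3) (.e (nat_lit 204817) (nat_lit 17) (.e (nat_lit 2272) (nat_lit 149) .nil)))))))) (.g (nat_lit 1) (.e (nat_lit 428657) (nat_lit 0) .nil) .nil))))))) 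
(.nd (nat_lit 6) (.nd (nat_lit 7) (.nd (nat_lit 8) (.nd (nat_lit 9) 
(.lf (nat_lit 603181) (.g (nat_lit 3105) (.e (nat_lit 655375) (nat_lit 3) (.e (nat_lit 163973) (nat_lit 30) (.e (nat_lit 573479) (nat_lit 13) (.e (nat_lit 65619) (nat_lit 10) (.e (nat_lit 344117) (nat_lit 21) (.e (nat_lit 516151) (nat_lit 9) (.e (nat_lit 426043) (nat_lit 0) (.e (nat_lit 3408) (nat_lit 212) .nil)))))))) (.g (nat_lit 1) (.e (nat_lit 426324) (nat_lit 0) .nil) .nil))) 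
(.lf (nat_lit 603693) (.g (nat_lit 2870) (.e (nat_lit 655378) (nat_lit 4) (.e (nat_lit 172124) (nat_lit 14) (.e (nat_lit 491549) (nat_lit 9) (.e (nat_lit 336430) (nat_lit 29) (.e (nat_lit 442409) (nat_lit 20) (.e (nat_lit 3408) (nat_lit 212) .nil)))))) (.g (nat_lit 1) (.e (nat_lit 427458) (nat_lit 0) .nil) .nil)))) (.nd (nat_lit 9) 
(.lf (nat_lit 603437) (.g (nat_lit 4418) (.e (nat_lit 655375) (nat_lit 3) (.e (nat_lit 163979) (nat_lit 30) (.e (nat_lit 573492) (nat_lit 15) (.e (nat_lit 81953) (nat_lit 22) (.e (nat_lit 90170) (nat_lit 13) (.e (nat_lit 172049) (nat_lit 0) (.e (nat_lit 3407) (nat_lit 212) .nil))))))) (.g (nat_lit 1) (.e (nat_lit 426806) (nat_lit 0) .nil) .nil))) 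
(.lf (nat_lit 603949) (.g (nat_lit 2903) (.e (nat_lit 761897) (nat_lit 15) (.e (nat_lit 163977) (nat_lit 30) (.e (nat_lit 573489) (nat_lit 14) (.e (nat_lit 73755) (nat_lit 8) (.e (nat_lit 557098) (nat_lit 13) .nil))))) (.g (nat_lit 0) (.e (nat_lit 428365) (nat_lit 0) .nil) .nil))))) (.nd (nat_lit 8) (.nd (nat_lit 9) 
(.lf (nat_lit 603309) (.g (nat_lit 3827) (.e (nat_lit 655375) (nat_lit 3) (.e (nat_lit 163978) (nat_lit 30) (.e (nat_lit 573490) (nat_lit 15) (.e (nat_lit 81956) (nat_lit 23) (.e (nat_lit 98359) (nat_lit 26) (.e (nat_lit 426042) (nat_lit 0) (.e (nat_lit 3409) (nat_lit 212) .nil))))))) (.g (nat_lit 1) (.e (nat_lit 426473) (nat_lit 0) .nil) .nil))) 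
(.lf (nat_lit 603821) (.g (nat_lit 1842) (.e (nat_lit 655380) (nat_lit 6) (.e (nat_lit 188441) (nat_lit 20) (.e (nat_lit 3409) (nat_lit 212) (.e (nat_lit 655380) (nat_lit 6) (.e (nat_lit 188435) (nat_lit 20) (.e (nat_lit 3408) (nat_lit 212) .nil)))))) (.g (nat_lit 1) (.e (nat_lit 427832) (nat_lit 0) .nil) .nil)))) (.nd (nat_lit 9) 
(.lf (nat_lit 603565) (.g (nat_lit 1227) (.e (nat_lit 655378) (nat_lit 4) (.e (nat_lit 172088) (nat_lit 9) (.e (nat_lit 426025) (nat_lit 0) (.e (nat_lit 3397) (nat_lit 211) (.e (nat_lit 647185) (nat_lit 6) .nil))))) (.g (nat_lit 0) (.e (nat_lit 427234) (nat_lit 0) .nil) .nil))) 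
(.lf (nat_lit 604077) (.g (nat_lit 2187) (.e (nat_lit 761898) (nat_lit 15) (.e (nat_lit 163978) (nat_lit 30) (.e (nat_lit 573487) (nat_lit 14) (.e (nat_lit 73753) (nat_lit 8) (.e (nat_lit 557101) (nat_lit 13) .nil))))) (.g (nat_lit 0) (.e (nat_lit 428620) (nat_lit 0) .nil) .nil)))))) (.nd (nat_lit 7) (.nd (nat_lit 8) (.nd (nat_lit 9) 
(.lf (nat_lit 603245) (.g (nat_lit 4280) (.e (nat_lit 655375) (nat_lit 3) (.e (nat_lit 163978) (nat_lit 30) (.e (nat_lit 573481) (nat_lit 13) (.e (nat_lit 65604) (nat_lit 9) (.e (nat_lit 336013) (nat_lit 2) (.e (nat_lit 90170) (nat_lit 13) (.e (nat_lit 172049) (nat_lit 0) (.e (nat_lit 3408) (nat_lit 212) .nil)))))))) (.g (nat_lit 1) (.e (nat_lit 426402) (nat_lit 0) .nil) .nil))) 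
(.lf (nat_lit 603757) (.g (nat_lit 2140) (.e (nat_lit 655378) (nat_lit 4) (.e (nat_lit 172126) (nat_lit 14) (.e (nat_lit 491571) (nat_lit 13) (.e (nat_lit 393275) (nat_lit 23) .nil)))) (.g (nat_lit 0) (.e (nat_lit 427706) (nat_lit 0) .nil) .nil)))) (.nd (nat_lit 9) 
(.lf (nat_lit 603501) (.g (nat_lit 4033) (.e (nat_lit 655375) (nat_lit 3) (.e (nat_lit 163979) (nat_lit 30) (.e (nat_lit 573493) (nat_lit 15) (.e (nat_lit 81951) (nat_lit 22) (.e (nat_lit 90170) (nat_lit 13) (.e (nat_lit 172046) (nat_lit 0) (.e (nat_lit 3406) (nat_lit 212) .nil))))))) (.g (nat_lit 1) (.e (nat_lit 426882) (nat_lit 0) .nil) .nil))) 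
(.lf (nat_lit 604013) (.g (nat_lit 4402) (.e (nat_lit 761898) (nat_lit 15) (.e (nat_lit 163977) (nat_lit 30) (.e (nat_lit 573489) (nat_lit 14) (.e (nat_lit 73755) (nat_lit 8) (.e (nat_lit 557097) (nat_lit 13) (.e (nat_lit 172065) (nat_lit 3) (.e (nat_lit 204817) (nat_lit 17) (.e (nat_lit 7936) (nat_lit 149) .nil)))))))) (.g (nat_lit 1) (.e (nat_lit 428522) (nat_lit 0) .nil) .nil))))) 
(.nd (nat_lit 8) (.nd (nat_lit 9) 
(.lf (nat_lit 603373) (.g (nat_lit 2310) (.e (nat_lit 655375) (nat_lit 3) (.e (nat_lit 163978) (nat_lit 30) (.e (nat_lit 573493) (nat_lit 15) (.e (nat_lit 81956) (nat_lit 23) (.e (nat_lit 98367) (nat_lit 27) .nil))))) (.g (nat_lit 0) (.e (nat_lit 426698) (nat_lit 0) .nil) .nil))) 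
(.lf (nat_lit 603885) (.g (nat_lit 3757) (.e (nat_lit 753674) (nat_lit 5) (.e (nat_lit 3098) (nat_lit 192) (.e (nat_lit 491569) (nat_lit 13) (.e (nat_lit 393301) (nat_lit 27) (.e (nat_lit 491560) (nat_lit 10) (.e (nat_lit 344170) (nat_lit 41) .nil)))))) (.g (nat_lit 1) (.e (nat_lit 427966) (nat_lit 0) .nil) .nil)))) (.nd (nat_lit 9) 
(.lf (nat_lit 603629) (.g (nat_lit 2110) (.e (nat_lit 655378) (nat_lit 4) (.e (nat_lit 172113) (nat_lit 10) (.e (nat_lit 434271) (nat_lit 38) (.e (nat_lit 655380) (nat_lit 6) (.e (nat_lit 188435) (nat_lit 20) (.e (nat_lit 3409) (nat_lit 212) .nil)))))) (.g (nat_lit 1) (.e (nat_lit 427346) (nat_lit 0) .nil) .nil))) 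
(.lf (nat_lit 604141) (.g (nat_lit 2023) (.e (nat_lit 761898) (nat_lit 15) (.e (nat_lit 163978) (nat_lit 30) (.e (nat_lit 573489) (nat_lit 14) (.e (nat_lit 73755) (nat_lit 8) (.e (nat_lit 557105) (nat_lit 14) (.e (nat_lit 180245) (nat_lit 5) (.e (nat_lit 532490) (nat_lit 0) (.e (nat_lit 7936) (nat_lit 149) .nil)))))))) (.g (nat_lit 1) (.e (nat_lit 428694) (nat_lit 0) .nil) .nil)))))))) 
(.nd (nat_lit 5) (.nd (nat_lit 6) (.nd (nat_lit 7) (.nd (nat_lit 8) (.nd (nat_lit 9) 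
(.lf (nat_lit 603165) (.g (nat_lit 2009) (.e (nat_lit 655374) (nat_lit 3) (.e (nat_lit 163978) (nat_lit 30) (.e (nat_lit 573479) (nat_lit 13) (.e (nat_lit 65619) (nat_lit 10) .nil)))) (.g (nat_lit 0) (.e (nat_lit 426290) (nat_lit 0) .nil) .nil))) 
(.lf (nat_lit 603677) (.g (nat_lit 893) (.e (nat_lit 655378) (nat_lit 4) (.e (nat_lit 172120) (nat_lit 12) (.e (nat_lit 475199) (nat_lit 40) (.e (nat_lit 704598) (nat_lit 6) .nil)))) (.g (nat_lit 0) (.e (nat_lit 427427) (nat_lit 0) .nil) .nil)))) (.nd (nat_lit 9) 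
(.lf (nat_lit 603421) (.g (nat_lit 2387) (.e (nat_lit 655375) (nat_lit 3) (.e (nat_lit 163979) (nat_lit 30) (.e (nat_lit 573491) (nat_lit 15) (.e (nat_lit 81951) (nat_lit 22) (.e (nat_lit 90170) (nat_lit 13) (.e (nat_lit 172042) (nat_lit 0) (.e (nat_lit 3407) (nat_lit 212) .nil))))))) (.g (nat_lit 1) (.e (nat_lit 426787) (nat_lit 0) .nil) .nil))) 
(.lf (nat_lit 603933) (.g (nat_lit 4293) (.e (nat_lit 761894) (nat_lit 15) (.e (nat_lit 163979) (nat_lit 30) (.e (nat_lit 573489) (nat_lit 14) (.e (nat_lit 73755) (nat_lit 8) (.e (nat_lit 557104) (nat_lit 14) (.e (nat_lit 180244) (nat_lit 5) (.e (nat_lit 532484) (nat_lit 0) (.e (nat_lit 7936) (nat_lit 149) .nil)))))))) (.g (nat_lit 1) (.e (nat_lit 428186) (nat_lit 0) .nil) .nil))))) 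
(.nd (nat_lit 8) (.nd (nat_lit 9) 
(.lf (nat_lit 603293) (.g (nat_lit 4961) (.e (nat_lit 655375) (nat_lit 3) (.e (nat_lit 163978) (nat_lit 30) (.e (nat_lit 573490) (nat_lit 15) (.e (nat_lit 81951) (nat_lit 22) (.e (nat_lit 90170) (nat_lit 13) (.e (nat_lit 172042) (nat_lit 0) (.e (nat_lit 3408) (nat_lit 212) .nil))))))) (.g (nat_lit 1) (.e (nat_lit 426456) (nat_lit 0) .nil) .nil))) 
(.lf (nat_lit 603805) (.g (nat_lit 1106) (.e (nat_lit 655380) (nat_lit 6) (.e (nat_lit 188435) (nat_lit 20) (.e (nat_lit 3409) (nat_lit 212) (.e (nat_lit 655380) (nat_lit 6) (.e (nat_lit 188435) (nat_lit 20) (.e (nat_lit 3409) (nat_lit 212) .nil)))))) (.g (nat_lit 1) (.e (nat_lit 427813) (nat_lit 0) .nil) .nil)))) (.nd (nat_lit 9) 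
(.lf (nat_lit 603549) (.g (nat_lit 2490) (.e (nat_lit 655376) (nat_lit 4) (.e (nat_lit 172126) (nat_lit 14) (.e (nat_lit 491550) (nat_lit 9) (.e (nat_lit 336430) (nat_lit 29) (.e (nat_lit 442409) (nat_lit 20) (.e (nat_lit 3408) (nat_lit 212) .nil)))))) (.g (nat_lit 1) (.e (nat_lit 427042) (nat_lit 0) .nil) .nil))) 
(.lf (nat_lit 604061) (.g (nat_lit 4742) (.e (nat_lit 761898) (nat_lit 15) (.e (nat_lit 163978) (nat_lit 30) (.e (nat_lit 573487) (nat_lit 14) (.e (nat_lit 73753) (nat_lit 8) (.e (nat_lit 557098) (nat_lit 13) (.e (nat_lit 172065) (nat_lit 3) (.e (nat_lit 204817) (nat_lit 17) (.e (nat_lit 7936) (nat_lit 149) .nil)))))))) (.g (nat_lit 1) (.e (nat_lit 428603) (nat_lit 0) .nil) .nil)))))) 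
(.nd (nat_lit 7) (.nd (nat_lit 8) (.nd (nat_lit 9) 
(.lf (nat_lit 603229) (.g (nat_lit 3889) (.e (nat_lit 655375) (nat_lit 3) (.e (nat_lit 163978) (nat_lit 30) (.e (nat_lit 573479) (nat_lit 13) (.e (nat_lit 65619) (nat_lit 10) (.e (nat_lit 344117) (nat_lit 21) (.e (nat_lit 516151) (nat_lit 9) (.e (nat_lit 426047) (nat_lit 0) (.e (nat_lit 3409) (nat_lit 212) .nil)))))))) (.g (nat_lit 1) (.e (nat_lit 426385) (nat_lit 0) .nil) .nil))) 
(.lf (nat_lit 603741) (.g (nat_lit 3472) (.e (nat_lit 655378) (nat_lit 4) (.e (nat_lit 172126) (nat_lit 14) (.e (nat_lit 491550) (nat_lit 9) (.e (nat_lit 336432) (nat_lit 30) (.e (nat_lit 450593) (nat_lit 16) .nil))))) (.g (nat_lit 1) (.e (nat_lit 427621) (nat_lit 0) .nil) .nil)))) (.nd (nat_lit 9) 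
(.lf (nat_lit 603485) (.g (nat_lit 4761) (.e (nat_lit 655375) (nat_lit 3) (.e (nat_lit 163979) (nat_lit 30) (.e (nat_lit 573492) (nat_lit 15) (.e (nat_lit 81956) (nat_lit 23) (.e (nat_lit 98362) (nat_lit 26) (.e (nat_lit 426045) (nat_lit 0) (.e (nat_lit 3409) (nat_lit 212) .nil))))))) (.g (nat_lit 1) (.e (nat_lit 426864) (nat_lit 0) .nil) .nil))) 
(.lf (nat_lit 603997) (.g (nat_lit 2270) (.e (nat_lit 761898) (nat_lit 15) (.e (nat_lit 163977) (nat_lit 30) (.e (nat_lit 573489) (nat_lit 14) (.e (nat_lit 73754) (nat_lit 8) (.e (nat_lit 557095) (nat_lit 13) .nil))))) (.g (nat_lit 0) (.e (nat_lit 428501) (nat_lit 0) .nil) .nil))))) (.nd (nat_lit 8) (.nd (nat_lit 9) 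
(.lf (nat_lit 603357) (.g (nat_lit 2835) (.e (nat_lit 655375) (nat_lit 3) (.e (nat_lit 163978) (nat_lit 30) (.e (nat_lit 573493) (nat_lit 15) (.e (nat_lit 81953) (nat_lit 22) (.e (nat_lit 90170) (nat_lit 13) (.e (nat_lit 172049) (nat_lit 0) (.e (nat_lit 3409) (nat_lit 212) .nil))))))) (.g (nat_lit 1) (.e (nat_lit 426663) (nat_lit 0) .nil) .nil))) 
(.lf (nat_lit 603869) (.g (nat_lit 556) (.e (nat_lit 753670) (nat_lit 5) (.e (nat_lit 3098) (nat_lit 192) (.e (nat_lit 491568) (nat_lit 13) .nil))) (.g (nat_lit 0) (.e (nat_lit 427943) (nat_lit 0) .nil) .nil)))) (.nd (nat_lit 9) 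
(.lf (nat_lit 603613) (.g (nat_lit 2021) (.e (nat_lit 655378) (nat_lit 4) (.e (nat_lit 172107) (nat_lit 10) (.e (nat_lit 434272) (nat_lit 38) (.e (nat_lit 655380) (nat_lit 6) (.e (nat_lit 188439) (nat_lit 20) (.e (nat_lit 3408) (nat_lit 212) .nil)))))) (.g (nat_lit 1) (.e (nat_lit 427324) (nat_lit 0) .nil) .nil))) 
(.lf (nat_lit 604125) (.g (nat_lit 3067) (.e (nat_lit 761898) (nat_lit 15) (.e (nat_lit 163978) (nat_lit 30) (.e (nat_lit 573489) (nat_lit 14) (.e (nat_lit 73755) (nat_lit 8) (.e (nat_lit 557103) (nat_lit 14) (.e (nat_lit 180244) (nat_lit 5) (.e (nat_lit 532480) (nat_lit 0) (.e (nat_lit 2270) (nat_lit 149) .nil)))))))) (.g (nat_lit 1) (.e (nat_lit 428677) (nat_lit 0) .nil) .nil))))))) 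
(.nd (nat_lit 6) (.nd (nat_lit 7) (.nd (nat_lit 8) (.nd (nat_lit 9) 
(.lf (nat_lit 603197) (.g (nat_lit 2096) (.e (nat_lit 655375) (nat_lit 3) (.e (nat_lit 163977) (nat_lit 30) (.e (nat_lit 573491) (nat_lit 15) (.e (nat_lit 81951) (nat_lit 22) (.e (nat_lit 90170) (nat_lit 13) (.e (nat_lit 172042) (nat_lit 0) (.e (nat_lit 3407) (nat_lit 212) .nil))))))) (.g (nat_lit 1) (.e (nat_lit 426349) (nat_lit 0) .nil) .nil))) 
(.lf (nat_lit 603709) (.g (nat_lit 2378) (.e (nat_lit 655378) (nat_lit 4) (.e (nat_lit 172125) (nat_lit 14) (.e (nat_lit 491571) (nat_lit 13) (.e (nat_lit 393232) (nat_lit 17) (.e (nat_lit 7306) (nat_lit 388) .nil))))) (.g (nat_lit 0) (.e (nat_lit 427497) (nat_lit 0) .nil) .nil)))) (.nd (nat_lit 9) 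
(.lf (nat_lit 603453) (.g (nat_lit 3369) (.e (nat_lit 655375) (nat_lit 3) (.e (nat_lit 163979) (nat_lit 30) (.e (nat_lit 573492) (nat_lit 15) (.e (nat_lit 81956) (nat_lit 23) (.e (nat_lit 98356) (nat_lit 26) (.e (nat_lit 426089) (nat_lit 0) (.e (nat_lit 3403) (nat_lit 212) .nil))))))) (.g (nat_lit 1) (.e (nat_lit 426832) (nat_lit 0) .nil) .nil))) 
(.lf (nat_lit 603965) (.g (nat_lit 2497) (.e (nat_lit 761897) (nat_lit 15) (.e (nat_lit 163979) (nat_lit 30) (.e (nat_lit 573489) (nat_lit 14) (.e (nat_lit 73754) (nat_lit 8) (.e (nat_lit 557101) (nat_lit 13) .nil))))) (.g (nat_lit 0) (.e (nat_lit 428432) (nat_lit 0) .nil) .nil))))) (.nd (nat_lit 8) (.nd (nat_lit 9) 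
(.lf (nat_lit 603325) (.g (nat_lit 2125) (.e (nat_lit 655375) (nat_lit 3) (.e (nat_lit 163978) (nat_lit 30) (.e (nat_lit 573491) (nat_lit 15) (.e (nat_lit 81953) (nat_lit 22) (.e (nat_lit 90170) (nat_lit 13) .nil))))) (.g (nat_lit 0) (.e (nat_lit 426548) (nat_lit 0) .nil) .nil))) 
(.lf (nat_lit 603837) (.g (nat_lit 2322) (.e (nat_lit 655380) (nat_lit 6) (.e (nat_lit 188453) (nat_lit 24) (.e (nat_lit 229665) (nat_lit 240) (.e (nat_lit 2630) (nat_lit 164) (.e (nat_lit 172113) (nat_lit 10) (.e (nat_lit 434271) (nat_lit 38) .nil)))))) (.g (nat_lit 1) (.e (nat_lit 427884) (nat_lit 0) .nil) .nil)))) (.nd (nat_lit 9) 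
(.lf (nat_lit 603581) (.g (nat_lit 1576) (.e (nat_lit 655378) (nat_lit 4) (.e (nat_lit 172106) (nat_lit 10) (.e (nat_lit 434209) (nat_lit 18) (.e (nat_lit 5546) (nat_lit 306) (.e (nat_lit 2648) (nat_lit 166) .nil))))) (.g (nat_lit 0) (.e (nat_lit 427268) (nat_lit 0) .nil) .nil))) 
(.lf (nat_lit 604093) (.g (nat_lit 4053) (.e (nat_lit 761898) (nat_lit 15) (.e (nat_lit 163978) (nat_lit 30) (.e (nat_lit 573487) (nat_lit 14) (.e (nat_lit 73753) (nat_lit 8) (.e (nat_lit 557103) (nat_lit 14) (.e (nat_lit 180244) (nat_lit 5) (.e (nat_lit 532484) (nat_lit 0) (.e (nat_lit 7936) (nat_lit 149) .nil)))))))) (.g (nat_lit 1) (.e (nat_lit 428637) (nat_lit 0) .nil) .nil)))))) 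
(.nd (nat_lit 7) (.nd (nat_lit 8) (.nd (nat_lit 9) 
(.lf (nat_lit 603261) (.g (nat_lit 3971) (.e (nat_lit 655375) (nat_lit 3) (.e (nat_lit 163978) (nat_lit 30) (.e (nat_lit 573482) (nat_lit 13) (.e (nat_lit 65604) (nat_lit 9) (.e (nat_lit 336028) (nat_lit 3) (.e (nat_lit 98359) (nat_lit 26) (.e (nat_lit 426043) (nat_lit 0) (.e (nat_lit 3409) (nat_lit 212) .nil)))))))) (.g (nat_lit 1) (.e (nat_lit 426418) (nat_lit 0) .nil) .nil))) 
(.lf (nat_lit 603773) (.g (nat_lit 1974) (.e (nat_lit 655380) (nat_lit 6) (.e (nat_lit 188428) (nat_lit 20) (.e (nat_lit 3402) (nat_lit 211) (.e (nat_lit 647185) (nat_lit 6) (.e (nat_lit 188441) (nat_lit 20) (.e (nat_lit 3409) (nat_lit 212) .nil)))))) (.g (nat_lit 1) (.e (nat_lit 427769) (nat_lit 0) .nil) .nil)))) (.nd (nat_lit 9) 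
(.lf (nat_lit 603517) (.g (nat_lit 2921) (.e (nat_lit 655375) (nat_lit 3) (.e (nat_lit 163979) (nat_lit 30) (.e (nat_lit 573493) (nat_lit 15) (.e (nat_lit 81956) (nat_lit 23) (.e (nat_lit 98359) (nat_lit 26) (.e (nat_lit 426039) (nat_lit 0) (.e (nat_lit 3406) (nat_lit 212) .nil))))))) (.g (nat_lit 1) (.e (nat_lit 426898) (nat_lit 0) .nil) .nil))) 
(.lf (nat_lit 604029) (.g (nat_lit 3624) (.e (nat_lit 761898) (nat_lit 15) (.e (nat_lit 163977) (nat_lit 30) (.e (nat_lit 573489) (nat_lit 14) (.e (nat_lit 73755) (nat_lit 8) (.e (nat_lit 557097) (nat_lit 13) (.e (nat_lit 172067) (nat_lit 3) (.e (nat_lit 204821) (nat_lit 17) (.e (nat_lit 7936) (nat_lit 149) .nil)))))))) (.g (nat_lit 1) (.e (nat_lit 428538) (nat_lit 0) .nil) .nil))))) 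
(.nd (nat_lit 8) (.nd (nat_lit 9) 
(.lf (nat_lit 603389) (.g (nat_lit 5270) (.e (nat_lit 655375) (nat_lit 3) (.e (nat_lit 163979) (nat_lit 30) (.e (nat_lit 573481) (nat_lit 13) (.e (nat_lit 65619) (nat_lit 10) (.e (nat_lit 344117) (nat_lit 21) (.e (nat_lit 516151) (nat_lit 9) (.e (nat_lit 426042) (nat_lit 0) (.e (nat_lit 3409) (nat_lit 212) .nil)))))))) (.g (nat_lit 1) (.e (nat_lit 426755) (nat_lit 0) .nil) .nil))) 
(.lf (nat_lit 603901) (.g (nat_lit 2013) (.e (nat_lit 761867) (nat_lit 5) (.e (nat_lit 1633) (nat_lit 114) (.e (nat_lit 385068) (nat_lit 26) (.e (nat_lit 532536) (nat_lit 9) .nil)))) (.g (nat_lit 0) (.e (nat_lit 428035) (nat_lit 0) .nil) .nil)))) (.nd (nat_lit 9) 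
(.lf (nat_lit 603645) (.g (nat_lit 2223) (.e (nat_lit 655378) (nat_lit 4) (.e (nat_lit 172115) (nat_lit 10) (.e (nat_lit 434272) (nat_lit 38) (.e (nat_lit 655380) (nat_lit 6) (.e (nat_lit 188435) (nat_lit 20) (.e (nat_lit 3409) (nat_lit 212) .nil)))))) (.g (nat_lit 1) (.e (nat_lit 427384) (nat_lit 0) .nil) .nil))) 
(.lf (nat_lit 604157) (.g (nat_lit 2478) (.e (nat_lit 761898) (nat_lit 15) (.e (nat_lit 163979) (nat_lit 30) (.e (nat_lit 573487) (nat_lit 14) (.e (nat_lit 73753) (nat_lit 8) (.e (nat_lit 557101) (nat_lit 13) .nil))))) (.g (nat_lit 0) (.e (nat_lit 428737) (nat_lit 0) .nil) .nil))))))))))) 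
(.nd (nat_lit 2) (.nd (nat_lit 3) (.nd (nat_lit 4) (.nd (nat_lit 5) (.nd (nat_lit 6) 
(.nd (nat_lit 7) (.nd (nat_lit 8) (.nd (nat_lit 9) 
(.lf (nat_lit 603139) (.g (nat_lit 4335) (.e (nat_lit 655373) (nat_lit 3) (.e (nat_lit 163979) (nat_lit 30) (.e (nat_lit 573482) (nat_lit 13) (.e (nat_lit 65604) (nat_lit 9) (.e (nat_lit 336013) (nat_lit 2) (.e (nat_lit 90170) (nat_lit 13) (.e (nat_lit 172049) (nat_lit 0) (.e (nat_lit 3409) (nat_lit 212) .nil)))))))) (.g (nat_lit 1) (.e (nat_lit 426243) (nat_lit 0) .nil) .nil))) 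
(.lf (nat_lit 603651) (.g (nat_lit 2251) (.e (nat_lit 655378) (nat_lit 4) (.e (nat_lit 172115) (nat_lit 10) (.e (nat_lit 434272) (nat_lit 38) (.e (nat_lit 655380) (nat_lit 6) (.e (nat_lit 188441) (nat_lit 20) (.e (nat_lit 3406) (nat_lit 212) .nil)))))) (.g (nat_lit 1) (.e (nat_lit 427390) (nat_lit 0) .nil) .nil)))) (.nd (nat_lit 9) 
(.lf (nat_lit 603395) (.g (nat_lit 2370) (.e (nat_lit 655375) (nat_lit 3) (.e (nat_lit 163979) (nat_lit 30) (.e (nat_lit 573482) (nat_lit 13) (.e (nat_lit 65604) (nat_lit 9) (.e (nat_lit 336013) (nat_lit 2) (.e (nat_lit 90170) (nat_lit 13) (.e (nat_lit 172032) (nat_lit 0) (.e (nat_lit 3406) (nat_lit 212) .nil)))))))) (.g (nat_lit 1) (.e (nat_lit 426761) (nat_lit 0) .nil) .nil))) 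
(.lf (nat_lit 603907) (.g (nat_lit 3430) (.e (nat_lit 761893) (nat_lit 15) (.e (nat_lit 163978) (nat_lit 30) (.e (nat_lit 573489) (nat_lit 14) (.e (nat_lit 73755) (nat_lit 8) (.e (nat_lit 557097) (nat_lit 13) .nil))))) (.g (nat_lit 0) (.e (nat_lit 428093) (nat_lit 0) .nil) .nil))))) (.nd (nat_lit 8) (.nd (nat_lit 9) 
(.lf (nat_lit 603267) (.g (nat_lit 4506) (.e (nat_lit 655375) (nat_lit 3) (.e (nat_lit 163978) (nat_lit 30) (.e (nat_lit 573482) (nat_lit 13) (.e (nat_lit 65619) (nat_lit 10) (.e (nat_lit 344117) (nat_lit 21) (.e (nat_lit 516160) (nat_lit 10) (.e (nat_lit 434271) (nat_lit 38) .nil))))))) (.g (nat_lit 1) (.e (nat_lit 426424) (nat_lit 0) .nil) .nil))) 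
(.lf (nat_lit 603779) (.g (nat_lit 444) (.e (nat_lit 655380) (nat_lit 6) (.e (nat_lit 188434) (nat_lit 20) (.e (nat_lit 3406) (nat_lit 212) .nil))) (.g (nat_lit 0) (.e (nat_lit 427778) (nat_lit 0) .nil) .nil)))) (.nd (nat_lit 9) 
(.lf (nat_lit 603523) (.g (nat_lit 1264) (.e (nat_lit 655376) (nat_lit 4) (.e (nat_lit 172118) (nat_lit 12) (.e (nat_lit 475198) (nat_lit 40) (.e (nat_lit 704599) (nat_lit 6) .nil)))) (.g (nat_lit 0) (.e (nat_lit 426970) (nat_lit 0) .nil) .nil))) 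
(.lf (nat_lit 604035) (.g (nat_lit 4450) (.e (nat_lit 761898) (nat_lit 15) (.e (nat_lit 163977) (nat_lit 30) (.e (nat_lit 573489) (nat_lit 14) (.e (nat_lit 73755) (nat_lit 8) (.e (nat_lit 557103) (nat_lit 14) (.e (nat_lit 180244) (nat_lit 5) (.e (nat_lit 532484) (nat_lit 0) (.e (nat_lit 7936) (nat_lit 149) .nil)))))))) (.g (nat_lit 1) (.e (nat_lit 428548) (nat_lit 0) .nil) .nil)))))) 
(.nd (nat_lit 7) (.nd (nat_lit 8) (.nd (nat_lit 9) 
(.lf (nat_lit 603203) (.g (nat_lit 3883) (.e (nat_lit 655375) (nat_lit 3) (.e (nat_lit 163977) (nat_lit 30) (.e (nat_lit 573493) (nat_lit 15) (.e (nat_lit 81951) (nat_lit 22) (.e (nat_lit 90170) (nat_lit 13) (.e (nat_lit 172046) (nat_lit 0) (.e (nat_lit 3406) (nat_lit 212) .nil))))))) (.g (nat_lit 1) (.e (nat_lit 426357) (nat_lit 0) .nil) .nil))) 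
(.lf (nat_lit 603715) (.g (nat_lit 2844) (.e (nat_lit 655378) (nat_lit 4) (.e (nat_lit 172126) (nat_lit 14) (.e (nat_lit 491547) (nat_lit 9) (.e (nat_lit 336430) (nat_lit 29) (.e (nat_lit 442402) (nat_lit 20) (.e (nat_lit 3408) (nat_lit 212) .nil)))))) (.g (nat_lit 1) (.e (nat_lit 427582) (nat_lit 0) .nil) .nil)))) (.nd (nat_lit 9) 
(.lf (nat_lit 603459) (.g (nat_lit 3457) (.e (nat_lit 655375) (nat_lit 3) (.e (nat_lit 163979) (nat_lit 30) (.e (nat_lit 573492) (nat_lit 15) (.e (nat_lit 81956) (nat_lit 23) (.e (nat_lit 98360) (nat_lit 26) (.e (nat_lit 426003) (nat_lit 0) (.e (nat_lit 3407) (nat_lit 212) .nil))))))) (.g (nat_lit 1) (.e (nat_lit 426838) (nat_lit 0) .nil) .nil))) 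
(.lf (nat_lit 603971) (.g (nat_lit 3529) (.e (nat_lit 761897) (nat_lit 15) (.e (nat_lit 163979) (nat_lit 30) (.e (nat_lit 573489) (nat_lit 14) (.e (nat_lit 73755) (nat_lit 8) (.e (nat_lit 557097) (nat_lit 13) (.e (nat_lit 172067) (nat_lit 3) (.e (nat_lit 204821) (nat_lit 17) (.e (nat_lit 2270) (nat_lit 149) .nil)))))))) (.g (nat_lit 1) (.e (nat_lit 428439) (nat_lit 0) .nil) .nil))))) 
(.nd (nat_lit 8) (.nd (nat_lit 9) 
(.lf (nat_lit 603331) (.g (nat_lit 3534) (.e (nat_lit 655375) (nat_lit 3) (.e (nat_lit 163978) (nat_lit 30) (.e (nat_lit 573491) (nat_lit 15) (.e (nat_lit 81953) (nat_lit 22) (.e (nat_lit 90170) (nat_lit 13) (.e (nat_lit 172049) (nat_lit 0) (.e (nat_lit 3408) (nat_lit 212) .nil))))))) (.g (nat_lit 1) (.e (nat_lit 426554) (nat_lit 0) .nil) .nil))) 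
(.lf (nat_lit 603843) (.g (nat_lit 2327) (.e (nat_lit 655380) (nat_lit 6) (.e (nat_lit 188455) (nat_lit 24) (.e (nat_lit 229663) (nat_lit 240) (.e (nat_lit 2622) (nat_lit 164) .nil)))) (.g (nat_lit 0) (.e (nat_lit 427894) (nat_lit 0) .nil) .nil)))) (.nd (nat_lit 9) 
(.lf (nat_lit 603587) (.g (nat_lit 2562) (.e (nat_lit 655378) (nat_lit 4) (.e (nat_lit 172106) (nat_lit 10) (.e (nat_lit 434209) (nat_lit 18) (.e (nat_lit 5548) (nat_lit 306) (.e (nat_lit 2649) (nat_lit 166) (.e (nat_lit 188434) (nat_lit 20) (.e (nat_lit 3409) (nat_lit 212) .nil))))))) (.g (nat_lit 1) (.e (nat_lit 427288) (nat_lit 0) .nil) .nil))) 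
(.lf (nat_lit 604099) (.g (nat_lit 2869) (.e (nat_lit 761898) (nat_lit 15) (.e (nat_lit 163978) (nat_lit 30) (.e (nat_lit 573489) (nat_lit 14) (.e (nat_lit 73754) (nat_lit 8) (.e (nat_lit 557100) (nat_lit 13) (.e (nat_lit 172067) (nat_lit 3) (.e (nat_lit 204816) (nat_lit 17) (.e (nat_lit 2273) (nat_lit 149) .nil)))))))) (.g (nat_lit 1) (.e (nat_lit 428643) (nat_lit 0) .nil) .nil))))))) 
(.nd (nat_lit 6) (.nd (nat_lit 7) (.nd (nat_lit 8) (.nd (nat_lit 9) 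
(.lf (nat_lit 603171) (.g (nat_lit 2077) (.e (nat_lit 655374) (nat_lit 3) (.e (nat_lit 163979) (nat_lit 30) (.e (nat_lit 573482) (nat_lit 13) (.e (nat_lit 65604) (nat_lit 9) (.e (nat_lit 336013) (nat_lit 2) .nil))))) (.g (nat_lit 0) (.e (nat_lit 426299) (nat_lit 0) .nil) .nil))) 
(.lf (nat_lit 603683) (.g (nat_lit 1736) (.e (nat_lit 655378) (nat_lit 4) (.e (nat_lit 172120) (nat_lit 12) (.e (nat_lit 475211) (nat_lit 41) (.e (nat_lit 712750) (nat_lit 29) .nil)))) (.g (nat_lit 0) (.e (nat_lit 427439) (nat_lit 0) .nil) .nil)))) (.nd (nat_lit 9) 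
(.lf (nat_lit 603427) (.g (nat_lit 1574) (.e (nat_lit 655375) (nat_lit 3) (.e (nat_lit 163979) (nat_lit 30) (.e (nat_lit 573491) (nat_lit 15) (.e (nat_lit 81955) (nat_lit 23) (.e (nat_lit 98366) (nat_lit 27) .nil))))) (.g (nat_lit 0) (.e (nat_lit 426793) (nat_lit 0) .nil) .nil))) 
(.lf (nat_lit 603939) (.g (nat_lit 3593) (.e (nat_lit 761895) (nat_lit 15) (.e (nat_lit 163978) (nat_lit 30) (.e (nat_lit 573489) (nat_lit 14) (.e (nat_lit 73755) (nat_lit 8) (.e (nat_lit 557097) (nat_lit 13) .nil))))) (.g (nat_lit 0) (.e (nat_lit 428242) (nat_lit 0) .nil) .nil))))) (.nd (nat_lit 8) (.nd (nat_lit 9) 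
(.lf (nat_lit 603299) (.g (nat_lit 3531) (.e (nat_lit 655375) (nat_lit 3) (.e (nat_lit 163978) (nat_lit 30) (.e (nat_lit 573490) (nat_lit 15) (.e (nat_lit 81953) (nat_lit 22) (.e (nat_lit 90170) (nat_lit 13) (.e (nat_lit 172042) (nat_lit 0) (.e (nat_lit 3406) (nat_lit 212) .nil))))))) (.g (nat_lit 1) (.e (nat_lit 426462) (nat_lit 0) .nil) .nil))) 
(.lf (nat_lit 603811) (.g (nat_lit 2031) (.e (nat_lit 655380) (nat_lit 6) (.e (nat_lit 188439) (nat_lit 20) (.e (nat_lit 3409) (nat_lit 212) (.e (nat_lit 655380) (nat_lit 6) (.e (nat_lit 188441) (nat_lit 20) (.e (nat_lit 3409) (nat_lit 212) .nil)))))) (.g (nat_lit 1) (.e (nat_lit 427819) (nat_lit 0) .nil) .nil)))) (.nd (nat_lit 9) 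
(.lf (nat_lit 603555) (.g (nat_lit 2347) (.e (nat_lit 655378) (nat_lit 4) (.e (nat_lit 172035) (nat_lit 0) (.e (nat_lit 6989) (nat_lit 377) (.e (nat_lit 2777) (nat_lit 178) (.e (nat_lit 286771) (nat_lit 29) (.e (nat_lit 442409) (nat_lit 20) (.e (nat_lit 3409) (nat_lit 212) .nil))))))) (.g (nat_lit 1) (.e (nat_lit 427191) (nat_lit 0) .nil) .nil))) 
(.lf (nat_lit 604067) (.g (nat_lit 4466) (.e (nat_lit 761898) (nat_lit 15) (.e (nat_lit 163978) (nat_lit 30) (.e (nat_lit 573487) (nat_lit 14) (.e (nat_lit 73753) (nat_lit 8) (.e (nat_lit 557098) (nat_lit 13) (.e (nat_lit 172067) (nat_lit 3) (.e (nat_lit 204815) (nat_lit 17) (.e (nat_lit 2271) (nat_lit 149) .nil)))))))) (.g (nat_lit 1) (.e (nat_lit 428609) (nat_lit 0) .nil) .nil)))))) 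
(.nd (nat_lit 7) (.nd (nat_lit 8) (.nd (nat_lit 9) 
(.lf (nat_lit 603235) (.g (nat_lit 3565) (.e (nat_lit 655375) (nat_lit 3) (.e (nat_lit 163978) (nat_lit 30) (.e (nat_lit 573480) (nat_lit 13) (.e (nat_lit 65604) (nat_lit 9) (.e (nat_lit 336013) (nat_lit 2) (.e (nat_lit 90170) (nat_lit 13) (.e (nat_lit 172049) (nat_lit 0) (.e (nat_lit 3407) (nat_lit 212) .nil)))))))) (.g (nat_lit 1) (.e (nat_lit 426391) (nat_lit 0) .nil) .nil))) 
(.lf (nat_lit 603747) (.g (nat_lit 1770) (.e (nat_lit 655378) (nat_lit 4) (.e (nat_lit 172126) (nat_lit 14) (.e (nat_lit 491569) (nat_lit 13) (.e (nat_lit 393234) (nat_lit 17) .nil)))) (.g (nat_lit 0) (.e (nat_lit 427653) (nat_lit 0) .nil) .nil)))) (.nd (nat_lit 9) 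
(.lf (nat_lit 603491) (.g (nat_lit 5745) (.e (nat_lit 655375) (nat_lit 3) (.e (nat_lit 163979) (nat_lit 30) (.e (nat_lit 573492) (nat_lit 15) (.e (nat_lit 81956) (nat_lit 23) (.e (nat_lit 98365) (nat_lit 26) (.e (nat_lit 426009) (nat_lit 0) (.e (nat_lit 3404) (nat_lit 212) .nil))))))) (.g (nat_lit 1) (.e (nat_lit 426870) (nat_lit 0) .nil) .nil))) 
(.lf (nat_lit 604003) (.g (nat_lit 2308) (.e (nat_lit 761898) (nat_lit 15) (.e (nat_lit 163977) (nat_lit 30) (.e (nat_lit 573489) (nat_lit 14) (.e (nat_lit 73754) (nat_lit 8) (.e (nat_lit 557101) (nat_lit 13) (.e (nat_lit 172066) (nat_lit 3) (.e (nat_lit 204815) (nat_lit 17) (.e (nat_lit 2271) (nat_lit 149) .nil)))))))) (.g (nat_lit 1) (.e (nat_lit 428507) (nat_lit 0) .nil) .nil))))) 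
(.nd (nat_lit 8) (.nd (nat_lit 9) 
(.lf (nat_lit 603363) (.g (nat_lit 2271) (.e (nat_lit 655375) (nat_lit 3) (.e (nat_lit 163978) (nat_lit 30) (.e (nat_lit 573493) (nat_lit 15) (.e (nat_lit 81956) (nat_lit 23) (.e (nat_lit 98359) (nat_lit 26) .nil))))) (.g (nat_lit 0) (.e (nat_lit 426688) (nat_lit 0) .nil) .nil))) 
(.lf (nat_lit 603875) (.g (nat_lit 2164) (.e (nat_lit 753672) (nat_lit 5) (.e (nat_lit 3071) (nat_lit 190) (.e (nat_lit 475185) (nat_lit 29) (.e (nat_lit 557100) (nat_lit 13) (.e (nat_lit 172113) (nat_lit 10) .nil))))) (.g (nat_lit 0) (.e (nat_lit 427950) (nat_lit 0) .nil) .nil)))) (.nd (nat_lit 9) 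
(.lf (nat_lit 603619) (.g (nat_lit 2159) (.e (nat_lit 655378) (nat_lit 4) (.e (nat_lit 172112) (nat_lit 10) (.e (nat_lit 434271) (nat_lit 38) (.e (nat_lit 655380) (nat_lit 6) (.e (nat_lit 188440) (nat_lit 20) (.e (nat_lit 3408) (nat_lit 212) .nil)))))) (.g (nat_lit 1) (.e (nat_lit 427330) (nat_lit 0) .nil) .nil))) 
(.lf (nat_lit 604131) (.g (nat_lit 3221) (.e (nat_lit 761898) (nat_lit 15) (.e (nat_lit 163978) (nat_lit 30) (.e (nat_lit 573489) (nat_lit 14) (.e (nat_lit 73755) (nat_lit 8) (.e (nat_lit 557104) (nat_lit 14) (.e (nat_lit 180244) (nat_lit 5) (.e (nat_lit 532488) (nat_lit 0) (.e (nat_lit 7936) (nat_lit 149) .nil)))))))) (.g (nat_lit 1) (.e (nat_lit 428683) (nat_lit 0) .nil) .nil)))))))) 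
(.nd (nat_lit 5) (.nd (nat_lit 6) (.nd (nat_lit 7) (.nd (nat_lit 8) (.nd (nat_lit 9) 
(.lf (nat_lit 603155) (.g (nat_lit 2329) (.e (nat_lit 655373) (nat_lit 3) (.e (nat_lit 163979) (nat_lit 30) (.e (nat_lit 573493) (nat_lit 15) (.e (nat_lit 81953) (nat_lit 22) (.e (nat_lit 90170) (nat_lit 13) (.e (nat_lit 172042) (nat_lit 0) (.e (nat_lit 3407) (nat_lit 212) .nil))))))) (.g (nat_lit 1) (.e (nat_lit 426265) (nat_lit 0) .nil) .nil))) 
(.lf (nat_lit 603667) (.g (nat_lit 1059) (.e (nat_lit 655378) (nat_lit 4) (.e (nat_lit 172119) (nat_lit 12) (.e (nat_lit 475198) (nat_lit 40) (.e (nat_lit 704599) (nat_lit 6) .nil)))) (.g (nat_lit 0) (.e (nat_lit 427413) (nat_lit 0) .nil) .nil)))) (.nd (nat_lit 9) 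
(.lf (nat_lit 603411) (.g (nat_lit 3362) (.e (nat_lit 655375) (nat_lit 3) (.e (nat_lit 163979) (nat_lit 30) (.e (nat_lit 573485) (nat_lit 13) (.e (nat_lit 65604) (nat_lit 9) (.e (nat_lit 336028) (nat_lit 3) (.e (nat_lit 98359) (nat_lit 26) (.e (nat_lit 426043) (nat_lit 0) (.e (nat_lit 3407) (nat_lit 212) .nil)))))))) (.g (nat_lit 1) (.e (nat_lit 426777) (nat_lit 0) .nil) .nil))) 
(.lf (nat_lit 603923) (.g (nat_lit 2255) (.e (nat_lit 761894) (nat_lit 15) (.e (nat_lit 163979) (nat_lit 30) (.e (nat_lit 573482) (nat_lit 13) (.e (nat_lit 65626) (nat_lit 13) (.e (nat_lit 401152) (nat_lit 15) (.e (nat_lit 385088) (nat_lit 47) .nil)))))) (.g (nat_lit 1) (.e (nat_lit 428176) (nat_lit 0) .nil) .nil))))) (.nd (nat_lit 8) (.nd (nat_lit 9) 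
(.lf (nat_lit 603283) (.g (nat_lit 2858) (.e (nat_lit 655375) (nat_lit 3) (.e (nat_lit 163978) (nat_lit 30) (.e (nat_lit 573485) (nat_lit 13) (.e (nat_lit 65604) (nat_lit 9) (.e (nat_lit 336013) (nat_lit 2) (.e (nat_lit 90170) (nat_lit 13) (.e (nat_lit 172046) (nat_lit 0) (.e (nat_lit 3403) (nat_lit 212) .nil)))))))) (.g (nat_lit 1) (.e (nat_lit 426441) (nat_lit 0) .nil) .nil))) 
(.lf (nat_lit 603795) (.g (nat_lit 1495) (.e (nat_lit 655380) (nat_lit 6) (.e (nat_lit 188434) (nat_lit 20) (.e (nat_lit 3409) (nat_lit 212) (.e (nat_lit 655380) (nat_lit 6) (.e (nat_lit 188435) (nat_lit 20) (.e (nat_lit 3408) (nat_lit 212) .nil)))))) (.g (nat_lit 1) (.e (nat_lit 427803) (nat_lit 0) .nil) .nil)))) (.nd (nat_lit 9) 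
(.lf (nat_lit 603539) (.g (nat_lit 2549) (.e (nat_lit 655376) (nat_lit 4) (.e (nat_lit 172124) (nat_lit 14) (.e (nat_lit 491549) (nat_lit 9) (.e (nat_lit 336430) (nat_lit 29) (.e (nat_lit 442402) (nat_lit 20) (.e (nat_lit 3409) (nat_lit 212) .nil)))))) (.g (nat_lit 1) (.e (nat_lit 426997) (nat_lit 0) .nil) .nil))) 
(.lf (nat_lit 604051) (.g (nat_lit 2437) (.e (nat_lit 761898) (nat_lit 15) (.e (nat_lit 163977) (nat_lit 30) (.e (nat_lit 573489) (nat_lit 14) (.e (nat_lit 73755) (nat_lit 8) (.e (nat_lit 557104) (nat_lit 14) (.e (nat_lit 180245) (nat_lit 5) (.e (nat_lit 532481) (nat_lit 0) (.e (nat_lit 2271) (nat_lit 149) .nil)))))))) (.g (nat_lit 1) (.e (nat_lit 428565) (nat_lit 0) .nil) .nil)))))) 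
(.nd (nat_lit 7) (.nd (nat_lit 8) (.nd (nat_lit 9) 
(.lf (nat_lit 603219) (.g (nat_lit 5349) (.e (nat_lit 655375) (nat_lit 3) (.e (nat_lit 163978) (nat_lit 30) (.e (nat_lit 573479) (nat_lit 13) (.e (nat_lit 65604) (nat_lit 9) (.e (nat_lit 336013) (nat_lit 2) (.e (nat_lit 90170) (nat_lit 13) (.e (nat_lit 172049) (nat_lit 0) (.e (nat_lit 3408) (nat_lit 212) .nil)))))))) (.g (nat_lit 1) (.e (nat_lit 426375) (nat_lit 0) .nil) .nil))) 
(.lf (nat_lit 603731) (.g (nat_lit 3632) (.e (nat_lit 655378) (nat_lit 4) (.e (nat_lit 172126) (nat_lit 14) (.e (nat_lit 491549) (nat_lit 9) (.e (nat_lit 336443) (nat_lit 32) (.e (nat_lit 466960) (nat_lit 20) (.e (nat_lit 3403) (nat_lit 212) .nil)))))) (.g (nat_lit 1) (.e (nat_lit 427611) (nat_lit 0) .nil) .nil)))) (.nd (nat_lit 9) 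
(.lf (nat_lit 603475) (.g (nat_lit 3396) (.e (nat_lit 655375) (nat_lit 3) (.e (nat_lit 163979) (nat_lit 30) (.e (nat_lit 573492) (nat_lit 15) (.e (nat_lit 81956) (nat_lit 23) (.e (nat_lit 98360) (nat_lit 26) (.e (nat_lit 426047) (nat_lit 0) (.e (nat_lit 3407) (nat_lit 212) .nil))))))) (.g (nat_lit 1) (.e (nat_lit 426854) (nat_lit 0) .nil) .nil))) 
(.lf (nat_lit 603987) (.g (nat_lit 2145) (.e (nat_lit 761898) (nat_lit 15) (.e (nat_lit 163977) (nat_lit 30) (.e (nat_lit 573487) (nat_lit 14) (.e (nat_lit 73753) (nat_lit 8) (.e (nat_lit 557101) (nat_lit 13) .nil))))) (.g (nat_lit 0) (.e (nat_lit 428490) (nat_lit 0) .nil) .nil))))) (.nd (nat_lit 8) (.nd (nat_lit 9) 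
(.lf (nat_lit 603347) (.g (nat_lit 3012) (.e (nat_lit 655375) (nat_lit 3) (.e (nat_lit 163978) (nat_lit 30) (.e (nat_lit 573493) (nat_lit 15) (.e (nat_lit 81951) (nat_lit 22) (.e (nat_lit 90170) (nat_lit 13) (.e (nat_lit 172042) (nat_lit 0) (.e (nat_lit 3406) (nat_lit 212) .nil))))))) (.g (nat_lit 1) (.e (nat_lit 426650) (nat_lit 0) .nil) .nil))) 
(.lf (nat_lit 603859) (.g (nat_lit 1759) (.e (nat_lit 655380) (nat_lit 6) (.e (nat_lit 188455) (nat_lit 24) (.e (nat_lit 229677) (nat_lit 244) (.e (nat_lit 163923) (nat_lit 15) (.e (nat_lit 450593) (nat_lit 16) .nil))))) (.g (nat_lit 0) (.e (nat_lit 427913) (nat_lit 0) .nil) .nil)))) (.nd (nat_lit 9) 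
(.lf (nat_lit 603603) (.g (nat_lit 2294) (.e (nat_lit 655378) (nat_lit 4) (.e (nat_lit 172106) (nat_lit 10) (.e (nat_lit 434272) (nat_lit 38) (.e (nat_lit 655380) (nat_lit 6) (.e (nat_lit 188441) (nat_lit 20) (.e (nat_lit 3406) (nat_lit 212) .nil)))))) (.g (nat_lit 1) (.e (nat_lit 427314) (nat_lit 0) .nil) .nil))) 
(.lf (nat_lit 604115) (.g (nat_lit 3187) (.e (nat_lit 761898) (nat_lit 15) (.e (nat_lit 163978) (nat_lit 30) (.e (nat_lit 573489) (nat_lit 14) (.e (nat_lit 73755) (nat_lit 8) (.e (nat_lit 557097) (nat_lit 13) (.e (nat_lit 172067) (nat_lit 3) (.e (nat_lit 204821) (nat_lit 17) (.e (nat_lit 2264) (nat_lit 149) .nil)))))))) (.g (nat_lit 1) (.e (nat_lit 428664) (nat_lit 0) .nil) .nil))))))) 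
(.nd (nat_lit 6) (.nd (nat_lit 7) (.nd (nat_lit 8) (.nd (nat_lit 9) 
(.lf (nat_lit 603187) (.g (nat_lit 2600) (.e (nat_lit 655375) (nat_lit 3) (.e (nat_lit 163977) (nat_lit 30) (.e (nat_lit 573481) (nat_lit 13) (.e (nat_lit 65604) (nat_lit 9) (.e (nat_lit 336013) (nat_lit 2) (.e (nat_lit 90170) (nat_lit 13) (.e (nat_lit 172049) (nat_lit 0) (.e (nat_lit 3408) (nat_lit 212) .nil)))))))) (.g (nat_lit 1) (.e (nat_lit 426339) (nat_lit 0) .nil) .nil))) 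
(.lf (nat_lit 603699) (.g (nat_lit 1448) (.e (nat_lit 655378) (nat_lit 4) (.e (nat_lit 172124) (nat_lit 14) (.e (nat_lit 491570) (nat_lit 13) (.e (nat_lit 393274) (nat_lit 23) .nil)))) (.g (nat_lit 0) (.e (nat_lit 427467) (nat_lit 0) .nil) .nil)))) (.nd (nat_lit 9) 
(.lf (nat_lit 603443) (.g (nat_lit 2247) (.e (nat_lit 655375) (nat_lit 3) (.e (nat_lit 163979) (nat_lit 30) (.e (nat_lit 573492) (nat_lit 15) (.e (nat_lit 81956) (nat_lit 23) (.e (nat_lit 98355) (nat_lit 26) (.e (nat_lit 425998) (nat_lit 0) (.e (nat_lit 3413) (nat_lit 212) .nil))))))) (.g (nat_lit 1) (.e (nat_lit 426822) (nat_lit 0) .nil) .nil))) 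
(.lf (nat_lit 603955) (.g (nat_lit 1470) (.e (nat_lit 761897) (nat_lit 15) (.e (nat_lit 163978) (nat_lit 30) (.e (nat_lit 573489) (nat_lit 14) (.e (nat_lit 73755) (nat_lit 8) .nil)))) (.g (nat_lit 0) (.e (nat_lit 428387) (nat_lit 0) .nil) .nil))))) (.nd (nat_lit 8) (.nd (nat_lit 9) 
(.lf (nat_lit 603315) (.g (nat_lit 3339) (.e (nat_lit 655375) (nat_lit 3) (.e (nat_lit 163978) (nat_lit 30) (.e (nat_lit 573491) (nat_lit 15) (.e (nat_lit 81951) (nat_lit 22) (.e (nat_lit 90170) (nat_lit 13) (.e (nat_lit 172049) (nat_lit 0) (.e (nat_lit 3406) (nat_lit 212) .nil))))))) (.g (nat_lit 1) (.e (nat_lit 426536) (nat_lit 0) .nil) .nil))) 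
(.lf (nat_lit 603827) (.g (nat_lit 2542) (.e (nat_lit 655380) (nat_lit 6) (.e (nat_lit 188444) (nat_lit 21) (.e (nat_lit 164347) (nat_lit 240) (.e (nat_lit 2648) (nat_lit 166) (.e (nat_lit 188440) (nat_lit 20) (.e (nat_lit 3409) (nat_lit 212) .nil)))))) (.g (nat_lit 1) (.e (nat_lit 427840) (nat_lit 0) .nil) .nil)))) (.nd (nat_lit 9) 
(.lf (nat_lit 603571) (.g (nat_lit 1066) (.e (nat_lit 655378) (nat_lit 4) (.e (nat_lit 172094) (nat_lit 9) (.e (nat_lit 426109) (nat_lit 1) (.e (nat_lit 164347) (nat_lit 240) .nil)))) (.g (nat_lit 0) (.e (nat_lit 427244) (nat_lit 0) .nil) .nil))) 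
(.lf (nat_lit 604083) (.g (nat_lit 2435) (.e (nat_lit 761898) (nat_lit 15) (.e (nat_lit 163978) (nat_lit 30) (.e (nat_lit 573487) (nat_lit 14) (.e (nat_lit 73753) (nat_lit 8) (.e (nat_lit 557101) (nat_lit 13) (.e (nat_lit 172066) (nat_lit 3) (.e (nat_lit 204820) (nat_lit 17) (.e (nat_lit 7936) (nat_lit 149) .nil)))))))) (.g (nat_lit 1) (.e (nat_lit 428626) (nat_lit 0) .nil) .nil)))))) 
(.nd (nat_lit 7) (.nd (nat_lit 8) (.nd (nat_lit 9) 
(.lf (nat_lit 603251) (.g (nat_lit 4148) (.e (nat_lit 655375) (nat_lit 3) (.e (nat_lit 163978) (nat_lit 30) (.e (nat_lit 573481) (nat_lit 13) (.e (nat_lit 65619) (nat_lit 10) (.e (nat_lit 344117) (nat_lit 21) (.e (nat_lit 516151) (nat_lit 9) (.e (nat_lit 426043) (nat_lit 0) (.e (nat_lit 3407) (nat_lit 212) .nil)))))))) (.g (nat_lit 1) (.e (nat_lit 426408) (nat_lit 0) .nil) .nil))) 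
(.lf (nat_lit 603763) (.g (nat_lit 297) (.e (nat_lit 655379) (nat_lit 5) (.e (nat_lit 180277) (nat_lit 32) (.e (nat_lit 1660) (nat_lit 115) .nil))) (.g (nat_lit 0) (.e (nat_lit 427722) (nat_lit 0) .nil) .nil)))) (.nd (nat_lit 9) 
(.lf (nat_lit 603507) (.g (nat_lit 2723) (.e (nat_lit 655375) (nat_lit 3) (.e (nat_lit 163979) (nat_lit 30) (.e (nat_lit 573493) (nat_lit 15) (.e (nat_lit 81953) (nat_lit 22) (.e (nat_lit 90170) (nat_lit 13) (.e (nat_lit 172042) (nat_lit 0) (.e (nat_lit 3407) (nat_lit 212) .nil))))))) (.g (nat_lit 1) (.e (nat_lit 426888) (nat_lit 0) .nil) .nil))) 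
(.lf (nat_lit 604019) (.g (nat_lit 3128) (.e (nat_lit 761898) (nat_lit 15) (.e (nat_lit 163977) (nat_lit 30) (.e (nat_lit 573489) (nat_lit 14) (.e (nat_lit 73755) (nat_lit 8) (.e (nat_lit 557097) (nat_lit 13) (.e (nat_lit 172066) (nat_lit 3) (.e (nat_lit 204821) (nat_lit 17) (.e (nat_lit 7936) (nat_lit 149) .nil)))))))) (.g (nat_lit 1) (.e (nat_lit 428528) (nat_lit 0) .nil) .nil))))) 
(.nd (nat_lit 8) (.nd (nat_lit 9) 
(.lf (nat_lit 603379) (.g (nat_lit 4489) (.e (nat_lit 655375) (nat_lit 3) (.e (nat_lit 163979) (nat_lit 30) (.e (nat_lit 573481) (nat_lit 13) (.e (nat_lit 65604) (nat_lit 9) (.e (nat_lit 336013) (nat_lit 2) (.e (nat_lit 90170) (nat_lit 13) (.e (nat_lit 172042) (nat_lit 0) (.e (nat_lit 3408) (nat_lit 212) .nil)))))))) (.g (nat_lit 1) (.e (nat_lit 426745) (nat_lit 0) .nil) .nil))) 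
(.lf (nat_lit 603891) (.g (nat_lit 1430) (.e (nat_lit 753694) (nat_lit 13) (.e (nat_lit 1669) (nat_lit 116) (.e (nat_lit 401458) (nat_lit 13) (.e (nat_lit 483372) (nat_lit 21) .nil)))) (.g (nat_lit 0) (.e (nat_lit 428014) (nat_lit 0) .nil) .nil)))) (.nd (nat_lit 9) 
(.lf (nat_lit 603635) (.g (nat_lit 1091) (.e (nat_lit 655378) (nat_lit 4) (.e (nat_lit 172115) (nat_lit 10) (.e (nat_lit 434209) (nat_lit 18) (.e (nat_lit 5548) (nat_lit 306) .nil)))) (.g (nat_lit 0) (.e (nat_lit 427359) (nat_lit 0) .nil) .nil))) 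
(.lf (nat_lit 604147) (.g (nat_lit 2195) (.e (nat_lit 761898) (nat_lit 15) (.e (nat_lit 163979) (nat_lit 30) (.e (nat_lit 573487) (nat_lit 14) (.e (nat_lit 73753) (nat_lit 8) (.e (nat_lit 557097) (nat_lit 13) .nil))))) (.g (nat_lit 0) (.e (nat_lit 428726) (nat_lit 0) .nil) .nil))))))))) (.nd (nat_lit 4) (.nd (nat_lit 5) (.nd (nat_lit 6) (.nd (nat_lit 7) (.nd (nat_lit 8) (.nd (nat_lit 9) 
(.lf (nat_lit 603147) (.g (nat_lit 1977) (.e (nat_lit 655373) (nat_lit 3) (.e (nat_lit 163979) (nat_lit 30) (.e (nat_lit 573491) (nat_lit 15) (.e (nat_lit 81955) (nat_lit 23) (.e (nat_lit 98367) (nat_lit 27) .nil))))) (.g (nat_lit 0) (.e (nat_lit 426252) (nat_lit 0) .nil) .nil))) 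
(.lf (nat_lit 603659) (.g (nat_lit 630) (.e (nat_lit 655378) (nat_lit 4) (.e (nat_lit 172116) (nat_lit 10) (.e (nat_lit 434272) (nat_lit 38) (.e (nat_lit 655380) (nat_lit 6) .nil)))) (.g (nat_lit 0) (.e (nat_lit 427405) (nat_lit 0) .nil) .nil)))) (.nd (nat_lit 9) 
(.lf (nat_lit 603403) (.g (nat_lit 3061) (.e (nat_lit 655375) (nat_lit 3) (.e (nat_lit 163979) (nat_lit 30) (.e (nat_lit 573485) (nat_lit 13) (.e (nat_lit 65604) (nat_lit 9) (.e (nat_lit 336013) (nat_lit 2) (.e (nat_lit 90170) (nat_lit 13) (.e (nat_lit 172042) (nat_lit 0) (.e (nat_lit 3406) (nat_lit 212) .nil)))))))) (.g (nat_lit 1) (.e (nat_lit 426769) (nat_lit 0) .nil) .nil))) 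
(.lf (nat_lit 603915) (.g (nat_lit 1714) (.e (nat_lit 761894) (nat_lit 15) (.e (nat_lit 163978) (nat_lit 30) (.e (nat_lit 573489) (nat_lit 14) (.e (nat_lit 73755) (nat_lit 8) .nil)))) (.g (nat_lit 0) (.e (nat_lit 428150) (nat_lit 0) .nil) .nil))))) (.nd (nat_lit 8) (.nd (nat_lit 9) 
(.lf (nat_lit 603275) (.g (nat_lit 3086) (.e (nat_lit 655375) (nat_lit 3) (.e (nat_lit 163978) (nat_lit 30) (.e (nat_lit 573483) (nat_lit 13) (.e (nat_lit 65619) (nat_lit 10) (.e (nat_lit 344117) (nat_lit 21) (.e (nat_lit 516151) (nat_lit 9) (.e (nat_lit 426043) (nat_lit 0) (.e (nat_lit 3407) (nat_lit 212) .nil)))))))) (.g (nat_lit 1) (.e (nat_lit 426432) (nat_lit 0) .nil) .nil))) 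
(.lf (nat_lit 603787) (.g (nat_lit 1942) (.e (nat_lit 655380) (nat_lit 6) (.e (nat_lit 188434) (nat_lit 20) (.e (nat_lit 3408) (nat_lit 212) (.e (nat_lit 655380) (nat_lit 6) (.e (nat_lit 188434) (nat_lit 20) (.e (nat_lit 3406) (nat_lit 212) .nil)))))) (.g (nat_lit 1) (.e (nat_lit 427791) (nat_lit 0) .nil) .nil)))) (.nd (nat_lit 9) 
(.lf (nat_lit 603531) (.g (nat_lit 2241) (.e (nat_lit 655376) (nat_lit 4) (.e (nat_lit 172120) (nat_lit 12) (.e (nat_lit 475198) (nat_lit 40) (.e (nat_lit 704599) (nat_lit 6) (.e (nat_lit 188440) (nat_lit 20) (.e (nat_lit 3408) (nat_lit 212) .nil)))))) (.g (nat_lit 1) (.e (nat_lit 426980) (nat_lit 0) .nil) .nil))) 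
(.lf (nat_lit 604043) (.g (nat_lit 2374) (.e (nat_lit 761898) (nat_lit 15) (.e (nat_lit 163977) (nat_lit 30) (.e (nat_lit 573489) (nat_lit 14) (.e (nat_lit 73755) (nat_lit 8) (.e (nat_lit 557104) (nat_lit 14) (.e (nat_lit 180244) (nat_lit 5) (.e (nat_lit 532480) (nat_lit 0) (.e (nat_lit 2270) (nat_lit 149) .nil)))))))) (.g (nat_lit 1) (.e (nat_lit 428557) (nat_lit 0) .nil) .nil)))))) 
(.nd (nat_lit 7) (.nd (nat_lit 8) (.nd (nat_lit 9) 
(.lf (nat_lit 603211) (.g (nat_lit 3886) (.e (nat_lit 655375) (nat_lit 3) (.e (nat_lit 163977) (nat_lit 30) (.e (nat_lit 573493) (nat_lit 15) (.e (nat_lit 81954) (nat_lit 23) (.e (nat_lit 98359) (nat_lit 26) (.e (nat_lit 426043) (nat_lit 0) (.e (nat_lit 3408) (nat_lit 212) .nil))))))) (.g (nat_lit 1) (.e (nat_lit 426367) (nat_lit 0) .nil) .nil))) 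
(.lf (nat_lit 603723) (.g (nat_lit 3361) (.e (nat_lit 655378) (nat_lit 4) (.e (nat_lit 172126) (nat_lit 14) (.e (nat_lit 491549) (nat_lit 9) (.e (nat_lit 336430) (nat_lit 29) (.e (nat_lit 442402) (nat_lit 20) (.e (nat_lit 3409) (nat_lit 212) .nil)))))) (.g (nat_lit 1) (.e (nat_lit 427603) (nat_lit 0) .nil) .nil)))) (.nd (nat_lit 9) 
(.lf (nat_lit 603467) (.g (nat_lit 3651) (.e (nat_lit 655375) (nat_lit 3) (.e (nat_lit 163979) (nat_lit 30) (.e (nat_lit 573492) (nat_lit 15) (.e (nat_lit 81956) (nat_lit 23) (.e (nat_lit 98360) (nat_lit 26) (.e (nat_lit 426040) (nat_lit 0) (.e (nat_lit 3406) (nat_lit 212) .nil))))))) (.g (nat_lit 1) (.e (nat_lit 426846) (nat_lit 0) .nil) .nil))) 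
(.lf (nat_lit 603979) (.g (nat_lit 2017) (.e (nat_lit 761898) (nat_lit 15) (.e (nat_lit 163977) (nat_lit 30) (.e (nat_lit 573487) (nat_lit 14) (.e (nat_lit 73753) (nat_lit 8) (.e (nat_lit 557098) (nat_lit 13) (.e (nat_lit 172065) (nat_lit 3) (.e (nat_lit 204817) (nat_lit 17) (.e (nat_lit 2272) (nat_lit 149) .nil)))))))) (.g (nat_lit 1) (.e (nat_lit 428481) (nat_lit 0) .nil) .nil))))) 
(.nd (nat_lit 8) (.nd (nat_lit 9) 
(.lf (nat_lit 603339) (.g (nat_lit 3551) (.e (nat_lit 655375) (nat_lit 3) (.e (nat_lit 163978) (nat_lit 30) (.e (nat_lit 573491) (nat_lit 15) (.e (nat_lit 81956) (nat_lit 23) (.e (nat_lit 98359) (nat_lit 26) (.e (nat_lit 426043) (nat_lit 0) (.e (nat_lit 3406) (nat_lit 212) .nil))))))) (.g (nat_lit 1) (.e (nat_lit 426562) (nat_lit 0) .nil) .nil))) 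
(.lf (nat_lit 603851) (.g (nat_lit 1141) (.e (nat_lit 655380) (nat_lit 6) (.e (nat_lit 188455) (nat_lit 24) (.e (nat_lit 229664) (nat_lit 240) (.e (nat_lit 2651) (nat_lit 166) .nil)))) (.g (nat_lit 0) (.e (nat_lit 427904) (nat_lit 0) .nil) .nil)))) (.nd (nat_lit 9) 
(.lf (nat_lit 603595) (.g (nat_lit 2129) (.e (nat_lit 655378) (nat_lit 4) (.e (nat_lit 172106) (nat_lit 10) (.e (nat_lit 434271) (nat_lit 38) (.e (nat_lit 655380) (nat_lit 6) (.e (nat_lit 188441) (nat_lit 20) (.e (nat_lit 3406) (nat_lit 212) .nil)))))) (.g (nat_lit 1) (.e (nat_lit 427299) (nat_lit 0) .nil) .nil))) 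
(.lf (nat_lit 604107) (.g (nat_lit 2734) (.e (nat_lit 761898) (nat_lit 15) (.e (nat_lit 163978) (nat_lit 30) (.e (nat_lit 573489) (nat_lit 14) (.e (nat_lit 73755) (nat_lit 8) (.e (nat_lit 557096) (nat_lit 13) (.e (nat_lit 172067) (nat_lit 3) (.e (nat_lit 204814) (nat_lit 17) (.e (nat_lit 2270) (nat_lit 149) .nil)))))))) (.g (nat_lit 1) (.e (nat_lit 428655) (nat_lit 0) .nil) .nil))))))) 
(.nd (nat_lit 6) (.nd (nat_lit 7) (.nd (nat_lit 8) (.nd (nat_lit 9) 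
(.lf (nat_lit 603179) (.g (nat_lit 2928) (.e (nat_lit 655374) (nat_lit 3) (.e (nat_lit 163979) (nat_lit 30) (.e (nat_lit 573493) (nat_lit 15) (.e (nat_lit 81956) (nat_lit 23) (.e (nat_lit 98368) (nat_lit 27) .nil))))) (.g (nat_lit 0) (.e (nat_lit 426322) (nat_lit 0) .nil) .nil))) 
(.lf (nat_lit 603691) (.g (nat_lit 2121) (.e (nat_lit 655378) (nat_lit 4) (.e (nat_lit 172124) (nat_lit 14) (.e (nat_lit 491549) (nat_lit 9) (.e (nat_lit 336430) (nat_lit 29) (.e (nat_lit 442403) (nat_lit 20) .nil))))) (.g (nat_lit 0) (.e (nat_lit 427456) (nat_lit 0) .nil) .nil)))) (.nd (nat_lit 9) 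
(.lf (nat_lit 603435) (.g (nat_lit 3911) (.e (nat_lit 655375) (nat_lit 3) (.e (nat_lit 163979) (nat_lit 30) (.e (nat_lit 573492) (nat_lit 15) (.e (nat_lit 81953) (nat_lit 22) (.e (nat_lit 90170) (nat_lit 13) (.e (nat_lit 172042) (nat_lit 0) (.e (nat_lit 3409) (nat_lit 212) .nil))))))) (.g (nat_lit 1) (.e (nat_lit 426804) (nat_lit 0) .nil) .nil))) 
(.lf (nat_lit 603947) (.g (nat_lit 2512) (.e (nat_lit 761897) (nat_lit 15) (.e (nat_lit 163977) (nat_lit 30) (.e (nat_lit 573489) (nat_lit 14) (.e (nat_lit 73755) (nat_lit 8) (.e (nat_lit 557096) (nat_lit 13) .nil))))) (.g (nat_lit 0) (.e (nat_lit 428363) (nat_lit 0) .nil) .nil))))) (.nd (nat_lit 8) (.nd (nat_lit 9) 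
(.lf (nat_lit 603307) (.g (nat_lit 2444) (.e (nat_lit 655375) (nat_lit 3) (.e (nat_lit 163978) (nat_lit 30) (.e (nat_lit 573490) (nat_lit 15) (.e (nat_lit 81954) (nat_lit 23) (.e (nat_lit 98367) (nat_lit 27) .nil))))) (.g (nat_lit 0) (.e (nat_lit 426471) (nat_lit 0) .nil) .nil))) 
(.lf (nat_lit 603819) (.g (nat_lit 2242) (.e (nat_lit 655380) (nat_lit 6) (.e (nat_lit 188440) (nat_lit 20) (.e (nat_lit 3409) (nat_lit 212) (.e (nat_lit 655380) (nat_lit 6) (.e (nat_lit 188441) (nat_lit 20) (.e (nat_lit 3409) (nat_lit 212) .nil)))))) (.g (nat_lit 1) (.e (nat_lit 427827) (nat_lit 0) .nil) .nil)))) (.nd (nat_lit 9) 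
(.lf (nat_lit 603563) (.g (nat_lit 1069) (.e (nat_lit 655378) (nat_lit 4) (.e (nat_lit 172080) (nat_lit 7) (.e (nat_lit 409642) (nat_lit 17) (.e (nat_lit 294974) (nat_lit 29) (.e (nat_lit 442403) (nat_lit 20) .nil))))) (.g (nat_lit 0) (.e (nat_lit 427227) (nat_lit 0) .nil) .nil))) 
(.lf (nat_lit 604075) (.g (nat_lit 4135) (.e (nat_lit 761898) (nat_lit 15) (.e (nat_lit 163978) (nat_lit 30) (.e (nat_lit 573487) (nat_lit 14) (.e (nat_lit 73753) (nat_lit 8) (.e (nat_lit 557100) (nat_lit 13) (.e (nat_lit 172067) (nat_lit 3) (.e (nat_lit 204817) (nat_lit 17) (.e (nat_lit 7936) (nat_lit 149) .nil)))))))) (.g (nat_lit 1) (.e (nat_lit 428617) (nat_lit 0) .nil) .nil)))))) 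
(.nd (nat_lit 7) (.nd (nat_lit 8) (.nd (nat_lit 9) 
(.lf (nat_lit 603243) (.g (nat_lit 2807) (.e (nat_lit 655375) (nat_lit 3) (.e (nat_lit 163978) (nat_lit 30) (.e (nat_lit 573481) (nat_lit 13) (.e (nat_lit 65604) (nat_lit 9) (.e (nat_lit 336013) (nat_lit 2) (.e (nat_lit 90170) (nat_lit 13) (.e (nat_lit 172046) (nat_lit 0) (.e (nat_lit 3407) (nat_lit 212) .nil)))))))) (.g (nat_lit 1) (.e (nat_lit 426400) (nat_lit 0) .nil) .nil))) 
(.lf (nat_lit 603755) (.g (nat_lit 1306) (.e (nat_lit 655378) (nat_lit 4) (.e (nat_lit 172126) (nat_lit 14) (.e (nat_lit 491571) (nat_lit 13) (.e (nat_lit 393232) (nat_lit 17) (.e (nat_lit 7306) (nat_lit 388) .nil))))) (.g (nat_lit 0) (.e (nat_lit 427673) (nat_lit 0) .nil) .nil)))) (.nd (nat_lit 9) 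
(.lf (nat_lit 603499) (.g (nat_lit 4274) (.e (nat_lit 655375) (nat_lit 3) (.e (nat_lit 163979) (nat_lit 30) (.e (nat_lit 573493) (nat_lit 15) (.e (nat_lit 81951) (nat_lit 22) (.e (nat_lit 90170) (nat_lit 13) (.e (nat_lit 172042) (nat_lit 0) (.e (nat_lit 3408) (nat_lit 212) .nil))))))) (.g (nat_lit 1) (.e (nat_lit 426880) (nat_lit 0) .nil) .nil))) 
(.lf (nat_lit 604011) (.g (nat_lit 2082) (.e (nat_lit 761898) (nat_lit 15) (.e (nat_lit 163977) (nat_lit 30) (.e (nat_lit 573489) (nat_lit 14) (.e (nat_lit 73755) (nat_lit 8) (.e (nat_lit 557097) (nat_lit 13) (.e (nat_lit 172065) (nat_lit 3) (.e (nat_lit 204817) (nat_lit 17) (.e (nat_lit 2272) (nat_lit 149) .nil)))))))) (.g (nat_lit 1) (.e (nat_lit 428520) (nat_lit 0) .nil) .nil))))) 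
(.nd (nat_lit 8) (.nd (nat_lit 9) 
(.lf (nat_lit 603371) (.g (nat_lit 5894) (.e (nat_lit 655375) (nat_lit 3) (.e (nat_lit 163978) (nat_lit 30) (.e (nat_lit 573493) (nat_lit 15) (.e (nat_lit 81956) (nat_lit 23) (.e (nat_lit 98365) (nat_lit 26) (.e (nat_lit 426009) (nat_lit 0) (.e (nat_lit 3410) (nat_lit 212) .nil))))))) (.g (nat_lit 1) (.e (nat_lit 426696) (nat_lit 0) .nil) .nil))) 
(.lf (nat_lit 603883) (.g (nat_lit 3697) (.e (nat_lit 753674) (nat_lit 5) (.e (nat_lit 3098) (nat_lit 192) (.e (nat_lit 491569) (nat_lit 13) (.e (nat_lit 393301) (nat_lit 27) (.e (nat_lit 491558) (nat_lit 10) (.e (nat_lit 344171) (nat_lit 41) .nil)))))) (.g (nat_lit 1) (.e (nat_lit 427964) (nat_lit 0) .nil) .nil)))) (.nd (nat_lit 9) 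
(.lf (nat_lit 603627) (.g (nat_lit 2251) (.e (nat_lit 655378) (nat_lit 4) (.e (nat_lit 172113) (nat_lit 10) (.e (nat_lit 434209) (nat_lit 18) (.e (nat_lit 5548) (nat_lit 306) (.e (nat_lit 2650) (nat_lit 166) .nil))))) (.g (nat_lit 0) (.e (nat_lit 427341) (nat_lit 0) .nil) .nil))) 
(.lf (nat_lit 604139) (.g (nat_lit 3933) (.e (nat_lit 761898) (nat_lit 15) (.e (nat_lit 163978) (nat_lit 30) (.e (nat_lit 573489) (nat_lit 14) (.e (nat_lit 73755) (nat_lit 8) (.e (nat_lit 557105) (nat_lit 14) (.e (nat_lit 180245) (nat_lit 5) (.e (nat_lit 532484) (nat_lit 0) (.e (nat_lit 7936) (nat_lit 149) .nil)))))))) (.g (nat_lit 1) (.e (nat_lit 428692) (nat_lit 0) .nil) .nil)))))))) 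
(.nd (nat_lit 5) (.nd (nat_lit 6) (.nd (nat_lit 7) (.nd (nat_lit 8) (.nd (nat_lit 9) 
(.lf (nat_lit 603163) (.g (nat_lit 3525) (.e (nat_lit 655373) (nat_lit 3) (.e (nat_lit 163979) (nat_lit 30) (.e (nat_lit 573493) (nat_lit 15) (.e (nat_lit 81956) (nat_lit 23) (.e (nat_lit 98367) (nat_lit 27) (.e (nat_lit 434270) (nat_lit 38) .nil)))))) (.g (nat_lit 1) (.e (nat_lit 426281) (nat_lit 0) .nil) .nil))) 
(.lf (nat_lit 603675) (.g (nat_lit 2083) (.e (nat_lit 655378) (nat_lit 4) (.e (nat_lit 172120) (nat_lit 12) (.e (nat_lit 475198) (nat_lit 40) (.e (nat_lit 704599) (nat_lit 6) (.e (nat_lit 188441) (nat_lit 20) (.e (nat_lit 3409) (nat_lit 212) .nil)))))) (.g (nat_lit 1) (.e (nat_lit 427425) (nat_lit 0) .nil) .nil)))) (.nd (nat_lit 9) 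
(.lf (nat_lit 603419) (.g (nat_lit 3480) (.e (nat_lit 655375) (nat_lit 3) (.e (nat_lit 163979) (nat_lit 30) (.e (nat_lit 573485) (nat_lit 13) (.e (nat_lit 65619) (nat_lit 10) (.e (nat_lit 344117) (nat_lit 21) (.e (nat_lit 516151) (nat_lit 9) (.e (nat_lit 426043) (nat_lit 0) (.e (nat_lit 3409) (nat_lit 212) .nil)))))))) (.g (nat_lit 1) (.e (nat_lit 426785) (nat_lit 0) .nil) .nil))) 
(.lf (nat_lit 603931) (.g (nat_lit 3279) (.e (nat_lit 761894) (nat_lit 15) (.e (nat_lit 163979) (nat_lit 30) (.e (nat_lit 573489) (nat_lit 14) (.e (nat_lit 73755) (nat_lit 8) (.e (nat_lit 557097) (nat_lit 13) (.e (nat_lit 172066) (nat_lit 3) (.e (nat_lit 204817) (nat_lit 17) (.e (nat_lit 7936) (nat_lit 149) .nil)))))))) (.g (nat_lit 1) (.e (nat_lit 428184) (nat_lit 0) .nil) .nil))))) 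
(.nd (nat_lit 8) (.nd (nat_lit 9) 
(.lf (nat_lit 603291) (.g (nat_lit 4342) (.e (nat_lit 655375) (nat_lit 3) (.e (nat_lit 163978) (nat_lit 30) (.e (nat_lit 573490) (nat_lit 15) (.e (nat_lit 81951) (nat_lit 22) (.e (nat_lit 90170) (nat_lit 13) (.e (nat_lit 172042) (nat_lit 0) (.e (nat_lit 3406) (nat_lit 212) .nil))))))) (.g (nat_lit 1) (.e (nat_lit 426454) (nat_lit 0) .nil) .nil))) 
(.lf (nat_lit 603803) (.g (nat_lit 2184) (.e (nat_lit 655380) (nat_lit 6) (.e (nat_lit 188434) (nat_lit 20) (.e (nat_lit 3409) (nat_lit 212) (.e (nat_lit 655380) (nat_lit 6) (.e (nat_lit 188441) (nat_lit 20) (.e (nat_lit 3408) (nat_lit 212) .nil)))))) (.g (nat_lit 1) (.e (nat_lit 427811) (nat_lit 0) .nil) .nil)))) (.nd (nat_lit 9) 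
(.lf (nat_lit 603547) (.g (nat_lit 2598) (.e (nat_lit 655376) (nat_lit 4) (.e (nat_lit 172126) (nat_lit 14) (.e (nat_lit 491550) (nat_lit 9) (.e (nat_lit 336430) (nat_lit 29) (.e (nat_lit 442409) (nat_lit 20) (.e (nat_lit 3406) (nat_lit 212) .nil)))))) (.g (nat_lit 1) (.e (nat_lit 427040) (nat_lit 0) .nil) .nil))) 
(.lf (nat_lit 604059) (.g (nat_lit 2862) (.e (nat_lit 761898) (nat_lit 15) (.e (nat_lit 163978) (nat_lit 30) (.e (nat_lit 573487) (nat_lit 14) (.e (nat_lit 73753) (nat_lit 8) (.e (nat_lit 557098) (nat_lit 13) (.e (nat_lit 172065) (nat_lit 3) (.e (nat_lit 204817) (nat_lit 17) (.e (nat_lit 2272) (nat_lit 149) .nil)))))))) (.g (nat_lit 1) (.e (nat_lit 428601) (nat_lit 0) .nil) .nil)))))) 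
(.nd (nat_lit 7) (.nd (nat_lit 8) (.nd (nat_lit 9) 
(.lf (nat_lit 603227) (.g (nat_lit 1728) (.e (nat_lit 655375) (nat_lit 3) (.e (nat_lit 163978) (nat_lit 30) (.e (nat_lit 573479) (nat_lit 13) (.e (nat_lit 65619) (nat_lit 10) .nil)))) (.g (nat_lit 0) (.e (nat_lit 426383) (nat_lit 0) .nil) .nil))) 
(.lf (nat_lit 603739) (.g (nat_lit 3201) (.e (nat_lit 655378) (nat_lit 4) (.e (nat_lit 172126) (nat_lit 14) (.e (nat_lit 491550) (nat_lit 9) (.e (nat_lit 336430) (nat_lit 29) (.e (nat_lit 442409) (nat_lit 20) (.e (nat_lit 3409) (nat_lit 212) .nil)))))) (.g (nat_lit 1) (.e (nat_lit 427619) (nat_lit 0) .nil) .nil)))) (.nd (nat_lit 9) 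
(.lf (nat_lit 603483) (.g (nat_lit 4561) (.e (nat_lit 655375) (nat_lit 3) (.e (nat_lit 163979) (nat_lit 30) (.e (nat_lit 573492) (nat_lit 15) (.e (nat_lit 81956) (nat_lit 23) (.e (nat_lit 98362) (nat_lit 26) (.e (nat_lit 426034) (nat_lit 0) (.e (nat_lit 3409) (nat_lit 212) .nil))))))) (.g (nat_lit 1) (.e (nat_lit 426862) (nat_lit 0) .nil) .nil))) 
(.lf (nat_lit 603995) (.g (nat_lit 4872) (.e (nat_lit 761898) (nat_lit 15) (.e (nat_lit 163977) (nat_lit 30) (.e (nat_lit 573487) (nat_lit 14) (.e (nat_lit 73753) (nat_lit 8) (.e (nat_lit 557103) (nat_lit 14) (.e (nat_lit 180243) (nat_lit 5) (.e (nat_lit 532484) (nat_lit 0) (.e (nat_lit 7936) (nat_lit 149) .nil)))))))) (.g (nat_lit 1) (.e (nat_lit 428498) (nat_lit 0) .nil) .nil))))) 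
(.nd (nat_lit 8) (.nd (nat_lit 9) 
(.lf (nat_lit 603355) (.g (nat_lit 2737) (.e (nat_lit 655375) (nat_lit 3) (.e (nat_lit 163978) (nat_lit 30) (.e (nat_lit 573493) (nat_lit 15) (.e (nat_lit 81953) (nat_lit 22) (.e (nat_lit 90170) (nat_lit 13) (.e (nat_lit 172046) (nat_lit 0) (.e (nat_lit 3407) (nat_lit 212) .nil))))))) (.g (nat_lit 1) (.e (nat_lit 426661) (nat_lit 0) .nil) .nil))) 
(.lf (nat_lit 603867) (.g (nat_lit 629) (.e (nat_lit 655398) (nat_lit 12) (.e (nat_lit 57575) (nat_lit 55) (.e (nat_lit 778465) (nat_lit 11) .nil))) (.g (nat_lit 0) (.e (nat_lit 427937) (nat_lit 0) .nil) .nil)))) (.nd (nat_lit 9) 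
(.lf (nat_lit 603611) (.g (nat_lit 2247) (.e (nat_lit 655378) (nat_lit 4) (.e (nat_lit 172107) (nat_lit 10) (.e (nat_lit 434272) (nat_lit 38) (.e (nat_lit 655380) (nat_lit 6) (.e (nat_lit 188434) (nat_lit 20) (.e (nat_lit 3406) (nat_lit 212) .nil)))))) (.g (nat_lit 1) (.e (nat_lit 427322) (nat_lit 0) .nil) .nil))) 
(.lf (nat_lit 604123) (.g (nat_lit 3745) (.e (nat_lit 761898) (nat_lit 15) (.e (nat_lit 163978) (nat_lit 30) (.e (nat_lit 573489) (nat_lit 14) (.e (nat_lit 73755) (nat_lit 8) (.e (nat_lit 557098) (nat_lit 13) (.e (nat_lit 172067) (nat_lit 3) (.e (nat_lit 204821) (nat_lit 17) (.e (nat_lit 7936) (nat_lit 149) .nil)))))))) (.g (nat_lit 1) (.e (nat_lit 428675) (nat_lit 0) .nil) .nil))))))) 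
(.nd (nat_lit 6) (.nd (nat_lit 7) (.nd (nat_lit 8) (.nd (nat_lit 9) 
(.lf (nat_lit 603195) (.g (nat_lit 2481) (.e (nat_lit 655375) (nat_lit 3) (.e (nat_lit 163977) (nat_lit 30) (.e (nat_lit 573485) (nat_lit 13) (.e (nat_lit 65604) (nat_lit 9) (.e (nat_lit 336013) (nat_lit 2) (.e (nat_lit 90170) (nat_lit 13) (.e (nat_lit 172042) (nat_lit 0) (.e (nat_lit 3407) (nat_lit 212) .nil)))))))) (.g (nat_lit 1) (.e (nat_lit 426347) (nat_lit 0) .nil) .nil))) 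
(.lf (nat_lit 603707) (.g (nat_lit 1521) (.e (nat_lit 655378) (nat_lit 4) (.e (nat_lit 172125) (nat_lit 14) (.e (nat_lit 491571) (nat_lit 13) (.e (nat_lit 393232) (nat_lit 17) .nil)))) (.g (nat_lit 0) (.e (nat_lit 427494) (nat_lit 0) .nil) .nil)))) (.nd (nat_lit 9) 
(.lf (nat_lit 603451) (.g (nat_lit 3840) (.e (nat_lit 655375) (nat_lit 3) (.e (nat_lit 163979) (nat_lit 30) (.e (nat_lit 573492) (nat_lit 15) (.e (nat_lit 81956) (nat_lit 23) (.e (nat_lit 98356) (nat_lit 26) (.e (nat_lit 426091) (nat_lit 0) (.e (nat_lit 3407) (nat_lit 212) .nil))))))) (.g (nat_lit 1) (.e (nat_lit 426830) (nat_lit 0) .nil) .nil))) 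
(.lf (nat_lit 603963) (.g (nat_lit 1894) (.e (nat_lit 761897) (nat_lit 15) (.e (nat_lit 163979) (nat_lit 30) (.e (nat_lit 573489) (nat_lit 14) (.e (nat_lit 73753) (nat_lit 8) .nil)))) (.g (nat_lit 0) (.e (nat_lit 428429) (nat_lit 0) .nil) .nil))))) (.nd (nat_lit 8) (.nd (nat_lit 9) 
(.lf (nat_lit 603323) (.g (nat_lit 5870) (.e (nat_lit 655375) (nat_lit 3) (.e (nat_lit 163978) (nat_lit 30) (.e (nat_lit 573491) (nat_lit 15) (.e (nat_lit 81952) (nat_lit 22) (.e (nat_lit 90170) (nat_lit 13) (.e (nat_lit 172049) (nat_lit 0) (.e (nat_lit 3407) (nat_lit 212) .nil))))))) (.g (nat_lit 1) (.e (nat_lit 426544) (nat_lit 0) .nil) .nil))) 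
(.lf (nat_lit 603835) (.g (nat_lit 1332) (.e (nat_lit 655380) (nat_lit 6) (.e (nat_lit 188453) (nat_lit 24) (.e (nat_lit 229663) (nat_lit 240) (.e (nat_lit 2651) (nat_lit 166) .nil)))) (.g (nat_lit 0) (.e (nat_lit 427882) (nat_lit 0) .nil) .nil)))) (.nd (nat_lit 9) 
(.lf (nat_lit 603579) (.g (nat_lit 2358) (.e (nat_lit 655378) (nat_lit 4) (.e (nat_lit 172097) (nat_lit 9) (.e (nat_lit 426109) (nat_lit 1) (.e (nat_lit 164347) (nat_lit 240) (.e (nat_lit 2650) (nat_lit 166) (.e (nat_lit 188435) (nat_lit 20) (.e (nat_lit 3409) (nat_lit 212) .nil))))))) (.g (nat_lit 1) (.e (nat_lit 427265) (nat_lit 0) .nil) .nil))) 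
(.lf (nat_lit 604091) (.g (nat_lit 4715) (.e (nat_lit 761898) (nat_lit 15) (.e (nat_lit 163978) (nat_lit 30) (.e (nat_lit 573487) (nat_lit 14) (.e (nat_lit 73753) (nat_lit 8) (.e (nat_lit 557103) (nat_lit 14) (.e (nat_lit 180244) (nat_lit 5) (.e (nat_lit 532481) (nat_lit 0) (.e (nat_lit 2271) (nat_lit 149) .nil)))))))) (.g (nat_lit 1) (.e (nat_lit 428635) (nat_lit 0) .nil) .nil)))))) 
(.nd (nat_lit 7) (.nd (nat_lit 8) (.nd (nat_lit 9) 
(.lf (nat_lit 603259) (.g (nat_lit 3118) (.e (nat_lit 655375) (nat_lit 3) (.e (nat_lit 163978) (nat_lit 30) (.e (nat_lit 573482) (nat_lit 13) (.e (nat_lit 65604) (nat_lit 9) (.e (nat_lit 336028) (nat_lit 3) (.e (nat_lit 98359) (nat_lit 26) (.e (nat_lit 426042) (nat_lit 0) (.e (nat_lit 3409) (nat_lit 212) .nil)))))))) (.g (nat_lit 1) (.e (nat_lit 426416) (nat_lit 0) .nil) .nil))) 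
(.lf (nat_lit 603771) (.g (nat_lit 1819) (.e (nat_lit 655380) (nat_lit 6) (.e (nat_lit 188427) (nat_lit 20) (.e (nat_lit 3402) (nat_lit 211) (.e (nat_lit 647185) (nat_lit 6) (.e (nat_lit 188440) (nat_lit 20) (.e (nat_lit 3409) (nat_lit 212) .nil)))))) (.g (nat_lit 1) (.e (nat_lit 427764) (nat_lit 0) .nil) .nil)))) (.nd (nat_lit 9) 
(.lf (nat_lit 603515) (.g (nat_lit 2424) (.e (nat_lit 655375) (nat_lit 3) (.e (nat_lit 163979) (nat_lit 30) (.e (nat_lit 573493) (nat_lit 15) (.e (nat_lit 81956) (nat_lit 23) (.e (nat_lit 98359) (nat_lit 26) .nil))))) (.g (nat_lit 0) (.e (nat_lit 426896) (nat_lit 0) .nil) .nil))) 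
(.lf (nat_lit 604027) (.g (nat_lit 2373) (.e (nat_lit 761898) (nat_lit 15) (.e (nat_lit 163977) (nat_lit 30) (.e (nat_lit 573489) (nat_lit 14) (.e (nat_lit 73755) (nat_lit 8) (.e (nat_lit 557097) (nat_lit 13) (.e (nat_lit 172067) (nat_lit 3) (.e (nat_lit 204820) (nat_lit 17) (.e (nat_lit 7936) (nat_lit 149) .nil)))))))) (.g (nat_lit 1) (.e (nat_lit 428536) (nat_lit 0) .nil) .nil))))) 
(.nd (nat_lit 8) (.nd (nat_lit 9) 
(.lf (nat_lit 603387) (.g (nat_lit 3721) (.e (nat_lit 655375) (nat_lit 3) (.e (nat_lit 163979) (nat_lit 30) (.e (nat_lit 573481) (nat_lit 13) (.e (nat_lit 65604) (nat_lit 9) (.e (nat_lit 336028) (nat_lit 3) (.e (nat_lit 98359) (nat_lit 26) (.e (nat_lit 426043) (nat_lit 0) (.e (nat_lit 3409) (nat_lit 212) .nil)))))))) (.g (nat_lit 1) (.e (nat_lit 426753) (nat_lit 0) .nil) .nil))) 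
(.lf (nat_lit 603899) (.g (nat_lit 727) (.e (nat_lit 761867) (nat_lit 5) (.e (nat_lit 1423) (nat_lit 108) (.e (nat_lit 336326) (nat_lit 18) (.e (nat_lit 204865) (nat_lit 28) .nil)))) (.g (nat_lit 0) (.e (nat_lit 428031) (nat_lit 0) .nil) .nil)))) (.nd (nat_lit 9) 
(.lf (nat_lit 603643) (.g (nat_lit 2285) (.e (nat_lit 655378) (nat_lit 4) (.e (nat_lit 172115) (nat_lit 10) (.e (nat_lit 434271) (nat_lit 38) (.e (nat_lit 655380) (nat_lit 6) (.e (nat_lit 188441) (nat_lit 20) (.e (nat_lit 3406) (nat_lit 212) .nil)))))) (.g (nat_lit 1) (.e (nat_lit 427375) (nat_lit 0) .nil) .nil))) 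
(.lf (nat_lit 604155) (.g (nat_lit 2840) (.e (nat_lit 761898) (nat_lit 15) (.e (nat_lit 163979) (nat_lit 30) (.e (nat_lit 573487) (nat_lit 14) (.e (nat_lit 73753) (nat_lit 8) (.e (nat_lit 557100) (nat_lit 13) (.e (nat_lit 172065) (nat_lit 3) (.e (nat_lit 204817) (nat_lit 17) (.e (nat_lit 2272) (nat_lit 149) .nil)))))))) (.g (nat_lit 1) (.e (nat_lit 428734) (nat_lit 0) .nil) .nil)))))))))) 
(.nd (nat_lit 3) (.nd (nat_lit 4) (.nd (nat_lit 5) (.nd (nat_lit 6) (.nd (nat_lit 7) 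
(.nd (nat_lit 8) (.nd (nat_lit 9) 
(.lf (nat_lit 603143) (.g (nat_lit 1980) (.e (nat_lit 655373) (nat_lit 3) (.e (nat_lit 163979) (nat_lit 30) (.e (nat_lit 573491) (nat_lit 15) (.e (nat_lit 81951) (nat_lit 22) (.e (nat_lit 90170) (nat_lit 13) (.e (nat_lit 172042) (nat_lit 0) (.e (nat_lit 3407) (nat_lit 212) .nil))))))) (.g (nat_lit 1) (.e (nat_lit 426247) (nat_lit 0) .nil) .nil))) 
(.lf (nat_lit 603655) (.g (nat_lit 2010) (.e (nat_lit 655378) (nat_lit 4) (.e (nat_lit 172116) (nat_lit 10) (.e (nat_lit 434209) (nat_lit 18) (.e (nat_lit 5548) (nat_lit 306) (.e (nat_lit 2648) (nat_lit 166) (.e (nat_lit 188441) (nat_lit 20) (.e (nat_lit 3409) (nat_lit 212) .nil))))))) (.g (nat_lit 1) (.e (nat_lit 427398) (nat_lit 0) .nil) .nil)))) (.nd (nat_lit 9) 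
(.lf (nat_lit 603399) (.g (nat_lit 2280) (.e (nat_lit 655375) (nat_lit 3) (.e (nat_lit 163979) (nat_lit 30) (.e (nat_lit 573482) (nat_lit 13) (.e (nat_lit 65604) (nat_lit 9) (.e (nat_lit 336028) (nat_lit 3) (.e (nat_lit 98359) (nat_lit 26) (.e (nat_lit 426039) (nat_lit 0) (.e (nat_lit 3406) (nat_lit 212) .nil)))))))) (.g (nat_lit 1) (.e (nat_lit 426765) (nat_lit 0) .nil) .nil))) 
(.lf (nat_lit 603911) (.g (nat_lit 2682) (.e (nat_lit 761893) (nat_lit 15) (.e (nat_lit 163979) (nat_lit 30) (.e (nat_lit 573489) (nat_lit 14) (.e (nat_lit 73754) (nat_lit 8) (.e (nat_lit 557101) (nat_lit 13) .nil))))) (.g (nat_lit 0) (.e (nat_lit 428107) (nat_lit 0) .nil) .nil))))) (.nd (nat_lit 8) (.nd (nat_lit 9) 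
(.lf (nat_lit 603271) (.g (nat_lit 3779) (.e (nat_lit 655375) (nat_lit 3) (.e (nat_lit 163978) (nat_lit 30) (.e (nat_lit 573483) (nat_lit 13) (.e (nat_lit 65610) (nat_lit 10) (.e (nat_lit 344117) (nat_lit 21) (.e (nat_lit 516151) (nat_lit 9) (.e (nat_lit 426043) (nat_lit 0) (.e (nat_lit 3407) (nat_lit 212) .nil)))))))) (.g (nat_lit 1) (.e (nat_lit 426428) (nat_lit 0) .nil) .nil))) 
(.lf (nat_lit 603783) (.g (nat_lit 1624) (.e (nat_lit 655380) (nat_lit 6) (.e (nat_lit 188434) (nat_lit 20) (.e (nat_lit 3406) (nat_lit 212) (.e (nat_lit 655380) (nat_lit 6) (.e (nat_lit 188439) (nat_lit 20) (.e (nat_lit 3408) (nat_lit 212) .nil)))))) (.g (nat_lit 1) (.e (nat_lit 427784) (nat_lit 0) .nil) .nil)))) (.nd (nat_lit 9) 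
(.lf (nat_lit 603527) (.g (nat_lit 1625) (.e (nat_lit 655376) (nat_lit 4) (.e (nat_lit 172119) (nat_lit 12) (.e (nat_lit 475199) (nat_lit 40) (.e (nat_lit 704598) (nat_lit 6) (.e (nat_lit 188435) (nat_lit 20) .nil))))) (.g (nat_lit 0) (.e (nat_lit 426975) (nat_lit 0) .nil) .nil))) 
(.lf (nat_lit 604039) (.g (nat_lit 3413) (.e (nat_lit 761898) (nat_lit 15) (.e (nat_lit 163977) (nat_lit 30) (.e (nat_lit 573489) (nat_lit 14) (.e (nat_lit 73755) (nat_lit 8) (.e (nat_lit 557104) (nat_lit 14) (.e (nat_lit 180242) (nat_lit 5) (.e (nat_lit 532481) (nat_lit 0) (.e (nat_lit 2271) (nat_lit 149) .nil)))))))) (.g (nat_lit 1) (.e (nat_lit 428553) (nat_lit 0) .nil) .nil)))))) 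
(.nd (nat_lit 7) (.nd (nat_lit 8) (.nd (nat_lit 9) 
(.lf (nat_lit 603207) (.g (nat_lit 2451) (.e (nat_lit 655375) (nat_lit 3) (.e (nat_lit 163977) (nat_lit 30) (.e (nat_lit 573493) (nat_lit 15) (.e (nat_lit 81953) (nat_lit 22) (.e (nat_lit 90170) (nat_lit 13) (.e (nat_lit 172042) (nat_lit 0) (.e (nat_lit 3407) (nat_lit 212) .nil))))))) (.g (nat_lit 1) (.e (nat_lit 426362) (nat_lit 0) .nil) .nil))) 
(.lf (nat_lit 603719) (.g (nat_lit 3128) (.e (nat_lit 655378) (nat_lit 4) (.e (nat_lit 172126) (nat_lit 14) (.e (nat_lit 491547) (nat_lit 9) (.e (nat_lit 336443) (nat_lit 32) (.e (nat_lit 466960) (nat_lit 20) (.e (nat_lit 3403) (nat_lit 212) .nil)))))) (.g (nat_lit 1) (.e (nat_lit 427586) (nat_lit 0) .nil) .nil)))) (.nd (nat_lit 9) 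
(.lf (nat_lit 603463) (.g (nat_lit 3384) (.e (nat_lit 655375) (nat_lit 3) (.e (nat_lit 163979) (nat_lit 30) (.e (nat_lit 573492) (nat_lit 15) (.e (nat_lit 81956) (nat_lit 23) (.e (nat_lit 98360) (nat_lit 26) (.e (nat_lit 426036) (nat_lit 0) (.e (nat_lit 3407) (nat_lit 212) .nil))))))) (.g (nat_lit 1) (.e (nat_lit 426842) (nat_lit 0) .nil) .nil))) 
(.lf (nat_lit 603975) (.g (nat_lit 3236) (.e (nat_lit 761898) (nat_lit 15) (.e (nat_lit 163977) (nat_lit 30) (.e (nat_lit 573487) (nat_lit 14) (.e (nat_lit 73753) (nat_lit 8) (.e (nat_lit 557096) (nat_lit 13) (.e (nat_lit 172067) (nat_lit 3) (.e (nat_lit 204817) (nat_lit 17) (.e (nat_lit 7936) (nat_lit 149) .nil)))))))) (.g (nat_lit 1) (.e (nat_lit 428477) (nat_lit 0) .nil) .nil))))) 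
(.nd (nat_lit 8) (.nd (nat_lit 9) 
(.lf (nat_lit 603335) (.g (nat_lit 2839) (.e (nat_lit 655375) (nat_lit 3) (.e (nat_lit 163978) (nat_lit 30) (.e (nat_lit 573491) (nat_lit 15) (.e (nat_lit 81954) (nat_lit 23) (.e (nat_lit 98366) (nat_lit 27) (.e (nat_lit 434271) (nat_lit 38) .nil)))))) (.g (nat_lit 1) (.e (nat_lit 426558) (nat_lit 0) .nil) .nil))) 
(.lf (nat_lit 603847) (.g (nat_lit 2747) (.e (nat_lit 655380) (nat_lit 6) (.e (nat_lit 188455) (nat_lit 24) (.e (nat_lit 229663) (nat_lit 240) (.e (nat_lit 2651) (nat_lit 166) (.e (nat_lit 188441) (nat_lit 20) .nil))))) (.g (nat_lit 0) (.e (nat_lit 427899) (nat_lit 0) .nil) .nil)))) (.nd (nat_lit 9) 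
(.lf (nat_lit 603591) (.g (nat_lit 2581) (.e (nat_lit 655378) (nat_lit 4) (.e (nat_lit 172106) (nat_lit 10) (.e (nat_lit 434271) (nat_lit 38) (.e (nat_lit 655380) (nat_lit 6) (.e (nat_lit 188434) (nat_lit 20) (.e (nat_lit 3406) (nat_lit 212) .nil)))))) (.g (nat_lit 1) (.e (nat_lit 427295) (nat_lit 0) .nil) .nil))) 
(.lf (nat_lit 604103) (.g (nat_lit 3082) (.e (nat_lit 761898) (nat_lit 15) (.e (nat_lit 163978) (nat_lit 30) (.e (nat_lit 573489) (nat_lit 14) (.e (nat_lit 73754) (nat_lit 8) (.e (nat_lit 557101) (nat_lit 13) (.e (nat_lit 172066) (nat_lit 3) (.e (nat_lit 204817) (nat_lit 17) (.e (nat_lit 7936) (nat_lit 149) .nil)))))))) (.g (nat_lit 1) (.e (nat_lit 428649) (nat_lit 0) .nil) .nil))))))) 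
(.nd (nat_lit 6) (.nd (nat_lit 7) (.nd (nat_lit 8) (.nd (nat_lit 9) 
(.lf (nat_lit 603175) (.g (nat_lit 2144) (.e (nat_lit 655374) (nat_lit 3) (.e (nat_lit 163979) (nat_lit 30) (.e (nat_lit 573482) (nat_lit 13) (.e (nat_lit 65619) (nat_lit 10) (.e (nat_lit 344117) (nat_lit 21) .nil))))) (.g (nat_lit 0) (.e (nat_lit 426305) (nat_lit 0) .nil) .nil))) 
(.lf (nat_lit 603687) (.g (nat_lit 2614) (.e (nat_lit 655378) (nat_lit 4) (.e (nat_lit 172120) (nat_lit 12) (.e (nat_lit 475211) (nat_lit 41) (.e (nat_lit 712752) (nat_lit 29) (.e (nat_lit 442412) (nat_lit 20) .nil))))) (.g (nat_lit 0) (.e (nat_lit 427443) (nat_lit 0) .nil) .nil)))) (.nd (nat_lit 9) 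
(.lf (nat_lit 603431) (.g (nat_lit 3340) (.e (nat_lit 655375) (nat_lit 3) (.e (nat_lit 163979) (nat_lit 30) (.e (nat_lit 573492) (nat_lit 15) (.e (nat_lit 81951) (nat_lit 22) (.e (nat_lit 90170) (nat_lit 13) (.e (nat_lit 172049) (nat_lit 0) (.e (nat_lit 3406) (nat_lit 212) .nil))))))) (.g (nat_lit 1) (.e (nat_lit 426800) (nat_lit 0) .nil) .nil))) 
(.lf (nat_lit 603943) (.g (nat_lit 2255) (.e (nat_lit 761895) (nat_lit 15) (.e (nat_lit 163978) (nat_lit 30) (.e (nat_lit 573489) (nat_lit 14) (.e (nat_lit 73755) (nat_lit 8) (.e (nat_lit 557105) (nat_lit 14) .nil))))) (.g (nat_lit 0) (.e (nat_lit 428246) (nat_lit 0) .nil) .nil))))) (.nd (nat_lit 8) (.nd (nat_lit 9) 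
(.lf (nat_lit 603303) (.g (nat_lit 3657) (.e (nat_lit 655375) (nat_lit 3) (.e (nat_lit 163978) (nat_lit 30) (.e (nat_lit 573490) (nat_lit 15) (.e (nat_lit 81954) (nat_lit 23) (.e (nat_lit 98359) (nat_lit 26) (.e (nat_lit 426043) (nat_lit 0) (.e (nat_lit 3406) (nat_lit 212) .nil))))))) (.g (nat_lit 1) (.e (nat_lit 426467) (nat_lit 0) .nil) .nil))) 
(.lf (nat_lit 603815) (.g (nat_lit 2759) (.e (nat_lit 655380) (nat_lit 6) (.e (nat_lit 188440) (nat_lit 20) (.e (nat_lit 3409) (nat_lit 212) (.e (nat_lit 655378) (nat_lit 4) (.e (nat_lit 172106) (nat_lit 10) (.e (nat_lit 434272) (nat_lit 38) .nil)))))) (.g (nat_lit 1) (.e (nat_lit 427823) (nat_lit 0) .nil) .nil)))) (.nd (nat_lit 9) 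
(.lf (nat_lit 603559) (.g (nat_lit 1884) (.e (nat_lit 655378) (nat_lit 4) (.e (nat_lit 172079) (nat_lit 7) (.e (nat_lit 409642) (nat_lit 17) (.e (nat_lit 294974) (nat_lit 29) (.e (nat_lit 442408) (nat_lit 20) (.e (nat_lit 3409) (nat_lit 212) .nil)))))) (.g (nat_lit 1) (.e (nat_lit 427218) (nat_lit 0) .nil) .nil))) 
(.lf (nat_lit 604071) (.g (nat_lit 5229) (.e (nat_lit 761898) (nat_lit 15) (.e (nat_lit 163978) (nat_lit 30) (.e (nat_lit 573487) (nat_lit 14) (.e (nat_lit 73753) (nat_lit 8) (.e (nat_lit 557100) (nat_lit 13) (.e (nat_lit 172065) (nat_lit 3) (.e (nat_lit 204817) (nat_lit 17) (.e (nat_lit 7936) (nat_lit 149) .nil)))))))) (.g (nat_lit 1) (.e (nat_lit 428613) (nat_lit 0) .nil) .nil)))))) 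
(.nd (nat_lit 7) (.nd (nat_lit 8) (.nd (nat_lit 9) 
(.lf (nat_lit 603239) (.g (nat_lit 2607) (.e (nat_lit 655375) (nat_lit 3) (.e (nat_lit 163978) (nat_lit 30) (.e (nat_lit 573480) (nat_lit 13) (.e (nat_lit 65610) (nat_lit 10) (.e (nat_lit 344117) (nat_lit 21) (.e (nat_lit 516151) (nat_lit 9) (.e (nat_lit 426043) (nat_lit 0) (.e (nat_lit 3408) (nat_lit 212) .nil)))))))) (.g (nat_lit 1) (.e (nat_lit 426396) (nat_lit 0) .nil) .nil))) 
(.lf (nat_lit 603751) (.g (nat_lit 3760) (.e (nat_lit 655378) (nat_lit 4) (.e (nat_lit 172126) (nat_lit 14) (.e (nat_lit 491569) (nat_lit 13) (.e (nat_lit 393282) (nat_lit 24) (.e (nat_lit 434272) (nat_lit 38) .nil))))) (.g (nat_lit 1) (.e (nat_lit 427665) (nat_lit 0) .nil) .nil)))) (.nd (nat_lit 9) 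
(.lf (nat_lit 603495) (.g (nat_lit 5228) (.e (nat_lit 655375) (nat_lit 3) (.e (nat_lit 163979) (nat_lit 30) (.e (nat_lit 573492) (nat_lit 15) (.e (nat_lit 81956) (nat_lit 23) (.e (nat_lit 98365) (nat_lit 26) (.e (nat_lit 426014) (nat_lit 0) (.e (nat_lit 3411) (nat_lit 212) .nil))))))) (.g (nat_lit 1) (.e (nat_lit 426874) (nat_lit 0) .nil) .nil))) 
(.lf (nat_lit 604007) (.g (nat_lit 2303) (.e (nat_lit 761898) (nat_lit 15) (.e (nat_lit 163977) (nat_lit 30) (.e (nat_lit 573489) (nat_lit 14) (.e (nat_lit 73755) (nat_lit 8) (.e (nat_lit 557096) (nat_lit 13) .nil))))) (.g (nat_lit 0) (.e (nat_lit 428513) (nat_lit 0) .nil) .nil))))) (.nd (nat_lit 8) (.nd (nat_lit 9) 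
(.lf (nat_lit 603367) (.g (nat_lit 2992) (.e (nat_lit 655375) (nat_lit 3) (.e (nat_lit 163978) (nat_lit 30) (.e (nat_lit 573493) (nat_lit 15) (.e (nat_lit 81956) (nat_lit 23) (.e (nat_lit 98359) (nat_lit 26) (.e (nat_lit 426043) (nat_lit 0) (.e (nat_lit 3409) (nat_lit 212) .nil))))))) (.g (nat_lit 1) (.e (nat_lit 426692) (nat_lit 0) .nil) .nil))) 
(.lf (nat_lit 603879) (.g (nat_lit 3780) (.e (nat_lit 753673) (nat_lit 5) (.e (nat_lit 3098) (nat_lit 192) (.e (nat_lit 491569) (nat_lit 13) (.e (nat_lit 393301) (nat_lit 27) (.e (nat_lit 491560) (nat_lit 10) (.e (nat_lit 344170) (nat_lit 41) .nil)))))) (.g (nat_lit 1) (.e (nat_lit 427955) (nat_lit 0) .nil) .nil)))) (.nd (nat_lit 9) 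
(.lf (nat_lit 603623) (.g (nat_lit 1897) (.e (nat_lit 655378) (nat_lit 4) (.e (nat_lit 172112) (nat_lit 10) (.e (nat_lit 434272) (nat_lit 38) (.e (nat_lit 655380) (nat_lit 6) (.e (nat_lit 188441) (nat_lit 20) (.e (nat_lit 3406) (nat_lit 212) .nil)))))) (.g (nat_lit 1) (.e (nat_lit 427334) (nat_lit 0) .nil) .nil))) 
(.lf (nat_lit 604135) (.g (nat_lit 3129) (.e (nat_lit 761898) (nat_lit 15) (.e (nat_lit 163978) (nat_lit 30) (.e (nat_lit 573489) (nat_lit 14) (.e (nat_lit 73755) (nat_lit 8) (.e (nat_lit 557105) (nat_lit 14) (.e (nat_lit 180244) (nat_lit 5) (.e (nat_lit 532484) (nat_lit 0) (.e (nat_lit 2271) (nat_lit 149) .nil)))))))) (.g (nat_lit 1) (.e (nat_lit 428688) (nat_lit 0) .nil) .nil)))))))) 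
(.nd (nat_lit 5) (.nd (nat_lit 6) (.nd (nat_lit 7) (.nd (nat_lit 8) (.nd (nat_lit 9) 
(.lf (nat_lit 603159) (.g (nat_lit 3713) (.e (nat_lit 655373) (nat_lit 3) (.e (nat_lit 163979) (nat_lit 30) (.e (nat_lit 573493) (nat_lit 15) (.e (nat_lit 81953) (nat_lit 22) (.e (nat_lit 90170) (nat_lit 13) (.e (nat_lit 172049) (nat_lit 0) (.e (nat_lit 3407) (nat_lit 212) .nil))))))) (.g (nat_lit 1) (.e (nat_lit 426269) (nat_lit 0) .nil) .nil))) 
(.lf (nat_lit 603671) (.g (nat_lit 903) (.e (nat_lit 655378) (nat_lit 4) (.e (nat_lit 172120) (nat_lit 12) (.e (nat_lit 475198) (nat_lit 40) (.e (nat_lit 704598) (nat_lit 6) .nil)))) (.g (nat_lit 0) (.e (nat_lit 427421) (nat_lit 0) .nil) .nil)))) (.nd (nat_lit 9) 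
(.lf (nat_lit 603415) (.g (nat_lit 3131) (.e (nat_lit 655375) (nat_lit 3) (.e (nat_lit 163979) (nat_lit 30) (.e (nat_lit 573485) (nat_lit 13) (.e (nat_lit 65619) (nat_lit 10) (.e (nat_lit 344117) (nat_lit 21) (.e (nat_lit 516151) (nat_lit 9) (.e (nat_lit 426042) (nat_lit 0) (.e (nat_lit 3407) (nat_lit 212) .nil)))))))) (.g (nat_lit 1) (.e (nat_lit 426781) (nat_lit 0) .nil) .nil))) 
(.lf (nat_lit 603927) (.g (nat_lit 2381) (.e (nat_lit 761894) (nat_lit 15) (.e (nat_lit 163979) (nat_lit 30) (.e (nat_lit 573489) (nat_lit 14) (.e (nat_lit 73754) (nat_lit 8) (.e (nat_lit 557095) (nat_lit 13) .nil))))) (.g (nat_lit 0) (.e (nat_lit 428180) (nat_lit 0) .nil) .nil))))) (.nd (nat_lit 8) (.nd (nat_lit 9) 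
(.lf (nat_lit 603287) (.g (nat_lit 2644) (.e (nat_lit 655375) (nat_lit 3) (.e (nat_lit 163978) (nat_lit 30) (.e (nat_lit 573485) (nat_lit 13) (.e (nat_lit 65619) (nat_lit 10) (.e (nat_lit 344117) (nat_lit 21) (.e (nat_lit 516151) (nat_lit 9) (.e (nat_lit 426003) (nat_lit 0) (.e (nat_lit 3406) (nat_lit 212) .nil)))))))) (.g (nat_lit 1) (.e (nat_lit 426445) (nat_lit 0) .nil) .nil))) 
(.lf (nat_lit 603799) (.g (nat_lit 1704) (.e (nat_lit 655380) (nat_lit 6) (.e (nat_lit 188434) (nat_lit 20) (.e (nat_lit 3409) (nat_lit 212) (.e (nat_lit 655380) (nat_lit 6) (.e (nat_lit 188439) (nat_lit 20) (.e (nat_lit 3408) (nat_lit 212) .nil)))))) (.g (nat_lit 1) (.e (nat_lit 427807) (nat_lit 0) .nil) .nil)))) (.nd (nat_lit 9) 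
(.lf (nat_lit 603543) (.g (nat_lit 2207) (.e (nat_lit 655376) (nat_lit 4) (.e (nat_lit 172124) (nat_lit 14) (.e (nat_lit 491550) (nat_lit 9) (.e (nat_lit 336430) (nat_lit 29) (.e (nat_lit 442409) (nat_lit 20) .nil))))) (.g (nat_lit 0) (.e (nat_lit 427001) (nat_lit 0) .nil) .nil))) 
(.lf (nat_lit 604055) (.g (nat_lit 2424) (.e (nat_lit 761898) (nat_lit 15) (.e (nat_lit 163978) (nat_lit 30) (.e (nat_lit 573487) (nat_lit 14) (.e (nat_lit 73753) (nat_lit 8) (.e (nat_lit 557097) (nat_lit 13) (.e (nat_lit 172065) (nat_lit 3) (.e (nat_lit 204817) (nat_lit 17) (.e (nat_lit 7936) (nat_lit 149) .nil)))))))) (.g (nat_lit 1) (.e (nat_lit 428597) (nat_lit 0) .nil) .nil)))))) 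
(.nd (nat_lit 7) (.nd (nat_lit 8) (.nd (nat_lit 9) 
(.lf (nat_lit 603223) (.g (nat_lit 4694) (.e (nat_lit 655375) (nat_lit 3) (.e (nat_lit 163978) (nat_lit 30) (.e (nat_lit 573479) (nat_lit 13) (.e (nat_lit 65604) (nat_lit 9) (.e (nat_lit 336028) (nat_lit 3) (.e (nat_lit 98359) (nat_lit 26) (.e (nat_lit 426043) (nat_lit 0) (.e (nat_lit 3407) (nat_lit 212) .nil)))))))) (.g (nat_lit 1) (.e (nat_lit 426379) (nat_lit 0) .nil) .nil))) 
(.lf (nat_lit 603735) (.g (nat_lit 3227) (.e (nat_lit 655378) (nat_lit 4) (.e (nat_lit 172126) (nat_lit 14) (.e (nat_lit 491550) (nat_lit 9) (.e (nat_lit 336430) (nat_lit 29) (.e (nat_lit 442402) (nat_lit 20) (.e (nat_lit 3409) (nat_lit 212) .nil)))))) (.g (nat_lit 1) (.e (nat_lit 427615) (nat_lit 0) .nil) .nil)))) (.nd (nat_lit 9) 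
(.lf (nat_lit 603479) (.g (nat_lit 4393) (.e (nat_lit 655375) (nat_lit 3) (.e (nat_lit 163979) (nat_lit 30) (.e (nat_lit 573492) (nat_lit 15) (.e (nat_lit 81956) (nat_lit 23) (.e (nat_lit 98362) (nat_lit 26) (.e (nat_lit 426003) (nat_lit 0) (.e (nat_lit 3408) (nat_lit 212) .nil))))))) (.g (nat_lit 1) (.e (nat_lit 426858) (nat_lit 0) .nil) .nil))) 
(.lf (nat_lit 603991) (.g (nat_lit 2491) (.e (nat_lit 761898) (nat_lit 15) (.e (nat_lit 163977) (nat_lit 30) (.e (nat_lit 573487) (nat_lit 14) (.e (nat_lit 73753) (nat_lit 8) (.e (nat_lit 557101) (nat_lit 13) (.e (nat_lit 172066) (nat_lit 3) (.e (nat_lit 204815) (nat_lit 17) (.e (nat_lit 2271) (nat_lit 149) .nil)))))))) (.g (nat_lit 1) (.e (nat_lit 428494) (nat_lit 0) .nil) .nil))))) 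
(.nd (nat_lit 8) (.nd (nat_lit 9) 
(.lf (nat_lit 603351) (.g (nat_lit 3124) (.e (nat_lit 655375) (nat_lit 3) (.e (nat_lit 163978) (nat_lit 30) (.e (nat_lit 573493) (nat_lit 15) (.e (nat_lit 81951) (nat_lit 22) (.e (nat_lit 90170) (nat_lit 13) (.e (nat_lit 172049) (nat_lit 0) (.e (nat_lit 3409) (nat_lit 212) .nil))))))) (.g (nat_lit 1) (.e (nat_lit 426654) (nat_lit 0) .nil) .nil))) 
(.lf (nat_lit 603863) (.g (nat_lit 726) (.e (nat_lit 655382) (nat_lit 8) (.e (nat_lit 237619) (nat_lit 12) (.e (nat_lit 475199) (nat_lit 40) (.e (nat_lit 704598) (nat_lit 6) .nil)))) (.g (nat_lit 0) (.e (nat_lit 427927) (nat_lit 0) .nil) .nil)))) (.nd (nat_lit 9) 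
(.lf (nat_lit 603607) (.g (nat_lit 1999) (.e (nat_lit 655378) (nat_lit 4) (.e (nat_lit 172107) (nat_lit 10) (.e (nat_lit 434271) (nat_lit 38) (.e (nat_lit 655380) (nat_lit 6) (.e (nat_lit 188439) (nat_lit 20) (.e (nat_lit 3408) (nat_lit 212) .nil)))))) (.g (nat_lit 1) (.e (nat_lit 427318) (nat_lit 0) .nil) .nil))) 
(.lf (nat_lit 604119) (.g (nat_lit 3012) (.e (nat_lit 761898) (nat_lit 15) (.e (nat_lit 163978) (nat_lit 30) (.e (nat_lit 573489) (nat_lit 14) (.e (nat_lit 73755) (nat_lit 8) (.e (nat_lit 557098) (nat_lit 13) (.e (nat_lit 172065) (nat_lit 3) (.e (nat_lit 204821) (nat_lit 17) (.e (nat_lit 2264) (nat_lit 149) .nil)))))))) (.g (nat_lit 1) (.e (nat_lit 428671) (nat_lit 0) .nil) .nil))))))) 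
(.nd (nat_lit 6) (.nd (nat_lit 7) (.nd (nat_lit 8) (.nd (nat_lit 9) 
(.lf (nat_lit 603191) (.g (nat_lit 2648) (.e (nat_lit 655375) (nat_lit 3) (.e (nat_lit 163977) (nat_lit 30) (.e (nat_lit 573481) (nat_lit 13) (.e (nat_lit 65619) (nat_lit 10) (.e (nat_lit 344117) (nat_lit 21) (.e (nat_lit 516151) (nat_lit 9) (.e (nat_lit 426043) (nat_lit 0) (.e (nat_lit 3409) (nat_lit 212) .nil)))))))) (.g (nat_lit 1) (.e (nat_lit 426343) (nat_lit 0) .nil) .nil))) 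
(.lf (nat_lit 603703) (.g (nat_lit 1886) (.e (nat_lit 655378) (nat_lit 4) (.e (nat_lit 172125) (nat_lit 14) (.e (nat_lit 491570) (nat_lit 13) (.e (nat_lit 393274) (nat_lit 23) .nil)))) (.g (nat_lit 0) (.e (nat_lit 427489) (nat_lit 0) .nil) .nil)))) (.nd (nat_lit 9) 
(.lf (nat_lit 603447) (.g (nat_lit 3168) (.e (nat_lit 655375) (nat_lit 3) (.e (nat_lit 163979) (nat_lit 30) (.e (nat_lit 573492) (nat_lit 15) (.e (nat_lit 81956) (nat_lit 23) (.e (nat_lit 98356) (nat_lit 26) (.e (nat_lit 425986) (nat_lit 0) (.e (nat_lit 3404) (nat_lit 212) .nil))))))) (.g (nat_lit 1) (.e (nat_lit 426826) (nat_lit 0) .nil) .nil))) 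
(.lf (nat_lit 603959) (.g (nat_lit 3131) (.e (nat_lit 761897) (nat_lit 15) (.e (nat_lit 163978) (nat_lit 30) (.e (nat_lit 573489) (nat_lit 14) (.e (nat_lit 73755) (nat_lit 8) (.e (nat_lit 557097) (nat_lit 13) .nil))))) (.g (nat_lit 0) (.e (nat_lit 428391) (nat_lit 0) .nil) .nil))))) (.nd (nat_lit 8) (.nd (nat_lit 9) 
(.lf (nat_lit 603319) (.g (nat_lit 5183) (.e (nat_lit 655375) (nat_lit 3) (.e (nat_lit 163978) (nat_lit 30) (.e (nat_lit 573491) (nat_lit 15) (.e (nat_lit 81952) (nat_lit 22) (.e (nat_lit 90170) (nat_lit 13) (.e (nat_lit 172042) (nat_lit 0) (.e (nat_lit 3406) (nat_lit 212) .nil))))))) (.g (nat_lit 1) (.e (nat_lit 426540) (nat_lit 0) .nil) .nil))) 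
(.lf (nat_lit 603831) (.g (nat_lit 2601) (.e (nat_lit 655380) (nat_lit 6) (.e (nat_lit 188446) (nat_lit 21) (.e (nat_lit 164347) (nat_lit 240) (.e (nat_lit 2648) (nat_lit 166) (.e (nat_lit 188440) (nat_lit 20) (.e (nat_lit 3409) (nat_lit 212) .nil)))))) (.g (nat_lit 1) (.e (nat_lit 427868) (nat_lit 0) .nil) .nil)))) (.nd (nat_lit 9) 
(.lf (nat_lit 603575) (.g (nat_lit 848) (.e (nat_lit 655378) (nat_lit 4) (.e (nat_lit 172095) (nat_lit 9) (.e (nat_lit 426109) (nat_lit 1) (.e (nat_lit 164347) (nat_lit 240) .nil)))) (.g (nat_lit 0) (.e (nat_lit 427253) (nat_lit 0) .nil) .nil))) 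
(.lf (nat_lit 604087) (.g (nat_lit 3803) (.e (nat_lit 761898) (nat_lit 15) (.e (nat_lit 163978) (nat_lit 30) (.e (nat_lit 573487) (nat_lit 14) (.e (nat_lit 73753) (nat_lit 8) (.e (nat_lit 557103) (nat_lit 14) (.e (nat_lit 180243) (nat_lit 5) (.e (nat_lit 532481) (nat_lit 0) (.e (nat_lit 2271) (nat_lit 149) .nil)))))))) (.g (nat_lit 1) (.e (nat_lit 428631) (nat_lit 0) .nil) .nil)))))) 
(.nd (nat_lit 7) (.nd (nat_lit 8) (.nd (nat_lit 9) 
(.lf (nat_lit 603255) (.g (nat_lit 2004) (.e (nat_lit 655375) (nat_lit 3) (.e (nat_lit 163978) (nat_lit 30) (.e (nat_lit 573482) (nat_lit 13) (.e (nat_lit 65589) (nat_lit 9) .nil)))) (.g (nat_lit 0) (.e (nat_lit 426412) (nat_lit 0) .nil) .nil))) 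
(.lf (nat_lit 603767) (.g (nat_lit 1592) (.e (nat_lit 655380) (nat_lit 6) (.e (nat_lit 188427) (nat_lit 20) (.e (nat_lit 3401) (nat_lit 211) (.e (nat_lit 647185) (nat_lit 6) (.e (nat_lit 188439) (nat_lit 20) (.e (nat_lit 3409) (nat_lit 212) .nil)))))) (.g (nat_lit 1) (.e (nat_lit 427756) (nat_lit 0) .nil) .nil)))) (.nd (nat_lit 9) 
(.lf (nat_lit 603511) (.g (nat_lit 4051) (.e (nat_lit 655375) (nat_lit 3) (.e (nat_lit 163979) (nat_lit 30) (.e (nat_lit 573493) (nat_lit 15) (.e (nat_lit 81954) (nat_lit 23) (.e (nat_lit 98359) (nat_lit 26) (.e (nat_lit 426043) (nat_lit 0) (.e (nat_lit 3407) (nat_lit 212) .nil))))))) (.g (nat_lit 1) (.e (nat_lit 426892) (nat_lit 0) .nil) .nil))) 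
(.lf (nat_lit 604023) (.g (nat_lit 2403) (.e (nat_lit 761898) (nat_lit 15) (.e (nat_lit 163977) (nat_lit 30) (.e (nat_lit 573489) (nat_lit 14) (.e (nat_lit 73755) (nat_lit 8) (.e (nat_lit 557097) (nat_lit 13) (.e (nat_lit 172067) (nat_lit 3) (.e (nat_lit 204817) (nat_lit 17) (.e (nat_lit 2271) (nat_lit 149) .nil)))))))) (.g (nat_lit 1) (.e (nat_lit 428532) (nat_lit 0) .nil) .nil))))) 
(.nd (nat_lit 8) (.nd (nat_lit 9) 
(.lf (nat_lit 603383) (.g (nat_lit 4489) (.e (nat_lit 655375) (nat_lit 3) (.e (nat_lit 163979) (nat_lit 30) (.e (nat_lit 573481) (nat_lit 13) (.e (nat_lit 65604) (nat_lit 9) (.e (nat_lit 336013) (nat_lit 2) (.e (nat_lit 90170) (nat_lit 13) (.e (nat_lit 172049) (nat_lit 0) (.e (nat_lit 3408) (nat_lit 212) .nil)))))))) (.g (nat_lit 1) (.e (nat_lit 426749) (nat_lit 0) .nil) .nil))) 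
(.lf (nat_lit 603895) (.g (nat_lit 1043) (.e (nat_lit 761866) (nat_lit 5) (.e (nat_lit 1423) (nat_lit 108) (.e (nat_lit 336326) (nat_lit 18) (.e (nat_lit 204865) (nat_lit 28) (.e (nat_lit 352279) (nat_lit 19) .nil))))) (.g (nat_lit 0) (.e (nat_lit 428025) (nat_lit 0) .nil) .nil)))) (.nd (nat_lit 9) 
(.lf (nat_lit 603639) (.g (nat_lit 4303) (.e (nat_lit 655378) (nat_lit 4) (.e (nat_lit 172115) (nat_lit 10) (.e (nat_lit 434209) (nat_lit 18) (.e (nat_lit 5548) (nat_lit 306) (.e (nat_lit 2650) (nat_lit 166) (.e (nat_lit 188434) (nat_lit 20) (.e (nat_lit 3409) (nat_lit 212) .nil))))))) (.g (nat_lit 1) (.e (nat_lit 427368) (nat_lit 0) .nil) .nil))) 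
(.lf (nat_lit 604151) (.g (nat_lit 2556) (.e (nat_lit 761898) (nat_lit 15) (.e (nat_lit 163979) (nat_lit 30) (.e (nat_lit 573487) (nat_lit 14) (.e (nat_lit 73753) (nat_lit 8) (.e (nat_lit 557098) (nat_lit 13) (.e (nat_lit 172065) (nat_lit 3) (.e (nat_lit 204817) (nat_lit 17) (.e (nat_lit 2271) (nat_lit 149) .nil)))))))) (.g (nat_lit 1) (.e (nat_lit 428730) (nat_lit 0) .nil) .nil))))))))) 
(.nd (nat_lit 4) (.nd (nat_lit 5) (.nd (nat_lit 6) (.nd (nat_lit 7) (.nd (nat_lit 8) 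
(.nd (nat_lit 9) 
(.lf (nat_lit 603151) (.g (nat_lit 3383) (.e (nat_lit 655373) (nat_lit 3) (.e (nat_lit 163979) (nat_lit 30) (.e (nat_lit 573493) (nat_lit 15) (.e (nat_lit 81951) (nat_lit 22) (.e (nat_lit 90170) (nat_lit 13) (.e (nat_lit 172046) (nat_lit 0) (.e (nat_lit 3406) (nat_lit 212) .nil))))))) (.g (nat_lit 1) (.e (nat_lit 426260) (nat_lit 0) .nil) .nil))) 
(.lf (nat_lit 603663) (.g (nat_lit 1903) (.e (nat_lit 655378) (nat_lit 4) (.e (nat_lit 172118) (nat_lit 12) (.e (nat_lit 475199) (nat_lit 40) (.e (nat_lit 704599) (nat_lit 6) (.e (nat_lit 188441) (nat_lit 20) (.e (nat_lit 3409) (nat_lit 212) .nil)))))) (.g (nat_lit 1) (.e (nat_lit 427409) (nat_lit 0) .nil) .nil)))) (.nd (nat_lit 9) 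
(.lf (nat_lit 603407) (.g (nat_lit 3568) (.e (nat_lit 655375) (nat_lit 3) (.e (nat_lit 163979) (nat_lit 30) (.e (nat_lit 573485) (nat_lit 13) (.e (nat_lit 65604) (nat_lit 9) (.e (nat_lit 336013) (nat_lit 2) (.e (nat_lit 90170) (nat_lit 13) (.e (nat_lit 172049) (nat_lit 0) (.e (nat_lit 3407) (nat_lit 212) .nil)))))))) (.g (nat_lit 1) (.e (nat_lit 426773) (nat_lit 0) .nil) .nil))) 
(.lf (nat_lit 603919) (.g (nat_lit 3108) (.e (nat_lit 761894) (nat_lit 15) (.e (nat_lit 163978) (nat_lit 30) (.e (nat_lit 573489) (nat_lit 14) (.e (nat_lit 73755) (nat_lit 8) (.e (nat_lit 557103) (nat_lit 14) .nil))))) (.g (nat_lit 0) (.e (nat_lit 428155) (nat_lit 0) .nil) .nil))))) (.nd (nat_lit 8) (.nd (nat_lit 9) 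
(.lf (nat_lit 603279) (.g (nat_lit 4127) (.e (nat_lit 655375) (nat_lit 3) (.e (nat_lit 163978) (nat_lit 30) (.e (nat_lit 573484) (nat_lit 13) (.e (nat_lit 65617) (nat_lit 10) (.e (nat_lit 344117) (nat_lit 21) .nil))))) (.g (nat_lit 0) (.e (nat_lit 426437) (nat_lit 0) .nil) .nil))) 
(.lf (nat_lit 603791) (.g (nat_lit 1547) (.e (nat_lit 655380) (nat_lit 6) (.e (nat_lit 188434) (nat_lit 20) (.e (nat_lit 3408) (nat_lit 212) (.e (nat_lit 655380) (nat_lit 6) (.e (nat_lit 188439) (nat_lit 20) (.e (nat_lit 3408) (nat_lit 212) .nil)))))) (.g (nat_lit 1) (.e (nat_lit 427795) (nat_lit 0) .nil) .nil)))) (.nd (nat_lit 9) 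
(.lf (nat_lit 603535) (.g (nat_lit 680) (.e (nat_lit 655376) (nat_lit 4) (.e (nat_lit 172124) (nat_lit 14) (.e (nat_lit 491549) (nat_lit 9) .nil))) (.g (nat_lit 0) (.e (nat_lit 426991) (nat_lit 0) .nil) .nil))) 
(.lf (nat_lit 604047) (.g (nat_lit 4707) (.e (nat_lit 761898) (nat_lit 15) (.e (nat_lit 163977) (nat_lit 30) (.e (nat_lit 573489) (nat_lit 14) (.e (nat_lit 73755) (nat_lit 8) (.e (nat_lit 557104) (nat_lit 14) (.e (nat_lit 180244) (nat_lit 5) (.e (nat_lit 532484) (nat_lit 0) (.e (nat_lit 7936) (nat_lit 149) .nil)))))))) (.g (nat_lit 1) (.e (nat_lit 428561) (nat_lit 0) .nil) .nil)))))) 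
(.nd (nat_lit 7) (.nd (nat_lit 8) (.nd (nat_lit 9) 
(.lf (nat_lit 603215) (.g (nat_lit 1959) (.e (nat_lit 655375) (nat_lit 3) (.e (nat_lit 163978) (nat_lit 30) (.e (nat_lit 573479) (nat_lit 13) (.e (nat_lit 65604) (nat_lit 9) .nil)))) (.g (nat_lit 0) (.e (nat_lit 426371) (nat_lit 0) .nil) .nil))) 
(.lf (nat_lit 603727) (.g (nat_lit 3276) (.e (nat_lit 655378) (nat_lit 4) (.e (nat_lit 172126) (nat_lit 14) (.e (nat_lit 491549) (nat_lit 9) (.e (nat_lit 336430) (nat_lit 29) (.e (nat_lit 442409) (nat_lit 20) (.e (nat_lit 3408) (nat_lit 212) .nil)))))) (.g (nat_lit 1) (.e (nat_lit 427607) (nat_lit 0) .nil) .nil)))) (.nd (nat_lit 9) 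
(.lf (nat_lit 603471) (.g (nat_lit 3536) (.e (nat_lit 655375) (nat_lit 3) (.e (nat_lit 163979) (nat_lit 30) (.e (nat_lit 573492) (nat_lit 15) (.e (nat_lit 81956) (nat_lit 23) (.e (nat_lit 98360) (nat_lit 26) (.e (nat_lit 426045) (nat_lit 0) (.e (nat_lit 3407) (nat_lit 212) .nil))))))) (.g (nat_lit 1) (.e (nat_lit 426850) (nat_lit 0) .nil) .nil))) 
(.lf (nat_lit 603983) (.g (nat_lit 3060) (.e (nat_lit 761898) (nat_lit 15) (.e (nat_lit 163977) (nat_lit 30) (.e (nat_lit 573487) (nat_lit 14) (.e (nat_lit 73753) (nat_lit 8) (.e (nat_lit 557098) (nat_lit 13) (.e (nat_lit 172066) (nat_lit 3) (.e (nat_lit 204817) (nat_lit 17) (.e (nat_lit 7936) (nat_lit 149) .nil)))))))) (.g (nat_lit 1) (.e (nat_lit 428485) (nat_lit 0) .nil) .nil))))) 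
(.nd (nat_lit 8) (.nd (nat_lit 9) 
(.lf (nat_lit 603343) (.g (nat_lit 3329) (.e (nat_lit 655375) (nat_lit 3) (.e (nat_lit 163978) (nat_lit 30) (.e (nat_lit 573491) (nat_lit 15) (.e (nat_lit 81956) (nat_lit 23) (.e (nat_lit 98366) (nat_lit 27) (.e (nat_lit 434271) (nat_lit 38) .nil)))))) (.g (nat_lit 1) (.e (nat_lit 426566) (nat_lit 0) .nil) .nil))) 
(.lf (nat_lit 603855) (.g (nat_lit 2647) (.e (nat_lit 655380) (nat_lit 6) (.e (nat_lit 188455) (nat_lit 24) (.e (nat_lit 229666) (nat_lit 240) (.e (nat_lit 2630) (nat_lit 164) (.e (nat_lit 172113) (nat_lit 10) (.e (nat_lit 434272) (nat_lit 38) .nil)))))) (.g (nat_lit 1) (.e (nat_lit 427908) (nat_lit 0) .nil) .nil)))) (.nd (nat_lit 9) 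
(.lf (nat_lit 603599) (.g (nat_lit 2366) (.e (nat_lit 655378) (nat_lit 4) (.e (nat_lit 172106) (nat_lit 10) (.e (nat_lit 434272) (nat_lit 38) (.e (nat_lit 655380) (nat_lit 6) (.e (nat_lit 188439) (nat_lit 20) (.e (nat_lit 3406) (nat_lit 212) .nil)))))) (.g (nat_lit 1) (.e (nat_lit 427310) (nat_lit 0) .nil) .nil))) 
(.lf (nat_lit 604111) (.g (nat_lit 4181) (.e (nat_lit 761898) (nat_lit 15) (.e (nat_lit 163978) (nat_lit 30) (.e (nat_lit 573489) (nat_lit 14) (.e (nat_lit 73755) (nat_lit 8) (.e (nat_lit 557097) (nat_lit 13) (.e (nat_lit 172065) (nat_lit 3) (.e (nat_lit 204817) (nat_lit 17) (.e (nat_lit 7936) (nat_lit 149) .nil)))))))) (.g (nat_lit 1) (.e (nat_lit 428660) (nat_lit 0) .nil) .nil))))))) 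
(.nd (nat_lit 6) (.nd (nat_lit 7) (.nd (nat_lit 8) (.nd (nat_lit 9) 
(.lf (nat_lit 603183) (.g (nat_lit 2340) (.e (nat_lit 655375) (nat_lit 3) (.e (nat_lit 163973) (nat_lit 30) (.e (nat_lit 573484) (nat_lit 13) (.e (nat_lit 65610) (nat_lit 10) (.e (nat_lit 344117) (nat_lit 21) (.e (nat_lit 516151) (nat_lit 9) (.e (nat_lit 426043) (nat_lit 0) (.e (nat_lit 3407) (nat_lit 212) .nil)))))))) (.g (nat_lit 1) (.e (nat_lit 426326) (nat_lit 0) .nil) .nil))) 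
(.lf (nat_lit 603695) (.g (nat_lit 2121) (.e (nat_lit 655378) (nat_lit 4) (.e (nat_lit 172124) (nat_lit 14) (.e (nat_lit 491549) (nat_lit 9) (.e (nat_lit 336430) (nat_lit 29) (.e (nat_lit 442412) (nat_lit 20) .nil))))) (.g (nat_lit 0) (.e (nat_lit 427460) (nat_lit 0) .nil) .nil)))) (.nd (nat_lit 9) 
(.lf (nat_lit 603439) (.g (nat_lit 3331) (.e (nat_lit 655375) (nat_lit 3) (.e (nat_lit 163979) (nat_lit 30) (.e (nat_lit 573492) (nat_lit 15) (.e (nat_lit 81954) (nat_lit 23) (.e (nat_lit 98359) (nat_lit 26) (.e (nat_lit 426043) (nat_lit 0) (.e (nat_lit 3406) (nat_lit 212) .nil))))))) (.g (nat_lit 1) (.e (nat_lit 426809) (nat_lit 0) .nil) .nil))) 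
(.lf (nat_lit 603951) (.g (nat_lit 2560) (.e (nat_lit 761897) (nat_lit 15) (.e (nat_lit 163978) (nat_lit 30) (.e (nat_lit 573489) (nat_lit 14) (.e (nat_lit 73754) (nat_lit 8) (.e (nat_lit 557100) (nat_lit 13) .nil))))) (.g (nat_lit 0) (.e (nat_lit 428381) (nat_lit 0) .nil) .nil))))) (.nd (nat_lit 8) (.nd (nat_lit 9) 
(.lf (nat_lit 603311) (.g (nat_lit 4594) (.e (nat_lit 655375) (nat_lit 3) (.e (nat_lit 163978) (nat_lit 30) (.e (nat_lit 573490) (nat_lit 15) (.e (nat_lit 81956) (nat_lit 23) (.e (nat_lit 98366) (nat_lit 27) (.e (nat_lit 434271) (nat_lit 38) .nil)))))) (.g (nat_lit 1) (.e (nat_lit 426475) (nat_lit 0) .nil) .nil))) 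
(.lf (nat_lit 603823) (.g (nat_lit 1901) (.e (nat_lit 655380) (nat_lit 6) (.e (nat_lit 188441) (nat_lit 20) (.e (nat_lit 3409) (nat_lit 212) (.e (nat_lit 655380) (nat_lit 6) (.e (nat_lit 188441) (nat_lit 20) (.e (nat_lit 3406) (nat_lit 212) .nil)))))) (.g (nat_lit 1) (.e (nat_lit 427834) (nat_lit 0) .nil) .nil)))) (.nd (nat_lit 9) 
(.lf (nat_lit 603567) (.g (nat_lit 1161) (.e (nat_lit 655378) (nat_lit 4) (.e (nat_lit 172089) (nat_lit 9) (.e (nat_lit 426025) (nat_lit 0) (.e (nat_lit 3397) (nat_lit 211) (.e (nat_lit 647185) (nat_lit 6) .nil))))) (.g (nat_lit 0) (.e (nat_lit 427236) (nat_lit 0) .nil) .nil))) 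
(.lf (nat_lit 604079) (.g (nat_lit 4467) (.e (nat_lit 761898) (nat_lit 15) (.e (nat_lit 163978) (nat_lit 30) (.e (nat_lit 573487) (nat_lit 14) (.e (nat_lit 73753) (nat_lit 8) (.e (nat_lit 557101) (nat_lit 13) (.e (nat_lit 172065) (nat_lit 3) (.e (nat_lit 204817) (nat_lit 17) (.e (nat_lit 7936) (nat_lit 149) .nil)))))))) (.g (nat_lit 1) (.e (nat_lit 428622) (nat_lit 0) .nil) .nil)))))) 
(.nd (nat_lit 7) (.nd (nat_lit 8) (.nd (nat_lit 9) 
(.lf (nat_lit 603247) (.g (nat_lit 3760) (.e (nat_lit 655375) (nat_lit 3) (.e (nat_lit 163978) (nat_lit 30) (.e (nat_lit 573481) (nat_lit 13) (.e (nat_lit 65604) (nat_lit 9) (.e (nat_lit 336028) (nat_lit 3) (.e (nat_lit 98359) (nat_lit 26) (.e (nat_lit 426043) (nat_lit 0) (.e (nat_lit 3407) (nat_lit 212) .nil)))))))) (.g (nat_lit 1) (.e (nat_lit 426404) (nat_lit 0) .nil) .nil))) 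
(.lf (nat_lit 603759) (.g (nat_lit 2904) (.e (nat_lit 655378) (nat_lit 4) (.e (nat_lit 172126) (nat_lit 14) (.e (nat_lit 491571) (nat_lit 13) (.e (nat_lit 393277) (nat_lit 23) .nil)))) (.g (nat_lit 0) (.e (nat_lit 427709) (nat_lit 0) .nil) .nil)))) (.nd (nat_lit 9) 
(.lf (nat_lit 603503) (.g (nat_lit 4091) (.e (nat_lit 655375) (nat_lit 3) (.e (nat_lit 163979) (nat_lit 30) (.e (nat_lit 573493) (nat_lit 15) (.e (nat_lit 81951) (nat_lit 22) (.e (nat_lit 90170) (nat_lit 13) (.e (nat_lit 172049) (nat_lit 0) (.e (nat_lit 3407) (nat_lit 212) .nil))))))) (.g (nat_lit 1) (.e (nat_lit 426884) (nat_lit 0) .nil) .nil))) 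
(.lf (nat_lit 604015) (.g (nat_lit 3530) (.e (nat_lit 761898) (nat_lit 15) (.e (nat_lit 163977) (nat_lit 30) (.e (nat_lit 573489) (nat_lit 14) (.e (nat_lit 73755) (nat_lit 8) (.e (nat_lit 557097) (nat_lit 13) (.e (nat_lit 172066) (nat_lit 3) (.e (nat_lit 204815) (nat_lit 17) (.e (nat_lit 2271) (nat_lit 149) .nil)))))))) (.g (nat_lit 1) (.e (nat_lit 428524) (nat_lit 0) .nil) .nil))))) 
(.nd (nat_lit 8) (.nd (nat_lit 9) 
(.lf (nat_lit 603375) (.g (nat_lit 3152) (.e (nat_lit 655375) (nat_lit 3) (.e (nat_lit 163978) (nat_lit 30) (.e (nat_lit 573493) (nat_lit 15) (.e (nat_lit 81956) (nat_lit 23) (.e (nat_lit 98368) (nat_lit 27) .nil))))) (.g (nat_lit 0) (.e (nat_lit 426700) (nat_lit 0) .nil) .nil))) 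
(.lf (nat_lit 603887) (.g (nat_lit 1611) (.e (nat_lit 753676) (nat_lit 5) (.e (nat_lit 3102) (nat_lit 192) (.e (nat_lit 491568) (nat_lit 13) (.e (nat_lit 393301) (nat_lit 27) .nil)))) (.g (nat_lit 0) (.e (nat_lit 427971) (nat_lit 0) .nil) .nil)))) (.nd (nat_lit 9) 
(.lf (nat_lit 603631) (.g (nat_lit 1627) (.e (nat_lit 655378) (nat_lit 4) (.e (nat_lit 172115) (nat_lit 10) (.e (nat_lit 434209) (nat_lit 18) (.e (nat_lit 5546) (nat_lit 306) (.e (nat_lit 2648) (nat_lit 166) .nil))))) (.g (nat_lit 0) (.e (nat_lit 427350) (nat_lit 0) .nil) .nil))) 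
(.lf (nat_lit 604143) (.g (nat_lit 1580) (.e (nat_lit 761898) (nat_lit 15) (.e (nat_lit 163979) (nat_lit 30) (.e (nat_lit 573487) (nat_lit 14) (.e (nat_lit 73753) (nat_lit 8) .nil)))) (.g (nat_lit 0) (.e (nat_lit 428722) (nat_lit 0) .nil) .nil)))))))) (.nd (nat_lit 5) (.nd (nat_lit 6) (.nd (nat_lit 7) (.nd (nat_lit 8) (.nd (nat_lit 9) 
(.lf (nat_lit 603167) (.g (nat_lit 3245) (.e (nat_lit 655374) (nat_lit 3) (.e (nat_lit 163978) (nat_lit 30) (.e (nat_lit 573484) (nat_lit 13) (.e (nat_lit 65617) (nat_lit 10) .nil)))) (.g (nat_lit 0) (.e (nat_lit 426292) (nat_lit 0) .nil) .nil))) 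
(.lf (nat_lit 603679) (.g (nat_lit 1301) (.e (nat_lit 655378) (nat_lit 4) (.e (nat_lit 172120) (nat_lit 12) (.e (nat_lit 475210) (nat_lit 41) (.e (nat_lit 712752) (nat_lit 29) .nil)))) (.g (nat_lit 0) (.e (nat_lit 427434) (nat_lit 0) .nil) .nil)))) (.nd (nat_lit 9) 
(.lf (nat_lit 603423) (.g (nat_lit 2576) (.e (nat_lit 655375) (nat_lit 3) (.e (nat_lit 163979) (nat_lit 30) (.e (nat_lit 573491) (nat_lit 15) (.e (nat_lit 81951) (nat_lit 22) (.e (nat_lit 90170) (nat_lit 13) (.e (nat_lit 172046) (nat_lit 0) (.e (nat_lit 3407) (nat_lit 212) .nil))))))) (.g (nat_lit 1) (.e (nat_lit 426789) (nat_lit 0) .nil) .nil))) 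
(.lf (nat_lit 603935) (.g (nat_lit 2416) (.e (nat_lit 761895) (nat_lit 15) (.e (nat_lit 163977) (nat_lit 30) (.e (nat_lit 573489) (nat_lit 14) (.e (nat_lit 73755) (nat_lit 8) (.e (nat_lit 557104) (nat_lit 14) .nil))))) (.g (nat_lit 0) (.e (nat_lit 428225) (nat_lit 0) .nil) .nil))))) (.nd (nat_lit 8) (.nd (nat_lit 9) 
(.lf (nat_lit 603295) (.g (nat_lit 3497) (.e (nat_lit 655375) (nat_lit 3) (.e (nat_lit 163978) (nat_lit 30) (.e (nat_lit 573490) (nat_lit 15) (.e (nat_lit 81951) (nat_lit 22) (.e (nat_lit 90170) (nat_lit 13) (.e (nat_lit 172046) (nat_lit 0) (.e (nat_lit 3406) (nat_lit 212) .nil))))))) (.g (nat_lit 1) (.e (nat_lit 426458) (nat_lit 0) .nil) .nil))) 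
(.lf (nat_lit 603807) (.g (nat_lit 1071) (.e (nat_lit 655380) (nat_lit 6) (.e (nat_lit 188438) (nat_lit 20) (.e (nat_lit 3409) (nat_lit 212) (.e (nat_lit 655380) (nat_lit 6) (.e (nat_lit 188435) (nat_lit 20) (.e (nat_lit 3408) (nat_lit 212) .nil)))))) (.g (nat_lit 1) (.e (nat_lit 427815) (nat_lit 0) .nil) .nil)))) (.nd (nat_lit 9) 
(.lf (nat_lit 603551) (.g (nat_lit 2738) (.e (nat_lit 655377) (nat_lit 4) (.e (nat_lit 172120) (nat_lit 12) (.e (nat_lit 475211) (nat_lit 41) (.e (nat_lit 712753) (nat_lit 30) (.e (nat_lit 458496) (nat_lit 16) .nil))))) (.g (nat_lit 1) (.e (nat_lit 427130) (nat_lit 0) .nil) .nil))) 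
(.lf (nat_lit 604063) (.g (nat_lit 3158) (.e (nat_lit 761898) (nat_lit 15) (.e (nat_lit 163978) (nat_lit 30) (.e (nat_lit 573487) (nat_lit 14) (.e (nat_lit 73753) (nat_lit 8) (.e (nat_lit 557098) (nat_lit 13) (.e (nat_lit 172066) (nat_lit 3) (.e (nat_lit 204815) (nat_lit 17) (.e (nat_lit 2271) (nat_lit 149) .nil)))))))) (.g (nat_lit 1) (.e (nat_lit 428605) (nat_lit 0) .nil) .nil)))))) 
(.nd (nat_lit 7) (.nd (nat_lit 8) (.nd (nat_lit 9) 
(.lf (nat_lit 603231) (.g (nat_lit 3047) (.e (nat_lit 655375) (nat_lit 3) (.e (nat_lit 163978) (nat_lit 30) (.e (nat_lit 573480) (nat_lit 13) (.e (nat_lit 65604) (nat_lit 9) (.e (nat_lit 336013) (nat_lit 2) (.e (nat_lit 90170) (nat_lit 13) (.e (nat_lit 172042) (nat_lit 0) (.e (nat_lit 3406) (nat_lit 212) .nil)))))))) (.g (nat_lit 1) (.e (nat_lit 426387) (nat_lit 0) .nil) .nil))) 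
(.lf (nat_lit 603743) (.g (nat_lit 705) (.e (nat_lit 655378) (nat_lit 4) (.e (nat_lit 172126) (nat_lit 14) (.e (nat_lit 491552) (nat_lit 9) .nil))) (.g (nat_lit 0) (.e (nat_lit 427623) (nat_lit 0) .nil) .nil)))) (.nd (nat_lit 9) 
(.lf (nat_lit 603487) (.g (nat_lit 4506) (.e (nat_lit 655375) (nat_lit 3) (.e (nat_lit 163979) (nat_lit 30) (.e (nat_lit 573492) (nat_lit 15) (.e (nat_lit 81956) (nat_lit 23) (.e (nat_lit 98362) (nat_lit 26) (.e (nat_lit 426043) (nat_lit 0) (.e (nat_lit 3409) (nat_lit 212) .nil))))))) (.g (nat_lit 1) (.e (nat_lit 426866) (nat_lit 0) .nil) .nil))) 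
(.lf (nat_lit 603999) (.g (nat_lit 4325) (.e (nat_lit 761898) (nat_lit 15) (.e (nat_lit 163977) (nat_lit 30) (.e (nat_lit 573489) (nat_lit 14) (.e (nat_lit 73754) (nat_lit 8) (.e (nat_lit 557100) (nat_lit 13) (.e (nat_lit 172065) (nat_lit 3) (.e (nat_lit 204817) (nat_lit 17) (.e (nat_lit 7936) (nat_lit 149) .nil)))))))) (.g (nat_lit 1) (.e (nat_lit 428503) (nat_lit 0) .nil) .nil))))) 
(.nd (nat_lit 8) (.nd (nat_lit 9) 
(.lf (nat_lit 603359) (.g (nat_lit 4109) (.e (nat_lit 655375) (nat_lit 3) (.e (nat_lit 163978) (nat_lit 30) (.e (nat_lit 573493) (nat_lit 15) (.e (nat_lit 81954) (nat_lit 23) (.e (nat_lit 98359) (nat_lit 26) (.e (nat_lit 426043) (nat_lit 0) (.e (nat_lit 3407) (nat_lit 212) .nil))))))) (.g (nat_lit 1) (.e (nat_lit 426668) (nat_lit 0) .nil) .nil))) 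
(.lf (nat_lit 603871) (.g (nat_lit 1313) (.e (nat_lit 753670) (nat_lit 5) (.e (nat_lit 3105) (nat_lit 192) (.e (nat_lit 491568) (nat_lit 13) (.e (nat_lit 393301) (nat_lit 27) .nil)))) (.g (nat_lit 0) (.e (nat_lit 427945) (nat_lit 0) .nil) .nil)))) (.nd (nat_lit 9) 
(.lf (nat_lit 603615) (.g (nat_lit 2360) (.e (nat_lit 655378) (nat_lit 4) (.e (nat_lit 172107) (nat_lit 10) (.e (nat_lit 434272) (nat_lit 38) (.e (nat_lit 655380) (nat_lit 6) (.e (nat_lit 188440) (nat_lit 20) (.e (nat_lit 3408) (nat_lit 212) .nil)))))) (.g (nat_lit 1) (.e (nat_lit 427326) (nat_lit 0) .nil) .nil))) 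
(.lf (nat_lit 604127) (.g (nat_lit 4098) (.e (nat_lit 761898) (nat_lit 15) (.e (nat_lit 163978) (nat_lit 30) (.e (nat_lit 573489) (nat_lit 14) (.e (nat_lit 73755) (nat_lit 8) (.e (nat_lit 557103) (nat_lit 14) (.e (nat_lit 180244) (nat_lit 5) (.e (nat_lit 532484) (nat_lit 0) (.e (nat_lit 2271) (nat_lit 149) .nil)))))))) (.g (nat_lit 1) (.e (nat_lit 428679) (nat_lit 0) .nil) .nil))))))) 
(.nd (nat_lit 6) (.nd (nat_lit 7) (.nd (nat_lit 8) (.nd (nat_lit 9) 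
(.lf (nat_lit 603199) (.g (nat_lit 2285) (.e (nat_lit 655375) (nat_lit 3) (.e (nat_lit 163977) (nat_lit 30) (.e (nat_lit 573491) (nat_lit 15) (.e (nat_lit 81951) (nat_lit 22) (.e (nat_lit 90170) (nat_lit 13) (.e (nat_lit 172046) (nat_lit 0) (.e (nat_lit 3407) (nat_lit 212) .nil))))))) (.g (nat_lit 1) (.e (nat_lit 426351) (nat_lit 0) .nil) .nil))) 
(.lf (nat_lit 603711) (.g (nat_lit 2560) (.e (nat_lit 655378) (nat_lit 4) (.e (nat_lit 172125) (nat_lit 14) (.e (nat_lit 491571) (nat_lit 13) (.e (nat_lit 393276) (nat_lit 23) .nil)))) (.g (nat_lit 0) (.e (nat_lit 427557) (nat_lit 0) .nil) .nil)))) (.nd (nat_lit 9) 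
(.lf (nat_lit 603455) (.g (nat_lit 3397) (.e (nat_lit 655375) (nat_lit 3) (.e (nat_lit 163979) (nat_lit 30) (.e (nat_lit 573492) (nat_lit 15) (.e (nat_lit 81956) (nat_lit 23) (.e (nat_lit 98359) (nat_lit 26) .nil))))) (.g (nat_lit 0) (.e (nat_lit 426834) (nat_lit 0) .nil) .nil))) 
(.lf (nat_lit 603967) (.g (nat_lit 2798) (.e (nat_lit 761897) (nat_lit 15) (.e (nat_lit 163979) (nat_lit 30) (.e (nat_lit 573489) (nat_lit 14) (.e (nat_lit 73755) (nat_lit 8) (.e (nat_lit 557096) (nat_lit 13) .nil))))) (.g (nat_lit 0) (.e (nat_lit 428435) (nat_lit 0) .nil) .nil))))) (.nd (nat_lit 8) (.nd (nat_lit 9) 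
(.lf (nat_lit 603327) (.g (nat_lit 3923) (.e (nat_lit 655375) (nat_lit 3) (.e (nat_lit 163978) (nat_lit 30) (.e (nat_lit 573491) (nat_lit 15) (.e (nat_lit 81953) (nat_lit 22) (.e (nat_lit 90170) (nat_lit 13) (.e (nat_lit 172042) (nat_lit 0) (.e (nat_lit 3408) (nat_lit 212) .nil))))))) (.g (nat_lit 1) (.e (nat_lit 426550) (nat_lit 0) .nil) .nil))) 
(.lf (nat_lit 603839) (.g (nat_lit 2985) (.e (nat_lit 655380) (nat_lit 6) (.e (nat_lit 188453) (nat_lit 24) (.e (nat_lit 229680) (nat_lit 244) (.e (nat_lit 163923) (nat_lit 15) (.e (nat_lit 450593) (nat_lit 16) .nil))))) (.g (nat_lit 1) (.e (nat_lit 427886) (nat_lit 0) .nil) .nil)))) (.nd (nat_lit 9) 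
(.lf (nat_lit 603583) (.g (nat_lit 3096) (.e (nat_lit 655378) (nat_lit 4) (.e (nat_lit 172106) (nat_lit 10) (.e (nat_lit 434209) (nat_lit 18) (.e (nat_lit 5546) (nat_lit 306) (.e (nat_lit 2650) (nat_lit 166) (.e (nat_lit 188434) (nat_lit 20) (.e (nat_lit 3409) (nat_lit 212) .nil))))))) (.g (nat_lit 1) (.e (nat_lit 427274) (nat_lit 0) .nil) .nil))) 
(.lf (nat_lit 604095) (.g (nat_lit 2342) (.e (nat_lit 761898) (nat_lit 15) (.e (nat_lit 163978) (nat_lit 30) (.e (nat_lit 573489) (nat_lit 14) (.e (nat_lit 73754) (nat_lit 8) (.e (nat_lit 557095) (nat_lit 13) .nil))))) (.g (nat_lit 0) (.e (nat_lit 428639) (nat_lit 0) .nil) .nil)))))) (.nd (nat_lit 7) (.nd (nat_lit 8) (.nd (nat_lit 9) 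
(.lf (nat_lit 603263) (.g (nat_lit 4310) (.e (nat_lit 655375) (nat_lit 3) (.e (nat_lit 163978) (nat_lit 30) (.e (nat_lit 573482) (nat_lit 13) (.e (nat_lit 65604) (nat_lit 9) (.e (nat_lit 336028) (nat_lit 3) (.e (nat_lit 98367) (nat_lit 27) (.e (nat_lit 434271) (nat_lit 38) .nil))))))) (.g (nat_lit 1) (.e (nat_lit 426420) (nat_lit 0) .nil) .nil))) 
(.lf (nat_lit 603775) (.g (nat_lit 1829) (.e (nat_lit 655380) (nat_lit 6) (.e (nat_lit 188431) (nat_lit 20) (.e (nat_lit 3401) (nat_lit 211) (.e (nat_lit 647185) (nat_lit 6) (.e (nat_lit 188439) (nat_lit 20) (.e (nat_lit 3409) (nat_lit 212) .nil)))))) (.g (nat_lit 1) (.e (nat_lit 427773) (nat_lit 0) .nil) .nil)))) (.nd (nat_lit 9) 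
(.lf (nat_lit 603519) (.g (nat_lit 4136) (.e (nat_lit 655375) (nat_lit 3) (.e (nat_lit 163979) (nat_lit 30) (.e (nat_lit 573493) (nat_lit 15) (.e (nat_lit 81956) (nat_lit 23) (.e (nat_lit 98359) (nat_lit 26) (.e (nat_lit 426042) (nat_lit 0) (.e (nat_lit 3409) (nat_lit 212) .nil))))))) (.g (nat_lit 1) (.e (nat_lit 426900) (nat_lit 0) .nil) .nil))) 
(.lf (nat_lit 604031) (.g (nat_lit 3772) (.e (nat_lit 761898) (nat_lit 15) (.e (nat_lit 163977) (nat_lit 30) (.e (nat_lit 573489) (nat_lit 14) (.e (nat_lit 73755) (nat_lit 8) (.e (nat_lit 557100) (nat_lit 13) (.e (nat_lit 172065) (nat_lit 3) (.e (nat_lit 204817) (nat_lit 17) (.e (nat_lit 7936) (nat_lit 149) .nil)))))))) (.g (nat_lit 1) (.e (nat_lit 428543) (nat_lit 0) .nil) .nil))))) 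
(.nd (nat_lit 8) (.nd (nat_lit 9) 
(.lf (nat_lit 603391) (.g (nat_lit 4775) (.e (nat_lit 655375) (nat_lit 3) (.e (nat_lit 163979) (nat_lit 30) (.e (nat_lit 573481) (nat_lit 13) (.e (nat_lit 65619) (nat_lit 10) (.e (nat_lit 344117) (nat_lit 21) (.e (nat_lit 516151) (nat_lit 9) (.e (nat_lit 426043) (nat_lit 0) (.e (nat_lit 3408) (nat_lit 212) .nil)))))))) (.g (nat_lit 1) (.e (nat_lit 426757) (nat_lit 0) .nil) .nil))) 
(.lf (nat_lit 603903) (.g (nat_lit 2056) (.e (nat_lit 769792) (nat_lit 8) (.e (nat_lit 65568) (nat_lit 2) (.e (nat_lit 90170) (nat_lit 13) (.e (nat_lit 172113) (nat_lit 10) (.e (nat_lit 434245) (nat_lit 28) .nil))))) (.g (nat_lit 0) (.e (nat_lit 428038) (nat_lit 0) .nil) .nil)))) (.nd (nat_lit 9) 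
(.lf (nat_lit 603647) (.g (nat_lit 2269) (.e (nat_lit 655378) (nat_lit 4) (.e (nat_lit 172115) (nat_lit 10) (.e (nat_lit 434272) (nat_lit 38) (.e (nat_lit 655380) (nat_lit 6) (.e (nat_lit 188439) (nat_lit 20) (.e (nat_lit 3408) (nat_lit 212) .nil)))))) (.g (nat_lit 1) (.e (nat_lit 427386) (nat_lit 0) .nil) .nil))) 
(.lf (nat_lit 604159) (.g (nat_lit 2780) (.e (nat_lit 761898) (nat_lit 15) (.e (nat_lit 163979) (nat_lit 30) (.e (nat_lit 573487) (nat_lit 14) (.e (nat_lit 73753) (nat_lit 8) (.e (nat_lit 557101) (nat_lit 13) (.e (nat_lit 172065) (nat_lit 3) (.e (nat_lit 204821) (nat_lit 17) (.e (nat_lit 2270) (nat_lit 149) .nil)))))))) (.g (nat_lit 1) (.e (nat_lit 428739) (nat_lit 0) .nil) .nil)))))))))))))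


end

end Pool.Agent.Lib.MP_5854e1_co.Cz
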