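import Pool.Agent.Lib.MP_5854e1_co.DtD

/-!
# Windows and cells of the rings
-/

set_option autoImplicit false
set_option maxRecDepth 100000
set_option deprecated.oldSectionVars true

namespace Pool.Agent.Lib.MP_5854e1_co.Cz

open Pool.Agent.Lib.MP_5854e1_co

noncomputable section

noncomputable def tv5650 : DT := (.nd (nat_lit 0) (.nd (nat_lit 1) (.nd (nat_lit 2) (.nd (nat_lit 3) (.nd (nat_lit 4) (.nd (nat_lit 5) (.nd (nat_lit 6) (.nd (nat_lit 7) (.nd (nat_lit 8) (.nd (nat_lit 9) 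
(.lf (nat_lit 604160) (.g (nat_lit 2806) (.e (nat_lit 761898) (nat_lit 15) (.e (nat_lit 163979) (nat_lit 30) (.e (nat_lit 573487) (nat_lit 14) (.e (nat_lit 73753) (nat_lit 8) (.e (nat_lit 557101) (nat_lit 13) (.e (nat_lit 172066) (nat_lit 3) (.e (nat_lit 204815) (nat_lit 17) (.e (nat_lit 2271) (nat_lit 149) .nil)))))))) (.g (nat_lit 1) (.e (nat_lit 428740) (nat_lit 0) .nil) .nil))) 
(.lf (nat_lit 604672) (.g (nat_lit 2707) (.e (nat_lit 778316) (nat_lit 3) (.e (nat_lit 57480) (nat_lit 28) (.e (nat_lit 557107) (nat_lit 15) (.e (nat_lit 188450) (nat_lit 23) (.e (nat_lit 204855) (nat_lit 26) (.e (nat_lit 336290) (nat_lit 15) (.e (nat_lit 3716) (nat_lit 227) .nil))))))) (.g (nat_lit 1) (.e (nat_lit 431267) (nat_lit 0) .nil) .nil)))) (.nd (nat_lit 9) 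
(.lf (nat_lit 604416) (.g (nat_lit 2058) (.e (nat_lit 770071) (nat_lit 8) (.e (nat_lit 65586) (nat_lit 7) (.e (nat_lit 319531) (nat_lit 16) (.e (nat_lit 286751) (nat_lit 10) (.e (nat_lit 344161) (nat_lit 37) .nil))))) (.g (nat_lit 0) (.e (nat_lit 430870) (nat_lit 0) .nil) .nil))) 
(.lf (nat_lit 604928) (.g (nat_lit 671) (.e (nat_lit 778320) (nat_lit 4) (.e (nat_lit 65628) (nat_lit 14) (.e (nat_lit 401458) (nat_lit 13) .nil))) (.g (nat_lit 0) (.e (nat_lit 431552) (nat_lit 0) .nil) .nil))))) (.nd (nat_lit 8) (.nd (nat_lit 9) 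
(.lf (nat_lit 604288) (.g (nat_lit 3311) (.e (nat_lit 761899) (nat_lit 15) (.e (nat_lit 163978) (nat_lit 30) (.e (nat_lit 573489) (nat_lit 14) (.e (nat_lit 73755) (nat_lit 8) (.e (nat_lit 557098) (nat_lit 13) (.e (nat_lit 172066) (nat_lit 3) (.e (nat_lit 204815) (nat_lit 17) (.e (nat_lit 2271) (nat_lit 149) .nil)))))))) (.g (nat_lit 1) (.e (nat_lit 429020) (nat_lit 0) .nil) .nil))) 
(.lf (nat_lit 604800) (.g (nat_lit 2905) (.e (nat_lit 778318) (nat_lit 3) (.e (nat_lit 57476) (nat_lit 28) (.e (nat_lit 557107) (nat_lit 15) (.e (nat_lit 188450) (nat_lit 23) (.e (nat_lit 204852) (nat_lit 26) (.e (nat_lit 336260) (nat_lit 15) (.e (nat_lit 3634) (nat_lit 227) .nil))))))) (.g (nat_lit 1) (.e (nat_lit 431418) (nat_lit 0) .nil) .nil)))) (.nd (nat_lit 9) 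
(.lf (nat_lit 604544) (.g (nat_lit 2366) (.e (nat_lit 770072) (nat_lit 8) (.e (nat_lit 65586) (nat_lit 7) (.e (nat_lit 319531) (nat_lit 16) (.e (nat_lit 286748) (nat_lit 9) (.e (nat_lit 336295) (nat_lit 15) (.e (nat_lit 3806) (nat_lit 231) (.e (nat_lit 811037) (nat_lit 11) (.e (nat_lit 7936) (nat_lit 74) .nil)))))))) (.g (nat_lit 1) (.e (nat_lit 431008) (nat_lit 0) .nil) .nil))) 
(.lf (nat_lit 605056) (.g (nat_lit 1191) (.e (nat_lit 778323) (nat_lit 5) (.e (nat_lit 73782) (nat_lit 32) (.e (nat_lit 2856) (nat_lit 184) (.e (nat_lit 426540) (nat_lit 29) .nil)))) (.g (nat_lit 0) (.e (nat_lit 431690) (nat_lit 0) .nil) .nil)))))) (.nd (nat_lit 7) (.nd (nat_lit 8) (.nd (nat_lit 9) 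
(.lf (nat_lit 604224) (.g (nat_lit 2397) (.e (nat_lit 761898) (nat_lit 15) (.e (nat_lit 163979) (nat_lit 30) (.e (nat_lit 573489) (nat_lit 14) (.e (nat_lit 73755) (nat_lit 8) (.e (nat_lit 557104) (nat_lit 14) (.e (nat_lit 180242) (nat_lit 5) (.e (nat_lit 532488) (nat_lit 0) (.e (nat_lit 7936) (nat_lit 149) .nil)))))))) (.g (nat_lit 1) (.e (nat_lit 428813) (nat_lit 0) .nil) .nil))) 
(.lf (nat_lit 604736) (.g (nat_lit 4700) (.e (nat_lit 778318) (nat_lit 3) (.e (nat_lit 57476) (nat_lit 28) (.e (nat_lit 557097) (nat_lit 13) (.e (nat_lit 172115) (nat_lit 10) (.e (nat_lit 434231) (nat_lit 23) (.e (nat_lit 532528) (nat_lit 9) (.e (nat_lit 336306) (nat_lit 15) (.e (nat_lit 3619) (nat_lit 227) .nil)))))))) (.g (nat_lit 1) (.e (nat_lit 431352) (nat_lit 0) .nil) .nil)))) 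
(.nd (nat_lit 9) 
(.lf (nat_lit 604480) (.g (nat_lit 1201) (.e (nat_lit 770072) (nat_lit 8) (.e (nat_lit 65571) (nat_lit 3) (.e (nat_lit 98354) (nat_lit 26) .nil))) (.g (nat_lit 0) (.e (nat_lit 430944) (nat_lit 0) .nil) .nil))) 
(.lf (nat_lit 604992) (.g (nat_lit 1420) (.e (nat_lit 778323) (nat_lit 5) (.e (nat_lit 73781) (nat_lit 32) (.e (nat_lit 2856) (nat_lit 184) (.e (nat_lit 426538) (nat_lit 29) .nil)))) (.g (nat_lit 0) (.e (nat_lit 431626) (nat_lit 0) .nil) .nil))))) (.nd (nat_lit 8) (.nd (nat_lit 9) 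
(.lf (nat_lit 604352) (.g (nat_lit 2789) (.e (nat_lit 761899) (nat_lit 15) (.e (nat_lit 163979) (nat_lit 30) (.e (nat_lit 573489) (nat_lit 14) (.e (nat_lit 73755) (nat_lit 8) (.e (nat_lit 557104) (nat_lit 14) (.e (nat_lit 180244) (nat_lit 5) (.e (nat_lit 532488) (nat_lit 0) (.e (nat_lit 7936) (nat_lit 149) .nil)))))))) (.g (nat_lit 1) (.e (nat_lit 429131) (nat_lit 0) .nil) .nil))) 
(.lf (nat_lit 604864) (.g (nat_lit 4675) (.e (nat_lit 778318) (nat_lit 3) (.e (nat_lit 57476) (nat_lit 28) (.e (nat_lit 557108) (nat_lit 15) (.e (nat_lit 188452) (nat_lit 23) (.e (nat_lit 204852) (nat_lit 26) (.e (nat_lit 336261) (nat_lit 15) (.e (nat_lit 3633) (nat_lit 227) .nil))))))) (.g (nat_lit 1) (.e (nat_lit 431482) (nat_lit 0) .nil) .nil)))) (.nd (nat_lit 9) 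
(.lf (nat_lit 604608) (.g (nat_lit 2916) (.e (nat_lit 770072) (nat_lit 8) (.e (nat_lit 65629) (nat_lit 14) (.e (nat_lit 401454) (nat_lit 12) (.e (nat_lit 475214) (nat_lit 42) .nil)))) (.g (nat_lit 0) (.e (nat_lit 431076) (nat_lit 0) .nil) .nil))) 
(.lf (nat_lit 605120) (.g (nat_lit 864) (.e (nat_lit 778324) (nat_lit 5) (.e (nat_lit 73781) (nat_lit 32) (.e (nat_lit 3089) (nat_lit 191) (.e (nat_lit 483402) (nat_lit 26) .nil)))) (.g (nat_lit 0) (.e (nat_lit 431758) (nat_lit 0) .nil) .nil))))))) (.nd (nat_lit 6) (.nd (nat_lit 7) (.nd (nat_lit 8) (.nd (nat_lit 9) 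
(.lf (nat_lit 604192) (.g (nat_lit 4078) (.e (nat_lit 761898) (nat_lit 15) (.e (nat_lit 163979) (nat_lit 30) (.e (nat_lit 573489) (nat_lit 14) (.e (nat_lit 73755) (nat_lit 8) (.e (nat_lit 557096) (nat_lit 13) (.e (nat_lit 172067) (nat_lit 3) (.e (nat_lit 204817) (nat_lit 17) (.e (nat_lit 7936) (nat_lit 149) .nil)))))))) (.g (nat_lit 1) (.e (nat_lit 428775) (nat_lit 0) .nil) .nil))) 
(.lf (nat_lit 604704) (.g (nat_lit 2867) (.e (nat_lit 778317) (nat_lit 3) (.e (nat_lit 57480) (nat_lit 28) (.e (nat_lit 557067) (nat_lit 9) (.e (nat_lit 3022) (nat_lit 187) (.e (nat_lit 450579) (nat_lit 5) .nil))))) (.g (nat_lit 0) (.e (nat_lit 431301) (nat_lit 0) .nil) .nil)))) (.nd (nat_lit 9) 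
(.lf (nat_lit 604448) (.g (nat_lit 2050) (.e (nat_lit 770071) (nat_lit 8) (.e (nat_lit 65619) (nat_lit 10) (.e (nat_lit 344177) (nat_lit 43) (.e (nat_lit 770074) (nat_lit 10) (.e (nat_lit 81942) (nat_lit 20) .nil))))) (.g (nat_lit 0) (.e (nat_lit 430908) (nat_lit 0) .nil) .nil))) 
(.lf (nat_lit 604960) (.g (nat_lit 2246) (.e (nat_lit 778321) (nat_lit 4) (.e (nat_lit 65628) (nat_lit 14) (.e (nat_lit 401437) (nat_lit 9) (.e (nat_lit 426530) (nat_lit 27) (.e (nat_lit 336206) (nat_lit 12) .nil))))) (.g (nat_lit 0) (.e (nat_lit 431584) (nat_lit 0) .nil) .nil))))) (.nd (nat_lit 8) (.nd (nat_lit 9) 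
(.lf (nat_lit 604320) (.g (nat_lit 2746) (.e (nat_lit 761899) (nat_lit 15) (.e (nat_lit 163979) (nat_lit 30) (.e (nat_lit 573489) (nat_lit 14) (.e (nat_lit 73754) (nat_lit 8) (.e (nat_lit 557101) (nat_lit 13) (.e (nat_lit 172066) (nat_lit 3) (.e (nat_lit 204821) (nat_lit 17) (.e (nat_lit 2270) (nat_lit 149) .nil)))))))) (.g (nat_lit 1) (.e (nat_lit 429093) (nat_lit 0) .nil) .nil))) 
(.lf (nat_lit 604832) (.g (nat_lit 2894) (.e (nat_lit 778318) (nat_lit 3) (.e (nat_lit 57476) (nat_lit 28) (.e (nat_lit 557108) (nat_lit 15) (.e (nat_lit 188452) (nat_lit 23) (.e (nat_lit 204851) (nat_lit 26) (.e (nat_lit 336303) (nat_lit 15) (.e (nat_lit 3618) (nat_lit 227) .nil))))))) (.g (nat_lit 1) (.e (nat_lit 431450) (nat_lit 0) .nil) .nil)))) (.nd (nat_lit 9) 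
(.lf (nat_lit 604576) (.g (nat_lit 2490) (.e (nat_lit 770072) (nat_lit 8) (.e (nat_lit 65610) (nat_lit 10) (.e (nat_lit 344097) (nat_lit 18) (.e (nat_lit 7270) (nat_lit 385) (.e (nat_lit 122906) (nat_lit 12) .nil))))) (.g (nat_lit 0) (.e (nat_lit 431043) (nat_lit 0) .nil) .nil))) 
(.lf (nat_lit 605088) (.g (nat_lit 1895) (.e (nat_lit 778323) (nat_lit 5) (.e (nat_lit 73782) (nat_lit 32) (.e (nat_lit 3090) (nat_lit 191) (.e (nat_lit 483380) (nat_lit 23) (.e (nat_lit 336261) (nat_lit 15) (.e (nat_lit 3635) (nat_lit 227) .nil)))))) (.g (nat_lit 1) (.e (nat_lit 431722) (nat_lit 0) .nil) .nil)))))) (.nd (nat_lit 7) (.nd (nat_lit 8) (.nd (nat_lit 9) 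
(.lf (nat_lit 604256) (.g (nat_lit 2046) (.e (nat_lit 761899) (nat_lit 15) (.e (nat_lit 163977) (nat_lit 30) (.e (nat_lit 573489) (nat_lit 14) (.e (nat_lit 73755) (nat_lit 8) (.e (nat_lit 557097) (nat_lit 13) (.e (nat_lit 172067) (nat_lit 3) (.e (nat_lit 204817) (nat_lit 17) (.e (nat_lit 2271) (nat_lit 149) .nil)))))))) (.g (nat_lit 1) (.e (nat_lit 428923) (nat_lit 0) .nil) .nil))) 
(.lf (nat_lit 604768) (.g (nat_lit 4010) (.e (nat_lit 778318) (nat_lit 3) (.e (nat_lit 57476) (nat_lit 28) (.e (nat_lit 557107) (nat_lit 15) (.e (nat_lit 188450) (nat_lit 23) (.e (nat_lit 204852) (nat_lit 26) (.e (nat_lit 336240) (nat_lit 15) (.e (nat_lit 3637) (nat_lit 227) .nil))))))) (.g (nat_lit 1) (.e (nat_lit 431386) (nat_lit 0) .nil) .nil)))) (.nd (nat_lit 9) 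
(.lf (nat_lit 604512) (.g (nat_lit 2334) (.e (nat_lit 770072) (nat_lit 8) (.e (nat_lit 65583) (nat_lit 7) (.e (nat_lit 319530) (nat_lit 16) (.e (nat_lit 286759) (nat_lit 12) (.e (nat_lit 385047) (nat_lit 21) .nil))))) (.g (nat_lit 0) (.e (nat_lit 430976) (nat_lit 0) .nil) .nil))) 
(.lf (nat_lit 605024) (.g (nat_lit 2349) (.e (nat_lit 778323) (nat_lit 5) (.e (nat_lit 73781) (nat_lit 32) (.e (nat_lit 3090) (nat_lit 191) (.e (nat_lit 483380) (nat_lit 23) (.e (nat_lit 336258) (nat_lit 15) (.e (nat_lit 3637) (nat_lit 227) .nil)))))) (.g (nat_lit 1) (.e (nat_lit 431658) (nat_lit 0) .nil) .nil))))) (.nd (nat_lit 8) (.nd (nat_lit 9) 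
(.lf (nat_lit 604384) (.g (nat_lit 2110) (.e (nat_lit 770071) (nat_lit 8) (.e (nat_lit 65568) (nat_lit 2) (.e (nat_lit 90170) (nat_lit 13) (.e (nat_lit 172113) (nat_lit 10) (.e (nat_lit 434245) (nat_lit 28) .nil))))) (.g (nat_lit 0) (.e (nat_lit 430837) (nat_lit 0) .nil) .nil))) 
(.lf (nat_lit 604896) (.g (nat_lit 2250) (.e (nat_lit 786176) (nat_lit 3) (.e (nat_lit 57476) (nat_lit 28) (.e (nat_lit 557108) (nat_lit 15) (.e (nat_lit 188452) (nat_lit 23) (.e (nat_lit 204880) (nat_lit 32) .nil))))) (.g (nat_lit 0) (.e (nat_lit 431516) (nat_lit 0) .nil) .nil)))) (.nd (nat_lit 9) 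
(.lf (nat_lit 604640) (.g (nat_lit 2271) (.e (nat_lit 778273) (nat_lit 0) (.e (nat_lit 1656) (nat_lit 115) (.e (nat_lit 393251) (nat_lit 18) (.e (nat_lit 164406) (nat_lit 258) (.e (nat_lit 163875) (nat_lit 3) .nil))))) (.g (nat_lit 0) (.e (nat_lit 431227) (nat_lit 0) .nil) .nil))) 
(.lf (nat_lit 605152) (.g (nat_lit 1987) (.e (nat_lit 778324) (nat_lit 5) (.e (nat_lit 73781) (nat_lit 32) (.e (nat_lit 3090) (nat_lit 191) (.e (nat_lit 483393) (nat_lit 23) (.e (nat_lit 336275) (nat_lit 15) .nil))))) (.g (nat_lit 0) (.e (nat_lit 431790) (nat_lit 0) .nil) .nil)))))))) (.nd (nat_lit 5) (.nd (nat_lit 6) (.nd (nat_lit 7) (.nd (nat_lit 8) (.nd (nat_lit 9) 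
(.lf (nat_lit 604176) (.g (nat_lit 3351) (.e (nat_lit 761898) (nat_lit 15) (.e (nat_lit 163979) (nat_lit 30) (.e (nat_lit 573488) (nat_lit 14) (.e (nat_lit 73755) (nat_lit 8) (.e (nat_lit 557098) (nat_lit 13) (.e (nat_lit 172067) (nat_lit 3) (.e (nat_lit 204817) (nat_lit 17) (.e (nat_lit 7936) (nat_lit 149) .nil)))))))) (.g (nat_lit 1) (.e (nat_lit 428756) (nat_lit 0) .nil) .nil))) 
(.lf (nat_lit 604688) (.g (nat_lit 2960) (.e (nat_lit 778317) (nat_lit 3) (.e (nat_lit 57476) (nat_lit 28) (.e (nat_lit 557095) (nat_lit 13) (.e (nat_lit 172115) (nat_lit 10) (.e (nat_lit 434231) (nat_lit 23) (.e (nat_lit 532535) (nat_lit 9) (.e (nat_lit 336295) (nat_lit 15) (.e (nat_lit 3632) (nat_lit 227) .nil)))))))) (.g (nat_lit 1) (.e (nat_lit 431283) (nat_lit 0) .nil) .nil)))) 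
(.nd (nat_lit 9) 
(.lf (nat_lit 604432) (.g (nat_lit 972) (.e (nat_lit 770071) (nat_lit 8) (.e (nat_lit 65610) (nat_lit 10) (.e (nat_lit 344176) (nat_lit 43) (.e (nat_lit 770070) (nat_lit 8) .nil)))) (.g (nat_lit 0) (.e (nat_lit 430892) (nat_lit 0) .nil) .nil))) 
(.lf (nat_lit 604944) (.g (nat_lit 2255) (.e (nat_lit 778320) (nat_lit 4) (.e (nat_lit 65630) (nat_lit 14) (.e (nat_lit 401438) (nat_lit 9) (.e (nat_lit 426540) (nat_lit 29) (.e (nat_lit 352262) (nat_lit 0) (.e (nat_lit 3630) (nat_lit 227) .nil)))))) (.g (nat_lit 1) (.e (nat_lit 431568) (nat_lit 0) .nil) .nil))))) (.nd (nat_lit 8) (.nd (nat_lit 9) 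
(.lf (nat_lit 604304) (.g (nat_lit 3596) (.e (nat_lit 761899) (nat_lit 15) (.e (nat_lit 163978) (nat_lit 30) (.e (nat_lit 573489) (nat_lit 14) (.e (nat_lit 73755) (nat_lit 8) (.e (nat_lit 557105) (nat_lit 14) (.e (nat_lit 180244) (nat_lit 5) (.e (nat_lit 532484) (nat_lit 0) (.e (nat_lit 7936) (nat_lit 149) .nil)))))))) (.g (nat_lit 1) (.e (nat_lit 429038) (nat_lit 0) .nil) .nil))) 
(.lf (nat_lit 604816) (.g (nat_lit 1675) (.e (nat_lit 778318) (nat_lit 3) (.e (nat_lit 57476) (nat_lit 28) (.e (nat_lit 557107) (nat_lit 15) (.e (nat_lit 188450) (nat_lit 23) (.e (nat_lit 204881) (nat_lit 32) .nil))))) (.g (nat_lit 0) (.e (nat_lit 431434) (nat_lit 0) .nil) .nil)))) (.nd (nat_lit 9) 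
(.lf (nat_lit 604560) (.g (nat_lit 2622) (.e (nat_lit 770072) (nat_lit 8) (.e (nat_lit 65586) (nat_lit 7) (.e (nat_lit 319531) (nat_lit 16) (.e (nat_lit 286759) (nat_lit 12) (.e (nat_lit 385115) (nat_lit 53) (.e (nat_lit 811033) (nat_lit 11) (.e (nat_lit 852) (nat_lit 74) .nil))))))) (.g (nat_lit 1) (.e (nat_lit 431025) (nat_lit 0) .nil) .nil))) 
(.lf (nat_lit 605072) (.g (nat_lit 2611) (.e (nat_lit 778323) (nat_lit 5) (.e (nat_lit 73782) (nat_lit 32) (.e (nat_lit 3089) (nat_lit 191) (.e (nat_lit 483383) (nat_lit 23) (.e (nat_lit 336240) (nat_lit 15) (.e (nat_lit 3637) (nat_lit 227) .nil)))))) (.g (nat_lit 1) (.e (nat_lit 431706) (nat_lit 0) .nil) .nil)))))) (.nd (nat_lit 7) (.nd (nat_lit 8) (.nd (nat_lit 9) 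
(.lf (nat_lit 604240) (.g (nat_lit 2222) (.e (nat_lit 761899) (nat_lit 15) (.e (nat_lit 163977) (nat_lit 30) (.e (nat_lit 573489) (nat_lit 14) (.e (nat_lit 73754) (nat_lit 8) (.e (nat_lit 557101) (nat_lit 13) (.e (nat_lit 172066) (nat_lit 3) (.e (nat_lit 204821) (nat_lit 17) (.e (nat_lit 2264) (nat_lit 149) .nil)))))))) (.g (nat_lit 1) (.e (nat_lit 428902) (nat_lit 0) .nil) .nil))) 
(.lf (nat_lit 604752) (.g (nat_lit 2751) (.e (nat_lit 778318) (nat_lit 3) (.e (nat_lit 57476) (nat_lit 28) (.e (nat_lit 557097) (nat_lit 13) (.e (nat_lit 172115) (nat_lit 10) (.e (nat_lit 434231) (nat_lit 23) (.e (nat_lit 532535) (nat_lit 9) (.e (nat_lit 336291) (nat_lit 15) (.e (nat_lit 3630) (nat_lit 227) .nil)))))))) (.g (nat_lit 1) (.e (nat_lit 431368) (nat_lit 0) .nil) .nil)))) 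
(.nd (nat_lit 9) 
(.lf (nat_lit 604496) (.g (nat_lit 2485) (.e (nat_lit 770072) (nat_lit 8) (.e (nat_lit 65583) (nat_lit 7) (.e (nat_lit 319530) (nat_lit 16) (.e (nat_lit 286748) (nat_lit 9) (.e (nat_lit 336295) (nat_lit 15) (.e (nat_lit 3757) (nat_lit 229) (.e (nat_lit 794644) (nat_lit 20) (.e (nat_lit 3606) (nat_lit 226) .nil)))))))) (.g (nat_lit 1) (.e (nat_lit 430960) (nat_lit 0) .nil) .nil))) 
(.lf (nat_lit 605008) (.g (nat_lit 1778) (.e (nat_lit 778323) (nat_lit 5) (.e (nat_lit 73781) (nat_lit 32) (.e (nat_lit 3088) (nat_lit 191) (.e (nat_lit 483408) (nat_lit 26) (.e (nat_lit 385091) (nat_lit 49) .nil))))) (.g (nat_lit 1) (.e (nat_lit 431642) (nat_lit 0) .nil) .nil))))) (.nd (nat_lit 8) (.nd (nat_lit 9) 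
(.lf (nat_lit 604368) (.g (nat_lit 1156) (.e (nat_lit 761910) (nat_lit 17) (.e (nat_lit 180252) (nat_lit 10) (.e (nat_lit 573452) (nat_lit 9) (.e (nat_lit 1667) (nat_lit 116) (.e (nat_lit 401459) (nat_lit 13) .nil))))) (.g (nat_lit 0) (.e (nat_lit 430426) (nat_lit 0) .nil) .nil))) 
(.lf (nat_lit 604880) (.g (nat_lit 3825) (.e (nat_lit 778318) (nat_lit 3) (.e (nat_lit 57476) (nat_lit 28) (.e (nat_lit 557108) (nat_lit 15) (.e (nat_lit 188452) (nat_lit 23) (.e (nat_lit 204854) (nat_lit 26) (.e (nat_lit 336306) (nat_lit 15) (.e (nat_lit 3618) (nat_lit 227) .nil))))))) (.g (nat_lit 1) (.e (nat_lit 431498) (nat_lit 0) .nil) .nil)))) (.nd (nat_lit 9) 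
(.lf (nat_lit 604624) (.g (nat_lit 773) (.e (nat_lit 770073) (nat_lit 9) (.e (nat_lit 73748) (nat_lit 3) (.e (nat_lit 516165) (nat_lit 12) (.e (nat_lit 450588) (nat_lit 10) .nil)))) (.g (nat_lit 0) (.e (nat_lit 431095) (nat_lit 0) .nil) .nil))) 
(.lf (nat_lit 605136) (.g (nat_lit 2395) (.e (nat_lit 778324) (nat_lit 5) (.e (nat_lit 73781) (nat_lit 32) (.e (nat_lit 3090) (nat_lit 191) (.e (nat_lit 483380) (nat_lit 23) (.e (nat_lit 336257) (nat_lit 15) (.e (nat_lit 3633) (nat_lit 227) .nil)))))) (.g (nat_lit 1) (.e (nat_lit 431774) (nat_lit 0) .nil) .nil))))))) (.nd (nat_lit 6) (.nd (nat_lit 7) (.nd (nat_lit 8) (.nd (nat_lit 9) 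
(.lf (nat_lit 604208) (.g (nat_lit 2433) (.e (nat_lit 761898) (nat_lit 15) (.e (nat_lit 163979) (nat_lit 30) (.e (nat_lit 573489) (nat_lit 14) (.e (nat_lit 73755) (nat_lit 8) (.e (nat_lit 557097) (nat_lit 13) (.e (nat_lit 172067) (nat_lit 3) (.e (nat_lit 204819) (nat_lit 17) (.e (nat_lit 7936) (nat_lit 149) .nil)))))))) (.g (nat_lit 1) (.e (nat_lit 428794) (nat_lit 0) .nil) .nil))) 
(.lf (nat_lit 604720) (.g (nat_lit 3942) (.e (nat_lit 778318) (nat_lit 3) (.e (nat_lit 57476) (nat_lit 28) (.e (nat_lit 557097) (nat_lit 13) (.e (nat_lit 172106) (nat_lit 10) (.e (nat_lit 434231) (nat_lit 23) (.e (nat_lit 532535) (nat_lit 9) (.e (nat_lit 336295) (nat_lit 15) (.e (nat_lit 3630) (nat_lit 227) .nil)))))))) (.g (nat_lit 1) (.e (nat_lit 431336) (nat_lit 0) .nil) .nil)))) 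
(.nd (nat_lit 9) 
(.lf (nat_lit 604464) (.g (nat_lit 2162) (.e (nat_lit 770071) (nat_lit 8) (.e (nat_lit 65630) (nat_lit 14) (.e (nat_lit 401452) (nat_lit 12) (.e (nat_lit 475214) (nat_lit 42) .nil)))) (.g (nat_lit 0) (.e (nat_lit 430924) (nat_lit 0) .nil) .nil))) 
(.lf (nat_lit 604976) (.g (nat_lit 1867) (.e (nat_lit 786176) (nat_lit 4) (.e (nat_lit 65586) (nat_lit 7) (.e (nat_lit 319534) (nat_lit 16) (.e (nat_lit 294656) (nat_lit 35) .nil)))) (.g (nat_lit 0) (.e (nat_lit 431603) (nat_lit 0) .nil) .nil))))) (.nd (nat_lit 8) (.nd (nat_lit 9) 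
(.lf (nat_lit 604336) (.g (nat_lit 3073) (.e (nat_lit 761899) (nat_lit 15) (.e (nat_lit 163979) (nat_lit 30) (.e (nat_lit 573489) (nat_lit 14) (.e (nat_lit 73755) (nat_lit 8) (.e (nat_lit 557098) (nat_lit 13) (.e (nat_lit 172066) (nat_lit 3) (.e (nat_lit 204821) (nat_lit 17) (.e (nat_lit 2264) (nat_lit 149) .nil)))))))) (.g (nat_lit 1) (.e (nat_lit 429114) (nat_lit 0) .nil) .nil))) 
(.lf (nat_lit 604848) (.g (nat_lit 4659) (.e (nat_lit 778318) (nat_lit 3) (.e (nat_lit 57476) (nat_lit 28) (.e (nat_lit 557108) (nat_lit 15) (.e (nat_lit 188452) (nat_lit 23) (.e (nat_lit 204852) (nat_lit 26) (.e (nat_lit 336257) (nat_lit 15) (.e (nat_lit 3624) (nat_lit 227) .nil))))))) (.g (nat_lit 1) (.e (nat_lit 431466) (nat_lit 0) .nil) .nil)))) (.nd (nat_lit 9) 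
(.lf (nat_lit 604592) (.g (nat_lit 610) (.e (nat_lit 770072) (nat_lit 8) (.e (nat_lit 65619) (nat_lit 10) (.e (nat_lit 344176) (nat_lit 43) .nil))) (.g (nat_lit 0) (.e (nat_lit 431059) (nat_lit 0) .nil) .nil))) 
(.lf (nat_lit 605104) (.g (nat_lit 2132) (.e (nat_lit 778324) (nat_lit 5) (.e (nat_lit 73781) (nat_lit 32) (.e (nat_lit 2856) (nat_lit 184) (.e (nat_lit 426482) (nat_lit 27) (.e (nat_lit 336198) (nat_lit 12) .nil))))) (.g (nat_lit 0) (.e (nat_lit 431742) (nat_lit 0) .nil) .nil)))))) (.nd (nat_lit 7) (.nd (nat_lit 8) (.nd (nat_lit 9) 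
(.lf (nat_lit 604272) (.g (nat_lit 1969) (.e (nat_lit 761899) (nat_lit 15) (.e (nat_lit 163978) (nat_lit 30) (.e (nat_lit 573489) (nat_lit 14) (.e (nat_lit 73754) (nat_lit 8) (.e (nat_lit 557101) (nat_lit 13) .nil))))) (.g (nat_lit 0) (.e (nat_lit 429000) (nat_lit 0) .nil) .nil))) 
(.lf (nat_lit 604784) (.g (nat_lit 3662) (.e (nat_lit 778318) (nat_lit 3) (.e (nat_lit 57476) (nat_lit 28) (.e (nat_lit 557107) (nat_lit 15) (.e (nat_lit 188450) (nat_lit 23) (.e (nat_lit 204852) (nat_lit 26) (.e (nat_lit 336258) (nat_lit 15) (.e (nat_lit 3628) (nat_lit 227) .nil))))))) (.g (nat_lit 1) (.e (nat_lit 431402) (nat_lit 0) .nil) .nil)))) (.nd (nat_lit 9) 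
(.lf (nat_lit 604528) (.g (nat_lit 2780) (.e (nat_lit 770072) (nat_lit 8) (.e (nat_lit 65583) (nat_lit 7) (.e (nat_lit 319531) (nat_lit 16) (.e (nat_lit 286756) (nat_lit 10) (.e (nat_lit 344090) (nat_lit 18) .nil))))) (.g (nat_lit 0) (.e (nat_lit 430992) (nat_lit 0) .nil) .nil))) 
(.lf (nat_lit 605040) (.g (nat_lit 1028) (.e (nat_lit 778323) (nat_lit 5) (.e (nat_lit 73781) (nat_lit 32) (.e (nat_lit 3090) (nat_lit 191) (.e (nat_lit 483386) (nat_lit 23) .nil)))) (.g (nat_lit 0) (.e (nat_lit 431674) (nat_lit 0) .nil) .nil))))) (.nd (nat_lit 8) (.nd (nat_lit 9) 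
(.lf (nat_lit 604400) (.g (nat_lit 1743) (.e (nat_lit 770071) (nat_lit 8) (.e (nat_lit 65583) (nat_lit 7) (.e (nat_lit 319530) (nat_lit 16) (.e (nat_lit 286748) (nat_lit 9) (.e (nat_lit 336295) (nat_lit 15) (.e (nat_lit 3757) (nat_lit 229) (.e (nat_lit 794639) (nat_lit 20) (.e (nat_lit 3615) (nat_lit 226) .nil)))))))) (.g (nat_lit 1) (.e (nat_lit 430854) (nat_lit 0) .nil) .nil))) 
(.lf (nat_lit 604912) (.g (nat_lit 2018) (.e (nat_lit 786176) (nat_lit 3) (.e (nat_lit 57480) (nat_lit 28) (.e (nat_lit 557109) (nat_lit 15) (.e (nat_lit 188449) (nat_lit 22) (.e (nat_lit 196666) (nat_lit 13) .nil))))) (.g (nat_lit 0) (.e (nat_lit 431533) (nat_lit 0) .nil) .nil)))) (.nd (nat_lit 9) 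
(.lf (nat_lit 604656) (.g (nat_lit 1892) (.e (nat_lit 778316) (nat_lit 3) (.e (nat_lit 57479) (nat_lit 28) (.e (nat_lit 557095) (nat_lit 13) (.e (nat_lit 172115) (nat_lit 10) .nil)))) (.g (nat_lit 0) (.e (nat_lit 431251) (nat_lit 0) .nil) .nil))) 
(.lf (nat_lit 605168) (.g (nat_lit 1455) (.e (nat_lit 786176) (nat_lit 5) (.e (nat_lit 73782) (nat_lit 32) (.e (nat_lit 3090) (nat_lit 191) (.e (nat_lit 483404) (nat_lit 26) (.e (nat_lit 385096) (nat_lit 49) .nil))))) (.g (nat_lit 0) (.e (nat_lit 431806) (nat_lit 0) .nil) .nil))))))))) (.nd (nat_lit 4) (.nd (nat_lit 5) (.nd (nat_lit 6) (.nd (nat_lit 7) (.nd (nat_lit 8) (.nd (nat_lit 9) 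
(.lf (nat_lit 604168) (.g (nat_lit 750) (.e (nat_lit 761898) (nat_lit 15) (.e (nat_lit 163979) (nat_lit 30) (.e (nat_lit 573488) (nat_lit 14) .nil))) (.g (nat_lit 0) (.e (nat_lit 428748) (nat_lit 0) .nil) .nil))) 
(.lf (nat_lit 604680) (.g (nat_lit 2782) (.e (nat_lit 778317) (nat_lit 3) (.e (nat_lit 57476) (nat_lit 28) (.e (nat_lit 557067) (nat_lit 9) (.e (nat_lit 3022) (nat_lit 187) (.e (nat_lit 450579) (nat_lit 5) .nil))))) (.g (nat_lit 0) (.e (nat_lit 431275) (nat_lit 0) .nil) .nil)))) (.nd (nat_lit 9) 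
(.lf (nat_lit 604424) (.g (nat_lit 2300) (.e (nat_lit 770071) (nat_lit 8) (.e (nat_lit 65586) (nat_lit 7) (.e (nat_lit 319534) (nat_lit 16) (.e (nat_lit 286756) (nat_lit 10) (.e (nat_lit 344090) (nat_lit 18) .nil))))) (.g (nat_lit 0) (.e (nat_lit 430879) (nat_lit 0) .nil) .nil))) 
(.lf (nat_lit 604936) (.g (nat_lit 2751) (.e (nat_lit 778320) (nat_lit 4) (.e (nat_lit 65630) (nat_lit 14) (.e (nat_lit 401437) (nat_lit 9) (.e (nat_lit 426540) (nat_lit 29) (.e (nat_lit 352260) (nat_lit 0) .nil))))) (.g (nat_lit 0) (.e (nat_lit 431560) (nat_lit 0) .nil) .nil))))) (.nd (nat_lit 8) (.nd (nat_lit 9) 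
(.lf (nat_lit 604296) (.g (nat_lit 4294) (.e (nat_lit 761899) (nat_lit 15) (.e (nat_lit 163978) (nat_lit 30) (.e (nat_lit 573489) (nat_lit 14) (.e (nat_lit 73755) (nat_lit 8) (.e (nat_lit 557103) (nat_lit 14) (.e (nat_lit 180244) (nat_lit 5) (.e (nat_lit 532484) (nat_lit 0) (.e (nat_lit 2272) (nat_lit 149) .nil)))))))) (.g (nat_lit 1) (.e (nat_lit 429029) (nat_lit 0) .nil) .nil))) 
(.lf (nat_lit 604808) (.g (nat_lit 3041) (.e (nat_lit 778318) (nat_lit 3) (.e (nat_lit 57476) (nat_lit 28) (.e (nat_lit 557107) (nat_lit 15) (.e (nat_lit 188450) (nat_lit 23) (.e (nat_lit 204852) (nat_lit 26) (.e (nat_lit 336297) (nat_lit 15) (.e (nat_lit 3629) (nat_lit 227) .nil))))))) (.g (nat_lit 1) (.e (nat_lit 431426) (nat_lit 0) .nil) .nil)))) (.nd (nat_lit 9) 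
(.lf (nat_lit 604552) (.g (nat_lit 1294) (.e (nat_lit 770072) (nat_lit 8) (.e (nat_lit 65586) (nat_lit 7) (.e (nat_lit 319531) (nat_lit 16) (.e (nat_lit 286756) (nat_lit 10) .nil)))) (.g (nat_lit 0) (.e (nat_lit 431016) (nat_lit 0) .nil) .nil))) 
(.lf (nat_lit 605064) (.g (nat_lit 1104) (.e (nat_lit 778323) (nat_lit 5) (.e (nat_lit 73782) (nat_lit 32) (.e (nat_lit 2857) (nat_lit 184) (.e (nat_lit 426484) (nat_lit 27) .nil)))) (.g (nat_lit 0) (.e (nat_lit 431698) (nat_lit 0) .nil) .nil)))))) (.nd (nat_lit 7) (.nd (nat_lit 8) (.nd (nat_lit 9) 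
(.lf (nat_lit 604232) (.g (nat_lit 4203) (.e (nat_lit 761898) (nat_lit 15) (.e (nat_lit 163979) (nat_lit 30) (.e (nat_lit 573489) (nat_lit 14) (.e (nat_lit 73755) (nat_lit 8) (.e (nat_lit 557104) (nat_lit 14) (.e (nat_lit 180244) (nat_lit 5) (.e (nat_lit 532489) (nat_lit 0) (.e (nat_lit 7936) (nat_lit 149) .nil)))))))) (.g (nat_lit 1) (.e (nat_lit 428821) (nat_lit 0) .nil) .nil))) 
(.lf (nat_lit 604744) (.g (nat_lit 2455) (.e (nat_lit 778318) (nat_lit 3) (.e (nat_lit 57476) (nat_lit 28) (.e (nat_lit 557097) (nat_lit 13) (.e (nat_lit 172115) (nat_lit 10) (.e (nat_lit 434231) (nat_lit 23) (.e (nat_lit 532531) (nat_lit 9) (.e (nat_lit 336240) (nat_lit 15) (.e (nat_lit 3637) (nat_lit 227) .nil)))))))) (.g (nat_lit 1) (.e (nat_lit 431360) (nat_lit 0) .nil) .nil)))) 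
(.nd (nat_lit 9) 
(.lf (nat_lit 604488) (.g (nat_lit 1449) (.e (nat_lit 770072) (nat_lit 8) (.e (nat_lit 65571) (nat_lit 3) (.e (nat_lit 98372) (nat_lit 29) (.e (nat_lit 450587) (nat_lit 10) .nil)))) (.g (nat_lit 0) (.e (nat_lit 430952) (nat_lit 0) .nil) .nil))) 
(.lf (nat_lit 605000) (.g (nat_lit 1693) (.e (nat_lit 778323) (nat_lit 5) (.e (nat_lit 73781) (nat_lit 32) (.e (nat_lit 2857) (nat_lit 184) (.e (nat_lit 426540) (nat_lit 29) (.e (nat_lit 352260) (nat_lit 0) .nil))))) (.g (nat_lit 0) (.e (nat_lit 431634) (nat_lit 0) .nil) .nil))))) (.nd (nat_lit 8) (.nd (nat_lit 9) 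
(.lf (nat_lit 604360) (.g (nat_lit 3559) (.e (nat_lit 761906) (nat_lit 16) (.e (nat_lit 172115) (nat_lit 10) (.e (nat_lit 434292) (nat_lit 44) (.e (nat_lit 704738) (nat_lit 11) (.e (nat_lit 16425) (nat_lit 7) (.e (nat_lit 409617) (nat_lit 10) (.e (nat_lit 848) (nat_lit 73) .nil))))))) (.g (nat_lit 1) (.e (nat_lit 430116) (nat_lit 0) .nil) .nil))) 
(.lf (nat_lit 604872) (.g (nat_lit 4579) (.e (nat_lit 778318) (nat_lit 3) (.e (nat_lit 57476) (nat_lit 28) (.e (nat_lit 557108) (nat_lit 15) (.e (nat_lit 188452) (nat_lit 23) (.e (nat_lit 204852) (nat_lit 26) (.e (nat_lit 336306) (nat_lit 15) (.e (nat_lit 3619) (nat_lit 227) .nil))))))) (.g (nat_lit 1) (.e (nat_lit 431490) (nat_lit 0) .nil) .nil)))) (.nd (nat_lit 9) 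
(.lf (nat_lit 604616) (.g (nat_lit 2376) (.e (nat_lit 770072) (nat_lit 8) (.e (nat_lit 65630) (nat_lit 14) (.e (nat_lit 401454) (nat_lit 12) (.e (nat_lit 475219) (nat_lit 44) .nil)))) (.g (nat_lit 0) (.e (nat_lit 431087) (nat_lit 0) .nil) .nil))) 
(.lf (nat_lit 605128) (.g (nat_lit 2532) (.e (nat_lit 778324) (nat_lit 5) (.e (nat_lit 73781) (nat_lit 32) (.e (nat_lit 3090) (nat_lit 191) (.e (nat_lit 483380) (nat_lit 23) (.e (nat_lit 336243) (nat_lit 15) .nil))))) (.g (nat_lit 0) (.e (nat_lit 431766) (nat_lit 0) .nil) .nil))))))) (.nd (nat_lit 6) (.nd (nat_lit 7) (.nd (nat_lit 8) (.nd (nat_lit 9) 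
(.lf (nat_lit 604200) (.g (nat_lit 2770) (.e (nat_lit 761898) (nat_lit 15) (.e (nat_lit 163979) (nat_lit 30) (.e (nat_lit 573489) (nat_lit 14) (.e (nat_lit 73755) (nat_lit 8) (.e (nat_lit 557097) (nat_lit 13) (.e (nat_lit 172066) (nat_lit 3) (.e (nat_lit 204819) (nat_lit 17) (.e (nat_lit 7936) (nat_lit 149) .nil)))))))) (.g (nat_lit 1) (.e (nat_lit 428786) (nat_lit 0) .nil) .nil))) 
(.lf (nat_lit 604712) (.g (nat_lit 5499) (.e (nat_lit 778318) (nat_lit 3) (.e (nat_lit 57475) (nat_lit 28) (.e (nat_lit 557100) (nat_lit 13) (.e (nat_lit 172106) (nat_lit 10) (.e (nat_lit 434231) (nat_lit 23) (.e (nat_lit 532535) (nat_lit 9) (.e (nat_lit 336295) (nat_lit 15) (.e (nat_lit 3631) (nat_lit 227) .nil)))))))) (.g (nat_lit 1) (.e (nat_lit 431316) (nat_lit 0) .nil) .nil)))) 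
(.nd (nat_lit 9) 
(.lf (nat_lit 604456) (.g (nat_lit 1473) (.e (nat_lit 770071) (nat_lit 8) (.e (nat_lit 65626) (nat_lit 13) (.e (nat_lit 393233) (nat_lit 17) (.e (nat_lit 7593) (nat_lit 407) (.e (nat_lit 73773) (nat_lit 25) .nil))))) (.g (nat_lit 0) (.e (nat_lit 430916) (nat_lit 0) .nil) .nil))) 
(.lf (nat_lit 604968) (.g (nat_lit 1544) (.e (nat_lit 778321) (nat_lit 4) (.e (nat_lit 65628) (nat_lit 14) (.e (nat_lit 401457) (nat_lit 13) (.e (nat_lit 483408) (nat_lit 26) .nil)))) (.g (nat_lit 0) (.e (nat_lit 431592) (nat_lit 0) .nil) .nil))))) (.nd (nat_lit 8) (.nd (nat_lit 9) 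
(.lf (nat_lit 604328) (.g (nat_lit 3734) (.e (nat_lit 761899) (nat_lit 15) (.e (nat_lit 163979) (nat_lit 30) (.e (nat_lit 573489) (nat_lit 14) (.e (nat_lit 73755) (nat_lit 8) (.e (nat_lit 557097) (nat_lit 13) (.e (nat_lit 172065) (nat_lit 3) (.e (nat_lit 204817) (nat_lit 17) (.e (nat_lit 2272) (nat_lit 149) .nil)))))))) (.g (nat_lit 1) (.e (nat_lit 429105) (nat_lit 0) .nil) .nil))) 
(.lf (nat_lit 604840) (.g (nat_lit 4354) (.e (nat_lit 778318) (nat_lit 3) (.e (nat_lit 57476) (nat_lit 28) (.e (nat_lit 557108) (nat_lit 15) (.e (nat_lit 188452) (nat_lit 23) (.e (nat_lit 204852) (nat_lit 26) (.e (nat_lit 336240) (nat_lit 15) (.e (nat_lit 3626) (nat_lit 227) .nil))))))) (.g (nat_lit 1) (.e (nat_lit 431458) (nat_lit 0) .nil) .nil)))) (.nd (nat_lit 9) 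
(.lf (nat_lit 604584) (.g (nat_lit 2467) (.e (nat_lit 770072) (nat_lit 8) (.e (nat_lit 65617) (nat_lit 10) (.e (nat_lit 344096) (nat_lit 18) (.e (nat_lit 7263) (nat_lit 384) (.e (nat_lit 57409) (nat_lit 12) (.e (nat_lit 336182) (nat_lit 11) (.e (nat_lit 368698) (nat_lit 43) .nil))))))) (.g (nat_lit 1) (.e (nat_lit 431051) (nat_lit 0) .nil) .nil))) 
(.lf (nat_lit 605096) (.g (nat_lit 2414) (.e (nat_lit 778323) (nat_lit 5) (.e (nat_lit 73782) (nat_lit 32) (.e (nat_lit 3090) (nat_lit 191) (.e (nat_lit 483383) (nat_lit 23) (.e (nat_lit 336240) (nat_lit 15) .nil))))) (.g (nat_lit 0) (.e (nat_lit 431730) (nat_lit 0) .nil) .nil)))))) (.nd (nat_lit 7) (.nd (nat_lit 8) (.nd (nat_lit 9) 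
(.lf (nat_lit 604264) (.g (nat_lit 2227) (.e (nat_lit 761899) (nat_lit 15) (.e (nat_lit 163977) (nat_lit 30) (.e (nat_lit 573489) (nat_lit 14) (.e (nat_lit 73755) (nat_lit 8) (.e (nat_lit 557104) (nat_lit 14) (.e (nat_lit 180244) (nat_lit 5) (.e (nat_lit 532484) (nat_lit 0) (.e (nat_lit 2264) (nat_lit 149) .nil)))))))) (.g (nat_lit 1) (.e (nat_lit 428931) (nat_lit 0) .nil) .nil))) 
(.lf (nat_lit 604776) (.g (nat_lit 3323) (.e (nat_lit 778318) (nat_lit 3) (.e (nat_lit 57476) (nat_lit 28) (.e (nat_lit 557107) (nat_lit 15) (.e (nat_lit 188450) (nat_lit 23) (.e (nat_lit 204852) (nat_lit 26) (.e (nat_lit 336257) (nat_lit 15) (.e (nat_lit 3623) (nat_lit 227) .nil))))))) (.g (nat_lit 1) (.e (nat_lit 431394) (nat_lit 0) .nil) .nil)))) (.nd (nat_lit 9) 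
(.lf (nat_lit 604520) (.g (nat_lit 3564) (.e (nat_lit 770072) (nat_lit 8) (.e (nat_lit 65583) (nat_lit 7) (.e (nat_lit 319530) (nat_lit 16) (.e (nat_lit 286759) (nat_lit 12) (.e (nat_lit 385115) (nat_lit 53) (.e (nat_lit 811034) (nat_lit 11) (.e (nat_lit 7936) (nat_lit 74) .nil))))))) (.g (nat_lit 1) (.e (nat_lit 430984) (nat_lit 0) .nil) .nil))) 
(.lf (nat_lit 605032) (.g (nat_lit 2368) (.e (nat_lit 778323) (nat_lit 5) (.e (nat_lit 73781) (nat_lit 32) (.e (nat_lit 3090) (nat_lit 191) (.e (nat_lit 483380) (nat_lit 23) (.e (nat_lit 336264) (nat_lit 15) .nil))))) (.g (nat_lit 0) (.e (nat_lit 431666) (nat_lit 0) .nil) .nil))))) (.nd (nat_lit 8) (.nd (nat_lit 9) 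
(.lf (nat_lit 604392) (.g (nat_lit 642) (.e (nat_lit 770071) (nat_lit 8) (.e (nat_lit 65571) (nat_lit 3) (.e (nat_lit 98370) (nat_lit 28) .nil))) (.g (nat_lit 0) (.e (nat_lit 430845) (nat_lit 0) .nil) .nil))) 
(.lf (nat_lit 604904) (.g (nat_lit 2018) (.e (nat_lit 786176) (nat_lit 3) (.e (nat_lit 57479) (nat_lit 28) (.e (nat_lit 557101) (nat_lit 13) (.e (nat_lit 172097) (nat_lit 9) (.e (nat_lit 426140) (nat_lit 3) .nil))))) (.g (nat_lit 0) (.e (nat_lit 431524) (nat_lit 0) .nil) .nil)))) (.nd (nat_lit 9) 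
(.lf (nat_lit 604648) (.g (nat_lit 3144) (.e (nat_lit 778316) (nat_lit 3) (.e (nat_lit 57477) (nat_lit 28) (.e (nat_lit 557097) (nat_lit 13) (.e (nat_lit 172115) (nat_lit 10) (.e (nat_lit 434231) (nat_lit 23) (.e (nat_lit 532535) (nat_lit 9) (.e (nat_lit 336290) (nat_lit 15) (.e (nat_lit 3716) (nat_lit 227) .nil)))))))) (.g (nat_lit 1) (.e (nat_lit 431243) (nat_lit 0) .nil) .nil))) 
(.lf (nat_lit 605160) (.g (nat_lit 1558) (.e (nat_lit 778324) (nat_lit 5) (.e (nat_lit 73781) (nat_lit 32) (.e (nat_lit 3090) (nat_lit 191) (.e (nat_lit 483404) (nat_lit 26) (.e (nat_lit 385091) (nat_lit 49) .nil))))) (.g (nat_lit 0) (.e (nat_lit 431798) (nat_lit 0) .nil) .nil)))))))) (.nd (nat_lit 5) (.nd (nat_lit 6) (.nd (nat_lit 7) (.nd (nat_lit 8) (.nd (nat_lit 9) 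
(.lf (nat_lit 604184) (.g (nat_lit 3917) (.e (nat_lit 761898) (nat_lit 15) (.e (nat_lit 163979) (nat_lit 30) (.e (nat_lit 573489) (nat_lit 14) (.e (nat_lit 73754) (nat_lit 8) (.e (nat_lit 557101) (nat_lit 13) (.e (nat_lit 172065) (nat_lit 3) (.e (nat_lit 204817) (nat_lit 17) (.e (nat_lit 7936) (nat_lit 149) .nil)))))))) (.g (nat_lit 1) (.e (nat_lit 428765) (nat_lit 0) .nil) .nil))) 
(.lf (nat_lit 604696) (.g (nat_lit 3551) (.e (nat_lit 778317) (nat_lit 3) (.e (nat_lit 57478) (nat_lit 28) (.e (nat_lit 557100) (nat_lit 13) (.e (nat_lit 172106) (nat_lit 10) (.e (nat_lit 434231) (nat_lit 23) (.e (nat_lit 532535) (nat_lit 9) (.e (nat_lit 336295) (nat_lit 15) (.e (nat_lit 3630) (nat_lit 227) .nil)))))))) (.g (nat_lit 1) (.e (nat_lit 431292) (nat_lit 0) .nil) .nil)))) 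
(.nd (nat_lit 9) 
(.lf (nat_lit 604440) (.g (nat_lit 2713) (.e (nat_lit 770071) (nat_lit 8) (.e (nat_lit 65617) (nat_lit 10) (.e (nat_lit 344091) (nat_lit 18) (.e (nat_lit 7266) (nat_lit 384) (.e (nat_lit 57409) (nat_lit 12) (.e (nat_lit 336182) (nat_lit 11) (.e (nat_lit 368698) (nat_lit 43) .nil))))))) (.g (nat_lit 1) (.e (nat_lit 430900) (nat_lit 0) .nil) .nil))) 
(.lf (nat_lit 604952) (.g (nat_lit 1755) (.e (nat_lit 778320) (nat_lit 4) (.e (nat_lit 65630) (nat_lit 14) (.e (nat_lit 401456) (nat_lit 13) (.e (nat_lit 483406) (nat_lit 26) (.e (nat_lit 385094) (nat_lit 49) .nil))))) (.g (nat_lit 0) (.e (nat_lit 431576) (nat_lit 0) .nil) .nil))))) (.nd (nat_lit 8) (.nd (nat_lit 9) 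
(.lf (nat_lit 604312) (.g (nat_lit 843) (.e (nat_lit 761899) (nat_lit 15) (.e (nat_lit 163979) (nat_lit 30) (.e (nat_lit 573488) (nat_lit 14) .nil))) (.g (nat_lit 0) (.e (nat_lit 429085) (nat_lit 0) .nil) .nil))) 
(.lf (nat_lit 604824) (.g (nat_lit 4010) (.e (nat_lit 778318) (nat_lit 3) (.e (nat_lit 57476) (nat_lit 28) (.e (nat_lit 557108) (nat_lit 15) (.e (nat_lit 188449) (nat_lit 22) (.e (nat_lit 196662) (nat_lit 13) .nil))))) (.g (nat_lit 0) (.e (nat_lit 431442) (nat_lit 0) .nil) .nil)))) (.nd (nat_lit 9) 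
(.lf (nat_lit 604568) (.g (nat_lit 2719) (.e (nat_lit 770072) (nat_lit 8) (.e (nat_lit 65586) (nat_lit 7) (.e (nat_lit 319534) (nat_lit 16) (.e (nat_lit 286753) (nat_lit 10) (.e (nat_lit 344160) (nat_lit 37) .nil))))) (.g (nat_lit 0) (.e (nat_lit 431033) (nat_lit 0) .nil) .nil))) 
(.lf (nat_lit 605080) (.g (nat_lit 2077) (.e (nat_lit 778323) (nat_lit 5) (.e (nat_lit 73782) (nat_lit 32) (.e (nat_lit 3090) (nat_lit 191) (.e (nat_lit 483380) (nat_lit 23) (.e (nat_lit 336238) (nat_lit 15) .nil))))) (.g (nat_lit 0) (.e (nat_lit 431714) (nat_lit 0) .nil) .nil)))))) (.nd (nat_lit 7) (.nd (nat_lit 8) (.nd (nat_lit 9) 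
(.lf (nat_lit 604248) (.g (nat_lit 2934) (.e (nat_lit 761899) (nat_lit 15) (.e (nat_lit 163977) (nat_lit 30) (.e (nat_lit 573489) (nat_lit 14) (.e (nat_lit 73755) (nat_lit 8) (.e (nat_lit 557097) (nat_lit 13) (.e (nat_lit 172066) (nat_lit 3) (.e (nat_lit 204814) (nat_lit 17) (.e (nat_lit 2270) (nat_lit 149) .nil)))))))) (.g (nat_lit 1) (.e (nat_lit 428915) (nat_lit 0) .nil) .nil))) 
(.lf (nat_lit 604760) (.g (nat_lit 1699) (.e (nat_lit 778318) (nat_lit 3) (.e (nat_lit 57476) (nat_lit 28) (.e (nat_lit 557107) (nat_lit 15) (.e (nat_lit 188450) (nat_lit 23) (.e (nat_lit 204851) (nat_lit 26) .nil))))) (.g (nat_lit 0) (.e (nat_lit 431378) (nat_lit 0) .nil) .nil)))) (.nd (nat_lit 9) 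
(.lf (nat_lit 604504) (.g (nat_lit 1316) (.e (nat_lit 770072) (nat_lit 8) (.e (nat_lit 65583) (nat_lit 7) (.e (nat_lit 319530) (nat_lit 16) (.e (nat_lit 286748) (nat_lit 9) (.e (nat_lit 343808) (nat_lit 20) .nil))))) (.g (nat_lit 0) (.e (nat_lit 430968) (nat_lit 0) .nil) .nil))) 
(.lf (nat_lit 605016) (.g (nat_lit 1126) (.e (nat_lit 778323) (nat_lit 5) (.e (nat_lit 73781) (nat_lit 32) (.e (nat_lit 3090) (nat_lit 191) (.e (nat_lit 483379) (nat_lit 23) .nil)))) (.g (nat_lit 0) (.e (nat_lit 431650) (nat_lit 0) .nil) .nil))))) (.nd (nat_lit 8) (.nd (nat_lit 9) 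
(.lf (nat_lit 604376) (.g (nat_lit 3310) (.e (nat_lit 770058) (nat_lit 5) (.e (nat_lit 1449) (nat_lit 108) (.e (nat_lit 336013) (nat_lit 2) (.e (nat_lit 90134) (nat_lit 9) (.e (nat_lit 3009) (nat_lit 187) .nil))))) (.g (nat_lit 0) (.e (nat_lit 430827) (nat_lit 0) .nil) .nil))) 
(.lf (nat_lit 604888) (.g (nat_lit 3035) (.e (nat_lit 778318) (nat_lit 3) (.e (nat_lit 57476) (nat_lit 28) (.e (nat_lit 557108) (nat_lit 15) (.e (nat_lit 188452) (nat_lit 23) (.e (nat_lit 204859) (nat_lit 26) .nil))))) (.g (nat_lit 0) (.e (nat_lit 431506) (nat_lit 0) .nil) .nil)))) (.nd (nat_lit 9) 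
(.lf (nat_lit 604632) (.g (nat_lit 1695) (.e (nat_lit 770076) (nat_lit 12) (.e (nat_lit 131109) (nat_lit 9) (.e (nat_lit 336443) (nat_lit 32) (.e (nat_lit 466969) (nat_lit 21) (.e (nat_lit 164325) (nat_lit 230) (.e (nat_lit 163844) (nat_lit 0) (.e (nat_lit 3609) (nat_lit 226) .nil))))))) (.g (nat_lit 1) (.e (nat_lit 431104) (nat_lit 0) .nil) .nil))) 
(.lf (nat_lit 605144) (.g (nat_lit 2427) (.e (nat_lit 778324) (nat_lit 5) (.e (nat_lit 73781) (nat_lit 32) (.e (nat_lit 3090) (nat_lit 191) (.e (nat_lit 483380) (nat_lit 23) (.e (nat_lit 336303) (nat_lit 15) .nil))))) (.g (nat_lit 0) (.e (nat_lit 431782) (nat_lit 0) .nil) .nil))))))) (.nd (nat_lit 6) (.nd (nat_lit 7) (.nd (nat_lit 8) (.nd (nat_lit 9) 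
(.lf (nat_lit 604216) (.g (nat_lit 2174) (.e (nat_lit 761898) (nat_lit 15) (.e (nat_lit 163979) (nat_lit 30) (.e (nat_lit 573489) (nat_lit 14) (.e (nat_lit 73755) (nat_lit 8) (.e (nat_lit 557103) (nat_lit 14) .nil))))) (.g (nat_lit 0) (.e (nat_lit 428805) (nat_lit 0) .nil) .nil))) 
(.lf (nat_lit 604728) (.g (nat_lit 2609) (.e (nat_lit 778318) (nat_lit 3) (.e (nat_lit 57476) (nat_lit 28) (.e (nat_lit 557097) (nat_lit 13) (.e (nat_lit 172115) (nat_lit 10) (.e (nat_lit 434231) (nat_lit 23) (.e (nat_lit 532528) (nat_lit 9) (.e (nat_lit 336260) (nat_lit 15) (.e (nat_lit 3618) (nat_lit 227) .nil)))))))) (.g (nat_lit 1) (.e (nat_lit 431344) (nat_lit 0) .nil) .nil)))) 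
(.nd (nat_lit 9) 
(.lf (nat_lit 604472) (.g (nat_lit 2680) (.e (nat_lit 770072) (nat_lit 8) (.e (nat_lit 65569) (nat_lit 3) (.e (nat_lit 98372) (nat_lit 29) (.e (nat_lit 450588) (nat_lit 10) (.e (nat_lit 573473) (nat_lit 12) .nil))))) (.g (nat_lit 0) (.e (nat_lit 430936) (nat_lit 0) .nil) .nil))) 
(.lf (nat_lit 604984) (.g (nat_lit 1329) (.e (nat_lit 778322) (nat_lit 5) (.e (nat_lit 73782) (nat_lit 32) (.e (nat_lit 2855) (nat_lit 184) (.e (nat_lit 426540) (nat_lit 29) (.e (nat_lit 352258) (nat_lit 0) .nil))))) (.g (nat_lit 0) (.e (nat_lit 431611) (nat_lit 0) .nil) .nil))))) (.nd (nat_lit 8) (.nd (nat_lit 9) 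
(.lf (nat_lit 604344) (.g (nat_lit 2335) (.e (nat_lit 761899) (nat_lit 15) (.e (nat_lit 163979) (nat_lit 30) (.e (nat_lit 573489) (nat_lit 14) (.e (nat_lit 73755) (nat_lit 8) (.e (nat_lit 557104) (nat_lit 14) (.e (nat_lit 180242) (nat_lit 5) (.e (nat_lit 532484) (nat_lit 0) (.e (nat_lit 7936) (nat_lit 149) .nil)))))))) (.g (nat_lit 1) (.e (nat_lit 429123) (nat_lit 0) .nil) .nil))) 
(.lf (nat_lit 604856) (.g (nat_lit 2996) (.e (nat_lit 778318) (nat_lit 3) (.e (nat_lit 57476) (nat_lit 28) (.e (nat_lit 557108) (nat_lit 15) (.e (nat_lit 188452) (nat_lit 23) (.e (nat_lit 204852) (nat_lit 26) (.e (nat_lit 336259) (nat_lit 15) (.e (nat_lit 3617) (nat_lit 227) .nil))))))) (.g (nat_lit 1) (.e (nat_lit 431474) (nat_lit 0) .nil) .nil)))) (.nd (nat_lit 9) 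
(.lf (nat_lit 604600) (.g (nat_lit 1117) (.e (nat_lit 770072) (nat_lit 8) (.e (nat_lit 65627) (nat_lit 13) (.e (nat_lit 393299) (nat_lit 27) (.e (nat_lit 491561) (nat_lit 11) .nil)))) (.g (nat_lit 0) (.e (nat_lit 431067) (nat_lit 0) .nil) .nil))) 
(.lf (nat_lit 605112) (.g (nat_lit 1481) (.e (nat_lit 778324) (nat_lit 5) (.e (nat_lit 73781) (nat_lit 32) (.e (nat_lit 2857) (nat_lit 184) (.e (nat_lit 426542) (nat_lit 29) (.e (nat_lit 352267) (nat_lit 0) .nil))))) (.g (nat_lit 0) (.e (nat_lit 431750) (nat_lit 0) .nil) .nil)))))) (.nd (nat_lit 7) (.nd (nat_lit 8) (.nd (nat_lit 9) 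
(.lf (nat_lit 604280) (.g (nat_lit 2302) (.e (nat_lit 761899) (nat_lit 15) (.e (nat_lit 163978) (nat_lit 30) (.e (nat_lit 573489) (nat_lit 14) (.e (nat_lit 73755) (nat_lit 8) (.e (nat_lit 557096) (nat_lit 13) (.e (nat_lit 172065) (nat_lit 3) (.e (nat_lit 204817) (nat_lit 17) (.e (nat_lit 2272) (nat_lit 149) .nil)))))))) (.g (nat_lit 1) (.e (nat_lit 429010) (nat_lit 0) .nil) .nil))) 
(.lf (nat_lit 604792) (.g (nat_lit 2944) (.e (nat_lit 778318) (nat_lit 3) (.e (nat_lit 57476) (nat_lit 28) (.e (nat_lit 557107) (nat_lit 15) (.e (nat_lit 188450) (nat_lit 23) (.e (nat_lit 204852) (nat_lit 26) (.e (nat_lit 336259) (nat_lit 15) (.e (nat_lit 3633) (nat_lit 227) .nil))))))) (.g (nat_lit 1) (.e (nat_lit 431410) (nat_lit 0) .nil) .nil)))) (.nd (nat_lit 9) 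
(.lf (nat_lit 604536) (.g (nat_lit 3297) (.e (nat_lit 770072) (nat_lit 8) (.e (nat_lit 65586) (nat_lit 7) (.e (nat_lit 319531) (nat_lit 16) (.e (nat_lit 286748) (nat_lit 9) (.e (nat_lit 336295) (nat_lit 15) (.e (nat_lit 3632) (nat_lit 227) (.e (nat_lit 778567) (nat_lit 15) (.e (nat_lit 65280) (nat_lit 115) .nil)))))))) (.g (nat_lit 1) (.e (nat_lit 431000) (nat_lit 0) .nil) .nil))) 
(.lf (nat_lit 605048) (.g (nat_lit 2362) (.e (nat_lit 778323) (nat_lit 5) (.e (nat_lit 73781) (nat_lit 32) (.e (nat_lit 3090) (nat_lit 191) (.e (nat_lit 483406) (nat_lit 26) (.e (nat_lit 385092) (nat_lit 49) .nil))))) (.g (nat_lit 1) (.e (nat_lit 431682) (nat_lit 0) .nil) .nil))))) (.nd (nat_lit 8) (.nd (nat_lit 9) 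
(.lf (nat_lit 604408) (.g (nat_lit 2267) (.e (nat_lit 770071) (nat_lit 8) (.e (nat_lit 65586) (nat_lit 7) (.e (nat_lit 319531) (nat_lit 16) (.e (nat_lit 286748) (nat_lit 9) (.e (nat_lit 335938) (nat_lit 0) .nil))))) (.g (nat_lit 0) (.e (nat_lit 430862) (nat_lit 0) .nil) .nil))) 
(.lf (nat_lit 604920) (.g (nat_lit 2253) (.e (nat_lit 778319) (nat_lit 4) (.e (nat_lit 65624) (nat_lit 12) (.e (nat_lit 385093) (nat_lit 49) (.e (nat_lit 778327) (nat_lit 6) (.e (nat_lit 81920) (nat_lit 0) .nil))))) (.g (nat_lit 0) (.e (nat_lit 431541) (nat_lit 0) .nil) .nil)))) (.nd (nat_lit 9) 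
(.lf (nat_lit 604664) (.g (nat_lit 3718) (.e (nat_lit 778316) (nat_lit 3) (.e (nat_lit 57480) (nat_lit 28) (.e (nat_lit 557098) (nat_lit 13) (.e (nat_lit 172097) (nat_lit 9) (.e (nat_lit 426140) (nat_lit 3) (.e (nat_lit 204855) (nat_lit 26) (.e (nat_lit 336290) (nat_lit 15) (.e (nat_lit 3715) (nat_lit 227) .nil)))))))) (.g (nat_lit 1) (.e (nat_lit 431259) (nat_lit 0) .nil) .nil))) 
(.lf (nat_lit 605176) (.g (nat_lit 1335) (.e (nat_lit 778325) (nat_lit 6) (.e (nat_lit 81924) (nat_lit 0) (.e (nat_lit 3632) (nat_lit 227) (.e (nat_lit 778326) (nat_lit 6) (.e (nat_lit 81921) (nat_lit 0) (.e (nat_lit 3715) (nat_lit 227) .nil)))))) (.g (nat_lit 1) (.e (nat_lit 431814) (nat_lit 0) .nil) .nil)))))))))) 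
(.nd (nat_lit 3) (.nd (nat_lit 4) (.nd (nat_lit 5) (.nd (nat_lit 6) (.nd (nat_lit 7) 
(.nd (nat_lit 8) (.nd (nat_lit 9) 
(.lf (nat_lit 604164) (.g (nat_lit 5102) (.e (nat_lit 761898) (nat_lit 15) (.e (nat_lit 163979) (nat_lit 30) (.e (nat_lit 573487) (nat_lit 14) (.e (nat_lit 73753) (nat_lit 8) (.e (nat_lit 557103) (nat_lit 14) (.e (nat_lit 180243) (nat_lit 5) (.e (nat_lit 532484) (nat_lit 0) (.e (nat_lit 7936) (nat_lit 149) .nil)))))))) (.g (nat_lit 1) (.e (nat_lit 428744) (nat_lit 0) .nil) .nil))) 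
(.lf (nat_lit 604676) (.g (nat_lit 2456) (.e (nat_lit 778317) (nat_lit 3) (.e (nat_lit 57474) (nat_lit 28) (.e (nat_lit 557100) (nat_lit 13) (.e (nat_lit 172106) (nat_lit 10) (.e (nat_lit 434231) (nat_lit 23) (.e (nat_lit 532535) (nat_lit 9) (.e (nat_lit 336295) (nat_lit 15) (.e (nat_lit 3630) (nat_lit 227) .nil)))))))) (.g (nat_lit 1) (.e (nat_lit 431271) (nat_lit 0) .nil) .nil)))) 
(.nd (nat_lit 9) 
(.lf (nat_lit 604420) (.g (nat_lit 2913) (.e (nat_lit 770071) (nat_lit 8) (.e (nat_lit 65586) (nat_lit 7) (.e (nat_lit 319531) (nat_lit 16) (.e (nat_lit 286756) (nat_lit 10) (.e (nat_lit 344099) (nat_lit 18) .nil))))) (.g (nat_lit 0) (.e (nat_lit 430874) (nat_lit 0) .nil) .nil))) 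
(.lf (nat_lit 604932) (.g (nat_lit 2390) (.e (nat_lit 778320) (nat_lit 4) (.e (nat_lit 65630) (nat_lit 14) (.e (nat_lit 401437) (nat_lit 9) (.e (nat_lit 426489) (nat_lit 27) (.e (nat_lit 336206) (nat_lit 12) .nil))))) (.g (nat_lit 0) (.e (nat_lit 431556) (nat_lit 0) .nil) .nil))))) (.nd (nat_lit 8) (.nd (nat_lit 9) 
(.lf (nat_lit 604292) (.g (nat_lit 4443) (.e (nat_lit 761899) (nat_lit 15) (.e (nat_lit 163978) (nat_lit 30) (.e (nat_lit 573489) (nat_lit 14) (.e (nat_lit 73755) (nat_lit 8) (.e (nat_lit 557098) (nat_lit 13) (.e (nat_lit 172067) (nat_lit 3) (.e (nat_lit 204817) (nat_lit 17) (.e (nat_lit 7936) (nat_lit 149) .nil)))))))) (.g (nat_lit 1) (.e (nat_lit 429024) (nat_lit 0) .nil) .nil))) 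
(.lf (nat_lit 604804) (.g (nat_lit 3620) (.e (nat_lit 778318) (nat_lit 3) (.e (nat_lit 57476) (nat_lit 28) (.e (nat_lit 557107) (nat_lit 15) (.e (nat_lit 188450) (nat_lit 23) (.e (nat_lit 204852) (nat_lit 26) (.e (nat_lit 336303) (nat_lit 15) (.e (nat_lit 3621) (nat_lit 227) .nil))))))) (.g (nat_lit 1) (.e (nat_lit 431422) (nat_lit 0) .nil) .nil)))) (.nd (nat_lit 9) 
(.lf (nat_lit 604548) (.g (nat_lit 1925) (.e (nat_lit 770072) (nat_lit 8) (.e (nat_lit 65586) (nat_lit 7) (.e (nat_lit 319531) (nat_lit 16) (.e (nat_lit 286753) (nat_lit 10) .nil)))) (.g (nat_lit 0) (.e (nat_lit 431012) (nat_lit 0) .nil) .nil))) 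
(.lf (nat_lit 605060) (.g (nat_lit 3033) (.e (nat_lit 778323) (nat_lit 5) (.e (nat_lit 73782) (nat_lit 32) (.e (nat_lit 2856) (nat_lit 184) (.e (nat_lit 426555) (nat_lit 32) (.e (nat_lit 376834) (nat_lit 0) (.e (nat_lit 3632) (nat_lit 227) .nil)))))) (.g (nat_lit 1) (.e (nat_lit 431694) (nat_lit 0) .nil) .nil)))))) (.nd (nat_lit 7) (.nd (nat_lit 8) (.nd (nat_lit 9) 
(.lf (nat_lit 604228) (.g (nat_lit 2154) (.e (nat_lit 761898) (nat_lit 15) (.e (nat_lit 163979) (nat_lit 30) (.e (nat_lit 573489) (nat_lit 14) (.e (nat_lit 73755) (nat_lit 8) (.e (nat_lit 557104) (nat_lit 14) (.e (nat_lit 180244) (nat_lit 5) (.e (nat_lit 532484) (nat_lit 0) (.e (nat_lit 2272) (nat_lit 149) .nil)))))))) (.g (nat_lit 1) (.e (nat_lit 428817) (nat_lit 0) .nil) .nil))) 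
(.lf (nat_lit 604740) (.g (nat_lit 4957) (.e (nat_lit 778318) (nat_lit 3) (.e (nat_lit 57476) (nat_lit 28) (.e (nat_lit 557097) (nat_lit 13) (.e (nat_lit 172115) (nat_lit 10) (.e (nat_lit 434231) (nat_lit 23) (.e (nat_lit 532529) (nat_lit 9) (.e (nat_lit 336306) (nat_lit 15) (.e (nat_lit 3619) (nat_lit 227) .nil)))))))) (.g (nat_lit 1) (.e (nat_lit 431356) (nat_lit 0) .nil) .nil)))) 
(.nd (nat_lit 9) 
(.lf (nat_lit 604484) (.g (nat_lit 4729) (.e (nat_lit 770072) (nat_lit 8) (.e (nat_lit 65571) (nat_lit 3) (.e (nat_lit 98359) (nat_lit 26) (.e (nat_lit 426286) (nat_lit 10) (.e (nat_lit 434247) (nat_lit 28) (.e (nat_lit 573475) (nat_lit 12) (.e (nat_lit 57572) (nat_lit 54) .nil))))))) (.g (nat_lit 1) (.e (nat_lit 430948) (nat_lit 0) .nil) .nil))) 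
(.lf (nat_lit 604996) (.g (nat_lit 2704) (.e (nat_lit 778323) (nat_lit 5) (.e (nat_lit 73781) (nat_lit 32) (.e (nat_lit 2856) (nat_lit 184) (.e (nat_lit 426555) (nat_lit 32) (.e (nat_lit 376834) (nat_lit 0) (.e (nat_lit 3632) (nat_lit 227) .nil)))))) (.g (nat_lit 1) (.e (nat_lit 431630) (nat_lit 0) .nil) .nil))))) (.nd (nat_lit 8) (.nd (nat_lit 9) 
(.lf (nat_lit 604356) (.g (nat_lit 1615) (.e (nat_lit 761905) (nat_lit 16) (.e (nat_lit 172085) (nat_lit 9) (.e (nat_lit 426482) (nat_lit 27) (.e (nat_lit 336060) (nat_lit 7) (.e (nat_lit 319533) (nat_lit 16) .nil))))) (.g (nat_lit 0) (.e (nat_lit 429901) (nat_lit 0) .nil) .nil))) 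
(.lf (nat_lit 604868) (.g (nat_lit 2866) (.e (nat_lit 778318) (nat_lit 3) (.e (nat_lit 57476) (nat_lit 28) (.e (nat_lit 557108) (nat_lit 15) (.e (nat_lit 188452) (nat_lit 23) (.e (nat_lit 204852) (nat_lit 26) (.e (nat_lit 336260) (nat_lit 15) (.e (nat_lit 3622) (nat_lit 227) .nil))))))) (.g (nat_lit 1) (.e (nat_lit 431486) (nat_lit 0) .nil) .nil)))) (.nd (nat_lit 9) 
(.lf (nat_lit 604612) (.g (nat_lit 2426) (.e (nat_lit 770072) (nat_lit 8) (.e (nat_lit 65630) (nat_lit 14) (.e (nat_lit 401454) (nat_lit 12) (.e (nat_lit 475212) (nat_lit 42) (.e (nat_lit 720956) (nat_lit 25) .nil))))) (.g (nat_lit 0) (.e (nat_lit 431083) (nat_lit 0) .nil) .nil))) 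
(.lf (nat_lit 605124) (.g (nat_lit 1267) (.e (nat_lit 778324) (nat_lit 5) (.e (nat_lit 73781) (nat_lit 32) (.e (nat_lit 3090) (nat_lit 191) (.e (nat_lit 483379) (nat_lit 23) .nil)))) (.g (nat_lit 0) (.e (nat_lit 431762) (nat_lit 0) .nil) .nil))))))) (.nd (nat_lit 6) (.nd (nat_lit 7) (.nd (nat_lit 8) (.nd (nat_lit 9) 
(.lf (nat_lit 604196) (.g (nat_lit 2249) (.e (nat_lit 761898) (nat_lit 15) (.e (nat_lit 163979) (nat_lit 30) (.e (nat_lit 573489) (nat_lit 14) (.e (nat_lit 73755) (nat_lit 8) (.e (nat_lit 557097) (nat_lit 13) (.e (nat_lit 172065) (nat_lit 3) (.e (nat_lit 204817) (nat_lit 17) (.e (nat_lit 2271) (nat_lit 149) .nil)))))))) (.g (nat_lit 1) (.e (nat_lit 428782) (nat_lit 0) .nil) .nil))) 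
(.lf (nat_lit 604708) (.g (nat_lit 4723) (.e (nat_lit 778317) (nat_lit 3) (.e (nat_lit 57480) (nat_lit 28) (.e (nat_lit 557099) (nat_lit 13) (.e (nat_lit 172106) (nat_lit 10) (.e (nat_lit 434231) (nat_lit 23) (.e (nat_lit 532535) (nat_lit 9) (.e (nat_lit 336295) (nat_lit 15) (.e (nat_lit 3629) (nat_lit 227) .nil)))))))) (.g (nat_lit 1) (.e (nat_lit 431311) (nat_lit 0) .nil) .nil)))) 
(.nd (nat_lit 9) 
(.lf (nat_lit 604452) (.g (nat_lit 2077) (.e (nat_lit 770071) (nat_lit 8) (.e (nat_lit 65625) (nat_lit 13) (.e (nat_lit 393233) (nat_lit 17) (.e (nat_lit 7593) (nat_lit 407) (.e (nat_lit 73773) (nat_lit 25) .nil))))) (.g (nat_lit 1) (.e (nat_lit 430912) (nat_lit 0) .nil) .nil))) 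
(.lf (nat_lit 604964) (.g (nat_lit 1487) (.e (nat_lit 778321) (nat_lit 4) (.e (nat_lit 65628) (nat_lit 14) (.e (nat_lit 401457) (nat_lit 13) (.e (nat_lit 483402) (nat_lit 26) .nil)))) (.g (nat_lit 0) (.e (nat_lit 431588) (nat_lit 0) .nil) .nil))))) (.nd (nat_lit 8) (.nd (nat_lit 9) 
(.lf (nat_lit 604324) (.g (nat_lit 2865) (.e (nat_lit 761899) (nat_lit 15) (.e (nat_lit 163979) (nat_lit 30) (.e (nat_lit 573489) (nat_lit 14) (.e (nat_lit 73755) (nat_lit 8) (.e (nat_lit 557096) (nat_lit 13) .nil))))) (.g (nat_lit 0) (.e (nat_lit 429099) (nat_lit 0) .nil) .nil))) 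
(.lf (nat_lit 604836) (.g (nat_lit 3463) (.e (nat_lit 778318) (nat_lit 3) (.e (nat_lit 57476) (nat_lit 28) (.e (nat_lit 557108) (nat_lit 15) (.e (nat_lit 188452) (nat_lit 23) (.e (nat_lit 204852) (nat_lit 26) (.e (nat_lit 336238) (nat_lit 15) (.e (nat_lit 3626) (nat_lit 227) .nil))))))) (.g (nat_lit 1) (.e (nat_lit 431454) (nat_lit 0) .nil) .nil)))) (.nd (nat_lit 9) 
(.lf (nat_lit 604580) (.g (nat_lit 2376) (.e (nat_lit 770072) (nat_lit 8) (.e (nat_lit 65617) (nat_lit 10) (.e (nat_lit 344091) (nat_lit 18) (.e (nat_lit 7263) (nat_lit 384) (.e (nat_lit 57409) (nat_lit 12) (.e (nat_lit 336182) (nat_lit 11) (.e (nat_lit 368698) (nat_lit 43) .nil))))))) (.g (nat_lit 1) (.e (nat_lit 431047) (nat_lit 0) .nil) .nil))) 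
(.lf (nat_lit 605092) (.g (nat_lit 2428) (.e (nat_lit 778323) (nat_lit 5) (.e (nat_lit 73782) (nat_lit 32) (.e (nat_lit 3090) (nat_lit 191) (.e (nat_lit 483380) (nat_lit 23) (.e (nat_lit 336285) (nat_lit 15) (.e (nat_lit 3630) (nat_lit 227) .nil)))))) (.g (nat_lit 1) (.e (nat_lit 431726) (nat_lit 0) .nil) .nil)))))) (.nd (nat_lit 7) (.nd (nat_lit 8) (.nd (nat_lit 9) 
(.lf (nat_lit 604260) (.g (nat_lit 2978) (.e (nat_lit 761899) (nat_lit 15) (.e (nat_lit 163977) (nat_lit 30) (.e (nat_lit 573489) (nat_lit 14) (.e (nat_lit 73755) (nat_lit 8) (.e (nat_lit 557103) (nat_lit 14) (.e (nat_lit 180244) (nat_lit 5) (.e (nat_lit 532484) (nat_lit 0) (.e (nat_lit 2271) (nat_lit 149) .nil)))))))) (.g (nat_lit 1) (.e (nat_lit 428927) (nat_lit 0) .nil) .nil))) 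
(.lf (nat_lit 604772) (.g (nat_lit 3437) (.e (nat_lit 778318) (nat_lit 3) (.e (nat_lit 57476) (nat_lit 28) (.e (nat_lit 557107) (nat_lit 15) (.e (nat_lit 188450) (nat_lit 23) (.e (nat_lit 204852) (nat_lit 26) (.e (nat_lit 336257) (nat_lit 15) (.e (nat_lit 3619) (nat_lit 227) .nil))))))) (.g (nat_lit 1) (.e (nat_lit 431390) (nat_lit 0) .nil) .nil)))) (.nd (nat_lit 9) 
(.lf (nat_lit 604516) (.g (nat_lit 3601) (.e (nat_lit 770072) (nat_lit 8) (.e (nat_lit 65583) (nat_lit 7) (.e (nat_lit 319530) (nat_lit 16) (.e (nat_lit 286759) (nat_lit 12) (.e (nat_lit 385107) (nat_lit 51) (.e (nat_lit 794648) (nat_lit 20) (.e (nat_lit 3613) (nat_lit 226) .nil))))))) (.g (nat_lit 1) (.e (nat_lit 430980) (nat_lit 0) .nil) .nil))) 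
(.lf (nat_lit 605028) (.g (nat_lit 1867) (.e (nat_lit 778323) (nat_lit 5) (.e (nat_lit 73781) (nat_lit 32) (.e (nat_lit 3090) (nat_lit 191) (.e (nat_lit 483380) (nat_lit 23) (.e (nat_lit 336261) (nat_lit 15) (.e (nat_lit 3635) (nat_lit 227) .nil)))))) (.g (nat_lit 1) (.e (nat_lit 431662) (nat_lit 0) .nil) .nil))))) (.nd (nat_lit 8) (.nd (nat_lit 9) 
(.lf (nat_lit 604388) (.g (nat_lit 1525) (.e (nat_lit 770071) (nat_lit 8) (.e (nat_lit 65569) (nat_lit 3) (.e (nat_lit 98342) (nat_lit 20) (.e (nat_lit 221198) (nat_lit 20) (.e (nat_lit 3744) (nat_lit 228) .nil))))) (.g (nat_lit 0) (.e (nat_lit 430841) (nat_lit 0) .nil) .nil))) 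
(.lf (nat_lit 604900) (.g (nat_lit 3450) (.e (nat_lit 786176) (nat_lit 3) (.e (nat_lit 57478) (nat_lit 28) (.e (nat_lit 557109) (nat_lit 15) (.e (nat_lit 188450) (nat_lit 23) (.e (nat_lit 204880) (nat_lit 32) .nil))))) (.g (nat_lit 0) (.e (nat_lit 431520) (nat_lit 0) .nil) .nil)))) (.nd (nat_lit 9) 
(.lf (nat_lit 604644) (.g (nat_lit 1688) (.e (nat_lit 786176) (nat_lit 2) (.e (nat_lit 16407) (nat_lit 1) (.e (nat_lit 164332) (nat_lit 230) (.e (nat_lit 163884) (nat_lit 5) (.e (nat_lit 229120) (nat_lit 14) .nil))))) (.g (nat_lit 0) (.e (nat_lit 431238) (nat_lit 0) .nil) .nil))) 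
(.lf (nat_lit 605156) (.g (nat_lit 2413) (.e (nat_lit 778324) (nat_lit 5) (.e (nat_lit 73781) (nat_lit 32) (.e (nat_lit 3090) (nat_lit 191) (.e (nat_lit 483403) (nat_lit 26) (.e (nat_lit 385091) (nat_lit 49) .nil))))) (.g (nat_lit 0) (.e (nat_lit 431794) (nat_lit 0) .nil) .nil)))))))) (.nd (nat_lit 5) (.nd (nat_lit 6) (.nd (nat_lit 7) (.nd (nat_lit 8) (.nd (nat_lit 9) 
(.lf (nat_lit 604180) (.g (nat_lit 1710) (.e (nat_lit 761898) (nat_lit 15) (.e (nat_lit 163979) (nat_lit 30) (.e (nat_lit 573489) (nat_lit 14) (.e (nat_lit 73753) (nat_lit 8) .nil)))) (.g (nat_lit 0) (.e (nat_lit 428760) (nat_lit 0) .nil) .nil))) 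
(.lf (nat_lit 604692) (.g (nat_lit 1576) (.e (nat_lit 778317) (nat_lit 3) (.e (nat_lit 57477) (nat_lit 28) (.e (nat_lit 557107) (nat_lit 15) (.e (nat_lit 188450) (nat_lit 23) (.e (nat_lit 204858) (nat_lit 26) .nil))))) (.g (nat_lit 0) (.e (nat_lit 431287) (nat_lit 0) .nil) .nil)))) (.nd (nat_lit 9) 
(.lf (nat_lit 604436) (.g (nat_lit 1634) (.e (nat_lit 770071) (nat_lit 8) (.e (nat_lit 65616) (nat_lit 10) (.e (nat_lit 344177) (nat_lit 43) (.e (nat_lit 770074) (nat_lit 10) (.e (nat_lit 81939) (nat_lit 20) .nil))))) (.g (nat_lit 0) (.e (nat_lit 430896) (nat_lit 0) .nil) .nil))) 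
(.lf (nat_lit 604948) (.g (nat_lit 2090) (.e (nat_lit 778320) (nat_lit 4) (.e (nat_lit 65630) (nat_lit 14) (.e (nat_lit 401456) (nat_lit 13) (.e (nat_lit 483403) (nat_lit 26) (.e (nat_lit 385094) (nat_lit 49) .nil))))) (.g (nat_lit 0) (.e (nat_lit 431572) (nat_lit 0) .nil) .nil))))) (.nd (nat_lit 8) (.nd (nat_lit 9) 
(.lf (nat_lit 604308) (.g (nat_lit 3546) (.e (nat_lit 761899) (nat_lit 15) (.e (nat_lit 163978) (nat_lit 30) (.e (nat_lit 573489) (nat_lit 14) (.e (nat_lit 73755) (nat_lit 8) (.e (nat_lit 557105) (nat_lit 14) (.e (nat_lit 180245) (nat_lit 5) (.e (nat_lit 532484) (nat_lit 0) (.e (nat_lit 7936) (nat_lit 149) .nil)))))))) (.g (nat_lit 1) (.e (nat_lit 429042) (nat_lit 0) .nil) .nil))) 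
(.lf (nat_lit 604820) (.g (nat_lit 2301) (.e (nat_lit 778318) (nat_lit 3) (.e (nat_lit 57476) (nat_lit 28) (.e (nat_lit 557107) (nat_lit 15) (.e (nat_lit 188452) (nat_lit 23) (.e (nat_lit 204879) (nat_lit 32) .nil))))) (.g (nat_lit 0) (.e (nat_lit 431438) (nat_lit 0) .nil) .nil)))) (.nd (nat_lit 9) 
(.lf (nat_lit 604564) (.g (nat_lit 1491) (.e (nat_lit 770072) (nat_lit 8) (.e (nat_lit 65586) (nat_lit 7) (.e (nat_lit 319533) (nat_lit 16) (.e (nat_lit 286753) (nat_lit 10) (.e (nat_lit 344160) (nat_lit 37) .nil))))) (.g (nat_lit 0) (.e (nat_lit 431029) (nat_lit 0) .nil) .nil))) 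
(.lf (nat_lit 605076) (.g (nat_lit 1870) (.e (nat_lit 778323) (nat_lit 5) (.e (nat_lit 73782) (nat_lit 32) (.e (nat_lit 3089) (nat_lit 191) (.e (nat_lit 483406) (nat_lit 26) (.e (nat_lit 385091) (nat_lit 49) .nil))))) (.g (nat_lit 1) (.e (nat_lit 431710) (nat_lit 0) .nil) .nil)))))) (.nd (nat_lit 7) (.nd (nat_lit 8) (.nd (nat_lit 9) 
(.lf (nat_lit 604244) (.g (nat_lit 2223) (.e (nat_lit 761899) (nat_lit 15) (.e (nat_lit 163977) (nat_lit 30) (.e (nat_lit 573489) (nat_lit 14) (.e (nat_lit 73755) (nat_lit 8) (.e (nat_lit 557096) (nat_lit 13) (.e (nat_lit 172067) (nat_lit 3) (.e (nat_lit 204814) (nat_lit 17) (.e (nat_lit 2270) (nat_lit 149) .nil)))))))) (.g (nat_lit 1) (.e (nat_lit 428908) (nat_lit 0) .nil) .nil))) 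
(.lf (nat_lit 604756) (.g (nat_lit 3980) (.e (nat_lit 778318) (nat_lit 3) (.e (nat_lit 57476) (nat_lit 28) (.e (nat_lit 557100) (nat_lit 13) (.e (nat_lit 172106) (nat_lit 10) (.e (nat_lit 434231) (nat_lit 23) (.e (nat_lit 532535) (nat_lit 9) (.e (nat_lit 336295) (nat_lit 15) (.e (nat_lit 3630) (nat_lit 227) .nil)))))))) (.g (nat_lit 1) (.e (nat_lit 431374) (nat_lit 0) .nil) .nil)))) 
(.nd (nat_lit 9) 
(.lf (nat_lit 604500) (.g (nat_lit 2163) (.e (nat_lit 770072) (nat_lit 8) (.e (nat_lit 65583) (nat_lit 7) (.e (nat_lit 319530) (nat_lit 16) (.e (nat_lit 286748) (nat_lit 9) (.e (nat_lit 336295) (nat_lit 15) (.e (nat_lit 3806) (nat_lit 231) (.e (nat_lit 811031) (nat_lit 11) (.e (nat_lit 7936) (nat_lit 74) .nil)))))))) (.g (nat_lit 1) (.e (nat_lit 430964) (nat_lit 0) .nil) .nil))) 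
(.lf (nat_lit 605012) (.g (nat_lit 1410) (.e (nat_lit 778323) (nat_lit 5) (.e (nat_lit 73781) (nat_lit 32) (.e (nat_lit 3089) (nat_lit 191) (.e (nat_lit 483387) (nat_lit 23) (.e (nat_lit 336292) (nat_lit 15) .nil))))) (.g (nat_lit 0) (.e (nat_lit 431646) (nat_lit 0) .nil) .nil))))) (.nd (nat_lit 8) (.nd (nat_lit 9) 
(.lf (nat_lit 604372) (.g (nat_lit 961) (.e (nat_lit 761914) (nat_lit 18) (.e (nat_lit 196352) (nat_lit 0) (.e (nat_lit 2030) (nat_lit 140) (.e (nat_lit 688184) (nat_lit 18) (.e (nat_lit 89856) (nat_lit 0) (.e (nat_lit 3601) (nat_lit 225) .nil)))))) (.g (nat_lit 1) (.e (nat_lit 430663) (nat_lit 0) .nil) .nil))) 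
(.lf (nat_lit 604884) (.g (nat_lit 2168) (.e (nat_lit 778318) (nat_lit 3) (.e (nat_lit 57476) (nat_lit 28) (.e (nat_lit 557108) (nat_lit 15) (.e (nat_lit 188452) (nat_lit 23) (.e (nat_lit 204855) (nat_lit 26) (.e (nat_lit 336291) (nat_lit 15) (.e (nat_lit 3629) (nat_lit 227) .nil))))))) (.g (nat_lit 1) (.e (nat_lit 431502) (nat_lit 0) .nil) .nil)))) (.nd (nat_lit 9) 
(.lf (nat_lit 604628) (.g (nat_lit 2452) (.e (nat_lit 770074) (nat_lit 10) (.e (nat_lit 81925) (nat_lit 11) (.e (nat_lit 426343) (nat_lit 14) (.e (nat_lit 491558) (nat_lit 10) (.e (nat_lit 344176) (nat_lit 43) .nil))))) (.g (nat_lit 0) (.e (nat_lit 431099) (nat_lit 0) .nil) .nil))) 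
(.lf (nat_lit 605140) (.g (nat_lit 2061) (.e (nat_lit 778324) (nat_lit 5) (.e (nat_lit 73781) (nat_lit 32) (.e (nat_lit 3090) (nat_lit 191) (.e (nat_lit 483380) (nat_lit 23) (.e (nat_lit 336259) (nat_lit 15) .nil))))) (.g (nat_lit 0) (.e (nat_lit 431778) (nat_lit 0) .nil) .nil))))))) (.nd (nat_lit 6) (.nd (nat_lit 7) (.nd (nat_lit 8) (.nd (nat_lit 9) 
(.lf (nat_lit 604212) (.g (nat_lit 5042) (.e (nat_lit 761898) (nat_lit 15) (.e (nat_lit 163979) (nat_lit 30) (.e (nat_lit 573489) (nat_lit 14) (.e (nat_lit 73755) (nat_lit 8) (.e (nat_lit 557098) (nat_lit 13) (.e (nat_lit 172065) (nat_lit 3) (.e (nat_lit 204817) (nat_lit 17) (.e (nat_lit 7936) (nat_lit 149) .nil)))))))) (.g (nat_lit 1) (.e (nat_lit 428801) (nat_lit 0) .nil) .nil))) 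
(.lf (nat_lit 604724) (.g (nat_lit 2842) (.e (nat_lit 778318) (nat_lit 3) (.e (nat_lit 57476) (nat_lit 28) (.e (nat_lit 557097) (nat_lit 13) (.e (nat_lit 172115) (nat_lit 10) (.e (nat_lit 434231) (nat_lit 23) (.e (nat_lit 532527) (nat_lit 9) (.e (nat_lit 336306) (nat_lit 15) (.e (nat_lit 3619) (nat_lit 227) .nil)))))))) (.g (nat_lit 1) (.e (nat_lit 431340) (nat_lit 0) .nil) .nil)))) 
(.nd (nat_lit 9) 
(.lf (nat_lit 604468) (.g (nat_lit 3948) (.e (nat_lit 770072) (nat_lit 8) (.e (nat_lit 65568) (nat_lit 2) (.e (nat_lit 90170) (nat_lit 13) (.e (nat_lit 172113) (nat_lit 10) (.e (nat_lit 434243) (nat_lit 28) (.e (nat_lit 573474) (nat_lit 12) (.e (nat_lit 57572) (nat_lit 54) .nil))))))) (.g (nat_lit 1) (.e (nat_lit 430932) (nat_lit 0) .nil) .nil))) 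
(.lf (nat_lit 604980) (.g (nat_lit 1144) (.e (nat_lit 778322) (nat_lit 5) (.e (nat_lit 73781) (nat_lit 32) (.e (nat_lit 2855) (nat_lit 184) (.e (nat_lit 426542) (nat_lit 29) (.e (nat_lit 352264) (nat_lit 0) (.e (nat_lit 3716) (nat_lit 227) .nil)))))) (.g (nat_lit 1) (.e (nat_lit 431607) (nat_lit 0) .nil) .nil))))) (.nd (nat_lit 8) (.nd (nat_lit 9) 
(.lf (nat_lit 604340) (.g (nat_lit 4269) (.e (nat_lit 761899) (nat_lit 15) (.e (nat_lit 163979) (nat_lit 30) (.e (nat_lit 573489) (nat_lit 14) (.e (nat_lit 73755) (nat_lit 8) (.e (nat_lit 557103) (nat_lit 14) (.e (nat_lit 180244) (nat_lit 5) (.e (nat_lit 532481) (nat_lit 0) (.e (nat_lit 2271) (nat_lit 149) .nil)))))))) (.g (nat_lit 1) (.e (nat_lit 429119) (nat_lit 0) .nil) .nil))) 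
(.lf (nat_lit 604852) (.g (nat_lit 4490) (.e (nat_lit 778318) (nat_lit 3) (.e (nat_lit 57476) (nat_lit 28) (.e (nat_lit 557108) (nat_lit 15) (.e (nat_lit 188452) (nat_lit 23) (.e (nat_lit 204852) (nat_lit 26) (.e (nat_lit 336257) (nat_lit 15) (.e (nat_lit 3637) (nat_lit 227) .nil))))))) (.g (nat_lit 1) (.e (nat_lit 431470) (nat_lit 0) .nil) .nil)))) (.nd (nat_lit 9) 
(.lf (nat_lit 604596) (.g (nat_lit 858) (.e (nat_lit 770072) (nat_lit 8) (.e (nat_lit 65626) (nat_lit 13) (.e (nat_lit 393238) (nat_lit 17) (.e (nat_lit 6989) (nat_lit 377) .nil)))) (.g (nat_lit 0) (.e (nat_lit 431063) (nat_lit 0) .nil) .nil))) 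
(.lf (nat_lit 605108) (.g (nat_lit 1839) (.e (nat_lit 778324) (nat_lit 5) (.e (nat_lit 73781) (nat_lit 32) (.e (nat_lit 2856) (nat_lit 184) (.e (nat_lit 426542) (nat_lit 29) (.e (nat_lit 352267) (nat_lit 0) .nil))))) (.g (nat_lit 0) (.e (nat_lit 431746) (nat_lit 0) .nil) .nil)))))) (.nd (nat_lit 7) (.nd (nat_lit 8) (.nd (nat_lit 9) 
(.lf (nat_lit 604276) (.g (nat_lit 2717) (.e (nat_lit 761899) (nat_lit 15) (.e (nat_lit 163978) (nat_lit 30) (.e (nat_lit 573489) (nat_lit 14) (.e (nat_lit 73754) (nat_lit 8) (.e (nat_lit 557101) (nat_lit 13) (.e (nat_lit 172066) (nat_lit 3) (.e (nat_lit 204821) (nat_lit 17) (.e (nat_lit 2264) (nat_lit 149) .nil)))))))) (.g (nat_lit 1) (.e (nat_lit 429004) (nat_lit 0) .nil) .nil))) 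
(.lf (nat_lit 604788) (.g (nat_lit 2845) (.e (nat_lit 778318) (nat_lit 3) (.e (nat_lit 57476) (nat_lit 28) (.e (nat_lit 557107) (nat_lit 15) (.e (nat_lit 188450) (nat_lit 23) (.e (nat_lit 204852) (nat_lit 26) (.e (nat_lit 336259) (nat_lit 15) (.e (nat_lit 3619) (nat_lit 227) .nil))))))) (.g (nat_lit 1) (.e (nat_lit 431406) (nat_lit 0) .nil) .nil)))) (.nd (nat_lit 9) 
(.lf (nat_lit 604532) (.g (nat_lit 2710) (.e (nat_lit 770072) (nat_lit 8) (.e (nat_lit 65583) (nat_lit 7) (.e (nat_lit 319534) (nat_lit 16) (.e (nat_lit 286756) (nat_lit 10) (.e (nat_lit 344160) (nat_lit 37) .nil))))) (.g (nat_lit 0) (.e (nat_lit 430996) (nat_lit 0) .nil) .nil))) 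
(.lf (nat_lit 605044) (.g (nat_lit 1422) (.e (nat_lit 778323) (nat_lit 5) (.e (nat_lit 73781) (nat_lit 32) (.e (nat_lit 3090) (nat_lit 191) (.e (nat_lit 483392) (nat_lit 23) .nil)))) (.g (nat_lit 0) (.e (nat_lit 431678) (nat_lit 0) .nil) .nil))))) (.nd (nat_lit 8) (.nd (nat_lit 9) 
(.lf (nat_lit 604404) (.g (nat_lit 2326) (.e (nat_lit 770071) (nat_lit 8) (.e (nat_lit 65586) (nat_lit 7) (.e (nat_lit 319531) (nat_lit 16) (.e (nat_lit 286743) (nat_lit 9) (.e (nat_lit 336337) (nat_lit 20) (.e (nat_lit 221196) (nat_lit 20) (.e (nat_lit 3610) (nat_lit 226) .nil))))))) (.g (nat_lit 1) (.e (nat_lit 430858) (nat_lit 0) .nil) .nil))) 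
(.lf (nat_lit 604916) (.g (nat_lit 2935) (.e (nat_lit 786176) (nat_lit 3) (.e (nat_lit 57480) (nat_lit 28) (.e (nat_lit 557109) (nat_lit 15) (.e (nat_lit 188452) (nat_lit 23) (.e (nat_lit 204881) (nat_lit 32) .nil))))) (.g (nat_lit 0) (.e (nat_lit 431537) (nat_lit 0) .nil) .nil)))) (.nd (nat_lit 9) 
(.lf (nat_lit 604660) (.g (nat_lit 3674) (.e (nat_lit 778316) (nat_lit 3) (.e (nat_lit 57479) (nat_lit 28) (.e (nat_lit 557101) (nat_lit 13) (.e (nat_lit 172115) (nat_lit 10) (.e (nat_lit 434231) (nat_lit 23) (.e (nat_lit 532535) (nat_lit 9) (.e (nat_lit 336290) (nat_lit 15) (.e (nat_lit 3716) (nat_lit 227) .nil)))))))) (.g (nat_lit 1) (.e (nat_lit 431255) (nat_lit 0) .nil) .nil))) 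
(.lf (nat_lit 605172) (.g (nat_lit 1226) (.e (nat_lit 778325) (nat_lit 6) (.e (nat_lit 81922) (nat_lit 0) (.e (nat_lit 3632) (nat_lit 227) (.e (nat_lit 778326) (nat_lit 6) (.e (nat_lit 81920) (nat_lit 0) (.e (nat_lit 3715) (nat_lit 227) .nil)))))) (.g (nat_lit 1) (.e (nat_lit 431810) (nat_lit 0) .nil) .nil))))))))) 
(.nd (nat_lit 4) (.nd (nat_lit 5) (.nd (nat_lit 6) (.nd (nat_lit 7) (.nd (nat_lit 8) 
(.nd (nat_lit 9) 
(.lf (nat_lit 604172) (.g (nat_lit 2749) (.e (nat_lit 761898) (nat_lit 15) (.e (nat_lit 163979) (nat_lit 30) (.e (nat_lit 573488) (nat_lit 14) (.e (nat_lit 73755) (nat_lit 8) (.e (nat_lit 557097) (nat_lit 13) .nil))))) (.g (nat_lit 0) (.e (nat_lit 428752) (nat_lit 0) .nil) .nil))) 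
(.lf (nat_lit 604684) (.g (nat_lit 2892) (.e (nat_lit 778317) (nat_lit 3) (.e (nat_lit 57476) (nat_lit 28) (.e (nat_lit 557067) (nat_lit 9) (.e (nat_lit 3022) (nat_lit 187) (.e (nat_lit 450580) (nat_lit 5) (.e (nat_lit 532565) (nat_lit 15) (.e (nat_lit 385094) (nat_lit 49) .nil))))))) (.g (nat_lit 1) (.e (nat_lit 431279) (nat_lit 0) .nil) .nil)))) (.nd (nat_lit 9) 
(.lf (nat_lit 604428) (.g (nat_lit 2476) (.e (nat_lit 770071) (nat_lit 8) (.e (nat_lit 65610) (nat_lit 10) (.e (nat_lit 344090) (nat_lit 18) (.e (nat_lit 7266) (nat_lit 384) (.e (nat_lit 57409) (nat_lit 12) (.e (nat_lit 336182) (nat_lit 11) (.e (nat_lit 368698) (nat_lit 43) .nil))))))) (.g (nat_lit 1) (.e (nat_lit 430888) (nat_lit 0) .nil) .nil))) 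
(.lf (nat_lit 604940) (.g (nat_lit 1592) (.e (nat_lit 778320) (nat_lit 4) (.e (nat_lit 65630) (nat_lit 14) (.e (nat_lit 401438) (nat_lit 9) (.e (nat_lit 426487) (nat_lit 27) .nil)))) (.g (nat_lit 0) (.e (nat_lit 431564) (nat_lit 0) .nil) .nil))))) (.nd (nat_lit 8) (.nd (nat_lit 9) 
(.lf (nat_lit 604300) (.g (nat_lit 2669) (.e (nat_lit 761899) (nat_lit 15) (.e (nat_lit 163978) (nat_lit 30) (.e (nat_lit 573489) (nat_lit 14) (.e (nat_lit 73755) (nat_lit 8) (.e (nat_lit 557103) (nat_lit 14) (.e (nat_lit 180244) (nat_lit 5) (.e (nat_lit 532485) (nat_lit 0) (.e (nat_lit 2271) (nat_lit 149) .nil)))))))) (.g (nat_lit 1) (.e (nat_lit 429033) (nat_lit 0) .nil) .nil))) 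
(.lf (nat_lit 604812) (.g (nat_lit 3350) (.e (nat_lit 778318) (nat_lit 3) (.e (nat_lit 57476) (nat_lit 28) (.e (nat_lit 557107) (nat_lit 15) (.e (nat_lit 188450) (nat_lit 23) (.e (nat_lit 204854) (nat_lit 26) (.e (nat_lit 336306) (nat_lit 15) (.e (nat_lit 3619) (nat_lit 227) .nil))))))) (.g (nat_lit 1) (.e (nat_lit 431430) (nat_lit 0) .nil) .nil)))) (.nd (nat_lit 9) 
(.lf (nat_lit 604556) (.g (nat_lit 2825) (.e (nat_lit 770072) (nat_lit 8) (.e (nat_lit 65586) (nat_lit 7) (.e (nat_lit 319531) (nat_lit 16) (.e (nat_lit 286756) (nat_lit 10) (.e (nat_lit 344099) (nat_lit 18) .nil))))) (.g (nat_lit 0) (.e (nat_lit 431020) (nat_lit 0) .nil) .nil))) 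
(.lf (nat_lit 605068) (.g (nat_lit 1618) (.e (nat_lit 778323) (nat_lit 5) (.e (nat_lit 73782) (nat_lit 32) (.e (nat_lit 3088) (nat_lit 191) (.e (nat_lit 483393) (nat_lit 23) (.e (nat_lit 336291) (nat_lit 15) .nil))))) (.g (nat_lit 0) (.e (nat_lit 431702) (nat_lit 0) .nil) .nil)))))) (.nd (nat_lit 7) (.nd (nat_lit 8) (.nd (nat_lit 9) 
(.lf (nat_lit 604236) (.g (nat_lit 1762) (.e (nat_lit 761899) (nat_lit 15) (.e (nat_lit 163959) (nat_lit 24) (.e (nat_lit 524320) (nat_lit 12) (.e (nat_lit 450579) (nat_lit 5) (.e (nat_lit 532530) (nat_lit 9) (.e (nat_lit 336258) (nat_lit 15) (.e (nat_lit 3603) (nat_lit 225) .nil))))))) (.g (nat_lit 1) (.e (nat_lit 428870) (nat_lit 0) .nil) .nil))) 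
(.lf (nat_lit 604748) (.g (nat_lit 3951) (.e (nat_lit 778318) (nat_lit 3) (.e (nat_lit 57476) (nat_lit 28) (.e (nat_lit 557097) (nat_lit 13) (.e (nat_lit 172115) (nat_lit 10) (.e (nat_lit 434231) (nat_lit 23) (.e (nat_lit 532531) (nat_lit 9) (.e (nat_lit 336306) (nat_lit 15) (.e (nat_lit 3619) (nat_lit 227) .nil)))))))) (.g (nat_lit 1) (.e (nat_lit 431364) (nat_lit 0) .nil) .nil)))) 
(.nd (nat_lit 9) 
(.lf (nat_lit 604492) (.g (nat_lit 2072) (.e (nat_lit 770072) (nat_lit 8) (.e (nat_lit 65582) (nat_lit 7) (.e (nat_lit 319530) (nat_lit 16) (.e (nat_lit 286759) (nat_lit 12) (.e (nat_lit 385110) (nat_lit 52) (.e (nat_lit 802832) (nat_lit 20) (.e (nat_lit 3613) (nat_lit 226) .nil))))))) (.g (nat_lit 1) (.e (nat_lit 430956) (nat_lit 0) .nil) .nil))) 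
(.lf (nat_lit 605004) (.g (nat_lit 1675) (.e (nat_lit 778323) (nat_lit 5) (.e (nat_lit 73781) (nat_lit 32) (.e (nat_lit 3088) (nat_lit 191) (.e (nat_lit 483393) (nat_lit 23) (.e (nat_lit 336275) (nat_lit 15) .nil))))) (.g (nat_lit 0) (.e (nat_lit 431638) (nat_lit 0) .nil) .nil))))) (.nd (nat_lit 8) (.nd (nat_lit 9) 
(.lf (nat_lit 604364) (.g (nat_lit 1843) (.e (nat_lit 761910) (nat_lit 17) (.e (nat_lit 180252) (nat_lit 10) (.e (nat_lit 573449) (nat_lit 9) (.e (nat_lit 1669) (nat_lit 116) (.e (nat_lit 401459) (nat_lit 13) .nil))))) (.g (nat_lit 0) (.e (nat_lit 430419) (nat_lit 0) .nil) .nil))) 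
(.lf (nat_lit 604876) (.g (nat_lit 3179) (.e (nat_lit 778318) (nat_lit 3) (.e (nat_lit 57476) (nat_lit 28) (.e (nat_lit 557108) (nat_lit 15) (.e (nat_lit 188452) (nat_lit 23) (.e (nat_lit 204852) (nat_lit 26) (.e (nat_lit 336297) (nat_lit 15) (.e (nat_lit 3631) (nat_lit 227) .nil))))))) (.g (nat_lit 1) (.e (nat_lit 431494) (nat_lit 0) .nil) .nil)))) (.nd (nat_lit 9) 
(.lf (nat_lit 604620) (.g (nat_lit 3405) (.e (nat_lit 770073) (nat_lit 9) (.e (nat_lit 73746) (nat_lit 3) (.e (nat_lit 516165) (nat_lit 12) (.e (nat_lit 450587) (nat_lit 10) (.e (nat_lit 573475) (nat_lit 12) .nil))))) (.g (nat_lit 0) (.e (nat_lit 431091) (nat_lit 0) .nil) .nil))) 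
(.lf (nat_lit 605132) (.g (nat_lit 2105) (.e (nat_lit 778324) (nat_lit 5) (.e (nat_lit 73781) (nat_lit 32) (.e (nat_lit 3090) (nat_lit 191) (.e (nat_lit 483380) (nat_lit 23) (.e (nat_lit 336257) (nat_lit 15) (.e (nat_lit 3619) (nat_lit 227) .nil)))))) (.g (nat_lit 1) (.e (nat_lit 431770) (nat_lit 0) .nil) .nil))))))) (.nd (nat_lit 6) (.nd (nat_lit 7) (.nd (nat_lit 8) (.nd (nat_lit 9) 
(.lf (nat_lit 604204) (.g (nat_lit 2327) (.e (nat_lit 761898) (nat_lit 15) (.e (nat_lit 163979) (nat_lit 30) (.e (nat_lit 573489) (nat_lit 14) (.e (nat_lit 73755) (nat_lit 8) (.e (nat_lit 557097) (nat_lit 13) (.e (nat_lit 172067) (nat_lit 3) (.e (nat_lit 204817) (nat_lit 17) (.e (nat_lit 2272) (nat_lit 149) .nil)))))))) (.g (nat_lit 1) (.e (nat_lit 428790) (nat_lit 0) .nil) .nil))) 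
(.lf (nat_lit 604716) (.g (nat_lit 3134) (.e (nat_lit 778318) (nat_lit 3) (.e (nat_lit 57476) (nat_lit 28) (.e (nat_lit 557097) (nat_lit 13) (.e (nat_lit 172097) (nat_lit 9) (.e (nat_lit 426140) (nat_lit 3) (.e (nat_lit 204855) (nat_lit 26) (.e (nat_lit 336280) (nat_lit 15) (.e (nat_lit 3627) (nat_lit 227) .nil)))))))) (.g (nat_lit 1) (.e (nat_lit 431332) (nat_lit 0) .nil) .nil)))) 
(.nd (nat_lit 9) 
(.lf (nat_lit 604460) (.g (nat_lit 3777) (.e (nat_lit 770071) (nat_lit 8) (.e (nat_lit 65628) (nat_lit 14) (.e (nat_lit 401454) (nat_lit 12) (.e (nat_lit 475214) (nat_lit 42) (.e (nat_lit 720956) (nat_lit 25) .nil))))) (.g (nat_lit 0) (.e (nat_lit 430920) (nat_lit 0) .nil) .nil))) 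
(.lf (nat_lit 604972) (.g (nat_lit 2121) (.e (nat_lit 778321) (nat_lit 4) (.e (nat_lit 65628) (nat_lit 14) (.e (nat_lit 401458) (nat_lit 13) (.e (nat_lit 483403) (nat_lit 26) (.e (nat_lit 385094) (nat_lit 49) .nil))))) (.g (nat_lit 0) (.e (nat_lit 431596) (nat_lit 0) .nil) .nil))))) (.nd (nat_lit 8) (.nd (nat_lit 9) 
(.lf (nat_lit 604332) (.g (nat_lit 3714) (.e (nat_lit 761899) (nat_lit 15) (.e (nat_lit 163979) (nat_lit 30) (.e (nat_lit 573489) (nat_lit 14) (.e (nat_lit 73755) (nat_lit 8) (.e (nat_lit 557097) (nat_lit 13) (.e (nat_lit 172067) (nat_lit 3) (.e (nat_lit 204817) (nat_lit 17) (.e (nat_lit 7936) (nat_lit 149) .nil)))))))) (.g (nat_lit 1) (.e (nat_lit 429109) (nat_lit 0) .nil) .nil))) 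
(.lf (nat_lit 604844) (.g (nat_lit 4502) (.e (nat_lit 778318) (nat_lit 3) (.e (nat_lit 57476) (nat_lit 28) (.e (nat_lit 557108) (nat_lit 15) (.e (nat_lit 188452) (nat_lit 23) (.e (nat_lit 204852) (nat_lit 26) (.e (nat_lit 336257) (nat_lit 15) (.e (nat_lit 3619) (nat_lit 227) .nil))))))) (.g (nat_lit 1) (.e (nat_lit 431462) (nat_lit 0) .nil) .nil)))) (.nd (nat_lit 9) 
(.lf (nat_lit 604588) (.g (nat_lit 1009) (.e (nat_lit 770072) (nat_lit 8) (.e (nat_lit 65617) (nat_lit 10) (.e (nat_lit 344176) (nat_lit 43) (.e (nat_lit 770076) (nat_lit 12) .nil)))) (.g (nat_lit 0) (.e (nat_lit 431055) (nat_lit 0) .nil) .nil))) 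
(.lf (nat_lit 605100) (.g (nat_lit 908) (.e (nat_lit 778323) (nat_lit 5) (.e (nat_lit 73782) (nat_lit 32) (.e (nat_lit 3090) (nat_lit 191) (.e (nat_lit 483404) (nat_lit 26) .nil)))) (.g (nat_lit 0) (.e (nat_lit 431734) (nat_lit 0) .nil) .nil)))))) (.nd (nat_lit 7) (.nd (nat_lit 8) (.nd (nat_lit 9) 
(.lf (nat_lit 604268) (.g (nat_lit 2157) (.e (nat_lit 761899) (nat_lit 15) (.e (nat_lit 163977) (nat_lit 30) (.e (nat_lit 573489) (nat_lit 14) (.e (nat_lit 73755) (nat_lit 8) (.e (nat_lit 557104) (nat_lit 14) (.e (nat_lit 180245) (nat_lit 5) (.e (nat_lit 532484) (nat_lit 0) (.e (nat_lit 2272) (nat_lit 149) .nil)))))))) (.g (nat_lit 1) (.e (nat_lit 428935) (nat_lit 0) .nil) .nil))) 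
(.lf (nat_lit 604780) (.g (nat_lit 2958) (.e (nat_lit 778318) (nat_lit 3) (.e (nat_lit 57476) (nat_lit 28) (.e (nat_lit 557107) (nat_lit 15) (.e (nat_lit 188450) (nat_lit 23) (.e (nat_lit 204852) (nat_lit 26) (.e (nat_lit 336257) (nat_lit 15) (.e (nat_lit 3629) (nat_lit 227) .nil))))))) (.g (nat_lit 1) (.e (nat_lit 431398) (nat_lit 0) .nil) .nil)))) (.nd (nat_lit 9) 
(.lf (nat_lit 604524) (.g (nat_lit 2771) (.e (nat_lit 770072) (nat_lit 8) (.e (nat_lit 65583) (nat_lit 7) (.e (nat_lit 319530) (nat_lit 16) (.e (nat_lit 286759) (nat_lit 12) (.e (nat_lit 385115) (nat_lit 53) (.e (nat_lit 811040) (nat_lit 11) (.e (nat_lit 7936) (nat_lit 74) .nil))))))) (.g (nat_lit 1) (.e (nat_lit 430988) (nat_lit 0) .nil) .nil))) 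
(.lf (nat_lit 605036) (.g (nat_lit 2144) (.e (nat_lit 778323) (nat_lit 5) (.e (nat_lit 73781) (nat_lit 32) (.e (nat_lit 3090) (nat_lit 191) (.e (nat_lit 483380) (nat_lit 23) (.e (nat_lit 336306) (nat_lit 15) (.e (nat_lit 3619) (nat_lit 227) .nil)))))) (.g (nat_lit 1) (.e (nat_lit 431670) (nat_lit 0) .nil) .nil))))) (.nd (nat_lit 8) (.nd (nat_lit 9) 
(.lf (nat_lit 604396) (.g (nat_lit 1684) (.e (nat_lit 770071) (nat_lit 8) (.e (nat_lit 65583) (nat_lit 7) (.e (nat_lit 319530) (nat_lit 16) (.e (nat_lit 286743) (nat_lit 9) (.e (nat_lit 336337) (nat_lit 20) (.e (nat_lit 221196) (nat_lit 20) (.e (nat_lit 3610) (nat_lit 226) .nil))))))) (.g (nat_lit 1) (.e (nat_lit 430850) (nat_lit 0) .nil) .nil))) 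
(.lf (nat_lit 604908) (.g (nat_lit 1111) (.e (nat_lit 786176) (nat_lit 3) (.e (nat_lit 57480) (nat_lit 28) (.e (nat_lit 557107) (nat_lit 15) (.e (nat_lit 188450) (nat_lit 23) .nil)))) (.g (nat_lit 0) (.e (nat_lit 431529) (nat_lit 0) .nil) .nil)))) (.nd (nat_lit 9) 
(.lf (nat_lit 604652) (.g (nat_lit 2009) (.e (nat_lit 778316) (nat_lit 3) (.e (nat_lit 57477) (nat_lit 28) (.e (nat_lit 557108) (nat_lit 15) (.e (nat_lit 188452) (nat_lit 23) (.e (nat_lit 204852) (nat_lit 26) .nil))))) (.g (nat_lit 0) (.e (nat_lit 431247) (nat_lit 0) .nil) .nil))) 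
(.lf (nat_lit 605164) (.g (nat_lit 2778) (.e (nat_lit 786176) (nat_lit 5) (.e (nat_lit 73781) (nat_lit 32) (.e (nat_lit 3090) (nat_lit 191) (.e (nat_lit 483403) (nat_lit 26) (.e (nat_lit 392960) (nat_lit 49) .nil))))) (.g (nat_lit 0) (.e (nat_lit 431802) (nat_lit 0) .nil) .nil)))))))) (.nd (nat_lit 5) (.nd (nat_lit 6) (.nd (nat_lit 7) (.nd (nat_lit 8) (.nd (nat_lit 9) 
(.lf (nat_lit 604188) (.g (nat_lit 3244) (.e (nat_lit 761898) (nat_lit 15) (.e (nat_lit 163979) (nat_lit 30) (.e (nat_lit 573489) (nat_lit 14) (.e (nat_lit 73754) (nat_lit 8) (.e (nat_lit 557101) (nat_lit 13) (.e (nat_lit 172067) (nat_lit 3) (.e (nat_lit 204817) (nat_lit 17) (.e (nat_lit 7936) (nat_lit 149) .nil)))))))) (.g (nat_lit 1) (.e (nat_lit 428769) (nat_lit 0) .nil) .nil))) 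
(.lf (nat_lit 604700) (.g (nat_lit 1838) (.e (nat_lit 778317) (nat_lit 3) (.e (nat_lit 57479) (nat_lit 28) (.e (nat_lit 557106) (nat_lit 15) (.e (nat_lit 188452) (nat_lit 23) .nil)))) (.g (nat_lit 0) (.e (nat_lit 431296) (nat_lit 0) .nil) .nil)))) (.nd (nat_lit 9) 
(.lf (nat_lit 604444) (.g (nat_lit 1122) (.e (nat_lit 770071) (nat_lit 8) (.e (nat_lit 65617) (nat_lit 10) (.e (nat_lit 344176) (nat_lit 43) (.e (nat_lit 770074) (nat_lit 10) .nil)))) (.g (nat_lit 0) (.e (nat_lit 430904) (nat_lit 0) .nil) .nil))) 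
(.lf (nat_lit 604956) (.g (nat_lit 2170) (.e (nat_lit 778320) (nat_lit 4) (.e (nat_lit 65630) (nat_lit 14) (.e (nat_lit 401457) (nat_lit 13) (.e (nat_lit 483403) (nat_lit 26) (.e (nat_lit 385093) (nat_lit 49) .nil))))) (.g (nat_lit 0) (.e (nat_lit 431580) (nat_lit 0) .nil) .nil))))) (.nd (nat_lit 8) (.nd (nat_lit 9) 
(.lf (nat_lit 604316) (.g (nat_lit 2835) (.e (nat_lit 761899) (nat_lit 15) (.e (nat_lit 163979) (nat_lit 30) (.e (nat_lit 573489) (nat_lit 14) (.e (nat_lit 73754) (nat_lit 8) (.e (nat_lit 557100) (nat_lit 13) (.e (nat_lit 172067) (nat_lit 3) (.e (nat_lit 204815) (nat_lit 17) (.e (nat_lit 2271) (nat_lit 149) .nil)))))))) (.g (nat_lit 1) (.e (nat_lit 429089) (nat_lit 0) .nil) .nil))) 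
(.lf (nat_lit 604828) (.g (nat_lit 2875) (.e (nat_lit 778318) (nat_lit 3) (.e (nat_lit 57476) (nat_lit 28) (.e (nat_lit 557108) (nat_lit 15) (.e (nat_lit 188452) (nat_lit 23) (.e (nat_lit 204851) (nat_lit 26) .nil))))) (.g (nat_lit 0) (.e (nat_lit 431446) (nat_lit 0) .nil) .nil)))) (.nd (nat_lit 9) 
(.lf (nat_lit 604572) (.g (nat_lit 1424) (.e (nat_lit 770072) (nat_lit 8) (.e (nat_lit 65598) (nat_lit 9) (.e (nat_lit 336412) (nat_lit 27) (.e (nat_lit 426343) (nat_lit 14) (.e (nat_lit 491560) (nat_lit 10) .nil))))) (.g (nat_lit 0) (.e (nat_lit 431039) (nat_lit 0) .nil) .nil))) 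
(.lf (nat_lit 605084) (.g (nat_lit 1740) (.e (nat_lit 778323) (nat_lit 5) (.e (nat_lit 73782) (nat_lit 32) (.e (nat_lit 3090) (nat_lit 191) (.e (nat_lit 483380) (nat_lit 23) (.e (nat_lit 336258) (nat_lit 15) (.e (nat_lit 3628) (nat_lit 227) .nil)))))) (.g (nat_lit 1) (.e (nat_lit 431718) (nat_lit 0) .nil) .nil)))))) (.nd (nat_lit 7) (.nd (nat_lit 8) (.nd (nat_lit 9) 
(.lf (nat_lit 604252) (.g (nat_lit 2137) (.e (nat_lit 761899) (nat_lit 15) (.e (nat_lit 163977) (nat_lit 30) (.e (nat_lit 573489) (nat_lit 14) (.e (nat_lit 73755) (nat_lit 8) (.e (nat_lit 557097) (nat_lit 13) (.e (nat_lit 172066) (nat_lit 3) (.e (nat_lit 204820) (nat_lit 17) (.e (nat_lit 2272) (nat_lit 149) .nil)))))))) (.g (nat_lit 1) (.e (nat_lit 428919) (nat_lit 0) .nil) .nil))) 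
(.lf (nat_lit 604764) (.g (nat_lit 3109) (.e (nat_lit 778318) (nat_lit 3) (.e (nat_lit 57476) (nat_lit 28) (.e (nat_lit 557107) (nat_lit 15) (.e (nat_lit 188450) (nat_lit 23) (.e (nat_lit 204852) (nat_lit 26) (.e (nat_lit 336242) (nat_lit 15) (.e (nat_lit 7936) (nat_lit 227) .nil))))))) (.g (nat_lit 1) (.e (nat_lit 431382) (nat_lit 0) .nil) .nil)))) (.nd (nat_lit 9) 
(.lf (nat_lit 604508) (.g (nat_lit 1341) (.e (nat_lit 770072) (nat_lit 8) (.e (nat_lit 65583) (nat_lit 7) (.e (nat_lit 319530) (nat_lit 16) (.e (nat_lit 286755) (nat_lit 10) .nil)))) (.g (nat_lit 0) (.e (nat_lit 430972) (nat_lit 0) .nil) .nil))) 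
(.lf (nat_lit 605020) (.g (nat_lit 2035) (.e (nat_lit 778323) (nat_lit 5) (.e (nat_lit 73781) (nat_lit 32) (.e (nat_lit 3090) (nat_lit 191) (.e (nat_lit 483380) (nat_lit 23) (.e (nat_lit 336240) (nat_lit 15) (.e (nat_lit 3626) (nat_lit 227) .nil)))))) (.g (nat_lit 1) (.e (nat_lit 431654) (nat_lit 0) .nil) .nil))))) (.nd (nat_lit 8) (.nd (nat_lit 9) 
(.lf (nat_lit 604380) (.g (nat_lit 2920) (.e (nat_lit 770070) (nat_lit 8) (.e (nat_lit 65570) (nat_lit 3) (.e (nat_lit 98373) (nat_lit 29) (.e (nat_lit 450588) (nat_lit 10) (.e (nat_lit 573475) (nat_lit 12) .nil))))) (.g (nat_lit 0) (.e (nat_lit 430833) (nat_lit 0) .nil) .nil))) 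
(.lf (nat_lit 604892) (.g (nat_lit 5578) (.e (nat_lit 778318) (nat_lit 3) (.e (nat_lit 57478) (nat_lit 28) (.e (nat_lit 557100) (nat_lit 13) (.e (nat_lit 172106) (nat_lit 10) (.e (nat_lit 434231) (nat_lit 23) (.e (nat_lit 532535) (nat_lit 9) (.e (nat_lit 336295) (nat_lit 15) (.e (nat_lit 3629) (nat_lit 227) .nil)))))))) (.g (nat_lit 1) (.e (nat_lit 431510) (nat_lit 0) .nil) .nil)))) 
(.nd (nat_lit 9) 
(.lf (nat_lit 604636) (.g (nat_lit 3507) (.e (nat_lit 778240) (nat_lit 0) (.e (nat_lit 503) (nat_lit 40) (.e (nat_lit 491568) (nat_lit 13) (.e (nat_lit 393301) (nat_lit 27) (.e (nat_lit 491560) (nat_lit 10) (.e (nat_lit 352000) (nat_lit 44) .nil)))))) (.g (nat_lit 1) (.e (nat_lit 431218) (nat_lit 0) .nil) .nil))) 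
(.lf (nat_lit 605148) (.g (nat_lit 2653) (.e (nat_lit 778324) (nat_lit 5) (.e (nat_lit 73781) (nat_lit 32) (.e (nat_lit 3090) (nat_lit 191) (.e (nat_lit 483380) (nat_lit 23) (.e (nat_lit 336301) (nat_lit 15) .nil))))) (.g (nat_lit 0) (.e (nat_lit 431786) (nat_lit 0) .nil) .nil))))))) (.nd (nat_lit 6) (.nd (nat_lit 7) (.nd (nat_lit 8) (.nd (nat_lit 9) 
(.lf (nat_lit 604220) (.g (nat_lit 3480) (.e (nat_lit 761898) (nat_lit 15) (.e (nat_lit 163979) (nat_lit 30) (.e (nat_lit 573489) (nat_lit 14) (.e (nat_lit 73755) (nat_lit 8) (.e (nat_lit 557103) (nat_lit 14) (.e (nat_lit 180244) (nat_lit 5) (.e (nat_lit 532489) (nat_lit 0) (.e (nat_lit 7936) (nat_lit 149) .nil)))))))) (.g (nat_lit 1) (.e (nat_lit 428809) (nat_lit 0) .nil) .nil))) 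
(.lf (nat_lit 604732) (.g (nat_lit 3479) (.e (nat_lit 778318) (nat_lit 3) (.e (nat_lit 57476) (nat_lit 28) (.e (nat_lit 557097) (nat_lit 13) (.e (nat_lit 172115) (nat_lit 10) (.e (nat_lit 434231) (nat_lit 23) (.e (nat_lit 532528) (nat_lit 9) (.e (nat_lit 336265) (nat_lit 15) (.e (nat_lit 3629) (nat_lit 227) .nil)))))))) (.g (nat_lit 1) (.e (nat_lit 431348) (nat_lit 0) .nil) .nil)))) 
(.nd (nat_lit 9) 
(.lf (nat_lit 604476) (.g (nat_lit 1535) (.e (nat_lit 770072) (nat_lit 8) (.e (nat_lit 65570) (nat_lit 3) (.e (nat_lit 98373) (nat_lit 29) (.e (nat_lit 450587) (nat_lit 10) (.e (nat_lit 573477) (nat_lit 12) .nil))))) (.g (nat_lit 0) (.e (nat_lit 430940) (nat_lit 0) .nil) .nil))) 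
(.lf (nat_lit 604988) (.g (nat_lit 1492) (.e (nat_lit 778322) (nat_lit 5) (.e (nat_lit 73782) (nat_lit 32) (.e (nat_lit 3090) (nat_lit 191) (.e (nat_lit 483404) (nat_lit 26) (.e (nat_lit 385100) (nat_lit 49) .nil))))) (.g (nat_lit 0) (.e (nat_lit 431616) (nat_lit 0) .nil) .nil))))) (.nd (nat_lit 8) (.nd (nat_lit 9) 
(.lf (nat_lit 604348) (.g (nat_lit 3828) (.e (nat_lit 761899) (nat_lit 15) (.e (nat_lit 163979) (nat_lit 30) (.e (nat_lit 573489) (nat_lit 14) (.e (nat_lit 73755) (nat_lit 8) (.e (nat_lit 557104) (nat_lit 14) (.e (nat_lit 180244) (nat_lit 5) (.e (nat_lit 532484) (nat_lit 0) (.e (nat_lit 2272) (nat_lit 149) .nil)))))))) (.g (nat_lit 1) (.e (nat_lit 429127) (nat_lit 0) .nil) .nil))) 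
(.lf (nat_lit 604860) (.g (nat_lit 2910) (.e (nat_lit 778318) (nat_lit 3) (.e (nat_lit 57476) (nat_lit 28) (.e (nat_lit 557108) (nat_lit 15) (.e (nat_lit 188452) (nat_lit 23) (.e (nat_lit 204852) (nat_lit 26) (.e (nat_lit 336259) (nat_lit 15) (.e (nat_lit 3629) (nat_lit 227) .nil))))))) (.g (nat_lit 1) (.e (nat_lit 431478) (nat_lit 0) .nil) .nil)))) (.nd (nat_lit 9) 
(.lf (nat_lit 604604) (.g (nat_lit 2263) (.e (nat_lit 770072) (nat_lit 8) (.e (nat_lit 65628) (nat_lit 14) (.e (nat_lit 401454) (nat_lit 12) (.e (nat_lit 475212) (nat_lit 42) .nil)))) (.g (nat_lit 0) (.e (nat_lit 431071) (nat_lit 0) .nil) .nil))) 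
(.lf (nat_lit 605116) (.g (nat_lit 1518) (.e (nat_lit 778324) (nat_lit 5) (.e (nat_lit 73781) (nat_lit 32) (.e (nat_lit 3089) (nat_lit 191) (.e (nat_lit 483383) (nat_lit 23) (.e (nat_lit 336240) (nat_lit 15) .nil))))) (.g (nat_lit 0) (.e (nat_lit 431754) (nat_lit 0) .nil) .nil)))))) (.nd (nat_lit 7) (.nd (nat_lit 8) (.nd (nat_lit 9) 
(.lf (nat_lit 604284) (.g (nat_lit 2709) (.e (nat_lit 761899) (nat_lit 15) (.e (nat_lit 163978) (nat_lit 30) (.e (nat_lit 573489) (nat_lit 14) (.e (nat_lit 73755) (nat_lit 8) (.e (nat_lit 557097) (nat_lit 13) .nil))))) (.g (nat_lit 0) (.e (nat_lit 429015) (nat_lit 0) .nil) .nil))) 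
(.lf (nat_lit 604796) (.g (nat_lit 2168) (.e (nat_lit 778318) (nat_lit 3) (.e (nat_lit 57476) (nat_lit 28) (.e (nat_lit 557107) (nat_lit 15) (.e (nat_lit 188450) (nat_lit 23) (.e (nat_lit 204852) (nat_lit 26) (.e (nat_lit 336261) (nat_lit 15) (.e (nat_lit 7936) (nat_lit 227) .nil))))))) (.g (nat_lit 1) (.e (nat_lit 431414) (nat_lit 0) .nil) .nil)))) (.nd (nat_lit 9) 
(.lf (nat_lit 604540) (.g (nat_lit 2762) (.e (nat_lit 770072) (nat_lit 8) (.e (nat_lit 65586) (nat_lit 7) (.e (nat_lit 319531) (nat_lit 16) (.e (nat_lit 286748) (nat_lit 9) (.e (nat_lit 336295) (nat_lit 15) (.e (nat_lit 3806) (nat_lit 231) (.e (nat_lit 811031) (nat_lit 11) (.e (nat_lit 7936) (nat_lit 74) .nil)))))))) (.g (nat_lit 1) (.e (nat_lit 431004) (nat_lit 0) .nil) .nil))) 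
(.lf (nat_lit 605052) (.g (nat_lit 2074) (.e (nat_lit 778323) (nat_lit 5) (.e (nat_lit 73782) (nat_lit 32) (.e (nat_lit 2856) (nat_lit 184) (.e (nat_lit 426482) (nat_lit 27) (.e (nat_lit 336205) (nat_lit 12) .nil))))) (.g (nat_lit 0) (.e (nat_lit 431686) (nat_lit 0) .nil) .nil))))) (.nd (nat_lit 8) (.nd (nat_lit 9) 
(.lf (nat_lit 604412) (.g (nat_lit 2325) (.e (nat_lit 770071) (nat_lit 8) (.e (nat_lit 65586) (nat_lit 7) (.e (nat_lit 319531) (nat_lit 16) (.e (nat_lit 286748) (nat_lit 9) (.e (nat_lit 336295) (nat_lit 15) (.e (nat_lit 3757) (nat_lit 229) (.e (nat_lit 794641) (nat_lit 20) (.e (nat_lit 3615) (nat_lit 226) .nil)))))))) (.g (nat_lit 1) (.e (nat_lit 430866) (nat_lit 0) .nil) .nil))) 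
(.lf (nat_lit 604924) (.g (nat_lit 1646) (.e (nat_lit 778319) (nat_lit 4) (.e (nat_lit 65630) (nat_lit 14) (.e (nat_lit 401457) (nat_lit 13) (.e (nat_lit 483406) (nat_lit 26) .nil)))) (.g (nat_lit 0) (.e (nat_lit 431547) (nat_lit 0) .nil) .nil)))) (.nd (nat_lit 9) 
(.lf (nat_lit 604668) (.g (nat_lit 2988) (.e (nat_lit 778316) (nat_lit 3) (.e (nat_lit 57480) (nat_lit 28) (.e (nat_lit 557107) (nat_lit 15) (.e (nat_lit 188447) (nat_lit 22) (.e (nat_lit 196666) (nat_lit 13) (.e (nat_lit 65639) (nat_lit 15) (.e (nat_lit 3716) (nat_lit 227) .nil))))))) (.g (nat_lit 1) (.e (nat_lit 431263) (nat_lit 0) .nil) .nil))) 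
(.lf (nat_lit 605180) (.g (nat_lit 1294) (.e (nat_lit 778325) (nat_lit 6) (.e (nat_lit 81947) (nat_lit 20) (.e (nat_lit 2006) (nat_lit 138) (.e (nat_lit 671764) (nat_lit 6) (.e (nat_lit 81921) (nat_lit 0) .nil))))) (.g (nat_lit 0) (.e (nat_lit 431818) (nat_lit 0) .nil) .nil))))))))))) 
(.nd (nat_lit 2) (.nd (nat_lit 3) (.nd (nat_lit 4) (.nd (nat_lit 5) (.nd (nat_lit 6) 
(.nd (nat_lit 7) (.nd (nat_lit 8) (.nd (nat_lit 9) 
(.lf (nat_lit 604162) (.g (nat_lit 3648) (.e (nat_lit 761898) (nat_lit 15) (.e (nat_lit 163979) (nat_lit 30) (.e (nat_lit 573487) (nat_lit 14) (.e (nat_lit 73753) (nat_lit 8) (.e (nat_lit 557101) (nat_lit 13) (.e (nat_lit 172067) (nat_lit 3) (.e (nat_lit 204817) (nat_lit 17) (.e (nat_lit 7936) (nat_lit 149) .nil)))))))) (.g (nat_lit 1) (.e (nat_lit 428742) (nat_lit 0) .nil) .nil))) 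
(.lf (nat_lit 604674) (.g (nat_lit 3071) (.e (nat_lit 778316) (nat_lit 3) (.e (nat_lit 57480) (nat_lit 28) (.e (nat_lit 557108) (nat_lit 15) (.e (nat_lit 188452) (nat_lit 23) (.e (nat_lit 204852) (nat_lit 26) (.e (nat_lit 336257) (nat_lit 15) (.e (nat_lit 3673) (nat_lit 227) .nil))))))) (.g (nat_lit 1) (.e (nat_lit 431269) (nat_lit 0) .nil) .nil)))) (.nd (nat_lit 9) 
(.lf (nat_lit 604418) (.g (nat_lit 1381) (.e (nat_lit 770071) (nat_lit 8) (.e (nat_lit 65586) (nat_lit 7) (.e (nat_lit 319531) (nat_lit 16) (.e (nat_lit 286756) (nat_lit 10) .nil)))) (.g (nat_lit 0) (.e (nat_lit 430872) (nat_lit 0) .nil) .nil))) 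
(.lf (nat_lit 604930) (.g (nat_lit 2961) (.e (nat_lit 778320) (nat_lit 4) (.e (nat_lit 65630) (nat_lit 14) (.e (nat_lit 401435) (nat_lit 9) (.e (nat_lit 426540) (nat_lit 29) (.e (nat_lit 352262) (nat_lit 0) (.e (nat_lit 3632) (nat_lit 227) .nil)))))) (.g (nat_lit 1) (.e (nat_lit 431554) (nat_lit 0) .nil) .nil))))) (.nd (nat_lit 8) (.nd (nat_lit 9) 
(.lf (nat_lit 604290) (.g (nat_lit 3570) (.e (nat_lit 761899) (nat_lit 15) (.e (nat_lit 163978) (nat_lit 30) (.e (nat_lit 573489) (nat_lit 14) (.e (nat_lit 73755) (nat_lit 8) (.e (nat_lit 557098) (nat_lit 13) (.e (nat_lit 172066) (nat_lit 3) (.e (nat_lit 204821) (nat_lit 17) (.e (nat_lit 2264) (nat_lit 149) .nil)))))))) (.g (nat_lit 1) (.e (nat_lit 429022) (nat_lit 0) .nil) .nil))) 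
(.lf (nat_lit 604802) (.g (nat_lit 3565) (.e (nat_lit 778318) (nat_lit 3) (.e (nat_lit 57476) (nat_lit 28) (.e (nat_lit 557107) (nat_lit 15) (.e (nat_lit 188450) (nat_lit 23) (.e (nat_lit 204852) (nat_lit 26) (.e (nat_lit 336303) (nat_lit 15) (.e (nat_lit 3619) (nat_lit 227) .nil))))))) (.g (nat_lit 1) (.e (nat_lit 431420) (nat_lit 0) .nil) .nil)))) (.nd (nat_lit 9) 
(.lf (nat_lit 604546) (.g (nat_lit 1932) (.e (nat_lit 770072) (nat_lit 8) (.e (nat_lit 65586) (nat_lit 7) (.e (nat_lit 319531) (nat_lit 16) (.e (nat_lit 286751) (nat_lit 10) (.e (nat_lit 344161) (nat_lit 37) .nil))))) (.g (nat_lit 0) (.e (nat_lit 431010) (nat_lit 0) .nil) .nil))) 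
(.lf (nat_lit 605058) (.g (nat_lit 2462) (.e (nat_lit 778323) (nat_lit 5) (.e (nat_lit 73782) (nat_lit 32) (.e (nat_lit 2856) (nat_lit 184) (.e (nat_lit 426542) (nat_lit 29) (.e (nat_lit 352266) (nat_lit 0) (.e (nat_lit 3630) (nat_lit 227) .nil)))))) (.g (nat_lit 1) (.e (nat_lit 431692) (nat_lit 0) .nil) .nil)))))) (.nd (nat_lit 7) (.nd (nat_lit 8) (.nd (nat_lit 9) 
(.lf (nat_lit 604226) (.g (nat_lit 2388) (.e (nat_lit 761898) (nat_lit 15) (.e (nat_lit 163979) (nat_lit 30) (.e (nat_lit 573489) (nat_lit 14) (.e (nat_lit 73755) (nat_lit 8) (.e (nat_lit 557104) (nat_lit 14) (.e (nat_lit 180244) (nat_lit 5) (.e (nat_lit 532481) (nat_lit 0) (.e (nat_lit 7936) (nat_lit 149) .nil)))))))) (.g (nat_lit 1) (.e (nat_lit 428815) (nat_lit 0) .nil) .nil))) 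
(.lf (nat_lit 604738) (.g (nat_lit 2564) (.e (nat_lit 778318) (nat_lit 3) (.e (nat_lit 57476) (nat_lit 28) (.e (nat_lit 557097) (nat_lit 13) (.e (nat_lit 172115) (nat_lit 10) (.e (nat_lit 434231) (nat_lit 23) (.e (nat_lit 532528) (nat_lit 9) (.e (nat_lit 336286) (nat_lit 15) (.e (nat_lit 3629) (nat_lit 227) .nil)))))))) (.g (nat_lit 1) (.e (nat_lit 431354) (nat_lit 0) .nil) .nil)))) 
(.nd (nat_lit 9) 
(.lf (nat_lit 604482) (.g (nat_lit 5308) (.e (nat_lit 770072) (nat_lit 8) (.e (nat_lit 65571) (nat_lit 3) (.e (nat_lit 98359) (nat_lit 26) (.e (nat_lit 426286) (nat_lit 10) (.e (nat_lit 434242) (nat_lit 28) (.e (nat_lit 573474) (nat_lit 12) (.e (nat_lit 57572) (nat_lit 54) .nil))))))) (.g (nat_lit 1) (.e (nat_lit 430946) (nat_lit 0) .nil) .nil))) 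
(.lf (nat_lit 604994) (.g (nat_lit 1986) (.e (nat_lit 778323) (nat_lit 5) (.e (nat_lit 73781) (nat_lit 32) (.e (nat_lit 2856) (nat_lit 184) (.e (nat_lit 426540) (nat_lit 29) (.e (nat_lit 352262) (nat_lit 0) (.e (nat_lit 3630) (nat_lit 227) .nil)))))) (.g (nat_lit 1) (.e (nat_lit 431628) (nat_lit 0) .nil) .nil))))) (.nd (nat_lit 8) (.nd (nat_lit 9) 
(.lf (nat_lit 604354) (.g (nat_lit 3606) (.e (nat_lit 761903) (nat_lit 16) (.e (nat_lit 172150) (nat_lit 27) (.e (nat_lit 336387) (nat_lit 27) (.e (nat_lit 426316) (nat_lit 12) (.e (nat_lit 475185) (nat_lit 29) (.e (nat_lit 557091) (nat_lit 12) (.e (nat_lit 164030) (nat_lit 53) .nil))))))) (.g (nat_lit 1) (.e (nat_lit 429283) (nat_lit 0) .nil) .nil))) 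
(.lf (nat_lit 604866) (.g (nat_lit 3136) (.e (nat_lit 778318) (nat_lit 3) (.e (nat_lit 57476) (nat_lit 28) (.e (nat_lit 557108) (nat_lit 15) (.e (nat_lit 188452) (nat_lit 23) (.e (nat_lit 204852) (nat_lit 26) (.e (nat_lit 336260) (nat_lit 15) (.e (nat_lit 3618) (nat_lit 227) .nil))))))) (.g (nat_lit 1) (.e (nat_lit 431484) (nat_lit 0) .nil) .nil)))) (.nd (nat_lit 9) 
(.lf (nat_lit 604610) (.g (nat_lit 4249) (.e (nat_lit 770072) (nat_lit 8) (.e (nat_lit 65629) (nat_lit 14) (.e (nat_lit 401454) (nat_lit 12) (.e (nat_lit 475214) (nat_lit 42) (.e (nat_lit 720955) (nat_lit 25) .nil))))) (.g (nat_lit 0) (.e (nat_lit 431078) (nat_lit 0) .nil) .nil))) 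
(.lf (nat_lit 605122) (.g (nat_lit 1818) (.e (nat_lit 778324) (nat_lit 5) (.e (nat_lit 73781) (nat_lit 32) (.e (nat_lit 3089) (nat_lit 191) (.e (nat_lit 483406) (nat_lit 26) (.e (nat_lit 385092) (nat_lit 49) .nil))))) (.g (nat_lit 1) (.e (nat_lit 431760) (nat_lit 0) .nil) .nil))))))) (.nd (nat_lit 6) (.nd (nat_lit 7) (.nd (nat_lit 8) (.nd (nat_lit 9) 
(.lf (nat_lit 604194) (.g (nat_lit 1983) (.e (nat_lit 761898) (nat_lit 15) (.e (nat_lit 163979) (nat_lit 30) (.e (nat_lit 573489) (nat_lit 14) (.e (nat_lit 73755) (nat_lit 8) (.e (nat_lit 557097) (nat_lit 13) .nil))))) (.g (nat_lit 0) (.e (nat_lit 428778) (nat_lit 0) .nil) .nil))) 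
(.lf (nat_lit 604706) (.g (nat_lit 3604) (.e (nat_lit 778317) (nat_lit 3) (.e (nat_lit 57480) (nat_lit 28) (.e (nat_lit 557067) (nat_lit 9) (.e (nat_lit 3022) (nat_lit 187) (.e (nat_lit 450580) (nat_lit 5) (.e (nat_lit 532566) (nat_lit 15) (.e (nat_lit 385092) (nat_lit 49) .nil))))))) (.g (nat_lit 1) (.e (nat_lit 431303) (nat_lit 0) .nil) .nil)))) (.nd (nat_lit 9) 
(.lf (nat_lit 604450) (.g (nat_lit 1829) (.e (nat_lit 770071) (nat_lit 8) (.e (nat_lit 65625) (nat_lit 13) (.e (nat_lit 393231) (nat_lit 17) (.e (nat_lit 7593) (nat_lit 407) (.e (nat_lit 73773) (nat_lit 25) .nil))))) (.g (nat_lit 1) (.e (nat_lit 430910) (nat_lit 0) .nil) .nil))) 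
(.lf (nat_lit 604962) (.g (nat_lit 2954) (.e (nat_lit 778321) (nat_lit 4) (.e (nat_lit 65628) (nat_lit 14) (.e (nat_lit 401457) (nat_lit 13) (.e (nat_lit 483383) (nat_lit 23) (.e (nat_lit 336240) (nat_lit 15) .nil))))) (.g (nat_lit 0) (.e (nat_lit 431586) (nat_lit 0) .nil) .nil))))) (.nd (nat_lit 8) (.nd (nat_lit 9) 
(.lf (nat_lit 604322) (.g (nat_lit 3436) (.e (nat_lit 761899) (nat_lit 15) (.e (nat_lit 163979) (nat_lit 30) (.e (nat_lit 573489) (nat_lit 14) (.e (nat_lit 73754) (nat_lit 8) (.e (nat_lit 557103) (nat_lit 14) .nil))))) (.g (nat_lit 0) (.e (nat_lit 429096) (nat_lit 0) .nil) .nil))) 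
(.lf (nat_lit 604834) (.g (nat_lit 2640) (.e (nat_lit 778318) (nat_lit 3) (.e (nat_lit 57476) (nat_lit 28) (.e (nat_lit 557108) (nat_lit 15) (.e (nat_lit 188452) (nat_lit 23) (.e (nat_lit 204852) (nat_lit 26) .nil))))) (.g (nat_lit 0) (.e (nat_lit 431452) (nat_lit 0) .nil) .nil)))) (.nd (nat_lit 9) 
(.lf (nat_lit 604578) (.g (nat_lit 199) (.e (nat_lit 770072) (nat_lit 8) (.e (nat_lit 65616) (nat_lit 10) (.e (nat_lit 344175) (nat_lit 43) .nil))) (.g (nat_lit 0) (.e (nat_lit 431045) (nat_lit 0) .nil) .nil))) 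
(.lf (nat_lit 605090) (.g (nat_lit 2495) (.e (nat_lit 778323) (nat_lit 5) (.e (nat_lit 73782) (nat_lit 32) (.e (nat_lit 3090) (nat_lit 191) (.e (nat_lit 483380) (nat_lit 23) (.e (nat_lit 336265) (nat_lit 15) (.e (nat_lit 3630) (nat_lit 227) .nil)))))) (.g (nat_lit 1) (.e (nat_lit 431724) (nat_lit 0) .nil) .nil)))))) (.nd (nat_lit 7) (.nd (nat_lit 8) (.nd (nat_lit 9) 
(.lf (nat_lit 604258) (.g (nat_lit 2582) (.e (nat_lit 761899) (nat_lit 15) (.e (nat_lit 163977) (nat_lit 30) (.e (nat_lit 573489) (nat_lit 14) (.e (nat_lit 73755) (nat_lit 8) (.e (nat_lit 557098) (nat_lit 13) .nil))))) (.g (nat_lit 0) (.e (nat_lit 428925) (nat_lit 0) .nil) .nil))) 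
(.lf (nat_lit 604770) (.g (nat_lit 3304) (.e (nat_lit 778318) (nat_lit 3) (.e (nat_lit 57476) (nat_lit 28) (.e (nat_lit 557107) (nat_lit 15) (.e (nat_lit 188450) (nat_lit 23) (.e (nat_lit 204852) (nat_lit 26) (.e (nat_lit 336247) (nat_lit 15) (.e (nat_lit 3627) (nat_lit 227) .nil))))))) (.g (nat_lit 1) (.e (nat_lit 431388) (nat_lit 0) .nil) .nil)))) (.nd (nat_lit 9) 
(.lf (nat_lit 604514) (.g (nat_lit 2090) (.e (nat_lit 770072) (nat_lit 8) (.e (nat_lit 65583) (nat_lit 7) (.e (nat_lit 319530) (nat_lit 16) (.e (nat_lit 286759) (nat_lit 12) (.e (nat_lit 385094) (nat_lit 49) .nil))))) (.g (nat_lit 0) (.e (nat_lit 430978) (nat_lit 0) .nil) .nil))) 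
(.lf (nat_lit 605026) (.g (nat_lit 1797) (.e (nat_lit 778323) (nat_lit 5) (.e (nat_lit 73781) (nat_lit 32) (.e (nat_lit 3090) (nat_lit 191) (.e (nat_lit 483380) (nat_lit 23) (.e (nat_lit 336261) (nat_lit 15) .nil))))) (.g (nat_lit 0) (.e (nat_lit 431660) (nat_lit 0) .nil) .nil))))) (.nd (nat_lit 8) (.nd (nat_lit 9) 
(.lf (nat_lit 604386) (.g (nat_lit 4576) (.e (nat_lit 770071) (nat_lit 8) (.e (nat_lit 65568) (nat_lit 2) (.e (nat_lit 90170) (nat_lit 13) (.e (nat_lit 172113) (nat_lit 10) (.e (nat_lit 434248) (nat_lit 28) (.e (nat_lit 573473) (nat_lit 12) (.e (nat_lit 57572) (nat_lit 54) .nil))))))) (.g (nat_lit 1) (.e (nat_lit 430839) (nat_lit 0) .nil) .nil))) 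
(.lf (nat_lit 604898) (.g (nat_lit 1857) (.e (nat_lit 786176) (nat_lit 3) (.e (nat_lit 57477) (nat_lit 28) (.e (nat_lit 557108) (nat_lit 15) (.e (nat_lit 188452) (nat_lit 23) (.e (nat_lit 204880) (nat_lit 32) .nil))))) (.g (nat_lit 0) (.e (nat_lit 431518) (nat_lit 0) .nil) .nil)))) (.nd (nat_lit 9) 
(.lf (nat_lit 604642) (.g (nat_lit 796) (.e (nat_lit 778286) (nat_lit 0) (.e (nat_lit 1428) (nat_lit 108) (.e (nat_lit 336225) (nat_lit 14) (.e (nat_lit 401437) (nat_lit 9) .nil)))) (.g (nat_lit 0) (.e (nat_lit 431233) (nat_lit 0) .nil) .nil))) 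
(.lf (nat_lit 605154) (.g (nat_lit 2418) (.e (nat_lit 778324) (nat_lit 5) (.e (nat_lit 73781) (nat_lit 32) (.e (nat_lit 3090) (nat_lit 191) (.e (nat_lit 483402) (nat_lit 26) (.e (nat_lit 385094) (nat_lit 49) .nil))))) (.g (nat_lit 1) (.e (nat_lit 431792) (nat_lit 0) .nil) .nil)))))))) (.nd (nat_lit 5) (.nd (nat_lit 6) (.nd (nat_lit 7) (.nd (nat_lit 8) (.nd (nat_lit 9) 
(.lf (nat_lit 604178) (.g (nat_lit 3065) (.e (nat_lit 761898) (nat_lit 15) (.e (nat_lit 163979) (nat_lit 30) (.e (nat_lit 573488) (nat_lit 14) (.e (nat_lit 73755) (nat_lit 8) (.e (nat_lit 557103) (nat_lit 14) (.e (nat_lit 180244) (nat_lit 5) (.e (nat_lit 532481) (nat_lit 0) (.e (nat_lit 2271) (nat_lit 149) .nil)))))))) (.g (nat_lit 1) (.e (nat_lit 428758) (nat_lit 0) .nil) .nil))) 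
(.lf (nat_lit 604690) (.g (nat_lit 4341) (.e (nat_lit 778317) (nat_lit 3) (.e (nat_lit 57476) (nat_lit 28) (.e (nat_lit 557099) (nat_lit 13) (.e (nat_lit 172106) (nat_lit 10) (.e (nat_lit 434231) (nat_lit 23) (.e (nat_lit 532535) (nat_lit 9) (.e (nat_lit 336295) (nat_lit 15) (.e (nat_lit 3630) (nat_lit 227) .nil)))))))) (.g (nat_lit 1) (.e (nat_lit 431285) (nat_lit 0) .nil) .nil)))) 
(.nd (nat_lit 9) 
(.lf (nat_lit 604434) (.g (nat_lit 1656) (.e (nat_lit 770071) (nat_lit 8) (.e (nat_lit 65610) (nat_lit 10) (.e (nat_lit 344176) (nat_lit 43) (.e (nat_lit 770074) (nat_lit 10) (.e (nat_lit 81946) (nat_lit 20) .nil))))) (.g (nat_lit 0) (.e (nat_lit 430894) (nat_lit 0) .nil) .nil))) 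
(.lf (nat_lit 604946) (.g (nat_lit 3133) (.e (nat_lit 778320) (nat_lit 4) (.e (nat_lit 65630) (nat_lit 14) (.e (nat_lit 401438) (nat_lit 9) (.e (nat_lit 426542) (nat_lit 29) (.e (nat_lit 352267) (nat_lit 0) (.e (nat_lit 3629) (nat_lit 227) .nil)))))) (.g (nat_lit 1) (.e (nat_lit 431570) (nat_lit 0) .nil) .nil))))) (.nd (nat_lit 8) (.nd (nat_lit 9) 
(.lf (nat_lit 604306) (.g (nat_lit 3378) (.e (nat_lit 761899) (nat_lit 15) (.e (nat_lit 163978) (nat_lit 30) (.e (nat_lit 573489) (nat_lit 14) (.e (nat_lit 73755) (nat_lit 8) (.e (nat_lit 557105) (nat_lit 14) (.e (nat_lit 180245) (nat_lit 5) (.e (nat_lit 532484) (nat_lit 0) (.e (nat_lit 2272) (nat_lit 149) .nil)))))))) (.g (nat_lit 1) (.e (nat_lit 429040) (nat_lit 0) .nil) .nil))) 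
(.lf (nat_lit 604818) (.g (nat_lit 1625) (.e (nat_lit 778318) (nat_lit 3) (.e (nat_lit 57476) (nat_lit 28) (.e (nat_lit 557107) (nat_lit 15) (.e (nat_lit 188451) (nat_lit 23) (.e (nat_lit 204879) (nat_lit 32) .nil))))) (.g (nat_lit 0) (.e (nat_lit 431436) (nat_lit 0) .nil) .nil)))) (.nd (nat_lit 9) 
(.lf (nat_lit 604562) (.g (nat_lit 2419) (.e (nat_lit 770072) (nat_lit 8) (.e (nat_lit 65586) (nat_lit 7) (.e (nat_lit 319531) (nat_lit 16) (.e (nat_lit 286759) (nat_lit 12) (.e (nat_lit 385115) (nat_lit 53) (.e (nat_lit 811034) (nat_lit 11) (.e (nat_lit 7936) (nat_lit 74) .nil))))))) (.g (nat_lit 1) (.e (nat_lit 431027) (nat_lit 0) .nil) .nil))) 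
(.lf (nat_lit 605074) (.g (nat_lit 2305) (.e (nat_lit 778323) (nat_lit 5) (.e (nat_lit 73782) (nat_lit 32) (.e (nat_lit 3089) (nat_lit 191) (.e (nat_lit 483383) (nat_lit 23) (.e (nat_lit 336306) (nat_lit 15) (.e (nat_lit 3619) (nat_lit 227) .nil)))))) (.g (nat_lit 1) (.e (nat_lit 431708) (nat_lit 0) .nil) .nil)))))) (.nd (nat_lit 7) (.nd (nat_lit 8) (.nd (nat_lit 9) 
(.lf (nat_lit 604242) (.g (nat_lit 2296) (.e (nat_lit 761899) (nat_lit 15) (.e (nat_lit 163977) (nat_lit 30) (.e (nat_lit 573489) (nat_lit 14) (.e (nat_lit 73754) (nat_lit 8) (.e (nat_lit 557101) (nat_lit 13) (.e (nat_lit 172067) (nat_lit 3) (.e (nat_lit 204821) (nat_lit 17) (.e (nat_lit 2270) (nat_lit 149) .nil)))))))) (.g (nat_lit 1) (.e (nat_lit 428904) (nat_lit 0) .nil) .nil))) 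
(.lf (nat_lit 604754) (.g (nat_lit 3902) (.e (nat_lit 778318) (nat_lit 3) (.e (nat_lit 57476) (nat_lit 28) (.e (nat_lit 557097) (nat_lit 13) (.e (nat_lit 172115) (nat_lit 10) (.e (nat_lit 434231) (nat_lit 23) (.e (nat_lit 532535) (nat_lit 9) (.e (nat_lit 336295) (nat_lit 15) (.e (nat_lit 3630) (nat_lit 227) .nil)))))))) (.g (nat_lit 1) (.e (nat_lit 431370) (nat_lit 0) .nil) .nil)))) 
(.nd (nat_lit 9) 
(.lf (nat_lit 604498) (.g (nat_lit 2582) (.e (nat_lit 770072) (nat_lit 8) (.e (nat_lit 65583) (nat_lit 7) (.e (nat_lit 319530) (nat_lit 16) (.e (nat_lit 286748) (nat_lit 9) (.e (nat_lit 336295) (nat_lit 15) (.e (nat_lit 3784) (nat_lit 230) (.e (nat_lit 802832) (nat_lit 20) (.e (nat_lit 3613) (nat_lit 226) .nil)))))))) (.g (nat_lit 1) (.e (nat_lit 430962) (nat_lit 0) .nil) .nil))) 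
(.lf (nat_lit 605010) (.g (nat_lit 2508) (.e (nat_lit 778323) (nat_lit 5) (.e (nat_lit 73781) (nat_lit 32) (.e (nat_lit 3089) (nat_lit 191) (.e (nat_lit 483383) (nat_lit 23) (.e (nat_lit 336240) (nat_lit 15) (.e (nat_lit 3637) (nat_lit 227) .nil)))))) (.g (nat_lit 1) (.e (nat_lit 431644) (nat_lit 0) .nil) .nil))))) (.nd (nat_lit 8) (.nd (nat_lit 9) 
(.lf (nat_lit 604370) (.g (nat_lit 713) (.e (nat_lit 761913) (nat_lit 18) (.e (nat_lit 188446) (nat_lit 21) (.e (nat_lit 164299) (nat_lit 226) .nil))) (.g (nat_lit 0) (.e (nat_lit 430609) (nat_lit 0) .nil) .nil))) 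
(.lf (nat_lit 604882) (.g (nat_lit 2113) (.e (nat_lit 778318) (nat_lit 3) (.e (nat_lit 57476) (nat_lit 28) (.e (nat_lit 557108) (nat_lit 15) (.e (nat_lit 188452) (nat_lit 23) (.e (nat_lit 204855) (nat_lit 26) .nil))))) (.g (nat_lit 0) (.e (nat_lit 431500) (nat_lit 0) .nil) .nil)))) (.nd (nat_lit 9) 
(.lf (nat_lit 604626) (.g (nat_lit 1998) (.e (nat_lit 770074) (nat_lit 10) (.e (nat_lit 81925) (nat_lit 11) (.e (nat_lit 426341) (nat_lit 14) (.e (nat_lit 491560) (nat_lit 10) (.e (nat_lit 344176) (nat_lit 43) .nil))))) (.g (nat_lit 0) (.e (nat_lit 431097) (nat_lit 0) .nil) .nil))) 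
(.lf (nat_lit 605138) (.g (nat_lit 2348) (.e (nat_lit 778324) (nat_lit 5) (.e (nat_lit 73781) (nat_lit 32) (.e (nat_lit 3090) (nat_lit 191) (.e (nat_lit 483380) (nat_lit 23) (.e (nat_lit 336257) (nat_lit 15) (.e (nat_lit 3636) (nat_lit 227) .nil)))))) (.g (nat_lit 1) (.e (nat_lit 431776) (nat_lit 0) .nil) .nil))))))) (.nd (nat_lit 6) (.nd (nat_lit 7) (.nd (nat_lit 8) (.nd (nat_lit 9) 
(.lf (nat_lit 604210) (.g (nat_lit 2420) (.e (nat_lit 761898) (nat_lit 15) (.e (nat_lit 163979) (nat_lit 30) (.e (nat_lit 573489) (nat_lit 14) (.e (nat_lit 73755) (nat_lit 8) (.e (nat_lit 557097) (nat_lit 13) (.e (nat_lit 172067) (nat_lit 3) (.e (nat_lit 204821) (nat_lit 17) (.e (nat_lit 2264) (nat_lit 149) .nil)))))))) (.g (nat_lit 1) (.e (nat_lit 428796) (nat_lit 0) .nil) .nil))) 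
(.lf (nat_lit 604722) (.g (nat_lit 2085) (.e (nat_lit 778318) (nat_lit 3) (.e (nat_lit 57476) (nat_lit 28) (.e (nat_lit 557097) (nat_lit 13) (.e (nat_lit 172115) (nat_lit 10) (.e (nat_lit 434230) (nat_lit 23) .nil))))) (.g (nat_lit 0) (.e (nat_lit 431338) (nat_lit 0) .nil) .nil)))) (.nd (nat_lit 9) 
(.lf (nat_lit 604466) (.g (nat_lit 3679) (.e (nat_lit 770071) (nat_lit 8) (.e (nat_lit 65630) (nat_lit 14) (.e (nat_lit 401454) (nat_lit 12) (.e (nat_lit 475214) (nat_lit 42) (.e (nat_lit 720949) (nat_lit 24) .nil))))) (.g (nat_lit 0) (.e (nat_lit 430926) (nat_lit 0) .nil) .nil))) 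
(.lf (nat_lit 604978) (.g (nat_lit 1200) (.e (nat_lit 778322) (nat_lit 5) (.e (nat_lit 73781) (nat_lit 32) (.e (nat_lit 2855) (nat_lit 184) (.e (nat_lit 426542) (nat_lit 29) (.e (nat_lit 352264) (nat_lit 0) (.e (nat_lit 3711) (nat_lit 227) .nil)))))) (.g (nat_lit 1) (.e (nat_lit 431605) (nat_lit 0) .nil) .nil))))) (.nd (nat_lit 8) (.nd (nat_lit 9) 
(.lf (nat_lit 604338) (.g (nat_lit 3127) (.e (nat_lit 761899) (nat_lit 15) (.e (nat_lit 163979) (nat_lit 30) (.e (nat_lit 573489) (nat_lit 14) (.e (nat_lit 73755) (nat_lit 8) (.e (nat_lit 557098) (nat_lit 13) (.e (nat_lit 172067) (nat_lit 3) (.e (nat_lit 204821) (nat_lit 17) (.e (nat_lit 7936) (nat_lit 149) .nil)))))))) (.g (nat_lit 1) (.e (nat_lit 429116) (nat_lit 0) .nil) .nil))) 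
(.lf (nat_lit 604850) (.g (nat_lit 4245) (.e (nat_lit 778318) (nat_lit 3) (.e (nat_lit 57476) (nat_lit 28) (.e (nat_lit 557108) (nat_lit 15) (.e (nat_lit 188452) (nat_lit 23) (.e (nat_lit 204852) (nat_lit 26) (.e (nat_lit 336257) (nat_lit 15) (.e (nat_lit 3628) (nat_lit 227) .nil))))))) (.g (nat_lit 1) (.e (nat_lit 431468) (nat_lit 0) .nil) .nil)))) (.nd (nat_lit 9) 
(.lf (nat_lit 604594) (.g (nat_lit 2647) (.e (nat_lit 770072) (nat_lit 8) (.e (nat_lit 65626) (nat_lit 13) (.e (nat_lit 393234) (nat_lit 17) (.e (nat_lit 7591) (nat_lit 407) (.e (nat_lit 73773) (nat_lit 25) .nil))))) (.g (nat_lit 1) (.e (nat_lit 431061) (nat_lit 0) .nil) .nil))) 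
(.lf (nat_lit 605106) (.g (nat_lit 1471) (.e (nat_lit 778324) (nat_lit 5) (.e (nat_lit 73781) (nat_lit 32) (.e (nat_lit 2856) (nat_lit 184) (.e (nat_lit 426509) (nat_lit 27) (.e (nat_lit 336193) (nat_lit 12) .nil))))) (.g (nat_lit 0) (.e (nat_lit 431744) (nat_lit 0) .nil) .nil)))))) (.nd (nat_lit 7) (.nd (nat_lit 8) (.nd (nat_lit 9) 
(.lf (nat_lit 604274) (.g (nat_lit 2123) (.e (nat_lit 761899) (nat_lit 15) (.e (nat_lit 163978) (nat_lit 30) (.e (nat_lit 573489) (nat_lit 14) (.e (nat_lit 73754) (nat_lit 8) (.e (nat_lit 557101) (nat_lit 13) (.e (nat_lit 172066) (nat_lit 3) (.e (nat_lit 204814) (nat_lit 17) (.e (nat_lit 2270) (nat_lit 149) .nil)))))))) (.g (nat_lit 1) (.e (nat_lit 429002) (nat_lit 0) .nil) .nil))) 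
(.lf (nat_lit 604786) (.g (nat_lit 2912) (.e (nat_lit 778318) (nat_lit 3) (.e (nat_lit 57476) (nat_lit 28) (.e (nat_lit 557107) (nat_lit 15) (.e (nat_lit 188450) (nat_lit 23) (.e (nat_lit 204852) (nat_lit 26) (.e (nat_lit 336258) (nat_lit 15) (.e (nat_lit 7936) (nat_lit 227) .nil))))))) (.g (nat_lit 1) (.e (nat_lit 431404) (nat_lit 0) .nil) .nil)))) (.nd (nat_lit 9) 
(.lf (nat_lit 604530) (.g (nat_lit 2152) (.e (nat_lit 770072) (nat_lit 8) (.e (nat_lit 65583) (nat_lit 7) (.e (nat_lit 319533) (nat_lit 16) (.e (nat_lit 286753) (nat_lit 10) (.e (nat_lit 344160) (nat_lit 37) .nil))))) (.g (nat_lit 0) (.e (nat_lit 430994) (nat_lit 0) .nil) .nil))) 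
(.lf (nat_lit 605042) (.g (nat_lit 1034) (.e (nat_lit 778323) (nat_lit 5) (.e (nat_lit 73781) (nat_lit 32) (.e (nat_lit 3090) (nat_lit 191) (.e (nat_lit 483387) (nat_lit 23) .nil)))) (.g (nat_lit 0) (.e (nat_lit 431676) (nat_lit 0) .nil) .nil))))) (.nd (nat_lit 8) (.nd (nat_lit 9) 
(.lf (nat_lit 604402) (.g (nat_lit 2119) (.e (nat_lit 770071) (nat_lit 8) (.e (nat_lit 65583) (nat_lit 7) (.e (nat_lit 319530) (nat_lit 16) (.e (nat_lit 286759) (nat_lit 12) (.e (nat_lit 385107) (nat_lit 51) (.e (nat_lit 794642) (nat_lit 20) (.e (nat_lit 3615) (nat_lit 226) .nil))))))) (.g (nat_lit 1) (.e (nat_lit 430856) (nat_lit 0) .nil) .nil))) 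
(.lf (nat_lit 604914) (.g (nat_lit 2243) (.e (nat_lit 786176) (nat_lit 3) (.e (nat_lit 57480) (nat_lit 28) (.e (nat_lit 557109) (nat_lit 15) (.e (nat_lit 188452) (nat_lit 23) (.e (nat_lit 204855) (nat_lit 26) .nil))))) (.g (nat_lit 0) (.e (nat_lit 431535) (nat_lit 0) .nil) .nil)))) (.nd (nat_lit 9) 
(.lf (nat_lit 604658) (.g (nat_lit 3765) (.e (nat_lit 778316) (nat_lit 3) (.e (nat_lit 57479) (nat_lit 28) (.e (nat_lit 557101) (nat_lit 13) (.e (nat_lit 172097) (nat_lit 9) (.e (nat_lit 426125) (nat_lit 2) (.e (nat_lit 196666) (nat_lit 13) (.e (nat_lit 65639) (nat_lit 15) (.e (nat_lit 3716) (nat_lit 227) .nil)))))))) (.g (nat_lit 1) (.e (nat_lit 431253) (nat_lit 0) .nil) .nil))) 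
(.lf (nat_lit 605170) (.g (nat_lit 621) (.e (nat_lit 778325) (nat_lit 6) (.e (nat_lit 81922) (nat_lit 0) (.e (nat_lit 3630) (nat_lit 227) (.e (nat_lit 778326) (nat_lit 6) (.e (nat_lit 81920) (nat_lit 0) .nil))))) (.g (nat_lit 0) (.e (nat_lit 431808) (nat_lit 0) .nil) .nil))))))))) (.nd (nat_lit 4) (.nd (nat_lit 5) (.nd (nat_lit 6) (.nd (nat_lit 7) (.nd (nat_lit 8) (.nd (nat_lit 9) 
(.lf (nat_lit 604170) (.g (nat_lit 2785) (.e (nat_lit 761898) (nat_lit 15) (.e (nat_lit 163979) (nat_lit 30) (.e (nat_lit 573488) (nat_lit 14) (.e (nat_lit 73754) (nat_lit 8) (.e (nat_lit 557100) (nat_lit 13) .nil))))) (.g (nat_lit 0) (.e (nat_lit 428750) (nat_lit 0) .nil) .nil))) 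
(.lf (nat_lit 604682) (.g (nat_lit 2515) (.e (nat_lit 778317) (nat_lit 3) (.e (nat_lit 57476) (nat_lit 28) (.e (nat_lit 557067) (nat_lit 9) (.e (nat_lit 3022) (nat_lit 187) (.e (nat_lit 450580) (nat_lit 5) .nil))))) (.g (nat_lit 0) (.e (nat_lit 431277) (nat_lit 0) .nil) .nil)))) (.nd (nat_lit 9) 
(.lf (nat_lit 604426) (.g (nat_lit 1893) (.e (nat_lit 770071) (nat_lit 8) (.e (nat_lit 65610) (nat_lit 10) (.e (nat_lit 344090) (nat_lit 18) (.e (nat_lit 7263) (nat_lit 384) (.e (nat_lit 57409) (nat_lit 12) (.e (nat_lit 336182) (nat_lit 11) (.e (nat_lit 368698) (nat_lit 43) .nil))))))) (.g (nat_lit 1) (.e (nat_lit 430886) (nat_lit 0) .nil) .nil))) 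
(.lf (nat_lit 604938) (.g (nat_lit 3995) (.e (nat_lit 778320) (nat_lit 4) (.e (nat_lit 65630) (nat_lit 14) (.e (nat_lit 401437) (nat_lit 9) (.e (nat_lit 426540) (nat_lit 29) (.e (nat_lit 352262) (nat_lit 0) (.e (nat_lit 3632) (nat_lit 227) .nil)))))) (.g (nat_lit 1) (.e (nat_lit 431562) (nat_lit 0) .nil) .nil))))) (.nd (nat_lit 8) (.nd (nat_lit 9) 
(.lf (nat_lit 604298) (.g (nat_lit 4501) (.e (nat_lit 761899) (nat_lit 15) (.e (nat_lit 163978) (nat_lit 30) (.e (nat_lit 573489) (nat_lit 14) (.e (nat_lit 73755) (nat_lit 8) (.e (nat_lit 557103) (nat_lit 14) (.e (nat_lit 180244) (nat_lit 5) (.e (nat_lit 532484) (nat_lit 0) (.e (nat_lit 7936) (nat_lit 149) .nil)))))))) (.g (nat_lit 1) (.e (nat_lit 429031) (nat_lit 0) .nil) .nil))) 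
(.lf (nat_lit 604810) (.g (nat_lit 1659) (.e (nat_lit 778318) (nat_lit 3) (.e (nat_lit 57476) (nat_lit 28) (.e (nat_lit 557107) (nat_lit 15) (.e (nat_lit 188450) (nat_lit 23) (.e (nat_lit 204853) (nat_lit 26) .nil))))) (.g (nat_lit 0) (.e (nat_lit 431428) (nat_lit 0) .nil) .nil)))) (.nd (nat_lit 9) 
(.lf (nat_lit 604554) (.g (nat_lit 2517) (.e (nat_lit 770072) (nat_lit 8) (.e (nat_lit 65586) (nat_lit 7) (.e (nat_lit 319531) (nat_lit 16) (.e (nat_lit 286756) (nat_lit 10) (.e (nat_lit 344090) (nat_lit 18) .nil))))) (.g (nat_lit 0) (.e (nat_lit 431018) (nat_lit 0) .nil) .nil))) 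
(.lf (nat_lit 605066) (.g (nat_lit 1643) (.e (nat_lit 778323) (nat_lit 5) (.e (nat_lit 73782) (nat_lit 32) (.e (nat_lit 2857) (nat_lit 184) (.e (nat_lit 426540) (nat_lit 29) (.e (nat_lit 352260) (nat_lit 0) .nil))))) (.g (nat_lit 0) (.e (nat_lit 431700) (nat_lit 0) .nil) .nil)))))) (.nd (nat_lit 7) (.nd (nat_lit 8) (.nd (nat_lit 9) 
(.lf (nat_lit 604234) (.g (nat_lit 2436) (.e (nat_lit 761898) (nat_lit 15) (.e (nat_lit 163979) (nat_lit 30) (.e (nat_lit 573489) (nat_lit 14) (.e (nat_lit 73755) (nat_lit 8) (.e (nat_lit 557104) (nat_lit 14) (.e (nat_lit 180245) (nat_lit 5) (.e (nat_lit 532481) (nat_lit 0) (.e (nat_lit 2271) (nat_lit 149) .nil)))))))) (.g (nat_lit 1) (.e (nat_lit 428823) (nat_lit 0) .nil) .nil))) 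
(.lf (nat_lit 604746) (.g (nat_lit 2543) (.e (nat_lit 778318) (nat_lit 3) (.e (nat_lit 57476) (nat_lit 28) (.e (nat_lit 557097) (nat_lit 13) (.e (nat_lit 172115) (nat_lit 10) (.e (nat_lit 434231) (nat_lit 23) (.e (nat_lit 532531) (nat_lit 9) (.e (nat_lit 336265) (nat_lit 15) (.e (nat_lit 3629) (nat_lit 227) .nil)))))))) (.g (nat_lit 1) (.e (nat_lit 431362) (nat_lit 0) .nil) .nil)))) 
(.nd (nat_lit 9) 
(.lf (nat_lit 604490) (.g (nat_lit 1692) (.e (nat_lit 770072) (nat_lit 8) (.e (nat_lit 65582) (nat_lit 7) (.e (nat_lit 319530) (nat_lit 16) (.e (nat_lit 286759) (nat_lit 12) (.e (nat_lit 385107) (nat_lit 51) .nil))))) (.g (nat_lit 0) (.e (nat_lit 430954) (nat_lit 0) .nil) .nil))) 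
(.lf (nat_lit 605002) (.g (nat_lit 2472) (.e (nat_lit 778323) (nat_lit 5) (.e (nat_lit 73781) (nat_lit 32) (.e (nat_lit 2857) (nat_lit 184) (.e (nat_lit 426542) (nat_lit 29) (.e (nat_lit 352267) (nat_lit 0) (.e (nat_lit 3629) (nat_lit 227) .nil)))))) (.g (nat_lit 1) (.e (nat_lit 431636) (nat_lit 0) .nil) .nil))))) (.nd (nat_lit 8) (.nd (nat_lit 9) 
(.lf (nat_lit 604362) (.g (nat_lit 2010) (.e (nat_lit 761909) (nat_lit 17) (.e (nat_lit 180252) (nat_lit 10) (.e (nat_lit 573451) (nat_lit 9) (.e (nat_lit 1667) (nat_lit 116) .nil)))) (.g (nat_lit 0) (.e (nat_lit 430318) (nat_lit 0) .nil) .nil))) 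
(.lf (nat_lit 604874) (.g (nat_lit 3770) (.e (nat_lit 778318) (nat_lit 3) (.e (nat_lit 57476) (nat_lit 28) (.e (nat_lit 557108) (nat_lit 15) (.e (nat_lit 188452) (nat_lit 23) (.e (nat_lit 204852) (nat_lit 26) (.e (nat_lit 336297) (nat_lit 15) (.e (nat_lit 3629) (nat_lit 227) .nil))))))) (.g (nat_lit 1) (.e (nat_lit 431492) (nat_lit 0) .nil) .nil)))) (.nd (nat_lit 9) 
(.lf (nat_lit 604618) (.g (nat_lit 2216) (.e (nat_lit 770073) (nat_lit 9) (.e (nat_lit 73746) (nat_lit 3) (.e (nat_lit 516165) (nat_lit 12) (.e (nat_lit 450586) (nat_lit 10) (.e (nat_lit 573475) (nat_lit 12) .nil))))) (.g (nat_lit 0) (.e (nat_lit 431089) (nat_lit 0) .nil) .nil))) 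
(.lf (nat_lit 605130) (.g (nat_lit 2083) (.e (nat_lit 778324) (nat_lit 5) (.e (nat_lit 73781) (nat_lit 32) (.e (nat_lit 3090) (nat_lit 191) (.e (nat_lit 483380) (nat_lit 23) (.e (nat_lit 336257) (nat_lit 15) .nil))))) (.g (nat_lit 0) (.e (nat_lit 431768) (nat_lit 0) .nil) .nil))))))) (.nd (nat_lit 6) (.nd (nat_lit 7) (.nd (nat_lit 8) (.nd (nat_lit 9) 
(.lf (nat_lit 604202) (.g (nat_lit 3046) (.e (nat_lit 761898) (nat_lit 15) (.e (nat_lit 163979) (nat_lit 30) (.e (nat_lit 573489) (nat_lit 14) (.e (nat_lit 73755) (nat_lit 8) (.e (nat_lit 557097) (nat_lit 13) (.e (nat_lit 172066) (nat_lit 3) (.e (nat_lit 204821) (nat_lit 17) (.e (nat_lit 7936) (nat_lit 149) .nil)))))))) (.g (nat_lit 1) (.e (nat_lit 428788) (nat_lit 0) .nil) .nil))) 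
(.lf (nat_lit 604714) (.g (nat_lit 4677) (.e (nat_lit 778318) (nat_lit 3) (.e (nat_lit 57476) (nat_lit 28) (.e (nat_lit 557097) (nat_lit 13) (.e (nat_lit 172097) (nat_lit 9) (.e (nat_lit 426125) (nat_lit 2) (.e (nat_lit 196666) (nat_lit 13) (.e (nat_lit 65642) (nat_lit 15) (.e (nat_lit 3629) (nat_lit 227) .nil)))))))) (.g (nat_lit 1) (.e (nat_lit 431330) (nat_lit 0) .nil) .nil)))) 
(.nd (nat_lit 9) 
(.lf (nat_lit 604458) (.g (nat_lit 2943) (.e (nat_lit 770071) (nat_lit 8) (.e (nat_lit 65628) (nat_lit 14) (.e (nat_lit 401454) (nat_lit 12) (.e (nat_lit 475213) (nat_lit 42) .nil)))) (.g (nat_lit 0) (.e (nat_lit 430918) (nat_lit 0) .nil) .nil))) 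
(.lf (nat_lit 604970) (.g (nat_lit 2985) (.e (nat_lit 778321) (nat_lit 4) (.e (nat_lit 65628) (nat_lit 14) (.e (nat_lit 401458) (nat_lit 13) (.e (nat_lit 483383) (nat_lit 23) (.e (nat_lit 336240) (nat_lit 15) (.e (nat_lit 3623) (nat_lit 227) .nil)))))) (.g (nat_lit 1) (.e (nat_lit 431594) (nat_lit 0) .nil) .nil))))) (.nd (nat_lit 8) (.nd (nat_lit 9) 
(.lf (nat_lit 604330) (.g (nat_lit 3500) (.e (nat_lit 761899) (nat_lit 15) (.e (nat_lit 163979) (nat_lit 30) (.e (nat_lit 573489) (nat_lit 14) (.e (nat_lit 73755) (nat_lit 8) (.e (nat_lit 557097) (nat_lit 13) (.e (nat_lit 172066) (nat_lit 3) (.e (nat_lit 204817) (nat_lit 17) (.e (nat_lit 2272) (nat_lit 149) .nil)))))))) (.g (nat_lit 1) (.e (nat_lit 429107) (nat_lit 0) .nil) .nil))) 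
(.lf (nat_lit 604842) (.g (nat_lit 4005) (.e (nat_lit 778318) (nat_lit 3) (.e (nat_lit 57476) (nat_lit 28) (.e (nat_lit 557108) (nat_lit 15) (.e (nat_lit 188452) (nat_lit 23) (.e (nat_lit 204852) (nat_lit 26) (.e (nat_lit 336257) (nat_lit 15) (.e (nat_lit 3617) (nat_lit 227) .nil))))))) (.g (nat_lit 1) (.e (nat_lit 431460) (nat_lit 0) .nil) .nil)))) (.nd (nat_lit 9) 
(.lf (nat_lit 604586) (.g (nat_lit 2667) (.e (nat_lit 770072) (nat_lit 8) (.e (nat_lit 65617) (nat_lit 10) (.e (nat_lit 344096) (nat_lit 18) (.e (nat_lit 7266) (nat_lit 384) (.e (nat_lit 57409) (nat_lit 12) (.e (nat_lit 336182) (nat_lit 11) (.e (nat_lit 368698) (nat_lit 43) .nil))))))) (.g (nat_lit 1) (.e (nat_lit 431053) (nat_lit 0) .nil) .nil))) 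
(.lf (nat_lit 605098) (.g (nat_lit 1896) (.e (nat_lit 778323) (nat_lit 5) (.e (nat_lit 73782) (nat_lit 32) (.e (nat_lit 3090) (nat_lit 191) (.e (nat_lit 483393) (nat_lit 23) (.e (nat_lit 336275) (nat_lit 15) .nil))))) (.g (nat_lit 0) (.e (nat_lit 431732) (nat_lit 0) .nil) .nil)))))) (.nd (nat_lit 7) (.nd (nat_lit 8) (.nd (nat_lit 9) 
(.lf (nat_lit 604266) (.g (nat_lit 2154) (.e (nat_lit 761899) (nat_lit 15) (.e (nat_lit 163977) (nat_lit 30) (.e (nat_lit 573489) (nat_lit 14) (.e (nat_lit 73755) (nat_lit 8) (.e (nat_lit 557104) (nat_lit 14) (.e (nat_lit 180244) (nat_lit 5) (.e (nat_lit 532485) (nat_lit 0) (.e (nat_lit 2265) (nat_lit 149) .nil)))))))) (.g (nat_lit 1) (.e (nat_lit 428933) (nat_lit 0) .nil) .nil))) 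
(.lf (nat_lit 604778) (.g (nat_lit 3625) (.e (nat_lit 778318) (nat_lit 3) (.e (nat_lit 57476) (nat_lit 28) (.e (nat_lit 557107) (nat_lit 15) (.e (nat_lit 188450) (nat_lit 23) (.e (nat_lit 204852) (nat_lit 26) (.e (nat_lit 336257) (nat_lit 15) (.e (nat_lit 3626) (nat_lit 227) .nil))))))) (.g (nat_lit 1) (.e (nat_lit 431396) (nat_lit 0) .nil) .nil)))) (.nd (nat_lit 9) 
(.lf (nat_lit 604522) (.g (nat_lit 2234) (.e (nat_lit 770072) (nat_lit 8) (.e (nat_lit 65583) (nat_lit 7) (.e (nat_lit 319530) (nat_lit 16) (.e (nat_lit 286759) (nat_lit 12) (.e (nat_lit 385115) (nat_lit 53) (.e (nat_lit 811038) (nat_lit 11) (.e (nat_lit 7936) (nat_lit 74) .nil))))))) (.g (nat_lit 1) (.e (nat_lit 430986) (nat_lit 0) .nil) .nil))) 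
(.lf (nat_lit 605034) (.g (nat_lit 2562) (.e (nat_lit 778323) (nat_lit 5) (.e (nat_lit 73781) (nat_lit 32) (.e (nat_lit 3090) (nat_lit 191) (.e (nat_lit 483380) (nat_lit 23) (.e (nat_lit 336283) (nat_lit 15) (.e (nat_lit 3631) (nat_lit 227) .nil)))))) (.g (nat_lit 1) (.e (nat_lit 431668) (nat_lit 0) .nil) .nil))))) (.nd (nat_lit 8) (.nd (nat_lit 9) 
(.lf (nat_lit 604394) (.g (nat_lit 1607) (.e (nat_lit 770071) (nat_lit 8) (.e (nat_lit 65583) (nat_lit 7) (.e (nat_lit 319530) (nat_lit 16) (.e (nat_lit 286743) (nat_lit 9) (.e (nat_lit 336337) (nat_lit 20) (.e (nat_lit 221195) (nat_lit 20) (.e (nat_lit 3610) (nat_lit 226) .nil))))))) (.g (nat_lit 1) (.e (nat_lit 430848) (nat_lit 0) .nil) .nil))) 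
(.lf (nat_lit 604906) (.g (nat_lit 5375) (.e (nat_lit 786176) (nat_lit 3) (.e (nat_lit 57479) (nat_lit 28) (.e (nat_lit 557109) (nat_lit 15) (.e (nat_lit 188452) (nat_lit 23) (.e (nat_lit 204880) (nat_lit 32) .nil))))) (.g (nat_lit 0) (.e (nat_lit 431526) (nat_lit 0) .nil) .nil)))) (.nd (nat_lit 9) 
(.lf (nat_lit 604650) (.g (nat_lit 2091) (.e (nat_lit 778316) (nat_lit 3) (.e (nat_lit 57477) (nat_lit 28) (.e (nat_lit 557107) (nat_lit 15) (.e (nat_lit 188450) (nat_lit 23) (.e (nat_lit 204855) (nat_lit 26) (.e (nat_lit 336290) (nat_lit 15) (.e (nat_lit 3716) (nat_lit 227) .nil))))))) (.g (nat_lit 1) (.e (nat_lit 431245) (nat_lit 0) .nil) .nil))) 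
(.lf (nat_lit 605162) (.g (nat_lit 1964) (.e (nat_lit 778324) (nat_lit 5) (.e (nat_lit 73781) (nat_lit 32) (.e (nat_lit 3090) (nat_lit 191) (.e (nat_lit 483406) (nat_lit 26) (.e (nat_lit 385092) (nat_lit 49) .nil))))) (.g (nat_lit 0) (.e (nat_lit 431800) (nat_lit 0) .nil) .nil)))))))) (.nd (nat_lit 5) (.nd (nat_lit 6) (.nd (nat_lit 7) (.nd (nat_lit 8) (.nd (nat_lit 9) 
(.lf (nat_lit 604186) (.g (nat_lit 3109) (.e (nat_lit 761898) (nat_lit 15) (.e (nat_lit 163979) (nat_lit 30) (.e (nat_lit 573489) (nat_lit 14) (.e (nat_lit 73754) (nat_lit 8) (.e (nat_lit 557101) (nat_lit 13) (.e (nat_lit 172066) (nat_lit 3) (.e (nat_lit 204817) (nat_lit 17) (.e (nat_lit 7936) (nat_lit 149) .nil)))))))) (.g (nat_lit 1) (.e (nat_lit 428767) (nat_lit 0) .nil) .nil))) 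
(.lf (nat_lit 604698) (.g (nat_lit 3101) (.e (nat_lit 778317) (nat_lit 3) (.e (nat_lit 57479) (nat_lit 28) (.e (nat_lit 557099) (nat_lit 13) (.e (nat_lit 172106) (nat_lit 10) (.e (nat_lit 434231) (nat_lit 23) (.e (nat_lit 532535) (nat_lit 9) (.e (nat_lit 336295) (nat_lit 15) (.e (nat_lit 3629) (nat_lit 227) .nil)))))))) (.g (nat_lit 1) (.e (nat_lit 431294) (nat_lit 0) .nil) .nil)))) 
(.nd (nat_lit 9) 
(.lf (nat_lit 604442) (.g (nat_lit 2820) (.e (nat_lit 770071) (nat_lit 8) (.e (nat_lit 65617) (nat_lit 10) (.e (nat_lit 344096) (nat_lit 18) (.e (nat_lit 7265) (nat_lit 384) (.e (nat_lit 57406) (nat_lit 12) (.e (nat_lit 336182) (nat_lit 11) (.e (nat_lit 368698) (nat_lit 43) .nil))))))) (.g (nat_lit 1) (.e (nat_lit 430902) (nat_lit 0) .nil) .nil))) 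
(.lf (nat_lit 604954) (.g (nat_lit 1499) (.e (nat_lit 778320) (nat_lit 4) (.e (nat_lit 65630) (nat_lit 14) (.e (nat_lit 401456) (nat_lit 13) (.e (nat_lit 483407) (nat_lit 26) (.e (nat_lit 385094) (nat_lit 49) .nil))))) (.g (nat_lit 0) (.e (nat_lit 431578) (nat_lit 0) .nil) .nil))))) (.nd (nat_lit 8) (.nd (nat_lit 9) 
(.lf (nat_lit 604314) (.g (nat_lit 2768) (.e (nat_lit 761899) (nat_lit 15) (.e (nat_lit 163979) (nat_lit 30) (.e (nat_lit 573489) (nat_lit 14) (.e (nat_lit 73754) (nat_lit 8) (.e (nat_lit 557095) (nat_lit 13) .nil))))) (.g (nat_lit 0) (.e (nat_lit 429087) (nat_lit 0) .nil) .nil))) 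
(.lf (nat_lit 604826) (.g (nat_lit 3571) (.e (nat_lit 778318) (nat_lit 3) (.e (nat_lit 57476) (nat_lit 28) (.e (nat_lit 557108) (nat_lit 15) (.e (nat_lit 188449) (nat_lit 22) (.e (nat_lit 196666) (nat_lit 13) (.e (nat_lit 65642) (nat_lit 15) (.e (nat_lit 3631) (nat_lit 227) .nil))))))) (.g (nat_lit 1) (.e (nat_lit 431444) (nat_lit 0) .nil) .nil)))) (.nd (nat_lit 9) 
(.lf (nat_lit 604570) (.g (nat_lit 2329) (.e (nat_lit 770072) (nat_lit 8) (.e (nat_lit 65586) (nat_lit 7) (.e (nat_lit 319534) (nat_lit 16) (.e (nat_lit 286756) (nat_lit 10) (.e (nat_lit 344088) (nat_lit 18) .nil))))) (.g (nat_lit 0) (.e (nat_lit 431035) (nat_lit 0) .nil) .nil))) 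
(.lf (nat_lit 605082) (.g (nat_lit 2051) (.e (nat_lit 778323) (nat_lit 5) (.e (nat_lit 73782) (nat_lit 32) (.e (nat_lit 3090) (nat_lit 191) (.e (nat_lit 483380) (nat_lit 23) (.e (nat_lit 336240) (nat_lit 15) (.e (nat_lit 3626) (nat_lit 227) .nil)))))) (.g (nat_lit 1) (.e (nat_lit 431716) (nat_lit 0) .nil) .nil)))))) (.nd (nat_lit 7) (.nd (nat_lit 8) (.nd (nat_lit 9) 
(.lf (nat_lit 604250) (.g (nat_lit 3721) (.e (nat_lit 761899) (nat_lit 15) (.e (nat_lit 163977) (nat_lit 30) (.e (nat_lit 573489) (nat_lit 14) (.e (nat_lit 73755) (nat_lit 8) (.e (nat_lit 557097) (nat_lit 13) (.e (nat_lit 172066) (nat_lit 3) (.e (nat_lit 204817) (nat_lit 17) (.e (nat_lit 2272) (nat_lit 149) .nil)))))))) (.g (nat_lit 1) (.e (nat_lit 428917) (nat_lit 0) .nil) .nil))) 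
(.lf (nat_lit 604762) (.g (nat_lit 2184) (.e (nat_lit 778318) (nat_lit 3) (.e (nat_lit 57476) (nat_lit 28) (.e (nat_lit 557107) (nat_lit 15) (.e (nat_lit 188450) (nat_lit 23) (.e (nat_lit 204851) (nat_lit 26) (.e (nat_lit 336306) (nat_lit 15) (.e (nat_lit 3620) (nat_lit 227) .nil))))))) (.g (nat_lit 1) (.e (nat_lit 431380) (nat_lit 0) .nil) .nil)))) (.nd (nat_lit 9) 
(.lf (nat_lit 604506) (.g (nat_lit 1243) (.e (nat_lit 770072) (nat_lit 8) (.e (nat_lit 65583) (nat_lit 7) (.e (nat_lit 319530) (nat_lit 16) (.e (nat_lit 286751) (nat_lit 10) (.e (nat_lit 344160) (nat_lit 37) .nil))))) (.g (nat_lit 0) (.e (nat_lit 430970) (nat_lit 0) .nil) .nil))) 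
(.lf (nat_lit 605018) (.g (nat_lit 1002) (.e (nat_lit 778323) (nat_lit 5) (.e (nat_lit 73781) (nat_lit 32) (.e (nat_lit 3090) (nat_lit 191) (.e (nat_lit 483380) (nat_lit 23) .nil)))) (.g (nat_lit 0) (.e (nat_lit 431652) (nat_lit 0) .nil) .nil))))) (.nd (nat_lit 8) (.nd (nat_lit 9) 
(.lf (nat_lit 604378) (.g (nat_lit 1545) (.e (nat_lit 770058) (nat_lit 5) (.e (nat_lit 1562) (nat_lit 110) (.e (nat_lit 352277) (nat_lit 11) (.e (nat_lit 426343) (nat_lit 14) (.e (nat_lit 491560) (nat_lit 10) .nil))))) (.g (nat_lit 0) (.e (nat_lit 430830) (nat_lit 0) .nil) .nil))) 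
(.lf (nat_lit 604890) (.g (nat_lit 2539) (.e (nat_lit 778318) (nat_lit 3) (.e (nat_lit 57476) (nat_lit 28) (.e (nat_lit 557108) (nat_lit 15) (.e (nat_lit 188452) (nat_lit 23) (.e (nat_lit 212736) (nat_lit 32) .nil))))) (.g (nat_lit 0) (.e (nat_lit 431508) (nat_lit 0) .nil) .nil)))) (.nd (nat_lit 9) 
(.lf (nat_lit 604634) (.g (nat_lit 2553) (.e (nat_lit 770076) (nat_lit 12) (.e (nat_lit 131109) (nat_lit 9) (.e (nat_lit 336443) (nat_lit 32) (.e (nat_lit 466972) (nat_lit 21) (.e (nat_lit 164332) (nat_lit 230) (.e (nat_lit 163847) (nat_lit 0) (.e (nat_lit 3609) (nat_lit 226) .nil))))))) (.g (nat_lit 1) (.e (nat_lit 431106) (nat_lit 0) .nil) .nil))) 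
(.lf (nat_lit 605146) (.g (nat_lit 2916) (.e (nat_lit 778324) (nat_lit 5) (.e (nat_lit 73781) (nat_lit 32) (.e (nat_lit 3090) (nat_lit 191) (.e (nat_lit 483380) (nat_lit 23) (.e (nat_lit 336306) (nat_lit 15) (.e (nat_lit 3619) (nat_lit 227) .nil)))))) (.g (nat_lit 1) (.e (nat_lit 431784) (nat_lit 0) .nil) .nil))))))) (.nd (nat_lit 6) (.nd (nat_lit 7) (.nd (nat_lit 8) (.nd (nat_lit 9) 
(.lf (nat_lit 604218) (.g (nat_lit 4233) (.e (nat_lit 761898) (nat_lit 15) (.e (nat_lit 163979) (nat_lit 30) (.e (nat_lit 573489) (nat_lit 14) (.e (nat_lit 73755) (nat_lit 8) (.e (nat_lit 557103) (nat_lit 14) (.e (nat_lit 180244) (nat_lit 5) (.e (nat_lit 532484) (nat_lit 0) (.e (nat_lit 7936) (nat_lit 149) .nil)))))))) (.g (nat_lit 1) (.e (nat_lit 428807) (nat_lit 0) .nil) .nil))) 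
(.lf (nat_lit 604730) (.g (nat_lit 2809) (.e (nat_lit 778318) (nat_lit 3) (.e (nat_lit 57476) (nat_lit 28) (.e (nat_lit 557097) (nat_lit 13) (.e (nat_lit 172115) (nat_lit 10) (.e (nat_lit 434231) (nat_lit 23) (.e (nat_lit 532528) (nat_lit 9) (.e (nat_lit 336262) (nat_lit 15) (.e (nat_lit 3629) (nat_lit 227) .nil)))))))) (.g (nat_lit 1) (.e (nat_lit 431346) (nat_lit 0) .nil) .nil)))) 
(.nd (nat_lit 9) 
(.lf (nat_lit 604474) (.g (nat_lit 3274) (.e (nat_lit 770072) (nat_lit 8) (.e (nat_lit 65569) (nat_lit 3) (.e (nat_lit 98373) (nat_lit 29) (.e (nat_lit 450588) (nat_lit 10) (.e (nat_lit 573451) (nat_lit 9) .nil))))) (.g (nat_lit 0) (.e (nat_lit 430938) (nat_lit 0) .nil) .nil))) 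
(.lf (nat_lit 604986) (.g (nat_lit 2062) (.e (nat_lit 778322) (nat_lit 5) (.e (nat_lit 73782) (nat_lit 32) (.e (nat_lit 2857) (nat_lit 184) (.e (nat_lit 426542) (nat_lit 29) (.e (nat_lit 352264) (nat_lit 0) (.e (nat_lit 3715) (nat_lit 227) .nil)))))) (.g (nat_lit 1) (.e (nat_lit 431613) (nat_lit 0) .nil) .nil))))) (.nd (nat_lit 8) (.nd (nat_lit 9) 
(.lf (nat_lit 604346) (.g (nat_lit 4891) (.e (nat_lit 761899) (nat_lit 15) (.e (nat_lit 163979) (nat_lit 30) (.e (nat_lit 573489) (nat_lit 14) (.e (nat_lit 73755) (nat_lit 8) (.e (nat_lit 557104) (nat_lit 14) (.e (nat_lit 180244) (nat_lit 5) (.e (nat_lit 532481) (nat_lit 0) (.e (nat_lit 2271) (nat_lit 149) .nil)))))))) (.g (nat_lit 1) (.e (nat_lit 429125) (nat_lit 0) .nil) .nil))) 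
(.lf (nat_lit 604858) (.g (nat_lit 3744) (.e (nat_lit 778318) (nat_lit 3) (.e (nat_lit 57476) (nat_lit 28) (.e (nat_lit 557108) (nat_lit 15) (.e (nat_lit 188452) (nat_lit 23) (.e (nat_lit 204852) (nat_lit 26) (.e (nat_lit 336259) (nat_lit 15) (.e (nat_lit 3621) (nat_lit 227) .nil))))))) (.g (nat_lit 1) (.e (nat_lit 431476) (nat_lit 0) .nil) .nil)))) (.nd (nat_lit 9) 
(.lf (nat_lit 604602) (.g (nat_lit 2408) (.e (nat_lit 770072) (nat_lit 8) (.e (nat_lit 65627) (nat_lit 13) (.e (nat_lit 393301) (nat_lit 27) (.e (nat_lit 491552) (nat_lit 9) (.e (nat_lit 335900) (nat_lit 0) .nil))))) (.g (nat_lit 0) (.e (nat_lit 431069) (nat_lit 0) .nil) .nil))) 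
(.lf (nat_lit 605114) (.g (nat_lit 1519) (.e (nat_lit 778324) (nat_lit 5) (.e (nat_lit 73781) (nat_lit 32) (.e (nat_lit 3087) (nat_lit 191) (.e (nat_lit 483405) (nat_lit 26) (.e (nat_lit 385091) (nat_lit 49) .nil))))) (.g (nat_lit 1) (.e (nat_lit 431752) (nat_lit 0) .nil) .nil)))))) (.nd (nat_lit 7) (.nd (nat_lit 8) (.nd (nat_lit 9) 
(.lf (nat_lit 604282) (.g (nat_lit 3595) (.e (nat_lit 761899) (nat_lit 15) (.e (nat_lit 163978) (nat_lit 30) (.e (nat_lit 573489) (nat_lit 14) (.e (nat_lit 73755) (nat_lit 8) (.e (nat_lit 557096) (nat_lit 13) (.e (nat_lit 172067) (nat_lit 3) (.e (nat_lit 204817) (nat_lit 17) (.e (nat_lit 7936) (nat_lit 149) .nil)))))))) (.g (nat_lit 1) (.e (nat_lit 429012) (nat_lit 0) .nil) .nil))) 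
(.lf (nat_lit 604794) (.g (nat_lit 3247) (.e (nat_lit 778318) (nat_lit 3) (.e (nat_lit 57476) (nat_lit 28) (.e (nat_lit 557107) (nat_lit 15) (.e (nat_lit 188450) (nat_lit 23) (.e (nat_lit 204852) (nat_lit 26) (.e (nat_lit 336261) (nat_lit 15) (.e (nat_lit 3617) (nat_lit 227) .nil))))))) (.g (nat_lit 1) (.e (nat_lit 431412) (nat_lit 0) .nil) .nil)))) (.nd (nat_lit 9) 
(.lf (nat_lit 604538) (.g (nat_lit 2128) (.e (nat_lit 770072) (nat_lit 8) (.e (nat_lit 65586) (nat_lit 7) (.e (nat_lit 319531) (nat_lit 16) (.e (nat_lit 286748) (nat_lit 9) (.e (nat_lit 336295) (nat_lit 15) (.e (nat_lit 3757) (nat_lit 229) (.e (nat_lit 794640) (nat_lit 20) (.e (nat_lit 3608) (nat_lit 226) .nil)))))))) (.g (nat_lit 1) (.e (nat_lit 431002) (nat_lit 0) .nil) .nil))) 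
(.lf (nat_lit 605050) (.g (nat_lit 553) (.e (nat_lit 778323) (nat_lit 5) (.e (nat_lit 73782) (nat_lit 32) (.e (nat_lit 2842) (nat_lit 184) (.e (nat_lit 426540) (nat_lit 29) .nil)))) (.g (nat_lit 0) (.e (nat_lit 431684) (nat_lit 0) .nil) .nil))))) (.nd (nat_lit 8) (.nd (nat_lit 9) 
(.lf (nat_lit 604410) (.g (nat_lit 1855) (.e (nat_lit 770071) (nat_lit 8) (.e (nat_lit 65586) (nat_lit 7) (.e (nat_lit 319531) (nat_lit 16) (.e (nat_lit 286748) (nat_lit 9) (.e (nat_lit 336295) (nat_lit 15) (.e (nat_lit 3757) (nat_lit 229) (.e (nat_lit 794639) (nat_lit 20) (.e (nat_lit 3610) (nat_lit 226) .nil)))))))) (.g (nat_lit 1) (.e (nat_lit 430864) (nat_lit 0) .nil) .nil))) 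
(.lf (nat_lit 604922) (.g (nat_lit 557) (.e (nat_lit 778319) (nat_lit 4) (.e (nat_lit 65630) (nat_lit 14) (.e (nat_lit 401456) (nat_lit 13) .nil))) (.g (nat_lit 0) (.e (nat_lit 431545) (nat_lit 0) .nil) .nil)))) (.nd (nat_lit 9) 
(.lf (nat_lit 604666) (.g (nat_lit 3976) (.e (nat_lit 778316) (nat_lit 3) (.e (nat_lit 57480) (nat_lit 28) (.e (nat_lit 557098) (nat_lit 13) (.e (nat_lit 172115) (nat_lit 10) (.e (nat_lit 434231) (nat_lit 23) (.e (nat_lit 532535) (nat_lit 9) (.e (nat_lit 336290) (nat_lit 15) (.e (nat_lit 3715) (nat_lit 227) .nil)))))))) (.g (nat_lit 1) (.e (nat_lit 431261) (nat_lit 0) .nil) .nil))) 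
(.lf (nat_lit 605178) (.g (nat_lit 980) (.e (nat_lit 778325) (nat_lit 6) (.e (nat_lit 81924) (nat_lit 0) (.e (nat_lit 3632) (nat_lit 227) (.e (nat_lit 778327) (nat_lit 6) (.e (nat_lit 81920) (nat_lit 0) .nil))))) (.g (nat_lit 0) (.e (nat_lit 431816) (nat_lit 0) .nil) .nil)))))))))) 
(.nd (nat_lit 3) (.nd (nat_lit 4) (.nd (nat_lit 5) (.nd (nat_lit 6) (.nd (nat_lit 7) 
(.nd (nat_lit 8) (.nd (nat_lit 9) 
(.lf (nat_lit 604166) (.g (nat_lit 2090) (.e (nat_lit 761898) (nat_lit 15) (.e (nat_lit 163979) (nat_lit 30) (.e (nat_lit 573487) (nat_lit 14) (.e (nat_lit 73754) (nat_lit 8) .nil)))) (.g (nat_lit 0) (.e (nat_lit 428746) (nat_lit 0) .nil) .nil))) 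
(.lf (nat_lit 604678) (.g (nat_lit 2817) (.e (nat_lit 778317) (nat_lit 3) (.e (nat_lit 57476) (nat_lit 28) (.e (nat_lit 557067) (nat_lit 9) (.e (nat_lit 3022) (nat_lit 187) (.e (nat_lit 450570) (nat_lit 1) .nil))))) (.g (nat_lit 0) (.e (nat_lit 431273) (nat_lit 0) .nil) .nil)))) (.nd (nat_lit 9) 
(.lf (nat_lit 604422) (.g (nat_lit 2346) (.e (nat_lit 770071) (nat_lit 8) (.e (nat_lit 65586) (nat_lit 7) (.e (nat_lit 319534) (nat_lit 16) (.e (nat_lit 286756) (nat_lit 10) (.e (nat_lit 344087) (nat_lit 18) .nil))))) (.g (nat_lit 0) (.e (nat_lit 430877) (nat_lit 0) .nil) .nil))) 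
(.lf (nat_lit 604934) (.g (nat_lit 2287) (.e (nat_lit 778320) (nat_lit 4) (.e (nat_lit 65630) (nat_lit 14) (.e (nat_lit 401437) (nat_lit 9) (.e (nat_lit 426538) (nat_lit 29) (.e (nat_lit 352262) (nat_lit 0) .nil))))) (.g (nat_lit 0) (.e (nat_lit 431558) (nat_lit 0) .nil) .nil))))) (.nd (nat_lit 8) (.nd (nat_lit 9) 
(.lf (nat_lit 604294) (.g (nat_lit 5329) (.e (nat_lit 761899) (nat_lit 15) (.e (nat_lit 163978) (nat_lit 30) (.e (nat_lit 573489) (nat_lit 14) (.e (nat_lit 73755) (nat_lit 8) (.e (nat_lit 557103) (nat_lit 14) (.e (nat_lit 180244) (nat_lit 5) (.e (nat_lit 532481) (nat_lit 0) (.e (nat_lit 2271) (nat_lit 149) .nil)))))))) (.g (nat_lit 1) (.e (nat_lit 429027) (nat_lit 0) .nil) .nil))) 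
(.lf (nat_lit 604806) (.g (nat_lit 3896) (.e (nat_lit 778318) (nat_lit 3) (.e (nat_lit 57476) (nat_lit 28) (.e (nat_lit 557107) (nat_lit 15) (.e (nat_lit 188450) (nat_lit 23) (.e (nat_lit 204852) (nat_lit 26) (.e (nat_lit 336306) (nat_lit 15) (.e (nat_lit 3619) (nat_lit 227) .nil))))))) (.g (nat_lit 1) (.e (nat_lit 431424) (nat_lit 0) .nil) .nil)))) (.nd (nat_lit 9) 
(.lf (nat_lit 604550) (.g (nat_lit 1757) (.e (nat_lit 770072) (nat_lit 8) (.e (nat_lit 65586) (nat_lit 7) (.e (nat_lit 319531) (nat_lit 16) (.e (nat_lit 286755) (nat_lit 10) .nil)))) (.g (nat_lit 0) (.e (nat_lit 431014) (nat_lit 0) .nil) .nil))) 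
(.lf (nat_lit 605062) (.g (nat_lit 1932) (.e (nat_lit 778323) (nat_lit 5) (.e (nat_lit 73782) (nat_lit 32) (.e (nat_lit 2857) (nat_lit 184) (.e (nat_lit 426482) (nat_lit 27) (.e (nat_lit 336197) (nat_lit 12) .nil))))) (.g (nat_lit 0) (.e (nat_lit 431696) (nat_lit 0) .nil) .nil)))))) (.nd (nat_lit 7) (.nd (nat_lit 8) (.nd (nat_lit 9) 
(.lf (nat_lit 604230) (.g (nat_lit 4612) (.e (nat_lit 761898) (nat_lit 15) (.e (nat_lit 163979) (nat_lit 30) (.e (nat_lit 573489) (nat_lit 14) (.e (nat_lit 73755) (nat_lit 8) (.e (nat_lit 557104) (nat_lit 14) (.e (nat_lit 180244) (nat_lit 5) (.e (nat_lit 532484) (nat_lit 0) (.e (nat_lit 7936) (nat_lit 149) .nil)))))))) (.g (nat_lit 1) (.e (nat_lit 428819) (nat_lit 0) .nil) .nil))) 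
(.lf (nat_lit 604742) (.g (nat_lit 2741) (.e (nat_lit 778318) (nat_lit 3) (.e (nat_lit 57476) (nat_lit 28) (.e (nat_lit 557097) (nat_lit 13) (.e (nat_lit 172115) (nat_lit 10) (.e (nat_lit 434231) (nat_lit 23) (.e (nat_lit 532529) (nat_lit 9) (.e (nat_lit 336297) (nat_lit 15) (.e (nat_lit 3630) (nat_lit 227) .nil)))))))) (.g (nat_lit 1) (.e (nat_lit 431358) (nat_lit 0) .nil) .nil)))) 
(.nd (nat_lit 9) 
(.lf (nat_lit 604486) (.g (nat_lit 1244) (.e (nat_lit 770072) (nat_lit 8) (.e (nat_lit 65571) (nat_lit 3) (.e (nat_lit 98365) (nat_lit 26) .nil))) (.g (nat_lit 0) (.e (nat_lit 430950) (nat_lit 0) .nil) .nil))) 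
(.lf (nat_lit 604998) (.g (nat_lit 1119) (.e (nat_lit 778323) (nat_lit 5) (.e (nat_lit 73781) (nat_lit 32) (.e (nat_lit 2857) (nat_lit 184) (.e (nat_lit 426484) (nat_lit 27) .nil)))) (.g (nat_lit 0) (.e (nat_lit 431632) (nat_lit 0) .nil) .nil))))) (.nd (nat_lit 8) (.nd (nat_lit 9) 
(.lf (nat_lit 604358) (.g (nat_lit 1488) (.e (nat_lit 761905) (nat_lit 16) (.e (nat_lit 172106) (nat_lit 10) (.e (nat_lit 434209) (nat_lit 18) (.e (nat_lit 5065) (nat_lit 292) .nil)))) (.g (nat_lit 0) (.e (nat_lit 429904) (nat_lit 0) .nil) .nil))) 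
(.lf (nat_lit 604870) (.g (nat_lit 3503) (.e (nat_lit 778318) (nat_lit 3) (.e (nat_lit 57476) (nat_lit 28) (.e (nat_lit 557108) (nat_lit 15) (.e (nat_lit 188452) (nat_lit 23) (.e (nat_lit 204852) (nat_lit 26) (.e (nat_lit 336303) (nat_lit 15) (.e (nat_lit 3619) (nat_lit 227) .nil))))))) (.g (nat_lit 1) (.e (nat_lit 431488) (nat_lit 0) .nil) .nil)))) (.nd (nat_lit 9) 
(.lf (nat_lit 604614) (.g (nat_lit 2542) (.e (nat_lit 770072) (nat_lit 8) (.e (nat_lit 65630) (nat_lit 14) (.e (nat_lit 401454) (nat_lit 12) (.e (nat_lit 475214) (nat_lit 42) .nil)))) (.g (nat_lit 0) (.e (nat_lit 431085) (nat_lit 0) .nil) .nil))) 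
(.lf (nat_lit 605126) (.g (nat_lit 2357) (.e (nat_lit 778324) (nat_lit 5) (.e (nat_lit 73781) (nat_lit 32) (.e (nat_lit 3090) (nat_lit 191) (.e (nat_lit 483380) (nat_lit 23) (.e (nat_lit 336238) (nat_lit 15) .nil))))) (.g (nat_lit 0) (.e (nat_lit 431764) (nat_lit 0) .nil) .nil))))))) (.nd (nat_lit 6) (.nd (nat_lit 7) (.nd (nat_lit 8) (.nd (nat_lit 9) 
(.lf (nat_lit 604198) (.g (nat_lit 3541) (.e (nat_lit 761898) (nat_lit 15) (.e (nat_lit 163979) (nat_lit 30) (.e (nat_lit 573489) (nat_lit 14) (.e (nat_lit 73755) (nat_lit 8) (.e (nat_lit 557097) (nat_lit 13) (.e (nat_lit 172066) (nat_lit 3) (.e (nat_lit 204815) (nat_lit 17) (.e (nat_lit 2271) (nat_lit 149) .nil)))))))) (.g (nat_lit 1) (.e (nat_lit 428784) (nat_lit 0) .nil) .nil))) 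
(.lf (nat_lit 604710) (.g (nat_lit 2944) (.e (nat_lit 778317) (nat_lit 3) (.e (nat_lit 57480) (nat_lit 28) (.e (nat_lit 557109) (nat_lit 15) (.e (nat_lit 188452) (nat_lit 23) (.e (nat_lit 204851) (nat_lit 26) .nil))))) (.g (nat_lit 0) (.e (nat_lit 431313) (nat_lit 0) .nil) .nil)))) (.nd (nat_lit 9) 
(.lf (nat_lit 604454) (.g (nat_lit 2323) (.e (nat_lit 770071) (nat_lit 8) (.e (nat_lit 65625) (nat_lit 13) (.e (nat_lit 393234) (nat_lit 17) (.e (nat_lit 7593) (nat_lit 407) (.e (nat_lit 73773) (nat_lit 25) .nil))))) (.g (nat_lit 1) (.e (nat_lit 430914) (nat_lit 0) .nil) .nil))) 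
(.lf (nat_lit 604966) (.g (nat_lit 2124) (.e (nat_lit 778321) (nat_lit 4) (.e (nat_lit 65628) (nat_lit 14) (.e (nat_lit 401457) (nat_lit 13) (.e (nat_lit 483406) (nat_lit 26) (.e (nat_lit 385094) (nat_lit 49) .nil))))) (.g (nat_lit 0) (.e (nat_lit 431590) (nat_lit 0) .nil) .nil))))) (.nd (nat_lit 8) (.nd (nat_lit 9) 
(.lf (nat_lit 604326) (.g (nat_lit 3325) (.e (nat_lit 761899) (nat_lit 15) (.e (nat_lit 163979) (nat_lit 30) (.e (nat_lit 573489) (nat_lit 14) (.e (nat_lit 73755) (nat_lit 8) (.e (nat_lit 557096) (nat_lit 13) (.e (nat_lit 172067) (nat_lit 3) (.e (nat_lit 204817) (nat_lit 17) (.e (nat_lit 7936) (nat_lit 149) .nil)))))))) (.g (nat_lit 1) (.e (nat_lit 429101) (nat_lit 0) .nil) .nil))) 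
(.lf (nat_lit 604838) (.g (nat_lit 4909) (.e (nat_lit 778318) (nat_lit 3) (.e (nat_lit 57476) (nat_lit 28) (.e (nat_lit 557108) (nat_lit 15) (.e (nat_lit 188452) (nat_lit 23) (.e (nat_lit 204852) (nat_lit 26) (.e (nat_lit 336240) (nat_lit 15) (.e (nat_lit 3623) (nat_lit 227) .nil))))))) (.g (nat_lit 1) (.e (nat_lit 431456) (nat_lit 0) .nil) .nil)))) (.nd (nat_lit 9) 
(.lf (nat_lit 604582) (.g (nat_lit 2685) (.e (nat_lit 770072) (nat_lit 8) (.e (nat_lit 65617) (nat_lit 10) (.e (nat_lit 344091) (nat_lit 18) (.e (nat_lit 7266) (nat_lit 384) (.e (nat_lit 57409) (nat_lit 12) (.e (nat_lit 336182) (nat_lit 11) (.e (nat_lit 368698) (nat_lit 43) .nil))))))) (.g (nat_lit 1) (.e (nat_lit 431049) (nat_lit 0) .nil) .nil))) 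
(.lf (nat_lit 605094) (.g (nat_lit 2443) (.e (nat_lit 778323) (nat_lit 5) (.e (nat_lit 73782) (nat_lit 32) (.e (nat_lit 3090) (nat_lit 191) (.e (nat_lit 483380) (nat_lit 23) (.e (nat_lit 336306) (nat_lit 15) (.e (nat_lit 3619) (nat_lit 227) .nil)))))) (.g (nat_lit 1) (.e (nat_lit 431728) (nat_lit 0) .nil) .nil)))))) (.nd (nat_lit 7) (.nd (nat_lit 8) (.nd (nat_lit 9) 
(.lf (nat_lit 604262) (.g (nat_lit 2007) (.e (nat_lit 761899) (nat_lit 15) (.e (nat_lit 163977) (nat_lit 30) (.e (nat_lit 573489) (nat_lit 14) (.e (nat_lit 73755) (nat_lit 8) (.e (nat_lit 557104) (nat_lit 14) .nil))))) (.g (nat_lit 0) (.e (nat_lit 428929) (nat_lit 0) .nil) .nil))) 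
(.lf (nat_lit 604774) (.g (nat_lit 3528) (.e (nat_lit 778318) (nat_lit 3) (.e (nat_lit 57476) (nat_lit 28) (.e (nat_lit 557107) (nat_lit 15) (.e (nat_lit 188450) (nat_lit 23) (.e (nat_lit 204852) (nat_lit 26) (.e (nat_lit 336257) (nat_lit 15) (.e (nat_lit 3621) (nat_lit 227) .nil))))))) (.g (nat_lit 1) (.e (nat_lit 431392) (nat_lit 0) .nil) .nil)))) (.nd (nat_lit 9) 
(.lf (nat_lit 604518) (.g (nat_lit 2925) (.e (nat_lit 770072) (nat_lit 8) (.e (nat_lit 65583) (nat_lit 7) (.e (nat_lit 319530) (nat_lit 16) (.e (nat_lit 286759) (nat_lit 12) (.e (nat_lit 385115) (nat_lit 53) (.e (nat_lit 811032) (nat_lit 11) (.e (nat_lit 852) (nat_lit 74) .nil))))))) (.g (nat_lit 1) (.e (nat_lit 430982) (nat_lit 0) .nil) .nil))) 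
(.lf (nat_lit 605030) (.g (nat_lit 2542) (.e (nat_lit 778323) (nat_lit 5) (.e (nat_lit 73781) (nat_lit 32) (.e (nat_lit 3090) (nat_lit 191) (.e (nat_lit 483380) (nat_lit 23) (.e (nat_lit 336263) (nat_lit 15) (.e (nat_lit 3630) (nat_lit 227) .nil)))))) (.g (nat_lit 1) (.e (nat_lit 431664) (nat_lit 0) .nil) .nil))))) (.nd (nat_lit 8) (.nd (nat_lit 9) 
(.lf (nat_lit 604390) (.g (nat_lit 2231) (.e (nat_lit 770071) (nat_lit 8) (.e (nat_lit 65571) (nat_lit 3) (.e (nat_lit 98359) (nat_lit 26) (.e (nat_lit 426286) (nat_lit 10) (.e (nat_lit 434247) (nat_lit 28) (.e (nat_lit 573473) (nat_lit 12) (.e (nat_lit 57572) (nat_lit 54) .nil))))))) (.g (nat_lit 1) (.e (nat_lit 430843) (nat_lit 0) .nil) .nil))) 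
(.lf (nat_lit 604902) (.g (nat_lit 3006) (.e (nat_lit 786176) (nat_lit 3) (.e (nat_lit 57478) (nat_lit 28) (.e (nat_lit 557109) (nat_lit 15) (.e (nat_lit 188452) (nat_lit 23) (.e (nat_lit 204881) (nat_lit 32) .nil))))) (.g (nat_lit 0) (.e (nat_lit 431522) (nat_lit 0) .nil) .nil)))) (.nd (nat_lit 9) 
(.lf (nat_lit 604646) (.g (nat_lit 2414) (.e (nat_lit 778316) (nat_lit 3) (.e (nat_lit 57476) (nat_lit 28) (.e (nat_lit 557108) (nat_lit 15) (.e (nat_lit 188452) (nat_lit 23) (.e (nat_lit 204852) (nat_lit 26) .nil))))) (.g (nat_lit 0) (.e (nat_lit 431241) (nat_lit 0) .nil) .nil))) 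
(.lf (nat_lit 605158) (.g (nat_lit 2821) (.e (nat_lit 778324) (nat_lit 5) (.e (nat_lit 73781) (nat_lit 32) (.e (nat_lit 3090) (nat_lit 191) (.e (nat_lit 483403) (nat_lit 26) (.e (nat_lit 392960) (nat_lit 49) .nil))))) (.g (nat_lit 0) (.e (nat_lit 431796) (nat_lit 0) .nil) .nil)))))))) (.nd (nat_lit 5) (.nd (nat_lit 6) (.nd (nat_lit 7) (.nd (nat_lit 8) (.nd (nat_lit 9) 
(.lf (nat_lit 604182) (.g (nat_lit 4013) (.e (nat_lit 761898) (nat_lit 15) (.e (nat_lit 163979) (nat_lit 30) (.e (nat_lit 573489) (nat_lit 14) (.e (nat_lit 73754) (nat_lit 8) (.e (nat_lit 557100) (nat_lit 13) (.e (nat_lit 172067) (nat_lit 3) (.e (nat_lit 204817) (nat_lit 17) (.e (nat_lit 7936) (nat_lit 149) .nil)))))))) (.g (nat_lit 1) (.e (nat_lit 428763) (nat_lit 0) .nil) .nil))) 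
(.lf (nat_lit 604694) (.g (nat_lit 2903) (.e (nat_lit 778317) (nat_lit 3) (.e (nat_lit 57477) (nat_lit 28) (.e (nat_lit 557108) (nat_lit 15) (.e (nat_lit 188449) (nat_lit 22) (.e (nat_lit 196662) (nat_lit 13) .nil))))) (.g (nat_lit 0) (.e (nat_lit 431289) (nat_lit 0) .nil) .nil)))) (.nd (nat_lit 9) 
(.lf (nat_lit 604438) (.g (nat_lit 2416) (.e (nat_lit 770071) (nat_lit 8) (.e (nat_lit 65617) (nat_lit 10) (.e (nat_lit 344091) (nat_lit 18) (.e (nat_lit 7263) (nat_lit 384) (.e (nat_lit 57409) (nat_lit 12) (.e (nat_lit 336182) (nat_lit 11) (.e (nat_lit 368698) (nat_lit 43) .nil))))))) (.g (nat_lit 1) (.e (nat_lit 430898) (nat_lit 0) .nil) .nil))) 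
(.lf (nat_lit 604950) (.g (nat_lit 2080) (.e (nat_lit 778320) (nat_lit 4) (.e (nat_lit 65630) (nat_lit 14) (.e (nat_lit 401456) (nat_lit 13) (.e (nat_lit 483405) (nat_lit 26) (.e (nat_lit 385093) (nat_lit 49) .nil))))) (.g (nat_lit 0) (.e (nat_lit 431574) (nat_lit 0) .nil) .nil))))) (.nd (nat_lit 8) (.nd (nat_lit 9) 
(.lf (nat_lit 604310) (.g (nat_lit 2554) (.e (nat_lit 761899) (nat_lit 15) (.e (nat_lit 163978) (nat_lit 30) (.e (nat_lit 573489) (nat_lit 14) (.e (nat_lit 73755) (nat_lit 8) (.e (nat_lit 557105) (nat_lit 14) (.e (nat_lit 180245) (nat_lit 5) (.e (nat_lit 532489) (nat_lit 0) (.e (nat_lit 2272) (nat_lit 149) .nil)))))))) (.g (nat_lit 1) (.e (nat_lit 429044) (nat_lit 0) .nil) .nil))) 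
(.lf (nat_lit 604822) (.g (nat_lit 2285) (.e (nat_lit 778318) (nat_lit 3) (.e (nat_lit 57476) (nat_lit 28) (.e (nat_lit 557108) (nat_lit 15) (.e (nat_lit 188447) (nat_lit 22) (.e (nat_lit 196666) (nat_lit 13) .nil))))) (.g (nat_lit 0) (.e (nat_lit 431440) (nat_lit 0) .nil) .nil)))) (.nd (nat_lit 9) 
(.lf (nat_lit 604566) (.g (nat_lit 2365) (.e (nat_lit 770072) (nat_lit 8) (.e (nat_lit 65586) (nat_lit 7) (.e (nat_lit 319534) (nat_lit 16) (.e (nat_lit 286751) (nat_lit 10) (.e (nat_lit 344091) (nat_lit 18) .nil))))) (.g (nat_lit 0) (.e (nat_lit 431031) (nat_lit 0) .nil) .nil))) 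
(.lf (nat_lit 605078) (.g (nat_lit 935) (.e (nat_lit 778323) (nat_lit 5) (.e (nat_lit 73782) (nat_lit 32) (.e (nat_lit 3090) (nat_lit 191) (.e (nat_lit 483379) (nat_lit 23) .nil)))) (.g (nat_lit 0) (.e (nat_lit 431712) (nat_lit 0) .nil) .nil)))))) (.nd (nat_lit 7) (.nd (nat_lit 8) (.nd (nat_lit 9) 
(.lf (nat_lit 604246) (.g (nat_lit 1929) (.e (nat_lit 761899) (nat_lit 15) (.e (nat_lit 163977) (nat_lit 30) (.e (nat_lit 573489) (nat_lit 14) (.e (nat_lit 73755) (nat_lit 8) (.e (nat_lit 557097) (nat_lit 13) .nil))))) (.g (nat_lit 0) (.e (nat_lit 428910) (nat_lit 0) .nil) .nil))) 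
(.lf (nat_lit 604758) (.g (nat_lit 1901) (.e (nat_lit 778318) (nat_lit 3) (.e (nat_lit 57476) (nat_lit 28) (.e (nat_lit 557107) (nat_lit 15) (.e (nat_lit 188440) (nat_lit 20) (.e (nat_lit 3255) (nat_lit 197) .nil))))) (.g (nat_lit 0) (.e (nat_lit 431376) (nat_lit 0) .nil) .nil)))) (.nd (nat_lit 9) 
(.lf (nat_lit 604502) (.g (nat_lit 1861) (.e (nat_lit 770072) (nat_lit 8) (.e (nat_lit 65583) (nat_lit 7) (.e (nat_lit 319530) (nat_lit 16) (.e (nat_lit 286748) (nat_lit 9) (.e (nat_lit 336295) (nat_lit 15) (.e (nat_lit 3806) (nat_lit 231) (.e (nat_lit 811033) (nat_lit 11) (.e (nat_lit 7936) (nat_lit 74) .nil)))))))) (.g (nat_lit 1) (.e (nat_lit 430966) (nat_lit 0) .nil) .nil))) 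
(.lf (nat_lit 605014) (.g (nat_lit 1812) (.e (nat_lit 778323) (nat_lit 5) (.e (nat_lit 73781) (nat_lit 32) (.e (nat_lit 3089) (nat_lit 191) (.e (nat_lit 483403) (nat_lit 26) (.e (nat_lit 385092) (nat_lit 49) .nil))))) (.g (nat_lit 0) (.e (nat_lit 431648) (nat_lit 0) .nil) .nil))))) (.nd (nat_lit 8) (.nd (nat_lit 9) 
(.lf (nat_lit 604374) (.g (nat_lit 1185) (.e (nat_lit 761914) (nat_lit 18) (.e (nat_lit 188455) (nat_lit 24) (.e (nat_lit 229632) (nat_lit 226) (.e (nat_lit 989) (nat_lit 81) (.e (nat_lit 1615) (nat_lit 113) .nil))))) (.g (nat_lit 0) (.e (nat_lit 430701) (nat_lit 0) .nil) .nil))) 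
(.lf (nat_lit 604886) (.g (nat_lit 2863) (.e (nat_lit 778318) (nat_lit 3) (.e (nat_lit 57476) (nat_lit 28) (.e (nat_lit 557108) (nat_lit 15) (.e (nat_lit 188452) (nat_lit 23) (.e (nat_lit 204856) (nat_lit 26) .nil))))) (.g (nat_lit 0) (.e (nat_lit 431504) (nat_lit 0) .nil) .nil)))) (.nd (nat_lit 9) 
(.lf (nat_lit 604630) (.g (nat_lit 1628) (.e (nat_lit 770074) (nat_lit 10) (.e (nat_lit 81927) (nat_lit 11) (.e (nat_lit 426344) (nat_lit 14) (.e (nat_lit 491558) (nat_lit 10) (.e (nat_lit 344176) (nat_lit 43) .nil))))) (.g (nat_lit 0) (.e (nat_lit 431101) (nat_lit 0) .nil) .nil))) 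
(.lf (nat_lit 605142) (.g (nat_lit 2568) (.e (nat_lit 778324) (nat_lit 5) (.e (nat_lit 73781) (nat_lit 32) (.e (nat_lit 3090) (nat_lit 191) (.e (nat_lit 483380) (nat_lit 23) (.e (nat_lit 336263) (nat_lit 15) .nil))))) (.g (nat_lit 0) (.e (nat_lit 431780) (nat_lit 0) .nil) .nil))))))) (.nd (nat_lit 6) (.nd (nat_lit 7) (.nd (nat_lit 8) (.nd (nat_lit 9) 
(.lf (nat_lit 604214) (.g (nat_lit 4901) (.e (nat_lit 761898) (nat_lit 15) (.e (nat_lit 163979) (nat_lit 30) (.e (nat_lit 573489) (nat_lit 14) (.e (nat_lit 73755) (nat_lit 8) (.e (nat_lit 557098) (nat_lit 13) (.e (nat_lit 172067) (nat_lit 3) (.e (nat_lit 204817) (nat_lit 17) (.e (nat_lit 7936) (nat_lit 149) .nil)))))))) (.g (nat_lit 1) (.e (nat_lit 428803) (nat_lit 0) .nil) .nil))) 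
(.lf (nat_lit 604726) (.g (nat_lit 2527) (.e (nat_lit 778318) (nat_lit 3) (.e (nat_lit 57476) (nat_lit 28) (.e (nat_lit 557097) (nat_lit 13) (.e (nat_lit 172115) (nat_lit 10) (.e (nat_lit 434231) (nat_lit 23) (.e (nat_lit 532528) (nat_lit 9) (.e (nat_lit 336259) (nat_lit 15) (.e (nat_lit 3621) (nat_lit 227) .nil)))))))) (.g (nat_lit 1) (.e (nat_lit 431342) (nat_lit 0) .nil) .nil)))) 
(.nd (nat_lit 9) 
(.lf (nat_lit 604470) (.g (nat_lit 5313) (.e (nat_lit 770072) (nat_lit 8) (.e (nat_lit 65568) (nat_lit 2) (.e (nat_lit 90170) (nat_lit 13) (.e (nat_lit 172113) (nat_lit 10) (.e (nat_lit 434247) (nat_lit 28) (.e (nat_lit 573475) (nat_lit 12) (.e (nat_lit 57572) (nat_lit 54) .nil))))))) (.g (nat_lit 1) (.e (nat_lit 430934) (nat_lit 0) .nil) .nil))) 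
(.lf (nat_lit 604982) (.g (nat_lit 1193) (.e (nat_lit 778322) (nat_lit 5) (.e (nat_lit 73781) (nat_lit 32) (.e (nat_lit 3090) (nat_lit 191) (.e (nat_lit 483404) (nat_lit 26) .nil)))) (.g (nat_lit 0) (.e (nat_lit 431609) (nat_lit 0) .nil) .nil))))) (.nd (nat_lit 8) (.nd (nat_lit 9) 
(.lf (nat_lit 604342) (.g (nat_lit 3635) (.e (nat_lit 761899) (nat_lit 15) (.e (nat_lit 163979) (nat_lit 30) (.e (nat_lit 573489) (nat_lit 14) (.e (nat_lit 73755) (nat_lit 8) (.e (nat_lit 557103) (nat_lit 14) (.e (nat_lit 180244) (nat_lit 5) (.e (nat_lit 532484) (nat_lit 0) (.e (nat_lit 7936) (nat_lit 149) .nil)))))))) (.g (nat_lit 1) (.e (nat_lit 429121) (nat_lit 0) .nil) .nil))) 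
(.lf (nat_lit 604854) (.g (nat_lit 3314) (.e (nat_lit 778318) (nat_lit 3) (.e (nat_lit 57476) (nat_lit 28) (.e (nat_lit 557108) (nat_lit 15) (.e (nat_lit 188452) (nat_lit 23) (.e (nat_lit 204852) (nat_lit 26) (.e (nat_lit 336257) (nat_lit 15) (.e (nat_lit 7936) (nat_lit 227) .nil))))))) (.g (nat_lit 1) (.e (nat_lit 431472) (nat_lit 0) .nil) .nil)))) (.nd (nat_lit 9) 
(.lf (nat_lit 604598) (.g (nat_lit 1150) (.e (nat_lit 770072) (nat_lit 8) (.e (nat_lit 65627) (nat_lit 13) (.e (nat_lit 393298) (nat_lit 27) (.e (nat_lit 491561) (nat_lit 11) .nil)))) (.g (nat_lit 0) (.e (nat_lit 431065) (nat_lit 0) .nil) .nil))) 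
(.lf (nat_lit 605110) (.g (nat_lit 989) (.e (nat_lit 778324) (nat_lit 5) (.e (nat_lit 73781) (nat_lit 32) (.e (nat_lit 2857) (nat_lit 184) (.e (nat_lit 426489) (nat_lit 27) .nil)))) (.g (nat_lit 0) (.e (nat_lit 431748) (nat_lit 0) .nil) .nil)))))) (.nd (nat_lit 7) (.nd (nat_lit 8) (.nd (nat_lit 9) 
(.lf (nat_lit 604278) (.g (nat_lit 2231) (.e (nat_lit 761899) (nat_lit 15) (.e (nat_lit 163978) (nat_lit 30) (.e (nat_lit 573489) (nat_lit 14) (.e (nat_lit 73754) (nat_lit 8) (.e (nat_lit 557101) (nat_lit 13) (.e (nat_lit 172067) (nat_lit 3) (.e (nat_lit 204821) (nat_lit 17) (.e (nat_lit 2264) (nat_lit 149) .nil)))))))) (.g (nat_lit 1) (.e (nat_lit 429006) (nat_lit 0) .nil) .nil))) 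
(.lf (nat_lit 604790) (.g (nat_lit 2613) (.e (nat_lit 778318) (nat_lit 3) (.e (nat_lit 57476) (nat_lit 28) (.e (nat_lit 557107) (nat_lit 15) (.e (nat_lit 188450) (nat_lit 23) (.e (nat_lit 204852) (nat_lit 26) (.e (nat_lit 336259) (nat_lit 15) (.e (nat_lit 3622) (nat_lit 227) .nil))))))) (.g (nat_lit 1) (.e (nat_lit 431408) (nat_lit 0) .nil) .nil)))) (.nd (nat_lit 9) 
(.lf (nat_lit 604534) (.g (nat_lit 2129) (.e (nat_lit 770072) (nat_lit 8) (.e (nat_lit 65586) (nat_lit 7) (.e (nat_lit 319531) (nat_lit 16) (.e (nat_lit 286748) (nat_lit 9) (.e (nat_lit 335915) (nat_lit 0) .nil))))) (.g (nat_lit 0) (.e (nat_lit 430998) (nat_lit 0) .nil) .nil))) 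
(.lf (nat_lit 605046) (.g (nat_lit 1985) (.e (nat_lit 778323) (nat_lit 5) (.e (nat_lit 73781) (nat_lit 32) (.e (nat_lit 3090) (nat_lit 191) (.e (nat_lit 483393) (nat_lit 23) (.e (nat_lit 336293) (nat_lit 15) .nil))))) (.g (nat_lit 0) (.e (nat_lit 431680) (nat_lit 0) .nil) .nil))))) (.nd (nat_lit 8) (.nd (nat_lit 9) 
(.lf (nat_lit 604406) (.g (nat_lit 2267) (.e (nat_lit 770071) (nat_lit 8) (.e (nat_lit 65586) (nat_lit 7) (.e (nat_lit 319531) (nat_lit 16) (.e (nat_lit 286748) (nat_lit 9) (.e (nat_lit 335915) (nat_lit 0) .nil))))) (.g (nat_lit 0) (.e (nat_lit 430860) (nat_lit 0) .nil) .nil))) 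
(.lf (nat_lit 604918) (.g (nat_lit 2082) (.e (nat_lit 778319) (nat_lit 4) (.e (nat_lit 65610) (nat_lit 10) (.e (nat_lit 344117) (nat_lit 21) (.e (nat_lit 516115) (nat_lit 1) .nil)))) (.g (nat_lit 0) (.e (nat_lit 431539) (nat_lit 0) .nil) .nil)))) (.nd (nat_lit 9) 
(.lf (nat_lit 604662) (.g (nat_lit 5523) (.e (nat_lit 778316) (nat_lit 3) (.e (nat_lit 57479) (nat_lit 28) (.e (nat_lit 557109) (nat_lit 15) (.e (nat_lit 188452) (nat_lit 23) (.e (nat_lit 204880) (nat_lit 32) .nil))))) (.g (nat_lit 0) (.e (nat_lit 431257) (nat_lit 0) .nil) .nil))) 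
(.lf (nat_lit 605174) (.g (nat_lit 739) (.e (nat_lit 778325) (nat_lit 6) (.e (nat_lit 81924) (nat_lit 0) (.e (nat_lit 3629) (nat_lit 227) (.e (nat_lit 778326) (nat_lit 6) (.e (nat_lit 81921) (nat_lit 0) (.e (nat_lit 3715) (nat_lit 227) .nil)))))) (.g (nat_lit 1) (.e (nat_lit 431812) (nat_lit 0) .nil) .nil))))))))) 
(.nd (nat_lit 4) (.nd (nat_lit 5) (.nd (nat_lit 6) (.nd (nat_lit 7) (.nd (nat_lit 8) 
(.nd (nat_lit 9) 
(.lf (nat_lit 604174) (.g (nat_lit 3496) (.e (nat_lit 761898) (nat_lit 15) (.e (nat_lit 163979) (nat_lit 30) (.e (nat_lit 573488) (nat_lit 14) (.e (nat_lit 73755) (nat_lit 8) (.e (nat_lit 557098) (nat_lit 13) (.e (nat_lit 172065) (nat_lit 3) (.e (nat_lit 204817) (nat_lit 17) (.e (nat_lit 7936) (nat_lit 149) .nil)))))))) (.g (nat_lit 1) (.e (nat_lit 428754) (nat_lit 0) .nil) .nil))) 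
(.lf (nat_lit 604686) (.g (nat_lit 4654) (.e (nat_lit 778317) (nat_lit 3) (.e (nat_lit 57476) (nat_lit 28) (.e (nat_lit 557095) (nat_lit 13) (.e (nat_lit 172106) (nat_lit 10) (.e (nat_lit 434231) (nat_lit 23) (.e (nat_lit 532535) (nat_lit 9) (.e (nat_lit 336295) (nat_lit 15) (.e (nat_lit 3630) (nat_lit 227) .nil)))))))) (.g (nat_lit 1) (.e (nat_lit 431281) (nat_lit 0) .nil) .nil)))) 
(.nd (nat_lit 9) 
(.lf (nat_lit 604430) (.g (nat_lit 1801) (.e (nat_lit 770071) (nat_lit 8) (.e (nat_lit 65610) (nat_lit 10) (.e (nat_lit 344097) (nat_lit 18) (.e (nat_lit 7146) (nat_lit 382) (.e (nat_lit 1293) (nat_lit 96) .nil))))) (.g (nat_lit 0) (.e (nat_lit 430890) (nat_lit 0) .nil) .nil))) 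
(.lf (nat_lit 604942) (.g (nat_lit 1592) (.e (nat_lit 778320) (nat_lit 4) (.e (nat_lit 65630) (nat_lit 14) (.e (nat_lit 401438) (nat_lit 9) (.e (nat_lit 426516) (nat_lit 27) .nil)))) (.g (nat_lit 0) (.e (nat_lit 431566) (nat_lit 0) .nil) .nil))))) (.nd (nat_lit 8) (.nd (nat_lit 9) 
(.lf (nat_lit 604302) (.g (nat_lit 3064) (.e (nat_lit 761899) (nat_lit 15) (.e (nat_lit 163978) (nat_lit 30) (.e (nat_lit 573489) (nat_lit 14) (.e (nat_lit 73755) (nat_lit 8) (.e (nat_lit 557104) (nat_lit 14) (.e (nat_lit 180244) (nat_lit 5) (.e (nat_lit 532490) (nat_lit 0) (.e (nat_lit 2264) (nat_lit 149) .nil)))))))) (.g (nat_lit 1) (.e (nat_lit 429035) (nat_lit 0) .nil) .nil))) 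
(.lf (nat_lit 604814) (.g (nat_lit 3418) (.e (nat_lit 778318) (nat_lit 3) (.e (nat_lit 57476) (nat_lit 28) (.e (nat_lit 557107) (nat_lit 15) (.e (nat_lit 188450) (nat_lit 23) (.e (nat_lit 204855) (nat_lit 26) (.e (nat_lit 336295) (nat_lit 15) (.e (nat_lit 3629) (nat_lit 227) .nil))))))) (.g (nat_lit 1) (.e (nat_lit 431432) (nat_lit 0) .nil) .nil)))) (.nd (nat_lit 9) 
(.lf (nat_lit 604558) (.g (nat_lit 2607) (.e (nat_lit 770072) (nat_lit 8) (.e (nat_lit 65586) (nat_lit 7) (.e (nat_lit 319531) (nat_lit 16) (.e (nat_lit 286759) (nat_lit 12) (.e (nat_lit 385094) (nat_lit 49) (.e (nat_lit 778548) (nat_lit 14) (.e (nat_lit 992) (nat_lit 81) (.e (nat_lit 852) (nat_lit 74) .nil)))))))) (.g (nat_lit 1) (.e (nat_lit 431023) (nat_lit 0) .nil) .nil))) 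
(.lf (nat_lit 605070) (.g (nat_lit 868) (.e (nat_lit 778323) (nat_lit 5) (.e (nat_lit 73782) (nat_lit 32) (.e (nat_lit 3089) (nat_lit 191) (.e (nat_lit 483379) (nat_lit 23) .nil)))) (.g (nat_lit 0) (.e (nat_lit 431704) (nat_lit 0) .nil) .nil)))))) (.nd (nat_lit 7) (.nd (nat_lit 8) (.nd (nat_lit 9) 
(.lf (nat_lit 604238) (.g (nat_lit 2606) (.e (nat_lit 761899) (nat_lit 15) (.e (nat_lit 163977) (nat_lit 30) (.e (nat_lit 573489) (nat_lit 14) (.e (nat_lit 73754) (nat_lit 8) (.e (nat_lit 557100) (nat_lit 13) (.e (nat_lit 172067) (nat_lit 3) (.e (nat_lit 204816) (nat_lit 17) (.e (nat_lit 2273) (nat_lit 149) .nil)))))))) (.g (nat_lit 1) (.e (nat_lit 428900) (nat_lit 0) .nil) .nil))) 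
(.lf (nat_lit 604750) (.g (nat_lit 2543) (.e (nat_lit 778318) (nat_lit 3) (.e (nat_lit 57476) (nat_lit 28) (.e (nat_lit 557097) (nat_lit 13) (.e (nat_lit 172115) (nat_lit 10) (.e (nat_lit 434231) (nat_lit 23) (.e (nat_lit 532532) (nat_lit 9) (.e (nat_lit 336306) (nat_lit 15) (.e (nat_lit 3619) (nat_lit 227) .nil)))))))) (.g (nat_lit 1) (.e (nat_lit 431366) (nat_lit 0) .nil) .nil)))) 
(.nd (nat_lit 9) 
(.lf (nat_lit 604494) (.g (nat_lit 2772) (.e (nat_lit 770072) (nat_lit 8) (.e (nat_lit 65583) (nat_lit 7) (.e (nat_lit 319530) (nat_lit 16) (.e (nat_lit 286743) (nat_lit 9) (.e (nat_lit 336337) (nat_lit 20) (.e (nat_lit 221195) (nat_lit 20) (.e (nat_lit 3606) (nat_lit 226) .nil))))))) (.g (nat_lit 1) (.e (nat_lit 430958) (nat_lit 0) .nil) .nil))) 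
(.lf (nat_lit 605006) (.g (nat_lit 1723) (.e (nat_lit 778323) (nat_lit 5) (.e (nat_lit 73781) (nat_lit 32) (.e (nat_lit 3088) (nat_lit 191) (.e (nat_lit 483405) (nat_lit 26) (.e (nat_lit 385091) (nat_lit 49) .nil))))) (.g (nat_lit 1) (.e (nat_lit 431640) (nat_lit 0) .nil) .nil))))) (.nd (nat_lit 8) (.nd (nat_lit 9) 
(.lf (nat_lit 604366) (.g (nat_lit 1817) (.e (nat_lit 761910) (nat_lit 17) (.e (nat_lit 180252) (nat_lit 10) (.e (nat_lit 573451) (nat_lit 9) (.e (nat_lit 1667) (nat_lit 116) .nil)))) (.g (nat_lit 0) (.e (nat_lit 430424) (nat_lit 0) .nil) .nil))) 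
(.lf (nat_lit 604878) (.g (nat_lit 2856) (.e (nat_lit 778318) (nat_lit 3) (.e (nat_lit 57476) (nat_lit 28) (.e (nat_lit 557108) (nat_lit 15) (.e (nat_lit 188452) (nat_lit 23) (.e (nat_lit 204853) (nat_lit 26) .nil))))) (.g (nat_lit 0) (.e (nat_lit 431496) (nat_lit 0) .nil) .nil)))) (.nd (nat_lit 9) 
(.lf (nat_lit 604622) (.g (nat_lit 3646) (.e (nat_lit 770073) (nat_lit 9) (.e (nat_lit 73746) (nat_lit 3) (.e (nat_lit 516166) (nat_lit 12) (.e (nat_lit 450587) (nat_lit 10) (.e (nat_lit 573477) (nat_lit 12) .nil))))) (.g (nat_lit 0) (.e (nat_lit 431093) (nat_lit 0) .nil) .nil))) 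
(.lf (nat_lit 605134) (.g (nat_lit 2220) (.e (nat_lit 778324) (nat_lit 5) (.e (nat_lit 73781) (nat_lit 32) (.e (nat_lit 3090) (nat_lit 191) (.e (nat_lit 483380) (nat_lit 23) (.e (nat_lit 336257) (nat_lit 15) (.e (nat_lit 3624) (nat_lit 227) .nil)))))) (.g (nat_lit 1) (.e (nat_lit 431772) (nat_lit 0) .nil) .nil))))))) (.nd (nat_lit 6) (.nd (nat_lit 7) (.nd (nat_lit 8) (.nd (nat_lit 9) 
(.lf (nat_lit 604206) (.g (nat_lit 4467) (.e (nat_lit 761898) (nat_lit 15) (.e (nat_lit 163979) (nat_lit 30) (.e (nat_lit 573489) (nat_lit 14) (.e (nat_lit 73755) (nat_lit 8) (.e (nat_lit 557097) (nat_lit 13) (.e (nat_lit 172067) (nat_lit 3) (.e (nat_lit 204817) (nat_lit 17) (.e (nat_lit 7936) (nat_lit 149) .nil)))))))) (.g (nat_lit 1) (.e (nat_lit 428792) (nat_lit 0) .nil) .nil))) 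
(.lf (nat_lit 604718) (.g (nat_lit 4371) (.e (nat_lit 778318) (nat_lit 3) (.e (nat_lit 57476) (nat_lit 28) (.e (nat_lit 557097) (nat_lit 13) (.e (nat_lit 172097) (nat_lit 9) (.e (nat_lit 426140) (nat_lit 3) (.e (nat_lit 204855) (nat_lit 26) (.e (nat_lit 336295) (nat_lit 15) (.e (nat_lit 3629) (nat_lit 227) .nil)))))))) (.g (nat_lit 1) (.e (nat_lit 431334) (nat_lit 0) .nil) .nil)))) 
(.nd (nat_lit 9) 
(.lf (nat_lit 604462) (.g (nat_lit 4239) (.e (nat_lit 770071) (nat_lit 8) (.e (nat_lit 65629) (nat_lit 14) (.e (nat_lit 401454) (nat_lit 12) (.e (nat_lit 475214) (nat_lit 42) (.e (nat_lit 720955) (nat_lit 25) .nil))))) (.g (nat_lit 0) (.e (nat_lit 430922) (nat_lit 0) .nil) .nil))) 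
(.lf (nat_lit 604974) (.g (nat_lit 2554) (.e (nat_lit 778321) (nat_lit 4) (.e (nat_lit 65628) (nat_lit 14) (.e (nat_lit 401458) (nat_lit 13) (.e (nat_lit 483406) (nat_lit 26) (.e (nat_lit 385091) (nat_lit 49) .nil))))) (.g (nat_lit 0) (.e (nat_lit 431598) (nat_lit 0) .nil) .nil))))) (.nd (nat_lit 8) (.nd (nat_lit 9) 
(.lf (nat_lit 604334) (.g (nat_lit 4289) (.e (nat_lit 761899) (nat_lit 15) (.e (nat_lit 163979) (nat_lit 30) (.e (nat_lit 573489) (nat_lit 14) (.e (nat_lit 73755) (nat_lit 8) (.e (nat_lit 557098) (nat_lit 13) (.e (nat_lit 172065) (nat_lit 3) (.e (nat_lit 204817) (nat_lit 17) (.e (nat_lit 7936) (nat_lit 149) .nil)))))))) (.g (nat_lit 1) (.e (nat_lit 429112) (nat_lit 0) .nil) .nil))) 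
(.lf (nat_lit 604846) (.g (nat_lit 4298) (.e (nat_lit 778318) (nat_lit 3) (.e (nat_lit 57476) (nat_lit 28) (.e (nat_lit 557108) (nat_lit 15) (.e (nat_lit 188452) (nat_lit 23) (.e (nat_lit 204852) (nat_lit 26) (.e (nat_lit 336257) (nat_lit 15) (.e (nat_lit 3622) (nat_lit 227) .nil))))))) (.g (nat_lit 1) (.e (nat_lit 431464) (nat_lit 0) .nil) .nil)))) (.nd (nat_lit 9) 
(.lf (nat_lit 604590) (.g (nat_lit 1147) (.e (nat_lit 770072) (nat_lit 8) (.e (nat_lit 65619) (nat_lit 10) (.e (nat_lit 344090) (nat_lit 18) (.e (nat_lit 7132) (nat_lit 382) .nil)))) (.g (nat_lit 0) (.e (nat_lit 431057) (nat_lit 0) .nil) .nil))) 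
(.lf (nat_lit 605102) (.g (nat_lit 1173) (.e (nat_lit 778324) (nat_lit 5) (.e (nat_lit 73781) (nat_lit 32) (.e (nat_lit 2854) (nat_lit 184) (.e (nat_lit 426542) (nat_lit 29) (.e (nat_lit 352267) (nat_lit 0) .nil))))) (.g (nat_lit 0) (.e (nat_lit 431740) (nat_lit 0) .nil) .nil)))))) (.nd (nat_lit 7) (.nd (nat_lit 8) (.nd (nat_lit 9) 
(.lf (nat_lit 604270) (.g (nat_lit 2125) (.e (nat_lit 761899) (nat_lit 15) (.e (nat_lit 163978) (nat_lit 30) (.e (nat_lit 573489) (nat_lit 14) (.e (nat_lit 73754) (nat_lit 8) (.e (nat_lit 557095) (nat_lit 13) (.e (nat_lit 172067) (nat_lit 3) (.e (nat_lit 204817) (nat_lit 17) (.e (nat_lit 2272) (nat_lit 149) .nil)))))))) (.g (nat_lit 1) (.e (nat_lit 428998) (nat_lit 0) .nil) .nil))) 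
(.lf (nat_lit 604782) (.g (nat_lit 3009) (.e (nat_lit 778318) (nat_lit 3) (.e (nat_lit 57476) (nat_lit 28) (.e (nat_lit 557107) (nat_lit 15) (.e (nat_lit 188450) (nat_lit 23) (.e (nat_lit 204852) (nat_lit 26) (.e (nat_lit 336257) (nat_lit 15) (.e (nat_lit 3670) (nat_lit 227) .nil))))))) (.g (nat_lit 1) (.e (nat_lit 431400) (nat_lit 0) .nil) .nil)))) (.nd (nat_lit 9) 
(.lf (nat_lit 604526) (.g (nat_lit 3269) (.e (nat_lit 770072) (nat_lit 8) (.e (nat_lit 65583) (nat_lit 7) (.e (nat_lit 319530) (nat_lit 16) (.e (nat_lit 286759) (nat_lit 12) (.e (nat_lit 385115) (nat_lit 53) (.e (nat_lit 811042) (nat_lit 11) (.e (nat_lit 7936) (nat_lit 74) .nil))))))) (.g (nat_lit 1) (.e (nat_lit 430990) (nat_lit 0) .nil) .nil))) 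
(.lf (nat_lit 605038) (.g (nat_lit 1151) (.e (nat_lit 778323) (nat_lit 5) (.e (nat_lit 73781) (nat_lit 32) (.e (nat_lit 3090) (nat_lit 191) (.e (nat_lit 483381) (nat_lit 23) .nil)))) (.g (nat_lit 0) (.e (nat_lit 431672) (nat_lit 0) .nil) .nil))))) (.nd (nat_lit 8) (.nd (nat_lit 9) 
(.lf (nat_lit 604398) (.g (nat_lit 1863) (.e (nat_lit 770071) (nat_lit 8) (.e (nat_lit 65583) (nat_lit 7) (.e (nat_lit 319530) (nat_lit 16) (.e (nat_lit 286748) (nat_lit 9) (.e (nat_lit 335925) (nat_lit 0) .nil))))) (.g (nat_lit 0) (.e (nat_lit 430852) (nat_lit 0) .nil) .nil))) 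
(.lf (nat_lit 604910) (.g (nat_lit 2503) (.e (nat_lit 786176) (nat_lit 3) (.e (nat_lit 57480) (nat_lit 28) (.e (nat_lit 557108) (nat_lit 15) (.e (nat_lit 188452) (nat_lit 23) (.e (nat_lit 204880) (nat_lit 32) .nil))))) (.g (nat_lit 0) (.e (nat_lit 431531) (nat_lit 0) .nil) .nil)))) (.nd (nat_lit 9) 
(.lf (nat_lit 604654) (.g (nat_lit 2644) (.e (nat_lit 778316) (nat_lit 3) (.e (nat_lit 57477) (nat_lit 28) (.e (nat_lit 557108) (nat_lit 15) (.e (nat_lit 188452) (nat_lit 23) (.e (nat_lit 204855) (nat_lit 26) (.e (nat_lit 336290) (nat_lit 15) (.e (nat_lit 3716) (nat_lit 227) .nil))))))) (.g (nat_lit 1) (.e (nat_lit 431249) (nat_lit 0) .nil) .nil))) 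
(.lf (nat_lit 605166) (.g (nat_lit 437) (.e (nat_lit 786176) (nat_lit 5) (.e (nat_lit 73782) (nat_lit 32) (.e (nat_lit 3087) (nat_lit 191) .nil))) (.g (nat_lit 0) (.e (nat_lit 431804) (nat_lit 0) .nil) .nil)))))))) (.nd (nat_lit 5) (.nd (nat_lit 6) (.nd (nat_lit 7) (.nd (nat_lit 8) (.nd (nat_lit 9) 
(.lf (nat_lit 604190) (.g (nat_lit 1275) (.e (nat_lit 761898) (nat_lit 15) (.e (nat_lit 163979) (nat_lit 30) (.e (nat_lit 573489) (nat_lit 14) (.e (nat_lit 73755) (nat_lit 8) .nil)))) (.g (nat_lit 0) (.e (nat_lit 428771) (nat_lit 0) .nil) .nil))) 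
(.lf (nat_lit 604702) (.g (nat_lit 1830) (.e (nat_lit 778317) (nat_lit 3) (.e (nat_lit 57480) (nat_lit 28) (.e (nat_lit 557067) (nat_lit 9) (.e (nat_lit 3022) (nat_lit 187) .nil)))) (.g (nat_lit 0) (.e (nat_lit 431299) (nat_lit 0) .nil) .nil)))) (.nd (nat_lit 9) 
(.lf (nat_lit 604446) (.g (nat_lit 2012) (.e (nat_lit 770071) (nat_lit 8) (.e (nat_lit 65619) (nat_lit 10) (.e (nat_lit 344090) (nat_lit 18) (.e (nat_lit 7266) (nat_lit 384) (.e (nat_lit 57409) (nat_lit 12) (.e (nat_lit 336182) (nat_lit 11) (.e (nat_lit 368698) (nat_lit 43) .nil))))))) (.g (nat_lit 1) (.e (nat_lit 430906) (nat_lit 0) .nil) .nil))) 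
(.lf (nat_lit 604958) (.g (nat_lit 1531) (.e (nat_lit 778320) (nat_lit 4) (.e (nat_lit 65630) (nat_lit 14) (.e (nat_lit 401458) (nat_lit 13) (.e (nat_lit 483402) (nat_lit 26) (.e (nat_lit 385092) (nat_lit 49) .nil))))) (.g (nat_lit 0) (.e (nat_lit 431582) (nat_lit 0) .nil) .nil))))) (.nd (nat_lit 8) (.nd (nat_lit 9) 
(.lf (nat_lit 604318) (.g (nat_lit 3315) (.e (nat_lit 761899) (nat_lit 15) (.e (nat_lit 163979) (nat_lit 30) (.e (nat_lit 573489) (nat_lit 14) (.e (nat_lit 73754) (nat_lit 8) (.e (nat_lit 557101) (nat_lit 13) (.e (nat_lit 172065) (nat_lit 3) (.e (nat_lit 204817) (nat_lit 17) (.e (nat_lit 2272) (nat_lit 149) .nil)))))))) (.g (nat_lit 1) (.e (nat_lit 429091) (nat_lit 0) .nil) .nil))) 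
(.lf (nat_lit 604830) (.g (nat_lit 3048) (.e (nat_lit 778318) (nat_lit 3) (.e (nat_lit 57476) (nat_lit 28) (.e (nat_lit 557108) (nat_lit 15) (.e (nat_lit 188452) (nat_lit 23) (.e (nat_lit 204851) (nat_lit 26) (.e (nat_lit 336265) (nat_lit 15) (.e (nat_lit 3629) (nat_lit 227) .nil))))))) (.g (nat_lit 1) (.e (nat_lit 431448) (nat_lit 0) .nil) .nil)))) (.nd (nat_lit 9) 
(.lf (nat_lit 604574) (.g (nat_lit 2701) (.e (nat_lit 770072) (nat_lit 8) (.e (nat_lit 65610) (nat_lit 10) (.e (nat_lit 344090) (nat_lit 18) (.e (nat_lit 7265) (nat_lit 384) (.e (nat_lit 57406) (nat_lit 12) (.e (nat_lit 336182) (nat_lit 11) (.e (nat_lit 368698) (nat_lit 43) .nil))))))) (.g (nat_lit 1) (.e (nat_lit 431041) (nat_lit 0) .nil) .nil))) 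
(.lf (nat_lit 605086) (.g (nat_lit 1699) (.e (nat_lit 778323) (nat_lit 5) (.e (nat_lit 73782) (nat_lit 32) (.e (nat_lit 3090) (nat_lit 191) (.e (nat_lit 483380) (nat_lit 23) (.e (nat_lit 336261) (nat_lit 15) .nil))))) (.g (nat_lit 0) (.e (nat_lit 431720) (nat_lit 0) .nil) .nil)))))) (.nd (nat_lit 7) (.nd (nat_lit 8) (.nd (nat_lit 9) 
(.lf (nat_lit 604254) (.g (nat_lit 2007) (.e (nat_lit 761899) (nat_lit 15) (.e (nat_lit 163977) (nat_lit 30) (.e (nat_lit 573489) (nat_lit 14) (.e (nat_lit 73755) (nat_lit 8) (.e (nat_lit 557097) (nat_lit 13) (.e (nat_lit 172066) (nat_lit 3) (.e (nat_lit 204824) (nat_lit 17) (.e (nat_lit 2264) (nat_lit 149) .nil)))))))) (.g (nat_lit 1) (.e (nat_lit 428921) (nat_lit 0) .nil) .nil))) 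
(.lf (nat_lit 604766) (.g (nat_lit 3025) (.e (nat_lit 778318) (nat_lit 3) (.e (nat_lit 57476) (nat_lit 28) (.e (nat_lit 557107) (nat_lit 15) (.e (nat_lit 188450) (nat_lit 23) (.e (nat_lit 204852) (nat_lit 26) (.e (nat_lit 336240) (nat_lit 15) (.e (nat_lit 3624) (nat_lit 227) .nil))))))) (.g (nat_lit 1) (.e (nat_lit 431384) (nat_lit 0) .nil) .nil)))) (.nd (nat_lit 9) 
(.lf (nat_lit 604510) (.g (nat_lit 1167) (.e (nat_lit 770072) (nat_lit 8) (.e (nat_lit 65583) (nat_lit 7) (.e (nat_lit 319530) (nat_lit 16) (.e (nat_lit 286759) (nat_lit 12) .nil)))) (.g (nat_lit 0) (.e (nat_lit 430974) (nat_lit 0) .nil) .nil))) 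
(.lf (nat_lit 605022) (.g (nat_lit 1808) (.e (nat_lit 778323) (nat_lit 5) (.e (nat_lit 73781) (nat_lit 32) (.e (nat_lit 3090) (nat_lit 191) (.e (nat_lit 483380) (nat_lit 23) (.e (nat_lit 336257) (nat_lit 15) .nil))))) (.g (nat_lit 0) (.e (nat_lit 431656) (nat_lit 0) .nil) .nil))))) (.nd (nat_lit 8) (.nd (nat_lit 9) 
(.lf (nat_lit 604382) (.g (nat_lit 5278) (.e (nat_lit 770071) (nat_lit 8) (.e (nat_lit 65568) (nat_lit 2) (.e (nat_lit 90170) (nat_lit 13) (.e (nat_lit 172113) (nat_lit 10) (.e (nat_lit 434242) (nat_lit 28) (.e (nat_lit 573474) (nat_lit 12) (.e (nat_lit 57572) (nat_lit 54) .nil))))))) (.g (nat_lit 1) (.e (nat_lit 430835) (nat_lit 0) .nil) .nil))) 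
(.lf (nat_lit 604894) (.g (nat_lit 5143) (.e (nat_lit 778318) (nat_lit 3) (.e (nat_lit 57478) (nat_lit 28) (.e (nat_lit 557100) (nat_lit 13) (.e (nat_lit 172106) (nat_lit 10) (.e (nat_lit 434231) (nat_lit 23) (.e (nat_lit 532535) (nat_lit 9) (.e (nat_lit 336295) (nat_lit 15) (.e (nat_lit 3631) (nat_lit 227) .nil)))))))) (.g (nat_lit 1) (.e (nat_lit 431512) (nat_lit 0) .nil) .nil)))) 
(.nd (nat_lit 9) 
(.lf (nat_lit 604638) (.g (nat_lit 1545) (.e (nat_lit 778273) (nat_lit 0) (.e (nat_lit 1656) (nat_lit 115) (.e (nat_lit 393234) (nat_lit 17) (.e (nat_lit 2399) (nat_lit 157) .nil)))) (.g (nat_lit 0) (.e (nat_lit 431225) (nat_lit 0) .nil) .nil))) 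
(.lf (nat_lit 605150) (.g (nat_lit 2441) (.e (nat_lit 778324) (nat_lit 5) (.e (nat_lit 73781) (nat_lit 32) (.e (nat_lit 3090) (nat_lit 191) (.e (nat_lit 483383) (nat_lit 23) (.e (nat_lit 336240) (nat_lit 15) .nil))))) (.g (nat_lit 0) (.e (nat_lit 431788) (nat_lit 0) .nil) .nil))))))) (.nd (nat_lit 6) (.nd (nat_lit 7) (.nd (nat_lit 8) (.nd (nat_lit 9) 
(.lf (nat_lit 604222) (.g (nat_lit 3412) (.e (nat_lit 761898) (nat_lit 15) (.e (nat_lit 163979) (nat_lit 30) (.e (nat_lit 573489) (nat_lit 14) (.e (nat_lit 73755) (nat_lit 8) (.e (nat_lit 557104) (nat_lit 14) (.e (nat_lit 180242) (nat_lit 5) (.e (nat_lit 532481) (nat_lit 0) (.e (nat_lit 2271) (nat_lit 149) .nil)))))))) (.g (nat_lit 1) (.e (nat_lit 428811) (nat_lit 0) .nil) .nil))) 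
(.lf (nat_lit 604734) (.g (nat_lit 2733) (.e (nat_lit 778318) (nat_lit 3) (.e (nat_lit 57476) (nat_lit 28) (.e (nat_lit 557097) (nat_lit 13) (.e (nat_lit 172115) (nat_lit 10) (.e (nat_lit 434231) (nat_lit 23) (.e (nat_lit 532528) (nat_lit 9) (.e (nat_lit 336303) (nat_lit 15) (.e (nat_lit 3620) (nat_lit 227) .nil)))))))) (.g (nat_lit 1) (.e (nat_lit 431350) (nat_lit 0) .nil) .nil)))) 
(.nd (nat_lit 9) 
(.lf (nat_lit 604478) (.g (nat_lit 2641) (.e (nat_lit 770072) (nat_lit 8) (.e (nat_lit 65570) (nat_lit 3) (.e (nat_lit 98373) (nat_lit 29) (.e (nat_lit 450588) (nat_lit 10) (.e (nat_lit 573473) (nat_lit 12) .nil))))) (.g (nat_lit 0) (.e (nat_lit 430942) (nat_lit 0) .nil) .nil))) 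
(.lf (nat_lit 604990) (.g (nat_lit 2252) (.e (nat_lit 778323) (nat_lit 5) (.e (nat_lit 73781) (nat_lit 32) (.e (nat_lit 2856) (nat_lit 184) (.e (nat_lit 426482) (nat_lit 27) (.e (nat_lit 336198) (nat_lit 12) .nil))))) (.g (nat_lit 0) (.e (nat_lit 431624) (nat_lit 0) .nil) .nil))))) (.nd (nat_lit 8) (.nd (nat_lit 9) 
(.lf (nat_lit 604350) (.g (nat_lit 2798) (.e (nat_lit 761899) (nat_lit 15) (.e (nat_lit 163979) (nat_lit 30) (.e (nat_lit 573489) (nat_lit 14) (.e (nat_lit 73755) (nat_lit 8) (.e (nat_lit 557104) (nat_lit 14) (.e (nat_lit 180244) (nat_lit 5) (.e (nat_lit 532485) (nat_lit 0) (.e (nat_lit 2272) (nat_lit 149) .nil)))))))) (.g (nat_lit 1) (.e (nat_lit 429129) (nat_lit 0) .nil) .nil))) 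
(.lf (nat_lit 604862) (.g (nat_lit 4011) (.e (nat_lit 778318) (nat_lit 3) (.e (nat_lit 57476) (nat_lit 28) (.e (nat_lit 557108) (nat_lit 15) (.e (nat_lit 188452) (nat_lit 23) (.e (nat_lit 204852) (nat_lit 26) (.e (nat_lit 336261) (nat_lit 15) (.e (nat_lit 3617) (nat_lit 227) .nil))))))) (.g (nat_lit 1) (.e (nat_lit 431480) (nat_lit 0) .nil) .nil)))) (.nd (nat_lit 9) 
(.lf (nat_lit 604606) (.g (nat_lit 2393) (.e (nat_lit 770072) (nat_lit 8) (.e (nat_lit 65629) (nat_lit 14) (.e (nat_lit 401454) (nat_lit 12) (.e (nat_lit 475212) (nat_lit 42) .nil)))) (.g (nat_lit 0) (.e (nat_lit 431074) (nat_lit 0) .nil) .nil))) 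
(.lf (nat_lit 605118) (.g (nat_lit 1207) (.e (nat_lit 778324) (nat_lit 5) (.e (nat_lit 73781) (nat_lit 32) (.e (nat_lit 3089) (nat_lit 191) (.e (nat_lit 483391) (nat_lit 23) (.e (nat_lit 336276) (nat_lit 15) .nil))))) (.g (nat_lit 0) (.e (nat_lit 431756) (nat_lit 0) .nil) .nil)))))) (.nd (nat_lit 7) (.nd (nat_lit 8) (.nd (nat_lit 9) 
(.lf (nat_lit 604286) (.g (nat_lit 4584) (.e (nat_lit 761899) (nat_lit 15) (.e (nat_lit 163978) (nat_lit 30) (.e (nat_lit 573489) (nat_lit 14) (.e (nat_lit 73755) (nat_lit 8) (.e (nat_lit 557098) (nat_lit 13) (.e (nat_lit 172065) (nat_lit 3) (.e (nat_lit 204817) (nat_lit 17) (.e (nat_lit 7936) (nat_lit 149) .nil)))))))) (.g (nat_lit 1) (.e (nat_lit 429018) (nat_lit 0) .nil) .nil))) 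
(.lf (nat_lit 604798) (.g (nat_lit 2098) (.e (nat_lit 778318) (nat_lit 3) (.e (nat_lit 57476) (nat_lit 28) (.e (nat_lit 557107) (nat_lit 15) (.e (nat_lit 188450) (nat_lit 23) (.e (nat_lit 204852) (nat_lit 26) (.e (nat_lit 336260) (nat_lit 15) (.e (nat_lit 3621) (nat_lit 227) .nil))))))) (.g (nat_lit 1) (.e (nat_lit 431416) (nat_lit 0) .nil) .nil)))) (.nd (nat_lit 9) 
(.lf (nat_lit 604542) (.g (nat_lit 2460) (.e (nat_lit 770072) (nat_lit 8) (.e (nat_lit 65586) (nat_lit 7) (.e (nat_lit 319531) (nat_lit 16) (.e (nat_lit 286748) (nat_lit 9) (.e (nat_lit 336295) (nat_lit 15) (.e (nat_lit 3806) (nat_lit 231) (.e (nat_lit 811033) (nat_lit 11) (.e (nat_lit 7936) (nat_lit 74) .nil)))))))) (.g (nat_lit 1) (.e (nat_lit 431006) (nat_lit 0) .nil) .nil))) 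
(.lf (nat_lit 605054) (.g (nat_lit 1185) (.e (nat_lit 778323) (nat_lit 5) (.e (nat_lit 73782) (nat_lit 32) (.e (nat_lit 2856) (nat_lit 184) (.e (nat_lit 426509) (nat_lit 27) .nil)))) (.g (nat_lit 0) (.e (nat_lit 431688) (nat_lit 0) .nil) .nil))))) (.nd (nat_lit 8) (.nd (nat_lit 9) 
(.lf (nat_lit 604414) (.g (nat_lit 1916) (.e (nat_lit 770071) (nat_lit 8) (.e (nat_lit 65586) (nat_lit 7) (.e (nat_lit 319531) (nat_lit 16) (.e (nat_lit 286748) (nat_lit 9) (.e (nat_lit 336295) (nat_lit 15) (.e (nat_lit 3757) (nat_lit 229) (.e (nat_lit 794645) (nat_lit 20) (.e (nat_lit 3610) (nat_lit 226) .nil)))))))) (.g (nat_lit 1) (.e (nat_lit 430868) (nat_lit 0) .nil) .nil))) 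
(.lf (nat_lit 604926) (.g (nat_lit 680) (.e (nat_lit 778320) (nat_lit 4) (.e (nat_lit 65628) (nat_lit 14) (.e (nat_lit 401437) (nat_lit 9) .nil))) (.g (nat_lit 0) (.e (nat_lit 431550) (nat_lit 0) .nil) .nil)))) (.nd (nat_lit 9) 
(.lf (nat_lit 604670) (.g (nat_lit 1747) (.e (nat_lit 778316) (nat_lit 3) (.e (nat_lit 57480) (nat_lit 28) (.e (nat_lit 557107) (nat_lit 15) (.e (nat_lit 188450) (nat_lit 23) (.e (nat_lit 204855) (nat_lit 26) .nil))))) (.g (nat_lit 0) (.e (nat_lit 431265) (nat_lit 0) .nil) .nil))) 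
(.lf (nat_lit 605182) (.g (nat_lit 1757) (.e (nat_lit 778325) (nat_lit 6) (.e (nat_lit 81948) (nat_lit 21) (.e (nat_lit 57849) (nat_lit 252) (.e (nat_lit 57390) (nat_lit 5) (.e (nat_lit 122624) (nat_lit 17) .nil))))) (.g (nat_lit 0) (.e (nat_lit 431820) (nat_lit 0) .nil) .nil)))))))))))) 
(.nd (nat_lit 1) (.nd (nat_lit 2) (.nd (nat_lit 3) (.nd (nat_lit 4) (.nd (nat_lit 5) 
(.nd (nat_lit 6) (.nd (nat_lit 7) (.nd (nat_lit 8) (.nd (nat_lit 9) 
(.lf (nat_lit 604161) (.g (nat_lit 2742) (.e (nat_lit 761898) (nat_lit 15) (.e (nat_lit 163979) (nat_lit 30) (.e (nat_lit 573487) (nat_lit 14) (.e (nat_lit 73753) (nat_lit 8) (.e (nat_lit 557101) (nat_lit 13) (.e (nat_lit 172066) (nat_lit 3) (.e (nat_lit 204821) (nat_lit 17) (.e (nat_lit 2270) (nat_lit 149) .nil)))))))) (.g (nat_lit 1) (.e (nat_lit 428741) (nat_lit 0) .nil) .nil))) 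
(.lf (nat_lit 604673) (.g (nat_lit 2977) (.e (nat_lit 778316) (nat_lit 3) (.e (nat_lit 57480) (nat_lit 28) (.e (nat_lit 557108) (nat_lit 15) (.e (nat_lit 188452) (nat_lit 23) (.e (nat_lit 204852) (nat_lit 26) .nil))))) (.g (nat_lit 0) (.e (nat_lit 431268) (nat_lit 0) .nil) .nil)))) (.nd (nat_lit 9) 
(.lf (nat_lit 604417) (.g (nat_lit 1963) (.e (nat_lit 770071) (nat_lit 8) (.e (nat_lit 65586) (nat_lit 7) (.e (nat_lit 319531) (nat_lit 16) (.e (nat_lit 286752) (nat_lit 10) .nil)))) (.g (nat_lit 0) (.e (nat_lit 430871) (nat_lit 0) .nil) .nil))) 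
(.lf (nat_lit 604929) (.g (nat_lit 1536) (.e (nat_lit 778320) (nat_lit 4) (.e (nat_lit 65628) (nat_lit 14) (.e (nat_lit 401458) (nat_lit 13) (.e (nat_lit 483403) (nat_lit 26) .nil)))) (.g (nat_lit 0) (.e (nat_lit 431553) (nat_lit 0) .nil) .nil))))) (.nd (nat_lit 8) (.nd (nat_lit 9) 
(.lf (nat_lit 604289) (.g (nat_lit 3395) (.e (nat_lit 761899) (nat_lit 15) (.e (nat_lit 163978) (nat_lit 30) (.e (nat_lit 573489) (nat_lit 14) (.e (nat_lit 73755) (nat_lit 8) (.e (nat_lit 557098) (nat_lit 13) (.e (nat_lit 172066) (nat_lit 3) (.e (nat_lit 204817) (nat_lit 17) (.e (nat_lit 7936) (nat_lit 149) .nil)))))))) (.g (nat_lit 1) (.e (nat_lit 429021) (nat_lit 0) .nil) .nil))) 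
(.lf (nat_lit 604801) (.g (nat_lit 3747) (.e (nat_lit 778318) (nat_lit 3) (.e (nat_lit 57476) (nat_lit 28) (.e (nat_lit 557107) (nat_lit 15) (.e (nat_lit 188450) (nat_lit 23) (.e (nat_lit 204852) (nat_lit 26) (.e (nat_lit 336303) (nat_lit 15) (.e (nat_lit 3618) (nat_lit 227) .nil))))))) (.g (nat_lit 1) (.e (nat_lit 431419) (nat_lit 0) .nil) .nil)))) (.nd (nat_lit 9) 
(.lf (nat_lit 604545) (.g (nat_lit 1657) (.e (nat_lit 770072) (nat_lit 8) (.e (nat_lit 65586) (nat_lit 7) (.e (nat_lit 319531) (nat_lit 16) (.e (nat_lit 286751) (nat_lit 10) .nil)))) (.g (nat_lit 0) (.e (nat_lit 431009) (nat_lit 0) .nil) .nil))) 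
(.lf (nat_lit 605057) (.g (nat_lit 2348) (.e (nat_lit 778323) (nat_lit 5) (.e (nat_lit 73782) (nat_lit 32) (.e (nat_lit 2856) (nat_lit 184) (.e (nat_lit 426540) (nat_lit 29) (.e (nat_lit 352265) (nat_lit 0) .nil))))) (.g (nat_lit 0) (.e (nat_lit 431691) (nat_lit 0) .nil) .nil)))))) (.nd (nat_lit 7) (.nd (nat_lit 8) (.nd (nat_lit 9) 
(.lf (nat_lit 604225) (.g (nat_lit 3008) (.e (nat_lit 761898) (nat_lit 15) (.e (nat_lit 163979) (nat_lit 30) (.e (nat_lit 573489) (nat_lit 14) (.e (nat_lit 73755) (nat_lit 8) (.e (nat_lit 557104) (nat_lit 14) (.e (nat_lit 180243) (nat_lit 5) (.e (nat_lit 532484) (nat_lit 0) (.e (nat_lit 7936) (nat_lit 149) .nil)))))))) (.g (nat_lit 1) (.e (nat_lit 428814) (nat_lit 0) .nil) .nil))) 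
(.lf (nat_lit 604737) (.g (nat_lit 3377) (.e (nat_lit 778318) (nat_lit 3) (.e (nat_lit 57476) (nat_lit 28) (.e (nat_lit 557097) (nat_lit 13) (.e (nat_lit 172115) (nat_lit 10) (.e (nat_lit 434231) (nat_lit 23) (.e (nat_lit 532528) (nat_lit 9) (.e (nat_lit 336306) (nat_lit 15) (.e (nat_lit 3620) (nat_lit 227) .nil)))))))) (.g (nat_lit 1) (.e (nat_lit 431353) (nat_lit 0) .nil) .nil)))) 
(.nd (nat_lit 9) 
(.lf (nat_lit 604481) (.g (nat_lit 776) (.e (nat_lit 770072) (nat_lit 8) (.e (nat_lit 65571) (nat_lit 3) (.e (nat_lit 98356) (nat_lit 26) .nil))) (.g (nat_lit 0) (.e (nat_lit 430945) (nat_lit 0) .nil) .nil))) 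
(.lf (nat_lit 604993) (.g (nat_lit 2220) (.e (nat_lit 778323) (nat_lit 5) (.e (nat_lit 73781) (nat_lit 32) (.e (nat_lit 2856) (nat_lit 184) (.e (nat_lit 426540) (nat_lit 29) (.e (nat_lit 352260) (nat_lit 0) .nil))))) (.g (nat_lit 0) (.e (nat_lit 431627) (nat_lit 0) .nil) .nil))))) (.nd (nat_lit 8) (.nd (nat_lit 9) 
(.lf (nat_lit 604353) (.g (nat_lit 2187) (.e (nat_lit 761899) (nat_lit 15) (.e (nat_lit 163979) (nat_lit 30) (.e (nat_lit 573489) (nat_lit 14) (.e (nat_lit 73755) (nat_lit 8) (.e (nat_lit 557104) (nat_lit 14) (.e (nat_lit 180245) (nat_lit 5) (.e (nat_lit 532484) (nat_lit 0) (.e (nat_lit 7936) (nat_lit 149) .nil)))))))) (.g (nat_lit 1) (.e (nat_lit 429132) (nat_lit 0) .nil) .nil))) 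
(.lf (nat_lit 604865) (.g (nat_lit 2933) (.e (nat_lit 778318) (nat_lit 3) (.e (nat_lit 57476) (nat_lit 28) (.e (nat_lit 557108) (nat_lit 15) (.e (nat_lit 188452) (nat_lit 23) (.e (nat_lit 204852) (nat_lit 26) (.e (nat_lit 336261) (nat_lit 15) (.e (nat_lit 7936) (nat_lit 227) .nil))))))) (.g (nat_lit 1) (.e (nat_lit 431483) (nat_lit 0) .nil) .nil)))) (.nd (nat_lit 9) 
(.lf (nat_lit 604609) (.g (nat_lit 4298) (.e (nat_lit 770072) (nat_lit 8) (.e (nat_lit 65629) (nat_lit 14) (.e (nat_lit 401454) (nat_lit 12) (.e (nat_lit 475214) (nat_lit 42) (.e (nat_lit 720949) (nat_lit 24) .nil))))) (.g (nat_lit 0) (.e (nat_lit 431077) (nat_lit 0) .nil) .nil))) 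
(.lf (nat_lit 605121) (.g (nat_lit 1075) (.e (nat_lit 778324) (nat_lit 5) (.e (nat_lit 73781) (nat_lit 32) (.e (nat_lit 3089) (nat_lit 191) (.e (nat_lit 483404) (nat_lit 26) .nil)))) (.g (nat_lit 0) (.e (nat_lit 431759) (nat_lit 0) .nil) .nil))))))) (.nd (nat_lit 6) (.nd (nat_lit 7) (.nd (nat_lit 8) (.nd (nat_lit 9) 
(.lf (nat_lit 604193) (.g (nat_lit 2943) (.e (nat_lit 761898) (nat_lit 15) (.e (nat_lit 163979) (nat_lit 30) (.e (nat_lit 573489) (nat_lit 14) (.e (nat_lit 73755) (nat_lit 8) (.e (nat_lit 557096) (nat_lit 13) (.e (nat_lit 172067) (nat_lit 3) (.e (nat_lit 204821) (nat_lit 17) (.e (nat_lit 2270) (nat_lit 149) .nil)))))))) (.g (nat_lit 1) (.e (nat_lit 428776) (nat_lit 0) .nil) .nil))) 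
(.lf (nat_lit 604705) (.g (nat_lit 3225) (.e (nat_lit 778317) (nat_lit 3) (.e (nat_lit 57480) (nat_lit 28) (.e (nat_lit 557067) (nat_lit 9) (.e (nat_lit 3022) (nat_lit 187) (.e (nat_lit 450579) (nat_lit 5) (.e (nat_lit 532566) (nat_lit 15) (.e (nat_lit 385092) (nat_lit 49) .nil))))))) (.g (nat_lit 1) (.e (nat_lit 431302) (nat_lit 0) .nil) .nil)))) (.nd (nat_lit 9) 
(.lf (nat_lit 604449) (.g (nat_lit 1704) (.e (nat_lit 770071) (nat_lit 8) (.e (nat_lit 65620) (nat_lit 10) (.e (nat_lit 344177) (nat_lit 43) (.e (nat_lit 770074) (nat_lit 10) (.e (nat_lit 81939) (nat_lit 20) .nil))))) (.g (nat_lit 0) (.e (nat_lit 430909) (nat_lit 0) .nil) .nil))) 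
(.lf (nat_lit 604961) (.g (nat_lit 1308) (.e (nat_lit 778321) (nat_lit 4) (.e (nat_lit 65628) (nat_lit 14) (.e (nat_lit 401438) (nat_lit 9) (.e (nat_lit 426482) (nat_lit 27) .nil)))) (.g (nat_lit 0) (.e (nat_lit 431585) (nat_lit 0) .nil) .nil))))) (.nd (nat_lit 8) (.nd (nat_lit 9) 
(.lf (nat_lit 604321) (.g (nat_lit 2767) (.e (nat_lit 761899) (nat_lit 15) (.e (nat_lit 163979) (nat_lit 30) (.e (nat_lit 573489) (nat_lit 14) (.e (nat_lit 73754) (nat_lit 8) (.e (nat_lit 557101) (nat_lit 13) (.e (nat_lit 172067) (nat_lit 3) (.e (nat_lit 204817) (nat_lit 17) (.e (nat_lit 2272) (nat_lit 149) .nil)))))))) (.g (nat_lit 1) (.e (nat_lit 429094) (nat_lit 0) .nil) .nil))) 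
(.lf (nat_lit 604833) (.g (nat_lit 3394) (.e (nat_lit 778318) (nat_lit 3) (.e (nat_lit 57476) (nat_lit 28) (.e (nat_lit 557108) (nat_lit 15) (.e (nat_lit 188452) (nat_lit 23) (.e (nat_lit 204851) (nat_lit 26) (.e (nat_lit 336306) (nat_lit 15) (.e (nat_lit 3620) (nat_lit 227) .nil))))))) (.g (nat_lit 1) (.e (nat_lit 431451) (nat_lit 0) .nil) .nil)))) (.nd (nat_lit 9) 
(.lf (nat_lit 604577) (.g (nat_lit 1430) (.e (nat_lit 770072) (nat_lit 8) (.e (nat_lit 65610) (nat_lit 10) (.e (nat_lit 344176) (nat_lit 43) (.e (nat_lit 770072) (nat_lit 8) (.e (nat_lit 65610) (nat_lit 10) .nil))))) (.g (nat_lit 0) (.e (nat_lit 431044) (nat_lit 0) .nil) .nil))) 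
(.lf (nat_lit 605089) (.g (nat_lit 2476) (.e (nat_lit 778323) (nat_lit 5) (.e (nat_lit 73782) (nat_lit 32) (.e (nat_lit 3090) (nat_lit 191) (.e (nat_lit 483380) (nat_lit 23) (.e (nat_lit 336263) (nat_lit 15) (.e (nat_lit 3630) (nat_lit 227) .nil)))))) (.g (nat_lit 1) (.e (nat_lit 431723) (nat_lit 0) .nil) .nil)))))) (.nd (nat_lit 7) (.nd (nat_lit 8) (.nd (nat_lit 9) 
(.lf (nat_lit 604257) (.g (nat_lit 4026) (.e (nat_lit 761899) (nat_lit 15) (.e (nat_lit 163977) (nat_lit 30) (.e (nat_lit 573489) (nat_lit 14) (.e (nat_lit 73755) (nat_lit 8) (.e (nat_lit 557097) (nat_lit 13) (.e (nat_lit 172067) (nat_lit 3) (.e (nat_lit 204817) (nat_lit 17) (.e (nat_lit 7936) (nat_lit 149) .nil)))))))) (.g (nat_lit 1) (.e (nat_lit 428924) (nat_lit 0) .nil) .nil))) 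
(.lf (nat_lit 604769) (.g (nat_lit 3252) (.e (nat_lit 778318) (nat_lit 3) (.e (nat_lit 57476) (nat_lit 28) (.e (nat_lit 557107) (nat_lit 15) (.e (nat_lit 188450) (nat_lit 23) (.e (nat_lit 204852) (nat_lit 26) (.e (nat_lit 336243) (nat_lit 15) (.e (nat_lit 3627) (nat_lit 227) .nil))))))) (.g (nat_lit 1) (.e (nat_lit 431387) (nat_lit 0) .nil) .nil)))) (.nd (nat_lit 9) 
(.lf (nat_lit 604513) (.g (nat_lit 2240) (.e (nat_lit 770072) (nat_lit 8) (.e (nat_lit 65583) (nat_lit 7) (.e (nat_lit 319530) (nat_lit 16) (.e (nat_lit 286759) (nat_lit 12) (.e (nat_lit 385092) (nat_lit 49) .nil))))) (.g (nat_lit 0) (.e (nat_lit 430977) (nat_lit 0) .nil) .nil))) 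
(.lf (nat_lit 605025) (.g (nat_lit 1786) (.e (nat_lit 778323) (nat_lit 5) (.e (nat_lit 73781) (nat_lit 32) (.e (nat_lit 3090) (nat_lit 191) (.e (nat_lit 483380) (nat_lit 23) (.e (nat_lit 336259) (nat_lit 15) .nil))))) (.g (nat_lit 0) (.e (nat_lit 431659) (nat_lit 0) .nil) .nil))))) (.nd (nat_lit 8) (.nd (nat_lit 9) 
(.lf (nat_lit 604385) (.g (nat_lit 4453) (.e (nat_lit 770071) (nat_lit 8) (.e (nat_lit 65568) (nat_lit 2) (.e (nat_lit 90170) (nat_lit 13) (.e (nat_lit 172113) (nat_lit 10) (.e (nat_lit 434245) (nat_lit 28) (.e (nat_lit 573473) (nat_lit 12) (.e (nat_lit 57572) (nat_lit 54) .nil))))))) (.g (nat_lit 1) (.e (nat_lit 430838) (nat_lit 0) .nil) .nil))) 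
(.lf (nat_lit 604897) (.g (nat_lit 1942) (.e (nat_lit 786176) (nat_lit 3) (.e (nat_lit 57477) (nat_lit 28) (.e (nat_lit 557108) (nat_lit 15) (.e (nat_lit 188452) (nat_lit 23) (.e (nat_lit 204852) (nat_lit 26) .nil))))) (.g (nat_lit 0) (.e (nat_lit 431517) (nat_lit 0) .nil) .nil)))) (.nd (nat_lit 9) 
(.lf (nat_lit 604641) (.g (nat_lit 2439) (.e (nat_lit 778280) (nat_lit 0) (.e (nat_lit 1454) (nat_lit 108) (.e (nat_lit 336228) (nat_lit 14) (.e (nat_lit 401456) (nat_lit 13) (.e (nat_lit 483405) (nat_lit 26) .nil))))) (.g (nat_lit 0) (.e (nat_lit 431230) (nat_lit 0) .nil) .nil))) 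
(.lf (nat_lit 605153) (.g (nat_lit 1566) (.e (nat_lit 778324) (nat_lit 5) (.e (nat_lit 73781) (nat_lit 32) (.e (nat_lit 3090) (nat_lit 191) (.e (nat_lit 483402) (nat_lit 26) (.e (nat_lit 385092) (nat_lit 49) .nil))))) (.g (nat_lit 0) (.e (nat_lit 431791) (nat_lit 0) .nil) .nil)))))))) (.nd (nat_lit 5) (.nd (nat_lit 6) (.nd (nat_lit 7) (.nd (nat_lit 8) (.nd (nat_lit 9) 
(.lf (nat_lit 604177) (.g (nat_lit 2853) (.e (nat_lit 761898) (nat_lit 15) (.e (nat_lit 163979) (nat_lit 30) (.e (nat_lit 573488) (nat_lit 14) (.e (nat_lit 73755) (nat_lit 8) (.e (nat_lit 557103) (nat_lit 14) .nil))))) (.g (nat_lit 0) (.e (nat_lit 428757) (nat_lit 0) .nil) .nil))) 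
(.lf (nat_lit 604689) (.g (nat_lit 4476) (.e (nat_lit 778317) (nat_lit 3) (.e (nat_lit 57476) (nat_lit 28) (.e (nat_lit 557099) (nat_lit 13) (.e (nat_lit 172106) (nat_lit 10) (.e (nat_lit 434231) (nat_lit 23) (.e (nat_lit 532535) (nat_lit 9) (.e (nat_lit 336295) (nat_lit 15) (.e (nat_lit 3629) (nat_lit 227) .nil)))))))) (.g (nat_lit 1) (.e (nat_lit 431284) (nat_lit 0) .nil) .nil)))) 
(.nd (nat_lit 9) 
(.lf (nat_lit 604433) (.g (nat_lit 898) (.e (nat_lit 770071) (nat_lit 8) (.e (nat_lit 65610) (nat_lit 10) (.e (nat_lit 344176) (nat_lit 43) (.e (nat_lit 770074) (nat_lit 10) .nil)))) (.g (nat_lit 0) (.e (nat_lit 430893) (nat_lit 0) .nil) .nil))) 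
(.lf (nat_lit 604945) (.g (nat_lit 3717) (.e (nat_lit 778320) (nat_lit 4) (.e (nat_lit 65630) (nat_lit 14) (.e (nat_lit 401438) (nat_lit 9) (.e (nat_lit 426540) (nat_lit 29) (.e (nat_lit 352262) (nat_lit 0) (.e (nat_lit 3632) (nat_lit 227) .nil)))))) (.g (nat_lit 1) (.e (nat_lit 431569) (nat_lit 0) .nil) .nil))))) (.nd (nat_lit 8) (.nd (nat_lit 9) 
(.lf (nat_lit 604305) (.g (nat_lit 4047) (.e (nat_lit 761899) (nat_lit 15) (.e (nat_lit 163978) (nat_lit 30) (.e (nat_lit 573489) (nat_lit 14) (.e (nat_lit 73755) (nat_lit 8) (.e (nat_lit 557105) (nat_lit 14) (.e (nat_lit 180245) (nat_lit 5) (.e (nat_lit 532481) (nat_lit 0) (.e (nat_lit 2271) (nat_lit 149) .nil)))))))) (.g (nat_lit 1) (.e (nat_lit 429039) (nat_lit 0) .nil) .nil))) 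
(.lf (nat_lit 604817) (.g (nat_lit 1809) (.e (nat_lit 778318) (nat_lit 3) (.e (nat_lit 57476) (nat_lit 28) (.e (nat_lit 557107) (nat_lit 15) (.e (nat_lit 188450) (nat_lit 23) (.e (nat_lit 212736) (nat_lit 32) .nil))))) (.g (nat_lit 0) (.e (nat_lit 431435) (nat_lit 0) .nil) .nil)))) (.nd (nat_lit 9) 
(.lf (nat_lit 604561) (.g (nat_lit 2183) (.e (nat_lit 770072) (nat_lit 8) (.e (nat_lit 65586) (nat_lit 7) (.e (nat_lit 319531) (nat_lit 16) (.e (nat_lit 286759) (nat_lit 12) (.e (nat_lit 385115) (nat_lit 53) (.e (nat_lit 811033) (nat_lit 11) (.e (nat_lit 7936) (nat_lit 74) .nil))))))) (.g (nat_lit 1) (.e (nat_lit 431026) (nat_lit 0) .nil) .nil))) 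
(.lf (nat_lit 605073) (.g (nat_lit 1876) (.e (nat_lit 778323) (nat_lit 5) (.e (nat_lit 73782) (nat_lit 32) (.e (nat_lit 3089) (nat_lit 191) (.e (nat_lit 483383) (nat_lit 23) (.e (nat_lit 336270) (nat_lit 15) .nil))))) (.g (nat_lit 0) (.e (nat_lit 431707) (nat_lit 0) .nil) .nil)))))) (.nd (nat_lit 7) (.nd (nat_lit 8) (.nd (nat_lit 9) 
(.lf (nat_lit 604241) (.g (nat_lit 2662) (.e (nat_lit 761899) (nat_lit 15) (.e (nat_lit 163977) (nat_lit 30) (.e (nat_lit 573489) (nat_lit 14) (.e (nat_lit 73754) (nat_lit 8) (.e (nat_lit 557101) (nat_lit 13) (.e (nat_lit 172067) (nat_lit 3) (.e (nat_lit 204817) (nat_lit 17) (.e (nat_lit 2272) (nat_lit 149) .nil)))))))) (.g (nat_lit 1) (.e (nat_lit 428903) (nat_lit 0) .nil) .nil))) 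
(.lf (nat_lit 604753) (.g (nat_lit 5014) (.e (nat_lit 778318) (nat_lit 3) (.e (nat_lit 57476) (nat_lit 28) (.e (nat_lit 557097) (nat_lit 13) (.e (nat_lit 172115) (nat_lit 10) (.e (nat_lit 434231) (nat_lit 23) (.e (nat_lit 532535) (nat_lit 9) (.e (nat_lit 336295) (nat_lit 15) (.e (nat_lit 3629) (nat_lit 227) .nil)))))))) (.g (nat_lit 1) (.e (nat_lit 431369) (nat_lit 0) .nil) .nil)))) 
(.nd (nat_lit 9) 
(.lf (nat_lit 604497) (.g (nat_lit 2482) (.e (nat_lit 770072) (nat_lit 8) (.e (nat_lit 65583) (nat_lit 7) (.e (nat_lit 319530) (nat_lit 16) (.e (nat_lit 286748) (nat_lit 9) (.e (nat_lit 336295) (nat_lit 15) (.e (nat_lit 3757) (nat_lit 229) (.e (nat_lit 794648) (nat_lit 20) (.e (nat_lit 3613) (nat_lit 226) .nil)))))))) (.g (nat_lit 1) (.e (nat_lit 430961) (nat_lit 0) .nil) .nil))) 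
(.lf (nat_lit 605009) (.g (nat_lit 979) (.e (nat_lit 778323) (nat_lit 5) (.e (nat_lit 73781) (nat_lit 32) (.e (nat_lit 3089) (nat_lit 191) (.e (nat_lit 483379) (nat_lit 23) .nil)))) (.g (nat_lit 0) (.e (nat_lit 431643) (nat_lit 0) .nil) .nil))))) (.nd (nat_lit 8) (.nd (nat_lit 9) 
(.lf (nat_lit 604369) (.g (nat_lit 1763) (.e (nat_lit 761910) (nat_lit 17) (.e (nat_lit 180252) (nat_lit 10) (.e (nat_lit 573471) (nat_lit 11) (.e (nat_lit 16406) (nat_lit 1) .nil)))) (.g (nat_lit 0) (.e (nat_lit 430427) (nat_lit 0) .nil) .nil))) 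
(.lf (nat_lit 604881) (.g (nat_lit 4628) (.e (nat_lit 778318) (nat_lit 3) (.e (nat_lit 57476) (nat_lit 28) (.e (nat_lit 557108) (nat_lit 15) (.e (nat_lit 188452) (nat_lit 23) (.e (nat_lit 204854) (nat_lit 26) (.e (nat_lit 336306) (nat_lit 15) (.e (nat_lit 3619) (nat_lit 227) .nil))))))) (.g (nat_lit 1) (.e (nat_lit 431499) (nat_lit 0) .nil) .nil)))) (.nd (nat_lit 9) 
(.lf (nat_lit 604625) (.g (nat_lit 1837) (.e (nat_lit 770074) (nat_lit 10) (.e (nat_lit 81925) (nat_lit 11) (.e (nat_lit 426341) (nat_lit 14) (.e (nat_lit 491558) (nat_lit 10) (.e (nat_lit 344177) (nat_lit 43) .nil))))) (.g (nat_lit 0) (.e (nat_lit 431096) (nat_lit 0) .nil) .nil))) 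
(.lf (nat_lit 605137) (.g (nat_lit 2382) (.e (nat_lit 778324) (nat_lit 5) (.e (nat_lit 73781) (nat_lit 32) (.e (nat_lit 3090) (nat_lit 191) (.e (nat_lit 483380) (nat_lit 23) (.e (nat_lit 336257) (nat_lit 15) (.e (nat_lit 3635) (nat_lit 227) .nil)))))) (.g (nat_lit 1) (.e (nat_lit 431775) (nat_lit 0) .nil) .nil))))))) (.nd (nat_lit 6) (.nd (nat_lit 7) (.nd (nat_lit 8) (.nd (nat_lit 9) 
(.lf (nat_lit 604209) (.g (nat_lit 2291) (.e (nat_lit 761898) (nat_lit 15) (.e (nat_lit 163979) (nat_lit 30) (.e (nat_lit 573489) (nat_lit 14) (.e (nat_lit 73755) (nat_lit 8) (.e (nat_lit 557097) (nat_lit 13) (.e (nat_lit 172067) (nat_lit 3) (.e (nat_lit 204820) (nat_lit 17) (.e (nat_lit 7936) (nat_lit 149) .nil)))))))) (.g (nat_lit 1) (.e (nat_lit 428795) (nat_lit 0) .nil) .nil))) 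
(.lf (nat_lit 604721) (.g (nat_lit 4613) (.e (nat_lit 778318) (nat_lit 3) (.e (nat_lit 57476) (nat_lit 28) (.e (nat_lit 557097) (nat_lit 13) (.e (nat_lit 172106) (nat_lit 10) (.e (nat_lit 434231) (nat_lit 23) (.e (nat_lit 532535) (nat_lit 9) (.e (nat_lit 336295) (nat_lit 15) (.e (nat_lit 3631) (nat_lit 227) .nil)))))))) (.g (nat_lit 1) (.e (nat_lit 431337) (nat_lit 0) .nil) .nil)))) 
(.nd (nat_lit 9) 
(.lf (nat_lit 604465) (.g (nat_lit 2359) (.e (nat_lit 770071) (nat_lit 8) (.e (nat_lit 65630) (nat_lit 14) (.e (nat_lit 401454) (nat_lit 12) (.e (nat_lit 475212) (nat_lit 42) (.e (nat_lit 720956) (nat_lit 25) .nil))))) (.g (nat_lit 0) (.e (nat_lit 430925) (nat_lit 0) .nil) .nil))) 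
(.lf (nat_lit 604977) (.g (nat_lit 1128) (.e (nat_lit 778322) (nat_lit 5) (.e (nat_lit 73781) (nat_lit 32) (.e (nat_lit 2855) (nat_lit 184) (.e (nat_lit 426542) (nat_lit 29) (.e (nat_lit 352264) (nat_lit 0) .nil))))) (.g (nat_lit 0) (.e (nat_lit 431604) (nat_lit 0) .nil) .nil))))) (.nd (nat_lit 8) (.nd (nat_lit 9) 
(.lf (nat_lit 604337) (.g (nat_lit 4148) (.e (nat_lit 761899) (nat_lit 15) (.e (nat_lit 163979) (nat_lit 30) (.e (nat_lit 573489) (nat_lit 14) (.e (nat_lit 73755) (nat_lit 8) (.e (nat_lit 557098) (nat_lit 13) (.e (nat_lit 172067) (nat_lit 3) (.e (nat_lit 204817) (nat_lit 17) (.e (nat_lit 7936) (nat_lit 149) .nil)))))))) (.g (nat_lit 1) (.e (nat_lit 429115) (nat_lit 0) .nil) .nil))) 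
(.lf (nat_lit 604849) (.g (nat_lit 4667) (.e (nat_lit 778318) (nat_lit 3) (.e (nat_lit 57476) (nat_lit 28) (.e (nat_lit 557108) (nat_lit 15) (.e (nat_lit 188452) (nat_lit 23) (.e (nat_lit 204852) (nat_lit 26) (.e (nat_lit 336257) (nat_lit 15) (.e (nat_lit 3626) (nat_lit 227) .nil))))))) (.g (nat_lit 1) (.e (nat_lit 431467) (nat_lit 0) .nil) .nil)))) (.nd (nat_lit 9) 
(.lf (nat_lit 604593) (.g (nat_lit 1840) (.e (nat_lit 770072) (nat_lit 8) (.e (nat_lit 65619) (nat_lit 10) (.e (nat_lit 344177) (nat_lit 43) (.e (nat_lit 770072) (nat_lit 8) (.e (nat_lit 65617) (nat_lit 10) .nil))))) (.g (nat_lit 0) (.e (nat_lit 431060) (nat_lit 0) .nil) .nil))) 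
(.lf (nat_lit 605105) (.g (nat_lit 2052) (.e (nat_lit 778324) (nat_lit 5) (.e (nat_lit 73781) (nat_lit 32) (.e (nat_lit 2856) (nat_lit 184) (.e (nat_lit 426489) (nat_lit 27) (.e (nat_lit 336206) (nat_lit 12) .nil))))) (.g (nat_lit 0) (.e (nat_lit 431743) (nat_lit 0) .nil) .nil)))))) (.nd (nat_lit 7) (.nd (nat_lit 8) (.nd (nat_lit 9) 
(.lf (nat_lit 604273) (.g (nat_lit 3350) (.e (nat_lit 761899) (nat_lit 15) (.e (nat_lit 163978) (nat_lit 30) (.e (nat_lit 573489) (nat_lit 14) (.e (nat_lit 73754) (nat_lit 8) (.e (nat_lit 557101) (nat_lit 13) (.e (nat_lit 172065) (nat_lit 3) (.e (nat_lit 204817) (nat_lit 17) (.e (nat_lit 7936) (nat_lit 149) .nil)))))))) (.g (nat_lit 1) (.e (nat_lit 429001) (nat_lit 0) .nil) .nil))) 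
(.lf (nat_lit 604785) (.g (nat_lit 3875) (.e (nat_lit 778318) (nat_lit 3) (.e (nat_lit 57476) (nat_lit 28) (.e (nat_lit 557107) (nat_lit 15) (.e (nat_lit 188450) (nat_lit 23) (.e (nat_lit 204852) (nat_lit 26) (.e (nat_lit 336258) (nat_lit 15) (.e (nat_lit 3637) (nat_lit 227) .nil))))))) (.g (nat_lit 1) (.e (nat_lit 431403) (nat_lit 0) .nil) .nil)))) (.nd (nat_lit 9) 
(.lf (nat_lit 604529) (.g (nat_lit 2473) (.e (nat_lit 770072) (nat_lit 8) (.e (nat_lit 65583) (nat_lit 7) (.e (nat_lit 319531) (nat_lit 16) (.e (nat_lit 286756) (nat_lit 10) (.e (nat_lit 344160) (nat_lit 37) .nil))))) (.g (nat_lit 0) (.e (nat_lit 430993) (nat_lit 0) .nil) .nil))) 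
(.lf (nat_lit 605041) (.g (nat_lit 2208) (.e (nat_lit 778323) (nat_lit 5) (.e (nat_lit 73781) (nat_lit 32) (.e (nat_lit 3090) (nat_lit 191) (.e (nat_lit 483386) (nat_lit 23) (.e (nat_lit 336295) (nat_lit 15) (.e (nat_lit 3630) (nat_lit 227) .nil)))))) (.g (nat_lit 1) (.e (nat_lit 431675) (nat_lit 0) .nil) .nil))))) (.nd (nat_lit 8) (.nd (nat_lit 9) 
(.lf (nat_lit 604401) (.g (nat_lit 1625) (.e (nat_lit 770071) (nat_lit 8) (.e (nat_lit 65583) (nat_lit 7) (.e (nat_lit 319530) (nat_lit 16) (.e (nat_lit 286756) (nat_lit 10) (.e (nat_lit 344160) (nat_lit 37) .nil))))) (.g (nat_lit 0) (.e (nat_lit 430855) (nat_lit 0) .nil) .nil))) 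
(.lf (nat_lit 604913) (.g (nat_lit 3185) (.e (nat_lit 786176) (nat_lit 3) (.e (nat_lit 57480) (nat_lit 28) (.e (nat_lit 557109) (nat_lit 15) (.e (nat_lit 188450) (nat_lit 23) (.e (nat_lit 204880) (nat_lit 32) .nil))))) (.g (nat_lit 0) (.e (nat_lit 431534) (nat_lit 0) .nil) .nil)))) (.nd (nat_lit 9) 
(.lf (nat_lit 604657) (.g (nat_lit 3583) (.e (nat_lit 778316) (nat_lit 3) (.e (nat_lit 57479) (nat_lit 28) (.e (nat_lit 557100) (nat_lit 13) (.e (nat_lit 172106) (nat_lit 10) (.e (nat_lit 434231) (nat_lit 23) (.e (nat_lit 532529) (nat_lit 9) (.e (nat_lit 336296) (nat_lit 15) (.e (nat_lit 3716) (nat_lit 227) .nil)))))))) (.g (nat_lit 1) (.e (nat_lit 431252) (nat_lit 0) .nil) .nil))) 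
(.lf (nat_lit 605169) (.g (nat_lit 515) (.e (nat_lit 778325) (nat_lit 6) (.e (nat_lit 81922) (nat_lit 0) (.e (nat_lit 3629) (nat_lit 227) (.e (nat_lit 778326) (nat_lit 6) (.e (nat_lit 81921) (nat_lit 0) .nil))))) (.g (nat_lit 0) (.e (nat_lit 431807) (nat_lit 0) .nil) .nil))))))))) (.nd (nat_lit 4) (.nd (nat_lit 5) (.nd (nat_lit 6) (.nd (nat_lit 7) (.nd (nat_lit 8) (.nd (nat_lit 9) 
(.lf (nat_lit 604169) (.g (nat_lit 2050) (.e (nat_lit 761898) (nat_lit 15) (.e (nat_lit 163979) (nat_lit 30) (.e (nat_lit 573488) (nat_lit 14) (.e (nat_lit 73753) (nat_lit 8) .nil)))) (.g (nat_lit 0) (.e (nat_lit 428749) (nat_lit 0) .nil) .nil))) 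
(.lf (nat_lit 604681) (.g (nat_lit 3180) (.e (nat_lit 778317) (nat_lit 3) (.e (nat_lit 57476) (nat_lit 28) (.e (nat_lit 557067) (nat_lit 9) (.e (nat_lit 3022) (nat_lit 187) (.e (nat_lit 450579) (nat_lit 5) (.e (nat_lit 532563) (nat_lit 15) (.e (nat_lit 385092) (nat_lit 49) .nil))))))) (.g (nat_lit 1) (.e (nat_lit 431276) (nat_lit 0) .nil) .nil)))) (.nd (nat_lit 9) 
(.lf (nat_lit 604425) (.g (nat_lit 546) (.e (nat_lit 770071) (nat_lit 8) (.e (nat_lit 65599) (nat_lit 9) (.e (nat_lit 336417) (nat_lit 27) (.e (nat_lit 426035) (nat_lit 0) .nil)))) (.g (nat_lit 0) (.e (nat_lit 430884) (nat_lit 0) .nil) .nil))) 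
(.lf (nat_lit 604937) (.g (nat_lit 2474) (.e (nat_lit 778320) (nat_lit 4) (.e (nat_lit 65630) (nat_lit 14) (.e (nat_lit 401437) (nat_lit 9) (.e (nat_lit 426540) (nat_lit 29) (.e (nat_lit 352262) (nat_lit 0) (.e (nat_lit 3630) (nat_lit 227) .nil)))))) (.g (nat_lit 1) (.e (nat_lit 431561) (nat_lit 0) .nil) .nil))))) (.nd (nat_lit 8) (.nd (nat_lit 9) 
(.lf (nat_lit 604297) (.g (nat_lit 3692) (.e (nat_lit 761899) (nat_lit 15) (.e (nat_lit 163978) (nat_lit 30) (.e (nat_lit 573489) (nat_lit 14) (.e (nat_lit 73755) (nat_lit 8) (.e (nat_lit 557103) (nat_lit 14) (.e (nat_lit 180244) (nat_lit 5) (.e (nat_lit 532484) (nat_lit 0) (.e (nat_lit 2271) (nat_lit 149) .nil)))))))) (.g (nat_lit 1) (.e (nat_lit 429030) (nat_lit 0) .nil) .nil))) 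
(.lf (nat_lit 604809) (.g (nat_lit 2777) (.e (nat_lit 778318) (nat_lit 3) (.e (nat_lit 57476) (nat_lit 28) (.e (nat_lit 557107) (nat_lit 15) (.e (nat_lit 188450) (nat_lit 23) (.e (nat_lit 204852) (nat_lit 26) (.e (nat_lit 343808) (nat_lit 15) (.e (nat_lit 3627) (nat_lit 227) .nil))))))) (.g (nat_lit 1) (.e (nat_lit 431427) (nat_lit 0) .nil) .nil)))) (.nd (nat_lit 9) 
(.lf (nat_lit 604553) (.g (nat_lit 2825) (.e (nat_lit 770072) (nat_lit 8) (.e (nat_lit 65586) (nat_lit 7) (.e (nat_lit 319531) (nat_lit 16) (.e (nat_lit 286756) (nat_lit 10) (.e (nat_lit 344087) (nat_lit 18) .nil))))) (.g (nat_lit 0) (.e (nat_lit 431017) (nat_lit 0) .nil) .nil))) 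
(.lf (nat_lit 605065) (.g (nat_lit 1224) (.e (nat_lit 778323) (nat_lit 5) (.e (nat_lit 73782) (nat_lit 32) (.e (nat_lit 2857) (nat_lit 184) (.e (nat_lit 426489) (nat_lit 27) (.e (nat_lit 343808) (nat_lit 12) .nil))))) (.g (nat_lit 0) (.e (nat_lit 431699) (nat_lit 0) .nil) .nil)))))) (.nd (nat_lit 7) (.nd (nat_lit 8) (.nd (nat_lit 9) 
(.lf (nat_lit 604233) (.g (nat_lit 2376) (.e (nat_lit 761898) (nat_lit 15) (.e (nat_lit 163979) (nat_lit 30) (.e (nat_lit 573489) (nat_lit 14) (.e (nat_lit 73755) (nat_lit 8) (.e (nat_lit 557104) (nat_lit 14) (.e (nat_lit 180244) (nat_lit 5) (.e (nat_lit 532490) (nat_lit 0) (.e (nat_lit 7936) (nat_lit 149) .nil)))))))) (.g (nat_lit 1) (.e (nat_lit 428822) (nat_lit 0) .nil) .nil))) 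
(.lf (nat_lit 604745) (.g (nat_lit 2487) (.e (nat_lit 778318) (nat_lit 3) (.e (nat_lit 57476) (nat_lit 28) (.e (nat_lit 557097) (nat_lit 13) (.e (nat_lit 172115) (nat_lit 10) (.e (nat_lit 434231) (nat_lit 23) (.e (nat_lit 532531) (nat_lit 9) (.e (nat_lit 336263) (nat_lit 15) (.e (nat_lit 3629) (nat_lit 227) .nil)))))))) (.g (nat_lit 1) (.e (nat_lit 431361) (nat_lit 0) .nil) .nil)))) 
(.nd (nat_lit 9) 
(.lf (nat_lit 604489) (.g (nat_lit 3379) (.e (nat_lit 770072) (nat_lit 8) (.e (nat_lit 65571) (nat_lit 3) (.e (nat_lit 98373) (nat_lit 29) (.e (nat_lit 450588) (nat_lit 10) (.e (nat_lit 573452) (nat_lit 9) .nil))))) (.g (nat_lit 0) (.e (nat_lit 430953) (nat_lit 0) .nil) .nil))) 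
(.lf (nat_lit 605001) (.g (nat_lit 1668) (.e (nat_lit 778323) (nat_lit 5) (.e (nat_lit 73781) (nat_lit 32) (.e (nat_lit 2857) (nat_lit 184) (.e (nat_lit 426540) (nat_lit 29) (.e (nat_lit 352262) (nat_lit 0) (.e (nat_lit 3630) (nat_lit 227) .nil)))))) (.g (nat_lit 1) (.e (nat_lit 431635) (nat_lit 0) .nil) .nil))))) (.nd (nat_lit 8) (.nd (nat_lit 9) 
(.lf (nat_lit 604361) (.g (nat_lit 652) (.e (nat_lit 761908) (nat_lit 17) (.e (nat_lit 180250) (nat_lit 10) (.e (nat_lit 573456) (nat_lit 9) .nil))) (.g (nat_lit 0) (.e (nat_lit 430254) (nat_lit 0) .nil) .nil))) 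
(.lf (nat_lit 604873) (.g (nat_lit 3276) (.e (nat_lit 778318) (nat_lit 3) (.e (nat_lit 57476) (nat_lit 28) (.e (nat_lit 557108) (nat_lit 15) (.e (nat_lit 188452) (nat_lit 23) (.e (nat_lit 204852) (nat_lit 26) (.e (nat_lit 336306) (nat_lit 15) (.e (nat_lit 3620) (nat_lit 227) .nil))))))) (.g (nat_lit 1) (.e (nat_lit 431491) (nat_lit 0) .nil) .nil)))) (.nd (nat_lit 9) 
(.lf (nat_lit 604617) (.g (nat_lit 1948) (.e (nat_lit 770072) (nat_lit 8) (.e (nat_lit 65642) (nat_lit 15) (.e (nat_lit 3305) (nat_lit 202) (.e (nat_lit 573473) (nat_lit 12) (.e (nat_lit 65280) (nat_lit 206) .nil))))) (.g (nat_lit 0) (.e (nat_lit 431088) (nat_lit 0) .nil) .nil))) 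
(.lf (nat_lit 605129) (.g (nat_lit 2491) (.e (nat_lit 778324) (nat_lit 5) (.e (nat_lit 73781) (nat_lit 32) (.e (nat_lit 3090) (nat_lit 191) (.e (nat_lit 483380) (nat_lit 23) (.e (nat_lit 336247) (nat_lit 15) .nil))))) (.g (nat_lit 0) (.e (nat_lit 431767) (nat_lit 0) .nil) .nil))))))) (.nd (nat_lit 6) (.nd (nat_lit 7) (.nd (nat_lit 8) (.nd (nat_lit 9) 
(.lf (nat_lit 604201) (.g (nat_lit 3021) (.e (nat_lit 761898) (nat_lit 15) (.e (nat_lit 163979) (nat_lit 30) (.e (nat_lit 573489) (nat_lit 14) (.e (nat_lit 73755) (nat_lit 8) (.e (nat_lit 557097) (nat_lit 13) (.e (nat_lit 172066) (nat_lit 3) (.e (nat_lit 204820) (nat_lit 17) (.e (nat_lit 7936) (nat_lit 149) .nil)))))))) (.g (nat_lit 1) (.e (nat_lit 428787) (nat_lit 0) .nil) .nil))) 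
(.lf (nat_lit 604713) (.g (nat_lit 4215) (.e (nat_lit 778318) (nat_lit 3) (.e (nat_lit 57476) (nat_lit 28) (.e (nat_lit 557096) (nat_lit 13) (.e (nat_lit 172106) (nat_lit 10) (.e (nat_lit 434231) (nat_lit 23) (.e (nat_lit 532535) (nat_lit 9) (.e (nat_lit 336295) (nat_lit 15) (.e (nat_lit 3629) (nat_lit 227) .nil)))))))) (.g (nat_lit 1) (.e (nat_lit 431329) (nat_lit 0) .nil) .nil)))) 
(.nd (nat_lit 9) 
(.lf (nat_lit 604457) (.g (nat_lit 1727) (.e (nat_lit 770071) (nat_lit 8) (.e (nat_lit 65628) (nat_lit 14) (.e (nat_lit 401422) (nat_lit 1) (.e (nat_lit 164179) (nat_lit 154) (.e (nat_lit 57437) (nat_lit 17) .nil))))) (.g (nat_lit 0) (.e (nat_lit 430917) (nat_lit 0) .nil) .nil))) 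
(.lf (nat_lit 604969) (.g (nat_lit 2226) (.e (nat_lit 778321) (nat_lit 4) (.e (nat_lit 65628) (nat_lit 14) (.e (nat_lit 401458) (nat_lit 13) (.e (nat_lit 483383) (nat_lit 23) (.e (nat_lit 336240) (nat_lit 15) .nil))))) (.g (nat_lit 0) (.e (nat_lit 431593) (nat_lit 0) .nil) .nil))))) (.nd (nat_lit 8) (.nd (nat_lit 9) 
(.lf (nat_lit 604329) (.g (nat_lit 2964) (.e (nat_lit 761899) (nat_lit 15) (.e (nat_lit 163979) (nat_lit 30) (.e (nat_lit 573489) (nat_lit 14) (.e (nat_lit 73755) (nat_lit 8) (.e (nat_lit 557097) (nat_lit 13) (.e (nat_lit 172066) (nat_lit 3) (.e (nat_lit 204815) (nat_lit 17) (.e (nat_lit 2271) (nat_lit 149) .nil)))))))) (.g (nat_lit 1) (.e (nat_lit 429106) (nat_lit 0) .nil) .nil))) 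
(.lf (nat_lit 604841) (.g (nat_lit 4788) (.e (nat_lit 778318) (nat_lit 3) (.e (nat_lit 57476) (nat_lit 28) (.e (nat_lit 557108) (nat_lit 15) (.e (nat_lit 188452) (nat_lit 23) (.e (nat_lit 204852) (nat_lit 26) (.e (nat_lit 336240) (nat_lit 15) (.e (nat_lit 3637) (nat_lit 227) .nil))))))) (.g (nat_lit 1) (.e (nat_lit 431459) (nat_lit 0) .nil) .nil)))) (.nd (nat_lit 9) 
(.lf (nat_lit 604585) (.g (nat_lit 2799) (.e (nat_lit 770072) (nat_lit 8) (.e (nat_lit 65617) (nat_lit 10) (.e (nat_lit 344096) (nat_lit 18) (.e (nat_lit 7265) (nat_lit 384) (.e (nat_lit 57406) (nat_lit 12) (.e (nat_lit 336182) (nat_lit 11) (.e (nat_lit 368698) (nat_lit 43) .nil))))))) (.g (nat_lit 1) (.e (nat_lit 431052) (nat_lit 0) .nil) .nil))) 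
(.lf (nat_lit 605097) (.g (nat_lit 2126) (.e (nat_lit 778323) (nat_lit 5) (.e (nat_lit 73782) (nat_lit 32) (.e (nat_lit 3090) (nat_lit 191) (.e (nat_lit 483386) (nat_lit 23) (.e (nat_lit 336295) (nat_lit 15) (.e (nat_lit 3630) (nat_lit 227) .nil)))))) (.g (nat_lit 1) (.e (nat_lit 431731) (nat_lit 0) .nil) .nil)))))) (.nd (nat_lit 7) (.nd (nat_lit 8) (.nd (nat_lit 9) 
(.lf (nat_lit 604265) (.g (nat_lit 4339) (.e (nat_lit 761899) (nat_lit 15) (.e (nat_lit 163977) (nat_lit 30) (.e (nat_lit 573489) (nat_lit 14) (.e (nat_lit 73755) (nat_lit 8) (.e (nat_lit 557104) (nat_lit 14) (.e (nat_lit 180244) (nat_lit 5) (.e (nat_lit 532484) (nat_lit 0) (.e (nat_lit 7936) (nat_lit 149) .nil)))))))) (.g (nat_lit 1) (.e (nat_lit 428932) (nat_lit 0) .nil) .nil))) 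
(.lf (nat_lit 604777) (.g (nat_lit 3618) (.e (nat_lit 778318) (nat_lit 3) (.e (nat_lit 57476) (nat_lit 28) (.e (nat_lit 557107) (nat_lit 15) (.e (nat_lit 188450) (nat_lit 23) (.e (nat_lit 204852) (nat_lit 26) (.e (nat_lit 336257) (nat_lit 15) (.e (nat_lit 3624) (nat_lit 227) .nil))))))) (.g (nat_lit 1) (.e (nat_lit 431395) (nat_lit 0) .nil) .nil)))) (.nd (nat_lit 9) 
(.lf (nat_lit 604521) (.g (nat_lit 2166) (.e (nat_lit 770072) (nat_lit 8) (.e (nat_lit 65583) (nat_lit 7) (.e (nat_lit 319530) (nat_lit 16) (.e (nat_lit 286759) (nat_lit 12) (.e (nat_lit 385115) (nat_lit 53) (.e (nat_lit 811037) (nat_lit 11) (.e (nat_lit 7936) (nat_lit 74) .nil))))))) (.g (nat_lit 1) (.e (nat_lit 430985) (nat_lit 0) .nil) .nil))) 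
(.lf (nat_lit 605033) (.g (nat_lit 2469) (.e (nat_lit 778323) (nat_lit 5) (.e (nat_lit 73781) (nat_lit 32) (.e (nat_lit 3090) (nat_lit 191) (.e (nat_lit 483380) (nat_lit 23) (.e (nat_lit 336285) (nat_lit 15) (.e (nat_lit 3630) (nat_lit 227) .nil)))))) (.g (nat_lit 1) (.e (nat_lit 431667) (nat_lit 0) .nil) .nil))))) (.nd (nat_lit 8) (.nd (nat_lit 9) 
(.lf (nat_lit 604393) (.g (nat_lit 1668) (.e (nat_lit 770071) (nat_lit 8) (.e (nat_lit 65571) (nat_lit 3) (.e (nat_lit 98370) (nat_lit 28) (.e (nat_lit 442408) (nat_lit 20) .nil)))) (.g (nat_lit 0) (.e (nat_lit 430846) (nat_lit 0) .nil) .nil))) 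
(.lf (nat_lit 604905) (.g (nat_lit 2005) (.e (nat_lit 786176) (nat_lit 3) (.e (nat_lit 57479) (nat_lit 28) (.e (nat_lit 557101) (nat_lit 13) (.e (nat_lit 172115) (nat_lit 10) (.e (nat_lit 434231) (nat_lit 23) .nil))))) (.g (nat_lit 0) (.e (nat_lit 431525) (nat_lit 0) .nil) .nil)))) (.nd (nat_lit 9) 
(.lf (nat_lit 604649) (.g (nat_lit 2374) (.e (nat_lit 778316) (nat_lit 3) (.e (nat_lit 57477) (nat_lit 28) (.e (nat_lit 557107) (nat_lit 15) (.e (nat_lit 188447) (nat_lit 22) (.e (nat_lit 196666) (nat_lit 13) (.e (nat_lit 65639) (nat_lit 15) (.e (nat_lit 3716) (nat_lit 227) .nil))))))) (.g (nat_lit 1) (.e (nat_lit 431244) (nat_lit 0) .nil) .nil))) 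
(.lf (nat_lit 605161) (.g (nat_lit 2121) (.e (nat_lit 778324) (nat_lit 5) (.e (nat_lit 73781) (nat_lit 32) (.e (nat_lit 3090) (nat_lit 191) (.e (nat_lit 483406) (nat_lit 26) (.e (nat_lit 385091) (nat_lit 49) .nil))))) (.g (nat_lit 1) (.e (nat_lit 431799) (nat_lit 0) .nil) .nil)))))))) (.nd (nat_lit 5) (.nd (nat_lit 6) (.nd (nat_lit 7) (.nd (nat_lit 8) (.nd (nat_lit 9) 
(.lf (nat_lit 604185) (.g (nat_lit 2655) (.e (nat_lit 761898) (nat_lit 15) (.e (nat_lit 163979) (nat_lit 30) (.e (nat_lit 573489) (nat_lit 14) (.e (nat_lit 73754) (nat_lit 8) (.e (nat_lit 557101) (nat_lit 13) (.e (nat_lit 172066) (nat_lit 3) (.e (nat_lit 204815) (nat_lit 17) (.e (nat_lit 2271) (nat_lit 149) .nil)))))))) (.g (nat_lit 1) (.e (nat_lit 428766) (nat_lit 0) .nil) .nil))) 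
(.lf (nat_lit 604697) (.g (nat_lit 2082) (.e (nat_lit 778317) (nat_lit 3) (.e (nat_lit 57479) (nat_lit 28) (.e (nat_lit 557067) (nat_lit 9) (.e (nat_lit 3022) (nat_lit 187) .nil)))) (.g (nat_lit 0) (.e (nat_lit 431293) (nat_lit 0) .nil) .nil)))) (.nd (nat_lit 9) 
(.lf (nat_lit 604441) (.g (nat_lit 2483) (.e (nat_lit 770071) (nat_lit 8) (.e (nat_lit 65617) (nat_lit 10) (.e (nat_lit 344096) (nat_lit 18) (.e (nat_lit 7263) (nat_lit 384) (.e (nat_lit 57409) (nat_lit 12) (.e (nat_lit 336182) (nat_lit 11) (.e (nat_lit 368698) (nat_lit 43) .nil))))))) (.g (nat_lit 1) (.e (nat_lit 430901) (nat_lit 0) .nil) .nil))) 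
(.lf (nat_lit 604953) (.g (nat_lit 1807) (.e (nat_lit 778320) (nat_lit 4) (.e (nat_lit 65630) (nat_lit 14) (.e (nat_lit 401456) (nat_lit 13) (.e (nat_lit 483407) (nat_lit 26) (.e (nat_lit 385093) (nat_lit 49) .nil))))) (.g (nat_lit 0) (.e (nat_lit 431577) (nat_lit 0) .nil) .nil))))) (.nd (nat_lit 8) (.nd (nat_lit 9) 
(.lf (nat_lit 604313) (.g (nat_lit 1966) (.e (nat_lit 761899) (nat_lit 15) (.e (nat_lit 163979) (nat_lit 30) (.e (nat_lit 573489) (nat_lit 14) (.e (nat_lit 73753) (nat_lit 8) .nil)))) (.g (nat_lit 0) (.e (nat_lit 429086) (nat_lit 0) .nil) .nil))) 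
(.lf (nat_lit 604825) (.g (nat_lit 2603) (.e (nat_lit 778318) (nat_lit 3) (.e (nat_lit 57476) (nat_lit 28) (.e (nat_lit 557108) (nat_lit 15) (.e (nat_lit 188449) (nat_lit 22) (.e (nat_lit 196666) (nat_lit 13) (.e (nat_lit 65642) (nat_lit 15) (.e (nat_lit 3630) (nat_lit 227) .nil))))))) (.g (nat_lit 1) (.e (nat_lit 431443) (nat_lit 0) .nil) .nil)))) (.nd (nat_lit 9) 
(.lf (nat_lit 604569) (.g (nat_lit 1304) (.e (nat_lit 770072) (nat_lit 8) (.e (nat_lit 65586) (nat_lit 7) (.e (nat_lit 319534) (nat_lit 16) (.e (nat_lit 286756) (nat_lit 10) .nil)))) (.g (nat_lit 0) (.e (nat_lit 431034) (nat_lit 0) .nil) .nil))) 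
(.lf (nat_lit 605081) (.g (nat_lit 2359) (.e (nat_lit 778323) (nat_lit 5) (.e (nat_lit 73782) (nat_lit 32) (.e (nat_lit 3090) (nat_lit 191) (.e (nat_lit 483380) (nat_lit 23) (.e (nat_lit 336240) (nat_lit 15) (.e (nat_lit 3623) (nat_lit 227) .nil)))))) (.g (nat_lit 1) (.e (nat_lit 431715) (nat_lit 0) .nil) .nil)))))) (.nd (nat_lit 7) (.nd (nat_lit 8) (.nd (nat_lit 9) 
(.lf (nat_lit 604249) (.g (nat_lit 3182) (.e (nat_lit 761899) (nat_lit 15) (.e (nat_lit 163977) (nat_lit 30) (.e (nat_lit 573489) (nat_lit 14) (.e (nat_lit 73755) (nat_lit 8) (.e (nat_lit 557097) (nat_lit 13) (.e (nat_lit 172066) (nat_lit 3) (.e (nat_lit 204815) (nat_lit 17) (.e (nat_lit 2271) (nat_lit 149) .nil)))))))) (.g (nat_lit 1) (.e (nat_lit 428916) (nat_lit 0) .nil) .nil))) 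
(.lf (nat_lit 604761) (.g (nat_lit 2621) (.e (nat_lit 778318) (nat_lit 3) (.e (nat_lit 57476) (nat_lit 28) (.e (nat_lit 557107) (nat_lit 15) (.e (nat_lit 188450) (nat_lit 23) (.e (nat_lit 204851) (nat_lit 26) (.e (nat_lit 336306) (nat_lit 15) (.e (nat_lit 3618) (nat_lit 227) .nil))))))) (.g (nat_lit 1) (.e (nat_lit 431379) (nat_lit 0) .nil) .nil)))) (.nd (nat_lit 9) 
(.lf (nat_lit 604505) (.g (nat_lit 1023) (.e (nat_lit 770072) (nat_lit 8) (.e (nat_lit 65583) (nat_lit 7) (.e (nat_lit 319530) (nat_lit 16) (.e (nat_lit 286751) (nat_lit 10) .nil)))) (.g (nat_lit 0) (.e (nat_lit 430969) (nat_lit 0) .nil) .nil))) 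
(.lf (nat_lit 605017) (.g (nat_lit 1478) (.e (nat_lit 778323) (nat_lit 5) (.e (nat_lit 73781) (nat_lit 32) (.e (nat_lit 3090) (nat_lit 191) (.e (nat_lit 483379) (nat_lit 23) (.e (nat_lit 336266) (nat_lit 15) .nil))))) (.g (nat_lit 0) (.e (nat_lit 431651) (nat_lit 0) .nil) .nil))))) (.nd (nat_lit 8) (.nd (nat_lit 9) 
(.lf (nat_lit 604377) (.g (nat_lit 3332) (.e (nat_lit 770058) (nat_lit 5) (.e (nat_lit 1449) (nat_lit 108) (.e (nat_lit 336013) (nat_lit 2) (.e (nat_lit 90134) (nat_lit 9) (.e (nat_lit 3022) (nat_lit 187) .nil))))) (.g (nat_lit 0) (.e (nat_lit 430828) (nat_lit 0) .nil) .nil))) 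
(.lf (nat_lit 604889) (.g (nat_lit 3478) (.e (nat_lit 778318) (nat_lit 3) (.e (nat_lit 57476) (nat_lit 28) (.e (nat_lit 557108) (nat_lit 15) (.e (nat_lit 188452) (nat_lit 23) (.e (nat_lit 204859) (nat_lit 26) (.e (nat_lit 336300) (nat_lit 15) (.e (nat_lit 3632) (nat_lit 227) .nil))))))) (.g (nat_lit 1) (.e (nat_lit 431507) (nat_lit 0) .nil) .nil)))) (.nd (nat_lit 9) 
(.lf (nat_lit 604633) (.g (nat_lit 1710) (.e (nat_lit 770076) (nat_lit 12) (.e (nat_lit 131109) (nat_lit 9) (.e (nat_lit 336443) (nat_lit 32) (.e (nat_lit 466969) (nat_lit 21) (.e (nat_lit 164329) (nat_lit 230) (.e (nat_lit 163850) (nat_lit 0) (.e (nat_lit 3611) (nat_lit 226) .nil))))))) (.g (nat_lit 1) (.e (nat_lit 431105) (nat_lit 0) .nil) .nil))) 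
(.lf (nat_lit 605145) (.g (nat_lit 2272) (.e (nat_lit 778324) (nat_lit 5) (.e (nat_lit 73781) (nat_lit 32) (.e (nat_lit 3090) (nat_lit 191) (.e (nat_lit 483380) (nat_lit 23) (.e (nat_lit 336306) (nat_lit 15) .nil))))) (.g (nat_lit 0) (.e (nat_lit 431783) (nat_lit 0) .nil) .nil))))))) (.nd (nat_lit 6) (.nd (nat_lit 7) (.nd (nat_lit 8) (.nd (nat_lit 9) 
(.lf (nat_lit 604217) (.g (nat_lit 3228) (.e (nat_lit 761898) (nat_lit 15) (.e (nat_lit 163979) (nat_lit 30) (.e (nat_lit 573489) (nat_lit 14) (.e (nat_lit 73755) (nat_lit 8) (.e (nat_lit 557103) (nat_lit 14) (.e (nat_lit 180244) (nat_lit 5) (.e (nat_lit 532484) (nat_lit 0) (.e (nat_lit 2271) (nat_lit 149) .nil)))))))) (.g (nat_lit 1) (.e (nat_lit 428806) (nat_lit 0) .nil) .nil))) 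
(.lf (nat_lit 604729) (.g (nat_lit 2876) (.e (nat_lit 778318) (nat_lit 3) (.e (nat_lit 57476) (nat_lit 28) (.e (nat_lit 557097) (nat_lit 13) (.e (nat_lit 172115) (nat_lit 10) (.e (nat_lit 434231) (nat_lit 23) (.e (nat_lit 532528) (nat_lit 9) (.e (nat_lit 336260) (nat_lit 15) (.e (nat_lit 3629) (nat_lit 227) .nil)))))))) (.g (nat_lit 1) (.e (nat_lit 431345) (nat_lit 0) .nil) .nil)))) 
(.nd (nat_lit 9) 
(.lf (nat_lit 604473) (.g (nat_lit 4486) (.e (nat_lit 770072) (nat_lit 8) (.e (nat_lit 65569) (nat_lit 3) (.e (nat_lit 98373) (nat_lit 29) (.e (nat_lit 450587) (nat_lit 10) (.e (nat_lit 573473) (nat_lit 12) .nil))))) (.g (nat_lit 0) (.e (nat_lit 430937) (nat_lit 0) .nil) .nil))) 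
(.lf (nat_lit 604985) (.g (nat_lit 386) (.e (nat_lit 778322) (nat_lit 5) (.e (nat_lit 73782) (nat_lit 32) (.e (nat_lit 2857) (nat_lit 184) .nil))) (.g (nat_lit 0) (.e (nat_lit 431612) (nat_lit 0) .nil) .nil))))) (.nd (nat_lit 8) (.nd (nat_lit 9) 
(.lf (nat_lit 604345) (.g (nat_lit 2072) (.e (nat_lit 761899) (nat_lit 15) (.e (nat_lit 163979) (nat_lit 30) (.e (nat_lit 573489) (nat_lit 14) (.e (nat_lit 73755) (nat_lit 8) (.e (nat_lit 557104) (nat_lit 14) (.e (nat_lit 180243) (nat_lit 5) (.e (nat_lit 532484) (nat_lit 0) (.e (nat_lit 2272) (nat_lit 149) .nil)))))))) (.g (nat_lit 1) (.e (nat_lit 429124) (nat_lit 0) .nil) .nil))) 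
(.lf (nat_lit 604857) (.g (nat_lit 3864) (.e (nat_lit 778318) (nat_lit 3) (.e (nat_lit 57476) (nat_lit 28) (.e (nat_lit 557108) (nat_lit 15) (.e (nat_lit 188452) (nat_lit 23) (.e (nat_lit 204852) (nat_lit 26) (.e (nat_lit 336259) (nat_lit 15) (.e (nat_lit 3618) (nat_lit 227) .nil))))))) (.g (nat_lit 1) (.e (nat_lit 431475) (nat_lit 0) .nil) .nil)))) (.nd (nat_lit 9) 
(.lf (nat_lit 604601) (.g (nat_lit 1395) (.e (nat_lit 770072) (nat_lit 8) (.e (nat_lit 65627) (nat_lit 13) (.e (nat_lit 393301) (nat_lit 27) (.e (nat_lit 491552) (nat_lit 9) .nil)))) (.g (nat_lit 0) (.e (nat_lit 431068) (nat_lit 0) .nil) .nil))) 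
(.lf (nat_lit 605113) (.g (nat_lit 343) (.e (nat_lit 778324) (nat_lit 5) (.e (nat_lit 73781) (nat_lit 32) (.e (nat_lit 3087) (nat_lit 191) .nil))) (.g (nat_lit 0) (.e (nat_lit 431751) (nat_lit 0) .nil) .nil)))))) (.nd (nat_lit 7) (.nd (nat_lit 8) (.nd (nat_lit 9) 
(.lf (nat_lit 604281) (.g (nat_lit 3945) (.e (nat_lit 761899) (nat_lit 15) (.e (nat_lit 163978) (nat_lit 30) (.e (nat_lit 573489) (nat_lit 14) (.e (nat_lit 73755) (nat_lit 8) (.e (nat_lit 557096) (nat_lit 13) (.e (nat_lit 172067) (nat_lit 3) (.e (nat_lit 204817) (nat_lit 17) (.e (nat_lit 2272) (nat_lit 149) .nil)))))))) (.g (nat_lit 1) (.e (nat_lit 429011) (nat_lit 0) .nil) .nil))) 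
(.lf (nat_lit 604793) (.g (nat_lit 3273) (.e (nat_lit 778318) (nat_lit 3) (.e (nat_lit 57476) (nat_lit 28) (.e (nat_lit 557107) (nat_lit 15) (.e (nat_lit 188450) (nat_lit 23) (.e (nat_lit 204852) (nat_lit 26) (.e (nat_lit 336259) (nat_lit 15) (.e (nat_lit 3634) (nat_lit 227) .nil))))))) (.g (nat_lit 1) (.e (nat_lit 431411) (nat_lit 0) .nil) .nil)))) (.nd (nat_lit 9) 
(.lf (nat_lit 604537) (.g (nat_lit 2404) (.e (nat_lit 770072) (nat_lit 8) (.e (nat_lit 65586) (nat_lit 7) (.e (nat_lit 319531) (nat_lit 16) (.e (nat_lit 286748) (nat_lit 9) (.e (nat_lit 336295) (nat_lit 15) (.e (nat_lit 3757) (nat_lit 229) (.e (nat_lit 794638) (nat_lit 20) (.e (nat_lit 3606) (nat_lit 226) .nil)))))))) (.g (nat_lit 1) (.e (nat_lit 431001) (nat_lit 0) .nil) .nil))) 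
(.lf (nat_lit 605049) (.g (nat_lit 2819) (.e (nat_lit 778323) (nat_lit 5) (.e (nat_lit 73781) (nat_lit 32) (.e (nat_lit 3090) (nat_lit 191) (.e (nat_lit 483406) (nat_lit 26) (.e (nat_lit 385094) (nat_lit 49) .nil))))) (.g (nat_lit 1) (.e (nat_lit 431683) (nat_lit 0) .nil) .nil))))) (.nd (nat_lit 8) (.nd (nat_lit 9) 
(.lf (nat_lit 604409) (.g (nat_lit 2047) (.e (nat_lit 770071) (nat_lit 8) (.e (nat_lit 65586) (nat_lit 7) (.e (nat_lit 319531) (nat_lit 16) (.e (nat_lit 286748) (nat_lit 9) (.e (nat_lit 336031) (nat_lit 4) .nil))))) (.g (nat_lit 0) (.e (nat_lit 430863) (nat_lit 0) .nil) .nil))) 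
(.lf (nat_lit 604921) (.g (nat_lit 1761) (.e (nat_lit 778319) (nat_lit 4) (.e (nat_lit 65630) (nat_lit 14) (.e (nat_lit 401436) (nat_lit 9) (.e (nat_lit 426540) (nat_lit 29) (.e (nat_lit 352258) (nat_lit 0) .nil))))) (.g (nat_lit 0) (.e (nat_lit 431543) (nat_lit 0) .nil) .nil)))) (.nd (nat_lit 9) 
(.lf (nat_lit 604665) (.g (nat_lit 3543) (.e (nat_lit 778316) (nat_lit 3) (.e (nat_lit 57480) (nat_lit 28) (.e (nat_lit 557098) (nat_lit 13) (.e (nat_lit 172097) (nat_lit 9) (.e (nat_lit 426140) (nat_lit 3) (.e (nat_lit 204855) (nat_lit 26) (.e (nat_lit 336290) (nat_lit 15) (.e (nat_lit 3716) (nat_lit 227) .nil)))))))) (.g (nat_lit 1) (.e (nat_lit 431260) (nat_lit 0) .nil) .nil))) 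
(.lf (nat_lit 605177) (.g (nat_lit 1090) (.e (nat_lit 778325) (nat_lit 6) (.e (nat_lit 81924) (nat_lit 0) (.e (nat_lit 3632) (nat_lit 227) (.e (nat_lit 778326) (nat_lit 6) (.e (nat_lit 81921) (nat_lit 0) (.e (nat_lit 3716) (nat_lit 227) .nil)))))) (.g (nat_lit 1) (.e (nat_lit 431815) (nat_lit 0) .nil) .nil)))))))))) 
(.nd (nat_lit 3) (.nd (nat_lit 4) (.nd (nat_lit 5) (.nd (nat_lit 6) (.nd (nat_lit 7) 
(.nd (nat_lit 8) (.nd (nat_lit 9) 
(.lf (nat_lit 604165) (.g (nat_lit 3955) (.e (nat_lit 761898) (nat_lit 15) (.e (nat_lit 163979) (nat_lit 30) (.e (nat_lit 573487) (nat_lit 14) (.e (nat_lit 73753) (nat_lit 8) (.e (nat_lit 557103) (nat_lit 14) (.e (nat_lit 180244) (nat_lit 5) (.e (nat_lit 532484) (nat_lit 0) (.e (nat_lit 7936) (nat_lit 149) .nil)))))))) (.g (nat_lit 1) (.e (nat_lit 428745) (nat_lit 0) .nil) .nil))) 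
(.lf (nat_lit 604677) (.g (nat_lit 1203) (.e (nat_lit 778317) (nat_lit 3) (.e (nat_lit 57476) (nat_lit 28) (.e (nat_lit 557067) (nat_lit 9) (.e (nat_lit 3021) (nat_lit 187) .nil)))) (.g (nat_lit 0) (.e (nat_lit 431272) (nat_lit 0) .nil) .nil)))) (.nd (nat_lit 9) 
(.lf (nat_lit 604421) (.g (nat_lit 1884) (.e (nat_lit 770071) (nat_lit 8) (.e (nat_lit 65586) (nat_lit 7) (.e (nat_lit 319534) (nat_lit 16) (.e (nat_lit 286752) (nat_lit 10) .nil)))) (.g (nat_lit 0) (.e (nat_lit 430876) (nat_lit 0) .nil) .nil))) 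
(.lf (nat_lit 604933) (.g (nat_lit 1758) (.e (nat_lit 778320) (nat_lit 4) (.e (nat_lit 65630) (nat_lit 14) (.e (nat_lit 401437) (nat_lit 9) (.e (nat_lit 426538) (nat_lit 29) .nil)))) (.g (nat_lit 0) (.e (nat_lit 431557) (nat_lit 0) .nil) .nil))))) (.nd (nat_lit 8) (.nd (nat_lit 9) 
(.lf (nat_lit 604293) (.g (nat_lit 4460) (.e (nat_lit 761899) (nat_lit 15) (.e (nat_lit 163978) (nat_lit 30) (.e (nat_lit 573489) (nat_lit 14) (.e (nat_lit 73755) (nat_lit 8) (.e (nat_lit 557098) (nat_lit 13) (.e (nat_lit 172067) (nat_lit 3) (.e (nat_lit 204821) (nat_lit 17) (.e (nat_lit 2264) (nat_lit 149) .nil)))))))) (.g (nat_lit 1) (.e (nat_lit 429025) (nat_lit 0) .nil) .nil))) 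
(.lf (nat_lit 604805) (.g (nat_lit 3022) (.e (nat_lit 778318) (nat_lit 3) (.e (nat_lit 57476) (nat_lit 28) (.e (nat_lit 557107) (nat_lit 15) (.e (nat_lit 188450) (nat_lit 23) (.e (nat_lit 204852) (nat_lit 26) (.e (nat_lit 336306) (nat_lit 15) (.e (nat_lit 3618) (nat_lit 227) .nil))))))) (.g (nat_lit 1) (.e (nat_lit 431423) (nat_lit 0) .nil) .nil)))) (.nd (nat_lit 9) 
(.lf (nat_lit 604549) (.g (nat_lit 2587) (.e (nat_lit 770072) (nat_lit 8) (.e (nat_lit 65586) (nat_lit 7) (.e (nat_lit 319531) (nat_lit 16) (.e (nat_lit 286753) (nat_lit 10) (.e (nat_lit 344160) (nat_lit 37) .nil))))) (.g (nat_lit 0) (.e (nat_lit 431013) (nat_lit 0) .nil) .nil))) 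
(.lf (nat_lit 605061) (.g (nat_lit 2515) (.e (nat_lit 778323) (nat_lit 5) (.e (nat_lit 73782) (nat_lit 32) (.e (nat_lit 2856) (nat_lit 184) (.e (nat_lit 426555) (nat_lit 32) (.e (nat_lit 376837) (nat_lit 0) (.e (nat_lit 3632) (nat_lit 227) .nil)))))) (.g (nat_lit 1) (.e (nat_lit 431695) (nat_lit 0) .nil) .nil)))))) (.nd (nat_lit 7) (.nd (nat_lit 8) (.nd (nat_lit 9) 
(.lf (nat_lit 604229) (.g (nat_lit 3658) (.e (nat_lit 761898) (nat_lit 15) (.e (nat_lit 163979) (nat_lit 30) (.e (nat_lit 573489) (nat_lit 14) (.e (nat_lit 73755) (nat_lit 8) (.e (nat_lit 557104) (nat_lit 14) (.e (nat_lit 180244) (nat_lit 5) (.e (nat_lit 532484) (nat_lit 0) (.e (nat_lit 2271) (nat_lit 149) .nil)))))))) (.g (nat_lit 1) (.e (nat_lit 428818) (nat_lit 0) .nil) .nil))) 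
(.lf (nat_lit 604741) (.g (nat_lit 3865) (.e (nat_lit 778318) (nat_lit 3) (.e (nat_lit 57476) (nat_lit 28) (.e (nat_lit 557097) (nat_lit 13) (.e (nat_lit 172115) (nat_lit 10) (.e (nat_lit 434231) (nat_lit 23) (.e (nat_lit 532529) (nat_lit 9) (.e (nat_lit 336297) (nat_lit 15) (.e (nat_lit 3629) (nat_lit 227) .nil)))))))) (.g (nat_lit 1) (.e (nat_lit 431357) (nat_lit 0) .nil) .nil)))) 
(.nd (nat_lit 9) 
(.lf (nat_lit 604485) (.g (nat_lit 1244) (.e (nat_lit 770072) (nat_lit 8) (.e (nat_lit 65571) (nat_lit 3) (.e (nat_lit 98361) (nat_lit 26) .nil))) (.g (nat_lit 0) (.e (nat_lit 430949) (nat_lit 0) .nil) .nil))) 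
(.lf (nat_lit 604997) (.g (nat_lit 1873) (.e (nat_lit 778323) (nat_lit 5) (.e (nat_lit 73781) (nat_lit 32) (.e (nat_lit 2857) (nat_lit 184) (.e (nat_lit 426482) (nat_lit 27) (.e (nat_lit 336197) (nat_lit 12) .nil))))) (.g (nat_lit 0) (.e (nat_lit 431631) (nat_lit 0) .nil) .nil))))) (.nd (nat_lit 8) (.nd (nat_lit 9) 
(.lf (nat_lit 604357) (.g (nat_lit 1405) (.e (nat_lit 761905) (nat_lit 16) (.e (nat_lit 172087) (nat_lit 9) (.e (nat_lit 426482) (nat_lit 27) (.e (nat_lit 336060) (nat_lit 7) (.e (nat_lit 319533) (nat_lit 16) .nil))))) (.g (nat_lit 0) (.e (nat_lit 429902) (nat_lit 0) .nil) .nil))) 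
(.lf (nat_lit 604869) (.g (nat_lit 3401) (.e (nat_lit 778318) (nat_lit 3) (.e (nat_lit 57476) (nat_lit 28) (.e (nat_lit 557108) (nat_lit 15) (.e (nat_lit 188452) (nat_lit 23) (.e (nat_lit 204852) (nat_lit 26) (.e (nat_lit 336260) (nat_lit 15) (.e (nat_lit 3629) (nat_lit 227) .nil))))))) (.g (nat_lit 1) (.e (nat_lit 431487) (nat_lit 0) .nil) .nil)))) (.nd (nat_lit 9) 
(.lf (nat_lit 604613) (.g (nat_lit 2865) (.e (nat_lit 770072) (nat_lit 8) (.e (nat_lit 65630) (nat_lit 14) (.e (nat_lit 401454) (nat_lit 12) (.e (nat_lit 475213) (nat_lit 42) .nil)))) (.g (nat_lit 0) (.e (nat_lit 431084) (nat_lit 0) .nil) .nil))) 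
(.lf (nat_lit 605125) (.g (nat_lit 1111) (.e (nat_lit 778324) (nat_lit 5) (.e (nat_lit 73781) (nat_lit 32) (.e (nat_lit 3090) (nat_lit 191) (.e (nat_lit 483380) (nat_lit 23) .nil)))) (.g (nat_lit 0) (.e (nat_lit 431763) (nat_lit 0) .nil) .nil))))))) (.nd (nat_lit 6) (.nd (nat_lit 7) (.nd (nat_lit 8) (.nd (nat_lit 9) 
(.lf (nat_lit 604197) (.g (nat_lit 4320) (.e (nat_lit 761898) (nat_lit 15) (.e (nat_lit 163979) (nat_lit 30) (.e (nat_lit 573489) (nat_lit 14) (.e (nat_lit 73755) (nat_lit 8) (.e (nat_lit 557097) (nat_lit 13) (.e (nat_lit 172065) (nat_lit 3) (.e (nat_lit 204817) (nat_lit 17) (.e (nat_lit 7936) (nat_lit 149) .nil)))))))) (.g (nat_lit 1) (.e (nat_lit 428783) (nat_lit 0) .nil) .nil))) 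
(.lf (nat_lit 604709) (.g (nat_lit 5203) (.e (nat_lit 778317) (nat_lit 3) (.e (nat_lit 57480) (nat_lit 28) (.e (nat_lit 557099) (nat_lit 13) (.e (nat_lit 172106) (nat_lit 10) (.e (nat_lit 434231) (nat_lit 23) (.e (nat_lit 532535) (nat_lit 9) (.e (nat_lit 336295) (nat_lit 15) (.e (nat_lit 3631) (nat_lit 227) .nil)))))))) (.g (nat_lit 1) (.e (nat_lit 431312) (nat_lit 0) .nil) .nil)))) 
(.nd (nat_lit 9) 
(.lf (nat_lit 604453) (.g (nat_lit 2390) (.e (nat_lit 770071) (nat_lit 8) (.e (nat_lit 65625) (nat_lit 13) (.e (nat_lit 393234) (nat_lit 17) (.e (nat_lit 7591) (nat_lit 407) (.e (nat_lit 73773) (nat_lit 25) .nil))))) (.g (nat_lit 1) (.e (nat_lit 430913) (nat_lit 0) .nil) .nil))) 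
(.lf (nat_lit 604965) (.g (nat_lit 1473) (.e (nat_lit 778321) (nat_lit 4) (.e (nat_lit 65628) (nat_lit 14) (.e (nat_lit 401457) (nat_lit 13) (.e (nat_lit 483406) (nat_lit 26) .nil)))) (.g (nat_lit 0) (.e (nat_lit 431589) (nat_lit 0) .nil) .nil))))) (.nd (nat_lit 8) (.nd (nat_lit 9) 
(.lf (nat_lit 604325) (.g (nat_lit 2967) (.e (nat_lit 761899) (nat_lit 15) (.e (nat_lit 163979) (nat_lit 30) (.e (nat_lit 573489) (nat_lit 14) (.e (nat_lit 73755) (nat_lit 8) (.e (nat_lit 557096) (nat_lit 13) (.e (nat_lit 172067) (nat_lit 3) (.e (nat_lit 204815) (nat_lit 17) (.e (nat_lit 2271) (nat_lit 149) .nil)))))))) (.g (nat_lit 1) (.e (nat_lit 429100) (nat_lit 0) .nil) .nil))) 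
(.lf (nat_lit 604837) (.g (nat_lit 3049) (.e (nat_lit 778318) (nat_lit 3) (.e (nat_lit 57476) (nat_lit 28) (.e (nat_lit 557108) (nat_lit 15) (.e (nat_lit 188452) (nat_lit 23) (.e (nat_lit 204852) (nat_lit 26) (.e (nat_lit 336240) (nat_lit 15) (.e (nat_lit 3617) (nat_lit 227) .nil))))))) (.g (nat_lit 1) (.e (nat_lit 431455) (nat_lit 0) .nil) .nil)))) (.nd (nat_lit 9) 
(.lf (nat_lit 604581) (.g (nat_lit 2635) (.e (nat_lit 770072) (nat_lit 8) (.e (nat_lit 65617) (nat_lit 10) (.e (nat_lit 344091) (nat_lit 18) (.e (nat_lit 7265) (nat_lit 384) (.e (nat_lit 57406) (nat_lit 12) (.e (nat_lit 336182) (nat_lit 11) (.e (nat_lit 368698) (nat_lit 43) .nil))))))) (.g (nat_lit 1) (.e (nat_lit 431048) (nat_lit 0) .nil) .nil))) 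
(.lf (nat_lit 605093) (.g (nat_lit 2566) (.e (nat_lit 778323) (nat_lit 5) (.e (nat_lit 73782) (nat_lit 32) (.e (nat_lit 3090) (nat_lit 191) (.e (nat_lit 483380) (nat_lit 23) (.e (nat_lit 336283) (nat_lit 15) (.e (nat_lit 3631) (nat_lit 227) .nil)))))) (.g (nat_lit 1) (.e (nat_lit 431727) (nat_lit 0) .nil) .nil)))))) (.nd (nat_lit 7) (.nd (nat_lit 8) (.nd (nat_lit 9) 
(.lf (nat_lit 604261) (.g (nat_lit 4082) (.e (nat_lit 761899) (nat_lit 15) (.e (nat_lit 163977) (nat_lit 30) (.e (nat_lit 573489) (nat_lit 14) (.e (nat_lit 73755) (nat_lit 8) (.e (nat_lit 557103) (nat_lit 14) (.e (nat_lit 180244) (nat_lit 5) (.e (nat_lit 532484) (nat_lit 0) (.e (nat_lit 7936) (nat_lit 149) .nil)))))))) (.g (nat_lit 1) (.e (nat_lit 428928) (nat_lit 0) .nil) .nil))) 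
(.lf (nat_lit 604773) (.g (nat_lit 3912) (.e (nat_lit 778318) (nat_lit 3) (.e (nat_lit 57476) (nat_lit 28) (.e (nat_lit 557107) (nat_lit 15) (.e (nat_lit 188450) (nat_lit 23) (.e (nat_lit 204852) (nat_lit 26) (.e (nat_lit 336257) (nat_lit 15) (.e (nat_lit 3620) (nat_lit 227) .nil))))))) (.g (nat_lit 1) (.e (nat_lit 431391) (nat_lit 0) .nil) .nil)))) (.nd (nat_lit 9) 
(.lf (nat_lit 604517) (.g (nat_lit 2504) (.e (nat_lit 770072) (nat_lit 8) (.e (nat_lit 65583) (nat_lit 7) (.e (nat_lit 319530) (nat_lit 16) (.e (nat_lit 286759) (nat_lit 12) (.e (nat_lit 385115) (nat_lit 53) (.e (nat_lit 811031) (nat_lit 11) (.e (nat_lit 7936) (nat_lit 74) .nil))))))) (.g (nat_lit 1) (.e (nat_lit 430981) (nat_lit 0) .nil) .nil))) 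
(.lf (nat_lit 605029) (.g (nat_lit 1913) (.e (nat_lit 778323) (nat_lit 5) (.e (nat_lit 73781) (nat_lit 32) (.e (nat_lit 3090) (nat_lit 191) (.e (nat_lit 483380) (nat_lit 23) (.e (nat_lit 336262) (nat_lit 15) .nil))))) (.g (nat_lit 0) (.e (nat_lit 431663) (nat_lit 0) .nil) .nil))))) (.nd (nat_lit 8) (.nd (nat_lit 9) 
(.lf (nat_lit 604389) (.g (nat_lit 4632) (.e (nat_lit 770071) (nat_lit 8) (.e (nat_lit 65569) (nat_lit 3) (.e (nat_lit 98359) (nat_lit 26) (.e (nat_lit 426286) (nat_lit 10) (.e (nat_lit 434248) (nat_lit 28) (.e (nat_lit 573475) (nat_lit 12) (.e (nat_lit 57572) (nat_lit 54) .nil))))))) (.g (nat_lit 1) (.e (nat_lit 430842) (nat_lit 0) .nil) .nil))) 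
(.lf (nat_lit 604901) (.g (nat_lit 2389) (.e (nat_lit 786176) (nat_lit 3) (.e (nat_lit 57478) (nat_lit 28) (.e (nat_lit 557109) (nat_lit 15) (.e (nat_lit 188452) (nat_lit 23) (.e (nat_lit 204880) (nat_lit 32) .nil))))) (.g (nat_lit 0) (.e (nat_lit 431521) (nat_lit 0) .nil) .nil)))) (.nd (nat_lit 9) 
(.lf (nat_lit 604645) (.g (nat_lit 1583) (.e (nat_lit 778316) (nat_lit 3) (.e (nat_lit 57476) (nat_lit 28) (.e (nat_lit 557107) (nat_lit 15) (.e (nat_lit 188450) (nat_lit 23) (.e (nat_lit 204881) (nat_lit 32) .nil))))) (.g (nat_lit 0) (.e (nat_lit 431240) (nat_lit 0) .nil) .nil))) 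
(.lf (nat_lit 605157) (.g (nat_lit 2201) (.e (nat_lit 778324) (nat_lit 5) (.e (nat_lit 73781) (nat_lit 32) (.e (nat_lit 3090) (nat_lit 191) (.e (nat_lit 483403) (nat_lit 26) (.e (nat_lit 385092) (nat_lit 49) .nil))))) (.g (nat_lit 0) (.e (nat_lit 431795) (nat_lit 0) .nil) .nil)))))))) (.nd (nat_lit 5) (.nd (nat_lit 6) (.nd (nat_lit 7) (.nd (nat_lit 8) (.nd (nat_lit 9) 
(.lf (nat_lit 604181) (.g (nat_lit 2551) (.e (nat_lit 761898) (nat_lit 15) (.e (nat_lit 163979) (nat_lit 30) (.e (nat_lit 573489) (nat_lit 14) (.e (nat_lit 73754) (nat_lit 8) (.e (nat_lit 557095) (nat_lit 13) .nil))))) (.g (nat_lit 0) (.e (nat_lit 428761) (nat_lit 0) .nil) .nil))) 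
(.lf (nat_lit 604693) (.g (nat_lit 1731) (.e (nat_lit 778317) (nat_lit 3) (.e (nat_lit 57477) (nat_lit 28) (.e (nat_lit 557107) (nat_lit 15) (.e (nat_lit 188452) (nat_lit 23) (.e (nat_lit 204852) (nat_lit 26) .nil))))) (.g (nat_lit 0) (.e (nat_lit 431288) (nat_lit 0) .nil) .nil)))) (.nd (nat_lit 9) 
(.lf (nat_lit 604437) (.g (nat_lit 1589) (.e (nat_lit 770071) (nat_lit 8) (.e (nat_lit 65616) (nat_lit 10) (.e (nat_lit 344177) (nat_lit 43) (.e (nat_lit 770074) (nat_lit 10) (.e (nat_lit 81942) (nat_lit 20) .nil))))) (.g (nat_lit 0) (.e (nat_lit 430897) (nat_lit 0) .nil) .nil))) 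
(.lf (nat_lit 604949) (.g (nat_lit 1132) (.e (nat_lit 778320) (nat_lit 4) (.e (nat_lit 65630) (nat_lit 14) (.e (nat_lit 401456) (nat_lit 13) (.e (nat_lit 483405) (nat_lit 26) .nil)))) (.g (nat_lit 0) (.e (nat_lit 431573) (nat_lit 0) .nil) .nil))))) (.nd (nat_lit 8) (.nd (nat_lit 9) 
(.lf (nat_lit 604309) (.g (nat_lit 2503) (.e (nat_lit 761899) (nat_lit 15) (.e (nat_lit 163978) (nat_lit 30) (.e (nat_lit 573489) (nat_lit 14) (.e (nat_lit 73755) (nat_lit 8) (.e (nat_lit 557105) (nat_lit 14) (.e (nat_lit 180245) (nat_lit 5) (.e (nat_lit 532488) (nat_lit 0) (.e (nat_lit 7936) (nat_lit 149) .nil)))))))) (.g (nat_lit 1) (.e (nat_lit 429043) (nat_lit 0) .nil) .nil))) 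
(.lf (nat_lit 604821) (.g (nat_lit 2581) (.e (nat_lit 778318) (nat_lit 3) (.e (nat_lit 57476) (nat_lit 28) (.e (nat_lit 557108) (nat_lit 15) (.e (nat_lit 188447) (nat_lit 22) (.e (nat_lit 196664) (nat_lit 13) .nil))))) (.g (nat_lit 0) (.e (nat_lit 431439) (nat_lit 0) .nil) .nil)))) (.nd (nat_lit 9) 
(.lf (nat_lit 604565) (.g (nat_lit 2201) (.e (nat_lit 770072) (nat_lit 8) (.e (nat_lit 65586) (nat_lit 7) (.e (nat_lit 319534) (nat_lit 16) (.e (nat_lit 286751) (nat_lit 10) .nil)))) (.g (nat_lit 0) (.e (nat_lit 431030) (nat_lit 0) .nil) .nil))) 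
(.lf (nat_lit 605077) (.g (nat_lit 2752) (.e (nat_lit 778323) (nat_lit 5) (.e (nat_lit 73782) (nat_lit 32) (.e (nat_lit 3089) (nat_lit 191) (.e (nat_lit 483406) (nat_lit 26) (.e (nat_lit 385094) (nat_lit 49) .nil))))) (.g (nat_lit 1) (.e (nat_lit 431711) (nat_lit 0) .nil) .nil)))))) (.nd (nat_lit 7) (.nd (nat_lit 8) (.nd (nat_lit 9) 
(.lf (nat_lit 604245) (.g (nat_lit 2761) (.e (nat_lit 761899) (nat_lit 15) (.e (nat_lit 163977) (nat_lit 30) (.e (nat_lit 573489) (nat_lit 14) (.e (nat_lit 73755) (nat_lit 8) (.e (nat_lit 557096) (nat_lit 13) (.e (nat_lit 172067) (nat_lit 3) (.e (nat_lit 204821) (nat_lit 17) (.e (nat_lit 2264) (nat_lit 149) .nil)))))))) (.g (nat_lit 1) (.e (nat_lit 428909) (nat_lit 0) .nil) .nil))) 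
(.lf (nat_lit 604757) (.g (nat_lit 4651) (.e (nat_lit 778318) (nat_lit 3) (.e (nat_lit 57476) (nat_lit 28) (.e (nat_lit 557100) (nat_lit 13) (.e (nat_lit 172106) (nat_lit 10) (.e (nat_lit 434231) (nat_lit 23) (.e (nat_lit 532535) (nat_lit 9) (.e (nat_lit 336295) (nat_lit 15) (.e (nat_lit 3631) (nat_lit 227) .nil)))))))) (.g (nat_lit 1) (.e (nat_lit 431375) (nat_lit 0) .nil) .nil)))) 
(.nd (nat_lit 9) 
(.lf (nat_lit 604501) (.g (nat_lit 2694) (.e (nat_lit 770072) (nat_lit 8) (.e (nat_lit 65583) (nat_lit 7) (.e (nat_lit 319530) (nat_lit 16) (.e (nat_lit 286748) (nat_lit 9) (.e (nat_lit 336295) (nat_lit 15) (.e (nat_lit 3806) (nat_lit 231) (.e (nat_lit 811032) (nat_lit 11) (.e (nat_lit 852) (nat_lit 74) .nil)))))))) (.g (nat_lit 1) (.e (nat_lit 430965) (nat_lit 0) .nil) .nil))) 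
(.lf (nat_lit 605013) (.g (nat_lit 1377) (.e (nat_lit 778323) (nat_lit 5) (.e (nat_lit 73781) (nat_lit 32) (.e (nat_lit 3089) (nat_lit 191) (.e (nat_lit 483402) (nat_lit 26) (.e (nat_lit 385092) (nat_lit 49) .nil))))) (.g (nat_lit 0) (.e (nat_lit 431647) (nat_lit 0) .nil) .nil))))) (.nd (nat_lit 8) (.nd (nat_lit 9) 
(.lf (nat_lit 604373) (.g (nat_lit 712) (.e (nat_lit 761914) (nat_lit 18) (.e (nat_lit 188455) (nat_lit 24) (.e (nat_lit 229632) (nat_lit 226) .nil))) (.g (nat_lit 0) (.e (nat_lit 430700) (nat_lit 0) .nil) .nil))) 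
(.lf (nat_lit 604885) (.g (nat_lit 2773) (.e (nat_lit 778318) (nat_lit 3) (.e (nat_lit 57476) (nat_lit 28) (.e (nat_lit 557108) (nat_lit 15) (.e (nat_lit 188452) (nat_lit 23) (.e (nat_lit 204855) (nat_lit 26) (.e (nat_lit 336295) (nat_lit 15) (.e (nat_lit 3630) (nat_lit 227) .nil))))))) (.g (nat_lit 1) (.e (nat_lit 431503) (nat_lit 0) .nil) .nil)))) (.nd (nat_lit 9) 
(.lf (nat_lit 604629) (.g (nat_lit 1321) (.e (nat_lit 770074) (nat_lit 10) (.e (nat_lit 81927) (nat_lit 11) (.e (nat_lit 426342) (nat_lit 14) (.e (nat_lit 491558) (nat_lit 10) (.e (nat_lit 344175) (nat_lit 43) .nil))))) (.g (nat_lit 0) (.e (nat_lit 431100) (nat_lit 0) .nil) .nil))) 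
(.lf (nat_lit 605141) (.g (nat_lit 2072) (.e (nat_lit 778324) (nat_lit 5) (.e (nat_lit 73781) (nat_lit 32) (.e (nat_lit 3090) (nat_lit 191) (.e (nat_lit 483380) (nat_lit 23) (.e (nat_lit 336261) (nat_lit 15) .nil))))) (.g (nat_lit 0) (.e (nat_lit 431779) (nat_lit 0) .nil) .nil))))))) (.nd (nat_lit 6) (.nd (nat_lit 7) (.nd (nat_lit 8) (.nd (nat_lit 9) 
(.lf (nat_lit 604213) (.g (nat_lit 3261) (.e (nat_lit 761898) (nat_lit 15) (.e (nat_lit 163979) (nat_lit 30) (.e (nat_lit 573489) (nat_lit 14) (.e (nat_lit 73755) (nat_lit 8) (.e (nat_lit 557098) (nat_lit 13) (.e (nat_lit 172067) (nat_lit 3) (.e (nat_lit 204816) (nat_lit 17) (.e (nat_lit 2273) (nat_lit 149) .nil)))))))) (.g (nat_lit 1) (.e (nat_lit 428802) (nat_lit 0) .nil) .nil))) 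
(.lf (nat_lit 604725) (.g (nat_lit 2578) (.e (nat_lit 778318) (nat_lit 3) (.e (nat_lit 57476) (nat_lit 28) (.e (nat_lit 557097) (nat_lit 13) (.e (nat_lit 172115) (nat_lit 10) (.e (nat_lit 434231) (nat_lit 23) (.e (nat_lit 532528) (nat_lit 9) (.e (nat_lit 336259) (nat_lit 15) (.e (nat_lit 3618) (nat_lit 227) .nil)))))))) (.g (nat_lit 1) (.e (nat_lit 431341) (nat_lit 0) .nil) .nil)))) 
(.nd (nat_lit 9) 
(.lf (nat_lit 604469) (.g (nat_lit 3724) (.e (nat_lit 770072) (nat_lit 8) (.e (nat_lit 65568) (nat_lit 2) (.e (nat_lit 90170) (nat_lit 13) (.e (nat_lit 172113) (nat_lit 10) (.e (nat_lit 434247) (nat_lit 28) (.e (nat_lit 573473) (nat_lit 12) (.e (nat_lit 57572) (nat_lit 54) .nil))))))) (.g (nat_lit 1) (.e (nat_lit 430933) (nat_lit 0) .nil) .nil))) 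
(.lf (nat_lit 604981) (.g (nat_lit 2293) (.e (nat_lit 778322) (nat_lit 5) (.e (nat_lit 73781) (nat_lit 32) (.e (nat_lit 3090) (nat_lit 191) (.e (nat_lit 483403) (nat_lit 26) (.e (nat_lit 385100) (nat_lit 49) .nil))))) (.g (nat_lit 1) (.e (nat_lit 431608) (nat_lit 0) .nil) .nil))))) (.nd (nat_lit 8) (.nd (nat_lit 9) 
(.lf (nat_lit 604341) (.g (nat_lit 2632) (.e (nat_lit 761899) (nat_lit 15) (.e (nat_lit 163979) (nat_lit 30) (.e (nat_lit 573489) (nat_lit 14) (.e (nat_lit 73755) (nat_lit 8) (.e (nat_lit 557103) (nat_lit 14) (.e (nat_lit 180244) (nat_lit 5) (.e (nat_lit 532484) (nat_lit 0) (.e (nat_lit 2271) (nat_lit 149) .nil)))))))) (.g (nat_lit 1) (.e (nat_lit 429120) (nat_lit 0) .nil) .nil))) 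
(.lf (nat_lit 604853) (.g (nat_lit 4101) (.e (nat_lit 778318) (nat_lit 3) (.e (nat_lit 57476) (nat_lit 28) (.e (nat_lit 557108) (nat_lit 15) (.e (nat_lit 188452) (nat_lit 23) (.e (nat_lit 204852) (nat_lit 26) (.e (nat_lit 336257) (nat_lit 15) (.e (nat_lit 3670) (nat_lit 227) .nil))))))) (.g (nat_lit 1) (.e (nat_lit 431471) (nat_lit 0) .nil) .nil)))) (.nd (nat_lit 9) 
(.lf (nat_lit 604597) (.g (nat_lit 2014) (.e (nat_lit 770072) (nat_lit 8) (.e (nat_lit 65627) (nat_lit 13) (.e (nat_lit 393298) (nat_lit 27) (.e (nat_lit 491547) (nat_lit 9) (.e (nat_lit 335878) (nat_lit 0) .nil))))) (.g (nat_lit 0) (.e (nat_lit 431064) (nat_lit 0) .nil) .nil))) 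
(.lf (nat_lit 605109) (.g (nat_lit 1053) (.e (nat_lit 778324) (nat_lit 5) (.e (nat_lit 73781) (nat_lit 32) (.e (nat_lit 2857) (nat_lit 184) (.e (nat_lit 426484) (nat_lit 27) .nil)))) (.g (nat_lit 0) (.e (nat_lit 431747) (nat_lit 0) .nil) .nil)))))) (.nd (nat_lit 7) (.nd (nat_lit 8) (.nd (nat_lit 9) 
(.lf (nat_lit 604277) (.g (nat_lit 2677) (.e (nat_lit 761899) (nat_lit 15) (.e (nat_lit 163978) (nat_lit 30) (.e (nat_lit 573489) (nat_lit 14) (.e (nat_lit 73754) (nat_lit 8) (.e (nat_lit 557101) (nat_lit 13) (.e (nat_lit 172067) (nat_lit 3) (.e (nat_lit 204817) (nat_lit 17) (.e (nat_lit 7936) (nat_lit 149) .nil)))))))) (.g (nat_lit 1) (.e (nat_lit 429005) (nat_lit 0) .nil) .nil))) 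
(.lf (nat_lit 604789) (.g (nat_lit 3047) (.e (nat_lit 778318) (nat_lit 3) (.e (nat_lit 57476) (nat_lit 28) (.e (nat_lit 557107) (nat_lit 15) (.e (nat_lit 188450) (nat_lit 23) (.e (nat_lit 204852) (nat_lit 26) (.e (nat_lit 336259) (nat_lit 15) (.e (nat_lit 3621) (nat_lit 227) .nil))))))) (.g (nat_lit 1) (.e (nat_lit 431407) (nat_lit 0) .nil) .nil)))) (.nd (nat_lit 9) 
(.lf (nat_lit 604533) (.g (nat_lit 2130) (.e (nat_lit 770072) (nat_lit 8) (.e (nat_lit 65586) (nat_lit 7) (.e (nat_lit 319531) (nat_lit 16) (.e (nat_lit 286748) (nat_lit 9) (.e (nat_lit 335909) (nat_lit 0) .nil))))) (.g (nat_lit 0) (.e (nat_lit 430997) (nat_lit 0) .nil) .nil))) 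
(.lf (nat_lit 605045) (.g (nat_lit 1979) (.e (nat_lit 778323) (nat_lit 5) (.e (nat_lit 73781) (nat_lit 32) (.e (nat_lit 3090) (nat_lit 191) (.e (nat_lit 483393) (nat_lit 23) (.e (nat_lit 336275) (nat_lit 15) .nil))))) (.g (nat_lit 0) (.e (nat_lit 431679) (nat_lit 0) .nil) .nil))))) (.nd (nat_lit 8) (.nd (nat_lit 9) 
(.lf (nat_lit 604405) (.g (nat_lit 2268) (.e (nat_lit 770071) (nat_lit 8) (.e (nat_lit 65586) (nat_lit 7) (.e (nat_lit 319531) (nat_lit 16) (.e (nat_lit 286748) (nat_lit 9) (.e (nat_lit 335909) (nat_lit 0) .nil))))) (.g (nat_lit 0) (.e (nat_lit 430859) (nat_lit 0) .nil) .nil))) 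
(.lf (nat_lit 604917) (.g (nat_lit 1899) (.e (nat_lit 778319) (nat_lit 4) (.e (nat_lit 65586) (nat_lit 7) (.e (nat_lit 319534) (nat_lit 16) (.e (nat_lit 294656) (nat_lit 35) .nil)))) (.g (nat_lit 0) (.e (nat_lit 431538) (nat_lit 0) .nil) .nil)))) (.nd (nat_lit 9) 
(.lf (nat_lit 604661) (.g (nat_lit 1680) (.e (nat_lit 778316) (nat_lit 3) (.e (nat_lit 57479) (nat_lit 28) (.e (nat_lit 557106) (nat_lit 15) (.e (nat_lit 188452) (nat_lit 23) .nil)))) (.g (nat_lit 0) (.e (nat_lit 431256) (nat_lit 0) .nil) .nil))) 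
(.lf (nat_lit 605173) (.g (nat_lit 1050) (.e (nat_lit 778325) (nat_lit 6) (.e (nat_lit 81922) (nat_lit 0) (.e (nat_lit 3632) (nat_lit 227) (.e (nat_lit 778327) (nat_lit 6) (.e (nat_lit 81920) (nat_lit 0) .nil))))) (.g (nat_lit 0) (.e (nat_lit 431811) (nat_lit 0) .nil) .nil))))))))) (.nd (nat_lit 4) (.nd (nat_lit 5) (.nd (nat_lit 6) (.nd (nat_lit 7) (.nd (nat_lit 8) (.nd (nat_lit 9) 
(.lf (nat_lit 604173) (.g (nat_lit 2995) (.e (nat_lit 761898) (nat_lit 15) (.e (nat_lit 163979) (nat_lit 30) (.e (nat_lit 573488) (nat_lit 14) (.e (nat_lit 73755) (nat_lit 8) (.e (nat_lit 557098) (nat_lit 13) .nil))))) (.g (nat_lit 0) (.e (nat_lit 428753) (nat_lit 0) .nil) .nil))) 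
(.lf (nat_lit 604685) (.g (nat_lit 4017) (.e (nat_lit 778317) (nat_lit 3) (.e (nat_lit 57476) (nat_lit 28) (.e (nat_lit 557067) (nat_lit 9) (.e (nat_lit 3022) (nat_lit 187) (.e (nat_lit 450580) (nat_lit 5) (.e (nat_lit 532566) (nat_lit 15) (.e (nat_lit 385092) (nat_lit 49) .nil))))))) (.g (nat_lit 1) (.e (nat_lit 431280) (nat_lit 0) .nil) .nil)))) (.nd (nat_lit 9) 
(.lf (nat_lit 604429) (.g (nat_lit 1490) (.e (nat_lit 770071) (nat_lit 8) (.e (nat_lit 65610) (nat_lit 10) (.e (nat_lit 344097) (nat_lit 18) (.e (nat_lit 7144) (nat_lit 382) .nil)))) (.g (nat_lit 0) (.e (nat_lit 430889) (nat_lit 0) .nil) .nil))) 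
(.lf (nat_lit 604941) (.g (nat_lit 1463) (.e (nat_lit 778320) (nat_lit 4) (.e (nat_lit 65630) (nat_lit 14) (.e (nat_lit 401438) (nat_lit 9) (.e (nat_lit 426489) (nat_lit 27) .nil)))) (.g (nat_lit 0) (.e (nat_lit 431565) (nat_lit 0) .nil) .nil))))) (.nd (nat_lit 8) (.nd (nat_lit 9) 
(.lf (nat_lit 604301) (.g (nat_lit 2647) (.e (nat_lit 761899) (nat_lit 15) (.e (nat_lit 163978) (nat_lit 30) (.e (nat_lit 573489) (nat_lit 14) (.e (nat_lit 73755) (nat_lit 8) (.e (nat_lit 557103) (nat_lit 14) (.e (nat_lit 180244) (nat_lit 5) (.e (nat_lit 532490) (nat_lit 0) (.e (nat_lit 2270) (nat_lit 149) .nil)))))))) (.g (nat_lit 1) (.e (nat_lit 429034) (nat_lit 0) .nil) .nil))) 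
(.lf (nat_lit 604813) (.g (nat_lit 2857) (.e (nat_lit 778318) (nat_lit 3) (.e (nat_lit 57476) (nat_lit 28) (.e (nat_lit 557107) (nat_lit 15) (.e (nat_lit 188450) (nat_lit 23) (.e (nat_lit 204855) (nat_lit 26) (.e (nat_lit 336280) (nat_lit 15) (.e (nat_lit 3627) (nat_lit 227) .nil))))))) (.g (nat_lit 1) (.e (nat_lit 431431) (nat_lit 0) .nil) .nil)))) (.nd (nat_lit 9) 
(.lf (nat_lit 604557) (.g (nat_lit 2142) (.e (nat_lit 770072) (nat_lit 8) (.e (nat_lit 65586) (nat_lit 7) (.e (nat_lit 319531) (nat_lit 16) (.e (nat_lit 286756) (nat_lit 10) (.e (nat_lit 344160) (nat_lit 37) .nil))))) (.g (nat_lit 0) (.e (nat_lit 431021) (nat_lit 0) .nil) .nil))) 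
(.lf (nat_lit 605069) (.g (nat_lit 817) (.e (nat_lit 778323) (nat_lit 5) (.e (nat_lit 73782) (nat_lit 32) (.e (nat_lit 3088) (nat_lit 191) (.e (nat_lit 491264) (nat_lit 26) .nil)))) (.g (nat_lit 0) (.e (nat_lit 431703) (nat_lit 0) .nil) .nil)))))) (.nd (nat_lit 7) (.nd (nat_lit 8) (.nd (nat_lit 9) 
(.lf (nat_lit 604237) (.g (nat_lit 2308) (.e (nat_lit 761899) (nat_lit 15) (.e (nat_lit 163977) (nat_lit 30) (.e (nat_lit 573489) (nat_lit 14) (.e (nat_lit 73754) (nat_lit 8) (.e (nat_lit 557095) (nat_lit 13) .nil))))) (.g (nat_lit 0) (.e (nat_lit 428899) (nat_lit 0) .nil) .nil))) 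
(.lf (nat_lit 604749) (.g (nat_lit 2628) (.e (nat_lit 778318) (nat_lit 3) (.e (nat_lit 57476) (nat_lit 28) (.e (nat_lit 557097) (nat_lit 13) (.e (nat_lit 172115) (nat_lit 10) (.e (nat_lit 434231) (nat_lit 23) (.e (nat_lit 532531) (nat_lit 9) (.e (nat_lit 336306) (nat_lit 15) (.e (nat_lit 3620) (nat_lit 227) .nil)))))))) (.g (nat_lit 1) (.e (nat_lit 431365) (nat_lit 0) .nil) .nil)))) 
(.nd (nat_lit 9) 
(.lf (nat_lit 604493) (.g (nat_lit 1908) (.e (nat_lit 770072) (nat_lit 8) (.e (nat_lit 65582) (nat_lit 7) (.e (nat_lit 319531) (nat_lit 16) (.e (nat_lit 286756) (nat_lit 10) (.e (nat_lit 344160) (nat_lit 37) .nil))))) (.g (nat_lit 0) (.e (nat_lit 430957) (nat_lit 0) .nil) .nil))) 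
(.lf (nat_lit 605005) (.g (nat_lit 1643) (.e (nat_lit 778323) (nat_lit 5) (.e (nat_lit 73781) (nat_lit 32) (.e (nat_lit 3088) (nat_lit 191) (.e (nat_lit 483393) (nat_lit 23) (.e (nat_lit 336293) (nat_lit 15) .nil))))) (.g (nat_lit 0) (.e (nat_lit 431639) (nat_lit 0) .nil) .nil))))) (.nd (nat_lit 8) (.nd (nat_lit 9) 
(.lf (nat_lit 604365) (.g (nat_lit 3143) (.e (nat_lit 761910) (nat_lit 17) (.e (nat_lit 180252) (nat_lit 10) (.e (nat_lit 573449) (nat_lit 9) (.e (nat_lit 1669) (nat_lit 116) (.e (nat_lit 401459) (nat_lit 13) (.e (nat_lit 483343) (nat_lit 17) (.e (nat_lit 2265) (nat_lit 149) .nil))))))) (.g (nat_lit 1) (.e (nat_lit 430420) (nat_lit 0) .nil) .nil))) 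
(.lf (nat_lit 604877) (.g (nat_lit 2874) (.e (nat_lit 778318) (nat_lit 3) (.e (nat_lit 57476) (nat_lit 28) (.e (nat_lit 557108) (nat_lit 15) (.e (nat_lit 188452) (nat_lit 23) (.e (nat_lit 204852) (nat_lit 26) (.e (nat_lit 343808) (nat_lit 15) (.e (nat_lit 3671) (nat_lit 227) .nil))))))) (.g (nat_lit 1) (.e (nat_lit 431495) (nat_lit 0) .nil) .nil)))) (.nd (nat_lit 9) 
(.lf (nat_lit 604621) (.g (nat_lit 2728) (.e (nat_lit 770073) (nat_lit 9) (.e (nat_lit 73746) (nat_lit 3) (.e (nat_lit 516165) (nat_lit 12) (.e (nat_lit 450588) (nat_lit 10) (.e (nat_lit 573473) (nat_lit 12) .nil))))) (.g (nat_lit 0) (.e (nat_lit 431092) (nat_lit 0) .nil) .nil))) 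
(.lf (nat_lit 605133) (.g (nat_lit 2559) (.e (nat_lit 778324) (nat_lit 5) (.e (nat_lit 73781) (nat_lit 32) (.e (nat_lit 3090) (nat_lit 191) (.e (nat_lit 483380) (nat_lit 23) (.e (nat_lit 336257) (nat_lit 15) (.e (nat_lit 3620) (nat_lit 227) .nil)))))) (.g (nat_lit 1) (.e (nat_lit 431771) (nat_lit 0) .nil) .nil))))))) (.nd (nat_lit 6) (.nd (nat_lit 7) (.nd (nat_lit 8) (.nd (nat_lit 9) 
(.lf (nat_lit 604205) (.g (nat_lit 2413) (.e (nat_lit 761898) (nat_lit 15) (.e (nat_lit 163979) (nat_lit 30) (.e (nat_lit 573489) (nat_lit 14) (.e (nat_lit 73755) (nat_lit 8) (.e (nat_lit 557097) (nat_lit 13) (.e (nat_lit 172067) (nat_lit 3) (.e (nat_lit 204817) (nat_lit 17) (.e (nat_lit 2271) (nat_lit 149) .nil)))))))) (.g (nat_lit 1) (.e (nat_lit 428791) (nat_lit 0) .nil) .nil))) 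
(.lf (nat_lit 604717) (.g (nat_lit 2510) (.e (nat_lit 778318) (nat_lit 3) (.e (nat_lit 57476) (nat_lit 28) (.e (nat_lit 557097) (nat_lit 13) (.e (nat_lit 172097) (nat_lit 9) (.e (nat_lit 426140) (nat_lit 3) (.e (nat_lit 204855) (nat_lit 26) (.e (nat_lit 336291) (nat_lit 15) (.e (nat_lit 3629) (nat_lit 227) .nil)))))))) (.g (nat_lit 1) (.e (nat_lit 431333) (nat_lit 0) .nil) .nil)))) 
(.nd (nat_lit 9) 
(.lf (nat_lit 604461) (.g (nat_lit 3091) (.e (nat_lit 770071) (nat_lit 8) (.e (nat_lit 65629) (nat_lit 14) (.e (nat_lit 401454) (nat_lit 12) (.e (nat_lit 475213) (nat_lit 42) .nil)))) (.g (nat_lit 0) (.e (nat_lit 430921) (nat_lit 0) .nil) .nil))) 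
(.lf (nat_lit 604973) (.g (nat_lit 1361) (.e (nat_lit 778321) (nat_lit 4) (.e (nat_lit 65628) (nat_lit 14) (.e (nat_lit 401458) (nat_lit 13) (.e (nat_lit 483406) (nat_lit 26) .nil)))) (.g (nat_lit 0) (.e (nat_lit 431597) (nat_lit 0) .nil) .nil))))) (.nd (nat_lit 8) (.nd (nat_lit 9) 
(.lf (nat_lit 604333) (.g (nat_lit 2964) (.e (nat_lit 761899) (nat_lit 15) (.e (nat_lit 163979) (nat_lit 30) (.e (nat_lit 573489) (nat_lit 14) (.e (nat_lit 73755) (nat_lit 8) (.e (nat_lit 557098) (nat_lit 13) .nil))))) (.g (nat_lit 0) (.e (nat_lit 429110) (nat_lit 0) .nil) .nil))) 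
(.lf (nat_lit 604845) (.g (nat_lit 4641) (.e (nat_lit 778318) (nat_lit 3) (.e (nat_lit 57476) (nat_lit 28) (.e (nat_lit 557108) (nat_lit 15) (.e (nat_lit 188452) (nat_lit 23) (.e (nat_lit 204852) (nat_lit 26) (.e (nat_lit 336257) (nat_lit 15) (.e (nat_lit 3621) (nat_lit 227) .nil))))))) (.g (nat_lit 1) (.e (nat_lit 431463) (nat_lit 0) .nil) .nil)))) (.nd (nat_lit 9) 
(.lf (nat_lit 604589) (.g (nat_lit 1621) (.e (nat_lit 770072) (nat_lit 8) (.e (nat_lit 65619) (nat_lit 10) (.e (nat_lit 344090) (nat_lit 18) (.e (nat_lit 7124) (nat_lit 382) (.e (nat_lit 1296) (nat_lit 96) .nil))))) (.g (nat_lit 0) (.e (nat_lit 431056) (nat_lit 0) .nil) .nil))) 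
(.lf (nat_lit 605101) (.g (nat_lit 1772) (.e (nat_lit 778323) (nat_lit 5) (.e (nat_lit 73782) (nat_lit 32) (.e (nat_lit 3090) (nat_lit 191) (.e (nat_lit 483404) (nat_lit 26) (.e (nat_lit 385092) (nat_lit 49) .nil))))) (.g (nat_lit 1) (.e (nat_lit 431735) (nat_lit 0) .nil) .nil)))))) (.nd (nat_lit 7) (.nd (nat_lit 8) (.nd (nat_lit 9) 
(.lf (nat_lit 604269) (.g (nat_lit 2032) (.e (nat_lit 761899) (nat_lit 15) (.e (nat_lit 163978) (nat_lit 30) (.e (nat_lit 573489) (nat_lit 14) (.e (nat_lit 73754) (nat_lit 8) (.e (nat_lit 557095) (nat_lit 13) .nil))))) (.g (nat_lit 0) (.e (nat_lit 428997) (nat_lit 0) .nil) .nil))) 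
(.lf (nat_lit 604781) (.g (nat_lit 3446) (.e (nat_lit 778318) (nat_lit 3) (.e (nat_lit 57476) (nat_lit 28) (.e (nat_lit 557107) (nat_lit 15) (.e (nat_lit 188450) (nat_lit 23) (.e (nat_lit 204852) (nat_lit 26) (.e (nat_lit 336257) (nat_lit 15) (.e (nat_lit 3637) (nat_lit 227) .nil))))))) (.g (nat_lit 1) (.e (nat_lit 431399) (nat_lit 0) .nil) .nil)))) (.nd (nat_lit 9) 
(.lf (nat_lit 604525) (.g (nat_lit 2311) (.e (nat_lit 770072) (nat_lit 8) (.e (nat_lit 65583) (nat_lit 7) (.e (nat_lit 319530) (nat_lit 16) (.e (nat_lit 286759) (nat_lit 12) (.e (nat_lit 385115) (nat_lit 53) (.e (nat_lit 811041) (nat_lit 11) (.e (nat_lit 7936) (nat_lit 74) .nil))))))) (.g (nat_lit 1) (.e (nat_lit 430989) (nat_lit 0) .nil) .nil))) 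
(.lf (nat_lit 605037) (.g (nat_lit 2693) (.e (nat_lit 778323) (nat_lit 5) (.e (nat_lit 73781) (nat_lit 32) (.e (nat_lit 3090) (nat_lit 191) (.e (nat_lit 483380) (nat_lit 23) (.e (nat_lit 336301) (nat_lit 15) (.e (nat_lit 3630) (nat_lit 227) .nil)))))) (.g (nat_lit 1) (.e (nat_lit 431671) (nat_lit 0) .nil) .nil))))) (.nd (nat_lit 8) (.nd (nat_lit 9) 
(.lf (nat_lit 604397) (.g (nat_lit 1862) (.e (nat_lit 770071) (nat_lit 8) (.e (nat_lit 65583) (nat_lit 7) (.e (nat_lit 319530) (nat_lit 16) (.e (nat_lit 286748) (nat_lit 9) (.e (nat_lit 335915) (nat_lit 0) .nil))))) (.g (nat_lit 0) (.e (nat_lit 430851) (nat_lit 0) .nil) .nil))) 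
(.lf (nat_lit 604909) (.g (nat_lit 3010) (.e (nat_lit 786176) (nat_lit 3) (.e (nat_lit 57480) (nat_lit 28) (.e (nat_lit 557108) (nat_lit 15) (.e (nat_lit 188452) (nat_lit 23) (.e (nat_lit 204852) (nat_lit 26) .nil))))) (.g (nat_lit 0) (.e (nat_lit 431530) (nat_lit 0) .nil) .nil)))) (.nd (nat_lit 9) 
(.lf (nat_lit 604653) (.g (nat_lit 2824) (.e (nat_lit 778316) (nat_lit 3) (.e (nat_lit 57477) (nat_lit 28) (.e (nat_lit 557108) (nat_lit 15) (.e (nat_lit 188452) (nat_lit 23) (.e (nat_lit 204855) (nat_lit 26) (.e (nat_lit 336290) (nat_lit 15) (.e (nat_lit 3715) (nat_lit 227) .nil))))))) (.g (nat_lit 1) (.e (nat_lit 431248) (nat_lit 0) .nil) .nil))) 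
(.lf (nat_lit 605165) (.g (nat_lit 1231) (.e (nat_lit 786176) (nat_lit 5) (.e (nat_lit 73781) (nat_lit 32) (.e (nat_lit 3090) (nat_lit 191) (.e (nat_lit 483404) (nat_lit 26) .nil)))) (.g (nat_lit 0) (.e (nat_lit 431803) (nat_lit 0) .nil) .nil)))))))) (.nd (nat_lit 5) (.nd (nat_lit 6) (.nd (nat_lit 7) (.nd (nat_lit 8) (.nd (nat_lit 9) 
(.lf (nat_lit 604189) (.g (nat_lit 3660) (.e (nat_lit 761898) (nat_lit 15) (.e (nat_lit 163979) (nat_lit 30) (.e (nat_lit 573489) (nat_lit 14) (.e (nat_lit 73754) (nat_lit 8) (.e (nat_lit 557103) (nat_lit 14) (.e (nat_lit 180243) (nat_lit 5) (.e (nat_lit 532484) (nat_lit 0) (.e (nat_lit 7936) (nat_lit 149) .nil)))))))) (.g (nat_lit 1) (.e (nat_lit 428770) (nat_lit 0) .nil) .nil))) 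
(.lf (nat_lit 604701) (.g (nat_lit 2597) (.e (nat_lit 778317) (nat_lit 3) (.e (nat_lit 57480) (nat_lit 28) (.e (nat_lit 557067) (nat_lit 9) (.e (nat_lit 3021) (nat_lit 187) (.e (nat_lit 450579) (nat_lit 5) .nil))))) (.g (nat_lit 0) (.e (nat_lit 431298) (nat_lit 0) .nil) .nil)))) (.nd (nat_lit 9) 
(.lf (nat_lit 604445) (.g (nat_lit 1738) (.e (nat_lit 770071) (nat_lit 8) (.e (nat_lit 65619) (nat_lit 10) (.e (nat_lit 344090) (nat_lit 18) (.e (nat_lit 7124) (nat_lit 382) (.e (nat_lit 1296) (nat_lit 96) .nil))))) (.g (nat_lit 0) (.e (nat_lit 430905) (nat_lit 0) .nil) .nil))) 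
(.lf (nat_lit 604957) (.g (nat_lit 1847) (.e (nat_lit 778320) (nat_lit 4) (.e (nat_lit 65630) (nat_lit 14) (.e (nat_lit 401457) (nat_lit 13) (.e (nat_lit 483405) (nat_lit 26) (.e (nat_lit 385092) (nat_lit 49) .nil))))) (.g (nat_lit 0) (.e (nat_lit 431581) (nat_lit 0) .nil) .nil))))) (.nd (nat_lit 8) (.nd (nat_lit 9) 
(.lf (nat_lit 604317) (.g (nat_lit 2574) (.e (nat_lit 761899) (nat_lit 15) (.e (nat_lit 163979) (nat_lit 30) (.e (nat_lit 573489) (nat_lit 14) (.e (nat_lit 73754) (nat_lit 8) (.e (nat_lit 557101) (nat_lit 13) .nil))))) (.g (nat_lit 0) (.e (nat_lit 429090) (nat_lit 0) .nil) .nil))) 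
(.lf (nat_lit 604829) (.g (nat_lit 2938) (.e (nat_lit 778318) (nat_lit 3) (.e (nat_lit 57476) (nat_lit 28) (.e (nat_lit 557108) (nat_lit 15) (.e (nat_lit 188452) (nat_lit 23) (.e (nat_lit 204851) (nat_lit 26) (.e (nat_lit 336263) (nat_lit 15) (.e (nat_lit 3629) (nat_lit 227) .nil))))))) (.g (nat_lit 1) (.e (nat_lit 431447) (nat_lit 0) .nil) .nil)))) (.nd (nat_lit 9) 
(.lf (nat_lit 604573) (.g (nat_lit 2200) (.e (nat_lit 770072) (nat_lit 8) (.e (nat_lit 65610) (nat_lit 10) (.e (nat_lit 344090) (nat_lit 18) (.e (nat_lit 7263) (nat_lit 384) (.e (nat_lit 57409) (nat_lit 12) (.e (nat_lit 336182) (nat_lit 11) (.e (nat_lit 368698) (nat_lit 43) .nil))))))) (.g (nat_lit 1) (.e (nat_lit 431040) (nat_lit 0) .nil) .nil))) 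
(.lf (nat_lit 605085) (.g (nat_lit 2370) (.e (nat_lit 778323) (nat_lit 5) (.e (nat_lit 73782) (nat_lit 32) (.e (nat_lit 3090) (nat_lit 191) (.e (nat_lit 483380) (nat_lit 23) (.e (nat_lit 336258) (nat_lit 15) (.e (nat_lit 3637) (nat_lit 227) .nil)))))) (.g (nat_lit 1) (.e (nat_lit 431719) (nat_lit 0) .nil) .nil)))))) (.nd (nat_lit 7) (.nd (nat_lit 8) (.nd (nat_lit 9) 
(.lf (nat_lit 604253) (.g (nat_lit 3457) (.e (nat_lit 761899) (nat_lit 15) (.e (nat_lit 163977) (nat_lit 30) (.e (nat_lit 573489) (nat_lit 14) (.e (nat_lit 73755) (nat_lit 8) (.e (nat_lit 557097) (nat_lit 13) (.e (nat_lit 172066) (nat_lit 3) (.e (nat_lit 204821) (nat_lit 17) (.e (nat_lit 2264) (nat_lit 149) .nil)))))))) (.g (nat_lit 1) (.e (nat_lit 428920) (nat_lit 0) .nil) .nil))) 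
(.lf (nat_lit 604765) (.g (nat_lit 4205) (.e (nat_lit 778318) (nat_lit 3) (.e (nat_lit 57476) (nat_lit 28) (.e (nat_lit 557107) (nat_lit 15) (.e (nat_lit 188450) (nat_lit 23) (.e (nat_lit 204852) (nat_lit 26) (.e (nat_lit 336240) (nat_lit 15) (.e (nat_lit 3623) (nat_lit 227) .nil))))))) (.g (nat_lit 1) (.e (nat_lit 431383) (nat_lit 0) .nil) .nil)))) (.nd (nat_lit 9) 
(.lf (nat_lit 604509) (.g (nat_lit 1666) (.e (nat_lit 770072) (nat_lit 8) (.e (nat_lit 65583) (nat_lit 7) (.e (nat_lit 319530) (nat_lit 16) (.e (nat_lit 286756) (nat_lit 10) (.e (nat_lit 344160) (nat_lit 37) .nil))))) (.g (nat_lit 0) (.e (nat_lit 430973) (nat_lit 0) .nil) .nil))) 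
(.lf (nat_lit 605021) (.g (nat_lit 2644) (.e (nat_lit 778323) (nat_lit 5) (.e (nat_lit 73781) (nat_lit 32) (.e (nat_lit 3090) (nat_lit 191) (.e (nat_lit 483380) (nat_lit 23) (.e (nat_lit 336240) (nat_lit 15) (.e (nat_lit 3637) (nat_lit 227) .nil)))))) (.g (nat_lit 1) (.e (nat_lit 431655) (nat_lit 0) .nil) .nil))))) (.nd (nat_lit 8) (.nd (nat_lit 9) 
(.lf (nat_lit 604381) (.g (nat_lit 1288) (.e (nat_lit 770071) (nat_lit 8) (.e (nat_lit 65568) (nat_lit 2) (.e (nat_lit 90170) (nat_lit 13) (.e (nat_lit 172113) (nat_lit 10) .nil)))) (.g (nat_lit 0) (.e (nat_lit 430834) (nat_lit 0) .nil) .nil))) 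
(.lf (nat_lit 604893) (.g (nat_lit 4473) (.e (nat_lit 778318) (nat_lit 3) (.e (nat_lit 57478) (nat_lit 28) (.e (nat_lit 557100) (nat_lit 13) (.e (nat_lit 172106) (nat_lit 10) (.e (nat_lit 434231) (nat_lit 23) (.e (nat_lit 532535) (nat_lit 9) (.e (nat_lit 336295) (nat_lit 15) (.e (nat_lit 3630) (nat_lit 227) .nil)))))))) (.g (nat_lit 1) (.e (nat_lit 431511) (nat_lit 0) .nil) .nil)))) 
(.nd (nat_lit 9) 
(.lf (nat_lit 604637) (.g (nat_lit 2380) (.e (nat_lit 778246) (nat_lit 0) (.e (nat_lit 1669) (nat_lit 116) (.e (nat_lit 401454) (nat_lit 12) (.e (nat_lit 475181) (nat_lit 27) .nil)))) (.g (nat_lit 0) (.e (nat_lit 431222) (nat_lit 0) .nil) .nil))) 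
(.lf (nat_lit 605149) (.g (nat_lit 1253) (.e (nat_lit 778324) (nat_lit 5) (.e (nat_lit 73781) (nat_lit 32) (.e (nat_lit 3090) (nat_lit 191) (.e (nat_lit 483381) (nat_lit 23) .nil)))) (.g (nat_lit 0) (.e (nat_lit 431787) (nat_lit 0) .nil) .nil))))))) (.nd (nat_lit 6) (.nd (nat_lit 7) (.nd (nat_lit 8) (.nd (nat_lit 9) 
(.lf (nat_lit 604221) (.g (nat_lit 1956) (.e (nat_lit 761898) (nat_lit 15) (.e (nat_lit 163979) (nat_lit 30) (.e (nat_lit 573489) (nat_lit 14) (.e (nat_lit 73755) (nat_lit 8) (.e (nat_lit 557104) (nat_lit 14) .nil))))) (.g (nat_lit 0) (.e (nat_lit 428810) (nat_lit 0) .nil) .nil))) 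
(.lf (nat_lit 604733) (.g (nat_lit 3475) (.e (nat_lit 778318) (nat_lit 3) (.e (nat_lit 57476) (nat_lit 28) (.e (nat_lit 557097) (nat_lit 13) (.e (nat_lit 172115) (nat_lit 10) (.e (nat_lit 434231) (nat_lit 23) (.e (nat_lit 532528) (nat_lit 9) (.e (nat_lit 336285) (nat_lit 15) (.e (nat_lit 3629) (nat_lit 227) .nil)))))))) (.g (nat_lit 1) (.e (nat_lit 431349) (nat_lit 0) .nil) .nil)))) 
(.nd (nat_lit 9) 
(.lf (nat_lit 604477) (.g (nat_lit 1516) (.e (nat_lit 770072) (nat_lit 8) (.e (nat_lit 65570) (nat_lit 3) (.e (nat_lit 98373) (nat_lit 29) (.e (nat_lit 450587) (nat_lit 10) (.e (nat_lit 573478) (nat_lit 12) .nil))))) (.g (nat_lit 0) (.e (nat_lit 430941) (nat_lit 0) .nil) .nil))) 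
(.lf (nat_lit 604989) (.g (nat_lit 1265) (.e (nat_lit 778323) (nat_lit 5) (.e (nat_lit 73781) (nat_lit 32) (.e (nat_lit 2856) (nat_lit 184) (.e (nat_lit 426482) (nat_lit 27) .nil)))) (.g (nat_lit 0) (.e (nat_lit 431623) (nat_lit 0) .nil) .nil))))) (.nd (nat_lit 8) (.nd (nat_lit 9) 
(.lf (nat_lit 604349) (.g (nat_lit 2171) (.e (nat_lit 761899) (nat_lit 15) (.e (nat_lit 163979) (nat_lit 30) (.e (nat_lit 573489) (nat_lit 14) (.e (nat_lit 73755) (nat_lit 8) (.e (nat_lit 557104) (nat_lit 14) (.e (nat_lit 180244) (nat_lit 5) (.e (nat_lit 532485) (nat_lit 0) (.e (nat_lit 2264) (nat_lit 149) .nil)))))))) (.g (nat_lit 1) (.e (nat_lit 429128) (nat_lit 0) .nil) .nil))) 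
(.lf (nat_lit 604861) (.g (nat_lit 3939) (.e (nat_lit 778318) (nat_lit 3) (.e (nat_lit 57476) (nat_lit 28) (.e (nat_lit 557108) (nat_lit 15) (.e (nat_lit 188452) (nat_lit 23) (.e (nat_lit 204852) (nat_lit 26) (.e (nat_lit 336259) (nat_lit 15) (.e (nat_lit 3634) (nat_lit 227) .nil))))))) (.g (nat_lit 1) (.e (nat_lit 431479) (nat_lit 0) .nil) .nil)))) (.nd (nat_lit 9) 
(.lf (nat_lit 604605) (.g (nat_lit 2897) (.e (nat_lit 770072) (nat_lit 8) (.e (nat_lit 65628) (nat_lit 14) (.e (nat_lit 401454) (nat_lit 12) (.e (nat_lit 475214) (nat_lit 42) .nil)))) (.g (nat_lit 0) (.e (nat_lit 431072) (nat_lit 0) .nil) .nil))) 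
(.lf (nat_lit 605117) (.g (nat_lit 2671) (.e (nat_lit 778324) (nat_lit 5) (.e (nat_lit 73781) (nat_lit 32) (.e (nat_lit 3089) (nat_lit 191) (.e (nat_lit 483383) (nat_lit 23) (.e (nat_lit 336240) (nat_lit 15) (.e (nat_lit 3626) (nat_lit 227) .nil)))))) (.g (nat_lit 1) (.e (nat_lit 431755) (nat_lit 0) .nil) .nil)))))) (.nd (nat_lit 7) (.nd (nat_lit 8) (.nd (nat_lit 9) 
(.lf (nat_lit 604285) (.g (nat_lit 3623) (.e (nat_lit 761899) (nat_lit 15) (.e (nat_lit 163978) (nat_lit 30) (.e (nat_lit 573489) (nat_lit 14) (.e (nat_lit 73755) (nat_lit 8) (.e (nat_lit 557097) (nat_lit 13) (.e (nat_lit 172066) (nat_lit 3) (.e (nat_lit 204817) (nat_lit 17) (.e (nat_lit 2272) (nat_lit 149) .nil)))))))) (.g (nat_lit 1) (.e (nat_lit 429016) (nat_lit 0) .nil) .nil))) 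
(.lf (nat_lit 604797) (.g (nat_lit 2407) (.e (nat_lit 778318) (nat_lit 3) (.e (nat_lit 57476) (nat_lit 28) (.e (nat_lit 557107) (nat_lit 15) (.e (nat_lit 188450) (nat_lit 23) (.e (nat_lit 204852) (nat_lit 26) (.e (nat_lit 336260) (nat_lit 15) (.e (nat_lit 3618) (nat_lit 227) .nil))))))) (.g (nat_lit 1) (.e (nat_lit 431415) (nat_lit 0) .nil) .nil)))) (.nd (nat_lit 9) 
(.lf (nat_lit 604541) (.g (nat_lit 2160) (.e (nat_lit 770072) (nat_lit 8) (.e (nat_lit 65586) (nat_lit 7) (.e (nat_lit 319531) (nat_lit 16) (.e (nat_lit 286748) (nat_lit 9) (.e (nat_lit 336295) (nat_lit 15) (.e (nat_lit 3806) (nat_lit 231) (.e (nat_lit 811032) (nat_lit 11) (.e (nat_lit 7936) (nat_lit 74) .nil)))))))) (.g (nat_lit 1) (.e (nat_lit 431005) (nat_lit 0) .nil) .nil))) 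
(.lf (nat_lit 605053) (.g (nat_lit 2259) (.e (nat_lit 778323) (nat_lit 5) (.e (nat_lit 73782) (nat_lit 32) (.e (nat_lit 2856) (nat_lit 184) (.e (nat_lit 426489) (nat_lit 27) (.e (nat_lit 336206) (nat_lit 12) .nil))))) (.g (nat_lit 0) (.e (nat_lit 431687) (nat_lit 0) .nil) .nil))))) (.nd (nat_lit 8) (.nd (nat_lit 9) 
(.lf (nat_lit 604413) (.g (nat_lit 2451) (.e (nat_lit 770071) (nat_lit 8) (.e (nat_lit 65586) (nat_lit 7) (.e (nat_lit 319531) (nat_lit 16) (.e (nat_lit 286748) (nat_lit 9) (.e (nat_lit 336295) (nat_lit 15) (.e (nat_lit 3757) (nat_lit 229) (.e (nat_lit 794642) (nat_lit 20) (.e (nat_lit 3615) (nat_lit 226) .nil)))))))) (.g (nat_lit 1) (.e (nat_lit 430867) (nat_lit 0) .nil) .nil))) 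
(.lf (nat_lit 604925) (.g (nat_lit 1266) (.e (nat_lit 778319) (nat_lit 4) (.e (nat_lit 65630) (nat_lit 14) (.e (nat_lit 401457) (nat_lit 13) (.e (nat_lit 483408) (nat_lit 26) .nil)))) (.g (nat_lit 0) (.e (nat_lit 431548) (nat_lit 0) .nil) .nil)))) (.nd (nat_lit 9) 
(.lf (nat_lit 604669) (.g (nat_lit 1851) (.e (nat_lit 778316) (nat_lit 3) (.e (nat_lit 57480) (nat_lit 28) (.e (nat_lit 557107) (nat_lit 15) (.e (nat_lit 188450) (nat_lit 23) (.e (nat_lit 204852) (nat_lit 26) .nil))))) (.g (nat_lit 0) (.e (nat_lit 431264) (nat_lit 0) .nil) .nil))) 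
(.lf (nat_lit 605181) (.g (nat_lit 1786) (.e (nat_lit 778325) (nat_lit 6) (.e (nat_lit 81948) (nat_lit 21) (.e (nat_lit 57849) (nat_lit 252) (.e (nat_lit 57388) (nat_lit 5) (.e (nat_lit 122624) (nat_lit 17) .nil))))) (.g (nat_lit 0) (.e (nat_lit 431819) (nat_lit 0) .nil) .nil))))))))))) 
(.nd (nat_lit 2) (.nd (nat_lit 3) (.nd (nat_lit 4) (.nd (nat_lit 5) (.nd (nat_lit 6) 
(.nd (nat_lit 7) (.nd (nat_lit 8) (.nd (nat_lit 9) 
(.lf (nat_lit 604163) (.g (nat_lit 2362) (.e (nat_lit 761898) (nat_lit 15) (.e (nat_lit 163979) (nat_lit 30) (.e (nat_lit 573487) (nat_lit 14) (.e (nat_lit 73753) (nat_lit 8) (.e (nat_lit 557103) (nat_lit 14) .nil))))) (.g (nat_lit 0) (.e (nat_lit 428743) (nat_lit 0) .nil) .nil))) 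
(.lf (nat_lit 604675) (.g (nat_lit 3288) (.e (nat_lit 778316) (nat_lit 3) (.e (nat_lit 57480) (nat_lit 28) (.e (nat_lit 557109) (nat_lit 15) (.e (nat_lit 188449) (nat_lit 22) (.e (nat_lit 196666) (nat_lit 13) (.e (nat_lit 65639) (nat_lit 15) (.e (nat_lit 3716) (nat_lit 227) .nil))))))) (.g (nat_lit 1) (.e (nat_lit 431270) (nat_lit 0) .nil) .nil)))) (.nd (nat_lit 9) 
(.lf (nat_lit 604419) (.g (nat_lit 2912) (.e (nat_lit 770071) (nat_lit 8) (.e (nat_lit 65586) (nat_lit 7) (.e (nat_lit 319531) (nat_lit 16) (.e (nat_lit 286756) (nat_lit 10) (.e (nat_lit 344087) (nat_lit 18) .nil))))) (.g (nat_lit 0) (.e (nat_lit 430873) (nat_lit 0) .nil) .nil))) 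
(.lf (nat_lit 604931) (.g (nat_lit 2454) (.e (nat_lit 778320) (nat_lit 4) (.e (nat_lit 65630) (nat_lit 14) (.e (nat_lit 401437) (nat_lit 9) (.e (nat_lit 426482) (nat_lit 27) (.e (nat_lit 336193) (nat_lit 12) .nil))))) (.g (nat_lit 0) (.e (nat_lit 431555) (nat_lit 0) .nil) .nil))))) (.nd (nat_lit 8) (.nd (nat_lit 9) 
(.lf (nat_lit 604291) (.g (nat_lit 4888) (.e (nat_lit 761899) (nat_lit 15) (.e (nat_lit 163978) (nat_lit 30) (.e (nat_lit 573489) (nat_lit 14) (.e (nat_lit 73755) (nat_lit 8) (.e (nat_lit 557098) (nat_lit 13) (.e (nat_lit 172067) (nat_lit 3) (.e (nat_lit 204815) (nat_lit 17) (.e (nat_lit 2271) (nat_lit 149) .nil)))))))) (.g (nat_lit 1) (.e (nat_lit 429023) (nat_lit 0) .nil) .nil))) 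
(.lf (nat_lit 604803) (.g (nat_lit 3266) (.e (nat_lit 778318) (nat_lit 3) (.e (nat_lit 57476) (nat_lit 28) (.e (nat_lit 557107) (nat_lit 15) (.e (nat_lit 188450) (nat_lit 23) (.e (nat_lit 204852) (nat_lit 26) (.e (nat_lit 336303) (nat_lit 15) (.e (nat_lit 3620) (nat_lit 227) .nil))))))) (.g (nat_lit 1) (.e (nat_lit 431421) (nat_lit 0) .nil) .nil)))) (.nd (nat_lit 9) 
(.lf (nat_lit 604547) (.g (nat_lit 1862) (.e (nat_lit 770072) (nat_lit 8) (.e (nat_lit 65586) (nat_lit 7) (.e (nat_lit 319531) (nat_lit 16) (.e (nat_lit 286752) (nat_lit 10) .nil)))) (.g (nat_lit 0) (.e (nat_lit 431011) (nat_lit 0) .nil) .nil))) 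
(.lf (nat_lit 605059) (.g (nat_lit 2442) (.e (nat_lit 778323) (nat_lit 5) (.e (nat_lit 73782) (nat_lit 32) (.e (nat_lit 2856) (nat_lit 184) (.e (nat_lit 426542) (nat_lit 29) (.e (nat_lit 352266) (nat_lit 0) (.e (nat_lit 3632) (nat_lit 227) .nil)))))) (.g (nat_lit 1) (.e (nat_lit 431693) (nat_lit 0) .nil) .nil)))))) (.nd (nat_lit 7) (.nd (nat_lit 8) (.nd (nat_lit 9) 
(.lf (nat_lit 604227) (.g (nat_lit 2644) (.e (nat_lit 761898) (nat_lit 15) (.e (nat_lit 163979) (nat_lit 30) (.e (nat_lit 573489) (nat_lit 14) (.e (nat_lit 73755) (nat_lit 8) (.e (nat_lit 557104) (nat_lit 14) (.e (nat_lit 180244) (nat_lit 5) (.e (nat_lit 532483) (nat_lit 0) (.e (nat_lit 7936) (nat_lit 149) .nil)))))))) (.g (nat_lit 1) (.e (nat_lit 428816) (nat_lit 0) .nil) .nil))) 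
(.lf (nat_lit 604739) (.g (nat_lit 3771) (.e (nat_lit 778318) (nat_lit 3) (.e (nat_lit 57476) (nat_lit 28) (.e (nat_lit 557097) (nat_lit 13) (.e (nat_lit 172115) (nat_lit 10) (.e (nat_lit 434231) (nat_lit 23) (.e (nat_lit 532529) (nat_lit 9) (.e (nat_lit 336262) (nat_lit 15) (.e (nat_lit 3629) (nat_lit 227) .nil)))))))) (.g (nat_lit 1) (.e (nat_lit 431355) (nat_lit 0) .nil) .nil)))) 
(.nd (nat_lit 9) 
(.lf (nat_lit 604483) (.g (nat_lit 2320) (.e (nat_lit 770072) (nat_lit 8) (.e (nat_lit 65571) (nat_lit 3) (.e (nat_lit 98359) (nat_lit 26) (.e (nat_lit 426286) (nat_lit 10) (.e (nat_lit 434247) (nat_lit 28) (.e (nat_lit 573472) (nat_lit 12) (.e (nat_lit 57572) (nat_lit 54) .nil))))))) (.g (nat_lit 1) (.e (nat_lit 430947) (nat_lit 0) .nil) .nil))) 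
(.lf (nat_lit 604995) (.g (nat_lit 1999) (.e (nat_lit 778323) (nat_lit 5) (.e (nat_lit 73781) (nat_lit 32) (.e (nat_lit 2856) (nat_lit 184) (.e (nat_lit 426553) (nat_lit 32) (.e (nat_lit 376835) (nat_lit 0) .nil))))) (.g (nat_lit 0) (.e (nat_lit 431629) (nat_lit 0) .nil) .nil))))) (.nd (nat_lit 8) (.nd (nat_lit 9) 
(.lf (nat_lit 604355) (.g (nat_lit 3171) (.e (nat_lit 761904) (nat_lit 16) (.e (nat_lit 172086) (nat_lit 9) (.e (nat_lit 426482) (nat_lit 27) (.e (nat_lit 336060) (nat_lit 7) (.e (nat_lit 319534) (nat_lit 16) (.e (nat_lit 286728) (nat_lit 0) (.e (nat_lit 2270) (nat_lit 149) .nil))))))) (.g (nat_lit 1) (.e (nat_lit 429294) (nat_lit 0) .nil) .nil))) 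
(.lf (nat_lit 604867) (.g (nat_lit 2865) (.e (nat_lit 778318) (nat_lit 3) (.e (nat_lit 57476) (nat_lit 28) (.e (nat_lit 557108) (nat_lit 15) (.e (nat_lit 188452) (nat_lit 23) (.e (nat_lit 204852) (nat_lit 26) (.e (nat_lit 336260) (nat_lit 15) (.e (nat_lit 3621) (nat_lit 227) .nil))))))) (.g (nat_lit 1) (.e (nat_lit 431485) (nat_lit 0) .nil) .nil)))) (.nd (nat_lit 9) 
(.lf (nat_lit 604611) (.g (nat_lit 1786) (.e (nat_lit 770072) (nat_lit 8) (.e (nat_lit 65630) (nat_lit 14) (.e (nat_lit 401454) (nat_lit 12) (.e (nat_lit 475212) (nat_lit 42) .nil)))) (.g (nat_lit 0) (.e (nat_lit 431082) (nat_lit 0) .nil) .nil))) 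
(.lf (nat_lit 605123) (.g (nat_lit 255) (.e (nat_lit 778324) (nat_lit 5) (.e (nat_lit 73781) (nat_lit 32) (.e (nat_lit 3090) (nat_lit 191) .nil))) (.g (nat_lit 0) (.e (nat_lit 431761) (nat_lit 0) .nil) .nil))))))) (.nd (nat_lit 6) (.nd (nat_lit 7) (.nd (nat_lit 8) (.nd (nat_lit 9) 
(.lf (nat_lit 604195) (.g (nat_lit 2077) (.e (nat_lit 761898) (nat_lit 15) (.e (nat_lit 163979) (nat_lit 30) (.e (nat_lit 573489) (nat_lit 14) (.e (nat_lit 73755) (nat_lit 8) (.e (nat_lit 557097) (nat_lit 13) (.e (nat_lit 172065) (nat_lit 3) (.e (nat_lit 204817) (nat_lit 17) (.e (nat_lit 2272) (nat_lit 149) .nil)))))))) (.g (nat_lit 1) (.e (nat_lit 428781) (nat_lit 0) .nil) .nil))) 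
(.lf (nat_lit 604707) (.g (nat_lit 1972) (.e (nat_lit 778317) (nat_lit 3) (.e (nat_lit 57480) (nat_lit 28) (.e (nat_lit 557097) (nat_lit 13) (.e (nat_lit 172097) (nat_lit 9) .nil)))) (.g (nat_lit 0) (.e (nat_lit 431310) (nat_lit 0) .nil) .nil)))) (.nd (nat_lit 9) 
(.lf (nat_lit 604451) (.g (nat_lit 2107) (.e (nat_lit 770071) (nat_lit 8) (.e (nat_lit 65625) (nat_lit 13) (.e (nat_lit 393233) (nat_lit 17) (.e (nat_lit 7591) (nat_lit 407) (.e (nat_lit 73773) (nat_lit 25) .nil))))) (.g (nat_lit 1) (.e (nat_lit 430911) (nat_lit 0) .nil) .nil))) 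
(.lf (nat_lit 604963) (.g (nat_lit 3044) (.e (nat_lit 778321) (nat_lit 4) (.e (nat_lit 65628) (nat_lit 14) (.e (nat_lit 401457) (nat_lit 13) (.e (nat_lit 483383) (nat_lit 23) (.e (nat_lit 336240) (nat_lit 15) (.e (nat_lit 3623) (nat_lit 227) .nil)))))) (.g (nat_lit 1) (.e (nat_lit 431587) (nat_lit 0) .nil) .nil))))) (.nd (nat_lit 8) (.nd (nat_lit 9) 
(.lf (nat_lit 604323) (.g (nat_lit 1529) (.e (nat_lit 761899) (nat_lit 15) (.e (nat_lit 163979) (nat_lit 30) (.e (nat_lit 573489) (nat_lit 14) (.e (nat_lit 73755) (nat_lit 8) .nil)))) (.g (nat_lit 0) (.e (nat_lit 429097) (nat_lit 0) .nil) .nil))) 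
(.lf (nat_lit 604835) (.g (nat_lit 3465) (.e (nat_lit 778318) (nat_lit 3) (.e (nat_lit 57476) (nat_lit 28) (.e (nat_lit 557108) (nat_lit 15) (.e (nat_lit 188452) (nat_lit 23) (.e (nat_lit 204852) (nat_lit 26) (.e (nat_lit 336238) (nat_lit 15) (.e (nat_lit 3624) (nat_lit 227) .nil))))))) (.g (nat_lit 1) (.e (nat_lit 431453) (nat_lit 0) .nil) .nil)))) (.nd (nat_lit 9) 
(.lf (nat_lit 604579) (.g (nat_lit 1791) (.e (nat_lit 770072) (nat_lit 8) (.e (nat_lit 65617) (nat_lit 10) (.e (nat_lit 344091) (nat_lit 18) (.e (nat_lit 7122) (nat_lit 382) (.e (nat_lit 1296) (nat_lit 96) .nil))))) (.g (nat_lit 0) (.e (nat_lit 431046) (nat_lit 0) .nil) .nil))) 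
(.lf (nat_lit 605091) (.g (nat_lit 2243) (.e (nat_lit 778323) (nat_lit 5) (.e (nat_lit 73782) (nat_lit 32) (.e (nat_lit 3090) (nat_lit 191) (.e (nat_lit 483380) (nat_lit 23) (.e (nat_lit 336264) (nat_lit 15) .nil))))) (.g (nat_lit 0) (.e (nat_lit 431725) (nat_lit 0) .nil) .nil)))))) (.nd (nat_lit 7) (.nd (nat_lit 8) (.nd (nat_lit 9) 
(.lf (nat_lit 604259) (.g (nat_lit 3732) (.e (nat_lit 761899) (nat_lit 15) (.e (nat_lit 163977) (nat_lit 30) (.e (nat_lit 573489) (nat_lit 14) (.e (nat_lit 73755) (nat_lit 8) (.e (nat_lit 557103) (nat_lit 14) (.e (nat_lit 180244) (nat_lit 5) (.e (nat_lit 532484) (nat_lit 0) (.e (nat_lit 2272) (nat_lit 149) .nil)))))))) (.g (nat_lit 1) (.e (nat_lit 428926) (nat_lit 0) .nil) .nil))) 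
(.lf (nat_lit 604771) (.g (nat_lit 3618) (.e (nat_lit 778318) (nat_lit 3) (.e (nat_lit 57476) (nat_lit 28) (.e (nat_lit 557107) (nat_lit 15) (.e (nat_lit 188450) (nat_lit 23) (.e (nat_lit 204852) (nat_lit 26) (.e (nat_lit 336257) (nat_lit 15) (.e (nat_lit 3618) (nat_lit 227) .nil))))))) (.g (nat_lit 1) (.e (nat_lit 431389) (nat_lit 0) .nil) .nil)))) (.nd (nat_lit 9) 
(.lf (nat_lit 604515) (.g (nat_lit 3209) (.e (nat_lit 770072) (nat_lit 8) (.e (nat_lit 65583) (nat_lit 7) (.e (nat_lit 319530) (nat_lit 16) (.e (nat_lit 286759) (nat_lit 12) (.e (nat_lit 385107) (nat_lit 51) (.e (nat_lit 794644) (nat_lit 20) (.e (nat_lit 3606) (nat_lit 226) .nil))))))) (.g (nat_lit 1) (.e (nat_lit 430979) (nat_lit 0) .nil) .nil))) 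
(.lf (nat_lit 605027) (.g (nat_lit 1964) (.e (nat_lit 778323) (nat_lit 5) (.e (nat_lit 73781) (nat_lit 32) (.e (nat_lit 3090) (nat_lit 191) (.e (nat_lit 483380) (nat_lit 23) (.e (nat_lit 336261) (nat_lit 15) (.e (nat_lit 3633) (nat_lit 227) .nil)))))) (.g (nat_lit 1) (.e (nat_lit 431661) (nat_lit 0) .nil) .nil))))) (.nd (nat_lit 8) (.nd (nat_lit 9) 
(.lf (nat_lit 604387) (.g (nat_lit 5155) (.e (nat_lit 770071) (nat_lit 8) (.e (nat_lit 65568) (nat_lit 2) (.e (nat_lit 90170) (nat_lit 13) (.e (nat_lit 172113) (nat_lit 10) (.e (nat_lit 434248) (nat_lit 28) (.e (nat_lit 573475) (nat_lit 12) (.e (nat_lit 57572) (nat_lit 54) .nil))))))) (.g (nat_lit 1) (.e (nat_lit 430840) (nat_lit 0) .nil) .nil))) 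
(.lf (nat_lit 604899) (.g (nat_lit 3377) (.e (nat_lit 786176) (nat_lit 3) (.e (nat_lit 57478) (nat_lit 28) (.e (nat_lit 557109) (nat_lit 15) (.e (nat_lit 188447) (nat_lit 22) (.e (nat_lit 196666) (nat_lit 13) .nil))))) (.g (nat_lit 0) (.e (nat_lit 431519) (nat_lit 0) .nil) .nil)))) (.nd (nat_lit 9) 
(.lf (nat_lit 604643) (.g (nat_lit 2047) (.e (nat_lit 786176) (nat_lit 0) (.e (nat_lit 1669) (nat_lit 116) (.e (nat_lit 401454) (nat_lit 12) (.e (nat_lit 475181) (nat_lit 27) .nil)))) (.g (nat_lit 0) (.e (nat_lit 431235) (nat_lit 0) .nil) .nil))) 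
(.lf (nat_lit 605155) (.g (nat_lit 2651) (.e (nat_lit 778324) (nat_lit 5) (.e (nat_lit 73781) (nat_lit 32) (.e (nat_lit 3090) (nat_lit 191) (.e (nat_lit 483403) (nat_lit 26) (.e (nat_lit 385090) (nat_lit 49) .nil))))) (.g (nat_lit 1) (.e (nat_lit 431793) (nat_lit 0) .nil) .nil)))))))) (.nd (nat_lit 5) (.nd (nat_lit 6) (.nd (nat_lit 7) (.nd (nat_lit 8) (.nd (nat_lit 9) 
(.lf (nat_lit 604179) (.g (nat_lit 2707) (.e (nat_lit 761898) (nat_lit 15) (.e (nat_lit 163979) (nat_lit 30) (.e (nat_lit 573488) (nat_lit 14) (.e (nat_lit 73755) (nat_lit 8) (.e (nat_lit 557104) (nat_lit 14) .nil))))) (.g (nat_lit 0) (.e (nat_lit 428759) (nat_lit 0) .nil) .nil))) 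
(.lf (nat_lit 604691) (.g (nat_lit 1390) (.e (nat_lit 778317) (nat_lit 3) (.e (nat_lit 57477) (nat_lit 28) (.e (nat_lit 557067) (nat_lit 9) (.e (nat_lit 3021) (nat_lit 187) (.e (nat_lit 450579) (nat_lit 5) .nil))))) (.g (nat_lit 0) (.e (nat_lit 431286) (nat_lit 0) .nil) .nil)))) (.nd (nat_lit 9) 
(.lf (nat_lit 604435) (.g (nat_lit 1613) (.e (nat_lit 770071) (nat_lit 8) (.e (nat_lit 65611) (nat_lit 10) (.e (nat_lit 344177) (nat_lit 43) (.e (nat_lit 770074) (nat_lit 10) (.e (nat_lit 81942) (nat_lit 20) .nil))))) (.g (nat_lit 0) (.e (nat_lit 430895) (nat_lit 0) .nil) .nil))) 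
(.lf (nat_lit 604947) (.g (nat_lit 1451) (.e (nat_lit 778320) (nat_lit 4) (.e (nat_lit 65630) (nat_lit 14) (.e (nat_lit 401456) (nat_lit 13) (.e (nat_lit 483391) (nat_lit 23) .nil)))) (.g (nat_lit 0) (.e (nat_lit 431571) (nat_lit 0) .nil) .nil))))) (.nd (nat_lit 8) (.nd (nat_lit 9) 
(.lf (nat_lit 604307) (.g (nat_lit 2654) (.e (nat_lit 761899) (nat_lit 15) (.e (nat_lit 163978) (nat_lit 30) (.e (nat_lit 573489) (nat_lit 14) (.e (nat_lit 73755) (nat_lit 8) (.e (nat_lit 557105) (nat_lit 14) (.e (nat_lit 180245) (nat_lit 5) (.e (nat_lit 532484) (nat_lit 0) (.e (nat_lit 2271) (nat_lit 149) .nil)))))))) (.g (nat_lit 1) (.e (nat_lit 429041) (nat_lit 0) .nil) .nil))) 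
(.lf (nat_lit 604819) (.g (nat_lit 1980) (.e (nat_lit 778318) (nat_lit 3) (.e (nat_lit 57476) (nat_lit 28) (.e (nat_lit 557107) (nat_lit 15) (.e (nat_lit 188452) (nat_lit 23) (.e (nat_lit 204852) (nat_lit 26) .nil))))) (.g (nat_lit 0) (.e (nat_lit 431437) (nat_lit 0) .nil) .nil)))) (.nd (nat_lit 9) 
(.lf (nat_lit 604563) (.g (nat_lit 2183) (.e (nat_lit 770072) (nat_lit 8) (.e (nat_lit 65586) (nat_lit 7) (.e (nat_lit 319531) (nat_lit 16) (.e (nat_lit 286759) (nat_lit 12) (.e (nat_lit 385115) (nat_lit 53) (.e (nat_lit 811042) (nat_lit 11) (.e (nat_lit 7936) (nat_lit 74) .nil))))))) (.g (nat_lit 1) (.e (nat_lit 431028) (nat_lit 0) .nil) .nil))) 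
(.lf (nat_lit 605075) (.g (nat_lit 1285) (.e (nat_lit 778323) (nat_lit 5) (.e (nat_lit 73782) (nat_lit 32) (.e (nat_lit 3089) (nat_lit 191) (.e (nat_lit 483393) (nat_lit 23) (.e (nat_lit 336291) (nat_lit 15) .nil))))) (.g (nat_lit 0) (.e (nat_lit 431709) (nat_lit 0) .nil) .nil)))))) (.nd (nat_lit 7) (.nd (nat_lit 8) (.nd (nat_lit 9) 
(.lf (nat_lit 604243) (.g (nat_lit 2191) (.e (nat_lit 761899) (nat_lit 15) (.e (nat_lit 163977) (nat_lit 30) (.e (nat_lit 573489) (nat_lit 14) (.e (nat_lit 73755) (nat_lit 8) (.e (nat_lit 557096) (nat_lit 13) .nil))))) (.g (nat_lit 0) (.e (nat_lit 428907) (nat_lit 0) .nil) .nil))) 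
(.lf (nat_lit 604755) (.g (nat_lit 2429) (.e (nat_lit 778318) (nat_lit 3) (.e (nat_lit 57476) (nat_lit 28) (.e (nat_lit 557098) (nat_lit 13) (.e (nat_lit 172115) (nat_lit 10) (.e (nat_lit 434231) (nat_lit 23) .nil))))) (.g (nat_lit 0) (.e (nat_lit 431371) (nat_lit 0) .nil) .nil)))) (.nd (nat_lit 9) 
(.lf (nat_lit 604499) (.g (nat_lit 2767) (.e (nat_lit 770072) (nat_lit 8) (.e (nat_lit 65583) (nat_lit 7) (.e (nat_lit 319530) (nat_lit 16) (.e (nat_lit 286748) (nat_lit 9) (.e (nat_lit 336295) (nat_lit 15) (.e (nat_lit 3806) (nat_lit 231) (.e (nat_lit 811031) (nat_lit 11) (.e (nat_lit 852) (nat_lit 74) .nil)))))))) (.g (nat_lit 1) (.e (nat_lit 430963) (nat_lit 0) .nil) .nil))) 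
(.lf (nat_lit 605011) (.g (nat_lit 1396) (.e (nat_lit 778323) (nat_lit 5) (.e (nat_lit 73781) (nat_lit 32) (.e (nat_lit 3089) (nat_lit 191) (.e (nat_lit 483387) (nat_lit 23) (.e (nat_lit 336267) (nat_lit 15) .nil))))) (.g (nat_lit 0) (.e (nat_lit 431645) (nat_lit 0) .nil) .nil))))) (.nd (nat_lit 8) (.nd (nat_lit 9) 
(.lf (nat_lit 604371) (.g (nat_lit 744) (.e (nat_lit 761913) (nat_lit 18) (.e (nat_lit 188446) (nat_lit 21) (.e (nat_lit 164301) (nat_lit 226) .nil))) (.g (nat_lit 0) (.e (nat_lit 430610) (nat_lit 0) .nil) .nil))) 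
(.lf (nat_lit 604883) (.g (nat_lit 4129) (.e (nat_lit 778318) (nat_lit 3) (.e (nat_lit 57476) (nat_lit 28) (.e (nat_lit 557108) (nat_lit 15) (.e (nat_lit 188452) (nat_lit 23) (.e (nat_lit 204855) (nat_lit 26) (.e (nat_lit 336280) (nat_lit 15) (.e (nat_lit 3627) (nat_lit 227) .nil))))))) (.g (nat_lit 1) (.e (nat_lit 431501) (nat_lit 0) .nil) .nil)))) (.nd (nat_lit 9) 
(.lf (nat_lit 604627) (.g (nat_lit 1518) (.e (nat_lit 770074) (nat_lit 10) (.e (nat_lit 81925) (nat_lit 11) (.e (nat_lit 426342) (nat_lit 14) (.e (nat_lit 491558) (nat_lit 10) (.e (nat_lit 344175) (nat_lit 43) .nil))))) (.g (nat_lit 0) (.e (nat_lit 431098) (nat_lit 0) .nil) .nil))) 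
(.lf (nat_lit 605139) (.g (nat_lit 2504) (.e (nat_lit 778324) (nat_lit 5) (.e (nat_lit 73781) (nat_lit 32) (.e (nat_lit 3090) (nat_lit 191) (.e (nat_lit 483380) (nat_lit 23) (.e (nat_lit 336258) (nat_lit 15) (.e (nat_lit 3628) (nat_lit 227) .nil)))))) (.g (nat_lit 1) (.e (nat_lit 431777) (nat_lit 0) .nil) .nil))))))) (.nd (nat_lit 6) (.nd (nat_lit 7) (.nd (nat_lit 8) (.nd (nat_lit 9) 
(.lf (nat_lit 604211) (.g (nat_lit 3542) (.e (nat_lit 761898) (nat_lit 15) (.e (nat_lit 163979) (nat_lit 30) (.e (nat_lit 573489) (nat_lit 14) (.e (nat_lit 73755) (nat_lit 8) (.e (nat_lit 557097) (nat_lit 13) (.e (nat_lit 172067) (nat_lit 3) (.e (nat_lit 204821) (nat_lit 17) (.e (nat_lit 7936) (nat_lit 149) .nil)))))))) (.g (nat_lit 1) (.e (nat_lit 428797) (nat_lit 0) .nil) .nil))) 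
(.lf (nat_lit 604723) (.g (nat_lit 2019) (.e (nat_lit 778318) (nat_lit 3) (.e (nat_lit 57476) (nat_lit 28) (.e (nat_lit 557097) (nat_lit 13) (.e (nat_lit 172115) (nat_lit 10) (.e (nat_lit 434231) (nat_lit 23) .nil))))) (.g (nat_lit 0) (.e (nat_lit 431339) (nat_lit 0) .nil) .nil)))) (.nd (nat_lit 9) 
(.lf (nat_lit 604467) (.g (nat_lit 3283) (.e (nat_lit 770071) (nat_lit 8) (.e (nat_lit 65630) (nat_lit 14) (.e (nat_lit 401454) (nat_lit 12) (.e (nat_lit 475214) (nat_lit 42) (.e (nat_lit 720956) (nat_lit 25) .nil))))) (.g (nat_lit 0) (.e (nat_lit 430927) (nat_lit 0) .nil) .nil))) 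
(.lf (nat_lit 604979) (.g (nat_lit 1219) (.e (nat_lit 778322) (nat_lit 5) (.e (nat_lit 73781) (nat_lit 32) (.e (nat_lit 2855) (nat_lit 184) (.e (nat_lit 426542) (nat_lit 29) (.e (nat_lit 352264) (nat_lit 0) (.e (nat_lit 3715) (nat_lit 227) .nil)))))) (.g (nat_lit 1) (.e (nat_lit 431606) (nat_lit 0) .nil) .nil))))) (.nd (nat_lit 8) (.nd (nat_lit 9) 
(.lf (nat_lit 604339) (.g (nat_lit 2428) (.e (nat_lit 761899) (nat_lit 15) (.e (nat_lit 163979) (nat_lit 30) (.e (nat_lit 573489) (nat_lit 14) (.e (nat_lit 73755) (nat_lit 8) (.e (nat_lit 557103) (nat_lit 14) .nil))))) (.g (nat_lit 0) (.e (nat_lit 429118) (nat_lit 0) .nil) .nil))) 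
(.lf (nat_lit 604851) (.g (nat_lit 3996) (.e (nat_lit 778318) (nat_lit 3) (.e (nat_lit 57476) (nat_lit 28) (.e (nat_lit 557108) (nat_lit 15) (.e (nat_lit 188452) (nat_lit 23) (.e (nat_lit 204852) (nat_lit 26) (.e (nat_lit 336257) (nat_lit 15) (.e (nat_lit 3629) (nat_lit 227) .nil))))))) (.g (nat_lit 1) (.e (nat_lit 431469) (nat_lit 0) .nil) .nil)))) (.nd (nat_lit 9) 
(.lf (nat_lit 604595) (.g (nat_lit 2512) (.e (nat_lit 770072) (nat_lit 8) (.e (nat_lit 65626) (nat_lit 13) (.e (nat_lit 393234) (nat_lit 17) (.e (nat_lit 7593) (nat_lit 407) (.e (nat_lit 73773) (nat_lit 25) .nil))))) (.g (nat_lit 1) (.e (nat_lit 431062) (nat_lit 0) .nil) .nil))) 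
(.lf (nat_lit 605107) (.g (nat_lit 1354) (.e (nat_lit 778324) (nat_lit 5) (.e (nat_lit 73781) (nat_lit 32) (.e (nat_lit 2856) (nat_lit 184) (.e (nat_lit 426538) (nat_lit 29) .nil)))) (.g (nat_lit 0) (.e (nat_lit 431745) (nat_lit 0) .nil) .nil)))))) (.nd (nat_lit 7) (.nd (nat_lit 8) (.nd (nat_lit 9) 
(.lf (nat_lit 604275) (.g (nat_lit 2542) (.e (nat_lit 761899) (nat_lit 15) (.e (nat_lit 163978) (nat_lit 30) (.e (nat_lit 573489) (nat_lit 14) (.e (nat_lit 73754) (nat_lit 8) (.e (nat_lit 557101) (nat_lit 13) (.e (nat_lit 172066) (nat_lit 3) (.e (nat_lit 204817) (nat_lit 17) (.e (nat_lit 7936) (nat_lit 149) .nil)))))))) (.g (nat_lit 1) (.e (nat_lit 429003) (nat_lit 0) .nil) .nil))) 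
(.lf (nat_lit 604787) (.g (nat_lit 3098) (.e (nat_lit 778318) (nat_lit 3) (.e (nat_lit 57476) (nat_lit 28) (.e (nat_lit 557107) (nat_lit 15) (.e (nat_lit 188450) (nat_lit 23) (.e (nat_lit 204852) (nat_lit 26) (.e (nat_lit 336259) (nat_lit 15) (.e (nat_lit 3618) (nat_lit 227) .nil))))))) (.g (nat_lit 1) (.e (nat_lit 431405) (nat_lit 0) .nil) .nil)))) (.nd (nat_lit 9) 
(.lf (nat_lit 604531) (.g (nat_lit 1575) (.e (nat_lit 770072) (nat_lit 8) (.e (nat_lit 65583) (nat_lit 7) (.e (nat_lit 319534) (nat_lit 16) (.e (nat_lit 286756) (nat_lit 10) .nil)))) (.g (nat_lit 0) (.e (nat_lit 430995) (nat_lit 0) .nil) .nil))) 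
(.lf (nat_lit 605043) (.g (nat_lit 1220) (.e (nat_lit 778323) (nat_lit 5) (.e (nat_lit 73781) (nat_lit 32) (.e (nat_lit 3090) (nat_lit 191) (.e (nat_lit 483391) (nat_lit 23) .nil)))) (.g (nat_lit 0) (.e (nat_lit 431677) (nat_lit 0) .nil) .nil))))) (.nd (nat_lit 8) (.nd (nat_lit 9) 
(.lf (nat_lit 604403) (.g (nat_lit 2408) (.e (nat_lit 770071) (nat_lit 8) (.e (nat_lit 65586) (nat_lit 7) (.e (nat_lit 319531) (nat_lit 16) (.e (nat_lit 286743) (nat_lit 9) (.e (nat_lit 336337) (nat_lit 20) (.e (nat_lit 221195) (nat_lit 20) (.e (nat_lit 3615) (nat_lit 226) .nil))))))) (.g (nat_lit 1) (.e (nat_lit 430857) (nat_lit 0) .nil) .nil))) 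
(.lf (nat_lit 604915) (.g (nat_lit 2513) (.e (nat_lit 786176) (nat_lit 3) (.e (nat_lit 57480) (nat_lit 28) (.e (nat_lit 557109) (nat_lit 15) (.e (nat_lit 188452) (nat_lit 23) (.e (nat_lit 204880) (nat_lit 32) .nil))))) (.g (nat_lit 0) (.e (nat_lit 431536) (nat_lit 0) .nil) .nil)))) (.nd (nat_lit 9) 
(.lf (nat_lit 604659) (.g (nat_lit 3510) (.e (nat_lit 778316) (nat_lit 3) (.e (nat_lit 57479) (nat_lit 28) (.e (nat_lit 557101) (nat_lit 13) (.e (nat_lit 172097) (nat_lit 9) (.e (nat_lit 426140) (nat_lit 3) (.e (nat_lit 204855) (nat_lit 26) (.e (nat_lit 336290) (nat_lit 15) (.e (nat_lit 3716) (nat_lit 227) .nil)))))))) (.g (nat_lit 1) (.e (nat_lit 431254) (nat_lit 0) .nil) .nil))) 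
(.lf (nat_lit 605171) (.g (nat_lit 587) (.e (nat_lit 778325) (nat_lit 6) (.e (nat_lit 81922) (nat_lit 0) (.e (nat_lit 3630) (nat_lit 227) (.e (nat_lit 778326) (nat_lit 6) (.e (nat_lit 81921) (nat_lit 0) (.e (nat_lit 3716) (nat_lit 227) .nil)))))) (.g (nat_lit 1) (.e (nat_lit 431809) (nat_lit 0) .nil) .nil))))))))) 
(.nd (nat_lit 4) (.nd (nat_lit 5) (.nd (nat_lit 6) (.nd (nat_lit 7) (.nd (nat_lit 8) 
(.nd (nat_lit 9) 
(.lf (nat_lit 604171) (.g (nat_lit 1740) (.e (nat_lit 761898) (nat_lit 15) (.e (nat_lit 163979) (nat_lit 30) (.e (nat_lit 573488) (nat_lit 14) (.e (nat_lit 73755) (nat_lit 8) .nil)))) (.g (nat_lit 0) (.e (nat_lit 428751) (nat_lit 0) .nil) .nil))) 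
(.lf (nat_lit 604683) (.g (nat_lit 4933) (.e (nat_lit 778317) (nat_lit 3) (.e (nat_lit 57476) (nat_lit 28) (.e (nat_lit 557067) (nat_lit 9) (.e (nat_lit 3022) (nat_lit 187) (.e (nat_lit 450580) (nat_lit 5) (.e (nat_lit 532563) (nat_lit 15) (.e (nat_lit 385092) (nat_lit 49) .nil))))))) (.g (nat_lit 1) (.e (nat_lit 431278) (nat_lit 0) .nil) .nil)))) (.nd (nat_lit 9) 
(.lf (nat_lit 604427) (.g (nat_lit 2446) (.e (nat_lit 770071) (nat_lit 8) (.e (nat_lit 65610) (nat_lit 10) (.e (nat_lit 344090) (nat_lit 18) (.e (nat_lit 7265) (nat_lit 384) (.e (nat_lit 57406) (nat_lit 12) (.e (nat_lit 336182) (nat_lit 11) (.e (nat_lit 368698) (nat_lit 43) .nil))))))) (.g (nat_lit 1) (.e (nat_lit 430887) (nat_lit 0) .nil) .nil))) 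
(.lf (nat_lit 604939) (.g (nat_lit 1295) (.e (nat_lit 778320) (nat_lit 4) (.e (nat_lit 65630) (nat_lit 14) (.e (nat_lit 401438) (nat_lit 9) (.e (nat_lit 426482) (nat_lit 27) .nil)))) (.g (nat_lit 0) (.e (nat_lit 431563) (nat_lit 0) .nil) .nil))))) (.nd (nat_lit 8) (.nd (nat_lit 9) 
(.lf (nat_lit 604299) (.g (nat_lit 2449) (.e (nat_lit 761899) (nat_lit 15) (.e (nat_lit 163978) (nat_lit 30) (.e (nat_lit 573489) (nat_lit 14) (.e (nat_lit 73755) (nat_lit 8) (.e (nat_lit 557103) (nat_lit 14) (.e (nat_lit 180244) (nat_lit 5) (.e (nat_lit 532485) (nat_lit 0) (.e (nat_lit 2264) (nat_lit 149) .nil)))))))) (.g (nat_lit 1) (.e (nat_lit 429032) (nat_lit 0) .nil) .nil))) 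
(.lf (nat_lit 604811) (.g (nat_lit 2578) (.e (nat_lit 778318) (nat_lit 3) (.e (nat_lit 57476) (nat_lit 28) (.e (nat_lit 557107) (nat_lit 15) (.e (nat_lit 188450) (nat_lit 23) (.e (nat_lit 204854) (nat_lit 26) (.e (nat_lit 336306) (nat_lit 15) (.e (nat_lit 3618) (nat_lit 227) .nil))))))) (.g (nat_lit 1) (.e (nat_lit 431429) (nat_lit 0) .nil) .nil)))) (.nd (nat_lit 9) 
(.lf (nat_lit 604555) (.g (nat_lit 2834) (.e (nat_lit 770072) (nat_lit 8) (.e (nat_lit 65586) (nat_lit 7) (.e (nat_lit 319531) (nat_lit 16) (.e (nat_lit 286756) (nat_lit 10) (.e (nat_lit 344094) (nat_lit 18) .nil))))) (.g (nat_lit 0) (.e (nat_lit 431019) (nat_lit 0) .nil) .nil))) 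
(.lf (nat_lit 605067) (.g (nat_lit 1060) (.e (nat_lit 778323) (nat_lit 5) (.e (nat_lit 73782) (nat_lit 32) (.e (nat_lit 3087) (nat_lit 191) (.e (nat_lit 483386) (nat_lit 23) (.e (nat_lit 336295) (nat_lit 15) .nil))))) (.g (nat_lit 0) (.e (nat_lit 431701) (nat_lit 0) .nil) .nil)))))) (.nd (nat_lit 7) (.nd (nat_lit 8) (.nd (nat_lit 9) 
(.lf (nat_lit 604235) (.g (nat_lit 2417) (.e (nat_lit 761898) (nat_lit 15) (.e (nat_lit 163979) (nat_lit 30) (.e (nat_lit 573489) (nat_lit 14) (.e (nat_lit 73755) (nat_lit 8) (.e (nat_lit 557105) (nat_lit 14) .nil))))) (.g (nat_lit 0) (.e (nat_lit 428825) (nat_lit 0) .nil) .nil))) 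
(.lf (nat_lit 604747) (.g (nat_lit 3065) (.e (nat_lit 778318) (nat_lit 3) (.e (nat_lit 57476) (nat_lit 28) (.e (nat_lit 557097) (nat_lit 13) (.e (nat_lit 172115) (nat_lit 10) (.e (nat_lit 434231) (nat_lit 23) (.e (nat_lit 532531) (nat_lit 9) (.e (nat_lit 336306) (nat_lit 15) (.e (nat_lit 3618) (nat_lit 227) .nil)))))))) (.g (nat_lit 1) (.e (nat_lit 431363) (nat_lit 0) .nil) .nil)))) 
(.nd (nat_lit 9) 
(.lf (nat_lit 604491) (.g (nat_lit 1858) (.e (nat_lit 770072) (nat_lit 8) (.e (nat_lit 65582) (nat_lit 7) (.e (nat_lit 319530) (nat_lit 16) (.e (nat_lit 286759) (nat_lit 12) (.e (nat_lit 385110) (nat_lit 52) (.e (nat_lit 802829) (nat_lit 20) (.e (nat_lit 3613) (nat_lit 226) .nil))))))) (.g (nat_lit 1) (.e (nat_lit 430955) (nat_lit 0) .nil) .nil))) 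
(.lf (nat_lit 605003) (.g (nat_lit 1074) (.e (nat_lit 778323) (nat_lit 5) (.e (nat_lit 73781) (nat_lit 32) (.e (nat_lit 3087) (nat_lit 191) (.e (nat_lit 483386) (nat_lit 23) (.e (nat_lit 336295) (nat_lit 15) .nil))))) (.g (nat_lit 0) (.e (nat_lit 431637) (nat_lit 0) .nil) .nil))))) (.nd (nat_lit 8) (.nd (nat_lit 9) 
(.lf (nat_lit 604363) (.g (nat_lit 1833) (.e (nat_lit 761910) (nat_lit 17) (.e (nat_lit 180251) (nat_lit 10) (.e (nat_lit 573456) (nat_lit 9) (.e (nat_lit 1669) (nat_lit 116) (.e (nat_lit 401459) (nat_lit 13) .nil))))) (.g (nat_lit 0) (.e (nat_lit 430395) (nat_lit 0) .nil) .nil))) 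
(.lf (nat_lit 604875) (.g (nat_lit 2704) (.e (nat_lit 778318) (nat_lit 3) (.e (nat_lit 57476) (nat_lit 28) (.e (nat_lit 557108) (nat_lit 15) (.e (nat_lit 188452) (nat_lit 23) (.e (nat_lit 204852) (nat_lit 26) (.e (nat_lit 336297) (nat_lit 15) (.e (nat_lit 3630) (nat_lit 227) .nil))))))) (.g (nat_lit 1) (.e (nat_lit 431493) (nat_lit 0) .nil) .nil)))) (.nd (nat_lit 9) 
(.lf (nat_lit 604619) (.g (nat_lit 2402) (.e (nat_lit 770073) (nat_lit 9) (.e (nat_lit 73746) (nat_lit 3) (.e (nat_lit 516165) (nat_lit 12) (.e (nat_lit 450586) (nat_lit 10) (.e (nat_lit 573477) (nat_lit 12) .nil))))) (.g (nat_lit 0) (.e (nat_lit 431090) (nat_lit 0) .nil) .nil))) 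
(.lf (nat_lit 605131) (.g (nat_lit 2109) (.e (nat_lit 778324) (nat_lit 5) (.e (nat_lit 73781) (nat_lit 32) (.e (nat_lit 3090) (nat_lit 191) (.e (nat_lit 483380) (nat_lit 23) (.e (nat_lit 336257) (nat_lit 15) (.e (nat_lit 3618) (nat_lit 227) .nil)))))) (.g (nat_lit 1) (.e (nat_lit 431769) (nat_lit 0) .nil) .nil))))))) (.nd (nat_lit 6) (.nd (nat_lit 7) (.nd (nat_lit 8) (.nd (nat_lit 9) 
(.lf (nat_lit 604203) (.g (nat_lit 2208) (.e (nat_lit 761898) (nat_lit 15) (.e (nat_lit 163979) (nat_lit 30) (.e (nat_lit 573489) (nat_lit 14) (.e (nat_lit 73755) (nat_lit 8) (.e (nat_lit 557097) (nat_lit 13) (.e (nat_lit 172067) (nat_lit 3) (.e (nat_lit 204815) (nat_lit 17) (.e (nat_lit 7936) (nat_lit 149) .nil)))))))) (.g (nat_lit 1) (.e (nat_lit 428789) (nat_lit 0) .nil) .nil))) 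
(.lf (nat_lit 604715) (.g (nat_lit 3579) (.e (nat_lit 778318) (nat_lit 3) (.e (nat_lit 57476) (nat_lit 28) (.e (nat_lit 557097) (nat_lit 13) (.e (nat_lit 172097) (nat_lit 9) (.e (nat_lit 426125) (nat_lit 2) (.e (nat_lit 196666) (nat_lit 13) (.e (nat_lit 65642) (nat_lit 15) (.e (nat_lit 3630) (nat_lit 227) .nil)))))))) (.g (nat_lit 1) (.e (nat_lit 431331) (nat_lit 0) .nil) .nil)))) 
(.nd (nat_lit 9) 
(.lf (nat_lit 604459) (.g (nat_lit 4118) (.e (nat_lit 770071) (nat_lit 8) (.e (nat_lit 65628) (nat_lit 14) (.e (nat_lit 401454) (nat_lit 12) (.e (nat_lit 475214) (nat_lit 42) (.e (nat_lit 720955) (nat_lit 25) .nil))))) (.g (nat_lit 0) (.e (nat_lit 430919) (nat_lit 0) .nil) .nil))) 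
(.lf (nat_lit 604971) (.g (nat_lit 1333) (.e (nat_lit 778321) (nat_lit 4) (.e (nat_lit 65628) (nat_lit 14) (.e (nat_lit 401458) (nat_lit 13) (.e (nat_lit 483403) (nat_lit 26) .nil)))) (.g (nat_lit 0) (.e (nat_lit 431595) (nat_lit 0) .nil) .nil))))) (.nd (nat_lit 8) (.nd (nat_lit 9) 
(.lf (nat_lit 604331) (.g (nat_lit 2258) (.e (nat_lit 761899) (nat_lit 15) (.e (nat_lit 163979) (nat_lit 30) (.e (nat_lit 573489) (nat_lit 14) (.e (nat_lit 73755) (nat_lit 8) (.e (nat_lit 557097) (nat_lit 13) (.e (nat_lit 172066) (nat_lit 3) (.e (nat_lit 204819) (nat_lit 17) (.e (nat_lit 7936) (nat_lit 149) .nil)))))))) (.g (nat_lit 1) (.e (nat_lit 429108) (nat_lit 0) .nil) .nil))) 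
(.lf (nat_lit 604843) (.g (nat_lit 4615) (.e (nat_lit 778318) (nat_lit 3) (.e (nat_lit 57476) (nat_lit 28) (.e (nat_lit 557108) (nat_lit 15) (.e (nat_lit 188452) (nat_lit 23) (.e (nat_lit 204852) (nat_lit 26) (.e (nat_lit 336257) (nat_lit 15) (.e (nat_lit 3618) (nat_lit 227) .nil))))))) (.g (nat_lit 1) (.e (nat_lit 431461) (nat_lit 0) .nil) .nil)))) (.nd (nat_lit 9) 
(.lf (nat_lit 604587) (.g (nat_lit 1100) (.e (nat_lit 770072) (nat_lit 8) (.e (nat_lit 65617) (nat_lit 10) (.e (nat_lit 344176) (nat_lit 43) (.e (nat_lit 770074) (nat_lit 10) .nil)))) (.g (nat_lit 0) (.e (nat_lit 431054) (nat_lit 0) .nil) .nil))) 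
(.lf (nat_lit 605099) (.g (nat_lit 1902) (.e (nat_lit 778323) (nat_lit 5) (.e (nat_lit 73782) (nat_lit 32) (.e (nat_lit 3090) (nat_lit 191) (.e (nat_lit 483393) (nat_lit 23) (.e (nat_lit 336293) (nat_lit 15) .nil))))) (.g (nat_lit 0) (.e (nat_lit 431733) (nat_lit 0) .nil) .nil)))))) (.nd (nat_lit 7) (.nd (nat_lit 8) (.nd (nat_lit 9) 
(.lf (nat_lit 604267) (.g (nat_lit 2181) (.e (nat_lit 761899) (nat_lit 15) (.e (nat_lit 163977) (nat_lit 30) (.e (nat_lit 573489) (nat_lit 14) (.e (nat_lit 73755) (nat_lit 8) (.e (nat_lit 557104) (nat_lit 14) (.e (nat_lit 180244) (nat_lit 5) (.e (nat_lit 532491) (nat_lit 0) (.e (nat_lit 2264) (nat_lit 149) .nil)))))))) (.g (nat_lit 1) (.e (nat_lit 428934) (nat_lit 0) .nil) .nil))) 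
(.lf (nat_lit 604779) (.g (nat_lit 3191) (.e (nat_lit 778318) (nat_lit 3) (.e (nat_lit 57476) (nat_lit 28) (.e (nat_lit 557107) (nat_lit 15) (.e (nat_lit 188450) (nat_lit 23) (.e (nat_lit 204852) (nat_lit 26) (.e (nat_lit 336257) (nat_lit 15) (.e (nat_lit 3628) (nat_lit 227) .nil))))))) (.g (nat_lit 1) (.e (nat_lit 431397) (nat_lit 0) .nil) .nil)))) (.nd (nat_lit 9) 
(.lf (nat_lit 604523) (.g (nat_lit 2109) (.e (nat_lit 770072) (nat_lit 8) (.e (nat_lit 65583) (nat_lit 7) (.e (nat_lit 319530) (nat_lit 16) (.e (nat_lit 286759) (nat_lit 12) (.e (nat_lit 385115) (nat_lit 53) (.e (nat_lit 811039) (nat_lit 11) (.e (nat_lit 7936) (nat_lit 74) .nil))))))) (.g (nat_lit 1) (.e (nat_lit 430987) (nat_lit 0) .nil) .nil))) 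
(.lf (nat_lit 605035) (.g (nat_lit 2152) (.e (nat_lit 778323) (nat_lit 5) (.e (nat_lit 73781) (nat_lit 32) (.e (nat_lit 3090) (nat_lit 191) (.e (nat_lit 483380) (nat_lit 23) (.e (nat_lit 336303) (nat_lit 15) .nil))))) (.g (nat_lit 0) (.e (nat_lit 431669) (nat_lit 0) .nil) .nil))))) (.nd (nat_lit 8) (.nd (nat_lit 9) 
(.lf (nat_lit 604395) (.g (nat_lit 1761) (.e (nat_lit 770071) (nat_lit 8) (.e (nat_lit 65583) (nat_lit 7) (.e (nat_lit 319530) (nat_lit 16) (.e (nat_lit 286743) (nat_lit 9) (.e (nat_lit 336337) (nat_lit 20) (.e (nat_lit 221195) (nat_lit 20) (.e (nat_lit 3615) (nat_lit 226) .nil))))))) (.g (nat_lit 1) (.e (nat_lit 430849) (nat_lit 0) .nil) .nil))) 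
(.lf (nat_lit 604907) (.g (nat_lit 1388) (.e (nat_lit 786176) (nat_lit 3) (.e (nat_lit 57480) (nat_lit 28) (.e (nat_lit 557098) (nat_lit 13) (.e (nat_lit 179968) (nat_lit 9) .nil)))) (.g (nat_lit 0) (.e (nat_lit 431528) (nat_lit 0) .nil) .nil)))) (.nd (nat_lit 9) 
(.lf (nat_lit 604651) (.g (nat_lit 2388) (.e (nat_lit 778316) (nat_lit 3) (.e (nat_lit 57477) (nat_lit 28) (.e (nat_lit 557108) (nat_lit 15) (.e (nat_lit 188449) (nat_lit 22) (.e (nat_lit 196666) (nat_lit 13) (.e (nat_lit 65639) (nat_lit 15) (.e (nat_lit 3716) (nat_lit 227) .nil))))))) (.g (nat_lit 1) (.e (nat_lit 431246) (nat_lit 0) .nil) .nil))) 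
(.lf (nat_lit 605163) (.g (nat_lit 306) (.e (nat_lit 786176) (nat_lit 5) (.e (nat_lit 73781) (nat_lit 32) (.e (nat_lit 3087) (nat_lit 191) .nil))) (.g (nat_lit 0) (.e (nat_lit 431801) (nat_lit 0) .nil) .nil)))))))) (.nd (nat_lit 5) (.nd (nat_lit 6) (.nd (nat_lit 7) (.nd (nat_lit 8) (.nd (nat_lit 9) 
(.lf (nat_lit 604187) (.g (nat_lit 2795) (.e (nat_lit 761898) (nat_lit 15) (.e (nat_lit 163979) (nat_lit 30) (.e (nat_lit 573489) (nat_lit 14) (.e (nat_lit 73754) (nat_lit 8) (.e (nat_lit 557101) (nat_lit 13) (.e (nat_lit 172067) (nat_lit 3) (.e (nat_lit 204815) (nat_lit 17) (.e (nat_lit 2271) (nat_lit 149) .nil)))))))) (.g (nat_lit 1) (.e (nat_lit 428768) (nat_lit 0) .nil) .nil))) 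
(.lf (nat_lit 604699) (.g (nat_lit 2992) (.e (nat_lit 778317) (nat_lit 3) (.e (nat_lit 57479) (nat_lit 28) (.e (nat_lit 557099) (nat_lit 13) (.e (nat_lit 172106) (nat_lit 10) (.e (nat_lit 434231) (nat_lit 23) (.e (nat_lit 532535) (nat_lit 9) (.e (nat_lit 336295) (nat_lit 15) (.e (nat_lit 3630) (nat_lit 227) .nil)))))))) (.g (nat_lit 1) (.e (nat_lit 431295) (nat_lit 0) .nil) .nil)))) 
(.nd (nat_lit 9) 
(.lf (nat_lit 604443) (.g (nat_lit 2666) (.e (nat_lit 770071) (nat_lit 8) (.e (nat_lit 65617) (nat_lit 10) (.e (nat_lit 344096) (nat_lit 18) (.e (nat_lit 7266) (nat_lit 384) (.e (nat_lit 57409) (nat_lit 12) (.e (nat_lit 336182) (nat_lit 11) (.e (nat_lit 368698) (nat_lit 43) .nil))))))) (.g (nat_lit 1) (.e (nat_lit 430903) (nat_lit 0) .nil) .nil))) 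
(.lf (nat_lit 604955) (.g (nat_lit 1175) (.e (nat_lit 778320) (nat_lit 4) (.e (nat_lit 65630) (nat_lit 14) (.e (nat_lit 401456) (nat_lit 13) (.e (nat_lit 483408) (nat_lit 26) .nil)))) (.g (nat_lit 0) (.e (nat_lit 431579) (nat_lit 0) .nil) .nil))))) (.nd (nat_lit 8) (.nd (nat_lit 9) 
(.lf (nat_lit 604315) (.g (nat_lit 2832) (.e (nat_lit 761899) (nat_lit 15) (.e (nat_lit 163979) (nat_lit 30) (.e (nat_lit 573489) (nat_lit 14) (.e (nat_lit 73754) (nat_lit 8) (.e (nat_lit 557100) (nat_lit 13) .nil))))) (.g (nat_lit 0) (.e (nat_lit 429088) (nat_lit 0) .nil) .nil))) 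
(.lf (nat_lit 604827) (.g (nat_lit 1414) (.e (nat_lit 778318) (nat_lit 3) (.e (nat_lit 57476) (nat_lit 28) (.e (nat_lit 557108) (nat_lit 15) (.e (nat_lit 188450) (nat_lit 23) .nil)))) (.g (nat_lit 0) (.e (nat_lit 431445) (nat_lit 0) .nil) .nil)))) (.nd (nat_lit 9) 
(.lf (nat_lit 604571) (.g (nat_lit 2014) (.e (nat_lit 770072) (nat_lit 8) (.e (nat_lit 65586) (nat_lit 7) (.e (nat_lit 319534) (nat_lit 16) (.e (nat_lit 286756) (nat_lit 10) (.e (nat_lit 344160) (nat_lit 37) .nil))))) (.g (nat_lit 0) (.e (nat_lit 431036) (nat_lit 0) .nil) .nil))) 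
(.lf (nat_lit 605083) (.g (nat_lit 1644) (.e (nat_lit 778323) (nat_lit 5) (.e (nat_lit 73782) (nat_lit 32) (.e (nat_lit 3090) (nat_lit 191) (.e (nat_lit 483380) (nat_lit 23) (.e (nat_lit 336258) (nat_lit 15) .nil))))) (.g (nat_lit 0) (.e (nat_lit 431717) (nat_lit 0) .nil) .nil)))))) (.nd (nat_lit 7) (.nd (nat_lit 8) (.nd (nat_lit 9) 
(.lf (nat_lit 604251) (.g (nat_lit 3554) (.e (nat_lit 761899) (nat_lit 15) (.e (nat_lit 163977) (nat_lit 30) (.e (nat_lit 573489) (nat_lit 14) (.e (nat_lit 73755) (nat_lit 8) (.e (nat_lit 557097) (nat_lit 13) (.e (nat_lit 172066) (nat_lit 3) (.e (nat_lit 204817) (nat_lit 17) (.e (nat_lit 7936) (nat_lit 149) .nil)))))))) (.g (nat_lit 1) (.e (nat_lit 428918) (nat_lit 0) .nil) .nil))) 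
(.lf (nat_lit 604763) (.g (nat_lit 3365) (.e (nat_lit 778318) (nat_lit 3) (.e (nat_lit 57476) (nat_lit 28) (.e (nat_lit 557107) (nat_lit 15) (.e (nat_lit 188450) (nat_lit 23) (.e (nat_lit 204852) (nat_lit 26) (.e (nat_lit 336238) (nat_lit 15) (.e (nat_lit 3627) (nat_lit 227) .nil))))))) (.g (nat_lit 1) (.e (nat_lit 431381) (nat_lit 0) .nil) .nil)))) (.nd (nat_lit 9) 
(.lf (nat_lit 604507) (.g (nat_lit 2326) (.e (nat_lit 770072) (nat_lit 8) (.e (nat_lit 65583) (nat_lit 7) (.e (nat_lit 319530) (nat_lit 16) (.e (nat_lit 286753) (nat_lit 10) (.e (nat_lit 344160) (nat_lit 37) .nil))))) (.g (nat_lit 0) (.e (nat_lit 430971) (nat_lit 0) .nil) .nil))) 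
(.lf (nat_lit 605019) (.g (nat_lit 2337) (.e (nat_lit 778323) (nat_lit 5) (.e (nat_lit 73781) (nat_lit 32) (.e (nat_lit 3090) (nat_lit 191) (.e (nat_lit 483380) (nat_lit 23) (.e (nat_lit 336240) (nat_lit 15) (.e (nat_lit 3623) (nat_lit 227) .nil)))))) (.g (nat_lit 1) (.e (nat_lit 431653) (nat_lit 0) .nil) .nil))))) (.nd (nat_lit 8) (.nd (nat_lit 9) 
(.lf (nat_lit 604379) (.g (nat_lit 2909) (.e (nat_lit 770070) (nat_lit 8) (.e (nat_lit 65570) (nat_lit 3) (.e (nat_lit 98373) (nat_lit 29) (.e (nat_lit 450588) (nat_lit 10) (.e (nat_lit 573473) (nat_lit 12) .nil))))) (.g (nat_lit 0) (.e (nat_lit 430832) (nat_lit 0) .nil) .nil))) 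
(.lf (nat_lit 604891) (.g (nat_lit 4747) (.e (nat_lit 778318) (nat_lit 3) (.e (nat_lit 57476) (nat_lit 28) (.e (nat_lit 557109) (nat_lit 15) (.e (nat_lit 188452) (nat_lit 23) (.e (nat_lit 204880) (nat_lit 32) .nil))))) (.g (nat_lit 0) (.e (nat_lit 431509) (nat_lit 0) .nil) .nil)))) (.nd (nat_lit 9) 
(.lf (nat_lit 604635) (.g (nat_lit 1997) (.e (nat_lit 770076) (nat_lit 12) (.e (nat_lit 131109) (nat_lit 9) (.e (nat_lit 336443) (nat_lit 32) (.e (nat_lit 466972) (nat_lit 21) (.e (nat_lit 164332) (nat_lit 230) (.e (nat_lit 163850) (nat_lit 0) (.e (nat_lit 3611) (nat_lit 226) .nil))))))) (.g (nat_lit 1) (.e (nat_lit 431107) (nat_lit 0) .nil) .nil))) 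
(.lf (nat_lit 605147) (.g (nat_lit 2074) (.e (nat_lit 778324) (nat_lit 5) (.e (nat_lit 73781) (nat_lit 32) (.e (nat_lit 3090) (nat_lit 191) (.e (nat_lit 483380) (nat_lit 23) (.e (nat_lit 336297) (nat_lit 15) .nil))))) (.g (nat_lit 0) (.e (nat_lit 431785) (nat_lit 0) .nil) .nil))))))) (.nd (nat_lit 6) (.nd (nat_lit 7) (.nd (nat_lit 8) (.nd (nat_lit 9) 
(.lf (nat_lit 604219) (.g (nat_lit 2511) (.e (nat_lit 761898) (nat_lit 15) (.e (nat_lit 163979) (nat_lit 30) (.e (nat_lit 573489) (nat_lit 14) (.e (nat_lit 73755) (nat_lit 8) (.e (nat_lit 557103) (nat_lit 14) (.e (nat_lit 180244) (nat_lit 5) (.e (nat_lit 532488) (nat_lit 0) (.e (nat_lit 7936) (nat_lit 149) .nil)))))))) (.g (nat_lit 1) (.e (nat_lit 428808) (nat_lit 0) .nil) .nil))) 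
(.lf (nat_lit 604731) (.g (nat_lit 3552) (.e (nat_lit 778318) (nat_lit 3) (.e (nat_lit 57476) (nat_lit 28) (.e (nat_lit 557097) (nat_lit 13) (.e (nat_lit 172115) (nat_lit 10) (.e (nat_lit 434231) (nat_lit 23) (.e (nat_lit 532528) (nat_lit 9) (.e (nat_lit 336263) (nat_lit 15) (.e (nat_lit 3629) (nat_lit 227) .nil)))))))) (.g (nat_lit 1) (.e (nat_lit 431347) (nat_lit 0) .nil) .nil)))) 
(.nd (nat_lit 9) 
(.lf (nat_lit 604475) (.g (nat_lit 3417) (.e (nat_lit 770072) (nat_lit 8) (.e (nat_lit 65569) (nat_lit 3) (.e (nat_lit 98373) (nat_lit 29) (.e (nat_lit 450588) (nat_lit 10) (.e (nat_lit 573452) (nat_lit 9) .nil))))) (.g (nat_lit 0) (.e (nat_lit 430939) (nat_lit 0) .nil) .nil))) 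
(.lf (nat_lit 604987) (.g (nat_lit 1793) (.e (nat_lit 778322) (nat_lit 5) (.e (nat_lit 73782) (nat_lit 32) (.e (nat_lit 2857) (nat_lit 184) (.e (nat_lit 426542) (nat_lit 29) (.e (nat_lit 352264) (nat_lit 0) (.e (nat_lit 3716) (nat_lit 227) .nil)))))) (.g (nat_lit 1) (.e (nat_lit 431614) (nat_lit 0) .nil) .nil))))) (.nd (nat_lit 8) (.nd (nat_lit 9) 
(.lf (nat_lit 604347) (.g (nat_lit 2085) (.e (nat_lit 761899) (nat_lit 15) (.e (nat_lit 163979) (nat_lit 30) (.e (nat_lit 573489) (nat_lit 14) (.e (nat_lit 73755) (nat_lit 8) (.e (nat_lit 557104) (nat_lit 14) (.e (nat_lit 180244) (nat_lit 5) (.e (nat_lit 532483) (nat_lit 0) (.e (nat_lit 7936) (nat_lit 149) .nil)))))))) (.g (nat_lit 1) (.e (nat_lit 429126) (nat_lit 0) .nil) .nil))) 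
(.lf (nat_lit 604859) (.g (nat_lit 3463) (.e (nat_lit 778318) (nat_lit 3) (.e (nat_lit 57476) (nat_lit 28) (.e (nat_lit 557108) (nat_lit 15) (.e (nat_lit 188452) (nat_lit 23) (.e (nat_lit 204852) (nat_lit 26) (.e (nat_lit 336259) (nat_lit 15) (.e (nat_lit 3622) (nat_lit 227) .nil))))))) (.g (nat_lit 1) (.e (nat_lit 431477) (nat_lit 0) .nil) .nil)))) (.nd (nat_lit 9) 
(.lf (nat_lit 604603) (.g (nat_lit 987) (.e (nat_lit 770072) (nat_lit 8) (.e (nat_lit 65628) (nat_lit 14) (.e (nat_lit 401422) (nat_lit 1) (.e (nat_lit 164179) (nat_lit 154) .nil)))) (.g (nat_lit 0) (.e (nat_lit 431070) (nat_lit 0) .nil) .nil))) 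
(.lf (nat_lit 605115) (.g (nat_lit 858) (.e (nat_lit 778324) (nat_lit 5) (.e (nat_lit 73781) (nat_lit 32) (.e (nat_lit 3089) (nat_lit 191) (.e (nat_lit 483379) (nat_lit 23) .nil)))) (.g (nat_lit 0) (.e (nat_lit 431753) (nat_lit 0) .nil) .nil)))))) (.nd (nat_lit 7) (.nd (nat_lit 8) (.nd (nat_lit 9) 
(.lf (nat_lit 604283) (.g (nat_lit 3592) (.e (nat_lit 761899) (nat_lit 15) (.e (nat_lit 163978) (nat_lit 30) (.e (nat_lit 573489) (nat_lit 14) (.e (nat_lit 73755) (nat_lit 8) (.e (nat_lit 557096) (nat_lit 13) (.e (nat_lit 172067) (nat_lit 3) (.e (nat_lit 204821) (nat_lit 17) (.e (nat_lit 2270) (nat_lit 149) .nil)))))))) (.g (nat_lit 1) (.e (nat_lit 429013) (nat_lit 0) .nil) .nil))) 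
(.lf (nat_lit 604795) (.g (nat_lit 3375) (.e (nat_lit 778318) (nat_lit 3) (.e (nat_lit 57476) (nat_lit 28) (.e (nat_lit 557107) (nat_lit 15) (.e (nat_lit 188450) (nat_lit 23) (.e (nat_lit 204852) (nat_lit 26) (.e (nat_lit 336261) (nat_lit 15) (.e (nat_lit 3629) (nat_lit 227) .nil))))))) (.g (nat_lit 1) (.e (nat_lit 431413) (nat_lit 0) .nil) .nil)))) (.nd (nat_lit 9) 
(.lf (nat_lit 604539) (.g (nat_lit 2585) (.e (nat_lit 770072) (nat_lit 8) (.e (nat_lit 65586) (nat_lit 7) (.e (nat_lit 319531) (nat_lit 16) (.e (nat_lit 286748) (nat_lit 9) (.e (nat_lit 336295) (nat_lit 15) (.e (nat_lit 3803) (nat_lit 231) (.e (nat_lit 811035) (nat_lit 11) (.e (nat_lit 7936) (nat_lit 74) .nil)))))))) (.g (nat_lit 1) (.e (nat_lit 431003) (nat_lit 0) .nil) .nil))) 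
(.lf (nat_lit 605051) (.g (nat_lit 2399) (.e (nat_lit 778323) (nat_lit 5) (.e (nat_lit 73782) (nat_lit 32) (.e (nat_lit 2856) (nat_lit 184) (.e (nat_lit 426482) (nat_lit 27) (.e (nat_lit 336198) (nat_lit 12) .nil))))) (.g (nat_lit 0) (.e (nat_lit 431685) (nat_lit 0) .nil) .nil))))) (.nd (nat_lit 8) (.nd (nat_lit 9) 
(.lf (nat_lit 604411) (.g (nat_lit 2581) (.e (nat_lit 770071) (nat_lit 8) (.e (nat_lit 65586) (nat_lit 7) (.e (nat_lit 319531) (nat_lit 16) (.e (nat_lit 286748) (nat_lit 9) (.e (nat_lit 336295) (nat_lit 15) (.e (nat_lit 3757) (nat_lit 229) (.e (nat_lit 794639) (nat_lit 20) (.e (nat_lit 3615) (nat_lit 226) .nil)))))))) (.g (nat_lit 1) (.e (nat_lit 430865) (nat_lit 0) .nil) .nil))) 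
(.lf (nat_lit 604923) (.g (nat_lit 1810) (.e (nat_lit 778319) (nat_lit 4) (.e (nat_lit 65630) (nat_lit 14) (.e (nat_lit 401457) (nat_lit 13) (.e (nat_lit 483405) (nat_lit 26) (.e (nat_lit 385100) (nat_lit 49) .nil))))) (.g (nat_lit 0) (.e (nat_lit 431546) (nat_lit 0) .nil) .nil)))) (.nd (nat_lit 9) 
(.lf (nat_lit 604667) (.g (nat_lit 3804) (.e (nat_lit 778316) (nat_lit 3) (.e (nat_lit 57480) (nat_lit 28) (.e (nat_lit 557098) (nat_lit 13) (.e (nat_lit 172115) (nat_lit 10) (.e (nat_lit 434231) (nat_lit 23) (.e (nat_lit 532535) (nat_lit 9) (.e (nat_lit 336290) (nat_lit 15) (.e (nat_lit 3716) (nat_lit 227) .nil)))))))) (.g (nat_lit 1) (.e (nat_lit 431262) (nat_lit 0) .nil) .nil))) 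
(.lf (nat_lit 605179) (.g (nat_lit 1190) (.e (nat_lit 778325) (nat_lit 6) (.e (nat_lit 81947) (nat_lit 20) (.e (nat_lit 2005) (nat_lit 138) (.e (nat_lit 671764) (nat_lit 6) (.e (nat_lit 81921) (nat_lit 0) .nil))))) (.g (nat_lit 0) (.e (nat_lit 431817) (nat_lit 0) .nil) .nil)))))))))) 
(.nd (nat_lit 3) (.nd (nat_lit 4) (.nd (nat_lit 5) (.nd (nat_lit 6) (.nd (nat_lit 7) 
(.nd (nat_lit 8) (.nd (nat_lit 9) 
(.lf (nat_lit 604167) (.g (nat_lit 2086) (.e (nat_lit 761898) (nat_lit 15) (.e (nat_lit 163979) (nat_lit 30) (.e (nat_lit 573487) (nat_lit 14) (.e (nat_lit 73755) (nat_lit 8) .nil)))) (.g (nat_lit 0) (.e (nat_lit 428747) (nat_lit 0) .nil) .nil))) 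
(.lf (nat_lit 604679) (.g (nat_lit 2821) (.e (nat_lit 778317) (nat_lit 3) (.e (nat_lit 57476) (nat_lit 28) (.e (nat_lit 557067) (nat_lit 9) (.e (nat_lit 3022) (nat_lit 187) (.e (nat_lit 450578) (nat_lit 5) .nil))))) (.g (nat_lit 0) (.e (nat_lit 431274) (nat_lit 0) .nil) .nil)))) (.nd (nat_lit 9) 
(.lf (nat_lit 604423) (.g (nat_lit 2356) (.e (nat_lit 770071) (nat_lit 8) (.e (nat_lit 65586) (nat_lit 7) (.e (nat_lit 319534) (nat_lit 16) (.e (nat_lit 286756) (nat_lit 10) (.e (nat_lit 344088) (nat_lit 18) .nil))))) (.g (nat_lit 0) (.e (nat_lit 430878) (nat_lit 0) .nil) .nil))) 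
(.lf (nat_lit 604935) (.g (nat_lit 1288) (.e (nat_lit 778320) (nat_lit 4) (.e (nat_lit 65630) (nat_lit 14) (.e (nat_lit 401437) (nat_lit 9) (.e (nat_lit 426540) (nat_lit 29) .nil)))) (.g (nat_lit 0) (.e (nat_lit 431559) (nat_lit 0) .nil) .nil))))) (.nd (nat_lit 8) (.nd (nat_lit 9) 
(.lf (nat_lit 604295) (.g (nat_lit 2645) (.e (nat_lit 761899) (nat_lit 15) (.e (nat_lit 163978) (nat_lit 30) (.e (nat_lit 573489) (nat_lit 14) (.e (nat_lit 73755) (nat_lit 8) (.e (nat_lit 557103) (nat_lit 14) (.e (nat_lit 180244) (nat_lit 5) (.e (nat_lit 532484) (nat_lit 0) (.e (nat_lit 2264) (nat_lit 149) .nil)))))))) (.g (nat_lit 1) (.e (nat_lit 429028) (nat_lit 0) .nil) .nil))) 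
(.lf (nat_lit 604807) (.g (nat_lit 2585) (.e (nat_lit 778318) (nat_lit 3) (.e (nat_lit 57476) (nat_lit 28) (.e (nat_lit 557107) (nat_lit 15) (.e (nat_lit 188450) (nat_lit 23) (.e (nat_lit 204852) (nat_lit 26) (.e (nat_lit 336306) (nat_lit 15) (.e (nat_lit 3620) (nat_lit 227) .nil))))))) (.g (nat_lit 1) (.e (nat_lit 431425) (nat_lit 0) .nil) .nil)))) (.nd (nat_lit 9) 
(.lf (nat_lit 604551) (.g (nat_lit 1943) (.e (nat_lit 770072) (nat_lit 8) (.e (nat_lit 65586) (nat_lit 7) (.e (nat_lit 319531) (nat_lit 16) (.e (nat_lit 286755) (nat_lit 10) (.e (nat_lit 344161) (nat_lit 37) .nil))))) (.g (nat_lit 0) (.e (nat_lit 431015) (nat_lit 0) .nil) .nil))) 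
(.lf (nat_lit 605063) (.g (nat_lit 3607) (.e (nat_lit 778323) (nat_lit 5) (.e (nat_lit 73782) (nat_lit 32) (.e (nat_lit 2857) (nat_lit 184) (.e (nat_lit 426482) (nat_lit 27) (.e (nat_lit 336205) (nat_lit 12) (.e (nat_lit 385093) (nat_lit 49) .nil)))))) (.g (nat_lit 1) (.e (nat_lit 431697) (nat_lit 0) .nil) .nil)))))) (.nd (nat_lit 7) (.nd (nat_lit 8) (.nd (nat_lit 9) 
(.lf (nat_lit 604231) (.g (nat_lit 2984) (.e (nat_lit 761898) (nat_lit 15) (.e (nat_lit 163979) (nat_lit 30) (.e (nat_lit 573489) (nat_lit 14) (.e (nat_lit 73755) (nat_lit 8) (.e (nat_lit 557104) (nat_lit 14) (.e (nat_lit 180244) (nat_lit 5) (.e (nat_lit 532485) (nat_lit 0) (.e (nat_lit 2271) (nat_lit 149) .nil)))))))) (.g (nat_lit 1) (.e (nat_lit 428820) (nat_lit 0) .nil) .nil))) 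
(.lf (nat_lit 604743) (.g (nat_lit 2640) (.e (nat_lit 778318) (nat_lit 3) (.e (nat_lit 57476) (nat_lit 28) (.e (nat_lit 557097) (nat_lit 13) (.e (nat_lit 172115) (nat_lit 10) (.e (nat_lit 434231) (nat_lit 23) (.e (nat_lit 532531) (nat_lit 9) (.e (nat_lit 336240) (nat_lit 15) (.e (nat_lit 3623) (nat_lit 227) .nil)))))))) (.g (nat_lit 1) (.e (nat_lit 431359) (nat_lit 0) .nil) .nil)))) 
(.nd (nat_lit 9) 
(.lf (nat_lit 604487) (.g (nat_lit 588) (.e (nat_lit 770072) (nat_lit 8) (.e (nat_lit 65571) (nat_lit 3) (.e (nat_lit 98370) (nat_lit 28) .nil))) (.g (nat_lit 0) (.e (nat_lit 430951) (nat_lit 0) .nil) .nil))) 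
(.lf (nat_lit 604999) (.g (nat_lit 1007) (.e (nat_lit 778323) (nat_lit 5) (.e (nat_lit 73781) (nat_lit 32) (.e (nat_lit 2857) (nat_lit 184) (.e (nat_lit 426489) (nat_lit 27) .nil)))) (.g (nat_lit 0) (.e (nat_lit 431633) (nat_lit 0) .nil) .nil))))) (.nd (nat_lit 8) (.nd (nat_lit 9) 
(.lf (nat_lit 604359) (.g (nat_lit 2086) (.e (nat_lit 761905) (nat_lit 16) (.e (nat_lit 172126) (nat_lit 14) (.e (nat_lit 491544) (nat_lit 7) (.e (nat_lit 319531) (nat_lit 16) .nil)))) (.g (nat_lit 0) (.e (nat_lit 429990) (nat_lit 0) .nil) .nil))) 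
(.lf (nat_lit 604871) (.g (nat_lit 3193) (.e (nat_lit 778318) (nat_lit 3) (.e (nat_lit 57476) (nat_lit 28) (.e (nat_lit 557108) (nat_lit 15) (.e (nat_lit 188452) (nat_lit 23) (.e (nat_lit 204852) (nat_lit 26) (.e (nat_lit 336303) (nat_lit 15) (.e (nat_lit 3620) (nat_lit 227) .nil))))))) (.g (nat_lit 1) (.e (nat_lit 431489) (nat_lit 0) .nil) .nil)))) (.nd (nat_lit 9) 
(.lf (nat_lit 604615) (.g (nat_lit 3368) (.e (nat_lit 770072) (nat_lit 8) (.e (nat_lit 65630) (nat_lit 14) (.e (nat_lit 401454) (nat_lit 12) (.e (nat_lit 475214) (nat_lit 42) (.e (nat_lit 720956) (nat_lit 25) .nil))))) (.g (nat_lit 0) (.e (nat_lit 431086) (nat_lit 0) .nil) .nil))) 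
(.lf (nat_lit 605127) (.g (nat_lit 2692) (.e (nat_lit 778324) (nat_lit 5) (.e (nat_lit 73781) (nat_lit 32) (.e (nat_lit 3090) (nat_lit 191) (.e (nat_lit 483380) (nat_lit 23) (.e (nat_lit 336240) (nat_lit 15) (.e (nat_lit 3626) (nat_lit 227) .nil)))))) (.g (nat_lit 1) (.e (nat_lit 431765) (nat_lit 0) .nil) .nil))))))) (.nd (nat_lit 6) (.nd (nat_lit 7) (.nd (nat_lit 8) (.nd (nat_lit 9) 
(.lf (nat_lit 604199) (.g (nat_lit 3995) (.e (nat_lit 761898) (nat_lit 15) (.e (nat_lit 163979) (nat_lit 30) (.e (nat_lit 573489) (nat_lit 14) (.e (nat_lit 73755) (nat_lit 8) (.e (nat_lit 557097) (nat_lit 13) (.e (nat_lit 172066) (nat_lit 3) (.e (nat_lit 204817) (nat_lit 17) (.e (nat_lit 7936) (nat_lit 149) .nil)))))))) (.g (nat_lit 1) (.e (nat_lit 428785) (nat_lit 0) .nil) .nil))) 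
(.lf (nat_lit 604711) (.g (nat_lit 4114) (.e (nat_lit 778318) (nat_lit 3) (.e (nat_lit 57474) (nat_lit 28) (.e (nat_lit 557100) (nat_lit 13) (.e (nat_lit 172106) (nat_lit 10) (.e (nat_lit 434231) (nat_lit 23) (.e (nat_lit 532535) (nat_lit 9) (.e (nat_lit 336295) (nat_lit 15) (.e (nat_lit 3631) (nat_lit 227) .nil)))))))) (.g (nat_lit 1) (.e (nat_lit 431315) (nat_lit 0) .nil) .nil)))) 
(.nd (nat_lit 9) 
(.lf (nat_lit 604455) (.g (nat_lit 1477) (.e (nat_lit 770071) (nat_lit 8) (.e (nat_lit 65626) (nat_lit 13) (.e (nat_lit 393233) (nat_lit 17) (.e (nat_lit 7591) (nat_lit 407) (.e (nat_lit 73773) (nat_lit 25) .nil))))) (.g (nat_lit 0) (.e (nat_lit 430915) (nat_lit 0) .nil) .nil))) 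
(.lf (nat_lit 604967) (.g (nat_lit 1719) (.e (nat_lit 778321) (nat_lit 4) (.e (nat_lit 65628) (nat_lit 14) (.e (nat_lit 401457) (nat_lit 13) (.e (nat_lit 483407) (nat_lit 26) .nil)))) (.g (nat_lit 0) (.e (nat_lit 431591) (nat_lit 0) .nil) .nil))))) (.nd (nat_lit 8) (.nd (nat_lit 9) 
(.lf (nat_lit 604327) (.g (nat_lit 2072) (.e (nat_lit 761899) (nat_lit 15) (.e (nat_lit 163979) (nat_lit 30) (.e (nat_lit 573489) (nat_lit 14) (.e (nat_lit 73755) (nat_lit 8) (.e (nat_lit 557097) (nat_lit 13) .nil))))) (.g (nat_lit 0) (.e (nat_lit 429103) (nat_lit 0) .nil) .nil))) 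
(.lf (nat_lit 604839) (.g (nat_lit 3827) (.e (nat_lit 778318) (nat_lit 3) (.e (nat_lit 57476) (nat_lit 28) (.e (nat_lit 557108) (nat_lit 15) (.e (nat_lit 188452) (nat_lit 23) (.e (nat_lit 204852) (nat_lit 26) (.e (nat_lit 336240) (nat_lit 15) (.e (nat_lit 3624) (nat_lit 227) .nil))))))) (.g (nat_lit 1) (.e (nat_lit 431457) (nat_lit 0) .nil) .nil)))) (.nd (nat_lit 9) 
(.lf (nat_lit 604583) (.g (nat_lit 1941) (.e (nat_lit 770072) (nat_lit 8) (.e (nat_lit 65617) (nat_lit 10) (.e (nat_lit 344096) (nat_lit 18) (.e (nat_lit 7122) (nat_lit 382) (.e (nat_lit 1296) (nat_lit 96) .nil))))) (.g (nat_lit 0) (.e (nat_lit 431050) (nat_lit 0) .nil) .nil))) 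
(.lf (nat_lit 605095) (.g (nat_lit 2621) (.e (nat_lit 778323) (nat_lit 5) (.e (nat_lit 73782) (nat_lit 32) (.e (nat_lit 3090) (nat_lit 191) (.e (nat_lit 483380) (nat_lit 23) (.e (nat_lit 336301) (nat_lit 15) (.e (nat_lit 3630) (nat_lit 227) .nil)))))) (.g (nat_lit 1) (.e (nat_lit 431729) (nat_lit 0) .nil) .nil)))))) (.nd (nat_lit 7) (.nd (nat_lit 8) (.nd (nat_lit 9) 
(.lf (nat_lit 604263) (.g (nat_lit 5113) (.e (nat_lit 761899) (nat_lit 15) (.e (nat_lit 163977) (nat_lit 30) (.e (nat_lit 573489) (nat_lit 14) (.e (nat_lit 73755) (nat_lit 8) (.e (nat_lit 557104) (nat_lit 14) (.e (nat_lit 180244) (nat_lit 5) (.e (nat_lit 532481) (nat_lit 0) (.e (nat_lit 2271) (nat_lit 149) .nil)))))))) (.g (nat_lit 1) (.e (nat_lit 428930) (nat_lit 0) .nil) .nil))) 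
(.lf (nat_lit 604775) (.g (nat_lit 3206) (.e (nat_lit 778318) (nat_lit 3) (.e (nat_lit 57476) (nat_lit 28) (.e (nat_lit 557107) (nat_lit 15) (.e (nat_lit 188450) (nat_lit 23) (.e (nat_lit 204852) (nat_lit 26) (.e (nat_lit 336257) (nat_lit 15) (.e (nat_lit 3622) (nat_lit 227) .nil))))))) (.g (nat_lit 1) (.e (nat_lit 431393) (nat_lit 0) .nil) .nil)))) (.nd (nat_lit 9) 
(.lf (nat_lit 604519) (.g (nat_lit 3488) (.e (nat_lit 770072) (nat_lit 8) (.e (nat_lit 65583) (nat_lit 7) (.e (nat_lit 319530) (nat_lit 16) (.e (nat_lit 286759) (nat_lit 12) (.e (nat_lit 385115) (nat_lit 53) (.e (nat_lit 811033) (nat_lit 11) (.e (nat_lit 7936) (nat_lit 74) .nil))))))) (.g (nat_lit 1) (.e (nat_lit 430983) (nat_lit 0) .nil) .nil))) 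
(.lf (nat_lit 605031) (.g (nat_lit 2589) (.e (nat_lit 778323) (nat_lit 5) (.e (nat_lit 73781) (nat_lit 32) (.e (nat_lit 3090) (nat_lit 191) (.e (nat_lit 483380) (nat_lit 23) (.e (nat_lit 336265) (nat_lit 15) (.e (nat_lit 3630) (nat_lit 227) .nil)))))) (.g (nat_lit 1) (.e (nat_lit 431665) (nat_lit 0) .nil) .nil))))) (.nd (nat_lit 8) (.nd (nat_lit 9) 
(.lf (nat_lit 604391) (.g (nat_lit 4967) (.e (nat_lit 770071) (nat_lit 8) (.e (nat_lit 65571) (nat_lit 3) (.e (nat_lit 98359) (nat_lit 26) (.e (nat_lit 426286) (nat_lit 10) (.e (nat_lit 434248) (nat_lit 28) (.e (nat_lit 573475) (nat_lit 12) (.e (nat_lit 57572) (nat_lit 54) .nil))))))) (.g (nat_lit 1) (.e (nat_lit 430844) (nat_lit 0) .nil) .nil))) 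
(.lf (nat_lit 604903) (.g (nat_lit 2634) (.e (nat_lit 786176) (nat_lit 3) (.e (nat_lit 57479) (nat_lit 28) (.e (nat_lit 557100) (nat_lit 13) (.e (nat_lit 172113) (nat_lit 10) .nil)))) (.g (nat_lit 0) (.e (nat_lit 431523) (nat_lit 0) .nil) .nil)))) (.nd (nat_lit 9) 
(.lf (nat_lit 604647) (.g (nat_lit 2963) (.e (nat_lit 778316) (nat_lit 3) (.e (nat_lit 57477) (nat_lit 28) (.e (nat_lit 557097) (nat_lit 13) (.e (nat_lit 172097) (nat_lit 9) (.e (nat_lit 426125) (nat_lit 2) (.e (nat_lit 196666) (nat_lit 13) (.e (nat_lit 65639) (nat_lit 15) (.e (nat_lit 3716) (nat_lit 227) .nil)))))))) (.g (nat_lit 1) (.e (nat_lit 431242) (nat_lit 0) .nil) .nil))) 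
(.lf (nat_lit 605159) (.g (nat_lit 1604) (.e (nat_lit 778324) (nat_lit 5) (.e (nat_lit 73781) (nat_lit 32) (.e (nat_lit 3090) (nat_lit 191) (.e (nat_lit 483404) (nat_lit 26) (.e (nat_lit 385090) (nat_lit 49) .nil))))) (.g (nat_lit 0) (.e (nat_lit 431797) (nat_lit 0) .nil) .nil)))))))) (.nd (nat_lit 5) (.nd (nat_lit 6) (.nd (nat_lit 7) (.nd (nat_lit 8) (.nd (nat_lit 9) 
(.lf (nat_lit 604183) (.g (nat_lit 2357) (.e (nat_lit 761898) (nat_lit 15) (.e (nat_lit 163979) (nat_lit 30) (.e (nat_lit 573489) (nat_lit 14) (.e (nat_lit 73754) (nat_lit 8) (.e (nat_lit 557101) (nat_lit 13) .nil))))) (.g (nat_lit 0) (.e (nat_lit 428764) (nat_lit 0) .nil) .nil))) 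
(.lf (nat_lit 604695) (.g (nat_lit 2266) (.e (nat_lit 778317) (nat_lit 3) (.e (nat_lit 57477) (nat_lit 28) (.e (nat_lit 557108) (nat_lit 15) (.e (nat_lit 188452) (nat_lit 23) (.e (nat_lit 204851) (nat_lit 26) .nil))))) (.g (nat_lit 0) (.e (nat_lit 431290) (nat_lit 0) .nil) .nil)))) (.nd (nat_lit 9) 
(.lf (nat_lit 604439) (.g (nat_lit 2682) (.e (nat_lit 770071) (nat_lit 8) (.e (nat_lit 65617) (nat_lit 10) (.e (nat_lit 344091) (nat_lit 18) (.e (nat_lit 7265) (nat_lit 384) (.e (nat_lit 57406) (nat_lit 12) (.e (nat_lit 336182) (nat_lit 11) (.e (nat_lit 368698) (nat_lit 43) .nil))))))) (.g (nat_lit 1) (.e (nat_lit 430899) (nat_lit 0) .nil) .nil))) 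
(.lf (nat_lit 604951) (.g (nat_lit 2385) (.e (nat_lit 778320) (nat_lit 4) (.e (nat_lit 65630) (nat_lit 14) (.e (nat_lit 401456) (nat_lit 13) (.e (nat_lit 483406) (nat_lit 26) (.e (nat_lit 385093) (nat_lit 49) .nil))))) (.g (nat_lit 0) (.e (nat_lit 431575) (nat_lit 0) .nil) .nil))))) (.nd (nat_lit 8) (.nd (nat_lit 9) 
(.lf (nat_lit 604311) (.g (nat_lit 2489) (.e (nat_lit 761899) (nat_lit 15) (.e (nat_lit 163978) (nat_lit 30) (.e (nat_lit 573489) (nat_lit 14) (.e (nat_lit 73755) (nat_lit 8) (.e (nat_lit 557105) (nat_lit 14) (.e (nat_lit 180245) (nat_lit 5) (.e (nat_lit 532489) (nat_lit 0) (.e (nat_lit 7936) (nat_lit 149) .nil)))))))) (.g (nat_lit 1) (.e (nat_lit 429045) (nat_lit 0) .nil) .nil))) 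
(.lf (nat_lit 604823) (.g (nat_lit 2889) (.e (nat_lit 778318) (nat_lit 3) (.e (nat_lit 57476) (nat_lit 28) (.e (nat_lit 557108) (nat_lit 15) (.e (nat_lit 188447) (nat_lit 22) (.e (nat_lit 196666) (nat_lit 13) (.e (nat_lit 65642) (nat_lit 15) (.e (nat_lit 3629) (nat_lit 227) .nil))))))) (.g (nat_lit 1) (.e (nat_lit 431441) (nat_lit 0) .nil) .nil)))) (.nd (nat_lit 9) 
(.lf (nat_lit 604567) (.g (nat_lit 1804) (.e (nat_lit 770072) (nat_lit 8) (.e (nat_lit 65586) (nat_lit 7) (.e (nat_lit 319534) (nat_lit 16) (.e (nat_lit 286752) (nat_lit 10) .nil)))) (.g (nat_lit 0) (.e (nat_lit 431032) (nat_lit 0) .nil) .nil))) 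
(.lf (nat_lit 605079) (.g (nat_lit 895) (.e (nat_lit 778323) (nat_lit 5) (.e (nat_lit 73782) (nat_lit 32) (.e (nat_lit 3090) (nat_lit 191) (.e (nat_lit 483380) (nat_lit 23) .nil)))) (.g (nat_lit 0) (.e (nat_lit 431713) (nat_lit 0) .nil) .nil)))))) (.nd (nat_lit 7) (.nd (nat_lit 8) (.nd (nat_lit 9) 
(.lf (nat_lit 604247) (.g (nat_lit 3955) (.e (nat_lit 761899) (nat_lit 15) (.e (nat_lit 163977) (nat_lit 30) (.e (nat_lit 573489) (nat_lit 14) (.e (nat_lit 73755) (nat_lit 8) (.e (nat_lit 557097) (nat_lit 13) (.e (nat_lit 172065) (nat_lit 3) (.e (nat_lit 204817) (nat_lit 17) (.e (nat_lit 2272) (nat_lit 149) .nil)))))))) (.g (nat_lit 1) (.e (nat_lit 428914) (nat_lit 0) .nil) .nil))) 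
(.lf (nat_lit 604759) (.g (nat_lit 3830) (.e (nat_lit 778318) (nat_lit 3) (.e (nat_lit 57476) (nat_lit 28) (.e (nat_lit 557107) (nat_lit 15) (.e (nat_lit 188447) (nat_lit 22) (.e (nat_lit 196666) (nat_lit 13) (.e (nat_lit 65642) (nat_lit 15) (.e (nat_lit 3629) (nat_lit 227) .nil))))))) (.g (nat_lit 1) (.e (nat_lit 431377) (nat_lit 0) .nil) .nil)))) (.nd (nat_lit 9) 
(.lf (nat_lit 604503) (.g (nat_lit 2239) (.e (nat_lit 770072) (nat_lit 8) (.e (nat_lit 65583) (nat_lit 7) (.e (nat_lit 319530) (nat_lit 16) (.e (nat_lit 286748) (nat_lit 9) (.e (nat_lit 336295) (nat_lit 15) (.e (nat_lit 3806) (nat_lit 231) (.e (nat_lit 811034) (nat_lit 11) (.e (nat_lit 7936) (nat_lit 74) .nil)))))))) (.g (nat_lit 1) (.e (nat_lit 430967) (nat_lit 0) .nil) .nil))) 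
(.lf (nat_lit 605015) (.g (nat_lit 1796) (.e (nat_lit 778323) (nat_lit 5) (.e (nat_lit 73781) (nat_lit 32) (.e (nat_lit 3089) (nat_lit 191) (.e (nat_lit 483406) (nat_lit 26) (.e (nat_lit 385091) (nat_lit 49) .nil))))) (.g (nat_lit 1) (.e (nat_lit 431649) (nat_lit 0) .nil) .nil))))) (.nd (nat_lit 8) (.nd (nat_lit 9) 
(.lf (nat_lit 604375) (.g (nat_lit 817) (.e (nat_lit 770056) (nat_lit 5) (.e (nat_lit 1464) (nat_lit 108) (.e (nat_lit 336028) (nat_lit 3) (.e (nat_lit 106240) (nat_lit 29) .nil)))) (.g (nat_lit 0) (.e (nat_lit 430822) (nat_lit 0) .nil) .nil))) 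
(.lf (nat_lit 604887) (.g (nat_lit 3954) (.e (nat_lit 778318) (nat_lit 3) (.e (nat_lit 57476) (nat_lit 28) (.e (nat_lit 557108) (nat_lit 15) (.e (nat_lit 188452) (nat_lit 23) (.e (nat_lit 204858) (nat_lit 26) .nil))))) (.g (nat_lit 0) (.e (nat_lit 431505) (nat_lit 0) .nil) .nil)))) (.nd (nat_lit 9) 
(.lf (nat_lit 604631) (.g (nat_lit 1443) (.e (nat_lit 770076) (nat_lit 12) (.e (nat_lit 131105) (nat_lit 9) (.e (nat_lit 336443) (nat_lit 32) (.e (nat_lit 466969) (nat_lit 21) (.e (nat_lit 164332) (nat_lit 230) (.e (nat_lit 163847) (nat_lit 0) (.e (nat_lit 3609) (nat_lit 226) .nil))))))) (.g (nat_lit 1) (.e (nat_lit 431103) (nat_lit 0) .nil) .nil))) 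
(.lf (nat_lit 605143) (.g (nat_lit 2610) (.e (nat_lit 778324) (nat_lit 5) (.e (nat_lit 73781) (nat_lit 32) (.e (nat_lit 3090) (nat_lit 191) (.e (nat_lit 483380) (nat_lit 23) (.e (nat_lit 336265) (nat_lit 15) .nil))))) (.g (nat_lit 0) (.e (nat_lit 431781) (nat_lit 0) .nil) .nil))))))) (.nd (nat_lit 6) (.nd (nat_lit 7) (.nd (nat_lit 8) (.nd (nat_lit 9) 
(.lf (nat_lit 604215) (.g (nat_lit 3800) (.e (nat_lit 761898) (nat_lit 15) (.e (nat_lit 163979) (nat_lit 30) (.e (nat_lit 573489) (nat_lit 14) (.e (nat_lit 73755) (nat_lit 8) (.e (nat_lit 557100) (nat_lit 13) (.e (nat_lit 172065) (nat_lit 3) (.e (nat_lit 204817) (nat_lit 17) (.e (nat_lit 7936) (nat_lit 149) .nil)))))))) (.g (nat_lit 1) (.e (nat_lit 428804) (nat_lit 0) .nil) .nil))) 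
(.lf (nat_lit 604727) (.g (nat_lit 2780) (.e (nat_lit 778318) (nat_lit 3) (.e (nat_lit 57476) (nat_lit 28) (.e (nat_lit 557097) (nat_lit 13) (.e (nat_lit 172115) (nat_lit 10) (.e (nat_lit 434231) (nat_lit 23) (.e (nat_lit 532528) (nat_lit 9) (.e (nat_lit 336259) (nat_lit 15) (.e (nat_lit 3634) (nat_lit 227) .nil)))))))) (.g (nat_lit 1) (.e (nat_lit 431343) (nat_lit 0) .nil) .nil)))) 
(.nd (nat_lit 9) 
(.lf (nat_lit 604471) (.g (nat_lit 2199) (.e (nat_lit 770072) (nat_lit 8) (.e (nat_lit 65569) (nat_lit 3) (.e (nat_lit 98359) (nat_lit 26) (.e (nat_lit 426286) (nat_lit 10) (.e (nat_lit 434247) (nat_lit 28) (.e (nat_lit 573472) (nat_lit 12) (.e (nat_lit 57572) (nat_lit 54) .nil))))))) (.g (nat_lit 1) (.e (nat_lit 430935) (nat_lit 0) .nil) .nil))) 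
(.lf (nat_lit 604983) (.g (nat_lit 577) (.e (nat_lit 778322) (nat_lit 5) (.e (nat_lit 73782) (nat_lit 32) (.e (nat_lit 2842) (nat_lit 184) .nil))) (.g (nat_lit 0) (.e (nat_lit 431610) (nat_lit 0) .nil) .nil))))) (.nd (nat_lit 8) (.nd (nat_lit 9) 
(.lf (nat_lit 604343) (.g (nat_lit 2045) (.e (nat_lit 761899) (nat_lit 15) (.e (nat_lit 163979) (nat_lit 30) (.e (nat_lit 573489) (nat_lit 14) (.e (nat_lit 73755) (nat_lit 8) (.e (nat_lit 557104) (nat_lit 14) .nil))))) (.g (nat_lit 0) (.e (nat_lit 429122) (nat_lit 0) .nil) .nil))) 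
(.lf (nat_lit 604855) (.g (nat_lit 3762) (.e (nat_lit 778318) (nat_lit 3) (.e (nat_lit 57476) (nat_lit 28) (.e (nat_lit 557108) (nat_lit 15) (.e (nat_lit 188452) (nat_lit 23) (.e (nat_lit 204852) (nat_lit 26) (.e (nat_lit 336258) (nat_lit 15) (.e (nat_lit 7936) (nat_lit 227) .nil))))))) (.g (nat_lit 1) (.e (nat_lit 431473) (nat_lit 0) .nil) .nil)))) (.nd (nat_lit 9) 
(.lf (nat_lit 604599) (.g (nat_lit 1159) (.e (nat_lit 770072) (nat_lit 8) (.e (nat_lit 65627) (nat_lit 13) (.e (nat_lit 393299) (nat_lit 27) (.e (nat_lit 491546) (nat_lit 9) .nil)))) (.g (nat_lit 0) (.e (nat_lit 431066) (nat_lit 0) .nil) .nil))) 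
(.lf (nat_lit 605111) (.g (nat_lit 1537) (.e (nat_lit 778324) (nat_lit 5) (.e (nat_lit 73781) (nat_lit 32) (.e (nat_lit 2857) (nat_lit 184) (.e (nat_lit 426542) (nat_lit 29) (.e (nat_lit 352266) (nat_lit 0) .nil))))) (.g (nat_lit 0) (.e (nat_lit 431749) (nat_lit 0) .nil) .nil)))))) (.nd (nat_lit 7) (.nd (nat_lit 8) (.nd (nat_lit 9) 
(.lf (nat_lit 604279) (.g (nat_lit 2223) (.e (nat_lit 761899) (nat_lit 15) (.e (nat_lit 163978) (nat_lit 30) (.e (nat_lit 573489) (nat_lit 14) (.e (nat_lit 73755) (nat_lit 8) (.e (nat_lit 557096) (nat_lit 13) .nil))))) (.g (nat_lit 0) (.e (nat_lit 429009) (nat_lit 0) .nil) .nil))) 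
(.lf (nat_lit 604791) (.g (nat_lit 2247) (.e (nat_lit 778318) (nat_lit 3) (.e (nat_lit 57476) (nat_lit 28) (.e (nat_lit 557107) (nat_lit 15) (.e (nat_lit 188450) (nat_lit 23) (.e (nat_lit 204852) (nat_lit 26) (.e (nat_lit 336259) (nat_lit 15) (.e (nat_lit 3629) (nat_lit 227) .nil))))))) (.g (nat_lit 1) (.e (nat_lit 431409) (nat_lit 0) .nil) .nil)))) (.nd (nat_lit 9) 
(.lf (nat_lit 604535) (.g (nat_lit 2130) (.e (nat_lit 770072) (nat_lit 8) (.e (nat_lit 65586) (nat_lit 7) (.e (nat_lit 319531) (nat_lit 16) (.e (nat_lit 286748) (nat_lit 9) (.e (nat_lit 335925) (nat_lit 0) .nil))))) (.g (nat_lit 0) (.e (nat_lit 430999) (nat_lit 0) .nil) .nil))) 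
(.lf (nat_lit 605047) (.g (nat_lit 1036) (.e (nat_lit 778323) (nat_lit 5) (.e (nat_lit 73781) (nat_lit 32) (.e (nat_lit 3090) (nat_lit 191) (.e (nat_lit 483404) (nat_lit 26) .nil)))) (.g (nat_lit 0) (.e (nat_lit 431681) (nat_lit 0) .nil) .nil))))) (.nd (nat_lit 8) (.nd (nat_lit 9) 
(.lf (nat_lit 604407) (.g (nat_lit 2268) (.e (nat_lit 770071) (nat_lit 8) (.e (nat_lit 65586) (nat_lit 7) (.e (nat_lit 319531) (nat_lit 16) (.e (nat_lit 286748) (nat_lit 9) (.e (nat_lit 335925) (nat_lit 0) .nil))))) (.g (nat_lit 0) (.e (nat_lit 430861) (nat_lit 0) .nil) .nil))) 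
(.lf (nat_lit 604919) (.g (nat_lit 1520) (.e (nat_lit 778319) (nat_lit 4) (.e (nat_lit 65624) (nat_lit 12) (.e (nat_lit 385093) (nat_lit 49) (.e (nat_lit 778326) (nat_lit 6) .nil)))) (.g (nat_lit 0) (.e (nat_lit 431540) (nat_lit 0) .nil) .nil)))) (.nd (nat_lit 9) 
(.lf (nat_lit 604663) (.g (nat_lit 3803) (.e (nat_lit 778316) (nat_lit 3) (.e (nat_lit 57480) (nat_lit 28) (.e (nat_lit 557098) (nat_lit 13) (.e (nat_lit 172097) (nat_lit 9) (.e (nat_lit 426125) (nat_lit 2) (.e (nat_lit 196666) (nat_lit 13) (.e (nat_lit 65639) (nat_lit 15) (.e (nat_lit 3716) (nat_lit 227) .nil)))))))) (.g (nat_lit 1) (.e (nat_lit 431258) (nat_lit 0) .nil) .nil))) 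
(.lf (nat_lit 605175) (.g (nat_lit 1210) (.e (nat_lit 778325) (nat_lit 6) (.e (nat_lit 81924) (nat_lit 0) (.e (nat_lit 3631) (nat_lit 227) (.e (nat_lit 778326) (nat_lit 6) (.e (nat_lit 81921) (nat_lit 0) (.e (nat_lit 3715) (nat_lit 227) .nil)))))) (.g (nat_lit 1) (.e (nat_lit 431813) (nat_lit 0) .nil) .nil))))))))) 
(.nd (nat_lit 4) (.nd (nat_lit 5) (.nd (nat_lit 6) (.nd (nat_lit 7) (.nd (nat_lit 8) 
(.nd (nat_lit 9) 
(.lf (nat_lit 604175) (.g (nat_lit 3375) (.e (nat_lit 761898) (nat_lit 15) (.e (nat_lit 163979) (nat_lit 30) (.e (nat_lit 573488) (nat_lit 14) (.e (nat_lit 73755) (nat_lit 8) (.e (nat_lit 557098) (nat_lit 13) (.e (nat_lit 172067) (nat_lit 3) (.e (nat_lit 204815) (nat_lit 17) (.e (nat_lit 2271) (nat_lit 149) .nil)))))))) (.g (nat_lit 1) (.e (nat_lit 428755) (nat_lit 0) .nil) .nil))) 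
(.lf (nat_lit 604687) (.g (nat_lit 1430) (.e (nat_lit 778317) (nat_lit 3) (.e (nat_lit 57476) (nat_lit 28) (.e (nat_lit 557095) (nat_lit 13) (.e (nat_lit 172115) (nat_lit 10) (.e (nat_lit 434231) (nat_lit 23) .nil))))) (.g (nat_lit 0) (.e (nat_lit 431282) (nat_lit 0) .nil) .nil)))) (.nd (nat_lit 9) 
(.lf (nat_lit 604431) (.g (nat_lit 1773) (.e (nat_lit 770071) (nat_lit 8) (.e (nat_lit 65610) (nat_lit 10) (.e (nat_lit 344097) (nat_lit 18) (.e (nat_lit 7147) (nat_lit 382) (.e (nat_lit 1203) (nat_lit 88) .nil))))) (.g (nat_lit 0) (.e (nat_lit 430891) (nat_lit 0) .nil) .nil))) 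
(.lf (nat_lit 604943) (.g (nat_lit 1986) (.e (nat_lit 778320) (nat_lit 4) (.e (nat_lit 65630) (nat_lit 14) (.e (nat_lit 401438) (nat_lit 9) (.e (nat_lit 426540) (nat_lit 29) (.e (nat_lit 352260) (nat_lit 0) .nil))))) (.g (nat_lit 0) (.e (nat_lit 431567) (nat_lit 0) .nil) .nil))))) (.nd (nat_lit 8) (.nd (nat_lit 9) 
(.lf (nat_lit 604303) (.g (nat_lit 2793) (.e (nat_lit 761899) (nat_lit 15) (.e (nat_lit 163978) (nat_lit 30) (.e (nat_lit 573489) (nat_lit 14) (.e (nat_lit 73755) (nat_lit 8) (.e (nat_lit 557105) (nat_lit 14) (.e (nat_lit 180242) (nat_lit 5) (.e (nat_lit 532481) (nat_lit 0) (.e (nat_lit 2271) (nat_lit 149) .nil)))))))) (.g (nat_lit 1) (.e (nat_lit 429037) (nat_lit 0) .nil) .nil))) 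
(.lf (nat_lit 604815) (.g (nat_lit 2314) (.e (nat_lit 778318) (nat_lit 3) (.e (nat_lit 57476) (nat_lit 28) (.e (nat_lit 557107) (nat_lit 15) (.e (nat_lit 188450) (nat_lit 23) (.e (nat_lit 204855) (nat_lit 26) (.e (nat_lit 336295) (nat_lit 15) (.e (nat_lit 3630) (nat_lit 227) .nil))))))) (.g (nat_lit 1) (.e (nat_lit 431433) (nat_lit 0) .nil) .nil)))) (.nd (nat_lit 9) 
(.lf (nat_lit 604559) (.g (nat_lit 2204) (.e (nat_lit 770072) (nat_lit 8) (.e (nat_lit 65586) (nat_lit 7) (.e (nat_lit 319531) (nat_lit 16) (.e (nat_lit 286759) (nat_lit 12) (.e (nat_lit 385115) (nat_lit 53) (.e (nat_lit 811031) (nat_lit 11) (.e (nat_lit 852) (nat_lit 74) .nil))))))) (.g (nat_lit 1) (.e (nat_lit 431024) (nat_lit 0) .nil) .nil))) 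
(.lf (nat_lit 605071) (.g (nat_lit 2312) (.e (nat_lit 778323) (nat_lit 5) (.e (nat_lit 73782) (nat_lit 32) (.e (nat_lit 3089) (nat_lit 191) (.e (nat_lit 483383) (nat_lit 23) (.e (nat_lit 336240) (nat_lit 15) (.e (nat_lit 3623) (nat_lit 227) .nil)))))) (.g (nat_lit 1) (.e (nat_lit 431705) (nat_lit 0) .nil) .nil)))))) (.nd (nat_lit 7) (.nd (nat_lit 8) (.nd (nat_lit 9) 
(.lf (nat_lit 604239) (.g (nat_lit 2077) (.e (nat_lit 761899) (nat_lit 15) (.e (nat_lit 163977) (nat_lit 30) (.e (nat_lit 573489) (nat_lit 14) (.e (nat_lit 73754) (nat_lit 8) (.e (nat_lit 557101) (nat_lit 13) .nil))))) (.g (nat_lit 0) (.e (nat_lit 428901) (nat_lit 0) .nil) .nil))) 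
(.lf (nat_lit 604751) (.g (nat_lit 3441) (.e (nat_lit 778318) (nat_lit 3) (.e (nat_lit 57476) (nat_lit 28) (.e (nat_lit 557097) (nat_lit 13) (.e (nat_lit 172115) (nat_lit 10) (.e (nat_lit 434231) (nat_lit 23) (.e (nat_lit 532535) (nat_lit 9) (.e (nat_lit 336291) (nat_lit 15) (.e (nat_lit 3629) (nat_lit 227) .nil)))))))) (.g (nat_lit 1) (.e (nat_lit 431367) (nat_lit 0) .nil) .nil)))) 
(.nd (nat_lit 9) 
(.lf (nat_lit 604495) (.g (nat_lit 2351) (.e (nat_lit 770072) (nat_lit 8) (.e (nat_lit 65583) (nat_lit 7) (.e (nat_lit 319530) (nat_lit 16) (.e (nat_lit 286748) (nat_lit 9) (.e (nat_lit 336295) (nat_lit 15) (.e (nat_lit 3757) (nat_lit 229) (.e (nat_lit 794638) (nat_lit 20) (.e (nat_lit 3613) (nat_lit 226) .nil)))))))) (.g (nat_lit 1) (.e (nat_lit 430959) (nat_lit 0) .nil) .nil))) 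
(.lf (nat_lit 605007) (.g (nat_lit 1641) (.e (nat_lit 778323) (nat_lit 5) (.e (nat_lit 73781) (nat_lit 32) (.e (nat_lit 3088) (nat_lit 191) (.e (nat_lit 483405) (nat_lit 26) (.e (nat_lit 385092) (nat_lit 49) .nil))))) (.g (nat_lit 0) (.e (nat_lit 431641) (nat_lit 0) .nil) .nil))))) (.nd (nat_lit 8) (.nd (nat_lit 9) 
(.lf (nat_lit 604367) (.g (nat_lit 3335) (.e (nat_lit 761910) (nat_lit 17) (.e (nat_lit 180252) (nat_lit 10) (.e (nat_lit 573451) (nat_lit 9) (.e (nat_lit 1667) (nat_lit 116) (.e (nat_lit 401459) (nat_lit 13) (.e (nat_lit 483343) (nat_lit 17) (.e (nat_lit 2265) (nat_lit 149) .nil))))))) (.g (nat_lit 1) (.e (nat_lit 430425) (nat_lit 0) .nil) .nil))) 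
(.lf (nat_lit 604879) (.g (nat_lit 2878) (.e (nat_lit 778318) (nat_lit 3) (.e (nat_lit 57476) (nat_lit 28) (.e (nat_lit 557108) (nat_lit 15) (.e (nat_lit 188452) (nat_lit 23) (.e (nat_lit 204853) (nat_lit 26) (.e (nat_lit 336306) (nat_lit 15) (.e (nat_lit 3619) (nat_lit 227) .nil))))))) (.g (nat_lit 1) (.e (nat_lit 431497) (nat_lit 0) .nil) .nil)))) (.nd (nat_lit 9) 
(.lf (nat_lit 604623) (.g (nat_lit 3237) (.e (nat_lit 770073) (nat_lit 9) (.e (nat_lit 73746) (nat_lit 3) (.e (nat_lit 516166) (nat_lit 12) (.e (nat_lit 450588) (nat_lit 10) (.e (nat_lit 573475) (nat_lit 12) .nil))))) (.g (nat_lit 0) (.e (nat_lit 431094) (nat_lit 0) .nil) .nil))) 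
(.lf (nat_lit 605135) (.g (nat_lit 2268) (.e (nat_lit 778324) (nat_lit 5) (.e (nat_lit 73781) (nat_lit 32) (.e (nat_lit 3090) (nat_lit 191) (.e (nat_lit 483380) (nat_lit 23) (.e (nat_lit 336257) (nat_lit 15) (.e (nat_lit 3626) (nat_lit 227) .nil)))))) (.g (nat_lit 1) (.e (nat_lit 431773) (nat_lit 0) .nil) .nil))))))) (.nd (nat_lit 6) (.nd (nat_lit 7) (.nd (nat_lit 8) (.nd (nat_lit 9) 
(.lf (nat_lit 604207) (.g (nat_lit 2470) (.e (nat_lit 761898) (nat_lit 15) (.e (nat_lit 163979) (nat_lit 30) (.e (nat_lit 573489) (nat_lit 14) (.e (nat_lit 73755) (nat_lit 8) (.e (nat_lit 557097) (nat_lit 13) (.e (nat_lit 172067) (nat_lit 3) (.e (nat_lit 204818) (nat_lit 17) (.e (nat_lit 2271) (nat_lit 149) .nil)))))))) (.g (nat_lit 1) (.e (nat_lit 428793) (nat_lit 0) .nil) .nil))) 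
(.lf (nat_lit 604719) (.g (nat_lit 3268) (.e (nat_lit 778318) (nat_lit 3) (.e (nat_lit 57476) (nat_lit 28) (.e (nat_lit 557097) (nat_lit 13) (.e (nat_lit 172097) (nat_lit 9) (.e (nat_lit 426140) (nat_lit 3) (.e (nat_lit 204855) (nat_lit 26) (.e (nat_lit 336295) (nat_lit 15) (.e (nat_lit 3630) (nat_lit 227) .nil)))))))) (.g (nat_lit 1) (.e (nat_lit 431335) (nat_lit 0) .nil) .nil)))) 
(.nd (nat_lit 9) 
(.lf (nat_lit 604463) (.g (nat_lit 3897) (.e (nat_lit 770071) (nat_lit 8) (.e (nat_lit 65629) (nat_lit 14) (.e (nat_lit 401454) (nat_lit 12) (.e (nat_lit 475214) (nat_lit 42) (.e (nat_lit 720956) (nat_lit 25) .nil))))) (.g (nat_lit 0) (.e (nat_lit 430923) (nat_lit 0) .nil) .nil))) 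
(.lf (nat_lit 604975) (.g (nat_lit 2053) (.e (nat_lit 778321) (nat_lit 4) (.e (nat_lit 65628) (nat_lit 14) (.e (nat_lit 401458) (nat_lit 13) (.e (nat_lit 483406) (nat_lit 26) (.e (nat_lit 385094) (nat_lit 49) .nil))))) (.g (nat_lit 0) (.e (nat_lit 431599) (nat_lit 0) .nil) .nil))))) (.nd (nat_lit 8) (.nd (nat_lit 9) 
(.lf (nat_lit 604335) (.g (nat_lit 3100) (.e (nat_lit 761899) (nat_lit 15) (.e (nat_lit 163979) (nat_lit 30) (.e (nat_lit 573489) (nat_lit 14) (.e (nat_lit 73755) (nat_lit 8) (.e (nat_lit 557098) (nat_lit 13) (.e (nat_lit 172066) (nat_lit 3) (.e (nat_lit 204817) (nat_lit 17) (.e (nat_lit 7936) (nat_lit 149) .nil)))))))) (.g (nat_lit 1) (.e (nat_lit 429113) (nat_lit 0) .nil) .nil))) 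
(.lf (nat_lit 604847) (.g (nat_lit 4354) (.e (nat_lit 778318) (nat_lit 3) (.e (nat_lit 57476) (nat_lit 28) (.e (nat_lit 557108) (nat_lit 15) (.e (nat_lit 188452) (nat_lit 23) (.e (nat_lit 204852) (nat_lit 26) (.e (nat_lit 336257) (nat_lit 15) (.e (nat_lit 3623) (nat_lit 227) .nil))))))) (.g (nat_lit 1) (.e (nat_lit 431465) (nat_lit 0) .nil) .nil)))) (.nd (nat_lit 9) 
(.lf (nat_lit 604591) (.g (nat_lit 1356) (.e (nat_lit 770072) (nat_lit 8) (.e (nat_lit 65619) (nat_lit 10) (.e (nat_lit 344097) (nat_lit 18) (.e (nat_lit 7147) (nat_lit 382) (.e (nat_lit 1204) (nat_lit 88) .nil))))) (.g (nat_lit 0) (.e (nat_lit 431058) (nat_lit 0) .nil) .nil))) 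
(.lf (nat_lit 605103) (.g (nat_lit 1176) (.e (nat_lit 778324) (nat_lit 5) (.e (nat_lit 73781) (nat_lit 32) (.e (nat_lit 2856) (nat_lit 184) (.e (nat_lit 426482) (nat_lit 27) .nil)))) (.g (nat_lit 0) (.e (nat_lit 431741) (nat_lit 0) .nil) .nil)))))) (.nd (nat_lit 7) (.nd (nat_lit 8) (.nd (nat_lit 9) 
(.lf (nat_lit 604271) (.g (nat_lit 3453) (.e (nat_lit 761899) (nat_lit 15) (.e (nat_lit 163978) (nat_lit 30) (.e (nat_lit 573489) (nat_lit 14) (.e (nat_lit 73754) (nat_lit 8) (.e (nat_lit 557100) (nat_lit 13) (.e (nat_lit 172067) (nat_lit 3) (.e (nat_lit 204817) (nat_lit 17) (.e (nat_lit 7936) (nat_lit 149) .nil)))))))) (.g (nat_lit 1) (.e (nat_lit 428999) (nat_lit 0) .nil) .nil))) 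
(.lf (nat_lit 604783) (.g (nat_lit 2259) (.e (nat_lit 778318) (nat_lit 3) (.e (nat_lit 57476) (nat_lit 28) (.e (nat_lit 557107) (nat_lit 15) (.e (nat_lit 188450) (nat_lit 23) (.e (nat_lit 204852) (nat_lit 26) (.e (nat_lit 336257) (nat_lit 15) (.e (nat_lit 7936) (nat_lit 227) .nil))))))) (.g (nat_lit 1) (.e (nat_lit 431401) (nat_lit 0) .nil) .nil)))) (.nd (nat_lit 9) 
(.lf (nat_lit 604527) (.g (nat_lit 1299) (.e (nat_lit 770072) (nat_lit 8) (.e (nat_lit 65583) (nat_lit 7) (.e (nat_lit 319531) (nat_lit 16) (.e (nat_lit 286756) (nat_lit 10) .nil)))) (.g (nat_lit 0) (.e (nat_lit 430991) (nat_lit 0) .nil) .nil))) 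
(.lf (nat_lit 605039) (.g (nat_lit 2464) (.e (nat_lit 778323) (nat_lit 5) (.e (nat_lit 73781) (nat_lit 32) (.e (nat_lit 3090) (nat_lit 191) (.e (nat_lit 483383) (nat_lit 23) (.e (nat_lit 336240) (nat_lit 15) .nil))))) (.g (nat_lit 0) (.e (nat_lit 431673) (nat_lit 0) .nil) .nil))))) (.nd (nat_lit 8) (.nd (nat_lit 9) 
(.lf (nat_lit 604399) (.g (nat_lit 1862) (.e (nat_lit 770071) (nat_lit 8) (.e (nat_lit 65583) (nat_lit 7) (.e (nat_lit 319530) (nat_lit 16) (.e (nat_lit 286748) (nat_lit 9) (.e (nat_lit 336031) (nat_lit 4) .nil))))) (.g (nat_lit 0) (.e (nat_lit 430853) (nat_lit 0) .nil) .nil))) 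
(.lf (nat_lit 604911) (.g (nat_lit 2518) (.e (nat_lit 786176) (nat_lit 3) (.e (nat_lit 57480) (nat_lit 28) (.e (nat_lit 557108) (nat_lit 15) (.e (nat_lit 188452) (nat_lit 23) (.e (nat_lit 204881) (nat_lit 32) .nil))))) (.g (nat_lit 0) (.e (nat_lit 431532) (nat_lit 0) .nil) .nil)))) (.nd (nat_lit 9) 
(.lf (nat_lit 604655) (.g (nat_lit 548) (.e (nat_lit 778316) (nat_lit 3) (.e (nat_lit 57478) (nat_lit 28) (.e (nat_lit 557107) (nat_lit 15) .nil))) (.g (nat_lit 0) (.e (nat_lit 431250) (nat_lit 0) .nil) .nil))) 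
(.lf (nat_lit 605167) (.g (nat_lit 2549) (.e (nat_lit 786176) (nat_lit 5) (.e (nat_lit 73782) (nat_lit 32) (.e (nat_lit 3090) (nat_lit 191) (.e (nat_lit 483403) (nat_lit 26) (.e (nat_lit 392960) (nat_lit 49) .nil))))) (.g (nat_lit 0) (.e (nat_lit 431805) (nat_lit 0) .nil) .nil)))))))) (.nd (nat_lit 5) (.nd (nat_lit 6) (.nd (nat_lit 7) (.nd (nat_lit 8) (.nd (nat_lit 9) 
(.lf (nat_lit 604191) (.g (nat_lit 2611) (.e (nat_lit 761898) (nat_lit 15) (.e (nat_lit 163979) (nat_lit 30) (.e (nat_lit 573489) (nat_lit 14) (.e (nat_lit 73755) (nat_lit 8) (.e (nat_lit 557096) (nat_lit 13) .nil))))) (.g (nat_lit 0) (.e (nat_lit 428774) (nat_lit 0) .nil) .nil))) 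
(.lf (nat_lit 604703) (.g (nat_lit 3164) (.e (nat_lit 778317) (nat_lit 3) (.e (nat_lit 57480) (nat_lit 28) (.e (nat_lit 557067) (nat_lit 9) (.e (nat_lit 3022) (nat_lit 187) (.e (nat_lit 450578) (nat_lit 5) (.e (nat_lit 532566) (nat_lit 15) (.e (nat_lit 385093) (nat_lit 49) .nil))))))) (.g (nat_lit 1) (.e (nat_lit 431300) (nat_lit 0) .nil) .nil)))) (.nd (nat_lit 9) 
(.lf (nat_lit 604447) (.g (nat_lit 1563) (.e (nat_lit 770071) (nat_lit 8) (.e (nat_lit 65619) (nat_lit 10) (.e (nat_lit 344097) (nat_lit 18) (.e (nat_lit 7147) (nat_lit 382) (.e (nat_lit 1204) (nat_lit 88) .nil))))) (.g (nat_lit 0) (.e (nat_lit 430907) (nat_lit 0) .nil) .nil))) 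
(.lf (nat_lit 604959) (.g (nat_lit 2587) (.e (nat_lit 778321) (nat_lit 4) (.e (nat_lit 65628) (nat_lit 14) (.e (nat_lit 401437) (nat_lit 9) (.e (nat_lit 426482) (nat_lit 27) (.e (nat_lit 336205) (nat_lit 12) .nil))))) (.g (nat_lit 0) (.e (nat_lit 431583) (nat_lit 0) .nil) .nil))))) (.nd (nat_lit 8) (.nd (nat_lit 9) 
(.lf (nat_lit 604319) (.g (nat_lit 2591) (.e (nat_lit 761899) (nat_lit 15) (.e (nat_lit 163979) (nat_lit 30) (.e (nat_lit 573489) (nat_lit 14) (.e (nat_lit 73754) (nat_lit 8) (.e (nat_lit 557101) (nat_lit 13) (.e (nat_lit 172066) (nat_lit 3) (.e (nat_lit 204817) (nat_lit 17) (.e (nat_lit 2272) (nat_lit 149) .nil)))))))) (.g (nat_lit 1) (.e (nat_lit 429092) (nat_lit 0) .nil) .nil))) 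
(.lf (nat_lit 604831) (.g (nat_lit 2904) (.e (nat_lit 778318) (nat_lit 3) (.e (nat_lit 57476) (nat_lit 28) (.e (nat_lit 557108) (nat_lit 15) (.e (nat_lit 188452) (nat_lit 23) (.e (nat_lit 204851) (nat_lit 26) (.e (nat_lit 336285) (nat_lit 15) (.e (nat_lit 3629) (nat_lit 227) .nil))))))) (.g (nat_lit 1) (.e (nat_lit 431449) (nat_lit 0) .nil) .nil)))) (.nd (nat_lit 9) 
(.lf (nat_lit 604575) (.g (nat_lit 1652) (.e (nat_lit 770072) (nat_lit 8) (.e (nat_lit 65610) (nat_lit 10) (.e (nat_lit 344097) (nat_lit 18) (.e (nat_lit 7145) (nat_lit 382) (.e (nat_lit 1204) (nat_lit 88) .nil))))) (.g (nat_lit 0) (.e (nat_lit 431042) (nat_lit 0) .nil) .nil))) 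
(.lf (nat_lit 605087) (.g (nat_lit 1989) (.e (nat_lit 778323) (nat_lit 5) (.e (nat_lit 73782) (nat_lit 32) (.e (nat_lit 3090) (nat_lit 191) (.e (nat_lit 483380) (nat_lit 23) (.e (nat_lit 336261) (nat_lit 15) (.e (nat_lit 3633) (nat_lit 227) .nil)))))) (.g (nat_lit 1) (.e (nat_lit 431721) (nat_lit 0) .nil) .nil)))))) (.nd (nat_lit 7) (.nd (nat_lit 8) (.nd (nat_lit 9) 
(.lf (nat_lit 604255) (.g (nat_lit 3691) (.e (nat_lit 761899) (nat_lit 15) (.e (nat_lit 163977) (nat_lit 30) (.e (nat_lit 573489) (nat_lit 14) (.e (nat_lit 73755) (nat_lit 8) (.e (nat_lit 557097) (nat_lit 13) (.e (nat_lit 172067) (nat_lit 3) (.e (nat_lit 204816) (nat_lit 17) (.e (nat_lit 2273) (nat_lit 149) .nil)))))))) (.g (nat_lit 1) (.e (nat_lit 428922) (nat_lit 0) .nil) .nil))) 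
(.lf (nat_lit 604767) (.g (nat_lit 3552) (.e (nat_lit 778318) (nat_lit 3) (.e (nat_lit 57476) (nat_lit 28) (.e (nat_lit 557107) (nat_lit 15) (.e (nat_lit 188450) (nat_lit 23) (.e (nat_lit 204852) (nat_lit 26) (.e (nat_lit 336240) (nat_lit 15) (.e (nat_lit 3626) (nat_lit 227) .nil))))))) (.g (nat_lit 1) (.e (nat_lit 431385) (nat_lit 0) .nil) .nil)))) (.nd (nat_lit 9) 
(.lf (nat_lit 604511) (.g (nat_lit 2504) (.e (nat_lit 770072) (nat_lit 8) (.e (nat_lit 65583) (nat_lit 7) (.e (nat_lit 319530) (nat_lit 16) (.e (nat_lit 286759) (nat_lit 12) (.e (nat_lit 385045) (nat_lit 21) .nil))))) (.g (nat_lit 0) (.e (nat_lit 430975) (nat_lit 0) .nil) .nil))) 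
(.lf (nat_lit 605023) (.g (nat_lit 1724) (.e (nat_lit 778323) (nat_lit 5) (.e (nat_lit 73781) (nat_lit 32) (.e (nat_lit 3090) (nat_lit 191) (.e (nat_lit 483380) (nat_lit 23) (.e (nat_lit 336258) (nat_lit 15) .nil))))) (.g (nat_lit 0) (.e (nat_lit 431657) (nat_lit 0) .nil) .nil))))) (.nd (nat_lit 8) (.nd (nat_lit 9) 
(.lf (nat_lit 604383) (.g (nat_lit 2847) (.e (nat_lit 770071) (nat_lit 8) (.e (nat_lit 65568) (nat_lit 2) (.e (nat_lit 90170) (nat_lit 13) (.e (nat_lit 172113) (nat_lit 10) (.e (nat_lit 434243) (nat_lit 28) (.e (nat_lit 573474) (nat_lit 12) (.e (nat_lit 57572) (nat_lit 54) .nil))))))) (.g (nat_lit 1) (.e (nat_lit 430836) (nat_lit 0) .nil) .nil))) 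
(.lf (nat_lit 604895) (.g (nat_lit 2410) (.e (nat_lit 786176) (nat_lit 3) (.e (nat_lit 57476) (nat_lit 28) (.e (nat_lit 557108) (nat_lit 15) (.e (nat_lit 188452) (nat_lit 23) (.e (nat_lit 204852) (nat_lit 26) .nil))))) (.g (nat_lit 0) (.e (nat_lit 431515) (nat_lit 0) .nil) .nil)))) (.nd (nat_lit 9) 
(.lf (nat_lit 604639) (.g (nat_lit 2271) (.e (nat_lit 778273) (nat_lit 0) (.e (nat_lit 1656) (nat_lit 115) (.e (nat_lit 393251) (nat_lit 18) (.e (nat_lit 164406) (nat_lit 258) (.e (nat_lit 163874) (nat_lit 3) .nil))))) (.g (nat_lit 0) (.e (nat_lit 431226) (nat_lit 0) .nil) .nil))) 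
(.lf (nat_lit 605151) (.g (nat_lit 1201) (.e (nat_lit 778324) (nat_lit 5) (.e (nat_lit 73781) (nat_lit 32) (.e (nat_lit 3090) (nat_lit 191) (.e (nat_lit 483386) (nat_lit 23) .nil)))) (.g (nat_lit 0) (.e (nat_lit 431789) (nat_lit 0) .nil) .nil))))))) (.nd (nat_lit 6) (.nd (nat_lit 7) (.nd (nat_lit 8) (.nd (nat_lit 9) 
(.lf (nat_lit 604223) (.g (nat_lit 2425) (.e (nat_lit 761898) (nat_lit 15) (.e (nat_lit 163979) (nat_lit 30) (.e (nat_lit 573489) (nat_lit 14) (.e (nat_lit 73755) (nat_lit 8) (.e (nat_lit 557104) (nat_lit 14) (.e (nat_lit 180242) (nat_lit 5) (.e (nat_lit 532483) (nat_lit 0) (.e (nat_lit 7936) (nat_lit 149) .nil)))))))) (.g (nat_lit 1) (.e (nat_lit 428812) (nat_lit 0) .nil) .nil))) 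
(.lf (nat_lit 604735) (.g (nat_lit 3814) (.e (nat_lit 778318) (nat_lit 3) (.e (nat_lit 57476) (nat_lit 28) (.e (nat_lit 557097) (nat_lit 13) (.e (nat_lit 172115) (nat_lit 10) (.e (nat_lit 434231) (nat_lit 23) (.e (nat_lit 532528) (nat_lit 9) (.e (nat_lit 336306) (nat_lit 15) (.e (nat_lit 3618) (nat_lit 227) .nil)))))))) (.g (nat_lit 1) (.e (nat_lit 431351) (nat_lit 0) .nil) .nil)))) 
(.nd (nat_lit 9) 
(.lf (nat_lit 604479) (.g (nat_lit 2653) (.e (nat_lit 770072) (nat_lit 8) (.e (nat_lit 65570) (nat_lit 3) (.e (nat_lit 98373) (nat_lit 29) (.e (nat_lit 450588) (nat_lit 10) (.e (nat_lit 573475) (nat_lit 12) .nil))))) (.g (nat_lit 0) (.e (nat_lit 430943) (nat_lit 0) .nil) .nil))) 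
(.lf (nat_lit 604991) (.g (nat_lit 1728) (.e (nat_lit 778323) (nat_lit 5) (.e (nat_lit 73781) (nat_lit 32) (.e (nat_lit 2856) (nat_lit 184) (.e (nat_lit 426489) (nat_lit 27) .nil)))) (.g (nat_lit 0) (.e (nat_lit 431625) (nat_lit 0) .nil) .nil))))) (.nd (nat_lit 8) (.nd (nat_lit 9) 
(.lf (nat_lit 604351) (.g (nat_lit 2399) (.e (nat_lit 761899) (nat_lit 15) (.e (nat_lit 163979) (nat_lit 30) (.e (nat_lit 573489) (nat_lit 14) (.e (nat_lit 73755) (nat_lit 8) (.e (nat_lit 557104) (nat_lit 14) (.e (nat_lit 180244) (nat_lit 5) (.e (nat_lit 532485) (nat_lit 0) (.e (nat_lit 2271) (nat_lit 149) .nil)))))))) (.g (nat_lit 1) (.e (nat_lit 429130) (nat_lit 0) .nil) .nil))) 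
(.lf (nat_lit 604863) (.g (nat_lit 4097) (.e (nat_lit 778318) (nat_lit 3) (.e (nat_lit 57476) (nat_lit 28) (.e (nat_lit 557108) (nat_lit 15) (.e (nat_lit 188452) (nat_lit 23) (.e (nat_lit 204852) (nat_lit 26) (.e (nat_lit 336261) (nat_lit 15) (.e (nat_lit 3629) (nat_lit 227) .nil))))))) (.g (nat_lit 1) (.e (nat_lit 431481) (nat_lit 0) .nil) .nil)))) (.nd (nat_lit 9) 
(.lf (nat_lit 604607) (.g (nat_lit 3099) (.e (nat_lit 770072) (nat_lit 8) (.e (nat_lit 65629) (nat_lit 14) (.e (nat_lit 401454) (nat_lit 12) (.e (nat_lit 475213) (nat_lit 42) .nil)))) (.g (nat_lit 0) (.e (nat_lit 431075) (nat_lit 0) .nil) .nil))) 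
(.lf (nat_lit 605119) (.g (nat_lit 1342) (.e (nat_lit 778324) (nat_lit 5) (.e (nat_lit 73781) (nat_lit 32) (.e (nat_lit 3089) (nat_lit 191) (.e (nat_lit 483393) (nat_lit 23) (.e (nat_lit 336291) (nat_lit 15) .nil))))) (.g (nat_lit 0) (.e (nat_lit 431757) (nat_lit 0) .nil) .nil)))))) (.nd (nat_lit 7) (.nd (nat_lit 8) (.nd (nat_lit 9) 
(.lf (nat_lit 604287) (.g (nat_lit 4384) (.e (nat_lit 761899) (nat_lit 15) (.e (nat_lit 163978) (nat_lit 30) (.e (nat_lit 573489) (nat_lit 14) (.e (nat_lit 73755) (nat_lit 8) (.e (nat_lit 557098) (nat_lit 13) (.e (nat_lit 172065) (nat_lit 3) (.e (nat_lit 204821) (nat_lit 17) (.e (nat_lit 2270) (nat_lit 149) .nil)))))))) (.g (nat_lit 1) (.e (nat_lit 429019) (nat_lit 0) .nil) .nil))) 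
(.lf (nat_lit 604799) (.g (nat_lit 2099) (.e (nat_lit 778318) (nat_lit 3) (.e (nat_lit 57476) (nat_lit 28) (.e (nat_lit 557107) (nat_lit 15) (.e (nat_lit 188450) (nat_lit 23) (.e (nat_lit 204852) (nat_lit 26) (.e (nat_lit 336260) (nat_lit 15) (.e (nat_lit 3622) (nat_lit 227) .nil))))))) (.g (nat_lit 1) (.e (nat_lit 431417) (nat_lit 0) .nil) .nil)))) (.nd (nat_lit 9) 
(.lf (nat_lit 604543) (.g (nat_lit 2838) (.e (nat_lit 770072) (nat_lit 8) (.e (nat_lit 65586) (nat_lit 7) (.e (nat_lit 319531) (nat_lit 16) (.e (nat_lit 286748) (nat_lit 9) (.e (nat_lit 336295) (nat_lit 15) (.e (nat_lit 3806) (nat_lit 231) (.e (nat_lit 811034) (nat_lit 11) (.e (nat_lit 7936) (nat_lit 74) .nil)))))))) (.g (nat_lit 1) (.e (nat_lit 431007) (nat_lit 0) .nil) .nil))) 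
(.lf (nat_lit 605055) (.g (nat_lit 1521) (.e (nat_lit 778323) (nat_lit 5) (.e (nat_lit 73782) (nat_lit 32) (.e (nat_lit 2856) (nat_lit 184) (.e (nat_lit 426538) (nat_lit 29) .nil)))) (.g (nat_lit 0) (.e (nat_lit 431689) (nat_lit 0) .nil) .nil))))) (.nd (nat_lit 8) (.nd (nat_lit 9) 
(.lf (nat_lit 604415) (.g (nat_lit 1870) (.e (nat_lit 770071) (nat_lit 8) (.e (nat_lit 65586) (nat_lit 7) (.e (nat_lit 319531) (nat_lit 16) (.e (nat_lit 286748) (nat_lit 9) (.e (nat_lit 336295) (nat_lit 15) (.e (nat_lit 3757) (nat_lit 229) (.e (nat_lit 794646) (nat_lit 20) (.e (nat_lit 3610) (nat_lit 226) .nil)))))))) (.g (nat_lit 1) (.e (nat_lit 430869) (nat_lit 0) .nil) .nil))) 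
(.lf (nat_lit 604927) (.g (nat_lit 1894) (.e (nat_lit 778320) (nat_lit 4) (.e (nat_lit 65628) (nat_lit 14) (.e (nat_lit 401437) (nat_lit 9) (.e (nat_lit 426482) (nat_lit 27) .nil)))) (.g (nat_lit 0) (.e (nat_lit 431551) (nat_lit 0) .nil) .nil)))) (.nd (nat_lit 9) 
(.lf (nat_lit 604671) (.g (nat_lit 2882) (.e (nat_lit 778316) (nat_lit 3) (.e (nat_lit 57480) (nat_lit 28) (.e (nat_lit 557107) (nat_lit 15) (.e (nat_lit 188450) (nat_lit 23) (.e (nat_lit 204855) (nat_lit 26) (.e (nat_lit 336290) (nat_lit 15) (.e (nat_lit 3715) (nat_lit 227) .nil))))))) (.g (nat_lit 1) (.e (nat_lit 431266) (nat_lit 0) .nil) .nil))) 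
(.lf (nat_lit 605183) (.g (nat_lit 1706) (.e (nat_lit 778325) (nat_lit 6) (.e (nat_lit 81948) (nat_lit 21) (.e (nat_lit 57854) (nat_lit 252) (.e (nat_lit 57388) (nat_lit 5) (.e (nat_lit 122624) (nat_lit 17) .nil))))) (.g (nat_lit 0) (.e (nat_lit 431821) (nat_lit 0) .nil) .nil)))))))))))))

noncomputable def tv5651 : DT := (.nd (nat_lit 0) (.nd (nat_lit 1) (.nd (nat_lit 2) (.nd (nat_lit 3) (.nd (nat_lit 4) (.nd (nat_lit 5) (.nd (nat_lit 6) (.nd (nat_lit 7) (.nd (nat_lit 8) (.nd (nat_lit 9) 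
(.lf (nat_lit 605184) (.g (nat_lit 1977) (.e (nat_lit 778325) (nat_lit 6) (.e (nat_lit 81948) (nat_lit 21) (.e (nat_lit 57854) (nat_lit 252) (.e (nat_lit 57389) (nat_lit 5) (.e (nat_lit 122624) (nat_lit 17) .nil))))) (.g (nat_lit 0) (.e (nat_lit 431822) (nat_lit 0) .nil) .nil))) 
(.lf (nat_lit 605696) (.g (nat_lit 879) (.e (nat_lit 778463) (nat_lit 11) (.e (nat_lit 24630) (nat_lit 9) (.e (nat_lit 336438) (nat_lit 31) (.e (nat_lit 466688) (nat_lit 5) .nil)))) (.g (nat_lit 0) (.e (nat_lit 432581) (nat_lit 0) .nil) .nil)))) (.nd (nat_lit 9) 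
(.lf (nat_lit 605440) (.g (nat_lit 3486) (.e (nat_lit 778462) (nat_lit 11) (.e (nat_lit 24605) (nat_lit 2) (.e (nat_lit 90170) (nat_lit 13) (.e (nat_lit 172113) (nat_lit 10) (.e (nat_lit 434248) (nat_lit 28) (.e (nat_lit 573475) (nat_lit 12) (.e (nat_lit 65280) (nat_lit 55) .nil))))))) (.g (nat_lit 1) (.e (nat_lit 432242) (nat_lit 0) .nil) .nil))) 
(.lf (nat_lit 605952) (.g (nat_lit 1712) (.e (nat_lit 778466) (nat_lit 11) (.e (nat_lit 24604) (nat_lit 2) (.e (nat_lit 90167) (nat_lit 13) (.e (nat_lit 172108) (nat_lit 10) .nil)))) (.g (nat_lit 0) (.e (nat_lit 432921) (nat_lit 0) .nil) .nil))))) (.nd (nat_lit 8) (.nd (nat_lit 9) 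
(.lf (nat_lit 605312) (.g (nat_lit 1051) (.e (nat_lit 778459) (nat_lit 11) (.e (nat_lit 24660) (nat_lit 13) (.e (nat_lit 393260) (nat_lit 21) (.e (nat_lit 417536) (nat_lit 16) .nil)))) (.g (nat_lit 0) (.e (nat_lit 432097) (nat_lit 0) .nil) .nil))) 
(.lf (nat_lit 605824) (.g (nat_lit 3105) (.e (nat_lit 778464) (nat_lit 11) (.e (nat_lit 24617) (nat_lit 7) (.e (nat_lit 319534) (nat_lit 16) (.e (nat_lit 286756) (nat_lit 10) (.e (nat_lit 344160) (nat_lit 37) (.e (nat_lit 647201) (nat_lit 12) (.e (nat_lit 65280) (nat_lit 55) .nil))))))) (.g (nat_lit 1) (.e (nat_lit 432733) (nat_lit 0) .nil) .nil)))) (.nd (nat_lit 9) 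
(.lf (nat_lit 605568) (.g (nat_lit 2149) (.e (nat_lit 778462) (nat_lit 11) (.e (nat_lit 24628) (nat_lit 9) (.e (nat_lit 336443) (nat_lit 32) (.e (nat_lit 466969) (nat_lit 21) (.e (nat_lit 164332) (nat_lit 230) (.e (nat_lit 163850) (nat_lit 0) (.e (nat_lit 3617) (nat_lit 227) .nil))))))) (.g (nat_lit 1) (.e (nat_lit 432414) (nat_lit 0) .nil) .nil))) 
(.lf (nat_lit 606080) (.g (nat_lit 3277) (.e (nat_lit 778466) (nat_lit 11) (.e (nat_lit 24617) (nat_lit 7) (.e (nat_lit 319533) (nat_lit 16) (.e (nat_lit 286753) (nat_lit 10) (.e (nat_lit 344160) (nat_lit 37) (.e (nat_lit 647203) (nat_lit 14) (.e (nat_lit 2508) (nat_lit 157) (.e (nat_lit 879) (nat_lit 75) .nil)))))))) (.g (nat_lit 1) (.e (nat_lit 433081) (nat_lit 0) .nil) .nil)))))) 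
(.nd (nat_lit 7) (.nd (nat_lit 8) (.nd (nat_lit 9) 
(.lf (nat_lit 605248) (.g (nat_lit 682) (.e (nat_lit 786176) (nat_lit 6) (.e (nat_lit 81947) (nat_lit 20) (.e (nat_lit 1886) (nat_lit 127) (.e (nat_lit 581652) (nat_lit 5) (.e (nat_lit 180291) (nat_lit 48) .nil))))) (.g (nat_lit 0) (.e (nat_lit 431916) (nat_lit 0) .nil) .nil))) 
(.lf (nat_lit 605760) (.g (nat_lit 1186) (.e (nat_lit 778464) (nat_lit 11) (.e (nat_lit 24617) (nat_lit 7) (.e (nat_lit 319532) (nat_lit 16) (.e (nat_lit 286759) (nat_lit 12) .nil)))) (.g (nat_lit 0) (.e (nat_lit 432662) (nat_lit 0) .nil) .nil)))) (.nd (nat_lit 9) 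
(.lf (nat_lit 605504) (.g (nat_lit 2494) (.e (nat_lit 778462) (nat_lit 11) (.e (nat_lit 24608) (nat_lit 3) (.e (nat_lit 98372) (nat_lit 29) (.e (nat_lit 450586) (nat_lit 10) (.e (nat_lit 573478) (nat_lit 12) (.e (nat_lit 65280) (nat_lit 55) .nil)))))) (.g (nat_lit 1) (.e (nat_lit 432317) (nat_lit 0) .nil) .nil))) 
(.lf (nat_lit 606016) (.g (nat_lit 1659) (.e (nat_lit 778466) (nat_lit 11) (.e (nat_lit 24617) (nat_lit 7) (.e (nat_lit 319528) (nat_lit 16) (.e (nat_lit 286759) (nat_lit 12) (.e (nat_lit 385113) (nat_lit 53) .nil))))) (.g (nat_lit 0) (.e (nat_lit 433002) (nat_lit 0) .nil) .nil))))) (.nd (nat_lit 8) (.nd (nat_lit 9) 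
(.lf (nat_lit 605376) (.g (nat_lit 2311) (.e (nat_lit 778461) (nat_lit 11) (.e (nat_lit 24655) (nat_lit 13) (.e (nat_lit 393299) (nat_lit 27) (.e (nat_lit 491558) (nat_lit 10) (.e (nat_lit 352000) (nat_lit 44) .nil))))) (.g (nat_lit 0) (.e (nat_lit 432175) (nat_lit 0) .nil) .nil))) 
(.lf (nat_lit 605888) (.g (nat_lit 2018) (.e (nat_lit 778465) (nat_lit 11) (.e (nat_lit 24617) (nat_lit 7) (.e (nat_lit 319530) (nat_lit 16) (.e (nat_lit 286759) (nat_lit 12) (.e (nat_lit 385115) (nat_lit 53) .nil))))) (.g (nat_lit 0) (.e (nat_lit 432826) (nat_lit 0) .nil) .nil)))) (.nd (nat_lit 9) 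
(.lf (nat_lit 605632) (.g (nat_lit 2020) (.e (nat_lit 778462) (nat_lit 11) (.e (nat_lit 24658) (nat_lit 13) (.e (nat_lit 393281) (nat_lit 23) (.e (nat_lit 426099) (nat_lit 1) (.e (nat_lit 164330) (nat_lit 230) (.e (nat_lit 163857) (nat_lit 0) (.e (nat_lit 3666) (nat_lit 227) .nil))))))) (.g (nat_lit 1) (.e (nat_lit 432510) (nat_lit 0) .nil) .nil))) 
(.lf (nat_lit 606144) (.g (nat_lit 3304) (.e (nat_lit 778466) (nat_lit 11) (.e (nat_lit 24617) (nat_lit 7) (.e (nat_lit 319534) (nat_lit 16) (.e (nat_lit 286756) (nat_lit 10) (.e (nat_lit 344160) (nat_lit 37) (.e (nat_lit 647196) (nat_lit 9) (.e (nat_lit 991) (nat_lit 81) (.e (nat_lit 2314) (nat_lit 151) .nil)))))))) (.g (nat_lit 1) (.e (nat_lit 433174) (nat_lit 0) .nil) .nil))))))) 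
(.nd (nat_lit 6) (.nd (nat_lit 7) (.nd (nat_lit 8) (.nd (nat_lit 9) 
(.lf (nat_lit 605216) (.g (nat_lit 2165) (.e (nat_lit 778326) (nat_lit 6) (.e (nat_lit 81957) (nat_lit 24) (.e (nat_lit 123195) (nat_lit 266) (.e (nat_lit 57436) (nat_lit 17) (.e (nat_lit 376835) (nat_lit 0) .nil))))) (.g (nat_lit 0) (.e (nat_lit 431864) (nat_lit 0) .nil) .nil))) 
(.lf (nat_lit 605728) (.g (nat_lit 1569) (.e (nat_lit 778464) (nat_lit 11) (.e (nat_lit 24616) (nat_lit 7) (.e (nat_lit 319530) (nat_lit 16) (.e (nat_lit 286759) (nat_lit 12) (.e (nat_lit 385107) (nat_lit 51) .nil))))) (.g (nat_lit 0) (.e (nat_lit 432626) (nat_lit 0) .nil) .nil)))) (.nd (nat_lit 9) 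
(.lf (nat_lit 605472) (.g (nat_lit 2259) (.e (nat_lit 778462) (nat_lit 11) (.e (nat_lit 24608) (nat_lit 3) (.e (nat_lit 98365) (nat_lit 26) (.e (nat_lit 426188) (nat_lit 9) (.e (nat_lit 426436) (nat_lit 18) (.e (nat_lit 98321) (nat_lit 17) (.e (nat_lit 3656) (nat_lit 227) .nil))))))) (.g (nat_lit 1) (.e (nat_lit 432283) (nat_lit 0) .nil) .nil))) 
(.lf (nat_lit 605984) (.g (nat_lit 2488) (.e (nat_lit 778466) (nat_lit 11) (.e (nat_lit 24608) (nat_lit 3) (.e (nat_lit 98365) (nat_lit 26) (.e (nat_lit 426188) (nat_lit 9) (.e (nat_lit 426436) (nat_lit 18) (.e (nat_lit 98325) (nat_lit 17) (.e (nat_lit 3719) (nat_lit 227) .nil))))))) (.g (nat_lit 1) (.e (nat_lit 432963) (nat_lit 0) .nil) .nil))))) (.nd (nat_lit 8) (.nd (nat_lit 9) 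
(.lf (nat_lit 605344) (.g (nat_lit 1679) (.e (nat_lit 778460) (nat_lit 11) (.e (nat_lit 24628) (nat_lit 9) (.e (nat_lit 336443) (nat_lit 32) (.e (nat_lit 466972) (nat_lit 21) .nil)))) (.g (nat_lit 0) (.e (nat_lit 432131) (nat_lit 0) .nil) .nil))) 
(.lf (nat_lit 605856) (.g (nat_lit 3073) (.e (nat_lit 778465) (nat_lit 11) (.e (nat_lit 24604) (nat_lit 2) (.e (nat_lit 90170) (nat_lit 13) (.e (nat_lit 172106) (nat_lit 10) (.e (nat_lit 434246) (nat_lit 28) .nil))))) (.g (nat_lit 0) (.e (nat_lit 432793) (nat_lit 0) .nil) .nil)))) (.nd (nat_lit 9) 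
(.lf (nat_lit 605600) (.g (nat_lit 2270) (.e (nat_lit 778462) (nat_lit 11) (.e (nat_lit 24628) (nat_lit 9) (.e (nat_lit 336443) (nat_lit 32) (.e (nat_lit 466972) (nat_lit 21) (.e (nat_lit 164332) (nat_lit 230) (.e (nat_lit 163847) (nat_lit 0) (.e (nat_lit 3669) (nat_lit 227) .nil))))))) (.g (nat_lit 1) (.e (nat_lit 432450) (nat_lit 0) .nil) .nil))) 
(.lf (nat_lit 606112) (.g (nat_lit 2610) (.e (nat_lit 778466) (nat_lit 11) (.e (nat_lit 24617) (nat_lit 7) (.e (nat_lit 319534) (nat_lit 16) (.e (nat_lit 286756) (nat_lit 10) (.e (nat_lit 344169) (nat_lit 40) (.e (nat_lit 671782) (nat_lit 12) (.e (nat_lit 164050) (nat_lit 55) .nil))))))) (.g (nat_lit 1) (.e (nat_lit 433142) (nat_lit 0) .nil) .nil)))))) 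
(.nd (nat_lit 7) (.nd (nat_lit 8) (.nd (nat_lit 9) 
(.lf (nat_lit 605280) (.g (nat_lit 2459) (.e (nat_lit 778459) (nat_lit 11) (.e (nat_lit 24604) (nat_lit 2) (.e (nat_lit 90170) (nat_lit 13) (.e (nat_lit 172106) (nat_lit 10) (.e (nat_lit 434244) (nat_lit 28) .nil))))) (.g (nat_lit 0) (.e (nat_lit 432055) (nat_lit 0) .nil) .nil))) 
(.lf (nat_lit 605792) (.g (nat_lit 2256) (.e (nat_lit 778464) (nat_lit 11) (.e (nat_lit 24617) (nat_lit 7) (.e (nat_lit 319533) (nat_lit 16) (.e (nat_lit 286759) (nat_lit 12) (.e (nat_lit 385115) (nat_lit 53) (.e (nat_lit 811033) (nat_lit 11) (.e (nat_lit 880) (nat_lit 75) .nil))))))) (.g (nat_lit 1) (.e (nat_lit 432698) (nat_lit 0) .nil) .nil)))) (.nd (nat_lit 9) 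
(.lf (nat_lit 605536) (.g (nat_lit 375) (.e (nat_lit 778462) (nat_lit 11) (.e (nat_lit 24628) (nat_lit 9) (.e (nat_lit 336443) (nat_lit 32) .nil))) (.g (nat_lit 0) (.e (nat_lit 432379) (nat_lit 0) .nil) .nil))) 
(.lf (nat_lit 606048) (.g (nat_lit 2090) (.e (nat_lit 778466) (nat_lit 11) (.e (nat_lit 24617) (nat_lit 7) (.e (nat_lit 319533) (nat_lit 16) (.e (nat_lit 286753) (nat_lit 10) (.e (nat_lit 344169) (nat_lit 40) .nil))))) (.g (nat_lit 0) (.e (nat_lit 433049) (nat_lit 0) .nil) .nil))))) (.nd (nat_lit 8) (.nd (nat_lit 9) 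
(.lf (nat_lit 605408) (.g (nat_lit 2785) (.e (nat_lit 778462) (nat_lit 11) (.e (nat_lit 24604) (nat_lit 2) (.e (nat_lit 90185) (nat_lit 17) (.e (nat_lit 237601) (nat_lit 9) (.e (nat_lit 426436) (nat_lit 18) (.e (nat_lit 98321) (nat_lit 17) (.e (nat_lit 3651) (nat_lit 227) .nil))))))) (.g (nat_lit 1) (.e (nat_lit 432210) (nat_lit 0) .nil) .nil))) 
(.lf (nat_lit 605920) (.g (nat_lit 2242) (.e (nat_lit 778465) (nat_lit 11) (.e (nat_lit 24617) (nat_lit 7) (.e (nat_lit 319534) (nat_lit 16) (.e (nat_lit 286756) (nat_lit 10) (.e (nat_lit 344160) (nat_lit 37) (.e (nat_lit 647203) (nat_lit 14) (.e (nat_lit 2508) (nat_lit 157) (.e (nat_lit 879) (nat_lit 75) .nil)))))))) (.g (nat_lit 1) (.e (nat_lit 432858) (nat_lit 0) .nil) .nil)))) 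
(.nd (nat_lit 9) 
(.lf (nat_lit 605664) (.g (nat_lit 1996) (.e (nat_lit 778462) (nat_lit 11) (.e (nat_lit 24660) (nat_lit 13) (.e (nat_lit 393238) (nat_lit 17) (.e (nat_lit 7107) (nat_lit 380) (.e (nat_lit 164288) (nat_lit 224) (.e (nat_lit 164103) (nat_lit 116) .nil)))))) (.g (nat_lit 1) (.e (nat_lit 432545) (nat_lit 0) .nil) .nil))) 
(.lf (nat_lit 606176) (.g (nat_lit 453) (.e (nat_lit 778466) (nat_lit 11) (.e (nat_lit 24625) (nat_lit 9) (.e (nat_lit 336423) (nat_lit 28) .nil))) (.g (nat_lit 0) (.e (nat_lit 433211) (nat_lit 0) .nil) .nil)))))))) (.nd (nat_lit 5) (.nd (nat_lit 6) (.nd (nat_lit 7) (.nd (nat_lit 8) (.nd (nat_lit 9) 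
(.lf (nat_lit 605200) (.g (nat_lit 1002) (.e (nat_lit 778326) (nat_lit 6) (.e (nat_lit 81935) (nat_lit 20) (.e (nat_lit 1999) (nat_lit 137) (.e (nat_lit 663569) (nat_lit 6) (.e (nat_lit 81922) (nat_lit 0) .nil))))) (.g (nat_lit 0) (.e (nat_lit 431840) (nat_lit 0) .nil) .nil))) 
(.lf (nat_lit 605712) (.g (nat_lit 3195) (.e (nat_lit 778464) (nat_lit 11) (.e (nat_lit 24604) (nat_lit 2) (.e (nat_lit 90170) (nat_lit 13) (.e (nat_lit 172110) (nat_lit 10) .nil)))) (.g (nat_lit 0) (.e (nat_lit 432609) (nat_lit 0) .nil) .nil)))) (.nd (nat_lit 9) 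
(.lf (nat_lit 605456) (.g (nat_lit 2373) (.e (nat_lit 778462) (nat_lit 11) (.e (nat_lit 24608) (nat_lit 3) (.e (nat_lit 98365) (nat_lit 26) (.e (nat_lit 426187) (nat_lit 9) (.e (nat_lit 426436) (nat_lit 18) (.e (nat_lit 98320) (nat_lit 17) (.e (nat_lit 3697) (nat_lit 227) .nil))))))) (.g (nat_lit 1) (.e (nat_lit 432267) (nat_lit 0) .nil) .nil))) 
(.lf (nat_lit 605968) (.g (nat_lit 5646) (.e (nat_lit 778466) (nat_lit 11) (.e (nat_lit 24604) (nat_lit 2) (.e (nat_lit 90178) (nat_lit 15) (.e (nat_lit 188440) (nat_lit 20) (.e (nat_lit 3307) (nat_lit 202) (.e (nat_lit 573477) (nat_lit 12) (.e (nat_lit 57575) (nat_lit 55) .nil))))))) (.g (nat_lit 1) (.e (nat_lit 432937) (nat_lit 0) .nil) .nil))))) (.nd (nat_lit 8) (.nd (nat_lit 9) 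
(.lf (nat_lit 605328) (.g (nat_lit 1557) (.e (nat_lit 778460) (nat_lit 11) (.e (nat_lit 24617) (nat_lit 7) (.e (nat_lit 319534) (nat_lit 16) (.e (nat_lit 286756) (nat_lit 10) .nil)))) (.g (nat_lit 0) (.e (nat_lit 432113) (nat_lit 0) .nil) .nil))) 
(.lf (nat_lit 605840) (.g (nat_lit 659) (.e (nat_lit 778464) (nat_lit 11) (.e (nat_lit 24627) (nat_lit 9) (.e (nat_lit 336414) (nat_lit 27) .nil))) (.g (nat_lit 0) (.e (nat_lit 432751) (nat_lit 0) .nil) .nil)))) (.nd (nat_lit 9) 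
(.lf (nat_lit 605584) (.g (nat_lit 1976) (.e (nat_lit 778462) (nat_lit 11) (.e (nat_lit 24628) (nat_lit 9) (.e (nat_lit 336443) (nat_lit 32) (.e (nat_lit 466972) (nat_lit 21) (.e (nat_lit 164332) (nat_lit 230) (.e (nat_lit 163843) (nat_lit 0) (.e (nat_lit 3650) (nat_lit 227) .nil))))))) (.g (nat_lit 1) (.e (nat_lit 432434) (nat_lit 0) .nil) .nil))) 
(.lf (nat_lit 606096) (.g (nat_lit 3221) (.e (nat_lit 778466) (nat_lit 11) (.e (nat_lit 24617) (nat_lit 7) (.e (nat_lit 319534) (nat_lit 16) (.e (nat_lit 286756) (nat_lit 10) (.e (nat_lit 344168) (nat_lit 40) (.e (nat_lit 671771) (nat_lit 9) (.e (nat_lit 2421) (nat_lit 157) (.e (nat_lit 3722) (nat_lit 227) .nil)))))))) (.g (nat_lit 1) (.e (nat_lit 433126) (nat_lit 0) .nil) .nil)))))) 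
(.nd (nat_lit 7) (.nd (nat_lit 8) (.nd (nat_lit 9) 
(.lf (nat_lit 605264) (.g (nat_lit 2820) (.e (nat_lit 778361) (nat_lit 9) (.e (nat_lit 232) (nat_lit 21) (.e (nat_lit 336013) (nat_lit 2) (.e (nat_lit 90134) (nat_lit 9) (.e (nat_lit 3009) (nat_lit 187) .nil))))) (.g (nat_lit 0) (.e (nat_lit 431976) (nat_lit 0) .nil) .nil))) 
(.lf (nat_lit 605776) (.g (nat_lit 2679) (.e (nat_lit 778464) (nat_lit 11) (.e (nat_lit 24617) (nat_lit 7) (.e (nat_lit 319533) (nat_lit 16) (.e (nat_lit 286753) (nat_lit 10) (.e (nat_lit 344160) (nat_lit 37) (.e (nat_lit 647190) (nat_lit 9) (.e (nat_lit 1016) (nat_lit 81) (.e (nat_lit 2328) (nat_lit 151) .nil)))))))) (.g (nat_lit 1) (.e (nat_lit 432681) (nat_lit 0) .nil) .nil)))) 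
(.nd (nat_lit 9) 
(.lf (nat_lit 605520) (.g (nat_lit 2537) (.e (nat_lit 778462) (nat_lit 11) (.e (nat_lit 24608) (nat_lit 3) (.e (nat_lit 98381) (nat_lit 31) (.e (nat_lit 466967) (nat_lit 20) (.e (nat_lit 3305) (nat_lit 202) (.e (nat_lit 573477) (nat_lit 12) (.e (nat_lit 65280) (nat_lit 55) .nil))))))) (.g (nat_lit 1) (.e (nat_lit 432348) (nat_lit 0) .nil) .nil))) 
(.lf (nat_lit 606032) (.g (nat_lit 3078) (.e (nat_lit 778466) (nat_lit 11) (.e (nat_lit 24617) (nat_lit 7) (.e (nat_lit 319530) (nat_lit 16) (.e (nat_lit 286759) (nat_lit 12) (.e (nat_lit 385115) (nat_lit 53) (.e (nat_lit 811032) (nat_lit 11) (.e (nat_lit 883) (nat_lit 75) .nil))))))) (.g (nat_lit 1) (.e (nat_lit 433028) (nat_lit 0) .nil) .nil))))) (.nd (nat_lit 8) (.nd (nat_lit 9) 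
(.lf (nat_lit 605392) (.g (nat_lit 808) (.e (nat_lit 778462) (nat_lit 11) (.e (nat_lit 24604) (nat_lit 2) (.e (nat_lit 90178) (nat_lit 15) (.e (nat_lit 196352) (nat_lit 2) .nil)))) (.g (nat_lit 0) (.e (nat_lit 432194) (nat_lit 0) .nil) .nil))) 
(.lf (nat_lit 605904) (.g (nat_lit 2420) (.e (nat_lit 778465) (nat_lit 11) (.e (nat_lit 24617) (nat_lit 7) (.e (nat_lit 319533) (nat_lit 16) (.e (nat_lit 286753) (nat_lit 10) (.e (nat_lit 344160) (nat_lit 37) (.e (nat_lit 647203) (nat_lit 14) (.e (nat_lit 2509) (nat_lit 157) (.e (nat_lit 879) (nat_lit 75) .nil)))))))) (.g (nat_lit 1) (.e (nat_lit 432842) (nat_lit 0) .nil) .nil)))) 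
(.nd (nat_lit 9) 
(.lf (nat_lit 605648) (.g (nat_lit 1817) (.e (nat_lit 778462) (nat_lit 11) (.e (nat_lit 24658) (nat_lit 13) (.e (nat_lit 393281) (nat_lit 23) (.e (nat_lit 426100) (nat_lit 1) (.e (nat_lit 164332) (nat_lit 230) (.e (nat_lit 163847) (nat_lit 0) (.e (nat_lit 3648) (nat_lit 227) .nil))))))) (.g (nat_lit 1) (.e (nat_lit 432528) (nat_lit 0) .nil) .nil))) 
(.lf (nat_lit 606160) (.g (nat_lit 1869) (.e (nat_lit 778466) (nat_lit 11) (.e (nat_lit 24617) (nat_lit 7) (.e (nat_lit 319534) (nat_lit 16) (.e (nat_lit 286759) (nat_lit 12) (.e (nat_lit 385111) (nat_lit 53) .nil))))) (.g (nat_lit 0) (.e (nat_lit 433194) (nat_lit 0) .nil) .nil))))))) (.nd (nat_lit 6) (.nd (nat_lit 7) (.nd (nat_lit 8) (.nd (nat_lit 9) 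
(.lf (nat_lit 605232) (.g (nat_lit 1834) (.e (nat_lit 778327) (nat_lit 6) (.e (nat_lit 81950) (nat_lit 21) (.e (nat_lit 57931) (nat_lit 282) (.e (nat_lit 163945) (nat_lit 20) .nil)))) (.g (nat_lit 0) (.e (nat_lit 431884) (nat_lit 0) .nil) .nil))) 
(.lf (nat_lit 605744) (.g (nat_lit 2088) (.e (nat_lit 778464) (nat_lit 11) (.e (nat_lit 24617) (nat_lit 7) (.e (nat_lit 319529) (nat_lit 16) (.e (nat_lit 286759) (nat_lit 12) (.e (nat_lit 385115) (nat_lit 53) (.e (nat_lit 811033) (nat_lit 11) (.e (nat_lit 879) (nat_lit 75) .nil))))))) (.g (nat_lit 1) (.e (nat_lit 432644) (nat_lit 0) .nil) .nil)))) (.nd (nat_lit 9) 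
(.lf (nat_lit 605488) (.g (nat_lit 3477) (.e (nat_lit 778462) (nat_lit 11) (.e (nat_lit 24608) (nat_lit 3) (.e (nat_lit 98365) (nat_lit 26) (.e (nat_lit 426306) (nat_lit 12) (.e (nat_lit 475177) (nat_lit 24) (.e (nat_lit 516097) (nat_lit 0) (.e (nat_lit 3657) (nat_lit 227) .nil))))))) (.g (nat_lit 1) (.e (nat_lit 432299) (nat_lit 0) .nil) .nil))) 
(.lf (nat_lit 606000) (.g (nat_lit 2465) (.e (nat_lit 778466) (nat_lit 11) (.e (nat_lit 24616) (nat_lit 7) (.e (nat_lit 319530) (nat_lit 16) (.e (nat_lit 286759) (nat_lit 12) (.e (nat_lit 385094) (nat_lit 49) (.e (nat_lit 778548) (nat_lit 14) (.e (nat_lit 993) (nat_lit 81) (.e (nat_lit 917) (nat_lit 75) .nil)))))))) (.g (nat_lit 1) (.e (nat_lit 432981) (nat_lit 0) .nil) .nil))))) 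
(.nd (nat_lit 8) (.nd (nat_lit 9) 
(.lf (nat_lit 605360) (.g (nat_lit 2044) (.e (nat_lit 778460) (nat_lit 11) (.e (nat_lit 24658) (nat_lit 13) (.e (nat_lit 393281) (nat_lit 23) (.e (nat_lit 426100) (nat_lit 1) (.e (nat_lit 164332) (nat_lit 230) .nil))))) (.g (nat_lit 0) (.e (nat_lit 432154) (nat_lit 0) .nil) .nil))) 
(.lf (nat_lit 605872) (.g (nat_lit 3091) (.e (nat_lit 778465) (nat_lit 11) (.e (nat_lit 24608) (nat_lit 3) (.e (nat_lit 98373) (nat_lit 29) (.e (nat_lit 450586) (nat_lit 10) (.e (nat_lit 573477) (nat_lit 12) .nil))))) (.g (nat_lit 0) (.e (nat_lit 432809) (nat_lit 0) .nil) .nil)))) (.nd (nat_lit 9) 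
(.lf (nat_lit 605616) (.g (nat_lit 1985) (.e (nat_lit 778462) (nat_lit 11) (.e (nat_lit 24655) (nat_lit 13) (.e (nat_lit 393233) (nat_lit 17) (.e (nat_lit 7591) (nat_lit 407) (.e (nat_lit 81664) (nat_lit 26) .nil))))) (.g (nat_lit 1) (.e (nat_lit 432472) (nat_lit 0) .nil) .nil))) 
(.lf (nat_lit 606128) (.g (nat_lit 3909) (.e (nat_lit 778466) (nat_lit 11) (.e (nat_lit 24617) (nat_lit 7) (.e (nat_lit 319534) (nat_lit 16) (.e (nat_lit 286756) (nat_lit 10) (.e (nat_lit 344160) (nat_lit 37) (.e (nat_lit 647190) (nat_lit 9) (.e (nat_lit 1016) (nat_lit 81) (.e (nat_lit 2328) (nat_lit 151) .nil)))))))) (.g (nat_lit 1) (.e (nat_lit 433158) (nat_lit 0) .nil) .nil)))))) 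
(.nd (nat_lit 7) (.nd (nat_lit 8) (.nd (nat_lit 9) 
(.lf (nat_lit 605296) (.g (nat_lit 1054) (.e (nat_lit 778459) (nat_lit 11) (.e (nat_lit 24658) (nat_lit 13) (.e (nat_lit 393301) (nat_lit 27) .nil))) (.g (nat_lit 0) (.e (nat_lit 432081) (nat_lit 0) .nil) .nil))) 
(.lf (nat_lit 605808) (.g (nat_lit 2221) (.e (nat_lit 778464) (nat_lit 11) (.e (nat_lit 24617) (nat_lit 7) (.e (nat_lit 319534) (nat_lit 16) (.e (nat_lit 286756) (nat_lit 10) (.e (nat_lit 344160) (nat_lit 37) (.e (nat_lit 647190) (nat_lit 9) (.e (nat_lit 984) (nat_lit 81) (.e (nat_lit 2354) (nat_lit 151) .nil)))))))) (.g (nat_lit 1) (.e (nat_lit 432717) (nat_lit 0) .nil) .nil)))) (.nd (nat_lit 9) 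
(.lf (nat_lit 605552) (.g (nat_lit 2235) (.e (nat_lit 778462) (nat_lit 11) (.e (nat_lit 24628) (nat_lit 9) (.e (nat_lit 336443) (nat_lit 32) (.e (nat_lit 466969) (nat_lit 21) (.e (nat_lit 164332) (nat_lit 230) (.e (nat_lit 163843) (nat_lit 0) (.e (nat_lit 3656) (nat_lit 227) .nil))))))) (.g (nat_lit 1) (.e (nat_lit 432398) (nat_lit 0) .nil) .nil))) 
(.lf (nat_lit 606064) (.g (nat_lit 3262) (.e (nat_lit 778466) (nat_lit 11) (.e (nat_lit 24617) (nat_lit 7) (.e (nat_lit 319533) (nat_lit 16) (.e (nat_lit 286753) (nat_lit 10) (.e (nat_lit 344160) (nat_lit 37) (.e (nat_lit 647190) (nat_lit 9) (.e (nat_lit 1047) (nat_lit 81) (.e (nat_lit 2342) (nat_lit 151) .nil)))))))) (.g (nat_lit 1) (.e (nat_lit 433065) (nat_lit 0) .nil) .nil))))) 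
(.nd (nat_lit 8) (.nd (nat_lit 9) 
(.lf (nat_lit 605424) (.g (nat_lit 1802) (.e (nat_lit 778462) (nat_lit 11) (.e (nat_lit 24604) (nat_lit 2) (.e (nat_lit 90185) (nat_lit 17) (.e (nat_lit 237605) (nat_lit 9) (.e (nat_lit 426436) (nat_lit 18) (.e (nat_lit 98321) (nat_lit 17) (.e (nat_lit 3656) (nat_lit 227) .nil))))))) (.g (nat_lit 1) (.e (nat_lit 432226) (nat_lit 0) .nil) .nil))) 
(.lf (nat_lit 605936) (.g (nat_lit 1307) (.e (nat_lit 778465) (nat_lit 11) (.e (nat_lit 24631) (nat_lit 9) (.e (nat_lit 336389) (nat_lit 27) (.e (nat_lit 426341) (nat_lit 14) .nil)))) (.g (nat_lit 0) (.e (nat_lit 432874) (nat_lit 0) .nil) .nil)))) (.nd (nat_lit 9) 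
(.lf (nat_lit 605680) (.g (nat_lit 1492) (.e (nat_lit 778463) (nat_lit 11) (.e (nat_lit 24606) (nat_lit 3) (.e (nat_lit 98359) (nat_lit 26) (.e (nat_lit 426286) (nat_lit 10) (.e (nat_lit 434247) (nat_lit 28) .nil))))) (.g (nat_lit 0) (.e (nat_lit 432561) (nat_lit 0) .nil) .nil))) 
(.lf (nat_lit 606192) (.g (nat_lit 3082) (.e (nat_lit 778466) (nat_lit 11) (.e (nat_lit 24632) (nat_lit 9) (.e (nat_lit 336388) (nat_lit 27) (.e (nat_lit 426011) (nat_lit 0) (.e (nat_lit 7591) (nat_lit 407) (.e (nat_lit 73776) (nat_lit 26) .nil)))))) (.g (nat_lit 1) (.e (nat_lit 433228) (nat_lit 0) .nil) .nil))))))))) 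
(.nd (nat_lit 4) (.nd (nat_lit 5) (.nd (nat_lit 6) (.nd (nat_lit 7) (.nd (nat_lit 8) 
(.nd (nat_lit 9) 
(.lf (nat_lit 605192) (.g (nat_lit 2282) (.e (nat_lit 778325) (nat_lit 6) (.e (nat_lit 81959) (nat_lit 24) (.e (nat_lit 123195) (nat_lit 266) (.e (nat_lit 57412) (nat_lit 12) .nil)))) (.g (nat_lit 0) (.e (nat_lit 431830) (nat_lit 0) .nil) .nil))) 
(.lf (nat_lit 605704) (.g (nat_lit 1601) (.e (nat_lit 778463) (nat_lit 11) (.e (nat_lit 24660) (nat_lit 13) (.e (nat_lit 393260) (nat_lit 21) (.e (nat_lit 409617) (nat_lit 10) (.e (nat_lit 5353) (nat_lit 298) .nil))))) (.g (nat_lit 0) (.e (nat_lit 432592) (nat_lit 0) .nil) .nil)))) (.nd (nat_lit 9) 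
(.lf (nat_lit 605448) (.g (nat_lit 1911) (.e (nat_lit 778462) (nat_lit 11) (.e (nat_lit 24608) (nat_lit 3) (.e (nat_lit 98363) (nat_lit 26) (.e (nat_lit 426318) (nat_lit 12) (.e (nat_lit 475177) (nat_lit 24) (.e (nat_lit 516097) (nat_lit 0) (.e (nat_lit 3648) (nat_lit 227) .nil))))))) (.g (nat_lit 1) (.e (nat_lit 432259) (nat_lit 0) .nil) .nil))) 
(.lf (nat_lit 605960) (.g (nat_lit 2586) (.e (nat_lit 778466) (nat_lit 11) (.e (nat_lit 24604) (nat_lit 2) (.e (nat_lit 90170) (nat_lit 13) (.e (nat_lit 172112) (nat_lit 10) .nil)))) (.g (nat_lit 0) (.e (nat_lit 432929) (nat_lit 0) .nil) .nil))))) (.nd (nat_lit 8) (.nd (nat_lit 9) 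
(.lf (nat_lit 605320) (.g (nat_lit 2417) (.e (nat_lit 778460) (nat_lit 11) (.e (nat_lit 24608) (nat_lit 3) (.e (nat_lit 98365) (nat_lit 26) (.e (nat_lit 426306) (nat_lit 12) (.e (nat_lit 475177) (nat_lit 24) (.e (nat_lit 516097) (nat_lit 0) (.e (nat_lit 3656) (nat_lit 227) .nil))))))) (.g (nat_lit 1) (.e (nat_lit 432105) (nat_lit 0) .nil) .nil))) 
(.lf (nat_lit 605832) (.g (nat_lit 2207) (.e (nat_lit 778464) (nat_lit 11) (.e (nat_lit 24617) (nat_lit 7) (.e (nat_lit 319534) (nat_lit 16) (.e (nat_lit 286759) (nat_lit 12) (.e (nat_lit 385115) (nat_lit 53) (.e (nat_lit 811039) (nat_lit 11) (.e (nat_lit 913) (nat_lit 75) .nil))))))) (.g (nat_lit 1) (.e (nat_lit 432741) (nat_lit 0) .nil) .nil)))) (.nd (nat_lit 9) 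
(.lf (nat_lit 605576) (.g (nat_lit 2309) (.e (nat_lit 778462) (nat_lit 11) (.e (nat_lit 24628) (nat_lit 9) (.e (nat_lit 336443) (nat_lit 32) (.e (nat_lit 466972) (nat_lit 21) (.e (nat_lit 164329) (nat_lit 230) (.e (nat_lit 163850) (nat_lit 0) (.e (nat_lit 3617) (nat_lit 227) .nil))))))) (.g (nat_lit 1) (.e (nat_lit 432426) (nat_lit 0) .nil) .nil))) 
(.lf (nat_lit 606088) (.g (nat_lit 3007) (.e (nat_lit 778466) (nat_lit 11) (.e (nat_lit 24617) (nat_lit 7) (.e (nat_lit 319533) (nat_lit 16) (.e (nat_lit 286759) (nat_lit 12) (.e (nat_lit 385115) (nat_lit 53) (.e (nat_lit 811034) (nat_lit 11) (.e (nat_lit 883) (nat_lit 75) .nil))))))) (.g (nat_lit 1) (.e (nat_lit 433095) (nat_lit 0) .nil) .nil)))))) 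
(.nd (nat_lit 7) (.nd (nat_lit 8) (.nd (nat_lit 9) 
(.lf (nat_lit 605256) (.g (nat_lit 2608) (.e (nat_lit 778336) (nat_lit 9) (.e (nat_lit 2668) (nat_lit 167) (.e (nat_lit 196666) (nat_lit 13) (.e (nat_lit 65569) (nat_lit 3) (.e (nat_lit 98346) (nat_lit 22) .nil))))) (.g (nat_lit 0) (.e (nat_lit 431939) (nat_lit 0) .nil) .nil))) 
(.lf (nat_lit 605768) (.g (nat_lit 2117) (.e (nat_lit 778464) (nat_lit 11) (.e (nat_lit 24617) (nat_lit 7) (.e (nat_lit 319533) (nat_lit 16) (.e (nat_lit 286753) (nat_lit 10) (.e (nat_lit 344168) (nat_lit 40) .nil))))) (.g (nat_lit 0) (.e (nat_lit 432673) (nat_lit 0) .nil) .nil)))) (.nd (nat_lit 9) 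
(.lf (nat_lit 605512) (.g (nat_lit 3859) (.e (nat_lit 778462) (nat_lit 11) (.e (nat_lit 24608) (nat_lit 3) (.e (nat_lit 98373) (nat_lit 29) (.e (nat_lit 450588) (nat_lit 10) (.e (nat_lit 573473) (nat_lit 12) (.e (nat_lit 65280) (nat_lit 55) .nil)))))) (.g (nat_lit 1) (.e (nat_lit 432325) (nat_lit 0) .nil) .nil))) 
(.lf (nat_lit 606024) (.g (nat_lit 830) (.e (nat_lit 778466) (nat_lit 11) (.e (nat_lit 24617) (nat_lit 7) (.e (nat_lit 319529) (nat_lit 16) (.e (nat_lit 286759) (nat_lit 12) .nil)))) (.g (nat_lit 0) (.e (nat_lit 433015) (nat_lit 0) .nil) .nil))))) (.nd (nat_lit 8) (.nd (nat_lit 9) 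
(.lf (nat_lit 605384) (.g (nat_lit 743) (.e (nat_lit 778461) (nat_lit 11) (.e (nat_lit 24658) (nat_lit 13) (.e (nat_lit 393281) (nat_lit 23) .nil))) (.g (nat_lit 0) (.e (nat_lit 432185) (nat_lit 0) .nil) .nil))) 
(.lf (nat_lit 605896) (.g (nat_lit 2489) (.e (nat_lit 778465) (nat_lit 11) (.e (nat_lit 24617) (nat_lit 7) (.e (nat_lit 319532) (nat_lit 16) (.e (nat_lit 286759) (nat_lit 12) (.e (nat_lit 385115) (nat_lit 53) (.e (nat_lit 811032) (nat_lit 11) (.e (nat_lit 883) (nat_lit 75) .nil))))))) (.g (nat_lit 1) (.e (nat_lit 432834) (nat_lit 0) .nil) .nil)))) (.nd (nat_lit 9) 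
(.lf (nat_lit 605640) (.g (nat_lit 1652) (.e (nat_lit 778462) (nat_lit 11) (.e (nat_lit 24658) (nat_lit 13) (.e (nat_lit 393281) (nat_lit 23) (.e (nat_lit 426099) (nat_lit 1) (.e (nat_lit 164332) (nat_lit 230) (.e (nat_lit 163847) (nat_lit 0) (.e (nat_lit 3661) (nat_lit 227) .nil))))))) (.g (nat_lit 1) (.e (nat_lit 432518) (nat_lit 0) .nil) .nil))) 
(.lf (nat_lit 606152) (.g (nat_lit 3020) (.e (nat_lit 778466) (nat_lit 11) (.e (nat_lit 24617) (nat_lit 7) (.e (nat_lit 319534) (nat_lit 16) (.e (nat_lit 286756) (nat_lit 10) (.e (nat_lit 344160) (nat_lit 37) (.e (nat_lit 647195) (nat_lit 9) (.e (nat_lit 7936) (nat_lit 81) (.e (nat_lit 2308) (nat_lit 151) .nil)))))))) (.g (nat_lit 1) (.e (nat_lit 433182) (nat_lit 0) .nil) .nil))))))) 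
(.nd (nat_lit 6) (.nd (nat_lit 7) (.nd (nat_lit 8) (.nd (nat_lit 9) 
(.lf (nat_lit 605224) (.g (nat_lit 1164) (.e (nat_lit 778327) (nat_lit 6) (.e (nat_lit 81946) (nat_lit 20) (.e (nat_lit 2003) (nat_lit 138) (.e (nat_lit 671764) (nat_lit 6) (.e (nat_lit 81922) (nat_lit 0) .nil))))) (.g (nat_lit 0) (.e (nat_lit 431876) (nat_lit 0) .nil) .nil))) 
(.lf (nat_lit 605736) (.g (nat_lit 1760) (.e (nat_lit 778464) (nat_lit 11) (.e (nat_lit 24617) (nat_lit 7) (.e (nat_lit 319528) (nat_lit 16) (.e (nat_lit 286759) (nat_lit 12) (.e (nat_lit 385115) (nat_lit 53) .nil))))) (.g (nat_lit 0) (.e (nat_lit 432635) (nat_lit 0) .nil) .nil)))) (.nd (nat_lit 9) 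
(.lf (nat_lit 605480) (.g (nat_lit 3528) (.e (nat_lit 778462) (nat_lit 11) (.e (nat_lit 24608) (nat_lit 3) (.e (nat_lit 98365) (nat_lit 26) (.e (nat_lit 426306) (nat_lit 12) (.e (nat_lit 475177) (nat_lit 24) (.e (nat_lit 516097) (nat_lit 0) (.e (nat_lit 3650) (nat_lit 227) .nil))))))) (.g (nat_lit 1) (.e (nat_lit 432291) (nat_lit 0) .nil) .nil))) 
(.lf (nat_lit 605992) (.g (nat_lit 2957) (.e (nat_lit 778466) (nat_lit 11) (.e (nat_lit 24608) (nat_lit 3) (.e (nat_lit 98365) (nat_lit 26) (.e (nat_lit 426306) (nat_lit 12) (.e (nat_lit 475179) (nat_lit 24) (.e (nat_lit 516105) (nat_lit 0) (.e (nat_lit 3703) (nat_lit 227) .nil))))))) (.g (nat_lit 1) (.e (nat_lit 432971) (nat_lit 0) .nil) .nil))))) (.nd (nat_lit 8) (.nd (nat_lit 9) 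
(.lf (nat_lit 605352) (.g (nat_lit 917) (.e (nat_lit 778460) (nat_lit 11) (.e (nat_lit 24657) (nat_lit 13) (.e (nat_lit 393281) (nat_lit 23) .nil))) (.g (nat_lit 0) (.e (nat_lit 432142) (nat_lit 0) .nil) .nil))) 
(.lf (nat_lit 605864) (.g (nat_lit 2435) (.e (nat_lit 778465) (nat_lit 11) (.e (nat_lit 24604) (nat_lit 2) (.e (nat_lit 90178) (nat_lit 15) (.e (nat_lit 188441) (nat_lit 20) (.e (nat_lit 3308) (nat_lit 202) .nil))))) (.g (nat_lit 0) (.e (nat_lit 432801) (nat_lit 0) .nil) .nil)))) (.nd (nat_lit 9) 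
(.lf (nat_lit 605608) (.g (nat_lit 2390) (.e (nat_lit 778462) (nat_lit 11) (.e (nat_lit 24630) (nat_lit 9) (.e (nat_lit 336369) (nat_lit 27) (.e (nat_lit 426025) (nat_lit 0) (.e (nat_lit 7107) (nat_lit 380) .nil))))) (.g (nat_lit 0) (.e (nat_lit 432458) (nat_lit 0) .nil) .nil))) 
(.lf (nat_lit 606120) (.g (nat_lit 3532) (.e (nat_lit 778466) (nat_lit 11) (.e (nat_lit 24617) (nat_lit 7) (.e (nat_lit 319534) (nat_lit 16) (.e (nat_lit 286756) (nat_lit 10) (.e (nat_lit 344160) (nat_lit 37) (.e (nat_lit 647190) (nat_lit 9) (.e (nat_lit 983) (nat_lit 81) (.e (nat_lit 2309) (nat_lit 151) .nil)))))))) (.g (nat_lit 1) (.e (nat_lit 433150) (nat_lit 0) .nil) .nil)))))) 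
(.nd (nat_lit 7) (.nd (nat_lit 8) (.nd (nat_lit 9) 
(.lf (nat_lit 605288) (.g (nat_lit 2345) (.e (nat_lit 778459) (nat_lit 11) (.e (nat_lit 24655) (nat_lit 13) (.e (nat_lit 393299) (nat_lit 27) (.e (nat_lit 491560) (nat_lit 10) (.e (nat_lit 352000) (nat_lit 44) .nil))))) (.g (nat_lit 1) (.e (nat_lit 432071) (nat_lit 0) .nil) .nil))) 
(.lf (nat_lit 605800) (.g (nat_lit 2901) (.e (nat_lit 778464) (nat_lit 11) (.e (nat_lit 24617) (nat_lit 7) (.e (nat_lit 319534) (nat_lit 16) (.e (nat_lit 286756) (nat_lit 10) (.e (nat_lit 344168) (nat_lit 40) (.e (nat_lit 671780) (nat_lit 12) (.e (nat_lit 164050) (nat_lit 55) .nil))))))) (.g (nat_lit 1) (.e (nat_lit 432709) (nat_lit 0) .nil) .nil)))) (.nd (nat_lit 9) 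
(.lf (nat_lit 605544) (.g (nat_lit 3210) (.e (nat_lit 778462) (nat_lit 11) (.e (nat_lit 24628) (nat_lit 9) (.e (nat_lit 336443) (nat_lit 32) (.e (nat_lit 466969) (nat_lit 21) (.e (nat_lit 164330) (nat_lit 230) (.e (nat_lit 163857) (nat_lit 0) (.e (nat_lit 3666) (nat_lit 227) .nil))))))) (.g (nat_lit 1) (.e (nat_lit 432390) (nat_lit 0) .nil) .nil))) 
(.lf (nat_lit 606056) (.g (nat_lit 3580) (.e (nat_lit 778466) (nat_lit 11) (.e (nat_lit 24617) (nat_lit 7) (.e (nat_lit 319533) (nat_lit 16) (.e (nat_lit 286753) (nat_lit 10) (.e (nat_lit 344160) (nat_lit 37) (.e (nat_lit 647190) (nat_lit 9) (.e (nat_lit 983) (nat_lit 81) (.e (nat_lit 2347) (nat_lit 151) .nil)))))))) (.g (nat_lit 1) (.e (nat_lit 433057) (nat_lit 0) .nil) .nil))))) 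
(.nd (nat_lit 8) (.nd (nat_lit 9) 
(.lf (nat_lit 605416) (.g (nat_lit 2757) (.e (nat_lit 778462) (nat_lit 11) (.e (nat_lit 24604) (nat_lit 2) (.e (nat_lit 90185) (nat_lit 17) (.e (nat_lit 237605) (nat_lit 9) (.e (nat_lit 426428) (nat_lit 17) (.e (nat_lit 90181) (nat_lit 16) (.e (nat_lit 229466) (nat_lit 55) .nil))))))) (.g (nat_lit 1) (.e (nat_lit 432218) (nat_lit 0) .nil) .nil))) 
(.lf (nat_lit 605928) (.g (nat_lit 3810) (.e (nat_lit 778465) (nat_lit 11) (.e (nat_lit 24623) (nat_lit 9) (.e (nat_lit 336412) (nat_lit 27) (.e (nat_lit 426343) (nat_lit 14) (.e (nat_lit 491560) (nat_lit 10) (.e (nat_lit 344179) (nat_lit 44) .nil)))))) (.g (nat_lit 1) (.e (nat_lit 432866) (nat_lit 0) .nil) .nil)))) (.nd (nat_lit 9) 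
(.lf (nat_lit 605672) (.g (nat_lit 1351) (.e (nat_lit 778462) (nat_lit 11) (.e (nat_lit 24660) (nat_lit 13) (.e (nat_lit 393260) (nat_lit 21) (.e (nat_lit 417536) (nat_lit 10) .nil)))) (.g (nat_lit 0) (.e (nat_lit 432553) (nat_lit 0) .nil) .nil))) 
(.lf (nat_lit 606184) (.g (nat_lit 1563) (.e (nat_lit 778466) (nat_lit 11) (.e (nat_lit 24631) (nat_lit 9) (.e (nat_lit 336389) (nat_lit 27) (.e (nat_lit 426342) (nat_lit 14) (.e (nat_lit 491560) (nat_lit 10) .nil))))) (.g (nat_lit 0) (.e (nat_lit 433220) (nat_lit 0) .nil) .nil)))))))) (.nd (nat_lit 5) (.nd (nat_lit 6) (.nd (nat_lit 7) (.nd (nat_lit 8) (.nd (nat_lit 9) 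
(.lf (nat_lit 605208) (.g (nat_lit 2211) (.e (nat_lit 778326) (nat_lit 6) (.e (nat_lit 81950) (nat_lit 21) (.e (nat_lit 57872) (nat_lit 264) (.e (nat_lit 1221) (nat_lit 90) (.e (nat_lit 81922) (nat_lit 0) .nil))))) (.g (nat_lit 0) (.e (nat_lit 431849) (nat_lit 0) .nil) .nil))) 
(.lf (nat_lit 605720) (.g (nat_lit 1523) (.e (nat_lit 778464) (nat_lit 11) (.e (nat_lit 24607) (nat_lit 3) (.e (nat_lit 98370) (nat_lit 28) (.e (nat_lit 450304) (nat_lit 3) .nil)))) (.g (nat_lit 0) (.e (nat_lit 432618) (nat_lit 0) .nil) .nil)))) (.nd (nat_lit 9) 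
(.lf (nat_lit 605464) (.g (nat_lit 3311) (.e (nat_lit 778462) (nat_lit 11) (.e (nat_lit 24608) (nat_lit 3) (.e (nat_lit 98365) (nat_lit 26) (.e (nat_lit 426188) (nat_lit 9) (.e (nat_lit 426428) (nat_lit 17) (.e (nat_lit 90165) (nat_lit 12) (.e (nat_lit 164046) (nat_lit 55) .nil))))))) (.g (nat_lit 1) (.e (nat_lit 432275) (nat_lit 0) .nil) .nil))) 
(.lf (nat_lit 605976) (.g (nat_lit 632) (.e (nat_lit 778466) (nat_lit 11) (.e (nat_lit 24607) (nat_lit 3) (.e (nat_lit 98362) (nat_lit 26) .nil))) (.g (nat_lit 0) (.e (nat_lit 432945) (nat_lit 0) .nil) .nil))))) (.nd (nat_lit 8) (.nd (nat_lit 9) 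
(.lf (nat_lit 605336) (.g (nat_lit 2162) (.e (nat_lit 778460) (nat_lit 11) (.e (nat_lit 24627) (nat_lit 9) (.e (nat_lit 336443) (nat_lit 32) (.e (nat_lit 466969) (nat_lit 21) (.e (nat_lit 164332) (nat_lit 230) (.e (nat_lit 163852) (nat_lit 0) (.e (nat_lit 3721) (nat_lit 227) .nil))))))) (.g (nat_lit 1) (.e (nat_lit 432123) (nat_lit 0) .nil) .nil))) 
(.lf (nat_lit 605848) (.g (nat_lit 1774) (.e (nat_lit 778464) (nat_lit 11) (.e (nat_lit 24657) (nat_lit 13) (.e (nat_lit 393298) (nat_lit 27) (.e (nat_lit 491560) (nat_lit 10) .nil)))) (.g (nat_lit 0) (.e (nat_lit 432761) (nat_lit 0) .nil) .nil)))) (.nd (nat_lit 9) 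
(.lf (nat_lit 605592) (.g (nat_lit 2198) (.e (nat_lit 778462) (nat_lit 11) (.e (nat_lit 24628) (nat_lit 9) (.e (nat_lit 336443) (nat_lit 32) (.e (nat_lit 466972) (nat_lit 21) (.e (nat_lit 164332) (nat_lit 230) (.e (nat_lit 163847) (nat_lit 0) (.e (nat_lit 3647) (nat_lit 227) .nil))))))) (.g (nat_lit 1) (.e (nat_lit 432442) (nat_lit 0) .nil) .nil))) 
(.lf (nat_lit 606104) (.g (nat_lit 2875) (.e (nat_lit 778466) (nat_lit 11) (.e (nat_lit 24617) (nat_lit 7) (.e (nat_lit 319534) (nat_lit 16) (.e (nat_lit 286756) (nat_lit 10) (.e (nat_lit 344168) (nat_lit 40) (.e (nat_lit 679680) (nat_lit 16) (.e (nat_lit 123009) (nat_lit 116) .nil))))))) (.g (nat_lit 1) (.e (nat_lit 433134) (nat_lit 0) .nil) .nil)))))) 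
(.nd (nat_lit 7) (.nd (nat_lit 8) (.nd (nat_lit 9) 
(.lf (nat_lit 605272) (.g (nat_lit 2704) (.e (nat_lit 778367) (nat_lit 9) (.e (nat_lit 2668) (nat_lit 167) (.e (nat_lit 196656) (nat_lit 11) (.e (nat_lit 16436) (nat_lit 9) (.e (nat_lit 426131) (nat_lit 3) .nil))))) (.g (nat_lit 0) (.e (nat_lit 431997) (nat_lit 0) .nil) .nil))) 
(.lf (nat_lit 605784) (.g (nat_lit 3510) (.e (nat_lit 778464) (nat_lit 11) (.e (nat_lit 24617) (nat_lit 7) (.e (nat_lit 319533) (nat_lit 16) (.e (nat_lit 286753) (nat_lit 10) (.e (nat_lit 344160) (nat_lit 37) (.e (nat_lit 647201) (nat_lit 12) (.e (nat_lit 65280) (nat_lit 55) .nil))))))) (.g (nat_lit 1) (.e (nat_lit 432689) (nat_lit 0) .nil) .nil)))) (.nd (nat_lit 9) 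
(.lf (nat_lit 605528) (.g (nat_lit 3864) (.e (nat_lit 778462) (nat_lit 11) (.e (nat_lit 24609) (nat_lit 3) (.e (nat_lit 98373) (nat_lit 29) (.e (nat_lit 450588) (nat_lit 10) (.e (nat_lit 573473) (nat_lit 12) (.e (nat_lit 65280) (nat_lit 55) .nil)))))) (.g (nat_lit 1) (.e (nat_lit 432356) (nat_lit 0) .nil) .nil))) 
(.lf (nat_lit 606040) (.g (nat_lit 2518) (.e (nat_lit 778466) (nat_lit 11) (.e (nat_lit 24617) (nat_lit 7) (.e (nat_lit 319531) (nat_lit 16) (.e (nat_lit 286759) (nat_lit 12) (.e (nat_lit 385115) (nat_lit 53) (.e (nat_lit 811039) (nat_lit 11) (.e (nat_lit 913) (nat_lit 75) .nil))))))) (.g (nat_lit 1) (.e (nat_lit 433040) (nat_lit 0) .nil) .nil))))) (.nd (nat_lit 8) (.nd (nat_lit 9) 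
(.lf (nat_lit 605400) (.g (nat_lit 1881) (.e (nat_lit 778462) (nat_lit 11) (.e (nat_lit 24604) (nat_lit 2) (.e (nat_lit 90178) (nat_lit 15) (.e (nat_lit 188441) (nat_lit 20) (.e (nat_lit 3308) (nat_lit 202) .nil))))) (.g (nat_lit 0) (.e (nat_lit 432202) (nat_lit 0) .nil) .nil))) 
(.lf (nat_lit 605912) (.g (nat_lit 3498) (.e (nat_lit 778465) (nat_lit 11) (.e (nat_lit 24617) (nat_lit 7) (.e (nat_lit 319533) (nat_lit 16) (.e (nat_lit 286759) (nat_lit 12) (.e (nat_lit 385115) (nat_lit 53) (.e (nat_lit 811032) (nat_lit 11) (.e (nat_lit 883) (nat_lit 75) .nil))))))) (.g (nat_lit 1) (.e (nat_lit 432850) (nat_lit 0) .nil) .nil)))) (.nd (nat_lit 9) 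
(.lf (nat_lit 605656) (.g (nat_lit 1954) (.e (nat_lit 778462) (nat_lit 11) (.e (nat_lit 24658) (nat_lit 13) (.e (nat_lit 393299) (nat_lit 27) (.e (nat_lit 491558) (nat_lit 10) (.e (nat_lit 352000) (nat_lit 44) .nil))))) (.g (nat_lit 0) (.e (nat_lit 432537) (nat_lit 0) .nil) .nil))) 
(.lf (nat_lit 606168) (.g (nat_lit 3168) (.e (nat_lit 778466) (nat_lit 11) (.e (nat_lit 24617) (nat_lit 7) (.e (nat_lit 319534) (nat_lit 16) (.e (nat_lit 286759) (nat_lit 12) (.e (nat_lit 385115) (nat_lit 53) (.e (nat_lit 811034) (nat_lit 11) (.e (nat_lit 883) (nat_lit 75) .nil))))))) (.g (nat_lit 1) (.e (nat_lit 433203) (nat_lit 0) .nil) .nil))))))) 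
(.nd (nat_lit 6) (.nd (nat_lit 7) (.nd (nat_lit 8) (.nd (nat_lit 9) 
(.lf (nat_lit 605240) (.g (nat_lit 2164) (.e (nat_lit 778327) (nat_lit 6) (.e (nat_lit 81957) (nat_lit 24) (.e (nat_lit 123197) (nat_lit 266) (.e (nat_lit 57436) (nat_lit 17) (.e (nat_lit 376835) (nat_lit 0) (.e (nat_lit 3629) (nat_lit 227) .nil)))))) (.g (nat_lit 1) (.e (nat_lit 431904) (nat_lit 0) .nil) .nil))) 
(.lf (nat_lit 605752) (.g (nat_lit 1858) (.e (nat_lit 778464) (nat_lit 11) (.e (nat_lit 24617) (nat_lit 7) (.e (nat_lit 319531) (nat_lit 16) (.e (nat_lit 286759) (nat_lit 12) (.e (nat_lit 385115) (nat_lit 53) .nil))))) (.g (nat_lit 0) (.e (nat_lit 432654) (nat_lit 0) .nil) .nil)))) (.nd (nat_lit 9) 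
(.lf (nat_lit 605496) (.g (nat_lit 2473) (.e (nat_lit 778462) (nat_lit 11) (.e (nat_lit 24608) (nat_lit 3) (.e (nat_lit 98365) (nat_lit 26) (.e (nat_lit 426306) (nat_lit 12) (.e (nat_lit 475179) (nat_lit 24) (.e (nat_lit 516100) (nat_lit 0) (.e (nat_lit 3661) (nat_lit 227) .nil))))))) (.g (nat_lit 1) (.e (nat_lit 432307) (nat_lit 0) .nil) .nil))) 
(.lf (nat_lit 606008) (.g (nat_lit 1251) (.e (nat_lit 778466) (nat_lit 11) (.e (nat_lit 24617) (nat_lit 7) (.e (nat_lit 319505) (nat_lit 10) (.e (nat_lit 720) (nat_lit 64) .nil)))) (.g (nat_lit 0) (.e (nat_lit 432989) (nat_lit 0) .nil) .nil))))) (.nd (nat_lit 8) (.nd (nat_lit 9) 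
(.lf (nat_lit 605368) (.g (nat_lit 1113) (.e (nat_lit 778461) (nat_lit 11) (.e (nat_lit 24628) (nat_lit 9) (.e (nat_lit 336438) (nat_lit 31) (.e (nat_lit 458769) (nat_lit 16) .nil)))) (.g (nat_lit 0) (.e (nat_lit 432164) (nat_lit 0) .nil) .nil))) 
(.lf (nat_lit 605880) (.g (nat_lit 2168) (.e (nat_lit 778465) (nat_lit 11) (.e (nat_lit 24617) (nat_lit 7) (.e (nat_lit 319528) (nat_lit 16) (.e (nat_lit 286759) (nat_lit 12) (.e (nat_lit 385111) (nat_lit 53) (.e (nat_lit 811035) (nat_lit 11) (.e (nat_lit 883) (nat_lit 75) .nil))))))) (.g (nat_lit 1) (.e (nat_lit 432818) (nat_lit 0) .nil) .nil)))) (.nd (nat_lit 9) 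
(.lf (nat_lit 605624) (.g (nat_lit 3398) (.e (nat_lit 778462) (nat_lit 11) (.e (nat_lit 24655) (nat_lit 13) (.e (nat_lit 393301) (nat_lit 27) (.e (nat_lit 491560) (nat_lit 10) (.e (nat_lit 352000) (nat_lit 44) .nil))))) (.g (nat_lit 0) (.e (nat_lit 432486) (nat_lit 0) .nil) .nil))) 
(.lf (nat_lit 606136) (.g (nat_lit 4032) (.e (nat_lit 778466) (nat_lit 11) (.e (nat_lit 24617) (nat_lit 7) (.e (nat_lit 319534) (nat_lit 16) (.e (nat_lit 286756) (nat_lit 10) (.e (nat_lit 344160) (nat_lit 37) (.e (nat_lit 647190) (nat_lit 9) (.e (nat_lit 1048) (nat_lit 81) (.e (nat_lit 2342) (nat_lit 151) .nil)))))))) (.g (nat_lit 1) (.e (nat_lit 433166) (nat_lit 0) .nil) .nil)))))) 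
(.nd (nat_lit 7) (.nd (nat_lit 8) (.nd (nat_lit 9) 
(.lf (nat_lit 605304) (.g (nat_lit 2467) (.e (nat_lit 778459) (nat_lit 11) (.e (nat_lit 24660) (nat_lit 13) (.e (nat_lit 393260) (nat_lit 21) (.e (nat_lit 409616) (nat_lit 10) (.e (nat_lit 4931) (nat_lit 287) .nil))))) (.g (nat_lit 0) (.e (nat_lit 432089) (nat_lit 0) .nil) .nil))) 
(.lf (nat_lit 605816) (.g (nat_lit 2640) (.e (nat_lit 778464) (nat_lit 11) (.e (nat_lit 24617) (nat_lit 7) (.e (nat_lit 319534) (nat_lit 16) (.e (nat_lit 286756) (nat_lit 10) (.e (nat_lit 344160) (nat_lit 37) (.e (nat_lit 647196) (nat_lit 9) (.e (nat_lit 1003) (nat_lit 81) (.e (nat_lit 2343) (nat_lit 151) .nil)))))))) (.g (nat_lit 1) (.e (nat_lit 432725) (nat_lit 0) .nil) .nil)))) 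
(.nd (nat_lit 9) 
(.lf (nat_lit 605560) (.g (nat_lit 2534) (.e (nat_lit 778462) (nat_lit 11) (.e (nat_lit 24628) (nat_lit 9) (.e (nat_lit 336443) (nat_lit 32) (.e (nat_lit 466969) (nat_lit 21) (.e (nat_lit 164332) (nat_lit 230) (.e (nat_lit 163847) (nat_lit 0) (.e (nat_lit 3653) (nat_lit 227) .nil))))))) (.g (nat_lit 1) (.e (nat_lit 432406) (nat_lit 0) .nil) .nil))) 
(.lf (nat_lit 606072) (.g (nat_lit 3255) (.e (nat_lit 778466) (nat_lit 11) (.e (nat_lit 24617) (nat_lit 7) (.e (nat_lit 319533) (nat_lit 16) (.e (nat_lit 286753) (nat_lit 10) (.e (nat_lit 344160) (nat_lit 37) (.e (nat_lit 647196) (nat_lit 9) (.e (nat_lit 1003) (nat_lit 81) (.e (nat_lit 2342) (nat_lit 151) .nil)))))))) (.g (nat_lit 1) (.e (nat_lit 433073) (nat_lit 0) .nil) .nil))))) 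
(.nd (nat_lit 8) (.nd (nat_lit 9) 
(.lf (nat_lit 605432) (.g (nat_lit 964) (.e (nat_lit 778462) (nat_lit 11) (.e (nat_lit 24604) (nat_lit 2) (.e (nat_lit 90185) (nat_lit 17) (.e (nat_lit 237616) (nat_lit 12) .nil)))) (.g (nat_lit 0) (.e (nat_lit 432234) (nat_lit 0) .nil) .nil))) 
(.lf (nat_lit 605944) (.g (nat_lit 867) (.e (nat_lit 778465) (nat_lit 11) (.e (nat_lit 24655) (nat_lit 13) (.e (nat_lit 393240) (nat_lit 17) .nil))) (.g (nat_lit 0) (.e (nat_lit 432882) (nat_lit 0) .nil) .nil)))) (.nd (nat_lit 9) 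
(.lf (nat_lit 605688) (.g (nat_lit 2302) (.e (nat_lit 778463) (nat_lit 11) (.e (nat_lit 24608) (nat_lit 3) (.e (nat_lit 98372) (nat_lit 29) (.e (nat_lit 450587) (nat_lit 10) .nil)))) (.g (nat_lit 0) (.e (nat_lit 432572) (nat_lit 0) .nil) .nil))) 
(.lf (nat_lit 606200) (.g (nat_lit 3134) (.e (nat_lit 778466) (nat_lit 11) (.e (nat_lit 24658) (nat_lit 13) (.e (nat_lit 393301) (nat_lit 27) (.e (nat_lit 491558) (nat_lit 10) (.e (nat_lit 344180) (nat_lit 44) .nil))))) (.g (nat_lit 0) (.e (nat_lit 433236) (nat_lit 0) .nil) .nil)))))))))) 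
(.nd (nat_lit 3) (.nd (nat_lit 4) (.nd (nat_lit 5) (.nd (nat_lit 6) (.nd (nat_lit 7) 
(.nd (nat_lit 8) (.nd (nat_lit 9) 
(.lf (nat_lit 605188) (.g (nat_lit 1506) (.e (nat_lit 778325) (nat_lit 6) (.e (nat_lit 81956) (nat_lit 23) (.e (nat_lit 98309) (nat_lit 0) (.e (nat_lit 6217) (nat_lit 333) .nil)))) (.g (nat_lit 0) (.e (nat_lit 431826) (nat_lit 0) .nil) .nil))) 
(.lf (nat_lit 605700) (.g (nat_lit 805) (.e (nat_lit 778463) (nat_lit 11) (.e (nat_lit 24657) (nat_lit 13) (.e (nat_lit 393248) (nat_lit 17) .nil))) (.g (nat_lit 0) (.e (nat_lit 432585) (nat_lit 0) .nil) .nil)))) (.nd (nat_lit 9) 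
(.lf (nat_lit 605444) (.g (nat_lit 1111) (.e (nat_lit 778462) (nat_lit 11) (.e (nat_lit 24608) (nat_lit 3) (.e (nat_lit 98363) (nat_lit 26) (.e (nat_lit 426228) (nat_lit 9) .nil)))) (.g (nat_lit 0) (.e (nat_lit 432255) (nat_lit 0) .nil) .nil))) 
(.lf (nat_lit 605956) (.g (nat_lit 3247) (.e (nat_lit 778466) (nat_lit 11) (.e (nat_lit 24604) (nat_lit 2) (.e (nat_lit 90170) (nat_lit 13) (.e (nat_lit 172106) (nat_lit 10) (.e (nat_lit 434243) (nat_lit 28) (.e (nat_lit 573477) (nat_lit 12) (.e (nat_lit 57575) (nat_lit 55) .nil))))))) (.g (nat_lit 1) (.e (nat_lit 432925) (nat_lit 0) .nil) .nil))))) (.nd (nat_lit 8) (.nd (nat_lit 9) 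
(.lf (nat_lit 605316) (.g (nat_lit 2162) (.e (nat_lit 778459) (nat_lit 11) (.e (nat_lit 24660) (nat_lit 13) (.e (nat_lit 393299) (nat_lit 27) (.e (nat_lit 491560) (nat_lit 10) (.e (nat_lit 352000) (nat_lit 44) .nil))))) (.g (nat_lit 0) (.e (nat_lit 432101) (nat_lit 0) .nil) .nil))) 
(.lf (nat_lit 605828) (.g (nat_lit 2140) (.e (nat_lit 778464) (nat_lit 11) (.e (nat_lit 24617) (nat_lit 7) (.e (nat_lit 319534) (nat_lit 16) (.e (nat_lit 286759) (nat_lit 12) (.e (nat_lit 385113) (nat_lit 53) .nil))))) (.g (nat_lit 0) (.e (nat_lit 432737) (nat_lit 0) .nil) .nil)))) (.nd (nat_lit 9) 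
(.lf (nat_lit 605572) (.g (nat_lit 1856) (.e (nat_lit 778462) (nat_lit 11) (.e (nat_lit 24628) (nat_lit 9) (.e (nat_lit 336443) (nat_lit 32) (.e (nat_lit 466971) (nat_lit 21) (.e (nat_lit 164325) (nat_lit 230) (.e (nat_lit 163844) (nat_lit 0) (.e (nat_lit 3651) (nat_lit 227) .nil))))))) (.g (nat_lit 1) (.e (nat_lit 432418) (nat_lit 0) .nil) .nil))) 
(.lf (nat_lit 606084) (.g (nat_lit 1573) (.e (nat_lit 778466) (nat_lit 11) (.e (nat_lit 24617) (nat_lit 7) (.e (nat_lit 319533) (nat_lit 16) (.e (nat_lit 286758) (nat_lit 12) (.e (nat_lit 385115) (nat_lit 53) .nil))))) (.g (nat_lit 0) (.e (nat_lit 433086) (nat_lit 0) .nil) .nil)))))) (.nd (nat_lit 7) (.nd (nat_lit 8) (.nd (nat_lit 9) 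
(.lf (nat_lit 605252) (.g (nat_lit 2704) (.e (nat_lit 778336) (nat_lit 9) (.e (nat_lit 2668) (nat_lit 167) (.e (nat_lit 196656) (nat_lit 11) (.e (nat_lit 16436) (nat_lit 9) (.e (nat_lit 426131) (nat_lit 3) .nil))))) (.g (nat_lit 0) (.e (nat_lit 431930) (nat_lit 0) .nil) .nil))) 
(.lf (nat_lit 605764) (.g (nat_lit 1469) (.e (nat_lit 778464) (nat_lit 11) (.e (nat_lit 24617) (nat_lit 7) (.e (nat_lit 319533) (nat_lit 16) (.e (nat_lit 286752) (nat_lit 10) .nil)))) (.g (nat_lit 0) (.e (nat_lit 432669) (nat_lit 0) .nil) .nil)))) (.nd (nat_lit 9) 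
(.lf (nat_lit 605508) (.g (nat_lit 2903) (.e (nat_lit 778462) (nat_lit 11) (.e (nat_lit 24608) (nat_lit 3) (.e (nat_lit 98373) (nat_lit 29) (.e (nat_lit 450586) (nat_lit 10) (.e (nat_lit 573475) (nat_lit 12) .nil))))) (.g (nat_lit 0) (.e (nat_lit 432321) (nat_lit 0) .nil) .nil))) 
(.lf (nat_lit 606020) (.g (nat_lit 2369) (.e (nat_lit 778466) (nat_lit 11) (.e (nat_lit 24617) (nat_lit 7) (.e (nat_lit 319528) (nat_lit 16) (.e (nat_lit 286759) (nat_lit 12) (.e (nat_lit 385115) (nat_lit 53) (.e (nat_lit 811032) (nat_lit 11) (.e (nat_lit 883) (nat_lit 75) .nil))))))) (.g (nat_lit 1) (.e (nat_lit 433009) (nat_lit 0) .nil) .nil))))) (.nd (nat_lit 8) (.nd (nat_lit 9) 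
(.lf (nat_lit 605380) (.g (nat_lit 2245) (.e (nat_lit 778461) (nat_lit 11) (.e (nat_lit 24655) (nat_lit 13) (.e (nat_lit 393300) (nat_lit 27) (.e (nat_lit 491560) (nat_lit 10) (.e (nat_lit 352000) (nat_lit 44) .nil))))) (.g (nat_lit 0) (.e (nat_lit 432179) (nat_lit 0) .nil) .nil))) 
(.lf (nat_lit 605892) (.g (nat_lit 1681) (.e (nat_lit 778465) (nat_lit 11) (.e (nat_lit 24617) (nat_lit 7) (.e (nat_lit 319531) (nat_lit 16) (.e (nat_lit 286759) (nat_lit 12) (.e (nat_lit 385115) (nat_lit 53) .nil))))) (.g (nat_lit 0) (.e (nat_lit 432830) (nat_lit 0) .nil) .nil)))) (.nd (nat_lit 9) 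
(.lf (nat_lit 605636) (.g (nat_lit 1608) (.e (nat_lit 778462) (nat_lit 11) (.e (nat_lit 24658) (nat_lit 13) (.e (nat_lit 393281) (nat_lit 23) (.e (nat_lit 426099) (nat_lit 1) (.e (nat_lit 164332) (nat_lit 230) (.e (nat_lit 163847) (nat_lit 0) (.e (nat_lit 3649) (nat_lit 227) .nil))))))) (.g (nat_lit 1) (.e (nat_lit 432514) (nat_lit 0) .nil) .nil))) 
(.lf (nat_lit 606148) (.g (nat_lit 3915) (.e (nat_lit 778466) (nat_lit 11) (.e (nat_lit 24617) (nat_lit 7) (.e (nat_lit 319534) (nat_lit 16) (.e (nat_lit 286756) (nat_lit 10) (.e (nat_lit 344160) (nat_lit 37) (.e (nat_lit 647195) (nat_lit 9) (.e (nat_lit 1012) (nat_lit 81) (.e (nat_lit 2328) (nat_lit 151) .nil)))))))) (.g (nat_lit 1) (.e (nat_lit 433178) (nat_lit 0) .nil) .nil))))))) 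
(.nd (nat_lit 6) (.nd (nat_lit 7) (.nd (nat_lit 8) (.nd (nat_lit 9) 
(.lf (nat_lit 605220) (.g (nat_lit 948) (.e (nat_lit 778327) (nat_lit 6) (.e (nat_lit 81922) (nat_lit 0) (.e (nat_lit 3632) (nat_lit 227) (.e (nat_lit 778326) (nat_lit 6) (.e (nat_lit 81924) (nat_lit 0) (.e (nat_lit 3630) (nat_lit 227) .nil)))))) (.g (nat_lit 1) (.e (nat_lit 431871) (nat_lit 0) .nil) .nil))) 
(.lf (nat_lit 605732) (.g (nat_lit 2352) (.e (nat_lit 778464) (nat_lit 11) (.e (nat_lit 24616) (nat_lit 7) (.e (nat_lit 319530) (nat_lit 16) (.e (nat_lit 286759) (nat_lit 12) (.e (nat_lit 385115) (nat_lit 53) (.e (nat_lit 811033) (nat_lit 11) (.e (nat_lit 883) (nat_lit 75) .nil))))))) (.g (nat_lit 1) (.e (nat_lit 432630) (nat_lit 0) .nil) .nil)))) (.nd (nat_lit 9) 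
(.lf (nat_lit 605476) (.g (nat_lit 2364) (.e (nat_lit 778462) (nat_lit 11) (.e (nat_lit 24608) (nat_lit 3) (.e (nat_lit 98365) (nat_lit 26) (.e (nat_lit 426306) (nat_lit 12) (.e (nat_lit 475171) (nat_lit 22) (.e (nat_lit 499910) (nat_lit 8) (.e (nat_lit 164035) (nat_lit 55) .nil))))))) (.g (nat_lit 1) (.e (nat_lit 432287) (nat_lit 0) .nil) .nil))) 
(.lf (nat_lit 605988) (.g (nat_lit 3641) (.e (nat_lit 778466) (nat_lit 11) (.e (nat_lit 24608) (nat_lit 3) (.e (nat_lit 98365) (nat_lit 26) (.e (nat_lit 426306) (nat_lit 12) (.e (nat_lit 475177) (nat_lit 24) (.e (nat_lit 516097) (nat_lit 0) (.e (nat_lit 3703) (nat_lit 227) .nil))))))) (.g (nat_lit 1) (.e (nat_lit 432967) (nat_lit 0) .nil) .nil))))) (.nd (nat_lit 8) (.nd (nat_lit 9) 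
(.lf (nat_lit 605348) (.g (nat_lit 2174) (.e (nat_lit 778460) (nat_lit 11) (.e (nat_lit 24655) (nat_lit 13) (.e (nat_lit 393233) (nat_lit 17) (.e (nat_lit 7591) (nat_lit 407) (.e (nat_lit 73776) (nat_lit 26) .nil))))) (.g (nat_lit 0) (.e (nat_lit 432137) (nat_lit 0) .nil) .nil))) 
(.lf (nat_lit 605860) (.g (nat_lit 3118) (.e (nat_lit 778465) (nat_lit 11) (.e (nat_lit 24604) (nat_lit 2) (.e (nat_lit 90170) (nat_lit 13) (.e (nat_lit 172112) (nat_lit 10) .nil)))) (.g (nat_lit 0) (.e (nat_lit 432797) (nat_lit 0) .nil) .nil)))) (.nd (nat_lit 9) 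
(.lf (nat_lit 605604) (.g (nat_lit 2335) (.e (nat_lit 778462) (nat_lit 11) (.e (nat_lit 24628) (nat_lit 9) (.e (nat_lit 336443) (nat_lit 32) (.e (nat_lit 466972) (nat_lit 21) (.e (nat_lit 164332) (nat_lit 230) (.e (nat_lit 163850) (nat_lit 0) (.e (nat_lit 3655) (nat_lit 227) .nil))))))) (.g (nat_lit 1) (.e (nat_lit 432454) (nat_lit 0) .nil) .nil))) 
(.lf (nat_lit 606116) (.g (nat_lit 3039) (.e (nat_lit 778466) (nat_lit 11) (.e (nat_lit 24617) (nat_lit 7) (.e (nat_lit 319534) (nat_lit 16) (.e (nat_lit 286756) (nat_lit 10) (.e (nat_lit 344169) (nat_lit 40) (.e (nat_lit 679680) (nat_lit 16) (.e (nat_lit 123009) (nat_lit 116) .nil))))))) (.g (nat_lit 1) (.e (nat_lit 433146) (nat_lit 0) .nil) .nil)))))) 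
(.nd (nat_lit 7) (.nd (nat_lit 8) (.nd (nat_lit 9) 
(.lf (nat_lit 605284) (.g (nat_lit 1761) (.e (nat_lit 778459) (nat_lit 11) (.e (nat_lit 24628) (nat_lit 9) (.e (nat_lit 336443) (nat_lit 32) (.e (nat_lit 466972) (nat_lit 21) .nil)))) (.g (nat_lit 0) (.e (nat_lit 432060) (nat_lit 0) .nil) .nil))) 
(.lf (nat_lit 605796) (.g (nat_lit 2914) (.e (nat_lit 778464) (nat_lit 11) (.e (nat_lit 24617) (nat_lit 7) (.e (nat_lit 319534) (nat_lit 16) (.e (nat_lit 286756) (nat_lit 10) (.e (nat_lit 344090) (nat_lit 18) (.e (nat_lit 5918) (nat_lit 320) (.e (nat_lit 2610) (nat_lit 163) (.e (nat_lit 164050) (nat_lit 55) .nil)))))))) (.g (nat_lit 1) (.e (nat_lit 432703) (nat_lit 0) .nil) .nil)))) 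
(.nd (nat_lit 9) 
(.lf (nat_lit 605540) (.g (nat_lit 2296) (.e (nat_lit 778462) (nat_lit 11) (.e (nat_lit 24628) (nat_lit 9) (.e (nat_lit 336443) (nat_lit 32) (.e (nat_lit 466969) (nat_lit 21) (.e (nat_lit 164325) (nat_lit 230) (.e (nat_lit 163844) (nat_lit 0) (.e (nat_lit 3656) (nat_lit 227) .nil))))))) (.g (nat_lit 1) (.e (nat_lit 432386) (nat_lit 0) .nil) .nil))) 
(.lf (nat_lit 606052) (.g (nat_lit 1809) (.e (nat_lit 778466) (nat_lit 11) (.e (nat_lit 24617) (nat_lit 7) (.e (nat_lit 319533) (nat_lit 16) (.e (nat_lit 286753) (nat_lit 10) (.e (nat_lit 344160) (nat_lit 37) .nil))))) (.g (nat_lit 0) (.e (nat_lit 433053) (nat_lit 0) .nil) .nil))))) (.nd (nat_lit 8) (.nd (nat_lit 9) 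
(.lf (nat_lit 605412) (.g (nat_lit 925) (.e (nat_lit 778462) (nat_lit 11) (.e (nat_lit 24604) (nat_lit 2) (.e (nat_lit 90185) (nat_lit 17) (.e (nat_lit 237605) (nat_lit 9) .nil)))) (.g (nat_lit 0) (.e (nat_lit 432214) (nat_lit 0) .nil) .nil))) 
(.lf (nat_lit 605924) (.g (nat_lit 530) (.e (nat_lit 778465) (nat_lit 11) (.e (nat_lit 24623) (nat_lit 9) (.e (nat_lit 336242) (nat_lit 15) .nil))) (.g (nat_lit 0) (.e (nat_lit 432862) (nat_lit 0) .nil) .nil)))) (.nd (nat_lit 9) 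
(.lf (nat_lit 605668) (.g (nat_lit 2745) (.e (nat_lit 778462) (nat_lit 11) (.e (nat_lit 24660) (nat_lit 13) (.e (nat_lit 393260) (nat_lit 21) (.e (nat_lit 409616) (nat_lit 10) (.e (nat_lit 4979) (nat_lit 287) .nil))))) (.g (nat_lit 0) (.e (nat_lit 432549) (nat_lit 0) .nil) .nil))) 
(.lf (nat_lit 606180) (.g (nat_lit 770) (.e (nat_lit 778466) (nat_lit 11) (.e (nat_lit 24628) (nat_lit 9) (.e (nat_lit 336392) (nat_lit 27) .nil))) (.g (nat_lit 0) (.e (nat_lit 433216) (nat_lit 0) .nil) .nil)))))))) (.nd (nat_lit 5) (.nd (nat_lit 6) (.nd (nat_lit 7) (.nd (nat_lit 8) (.nd (nat_lit 9) 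
(.lf (nat_lit 605204) (.g (nat_lit 1277) (.e (nat_lit 778326) (nat_lit 6) (.e (nat_lit 81938) (nat_lit 20) (.e (nat_lit 2006) (nat_lit 138) (.e (nat_lit 671747) (nat_lit 0) (.e (nat_lit 1575) (nat_lit 110) .nil))))) (.g (nat_lit 0) (.e (nat_lit 431845) (nat_lit 0) .nil) .nil))) 
(.lf (nat_lit 605716) (.g (nat_lit 4933) (.e (nat_lit 778464) (nat_lit 11) (.e (nat_lit 24604) (nat_lit 2) (.e (nat_lit 90178) (nat_lit 15) (.e (nat_lit 188440) (nat_lit 20) (.e (nat_lit 3307) (nat_lit 202) (.e (nat_lit 573477) (nat_lit 12) (.e (nat_lit 57574) (nat_lit 55) .nil))))))) (.g (nat_lit 1) (.e (nat_lit 432613) (nat_lit 0) .nil) .nil)))) (.nd (nat_lit 9) 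
(.lf (nat_lit 605460) (.g (nat_lit 2158) (.e (nat_lit 778462) (nat_lit 11) (.e (nat_lit 24608) (nat_lit 3) (.e (nat_lit 98365) (nat_lit 26) (.e (nat_lit 426187) (nat_lit 9) (.e (nat_lit 426436) (nat_lit 18) (.e (nat_lit 98321) (nat_lit 17) (.e (nat_lit 3656) (nat_lit 227) .nil))))))) (.g (nat_lit 1) (.e (nat_lit 432271) (nat_lit 0) .nil) .nil))) 
(.lf (nat_lit 605972) (.g (nat_lit 2260) (.e (nat_lit 778466) (nat_lit 11) (.e (nat_lit 24604) (nat_lit 2) (.e (nat_lit 90185) (nat_lit 17) (.e (nat_lit 237605) (nat_lit 9) (.e (nat_lit 426438) (nat_lit 18) (.e (nat_lit 98325) (nat_lit 17) (.e (nat_lit 3719) (nat_lit 227) .nil))))))) (.g (nat_lit 1) (.e (nat_lit 432941) (nat_lit 0) .nil) .nil))))) (.nd (nat_lit 8) (.nd (nat_lit 9) 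
(.lf (nat_lit 605332) (.g (nat_lit 812) (.e (nat_lit 778460) (nat_lit 11) (.e (nat_lit 24625) (nat_lit 9) (.e (nat_lit 336443) (nat_lit 32) .nil))) (.g (nat_lit 0) (.e (nat_lit 432118) (nat_lit 0) .nil) .nil))) 
(.lf (nat_lit 605844) (.g (nat_lit 2702) (.e (nat_lit 778464) (nat_lit 11) (.e (nat_lit 24628) (nat_lit 9) (.e (nat_lit 336443) (nat_lit 32) (.e (nat_lit 466972) (nat_lit 21) (.e (nat_lit 164332) (nat_lit 230) (.e (nat_lit 163852) (nat_lit 0) (.e (nat_lit 3721) (nat_lit 227) .nil))))))) (.g (nat_lit 1) (.e (nat_lit 432756) (nat_lit 0) .nil) .nil)))) (.nd (nat_lit 9) 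
(.lf (nat_lit 605588) (.g (nat_lit 2114) (.e (nat_lit 778462) (nat_lit 11) (.e (nat_lit 24628) (nat_lit 9) (.e (nat_lit 336443) (nat_lit 32) (.e (nat_lit 466972) (nat_lit 21) (.e (nat_lit 164332) (nat_lit 230) (.e (nat_lit 163843) (nat_lit 0) (.e (nat_lit 3654) (nat_lit 227) .nil))))))) (.g (nat_lit 1) (.e (nat_lit 432438) (nat_lit 0) .nil) .nil))) 
(.lf (nat_lit 606100) (.g (nat_lit 2432) (.e (nat_lit 778466) (nat_lit 11) (.e (nat_lit 24617) (nat_lit 7) (.e (nat_lit 319534) (nat_lit 16) (.e (nat_lit 286756) (nat_lit 10) (.e (nat_lit 344168) (nat_lit 40) (.e (nat_lit 671782) (nat_lit 12) (.e (nat_lit 171776) (nat_lit 55) .nil))))))) (.g (nat_lit 1) (.e (nat_lit 433130) (nat_lit 0) .nil) .nil)))))) 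
(.nd (nat_lit 7) (.nd (nat_lit 8) (.nd (nat_lit 9) 
(.lf (nat_lit 605268) (.g (nat_lit 2538) (.e (nat_lit 778362) (nat_lit 9) (.e (nat_lit 232) (nat_lit 21) (.e (nat_lit 336013) (nat_lit 2) (.e (nat_lit 90134) (nat_lit 9) (.e (nat_lit 3025) (nat_lit 187) .nil))))) (.g (nat_lit 0) (.e (nat_lit 431982) (nat_lit 0) .nil) .nil))) 
(.lf (nat_lit 605780) (.g (nat_lit 2228) (.e (nat_lit 778464) (nat_lit 11) (.e (nat_lit 24617) (nat_lit 7) (.e (nat_lit 319533) (nat_lit 16) (.e (nat_lit 286753) (nat_lit 10) (.e (nat_lit 344160) (nat_lit 37) (.e (nat_lit 647195) (nat_lit 9) (.e (nat_lit 982) (nat_lit 81) (.e (nat_lit 2343) (nat_lit 151) .nil)))))))) (.g (nat_lit 1) (.e (nat_lit 432685) (nat_lit 0) .nil) .nil)))) (.nd (nat_lit 9) 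
(.lf (nat_lit 605524) (.g (nat_lit 1656) (.e (nat_lit 778462) (nat_lit 11) (.e (nat_lit 24609) (nat_lit 3) (.e (nat_lit 98372) (nat_lit 29) (.e (nat_lit 450586) (nat_lit 10) (.e (nat_lit 573478) (nat_lit 12) (.e (nat_lit 65280) (nat_lit 55) .nil)))))) (.g (nat_lit 1) (.e (nat_lit 432352) (nat_lit 0) .nil) .nil))) 
(.lf (nat_lit 606036) (.g (nat_lit 1556) (.e (nat_lit 778466) (nat_lit 11) (.e (nat_lit 24617) (nat_lit 7) (.e (nat_lit 319531) (nat_lit 16) (.e (nat_lit 286759) (nat_lit 12) (.e (nat_lit 385113) (nat_lit 53) .nil))))) (.g (nat_lit 0) (.e (nat_lit 433035) (nat_lit 0) .nil) .nil))))) (.nd (nat_lit 8) (.nd (nat_lit 9) 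
(.lf (nat_lit 605396) (.g (nat_lit 2877) (.e (nat_lit 778462) (nat_lit 11) (.e (nat_lit 24604) (nat_lit 2) (.e (nat_lit 90178) (nat_lit 15) (.e (nat_lit 188440) (nat_lit 20) (.e (nat_lit 3307) (nat_lit 202) (.e (nat_lit 573473) (nat_lit 12) (.e (nat_lit 65280) (nat_lit 55) .nil))))))) (.g (nat_lit 1) (.e (nat_lit 432198) (nat_lit 0) .nil) .nil))) 
(.lf (nat_lit 605908) (.g (nat_lit 1499) (.e (nat_lit 778465) (nat_lit 11) (.e (nat_lit 24617) (nat_lit 7) (.e (nat_lit 319533) (nat_lit 16) (.e (nat_lit 286759) (nat_lit 12) .nil)))) (.g (nat_lit 0) (.e (nat_lit 432846) (nat_lit 0) .nil) .nil)))) (.nd (nat_lit 9) 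
(.lf (nat_lit 605652) (.g (nat_lit 1957) (.e (nat_lit 778462) (nat_lit 11) (.e (nat_lit 24658) (nat_lit 13) (.e (nat_lit 393281) (nat_lit 23) (.e (nat_lit 426100) (nat_lit 1) (.e (nat_lit 164332) (nat_lit 230) (.e (nat_lit 163847) (nat_lit 0) (.e (nat_lit 3661) (nat_lit 227) .nil))))))) (.g (nat_lit 1) (.e (nat_lit 432532) (nat_lit 0) .nil) .nil))) 
(.lf (nat_lit 606164) (.g (nat_lit 3058) (.e (nat_lit 778466) (nat_lit 11) (.e (nat_lit 24617) (nat_lit 7) (.e (nat_lit 319534) (nat_lit 16) (.e (nat_lit 286759) (nat_lit 12) (.e (nat_lit 385115) (nat_lit 53) (.e (nat_lit 811031) (nat_lit 11) (.e (nat_lit 883) (nat_lit 75) .nil))))))) (.g (nat_lit 1) (.e (nat_lit 433199) (nat_lit 0) .nil) .nil))))))) 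
(.nd (nat_lit 6) (.nd (nat_lit 7) (.nd (nat_lit 8) (.nd (nat_lit 9) 
(.lf (nat_lit 605236) (.g (nat_lit 2350) (.e (nat_lit 778327) (nat_lit 6) (.e (nat_lit 81957) (nat_lit 24) (.e (nat_lit 123182) (nat_lit 264) (.e (nat_lit 1224) (nat_lit 90) (.e (nat_lit 81922) (nat_lit 0) .nil))))) (.g (nat_lit 0) (.e (nat_lit 431900) (nat_lit 0) .nil) .nil))) 
(.lf (nat_lit 605748) (.g (nat_lit 1319) (.e (nat_lit 778464) (nat_lit 11) (.e (nat_lit 24617) (nat_lit 7) (.e (nat_lit 319530) (nat_lit 16) (.e (nat_lit 286759) (nat_lit 12) .nil)))) (.g (nat_lit 0) (.e (nat_lit 432648) (nat_lit 0) .nil) .nil)))) (.nd (nat_lit 9) 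
(.lf (nat_lit 605492) (.g (nat_lit 2135) (.e (nat_lit 778462) (nat_lit 11) (.e (nat_lit 24608) (nat_lit 3) (.e (nat_lit 98365) (nat_lit 26) (.e (nat_lit 426306) (nat_lit 12) (.e (nat_lit 475177) (nat_lit 24) (.e (nat_lit 516100) (nat_lit 0) (.e (nat_lit 3651) (nat_lit 227) .nil))))))) (.g (nat_lit 1) (.e (nat_lit 432303) (nat_lit 0) .nil) .nil))) 
(.lf (nat_lit 606004) (.g (nat_lit 1549) (.e (nat_lit 778466) (nat_lit 11) (.e (nat_lit 24616) (nat_lit 7) (.e (nat_lit 319530) (nat_lit 16) (.e (nat_lit 286759) (nat_lit 12) (.e (nat_lit 385115) (nat_lit 53) .nil))))) (.g (nat_lit 0) (.e (nat_lit 432985) (nat_lit 0) .nil) .nil))))) (.nd (nat_lit 8) (.nd (nat_lit 9) 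
(.lf (nat_lit 605364) (.g (nat_lit 2540) (.e (nat_lit 778461) (nat_lit 11) (.e (nat_lit 24604) (nat_lit 2) (.e (nat_lit 90170) (nat_lit 13) (.e (nat_lit 172106) (nat_lit 10) (.e (nat_lit 434244) (nat_lit 28) .nil))))) (.g (nat_lit 0) (.e (nat_lit 432159) (nat_lit 0) .nil) .nil))) 
(.lf (nat_lit 605876) (.g (nat_lit 868) (.e (nat_lit 778465) (nat_lit 11) (.e (nat_lit 24608) (nat_lit 3) (.e (nat_lit 98381) (nat_lit 31) .nil))) (.g (nat_lit 0) (.e (nat_lit 432813) (nat_lit 0) .nil) .nil)))) (.nd (nat_lit 9) 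
(.lf (nat_lit 605620) (.g (nat_lit 2136) (.e (nat_lit 778462) (nat_lit 11) (.e (nat_lit 24655) (nat_lit 13) (.e (nat_lit 393299) (nat_lit 27) (.e (nat_lit 491560) (nat_lit 10) (.e (nat_lit 352000) (nat_lit 44) .nil))))) (.g (nat_lit 1) (.e (nat_lit 432482) (nat_lit 0) .nil) .nil))) 
(.lf (nat_lit 606132) (.g (nat_lit 4140) (.e (nat_lit 778466) (nat_lit 11) (.e (nat_lit 24617) (nat_lit 7) (.e (nat_lit 319534) (nat_lit 16) (.e (nat_lit 286756) (nat_lit 10) (.e (nat_lit 344160) (nat_lit 37) (.e (nat_lit 647190) (nat_lit 9) (.e (nat_lit 1029) (nat_lit 81) (.e (nat_lit 2342) (nat_lit 151) .nil)))))))) (.g (nat_lit 1) (.e (nat_lit 433162) (nat_lit 0) .nil) .nil)))))) 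
(.nd (nat_lit 7) (.nd (nat_lit 8) (.nd (nat_lit 9) 
(.lf (nat_lit 605300) (.g (nat_lit 3272) (.e (nat_lit 778459) (nat_lit 11) (.e (nat_lit 24658) (nat_lit 13) (.e (nat_lit 393301) (nat_lit 27) (.e (nat_lit 491560) (nat_lit 10) (.e (nat_lit 352000) (nat_lit 44) .nil))))) (.g (nat_lit 0) (.e (nat_lit 432085) (nat_lit 0) .nil) .nil))) 
(.lf (nat_lit 605812) (.g (nat_lit 2313) (.e (nat_lit 778464) (nat_lit 11) (.e (nat_lit 24617) (nat_lit 7) (.e (nat_lit 319534) (nat_lit 16) (.e (nat_lit 286756) (nat_lit 10) (.e (nat_lit 344160) (nat_lit 37) (.e (nat_lit 647190) (nat_lit 9) (.e (nat_lit 1007) (nat_lit 81) (.e (nat_lit 2328) (nat_lit 151) .nil)))))))) (.g (nat_lit 1) (.e (nat_lit 432721) (nat_lit 0) .nil) .nil)))) 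
(.nd (nat_lit 9) 
(.lf (nat_lit 605556) (.g (nat_lit 1955) (.e (nat_lit 778462) (nat_lit 11) (.e (nat_lit 24628) (nat_lit 9) (.e (nat_lit 336443) (nat_lit 32) (.e (nat_lit 466969) (nat_lit 21) (.e (nat_lit 164332) (nat_lit 230) (.e (nat_lit 163845) (nat_lit 0) (.e (nat_lit 3617) (nat_lit 227) .nil))))))) (.g (nat_lit 1) (.e (nat_lit 432402) (nat_lit 0) .nil) .nil))) 
(.lf (nat_lit 606068) (.g (nat_lit 3828) (.e (nat_lit 778466) (nat_lit 11) (.e (nat_lit 24617) (nat_lit 7) (.e (nat_lit 319533) (nat_lit 16) (.e (nat_lit 286753) (nat_lit 10) (.e (nat_lit 344160) (nat_lit 37) (.e (nat_lit 647196) (nat_lit 9) (.e (nat_lit 990) (nat_lit 81) (.e (nat_lit 2314) (nat_lit 151) .nil)))))))) (.g (nat_lit 1) (.e (nat_lit 433069) (nat_lit 0) .nil) .nil))))) 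
(.nd (nat_lit 8) (.nd (nat_lit 9) 
(.lf (nat_lit 605428) (.g (nat_lit 1725) (.e (nat_lit 778462) (nat_lit 11) (.e (nat_lit 24604) (nat_lit 2) (.e (nat_lit 90185) (nat_lit 17) (.e (nat_lit 237605) (nat_lit 9) (.e (nat_lit 426436) (nat_lit 18) (.e (nat_lit 98321) (nat_lit 17) (.e (nat_lit 3657) (nat_lit 227) .nil))))))) (.g (nat_lit 1) (.e (nat_lit 432230) (nat_lit 0) .nil) .nil))) 
(.lf (nat_lit 605940) (.g (nat_lit 679) (.e (nat_lit 778465) (nat_lit 11) (.e (nat_lit 24640) (nat_lit 10) (.e (nat_lit 344171) (nat_lit 41) (.e (nat_lit 753684) (nat_lit 8) .nil)))) (.g (nat_lit 0) (.e (nat_lit 432878) (nat_lit 0) .nil) .nil)))) (.nd (nat_lit 9) 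
(.lf (nat_lit 605684) (.g (nat_lit 807) (.e (nat_lit 778463) (nat_lit 11) (.e (nat_lit 24607) (nat_lit 3) (.e (nat_lit 98369) (nat_lit 28) .nil))) (.g (nat_lit 0) (.e (nat_lit 432567) (nat_lit 0) .nil) .nil))) 
(.lf (nat_lit 606196) (.g (nat_lit 1744) (.e (nat_lit 778466) (nat_lit 11) (.e (nat_lit 24638) (nat_lit 9) (.e (nat_lit 336405) (nat_lit 27) (.e (nat_lit 426011) (nat_lit 0) (.e (nat_lit 7591) (nat_lit 407) .nil))))) (.g (nat_lit 0) (.e (nat_lit 433232) (nat_lit 0) .nil) .nil))))))))) (.nd (nat_lit 4) (.nd (nat_lit 5) (.nd (nat_lit 6) (.nd (nat_lit 7) (.nd (nat_lit 8) (.nd (nat_lit 9) 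
(.lf (nat_lit 605196) (.g (nat_lit 1010) (.e (nat_lit 778326) (nat_lit 6) (.e (nat_lit 81922) (nat_lit 0) (.e (nat_lit 3631) (nat_lit 227) (.e (nat_lit 778327) (nat_lit 6) .nil)))) (.g (nat_lit 0) (.e (nat_lit 431834) (nat_lit 0) .nil) .nil))) 
(.lf (nat_lit 605708) (.g (nat_lit 2199) (.e (nat_lit 778464) (nat_lit 11) (.e (nat_lit 24603) (nat_lit 2) (.e (nat_lit 90185) (nat_lit 17) (.e (nat_lit 237605) (nat_lit 9) (.e (nat_lit 426436) (nat_lit 18) (.e (nat_lit 98327) (nat_lit 17) (.e (nat_lit 3721) (nat_lit 227) .nil))))))) (.g (nat_lit 1) (.e (nat_lit 432604) (nat_lit 0) .nil) .nil)))) (.nd (nat_lit 9) 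
(.lf (nat_lit 605452) (.g (nat_lit 3070) (.e (nat_lit 778462) (nat_lit 11) (.e (nat_lit 24608) (nat_lit 3) (.e (nat_lit 98365) (nat_lit 26) (.e (nat_lit 426187) (nat_lit 9) (.e (nat_lit 426428) (nat_lit 17) (.e (nat_lit 90165) (nat_lit 12) (.e (nat_lit 164045) (nat_lit 55) .nil))))))) (.g (nat_lit 1) (.e (nat_lit 432263) (nat_lit 0) .nil) .nil))) 
(.lf (nat_lit 605964) (.g (nat_lit 1356) (.e (nat_lit 778466) (nat_lit 11) (.e (nat_lit 24604) (nat_lit 2) (.e (nat_lit 90176) (nat_lit 15) (.e (nat_lit 188439) (nat_lit 20) .nil)))) (.g (nat_lit 0) (.e (nat_lit 432933) (nat_lit 0) .nil) .nil))))) (.nd (nat_lit 8) (.nd (nat_lit 9) 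
(.lf (nat_lit 605324) (.g (nat_lit 3331) (.e (nat_lit 778460) (nat_lit 11) (.e (nat_lit 24608) (nat_lit 3) (.e (nat_lit 98372) (nat_lit 29) (.e (nat_lit 450588) (nat_lit 10) (.e (nat_lit 573475) (nat_lit 12) .nil))))) (.g (nat_lit 0) (.e (nat_lit 432109) (nat_lit 0) .nil) .nil))) 
(.lf (nat_lit 605836) (.g (nat_lit 672) (.e (nat_lit 778464) (nat_lit 11) (.e (nat_lit 24625) (nat_lit 9) (.e (nat_lit 336423) (nat_lit 28) .nil))) (.g (nat_lit 0) (.e (nat_lit 432746) (nat_lit 0) .nil) .nil)))) (.nd (nat_lit 9) 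
(.lf (nat_lit 605580) (.g (nat_lit 1722) (.e (nat_lit 778462) (nat_lit 11) (.e (nat_lit 24628) (nat_lit 9) (.e (nat_lit 336443) (nat_lit 32) (.e (nat_lit 466972) (nat_lit 21) (.e (nat_lit 164332) (nat_lit 230) .nil))))) (.g (nat_lit 0) (.e (nat_lit 432430) (nat_lit 0) .nil) .nil))) 
(.lf (nat_lit 606092) (.g (nat_lit 829) (.e (nat_lit 778466) (nat_lit 11) (.e (nat_lit 24617) (nat_lit 7) (.e (nat_lit 319534) (nat_lit 16) (.e (nat_lit 286756) (nat_lit 10) .nil)))) (.g (nat_lit 0) (.e (nat_lit 433104) (nat_lit 0) .nil) .nil)))))) (.nd (nat_lit 7) (.nd (nat_lit 8) (.nd (nat_lit 9) 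
(.lf (nat_lit 605260) (.g (nat_lit 2704) (.e (nat_lit 778353) (nat_lit 9) (.e (nat_lit 2668) (nat_lit 167) (.e (nat_lit 196656) (nat_lit 11) (.e (nat_lit 16436) (nat_lit 9) (.e (nat_lit 426131) (nat_lit 3) .nil))))) (.g (nat_lit 0) (.e (nat_lit 431971) (nat_lit 0) .nil) .nil))) 
(.lf (nat_lit 605772) (.g (nat_lit 2323) (.e (nat_lit 778464) (nat_lit 11) (.e (nat_lit 24617) (nat_lit 7) (.e (nat_lit 319533) (nat_lit 16) (.e (nat_lit 286753) (nat_lit 10) (.e (nat_lit 344160) (nat_lit 37) (.e (nat_lit 647190) (nat_lit 9) (.e (nat_lit 984) (nat_lit 81) (.e (nat_lit 2308) (nat_lit 151) .nil)))))))) (.g (nat_lit 1) (.e (nat_lit 432677) (nat_lit 0) .nil) .nil)))) (.nd (nat_lit 9) 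
(.lf (nat_lit 605516) (.g (nat_lit 2096) (.e (nat_lit 778462) (nat_lit 11) (.e (nat_lit 24608) (nat_lit 3) (.e (nat_lit 98374) (nat_lit 29) (.e (nat_lit 450586) (nat_lit 10) (.e (nat_lit 573478) (nat_lit 12) .nil))))) (.g (nat_lit 0) (.e (nat_lit 432329) (nat_lit 0) .nil) .nil))) 
(.lf (nat_lit 606028) (.g (nat_lit 3329) (.e (nat_lit 778466) (nat_lit 11) (.e (nat_lit 24617) (nat_lit 7) (.e (nat_lit 319529) (nat_lit 16) (.e (nat_lit 286759) (nat_lit 12) (.e (nat_lit 385115) (nat_lit 53) (.e (nat_lit 811034) (nat_lit 11) (.e (nat_lit 883) (nat_lit 75) .nil))))))) (.g (nat_lit 1) (.e (nat_lit 433023) (nat_lit 0) .nil) .nil))))) (.nd (nat_lit 8) (.nd (nat_lit 9) 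
(.lf (nat_lit 605388) (.g (nat_lit 2995) (.e (nat_lit 778461) (nat_lit 11) (.e (nat_lit 24665) (nat_lit 14) (.e (nat_lit 401414) (nat_lit 0) (.e (nat_lit 3459) (nat_lit 216) .nil)))) (.g (nat_lit 0) (.e (nat_lit 432189) (nat_lit 0) .nil) .nil))) 
(.lf (nat_lit 605900) (.g (nat_lit 2031) (.e (nat_lit 778465) (nat_lit 11) (.e (nat_lit 24617) (nat_lit 7) (.e (nat_lit 319533) (nat_lit 16) (.e (nat_lit 286753) (nat_lit 10) (.e (nat_lit 344168) (nat_lit 40) .nil))))) (.g (nat_lit 0) (.e (nat_lit 432838) (nat_lit 0) .nil) .nil)))) (.nd (nat_lit 9) 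
(.lf (nat_lit 605644) (.g (nat_lit 2037) (.e (nat_lit 778462) (nat_lit 11) (.e (nat_lit 24658) (nat_lit 13) (.e (nat_lit 393281) (nat_lit 23) (.e (nat_lit 426099) (nat_lit 1) (.e (nat_lit 164332) (nat_lit 230) (.e (nat_lit 163847) (nat_lit 0) (.e (nat_lit 3659) (nat_lit 227) .nil))))))) (.g (nat_lit 1) (.e (nat_lit 432522) (nat_lit 0) .nil) .nil))) 
(.lf (nat_lit 606156) (.g (nat_lit 3355) (.e (nat_lit 778466) (nat_lit 11) (.e (nat_lit 24617) (nat_lit 7) (.e (nat_lit 319534) (nat_lit 16) (.e (nat_lit 286756) (nat_lit 10) (.e (nat_lit 344160) (nat_lit 37) (.e (nat_lit 647203) (nat_lit 14) (.e (nat_lit 2508) (nat_lit 157) (.e (nat_lit 879) (nat_lit 75) .nil)))))))) (.g (nat_lit 1) (.e (nat_lit 433187) (nat_lit 0) .nil) .nil))))))) 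
(.nd (nat_lit 6) (.nd (nat_lit 7) (.nd (nat_lit 8) (.nd (nat_lit 9) 
(.lf (nat_lit 605228) (.g (nat_lit 1366) (.e (nat_lit 778327) (nat_lit 6) (.e (nat_lit 81947) (nat_lit 20) (.e (nat_lit 2006) (nat_lit 138) (.e (nat_lit 671764) (nat_lit 6) (.e (nat_lit 81922) (nat_lit 0) .nil))))) (.g (nat_lit 0) (.e (nat_lit 431880) (nat_lit 0) .nil) .nil))) 
(.lf (nat_lit 605740) (.g (nat_lit 2615) (.e (nat_lit 778464) (nat_lit 11) (.e (nat_lit 24617) (nat_lit 7) (.e (nat_lit 319528) (nat_lit 16) (.e (nat_lit 286759) (nat_lit 12) (.e (nat_lit 385115) (nat_lit 53) (.e (nat_lit 811033) (nat_lit 11) (.e (nat_lit 883) (nat_lit 75) .nil))))))) (.g (nat_lit 1) (.e (nat_lit 432639) (nat_lit 0) .nil) .nil)))) (.nd (nat_lit 9) 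
(.lf (nat_lit 605484) (.g (nat_lit 3262) (.e (nat_lit 778462) (nat_lit 11) (.e (nat_lit 24608) (nat_lit 3) (.e (nat_lit 98365) (nat_lit 26) (.e (nat_lit 426306) (nat_lit 12) (.e (nat_lit 475177) (nat_lit 24) (.e (nat_lit 516097) (nat_lit 0) (.e (nat_lit 3654) (nat_lit 227) .nil))))))) (.g (nat_lit 1) (.e (nat_lit 432295) (nat_lit 0) .nil) .nil))) 
(.lf (nat_lit 605996) (.g (nat_lit 3002) (.e (nat_lit 778466) (nat_lit 11) (.e (nat_lit 24608) (nat_lit 3) (.e (nat_lit 98373) (nat_lit 29) (.e (nat_lit 450586) (nat_lit 10) (.e (nat_lit 573478) (nat_lit 12) .nil))))) (.g (nat_lit 0) (.e (nat_lit 432975) (nat_lit 0) .nil) .nil))))) (.nd (nat_lit 8) (.nd (nat_lit 9) 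
(.lf (nat_lit 605356) (.g (nat_lit 1806) (.e (nat_lit 778460) (nat_lit 11) (.e (nat_lit 24658) (nat_lit 13) (.e (nat_lit 393234) (nat_lit 17) (.e (nat_lit 7591) (nat_lit 407) (.e (nat_lit 73775) (nat_lit 26) .nil))))) (.g (nat_lit 0) (.e (nat_lit 432150) (nat_lit 0) .nil) .nil))) 
(.lf (nat_lit 605868) (.g (nat_lit 2000) (.e (nat_lit 778465) (nat_lit 11) (.e (nat_lit 24608) (nat_lit 3) (.e (nat_lit 98365) (nat_lit 26) (.e (nat_lit 426306) (nat_lit 12) (.e (nat_lit 475179) (nat_lit 24) (.e (nat_lit 516105) (nat_lit 0) (.e (nat_lit 3703) (nat_lit 227) .nil))))))) (.g (nat_lit 1) (.e (nat_lit 432805) (nat_lit 0) .nil) .nil)))) (.nd (nat_lit 9) 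
(.lf (nat_lit 605612) (.g (nat_lit 2847) (.e (nat_lit 778462) (nat_lit 11) (.e (nat_lit 24630) (nat_lit 9) (.e (nat_lit 336369) (nat_lit 27) (.e (nat_lit 426173) (nat_lit 7) (.e (nat_lit 409618) (nat_lit 10) (.e (nat_lit 5023) (nat_lit 290) (.e (nat_lit 164103) (nat_lit 116) .nil))))))) (.g (nat_lit 1) (.e (nat_lit 432462) (nat_lit 0) .nil) .nil))) 
(.lf (nat_lit 606124) (.g (nat_lit 3513) (.e (nat_lit 778466) (nat_lit 11) (.e (nat_lit 24617) (nat_lit 7) (.e (nat_lit 319534) (nat_lit 16) (.e (nat_lit 286756) (nat_lit 10) (.e (nat_lit 344160) (nat_lit 37) (.e (nat_lit 647190) (nat_lit 9) (.e (nat_lit 985) (nat_lit 81) (.e (nat_lit 2347) (nat_lit 151) .nil)))))))) (.g (nat_lit 1) (.e (nat_lit 433154) (nat_lit 0) .nil) .nil)))))) 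
(.nd (nat_lit 7) (.nd (nat_lit 8) (.nd (nat_lit 9) 
(.lf (nat_lit 605292) (.g (nat_lit 3601) (.e (nat_lit 778459) (nat_lit 11) (.e (nat_lit 24655) (nat_lit 13) (.e (nat_lit 393301) (nat_lit 27) (.e (nat_lit 491560) (nat_lit 10) (.e (nat_lit 352000) (nat_lit 44) .nil))))) (.g (nat_lit 0) (.e (nat_lit 432075) (nat_lit 0) .nil) .nil))) 
(.lf (nat_lit 605804) (.g (nat_lit 3191) (.e (nat_lit 778464) (nat_lit 11) (.e (nat_lit 24617) (nat_lit 7) (.e (nat_lit 319534) (nat_lit 16) (.e (nat_lit 286756) (nat_lit 10) (.e (nat_lit 344169) (nat_lit 40) (.e (nat_lit 671780) (nat_lit 12) (.e (nat_lit 164050) (nat_lit 55) .nil))))))) (.g (nat_lit 1) (.e (nat_lit 432713) (nat_lit 0) .nil) .nil)))) (.nd (nat_lit 9) 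
(.lf (nat_lit 605548) (.g (nat_lit 2026) (.e (nat_lit 778462) (nat_lit 11) (.e (nat_lit 24628) (nat_lit 9) (.e (nat_lit 336443) (nat_lit 32) (.e (nat_lit 466969) (nat_lit 21) (.e (nat_lit 164332) (nat_lit 230) (.e (nat_lit 163843) (nat_lit 0) (.e (nat_lit 3650) (nat_lit 227) .nil))))))) (.g (nat_lit 1) (.e (nat_lit 432394) (nat_lit 0) .nil) .nil))) 
(.lf (nat_lit 606060) (.g (nat_lit 2949) (.e (nat_lit 778466) (nat_lit 11) (.e (nat_lit 24617) (nat_lit 7) (.e (nat_lit 319533) (nat_lit 16) (.e (nat_lit 286753) (nat_lit 10) (.e (nat_lit 344160) (nat_lit 37) (.e (nat_lit 647190) (nat_lit 9) (.e (nat_lit 1029) (nat_lit 81) (.e (nat_lit 2342) (nat_lit 151) .nil)))))))) (.g (nat_lit 1) (.e (nat_lit 433061) (nat_lit 0) .nil) .nil))))) 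
(.nd (nat_lit 8) (.nd (nat_lit 9) 
(.lf (nat_lit 605420) (.g (nat_lit 2228) (.e (nat_lit 778462) (nat_lit 11) (.e (nat_lit 24604) (nat_lit 2) (.e (nat_lit 90185) (nat_lit 17) (.e (nat_lit 237605) (nat_lit 9) (.e (nat_lit 426436) (nat_lit 18) (.e (nat_lit 98320) (nat_lit 17) (.e (nat_lit 3699) (nat_lit 227) .nil))))))) (.g (nat_lit 1) (.e (nat_lit 432222) (nat_lit 0) .nil) .nil))) 
(.lf (nat_lit 605932) (.g (nat_lit 781) (.e (nat_lit 778465) (nat_lit 11) (.e (nat_lit 24628) (nat_lit 9) (.e (nat_lit 336423) (nat_lit 28) .nil))) (.g (nat_lit 0) (.e (nat_lit 432870) (nat_lit 0) .nil) .nil)))) (.nd (nat_lit 9) 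
(.lf (nat_lit 605676) (.g (nat_lit 3082) (.e (nat_lit 778463) (nat_lit 11) (.e (nat_lit 24604) (nat_lit 2) (.e (nat_lit 90170) (nat_lit 13) (.e (nat_lit 172113) (nat_lit 10) .nil)))) (.g (nat_lit 0) (.e (nat_lit 432557) (nat_lit 0) .nil) .nil))) 
(.lf (nat_lit 606188) (.g (nat_lit 3030) (.e (nat_lit 778466) (nat_lit 11) (.e (nat_lit 24632) (nat_lit 9) (.e (nat_lit 336386) (nat_lit 27) (.e (nat_lit 426011) (nat_lit 0) (.e (nat_lit 7591) (nat_lit 407) (.e (nat_lit 73775) (nat_lit 26) .nil)))))) (.g (nat_lit 1) (.e (nat_lit 433224) (nat_lit 0) .nil) .nil)))))))) 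
(.nd (nat_lit 5) (.nd (nat_lit 6) (.nd (nat_lit 7) (.nd (nat_lit 8) (.nd (nat_lit 9) 
(.lf (nat_lit 605212) (.g (nat_lit 3136) (.e (nat_lit 778326) (nat_lit 6) (.e (nat_lit 81956) (nat_lit 23) (.e (nat_lit 98333) (nat_lit 18) (.e (nat_lit 164182) (nat_lit 154) (.e (nat_lit 57411) (nat_lit 12) .nil))))) (.g (nat_lit 0) (.e (nat_lit 431860) (nat_lit 0) .nil) .nil))) 
(.lf (nat_lit 605724) (.g (nat_lit 2870) (.e (nat_lit 778464) (nat_lit 11) (.e (nat_lit 24608) (nat_lit 3) (.e (nat_lit 98359) (nat_lit 26) (.e (nat_lit 426286) (nat_lit 10) (.e (nat_lit 434248) (nat_lit 28) .nil))))) (.g (nat_lit 0) (.e (nat_lit 432622) (nat_lit 0) .nil) .nil)))) (.nd (nat_lit 9) 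
(.lf (nat_lit 605468) (.g (nat_lit 2543) (.e (nat_lit 778462) (nat_lit 11) (.e (nat_lit 24608) (nat_lit 3) (.e (nat_lit 98365) (nat_lit 26) (.e (nat_lit 426188) (nat_lit 9) (.e (nat_lit 426436) (nat_lit 18) (.e (nat_lit 98320) (nat_lit 17) (.e (nat_lit 3697) (nat_lit 227) .nil))))))) (.g (nat_lit 1) (.e (nat_lit 432279) (nat_lit 0) .nil) .nil))) 
(.lf (nat_lit 605980) (.g (nat_lit 2922) (.e (nat_lit 778466) (nat_lit 11) (.e (nat_lit 24608) (nat_lit 3) (.e (nat_lit 98358) (nat_lit 26) (.e (nat_lit 426272) (nat_lit 10) .nil)))) (.g (nat_lit 0) (.e (nat_lit 432958) (nat_lit 0) .nil) .nil))))) (.nd (nat_lit 8) (.nd (nat_lit 9) 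
(.lf (nat_lit 605340) (.g (nat_lit 1661) (.e (nat_lit 778460) (nat_lit 11) (.e (nat_lit 24628) (nat_lit 9) (.e (nat_lit 336443) (nat_lit 32) (.e (nat_lit 466969) (nat_lit 21) .nil)))) (.g (nat_lit 0) (.e (nat_lit 432127) (nat_lit 0) .nil) .nil))) 
(.lf (nat_lit 605852) (.g (nat_lit 2905) (.e (nat_lit 778465) (nat_lit 11) (.e (nat_lit 24604) (nat_lit 2) (.e (nat_lit 90170) (nat_lit 13) (.e (nat_lit 172106) (nat_lit 10) (.e (nat_lit 434243) (nat_lit 28) .nil))))) (.g (nat_lit 0) (.e (nat_lit 432789) (nat_lit 0) .nil) .nil)))) (.nd (nat_lit 9) 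
(.lf (nat_lit 605596) (.g (nat_lit 2549) (.e (nat_lit 778462) (nat_lit 11) (.e (nat_lit 24628) (nat_lit 9) (.e (nat_lit 336443) (nat_lit 32) (.e (nat_lit 466972) (nat_lit 21) (.e (nat_lit 164332) (nat_lit 230) (.e (nat_lit 163847) (nat_lit 0) (.e (nat_lit 3653) (nat_lit 227) .nil))))))) (.g (nat_lit 1) (.e (nat_lit 432446) (nat_lit 0) .nil) .nil))) 
(.lf (nat_lit 606108) (.g (nat_lit 3318) (.e (nat_lit 778466) (nat_lit 11) (.e (nat_lit 24617) (nat_lit 7) (.e (nat_lit 319534) (nat_lit 16) (.e (nat_lit 286756) (nat_lit 10) (.e (nat_lit 344169) (nat_lit 40) (.e (nat_lit 671770) (nat_lit 9) (.e (nat_lit 2437) (nat_lit 157) (.e (nat_lit 3724) (nat_lit 227) .nil)))))))) (.g (nat_lit 1) (.e (nat_lit 433138) (nat_lit 0) .nil) .nil)))))) 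
(.nd (nat_lit 7) (.nd (nat_lit 8) (.nd (nat_lit 9) 
(.lf (nat_lit 605276) (.g (nat_lit 2191) (.e (nat_lit 778399) (nat_lit 9) (.e (nat_lit 2663) (nat_lit 167) (.e (nat_lit 196654) (nat_lit 11) (.e (nat_lit 16436) (nat_lit 9) (.e (nat_lit 426131) (nat_lit 3) .nil))))) (.g (nat_lit 0) (.e (nat_lit 432037) (nat_lit 0) .nil) .nil))) 
(.lf (nat_lit 605788) (.g (nat_lit 1785) (.e (nat_lit 778464) (nat_lit 11) (.e (nat_lit 24617) (nat_lit 7) (.e (nat_lit 319533) (nat_lit 16) (.e (nat_lit 286754) (nat_lit 10) .nil)))) (.g (nat_lit 0) (.e (nat_lit 432693) (nat_lit 0) .nil) .nil)))) (.nd (nat_lit 9) 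
(.lf (nat_lit 605532) (.g (nat_lit 603) (.e (nat_lit 778462) (nat_lit 11) (.e (nat_lit 24628) (nat_lit 9) (.e (nat_lit 336438) (nat_lit 31) .nil))) (.g (nat_lit 0) (.e (nat_lit 432374) (nat_lit 0) .nil) .nil))) 
(.lf (nat_lit 606044) (.g (nat_lit 1897) (.e (nat_lit 778466) (nat_lit 11) (.e (nat_lit 24617) (nat_lit 7) (.e (nat_lit 319533) (nat_lit 16) (.e (nat_lit 286751) (nat_lit 10) .nil)))) (.g (nat_lit 0) (.e (nat_lit 433044) (nat_lit 0) .nil) .nil))))) (.nd (nat_lit 8) (.nd (nat_lit 9) 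
(.lf (nat_lit 605404) (.g (nat_lit 2431) (.e (nat_lit 778462) (nat_lit 11) (.e (nat_lit 24604) (nat_lit 2) (.e (nat_lit 90185) (nat_lit 17) (.e (nat_lit 237601) (nat_lit 9) (.e (nat_lit 426428) (nat_lit 17) (.e (nat_lit 90165) (nat_lit 12) (.e (nat_lit 164047) (nat_lit 55) .nil))))))) (.g (nat_lit 1) (.e (nat_lit 432206) (nat_lit 0) .nil) .nil))) 
(.lf (nat_lit 605916) (.g (nat_lit 1792) (.e (nat_lit 778465) (nat_lit 11) (.e (nat_lit 24617) (nat_lit 7) (.e (nat_lit 319534) (nat_lit 16) (.e (nat_lit 286756) (nat_lit 10) (.e (nat_lit 344160) (nat_lit 37) .nil))))) (.g (nat_lit 0) (.e (nat_lit 432854) (nat_lit 0) .nil) .nil)))) (.nd (nat_lit 9) 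
(.lf (nat_lit 605660) (.g (nat_lit 2812) (.e (nat_lit 778462) (nat_lit 11) (.e (nat_lit 24658) (nat_lit 13) (.e (nat_lit 393301) (nat_lit 27) (.e (nat_lit 491558) (nat_lit 10) (.e (nat_lit 352000) (nat_lit 44) .nil))))) (.g (nat_lit 1) (.e (nat_lit 432541) (nat_lit 0) .nil) .nil))) 
(.lf (nat_lit 606172) (.g (nat_lit 476) (.e (nat_lit 778466) (nat_lit 11) (.e (nat_lit 24623) (nat_lit 9) (.e (nat_lit 336400) (nat_lit 27) .nil))) (.g (nat_lit 0) (.e (nat_lit 433207) (nat_lit 0) .nil) .nil))))))) (.nd (nat_lit 6) (.nd (nat_lit 7) (.nd (nat_lit 8) (.nd (nat_lit 9) 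
(.lf (nat_lit 605244) (.g (nat_lit 2030) (.e (nat_lit 778327) (nat_lit 6) (.e (nat_lit 81959) (nat_lit 24) (.e (nat_lit 123197) (nat_lit 266) (.e (nat_lit 57435) (nat_lit 17) (.e (nat_lit 376835) (nat_lit 0) (.e (nat_lit 3629) (nat_lit 227) .nil)))))) (.g (nat_lit 1) (.e (nat_lit 431910) (nat_lit 0) .nil) .nil))) 
(.lf (nat_lit 605756) (.g (nat_lit 2663) (.e (nat_lit 778464) (nat_lit 11) (.e (nat_lit 24617) (nat_lit 7) (.e (nat_lit 319531) (nat_lit 16) (.e (nat_lit 286759) (nat_lit 12) (.e (nat_lit 385115) (nat_lit 53) (.e (nat_lit 811033) (nat_lit 11) (.e (nat_lit 883) (nat_lit 75) .nil))))))) (.g (nat_lit 1) (.e (nat_lit 432658) (nat_lit 0) .nil) .nil)))) (.nd (nat_lit 9) 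
(.lf (nat_lit 605500) (.g (nat_lit 1470) (.e (nat_lit 778462) (nat_lit 11) (.e (nat_lit 24608) (nat_lit 3) (.e (nat_lit 98370) (nat_lit 28) (.e (nat_lit 450304) (nat_lit 3) .nil)))) (.g (nat_lit 0) (.e (nat_lit 432313) (nat_lit 0) .nil) .nil))) 
(.lf (nat_lit 606012) (.g (nat_lit 2796) (.e (nat_lit 778466) (nat_lit 11) (.e (nat_lit 24617) (nat_lit 7) (.e (nat_lit 319505) (nat_lit 10) (.e (nat_lit 720) (nat_lit 64) (.e (nat_lit 688177) (nat_lit 16) (.e (nat_lit 65620) (nat_lit 10) (.e (nat_lit 344180) (nat_lit 44) .nil))))))) (.g (nat_lit 1) (.e (nat_lit 432993) (nat_lit 0) .nil) .nil))))) (.nd (nat_lit 8) (.nd (nat_lit 9) 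
(.lf (nat_lit 605372) (.g (nat_lit 2190) (.e (nat_lit 778461) (nat_lit 11) (.e (nat_lit 24655) (nat_lit 13) (.e (nat_lit 393233) (nat_lit 17) (.e (nat_lit 7591) (nat_lit 407) (.e (nat_lit 81664) (nat_lit 26) .nil))))) (.g (nat_lit 1) (.e (nat_lit 432170) (nat_lit 0) .nil) .nil))) 
(.lf (nat_lit 605884) (.g (nat_lit 1134) (.e (nat_lit 778465) (nat_lit 11) (.e (nat_lit 24617) (nat_lit 7) (.e (nat_lit 319529) (nat_lit 16) (.e (nat_lit 286759) (nat_lit 12) .nil)))) (.g (nat_lit 0) (.e (nat_lit 432822) (nat_lit 0) .nil) .nil)))) (.nd (nat_lit 9) 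
(.lf (nat_lit 605628) (.g (nat_lit 2340) (.e (nat_lit 778462) (nat_lit 11) (.e (nat_lit 24658) (nat_lit 13) (.e (nat_lit 393234) (nat_lit 17) (.e (nat_lit 7591) (nat_lit 407) (.e (nat_lit 81664) (nat_lit 26) .nil))))) (.g (nat_lit 1) (.e (nat_lit 432493) (nat_lit 0) .nil) .nil))) 
(.lf (nat_lit 606140) (.g (nat_lit 2477) (.e (nat_lit 778466) (nat_lit 11) (.e (nat_lit 24617) (nat_lit 7) (.e (nat_lit 319534) (nat_lit 16) (.e (nat_lit 286756) (nat_lit 10) (.e (nat_lit 344160) (nat_lit 37) (.e (nat_lit 647194) (nat_lit 9) (.e (nat_lit 991) (nat_lit 81) (.e (nat_lit 2310) (nat_lit 151) .nil)))))))) (.g (nat_lit 1) (.e (nat_lit 433170) (nat_lit 0) .nil) .nil)))))) 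
(.nd (nat_lit 7) (.nd (nat_lit 8) (.nd (nat_lit 9) 
(.lf (nat_lit 605308) (.g (nat_lit 1905) (.e (nat_lit 778459) (nat_lit 11) (.e (nat_lit 24660) (nat_lit 13) (.e (nat_lit 393260) (nat_lit 21) (.e (nat_lit 409617) (nat_lit 10) (.e (nat_lit 4934) (nat_lit 287) .nil))))) (.g (nat_lit 0) (.e (nat_lit 432093) (nat_lit 0) .nil) .nil))) 
(.lf (nat_lit 605820) (.g (nat_lit 2250) (.e (nat_lit 778464) (nat_lit 11) (.e (nat_lit 24617) (nat_lit 7) (.e (nat_lit 319534) (nat_lit 16) (.e (nat_lit 286756) (nat_lit 10) (.e (nat_lit 344160) (nat_lit 37) (.e (nat_lit 647195) (nat_lit 9) (.e (nat_lit 7936) (nat_lit 81) (.e (nat_lit 2351) (nat_lit 151) .nil)))))))) (.g (nat_lit 1) (.e (nat_lit 432729) (nat_lit 0) .nil) .nil)))) 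
(.nd (nat_lit 9) 
(.lf (nat_lit 605564) (.g (nat_lit 2255) (.e (nat_lit 778462) (nat_lit 11) (.e (nat_lit 24628) (nat_lit 9) (.e (nat_lit 336443) (nat_lit 32) (.e (nat_lit 466969) (nat_lit 21) (.e (nat_lit 164332) (nat_lit 230) (.e (nat_lit 163847) (nat_lit 0) (.e (nat_lit 3669) (nat_lit 227) .nil))))))) (.g (nat_lit 1) (.e (nat_lit 432410) (nat_lit 0) .nil) .nil))) 
(.lf (nat_lit 606076) (.g (nat_lit 3639) (.e (nat_lit 778466) (nat_lit 11) (.e (nat_lit 24617) (nat_lit 7) (.e (nat_lit 319533) (nat_lit 16) (.e (nat_lit 286753) (nat_lit 10) (.e (nat_lit 344160) (nat_lit 37) (.e (nat_lit 647195) (nat_lit 9) (.e (nat_lit 1008) (nat_lit 81) (.e (nat_lit 2328) (nat_lit 151) .nil)))))))) (.g (nat_lit 1) (.e (nat_lit 433077) (nat_lit 0) .nil) .nil))))) 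
(.nd (nat_lit 8) (.nd (nat_lit 9) 
(.lf (nat_lit 605436) (.g (nat_lit 1982) (.e (nat_lit 778462) (nat_lit 11) (.e (nat_lit 24604) (nat_lit 2) (.e (nat_lit 90185) (nat_lit 17) (.e (nat_lit 237619) (nat_lit 12) (.e (nat_lit 475177) (nat_lit 24) (.e (nat_lit 516100) (nat_lit 0) (.e (nat_lit 3617) (nat_lit 227) .nil))))))) (.g (nat_lit 1) (.e (nat_lit 432238) (nat_lit 0) .nil) .nil))) 
(.lf (nat_lit 605948) (.g (nat_lit 3197) (.e (nat_lit 778465) (nat_lit 11) (.e (nat_lit 24658) (nat_lit 13) (.e (nat_lit 393301) (nat_lit 27) (.e (nat_lit 491558) (nat_lit 10) (.e (nat_lit 344180) (nat_lit 44) .nil))))) (.g (nat_lit 0) (.e (nat_lit 432887) (nat_lit 0) .nil) .nil)))) (.nd (nat_lit 9) 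
(.lf (nat_lit 605692) (.g (nat_lit 2386) (.e (nat_lit 778463) (nat_lit 11) (.e (nat_lit 24617) (nat_lit 7) (.e (nat_lit 319534) (nat_lit 16) (.e (nat_lit 286756) (nat_lit 10) (.e (nat_lit 344160) (nat_lit 37) .nil))))) (.g (nat_lit 0) (.e (nat_lit 432576) (nat_lit 0) .nil) .nil))) 
(.lf (nat_lit 606204) (.g (nat_lit 1669) (.e (nat_lit 778467) (nat_lit 11) (.e (nat_lit 24628) (nat_lit 9) (.e (nat_lit 336438) (nat_lit 31) (.e (nat_lit 466688) (nat_lit 5) .nil)))) (.g (nat_lit 0) (.e (nat_lit 433247) (nat_lit 0) .nil) .nil))))))))))) (.nd (nat_lit 2) (.nd (nat_lit 3) (.nd (nat_lit 4) (.nd (nat_lit 5) (.nd (nat_lit 6) (.nd (nat_lit 7) (.nd (nat_lit 8) (.nd (nat_lit 9) 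
(.lf (nat_lit 605186) (.g (nat_lit 674) (.e (nat_lit 778325) (nat_lit 6) (.e (nat_lit 81954) (nat_lit 23) (.e (nat_lit 98309) (nat_lit 0) .nil))) (.g (nat_lit 0) (.e (nat_lit 431824) (nat_lit 0) .nil) .nil))) 
(.lf (nat_lit 605698) (.g (nat_lit 1912) (.e (nat_lit 778463) (nat_lit 11) (.e (nat_lit 24657) (nat_lit 13) (.e (nat_lit 393232) (nat_lit 17) (.e (nat_lit 7593) (nat_lit 407) (.e (nat_lit 73775) (nat_lit 26) .nil))))) (.g (nat_lit 1) (.e (nat_lit 432583) (nat_lit 0) .nil) .nil)))) (.nd (nat_lit 9) 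
(.lf (nat_lit 605442) (.g (nat_lit 540) (.e (nat_lit 778462) (nat_lit 11) (.e (nat_lit 24608) (nat_lit 3) (.e (nat_lit 98356) (nat_lit 26) .nil))) (.g (nat_lit 0) (.e (nat_lit 432252) (nat_lit 0) .nil) .nil))) 
(.lf (nat_lit 605954) (.g (nat_lit 3216) (.e (nat_lit 778466) (nat_lit 11) (.e (nat_lit 24604) (nat_lit 2) (.e (nat_lit 90169) (nat_lit 13) (.e (nat_lit 172113) (nat_lit 10) (.e (nat_lit 434247) (nat_lit 28) (.e (nat_lit 573478) (nat_lit 12) (.e (nat_lit 57574) (nat_lit 55) .nil))))))) (.g (nat_lit 1) (.e (nat_lit 432923) (nat_lit 0) .nil) .nil))))) (.nd (nat_lit 8) (.nd (nat_lit 9) 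
(.lf (nat_lit 605314) (.g (nat_lit 2115) (.e (nat_lit 778459) (nat_lit 11) (.e (nat_lit 24660) (nat_lit 13) (.e (nat_lit 393298) (nat_lit 27) (.e (nat_lit 491560) (nat_lit 10) (.e (nat_lit 352000) (nat_lit 44) .nil))))) (.g (nat_lit 0) (.e (nat_lit 432099) (nat_lit 0) .nil) .nil))) 
(.lf (nat_lit 605826) (.g (nat_lit 3792) (.e (nat_lit 778464) (nat_lit 11) (.e (nat_lit 24617) (nat_lit 7) (.e (nat_lit 319534) (nat_lit 16) (.e (nat_lit 286756) (nat_lit 10) (.e (nat_lit 344160) (nat_lit 37) (.e (nat_lit 647203) (nat_lit 14) (.e (nat_lit 2509) (nat_lit 157) (.e (nat_lit 879) (nat_lit 75) .nil)))))))) (.g (nat_lit 1) (.e (nat_lit 432735) (nat_lit 0) .nil) .nil)))) 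
(.nd (nat_lit 9) 
(.lf (nat_lit 605570) (.g (nat_lit 2431) (.e (nat_lit 778462) (nat_lit 11) (.e (nat_lit 24628) (nat_lit 9) (.e (nat_lit 336443) (nat_lit 32) (.e (nat_lit 466971) (nat_lit 21) (.e (nat_lit 164325) (nat_lit 230) (.e (nat_lit 163841) (nat_lit 0) (.e (nat_lit 3617) (nat_lit 227) .nil))))))) (.g (nat_lit 1) (.e (nat_lit 432416) (nat_lit 0) .nil) .nil))) 
(.lf (nat_lit 606082) (.g (nat_lit 1571) (.e (nat_lit 778466) (nat_lit 11) (.e (nat_lit 24617) (nat_lit 7) (.e (nat_lit 319533) (nat_lit 16) (.e (nat_lit 286754) (nat_lit 10) .nil)))) (.g (nat_lit 0) (.e (nat_lit 433083) (nat_lit 0) .nil) .nil)))))) (.nd (nat_lit 7) (.nd (nat_lit 8) (.nd (nat_lit 9) 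
(.lf (nat_lit 605250) (.g (nat_lit 1914) (.e (nat_lit 778340) (nat_lit 9) (.e (nat_lit 301) (nat_lit 22) (.e (nat_lit 344119) (nat_lit 21) (.e (nat_lit 516117) (nat_lit 1) (.e (nat_lit 164226) (nat_lit 181) .nil))))) (.g (nat_lit 0) (.e (nat_lit 431926) (nat_lit 0) .nil) .nil))) 
(.lf (nat_lit 605762) (.g (nat_lit 1799) (.e (nat_lit 778464) (nat_lit 11) (.e (nat_lit 24617) (nat_lit 7) (.e (nat_lit 319533) (nat_lit 16) (.e (nat_lit 286746) (nat_lit 9) .nil)))) (.g (nat_lit 0) (.e (nat_lit 432667) (nat_lit 0) .nil) .nil)))) (.nd (nat_lit 9) 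
(.lf (nat_lit 605506) (.g (nat_lit 2335) (.e (nat_lit 778462) (nat_lit 11) (.e (nat_lit 24608) (nat_lit 3) (.e (nat_lit 98373) (nat_lit 29) (.e (nat_lit 450585) (nat_lit 10) .nil)))) (.g (nat_lit 0) (.e (nat_lit 432319) (nat_lit 0) .nil) .nil))) 
(.lf (nat_lit 606018) (.g (nat_lit 1454) (.e (nat_lit 778466) (nat_lit 11) (.e (nat_lit 24617) (nat_lit 7) (.e (nat_lit 319528) (nat_lit 16) (.e (nat_lit 286759) (nat_lit 12) (.e (nat_lit 385115) (nat_lit 53) .nil))))) (.g (nat_lit 0) (.e (nat_lit 433004) (nat_lit 0) .nil) .nil))))) (.nd (nat_lit 8) (.nd (nat_lit 9) 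
(.lf (nat_lit 605378) (.g (nat_lit 2719) (.e (nat_lit 778461) (nat_lit 11) (.e (nat_lit 24655) (nat_lit 13) (.e (nat_lit 393300) (nat_lit 27) (.e (nat_lit 491556) (nat_lit 9) (.e (nat_lit 335872) (nat_lit 0) .nil))))) (.g (nat_lit 0) (.e (nat_lit 432177) (nat_lit 0) .nil) .nil))) 
(.lf (nat_lit 605890) (.g (nat_lit 3513) (.e (nat_lit 778465) (nat_lit 11) (.e (nat_lit 24617) (nat_lit 7) (.e (nat_lit 319530) (nat_lit 16) (.e (nat_lit 286759) (nat_lit 12) (.e (nat_lit 385115) (nat_lit 53) (.e (nat_lit 811033) (nat_lit 11) (.e (nat_lit 883) (nat_lit 75) .nil))))))) (.g (nat_lit 1) (.e (nat_lit 432828) (nat_lit 0) .nil) .nil)))) (.nd (nat_lit 9) 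
(.lf (nat_lit 605634) (.g (nat_lit 1581) (.e (nat_lit 778462) (nat_lit 11) (.e (nat_lit 24658) (nat_lit 13) (.e (nat_lit 393281) (nat_lit 23) (.e (nat_lit 426099) (nat_lit 1) (.e (nat_lit 164332) (nat_lit 230) (.e (nat_lit 163847) (nat_lit 0) (.e (nat_lit 3647) (nat_lit 227) .nil))))))) (.g (nat_lit 1) (.e (nat_lit 432512) (nat_lit 0) .nil) .nil))) 
(.lf (nat_lit 606146) (.g (nat_lit 2330) (.e (nat_lit 778466) (nat_lit 11) (.e (nat_lit 24617) (nat_lit 7) (.e (nat_lit 319534) (nat_lit 16) (.e (nat_lit 286756) (nat_lit 10) (.e (nat_lit 344160) (nat_lit 37) (.e (nat_lit 647196) (nat_lit 9) (.e (nat_lit 1023) (nat_lit 81) (.e (nat_lit 2342) (nat_lit 151) .nil)))))))) (.g (nat_lit 1) (.e (nat_lit 433176) (nat_lit 0) .nil) .nil))))))) 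
(.nd (nat_lit 6) (.nd (nat_lit 7) (.nd (nat_lit 8) (.nd (nat_lit 9) 
(.lf (nat_lit 605218) (.g (nat_lit 1899) (.e (nat_lit 778326) (nat_lit 6) (.e (nat_lit 81959) (nat_lit 24) (.e (nat_lit 123197) (nat_lit 266) (.e (nat_lit 57436) (nat_lit 17) (.e (nat_lit 376835) (nat_lit 0) (.e (nat_lit 3629) (nat_lit 227) .nil)))))) (.g (nat_lit 1) (.e (nat_lit 431867) (nat_lit 0) .nil) .nil))) 
(.lf (nat_lit 605730) (.g (nat_lit 2374) (.e (nat_lit 778464) (nat_lit 11) (.e (nat_lit 24616) (nat_lit 7) (.e (nat_lit 319530) (nat_lit 16) (.e (nat_lit 286759) (nat_lit 12) (.e (nat_lit 385115) (nat_lit 53) (.e (nat_lit 811031) (nat_lit 11) (.e (nat_lit 883) (nat_lit 75) .nil))))))) (.g (nat_lit 1) (.e (nat_lit 432628) (nat_lit 0) .nil) .nil)))) (.nd (nat_lit 9) 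
(.lf (nat_lit 605474) (.g (nat_lit 2074) (.e (nat_lit 778462) (nat_lit 11) (.e (nat_lit 24608) (nat_lit 3) (.e (nat_lit 98365) (nat_lit 26) (.e (nat_lit 426188) (nat_lit 9) (.e (nat_lit 426438) (nat_lit 18) (.e (nat_lit 98323) (nat_lit 17) (.e (nat_lit 7936) (nat_lit 227) .nil))))))) (.g (nat_lit 1) (.e (nat_lit 432285) (nat_lit 0) .nil) .nil))) 
(.lf (nat_lit 605986) (.g (nat_lit 3270) (.e (nat_lit 778466) (nat_lit 11) (.e (nat_lit 24608) (nat_lit 3) (.e (nat_lit 98365) (nat_lit 26) (.e (nat_lit 426188) (nat_lit 9) (.e (nat_lit 426438) (nat_lit 18) (.e (nat_lit 98323) (nat_lit 17) (.e (nat_lit 3719) (nat_lit 227) .nil))))))) (.g (nat_lit 1) (.e (nat_lit 432965) (nat_lit 0) .nil) .nil))))) (.nd (nat_lit 8) (.nd (nat_lit 9) 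
(.lf (nat_lit 605346) (.g (nat_lit 2639) (.e (nat_lit 778460) (nat_lit 11) (.e (nat_lit 24628) (nat_lit 9) (.e (nat_lit 336443) (nat_lit 32) (.e (nat_lit 466972) (nat_lit 21) (.e (nat_lit 164332) (nat_lit 230) (.e (nat_lit 163852) (nat_lit 0) (.e (nat_lit 3721) (nat_lit 227) .nil))))))) (.g (nat_lit 1) (.e (nat_lit 432133) (nat_lit 0) .nil) .nil))) 
(.lf (nat_lit 605858) (.g (nat_lit 3028) (.e (nat_lit 778465) (nat_lit 11) (.e (nat_lit 24604) (nat_lit 2) (.e (nat_lit 90170) (nat_lit 13) (.e (nat_lit 172107) (nat_lit 10) .nil)))) (.g (nat_lit 0) (.e (nat_lit 432795) (nat_lit 0) .nil) .nil)))) (.nd (nat_lit 9) 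
(.lf (nat_lit 605602) (.g (nat_lit 2682) (.e (nat_lit 778462) (nat_lit 11) (.e (nat_lit 24628) (nat_lit 9) (.e (nat_lit 336443) (nat_lit 32) (.e (nat_lit 466972) (nat_lit 21) (.e (nat_lit 164332) (nat_lit 230) (.e (nat_lit 163847) (nat_lit 0) (.e (nat_lit 3659) (nat_lit 227) .nil))))))) (.g (nat_lit 1) (.e (nat_lit 432452) (nat_lit 0) .nil) .nil))) 
(.lf (nat_lit 606114) (.g (nat_lit 2607) (.e (nat_lit 778466) (nat_lit 11) (.e (nat_lit 24617) (nat_lit 7) (.e (nat_lit 319534) (nat_lit 16) (.e (nat_lit 286756) (nat_lit 10) (.e (nat_lit 344169) (nat_lit 40) (.e (nat_lit 671786) (nat_lit 14) (.e (nat_lit 1014) (nat_lit 81) (.e (nat_lit 917) (nat_lit 75) .nil)))))))) (.g (nat_lit 1) (.e (nat_lit 433144) (nat_lit 0) .nil) .nil)))))) 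
(.nd (nat_lit 7) (.nd (nat_lit 8) (.nd (nat_lit 9) 
(.lf (nat_lit 605282) (.g (nat_lit 4267) (.e (nat_lit 778459) (nat_lit 11) (.e (nat_lit 24608) (nat_lit 3) (.e (nat_lit 98373) (nat_lit 29) (.e (nat_lit 450588) (nat_lit 10) (.e (nat_lit 573475) (nat_lit 12) .nil))))) (.g (nat_lit 0) (.e (nat_lit 432057) (nat_lit 0) .nil) .nil))) 
(.lf (nat_lit 605794) (.g (nat_lit 2770) (.e (nat_lit 778464) (nat_lit 11) (.e (nat_lit 24617) (nat_lit 7) (.e (nat_lit 319534) (nat_lit 16) (.e (nat_lit 286749) (nat_lit 9) (.e (nat_lit 335907) (nat_lit 0) .nil))))) (.g (nat_lit 0) (.e (nat_lit 432701) (nat_lit 0) .nil) .nil)))) (.nd (nat_lit 9) 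
(.lf (nat_lit 605538) (.g (nat_lit 2504) (.e (nat_lit 778462) (nat_lit 11) (.e (nat_lit 24628) (nat_lit 9) (.e (nat_lit 336443) (nat_lit 32) (.e (nat_lit 466969) (nat_lit 21) (.e (nat_lit 164325) (nat_lit 230) (.e (nat_lit 163841) (nat_lit 0) (.e (nat_lit 3617) (nat_lit 227) .nil))))))) (.g (nat_lit 1) (.e (nat_lit 432384) (nat_lit 0) .nil) .nil))) 
(.lf (nat_lit 606050) (.g (nat_lit 3483) (.e (nat_lit 778466) (nat_lit 11) (.e (nat_lit 24617) (nat_lit 7) (.e (nat_lit 319533) (nat_lit 16) (.e (nat_lit 286753) (nat_lit 10) (.e (nat_lit 344169) (nat_lit 40) (.e (nat_lit 671780) (nat_lit 12) (.e (nat_lit 164050) (nat_lit 55) .nil))))))) (.g (nat_lit 1) (.e (nat_lit 433051) (nat_lit 0) .nil) .nil))))) (.nd (nat_lit 8) (.nd (nat_lit 9) 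
(.lf (nat_lit 605410) (.g (nat_lit 1626) (.e (nat_lit 778462) (nat_lit 11) (.e (nat_lit 24604) (nat_lit 2) (.e (nat_lit 90185) (nat_lit 17) (.e (nat_lit 237601) (nat_lit 9) (.e (nat_lit 426436) (nat_lit 18) (.e (nat_lit 98321) (nat_lit 17) (.e (nat_lit 3656) (nat_lit 227) .nil))))))) (.g (nat_lit 1) (.e (nat_lit 432212) (nat_lit 0) .nil) .nil))) 
(.lf (nat_lit 605922) (.g (nat_lit 1752) (.e (nat_lit 778465) (nat_lit 11) (.e (nat_lit 24617) (nat_lit 7) (.e (nat_lit 319534) (nat_lit 16) (.e (nat_lit 286759) (nat_lit 12) (.e (nat_lit 385115) (nat_lit 53) .nil))))) (.g (nat_lit 0) (.e (nat_lit 432860) (nat_lit 0) .nil) .nil)))) (.nd (nat_lit 9) 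
(.lf (nat_lit 605666) (.g (nat_lit 1753) (.e (nat_lit 778462) (nat_lit 11) (.e (nat_lit 24660) (nat_lit 13) (.e (nat_lit 393259) (nat_lit 21) (.e (nat_lit 409618) (nat_lit 10) (.e (nat_lit 5024) (nat_lit 290) .nil))))) (.g (nat_lit 0) (.e (nat_lit 432547) (nat_lit 0) .nil) .nil))) 
(.lf (nat_lit 606178) (.g (nat_lit 770) (.e (nat_lit 778466) (nat_lit 11) (.e (nat_lit 24628) (nat_lit 9) (.e (nat_lit 336381) (nat_lit 27) .nil))) (.g (nat_lit 0) (.e (nat_lit 433214) (nat_lit 0) .nil) .nil)))))))) (.nd (nat_lit 5) (.nd (nat_lit 6) (.nd (nat_lit 7) (.nd (nat_lit 8) (.nd (nat_lit 9) 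
(.lf (nat_lit 605202) (.g (nat_lit 958) (.e (nat_lit 778326) (nat_lit 6) (.e (nat_lit 81938) (nat_lit 20) (.e (nat_lit 2005) (nat_lit 138) (.e (nat_lit 671764) (nat_lit 6) (.e (nat_lit 81922) (nat_lit 0) .nil))))) (.g (nat_lit 0) (.e (nat_lit 431843) (nat_lit 0) .nil) .nil))) 
(.lf (nat_lit 605714) (.g (nat_lit 1715) (.e (nat_lit 778464) (nat_lit 11) (.e (nat_lit 24604) (nat_lit 2) (.e (nat_lit 90178) (nat_lit 15) (.e (nat_lit 188436) (nat_lit 20) (.e (nat_lit 3307) (nat_lit 202) .nil))))) (.g (nat_lit 0) (.e (nat_lit 432611) (nat_lit 0) .nil) .nil)))) (.nd (nat_lit 9) 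
(.lf (nat_lit 605458) (.g (nat_lit 2364) (.e (nat_lit 778462) (nat_lit 11) (.e (nat_lit 24608) (nat_lit 3) (.e (nat_lit 98365) (nat_lit 26) (.e (nat_lit 426187) (nat_lit 9) (.e (nat_lit 426436) (nat_lit 18) (.e (nat_lit 98321) (nat_lit 17) (.e (nat_lit 3648) (nat_lit 227) .nil))))))) (.g (nat_lit 1) (.e (nat_lit 432269) (nat_lit 0) .nil) .nil))) 
(.lf (nat_lit 605970) (.g (nat_lit 2991) (.e (nat_lit 778466) (nat_lit 11) (.e (nat_lit 24604) (nat_lit 2) (.e (nat_lit 90185) (nat_lit 17) (.e (nat_lit 237601) (nat_lit 9) (.e (nat_lit 426436) (nat_lit 18) (.e (nat_lit 98325) (nat_lit 17) (.e (nat_lit 3719) (nat_lit 227) .nil))))))) (.g (nat_lit 1) (.e (nat_lit 432939) (nat_lit 0) .nil) .nil))))) (.nd (nat_lit 8) (.nd (nat_lit 9) 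
(.lf (nat_lit 605330) (.g (nat_lit 1438) (.e (nat_lit 778460) (nat_lit 11) (.e (nat_lit 24617) (nat_lit 7) (.e (nat_lit 319534) (nat_lit 16) (.e (nat_lit 286759) (nat_lit 12) .nil)))) (.g (nat_lit 0) (.e (nat_lit 432115) (nat_lit 0) .nil) .nil))) 
(.lf (nat_lit 605842) (.g (nat_lit 704) (.e (nat_lit 778464) (nat_lit 11) (.e (nat_lit 24628) (nat_lit 9) (.e (nat_lit 336421) (nat_lit 28) .nil))) (.g (nat_lit 0) (.e (nat_lit 432754) (nat_lit 0) .nil) .nil)))) (.nd (nat_lit 9) 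
(.lf (nat_lit 605586) (.g (nat_lit 3391) (.e (nat_lit 778462) (nat_lit 11) (.e (nat_lit 24628) (nat_lit 9) (.e (nat_lit 336443) (nat_lit 32) (.e (nat_lit 466972) (nat_lit 21) (.e (nat_lit 164332) (nat_lit 230) (.e (nat_lit 163843) (nat_lit 0) (.e (nat_lit 3653) (nat_lit 227) .nil))))))) (.g (nat_lit 1) (.e (nat_lit 432436) (nat_lit 0) .nil) .nil))) 
(.lf (nat_lit 606098) (.g (nat_lit 2960) (.e (nat_lit 778466) (nat_lit 11) (.e (nat_lit 24617) (nat_lit 7) (.e (nat_lit 319534) (nat_lit 16) (.e (nat_lit 286756) (nat_lit 10) (.e (nat_lit 344168) (nat_lit 40) (.e (nat_lit 671781) (nat_lit 12) (.e (nat_lit 164050) (nat_lit 55) .nil))))))) (.g (nat_lit 1) (.e (nat_lit 433128) (nat_lit 0) .nil) .nil)))))) 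
(.nd (nat_lit 7) (.nd (nat_lit 8) (.nd (nat_lit 9) 
(.lf (nat_lit 605266) (.g (nat_lit 582) (.e (nat_lit 778361) (nat_lit 9) (.e (nat_lit 232) (nat_lit 21) (.e (nat_lit 336089) (nat_lit 9) .nil))) (.g (nat_lit 0) (.e (nat_lit 431978) (nat_lit 0) .nil) .nil))) 
(.lf (nat_lit 605778) (.g (nat_lit 2499) (.e (nat_lit 778464) (nat_lit 11) (.e (nat_lit 24617) (nat_lit 7) (.e (nat_lit 319533) (nat_lit 16) (.e (nat_lit 286753) (nat_lit 10) (.e (nat_lit 344160) (nat_lit 37) (.e (nat_lit 647196) (nat_lit 9) (.e (nat_lit 991) (nat_lit 81) (.e (nat_lit 2349) (nat_lit 151) .nil)))))))) (.g (nat_lit 1) (.e (nat_lit 432683) (nat_lit 0) .nil) .nil)))) (.nd (nat_lit 9) 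
(.lf (nat_lit 605522) (.g (nat_lit 2208) (.e (nat_lit 778462) (nat_lit 11) (.e (nat_lit 24609) (nat_lit 3) (.e (nat_lit 98372) (nat_lit 29) (.e (nat_lit 450586) (nat_lit 10) (.e (nat_lit 573475) (nat_lit 12) (.e (nat_lit 65280) (nat_lit 55) .nil)))))) (.g (nat_lit 1) (.e (nat_lit 432350) (nat_lit 0) .nil) .nil))) 
(.lf (nat_lit 606034) (.g (nat_lit 3499) (.e (nat_lit 778466) (nat_lit 11) (.e (nat_lit 24617) (nat_lit 7) (.e (nat_lit 319530) (nat_lit 16) (.e (nat_lit 286759) (nat_lit 12) (.e (nat_lit 385115) (nat_lit 53) (.e (nat_lit 811034) (nat_lit 11) (.e (nat_lit 883) (nat_lit 75) .nil))))))) (.g (nat_lit 1) (.e (nat_lit 433032) (nat_lit 0) .nil) .nil))))) (.nd (nat_lit 8) (.nd (nat_lit 9) 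
(.lf (nat_lit 605394) (.g (nat_lit 886) (.e (nat_lit 778462) (nat_lit 11) (.e (nat_lit 24604) (nat_lit 2) (.e (nat_lit 90178) (nat_lit 15) (.e (nat_lit 188442) (nat_lit 20) .nil)))) (.g (nat_lit 0) (.e (nat_lit 432196) (nat_lit 0) .nil) .nil))) 
(.lf (nat_lit 605906) (.g (nat_lit 1578) (.e (nat_lit 778465) (nat_lit 11) (.e (nat_lit 24617) (nat_lit 7) (.e (nat_lit 319533) (nat_lit 16) (.e (nat_lit 286758) (nat_lit 12) .nil)))) (.g (nat_lit 0) (.e (nat_lit 432844) (nat_lit 0) .nil) .nil)))) (.nd (nat_lit 9) 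
(.lf (nat_lit 605650) (.g (nat_lit 1862) (.e (nat_lit 778462) (nat_lit 11) (.e (nat_lit 24658) (nat_lit 13) (.e (nat_lit 393281) (nat_lit 23) (.e (nat_lit 426100) (nat_lit 1) (.e (nat_lit 164332) (nat_lit 230) (.e (nat_lit 163847) (nat_lit 0) (.e (nat_lit 3653) (nat_lit 227) .nil))))))) (.g (nat_lit 1) (.e (nat_lit 432530) (nat_lit 0) .nil) .nil))) 
(.lf (nat_lit 606162) (.g (nat_lit 2280) (.e (nat_lit 778466) (nat_lit 11) (.e (nat_lit 24617) (nat_lit 7) (.e (nat_lit 319534) (nat_lit 16) (.e (nat_lit 286759) (nat_lit 12) (.e (nat_lit 385113) (nat_lit 53) (.e (nat_lit 811031) (nat_lit 11) (.e (nat_lit 883) (nat_lit 75) .nil))))))) (.g (nat_lit 1) (.e (nat_lit 433196) (nat_lit 0) .nil) .nil))))))) 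
(.nd (nat_lit 6) (.nd (nat_lit 7) (.nd (nat_lit 8) (.nd (nat_lit 9) 
(.lf (nat_lit 605234) (.g (nat_lit 978) (.e (nat_lit 778327) (nat_lit 6) (.e (nat_lit 81953) (nat_lit 22) (.e (nat_lit 90202) (nat_lit 21) .nil))) (.g (nat_lit 0) (.e (nat_lit 431887) (nat_lit 0) .nil) .nil))) 
(.lf (nat_lit 605746) (.g (nat_lit 2048) (.e (nat_lit 778464) (nat_lit 11) (.e (nat_lit 24617) (nat_lit 7) (.e (nat_lit 319529) (nat_lit 16) (.e (nat_lit 286759) (nat_lit 12) (.e (nat_lit 385115) (nat_lit 53) (.e (nat_lit 811034) (nat_lit 11) (.e (nat_lit 879) (nat_lit 75) .nil))))))) (.g (nat_lit 1) (.e (nat_lit 432646) (nat_lit 0) .nil) .nil)))) (.nd (nat_lit 9) 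
(.lf (nat_lit 605490) (.g (nat_lit 3372) (.e (nat_lit 778462) (nat_lit 11) (.e (nat_lit 24608) (nat_lit 3) (.e (nat_lit 98365) (nat_lit 26) (.e (nat_lit 426306) (nat_lit 12) (.e (nat_lit 475177) (nat_lit 24) (.e (nat_lit 516097) (nat_lit 0) (.e (nat_lit 3660) (nat_lit 227) .nil))))))) (.g (nat_lit 1) (.e (nat_lit 432301) (nat_lit 0) .nil) .nil))) 
(.lf (nat_lit 606002) (.g (nat_lit 2547) (.e (nat_lit 778466) (nat_lit 11) (.e (nat_lit 24616) (nat_lit 7) (.e (nat_lit 319530) (nat_lit 16) (.e (nat_lit 286759) (nat_lit 12) (.e (nat_lit 385094) (nat_lit 49) (.e (nat_lit 778548) (nat_lit 14) (.e (nat_lit 1015) (nat_lit 81) (.e (nat_lit 917) (nat_lit 75) .nil)))))))) (.g (nat_lit 1) (.e (nat_lit 432983) (nat_lit 0) .nil) .nil))))) 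
(.nd (nat_lit 8) (.nd (nat_lit 9) 
(.lf (nat_lit 605362) (.g (nat_lit 2393) (.e (nat_lit 778460) (nat_lit 11) (.e (nat_lit 24658) (nat_lit 13) (.e (nat_lit 393301) (nat_lit 27) (.e (nat_lit 491559) (nat_lit 10) (.e (nat_lit 352000) (nat_lit 44) .nil))))) (.g (nat_lit 0) (.e (nat_lit 432156) (nat_lit 0) .nil) .nil))) 
(.lf (nat_lit 605874) (.g (nat_lit 3039) (.e (nat_lit 778465) (nat_lit 11) (.e (nat_lit 24608) (nat_lit 3) (.e (nat_lit 98373) (nat_lit 29) (.e (nat_lit 450586) (nat_lit 10) (.e (nat_lit 573478) (nat_lit 12) .nil))))) (.g (nat_lit 0) (.e (nat_lit 432811) (nat_lit 0) .nil) .nil)))) (.nd (nat_lit 9) 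
(.lf (nat_lit 605618) (.g (nat_lit 717) (.e (nat_lit 778462) (nat_lit 11) (.e (nat_lit 24655) (nat_lit 13) (.e (nat_lit 393298) (nat_lit 27) .nil))) (.g (nat_lit 0) (.e (nat_lit 432480) (nat_lit 0) .nil) .nil))) 
(.lf (nat_lit 606130) (.g (nat_lit 3732) (.e (nat_lit 778466) (nat_lit 11) (.e (nat_lit 24617) (nat_lit 7) (.e (nat_lit 319534) (nat_lit 16) (.e (nat_lit 286756) (nat_lit 10) (.e (nat_lit 344160) (nat_lit 37) (.e (nat_lit 647190) (nat_lit 9) (.e (nat_lit 1025) (nat_lit 81) (.e (nat_lit 2346) (nat_lit 151) .nil)))))))) (.g (nat_lit 1) (.e (nat_lit 433160) (nat_lit 0) .nil) .nil)))))) 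
(.nd (nat_lit 7) (.nd (nat_lit 8) (.nd (nat_lit 9) 
(.lf (nat_lit 605298) (.g (nat_lit 3417) (.e (nat_lit 778459) (nat_lit 11) (.e (nat_lit 24658) (nat_lit 13) (.e (nat_lit 393301) (nat_lit 27) (.e (nat_lit 491558) (nat_lit 10) (.e (nat_lit 352000) (nat_lit 44) .nil))))) (.g (nat_lit 0) (.e (nat_lit 432083) (nat_lit 0) .nil) .nil))) 
(.lf (nat_lit 605810) (.g (nat_lit 2538) (.e (nat_lit 778464) (nat_lit 11) (.e (nat_lit 24617) (nat_lit 7) (.e (nat_lit 319534) (nat_lit 16) (.e (nat_lit 286756) (nat_lit 10) (.e (nat_lit 344160) (nat_lit 37) (.e (nat_lit 647190) (nat_lit 9) (.e (nat_lit 1005) (nat_lit 81) (.e (nat_lit 2343) (nat_lit 151) .nil)))))))) (.g (nat_lit 1) (.e (nat_lit 432719) (nat_lit 0) .nil) .nil)))) 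
(.nd (nat_lit 9) 
(.lf (nat_lit 605554) (.g (nat_lit 2127) (.e (nat_lit 778462) (nat_lit 11) (.e (nat_lit 24628) (nat_lit 9) (.e (nat_lit 336443) (nat_lit 32) (.e (nat_lit 466969) (nat_lit 21) (.e (nat_lit 164332) (nat_lit 230) (.e (nat_lit 163843) (nat_lit 0) (.e (nat_lit 3661) (nat_lit 227) .nil))))))) (.g (nat_lit 1) (.e (nat_lit 432400) (nat_lit 0) .nil) .nil))) 
(.lf (nat_lit 606066) (.g (nat_lit 2860) (.e (nat_lit 778466) (nat_lit 11) (.e (nat_lit 24617) (nat_lit 7) (.e (nat_lit 319533) (nat_lit 16) (.e (nat_lit 286753) (nat_lit 10) (.e (nat_lit 344160) (nat_lit 37) (.e (nat_lit 647190) (nat_lit 9) (.e (nat_lit 1036) (nat_lit 81) (.e (nat_lit 2342) (nat_lit 151) .nil)))))))) (.g (nat_lit 1) (.e (nat_lit 433067) (nat_lit 0) .nil) .nil))))) 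
(.nd (nat_lit 8) (.nd (nat_lit 9) 
(.lf (nat_lit 605426) (.g (nat_lit 1735) (.e (nat_lit 778462) (nat_lit 11) (.e (nat_lit 24604) (nat_lit 2) (.e (nat_lit 90185) (nat_lit 17) (.e (nat_lit 237605) (nat_lit 9) (.e (nat_lit 426436) (nat_lit 18) (.e (nat_lit 98321) (nat_lit 17) (.e (nat_lit 3661) (nat_lit 227) .nil))))))) (.g (nat_lit 1) (.e (nat_lit 432228) (nat_lit 0) .nil) .nil))) 
(.lf (nat_lit 605938) (.g (nat_lit 3913) (.e (nat_lit 778465) (nat_lit 11) (.e (nat_lit 24631) (nat_lit 9) (.e (nat_lit 336412) (nat_lit 27) (.e (nat_lit 426011) (nat_lit 0) (.e (nat_lit 7593) (nat_lit 407) (.e (nat_lit 73775) (nat_lit 26) .nil)))))) (.g (nat_lit 1) (.e (nat_lit 432876) (nat_lit 0) .nil) .nil)))) (.nd (nat_lit 9) 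
(.lf (nat_lit 605682) (.g (nat_lit 2135) (.e (nat_lit 778463) (nat_lit 11) (.e (nat_lit 24606) (nat_lit 3) (.e (nat_lit 98373) (nat_lit 29) (.e (nat_lit 450587) (nat_lit 10) (.e (nat_lit 573477) (nat_lit 12) .nil))))) (.g (nat_lit 0) (.e (nat_lit 432565) (nat_lit 0) .nil) .nil))) 
(.lf (nat_lit 606194) (.g (nat_lit 135) (.e (nat_lit 778466) (nat_lit 11) (.e (nat_lit 24636) (nat_lit 9) (.e (nat_lit 336051) (nat_lit 6) .nil))) (.g (nat_lit 0) (.e (nat_lit 433230) (nat_lit 0) .nil) .nil))))))))) (.nd (nat_lit 4) (.nd (nat_lit 5) (.nd (nat_lit 6) (.nd (nat_lit 7) (.nd (nat_lit 8) (.nd (nat_lit 9) 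
(.lf (nat_lit 605194) (.g (nat_lit 973) (.e (nat_lit 778326) (nat_lit 6) (.e (nat_lit 81922) (nat_lit 0) (.e (nat_lit 3631) (nat_lit 227) (.e (nat_lit 778326) (nat_lit 6) .nil)))) (.g (nat_lit 0) (.e (nat_lit 431832) (nat_lit 0) .nil) .nil))) 
(.lf (nat_lit 605706) (.g (nat_lit 658) (.e (nat_lit 778464) (nat_lit 11) (.e (nat_lit 24603) (nat_lit 2) (.e (nat_lit 90176) (nat_lit 15) (.e (nat_lit 196352) (nat_lit 3) .nil)))) (.g (nat_lit 0) (.e (nat_lit 432602) (nat_lit 0) .nil) .nil)))) (.nd (nat_lit 9) 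
(.lf (nat_lit 605450) (.g (nat_lit 2268) (.e (nat_lit 778462) (nat_lit 11) (.e (nat_lit 24608) (nat_lit 3) (.e (nat_lit 98363) (nat_lit 26) (.e (nat_lit 426318) (nat_lit 12) (.e (nat_lit 475179) (nat_lit 24) (.e (nat_lit 516100) (nat_lit 0) (.e (nat_lit 3651) (nat_lit 227) .nil))))))) (.g (nat_lit 1) (.e (nat_lit 432261) (nat_lit 0) .nil) .nil))) 
(.lf (nat_lit 605962) (.g (nat_lit 1888) (.e (nat_lit 778466) (nat_lit 11) (.e (nat_lit 24604) (nat_lit 2) (.e (nat_lit 90170) (nat_lit 13) (.e (nat_lit 172115) (nat_lit 10) .nil)))) (.g (nat_lit 0) (.e (nat_lit 432931) (nat_lit 0) .nil) .nil))))) (.nd (nat_lit 8) (.nd (nat_lit 9) 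
(.lf (nat_lit 605322) (.g (nat_lit 1189) (.e (nat_lit 778460) (nat_lit 11) (.e (nat_lit 24608) (nat_lit 3) (.e (nat_lit 98372) (nat_lit 29) (.e (nat_lit 450586) (nat_lit 10) .nil)))) (.g (nat_lit 0) (.e (nat_lit 432107) (nat_lit 0) .nil) .nil))) 
(.lf (nat_lit 605834) (.g (nat_lit 1440) (.e (nat_lit 778464) (nat_lit 11) (.e (nat_lit 24625) (nat_lit 9) (.e (nat_lit 336414) (nat_lit 27) (.e (nat_lit 425987) (nat_lit 0) .nil)))) (.g (nat_lit 0) (.e (nat_lit 432744) (nat_lit 0) .nil) .nil)))) (.nd (nat_lit 9) 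
(.lf (nat_lit 605578) (.g (nat_lit 1918) (.e (nat_lit 778462) (nat_lit 11) (.e (nat_lit 24628) (nat_lit 9) (.e (nat_lit 336443) (nat_lit 32) (.e (nat_lit 466972) (nat_lit 21) (.e (nat_lit 164329) (nat_lit 230) (.e (nat_lit 163850) (nat_lit 0) (.e (nat_lit 3667) (nat_lit 227) .nil))))))) (.g (nat_lit 1) (.e (nat_lit 432428) (nat_lit 0) .nil) .nil))) 
(.lf (nat_lit 606090) (.g (nat_lit 1915) (.e (nat_lit 778466) (nat_lit 11) (.e (nat_lit 24617) (nat_lit 7) (.e (nat_lit 319534) (nat_lit 16) (.e (nat_lit 286752) (nat_lit 10) .nil)))) (.g (nat_lit 0) (.e (nat_lit 433102) (nat_lit 0) .nil) .nil)))))) (.nd (nat_lit 7) (.nd (nat_lit 8) (.nd (nat_lit 9) 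
(.lf (nat_lit 605258) (.g (nat_lit 3799) (.e (nat_lit 778336) (nat_lit 9) (.e (nat_lit 2668) (nat_lit 167) (.e (nat_lit 196666) (nat_lit 13) (.e (nat_lit 65571) (nat_lit 3) (.e (nat_lit 98345) (nat_lit 22) .nil))))) (.g (nat_lit 0) (.e (nat_lit 431944) (nat_lit 0) .nil) .nil))) 
(.lf (nat_lit 605770) (.g (nat_lit 2240) (.e (nat_lit 778464) (nat_lit 11) (.e (nat_lit 24617) (nat_lit 7) (.e (nat_lit 319533) (nat_lit 16) (.e (nat_lit 286753) (nat_lit 10) (.e (nat_lit 344169) (nat_lit 40) .nil))))) (.g (nat_lit 0) (.e (nat_lit 432675) (nat_lit 0) .nil) .nil)))) (.nd (nat_lit 9) 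
(.lf (nat_lit 605514) (.g (nat_lit 2987) (.e (nat_lit 778462) (nat_lit 11) (.e (nat_lit 24608) (nat_lit 3) (.e (nat_lit 98374) (nat_lit 29) (.e (nat_lit 450586) (nat_lit 10) (.e (nat_lit 573475) (nat_lit 12) (.e (nat_lit 65280) (nat_lit 55) .nil)))))) (.g (nat_lit 1) (.e (nat_lit 432327) (nat_lit 0) .nil) .nil))) 
(.lf (nat_lit 606026) (.g (nat_lit 2857) (.e (nat_lit 778466) (nat_lit 11) (.e (nat_lit 24617) (nat_lit 7) (.e (nat_lit 319529) (nat_lit 16) (.e (nat_lit 286759) (nat_lit 12) (.e (nat_lit 385115) (nat_lit 53) (.e (nat_lit 811033) (nat_lit 11) (.e (nat_lit 879) (nat_lit 75) .nil))))))) (.g (nat_lit 1) (.e (nat_lit 433020) (nat_lit 0) .nil) .nil))))) (.nd (nat_lit 8) (.nd (nat_lit 9) 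
(.lf (nat_lit 605386) (.g (nat_lit 2105) (.e (nat_lit 778461) (nat_lit 11) (.e (nat_lit 24658) (nat_lit 13) (.e (nat_lit 393301) (nat_lit 27) (.e (nat_lit 491559) (nat_lit 10) .nil)))) (.g (nat_lit 0) (.e (nat_lit 432187) (nat_lit 0) .nil) .nil))) 
(.lf (nat_lit 605898) (.g (nat_lit 3173) (.e (nat_lit 778465) (nat_lit 11) (.e (nat_lit 24617) (nat_lit 7) (.e (nat_lit 319532) (nat_lit 16) (.e (nat_lit 286759) (nat_lit 12) (.e (nat_lit 385115) (nat_lit 53) (.e (nat_lit 811034) (nat_lit 11) (.e (nat_lit 883) (nat_lit 75) .nil))))))) (.g (nat_lit 1) (.e (nat_lit 432836) (nat_lit 0) .nil) .nil)))) (.nd (nat_lit 9) 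
(.lf (nat_lit 605642) (.g (nat_lit 1563) (.e (nat_lit 778462) (nat_lit 11) (.e (nat_lit 24658) (nat_lit 13) (.e (nat_lit 393281) (nat_lit 23) (.e (nat_lit 426099) (nat_lit 1) (.e (nat_lit 164332) (nat_lit 230) (.e (nat_lit 163847) (nat_lit 0) (.e (nat_lit 3669) (nat_lit 227) .nil))))))) (.g (nat_lit 1) (.e (nat_lit 432520) (nat_lit 0) .nil) .nil))) 
(.lf (nat_lit 606154) (.g (nat_lit 3357) (.e (nat_lit 778466) (nat_lit 11) (.e (nat_lit 24617) (nat_lit 7) (.e (nat_lit 319534) (nat_lit 16) (.e (nat_lit 286756) (nat_lit 10) (.e (nat_lit 344160) (nat_lit 37) (.e (nat_lit 647202) (nat_lit 13) (.e (nat_lit 122981) (nat_lit 55) .nil))))))) (.g (nat_lit 1) (.e (nat_lit 433184) (nat_lit 0) .nil) .nil))))))) 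
(.nd (nat_lit 6) (.nd (nat_lit 7) (.nd (nat_lit 8) (.nd (nat_lit 9) 
(.lf (nat_lit 605226) (.g (nat_lit 1307) (.e (nat_lit 778327) (nat_lit 6) (.e (nat_lit 81947) (nat_lit 20) (.e (nat_lit 2005) (nat_lit 138) (.e (nat_lit 671764) (nat_lit 6) (.e (nat_lit 81922) (nat_lit 0) .nil))))) (.g (nat_lit 0) (.e (nat_lit 431878) (nat_lit 0) .nil) .nil))) 
(.lf (nat_lit 605738) (.g (nat_lit 2024) (.e (nat_lit 778464) (nat_lit 11) (.e (nat_lit 24617) (nat_lit 7) (.e (nat_lit 319528) (nat_lit 16) (.e (nat_lit 286759) (nat_lit 12) (.e (nat_lit 385115) (nat_lit 53) (.e (nat_lit 811032) (nat_lit 11) (.e (nat_lit 883) (nat_lit 75) .nil))))))) (.g (nat_lit 1) (.e (nat_lit 432637) (nat_lit 0) .nil) .nil)))) (.nd (nat_lit 9) 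
(.lf (nat_lit 605482) (.g (nat_lit 2958) (.e (nat_lit 778462) (nat_lit 11) (.e (nat_lit 24608) (nat_lit 3) (.e (nat_lit 98365) (nat_lit 26) (.e (nat_lit 426306) (nat_lit 12) (.e (nat_lit 475177) (nat_lit 24) (.e (nat_lit 516097) (nat_lit 0) (.e (nat_lit 3651) (nat_lit 227) .nil))))))) (.g (nat_lit 1) (.e (nat_lit 432293) (nat_lit 0) .nil) .nil))) 
(.lf (nat_lit 605994) (.g (nat_lit 2625) (.e (nat_lit 778466) (nat_lit 11) (.e (nat_lit 24608) (nat_lit 3) (.e (nat_lit 98372) (nat_lit 29) (.e (nat_lit 450587) (nat_lit 10) (.e (nat_lit 573478) (nat_lit 12) .nil))))) (.g (nat_lit 0) (.e (nat_lit 432973) (nat_lit 0) .nil) .nil))))) (.nd (nat_lit 8) (.nd (nat_lit 9) 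
(.lf (nat_lit 605354) (.g (nat_lit 1371) (.e (nat_lit 778460) (nat_lit 11) (.e (nat_lit 24657) (nat_lit 13) (.e (nat_lit 393281) (nat_lit 23) (.e (nat_lit 426100) (nat_lit 1) .nil)))) (.g (nat_lit 0) (.e (nat_lit 432144) (nat_lit 0) .nil) .nil))) 
(.lf (nat_lit 605866) (.g (nat_lit 5194) (.e (nat_lit 778465) (nat_lit 11) (.e (nat_lit 24607) (nat_lit 3) (.e (nat_lit 98373) (nat_lit 29) (.e (nat_lit 450588) (nat_lit 10) (.e (nat_lit 573475) (nat_lit 12) (.e (nat_lit 57574) (nat_lit 55) .nil)))))) (.g (nat_lit 1) (.e (nat_lit 432803) (nat_lit 0) .nil) .nil)))) (.nd (nat_lit 9) 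
(.lf (nat_lit 605610) (.g (nat_lit 1355) (.e (nat_lit 778462) (nat_lit 11) (.e (nat_lit 24630) (nat_lit 9) (.e (nat_lit 336369) (nat_lit 27) (.e (nat_lit 426173) (nat_lit 7) .nil)))) (.g (nat_lit 0) (.e (nat_lit 432460) (nat_lit 0) .nil) .nil))) 
(.lf (nat_lit 606122) (.g (nat_lit 4077) (.e (nat_lit 778466) (nat_lit 11) (.e (nat_lit 24617) (nat_lit 7) (.e (nat_lit 319534) (nat_lit 16) (.e (nat_lit 286756) (nat_lit 10) (.e (nat_lit 344160) (nat_lit 37) (.e (nat_lit 647190) (nat_lit 9) (.e (nat_lit 984) (nat_lit 81) (.e (nat_lit 2308) (nat_lit 151) .nil)))))))) (.g (nat_lit 1) (.e (nat_lit 433152) (nat_lit 0) .nil) .nil)))))) 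
(.nd (nat_lit 7) (.nd (nat_lit 8) (.nd (nat_lit 9) 
(.lf (nat_lit 605290) (.g (nat_lit 2299) (.e (nat_lit 778459) (nat_lit 11) (.e (nat_lit 24655) (nat_lit 13) (.e (nat_lit 393300) (nat_lit 27) (.e (nat_lit 491560) (nat_lit 10) (.e (nat_lit 352000) (nat_lit 44) .nil))))) (.g (nat_lit 1) (.e (nat_lit 432073) (nat_lit 0) .nil) .nil))) 
(.lf (nat_lit 605802) (.g (nat_lit 2881) (.e (nat_lit 778464) (nat_lit 11) (.e (nat_lit 24617) (nat_lit 7) (.e (nat_lit 319534) (nat_lit 16) (.e (nat_lit 286756) (nat_lit 10) (.e (nat_lit 344168) (nat_lit 40) (.e (nat_lit 671782) (nat_lit 12) (.e (nat_lit 164049) (nat_lit 55) .nil))))))) (.g (nat_lit 1) (.e (nat_lit 432711) (nat_lit 0) .nil) .nil)))) (.nd (nat_lit 9) 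
(.lf (nat_lit 605546) (.g (nat_lit 3479) (.e (nat_lit 778462) (nat_lit 11) (.e (nat_lit 24628) (nat_lit 9) (.e (nat_lit 336443) (nat_lit 32) (.e (nat_lit 466969) (nat_lit 21) (.e (nat_lit 164332) (nat_lit 230) (.e (nat_lit 163843) (nat_lit 0) (.e (nat_lit 3617) (nat_lit 227) .nil))))))) (.g (nat_lit 1) (.e (nat_lit 432392) (nat_lit 0) .nil) .nil))) 
(.lf (nat_lit 606058) (.g (nat_lit 3577) (.e (nat_lit 778466) (nat_lit 11) (.e (nat_lit 24617) (nat_lit 7) (.e (nat_lit 319533) (nat_lit 16) (.e (nat_lit 286753) (nat_lit 10) (.e (nat_lit 344160) (nat_lit 37) (.e (nat_lit 647190) (nat_lit 9) (.e (nat_lit 1005) (nat_lit 81) (.e (nat_lit 2342) (nat_lit 151) .nil)))))))) (.g (nat_lit 1) (.e (nat_lit 433059) (nat_lit 0) .nil) .nil))))) 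
(.nd (nat_lit 8) (.nd (nat_lit 9) 
(.lf (nat_lit 605418) (.g (nat_lit 1797) (.e (nat_lit 778462) (nat_lit 11) (.e (nat_lit 24604) (nat_lit 2) (.e (nat_lit 90185) (nat_lit 17) (.e (nat_lit 237605) (nat_lit 9) (.e (nat_lit 426436) (nat_lit 18) (.e (nat_lit 98318) (nat_lit 17) (.e (nat_lit 3617) (nat_lit 227) .nil))))))) (.g (nat_lit 1) (.e (nat_lit 432220) (nat_lit 0) .nil) .nil))) 
(.lf (nat_lit 605930) (.g (nat_lit 1328) (.e (nat_lit 778465) (nat_lit 11) (.e (nat_lit 24625) (nat_lit 9) (.e (nat_lit 336421) (nat_lit 28) (.e (nat_lit 442112) (nat_lit 5) .nil)))) (.g (nat_lit 0) (.e (nat_lit 432868) (nat_lit 0) .nil) .nil)))) (.nd (nat_lit 9) 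
(.lf (nat_lit 605674) (.g (nat_lit 2995) (.e (nat_lit 778462) (nat_lit 11) (.e (nat_lit 24665) (nat_lit 14) (.e (nat_lit 401414) (nat_lit 0) (.e (nat_lit 3459) (nat_lit 216) .nil)))) (.g (nat_lit 0) (.e (nat_lit 432555) (nat_lit 0) .nil) .nil))) 
(.lf (nat_lit 606186) (.g (nat_lit 2579) (.e (nat_lit 778466) (nat_lit 11) (.e (nat_lit 24632) (nat_lit 9) (.e (nat_lit 336385) (nat_lit 27) (.e (nat_lit 426011) (nat_lit 0) (.e (nat_lit 7591) (nat_lit 407) (.e (nat_lit 73776) (nat_lit 26) .nil)))))) (.g (nat_lit 1) (.e (nat_lit 433222) (nat_lit 0) .nil) .nil)))))))) 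
(.nd (nat_lit 5) (.nd (nat_lit 6) (.nd (nat_lit 7) (.nd (nat_lit 8) (.nd (nat_lit 9) 
(.lf (nat_lit 605210) (.g (nat_lit 2427) (.e (nat_lit 778326) (nat_lit 6) (.e (nat_lit 81953) (nat_lit 22) (.e (nat_lit 98048) (nat_lit 2) (.e (nat_lit 16425) (nat_lit 7) (.e (nat_lit 409616) (nat_lit 10) (.e (nat_lit 858) (nat_lit 75) .nil)))))) (.g (nat_lit 1) (.e (nat_lit 431851) (nat_lit 0) .nil) .nil))) 
(.lf (nat_lit 605722) (.g (nat_lit 2032) (.e (nat_lit 778464) (nat_lit 11) (.e (nat_lit 24608) (nat_lit 3) (.e (nat_lit 98359) (nat_lit 26) (.e (nat_lit 426286) (nat_lit 10) .nil)))) (.g (nat_lit 0) (.e (nat_lit 432620) (nat_lit 0) .nil) .nil)))) (.nd (nat_lit 9) 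
(.lf (nat_lit 605466) (.g (nat_lit 3415) (.e (nat_lit 778462) (nat_lit 11) (.e (nat_lit 24608) (nat_lit 3) (.e (nat_lit 98365) (nat_lit 26) (.e (nat_lit 426188) (nat_lit 9) (.e (nat_lit 426428) (nat_lit 17) (.e (nat_lit 90181) (nat_lit 16) (.e (nat_lit 229466) (nat_lit 55) .nil))))))) (.g (nat_lit 1) (.e (nat_lit 432277) (nat_lit 0) .nil) .nil))) 
(.lf (nat_lit 605978) (.g (nat_lit 1612) (.e (nat_lit 778466) (nat_lit 11) (.e (nat_lit 24608) (nat_lit 3) (.e (nat_lit 98356) (nat_lit 26) .nil))) (.g (nat_lit 0) (.e (nat_lit 432956) (nat_lit 0) .nil) .nil))))) (.nd (nat_lit 8) (.nd (nat_lit 9) 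
(.lf (nat_lit 605338) (.g (nat_lit 2429) (.e (nat_lit 778460) (nat_lit 11) (.e (nat_lit 24627) (nat_lit 9) (.e (nat_lit 336443) (nat_lit 32) (.e (nat_lit 466972) (nat_lit 21) (.e (nat_lit 164332) (nat_lit 230) (.e (nat_lit 163852) (nat_lit 0) (.e (nat_lit 3721) (nat_lit 227) .nil))))))) (.g (nat_lit 1) (.e (nat_lit 432125) (nat_lit 0) .nil) .nil))) 
(.lf (nat_lit 605850) (.g (nat_lit 935) (.e (nat_lit 778465) (nat_lit 11) (.e (nat_lit 24584) (nat_lit 0) (.e (nat_lit 2355) (nat_lit 152) .nil))) (.g (nat_lit 0) (.e (nat_lit 432782) (nat_lit 0) .nil) .nil)))) (.nd (nat_lit 9) 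
(.lf (nat_lit 605594) (.g (nat_lit 2200) (.e (nat_lit 778462) (nat_lit 11) (.e (nat_lit 24628) (nat_lit 9) (.e (nat_lit 336443) (nat_lit 32) (.e (nat_lit 466972) (nat_lit 21) (.e (nat_lit 164332) (nat_lit 230) (.e (nat_lit 163847) (nat_lit 0) (.e (nat_lit 3649) (nat_lit 227) .nil))))))) (.g (nat_lit 1) (.e (nat_lit 432444) (nat_lit 0) .nil) .nil))) 
(.lf (nat_lit 606106) (.g (nat_lit 3253) (.e (nat_lit 778466) (nat_lit 11) (.e (nat_lit 24617) (nat_lit 7) (.e (nat_lit 319534) (nat_lit 16) (.e (nat_lit 286756) (nat_lit 10) (.e (nat_lit 344169) (nat_lit 40) (.e (nat_lit 671770) (nat_lit 9) (.e (nat_lit 2421) (nat_lit 157) (.e (nat_lit 3722) (nat_lit 227) .nil)))))))) (.g (nat_lit 1) (.e (nat_lit 433136) (nat_lit 0) .nil) .nil)))))) 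
(.nd (nat_lit 7) (.nd (nat_lit 8) (.nd (nat_lit 9) 
(.lf (nat_lit 605274) (.g (nat_lit 1855) (.e (nat_lit 778390) (nat_lit 9) (.e (nat_lit 2667) (nat_lit 167) (.e (nat_lit 196654) (nat_lit 11) (.e (nat_lit 16436) (nat_lit 9) (.e (nat_lit 426131) (nat_lit 3) .nil))))) (.g (nat_lit 0) (.e (nat_lit 432013) (nat_lit 0) .nil) .nil))) 
(.lf (nat_lit 605786) (.g (nat_lit 3399) (.e (nat_lit 778464) (nat_lit 11) (.e (nat_lit 24617) (nat_lit 7) (.e (nat_lit 319533) (nat_lit 16) (.e (nat_lit 286753) (nat_lit 10) (.e (nat_lit 344160) (nat_lit 37) (.e (nat_lit 647203) (nat_lit 14) (.e (nat_lit 2509) (nat_lit 157) (.e (nat_lit 879) (nat_lit 75) .nil)))))))) (.g (nat_lit 1) (.e (nat_lit 432691) (nat_lit 0) .nil) .nil)))) 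
(.nd (nat_lit 9) 
(.lf (nat_lit 605530) (.g (nat_lit 840) (.e (nat_lit 778462) (nat_lit 11) (.e (nat_lit 24625) (nat_lit 9) (.e (nat_lit 336443) (nat_lit 32) .nil))) (.g (nat_lit 0) (.e (nat_lit 432360) (nat_lit 0) .nil) .nil))) 
(.lf (nat_lit 606042) (.g (nat_lit 1489) (.e (nat_lit 778466) (nat_lit 11) (.e (nat_lit 24617) (nat_lit 7) (.e (nat_lit 319532) (nat_lit 16) (.e (nat_lit 286759) (nat_lit 12) (.e (nat_lit 385115) (nat_lit 53) .nil))))) (.g (nat_lit 0) (.e (nat_lit 433042) (nat_lit 0) .nil) .nil))))) (.nd (nat_lit 8) (.nd (nat_lit 9) 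
(.lf (nat_lit 605402) (.g (nat_lit 2709) (.e (nat_lit 778462) (nat_lit 11) (.e (nat_lit 24604) (nat_lit 2) (.e (nat_lit 90185) (nat_lit 17) (.e (nat_lit 237601) (nat_lit 9) (.e (nat_lit 426428) (nat_lit 17) (.e (nat_lit 90165) (nat_lit 12) (.e (nat_lit 164035) (nat_lit 55) .nil))))))) (.g (nat_lit 1) (.e (nat_lit 432204) (nat_lit 0) .nil) .nil))) 
(.lf (nat_lit 605914) (.g (nat_lit 2528) (.e (nat_lit 778465) (nat_lit 11) (.e (nat_lit 24617) (nat_lit 7) (.e (nat_lit 319534) (nat_lit 16) (.e (nat_lit 286753) (nat_lit 10) (.e (nat_lit 344160) (nat_lit 37) .nil))))) (.g (nat_lit 0) (.e (nat_lit 432852) (nat_lit 0) .nil) .nil)))) (.nd (nat_lit 9) 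
(.lf (nat_lit 605658) (.g (nat_lit 1871) (.e (nat_lit 778462) (nat_lit 11) (.e (nat_lit 24658) (nat_lit 13) (.e (nat_lit 393300) (nat_lit 27) (.e (nat_lit 491560) (nat_lit 10) (.e (nat_lit 352000) (nat_lit 44) .nil))))) (.g (nat_lit 1) (.e (nat_lit 432539) (nat_lit 0) .nil) .nil))) 
(.lf (nat_lit 606170) (.g (nat_lit 701) (.e (nat_lit 778466) (nat_lit 11) (.e (nat_lit 24623) (nat_lit 9) (.e (nat_lit 336384) (nat_lit 27) (.e (nat_lit 426344) (nat_lit 14) .nil)))) (.g (nat_lit 0) (.e (nat_lit 433205) (nat_lit 0) .nil) .nil))))))) (.nd (nat_lit 6) (.nd (nat_lit 7) (.nd (nat_lit 8) (.nd (nat_lit 9) 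
(.lf (nat_lit 605242) (.g (nat_lit 2111) (.e (nat_lit 778327) (nat_lit 6) (.e (nat_lit 81959) (nat_lit 24) (.e (nat_lit 123195) (nat_lit 266) (.e (nat_lit 57347) (nat_lit 0) .nil)))) (.g (nat_lit 0) (.e (nat_lit 431907) (nat_lit 0) .nil) .nil))) 
(.lf (nat_lit 605754) (.g (nat_lit 2172) (.e (nat_lit 778464) (nat_lit 11) (.e (nat_lit 24617) (nat_lit 7) (.e (nat_lit 319531) (nat_lit 16) (.e (nat_lit 286759) (nat_lit 12) (.e (nat_lit 385115) (nat_lit 53) (.e (nat_lit 811032) (nat_lit 11) (.e (nat_lit 883) (nat_lit 75) .nil))))))) (.g (nat_lit 1) (.e (nat_lit 432656) (nat_lit 0) .nil) .nil)))) (.nd (nat_lit 9) 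
(.lf (nat_lit 605498) (.g (nat_lit 1391) (.e (nat_lit 778462) (nat_lit 11) (.e (nat_lit 24608) (nat_lit 3) (.e (nat_lit 98365) (nat_lit 26) (.e (nat_lit 426308) (nat_lit 12) .nil)))) (.g (nat_lit 0) (.e (nat_lit 432309) (nat_lit 0) .nil) .nil))) 
(.lf (nat_lit 606010) (.g (nat_lit 3475) (.e (nat_lit 778466) (nat_lit 11) (.e (nat_lit 24617) (nat_lit 7) (.e (nat_lit 319505) (nat_lit 10) (.e (nat_lit 720) (nat_lit 64) (.e (nat_lit 688177) (nat_lit 16) (.e (nat_lit 65598) (nat_lit 9) (.e (nat_lit 335890) (nat_lit 0) (.e (nat_lit 2347) (nat_lit 151) .nil)))))))) (.g (nat_lit 1) (.e (nat_lit 432991) (nat_lit 0) .nil) .nil))))) 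
(.nd (nat_lit 8) (.nd (nat_lit 9) 
(.lf (nat_lit 605370) (.g (nat_lit 1586) (.e (nat_lit 778461) (nat_lit 11) (.e (nat_lit 24630) (nat_lit 9) (.e (nat_lit 336369) (nat_lit 27) (.e (nat_lit 426025) (nat_lit 0) .nil)))) (.g (nat_lit 0) (.e (nat_lit 432166) (nat_lit 0) .nil) .nil))) 
(.lf (nat_lit 605882) (.g (nat_lit 1597) (.e (nat_lit 778465) (nat_lit 11) (.e (nat_lit 24617) (nat_lit 7) (.e (nat_lit 319528) (nat_lit 16) (.e (nat_lit 286759) (nat_lit 12) (.e (nat_lit 385115) (nat_lit 53) .nil))))) (.g (nat_lit 0) (.e (nat_lit 432820) (nat_lit 0) .nil) .nil)))) (.nd (nat_lit 9) 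
(.lf (nat_lit 605626) (.g (nat_lit 1827) (.e (nat_lit 778462) (nat_lit 11) (.e (nat_lit 24658) (nat_lit 13) (.e (nat_lit 393233) (nat_lit 17) (.e (nat_lit 7591) (nat_lit 407) (.e (nat_lit 81664) (nat_lit 26) .nil))))) (.g (nat_lit 1) (.e (nat_lit 432491) (nat_lit 0) .nil) .nil))) 
(.lf (nat_lit 606138) (.g (nat_lit 3912) (.e (nat_lit 778466) (nat_lit 11) (.e (nat_lit 24617) (nat_lit 7) (.e (nat_lit 319534) (nat_lit 16) (.e (nat_lit 286756) (nat_lit 10) (.e (nat_lit 344160) (nat_lit 37) (.e (nat_lit 647190) (nat_lit 9) (.e (nat_lit 1038) (nat_lit 81) (.e (nat_lit 2342) (nat_lit 151) .nil)))))))) (.g (nat_lit 1) (.e (nat_lit 433168) (nat_lit 0) .nil) .nil)))))) 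
(.nd (nat_lit 7) (.nd (nat_lit 8) (.nd (nat_lit 9) 
(.lf (nat_lit 605306) (.g (nat_lit 2586) (.e (nat_lit 778459) (nat_lit 11) (.e (nat_lit 24660) (nat_lit 13) (.e (nat_lit 393260) (nat_lit 21) (.e (nat_lit 409616) (nat_lit 10) (.e (nat_lit 4979) (nat_lit 287) .nil))))) (.g (nat_lit 0) (.e (nat_lit 432091) (nat_lit 0) .nil) .nil))) 
(.lf (nat_lit 605818) (.g (nat_lit 3371) (.e (nat_lit 778464) (nat_lit 11) (.e (nat_lit 24617) (nat_lit 7) (.e (nat_lit 319534) (nat_lit 16) (.e (nat_lit 286756) (nat_lit 10) (.e (nat_lit 344160) (nat_lit 37) (.e (nat_lit 647195) (nat_lit 9) (.e (nat_lit 1008) (nat_lit 81) (.e (nat_lit 2328) (nat_lit 151) .nil)))))))) (.g (nat_lit 1) (.e (nat_lit 432727) (nat_lit 0) .nil) .nil)))) 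
(.nd (nat_lit 9) 
(.lf (nat_lit 605562) (.g (nat_lit 2253) (.e (nat_lit 778462) (nat_lit 11) (.e (nat_lit 24628) (nat_lit 9) (.e (nat_lit 336443) (nat_lit 32) (.e (nat_lit 466969) (nat_lit 21) (.e (nat_lit 164332) (nat_lit 230) (.e (nat_lit 163847) (nat_lit 0) (.e (nat_lit 3661) (nat_lit 227) .nil))))))) (.g (nat_lit 1) (.e (nat_lit 432408) (nat_lit 0) .nil) .nil))) 
(.lf (nat_lit 606074) (.g (nat_lit 3312) (.e (nat_lit 778466) (nat_lit 11) (.e (nat_lit 24617) (nat_lit 7) (.e (nat_lit 319533) (nat_lit 16) (.e (nat_lit 286753) (nat_lit 10) (.e (nat_lit 344160) (nat_lit 37) (.e (nat_lit 647195) (nat_lit 9) (.e (nat_lit 982) (nat_lit 81) (.e (nat_lit 2346) (nat_lit 151) .nil)))))))) (.g (nat_lit 1) (.e (nat_lit 433075) (nat_lit 0) .nil) .nil))))) 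
(.nd (nat_lit 8) (.nd (nat_lit 9) 
(.lf (nat_lit 605434) (.g (nat_lit 913) (.e (nat_lit 778462) (nat_lit 11) (.e (nat_lit 24604) (nat_lit 2) (.e (nat_lit 90185) (nat_lit 17) (.e (nat_lit 237619) (nat_lit 12) .nil)))) (.g (nat_lit 0) (.e (nat_lit 432236) (nat_lit 0) .nil) .nil))) 
(.lf (nat_lit 605946) (.g (nat_lit 808) (.e (nat_lit 778465) (nat_lit 11) (.e (nat_lit 24657) (nat_lit 13) (.e (nat_lit 393247) (nat_lit 17) .nil))) (.g (nat_lit 0) (.e (nat_lit 432884) (nat_lit 0) .nil) .nil)))) (.nd (nat_lit 9) 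
(.lf (nat_lit 605690) (.g (nat_lit 3337) (.e (nat_lit 778463) (nat_lit 11) (.e (nat_lit 24608) (nat_lit 3) (.e (nat_lit 98373) (nat_lit 29) (.e (nat_lit 450586) (nat_lit 10) (.e (nat_lit 573477) (nat_lit 12) .nil))))) (.g (nat_lit 0) (.e (nat_lit 432574) (nat_lit 0) .nil) .nil))) 
(.lf (nat_lit 606202) (.g (nat_lit 569) (.e (nat_lit 778466) (nat_lit 11) (.e (nat_lit 24663) (nat_lit 14) (.e (nat_lit 409344) (nat_lit 25) .nil))) (.g (nat_lit 0) (.e (nat_lit 433242) (nat_lit 0) .nil) .nil)))))))))) (.nd (nat_lit 3) (.nd (nat_lit 4) (.nd (nat_lit 5) (.nd (nat_lit 6) (.nd (nat_lit 7) (.nd (nat_lit 8) (.nd (nat_lit 9) 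
(.lf (nat_lit 605190) (.g (nat_lit 1675) (.e (nat_lit 778325) (nat_lit 6) (.e (nat_lit 81956) (nat_lit 23) (.e (nat_lit 98334) (nat_lit 18) (.e (nat_lit 164159) (nat_lit 152) .nil)))) (.g (nat_lit 0) (.e (nat_lit 431828) (nat_lit 0) .nil) .nil))) 
(.lf (nat_lit 605702) (.g (nat_lit 451) (.e (nat_lit 778463) (nat_lit 11) (.e (nat_lit 24657) (nat_lit 13) (.e (nat_lit 401152) (nat_lit 17) .nil))) (.g (nat_lit 0) (.e (nat_lit 432587) (nat_lit 0) .nil) .nil)))) (.nd (nat_lit 9) 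
(.lf (nat_lit 605446) (.g (nat_lit 988) (.e (nat_lit 778462) (nat_lit 11) (.e (nat_lit 24608) (nat_lit 3) (.e (nat_lit 98363) (nat_lit 26) (.e (nat_lit 426318) (nat_lit 12) .nil)))) (.g (nat_lit 0) (.e (nat_lit 432257) (nat_lit 0) .nil) .nil))) 
(.lf (nat_lit 605958) (.g (nat_lit 2647) (.e (nat_lit 778466) (nat_lit 11) (.e (nat_lit 24604) (nat_lit 2) (.e (nat_lit 90170) (nat_lit 13) (.e (nat_lit 172110) (nat_lit 10) .nil)))) (.g (nat_lit 0) (.e (nat_lit 432927) (nat_lit 0) .nil) .nil))))) (.nd (nat_lit 8) (.nd (nat_lit 9) 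
(.lf (nat_lit 605318) (.g (nat_lit 4088) (.e (nat_lit 778460) (nat_lit 11) (.e (nat_lit 24604) (nat_lit 2) (.e (nat_lit 90170) (nat_lit 13) (.e (nat_lit 172113) (nat_lit 10) .nil)))) (.g (nat_lit 0) (.e (nat_lit 432103) (nat_lit 0) .nil) .nil))) 
(.lf (nat_lit 605830) (.g (nat_lit 2219) (.e (nat_lit 778464) (nat_lit 11) (.e (nat_lit 24617) (nat_lit 7) (.e (nat_lit 319534) (nat_lit 16) (.e (nat_lit 286759) (nat_lit 12) (.e (nat_lit 385115) (nat_lit 53) (.e (nat_lit 811033) (nat_lit 11) (.e (nat_lit 879) (nat_lit 75) .nil))))))) (.g (nat_lit 1) (.e (nat_lit 432739) (nat_lit 0) .nil) .nil)))) (.nd (nat_lit 9) 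
(.lf (nat_lit 605574) (.g (nat_lit 936) (.e (nat_lit 778462) (nat_lit 11) (.e (nat_lit 24628) (nat_lit 9) (.e (nat_lit 336443) (nat_lit 32) (.e (nat_lit 466972) (nat_lit 21) .nil)))) (.g (nat_lit 0) (.e (nat_lit 432420) (nat_lit 0) .nil) .nil))) 
(.lf (nat_lit 606086) (.g (nat_lit 2105) (.e (nat_lit 778466) (nat_lit 11) (.e (nat_lit 24617) (nat_lit 7) (.e (nat_lit 319533) (nat_lit 16) (.e (nat_lit 286759) (nat_lit 12) (.e (nat_lit 385113) (nat_lit 53) .nil))))) (.g (nat_lit 0) (.e (nat_lit 433089) (nat_lit 0) .nil) .nil)))))) (.nd (nat_lit 7) (.nd (nat_lit 8) (.nd (nat_lit 9) 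
(.lf (nat_lit 605254) (.g (nat_lit 2220) (.e (nat_lit 778336) (nat_lit 9) (.e (nat_lit 2668) (nat_lit 167) (.e (nat_lit 196666) (nat_lit 13) (.e (nat_lit 65566) (nat_lit 2) .nil)))) (.g (nat_lit 0) (.e (nat_lit 431934) (nat_lit 0) .nil) .nil))) 
(.lf (nat_lit 605766) (.g (nat_lit 2304) (.e (nat_lit 778464) (nat_lit 11) (.e (nat_lit 24617) (nat_lit 7) (.e (nat_lit 319533) (nat_lit 16) (.e (nat_lit 286753) (nat_lit 10) (.e (nat_lit 344088) (nat_lit 18) (.e (nat_lit 5918) (nat_lit 320) (.e (nat_lit 2610) (nat_lit 163) (.e (nat_lit 164050) (nat_lit 55) .nil)))))))) (.g (nat_lit 1) (.e (nat_lit 432671) (nat_lit 0) .nil) .nil)))) 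
(.nd (nat_lit 9) 
(.lf (nat_lit 605510) (.g (nat_lit 3668) (.e (nat_lit 778462) (nat_lit 11) (.e (nat_lit 24608) (nat_lit 3) (.e (nat_lit 98373) (nat_lit 29) (.e (nat_lit 450587) (nat_lit 10) (.e (nat_lit 573475) (nat_lit 12) (.e (nat_lit 65280) (nat_lit 55) .nil)))))) (.g (nat_lit 1) (.e (nat_lit 432323) (nat_lit 0) .nil) .nil))) 
(.lf (nat_lit 606022) (.g (nat_lit 2960) (.e (nat_lit 778466) (nat_lit 11) (.e (nat_lit 24617) (nat_lit 7) (.e (nat_lit 319528) (nat_lit 16) (.e (nat_lit 286759) (nat_lit 12) (.e (nat_lit 385115) (nat_lit 53) (.e (nat_lit 811033) (nat_lit 11) (.e (nat_lit 883) (nat_lit 75) .nil))))))) (.g (nat_lit 1) (.e (nat_lit 433012) (nat_lit 0) .nil) .nil))))) (.nd (nat_lit 8) (.nd (nat_lit 9) 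
(.lf (nat_lit 605382) (.g (nat_lit 2324) (.e (nat_lit 778461) (nat_lit 11) (.e (nat_lit 24658) (nat_lit 13) (.e (nat_lit 393234) (nat_lit 17) (.e (nat_lit 7591) (nat_lit 407) .nil)))) (.g (nat_lit 0) (.e (nat_lit 432183) (nat_lit 0) .nil) .nil))) 
(.lf (nat_lit 605894) (.g (nat_lit 1086) (.e (nat_lit 778465) (nat_lit 11) (.e (nat_lit 24617) (nat_lit 7) (.e (nat_lit 319532) (nat_lit 16) (.e (nat_lit 286759) (nat_lit 12) .nil)))) (.g (nat_lit 0) (.e (nat_lit 432832) (nat_lit 0) .nil) .nil)))) (.nd (nat_lit 9) 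
(.lf (nat_lit 605638) (.g (nat_lit 1557) (.e (nat_lit 778462) (nat_lit 11) (.e (nat_lit 24658) (nat_lit 13) (.e (nat_lit 393281) (nat_lit 23) (.e (nat_lit 426099) (nat_lit 1) (.e (nat_lit 164332) (nat_lit 230) (.e (nat_lit 163847) (nat_lit 0) (.e (nat_lit 3653) (nat_lit 227) .nil))))))) (.g (nat_lit 1) (.e (nat_lit 432516) (nat_lit 0) .nil) .nil))) 
(.lf (nat_lit 606150) (.g (nat_lit 4621) (.e (nat_lit 778466) (nat_lit 11) (.e (nat_lit 24617) (nat_lit 7) (.e (nat_lit 319534) (nat_lit 16) (.e (nat_lit 286756) (nat_lit 10) (.e (nat_lit 344160) (nat_lit 37) (.e (nat_lit 647195) (nat_lit 9) (.e (nat_lit 1040) (nat_lit 81) (.e (nat_lit 2346) (nat_lit 151) .nil)))))))) (.g (nat_lit 1) (.e (nat_lit 433180) (nat_lit 0) .nil) .nil))))))) 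
(.nd (nat_lit 6) (.nd (nat_lit 7) (.nd (nat_lit 8) (.nd (nat_lit 9) 
(.lf (nat_lit 605222) (.g (nat_lit 1164) (.e (nat_lit 778327) (nat_lit 6) (.e (nat_lit 81922) (nat_lit 0) (.e (nat_lit 3747) (nat_lit 228) (.e (nat_lit 786473) (nat_lit 27) (.e (nat_lit 343808) (nat_lit 12) .nil))))) (.g (nat_lit 0) (.e (nat_lit 431874) (nat_lit 0) .nil) .nil))) 
(.lf (nat_lit 605734) (.g (nat_lit 1139) (.e (nat_lit 778464) (nat_lit 11) (.e (nat_lit 24617) (nat_lit 7) (.e (nat_lit 319528) (nat_lit 16) (.e (nat_lit 286759) (nat_lit 12) .nil)))) (.g (nat_lit 0) (.e (nat_lit 432633) (nat_lit 0) .nil) .nil)))) (.nd (nat_lit 9) 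
(.lf (nat_lit 605478) (.g (nat_lit 3595) (.e (nat_lit 778462) (nat_lit 11) (.e (nat_lit 24608) (nat_lit 3) (.e (nat_lit 98365) (nat_lit 26) (.e (nat_lit 426306) (nat_lit 12) (.e (nat_lit 475177) (nat_lit 24) (.e (nat_lit 516097) (nat_lit 0) (.e (nat_lit 3647) (nat_lit 227) .nil))))))) (.g (nat_lit 1) (.e (nat_lit 432289) (nat_lit 0) .nil) .nil))) 
(.lf (nat_lit 605990) (.g (nat_lit 2480) (.e (nat_lit 778466) (nat_lit 11) (.e (nat_lit 24608) (nat_lit 3) (.e (nat_lit 98365) (nat_lit 26) (.e (nat_lit 426306) (nat_lit 12) (.e (nat_lit 475177) (nat_lit 24) (.e (nat_lit 516105) (nat_lit 0) (.e (nat_lit 3703) (nat_lit 227) .nil))))))) (.g (nat_lit 1) (.e (nat_lit 432969) (nat_lit 0) .nil) .nil))))) (.nd (nat_lit 8) (.nd (nat_lit 9) 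
(.lf (nat_lit 605350) (.g (nat_lit 889) (.e (nat_lit 778460) (nat_lit 11) (.e (nat_lit 24655) (nat_lit 13) (.e (nat_lit 393300) (nat_lit 27) .nil))) (.g (nat_lit 0) (.e (nat_lit 432139) (nat_lit 0) .nil) .nil))) 
(.lf (nat_lit 605862) (.g (nat_lit 2041) (.e (nat_lit 778465) (nat_lit 11) (.e (nat_lit 24604) (nat_lit 2) (.e (nat_lit 90177) (nat_lit 15) (.e (nat_lit 188434) (nat_lit 20) (.e (nat_lit 3304) (nat_lit 202) .nil))))) (.g (nat_lit 0) (.e (nat_lit 432799) (nat_lit 0) .nil) .nil)))) (.nd (nat_lit 9) 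
(.lf (nat_lit 605606) (.g (nat_lit 2170) (.e (nat_lit 778462) (nat_lit 11) (.e (nat_lit 24628) (nat_lit 9) (.e (nat_lit 336443) (nat_lit 32) (.e (nat_lit 466972) (nat_lit 21) (.e (nat_lit 164332) (nat_lit 230) (.e (nat_lit 163852) (nat_lit 0) (.e (nat_lit 3617) (nat_lit 227) .nil))))))) (.g (nat_lit 1) (.e (nat_lit 432456) (nat_lit 0) .nil) .nil))) 
(.lf (nat_lit 606118) (.g (nat_lit 1950) (.e (nat_lit 778466) (nat_lit 11) (.e (nat_lit 24617) (nat_lit 7) (.e (nat_lit 319534) (nat_lit 16) (.e (nat_lit 286756) (nat_lit 10) (.e (nat_lit 344160) (nat_lit 37) (.e (nat_lit 647188) (nat_lit 9) (.e (nat_lit 1004) (nat_lit 81) (.e (nat_lit 2342) (nat_lit 151) .nil)))))))) (.g (nat_lit 1) (.e (nat_lit 433148) (nat_lit 0) .nil) .nil)))))) 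
(.nd (nat_lit 7) (.nd (nat_lit 8) (.nd (nat_lit 9) 
(.lf (nat_lit 605286) (.g (nat_lit 1751) (.e (nat_lit 778459) (nat_lit 11) (.e (nat_lit 24655) (nat_lit 13) (.e (nat_lit 393298) (nat_lit 27) (.e (nat_lit 491560) (nat_lit 10) .nil)))) (.g (nat_lit 0) (.e (nat_lit 432068) (nat_lit 0) .nil) .nil))) 
(.lf (nat_lit 605798) (.g (nat_lit 2182) (.e (nat_lit 778464) (nat_lit 11) (.e (nat_lit 24617) (nat_lit 7) (.e (nat_lit 319534) (nat_lit 16) (.e (nat_lit 286756) (nat_lit 10) (.e (nat_lit 344167) (nat_lit 40) .nil))))) (.g (nat_lit 0) (.e (nat_lit 432707) (nat_lit 0) .nil) .nil)))) (.nd (nat_lit 9) 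
(.lf (nat_lit 605542) (.g (nat_lit 1769) (.e (nat_lit 778462) (nat_lit 11) (.e (nat_lit 24628) (nat_lit 9) (.e (nat_lit 336443) (nat_lit 32) (.e (nat_lit 466969) (nat_lit 21) (.e (nat_lit 164329) (nat_lit 230) (.e (nat_lit 163850) (nat_lit 0) (.e (nat_lit 3664) (nat_lit 227) .nil))))))) (.g (nat_lit 1) (.e (nat_lit 432388) (nat_lit 0) .nil) .nil))) 
(.lf (nat_lit 606054) (.g (nat_lit 3445) (.e (nat_lit 778466) (nat_lit 11) (.e (nat_lit 24617) (nat_lit 7) (.e (nat_lit 319533) (nat_lit 16) (.e (nat_lit 286753) (nat_lit 10) (.e (nat_lit 344160) (nat_lit 37) (.e (nat_lit 647190) (nat_lit 9) (.e (nat_lit 983) (nat_lit 81) (.e (nat_lit 2309) (nat_lit 151) .nil)))))))) (.g (nat_lit 1) (.e (nat_lit 433055) (nat_lit 0) .nil) .nil))))) 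
(.nd (nat_lit 8) (.nd (nat_lit 9) 
(.lf (nat_lit 605414) (.g (nat_lit 2529) (.e (nat_lit 778462) (nat_lit 11) (.e (nat_lit 24604) (nat_lit 2) (.e (nat_lit 90185) (nat_lit 17) (.e (nat_lit 237605) (nat_lit 9) (.e (nat_lit 426428) (nat_lit 17) (.e (nat_lit 90165) (nat_lit 12) (.e (nat_lit 164046) (nat_lit 55) .nil))))))) (.g (nat_lit 1) (.e (nat_lit 432216) (nat_lit 0) .nil) .nil))) 
(.lf (nat_lit 605926) (.g (nat_lit 1539) (.e (nat_lit 778465) (nat_lit 11) (.e (nat_lit 24623) (nat_lit 9) (.e (nat_lit 336389) (nat_lit 27) (.e (nat_lit 426009) (nat_lit 0) .nil)))) (.g (nat_lit 0) (.e (nat_lit 432864) (nat_lit 0) .nil) .nil)))) (.nd (nat_lit 9) 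
(.lf (nat_lit 605670) (.g (nat_lit 2078) (.e (nat_lit 778462) (nat_lit 11) (.e (nat_lit 24660) (nat_lit 13) (.e (nat_lit 393260) (nat_lit 21) (.e (nat_lit 409618) (nat_lit 10) (.e (nat_lit 5023) (nat_lit 290) (.e (nat_lit 164104) (nat_lit 116) .nil)))))) (.g (nat_lit 1) (.e (nat_lit 432551) (nat_lit 0) .nil) .nil))) 
(.lf (nat_lit 606182) (.g (nat_lit 770) (.e (nat_lit 778466) (nat_lit 11) (.e (nat_lit 24628) (nat_lit 9) (.e (nat_lit 336415) (nat_lit 27) .nil))) (.g (nat_lit 0) (.e (nat_lit 433218) (nat_lit 0) .nil) .nil)))))))) (.nd (nat_lit 5) (.nd (nat_lit 6) (.nd (nat_lit 7) (.nd (nat_lit 8) (.nd (nat_lit 9) 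
(.lf (nat_lit 605206) (.g (nat_lit 1807) (.e (nat_lit 778326) (nat_lit 6) (.e (nat_lit 81938) (nat_lit 20) (.e (nat_lit 2006) (nat_lit 138) (.e (nat_lit 671764) (nat_lit 6) (.e (nat_lit 81924) (nat_lit 0) (.e (nat_lit 3631) (nat_lit 227) .nil)))))) (.g (nat_lit 1) (.e (nat_lit 431847) (nat_lit 0) .nil) .nil))) 
(.lf (nat_lit 605718) (.g (nat_lit 2471) (.e (nat_lit 778464) (nat_lit 11) (.e (nat_lit 24604) (nat_lit 2) (.e (nat_lit 90178) (nat_lit 15) (.e (nat_lit 188441) (nat_lit 20) (.e (nat_lit 3307) (nat_lit 202) .nil))))) (.g (nat_lit 0) (.e (nat_lit 432615) (nat_lit 0) .nil) .nil)))) (.nd (nat_lit 9) 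
(.lf (nat_lit 605462) (.g (nat_lit 1332) (.e (nat_lit 778462) (nat_lit 11) (.e (nat_lit 24608) (nat_lit 3) (.e (nat_lit 98365) (nat_lit 26) (.e (nat_lit 426188) (nat_lit 9) .nil)))) (.g (nat_lit 0) (.e (nat_lit 432273) (nat_lit 0) .nil) .nil))) 
(.lf (nat_lit 605974) (.g (nat_lit 2514) (.e (nat_lit 778466) (nat_lit 11) (.e (nat_lit 24604) (nat_lit 2) (.e (nat_lit 90185) (nat_lit 17) (.e (nat_lit 237619) (nat_lit 12) (.e (nat_lit 475179) (nat_lit 24) (.e (nat_lit 516102) (nat_lit 0) (.e (nat_lit 3719) (nat_lit 227) .nil))))))) (.g (nat_lit 1) (.e (nat_lit 432943) (nat_lit 0) .nil) .nil))))) (.nd (nat_lit 8) (.nd (nat_lit 9) 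
(.lf (nat_lit 605334) (.g (nat_lit 2172) (.e (nat_lit 778460) (nat_lit 11) (.e (nat_lit 24627) (nat_lit 9) (.e (nat_lit 336443) (nat_lit 32) (.e (nat_lit 466969) (nat_lit 21) (.e (nat_lit 164305) (nat_lit 226) .nil))))) (.g (nat_lit 0) (.e (nat_lit 432121) (nat_lit 0) .nil) .nil))) 
(.lf (nat_lit 605846) (.g (nat_lit 851) (.e (nat_lit 778464) (nat_lit 11) (.e (nat_lit 24657) (nat_lit 13) (.e (nat_lit 393247) (nat_lit 17) .nil))) (.g (nat_lit 0) (.e (nat_lit 432758) (nat_lit 0) .nil) .nil)))) (.nd (nat_lit 9) 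
(.lf (nat_lit 605590) (.g (nat_lit 1981) (.e (nat_lit 778462) (nat_lit 11) (.e (nat_lit 24628) (nat_lit 9) (.e (nat_lit 336443) (nat_lit 32) (.e (nat_lit 466972) (nat_lit 21) (.e (nat_lit 164332) (nat_lit 230) (.e (nat_lit 163843) (nat_lit 0) (.e (nat_lit 3657) (nat_lit 227) .nil))))))) (.g (nat_lit 1) (.e (nat_lit 432440) (nat_lit 0) .nil) .nil))) 
(.lf (nat_lit 606102) (.g (nat_lit 3170) (.e (nat_lit 778466) (nat_lit 11) (.e (nat_lit 24617) (nat_lit 7) (.e (nat_lit 319534) (nat_lit 16) (.e (nat_lit 286756) (nat_lit 10) (.e (nat_lit 344168) (nat_lit 40) (.e (nat_lit 679680) (nat_lit 15) (.e (nat_lit 57611) (nat_lit 116) .nil))))))) (.g (nat_lit 1) (.e (nat_lit 433132) (nat_lit 0) .nil) .nil)))))) 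
(.nd (nat_lit 7) (.nd (nat_lit 8) (.nd (nat_lit 9) 
(.lf (nat_lit 605270) (.g (nat_lit 2035) (.e (nat_lit 778362) (nat_lit 9) (.e (nat_lit 234) (nat_lit 21) (.e (nat_lit 336019) (nat_lit 3) (.e (nat_lit 98372) (nat_lit 29) (.e (nat_lit 450586) (nat_lit 10) .nil))))) (.g (nat_lit 0) (.e (nat_lit 431985) (nat_lit 0) .nil) .nil))) 
(.lf (nat_lit 605782) (.g (nat_lit 2293) (.e (nat_lit 778464) (nat_lit 11) (.e (nat_lit 24617) (nat_lit 7) (.e (nat_lit 319533) (nat_lit 16) (.e (nat_lit 286753) (nat_lit 10) (.e (nat_lit 344160) (nat_lit 37) (.e (nat_lit 647195) (nat_lit 9) (.e (nat_lit 1012) (nat_lit 81) (.e (nat_lit 2328) (nat_lit 151) .nil)))))))) (.g (nat_lit 1) (.e (nat_lit 432687) (nat_lit 0) .nil) .nil)))) 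
(.nd (nat_lit 9) 
(.lf (nat_lit 605526) (.g (nat_lit 3119) (.e (nat_lit 778462) (nat_lit 11) (.e (nat_lit 24609) (nat_lit 3) (.e (nat_lit 98373) (nat_lit 29) (.e (nat_lit 450587) (nat_lit 10) (.e (nat_lit 573475) (nat_lit 12) (.e (nat_lit 65280) (nat_lit 55) .nil)))))) (.g (nat_lit 1) (.e (nat_lit 432354) (nat_lit 0) .nil) .nil))) 
(.lf (nat_lit 606038) (.g (nat_lit 1412) (.e (nat_lit 778466) (nat_lit 11) (.e (nat_lit 24617) (nat_lit 7) (.e (nat_lit 319531) (nat_lit 16) (.e (nat_lit 286759) (nat_lit 12) (.e (nat_lit 385115) (nat_lit 53) .nil))))) (.g (nat_lit 0) (.e (nat_lit 433037) (nat_lit 0) .nil) .nil))))) (.nd (nat_lit 8) (.nd (nat_lit 9) 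
(.lf (nat_lit 605398) (.g (nat_lit 2937) (.e (nat_lit 778462) (nat_lit 11) (.e (nat_lit 24604) (nat_lit 2) (.e (nat_lit 90178) (nat_lit 15) (.e (nat_lit 188440) (nat_lit 20) (.e (nat_lit 3307) (nat_lit 202) (.e (nat_lit 573494) (nat_lit 16) (.e (nat_lit 130816) (nat_lit 55) .nil))))))) (.g (nat_lit 1) (.e (nat_lit 432200) (nat_lit 0) .nil) .nil))) 
(.lf (nat_lit 605910) (.g (nat_lit 2733) (.e (nat_lit 778465) (nat_lit 11) (.e (nat_lit 24617) (nat_lit 7) (.e (nat_lit 319533) (nat_lit 16) (.e (nat_lit 286759) (nat_lit 12) (.e (nat_lit 385113) (nat_lit 53) (.e (nat_lit 811031) (nat_lit 11) (.e (nat_lit 883) (nat_lit 75) .nil))))))) (.g (nat_lit 1) (.e (nat_lit 432848) (nat_lit 0) .nil) .nil)))) (.nd (nat_lit 9) 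
(.lf (nat_lit 605654) (.g (nat_lit 886) (.e (nat_lit 778462) (nat_lit 11) (.e (nat_lit 24658) (nat_lit 13) (.e (nat_lit 393297) (nat_lit 27) (.e (nat_lit 491560) (nat_lit 10) .nil)))) (.g (nat_lit 0) (.e (nat_lit 432535) (nat_lit 0) .nil) .nil))) 
(.lf (nat_lit 606166) (.g (nat_lit 2906) (.e (nat_lit 778466) (nat_lit 11) (.e (nat_lit 24617) (nat_lit 7) (.e (nat_lit 319534) (nat_lit 16) (.e (nat_lit 286759) (nat_lit 12) (.e (nat_lit 385115) (nat_lit 53) (.e (nat_lit 811033) (nat_lit 11) (.e (nat_lit 883) (nat_lit 75) .nil))))))) (.g (nat_lit 1) (.e (nat_lit 433201) (nat_lit 0) .nil) .nil))))))) 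
(.nd (nat_lit 6) (.nd (nat_lit 7) (.nd (nat_lit 8) (.nd (nat_lit 9) 
(.lf (nat_lit 605238) (.g (nat_lit 2362) (.e (nat_lit 778327) (nat_lit 6) (.e (nat_lit 81957) (nat_lit 24) (.e (nat_lit 123195) (nat_lit 266) (.e (nat_lit 57435) (nat_lit 17) (.e (nat_lit 376835) (nat_lit 0) .nil))))) (.g (nat_lit 0) (.e (nat_lit 431902) (nat_lit 0) .nil) .nil))) 
(.lf (nat_lit 605750) (.g (nat_lit 1256) (.e (nat_lit 778464) (nat_lit 11) (.e (nat_lit 24617) (nat_lit 7) (.e (nat_lit 319531) (nat_lit 16) (.e (nat_lit 286759) (nat_lit 12) .nil)))) (.g (nat_lit 0) (.e (nat_lit 432651) (nat_lit 0) .nil) .nil)))) (.nd (nat_lit 9) 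
(.lf (nat_lit 605494) (.g (nat_lit 3095) (.e (nat_lit 778462) (nat_lit 11) (.e (nat_lit 24608) (nat_lit 3) (.e (nat_lit 98365) (nat_lit 26) (.e (nat_lit 426306) (nat_lit 12) (.e (nat_lit 475179) (nat_lit 24) (.e (nat_lit 516099) (nat_lit 0) (.e (nat_lit 3617) (nat_lit 227) .nil))))))) (.g (nat_lit 1) (.e (nat_lit 432305) (nat_lit 0) .nil) .nil))) 
(.lf (nat_lit 606006) (.g (nat_lit 3077) (.e (nat_lit 778466) (nat_lit 11) (.e (nat_lit 24616) (nat_lit 7) (.e (nat_lit 319530) (nat_lit 16) (.e (nat_lit 286759) (nat_lit 12) (.e (nat_lit 385115) (nat_lit 53) (.e (nat_lit 811033) (nat_lit 11) (.e (nat_lit 917) (nat_lit 75) .nil))))))) (.g (nat_lit 1) (.e (nat_lit 432987) (nat_lit 0) .nil) .nil))))) (.nd (nat_lit 8) (.nd (nat_lit 9) 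
(.lf (nat_lit 605366) (.g (nat_lit 3793) (.e (nat_lit 778461) (nat_lit 11) (.e (nat_lit 24608) (nat_lit 3) (.e (nat_lit 98373) (nat_lit 29) (.e (nat_lit 450588) (nat_lit 10) (.e (nat_lit 573475) (nat_lit 12) .nil))))) (.g (nat_lit 0) (.e (nat_lit 432161) (nat_lit 0) .nil) .nil))) 
(.lf (nat_lit 605878) (.g (nat_lit 1662) (.e (nat_lit 778465) (nat_lit 11) (.e (nat_lit 24616) (nat_lit 7) (.e (nat_lit 319530) (nat_lit 16) (.e (nat_lit 286759) (nat_lit 12) (.e (nat_lit 385113) (nat_lit 53) .nil))))) (.g (nat_lit 0) (.e (nat_lit 432816) (nat_lit 0) .nil) .nil)))) (.nd (nat_lit 9) 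
(.lf (nat_lit 605622) (.g (nat_lit 1976) (.e (nat_lit 778462) (nat_lit 11) (.e (nat_lit 24655) (nat_lit 13) (.e (nat_lit 393300) (nat_lit 27) (.e (nat_lit 491560) (nat_lit 10) (.e (nat_lit 352000) (nat_lit 44) .nil))))) (.g (nat_lit 1) (.e (nat_lit 432484) (nat_lit 0) .nil) .nil))) 
(.lf (nat_lit 606134) (.g (nat_lit 3625) (.e (nat_lit 778466) (nat_lit 11) (.e (nat_lit 24617) (nat_lit 7) (.e (nat_lit 319534) (nat_lit 16) (.e (nat_lit 286756) (nat_lit 10) (.e (nat_lit 344160) (nat_lit 37) (.e (nat_lit 647190) (nat_lit 9) (.e (nat_lit 1035) (nat_lit 81) (.e (nat_lit 2342) (nat_lit 151) .nil)))))))) (.g (nat_lit 1) (.e (nat_lit 433164) (nat_lit 0) .nil) .nil)))))) 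
(.nd (nat_lit 7) (.nd (nat_lit 8) (.nd (nat_lit 9) 
(.lf (nat_lit 605302) (.g (nat_lit 1299) (.e (nat_lit 778459) (nat_lit 11) (.e (nat_lit 24660) (nat_lit 13) (.e (nat_lit 393260) (nat_lit 21) (.e (nat_lit 409616) (nat_lit 10) .nil)))) (.g (nat_lit 0) (.e (nat_lit 432087) (nat_lit 0) .nil) .nil))) 
(.lf (nat_lit 605814) (.g (nat_lit 2332) (.e (nat_lit 778464) (nat_lit 11) (.e (nat_lit 24617) (nat_lit 7) (.e (nat_lit 319534) (nat_lit 16) (.e (nat_lit 286756) (nat_lit 10) (.e (nat_lit 344160) (nat_lit 37) (.e (nat_lit 647196) (nat_lit 9) (.e (nat_lit 991) (nat_lit 81) (.e (nat_lit 2354) (nat_lit 151) .nil)))))))) (.g (nat_lit 1) (.e (nat_lit 432723) (nat_lit 0) .nil) .nil)))) (.nd (nat_lit 9) 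
(.lf (nat_lit 605558) (.g (nat_lit 2482) (.e (nat_lit 778462) (nat_lit 11) (.e (nat_lit 24628) (nat_lit 9) (.e (nat_lit 336443) (nat_lit 32) (.e (nat_lit 466969) (nat_lit 21) (.e (nat_lit 164332) (nat_lit 230) (.e (nat_lit 163847) (nat_lit 0) (.e (nat_lit 3648) (nat_lit 227) .nil))))))) (.g (nat_lit 1) (.e (nat_lit 432404) (nat_lit 0) .nil) .nil))) 
(.lf (nat_lit 606070) (.g (nat_lit 3542) (.e (nat_lit 778466) (nat_lit 11) (.e (nat_lit 24617) (nat_lit 7) (.e (nat_lit 319533) (nat_lit 16) (.e (nat_lit 286753) (nat_lit 10) (.e (nat_lit 344160) (nat_lit 37) (.e (nat_lit 647196) (nat_lit 9) (.e (nat_lit 991) (nat_lit 81) (.e (nat_lit 2314) (nat_lit 151) .nil)))))))) (.g (nat_lit 1) (.e (nat_lit 433071) (nat_lit 0) .nil) .nil))))) 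
(.nd (nat_lit 8) (.nd (nat_lit 9) 
(.lf (nat_lit 605430) (.g (nat_lit 2141) (.e (nat_lit 778462) (nat_lit 11) (.e (nat_lit 24604) (nat_lit 2) (.e (nat_lit 90185) (nat_lit 17) (.e (nat_lit 237605) (nat_lit 9) (.e (nat_lit 426436) (nat_lit 18) (.e (nat_lit 98324) (nat_lit 17) (.e (nat_lit 3617) (nat_lit 227) .nil))))))) (.g (nat_lit 1) (.e (nat_lit 432232) (nat_lit 0) .nil) .nil))) 
(.lf (nat_lit 605942) (.g (nat_lit 430) (.e (nat_lit 778465) (nat_lit 11) (.e (nat_lit 24654) (nat_lit 13) (.e (nat_lit 393237) (nat_lit 17) (.e (nat_lit 7936) (nat_lit 407) .nil)))) (.g (nat_lit 0) (.e (nat_lit 432880) (nat_lit 0) .nil) .nil)))) (.nd (nat_lit 9) 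
(.lf (nat_lit 605686) (.g (nat_lit 1877) (.e (nat_lit 778463) (nat_lit 11) (.e (nat_lit 24607) (nat_lit 3) (.e (nat_lit 98372) (nat_lit 29) (.e (nat_lit 450587) (nat_lit 10) (.e (nat_lit 573478) (nat_lit 12) .nil))))) (.g (nat_lit 0) (.e (nat_lit 432569) (nat_lit 0) .nil) .nil))) 
(.lf (nat_lit 606198) (.g (nat_lit 1176) (.e (nat_lit 778466) (nat_lit 11) (.e (nat_lit 24658) (nat_lit 13) (.e (nat_lit 393239) (nat_lit 17) (.e (nat_lit 7936) (nat_lit 407) .nil)))) (.g (nat_lit 0) (.e (nat_lit 433234) (nat_lit 0) .nil) .nil))))))))) (.nd (nat_lit 4) (.nd (nat_lit 5) (.nd (nat_lit 6) (.nd (nat_lit 7) (.nd (nat_lit 8) (.nd (nat_lit 9) 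
(.lf (nat_lit 605198) (.g (nat_lit 999) (.e (nat_lit 778326) (nat_lit 6) (.e (nat_lit 81922) (nat_lit 0) (.e (nat_lit 3632) (nat_lit 227) (.e (nat_lit 778327) (nat_lit 6) (.e (nat_lit 81922) (nat_lit 0) .nil))))) (.g (nat_lit 0) (.e (nat_lit 431837) (nat_lit 0) .nil) .nil))) 
(.lf (nat_lit 605710) (.g (nat_lit 3508) (.e (nat_lit 778464) (nat_lit 11) (.e (nat_lit 24604) (nat_lit 2) (.e (nat_lit 90170) (nat_lit 13) (.e (nat_lit 172106) (nat_lit 10) (.e (nat_lit 434242) (nat_lit 28) .nil))))) (.g (nat_lit 0) (.e (nat_lit 432607) (nat_lit 0) .nil) .nil)))) (.nd (nat_lit 9) 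
(.lf (nat_lit 605454) (.g (nat_lit 3059) (.e (nat_lit 778462) (nat_lit 11) (.e (nat_lit 24608) (nat_lit 3) (.e (nat_lit 98365) (nat_lit 26) (.e (nat_lit 426187) (nat_lit 9) (.e (nat_lit 426428) (nat_lit 17) (.e (nat_lit 90181) (nat_lit 16) (.e (nat_lit 229466) (nat_lit 55) .nil))))))) (.g (nat_lit 1) (.e (nat_lit 432265) (nat_lit 0) .nil) .nil))) 
(.lf (nat_lit 605966) (.g (nat_lit 2383) (.e (nat_lit 778466) (nat_lit 11) (.e (nat_lit 24604) (nat_lit 2) (.e (nat_lit 90177) (nat_lit 15) (.e (nat_lit 188434) (nat_lit 20) (.e (nat_lit 3304) (nat_lit 202) .nil))))) (.g (nat_lit 0) (.e (nat_lit 432935) (nat_lit 0) .nil) .nil))))) (.nd (nat_lit 8) (.nd (nat_lit 9) 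
(.lf (nat_lit 605326) (.g (nat_lit 1870) (.e (nat_lit 778460) (nat_lit 11) (.e (nat_lit 24617) (nat_lit 7) (.e (nat_lit 319533) (nat_lit 16) (.e (nat_lit 286753) (nat_lit 10) .nil)))) (.g (nat_lit 0) (.e (nat_lit 432111) (nat_lit 0) .nil) .nil))) 
(.lf (nat_lit 605838) (.g (nat_lit 897) (.e (nat_lit 778464) (nat_lit 11) (.e (nat_lit 24625) (nat_lit 9) (.e (nat_lit 336439) (nat_lit 31) .nil))) (.g (nat_lit 0) (.e (nat_lit 432749) (nat_lit 0) .nil) .nil)))) (.nd (nat_lit 9) 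
(.lf (nat_lit 605582) (.g (nat_lit 1991) (.e (nat_lit 778462) (nat_lit 11) (.e (nat_lit 24628) (nat_lit 9) (.e (nat_lit 336443) (nat_lit 32) (.e (nat_lit 466972) (nat_lit 21) (.e (nat_lit 164332) (nat_lit 230) (.e (nat_lit 163843) (nat_lit 0) (.e (nat_lit 3647) (nat_lit 227) .nil))))))) (.g (nat_lit 1) (.e (nat_lit 432432) (nat_lit 0) .nil) .nil))) 
(.lf (nat_lit 606094) (.g (nat_lit 1744) (.e (nat_lit 778466) (nat_lit 11) (.e (nat_lit 24617) (nat_lit 7) (.e (nat_lit 319534) (nat_lit 16) (.e (nat_lit 286756) (nat_lit 10) (.e (nat_lit 344090) (nat_lit 18) .nil))))) (.g (nat_lit 0) (.e (nat_lit 433112) (nat_lit 0) .nil) .nil)))))) (.nd (nat_lit 7) (.nd (nat_lit 8) (.nd (nat_lit 9) 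
(.lf (nat_lit 605262) (.g (nat_lit 1167) (.e (nat_lit 778359) (nat_lit 9) (.e (nat_lit 307) (nat_lit 22) (.e (nat_lit 344107) (nat_lit 19) (.e (nat_lit 499913) (nat_lit 9) .nil)))) (.g (nat_lit 0) (.e (nat_lit 431974) (nat_lit 0) .nil) .nil))) 
(.lf (nat_lit 605774) (.g (nat_lit 2275) (.e (nat_lit 778464) (nat_lit 11) (.e (nat_lit 24617) (nat_lit 7) (.e (nat_lit 319533) (nat_lit 16) (.e (nat_lit 286753) (nat_lit 10) (.e (nat_lit 344160) (nat_lit 37) (.e (nat_lit 647190) (nat_lit 9) (.e (nat_lit 1005) (nat_lit 81) (.e (nat_lit 2343) (nat_lit 151) .nil)))))))) (.g (nat_lit 1) (.e (nat_lit 432679) (nat_lit 0) .nil) .nil)))) 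
(.nd (nat_lit 9) 
(.lf (nat_lit 605518) (.g (nat_lit 300) (.e (nat_lit 778462) (nat_lit 11) (.e (nat_lit 24608) (nat_lit 3) (.e (nat_lit 98381) (nat_lit 31) .nil))) (.g (nat_lit 0) (.e (nat_lit 432337) (nat_lit 0) .nil) .nil))) 
(.lf (nat_lit 606030) (.g (nat_lit 1950) (.e (nat_lit 778466) (nat_lit 11) (.e (nat_lit 24617) (nat_lit 7) (.e (nat_lit 319530) (nat_lit 16) (.e (nat_lit 286759) (nat_lit 12) (.e (nat_lit 385115) (nat_lit 53) .nil))))) (.g (nat_lit 0) (.e (nat_lit 433026) (nat_lit 0) .nil) .nil))))) (.nd (nat_lit 8) (.nd (nat_lit 9) 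
(.lf (nat_lit 605390) (.g (nat_lit 691) (.e (nat_lit 778462) (nat_lit 11) (.e (nat_lit 24604) (nat_lit 2) (.e (nat_lit 90176) (nat_lit 15) (.e (nat_lit 188439) (nat_lit 20) .nil)))) (.g (nat_lit 0) (.e (nat_lit 432192) (nat_lit 0) .nil) .nil))) 
(.lf (nat_lit 605902) (.g (nat_lit 3843) (.e (nat_lit 778465) (nat_lit 11) (.e (nat_lit 24617) (nat_lit 7) (.e (nat_lit 319533) (nat_lit 16) (.e (nat_lit 286753) (nat_lit 10) (.e (nat_lit 344160) (nat_lit 37) (.e (nat_lit 647201) (nat_lit 12) (.e (nat_lit 65280) (nat_lit 55) .nil))))))) (.g (nat_lit 1) (.e (nat_lit 432840) (nat_lit 0) .nil) .nil)))) (.nd (nat_lit 9) 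
(.lf (nat_lit 605646) (.g (nat_lit 2203) (.e (nat_lit 778462) (nat_lit 11) (.e (nat_lit 24658) (nat_lit 13) (.e (nat_lit 393281) (nat_lit 23) (.e (nat_lit 426100) (nat_lit 1) (.e (nat_lit 164332) (nat_lit 230) (.e (nat_lit 163841) (nat_lit 0) (.e (nat_lit 3617) (nat_lit 227) .nil))))))) (.g (nat_lit 1) (.e (nat_lit 432526) (nat_lit 0) .nil) .nil))) 
(.lf (nat_lit 606158) (.g (nat_lit 2760) (.e (nat_lit 778466) (nat_lit 11) (.e (nat_lit 24617) (nat_lit 7) (.e (nat_lit 319534) (nat_lit 16) (.e (nat_lit 286756) (nat_lit 10) (.e (nat_lit 344160) (nat_lit 37) (.e (nat_lit 647203) (nat_lit 14) (.e (nat_lit 2510) (nat_lit 157) (.e (nat_lit 879) (nat_lit 75) .nil)))))))) (.g (nat_lit 1) (.e (nat_lit 433189) (nat_lit 0) .nil) .nil))))))) 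
(.nd (nat_lit 6) (.nd (nat_lit 7) (.nd (nat_lit 8) (.nd (nat_lit 9) 
(.lf (nat_lit 605230) (.g (nat_lit 1499) (.e (nat_lit 778327) (nat_lit 6) (.e (nat_lit 81949) (nat_lit 21) (.e (nat_lit 57870) (nat_lit 264) (.e (nat_lit 1219) (nat_lit 90) (.e (nat_lit 81922) (nat_lit 0) .nil))))) (.g (nat_lit 0) (.e (nat_lit 431882) (nat_lit 0) .nil) .nil))) 
(.lf (nat_lit 605742) (.g (nat_lit 1795) (.e (nat_lit 778464) (nat_lit 11) (.e (nat_lit 24617) (nat_lit 7) (.e (nat_lit 319528) (nat_lit 16) (.e (nat_lit 286759) (nat_lit 12) (.e (nat_lit 385115) (nat_lit 53) (.e (nat_lit 811038) (nat_lit 11) (.e (nat_lit 913) (nat_lit 75) .nil))))))) (.g (nat_lit 1) (.e (nat_lit 432641) (nat_lit 0) .nil) .nil)))) (.nd (nat_lit 9) 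
(.lf (nat_lit 605486) (.g (nat_lit 3370) (.e (nat_lit 778462) (nat_lit 11) (.e (nat_lit 24608) (nat_lit 3) (.e (nat_lit 98365) (nat_lit 26) (.e (nat_lit 426306) (nat_lit 12) (.e (nat_lit 475177) (nat_lit 24) (.e (nat_lit 516097) (nat_lit 0) (.e (nat_lit 3663) (nat_lit 227) .nil))))))) (.g (nat_lit 1) (.e (nat_lit 432297) (nat_lit 0) .nil) .nil))) 
(.lf (nat_lit 605998) (.g (nat_lit 1638) (.e (nat_lit 778466) (nat_lit 11) (.e (nat_lit 24608) (nat_lit 3) (.e (nat_lit 98382) (nat_lit 31) .nil))) (.g (nat_lit 0) (.e (nat_lit 432977) (nat_lit 0) .nil) .nil))))) (.nd (nat_lit 8) (.nd (nat_lit 9) 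
(.lf (nat_lit 605358) (.g (nat_lit 1454) (.e (nat_lit 778460) (nat_lit 11) (.e (nat_lit 24658) (nat_lit 13) (.e (nat_lit 393281) (nat_lit 23) (.e (nat_lit 426099) (nat_lit 1) .nil)))) (.g (nat_lit 0) (.e (nat_lit 432152) (nat_lit 0) .nil) .nil))) 
(.lf (nat_lit 605870) (.g (nat_lit 2667) (.e (nat_lit 778465) (nat_lit 11) (.e (nat_lit 24608) (nat_lit 3) (.e (nat_lit 98372) (nat_lit 29) (.e (nat_lit 450587) (nat_lit 10) (.e (nat_lit 573477) (nat_lit 12) .nil))))) (.g (nat_lit 0) (.e (nat_lit 432807) (nat_lit 0) .nil) .nil)))) (.nd (nat_lit 9) 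
(.lf (nat_lit 605614) (.g (nat_lit 1336) (.e (nat_lit 778462) (nat_lit 11) (.e (nat_lit 24655) (nat_lit 13) (.e (nat_lit 393232) (nat_lit 17) (.e (nat_lit 7591) (nat_lit 407) .nil)))) (.g (nat_lit 0) (.e (nat_lit 432470) (nat_lit 0) .nil) .nil))) 
(.lf (nat_lit 606126) (.g (nat_lit 3358) (.e (nat_lit 778466) (nat_lit 11) (.e (nat_lit 24617) (nat_lit 7) (.e (nat_lit 319534) (nat_lit 16) (.e (nat_lit 286756) (nat_lit 10) (.e (nat_lit 344160) (nat_lit 37) (.e (nat_lit 647190) (nat_lit 9) (.e (nat_lit 987) (nat_lit 81) (.e (nat_lit 2347) (nat_lit 151) .nil)))))))) (.g (nat_lit 1) (.e (nat_lit 433156) (nat_lit 0) .nil) .nil)))))) 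
(.nd (nat_lit 7) (.nd (nat_lit 8) (.nd (nat_lit 9) 
(.lf (nat_lit 605294) (.g (nat_lit 2378) (.e (nat_lit 778459) (nat_lit 11) (.e (nat_lit 24658) (nat_lit 13) (.e (nat_lit 393234) (nat_lit 17) (.e (nat_lit 7593) (nat_lit 407) .nil)))) (.g (nat_lit 0) (.e (nat_lit 432079) (nat_lit 0) .nil) .nil))) 
(.lf (nat_lit 605806) (.g (nat_lit 2360) (.e (nat_lit 778464) (nat_lit 11) (.e (nat_lit 24617) (nat_lit 7) (.e (nat_lit 319534) (nat_lit 16) (.e (nat_lit 286756) (nat_lit 10) (.e (nat_lit 344160) (nat_lit 37) (.e (nat_lit 647190) (nat_lit 9) (.e (nat_lit 983) (nat_lit 81) (.e (nat_lit 2345) (nat_lit 151) .nil)))))))) (.g (nat_lit 1) (.e (nat_lit 432715) (nat_lit 0) .nil) .nil)))) (.nd (nat_lit 9) 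
(.lf (nat_lit 605550) (.g (nat_lit 2745) (.e (nat_lit 778462) (nat_lit 11) (.e (nat_lit 24628) (nat_lit 9) (.e (nat_lit 336443) (nat_lit 32) (.e (nat_lit 466969) (nat_lit 21) (.e (nat_lit 164332) (nat_lit 230) (.e (nat_lit 163843) (nat_lit 0) (.e (nat_lit 3651) (nat_lit 227) .nil))))))) (.g (nat_lit 1) (.e (nat_lit 432396) (nat_lit 0) .nil) .nil))) 
(.lf (nat_lit 606062) (.g (nat_lit 2946) (.e (nat_lit 778466) (nat_lit 11) (.e (nat_lit 24617) (nat_lit 7) (.e (nat_lit 319533) (nat_lit 16) (.e (nat_lit 286753) (nat_lit 10) (.e (nat_lit 344160) (nat_lit 37) (.e (nat_lit 647190) (nat_lit 9) (.e (nat_lit 1032) (nat_lit 81) (.e (nat_lit 2342) (nat_lit 151) .nil)))))))) (.g (nat_lit 1) (.e (nat_lit 433063) (nat_lit 0) .nil) .nil))))) 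
(.nd (nat_lit 8) (.nd (nat_lit 9) 
(.lf (nat_lit 605422) (.g (nat_lit 1658) (.e (nat_lit 778462) (nat_lit 11) (.e (nat_lit 24604) (nat_lit 2) (.e (nat_lit 90185) (nat_lit 17) (.e (nat_lit 237605) (nat_lit 9) (.e (nat_lit 426436) (nat_lit 18) (.e (nat_lit 98321) (nat_lit 17) (.e (nat_lit 3650) (nat_lit 227) .nil))))))) (.g (nat_lit 1) (.e (nat_lit 432224) (nat_lit 0) .nil) .nil))) 
(.lf (nat_lit 605934) (.g (nat_lit 765) (.e (nat_lit 778465) (nat_lit 11) (.e (nat_lit 24628) (nat_lit 9) (.e (nat_lit 336439) (nat_lit 31) .nil))) (.g (nat_lit 0) (.e (nat_lit 432872) (nat_lit 0) .nil) .nil)))) (.nd (nat_lit 9) 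
(.lf (nat_lit 605678) (.g (nat_lit 1775) (.e (nat_lit 778463) (nat_lit 11) (.e (nat_lit 24604) (nat_lit 2) (.e (nat_lit 90178) (nat_lit 15) (.e (nat_lit 188440) (nat_lit 20) .nil)))) (.g (nat_lit 0) (.e (nat_lit 432559) (nat_lit 0) .nil) .nil))) 
(.lf (nat_lit 606190) (.g (nat_lit 3422) (.e (nat_lit 778466) (nat_lit 11) (.e (nat_lit 24632) (nat_lit 9) (.e (nat_lit 336386) (nat_lit 27) (.e (nat_lit 426011) (nat_lit 0) (.e (nat_lit 7593) (nat_lit 407) (.e (nat_lit 73775) (nat_lit 26) .nil)))))) (.g (nat_lit 1) (.e (nat_lit 433226) (nat_lit 0) .nil) .nil)))))))) 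
(.nd (nat_lit 5) (.nd (nat_lit 6) (.nd (nat_lit 7) (.nd (nat_lit 8) (.nd (nat_lit 9) 
(.lf (nat_lit 605214) (.g (nat_lit 1749) (.e (nat_lit 778326) (nat_lit 6) (.e (nat_lit 81957) (nat_lit 24) (.e (nat_lit 123182) (nat_lit 264) (.e (nat_lit 1218) (nat_lit 90) .nil)))) (.g (nat_lit 0) (.e (nat_lit 431862) (nat_lit 0) .nil) .nil))) 
(.lf (nat_lit 605726) (.g (nat_lit 3250) (.e (nat_lit 778464) (nat_lit 11) (.e (nat_lit 24608) (nat_lit 3) (.e (nat_lit 98373) (nat_lit 29) (.e (nat_lit 450586) (nat_lit 10) (.e (nat_lit 573477) (nat_lit 12) .nil))))) (.g (nat_lit 0) (.e (nat_lit 432624) (nat_lit 0) .nil) .nil)))) (.nd (nat_lit 9) 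
(.lf (nat_lit 605470) (.g (nat_lit 2465) (.e (nat_lit 778462) (nat_lit 11) (.e (nat_lit 24608) (nat_lit 3) (.e (nat_lit 98365) (nat_lit 26) (.e (nat_lit 426188) (nat_lit 9) (.e (nat_lit 426436) (nat_lit 18) (.e (nat_lit 98321) (nat_lit 17) (.e (nat_lit 3648) (nat_lit 227) .nil))))))) (.g (nat_lit 1) (.e (nat_lit 432281) (nat_lit 0) .nil) .nil))) 
(.lf (nat_lit 605982) (.g (nat_lit 2853) (.e (nat_lit 778466) (nat_lit 11) (.e (nat_lit 24608) (nat_lit 3) (.e (nat_lit 98365) (nat_lit 26) (.e (nat_lit 426187) (nat_lit 9) (.e (nat_lit 426438) (nat_lit 18) (.e (nat_lit 98323) (nat_lit 17) (.e (nat_lit 3686) (nat_lit 227) .nil))))))) (.g (nat_lit 1) (.e (nat_lit 432961) (nat_lit 0) .nil) .nil))))) (.nd (nat_lit 8) (.nd (nat_lit 9) 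
(.lf (nat_lit 605342) (.g (nat_lit 2422) (.e (nat_lit 778460) (nat_lit 11) (.e (nat_lit 24628) (nat_lit 9) (.e (nat_lit 336443) (nat_lit 32) (.e (nat_lit 466969) (nat_lit 21) (.e (nat_lit 164332) (nat_lit 230) .nil))))) (.g (nat_lit 0) (.e (nat_lit 432129) (nat_lit 0) .nil) .nil))) 
(.lf (nat_lit 605854) (.g (nat_lit 3201) (.e (nat_lit 778465) (nat_lit 11) (.e (nat_lit 24604) (nat_lit 2) (.e (nat_lit 90170) (nat_lit 13) (.e (nat_lit 172106) (nat_lit 10) (.e (nat_lit 434243) (nat_lit 28) (.e (nat_lit 573477) (nat_lit 12) (.e (nat_lit 57574) (nat_lit 55) .nil))))))) (.g (nat_lit 1) (.e (nat_lit 432791) (nat_lit 0) .nil) .nil)))) (.nd (nat_lit 9) 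
(.lf (nat_lit 605598) (.g (nat_lit 2278) (.e (nat_lit 778462) (nat_lit 11) (.e (nat_lit 24628) (nat_lit 9) (.e (nat_lit 336443) (nat_lit 32) (.e (nat_lit 466972) (nat_lit 21) (.e (nat_lit 164332) (nat_lit 230) (.e (nat_lit 163847) (nat_lit 0) (.e (nat_lit 3661) (nat_lit 227) .nil))))))) (.g (nat_lit 1) (.e (nat_lit 432448) (nat_lit 0) .nil) .nil))) 
(.lf (nat_lit 606110) (.g (nat_lit 3314) (.e (nat_lit 778466) (nat_lit 11) (.e (nat_lit 24617) (nat_lit 7) (.e (nat_lit 319534) (nat_lit 16) (.e (nat_lit 286756) (nat_lit 10) (.e (nat_lit 344169) (nat_lit 40) (.e (nat_lit 671780) (nat_lit 12) (.e (nat_lit 164050) (nat_lit 55) .nil))))))) (.g (nat_lit 1) (.e (nat_lit 433140) (nat_lit 0) .nil) .nil)))))) 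
(.nd (nat_lit 7) (.nd (nat_lit 8) (.nd (nat_lit 9) 
(.lf (nat_lit 605278) (.g (nat_lit 3142) (.e (nat_lit 778447) (nat_lit 10) (.e (nat_lit 8326) (nat_lit 69) (.e (nat_lit 557105) (nat_lit 14) (.e (nat_lit 180252) (nat_lit 10) (.e (nat_lit 573487) (nat_lit 14) .nil))))) (.g (nat_lit 0) (.e (nat_lit 432053) (nat_lit 0) .nil) .nil))) 
(.lf (nat_lit 605790) (.g (nat_lit 1399) (.e (nat_lit 778464) (nat_lit 11) (.e (nat_lit 24617) (nat_lit 7) (.e (nat_lit 319533) (nat_lit 16) (.e (nat_lit 286759) (nat_lit 12) .nil)))) (.g (nat_lit 0) (.e (nat_lit 432695) (nat_lit 0) .nil) .nil)))) (.nd (nat_lit 9) 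
(.lf (nat_lit 605534) (.g (nat_lit 1848) (.e (nat_lit 778462) (nat_lit 11) (.e (nat_lit 24628) (nat_lit 9) (.e (nat_lit 336438) (nat_lit 31) (.e (nat_lit 458769) (nat_lit 16) (.e (nat_lit 164289) (nat_lit 224) (.e (nat_lit 164103) (nat_lit 116) .nil)))))) (.g (nat_lit 1) (.e (nat_lit 432376) (nat_lit 0) .nil) .nil))) 
(.lf (nat_lit 606046) (.g (nat_lit 1402) (.e (nat_lit 778466) (nat_lit 11) (.e (nat_lit 24617) (nat_lit 7) (.e (nat_lit 319533) (nat_lit 16) (.e (nat_lit 286753) (nat_lit 10) .nil)))) (.g (nat_lit 0) (.e (nat_lit 433046) (nat_lit 0) .nil) .nil))))) (.nd (nat_lit 8) (.nd (nat_lit 9) 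
(.lf (nat_lit 605406) (.g (nat_lit 2590) (.e (nat_lit 778462) (nat_lit 11) (.e (nat_lit 24604) (nat_lit 2) (.e (nat_lit 90185) (nat_lit 17) (.e (nat_lit 237601) (nat_lit 9) (.e (nat_lit 426428) (nat_lit 17) (.e (nat_lit 90181) (nat_lit 16) (.e (nat_lit 229466) (nat_lit 55) .nil))))))) (.g (nat_lit 1) (.e (nat_lit 432208) (nat_lit 0) .nil) .nil))) 
(.lf (nat_lit 605918) (.g (nat_lit 3348) (.e (nat_lit 778465) (nat_lit 11) (.e (nat_lit 24617) (nat_lit 7) (.e (nat_lit 319534) (nat_lit 16) (.e (nat_lit 286756) (nat_lit 10) (.e (nat_lit 344160) (nat_lit 37) (.e (nat_lit 647201) (nat_lit 12) (.e (nat_lit 65280) (nat_lit 55) .nil))))))) (.g (nat_lit 1) (.e (nat_lit 432856) (nat_lit 0) .nil) .nil)))) (.nd (nat_lit 9) 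
(.lf (nat_lit 605662) (.g (nat_lit 2709) (.e (nat_lit 778462) (nat_lit 11) (.e (nat_lit 24658) (nat_lit 13) (.e (nat_lit 393301) (nat_lit 27) (.e (nat_lit 491560) (nat_lit 10) (.e (nat_lit 352000) (nat_lit 44) .nil))))) (.g (nat_lit 1) (.e (nat_lit 432543) (nat_lit 0) .nil) .nil))) 
(.lf (nat_lit 606174) (.g (nat_lit 867) (.e (nat_lit 778466) (nat_lit 11) (.e (nat_lit 24625) (nat_lit 9) (.e (nat_lit 336377) (nat_lit 27) .nil))) (.g (nat_lit 0) (.e (nat_lit 433209) (nat_lit 0) .nil) .nil))))))) (.nd (nat_lit 6) (.nd (nat_lit 7) (.nd (nat_lit 8) (.nd (nat_lit 9) 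
(.lf (nat_lit 605246) (.g (nat_lit 483) (.e (nat_lit 786176) (nat_lit 6) (.e (nat_lit 81943) (nat_lit 20) (.e (nat_lit 1886) (nat_lit 127) (.e (nat_lit 581652) (nat_lit 5) (.e (nat_lit 180291) (nat_lit 48) .nil))))) (.g (nat_lit 0) (.e (nat_lit 431914) (nat_lit 0) .nil) .nil))) 
(.lf (nat_lit 605758) (.g (nat_lit 2789) (.e (nat_lit 778464) (nat_lit 11) (.e (nat_lit 24617) (nat_lit 7) (.e (nat_lit 319531) (nat_lit 16) (.e (nat_lit 286759) (nat_lit 12) (.e (nat_lit 385115) (nat_lit 53) (.e (nat_lit 811034) (nat_lit 11) (.e (nat_lit 883) (nat_lit 75) .nil))))))) (.g (nat_lit 1) (.e (nat_lit 432660) (nat_lit 0) .nil) .nil)))) (.nd (nat_lit 9) 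
(.lf (nat_lit 605502) (.g (nat_lit 2723) (.e (nat_lit 778462) (nat_lit 11) (.e (nat_lit 24608) (nat_lit 3) (.e (nat_lit 98372) (nat_lit 29) (.e (nat_lit 450586) (nat_lit 10) (.e (nat_lit 573473) (nat_lit 12) (.e (nat_lit 65280) (nat_lit 55) .nil)))))) (.g (nat_lit 1) (.e (nat_lit 432315) (nat_lit 0) .nil) .nil))) 
(.lf (nat_lit 606014) (.g (nat_lit 892) (.e (nat_lit 778466) (nat_lit 11) (.e (nat_lit 24617) (nat_lit 7) (.e (nat_lit 319511) (nat_lit 10) .nil))) (.g (nat_lit 0) (.e (nat_lit 432995) (nat_lit 0) .nil) .nil))))) (.nd (nat_lit 8) (.nd (nat_lit 9) 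
(.lf (nat_lit 605374) (.g (nat_lit 1284) (.e (nat_lit 778461) (nat_lit 11) (.e (nat_lit 24655) (nat_lit 13) (.e (nat_lit 393249) (nat_lit 17) (.e (nat_lit 7936) (nat_lit 407) .nil)))) (.g (nat_lit 0) (.e (nat_lit 432172) (nat_lit 0) .nil) .nil))) 
(.lf (nat_lit 605886) (.g (nat_lit 3047) (.e (nat_lit 778465) (nat_lit 11) (.e (nat_lit 24617) (nat_lit 7) (.e (nat_lit 319529) (nat_lit 16) (.e (nat_lit 286759) (nat_lit 12) (.e (nat_lit 385115) (nat_lit 53) (.e (nat_lit 811032) (nat_lit 11) (.e (nat_lit 883) (nat_lit 75) .nil))))))) (.g (nat_lit 1) (.e (nat_lit 432824) (nat_lit 0) .nil) .nil)))) (.nd (nat_lit 9) 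
(.lf (nat_lit 605630) (.g (nat_lit 2469) (.e (nat_lit 778462) (nat_lit 11) (.e (nat_lit 24658) (nat_lit 13) (.e (nat_lit 393281) (nat_lit 23) (.e (nat_lit 426098) (nat_lit 1) (.e (nat_lit 164325) (nat_lit 230) (.e (nat_lit 163841) (nat_lit 0) (.e (nat_lit 3617) (nat_lit 227) .nil))))))) (.g (nat_lit 1) (.e (nat_lit 432507) (nat_lit 0) .nil) .nil))) 
(.lf (nat_lit 606142) (.g (nat_lit 2869) (.e (nat_lit 778466) (nat_lit 11) (.e (nat_lit 24617) (nat_lit 7) (.e (nat_lit 319534) (nat_lit 16) (.e (nat_lit 286756) (nat_lit 10) (.e (nat_lit 344160) (nat_lit 37) (.e (nat_lit 647196) (nat_lit 9) (.e (nat_lit 990) (nat_lit 81) (.e (nat_lit 2349) (nat_lit 151) .nil)))))))) (.g (nat_lit 1) (.e (nat_lit 433172) (nat_lit 0) .nil) .nil)))))) 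
(.nd (nat_lit 7) (.nd (nat_lit 8) (.nd (nat_lit 9) 
(.lf (nat_lit 605310) (.g (nat_lit 1774) (.e (nat_lit 778459) (nat_lit 11) (.e (nat_lit 24660) (nat_lit 13) (.e (nat_lit 393260) (nat_lit 21) (.e (nat_lit 409623) (nat_lit 10) (.e (nat_lit 5293) (nat_lit 298) .nil))))) (.g (nat_lit 0) (.e (nat_lit 432095) (nat_lit 0) .nil) .nil))) 
(.lf (nat_lit 605822) (.g (nat_lit 2225) (.e (nat_lit 778464) (nat_lit 11) (.e (nat_lit 24617) (nat_lit 7) (.e (nat_lit 319534) (nat_lit 16) (.e (nat_lit 286756) (nat_lit 10) (.e (nat_lit 344160) (nat_lit 37) (.e (nat_lit 647195) (nat_lit 9) (.e (nat_lit 7936) (nat_lit 81) (.e (nat_lit 2354) (nat_lit 151) .nil)))))))) (.g (nat_lit 1) (.e (nat_lit 432731) (nat_lit 0) .nil) .nil)))) 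
(.nd (nat_lit 9) 
(.lf (nat_lit 605566) (.g (nat_lit 2667) (.e (nat_lit 778462) (nat_lit 11) (.e (nat_lit 24628) (nat_lit 9) (.e (nat_lit 336443) (nat_lit 32) (.e (nat_lit 466969) (nat_lit 21) (.e (nat_lit 164332) (nat_lit 230) (.e (nat_lit 163847) (nat_lit 0) (.e (nat_lit 3659) (nat_lit 227) .nil))))))) (.g (nat_lit 1) (.e (nat_lit 432412) (nat_lit 0) .nil) .nil))) 
(.lf (nat_lit 606078) (.g (nat_lit 3733) (.e (nat_lit 778466) (nat_lit 11) (.e (nat_lit 24617) (nat_lit 7) (.e (nat_lit 319533) (nat_lit 16) (.e (nat_lit 286753) (nat_lit 10) (.e (nat_lit 344160) (nat_lit 37) (.e (nat_lit 647195) (nat_lit 9) (.e (nat_lit 1074) (nat_lit 81) (.e (nat_lit 2303) (nat_lit 151) .nil)))))))) (.g (nat_lit 1) (.e (nat_lit 433079) (nat_lit 0) .nil) .nil))))) 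
(.nd (nat_lit 8) (.nd (nat_lit 9) 
(.lf (nat_lit 605438) (.g (nat_lit 3414) (.e (nat_lit 778462) (nat_lit 11) (.e (nat_lit 24605) (nat_lit 2) (.e (nat_lit 90170) (nat_lit 13) (.e (nat_lit 172113) (nat_lit 10) (.e (nat_lit 434245) (nat_lit 28) (.e (nat_lit 573474) (nat_lit 12) (.e (nat_lit 65280) (nat_lit 55) .nil))))))) (.g (nat_lit 1) (.e (nat_lit 432240) (nat_lit 0) .nil) .nil))) 
(.lf (nat_lit 605950) (.g (nat_lit 2610) (.e (nat_lit 778465) (nat_lit 11) (.e (nat_lit 24665) (nat_lit 14) (.e (nat_lit 401414) (nat_lit 0) (.e (nat_lit 3459) (nat_lit 216) (.e (nat_lit 688177) (nat_lit 16) (.e (nat_lit 65617) (nat_lit 10) (.e (nat_lit 352000) (nat_lit 44) .nil))))))) (.g (nat_lit 1) (.e (nat_lit 432891) (nat_lit 0) .nil) .nil)))) (.nd (nat_lit 9) 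
(.lf (nat_lit 605694) (.g (nat_lit 750) (.e (nat_lit 778463) (nat_lit 11) (.e (nat_lit 24627) (nat_lit 9) (.e (nat_lit 336438) (nat_lit 31) .nil))) (.g (nat_lit 0) (.e (nat_lit 432579) (nat_lit 0) .nil) .nil))) 
(.lf (nat_lit 606206) (.g (nat_lit 1513) (.e (nat_lit 778467) (nat_lit 11) (.e (nat_lit 24658) (nat_lit 13) (.e (nat_lit 393301) (nat_lit 27) .nil))) (.g (nat_lit 0) (.e (nat_lit 433250) (nat_lit 0) .nil) .nil)))))))))))) (.nd (nat_lit 1) (.nd (nat_lit 2) (.nd (nat_lit 3) (.nd (nat_lit 4) (.nd (nat_lit 5) (.nd (nat_lit 6) (.nd (nat_lit 7) (.nd (nat_lit 8) (.nd (nat_lit 9) 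
(.lf (nat_lit 605185) (.g (nat_lit 659) (.e (nat_lit 778325) (nat_lit 6) (.e (nat_lit 81950) (nat_lit 21) (.e (nat_lit 57849) (nat_lit 252) .nil))) (.g (nat_lit 0) (.e (nat_lit 431823) (nat_lit 0) .nil) .nil))) 
(.lf (nat_lit 605697) (.g (nat_lit 925) (.e (nat_lit 778463) (nat_lit 11) (.e (nat_lit 24631) (nat_lit 9) (.e (nat_lit 336389) (nat_lit 27) (.e (nat_lit 426343) (nat_lit 14) .nil)))) (.g (nat_lit 0) (.e (nat_lit 432582) (nat_lit 0) .nil) .nil)))) (.nd (nat_lit 9) 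
(.lf (nat_lit 605441) (.g (nat_lit 610) (.e (nat_lit 778462) (nat_lit 11) (.e (nat_lit 24607) (nat_lit 3) (.e (nat_lit 98372) (nat_lit 29) .nil))) (.g (nat_lit 0) (.e (nat_lit 432243) (nat_lit 0) .nil) .nil))) 
(.lf (nat_lit 605953) (.g (nat_lit 1212) (.e (nat_lit 778466) (nat_lit 11) (.e (nat_lit 24604) (nat_lit 2) (.e (nat_lit 90168) (nat_lit 13) (.e (nat_lit 172109) (nat_lit 10) .nil)))) (.g (nat_lit 0) (.e (nat_lit 432922) (nat_lit 0) .nil) .nil))))) (.nd (nat_lit 8) (.nd (nat_lit 9) 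
(.lf (nat_lit 605313) (.g (nat_lit 1645) (.e (nat_lit 778459) (nat_lit 11) (.e (nat_lit 24660) (nat_lit 13) (.e (nat_lit 393297) (nat_lit 27) (.e (nat_lit 491560) (nat_lit 10) (.e (nat_lit 352000) (nat_lit 44) .nil))))) (.g (nat_lit 0) (.e (nat_lit 432098) (nat_lit 0) .nil) .nil))) 
(.lf (nat_lit 605825) (.g (nat_lit 3851) (.e (nat_lit 778464) (nat_lit 11) (.e (nat_lit 24617) (nat_lit 7) (.e (nat_lit 319534) (nat_lit 16) (.e (nat_lit 286756) (nat_lit 10) (.e (nat_lit 344160) (nat_lit 37) (.e (nat_lit 647203) (nat_lit 14) (.e (nat_lit 2505) (nat_lit 157) (.e (nat_lit 879) (nat_lit 75) .nil)))))))) (.g (nat_lit 1) (.e (nat_lit 432734) (nat_lit 0) .nil) .nil)))) 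
(.nd (nat_lit 9) 
(.lf (nat_lit 605569) (.g (nat_lit 2110) (.e (nat_lit 778462) (nat_lit 11) (.e (nat_lit 24628) (nat_lit 9) (.e (nat_lit 336443) (nat_lit 32) (.e (nat_lit 466969) (nat_lit 21) (.e (nat_lit 164332) (nat_lit 230) (.e (nat_lit 163850) (nat_lit 0) (.e (nat_lit 3655) (nat_lit 227) .nil))))))) (.g (nat_lit 1) (.e (nat_lit 432415) (nat_lit 0) .nil) .nil))) 
(.lf (nat_lit 606081) (.g (nat_lit 3579) (.e (nat_lit 778466) (nat_lit 11) (.e (nat_lit 24617) (nat_lit 7) (.e (nat_lit 319533) (nat_lit 16) (.e (nat_lit 286753) (nat_lit 10) (.e (nat_lit 344160) (nat_lit 37) (.e (nat_lit 647203) (nat_lit 14) (.e (nat_lit 2509) (nat_lit 157) (.e (nat_lit 879) (nat_lit 75) .nil)))))))) (.g (nat_lit 1) (.e (nat_lit 433082) (nat_lit 0) .nil) .nil)))))) 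
(.nd (nat_lit 7) (.nd (nat_lit 8) (.nd (nat_lit 9) 
(.lf (nat_lit 605249) (.g (nat_lit 2704) (.e (nat_lit 778334) (nat_lit 9) (.e (nat_lit 2668) (nat_lit 167) (.e (nat_lit 196656) (nat_lit 11) (.e (nat_lit 16436) (nat_lit 9) (.e (nat_lit 426131) (nat_lit 3) .nil))))) (.g (nat_lit 0) (.e (nat_lit 431921) (nat_lit 0) .nil) .nil))) 
(.lf (nat_lit 605761) (.g (nat_lit 1689) (.e (nat_lit 778464) (nat_lit 11) (.e (nat_lit 24617) (nat_lit 7) (.e (nat_lit 319532) (nat_lit 16) (.e (nat_lit 286759) (nat_lit 12) (.e (nat_lit 385115) (nat_lit 53) .nil))))) (.g (nat_lit 0) (.e (nat_lit 432664) (nat_lit 0) .nil) .nil)))) (.nd (nat_lit 9) 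
(.lf (nat_lit 605505) (.g (nat_lit 1889) (.e (nat_lit 778462) (nat_lit 11) (.e (nat_lit 24608) (nat_lit 3) (.e (nat_lit 98372) (nat_lit 29) (.e (nat_lit 450587) (nat_lit 10) .nil)))) (.g (nat_lit 0) (.e (nat_lit 432318) (nat_lit 0) .nil) .nil))) 
(.lf (nat_lit 606017) (.g (nat_lit 2223) (.e (nat_lit 778466) (nat_lit 11) (.e (nat_lit 24617) (nat_lit 7) (.e (nat_lit 319528) (nat_lit 16) (.e (nat_lit 286759) (nat_lit 12) (.e (nat_lit 385113) (nat_lit 53) (.e (nat_lit 811031) (nat_lit 11) (.e (nat_lit 883) (nat_lit 75) .nil))))))) (.g (nat_lit 1) (.e (nat_lit 433003) (nat_lit 0) .nil) .nil))))) (.nd (nat_lit 8) (.nd (nat_lit 9) 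
(.lf (nat_lit 605377) (.g (nat_lit 2635) (.e (nat_lit 778461) (nat_lit 11) (.e (nat_lit 24655) (nat_lit 13) (.e (nat_lit 393299) (nat_lit 27) (.e (nat_lit 491560) (nat_lit 10) (.e (nat_lit 352000) (nat_lit 44) .nil))))) (.g (nat_lit 0) (.e (nat_lit 432176) (nat_lit 0) .nil) .nil))) 
(.lf (nat_lit 605889) (.g (nat_lit 3416) (.e (nat_lit 778465) (nat_lit 11) (.e (nat_lit 24617) (nat_lit 7) (.e (nat_lit 319530) (nat_lit 16) (.e (nat_lit 286759) (nat_lit 12) (.e (nat_lit 385115) (nat_lit 53) (.e (nat_lit 811031) (nat_lit 11) (.e (nat_lit 883) (nat_lit 75) .nil))))))) (.g (nat_lit 1) (.e (nat_lit 432827) (nat_lit 0) .nil) .nil)))) (.nd (nat_lit 9) 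
(.lf (nat_lit 605633) (.g (nat_lit 2719) (.e (nat_lit 778462) (nat_lit 11) (.e (nat_lit 24658) (nat_lit 13) (.e (nat_lit 393281) (nat_lit 23) (.e (nat_lit 426099) (nat_lit 1) (.e (nat_lit 164332) (nat_lit 230) (.e (nat_lit 163843) (nat_lit 0) (.e (nat_lit 3653) (nat_lit 227) .nil))))))) (.g (nat_lit 1) (.e (nat_lit 432511) (nat_lit 0) .nil) .nil))) 
(.lf (nat_lit 606145) (.g (nat_lit 3595) (.e (nat_lit 778466) (nat_lit 11) (.e (nat_lit 24617) (nat_lit 7) (.e (nat_lit 319534) (nat_lit 16) (.e (nat_lit 286756) (nat_lit 10) (.e (nat_lit 344160) (nat_lit 37) (.e (nat_lit 647196) (nat_lit 9) (.e (nat_lit 1003) (nat_lit 81) (.e (nat_lit 2343) (nat_lit 151) .nil)))))))) (.g (nat_lit 1) (.e (nat_lit 433175) (nat_lit 0) .nil) .nil))))))) 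
(.nd (nat_lit 6) (.nd (nat_lit 7) (.nd (nat_lit 8) (.nd (nat_lit 9) 
(.lf (nat_lit 605217) (.g (nat_lit 2130) (.e (nat_lit 778326) (nat_lit 6) (.e (nat_lit 81959) (nat_lit 24) (.e (nat_lit 123195) (nat_lit 266) (.e (nat_lit 57347) (nat_lit 0) .nil)))) (.g (nat_lit 0) (.e (nat_lit 431866) (nat_lit 0) .nil) .nil))) 
(.lf (nat_lit 605729) (.g (nat_lit 1582) (.e (nat_lit 778464) (nat_lit 11) (.e (nat_lit 24616) (nat_lit 7) (.e (nat_lit 319530) (nat_lit 16) (.e (nat_lit 286759) (nat_lit 12) (.e (nat_lit 385115) (nat_lit 53) .nil))))) (.g (nat_lit 0) (.e (nat_lit 432627) (nat_lit 0) .nil) .nil)))) (.nd (nat_lit 9) 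
(.lf (nat_lit 605473) (.g (nat_lit 2389) (.e (nat_lit 778462) (nat_lit 11) (.e (nat_lit 24608) (nat_lit 3) (.e (nat_lit 98365) (nat_lit 26) (.e (nat_lit 426188) (nat_lit 9) (.e (nat_lit 426436) (nat_lit 18) (.e (nat_lit 98324) (nat_lit 17) (.e (nat_lit 3659) (nat_lit 227) .nil))))))) (.g (nat_lit 1) (.e (nat_lit 432284) (nat_lit 0) .nil) .nil))) 
(.lf (nat_lit 605985) (.g (nat_lit 3333) (.e (nat_lit 778466) (nat_lit 11) (.e (nat_lit 24608) (nat_lit 3) (.e (nat_lit 98365) (nat_lit 26) (.e (nat_lit 426188) (nat_lit 9) (.e (nat_lit 426438) (nat_lit 18) (.e (nat_lit 98323) (nat_lit 17) (.e (nat_lit 3686) (nat_lit 227) .nil))))))) (.g (nat_lit 1) (.e (nat_lit 432964) (nat_lit 0) .nil) .nil))))) (.nd (nat_lit 8) (.nd (nat_lit 9) 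
(.lf (nat_lit 605345) (.g (nat_lit 2465) (.e (nat_lit 778460) (nat_lit 11) (.e (nat_lit 24628) (nat_lit 9) (.e (nat_lit 336443) (nat_lit 32) (.e (nat_lit 466972) (nat_lit 21) (.e (nat_lit 164332) (nat_lit 230) .nil))))) (.g (nat_lit 0) (.e (nat_lit 432132) (nat_lit 0) .nil) .nil))) 
(.lf (nat_lit 605857) (.g (nat_lit 3633) (.e (nat_lit 778465) (nat_lit 11) (.e (nat_lit 24604) (nat_lit 2) (.e (nat_lit 90170) (nat_lit 13) (.e (nat_lit 172106) (nat_lit 10) (.e (nat_lit 434246) (nat_lit 28) (.e (nat_lit 573475) (nat_lit 12) (.e (nat_lit 57574) (nat_lit 55) .nil))))))) (.g (nat_lit 1) (.e (nat_lit 432794) (nat_lit 0) .nil) .nil)))) (.nd (nat_lit 9) 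
(.lf (nat_lit 605601) (.g (nat_lit 2228) (.e (nat_lit 778462) (nat_lit 11) (.e (nat_lit 24628) (nat_lit 9) (.e (nat_lit 336443) (nat_lit 32) (.e (nat_lit 466972) (nat_lit 21) (.e (nat_lit 164332) (nat_lit 230) (.e (nat_lit 163847) (nat_lit 0) (.e (nat_lit 3657) (nat_lit 227) .nil))))))) (.g (nat_lit 1) (.e (nat_lit 432451) (nat_lit 0) .nil) .nil))) 
(.lf (nat_lit 606113) (.g (nat_lit 2731) (.e (nat_lit 778466) (nat_lit 11) (.e (nat_lit 24617) (nat_lit 7) (.e (nat_lit 319534) (nat_lit 16) (.e (nat_lit 286756) (nat_lit 10) (.e (nat_lit 344169) (nat_lit 40) (.e (nat_lit 671783) (nat_lit 13) (.e (nat_lit 229467) (nat_lit 55) .nil))))))) (.g (nat_lit 1) (.e (nat_lit 433143) (nat_lit 0) .nil) .nil)))))) 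
(.nd (nat_lit 7) (.nd (nat_lit 8) (.nd (nat_lit 9) 
(.lf (nat_lit 605281) (.g (nat_lit 4229) (.e (nat_lit 778459) (nat_lit 11) (.e (nat_lit 24608) (nat_lit 3) (.e (nat_lit 98373) (nat_lit 29) (.e (nat_lit 450588) (nat_lit 10) (.e (nat_lit 573473) (nat_lit 12) .nil))))) (.g (nat_lit 0) (.e (nat_lit 432056) (nat_lit 0) .nil) .nil))) 
(.lf (nat_lit 605793) (.g (nat_lit 2210) (.e (nat_lit 778464) (nat_lit 11) (.e (nat_lit 24617) (nat_lit 7) (.e (nat_lit 319533) (nat_lit 16) (.e (nat_lit 286759) (nat_lit 12) (.e (nat_lit 385115) (nat_lit 53) (.e (nat_lit 811039) (nat_lit 11) (.e (nat_lit 913) (nat_lit 75) .nil))))))) (.g (nat_lit 1) (.e (nat_lit 432699) (nat_lit 0) .nil) .nil)))) (.nd (nat_lit 9) 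
(.lf (nat_lit 605537) (.g (nat_lit 876) (.e (nat_lit 778462) (nat_lit 11) (.e (nat_lit 24628) (nat_lit 9) (.e (nat_lit 336443) (nat_lit 32) (.e (nat_lit 466969) (nat_lit 21) .nil)))) (.g (nat_lit 0) (.e (nat_lit 432380) (nat_lit 0) .nil) .nil))) 
(.lf (nat_lit 606049) (.g (nat_lit 3411) (.e (nat_lit 778466) (nat_lit 11) (.e (nat_lit 24617) (nat_lit 7) (.e (nat_lit 319533) (nat_lit 16) (.e (nat_lit 286753) (nat_lit 10) (.e (nat_lit 344169) (nat_lit 40) (.e (nat_lit 671780) (nat_lit 12) (.e (nat_lit 164049) (nat_lit 55) .nil))))))) (.g (nat_lit 1) (.e (nat_lit 433050) (nat_lit 0) .nil) .nil))))) (.nd (nat_lit 8) (.nd (nat_lit 9) 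
(.lf (nat_lit 605409) (.g (nat_lit 1653) (.e (nat_lit 778462) (nat_lit 11) (.e (nat_lit 24604) (nat_lit 2) (.e (nat_lit 90185) (nat_lit 17) (.e (nat_lit 237601) (nat_lit 9) (.e (nat_lit 426436) (nat_lit 18) (.e (nat_lit 98321) (nat_lit 17) (.e (nat_lit 3653) (nat_lit 227) .nil))))))) (.g (nat_lit 1) (.e (nat_lit 432211) (nat_lit 0) .nil) .nil))) 
(.lf (nat_lit 605921) (.g (nat_lit 1985) (.e (nat_lit 778465) (nat_lit 11) (.e (nat_lit 24617) (nat_lit 7) (.e (nat_lit 319534) (nat_lit 16) (.e (nat_lit 286758) (nat_lit 12) .nil)))) (.g (nat_lit 0) (.e (nat_lit 432859) (nat_lit 0) .nil) .nil)))) (.nd (nat_lit 9) 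
(.lf (nat_lit 605665) (.g (nat_lit 2138) (.e (nat_lit 778462) (nat_lit 11) (.e (nat_lit 24660) (nat_lit 13) (.e (nat_lit 393259) (nat_lit 21) (.e (nat_lit 409618) (nat_lit 10) (.e (nat_lit 5023) (nat_lit 290) (.e (nat_lit 164103) (nat_lit 116) .nil)))))) (.g (nat_lit 1) (.e (nat_lit 432546) (nat_lit 0) .nil) .nil))) 
(.lf (nat_lit 606177) (.g (nat_lit 738) (.e (nat_lit 778466) (nat_lit 11) (.e (nat_lit 24625) (nat_lit 9) (.e (nat_lit 336436) (nat_lit 31) .nil))) (.g (nat_lit 0) (.e (nat_lit 433212) (nat_lit 0) .nil) .nil)))))))) (.nd (nat_lit 5) (.nd (nat_lit 6) (.nd (nat_lit 7) (.nd (nat_lit 8) (.nd (nat_lit 9) 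
(.lf (nat_lit 605201) (.g (nat_lit 953) (.e (nat_lit 778326) (nat_lit 6) (.e (nat_lit 81938) (nat_lit 20) (.e (nat_lit 2003) (nat_lit 138) (.e (nat_lit 671764) (nat_lit 6) (.e (nat_lit 81922) (nat_lit 0) .nil))))) (.g (nat_lit 0) (.e (nat_lit 431842) (nat_lit 0) .nil) .nil))) 
(.lf (nat_lit 605713) (.g (nat_lit 3578) (.e (nat_lit 778464) (nat_lit 11) (.e (nat_lit 24604) (nat_lit 2) (.e (nat_lit 90170) (nat_lit 13) (.e (nat_lit 172113) (nat_lit 10) (.e (nat_lit 434242) (nat_lit 28) .nil))))) (.g (nat_lit 0) (.e (nat_lit 432610) (nat_lit 0) .nil) .nil)))) (.nd (nat_lit 9) 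
(.lf (nat_lit 605457) (.g (nat_lit 2966) (.e (nat_lit 778462) (nat_lit 11) (.e (nat_lit 24608) (nat_lit 3) (.e (nat_lit 98365) (nat_lit 26) (.e (nat_lit 426187) (nat_lit 9) (.e (nat_lit 426436) (nat_lit 18) (.e (nat_lit 98320) (nat_lit 17) (.e (nat_lit 3699) (nat_lit 227) .nil))))))) (.g (nat_lit 1) (.e (nat_lit 432268) (nat_lit 0) .nil) .nil))) 
(.lf (nat_lit 605969) (.g (nat_lit 2835) (.e (nat_lit 778466) (nat_lit 11) (.e (nat_lit 24604) (nat_lit 2) (.e (nat_lit 90178) (nat_lit 15) (.e (nat_lit 188440) (nat_lit 20) (.e (nat_lit 3308) (nat_lit 202) (.e (nat_lit 573475) (nat_lit 12) (.e (nat_lit 57574) (nat_lit 55) .nil))))))) (.g (nat_lit 1) (.e (nat_lit 432938) (nat_lit 0) .nil) .nil))))) (.nd (nat_lit 8) (.nd (nat_lit 9) 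
(.lf (nat_lit 605329) (.g (nat_lit 2559) (.e (nat_lit 778460) (nat_lit 11) (.e (nat_lit 24617) (nat_lit 7) (.e (nat_lit 319534) (nat_lit 16) (.e (nat_lit 286756) (nat_lit 10) (.e (nat_lit 344168) (nat_lit 40) .nil))))) (.g (nat_lit 0) (.e (nat_lit 432114) (nat_lit 0) .nil) .nil))) 
(.lf (nat_lit 605841) (.g (nat_lit 1074) (.e (nat_lit 778464) (nat_lit 11) (.e (nat_lit 24627) (nat_lit 9) (.e (nat_lit 336414) (nat_lit 27) (.e (nat_lit 425984) (nat_lit 0) .nil)))) (.g (nat_lit 0) (.e (nat_lit 432752) (nat_lit 0) .nil) .nil)))) (.nd (nat_lit 9) 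
(.lf (nat_lit 605585) (.g (nat_lit 2739) (.e (nat_lit 778462) (nat_lit 11) (.e (nat_lit 24628) (nat_lit 9) (.e (nat_lit 336443) (nat_lit 32) (.e (nat_lit 466972) (nat_lit 21) (.e (nat_lit 164332) (nat_lit 230) (.e (nat_lit 163843) (nat_lit 0) (.e (nat_lit 3651) (nat_lit 227) .nil))))))) (.g (nat_lit 1) (.e (nat_lit 432435) (nat_lit 0) .nil) .nil))) 
(.lf (nat_lit 606097) (.g (nat_lit 2947) (.e (nat_lit 778466) (nat_lit 11) (.e (nat_lit 24617) (nat_lit 7) (.e (nat_lit 319534) (nat_lit 16) (.e (nat_lit 286756) (nat_lit 10) (.e (nat_lit 344168) (nat_lit 40) (.e (nat_lit 671780) (nat_lit 12) (.e (nat_lit 164049) (nat_lit 55) .nil))))))) (.g (nat_lit 1) (.e (nat_lit 433127) (nat_lit 0) .nil) .nil)))))) 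
(.nd (nat_lit 7) (.nd (nat_lit 8) (.nd (nat_lit 9) 
(.lf (nat_lit 605265) (.g (nat_lit 2745) (.e (nat_lit 778361) (nat_lit 9) (.e (nat_lit 232) (nat_lit 21) (.e (nat_lit 336013) (nat_lit 2) (.e (nat_lit 90134) (nat_lit 9) (.e (nat_lit 3025) (nat_lit 187) .nil))))) (.g (nat_lit 0) (.e (nat_lit 431977) (nat_lit 0) .nil) .nil))) 
(.lf (nat_lit 605777) (.g (nat_lit 2293) (.e (nat_lit 778464) (nat_lit 11) (.e (nat_lit 24617) (nat_lit 7) (.e (nat_lit 319533) (nat_lit 16) (.e (nat_lit 286753) (nat_lit 10) (.e (nat_lit 344160) (nat_lit 37) (.e (nat_lit 647196) (nat_lit 9) (.e (nat_lit 991) (nat_lit 81) (.e (nat_lit 2308) (nat_lit 151) .nil)))))))) (.g (nat_lit 1) (.e (nat_lit 432682) (nat_lit 0) .nil) .nil)))) (.nd (nat_lit 9) 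
(.lf (nat_lit 605521) (.g (nat_lit 1902) (.e (nat_lit 778462) (nat_lit 11) (.e (nat_lit 24609) (nat_lit 3) (.e (nat_lit 98372) (nat_lit 29) (.e (nat_lit 450586) (nat_lit 10) (.e (nat_lit 573473) (nat_lit 12) (.e (nat_lit 65280) (nat_lit 55) .nil)))))) (.g (nat_lit 1) (.e (nat_lit 432349) (nat_lit 0) .nil) .nil))) 
(.lf (nat_lit 606033) (.g (nat_lit 3548) (.e (nat_lit 778466) (nat_lit 11) (.e (nat_lit 24617) (nat_lit 7) (.e (nat_lit 319530) (nat_lit 16) (.e (nat_lit 286759) (nat_lit 12) (.e (nat_lit 385115) (nat_lit 53) (.e (nat_lit 811033) (nat_lit 11) (.e (nat_lit 883) (nat_lit 75) .nil))))))) (.g (nat_lit 1) (.e (nat_lit 433030) (nat_lit 0) .nil) .nil))))) (.nd (nat_lit 8) (.nd (nat_lit 9) 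
(.lf (nat_lit 605393) (.g (nat_lit 808) (.e (nat_lit 778462) (nat_lit 11) (.e (nat_lit 24604) (nat_lit 2) (.e (nat_lit 90178) (nat_lit 15) (.e (nat_lit 196352) (nat_lit 3) .nil)))) (.g (nat_lit 0) (.e (nat_lit 432195) (nat_lit 0) .nil) .nil))) 
(.lf (nat_lit 605905) (.g (nat_lit 1826) (.e (nat_lit 778465) (nat_lit 11) (.e (nat_lit 24617) (nat_lit 7) (.e (nat_lit 319533) (nat_lit 16) (.e (nat_lit 286754) (nat_lit 10) .nil)))) (.g (nat_lit 0) (.e (nat_lit 432843) (nat_lit 0) .nil) .nil)))) (.nd (nat_lit 9) 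
(.lf (nat_lit 605649) (.g (nat_lit 1913) (.e (nat_lit 778462) (nat_lit 11) (.e (nat_lit 24658) (nat_lit 13) (.e (nat_lit 393281) (nat_lit 23) (.e (nat_lit 426100) (nat_lit 1) (.e (nat_lit 164332) (nat_lit 230) (.e (nat_lit 163847) (nat_lit 0) (.e (nat_lit 3649) (nat_lit 227) .nil))))))) (.g (nat_lit 1) (.e (nat_lit 432529) (nat_lit 0) .nil) .nil))) 
(.lf (nat_lit 606161) (.g (nat_lit 1848) (.e (nat_lit 778466) (nat_lit 11) (.e (nat_lit 24617) (nat_lit 7) (.e (nat_lit 319534) (nat_lit 16) (.e (nat_lit 286759) (nat_lit 12) (.e (nat_lit 385113) (nat_lit 53) .nil))))) (.g (nat_lit 0) (.e (nat_lit 433195) (nat_lit 0) .nil) .nil))))))) (.nd (nat_lit 6) (.nd (nat_lit 7) (.nd (nat_lit 8) (.nd (nat_lit 9) 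
(.lf (nat_lit 605233) (.g (nat_lit 1796) (.e (nat_lit 778327) (nat_lit 6) (.e (nat_lit 81950) (nat_lit 21) (.e (nat_lit 57931) (nat_lit 282) (.e (nat_lit 163946) (nat_lit 20) .nil)))) (.g (nat_lit 0) (.e (nat_lit 431885) (nat_lit 0) .nil) .nil))) 
(.lf (nat_lit 605745) (.g (nat_lit 1852) (.e (nat_lit 778464) (nat_lit 11) (.e (nat_lit 24617) (nat_lit 7) (.e (nat_lit 319529) (nat_lit 16) (.e (nat_lit 286759) (nat_lit 12) (.e (nat_lit 385115) (nat_lit 53) (.e (nat_lit 811033) (nat_lit 11) (.e (nat_lit 880) (nat_lit 75) .nil))))))) (.g (nat_lit 1) (.e (nat_lit 432645) (nat_lit 0) .nil) .nil)))) (.nd (nat_lit 9) 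
(.lf (nat_lit 605489) (.g (nat_lit 3256) (.e (nat_lit 778462) (nat_lit 11) (.e (nat_lit 24608) (nat_lit 3) (.e (nat_lit 98365) (nat_lit 26) (.e (nat_lit 426306) (nat_lit 12) (.e (nat_lit 475177) (nat_lit 24) (.e (nat_lit 516097) (nat_lit 0) (.e (nat_lit 3659) (nat_lit 227) .nil))))))) (.g (nat_lit 1) (.e (nat_lit 432300) (nat_lit 0) .nil) .nil))) 
(.lf (nat_lit 606001) (.g (nat_lit 2499) (.e (nat_lit 778466) (nat_lit 11) (.e (nat_lit 24616) (nat_lit 7) (.e (nat_lit 319530) (nat_lit 16) (.e (nat_lit 286759) (nat_lit 12) (.e (nat_lit 385094) (nat_lit 49) (.e (nat_lit 778548) (nat_lit 14) (.e (nat_lit 1014) (nat_lit 81) (.e (nat_lit 917) (nat_lit 75) .nil)))))))) (.g (nat_lit 1) (.e (nat_lit 432982) (nat_lit 0) .nil) .nil))))) 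
(.nd (nat_lit 8) (.nd (nat_lit 9) 
(.lf (nat_lit 605361) (.g (nat_lit 2479) (.e (nat_lit 778460) (nat_lit 11) (.e (nat_lit 24658) (nat_lit 13) (.e (nat_lit 393301) (nat_lit 27) (.e (nat_lit 491558) (nat_lit 10) (.e (nat_lit 352000) (nat_lit 44) .nil))))) (.g (nat_lit 1) (.e (nat_lit 432155) (nat_lit 0) .nil) .nil))) 
(.lf (nat_lit 605873) (.g (nat_lit 3754) (.e (nat_lit 778465) (nat_lit 11) (.e (nat_lit 24608) (nat_lit 3) (.e (nat_lit 98373) (nat_lit 29) (.e (nat_lit 450586) (nat_lit 10) (.e (nat_lit 573477) (nat_lit 12) (.e (nat_lit 57575) (nat_lit 55) .nil)))))) (.g (nat_lit 1) (.e (nat_lit 432810) (nat_lit 0) .nil) .nil)))) (.nd (nat_lit 9) 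
(.lf (nat_lit 605617) (.g (nat_lit 2009) (.e (nat_lit 778462) (nat_lit 11) (.e (nat_lit 24655) (nat_lit 13) (.e (nat_lit 393233) (nat_lit 17) (.e (nat_lit 7593) (nat_lit 407) (.e (nat_lit 81664) (nat_lit 26) .nil))))) (.g (nat_lit 1) (.e (nat_lit 432473) (nat_lit 0) .nil) .nil))) 
(.lf (nat_lit 606129) (.g (nat_lit 1921) (.e (nat_lit 778466) (nat_lit 11) (.e (nat_lit 24617) (nat_lit 7) (.e (nat_lit 319534) (nat_lit 16) (.e (nat_lit 286756) (nat_lit 10) (.e (nat_lit 344160) (nat_lit 37) (.e (nat_lit 647190) (nat_lit 9) (.e (nat_lit 1022) (nat_lit 81) (.e (nat_lit 2342) (nat_lit 151) .nil)))))))) (.g (nat_lit 1) (.e (nat_lit 433159) (nat_lit 0) .nil) .nil)))))) 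
(.nd (nat_lit 7) (.nd (nat_lit 8) (.nd (nat_lit 9) 
(.lf (nat_lit 605297) (.g (nat_lit 2795) (.e (nat_lit 778459) (nat_lit 11) (.e (nat_lit 24658) (nat_lit 13) (.e (nat_lit 393301) (nat_lit 27) (.e (nat_lit 491552) (nat_lit 9) .nil)))) (.g (nat_lit 0) (.e (nat_lit 432082) (nat_lit 0) .nil) .nil))) 
(.lf (nat_lit 605809) (.g (nat_lit 2218) (.e (nat_lit 778464) (nat_lit 11) (.e (nat_lit 24617) (nat_lit 7) (.e (nat_lit 319534) (nat_lit 16) (.e (nat_lit 286756) (nat_lit 10) (.e (nat_lit 344160) (nat_lit 37) (.e (nat_lit 647190) (nat_lit 9) (.e (nat_lit 984) (nat_lit 81) (.e (nat_lit 2329) (nat_lit 151) .nil)))))))) (.g (nat_lit 1) (.e (nat_lit 432718) (nat_lit 0) .nil) .nil)))) (.nd (nat_lit 9) 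
(.lf (nat_lit 605553) (.g (nat_lit 2119) (.e (nat_lit 778462) (nat_lit 11) (.e (nat_lit 24628) (nat_lit 9) (.e (nat_lit 336443) (nat_lit 32) (.e (nat_lit 466969) (nat_lit 21) (.e (nat_lit 164332) (nat_lit 230) (.e (nat_lit 163843) (nat_lit 0) (.e (nat_lit 3654) (nat_lit 227) .nil))))))) (.g (nat_lit 1) (.e (nat_lit 432399) (nat_lit 0) .nil) .nil))) 
(.lf (nat_lit 606065) (.g (nat_lit 2860) (.e (nat_lit 778466) (nat_lit 11) (.e (nat_lit 24617) (nat_lit 7) (.e (nat_lit 319533) (nat_lit 16) (.e (nat_lit 286753) (nat_lit 10) (.e (nat_lit 344160) (nat_lit 37) (.e (nat_lit 647190) (nat_lit 9) (.e (nat_lit 1048) (nat_lit 81) (.e (nat_lit 2342) (nat_lit 151) .nil)))))))) (.g (nat_lit 1) (.e (nat_lit 433066) (nat_lit 0) .nil) .nil))))) 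
(.nd (nat_lit 8) (.nd (nat_lit 9) 
(.lf (nat_lit 605425) (.g (nat_lit 1496) (.e (nat_lit 778462) (nat_lit 11) (.e (nat_lit 24604) (nat_lit 2) (.e (nat_lit 90185) (nat_lit 17) (.e (nat_lit 237605) (nat_lit 9) (.e (nat_lit 426436) (nat_lit 18) (.e (nat_lit 98321) (nat_lit 17) (.e (nat_lit 3654) (nat_lit 227) .nil))))))) (.g (nat_lit 1) (.e (nat_lit 432227) (nat_lit 0) .nil) .nil))) 
(.lf (nat_lit 605937) (.g (nat_lit 4315) (.e (nat_lit 778465) (nat_lit 11) (.e (nat_lit 24631) (nat_lit 9) (.e (nat_lit 336389) (nat_lit 27) (.e (nat_lit 426343) (nat_lit 14) (.e (nat_lit 491560) (nat_lit 10) (.e (nat_lit 344179) (nat_lit 44) .nil)))))) (.g (nat_lit 1) (.e (nat_lit 432875) (nat_lit 0) .nil) .nil)))) (.nd (nat_lit 9) 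
(.lf (nat_lit 605681) (.g (nat_lit 2077) (.e (nat_lit 778463) (nat_lit 11) (.e (nat_lit 24606) (nat_lit 3) (.e (nat_lit 98373) (nat_lit 29) (.e (nat_lit 450587) (nat_lit 10) (.e (nat_lit 573475) (nat_lit 12) .nil))))) (.g (nat_lit 0) (.e (nat_lit 432564) (nat_lit 0) .nil) .nil))) 
(.lf (nat_lit 606193) (.g (nat_lit 3405) (.e (nat_lit 778466) (nat_lit 11) (.e (nat_lit 24632) (nat_lit 9) (.e (nat_lit 336388) (nat_lit 27) (.e (nat_lit 426011) (nat_lit 0) (.e (nat_lit 7593) (nat_lit 407) (.e (nat_lit 73775) (nat_lit 26) .nil)))))) (.g (nat_lit 1) (.e (nat_lit 433229) (nat_lit 0) .nil) .nil))))))))) 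
(.nd (nat_lit 4) (.nd (nat_lit 5) (.nd (nat_lit 6) (.nd (nat_lit 7) (.nd (nat_lit 8) 
(.nd (nat_lit 9) 
(.lf (nat_lit 605193) (.g (nat_lit 317) (.e (nat_lit 778326) (nat_lit 6) (.e (nat_lit 81922) (nat_lit 0) (.e (nat_lit 3630) (nat_lit 227) .nil))) (.g (nat_lit 0) (.e (nat_lit 431831) (nat_lit 0) .nil) .nil))) 
(.lf (nat_lit 605705) (.g (nat_lit 1045) (.e (nat_lit 778464) (nat_lit 11) (.e (nat_lit 24580) (nat_lit 0) (.e (nat_lit 1808) (nat_lit 120) (.e (nat_lit 524320) (nat_lit 12) (.e (nat_lit 450586) (nat_lit 10) .nil))))) (.g (nat_lit 0) (.e (nat_lit 432599) (nat_lit 0) .nil) .nil)))) (.nd (nat_lit 9) 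
(.lf (nat_lit 605449) (.g (nat_lit 3217) (.e (nat_lit 778462) (nat_lit 11) (.e (nat_lit 24608) (nat_lit 3) (.e (nat_lit 98363) (nat_lit 26) (.e (nat_lit 426318) (nat_lit 12) (.e (nat_lit 475179) (nat_lit 24) (.e (nat_lit 516100) (nat_lit 0) (.e (nat_lit 3617) (nat_lit 227) .nil))))))) (.g (nat_lit 1) (.e (nat_lit 432260) (nat_lit 0) .nil) .nil))) 
(.lf (nat_lit 605961) (.g (nat_lit 2236) (.e (nat_lit 778466) (nat_lit 11) (.e (nat_lit 24604) (nat_lit 2) (.e (nat_lit 90170) (nat_lit 13) (.e (nat_lit 172113) (nat_lit 10) (.e (nat_lit 434242) (nat_lit 28) .nil))))) (.g (nat_lit 0) (.e (nat_lit 432930) (nat_lit 0) .nil) .nil))))) (.nd (nat_lit 8) (.nd (nat_lit 9) 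
(.lf (nat_lit 605321) (.g (nat_lit 2405) (.e (nat_lit 778460) (nat_lit 11) (.e (nat_lit 24608) (nat_lit 3) (.e (nat_lit 98365) (nat_lit 26) (.e (nat_lit 426306) (nat_lit 12) (.e (nat_lit 475177) (nat_lit 24) (.e (nat_lit 516097) (nat_lit 0) (.e (nat_lit 3663) (nat_lit 227) .nil))))))) (.g (nat_lit 1) (.e (nat_lit 432106) (nat_lit 0) .nil) .nil))) 
(.lf (nat_lit 605833) (.g (nat_lit 430) (.e (nat_lit 778464) (nat_lit 11) (.e (nat_lit 24623) (nat_lit 9) (.e (nat_lit 336421) (nat_lit 28) .nil))) (.g (nat_lit 0) (.e (nat_lit 432742) (nat_lit 0) .nil) .nil)))) (.nd (nat_lit 9) 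
(.lf (nat_lit 605577) (.g (nat_lit 2206) (.e (nat_lit 778462) (nat_lit 11) (.e (nat_lit 24628) (nat_lit 9) (.e (nat_lit 336443) (nat_lit 32) (.e (nat_lit 466972) (nat_lit 21) (.e (nat_lit 164329) (nat_lit 230) (.e (nat_lit 163850) (nat_lit 0) (.e (nat_lit 3655) (nat_lit 227) .nil))))))) (.g (nat_lit 1) (.e (nat_lit 432427) (nat_lit 0) .nil) .nil))) 
(.lf (nat_lit 606089) (.g (nat_lit 350) (.e (nat_lit 778466) (nat_lit 11) (.e (nat_lit 24617) (nat_lit 7) (.e (nat_lit 319534) (nat_lit 16) .nil))) (.g (nat_lit 0) (.e (nat_lit 433096) (nat_lit 0) .nil) .nil)))))) (.nd (nat_lit 7) (.nd (nat_lit 8) (.nd (nat_lit 9) 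
(.lf (nat_lit 605257) (.g (nat_lit 2370) (.e (nat_lit 778336) (nat_lit 9) (.e (nat_lit 2668) (nat_lit 167) (.e (nat_lit 196666) (nat_lit 13) (.e (nat_lit 65571) (nat_lit 3) .nil)))) (.g (nat_lit 0) (.e (nat_lit 431940) (nat_lit 0) .nil) .nil))) 
(.lf (nat_lit 605769) (.g (nat_lit 2668) (.e (nat_lit 778464) (nat_lit 11) (.e (nat_lit 24617) (nat_lit 7) (.e (nat_lit 319533) (nat_lit 16) (.e (nat_lit 286753) (nat_lit 10) (.e (nat_lit 344168) (nat_lit 40) (.e (nat_lit 671780) (nat_lit 12) (.e (nat_lit 164050) (nat_lit 55) .nil))))))) (.g (nat_lit 1) (.e (nat_lit 432674) (nat_lit 0) .nil) .nil)))) (.nd (nat_lit 9) 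
(.lf (nat_lit 605513) (.g (nat_lit 4026) (.e (nat_lit 778462) (nat_lit 11) (.e (nat_lit 24608) (nat_lit 3) (.e (nat_lit 98373) (nat_lit 29) (.e (nat_lit 450588) (nat_lit 10) (.e (nat_lit 573475) (nat_lit 12) (.e (nat_lit 65280) (nat_lit 55) .nil)))))) (.g (nat_lit 1) (.e (nat_lit 432326) (nat_lit 0) .nil) .nil))) 
(.lf (nat_lit 606025) (.g (nat_lit 3267) (.e (nat_lit 778466) (nat_lit 11) (.e (nat_lit 24617) (nat_lit 7) (.e (nat_lit 319529) (nat_lit 16) (.e (nat_lit 286759) (nat_lit 12) (.e (nat_lit 385115) (nat_lit 53) (.e (nat_lit 811031) (nat_lit 11) (.e (nat_lit 883) (nat_lit 75) .nil))))))) (.g (nat_lit 1) (.e (nat_lit 433017) (nat_lit 0) .nil) .nil))))) (.nd (nat_lit 8) (.nd (nat_lit 9) 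
(.lf (nat_lit 605385) (.g (nat_lit 2621) (.e (nat_lit 778461) (nat_lit 11) (.e (nat_lit 24658) (nat_lit 13) (.e (nat_lit 393301) (nat_lit 27) (.e (nat_lit 491558) (nat_lit 10) .nil)))) (.g (nat_lit 0) (.e (nat_lit 432186) (nat_lit 0) .nil) .nil))) 
(.lf (nat_lit 605897) (.g (nat_lit 3088) (.e (nat_lit 778465) (nat_lit 11) (.e (nat_lit 24617) (nat_lit 7) (.e (nat_lit 319532) (nat_lit 16) (.e (nat_lit 286759) (nat_lit 12) (.e (nat_lit 385115) (nat_lit 53) (.e (nat_lit 811033) (nat_lit 11) (.e (nat_lit 883) (nat_lit 75) .nil))))))) (.g (nat_lit 1) (.e (nat_lit 432835) (nat_lit 0) .nil) .nil)))) (.nd (nat_lit 9) 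
(.lf (nat_lit 605641) (.g (nat_lit 1534) (.e (nat_lit 778462) (nat_lit 11) (.e (nat_lit 24658) (nat_lit 13) (.e (nat_lit 393281) (nat_lit 23) (.e (nat_lit 426099) (nat_lit 1) (.e (nat_lit 164332) (nat_lit 230) (.e (nat_lit 163847) (nat_lit 0) (.e (nat_lit 3663) (nat_lit 227) .nil))))))) (.g (nat_lit 1) (.e (nat_lit 432519) (nat_lit 0) .nil) .nil))) 
(.lf (nat_lit 606153) (.g (nat_lit 3243) (.e (nat_lit 778466) (nat_lit 11) (.e (nat_lit 24617) (nat_lit 7) (.e (nat_lit 319534) (nat_lit 16) (.e (nat_lit 286756) (nat_lit 10) (.e (nat_lit 344160) (nat_lit 37) (.e (nat_lit 647201) (nat_lit 12) (.e (nat_lit 65280) (nat_lit 55) .nil))))))) (.g (nat_lit 1) (.e (nat_lit 433183) (nat_lit 0) .nil) .nil))))))) 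
(.nd (nat_lit 6) (.nd (nat_lit 7) (.nd (nat_lit 8) (.nd (nat_lit 9) 
(.lf (nat_lit 605225) (.g (nat_lit 1202) (.e (nat_lit 778327) (nat_lit 6) (.e (nat_lit 81946) (nat_lit 20) (.e (nat_lit 2006) (nat_lit 138) (.e (nat_lit 671747) (nat_lit 0) (.e (nat_lit 1559) (nat_lit 110) .nil))))) (.g (nat_lit 0) (.e (nat_lit 431877) (nat_lit 0) .nil) .nil))) 
(.lf (nat_lit 605737) (.g (nat_lit 2697) (.e (nat_lit 778464) (nat_lit 11) (.e (nat_lit 24617) (nat_lit 7) (.e (nat_lit 319528) (nat_lit 16) (.e (nat_lit 286759) (nat_lit 12) (.e (nat_lit 385115) (nat_lit 53) (.e (nat_lit 811031) (nat_lit 11) (.e (nat_lit 883) (nat_lit 75) .nil))))))) (.g (nat_lit 1) (.e (nat_lit 432636) (nat_lit 0) .nil) .nil)))) (.nd (nat_lit 9) 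
(.lf (nat_lit 605481) (.g (nat_lit 3428) (.e (nat_lit 778462) (nat_lit 11) (.e (nat_lit 24608) (nat_lit 3) (.e (nat_lit 98365) (nat_lit 26) (.e (nat_lit 426306) (nat_lit 12) (.e (nat_lit 475177) (nat_lit 24) (.e (nat_lit 516097) (nat_lit 0) (.e (nat_lit 3649) (nat_lit 227) .nil))))))) (.g (nat_lit 1) (.e (nat_lit 432292) (nat_lit 0) .nil) .nil))) 
(.lf (nat_lit 605993) (.g (nat_lit 2298) (.e (nat_lit 778466) (nat_lit 11) (.e (nat_lit 24608) (nat_lit 3) (.e (nat_lit 98369) (nat_lit 28) (.e (nat_lit 442408) (nat_lit 20) .nil)))) (.g (nat_lit 0) (.e (nat_lit 432972) (nat_lit 0) .nil) .nil))))) (.nd (nat_lit 8) (.nd (nat_lit 9) 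
(.lf (nat_lit 605353) (.g (nat_lit 1361) (.e (nat_lit 778460) (nat_lit 11) (.e (nat_lit 24657) (nat_lit 13) (.e (nat_lit 393281) (nat_lit 23) (.e (nat_lit 426099) (nat_lit 1) .nil)))) (.g (nat_lit 0) (.e (nat_lit 432143) (nat_lit 0) .nil) .nil))) 
(.lf (nat_lit 605865) (.g (nat_lit 653) (.e (nat_lit 778465) (nat_lit 11) (.e (nat_lit 24607) (nat_lit 3) (.e (nat_lit 98362) (nat_lit 26) .nil))) (.g (nat_lit 0) (.e (nat_lit 432802) (nat_lit 0) .nil) .nil)))) (.nd (nat_lit 9) 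
(.lf (nat_lit 605609) (.g (nat_lit 2538) (.e (nat_lit 778462) (nat_lit 11) (.e (nat_lit 24630) (nat_lit 9) (.e (nat_lit 336369) (nat_lit 27) (.e (nat_lit 426025) (nat_lit 0) (.e (nat_lit 7107) (nat_lit 380) (.e (nat_lit 164288) (nat_lit 224) (.e (nat_lit 164103) (nat_lit 116) .nil))))))) (.g (nat_lit 1) (.e (nat_lit 432459) (nat_lit 0) .nil) .nil))) 
(.lf (nat_lit 606121) (.g (nat_lit 3014) (.e (nat_lit 778466) (nat_lit 11) (.e (nat_lit 24617) (nat_lit 7) (.e (nat_lit 319534) (nat_lit 16) (.e (nat_lit 286756) (nat_lit 10) (.e (nat_lit 344160) (nat_lit 37) (.e (nat_lit 647190) (nat_lit 9) (.e (nat_lit 983) (nat_lit 81) (.e (nat_lit 2343) (nat_lit 151) .nil)))))))) (.g (nat_lit 1) (.e (nat_lit 433151) (nat_lit 0) .nil) .nil)))))) 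
(.nd (nat_lit 7) (.nd (nat_lit 8) (.nd (nat_lit 9) 
(.lf (nat_lit 605289) (.g (nat_lit 1882) (.e (nat_lit 778459) (nat_lit 11) (.e (nat_lit 24655) (nat_lit 13) (.e (nat_lit 393300) (nat_lit 27) (.e (nat_lit 491558) (nat_lit 10) (.e (nat_lit 352000) (nat_lit 44) .nil))))) (.g (nat_lit 1) (.e (nat_lit 432072) (nat_lit 0) .nil) .nil))) 
(.lf (nat_lit 605801) (.g (nat_lit 2837) (.e (nat_lit 778464) (nat_lit 11) (.e (nat_lit 24617) (nat_lit 7) (.e (nat_lit 319534) (nat_lit 16) (.e (nat_lit 286756) (nat_lit 10) (.e (nat_lit 344168) (nat_lit 40) (.e (nat_lit 671781) (nat_lit 12) (.e (nat_lit 164050) (nat_lit 55) .nil))))))) (.g (nat_lit 1) (.e (nat_lit 432710) (nat_lit 0) .nil) .nil)))) (.nd (nat_lit 9) 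
(.lf (nat_lit 605545) (.g (nat_lit 1637) (.e (nat_lit 778462) (nat_lit 11) (.e (nat_lit 24628) (nat_lit 9) (.e (nat_lit 336443) (nat_lit 32) (.e (nat_lit 466969) (nat_lit 21) (.e (nat_lit 164332) (nat_lit 230) .nil))))) (.g (nat_lit 0) (.e (nat_lit 432391) (nat_lit 0) .nil) .nil))) 
(.lf (nat_lit 606057) (.g (nat_lit 3418) (.e (nat_lit 778466) (nat_lit 11) (.e (nat_lit 24617) (nat_lit 7) (.e (nat_lit 319533) (nat_lit 16) (.e (nat_lit 286753) (nat_lit 10) (.e (nat_lit 344160) (nat_lit 37) (.e (nat_lit 647190) (nat_lit 9) (.e (nat_lit 986) (nat_lit 81) (.e (nat_lit 2347) (nat_lit 151) .nil)))))))) (.g (nat_lit 1) (.e (nat_lit 433058) (nat_lit 0) .nil) .nil))))) 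
(.nd (nat_lit 8) (.nd (nat_lit 9) 
(.lf (nat_lit 605417) (.g (nat_lit 1330) (.e (nat_lit 778462) (nat_lit 11) (.e (nat_lit 24604) (nat_lit 2) (.e (nat_lit 90185) (nat_lit 17) (.e (nat_lit 237605) (nat_lit 9) (.e (nat_lit 426436) (nat_lit 18) .nil))))) (.g (nat_lit 0) (.e (nat_lit 432219) (nat_lit 0) .nil) .nil))) 
(.lf (nat_lit 605929) (.g (nat_lit 2912) (.e (nat_lit 778465) (nat_lit 11) (.e (nat_lit 24623) (nat_lit 9) (.e (nat_lit 336412) (nat_lit 27) (.e (nat_lit 426344) (nat_lit 14) (.e (nat_lit 491560) (nat_lit 10) (.e (nat_lit 344179) (nat_lit 44) .nil)))))) (.g (nat_lit 1) (.e (nat_lit 432867) (nat_lit 0) .nil) .nil)))) (.nd (nat_lit 9) 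
(.lf (nat_lit 605673) (.g (nat_lit 1396) (.e (nat_lit 778462) (nat_lit 11) (.e (nat_lit 24660) (nat_lit 13) (.e (nat_lit 393260) (nat_lit 21) (.e (nat_lit 409636) (nat_lit 14) .nil)))) (.g (nat_lit 0) (.e (nat_lit 432554) (nat_lit 0) .nil) .nil))) 
(.lf (nat_lit 606185) (.g (nat_lit 2756) (.e (nat_lit 778466) (nat_lit 11) (.e (nat_lit 24632) (nat_lit 9) (.e (nat_lit 336385) (nat_lit 27) (.e (nat_lit 426011) (nat_lit 0) (.e (nat_lit 7591) (nat_lit 407) (.e (nat_lit 73775) (nat_lit 26) .nil)))))) (.g (nat_lit 1) (.e (nat_lit 433221) (nat_lit 0) .nil) .nil)))))))) 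
(.nd (nat_lit 5) (.nd (nat_lit 6) (.nd (nat_lit 7) (.nd (nat_lit 8) (.nd (nat_lit 9) 
(.lf (nat_lit 605209) (.g (nat_lit 2036) (.e (nat_lit 778326) (nat_lit 6) (.e (nat_lit 81950) (nat_lit 21) (.e (nat_lit 57872) (nat_lit 264) (.e (nat_lit 1221) (nat_lit 90) (.e (nat_lit 81923) (nat_lit 0) .nil))))) (.g (nat_lit 0) (.e (nat_lit 431850) (nat_lit 0) .nil) .nil))) 
(.lf (nat_lit 605721) (.g (nat_lit 782) (.e (nat_lit 778464) (nat_lit 11) (.e (nat_lit 24607) (nat_lit 3) (.e (nat_lit 98382) (nat_lit 31) .nil))) (.g (nat_lit 0) (.e (nat_lit 432619) (nat_lit 0) .nil) .nil)))) (.nd (nat_lit 9) 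
(.lf (nat_lit 605465) (.g (nat_lit 3648) (.e (nat_lit 778462) (nat_lit 11) (.e (nat_lit 24608) (nat_lit 3) (.e (nat_lit 98365) (nat_lit 26) (.e (nat_lit 426188) (nat_lit 9) (.e (nat_lit 426428) (nat_lit 17) (.e (nat_lit 90165) (nat_lit 12) (.e (nat_lit 164047) (nat_lit 55) .nil))))))) (.g (nat_lit 1) (.e (nat_lit 432276) (nat_lit 0) .nil) .nil))) 
(.lf (nat_lit 605977) (.g (nat_lit 1641) (.e (nat_lit 778466) (nat_lit 11) (.e (nat_lit 24608) (nat_lit 3) (.e (nat_lit 98355) (nat_lit 26) .nil))) (.g (nat_lit 0) (.e (nat_lit 432955) (nat_lit 0) .nil) .nil))))) (.nd (nat_lit 8) (.nd (nat_lit 9) 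
(.lf (nat_lit 605337) (.g (nat_lit 2153) (.e (nat_lit 778460) (nat_lit 11) (.e (nat_lit 24627) (nat_lit 9) (.e (nat_lit 336443) (nat_lit 32) (.e (nat_lit 466972) (nat_lit 21) (.e (nat_lit 164332) (nat_lit 230) .nil))))) (.g (nat_lit 0) (.e (nat_lit 432124) (nat_lit 0) .nil) .nil))) 
(.lf (nat_lit 605849) (.g (nat_lit 2886) (.e (nat_lit 778464) (nat_lit 11) (.e (nat_lit 24665) (nat_lit 14) (.e (nat_lit 401414) (nat_lit 0) (.e (nat_lit 3459) (nat_lit 216) (.e (nat_lit 688178) (nat_lit 16) (.e (nat_lit 65604) (nat_lit 9) (.e (nat_lit 335907) (nat_lit 0) (.e (nat_lit 2309) (nat_lit 151) .nil)))))))) (.g (nat_lit 1) (.e (nat_lit 432766) (nat_lit 0) .nil) .nil)))) (.nd (nat_lit 9) 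
(.lf (nat_lit 605593) (.g (nat_lit 2497) (.e (nat_lit 778462) (nat_lit 11) (.e (nat_lit 24628) (nat_lit 9) (.e (nat_lit 336443) (nat_lit 32) (.e (nat_lit 466972) (nat_lit 21) (.e (nat_lit 164332) (nat_lit 230) (.e (nat_lit 163847) (nat_lit 0) (.e (nat_lit 3648) (nat_lit 227) .nil))))))) (.g (nat_lit 1) (.e (nat_lit 432443) (nat_lit 0) .nil) .nil))) 
(.lf (nat_lit 606105) (.g (nat_lit 3360) (.e (nat_lit 778466) (nat_lit 11) (.e (nat_lit 24617) (nat_lit 7) (.e (nat_lit 319534) (nat_lit 16) (.e (nat_lit 286756) (nat_lit 10) (.e (nat_lit 344168) (nat_lit 40) (.e (nat_lit 679680) (nat_lit 16) (.e (nat_lit 123013) (nat_lit 116) .nil))))))) (.g (nat_lit 1) (.e (nat_lit 433135) (nat_lit 0) .nil) .nil)))))) 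
(.nd (nat_lit 7) (.nd (nat_lit 8) (.nd (nat_lit 9) 
(.lf (nat_lit 605273) (.g (nat_lit 2704) (.e (nat_lit 778370) (nat_lit 9) (.e (nat_lit 2668) (nat_lit 167) (.e (nat_lit 196656) (nat_lit 11) (.e (nat_lit 16436) (nat_lit 9) (.e (nat_lit 426131) (nat_lit 3) .nil))))) (.g (nat_lit 0) (.e (nat_lit 431999) (nat_lit 0) .nil) .nil))) 
(.lf (nat_lit 605785) (.g (nat_lit 3638) (.e (nat_lit 778464) (nat_lit 11) (.e (nat_lit 24617) (nat_lit 7) (.e (nat_lit 319533) (nat_lit 16) (.e (nat_lit 286753) (nat_lit 10) (.e (nat_lit 344160) (nat_lit 37) (.e (nat_lit 647203) (nat_lit 14) (.e (nat_lit 2505) (nat_lit 157) (.e (nat_lit 879) (nat_lit 75) .nil)))))))) (.g (nat_lit 1) (.e (nat_lit 432690) (nat_lit 0) .nil) .nil)))) 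
(.nd (nat_lit 9) 
(.lf (nat_lit 605529) (.g (nat_lit 3872) (.e (nat_lit 778462) (nat_lit 11) (.e (nat_lit 24609) (nat_lit 3) (.e (nat_lit 98373) (nat_lit 29) (.e (nat_lit 450588) (nat_lit 10) (.e (nat_lit 573475) (nat_lit 12) (.e (nat_lit 65280) (nat_lit 55) .nil)))))) (.g (nat_lit 1) (.e (nat_lit 432357) (nat_lit 0) .nil) .nil))) 
(.lf (nat_lit 606041) (.g (nat_lit 986) (.e (nat_lit 778466) (nat_lit 11) (.e (nat_lit 24617) (nat_lit 7) (.e (nat_lit 319532) (nat_lit 16) (.e (nat_lit 286759) (nat_lit 12) .nil)))) (.g (nat_lit 0) (.e (nat_lit 433041) (nat_lit 0) .nil) .nil))))) (.nd (nat_lit 8) (.nd (nat_lit 9) 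
(.lf (nat_lit 605401) (.g (nat_lit 1036) (.e (nat_lit 778462) (nat_lit 11) (.e (nat_lit 24604) (nat_lit 2) (.e (nat_lit 90185) (nat_lit 17) (.e (nat_lit 237601) (nat_lit 9) .nil)))) (.g (nat_lit 0) (.e (nat_lit 432203) (nat_lit 0) .nil) .nil))) 
(.lf (nat_lit 605913) (.g (nat_lit 2796) (.e (nat_lit 778465) (nat_lit 11) (.e (nat_lit 24617) (nat_lit 7) (.e (nat_lit 319534) (nat_lit 16) (.e (nat_lit 286749) (nat_lit 9) (.e (nat_lit 335907) (nat_lit 0) .nil))))) (.g (nat_lit 0) (.e (nat_lit 432851) (nat_lit 0) .nil) .nil)))) (.nd (nat_lit 9) 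
(.lf (nat_lit 605657) (.g (nat_lit 1734) (.e (nat_lit 778462) (nat_lit 11) (.e (nat_lit 24658) (nat_lit 13) (.e (nat_lit 393300) (nat_lit 27) (.e (nat_lit 491558) (nat_lit 10) (.e (nat_lit 352000) (nat_lit 44) .nil))))) (.g (nat_lit 1) (.e (nat_lit 432538) (nat_lit 0) .nil) .nil))) 
(.lf (nat_lit 606169) (.g (nat_lit 2483) (.e (nat_lit 778466) (nat_lit 11) (.e (nat_lit 24623) (nat_lit 9) (.e (nat_lit 336369) (nat_lit 27) (.e (nat_lit 426025) (nat_lit 0) (.e (nat_lit 7936) (nat_lit 407) .nil))))) (.g (nat_lit 0) (.e (nat_lit 433204) (nat_lit 0) .nil) .nil))))))) (.nd (nat_lit 6) (.nd (nat_lit 7) (.nd (nat_lit 8) (.nd (nat_lit 9) 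
(.lf (nat_lit 605241) (.g (nat_lit 1743) (.e (nat_lit 778327) (nat_lit 6) (.e (nat_lit 81957) (nat_lit 24) (.e (nat_lit 123198) (nat_lit 266) (.e (nat_lit 57436) (nat_lit 17) (.e (nat_lit 376835) (nat_lit 0) (.e (nat_lit 3629) (nat_lit 227) .nil)))))) (.g (nat_lit 1) (.e (nat_lit 431905) (nat_lit 0) .nil) .nil))) 
(.lf (nat_lit 605753) (.g (nat_lit 2825) (.e (nat_lit 778464) (nat_lit 11) (.e (nat_lit 24617) (nat_lit 7) (.e (nat_lit 319531) (nat_lit 16) (.e (nat_lit 286759) (nat_lit 12) (.e (nat_lit 385115) (nat_lit 53) (.e (nat_lit 811031) (nat_lit 11) (.e (nat_lit 883) (nat_lit 75) .nil))))))) (.g (nat_lit 1) (.e (nat_lit 432655) (nat_lit 0) .nil) .nil)))) (.nd (nat_lit 9) 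
(.lf (nat_lit 605497) (.g (nat_lit 1391) (.e (nat_lit 778462) (nat_lit 11) (.e (nat_lit 24608) (nat_lit 3) (.e (nat_lit 98365) (nat_lit 26) (.e (nat_lit 426307) (nat_lit 12) .nil)))) (.g (nat_lit 0) (.e (nat_lit 432308) (nat_lit 0) .nil) .nil))) 
(.lf (nat_lit 606009) (.g (nat_lit 2136) (.e (nat_lit 778466) (nat_lit 11) (.e (nat_lit 24617) (nat_lit 7) (.e (nat_lit 319505) (nat_lit 10) (.e (nat_lit 720) (nat_lit 64) (.e (nat_lit 688176) (nat_lit 16) .nil))))) (.g (nat_lit 0) (.e (nat_lit 432990) (nat_lit 0) .nil) .nil))))) (.nd (nat_lit 8) (.nd (nat_lit 9) 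
(.lf (nat_lit 605369) (.g (nat_lit 1339) (.e (nat_lit 778461) (nat_lit 11) (.e (nat_lit 24628) (nat_lit 9) (.e (nat_lit 336438) (nat_lit 31) (.e (nat_lit 458769) (nat_lit 16) (.e (nat_lit 164293) (nat_lit 224) .nil))))) (.g (nat_lit 0) (.e (nat_lit 432165) (nat_lit 0) .nil) .nil))) 
(.lf (nat_lit 605881) (.g (nat_lit 1903) (.e (nat_lit 778465) (nat_lit 11) (.e (nat_lit 24617) (nat_lit 7) (.e (nat_lit 319528) (nat_lit 16) (.e (nat_lit 286759) (nat_lit 12) (.e (nat_lit 385113) (nat_lit 53) .nil))))) (.g (nat_lit 0) (.e (nat_lit 432819) (nat_lit 0) .nil) .nil)))) (.nd (nat_lit 9) 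
(.lf (nat_lit 605625) (.g (nat_lit 1377) (.e (nat_lit 778462) (nat_lit 11) (.e (nat_lit 24658) (nat_lit 13) (.e (nat_lit 393231) (nat_lit 17) (.e (nat_lit 7593) (nat_lit 407) (.e (nat_lit 81664) (nat_lit 26) .nil))))) (.g (nat_lit 0) (.e (nat_lit 432490) (nat_lit 0) .nil) .nil))) 
(.lf (nat_lit 606137) (.g (nat_lit 4051) (.e (nat_lit 778466) (nat_lit 11) (.e (nat_lit 24617) (nat_lit 7) (.e (nat_lit 319534) (nat_lit 16) (.e (nat_lit 286756) (nat_lit 10) (.e (nat_lit 344160) (nat_lit 37) (.e (nat_lit 647190) (nat_lit 9) (.e (nat_lit 1036) (nat_lit 81) (.e (nat_lit 2342) (nat_lit 151) .nil)))))))) (.g (nat_lit 1) (.e (nat_lit 433167) (nat_lit 0) .nil) .nil)))))) 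
(.nd (nat_lit 7) (.nd (nat_lit 8) (.nd (nat_lit 9) 
(.lf (nat_lit 605305) (.g (nat_lit 2527) (.e (nat_lit 778459) (nat_lit 11) (.e (nat_lit 24660) (nat_lit 13) (.e (nat_lit 393260) (nat_lit 21) (.e (nat_lit 409616) (nat_lit 10) (.e (nat_lit 4978) (nat_lit 287) .nil))))) (.g (nat_lit 0) (.e (nat_lit 432090) (nat_lit 0) .nil) .nil))) 
(.lf (nat_lit 605817) (.g (nat_lit 2625) (.e (nat_lit 778464) (nat_lit 11) (.e (nat_lit 24617) (nat_lit 7) (.e (nat_lit 319534) (nat_lit 16) (.e (nat_lit 286756) (nat_lit 10) (.e (nat_lit 344160) (nat_lit 37) (.e (nat_lit 647195) (nat_lit 9) (.e (nat_lit 982) (nat_lit 81) (.e (nat_lit 2343) (nat_lit 151) .nil)))))))) (.g (nat_lit 1) (.e (nat_lit 432726) (nat_lit 0) .nil) .nil)))) (.nd (nat_lit 9) 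
(.lf (nat_lit 605561) (.g (nat_lit 2077) (.e (nat_lit 778462) (nat_lit 11) (.e (nat_lit 24628) (nat_lit 9) (.e (nat_lit 336443) (nat_lit 32) (.e (nat_lit 466969) (nat_lit 21) (.e (nat_lit 164332) (nat_lit 230) (.e (nat_lit 163847) (nat_lit 0) (.e (nat_lit 3654) (nat_lit 227) .nil))))))) (.g (nat_lit 1) (.e (nat_lit 432407) (nat_lit 0) .nil) .nil))) 
(.lf (nat_lit 606073) (.g (nat_lit 3458) (.e (nat_lit 778466) (nat_lit 11) (.e (nat_lit 24617) (nat_lit 7) (.e (nat_lit 319533) (nat_lit 16) (.e (nat_lit 286753) (nat_lit 10) (.e (nat_lit 344160) (nat_lit 37) (.e (nat_lit 647195) (nat_lit 9) (.e (nat_lit 982) (nat_lit 81) (.e (nat_lit 2342) (nat_lit 151) .nil)))))))) (.g (nat_lit 1) (.e (nat_lit 433074) (nat_lit 0) .nil) .nil))))) 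
(.nd (nat_lit 8) (.nd (nat_lit 9) 
(.lf (nat_lit 605433) (.g (nat_lit 2088) (.e (nat_lit 778462) (nat_lit 11) (.e (nat_lit 24604) (nat_lit 2) (.e (nat_lit 90185) (nat_lit 17) (.e (nat_lit 237616) (nat_lit 12) (.e (nat_lit 475179) (nat_lit 24) (.e (nat_lit 516100) (nat_lit 0) (.e (nat_lit 3651) (nat_lit 227) .nil))))))) (.g (nat_lit 1) (.e (nat_lit 432235) (nat_lit 0) .nil) .nil))) 
(.lf (nat_lit 605945) (.g (nat_lit 2817) (.e (nat_lit 778465) (nat_lit 11) (.e (nat_lit 24657) (nat_lit 13) (.e (nat_lit 393232) (nat_lit 17) (.e (nat_lit 7593) (nat_lit 407) (.e (nat_lit 73775) (nat_lit 26) .nil))))) (.g (nat_lit 1) (.e (nat_lit 432883) (nat_lit 0) .nil) .nil)))) (.nd (nat_lit 9) 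
(.lf (nat_lit 605689) (.g (nat_lit 2326) (.e (nat_lit 778463) (nat_lit 11) (.e (nat_lit 24608) (nat_lit 3) (.e (nat_lit 98373) (nat_lit 29) (.e (nat_lit 450586) (nat_lit 10) .nil)))) (.g (nat_lit 0) (.e (nat_lit 432573) (nat_lit 0) .nil) .nil))) 
(.lf (nat_lit 606201) (.g (nat_lit 3285) (.e (nat_lit 778466) (nat_lit 11) (.e (nat_lit 24658) (nat_lit 13) (.e (nat_lit 393301) (nat_lit 27) (.e (nat_lit 491559) (nat_lit 10) (.e (nat_lit 344179) (nat_lit 44) .nil))))) (.g (nat_lit 0) (.e (nat_lit 433237) (nat_lit 0) .nil) .nil)))))))))) 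
(.nd (nat_lit 3) (.nd (nat_lit 4) (.nd (nat_lit 5) (.nd (nat_lit 6) (.nd (nat_lit 7) 
(.nd (nat_lit 8) (.nd (nat_lit 9) 
(.lf (nat_lit 605189) (.g (nat_lit 977) (.e (nat_lit 778325) (nat_lit 6) (.e (nat_lit 81956) (nat_lit 23) (.e (nat_lit 106240) (nat_lit 7) .nil))) (.g (nat_lit 0) (.e (nat_lit 431827) (nat_lit 0) .nil) .nil))) 
(.lf (nat_lit 605701) (.g (nat_lit 805) (.e (nat_lit 778463) (nat_lit 11) (.e (nat_lit 24657) (nat_lit 13) (.e (nat_lit 393249) (nat_lit 17) .nil))) (.g (nat_lit 0) (.e (nat_lit 432586) (nat_lit 0) .nil) .nil)))) (.nd (nat_lit 9) 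
(.lf (nat_lit 605445) (.g (nat_lit 1102) (.e (nat_lit 778462) (nat_lit 11) (.e (nat_lit 24608) (nat_lit 3) (.e (nat_lit 98363) (nat_lit 26) (.e (nat_lit 426230) (nat_lit 9) .nil)))) (.g (nat_lit 0) (.e (nat_lit 432256) (nat_lit 0) .nil) .nil))) 
(.lf (nat_lit 605957) (.g (nat_lit 3020) (.e (nat_lit 778466) (nat_lit 11) (.e (nat_lit 24604) (nat_lit 2) (.e (nat_lit 90170) (nat_lit 13) (.e (nat_lit 172107) (nat_lit 10) (.e (nat_lit 434247) (nat_lit 28) .nil))))) (.g (nat_lit 0) (.e (nat_lit 432926) (nat_lit 0) .nil) .nil))))) (.nd (nat_lit 8) (.nd (nat_lit 9) 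
(.lf (nat_lit 605317) (.g (nat_lit 4639) (.e (nat_lit 778459) (nat_lit 11) (.e (nat_lit 24665) (nat_lit 14) (.e (nat_lit 401414) (nat_lit 0) (.e (nat_lit 3459) (nat_lit 216) (.e (nat_lit 688178) (nat_lit 16) (.e (nat_lit 65604) (nat_lit 9) (.e (nat_lit 335907) (nat_lit 0) (.e (nat_lit 2292) (nat_lit 151) .nil)))))))) (.g (nat_lit 1) (.e (nat_lit 432102) (nat_lit 0) .nil) .nil))) 
(.lf (nat_lit 605829) (.g (nat_lit 1771) (.e (nat_lit 778464) (nat_lit 11) (.e (nat_lit 24617) (nat_lit 7) (.e (nat_lit 319534) (nat_lit 16) (.e (nat_lit 286759) (nat_lit 12) (.e (nat_lit 385115) (nat_lit 53) .nil))))) (.g (nat_lit 0) (.e (nat_lit 432738) (nat_lit 0) .nil) .nil)))) (.nd (nat_lit 9) 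
(.lf (nat_lit 605573) (.g (nat_lit 1924) (.e (nat_lit 778462) (nat_lit 11) (.e (nat_lit 24628) (nat_lit 9) (.e (nat_lit 336443) (nat_lit 32) (.e (nat_lit 466971) (nat_lit 21) (.e (nat_lit 164325) (nat_lit 230) (.e (nat_lit 163844) (nat_lit 0) (.e (nat_lit 3656) (nat_lit 227) .nil))))))) (.g (nat_lit 1) (.e (nat_lit 432419) (nat_lit 0) .nil) .nil))) 
(.lf (nat_lit 606085) (.g (nat_lit 1173) (.e (nat_lit 778466) (nat_lit 11) (.e (nat_lit 24617) (nat_lit 7) (.e (nat_lit 319533) (nat_lit 16) (.e (nat_lit 286759) (nat_lit 12) .nil)))) (.g (nat_lit 0) (.e (nat_lit 433087) (nat_lit 0) .nil) .nil)))))) (.nd (nat_lit 7) (.nd (nat_lit 8) (.nd (nat_lit 9) 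
(.lf (nat_lit 605253) (.g (nat_lit 2115) (.e (nat_lit 778336) (nat_lit 9) (.e (nat_lit 2668) (nat_lit 167) (.e (nat_lit 196656) (nat_lit 11) (.e (nat_lit 16448) (nat_lit 10) .nil)))) (.g (nat_lit 0) (.e (nat_lit 431931) (nat_lit 0) .nil) .nil))) 
(.lf (nat_lit 605765) (.g (nat_lit 1552) (.e (nat_lit 778464) (nat_lit 11) (.e (nat_lit 24617) (nat_lit 7) (.e (nat_lit 319533) (nat_lit 16) (.e (nat_lit 286753) (nat_lit 10) .nil)))) (.g (nat_lit 0) (.e (nat_lit 432670) (nat_lit 0) .nil) .nil)))) (.nd (nat_lit 9) 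
(.lf (nat_lit 605509) (.g (nat_lit 3827) (.e (nat_lit 778462) (nat_lit 11) (.e (nat_lit 24608) (nat_lit 3) (.e (nat_lit 98373) (nat_lit 29) (.e (nat_lit 450587) (nat_lit 10) (.e (nat_lit 573473) (nat_lit 12) (.e (nat_lit 65280) (nat_lit 55) .nil)))))) (.g (nat_lit 1) (.e (nat_lit 432322) (nat_lit 0) .nil) .nil))) 
(.lf (nat_lit 606021) (.g (nat_lit 2469) (.e (nat_lit 778466) (nat_lit 11) (.e (nat_lit 24617) (nat_lit 7) (.e (nat_lit 319528) (nat_lit 16) (.e (nat_lit 286759) (nat_lit 12) (.e (nat_lit 385115) (nat_lit 53) (.e (nat_lit 811033) (nat_lit 11) (.e (nat_lit 879) (nat_lit 75) .nil))))))) (.g (nat_lit 1) (.e (nat_lit 433011) (nat_lit 0) .nil) .nil))))) (.nd (nat_lit 8) (.nd (nat_lit 9) 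
(.lf (nat_lit 605381) (.g (nat_lit 2921) (.e (nat_lit 778461) (nat_lit 11) (.e (nat_lit 24655) (nat_lit 13) (.e (nat_lit 393301) (nat_lit 27) (.e (nat_lit 491558) (nat_lit 10) (.e (nat_lit 352000) (nat_lit 44) .nil))))) (.g (nat_lit 0) (.e (nat_lit 432180) (nat_lit 0) .nil) .nil))) 
(.lf (nat_lit 605893) (.g (nat_lit 3114) (.e (nat_lit 778465) (nat_lit 11) (.e (nat_lit 24617) (nat_lit 7) (.e (nat_lit 319531) (nat_lit 16) (.e (nat_lit 286759) (nat_lit 12) (.e (nat_lit 385115) (nat_lit 53) (.e (nat_lit 811032) (nat_lit 11) (.e (nat_lit 883) (nat_lit 75) .nil))))))) (.g (nat_lit 1) (.e (nat_lit 432831) (nat_lit 0) .nil) .nil)))) (.nd (nat_lit 9) 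
(.lf (nat_lit 605637) (.g (nat_lit 1509) (.e (nat_lit 778462) (nat_lit 11) (.e (nat_lit 24658) (nat_lit 13) (.e (nat_lit 393281) (nat_lit 23) (.e (nat_lit 426099) (nat_lit 1) (.e (nat_lit 164332) (nat_lit 230) (.e (nat_lit 163847) (nat_lit 0) (.e (nat_lit 3651) (nat_lit 227) .nil))))))) (.g (nat_lit 1) (.e (nat_lit 432515) (nat_lit 0) .nil) .nil))) 
(.lf (nat_lit 606149) (.g (nat_lit 4033) (.e (nat_lit 778466) (nat_lit 11) (.e (nat_lit 24617) (nat_lit 7) (.e (nat_lit 319534) (nat_lit 16) (.e (nat_lit 286756) (nat_lit 10) (.e (nat_lit 344160) (nat_lit 37) (.e (nat_lit 647195) (nat_lit 9) (.e (nat_lit 1014) (nat_lit 81) (.e (nat_lit 2328) (nat_lit 151) .nil)))))))) (.g (nat_lit 1) (.e (nat_lit 433179) (nat_lit 0) .nil) .nil))))))) 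
(.nd (nat_lit 6) (.nd (nat_lit 7) (.nd (nat_lit 8) (.nd (nat_lit 9) 
(.lf (nat_lit 605221) (.g (nat_lit 1000) (.e (nat_lit 778327) (nat_lit 6) (.e (nat_lit 81922) (nat_lit 0) (.e (nat_lit 3632) (nat_lit 227) (.e (nat_lit 778327) (nat_lit 6) (.e (nat_lit 81922) (nat_lit 0) (.e (nat_lit 3630) (nat_lit 227) .nil)))))) (.g (nat_lit 1) (.e (nat_lit 431873) (nat_lit 0) .nil) .nil))) 
(.lf (nat_lit 605733) (.g (nat_lit 2318) (.e (nat_lit 778464) (nat_lit 11) (.e (nat_lit 24616) (nat_lit 7) (.e (nat_lit 319530) (nat_lit 16) (.e (nat_lit 286759) (nat_lit 12) (.e (nat_lit 385115) (nat_lit 53) (.e (nat_lit 811034) (nat_lit 11) (.e (nat_lit 883) (nat_lit 75) .nil))))))) (.g (nat_lit 1) (.e (nat_lit 432631) (nat_lit 0) .nil) .nil)))) (.nd (nat_lit 9) 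
(.lf (nat_lit 605477) (.g (nat_lit 2464) (.e (nat_lit 778462) (nat_lit 11) (.e (nat_lit 24608) (nat_lit 3) (.e (nat_lit 98365) (nat_lit 26) (.e (nat_lit 426306) (nat_lit 12) (.e (nat_lit 475171) (nat_lit 22) (.e (nat_lit 499910) (nat_lit 8) (.e (nat_lit 164047) (nat_lit 55) .nil))))))) (.g (nat_lit 1) (.e (nat_lit 432288) (nat_lit 0) .nil) .nil))) 
(.lf (nat_lit 605989) (.g (nat_lit 2092) (.e (nat_lit 778466) (nat_lit 11) (.e (nat_lit 24608) (nat_lit 3) (.e (nat_lit 98365) (nat_lit 26) (.e (nat_lit 426306) (nat_lit 12) (.e (nat_lit 475177) (nat_lit 24) (.e (nat_lit 516098) (nat_lit 0) (.e (nat_lit 3687) (nat_lit 227) .nil))))))) (.g (nat_lit 1) (.e (nat_lit 432968) (nat_lit 0) .nil) .nil))))) (.nd (nat_lit 8) (.nd (nat_lit 9) 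
(.lf (nat_lit 605349) (.g (nat_lit 889) (.e (nat_lit 778460) (nat_lit 11) (.e (nat_lit 24655) (nat_lit 13) (.e (nat_lit 393299) (nat_lit 27) .nil))) (.g (nat_lit 0) (.e (nat_lit 432138) (nat_lit 0) .nil) .nil))) 
(.lf (nat_lit 605861) (.g (nat_lit 2406) (.e (nat_lit 778465) (nat_lit 11) (.e (nat_lit 24604) (nat_lit 2) (.e (nat_lit 90170) (nat_lit 13) (.e (nat_lit 172113) (nat_lit 10) (.e (nat_lit 434242) (nat_lit 28) .nil))))) (.g (nat_lit 0) (.e (nat_lit 432798) (nat_lit 0) .nil) .nil)))) (.nd (nat_lit 9) 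
(.lf (nat_lit 605605) (.g (nat_lit 2076) (.e (nat_lit 778462) (nat_lit 11) (.e (nat_lit 24628) (nat_lit 9) (.e (nat_lit 336443) (nat_lit 32) (.e (nat_lit 466972) (nat_lit 21) (.e (nat_lit 164332) (nat_lit 230) (.e (nat_lit 163850) (nat_lit 0) (.e (nat_lit 3667) (nat_lit 227) .nil))))))) (.g (nat_lit 1) (.e (nat_lit 432455) (nat_lit 0) .nil) .nil))) 
(.lf (nat_lit 606117) (.g (nat_lit 3375) (.e (nat_lit 778466) (nat_lit 11) (.e (nat_lit 24617) (nat_lit 7) (.e (nat_lit 319534) (nat_lit 16) (.e (nat_lit 286756) (nat_lit 10) (.e (nat_lit 344160) (nat_lit 37) (.e (nat_lit 647188) (nat_lit 9) (.e (nat_lit 970) (nat_lit 81) (.e (nat_lit 2304) (nat_lit 151) .nil)))))))) (.g (nat_lit 1) (.e (nat_lit 433147) (nat_lit 0) .nil) .nil)))))) 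
(.nd (nat_lit 7) (.nd (nat_lit 8) (.nd (nat_lit 9) 
(.lf (nat_lit 605285) (.g (nat_lit 778) (.e (nat_lit 778459) (nat_lit 11) (.e (nat_lit 24655) (nat_lit 13) (.e (nat_lit 393281) (nat_lit 23) .nil))) (.g (nat_lit 0) (.e (nat_lit 432064) (nat_lit 0) .nil) .nil))) 
(.lf (nat_lit 605797) (.g (nat_lit 2510) (.e (nat_lit 778464) (nat_lit 11) (.e (nat_lit 24617) (nat_lit 7) (.e (nat_lit 319534) (nat_lit 16) (.e (nat_lit 286756) (nat_lit 10) (.e (nat_lit 352000) (nat_lit 39) (.e (nat_lit 663585) (nat_lit 12) (.e (nat_lit 164050) (nat_lit 55) .nil))))))) (.g (nat_lit 1) (.e (nat_lit 432706) (nat_lit 0) .nil) .nil)))) (.nd (nat_lit 9) 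
(.lf (nat_lit 605541) (.g (nat_lit 1729) (.e (nat_lit 778462) (nat_lit 11) (.e (nat_lit 24628) (nat_lit 9) (.e (nat_lit 336443) (nat_lit 32) (.e (nat_lit 466969) (nat_lit 21) (.e (nat_lit 164329) (nat_lit 230) (.e (nat_lit 163843) (nat_lit 0) (.e (nat_lit 3651) (nat_lit 227) .nil))))))) (.g (nat_lit 1) (.e (nat_lit 432387) (nat_lit 0) .nil) .nil))) 
(.lf (nat_lit 606053) (.g (nat_lit 2704) (.e (nat_lit 778466) (nat_lit 11) (.e (nat_lit 24617) (nat_lit 7) (.e (nat_lit 319533) (nat_lit 16) (.e (nat_lit 286753) (nat_lit 10) (.e (nat_lit 344160) (nat_lit 37) (.e (nat_lit 647188) (nat_lit 9) (.e (nat_lit 986) (nat_lit 81) (.e (nat_lit 2347) (nat_lit 151) .nil)))))))) (.g (nat_lit 1) (.e (nat_lit 433054) (nat_lit 0) .nil) .nil))))) 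
(.nd (nat_lit 8) (.nd (nat_lit 9) 
(.lf (nat_lit 605413) (.g (nat_lit 2891) (.e (nat_lit 778462) (nat_lit 11) (.e (nat_lit 24604) (nat_lit 2) (.e (nat_lit 90185) (nat_lit 17) (.e (nat_lit 237605) (nat_lit 9) (.e (nat_lit 426428) (nat_lit 17) (.e (nat_lit 90165) (nat_lit 12) (.e (nat_lit 164035) (nat_lit 55) .nil))))))) (.g (nat_lit 1) (.e (nat_lit 432215) (nat_lit 0) .nil) .nil))) 
(.lf (nat_lit 605925) (.g (nat_lit 3042) (.e (nat_lit 778465) (nat_lit 11) (.e (nat_lit 24623) (nat_lit 9) (.e (nat_lit 336384) (nat_lit 27) (.e (nat_lit 426011) (nat_lit 0) (.e (nat_lit 7593) (nat_lit 407) (.e (nat_lit 73775) (nat_lit 26) .nil)))))) (.g (nat_lit 1) (.e (nat_lit 432863) (nat_lit 0) .nil) .nil)))) (.nd (nat_lit 9) 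
(.lf (nat_lit 605669) (.g (nat_lit 2041) (.e (nat_lit 778462) (nat_lit 11) (.e (nat_lit 24660) (nat_lit 13) (.e (nat_lit 393260) (nat_lit 21) (.e (nat_lit 409618) (nat_lit 10) (.e (nat_lit 5023) (nat_lit 290) .nil))))) (.g (nat_lit 0) (.e (nat_lit 432550) (nat_lit 0) .nil) .nil))) 
(.lf (nat_lit 606181) (.g (nat_lit 751) (.e (nat_lit 778466) (nat_lit 11) (.e (nat_lit 24628) (nat_lit 9) (.e (nat_lit 336391) (nat_lit 27) .nil))) (.g (nat_lit 0) (.e (nat_lit 433217) (nat_lit 0) .nil) .nil)))))))) (.nd (nat_lit 5) (.nd (nat_lit 6) (.nd (nat_lit 7) (.nd (nat_lit 8) (.nd (nat_lit 9) 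
(.lf (nat_lit 605205) (.g (nat_lit 2052) (.e (nat_lit 778326) (nat_lit 6) (.e (nat_lit 81938) (nat_lit 20) (.e (nat_lit 2006) (nat_lit 138) (.e (nat_lit 671764) (nat_lit 6) (.e (nat_lit 81922) (nat_lit 0) (.e (nat_lit 3631) (nat_lit 227) .nil)))))) (.g (nat_lit 1) (.e (nat_lit 431846) (nat_lit 0) .nil) .nil))) 
(.lf (nat_lit 605717) (.g (nat_lit 1797) (.e (nat_lit 778464) (nat_lit 11) (.e (nat_lit 24604) (nat_lit 2) (.e (nat_lit 90178) (nat_lit 15) (.e (nat_lit 188441) (nat_lit 20) .nil)))) (.g (nat_lit 0) (.e (nat_lit 432614) (nat_lit 0) .nil) .nil)))) (.nd (nat_lit 9) 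
(.lf (nat_lit 605461) (.g (nat_lit 2630) (.e (nat_lit 778462) (nat_lit 11) (.e (nat_lit 24608) (nat_lit 3) (.e (nat_lit 98365) (nat_lit 26) (.e (nat_lit 426187) (nat_lit 9) (.e (nat_lit 426436) (nat_lit 18) (.e (nat_lit 98324) (nat_lit 17) (.e (nat_lit 3617) (nat_lit 227) .nil))))))) (.g (nat_lit 1) (.e (nat_lit 432272) (nat_lit 0) .nil) .nil))) 
(.lf (nat_lit 605973) (.g (nat_lit 2380) (.e (nat_lit 778466) (nat_lit 11) (.e (nat_lit 24604) (nat_lit 2) (.e (nat_lit 90185) (nat_lit 17) (.e (nat_lit 237616) (nat_lit 12) (.e (nat_lit 475179) (nat_lit 24) (.e (nat_lit 516102) (nat_lit 0) (.e (nat_lit 3719) (nat_lit 227) .nil))))))) (.g (nat_lit 1) (.e (nat_lit 432942) (nat_lit 0) .nil) .nil))))) (.nd (nat_lit 8) (.nd (nat_lit 9) 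
(.lf (nat_lit 605333) (.g (nat_lit 710) (.e (nat_lit 778460) (nat_lit 11) (.e (nat_lit 24627) (nat_lit 9) (.e (nat_lit 336443) (nat_lit 32) .nil))) (.g (nat_lit 0) (.e (nat_lit 432120) (nat_lit 0) .nil) .nil))) 
(.lf (nat_lit 605845) (.g (nat_lit 1145) (.e (nat_lit 778464) (nat_lit 11) (.e (nat_lit 24640) (nat_lit 10) (.e (nat_lit 344096) (nat_lit 18) (.e (nat_lit 7265) (nat_lit 384) .nil)))) (.g (nat_lit 0) (.e (nat_lit 432757) (nat_lit 0) .nil) .nil)))) (.nd (nat_lit 9) 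
(.lf (nat_lit 605589) (.g (nat_lit 2112) (.e (nat_lit 778462) (nat_lit 11) (.e (nat_lit 24628) (nat_lit 9) (.e (nat_lit 336443) (nat_lit 32) (.e (nat_lit 466972) (nat_lit 21) (.e (nat_lit 164332) (nat_lit 230) (.e (nat_lit 163843) (nat_lit 0) (.e (nat_lit 3661) (nat_lit 227) .nil))))))) (.g (nat_lit 1) (.e (nat_lit 432439) (nat_lit 0) .nil) .nil))) 
(.lf (nat_lit 606101) (.g (nat_lit 2408) (.e (nat_lit 778466) (nat_lit 11) (.e (nat_lit 24617) (nat_lit 7) (.e (nat_lit 319534) (nat_lit 16) (.e (nat_lit 286756) (nat_lit 10) (.e (nat_lit 344168) (nat_lit 40) (.e (nat_lit 671786) (nat_lit 14) (.e (nat_lit 1014) (nat_lit 81) (.e (nat_lit 917) (nat_lit 75) .nil)))))))) (.g (nat_lit 1) (.e (nat_lit 433131) (nat_lit 0) .nil) .nil)))))) 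
(.nd (nat_lit 7) (.nd (nat_lit 8) (.nd (nat_lit 9) 
(.lf (nat_lit 605269) (.g (nat_lit 3297) (.e (nat_lit 778362) (nat_lit 9) (.e (nat_lit 232) (nat_lit 21) (.e (nat_lit 336013) (nat_lit 2) (.e (nat_lit 90134) (nat_lit 9) (.e (nat_lit 3025) (nat_lit 187) (.e (nat_lit 450587) (nat_lit 10) (.e (nat_lit 573478) (nat_lit 12) (.e (nat_lit 57574) (nat_lit 55) .nil)))))))) (.g (nat_lit 1) (.e (nat_lit 431983) (nat_lit 0) .nil) .nil))) 
(.lf (nat_lit 605781) (.g (nat_lit 3005) (.e (nat_lit 778464) (nat_lit 11) (.e (nat_lit 24617) (nat_lit 7) (.e (nat_lit 319533) (nat_lit 16) (.e (nat_lit 286753) (nat_lit 10) (.e (nat_lit 344160) (nat_lit 37) (.e (nat_lit 647195) (nat_lit 9) (.e (nat_lit 1008) (nat_lit 81) (.e (nat_lit 2328) (nat_lit 151) .nil)))))))) (.g (nat_lit 1) (.e (nat_lit 432686) (nat_lit 0) .nil) .nil)))) 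
(.nd (nat_lit 9) 
(.lf (nat_lit 605525) (.g (nat_lit 3140) (.e (nat_lit 778462) (nat_lit 11) (.e (nat_lit 24609) (nat_lit 3) (.e (nat_lit 98373) (nat_lit 29) (.e (nat_lit 450587) (nat_lit 10) (.e (nat_lit 573473) (nat_lit 12) (.e (nat_lit 65280) (nat_lit 55) .nil)))))) (.g (nat_lit 1) (.e (nat_lit 432353) (nat_lit 0) .nil) .nil))) 
(.lf (nat_lit 606037) (.g (nat_lit 2301) (.e (nat_lit 778466) (nat_lit 11) (.e (nat_lit 24617) (nat_lit 7) (.e (nat_lit 319531) (nat_lit 16) (.e (nat_lit 286759) (nat_lit 12) (.e (nat_lit 385113) (nat_lit 53) (.e (nat_lit 811031) (nat_lit 11) (.e (nat_lit 883) (nat_lit 75) .nil))))))) (.g (nat_lit 1) (.e (nat_lit 433036) (nat_lit 0) .nil) .nil))))) (.nd (nat_lit 8) (.nd (nat_lit 9) 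
(.lf (nat_lit 605397) (.g (nat_lit 2959) (.e (nat_lit 778462) (nat_lit 11) (.e (nat_lit 24604) (nat_lit 2) (.e (nat_lit 90178) (nat_lit 15) (.e (nat_lit 188440) (nat_lit 20) (.e (nat_lit 3307) (nat_lit 202) (.e (nat_lit 573476) (nat_lit 12) (.e (nat_lit 65280) (nat_lit 55) .nil))))))) (.g (nat_lit 1) (.e (nat_lit 432199) (nat_lit 0) .nil) .nil))) 
(.lf (nat_lit 605909) (.g (nat_lit 2431) (.e (nat_lit 778465) (nat_lit 11) (.e (nat_lit 24617) (nat_lit 7) (.e (nat_lit 319533) (nat_lit 16) (.e (nat_lit 286759) (nat_lit 12) (.e (nat_lit 385113) (nat_lit 53) .nil))))) (.g (nat_lit 0) (.e (nat_lit 432847) (nat_lit 0) .nil) .nil)))) (.nd (nat_lit 9) 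
(.lf (nat_lit 605653) (.g (nat_lit 2342) (.e (nat_lit 778462) (nat_lit 11) (.e (nat_lit 24658) (nat_lit 13) (.e (nat_lit 393281) (nat_lit 23) (.e (nat_lit 426100) (nat_lit 1) (.e (nat_lit 164332) (nat_lit 230) (.e (nat_lit 163847) (nat_lit 0) (.e (nat_lit 3659) (nat_lit 227) .nil))))))) (.g (nat_lit 1) (.e (nat_lit 432533) (nat_lit 0) .nil) .nil))) 
(.lf (nat_lit 606165) (.g (nat_lit 2519) (.e (nat_lit 778466) (nat_lit 11) (.e (nat_lit 24617) (nat_lit 7) (.e (nat_lit 319534) (nat_lit 16) (.e (nat_lit 286759) (nat_lit 12) (.e (nat_lit 385115) (nat_lit 53) (.e (nat_lit 811033) (nat_lit 11) (.e (nat_lit 879) (nat_lit 75) .nil))))))) (.g (nat_lit 1) (.e (nat_lit 433200) (nat_lit 0) .nil) .nil))))))) 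
(.nd (nat_lit 6) (.nd (nat_lit 7) (.nd (nat_lit 8) (.nd (nat_lit 9) 
(.lf (nat_lit 605237) (.g (nat_lit 1370) (.e (nat_lit 778327) (nat_lit 6) (.e (nat_lit 81957) (nat_lit 24) (.e (nat_lit 123195) (nat_lit 266) (.e (nat_lit 57354) (nat_lit 0) (.e (nat_lit 7936) (nat_lit 347) (.e (nat_lit 65637) (nat_lit 15) (.e (nat_lit 3632) (nat_lit 227) .nil))))))) (.g (nat_lit 1) (.e (nat_lit 431901) (nat_lit 0) .nil) .nil))) 
(.lf (nat_lit 605749) (.g (nat_lit 2080) (.e (nat_lit 778464) (nat_lit 11) (.e (nat_lit 24617) (nat_lit 7) (.e (nat_lit 319530) (nat_lit 16) (.e (nat_lit 286759) (nat_lit 12) (.e (nat_lit 385115) (nat_lit 53) .nil))))) (.g (nat_lit 0) (.e (nat_lit 432649) (nat_lit 0) .nil) .nil)))) (.nd (nat_lit 9) 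
(.lf (nat_lit 605493) (.g (nat_lit 1778) (.e (nat_lit 778462) (nat_lit 11) (.e (nat_lit 24608) (nat_lit 3) (.e (nat_lit 98365) (nat_lit 26) (.e (nat_lit 426306) (nat_lit 12) (.e (nat_lit 475179) (nat_lit 24) .nil))))) (.g (nat_lit 0) (.e (nat_lit 432304) (nat_lit 0) .nil) .nil))) 
(.lf (nat_lit 606005) (.g (nat_lit 2047) (.e (nat_lit 778466) (nat_lit 11) (.e (nat_lit 24616) (nat_lit 7) (.e (nat_lit 319530) (nat_lit 16) (.e (nat_lit 286759) (nat_lit 12) (.e (nat_lit 385115) (nat_lit 53) (.e (nat_lit 811031) (nat_lit 11) (.e (nat_lit 884) (nat_lit 75) .nil))))))) (.g (nat_lit 1) (.e (nat_lit 432986) (nat_lit 0) .nil) .nil))))) (.nd (nat_lit 8) (.nd (nat_lit 9) 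
(.lf (nat_lit 605365) (.g (nat_lit 2355) (.e (nat_lit 778461) (nat_lit 11) (.e (nat_lit 24608) (nat_lit 3) (.e (nat_lit 98372) (nat_lit 29) (.e (nat_lit 450586) (nat_lit 10) .nil)))) (.g (nat_lit 0) (.e (nat_lit 432160) (nat_lit 0) .nil) .nil))) 
(.lf (nat_lit 605877) (.g (nat_lit 1651) (.e (nat_lit 778465) (nat_lit 11) (.e (nat_lit 24609) (nat_lit 3) (.e (nat_lit 98373) (nat_lit 29) (.e (nat_lit 450586) (nat_lit 10) .nil)))) (.g (nat_lit 0) (.e (nat_lit 432815) (nat_lit 0) .nil) .nil)))) (.nd (nat_lit 9) 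
(.lf (nat_lit 605621) (.g (nat_lit 1840) (.e (nat_lit 778462) (nat_lit 11) (.e (nat_lit 24655) (nat_lit 13) (.e (nat_lit 393300) (nat_lit 27) (.e (nat_lit 491558) (nat_lit 10) (.e (nat_lit 352000) (nat_lit 44) .nil))))) (.g (nat_lit 1) (.e (nat_lit 432483) (nat_lit 0) .nil) .nil))) 
(.lf (nat_lit 606133) (.g (nat_lit 4137) (.e (nat_lit 778466) (nat_lit 11) (.e (nat_lit 24617) (nat_lit 7) (.e (nat_lit 319534) (nat_lit 16) (.e (nat_lit 286756) (nat_lit 10) (.e (nat_lit 344160) (nat_lit 37) (.e (nat_lit 647190) (nat_lit 9) (.e (nat_lit 1032) (nat_lit 81) (.e (nat_lit 2342) (nat_lit 151) .nil)))))))) (.g (nat_lit 1) (.e (nat_lit 433163) (nat_lit 0) .nil) .nil)))))) 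
(.nd (nat_lit 7) (.nd (nat_lit 8) (.nd (nat_lit 9) 
(.lf (nat_lit 605301) (.g (nat_lit 550) (.e (nat_lit 778459) (nat_lit 11) (.e (nat_lit 24660) (nat_lit 13) (.e (nat_lit 393232) (nat_lit 17) .nil))) (.g (nat_lit 0) (.e (nat_lit 432086) (nat_lit 0) .nil) .nil))) 
(.lf (nat_lit 605813) (.g (nat_lit 2579) (.e (nat_lit 778464) (nat_lit 11) (.e (nat_lit 24617) (nat_lit 7) (.e (nat_lit 319534) (nat_lit 16) (.e (nat_lit 286756) (nat_lit 10) (.e (nat_lit 344160) (nat_lit 37) (.e (nat_lit 647196) (nat_lit 9) (.e (nat_lit 991) (nat_lit 81) (.e (nat_lit 2308) (nat_lit 151) .nil)))))))) (.g (nat_lit 1) (.e (nat_lit 432722) (nat_lit 0) .nil) .nil)))) (.nd (nat_lit 9) 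
(.lf (nat_lit 605557) (.g (nat_lit 2226) (.e (nat_lit 778462) (nat_lit 11) (.e (nat_lit 24628) (nat_lit 9) (.e (nat_lit 336443) (nat_lit 32) (.e (nat_lit 466969) (nat_lit 21) (.e (nat_lit 164332) (nat_lit 230) (.e (nat_lit 163847) (nat_lit 0) (.e (nat_lit 3647) (nat_lit 227) .nil))))))) (.g (nat_lit 1) (.e (nat_lit 432403) (nat_lit 0) .nil) .nil))) 
(.lf (nat_lit 606069) (.g (nat_lit 3386) (.e (nat_lit 778466) (nat_lit 11) (.e (nat_lit 24617) (nat_lit 7) (.e (nat_lit 319533) (nat_lit 16) (.e (nat_lit 286753) (nat_lit 10) (.e (nat_lit 344160) (nat_lit 37) (.e (nat_lit 647196) (nat_lit 9) (.e (nat_lit 991) (nat_lit 81) (.e (nat_lit 2310) (nat_lit 151) .nil)))))))) (.g (nat_lit 1) (.e (nat_lit 433070) (nat_lit 0) .nil) .nil))))) 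
(.nd (nat_lit 8) (.nd (nat_lit 9) 
(.lf (nat_lit 605429) (.g (nat_lit 2220) (.e (nat_lit 778462) (nat_lit 11) (.e (nat_lit 24604) (nat_lit 2) (.e (nat_lit 90185) (nat_lit 17) (.e (nat_lit 237605) (nat_lit 9) (.e (nat_lit 426436) (nat_lit 18) (.e (nat_lit 98322) (nat_lit 17) (.e (nat_lit 3617) (nat_lit 227) .nil))))))) (.g (nat_lit 1) (.e (nat_lit 432231) (nat_lit 0) .nil) .nil))) 
(.lf (nat_lit 605941) (.g (nat_lit 571) (.e (nat_lit 778465) (nat_lit 11) (.e (nat_lit 24640) (nat_lit 10) (.e (nat_lit 344172) (nat_lit 41) .nil))) (.g (nat_lit 0) (.e (nat_lit 432879) (nat_lit 0) .nil) .nil)))) (.nd (nat_lit 9) 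
(.lf (nat_lit 605685) (.g (nat_lit 1894) (.e (nat_lit 778463) (nat_lit 11) (.e (nat_lit 24607) (nat_lit 3) (.e (nat_lit 98372) (nat_lit 29) (.e (nat_lit 450587) (nat_lit 10) (.e (nat_lit 573477) (nat_lit 12) .nil))))) (.g (nat_lit 0) (.e (nat_lit 432568) (nat_lit 0) .nil) .nil))) 
(.lf (nat_lit 606197) (.g (nat_lit 1286) (.e (nat_lit 778466) (nat_lit 11) (.e (nat_lit 24655) (nat_lit 13) (.e (nat_lit 393301) (nat_lit 27) (.e (nat_lit 491558) (nat_lit 10) .nil)))) (.g (nat_lit 0) (.e (nat_lit 433233) (nat_lit 0) .nil) .nil))))))))) (.nd (nat_lit 4) (.nd (nat_lit 5) (.nd (nat_lit 6) (.nd (nat_lit 7) (.nd (nat_lit 8) (.nd (nat_lit 9) 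
(.lf (nat_lit 605197) (.g (nat_lit 989) (.e (nat_lit 778326) (nat_lit 6) (.e (nat_lit 81922) (nat_lit 0) (.e (nat_lit 3632) (nat_lit 227) (.e (nat_lit 778326) (nat_lit 6) (.e (nat_lit 81924) (nat_lit 0) .nil))))) (.g (nat_lit 0) (.e (nat_lit 431836) (nat_lit 0) .nil) .nil))) 
(.lf (nat_lit 605709) (.g (nat_lit 1649) (.e (nat_lit 778464) (nat_lit 11) (.e (nat_lit 24604) (nat_lit 2) (.e (nat_lit 90170) (nat_lit 13) (.e (nat_lit 172106) (nat_lit 10) .nil)))) (.g (nat_lit 0) (.e (nat_lit 432606) (nat_lit 0) .nil) .nil)))) (.nd (nat_lit 9) 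
(.lf (nat_lit 605453) (.g (nat_lit 3292) (.e (nat_lit 778462) (nat_lit 11) (.e (nat_lit 24608) (nat_lit 3) (.e (nat_lit 98365) (nat_lit 26) (.e (nat_lit 426187) (nat_lit 9) (.e (nat_lit 426428) (nat_lit 17) (.e (nat_lit 90165) (nat_lit 12) (.e (nat_lit 164047) (nat_lit 55) .nil))))))) (.g (nat_lit 1) (.e (nat_lit 432264) (nat_lit 0) .nil) .nil))) 
(.lf (nat_lit 605965) (.g (nat_lit 5007) (.e (nat_lit 778466) (nat_lit 11) (.e (nat_lit 24604) (nat_lit 2) (.e (nat_lit 90176) (nat_lit 15) (.e (nat_lit 188440) (nat_lit 20) (.e (nat_lit 3307) (nat_lit 202) (.e (nat_lit 573477) (nat_lit 12) (.e (nat_lit 57575) (nat_lit 55) .nil))))))) (.g (nat_lit 1) (.e (nat_lit 432934) (nat_lit 0) .nil) .nil))))) (.nd (nat_lit 8) (.nd (nat_lit 9) 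
(.lf (nat_lit 605325) (.g (nat_lit 2009) (.e (nat_lit 778460) (nat_lit 11) (.e (nat_lit 24608) (nat_lit 3) (.e (nat_lit 98373) (nat_lit 29) (.e (nat_lit 450586) (nat_lit 10) .nil)))) (.g (nat_lit 0) (.e (nat_lit 432110) (nat_lit 0) .nil) .nil))) 
(.lf (nat_lit 605837) (.g (nat_lit 878) (.e (nat_lit 778464) (nat_lit 11) (.e (nat_lit 24625) (nat_lit 9) (.e (nat_lit 336436) (nat_lit 31) .nil))) (.g (nat_lit 0) (.e (nat_lit 432747) (nat_lit 0) .nil) .nil)))) (.nd (nat_lit 9) 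
(.lf (nat_lit 605581) (.g (nat_lit 3494) (.e (nat_lit 778462) (nat_lit 11) (.e (nat_lit 24628) (nat_lit 9) (.e (nat_lit 336443) (nat_lit 32) (.e (nat_lit 466972) (nat_lit 21) (.e (nat_lit 164332) (nat_lit 230) (.e (nat_lit 163843) (nat_lit 0) (.e (nat_lit 3617) (nat_lit 227) .nil))))))) (.g (nat_lit 1) (.e (nat_lit 432431) (nat_lit 0) .nil) .nil))) 
(.lf (nat_lit 606093) (.g (nat_lit 1777) (.e (nat_lit 778466) (nat_lit 11) (.e (nat_lit 24617) (nat_lit 7) (.e (nat_lit 319534) (nat_lit 16) (.e (nat_lit 286756) (nat_lit 10) (.e (nat_lit 344088) (nat_lit 18) .nil))))) (.g (nat_lit 0) (.e (nat_lit 433108) (nat_lit 0) .nil) .nil)))))) (.nd (nat_lit 7) (.nd (nat_lit 8) (.nd (nat_lit 9) 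
(.lf (nat_lit 605261) (.g (nat_lit 2728) (.e (nat_lit 778359) (nat_lit 9) (.e (nat_lit 232) (nat_lit 21) (.e (nat_lit 336013) (nat_lit 2) (.e (nat_lit 90134) (nat_lit 9) (.e (nat_lit 3025) (nat_lit 187) .nil))))) (.g (nat_lit 0) (.e (nat_lit 431973) (nat_lit 0) .nil) .nil))) 
(.lf (nat_lit 605773) (.g (nat_lit 2414) (.e (nat_lit 778464) (nat_lit 11) (.e (nat_lit 24617) (nat_lit 7) (.e (nat_lit 319533) (nat_lit 16) (.e (nat_lit 286753) (nat_lit 10) (.e (nat_lit 344160) (nat_lit 37) (.e (nat_lit 647190) (nat_lit 9) (.e (nat_lit 984) (nat_lit 81) (.e (nat_lit 2353) (nat_lit 151) .nil)))))))) (.g (nat_lit 1) (.e (nat_lit 432678) (nat_lit 0) .nil) .nil)))) (.nd (nat_lit 9) 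
(.lf (nat_lit 605517) (.g (nat_lit 295) (.e (nat_lit 778462) (nat_lit 11) (.e (nat_lit 24608) (nat_lit 3) (.e (nat_lit 98380) (nat_lit 31) .nil))) (.g (nat_lit 0) (.e (nat_lit 432330) (nat_lit 0) .nil) .nil))) 
(.lf (nat_lit 606029) (.g (nat_lit 1189) (.e (nat_lit 778466) (nat_lit 11) (.e (nat_lit 24617) (nat_lit 7) (.e (nat_lit 319530) (nat_lit 16) (.e (nat_lit 286759) (nat_lit 12) .nil)))) (.g (nat_lit 0) (.e (nat_lit 433025) (nat_lit 0) .nil) .nil))))) (.nd (nat_lit 8) (.nd (nat_lit 9) 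
(.lf (nat_lit 605389) (.g (nat_lit 4554) (.e (nat_lit 778462) (nat_lit 11) (.e (nat_lit 24604) (nat_lit 2) (.e (nat_lit 90170) (nat_lit 13) (.e (nat_lit 172106) (nat_lit 10) (.e (nat_lit 434244) (nat_lit 28) (.e (nat_lit 573474) (nat_lit 12) (.e (nat_lit 65280) (nat_lit 55) .nil))))))) (.g (nat_lit 1) (.e (nat_lit 432190) (nat_lit 0) .nil) .nil))) 
(.lf (nat_lit 605901) (.g (nat_lit 3124) (.e (nat_lit 778465) (nat_lit 11) (.e (nat_lit 24617) (nat_lit 7) (.e (nat_lit 319533) (nat_lit 16) (.e (nat_lit 286753) (nat_lit 10) (.e (nat_lit 344160) (nat_lit 37) (.e (nat_lit 647195) (nat_lit 9) (.e (nat_lit 1040) (nat_lit 81) (.e (nat_lit 7936) (nat_lit 151) .nil)))))))) (.g (nat_lit 1) (.e (nat_lit 432839) (nat_lit 0) .nil) .nil)))) 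
(.nd (nat_lit 9) 
(.lf (nat_lit 605645) (.g (nat_lit 2443) (.e (nat_lit 778462) (nat_lit 11) (.e (nat_lit 24658) (nat_lit 13) (.e (nat_lit 393281) (nat_lit 23) (.e (nat_lit 426100) (nat_lit 1) (.e (nat_lit 164330) (nat_lit 230) (.e (nat_lit 163857) (nat_lit 0) (.e (nat_lit 3666) (nat_lit 227) .nil))))))) (.g (nat_lit 1) (.e (nat_lit 432525) (nat_lit 0) .nil) .nil))) 
(.lf (nat_lit 606157) (.g (nat_lit 3831) (.e (nat_lit 778466) (nat_lit 11) (.e (nat_lit 24617) (nat_lit 7) (.e (nat_lit 319534) (nat_lit 16) (.e (nat_lit 286756) (nat_lit 10) (.e (nat_lit 344160) (nat_lit 37) (.e (nat_lit 647203) (nat_lit 14) (.e (nat_lit 2509) (nat_lit 157) (.e (nat_lit 879) (nat_lit 75) .nil)))))))) (.g (nat_lit 1) (.e (nat_lit 433188) (nat_lit 0) .nil) .nil))))))) 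
(.nd (nat_lit 6) (.nd (nat_lit 7) (.nd (nat_lit 8) (.nd (nat_lit 9) 
(.lf (nat_lit 605229) (.g (nat_lit 1252) (.e (nat_lit 778327) (nat_lit 6) (.e (nat_lit 81947) (nat_lit 20) (.e (nat_lit 2006) (nat_lit 138) (.e (nat_lit 671764) (nat_lit 6) (.e (nat_lit 81924) (nat_lit 0) .nil))))) (.g (nat_lit 0) (.e (nat_lit 431881) (nat_lit 0) .nil) .nil))) 
(.lf (nat_lit 605741) (.g (nat_lit 2745) (.e (nat_lit 778464) (nat_lit 11) (.e (nat_lit 24617) (nat_lit 7) (.e (nat_lit 319528) (nat_lit 16) (.e (nat_lit 286759) (nat_lit 12) (.e (nat_lit 385115) (nat_lit 53) (.e (nat_lit 811034) (nat_lit 11) (.e (nat_lit 883) (nat_lit 75) .nil))))))) (.g (nat_lit 1) (.e (nat_lit 432640) (nat_lit 0) .nil) .nil)))) (.nd (nat_lit 9) 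
(.lf (nat_lit 605485) (.g (nat_lit 3463) (.e (nat_lit 778462) (nat_lit 11) (.e (nat_lit 24608) (nat_lit 3) (.e (nat_lit 98365) (nat_lit 26) (.e (nat_lit 426306) (nat_lit 12) (.e (nat_lit 475177) (nat_lit 24) (.e (nat_lit 516097) (nat_lit 0) (.e (nat_lit 3661) (nat_lit 227) .nil))))))) (.g (nat_lit 1) (.e (nat_lit 432296) (nat_lit 0) .nil) .nil))) 
(.lf (nat_lit 605997) (.g (nat_lit 1510) (.e (nat_lit 778466) (nat_lit 11) (.e (nat_lit 24608) (nat_lit 3) (.e (nat_lit 98381) (nat_lit 31) .nil))) (.g (nat_lit 0) (.e (nat_lit 432976) (nat_lit 0) .nil) .nil))))) (.nd (nat_lit 8) (.nd (nat_lit 9) 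
(.lf (nat_lit 605357) (.g (nat_lit 2651) (.e (nat_lit 778460) (nat_lit 11) (.e (nat_lit 24658) (nat_lit 13) (.e (nat_lit 393234) (nat_lit 17) (.e (nat_lit 7591) (nat_lit 407) (.e (nat_lit 73776) (nat_lit 26) .nil))))) (.g (nat_lit 1) (.e (nat_lit 432151) (nat_lit 0) .nil) .nil))) 
(.lf (nat_lit 605869) (.g (nat_lit 2252) (.e (nat_lit 778465) (nat_lit 11) (.e (nat_lit 24608) (nat_lit 3) (.e (nat_lit 98370) (nat_lit 28) (.e (nat_lit 442411) (nat_lit 20) .nil)))) (.g (nat_lit 0) (.e (nat_lit 432806) (nat_lit 0) .nil) .nil)))) (.nd (nat_lit 9) 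
(.lf (nat_lit 605613) (.g (nat_lit 2875) (.e (nat_lit 778462) (nat_lit 11) (.e (nat_lit 24630) (nat_lit 9) (.e (nat_lit 336369) (nat_lit 27) (.e (nat_lit 426173) (nat_lit 7) (.e (nat_lit 409618) (nat_lit 10) (.e (nat_lit 5024) (nat_lit 290) (.e (nat_lit 164103) (nat_lit 116) .nil))))))) (.g (nat_lit 1) (.e (nat_lit 432463) (nat_lit 0) .nil) .nil))) 
(.lf (nat_lit 606125) (.g (nat_lit 2879) (.e (nat_lit 778466) (nat_lit 11) (.e (nat_lit 24617) (nat_lit 7) (.e (nat_lit 319534) (nat_lit 16) (.e (nat_lit 286756) (nat_lit 10) (.e (nat_lit 344160) (nat_lit 37) (.e (nat_lit 647190) (nat_lit 9) (.e (nat_lit 987) (nat_lit 81) (.e (nat_lit 2342) (nat_lit 151) .nil)))))))) (.g (nat_lit 1) (.e (nat_lit 433155) (nat_lit 0) .nil) .nil)))))) 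
(.nd (nat_lit 7) (.nd (nat_lit 8) (.nd (nat_lit 9) 
(.lf (nat_lit 605293) (.g (nat_lit 2381) (.e (nat_lit 778459) (nat_lit 11) (.e (nat_lit 24658) (nat_lit 13) (.e (nat_lit 393234) (nat_lit 17) (.e (nat_lit 7591) (nat_lit 407) .nil)))) (.g (nat_lit 0) (.e (nat_lit 432078) (nat_lit 0) .nil) .nil))) 
(.lf (nat_lit 605805) (.g (nat_lit 2012) (.e (nat_lit 778464) (nat_lit 11) (.e (nat_lit 24617) (nat_lit 7) (.e (nat_lit 319534) (nat_lit 16) (.e (nat_lit 286756) (nat_lit 10) (.e (nat_lit 344160) (nat_lit 37) .nil))))) (.g (nat_lit 0) (.e (nat_lit 432714) (nat_lit 0) .nil) .nil)))) (.nd (nat_lit 9) 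
(.lf (nat_lit 605549) (.g (nat_lit 1942) (.e (nat_lit 778462) (nat_lit 11) (.e (nat_lit 24628) (nat_lit 9) (.e (nat_lit 336443) (nat_lit 32) (.e (nat_lit 466969) (nat_lit 21) (.e (nat_lit 164332) (nat_lit 230) (.e (nat_lit 163843) (nat_lit 0) (.e (nat_lit 3649) (nat_lit 227) .nil))))))) (.g (nat_lit 1) (.e (nat_lit 432395) (nat_lit 0) .nil) .nil))) 
(.lf (nat_lit 606061) (.g (nat_lit 3379) (.e (nat_lit 778466) (nat_lit 11) (.e (nat_lit 24617) (nat_lit 7) (.e (nat_lit 319533) (nat_lit 16) (.e (nat_lit 286753) (nat_lit 10) (.e (nat_lit 344160) (nat_lit 37) (.e (nat_lit 647190) (nat_lit 9) (.e (nat_lit 1030) (nat_lit 81) (.e (nat_lit 2342) (nat_lit 151) .nil)))))))) (.g (nat_lit 1) (.e (nat_lit 433062) (nat_lit 0) .nil) .nil))))) 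
(.nd (nat_lit 8) (.nd (nat_lit 9) 
(.lf (nat_lit 605421) (.g (nat_lit 1712) (.e (nat_lit 778462) (nat_lit 11) (.e (nat_lit 24604) (nat_lit 2) (.e (nat_lit 90185) (nat_lit 17) (.e (nat_lit 237605) (nat_lit 9) (.e (nat_lit 426436) (nat_lit 18) (.e (nat_lit 98321) (nat_lit 17) (.e (nat_lit 3647) (nat_lit 227) .nil))))))) (.g (nat_lit 1) (.e (nat_lit 432223) (nat_lit 0) .nil) .nil))) 
(.lf (nat_lit 605933) (.g (nat_lit 1321) (.e (nat_lit 778465) (nat_lit 11) (.e (nat_lit 24628) (nat_lit 9) (.e (nat_lit 336438) (nat_lit 31) (.e (nat_lit 458769) (nat_lit 16) .nil)))) (.g (nat_lit 0) (.e (nat_lit 432871) (nat_lit 0) .nil) .nil)))) (.nd (nat_lit 9) 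
(.lf (nat_lit 605677) (.g (nat_lit 3987) (.e (nat_lit 778463) (nat_lit 11) (.e (nat_lit 24604) (nat_lit 2) (.e (nat_lit 90170) (nat_lit 13) (.e (nat_lit 172113) (nat_lit 10) (.e (nat_lit 434247) (nat_lit 28) .nil))))) (.g (nat_lit 0) (.e (nat_lit 432558) (nat_lit 0) .nil) .nil))) 
(.lf (nat_lit 606189) (.g (nat_lit 2932) (.e (nat_lit 778466) (nat_lit 11) (.e (nat_lit 24632) (nat_lit 9) (.e (nat_lit 336386) (nat_lit 27) (.e (nat_lit 426011) (nat_lit 0) (.e (nat_lit 7591) (nat_lit 407) (.e (nat_lit 73776) (nat_lit 26) .nil)))))) (.g (nat_lit 1) (.e (nat_lit 433225) (nat_lit 0) .nil) .nil)))))))) 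
(.nd (nat_lit 5) (.nd (nat_lit 6) (.nd (nat_lit 7) (.nd (nat_lit 8) (.nd (nat_lit 9) 
(.lf (nat_lit 605213) (.g (nat_lit 3191) (.e (nat_lit 778326) (nat_lit 6) (.e (nat_lit 81956) (nat_lit 23) (.e (nat_lit 98333) (nat_lit 18) (.e (nat_lit 164182) (nat_lit 154) (.e (nat_lit 57419) (nat_lit 12) .nil))))) (.g (nat_lit 0) (.e (nat_lit 431861) (nat_lit 0) .nil) .nil))) 
(.lf (nat_lit 605725) (.g (nat_lit 3014) (.e (nat_lit 778464) (nat_lit 11) (.e (nat_lit 24608) (nat_lit 3) (.e (nat_lit 98373) (nat_lit 29) (.e (nat_lit 450586) (nat_lit 10) (.e (nat_lit 573475) (nat_lit 12) .nil))))) (.g (nat_lit 0) (.e (nat_lit 432623) (nat_lit 0) .nil) .nil)))) (.nd (nat_lit 9) 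
(.lf (nat_lit 605469) (.g (nat_lit 3136) (.e (nat_lit 778462) (nat_lit 11) (.e (nat_lit 24608) (nat_lit 3) (.e (nat_lit 98365) (nat_lit 26) (.e (nat_lit 426188) (nat_lit 9) (.e (nat_lit 426436) (nat_lit 18) (.e (nat_lit 98320) (nat_lit 17) (.e (nat_lit 3699) (nat_lit 227) .nil))))))) (.g (nat_lit 1) (.e (nat_lit 432280) (nat_lit 0) .nil) .nil))) 
(.lf (nat_lit 605981) (.g (nat_lit 2174) (.e (nat_lit 778466) (nat_lit 11) (.e (nat_lit 24608) (nat_lit 3) (.e (nat_lit 98365) (nat_lit 26) (.e (nat_lit 426187) (nat_lit 9) (.e (nat_lit 426436) (nat_lit 18) (.e (nat_lit 98325) (nat_lit 17) (.e (nat_lit 3719) (nat_lit 227) .nil))))))) (.g (nat_lit 1) (.e (nat_lit 432960) (nat_lit 0) .nil) .nil))))) (.nd (nat_lit 8) (.nd (nat_lit 9) 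
(.lf (nat_lit 605341) (.g (nat_lit 2477) (.e (nat_lit 778460) (nat_lit 11) (.e (nat_lit 24628) (nat_lit 9) (.e (nat_lit 336443) (nat_lit 32) (.e (nat_lit 466969) (nat_lit 21) (.e (nat_lit 164305) (nat_lit 226) .nil))))) (.g (nat_lit 0) (.e (nat_lit 432128) (nat_lit 0) .nil) .nil))) 
(.lf (nat_lit 605853) (.g (nat_lit 3531) (.e (nat_lit 778465) (nat_lit 11) (.e (nat_lit 24604) (nat_lit 2) (.e (nat_lit 90170) (nat_lit 13) (.e (nat_lit 172106) (nat_lit 10) (.e (nat_lit 434243) (nat_lit 28) (.e (nat_lit 573475) (nat_lit 12) (.e (nat_lit 57574) (nat_lit 55) .nil))))))) (.g (nat_lit 1) (.e (nat_lit 432790) (nat_lit 0) .nil) .nil)))) (.nd (nat_lit 9) 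
(.lf (nat_lit 605597) (.g (nat_lit 2109) (.e (nat_lit 778462) (nat_lit 11) (.e (nat_lit 24628) (nat_lit 9) (.e (nat_lit 336443) (nat_lit 32) (.e (nat_lit 466972) (nat_lit 21) (.e (nat_lit 164332) (nat_lit 230) (.e (nat_lit 163847) (nat_lit 0) (.e (nat_lit 3654) (nat_lit 227) .nil))))))) (.g (nat_lit 1) (.e (nat_lit 432447) (nat_lit 0) .nil) .nil))) 
(.lf (nat_lit 606109) (.g (nat_lit 3237) (.e (nat_lit 778466) (nat_lit 11) (.e (nat_lit 24617) (nat_lit 7) (.e (nat_lit 319534) (nat_lit 16) (.e (nat_lit 286756) (nat_lit 10) (.e (nat_lit 344169) (nat_lit 40) (.e (nat_lit 671780) (nat_lit 12) (.e (nat_lit 164049) (nat_lit 55) .nil))))))) (.g (nat_lit 1) (.e (nat_lit 433139) (nat_lit 0) .nil) .nil)))))) 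
(.nd (nat_lit 7) (.nd (nat_lit 8) (.nd (nat_lit 9) 
(.lf (nat_lit 605277) (.g (nat_lit 2431) (.e (nat_lit 778400) (nat_lit 9) (.e (nat_lit 2663) (nat_lit 167) (.e (nat_lit 196656) (nat_lit 11) (.e (nat_lit 16436) (nat_lit 9) (.e (nat_lit 426131) (nat_lit 3) .nil))))) (.g (nat_lit 0) (.e (nat_lit 432040) (nat_lit 0) .nil) .nil))) 
(.lf (nat_lit 605789) (.g (nat_lit 1542) (.e (nat_lit 778464) (nat_lit 11) (.e (nat_lit 24617) (nat_lit 7) (.e (nat_lit 319533) (nat_lit 16) (.e (nat_lit 286758) (nat_lit 12) .nil)))) (.g (nat_lit 0) (.e (nat_lit 432694) (nat_lit 0) .nil) .nil)))) (.nd (nat_lit 9) 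
(.lf (nat_lit 605533) (.g (nat_lit 1914) (.e (nat_lit 778462) (nat_lit 11) (.e (nat_lit 24628) (nat_lit 9) (.e (nat_lit 336438) (nat_lit 31) (.e (nat_lit 458769) (nat_lit 16) (.e (nat_lit 164288) (nat_lit 224) (.e (nat_lit 164103) (nat_lit 116) .nil)))))) (.g (nat_lit 1) (.e (nat_lit 432375) (nat_lit 0) .nil) .nil))) 
(.lf (nat_lit 606045) (.g (nat_lit 1264) (.e (nat_lit 778466) (nat_lit 11) (.e (nat_lit 24617) (nat_lit 7) (.e (nat_lit 319533) (nat_lit 16) (.e (nat_lit 286752) (nat_lit 10) .nil)))) (.g (nat_lit 0) (.e (nat_lit 433045) (nat_lit 0) .nil) .nil))))) (.nd (nat_lit 8) (.nd (nat_lit 9) 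
(.lf (nat_lit 605405) (.g (nat_lit 2790) (.e (nat_lit 778462) (nat_lit 11) (.e (nat_lit 24604) (nat_lit 2) (.e (nat_lit 90185) (nat_lit 17) (.e (nat_lit 237601) (nat_lit 9) (.e (nat_lit 426428) (nat_lit 17) (.e (nat_lit 90181) (nat_lit 16) (.e (nat_lit 229462) (nat_lit 55) .nil))))))) (.g (nat_lit 1) (.e (nat_lit 432207) (nat_lit 0) .nil) .nil))) 
(.lf (nat_lit 605917) (.g (nat_lit 2129) (.e (nat_lit 778465) (nat_lit 11) (.e (nat_lit 24617) (nat_lit 7) (.e (nat_lit 319534) (nat_lit 16) (.e (nat_lit 286756) (nat_lit 10) (.e (nat_lit 344160) (nat_lit 37) (.e (nat_lit 647195) (nat_lit 9) (.e (nat_lit 7936) (nat_lit 81) (.e (nat_lit 2305) (nat_lit 151) .nil)))))))) (.g (nat_lit 1) (.e (nat_lit 432855) (nat_lit 0) .nil) .nil)))) 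
(.nd (nat_lit 9) 
(.lf (nat_lit 605661) (.g (nat_lit 2653) (.e (nat_lit 778462) (nat_lit 11) (.e (nat_lit 24658) (nat_lit 13) (.e (nat_lit 393301) (nat_lit 27) (.e (nat_lit 491559) (nat_lit 10) (.e (nat_lit 352000) (nat_lit 44) .nil))))) (.g (nat_lit 1) (.e (nat_lit 432542) (nat_lit 0) .nil) .nil))) 
(.lf (nat_lit 606173) (.g (nat_lit 1001) (.e (nat_lit 778466) (nat_lit 11) (.e (nat_lit 24625) (nat_lit 9) (.e (nat_lit 336370) (nat_lit 27) (.e (nat_lit 426022) (nat_lit 0) .nil)))) (.g (nat_lit 0) (.e (nat_lit 433208) (nat_lit 0) .nil) .nil))))))) (.nd (nat_lit 6) (.nd (nat_lit 7) (.nd (nat_lit 8) (.nd (nat_lit 9) 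
(.lf (nat_lit 605245) (.g (nat_lit 1855) (.e (nat_lit 778327) (nat_lit 6) (.e (nat_lit 81959) (nat_lit 24) (.e (nat_lit 123198) (nat_lit 266) (.e (nat_lit 57435) (nat_lit 17) (.e (nat_lit 376835) (nat_lit 0) (.e (nat_lit 3629) (nat_lit 227) .nil)))))) (.g (nat_lit 1) (.e (nat_lit 431911) (nat_lit 0) .nil) .nil))) 
(.lf (nat_lit 605757) (.g (nat_lit 2495) (.e (nat_lit 778464) (nat_lit 11) (.e (nat_lit 24617) (nat_lit 7) (.e (nat_lit 319531) (nat_lit 16) (.e (nat_lit 286759) (nat_lit 12) (.e (nat_lit 385115) (nat_lit 53) (.e (nat_lit 811034) (nat_lit 11) (.e (nat_lit 879) (nat_lit 75) .nil))))))) (.g (nat_lit 1) (.e (nat_lit 432659) (nat_lit 0) .nil) .nil)))) (.nd (nat_lit 9) 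
(.lf (nat_lit 605501) (.g (nat_lit 1084) (.e (nat_lit 778462) (nat_lit 11) (.e (nat_lit 24608) (nat_lit 3) (.e (nat_lit 98371) (nat_lit 28) .nil))) (.g (nat_lit 0) (.e (nat_lit 432314) (nat_lit 0) .nil) .nil))) 
(.lf (nat_lit 606013) (.g (nat_lit 2843) (.e (nat_lit 778466) (nat_lit 11) (.e (nat_lit 24617) (nat_lit 7) (.e (nat_lit 319505) (nat_lit 10) (.e (nat_lit 720) (nat_lit 64) (.e (nat_lit 688178) (nat_lit 16) (.e (nat_lit 65604) (nat_lit 9) (.e (nat_lit 335890) (nat_lit 0) (.e (nat_lit 2347) (nat_lit 151) .nil)))))))) (.g (nat_lit 1) (.e (nat_lit 432994) (nat_lit 0) .nil) .nil))))) 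
(.nd (nat_lit 8) (.nd (nat_lit 9) 
(.lf (nat_lit 605373) (.g (nat_lit 2210) (.e (nat_lit 778461) (nat_lit 11) (.e (nat_lit 24655) (nat_lit 13) (.e (nat_lit 393233) (nat_lit 17) (.e (nat_lit 7593) (nat_lit 407) (.e (nat_lit 81664) (nat_lit 26) .nil))))) (.g (nat_lit 1) (.e (nat_lit 432171) (nat_lit 0) .nil) .nil))) 
(.lf (nat_lit 605885) (.g (nat_lit 1644) (.e (nat_lit 778465) (nat_lit 11) (.e (nat_lit 24617) (nat_lit 7) (.e (nat_lit 319529) (nat_lit 16) (.e (nat_lit 286759) (nat_lit 12) (.e (nat_lit 385115) (nat_lit 53) .nil))))) (.g (nat_lit 0) (.e (nat_lit 432823) (nat_lit 0) .nil) .nil)))) (.nd (nat_lit 9) 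
(.lf (nat_lit 605629) (.g (nat_lit 2361) (.e (nat_lit 778462) (nat_lit 11) (.e (nat_lit 24658) (nat_lit 13) (.e (nat_lit 393234) (nat_lit 17) (.e (nat_lit 7593) (nat_lit 407) (.e (nat_lit 81664) (nat_lit 26) .nil))))) (.g (nat_lit 1) (.e (nat_lit 432494) (nat_lit 0) .nil) .nil))) 
(.lf (nat_lit 606141) (.g (nat_lit 2863) (.e (nat_lit 778466) (nat_lit 11) (.e (nat_lit 24617) (nat_lit 7) (.e (nat_lit 319534) (nat_lit 16) (.e (nat_lit 286756) (nat_lit 10) (.e (nat_lit 344160) (nat_lit 37) (.e (nat_lit 647196) (nat_lit 9) (.e (nat_lit 990) (nat_lit 81) (.e (nat_lit 2308) (nat_lit 151) .nil)))))))) (.g (nat_lit 1) (.e (nat_lit 433171) (nat_lit 0) .nil) .nil)))))) 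
(.nd (nat_lit 7) (.nd (nat_lit 8) (.nd (nat_lit 9) 
(.lf (nat_lit 605309) (.g (nat_lit 1942) (.e (nat_lit 778459) (nat_lit 11) (.e (nat_lit 24660) (nat_lit 13) (.e (nat_lit 393260) (nat_lit 21) (.e (nat_lit 409617) (nat_lit 10) (.e (nat_lit 4934) (nat_lit 287) (.e (nat_lit 2422) (nat_lit 157) (.e (nat_lit 868) (nat_lit 75) .nil))))))) (.g (nat_lit 1) (.e (nat_lit 432094) (nat_lit 0) .nil) .nil))) 
(.lf (nat_lit 605821) (.g (nat_lit 2538) (.e (nat_lit 778464) (nat_lit 11) (.e (nat_lit 24617) (nat_lit 7) (.e (nat_lit 319534) (nat_lit 16) (.e (nat_lit 286756) (nat_lit 10) (.e (nat_lit 344160) (nat_lit 37) (.e (nat_lit 647195) (nat_lit 9) (.e (nat_lit 7936) (nat_lit 81) (.e (nat_lit 2353) (nat_lit 151) .nil)))))))) (.g (nat_lit 1) (.e (nat_lit 432730) (nat_lit 0) .nil) .nil)))) 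
(.nd (nat_lit 9) 
(.lf (nat_lit 605565) (.g (nat_lit 2241) (.e (nat_lit 778462) (nat_lit 11) (.e (nat_lit 24628) (nat_lit 9) (.e (nat_lit 336443) (nat_lit 32) (.e (nat_lit 466969) (nat_lit 21) (.e (nat_lit 164332) (nat_lit 230) (.e (nat_lit 163847) (nat_lit 0) (.e (nat_lit 3657) (nat_lit 227) .nil))))))) (.g (nat_lit 1) (.e (nat_lit 432411) (nat_lit 0) .nil) .nil))) 
(.lf (nat_lit 606077) (.g (nat_lit 3977) (.e (nat_lit 778466) (nat_lit 11) (.e (nat_lit 24617) (nat_lit 7) (.e (nat_lit 319533) (nat_lit 16) (.e (nat_lit 286753) (nat_lit 10) (.e (nat_lit 344160) (nat_lit 37) (.e (nat_lit 647195) (nat_lit 9) (.e (nat_lit 1015) (nat_lit 81) (.e (nat_lit 2328) (nat_lit 151) .nil)))))))) (.g (nat_lit 1) (.e (nat_lit 433078) (nat_lit 0) .nil) .nil))))) 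
(.nd (nat_lit 8) (.nd (nat_lit 9) 
(.lf (nat_lit 605437) (.g (nat_lit 2227) (.e (nat_lit 778462) (nat_lit 11) (.e (nat_lit 24604) (nat_lit 2) (.e (nat_lit 90185) (nat_lit 17) (.e (nat_lit 237619) (nat_lit 12) (.e (nat_lit 475179) (nat_lit 24) (.e (nat_lit 516100) (nat_lit 0) (.e (nat_lit 3651) (nat_lit 227) .nil))))))) (.g (nat_lit 1) (.e (nat_lit 432239) (nat_lit 0) .nil) .nil))) 
(.lf (nat_lit 605949) (.g (nat_lit 846) (.e (nat_lit 778465) (nat_lit 11) (.e (nat_lit 24661) (nat_lit 14) (.e (nat_lit 409344) (nat_lit 25) .nil))) (.g (nat_lit 0) (.e (nat_lit 432889) (nat_lit 0) .nil) .nil)))) (.nd (nat_lit 9) 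
(.lf (nat_lit 605693) (.g (nat_lit 1303) (.e (nat_lit 778463) (nat_lit 11) (.e (nat_lit 24625) (nat_lit 9) (.e (nat_lit 336438) (nat_lit 31) (.e (nat_lit 466688) (nat_lit 5) .nil)))) (.g (nat_lit 0) (.e (nat_lit 432577) (nat_lit 0) .nil) .nil))) 
(.lf (nat_lit 606205) (.g (nat_lit 1547) (.e (nat_lit 778467) (nat_lit 11) (.e (nat_lit 24658) (nat_lit 13) (.e (nat_lit 393234) (nat_lit 17) .nil))) (.g (nat_lit 0) (.e (nat_lit 433249) (nat_lit 0) .nil) .nil))))))))))) (.nd (nat_lit 2) (.nd (nat_lit 3) (.nd (nat_lit 4) (.nd (nat_lit 5) (.nd (nat_lit 6) (.nd (nat_lit 7) (.nd (nat_lit 8) (.nd (nat_lit 9) 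
(.lf (nat_lit 605187) (.g (nat_lit 2092) (.e (nat_lit 778325) (nat_lit 6) (.e (nat_lit 81956) (nat_lit 23) (.e (nat_lit 98309) (nat_lit 0) (.e (nat_lit 6209) (nat_lit 333) (.e (nat_lit 57819) (nat_lit 248) .nil))))) (.g (nat_lit 0) (.e (nat_lit 431825) (nat_lit 0) .nil) .nil))) 
(.lf (nat_lit 605699) (.g (nat_lit 788) (.e (nat_lit 778463) (nat_lit 11) (.e (nat_lit 24657) (nat_lit 13) (.e (nat_lit 393244) (nat_lit 17) .nil))) (.g (nat_lit 0) (.e (nat_lit 432584) (nat_lit 0) .nil) .nil)))) (.nd (nat_lit 9) 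
(.lf (nat_lit 605443) (.g (nat_lit 1577) (.e (nat_lit 778462) (nat_lit 11) (.e (nat_lit 24608) (nat_lit 3) (.e (nat_lit 98359) (nat_lit 26) (.e (nat_lit 426286) (nat_lit 10) .nil)))) (.g (nat_lit 0) (.e (nat_lit 432254) (nat_lit 0) .nil) .nil))) 
(.lf (nat_lit 605955) (.g (nat_lit 1989) (.e (nat_lit 778466) (nat_lit 11) (.e (nat_lit 24604) (nat_lit 2) (.e (nat_lit 90170) (nat_lit 13) (.e (nat_lit 172105) (nat_lit 10) .nil)))) (.g (nat_lit 0) (.e (nat_lit 432924) (nat_lit 0) .nil) .nil))))) (.nd (nat_lit 8) (.nd (nat_lit 9) 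
(.lf (nat_lit 605315) (.g (nat_lit 1925) (.e (nat_lit 778459) (nat_lit 11) (.e (nat_lit 24660) (nat_lit 13) (.e (nat_lit 393299) (nat_lit 27) (.e (nat_lit 491558) (nat_lit 10) (.e (nat_lit 352000) (nat_lit 44) .nil))))) (.g (nat_lit 0) (.e (nat_lit 432100) (nat_lit 0) .nil) .nil))) 
(.lf (nat_lit 605827) (.g (nat_lit 1304) (.e (nat_lit 778464) (nat_lit 11) (.e (nat_lit 24617) (nat_lit 7) (.e (nat_lit 319534) (nat_lit 16) (.e (nat_lit 286759) (nat_lit 12) .nil)))) (.g (nat_lit 0) (.e (nat_lit 432736) (nat_lit 0) .nil) .nil)))) (.nd (nat_lit 9) 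
(.lf (nat_lit 605571) (.g (nat_lit 3153) (.e (nat_lit 778462) (nat_lit 11) (.e (nat_lit 24628) (nat_lit 9) (.e (nat_lit 336443) (nat_lit 32) (.e (nat_lit 466971) (nat_lit 21) (.e (nat_lit 164325) (nat_lit 230) (.e (nat_lit 163844) (nat_lit 0) (.e (nat_lit 3617) (nat_lit 227) .nil))))))) (.g (nat_lit 1) (.e (nat_lit 432417) (nat_lit 0) .nil) .nil))) 
(.lf (nat_lit 606083) (.g (nat_lit 1340) (.e (nat_lit 778466) (nat_lit 11) (.e (nat_lit 24617) (nat_lit 7) (.e (nat_lit 319533) (nat_lit 16) (.e (nat_lit 286758) (nat_lit 12) .nil)))) (.g (nat_lit 0) (.e (nat_lit 433084) (nat_lit 0) .nil) .nil)))))) (.nd (nat_lit 7) (.nd (nat_lit 8) (.nd (nat_lit 9) 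
(.lf (nat_lit 605251) (.g (nat_lit 847) (.e (nat_lit 778336) (nat_lit 9) (.e (nat_lit 2668) (nat_lit 167) (.e (nat_lit 196628) (nat_lit 9) .nil))) (.g (nat_lit 0) (.e (nat_lit 431929) (nat_lit 0) .nil) .nil))) 
(.lf (nat_lit 605763) (.g (nat_lit 2014) (.e (nat_lit 778464) (nat_lit 11) (.e (nat_lit 24617) (nat_lit 7) (.e (nat_lit 319533) (nat_lit 16) (.e (nat_lit 286751) (nat_lit 10) .nil)))) (.g (nat_lit 0) (.e (nat_lit 432668) (nat_lit 0) .nil) .nil)))) (.nd (nat_lit 9) 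
(.lf (nat_lit 605507) (.g (nat_lit 2118) (.e (nat_lit 778462) (nat_lit 11) (.e (nat_lit 24608) (nat_lit 3) (.e (nat_lit 98373) (nat_lit 29) (.e (nat_lit 450586) (nat_lit 10) .nil)))) (.g (nat_lit 0) (.e (nat_lit 432320) (nat_lit 0) .nil) .nil))) 
(.lf (nat_lit 606019) (.g (nat_lit 2947) (.e (nat_lit 778466) (nat_lit 11) (.e (nat_lit 24617) (nat_lit 7) (.e (nat_lit 319528) (nat_lit 16) (.e (nat_lit 286759) (nat_lit 12) (.e (nat_lit 385115) (nat_lit 53) (.e (nat_lit 811031) (nat_lit 11) (.e (nat_lit 883) (nat_lit 75) .nil))))))) (.g (nat_lit 1) (.e (nat_lit 433005) (nat_lit 0) .nil) .nil))))) (.nd (nat_lit 8) (.nd (nat_lit 9) 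
(.lf (nat_lit 605379) (.g (nat_lit 2099) (.e (nat_lit 778461) (nat_lit 11) (.e (nat_lit 24655) (nat_lit 13) (.e (nat_lit 393300) (nat_lit 27) (.e (nat_lit 491558) (nat_lit 10) (.e (nat_lit 352000) (nat_lit 44) .nil))))) (.g (nat_lit 0) (.e (nat_lit 432178) (nat_lit 0) .nil) .nil))) 
(.lf (nat_lit 605891) (.g (nat_lit 3454) (.e (nat_lit 778465) (nat_lit 11) (.e (nat_lit 24617) (nat_lit 7) (.e (nat_lit 319530) (nat_lit 16) (.e (nat_lit 286759) (nat_lit 12) (.e (nat_lit 385115) (nat_lit 53) (.e (nat_lit 811034) (nat_lit 11) (.e (nat_lit 883) (nat_lit 75) .nil))))))) (.g (nat_lit 1) (.e (nat_lit 432829) (nat_lit 0) .nil) .nil)))) (.nd (nat_lit 9) 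
(.lf (nat_lit 605635) (.g (nat_lit 1512) (.e (nat_lit 778462) (nat_lit 11) (.e (nat_lit 24658) (nat_lit 13) (.e (nat_lit 393281) (nat_lit 23) (.e (nat_lit 426099) (nat_lit 1) (.e (nat_lit 164332) (nat_lit 230) (.e (nat_lit 163847) (nat_lit 0) (.e (nat_lit 3648) (nat_lit 227) .nil))))))) (.g (nat_lit 1) (.e (nat_lit 432513) (nat_lit 0) .nil) .nil))) 
(.lf (nat_lit 606147) (.g (nat_lit 2610) (.e (nat_lit 778466) (nat_lit 11) (.e (nat_lit 24617) (nat_lit 7) (.e (nat_lit 319534) (nat_lit 16) (.e (nat_lit 286756) (nat_lit 10) (.e (nat_lit 344160) (nat_lit 37) (.e (nat_lit 647195) (nat_lit 9) (.e (nat_lit 982) (nat_lit 81) (.e (nat_lit 2310) (nat_lit 151) .nil)))))))) (.g (nat_lit 1) (.e (nat_lit 433177) (nat_lit 0) .nil) .nil))))))) 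
(.nd (nat_lit 6) (.nd (nat_lit 7) (.nd (nat_lit 8) (.nd (nat_lit 9) 
(.lf (nat_lit 605219) (.g (nat_lit 1303) (.e (nat_lit 778327) (nat_lit 6) (.e (nat_lit 81922) (nat_lit 0) (.e (nat_lit 3631) (nat_lit 227) (.e (nat_lit 778326) (nat_lit 6) (.e (nat_lit 81924) (nat_lit 0) (.e (nat_lit 3629) (nat_lit 227) .nil)))))) (.g (nat_lit 1) (.e (nat_lit 431869) (nat_lit 0) .nil) .nil))) 
(.lf (nat_lit 605731) (.g (nat_lit 2270) (.e (nat_lit 778464) (nat_lit 11) (.e (nat_lit 24616) (nat_lit 7) (.e (nat_lit 319530) (nat_lit 16) (.e (nat_lit 286759) (nat_lit 12) (.e (nat_lit 385115) (nat_lit 53) (.e (nat_lit 811033) (nat_lit 11) (.e (nat_lit 879) (nat_lit 75) .nil))))))) (.g (nat_lit 1) (.e (nat_lit 432629) (nat_lit 0) .nil) .nil)))) (.nd (nat_lit 9) 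
(.lf (nat_lit 605475) (.g (nat_lit 1205) (.e (nat_lit 778462) (nat_lit 11) (.e (nat_lit 24608) (nat_lit 3) (.e (nat_lit 98365) (nat_lit 26) (.e (nat_lit 426306) (nat_lit 12) .nil)))) (.g (nat_lit 0) (.e (nat_lit 432286) (nat_lit 0) .nil) .nil))) 
(.lf (nat_lit 605987) (.g (nat_lit 3410) (.e (nat_lit 778466) (nat_lit 11) (.e (nat_lit 24608) (nat_lit 3) (.e (nat_lit 98365) (nat_lit 26) (.e (nat_lit 426306) (nat_lit 12) (.e (nat_lit 475177) (nat_lit 24) (.e (nat_lit 516097) (nat_lit 0) (.e (nat_lit 3689) (nat_lit 227) .nil))))))) (.g (nat_lit 1) (.e (nat_lit 432966) (nat_lit 0) .nil) .nil))))) (.nd (nat_lit 8) (.nd (nat_lit 9) 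
(.lf (nat_lit 605347) (.g (nat_lit 872) (.e (nat_lit 778460) (nat_lit 11) (.e (nat_lit 24655) (nat_lit 13) (.e (nat_lit 393233) (nat_lit 17) .nil))) (.g (nat_lit 0) (.e (nat_lit 432136) (nat_lit 0) .nil) .nil))) 
(.lf (nat_lit 605859) (.g (nat_lit 3577) (.e (nat_lit 778465) (nat_lit 11) (.e (nat_lit 24604) (nat_lit 2) (.e (nat_lit 90170) (nat_lit 13) (.e (nat_lit 172107) (nat_lit 10) (.e (nat_lit 434245) (nat_lit 28) .nil))))) (.g (nat_lit 0) (.e (nat_lit 432796) (nat_lit 0) .nil) .nil)))) (.nd (nat_lit 9) 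
(.lf (nat_lit 605603) (.g (nat_lit 2260) (.e (nat_lit 778462) (nat_lit 11) (.e (nat_lit 24628) (nat_lit 9) (.e (nat_lit 336443) (nat_lit 32) (.e (nat_lit 466972) (nat_lit 21) (.e (nat_lit 164332) (nat_lit 230) (.e (nat_lit 163847) (nat_lit 0) (.e (nat_lit 3660) (nat_lit 227) .nil))))))) (.g (nat_lit 1) (.e (nat_lit 432453) (nat_lit 0) .nil) .nil))) 
(.lf (nat_lit 606115) (.g (nat_lit 2947) (.e (nat_lit 778466) (nat_lit 11) (.e (nat_lit 24617) (nat_lit 7) (.e (nat_lit 319534) (nat_lit 16) (.e (nat_lit 286756) (nat_lit 10) (.e (nat_lit 344169) (nat_lit 40) (.e (nat_lit 679680) (nat_lit 15) (.e (nat_lit 57616) (nat_lit 116) .nil))))))) (.g (nat_lit 1) (.e (nat_lit 433145) (nat_lit 0) .nil) .nil)))))) 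
(.nd (nat_lit 7) (.nd (nat_lit 8) (.nd (nat_lit 9) 
(.lf (nat_lit 605283) (.g (nat_lit 812) (.e (nat_lit 778459) (nat_lit 11) (.e (nat_lit 24625) (nat_lit 9) (.e (nat_lit 336443) (nat_lit 32) .nil))) (.g (nat_lit 0) (.e (nat_lit 432058) (nat_lit 0) .nil) .nil))) 
(.lf (nat_lit 605795) (.g (nat_lit 2148) (.e (nat_lit 778464) (nat_lit 11) (.e (nat_lit 24617) (nat_lit 7) (.e (nat_lit 319534) (nat_lit 16) (.e (nat_lit 286756) (nat_lit 10) (.e (nat_lit 344088) (nat_lit 18) .nil))))) (.g (nat_lit 0) (.e (nat_lit 432702) (nat_lit 0) .nil) .nil)))) (.nd (nat_lit 9) 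
(.lf (nat_lit 605539) (.g (nat_lit 1852) (.e (nat_lit 778462) (nat_lit 11) (.e (nat_lit 24628) (nat_lit 9) (.e (nat_lit 336443) (nat_lit 32) (.e (nat_lit 466969) (nat_lit 21) (.e (nat_lit 164325) (nat_lit 230) (.e (nat_lit 163844) (nat_lit 0) (.e (nat_lit 3648) (nat_lit 227) .nil))))))) (.g (nat_lit 1) (.e (nat_lit 432385) (nat_lit 0) .nil) .nil))) 
(.lf (nat_lit 606051) (.g (nat_lit 3723) (.e (nat_lit 778466) (nat_lit 11) (.e (nat_lit 24617) (nat_lit 7) (.e (nat_lit 319533) (nat_lit 16) (.e (nat_lit 286753) (nat_lit 10) (.e (nat_lit 344169) (nat_lit 40) (.e (nat_lit 679680) (nat_lit 15) (.e (nat_lit 57615) (nat_lit 116) .nil))))))) (.g (nat_lit 1) (.e (nat_lit 433052) (nat_lit 0) .nil) .nil))))) (.nd (nat_lit 8) (.nd (nat_lit 9) 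
(.lf (nat_lit 605411) (.g (nat_lit 1975) (.e (nat_lit 778462) (nat_lit 11) (.e (nat_lit 24604) (nat_lit 2) (.e (nat_lit 90185) (nat_lit 17) (.e (nat_lit 237601) (nat_lit 9) (.e (nat_lit 426436) (nat_lit 18) (.e (nat_lit 98322) (nat_lit 17) (.e (nat_lit 3617) (nat_lit 227) .nil))))))) (.g (nat_lit 1) (.e (nat_lit 432213) (nat_lit 0) .nil) .nil))) 
(.lf (nat_lit 605923) (.g (nat_lit 3310) (.e (nat_lit 778465) (nat_lit 11) (.e (nat_lit 24617) (nat_lit 7) (.e (nat_lit 319534) (nat_lit 16) (.e (nat_lit 286759) (nat_lit 12) (.e (nat_lit 385115) (nat_lit 53) (.e (nat_lit 811032) (nat_lit 11) (.e (nat_lit 883) (nat_lit 75) .nil))))))) (.g (nat_lit 1) (.e (nat_lit 432861) (nat_lit 0) .nil) .nil)))) (.nd (nat_lit 9) 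
(.lf (nat_lit 605667) (.g (nat_lit 1917) (.e (nat_lit 778462) (nat_lit 11) (.e (nat_lit 24660) (nat_lit 13) (.e (nat_lit 393259) (nat_lit 21) (.e (nat_lit 409618) (nat_lit 10) (.e (nat_lit 5024) (nat_lit 290) (.e (nat_lit 164103) (nat_lit 116) .nil)))))) (.g (nat_lit 1) (.e (nat_lit 432548) (nat_lit 0) .nil) .nil))) 
(.lf (nat_lit 606179) (.g (nat_lit 770) (.e (nat_lit 778466) (nat_lit 11) (.e (nat_lit 24628) (nat_lit 9) (.e (nat_lit 336383) (nat_lit 27) .nil))) (.g (nat_lit 0) (.e (nat_lit 433215) (nat_lit 0) .nil) .nil)))))))) (.nd (nat_lit 5) (.nd (nat_lit 6) (.nd (nat_lit 7) (.nd (nat_lit 8) (.nd (nat_lit 9) 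
(.lf (nat_lit 605203) (.g (nat_lit 1271) (.e (nat_lit 778326) (nat_lit 6) (.e (nat_lit 81938) (nat_lit 20) (.e (nat_lit 2006) (nat_lit 138) (.e (nat_lit 671747) (nat_lit 0) (.e (nat_lit 1559) (nat_lit 110) .nil))))) (.g (nat_lit 0) (.e (nat_lit 431844) (nat_lit 0) .nil) .nil))) 
(.lf (nat_lit 605715) (.g (nat_lit 1710) (.e (nat_lit 778464) (nat_lit 11) (.e (nat_lit 24604) (nat_lit 2) (.e (nat_lit 90178) (nat_lit 15) (.e (nat_lit 188440) (nat_lit 20) .nil)))) (.g (nat_lit 0) (.e (nat_lit 432612) (nat_lit 0) .nil) .nil)))) (.nd (nat_lit 9) 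
(.lf (nat_lit 605459) (.g (nat_lit 2274) (.e (nat_lit 778462) (nat_lit 11) (.e (nat_lit 24608) (nat_lit 3) (.e (nat_lit 98365) (nat_lit 26) (.e (nat_lit 426187) (nat_lit 9) (.e (nat_lit 426436) (nat_lit 18) (.e (nat_lit 98321) (nat_lit 17) (.e (nat_lit 3653) (nat_lit 227) .nil))))))) (.g (nat_lit 1) (.e (nat_lit 432270) (nat_lit 0) .nil) .nil))) 
(.lf (nat_lit 605971) (.g (nat_lit 2186) (.e (nat_lit 778466) (nat_lit 11) (.e (nat_lit 24604) (nat_lit 2) (.e (nat_lit 90185) (nat_lit 17) (.e (nat_lit 237605) (nat_lit 9) (.e (nat_lit 426438) (nat_lit 18) (.e (nat_lit 98323) (nat_lit 17) (.e (nat_lit 3719) (nat_lit 227) .nil))))))) (.g (nat_lit 1) (.e (nat_lit 432940) (nat_lit 0) .nil) .nil))))) (.nd (nat_lit 8) (.nd (nat_lit 9) 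
(.lf (nat_lit 605331) (.g (nat_lit 2320) (.e (nat_lit 778460) (nat_lit 11) (.e (nat_lit 24617) (nat_lit 7) (.e (nat_lit 319534) (nat_lit 16) (.e (nat_lit 286759) (nat_lit 12) (.e (nat_lit 385092) (nat_lit 49) .nil))))) (.g (nat_lit 0) (.e (nat_lit 432116) (nat_lit 0) .nil) .nil))) 
(.lf (nat_lit 605843) (.g (nat_lit 2531) (.e (nat_lit 778464) (nat_lit 11) (.e (nat_lit 24628) (nat_lit 9) (.e (nat_lit 336443) (nat_lit 32) (.e (nat_lit 466969) (nat_lit 21) (.e (nat_lit 164332) (nat_lit 230) (.e (nat_lit 163852) (nat_lit 0) (.e (nat_lit 3721) (nat_lit 227) .nil))))))) (.g (nat_lit 1) (.e (nat_lit 432755) (nat_lit 0) .nil) .nil)))) (.nd (nat_lit 9) 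
(.lf (nat_lit 605587) (.g (nat_lit 2202) (.e (nat_lit 778462) (nat_lit 11) (.e (nat_lit 24628) (nat_lit 9) (.e (nat_lit 336443) (nat_lit 32) (.e (nat_lit 466972) (nat_lit 21) (.e (nat_lit 164332) (nat_lit 230) (.e (nat_lit 163843) (nat_lit 0) (.e (nat_lit 3656) (nat_lit 227) .nil))))))) (.g (nat_lit 1) (.e (nat_lit 432437) (nat_lit 0) .nil) .nil))) 
(.lf (nat_lit 606099) (.g (nat_lit 3545) (.e (nat_lit 778466) (nat_lit 11) (.e (nat_lit 24617) (nat_lit 7) (.e (nat_lit 319534) (nat_lit 16) (.e (nat_lit 286756) (nat_lit 10) (.e (nat_lit 344168) (nat_lit 40) (.e (nat_lit 671782) (nat_lit 12) (.e (nat_lit 164050) (nat_lit 55) .nil))))))) (.g (nat_lit 1) (.e (nat_lit 433129) (nat_lit 0) .nil) .nil)))))) 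
(.nd (nat_lit 7) (.nd (nat_lit 8) (.nd (nat_lit 9) 
(.lf (nat_lit 605267) (.g (nat_lit 2613) (.e (nat_lit 778362) (nat_lit 9) (.e (nat_lit 232) (nat_lit 21) (.e (nat_lit 336013) (nat_lit 2) (.e (nat_lit 90134) (nat_lit 9) (.e (nat_lit 3009) (nat_lit 187) .nil))))) (.g (nat_lit 0) (.e (nat_lit 431980) (nat_lit 0) .nil) .nil))) 
(.lf (nat_lit 605779) (.g (nat_lit 2469) (.e (nat_lit 778464) (nat_lit 11) (.e (nat_lit 24617) (nat_lit 7) (.e (nat_lit 319533) (nat_lit 16) (.e (nat_lit 286753) (nat_lit 10) (.e (nat_lit 344160) (nat_lit 37) (.e (nat_lit 647196) (nat_lit 9) (.e (nat_lit 1003) (nat_lit 81) (.e (nat_lit 2343) (nat_lit 151) .nil)))))))) (.g (nat_lit 1) (.e (nat_lit 432684) (nat_lit 0) .nil) .nil)))) 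
(.nd (nat_lit 9) 
(.lf (nat_lit 605523) (.g (nat_lit 1472) (.e (nat_lit 778462) (nat_lit 11) (.e (nat_lit 24609) (nat_lit 3) (.e (nat_lit 98372) (nat_lit 29) (.e (nat_lit 450586) (nat_lit 10) (.e (nat_lit 573477) (nat_lit 12) .nil))))) (.g (nat_lit 0) (.e (nat_lit 432351) (nat_lit 0) .nil) .nil))) 
(.lf (nat_lit 606035) (.g (nat_lit 811) (.e (nat_lit 778466) (nat_lit 11) (.e (nat_lit 24617) (nat_lit 7) (.e (nat_lit 319531) (nat_lit 16) (.e (nat_lit 286759) (nat_lit 12) .nil)))) (.g (nat_lit 0) (.e (nat_lit 433033) (nat_lit 0) .nil) .nil))))) (.nd (nat_lit 8) (.nd (nat_lit 9) 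
(.lf (nat_lit 605395) (.g (nat_lit 1148) (.e (nat_lit 778462) (nat_lit 11) (.e (nat_lit 24604) (nat_lit 2) (.e (nat_lit 90178) (nat_lit 15) (.e (nat_lit 188440) (nat_lit 20) .nil)))) (.g (nat_lit 0) (.e (nat_lit 432197) (nat_lit 0) .nil) .nil))) 
(.lf (nat_lit 605907) (.g (nat_lit 3262) (.e (nat_lit 778465) (nat_lit 11) (.e (nat_lit 24617) (nat_lit 7) (.e (nat_lit 319533) (nat_lit 16) (.e (nat_lit 286758) (nat_lit 12) (.e (nat_lit 385115) (nat_lit 53) (.e (nat_lit 811034) (nat_lit 11) (.e (nat_lit 883) (nat_lit 75) .nil))))))) (.g (nat_lit 1) (.e (nat_lit 432845) (nat_lit 0) .nil) .nil)))) (.nd (nat_lit 9) 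
(.lf (nat_lit 605651) (.g (nat_lit 1756) (.e (nat_lit 778462) (nat_lit 11) (.e (nat_lit 24658) (nat_lit 13) (.e (nat_lit 393281) (nat_lit 23) (.e (nat_lit 426100) (nat_lit 1) (.e (nat_lit 164332) (nat_lit 230) (.e (nat_lit 163847) (nat_lit 0) (.e (nat_lit 3654) (nat_lit 227) .nil))))))) (.g (nat_lit 1) (.e (nat_lit 432531) (nat_lit 0) .nil) .nil))) 
(.lf (nat_lit 606163) (.g (nat_lit 1479) (.e (nat_lit 778466) (nat_lit 11) (.e (nat_lit 24617) (nat_lit 7) (.e (nat_lit 319534) (nat_lit 16) (.e (nat_lit 286759) (nat_lit 12) (.e (nat_lit 385115) (nat_lit 53) .nil))))) (.g (nat_lit 0) (.e (nat_lit 433198) (nat_lit 0) .nil) .nil))))))) (.nd (nat_lit 6) (.nd (nat_lit 7) (.nd (nat_lit 8) (.nd (nat_lit 9) 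
(.lf (nat_lit 605235) (.g (nat_lit 3182) (.e (nat_lit 778327) (nat_lit 6) (.e (nat_lit 81956) (nat_lit 23) (.e (nat_lit 98333) (nat_lit 18) (.e (nat_lit 164182) (nat_lit 154) (.e (nat_lit 57411) (nat_lit 12) .nil))))) (.g (nat_lit 0) (.e (nat_lit 431899) (nat_lit 0) .nil) .nil))) 
(.lf (nat_lit 605747) (.g (nat_lit 1898) (.e (nat_lit 778464) (nat_lit 11) (.e (nat_lit 24617) (nat_lit 7) (.e (nat_lit 319529) (nat_lit 16) (.e (nat_lit 286759) (nat_lit 12) (.e (nat_lit 385115) (nat_lit 53) (.e (nat_lit 811039) (nat_lit 11) (.e (nat_lit 913) (nat_lit 75) .nil))))))) (.g (nat_lit 1) (.e (nat_lit 432647) (nat_lit 0) .nil) .nil)))) (.nd (nat_lit 9) 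
(.lf (nat_lit 605491) (.g (nat_lit 3147) (.e (nat_lit 778462) (nat_lit 11) (.e (nat_lit 24608) (nat_lit 3) (.e (nat_lit 98365) (nat_lit 26) (.e (nat_lit 426306) (nat_lit 12) (.e (nat_lit 475177) (nat_lit 24) (.e (nat_lit 516100) (nat_lit 0) (.e (nat_lit 3617) (nat_lit 227) .nil))))))) (.g (nat_lit 1) (.e (nat_lit 432302) (nat_lit 0) .nil) .nil))) 
(.lf (nat_lit 606003) (.g (nat_lit 2341) (.e (nat_lit 778466) (nat_lit 11) (.e (nat_lit 24616) (nat_lit 7) (.e (nat_lit 319530) (nat_lit 16) (.e (nat_lit 286759) (nat_lit 12) (.e (nat_lit 385113) (nat_lit 53) (.e (nat_lit 811031) (nat_lit 11) (.e (nat_lit 883) (nat_lit 75) .nil))))))) (.g (nat_lit 1) (.e (nat_lit 432984) (nat_lit 0) .nil) .nil))))) (.nd (nat_lit 8) (.nd (nat_lit 9) 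
(.lf (nat_lit 605363) (.g (nat_lit 2469) (.e (nat_lit 778460) (nat_lit 11) (.e (nat_lit 24658) (nat_lit 13) (.e (nat_lit 393301) (nat_lit 27) (.e (nat_lit 491560) (nat_lit 10) (.e (nat_lit 352000) (nat_lit 44) .nil))))) (.g (nat_lit 1) (.e (nat_lit 432157) (nat_lit 0) .nil) .nil))) 
(.lf (nat_lit 605875) (.g (nat_lit 5288) (.e (nat_lit 778465) (nat_lit 11) (.e (nat_lit 24608) (nat_lit 3) (.e (nat_lit 98373) (nat_lit 29) (.e (nat_lit 450588) (nat_lit 10) (.e (nat_lit 573477) (nat_lit 12) .nil))))) (.g (nat_lit 0) (.e (nat_lit 432812) (nat_lit 0) .nil) .nil)))) (.nd (nat_lit 9) 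
(.lf (nat_lit 605619) (.g (nat_lit 2173) (.e (nat_lit 778462) (nat_lit 11) (.e (nat_lit 24655) (nat_lit 13) (.e (nat_lit 393299) (nat_lit 27) (.e (nat_lit 491558) (nat_lit 10) (.e (nat_lit 352000) (nat_lit 44) .nil))))) (.g (nat_lit 1) (.e (nat_lit 432481) (nat_lit 0) .nil) .nil))) 
(.lf (nat_lit 606131) (.g (nat_lit 4144) (.e (nat_lit 778466) (nat_lit 11) (.e (nat_lit 24617) (nat_lit 7) (.e (nat_lit 319534) (nat_lit 16) (.e (nat_lit 286756) (nat_lit 10) (.e (nat_lit 344160) (nat_lit 37) (.e (nat_lit 647190) (nat_lit 9) (.e (nat_lit 1026) (nat_lit 81) (.e (nat_lit 2342) (nat_lit 151) .nil)))))))) (.g (nat_lit 1) (.e (nat_lit 433161) (nat_lit 0) .nil) .nil)))))) 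
(.nd (nat_lit 7) (.nd (nat_lit 8) (.nd (nat_lit 9) 
(.lf (nat_lit 605299) (.g (nat_lit 3384) (.e (nat_lit 778459) (nat_lit 11) (.e (nat_lit 24658) (nat_lit 13) (.e (nat_lit 393301) (nat_lit 27) (.e (nat_lit 491559) (nat_lit 10) (.e (nat_lit 352000) (nat_lit 44) .nil))))) (.g (nat_lit 0) (.e (nat_lit 432084) (nat_lit 0) .nil) .nil))) 
(.lf (nat_lit 605811) (.g (nat_lit 2794) (.e (nat_lit 778464) (nat_lit 11) (.e (nat_lit 24617) (nat_lit 7) (.e (nat_lit 319534) (nat_lit 16) (.e (nat_lit 286756) (nat_lit 10) (.e (nat_lit 344160) (nat_lit 37) (.e (nat_lit 647190) (nat_lit 9) (.e (nat_lit 1005) (nat_lit 81) (.e (nat_lit 2345) (nat_lit 151) .nil)))))))) (.g (nat_lit 1) (.e (nat_lit 432720) (nat_lit 0) .nil) .nil)))) 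
(.nd (nat_lit 9) 
(.lf (nat_lit 605555) (.g (nat_lit 1975) (.e (nat_lit 778462) (nat_lit 11) (.e (nat_lit 24628) (nat_lit 9) (.e (nat_lit 336443) (nat_lit 32) (.e (nat_lit 466969) (nat_lit 21) (.e (nat_lit 164332) (nat_lit 230) (.e (nat_lit 163843) (nat_lit 0) (.e (nat_lit 3657) (nat_lit 227) .nil))))))) (.g (nat_lit 1) (.e (nat_lit 432401) (nat_lit 0) .nil) .nil))) 
(.lf (nat_lit 606067) (.g (nat_lit 3404) (.e (nat_lit 778466) (nat_lit 11) (.e (nat_lit 24617) (nat_lit 7) (.e (nat_lit 319533) (nat_lit 16) (.e (nat_lit 286753) (nat_lit 10) (.e (nat_lit 344160) (nat_lit 37) (.e (nat_lit 647196) (nat_lit 9) (.e (nat_lit 990) (nat_lit 81) (.e (nat_lit 2310) (nat_lit 151) .nil)))))))) (.g (nat_lit 1) (.e (nat_lit 433068) (nat_lit 0) .nil) .nil))))) 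
(.nd (nat_lit 8) (.nd (nat_lit 9) 
(.lf (nat_lit 605427) (.g (nat_lit 1636) (.e (nat_lit 778462) (nat_lit 11) (.e (nat_lit 24604) (nat_lit 2) (.e (nat_lit 90185) (nat_lit 17) (.e (nat_lit 237605) (nat_lit 9) (.e (nat_lit 426436) (nat_lit 18) (.e (nat_lit 98321) (nat_lit 17) (.e (nat_lit 3663) (nat_lit 227) .nil))))))) (.g (nat_lit 1) (.e (nat_lit 432229) (nat_lit 0) .nil) .nil))) 
(.lf (nat_lit 605939) (.g (nat_lit 270) (.e (nat_lit 778465) (nat_lit 11) (.e (nat_lit 24636) (nat_lit 9) (.e (nat_lit 343808) (nat_lit 28) .nil))) (.g (nat_lit 0) (.e (nat_lit 432877) (nat_lit 0) .nil) .nil)))) (.nd (nat_lit 9) 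
(.lf (nat_lit 605683) (.g (nat_lit 2249) (.e (nat_lit 778463) (nat_lit 11) (.e (nat_lit 24606) (nat_lit 3) (.e (nat_lit 98373) (nat_lit 29) (.e (nat_lit 450588) (nat_lit 10) (.e (nat_lit 573475) (nat_lit 12) .nil))))) (.g (nat_lit 0) (.e (nat_lit 432566) (nat_lit 0) .nil) .nil))) 
(.lf (nat_lit 606195) (.g (nat_lit 1774) (.e (nat_lit 778466) (nat_lit 11) (.e (nat_lit 24636) (nat_lit 9) (.e (nat_lit 336407) (nat_lit 27) (.e (nat_lit 426012) (nat_lit 0) (.e (nat_lit 7591) (nat_lit 407) (.e (nat_lit 73776) (nat_lit 26) .nil)))))) (.g (nat_lit 1) (.e (nat_lit 433231) (nat_lit 0) .nil) .nil))))))))) 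
(.nd (nat_lit 4) (.nd (nat_lit 5) (.nd (nat_lit 6) (.nd (nat_lit 7) (.nd (nat_lit 8) 
(.nd (nat_lit 9) 
(.lf (nat_lit 605195) (.g (nat_lit 1337) (.e (nat_lit 778326) (nat_lit 6) (.e (nat_lit 81922) (nat_lit 0) (.e (nat_lit 3631) (nat_lit 227) (.e (nat_lit 778326) (nat_lit 6) (.e (nat_lit 81922) (nat_lit 0) .nil))))) (.g (nat_lit 0) (.e (nat_lit 431833) (nat_lit 0) .nil) .nil))) 
(.lf (nat_lit 605707) (.g (nat_lit 1757) (.e (nat_lit 778464) (nat_lit 11) (.e (nat_lit 24603) (nat_lit 2) (.e (nat_lit 90185) (nat_lit 17) (.e (nat_lit 237601) (nat_lit 9) (.e (nat_lit 426436) (nat_lit 18) (.e (nat_lit 98327) (nat_lit 17) (.e (nat_lit 3721) (nat_lit 227) .nil))))))) (.g (nat_lit 1) (.e (nat_lit 432603) (nat_lit 0) .nil) .nil)))) (.nd (nat_lit 9) 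
(.lf (nat_lit 605451) (.g (nat_lit 1272) (.e (nat_lit 778462) (nat_lit 11) (.e (nat_lit 24608) (nat_lit 3) (.e (nat_lit 98365) (nat_lit 26) (.e (nat_lit 426187) (nat_lit 9) .nil)))) (.g (nat_lit 0) (.e (nat_lit 432262) (nat_lit 0) .nil) .nil))) 
(.lf (nat_lit 605963) (.g (nat_lit 1738) (.e (nat_lit 778466) (nat_lit 11) (.e (nat_lit 24604) (nat_lit 2) (.e (nat_lit 90176) (nat_lit 15) (.e (nat_lit 188424) (nat_lit 20) .nil)))) (.g (nat_lit 0) (.e (nat_lit 432932) (nat_lit 0) .nil) .nil))))) (.nd (nat_lit 8) (.nd (nat_lit 9) 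
(.lf (nat_lit 605323) (.g (nat_lit 1923) (.e (nat_lit 778460) (nat_lit 11) (.e (nat_lit 24608) (nat_lit 3) (.e (nat_lit 98372) (nat_lit 29) (.e (nat_lit 450587) (nat_lit 10) .nil)))) (.g (nat_lit 0) (.e (nat_lit 432108) (nat_lit 0) .nil) .nil))) 
(.lf (nat_lit 605835) (.g (nat_lit 878) (.e (nat_lit 778464) (nat_lit 11) (.e (nat_lit 24625) (nat_lit 9) (.e (nat_lit 336421) (nat_lit 28) .nil))) (.g (nat_lit 0) (.e (nat_lit 432745) (nat_lit 0) .nil) .nil)))) (.nd (nat_lit 9) 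
(.lf (nat_lit 605579) (.g (nat_lit 2327) (.e (nat_lit 778462) (nat_lit 11) (.e (nat_lit 24628) (nat_lit 9) (.e (nat_lit 336443) (nat_lit 32) (.e (nat_lit 466972) (nat_lit 21) (.e (nat_lit 164330) (nat_lit 230) (.e (nat_lit 163855) (nat_lit 0) (.e (nat_lit 3658) (nat_lit 227) .nil))))))) (.g (nat_lit 1) (.e (nat_lit 432429) (nat_lit 0) .nil) .nil))) 
(.lf (nat_lit 606091) (.g (nat_lit 2412) (.e (nat_lit 778466) (nat_lit 11) (.e (nat_lit 24617) (nat_lit 7) (.e (nat_lit 319534) (nat_lit 16) (.e (nat_lit 286753) (nat_lit 10) (.e (nat_lit 344160) (nat_lit 37) .nil))))) (.g (nat_lit 0) (.e (nat_lit 433103) (nat_lit 0) .nil) .nil)))))) (.nd (nat_lit 7) (.nd (nat_lit 8) (.nd (nat_lit 9) 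
(.lf (nat_lit 605259) (.g (nat_lit 3458) (.e (nat_lit 778336) (nat_lit 9) (.e (nat_lit 2668) (nat_lit 167) (.e (nat_lit 196666) (nat_lit 13) (.e (nat_lit 65571) (nat_lit 3) (.e (nat_lit 98346) (nat_lit 22) .nil))))) (.g (nat_lit 0) (.e (nat_lit 431945) (nat_lit 0) .nil) .nil))) 
(.lf (nat_lit 605771) (.g (nat_lit 1959) (.e (nat_lit 778464) (nat_lit 11) (.e (nat_lit 24617) (nat_lit 7) (.e (nat_lit 319533) (nat_lit 16) (.e (nat_lit 286753) (nat_lit 10) (.e (nat_lit 344160) (nat_lit 37) .nil))))) (.g (nat_lit 0) (.e (nat_lit 432676) (nat_lit 0) .nil) .nil)))) (.nd (nat_lit 9) 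
(.lf (nat_lit 605515) (.g (nat_lit 2109) (.e (nat_lit 778462) (nat_lit 11) (.e (nat_lit 24608) (nat_lit 3) (.e (nat_lit 98374) (nat_lit 29) (.e (nat_lit 450586) (nat_lit 10) (.e (nat_lit 573477) (nat_lit 12) .nil))))) (.g (nat_lit 0) (.e (nat_lit 432328) (nat_lit 0) .nil) .nil))) 
(.lf (nat_lit 606027) (.g (nat_lit 3199) (.e (nat_lit 778466) (nat_lit 11) (.e (nat_lit 24617) (nat_lit 7) (.e (nat_lit 319529) (nat_lit 16) (.e (nat_lit 286759) (nat_lit 12) (.e (nat_lit 385115) (nat_lit 53) (.e (nat_lit 811033) (nat_lit 11) (.e (nat_lit 883) (nat_lit 75) .nil))))))) (.g (nat_lit 1) (.e (nat_lit 433021) (nat_lit 0) .nil) .nil))))) (.nd (nat_lit 8) (.nd (nat_lit 9) 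
(.lf (nat_lit 605387) (.g (nat_lit 2142) (.e (nat_lit 778461) (nat_lit 11) (.e (nat_lit 24658) (nat_lit 13) (.e (nat_lit 393301) (nat_lit 27) (.e (nat_lit 491560) (nat_lit 10) .nil)))) (.g (nat_lit 0) (.e (nat_lit 432188) (nat_lit 0) .nil) .nil))) 
(.lf (nat_lit 605899) (.g (nat_lit 1466) (.e (nat_lit 778465) (nat_lit 11) (.e (nat_lit 24617) (nat_lit 7) (.e (nat_lit 319533) (nat_lit 16) (.e (nat_lit 286753) (nat_lit 10) .nil)))) (.g (nat_lit 0) (.e (nat_lit 432837) (nat_lit 0) .nil) .nil)))) (.nd (nat_lit 9) 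
(.lf (nat_lit 605643) (.g (nat_lit 1540) (.e (nat_lit 778462) (nat_lit 11) (.e (nat_lit 24658) (nat_lit 13) (.e (nat_lit 393281) (nat_lit 23) (.e (nat_lit 426099) (nat_lit 1) (.e (nat_lit 164332) (nat_lit 230) (.e (nat_lit 163847) (nat_lit 0) (.e (nat_lit 3657) (nat_lit 227) .nil))))))) (.g (nat_lit 1) (.e (nat_lit 432521) (nat_lit 0) .nil) .nil))) 
(.lf (nat_lit 606155) (.g (nat_lit 3904) (.e (nat_lit 778466) (nat_lit 11) (.e (nat_lit 24617) (nat_lit 7) (.e (nat_lit 319534) (nat_lit 16) (.e (nat_lit 286756) (nat_lit 10) (.e (nat_lit 344160) (nat_lit 37) (.e (nat_lit 647203) (nat_lit 14) (.e (nat_lit 2505) (nat_lit 157) (.e (nat_lit 879) (nat_lit 75) .nil)))))))) (.g (nat_lit 1) (.e (nat_lit 433186) (nat_lit 0) .nil) .nil))))))) 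
(.nd (nat_lit 6) (.nd (nat_lit 7) (.nd (nat_lit 8) (.nd (nat_lit 9) 
(.lf (nat_lit 605227) (.g (nat_lit 1221) (.e (nat_lit 778327) (nat_lit 6) (.e (nat_lit 81947) (nat_lit 20) (.e (nat_lit 2005) (nat_lit 138) (.e (nat_lit 671764) (nat_lit 6) (.e (nat_lit 81924) (nat_lit 0) .nil))))) (.g (nat_lit 0) (.e (nat_lit 431879) (nat_lit 0) .nil) .nil))) 
(.lf (nat_lit 605739) (.g (nat_lit 2506) (.e (nat_lit 778464) (nat_lit 11) (.e (nat_lit 24617) (nat_lit 7) (.e (nat_lit 319528) (nat_lit 16) (.e (nat_lit 286759) (nat_lit 12) (.e (nat_lit 385115) (nat_lit 53) (.e (nat_lit 811033) (nat_lit 11) (.e (nat_lit 879) (nat_lit 75) .nil))))))) (.g (nat_lit 1) (.e (nat_lit 432638) (nat_lit 0) .nil) .nil)))) (.nd (nat_lit 9) 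
(.lf (nat_lit 605483) (.g (nat_lit 3980) (.e (nat_lit 778462) (nat_lit 11) (.e (nat_lit 24608) (nat_lit 3) (.e (nat_lit 98365) (nat_lit 26) (.e (nat_lit 426306) (nat_lit 12) (.e (nat_lit 475177) (nat_lit 24) (.e (nat_lit 516097) (nat_lit 0) (.e (nat_lit 3656) (nat_lit 227) .nil))))))) (.g (nat_lit 1) (.e (nat_lit 432294) (nat_lit 0) .nil) .nil))) 
(.lf (nat_lit 605995) (.g (nat_lit 374) (.e (nat_lit 778466) (nat_lit 11) (.e (nat_lit 24608) (nat_lit 3) (.e (nat_lit 98373) (nat_lit 29) .nil))) (.g (nat_lit 0) (.e (nat_lit 432974) (nat_lit 0) .nil) .nil))))) (.nd (nat_lit 8) (.nd (nat_lit 9) 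
(.lf (nat_lit 605355) (.g (nat_lit 811) (.e (nat_lit 778460) (nat_lit 11) (.e (nat_lit 24657) (nat_lit 13) (.e (nat_lit 393299) (nat_lit 27) .nil))) (.g (nat_lit 0) (.e (nat_lit 432149) (nat_lit 0) .nil) .nil))) 
(.lf (nat_lit 605867) (.g (nat_lit 1988) (.e (nat_lit 778465) (nat_lit 11) (.e (nat_lit 24608) (nat_lit 3) (.e (nat_lit 98365) (nat_lit 26) (.e (nat_lit 426306) (nat_lit 12) (.e (nat_lit 475179) (nat_lit 24) (.e (nat_lit 516102) (nat_lit 0) (.e (nat_lit 3686) (nat_lit 227) .nil))))))) (.g (nat_lit 1) (.e (nat_lit 432804) (nat_lit 0) .nil) .nil)))) (.nd (nat_lit 9) 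
(.lf (nat_lit 605611) (.g (nat_lit 2733) (.e (nat_lit 778462) (nat_lit 11) (.e (nat_lit 24630) (nat_lit 9) (.e (nat_lit 336369) (nat_lit 27) (.e (nat_lit 426173) (nat_lit 7) (.e (nat_lit 409618) (nat_lit 10) .nil))))) (.g (nat_lit 0) (.e (nat_lit 432461) (nat_lit 0) .nil) .nil))) 
(.lf (nat_lit 606123) (.g (nat_lit 3741) (.e (nat_lit 778466) (nat_lit 11) (.e (nat_lit 24617) (nat_lit 7) (.e (nat_lit 319534) (nat_lit 16) (.e (nat_lit 286756) (nat_lit 10) (.e (nat_lit 344160) (nat_lit 37) (.e (nat_lit 647190) (nat_lit 9) (.e (nat_lit 984) (nat_lit 81) (.e (nat_lit 2349) (nat_lit 151) .nil)))))))) (.g (nat_lit 1) (.e (nat_lit 433153) (nat_lit 0) .nil) .nil)))))) 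
(.nd (nat_lit 7) (.nd (nat_lit 8) (.nd (nat_lit 9) 
(.lf (nat_lit 605291) (.g (nat_lit 2878) (.e (nat_lit 778459) (nat_lit 11) (.e (nat_lit 24655) (nat_lit 13) (.e (nat_lit 393301) (nat_lit 27) (.e (nat_lit 491558) (nat_lit 10) (.e (nat_lit 352000) (nat_lit 44) .nil))))) (.g (nat_lit 0) (.e (nat_lit 432074) (nat_lit 0) .nil) .nil))) 
(.lf (nat_lit 605803) (.g (nat_lit 1981) (.e (nat_lit 778464) (nat_lit 11) (.e (nat_lit 24617) (nat_lit 7) (.e (nat_lit 319534) (nat_lit 16) (.e (nat_lit 286756) (nat_lit 10) (.e (nat_lit 344169) (nat_lit 40) .nil))))) (.g (nat_lit 0) (.e (nat_lit 432712) (nat_lit 0) .nil) .nil)))) (.nd (nat_lit 9) 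
(.lf (nat_lit 605547) (.g (nat_lit 1985) (.e (nat_lit 778462) (nat_lit 11) (.e (nat_lit 24628) (nat_lit 9) (.e (nat_lit 336443) (nat_lit 32) (.e (nat_lit 466969) (nat_lit 21) (.e (nat_lit 164332) (nat_lit 230) (.e (nat_lit 163843) (nat_lit 0) (.e (nat_lit 3647) (nat_lit 227) .nil))))))) (.g (nat_lit 1) (.e (nat_lit 432393) (nat_lit 0) .nil) .nil))) 
(.lf (nat_lit 606059) (.g (nat_lit 2953) (.e (nat_lit 778466) (nat_lit 11) (.e (nat_lit 24617) (nat_lit 7) (.e (nat_lit 319533) (nat_lit 16) (.e (nat_lit 286753) (nat_lit 10) (.e (nat_lit 344160) (nat_lit 37) (.e (nat_lit 647190) (nat_lit 9) (.e (nat_lit 1026) (nat_lit 81) (.e (nat_lit 2342) (nat_lit 151) .nil)))))))) (.g (nat_lit 1) (.e (nat_lit 433060) (nat_lit 0) .nil) .nil))))) 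
(.nd (nat_lit 8) (.nd (nat_lit 9) 
(.lf (nat_lit 605419) (.g (nat_lit 1649) (.e (nat_lit 778462) (nat_lit 11) (.e (nat_lit 24604) (nat_lit 2) (.e (nat_lit 90185) (nat_lit 17) (.e (nat_lit 237605) (nat_lit 9) (.e (nat_lit 426436) (nat_lit 18) (.e (nat_lit 98320) (nat_lit 17) (.e (nat_lit 3697) (nat_lit 227) .nil))))))) (.g (nat_lit 1) (.e (nat_lit 432221) (nat_lit 0) .nil) .nil))) 
(.lf (nat_lit 605931) (.g (nat_lit 1354) (.e (nat_lit 778465) (nat_lit 11) (.e (nat_lit 24627) (nat_lit 9) (.e (nat_lit 336414) (nat_lit 27) (.e (nat_lit 425984) (nat_lit 0) (.e (nat_lit 7590) (nat_lit 407) .nil))))) (.g (nat_lit 0) (.e (nat_lit 432869) (nat_lit 0) .nil) .nil)))) (.nd (nat_lit 9) 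
(.lf (nat_lit 605675) (.g (nat_lit 544) (.e (nat_lit 778463) (nat_lit 11) (.e (nat_lit 24580) (nat_lit 0) (.e (nat_lit 1808) (nat_lit 120) .nil))) (.g (nat_lit 0) (.e (nat_lit 432556) (nat_lit 0) .nil) .nil))) 
(.lf (nat_lit 606187) (.g (nat_lit 3241) (.e (nat_lit 778466) (nat_lit 11) (.e (nat_lit 24632) (nat_lit 9) (.e (nat_lit 336385) (nat_lit 27) (.e (nat_lit 426011) (nat_lit 0) (.e (nat_lit 7593) (nat_lit 407) (.e (nat_lit 73775) (nat_lit 26) .nil)))))) (.g (nat_lit 1) (.e (nat_lit 433223) (nat_lit 0) .nil) .nil)))))))) 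
(.nd (nat_lit 5) (.nd (nat_lit 6) (.nd (nat_lit 7) (.nd (nat_lit 8) (.nd (nat_lit 9) 
(.lf (nat_lit 605211) (.g (nat_lit 1715) (.e (nat_lit 778326) (nat_lit 6) (.e (nat_lit 81956) (nat_lit 23) (.e (nat_lit 98313) (nat_lit 9) (.e (nat_lit 335996) (nat_lit 1) .nil)))) (.g (nat_lit 0) (.e (nat_lit 431854) (nat_lit 0) .nil) .nil))) 
(.lf (nat_lit 605723) (.g (nat_lit 2891) (.e (nat_lit 778464) (nat_lit 11) (.e (nat_lit 24608) (nat_lit 3) (.e (nat_lit 98359) (nat_lit 26) (.e (nat_lit 426286) (nat_lit 10) (.e (nat_lit 434245) (nat_lit 28) .nil))))) (.g (nat_lit 0) (.e (nat_lit 432621) (nat_lit 0) .nil) .nil)))) (.nd (nat_lit 9) 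
(.lf (nat_lit 605467) (.g (nat_lit 1940) (.e (nat_lit 778462) (nat_lit 11) (.e (nat_lit 24608) (nat_lit 3) (.e (nat_lit 98365) (nat_lit 26) (.e (nat_lit 426188) (nat_lit 9) (.e (nat_lit 426436) (nat_lit 18) .nil))))) (.g (nat_lit 0) (.e (nat_lit 432278) (nat_lit 0) .nil) .nil))) 
(.lf (nat_lit 605979) (.g (nat_lit 1635) (.e (nat_lit 778466) (nat_lit 11) (.e (nat_lit 24608) (nat_lit 3) (.e (nat_lit 98358) (nat_lit 26) .nil))) (.g (nat_lit 0) (.e (nat_lit 432957) (nat_lit 0) .nil) .nil))))) (.nd (nat_lit 8) (.nd (nat_lit 9) 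
(.lf (nat_lit 605339) (.g (nat_lit 901) (.e (nat_lit 778460) (nat_lit 11) (.e (nat_lit 24628) (nat_lit 9) (.e (nat_lit 336438) (nat_lit 31) (.e (nat_lit 458769) (nat_lit 16) .nil)))) (.g (nat_lit 0) (.e (nat_lit 432126) (nat_lit 0) .nil) .nil))) 
(.lf (nat_lit 605851) (.g (nat_lit 1433) (.e (nat_lit 778465) (nat_lit 11) (.e (nat_lit 24604) (nat_lit 2) (.e (nat_lit 90169) (nat_lit 13) (.e (nat_lit 172105) (nat_lit 10) .nil)))) (.g (nat_lit 0) (.e (nat_lit 432788) (nat_lit 0) .nil) .nil)))) (.nd (nat_lit 9) 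
(.lf (nat_lit 605595) (.g (nat_lit 2283) (.e (nat_lit 778462) (nat_lit 11) (.e (nat_lit 24628) (nat_lit 9) (.e (nat_lit 336443) (nat_lit 32) (.e (nat_lit 466972) (nat_lit 21) (.e (nat_lit 164332) (nat_lit 230) (.e (nat_lit 163847) (nat_lit 0) (.e (nat_lit 3651) (nat_lit 227) .nil))))))) (.g (nat_lit 1) (.e (nat_lit 432445) (nat_lit 0) .nil) .nil))) 
(.lf (nat_lit 606107) (.g (nat_lit 3153) (.e (nat_lit 778466) (nat_lit 11) (.e (nat_lit 24617) (nat_lit 7) (.e (nat_lit 319534) (nat_lit 16) (.e (nat_lit 286756) (nat_lit 10) (.e (nat_lit 344169) (nat_lit 40) (.e (nat_lit 671770) (nat_lit 9) (.e (nat_lit 2437) (nat_lit 157) (.e (nat_lit 3720) (nat_lit 227) .nil)))))))) (.g (nat_lit 1) (.e (nat_lit 433137) (nat_lit 0) .nil) .nil)))))) 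
(.nd (nat_lit 7) (.nd (nat_lit 8) (.nd (nat_lit 9) 
(.lf (nat_lit 605275) (.g (nat_lit 2431) (.e (nat_lit 778391) (nat_lit 9) (.e (nat_lit 2663) (nat_lit 167) (.e (nat_lit 196656) (nat_lit 11) (.e (nat_lit 16436) (nat_lit 9) (.e (nat_lit 426131) (nat_lit 3) .nil))))) (.g (nat_lit 0) (.e (nat_lit 432021) (nat_lit 0) .nil) .nil))) 
(.lf (nat_lit 605787) (.g (nat_lit 2304) (.e (nat_lit 778464) (nat_lit 11) (.e (nat_lit 24617) (nat_lit 7) (.e (nat_lit 319533) (nat_lit 16) (.e (nat_lit 286753) (nat_lit 10) (.e (nat_lit 344160) (nat_lit 37) (.e (nat_lit 647203) (nat_lit 14) (.e (nat_lit 2510) (nat_lit 157) (.e (nat_lit 879) (nat_lit 75) .nil)))))))) (.g (nat_lit 1) (.e (nat_lit 432692) (nat_lit 0) .nil) .nil)))) 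
(.nd (nat_lit 9) 
(.lf (nat_lit 605531) (.g (nat_lit 533) (.e (nat_lit 778462) (nat_lit 11) (.e (nat_lit 24628) (nat_lit 9) (.e (nat_lit 335878) (nat_lit 0) .nil))) (.g (nat_lit 0) (.e (nat_lit 432362) (nat_lit 0) .nil) .nil))) 
(.lf (nat_lit 606043) (.g (nat_lit 2912) (.e (nat_lit 778466) (nat_lit 11) (.e (nat_lit 24617) (nat_lit 7) (.e (nat_lit 319532) (nat_lit 16) (.e (nat_lit 286759) (nat_lit 12) (.e (nat_lit 385115) (nat_lit 53) (.e (nat_lit 811034) (nat_lit 11) (.e (nat_lit 883) (nat_lit 75) .nil))))))) (.g (nat_lit 1) (.e (nat_lit 433043) (nat_lit 0) .nil) .nil))))) (.nd (nat_lit 8) (.nd (nat_lit 9) 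
(.lf (nat_lit 605403) (.g (nat_lit 2347) (.e (nat_lit 778462) (nat_lit 11) (.e (nat_lit 24604) (nat_lit 2) (.e (nat_lit 90185) (nat_lit 17) (.e (nat_lit 237601) (nat_lit 9) (.e (nat_lit 426428) (nat_lit 17) (.e (nat_lit 90165) (nat_lit 12) (.e (nat_lit 164046) (nat_lit 55) .nil))))))) (.g (nat_lit 1) (.e (nat_lit 432205) (nat_lit 0) .nil) .nil))) 
(.lf (nat_lit 605915) (.g (nat_lit 1983) (.e (nat_lit 778465) (nat_lit 11) (.e (nat_lit 24617) (nat_lit 7) (.e (nat_lit 319534) (nat_lit 16) (.e (nat_lit 286756) (nat_lit 10) (.e (nat_lit 344168) (nat_lit 40) .nil))))) (.g (nat_lit 0) (.e (nat_lit 432853) (nat_lit 0) .nil) .nil)))) (.nd (nat_lit 9) 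
(.lf (nat_lit 605659) (.g (nat_lit 2097) (.e (nat_lit 778462) (nat_lit 11) (.e (nat_lit 24658) (nat_lit 13) (.e (nat_lit 393301) (nat_lit 27) (.e (nat_lit 491552) (nat_lit 9) .nil)))) (.g (nat_lit 0) (.e (nat_lit 432540) (nat_lit 0) .nil) .nil))) 
(.lf (nat_lit 606171) (.g (nat_lit 2699) (.e (nat_lit 778466) (nat_lit 11) (.e (nat_lit 24623) (nat_lit 9) (.e (nat_lit 336389) (nat_lit 27) (.e (nat_lit 426344) (nat_lit 14) (.e (nat_lit 491560) (nat_lit 10) .nil))))) (.g (nat_lit 0) (.e (nat_lit 433206) (nat_lit 0) .nil) .nil))))))) (.nd (nat_lit 6) (.nd (nat_lit 7) (.nd (nat_lit 8) (.nd (nat_lit 9) 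
(.lf (nat_lit 605243) (.g (nat_lit 1826) (.e (nat_lit 778327) (nat_lit 6) (.e (nat_lit 81959) (nat_lit 24) (.e (nat_lit 123195) (nat_lit 266) (.e (nat_lit 57400) (nat_lit 10) .nil)))) (.g (nat_lit 0) (.e (nat_lit 431908) (nat_lit 0) .nil) .nil))) 
(.lf (nat_lit 605755) (.g (nat_lit 2554) (.e (nat_lit 778464) (nat_lit 11) (.e (nat_lit 24617) (nat_lit 7) (.e (nat_lit 319531) (nat_lit 16) (.e (nat_lit 286759) (nat_lit 12) (.e (nat_lit 385115) (nat_lit 53) (.e (nat_lit 811033) (nat_lit 11) (.e (nat_lit 879) (nat_lit 75) .nil))))))) (.g (nat_lit 1) (.e (nat_lit 432657) (nat_lit 0) .nil) .nil)))) (.nd (nat_lit 9) 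
(.lf (nat_lit 605499) (.g (nat_lit 1298) (.e (nat_lit 778462) (nat_lit 11) (.e (nat_lit 24608) (nat_lit 3) (.e (nat_lit 98369) (nat_lit 28) (.e (nat_lit 450304) (nat_lit 3) .nil)))) (.g (nat_lit 0) (.e (nat_lit 432311) (nat_lit 0) .nil) .nil))) 
(.lf (nat_lit 606011) (.g (nat_lit 3169) (.e (nat_lit 778466) (nat_lit 11) (.e (nat_lit 24617) (nat_lit 7) (.e (nat_lit 319505) (nat_lit 10) (.e (nat_lit 720) (nat_lit 64) (.e (nat_lit 688177) (nat_lit 16) (.e (nat_lit 65617) (nat_lit 10) (.e (nat_lit 344180) (nat_lit 44) .nil))))))) (.g (nat_lit 1) (.e (nat_lit 432992) (nat_lit 0) .nil) .nil))))) (.nd (nat_lit 8) (.nd (nat_lit 9) 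
(.lf (nat_lit 605371) (.g (nat_lit 2712) (.e (nat_lit 778461) (nat_lit 11) (.e (nat_lit 24630) (nat_lit 9) (.e (nat_lit 336369) (nat_lit 27) (.e (nat_lit 426173) (nat_lit 7) (.e (nat_lit 409618) (nat_lit 10) .nil))))) (.g (nat_lit 0) (.e (nat_lit 432167) (nat_lit 0) .nil) .nil))) 
(.lf (nat_lit 605883) (.g (nat_lit 3026) (.e (nat_lit 778465) (nat_lit 11) (.e (nat_lit 24617) (nat_lit 7) (.e (nat_lit 319528) (nat_lit 16) (.e (nat_lit 286759) (nat_lit 12) (.e (nat_lit 385115) (nat_lit 53) (.e (nat_lit 811032) (nat_lit 11) (.e (nat_lit 883) (nat_lit 75) .nil))))))) (.g (nat_lit 1) (.e (nat_lit 432821) (nat_lit 0) .nil) .nil)))) (.nd (nat_lit 9) 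
(.lf (nat_lit 605627) (.g (nat_lit 1855) (.e (nat_lit 778462) (nat_lit 11) (.e (nat_lit 24658) (nat_lit 13) (.e (nat_lit 393233) (nat_lit 17) (.e (nat_lit 7593) (nat_lit 407) (.e (nat_lit 81664) (nat_lit 26) .nil))))) (.g (nat_lit 1) (.e (nat_lit 432492) (nat_lit 0) .nil) .nil))) 
(.lf (nat_lit 606139) (.g (nat_lit 3976) (.e (nat_lit 778466) (nat_lit 11) (.e (nat_lit 24617) (nat_lit 7) (.e (nat_lit 319534) (nat_lit 16) (.e (nat_lit 286756) (nat_lit 10) (.e (nat_lit 344160) (nat_lit 37) (.e (nat_lit 647190) (nat_lit 9) (.e (nat_lit 1044) (nat_lit 81) (.e (nat_lit 2342) (nat_lit 151) .nil)))))))) (.g (nat_lit 1) (.e (nat_lit 433169) (nat_lit 0) .nil) .nil)))))) 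
(.nd (nat_lit 7) (.nd (nat_lit 8) (.nd (nat_lit 9) 
(.lf (nat_lit 605307) (.g (nat_lit 2717) (.e (nat_lit 778459) (nat_lit 11) (.e (nat_lit 24660) (nat_lit 13) (.e (nat_lit 393260) (nat_lit 21) (.e (nat_lit 409616) (nat_lit 10) (.e (nat_lit 4979) (nat_lit 287) (.e (nat_lit 2422) (nat_lit 157) (.e (nat_lit 868) (nat_lit 75) .nil))))))) (.g (nat_lit 1) (.e (nat_lit 432092) (nat_lit 0) .nil) .nil))) 
(.lf (nat_lit 605819) (.g (nat_lit 2099) (.e (nat_lit 778464) (nat_lit 11) (.e (nat_lit 24617) (nat_lit 7) (.e (nat_lit 319534) (nat_lit 16) (.e (nat_lit 286756) (nat_lit 10) (.e (nat_lit 344160) (nat_lit 37) (.e (nat_lit 647195) (nat_lit 9) (.e (nat_lit 7936) (nat_lit 81) (.e (nat_lit 2309) (nat_lit 151) .nil)))))))) (.g (nat_lit 1) (.e (nat_lit 432728) (nat_lit 0) .nil) .nil)))) 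
(.nd (nat_lit 9) 
(.lf (nat_lit 605563) (.g (nat_lit 2166) (.e (nat_lit 778462) (nat_lit 11) (.e (nat_lit 24628) (nat_lit 9) (.e (nat_lit 336443) (nat_lit 32) (.e (nat_lit 466969) (nat_lit 21) (.e (nat_lit 164332) (nat_lit 230) (.e (nat_lit 163847) (nat_lit 0) (.e (nat_lit 3663) (nat_lit 227) .nil))))))) (.g (nat_lit 1) (.e (nat_lit 432409) (nat_lit 0) .nil) .nil))) 
(.lf (nat_lit 606075) (.g (nat_lit 3383) (.e (nat_lit 778466) (nat_lit 11) (.e (nat_lit 24617) (nat_lit 7) (.e (nat_lit 319533) (nat_lit 16) (.e (nat_lit 286753) (nat_lit 10) (.e (nat_lit 344160) (nat_lit 37) (.e (nat_lit 647195) (nat_lit 9) (.e (nat_lit 982) (nat_lit 81) (.e (nat_lit 2347) (nat_lit 151) .nil)))))))) (.g (nat_lit 1) (.e (nat_lit 433076) (nat_lit 0) .nil) .nil))))) 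
(.nd (nat_lit 8) (.nd (nat_lit 9) 
(.lf (nat_lit 605435) (.g (nat_lit 2839) (.e (nat_lit 778462) (nat_lit 11) (.e (nat_lit 24604) (nat_lit 2) (.e (nat_lit 90185) (nat_lit 17) (.e (nat_lit 237619) (nat_lit 12) (.e (nat_lit 475177) (nat_lit 24) (.e (nat_lit 516097) (nat_lit 0) (.e (nat_lit 3648) (nat_lit 227) .nil))))))) (.g (nat_lit 1) (.e (nat_lit 432237) (nat_lit 0) .nil) .nil))) 
(.lf (nat_lit 605947) (.g (nat_lit 1074) (.e (nat_lit 778465) (nat_lit 11) (.e (nat_lit 24658) (nat_lit 13) (.e (nat_lit 393300) (nat_lit 27) (.e (nat_lit 491558) (nat_lit 10) .nil)))) (.g (nat_lit 0) (.e (nat_lit 432886) (nat_lit 0) .nil) .nil)))) (.nd (nat_lit 9) 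
(.lf (nat_lit 605691) (.g (nat_lit 1828) (.e (nat_lit 778463) (nat_lit 11) (.e (nat_lit 24617) (nat_lit 7) (.e (nat_lit 319533) (nat_lit 16) (.e (nat_lit 286753) (nat_lit 10) .nil)))) (.g (nat_lit 0) (.e (nat_lit 432575) (nat_lit 0) .nil) .nil))) 
(.lf (nat_lit 606203) (.g (nat_lit 1529) (.e (nat_lit 778467) (nat_lit 11) (.e (nat_lit 24608) (nat_lit 3) (.e (nat_lit 98373) (nat_lit 29) .nil))) (.g (nat_lit 0) (.e (nat_lit 433246) (nat_lit 0) .nil) .nil)))))))))) (.nd (nat_lit 3) (.nd (nat_lit 4) (.nd (nat_lit 5) (.nd (nat_lit 6) (.nd (nat_lit 7) (.nd (nat_lit 8) (.nd (nat_lit 9) 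
(.lf (nat_lit 605191) (.g (nat_lit 525) (.e (nat_lit 778325) (nat_lit 6) (.e (nat_lit 81959) (nat_lit 24) (.e (nat_lit 123195) (nat_lit 266) .nil))) (.g (nat_lit 0) (.e (nat_lit 431829) (nat_lit 0) .nil) .nil))) 
(.lf (nat_lit 605703) (.g (nat_lit 443) (.e (nat_lit 778463) (nat_lit 11) (.e (nat_lit 24657) (nat_lit 13) (.e (nat_lit 393299) (nat_lit 27) .nil))) (.g (nat_lit 0) (.e (nat_lit 432591) (nat_lit 0) .nil) .nil)))) (.nd (nat_lit 9) 
(.lf (nat_lit 605447) (.g (nat_lit 1288) (.e (nat_lit 778462) (nat_lit 11) (.e (nat_lit 24608) (nat_lit 3) (.e (nat_lit 98363) (nat_lit 26) (.e (nat_lit 426318) (nat_lit 12) (.e (nat_lit 475177) (nat_lit 24) .nil))))) (.g (nat_lit 0) (.e (nat_lit 432258) (nat_lit 0) .nil) .nil))) 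
(.lf (nat_lit 605959) (.g (nat_lit 3013) (.e (nat_lit 778466) (nat_lit 11) (.e (nat_lit 24604) (nat_lit 2) (.e (nat_lit 90170) (nat_lit 13) (.e (nat_lit 172110) (nat_lit 10) (.e (nat_lit 434246) (nat_lit 28) .nil))))) (.g (nat_lit 0) (.e (nat_lit 432928) (nat_lit 0) .nil) .nil))))) (.nd (nat_lit 8) (.nd (nat_lit 9) 
(.lf (nat_lit 605319) (.g (nat_lit 4993) (.e (nat_lit 778460) (nat_lit 11) (.e (nat_lit 24604) (nat_lit 2) (.e (nat_lit 90170) (nat_lit 13) (.e (nat_lit 172113) (nat_lit 10) (.e (nat_lit 434247) (nat_lit 28) .nil))))) (.g (nat_lit 0) (.e (nat_lit 432104) (nat_lit 0) .nil) .nil))) 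
(.lf (nat_lit 605831) (.g (nat_lit 1983) (.e (nat_lit 778464) (nat_lit 11) (.e (nat_lit 24617) (nat_lit 7) (.e (nat_lit 319534) (nat_lit 16) (.e (nat_lit 286759) (nat_lit 12) (.e (nat_lit 385115) (nat_lit 53) (.e (nat_lit 811033) (nat_lit 11) (.e (nat_lit 880) (nat_lit 75) .nil))))))) (.g (nat_lit 1) (.e (nat_lit 432740) (nat_lit 0) .nil) .nil)))) (.nd (nat_lit 9) 
(.lf (nat_lit 605575) (.g (nat_lit 2317) (.e (nat_lit 778462) (nat_lit 11) (.e (nat_lit 24628) (nat_lit 9) (.e (nat_lit 336443) (nat_lit 32) (.e (nat_lit 466972) (nat_lit 21) (.e (nat_lit 164329) (nat_lit 230) (.e (nat_lit 163843) (nat_lit 0) (.e (nat_lit 3653) (nat_lit 227) .nil))))))) (.g (nat_lit 1) (.e (nat_lit 432425) (nat_lit 0) .nil) .nil))) 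
(.lf (nat_lit 606087) (.g (nat_lit 2966) (.e (nat_lit 778466) (nat_lit 11) (.e (nat_lit 24617) (nat_lit 7) (.e (nat_lit 319533) (nat_lit 16) (.e (nat_lit 286759) (nat_lit 12) (.e (nat_lit 385115) (nat_lit 53) (.e (nat_lit 811033) (nat_lit 11) (.e (nat_lit 879) (nat_lit 75) .nil))))))) (.g (nat_lit 1) (.e (nat_lit 433093) (nat_lit 0) .nil) .nil)))))) 
(.nd (nat_lit 7) (.nd (nat_lit 8) (.nd (nat_lit 9) 
(.lf (nat_lit 605255) (.g (nat_lit 1999) (.e (nat_lit 778336) (nat_lit 9) (.e (nat_lit 2668) (nat_lit 167) (.e (nat_lit 196666) (nat_lit 13) (.e (nat_lit 65569) (nat_lit 3) .nil)))) (.g (nat_lit 0) (.e (nat_lit 431936) (nat_lit 0) .nil) .nil))) 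
(.lf (nat_lit 605767) (.g (nat_lit 2318) (.e (nat_lit 778464) (nat_lit 11) (.e (nat_lit 24617) (nat_lit 7) (.e (nat_lit 319533) (nat_lit 16) (.e (nat_lit 286753) (nat_lit 10) (.e (nat_lit 352000) (nat_lit 39) .nil))))) (.g (nat_lit 0) (.e (nat_lit 432672) (nat_lit 0) .nil) .nil)))) (.nd (nat_lit 9) 
(.lf (nat_lit 605511) (.g (nat_lit 3351) (.e (nat_lit 778462) (nat_lit 11) (.e (nat_lit 24608) (nat_lit 3) (.e (nat_lit 98373) (nat_lit 29) (.e (nat_lit 450587) (nat_lit 10) (.e (nat_lit 573478) (nat_lit 12) (.e (nat_lit 65280) (nat_lit 55) .nil)))))) (.g (nat_lit 1) (.e (nat_lit 432324) (nat_lit 0) .nil) .nil))) 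
(.lf (nat_lit 606023) (.g (nat_lit 3075) (.e (nat_lit 778466) (nat_lit 11) (.e (nat_lit 24617) (nat_lit 7) (.e (nat_lit 319528) (nat_lit 16) (.e (nat_lit 286759) (nat_lit 12) (.e (nat_lit 385115) (nat_lit 53) (.e (nat_lit 811034) (nat_lit 11) (.e (nat_lit 883) (nat_lit 75) .nil))))))) (.g (nat_lit 1) (.e (nat_lit 433014) (nat_lit 0) .nil) .nil))))) (.nd (nat_lit 8) (.nd (nat_lit 9) 
(.lf (nat_lit 605383) (.g (nat_lit 2413) (.e (nat_lit 778461) (nat_lit 11) (.e (nat_lit 24658) (nat_lit 13) (.e (nat_lit 393234) (nat_lit 17) (.e (nat_lit 7593) (nat_lit 407) .nil)))) (.g (nat_lit 0) (.e (nat_lit 432184) (nat_lit 0) .nil) .nil))) 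
(.lf (nat_lit 605895) (.g (nat_lit 3016) (.e (nat_lit 778465) (nat_lit 11) (.e (nat_lit 24617) (nat_lit 7) (.e (nat_lit 319532) (nat_lit 16) (.e (nat_lit 286759) (nat_lit 12) (.e (nat_lit 385115) (nat_lit 53) (.e (nat_lit 811031) (nat_lit 11) (.e (nat_lit 883) (nat_lit 75) .nil))))))) (.g (nat_lit 1) (.e (nat_lit 432833) (nat_lit 0) .nil) .nil)))) (.nd (nat_lit 9) 
(.lf (nat_lit 605639) (.g (nat_lit 1451) (.e (nat_lit 778462) (nat_lit 11) (.e (nat_lit 24658) (nat_lit 13) (.e (nat_lit 393281) (nat_lit 23) (.e (nat_lit 426099) (nat_lit 1) (.e (nat_lit 164332) (nat_lit 230) (.e (nat_lit 163847) (nat_lit 0) (.e (nat_lit 3654) (nat_lit 227) .nil))))))) (.g (nat_lit 1) (.e (nat_lit 432517) (nat_lit 0) .nil) .nil))) 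
(.lf (nat_lit 606151) (.g (nat_lit 3282) (.e (nat_lit 778466) (nat_lit 11) (.e (nat_lit 24617) (nat_lit 7) (.e (nat_lit 319534) (nat_lit 16) (.e (nat_lit 286756) (nat_lit 10) (.e (nat_lit 344160) (nat_lit 37) (.e (nat_lit 647195) (nat_lit 9) (.e (nat_lit 1086) (nat_lit 81) (.e (nat_lit 2342) (nat_lit 151) .nil)))))))) (.g (nat_lit 1) (.e (nat_lit 433181) (nat_lit 0) .nil) .nil))))))) 
(.nd (nat_lit 6) (.nd (nat_lit 7) (.nd (nat_lit 8) (.nd (nat_lit 9) 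
(.lf (nat_lit 605223) (.g (nat_lit 1650) (.e (nat_lit 778327) (nat_lit 6) (.e (nat_lit 81946) (nat_lit 20) (.e (nat_lit 2003) (nat_lit 138) (.e (nat_lit 671747) (nat_lit 0) (.e (nat_lit 1559) (nat_lit 110) .nil))))) (.g (nat_lit 0) (.e (nat_lit 431875) (nat_lit 0) .nil) .nil))) 
(.lf (nat_lit 605735) (.g (nat_lit 1995) (.e (nat_lit 778464) (nat_lit 11) (.e (nat_lit 24617) (nat_lit 7) (.e (nat_lit 319528) (nat_lit 16) (.e (nat_lit 286759) (nat_lit 12) (.e (nat_lit 385113) (nat_lit 53) .nil))))) (.g (nat_lit 0) (.e (nat_lit 432634) (nat_lit 0) .nil) .nil)))) (.nd (nat_lit 9) 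
(.lf (nat_lit 605479) (.g (nat_lit 4329) (.e (nat_lit 778462) (nat_lit 11) (.e (nat_lit 24608) (nat_lit 3) (.e (nat_lit 98365) (nat_lit 26) (.e (nat_lit 426306) (nat_lit 12) (.e (nat_lit 475177) (nat_lit 24) (.e (nat_lit 516097) (nat_lit 0) (.e (nat_lit 3648) (nat_lit 227) .nil))))))) (.g (nat_lit 1) (.e (nat_lit 432290) (nat_lit 0) .nil) .nil))) 
(.lf (nat_lit 605991) (.g (nat_lit 2007) (.e (nat_lit 778466) (nat_lit 11) (.e (nat_lit 24608) (nat_lit 3) (.e (nat_lit 98365) (nat_lit 26) (.e (nat_lit 426306) (nat_lit 12) (.e (nat_lit 475179) (nat_lit 24) (.e (nat_lit 516100) (nat_lit 0) (.e (nat_lit 3703) (nat_lit 227) .nil))))))) (.g (nat_lit 1) (.e (nat_lit 432970) (nat_lit 0) .nil) .nil))))) (.nd (nat_lit 8) (.nd (nat_lit 9) 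
(.lf (nat_lit 605351) (.g (nat_lit 1584) (.e (nat_lit 778460) (nat_lit 11) (.e (nat_lit 24655) (nat_lit 13) (.e (nat_lit 393301) (nat_lit 27) (.e (nat_lit 491560) (nat_lit 10) .nil)))) (.g (nat_lit 0) (.e (nat_lit 432140) (nat_lit 0) .nil) .nil))) 
(.lf (nat_lit 605863) (.g (nat_lit 2567) (.e (nat_lit 778465) (nat_lit 11) (.e (nat_lit 24604) (nat_lit 2) (.e (nat_lit 90178) (nat_lit 15) (.e (nat_lit 188440) (nat_lit 20) (.e (nat_lit 3308) (nat_lit 202) .nil))))) (.g (nat_lit 0) (.e (nat_lit 432800) (nat_lit 0) .nil) .nil)))) (.nd (nat_lit 9) 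
(.lf (nat_lit 605607) (.g (nat_lit 556) (.e (nat_lit 778462) (nat_lit 11) (.e (nat_lit 24630) (nat_lit 9) (.e (nat_lit 336369) (nat_lit 27) .nil))) (.g (nat_lit 0) (.e (nat_lit 432457) (nat_lit 0) .nil) .nil))) 
(.lf (nat_lit 606119) (.g (nat_lit 2069) (.e (nat_lit 778466) (nat_lit 11) (.e (nat_lit 24617) (nat_lit 7) (.e (nat_lit 319534) (nat_lit 16) (.e (nat_lit 286756) (nat_lit 10) (.e (nat_lit 344160) (nat_lit 37) (.e (nat_lit 647188) (nat_lit 9) (.e (nat_lit 1023) (nat_lit 81) (.e (nat_lit 2346) (nat_lit 151) .nil)))))))) (.g (nat_lit 1) (.e (nat_lit 433149) (nat_lit 0) .nil) .nil)))))) 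
(.nd (nat_lit 7) (.nd (nat_lit 8) (.nd (nat_lit 9) 
(.lf (nat_lit 605287) (.g (nat_lit 2012) (.e (nat_lit 778459) (nat_lit 11) (.e (nat_lit 24655) (nat_lit 13) (.e (nat_lit 393299) (nat_lit 27) (.e (nat_lit 491558) (nat_lit 10) (.e (nat_lit 352000) (nat_lit 44) .nil))))) (.g (nat_lit 1) (.e (nat_lit 432070) (nat_lit 0) .nil) .nil))) 
(.lf (nat_lit 605799) (.g (nat_lit 2203) (.e (nat_lit 778464) (nat_lit 11) (.e (nat_lit 24617) (nat_lit 7) (.e (nat_lit 319534) (nat_lit 16) (.e (nat_lit 286756) (nat_lit 10) (.e (nat_lit 344168) (nat_lit 40) .nil))))) (.g (nat_lit 0) (.e (nat_lit 432708) (nat_lit 0) .nil) .nil)))) (.nd (nat_lit 9) 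
(.lf (nat_lit 605543) (.g (nat_lit 1966) (.e (nat_lit 778462) (nat_lit 11) (.e (nat_lit 24628) (nat_lit 9) (.e (nat_lit 336443) (nat_lit 32) (.e (nat_lit 466969) (nat_lit 21) (.e (nat_lit 164329) (nat_lit 230) (.e (nat_lit 163850) (nat_lit 0) (.e (nat_lit 3667) (nat_lit 227) .nil))))))) (.g (nat_lit 1) (.e (nat_lit 432389) (nat_lit 0) .nil) .nil))) 
(.lf (nat_lit 606055) (.g (nat_lit 3328) (.e (nat_lit 778466) (nat_lit 11) (.e (nat_lit 24617) (nat_lit 7) (.e (nat_lit 319533) (nat_lit 16) (.e (nat_lit 286753) (nat_lit 10) (.e (nat_lit 344160) (nat_lit 37) (.e (nat_lit 647190) (nat_lit 9) (.e (nat_lit 983) (nat_lit 81) (.e (nat_lit 2342) (nat_lit 151) .nil)))))))) (.g (nat_lit 1) (.e (nat_lit 433056) (nat_lit 0) .nil) .nil))))) 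
(.nd (nat_lit 8) (.nd (nat_lit 9) 
(.lf (nat_lit 605415) (.g (nat_lit 2957) (.e (nat_lit 778462) (nat_lit 11) (.e (nat_lit 24604) (nat_lit 2) (.e (nat_lit 90185) (nat_lit 17) (.e (nat_lit 237605) (nat_lit 9) (.e (nat_lit 426428) (nat_lit 17) (.e (nat_lit 90181) (nat_lit 16) (.e (nat_lit 229462) (nat_lit 55) .nil))))))) (.g (nat_lit 1) (.e (nat_lit 432217) (nat_lit 0) .nil) .nil))) 
(.lf (nat_lit 605927) (.g (nat_lit 4203) (.e (nat_lit 778465) (nat_lit 11) (.e (nat_lit 24623) (nat_lit 9) (.e (nat_lit 336412) (nat_lit 27) (.e (nat_lit 426011) (nat_lit 0) (.e (nat_lit 7593) (nat_lit 407) (.e (nat_lit 73775) (nat_lit 26) .nil)))))) (.g (nat_lit 1) (.e (nat_lit 432865) (nat_lit 0) .nil) .nil)))) (.nd (nat_lit 9) 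
(.lf (nat_lit 605671) (.g (nat_lit 1945) (.e (nat_lit 778462) (nat_lit 11) (.e (nat_lit 24660) (nat_lit 13) (.e (nat_lit 393260) (nat_lit 21) (.e (nat_lit 409618) (nat_lit 10) (.e (nat_lit 5024) (nat_lit 290) .nil))))) (.g (nat_lit 0) (.e (nat_lit 432552) (nat_lit 0) .nil) .nil))) 
(.lf (nat_lit 606183) (.g (nat_lit 770) (.e (nat_lit 778466) (nat_lit 11) (.e (nat_lit 24628) (nat_lit 9) (.e (nat_lit 336424) (nat_lit 28) .nil))) (.g (nat_lit 0) (.e (nat_lit 433219) (nat_lit 0) .nil) .nil)))))))) (.nd (nat_lit 5) (.nd (nat_lit 6) (.nd (nat_lit 7) (.nd (nat_lit 8) (.nd (nat_lit 9) 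
(.lf (nat_lit 605207) (.g (nat_lit 1552) (.e (nat_lit 778326) (nat_lit 6) (.e (nat_lit 81947) (nat_lit 20) (.e (nat_lit 2006) (nat_lit 138) (.e (nat_lit 671762) (nat_lit 4) (.e (nat_lit 65622) (nat_lit 12) .nil))))) (.g (nat_lit 0) (.e (nat_lit 431848) (nat_lit 0) .nil) .nil))) 
(.lf (nat_lit 605719) (.g (nat_lit 873) (.e (nat_lit 778464) (nat_lit 11) (.e (nat_lit 24606) (nat_lit 3) (.e (nat_lit 98370) (nat_lit 28) (.e (nat_lit 450304) (nat_lit 3) .nil)))) (.g (nat_lit 0) (.e (nat_lit 432616) (nat_lit 0) .nil) .nil)))) (.nd (nat_lit 9) 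
(.lf (nat_lit 605463) (.g (nat_lit 3427) (.e (nat_lit 778462) (nat_lit 11) (.e (nat_lit 24608) (nat_lit 3) (.e (nat_lit 98365) (nat_lit 26) (.e (nat_lit 426188) (nat_lit 9) (.e (nat_lit 426428) (nat_lit 17) (.e (nat_lit 90165) (nat_lit 12) (.e (nat_lit 164045) (nat_lit 55) .nil))))))) (.g (nat_lit 1) (.e (nat_lit 432274) (nat_lit 0) .nil) .nil))) 
(.lf (nat_lit 605975) (.g (nat_lit 2262) (.e (nat_lit 778466) (nat_lit 11) (.e (nat_lit 24606) (nat_lit 3) (.e (nat_lit 98373) (nat_lit 29) (.e (nat_lit 450586) (nat_lit 10) (.e (nat_lit 573477) (nat_lit 12) .nil))))) (.g (nat_lit 0) (.e (nat_lit 432944) (nat_lit 0) .nil) .nil))))) (.nd (nat_lit 8) (.nd (nat_lit 9) 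
(.lf (nat_lit 605335) (.g (nat_lit 2014) (.e (nat_lit 778460) (nat_lit 11) (.e (nat_lit 24627) (nat_lit 9) (.e (nat_lit 336443) (nat_lit 32) (.e (nat_lit 466969) (nat_lit 21) (.e (nat_lit 164332) (nat_lit 230) .nil))))) (.g (nat_lit 0) (.e (nat_lit 432122) (nat_lit 0) .nil) .nil))) 
(.lf (nat_lit 605847) (.g (nat_lit 722) (.e (nat_lit 778464) (nat_lit 11) (.e (nat_lit 24657) (nat_lit 13) (.e (nat_lit 393281) (nat_lit 23) .nil))) (.g (nat_lit 0) (.e (nat_lit 432759) (nat_lit 0) .nil) .nil)))) (.nd (nat_lit 9) 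
(.lf (nat_lit 605591) (.g (nat_lit 2109) (.e (nat_lit 778462) (nat_lit 11) (.e (nat_lit 24628) (nat_lit 9) (.e (nat_lit 336443) (nat_lit 32) (.e (nat_lit 466972) (nat_lit 21) (.e (nat_lit 164332) (nat_lit 230) (.e (nat_lit 163845) (nat_lit 0) (.e (nat_lit 3617) (nat_lit 227) .nil))))))) (.g (nat_lit 1) (.e (nat_lit 432441) (nat_lit 0) .nil) .nil))) 
(.lf (nat_lit 606103) (.g (nat_lit 3123) (.e (nat_lit 778466) (nat_lit 11) (.e (nat_lit 24617) (nat_lit 7) (.e (nat_lit 319534) (nat_lit 16) (.e (nat_lit 286756) (nat_lit 10) (.e (nat_lit 344168) (nat_lit 40) (.e (nat_lit 679680) (nat_lit 15) (.e (nat_lit 57612) (nat_lit 116) .nil))))))) (.g (nat_lit 1) (.e (nat_lit 433133) (nat_lit 0) .nil) .nil)))))) 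
(.nd (nat_lit 7) (.nd (nat_lit 8) (.nd (nat_lit 9) 
(.lf (nat_lit 605271) (.g (nat_lit 2186) (.e (nat_lit 778362) (nat_lit 9) (.e (nat_lit 295) (nat_lit 21) (.e (nat_lit 336027) (nat_lit 3) (.e (nat_lit 98373) (nat_lit 29) (.e (nat_lit 450586) (nat_lit 10) .nil))))) (.g (nat_lit 0) (.e (nat_lit 431986) (nat_lit 0) .nil) .nil))) 
(.lf (nat_lit 605783) (.g (nat_lit 2419) (.e (nat_lit 778464) (nat_lit 11) (.e (nat_lit 24617) (nat_lit 7) (.e (nat_lit 319533) (nat_lit 16) (.e (nat_lit 286753) (nat_lit 10) (.e (nat_lit 344160) (nat_lit 37) (.e (nat_lit 647195) (nat_lit 9) (.e (nat_lit 1014) (nat_lit 81) (.e (nat_lit 2328) (nat_lit 151) .nil)))))))) (.g (nat_lit 1) (.e (nat_lit 432688) (nat_lit 0) .nil) .nil)))) 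
(.nd (nat_lit 9) 
(.lf (nat_lit 605527) (.g (nat_lit 3043) (.e (nat_lit 778462) (nat_lit 11) (.e (nat_lit 24609) (nat_lit 3) (.e (nat_lit 98373) (nat_lit 29) (.e (nat_lit 450587) (nat_lit 10) (.e (nat_lit 573478) (nat_lit 12) (.e (nat_lit 65280) (nat_lit 55) .nil)))))) (.g (nat_lit 1) (.e (nat_lit 432355) (nat_lit 0) .nil) .nil))) 
(.lf (nat_lit 606039) (.g (nat_lit 2710) (.e (nat_lit 778466) (nat_lit 11) (.e (nat_lit 24617) (nat_lit 7) (.e (nat_lit 319531) (nat_lit 16) (.e (nat_lit 286759) (nat_lit 12) (.e (nat_lit 385115) (nat_lit 53) (.e (nat_lit 811034) (nat_lit 11) (.e (nat_lit 879) (nat_lit 75) .nil))))))) (.g (nat_lit 1) (.e (nat_lit 433039) (nat_lit 0) .nil) .nil))))) (.nd (nat_lit 8) (.nd (nat_lit 9) 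
(.lf (nat_lit 605399) (.g (nat_lit 1239) (.e (nat_lit 778462) (nat_lit 11) (.e (nat_lit 24604) (nat_lit 2) (.e (nat_lit 90178) (nat_lit 15) (.e (nat_lit 188441) (nat_lit 20) .nil)))) (.g (nat_lit 0) (.e (nat_lit 432201) (nat_lit 0) .nil) .nil))) 
(.lf (nat_lit 605911) (.g (nat_lit 2064) (.e (nat_lit 778465) (nat_lit 11) (.e (nat_lit 24617) (nat_lit 7) (.e (nat_lit 319533) (nat_lit 16) (.e (nat_lit 286759) (nat_lit 12) (.e (nat_lit 385115) (nat_lit 53) .nil))))) (.g (nat_lit 0) (.e (nat_lit 432849) (nat_lit 0) .nil) .nil)))) (.nd (nat_lit 9) 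
(.lf (nat_lit 605655) (.g (nat_lit 1087) (.e (nat_lit 778462) (nat_lit 11) (.e (nat_lit 24658) (nat_lit 13) (.e (nat_lit 393298) (nat_lit 27) (.e (nat_lit 491560) (nat_lit 10) .nil)))) (.g (nat_lit 0) (.e (nat_lit 432536) (nat_lit 0) .nil) .nil))) 
(.lf (nat_lit 606167) (.g (nat_lit 2384) (.e (nat_lit 778466) (nat_lit 11) (.e (nat_lit 24617) (nat_lit 7) (.e (nat_lit 319534) (nat_lit 16) (.e (nat_lit 286759) (nat_lit 12) (.e (nat_lit 385115) (nat_lit 53) (.e (nat_lit 811034) (nat_lit 11) (.e (nat_lit 879) (nat_lit 75) .nil))))))) (.g (nat_lit 1) (.e (nat_lit 433202) (nat_lit 0) .nil) .nil))))))) 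
(.nd (nat_lit 6) (.nd (nat_lit 7) (.nd (nat_lit 8) (.nd (nat_lit 9) 
(.lf (nat_lit 605239) (.g (nat_lit 2228) (.e (nat_lit 778327) (nat_lit 6) (.e (nat_lit 81957) (nat_lit 24) (.e (nat_lit 123197) (nat_lit 266) (.e (nat_lit 57435) (nat_lit 17) (.e (nat_lit 376835) (nat_lit 0) (.e (nat_lit 3629) (nat_lit 227) .nil)))))) (.g (nat_lit 1) (.e (nat_lit 431903) (nat_lit 0) .nil) .nil))) 
(.lf (nat_lit 605751) (.g (nat_lit 2034) (.e (nat_lit 778464) (nat_lit 11) (.e (nat_lit 24617) (nat_lit 7) (.e (nat_lit 319531) (nat_lit 16) (.e (nat_lit 286759) (nat_lit 12) (.e (nat_lit 385113) (nat_lit 53) (.e (nat_lit 811031) (nat_lit 11) (.e (nat_lit 883) (nat_lit 75) .nil))))))) (.g (nat_lit 1) (.e (nat_lit 432653) (nat_lit 0) .nil) .nil)))) (.nd (nat_lit 9) 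
(.lf (nat_lit 605495) (.g (nat_lit 3089) (.e (nat_lit 778462) (nat_lit 11) (.e (nat_lit 24608) (nat_lit 3) (.e (nat_lit 98365) (nat_lit 26) (.e (nat_lit 426306) (nat_lit 12) (.e (nat_lit 475179) (nat_lit 24) (.e (nat_lit 516100) (nat_lit 0) (.e (nat_lit 3651) (nat_lit 227) .nil))))))) (.g (nat_lit 1) (.e (nat_lit 432306) (nat_lit 0) .nil) .nil))) 
(.lf (nat_lit 606007) (.g (nat_lit 1328) (.e (nat_lit 778466) (nat_lit 11) (.e (nat_lit 24617) (nat_lit 7) (.e (nat_lit 319504) (nat_lit 10) (.e (nat_lit 720) (nat_lit 64) .nil)))) (.g (nat_lit 0) (.e (nat_lit 432988) (nat_lit 0) .nil) .nil))))) (.nd (nat_lit 8) (.nd (nat_lit 9) 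
(.lf (nat_lit 605367) (.g (nat_lit 1225) (.e (nat_lit 778461) (nat_lit 11) (.e (nat_lit 24628) (nat_lit 9) (.e (nat_lit 336438) (nat_lit 31) (.e (nat_lit 466688) (nat_lit 5) .nil)))) (.g (nat_lit 0) (.e (nat_lit 432163) (nat_lit 0) .nil) .nil))) 
(.lf (nat_lit 605879) (.g (nat_lit 3084) (.e (nat_lit 778465) (nat_lit 11) (.e (nat_lit 24616) (nat_lit 7) (.e (nat_lit 319530) (nat_lit 16) (.e (nat_lit 286759) (nat_lit 12) (.e (nat_lit 385115) (nat_lit 53) (.e (nat_lit 811032) (nat_lit 11) (.e (nat_lit 883) (nat_lit 75) .nil))))))) (.g (nat_lit 1) (.e (nat_lit 432817) (nat_lit 0) .nil) .nil)))) (.nd (nat_lit 9) 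
(.lf (nat_lit 605623) (.g (nat_lit 2675) (.e (nat_lit 778462) (nat_lit 11) (.e (nat_lit 24655) (nat_lit 13) (.e (nat_lit 393301) (nat_lit 27) (.e (nat_lit 491558) (nat_lit 10) (.e (nat_lit 352000) (nat_lit 44) .nil))))) (.g (nat_lit 0) (.e (nat_lit 432485) (nat_lit 0) .nil) .nil))) 
(.lf (nat_lit 606135) (.g (nat_lit 4141) (.e (nat_lit 778466) (nat_lit 11) (.e (nat_lit 24617) (nat_lit 7) (.e (nat_lit 319534) (nat_lit 16) (.e (nat_lit 286756) (nat_lit 10) (.e (nat_lit 344160) (nat_lit 37) (.e (nat_lit 647190) (nat_lit 9) (.e (nat_lit 1045) (nat_lit 81) (.e (nat_lit 2342) (nat_lit 151) .nil)))))))) (.g (nat_lit 1) (.e (nat_lit 433165) (nat_lit 0) .nil) .nil)))))) 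
(.nd (nat_lit 7) (.nd (nat_lit 8) (.nd (nat_lit 9) 
(.lf (nat_lit 605303) (.g (nat_lit 2489) (.e (nat_lit 778459) (nat_lit 11) (.e (nat_lit 24660) (nat_lit 13) (.e (nat_lit 393260) (nat_lit 21) (.e (nat_lit 409616) (nat_lit 10) (.e (nat_lit 4926) (nat_lit 287) .nil))))) (.g (nat_lit 0) (.e (nat_lit 432088) (nat_lit 0) .nil) .nil))) 
(.lf (nat_lit 605815) (.g (nat_lit 2785) (.e (nat_lit 778464) (nat_lit 11) (.e (nat_lit 24617) (nat_lit 7) (.e (nat_lit 319534) (nat_lit 16) (.e (nat_lit 286756) (nat_lit 10) (.e (nat_lit 344160) (nat_lit 37) (.e (nat_lit 647196) (nat_lit 9) (.e (nat_lit 991) (nat_lit 81) (.e (nat_lit 2349) (nat_lit 151) .nil)))))))) (.g (nat_lit 1) (.e (nat_lit 432724) (nat_lit 0) .nil) .nil)))) (.nd (nat_lit 9) 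
(.lf (nat_lit 605559) (.g (nat_lit 2185) (.e (nat_lit 778462) (nat_lit 11) (.e (nat_lit 24628) (nat_lit 9) (.e (nat_lit 336443) (nat_lit 32) (.e (nat_lit 466969) (nat_lit 21) (.e (nat_lit 164332) (nat_lit 230) (.e (nat_lit 163847) (nat_lit 0) (.e (nat_lit 3649) (nat_lit 227) .nil))))))) (.g (nat_lit 1) (.e (nat_lit 432405) (nat_lit 0) .nil) .nil))) 
(.lf (nat_lit 606071) (.g (nat_lit 3496) (.e (nat_lit 778466) (nat_lit 11) (.e (nat_lit 24617) (nat_lit 7) (.e (nat_lit 319533) (nat_lit 16) (.e (nat_lit 286753) (nat_lit 10) (.e (nat_lit 344160) (nat_lit 37) (.e (nat_lit 647196) (nat_lit 9) (.e (nat_lit 991) (nat_lit 81) (.e (nat_lit 2349) (nat_lit 151) .nil)))))))) (.g (nat_lit 1) (.e (nat_lit 433072) (nat_lit 0) .nil) .nil))))) 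
(.nd (nat_lit 8) (.nd (nat_lit 9) 
(.lf (nat_lit 605431) (.g (nat_lit 1587) (.e (nat_lit 778462) (nat_lit 11) (.e (nat_lit 24604) (nat_lit 2) (.e (nat_lit 90185) (nat_lit 17) (.e (nat_lit 237605) (nat_lit 9) (.e (nat_lit 426436) (nat_lit 18) (.e (nat_lit 98324) (nat_lit 17) (.e (nat_lit 3659) (nat_lit 227) .nil))))))) (.g (nat_lit 1) (.e (nat_lit 432233) (nat_lit 0) .nil) .nil))) 
(.lf (nat_lit 605943) (.g (nat_lit 867) (.e (nat_lit 778465) (nat_lit 11) (.e (nat_lit 24655) (nat_lit 13) (.e (nat_lit 393236) (nat_lit 17) .nil))) (.g (nat_lit 0) (.e (nat_lit 432881) (nat_lit 0) .nil) .nil)))) (.nd (nat_lit 9) 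
(.lf (nat_lit 605687) (.g (nat_lit 2029) (.e (nat_lit 778463) (nat_lit 11) (.e (nat_lit 24608) (nat_lit 3) (.e (nat_lit 98359) (nat_lit 26) (.e (nat_lit 426286) (nat_lit 10) .nil)))) (.g (nat_lit 0) (.e (nat_lit 432571) (nat_lit 0) .nil) .nil))) 
(.lf (nat_lit 606199) (.g (nat_lit 2121) (.e (nat_lit 778466) (nat_lit 11) (.e (nat_lit 24658) (nat_lit 13) (.e (nat_lit 393300) (nat_lit 27) (.e (nat_lit 491558) (nat_lit 10) (.e (nat_lit 344180) (nat_lit 44) .nil))))) (.g (nat_lit 0) (.e (nat_lit 433235) (nat_lit 0) .nil) .nil))))))))) (.nd (nat_lit 4) (.nd (nat_lit 5) (.nd (nat_lit 6) (.nd (nat_lit 7) (.nd (nat_lit 8) (.nd (nat_lit 9) 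
(.lf (nat_lit 605199) (.g (nat_lit 2680) (.e (nat_lit 778326) (nat_lit 6) (.e (nat_lit 81924) (nat_lit 0) (.e (nat_lit 3747) (nat_lit 228) (.e (nat_lit 786480) (nat_lit 29) (.e (nat_lit 352262) (nat_lit 0) (.e (nat_lit 3632) (nat_lit 227) .nil)))))) (.g (nat_lit 1) (.e (nat_lit 431839) (nat_lit 0) .nil) .nil))) 
(.lf (nat_lit 605711) (.g (nat_lit 3365) (.e (nat_lit 778464) (nat_lit 11) (.e (nat_lit 24604) (nat_lit 2) (.e (nat_lit 90170) (nat_lit 13) (.e (nat_lit 172106) (nat_lit 10) (.e (nat_lit 434248) (nat_lit 28) .nil))))) (.g (nat_lit 0) (.e (nat_lit 432608) (nat_lit 0) .nil) .nil)))) (.nd (nat_lit 9) 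
(.lf (nat_lit 605455) (.g (nat_lit 1584) (.e (nat_lit 778462) (nat_lit 11) (.e (nat_lit 24608) (nat_lit 3) (.e (nat_lit 98365) (nat_lit 26) (.e (nat_lit 426187) (nat_lit 9) (.e (nat_lit 426436) (nat_lit 18) .nil))))) (.g (nat_lit 0) (.e (nat_lit 432266) (nat_lit 0) .nil) .nil))) 
(.lf (nat_lit 605967) (.g (nat_lit 2107) (.e (nat_lit 778466) (nat_lit 11) (.e (nat_lit 24604) (nat_lit 2) (.e (nat_lit 90178) (nat_lit 15) (.e (nat_lit 188436) (nat_lit 20) .nil)))) (.g (nat_lit 0) (.e (nat_lit 432936) (nat_lit 0) .nil) .nil))))) (.nd (nat_lit 8) (.nd (nat_lit 9) 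
(.lf (nat_lit 605327) (.g (nat_lit 1698) (.e (nat_lit 778460) (nat_lit 11) (.e (nat_lit 24617) (nat_lit 7) (.e (nat_lit 319533) (nat_lit 16) (.e (nat_lit 286758) (nat_lit 12) .nil)))) (.g (nat_lit 0) (.e (nat_lit 432112) (nat_lit 0) .nil) .nil))) 
(.lf (nat_lit 605839) (.g (nat_lit 2474) (.e (nat_lit 778464) (nat_lit 11) (.e (nat_lit 24625) (nat_lit 9) (.e (nat_lit 336443) (nat_lit 32) (.e (nat_lit 466972) (nat_lit 21) (.e (nat_lit 164330) (nat_lit 230) .nil))))) (.g (nat_lit 0) (.e (nat_lit 432750) (nat_lit 0) .nil) .nil)))) (.nd (nat_lit 9) 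
(.lf (nat_lit 605583) (.g (nat_lit 2331) (.e (nat_lit 778462) (nat_lit 11) (.e (nat_lit 24628) (nat_lit 9) (.e (nat_lit 336443) (nat_lit 32) (.e (nat_lit 466972) (nat_lit 21) (.e (nat_lit 164332) (nat_lit 230) (.e (nat_lit 163843) (nat_lit 0) (.e (nat_lit 3648) (nat_lit 227) .nil))))))) (.g (nat_lit 1) (.e (nat_lit 432433) (nat_lit 0) .nil) .nil))) 
(.lf (nat_lit 606095) (.g (nat_lit 2637) (.e (nat_lit 778466) (nat_lit 11) (.e (nat_lit 24617) (nat_lit 7) (.e (nat_lit 319534) (nat_lit 16) (.e (nat_lit 286756) (nat_lit 10) (.e (nat_lit 352000) (nat_lit 39) (.e (nat_lit 663585) (nat_lit 12) (.e (nat_lit 164050) (nat_lit 55) .nil))))))) (.g (nat_lit 1) (.e (nat_lit 433125) (nat_lit 0) .nil) .nil)))))) 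
(.nd (nat_lit 7) (.nd (nat_lit 8) (.nd (nat_lit 9) 
(.lf (nat_lit 605263) (.g (nat_lit 364) (.e (nat_lit 778360) (nat_lit 9) (.e (nat_lit 334) (nat_lit 26) (.e (nat_lit 384768) (nat_lit 15) .nil))) (.g (nat_lit 0) (.e (nat_lit 431975) (nat_lit 0) .nil) .nil))) 
(.lf (nat_lit 605775) (.g (nat_lit 2531) (.e (nat_lit 778464) (nat_lit 11) (.e (nat_lit 24617) (nat_lit 7) (.e (nat_lit 319533) (nat_lit 16) (.e (nat_lit 286753) (nat_lit 10) (.e (nat_lit 344160) (nat_lit 37) (.e (nat_lit 647190) (nat_lit 9) (.e (nat_lit 1005) (nat_lit 81) (.e (nat_lit 2345) (nat_lit 151) .nil)))))))) (.g (nat_lit 1) (.e (nat_lit 432680) (nat_lit 0) .nil) .nil)))) 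
(.nd (nat_lit 9) 
(.lf (nat_lit 605519) (.g (nat_lit 2263) (.e (nat_lit 778462) (nat_lit 11) (.e (nat_lit 24608) (nat_lit 3) (.e (nat_lit 98381) (nat_lit 31) (.e (nat_lit 466967) (nat_lit 20) (.e (nat_lit 3304) (nat_lit 202) (.e (nat_lit 573477) (nat_lit 12) (.e (nat_lit 65280) (nat_lit 55) .nil))))))) (.g (nat_lit 1) (.e (nat_lit 432345) (nat_lit 0) .nil) .nil))) 
(.lf (nat_lit 606031) (.g (nat_lit 3475) (.e (nat_lit 778466) (nat_lit 11) (.e (nat_lit 24617) (nat_lit 7) (.e (nat_lit 319530) (nat_lit 16) (.e (nat_lit 286759) (nat_lit 12) (.e (nat_lit 385115) (nat_lit 53) (.e (nat_lit 811031) (nat_lit 11) (.e (nat_lit 883) (nat_lit 75) .nil))))))) (.g (nat_lit 1) (.e (nat_lit 433027) (nat_lit 0) .nil) .nil))))) (.nd (nat_lit 8) (.nd (nat_lit 9) 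
(.lf (nat_lit 605391) (.g (nat_lit 1166) (.e (nat_lit 778462) (nat_lit 11) (.e (nat_lit 24604) (nat_lit 2) (.e (nat_lit 90176) (nat_lit 15) (.e (nat_lit 188439) (nat_lit 20) (.e (nat_lit 3296) (nat_lit 202) (.e (nat_lit 573476) (nat_lit 12) (.e (nat_lit 65280) (nat_lit 55) .nil))))))) (.g (nat_lit 1) (.e (nat_lit 432193) (nat_lit 0) .nil) .nil))) 
(.lf (nat_lit 605903) (.g (nat_lit 2674) (.e (nat_lit 778465) (nat_lit 11) (.e (nat_lit 24617) (nat_lit 7) (.e (nat_lit 319533) (nat_lit 16) (.e (nat_lit 286753) (nat_lit 10) (.e (nat_lit 344160) (nat_lit 37) (.e (nat_lit 647203) (nat_lit 14) (.e (nat_lit 2505) (nat_lit 157) (.e (nat_lit 879) (nat_lit 75) .nil)))))))) (.g (nat_lit 1) (.e (nat_lit 432841) (nat_lit 0) .nil) .nil)))) 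
(.nd (nat_lit 9) 
(.lf (nat_lit 605647) (.g (nat_lit 2771) (.e (nat_lit 778462) (nat_lit 11) (.e (nat_lit 24658) (nat_lit 13) (.e (nat_lit 393281) (nat_lit 23) (.e (nat_lit 426100) (nat_lit 1) (.e (nat_lit 164332) (nat_lit 230) (.e (nat_lit 163843) (nat_lit 0) (.e (nat_lit 3653) (nat_lit 227) .nil))))))) (.g (nat_lit 1) (.e (nat_lit 432527) (nat_lit 0) .nil) .nil))) 
(.lf (nat_lit 606159) (.g (nat_lit 1012) (.e (nat_lit 778466) (nat_lit 11) (.e (nat_lit 24617) (nat_lit 7) (.e (nat_lit 319534) (nat_lit 16) (.e (nat_lit 286759) (nat_lit 12) .nil)))) (.g (nat_lit 0) (.e (nat_lit 433192) (nat_lit 0) .nil) .nil))))))) (.nd (nat_lit 6) (.nd (nat_lit 7) (.nd (nat_lit 8) (.nd (nat_lit 9) 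
(.lf (nat_lit 605231) (.g (nat_lit 1660) (.e (nat_lit 778327) (nat_lit 6) (.e (nat_lit 81949) (nat_lit 21) (.e (nat_lit 57931) (nat_lit 282) (.e (nat_lit 163945) (nat_lit 20) .nil)))) (.g (nat_lit 0) (.e (nat_lit 431883) (nat_lit 0) .nil) .nil))) 
(.lf (nat_lit 605743) (.g (nat_lit 1675) (.e (nat_lit 778464) (nat_lit 11) (.e (nat_lit 24617) (nat_lit 7) (.e (nat_lit 319529) (nat_lit 16) (.e (nat_lit 286759) (nat_lit 12) (.e (nat_lit 385115) (nat_lit 53) .nil))))) (.g (nat_lit 0) (.e (nat_lit 432643) (nat_lit 0) .nil) .nil)))) (.nd (nat_lit 9) 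
(.lf (nat_lit 605487) (.g (nat_lit 3443) (.e (nat_lit 778462) (nat_lit 11) (.e (nat_lit 24608) (nat_lit 3) (.e (nat_lit 98365) (nat_lit 26) (.e (nat_lit 426306) (nat_lit 12) (.e (nat_lit 475177) (nat_lit 24) (.e (nat_lit 516097) (nat_lit 0) (.e (nat_lit 3669) (nat_lit 227) .nil))))))) (.g (nat_lit 1) (.e (nat_lit 432298) (nat_lit 0) .nil) .nil))) 
(.lf (nat_lit 605999) (.g (nat_lit 2494) (.e (nat_lit 778466) (nat_lit 11) (.e (nat_lit 24616) (nat_lit 7) (.e (nat_lit 319530) (nat_lit 16) (.e (nat_lit 286759) (nat_lit 12) (.e (nat_lit 385094) (nat_lit 49) (.e (nat_lit 778548) (nat_lit 14) (.e (nat_lit 992) (nat_lit 81) (.e (nat_lit 917) (nat_lit 75) .nil)))))))) (.g (nat_lit 1) (.e (nat_lit 432980) (nat_lit 0) .nil) .nil))))) 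
(.nd (nat_lit 8) (.nd (nat_lit 9) 
(.lf (nat_lit 605359) (.g (nat_lit 2162) (.e (nat_lit 778460) (nat_lit 11) (.e (nat_lit 24658) (nat_lit 13) (.e (nat_lit 393281) (nat_lit 23) (.e (nat_lit 426100) (nat_lit 1) (.e (nat_lit 164305) (nat_lit 226) .nil))))) (.g (nat_lit 0) (.e (nat_lit 432153) (nat_lit 0) .nil) .nil))) 
(.lf (nat_lit 605871) (.g (nat_lit 2650) (.e (nat_lit 778465) (nat_lit 11) (.e (nat_lit 24608) (nat_lit 3) (.e (nat_lit 98372) (nat_lit 29) (.e (nat_lit 450587) (nat_lit 10) (.e (nat_lit 573478) (nat_lit 12) .nil))))) (.g (nat_lit 0) (.e (nat_lit 432808) (nat_lit 0) .nil) .nil)))) (.nd (nat_lit 9) 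
(.lf (nat_lit 605615) (.g (nat_lit 2005) (.e (nat_lit 778462) (nat_lit 11) (.e (nat_lit 24655) (nat_lit 13) (.e (nat_lit 393232) (nat_lit 17) (.e (nat_lit 7593) (nat_lit 407) (.e (nat_lit 81664) (nat_lit 26) .nil))))) (.g (nat_lit 0) (.e (nat_lit 432471) (nat_lit 0) .nil) .nil))) 
(.lf (nat_lit 606127) (.g (nat_lit 3549) (.e (nat_lit 778466) (nat_lit 11) (.e (nat_lit 24617) (nat_lit 7) (.e (nat_lit 319534) (nat_lit 16) (.e (nat_lit 286756) (nat_lit 10) (.e (nat_lit 344160) (nat_lit 37) (.e (nat_lit 647190) (nat_lit 9) (.e (nat_lit 1005) (nat_lit 81) (.e (nat_lit 2343) (nat_lit 151) .nil)))))))) (.g (nat_lit 1) (.e (nat_lit 433157) (nat_lit 0) .nil) .nil)))))) 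
(.nd (nat_lit 7) (.nd (nat_lit 8) (.nd (nat_lit 9) 
(.lf (nat_lit 605295) (.g (nat_lit 736) (.e (nat_lit 778459) (nat_lit 11) (.e (nat_lit 24658) (nat_lit 13) (.e (nat_lit 393281) (nat_lit 23) .nil))) (.g (nat_lit 0) (.e (nat_lit 432080) (nat_lit 0) .nil) .nil))) 
(.lf (nat_lit 605807) (.g (nat_lit 2108) (.e (nat_lit 778464) (nat_lit 11) (.e (nat_lit 24617) (nat_lit 7) (.e (nat_lit 319534) (nat_lit 16) (.e (nat_lit 286756) (nat_lit 10) (.e (nat_lit 344160) (nat_lit 37) (.e (nat_lit 647190) (nat_lit 9) (.e (nat_lit 984) (nat_lit 81) (.e (nat_lit 2315) (nat_lit 151) .nil)))))))) (.g (nat_lit 1) (.e (nat_lit 432716) (nat_lit 0) .nil) .nil)))) (.nd (nat_lit 9) 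
(.lf (nat_lit 605551) (.g (nat_lit 3375) (.e (nat_lit 778462) (nat_lit 11) (.e (nat_lit 24628) (nat_lit 9) (.e (nat_lit 336443) (nat_lit 32) (.e (nat_lit 466969) (nat_lit 21) (.e (nat_lit 164332) (nat_lit 230) (.e (nat_lit 163843) (nat_lit 0) (.e (nat_lit 3653) (nat_lit 227) .nil))))))) (.g (nat_lit 1) (.e (nat_lit 432397) (nat_lit 0) .nil) .nil))) 
(.lf (nat_lit 606063) (.g (nat_lit 2950) (.e (nat_lit 778466) (nat_lit 11) (.e (nat_lit 24617) (nat_lit 7) (.e (nat_lit 319533) (nat_lit 16) (.e (nat_lit 286753) (nat_lit 10) (.e (nat_lit 344160) (nat_lit 37) (.e (nat_lit 647190) (nat_lit 9) (.e (nat_lit 1045) (nat_lit 81) (.e (nat_lit 2342) (nat_lit 151) .nil)))))))) (.g (nat_lit 1) (.e (nat_lit 433064) (nat_lit 0) .nil) .nil))))) 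
(.nd (nat_lit 8) (.nd (nat_lit 9) 
(.lf (nat_lit 605423) (.g (nat_lit 1762) (.e (nat_lit 778462) (nat_lit 11) (.e (nat_lit 24604) (nat_lit 2) (.e (nat_lit 90185) (nat_lit 17) (.e (nat_lit 237605) (nat_lit 9) (.e (nat_lit 426436) (nat_lit 18) (.e (nat_lit 98321) (nat_lit 17) (.e (nat_lit 3649) (nat_lit 227) .nil))))))) (.g (nat_lit 1) (.e (nat_lit 432225) (nat_lit 0) .nil) .nil))) 
(.lf (nat_lit 605935) (.g (nat_lit 83) (.e (nat_lit 778465) (nat_lit 11) (.e (nat_lit 24629) (nat_lit 9) (.e (nat_lit 336438) (nat_lit 31) .nil))) (.g (nat_lit 0) (.e (nat_lit 432873) (nat_lit 0) .nil) .nil)))) (.nd (nat_lit 9) 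
(.lf (nat_lit 605679) (.g (nat_lit 1862) (.e (nat_lit 778463) (nat_lit 11) (.e (nat_lit 24604) (nat_lit 2) (.e (nat_lit 90178) (nat_lit 15) (.e (nat_lit 188441) (nat_lit 20) .nil)))) (.g (nat_lit 0) (.e (nat_lit 432560) (nat_lit 0) .nil) .nil))) 
(.lf (nat_lit 606191) (.g (nat_lit 3056) (.e (nat_lit 778466) (nat_lit 11) (.e (nat_lit 24632) (nat_lit 9) (.e (nat_lit 336388) (nat_lit 27) (.e (nat_lit 426011) (nat_lit 0) (.e (nat_lit 7591) (nat_lit 407) (.e (nat_lit 73775) (nat_lit 26) .nil)))))) (.g (nat_lit 1) (.e (nat_lit 433227) (nat_lit 0) .nil) .nil)))))))) 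
(.nd (nat_lit 5) (.nd (nat_lit 6) (.nd (nat_lit 7) (.nd (nat_lit 8) (.nd (nat_lit 9) 
(.lf (nat_lit 605215) (.g (nat_lit 1227) (.e (nat_lit 778326) (nat_lit 6) (.e (nat_lit 81957) (nat_lit 24) (.e (nat_lit 123195) (nat_lit 266) (.e (nat_lit 57350) (nat_lit 0) .nil)))) (.g (nat_lit 0) (.e (nat_lit 431863) (nat_lit 0) .nil) .nil))) 
(.lf (nat_lit 605727) (.g (nat_lit 3198) (.e (nat_lit 778464) (nat_lit 11) (.e (nat_lit 24608) (nat_lit 3) (.e (nat_lit 98373) (nat_lit 29) (.e (nat_lit 450586) (nat_lit 10) (.e (nat_lit 573478) (nat_lit 12) .nil))))) (.g (nat_lit 0) (.e (nat_lit 432625) (nat_lit 0) .nil) .nil)))) (.nd (nat_lit 9) 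
(.lf (nat_lit 605471) (.g (nat_lit 2375) (.e (nat_lit 778462) (nat_lit 11) (.e (nat_lit 24608) (nat_lit 3) (.e (nat_lit 98365) (nat_lit 26) (.e (nat_lit 426188) (nat_lit 9) (.e (nat_lit 426436) (nat_lit 18) (.e (nat_lit 98321) (nat_lit 17) (.e (nat_lit 3653) (nat_lit 227) .nil))))))) (.g (nat_lit 1) (.e (nat_lit 432282) (nat_lit 0) .nil) .nil))) 
(.lf (nat_lit 605983) (.g (nat_lit 2790) (.e (nat_lit 778466) (nat_lit 11) (.e (nat_lit 24608) (nat_lit 3) (.e (nat_lit 98365) (nat_lit 26) (.e (nat_lit 426187) (nat_lit 9) (.e (nat_lit 426438) (nat_lit 18) (.e (nat_lit 98323) (nat_lit 17) (.e (nat_lit 3719) (nat_lit 227) .nil))))))) (.g (nat_lit 1) (.e (nat_lit 432962) (nat_lit 0) .nil) .nil))))) (.nd (nat_lit 8) (.nd (nat_lit 9) 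
(.lf (nat_lit 605343) (.g (nat_lit 2535) (.e (nat_lit 778460) (nat_lit 11) (.e (nat_lit 24628) (nat_lit 9) (.e (nat_lit 336443) (nat_lit 32) (.e (nat_lit 466969) (nat_lit 21) (.e (nat_lit 164332) (nat_lit 230) (.e (nat_lit 163852) (nat_lit 0) (.e (nat_lit 3721) (nat_lit 227) .nil))))))) (.g (nat_lit 1) (.e (nat_lit 432130) (nat_lit 0) .nil) .nil))) 
(.lf (nat_lit 605855) (.g (nat_lit 3496) (.e (nat_lit 778465) (nat_lit 11) (.e (nat_lit 24604) (nat_lit 2) (.e (nat_lit 90170) (nat_lit 13) (.e (nat_lit 172106) (nat_lit 10) (.e (nat_lit 434243) (nat_lit 28) (.e (nat_lit 573477) (nat_lit 12) (.e (nat_lit 57575) (nat_lit 55) .nil))))))) (.g (nat_lit 1) (.e (nat_lit 432792) (nat_lit 0) .nil) .nil)))) (.nd (nat_lit 9) 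
(.lf (nat_lit 605599) (.g (nat_lit 2161) (.e (nat_lit 778462) (nat_lit 11) (.e (nat_lit 24628) (nat_lit 9) (.e (nat_lit 336443) (nat_lit 32) (.e (nat_lit 466972) (nat_lit 21) (.e (nat_lit 164332) (nat_lit 230) (.e (nat_lit 163847) (nat_lit 0) (.e (nat_lit 3663) (nat_lit 227) .nil))))))) (.g (nat_lit 1) (.e (nat_lit 432449) (nat_lit 0) .nil) .nil))) 
(.lf (nat_lit 606111) (.g (nat_lit 2561) (.e (nat_lit 778466) (nat_lit 11) (.e (nat_lit 24617) (nat_lit 7) (.e (nat_lit 319534) (nat_lit 16) (.e (nat_lit 286756) (nat_lit 10) (.e (nat_lit 344169) (nat_lit 40) (.e (nat_lit 671781) (nat_lit 12) (.e (nat_lit 164050) (nat_lit 55) .nil))))))) (.g (nat_lit 1) (.e (nat_lit 433141) (nat_lit 0) .nil) .nil)))))) 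
(.nd (nat_lit 7) (.nd (nat_lit 8) (.nd (nat_lit 9) 
(.lf (nat_lit 605279) (.g (nat_lit 3149) (.e (nat_lit 778454) (nat_lit 10) (.e (nat_lit 8326) (nat_lit 69) (.e (nat_lit 557105) (nat_lit 14) (.e (nat_lit 180252) (nat_lit 10) (.e (nat_lit 573487) (nat_lit 14) .nil))))) (.g (nat_lit 0) (.e (nat_lit 432054) (nat_lit 0) .nil) .nil))) 
(.lf (nat_lit 605791) (.g (nat_lit 1964) (.e (nat_lit 778464) (nat_lit 11) (.e (nat_lit 24617) (nat_lit 7) (.e (nat_lit 319533) (nat_lit 16) (.e (nat_lit 286759) (nat_lit 12) (.e (nat_lit 385115) (nat_lit 53) .nil))))) (.g (nat_lit 0) (.e (nat_lit 432697) (nat_lit 0) .nil) .nil)))) (.nd (nat_lit 9) 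
(.lf (nat_lit 605535) (.g (nat_lit 1710) (.e (nat_lit 778462) (nat_lit 11) (.e (nat_lit 24628) (nat_lit 9) (.e (nat_lit 336438) (nat_lit 31) (.e (nat_lit 458769) (nat_lit 16) (.e (nat_lit 164294) (nat_lit 224) (.e (nat_lit 164103) (nat_lit 116) .nil)))))) (.g (nat_lit 1) (.e (nat_lit 432377) (nat_lit 0) .nil) .nil))) 
(.lf (nat_lit 606047) (.g (nat_lit 1967) (.e (nat_lit 778466) (nat_lit 11) (.e (nat_lit 24617) (nat_lit 7) (.e (nat_lit 319533) (nat_lit 16) (.e (nat_lit 286753) (nat_lit 10) (.e (nat_lit 344168) (nat_lit 40) .nil))))) (.g (nat_lit 0) (.e (nat_lit 433048) (nat_lit 0) .nil) .nil))))) (.nd (nat_lit 8) (.nd (nat_lit 9) 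
(.lf (nat_lit 605407) (.g (nat_lit 2107) (.e (nat_lit 778462) (nat_lit 11) (.e (nat_lit 24604) (nat_lit 2) (.e (nat_lit 90185) (nat_lit 17) (.e (nat_lit 237601) (nat_lit 9) (.e (nat_lit 426436) (nat_lit 18) (.e (nat_lit 98320) (nat_lit 17) (.e (nat_lit 3699) (nat_lit 227) .nil))))))) (.g (nat_lit 1) (.e (nat_lit 432209) (nat_lit 0) .nil) .nil))) 
(.lf (nat_lit 605919) (.g (nat_lit 2797) (.e (nat_lit 778465) (nat_lit 11) (.e (nat_lit 24617) (nat_lit 7) (.e (nat_lit 319534) (nat_lit 16) (.e (nat_lit 286756) (nat_lit 10) (.e (nat_lit 344160) (nat_lit 37) (.e (nat_lit 647203) (nat_lit 14) (.e (nat_lit 2505) (nat_lit 157) (.e (nat_lit 879) (nat_lit 75) .nil)))))))) (.g (nat_lit 1) (.e (nat_lit 432857) (nat_lit 0) .nil) .nil)))) 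
(.nd (nat_lit 9) 
(.lf (nat_lit 605663) (.g (nat_lit 1260) (.e (nat_lit 778462) (nat_lit 11) (.e (nat_lit 24660) (nat_lit 13) (.e (nat_lit 393238) (nat_lit 17) (.e (nat_lit 7099) (nat_lit 380) .nil)))) (.g (nat_lit 0) (.e (nat_lit 432544) (nat_lit 0) .nil) .nil))) 
(.lf (nat_lit 606175) (.g (nat_lit 807) (.e (nat_lit 778466) (nat_lit 11) (.e (nat_lit 24625) (nat_lit 9) (.e (nat_lit 336413) (nat_lit 27) .nil))) (.g (nat_lit 0) (.e (nat_lit 433210) (nat_lit 0) .nil) .nil))))))) (.nd (nat_lit 6) (.nd (nat_lit 7) (.nd (nat_lit 8) (.nd (nat_lit 9) 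
(.lf (nat_lit 605247) (.g (nat_lit 695) (.e (nat_lit 786176) (nat_lit 6) (.e (nat_lit 81946) (nat_lit 20) (.e (nat_lit 1886) (nat_lit 127) (.e (nat_lit 581652) (nat_lit 5) (.e (nat_lit 180291) (nat_lit 48) .nil))))) (.g (nat_lit 0) (.e (nat_lit 431915) (nat_lit 0) .nil) .nil))) 
(.lf (nat_lit 605759) (.g (nat_lit 1867) (.e (nat_lit 778464) (nat_lit 11) (.e (nat_lit 24617) (nat_lit 7) (.e (nat_lit 319531) (nat_lit 16) (.e (nat_lit 286759) (nat_lit 12) (.e (nat_lit 385115) (nat_lit 53) (.e (nat_lit 811038) (nat_lit 11) (.e (nat_lit 913) (nat_lit 75) .nil))))))) (.g (nat_lit 1) (.e (nat_lit 432661) (nat_lit 0) .nil) .nil)))) (.nd (nat_lit 9) 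
(.lf (nat_lit 605503) (.g (nat_lit 3034) (.e (nat_lit 778462) (nat_lit 11) (.e (nat_lit 24608) (nat_lit 3) (.e (nat_lit 98372) (nat_lit 29) (.e (nat_lit 450586) (nat_lit 10) (.e (nat_lit 573475) (nat_lit 12) (.e (nat_lit 65280) (nat_lit 55) .nil)))))) (.g (nat_lit 1) (.e (nat_lit 432316) (nat_lit 0) .nil) .nil))) 
(.lf (nat_lit 606015) (.g (nat_lit 869) (.e (nat_lit 778466) (nat_lit 11) (.e (nat_lit 24617) (nat_lit 7) (.e (nat_lit 319528) (nat_lit 16) (.e (nat_lit 286759) (nat_lit 12) .nil)))) (.g (nat_lit 0) (.e (nat_lit 432996) (nat_lit 0) .nil) .nil))))) (.nd (nat_lit 8) (.nd (nat_lit 9) 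
(.lf (nat_lit 605375) (.g (nat_lit 1947) (.e (nat_lit 778461) (nat_lit 11) (.e (nat_lit 24655) (nat_lit 13) (.e (nat_lit 393298) (nat_lit 27) (.e (nat_lit 491560) (nat_lit 10) .nil)))) (.g (nat_lit 0) (.e (nat_lit 432174) (nat_lit 0) .nil) .nil))) 
(.lf (nat_lit 605887) (.g (nat_lit 2675) (.e (nat_lit 778465) (nat_lit 11) (.e (nat_lit 24617) (nat_lit 7) (.e (nat_lit 319530) (nat_lit 16) (.e (nat_lit 286759) (nat_lit 12) (.e (nat_lit 385113) (nat_lit 53) (.e (nat_lit 811031) (nat_lit 11) (.e (nat_lit 883) (nat_lit 75) .nil))))))) (.g (nat_lit 1) (.e (nat_lit 432825) (nat_lit 0) .nil) .nil)))) (.nd (nat_lit 9) 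
(.lf (nat_lit 605631) (.g (nat_lit 654) (.e (nat_lit 778462) (nat_lit 11) (.e (nat_lit 24658) (nat_lit 13) (.e (nat_lit 393281) (nat_lit 23) (.e (nat_lit 426099) (nat_lit 1) .nil)))) (.g (nat_lit 0) (.e (nat_lit 432508) (nat_lit 0) .nil) .nil))) 
(.lf (nat_lit 606143) (.g (nat_lit 3613) (.e (nat_lit 778466) (nat_lit 11) (.e (nat_lit 24617) (nat_lit 7) (.e (nat_lit 319534) (nat_lit 16) (.e (nat_lit 286756) (nat_lit 10) (.e (nat_lit 344160) (nat_lit 37) (.e (nat_lit 647196) (nat_lit 9) (.e (nat_lit 991) (nat_lit 81) (.e (nat_lit 2308) (nat_lit 151) .nil)))))))) (.g (nat_lit 1) (.e (nat_lit 433173) (nat_lit 0) .nil) .nil)))))) 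
(.nd (nat_lit 7) (.nd (nat_lit 8) (.nd (nat_lit 9) 
(.lf (nat_lit 605311) (.g (nat_lit 1815) (.e (nat_lit 778459) (nat_lit 11) (.e (nat_lit 24660) (nat_lit 13) (.e (nat_lit 393260) (nat_lit 21) (.e (nat_lit 409623) (nat_lit 10) (.e (nat_lit 5293) (nat_lit 298) (.e (nat_lit 1001) (nat_lit 81) (.e (nat_lit 2295) (nat_lit 151) .nil))))))) (.g (nat_lit 1) (.e (nat_lit 432096) (nat_lit 0) .nil) .nil))) 
(.lf (nat_lit 605823) (.g (nat_lit 2102) (.e (nat_lit 778464) (nat_lit 11) (.e (nat_lit 24617) (nat_lit 7) (.e (nat_lit 319534) (nat_lit 16) (.e (nat_lit 286756) (nat_lit 10) (.e (nat_lit 344160) (nat_lit 37) (.e (nat_lit 647195) (nat_lit 9) (.e (nat_lit 7936) (nat_lit 81) (.e (nat_lit 2344) (nat_lit 151) .nil)))))))) (.g (nat_lit 1) (.e (nat_lit 432732) (nat_lit 0) .nil) .nil)))) 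
(.nd (nat_lit 9) 
(.lf (nat_lit 605567) (.g (nat_lit 2245) (.e (nat_lit 778462) (nat_lit 11) (.e (nat_lit 24628) (nat_lit 9) (.e (nat_lit 336443) (nat_lit 32) (.e (nat_lit 466969) (nat_lit 21) (.e (nat_lit 164332) (nat_lit 230) (.e (nat_lit 163847) (nat_lit 0) (.e (nat_lit 3660) (nat_lit 227) .nil))))))) (.g (nat_lit 1) (.e (nat_lit 432413) (nat_lit 0) .nil) .nil))) 
(.lf (nat_lit 606079) (.g (nat_lit 3453) (.e (nat_lit 778466) (nat_lit 11) (.e (nat_lit 24617) (nat_lit 7) (.e (nat_lit 319533) (nat_lit 16) (.e (nat_lit 286753) (nat_lit 10) (.e (nat_lit 344160) (nat_lit 37) (.e (nat_lit 647201) (nat_lit 12) (.e (nat_lit 65280) (nat_lit 55) .nil))))))) (.g (nat_lit 1) (.e (nat_lit 433080) (nat_lit 0) .nil) .nil))))) (.nd (nat_lit 8) (.nd (nat_lit 9) 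
(.lf (nat_lit 605439) (.g (nat_lit 2836) (.e (nat_lit 778462) (nat_lit 11) (.e (nat_lit 24605) (nat_lit 2) (.e (nat_lit 90170) (nat_lit 13) (.e (nat_lit 172113) (nat_lit 10) (.e (nat_lit 434247) (nat_lit 28) (.e (nat_lit 573478) (nat_lit 12) (.e (nat_lit 65280) (nat_lit 55) .nil))))))) (.g (nat_lit 1) (.e (nat_lit 432241) (nat_lit 0) .nil) .nil))) 
(.lf (nat_lit 605951) (.g (nat_lit 2986) (.e (nat_lit 778465) (nat_lit 11) (.e (nat_lit 24665) (nat_lit 14) (.e (nat_lit 401414) (nat_lit 0) (.e (nat_lit 3459) (nat_lit 216) (.e (nat_lit 688178) (nat_lit 16) (.e (nat_lit 65604) (nat_lit 9) (.e (nat_lit 335907) (nat_lit 0) (.e (nat_lit 2309) (nat_lit 151) .nil)))))))) (.g (nat_lit 1) (.e (nat_lit 432892) (nat_lit 0) .nil) .nil)))) (.nd (nat_lit 9) 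
(.lf (nat_lit 605695) (.g (nat_lit 2332) (.e (nat_lit 778463) (nat_lit 11) (.e (nat_lit 24627) (nat_lit 9) (.e (nat_lit 336443) (nat_lit 32) (.e (nat_lit 466972) (nat_lit 21) (.e (nat_lit 164332) (nat_lit 230) (.e (nat_lit 163852) (nat_lit 0) (.e (nat_lit 3721) (nat_lit 227) .nil))))))) (.g (nat_lit 1) (.e (nat_lit 432580) (nat_lit 0) .nil) .nil))) 
(.lf (nat_lit 606207) (.g (nat_lit 3875) (.e (nat_lit 778467) (nat_lit 11) (.e (nat_lit 24658) (nat_lit 13) (.e (nat_lit 393301) (nat_lit 27) (.e (nat_lit 491558) (nat_lit 10) (.e (nat_lit 352000) (nat_lit 44) .nil))))) (.g (nat_lit 0) (.e (nat_lit 433251) (nat_lit 0) .nil) .nil)))))))))))))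

noncomputable def tv5652 : DT := (.nd (nat_lit 0) (.nd (nat_lit 1) (.nd (nat_lit 2) (.nd (nat_lit 3) (.nd (nat_lit 4) (.nd (nat_lit 5) (.nd (nat_lit 6) (.nd (nat_lit 7) (.nd (nat_lit 8) (.nd (nat_lit 9) 
(.lf (nat_lit 606208) (.g (nat_lit 2471) (.e (nat_lit 778467) (nat_lit 11) (.e (nat_lit 24658) (nat_lit 13) (.e (nat_lit 393301) (nat_lit 27) (.e (nat_lit 491559) (nat_lit 10) .nil)))) (.g (nat_lit 0) (.e (nat_lit 433252) (nat_lit 0) .nil) .nil))) 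
(.lf (nat_lit 606720) (.g (nat_lit 916) (.e (nat_lit 786481) (nat_lit 30) (.e (nat_lit 360475) (nat_lit 8) (.e (nat_lit 557091) (nat_lit 12) .nil))) (.g (nat_lit 0) (.e (nat_lit 434225) (nat_lit 0) .nil) .nil)))) (.nd (nat_lit 9) 
(.lf (nat_lit 606464) (.g (nat_lit 1720) (.e (nat_lit 786447) (nat_lit 15) (.e (nat_lit 1855) (nat_lit 124) (.e (nat_lit 557101) (nat_lit 13) (.e (nat_lit 172115) (nat_lit 10) (.e (nat_lit 434231) (nat_lit 23) .nil))))) (.g (nat_lit 0) (.e (nat_lit 433658) (nat_lit 0) .nil) .nil))) 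
(.lf (nat_lit 606976) (.g (nat_lit 513) (.e (nat_lit 794669) (nat_lit 22) (.e (nat_lit 196668) (nat_lit 14) (.e (nat_lit 73747) (nat_lit 3) .nil))) (.g (nat_lit 0) (.e (nat_lit 435927) (nat_lit 0) .nil) .nil))))) (.nd (nat_lit 8) (.nd (nat_lit 9) 
(.lf (nat_lit 606336) (.g (nat_lit 1577) (.e (nat_lit 778469) (nat_lit 11) (.e (nat_lit 24660) (nat_lit 13) (.e (nat_lit 393232) (nat_lit 17) (.e (nat_lit 7591) (nat_lit 407) (.e (nat_lit 73774) (nat_lit 26) .nil))))) (.g (nat_lit 1) (.e (nat_lit 433406) (nat_lit 0) .nil) .nil))) 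
(.lf (nat_lit 606848) (.g (nat_lit 365) (.e (nat_lit 802560) (nat_lit 5) (.e (nat_lit 114698) (nat_lit 11) (.e (nat_lit 426325) (nat_lit 13) .nil))) (.g (nat_lit 0) (.e (nat_lit 434776) (nat_lit 0) .nil) .nil)))) (.nd (nat_lit 9) 
(.lf (nat_lit 606592) (.g (nat_lit 1002) (.e (nat_lit 786480) (nat_lit 29) (.e (nat_lit 352318) (nat_lit 24) (.e (nat_lit 123183) (nat_lit 264) (.e (nat_lit 1296) (nat_lit 96) .nil)))) (.g (nat_lit 0) (.e (nat_lit 434008) (nat_lit 0) .nil) .nil))) 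
(.lf (nat_lit 607104) (.g (nat_lit 2416) (.e (nat_lit 794673) (nat_lit 23) (.e (nat_lit 204862) (nat_lit 27) (.e (nat_lit 344117) (nat_lit 21) (.e (nat_lit 516118) (nat_lit 1) (.e (nat_lit 164179) (nat_lit 154) .nil))))) (.g (nat_lit 0) (.e (nat_lit 436595) (nat_lit 0) .nil) .nil)))))) (.nd (nat_lit 7) (.nd (nat_lit 8) (.nd (nat_lit 9) 
(.lf (nat_lit 606272) (.g (nat_lit 2338) (.e (nat_lit 778469) (nat_lit 11) (.e (nat_lit 24617) (nat_lit 7) (.e (nat_lit 319534) (nat_lit 16) (.e (nat_lit 286756) (nat_lit 10) (.e (nat_lit 344160) (nat_lit 37) .nil))))) (.g (nat_lit 0) (.e (nat_lit 433320) (nat_lit 0) .nil) .nil))) 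
(.lf (nat_lit 606784) (.g (nat_lit 2848) (.e (nat_lit 786483) (nat_lit 30) (.e (nat_lit 360474) (nat_lit 8) (.e (nat_lit 557089) (nat_lit 12) (.e (nat_lit 164007) (nat_lit 41) (.e (nat_lit 663585) (nat_lit 12) .nil))))) (.g (nat_lit 0) (.e (nat_lit 434386) (nat_lit 0) .nil) .nil)))) (.nd (nat_lit 9) 
(.lf (nat_lit 606528) (.g (nat_lit 1562) (.e (nat_lit 786473) (nat_lit 27) (.e (nat_lit 336235) (nat_lit 14) (.e (nat_lit 401456) (nat_lit 13) (.e (nat_lit 483387) (nat_lit 23) .nil)))) (.g (nat_lit 0) (.e (nat_lit 433789) (nat_lit 0) .nil) .nil))) 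
(.lf (nat_lit 607040) (.g (nat_lit 2580) (.e (nat_lit 794669) (nat_lit 22) (.e (nat_lit 196670) (nat_lit 14) (.e (nat_lit 73746) (nat_lit 3) (.e (nat_lit 516120) (nat_lit 1) (.e (nat_lit 164184) (nat_lit 155) (.e (nat_lit 122893) (nat_lit 3) (.e (nat_lit 98321) (nat_lit 17) (.e (nat_lit 3771) (nat_lit 229) .nil)))))))) (.g (nat_lit 1) (.e (nat_lit 436335) (nat_lit 0) .nil) .nil))))) 
(.nd (nat_lit 8) (.nd (nat_lit 9) 
(.lf (nat_lit 606400) (.g (nat_lit 2375) (.e (nat_lit 786176) (nat_lit 11) (.e (nat_lit 24617) (nat_lit 7) (.e (nat_lit 319534) (nat_lit 16) (.e (nat_lit 286756) (nat_lit 10) (.e (nat_lit 344168) (nat_lit 40) .nil))))) (.g (nat_lit 0) (.e (nat_lit 433474) (nat_lit 0) .nil) .nil))) 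
(.lf (nat_lit 606912) (.g (nat_lit 2172) (.e (nat_lit 794664) (nat_lit 22) (.e (nat_lit 196656) (nat_lit 11) (.e (nat_lit 16448) (nat_lit 10) (.e (nat_lit 434231) (nat_lit 23) .nil)))) (.g (nat_lit 0) (.e (nat_lit 435219) (nat_lit 0) .nil) .nil)))) (.nd (nat_lit 9) 
(.lf (nat_lit 606656) (.g (nat_lit 1216) (.e (nat_lit 786481) (nat_lit 30) (.e (nat_lit 360466) (nat_lit 3) (.e (nat_lit 516120) (nat_lit 1) (.e (nat_lit 164181) (nat_lit 154) .nil)))) (.g (nat_lit 0) (.e (nat_lit 434115) (nat_lit 0) .nil) .nil))) 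
(.lf (nat_lit 607168) (.g (nat_lit 1213) (.e (nat_lit 794677) (nat_lit 24) (.e (nat_lit 213032) (nat_lit 11) (.e (nat_lit 24663) (nat_lit 14) .nil))) (.g (nat_lit 0) (.e (nat_lit 436715) (nat_lit 0) .nil) .nil))))))) (.nd (nat_lit 6) (.nd (nat_lit 7) (.nd (nat_lit 8) (.nd (nat_lit 9) 
(.lf (nat_lit 606240) (.g (nat_lit 1294) (.e (nat_lit 778469) (nat_lit 11) (.e (nat_lit 24604) (nat_lit 2) (.e (nat_lit 90185) (nat_lit 17) (.e (nat_lit 237601) (nat_lit 9) .nil)))) (.g (nat_lit 0) (.e (nat_lit 433285) (nat_lit 0) .nil) .nil))) 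
(.lf (nat_lit 606752) (.g (nat_lit 540) (.e (nat_lit 786483) (nat_lit 30) (.e (nat_lit 360450) (nat_lit 0) (.e (nat_lit 4847) (nat_lit 285) .nil))) (.g (nat_lit 0) (.e (nat_lit 434267) (nat_lit 0) .nil) .nil)))) (.nd (nat_lit 9) 
(.lf (nat_lit 606496) (.g (nat_lit 389) (.e (nat_lit 786470) (nat_lit 27) (.e (nat_lit 336226) (nat_lit 14) (.e (nat_lit 401457) (nat_lit 13) .nil))) (.g (nat_lit 0) (.e (nat_lit 433741) (nat_lit 0) .nil) .nil))) 
(.lf (nat_lit 607008) (.g (nat_lit 2541) (.e (nat_lit 794669) (nat_lit 22) (.e (nat_lit 196668) (nat_lit 14) (.e (nat_lit 73747) (nat_lit 3) (.e (nat_lit 516119) (nat_lit 1) (.e (nat_lit 164154) (nat_lit 152) (.e (nat_lit 1027) (nat_lit 81) (.e (nat_lit 1255) (nat_lit 92) (.e (nat_lit 98321) (nat_lit 17) (.e (nat_lit 3771) (nat_lit 229) .nil))))))))) (.g (nat_lit 1) (.e (nat_lit 436092) (nat_lit 0) .nil) .nil))))) 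
(.nd (nat_lit 8) (.nd (nat_lit 9) 
(.lf (nat_lit 606368) (.g (nat_lit 4079) (.e (nat_lit 786176) (nat_lit 11) (.e (nat_lit 24604) (nat_lit 2) (.e (nat_lit 90170) (nat_lit 13) (.e (nat_lit 172113) (nat_lit 10) .nil)))) (.g (nat_lit 0) (.e (nat_lit 433442) (nat_lit 0) .nil) .nil))) 
(.lf (nat_lit 606880) (.g (nat_lit 1036) (.e (nat_lit 794635) (nat_lit 11) (.e (nat_lit 336154) (nat_lit 9) (.e (nat_lit 336437) (nat_lit 31) (.e (nat_lit 458769) (nat_lit 16) (.e (nat_lit 164287) (nat_lit 224) (.e (nat_lit 164112) (nat_lit 118) .nil)))))) (.g (nat_lit 1) (.e (nat_lit 434816) (nat_lit 0) .nil) .nil)))) (.nd (nat_lit 9) 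
(.lf (nat_lit 606624) (.g (nat_lit 1608) (.e (nat_lit 786481) (nat_lit 30) (.e (nat_lit 360453) (nat_lit 0) (.e (nat_lit 5907) (nat_lit 320) (.e (nat_lit 1219) (nat_lit 90) (.e (nat_lit 81922) (nat_lit 0) .nil))))) (.g (nat_lit 0) (.e (nat_lit 434056) (nat_lit 0) .nil) .nil))) 
(.lf (nat_lit 607136) (.g (nat_lit 2205) (.e (nat_lit 794673) (nat_lit 23) (.e (nat_lit 204863) (nat_lit 27) (.e (nat_lit 344118) (nat_lit 21) (.e (nat_lit 516120) (nat_lit 1) (.e (nat_lit 164182) (nat_lit 154) .nil))))) (.g (nat_lit 0) (.e (nat_lit 436660) (nat_lit 0) .nil) .nil)))))) (.nd (nat_lit 7) (.nd (nat_lit 8) (.nd (nat_lit 9) 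
(.lf (nat_lit 606304) (.g (nat_lit 1904) (.e (nat_lit 778469) (nat_lit 11) (.e (nat_lit 24655) (nat_lit 13) (.e (nat_lit 393301) (nat_lit 27) (.e (nat_lit 491558) (nat_lit 10) .nil)))) (.g (nat_lit 0) (.e (nat_lit 433359) (nat_lit 0) .nil) .nil))) 
(.lf (nat_lit 606816) (.g (nat_lit 2172) (.e (nat_lit 786483) (nat_lit 30) (.e (nat_lit 360475) (nat_lit 8) (.e (nat_lit 557119) (nat_lit 18) (.e (nat_lit 2798) (nat_lit 180) (.e (nat_lit 303124) (nat_lit 7) .nil))))) (.g (nat_lit 0) (.e (nat_lit 434694) (nat_lit 0) .nil) .nil)))) (.nd (nat_lit 9) 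
(.lf (nat_lit 606560) (.g (nat_lit 426) (.e (nat_lit 786478) (nat_lit 29) (.e (nat_lit 352318) (nat_lit 24) (.e (nat_lit 123184) (nat_lit 264) .nil))) (.g (nat_lit 0) (.e (nat_lit 433947) (nat_lit 0) .nil) .nil))) 
(.lf (nat_lit 607072) (.g (nat_lit 5480) (.e (nat_lit 794673) (nat_lit 23) (.e (nat_lit 204830) (nat_lit 18) (.e (nat_lit 57926) (nat_lit 282) (.e (nat_lit 163875) (nat_lit 3) (.e (nat_lit 204863) (nat_lit 27) (.e (nat_lit 344117) (nat_lit 21) (.e (nat_lit 516099) (nat_lit 0) (.e (nat_lit 3771) (nat_lit 229) .nil)))))))) (.g (nat_lit 1) (.e (nat_lit 436520) (nat_lit 0) .nil) .nil))))) 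
(.nd (nat_lit 8) (.nd (nat_lit 9) 
(.lf (nat_lit 606432) (.g (nat_lit 1369) (.e (nat_lit 778474) (nat_lit 12) (.e (nat_lit 164020) (nat_lit 45) (.e (nat_lit 696344) (nat_lit 8) (.e (nat_lit 172061) (nat_lit 1) .nil)))) (.g (nat_lit 0) (.e (nat_lit 433517) (nat_lit 0) .nil) .nil))) 
(.lf (nat_lit 606944) (.g (nat_lit 2075) (.e (nat_lit 794668) (nat_lit 22) (.e (nat_lit 196666) (nat_lit 13) (.e (nat_lit 65569) (nat_lit 3) (.e (nat_lit 98334) (nat_lit 18) (.e (nat_lit 164161) (nat_lit 152) .nil))))) (.g (nat_lit 0) (.e (nat_lit 435733) (nat_lit 0) .nil) .nil)))) (.nd (nat_lit 9) 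
(.lf (nat_lit 606688) (.g (nat_lit 2777) (.e (nat_lit 786481) (nat_lit 30) (.e (nat_lit 360473) (nat_lit 8) (.e (nat_lit 557090) (nat_lit 12) (.e (nat_lit 164006) (nat_lit 41) .nil)))) (.g (nat_lit 0) (.e (nat_lit 434179) (nat_lit 0) .nil) .nil))) 
(.lf (nat_lit 607200) (.g (nat_lit 1777) (.e (nat_lit 794683) (nat_lit 25) (.e (nat_lit 221214) (nat_lit 23) (.e (nat_lit 204883) (nat_lit 33) (.e (nat_lit 401459) (nat_lit 13) (.e (nat_lit 483354) (nat_lit 17) .nil))))) (.g (nat_lit 0) (.e (nat_lit 436855) (nat_lit 0) .nil) .nil)))))))) (.nd (nat_lit 5) (.nd (nat_lit 6) (.nd (nat_lit 7) (.nd (nat_lit 8) (.nd (nat_lit 9) 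
(.lf (nat_lit 606224) (.g (nat_lit 1385) (.e (nat_lit 778468) (nat_lit 11) (.e (nat_lit 24628) (nat_lit 9) (.e (nat_lit 336438) (nat_lit 31) (.e (nat_lit 466688) (nat_lit 5) .nil)))) (.g (nat_lit 0) (.e (nat_lit 433268) (nat_lit 0) .nil) .nil))) 
(.lf (nat_lit 606736) (.g (nat_lit 2155) (.e (nat_lit 786482) (nat_lit 30) (.e (nat_lit 360475) (nat_lit 8) (.e (nat_lit 557089) (nat_lit 12) (.e (nat_lit 164007) (nat_lit 41) (.e (nat_lit 663580) (nat_lit 9) .nil))))) (.g (nat_lit 0) (.e (nat_lit 434248) (nat_lit 0) .nil) .nil)))) (.nd (nat_lit 9) 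
(.lf (nat_lit 606480) (.g (nat_lit 949) (.e (nat_lit 786457) (nat_lit 18) (.e (nat_lit 98380) (nat_lit 31) (.e (nat_lit 466954) (nat_lit 11) (.e (nat_lit 336049) (nat_lit 6) (.e (nat_lit 147498) (nat_lit 12) (.e (nat_lit 164053) (nat_lit 56) .nil)))))) (.g (nat_lit 1) (.e (nat_lit 433704) (nat_lit 0) .nil) .nil))) 
(.lf (nat_lit 606992) (.g (nat_lit 1363) (.e (nat_lit 794669) (nat_lit 22) (.e (nat_lit 196668) (nat_lit 14) (.e (nat_lit 73747) (nat_lit 3) (.e (nat_lit 516116) (nat_lit 1) .nil)))) (.g (nat_lit 0) (.e (nat_lit 436024) (nat_lit 0) .nil) .nil))))) (.nd (nat_lit 8) (.nd (nat_lit 9) 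
(.lf (nat_lit 606352) (.g (nat_lit 3345) (.e (nat_lit 778469) (nat_lit 11) (.e (nat_lit 24665) (nat_lit 14) (.e (nat_lit 401414) (nat_lit 0) (.e (nat_lit 3459) (nat_lit 216) (.e (nat_lit 688177) (nat_lit 16) .nil))))) (.g (nat_lit 0) (.e (nat_lit 433423) (nat_lit 0) .nil) .nil))) 
(.lf (nat_lit 606864) (.g (nat_lit 1048) (.e (nat_lit 794635) (nat_lit 11) (.e (nat_lit 336119) (nat_lit 9) (.e (nat_lit 336437) (nat_lit 31) (.e (nat_lit 458769) (nat_lit 16) (.e (nat_lit 164293) (nat_lit 224) (.e (nat_lit 164112) (nat_lit 118) .nil)))))) (.g (nat_lit 1) (.e (nat_lit 434800) (nat_lit 0) .nil) .nil)))) (.nd (nat_lit 9) 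
(.lf (nat_lit 606608) (.g (nat_lit 2292) (.e (nat_lit 786480) (nat_lit 29) (.e (nat_lit 352318) (nat_lit 24) (.e (nat_lit 123198) (nat_lit 266) (.e (nat_lit 57424) (nat_lit 14) (.e (nat_lit 352262) (nat_lit 0) (.e (nat_lit 3748) (nat_lit 228) .nil)))))) (.g (nat_lit 1) (.e (nat_lit 434035) (nat_lit 0) .nil) .nil))) 
(.lf (nat_lit 607120) (.g (nat_lit 2710) (.e (nat_lit 794673) (nat_lit 23) (.e (nat_lit 204863) (nat_lit 27) (.e (nat_lit 344117) (nat_lit 21) (.e (nat_lit 516116) (nat_lit 1) (.e (nat_lit 164161) (nat_lit 152) .nil))))) (.g (nat_lit 0) (.e (nat_lit 436635) (nat_lit 0) .nil) .nil)))))) (.nd (nat_lit 7) (.nd (nat_lit 8) (.nd (nat_lit 9) 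
(.lf (nat_lit 606288) (.g (nat_lit 2936) (.e (nat_lit 778469) (nat_lit 11) (.e (nat_lit 24628) (nat_lit 9) (.e (nat_lit 336443) (nat_lit 32) (.e (nat_lit 466972) (nat_lit 21) (.e (nat_lit 164330) (nat_lit 230) (.e (nat_lit 163850) (nat_lit 0) (.e (nat_lit 3711) (nat_lit 227) .nil))))))) (.g (nat_lit 1) (.e (nat_lit 433337) (nat_lit 0) .nil) .nil))) 
(.lf (nat_lit 606800) (.g (nat_lit 1931) (.e (nat_lit 786483) (nat_lit 30) (.e (nat_lit 360475) (nat_lit 8) (.e (nat_lit 557090) (nat_lit 12) (.e (nat_lit 164006) (nat_lit 41) .nil)))) (.g (nat_lit 0) (.e (nat_lit 434567) (nat_lit 0) .nil) .nil)))) (.nd (nat_lit 9) 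
(.lf (nat_lit 606544) (.g (nat_lit 3223) (.e (nat_lit 786477) (nat_lit 28) (.e (nat_lit 344177) (nat_lit 43) (.e (nat_lit 770072) (nat_lit 8) (.e (nat_lit 65571) (nat_lit 3) (.e (nat_lit 98341) (nat_lit 20) (.e (nat_lit 221197) (nat_lit 20) (.e (nat_lit 3744) (nat_lit 228) .nil))))))) (.g (nat_lit 1) (.e (nat_lit 433917) (nat_lit 0) .nil) .nil))) 
(.lf (nat_lit 607056) (.g (nat_lit 934) (.e (nat_lit 794673) (nat_lit 23) (.e (nat_lit 204829) (nat_lit 18) (.e (nat_lit 57927) (nat_lit 282) .nil))) (.g (nat_lit 0) (.e (nat_lit 436486) (nat_lit 0) .nil) .nil))))) (.nd (nat_lit 8) (.nd (nat_lit 9) 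
(.lf (nat_lit 606416) (.g (nat_lit 3212) (.e (nat_lit 786176) (nat_lit 11) (.e (nat_lit 24658) (nat_lit 13) (.e (nat_lit 393301) (nat_lit 27) (.e (nat_lit 491560) (nat_lit 10) (.e (nat_lit 352000) (nat_lit 44) .nil))))) (.g (nat_lit 0) (.e (nat_lit 433496) (nat_lit 0) .nil) .nil))) 
(.lf (nat_lit 606928) (.g (nat_lit 3255) (.e (nat_lit 794667) (nat_lit 22) (.e (nat_lit 196654) (nat_lit 11) (.e (nat_lit 16436) (nat_lit 9) (.e (nat_lit 426131) (nat_lit 3) (.e (nat_lit 204880) (nat_lit 32) (.e (nat_lit 385109) (nat_lit 51) .nil)))))) (.g (nat_lit 1) (.e (nat_lit 435580) (nat_lit 0) .nil) .nil)))) (.nd (nat_lit 9) 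
(.lf (nat_lit 606672) (.g (nat_lit 231) (.e (nat_lit 786481) (nat_lit 30) (.e (nat_lit 360473) (nat_lit 8) (.e (nat_lit 557089) (nat_lit 12) .nil))) (.g (nat_lit 0) (.e (nat_lit 434144) (nat_lit 0) .nil) .nil))) 
(.lf (nat_lit 607184) (.g (nat_lit 2816) (.e (nat_lit 794680) (nat_lit 24) (.e (nat_lit 213032) (nat_lit 11) (.e (nat_lit 24617) (nat_lit 7) (.e (nat_lit 319534) (nat_lit 16) (.e (nat_lit 286759) (nat_lit 12) .nil))))) (.g (nat_lit 0) (.e (nat_lit 436740) (nat_lit 0) .nil) .nil))))))) (.nd (nat_lit 6) (.nd (nat_lit 7) (.nd (nat_lit 8) (.nd (nat_lit 9) 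
(.lf (nat_lit 606256) (.g (nat_lit 1633) (.e (nat_lit 778469) (nat_lit 11) (.e (nat_lit 24608) (nat_lit 3) (.e (nat_lit 98369) (nat_lit 28) (.e (nat_lit 450304) (nat_lit 3) .nil)))) (.g (nat_lit 0) (.e (nat_lit 433301) (nat_lit 0) .nil) .nil))) 
(.lf (nat_lit 606768) (.g (nat_lit 2544) (.e (nat_lit 786483) (nat_lit 30) (.e (nat_lit 360452) (nat_lit 0) (.e (nat_lit 5907) (nat_lit 320) (.e (nat_lit 1221) (nat_lit 90) (.e (nat_lit 81924) (nat_lit 0) .nil))))) (.g (nat_lit 0) (.e (nat_lit 434297) (nat_lit 0) .nil) .nil)))) (.nd (nat_lit 9) 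
(.lf (nat_lit 606512) (.g (nat_lit 2866) (.e (nat_lit 786473) (nat_lit 27) (.e (nat_lit 336051) (nat_lit 6) (.e (nat_lit 147496) (nat_lit 11) (.e (nat_lit 24607) (nat_lit 3) (.e (nat_lit 98341) (nat_lit 20) .nil))))) (.g (nat_lit 0) (.e (nat_lit 433772) (nat_lit 0) .nil) .nil))) 
(.lf (nat_lit 607024) (.g (nat_lit 2230) (.e (nat_lit 794669) (nat_lit 22) (.e (nat_lit 196670) (nat_lit 14) (.e (nat_lit 73746) (nat_lit 3) (.e (nat_lit 516117) (nat_lit 1) (.e (nat_lit 164147) (nat_lit 152) (.e (nat_lit 1027) (nat_lit 81) (.e (nat_lit 1255) (nat_lit 92) (.e (nat_lit 98321) (nat_lit 17) (.e (nat_lit 3771) (nat_lit 229) .nil))))))))) (.g (nat_lit 1) (.e (nat_lit 436245) (nat_lit 0) .nil) .nil))))) 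
(.nd (nat_lit 8) (.nd (nat_lit 9) 
(.lf (nat_lit 606384) (.g (nat_lit 4124) (.e (nat_lit 786176) (nat_lit 11) (.e (nat_lit 24608) (nat_lit 3) (.e (nat_lit 98372) (nat_lit 29) (.e (nat_lit 450588) (nat_lit 10) (.e (nat_lit 573475) (nat_lit 12) .nil))))) (.g (nat_lit 0) (.e (nat_lit 433458) (nat_lit 0) .nil) .nil))) 
(.lf (nat_lit 606896) (.g (nat_lit 1593) (.e (nat_lit 794655) (nat_lit 20) (.e (nat_lit 3747) (nat_lit 228) (.e (nat_lit 786473) (nat_lit 27) (.e (nat_lit 336429) (nat_lit 29) (.e (nat_lit 442427) (nat_lit 23) .nil))))) (.g (nat_lit 0) (.e (nat_lit 434840) (nat_lit 0) .nil) .nil)))) (.nd (nat_lit 9) 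
(.lf (nat_lit 606640) (.g (nat_lit 1336) (.e (nat_lit 786481) (nat_lit 30) (.e (nat_lit 360466) (nat_lit 3) (.e (nat_lit 516117) (nat_lit 1) (.e (nat_lit 164166) (nat_lit 152) (.e (nat_lit 1200) (nat_lit 88) .nil))))) (.g (nat_lit 0) (.e (nat_lit 434091) (nat_lit 0) .nil) .nil))) 
(.lf (nat_lit 607152) (.g (nat_lit 2103) (.e (nat_lit 794675) (nat_lit 24) (.e (nat_lit 213030) (nat_lit 11) (.e (nat_lit 24617) (nat_lit 7) (.e (nat_lit 319533) (nat_lit 16) (.e (nat_lit 286758) (nat_lit 12) .nil))))) (.g (nat_lit 0) (.e (nat_lit 436695) (nat_lit 0) .nil) .nil)))))) (.nd (nat_lit 7) (.nd (nat_lit 8) (.nd (nat_lit 9) 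
(.lf (nat_lit 606320) (.g (nat_lit 613) (.e (nat_lit 778469) (nat_lit 11) (.e (nat_lit 24658) (nat_lit 13) (.e (nat_lit 393281) (nat_lit 23) .nil))) (.g (nat_lit 0) (.e (nat_lit 433388) (nat_lit 0) .nil) .nil))) 
(.lf (nat_lit 606832) (.g (nat_lit 1114) (.e (nat_lit 802560) (nat_lit 2) (.e (nat_lit 90160) (nat_lit 11) (.e (nat_lit 24657) (nat_lit 13) (.e (nat_lit 401152) (nat_lit 15) .nil)))) (.g (nat_lit 0) (.e (nat_lit 434748) (nat_lit 0) .nil) .nil)))) (.nd (nat_lit 9) 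
(.lf (nat_lit 606576) (.g (nat_lit 1459) (.e (nat_lit 786480) (nat_lit 29) (.e (nat_lit 352309) (nat_lit 21) (.e (nat_lit 57872) (nat_lit 264) (.e (nat_lit 1190) (nat_lit 88) (.e (nat_lit 65623) (nat_lit 12) .nil))))) (.g (nat_lit 0) (.e (nat_lit 433976) (nat_lit 0) .nil) .nil))) 
(.lf (nat_lit 607088) (.g (nat_lit 447) (.e (nat_lit 794673) (nat_lit 23) (.e (nat_lit 204862) (nat_lit 27) (.e (nat_lit 344117) (nat_lit 21) .nil))) (.g (nat_lit 0) (.e (nat_lit 436574) (nat_lit 0) .nil) .nil))))) (.nd (nat_lit 8) (.nd (nat_lit 9) 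
(.lf (nat_lit 606448) (.g (nat_lit 1464) (.e (nat_lit 794368) (nat_lit 3) (.e (nat_lit 204885) (nat_lit 33) (.e (nat_lit 401448) (nat_lit 10) (.e (nat_lit 434234) (nat_lit 23) .nil)))) (.g (nat_lit 0) (.e (nat_lit 433597) (nat_lit 0) .nil) .nil))) 
(.lf (nat_lit 606960) (.g (nat_lit 3490) (.e (nat_lit 794669) (nat_lit 22) (.e (nat_lit 196656) (nat_lit 11) (.e (nat_lit 16473) (nat_lit 14) (.e (nat_lit 491526) (nat_lit 0) (.e (nat_lit 1842) (nat_lit 123) .nil))))) (.g (nat_lit 0) (.e (nat_lit 435860) (nat_lit 0) .nil) .nil)))) (.nd (nat_lit 9) 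
(.lf (nat_lit 606704) (.g (nat_lit 2593) (.e (nat_lit 786481) (nat_lit 30) (.e (nat_lit 360473) (nat_lit 8) (.e (nat_lit 557091) (nat_lit 12) (.e (nat_lit 164000) (nat_lit 38) (.e (nat_lit 639022) (nat_lit 17) (.e (nat_lit 81664) (nat_lit 27) .nil)))))) (.g (nat_lit 1) (.e (nat_lit 434199) (nat_lit 0) .nil) .nil))) 
(.lf (nat_lit 607216) (.g (nat_lit 2652) (.e (nat_lit 794684) (nat_lit 25) (.e (nat_lit 221215) (nat_lit 23) (.e (nat_lit 204883) (nat_lit 33) (.e (nat_lit 401459) (nat_lit 13) (.e (nat_lit 483344) (nat_lit 17) (.e (nat_lit 2368) (nat_lit 153) .nil)))))) (.g (nat_lit 1) (.e (nat_lit 436996) (nat_lit 0) .nil) .nil))))))))) 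
(.nd (nat_lit 4) (.nd (nat_lit 5) (.nd (nat_lit 6) (.nd (nat_lit 7) (.nd (nat_lit 8) 
(.nd (nat_lit 9) 
(.lf (nat_lit 606216) (.g (nat_lit 4352) (.e (nat_lit 778468) (nat_lit 11) (.e (nat_lit 24608) (nat_lit 3) (.e (nat_lit 98373) (nat_lit 29) (.e (nat_lit 450587) (nat_lit 10) (.e (nat_lit 573478) (nat_lit 12) .nil))))) (.g (nat_lit 0) (.e (nat_lit 433260) (nat_lit 0) .nil) .nil))) 
(.lf (nat_lit 606728) (.g (nat_lit 1557) (.e (nat_lit 786481) (nat_lit 30) (.e (nat_lit 360482) (nat_lit 15) (.e (nat_lit 647203) (nat_lit 14) (.e (nat_lit 1359) (nat_lit 102) (.e (nat_lit 286759) (nat_lit 12) .nil))))) (.g (nat_lit 0) (.e (nat_lit 434239) (nat_lit 0) .nil) .nil)))) (.nd (nat_lit 9) 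
(.lf (nat_lit 606472) (.g (nat_lit 2180) (.e (nat_lit 786456) (nat_lit 18) (.e (nat_lit 98367) (nat_lit 27) (.e (nat_lit 434231) (nat_lit 23) (.e (nat_lit 532507) (nat_lit 2) .nil)))) (.g (nat_lit 0) (.e (nat_lit 433668) (nat_lit 0) .nil) .nil))) 
(.lf (nat_lit 606984) (.g (nat_lit 1886) (.e (nat_lit 794669) (nat_lit 22) (.e (nat_lit 196668) (nat_lit 14) (.e (nat_lit 73747) (nat_lit 3) (.e (nat_lit 516115) (nat_lit 1) (.e (nat_lit 164153) (nat_lit 152) .nil))))) (.g (nat_lit 0) (.e (nat_lit 435938) (nat_lit 0) .nil) .nil))))) (.nd (nat_lit 8) (.nd (nat_lit 9) 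
(.lf (nat_lit 606344) (.g (nat_lit 1079) (.e (nat_lit 778469) (nat_lit 11) (.e (nat_lit 24660) (nat_lit 13) (.e (nat_lit 393260) (nat_lit 21) (.e (nat_lit 409623) (nat_lit 10) .nil)))) (.g (nat_lit 0) (.e (nat_lit 433414) (nat_lit 0) .nil) .nil))) 
(.lf (nat_lit 606856) (.g (nat_lit 1786) (.e (nat_lit 802560) (nat_lit 5) (.e (nat_lit 114698) (nat_lit 11) (.e (nat_lit 426335) (nat_lit 13) (.e (nat_lit 483407) (nat_lit 26) (.e (nat_lit 385107) (nat_lit 51) .nil))))) (.g (nat_lit 0) (.e (nat_lit 434789) (nat_lit 0) .nil) .nil)))) (.nd (nat_lit 9) 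
(.lf (nat_lit 606600) (.g (nat_lit 1338) (.e (nat_lit 786480) (nat_lit 29) (.e (nat_lit 352318) (nat_lit 24) (.e (nat_lit 123195) (nat_lit 266) (.e (nat_lit 57412) (nat_lit 12) .nil)))) (.g (nat_lit 0) (.e (nat_lit 434023) (nat_lit 0) .nil) .nil))) 
(.lf (nat_lit 607112) (.g (nat_lit 1483) (.e (nat_lit 794673) (nat_lit 23) (.e (nat_lit 204863) (nat_lit 27) (.e (nat_lit 344117) (nat_lit 21) (.e (nat_lit 516115) (nat_lit 1) .nil)))) (.g (nat_lit 0) (.e (nat_lit 436618) (nat_lit 0) .nil) .nil)))))) (.nd (nat_lit 7) (.nd (nat_lit 8) (.nd (nat_lit 9) 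
(.lf (nat_lit 606280) (.g (nat_lit 2367) (.e (nat_lit 778469) (nat_lit 11) (.e (nat_lit 24628) (nat_lit 9) (.e (nat_lit 336443) (nat_lit 32) (.e (nat_lit 466969) (nat_lit 21) (.e (nat_lit 164332) (nat_lit 230) .nil))))) (.g (nat_lit 0) (.e (nat_lit 433329) (nat_lit 0) .nil) .nil))) 
(.lf (nat_lit 606792) (.g (nat_lit 1378) (.e (nat_lit 786483) (nat_lit 30) (.e (nat_lit 360474) (nat_lit 8) (.e (nat_lit 557093) (nat_lit 12) (.e (nat_lit 164010) (nat_lit 41) .nil)))) (.g (nat_lit 0) (.e (nat_lit 434420) (nat_lit 0) .nil) .nil)))) (.nd (nat_lit 9) 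
(.lf (nat_lit 606536) (.g (nat_lit 444) (.e (nat_lit 786477) (nat_lit 28) (.e (nat_lit 344156) (nat_lit 36) (.e (nat_lit 638995) (nat_lit 7) .nil))) (.g (nat_lit 0) (.e (nat_lit 433867) (nat_lit 0) .nil) .nil))) 
(.lf (nat_lit 607048) (.g (nat_lit 2004) (.e (nat_lit 794672) (nat_lit 23) (.e (nat_lit 204830) (nat_lit 18) (.e (nat_lit 57926) (nat_lit 282) (.e (nat_lit 163874) (nat_lit 3) .nil)))) (.g (nat_lit 0) (.e (nat_lit 436429) (nat_lit 0) .nil) .nil))))) (.nd (nat_lit 8) (.nd (nat_lit 9) 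
(.lf (nat_lit 606408) (.g (nat_lit 1909) (.e (nat_lit 786176) (nat_lit 11) (.e (nat_lit 24658) (nat_lit 13) (.e (nat_lit 393234) (nat_lit 17) (.e (nat_lit 7593) (nat_lit 407) .nil)))) (.g (nat_lit 0) (.e (nat_lit 433488) (nat_lit 0) .nil) .nil))) 
(.lf (nat_lit 606920) (.g (nat_lit 1564) (.e (nat_lit 794665) (nat_lit 22) (.e (nat_lit 196656) (nat_lit 11) (.e (nat_lit 16448) (nat_lit 10) (.e (nat_lit 434232) (nat_lit 23) .nil)))) (.g (nat_lit 0) (.e (nat_lit 435248) (nat_lit 0) .nil) .nil)))) (.nd (nat_lit 9) 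
(.lf (nat_lit 606664) (.g (nat_lit 2280) (.e (nat_lit 786481) (nat_lit 30) (.e (nat_lit 360467) (nat_lit 3) (.e (nat_lit 516115) (nat_lit 1) (.e (nat_lit 164155) (nat_lit 152) .nil)))) (.g (nat_lit 0) (.e (nat_lit 434125) (nat_lit 0) .nil) .nil))) 
(.lf (nat_lit 607176) (.g (nat_lit 2614) (.e (nat_lit 794679) (nat_lit 24) (.e (nat_lit 213032) (nat_lit 11) (.e (nat_lit 24617) (nat_lit 7) (.e (nat_lit 319533) (nat_lit 16) (.e (nat_lit 286759) (nat_lit 12) .nil))))) (.g (nat_lit 0) (.e (nat_lit 436728) (nat_lit 0) .nil) .nil))))))) (.nd (nat_lit 6) (.nd (nat_lit 7) (.nd (nat_lit 8) (.nd (nat_lit 9) 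
(.lf (nat_lit 606248) (.g (nat_lit 606) (.e (nat_lit 778469) (nat_lit 11) (.e (nat_lit 24607) (nat_lit 3) (.e (nat_lit 98372) (nat_lit 29) .nil))) (.g (nat_lit 0) (.e (nat_lit 433293) (nat_lit 0) .nil) .nil))) 
(.lf (nat_lit 606760) (.g (nat_lit 427) (.e (nat_lit 786483) (nat_lit 30) (.e (nat_lit 360451) (nat_lit 0) (.e (nat_lit 7936) (nat_lit 320) .nil))) (.g (nat_lit 0) (.e (nat_lit 434285) (nat_lit 0) .nil) .nil)))) (.nd (nat_lit 9) 
(.lf (nat_lit 606504) (.g (nat_lit 1037) (.e (nat_lit 786470) (nat_lit 27) (.e (nat_lit 336234) (nat_lit 14) (.e (nat_lit 401457) (nat_lit 13) (.e (nat_lit 483408) (nat_lit 26) .nil)))) (.g (nat_lit 0) (.e (nat_lit 433754) (nat_lit 0) .nil) .nil))) 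
(.lf (nat_lit 607016) (.g (nat_lit 513) (.e (nat_lit 794669) (nat_lit 22) (.e (nat_lit 196670) (nat_lit 14) (.e (nat_lit 73746) (nat_lit 3) .nil))) (.g (nat_lit 0) (.e (nat_lit 436215) (nat_lit 0) .nil) .nil))))) (.nd (nat_lit 8) (.nd (nat_lit 9) 
(.lf (nat_lit 606376) (.g (nat_lit 1116) (.e (nat_lit 786176) (nat_lit 11) (.e (nat_lit 24607) (nat_lit 3) (.e (nat_lit 98369) (nat_lit 28) (.e (nat_lit 450304) (nat_lit 3) .nil)))) (.g (nat_lit 0) (.e (nat_lit 433450) (nat_lit 0) .nil) .nil))) 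
(.lf (nat_lit 606888) (.g (nat_lit 403) (.e (nat_lit 794637) (nat_lit 11) (.e (nat_lit 336021) (nat_lit 3) (.e (nat_lit 106240) (nat_lit 29) .nil))) (.g (nat_lit 0) (.e (nat_lit 434825) (nat_lit 0) .nil) .nil)))) (.nd (nat_lit 9) 
(.lf (nat_lit 606632) (.g (nat_lit 1882) (.e (nat_lit 786481) (nat_lit 30) (.e (nat_lit 360466) (nat_lit 3) (.e (nat_lit 516115) (nat_lit 1) (.e (nat_lit 164149) (nat_lit 152) .nil)))) (.g (nat_lit 0) (.e (nat_lit 434083) (nat_lit 0) .nil) .nil))) 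
(.lf (nat_lit 607144) (.g (nat_lit 1685) (.e (nat_lit 794673) (nat_lit 23) (.e (nat_lit 204880) (nat_lit 32) (.e (nat_lit 385066) (nat_lit 26) (.e (nat_lit 532504) (nat_lit 1) .nil)))) (.g (nat_lit 0) (.e (nat_lit 436679) (nat_lit 0) .nil) .nil)))))) (.nd (nat_lit 7) (.nd (nat_lit 8) (.nd (nat_lit 9) 
(.lf (nat_lit 606312) (.g (nat_lit 3463) (.e (nat_lit 778469) (nat_lit 11) (.e (nat_lit 24657) (nat_lit 13) (.e (nat_lit 393294) (nat_lit 26) (.e (nat_lit 475214) (nat_lit 42) (.e (nat_lit 720903) (nat_lit 0) .nil))))) (.g (nat_lit 0) (.e (nat_lit 433374) (nat_lit 0) .nil) .nil))) 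
(.lf (nat_lit 606824) (.g (nat_lit 1324) (.e (nat_lit 786483) (nat_lit 30) (.e (nat_lit 360484) (nat_lit 15) (.e (nat_lit 647203) (nat_lit 14) (.e (nat_lit 1359) (nat_lit 102) (.e (nat_lit 286758) (nat_lit 12) .nil))))) (.g (nat_lit 0) (.e (nat_lit 434728) (nat_lit 0) .nil) .nil)))) (.nd (nat_lit 9) 
(.lf (nat_lit 606568) (.g (nat_lit 2211) (.e (nat_lit 786480) (nat_lit 29) (.e (nat_lit 352262) (nat_lit 0) (.e (nat_lit 3748) (nat_lit 228) (.e (nat_lit 786467) (nat_lit 27) (.e (nat_lit 336205) (nat_lit 12) (.e (nat_lit 385103) (nat_lit 50) .nil)))))) (.g (nat_lit 1) (.e (nat_lit 433960) (nat_lit 0) .nil) .nil))) 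
(.lf (nat_lit 607080) (.g (nat_lit 3194) (.e (nat_lit 794673) (nat_lit 23) (.e (nat_lit 204841) (nat_lit 22) (.e (nat_lit 147496) (nat_lit 11) (.e (nat_lit 24608) (nat_lit 3) (.e (nat_lit 98384) (nat_lit 32) (.e (nat_lit 483072) (nat_lit 51) .nil)))))) (.g (nat_lit 1) (.e (nat_lit 436536) (nat_lit 0) .nil) .nil))))) (.nd (nat_lit 8) (.nd (nat_lit 9) 
(.lf (nat_lit 606440) (.g (nat_lit 832) (.e (nat_lit 778561) (nat_lit 14) (.e (nat_lit 2797) (nat_lit 180) (.e (nat_lit 303133) (nat_lit 9) .nil))) (.g (nat_lit 0) (.e (nat_lit 433554) (nat_lit 0) .nil) .nil))) 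
(.lf (nat_lit 606952) (.g (nat_lit 4605) (.e (nat_lit 794669) (nat_lit 22) (.e (nat_lit 196654) (nat_lit 11) (.e (nat_lit 16470) (nat_lit 14) (.e (nat_lit 491540) (nat_lit 3) (.e (nat_lit 98386) (nat_lit 32) .nil))))) (.g (nat_lit 0) (.e (nat_lit 435831) (nat_lit 0) .nil) .nil)))) (.nd (nat_lit 9) 
(.lf (nat_lit 606696) (.g (nat_lit 1455) (.e (nat_lit 786481) (nat_lit 30) (.e (nat_lit 360473) (nat_lit 8) (.e (nat_lit 557091) (nat_lit 12) (.e (nat_lit 163998) (nat_lit 38) .nil)))) (.g (nat_lit 0) (.e (nat_lit 434189) (nat_lit 0) .nil) .nil))) 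
(.lf (nat_lit 607208) (.g (nat_lit 1283) (.e (nat_lit 794684) (nat_lit 25) (.e (nat_lit 221194) (nat_lit 11) (.e (nat_lit 336068) (nat_lit 8) (.e (nat_lit 327716) (nat_lit 16) .nil)))) (.g (nat_lit 0) (.e (nat_lit 436868) (nat_lit 0) .nil) .nil)))))))) (.nd (nat_lit 5) (.nd (nat_lit 6) (.nd (nat_lit 7) (.nd (nat_lit 8) (.nd (nat_lit 9) 
(.lf (nat_lit 606232) (.g (nat_lit 3808) (.e (nat_lit 778468) (nat_lit 11) (.e (nat_lit 24658) (nat_lit 13) (.e (nat_lit 393301) (nat_lit 27) (.e (nat_lit 491560) (nat_lit 10) (.e (nat_lit 352000) (nat_lit 44) .nil))))) (.g (nat_lit 1) (.e (nat_lit 433277) (nat_lit 0) .nil) .nil))) 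
(.lf (nat_lit 606744) (.g (nat_lit 2660) (.e (nat_lit 786482) (nat_lit 30) (.e (nat_lit 360475) (nat_lit 8) (.e (nat_lit 557091) (nat_lit 12) (.e (nat_lit 164005) (nat_lit 41) .nil)))) (.g (nat_lit 0) (.e (nat_lit 434257) (nat_lit 0) .nil) .nil)))) (.nd (nat_lit 9) 
(.lf (nat_lit 606488) (.g (nat_lit 1401) (.e (nat_lit 786467) (nat_lit 27) (.e (nat_lit 336228) (nat_lit 14) (.e (nat_lit 401456) (nat_lit 13) (.e (nat_lit 483408) (nat_lit 26) .nil)))) (.g (nat_lit 0) (.e (nat_lit 433723) (nat_lit 0) .nil) .nil))) 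
(.lf (nat_lit 607000) (.g (nat_lit 2642) (.e (nat_lit 794669) (nat_lit 22) (.e (nat_lit 196668) (nat_lit 14) (.e (nat_lit 73747) (nat_lit 3) (.e (nat_lit 516117) (nat_lit 1) (.e (nat_lit 164159) (nat_lit 152) (.e (nat_lit 1027) (nat_lit 81) (.e (nat_lit 1255) (nat_lit 92) (.e (nat_lit 98321) (nat_lit 17) (.e (nat_lit 3771) (nat_lit 229) .nil))))))))) (.g (nat_lit 1) (.e (nat_lit 436032) (nat_lit 0) .nil) .nil))))) 
(.nd (nat_lit 8) (.nd (nat_lit 9) 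
(.lf (nat_lit 606360) (.g (nat_lit 2700) (.e (nat_lit 778470) (nat_lit 11) (.e (nat_lit 24658) (nat_lit 13) (.e (nat_lit 393234) (nat_lit 17) (.e (nat_lit 7593) (nat_lit 407) .nil)))) (.g (nat_lit 0) (.e (nat_lit 433432) (nat_lit 0) .nil) .nil))) 
(.lf (nat_lit 606872) (.g (nat_lit 659) (.e (nat_lit 794635) (nat_lit 11) (.e (nat_lit 336151) (nat_lit 9) (.e (nat_lit 336437) (nat_lit 31) (.e (nat_lit 458769) (nat_lit 16) (.e (nat_lit 164288) (nat_lit 224) (.e (nat_lit 164112) (nat_lit 118) .nil)))))) (.g (nat_lit 1) (.e (nat_lit 434808) (nat_lit 0) .nil) .nil)))) (.nd (nat_lit 9) 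
(.lf (nat_lit 606616) (.g (nat_lit 1702) (.e (nat_lit 786481) (nat_lit 30) (.e (nat_lit 360452) (nat_lit 0) (.e (nat_lit 5907) (nat_lit 320) (.e (nat_lit 1219) (nat_lit 90) (.e (nat_lit 81922) (nat_lit 0) .nil))))) (.g (nat_lit 0) (.e (nat_lit 434048) (nat_lit 0) .nil) .nil))) 
(.lf (nat_lit 607128) (.g (nat_lit 1023) (.e (nat_lit 794673) (nat_lit 23) (.e (nat_lit 204863) (nat_lit 27) (.e (nat_lit 344118) (nat_lit 21) .nil))) (.g (nat_lit 0) (.e (nat_lit 436651) (nat_lit 0) .nil) .nil)))))) (.nd (nat_lit 7) (.nd (nat_lit 8) (.nd (nat_lit 9) 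
(.lf (nat_lit 606296) (.g (nat_lit 807) (.e (nat_lit 778469) (nat_lit 11) (.e (nat_lit 24655) (nat_lit 13) (.e (nat_lit 393234) (nat_lit 17) .nil))) (.g (nat_lit 0) (.e (nat_lit 433351) (nat_lit 0) .nil) .nil))) 
(.lf (nat_lit 606808) (.g (nat_lit 2254) (.e (nat_lit 786483) (nat_lit 30) (.e (nat_lit 360475) (nat_lit 8) (.e (nat_lit 557091) (nat_lit 12) (.e (nat_lit 164010) (nat_lit 41) .nil)))) (.g (nat_lit 0) (.e (nat_lit 434669) (nat_lit 0) .nil) .nil)))) (.nd (nat_lit 9) 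
(.lf (nat_lit 606552) (.g (nat_lit 1054) (.e (nat_lit 786478) (nat_lit 29) (.e (nat_lit 352262) (nat_lit 0) (.e (nat_lit 3748) (nat_lit 228) (.e (nat_lit 786478) (nat_lit 29) .nil)))) (.g (nat_lit 0) (.e (nat_lit 433935) (nat_lit 0) .nil) .nil))) 
(.lf (nat_lit 607064) (.g (nat_lit 4472) (.e (nat_lit 794673) (nat_lit 23) (.e (nat_lit 204830) (nat_lit 18) (.e (nat_lit 57852) (nat_lit 252) (.e (nat_lit 57377) (nat_lit 3) (.e (nat_lit 98313) (nat_lit 9) (.e (nat_lit 336027) (nat_lit 3) (.e (nat_lit 98321) (nat_lit 17) (.e (nat_lit 3771) (nat_lit 229) .nil)))))))) (.g (nat_lit 1) (.e (nat_lit 436505) (nat_lit 0) .nil) .nil))))) 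
(.nd (nat_lit 8) (.nd (nat_lit 9) 
(.lf (nat_lit 606424) (.g (nat_lit 1949) (.e (nat_lit 786176) (nat_lit 11) (.e (nat_lit 24660) (nat_lit 13) (.e (nat_lit 393260) (nat_lit 21) (.e (nat_lit 409636) (nat_lit 14) (.e (nat_lit 270341) (nat_lit 0) .nil))))) (.g (nat_lit 0) (.e (nat_lit 433504) (nat_lit 0) .nil) .nil))) 
(.lf (nat_lit 606936) (.g (nat_lit 1693) (.e (nat_lit 794668) (nat_lit 22) (.e (nat_lit 196666) (nat_lit 13) (.e (nat_lit 65568) (nat_lit 2) (.e (nat_lit 90165) (nat_lit 12) .nil)))) (.g (nat_lit 0) (.e (nat_lit 435713) (nat_lit 0) .nil) .nil)))) (.nd (nat_lit 9) 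
(.lf (nat_lit 606680) (.g (nat_lit 2272) (.e (nat_lit 786481) (nat_lit 30) (.e (nat_lit 360473) (nat_lit 8) (.e (nat_lit 557089) (nat_lit 12) (.e (nat_lit 164000) (nat_lit 38) (.e (nat_lit 639022) (nat_lit 17) (.e (nat_lit 81664) (nat_lit 27) .nil)))))) (.g (nat_lit 1) (.e (nat_lit 434153) (nat_lit 0) .nil) .nil))) 
(.lf (nat_lit 607192) (.g (nat_lit 737) (.e (nat_lit 794682) (nat_lit 25) (.e (nat_lit 221215) (nat_lit 23) (.e (nat_lit 204883) (nat_lit 33) .nil))) (.g (nat_lit 0) (.e (nat_lit 436789) (nat_lit 0) .nil) .nil))))))) (.nd (nat_lit 6) (.nd (nat_lit 7) (.nd (nat_lit 8) (.nd (nat_lit 9) 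
(.lf (nat_lit 606264) (.g (nat_lit 2622) (.e (nat_lit 778469) (nat_lit 11) (.e (nat_lit 24608) (nat_lit 3) (.e (nat_lit 98373) (nat_lit 29) (.e (nat_lit 450587) (nat_lit 10) (.e (nat_lit 573477) (nat_lit 12) .nil))))) (.g (nat_lit 0) (.e (nat_lit 433310) (nat_lit 0) .nil) .nil))) 
(.lf (nat_lit 606776) (.g (nat_lit 1967) (.e (nat_lit 786483) (nat_lit 30) (.e (nat_lit 360454) (nat_lit 0) (.e (nat_lit 5907) (nat_lit 320) (.e (nat_lit 1221) (nat_lit 90) (.e (nat_lit 81924) (nat_lit 0) .nil))))) (.g (nat_lit 0) (.e (nat_lit 434307) (nat_lit 0) .nil) .nil)))) (.nd (nat_lit 9) 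
(.lf (nat_lit 606520) (.g (nat_lit 2218) (.e (nat_lit 786473) (nat_lit 27) (.e (nat_lit 336235) (nat_lit 14) (.e (nat_lit 401438) (nat_lit 9) (.e (nat_lit 426542) (nat_lit 29) (.e (nat_lit 352265) (nat_lit 0) (.e (nat_lit 3748) (nat_lit 228) .nil)))))) (.g (nat_lit 1) (.e (nat_lit 433780) (nat_lit 0) .nil) .nil))) 
(.lf (nat_lit 607032) (.g (nat_lit 2271) (.e (nat_lit 794669) (nat_lit 22) (.e (nat_lit 196670) (nat_lit 14) (.e (nat_lit 73746) (nat_lit 3) (.e (nat_lit 516119) (nat_lit 1) (.e (nat_lit 164154) (nat_lit 152) .nil))))) (.g (nat_lit 0) (.e (nat_lit 436289) (nat_lit 0) .nil) .nil))))) (.nd (nat_lit 8) (.nd (nat_lit 9) 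
(.lf (nat_lit 606392) (.g (nat_lit 3661) (.e (nat_lit 786176) (nat_lit 11) (.e (nat_lit 24608) (nat_lit 3) (.e (nat_lit 98373) (nat_lit 29) (.e (nat_lit 450588) (nat_lit 10) (.e (nat_lit 573475) (nat_lit 12) .nil))))) (.g (nat_lit 0) (.e (nat_lit 433466) (nat_lit 0) .nil) .nil))) 
(.lf (nat_lit 606904) (.g (nat_lit 1445) (.e (nat_lit 794659) (nat_lit 21) (.e (nat_lit 164398) (nat_lit 256) (.e (nat_lit 57435) (nat_lit 17) (.e (nat_lit 376868) (nat_lit 23) .nil)))) (.g (nat_lit 0) (.e (nat_lit 435035) (nat_lit 0) .nil) .nil)))) (.nd (nat_lit 9) 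
(.lf (nat_lit 606648) (.g (nat_lit 1527) (.e (nat_lit 786481) (nat_lit 30) (.e (nat_lit 360466) (nat_lit 3) (.e (nat_lit 516119) (nat_lit 1) (.e (nat_lit 164161) (nat_lit 152) .nil)))) (.g (nat_lit 0) (.e (nat_lit 434103) (nat_lit 0) .nil) .nil))) 
(.lf (nat_lit 607160) (.g (nat_lit 2473) (.e (nat_lit 794676) (nat_lit 24) (.e (nat_lit 213030) (nat_lit 11) (.e (nat_lit 24617) (nat_lit 7) (.e (nat_lit 319536) (nat_lit 17) (.e (nat_lit 294953) (nat_lit 12) .nil))))) (.g (nat_lit 0) (.e (nat_lit 436705) (nat_lit 0) .nil) .nil)))))) (.nd (nat_lit 7) (.nd (nat_lit 8) (.nd (nat_lit 9) 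
(.lf (nat_lit 606328) (.g (nat_lit 2319) (.e (nat_lit 778469) (nat_lit 11) (.e (nat_lit 24658) (nat_lit 13) (.e (nat_lit 393301) (nat_lit 27) (.e (nat_lit 491552) (nat_lit 9) .nil)))) (.g (nat_lit 0) (.e (nat_lit 433398) (nat_lit 0) .nil) .nil))) 
(.lf (nat_lit 606840) (.g (nat_lit 1250) (.e (nat_lit 802560) (nat_lit 5) (.e (nat_lit 114698) (nat_lit 11) (.e (nat_lit 426188) (nat_lit 9) (.e (nat_lit 426515) (nat_lit 27) .nil)))) (.g (nat_lit 0) (.e (nat_lit 434766) (nat_lit 0) .nil) .nil)))) (.nd (nat_lit 9) 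
(.lf (nat_lit 606584) (.g (nat_lit 1713) (.e (nat_lit 786480) (nat_lit 29) (.e (nat_lit 352309) (nat_lit 21) (.e (nat_lit 57873) (nat_lit 264) (.e (nat_lit 1221) (nat_lit 90) .nil)))) (.g (nat_lit 0) (.e (nat_lit 433989) (nat_lit 0) .nil) .nil))) 
(.lf (nat_lit 607096) (.g (nat_lit 1759) (.e (nat_lit 794673) (nat_lit 23) (.e (nat_lit 204862) (nat_lit 27) (.e (nat_lit 344117) (nat_lit 21) (.e (nat_lit 516115) (nat_lit 1) (.e (nat_lit 164183) (nat_lit 154) .nil))))) (.g (nat_lit 0) (.e (nat_lit 436582) (nat_lit 0) .nil) .nil))))) (.nd (nat_lit 8) (.nd (nat_lit 9) 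
(.lf (nat_lit 606456) (.g (nat_lit 1843) (.e (nat_lit 786444) (nat_lit 15) (.e (nat_lit 1859) (nat_lit 124) (.e (nat_lit 557107) (nat_lit 15) (.e (nat_lit 188450) (nat_lit 23) (.e (nat_lit 204882) (nat_lit 32) .nil))))) (.g (nat_lit 0) (.e (nat_lit 433631) (nat_lit 0) .nil) .nil))) 
(.lf (nat_lit 606968) (.g (nat_lit 2051) (.e (nat_lit 794669) (nat_lit 22) (.e (nat_lit 196668) (nat_lit 14) (.e (nat_lit 73746) (nat_lit 3) (.e (nat_lit 516117) (nat_lit 1) (.e (nat_lit 164159) (nat_lit 152) (.e (nat_lit 1027) (nat_lit 81) (.e (nat_lit 1255) (nat_lit 92) (.e (nat_lit 98321) (nat_lit 17) (.e (nat_lit 3771) (nat_lit 229) .nil))))))))) (.g (nat_lit 1) (.e (nat_lit 435879) (nat_lit 0) .nil) .nil)))) 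
(.nd (nat_lit 9) 
(.lf (nat_lit 606712) (.g (nat_lit 1013) (.e (nat_lit 786481) (nat_lit 30) (.e (nat_lit 360473) (nat_lit 8) (.e (nat_lit 557093) (nat_lit 12) (.e (nat_lit 164010) (nat_lit 41) .nil)))) (.g (nat_lit 0) (.e (nat_lit 434215) (nat_lit 0) .nil) .nil))) 
(.lf (nat_lit 607224) (.g (nat_lit 2958) (.e (nat_lit 802824) (nat_lit 11) (.e (nat_lit 336027) (nat_lit 3) (.e (nat_lit 98373) (nat_lit 29) (.e (nat_lit 450587) (nat_lit 10) (.e (nat_lit 573477) (nat_lit 12) .nil))))) (.g (nat_lit 0) (.e (nat_lit 437009) (nat_lit 0) .nil) .nil)))))))))) 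
(.nd (nat_lit 3) (.nd (nat_lit 4) (.nd (nat_lit 5) (.nd (nat_lit 6) (.nd (nat_lit 7) 
(.nd (nat_lit 8) (.nd (nat_lit 9) 
(.lf (nat_lit 606212) (.g (nat_lit 2923) (.e (nat_lit 778468) (nat_lit 11) (.e (nat_lit 24608) (nat_lit 3) (.e (nat_lit 98372) (nat_lit 29) (.e (nat_lit 450586) (nat_lit 10) .nil)))) (.g (nat_lit 0) (.e (nat_lit 433256) (nat_lit 0) .nil) .nil))) 
(.lf (nat_lit 606724) (.g (nat_lit 371) (.e (nat_lit 786481) (nat_lit 30) (.e (nat_lit 360486) (nat_lit 18) (.e (nat_lit 671762) (nat_lit 4) .nil))) (.g (nat_lit 0) (.e (nat_lit 434229) (nat_lit 0) .nil) .nil)))) (.nd (nat_lit 9) 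
(.lf (nat_lit 606468) (.g (nat_lit 3770) (.e (nat_lit 786448) (nat_lit 15) (.e (nat_lit 1859) (nat_lit 124) (.e (nat_lit 557109) (nat_lit 15) (.e (nat_lit 188452) (nat_lit 23) (.e (nat_lit 204880) (nat_lit 32) .nil))))) (.g (nat_lit 0) (.e (nat_lit 433664) (nat_lit 0) .nil) .nil))) 
(.lf (nat_lit 606980) (.g (nat_lit 2977) (.e (nat_lit 794669) (nat_lit 22) (.e (nat_lit 196668) (nat_lit 14) (.e (nat_lit 73747) (nat_lit 3) (.e (nat_lit 516115) (nat_lit 1) (.e (nat_lit 164148) (nat_lit 152) (.e (nat_lit 1027) (nat_lit 81) (.e (nat_lit 1255) (nat_lit 92) (.e (nat_lit 98321) (nat_lit 17) (.e (nat_lit 3771) (nat_lit 229) .nil))))))))) (.g (nat_lit 1) (.e (nat_lit 435932) (nat_lit 0) .nil) .nil))))) 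
(.nd (nat_lit 8) (.nd (nat_lit 9) 
(.lf (nat_lit 606340) (.g (nat_lit 405) (.e (nat_lit 778469) (nat_lit 11) (.e (nat_lit 24660) (nat_lit 13) (.e (nat_lit 393243) (nat_lit 17) .nil))) (.g (nat_lit 0) (.e (nat_lit 433410) (nat_lit 0) .nil) .nil))) 
(.lf (nat_lit 606852) (.g (nat_lit 1613) (.e (nat_lit 802560) (nat_lit 5) (.e (nat_lit 114698) (nat_lit 11) (.e (nat_lit 426334) (nat_lit 13) (.e (nat_lit 483404) (nat_lit 26) (.e (nat_lit 385107) (nat_lit 51) .nil))))) (.g (nat_lit 0) (.e (nat_lit 434785) (nat_lit 0) .nil) .nil)))) (.nd (nat_lit 9) 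
(.lf (nat_lit 606596) (.g (nat_lit 831) (.e (nat_lit 786480) (nat_lit 29) (.e (nat_lit 352318) (nat_lit 24) (.e (nat_lit 123184) (nat_lit 264) (.e (nat_lit 1296) (nat_lit 96) .nil)))) (.g (nat_lit 0) (.e (nat_lit 434014) (nat_lit 0) .nil) .nil))) 
(.lf (nat_lit 607108) (.g (nat_lit 1550) (.e (nat_lit 794673) (nat_lit 23) (.e (nat_lit 204862) (nat_lit 27) (.e (nat_lit 344118) (nat_lit 21) (.e (nat_lit 516120) (nat_lit 1) (.e (nat_lit 164182) (nat_lit 154) .nil))))) (.g (nat_lit 0) (.e (nat_lit 436608) (nat_lit 0) .nil) .nil)))))) (.nd (nat_lit 7) (.nd (nat_lit 8) (.nd (nat_lit 9) 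
(.lf (nat_lit 606276) (.g (nat_lit 1606) (.e (nat_lit 778469) (nat_lit 11) (.e (nat_lit 24628) (nat_lit 9) (.e (nat_lit 336443) (nat_lit 32) (.e (nat_lit 466969) (nat_lit 21) .nil)))) (.g (nat_lit 0) (.e (nat_lit 433325) (nat_lit 0) .nil) .nil))) 
(.lf (nat_lit 606788) (.g (nat_lit 2681) (.e (nat_lit 786483) (nat_lit 30) (.e (nat_lit 360474) (nat_lit 8) (.e (nat_lit 557091) (nat_lit 12) (.e (nat_lit 164005) (nat_lit 41) .nil)))) (.g (nat_lit 0) (.e (nat_lit 434413) (nat_lit 0) .nil) .nil)))) (.nd (nat_lit 9) 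
(.lf (nat_lit 606532) (.g (nat_lit 1330) (.e (nat_lit 786473) (nat_lit 27) (.e (nat_lit 336235) (nat_lit 14) (.e (nat_lit 401456) (nat_lit 13) (.e (nat_lit 483406) (nat_lit 26) .nil)))) (.g (nat_lit 0) (.e (nat_lit 433793) (nat_lit 0) .nil) .nil))) 
(.lf (nat_lit 607044) (.g (nat_lit 2400) (.e (nat_lit 794671) (nat_lit 23) (.e (nat_lit 204829) (nat_lit 18) (.e (nat_lit 57849) (nat_lit 252) (.e (nat_lit 57377) (nat_lit 3) (.e (nat_lit 98313) (nat_lit 9) .nil))))) (.g (nat_lit 0) (.e (nat_lit 436408) (nat_lit 0) .nil) .nil))))) (.nd (nat_lit 8) (.nd (nat_lit 9) 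
(.lf (nat_lit 606404) (.g (nat_lit 1765) (.e (nat_lit 786176) (nat_lit 11) (.e (nat_lit 24655) (nat_lit 13) (.e (nat_lit 393300) (nat_lit 27) (.e (nat_lit 491560) (nat_lit 10) (.e (nat_lit 352000) (nat_lit 44) .nil))))) (.g (nat_lit 0) (.e (nat_lit 433483) (nat_lit 0) .nil) .nil))) 
(.lf (nat_lit 606916) (.g (nat_lit 3338) (.e (nat_lit 794665) (nat_lit 22) (.e (nat_lit 196654) (nat_lit 11) (.e (nat_lit 16436) (nat_lit 9) (.e (nat_lit 426131) (nat_lit 3) (.e (nat_lit 204882) (nat_lit 32) (.e (nat_lit 385109) (nat_lit 51) .nil)))))) (.g (nat_lit 1) (.e (nat_lit 435231) (nat_lit 0) .nil) .nil)))) (.nd (nat_lit 9) 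
(.lf (nat_lit 606660) (.g (nat_lit 527) (.e (nat_lit 786481) (nat_lit 30) (.e (nat_lit 360467) (nat_lit 3) (.e (nat_lit 516115) (nat_lit 1) .nil))) (.g (nat_lit 0) (.e (nat_lit 434121) (nat_lit 0) .nil) .nil))) 
(.lf (nat_lit 607172) (.g (nat_lit 1213) (.e (nat_lit 794678) (nat_lit 24) (.e (nat_lit 213032) (nat_lit 11) (.e (nat_lit 24663) (nat_lit 14) .nil))) (.g (nat_lit 0) (.e (nat_lit 436722) (nat_lit 0) .nil) .nil))))))) (.nd (nat_lit 6) (.nd (nat_lit 7) (.nd (nat_lit 8) (.nd (nat_lit 9) 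
(.lf (nat_lit 606244) (.g (nat_lit 3361) (.e (nat_lit 778469) (nat_lit 11) (.e (nat_lit 24604) (nat_lit 2) (.e (nat_lit 90185) (nat_lit 17) (.e (nat_lit 237619) (nat_lit 12) (.e (nat_lit 475179) (nat_lit 24) (.e (nat_lit 516102) (nat_lit 0) (.e (nat_lit 3711) (nat_lit 227) .nil))))))) (.g (nat_lit 1) (.e (nat_lit 433289) (nat_lit 0) .nil) .nil))) 
(.lf (nat_lit 606756) (.g (nat_lit 432) (.e (nat_lit 786483) (nat_lit 30) (.e (nat_lit 360451) (nat_lit 0) (.e (nat_lit 4764) (nat_lit 281) .nil))) (.g (nat_lit 0) (.e (nat_lit 434274) (nat_lit 0) .nil) .nil)))) (.nd (nat_lit 9) 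
(.lf (nat_lit 606500) (.g (nat_lit 2524) (.e (nat_lit 786470) (nat_lit 27) (.e (nat_lit 336226) (nat_lit 14) (.e (nat_lit 401457) (nat_lit 13) (.e (nat_lit 483403) (nat_lit 26) (.e (nat_lit 385105) (nat_lit 50) .nil))))) (.g (nat_lit 0) (.e (nat_lit 433745) (nat_lit 0) .nil) .nil))) 
(.lf (nat_lit 607012) (.g (nat_lit 2511) (.e (nat_lit 794669) (nat_lit 22) (.e (nat_lit 196668) (nat_lit 14) (.e (nat_lit 73747) (nat_lit 3) (.e (nat_lit 516119) (nat_lit 1) (.e (nat_lit 164185) (nat_lit 155) .nil))))) (.g (nat_lit 0) (.e (nat_lit 436153) (nat_lit 0) .nil) .nil))))) (.nd (nat_lit 8) (.nd (nat_lit 9) 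
(.lf (nat_lit 606372) (.g (nat_lit 1369) (.e (nat_lit 786176) (nat_lit 11) (.e (nat_lit 24604) (nat_lit 2) (.e (nat_lit 90176) (nat_lit 15) (.e (nat_lit 188431) (nat_lit 20) .nil)))) (.g (nat_lit 0) (.e (nat_lit 433446) (nat_lit 0) .nil) .nil))) 
(.lf (nat_lit 606884) (.g (nat_lit 2232) (.e (nat_lit 794636) (nat_lit 11) (.e (nat_lit 336011) (nat_lit 2) (.e (nat_lit 90170) (nat_lit 13) (.e (nat_lit 172113) (nat_lit 10) (.e (nat_lit 434248) (nat_lit 28) .nil))))) (.g (nat_lit 0) (.e (nat_lit 434820) (nat_lit 0) .nil) .nil)))) (.nd (nat_lit 9) 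
(.lf (nat_lit 606628) (.g (nat_lit 1249) (.e (nat_lit 786481) (nat_lit 30) (.e (nat_lit 360457) (nat_lit 0) (.e (nat_lit 5948) (nat_lit 322) (.e (nat_lit 57436) (nat_lit 17) (.e (nat_lit 376835) (nat_lit 0) .nil))))) (.g (nat_lit 0) (.e (nat_lit 434068) (nat_lit 0) .nil) .nil))) 
(.lf (nat_lit 607140) (.g (nat_lit 1982) (.e (nat_lit 794673) (nat_lit 23) (.e (nat_lit 204863) (nat_lit 27) (.e (nat_lit 344120) (nat_lit 21) (.e (nat_lit 516115) (nat_lit 1) (.e (nat_lit 164179) (nat_lit 154) .nil))))) (.g (nat_lit 0) (.e (nat_lit 436667) (nat_lit 0) .nil) .nil)))))) (.nd (nat_lit 7) (.nd (nat_lit 8) (.nd (nat_lit 9) 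
(.lf (nat_lit 606308) (.g (nat_lit 2230) (.e (nat_lit 778469) (nat_lit 11) (.e (nat_lit 24657) (nat_lit 13) (.e (nat_lit 393294) (nat_lit 26) (.e (nat_lit 475212) (nat_lit 42) (.e (nat_lit 728832) (nat_lit 0) .nil))))) (.g (nat_lit 0) (.e (nat_lit 433370) (nat_lit 0) .nil) .nil))) 
(.lf (nat_lit 606820) (.g (nat_lit 2234) (.e (nat_lit 786483) (nat_lit 30) (.e (nat_lit 360486) (nat_lit 18) (.e (nat_lit 671761) (nat_lit 4) (.e (nat_lit 65624) (nat_lit 12) (.e (nat_lit 385102) (nat_lit 50) .nil))))) (.g (nat_lit 0) (.e (nat_lit 434711) (nat_lit 0) .nil) .nil)))) (.nd (nat_lit 9) 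
(.lf (nat_lit 606564) (.g (nat_lit 531) (.e (nat_lit 786479) (nat_lit 29) (.e (nat_lit 352309) (nat_lit 21) (.e (nat_lit 57870) (nat_lit 264) .nil))) (.g (nat_lit 0) (.e (nat_lit 433952) (nat_lit 0) .nil) .nil))) 
(.lf (nat_lit 607076) (.g (nat_lit 3295) (.e (nat_lit 794673) (nat_lit 23) (.e (nat_lit 204831) (nat_lit 18) (.e (nat_lit 57849) (nat_lit 252) (.e (nat_lit 57377) (nat_lit 3) (.e (nat_lit 98313) (nat_lit 9) (.e (nat_lit 336027) (nat_lit 3) (.e (nat_lit 98321) (nat_lit 17) (.e (nat_lit 3771) (nat_lit 229) .nil)))))))) (.g (nat_lit 1) (.e (nat_lit 436528) (nat_lit 0) .nil) .nil))))) 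
(.nd (nat_lit 8) (.nd (nat_lit 9) 
(.lf (nat_lit 606436) (.g (nat_lit 1422) (.e (nat_lit 778511) (nat_lit 14) (.e (nat_lit 2777) (nat_lit 178) (.e (nat_lit 286759) (nat_lit 12) (.e (nat_lit 385106) (nat_lit 50) .nil)))) (.g (nat_lit 0) (.e (nat_lit 433542) (nat_lit 0) .nil) .nil))) 
(.lf (nat_lit 606948) (.g (nat_lit 1688) (.e (nat_lit 794668) (nat_lit 22) (.e (nat_lit 196666) (nat_lit 13) (.e (nat_lit 65571) (nat_lit 3) (.e (nat_lit 98333) (nat_lit 18) .nil)))) (.g (nat_lit 0) (.e (nat_lit 435769) (nat_lit 0) .nil) .nil)))) (.nd (nat_lit 9) 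
(.lf (nat_lit 606692) (.g (nat_lit 3064) (.e (nat_lit 786481) (nat_lit 30) (.e (nat_lit 360473) (nat_lit 8) (.e (nat_lit 557090) (nat_lit 12) (.e (nat_lit 164010) (nat_lit 41) .nil)))) (.g (nat_lit 0) (.e (nat_lit 434183) (nat_lit 0) .nil) .nil))) 
(.lf (nat_lit 607204) (.g (nat_lit 1611) (.e (nat_lit 794683) (nat_lit 25) (.e (nat_lit 221215) (nat_lit 23) (.e (nat_lit 204883) (nat_lit 33) (.e (nat_lit 401459) (nat_lit 13) (.e (nat_lit 483343) (nat_lit 17) .nil))))) (.g (nat_lit 0) (.e (nat_lit 436861) (nat_lit 0) .nil) .nil)))))))) (.nd (nat_lit 5) (.nd (nat_lit 6) (.nd (nat_lit 7) (.nd (nat_lit 8) (.nd (nat_lit 9) 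
(.lf (nat_lit 606228) (.g (nat_lit 1371) (.e (nat_lit 778468) (nat_lit 11) (.e (nat_lit 24658) (nat_lit 13) (.e (nat_lit 393281) (nat_lit 23) (.e (nat_lit 426100) (nat_lit 1) .nil)))) (.g (nat_lit 0) (.e (nat_lit 433273) (nat_lit 0) .nil) .nil))) 
(.lf (nat_lit 606740) (.g (nat_lit 2313) (.e (nat_lit 786482) (nat_lit 30) (.e (nat_lit 360475) (nat_lit 8) (.e (nat_lit 557089) (nat_lit 12) (.e (nat_lit 164010) (nat_lit 41) (.e (nat_lit 663583) (nat_lit 11) .nil))))) (.g (nat_lit 0) (.e (nat_lit 434252) (nat_lit 0) .nil) .nil)))) (.nd (nat_lit 9) 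
(.lf (nat_lit 606484) (.g (nat_lit 1000) (.e (nat_lit 786457) (nat_lit 18) (.e (nat_lit 98381) (nat_lit 31) (.e (nat_lit 466954) (nat_lit 11) (.e (nat_lit 336049) (nat_lit 6) (.e (nat_lit 147498) (nat_lit 12) (.e (nat_lit 164053) (nat_lit 56) .nil)))))) (.g (nat_lit 1) (.e (nat_lit 433708) (nat_lit 0) .nil) .nil))) 
(.lf (nat_lit 606996) (.g (nat_lit 2246) (.e (nat_lit 794669) (nat_lit 22) (.e (nat_lit 196668) (nat_lit 14) (.e (nat_lit 73747) (nat_lit 3) (.e (nat_lit 516117) (nat_lit 1) (.e (nat_lit 164147) (nat_lit 152) (.e (nat_lit 1027) (nat_lit 81) (.e (nat_lit 1255) (nat_lit 92) (.e (nat_lit 98321) (nat_lit 17) (.e (nat_lit 3771) (nat_lit 229) .nil))))))))) (.g (nat_lit 1) (.e (nat_lit 436028) (nat_lit 0) .nil) .nil))))) 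
(.nd (nat_lit 8) (.nd (nat_lit 9) 
(.lf (nat_lit 606356) (.g (nat_lit 1505) (.e (nat_lit 778470) (nat_lit 11) (.e (nat_lit 24628) (nat_lit 9) (.e (nat_lit 336438) (nat_lit 31) (.e (nat_lit 466688) (nat_lit 5) .nil)))) (.g (nat_lit 0) (.e (nat_lit 433427) (nat_lit 0) .nil) .nil))) 
(.lf (nat_lit 606868) (.g (nat_lit 1038) (.e (nat_lit 794635) (nat_lit 11) (.e (nat_lit 336121) (nat_lit 9) (.e (nat_lit 336437) (nat_lit 31) (.e (nat_lit 458769) (nat_lit 16) (.e (nat_lit 164291) (nat_lit 224) (.e (nat_lit 164112) (nat_lit 118) .nil)))))) (.g (nat_lit 1) (.e (nat_lit 434804) (nat_lit 0) .nil) .nil)))) (.nd (nat_lit 9) 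
(.lf (nat_lit 606612) (.g (nat_lit 1957) (.e (nat_lit 786481) (nat_lit 30) (.e (nat_lit 360452) (nat_lit 0) (.e (nat_lit 5906) (nat_lit 320) (.e (nat_lit 1219) (nat_lit 90) (.e (nat_lit 81922) (nat_lit 0) .nil))))) (.g (nat_lit 0) (.e (nat_lit 434042) (nat_lit 0) .nil) .nil))) 
(.lf (nat_lit 607124) (.g (nat_lit 2858) (.e (nat_lit 794673) (nat_lit 23) (.e (nat_lit 204863) (nat_lit 27) (.e (nat_lit 344117) (nat_lit 21) (.e (nat_lit 516116) (nat_lit 1) (.e (nat_lit 164181) (nat_lit 154) .nil))))) (.g (nat_lit 0) (.e (nat_lit 436640) (nat_lit 0) .nil) .nil)))))) (.nd (nat_lit 7) (.nd (nat_lit 8) (.nd (nat_lit 9) 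
(.lf (nat_lit 606292) (.g (nat_lit 1467) (.e (nat_lit 778469) (nat_lit 11) (.e (nat_lit 24654) (nat_lit 13) (.e (nat_lit 393301) (nat_lit 27) (.e (nat_lit 491559) (nat_lit 10) .nil)))) (.g (nat_lit 0) (.e (nat_lit 433347) (nat_lit 0) .nil) .nil))) 
(.lf (nat_lit 606804) (.g (nat_lit 1971) (.e (nat_lit 786483) (nat_lit 30) (.e (nat_lit 360475) (nat_lit 8) (.e (nat_lit 557090) (nat_lit 12) (.e (nat_lit 164003) (nat_lit 40) .nil)))) (.g (nat_lit 0) (.e (nat_lit 434576) (nat_lit 0) .nil) .nil)))) (.nd (nat_lit 9) 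
(.lf (nat_lit 606548) (.g (nat_lit 2508) (.e (nat_lit 786477) (nat_lit 28) (.e (nat_lit 344177) (nat_lit 43) (.e (nat_lit 770072) (nat_lit 8) (.e (nat_lit 65571) (nat_lit 3) (.e (nat_lit 98342) (nat_lit 20) .nil))))) (.g (nat_lit 0) (.e (nat_lit 433921) (nat_lit 0) .nil) .nil))) 
(.lf (nat_lit 607060) (.g (nat_lit 3939) (.e (nat_lit 794673) (nat_lit 23) (.e (nat_lit 204829) (nat_lit 18) (.e (nat_lit 57927) (nat_lit 282) (.e (nat_lit 163875) (nat_lit 3) (.e (nat_lit 204872) (nat_lit 30) (.e (nat_lit 368676) (nat_lit 21) (.e (nat_lit 516100) (nat_lit 0) (.e (nat_lit 3771) (nat_lit 229) .nil)))))))) (.g (nat_lit 1) (.e (nat_lit 436499) (nat_lit 0) .nil) .nil))))) 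
(.nd (nat_lit 8) (.nd (nat_lit 9) 
(.lf (nat_lit 606420) (.g (nat_lit 2102) (.e (nat_lit 786176) (nat_lit 11) (.e (nat_lit 24660) (nat_lit 13) (.e (nat_lit 393260) (nat_lit 21) (.e (nat_lit 409614) (nat_lit 10) .nil)))) (.g (nat_lit 0) (.e (nat_lit 433500) (nat_lit 0) .nil) .nil))) 
(.lf (nat_lit 606932) (.g (nat_lit 1324) (.e (nat_lit 794667) (nat_lit 22) (.e (nat_lit 196666) (nat_lit 13) (.e (nat_lit 65569) (nat_lit 3) (.e (nat_lit 98334) (nat_lit 18) .nil)))) (.g (nat_lit 0) (.e (nat_lit 435598) (nat_lit 0) .nil) .nil)))) (.nd (nat_lit 9) 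
(.lf (nat_lit 606676) (.g (nat_lit 1697) (.e (nat_lit 786481) (nat_lit 30) (.e (nat_lit 360473) (nat_lit 8) (.e (nat_lit 557089) (nat_lit 12) (.e (nat_lit 163999) (nat_lit 38) (.e (nat_lit 639021) (nat_lit 16) .nil))))) (.g (nat_lit 0) (.e (nat_lit 434148) (nat_lit 0) .nil) .nil))) 
(.lf (nat_lit 607188) (.g (nat_lit 1055) (.e (nat_lit 794682) (nat_lit 25) (.e (nat_lit 221194) (nat_lit 11) (.e (nat_lit 336068) (nat_lit 8) .nil))) (.g (nat_lit 0) (.e (nat_lit 436751) (nat_lit 0) .nil) .nil))))))) (.nd (nat_lit 6) (.nd (nat_lit 7) (.nd (nat_lit 8) (.nd (nat_lit 9) 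
(.lf (nat_lit 606260) (.g (nat_lit 2351) (.e (nat_lit 778469) (nat_lit 11) (.e (nat_lit 24608) (nat_lit 3) (.e (nat_lit 98372) (nat_lit 29) (.e (nat_lit 450587) (nat_lit 10) .nil)))) (.g (nat_lit 0) (.e (nat_lit 433306) (nat_lit 0) .nil) .nil))) 
(.lf (nat_lit 606772) (.g (nat_lit 2367) (.e (nat_lit 786483) (nat_lit 30) (.e (nat_lit 360453) (nat_lit 0) (.e (nat_lit 5907) (nat_lit 320) (.e (nat_lit 1221) (nat_lit 90) (.e (nat_lit 81924) (nat_lit 0) .nil))))) (.g (nat_lit 0) (.e (nat_lit 434302) (nat_lit 0) .nil) .nil)))) (.nd (nat_lit 9) 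
(.lf (nat_lit 606516) (.g (nat_lit 2415) (.e (nat_lit 786473) (nat_lit 27) (.e (nat_lit 336235) (nat_lit 14) (.e (nat_lit 401435) (nat_lit 9) (.e (nat_lit 426542) (nat_lit 29) (.e (nat_lit 352267) (nat_lit 0) .nil))))) (.g (nat_lit 0) (.e (nat_lit 433776) (nat_lit 0) .nil) .nil))) 
(.lf (nat_lit 607028) (.g (nat_lit 2140) (.e (nat_lit 794669) (nat_lit 22) (.e (nat_lit 196670) (nat_lit 14) (.e (nat_lit 73746) (nat_lit 3) (.e (nat_lit 516117) (nat_lit 1) (.e (nat_lit 164184) (nat_lit 155) .nil))))) (.g (nat_lit 0) (.e (nat_lit 436275) (nat_lit 0) .nil) .nil))))) (.nd (nat_lit 8) (.nd (nat_lit 9) 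
(.lf (nat_lit 606388) (.g (nat_lit 2926) (.e (nat_lit 786176) (nat_lit 11) (.e (nat_lit 24608) (nat_lit 3) (.e (nat_lit 98373) (nat_lit 29) (.e (nat_lit 450587) (nat_lit 10) (.e (nat_lit 573475) (nat_lit 12) .nil))))) (.g (nat_lit 0) (.e (nat_lit 433462) (nat_lit 0) .nil) .nil))) 
(.lf (nat_lit 606900) (.g (nat_lit 2180) (.e (nat_lit 794658) (nat_lit 21) (.e (nat_lit 164398) (nat_lit 256) (.e (nat_lit 57437) (nat_lit 17) (.e (nat_lit 376869) (nat_lit 23) (.e (nat_lit 98315) (nat_lit 9) .nil))))) (.g (nat_lit 0) (.e (nat_lit 434961) (nat_lit 0) .nil) .nil)))) (.nd (nat_lit 9) 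
(.lf (nat_lit 606644) (.g (nat_lit 1945) (.e (nat_lit 786481) (nat_lit 30) (.e (nat_lit 360466) (nat_lit 3) (.e (nat_lit 516117) (nat_lit 1) (.e (nat_lit 164184) (nat_lit 155) (.e (nat_lit 122911) (nat_lit 13) (.e (nat_lit 352000) (nat_lit 45) .nil)))))) (.g (nat_lit 1) (.e (nat_lit 434099) (nat_lit 0) .nil) .nil))) 
(.lf (nat_lit 607156) (.g (nat_lit 1781) (.e (nat_lit 794676) (nat_lit 24) (.e (nat_lit 213030) (nat_lit 11) (.e (nat_lit 24617) (nat_lit 7) (.e (nat_lit 319535) (nat_lit 17) .nil)))) (.g (nat_lit 0) (.e (nat_lit 436701) (nat_lit 0) .nil) .nil)))))) (.nd (nat_lit 7) (.nd (nat_lit 8) (.nd (nat_lit 9) 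
(.lf (nat_lit 606324) (.g (nat_lit 860) (.e (nat_lit 778469) (nat_lit 11) (.e (nat_lit 24658) (nat_lit 13) (.e (nat_lit 393299) (nat_lit 27) .nil))) (.g (nat_lit 0) (.e (nat_lit 433394) (nat_lit 0) .nil) .nil))) 
(.lf (nat_lit 606836) (.g (nat_lit 1996) (.e (nat_lit 802560) (nat_lit 4) (.e (nat_lit 106536) (nat_lit 11) (.e (nat_lit 16439) (nat_lit 9) (.e (nat_lit 426513) (nat_lit 27) (.e (nat_lit 336194) (nat_lit 12) .nil))))) (.g (nat_lit 0) (.e (nat_lit 434752) (nat_lit 0) .nil) .nil)))) (.nd (nat_lit 9) 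
(.lf (nat_lit 606580) (.g (nat_lit 1794) (.e (nat_lit 786480) (nat_lit 29) (.e (nat_lit 352309) (nat_lit 21) (.e (nat_lit 57873) (nat_lit 264) (.e (nat_lit 1190) (nat_lit 88) .nil)))) (.g (nat_lit 0) (.e (nat_lit 433985) (nat_lit 0) .nil) .nil))) 
(.lf (nat_lit 607092) (.g (nat_lit 1967) (.e (nat_lit 794673) (nat_lit 23) (.e (nat_lit 204862) (nat_lit 27) (.e (nat_lit 344117) (nat_lit 21) (.e (nat_lit 516115) (nat_lit 1) (.e (nat_lit 164177) (nat_lit 154) .nil))))) (.g (nat_lit 0) (.e (nat_lit 436578) (nat_lit 0) .nil) .nil))))) (.nd (nat_lit 8) (.nd (nat_lit 9) 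
(.lf (nat_lit 606452) (.g (nat_lit 2437) (.e (nat_lit 794368) (nat_lit 14) (.e (nat_lit 491569) (nat_lit 13) (.e (nat_lit 393301) (nat_lit 27) (.e (nat_lit 491558) (nat_lit 10) (.e (nat_lit 352000) (nat_lit 45) .nil))))) (.g (nat_lit 0) (.e (nat_lit 433627) (nat_lit 0) .nil) .nil))) 
(.lf (nat_lit 606964) (.g (nat_lit 1760) (.e (nat_lit 794669) (nat_lit 22) (.e (nat_lit 196668) (nat_lit 14) (.e (nat_lit 73750) (nat_lit 6) (.e (nat_lit 540675) (nat_lit 0) (.e (nat_lit 2270) (nat_lit 149) (.e (nat_lit 761867) (nat_lit 5) (.e (nat_lit 1250) (nat_lit 92) (.e (nat_lit 98321) (nat_lit 17) (.e (nat_lit 3771) (nat_lit 229) .nil))))))))) (.g (nat_lit 1) (.e (nat_lit 435867) (nat_lit 0) .nil) .nil)))) 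
(.nd (nat_lit 9) 
(.lf (nat_lit 606708) (.g (nat_lit 1319) (.e (nat_lit 786481) (nat_lit 30) (.e (nat_lit 360473) (nat_lit 8) (.e (nat_lit 557091) (nat_lit 12) (.e (nat_lit 164008) (nat_lit 41) .nil)))) (.g (nat_lit 0) (.e (nat_lit 434205) (nat_lit 0) .nil) .nil))) 
(.lf (nat_lit 607220) (.g (nat_lit 2701) (.e (nat_lit 794689) (nat_lit 28) (.e (nat_lit 253990) (nat_lit 11) (.e (nat_lit 16473) (nat_lit 14) (.e (nat_lit 491560) (nat_lit 10) (.e (nat_lit 344160) (nat_lit 37) .nil))))) (.g (nat_lit 0) (.e (nat_lit 437003) (nat_lit 0) .nil) .nil))))))))) (.nd (nat_lit 4) (.nd (nat_lit 5) (.nd (nat_lit 6) (.nd (nat_lit 7) (.nd (nat_lit 8) (.nd (nat_lit 9) 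
(.lf (nat_lit 606220) (.g (nat_lit 2352) (.e (nat_lit 778468) (nat_lit 11) (.e (nat_lit 24617) (nat_lit 7) (.e (nat_lit 319533) (nat_lit 16) (.e (nat_lit 286753) (nat_lit 10) (.e (nat_lit 344169) (nat_lit 40) .nil))))) (.g (nat_lit 0) (.e (nat_lit 433264) (nat_lit 0) .nil) .nil))) 
(.lf (nat_lit 606732) (.g (nat_lit 1531) (.e (nat_lit 786482) (nat_lit 30) (.e (nat_lit 360477) (nat_lit 11) (.e (nat_lit 581651) (nat_lit 4) (.e (nat_lit 172082) (nat_lit 7) (.e (nat_lit 409612) (nat_lit 10) .nil))))) (.g (nat_lit 0) (.e (nat_lit 434244) (nat_lit 0) .nil) .nil)))) (.nd (nat_lit 9) 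
(.lf (nat_lit 606476) (.g (nat_lit 2571) (.e (nat_lit 786456) (nat_lit 18) (.e (nat_lit 98367) (nat_lit 27) (.e (nat_lit 434248) (nat_lit 28) (.e (nat_lit 573482) (nat_lit 13) (.e (nat_lit 73472) (nat_lit 18) .nil))))) (.g (nat_lit 0) (.e (nat_lit 433672) (nat_lit 0) .nil) .nil))) 
(.lf (nat_lit 606988) (.g (nat_lit 2272) (.e (nat_lit 794669) (nat_lit 22) (.e (nat_lit 196668) (nat_lit 14) (.e (nat_lit 73747) (nat_lit 3) (.e (nat_lit 516115) (nat_lit 1) (.e (nat_lit 164155) (nat_lit 152) .nil))))) (.g (nat_lit 0) (.e (nat_lit 435942) (nat_lit 0) .nil) .nil))))) (.nd (nat_lit 8) (.nd (nat_lit 9) 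
(.lf (nat_lit 606348) (.g (nat_lit 1649) (.e (nat_lit 778469) (nat_lit 11) (.e (nat_lit 24660) (nat_lit 13) (.e (nat_lit 393298) (nat_lit 27) (.e (nat_lit 491560) (nat_lit 10) (.e (nat_lit 352000) (nat_lit 44) .nil))))) (.g (nat_lit 0) (.e (nat_lit 433419) (nat_lit 0) .nil) .nil))) 
(.lf (nat_lit 606860) (.g (nat_lit 1034) (.e (nat_lit 794635) (nat_lit 11) (.e (nat_lit 336119) (nat_lit 9) (.e (nat_lit 336437) (nat_lit 31) (.e (nat_lit 458769) (nat_lit 16) (.e (nat_lit 164288) (nat_lit 224) (.e (nat_lit 164112) (nat_lit 118) .nil)))))) (.g (nat_lit 1) (.e (nat_lit 434796) (nat_lit 0) .nil) .nil)))) (.nd (nat_lit 9) 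
(.lf (nat_lit 606604) (.g (nat_lit 2030) (.e (nat_lit 786480) (nat_lit 29) (.e (nat_lit 352318) (nat_lit 24) (.e (nat_lit 123195) (nat_lit 266) (.e (nat_lit 57436) (nat_lit 17) (.e (nat_lit 376835) (nat_lit 0) .nil))))) (.g (nat_lit 0) (.e (nat_lit 434027) (nat_lit 0) .nil) .nil))) 
(.lf (nat_lit 607116) (.g (nat_lit 2282) (.e (nat_lit 794673) (nat_lit 23) (.e (nat_lit 204863) (nat_lit 27) (.e (nat_lit 344117) (nat_lit 21) (.e (nat_lit 516115) (nat_lit 1) (.e (nat_lit 164183) (nat_lit 154) .nil))))) (.g (nat_lit 0) (.e (nat_lit 436627) (nat_lit 0) .nil) .nil)))))) (.nd (nat_lit 7) (.nd (nat_lit 8) (.nd (nat_lit 9) 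
(.lf (nat_lit 606284) (.g (nat_lit 3065) (.e (nat_lit 778469) (nat_lit 11) (.e (nat_lit 24628) (nat_lit 9) (.e (nat_lit 336443) (nat_lit 32) (.e (nat_lit 466972) (nat_lit 21) (.e (nat_lit 164305) (nat_lit 226) (.e (nat_lit 2612) (nat_lit 163) (.e (nat_lit 164048) (nat_lit 55) .nil))))))) (.g (nat_lit 1) (.e (nat_lit 433333) (nat_lit 0) .nil) .nil))) 
(.lf (nat_lit 606796) (.g (nat_lit 2055) (.e (nat_lit 786483) (nat_lit 30) (.e (nat_lit 360475) (nat_lit 8) (.e (nat_lit 557090) (nat_lit 12) (.e (nat_lit 163844) (nat_lit 0) .nil)))) (.g (nat_lit 0) (.e (nat_lit 434535) (nat_lit 0) .nil) .nil)))) (.nd (nat_lit 9) 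
(.lf (nat_lit 606540) (.g (nat_lit 2204) (.e (nat_lit 786477) (nat_lit 28) (.e (nat_lit 344177) (nat_lit 43) (.e (nat_lit 770072) (nat_lit 8) (.e (nat_lit 65569) (nat_lit 3) (.e (nat_lit 98342) (nat_lit 20) (.e (nat_lit 221198) (nat_lit 20) (.e (nat_lit 3744) (nat_lit 228) .nil))))))) (.g (nat_lit 1) (.e (nat_lit 433912) (nat_lit 0) .nil) .nil))) 
(.lf (nat_lit 607052) (.g (nat_lit 732) (.e (nat_lit 794673) (nat_lit 23) (.e (nat_lit 204829) (nat_lit 18) (.e (nat_lit 57849) (nat_lit 252) .nil))) (.g (nat_lit 0) (.e (nat_lit 436482) (nat_lit 0) .nil) .nil))))) (.nd (nat_lit 8) (.nd (nat_lit 9) 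
(.lf (nat_lit 606412) (.g (nat_lit 832) (.e (nat_lit 786176) (nat_lit 11) (.e (nat_lit 24658) (nat_lit 13) (.e (nat_lit 393301) (nat_lit 27) .nil))) (.g (nat_lit 0) (.e (nat_lit 433492) (nat_lit 0) .nil) .nil))) 
(.lf (nat_lit 606924) (.g (nat_lit 3172) (.e (nat_lit 794666) (nat_lit 22) (.e (nat_lit 196656) (nat_lit 11) (.e (nat_lit 16436) (nat_lit 9) (.e (nat_lit 426131) (nat_lit 3) (.e (nat_lit 204882) (nat_lit 32) (.e (nat_lit 385109) (nat_lit 51) .nil)))))) (.g (nat_lit 1) (.e (nat_lit 435374) (nat_lit 0) .nil) .nil)))) (.nd (nat_lit 9) 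
(.lf (nat_lit 606668) (.g (nat_lit 1541) (.e (nat_lit 786481) (nat_lit 30) (.e (nat_lit 360467) (nat_lit 3) (.e (nat_lit 516117) (nat_lit 1) (.e (nat_lit 164159) (nat_lit 152) .nil)))) (.g (nat_lit 0) (.e (nat_lit 434130) (nat_lit 0) .nil) .nil))) 
(.lf (nat_lit 607180) (.g (nat_lit 1702) (.e (nat_lit 794680) (nat_lit 24) (.e (nat_lit 213030) (nat_lit 11) (.e (nat_lit 24617) (nat_lit 7) (.e (nat_lit 319531) (nat_lit 16) (.e (nat_lit 286748) (nat_lit 9) .nil))))) (.g (nat_lit 0) (.e (nat_lit 436736) (nat_lit 0) .nil) .nil))))))) (.nd (nat_lit 6) (.nd (nat_lit 7) (.nd (nat_lit 8) (.nd (nat_lit 9) 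
(.lf (nat_lit 606252) (.g (nat_lit 1605) (.e (nat_lit 778469) (nat_lit 11) (.e (nat_lit 24608) (nat_lit 3) (.e (nat_lit 98365) (nat_lit 26) (.e (nat_lit 426188) (nat_lit 9) .nil)))) (.g (nat_lit 0) (.e (nat_lit 433297) (nat_lit 0) .nil) .nil))) 
(.lf (nat_lit 606764) (.g (nat_lit 1459) (.e (nat_lit 786483) (nat_lit 30) (.e (nat_lit 360452) (nat_lit 0) (.e (nat_lit 5907) (nat_lit 320) (.e (nat_lit 1219) (nat_lit 90) .nil)))) (.g (nat_lit 0) (.e (nat_lit 434293) (nat_lit 0) .nil) .nil)))) (.nd (nat_lit 9) 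
(.lf (nat_lit 606508) (.g (nat_lit 1565) (.e (nat_lit 786471) (nat_lit 27) (.e (nat_lit 336228) (nat_lit 14) (.e (nat_lit 401456) (nat_lit 13) (.e (nat_lit 483408) (nat_lit 26) .nil)))) (.g (nat_lit 0) (.e (nat_lit 433758) (nat_lit 0) .nil) .nil))) 
(.lf (nat_lit 607020) (.g (nat_lit 2610) (.e (nat_lit 794669) (nat_lit 22) (.e (nat_lit 196670) (nat_lit 14) (.e (nat_lit 73746) (nat_lit 3) (.e (nat_lit 516115) (nat_lit 1) (.e (nat_lit 164153) (nat_lit 152) (.e (nat_lit 1027) (nat_lit 81) (.e (nat_lit 1255) (nat_lit 92) (.e (nat_lit 98321) (nat_lit 17) (.e (nat_lit 3771) (nat_lit 229) .nil))))))))) (.g (nat_lit 1) (.e (nat_lit 436220) (nat_lit 0) .nil) .nil))))) 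
(.nd (nat_lit 8) (.nd (nat_lit 9) 
(.lf (nat_lit 606380) (.g (nat_lit 1002) (.e (nat_lit 786176) (nat_lit 11) (.e (nat_lit 24608) (nat_lit 3) (.e (nat_lit 98372) (nat_lit 29) .nil))) (.g (nat_lit 0) (.e (nat_lit 433454) (nat_lit 0) .nil) .nil))) 
(.lf (nat_lit 606892) (.g (nat_lit 193) (.e (nat_lit 802560) (nat_lit 11) (.e (nat_lit 336121) (nat_lit 9) (.e (nat_lit 336437) (nat_lit 31) .nil))) (.g (nat_lit 0) (.e (nat_lit 434829) (nat_lit 0) .nil) .nil)))) (.nd (nat_lit 9) 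
(.lf (nat_lit 606636) (.g (nat_lit 1233) (.e (nat_lit 786481) (nat_lit 30) (.e (nat_lit 360466) (nat_lit 3) (.e (nat_lit 516117) (nat_lit 1) (.e (nat_lit 164159) (nat_lit 152) .nil)))) (.g (nat_lit 0) (.e (nat_lit 434087) (nat_lit 0) .nil) .nil))) 
(.lf (nat_lit 607148) (.g (nat_lit 1666) (.e (nat_lit 794673) (nat_lit 23) (.e (nat_lit 204883) (nat_lit 33) (.e (nat_lit 401459) (nat_lit 13) (.e (nat_lit 483370) (nat_lit 20) (.e (nat_lit 147499) (nat_lit 12) .nil))))) (.g (nat_lit 0) (.e (nat_lit 436690) (nat_lit 0) .nil) .nil)))))) (.nd (nat_lit 7) (.nd (nat_lit 8) (.nd (nat_lit 9) 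
(.lf (nat_lit 606316) (.g (nat_lit 1444) (.e (nat_lit 778469) (nat_lit 11) (.e (nat_lit 24658) (nat_lit 13) (.e (nat_lit 393234) (nat_lit 17) (.e (nat_lit 7591) (nat_lit 407) .nil)))) (.g (nat_lit 0) (.e (nat_lit 433384) (nat_lit 0) .nil) .nil))) 
(.lf (nat_lit 606828) (.g (nat_lit 2105) (.e (nat_lit 802560) (nat_lit 1) (.e (nat_lit 57926) (nat_lit 282) (.e (nat_lit 163933) (nat_lit 17) (.e (nat_lit 466972) (nat_lit 21) (.e (nat_lit 164403) (nat_lit 256) .nil))))) (.g (nat_lit 0) (.e (nat_lit 434744) (nat_lit 0) .nil) .nil)))) (.nd (nat_lit 9) 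
(.lf (nat_lit 606572) (.g (nat_lit 1487) (.e (nat_lit 786480) (nat_lit 29) (.e (nat_lit 352309) (nat_lit 21) (.e (nat_lit 57870) (nat_lit 264) (.e (nat_lit 1221) (nat_lit 90) (.e (nat_lit 81923) (nat_lit 0) .nil))))) (.g (nat_lit 0) (.e (nat_lit 433969) (nat_lit 0) .nil) .nil))) 
(.lf (nat_lit 607084) (.g (nat_lit 2925) (.e (nat_lit 794673) (nat_lit 23) (.e (nat_lit 204852) (nat_lit 26) (.e (nat_lit 336326) (nat_lit 18) (.e (nat_lit 204830) (nat_lit 18) (.e (nat_lit 57830) (nat_lit 250) (.e (nat_lit 1016) (nat_lit 81) (.e (nat_lit 1256) (nat_lit 92) (.e (nat_lit 98321) (nat_lit 17) (.e (nat_lit 3771) (nat_lit 229) .nil))))))))) (.g (nat_lit 1) (.e (nat_lit 436555) (nat_lit 0) .nil) .nil))))) 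
(.nd (nat_lit 8) (.nd (nat_lit 9) 
(.lf (nat_lit 606444) (.g (nat_lit 1447) (.e (nat_lit 794368) (nat_lit 3) (.e (nat_lit 204816) (nat_lit 17) (.e (nat_lit 6724) (nat_lit 362) (.e (nat_lit 180243) (nat_lit 5) (.e (nat_lit 532566) (nat_lit 15) .nil))))) (.g (nat_lit 0) (.e (nat_lit 433592) (nat_lit 0) .nil) .nil))) 
(.lf (nat_lit 606956) (.g (nat_lit 2836) (.e (nat_lit 794669) (nat_lit 22) (.e (nat_lit 196656) (nat_lit 11) (.e (nat_lit 16436) (nat_lit 9) (.e (nat_lit 426131) (nat_lit 3) (.e (nat_lit 204880) (nat_lit 32) (.e (nat_lit 392960) (nat_lit 51) .nil)))))) (.g (nat_lit 1) (.e (nat_lit 435842) (nat_lit 0) .nil) .nil)))) (.nd (nat_lit 9) 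
(.lf (nat_lit 606700) (.g (nat_lit 2730) (.e (nat_lit 786481) (nat_lit 30) (.e (nat_lit 360473) (nat_lit 8) (.e (nat_lit 557091) (nat_lit 12) (.e (nat_lit 163999) (nat_lit 38) (.e (nat_lit 639021) (nat_lit 16) .nil))))) (.g (nat_lit 0) (.e (nat_lit 434193) (nat_lit 0) .nil) .nil))) 
(.lf (nat_lit 607212) (.g (nat_lit 1763) (.e (nat_lit 794684) (nat_lit 25) (.e (nat_lit 221214) (nat_lit 23) (.e (nat_lit 204883) (nat_lit 33) (.e (nat_lit 401459) (nat_lit 13) (.e (nat_lit 483347) (nat_lit 17) .nil))))) (.g (nat_lit 0) (.e (nat_lit 436987) (nat_lit 0) .nil) .nil)))))))) (.nd (nat_lit 5) (.nd (nat_lit 6) (.nd (nat_lit 7) (.nd (nat_lit 8) (.nd (nat_lit 9) 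
(.lf (nat_lit 606236) (.g (nat_lit 4281) (.e (nat_lit 778469) (nat_lit 11) (.e (nat_lit 24604) (nat_lit 2) (.e (nat_lit 90170) (nat_lit 13) (.e (nat_lit 172113) (nat_lit 10) (.e (nat_lit 434245) (nat_lit 28) .nil))))) (.g (nat_lit 0) (.e (nat_lit 433281) (nat_lit 0) .nil) .nil))) 
(.lf (nat_lit 606748) (.g (nat_lit 2637) (.e (nat_lit 786482) (nat_lit 30) (.e (nat_lit 360475) (nat_lit 8) (.e (nat_lit 557091) (nat_lit 12) (.e (nat_lit 164008) (nat_lit 41) (.e (nat_lit 663583) (nat_lit 11) .nil))))) (.g (nat_lit 0) (.e (nat_lit 434261) (nat_lit 0) .nil) .nil)))) (.nd (nat_lit 9) 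
(.lf (nat_lit 606492) (.g (nat_lit 2190) (.e (nat_lit 786470) (nat_lit 27) (.e (nat_lit 336173) (nat_lit 10) (.e (nat_lit 344138) (nat_lit 29) (.e (nat_lit 581651) (nat_lit 4) (.e (nat_lit 172079) (nat_lit 7) (.e (nat_lit 409611) (nat_lit 10) (.e (nat_lit 934) (nat_lit 76) .nil))))))) (.g (nat_lit 1) (.e (nat_lit 433728) (nat_lit 0) .nil) .nil))) 
(.lf (nat_lit 607004) (.g (nat_lit 1320) (.e (nat_lit 794669) (nat_lit 22) (.e (nat_lit 196668) (nat_lit 14) (.e (nat_lit 73747) (nat_lit 3) (.e (nat_lit 516119) (nat_lit 1) .nil)))) (.g (nat_lit 0) (.e (nat_lit 436085) (nat_lit 0) .nil) .nil))))) (.nd (nat_lit 8) (.nd (nat_lit 9) 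
(.lf (nat_lit 606364) (.g (nat_lit 3843) (.e (nat_lit 778470) (nat_lit 11) (.e (nat_lit 24658) (nat_lit 13) (.e (nat_lit 393301) (nat_lit 27) (.e (nat_lit 491560) (nat_lit 10) (.e (nat_lit 352000) (nat_lit 44) .nil))))) (.g (nat_lit 0) (.e (nat_lit 433436) (nat_lit 0) .nil) .nil))) 
(.lf (nat_lit 606876) (.g (nat_lit 686) (.e (nat_lit 794635) (nat_lit 11) (.e (nat_lit 336151) (nat_lit 9) (.e (nat_lit 336437) (nat_lit 31) (.e (nat_lit 458769) (nat_lit 16) (.e (nat_lit 164294) (nat_lit 224) (.e (nat_lit 164112) (nat_lit 118) .nil)))))) (.g (nat_lit 1) (.e (nat_lit 434812) (nat_lit 0) .nil) .nil)))) (.nd (nat_lit 9) 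
(.lf (nat_lit 606620) (.g (nat_lit 2285) (.e (nat_lit 786481) (nat_lit 30) (.e (nat_lit 360452) (nat_lit 0) (.e (nat_lit 5907) (nat_lit 320) (.e (nat_lit 1221) (nat_lit 90) (.e (nat_lit 81924) (nat_lit 0) .nil))))) (.g (nat_lit 0) (.e (nat_lit 434052) (nat_lit 0) .nil) .nil))) 
(.lf (nat_lit 607132) (.g (nat_lit 1466) (.e (nat_lit 794673) (nat_lit 23) (.e (nat_lit 204863) (nat_lit 27) (.e (nat_lit 344118) (nat_lit 21) (.e (nat_lit 516119) (nat_lit 1) .nil)))) (.g (nat_lit 0) (.e (nat_lit 436656) (nat_lit 0) .nil) .nil)))))) (.nd (nat_lit 7) (.nd (nat_lit 8) (.nd (nat_lit 9) 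
(.lf (nat_lit 606300) (.g (nat_lit 2638) (.e (nat_lit 778469) (nat_lit 11) (.e (nat_lit 24655) (nat_lit 13) (.e (nat_lit 393299) (nat_lit 27) (.e (nat_lit 491560) (nat_lit 10) (.e (nat_lit 352000) (nat_lit 44) .nil))))) (.g (nat_lit 0) (.e (nat_lit 433355) (nat_lit 0) .nil) .nil))) 
(.lf (nat_lit 606812) (.g (nat_lit 1468) (.e (nat_lit 786483) (nat_lit 30) (.e (nat_lit 360475) (nat_lit 8) (.e (nat_lit 557119) (nat_lit 18) (.e (nat_lit 2796) (nat_lit 180) .nil)))) (.g (nat_lit 0) (.e (nat_lit 434681) (nat_lit 0) .nil) .nil)))) (.nd (nat_lit 9) 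
(.lf (nat_lit 606556) (.g (nat_lit 925) (.e (nat_lit 786478) (nat_lit 29) (.e (nat_lit 352309) (nat_lit 21) (.e (nat_lit 57930) (nat_lit 282) .nil))) (.g (nat_lit 0) (.e (nat_lit 433943) (nat_lit 0) .nil) .nil))) 
(.lf (nat_lit 607068) (.g (nat_lit 902) (.e (nat_lit 794673) (nat_lit 23) (.e (nat_lit 204830) (nat_lit 18) (.e (nat_lit 57926) (nat_lit 282) .nil))) (.g (nat_lit 0) (.e (nat_lit 436509) (nat_lit 0) .nil) .nil))))) (.nd (nat_lit 8) (.nd (nat_lit 9) 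
(.lf (nat_lit 606428) (.g (nat_lit 2705) (.e (nat_lit 778474) (nat_lit 12) (.e (nat_lit 163976) (nat_lit 30) (.e (nat_lit 573474) (nat_lit 12) (.e (nat_lit 57528) (nat_lit 46) (.e (nat_lit 704590) (nat_lit 3) .nil))))) (.g (nat_lit 0) (.e (nat_lit 433513) (nat_lit 0) .nil) .nil))) 
(.lf (nat_lit 606940) (.g (nat_lit 1850) (.e (nat_lit 794668) (nat_lit 22) (.e (nat_lit 196666) (nat_lit 13) (.e (nat_lit 65569) (nat_lit 3) (.e (nat_lit 98334) (nat_lit 18) (.e (nat_lit 164159) (nat_lit 152) (.e (nat_lit 1032) (nat_lit 81) (.e (nat_lit 1255) (nat_lit 92) (.e (nat_lit 98321) (nat_lit 17) (.e (nat_lit 3771) (nat_lit 229) .nil))))))))) (.g (nat_lit 1) (.e (nat_lit 435729) (nat_lit 0) .nil) .nil)))) 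
(.nd (nat_lit 9) 
(.lf (nat_lit 606684) (.g (nat_lit 1253) (.e (nat_lit 786481) (nat_lit 30) (.e (nat_lit 360473) (nat_lit 8) (.e (nat_lit 557089) (nat_lit 12) (.e (nat_lit 164009) (nat_lit 41) .nil)))) (.g (nat_lit 0) (.e (nat_lit 434170) (nat_lit 0) .nil) .nil))) 
(.lf (nat_lit 607196) (.g (nat_lit 1846) (.e (nat_lit 794683) (nat_lit 25) (.e (nat_lit 221214) (nat_lit 23) (.e (nat_lit 204883) (nat_lit 33) (.e (nat_lit 401457) (nat_lit 13) (.e (nat_lit 483346) (nat_lit 17) .nil))))) (.g (nat_lit 0) (.e (nat_lit 436851) (nat_lit 0) .nil) .nil))))))) (.nd (nat_lit 6) (.nd (nat_lit 7) (.nd (nat_lit 8) (.nd (nat_lit 9) 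
(.lf (nat_lit 606268) (.g (nat_lit 3788) (.e (nat_lit 778469) (nat_lit 11) (.e (nat_lit 24608) (nat_lit 3) (.e (nat_lit 98373) (nat_lit 29) (.e (nat_lit 450588) (nat_lit 10) (.e (nat_lit 573475) (nat_lit 12) (.e (nat_lit 57573) (nat_lit 55) .nil)))))) (.g (nat_lit 1) (.e (nat_lit 433314) (nat_lit 0) .nil) .nil))) 
(.lf (nat_lit 606780) (.g (nat_lit 1804) (.e (nat_lit 786483) (nat_lit 30) (.e (nat_lit 360457) (nat_lit 0) (.e (nat_lit 5948) (nat_lit 322) (.e (nat_lit 57424) (nat_lit 14) (.e (nat_lit 352265) (nat_lit 0) .nil))))) (.g (nat_lit 0) (.e (nat_lit 434320) (nat_lit 0) .nil) .nil)))) (.nd (nat_lit 9) 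
(.lf (nat_lit 606524) (.g (nat_lit 1394) (.e (nat_lit 786473) (nat_lit 27) (.e (nat_lit 336235) (nat_lit 14) (.e (nat_lit 401438) (nat_lit 9) (.e (nat_lit 426556) (nat_lit 32) .nil)))) (.g (nat_lit 0) (.e (nat_lit 433784) (nat_lit 0) .nil) .nil))) 
(.lf (nat_lit 607036) (.g (nat_lit 1980) (.e (nat_lit 794669) (nat_lit 22) (.e (nat_lit 196670) (nat_lit 14) (.e (nat_lit 73746) (nat_lit 3) (.e (nat_lit 516120) (nat_lit 1) (.e (nat_lit 164158) (nat_lit 152) .nil))))) (.g (nat_lit 0) (.e (nat_lit 436309) (nat_lit 0) .nil) .nil))))) (.nd (nat_lit 8) (.nd (nat_lit 9) 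
(.lf (nat_lit 606396) (.g (nat_lit 2246) (.e (nat_lit 786176) (nat_lit 11) (.e (nat_lit 24617) (nat_lit 7) (.e (nat_lit 319533) (nat_lit 16) (.e (nat_lit 286753) (nat_lit 10) (.e (nat_lit 344168) (nat_lit 40) .nil))))) (.g (nat_lit 0) (.e (nat_lit 433470) (nat_lit 0) .nil) .nil))) 
(.lf (nat_lit 606908) (.g (nat_lit 1007) (.e (nat_lit 794661) (nat_lit 21) (.e (nat_lit 164319) (nat_lit 228) (.e (nat_lit 57406) (nat_lit 12) (.e (nat_lit 336326) (nat_lit 18) .nil)))) (.g (nat_lit 0) (.e (nat_lit 435139) (nat_lit 0) .nil) .nil)))) (.nd (nat_lit 9) 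
(.lf (nat_lit 606652) (.g (nat_lit 2454) (.e (nat_lit 786481) (nat_lit 30) (.e (nat_lit 360466) (nat_lit 3) (.e (nat_lit 516119) (nat_lit 1) (.e (nat_lit 164184) (nat_lit 155) (.e (nat_lit 122913) (nat_lit 13) (.e (nat_lit 352000) (nat_lit 45) .nil)))))) (.g (nat_lit 1) (.e (nat_lit 434108) (nat_lit 0) .nil) .nil))) 
(.lf (nat_lit 607164) (.g (nat_lit 2652) (.e (nat_lit 794677) (nat_lit 24) (.e (nat_lit 213030) (nat_lit 11) (.e (nat_lit 24617) (nat_lit 7) (.e (nat_lit 319535) (nat_lit 17) (.e (nat_lit 294954) (nat_lit 12) .nil))))) (.g (nat_lit 0) (.e (nat_lit 436711) (nat_lit 0) .nil) .nil)))))) (.nd (nat_lit 7) (.nd (nat_lit 8) (.nd (nat_lit 9) 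
(.lf (nat_lit 606332) (.g (nat_lit 2724) (.e (nat_lit 778469) (nat_lit 11) (.e (nat_lit 24658) (nat_lit 13) (.e (nat_lit 393301) (nat_lit 27) (.e (nat_lit 491559) (nat_lit 10) (.e (nat_lit 352000) (nat_lit 44) .nil))))) (.g (nat_lit 0) (.e (nat_lit 433402) (nat_lit 0) .nil) .nil))) 
(.lf (nat_lit 606844) (.g (nat_lit 1836) (.e (nat_lit 802560) (nat_lit 5) (.e (nat_lit 114698) (nat_lit 11) (.e (nat_lit 426200) (nat_lit 9) (.e (nat_lit 426493) (nat_lit 27) (.e (nat_lit 336194) (nat_lit 12) .nil))))) (.g (nat_lit 0) (.e (nat_lit 434770) (nat_lit 0) .nil) .nil)))) (.nd (nat_lit 9) 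
(.lf (nat_lit 606588) (.g (nat_lit 348) (.e (nat_lit 786480) (nat_lit 29) (.e (nat_lit 352312) (nat_lit 22) (.e (nat_lit 98048) (nat_lit 2) .nil))) (.g (nat_lit 0) (.e (nat_lit 433996) (nat_lit 0) .nil) .nil))) 
(.lf (nat_lit 607100) (.g (nat_lit 2814) (.e (nat_lit 794673) (nat_lit 23) (.e (nat_lit 204862) (nat_lit 27) (.e (nat_lit 344117) (nat_lit 21) (.e (nat_lit 516116) (nat_lit 1) (.e (nat_lit 164161) (nat_lit 152) .nil))))) (.g (nat_lit 0) (.e (nat_lit 436588) (nat_lit 0) .nil) .nil))))) (.nd (nat_lit 8) (.nd (nat_lit 9) 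
(.lf (nat_lit 606460) (.g (nat_lit 2119) (.e (nat_lit 786447) (nat_lit 15) (.e (nat_lit 1848) (nat_lit 124) (.e (nat_lit 557097) (nat_lit 13) (.e (nat_lit 172115) (nat_lit 10) (.e (nat_lit 434231) (nat_lit 23) .nil))))) (.g (nat_lit 0) (.e (nat_lit 433652) (nat_lit 0) .nil) .nil))) 
(.lf (nat_lit 606972) (.g (nat_lit 1860) (.e (nat_lit 794669) (nat_lit 22) (.e (nat_lit 196668) (nat_lit 14) (.e (nat_lit 73746) (nat_lit 3) (.e (nat_lit 516120) (nat_lit 1) (.e (nat_lit 164147) (nat_lit 152) .nil))))) (.g (nat_lit 0) (.e (nat_lit 435906) (nat_lit 0) .nil) .nil)))) (.nd (nat_lit 9) 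
(.lf (nat_lit 606716) (.g (nat_lit 2074) (.e (nat_lit 786481) (nat_lit 30) (.e (nat_lit 360473) (nat_lit 8) (.e (nat_lit 557119) (nat_lit 18) (.e (nat_lit 2798) (nat_lit 180) (.e (nat_lit 303123) (nat_lit 7) .nil))))) (.g (nat_lit 0) (.e (nat_lit 434221) (nat_lit 0) .nil) .nil))) 
(.lf (nat_lit 607228) (.g (nat_lit 2426) (.e (nat_lit 802826) (nat_lit 11) (.e (nat_lit 336004) (nat_lit 2) (.e (nat_lit 90170) (nat_lit 13) (.e (nat_lit 172113) (nat_lit 10) .nil)))) (.g (nat_lit 0) (.e (nat_lit 437013) (nat_lit 0) .nil) .nil))))))))))) (.nd (nat_lit 2) (.nd (nat_lit 3) (.nd (nat_lit 4) (.nd (nat_lit 5) (.nd (nat_lit 6) (.nd (nat_lit 7) (.nd (nat_lit 8) (.nd (nat_lit 9) 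
(.lf (nat_lit 606210) (.g (nat_lit 1802) (.e (nat_lit 778468) (nat_lit 11) (.e (nat_lit 24604) (nat_lit 2) (.e (nat_lit 90170) (nat_lit 13) (.e (nat_lit 172106) (nat_lit 10) .nil)))) (.g (nat_lit 0) (.e (nat_lit 433254) (nat_lit 0) .nil) .nil))) 
(.lf (nat_lit 606722) (.g (nat_lit 2525) (.e (nat_lit 786481) (nat_lit 30) (.e (nat_lit 360475) (nat_lit 8) (.e (nat_lit 557091) (nat_lit 12) (.e (nat_lit 164007) (nat_lit 41) .nil)))) (.g (nat_lit 0) (.e (nat_lit 434227) (nat_lit 0) .nil) .nil)))) (.nd (nat_lit 9) 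
(.lf (nat_lit 606466) (.g (nat_lit 3865) (.e (nat_lit 786447) (nat_lit 15) (.e (nat_lit 1855) (nat_lit 124) (.e (nat_lit 557109) (nat_lit 15) (.e (nat_lit 188452) (nat_lit 23) (.e (nat_lit 204880) (nat_lit 32) .nil))))) (.g (nat_lit 0) (.e (nat_lit 433660) (nat_lit 0) .nil) .nil))) 
(.lf (nat_lit 606978) (.g (nat_lit 2408) (.e (nat_lit 794669) (nat_lit 22) (.e (nat_lit 196668) (nat_lit 14) (.e (nat_lit 73747) (nat_lit 3) (.e (nat_lit 516115) (nat_lit 1) (.e (nat_lit 164148) (nat_lit 152) .nil))))) (.g (nat_lit 0) (.e (nat_lit 435930) (nat_lit 0) .nil) .nil))))) (.nd (nat_lit 8) (.nd (nat_lit 9) 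
(.lf (nat_lit 606338) (.g (nat_lit 1592) (.e (nat_lit 778469) (nat_lit 11) (.e (nat_lit 24660) (nat_lit 13) (.e (nat_lit 393238) (nat_lit 17) (.e (nat_lit 7107) (nat_lit 380) (.e (nat_lit 164288) (nat_lit 224) .nil))))) (.g (nat_lit 0) (.e (nat_lit 433408) (nat_lit 0) .nil) .nil))) 
(.lf (nat_lit 606850) (.g (nat_lit 1508) (.e (nat_lit 802560) (nat_lit 5) (.e (nat_lit 114698) (nat_lit 11) (.e (nat_lit 426327) (nat_lit 13) (.e (nat_lit 483404) (nat_lit 26) .nil)))) (.g (nat_lit 0) (.e (nat_lit 434778) (nat_lit 0) .nil) .nil)))) (.nd (nat_lit 9) 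
(.lf (nat_lit 606594) (.g (nat_lit 335) (.e (nat_lit 786480) (nat_lit 29) (.e (nat_lit 352318) (nat_lit 24) (.e (nat_lit 123184) (nat_lit 264) .nil))) (.g (nat_lit 0) (.e (nat_lit 434011) (nat_lit 0) .nil) .nil))) 
(.lf (nat_lit 607106) (.g (nat_lit 468) (.e (nat_lit 794673) (nat_lit 23) (.e (nat_lit 204862) (nat_lit 27) (.e (nat_lit 344118) (nat_lit 21) .nil))) (.g (nat_lit 0) (.e (nat_lit 436606) (nat_lit 0) .nil) .nil)))))) (.nd (nat_lit 7) (.nd (nat_lit 8) (.nd (nat_lit 9) 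
(.lf (nat_lit 606274) (.g (nat_lit 2308) (.e (nat_lit 778469) (nat_lit 11) (.e (nat_lit 24627) (nat_lit 9) (.e (nat_lit 336443) (nat_lit 32) (.e (nat_lit 466972) (nat_lit 21) (.e (nat_lit 164330) (nat_lit 230) .nil))))) (.g (nat_lit 0) (.e (nat_lit 433323) (nat_lit 0) .nil) .nil))) 
(.lf (nat_lit 606786) (.g (nat_lit 2136) (.e (nat_lit 786483) (nat_lit 30) (.e (nat_lit 360474) (nat_lit 8) (.e (nat_lit 557091) (nat_lit 12) (.e (nat_lit 164000) (nat_lit 38) .nil)))) (.g (nat_lit 0) (.e (nat_lit 434410) (nat_lit 0) .nil) .nil)))) (.nd (nat_lit 9) 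
(.lf (nat_lit 606530) (.g (nat_lit 1538) (.e (nat_lit 786473) (nat_lit 27) (.e (nat_lit 336235) (nat_lit 14) (.e (nat_lit 401456) (nat_lit 13) (.e (nat_lit 483393) (nat_lit 23) .nil)))) (.g (nat_lit 0) (.e (nat_lit 433791) (nat_lit 0) .nil) .nil))) 
(.lf (nat_lit 607042) (.g (nat_lit 891) (.e (nat_lit 794670) (nat_lit 23) (.e (nat_lit 204830) (nat_lit 18) (.e (nat_lit 57926) (nat_lit 282) .nil))) (.g (nat_lit 0) (.e (nat_lit 436372) (nat_lit 0) .nil) .nil))))) (.nd (nat_lit 8) (.nd (nat_lit 9) 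
(.lf (nat_lit 606402) (.g (nat_lit 1351) (.e (nat_lit 786176) (nat_lit 11) (.e (nat_lit 24655) (nat_lit 13) (.e (nat_lit 393299) (nat_lit 27) (.e (nat_lit 491558) (nat_lit 10) .nil)))) (.g (nat_lit 0) (.e (nat_lit 433481) (nat_lit 0) .nil) .nil))) 
(.lf (nat_lit 606914) (.g (nat_lit 3280) (.e (nat_lit 794665) (nat_lit 22) (.e (nat_lit 196654) (nat_lit 11) (.e (nat_lit 16436) (nat_lit 9) (.e (nat_lit 426131) (nat_lit 3) (.e (nat_lit 204880) (nat_lit 32) (.e (nat_lit 385109) (nat_lit 51) .nil)))))) (.g (nat_lit 1) (.e (nat_lit 435229) (nat_lit 0) .nil) .nil)))) (.nd (nat_lit 9) 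
(.lf (nat_lit 606658) (.g (nat_lit 1396) (.e (nat_lit 786481) (nat_lit 30) (.e (nat_lit 360466) (nat_lit 3) (.e (nat_lit 516120) (nat_lit 1) (.e (nat_lit 164184) (nat_lit 155) (.e (nat_lit 122912) (nat_lit 13) .nil))))) (.g (nat_lit 0) (.e (nat_lit 434118) (nat_lit 0) .nil) .nil))) 
(.lf (nat_lit 607170) (.g (nat_lit 1979) (.e (nat_lit 794678) (nat_lit 24) (.e (nat_lit 213032) (nat_lit 11) (.e (nat_lit 24617) (nat_lit 7) (.e (nat_lit 319533) (nat_lit 16) .nil)))) (.g (nat_lit 0) (.e (nat_lit 436720) (nat_lit 0) .nil) .nil))))))) (.nd (nat_lit 6) (.nd (nat_lit 7) (.nd (nat_lit 8) (.nd (nat_lit 9) 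
(.lf (nat_lit 606242) (.g (nat_lit 1221) (.e (nat_lit 778469) (nat_lit 11) (.e (nat_lit 24604) (nat_lit 2) (.e (nat_lit 90185) (nat_lit 17) (.e (nat_lit 237605) (nat_lit 9) .nil)))) (.g (nat_lit 0) (.e (nat_lit 433287) (nat_lit 0) .nil) .nil))) 
(.lf (nat_lit 606754) (.g (nat_lit 496) (.e (nat_lit 786483) (nat_lit 30) (.e (nat_lit 360450) (nat_lit 0) (.e (nat_lit 5898) (nat_lit 320) .nil))) (.g (nat_lit 0) (.e (nat_lit 434270) (nat_lit 0) .nil) .nil)))) (.nd (nat_lit 9) 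
(.lf (nat_lit 606498) (.g (nat_lit 1211) (.e (nat_lit 786470) (nat_lit 27) (.e (nat_lit 336226) (nat_lit 14) (.e (nat_lit 401457) (nat_lit 13) (.e (nat_lit 483402) (nat_lit 26) .nil)))) (.g (nat_lit 0) (.e (nat_lit 433743) (nat_lit 0) .nil) .nil))) 
(.lf (nat_lit 607010) (.g (nat_lit 2404) (.e (nat_lit 794669) (nat_lit 22) (.e (nat_lit 196668) (nat_lit 14) (.e (nat_lit 73747) (nat_lit 3) (.e (nat_lit 516119) (nat_lit 1) (.e (nat_lit 164157) (nat_lit 152) .nil))))) (.g (nat_lit 0) (.e (nat_lit 436094) (nat_lit 0) .nil) .nil))))) (.nd (nat_lit 8) (.nd (nat_lit 9) 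
(.lf (nat_lit 606370) (.g (nat_lit 1274) (.e (nat_lit 786176) (nat_lit 11) (.e (nat_lit 24604) (nat_lit 2) (.e (nat_lit 90176) (nat_lit 15) (.e (nat_lit 196352) (nat_lit 2) .nil)))) (.g (nat_lit 0) (.e (nat_lit 433444) (nat_lit 0) .nil) .nil))) 
(.lf (nat_lit 606882) (.g (nat_lit 1071) (.e (nat_lit 794635) (nat_lit 11) (.e (nat_lit 336154) (nat_lit 9) (.e (nat_lit 336437) (nat_lit 31) (.e (nat_lit 458769) (nat_lit 16) (.e (nat_lit 164292) (nat_lit 224) (.e (nat_lit 164112) (nat_lit 118) .nil)))))) (.g (nat_lit 1) (.e (nat_lit 434818) (nat_lit 0) .nil) .nil)))) (.nd (nat_lit 9) 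
(.lf (nat_lit 606626) (.g (nat_lit 1967) (.e (nat_lit 786481) (nat_lit 30) (.e (nat_lit 360453) (nat_lit 0) (.e (nat_lit 5907) (nat_lit 320) (.e (nat_lit 1221) (nat_lit 90) (.e (nat_lit 81923) (nat_lit 0) .nil))))) (.g (nat_lit 0) (.e (nat_lit 434058) (nat_lit 0) .nil) .nil))) 
(.lf (nat_lit 607138) (.g (nat_lit 2936) (.e (nat_lit 794673) (nat_lit 23) (.e (nat_lit 204863) (nat_lit 27) (.e (nat_lit 344118) (nat_lit 21) (.e (nat_lit 516120) (nat_lit 1) (.e (nat_lit 164183) (nat_lit 154) (.e (nat_lit 57379) (nat_lit 3) (.e (nat_lit 98321) (nat_lit 17) (.e (nat_lit 3771) (nat_lit 229) .nil)))))))) (.g (nat_lit 1) (.e (nat_lit 436665) (nat_lit 0) .nil) .nil)))))) 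
(.nd (nat_lit 7) (.nd (nat_lit 8) (.nd (nat_lit 9) 
(.lf (nat_lit 606306) (.g (nat_lit 3470) (.e (nat_lit 778469) (nat_lit 11) (.e (nat_lit 24655) (nat_lit 13) (.e (nat_lit 393301) (nat_lit 27) (.e (nat_lit 491560) (nat_lit 10) (.e (nat_lit 344178) (nat_lit 44) .nil))))) (.g (nat_lit 0) (.e (nat_lit 433361) (nat_lit 0) .nil) .nil))) 
(.lf (nat_lit 606818) (.g (nat_lit 1400) (.e (nat_lit 786483) (nat_lit 30) (.e (nat_lit 360475) (nat_lit 8) (.e (nat_lit 557119) (nat_lit 18) (.e (nat_lit 2808) (nat_lit 180) .nil)))) (.g (nat_lit 0) (.e (nat_lit 434705) (nat_lit 0) .nil) .nil)))) (.nd (nat_lit 9) 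
(.lf (nat_lit 606562) (.g (nat_lit 2610) (.e (nat_lit 786478) (nat_lit 29) (.e (nat_lit 352318) (nat_lit 24) (.e (nat_lit 123198) (nat_lit 266) (.e (nat_lit 57435) (nat_lit 17) (.e (nat_lit 376835) (nat_lit 0) (.e (nat_lit 3746) (nat_lit 228) .nil)))))) (.g (nat_lit 1) (.e (nat_lit 433949) (nat_lit 0) .nil) .nil))) 
(.lf (nat_lit 607074) (.g (nat_lit 2300) (.e (nat_lit 794673) (nat_lit 23) (.e (nat_lit 204830) (nat_lit 18) (.e (nat_lit 57929) (nat_lit 282) (.e (nat_lit 163874) (nat_lit 3) (.e (nat_lit 204872) (nat_lit 30) (.e (nat_lit 368676) (nat_lit 21) (.e (nat_lit 516100) (nat_lit 0) (.e (nat_lit 3771) (nat_lit 229) .nil)))))))) (.g (nat_lit 1) (.e (nat_lit 436525) (nat_lit 0) .nil) .nil))))) 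
(.nd (nat_lit 8) (.nd (nat_lit 9) 
(.lf (nat_lit 606434) (.g (nat_lit 2542) (.e (nat_lit 778486) (nat_lit 12) (.e (nat_lit 163962) (nat_lit 25) (.e (nat_lit 532567) (nat_lit 16) (.e (nat_lit 401459) (nat_lit 13) (.e (nat_lit 483370) (nat_lit 20) .nil))))) (.g (nat_lit 0) (.e (nat_lit 433536) (nat_lit 0) .nil) .nil))) 
(.lf (nat_lit 606946) (.g (nat_lit 1213) (.e (nat_lit 794668) (nat_lit 22) (.e (nat_lit 196666) (nat_lit 13) (.e (nat_lit 65569) (nat_lit 3) (.e (nat_lit 98335) (nat_lit 18) .nil)))) (.g (nat_lit 0) (.e (nat_lit 435759) (nat_lit 0) .nil) .nil)))) (.nd (nat_lit 9) 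
(.lf (nat_lit 606690) (.g (nat_lit 3059) (.e (nat_lit 786481) (nat_lit 30) (.e (nat_lit 360473) (nat_lit 8) (.e (nat_lit 557090) (nat_lit 12) (.e (nat_lit 164008) (nat_lit 41) .nil)))) (.g (nat_lit 0) (.e (nat_lit 434181) (nat_lit 0) .nil) .nil))) 
(.lf (nat_lit 607202) (.g (nat_lit 1434) (.e (nat_lit 794683) (nat_lit 25) (.e (nat_lit 221214) (nat_lit 23) (.e (nat_lit 204884) (nat_lit 33) (.e (nat_lit 401459) (nat_lit 13) .nil)))) (.g (nat_lit 0) (.e (nat_lit 436857) (nat_lit 0) .nil) .nil)))))))) (.nd (nat_lit 5) (.nd (nat_lit 6) (.nd (nat_lit 7) (.nd (nat_lit 8) (.nd (nat_lit 9) 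
(.lf (nat_lit 606226) (.g (nat_lit 2644) (.e (nat_lit 778468) (nat_lit 11) (.e (nat_lit 24658) (nat_lit 13) (.e (nat_lit 393234) (nat_lit 17) (.e (nat_lit 7593) (nat_lit 407) .nil)))) (.g (nat_lit 0) (.e (nat_lit 433271) (nat_lit 0) .nil) .nil))) 
(.lf (nat_lit 606738) (.g (nat_lit 2410) (.e (nat_lit 786482) (nat_lit 30) (.e (nat_lit 360475) (nat_lit 8) (.e (nat_lit 557089) (nat_lit 12) (.e (nat_lit 164008) (nat_lit 41) .nil)))) (.g (nat_lit 0) (.e (nat_lit 434250) (nat_lit 0) .nil) .nil)))) (.nd (nat_lit 9) 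
(.lf (nat_lit 606482) (.g (nat_lit 945) (.e (nat_lit 786457) (nat_lit 18) (.e (nat_lit 98380) (nat_lit 31) (.e (nat_lit 466954) (nat_lit 11) (.e (nat_lit 336049) (nat_lit 6) (.e (nat_lit 147503) (nat_lit 12) (.e (nat_lit 164058) (nat_lit 56) .nil)))))) (.g (nat_lit 1) (.e (nat_lit 433706) (nat_lit 0) .nil) .nil))) 
(.lf (nat_lit 606994) (.g (nat_lit 1871) (.e (nat_lit 794669) (nat_lit 22) (.e (nat_lit 196668) (nat_lit 14) (.e (nat_lit 73747) (nat_lit 3) (.e (nat_lit 516117) (nat_lit 1) (.e (nat_lit 164147) (nat_lit 152) .nil))))) (.g (nat_lit 0) (.e (nat_lit 436026) (nat_lit 0) .nil) .nil))))) (.nd (nat_lit 8) (.nd (nat_lit 9) 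
(.lf (nat_lit 606354) (.g (nat_lit 812) (.e (nat_lit 778470) (nat_lit 11) (.e (nat_lit 24625) (nat_lit 9) (.e (nat_lit 336443) (nat_lit 32) .nil))) (.g (nat_lit 0) (.e (nat_lit 433425) (nat_lit 0) .nil) .nil))) 
(.lf (nat_lit 606866) (.g (nat_lit 1002) (.e (nat_lit 794635) (nat_lit 11) (.e (nat_lit 336121) (nat_lit 9) (.e (nat_lit 336437) (nat_lit 31) (.e (nat_lit 458769) (nat_lit 16) (.e (nat_lit 164287) (nat_lit 224) (.e (nat_lit 164112) (nat_lit 118) .nil)))))) (.g (nat_lit 1) (.e (nat_lit 434802) (nat_lit 0) .nil) .nil)))) (.nd (nat_lit 9) 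
(.lf (nat_lit 606610) (.g (nat_lit 375) (.e (nat_lit 786481) (nat_lit 30) (.e (nat_lit 360449) (nat_lit 0) (.e (nat_lit 7936) (nat_lit 320) .nil))) (.g (nat_lit 0) (.e (nat_lit 434039) (nat_lit 0) .nil) .nil))) 
(.lf (nat_lit 607122) (.g (nat_lit 2690) (.e (nat_lit 794673) (nat_lit 23) (.e (nat_lit 204863) (nat_lit 27) (.e (nat_lit 344117) (nat_lit 21) (.e (nat_lit 516116) (nat_lit 1) (.e (nat_lit 164176) (nat_lit 154) .nil))))) (.g (nat_lit 0) (.e (nat_lit 436637) (nat_lit 0) .nil) .nil)))))) (.nd (nat_lit 7) (.nd (nat_lit 8) (.nd (nat_lit 9) 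
(.lf (nat_lit 606290) (.g (nat_lit 2737) (.e (nat_lit 778469) (nat_lit 11) (.e (nat_lit 24628) (nat_lit 9) (.e (nat_lit 336443) (nat_lit 32) (.e (nat_lit 466972) (nat_lit 21) (.e (nat_lit 164332) (nat_lit 230) (.e (nat_lit 163850) (nat_lit 0) (.e (nat_lit 3711) (nat_lit 227) .nil))))))) (.g (nat_lit 1) (.e (nat_lit 433339) (nat_lit 0) .nil) .nil))) 
(.lf (nat_lit 606802) (.g (nat_lit 2266) (.e (nat_lit 786483) (nat_lit 30) (.e (nat_lit 360475) (nat_lit 8) (.e (nat_lit 557090) (nat_lit 12) (.e (nat_lit 164008) (nat_lit 41) .nil)))) (.g (nat_lit 0) (.e (nat_lit 434572) (nat_lit 0) .nil) .nil)))) (.nd (nat_lit 9) 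
(.lf (nat_lit 606546) (.g (nat_lit 2617) (.e (nat_lit 786477) (nat_lit 28) (.e (nat_lit 344177) (nat_lit 43) (.e (nat_lit 770072) (nat_lit 8) (.e (nat_lit 65571) (nat_lit 3) (.e (nat_lit 98341) (nat_lit 20) (.e (nat_lit 221200) (nat_lit 20) (.e (nat_lit 3749) (nat_lit 228) .nil))))))) (.g (nat_lit 1) (.e (nat_lit 433919) (nat_lit 0) .nil) .nil))) 
(.lf (nat_lit 607058) (.g (nat_lit 1815) (.e (nat_lit 794673) (nat_lit 23) (.e (nat_lit 204829) (nat_lit 18) (.e (nat_lit 57927) (nat_lit 282) (.e (nat_lit 163873) (nat_lit 3) .nil)))) (.g (nat_lit 0) (.e (nat_lit 436495) (nat_lit 0) .nil) .nil))))) (.nd (nat_lit 8) (.nd (nat_lit 9) 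
(.lf (nat_lit 606418) (.g (nat_lit 1962) (.e (nat_lit 786176) (nat_lit 11) (.e (nat_lit 24660) (nat_lit 13) (.e (nat_lit 393259) (nat_lit 21) (.e (nat_lit 409618) (nat_lit 10) (.e (nat_lit 5023) (nat_lit 290) .nil))))) (.g (nat_lit 0) (.e (nat_lit 433498) (nat_lit 0) .nil) .nil))) 
(.lf (nat_lit 606930) (.g (nat_lit 2481) (.e (nat_lit 794667) (nat_lit 22) (.e (nat_lit 196656) (nat_lit 11) (.e (nat_lit 16448) (nat_lit 10) (.e (nat_lit 434231) (nat_lit 23) (.e (nat_lit 532564) (nat_lit 15) .nil))))) (.g (nat_lit 0) (.e (nat_lit 435586) (nat_lit 0) .nil) .nil)))) (.nd (nat_lit 9) 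
(.lf (nat_lit 606674) (.g (nat_lit 1668) (.e (nat_lit 786481) (nat_lit 30) (.e (nat_lit 360473) (nat_lit 8) (.e (nat_lit 557089) (nat_lit 12) (.e (nat_lit 163999) (nat_lit 38) (.e (nat_lit 639007) (nat_lit 13) .nil))))) (.g (nat_lit 0) (.e (nat_lit 434146) (nat_lit 0) .nil) .nil))) 
(.lf (nat_lit 607186) (.g (nat_lit 1198) (.e (nat_lit 794680) (nat_lit 24) (.e (nat_lit 213032) (nat_lit 11) (.e (nat_lit 24663) (nat_lit 14) .nil))) (.g (nat_lit 0) (.e (nat_lit 436743) (nat_lit 0) .nil) .nil))))))) (.nd (nat_lit 6) (.nd (nat_lit 7) (.nd (nat_lit 8) (.nd (nat_lit 9) 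
(.lf (nat_lit 606258) (.g (nat_lit 616) (.e (nat_lit 778469) (nat_lit 11) (.e (nat_lit 24608) (nat_lit 3) (.e (nat_lit 98372) (nat_lit 29) .nil))) (.g (nat_lit 0) (.e (nat_lit 433304) (nat_lit 0) .nil) .nil))) 
(.lf (nat_lit 606770) (.g (nat_lit 1197) (.e (nat_lit 786483) (nat_lit 30) (.e (nat_lit 360453) (nat_lit 0) (.e (nat_lit 5907) (nat_lit 320) (.e (nat_lit 1219) (nat_lit 90) .nil)))) (.g (nat_lit 0) (.e (nat_lit 434300) (nat_lit 0) .nil) .nil)))) (.nd (nat_lit 9) 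
(.lf (nat_lit 606514) (.g (nat_lit 2843) (.e (nat_lit 786473) (nat_lit 27) (.e (nat_lit 336051) (nat_lit 6) (.e (nat_lit 147496) (nat_lit 11) (.e (nat_lit 24608) (nat_lit 3) (.e (nat_lit 98342) (nat_lit 20) .nil))))) (.g (nat_lit 0) (.e (nat_lit 433774) (nat_lit 0) .nil) .nil))) 
(.lf (nat_lit 607026) (.g (nat_lit 2060) (.e (nat_lit 794669) (nat_lit 22) (.e (nat_lit 196670) (nat_lit 14) (.e (nat_lit 73746) (nat_lit 3) (.e (nat_lit 516117) (nat_lit 1) (.e (nat_lit 164158) (nat_lit 152) .nil))))) (.g (nat_lit 0) (.e (nat_lit 436247) (nat_lit 0) .nil) .nil))))) (.nd (nat_lit 8) (.nd (nat_lit 9) 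
(.lf (nat_lit 606386) (.g (nat_lit 2696) (.e (nat_lit 786176) (nat_lit 11) (.e (nat_lit 24608) (nat_lit 3) (.e (nat_lit 98373) (nat_lit 29) (.e (nat_lit 450586) (nat_lit 10) .nil)))) (.g (nat_lit 0) (.e (nat_lit 433460) (nat_lit 0) .nil) .nil))) 
(.lf (nat_lit 606898) (.g (nat_lit 3280) (.e (nat_lit 794657) (nat_lit 21) (.e (nat_lit 164325) (nat_lit 230) (.e (nat_lit 163903) (nat_lit 12) (.e (nat_lit 426428) (nat_lit 17) (.e (nat_lit 90170) (nat_lit 13) (.e (nat_lit 172079) (nat_lit 7) (.e (nat_lit 409611) (nat_lit 10) (.e (nat_lit 946) (nat_lit 77) .nil)))))))) (.g (nat_lit 1) (.e (nat_lit 434852) (nat_lit 0) .nil) .nil)))) 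
(.nd (nat_lit 9) 
(.lf (nat_lit 606642) (.g (nat_lit 1708) (.e (nat_lit 786481) (nat_lit 30) (.e (nat_lit 360466) (nat_lit 3) (.e (nat_lit 516117) (nat_lit 1) (.e (nat_lit 164168) (nat_lit 152) .nil)))) (.g (nat_lit 0) (.e (nat_lit 434094) (nat_lit 0) .nil) .nil))) 
(.lf (nat_lit 607154) (.g (nat_lit 1197) (.e (nat_lit 794675) (nat_lit 24) (.e (nat_lit 213032) (nat_lit 11) (.e (nat_lit 24621) (nat_lit 8) .nil))) (.g (nat_lit 0) (.e (nat_lit 436697) (nat_lit 0) .nil) .nil)))))) (.nd (nat_lit 7) (.nd (nat_lit 8) (.nd (nat_lit 9) 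
(.lf (nat_lit 606322) (.g (nat_lit 1853) (.e (nat_lit 778469) (nat_lit 11) (.e (nat_lit 24658) (nat_lit 13) (.e (nat_lit 393281) (nat_lit 23) (.e (nat_lit 426100) (nat_lit 1) (.e (nat_lit 164330) (nat_lit 230) .nil))))) (.g (nat_lit 0) (.e (nat_lit 433391) (nat_lit 0) .nil) .nil))) 
(.lf (nat_lit 606834) (.g (nat_lit 1762) (.e (nat_lit 802560) (nat_lit 4) (.e (nat_lit 106536) (nat_lit 11) (.e (nat_lit 16439) (nat_lit 9) (.e (nat_lit 426497) (nat_lit 27) .nil)))) (.g (nat_lit 0) (.e (nat_lit 434750) (nat_lit 0) .nil) .nil)))) (.nd (nat_lit 9) 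
(.lf (nat_lit 606578) (.g (nat_lit 2203) (.e (nat_lit 786480) (nat_lit 29) (.e (nat_lit 352309) (nat_lit 21) (.e (nat_lit 57872) (nat_lit 264) (.e (nat_lit 1221) (nat_lit 90) (.e (nat_lit 81924) (nat_lit 0) .nil))))) (.g (nat_lit 0) (.e (nat_lit 433982) (nat_lit 0) .nil) .nil))) 
(.lf (nat_lit 607090) (.g (nat_lit 2449) (.e (nat_lit 794673) (nat_lit 23) (.e (nat_lit 204862) (nat_lit 27) (.e (nat_lit 344117) (nat_lit 21) (.e (nat_lit 516099) (nat_lit 0) .nil)))) (.g (nat_lit 0) (.e (nat_lit 436576) (nat_lit 0) .nil) .nil))))) (.nd (nat_lit 8) (.nd (nat_lit 9) 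
(.lf (nat_lit 606450) (.g (nat_lit 4478) (.e (nat_lit 786438) (nat_lit 9) (.e (nat_lit 426139) (nat_lit 3) (.e (nat_lit 204883) (nat_lit 33) (.e (nat_lit 401454) (nat_lit 12) (.e (nat_lit 475179) (nat_lit 24) (.e (nat_lit 516102) (nat_lit 0) (.e (nat_lit 3730) (nat_lit 228) .nil))))))) (.g (nat_lit 1) (.e (nat_lit 433608) (nat_lit 0) .nil) .nil))) 
(.lf (nat_lit 606962) (.g (nat_lit 435) (.e (nat_lit 794669) (nat_lit 22) (.e (nat_lit 196668) (nat_lit 14) (.e (nat_lit 81664) (nat_lit 5) .nil))) (.g (nat_lit 0) (.e (nat_lit 435862) (nat_lit 0) .nil) .nil)))) (.nd (nat_lit 9) 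
(.lf (nat_lit 606706) (.g (nat_lit 1509) (.e (nat_lit 786481) (nat_lit 30) (.e (nat_lit 360473) (nat_lit 8) (.e (nat_lit 557091) (nat_lit 12) (.e (nat_lit 164006) (nat_lit 41) .nil)))) (.g (nat_lit 0) (.e (nat_lit 434201) (nat_lit 0) .nil) .nil))) 
(.lf (nat_lit 607218) (.g (nat_lit 2824) (.e (nat_lit 794684) (nat_lit 25) (.e (nat_lit 221215) (nat_lit 23) (.e (nat_lit 204883) (nat_lit 33) (.e (nat_lit 401459) (nat_lit 13) (.e (nat_lit 483350) (nat_lit 17) (.e (nat_lit 7936) (nat_lit 153) .nil)))))) (.g (nat_lit 1) (.e (nat_lit 436998) (nat_lit 0) .nil) .nil))))))))) 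
(.nd (nat_lit 4) (.nd (nat_lit 5) (.nd (nat_lit 6) (.nd (nat_lit 7) (.nd (nat_lit 8) 
(.nd (nat_lit 9) 
(.lf (nat_lit 606218) (.g (nat_lit 4474) (.e (nat_lit 778468) (nat_lit 11) (.e (nat_lit 24608) (nat_lit 3) (.e (nat_lit 98373) (nat_lit 29) (.e (nat_lit 450588) (nat_lit 10) (.e (nat_lit 573475) (nat_lit 12) .nil))))) (.g (nat_lit 0) (.e (nat_lit 433262) (nat_lit 0) .nil) .nil))) 
(.lf (nat_lit 606730) (.g (nat_lit 926) (.e (nat_lit 786482) (nat_lit 30) (.e (nat_lit 360477) (nat_lit 11) (.e (nat_lit 581651) (nat_lit 4) (.e (nat_lit 172079) (nat_lit 7) .nil)))) (.g (nat_lit 0) (.e (nat_lit 434242) (nat_lit 0) .nil) .nil)))) (.nd (nat_lit 9) 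
(.lf (nat_lit 606474) (.g (nat_lit 2706) (.e (nat_lit 786456) (nat_lit 18) (.e (nat_lit 98367) (nat_lit 27) (.e (nat_lit 434244) (nat_lit 28) (.e (nat_lit 573488) (nat_lit 14) (.e (nat_lit 81664) (nat_lit 5) .nil))))) (.g (nat_lit 0) (.e (nat_lit 433670) (nat_lit 0) .nil) .nil))) 
(.lf (nat_lit 606986) (.g (nat_lit 1963) (.e (nat_lit 794669) (nat_lit 22) (.e (nat_lit 196668) (nat_lit 14) (.e (nat_lit 73747) (nat_lit 3) (.e (nat_lit 516115) (nat_lit 1) (.e (nat_lit 164153) (nat_lit 152) (.e (nat_lit 1035) (nat_lit 81) (.e (nat_lit 1254) (nat_lit 92) (.e (nat_lit 98321) (nat_lit 17) (.e (nat_lit 3771) (nat_lit 229) .nil))))))))) (.g (nat_lit 1) (.e (nat_lit 435940) (nat_lit 0) .nil) .nil))))) 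
(.nd (nat_lit 8) (.nd (nat_lit 9) 
(.lf (nat_lit 606346) (.g (nat_lit 1093) (.e (nat_lit 778469) (nat_lit 11) (.e (nat_lit 24660) (nat_lit 13) (.e (nat_lit 393260) (nat_lit 21) (.e (nat_lit 417536) (nat_lit 16) .nil)))) (.g (nat_lit 0) (.e (nat_lit 433416) (nat_lit 0) .nil) .nil))) 
(.lf (nat_lit 606858) (.g (nat_lit 1068) (.e (nat_lit 794635) (nat_lit 11) (.e (nat_lit 336119) (nat_lit 9) (.e (nat_lit 336437) (nat_lit 31) (.e (nat_lit 458769) (nat_lit 16) (.e (nat_lit 164286) (nat_lit 224) (.e (nat_lit 164112) (nat_lit 118) .nil)))))) (.g (nat_lit 1) (.e (nat_lit 434794) (nat_lit 0) .nil) .nil)))) (.nd (nat_lit 9) 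
(.lf (nat_lit 606602) (.g (nat_lit 1452) (.e (nat_lit 786480) (nat_lit 29) (.e (nat_lit 352318) (nat_lit 24) (.e (nat_lit 123195) (nat_lit 266) (.e (nat_lit 57423) (nat_lit 14) .nil)))) (.g (nat_lit 0) (.e (nat_lit 434025) (nat_lit 0) .nil) .nil))) 
(.lf (nat_lit 607114) (.g (nat_lit 2479) (.e (nat_lit 794673) (nat_lit 23) (.e (nat_lit 204863) (nat_lit 27) (.e (nat_lit 344117) (nat_lit 21) (.e (nat_lit 516115) (nat_lit 1) (.e (nat_lit 164182) (nat_lit 154) .nil))))) (.g (nat_lit 0) (.e (nat_lit 436624) (nat_lit 0) .nil) .nil)))))) (.nd (nat_lit 7) (.nd (nat_lit 8) (.nd (nat_lit 9) 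
(.lf (nat_lit 606282) (.g (nat_lit 1648) (.e (nat_lit 778469) (nat_lit 11) (.e (nat_lit 24628) (nat_lit 9) (.e (nat_lit 336443) (nat_lit 32) (.e (nat_lit 466971) (nat_lit 21) .nil)))) (.g (nat_lit 0) (.e (nat_lit 433331) (nat_lit 0) .nil) .nil))) 
(.lf (nat_lit 606794) (.g (nat_lit 2118) (.e (nat_lit 786483) (nat_lit 30) (.e (nat_lit 360475) (nat_lit 8) (.e (nat_lit 557089) (nat_lit 12) (.e (nat_lit 164006) (nat_lit 41) (.e (nat_lit 663585) (nat_lit 12) .nil))))) (.g (nat_lit 0) (.e (nat_lit 434494) (nat_lit 0) .nil) .nil)))) (.nd (nat_lit 9) 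
(.lf (nat_lit 606538) (.g (nat_lit 2020) (.e (nat_lit 786477) (nat_lit 28) (.e (nat_lit 344177) (nat_lit 43) (.e (nat_lit 770071) (nat_lit 8) (.e (nat_lit 65571) (nat_lit 3) (.e (nat_lit 98342) (nat_lit 20) .nil))))) (.g (nat_lit 0) (.e (nat_lit 433910) (nat_lit 0) .nil) .nil))) 
(.lf (nat_lit 607050) (.g (nat_lit 4166) (.e (nat_lit 794673) (nat_lit 23) (.e (nat_lit 204829) (nat_lit 18) (.e (nat_lit 57847) (nat_lit 252) (.e (nat_lit 57377) (nat_lit 3) (.e (nat_lit 98313) (nat_lit 9) (.e (nat_lit 336027) (nat_lit 3) (.e (nat_lit 98321) (nat_lit 17) (.e (nat_lit 3771) (nat_lit 229) .nil)))))))) (.g (nat_lit 1) (.e (nat_lit 436480) (nat_lit 0) .nil) .nil))))) 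
(.nd (nat_lit 8) (.nd (nat_lit 9) 
(.lf (nat_lit 606410) (.g (nat_lit 1833) (.e (nat_lit 786176) (nat_lit 11) (.e (nat_lit 24658) (nat_lit 13) (.e (nat_lit 393281) (nat_lit 23) (.e (nat_lit 426100) (nat_lit 1) (.e (nat_lit 164332) (nat_lit 230) .nil))))) (.g (nat_lit 0) (.e (nat_lit 433490) (nat_lit 0) .nil) .nil))) 
(.lf (nat_lit 606922) (.g (nat_lit 3295) (.e (nat_lit 794666) (nat_lit 22) (.e (nat_lit 196654) (nat_lit 11) (.e (nat_lit 16436) (nat_lit 9) (.e (nat_lit 426131) (nat_lit 3) (.e (nat_lit 204882) (nat_lit 32) (.e (nat_lit 385109) (nat_lit 51) .nil)))))) (.g (nat_lit 1) (.e (nat_lit 435363) (nat_lit 0) .nil) .nil)))) (.nd (nat_lit 9) 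
(.lf (nat_lit 606666) (.g (nat_lit 3051) (.e (nat_lit 786481) (nat_lit 30) (.e (nat_lit 360467) (nat_lit 3) (.e (nat_lit 516115) (nat_lit 1) (.e (nat_lit 164179) (nat_lit 154) (.e (nat_lit 57432) (nat_lit 16) .nil))))) (.g (nat_lit 0) (.e (nat_lit 434128) (nat_lit 0) .nil) .nil))) 
(.lf (nat_lit 607178) (.g (nat_lit 2060) (.e (nat_lit 794679) (nat_lit 24) (.e (nat_lit 213032) (nat_lit 11) (.e (nat_lit 24621) (nat_lit 8) (.e (nat_lit 327715) (nat_lit 16) (.e (nat_lit 286759) (nat_lit 12) .nil))))) (.g (nat_lit 0) (.e (nat_lit 436730) (nat_lit 0) .nil) .nil))))))) (.nd (nat_lit 6) (.nd (nat_lit 7) (.nd (nat_lit 8) (.nd (nat_lit 9) 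
(.lf (nat_lit 606250) (.g (nat_lit 1871) (.e (nat_lit 778469) (nat_lit 11) (.e (nat_lit 24608) (nat_lit 3) (.e (nat_lit 98359) (nat_lit 26) (.e (nat_lit 426286) (nat_lit 10) .nil)))) (.g (nat_lit 0) (.e (nat_lit 433295) (nat_lit 0) .nil) .nil))) 
(.lf (nat_lit 606762) (.g (nat_lit 1759) (.e (nat_lit 786483) (nat_lit 30) (.e (nat_lit 360452) (nat_lit 0) (.e (nat_lit 5906) (nat_lit 320) (.e (nat_lit 1219) (nat_lit 90) .nil)))) (.g (nat_lit 0) (.e (nat_lit 434290) (nat_lit 0) .nil) .nil)))) (.nd (nat_lit 9) 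
(.lf (nat_lit 606506) (.g (nat_lit 433) (.e (nat_lit 786471) (nat_lit 27) (.e (nat_lit 336060) (nat_lit 7) (.e (nat_lit 319533) (nat_lit 16) .nil))) (.g (nat_lit 0) (.e (nat_lit 433756) (nat_lit 0) .nil) .nil))) 
(.lf (nat_lit 607018) (.g (nat_lit 2671) (.e (nat_lit 794669) (nat_lit 22) (.e (nat_lit 196670) (nat_lit 14) (.e (nat_lit 73746) (nat_lit 3) (.e (nat_lit 516115) (nat_lit 1) (.e (nat_lit 164150) (nat_lit 152) (.e (nat_lit 974) (nat_lit 81) (.e (nat_lit 1256) (nat_lit 92) (.e (nat_lit 98321) (nat_lit 17) (.e (nat_lit 3771) (nat_lit 229) .nil))))))))) (.g (nat_lit 1) (.e (nat_lit 436217) (nat_lit 0) .nil) .nil))))) 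
(.nd (nat_lit 8) (.nd (nat_lit 9) 
(.lf (nat_lit 606378) (.g (nat_lit 1131) (.e (nat_lit 786176) (nat_lit 11) (.e (nat_lit 24608) (nat_lit 3) (.e (nat_lit 98369) (nat_lit 28) .nil))) (.g (nat_lit 0) (.e (nat_lit 433452) (nat_lit 0) .nil) .nil))) 
(.lf (nat_lit 606890) (.g (nat_lit 671) (.e (nat_lit 794637) (nat_lit 11) (.e (nat_lit 336086) (nat_lit 9) (.e (nat_lit 336421) (nat_lit 28) (.e (nat_lit 434197) (nat_lit 16) .nil)))) (.g (nat_lit 0) (.e (nat_lit 434827) (nat_lit 0) .nil) .nil)))) (.nd (nat_lit 9) 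
(.lf (nat_lit 606634) (.g (nat_lit 2218) (.e (nat_lit 786481) (nat_lit 30) (.e (nat_lit 360466) (nat_lit 3) (.e (nat_lit 516115) (nat_lit 1) (.e (nat_lit 164161) (nat_lit 152) (.e (nat_lit 7936) (nat_lit 89) .nil))))) (.g (nat_lit 0) (.e (nat_lit 434085) (nat_lit 0) .nil) .nil))) 
(.lf (nat_lit 607146) (.g (nat_lit 883) (.e (nat_lit 794673) (nat_lit 23) (.e (nat_lit 204880) (nat_lit 32) (.e (nat_lit 385068) (nat_lit 26) .nil))) (.g (nat_lit 0) (.e (nat_lit 436682) (nat_lit 0) .nil) .nil)))))) (.nd (nat_lit 7) (.nd (nat_lit 8) (.nd (nat_lit 9) 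
(.lf (nat_lit 606314) (.g (nat_lit 1558) (.e (nat_lit 778469) (nat_lit 11) (.e (nat_lit 24658) (nat_lit 13) (.e (nat_lit 393233) (nat_lit 17) (.e (nat_lit 7591) (nat_lit 407) (.e (nat_lit 73774) (nat_lit 26) .nil))))) (.g (nat_lit 0) (.e (nat_lit 433382) (nat_lit 0) .nil) .nil))) 
(.lf (nat_lit 606826) (.g (nat_lit 1635) (.e (nat_lit 786489) (nat_lit 34) (.e (nat_lit 393260) (nat_lit 21) (.e (nat_lit 409617) (nat_lit 10) (.e (nat_lit 604) (nat_lit 45) .nil)))) (.g (nat_lit 0) (.e (nat_lit 434738) (nat_lit 0) .nil) .nil)))) (.nd (nat_lit 9) 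
(.lf (nat_lit 606570) (.g (nat_lit 1281) (.e (nat_lit 786480) (nat_lit 29) (.e (nat_lit 352302) (nat_lit 20) (.e (nat_lit 2003) (nat_lit 138) (.e (nat_lit 671762) (nat_lit 4) (.e (nat_lit 65622) (nat_lit 12) .nil))))) (.g (nat_lit 0) (.e (nat_lit 433964) (nat_lit 0) .nil) .nil))) 
(.lf (nat_lit 607082) (.g (nat_lit 2287) (.e (nat_lit 794673) (nat_lit 23) (.e (nat_lit 204852) (nat_lit 26) (.e (nat_lit 336326) (nat_lit 18) (.e (nat_lit 204830) (nat_lit 18) (.e (nat_lit 57830) (nat_lit 250) .nil))))) (.g (nat_lit 0) (.e (nat_lit 436553) (nat_lit 0) .nil) .nil))))) (.nd (nat_lit 8) (.nd (nat_lit 9) 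
(.lf (nat_lit 606442) (.g (nat_lit 1157) (.e (nat_lit 786436) (nat_lit 0) (.e (nat_lit 3238) (nat_lit 197) (.e (nat_lit 532482) (nat_lit 0) (.e (nat_lit 6722) (nat_lit 362) .nil)))) (.g (nat_lit 0) (.e (nat_lit 433588) (nat_lit 0) .nil) .nil))) 
(.lf (nat_lit 606954) (.g (nat_lit 2608) (.e (nat_lit 794669) (nat_lit 22) (.e (nat_lit 196656) (nat_lit 11) (.e (nat_lit 16436) (nat_lit 9) (.e (nat_lit 426131) (nat_lit 3) (.e (nat_lit 204852) (nat_lit 26) (.e (nat_lit 336258) (nat_lit 15) (.e (nat_lit 3768) (nat_lit 229) .nil))))))) (.g (nat_lit 1) (.e (nat_lit 435840) (nat_lit 0) .nil) .nil)))) (.nd (nat_lit 9) 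
(.lf (nat_lit 606698) (.g (nat_lit 2558) (.e (nat_lit 786481) (nat_lit 30) (.e (nat_lit 360473) (nat_lit 8) (.e (nat_lit 557091) (nat_lit 12) (.e (nat_lit 163999) (nat_lit 38) (.e (nat_lit 639007) (nat_lit 13) .nil))))) (.g (nat_lit 0) (.e (nat_lit 434191) (nat_lit 0) .nil) .nil))) 
(.lf (nat_lit 607210) (.g (nat_lit 1934) (.e (nat_lit 794684) (nat_lit 25) (.e (nat_lit 221214) (nat_lit 23) (.e (nat_lit 204883) (nat_lit 33) (.e (nat_lit 401459) (nat_lit 13) (.e (nat_lit 483343) (nat_lit 17) .nil))))) (.g (nat_lit 0) (.e (nat_lit 436985) (nat_lit 0) .nil) .nil)))))))) (.nd (nat_lit 5) (.nd (nat_lit 6) (.nd (nat_lit 7) (.nd (nat_lit 8) (.nd (nat_lit 9) 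
(.lf (nat_lit 606234) (.g (nat_lit 2073) (.e (nat_lit 778469) (nat_lit 11) (.e (nat_lit 24604) (nat_lit 2) (.e (nat_lit 90170) (nat_lit 13) (.e (nat_lit 172106) (nat_lit 10) (.e (nat_lit 434244) (nat_lit 28) (.e (nat_lit 573451) (nat_lit 9) (.e (nat_lit 1004) (nat_lit 81) (.e (nat_lit 2336) (nat_lit 151) .nil)))))))) (.g (nat_lit 1) (.e (nat_lit 433279) (nat_lit 0) .nil) .nil))) 
(.lf (nat_lit 606746) (.g (nat_lit 2678) (.e (nat_lit 786482) (nat_lit 30) (.e (nat_lit 360475) (nat_lit 8) (.e (nat_lit 557091) (nat_lit 12) (.e (nat_lit 164006) (nat_lit 41) (.e (nat_lit 663583) (nat_lit 11) .nil))))) (.g (nat_lit 0) (.e (nat_lit 434259) (nat_lit 0) .nil) .nil)))) (.nd (nat_lit 9) 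
(.lf (nat_lit 606490) (.g (nat_lit 5675) (.e (nat_lit 786468) (nat_lit 27) (.e (nat_lit 336432) (nat_lit 30) (.e (nat_lit 450588) (nat_lit 10) (.e (nat_lit 573474) (nat_lit 12) (.e (nat_lit 57516) (nat_lit 42) .nil))))) (.g (nat_lit 0) (.e (nat_lit 433726) (nat_lit 0) .nil) .nil))) 
(.lf (nat_lit 607002) (.g (nat_lit 2181) (.e (nat_lit 794669) (nat_lit 22) (.e (nat_lit 196668) (nat_lit 14) (.e (nat_lit 73747) (nat_lit 3) (.e (nat_lit 516117) (nat_lit 1) (.e (nat_lit 164161) (nat_lit 152) (.e (nat_lit 1032) (nat_lit 81) (.e (nat_lit 1254) (nat_lit 92) (.e (nat_lit 98321) (nat_lit 17) (.e (nat_lit 3771) (nat_lit 229) .nil))))))))) (.g (nat_lit 1) (.e (nat_lit 436034) (nat_lit 0) .nil) .nil))))) 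
(.nd (nat_lit 8) (.nd (nat_lit 9) 
(.lf (nat_lit 606362) (.g (nat_lit 3749) (.e (nat_lit 778470) (nat_lit 11) (.e (nat_lit 24658) (nat_lit 13) (.e (nat_lit 393301) (nat_lit 27) (.e (nat_lit 491558) (nat_lit 10) (.e (nat_lit 352000) (nat_lit 44) .nil))))) (.g (nat_lit 0) (.e (nat_lit 433434) (nat_lit 0) .nil) .nil))) 
(.lf (nat_lit 606874) (.g (nat_lit 686) (.e (nat_lit 794635) (nat_lit 11) (.e (nat_lit 336151) (nat_lit 9) (.e (nat_lit 336437) (nat_lit 31) (.e (nat_lit 458769) (nat_lit 16) (.e (nat_lit 164291) (nat_lit 224) (.e (nat_lit 164112) (nat_lit 118) .nil)))))) (.g (nat_lit 1) (.e (nat_lit 434810) (nat_lit 0) .nil) .nil)))) (.nd (nat_lit 9) 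
(.lf (nat_lit 606618) (.g (nat_lit 2290) (.e (nat_lit 786481) (nat_lit 30) (.e (nat_lit 360452) (nat_lit 0) (.e (nat_lit 5907) (nat_lit 320) (.e (nat_lit 1221) (nat_lit 90) (.e (nat_lit 81922) (nat_lit 0) .nil))))) (.g (nat_lit 0) (.e (nat_lit 434050) (nat_lit 0) .nil) .nil))) 
(.lf (nat_lit 607130) (.g (nat_lit 2187) (.e (nat_lit 794673) (nat_lit 23) (.e (nat_lit 204863) (nat_lit 27) (.e (nat_lit 344118) (nat_lit 21) (.e (nat_lit 516115) (nat_lit 1) (.e (nat_lit 164183) (nat_lit 154) .nil))))) (.g (nat_lit 0) (.e (nat_lit 436653) (nat_lit 0) .nil) .nil)))))) (.nd (nat_lit 7) (.nd (nat_lit 8) (.nd (nat_lit 9) 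
(.lf (nat_lit 606298) (.g (nat_lit 967) (.e (nat_lit 778469) (nat_lit 11) (.e (nat_lit 24655) (nat_lit 13) (.e (nat_lit 393298) (nat_lit 27) .nil))) (.g (nat_lit 0) (.e (nat_lit 433353) (nat_lit 0) .nil) .nil))) 
(.lf (nat_lit 606810) (.g (nat_lit 1963) (.e (nat_lit 786483) (nat_lit 30) (.e (nat_lit 360475) (nat_lit 8) (.e (nat_lit 557091) (nat_lit 12) (.e (nat_lit 164003) (nat_lit 40) .nil)))) (.g (nat_lit 0) (.e (nat_lit 434673) (nat_lit 0) .nil) .nil)))) (.nd (nat_lit 9) 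
(.lf (nat_lit 606554) (.g (nat_lit 2189) (.e (nat_lit 786478) (nat_lit 29) (.e (nat_lit 352262) (nat_lit 0) (.e (nat_lit 3748) (nat_lit 228) (.e (nat_lit 786480) (nat_lit 29) (.e (nat_lit 352265) (nat_lit 0) (.e (nat_lit 3733) (nat_lit 228) .nil)))))) (.g (nat_lit 1) (.e (nat_lit 433937) (nat_lit 0) .nil) .nil))) 
(.lf (nat_lit 607066) (.g (nat_lit 2252) (.e (nat_lit 794673) (nat_lit 23) (.e (nat_lit 204830) (nat_lit 18) (.e (nat_lit 57852) (nat_lit 252) (.e (nat_lit 57378) (nat_lit 3) (.e (nat_lit 98317) (nat_lit 9) .nil))))) (.g (nat_lit 0) (.e (nat_lit 436507) (nat_lit 0) .nil) .nil))))) (.nd (nat_lit 8) (.nd (nat_lit 9) 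
(.lf (nat_lit 606426) (.g (nat_lit 1362) (.e (nat_lit 778473) (nat_lit 12) (.e (nat_lit 163999) (nat_lit 38) (.e (nat_lit 638998) (nat_lit 8) (.e (nat_lit 172123) (nat_lit 13) (.e (nat_lit 483405) (nat_lit 26) .nil))))) (.g (nat_lit 0) (.e (nat_lit 433510) (nat_lit 0) .nil) .nil))) 
(.lf (nat_lit 606938) (.g (nat_lit 1995) (.e (nat_lit 794668) (nat_lit 22) (.e (nat_lit 196666) (nat_lit 13) (.e (nat_lit 65569) (nat_lit 3) (.e (nat_lit 98334) (nat_lit 18) (.e (nat_lit 164159) (nat_lit 152) (.e (nat_lit 1016) (nat_lit 81) (.e (nat_lit 1251) (nat_lit 92) (.e (nat_lit 98321) (nat_lit 17) (.e (nat_lit 3771) (nat_lit 229) .nil))))))))) (.g (nat_lit 1) (.e (nat_lit 435727) (nat_lit 0) .nil) .nil)))) 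
(.nd (nat_lit 9) 
(.lf (nat_lit 606682) (.g (nat_lit 819) (.e (nat_lit 786481) (nat_lit 30) (.e (nat_lit 360473) (nat_lit 8) (.e (nat_lit 557089) (nat_lit 12) (.e (nat_lit 164007) (nat_lit 41) .nil)))) (.g (nat_lit 0) (.e (nat_lit 434158) (nat_lit 0) .nil) .nil))) 
(.lf (nat_lit 607194) (.g (nat_lit 2130) (.e (nat_lit 794683) (nat_lit 25) (.e (nat_lit 221194) (nat_lit 11) (.e (nat_lit 336059) (nat_lit 7) (.e (nat_lit 319531) (nat_lit 16) (.e (nat_lit 286759) (nat_lit 12) .nil))))) (.g (nat_lit 0) (.e (nat_lit 436791) (nat_lit 0) .nil) .nil))))))) (.nd (nat_lit 6) (.nd (nat_lit 7) (.nd (nat_lit 8) (.nd (nat_lit 9) 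
(.lf (nat_lit 606266) (.g (nat_lit 3100) (.e (nat_lit 778469) (nat_lit 11) (.e (nat_lit 24608) (nat_lit 3) (.e (nat_lit 98373) (nat_lit 29) (.e (nat_lit 450587) (nat_lit 10) (.e (nat_lit 573478) (nat_lit 12) (.e (nat_lit 57573) (nat_lit 55) .nil)))))) (.g (nat_lit 1) (.e (nat_lit 433312) (nat_lit 0) .nil) .nil))) 
(.lf (nat_lit 606778) (.g (nat_lit 1333) (.e (nat_lit 786483) (nat_lit 30) (.e (nat_lit 360457) (nat_lit 0) (.e (nat_lit 5818) (nat_lit 320) (.e (nat_lit 1222) (nat_lit 90) (.e (nat_lit 81922) (nat_lit 0) .nil))))) (.g (nat_lit 0) (.e (nat_lit 434314) (nat_lit 0) .nil) .nil)))) (.nd (nat_lit 9) 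
(.lf (nat_lit 606522) (.g (nat_lit 1394) (.e (nat_lit 786473) (nat_lit 27) (.e (nat_lit 336235) (nat_lit 14) (.e (nat_lit 401438) (nat_lit 9) (.e (nat_lit 426553) (nat_lit 32) .nil)))) (.g (nat_lit 0) (.e (nat_lit 433782) (nat_lit 0) .nil) .nil))) 
(.lf (nat_lit 607034) (.g (nat_lit 1245) (.e (nat_lit 794669) (nat_lit 22) (.e (nat_lit 196670) (nat_lit 14) (.e (nat_lit 73746) (nat_lit 3) (.e (nat_lit 516120) (nat_lit 1) .nil)))) (.g (nat_lit 0) (.e (nat_lit 436307) (nat_lit 0) .nil) .nil))))) (.nd (nat_lit 8) (.nd (nat_lit 9) 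
(.lf (nat_lit 606394) (.g (nat_lit 1177) (.e (nat_lit 786176) (nat_lit 11) (.e (nat_lit 24608) (nat_lit 3) (.e (nat_lit 98381) (nat_lit 31) (.e (nat_lit 474880) (nat_lit 3) .nil)))) (.g (nat_lit 0) (.e (nat_lit 433468) (nat_lit 0) .nil) .nil))) 
(.lf (nat_lit 606906) (.g (nat_lit 1511) (.e (nat_lit 794659) (nat_lit 21) (.e (nat_lit 164398) (nat_lit 256) (.e (nat_lit 57437) (nat_lit 17) (.e (nat_lit 376869) (nat_lit 23) .nil)))) (.g (nat_lit 0) (.e (nat_lit 435037) (nat_lit 0) .nil) .nil)))) (.nd (nat_lit 9) 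
(.lf (nat_lit 606650) (.g (nat_lit 2035) (.e (nat_lit 786481) (nat_lit 30) (.e (nat_lit 360466) (nat_lit 3) (.e (nat_lit 516119) (nat_lit 1) (.e (nat_lit 164184) (nat_lit 155) (.e (nat_lit 122911) (nat_lit 13) (.e (nat_lit 352000) (nat_lit 45) .nil)))))) (.g (nat_lit 1) (.e (nat_lit 434106) (nat_lit 0) .nil) .nil))) 
(.lf (nat_lit 607162) (.g (nat_lit 1860) (.e (nat_lit 794677) (nat_lit 24) (.e (nat_lit 213030) (nat_lit 11) (.e (nat_lit 24617) (nat_lit 7) (.e (nat_lit 319535) (nat_lit 17) .nil)))) (.g (nat_lit 0) (.e (nat_lit 436709) (nat_lit 0) .nil) .nil)))))) (.nd (nat_lit 7) (.nd (nat_lit 8) (.nd (nat_lit 9) 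
(.lf (nat_lit 606330) (.g (nat_lit 2934) (.e (nat_lit 778469) (nat_lit 11) (.e (nat_lit 24658) (nat_lit 13) (.e (nat_lit 393301) (nat_lit 27) (.e (nat_lit 491558) (nat_lit 10) (.e (nat_lit 352000) (nat_lit 44) .nil))))) (.g (nat_lit 1) (.e (nat_lit 433400) (nat_lit 0) .nil) .nil))) 
(.lf (nat_lit 606842) (.g (nat_lit 938) (.e (nat_lit 802560) (nat_lit 5) (.e (nat_lit 114698) (nat_lit 11) (.e (nat_lit 426199) (nat_lit 9) (.e (nat_lit 426502) (nat_lit 27) .nil)))) (.g (nat_lit 0) (.e (nat_lit 434768) (nat_lit 0) .nil) .nil)))) (.nd (nat_lit 9) 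
(.lf (nat_lit 606586) (.g (nat_lit 3882) (.e (nat_lit 786480) (nat_lit 29) (.e (nat_lit 352309) (nat_lit 21) (.e (nat_lit 57930) (nat_lit 282) (.e (nat_lit 163946) (nat_lit 20) (.e (nat_lit 491566) (nat_lit 12) (.e (nat_lit 385104) (nat_lit 50) .nil)))))) (.g (nat_lit 1) (.e (nat_lit 433992) (nat_lit 0) .nil) .nil))) 
(.lf (nat_lit 607098) (.g (nat_lit 3465) (.e (nat_lit 794673) (nat_lit 23) (.e (nat_lit 204862) (nat_lit 27) (.e (nat_lit 344117) (nat_lit 21) (.e (nat_lit 516115) (nat_lit 1) (.e (nat_lit 164183) (nat_lit 154) (.e (nat_lit 57378) (nat_lit 3) (.e (nat_lit 98321) (nat_lit 17) (.e (nat_lit 3771) (nat_lit 229) .nil)))))))) (.g (nat_lit 1) (.e (nat_lit 436586) (nat_lit 0) .nil) .nil))))) 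
(.nd (nat_lit 8) (.nd (nat_lit 9) 
(.lf (nat_lit 606458) (.g (nat_lit 4333) (.e (nat_lit 786444) (nat_lit 15) (.e (nat_lit 1859) (nat_lit 124) (.e (nat_lit 557109) (nat_lit 15) (.e (nat_lit 188452) (nat_lit 23) (.e (nat_lit 204881) (nat_lit 32) .nil))))) (.g (nat_lit 0) (.e (nat_lit 433633) (nat_lit 0) .nil) .nil))) 
(.lf (nat_lit 606970) (.g (nat_lit 2023) (.e (nat_lit 794669) (nat_lit 22) (.e (nat_lit 196668) (nat_lit 14) (.e (nat_lit 73746) (nat_lit 3) (.e (nat_lit 516119) (nat_lit 1) (.e (nat_lit 164149) (nat_lit 152) (.e (nat_lit 974) (nat_lit 81) (.e (nat_lit 1256) (nat_lit 92) (.e (nat_lit 98321) (nat_lit 17) (.e (nat_lit 3771) (nat_lit 229) .nil))))))))) (.g (nat_lit 1) (.e (nat_lit 435894) (nat_lit 0) .nil) .nil)))) 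
(.nd (nat_lit 9) 
(.lf (nat_lit 606714) (.g (nat_lit 811) (.e (nat_lit 786481) (nat_lit 30) (.e (nat_lit 360473) (nat_lit 8) (.e (nat_lit 557094) (nat_lit 12) (.e (nat_lit 163998) (nat_lit 38) .nil)))) (.g (nat_lit 0) (.e (nat_lit 434217) (nat_lit 0) .nil) .nil))) 
(.lf (nat_lit 607226) (.g (nat_lit 2939) (.e (nat_lit 802824) (nat_lit 11) (.e (nat_lit 336027) (nat_lit 3) (.e (nat_lit 98373) (nat_lit 29) (.e (nat_lit 450588) (nat_lit 10) (.e (nat_lit 573473) (nat_lit 12) .nil))))) (.g (nat_lit 0) (.e (nat_lit 437011) (nat_lit 0) .nil) .nil)))))))))) 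
(.nd (nat_lit 3) (.nd (nat_lit 4) (.nd (nat_lit 5) (.nd (nat_lit 6) (.nd (nat_lit 7) 
(.nd (nat_lit 8) (.nd (nat_lit 9) 
(.lf (nat_lit 606214) (.g (nat_lit 3814) (.e (nat_lit 778468) (nat_lit 11) (.e (nat_lit 24608) (nat_lit 3) (.e (nat_lit 98373) (nat_lit 29) (.e (nat_lit 450587) (nat_lit 10) (.e (nat_lit 573475) (nat_lit 12) .nil))))) (.g (nat_lit 0) (.e (nat_lit 433258) (nat_lit 0) .nil) .nil))) 
(.lf (nat_lit 606726) (.g (nat_lit 1101) (.e (nat_lit 786481) (nat_lit 30) (.e (nat_lit 360486) (nat_lit 18) (.e (nat_lit 671762) (nat_lit 4) (.e (nat_lit 65624) (nat_lit 12) .nil)))) (.g (nat_lit 0) (.e (nat_lit 434234) (nat_lit 0) .nil) .nil)))) (.nd (nat_lit 9) 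
(.lf (nat_lit 606470) (.g (nat_lit 3490) (.e (nat_lit 786450) (nat_lit 15) (.e (nat_lit 1853) (nat_lit 124) (.e (nat_lit 557109) (nat_lit 15) (.e (nat_lit 188452) (nat_lit 23) (.e (nat_lit 204879) (nat_lit 32) .nil))))) (.g (nat_lit 0) (.e (nat_lit 433666) (nat_lit 0) .nil) .nil))) 
(.lf (nat_lit 606982) (.g (nat_lit 2099) (.e (nat_lit 794669) (nat_lit 22) (.e (nat_lit 196668) (nat_lit 14) (.e (nat_lit 73747) (nat_lit 3) (.e (nat_lit 516115) (nat_lit 1) (.e (nat_lit 164151) (nat_lit 152) .nil))))) (.g (nat_lit 0) (.e (nat_lit 435935) (nat_lit 0) .nil) .nil))))) (.nd (nat_lit 8) (.nd (nat_lit 9) 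
(.lf (nat_lit 606342) (.g (nat_lit 398) (.e (nat_lit 778469) (nat_lit 11) (.e (nat_lit 24660) (nat_lit 13) (.e (nat_lit 393249) (nat_lit 17) .nil))) (.g (nat_lit 0) (.e (nat_lit 433412) (nat_lit 0) .nil) .nil))) 
(.lf (nat_lit 606854) (.g (nat_lit 2653) (.e (nat_lit 802560) (nat_lit 5) (.e (nat_lit 114698) (nat_lit 11) (.e (nat_lit 426335) (nat_lit 13) (.e (nat_lit 483402) (nat_lit 26) (.e (nat_lit 385109) (nat_lit 51) .nil))))) (.g (nat_lit 0) (.e (nat_lit 434787) (nat_lit 0) .nil) .nil)))) (.nd (nat_lit 9) 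
(.lf (nat_lit 606598) (.g (nat_lit 612) (.e (nat_lit 786480) (nat_lit 29) (.e (nat_lit 352318) (nat_lit 24) (.e (nat_lit 123194) (nat_lit 266) .nil))) (.g (nat_lit 0) (.e (nat_lit 434021) (nat_lit 0) .nil) .nil))) 
(.lf (nat_lit 607110) (.g (nat_lit 533) (.e (nat_lit 794673) (nat_lit 23) (.e (nat_lit 204863) (nat_lit 27) (.e (nat_lit 344117) (nat_lit 21) .nil))) (.g (nat_lit 0) (.e (nat_lit 436615) (nat_lit 0) .nil) .nil)))))) (.nd (nat_lit 7) (.nd (nat_lit 8) (.nd (nat_lit 9) 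
(.lf (nat_lit 606278) (.g (nat_lit 3667) (.e (nat_lit 778469) (nat_lit 11) (.e (nat_lit 24628) (nat_lit 9) (.e (nat_lit 336443) (nat_lit 32) (.e (nat_lit 466969) (nat_lit 21) (.e (nat_lit 164330) (nat_lit 230) (.e (nat_lit 163846) (nat_lit 0) (.e (nat_lit 3711) (nat_lit 227) .nil))))))) (.g (nat_lit 1) (.e (nat_lit 433327) (nat_lit 0) .nil) .nil))) 
(.lf (nat_lit 606790) (.g (nat_lit 3087) (.e (nat_lit 786483) (nat_lit 30) (.e (nat_lit 360474) (nat_lit 8) (.e (nat_lit 557091) (nat_lit 12) (.e (nat_lit 164008) (nat_lit 41) .nil)))) (.g (nat_lit 0) (.e (nat_lit 434416) (nat_lit 0) .nil) .nil)))) (.nd (nat_lit 9) 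
(.lf (nat_lit 606534) (.g (nat_lit 1338) (.e (nat_lit 786475) (nat_lit 28) (.e (nat_lit 344068) (nat_lit 0) (.e (nat_lit 2856) (nat_lit 184) (.e (nat_lit 426540) (nat_lit 29) .nil)))) (.g (nat_lit 0) (.e (nat_lit 433797) (nat_lit 0) .nil) .nil))) 
(.lf (nat_lit 607046) (.g (nat_lit 1813) (.e (nat_lit 794672) (nat_lit 23) (.e (nat_lit 204829) (nat_lit 18) (.e (nat_lit 57927) (nat_lit 282) (.e (nat_lit 163874) (nat_lit 3) .nil)))) (.g (nat_lit 0) (.e (nat_lit 436425) (nat_lit 0) .nil) .nil))))) (.nd (nat_lit 8) (.nd (nat_lit 9) 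
(.lf (nat_lit 606406) (.g (nat_lit 2821) (.e (nat_lit 786176) (nat_lit 11) (.e (nat_lit 24658) (nat_lit 13) (.e (nat_lit 393234) (nat_lit 17) (.e (nat_lit 7591) (nat_lit 407) (.e (nat_lit 73776) (nat_lit 26) .nil))))) (.g (nat_lit 0) (.e (nat_lit 433486) (nat_lit 0) .nil) .nil))) 
(.lf (nat_lit 606918) (.g (nat_lit 3111) (.e (nat_lit 794665) (nat_lit 22) (.e (nat_lit 196656) (nat_lit 11) (.e (nat_lit 16436) (nat_lit 9) (.e (nat_lit 426131) (nat_lit 3) (.e (nat_lit 204880) (nat_lit 32) (.e (nat_lit 385109) (nat_lit 51) .nil)))))) (.g (nat_lit 1) (.e (nat_lit 435240) (nat_lit 0) .nil) .nil)))) (.nd (nat_lit 9) 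
(.lf (nat_lit 606662) (.g (nat_lit 2038) (.e (nat_lit 786481) (nat_lit 30) (.e (nat_lit 360467) (nat_lit 3) (.e (nat_lit 516115) (nat_lit 1) (.e (nat_lit 164150) (nat_lit 152) .nil)))) (.g (nat_lit 0) (.e (nat_lit 434123) (nat_lit 0) .nil) .nil))) 
(.lf (nat_lit 607174) (.g (nat_lit 1754) (.e (nat_lit 794679) (nat_lit 24) (.e (nat_lit 213032) (nat_lit 11) (.e (nat_lit 24617) (nat_lit 7) (.e (nat_lit 319530) (nat_lit 16) .nil)))) (.g (nat_lit 0) (.e (nat_lit 436726) (nat_lit 0) .nil) .nil))))))) (.nd (nat_lit 6) (.nd (nat_lit 7) (.nd (nat_lit 8) (.nd (nat_lit 9) 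
(.lf (nat_lit 606246) (.g (nat_lit 1421) (.e (nat_lit 778469) (nat_lit 11) (.e (nat_lit 24607) (nat_lit 3) (.e (nat_lit 98365) (nat_lit 26) (.e (nat_lit 426187) (nat_lit 9) (.e (nat_lit 426438) (nat_lit 18) .nil))))) (.g (nat_lit 0) (.e (nat_lit 433291) (nat_lit 0) .nil) .nil))) 
(.lf (nat_lit 606758) (.g (nat_lit 443) (.e (nat_lit 786483) (nat_lit 30) (.e (nat_lit 360451) (nat_lit 0) (.e (nat_lit 5898) (nat_lit 320) .nil))) (.g (nat_lit 0) (.e (nat_lit 434282) (nat_lit 0) .nil) .nil)))) (.nd (nat_lit 9) 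
(.lf (nat_lit 606502) (.g (nat_lit 2632) (.e (nat_lit 786470) (nat_lit 27) (.e (nat_lit 336226) (nat_lit 14) (.e (nat_lit 401457) (nat_lit 13) (.e (nat_lit 483406) (nat_lit 26) (.e (nat_lit 385102) (nat_lit 50) .nil))))) (.g (nat_lit 0) (.e (nat_lit 433747) (nat_lit 0) .nil) .nil))) 
(.lf (nat_lit 607014) (.g (nat_lit 1683) (.e (nat_lit 794669) (nat_lit 22) (.e (nat_lit 196668) (nat_lit 14) (.e (nat_lit 73753) (nat_lit 8) (.e (nat_lit 557089) (nat_lit 12) .nil)))) (.g (nat_lit 0) (.e (nat_lit 436206) (nat_lit 0) .nil) .nil))))) (.nd (nat_lit 8) (.nd (nat_lit 9) 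
(.lf (nat_lit 606374) (.g (nat_lit 1424) (.e (nat_lit 786176) (nat_lit 11) (.e (nat_lit 24604) (nat_lit 2) (.e (nat_lit 90178) (nat_lit 15) (.e (nat_lit 196352) (nat_lit 3) .nil)))) (.g (nat_lit 0) (.e (nat_lit 433448) (nat_lit 0) .nil) .nil))) 
(.lf (nat_lit 606886) (.g (nat_lit 3321) (.e (nat_lit 794637) (nat_lit 11) (.e (nat_lit 336004) (nat_lit 2) (.e (nat_lit 90170) (nat_lit 13) (.e (nat_lit 172106) (nat_lit 10) (.e (nat_lit 434244) (nat_lit 28) .nil))))) (.g (nat_lit 0) (.e (nat_lit 434822) (nat_lit 0) .nil) .nil)))) (.nd (nat_lit 9) 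
(.lf (nat_lit 606630) (.g (nat_lit 1403) (.e (nat_lit 786481) (nat_lit 30) (.e (nat_lit 368384) (nat_lit 5) (.e (nat_lit 532579) (nat_lit 26) (.e (nat_lit 426172) (nat_lit 7) (.e (nat_lit 417536) (nat_lit 10) (.e (nat_lit 931) (nat_lit 76) .nil)))))) (.g (nat_lit 1) (.e (nat_lit 434079) (nat_lit 0) .nil) .nil))) 
(.lf (nat_lit 607142) (.g (nat_lit 2260) (.e (nat_lit 794673) (nat_lit 23) (.e (nat_lit 204863) (nat_lit 27) (.e (nat_lit 344120) (nat_lit 21) (.e (nat_lit 516120) (nat_lit 1) (.e (nat_lit 164183) (nat_lit 154) .nil))))) (.g (nat_lit 0) (.e (nat_lit 436669) (nat_lit 0) .nil) .nil)))))) (.nd (nat_lit 7) (.nd (nat_lit 8) (.nd (nat_lit 9) 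
(.lf (nat_lit 606310) (.g (nat_lit 1581) (.e (nat_lit 778469) (nat_lit 11) (.e (nat_lit 24657) (nat_lit 13) (.e (nat_lit 393294) (nat_lit 26) (.e (nat_lit 475214) (nat_lit 42) .nil)))) (.g (nat_lit 0) (.e (nat_lit 433372) (nat_lit 0) .nil) .nil))) 
(.lf (nat_lit 606822) (.g (nat_lit 1515) (.e (nat_lit 786483) (nat_lit 30) (.e (nat_lit 360483) (nat_lit 15) (.e (nat_lit 647203) (nat_lit 14) (.e (nat_lit 1359) (nat_lit 102) (.e (nat_lit 286759) (nat_lit 12) .nil))))) (.g (nat_lit 0) (.e (nat_lit 434724) (nat_lit 0) .nil) .nil)))) (.nd (nat_lit 9) 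
(.lf (nat_lit 606566) (.g (nat_lit 683) (.e (nat_lit 786479) (nat_lit 29) (.e (nat_lit 352315) (nat_lit 23) (.e (nat_lit 98334) (nat_lit 18) .nil))) (.g (nat_lit 0) (.e (nat_lit 433956) (nat_lit 0) .nil) .nil))) 
(.lf (nat_lit 607078) (.g (nat_lit 3238) (.e (nat_lit 794673) (nat_lit 23) (.e (nat_lit 204831) (nat_lit 18) (.e (nat_lit 57854) (nat_lit 252) (.e (nat_lit 57377) (nat_lit 3) (.e (nat_lit 98313) (nat_lit 9) .nil))))) (.g (nat_lit 0) (.e (nat_lit 436530) (nat_lit 0) .nil) .nil))))) (.nd (nat_lit 8) (.nd (nat_lit 9) 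
(.lf (nat_lit 606438) (.g (nat_lit 1510) (.e (nat_lit 778512) (nat_lit 14) (.e (nat_lit 2810) (nat_lit 180) (.e (nat_lit 303127) (nat_lit 9) (.e (nat_lit 426428) (nat_lit 17) (.e (nat_lit 98048) (nat_lit 6) .nil))))) (.g (nat_lit 0) (.e (nat_lit 433544) (nat_lit 0) .nil) .nil))) 
(.lf (nat_lit 606950) (.g (nat_lit 1784) (.e (nat_lit 794669) (nat_lit 22) (.e (nat_lit 196654) (nat_lit 11) (.e (nat_lit 16436) (nat_lit 9) (.e (nat_lit 426131) (nat_lit 3) (.e (nat_lit 204852) (nat_lit 26) .nil))))) (.g (nat_lit 0) (.e (nat_lit 435819) (nat_lit 0) .nil) .nil)))) (.nd (nat_lit 9) 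
(.lf (nat_lit 606694) (.g (nat_lit 1637) (.e (nat_lit 786481) (nat_lit 30) (.e (nat_lit 360473) (nat_lit 8) (.e (nat_lit 557091) (nat_lit 12) (.e (nat_lit 163996) (nat_lit 37) (.e (nat_lit 630821) (nat_lit 16) .nil))))) (.g (nat_lit 0) (.e (nat_lit 434187) (nat_lit 0) .nil) .nil))) 
(.lf (nat_lit 607206) (.g (nat_lit 1454) (.e (nat_lit 794683) (nat_lit 25) (.e (nat_lit 221215) (nat_lit 23) (.e (nat_lit 204883) (nat_lit 33) (.e (nat_lit 401459) (nat_lit 13) (.e (nat_lit 483354) (nat_lit 17) .nil))))) (.g (nat_lit 0) (.e (nat_lit 436863) (nat_lit 0) .nil) .nil)))))))) (.nd (nat_lit 5) (.nd (nat_lit 6) (.nd (nat_lit 7) (.nd (nat_lit 8) (.nd (nat_lit 9) 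
(.lf (nat_lit 606230) (.g (nat_lit 3739) (.e (nat_lit 778468) (nat_lit 11) (.e (nat_lit 24658) (nat_lit 13) (.e (nat_lit 393301) (nat_lit 27) (.e (nat_lit 491558) (nat_lit 10) (.e (nat_lit 352000) (nat_lit 44) .nil))))) (.g (nat_lit 0) (.e (nat_lit 433275) (nat_lit 0) .nil) .nil))) 
(.lf (nat_lit 606742) (.g (nat_lit 909) (.e (nat_lit 786482) (nat_lit 30) (.e (nat_lit 360475) (nat_lit 8) (.e (nat_lit 557091) (nat_lit 12) .nil))) (.g (nat_lit 0) (.e (nat_lit 434255) (nat_lit 0) .nil) .nil)))) (.nd (nat_lit 9) 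
(.lf (nat_lit 606486) (.g (nat_lit 3051) (.e (nat_lit 786467) (nat_lit 27) (.e (nat_lit 336228) (nat_lit 14) (.e (nat_lit 401456) (nat_lit 13) (.e (nat_lit 483385) (nat_lit 23) (.e (nat_lit 336260) (nat_lit 15) (.e (nat_lit 3733) (nat_lit 228) .nil)))))) (.g (nat_lit 1) (.e (nat_lit 433721) (nat_lit 0) .nil) .nil))) 
(.lf (nat_lit 606998) (.g (nat_lit 2040) (.e (nat_lit 794669) (nat_lit 22) (.e (nat_lit 196668) (nat_lit 14) (.e (nat_lit 73747) (nat_lit 3) (.e (nat_lit 516117) (nat_lit 1) (.e (nat_lit 164158) (nat_lit 152) .nil))))) (.g (nat_lit 0) (.e (nat_lit 436030) (nat_lit 0) .nil) .nil))))) (.nd (nat_lit 8) (.nd (nat_lit 9) 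
(.lf (nat_lit 606358) (.g (nat_lit 1751) (.e (nat_lit 778470) (nat_lit 11) (.e (nat_lit 24628) (nat_lit 9) (.e (nat_lit 336443) (nat_lit 32) (.e (nat_lit 466972) (nat_lit 21) .nil)))) (.g (nat_lit 0) (.e (nat_lit 433429) (nat_lit 0) .nil) .nil))) 
(.lf (nat_lit 606870) (.g (nat_lit 1025) (.e (nat_lit 794635) (nat_lit 11) (.e (nat_lit 336121) (nat_lit 9) (.e (nat_lit 336437) (nat_lit 31) (.e (nat_lit 458769) (nat_lit 16) (.e (nat_lit 164293) (nat_lit 224) (.e (nat_lit 164112) (nat_lit 118) .nil)))))) (.g (nat_lit 1) (.e (nat_lit 434806) (nat_lit 0) .nil) .nil)))) (.nd (nat_lit 9) 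
(.lf (nat_lit 606614) (.g (nat_lit 386) (.e (nat_lit 786481) (nat_lit 30) (.e (nat_lit 360452) (nat_lit 0) (.e (nat_lit 5907) (nat_lit 320) .nil))) (.g (nat_lit 0) (.e (nat_lit 434045) (nat_lit 0) .nil) .nil))) 
(.lf (nat_lit 607126) (.g (nat_lit 1829) (.e (nat_lit 794673) (nat_lit 23) (.e (nat_lit 204863) (nat_lit 27) (.e (nat_lit 344117) (nat_lit 21) (.e (nat_lit 516118) (nat_lit 1) .nil)))) (.g (nat_lit 0) (.e (nat_lit 436645) (nat_lit 0) .nil) .nil)))))) (.nd (nat_lit 7) (.nd (nat_lit 8) (.nd (nat_lit 9) 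
(.lf (nat_lit 606294) (.g (nat_lit 2065) (.e (nat_lit 778469) (nat_lit 11) (.e (nat_lit 24655) (nat_lit 13) (.e (nat_lit 393233) (nat_lit 17) (.e (nat_lit 7591) (nat_lit 407) (.e (nat_lit 73774) (nat_lit 26) .nil))))) (.g (nat_lit 0) (.e (nat_lit 433349) (nat_lit 0) .nil) .nil))) 
(.lf (nat_lit 606806) (.g (nat_lit 2254) (.e (nat_lit 786483) (nat_lit 30) (.e (nat_lit 360475) (nat_lit 8) (.e (nat_lit 557091) (nat_lit 12) (.e (nat_lit 164004) (nat_lit 41) .nil)))) (.g (nat_lit 0) (.e (nat_lit 434634) (nat_lit 0) .nil) .nil)))) (.nd (nat_lit 9) 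
(.lf (nat_lit 606550) (.g (nat_lit 3664) (.e (nat_lit 786477) (nat_lit 28) (.e (nat_lit 344177) (nat_lit 43) (.e (nat_lit 770072) (nat_lit 8) (.e (nat_lit 65571) (nat_lit 3) (.e (nat_lit 98342) (nat_lit 20) (.e (nat_lit 221204) (nat_lit 20) (.e (nat_lit 3748) (nat_lit 228) .nil))))))) (.g (nat_lit 1) (.e (nat_lit 433923) (nat_lit 0) .nil) .nil))) 
(.lf (nat_lit 607062) (.g (nat_lit 2899) (.e (nat_lit 794673) (nat_lit 23) (.e (nat_lit 204829) (nat_lit 18) (.e (nat_lit 57931) (nat_lit 282) (.e (nat_lit 163874) (nat_lit 3) (.e (nat_lit 204872) (nat_lit 30) .nil))))) (.g (nat_lit 0) (.e (nat_lit 436502) (nat_lit 0) .nil) .nil))))) (.nd (nat_lit 8) (.nd (nat_lit 9) 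
(.lf (nat_lit 606422) (.g (nat_lit 1918) (.e (nat_lit 786176) (nat_lit 11) (.e (nat_lit 24660) (nat_lit 13) (.e (nat_lit 393260) (nat_lit 21) (.e (nat_lit 409621) (nat_lit 10) .nil)))) (.g (nat_lit 0) (.e (nat_lit 433502) (nat_lit 0) .nil) .nil))) 
(.lf (nat_lit 606934) (.g (nat_lit 716) (.e (nat_lit 794668) (nat_lit 22) (.e (nat_lit 196666) (nat_lit 13) (.e (nat_lit 65568) (nat_lit 2) .nil))) (.g (nat_lit 0) (.e (nat_lit 435710) (nat_lit 0) .nil) .nil)))) (.nd (nat_lit 9) 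
(.lf (nat_lit 606678) (.g (nat_lit 1190) (.e (nat_lit 786481) (nat_lit 30) (.e (nat_lit 360473) (nat_lit 8) (.e (nat_lit 557089) (nat_lit 12) (.e (nat_lit 164000) (nat_lit 38) .nil)))) (.g (nat_lit 0) (.e (nat_lit 434150) (nat_lit 0) .nil) .nil))) 
(.lf (nat_lit 607190) (.g (nat_lit 2151) (.e (nat_lit 794682) (nat_lit 25) (.e (nat_lit 221214) (nat_lit 23) (.e (nat_lit 204883) (nat_lit 33) (.e (nat_lit 401459) (nat_lit 13) (.e (nat_lit 483347) (nat_lit 17) (.e (nat_lit 7936) (nat_lit 153) .nil)))))) (.g (nat_lit 1) (.e (nat_lit 436785) (nat_lit 0) .nil) .nil))))))) (.nd (nat_lit 6) (.nd (nat_lit 7) (.nd (nat_lit 8) (.nd (nat_lit 9) 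
(.lf (nat_lit 606262) (.g (nat_lit 2244) (.e (nat_lit 778469) (nat_lit 11) (.e (nat_lit 24608) (nat_lit 3) (.e (nat_lit 98373) (nat_lit 29) (.e (nat_lit 450586) (nat_lit 10) .nil)))) (.g (nat_lit 0) (.e (nat_lit 433308) (nat_lit 0) .nil) .nil))) 
(.lf (nat_lit 606774) (.g (nat_lit 2003) (.e (nat_lit 786483) (nat_lit 30) (.e (nat_lit 360454) (nat_lit 0) (.e (nat_lit 5907) (nat_lit 320) (.e (nat_lit 1221) (nat_lit 90) (.e (nat_lit 81922) (nat_lit 0) .nil))))) (.g (nat_lit 0) (.e (nat_lit 434305) (nat_lit 0) .nil) .nil)))) (.nd (nat_lit 9) 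
(.lf (nat_lit 606518) (.g (nat_lit 1836) (.e (nat_lit 786473) (nat_lit 27) (.e (nat_lit 336235) (nat_lit 14) (.e (nat_lit 401437) (nat_lit 9) (.e (nat_lit 426538) (nat_lit 29) .nil)))) (.g (nat_lit 0) (.e (nat_lit 433778) (nat_lit 0) .nil) .nil))) 
(.lf (nat_lit 607030) (.g (nat_lit 2481) (.e (nat_lit 794669) (nat_lit 22) (.e (nat_lit 196670) (nat_lit 14) (.e (nat_lit 73746) (nat_lit 3) (.e (nat_lit 516119) (nat_lit 1) (.e (nat_lit 164149) (nat_lit 152) (.e (nat_lit 974) (nat_lit 81) (.e (nat_lit 1256) (nat_lit 92) (.e (nat_lit 98321) (nat_lit 17) (.e (nat_lit 3771) (nat_lit 229) .nil))))))))) (.g (nat_lit 1) (.e (nat_lit 436287) (nat_lit 0) .nil) .nil))))) 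
(.nd (nat_lit 8) (.nd (nat_lit 9) 
(.lf (nat_lit 606390) (.g (nat_lit 3464) (.e (nat_lit 786176) (nat_lit 11) (.e (nat_lit 24608) (nat_lit 3) (.e (nat_lit 98373) (nat_lit 29) (.e (nat_lit 450587) (nat_lit 10) (.e (nat_lit 573478) (nat_lit 12) .nil))))) (.g (nat_lit 0) (.e (nat_lit 433464) (nat_lit 0) .nil) .nil))) 
(.lf (nat_lit 606902) (.g (nat_lit 1423) (.e (nat_lit 794658) (nat_lit 21) (.e (nat_lit 164399) (nat_lit 256) (.e (nat_lit 57435) (nat_lit 17) (.e (nat_lit 376868) (nat_lit 23) (.e (nat_lit 98315) (nat_lit 9) .nil))))) (.g (nat_lit 0) (.e (nat_lit 434963) (nat_lit 0) .nil) .nil)))) (.nd (nat_lit 9) 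
(.lf (nat_lit 606646) (.g (nat_lit 2238) (.e (nat_lit 786481) (nat_lit 30) (.e (nat_lit 360466) (nat_lit 3) (.e (nat_lit 516117) (nat_lit 1) (.e (nat_lit 164184) (nat_lit 155) (.e (nat_lit 122913) (nat_lit 13) (.e (nat_lit 352000) (nat_lit 45) .nil)))))) (.g (nat_lit 1) (.e (nat_lit 434101) (nat_lit 0) .nil) .nil))) 
(.lf (nat_lit 607158) (.g (nat_lit 2573) (.e (nat_lit 794676) (nat_lit 24) (.e (nat_lit 213030) (nat_lit 11) (.e (nat_lit 24617) (nat_lit 7) (.e (nat_lit 319535) (nat_lit 17) (.e (nat_lit 294954) (nat_lit 12) .nil))))) (.g (nat_lit 0) (.e (nat_lit 436703) (nat_lit 0) .nil) .nil)))))) (.nd (nat_lit 7) (.nd (nat_lit 8) (.nd (nat_lit 9) 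
(.lf (nat_lit 606326) (.g (nat_lit 1919) (.e (nat_lit 778469) (nat_lit 11) (.e (nat_lit 24658) (nat_lit 13) (.e (nat_lit 393300) (nat_lit 27) (.e (nat_lit 491560) (nat_lit 10) (.e (nat_lit 344178) (nat_lit 44) .nil))))) (.g (nat_lit 0) (.e (nat_lit 433396) (nat_lit 0) .nil) .nil))) 
(.lf (nat_lit 606838) (.g (nat_lit 1165) (.e (nat_lit 802560) (nat_lit 5) (.e (nat_lit 114698) (nat_lit 11) (.e (nat_lit 426188) (nat_lit 9) (.e (nat_lit 426492) (nat_lit 27) .nil)))) (.g (nat_lit 0) (.e (nat_lit 434764) (nat_lit 0) .nil) .nil)))) (.nd (nat_lit 9) 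
(.lf (nat_lit 606582) (.g (nat_lit 2255) (.e (nat_lit 786480) (nat_lit 29) (.e (nat_lit 352309) (nat_lit 21) (.e (nat_lit 57873) (nat_lit 264) (.e (nat_lit 1219) (nat_lit 90) (.e (nat_lit 81922) (nat_lit 0) .nil))))) (.g (nat_lit 0) (.e (nat_lit 433987) (nat_lit 0) .nil) .nil))) 
(.lf (nat_lit 607094) (.g (nat_lit 1911) (.e (nat_lit 794673) (nat_lit 23) (.e (nat_lit 204862) (nat_lit 27) (.e (nat_lit 344117) (nat_lit 21) (.e (nat_lit 516115) (nat_lit 1) (.e (nat_lit 164182) (nat_lit 154) .nil))))) (.g (nat_lit 0) (.e (nat_lit 436580) (nat_lit 0) .nil) .nil))))) (.nd (nat_lit 8) (.nd (nat_lit 9) 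
(.lf (nat_lit 606454) (.g (nat_lit 2165) (.e (nat_lit 786444) (nat_lit 15) (.e (nat_lit 1858) (nat_lit 124) (.e (nat_lit 557101) (nat_lit 13) (.e (nat_lit 172115) (nat_lit 10) (.e (nat_lit 434231) (nat_lit 23) .nil))))) (.g (nat_lit 0) (.e (nat_lit 433629) (nat_lit 0) .nil) .nil))) 
(.lf (nat_lit 606966) (.g (nat_lit 1891) (.e (nat_lit 794669) (nat_lit 22) (.e (nat_lit 196668) (nat_lit 14) (.e (nat_lit 73746) (nat_lit 3) (.e (nat_lit 516117) (nat_lit 1) (.e (nat_lit 164157) (nat_lit 152) (.e (nat_lit 1027) (nat_lit 81) (.e (nat_lit 1255) (nat_lit 92) (.e (nat_lit 98321) (nat_lit 17) (.e (nat_lit 3771) (nat_lit 229) .nil))))))))) (.g (nat_lit 1) (.e (nat_lit 435877) (nat_lit 0) .nil) .nil)))) 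
(.nd (nat_lit 9) 
(.lf (nat_lit 606710) (.g (nat_lit 1025) (.e (nat_lit 786481) (nat_lit 30) (.e (nat_lit 360473) (nat_lit 8) (.e (nat_lit 557093) (nat_lit 12) (.e (nat_lit 163998) (nat_lit 38) .nil)))) (.g (nat_lit 0) (.e (nat_lit 434211) (nat_lit 0) .nil) .nil))) 
(.lf (nat_lit 607222) (.g (nat_lit 2236) (.e (nat_lit 802823) (nat_lit 11) (.e (nat_lit 336028) (nat_lit 3) (.e (nat_lit 98373) (nat_lit 29) (.e (nat_lit 450587) (nat_lit 10) (.e (nat_lit 573477) (nat_lit 12) .nil))))) (.g (nat_lit 0) (.e (nat_lit 437007) (nat_lit 0) .nil) .nil))))))))) (.nd (nat_lit 4) (.nd (nat_lit 5) (.nd (nat_lit 6) (.nd (nat_lit 7) (.nd (nat_lit 8) (.nd (nat_lit 9) 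
(.lf (nat_lit 606222) (.g (nat_lit 2130) (.e (nat_lit 778468) (nat_lit 11) (.e (nat_lit 24617) (nat_lit 7) (.e (nat_lit 319534) (nat_lit 16) (.e (nat_lit 286756) (nat_lit 10) (.e (nat_lit 344169) (nat_lit 40) .nil))))) (.g (nat_lit 0) (.e (nat_lit 433266) (nat_lit 0) .nil) .nil))) 
(.lf (nat_lit 606734) (.g (nat_lit 865) (.e (nat_lit 786482) (nat_lit 30) (.e (nat_lit 360475) (nat_lit 8) (.e (nat_lit 557089) (nat_lit 12) .nil))) (.g (nat_lit 0) (.e (nat_lit 434246) (nat_lit 0) .nil) .nil)))) (.nd (nat_lit 9) 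
(.lf (nat_lit 606478) (.g (nat_lit 1226) (.e (nat_lit 786457) (nat_lit 18) (.e (nat_lit 98365) (nat_lit 26) (.e (nat_lit 426325) (nat_lit 13) (.e (nat_lit 483370) (nat_lit 20) (.e (nat_lit 147500) (nat_lit 12) (.e (nat_lit 164053) (nat_lit 56) .nil)))))) (.g (nat_lit 1) (.e (nat_lit 433674) (nat_lit 0) .nil) .nil))) 
(.lf (nat_lit 606990) (.g (nat_lit 2406) (.e (nat_lit 794669) (nat_lit 22) (.e (nat_lit 196668) (nat_lit 14) (.e (nat_lit 73747) (nat_lit 3) (.e (nat_lit 516115) (nat_lit 1) (.e (nat_lit 164161) (nat_lit 152) .nil))))) (.g (nat_lit 0) (.e (nat_lit 435944) (nat_lit 0) .nil) .nil))))) (.nd (nat_lit 8) (.nd (nat_lit 9) 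
(.lf (nat_lit 606350) (.g (nat_lit 1810) (.e (nat_lit 778469) (nat_lit 11) (.e (nat_lit 24660) (nat_lit 13) (.e (nat_lit 393299) (nat_lit 27) (.e (nat_lit 491560) (nat_lit 10) (.e (nat_lit 344178) (nat_lit 44) .nil))))) (.g (nat_lit 0) (.e (nat_lit 433421) (nat_lit 0) .nil) .nil))) 
(.lf (nat_lit 606862) (.g (nat_lit 1061) (.e (nat_lit 794635) (nat_lit 11) (.e (nat_lit 336119) (nat_lit 9) (.e (nat_lit 336437) (nat_lit 31) (.e (nat_lit 458769) (nat_lit 16) (.e (nat_lit 164291) (nat_lit 224) (.e (nat_lit 164112) (nat_lit 118) .nil)))))) (.g (nat_lit 1) (.e (nat_lit 434798) (nat_lit 0) .nil) .nil)))) (.nd (nat_lit 9) 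
(.lf (nat_lit 606606) (.g (nat_lit 471) (.e (nat_lit 786480) (nat_lit 29) (.e (nat_lit 352318) (nat_lit 24) (.e (nat_lit 123198) (nat_lit 266) .nil))) (.g (nat_lit 0) (.e (nat_lit 434033) (nat_lit 0) .nil) .nil))) 
(.lf (nat_lit 607118) (.g (nat_lit 2917) (.e (nat_lit 794673) (nat_lit 23) (.e (nat_lit 204863) (nat_lit 27) (.e (nat_lit 344117) (nat_lit 21) (.e (nat_lit 516116) (nat_lit 1) (.e (nat_lit 164157) (nat_lit 152) .nil))))) (.g (nat_lit 0) (.e (nat_lit 436633) (nat_lit 0) .nil) .nil)))))) (.nd (nat_lit 7) (.nd (nat_lit 8) (.nd (nat_lit 9) 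
(.lf (nat_lit 606286) (.g (nat_lit 2670) (.e (nat_lit 778469) (nat_lit 11) (.e (nat_lit 24628) (nat_lit 9) (.e (nat_lit 336443) (nat_lit 32) (.e (nat_lit 466972) (nat_lit 21) (.e (nat_lit 164330) (nat_lit 230) .nil))))) (.g (nat_lit 0) (.e (nat_lit 433335) (nat_lit 0) .nil) .nil))) 
(.lf (nat_lit 606798) (.g (nat_lit 2336) (.e (nat_lit 786483) (nat_lit 30) (.e (nat_lit 360475) (nat_lit 8) (.e (nat_lit 557090) (nat_lit 12) (.e (nat_lit 164004) (nat_lit 41) .nil)))) (.g (nat_lit 0) (.e (nat_lit 434564) (nat_lit 0) .nil) .nil)))) (.nd (nat_lit 9) 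
(.lf (nat_lit 606542) (.g (nat_lit 3218) (.e (nat_lit 786477) (nat_lit 28) (.e (nat_lit 344177) (nat_lit 43) (.e (nat_lit 770072) (nat_lit 8) (.e (nat_lit 65571) (nat_lit 3) (.e (nat_lit 98338) (nat_lit 19) (.e (nat_lit 213034) (nat_lit 12) (.e (nat_lit 164057) (nat_lit 56) .nil))))))) (.g (nat_lit 1) (.e (nat_lit 433914) (nat_lit 0) .nil) .nil))) 
(.lf (nat_lit 607054) (.g (nat_lit 4524) (.e (nat_lit 794673) (nat_lit 23) (.e (nat_lit 204829) (nat_lit 18) (.e (nat_lit 57849) (nat_lit 252) (.e (nat_lit 57375) (nat_lit 2) (.e (nat_lit 90158) (nat_lit 11) (.e (nat_lit 24608) (nat_lit 3) (.e (nat_lit 98321) (nat_lit 17) (.e (nat_lit 3771) (nat_lit 229) .nil)))))))) (.g (nat_lit 1) (.e (nat_lit 436484) (nat_lit 0) .nil) .nil))))) 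
(.nd (nat_lit 8) (.nd (nat_lit 9) 
(.lf (nat_lit 606414) (.g (nat_lit 3189) (.e (nat_lit 786176) (nat_lit 11) (.e (nat_lit 24658) (nat_lit 13) (.e (nat_lit 393301) (nat_lit 27) (.e (nat_lit 491559) (nat_lit 10) (.e (nat_lit 352000) (nat_lit 44) .nil))))) (.g (nat_lit 0) (.e (nat_lit 433494) (nat_lit 0) .nil) .nil))) 
(.lf (nat_lit 606926) (.g (nat_lit 506) (.e (nat_lit 794666) (nat_lit 22) (.e (nat_lit 196668) (nat_lit 14) (.e (nat_lit 73747) (nat_lit 3) .nil))) (.g (nat_lit 0) (.e (nat_lit 435418) (nat_lit 0) .nil) .nil)))) (.nd (nat_lit 9) 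
(.lf (nat_lit 606670) (.g (nat_lit 626) (.e (nat_lit 786481) (nat_lit 30) (.e (nat_lit 360467) (nat_lit 3) (.e (nat_lit 516119) (nat_lit 1) .nil))) (.g (nat_lit 0) (.e (nat_lit 434133) (nat_lit 0) .nil) .nil))) 
(.lf (nat_lit 607182) (.g (nat_lit 2671) (.e (nat_lit 794680) (nat_lit 24) (.e (nat_lit 213032) (nat_lit 11) (.e (nat_lit 24617) (nat_lit 7) (.e (nat_lit 319531) (nat_lit 16) (.e (nat_lit 286759) (nat_lit 12) .nil))))) (.g (nat_lit 0) (.e (nat_lit 436738) (nat_lit 0) .nil) .nil))))))) (.nd (nat_lit 6) (.nd (nat_lit 7) (.nd (nat_lit 8) (.nd (nat_lit 9) 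
(.lf (nat_lit 606254) (.g (nat_lit 2373) (.e (nat_lit 778469) (nat_lit 11) (.e (nat_lit 24608) (nat_lit 3) (.e (nat_lit 98365) (nat_lit 26) (.e (nat_lit 426306) (nat_lit 12) (.e (nat_lit 475179) (nat_lit 24) (.e (nat_lit 516102) (nat_lit 0) (.e (nat_lit 3712) (nat_lit 227) .nil))))))) (.g (nat_lit 1) (.e (nat_lit 433299) (nat_lit 0) .nil) .nil))) 
(.lf (nat_lit 606766) (.g (nat_lit 1473) (.e (nat_lit 786483) (nat_lit 30) (.e (nat_lit 360452) (nat_lit 0) (.e (nat_lit 5907) (nat_lit 320) (.e (nat_lit 1221) (nat_lit 90) .nil)))) (.g (nat_lit 0) (.e (nat_lit 434295) (nat_lit 0) .nil) .nil)))) (.nd (nat_lit 9) 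
(.lf (nat_lit 606510) (.g (nat_lit 3481) (.e (nat_lit 786473) (nat_lit 27) (.e (nat_lit 336051) (nat_lit 6) (.e (nat_lit 147495) (nat_lit 11) (.e (nat_lit 24607) (nat_lit 3) (.e (nat_lit 98341) (nat_lit 20) .nil))))) (.g (nat_lit 0) (.e (nat_lit 433770) (nat_lit 0) .nil) .nil))) 
(.lf (nat_lit 607022) (.g (nat_lit 1244) (.e (nat_lit 794669) (nat_lit 22) (.e (nat_lit 196670) (nat_lit 14) (.e (nat_lit 73746) (nat_lit 3) (.e (nat_lit 516117) (nat_lit 1) .nil)))) (.g (nat_lit 0) (.e (nat_lit 436243) (nat_lit 0) .nil) .nil))))) (.nd (nat_lit 8) (.nd (nat_lit 9) 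
(.lf (nat_lit 606382) (.g (nat_lit 2843) (.e (nat_lit 786176) (nat_lit 11) (.e (nat_lit 24608) (nat_lit 3) (.e (nat_lit 98372) (nat_lit 29) (.e (nat_lit 450586) (nat_lit 10) (.e (nat_lit 573475) (nat_lit 12) .nil))))) (.g (nat_lit 0) (.e (nat_lit 433456) (nat_lit 0) .nil) .nil))) 
(.lf (nat_lit 606894) (.g (nat_lit 1481) (.e (nat_lit 794655) (nat_lit 20) (.e (nat_lit 3747) (nat_lit 228) (.e (nat_lit 786473) (nat_lit 27) (.e (nat_lit 336429) (nat_lit 29) .nil)))) (.g (nat_lit 0) (.e (nat_lit 434838) (nat_lit 0) .nil) .nil)))) (.nd (nat_lit 9) 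
(.lf (nat_lit 606638) (.g (nat_lit 1712) (.e (nat_lit 786481) (nat_lit 30) (.e (nat_lit 360466) (nat_lit 3) (.e (nat_lit 516117) (nat_lit 1) (.e (nat_lit 164160) (nat_lit 152) .nil)))) (.g (nat_lit 0) (.e (nat_lit 434089) (nat_lit 0) .nil) .nil))) 
(.lf (nat_lit 607150) (.g (nat_lit 1862) (.e (nat_lit 794674) (nat_lit 24) (.e (nat_lit 213030) (nat_lit 11) (.e (nat_lit 24617) (nat_lit 7) (.e (nat_lit 319533) (nat_lit 16) .nil)))) (.g (nat_lit 0) (.e (nat_lit 436693) (nat_lit 0) .nil) .nil)))))) (.nd (nat_lit 7) (.nd (nat_lit 8) (.nd (nat_lit 9) 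
(.lf (nat_lit 606318) (.g (nat_lit 1343) (.e (nat_lit 778469) (nat_lit 11) (.e (nat_lit 24658) (nat_lit 13) (.e (nat_lit 393234) (nat_lit 17) (.e (nat_lit 7593) (nat_lit 407) .nil)))) (.g (nat_lit 0) (.e (nat_lit 433386) (nat_lit 0) .nil) .nil))) 
(.lf (nat_lit 606830) (.g (nat_lit 939) (.e (nat_lit 802560) (nat_lit 2) (.e (nat_lit 90157) (nat_lit 11) (.e (nat_lit 24657) (nat_lit 13) (.e (nat_lit 401152) (nat_lit 15) .nil)))) (.g (nat_lit 0) (.e (nat_lit 434746) (nat_lit 0) .nil) .nil)))) (.nd (nat_lit 9) 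
(.lf (nat_lit 606574) (.g (nat_lit 809) (.e (nat_lit 786480) (nat_lit 29) (.e (nat_lit 352309) (nat_lit 21) (.e (nat_lit 57871) (nat_lit 264) (.e (nat_lit 1220) (nat_lit 90) .nil)))) (.g (nat_lit 0) (.e (nat_lit 433973) (nat_lit 0) .nil) .nil))) 
(.lf (nat_lit 607086) (.g (nat_lit 3867) (.e (nat_lit 794673) (nat_lit 23) (.e (nat_lit 204852) (nat_lit 26) (.e (nat_lit 336326) (nat_lit 18) (.e (nat_lit 204831) (nat_lit 18) (.e (nat_lit 57830) (nat_lit 250) (.e (nat_lit 999) (nat_lit 81) (.e (nat_lit 1256) (nat_lit 92) (.e (nat_lit 98321) (nat_lit 17) (.e (nat_lit 3771) (nat_lit 229) .nil))))))))) (.g (nat_lit 1) (.e (nat_lit 436561) (nat_lit 0) .nil) .nil))))) 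
(.nd (nat_lit 8) (.nd (nat_lit 9) 
(.lf (nat_lit 606446) (.g (nat_lit 1475) (.e (nat_lit 794368) (nat_lit 3) (.e (nat_lit 204885) (nat_lit 33) (.e (nat_lit 401448) (nat_lit 10) (.e (nat_lit 434232) (nat_lit 23) .nil)))) (.g (nat_lit 0) (.e (nat_lit 433595) (nat_lit 0) .nil) .nil))) 
(.lf (nat_lit 606958) (.g (nat_lit 2126) (.e (nat_lit 794669) (nat_lit 22) (.e (nat_lit 196656) (nat_lit 11) (.e (nat_lit 16448) (nat_lit 10) (.e (nat_lit 434231) (nat_lit 23) (.e (nat_lit 532564) (nat_lit 15) .nil))))) (.g (nat_lit 0) (.e (nat_lit 435848) (nat_lit 0) .nil) .nil)))) (.nd (nat_lit 9) 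
(.lf (nat_lit 606702) (.g (nat_lit 1617) (.e (nat_lit 786481) (nat_lit 30) (.e (nat_lit 360473) (nat_lit 8) (.e (nat_lit 557091) (nat_lit 12) (.e (nat_lit 164000) (nat_lit 38) .nil)))) (.g (nat_lit 0) (.e (nat_lit 434196) (nat_lit 0) .nil) .nil))) 
(.lf (nat_lit 607214) (.g (nat_lit 1649) (.e (nat_lit 794684) (nat_lit 25) (.e (nat_lit 221215) (nat_lit 23) (.e (nat_lit 204883) (nat_lit 33) (.e (nat_lit 401459) (nat_lit 13) (.e (nat_lit 483343) (nat_lit 17) (.e (nat_lit 2368) (nat_lit 153) .nil)))))) (.g (nat_lit 1) (.e (nat_lit 436994) (nat_lit 0) .nil) .nil)))))))) 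
(.nd (nat_lit 5) (.nd (nat_lit 6) (.nd (nat_lit 7) (.nd (nat_lit 8) (.nd (nat_lit 9) 
(.lf (nat_lit 606238) (.g (nat_lit 1282) (.e (nat_lit 778469) (nat_lit 11) (.e (nat_lit 24604) (nat_lit 2) (.e (nat_lit 90176) (nat_lit 15) (.e (nat_lit 196352) (nat_lit 3) .nil)))) (.g (nat_lit 0) (.e (nat_lit 433283) (nat_lit 0) .nil) .nil))) 
(.lf (nat_lit 606750) (.g (nat_lit 507) (.e (nat_lit 786483) (nat_lit 30) (.e (nat_lit 360450) (nat_lit 0) (.e (nat_lit 4766) (nat_lit 281) .nil))) (.g (nat_lit 0) (.e (nat_lit 434264) (nat_lit 0) .nil) .nil)))) (.nd (nat_lit 9) 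
(.lf (nat_lit 606494) (.g (nat_lit 3011) (.e (nat_lit 786470) (nat_lit 27) (.e (nat_lit 336226) (nat_lit 14) (.e (nat_lit 401437) (nat_lit 9) (.e (nat_lit 426540) (nat_lit 29) (.e (nat_lit 352261) (nat_lit 0) (.e (nat_lit 3743) (nat_lit 228) .nil)))))) (.g (nat_lit 1) (.e (nat_lit 433730) (nat_lit 0) .nil) .nil))) 
(.lf (nat_lit 607006) (.g (nat_lit 2511) (.e (nat_lit 794669) (nat_lit 22) (.e (nat_lit 196668) (nat_lit 14) (.e (nat_lit 73747) (nat_lit 3) (.e (nat_lit 516119) (nat_lit 1) (.e (nat_lit 164148) (nat_lit 152) .nil))))) (.g (nat_lit 0) (.e (nat_lit 436087) (nat_lit 0) .nil) .nil))))) (.nd (nat_lit 8) (.nd (nat_lit 9) 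
(.lf (nat_lit 606366) (.g (nat_lit 2995) (.e (nat_lit 778470) (nat_lit 11) (.e (nat_lit 24665) (nat_lit 14) (.e (nat_lit 401414) (nat_lit 0) (.e (nat_lit 3459) (nat_lit 216) .nil)))) (.g (nat_lit 0) (.e (nat_lit 433438) (nat_lit 0) .nil) .nil))) 
(.lf (nat_lit 606878) (.g (nat_lit 1027) (.e (nat_lit 794635) (nat_lit 11) (.e (nat_lit 336153) (nat_lit 9) (.e (nat_lit 336437) (nat_lit 31) (.e (nat_lit 458769) (nat_lit 16) (.e (nat_lit 164287) (nat_lit 224) (.e (nat_lit 164112) (nat_lit 118) .nil)))))) (.g (nat_lit 1) (.e (nat_lit 434814) (nat_lit 0) .nil) .nil)))) (.nd (nat_lit 9) 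
(.lf (nat_lit 606622) (.g (nat_lit 424) (.e (nat_lit 786481) (nat_lit 30) (.e (nat_lit 360453) (nat_lit 0) (.e (nat_lit 5906) (nat_lit 320) .nil))) (.g (nat_lit 0) (.e (nat_lit 434054) (nat_lit 0) .nil) .nil))) 
(.lf (nat_lit 607134) (.g (nat_lit 2340) (.e (nat_lit 794673) (nat_lit 23) (.e (nat_lit 204863) (nat_lit 27) (.e (nat_lit 344118) (nat_lit 21) (.e (nat_lit 516119) (nat_lit 1) (.e (nat_lit 164179) (nat_lit 154) .nil))))) (.g (nat_lit 0) (.e (nat_lit 436658) (nat_lit 0) .nil) .nil)))))) (.nd (nat_lit 7) (.nd (nat_lit 8) (.nd (nat_lit 9) 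
(.lf (nat_lit 606302) (.g (nat_lit 2430) (.e (nat_lit 778469) (nat_lit 11) (.e (nat_lit 24655) (nat_lit 13) (.e (nat_lit 393300) (nat_lit 27) (.e (nat_lit 491560) (nat_lit 10) (.e (nat_lit 344178) (nat_lit 44) .nil))))) (.g (nat_lit 0) (.e (nat_lit 433357) (nat_lit 0) .nil) .nil))) 
(.lf (nat_lit 606814) (.g (nat_lit 1054) (.e (nat_lit 786483) (nat_lit 30) (.e (nat_lit 360475) (nat_lit 8) (.e (nat_lit 557119) (nat_lit 18) (.e (nat_lit 2798) (nat_lit 180) .nil)))) (.g (nat_lit 0) (.e (nat_lit 434685) (nat_lit 0) .nil) .nil)))) (.nd (nat_lit 9) 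
(.lf (nat_lit 606558) (.g (nat_lit 1963) (.e (nat_lit 786478) (nat_lit 29) (.e (nat_lit 352309) (nat_lit 21) (.e (nat_lit 57931) (nat_lit 282) (.e (nat_lit 163946) (nat_lit 20) .nil)))) (.g (nat_lit 0) (.e (nat_lit 433945) (nat_lit 0) .nil) .nil))) 
(.lf (nat_lit 607070) (.g (nat_lit 2104) (.e (nat_lit 794673) (nat_lit 23) (.e (nat_lit 204830) (nat_lit 18) (.e (nat_lit 57926) (nat_lit 282) (.e (nat_lit 163872) (nat_lit 3) .nil)))) (.g (nat_lit 0) (.e (nat_lit 436518) (nat_lit 0) .nil) .nil))))) (.nd (nat_lit 8) (.nd (nat_lit 9) 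
(.lf (nat_lit 606430) (.g (nat_lit 2189) (.e (nat_lit 778474) (nat_lit 12) (.e (nat_lit 163999) (nat_lit 38) (.e (nat_lit 638998) (nat_lit 8) (.e (nat_lit 172123) (nat_lit 13) (.e (nat_lit 483405) (nat_lit 26) (.e (nat_lit 392960) (nat_lit 49) .nil)))))) (.g (nat_lit 1) (.e (nat_lit 433515) (nat_lit 0) .nil) .nil))) 
(.lf (nat_lit 606942) (.g (nat_lit 2205) (.e (nat_lit 794668) (nat_lit 22) (.e (nat_lit 196666) (nat_lit 13) (.e (nat_lit 65569) (nat_lit 3) (.e (nat_lit 98334) (nat_lit 18) (.e (nat_lit 164159) (nat_lit 152) (.e (nat_lit 1044) (nat_lit 81) (.e (nat_lit 1254) (nat_lit 92) (.e (nat_lit 98321) (nat_lit 17) (.e (nat_lit 3771) (nat_lit 229) .nil))))))))) (.g (nat_lit 1) (.e (nat_lit 435731) (nat_lit 0) .nil) .nil)))) 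
(.nd (nat_lit 9) 
(.lf (nat_lit 606686) (.g (nat_lit 2954) (.e (nat_lit 786481) (nat_lit 30) (.e (nat_lit 360473) (nat_lit 8) (.e (nat_lit 557090) (nat_lit 12) (.e (nat_lit 163999) (nat_lit 38) .nil)))) (.g (nat_lit 0) (.e (nat_lit 434177) (nat_lit 0) .nil) .nil))) 
(.lf (nat_lit 607198) (.g (nat_lit 1761) (.e (nat_lit 794683) (nat_lit 25) (.e (nat_lit 221214) (nat_lit 23) (.e (nat_lit 204883) (nat_lit 33) (.e (nat_lit 401459) (nat_lit 13) (.e (nat_lit 483344) (nat_lit 17) .nil))))) (.g (nat_lit 0) (.e (nat_lit 436853) (nat_lit 0) .nil) .nil))))))) (.nd (nat_lit 6) (.nd (nat_lit 7) (.nd (nat_lit 8) (.nd (nat_lit 9) 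
(.lf (nat_lit 606270) (.g (nat_lit 2100) (.e (nat_lit 778469) (nat_lit 11) (.e (nat_lit 24609) (nat_lit 3) (.e (nat_lit 98373) (nat_lit 29) (.e (nat_lit 450587) (nat_lit 10) (.e (nat_lit 573473) (nat_lit 12) .nil))))) (.g (nat_lit 0) (.e (nat_lit 433318) (nat_lit 0) .nil) .nil))) 
(.lf (nat_lit 606782) (.g (nat_lit 876) (.e (nat_lit 786483) (nat_lit 30) (.e (nat_lit 360474) (nat_lit 8) (.e (nat_lit 557089) (nat_lit 12) .nil))) (.g (nat_lit 0) (.e (nat_lit 434382) (nat_lit 0) .nil) .nil)))) (.nd (nat_lit 9) 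
(.lf (nat_lit 606526) (.g (nat_lit 2897) (.e (nat_lit 786473) (nat_lit 27) (.e (nat_lit 336235) (nat_lit 14) (.e (nat_lit 401456) (nat_lit 13) (.e (nat_lit 483383) (nat_lit 23) (.e (nat_lit 336265) (nat_lit 15) .nil))))) (.g (nat_lit 0) (.e (nat_lit 433787) (nat_lit 0) .nil) .nil))) 
(.lf (nat_lit 607038) (.g (nat_lit 2721) (.e (nat_lit 794669) (nat_lit 22) (.e (nat_lit 196670) (nat_lit 14) (.e (nat_lit 73746) (nat_lit 3) (.e (nat_lit 516120) (nat_lit 1) (.e (nat_lit 164160) (nat_lit 152) .nil))))) (.g (nat_lit 0) (.e (nat_lit 436311) (nat_lit 0) .nil) .nil))))) (.nd (nat_lit 8) (.nd (nat_lit 9) 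
(.lf (nat_lit 606398) (.g (nat_lit 1823) (.e (nat_lit 786176) (nat_lit 11) (.e (nat_lit 24617) (nat_lit 7) (.e (nat_lit 319533) (nat_lit 16) (.e (nat_lit 286754) (nat_lit 10) .nil)))) (.g (nat_lit 0) (.e (nat_lit 433472) (nat_lit 0) .nil) .nil))) 
(.lf (nat_lit 606910) (.g (nat_lit 3284) (.e (nat_lit 794664) (nat_lit 22) (.e (nat_lit 196654) (nat_lit 11) (.e (nat_lit 16436) (nat_lit 9) (.e (nat_lit 426131) (nat_lit 3) (.e (nat_lit 204880) (nat_lit 32) (.e (nat_lit 385109) (nat_lit 51) .nil)))))) (.g (nat_lit 1) (.e (nat_lit 435209) (nat_lit 0) .nil) .nil)))) (.nd (nat_lit 9) 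
(.lf (nat_lit 606654) (.g (nat_lit 1011) (.e (nat_lit 786481) (nat_lit 30) (.e (nat_lit 360466) (nat_lit 3) (.e (nat_lit 516120) (nat_lit 1) (.e (nat_lit 164166) (nat_lit 152) .nil)))) (.g (nat_lit 0) (.e (nat_lit 434111) (nat_lit 0) .nil) .nil))) 
(.lf (nat_lit 607166) (.g (nat_lit 2394) (.e (nat_lit 794677) (nat_lit 24) (.e (nat_lit 213030) (nat_lit 11) (.e (nat_lit 24617) (nat_lit 7) (.e (nat_lit 319536) (nat_lit 17) (.e (nat_lit 294953) (nat_lit 12) .nil))))) (.g (nat_lit 0) (.e (nat_lit 436713) (nat_lit 0) .nil) .nil)))))) (.nd (nat_lit 7) (.nd (nat_lit 8) (.nd (nat_lit 9) 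
(.lf (nat_lit 606334) (.g (nat_lit 1110) (.e (nat_lit 778469) (nat_lit 11) (.e (nat_lit 24660) (nat_lit 13) (.e (nat_lit 393230) (nat_lit 17) (.e (nat_lit 7593) (nat_lit 407) (.e (nat_lit 73774) (nat_lit 26) .nil))))) (.g (nat_lit 0) (.e (nat_lit 433404) (nat_lit 0) .nil) .nil))) 
(.lf (nat_lit 606846) (.g (nat_lit 1907) (.e (nat_lit 802560) (nat_lit 5) (.e (nat_lit 114698) (nat_lit 11) (.e (nat_lit 426200) (nat_lit 9) (.e (nat_lit 426494) (nat_lit 27) (.e (nat_lit 336201) (nat_lit 12) .nil))))) (.g (nat_lit 0) (.e (nat_lit 434772) (nat_lit 0) .nil) .nil)))) (.nd (nat_lit 9) 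
(.lf (nat_lit 606590) (.g (nat_lit 1258) (.e (nat_lit 786480) (nat_lit 29) (.e (nat_lit 352318) (nat_lit 24) (.e (nat_lit 123182) (nat_lit 264) (.e (nat_lit 1296) (nat_lit 96) .nil)))) (.g (nat_lit 0) (.e (nat_lit 434005) (nat_lit 0) .nil) .nil))) 
(.lf (nat_lit 607102) (.g (nat_lit 2765) (.e (nat_lit 794673) (nat_lit 23) (.e (nat_lit 204862) (nat_lit 27) (.e (nat_lit 344117) (nat_lit 21) (.e (nat_lit 516116) (nat_lit 1) (.e (nat_lit 164176) (nat_lit 154) .nil))))) (.g (nat_lit 0) (.e (nat_lit 436590) (nat_lit 0) .nil) .nil))))) (.nd (nat_lit 8) (.nd (nat_lit 9) 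
(.lf (nat_lit 606462) (.g (nat_lit 3618) (.e (nat_lit 786447) (nat_lit 15) (.e (nat_lit 1848) (nat_lit 124) (.e (nat_lit 557108) (nat_lit 15) (.e (nat_lit 188452) (nat_lit 23) (.e (nat_lit 204881) (nat_lit 32) .nil))))) (.g (nat_lit 0) (.e (nat_lit 433654) (nat_lit 0) .nil) .nil))) 
(.lf (nat_lit 606974) (.g (nat_lit 2196) (.e (nat_lit 794669) (nat_lit 22) (.e (nat_lit 196668) (nat_lit 14) (.e (nat_lit 73746) (nat_lit 3) (.e (nat_lit 516120) (nat_lit 1) (.e (nat_lit 164159) (nat_lit 152) .nil))))) (.g (nat_lit 0) (.e (nat_lit 435908) (nat_lit 0) .nil) .nil)))) (.nd (nat_lit 9) 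
(.lf (nat_lit 606718) (.g (nat_lit 1938) (.e (nat_lit 786481) (nat_lit 30) (.e (nat_lit 360474) (nat_lit 8) (.e (nat_lit 557091) (nat_lit 12) (.e (nat_lit 163999) (nat_lit 38) .nil)))) (.g (nat_lit 0) (.e (nat_lit 434223) (nat_lit 0) .nil) .nil))) 
(.lf (nat_lit 607230) (.g (nat_lit 2930) (.e (nat_lit 810752) (nat_lit 11) (.e (nat_lit 336011) (nat_lit 2) (.e (nat_lit 90170) (nat_lit 13) (.e (nat_lit 172113) (nat_lit 10) (.e (nat_lit 434247) (nat_lit 28) .nil))))) (.g (nat_lit 0) (.e (nat_lit 437015) (nat_lit 0) .nil) .nil)))))))))))) 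
(.nd (nat_lit 1) (.nd (nat_lit 2) (.nd (nat_lit 3) (.nd (nat_lit 4) (.nd (nat_lit 5) 
(.nd (nat_lit 6) (.nd (nat_lit 7) (.nd (nat_lit 8) (.nd (nat_lit 9) 
(.lf (nat_lit 606209) (.g (nat_lit 3983) (.e (nat_lit 778467) (nat_lit 11) (.e (nat_lit 24658) (nat_lit 13) (.e (nat_lit 393301) (nat_lit 27) (.e (nat_lit 491560) (nat_lit 10) (.e (nat_lit 352000) (nat_lit 44) .nil))))) (.g (nat_lit 0) (.e (nat_lit 433253) (nat_lit 0) .nil) .nil))) 
(.lf (nat_lit 606721) (.g (nat_lit 2207) (.e (nat_lit 786481) (nat_lit 30) (.e (nat_lit 360475) (nat_lit 8) (.e (nat_lit 557091) (nat_lit 12) (.e (nat_lit 163999) (nat_lit 38) .nil)))) (.g (nat_lit 0) (.e (nat_lit 434226) (nat_lit 0) .nil) .nil)))) (.nd (nat_lit 9) 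
(.lf (nat_lit 606465) (.g (nat_lit 3471) (.e (nat_lit 786447) (nat_lit 15) (.e (nat_lit 1855) (nat_lit 124) (.e (nat_lit 557109) (nat_lit 15) (.e (nat_lit 188450) (nat_lit 23) (.e (nat_lit 204880) (nat_lit 32) .nil))))) (.g (nat_lit 0) (.e (nat_lit 433659) (nat_lit 0) .nil) .nil))) 
(.lf (nat_lit 606977) (.g (nat_lit 1055) (.e (nat_lit 794669) (nat_lit 22) (.e (nat_lit 196668) (nat_lit 14) (.e (nat_lit 73747) (nat_lit 3) (.e (nat_lit 516115) (nat_lit 1) .nil)))) (.g (nat_lit 0) (.e (nat_lit 435929) (nat_lit 0) .nil) .nil))))) (.nd (nat_lit 8) (.nd (nat_lit 9) 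
(.lf (nat_lit 606337) (.g (nat_lit 783) (.e (nat_lit 778469) (nat_lit 11) (.e (nat_lit 24660) (nat_lit 13) (.e (nat_lit 393232) (nat_lit 17) (.e (nat_lit 7593) (nat_lit 407) .nil)))) (.g (nat_lit 0) (.e (nat_lit 433407) (nat_lit 0) .nil) .nil))) 
(.lf (nat_lit 606849) (.g (nat_lit 1720) (.e (nat_lit 802560) (nat_lit 5) (.e (nat_lit 114698) (nat_lit 11) (.e (nat_lit 426325) (nat_lit 13) (.e (nat_lit 483406) (nat_lit 26) (.e (nat_lit 385109) (nat_lit 51) .nil))))) (.g (nat_lit 0) (.e (nat_lit 434777) (nat_lit 0) .nil) .nil)))) (.nd (nat_lit 9) 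
(.lf (nat_lit 606593) (.g (nat_lit 1681) (.e (nat_lit 786480) (nat_lit 29) (.e (nat_lit 352318) (nat_lit 24) (.e (nat_lit 123183) (nat_lit 264) (.e (nat_lit 1296) (nat_lit 96) (.e (nat_lit 131121) (nat_lit 12) .nil))))) (.g (nat_lit 0) (.e (nat_lit 434009) (nat_lit 0) .nil) .nil))) 
(.lf (nat_lit 607105) (.g (nat_lit 2438) (.e (nat_lit 794673) (nat_lit 23) (.e (nat_lit 204862) (nat_lit 27) (.e (nat_lit 344117) (nat_lit 21) (.e (nat_lit 516118) (nat_lit 1) (.e (nat_lit 164183) (nat_lit 154) (.e (nat_lit 57378) (nat_lit 3) (.e (nat_lit 98319) (nat_lit 17) (.e (nat_lit 3771) (nat_lit 229) .nil)))))))) (.g (nat_lit 1) (.e (nat_lit 436597) (nat_lit 0) .nil) .nil)))))) 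
(.nd (nat_lit 7) (.nd (nat_lit 8) (.nd (nat_lit 9) 
(.lf (nat_lit 606273) (.g (nat_lit 2065) (.e (nat_lit 778469) (nat_lit 11) (.e (nat_lit 24627) (nat_lit 9) (.e (nat_lit 336443) (nat_lit 32) (.e (nat_lit 466969) (nat_lit 21) (.e (nat_lit 164330) (nat_lit 230) .nil))))) (.g (nat_lit 0) (.e (nat_lit 433322) (nat_lit 0) .nil) .nil))) 
(.lf (nat_lit 606785) (.g (nat_lit 538) (.e (nat_lit 786483) (nat_lit 30) (.e (nat_lit 360474) (nat_lit 8) (.e (nat_lit 557091) (nat_lit 12) .nil))) (.g (nat_lit 0) (.e (nat_lit 434387) (nat_lit 0) .nil) .nil)))) (.nd (nat_lit 9) 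
(.lf (nat_lit 606529) (.g (nat_lit 1562) (.e (nat_lit 786473) (nat_lit 27) (.e (nat_lit 336235) (nat_lit 14) (.e (nat_lit 401456) (nat_lit 13) (.e (nat_lit 483391) (nat_lit 23) .nil)))) (.g (nat_lit 0) (.e (nat_lit 433790) (nat_lit 0) .nil) .nil))) 
(.lf (nat_lit 607041) (.g (nat_lit 1993) (.e (nat_lit 802560) (nat_lit 22) (.e (nat_lit 196654) (nat_lit 11) (.e (nat_lit 16436) (nat_lit 9) (.e (nat_lit 426131) (nat_lit 3) (.e (nat_lit 204880) (nat_lit 32) .nil))))) (.g (nat_lit 0) (.e (nat_lit 436368) (nat_lit 0) .nil) .nil))))) (.nd (nat_lit 8) (.nd (nat_lit 9) 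
(.lf (nat_lit 606401) (.g (nat_lit 1235) (.e (nat_lit 786176) (nat_lit 11) (.e (nat_lit 24628) (nat_lit 9) (.e (nat_lit 336438) (nat_lit 31) (.e (nat_lit 458769) (nat_lit 16) .nil)))) (.g (nat_lit 0) (.e (nat_lit 433475) (nat_lit 0) .nil) .nil))) 
(.lf (nat_lit 606913) (.g (nat_lit 1868) (.e (nat_lit 794665) (nat_lit 22) (.e (nat_lit 196654) (nat_lit 11) (.e (nat_lit 16436) (nat_lit 9) (.e (nat_lit 426131) (nat_lit 3) (.e (nat_lit 204852) (nat_lit 26) (.e (nat_lit 336258) (nat_lit 15) (.e (nat_lit 3763) (nat_lit 229) .nil))))))) (.g (nat_lit 1) (.e (nat_lit 435228) (nat_lit 0) .nil) .nil)))) (.nd (nat_lit 9) 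
(.lf (nat_lit 606657) (.g (nat_lit 1945) (.e (nat_lit 786481) (nat_lit 30) (.e (nat_lit 360466) (nat_lit 3) (.e (nat_lit 516120) (nat_lit 1) (.e (nat_lit 164184) (nat_lit 155) (.e (nat_lit 122911) (nat_lit 13) (.e (nat_lit 352000) (nat_lit 45) .nil)))))) (.g (nat_lit 1) (.e (nat_lit 434117) (nat_lit 0) .nil) .nil))) 
(.lf (nat_lit 607169) (.g (nat_lit 2109) (.e (nat_lit 794678) (nat_lit 24) (.e (nat_lit 213030) (nat_lit 11) (.e (nat_lit 24617) (nat_lit 7) (.e (nat_lit 319533) (nat_lit 16) (.e (nat_lit 286758) (nat_lit 12) .nil))))) (.g (nat_lit 0) (.e (nat_lit 436719) (nat_lit 0) .nil) .nil))))))) (.nd (nat_lit 6) (.nd (nat_lit 7) (.nd (nat_lit 8) (.nd (nat_lit 9) 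
(.lf (nat_lit 606241) (.g (nat_lit 2951) (.e (nat_lit 778469) (nat_lit 11) (.e (nat_lit 24604) (nat_lit 2) (.e (nat_lit 90185) (nat_lit 17) (.e (nat_lit 237601) (nat_lit 9) (.e (nat_lit 426438) (nat_lit 18) (.e (nat_lit 98323) (nat_lit 17) (.e (nat_lit 3711) (nat_lit 227) .nil))))))) (.g (nat_lit 1) (.e (nat_lit 433286) (nat_lit 0) .nil) .nil))) 
(.lf (nat_lit 606753) (.g (nat_lit 512) (.e (nat_lit 786483) (nat_lit 30) (.e (nat_lit 360450) (nat_lit 0) (.e (nat_lit 5896) (nat_lit 320) .nil))) (.g (nat_lit 0) (.e (nat_lit 434269) (nat_lit 0) .nil) .nil)))) (.nd (nat_lit 9) 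
(.lf (nat_lit 606497) (.g (nat_lit 2897) (.e (nat_lit 786470) (nat_lit 27) (.e (nat_lit 336226) (nat_lit 14) (.e (nat_lit 401457) (nat_lit 13) (.e (nat_lit 483383) (nat_lit 23) (.e (nat_lit 336306) (nat_lit 15) .nil))))) (.g (nat_lit 0) (.e (nat_lit 433742) (nat_lit 0) .nil) .nil))) 
(.lf (nat_lit 607009) (.g (nat_lit 2385) (.e (nat_lit 794669) (nat_lit 22) (.e (nat_lit 196668) (nat_lit 14) (.e (nat_lit 73747) (nat_lit 3) (.e (nat_lit 516119) (nat_lit 1) (.e (nat_lit 164155) (nat_lit 152) .nil))))) (.g (nat_lit 0) (.e (nat_lit 436093) (nat_lit 0) .nil) .nil))))) (.nd (nat_lit 8) (.nd (nat_lit 9) 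
(.lf (nat_lit 606369) (.g (nat_lit 553) (.e (nat_lit 786176) (nat_lit 11) (.e (nat_lit 24604) (nat_lit 2) (.e (nat_lit 90176) (nat_lit 15) .nil))) (.g (nat_lit 0) (.e (nat_lit 433443) (nat_lit 0) .nil) .nil))) 
(.lf (nat_lit 606881) (.g (nat_lit 1074) (.e (nat_lit 794635) (nat_lit 11) (.e (nat_lit 336154) (nat_lit 9) (.e (nat_lit 336437) (nat_lit 31) (.e (nat_lit 458769) (nat_lit 16) (.e (nat_lit 164291) (nat_lit 224) (.e (nat_lit 164112) (nat_lit 118) .nil)))))) (.g (nat_lit 1) (.e (nat_lit 434817) (nat_lit 0) .nil) .nil)))) (.nd (nat_lit 9) 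
(.lf (nat_lit 606625) (.g (nat_lit 2188) (.e (nat_lit 786481) (nat_lit 30) (.e (nat_lit 360453) (nat_lit 0) (.e (nat_lit 5907) (nat_lit 320) (.e (nat_lit 1221) (nat_lit 90) (.e (nat_lit 81922) (nat_lit 0) .nil))))) (.g (nat_lit 0) (.e (nat_lit 434057) (nat_lit 0) .nil) .nil))) 
(.lf (nat_lit 607137) (.g (nat_lit 2807) (.e (nat_lit 794673) (nat_lit 23) (.e (nat_lit 204863) (nat_lit 27) (.e (nat_lit 344118) (nat_lit 21) (.e (nat_lit 516120) (nat_lit 1) (.e (nat_lit 164183) (nat_lit 154) (.e (nat_lit 57378) (nat_lit 3) (.e (nat_lit 98321) (nat_lit 17) (.e (nat_lit 3771) (nat_lit 229) .nil)))))))) (.g (nat_lit 1) (.e (nat_lit 436664) (nat_lit 0) .nil) .nil)))))) 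
(.nd (nat_lit 7) (.nd (nat_lit 8) (.nd (nat_lit 9) 
(.lf (nat_lit 606305) (.g (nat_lit 1911) (.e (nat_lit 778469) (nat_lit 11) (.e (nat_lit 24655) (nat_lit 13) (.e (nat_lit 393301) (nat_lit 27) (.e (nat_lit 491559) (nat_lit 10) .nil)))) (.g (nat_lit 0) (.e (nat_lit 433360) (nat_lit 0) .nil) .nil))) 
(.lf (nat_lit 606817) (.g (nat_lit 1384) (.e (nat_lit 786483) (nat_lit 30) (.e (nat_lit 360475) (nat_lit 8) (.e (nat_lit 557119) (nat_lit 18) (.e (nat_lit 2807) (nat_lit 180) .nil)))) (.g (nat_lit 0) (.e (nat_lit 434704) (nat_lit 0) .nil) .nil)))) (.nd (nat_lit 9) 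
(.lf (nat_lit 606561) (.g (nat_lit 1853) (.e (nat_lit 786478) (nat_lit 29) (.e (nat_lit 352318) (nat_lit 24) (.e (nat_lit 123197) (nat_lit 266) (.e (nat_lit 57436) (nat_lit 17) (.e (nat_lit 376835) (nat_lit 0) .nil))))) (.g (nat_lit 0) (.e (nat_lit 433948) (nat_lit 0) .nil) .nil))) 
(.lf (nat_lit 607073) (.g (nat_lit 2295) (.e (nat_lit 794673) (nat_lit 23) (.e (nat_lit 204830) (nat_lit 18) (.e (nat_lit 57927) (nat_lit 282) (.e (nat_lit 163875) (nat_lit 3) (.e (nat_lit 204872) (nat_lit 30) (.e (nat_lit 368676) (nat_lit 21) (.e (nat_lit 516100) (nat_lit 0) (.e (nat_lit 3771) (nat_lit 229) .nil)))))))) (.g (nat_lit 1) (.e (nat_lit 436524) (nat_lit 0) .nil) .nil))))) 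
(.nd (nat_lit 8) (.nd (nat_lit 9) 
(.lf (nat_lit 606433) (.g (nat_lit 3017) (.e (nat_lit 778482) (nat_lit 12) (.e (nat_lit 163978) (nat_lit 30) (.e (nat_lit 573475) (nat_lit 12) (.e (nat_lit 57546) (nat_lit 47) .nil)))) (.g (nat_lit 0) (.e (nat_lit 433530) (nat_lit 0) .nil) .nil))) 
(.lf (nat_lit 606945) (.g (nat_lit 2521) (.e (nat_lit 794668) (nat_lit 22) (.e (nat_lit 196666) (nat_lit 13) (.e (nat_lit 65569) (nat_lit 3) (.e (nat_lit 98334) (nat_lit 18) (.e (nat_lit 164161) (nat_lit 152) (.e (nat_lit 1027) (nat_lit 81) (.e (nat_lit 1255) (nat_lit 92) (.e (nat_lit 98321) (nat_lit 17) (.e (nat_lit 3771) (nat_lit 229) .nil))))))))) (.g (nat_lit 1) (.e (nat_lit 435734) (nat_lit 0) .nil) .nil)))) 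
(.nd (nat_lit 9) 
(.lf (nat_lit 606689) (.g (nat_lit 2845) (.e (nat_lit 786481) (nat_lit 30) (.e (nat_lit 360473) (nat_lit 8) (.e (nat_lit 557090) (nat_lit 12) (.e (nat_lit 164007) (nat_lit 41) .nil)))) (.g (nat_lit 0) (.e (nat_lit 434180) (nat_lit 0) .nil) .nil))) 
(.lf (nat_lit 607201) (.g (nat_lit 865) (.e (nat_lit 794683) (nat_lit 25) (.e (nat_lit 221214) (nat_lit 23) (.e (nat_lit 204884) (nat_lit 33) .nil))) (.g (nat_lit 0) (.e (nat_lit 436856) (nat_lit 0) .nil) .nil)))))))) (.nd (nat_lit 5) (.nd (nat_lit 6) (.nd (nat_lit 7) (.nd (nat_lit 8) (.nd (nat_lit 9) 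
(.lf (nat_lit 606225) (.g (nat_lit 2576) (.e (nat_lit 778468) (nat_lit 11) (.e (nat_lit 24658) (nat_lit 13) (.e (nat_lit 393234) (nat_lit 17) (.e (nat_lit 7591) (nat_lit 407) .nil)))) (.g (nat_lit 0) (.e (nat_lit 433270) (nat_lit 0) .nil) .nil))) 
(.lf (nat_lit 606737) (.g (nat_lit 2366) (.e (nat_lit 786482) (nat_lit 30) (.e (nat_lit 360475) (nat_lit 8) (.e (nat_lit 557089) (nat_lit 12) (.e (nat_lit 164007) (nat_lit 41) (.e (nat_lit 663583) (nat_lit 11) .nil))))) (.g (nat_lit 0) (.e (nat_lit 434249) (nat_lit 0) .nil) .nil)))) (.nd (nat_lit 9) 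
(.lf (nat_lit 606481) (.g (nat_lit 948) (.e (nat_lit 786457) (nat_lit 18) (.e (nat_lit 98380) (nat_lit 31) (.e (nat_lit 466954) (nat_lit 11) (.e (nat_lit 336049) (nat_lit 6) (.e (nat_lit 147503) (nat_lit 12) (.e (nat_lit 164056) (nat_lit 56) .nil)))))) (.g (nat_lit 1) (.e (nat_lit 433705) (nat_lit 0) .nil) .nil))) 
(.lf (nat_lit 606993) (.g (nat_lit 934) (.e (nat_lit 794669) (nat_lit 22) (.e (nat_lit 196668) (nat_lit 14) (.e (nat_lit 73747) (nat_lit 3) (.e (nat_lit 516117) (nat_lit 1) .nil)))) (.g (nat_lit 0) (.e (nat_lit 436025) (nat_lit 0) .nil) .nil))))) (.nd (nat_lit 8) (.nd (nat_lit 9) 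
(.lf (nat_lit 606353) (.g (nat_lit 4107) (.e (nat_lit 778469) (nat_lit 11) (.e (nat_lit 24665) (nat_lit 14) (.e (nat_lit 401414) (nat_lit 0) (.e (nat_lit 3459) (nat_lit 216) (.e (nat_lit 688178) (nat_lit 16) (.e (nat_lit 65604) (nat_lit 9) (.e (nat_lit 335907) (nat_lit 0) (.e (nat_lit 2296) (nat_lit 151) .nil)))))))) (.g (nat_lit 1) (.e (nat_lit 433424) (nat_lit 0) .nil) .nil))) 
(.lf (nat_lit 606865) (.g (nat_lit 1061) (.e (nat_lit 794635) (nat_lit 11) (.e (nat_lit 336119) (nat_lit 9) (.e (nat_lit 336437) (nat_lit 31) (.e (nat_lit 458769) (nat_lit 16) (.e (nat_lit 164294) (nat_lit 224) (.e (nat_lit 164112) (nat_lit 118) .nil)))))) (.g (nat_lit 1) (.e (nat_lit 434801) (nat_lit 0) .nil) .nil)))) (.nd (nat_lit 9) 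
(.lf (nat_lit 606609) (.g (nat_lit 415) (.e (nat_lit 786481) (nat_lit 30) (.e (nat_lit 360449) (nat_lit 0) (.e (nat_lit 4764) (nat_lit 281) .nil))) (.g (nat_lit 0) (.e (nat_lit 434038) (nat_lit 0) .nil) .nil))) 
(.lf (nat_lit 607121) (.g (nat_lit 2596) (.e (nat_lit 794673) (nat_lit 23) (.e (nat_lit 204863) (nat_lit 27) (.e (nat_lit 344117) (nat_lit 21) (.e (nat_lit 516116) (nat_lit 1) (.e (nat_lit 164164) (nat_lit 152) .nil))))) (.g (nat_lit 0) (.e (nat_lit 436636) (nat_lit 0) .nil) .nil)))))) (.nd (nat_lit 7) (.nd (nat_lit 8) (.nd (nat_lit 9) 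
(.lf (nat_lit 606289) (.g (nat_lit 2539) (.e (nat_lit 778469) (nat_lit 11) (.e (nat_lit 24628) (nat_lit 9) (.e (nat_lit 336443) (nat_lit 32) (.e (nat_lit 466972) (nat_lit 21) (.e (nat_lit 164332) (nat_lit 230) .nil))))) (.g (nat_lit 0) (.e (nat_lit 433338) (nat_lit 0) .nil) .nil))) 
(.lf (nat_lit 606801) (.g (nat_lit 2631) (.e (nat_lit 786483) (nat_lit 30) (.e (nat_lit 360475) (nat_lit 8) (.e (nat_lit 557090) (nat_lit 12) (.e (nat_lit 164007) (nat_lit 41) (.e (nat_lit 663585) (nat_lit 12) .nil))))) (.g (nat_lit 0) (.e (nat_lit 434570) (nat_lit 0) .nil) .nil)))) (.nd (nat_lit 9) 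
(.lf (nat_lit 606545) (.g (nat_lit 3992) (.e (nat_lit 786477) (nat_lit 28) (.e (nat_lit 344177) (nat_lit 43) (.e (nat_lit 770072) (nat_lit 8) (.e (nat_lit 65571) (nat_lit 3) (.e (nat_lit 98341) (nat_lit 20) (.e (nat_lit 221198) (nat_lit 20) (.e (nat_lit 3744) (nat_lit 228) .nil))))))) (.g (nat_lit 1) (.e (nat_lit 433918) (nat_lit 0) .nil) .nil))) 
(.lf (nat_lit 607057) (.g (nat_lit 2651) (.e (nat_lit 794673) (nat_lit 23) (.e (nat_lit 204829) (nat_lit 18) (.e (nat_lit 57927) (nat_lit 282) (.e (nat_lit 163868) (nat_lit 2) (.e (nat_lit 196670) (nat_lit 14) (.e (nat_lit 73746) (nat_lit 3) (.e (nat_lit 516100) (nat_lit 0) (.e (nat_lit 3771) (nat_lit 229) .nil)))))))) (.g (nat_lit 1) (.e (nat_lit 436491) (nat_lit 0) .nil) .nil))))) 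
(.nd (nat_lit 8) (.nd (nat_lit 9) 
(.lf (nat_lit 606417) (.g (nat_lit 1340) (.e (nat_lit 786176) (nat_lit 11) (.e (nat_lit 24660) (nat_lit 13) (.e (nat_lit 393238) (nat_lit 17) (.e (nat_lit 7099) (nat_lit 380) .nil)))) (.g (nat_lit 0) (.e (nat_lit 433497) (nat_lit 0) .nil) .nil))) 
(.lf (nat_lit 606929) (.g (nat_lit 3213) (.e (nat_lit 794667) (nat_lit 22) (.e (nat_lit 196656) (nat_lit 11) (.e (nat_lit 16436) (nat_lit 9) (.e (nat_lit 426131) (nat_lit 3) (.e (nat_lit 204880) (nat_lit 32) (.e (nat_lit 385109) (nat_lit 51) .nil)))))) (.g (nat_lit 1) (.e (nat_lit 435583) (nat_lit 0) .nil) .nil)))) (.nd (nat_lit 9) 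
(.lf (nat_lit 606673) (.g (nat_lit 1171) (.e (nat_lit 786481) (nat_lit 30) (.e (nat_lit 360473) (nat_lit 8) (.e (nat_lit 557089) (nat_lit 12) (.e (nat_lit 163997) (nat_lit 37) .nil)))) (.g (nat_lit 0) (.e (nat_lit 434145) (nat_lit 0) .nil) .nil))) 
(.lf (nat_lit 607185) (.g (nat_lit 2308) (.e (nat_lit 794680) (nat_lit 24) (.e (nat_lit 213032) (nat_lit 11) (.e (nat_lit 24621) (nat_lit 8) (.e (nat_lit 327715) (nat_lit 16) (.e (nat_lit 286759) (nat_lit 12) .nil))))) (.g (nat_lit 0) (.e (nat_lit 436741) (nat_lit 0) .nil) .nil))))))) (.nd (nat_lit 6) (.nd (nat_lit 7) (.nd (nat_lit 8) (.nd (nat_lit 9) 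
(.lf (nat_lit 606257) (.g (nat_lit 1868) (.e (nat_lit 778469) (nat_lit 11) (.e (nat_lit 24608) (nat_lit 3) (.e (nat_lit 98370) (nat_lit 28) (.e (nat_lit 450304) (nat_lit 3) .nil)))) (.g (nat_lit 0) (.e (nat_lit 433303) (nat_lit 0) .nil) .nil))) 
(.lf (nat_lit 606769) (.g (nat_lit 410) (.e (nat_lit 786483) (nat_lit 30) (.e (nat_lit 360453) (nat_lit 0) (.e (nat_lit 5907) (nat_lit 320) .nil))) (.g (nat_lit 0) (.e (nat_lit 434298) (nat_lit 0) .nil) .nil)))) (.nd (nat_lit 9) 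
(.lf (nat_lit 606513) (.g (nat_lit 3068) (.e (nat_lit 786473) (nat_lit 27) (.e (nat_lit 336051) (nat_lit 6) (.e (nat_lit 147496) (nat_lit 11) (.e (nat_lit 24608) (nat_lit 3) (.e (nat_lit 98341) (nat_lit 20) (.e (nat_lit 221204) (nat_lit 20) (.e (nat_lit 3748) (nat_lit 228) .nil))))))) (.g (nat_lit 1) (.e (nat_lit 433773) (nat_lit 0) .nil) .nil))) 
(.lf (nat_lit 607025) (.g (nat_lit 2495) (.e (nat_lit 794669) (nat_lit 22) (.e (nat_lit 196670) (nat_lit 14) (.e (nat_lit 73746) (nat_lit 3) (.e (nat_lit 516117) (nat_lit 1) (.e (nat_lit 164157) (nat_lit 152) (.e (nat_lit 1027) (nat_lit 81) (.e (nat_lit 1255) (nat_lit 92) (.e (nat_lit 98321) (nat_lit 17) (.e (nat_lit 3771) (nat_lit 229) .nil))))))))) (.g (nat_lit 1) (.e (nat_lit 436246) (nat_lit 0) .nil) .nil))))) 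
(.nd (nat_lit 8) (.nd (nat_lit 9) 
(.lf (nat_lit 606385) (.g (nat_lit 1012) (.e (nat_lit 786176) (nat_lit 11) (.e (nat_lit 24608) (nat_lit 3) (.e (nat_lit 98373) (nat_lit 29) .nil))) (.g (nat_lit 0) (.e (nat_lit 433459) (nat_lit 0) .nil) .nil))) 
(.lf (nat_lit 606897) (.g (nat_lit 1164) (.e (nat_lit 794655) (nat_lit 20) (.e (nat_lit 3748) (nat_lit 228) (.e (nat_lit 786473) (nat_lit 27) (.e (nat_lit 336429) (nat_lit 29) .nil)))) (.g (nat_lit 0) (.e (nat_lit 434841) (nat_lit 0) .nil) .nil)))) (.nd (nat_lit 9) 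
(.lf (nat_lit 606641) (.g (nat_lit 1321) (.e (nat_lit 786481) (nat_lit 30) (.e (nat_lit 360466) (nat_lit 3) (.e (nat_lit 516117) (nat_lit 1) (.e (nat_lit 164166) (nat_lit 152) (.e (nat_lit 7936) (nat_lit 89) .nil))))) (.g (nat_lit 0) (.e (nat_lit 434093) (nat_lit 0) .nil) .nil))) 
(.lf (nat_lit 607153) (.g (nat_lit 1979) (.e (nat_lit 794675) (nat_lit 24) (.e (nat_lit 213032) (nat_lit 11) (.e (nat_lit 24617) (nat_lit 7) (.e (nat_lit 319533) (nat_lit 16) .nil)))) (.g (nat_lit 0) (.e (nat_lit 436696) (nat_lit 0) .nil) .nil)))))) (.nd (nat_lit 7) (.nd (nat_lit 8) (.nd (nat_lit 9) 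
(.lf (nat_lit 606321) (.g (nat_lit 1416) (.e (nat_lit 778469) (nat_lit 11) (.e (nat_lit 24658) (nat_lit 13) (.e (nat_lit 393281) (nat_lit 23) (.e (nat_lit 426099) (nat_lit 1) (.e (nat_lit 164330) (nat_lit 230) .nil))))) (.g (nat_lit 0) (.e (nat_lit 433389) (nat_lit 0) .nil) .nil))) 
(.lf (nat_lit 606833) (.g (nat_lit 1048) (.e (nat_lit 802560) (nat_lit 4) (.e (nat_lit 106536) (nat_lit 11) (.e (nat_lit 16387) (nat_lit 0) .nil))) (.g (nat_lit 0) (.e (nat_lit 434749) (nat_lit 0) .nil) .nil)))) (.nd (nat_lit 9) 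
(.lf (nat_lit 606577) (.g (nat_lit 934) (.e (nat_lit 786480) (nat_lit 29) (.e (nat_lit 352309) (nat_lit 21) (.e (nat_lit 57872) (nat_lit 264) (.e (nat_lit 1200) (nat_lit 88) .nil)))) (.g (nat_lit 0) (.e (nat_lit 433977) (nat_lit 0) .nil) .nil))) 
(.lf (nat_lit 607089) (.g (nat_lit 2242) (.e (nat_lit 794673) (nat_lit 23) (.e (nat_lit 204862) (nat_lit 27) (.e (nat_lit 344117) (nat_lit 21) (.e (nat_lit 516097) (nat_lit 0) (.e (nat_lit 3454) (nat_lit 216) .nil))))) (.g (nat_lit 0) (.e (nat_lit 436575) (nat_lit 0) .nil) .nil))))) (.nd (nat_lit 8) (.nd (nat_lit 9) 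
(.lf (nat_lit 606449) (.g (nat_lit 2707) (.e (nat_lit 786438) (nat_lit 9) (.e (nat_lit 426139) (nat_lit 3) (.e (nat_lit 204883) (nat_lit 33) (.e (nat_lit 401454) (nat_lit 12) (.e (nat_lit 475179) (nat_lit 24) .nil))))) (.g (nat_lit 0) (.e (nat_lit 433607) (nat_lit 0) .nil) .nil))) 
(.lf (nat_lit 606961) (.g (nat_lit 461) (.e (nat_lit 794669) (nat_lit 22) (.e (nat_lit 196668) (nat_lit 14) (.e (nat_lit 73743) (nat_lit 1) .nil))) (.g (nat_lit 0) (.e (nat_lit 435861) (nat_lit 0) .nil) .nil)))) (.nd (nat_lit 9) 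
(.lf (nat_lit 606705) (.g (nat_lit 1531) (.e (nat_lit 786481) (nat_lit 30) (.e (nat_lit 360473) (nat_lit 8) (.e (nat_lit 557091) (nat_lit 12) (.e (nat_lit 164005) (nat_lit 41) .nil)))) (.g (nat_lit 0) (.e (nat_lit 434200) (nat_lit 0) .nil) .nil))) 
(.lf (nat_lit 607217) (.g (nat_lit 2148) (.e (nat_lit 794684) (nat_lit 25) (.e (nat_lit 221215) (nat_lit 23) (.e (nat_lit 204883) (nat_lit 33) (.e (nat_lit 401459) (nat_lit 13) (.e (nat_lit 483347) (nat_lit 17) (.e (nat_lit 7936) (nat_lit 153) .nil)))))) (.g (nat_lit 1) (.e (nat_lit 436997) (nat_lit 0) .nil) .nil))))))))) 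
(.nd (nat_lit 4) (.nd (nat_lit 5) (.nd (nat_lit 6) (.nd (nat_lit 7) (.nd (nat_lit 8) 
(.nd (nat_lit 9) 
(.lf (nat_lit 606217) (.g (nat_lit 4436) (.e (nat_lit 778468) (nat_lit 11) (.e (nat_lit 24608) (nat_lit 3) (.e (nat_lit 98373) (nat_lit 29) (.e (nat_lit 450588) (nat_lit 10) (.e (nat_lit 573473) (nat_lit 12) .nil))))) (.g (nat_lit 0) (.e (nat_lit 433261) (nat_lit 0) .nil) .nil))) 
(.lf (nat_lit 606729) (.g (nat_lit 273) (.e (nat_lit 786482) (nat_lit 30) (.e (nat_lit 360457) (nat_lit 0) (.e (nat_lit 5949) (nat_lit 322) .nil))) (.g (nat_lit 0) (.e (nat_lit 434241) (nat_lit 0) .nil) .nil)))) (.nd (nat_lit 9) 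
(.lf (nat_lit 606473) (.g (nat_lit 2690) (.e (nat_lit 786456) (nat_lit 18) (.e (nat_lit 98367) (nat_lit 27) (.e (nat_lit 434244) (nat_lit 28) (.e (nat_lit 573487) (nat_lit 14) (.e (nat_lit 81664) (nat_lit 5) .nil))))) (.g (nat_lit 0) (.e (nat_lit 433669) (nat_lit 0) .nil) .nil))) 
(.lf (nat_lit 606985) (.g (nat_lit 2693) (.e (nat_lit 794669) (nat_lit 22) (.e (nat_lit 196668) (nat_lit 14) (.e (nat_lit 73747) (nat_lit 3) (.e (nat_lit 516115) (nat_lit 1) (.e (nat_lit 164153) (nat_lit 152) (.e (nat_lit 999) (nat_lit 81) (.e (nat_lit 1256) (nat_lit 92) (.e (nat_lit 98321) (nat_lit 17) (.e (nat_lit 3771) (nat_lit 229) .nil))))))))) (.g (nat_lit 1) (.e (nat_lit 435939) (nat_lit 0) .nil) .nil))))) 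
(.nd (nat_lit 8) (.nd (nat_lit 9) 
(.lf (nat_lit 606345) (.g (nat_lit 1305) (.e (nat_lit 778469) (nat_lit 11) (.e (nat_lit 24660) (nat_lit 13) (.e (nat_lit 393260) (nat_lit 21) (.e (nat_lit 409636) (nat_lit 14) .nil)))) (.g (nat_lit 0) (.e (nat_lit 433415) (nat_lit 0) .nil) .nil))) 
(.lf (nat_lit 606857) (.g (nat_lit 385) (.e (nat_lit 794634) (nat_lit 11) (.e (nat_lit 336121) (nat_lit 9) (.e (nat_lit 336437) (nat_lit 31) (.e (nat_lit 466688) (nat_lit 5) .nil)))) (.g (nat_lit 0) (.e (nat_lit 434790) (nat_lit 0) .nil) .nil)))) (.nd (nat_lit 9) 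
(.lf (nat_lit 606601) (.g (nat_lit 1470) (.e (nat_lit 786480) (nat_lit 29) (.e (nat_lit 352318) (nat_lit 24) (.e (nat_lit 123195) (nat_lit 266) (.e (nat_lit 57419) (nat_lit 12) .nil)))) (.g (nat_lit 0) (.e (nat_lit 434024) (nat_lit 0) .nil) .nil))) 
(.lf (nat_lit 607113) (.g (nat_lit 2468) (.e (nat_lit 794673) (nat_lit 23) (.e (nat_lit 204863) (nat_lit 27) (.e (nat_lit 344117) (nat_lit 21) (.e (nat_lit 516115) (nat_lit 1) (.e (nat_lit 164177) (nat_lit 154) .nil))))) (.g (nat_lit 0) (.e (nat_lit 436619) (nat_lit 0) .nil) .nil)))))) (.nd (nat_lit 7) (.nd (nat_lit 8) (.nd (nat_lit 9) 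
(.lf (nat_lit 606281) (.g (nat_lit 2563) (.e (nat_lit 778469) (nat_lit 11) (.e (nat_lit 24628) (nat_lit 9) (.e (nat_lit 336443) (nat_lit 32) (.e (nat_lit 466969) (nat_lit 21) (.e (nat_lit 164332) (nat_lit 230) (.e (nat_lit 163850) (nat_lit 0) (.e (nat_lit 3711) (nat_lit 227) .nil))))))) (.g (nat_lit 1) (.e (nat_lit 433330) (nat_lit 0) .nil) .nil))) 
(.lf (nat_lit 606793) (.g (nat_lit 661) (.e (nat_lit 786483) (nat_lit 30) (.e (nat_lit 360475) (nat_lit 8) (.e (nat_lit 557089) (nat_lit 12) .nil))) (.g (nat_lit 0) (.e (nat_lit 434465) (nat_lit 0) .nil) .nil)))) (.nd (nat_lit 9) 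
(.lf (nat_lit 606537) (.g (nat_lit 505) (.e (nat_lit 786477) (nat_lit 28) (.e (nat_lit 344177) (nat_lit 43) (.e (nat_lit 770071) (nat_lit 8) .nil))) (.g (nat_lit 0) (.e (nat_lit 433909) (nat_lit 0) .nil) .nil))) 
(.lf (nat_lit 607049) (.g (nat_lit 1950) (.e (nat_lit 794672) (nat_lit 23) (.e (nat_lit 204830) (nat_lit 18) (.e (nat_lit 57926) (nat_lit 282) (.e (nat_lit 163875) (nat_lit 3) .nil)))) (.g (nat_lit 0) (.e (nat_lit 436430) (nat_lit 0) .nil) .nil))))) (.nd (nat_lit 8) (.nd (nat_lit 9) 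
(.lf (nat_lit 606409) (.g (nat_lit 2549) (.e (nat_lit 786176) (nat_lit 11) (.e (nat_lit 24658) (nat_lit 13) (.e (nat_lit 393234) (nat_lit 17) (.e (nat_lit 7593) (nat_lit 407) (.e (nat_lit 81664) (nat_lit 26) .nil))))) (.g (nat_lit 0) (.e (nat_lit 433489) (nat_lit 0) .nil) .nil))) 
(.lf (nat_lit 606921) (.g (nat_lit 493) (.e (nat_lit 794665) (nat_lit 22) (.e (nat_lit 196668) (nat_lit 14) (.e (nat_lit 73747) (nat_lit 3) .nil))) (.g (nat_lit 0) (.e (nat_lit 435273) (nat_lit 0) .nil) .nil)))) (.nd (nat_lit 9) 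
(.lf (nat_lit 606665) (.g (nat_lit 1707) (.e (nat_lit 786481) (nat_lit 30) (.e (nat_lit 360467) (nat_lit 3) (.e (nat_lit 516115) (nat_lit 1) (.e (nat_lit 164179) (nat_lit 154) .nil)))) (.g (nat_lit 0) (.e (nat_lit 434126) (nat_lit 0) .nil) .nil))) 
(.lf (nat_lit 607177) (.g (nat_lit 2372) (.e (nat_lit 794679) (nat_lit 24) (.e (nat_lit 213032) (nat_lit 11) (.e (nat_lit 24617) (nat_lit 7) (.e (nat_lit 319534) (nat_lit 16) (.e (nat_lit 286759) (nat_lit 12) .nil))))) (.g (nat_lit 0) (.e (nat_lit 436729) (nat_lit 0) .nil) .nil))))))) (.nd (nat_lit 6) (.nd (nat_lit 7) (.nd (nat_lit 8) (.nd (nat_lit 9) 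
(.lf (nat_lit 606249) (.g (nat_lit 653) (.e (nat_lit 778469) (nat_lit 11) (.e (nat_lit 24607) (nat_lit 3) (.e (nat_lit 98373) (nat_lit 29) .nil))) (.g (nat_lit 0) (.e (nat_lit 433294) (nat_lit 0) .nil) .nil))) 
(.lf (nat_lit 606761) (.g (nat_lit 1538) (.e (nat_lit 786483) (nat_lit 30) (.e (nat_lit 360452) (nat_lit 0) (.e (nat_lit 5905) (nat_lit 320) (.e (nat_lit 1200) (nat_lit 88) .nil)))) (.g (nat_lit 0) (.e (nat_lit 434289) (nat_lit 0) .nil) .nil)))) (.nd (nat_lit 9) 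
(.lf (nat_lit 606505) (.g (nat_lit 1698) (.e (nat_lit 786471) (nat_lit 27) (.e (nat_lit 336061) (nat_lit 7) (.e (nat_lit 319531) (nat_lit 16) (.e (nat_lit 294656) (nat_lit 35) .nil)))) (.g (nat_lit 0) (.e (nat_lit 433755) (nat_lit 0) .nil) .nil))) 
(.lf (nat_lit 607017) (.g (nat_lit 2558) (.e (nat_lit 794669) (nat_lit 22) (.e (nat_lit 196670) (nat_lit 14) (.e (nat_lit 73746) (nat_lit 3) (.e (nat_lit 516115) (nat_lit 1) (.e (nat_lit 164148) (nat_lit 152) .nil))))) (.g (nat_lit 0) (.e (nat_lit 436216) (nat_lit 0) .nil) .nil))))) (.nd (nat_lit 8) (.nd (nat_lit 9) 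
(.lf (nat_lit 606377) (.g (nat_lit 640) (.e (nat_lit 786176) (nat_lit 11) (.e (nat_lit 24607) (nat_lit 3) (.e (nat_lit 98373) (nat_lit 29) .nil))) (.g (nat_lit 0) (.e (nat_lit 433451) (nat_lit 0) .nil) .nil))) 
(.lf (nat_lit 606889) (.g (nat_lit 1621) (.e (nat_lit 794637) (nat_lit 11) (.e (nat_lit 336077) (nat_lit 9) (.e (nat_lit 336438) (nat_lit 31) (.e (nat_lit 458769) (nat_lit 16) (.e (nat_lit 164287) (nat_lit 224) (.e (nat_lit 164112) (nat_lit 118) .nil)))))) (.g (nat_lit 1) (.e (nat_lit 434826) (nat_lit 0) .nil) .nil)))) (.nd (nat_lit 9) 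
(.lf (nat_lit 606633) (.g (nat_lit 1342) (.e (nat_lit 786481) (nat_lit 30) (.e (nat_lit 360466) (nat_lit 3) (.e (nat_lit 516115) (nat_lit 1) (.e (nat_lit 164153) (nat_lit 152) .nil)))) (.g (nat_lit 0) (.e (nat_lit 434084) (nat_lit 0) .nil) .nil))) 
(.lf (nat_lit 607145) (.g (nat_lit 2615) (.e (nat_lit 794673) (nat_lit 23) (.e (nat_lit 204880) (nat_lit 32) (.e (nat_lit 385066) (nat_lit 26) (.e (nat_lit 532504) (nat_lit 1) (.e (nat_lit 57830) (nat_lit 250) (.e (nat_lit 999) (nat_lit 81) (.e (nat_lit 1256) (nat_lit 92) (.e (nat_lit 98321) (nat_lit 17) (.e (nat_lit 3771) (nat_lit 229) .nil))))))))) (.g (nat_lit 1) (.e (nat_lit 436680) (nat_lit 0) .nil) .nil)))))) 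
(.nd (nat_lit 7) (.nd (nat_lit 8) (.nd (nat_lit 9) 
(.lf (nat_lit 606313) (.g (nat_lit 817) (.e (nat_lit 778469) (nat_lit 11) (.e (nat_lit 24658) (nat_lit 13) (.e (nat_lit 393231) (nat_lit 17) .nil))) (.g (nat_lit 0) (.e (nat_lit 433381) (nat_lit 0) .nil) .nil))) 
(.lf (nat_lit 606825) (.g (nat_lit 1525) (.e (nat_lit 786489) (nat_lit 34) (.e (nat_lit 393260) (nat_lit 21) (.e (nat_lit 409616) (nat_lit 10) (.e (nat_lit 604) (nat_lit 45) .nil)))) (.g (nat_lit 0) (.e (nat_lit 434737) (nat_lit 0) .nil) .nil)))) (.nd (nat_lit 9) 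
(.lf (nat_lit 606569) (.g (nat_lit 1035) (.e (nat_lit 786480) (nat_lit 29) (.e (nat_lit 352262) (nat_lit 0) (.e (nat_lit 3748) (nat_lit 228) (.e (nat_lit 786478) (nat_lit 29) .nil)))) (.g (nat_lit 0) (.e (nat_lit 433961) (nat_lit 0) .nil) .nil))) 
(.lf (nat_lit 607081) (.g (nat_lit 2982) (.e (nat_lit 794673) (nat_lit 23) (.e (nat_lit 204852) (nat_lit 26) (.e (nat_lit 336324) (nat_lit 18) (.e (nat_lit 204831) (nat_lit 18) (.e (nat_lit 57830) (nat_lit 250) .nil))))) (.g (nat_lit 0) (.e (nat_lit 436547) (nat_lit 0) .nil) .nil))))) (.nd (nat_lit 8) (.nd (nat_lit 9) 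
(.lf (nat_lit 606441) (.g (nat_lit 560) (.e (nat_lit 778584) (nat_lit 17) (.e (nat_lit 164359) (nat_lit 246) (.e (nat_lit 2973) (nat_lit 185) .nil))) (.g (nat_lit 0) (.e (nat_lit 433580) (nat_lit 0) .nil) .nil))) 
(.lf (nat_lit 606953) (.g (nat_lit 1625) (.e (nat_lit 794669) (nat_lit 22) (.e (nat_lit 196656) (nat_lit 11) (.e (nat_lit 16436) (nat_lit 9) (.e (nat_lit 426131) (nat_lit 3) (.e (nat_lit 204852) (nat_lit 26) .nil))))) (.g (nat_lit 0) (.e (nat_lit 435839) (nat_lit 0) .nil) .nil)))) (.nd (nat_lit 9) 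
(.lf (nat_lit 606697) (.g (nat_lit 1726) (.e (nat_lit 786481) (nat_lit 30) (.e (nat_lit 360473) (nat_lit 8) (.e (nat_lit 557091) (nat_lit 12) (.e (nat_lit 163999) (nat_lit 38) .nil)))) (.g (nat_lit 0) (.e (nat_lit 434190) (nat_lit 0) .nil) .nil))) 
(.lf (nat_lit 607209) (.g (nat_lit 806) (.e (nat_lit 794684) (nat_lit 25) (.e (nat_lit 221214) (nat_lit 23) (.e (nat_lit 204883) (nat_lit 33) .nil))) (.g (nat_lit 0) (.e (nat_lit 436984) (nat_lit 0) .nil) .nil)))))))) (.nd (nat_lit 5) (.nd (nat_lit 6) (.nd (nat_lit 7) (.nd (nat_lit 8) (.nd (nat_lit 9) 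
(.lf (nat_lit 606233) (.g (nat_lit 2071) (.e (nat_lit 778469) (nat_lit 11) (.e (nat_lit 24604) (nat_lit 2) (.e (nat_lit 90170) (nat_lit 13) (.e (nat_lit 172106) (nat_lit 10) (.e (nat_lit 434244) (nat_lit 28) .nil))))) (.g (nat_lit 0) (.e (nat_lit 433278) (nat_lit 0) .nil) .nil))) 
(.lf (nat_lit 606745) (.g (nat_lit 2676) (.e (nat_lit 786482) (nat_lit 30) (.e (nat_lit 360475) (nat_lit 8) (.e (nat_lit 557091) (nat_lit 12) (.e (nat_lit 164006) (nat_lit 41) (.e (nat_lit 663574) (nat_lit 9) .nil))))) (.g (nat_lit 0) (.e (nat_lit 434258) (nat_lit 0) .nil) .nil)))) (.nd (nat_lit 9) 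
(.lf (nat_lit 606489) (.g (nat_lit 1956) (.e (nat_lit 786467) (nat_lit 27) (.e (nat_lit 336228) (nat_lit 14) (.e (nat_lit 401456) (nat_lit 13) (.e (nat_lit 483408) (nat_lit 26) (.e (nat_lit 385102) (nat_lit 50) .nil))))) (.g (nat_lit 0) (.e (nat_lit 433724) (nat_lit 0) .nil) .nil))) 
(.lf (nat_lit 607001) (.g (nat_lit 2023) (.e (nat_lit 794669) (nat_lit 22) (.e (nat_lit 196668) (nat_lit 14) (.e (nat_lit 73747) (nat_lit 3) (.e (nat_lit 516117) (nat_lit 1) (.e (nat_lit 164161) (nat_lit 152) .nil))))) (.g (nat_lit 0) (.e (nat_lit 436033) (nat_lit 0) .nil) .nil))))) (.nd (nat_lit 8) (.nd (nat_lit 9) 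
(.lf (nat_lit 606361) (.g (nat_lit 736) (.e (nat_lit 778470) (nat_lit 11) (.e (nat_lit 24658) (nat_lit 13) (.e (nat_lit 393281) (nat_lit 23) .nil))) (.g (nat_lit 0) (.e (nat_lit 433433) (nat_lit 0) .nil) .nil))) 
(.lf (nat_lit 606873) (.g (nat_lit 697) (.e (nat_lit 794635) (nat_lit 11) (.e (nat_lit 336151) (nat_lit 9) (.e (nat_lit 336437) (nat_lit 31) (.e (nat_lit 458769) (nat_lit 16) (.e (nat_lit 164289) (nat_lit 224) (.e (nat_lit 164112) (nat_lit 118) .nil)))))) (.g (nat_lit 1) (.e (nat_lit 434809) (nat_lit 0) .nil) .nil)))) (.nd (nat_lit 9) 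
(.lf (nat_lit 606617) (.g (nat_lit 1696) (.e (nat_lit 786481) (nat_lit 30) (.e (nat_lit 360452) (nat_lit 0) (.e (nat_lit 5907) (nat_lit 320) (.e (nat_lit 1219) (nat_lit 90) (.e (nat_lit 81924) (nat_lit 0) .nil))))) (.g (nat_lit 0) (.e (nat_lit 434049) (nat_lit 0) .nil) .nil))) 
(.lf (nat_lit 607129) (.g (nat_lit 1467) (.e (nat_lit 794673) (nat_lit 23) (.e (nat_lit 204863) (nat_lit 27) (.e (nat_lit 344118) (nat_lit 21) (.e (nat_lit 516115) (nat_lit 1) .nil)))) (.g (nat_lit 0) (.e (nat_lit 436652) (nat_lit 0) .nil) .nil)))))) (.nd (nat_lit 7) (.nd (nat_lit 8) (.nd (nat_lit 9) 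
(.lf (nat_lit 606297) (.g (nat_lit 702) (.e (nat_lit 778469) (nat_lit 11) (.e (nat_lit 24655) (nat_lit 13) (.e (nat_lit 393249) (nat_lit 17) .nil))) (.g (nat_lit 0) (.e (nat_lit 433352) (nat_lit 0) .nil) .nil))) 
(.lf (nat_lit 606809) (.g (nat_lit 2226) (.e (nat_lit 786483) (nat_lit 30) (.e (nat_lit 360475) (nat_lit 8) (.e (nat_lit 557091) (nat_lit 12) (.e (nat_lit 164002) (nat_lit 40) .nil)))) (.g (nat_lit 0) (.e (nat_lit 434672) (nat_lit 0) .nil) .nil)))) (.nd (nat_lit 9) 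
(.lf (nat_lit 606553) (.g (nat_lit 3364) (.e (nat_lit 786478) (nat_lit 29) (.e (nat_lit 352262) (nat_lit 0) (.e (nat_lit 3748) (nat_lit 228) (.e (nat_lit 786478) (nat_lit 29) (.e (nat_lit 352262) (nat_lit 0) (.e (nat_lit 3748) (nat_lit 228) .nil)))))) (.g (nat_lit 1) (.e (nat_lit 433936) (nat_lit 0) .nil) .nil))) 
(.lf (nat_lit 607065) (.g (nat_lit 4352) (.e (nat_lit 794673) (nat_lit 23) (.e (nat_lit 204830) (nat_lit 18) (.e (nat_lit 57852) (nat_lit 252) (.e (nat_lit 57378) (nat_lit 3) (.e (nat_lit 98313) (nat_lit 9) (.e (nat_lit 336027) (nat_lit 3) (.e (nat_lit 98321) (nat_lit 17) (.e (nat_lit 3771) (nat_lit 229) .nil)))))))) (.g (nat_lit 1) (.e (nat_lit 436506) (nat_lit 0) .nil) .nil))))) 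
(.nd (nat_lit 8) (.nd (nat_lit 9) 
(.lf (nat_lit 606425) (.g (nat_lit 1078) (.e (nat_lit 786176) (nat_lit 11) (.e (nat_lit 24660) (nat_lit 13) (.e (nat_lit 393299) (nat_lit 27) (.e (nat_lit 491560) (nat_lit 10) .nil)))) (.g (nat_lit 0) (.e (nat_lit 433506) (nat_lit 0) .nil) .nil))) 
(.lf (nat_lit 606937) (.g (nat_lit 1804) (.e (nat_lit 794668) (nat_lit 22) (.e (nat_lit 196666) (nat_lit 13) (.e (nat_lit 65569) (nat_lit 3) (.e (nat_lit 98334) (nat_lit 18) (.e (nat_lit 164159) (nat_lit 152) .nil))))) (.g (nat_lit 0) (.e (nat_lit 435726) (nat_lit 0) .nil) .nil)))) (.nd (nat_lit 9) 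
(.lf (nat_lit 606681) (.g (nat_lit 1345) (.e (nat_lit 786481) (nat_lit 30) (.e (nat_lit 360473) (nat_lit 8) (.e (nat_lit 557089) (nat_lit 12) (.e (nat_lit 164006) (nat_lit 41) .nil)))) (.g (nat_lit 0) (.e (nat_lit 434154) (nat_lit 0) .nil) .nil))) 
(.lf (nat_lit 607193) (.g (nat_lit 2236) (.e (nat_lit 794682) (nat_lit 25) (.e (nat_lit 221215) (nat_lit 23) (.e (nat_lit 204883) (nat_lit 33) (.e (nat_lit 401459) (nat_lit 13) (.e (nat_lit 483347) (nat_lit 17) (.e (nat_lit 7936) (nat_lit 153) .nil)))))) (.g (nat_lit 1) (.e (nat_lit 436790) (nat_lit 0) .nil) .nil))))))) (.nd (nat_lit 6) (.nd (nat_lit 7) (.nd (nat_lit 8) (.nd (nat_lit 9) 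
(.lf (nat_lit 606265) (.g (nat_lit 2621) (.e (nat_lit 778469) (nat_lit 11) (.e (nat_lit 24608) (nat_lit 3) (.e (nat_lit 98373) (nat_lit 29) (.e (nat_lit 450587) (nat_lit 10) (.e (nat_lit 573478) (nat_lit 12) .nil))))) (.g (nat_lit 0) (.e (nat_lit 433311) (nat_lit 0) .nil) .nil))) 
(.lf (nat_lit 606777) (.g (nat_lit 1625) (.e (nat_lit 786483) (nat_lit 30) (.e (nat_lit 360454) (nat_lit 0) (.e (nat_lit 5907) (nat_lit 320) (.e (nat_lit 1221) (nat_lit 90) (.e (nat_lit 89856) (nat_lit 0) .nil))))) (.g (nat_lit 0) (.e (nat_lit 434308) (nat_lit 0) .nil) .nil)))) (.nd (nat_lit 9) 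
(.lf (nat_lit 606521) (.g (nat_lit 3441) (.e (nat_lit 786473) (nat_lit 27) (.e (nat_lit 336235) (nat_lit 14) (.e (nat_lit 401438) (nat_lit 9) (.e (nat_lit 426542) (nat_lit 29) (.e (nat_lit 352267) (nat_lit 0) (.e (nat_lit 3748) (nat_lit 228) .nil)))))) (.g (nat_lit 1) (.e (nat_lit 433781) (nat_lit 0) .nil) .nil))) 
(.lf (nat_lit 607033) (.g (nat_lit 2476) (.e (nat_lit 794669) (nat_lit 22) (.e (nat_lit 196670) (nat_lit 14) (.e (nat_lit 73746) (nat_lit 3) (.e (nat_lit 516119) (nat_lit 1) (.e (nat_lit 164184) (nat_lit 155) (.e (nat_lit 122893) (nat_lit 3) (.e (nat_lit 98321) (nat_lit 17) (.e (nat_lit 3771) (nat_lit 229) .nil)))))))) (.g (nat_lit 1) (.e (nat_lit 436306) (nat_lit 0) .nil) .nil))))) 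
(.nd (nat_lit 8) (.nd (nat_lit 9) 
(.lf (nat_lit 606393) (.g (nat_lit 1013) (.e (nat_lit 786176) (nat_lit 11) (.e (nat_lit 24608) (nat_lit 3) (.e (nat_lit 98380) (nat_lit 31) (.e (nat_lit 474880) (nat_lit 3) .nil)))) (.g (nat_lit 0) (.e (nat_lit 433467) (nat_lit 0) .nil) .nil))) 
(.lf (nat_lit 606905) (.g (nat_lit 506) (.e (nat_lit 794659) (nat_lit 21) (.e (nat_lit 164398) (nat_lit 256) (.e (nat_lit 57436) (nat_lit 17) .nil))) (.g (nat_lit 0) (.e (nat_lit 435036) (nat_lit 0) .nil) .nil)))) (.nd (nat_lit 9) 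
(.lf (nat_lit 606649) (.g (nat_lit 1364) (.e (nat_lit 786481) (nat_lit 30) (.e (nat_lit 360466) (nat_lit 3) (.e (nat_lit 516119) (nat_lit 1) (.e (nat_lit 164163) (nat_lit 152) .nil)))) (.g (nat_lit 0) (.e (nat_lit 434104) (nat_lit 0) .nil) .nil))) 
(.lf (nat_lit 607161) (.g (nat_lit 353) (.e (nat_lit 794677) (nat_lit 24) (.e (nat_lit 213030) (nat_lit 11) (.e (nat_lit 24617) (nat_lit 7) .nil))) (.g (nat_lit 0) (.e (nat_lit 436708) (nat_lit 0) .nil) .nil)))))) (.nd (nat_lit 7) (.nd (nat_lit 8) (.nd (nat_lit 9) 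
(.lf (nat_lit 606329) (.g (nat_lit 1844) (.e (nat_lit 778469) (nat_lit 11) (.e (nat_lit 24658) (nat_lit 13) (.e (nat_lit 393301) (nat_lit 27) (.e (nat_lit 491558) (nat_lit 10) .nil)))) (.g (nat_lit 0) (.e (nat_lit 433399) (nat_lit 0) .nil) .nil))) 
(.lf (nat_lit 606841) (.g (nat_lit 938) (.e (nat_lit 802560) (nat_lit 5) (.e (nat_lit 114698) (nat_lit 11) (.e (nat_lit 426199) (nat_lit 9) (.e (nat_lit 426493) (nat_lit 27) .nil)))) (.g (nat_lit 0) (.e (nat_lit 434767) (nat_lit 0) .nil) .nil)))) (.nd (nat_lit 9) 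
(.lf (nat_lit 606585) (.g (nat_lit 2244) (.e (nat_lit 786480) (nat_lit 29) (.e (nat_lit 352309) (nat_lit 21) (.e (nat_lit 57873) (nat_lit 264) (.e (nat_lit 1221) (nat_lit 90) (.e (nat_lit 89856) (nat_lit 0) .nil))))) (.g (nat_lit 0) (.e (nat_lit 433990) (nat_lit 0) .nil) .nil))) 
(.lf (nat_lit 607097) (.g (nat_lit 4032) (.e (nat_lit 794673) (nat_lit 23) (.e (nat_lit 204862) (nat_lit 27) (.e (nat_lit 344117) (nat_lit 21) (.e (nat_lit 516115) (nat_lit 1) (.e (nat_lit 164183) (nat_lit 154) (.e (nat_lit 57375) (nat_lit 2) (.e (nat_lit 90181) (nat_lit 16) (.e (nat_lit 229472) (nat_lit 57) .nil)))))))) (.g (nat_lit 1) (.e (nat_lit 436585) (nat_lit 0) .nil) .nil))))) 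
(.nd (nat_lit 8) (.nd (nat_lit 9) 
(.lf (nat_lit 606457) (.g (nat_lit 3185) (.e (nat_lit 786444) (nat_lit 15) (.e (nat_lit 1859) (nat_lit 124) (.e (nat_lit 557109) (nat_lit 15) (.e (nat_lit 188450) (nat_lit 23) (.e (nat_lit 204882) (nat_lit 32) .nil))))) (.g (nat_lit 0) (.e (nat_lit 433632) (nat_lit 0) .nil) .nil))) 
(.lf (nat_lit 606969) (.g (nat_lit 1025) (.e (nat_lit 794669) (nat_lit 22) (.e (nat_lit 196668) (nat_lit 14) (.e (nat_lit 73746) (nat_lit 3) (.e (nat_lit 516119) (nat_lit 1) .nil)))) (.g (nat_lit 0) (.e (nat_lit 435893) (nat_lit 0) .nil) .nil)))) (.nd (nat_lit 9) 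
(.lf (nat_lit 606713) (.g (nat_lit 735) (.e (nat_lit 786481) (nat_lit 30) (.e (nat_lit 360473) (nat_lit 8) (.e (nat_lit 557094) (nat_lit 12) (.e (nat_lit 163996) (nat_lit 37) .nil)))) (.g (nat_lit 0) (.e (nat_lit 434216) (nat_lit 0) .nil) .nil))) 
(.lf (nat_lit 607225) (.g (nat_lit 2848) (.e (nat_lit 802824) (nat_lit 11) (.e (nat_lit 336027) (nat_lit 3) (.e (nat_lit 98373) (nat_lit 29) (.e (nat_lit 450587) (nat_lit 10) (.e (nat_lit 573478) (nat_lit 12) .nil))))) (.g (nat_lit 0) (.e (nat_lit 437010) (nat_lit 0) .nil) .nil)))))))))) 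
(.nd (nat_lit 3) (.nd (nat_lit 4) (.nd (nat_lit 5) (.nd (nat_lit 6) (.nd (nat_lit 7) 
(.nd (nat_lit 8) (.nd (nat_lit 9) 
(.lf (nat_lit 606213) (.g (nat_lit 4306) (.e (nat_lit 778468) (nat_lit 11) (.e (nat_lit 24608) (nat_lit 3) (.e (nat_lit 98373) (nat_lit 29) (.e (nat_lit 450587) (nat_lit 10) (.e (nat_lit 573473) (nat_lit 12) .nil))))) (.g (nat_lit 0) (.e (nat_lit 433257) (nat_lit 0) .nil) .nil))) 
(.lf (nat_lit 606725) (.g (nat_lit 2053) (.e (nat_lit 786481) (nat_lit 30) (.e (nat_lit 360486) (nat_lit 18) (.e (nat_lit 671762) (nat_lit 4) (.e (nat_lit 65623) (nat_lit 12) (.e (nat_lit 385105) (nat_lit 50) .nil))))) (.g (nat_lit 0) (.e (nat_lit 434233) (nat_lit 0) .nil) .nil)))) (.nd (nat_lit 9) 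
(.lf (nat_lit 606469) (.g (nat_lit 1481) (.e (nat_lit 786450) (nat_lit 15) (.e (nat_lit 1853) (nat_lit 124) (.e (nat_lit 557108) (nat_lit 15) (.e (nat_lit 188450) (nat_lit 23) .nil)))) (.g (nat_lit 0) (.e (nat_lit 433665) (nat_lit 0) .nil) .nil))) 
(.lf (nat_lit 606981) (.g (nat_lit 2816) (.e (nat_lit 794669) (nat_lit 22) (.e (nat_lit 196668) (nat_lit 14) (.e (nat_lit 73747) (nat_lit 3) (.e (nat_lit 516115) (nat_lit 1) (.e (nat_lit 164149) (nat_lit 152) (.e (nat_lit 974) (nat_lit 81) (.e (nat_lit 1256) (nat_lit 92) (.e (nat_lit 98321) (nat_lit 17) (.e (nat_lit 3771) (nat_lit 229) .nil))))))))) (.g (nat_lit 1) (.e (nat_lit 435933) (nat_lit 0) .nil) .nil))))) 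
(.nd (nat_lit 8) (.nd (nat_lit 9) 
(.lf (nat_lit 606341) (.g (nat_lit 403) (.e (nat_lit 778469) (nat_lit 11) (.e (nat_lit 24660) (nat_lit 13) (.e (nat_lit 393245) (nat_lit 17) .nil))) (.g (nat_lit 0) (.e (nat_lit 433411) (nat_lit 0) .nil) .nil))) 
(.lf (nat_lit 606853) (.g (nat_lit 2695) (.e (nat_lit 802560) (nat_lit 5) (.e (nat_lit 114698) (nat_lit 11) (.e (nat_lit 426335) (nat_lit 13) (.e (nat_lit 483402) (nat_lit 26) (.e (nat_lit 385107) (nat_lit 51) .nil))))) (.g (nat_lit 0) (.e (nat_lit 434786) (nat_lit 0) .nil) .nil)))) (.nd (nat_lit 9) 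
(.lf (nat_lit 606597) (.g (nat_lit 450) (.e (nat_lit 786480) (nat_lit 29) (.e (nat_lit 352318) (nat_lit 24) (.e (nat_lit 123185) (nat_lit 264) .nil))) (.g (nat_lit 0) (.e (nat_lit 434019) (nat_lit 0) .nil) .nil))) 
(.lf (nat_lit 607109) (.g (nat_lit 468) (.e (nat_lit 794673) (nat_lit 23) (.e (nat_lit 204862) (nat_lit 27) (.e (nat_lit 344119) (nat_lit 21) .nil))) (.g (nat_lit 0) (.e (nat_lit 436609) (nat_lit 0) .nil) .nil)))))) (.nd (nat_lit 7) (.nd (nat_lit 8) (.nd (nat_lit 9) 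
(.lf (nat_lit 606277) (.g (nat_lit 2471) (.e (nat_lit 778469) (nat_lit 11) (.e (nat_lit 24628) (nat_lit 9) (.e (nat_lit 336443) (nat_lit 32) (.e (nat_lit 466969) (nat_lit 21) (.e (nat_lit 164330) (nat_lit 230) .nil))))) (.g (nat_lit 0) (.e (nat_lit 433326) (nat_lit 0) .nil) .nil))) 
(.lf (nat_lit 606789) (.g (nat_lit 3331) (.e (nat_lit 786483) (nat_lit 30) (.e (nat_lit 360474) (nat_lit 8) (.e (nat_lit 557091) (nat_lit 12) (.e (nat_lit 164006) (nat_lit 41) (.e (nat_lit 663585) (nat_lit 12) .nil))))) (.g (nat_lit 0) (.e (nat_lit 434414) (nat_lit 0) .nil) .nil)))) (.nd (nat_lit 9) 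
(.lf (nat_lit 606533) (.g (nat_lit 1687) (.e (nat_lit 786473) (nat_lit 27) (.e (nat_lit 336235) (nat_lit 14) (.e (nat_lit 401458) (nat_lit 13) (.e (nat_lit 491264) (nat_lit 23) .nil)))) (.g (nat_lit 0) (.e (nat_lit 433794) (nat_lit 0) .nil) .nil))) 
(.lf (nat_lit 607045) (.g (nat_lit 1752) (.e (nat_lit 794671) (nat_lit 23) (.e (nat_lit 204829) (nat_lit 18) (.e (nat_lit 57927) (nat_lit 282) (.e (nat_lit 163875) (nat_lit 3) .nil)))) (.g (nat_lit 0) (.e (nat_lit 436409) (nat_lit 0) .nil) .nil))))) (.nd (nat_lit 8) (.nd (nat_lit 9) 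
(.lf (nat_lit 606405) (.g (nat_lit 1953) (.e (nat_lit 786176) (nat_lit 11) (.e (nat_lit 24658) (nat_lit 13) (.e (nat_lit 393234) (nat_lit 17) (.e (nat_lit 7591) (nat_lit 407) .nil)))) (.g (nat_lit 0) (.e (nat_lit 433485) (nat_lit 0) .nil) .nil))) 
(.lf (nat_lit 606917) (.g (nat_lit 2468) (.e (nat_lit 794665) (nat_lit 22) (.e (nat_lit 196656) (nat_lit 11) (.e (nat_lit 16436) (nat_lit 9) (.e (nat_lit 426131) (nat_lit 3) (.e (nat_lit 204852) (nat_lit 26) (.e (nat_lit 336258) (nat_lit 15) (.e (nat_lit 3779) (nat_lit 229) .nil))))))) (.g (nat_lit 1) (.e (nat_lit 435239) (nat_lit 0) .nil) .nil)))) (.nd (nat_lit 9) 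
(.lf (nat_lit 606661) (.g (nat_lit 2145) (.e (nat_lit 786481) (nat_lit 30) (.e (nat_lit 360467) (nat_lit 3) (.e (nat_lit 516115) (nat_lit 1) (.e (nat_lit 164149) (nat_lit 152) .nil)))) (.g (nat_lit 0) (.e (nat_lit 434122) (nat_lit 0) .nil) .nil))) 
(.lf (nat_lit 607173) (.g (nat_lit 1914) (.e (nat_lit 794679) (nat_lit 24) (.e (nat_lit 213032) (nat_lit 11) (.e (nat_lit 24576) (nat_lit 0) (.e (nat_lit 6113) (nat_lit 332) (.e (nat_lit 1361) (nat_lit 102) .nil))))) (.g (nat_lit 0) (.e (nat_lit 436725) (nat_lit 0) .nil) .nil))))))) (.nd (nat_lit 6) (.nd (nat_lit 7) (.nd (nat_lit 8) (.nd (nat_lit 9) 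
(.lf (nat_lit 606245) (.g (nat_lit 1996) (.e (nat_lit 778469) (nat_lit 11) (.e (nat_lit 24604) (nat_lit 2) (.e (nat_lit 90185) (nat_lit 17) (.e (nat_lit 237619) (nat_lit 12) (.e (nat_lit 475179) (nat_lit 24) (.e (nat_lit 516102) (nat_lit 0) (.e (nat_lit 3712) (nat_lit 227) .nil))))))) (.g (nat_lit 1) (.e (nat_lit 433290) (nat_lit 0) .nil) .nil))) 
(.lf (nat_lit 606757) (.g (nat_lit 1015) (.e (nat_lit 786483) (nat_lit 30) (.e (nat_lit 360451) (nat_lit 0) (.e (nat_lit 5896) (nat_lit 320) (.e (nat_lit 1086) (nat_lit 81) .nil)))) (.g (nat_lit 0) (.e (nat_lit 434275) (nat_lit 0) .nil) .nil)))) (.nd (nat_lit 9) 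
(.lf (nat_lit 606501) (.g (nat_lit 1569) (.e (nat_lit 786470) (nat_lit 27) (.e (nat_lit 336226) (nat_lit 14) (.e (nat_lit 401457) (nat_lit 13) (.e (nat_lit 483405) (nat_lit 26) .nil)))) (.g (nat_lit 0) (.e (nat_lit 433746) (nat_lit 0) .nil) .nil))) 
(.lf (nat_lit 607013) (.g (nat_lit 2293) (.e (nat_lit 794669) (nat_lit 22) (.e (nat_lit 196668) (nat_lit 14) (.e (nat_lit 73747) (nat_lit 3) (.e (nat_lit 516120) (nat_lit 1) (.e (nat_lit 164159) (nat_lit 152) .nil))))) (.g (nat_lit 0) (.e (nat_lit 436154) (nat_lit 0) .nil) .nil))))) (.nd (nat_lit 8) (.nd (nat_lit 9) 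
(.lf (nat_lit 606373) (.g (nat_lit 1167) (.e (nat_lit 786176) (nat_lit 11) (.e (nat_lit 24604) (nat_lit 2) (.e (nat_lit 90176) (nat_lit 15) (.e (nat_lit 188439) (nat_lit 20) .nil)))) (.g (nat_lit 0) (.e (nat_lit 433447) (nat_lit 0) .nil) .nil))) 
(.lf (nat_lit 606885) (.g (nat_lit 535) (.e (nat_lit 794636) (nat_lit 11) (.e (nat_lit 336088) (nat_lit 9) (.e (nat_lit 335878) (nat_lit 0) .nil))) (.g (nat_lit 0) (.e (nat_lit 434821) (nat_lit 0) .nil) .nil)))) (.nd (nat_lit 9) 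
(.lf (nat_lit 606629) (.g (nat_lit 2557) (.e (nat_lit 786481) (nat_lit 30) (.e (nat_lit 360457) (nat_lit 0) (.e (nat_lit 5949) (nat_lit 322) (.e (nat_lit 57435) (nat_lit 17) (.e (nat_lit 376835) (nat_lit 0) (.e (nat_lit 3748) (nat_lit 228) .nil)))))) (.g (nat_lit 1) (.e (nat_lit 434073) (nat_lit 0) .nil) .nil))) 
(.lf (nat_lit 607141) (.g (nat_lit 1946) (.e (nat_lit 794673) (nat_lit 23) (.e (nat_lit 204863) (nat_lit 27) (.e (nat_lit 344120) (nat_lit 21) (.e (nat_lit 516115) (nat_lit 1) (.e (nat_lit 164183) (nat_lit 154) .nil))))) (.g (nat_lit 0) (.e (nat_lit 436668) (nat_lit 0) .nil) .nil)))))) (.nd (nat_lit 7) (.nd (nat_lit 8) (.nd (nat_lit 9) 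
(.lf (nat_lit 606309) (.g (nat_lit 1635) (.e (nat_lit 778469) (nat_lit 11) (.e (nat_lit 24657) (nat_lit 13) (.e (nat_lit 393294) (nat_lit 26) (.e (nat_lit 475213) (nat_lit 42) .nil)))) (.g (nat_lit 0) (.e (nat_lit 433371) (nat_lit 0) .nil) .nil))) 
(.lf (nat_lit 606821) (.g (nat_lit 1609) (.e (nat_lit 786483) (nat_lit 30) (.e (nat_lit 360483) (nat_lit 15) (.e (nat_lit 647203) (nat_lit 14) (.e (nat_lit 1359) (nat_lit 102) (.e (nat_lit 286758) (nat_lit 12) .nil))))) (.g (nat_lit 0) (.e (nat_lit 434723) (nat_lit 0) .nil) .nil)))) (.nd (nat_lit 9) 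
(.lf (nat_lit 606565) (.g (nat_lit 1126) (.e (nat_lit 786479) (nat_lit 29) (.e (nat_lit 352315) (nat_lit 23) (.e (nat_lit 98321) (nat_lit 17) (.e (nat_lit 7936) (nat_lit 216) .nil)))) (.g (nat_lit 0) (.e (nat_lit 433955) (nat_lit 0) .nil) .nil))) 
(.lf (nat_lit 607077) (.g (nat_lit 2252) (.e (nat_lit 794673) (nat_lit 23) (.e (nat_lit 204831) (nat_lit 18) (.e (nat_lit 57852) (nat_lit 252) (.e (nat_lit 57378) (nat_lit 3) (.e (nat_lit 98313) (nat_lit 9) .nil))))) (.g (nat_lit 0) (.e (nat_lit 436529) (nat_lit 0) .nil) .nil))))) (.nd (nat_lit 8) (.nd (nat_lit 9) 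
(.lf (nat_lit 606437) (.g (nat_lit 1918) (.e (nat_lit 778512) (nat_lit 14) (.e (nat_lit 2797) (nat_lit 180) (.e (nat_lit 303127) (nat_lit 9) (.e (nat_lit 426428) (nat_lit 17) .nil)))) (.g (nat_lit 0) (.e (nat_lit 433543) (nat_lit 0) .nil) .nil))) 
(.lf (nat_lit 606949) (.g (nat_lit 2105) (.e (nat_lit 794668) (nat_lit 22) (.e (nat_lit 196666) (nat_lit 13) (.e (nat_lit 65571) (nat_lit 3) (.e (nat_lit 98335) (nat_lit 18) .nil)))) (.g (nat_lit 0) (.e (nat_lit 435799) (nat_lit 0) .nil) .nil)))) (.nd (nat_lit 9) 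
(.lf (nat_lit 606693) (.g (nat_lit 386) (.e (nat_lit 786481) (nat_lit 30) (.e (nat_lit 360473) (nat_lit 8) (.e (nat_lit 557091) (nat_lit 12) .nil))) (.g (nat_lit 0) (.e (nat_lit 434185) (nat_lit 0) .nil) .nil))) 
(.lf (nat_lit 607205) (.g (nat_lit 2007) (.e (nat_lit 794683) (nat_lit 25) (.e (nat_lit 221215) (nat_lit 23) (.e (nat_lit 204883) (nat_lit 33) (.e (nat_lit 401459) (nat_lit 13) (.e (nat_lit 483347) (nat_lit 17) (.e (nat_lit 7936) (nat_lit 153) .nil)))))) (.g (nat_lit 1) (.e (nat_lit 436862) (nat_lit 0) .nil) .nil)))))))) 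
(.nd (nat_lit 5) (.nd (nat_lit 6) (.nd (nat_lit 7) (.nd (nat_lit 8) (.nd (nat_lit 9) 
(.lf (nat_lit 606229) (.g (nat_lit 2082) (.e (nat_lit 778468) (nat_lit 11) (.e (nat_lit 24658) (nat_lit 13) (.e (nat_lit 393281) (nat_lit 23) (.e (nat_lit 426100) (nat_lit 1) (.e (nat_lit 164305) (nat_lit 226) .nil))))) (.g (nat_lit 0) (.e (nat_lit 433274) (nat_lit 0) .nil) .nil))) 
(.lf (nat_lit 606741) (.g (nat_lit 606) (.e (nat_lit 786482) (nat_lit 30) (.e (nat_lit 360475) (nat_lit 8) (.e (nat_lit 557090) (nat_lit 12) .nil))) (.g (nat_lit 0) (.e (nat_lit 434253) (nat_lit 0) .nil) .nil)))) (.nd (nat_lit 9) 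
(.lf (nat_lit 606485) (.g (nat_lit 831) (.e (nat_lit 786467) (nat_lit 27) (.e (nat_lit 336060) (nat_lit 7) (.e (nat_lit 319505) (nat_lit 10) (.e (nat_lit 7936) (nat_lit 314) .nil)))) (.g (nat_lit 0) (.e (nat_lit 433720) (nat_lit 0) .nil) .nil))) 
(.lf (nat_lit 606997) (.g (nat_lit 2114) (.e (nat_lit 794669) (nat_lit 22) (.e (nat_lit 196668) (nat_lit 14) (.e (nat_lit 73747) (nat_lit 3) (.e (nat_lit 516117) (nat_lit 1) (.e (nat_lit 164157) (nat_lit 152) (.e (nat_lit 1027) (nat_lit 81) (.e (nat_lit 1255) (nat_lit 92) (.e (nat_lit 98321) (nat_lit 17) (.e (nat_lit 3771) (nat_lit 229) .nil))))))))) (.g (nat_lit 1) (.e (nat_lit 436029) (nat_lit 0) .nil) .nil))))) 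
(.nd (nat_lit 8) (.nd (nat_lit 9) 
(.lf (nat_lit 606357) (.g (nat_lit 1602) (.e (nat_lit 778470) (nat_lit 11) (.e (nat_lit 24628) (nat_lit 9) (.e (nat_lit 336443) (nat_lit 32) (.e (nat_lit 466969) (nat_lit 21) .nil)))) (.g (nat_lit 0) (.e (nat_lit 433428) (nat_lit 0) .nil) .nil))) 
(.lf (nat_lit 606869) (.g (nat_lit 1037) (.e (nat_lit 794635) (nat_lit 11) (.e (nat_lit 336121) (nat_lit 9) (.e (nat_lit 336437) (nat_lit 31) (.e (nat_lit 458769) (nat_lit 16) (.e (nat_lit 164292) (nat_lit 224) (.e (nat_lit 164112) (nat_lit 118) .nil)))))) (.g (nat_lit 1) (.e (nat_lit 434805) (nat_lit 0) .nil) .nil)))) (.nd (nat_lit 9) 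
(.lf (nat_lit 606613) (.g (nat_lit 1728) (.e (nat_lit 786481) (nat_lit 30) (.e (nat_lit 360452) (nat_lit 0) (.e (nat_lit 5906) (nat_lit 320) (.e (nat_lit 1219) (nat_lit 90) (.e (nat_lit 81924) (nat_lit 0) .nil))))) (.g (nat_lit 0) (.e (nat_lit 434043) (nat_lit 0) .nil) .nil))) 
(.lf (nat_lit 607125) (.g (nat_lit 2702) (.e (nat_lit 794673) (nat_lit 23) (.e (nat_lit 204863) (nat_lit 27) (.e (nat_lit 344117) (nat_lit 21) (.e (nat_lit 516116) (nat_lit 1) (.e (nat_lit 164182) (nat_lit 154) .nil))))) (.g (nat_lit 0) (.e (nat_lit 436642) (nat_lit 0) .nil) .nil)))))) (.nd (nat_lit 7) (.nd (nat_lit 8) (.nd (nat_lit 9) 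
(.lf (nat_lit 606293) (.g (nat_lit 1027) (.e (nat_lit 778469) (nat_lit 11) (.e (nat_lit 24654) (nat_lit 13) (.e (nat_lit 393301) (nat_lit 27) (.e (nat_lit 491560) (nat_lit 10) .nil)))) (.g (nat_lit 0) (.e (nat_lit 433348) (nat_lit 0) .nil) .nil))) 
(.lf (nat_lit 606805) (.g (nat_lit 592) (.e (nat_lit 786483) (nat_lit 30) (.e (nat_lit 360475) (nat_lit 8) (.e (nat_lit 557091) (nat_lit 12) .nil))) (.g (nat_lit 0) (.e (nat_lit 434582) (nat_lit 0) .nil) .nil)))) (.nd (nat_lit 9) 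
(.lf (nat_lit 606549) (.g (nat_lit 2830) (.e (nat_lit 786477) (nat_lit 28) (.e (nat_lit 344177) (nat_lit 43) (.e (nat_lit 770072) (nat_lit 8) (.e (nat_lit 65571) (nat_lit 3) (.e (nat_lit 98342) (nat_lit 20) (.e (nat_lit 221204) (nat_lit 20) (.e (nat_lit 3745) (nat_lit 228) .nil))))))) (.g (nat_lit 1) (.e (nat_lit 433922) (nat_lit 0) .nil) .nil))) 
(.lf (nat_lit 607061) (.g (nat_lit 997) (.e (nat_lit 794673) (nat_lit 23) (.e (nat_lit 204829) (nat_lit 18) (.e (nat_lit 57931) (nat_lit 282) .nil))) (.g (nat_lit 0) (.e (nat_lit 436501) (nat_lit 0) .nil) .nil))))) (.nd (nat_lit 8) (.nd (nat_lit 9) 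
(.lf (nat_lit 606421) (.g (nat_lit 2507) (.e (nat_lit 786176) (nat_lit 11) (.e (nat_lit 24660) (nat_lit 13) (.e (nat_lit 393260) (nat_lit 21) (.e (nat_lit 409620) (nat_lit 10) .nil)))) (.g (nat_lit 0) (.e (nat_lit 433501) (nat_lit 0) .nil) .nil))) 
(.lf (nat_lit 606933) (.g (nat_lit 428) (.e (nat_lit 794667) (nat_lit 22) (.e (nat_lit 196668) (nat_lit 14) (.e (nat_lit 73747) (nat_lit 3) .nil))) (.g (nat_lit 0) (.e (nat_lit 435645) (nat_lit 0) .nil) .nil)))) (.nd (nat_lit 9) 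
(.lf (nat_lit 606677) (.g (nat_lit 1708) (.e (nat_lit 786481) (nat_lit 30) (.e (nat_lit 360473) (nat_lit 8) (.e (nat_lit 557089) (nat_lit 12) (.e (nat_lit 163999) (nat_lit 38) (.e (nat_lit 639022) (nat_lit 17) .nil))))) (.g (nat_lit 0) (.e (nat_lit 434149) (nat_lit 0) .nil) .nil))) 
(.lf (nat_lit 607189) (.g (nat_lit 1055) (.e (nat_lit 794682) (nat_lit 25) (.e (nat_lit 221194) (nat_lit 11) (.e (nat_lit 336231) (nat_lit 14) .nil))) (.g (nat_lit 0) (.e (nat_lit 436753) (nat_lit 0) .nil) .nil))))))) (.nd (nat_lit 6) (.nd (nat_lit 7) (.nd (nat_lit 8) (.nd (nat_lit 9) 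
(.lf (nat_lit 606261) (.g (nat_lit 2122) (.e (nat_lit 778469) (nat_lit 11) (.e (nat_lit 24608) (nat_lit 3) (.e (nat_lit 98373) (nat_lit 29) (.e (nat_lit 450585) (nat_lit 10) .nil)))) (.g (nat_lit 0) (.e (nat_lit 433307) (nat_lit 0) .nil) .nil))) 
(.lf (nat_lit 606773) (.g (nat_lit 2025) (.e (nat_lit 786483) (nat_lit 30) (.e (nat_lit 360453) (nat_lit 0) (.e (nat_lit 5907) (nat_lit 320) (.e (nat_lit 1221) (nat_lit 90) (.e (nat_lit 89856) (nat_lit 0) .nil))))) (.g (nat_lit 0) (.e (nat_lit 434303) (nat_lit 0) .nil) .nil)))) (.nd (nat_lit 9) 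
(.lf (nat_lit 606517) (.g (nat_lit 2440) (.e (nat_lit 786473) (nat_lit 27) (.e (nat_lit 336235) (nat_lit 14) (.e (nat_lit 401435) (nat_lit 9) (.e (nat_lit 426542) (nat_lit 29) (.e (nat_lit 352267) (nat_lit 0) (.e (nat_lit 3747) (nat_lit 228) .nil)))))) (.g (nat_lit 1) (.e (nat_lit 433777) (nat_lit 0) .nil) .nil))) 
(.lf (nat_lit 607029) (.g (nat_lit 2278) (.e (nat_lit 794669) (nat_lit 22) (.e (nat_lit 196670) (nat_lit 14) (.e (nat_lit 73746) (nat_lit 3) (.e (nat_lit 516119) (nat_lit 1) (.e (nat_lit 164147) (nat_lit 152) .nil))))) (.g (nat_lit 0) (.e (nat_lit 436286) (nat_lit 0) .nil) .nil))))) (.nd (nat_lit 8) (.nd (nat_lit 9) 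
(.lf (nat_lit 606389) (.g (nat_lit 3466) (.e (nat_lit 786176) (nat_lit 11) (.e (nat_lit 24608) (nat_lit 3) (.e (nat_lit 98373) (nat_lit 29) (.e (nat_lit 450587) (nat_lit 10) (.e (nat_lit 573477) (nat_lit 12) .nil))))) (.g (nat_lit 0) (.e (nat_lit 433463) (nat_lit 0) .nil) .nil))) 
(.lf (nat_lit 606901) (.g (nat_lit 530) (.e (nat_lit 794658) (nat_lit 21) (.e (nat_lit 164399) (nat_lit 256) (.e (nat_lit 57435) (nat_lit 17) .nil))) (.g (nat_lit 0) (.e (nat_lit 434962) (nat_lit 0) .nil) .nil)))) (.nd (nat_lit 9) 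
(.lf (nat_lit 606645) (.g (nat_lit 1455) (.e (nat_lit 786481) (nat_lit 30) (.e (nat_lit 360466) (nat_lit 3) (.e (nat_lit 516117) (nat_lit 1) (.e (nat_lit 164184) (nat_lit 155) (.e (nat_lit 122912) (nat_lit 13) .nil))))) (.g (nat_lit 0) (.e (nat_lit 434100) (nat_lit 0) .nil) .nil))) 
(.lf (nat_lit 607157) (.g (nat_lit 2570) (.e (nat_lit 794676) (nat_lit 24) (.e (nat_lit 213030) (nat_lit 11) (.e (nat_lit 24617) (nat_lit 7) (.e (nat_lit 319535) (nat_lit 17) (.e (nat_lit 294953) (nat_lit 12) .nil))))) (.g (nat_lit 0) (.e (nat_lit 436702) (nat_lit 0) .nil) .nil)))))) (.nd (nat_lit 7) (.nd (nat_lit 8) (.nd (nat_lit 9) 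
(.lf (nat_lit 606325) (.g (nat_lit 1799) (.e (nat_lit 778469) (nat_lit 11) (.e (nat_lit 24658) (nat_lit 13) (.e (nat_lit 393300) (nat_lit 27) (.e (nat_lit 491558) (nat_lit 10) (.e (nat_lit 352000) (nat_lit 44) .nil))))) (.g (nat_lit 0) (.e (nat_lit 433395) (nat_lit 0) .nil) .nil))) 
(.lf (nat_lit 606837) (.g (nat_lit 441) (.e (nat_lit 802560) (nat_lit 4) (.e (nat_lit 106536) (nat_lit 11) (.e (nat_lit 16462) (nat_lit 13) .nil))) (.g (nat_lit 0) (.e (nat_lit 434753) (nat_lit 0) .nil) .nil)))) (.nd (nat_lit 9) 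
(.lf (nat_lit 606581) (.g (nat_lit 1661) (.e (nat_lit 786480) (nat_lit 29) (.e (nat_lit 352309) (nat_lit 21) (.e (nat_lit 57873) (nat_lit 264) (.e (nat_lit 1219) (nat_lit 90) .nil)))) (.g (nat_lit 0) (.e (nat_lit 433986) (nat_lit 0) .nil) .nil))) 
(.lf (nat_lit 607093) (.g (nat_lit 3538) (.e (nat_lit 794673) (nat_lit 23) (.e (nat_lit 204862) (nat_lit 27) (.e (nat_lit 344117) (nat_lit 21) (.e (nat_lit 516115) (nat_lit 1) (.e (nat_lit 164179) (nat_lit 154) (.e (nat_lit 57377) (nat_lit 3) (.e (nat_lit 98321) (nat_lit 17) (.e (nat_lit 3771) (nat_lit 229) .nil)))))))) (.g (nat_lit 1) (.e (nat_lit 436579) (nat_lit 0) .nil) .nil))))) 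
(.nd (nat_lit 8) (.nd (nat_lit 9) 
(.lf (nat_lit 606453) (.g (nat_lit 3317) (.e (nat_lit 794368) (nat_lit 14) (.e (nat_lit 491569) (nat_lit 13) (.e (nat_lit 393301) (nat_lit 27) (.e (nat_lit 491559) (nat_lit 10) (.e (nat_lit 352000) (nat_lit 45) .nil))))) (.g (nat_lit 0) (.e (nat_lit 433628) (nat_lit 0) .nil) .nil))) 
(.lf (nat_lit 606965) (.g (nat_lit 1826) (.e (nat_lit 794669) (nat_lit 22) (.e (nat_lit 196668) (nat_lit 14) (.e (nat_lit 73746) (nat_lit 3) (.e (nat_lit 516117) (nat_lit 1) (.e (nat_lit 164147) (nat_lit 152) .nil))))) (.g (nat_lit 0) (.e (nat_lit 435876) (nat_lit 0) .nil) .nil)))) (.nd (nat_lit 9) 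
(.lf (nat_lit 606709) (.g (nat_lit 451) (.e (nat_lit 786481) (nat_lit 30) (.e (nat_lit 360473) (nat_lit 8) (.e (nat_lit 557093) (nat_lit 12) .nil))) (.g (nat_lit 0) (.e (nat_lit 434210) (nat_lit 0) .nil) .nil))) 
(.lf (nat_lit 607221) (.g (nat_lit 3228) (.e (nat_lit 794689) (nat_lit 28) (.e (nat_lit 253991) (nat_lit 11) (.e (nat_lit 16473) (nat_lit 14) (.e (nat_lit 491560) (nat_lit 10) (.e (nat_lit 344160) (nat_lit 37) .nil))))) (.g (nat_lit 0) (.e (nat_lit 437004) (nat_lit 0) .nil) .nil))))))))) (.nd (nat_lit 4) (.nd (nat_lit 5) (.nd (nat_lit 6) (.nd (nat_lit 7) (.nd (nat_lit 8) (.nd (nat_lit 9) 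
(.lf (nat_lit 606221) (.g (nat_lit 2352) (.e (nat_lit 778468) (nat_lit 11) (.e (nat_lit 24617) (nat_lit 7) (.e (nat_lit 319534) (nat_lit 16) (.e (nat_lit 286756) (nat_lit 10) (.e (nat_lit 344168) (nat_lit 40) .nil))))) (.g (nat_lit 0) (.e (nat_lit 433265) (nat_lit 0) .nil) .nil))) 
(.lf (nat_lit 606733) (.g (nat_lit 1717) (.e (nat_lit 786482) (nat_lit 30) (.e (nat_lit 360474) (nat_lit 8) (.e (nat_lit 557091) (nat_lit 12) (.e (nat_lit 163999) (nat_lit 38) .nil)))) (.g (nat_lit 0) (.e (nat_lit 434245) (nat_lit 0) .nil) .nil)))) (.nd (nat_lit 9) 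
(.lf (nat_lit 606477) (.g (nat_lit 1184) (.e (nat_lit 786457) (nat_lit 18) (.e (nat_lit 98365) (nat_lit 26) (.e (nat_lit 426325) (nat_lit 13) (.e (nat_lit 483370) (nat_lit 20) (.e (nat_lit 147498) (nat_lit 12) (.e (nat_lit 164058) (nat_lit 56) .nil)))))) (.g (nat_lit 1) (.e (nat_lit 433673) (nat_lit 0) .nil) .nil))) 
(.lf (nat_lit 606989) (.g (nat_lit 2451) (.e (nat_lit 794669) (nat_lit 22) (.e (nat_lit 196668) (nat_lit 14) (.e (nat_lit 73747) (nat_lit 3) (.e (nat_lit 516115) (nat_lit 1) (.e (nat_lit 164160) (nat_lit 152) .nil))))) (.g (nat_lit 0) (.e (nat_lit 435943) (nat_lit 0) .nil) .nil))))) (.nd (nat_lit 8) (.nd (nat_lit 9) 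
(.lf (nat_lit 606349) (.g (nat_lit 2003) (.e (nat_lit 778469) (nat_lit 11) (.e (nat_lit 24660) (nat_lit 13) (.e (nat_lit 393299) (nat_lit 27) (.e (nat_lit 491558) (nat_lit 10) (.e (nat_lit 352000) (nat_lit 44) .nil))))) (.g (nat_lit 1) (.e (nat_lit 433420) (nat_lit 0) .nil) .nil))) 
(.lf (nat_lit 606861) (.g (nat_lit 1072) (.e (nat_lit 794635) (nat_lit 11) (.e (nat_lit 336119) (nat_lit 9) (.e (nat_lit 336437) (nat_lit 31) (.e (nat_lit 458769) (nat_lit 16) (.e (nat_lit 164289) (nat_lit 224) (.e (nat_lit 164112) (nat_lit 118) .nil)))))) (.g (nat_lit 1) (.e (nat_lit 434797) (nat_lit 0) .nil) .nil)))) (.nd (nat_lit 9) 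
(.lf (nat_lit 606605) (.g (nat_lit 1966) (.e (nat_lit 786480) (nat_lit 29) (.e (nat_lit 352318) (nat_lit 24) (.e (nat_lit 123196) (nat_lit 266) (.e (nat_lit 57423) (nat_lit 14) (.e (nat_lit 352262) (nat_lit 0) (.e (nat_lit 3748) (nat_lit 228) .nil)))))) (.g (nat_lit 1) (.e (nat_lit 434028) (nat_lit 0) .nil) .nil))) 
(.lf (nat_lit 607117) (.g (nat_lit 1465) (.e (nat_lit 794673) (nat_lit 23) (.e (nat_lit 204863) (nat_lit 27) (.e (nat_lit 344117) (nat_lit 21) (.e (nat_lit 516116) (nat_lit 1) .nil)))) (.g (nat_lit 0) (.e (nat_lit 436632) (nat_lit 0) .nil) .nil)))))) (.nd (nat_lit 7) (.nd (nat_lit 8) (.nd (nat_lit 9) 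
(.lf (nat_lit 606285) (.g (nat_lit 2597) (.e (nat_lit 778469) (nat_lit 11) (.e (nat_lit 24628) (nat_lit 9) (.e (nat_lit 336443) (nat_lit 32) (.e (nat_lit 466972) (nat_lit 21) (.e (nat_lit 164329) (nat_lit 230) (.e (nat_lit 163850) (nat_lit 0) (.e (nat_lit 3711) (nat_lit 227) .nil))))))) (.g (nat_lit 1) (.e (nat_lit 433334) (nat_lit 0) .nil) .nil))) 
(.lf (nat_lit 606797) (.g (nat_lit 3329) (.e (nat_lit 786483) (nat_lit 30) (.e (nat_lit 360475) (nat_lit 8) (.e (nat_lit 557090) (nat_lit 12) (.e (nat_lit 164000) (nat_lit 38) (.e (nat_lit 639021) (nat_lit 16) .nil))))) (.g (nat_lit 0) (.e (nat_lit 434561) (nat_lit 0) .nil) .nil)))) (.nd (nat_lit 9) 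
(.lf (nat_lit 606541) (.g (nat_lit 2600) (.e (nat_lit 786477) (nat_lit 28) (.e (nat_lit 344177) (nat_lit 43) (.e (nat_lit 770072) (nat_lit 8) (.e (nat_lit 65571) (nat_lit 3) (.e (nat_lit 98338) (nat_lit 19) .nil))))) (.g (nat_lit 0) (.e (nat_lit 433913) (nat_lit 0) .nil) .nil))) 
(.lf (nat_lit 607053) (.g (nat_lit 4476) (.e (nat_lit 794673) (nat_lit 23) (.e (nat_lit 204829) (nat_lit 18) (.e (nat_lit 57849) (nat_lit 252) (.e (nat_lit 57372) (nat_lit 2) (.e (nat_lit 90158) (nat_lit 11) (.e (nat_lit 24608) (nat_lit 3) (.e (nat_lit 98321) (nat_lit 17) (.e (nat_lit 3771) (nat_lit 229) .nil)))))))) (.g (nat_lit 1) (.e (nat_lit 436483) (nat_lit 0) .nil) .nil))))) 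
(.nd (nat_lit 8) (.nd (nat_lit 9) 
(.lf (nat_lit 606413) (.g (nat_lit 3223) (.e (nat_lit 786176) (nat_lit 11) (.e (nat_lit 24658) (nat_lit 13) (.e (nat_lit 393301) (nat_lit 27) (.e (nat_lit 491558) (nat_lit 10) (.e (nat_lit 352000) (nat_lit 44) .nil))))) (.g (nat_lit 0) (.e (nat_lit 433493) (nat_lit 0) .nil) .nil))) 
(.lf (nat_lit 606925) (.g (nat_lit 1499) (.e (nat_lit 794666) (nat_lit 22) (.e (nat_lit 196656) (nat_lit 11) (.e (nat_lit 16448) (nat_lit 10) (.e (nat_lit 434232) (nat_lit 23) .nil)))) (.g (nat_lit 0) (.e (nat_lit 435382) (nat_lit 0) .nil) .nil)))) (.nd (nat_lit 9) 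
(.lf (nat_lit 606669) (.g (nat_lit 1785) (.e (nat_lit 786481) (nat_lit 30) (.e (nat_lit 360467) (nat_lit 3) (.e (nat_lit 516117) (nat_lit 1) (.e (nat_lit 164161) (nat_lit 152) (.e (nat_lit 7936) (nat_lit 89) .nil))))) (.g (nat_lit 0) (.e (nat_lit 434131) (nat_lit 0) .nil) .nil))) 
(.lf (nat_lit 607181) (.g (nat_lit 2165) (.e (nat_lit 794680) (nat_lit 24) (.e (nat_lit 213032) (nat_lit 11) (.e (nat_lit 24576) (nat_lit 0) (.e (nat_lit 6113) (nat_lit 332) (.e (nat_lit 1361) (nat_lit 102) .nil))))) (.g (nat_lit 0) (.e (nat_lit 436737) (nat_lit 0) .nil) .nil))))))) (.nd (nat_lit 6) (.nd (nat_lit 7) (.nd (nat_lit 8) (.nd (nat_lit 9) 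
(.lf (nat_lit 606253) (.g (nat_lit 2325) (.e (nat_lit 778469) (nat_lit 11) (.e (nat_lit 24608) (nat_lit 3) (.e (nat_lit 98365) (nat_lit 26) (.e (nat_lit 426188) (nat_lit 9) (.e (nat_lit 426438) (nat_lit 18) .nil))))) (.g (nat_lit 0) (.e (nat_lit 433298) (nat_lit 0) .nil) .nil))) 
(.lf (nat_lit 606765) (.g (nat_lit 1792) (.e (nat_lit 786483) (nat_lit 30) (.e (nat_lit 360452) (nat_lit 0) (.e (nat_lit 5907) (nat_lit 320) (.e (nat_lit 1219) (nat_lit 90) (.e (nat_lit 81922) (nat_lit 0) .nil))))) (.g (nat_lit 0) (.e (nat_lit 434294) (nat_lit 0) .nil) .nil)))) (.nd (nat_lit 9) 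
(.lf (nat_lit 606509) (.g (nat_lit 1599) (.e (nat_lit 786473) (nat_lit 27) (.e (nat_lit 336051) (nat_lit 6) (.e (nat_lit 147466) (nat_lit 9) (.e (nat_lit 2706) (nat_lit 170) .nil)))) (.g (nat_lit 0) (.e (nat_lit 433768) (nat_lit 0) .nil) .nil))) 
(.lf (nat_lit 607021) (.g (nat_lit 2716) (.e (nat_lit 794669) (nat_lit 22) (.e (nat_lit 196670) (nat_lit 14) (.e (nat_lit 73746) (nat_lit 3) (.e (nat_lit 516115) (nat_lit 1) (.e (nat_lit 164161) (nat_lit 152) .nil))))) (.g (nat_lit 0) (.e (nat_lit 436221) (nat_lit 0) .nil) .nil))))) (.nd (nat_lit 8) (.nd (nat_lit 9) 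
(.lf (nat_lit 606381) (.g (nat_lit 2224) (.e (nat_lit 786176) (nat_lit 11) (.e (nat_lit 24608) (nat_lit 3) (.e (nat_lit 98372) (nat_lit 29) (.e (nat_lit 450586) (nat_lit 10) .nil)))) (.g (nat_lit 0) (.e (nat_lit 433455) (nat_lit 0) .nil) .nil))) 
(.lf (nat_lit 606893) (.g (nat_lit 513) (.e (nat_lit 794655) (nat_lit 20) (.e (nat_lit 3747) (nat_lit 228) (.e (nat_lit 786473) (nat_lit 27) .nil))) (.g (nat_lit 0) (.e (nat_lit 434837) (nat_lit 0) .nil) .nil)))) (.nd (nat_lit 9) 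
(.lf (nat_lit 606637) (.g (nat_lit 1501) (.e (nat_lit 786481) (nat_lit 30) (.e (nat_lit 360466) (nat_lit 3) (.e (nat_lit 516117) (nat_lit 1) (.e (nat_lit 164159) (nat_lit 152) (.e (nat_lit 1296) (nat_lit 96) .nil))))) (.g (nat_lit 0) (.e (nat_lit 434088) (nat_lit 0) .nil) .nil))) 
(.lf (nat_lit 607149) (.g (nat_lit 2242) (.e (nat_lit 794674) (nat_lit 24) (.e (nat_lit 213030) (nat_lit 11) (.e (nat_lit 24617) (nat_lit 7) (.e (nat_lit 319528) (nat_lit 16) (.e (nat_lit 286759) (nat_lit 12) .nil))))) (.g (nat_lit 0) (.e (nat_lit 436692) (nat_lit 0) .nil) .nil)))))) (.nd (nat_lit 7) (.nd (nat_lit 8) (.nd (nat_lit 9) 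
(.lf (nat_lit 606317) (.g (nat_lit 2293) (.e (nat_lit 778469) (nat_lit 11) (.e (nat_lit 24658) (nat_lit 13) (.e (nat_lit 393234) (nat_lit 17) (.e (nat_lit 7591) (nat_lit 407) (.e (nat_lit 73774) (nat_lit 26) .nil))))) (.g (nat_lit 1) (.e (nat_lit 433385) (nat_lit 0) .nil) .nil))) 
(.lf (nat_lit 606829) (.g (nat_lit 404) (.e (nat_lit 802560) (nat_lit 1) (.e (nat_lit 57927) (nat_lit 282) (.e (nat_lit 163886) (nat_lit 5) .nil))) (.g (nat_lit 0) (.e (nat_lit 434745) (nat_lit 0) .nil) .nil)))) (.nd (nat_lit 9) 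
(.lf (nat_lit 606573) (.g (nat_lit 363) (.e (nat_lit 786480) (nat_lit 29) (.e (nat_lit 352309) (nat_lit 21) (.e (nat_lit 57871) (nat_lit 264) .nil))) (.g (nat_lit 0) (.e (nat_lit 433970) (nat_lit 0) .nil) .nil))) 
(.lf (nat_lit 607085) (.g (nat_lit 2828) (.e (nat_lit 794673) (nat_lit 23) (.e (nat_lit 204852) (nat_lit 26) (.e (nat_lit 336326) (nat_lit 18) (.e (nat_lit 204830) (nat_lit 18) (.e (nat_lit 57830) (nat_lit 250) (.e (nat_lit 1183) (nat_lit 87) (.e (nat_lit 57466) (nat_lit 23) (.e (nat_lit 516100) (nat_lit 0) (.e (nat_lit 3771) (nat_lit 229) .nil))))))))) (.g (nat_lit 1) (.e (nat_lit 436556) (nat_lit 0) .nil) .nil))))) 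
(.nd (nat_lit 8) (.nd (nat_lit 9) 
(.lf (nat_lit 606445) (.g (nat_lit 823) (.e (nat_lit 794368) (nat_lit 3) (.e (nat_lit 204885) (nat_lit 33) (.e (nat_lit 401448) (nat_lit 10) (.e (nat_lit 434231) (nat_lit 23) .nil)))) (.g (nat_lit 0) (.e (nat_lit 433594) (nat_lit 0) .nil) .nil))) 
(.lf (nat_lit 606957) (.g (nat_lit 2031) (.e (nat_lit 794669) (nat_lit 22) (.e (nat_lit 196656) (nat_lit 11) (.e (nat_lit 16448) (nat_lit 10) (.e (nat_lit 434231) (nat_lit 23) (.e (nat_lit 532563) (nat_lit 15) .nil))))) (.g (nat_lit 0) (.e (nat_lit 435847) (nat_lit 0) .nil) .nil)))) (.nd (nat_lit 9) 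
(.lf (nat_lit 606701) (.g (nat_lit 3130) (.e (nat_lit 786481) (nat_lit 30) (.e (nat_lit 360473) (nat_lit 8) (.e (nat_lit 557091) (nat_lit 12) (.e (nat_lit 163999) (nat_lit 38) (.e (nat_lit 639022) (nat_lit 17) (.e (nat_lit 81664) (nat_lit 27) .nil)))))) (.g (nat_lit 1) (.e (nat_lit 434195) (nat_lit 0) .nil) .nil))) 
(.lf (nat_lit 607213) (.g (nat_lit 2562) (.e (nat_lit 794684) (nat_lit 25) (.e (nat_lit 221215) (nat_lit 23) (.e (nat_lit 204883) (nat_lit 33) (.e (nat_lit 401458) (nat_lit 13) (.e (nat_lit 483350) (nat_lit 17) (.e (nat_lit 7936) (nat_lit 153) .nil)))))) (.g (nat_lit 1) (.e (nat_lit 436993) (nat_lit 0) .nil) .nil)))))))) 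
(.nd (nat_lit 5) (.nd (nat_lit 6) (.nd (nat_lit 7) (.nd (nat_lit 8) (.nd (nat_lit 9) 
(.lf (nat_lit 606237) (.g (nat_lit 4124) (.e (nat_lit 778469) (nat_lit 11) (.e (nat_lit 24604) (nat_lit 2) (.e (nat_lit 90170) (nat_lit 13) (.e (nat_lit 172113) (nat_lit 10) (.e (nat_lit 434248) (nat_lit 28) .nil))))) (.g (nat_lit 0) (.e (nat_lit 433282) (nat_lit 0) .nil) .nil))) 
(.lf (nat_lit 606749) (.g (nat_lit 2699) (.e (nat_lit 786482) (nat_lit 30) (.e (nat_lit 360475) (nat_lit 8) (.e (nat_lit 557091) (nat_lit 12) (.e (nat_lit 164009) (nat_lit 41) .nil)))) (.g (nat_lit 0) (.e (nat_lit 434262) (nat_lit 0) .nil) .nil)))) (.nd (nat_lit 9) 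
(.lf (nat_lit 606493) (.g (nat_lit 2554) (.e (nat_lit 786470) (nat_lit 27) (.e (nat_lit 336226) (nat_lit 14) (.e (nat_lit 401437) (nat_lit 9) (.e (nat_lit 426482) (nat_lit 27) (.e (nat_lit 336205) (nat_lit 12) .nil))))) (.g (nat_lit 0) (.e (nat_lit 433729) (nat_lit 0) .nil) .nil))) 
(.lf (nat_lit 607005) (.g (nat_lit 2397) (.e (nat_lit 794669) (nat_lit 22) (.e (nat_lit 196668) (nat_lit 14) (.e (nat_lit 73747) (nat_lit 3) (.e (nat_lit 516119) (nat_lit 1) (.e (nat_lit 164147) (nat_lit 152) .nil))))) (.g (nat_lit 0) (.e (nat_lit 436086) (nat_lit 0) .nil) .nil))))) (.nd (nat_lit 8) (.nd (nat_lit 9) 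
(.lf (nat_lit 606365) (.g (nat_lit 2843) (.e (nat_lit 778470) (nat_lit 11) (.e (nat_lit 24660) (nat_lit 13) (.e (nat_lit 393260) (nat_lit 21) (.e (nat_lit 409616) (nat_lit 10) (.e (nat_lit 4979) (nat_lit 287) .nil))))) (.g (nat_lit 0) (.e (nat_lit 433437) (nat_lit 0) .nil) .nil))) 
(.lf (nat_lit 606877) (.g (nat_lit 1024) (.e (nat_lit 794635) (nat_lit 11) (.e (nat_lit 336152) (nat_lit 9) (.e (nat_lit 336437) (nat_lit 31) (.e (nat_lit 458769) (nat_lit 16) (.e (nat_lit 164289) (nat_lit 224) (.e (nat_lit 164112) (nat_lit 118) .nil)))))) (.g (nat_lit 1) (.e (nat_lit 434813) (nat_lit 0) .nil) .nil)))) (.nd (nat_lit 9) 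
(.lf (nat_lit 606621) (.g (nat_lit 1919) (.e (nat_lit 786481) (nat_lit 30) (.e (nat_lit 360452) (nat_lit 0) (.e (nat_lit 5907) (nat_lit 320) (.e (nat_lit 1221) (nat_lit 90) (.e (nat_lit 89856) (nat_lit 0) .nil))))) (.g (nat_lit 0) (.e (nat_lit 434053) (nat_lit 0) .nil) .nil))) 
(.lf (nat_lit 607133) (.g (nat_lit 2331) (.e (nat_lit 794673) (nat_lit 23) (.e (nat_lit 204863) (nat_lit 27) (.e (nat_lit 344118) (nat_lit 21) (.e (nat_lit 516119) (nat_lit 1) (.e (nat_lit 164176) (nat_lit 154) .nil))))) (.g (nat_lit 0) (.e (nat_lit 436657) (nat_lit 0) .nil) .nil)))))) (.nd (nat_lit 7) (.nd (nat_lit 8) (.nd (nat_lit 9) 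
(.lf (nat_lit 606301) (.g (nat_lit 1528) (.e (nat_lit 778469) (nat_lit 11) (.e (nat_lit 24655) (nat_lit 13) (.e (nat_lit 393300) (nat_lit 27) (.e (nat_lit 491558) (nat_lit 10) .nil)))) (.g (nat_lit 0) (.e (nat_lit 433356) (nat_lit 0) .nil) .nil))) 
(.lf (nat_lit 606813) (.g (nat_lit 1248) (.e (nat_lit 786483) (nat_lit 30) (.e (nat_lit 360475) (nat_lit 8) (.e (nat_lit 557119) (nat_lit 18) (.e (nat_lit 2797) (nat_lit 180) .nil)))) (.g (nat_lit 0) (.e (nat_lit 434682) (nat_lit 0) .nil) .nil)))) (.nd (nat_lit 9) 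
(.lf (nat_lit 606557) (.g (nat_lit 1988) (.e (nat_lit 786478) (nat_lit 29) (.e (nat_lit 352309) (nat_lit 21) (.e (nat_lit 57931) (nat_lit 282) (.e (nat_lit 163945) (nat_lit 20) .nil)))) (.g (nat_lit 0) (.e (nat_lit 433944) (nat_lit 0) .nil) .nil))) 
(.lf (nat_lit 607069) (.g (nat_lit 3111) (.e (nat_lit 794673) (nat_lit 23) (.e (nat_lit 204830) (nat_lit 18) (.e (nat_lit 57926) (nat_lit 282) (.e (nat_lit 163868) (nat_lit 2) (.e (nat_lit 196670) (nat_lit 14) .nil))))) (.g (nat_lit 0) (.e (nat_lit 436512) (nat_lit 0) .nil) .nil))))) (.nd (nat_lit 8) (.nd (nat_lit 9) 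
(.lf (nat_lit 606429) (.g (nat_lit 1357) (.e (nat_lit 778474) (nat_lit 12) (.e (nat_lit 163999) (nat_lit 38) (.e (nat_lit 638998) (nat_lit 8) (.e (nat_lit 172123) (nat_lit 13) (.e (nat_lit 483405) (nat_lit 26) .nil))))) (.g (nat_lit 0) (.e (nat_lit 433514) (nat_lit 0) .nil) .nil))) 
(.lf (nat_lit 606941) (.g (nat_lit 1830) (.e (nat_lit 794668) (nat_lit 22) (.e (nat_lit 196666) (nat_lit 13) (.e (nat_lit 65569) (nat_lit 3) (.e (nat_lit 98334) (nat_lit 18) (.e (nat_lit 164159) (nat_lit 152) (.e (nat_lit 1048) (nat_lit 81) (.e (nat_lit 1254) (nat_lit 92) (.e (nat_lit 98321) (nat_lit 17) (.e (nat_lit 3771) (nat_lit 229) .nil))))))))) (.g (nat_lit 1) (.e (nat_lit 435730) (nat_lit 0) .nil) .nil)))) 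
(.nd (nat_lit 9) 
(.lf (nat_lit 606685) (.g (nat_lit 1200) (.e (nat_lit 786481) (nat_lit 30) (.e (nat_lit 360473) (nat_lit 8) (.e (nat_lit 557089) (nat_lit 12) (.e (nat_lit 164010) (nat_lit 41) .nil)))) (.g (nat_lit 0) (.e (nat_lit 434171) (nat_lit 0) .nil) .nil))) 
(.lf (nat_lit 607197) (.g (nat_lit 1918) (.e (nat_lit 794683) (nat_lit 25) (.e (nat_lit 221214) (nat_lit 23) (.e (nat_lit 204883) (nat_lit 33) (.e (nat_lit 401459) (nat_lit 13) (.e (nat_lit 483343) (nat_lit 17) .nil))))) (.g (nat_lit 0) (.e (nat_lit 436852) (nat_lit 0) .nil) .nil))))))) (.nd (nat_lit 6) (.nd (nat_lit 7) (.nd (nat_lit 8) (.nd (nat_lit 9) 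
(.lf (nat_lit 606269) (.g (nat_lit 816) (.e (nat_lit 778469) (nat_lit 11) (.e (nat_lit 24609) (nat_lit 3) (.e (nat_lit 98372) (nat_lit 29) (.e (nat_lit 450586) (nat_lit 10) .nil)))) (.g (nat_lit 0) (.e (nat_lit 433317) (nat_lit 0) .nil) .nil))) 
(.lf (nat_lit 606781) (.g (nat_lit 1860) (.e (nat_lit 786483) (nat_lit 30) (.e (nat_lit 360457) (nat_lit 0) (.e (nat_lit 5949) (nat_lit 322) (.e (nat_lit 57424) (nat_lit 14) (.e (nat_lit 352265) (nat_lit 0) .nil))))) (.g (nat_lit 0) (.e (nat_lit 434324) (nat_lit 0) .nil) .nil)))) (.nd (nat_lit 9) 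
(.lf (nat_lit 606525) (.g (nat_lit 1562) (.e (nat_lit 786473) (nat_lit 27) (.e (nat_lit 336235) (nat_lit 14) (.e (nat_lit 401456) (nat_lit 13) (.e (nat_lit 483378) (nat_lit 23) .nil)))) (.g (nat_lit 0) (.e (nat_lit 433786) (nat_lit 0) .nil) .nil))) 
(.lf (nat_lit 607037) (.g (nat_lit 2368) (.e (nat_lit 794669) (nat_lit 22) (.e (nat_lit 196670) (nat_lit 14) (.e (nat_lit 73746) (nat_lit 3) (.e (nat_lit 516120) (nat_lit 1) (.e (nat_lit 164159) (nat_lit 152) (.e (nat_lit 1027) (nat_lit 81) (.e (nat_lit 1255) (nat_lit 92) (.e (nat_lit 98321) (nat_lit 17) (.e (nat_lit 3771) (nat_lit 229) .nil))))))))) (.g (nat_lit 1) (.e (nat_lit 436310) (nat_lit 0) .nil) .nil))))) 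
(.nd (nat_lit 8) (.nd (nat_lit 9) 
(.lf (nat_lit 606397) (.g (nat_lit 2369) (.e (nat_lit 786176) (nat_lit 11) (.e (nat_lit 24617) (nat_lit 7) (.e (nat_lit 319533) (nat_lit 16) (.e (nat_lit 286753) (nat_lit 10) (.e (nat_lit 344169) (nat_lit 40) .nil))))) (.g (nat_lit 0) (.e (nat_lit 433471) (nat_lit 0) .nil) .nil))) 
(.lf (nat_lit 606909) (.g (nat_lit 2172) (.e (nat_lit 794663) (nat_lit 22) (.e (nat_lit 196656) (nat_lit 11) (.e (nat_lit 16448) (nat_lit 10) (.e (nat_lit 434231) (nat_lit 23) .nil)))) (.g (nat_lit 0) (.e (nat_lit 435207) (nat_lit 0) .nil) .nil)))) (.nd (nat_lit 9) 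
(.lf (nat_lit 606653) (.g (nat_lit 434) (.e (nat_lit 786481) (nat_lit 30) (.e (nat_lit 360466) (nat_lit 3) (.e (nat_lit 516120) (nat_lit 1) .nil))) (.g (nat_lit 0) (.e (nat_lit 434109) (nat_lit 0) .nil) .nil))) 
(.lf (nat_lit 607165) (.g (nat_lit 1737) (.e (nat_lit 794677) (nat_lit 24) (.e (nat_lit 213030) (nat_lit 11) (.e (nat_lit 24617) (nat_lit 7) (.e (nat_lit 319536) (nat_lit 17) .nil)))) (.g (nat_lit 0) (.e (nat_lit 436712) (nat_lit 0) .nil) .nil)))))) (.nd (nat_lit 7) (.nd (nat_lit 8) (.nd (nat_lit 9) 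
(.lf (nat_lit 606333) (.g (nat_lit 2461) (.e (nat_lit 778469) (nat_lit 11) (.e (nat_lit 24658) (nat_lit 13) (.e (nat_lit 393301) (nat_lit 27) (.e (nat_lit 491560) (nat_lit 10) (.e (nat_lit 352000) (nat_lit 44) .nil))))) (.g (nat_lit 1) (.e (nat_lit 433403) (nat_lit 0) .nil) .nil))) 
(.lf (nat_lit 606845) (.g (nat_lit 1338) (.e (nat_lit 802560) (nat_lit 5) (.e (nat_lit 114698) (nat_lit 11) (.e (nat_lit 426200) (nat_lit 9) (.e (nat_lit 426494) (nat_lit 27) .nil)))) (.g (nat_lit 0) (.e (nat_lit 434771) (nat_lit 0) .nil) .nil)))) (.nd (nat_lit 9) 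
(.lf (nat_lit 606589) (.g (nat_lit 582) (.e (nat_lit 786480) (nat_lit 29) (.e (nat_lit 352316) (nat_lit 24) (.e (nat_lit 123185) (nat_lit 264) .nil))) (.g (nat_lit 0) (.e (nat_lit 434002) (nat_lit 0) .nil) .nil))) 
(.lf (nat_lit 607101) (.g (nat_lit 2772) (.e (nat_lit 794673) (nat_lit 23) (.e (nat_lit 204862) (nat_lit 27) (.e (nat_lit 344117) (nat_lit 21) (.e (nat_lit 516116) (nat_lit 1) (.e (nat_lit 164164) (nat_lit 152) .nil))))) (.g (nat_lit 0) (.e (nat_lit 436589) (nat_lit 0) .nil) .nil))))) (.nd (nat_lit 8) (.nd (nat_lit 9) 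
(.lf (nat_lit 606461) (.g (nat_lit 2075) (.e (nat_lit 786447) (nat_lit 15) (.e (nat_lit 1848) (nat_lit 124) (.e (nat_lit 557108) (nat_lit 15) (.e (nat_lit 188450) (nat_lit 23) (.e (nat_lit 204880) (nat_lit 32) .nil))))) (.g (nat_lit 0) (.e (nat_lit 433653) (nat_lit 0) .nil) .nil))) 
(.lf (nat_lit 606973) (.g (nat_lit 1746) (.e (nat_lit 794669) (nat_lit 22) (.e (nat_lit 196668) (nat_lit 14) (.e (nat_lit 73746) (nat_lit 3) (.e (nat_lit 516120) (nat_lit 1) (.e (nat_lit 164158) (nat_lit 152) .nil))))) (.g (nat_lit 0) (.e (nat_lit 435907) (nat_lit 0) .nil) .nil)))) (.nd (nat_lit 9) 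
(.lf (nat_lit 606717) (.g (nat_lit 2322) (.e (nat_lit 786481) (nat_lit 30) (.e (nat_lit 360473) (nat_lit 8) (.e (nat_lit 557119) (nat_lit 18) (.e (nat_lit 2798) (nat_lit 180) (.e (nat_lit 303124) (nat_lit 7) .nil))))) (.g (nat_lit 0) (.e (nat_lit 434222) (nat_lit 0) .nil) .nil))) 
(.lf (nat_lit 607229) (.g (nat_lit 2797) (.e (nat_lit 802826) (nat_lit 11) (.e (nat_lit 336027) (nat_lit 3) (.e (nat_lit 98373) (nat_lit 29) (.e (nat_lit 450587) (nat_lit 10) (.e (nat_lit 573477) (nat_lit 12) .nil))))) (.g (nat_lit 0) (.e (nat_lit 437014) (nat_lit 0) .nil) .nil))))))))))) 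
(.nd (nat_lit 2) (.nd (nat_lit 3) (.nd (nat_lit 4) (.nd (nat_lit 5) (.nd (nat_lit 6) 
(.nd (nat_lit 7) (.nd (nat_lit 8) (.nd (nat_lit 9) 
(.lf (nat_lit 606211) (.g (nat_lit 1232) (.e (nat_lit 778468) (nat_lit 11) (.e (nat_lit 24608) (nat_lit 3) (.e (nat_lit 98369) (nat_lit 28) .nil))) (.g (nat_lit 0) (.e (nat_lit 433255) (nat_lit 0) .nil) .nil))) 
(.lf (nat_lit 606723) (.g (nat_lit 356) (.e (nat_lit 786481) (nat_lit 30) (.e (nat_lit 360486) (nat_lit 18) (.e (nat_lit 671748) (nat_lit 0) .nil))) (.g (nat_lit 0) (.e (nat_lit 434228) (nat_lit 0) .nil) .nil)))) (.nd (nat_lit 9) 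
(.lf (nat_lit 606467) (.g (nat_lit 3490) (.e (nat_lit 786447) (nat_lit 15) (.e (nat_lit 1855) (nat_lit 124) (.e (nat_lit 557109) (nat_lit 15) (.e (nat_lit 188452) (nat_lit 23) (.e (nat_lit 204882) (nat_lit 32) .nil))))) (.g (nat_lit 0) (.e (nat_lit 433661) (nat_lit 0) .nil) .nil))) 
(.lf (nat_lit 606979) (.g (nat_lit 2645) (.e (nat_lit 794669) (nat_lit 22) (.e (nat_lit 196668) (nat_lit 14) (.e (nat_lit 73747) (nat_lit 3) (.e (nat_lit 516115) (nat_lit 1) (.e (nat_lit 164148) (nat_lit 152) (.e (nat_lit 974) (nat_lit 81) (.e (nat_lit 1256) (nat_lit 92) (.e (nat_lit 98321) (nat_lit 17) (.e (nat_lit 3771) (nat_lit 229) .nil))))))))) (.g (nat_lit 1) (.e (nat_lit 435931) (nat_lit 0) .nil) .nil))))) 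
(.nd (nat_lit 8) (.nd (nat_lit 9) 
(.lf (nat_lit 606339) (.g (nat_lit 900) (.e (nat_lit 778469) (nat_lit 11) (.e (nat_lit 24660) (nat_lit 13) (.e (nat_lit 393238) (nat_lit 17) (.e (nat_lit 7936) (nat_lit 407) .nil)))) (.g (nat_lit 0) (.e (nat_lit 433409) (nat_lit 0) .nil) .nil))) 
(.lf (nat_lit 606851) (.g (nat_lit 447) (.e (nat_lit 802560) (nat_lit 5) (.e (nat_lit 114698) (nat_lit 11) (.e (nat_lit 426334) (nat_lit 13) .nil))) (.g (nat_lit 0) (.e (nat_lit 434784) (nat_lit 0) .nil) .nil)))) (.nd (nat_lit 9) 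
(.lf (nat_lit 606595) (.g (nat_lit 825) (.e (nat_lit 786480) (nat_lit 29) (.e (nat_lit 352318) (nat_lit 24) (.e (nat_lit 123184) (nat_lit 264) (.e (nat_lit 1224) (nat_lit 90) .nil)))) (.g (nat_lit 0) (.e (nat_lit 434013) (nat_lit 0) .nil) .nil))) 
(.lf (nat_lit 607107) (.g (nat_lit 1531) (.e (nat_lit 794673) (nat_lit 23) (.e (nat_lit 204862) (nat_lit 27) (.e (nat_lit 344118) (nat_lit 21) (.e (nat_lit 516115) (nat_lit 1) (.e (nat_lit 164183) (nat_lit 154) .nil))))) (.g (nat_lit 0) (.e (nat_lit 436607) (nat_lit 0) .nil) .nil)))))) (.nd (nat_lit 7) (.nd (nat_lit 8) (.nd (nat_lit 9) 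
(.lf (nat_lit 606275) (.g (nat_lit 873) (.e (nat_lit 778469) (nat_lit 11) (.e (nat_lit 24628) (nat_lit 9) (.e (nat_lit 336438) (nat_lit 31) (.e (nat_lit 466688) (nat_lit 5) .nil)))) (.g (nat_lit 0) (.e (nat_lit 433324) (nat_lit 0) .nil) .nil))) 
(.lf (nat_lit 606787) (.g (nat_lit 2874) (.e (nat_lit 786483) (nat_lit 30) (.e (nat_lit 360474) (nat_lit 8) (.e (nat_lit 557091) (nat_lit 12) (.e (nat_lit 164000) (nat_lit 38) (.e (nat_lit 639021) (nat_lit 16) .nil))))) (.g (nat_lit 0) (.e (nat_lit 434411) (nat_lit 0) .nil) .nil)))) (.nd (nat_lit 9) 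
(.lf (nat_lit 606531) (.g (nat_lit 1562) (.e (nat_lit 786473) (nat_lit 27) (.e (nat_lit 336235) (nat_lit 14) (.e (nat_lit 401456) (nat_lit 13) (.e (nat_lit 483404) (nat_lit 26) .nil)))) (.g (nat_lit 0) (.e (nat_lit 433792) (nat_lit 0) .nil) .nil))) 
(.lf (nat_lit 607043) (.g (nat_lit 1217) (.e (nat_lit 794671) (nat_lit 23) (.e (nat_lit 204829) (nat_lit 18) (.e (nat_lit 57847) (nat_lit 252) .nil))) (.g (nat_lit 0) (.e (nat_lit 436407) (nat_lit 0) .nil) .nil))))) (.nd (nat_lit 8) (.nd (nat_lit 9) 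
(.lf (nat_lit 606403) (.g (nat_lit 980) (.e (nat_lit 786176) (nat_lit 11) (.e (nat_lit 24655) (nat_lit 13) (.e (nat_lit 393300) (nat_lit 27) (.e (nat_lit 491558) (nat_lit 10) .nil)))) (.g (nat_lit 0) (.e (nat_lit 433482) (nat_lit 0) .nil) .nil))) 
(.lf (nat_lit 606915) (.g (nat_lit 1981) (.e (nat_lit 794665) (nat_lit 22) (.e (nat_lit 196654) (nat_lit 11) (.e (nat_lit 16436) (nat_lit 9) (.e (nat_lit 426131) (nat_lit 3) (.e (nat_lit 204882) (nat_lit 32) (.e (nat_lit 385108) (nat_lit 51) .nil)))))) (.g (nat_lit 1) (.e (nat_lit 435230) (nat_lit 0) .nil) .nil)))) (.nd (nat_lit 9) 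
(.lf (nat_lit 606659) (.g (nat_lit 2121) (.e (nat_lit 786481) (nat_lit 30) (.e (nat_lit 360466) (nat_lit 3) (.e (nat_lit 516120) (nat_lit 1) (.e (nat_lit 164184) (nat_lit 155) (.e (nat_lit 122913) (nat_lit 13) (.e (nat_lit 352000) (nat_lit 45) .nil)))))) (.g (nat_lit 1) (.e (nat_lit 434119) (nat_lit 0) .nil) .nil))) 
(.lf (nat_lit 607171) (.g (nat_lit 1076) (.e (nat_lit 794678) (nat_lit 24) (.e (nat_lit 213032) (nat_lit 11) (.e (nat_lit 24620) (nat_lit 8) .nil))) (.g (nat_lit 0) (.e (nat_lit 436721) (nat_lit 0) .nil) .nil))))))) (.nd (nat_lit 6) (.nd (nat_lit 7) (.nd (nat_lit 8) (.nd (nat_lit 9) 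
(.lf (nat_lit 606243) (.g (nat_lit 1627) (.e (nat_lit 778469) (nat_lit 11) (.e (nat_lit 24604) (nat_lit 2) (.e (nat_lit 90185) (nat_lit 17) (.e (nat_lit 237605) (nat_lit 9) (.e (nat_lit 426438) (nat_lit 18) .nil))))) (.g (nat_lit 0) (.e (nat_lit 433288) (nat_lit 0) .nil) .nil))) 
(.lf (nat_lit 606755) (.g (nat_lit 395) (.e (nat_lit 786483) (nat_lit 30) (.e (nat_lit 360450) (nat_lit 0) (.e (nat_lit 7936) (nat_lit 322) .nil))) (.g (nat_lit 0) (.e (nat_lit 434272) (nat_lit 0) .nil) .nil)))) (.nd (nat_lit 9) 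
(.lf (nat_lit 606499) (.g (nat_lit 1800) (.e (nat_lit 786470) (nat_lit 27) (.e (nat_lit 336226) (nat_lit 14) (.e (nat_lit 401457) (nat_lit 13) (.e (nat_lit 483402) (nat_lit 26) (.e (nat_lit 385106) (nat_lit 50) .nil))))) (.g (nat_lit 0) (.e (nat_lit 433744) (nat_lit 0) .nil) .nil))) 
(.lf (nat_lit 607011) (.g (nat_lit 3251) (.e (nat_lit 794669) (nat_lit 22) (.e (nat_lit 196668) (nat_lit 14) (.e (nat_lit 73747) (nat_lit 3) (.e (nat_lit 516119) (nat_lit 1) (.e (nat_lit 164184) (nat_lit 155) (.e (nat_lit 122893) (nat_lit 3) (.e (nat_lit 98321) (nat_lit 17) (.e (nat_lit 3771) (nat_lit 229) .nil)))))))) (.g (nat_lit 1) (.e (nat_lit 436152) (nat_lit 0) .nil) .nil))))) 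
(.nd (nat_lit 8) (.nd (nat_lit 9) 
(.lf (nat_lit 606371) (.g (nat_lit 1503) (.e (nat_lit 786176) (nat_lit 11) (.e (nat_lit 24604) (nat_lit 2) (.e (nat_lit 90176) (nat_lit 15) (.e (nat_lit 188430) (nat_lit 20) .nil)))) (.g (nat_lit 0) (.e (nat_lit 433445) (nat_lit 0) .nil) .nil))) 
(.lf (nat_lit 606883) (.g (nat_lit 2139) (.e (nat_lit 794636) (nat_lit 11) (.e (nat_lit 336009) (nat_lit 2) (.e (nat_lit 90170) (nat_lit 13) (.e (nat_lit 172113) (nat_lit 10) (.e (nat_lit 434242) (nat_lit 28) .nil))))) (.g (nat_lit 0) (.e (nat_lit 434819) (nat_lit 0) .nil) .nil)))) (.nd (nat_lit 9) 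
(.lf (nat_lit 606627) (.g (nat_lit 2182) (.e (nat_lit 786481) (nat_lit 30) (.e (nat_lit 360453) (nat_lit 0) (.e (nat_lit 5907) (nat_lit 320) (.e (nat_lit 1221) (nat_lit 90) (.e (nat_lit 81924) (nat_lit 0) .nil))))) (.g (nat_lit 0) (.e (nat_lit 434059) (nat_lit 0) .nil) .nil))) 
(.lf (nat_lit 607139) (.g (nat_lit 1023) (.e (nat_lit 794673) (nat_lit 23) (.e (nat_lit 204863) (nat_lit 27) (.e (nat_lit 344120) (nat_lit 21) .nil))) (.g (nat_lit 0) (.e (nat_lit 436666) (nat_lit 0) .nil) .nil)))))) (.nd (nat_lit 7) (.nd (nat_lit 8) (.nd (nat_lit 9) 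
(.lf (nat_lit 606307) (.g (nat_lit 2110) (.e (nat_lit 778469) (nat_lit 11) (.e (nat_lit 24657) (nat_lit 13) (.e (nat_lit 393291) (nat_lit 26) (.e (nat_lit 475214) (nat_lit 42) (.e (nat_lit 728832) (nat_lit 0) .nil))))) (.g (nat_lit 0) (.e (nat_lit 433367) (nat_lit 0) .nil) .nil))) 
(.lf (nat_lit 606819) (.g (nat_lit 2045) (.e (nat_lit 786483) (nat_lit 30) (.e (nat_lit 360475) (nat_lit 8) (.e (nat_lit 557119) (nat_lit 18) (.e (nat_lit 2808) (nat_lit 180) (.e (nat_lit 303123) (nat_lit 7) .nil))))) (.g (nat_lit 0) (.e (nat_lit 434707) (nat_lit 0) .nil) .nil)))) (.nd (nat_lit 9) 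
(.lf (nat_lit 606563) (.g (nat_lit 1449) (.e (nat_lit 786479) (nat_lit 29) (.e (nat_lit 352262) (nat_lit 0) (.e (nat_lit 3748) (nat_lit 228) (.e (nat_lit 786478) (nat_lit 29) .nil)))) (.g (nat_lit 0) (.e (nat_lit 433950) (nat_lit 0) .nil) .nil))) 
(.lf (nat_lit 607075) (.g (nat_lit 2635) (.e (nat_lit 794673) (nat_lit 23) (.e (nat_lit 204831) (nat_lit 18) (.e (nat_lit 57847) (nat_lit 252) (.e (nat_lit 57377) (nat_lit 3) .nil)))) (.g (nat_lit 0) (.e (nat_lit 436527) (nat_lit 0) .nil) .nil))))) (.nd (nat_lit 8) (.nd (nat_lit 9) 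
(.lf (nat_lit 606435) (.g (nat_lit 1000) (.e (nat_lit 778486) (nat_lit 12) (.e (nat_lit 164000) (nat_lit 38) (.e (nat_lit 638998) (nat_lit 8) (.e (nat_lit 172123) (nat_lit 13) .nil)))) (.g (nat_lit 0) (.e (nat_lit 433538) (nat_lit 0) .nil) .nil))) 
(.lf (nat_lit 606947) (.g (nat_lit 522) (.e (nat_lit 794668) (nat_lit 22) (.e (nat_lit 196666) (nat_lit 13) (.e (nat_lit 65571) (nat_lit 3) .nil))) (.g (nat_lit 0) (.e (nat_lit 435762) (nat_lit 0) .nil) .nil)))) (.nd (nat_lit 9) 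
(.lf (nat_lit 606691) (.g (nat_lit 3043) (.e (nat_lit 786481) (nat_lit 30) (.e (nat_lit 360473) (nat_lit 8) (.e (nat_lit 557090) (nat_lit 12) (.e (nat_lit 164009) (nat_lit 41) .nil)))) (.g (nat_lit 0) (.e (nat_lit 434182) (nat_lit 0) .nil) .nil))) 
(.lf (nat_lit 607203) (.g (nat_lit 2193) (.e (nat_lit 794683) (nat_lit 25) (.e (nat_lit 221214) (nat_lit 23) (.e (nat_lit 204884) (nat_lit 33) (.e (nat_lit 401459) (nat_lit 13) (.e (nat_lit 483347) (nat_lit 17) .nil))))) (.g (nat_lit 0) (.e (nat_lit 436858) (nat_lit 0) .nil) .nil)))))))) (.nd (nat_lit 5) (.nd (nat_lit 6) (.nd (nat_lit 7) (.nd (nat_lit 8) (.nd (nat_lit 9) 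
(.lf (nat_lit 606227) (.g (nat_lit 1394) (.e (nat_lit 778468) (nat_lit 11) (.e (nat_lit 24658) (nat_lit 13) (.e (nat_lit 393281) (nat_lit 23) (.e (nat_lit 426099) (nat_lit 1) .nil)))) (.g (nat_lit 0) (.e (nat_lit 433272) (nat_lit 0) .nil) .nil))) 
(.lf (nat_lit 606739) (.g (nat_lit 2364) (.e (nat_lit 786482) (nat_lit 30) (.e (nat_lit 360475) (nat_lit 8) (.e (nat_lit 557089) (nat_lit 12) (.e (nat_lit 164009) (nat_lit 41) .nil)))) (.g (nat_lit 0) (.e (nat_lit 434251) (nat_lit 0) .nil) .nil)))) (.nd (nat_lit 9) 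
(.lf (nat_lit 606483) (.g (nat_lit 928) (.e (nat_lit 786457) (nat_lit 18) (.e (nat_lit 98380) (nat_lit 31) (.e (nat_lit 466954) (nat_lit 11) (.e (nat_lit 336049) (nat_lit 6) (.e (nat_lit 147504) (nat_lit 12) (.e (nat_lit 164058) (nat_lit 56) .nil)))))) (.g (nat_lit 1) (.e (nat_lit 433707) (nat_lit 0) .nil) .nil))) 
(.lf (nat_lit 606995) (.g (nat_lit 2177) (.e (nat_lit 794669) (nat_lit 22) (.e (nat_lit 196668) (nat_lit 14) (.e (nat_lit 73747) (nat_lit 3) (.e (nat_lit 516117) (nat_lit 1) (.e (nat_lit 164147) (nat_lit 152) (.e (nat_lit 974) (nat_lit 81) (.e (nat_lit 1256) (nat_lit 92) (.e (nat_lit 98321) (nat_lit 17) (.e (nat_lit 3771) (nat_lit 229) .nil))))))))) (.g (nat_lit 1) (.e (nat_lit 436027) (nat_lit 0) .nil) .nil))))) 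
(.nd (nat_lit 8) (.nd (nat_lit 9) 
(.lf (nat_lit 606355) (.g (nat_lit 1978) (.e (nat_lit 778470) (nat_lit 11) (.e (nat_lit 24626) (nat_lit 9) (.e (nat_lit 336443) (nat_lit 32) (.e (nat_lit 466972) (nat_lit 21) (.e (nat_lit 164330) (nat_lit 230) .nil))))) (.g (nat_lit 0) (.e (nat_lit 433426) (nat_lit 0) .nil) .nil))) 
(.lf (nat_lit 606867) (.g (nat_lit 1050) (.e (nat_lit 794635) (nat_lit 11) (.e (nat_lit 336121) (nat_lit 9) (.e (nat_lit 336437) (nat_lit 31) (.e (nat_lit 458769) (nat_lit 16) (.e (nat_lit 164289) (nat_lit 224) (.e (nat_lit 164112) (nat_lit 118) .nil)))))) (.g (nat_lit 1) (.e (nat_lit 434803) (nat_lit 0) .nil) .nil)))) (.nd (nat_lit 9) 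
(.lf (nat_lit 606611) (.g (nat_lit 1542) (.e (nat_lit 786481) (nat_lit 30) (.e (nat_lit 360452) (nat_lit 0) (.e (nat_lit 5905) (nat_lit 320) (.e (nat_lit 1221) (nat_lit 90) (.e (nat_lit 81923) (nat_lit 0) .nil))))) (.g (nat_lit 0) (.e (nat_lit 434041) (nat_lit 0) .nil) .nil))) 
(.lf (nat_lit 607123) (.g (nat_lit 2592) (.e (nat_lit 794673) (nat_lit 23) (.e (nat_lit 204863) (nat_lit 27) (.e (nat_lit 344117) (nat_lit 21) (.e (nat_lit 516116) (nat_lit 1) (.e (nat_lit 164180) (nat_lit 154) .nil))))) (.g (nat_lit 0) (.e (nat_lit 436638) (nat_lit 0) .nil) .nil)))))) (.nd (nat_lit 7) (.nd (nat_lit 8) (.nd (nat_lit 9) 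
(.lf (nat_lit 606291) (.g (nat_lit 2887) (.e (nat_lit 778469) (nat_lit 11) (.e (nat_lit 24654) (nat_lit 13) (.e (nat_lit 393301) (nat_lit 27) (.e (nat_lit 491558) (nat_lit 10) (.e (nat_lit 352000) (nat_lit 44) .nil))))) (.g (nat_lit 0) (.e (nat_lit 433346) (nat_lit 0) .nil) .nil))) 
(.lf (nat_lit 606803) (.g (nat_lit 2350) (.e (nat_lit 786483) (nat_lit 30) (.e (nat_lit 360475) (nat_lit 8) (.e (nat_lit 557090) (nat_lit 12) (.e (nat_lit 164001) (nat_lit 40) .nil)))) (.g (nat_lit 0) (.e (nat_lit 434575) (nat_lit 0) .nil) .nil)))) (.nd (nat_lit 9) 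
(.lf (nat_lit 606547) (.g (nat_lit 3707) (.e (nat_lit 786477) (nat_lit 28) (.e (nat_lit 344177) (nat_lit 43) (.e (nat_lit 770072) (nat_lit 8) (.e (nat_lit 65571) (nat_lit 3) (.e (nat_lit 98341) (nat_lit 20) (.e (nat_lit 221204) (nat_lit 20) (.e (nat_lit 3745) (nat_lit 228) .nil))))))) (.g (nat_lit 1) (.e (nat_lit 433920) (nat_lit 0) .nil) .nil))) 
(.lf (nat_lit 607059) (.g (nat_lit 2703) (.e (nat_lit 794673) (nat_lit 23) (.e (nat_lit 204829) (nat_lit 18) (.e (nat_lit 57927) (nat_lit 282) (.e (nat_lit 163874) (nat_lit 3) (.e (nat_lit 204872) (nat_lit 30) .nil))))) (.g (nat_lit 0) (.e (nat_lit 436497) (nat_lit 0) .nil) .nil))))) (.nd (nat_lit 8) (.nd (nat_lit 9) 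
(.lf (nat_lit 606419) (.g (nat_lit 1725) (.e (nat_lit 786176) (nat_lit 11) (.e (nat_lit 24660) (nat_lit 13) (.e (nat_lit 393260) (nat_lit 21) (.e (nat_lit 409608) (nat_lit 10) .nil)))) (.g (nat_lit 0) (.e (nat_lit 433499) (nat_lit 0) .nil) .nil))) 
(.lf (nat_lit 606931) (.g (nat_lit 333) (.e (nat_lit 794667) (nat_lit 22) (.e (nat_lit 196661) (nat_lit 12) (.e (nat_lit 57573) (nat_lit 55) .nil))) (.g (nat_lit 0) (.e (nat_lit 435587) (nat_lit 0) .nil) .nil)))) (.nd (nat_lit 9) 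
(.lf (nat_lit 606675) (.g (nat_lit 1583) (.e (nat_lit 786481) (nat_lit 30) (.e (nat_lit 360473) (nat_lit 8) (.e (nat_lit 557089) (nat_lit 12) (.e (nat_lit 163999) (nat_lit 38) (.e (nat_lit 639020) (nat_lit 16) .nil))))) (.g (nat_lit 0) (.e (nat_lit 434147) (nat_lit 0) .nil) .nil))) 
(.lf (nat_lit 607187) (.g (nat_lit 3521) (.e (nat_lit 794680) (nat_lit 24) (.e (nat_lit 213032) (nat_lit 11) (.e (nat_lit 24665) (nat_lit 14) (.e (nat_lit 401460) (nat_lit 14) (.e (nat_lit 491565) (nat_lit 12) .nil))))) (.g (nat_lit 0) (.e (nat_lit 436747) (nat_lit 0) .nil) .nil))))))) (.nd (nat_lit 6) (.nd (nat_lit 7) (.nd (nat_lit 8) (.nd (nat_lit 9) 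
(.lf (nat_lit 606259) (.g (nat_lit 2177) (.e (nat_lit 778469) (nat_lit 11) (.e (nat_lit 24608) (nat_lit 3) (.e (nat_lit 98372) (nat_lit 29) (.e (nat_lit 450586) (nat_lit 10) (.e (nat_lit 573475) (nat_lit 12) .nil))))) (.g (nat_lit 0) (.e (nat_lit 433305) (nat_lit 0) .nil) .nil))) 
(.lf (nat_lit 606771) (.g (nat_lit 2385) (.e (nat_lit 786483) (nat_lit 30) (.e (nat_lit 360453) (nat_lit 0) (.e (nat_lit 5907) (nat_lit 320) (.e (nat_lit 1221) (nat_lit 90) (.e (nat_lit 81922) (nat_lit 0) .nil))))) (.g (nat_lit 0) (.e (nat_lit 434301) (nat_lit 0) .nil) .nil)))) (.nd (nat_lit 9) 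
(.lf (nat_lit 606515) (.g (nat_lit 1284) (.e (nat_lit 786473) (nat_lit 27) (.e (nat_lit 336235) (nat_lit 14) (.e (nat_lit 401435) (nat_lit 9) (.e (nat_lit 426538) (nat_lit 29) .nil)))) (.g (nat_lit 0) (.e (nat_lit 433775) (nat_lit 0) .nil) .nil))) 
(.lf (nat_lit 607027) (.g (nat_lit 2653) (.e (nat_lit 794669) (nat_lit 22) (.e (nat_lit 196670) (nat_lit 14) (.e (nat_lit 73746) (nat_lit 3) (.e (nat_lit 516117) (nat_lit 1) (.e (nat_lit 164161) (nat_lit 152) .nil))))) (.g (nat_lit 0) (.e (nat_lit 436248) (nat_lit 0) .nil) .nil))))) (.nd (nat_lit 8) (.nd (nat_lit 9) 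
(.lf (nat_lit 606387) (.g (nat_lit 3418) (.e (nat_lit 786176) (nat_lit 11) (.e (nat_lit 24608) (nat_lit 3) (.e (nat_lit 98373) (nat_lit 29) (.e (nat_lit 450587) (nat_lit 10) (.e (nat_lit 573473) (nat_lit 12) .nil))))) (.g (nat_lit 0) (.e (nat_lit 433461) (nat_lit 0) .nil) .nil))) 
(.lf (nat_lit 606899) (.g (nat_lit 1511) (.e (nat_lit 794658) (nat_lit 21) (.e (nat_lit 164398) (nat_lit 256) (.e (nat_lit 57437) (nat_lit 17) (.e (nat_lit 376869) (nat_lit 23) .nil)))) (.g (nat_lit 0) (.e (nat_lit 434960) (nat_lit 0) .nil) .nil)))) (.nd (nat_lit 9) 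
(.lf (nat_lit 606643) (.g (nat_lit 1506) (.e (nat_lit 786481) (nat_lit 30) (.e (nat_lit 360466) (nat_lit 3) (.e (nat_lit 516117) (nat_lit 1) (.e (nat_lit 164170) (nat_lit 152) .nil)))) (.g (nat_lit 0) (.e (nat_lit 434095) (nat_lit 0) .nil) .nil))) 
(.lf (nat_lit 607155) (.g (nat_lit 1213) (.e (nat_lit 794675) (nat_lit 24) (.e (nat_lit 213032) (nat_lit 11) (.e (nat_lit 24663) (nat_lit 14) .nil))) (.g (nat_lit 0) (.e (nat_lit 436698) (nat_lit 0) .nil) .nil)))))) (.nd (nat_lit 7) (.nd (nat_lit 8) (.nd (nat_lit 9) 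
(.lf (nat_lit 606323) (.g (nat_lit 1889) (.e (nat_lit 778469) (nat_lit 11) (.e (nat_lit 24658) (nat_lit 13) (.e (nat_lit 393298) (nat_lit 27) (.e (nat_lit 491560) (nat_lit 10) .nil)))) (.g (nat_lit 0) (.e (nat_lit 433393) (nat_lit 0) .nil) .nil))) 
(.lf (nat_lit 606835) (.g (nat_lit 2619) (.e (nat_lit 802560) (nat_lit 4) (.e (nat_lit 106536) (nat_lit 11) (.e (nat_lit 16439) (nat_lit 9) (.e (nat_lit 426499) (nat_lit 27) (.e (nat_lit 336196) (nat_lit 12) .nil))))) (.g (nat_lit 0) (.e (nat_lit 434751) (nat_lit 0) .nil) .nil)))) (.nd (nat_lit 9) 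
(.lf (nat_lit 606579) (.g (nat_lit 647) (.e (nat_lit 786480) (nat_lit 29) (.e (nat_lit 352309) (nat_lit 21) (.e (nat_lit 57873) (nat_lit 264) .nil))) (.g (nat_lit 0) (.e (nat_lit 433984) (nat_lit 0) .nil) .nil))) 
(.lf (nat_lit 607091) (.g (nat_lit 995) (.e (nat_lit 794673) (nat_lit 23) (.e (nat_lit 204862) (nat_lit 27) (.e (nat_lit 344117) (nat_lit 21) (.e (nat_lit 516115) (nat_lit 1) .nil)))) (.g (nat_lit 0) (.e (nat_lit 436577) (nat_lit 0) .nil) .nil))))) (.nd (nat_lit 8) (.nd (nat_lit 9) 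
(.lf (nat_lit 606451) (.g (nat_lit 2959) (.e (nat_lit 794368) (nat_lit 14) (.e (nat_lit 491568) (nat_lit 13) (.e (nat_lit 393301) (nat_lit 27) (.e (nat_lit 491560) (nat_lit 10) (.e (nat_lit 352000) (nat_lit 45) .nil))))) (.g (nat_lit 0) (.e (nat_lit 433626) (nat_lit 0) .nil) .nil))) 
(.lf (nat_lit 606963) (.g (nat_lit 440) (.e (nat_lit 794669) (nat_lit 22) (.e (nat_lit 196668) (nat_lit 14) (.e (nat_lit 73750) (nat_lit 6) .nil))) (.g (nat_lit 0) (.e (nat_lit 435866) (nat_lit 0) .nil) .nil)))) (.nd (nat_lit 9) 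
(.lf (nat_lit 606707) (.g (nat_lit 1557) (.e (nat_lit 786481) (nat_lit 30) (.e (nat_lit 360473) (nat_lit 8) (.e (nat_lit 557091) (nat_lit 12) (.e (nat_lit 164007) (nat_lit 41) .nil)))) (.g (nat_lit 0) (.e (nat_lit 434202) (nat_lit 0) .nil) .nil))) 
(.lf (nat_lit 607219) (.g (nat_lit 1292) (.e (nat_lit 794684) (nat_lit 25) (.e (nat_lit 221215) (nat_lit 23) (.e (nat_lit 204884) (nat_lit 33) (.e (nat_lit 401458) (nat_lit 13) .nil)))) (.g (nat_lit 0) (.e (nat_lit 436999) (nat_lit 0) .nil) .nil))))))))) (.nd (nat_lit 4) (.nd (nat_lit 5) (.nd (nat_lit 6) (.nd (nat_lit 7) (.nd (nat_lit 8) (.nd (nat_lit 9) 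
(.lf (nat_lit 606219) (.g (nat_lit 2229) (.e (nat_lit 778468) (nat_lit 11) (.e (nat_lit 24617) (nat_lit 7) (.e (nat_lit 319533) (nat_lit 16) (.e (nat_lit 286753) (nat_lit 10) (.e (nat_lit 344168) (nat_lit 40) .nil))))) (.g (nat_lit 0) (.e (nat_lit 433263) (nat_lit 0) .nil) .nil))) 
(.lf (nat_lit 606731) (.g (nat_lit 2063) (.e (nat_lit 786482) (nat_lit 30) (.e (nat_lit 360477) (nat_lit 11) (.e (nat_lit 581651) (nat_lit 4) (.e (nat_lit 172079) (nat_lit 7) (.e (nat_lit 409611) (nat_lit 10) (.e (nat_lit 934) (nat_lit 76) .nil)))))) (.g (nat_lit 1) (.e (nat_lit 434243) (nat_lit 0) .nil) .nil)))) (.nd (nat_lit 9) 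
(.lf (nat_lit 606475) (.g (nat_lit 1712) (.e (nat_lit 786456) (nat_lit 18) (.e (nat_lit 98367) (nat_lit 27) (.e (nat_lit 434245) (nat_lit 28) (.e (nat_lit 573481) (nat_lit 13) .nil)))) (.g (nat_lit 0) (.e (nat_lit 433671) (nat_lit 0) .nil) .nil))) 
(.lf (nat_lit 606987) (.g (nat_lit 2336) (.e (nat_lit 794669) (nat_lit 22) (.e (nat_lit 196668) (nat_lit 14) (.e (nat_lit 73747) (nat_lit 3) (.e (nat_lit 516115) (nat_lit 1) (.e (nat_lit 164153) (nat_lit 152) (.e (nat_lit 1038) (nat_lit 81) (.e (nat_lit 1254) (nat_lit 92) (.e (nat_lit 98321) (nat_lit 17) (.e (nat_lit 3771) (nat_lit 229) .nil))))))))) (.g (nat_lit 1) (.e (nat_lit 435941) (nat_lit 0) .nil) .nil))))) 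
(.nd (nat_lit 8) (.nd (nat_lit 9) 
(.lf (nat_lit 606347) (.g (nat_lit 1668) (.e (nat_lit 778469) (nat_lit 11) (.e (nat_lit 24660) (nat_lit 13) (.e (nat_lit 393297) (nat_lit 27) (.e (nat_lit 491560) (nat_lit 10) (.e (nat_lit 352000) (nat_lit 44) .nil))))) (.g (nat_lit 1) (.e (nat_lit 433418) (nat_lit 0) .nil) .nil))) 
(.lf (nat_lit 606859) (.g (nat_lit 1023) (.e (nat_lit 794635) (nat_lit 11) (.e (nat_lit 336119) (nat_lit 9) (.e (nat_lit 336437) (nat_lit 31) (.e (nat_lit 458769) (nat_lit 16) (.e (nat_lit 164287) (nat_lit 224) (.e (nat_lit 164112) (nat_lit 118) .nil)))))) (.g (nat_lit 1) (.e (nat_lit 434795) (nat_lit 0) .nil) .nil)))) (.nd (nat_lit 9) 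
(.lf (nat_lit 606603) (.g (nat_lit 2207) (.e (nat_lit 786480) (nat_lit 29) (.e (nat_lit 352318) (nat_lit 24) (.e (nat_lit 123195) (nat_lit 266) (.e (nat_lit 57435) (nat_lit 17) (.e (nat_lit 376835) (nat_lit 0) .nil))))) (.g (nat_lit 0) (.e (nat_lit 434026) (nat_lit 0) .nil) .nil))) 
(.lf (nat_lit 607115) (.g (nat_lit 2494) (.e (nat_lit 794673) (nat_lit 23) (.e (nat_lit 204863) (nat_lit 27) (.e (nat_lit 344117) (nat_lit 21) (.e (nat_lit 516115) (nat_lit 1) (.e (nat_lit 164182) (nat_lit 154) (.e (nat_lit 57379) (nat_lit 3) (.e (nat_lit 98321) (nat_lit 17) (.e (nat_lit 3771) (nat_lit 229) .nil)))))))) (.g (nat_lit 1) (.e (nat_lit 436626) (nat_lit 0) .nil) .nil)))))) 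
(.nd (nat_lit 7) (.nd (nat_lit 8) (.nd (nat_lit 9) 
(.lf (nat_lit 606283) (.g (nat_lit 1754) (.e (nat_lit 778469) (nat_lit 11) (.e (nat_lit 24628) (nat_lit 9) (.e (nat_lit 336443) (nat_lit 32) (.e (nat_lit 466972) (nat_lit 21) .nil)))) (.g (nat_lit 0) (.e (nat_lit 433332) (nat_lit 0) .nil) .nil))) 
(.lf (nat_lit 606795) (.g (nat_lit 365) (.e (nat_lit 786483) (nat_lit 30) (.e (nat_lit 360475) (nat_lit 8) (.e (nat_lit 557090) (nat_lit 12) .nil))) (.g (nat_lit 0) (.e (nat_lit 434530) (nat_lit 0) .nil) .nil)))) (.nd (nat_lit 9) 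
(.lf (nat_lit 606539) (.g (nat_lit 1434) (.e (nat_lit 786477) (nat_lit 28) (.e (nat_lit 344177) (nat_lit 43) (.e (nat_lit 770072) (nat_lit 8) (.e (nat_lit 65569) (nat_lit 3) .nil)))) (.g (nat_lit 0) (.e (nat_lit 433911) (nat_lit 0) .nil) .nil))) 
(.lf (nat_lit 607051) (.g (nat_lit 3343) (.e (nat_lit 794673) (nat_lit 23) (.e (nat_lit 204829) (nat_lit 18) (.e (nat_lit 57847) (nat_lit 252) (.e (nat_lit 57378) (nat_lit 3) (.e (nat_lit 98313) (nat_lit 9) .nil))))) (.g (nat_lit 0) (.e (nat_lit 436481) (nat_lit 0) .nil) .nil))))) (.nd (nat_lit 8) (.nd (nat_lit 9) 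
(.lf (nat_lit 606411) (.g (nat_lit 776) (.e (nat_lit 786176) (nat_lit 11) (.e (nat_lit 24658) (nat_lit 13) (.e (nat_lit 393300) (nat_lit 27) .nil))) (.g (nat_lit 0) (.e (nat_lit 433491) (nat_lit 0) .nil) .nil))) 
(.lf (nat_lit 606923) (.g (nat_lit 2164) (.e (nat_lit 794666) (nat_lit 22) (.e (nat_lit 196654) (nat_lit 11) (.e (nat_lit 16438) (nat_lit 9) (.e (nat_lit 426131) (nat_lit 3) (.e (nat_lit 204882) (nat_lit 32) .nil))))) (.g (nat_lit 0) (.e (nat_lit 435365) (nat_lit 0) .nil) .nil)))) (.nd (nat_lit 9) 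
(.lf (nat_lit 606667) (.g (nat_lit 532) (.e (nat_lit 786481) (nat_lit 30) (.e (nat_lit 360467) (nat_lit 3) (.e (nat_lit 516117) (nat_lit 1) .nil))) (.g (nat_lit 0) (.e (nat_lit 434129) (nat_lit 0) .nil) .nil))) 
(.lf (nat_lit 607179) (.g (nat_lit 370) (.e (nat_lit 794680) (nat_lit 24) (.e (nat_lit 213030) (nat_lit 11) (.e (nat_lit 24617) (nat_lit 7) .nil))) (.g (nat_lit 0) (.e (nat_lit 436735) (nat_lit 0) .nil) .nil))))))) (.nd (nat_lit 6) (.nd (nat_lit 7) (.nd (nat_lit 8) (.nd (nat_lit 9) 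
(.lf (nat_lit 606251) (.g (nat_lit 1572) (.e (nat_lit 778469) (nat_lit 11) (.e (nat_lit 24608) (nat_lit 3) (.e (nat_lit 98365) (nat_lit 26) (.e (nat_lit 426187) (nat_lit 9) .nil)))) (.g (nat_lit 0) (.e (nat_lit 433296) (nat_lit 0) .nil) .nil))) 
(.lf (nat_lit 606763) (.g (nat_lit 579) (.e (nat_lit 786483) (nat_lit 30) (.e (nat_lit 360452) (nat_lit 0) (.e (nat_lit 5907) (nat_lit 320) .nil))) (.g (nat_lit 0) (.e (nat_lit 434291) (nat_lit 0) .nil) .nil)))) (.nd (nat_lit 9) 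
(.lf (nat_lit 606507) (.g (nat_lit 1784) (.e (nat_lit 786471) (nat_lit 27) (.e (nat_lit 336228) (nat_lit 14) (.e (nat_lit 401456) (nat_lit 13) (.e (nat_lit 483402) (nat_lit 26) .nil)))) (.g (nat_lit 0) (.e (nat_lit 433757) (nat_lit 0) .nil) .nil))) 
(.lf (nat_lit 607019) (.g (nat_lit 2203) (.e (nat_lit 794669) (nat_lit 22) (.e (nat_lit 196670) (nat_lit 14) (.e (nat_lit 73746) (nat_lit 3) (.e (nat_lit 516115) (nat_lit 1) (.e (nat_lit 164153) (nat_lit 152) .nil))))) (.g (nat_lit 0) (.e (nat_lit 436219) (nat_lit 0) .nil) .nil))))) (.nd (nat_lit 8) (.nd (nat_lit 9) 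
(.lf (nat_lit 606379) (.g (nat_lit 1122) (.e (nat_lit 786176) (nat_lit 11) (.e (nat_lit 24608) (nat_lit 3) (.e (nat_lit 98370) (nat_lit 28) .nil))) (.g (nat_lit 0) (.e (nat_lit 433453) (nat_lit 0) .nil) .nil))) 
(.lf (nat_lit 606891) (.g (nat_lit 1586) (.e (nat_lit 794637) (nat_lit 11) (.e (nat_lit 336086) (nat_lit 9) (.e (nat_lit 336421) (nat_lit 28) (.e (nat_lit 434197) (nat_lit 16) (.e (nat_lit 164289) (nat_lit 224) (.e (nat_lit 164112) (nat_lit 118) .nil)))))) (.g (nat_lit 1) (.e (nat_lit 434828) (nat_lit 0) .nil) .nil)))) (.nd (nat_lit 9) 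
(.lf (nat_lit 606635) (.g (nat_lit 390) (.e (nat_lit 786481) (nat_lit 30) (.e (nat_lit 360466) (nat_lit 3) (.e (nat_lit 516117) (nat_lit 1) .nil))) (.g (nat_lit 0) (.e (nat_lit 434086) (nat_lit 0) .nil) .nil))) 
(.lf (nat_lit 607147) (.g (nat_lit 1811) (.e (nat_lit 794673) (nat_lit 23) (.e (nat_lit 204880) (nat_lit 32) (.e (nat_lit 385068) (nat_lit 26) (.e (nat_lit 532504) (nat_lit 1) .nil)))) (.g (nat_lit 0) (.e (nat_lit 436684) (nat_lit 0) .nil) .nil)))))) (.nd (nat_lit 7) (.nd (nat_lit 8) (.nd (nat_lit 9) 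
(.lf (nat_lit 606315) (.g (nat_lit 1516) (.e (nat_lit 778469) (nat_lit 11) (.e (nat_lit 24658) (nat_lit 13) (.e (nat_lit 393233) (nat_lit 17) (.e (nat_lit 7593) (nat_lit 407) (.e (nat_lit 73774) (nat_lit 26) .nil))))) (.g (nat_lit 0) (.e (nat_lit 433383) (nat_lit 0) .nil) .nil))) 
(.lf (nat_lit 606827) (.g (nat_lit 2242) (.e (nat_lit 786489) (nat_lit 34) (.e (nat_lit 393301) (nat_lit 27) (.e (nat_lit 491538) (nat_lit 3) (.e (nat_lit 98342) (nat_lit 20) (.e (nat_lit 221202) (nat_lit 20) .nil))))) (.g (nat_lit 0) (.e (nat_lit 434739) (nat_lit 0) .nil) .nil)))) (.nd (nat_lit 9) 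
(.lf (nat_lit 606571) (.g (nat_lit 382) (.e (nat_lit 786480) (nat_lit 29) (.e (nat_lit 352309) (nat_lit 21) (.e (nat_lit 57870) (nat_lit 264) .nil))) (.g (nat_lit 0) (.e (nat_lit 433966) (nat_lit 0) .nil) .nil))) 
(.lf (nat_lit 607083) (.g (nat_lit 2395) (.e (nat_lit 794673) (nat_lit 23) (.e (nat_lit 204852) (nat_lit 26) (.e (nat_lit 336326) (nat_lit 18) (.e (nat_lit 204830) (nat_lit 18) (.e (nat_lit 57830) (nat_lit 250) (.e (nat_lit 1016) (nat_lit 81) (.e (nat_lit 1251) (nat_lit 92) (.e (nat_lit 98321) (nat_lit 17) (.e (nat_lit 3771) (nat_lit 229) .nil))))))))) (.g (nat_lit 1) (.e (nat_lit 436554) (nat_lit 0) .nil) .nil))))) 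
(.nd (nat_lit 8) (.nd (nat_lit 9) 
(.lf (nat_lit 606443) (.g (nat_lit 1773) (.e (nat_lit 786436) (nat_lit 0) (.e (nat_lit 3238) (nat_lit 197) (.e (nat_lit 532482) (nat_lit 0) (.e (nat_lit 6722) (nat_lit 362) (.e (nat_lit 180243) (nat_lit 5) .nil))))) (.g (nat_lit 0) (.e (nat_lit 433589) (nat_lit 0) .nil) .nil))) 
(.lf (nat_lit 606955) (.g (nat_lit 3537) (.e (nat_lit 794669) (nat_lit 22) (.e (nat_lit 196656) (nat_lit 11) (.e (nat_lit 16436) (nat_lit 9) (.e (nat_lit 426131) (nat_lit 3) (.e (nat_lit 204880) (nat_lit 32) (.e (nat_lit 385109) (nat_lit 51) .nil)))))) (.g (nat_lit 1) (.e (nat_lit 435841) (nat_lit 0) .nil) .nil)))) (.nd (nat_lit 9) 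
(.lf (nat_lit 606699) (.g (nat_lit 2481) (.e (nat_lit 786481) (nat_lit 30) (.e (nat_lit 360473) (nat_lit 8) (.e (nat_lit 557091) (nat_lit 12) (.e (nat_lit 163999) (nat_lit 38) (.e (nat_lit 639020) (nat_lit 16) .nil))))) (.g (nat_lit 0) (.e (nat_lit 434192) (nat_lit 0) .nil) .nil))) 
(.lf (nat_lit 607211) (.g (nat_lit 2020) (.e (nat_lit 794684) (nat_lit 25) (.e (nat_lit 221214) (nat_lit 23) (.e (nat_lit 204883) (nat_lit 33) (.e (nat_lit 401459) (nat_lit 13) (.e (nat_lit 483344) (nat_lit 17) (.e (nat_lit 2367) (nat_lit 153) .nil)))))) (.g (nat_lit 1) (.e (nat_lit 436986) (nat_lit 0) .nil) .nil)))))))) 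
(.nd (nat_lit 5) (.nd (nat_lit 6) (.nd (nat_lit 7) (.nd (nat_lit 8) (.nd (nat_lit 9) 
(.lf (nat_lit 606235) (.g (nat_lit 3301) (.e (nat_lit 778469) (nat_lit 11) (.e (nat_lit 24604) (nat_lit 2) (.e (nat_lit 90170) (nat_lit 13) (.e (nat_lit 172113) (nat_lit 10) .nil)))) (.g (nat_lit 0) (.e (nat_lit 433280) (nat_lit 0) .nil) .nil))) 
(.lf (nat_lit 606747) (.g (nat_lit 2523) (.e (nat_lit 786482) (nat_lit 30) (.e (nat_lit 360475) (nat_lit 8) (.e (nat_lit 557091) (nat_lit 12) (.e (nat_lit 164007) (nat_lit 41) .nil)))) (.g (nat_lit 0) (.e (nat_lit 434260) (nat_lit 0) .nil) .nil)))) (.nd (nat_lit 9) 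
(.lf (nat_lit 606491) (.g (nat_lit 1698) (.e (nat_lit 786469) (nat_lit 27) (.e (nat_lit 336061) (nat_lit 7) (.e (nat_lit 319531) (nat_lit 16) (.e (nat_lit 294656) (nat_lit 35) .nil)))) (.g (nat_lit 0) (.e (nat_lit 433727) (nat_lit 0) .nil) .nil))) 
(.lf (nat_lit 607003) (.g (nat_lit 2124) (.e (nat_lit 794669) (nat_lit 22) (.e (nat_lit 196668) (nat_lit 14) (.e (nat_lit 73747) (nat_lit 3) (.e (nat_lit 516117) (nat_lit 1) (.e (nat_lit 164184) (nat_lit 155) .nil))))) (.g (nat_lit 0) (.e (nat_lit 436073) (nat_lit 0) .nil) .nil))))) (.nd (nat_lit 8) (.nd (nat_lit 9) 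
(.lf (nat_lit 606363) (.g (nat_lit 3717) (.e (nat_lit 778470) (nat_lit 11) (.e (nat_lit 24658) (nat_lit 13) (.e (nat_lit 393301) (nat_lit 27) (.e (nat_lit 491559) (nat_lit 10) (.e (nat_lit 352000) (nat_lit 44) .nil))))) (.g (nat_lit 0) (.e (nat_lit 433435) (nat_lit 0) .nil) .nil))) 
(.lf (nat_lit 606875) (.g (nat_lit 673) (.e (nat_lit 794635) (nat_lit 11) (.e (nat_lit 336151) (nat_lit 9) (.e (nat_lit 336437) (nat_lit 31) (.e (nat_lit 458769) (nat_lit 16) (.e (nat_lit 164293) (nat_lit 224) (.e (nat_lit 164112) (nat_lit 118) .nil)))))) (.g (nat_lit 1) (.e (nat_lit 434811) (nat_lit 0) .nil) .nil)))) (.nd (nat_lit 9) 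
(.lf (nat_lit 606619) (.g (nat_lit 2070) (.e (nat_lit 786481) (nat_lit 30) (.e (nat_lit 360452) (nat_lit 0) (.e (nat_lit 5907) (nat_lit 320) (.e (nat_lit 1221) (nat_lit 90) (.e (nat_lit 81923) (nat_lit 0) .nil))))) (.g (nat_lit 0) (.e (nat_lit 434051) (nat_lit 0) .nil) .nil))) 
(.lf (nat_lit 607131) (.g (nat_lit 1457) (.e (nat_lit 794673) (nat_lit 23) (.e (nat_lit 204863) (nat_lit 27) (.e (nat_lit 344118) (nat_lit 21) (.e (nat_lit 516117) (nat_lit 1) .nil)))) (.g (nat_lit 0) (.e (nat_lit 436654) (nat_lit 0) .nil) .nil)))))) (.nd (nat_lit 7) (.nd (nat_lit 8) (.nd (nat_lit 9) 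
(.lf (nat_lit 606299) (.g (nat_lit 1766) (.e (nat_lit 778469) (nat_lit 11) (.e (nat_lit 24655) (nat_lit 13) (.e (nat_lit 393299) (nat_lit 27) (.e (nat_lit 491558) (nat_lit 10) .nil)))) (.g (nat_lit 0) (.e (nat_lit 433354) (nat_lit 0) .nil) .nil))) 
(.lf (nat_lit 606811) (.g (nat_lit 425) (.e (nat_lit 786483) (nat_lit 30) (.e (nat_lit 360475) (nat_lit 8) (.e (nat_lit 557119) (nat_lit 18) .nil))) (.g (nat_lit 0) (.e (nat_lit 434677) (nat_lit 0) .nil) .nil)))) (.nd (nat_lit 9) 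
(.lf (nat_lit 606555) (.g (nat_lit 1733) (.e (nat_lit 786478) (nat_lit 29) (.e (nat_lit 352269) (nat_lit 7) (.e (nat_lit 245776) (nat_lit 4) (.e (nat_lit 172079) (nat_lit 7) (.e (nat_lit 409618) (nat_lit 10) (.e (nat_lit 7936) (nat_lit 76) .nil)))))) (.g (nat_lit 1) (.e (nat_lit 433940) (nat_lit 0) .nil) .nil))) 
(.lf (nat_lit 607067) (.g (nat_lit 975) (.e (nat_lit 794673) (nat_lit 23) (.e (nat_lit 204830) (nat_lit 18) (.e (nat_lit 57925) (nat_lit 282) .nil))) (.g (nat_lit 0) (.e (nat_lit 436508) (nat_lit 0) .nil) .nil))))) (.nd (nat_lit 8) (.nd (nat_lit 9) 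
(.lf (nat_lit 606427) (.g (nat_lit 1128) (.e (nat_lit 778474) (nat_lit 12) (.e (nat_lit 163962) (nat_lit 25) (.e (nat_lit 532500) (nat_lit 1) (.e (nat_lit 57927) (nat_lit 282) .nil)))) (.g (nat_lit 0) (.e (nat_lit 433512) (nat_lit 0) .nil) .nil))) 
(.lf (nat_lit 606939) (.g (nat_lit 2152) (.e (nat_lit 794668) (nat_lit 22) (.e (nat_lit 196666) (nat_lit 13) (.e (nat_lit 65569) (nat_lit 3) (.e (nat_lit 98334) (nat_lit 18) (.e (nat_lit 164159) (nat_lit 152) (.e (nat_lit 1025) (nat_lit 81) (.e (nat_lit 1254) (nat_lit 92) (.e (nat_lit 98321) (nat_lit 17) (.e (nat_lit 3771) (nat_lit 229) .nil))))))))) (.g (nat_lit 1) (.e (nat_lit 435728) (nat_lit 0) .nil) .nil)))) 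
(.nd (nat_lit 9) 
(.lf (nat_lit 606683) (.g (nat_lit 1295) (.e (nat_lit 786481) (nat_lit 30) (.e (nat_lit 360473) (nat_lit 8) (.e (nat_lit 557089) (nat_lit 12) (.e (nat_lit 164008) (nat_lit 41) .nil)))) (.g (nat_lit 0) (.e (nat_lit 434169) (nat_lit 0) .nil) .nil))) 
(.lf (nat_lit 607195) (.g (nat_lit 1130) (.e (nat_lit 794683) (nat_lit 25) (.e (nat_lit 221194) (nat_lit 11) (.e (nat_lit 336231) (nat_lit 14) .nil))) (.g (nat_lit 0) (.e (nat_lit 436792) (nat_lit 0) .nil) .nil))))))) (.nd (nat_lit 6) (.nd (nat_lit 7) (.nd (nat_lit 8) (.nd (nat_lit 9) 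
(.lf (nat_lit 606267) (.g (nat_lit 4784) (.e (nat_lit 778469) (nat_lit 11) (.e (nat_lit 24608) (nat_lit 3) (.e (nat_lit 98373) (nat_lit 29) (.e (nat_lit 450588) (nat_lit 10) (.e (nat_lit 573474) (nat_lit 12) .nil))))) (.g (nat_lit 0) (.e (nat_lit 433313) (nat_lit 0) .nil) .nil))) 
(.lf (nat_lit 606779) (.g (nat_lit 1750) (.e (nat_lit 786483) (nat_lit 30) (.e (nat_lit 360457) (nat_lit 0) (.e (nat_lit 5947) (nat_lit 322) (.e (nat_lit 57424) (nat_lit 14) (.e (nat_lit 352262) (nat_lit 0) .nil))))) (.g (nat_lit 0) (.e (nat_lit 434317) (nat_lit 0) .nil) .nil)))) (.nd (nat_lit 9) 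
(.lf (nat_lit 606523) (.g (nat_lit 2829) (.e (nat_lit 786473) (nat_lit 27) (.e (nat_lit 336235) (nat_lit 14) (.e (nat_lit 401438) (nat_lit 9) (.e (nat_lit 426555) (nat_lit 32) (.e (nat_lit 376837) (nat_lit 0) .nil))))) (.g (nat_lit 0) (.e (nat_lit 433783) (nat_lit 0) .nil) .nil))) 
(.lf (nat_lit 607035) (.g (nat_lit 2018) (.e (nat_lit 794669) (nat_lit 22) (.e (nat_lit 196670) (nat_lit 14) (.e (nat_lit 73746) (nat_lit 3) (.e (nat_lit 516120) (nat_lit 1) (.e (nat_lit 164147) (nat_lit 152) .nil))))) (.g (nat_lit 0) (.e (nat_lit 436308) (nat_lit 0) .nil) .nil))))) (.nd (nat_lit 8) (.nd (nat_lit 9) 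
(.lf (nat_lit 606395) (.g (nat_lit 1125) (.e (nat_lit 786176) (nat_lit 11) (.e (nat_lit 24608) (nat_lit 3) (.e (nat_lit 98381) (nat_lit 31) (.e (nat_lit 466967) (nat_lit 20) .nil)))) (.g (nat_lit 0) (.e (nat_lit 433469) (nat_lit 0) .nil) .nil))) 
(.lf (nat_lit 606907) (.g (nat_lit 1146) (.e (nat_lit 794659) (nat_lit 21) (.e (nat_lit 164399) (nat_lit 256) (.e (nat_lit 57435) (nat_lit 17) (.e (nat_lit 376868) (nat_lit 23) .nil)))) (.g (nat_lit 0) (.e (nat_lit 435038) (nat_lit 0) .nil) .nil)))) (.nd (nat_lit 9) 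
(.lf (nat_lit 606651) (.g (nat_lit 1771) (.e (nat_lit 786481) (nat_lit 30) (.e (nat_lit 360466) (nat_lit 3) (.e (nat_lit 516119) (nat_lit 1) (.e (nat_lit 164184) (nat_lit 155) (.e (nat_lit 122912) (nat_lit 13) .nil))))) (.g (nat_lit 0) (.e (nat_lit 434107) (nat_lit 0) .nil) .nil))) 
(.lf (nat_lit 607163) (.g (nat_lit 2648) (.e (nat_lit 794677) (nat_lit 24) (.e (nat_lit 213030) (nat_lit 11) (.e (nat_lit 24617) (nat_lit 7) (.e (nat_lit 319535) (nat_lit 17) (.e (nat_lit 294953) (nat_lit 12) .nil))))) (.g (nat_lit 0) (.e (nat_lit 436710) (nat_lit 0) .nil) .nil)))))) (.nd (nat_lit 7) (.nd (nat_lit 8) (.nd (nat_lit 9) 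
(.lf (nat_lit 606331) (.g (nat_lit 3199) (.e (nat_lit 778469) (nat_lit 11) (.e (nat_lit 24658) (nat_lit 13) (.e (nat_lit 393301) (nat_lit 27) (.e (nat_lit 491559) (nat_lit 10) (.e (nat_lit 344178) (nat_lit 44) .nil))))) (.g (nat_lit 0) (.e (nat_lit 433401) (nat_lit 0) .nil) .nil))) 
(.lf (nat_lit 606843) (.g (nat_lit 1516) (.e (nat_lit 802560) (nat_lit 5) (.e (nat_lit 114698) (nat_lit 11) (.e (nat_lit 426200) (nat_lit 9) (.e (nat_lit 426479) (nat_lit 27) .nil)))) (.g (nat_lit 0) (.e (nat_lit 434769) (nat_lit 0) .nil) .nil)))) (.nd (nat_lit 9) 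
(.lf (nat_lit 606587) (.g (nat_lit 348) (.e (nat_lit 786480) (nat_lit 29) (.e (nat_lit 352312) (nat_lit 22) (.e (nat_lit 98048) (nat_lit 0) .nil))) (.g (nat_lit 0) (.e (nat_lit 433995) (nat_lit 0) .nil) .nil))) 
(.lf (nat_lit 607099) (.g (nat_lit 2793) (.e (nat_lit 794673) (nat_lit 23) (.e (nat_lit 204862) (nat_lit 27) (.e (nat_lit 344117) (nat_lit 21) (.e (nat_lit 516116) (nat_lit 1) (.e (nat_lit 164158) (nat_lit 152) .nil))))) (.g (nat_lit 0) (.e (nat_lit 436587) (nat_lit 0) .nil) .nil))))) (.nd (nat_lit 8) (.nd (nat_lit 9) 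
(.lf (nat_lit 606459) (.g (nat_lit 4156) (.e (nat_lit 786444) (nat_lit 15) (.e (nat_lit 1859) (nat_lit 124) (.e (nat_lit 557109) (nat_lit 15) (.e (nat_lit 188452) (nat_lit 23) (.e (nat_lit 204882) (nat_lit 32) .nil))))) (.g (nat_lit 0) (.e (nat_lit 433634) (nat_lit 0) .nil) .nil))) 
(.lf (nat_lit 606971) (.g (nat_lit 2307) (.e (nat_lit 794669) (nat_lit 22) (.e (nat_lit 196668) (nat_lit 14) (.e (nat_lit 73746) (nat_lit 3) (.e (nat_lit 516119) (nat_lit 1) (.e (nat_lit 164150) (nat_lit 152) (.e (nat_lit 974) (nat_lit 81) (.e (nat_lit 1256) (nat_lit 92) (.e (nat_lit 98321) (nat_lit 17) (.e (nat_lit 3771) (nat_lit 229) .nil))))))))) (.g (nat_lit 1) (.e (nat_lit 435895) (nat_lit 0) .nil) .nil)))) 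
(.nd (nat_lit 9) 
(.lf (nat_lit 606715) (.g (nat_lit 746) (.e (nat_lit 786481) (nat_lit 30) (.e (nat_lit 360473) (nat_lit 8) (.e (nat_lit 557094) (nat_lit 12) (.e (nat_lit 164008) (nat_lit 41) .nil)))) (.g (nat_lit 0) (.e (nat_lit 434218) (nat_lit 0) .nil) .nil))) 
(.lf (nat_lit 607227) (.g (nat_lit 797) (.e (nat_lit 802826) (nat_lit 11) (.e (nat_lit 336004) (nat_lit 2) (.e (nat_lit 90170) (nat_lit 13) .nil))) (.g (nat_lit 0) (.e (nat_lit 437012) (nat_lit 0) .nil) .nil)))))))))) (.nd (nat_lit 3) (.nd (nat_lit 4) (.nd (nat_lit 5) (.nd (nat_lit 6) (.nd (nat_lit 7) (.nd (nat_lit 8) (.nd (nat_lit 9) 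
(.lf (nat_lit 606215) (.g (nat_lit 4354) (.e (nat_lit 778468) (nat_lit 11) (.e (nat_lit 24608) (nat_lit 3) (.e (nat_lit 98373) (nat_lit 29) (.e (nat_lit 450587) (nat_lit 10) (.e (nat_lit 573477) (nat_lit 12) .nil))))) (.g (nat_lit 0) (.e (nat_lit 433259) (nat_lit 0) .nil) .nil))) 
(.lf (nat_lit 606727) (.g (nat_lit 2369) (.e (nat_lit 786481) (nat_lit 30) (.e (nat_lit 360481) (nat_lit 15) (.e (nat_lit 647170) (nat_lit 0) (.e (nat_lit 3098) (nat_lit 192) (.e (nat_lit 491565) (nat_lit 12) (.e (nat_lit 385102) (nat_lit 50) .nil)))))) (.g (nat_lit 1) (.e (nat_lit 434236) (nat_lit 0) .nil) .nil)))) (.nd (nat_lit 9) 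
(.lf (nat_lit 606471) (.g (nat_lit 2104) (.e (nat_lit 786456) (nat_lit 18) (.e (nat_lit 98367) (nat_lit 27) (.e (nat_lit 434231) (nat_lit 23) (.e (nat_lit 532506) (nat_lit 2) .nil)))) (.g (nat_lit 0) (.e (nat_lit 433667) (nat_lit 0) .nil) .nil))) 
(.lf (nat_lit 606983) (.g (nat_lit 2550) (.e (nat_lit 794669) (nat_lit 22) (.e (nat_lit 196668) (nat_lit 14) (.e (nat_lit 73747) (nat_lit 3) (.e (nat_lit 516115) (nat_lit 1) (.e (nat_lit 164152) (nat_lit 152) .nil))))) (.g (nat_lit 0) (.e (nat_lit 435937) (nat_lit 0) .nil) .nil))))) (.nd (nat_lit 8) (.nd (nat_lit 9) 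
(.lf (nat_lit 606343) (.g (nat_lit 1859) (.e (nat_lit 778469) (nat_lit 11) (.e (nat_lit 24660) (nat_lit 13) (.e (nat_lit 393259) (nat_lit 21) (.e (nat_lit 409618) (nat_lit 10) (.e (nat_lit 5023) (nat_lit 290) .nil))))) (.g (nat_lit 0) (.e (nat_lit 433413) (nat_lit 0) .nil) .nil))) 
(.lf (nat_lit 606855) (.g (nat_lit 1324) (.e (nat_lit 802560) (nat_lit 5) (.e (nat_lit 114698) (nat_lit 11) (.e (nat_lit 426335) (nat_lit 13) (.e (nat_lit 483406) (nat_lit 26) .nil)))) (.g (nat_lit 0) (.e (nat_lit 434788) (nat_lit 0) .nil) .nil)))) (.nd (nat_lit 9) 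
(.lf (nat_lit 606599) (.g (nat_lit 516) (.e (nat_lit 786480) (nat_lit 29) (.e (nat_lit 352318) (nat_lit 24) (.e (nat_lit 123195) (nat_lit 266) .nil))) (.g (nat_lit 0) (.e (nat_lit 434022) (nat_lit 0) .nil) .nil))) 
(.lf (nat_lit 607111) (.g (nat_lit 2581) (.e (nat_lit 794673) (nat_lit 23) (.e (nat_lit 204863) (nat_lit 27) (.e (nat_lit 344117) (nat_lit 21) (.e (nat_lit 516099) (nat_lit 0) .nil)))) (.g (nat_lit 0) (.e (nat_lit 436616) (nat_lit 0) .nil) .nil)))))) (.nd (nat_lit 7) (.nd (nat_lit 8) (.nd (nat_lit 9) 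
(.lf (nat_lit 606279) (.g (nat_lit 2692) (.e (nat_lit 778469) (nat_lit 11) (.e (nat_lit 24628) (nat_lit 9) (.e (nat_lit 336443) (nat_lit 32) (.e (nat_lit 466969) (nat_lit 21) (.e (nat_lit 164330) (nat_lit 230) (.e (nat_lit 163850) (nat_lit 0) (.e (nat_lit 3711) (nat_lit 227) .nil))))))) (.g (nat_lit 1) (.e (nat_lit 433328) (nat_lit 0) .nil) .nil))) 
(.lf (nat_lit 606791) (.g (nat_lit 2428) (.e (nat_lit 786483) (nat_lit 30) (.e (nat_lit 360474) (nat_lit 8) (.e (nat_lit 557091) (nat_lit 12) (.e (nat_lit 164012) (nat_lit 42) .nil)))) (.g (nat_lit 0) (.e (nat_lit 434417) (nat_lit 0) .nil) .nil)))) (.nd (nat_lit 9) 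
(.lf (nat_lit 606535) (.g (nat_lit 236) (.e (nat_lit 786477) (nat_lit 28) (.e (nat_lit 344068) (nat_lit 0) (.e (nat_lit 3090) (nat_lit 191) .nil))) (.g (nat_lit 0) (.e (nat_lit 433833) (nat_lit 0) .nil) .nil))) 
(.lf (nat_lit 607047) (.g (nat_lit 1752) (.e (nat_lit 794672) (nat_lit 23) (.e (nat_lit 204829) (nat_lit 18) (.e (nat_lit 57927) (nat_lit 282) (.e (nat_lit 163875) (nat_lit 3) .nil)))) (.g (nat_lit 0) (.e (nat_lit 436427) (nat_lit 0) .nil) .nil))))) (.nd (nat_lit 8) (.nd (nat_lit 9) 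
(.lf (nat_lit 606407) (.g (nat_lit 2778) (.e (nat_lit 786176) (nat_lit 11) (.e (nat_lit 24658) (nat_lit 13) (.e (nat_lit 393234) (nat_lit 17) (.e (nat_lit 7591) (nat_lit 407) (.e (nat_lit 81664) (nat_lit 26) .nil))))) (.g (nat_lit 0) (.e (nat_lit 433487) (nat_lit 0) .nil) .nil))) 
(.lf (nat_lit 606919) (.g (nat_lit 3166) (.e (nat_lit 794665) (nat_lit 22) (.e (nat_lit 196656) (nat_lit 11) (.e (nat_lit 16436) (nat_lit 9) (.e (nat_lit 426131) (nat_lit 3) (.e (nat_lit 204882) (nat_lit 32) (.e (nat_lit 385109) (nat_lit 51) .nil)))))) (.g (nat_lit 1) (.e (nat_lit 435241) (nat_lit 0) .nil) .nil)))) (.nd (nat_lit 9) 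
(.lf (nat_lit 606663) (.g (nat_lit 1649) (.e (nat_lit 786481) (nat_lit 30) (.e (nat_lit 360467) (nat_lit 3) (.e (nat_lit 516115) (nat_lit 1) (.e (nat_lit 164153) (nat_lit 152) .nil)))) (.g (nat_lit 0) (.e (nat_lit 434124) (nat_lit 0) .nil) .nil))) 
(.lf (nat_lit 607175) (.g (nat_lit 2696) (.e (nat_lit 794679) (nat_lit 24) (.e (nat_lit 213032) (nat_lit 11) (.e (nat_lit 24617) (nat_lit 7) (.e (nat_lit 319533) (nat_lit 16) (.e (nat_lit 286758) (nat_lit 12) .nil))))) (.g (nat_lit 0) (.e (nat_lit 436727) (nat_lit 0) .nil) .nil))))))) (.nd (nat_lit 6) (.nd (nat_lit 7) (.nd (nat_lit 8) (.nd (nat_lit 9) 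
(.lf (nat_lit 606247) (.g (nat_lit 1999) (.e (nat_lit 778469) (nat_lit 11) (.e (nat_lit 24607) (nat_lit 3) (.e (nat_lit 98365) (nat_lit 26) (.e (nat_lit 426188) (nat_lit 9) (.e (nat_lit 426438) (nat_lit 18) (.e (nat_lit 98323) (nat_lit 17) (.e (nat_lit 3711) (nat_lit 227) .nil))))))) (.g (nat_lit 1) (.e (nat_lit 433292) (nat_lit 0) .nil) .nil))) 
(.lf (nat_lit 606759) (.g (nat_lit 1012) (.e (nat_lit 786483) (nat_lit 30) (.e (nat_lit 360451) (nat_lit 0) (.e (nat_lit 5898) (nat_lit 320) (.e (nat_lit 1218) (nat_lit 90) .nil)))) (.g (nat_lit 0) (.e (nat_lit 434283) (nat_lit 0) .nil) .nil)))) (.nd (nat_lit 9) 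
(.lf (nat_lit 606503) (.g (nat_lit 2059) (.e (nat_lit 786470) (nat_lit 27) (.e (nat_lit 336226) (nat_lit 14) (.e (nat_lit 401457) (nat_lit 13) (.e (nat_lit 483408) (nat_lit 26) (.e (nat_lit 385103) (nat_lit 50) .nil))))) (.g (nat_lit 0) (.e (nat_lit 433748) (nat_lit 0) .nil) .nil))) 
(.lf (nat_lit 607015) (.g (nat_lit 1831) (.e (nat_lit 794669) (nat_lit 22) (.e (nat_lit 196668) (nat_lit 14) (.e (nat_lit 73753) (nat_lit 8) (.e (nat_lit 557091) (nat_lit 12) .nil)))) (.g (nat_lit 0) (.e (nat_lit 436211) (nat_lit 0) .nil) .nil))))) (.nd (nat_lit 8) (.nd (nat_lit 9) 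
(.lf (nat_lit 606375) (.g (nat_lit 973) (.e (nat_lit 786176) (nat_lit 11) (.e (nat_lit 24607) (nat_lit 3) (.e (nat_lit 98365) (nat_lit 26) (.e (nat_lit 426306) (nat_lit 12) .nil)))) (.g (nat_lit 0) (.e (nat_lit 433449) (nat_lit 0) .nil) .nil))) 
(.lf (nat_lit 606887) (.g (nat_lit 2795) (.e (nat_lit 794637) (nat_lit 11) (.e (nat_lit 336004) (nat_lit 2) (.e (nat_lit 90170) (nat_lit 13) (.e (nat_lit 172113) (nat_lit 10) (.e (nat_lit 434247) (nat_lit 28) .nil))))) (.g (nat_lit 0) (.e (nat_lit 434823) (nat_lit 0) .nil) .nil)))) (.nd (nat_lit 9) 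
(.lf (nat_lit 606631) (.g (nat_lit 1480) (.e (nat_lit 786481) (nat_lit 30) (.e (nat_lit 368384) (nat_lit 5) (.e (nat_lit 532579) (nat_lit 26) (.e (nat_lit 426172) (nat_lit 7) (.e (nat_lit 417536) (nat_lit 10) (.e (nat_lit 933) (nat_lit 76) .nil)))))) (.g (nat_lit 1) (.e (nat_lit 434080) (nat_lit 0) .nil) .nil))) 
(.lf (nat_lit 607143) (.g (nat_lit 1865) (.e (nat_lit 794673) (nat_lit 23) (.e (nat_lit 204880) (nat_lit 32) (.e (nat_lit 385066) (nat_lit 26) (.e (nat_lit 532501) (nat_lit 1) .nil)))) (.g (nat_lit 0) (.e (nat_lit 436675) (nat_lit 0) .nil) .nil)))))) (.nd (nat_lit 7) (.nd (nat_lit 8) (.nd (nat_lit 9) 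
(.lf (nat_lit 606311) (.g (nat_lit 3463) (.e (nat_lit 778469) (nat_lit 11) (.e (nat_lit 24657) (nat_lit 13) (.e (nat_lit 393294) (nat_lit 26) (.e (nat_lit 475214) (nat_lit 42) (.e (nat_lit 720898) (nat_lit 0) .nil))))) (.g (nat_lit 0) (.e (nat_lit 433373) (nat_lit 0) .nil) .nil))) 
(.lf (nat_lit 606823) (.g (nat_lit 2081) (.e (nat_lit 786483) (nat_lit 30) (.e (nat_lit 360484) (nat_lit 15) (.e (nat_lit 647203) (nat_lit 14) (.e (nat_lit 1349) (nat_lit 102) (.e (nat_lit 286758) (nat_lit 12) .nil))))) (.g (nat_lit 0) (.e (nat_lit 434727) (nat_lit 0) .nil) .nil)))) (.nd (nat_lit 9) 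
(.lf (nat_lit 606567) (.g (nat_lit 2151) (.e (nat_lit 786480) (nat_lit 29) (.e (nat_lit 352262) (nat_lit 0) (.e (nat_lit 3747) (nat_lit 228) (.e (nat_lit 786473) (nat_lit 27) (.e (nat_lit 343808) (nat_lit 12) .nil))))) (.g (nat_lit 0) (.e (nat_lit 433959) (nat_lit 0) .nil) .nil))) 
(.lf (nat_lit 607079) (.g (nat_lit 3316) (.e (nat_lit 794673) (nat_lit 23) (.e (nat_lit 204841) (nat_lit 22) (.e (nat_lit 147495) (nat_lit 11) (.e (nat_lit 24608) (nat_lit 3) (.e (nat_lit 98384) (nat_lit 32) (.e (nat_lit 483072) (nat_lit 51) .nil)))))) (.g (nat_lit 1) (.e (nat_lit 436535) (nat_lit 0) .nil) .nil))))) (.nd (nat_lit 8) (.nd (nat_lit 9) 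
(.lf (nat_lit 606439) (.g (nat_lit 2558) (.e (nat_lit 778561) (nat_lit 14) (.e (nat_lit 2797) (nat_lit 180) (.e (nat_lit 303127) (nat_lit 9) (.e (nat_lit 426428) (nat_lit 17) (.e (nat_lit 98048) (nat_lit 6) .nil))))) (.g (nat_lit 0) (.e (nat_lit 433553) (nat_lit 0) .nil) .nil))) 
(.lf (nat_lit 606951) (.g (nat_lit 1909) (.e (nat_lit 794669) (nat_lit 22) (.e (nat_lit 196654) (nat_lit 11) (.e (nat_lit 16436) (nat_lit 9) (.e (nat_lit 426131) (nat_lit 3) (.e (nat_lit 204882) (nat_lit 32) (.e (nat_lit 392960) (nat_lit 51) .nil)))))) (.g (nat_lit 1) (.e (nat_lit 435820) (nat_lit 0) .nil) .nil)))) (.nd (nat_lit 9) 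
(.lf (nat_lit 606695) (.g (nat_lit 1569) (.e (nat_lit 786481) (nat_lit 30) (.e (nat_lit 360473) (nat_lit 8) (.e (nat_lit 557091) (nat_lit 12) (.e (nat_lit 163997) (nat_lit 37) .nil)))) (.g (nat_lit 0) (.e (nat_lit 434188) (nat_lit 0) .nil) .nil))) 
(.lf (nat_lit 607207) (.g (nat_lit 1097) (.e (nat_lit 794684) (nat_lit 25) (.e (nat_lit 221194) (nat_lit 11) (.e (nat_lit 336067) (nat_lit 8) .nil))) (.g (nat_lit 0) (.e (nat_lit 436867) (nat_lit 0) .nil) .nil)))))))) (.nd (nat_lit 5) (.nd (nat_lit 6) (.nd (nat_lit 7) (.nd (nat_lit 8) (.nd (nat_lit 9) 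
(.lf (nat_lit 606231) (.g (nat_lit 3707) (.e (nat_lit 778468) (nat_lit 11) (.e (nat_lit 24658) (nat_lit 13) (.e (nat_lit 393301) (nat_lit 27) (.e (nat_lit 491559) (nat_lit 10) (.e (nat_lit 352000) (nat_lit 44) .nil))))) (.g (nat_lit 0) (.e (nat_lit 433276) (nat_lit 0) .nil) .nil))) 
(.lf (nat_lit 606743) (.g (nat_lit 3022) (.e (nat_lit 786482) (nat_lit 30) (.e (nat_lit 360475) (nat_lit 8) (.e (nat_lit 557091) (nat_lit 12) (.e (nat_lit 163999) (nat_lit 38) (.e (nat_lit 639021) (nat_lit 16) .nil))))) (.g (nat_lit 0) (.e (nat_lit 434256) (nat_lit 0) .nil) .nil)))) (.nd (nat_lit 9) 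
(.lf (nat_lit 606487) (.g (nat_lit 1519) (.e (nat_lit 786467) (nat_lit 27) (.e (nat_lit 336228) (nat_lit 14) (.e (nat_lit 401456) (nat_lit 13) (.e (nat_lit 483406) (nat_lit 26) .nil)))) (.g (nat_lit 0) (.e (nat_lit 433722) (nat_lit 0) .nil) .nil))) 
(.lf (nat_lit 606999) (.g (nat_lit 1914) (.e (nat_lit 794669) (nat_lit 22) (.e (nat_lit 196668) (nat_lit 14) (.e (nat_lit 73747) (nat_lit 3) (.e (nat_lit 516117) (nat_lit 1) (.e (nat_lit 164159) (nat_lit 152) .nil))))) (.g (nat_lit 0) (.e (nat_lit 436031) (nat_lit 0) .nil) .nil))))) (.nd (nat_lit 8) (.nd (nat_lit 9) 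
(.lf (nat_lit 606359) (.g (nat_lit 2680) (.e (nat_lit 778470) (nat_lit 11) (.e (nat_lit 24658) (nat_lit 13) (.e (nat_lit 393234) (nat_lit 17) (.e (nat_lit 7591) (nat_lit 407) .nil)))) (.g (nat_lit 0) (.e (nat_lit 433431) (nat_lit 0) .nil) .nil))) 
(.lf (nat_lit 606871) (.g (nat_lit 693) (.e (nat_lit 794635) (nat_lit 11) (.e (nat_lit 336151) (nat_lit 9) (.e (nat_lit 336437) (nat_lit 31) (.e (nat_lit 458769) (nat_lit 16) (.e (nat_lit 164286) (nat_lit 224) (.e (nat_lit 164112) (nat_lit 118) .nil)))))) (.g (nat_lit 1) (.e (nat_lit 434807) (nat_lit 0) .nil) .nil)))) (.nd (nat_lit 9) 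
(.lf (nat_lit 606615) (.g (nat_lit 1100) (.e (nat_lit 786481) (nat_lit 30) (.e (nat_lit 360452) (nat_lit 0) (.e (nat_lit 5907) (nat_lit 320) (.e (nat_lit 1219) (nat_lit 90) .nil)))) (.g (nat_lit 0) (.e (nat_lit 434047) (nat_lit 0) .nil) .nil))) 
(.lf (nat_lit 607127) (.g (nat_lit 2436) (.e (nat_lit 794673) (nat_lit 23) (.e (nat_lit 204863) (nat_lit 27) (.e (nat_lit 344117) (nat_lit 21) (.e (nat_lit 516118) (nat_lit 1) (.e (nat_lit 164183) (nat_lit 154) .nil))))) (.g (nat_lit 0) (.e (nat_lit 436646) (nat_lit 0) .nil) .nil)))))) (.nd (nat_lit 7) (.nd (nat_lit 8) (.nd (nat_lit 9) 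
(.lf (nat_lit 606295) (.g (nat_lit 1997) (.e (nat_lit 778469) (nat_lit 11) (.e (nat_lit 24655) (nat_lit 13) (.e (nat_lit 393233) (nat_lit 17) (.e (nat_lit 7593) (nat_lit 407) (.e (nat_lit 73774) (nat_lit 26) .nil))))) (.g (nat_lit 0) (.e (nat_lit 433350) (nat_lit 0) .nil) .nil))) 
(.lf (nat_lit 606807) (.g (nat_lit 2188) (.e (nat_lit 786483) (nat_lit 30) (.e (nat_lit 360475) (nat_lit 8) (.e (nat_lit 557091) (nat_lit 12) (.e (nat_lit 164005) (nat_lit 41) .nil)))) (.g (nat_lit 0) (.e (nat_lit 434635) (nat_lit 0) .nil) .nil)))) (.nd (nat_lit 9) 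
(.lf (nat_lit 606551) (.g (nat_lit 2169) (.e (nat_lit 786478) (nat_lit 29) (.e (nat_lit 352262) (nat_lit 0) (.e (nat_lit 3747) (nat_lit 228) (.e (nat_lit 786473) (nat_lit 27) (.e (nat_lit 343808) (nat_lit 12) .nil))))) (.g (nat_lit 0) (.e (nat_lit 433934) (nat_lit 0) .nil) .nil))) 
(.lf (nat_lit 607063) (.g (nat_lit 5079) (.e (nat_lit 794673) (nat_lit 23) (.e (nat_lit 204830) (nat_lit 18) (.e (nat_lit 57852) (nat_lit 252) (.e (nat_lit 57373) (nat_lit 2) (.e (nat_lit 90158) (nat_lit 11) (.e (nat_lit 24608) (nat_lit 3) (.e (nat_lit 98321) (nat_lit 17) (.e (nat_lit 3771) (nat_lit 229) .nil)))))))) (.g (nat_lit 1) (.e (nat_lit 436504) (nat_lit 0) .nil) .nil))))) 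
(.nd (nat_lit 8) (.nd (nat_lit 9) 
(.lf (nat_lit 606423) (.g (nat_lit 1342) (.e (nat_lit 786176) (nat_lit 11) (.e (nat_lit 24660) (nat_lit 13) (.e (nat_lit 393260) (nat_lit 21) (.e (nat_lit 417536) (nat_lit 10) .nil)))) (.g (nat_lit 0) (.e (nat_lit 433503) (nat_lit 0) .nil) .nil))) 
(.lf (nat_lit 606935) (.g (nat_lit 1656) (.e (nat_lit 794668) (nat_lit 22) (.e (nat_lit 196666) (nat_lit 13) (.e (nat_lit 65568) (nat_lit 2) (.e (nat_lit 98048) (nat_lit 3) .nil)))) (.g (nat_lit 0) (.e (nat_lit 435712) (nat_lit 0) .nil) .nil)))) (.nd (nat_lit 9) 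
(.lf (nat_lit 606679) (.g (nat_lit 1963) (.e (nat_lit 786481) (nat_lit 30) (.e (nat_lit 360473) (nat_lit 8) (.e (nat_lit 557089) (nat_lit 12) (.e (nat_lit 164000) (nat_lit 38) (.e (nat_lit 639021) (nat_lit 16) .nil))))) (.g (nat_lit 0) (.e (nat_lit 434151) (nat_lit 0) .nil) .nil))) 
(.lf (nat_lit 607191) (.g (nat_lit 2195) (.e (nat_lit 794682) (nat_lit 25) (.e (nat_lit 221214) (nat_lit 23) (.e (nat_lit 204884) (nat_lit 33) (.e (nat_lit 401459) (nat_lit 13) (.e (nat_lit 483347) (nat_lit 17) .nil))))) (.g (nat_lit 0) (.e (nat_lit 436786) (nat_lit 0) .nil) .nil))))))) (.nd (nat_lit 6) (.nd (nat_lit 7) (.nd (nat_lit 8) (.nd (nat_lit 9) 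
(.lf (nat_lit 606263) (.g (nat_lit 2574) (.e (nat_lit 778469) (nat_lit 11) (.e (nat_lit 24608) (nat_lit 3) (.e (nat_lit 98373) (nat_lit 29) (.e (nat_lit 450587) (nat_lit 10) (.e (nat_lit 573473) (nat_lit 12) .nil))))) (.g (nat_lit 0) (.e (nat_lit 433309) (nat_lit 0) .nil) .nil))) 
(.lf (nat_lit 606775) (.g (nat_lit 1783) (.e (nat_lit 786483) (nat_lit 30) (.e (nat_lit 360454) (nat_lit 0) (.e (nat_lit 5907) (nat_lit 320) (.e (nat_lit 1221) (nat_lit 90) (.e (nat_lit 81923) (nat_lit 0) .nil))))) (.g (nat_lit 0) (.e (nat_lit 434306) (nat_lit 0) .nil) .nil)))) (.nd (nat_lit 9) 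
(.lf (nat_lit 606519) (.g (nat_lit 1401) (.e (nat_lit 786473) (nat_lit 27) (.e (nat_lit 336235) (nat_lit 14) (.e (nat_lit 401438) (nat_lit 9) (.e (nat_lit 426538) (nat_lit 29) .nil)))) (.g (nat_lit 0) (.e (nat_lit 433779) (nat_lit 0) .nil) .nil))) 
(.lf (nat_lit 607031) (.g (nat_lit 2765) (.e (nat_lit 794669) (nat_lit 22) (.e (nat_lit 196670) (nat_lit 14) (.e (nat_lit 73746) (nat_lit 3) (.e (nat_lit 516119) (nat_lit 1) (.e (nat_lit 164150) (nat_lit 152) (.e (nat_lit 974) (nat_lit 81) (.e (nat_lit 1256) (nat_lit 92) (.e (nat_lit 98321) (nat_lit 17) (.e (nat_lit 3771) (nat_lit 229) .nil))))))))) (.g (nat_lit 1) (.e (nat_lit 436288) (nat_lit 0) .nil) .nil))))) 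
(.nd (nat_lit 8) (.nd (nat_lit 9) 
(.lf (nat_lit 606391) (.g (nat_lit 3623) (.e (nat_lit 786176) (nat_lit 11) (.e (nat_lit 24608) (nat_lit 3) (.e (nat_lit 98373) (nat_lit 29) (.e (nat_lit 450588) (nat_lit 10) (.e (nat_lit 573473) (nat_lit 12) .nil))))) (.g (nat_lit 0) (.e (nat_lit 433465) (nat_lit 0) .nil) .nil))) 
(.lf (nat_lit 606903) (.g (nat_lit 2015) (.e (nat_lit 794658) (nat_lit 21) (.e (nat_lit 164399) (nat_lit 256) (.e (nat_lit 57437) (nat_lit 17) (.e (nat_lit 376869) (nat_lit 23) (.e (nat_lit 98315) (nat_lit 9) .nil))))) (.g (nat_lit 0) (.e (nat_lit 434964) (nat_lit 0) .nil) .nil)))) (.nd (nat_lit 9) 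
(.lf (nat_lit 606647) (.g (nat_lit 1311) (.e (nat_lit 786481) (nat_lit 30) (.e (nat_lit 360466) (nat_lit 3) (.e (nat_lit 516119) (nat_lit 1) (.e (nat_lit 164154) (nat_lit 152) .nil)))) (.g (nat_lit 0) (.e (nat_lit 434102) (nat_lit 0) .nil) .nil))) 
(.lf (nat_lit 607159) (.g (nat_lit 1815) (.e (nat_lit 794676) (nat_lit 24) (.e (nat_lit 213030) (nat_lit 11) (.e (nat_lit 24617) (nat_lit 7) (.e (nat_lit 319536) (nat_lit 17) .nil)))) (.g (nat_lit 0) (.e (nat_lit 436704) (nat_lit 0) .nil) .nil)))))) (.nd (nat_lit 7) (.nd (nat_lit 8) (.nd (nat_lit 9) 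
(.lf (nat_lit 606327) (.g (nat_lit 1940) (.e (nat_lit 778469) (nat_lit 11) (.e (nat_lit 24658) (nat_lit 13) (.e (nat_lit 393300) (nat_lit 27) (.e (nat_lit 491560) (nat_lit 10) (.e (nat_lit 352000) (nat_lit 44) .nil))))) (.g (nat_lit 0) (.e (nat_lit 433397) (nat_lit 0) .nil) .nil))) 
(.lf (nat_lit 606839) (.g (nat_lit 1250) (.e (nat_lit 802560) (nat_lit 5) (.e (nat_lit 114698) (nat_lit 11) (.e (nat_lit 426188) (nat_lit 9) (.e (nat_lit 426495) (nat_lit 27) .nil)))) (.g (nat_lit 0) (.e (nat_lit 434765) (nat_lit 0) .nil) .nil)))) (.nd (nat_lit 9) 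
(.lf (nat_lit 606583) (.g (nat_lit 2149) (.e (nat_lit 786480) (nat_lit 29) (.e (nat_lit 352309) (nat_lit 21) (.e (nat_lit 57873) (nat_lit 264) (.e (nat_lit 1219) (nat_lit 90) (.e (nat_lit 89856) (nat_lit 0) .nil))))) (.g (nat_lit 0) (.e (nat_lit 433988) (nat_lit 0) .nil) .nil))) 
(.lf (nat_lit 607095) (.g (nat_lit 2135) (.e (nat_lit 794673) (nat_lit 23) (.e (nat_lit 204862) (nat_lit 27) (.e (nat_lit 344117) (nat_lit 21) (.e (nat_lit 516115) (nat_lit 1) (.e (nat_lit 164182) (nat_lit 154) (.e (nat_lit 57373) (nat_lit 2) (.e (nat_lit 90181) (nat_lit 16) (.e (nat_lit 229472) (nat_lit 57) .nil)))))))) (.g (nat_lit 1) (.e (nat_lit 436581) (nat_lit 0) .nil) .nil))))) 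
(.nd (nat_lit 8) (.nd (nat_lit 9) 
(.lf (nat_lit 606455) (.g (nat_lit 1967) (.e (nat_lit 786444) (nat_lit 15) (.e (nat_lit 1859) (nat_lit 124) (.e (nat_lit 557098) (nat_lit 13) (.e (nat_lit 172115) (nat_lit 10) (.e (nat_lit 434231) (nat_lit 23) .nil))))) (.g (nat_lit 0) (.e (nat_lit 433630) (nat_lit 0) .nil) .nil))) 
(.lf (nat_lit 606967) (.g (nat_lit 1800) (.e (nat_lit 794669) (nat_lit 22) (.e (nat_lit 196668) (nat_lit 14) (.e (nat_lit 73746) (nat_lit 3) (.e (nat_lit 516117) (nat_lit 1) (.e (nat_lit 164158) (nat_lit 152) .nil))))) (.g (nat_lit 0) (.e (nat_lit 435878) (nat_lit 0) .nil) .nil)))) (.nd (nat_lit 9) 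
(.lf (nat_lit 606711) (.g (nat_lit 965) (.e (nat_lit 786481) (nat_lit 30) (.e (nat_lit 360473) (nat_lit 8) (.e (nat_lit 557093) (nat_lit 12) (.e (nat_lit 164009) (nat_lit 41) .nil)))) (.g (nat_lit 0) (.e (nat_lit 434212) (nat_lit 0) .nil) .nil))) 
(.lf (nat_lit 607223) (.g (nat_lit 2944) (.e (nat_lit 802824) (nat_lit 11) (.e (nat_lit 336011) (nat_lit 2) (.e (nat_lit 90170) (nat_lit 13) (.e (nat_lit 172113) (nat_lit 10) (.e (nat_lit 434247) (nat_lit 28) .nil))))) (.g (nat_lit 0) (.e (nat_lit 437008) (nat_lit 0) .nil) .nil))))))))) (.nd (nat_lit 4) (.nd (nat_lit 5) (.nd (nat_lit 6) (.nd (nat_lit 7) (.nd (nat_lit 8) (.nd (nat_lit 9) 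
(.lf (nat_lit 606223) (.g (nat_lit 1277) (.e (nat_lit 778468) (nat_lit 11) (.e (nat_lit 24617) (nat_lit 7) (.e (nat_lit 319534) (nat_lit 16) (.e (nat_lit 286759) (nat_lit 12) .nil)))) (.g (nat_lit 0) (.e (nat_lit 433267) (nat_lit 0) .nil) .nil))) 
(.lf (nat_lit 606735) (.g (nat_lit 2193) (.e (nat_lit 786482) (nat_lit 30) (.e (nat_lit 360475) (nat_lit 8) (.e (nat_lit 557089) (nat_lit 12) (.e (nat_lit 164006) (nat_lit 41) .nil)))) (.g (nat_lit 0) (.e (nat_lit 434247) (nat_lit 0) .nil) .nil)))) (.nd (nat_lit 9) 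
(.lf (nat_lit 606479) (.g (nat_lit 1236) (.e (nat_lit 786457) (nat_lit 18) (.e (nat_lit 98365) (nat_lit 26) (.e (nat_lit 426325) (nat_lit 13) (.e (nat_lit 483370) (nat_lit 20) (.e (nat_lit 147503) (nat_lit 12) (.e (nat_lit 164056) (nat_lit 56) .nil)))))) (.g (nat_lit 1) (.e (nat_lit 433675) (nat_lit 0) .nil) .nil))) 
(.lf (nat_lit 606991) (.g (nat_lit 2739) (.e (nat_lit 794669) (nat_lit 22) (.e (nat_lit 196668) (nat_lit 14) (.e (nat_lit 73747) (nat_lit 3) (.e (nat_lit 516115) (nat_lit 1) (.e (nat_lit 164161) (nat_lit 152) (.e (nat_lit 1032) (nat_lit 81) (.e (nat_lit 1254) (nat_lit 92) (.e (nat_lit 98321) (nat_lit 17) (.e (nat_lit 3771) (nat_lit 229) .nil))))))))) (.g (nat_lit 1) (.e (nat_lit 435945) (nat_lit 0) .nil) .nil))))) 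
(.nd (nat_lit 8) (.nd (nat_lit 9) 
(.lf (nat_lit 606351) (.g (nat_lit 2290) (.e (nat_lit 778469) (nat_lit 11) (.e (nat_lit 24660) (nat_lit 13) (.e (nat_lit 393299) (nat_lit 27) (.e (nat_lit 491560) (nat_lit 10) (.e (nat_lit 352000) (nat_lit 44) .nil))))) (.g (nat_lit 1) (.e (nat_lit 433422) (nat_lit 0) .nil) .nil))) 
(.lf (nat_lit 606863) (.g (nat_lit 1058) (.e (nat_lit 794635) (nat_lit 11) (.e (nat_lit 336119) (nat_lit 9) (.e (nat_lit 336437) (nat_lit 31) (.e (nat_lit 458769) (nat_lit 16) (.e (nat_lit 164292) (nat_lit 224) (.e (nat_lit 164112) (nat_lit 118) .nil)))))) (.g (nat_lit 1) (.e (nat_lit 434799) (nat_lit 0) .nil) .nil)))) (.nd (nat_lit 9) 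
(.lf (nat_lit 606607) (.g (nat_lit 1876) (.e (nat_lit 786480) (nat_lit 29) (.e (nat_lit 352318) (nat_lit 24) (.e (nat_lit 123198) (nat_lit 266) (.e (nat_lit 57423) (nat_lit 14) (.e (nat_lit 352262) (nat_lit 0) (.e (nat_lit 3748) (nat_lit 228) .nil)))))) (.g (nat_lit 1) (.e (nat_lit 434034) (nat_lit 0) .nil) .nil))) 
(.lf (nat_lit 607119) (.g (nat_lit 2617) (.e (nat_lit 794673) (nat_lit 23) (.e (nat_lit 204863) (nat_lit 27) (.e (nat_lit 344117) (nat_lit 21) (.e (nat_lit 516116) (nat_lit 1) (.e (nat_lit 164158) (nat_lit 152) .nil))))) (.g (nat_lit 0) (.e (nat_lit 436634) (nat_lit 0) .nil) .nil)))))) (.nd (nat_lit 7) (.nd (nat_lit 8) (.nd (nat_lit 9) 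
(.lf (nat_lit 606287) (.g (nat_lit 3865) (.e (nat_lit 778469) (nat_lit 11) (.e (nat_lit 24628) (nat_lit 9) (.e (nat_lit 336443) (nat_lit 32) (.e (nat_lit 466972) (nat_lit 21) (.e (nat_lit 164330) (nat_lit 230) (.e (nat_lit 163846) (nat_lit 0) (.e (nat_lit 3711) (nat_lit 227) .nil))))))) (.g (nat_lit 1) (.e (nat_lit 433336) (nat_lit 0) .nil) .nil))) 
(.lf (nat_lit 606799) (.g (nat_lit 2365) (.e (nat_lit 786483) (nat_lit 30) (.e (nat_lit 360475) (nat_lit 8) (.e (nat_lit 557090) (nat_lit 12) (.e (nat_lit 164005) (nat_lit 41) .nil)))) (.g (nat_lit 0) (.e (nat_lit 434565) (nat_lit 0) .nil) .nil)))) (.nd (nat_lit 9) 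
(.lf (nat_lit 606543) (.g (nat_lit 2593) (.e (nat_lit 786477) (nat_lit 28) (.e (nat_lit 344177) (nat_lit 43) (.e (nat_lit 770072) (nat_lit 8) (.e (nat_lit 65571) (nat_lit 3) (.e (nat_lit 98341) (nat_lit 20) .nil))))) (.g (nat_lit 0) (.e (nat_lit 433916) (nat_lit 0) .nil) .nil))) 
(.lf (nat_lit 607055) (.g (nat_lit 1702) (.e (nat_lit 794673) (nat_lit 23) (.e (nat_lit 204829) (nat_lit 18) (.e (nat_lit 57926) (nat_lit 282) (.e (nat_lit 163874) (nat_lit 3) .nil)))) (.g (nat_lit 0) (.e (nat_lit 436485) (nat_lit 0) .nil) .nil))))) (.nd (nat_lit 8) (.nd (nat_lit 9) 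
(.lf (nat_lit 606415) (.g (nat_lit 3286) (.e (nat_lit 786176) (nat_lit 11) (.e (nat_lit 24658) (nat_lit 13) (.e (nat_lit 393301) (nat_lit 27) (.e (nat_lit 491560) (nat_lit 10) (.e (nat_lit 344179) (nat_lit 44) .nil))))) (.g (nat_lit 0) (.e (nat_lit 433495) (nat_lit 0) .nil) .nil))) 
(.lf (nat_lit 606927) (.g (nat_lit 955) (.e (nat_lit 794666) (nat_lit 22) (.e (nat_lit 196668) (nat_lit 14) (.e (nat_lit 73747) (nat_lit 3) (.e (nat_lit 516117) (nat_lit 1) .nil)))) (.g (nat_lit 0) (.e (nat_lit 435475) (nat_lit 0) .nil) .nil)))) (.nd (nat_lit 9) 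
(.lf (nat_lit 606671) (.g (nat_lit 1522) (.e (nat_lit 786481) (nat_lit 30) (.e (nat_lit 360467) (nat_lit 3) (.e (nat_lit 516119) (nat_lit 1) (.e (nat_lit 164149) (nat_lit 152) .nil)))) (.g (nat_lit 0) (.e (nat_lit 434134) (nat_lit 0) .nil) .nil))) 
(.lf (nat_lit 607183) (.g (nat_lit 2981) (.e (nat_lit 794680) (nat_lit 24) (.e (nat_lit 213032) (nat_lit 11) (.e (nat_lit 24617) (nat_lit 7) (.e (nat_lit 319533) (nat_lit 16) (.e (nat_lit 286759) (nat_lit 12) .nil))))) (.g (nat_lit 0) (.e (nat_lit 436739) (nat_lit 0) .nil) .nil))))))) (.nd (nat_lit 6) (.nd (nat_lit 7) (.nd (nat_lit 8) (.nd (nat_lit 9) 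
(.lf (nat_lit 606255) (.g (nat_lit 2127) (.e (nat_lit 778469) (nat_lit 11) (.e (nat_lit 24608) (nat_lit 3) (.e (nat_lit 98365) (nat_lit 26) (.e (nat_lit 426306) (nat_lit 12) (.e (nat_lit 475179) (nat_lit 24) (.e (nat_lit 516102) (nat_lit 0) (.e (nat_lit 3713) (nat_lit 227) .nil))))))) (.g (nat_lit 1) (.e (nat_lit 433300) (nat_lit 0) .nil) .nil))) 
(.lf (nat_lit 606767) (.g (nat_lit 2620) (.e (nat_lit 786483) (nat_lit 30) (.e (nat_lit 360452) (nat_lit 0) (.e (nat_lit 5907) (nat_lit 320) (.e (nat_lit 1221) (nat_lit 90) (.e (nat_lit 81922) (nat_lit 0) .nil))))) (.g (nat_lit 0) (.e (nat_lit 434296) (nat_lit 0) .nil) .nil)))) (.nd (nat_lit 9) 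
(.lf (nat_lit 606511) (.g (nat_lit 3502) (.e (nat_lit 786473) (nat_lit 27) (.e (nat_lit 336051) (nat_lit 6) (.e (nat_lit 147495) (nat_lit 11) (.e (nat_lit 24608) (nat_lit 3) (.e (nat_lit 98342) (nat_lit 20) (.e (nat_lit 221204) (nat_lit 20) (.e (nat_lit 3747) (nat_lit 228) .nil))))))) (.g (nat_lit 1) (.e (nat_lit 433771) (nat_lit 0) .nil) .nil))) 
(.lf (nat_lit 607023) (.g (nat_lit 2161) (.e (nat_lit 794669) (nat_lit 22) (.e (nat_lit 196670) (nat_lit 14) (.e (nat_lit 73746) (nat_lit 3) (.e (nat_lit 516117) (nat_lit 1) (.e (nat_lit 164147) (nat_lit 152) (.e (nat_lit 974) (nat_lit 81) (.e (nat_lit 1256) (nat_lit 92) (.e (nat_lit 98321) (nat_lit 17) (.e (nat_lit 3771) (nat_lit 229) .nil))))))))) (.g (nat_lit 1) (.e (nat_lit 436244) (nat_lit 0) .nil) .nil))))) 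
(.nd (nat_lit 8) (.nd (nat_lit 9) 
(.lf (nat_lit 606383) (.g (nat_lit 2445) (.e (nat_lit 786176) (nat_lit 11) (.e (nat_lit 24608) (nat_lit 3) (.e (nat_lit 98372) (nat_lit 29) (.e (nat_lit 450587) (nat_lit 10) .nil)))) (.g (nat_lit 0) (.e (nat_lit 433457) (nat_lit 0) .nil) .nil))) 
(.lf (nat_lit 606895) (.g (nat_lit 2201) (.e (nat_lit 794655) (nat_lit 20) (.e (nat_lit 3747) (nat_lit 228) (.e (nat_lit 786473) (nat_lit 27) (.e (nat_lit 336429) (nat_lit 29) (.e (nat_lit 442422) (nat_lit 22) (.e (nat_lit 196661) (nat_lit 12) (.e (nat_lit 65280) (nat_lit 57) .nil))))))) (.g (nat_lit 1) (.e (nat_lit 434839) (nat_lit 0) .nil) .nil)))) (.nd (nat_lit 9) 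
(.lf (nat_lit 606639) (.g (nat_lit 1205) (.e (nat_lit 786481) (nat_lit 30) (.e (nat_lit 360466) (nat_lit 3) (.e (nat_lit 516117) (nat_lit 1) (.e (nat_lit 164164) (nat_lit 152) .nil)))) (.g (nat_lit 0) (.e (nat_lit 434090) (nat_lit 0) .nil) .nil))) 
(.lf (nat_lit 607151) (.g (nat_lit 2181) (.e (nat_lit 794675) (nat_lit 24) (.e (nat_lit 213030) (nat_lit 11) (.e (nat_lit 24617) (nat_lit 7) (.e (nat_lit 319529) (nat_lit 16) (.e (nat_lit 286759) (nat_lit 12) .nil))))) (.g (nat_lit 0) (.e (nat_lit 436694) (nat_lit 0) .nil) .nil)))))) (.nd (nat_lit 7) (.nd (nat_lit 8) (.nd (nat_lit 9) 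
(.lf (nat_lit 606319) (.g (nat_lit 756) (.e (nat_lit 778469) (nat_lit 11) (.e (nat_lit 24658) (nat_lit 13) (.e (nat_lit 393249) (nat_lit 17) .nil))) (.g (nat_lit 0) (.e (nat_lit 433387) (nat_lit 0) .nil) .nil))) 
(.lf (nat_lit 606831) (.g (nat_lit 906) (.e (nat_lit 802560) (nat_lit 2) (.e (nat_lit 90159) (nat_lit 11) (.e (nat_lit 24657) (nat_lit 13) (.e (nat_lit 401152) (nat_lit 15) .nil)))) (.g (nat_lit 0) (.e (nat_lit 434747) (nat_lit 0) .nil) .nil)))) (.nd (nat_lit 9) 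
(.lf (nat_lit 606575) (.g (nat_lit 849) (.e (nat_lit 786480) (nat_lit 29) (.e (nat_lit 352309) (nat_lit 21) (.e (nat_lit 57871) (nat_lit 264) (.e (nat_lit 1221) (nat_lit 90) .nil)))) (.g (nat_lit 0) (.e (nat_lit 433974) (nat_lit 0) .nil) .nil))) 
(.lf (nat_lit 607087) (.g (nat_lit 2634) (.e (nat_lit 794673) (nat_lit 23) (.e (nat_lit 204852) (nat_lit 26) (.e (nat_lit 336326) (nat_lit 18) (.e (nat_lit 204831) (nat_lit 18) (.e (nat_lit 57830) (nat_lit 250) (.e (nat_lit 1183) (nat_lit 87) (.e (nat_lit 57466) (nat_lit 23) (.e (nat_lit 516100) (nat_lit 0) (.e (nat_lit 3771) (nat_lit 229) .nil))))))))) (.g (nat_lit 1) (.e (nat_lit 436562) (nat_lit 0) .nil) .nil))))) 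
(.nd (nat_lit 8) (.nd (nat_lit 9) 
(.lf (nat_lit 606447) (.g (nat_lit 1962) (.e (nat_lit 794368) (nat_lit 3) (.e (nat_lit 204885) (nat_lit 33) (.e (nat_lit 401448) (nat_lit 10) (.e (nat_lit 434232) (nat_lit 23) (.e (nat_lit 532563) (nat_lit 15) .nil))))) (.g (nat_lit 0) (.e (nat_lit 433596) (nat_lit 0) .nil) .nil))) 
(.lf (nat_lit 606959) (.g (nat_lit 2365) (.e (nat_lit 794669) (nat_lit 22) (.e (nat_lit 196656) (nat_lit 11) (.e (nat_lit 16448) (nat_lit 10) (.e (nat_lit 434231) (nat_lit 23) (.e (nat_lit 532564) (nat_lit 15) (.e (nat_lit 385107) (nat_lit 51) .nil)))))) (.g (nat_lit 1) (.e (nat_lit 435849) (nat_lit 0) .nil) .nil)))) (.nd (nat_lit 9) 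
(.lf (nat_lit 606703) (.g (nat_lit 2346) (.e (nat_lit 786481) (nat_lit 30) (.e (nat_lit 360473) (nat_lit 8) (.e (nat_lit 557091) (nat_lit 12) (.e (nat_lit 164000) (nat_lit 38) (.e (nat_lit 639021) (nat_lit 16) .nil))))) (.g (nat_lit 0) (.e (nat_lit 434197) (nat_lit 0) .nil) .nil))) 
(.lf (nat_lit 607215) (.g (nat_lit 1825) (.e (nat_lit 794684) (nat_lit 25) (.e (nat_lit 221215) (nat_lit 23) (.e (nat_lit 204883) (nat_lit 33) (.e (nat_lit 401459) (nat_lit 13) (.e (nat_lit 483343) (nat_lit 17) (.e (nat_lit 7936) (nat_lit 153) .nil)))))) (.g (nat_lit 1) (.e (nat_lit 436995) (nat_lit 0) .nil) .nil)))))))) 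
(.nd (nat_lit 5) (.nd (nat_lit 6) (.nd (nat_lit 7) (.nd (nat_lit 8) (.nd (nat_lit 9) 
(.lf (nat_lit 606239) (.g (nat_lit 2438) (.e (nat_lit 778469) (nat_lit 11) (.e (nat_lit 24604) (nat_lit 2) (.e (nat_lit 90178) (nat_lit 15) (.e (nat_lit 188440) (nat_lit 20) (.e (nat_lit 3307) (nat_lit 202) .nil))))) (.g (nat_lit 0) (.e (nat_lit 433284) (nat_lit 0) .nil) .nil))) 
(.lf (nat_lit 606751) (.g (nat_lit 493) (.e (nat_lit 786483) (nat_lit 30) (.e (nat_lit 360450) (nat_lit 0) (.e (nat_lit 4825) (nat_lit 281) .nil))) (.g (nat_lit 0) (.e (nat_lit 434266) (nat_lit 0) .nil) .nil)))) (.nd (nat_lit 9) 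
(.lf (nat_lit 606495) (.g (nat_lit 2569) (.e (nat_lit 786470) (nat_lit 27) (.e (nat_lit 336226) (nat_lit 14) (.e (nat_lit 401437) (nat_lit 9) (.e (nat_lit 426540) (nat_lit 29) (.e (nat_lit 352262) (nat_lit 0) .nil))))) (.g (nat_lit 0) (.e (nat_lit 433731) (nat_lit 0) .nil) .nil))) 
(.lf (nat_lit 607007) (.g (nat_lit 2511) (.e (nat_lit 794669) (nat_lit 22) (.e (nat_lit 196668) (nat_lit 14) (.e (nat_lit 73747) (nat_lit 3) (.e (nat_lit 516119) (nat_lit 1) (.e (nat_lit 164153) (nat_lit 152) .nil))))) (.g (nat_lit 0) (.e (nat_lit 436091) (nat_lit 0) .nil) .nil))))) (.nd (nat_lit 8) (.nd (nat_lit 9) 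
(.lf (nat_lit 606367) (.g (nat_lit 863) (.e (nat_lit 786176) (nat_lit 11) (.e (nat_lit 24602) (nat_lit 2) (.e (nat_lit 90185) (nat_lit 17) (.e (nat_lit 237601) (nat_lit 9) .nil)))) (.g (nat_lit 0) (.e (nat_lit 433441) (nat_lit 0) .nil) .nil))) 
(.lf (nat_lit 606879) (.g (nat_lit 965) (.e (nat_lit 794635) (nat_lit 11) (.e (nat_lit 336154) (nat_lit 9) (.e (nat_lit 336420) (nat_lit 28) (.e (nat_lit 434197) (nat_lit 16) (.e (nat_lit 164293) (nat_lit 224) (.e (nat_lit 164112) (nat_lit 118) .nil)))))) (.g (nat_lit 1) (.e (nat_lit 434815) (nat_lit 0) .nil) .nil)))) (.nd (nat_lit 9) 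
(.lf (nat_lit 606623) (.g (nat_lit 998) (.e (nat_lit 786481) (nat_lit 30) (.e (nat_lit 360453) (nat_lit 0) (.e (nat_lit 5907) (nat_lit 320) (.e (nat_lit 1219) (nat_lit 90) .nil)))) (.g (nat_lit 0) (.e (nat_lit 434055) (nat_lit 0) .nil) .nil))) 
(.lf (nat_lit 607135) (.g (nat_lit 2635) (.e (nat_lit 794673) (nat_lit 23) (.e (nat_lit 204863) (nat_lit 27) (.e (nat_lit 344118) (nat_lit 21) (.e (nat_lit 516120) (nat_lit 1) (.e (nat_lit 164181) (nat_lit 154) .nil))))) (.g (nat_lit 0) (.e (nat_lit 436659) (nat_lit 0) .nil) .nil)))))) (.nd (nat_lit 7) (.nd (nat_lit 8) (.nd (nat_lit 9) 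
(.lf (nat_lit 606303) (.g (nat_lit 2319) (.e (nat_lit 778469) (nat_lit 11) (.e (nat_lit 24655) (nat_lit 13) (.e (nat_lit 393300) (nat_lit 27) (.e (nat_lit 491560) (nat_lit 10) (.e (nat_lit 352000) (nat_lit 44) .nil))))) (.g (nat_lit 0) (.e (nat_lit 433358) (nat_lit 0) .nil) .nil))) 
(.lf (nat_lit 606815) (.g (nat_lit 1906) (.e (nat_lit 786483) (nat_lit 30) (.e (nat_lit 360475) (nat_lit 8) (.e (nat_lit 557119) (nat_lit 18) (.e (nat_lit 2798) (nat_lit 180) (.e (nat_lit 303123) (nat_lit 7) .nil))))) (.g (nat_lit 0) (.e (nat_lit 434692) (nat_lit 0) .nil) .nil)))) (.nd (nat_lit 9) 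
(.lf (nat_lit 606559) (.g (nat_lit 1126) (.e (nat_lit 786478) (nat_lit 29) (.e (nat_lit 352315) (nat_lit 23) (.e (nat_lit 98321) (nat_lit 17) (.e (nat_lit 7936) (nat_lit 216) .nil)))) (.g (nat_lit 0) (.e (nat_lit 433946) (nat_lit 0) .nil) .nil))) 
(.lf (nat_lit 607071) (.g (nat_lit 5723) (.e (nat_lit 794673) (nat_lit 23) (.e (nat_lit 204830) (nat_lit 18) (.e (nat_lit 57926) (nat_lit 282) (.e (nat_lit 163875) (nat_lit 3) (.e (nat_lit 204862) (nat_lit 27) (.e (nat_lit 344117) (nat_lit 21) (.e (nat_lit 516099) (nat_lit 0) (.e (nat_lit 3771) (nat_lit 229) .nil)))))))) (.g (nat_lit 1) (.e (nat_lit 436519) (nat_lit 0) .nil) .nil))))) 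
(.nd (nat_lit 8) (.nd (nat_lit 9) 
(.lf (nat_lit 606431) (.g (nat_lit 2151) (.e (nat_lit 778474) (nat_lit 12) (.e (nat_lit 164000) (nat_lit 38) (.e (nat_lit 638998) (nat_lit 8) (.e (nat_lit 172123) (nat_lit 13) (.e (nat_lit 483405) (nat_lit 26) (.e (nat_lit 392960) (nat_lit 49) .nil)))))) (.g (nat_lit 1) (.e (nat_lit 433516) (nat_lit 0) .nil) .nil))) 
(.lf (nat_lit 606943) (.g (nat_lit 2210) (.e (nat_lit 794668) (nat_lit 22) (.e (nat_lit 196666) (nat_lit 13) (.e (nat_lit 65569) (nat_lit 3) (.e (nat_lit 98334) (nat_lit 18) (.e (nat_lit 164160) (nat_lit 152) .nil))))) (.g (nat_lit 0) (.e (nat_lit 435732) (nat_lit 0) .nil) .nil)))) (.nd (nat_lit 9) 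
(.lf (nat_lit 606687) (.g (nat_lit 3002) (.e (nat_lit 786481) (nat_lit 30) (.e (nat_lit 360473) (nat_lit 8) (.e (nat_lit 557090) (nat_lit 12) (.e (nat_lit 164000) (nat_lit 38) .nil)))) (.g (nat_lit 0) (.e (nat_lit 434178) (nat_lit 0) .nil) .nil))) 
(.lf (nat_lit 607199) (.g (nat_lit 2263) (.e (nat_lit 794683) (nat_lit 25) (.e (nat_lit 221214) (nat_lit 23) (.e (nat_lit 204883) (nat_lit 33) (.e (nat_lit 401459) (nat_lit 13) (.e (nat_lit 483347) (nat_lit 17) (.e (nat_lit 7936) (nat_lit 153) .nil)))))) (.g (nat_lit 1) (.e (nat_lit 436854) (nat_lit 0) .nil) .nil))))))) (.nd (nat_lit 6) (.nd (nat_lit 7) (.nd (nat_lit 8) (.nd (nat_lit 9) 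
(.lf (nat_lit 606271) (.g (nat_lit 3858) (.e (nat_lit 778469) (nat_lit 11) (.e (nat_lit 24609) (nat_lit 3) (.e (nat_lit 98373) (nat_lit 29) (.e (nat_lit 450588) (nat_lit 10) (.e (nat_lit 573475) (nat_lit 12) (.e (nat_lit 57573) (nat_lit 55) .nil)))))) (.g (nat_lit 1) (.e (nat_lit 433319) (nat_lit 0) .nil) .nil))) 
(.lf (nat_lit 606783) (.g (nat_lit 2618) (.e (nat_lit 786483) (nat_lit 30) (.e (nat_lit 360474) (nat_lit 8) (.e (nat_lit 557089) (nat_lit 12) (.e (nat_lit 164000) (nat_lit 38) .nil)))) (.g (nat_lit 0) (.e (nat_lit 434383) (nat_lit 0) .nil) .nil)))) (.nd (nat_lit 9) 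
(.lf (nat_lit 606527) (.g (nat_lit 1562) (.e (nat_lit 786473) (nat_lit 27) (.e (nat_lit 336235) (nat_lit 14) (.e (nat_lit 401456) (nat_lit 13) (.e (nat_lit 483386) (nat_lit 23) .nil)))) (.g (nat_lit 0) (.e (nat_lit 433788) (nat_lit 0) .nil) .nil))) 
(.lf (nat_lit 607039) (.g (nat_lit 2770) (.e (nat_lit 794669) (nat_lit 22) (.e (nat_lit 196670) (nat_lit 14) (.e (nat_lit 73746) (nat_lit 3) (.e (nat_lit 516120) (nat_lit 1) (.e (nat_lit 164161) (nat_lit 152) .nil))))) (.g (nat_lit 0) (.e (nat_lit 436312) (nat_lit 0) .nil) .nil))))) (.nd (nat_lit 8) (.nd (nat_lit 9) 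
(.lf (nat_lit 606399) (.g (nat_lit 2364) (.e (nat_lit 786176) (nat_lit 11) (.e (nat_lit 24617) (nat_lit 7) (.e (nat_lit 319534) (nat_lit 16) (.e (nat_lit 286756) (nat_lit 10) (.e (nat_lit 352000) (nat_lit 39) .nil))))) (.g (nat_lit 0) (.e (nat_lit 433473) (nat_lit 0) .nil) .nil))) 
(.lf (nat_lit 606911) (.g (nat_lit 1581) (.e (nat_lit 794664) (nat_lit 22) (.e (nat_lit 196656) (nat_lit 11) (.e (nat_lit 16436) (nat_lit 9) (.e (nat_lit 426131) (nat_lit 3) .nil)))) (.g (nat_lit 0) (.e (nat_lit 435215) (nat_lit 0) .nil) .nil)))) (.nd (nat_lit 9) 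
(.lf (nat_lit 606655) (.g (nat_lit 1340) (.e (nat_lit 786481) (nat_lit 30) (.e (nat_lit 360466) (nat_lit 3) (.e (nat_lit 516120) (nat_lit 1) (.e (nat_lit 164166) (nat_lit 152) (.e (nat_lit 1200) (nat_lit 88) .nil))))) (.g (nat_lit 0) (.e (nat_lit 434112) (nat_lit 0) .nil) .nil))) 
(.lf (nat_lit 607167) (.g (nat_lit 1076) (.e (nat_lit 794677) (nat_lit 24) (.e (nat_lit 213032) (nat_lit 11) (.e (nat_lit 24620) (nat_lit 8) .nil))) (.g (nat_lit 0) (.e (nat_lit 436714) (nat_lit 0) .nil) .nil)))))) (.nd (nat_lit 7) (.nd (nat_lit 8) (.nd (nat_lit 9) 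
(.lf (nat_lit 606335) (.g (nat_lit 1173) (.e (nat_lit 778469) (nat_lit 11) (.e (nat_lit 24660) (nat_lit 13) (.e (nat_lit 393231) (nat_lit 17) (.e (nat_lit 7591) (nat_lit 407) (.e (nat_lit 73774) (nat_lit 26) .nil))))) (.g (nat_lit 1) (.e (nat_lit 433405) (nat_lit 0) .nil) .nil))) 
(.lf (nat_lit 606847) (.g (nat_lit 2252) (.e (nat_lit 802560) (nat_lit 5) (.e (nat_lit 114698) (nat_lit 11) (.e (nat_lit 426200) (nat_lit 9) (.e (nat_lit 426502) (nat_lit 27) (.e (nat_lit 336194) (nat_lit 12) .nil))))) (.g (nat_lit 0) (.e (nat_lit 434773) (nat_lit 0) .nil) .nil)))) (.nd (nat_lit 9) 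
(.lf (nat_lit 606591) (.g (nat_lit 844) (.e (nat_lit 786480) (nat_lit 29) (.e (nat_lit 352318) (nat_lit 24) (.e (nat_lit 123183) (nat_lit 264) (.e (nat_lit 1222) (nat_lit 90) .nil)))) (.g (nat_lit 0) (.e (nat_lit 434006) (nat_lit 0) .nil) .nil))) 
(.lf (nat_lit 607103) (.g (nat_lit 2942) (.e (nat_lit 794673) (nat_lit 23) (.e (nat_lit 204862) (nat_lit 27) (.e (nat_lit 344117) (nat_lit 21) (.e (nat_lit 516116) (nat_lit 1) (.e (nat_lit 164181) (nat_lit 154) .nil))))) (.g (nat_lit 0) (.e (nat_lit 436593) (nat_lit 0) .nil) .nil))))) (.nd (nat_lit 8) (.nd (nat_lit 9) 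
(.lf (nat_lit 606463) (.g (nat_lit 1891) (.e (nat_lit 786447) (nat_lit 15) (.e (nat_lit 1855) (nat_lit 124) (.e (nat_lit 557098) (nat_lit 13) (.e (nat_lit 172115) (nat_lit 10) (.e (nat_lit 434231) (nat_lit 23) .nil))))) (.g (nat_lit 0) (.e (nat_lit 433657) (nat_lit 0) .nil) .nil))) 
(.lf (nat_lit 606975) (.g (nat_lit 2178) (.e (nat_lit 794669) (nat_lit 22) (.e (nat_lit 196668) (nat_lit 14) (.e (nat_lit 73746) (nat_lit 3) (.e (nat_lit 516120) (nat_lit 1) (.e (nat_lit 164184) (nat_lit 155) .nil))))) (.g (nat_lit 0) (.e (nat_lit 435926) (nat_lit 0) .nil) .nil)))) (.nd (nat_lit 9) 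
(.lf (nat_lit 606719) (.g (nat_lit 2068) (.e (nat_lit 786481) (nat_lit 30) (.e (nat_lit 360475) (nat_lit 8) (.e (nat_lit 557089) (nat_lit 12) (.e (nat_lit 164007) (nat_lit 41) .nil)))) (.g (nat_lit 0) (.e (nat_lit 434224) (nat_lit 0) .nil) .nil))) 
(.lf (nat_lit 607231) (.g (nat_lit 2851) (.e (nat_lit 810752) (nat_lit 11) (.e (nat_lit 336011) (nat_lit 2) (.e (nat_lit 90170) (nat_lit 13) (.e (nat_lit 172113) (nat_lit 10) (.e (nat_lit 434248) (nat_lit 28) .nil))))) (.g (nat_lit 0) (.e (nat_lit 437016) (nat_lit 0) .nil) .nil)))))))))))))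

noncomputable def tv5653 : DT := (.nd (nat_lit 0) (.nd (nat_lit 1) (.nd (nat_lit 2) (.nd (nat_lit 3) (.nd (nat_lit 4) (.nd (nat_lit 5) (.nd (nat_lit 6) (.nd (nat_lit 7) (.nd (nat_lit 8) (.nd (nat_lit 9) 
(.lf (nat_lit 607232) (.g (nat_lit 3114) (.e (nat_lit 802832) (nat_lit 20) (.e (nat_lit 3613) (nat_lit 226) (.e (nat_lit 770072) (nat_lit 8) (.e (nat_lit 65583) (nat_lit 7) (.e (nat_lit 319530) (nat_lit 16) (.e (nat_lit 286759) (nat_lit 12) (.e (nat_lit 385110) (nat_lit 52) .nil))))))) (.g (nat_lit 1) (.e (nat_lit 437031) (nat_lit 0) .nil) .nil))) 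
(.lf (nat_lit 607744) (.g (nat_lit 2191) (.e (nat_lit 696343) (nat_lit 8) (.e (nat_lit 172113) (nat_lit 10) (.e (nat_lit 434289) (nat_lit 43) (.e (nat_lit 696346) (nat_lit 10) (.e (nat_lit 188435) (nat_lit 20) (.e (nat_lit 3467) (nat_lit 217) .nil)))))) (.g (nat_lit 1) (.e (nat_lit 439395) (nat_lit 0) .nil) .nil)))) (.nd (nat_lit 9) 
(.lf (nat_lit 607488) (.g (nat_lit 3291) (.e (nat_lit 688177) (nat_lit 16) (.e (nat_lit 65568) (nat_lit 2) (.e (nat_lit 90170) (nat_lit 13) (.e (nat_lit 172106) (nat_lit 10) (.e (nat_lit 434231) (nat_lit 23) (.e (nat_lit 540416) (nat_lit 17) (.e (nat_lit 3460) (nat_lit 216) .nil))))))) (.g (nat_lit 1) (.e (nat_lit 438217) (nat_lit 0) .nil) .nil))) 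
(.lf (nat_lit 608000) (.g (nat_lit 1905) (.e (nat_lit 696344) (nat_lit 8) (.e (nat_lit 172112) (nat_lit 10) (.e (nat_lit 434289) (nat_lit 43) (.e (nat_lit 696346) (nat_lit 10) (.e (nat_lit 188435) (nat_lit 20) (.e (nat_lit 3468) (nat_lit 217) .nil)))))) (.g (nat_lit 1) (.e (nat_lit 439809) (nat_lit 0) .nil) .nil))))) (.nd (nat_lit 8) (.nd (nat_lit 9) 
(.lf (nat_lit 607360) (.g (nat_lit 1327) (.e (nat_lit 819221) (nat_lit 6) (.e (nat_lit 188440) (nat_lit 20) (.e (nat_lit 3289) (nat_lit 201) (.e (nat_lit 565269) (nat_lit 6) (.e (nat_lit 81939) (nat_lit 20) (.e (nat_lit 2390) (nat_lit 156) .nil)))))) (.g (nat_lit 1) (.e (nat_lit 437638) (nat_lit 0) .nil) .nil))) 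
(.lf (nat_lit 607872) (.g (nat_lit 2732) (.e (nat_lit 696344) (nat_lit 8) (.e (nat_lit 172079) (nat_lit 7) (.e (nat_lit 409645) (nat_lit 18) (.e (nat_lit 303143) (nat_lit 12) (.e (nat_lit 475197) (nat_lit 40) (.e (nat_lit 704852) (nat_lit 17) (.e (nat_lit 171776) (nat_lit 106) .nil))))))) (.g (nat_lit 1) (.e (nat_lit 439606) (nat_lit 0) .nil) .nil)))) (.nd (nat_lit 9) 
(.lf (nat_lit 607616) (.g (nat_lit 2333) (.e (nat_lit 696343) (nat_lit 8) (.e (nat_lit 172079) (nat_lit 7) (.e (nat_lit 409645) (nat_lit 18) (.e (nat_lit 303133) (nat_lit 9) (.e (nat_lit 426042) (nat_lit 0) (.e (nat_lit 2427) (nat_lit 157) (.e (nat_lit 5964) (nat_lit 324) (.e (nat_lit 163844) (nat_lit 0) (.e (nat_lit 3471) (nat_lit 217) .nil))))))))) (.g (nat_lit 1) (.e (nat_lit 439085) (nat_lit 0) .nil) .nil))) 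
(.lf (nat_lit 608128) (.g (nat_lit 3688) (.e (nat_lit 704589) (nat_lit 3) (.e (nat_lit 163975) (nat_lit 30) (.e (nat_lit 573481) (nat_lit 13) (.e (nat_lit 65619) (nat_lit 10) (.e (nat_lit 344117) (nat_lit 21) (.e (nat_lit 516151) (nat_lit 9) (.e (nat_lit 426410) (nat_lit 15) (.e (nat_lit 2057) (nat_lit 142) .nil)))))))) (.g (nat_lit 1) (.e (nat_lit 440358) (nat_lit 0) .nil) .nil)))))) 
(.nd (nat_lit 7) (.nd (nat_lit 8) (.nd (nat_lit 9) 
(.lf (nat_lit 607296) (.g (nat_lit 1003) (.e (nat_lit 819203) (nat_lit 0) (.e (nat_lit 3016) (nat_lit 187) (.e (nat_lit 450584) (nat_lit 9) (.e (nat_lit 573184) (nat_lit 6) .nil)))) (.g (nat_lit 0) (.e (nat_lit 437320) (nat_lit 0) .nil) .nil))) 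
(.lf (nat_lit 607808) (.g (nat_lit 4010) (.e (nat_lit 696344) (nat_lit 8) (.e (nat_lit 172065) (nat_lit 3) (.e (nat_lit 204855) (nat_lit 26) (.e (nat_lit 336176) (nat_lit 10) (.e (nat_lit 344133) (nat_lit 26) (.e (nat_lit 557091) (nat_lit 12) (.e (nat_lit 164019) (nat_lit 45) .nil))))))) (.g (nat_lit 1) (.e (nat_lit 439506) (nat_lit 0) .nil) .nil)))) (.nd (nat_lit 9) 
(.lf (nat_lit 607552) (.g (nat_lit 2037) (.e (nat_lit 696342) (nat_lit 8) (.e (nat_lit 172067) (nat_lit 3) (.e (nat_lit 204868) (nat_lit 29) (.e (nat_lit 360473) (nat_lit 8) (.e (nat_lit 557089) (nat_lit 12) (.e (nat_lit 164019) (nat_lit 45) .nil)))))) (.g (nat_lit 1) (.e (nat_lit 438973) (nat_lit 0) .nil) .nil))) 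
(.lf (nat_lit 608064) (.g (nat_lit 3907) (.e (nat_lit 696344) (nat_lit 8) (.e (nat_lit 172125) (nat_lit 14) (.e (nat_lit 491566) (nat_lit 12) (.e (nat_lit 385109) (nat_lit 51) (.e (nat_lit 794684) (nat_lit 25) .nil))))) (.g (nat_lit 0) (.e (nat_lit 439933) (nat_lit 0) .nil) .nil))))) (.nd (nat_lit 8) (.nd (nat_lit 9) 
(.lf (nat_lit 607424) (.g (nat_lit 974) (.e (nat_lit 688139) (nat_lit 5) (.e (nat_lit 2887) (nat_lit 184) (.e (nat_lit 426286) (nat_lit 10) (.e (nat_lit 434289) (nat_lit 43) .nil)))) (.g (nat_lit 0) (.e (nat_lit 437877) (nat_lit 0) .nil) .nil))) 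
(.lf (nat_lit 607936) (.g (nat_lit 1743) (.e (nat_lit 696344) (nat_lit 8) (.e (nat_lit 172082) (nat_lit 7) (.e (nat_lit 409646) (nat_lit 18) (.e (nat_lit 303143) (nat_lit 12) (.e (nat_lit 475212) (nat_lit 42) .nil))))) (.g (nat_lit 0) (.e (nat_lit 439714) (nat_lit 0) .nil) .nil)))) (.nd (nat_lit 9) 
(.lf (nat_lit 607680) (.g (nat_lit 2041) (.e (nat_lit 696343) (nat_lit 8) (.e (nat_lit 172082) (nat_lit 7) (.e (nat_lit 409649) (nat_lit 18) (.e (nat_lit 303140) (nat_lit 10) (.e (nat_lit 434275) (nat_lit 39) .nil))))) (.g (nat_lit 0) (.e (nat_lit 439242) (nat_lit 0) .nil) .nil))) 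
(.lf (nat_lit 608192) (.g (nat_lit 2972) (.e (nat_lit 704589) (nat_lit 3) (.e (nat_lit 163975) (nat_lit 30) (.e (nat_lit 573492) (nat_lit 15) (.e (nat_lit 81956) (nat_lit 23) (.e (nat_lit 98355) (nat_lit 26) (.e (nat_lit 426379) (nat_lit 15) (.e (nat_lit 2056) (nat_lit 142) .nil))))))) (.g (nat_lit 1) (.e (nat_lit 440528) (nat_lit 0) .nil) .nil))))))) 
(.nd (nat_lit 6) (.nd (nat_lit 7) (.nd (nat_lit 8) (.nd (nat_lit 9) 
(.lf (nat_lit 607264) (.g (nat_lit 1755) (.e (nat_lit 811024) (nat_lit 5) (.e (nat_lit 270354) (nat_lit 8) (.e (nat_lit 303145) (nat_lit 13) (.e (nat_lit 483402) (nat_lit 26) (.e (nat_lit 385115) (nat_lit 53) .nil))))) (.g (nat_lit 0) (.e (nat_lit 437120) (nat_lit 0) .nil) .nil))) 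
(.lf (nat_lit 607776) (.g (nat_lit 2422) (.e (nat_lit 696343) (nat_lit 8) (.e (nat_lit 172123) (nat_lit 13) (.e (nat_lit 483413) (nat_lit 27) (.e (nat_lit 401434) (nat_lit 9) (.e (nat_lit 425986) (nat_lit 0) (.e (nat_lit 3471) (nat_lit 217) .nil)))))) (.g (nat_lit 1) (.e (nat_lit 439468) (nat_lit 0) .nil) .nil)))) (.nd (nat_lit 9) 
(.lf (nat_lit 607520) (.g (nat_lit 2796) (.e (nat_lit 696328) (nat_lit 5) (.e (nat_lit 2980) (nat_lit 185) (.e (nat_lit 434231) (nat_lit 23) (.e (nat_lit 532550) (nat_lit 12) (.e (nat_lit 360474) (nat_lit 8) (.e (nat_lit 557094) (nat_lit 12) (.e (nat_lit 164018) (nat_lit 45) .nil))))))) (.g (nat_lit 1) (.e (nat_lit 438381) (nat_lit 0) .nil) .nil))) 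
(.lf (nat_lit 608032) (.g (nat_lit 2530) (.e (nat_lit 696344) (nat_lit 8) (.e (nat_lit 172115) (nat_lit 10) (.e (nat_lit 434209) (nat_lit 18) (.e (nat_lit 6425) (nat_lit 342) (.e (nat_lit 229402) (nat_lit 12) (.e (nat_lit 426277) (nat_lit 10) (.e (nat_lit 434289) (nat_lit 43) .nil))))))) (.g (nat_lit 1) (.e (nat_lit 439882) (nat_lit 0) .nil) .nil))))) (.nd (nat_lit 8) (.nd (nat_lit 9) 
(.lf (nat_lit 607392) (.g (nat_lit 3316) (.e (nat_lit 688138) (nat_lit 5) (.e (nat_lit 2887) (nat_lit 184) (.e (nat_lit 426140) (nat_lit 3) (.e (nat_lit 204868) (nat_lit 29) (.e (nat_lit 360473) (nat_lit 8) (.e (nat_lit 557091) (nat_lit 12) (.e (nat_lit 164016) (nat_lit 44) .nil))))))) (.g (nat_lit 1) (.e (nat_lit 437756) (nat_lit 0) .nil) .nil))) 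
(.lf (nat_lit 607904) (.g (nat_lit 2443) (.e (nat_lit 696344) (nat_lit 8) (.e (nat_lit 172082) (nat_lit 7) (.e (nat_lit 409646) (nat_lit 18) (.e (nat_lit 303133) (nat_lit 9) (.e (nat_lit 426042) (nat_lit 0) (.e (nat_lit 2446) (nat_lit 157) (.e (nat_lit 5966) (nat_lit 324) (.e (nat_lit 163844) (nat_lit 0) (.e (nat_lit 3471) (nat_lit 217) .nil))))))))) (.g (nat_lit 1) (.e (nat_lit 439655) (nat_lit 0) .nil) .nil)))) 
(.nd (nat_lit 9) 
(.lf (nat_lit 607648) (.g (nat_lit 2667) (.e (nat_lit 696343) (nat_lit 8) (.e (nat_lit 172082) (nat_lit 7) (.e (nat_lit 409646) (nat_lit 18) (.e (nat_lit 303133) (nat_lit 9) (.e (nat_lit 426042) (nat_lit 0) (.e (nat_lit 2448) (nat_lit 157) (.e (nat_lit 5966) (nat_lit 324) (.e (nat_lit 163844) (nat_lit 0) (.e (nat_lit 3471) (nat_lit 217) .nil))))))))) (.g (nat_lit 1) (.e (nat_lit 439156) (nat_lit 0) .nil) .nil))) 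
(.lf (nat_lit 608160) (.g (nat_lit 2960) (.e (nat_lit 704589) (nat_lit 3) (.e (nat_lit 163975) (nat_lit 30) (.e (nat_lit 573491) (nat_lit 15) (.e (nat_lit 81954) (nat_lit 23) (.e (nat_lit 98356) (nat_lit 26) (.e (nat_lit 426363) (nat_lit 15) (.e (nat_lit 2061) (nat_lit 142) .nil))))))) (.g (nat_lit 1) (.e (nat_lit 440392) (nat_lit 0) .nil) .nil)))))) 
(.nd (nat_lit 7) (.nd (nat_lit 8) (.nd (nat_lit 9) 
(.lf (nat_lit 607328) (.g (nat_lit 463) (.e (nat_lit 819219) (nat_lit 4) (.e (nat_lit 172094) (nat_lit 9) (.e (nat_lit 426125) (nat_lit 2) .nil))) (.g (nat_lit 0) (.e (nat_lit 437552) (nat_lit 0) .nil) .nil))) 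
(.lf (nat_lit 607840) (.g (nat_lit 3992) (.e (nat_lit 696344) (nat_lit 8) (.e (nat_lit 172078) (nat_lit 7) (.e (nat_lit 409646) (nat_lit 18) (.e (nat_lit 303140) (nat_lit 10) (.e (nat_lit 434275) (nat_lit 39) (.e (nat_lit 663574) (nat_lit 9) (.e (nat_lit 2472) (nat_lit 157) (.e (nat_lit 3469) (nat_lit 217) .nil)))))))) (.g (nat_lit 1) (.e (nat_lit 439541) (nat_lit 0) .nil) .nil)))) 
(.nd (nat_lit 9) 
(.lf (nat_lit 607584) (.g (nat_lit 2763) (.e (nat_lit 696343) (nat_lit 8) (.e (nat_lit 172065) (nat_lit 3) (.e (nat_lit 204868) (nat_lit 29) (.e (nat_lit 360473) (nat_lit 8) (.e (nat_lit 557093) (nat_lit 12) (.e (nat_lit 164018) (nat_lit 45) .nil)))))) (.g (nat_lit 1) (.e (nat_lit 439044) (nat_lit 0) .nil) .nil))) 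
(.lf (nat_lit 608096) (.g (nat_lit 2489) (.e (nat_lit 704512) (nat_lit 0) (.e (nat_lit 2685) (nat_lit 168) (.e (nat_lit 204862) (nat_lit 27) (.e (nat_lit 344133) (nat_lit 26) (.e (nat_lit 557103) (nat_lit 14) (.e (nat_lit 188160) (nat_lit 3) (.e (nat_lit 516106) (nat_lit 0) (.e (nat_lit 7936) (nat_lit 218) .nil)))))))) (.g (nat_lit 1) (.e (nat_lit 440176) (nat_lit 0) .nil) .nil))))) 
(.nd (nat_lit 8) (.nd (nat_lit 9) 
(.lf (nat_lit 607456) (.g (nat_lit 1828) (.e (nat_lit 696064) (nat_lit 8) (.e (nat_lit 172066) (nat_lit 3) (.e (nat_lit 204869) (nat_lit 29) (.e (nat_lit 360474) (nat_lit 8) (.e (nat_lit 557094) (nat_lit 12) .nil))))) (.g (nat_lit 0) (.e (nat_lit 438041) (nat_lit 0) .nil) .nil))) 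
(.lf (nat_lit 607968) (.g (nat_lit 2217) (.e (nat_lit 696344) (nat_lit 8) (.e (nat_lit 172106) (nat_lit 10) (.e (nat_lit 434209) (nat_lit 18) (.e (nat_lit 6425) (nat_lit 342) (.e (nat_lit 229412) (nat_lit 14) .nil))))) (.g (nat_lit 0) (.e (nat_lit 439769) (nat_lit 0) .nil) .nil)))) (.nd (nat_lit 9) 
(.lf (nat_lit 607712) (.g (nat_lit 2176) (.e (nat_lit 696343) (nat_lit 8) (.e (nat_lit 172106) (nat_lit 10) (.e (nat_lit 434289) (nat_lit 43) (.e (nat_lit 696346) (nat_lit 10) (.e (nat_lit 188438) (nat_lit 20) (.e (nat_lit 3467) (nat_lit 217) .nil)))))) (.g (nat_lit 1) (.e (nat_lit 439306) (nat_lit 0) .nil) .nil))) 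
(.lf (nat_lit 608224) (.g (nat_lit 4197) (.e (nat_lit 704589) (nat_lit 3) (.e (nat_lit 163975) (nat_lit 30) (.e (nat_lit 573492) (nat_lit 15) (.e (nat_lit 81956) (nat_lit 23) (.e (nat_lit 98356) (nat_lit 26) (.e (nat_lit 426374) (nat_lit 15) (.e (nat_lit 2056) (nat_lit 142) .nil))))))) (.g (nat_lit 1) (.e (nat_lit 440560) (nat_lit 0) .nil) .nil)))))))) 
(.nd (nat_lit 5) (.nd (nat_lit 6) (.nd (nat_lit 7) (.nd (nat_lit 8) (.nd (nat_lit 9) 
(.lf (nat_lit 607248) (.g (nat_lit 1053) (.e (nat_lit 811011) (nat_lit 0) (.e (nat_lit 5779) (nat_lit 317) (.e (nat_lit 180241) (nat_lit 4) (.e (nat_lit 524340) (nat_lit 28) (.e (nat_lit 352283) (nat_lit 20) (.e (nat_lit 2384) (nat_lit 155) .nil)))))) (.g (nat_lit 1) (.e (nat_lit 437089) (nat_lit 0) .nil) .nil))) 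
(.lf (nat_lit 607760) (.g (nat_lit 1733) (.e (nat_lit 696343) (nat_lit 8) (.e (nat_lit 172116) (nat_lit 10) (.e (nat_lit 434289) (nat_lit 43) (.e (nat_lit 696346) (nat_lit 10) (.e (nat_lit 188438) (nat_lit 20) (.e (nat_lit 3467) (nat_lit 217) .nil)))))) (.g (nat_lit 1) (.e (nat_lit 439431) (nat_lit 0) .nil) .nil)))) (.nd (nat_lit 9) 
(.lf (nat_lit 607504) (.g (nat_lit 3154) (.e (nat_lit 696327) (nat_lit 5) (.e (nat_lit 2872) (nat_lit 184) (.e (nat_lit 426125) (nat_lit 2) (.e (nat_lit 196666) (nat_lit 13) (.e (nat_lit 65610) (nat_lit 10) .nil))))) (.g (nat_lit 0) (.e (nat_lit 438259) (nat_lit 0) .nil) .nil))) 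
(.lf (nat_lit 608016) (.g (nat_lit 2142) (.e (nat_lit 696344) (nat_lit 8) (.e (nat_lit 172113) (nat_lit 10) (.e (nat_lit 434289) (nat_lit 43) (.e (nat_lit 696346) (nat_lit 10) (.e (nat_lit 188439) (nat_lit 20) (.e (nat_lit 3467) (nat_lit 217) .nil)))))) (.g (nat_lit 1) (.e (nat_lit 439858) (nat_lit 0) .nil) .nil))))) (.nd (nat_lit 8) (.nd (nat_lit 9) 
(.lf (nat_lit 607376) (.g (nat_lit 1734) (.e (nat_lit 819237) (nat_lit 11) (.e (nat_lit 16465) (nat_lit 13) (.e (nat_lit 483372) (nat_lit 21) (.e (nat_lit 319534) (nat_lit 16) .nil)))) (.g (nat_lit 0) (.e (nat_lit 437677) (nat_lit 0) .nil) .nil))) 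
(.lf (nat_lit 607888) (.g (nat_lit 2829) (.e (nat_lit 696344) (nat_lit 8) (.e (nat_lit 172081) (nat_lit 7) (.e (nat_lit 409648) (nat_lit 18) (.e (nat_lit 303137) (nat_lit 10) (.e (nat_lit 434275) (nat_lit 39) (.e (nat_lit 663580) (nat_lit 9) (.e (nat_lit 2416) (nat_lit 157) (.e (nat_lit 3471) (nat_lit 217) .nil)))))))) (.g (nat_lit 1) (.e (nat_lit 439636) (nat_lit 0) .nil) .nil)))) 
(.nd (nat_lit 9) 
(.lf (nat_lit 607632) (.g (nat_lit 2632) (.e (nat_lit 696343) (nat_lit 8) (.e (nat_lit 172081) (nat_lit 7) (.e (nat_lit 409648) (nat_lit 18) (.e (nat_lit 303137) (nat_lit 10) (.e (nat_lit 434275) (nat_lit 39) (.e (nat_lit 663580) (nat_lit 9) (.e (nat_lit 2478) (nat_lit 157) (.e (nat_lit 3464) (nat_lit 217) .nil)))))))) (.g (nat_lit 1) (.e (nat_lit 439133) (nat_lit 0) .nil) .nil))) 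
(.lf (nat_lit 608144) (.g (nat_lit 1816) (.e (nat_lit 704589) (nat_lit 3) (.e (nat_lit 163975) (nat_lit 30) (.e (nat_lit 573491) (nat_lit 15) (.e (nat_lit 81954) (nat_lit 23) (.e (nat_lit 98355) (nat_lit 26) (.e (nat_lit 426376) (nat_lit 15) (.e (nat_lit 2057) (nat_lit 142) .nil))))))) (.g (nat_lit 1) (.e (nat_lit 440376) (nat_lit 0) .nil) .nil)))))) 
(.nd (nat_lit 7) (.nd (nat_lit 8) (.nd (nat_lit 9) 
(.lf (nat_lit 607312) (.g (nat_lit 1337) (.e (nat_lit 819204) (nat_lit 0) (.e (nat_lit 3028) (nat_lit 187) (.e (nat_lit 450584) (nat_lit 9) (.e (nat_lit 565252) (nat_lit 0) (.e (nat_lit 1599) (nat_lit 111) (.e (nat_lit 360493) (nat_lit 27) .nil)))))) (.g (nat_lit 1) (.e (nat_lit 437481) (nat_lit 0) .nil) .nil))) 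
(.lf (nat_lit 607824) (.g (nat_lit 3411) (.e (nat_lit 696344) (nat_lit 8) (.e (nat_lit 172067) (nat_lit 3) (.e (nat_lit 204868) (nat_lit 29) (.e (nat_lit 360475) (nat_lit 8) (.e (nat_lit 557065) (nat_lit 9) .nil))))) (.g (nat_lit 0) (.e (nat_lit 439524) (nat_lit 0) .nil) .nil)))) (.nd (nat_lit 9) 
(.lf (nat_lit 607568) (.g (nat_lit 4164) (.e (nat_lit 696343) (nat_lit 8) (.e (nat_lit 172062) (nat_lit 2) (.e (nat_lit 196666) (nat_lit 13) (.e (nat_lit 65617) (nat_lit 10) (.e (nat_lit 344133) (nat_lit 26) (.e (nat_lit 557091) (nat_lit 12) (.e (nat_lit 164018) (nat_lit 45) .nil))))))) (.g (nat_lit 1) (.e (nat_lit 439026) (nat_lit 0) .nil) .nil))) 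
(.lf (nat_lit 608080) (.g (nat_lit 2771) (.e (nat_lit 696348) (nat_lit 12) (.e (nat_lit 237589) (nat_lit 2) (.e (nat_lit 196666) (nat_lit 13) (.e (nat_lit 65617) (nat_lit 10) (.e (nat_lit 344132) (nat_lit 26) (.e (nat_lit 557094) (nat_lit 12) (.e (nat_lit 164018) (nat_lit 45) .nil))))))) (.g (nat_lit 1) (.e (nat_lit 440137) (nat_lit 0) .nil) .nil))))) (.nd (nat_lit 8) (.nd (nat_lit 9) 
(.lf (nat_lit 607440) (.g (nat_lit 1409) (.e (nat_lit 688139) (nat_lit 5) (.e (nat_lit 3062) (nat_lit 190) (.e (nat_lit 475179) (nat_lit 24) (.e (nat_lit 516174) (nat_lit 14) .nil)))) (.g (nat_lit 0) (.e (nat_lit 437932) (nat_lit 0) .nil) .nil))) 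
(.lf (nat_lit 607952) (.g (nat_lit 3084) (.e (nat_lit 696344) (nat_lit 8) (.e (nat_lit 172082) (nat_lit 7) (.e (nat_lit 409649) (nat_lit 18) (.e (nat_lit 303140) (nat_lit 10) (.e (nat_lit 434275) (nat_lit 39) (.e (nat_lit 663584) (nat_lit 12) (.e (nat_lit 164019) (nat_lit 45) .nil))))))) (.g (nat_lit 1) (.e (nat_lit 439734) (nat_lit 0) .nil) .nil)))) (.nd (nat_lit 9) 
(.lf (nat_lit 607696) (.g (nat_lit 2039) (.e (nat_lit 696343) (nat_lit 8) (.e (nat_lit 172106) (nat_lit 10) (.e (nat_lit 434209) (nat_lit 18) (.e (nat_lit 6273) (nat_lit 337) (.e (nat_lit 2645) (nat_lit 166) (.e (nat_lit 188439) (nat_lit 20) (.e (nat_lit 3467) (nat_lit 217) .nil))))))) (.g (nat_lit 1) (.e (nat_lit 439275) (nat_lit 0) .nil) .nil))) 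
(.lf (nat_lit 608208) (.g (nat_lit 2890) (.e (nat_lit 704589) (nat_lit 3) (.e (nat_lit 163975) (nat_lit 30) (.e (nat_lit 573492) (nat_lit 15) (.e (nat_lit 81956) (nat_lit 23) (.e (nat_lit 98356) (nat_lit 26) (.e (nat_lit 426360) (nat_lit 15) (.e (nat_lit 2044) (nat_lit 142) .nil))))))) (.g (nat_lit 1) (.e (nat_lit 440544) (nat_lit 0) .nil) .nil))))))) 
(.nd (nat_lit 6) (.nd (nat_lit 7) (.nd (nat_lit 8) (.nd (nat_lit 9) 
(.lf (nat_lit 607280) (.g (nat_lit 206) (.e (nat_lit 819202) (nat_lit 0) (.e (nat_lit 3004) (nat_lit 186) (.e (nat_lit 450304) (nat_lit 2) .nil))) (.g (nat_lit 0) (.e (nat_lit 437225) (nat_lit 0) .nil) .nil))) 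
(.lf (nat_lit 607792) (.g (nat_lit 4096) (.e (nat_lit 696344) (nat_lit 8) (.e (nat_lit 172062) (nat_lit 2) (.e (nat_lit 196666) (nat_lit 13) (.e (nat_lit 65617) (nat_lit 10) (.e (nat_lit 344133) (nat_lit 26) (.e (nat_lit 557091) (nat_lit 12) (.e (nat_lit 164019) (nat_lit 45) .nil))))))) (.g (nat_lit 1) (.e (nat_lit 439489) (nat_lit 0) .nil) .nil)))) (.nd (nat_lit 9) 
(.lf (nat_lit 607536) (.g (nat_lit 4068) (.e (nat_lit 696329) (nat_lit 5) (.e (nat_lit 2964) (nat_lit 185) (.e (nat_lit 434231) (nat_lit 23) (.e (nat_lit 532550) (nat_lit 12) (.e (nat_lit 360475) (nat_lit 8) (.e (nat_lit 557089) (nat_lit 12) (.e (nat_lit 164020) (nat_lit 45) .nil))))))) (.g (nat_lit 1) (.e (nat_lit 438463) (nat_lit 0) .nil) .nil))) 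
(.lf (nat_lit 608048) (.g (nat_lit 2264) (.e (nat_lit 696344) (nat_lit 8) (.e (nat_lit 172115) (nat_lit 10) (.e (nat_lit 434289) (nat_lit 43) (.e (nat_lit 696346) (nat_lit 10) (.e (nat_lit 188435) (nat_lit 20) (.e (nat_lit 3468) (nat_lit 217) .nil)))))) (.g (nat_lit 1) (.e (nat_lit 439903) (nat_lit 0) .nil) .nil))))) (.nd (nat_lit 8) (.nd (nat_lit 9) 
(.lf (nat_lit 607408) (.g (nat_lit 1490) (.e (nat_lit 688138) (nat_lit 5) (.e (nat_lit 3085) (nat_lit 191) (.e (nat_lit 483337) (nat_lit 9) (.e (nat_lit 426220) (nat_lit 9) .nil)))) (.g (nat_lit 0) (.e (nat_lit 437831) (nat_lit 0) .nil) .nil))) 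
(.lf (nat_lit 607920) (.g (nat_lit 2685) (.e (nat_lit 696344) (nat_lit 8) (.e (nat_lit 172082) (nat_lit 7) (.e (nat_lit 409646) (nat_lit 18) (.e (nat_lit 303140) (nat_lit 10) (.e (nat_lit 434275) (nat_lit 39) (.e (nat_lit 663574) (nat_lit 9) (.e (nat_lit 2457) (nat_lit 157) (.e (nat_lit 3467) (nat_lit 217) .nil)))))))) (.g (nat_lit 1) (.e (nat_lit 439692) (nat_lit 0) .nil) .nil)))) 
(.nd (nat_lit 9) 
(.lf (nat_lit 607664) (.g (nat_lit 2534) (.e (nat_lit 696343) (nat_lit 8) (.e (nat_lit 172082) (nat_lit 7) (.e (nat_lit 409646) (nat_lit 18) (.e (nat_lit 303140) (nat_lit 10) (.e (nat_lit 434275) (nat_lit 39) (.e (nat_lit 663572) (nat_lit 9) (.e (nat_lit 2399) (nat_lit 157) (.e (nat_lit 3471) (nat_lit 217) .nil)))))))) (.g (nat_lit 1) (.e (nat_lit 439200) (nat_lit 0) .nil) .nil))) 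
(.lf (nat_lit 608176) (.g (nat_lit 3034) (.e (nat_lit 704589) (nat_lit 3) (.e (nat_lit 163975) (nat_lit 30) (.e (nat_lit 573491) (nat_lit 15) (.e (nat_lit 81954) (nat_lit 23) (.e (nat_lit 98384) (nat_lit 32) (.e (nat_lit 475196) (nat_lit 40) .nil)))))) (.g (nat_lit 1) (.e (nat_lit 440408) (nat_lit 0) .nil) .nil)))))) (.nd (nat_lit 7) (.nd (nat_lit 8) (.nd (nat_lit 9) 
(.lf (nat_lit 607344) (.g (nat_lit 1769) (.e (nat_lit 819221) (nat_lit 6) (.e (nat_lit 188434) (nat_lit 20) (.e (nat_lit 3289) (nat_lit 201) (.e (nat_lit 565269) (nat_lit 6) (.e (nat_lit 81943) (nat_lit 20) (.e (nat_lit 2390) (nat_lit 156) .nil)))))) (.g (nat_lit 1) (.e (nat_lit 437622) (nat_lit 0) .nil) .nil))) 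
(.lf (nat_lit 607856) (.g (nat_lit 1098) (.e (nat_lit 696344) (nat_lit 8) (.e (nat_lit 172079) (nat_lit 7) (.e (nat_lit 409645) (nat_lit 18) (.e (nat_lit 303133) (nat_lit 9) .nil)))) (.g (nat_lit 0) (.e (nat_lit 439565) (nat_lit 0) .nil) .nil)))) (.nd (nat_lit 9) 
(.lf (nat_lit 607600) (.g (nat_lit 3032) (.e (nat_lit 696343) (nat_lit 8) (.e (nat_lit 172067) (nat_lit 3) (.e (nat_lit 204868) (nat_lit 29) (.e (nat_lit 360473) (nat_lit 8) (.e (nat_lit 557091) (nat_lit 12) (.e (nat_lit 164019) (nat_lit 45) .nil)))))) (.g (nat_lit 1) (.e (nat_lit 439063) (nat_lit 0) .nil) .nil))) 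
(.lf (nat_lit 608112) (.g (nat_lit 4829) (.e (nat_lit 704589) (nat_lit 3) (.e (nat_lit 163975) (nat_lit 30) (.e (nat_lit 573481) (nat_lit 13) (.e (nat_lit 65610) (nat_lit 10) (.e (nat_lit 344117) (nat_lit 21) (.e (nat_lit 516151) (nat_lit 9) (.e (nat_lit 426412) (nat_lit 15) (.e (nat_lit 2056) (nat_lit 142) .nil)))))))) (.g (nat_lit 1) (.e (nat_lit 440341) (nat_lit 0) .nil) .nil))))) 
(.nd (nat_lit 8) (.nd (nat_lit 9) 
(.lf (nat_lit 607472) (.g (nat_lit 3658) (.e (nat_lit 688166) (nat_lit 15) (.e (nat_lit 57479) (nat_lit 28) (.e (nat_lit 557103) (nat_lit 14) (.e (nat_lit 180250) (nat_lit 10) (.e (nat_lit 573487) (nat_lit 14) (.e (nat_lit 73746) (nat_lit 3) (.e (nat_lit 516100) (nat_lit 0) (.e (nat_lit 7936) (nat_lit 216) .nil)))))))) (.g (nat_lit 1) (.e (nat_lit 438175) (nat_lit 0) .nil) .nil))) 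
(.lf (nat_lit 607984) (.g (nat_lit 2516) (.e (nat_lit 696344) (nat_lit 8) (.e (nat_lit 172106) (nat_lit 10) (.e (nat_lit 434289) (nat_lit 43) (.e (nat_lit 696346) (nat_lit 10) (.e (nat_lit 188434) (nat_lit 20) (.e (nat_lit 3467) (nat_lit 217) .nil)))))) (.g (nat_lit 1) (.e (nat_lit 439787) (nat_lit 0) .nil) .nil)))) (.nd (nat_lit 9) 
(.lf (nat_lit 607728) (.g (nat_lit 1193) (.e (nat_lit 696343) (nat_lit 8) (.e (nat_lit 172113) (nat_lit 10) (.e (nat_lit 434208) (nat_lit 18) (.e (nat_lit 6250) (nat_lit 337) .nil)))) (.g (nat_lit 0) (.e (nat_lit 439345) (nat_lit 0) .nil) .nil))) 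
(.lf (nat_lit 608240) (.g (nat_lit 3936) (.e (nat_lit 704589) (nat_lit 3) (.e (nat_lit 163975) (nat_lit 30) (.e (nat_lit 573492) (nat_lit 15) (.e (nat_lit 81956) (nat_lit 23) (.e (nat_lit 98359) (nat_lit 26) (.e (nat_lit 426414) (nat_lit 15) (.e (nat_lit 2059) (nat_lit 142) .nil))))))) (.g (nat_lit 1) (.e (nat_lit 440576) (nat_lit 0) .nil) .nil))))))))) 
(.nd (nat_lit 4) (.nd (nat_lit 5) (.nd (nat_lit 6) (.nd (nat_lit 7) (.nd (nat_lit 8) 
(.nd (nat_lit 9) 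
(.lf (nat_lit 607240) (.g (nat_lit 684) (.e (nat_lit 802843) (nat_lit 24) (.e (nat_lit 213030) (nat_lit 11) (.e (nat_lit 24617) (nat_lit 7) .nil))) (.g (nat_lit 0) (.e (nat_lit 437071) (nat_lit 0) .nil) .nil))) 
(.lf (nat_lit 607752) (.g (nat_lit 2939) (.e (nat_lit 696343) (nat_lit 8) (.e (nat_lit 172115) (nat_lit 10) (.e (nat_lit 434209) (nat_lit 18) (.e (nat_lit 6425) (nat_lit 342) (.e (nat_lit 229412) (nat_lit 14) (.e (nat_lit 442408) (nat_lit 20) (.e (nat_lit 3468) (nat_lit 217) .nil))))))) (.g (nat_lit 1) (.e (nat_lit 439410) (nat_lit 0) .nil) .nil)))) (.nd (nat_lit 9) 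
(.lf (nat_lit 607496) (.g (nat_lit 2062) (.e (nat_lit 688180) (nat_lit 17) (.e (nat_lit 73753) (nat_lit 8) (.e (nat_lit 557072) (nat_lit 9) (.e (nat_lit 3098) (nat_lit 192) (.e (nat_lit 491571) (nat_lit 13) (.e (nat_lit 393235) (nat_lit 17) (.e (nat_lit 7936) (nat_lit 216) .nil))))))) (.g (nat_lit 1) (.e (nat_lit 438242) (nat_lit 0) .nil) .nil))) 
(.lf (nat_lit 608008) (.g (nat_lit 404) (.e (nat_lit 696344) (nat_lit 8) (.e (nat_lit 172113) (nat_lit 10) (.e (nat_lit 434207) (nat_lit 18) .nil))) (.g (nat_lit 0) (.e (nat_lit 439829) (nat_lit 0) .nil) .nil))))) (.nd (nat_lit 8) (.nd (nat_lit 9) 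
(.lf (nat_lit 607368) (.g (nat_lit 587) (.e (nat_lit 819221) (nat_lit 6) (.e (nat_lit 188452) (nat_lit 23) (.e (nat_lit 204805) (nat_lit 0) .nil))) (.g (nat_lit 0) (.e (nat_lit 437653) (nat_lit 0) .nil) .nil))) 
(.lf (nat_lit 607880) (.g (nat_lit 2619) (.e (nat_lit 696344) (nat_lit 8) (.e (nat_lit 172079) (nat_lit 7) (.e (nat_lit 409648) (nat_lit 18) (.e (nat_lit 303137) (nat_lit 10) (.e (nat_lit 434275) (nat_lit 39) (.e (nat_lit 663584) (nat_lit 12) (.e (nat_lit 164018) (nat_lit 45) .nil))))))) (.g (nat_lit 1) (.e (nat_lit 439628) (nat_lit 0) .nil) .nil)))) (.nd (nat_lit 9) 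
(.lf (nat_lit 607624) (.g (nat_lit 1344) (.e (nat_lit 696343) (nat_lit 8) (.e (nat_lit 172079) (nat_lit 7) (.e (nat_lit 409645) (nat_lit 18) (.e (nat_lit 303133) (nat_lit 9) (.e (nat_lit 426412) (nat_lit 15) .nil))))) (.g (nat_lit 0) (.e (nat_lit 439093) (nat_lit 0) .nil) .nil))) 
(.lf (nat_lit 608136) (.g (nat_lit 4600) (.e (nat_lit 704589) (nat_lit 3) (.e (nat_lit 163975) (nat_lit 30) (.e (nat_lit 573484) (nat_lit 13) (.e (nat_lit 65610) (nat_lit 10) (.e (nat_lit 344117) (nat_lit 21) (.e (nat_lit 516151) (nat_lit 9) (.e (nat_lit 426412) (nat_lit 15) (.e (nat_lit 2056) (nat_lit 142) .nil)))))))) (.g (nat_lit 1) (.e (nat_lit 440366) (nat_lit 0) .nil) .nil)))))) 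
(.nd (nat_lit 7) (.nd (nat_lit 8) (.nd (nat_lit 9) 
(.lf (nat_lit 607304) (.g (nat_lit 382) (.e (nat_lit 819204) (nat_lit 0) (.e (nat_lit 3016) (nat_lit 187) (.e (nat_lit 450584) (nat_lit 9) .nil))) (.g (nat_lit 0) (.e (nat_lit 437437) (nat_lit 0) .nil) .nil))) 
(.lf (nat_lit 607816) (.g (nat_lit 2472) (.e (nat_lit 696344) (nat_lit 8) (.e (nat_lit 172067) (nat_lit 3) (.e (nat_lit 204854) (nat_lit 26) (.e (nat_lit 336182) (nat_lit 11) .nil)))) (.g (nat_lit 0) (.e (nat_lit 439514) (nat_lit 0) .nil) .nil)))) (.nd (nat_lit 9) 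
(.lf (nat_lit 607560) (.g (nat_lit 2201) (.e (nat_lit 696343) (nat_lit 8) (.e (nat_lit 172062) (nat_lit 2) (.e (nat_lit 196666) (nat_lit 13) (.e (nat_lit 65617) (nat_lit 10) (.e (nat_lit 344130) (nat_lit 26) (.e (nat_lit 557089) (nat_lit 12) (.e (nat_lit 164019) (nat_lit 45) .nil))))))) (.g (nat_lit 1) (.e (nat_lit 439018) (nat_lit 0) .nil) .nil))) 
(.lf (nat_lit 608072) (.g (nat_lit 3231) (.e (nat_lit 696346) (nat_lit 10) (.e (nat_lit 188438) (nat_lit 20) (.e (nat_lit 3469) (nat_lit 217) (.e (nat_lit 696344) (nat_lit 8) (.e (nat_lit 172113) (nat_lit 10) (.e (nat_lit 434289) (nat_lit 43) .nil)))))) (.g (nat_lit 1) (.e (nat_lit 440030) (nat_lit 0) .nil) .nil))))) (.nd (nat_lit 8) (.nd (nat_lit 9) 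
(.lf (nat_lit 607432) (.g (nat_lit 1711) (.e (nat_lit 688139) (nat_lit 5) (.e (nat_lit 3062) (nat_lit 190) (.e (nat_lit 475179) (nat_lit 24) (.e (nat_lit 516151) (nat_lit 9) .nil)))) (.g (nat_lit 0) (.e (nat_lit 437924) (nat_lit 0) .nil) .nil))) 
(.lf (nat_lit 607944) (.g (nat_lit 2542) (.e (nat_lit 696344) (nat_lit 8) (.e (nat_lit 172082) (nat_lit 7) (.e (nat_lit 409649) (nat_lit 18) (.e (nat_lit 303140) (nat_lit 10) (.e (nat_lit 434275) (nat_lit 39) (.e (nat_lit 663572) (nat_lit 9) (.e (nat_lit 2399) (nat_lit 157) (.e (nat_lit 3471) (nat_lit 217) .nil)))))))) (.g (nat_lit 1) (.e (nat_lit 439726) (nat_lit 0) .nil) .nil)))) 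
(.nd (nat_lit 9) 
(.lf (nat_lit 607688) (.g (nat_lit 2519) (.e (nat_lit 696343) (nat_lit 8) (.e (nat_lit 172106) (nat_lit 10) (.e (nat_lit 434202) (nat_lit 18) (.e (nat_lit 6254) (nat_lit 337) (.e (nat_lit 2725) (nat_lit 172) (.e (nat_lit 237605) (nat_lit 9) (.e (nat_lit 425986) (nat_lit 0) (.e (nat_lit 3471) (nat_lit 217) .nil)))))))) (.g (nat_lit 1) (.e (nat_lit 439265) (nat_lit 0) .nil) .nil))) 
(.lf (nat_lit 608200) (.g (nat_lit 2764) (.e (nat_lit 704589) (nat_lit 3) (.e (nat_lit 163975) (nat_lit 30) (.e (nat_lit 573492) (nat_lit 15) (.e (nat_lit 81956) (nat_lit 23) (.e (nat_lit 98355) (nat_lit 26) (.e (nat_lit 426420) (nat_lit 15) (.e (nat_lit 2057) (nat_lit 142) .nil))))))) (.g (nat_lit 1) (.e (nat_lit 440536) (nat_lit 0) .nil) .nil))))))) 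
(.nd (nat_lit 6) (.nd (nat_lit 7) (.nd (nat_lit 8) (.nd (nat_lit 9) 
(.lf (nat_lit 607272) (.g (nat_lit 3554) (.e (nat_lit 811032) (nat_lit 11) (.e (nat_lit 852) (nat_lit 74) (.e (nat_lit 770072) (nat_lit 8) (.e (nat_lit 65586) (nat_lit 7) (.e (nat_lit 319531) (nat_lit 16) (.e (nat_lit 286748) (nat_lit 9) (.e (nat_lit 336295) (nat_lit 15) (.e (nat_lit 3806) (nat_lit 231) .nil)))))))) (.g (nat_lit 1) (.e (nat_lit 437182) (nat_lit 0) .nil) .nil))) 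
(.lf (nat_lit 607784) (.g (nat_lit 1719) (.e (nat_lit 696343) (nat_lit 8) (.e (nat_lit 172126) (nat_lit 14) (.e (nat_lit 491566) (nat_lit 12) (.e (nat_lit 385107) (nat_lit 51) .nil)))) (.g (nat_lit 0) (.e (nat_lit 439480) (nat_lit 0) .nil) .nil)))) (.nd (nat_lit 9) 
(.lf (nat_lit 607528) (.g (nat_lit 5474) (.e (nat_lit 696329) (nat_lit 5) (.e (nat_lit 2884) (nat_lit 184) (.e (nat_lit 426125) (nat_lit 2) (.e (nat_lit 196666) (nat_lit 13) (.e (nat_lit 65617) (nat_lit 10) (.e (nat_lit 344127) (nat_lit 26) (.e (nat_lit 557090) (nat_lit 12) (.e (nat_lit 164020) (nat_lit 45) .nil)))))))) (.g (nat_lit 1) (.e (nat_lit 438445) (nat_lit 0) .nil) .nil))) 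
(.lf (nat_lit 608040) (.g (nat_lit 2273) (.e (nat_lit 696344) (nat_lit 8) (.e (nat_lit 172115) (nat_lit 10) (.e (nat_lit 434209) (nat_lit 18) (.e (nat_lit 6427) (nat_lit 342) (.e (nat_lit 229412) (nat_lit 14) (.e (nat_lit 442411) (nat_lit 20) (.e (nat_lit 3468) (nat_lit 217) .nil))))))) (.g (nat_lit 1) (.e (nat_lit 439890) (nat_lit 0) .nil) .nil))))) (.nd (nat_lit 8) (.nd (nat_lit 9) 
(.lf (nat_lit 607400) (.g (nat_lit 452) (.e (nat_lit 688138) (nat_lit 5) (.e (nat_lit 3062) (nat_lit 190) (.e (nat_lit 475179) (nat_lit 24) .nil))) (.g (nat_lit 0) (.e (nat_lit 437820) (nat_lit 0) .nil) .nil))) 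
(.lf (nat_lit 607912) (.g (nat_lit 2916) (.e (nat_lit 696344) (nat_lit 8) (.e (nat_lit 172082) (nat_lit 7) (.e (nat_lit 409646) (nat_lit 18) (.e (nat_lit 303140) (nat_lit 10) (.e (nat_lit 434199) (nat_lit 18) (.e (nat_lit 5964) (nat_lit 324) (.e (nat_lit 163844) (nat_lit 0) (.e (nat_lit 3471) (nat_lit 217) .nil)))))))) (.g (nat_lit 1) (.e (nat_lit 439684) (nat_lit 0) .nil) .nil)))) 
(.nd (nat_lit 9) 
(.lf (nat_lit 607656) (.g (nat_lit 3126) (.e (nat_lit 696343) (nat_lit 8) (.e (nat_lit 172082) (nat_lit 7) (.e (nat_lit 409646) (nat_lit 18) (.e (nat_lit 303140) (nat_lit 10) (.e (nat_lit 434199) (nat_lit 18) (.e (nat_lit 5965) (nat_lit 324) (.e (nat_lit 163844) (nat_lit 0) (.e (nat_lit 3471) (nat_lit 217) .nil)))))))) (.g (nat_lit 1) (.e (nat_lit 439192) (nat_lit 0) .nil) .nil))) 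
(.lf (nat_lit 608168) (.g (nat_lit 3126) (.e (nat_lit 704589) (nat_lit 3) (.e (nat_lit 163975) (nat_lit 30) (.e (nat_lit 573491) (nat_lit 15) (.e (nat_lit 81954) (nat_lit 23) (.e (nat_lit 98356) (nat_lit 26) (.e (nat_lit 426393) (nat_lit 15) (.e (nat_lit 2056) (nat_lit 142) .nil))))))) (.g (nat_lit 1) (.e (nat_lit 440400) (nat_lit 0) .nil) .nil)))))) 
(.nd (nat_lit 7) (.nd (nat_lit 8) (.nd (nat_lit 9) 
(.lf (nat_lit 607336) (.g (nat_lit 660) (.e (nat_lit 819219) (nat_lit 4) (.e (nat_lit 172113) (nat_lit 10) (.e (nat_lit 434228) (nat_lit 22) .nil))) (.g (nat_lit 0) (.e (nat_lit 437587) (nat_lit 0) .nil) .nil))) 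
(.lf (nat_lit 607848) (.g (nat_lit 2213) (.e (nat_lit 696344) (nat_lit 8) (.e (nat_lit 172078) (nat_lit 7) (.e (nat_lit 409649) (nat_lit 18) (.e (nat_lit 303140) (nat_lit 10) (.e (nat_lit 434275) (nat_lit 39) .nil))))) (.g (nat_lit 0) (.e (nat_lit 439549) (nat_lit 0) .nil) .nil)))) (.nd (nat_lit 9) 
(.lf (nat_lit 607592) (.g (nat_lit 4062) (.e (nat_lit 696343) (nat_lit 8) (.e (nat_lit 172065) (nat_lit 3) (.e (nat_lit 204869) (nat_lit 29) (.e (nat_lit 360475) (nat_lit 8) (.e (nat_lit 557091) (nat_lit 12) (.e (nat_lit 164018) (nat_lit 45) .nil)))))) (.g (nat_lit 1) (.e (nat_lit 439052) (nat_lit 0) .nil) .nil))) 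
(.lf (nat_lit 608104) (.g (nat_lit 4387) (.e (nat_lit 704589) (nat_lit 3) (.e (nat_lit 163975) (nat_lit 30) (.e (nat_lit 573480) (nat_lit 13) (.e (nat_lit 65610) (nat_lit 10) (.e (nat_lit 344117) (nat_lit 21) (.e (nat_lit 516151) (nat_lit 9) (.e (nat_lit 426412) (nat_lit 15) (.e (nat_lit 2058) (nat_lit 142) .nil)))))))) (.g (nat_lit 1) (.e (nat_lit 440333) (nat_lit 0) .nil) .nil))))) 
(.nd (nat_lit 8) (.nd (nat_lit 9) 
(.lf (nat_lit 607464) (.g (nat_lit 1487) (.e (nat_lit 688166) (nat_lit 15) (.e (nat_lit 57478) (nat_lit 28) (.e (nat_lit 557103) (nat_lit 14) (.e (nat_lit 180250) (nat_lit 10) .nil)))) (.g (nat_lit 0) (.e (nat_lit 438167) (nat_lit 0) .nil) .nil))) 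
(.lf (nat_lit 607976) (.g (nat_lit 1757) (.e (nat_lit 696344) (nat_lit 8) (.e (nat_lit 172106) (nat_lit 10) (.e (nat_lit 434209) (nat_lit 18) (.e (nat_lit 6427) (nat_lit 342) (.e (nat_lit 229412) (nat_lit 14) .nil))))) (.g (nat_lit 0) (.e (nat_lit 439777) (nat_lit 0) .nil) .nil)))) (.nd (nat_lit 9) 
(.lf (nat_lit 607720) (.g (nat_lit 1322) (.e (nat_lit 696343) (nat_lit 8) (.e (nat_lit 172113) (nat_lit 10) (.e (nat_lit 434203) (nat_lit 18) (.e (nat_lit 6254) (nat_lit 337) (.e (nat_lit 7936) (nat_lit 166) .nil))))) (.g (nat_lit 0) (.e (nat_lit 439322) (nat_lit 0) .nil) .nil))) 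
(.lf (nat_lit 608232) (.g (nat_lit 4134) (.e (nat_lit 704589) (nat_lit 3) (.e (nat_lit 163975) (nat_lit 30) (.e (nat_lit 573492) (nat_lit 15) (.e (nat_lit 81956) (nat_lit 23) (.e (nat_lit 98356) (nat_lit 26) (.e (nat_lit 426393) (nat_lit 15) (.e (nat_lit 2057) (nat_lit 142) .nil))))))) (.g (nat_lit 1) (.e (nat_lit 440568) (nat_lit 0) .nil) .nil)))))))) 
(.nd (nat_lit 5) (.nd (nat_lit 6) (.nd (nat_lit 7) (.nd (nat_lit 8) (.nd (nat_lit 9) 
(.lf (nat_lit 607256) (.g (nat_lit 1015) (.e (nat_lit 811012) (nat_lit 0) (.e (nat_lit 5779) (nat_lit 317) (.e (nat_lit 180241) (nat_lit 4) (.e (nat_lit 524340) (nat_lit 28) (.e (nat_lit 352283) (nat_lit 20) (.e (nat_lit 2384) (nat_lit 155) .nil)))))) (.g (nat_lit 1) (.e (nat_lit 437102) (nat_lit 0) .nil) .nil))) 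
(.lf (nat_lit 607768) (.g (nat_lit 1667) (.e (nat_lit 696343) (nat_lit 8) (.e (nat_lit 172123) (nat_lit 13) (.e (nat_lit 483411) (nat_lit 27) (.e (nat_lit 401440) (nat_lit 9) (.e (nat_lit 426017) (nat_lit 0) .nil))))) (.g (nat_lit 0) (.e (nat_lit 439457) (nat_lit 0) .nil) .nil)))) (.nd (nat_lit 9) 
(.lf (nat_lit 607512) (.g (nat_lit 3033) (.e (nat_lit 696328) (nat_lit 5) (.e (nat_lit 2884) (nat_lit 184) (.e (nat_lit 426140) (nat_lit 3) (.e (nat_lit 204868) (nat_lit 29) (.e (nat_lit 360473) (nat_lit 8) (.e (nat_lit 557091) (nat_lit 12) (.e (nat_lit 164018) (nat_lit 45) .nil))))))) (.g (nat_lit 1) (.e (nat_lit 438370) (nat_lit 0) .nil) .nil))) 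
(.lf (nat_lit 608024) (.g (nat_lit 2527) (.e (nat_lit 696344) (nat_lit 8) (.e (nat_lit 172115) (nat_lit 10) (.e (nat_lit 434202) (nat_lit 18) (.e (nat_lit 6420) (nat_lit 341) (.e (nat_lit 163923) (nat_lit 15) (.e (nat_lit 450601) (nat_lit 21) .nil)))))) (.g (nat_lit 1) (.e (nat_lit 439873) (nat_lit 0) .nil) .nil))))) (.nd (nat_lit 8) (.nd (nat_lit 9) 
(.lf (nat_lit 607384) (.g (nat_lit 2827) (.e (nat_lit 679952) (nat_lit 5) (.e (nat_lit 1633) (nat_lit 114) (.e (nat_lit 385074) (nat_lit 31) (.e (nat_lit 573484) (nat_lit 13) (.e (nat_lit 65617) (nat_lit 10) .nil))))) (.g (nat_lit 0) (.e (nat_lit 437702) (nat_lit 0) .nil) .nil))) 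
(.lf (nat_lit 607896) (.g (nat_lit 639) (.e (nat_lit 696344) (nat_lit 8) (.e (nat_lit 172082) (nat_lit 7) (.e (nat_lit 409612) (nat_lit 10) (.e (nat_lit 848) (nat_lit 73) .nil)))) (.g (nat_lit 0) (.e (nat_lit 439644) (nat_lit 0) .nil) .nil)))) (.nd (nat_lit 9) 
(.lf (nat_lit 607640) (.g (nat_lit 2605) (.e (nat_lit 696343) (nat_lit 8) (.e (nat_lit 172082) (nat_lit 7) (.e (nat_lit 409646) (nat_lit 18) (.e (nat_lit 303133) (nat_lit 9) (.e (nat_lit 426042) (nat_lit 0) (.e (nat_lit 2427) (nat_lit 157) (.e (nat_lit 5968) (nat_lit 324) (.e (nat_lit 163844) (nat_lit 0) (.e (nat_lit 3471) (nat_lit 217) .nil))))))))) (.g (nat_lit 1) (.e (nat_lit 439148) (nat_lit 0) .nil) .nil))) 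
(.lf (nat_lit 608152) (.g (nat_lit 2498) (.e (nat_lit 704589) (nat_lit 3) (.e (nat_lit 163975) (nat_lit 30) (.e (nat_lit 573491) (nat_lit 15) (.e (nat_lit 81954) (nat_lit 23) (.e (nat_lit 98356) (nat_lit 26) (.e (nat_lit 426360) (nat_lit 15) (.e (nat_lit 2063) (nat_lit 142) .nil))))))) (.g (nat_lit 1) (.e (nat_lit 440384) (nat_lit 0) .nil) .nil)))))) 
(.nd (nat_lit 7) (.nd (nat_lit 8) (.nd (nat_lit 9) 
(.lf (nat_lit 607320) (.g (nat_lit 907) (.e (nat_lit 819218) (nat_lit 4) (.e (nat_lit 172094) (nat_lit 9) (.e (nat_lit 426125) (nat_lit 2) (.e (nat_lit 204544) (nat_lit 0) .nil)))) (.g (nat_lit 0) (.e (nat_lit 437522) (nat_lit 0) .nil) .nil))) 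
(.lf (nat_lit 607832) (.g (nat_lit 3318) (.e (nat_lit 696344) (nat_lit 8) (.e (nat_lit 172067) (nat_lit 3) (.e (nat_lit 204869) (nat_lit 29) (.e (nat_lit 360475) (nat_lit 8) (.e (nat_lit 557065) (nat_lit 9) (.e (nat_lit 2399) (nat_lit 157) (.e (nat_lit 3471) (nat_lit 217) .nil))))))) (.g (nat_lit 1) (.e (nat_lit 439532) (nat_lit 0) .nil) .nil)))) (.nd (nat_lit 9) 
(.lf (nat_lit 607576) (.g (nat_lit 3890) (.e (nat_lit 696343) (nat_lit 8) (.e (nat_lit 172064) (nat_lit 2) (.e (nat_lit 196666) (nat_lit 13) (.e (nat_lit 65617) (nat_lit 10) (.e (nat_lit 344133) (nat_lit 26) (.e (nat_lit 557091) (nat_lit 12) (.e (nat_lit 164019) (nat_lit 45) .nil))))))) (.g (nat_lit 1) (.e (nat_lit 439034) (nat_lit 0) .nil) .nil))) 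
(.lf (nat_lit 608088) (.g (nat_lit 1026) (.e (nat_lit 696348) (nat_lit 12) (.e (nat_lit 237590) (nat_lit 2) (.e (nat_lit 196681) (nat_lit 17) (.e (nat_lit 131105) (nat_lit 9) .nil)))) (.g (nat_lit 0) (.e (nat_lit 440145) (nat_lit 0) .nil) .nil))))) (.nd (nat_lit 8) (.nd (nat_lit 9) 
(.lf (nat_lit 607448) (.g (nat_lit 370) (.e (nat_lit 688139) (nat_lit 5) (.e (nat_lit 3085) (nat_lit 191) (.e (nat_lit 483337) (nat_lit 9) .nil))) (.g (nat_lit 0) (.e (nat_lit 437940) (nat_lit 0) .nil) .nil))) 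
(.lf (nat_lit 607960) (.g (nat_lit 1516) (.e (nat_lit 696344) (nat_lit 8) (.e (nat_lit 172106) (nat_lit 10) (.e (nat_lit 434209) (nat_lit 18) (.e (nat_lit 6271) (nat_lit 337) .nil)))) (.g (nat_lit 0) (.e (nat_lit 439757) (nat_lit 0) .nil) .nil)))) (.nd (nat_lit 9) 
(.lf (nat_lit 607704) (.g (nat_lit 2664) (.e (nat_lit 696343) (nat_lit 8) (.e (nat_lit 172106) (nat_lit 10) (.e (nat_lit 434209) (nat_lit 18) (.e (nat_lit 6427) (nat_lit 342) (.e (nat_lit 229412) (nat_lit 14) (.e (nat_lit 442411) (nat_lit 20) (.e (nat_lit 3467) (nat_lit 217) .nil))))))) (.g (nat_lit 1) (.e (nat_lit 439293) (nat_lit 0) .nil) .nil))) 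
(.lf (nat_lit 608216) (.g (nat_lit 3539) (.e (nat_lit 704589) (nat_lit 3) (.e (nat_lit 163975) (nat_lit 30) (.e (nat_lit 573492) (nat_lit 15) (.e (nat_lit 81956) (nat_lit 23) (.e (nat_lit 98356) (nat_lit 26) (.e (nat_lit 426361) (nat_lit 15) (.e (nat_lit 2044) (nat_lit 142) .nil))))))) (.g (nat_lit 1) (.e (nat_lit 440552) (nat_lit 0) .nil) .nil))))))) 
(.nd (nat_lit 6) (.nd (nat_lit 7) (.nd (nat_lit 8) (.nd (nat_lit 9) 
(.lf (nat_lit 607288) (.g (nat_lit 1329) (.e (nat_lit 819203) (nat_lit 0) (.e (nat_lit 3015) (nat_lit 187) (.e (nat_lit 450588) (nat_lit 10) (.e (nat_lit 573503) (nat_lit 18) .nil)))) (.g (nat_lit 0) (.e (nat_lit 437283) (nat_lit 0) .nil) .nil))) 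
(.lf (nat_lit 607800) (.g (nat_lit 2067) (.e (nat_lit 696344) (nat_lit 8) (.e (nat_lit 172064) (nat_lit 2) (.e (nat_lit 196666) (nat_lit 13) (.e (nat_lit 65614) (nat_lit 10) .nil)))) (.g (nat_lit 0) (.e (nat_lit 439497) (nat_lit 0) .nil) .nil)))) (.nd (nat_lit 9) 
(.lf (nat_lit 607544) (.g (nat_lit 3276) (.e (nat_lit 696329) (nat_lit 5) (.e (nat_lit 3004) (nat_lit 186) (.e (nat_lit 442390) (nat_lit 11) (.e (nat_lit 336231) (nat_lit 14) (.e (nat_lit 401448) (nat_lit 10) (.e (nat_lit 434289) (nat_lit 43) .nil)))))) (.g (nat_lit 1) (.e (nat_lit 438481) (nat_lit 0) .nil) .nil))) 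
(.lf (nat_lit 608056) (.g (nat_lit 1997) (.e (nat_lit 696344) (nat_lit 8) (.e (nat_lit 172116) (nat_lit 10) (.e (nat_lit 434289) (nat_lit 43) (.e (nat_lit 696346) (nat_lit 10) (.e (nat_lit 188438) (nat_lit 20) (.e (nat_lit 3467) (nat_lit 217) .nil)))))) (.g (nat_lit 1) (.e (nat_lit 439911) (nat_lit 0) .nil) .nil))))) (.nd (nat_lit 8) (.nd (nat_lit 9) 
(.lf (nat_lit 607416) (.g (nat_lit 638) (.e (nat_lit 688139) (nat_lit 5) (.e (nat_lit 2887) (nat_lit 184) (.e (nat_lit 426202) (nat_lit 9) .nil))) (.g (nat_lit 0) (.e (nat_lit 437852) (nat_lit 0) .nil) .nil))) 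
(.lf (nat_lit 607928) (.g (nat_lit 2690) (.e (nat_lit 696344) (nat_lit 8) (.e (nat_lit 172082) (nat_lit 7) (.e (nat_lit 409646) (nat_lit 18) (.e (nat_lit 303140) (nat_lit 10) (.e (nat_lit 434275) (nat_lit 39) (.e (nat_lit 663579) (nat_lit 9) (.e (nat_lit 2429) (nat_lit 157) (.e (nat_lit 3471) (nat_lit 217) .nil)))))))) (.g (nat_lit 1) (.e (nat_lit 439700) (nat_lit 0) .nil) .nil)))) 
(.nd (nat_lit 9) 
(.lf (nat_lit 607672) (.g (nat_lit 1142) (.e (nat_lit 696343) (nat_lit 8) (.e (nat_lit 172082) (nat_lit 7) (.e (nat_lit 409648) (nat_lit 18) (.e (nat_lit 303137) (nat_lit 10) .nil)))) (.g (nat_lit 0) (.e (nat_lit 439233) (nat_lit 0) .nil) .nil))) 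
(.lf (nat_lit 608184) (.g (nat_lit 3911) (.e (nat_lit 704589) (nat_lit 3) (.e (nat_lit 163975) (nat_lit 30) (.e (nat_lit 573492) (nat_lit 15) (.e (nat_lit 81953) (nat_lit 22) (.e (nat_lit 90166) (nat_lit 13) (.e (nat_lit 172136) (nat_lit 15) (.e (nat_lit 2058) (nat_lit 142) .nil))))))) (.g (nat_lit 1) (.e (nat_lit 440500) (nat_lit 0) .nil) .nil)))))) 
(.nd (nat_lit 7) (.nd (nat_lit 8) (.nd (nat_lit 9) 
(.lf (nat_lit 607352) (.g (nat_lit 1741) (.e (nat_lit 819221) (nat_lit 6) (.e (nat_lit 188435) (nat_lit 20) (.e (nat_lit 3289) (nat_lit 201) (.e (nat_lit 565269) (nat_lit 6) (.e (nat_lit 81947) (nat_lit 20) (.e (nat_lit 2391) (nat_lit 156) .nil)))))) (.g (nat_lit 1) (.e (nat_lit 437630) (nat_lit 0) .nil) .nil))) 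
(.lf (nat_lit 607864) (.g (nat_lit 2502) (.e (nat_lit 696344) (nat_lit 8) (.e (nat_lit 172079) (nat_lit 7) (.e (nat_lit 409645) (nat_lit 18) (.e (nat_lit 303135) (nat_lit 10) (.e (nat_lit 434275) (nat_lit 39) (.e (nat_lit 663580) (nat_lit 9) (.e (nat_lit 2478) (nat_lit 157) (.e (nat_lit 3464) (nat_lit 217) .nil)))))))) (.g (nat_lit 1) (.e (nat_lit 439593) (nat_lit 0) .nil) .nil)))) 
(.nd (nat_lit 9) 
(.lf (nat_lit 607608) (.g (nat_lit 1333) (.e (nat_lit 696343) (nat_lit 8) (.e (nat_lit 172067) (nat_lit 3) (.e (nat_lit 204869) (nat_lit 29) (.e (nat_lit 360473) (nat_lit 8) .nil)))) (.g (nat_lit 0) (.e (nat_lit 439071) (nat_lit 0) .nil) .nil))) 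
(.lf (nat_lit 608120) (.g (nat_lit 3491) (.e (nat_lit 704589) (nat_lit 3) (.e (nat_lit 163975) (nat_lit 30) (.e (nat_lit 573481) (nat_lit 13) (.e (nat_lit 65619) (nat_lit 10) (.e (nat_lit 344117) (nat_lit 21) (.e (nat_lit 516144) (nat_lit 9) (.e (nat_lit 426405) (nat_lit 15) (.e (nat_lit 2059) (nat_lit 142) .nil)))))))) (.g (nat_lit 1) (.e (nat_lit 440350) (nat_lit 0) .nil) .nil))))) 
(.nd (nat_lit 8) (.nd (nat_lit 9) 
(.lf (nat_lit 607480) (.g (nat_lit 2338) (.e (nat_lit 688167) (nat_lit 15) (.e (nat_lit 57478) (nat_lit 28) (.e (nat_lit 557105) (nat_lit 14) (.e (nat_lit 180252) (nat_lit 10) (.e (nat_lit 573481) (nat_lit 13) .nil))))) (.g (nat_lit 0) (.e (nat_lit 438184) (nat_lit 0) .nil) .nil))) 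
(.lf (nat_lit 607992) (.g (nat_lit 1947) (.e (nat_lit 696344) (nat_lit 8) (.e (nat_lit 172107) (nat_lit 10) (.e (nat_lit 434289) (nat_lit 43) (.e (nat_lit 696346) (nat_lit 10) (.e (nat_lit 188435) (nat_lit 20) (.e (nat_lit 3467) (nat_lit 217) .nil)))))) (.g (nat_lit 1) (.e (nat_lit 439801) (nat_lit 0) .nil) .nil)))) (.nd (nat_lit 9) 
(.lf (nat_lit 607736) (.g (nat_lit 1120) (.e (nat_lit 696343) (nat_lit 8) (.e (nat_lit 172113) (nat_lit 10) (.e (nat_lit 434208) (nat_lit 18) (.e (nat_lit 6418) (nat_lit 341) .nil)))) (.g (nat_lit 0) (.e (nat_lit 439375) (nat_lit 0) .nil) .nil))) 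
(.lf (nat_lit 608248) (.g (nat_lit 3705) (.e (nat_lit 704589) (nat_lit 3) (.e (nat_lit 163975) (nat_lit 30) (.e (nat_lit 573492) (nat_lit 15) (.e (nat_lit 81956) (nat_lit 23) (.e (nat_lit 98362) (nat_lit 26) (.e (nat_lit 426412) (nat_lit 15) (.e (nat_lit 2056) (nat_lit 142) .nil))))))) (.g (nat_lit 1) (.e (nat_lit 440584) (nat_lit 0) .nil) .nil)))))))))) 
(.nd (nat_lit 3) (.nd (nat_lit 4) (.nd (nat_lit 5) (.nd (nat_lit 6) (.nd (nat_lit 7) 
(.nd (nat_lit 8) (.nd (nat_lit 9) 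
(.lf (nat_lit 607236) (.g (nat_lit 1661) (.e (nat_lit 802836) (nat_lit 20) (.e (nat_lit 3747) (nat_lit 228) (.e (nat_lit 786473) (nat_lit 27) (.e (nat_lit 336429) (nat_lit 29) .nil)))) (.g (nat_lit 0) (.e (nat_lit 437035) (nat_lit 0) .nil) .nil))) 
(.lf (nat_lit 607748) (.g (nat_lit 1865) (.e (nat_lit 696343) (nat_lit 8) (.e (nat_lit 172113) (nat_lit 10) (.e (nat_lit 434289) (nat_lit 43) (.e (nat_lit 696346) (nat_lit 10) (.e (nat_lit 188440) (nat_lit 20) (.e (nat_lit 3467) (nat_lit 217) .nil)))))) (.g (nat_lit 1) (.e (nat_lit 439399) (nat_lit 0) .nil) .nil)))) (.nd (nat_lit 9) 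
(.lf (nat_lit 607492) (.g (nat_lit 2138) (.e (nat_lit 688177) (nat_lit 16) (.e (nat_lit 65630) (nat_lit 14) (.e (nat_lit 401432) (nat_lit 7) (.e (nat_lit 409645) (nat_lit 18) .nil)))) (.g (nat_lit 0) (.e (nat_lit 438221) (nat_lit 0) .nil) .nil))) 
(.lf (nat_lit 608004) (.g (nat_lit 1562) (.e (nat_lit 696344) (nat_lit 8) (.e (nat_lit 172113) (nat_lit 10) (.e (nat_lit 434203) (nat_lit 18) (.e (nat_lit 6252) (nat_lit 337) (.e (nat_lit 2651) (nat_lit 166) .nil))))) (.g (nat_lit 0) (.e (nat_lit 439814) (nat_lit 0) .nil) .nil))))) (.nd (nat_lit 8) (.nd (nat_lit 9) 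
(.lf (nat_lit 607364) (.g (nat_lit 1683) (.e (nat_lit 819221) (nat_lit 6) (.e (nat_lit 188440) (nat_lit 20) (.e (nat_lit 3289) (nat_lit 201) (.e (nat_lit 565269) (nat_lit 6) (.e (nat_lit 81947) (nat_lit 20) (.e (nat_lit 2390) (nat_lit 156) .nil)))))) (.g (nat_lit 1) (.e (nat_lit 437642) (nat_lit 0) .nil) .nil))) 
(.lf (nat_lit 607876) (.g (nat_lit 1785) (.e (nat_lit 696344) (nat_lit 8) (.e (nat_lit 172079) (nat_lit 7) (.e (nat_lit 409645) (nat_lit 18) (.e (nat_lit 303143) (nat_lit 12) (.e (nat_lit 475220) (nat_lit 44) .nil))))) (.g (nat_lit 0) (.e (nat_lit 439621) (nat_lit 0) .nil) .nil)))) (.nd (nat_lit 9) 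
(.lf (nat_lit 607620) (.g (nat_lit 2134) (.e (nat_lit 696343) (nat_lit 8) (.e (nat_lit 172079) (nat_lit 7) (.e (nat_lit 409645) (nat_lit 18) (.e (nat_lit 303133) (nat_lit 9) (.e (nat_lit 426042) (nat_lit 0) (.e (nat_lit 2446) (nat_lit 157) (.e (nat_lit 5965) (nat_lit 324) (.e (nat_lit 163844) (nat_lit 0) (.e (nat_lit 3471) (nat_lit 217) .nil))))))))) (.g (nat_lit 1) (.e (nat_lit 439089) (nat_lit 0) .nil) .nil))) 
(.lf (nat_lit 608132) (.g (nat_lit 3608) (.e (nat_lit 704589) (nat_lit 3) (.e (nat_lit 163975) (nat_lit 30) (.e (nat_lit 573481) (nat_lit 13) (.e (nat_lit 65619) (nat_lit 10) (.e (nat_lit 344117) (nat_lit 21) (.e (nat_lit 516180) (nat_lit 15) (.e (nat_lit 483072) (nat_lit 40) .nil))))))) (.g (nat_lit 1) (.e (nat_lit 440362) (nat_lit 0) .nil) .nil)))))) 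
(.nd (nat_lit 7) (.nd (nat_lit 8) (.nd (nat_lit 9) 
(.lf (nat_lit 607300) (.g (nat_lit 181) (.e (nat_lit 819203) (nat_lit 0) (.e (nat_lit 3027) (nat_lit 187) (.e (nat_lit 458496) (nat_lit 4) .nil))) (.g (nat_lit 0) (.e (nat_lit 437345) (nat_lit 0) .nil) .nil))) 
(.lf (nat_lit 607812) (.g (nat_lit 3092) (.e (nat_lit 696344) (nat_lit 8) (.e (nat_lit 172065) (nat_lit 3) (.e (nat_lit 204869) (nat_lit 29) (.e (nat_lit 360475) (nat_lit 8) (.e (nat_lit 557089) (nat_lit 12) (.e (nat_lit 164019) (nat_lit 45) .nil)))))) (.g (nat_lit 1) (.e (nat_lit 439510) (nat_lit 0) .nil) .nil)))) (.nd (nat_lit 9) 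
(.lf (nat_lit 607556) (.g (nat_lit 989) (.e (nat_lit 696342) (nat_lit 8) (.e (nat_lit 172126) (nat_lit 14) (.e (nat_lit 491534) (nat_lit 1) .nil))) (.g (nat_lit 0) (.e (nat_lit 439010) (nat_lit 0) .nil) .nil))) 
(.lf (nat_lit 608068) (.g (nat_lit 4062) (.e (nat_lit 696345) (nat_lit 9) (.e (nat_lit 180244) (nat_lit 5) (.e (nat_lit 532550) (nat_lit 12) (.e (nat_lit 360474) (nat_lit 8) (.e (nat_lit 557088) (nat_lit 12) (.e (nat_lit 164018) (nat_lit 45) .nil)))))) (.g (nat_lit 1) (.e (nat_lit 439957) (nat_lit 0) .nil) .nil))))) (.nd (nat_lit 8) (.nd (nat_lit 9) 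
(.lf (nat_lit 607428) (.g (nat_lit 415) (.e (nat_lit 688139) (nat_lit 5) (.e (nat_lit 3062) (nat_lit 190) (.e (nat_lit 475179) (nat_lit 24) .nil))) (.g (nat_lit 0) (.e (nat_lit 437919) (nat_lit 0) .nil) .nil))) 
(.lf (nat_lit 607940) (.g (nat_lit 2536) (.e (nat_lit 696344) (nat_lit 8) (.e (nat_lit 172082) (nat_lit 7) (.e (nat_lit 409648) (nat_lit 18) (.e (nat_lit 303137) (nat_lit 10) (.e (nat_lit 434275) (nat_lit 39) (.e (nat_lit 663580) (nat_lit 9) (.e (nat_lit 2478) (nat_lit 157) (.e (nat_lit 3464) (nat_lit 217) .nil)))))))) (.g (nat_lit 1) (.e (nat_lit 439722) (nat_lit 0) .nil) .nil)))) 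
(.nd (nat_lit 9) 
(.lf (nat_lit 607684) (.g (nat_lit 3120) (.e (nat_lit 696343) (nat_lit 8) (.e (nat_lit 172082) (nat_lit 7) (.e (nat_lit 409649) (nat_lit 18) (.e (nat_lit 303140) (nat_lit 10) (.e (nat_lit 434275) (nat_lit 39) (.e (nat_lit 663584) (nat_lit 12) (.e (nat_lit 164020) (nat_lit 45) .nil))))))) (.g (nat_lit 1) (.e (nat_lit 439248) (nat_lit 0) .nil) .nil))) 
(.lf (nat_lit 608196) (.g (nat_lit 3275) (.e (nat_lit 704589) (nat_lit 3) (.e (nat_lit 163975) (nat_lit 30) (.e (nat_lit 573492) (nat_lit 15) (.e (nat_lit 81956) (nat_lit 23) (.e (nat_lit 98355) (nat_lit 26) (.e (nat_lit 426405) (nat_lit 15) (.e (nat_lit 2059) (nat_lit 142) .nil))))))) (.g (nat_lit 1) (.e (nat_lit 440532) (nat_lit 0) .nil) .nil))))))) 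
(.nd (nat_lit 6) (.nd (nat_lit 7) (.nd (nat_lit 8) (.nd (nat_lit 9) 
(.lf (nat_lit 607268) (.g (nat_lit 796) (.e (nat_lit 811028) (nat_lit 9) (.e (nat_lit 303140) (nat_lit 10) (.e (nat_lit 434241) (nat_lit 27) (.e (nat_lit 565269) (nat_lit 6) .nil)))) (.g (nat_lit 0) (.e (nat_lit 437137) (nat_lit 0) .nil) .nil))) 
(.lf (nat_lit 607780) (.g (nat_lit 2414) (.e (nat_lit 696343) (nat_lit 8) (.e (nat_lit 172123) (nat_lit 13) (.e (nat_lit 483413) (nat_lit 27) (.e (nat_lit 401440) (nat_lit 9) (.e (nat_lit 426041) (nat_lit 0) .nil))))) (.g (nat_lit 0) (.e (nat_lit 439473) (nat_lit 0) .nil) .nil)))) (.nd (nat_lit 9) 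
(.lf (nat_lit 607524) (.g (nat_lit 2339) (.e (nat_lit 696328) (nat_lit 5) (.e (nat_lit 3004) (nat_lit 186) (.e (nat_lit 442390) (nat_lit 11) (.e (nat_lit 336231) (nat_lit 14) (.e (nat_lit 401448) (nat_lit 10) (.e (nat_lit 434287) (nat_lit 43) .nil)))))) (.g (nat_lit 1) (.e (nat_lit 438390) (nat_lit 0) .nil) .nil))) 
(.lf (nat_lit 608036) (.g (nat_lit 2578) (.e (nat_lit 696344) (nat_lit 8) (.e (nat_lit 172115) (nat_lit 10) (.e (nat_lit 434209) (nat_lit 18) (.e (nat_lit 6425) (nat_lit 342) (.e (nat_lit 229414) (nat_lit 15) (.e (nat_lit 450601) (nat_lit 21) .nil)))))) (.g (nat_lit 1) (.e (nat_lit 439886) (nat_lit 0) .nil) .nil))))) (.nd (nat_lit 8) (.nd (nat_lit 9) 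
(.lf (nat_lit 607396) (.g (nat_lit 454) (.e (nat_lit 688138) (nat_lit 5) (.e (nat_lit 2887) (nat_lit 184) (.e (nat_lit 426211) (nat_lit 9) .nil))) (.g (nat_lit 0) (.e (nat_lit 437764) (nat_lit 0) .nil) .nil))) 
(.lf (nat_lit 607908) (.g (nat_lit 2460) (.e (nat_lit 696344) (nat_lit 8) (.e (nat_lit 172082) (nat_lit 7) (.e (nat_lit 409646) (nat_lit 18) (.e (nat_lit 303133) (nat_lit 9) (.e (nat_lit 426042) (nat_lit 0) (.e (nat_lit 2449) (nat_lit 157) (.e (nat_lit 5966) (nat_lit 324) (.e (nat_lit 163844) (nat_lit 0) (.e (nat_lit 3471) (nat_lit 217) .nil))))))))) (.g (nat_lit 1) (.e (nat_lit 439659) (nat_lit 0) .nil) .nil)))) 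
(.nd (nat_lit 9) 
(.lf (nat_lit 607652) (.g (nat_lit 1783) (.e (nat_lit 696343) (nat_lit 8) (.e (nat_lit 172082) (nat_lit 7) (.e (nat_lit 409646) (nat_lit 18) (.e (nat_lit 303135) (nat_lit 10) .nil)))) (.g (nat_lit 0) (.e (nat_lit 439188) (nat_lit 0) .nil) .nil))) 
(.lf (nat_lit 608164) (.g (nat_lit 3230) (.e (nat_lit 704589) (nat_lit 3) (.e (nat_lit 163975) (nat_lit 30) (.e (nat_lit 573491) (nat_lit 15) (.e (nat_lit 81954) (nat_lit 23) (.e (nat_lit 98356) (nat_lit 26) (.e (nat_lit 426375) (nat_lit 15) (.e (nat_lit 2057) (nat_lit 142) .nil))))))) (.g (nat_lit 1) (.e (nat_lit 440396) (nat_lit 0) .nil) .nil)))))) 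
(.nd (nat_lit 7) (.nd (nat_lit 8) (.nd (nat_lit 9) 
(.lf (nat_lit 607332) (.g (nat_lit 396) (.e (nat_lit 819219) (nat_lit 4) (.e (nat_lit 172106) (nat_lit 10) (.e (nat_lit 434228) (nat_lit 22) .nil))) (.g (nat_lit 0) (.e (nat_lit 437574) (nat_lit 0) .nil) .nil))) 
(.lf (nat_lit 607844) (.g (nat_lit 2293) (.e (nat_lit 696344) (nat_lit 8) (.e (nat_lit 172078) (nat_lit 7) (.e (nat_lit 409646) (nat_lit 18) (.e (nat_lit 303140) (nat_lit 10) (.e (nat_lit 434275) (nat_lit 39) (.e (nat_lit 663580) (nat_lit 9) (.e (nat_lit 7936) (nat_lit 157) (.e (nat_lit 3471) (nat_lit 217) .nil)))))))) (.g (nat_lit 1) (.e (nat_lit 439545) (nat_lit 0) .nil) .nil)))) 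
(.nd (nat_lit 9) 
(.lf (nat_lit 607588) (.g (nat_lit 3623) (.e (nat_lit 696343) (nat_lit 8) (.e (nat_lit 172065) (nat_lit 3) (.e (nat_lit 204869) (nat_lit 29) (.e (nat_lit 360474) (nat_lit 8) (.e (nat_lit 557088) (nat_lit 12) (.e (nat_lit 164020) (nat_lit 45) .nil)))))) (.g (nat_lit 1) (.e (nat_lit 439048) (nat_lit 0) .nil) .nil))) 
(.lf (nat_lit 608100) (.g (nat_lit 1925) (.e (nat_lit 704588) (nat_lit 3) (.e (nat_lit 163962) (nat_lit 25) (.e (nat_lit 532544) (nat_lit 10) (.e (nat_lit 344133) (nat_lit 26) (.e (nat_lit 557098) (nat_lit 13) .nil))))) (.g (nat_lit 0) (.e (nat_lit 440306) (nat_lit 0) .nil) .nil))))) (.nd (nat_lit 8) (.nd (nat_lit 9) 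
(.lf (nat_lit 607460) (.g (nat_lit 1161) (.e (nat_lit 688166) (nat_lit 15) (.e (nat_lit 57477) (nat_lit 28) (.e (nat_lit 557104) (nat_lit 14) (.e (nat_lit 180250) (nat_lit 10) .nil)))) (.g (nat_lit 0) (.e (nat_lit 438163) (nat_lit 0) .nil) .nil))) 
(.lf (nat_lit 607972) (.g (nat_lit 2840) (.e (nat_lit 696344) (nat_lit 8) (.e (nat_lit 172106) (nat_lit 10) (.e (nat_lit 434209) (nat_lit 18) (.e (nat_lit 6425) (nat_lit 342) (.e (nat_lit 229414) (nat_lit 15) (.e (nat_lit 450601) (nat_lit 21) .nil)))))) (.g (nat_lit 1) (.e (nat_lit 439773) (nat_lit 0) .nil) .nil)))) (.nd (nat_lit 9) 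
(.lf (nat_lit 607716) (.g (nat_lit 1508) (.e (nat_lit 696343) (nat_lit 8) (.e (nat_lit 172112) (nat_lit 10) (.e (nat_lit 434289) (nat_lit 43) (.e (nat_lit 696344) (nat_lit 8) (.e (nat_lit 172113) (nat_lit 10) .nil))))) (.g (nat_lit 0) (.e (nat_lit 439313) (nat_lit 0) .nil) .nil))) 
(.lf (nat_lit 608228) (.g (nat_lit 4090) (.e (nat_lit 704589) (nat_lit 3) (.e (nat_lit 163975) (nat_lit 30) (.e (nat_lit 573492) (nat_lit 15) (.e (nat_lit 81956) (nat_lit 23) (.e (nat_lit 98356) (nat_lit 26) (.e (nat_lit 426376) (nat_lit 15) (.e (nat_lit 2057) (nat_lit 142) .nil))))))) (.g (nat_lit 1) (.e (nat_lit 440564) (nat_lit 0) .nil) .nil)))))))) 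
(.nd (nat_lit 5) (.nd (nat_lit 6) (.nd (nat_lit 7) (.nd (nat_lit 8) (.nd (nat_lit 9) 
(.lf (nat_lit 607252) (.g (nat_lit 1163) (.e (nat_lit 811012) (nat_lit 0) (.e (nat_lit 5776) (nat_lit 317) (.e (nat_lit 180241) (nat_lit 4) (.e (nat_lit 524340) (nat_lit 28) (.e (nat_lit 352287) (nat_lit 20) (.e (nat_lit 2384) (nat_lit 155) .nil)))))) (.g (nat_lit 1) (.e (nat_lit 437097) (nat_lit 0) .nil) .nil))) 
(.lf (nat_lit 607764) (.g (nat_lit 2870) (.e (nat_lit 696343) (nat_lit 8) (.e (nat_lit 172123) (nat_lit 13) (.e (nat_lit 483410) (nat_lit 27) (.e (nat_lit 401437) (nat_lit 9) (.e (nat_lit 425986) (nat_lit 0) (.e (nat_lit 3471) (nat_lit 217) .nil)))))) (.g (nat_lit 1) (.e (nat_lit 439451) (nat_lit 0) .nil) .nil)))) (.nd (nat_lit 9) 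
(.lf (nat_lit 607508) (.g (nat_lit 4110) (.e (nat_lit 696328) (nat_lit 5) (.e (nat_lit 2884) (nat_lit 184) (.e (nat_lit 426125) (nat_lit 2) (.e (nat_lit 196666) (nat_lit 13) (.e (nat_lit 65617) (nat_lit 10) (.e (nat_lit 344130) (nat_lit 26) (.e (nat_lit 557089) (nat_lit 12) (.e (nat_lit 164020) (nat_lit 45) .nil)))))))) (.g (nat_lit 1) (.e (nat_lit 438362) (nat_lit 0) .nil) .nil))) 
(.lf (nat_lit 608020) (.g (nat_lit 449) (.e (nat_lit 696344) (nat_lit 8) (.e (nat_lit 172115) (nat_lit 10) (.e (nat_lit 434202) (nat_lit 18) .nil))) (.g (nat_lit 0) (.e (nat_lit 439862) (nat_lit 0) .nil) .nil))))) (.nd (nat_lit 8) (.nd (nat_lit 9) 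
(.lf (nat_lit 607380) (.g (nat_lit 1807) (.e (nat_lit 819237) (nat_lit 11) (.e (nat_lit 16468) (nat_lit 13) (.e (nat_lit 483372) (nat_lit 21) (.e (nat_lit 319531) (nat_lit 16) (.e (nat_lit 286728) (nat_lit 0) .nil))))) (.g (nat_lit 0) (.e (nat_lit 437681) (nat_lit 0) .nil) .nil))) 
(.lf (nat_lit 607892) (.g (nat_lit 3896) (.e (nat_lit 696344) (nat_lit 8) (.e (nat_lit 172081) (nat_lit 7) (.e (nat_lit 409649) (nat_lit 18) (.e (nat_lit 303140) (nat_lit 10) (.e (nat_lit 434275) (nat_lit 39) (.e (nat_lit 663580) (nat_lit 9) (.e (nat_lit 2416) (nat_lit 157) (.e (nat_lit 3471) (nat_lit 217) .nil)))))))) (.g (nat_lit 1) (.e (nat_lit 439640) (nat_lit 0) .nil) .nil)))) 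
(.nd (nat_lit 9) 
(.lf (nat_lit 607636) (.g (nat_lit 1709) (.e (nat_lit 696343) (nat_lit 8) (.e (nat_lit 172082) (nat_lit 7) (.e (nat_lit 409646) (nat_lit 18) (.e (nat_lit 303127) (nat_lit 9) .nil)))) (.g (nat_lit 0) (.e (nat_lit 439138) (nat_lit 0) .nil) .nil))) 
(.lf (nat_lit 608148) (.g (nat_lit 1656) (.e (nat_lit 704589) (nat_lit 3) (.e (nat_lit 163975) (nat_lit 30) (.e (nat_lit 573491) (nat_lit 15) (.e (nat_lit 81954) (nat_lit 23) (.e (nat_lit 98355) (nat_lit 26) (.e (nat_lit 426402) (nat_lit 15) (.e (nat_lit 2046) (nat_lit 142) .nil))))))) (.g (nat_lit 1) (.e (nat_lit 440380) (nat_lit 0) .nil) .nil)))))) 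
(.nd (nat_lit 7) (.nd (nat_lit 8) (.nd (nat_lit 9) 
(.lf (nat_lit 607316) (.g (nat_lit 1341) (.e (nat_lit 819217) (nat_lit 4) (.e (nat_lit 172113) (nat_lit 10) (.e (nat_lit 434245) (nat_lit 28) (.e (nat_lit 573503) (nat_lit 18) .nil)))) (.g (nat_lit 0) (.e (nat_lit 437513) (nat_lit 0) .nil) .nil))) 
(.lf (nat_lit 607828) (.g (nat_lit 4561) (.e (nat_lit 696344) (nat_lit 8) (.e (nat_lit 172067) (nat_lit 3) (.e (nat_lit 204868) (nat_lit 29) (.e (nat_lit 360475) (nat_lit 8) (.e (nat_lit 557089) (nat_lit 12) (.e (nat_lit 164020) (nat_lit 45) .nil)))))) (.g (nat_lit 1) (.e (nat_lit 439528) (nat_lit 0) .nil) .nil)))) (.nd (nat_lit 9) 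
(.lf (nat_lit 607572) (.g (nat_lit 3128) (.e (nat_lit 696343) (nat_lit 8) (.e (nat_lit 172064) (nat_lit 2) (.e (nat_lit 196666) (nat_lit 13) (.e (nat_lit 65610) (nat_lit 10) (.e (nat_lit 344129) (nat_lit 26) (.e (nat_lit 557067) (nat_lit 9) (.e (nat_lit 2430) (nat_lit 157) (.e (nat_lit 3471) (nat_lit 217) .nil)))))))) (.g (nat_lit 1) (.e (nat_lit 439030) (nat_lit 0) .nil) .nil))) 
(.lf (nat_lit 608084) (.g (nat_lit 2368) (.e (nat_lit 696348) (nat_lit 12) (.e (nat_lit 237590) (nat_lit 2) (.e (nat_lit 196666) (nat_lit 13) (.e (nat_lit 65617) (nat_lit 10) (.e (nat_lit 344130) (nat_lit 26) .nil))))) (.g (nat_lit 0) (.e (nat_lit 440141) (nat_lit 0) .nil) .nil))))) (.nd (nat_lit 8) (.nd (nat_lit 9) 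
(.lf (nat_lit 607444) (.g (nat_lit 2223) (.e (nat_lit 688139) (nat_lit 5) (.e (nat_lit 3062) (nat_lit 190) (.e (nat_lit 475179) (nat_lit 24) (.e (nat_lit 516176) (nat_lit 14) (.e (nat_lit 466945) (nat_lit 0) .nil))))) (.g (nat_lit 0) (.e (nat_lit 437936) (nat_lit 0) .nil) .nil))) 
(.lf (nat_lit 607956) (.g (nat_lit 367) (.e (nat_lit 696344) (nat_lit 8) (.e (nat_lit 172106) (nat_lit 10) (.e (nat_lit 434202) (nat_lit 18) .nil))) (.g (nat_lit 0) (.e (nat_lit 439745) (nat_lit 0) .nil) .nil)))) (.nd (nat_lit 9) 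
(.lf (nat_lit 607700) (.g (nat_lit 2769) (.e (nat_lit 696343) (nat_lit 8) (.e (nat_lit 172106) (nat_lit 10) (.e (nat_lit 434209) (nat_lit 18) (.e (nat_lit 6425) (nat_lit 342) (.e (nat_lit 229412) (nat_lit 14) (.e (nat_lit 442408) (nat_lit 20) (.e (nat_lit 3468) (nat_lit 217) .nil))))))) (.g (nat_lit 1) (.e (nat_lit 439283) (nat_lit 0) .nil) .nil))) 
(.lf (nat_lit 608212) (.g (nat_lit 3907) (.e (nat_lit 704589) (nat_lit 3) (.e (nat_lit 163975) (nat_lit 30) (.e (nat_lit 573492) (nat_lit 15) (.e (nat_lit 81956) (nat_lit 23) (.e (nat_lit 98356) (nat_lit 26) (.e (nat_lit 426360) (nat_lit 15) (.e (nat_lit 2061) (nat_lit 142) .nil))))))) (.g (nat_lit 1) (.e (nat_lit 440548) (nat_lit 0) .nil) .nil))))))) 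
(.nd (nat_lit 6) (.nd (nat_lit 7) (.nd (nat_lit 8) (.nd (nat_lit 9) 
(.lf (nat_lit 607284) (.g (nat_lit 1139) (.e (nat_lit 819202) (nat_lit 0) (.e (nat_lit 3015) (nat_lit 187) (.e (nat_lit 450584) (nat_lit 9) (.e (nat_lit 565252) (nat_lit 0) (.e (nat_lit 1592) (nat_lit 111) .nil))))) (.g (nat_lit 0) (.e (nat_lit 437238) (nat_lit 0) .nil) .nil))) 
(.lf (nat_lit 607796) (.g (nat_lit 3474) (.e (nat_lit 696344) (nat_lit 8) (.e (nat_lit 172064) (nat_lit 2) (.e (nat_lit 196666) (nat_lit 13) (.e (nat_lit 65610) (nat_lit 10) (.e (nat_lit 344129) (nat_lit 26) (.e (nat_lit 557067) (nat_lit 9) (.e (nat_lit 2464) (nat_lit 157) (.e (nat_lit 3467) (nat_lit 217) .nil)))))))) (.g (nat_lit 1) (.e (nat_lit 439493) (nat_lit 0) .nil) .nil)))) 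
(.nd (nat_lit 9) 
(.lf (nat_lit 607540) (.g (nat_lit 2375) (.e (nat_lit 696329) (nat_lit 5) (.e (nat_lit 2988) (nat_lit 186) (.e (nat_lit 442390) (nat_lit 11) (.e (nat_lit 336231) (nat_lit 14) (.e (nat_lit 401448) (nat_lit 10) (.e (nat_lit 434287) (nat_lit 43) .nil)))))) (.g (nat_lit 1) (.e (nat_lit 438470) (nat_lit 0) .nil) .nil))) 
(.lf (nat_lit 608052) (.g (nat_lit 3317) (.e (nat_lit 696344) (nat_lit 8) (.e (nat_lit 172116) (nat_lit 10) (.e (nat_lit 434289) (nat_lit 43) (.e (nat_lit 696344) (nat_lit 8) (.e (nat_lit 172106) (nat_lit 10) (.e (nat_lit 434288) (nat_lit 43) .nil)))))) (.g (nat_lit 1) (.e (nat_lit 439907) (nat_lit 0) .nil) .nil))))) (.nd (nat_lit 8) (.nd (nat_lit 9) 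
(.lf (nat_lit 607412) (.g (nat_lit 4016) (.e (nat_lit 688139) (nat_lit 5) (.e (nat_lit 2887) (nat_lit 184) (.e (nat_lit 426140) (nat_lit 3) (.e (nat_lit 204855) (nat_lit 26) (.e (nat_lit 336176) (nat_lit 10) (.e (nat_lit 344133) (nat_lit 26) (.e (nat_lit 557091) (nat_lit 12) (.e (nat_lit 164016) (nat_lit 44) .nil)))))))) (.g (nat_lit 1) (.e (nat_lit 437847) (nat_lit 0) .nil) .nil))) 
(.lf (nat_lit 607924) (.g (nat_lit 4337) (.e (nat_lit 696344) (nat_lit 8) (.e (nat_lit 172082) (nat_lit 7) (.e (nat_lit 409646) (nat_lit 18) (.e (nat_lit 303140) (nat_lit 10) (.e (nat_lit 434275) (nat_lit 39) (.e (nat_lit 663574) (nat_lit 9) (.e (nat_lit 2472) (nat_lit 157) (.e (nat_lit 3469) (nat_lit 217) .nil)))))))) (.g (nat_lit 1) (.e (nat_lit 439696) (nat_lit 0) .nil) .nil)))) 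
(.nd (nat_lit 9) 
(.lf (nat_lit 607668) (.g (nat_lit 2717) (.e (nat_lit 696343) (nat_lit 8) (.e (nat_lit 172082) (nat_lit 7) (.e (nat_lit 409646) (nat_lit 18) (.e (nat_lit 303140) (nat_lit 10) (.e (nat_lit 434275) (nat_lit 39) (.e (nat_lit 663579) (nat_lit 9) (.e (nat_lit 2422) (nat_lit 157) (.e (nat_lit 3471) (nat_lit 217) .nil)))))))) (.g (nat_lit 1) (.e (nat_lit 439204) (nat_lit 0) .nil) .nil))) 
(.lf (nat_lit 608180) (.g (nat_lit 3885) (.e (nat_lit 704589) (nat_lit 3) (.e (nat_lit 163975) (nat_lit 30) (.e (nat_lit 573492) (nat_lit 15) (.e (nat_lit 81951) (nat_lit 22) (.e (nat_lit 90170) (nat_lit 13) (.e (nat_lit 172138) (nat_lit 15) (.e (nat_lit 2059) (nat_lit 142) .nil))))))) (.g (nat_lit 1) (.e (nat_lit 440419) (nat_lit 0) .nil) .nil)))))) 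
(.nd (nat_lit 7) (.nd (nat_lit 8) (.nd (nat_lit 9) 
(.lf (nat_lit 607348) (.g (nat_lit 1337) (.e (nat_lit 819221) (nat_lit 6) (.e (nat_lit 188435) (nat_lit 20) (.e (nat_lit 3289) (nat_lit 201) (.e (nat_lit 565269) (nat_lit 6) (.e (nat_lit 81939) (nat_lit 20) (.e (nat_lit 2391) (nat_lit 156) .nil)))))) (.g (nat_lit 1) (.e (nat_lit 437626) (nat_lit 0) .nil) .nil))) 
(.lf (nat_lit 607860) (.g (nat_lit 2574) (.e (nat_lit 696344) (nat_lit 8) (.e (nat_lit 172079) (nat_lit 7) (.e (nat_lit 409645) (nat_lit 18) (.e (nat_lit 303133) (nat_lit 9) (.e (nat_lit 426042) (nat_lit 0) (.e (nat_lit 2448) (nat_lit 157) (.e (nat_lit 5966) (nat_lit 324) (.e (nat_lit 163844) (nat_lit 0) (.e (nat_lit 3471) (nat_lit 217) .nil))))))))) (.g (nat_lit 1) (.e (nat_lit 439569) (nat_lit 0) .nil) .nil)))) 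
(.nd (nat_lit 9) 
(.lf (nat_lit 607604) (.g (nat_lit 4983) (.e (nat_lit 696343) (nat_lit 8) (.e (nat_lit 172067) (nat_lit 3) (.e (nat_lit 204868) (nat_lit 29) (.e (nat_lit 360475) (nat_lit 8) (.e (nat_lit 557089) (nat_lit 12) (.e (nat_lit 164020) (nat_lit 45) .nil)))))) (.g (nat_lit 1) (.e (nat_lit 439067) (nat_lit 0) .nil) .nil))) 
(.lf (nat_lit 608116) (.g (nat_lit 3828) (.e (nat_lit 704589) (nat_lit 3) (.e (nat_lit 163975) (nat_lit 30) (.e (nat_lit 573481) (nat_lit 13) (.e (nat_lit 65619) (nat_lit 10) (.e (nat_lit 344117) (nat_lit 21) (.e (nat_lit 516144) (nat_lit 9) (.e (nat_lit 426375) (nat_lit 15) (.e (nat_lit 2057) (nat_lit 142) .nil)))))))) (.g (nat_lit 1) (.e (nat_lit 440346) (nat_lit 0) .nil) .nil))))) 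
(.nd (nat_lit 8) (.nd (nat_lit 9) 
(.lf (nat_lit 607476) (.g (nat_lit 2927) (.e (nat_lit 688166) (nat_lit 15) (.e (nat_lit 57479) (nat_lit 28) (.e (nat_lit 557105) (nat_lit 14) (.e (nat_lit 180252) (nat_lit 10) (.e (nat_lit 573482) (nat_lit 13) (.e (nat_lit 65571) (nat_lit 3) (.e (nat_lit 98322) (nat_lit 17) (.e (nat_lit 3454) (nat_lit 216) .nil)))))))) (.g (nat_lit 1) (.e (nat_lit 438179) (nat_lit 0) .nil) .nil))) 
(.lf (nat_lit 607988) (.g (nat_lit 1886) (.e (nat_lit 696344) (nat_lit 8) (.e (nat_lit 172106) (nat_lit 10) (.e (nat_lit 434289) (nat_lit 43) (.e (nat_lit 696346) (nat_lit 10) (.e (nat_lit 188439) (nat_lit 20) (.e (nat_lit 3467) (nat_lit 217) .nil)))))) (.g (nat_lit 1) (.e (nat_lit 439791) (nat_lit 0) .nil) .nil)))) (.nd (nat_lit 9) 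
(.lf (nat_lit 607732) (.g (nat_lit 2735) (.e (nat_lit 696343) (nat_lit 8) (.e (nat_lit 172113) (nat_lit 10) (.e (nat_lit 434208) (nat_lit 18) (.e (nat_lit 6254) (nat_lit 337) (.e (nat_lit 2725) (nat_lit 172) (.e (nat_lit 237605) (nat_lit 9) (.e (nat_lit 425986) (nat_lit 0) (.e (nat_lit 3471) (nat_lit 217) .nil)))))))) (.g (nat_lit 1) (.e (nat_lit 439365) (nat_lit 0) .nil) .nil))) 
(.lf (nat_lit 608244) (.g (nat_lit 3599) (.e (nat_lit 704589) (nat_lit 3) (.e (nat_lit 163975) (nat_lit 30) (.e (nat_lit 573492) (nat_lit 15) (.e (nat_lit 81956) (nat_lit 23) (.e (nat_lit 98362) (nat_lit 26) .nil))))) (.g (nat_lit 0) (.e (nat_lit 440580) (nat_lit 0) .nil) .nil))))))))) (.nd (nat_lit 4) (.nd (nat_lit 5) (.nd (nat_lit 6) (.nd (nat_lit 7) (.nd (nat_lit 8) (.nd (nat_lit 9) 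
(.lf (nat_lit 607244) (.g (nat_lit 3227) (.e (nat_lit 802848) (nat_lit 28) (.e (nat_lit 253991) (nat_lit 11) (.e (nat_lit 16473) (nat_lit 14) (.e (nat_lit 491560) (nat_lit 10) (.e (nat_lit 344160) (nat_lit 37) .nil))))) (.g (nat_lit 0) (.e (nat_lit 437076) (nat_lit 0) .nil) .nil))) 
(.lf (nat_lit 607756) (.g (nat_lit 2248) (.e (nat_lit 696343) (nat_lit 8) (.e (nat_lit 172115) (nat_lit 10) (.e (nat_lit 434289) (nat_lit 43) (.e (nat_lit 696346) (nat_lit 10) (.e (nat_lit 188434) (nat_lit 20) (.e (nat_lit 3467) (nat_lit 217) .nil)))))) (.g (nat_lit 1) (.e (nat_lit 439422) (nat_lit 0) .nil) .nil)))) (.nd (nat_lit 9) 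
(.lf (nat_lit 607500) (.g (nat_lit 2388) (.e (nat_lit 688182) (nat_lit 17) (.e (nat_lit 73755) (nat_lit 8) (.e (nat_lit 557067) (nat_lit 9) (.e (nat_lit 3096) (nat_lit 192) (.e (nat_lit 491571) (nat_lit 13) (.e (nat_lit 393232) (nat_lit 17) (.e (nat_lit 7936) (nat_lit 216) .nil))))))) (.g (nat_lit 1) (.e (nat_lit 438248) (nat_lit 0) .nil) .nil))) 
(.lf (nat_lit 608012) (.g (nat_lit 2760) (.e (nat_lit 696344) (nat_lit 8) (.e (nat_lit 172113) (nat_lit 10) (.e (nat_lit 434289) (nat_lit 43) (.e (nat_lit 696346) (nat_lit 10) (.e (nat_lit 188434) (nat_lit 20) (.e (nat_lit 3467) (nat_lit 217) .nil)))))) (.g (nat_lit 1) (.e (nat_lit 439854) (nat_lit 0) .nil) .nil))))) (.nd (nat_lit 8) (.nd (nat_lit 9) 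
(.lf (nat_lit 607372) (.g (nat_lit 1663) (.e (nat_lit 819237) (nat_lit 11) (.e (nat_lit 16435) (nat_lit 9) (.e (nat_lit 426482) (nat_lit 27) (.e (nat_lit 336060) (nat_lit 7) .nil)))) (.g (nat_lit 0) (.e (nat_lit 437673) (nat_lit 0) .nil) .nil))) 
(.lf (nat_lit 607884) (.g (nat_lit 3139) (.e (nat_lit 696344) (nat_lit 8) (.e (nat_lit 172079) (nat_lit 7) (.e (nat_lit 409649) (nat_lit 18) (.e (nat_lit 303140) (nat_lit 10) (.e (nat_lit 434275) (nat_lit 39) (.e (nat_lit 663579) (nat_lit 9) (.e (nat_lit 2427) (nat_lit 157) (.e (nat_lit 3471) (nat_lit 217) .nil)))))))) (.g (nat_lit 1) (.e (nat_lit 439632) (nat_lit 0) .nil) .nil)))) 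
(.nd (nat_lit 9) 
(.lf (nat_lit 607628) (.g (nat_lit 1064) (.e (nat_lit 696343) (nat_lit 8) (.e (nat_lit 172079) (nat_lit 7) (.e (nat_lit 409645) (nat_lit 18) (.e (nat_lit 303143) (nat_lit 12) .nil)))) (.g (nat_lit 0) (.e (nat_lit 439108) (nat_lit 0) .nil) .nil))) 
(.lf (nat_lit 608140) (.g (nat_lit 2640) (.e (nat_lit 704589) (nat_lit 3) (.e (nat_lit 163975) (nat_lit 30) (.e (nat_lit 573491) (nat_lit 15) (.e (nat_lit 81951) (nat_lit 22) (.e (nat_lit 90167) (nat_lit 13) (.e (nat_lit 172138) (nat_lit 15) (.e (nat_lit 2059) (nat_lit 142) .nil))))))) (.g (nat_lit 1) (.e (nat_lit 440371) (nat_lit 0) .nil) .nil)))))) 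
(.nd (nat_lit 7) (.nd (nat_lit 8) (.nd (nat_lit 9) 
(.lf (nat_lit 607308) (.g (nat_lit 2159) (.e (nat_lit 819204) (nat_lit 0) (.e (nat_lit 3022) (nat_lit 187) (.e (nat_lit 450584) (nat_lit 9) (.e (nat_lit 565252) (nat_lit 0) (.e (nat_lit 1595) (nat_lit 111) (.e (nat_lit 360493) (nat_lit 27) .nil)))))) (.g (nat_lit 1) (.e (nat_lit 437450) (nat_lit 0) .nil) .nil))) 
(.lf (nat_lit 607820) (.g (nat_lit 5112) (.e (nat_lit 696344) (nat_lit 8) (.e (nat_lit 172067) (nat_lit 3) (.e (nat_lit 204868) (nat_lit 29) (.e (nat_lit 360472) (nat_lit 8) (.e (nat_lit 557090) (nat_lit 12) (.e (nat_lit 164020) (nat_lit 45) .nil)))))) (.g (nat_lit 1) (.e (nat_lit 439520) (nat_lit 0) .nil) .nil)))) (.nd (nat_lit 9) 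
(.lf (nat_lit 607564) (.g (nat_lit 3893) (.e (nat_lit 696343) (nat_lit 8) (.e (nat_lit 172062) (nat_lit 2) (.e (nat_lit 196666) (nat_lit 13) (.e (nat_lit 65617) (nat_lit 10) (.e (nat_lit 344132) (nat_lit 26) (.e (nat_lit 557093) (nat_lit 12) (.e (nat_lit 164018) (nat_lit 45) .nil))))))) (.g (nat_lit 1) (.e (nat_lit 439022) (nat_lit 0) .nil) .nil))) 
(.lf (nat_lit 608076) (.g (nat_lit 2086) (.e (nat_lit 696346) (nat_lit 10) (.e (nat_lit 188441) (nat_lit 20) (.e (nat_lit 3469) (nat_lit 217) (.e (nat_lit 696344) (nat_lit 8) (.e (nat_lit 172113) (nat_lit 10) (.e (nat_lit 434287) (nat_lit 43) .nil)))))) (.g (nat_lit 1) (.e (nat_lit 440052) (nat_lit 0) .nil) .nil))))) (.nd (nat_lit 8) (.nd (nat_lit 9) 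
(.lf (nat_lit 607436) (.g (nat_lit 2732) (.e (nat_lit 688139) (nat_lit 5) (.e (nat_lit 3062) (nat_lit 190) (.e (nat_lit 475179) (nat_lit 24) (.e (nat_lit 516163) (nat_lit 11) (.e (nat_lit 442391) (nat_lit 19) .nil))))) (.g (nat_lit 0) (.e (nat_lit 437928) (nat_lit 0) .nil) .nil))) 
(.lf (nat_lit 607948) (.g (nat_lit 2319) (.e (nat_lit 696344) (nat_lit 8) (.e (nat_lit 172082) (nat_lit 7) (.e (nat_lit 409649) (nat_lit 18) (.e (nat_lit 303140) (nat_lit 10) (.e (nat_lit 434275) (nat_lit 39) (.e (nat_lit 663580) (nat_lit 9) (.e (nat_lit 2515) (nat_lit 157) (.e (nat_lit 3464) (nat_lit 217) .nil)))))))) (.g (nat_lit 1) (.e (nat_lit 439730) (nat_lit 0) .nil) .nil)))) 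
(.nd (nat_lit 9) 
(.lf (nat_lit 607692) (.g (nat_lit 1510) (.e (nat_lit 696343) (nat_lit 8) (.e (nat_lit 172106) (nat_lit 10) (.e (nat_lit 434209) (nat_lit 18) (.e (nat_lit 6272) (nat_lit 337) .nil)))) (.g (nat_lit 0) (.e (nat_lit 439271) (nat_lit 0) .nil) .nil))) 
(.lf (nat_lit 608204) (.g (nat_lit 2285) (.e (nat_lit 704589) (nat_lit 3) (.e (nat_lit 163975) (nat_lit 30) (.e (nat_lit 573492) (nat_lit 15) (.e (nat_lit 81956) (nat_lit 23) (.e (nat_lit 98356) (nat_lit 26) .nil))))) (.g (nat_lit 0) (.e (nat_lit 440540) (nat_lit 0) .nil) .nil))))))) (.nd (nat_lit 6) (.nd (nat_lit 7) (.nd (nat_lit 8) (.nd (nat_lit 9) 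
(.lf (nat_lit 607276) (.g (nat_lit 1611) (.e (nat_lit 811035) (nat_lit 11) (.e (nat_lit 883) (nat_lit 75) (.e (nat_lit 778466) (nat_lit 11) (.e (nat_lit 24617) (nat_lit 7) (.e (nat_lit 319531) (nat_lit 16) .nil))))) (.g (nat_lit 0) (.e (nat_lit 437187) (nat_lit 0) .nil) .nil))) 
(.lf (nat_lit 607788) (.g (nat_lit 2921) (.e (nat_lit 696344) (nat_lit 8) (.e (nat_lit 172062) (nat_lit 2) (.e (nat_lit 196666) (nat_lit 13) (.e (nat_lit 65617) (nat_lit 10) (.e (nat_lit 344130) (nat_lit 26) (.e (nat_lit 557089) (nat_lit 12) (.e (nat_lit 164019) (nat_lit 45) .nil))))))) (.g (nat_lit 1) (.e (nat_lit 439485) (nat_lit 0) .nil) .nil)))) (.nd (nat_lit 9) 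
(.lf (nat_lit 607532) (.g (nat_lit 3611) (.e (nat_lit 696329) (nat_lit 5) (.e (nat_lit 2884) (nat_lit 184) (.e (nat_lit 426140) (nat_lit 3) (.e (nat_lit 204868) (nat_lit 29) (.e (nat_lit 360473) (nat_lit 8) (.e (nat_lit 557091) (nat_lit 12) (.e (nat_lit 164020) (nat_lit 45) .nil))))))) (.g (nat_lit 1) (.e (nat_lit 438451) (nat_lit 0) .nil) .nil))) 
(.lf (nat_lit 608044) (.g (nat_lit 2402) (.e (nat_lit 696344) (nat_lit 8) (.e (nat_lit 172115) (nat_lit 10) (.e (nat_lit 434289) (nat_lit 43) (.e (nat_lit 696343) (nat_lit 8) (.e (nat_lit 172113) (nat_lit 10) (.e (nat_lit 434287) (nat_lit 43) .nil)))))) (.g (nat_lit 1) (.e (nat_lit 439899) (nat_lit 0) .nil) .nil))))) (.nd (nat_lit 8) (.nd (nat_lit 9) 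
(.lf (nat_lit 607404) (.g (nat_lit 2203) (.e (nat_lit 688138) (nat_lit 5) (.e (nat_lit 3062) (nat_lit 190) (.e (nat_lit 475179) (nat_lit 24) (.e (nat_lit 516174) (nat_lit 14) (.e (nat_lit 466947) (nat_lit 0) .nil))))) (.g (nat_lit 0) (.e (nat_lit 437826) (nat_lit 0) .nil) .nil))) 
(.lf (nat_lit 607916) (.g (nat_lit 2961) (.e (nat_lit 696344) (nat_lit 8) (.e (nat_lit 172082) (nat_lit 7) (.e (nat_lit 409646) (nat_lit 18) (.e (nat_lit 303140) (nat_lit 10) (.e (nat_lit 434202) (nat_lit 18) (.e (nat_lit 5964) (nat_lit 324) (.e (nat_lit 163843) (nat_lit 0) (.e (nat_lit 3471) (nat_lit 217) .nil)))))))) (.g (nat_lit 1) (.e (nat_lit 439688) (nat_lit 0) .nil) .nil)))) 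
(.nd (nat_lit 9) 
(.lf (nat_lit 607660) (.g (nat_lit 2879) (.e (nat_lit 696343) (nat_lit 8) (.e (nat_lit 172082) (nat_lit 7) (.e (nat_lit 409646) (nat_lit 18) (.e (nat_lit 303140) (nat_lit 10) (.e (nat_lit 434202) (nat_lit 18) (.e (nat_lit 5965) (nat_lit 324) (.e (nat_lit 163844) (nat_lit 0) (.e (nat_lit 3471) (nat_lit 217) .nil)))))))) (.g (nat_lit 1) (.e (nat_lit 439196) (nat_lit 0) .nil) .nil))) 
(.lf (nat_lit 608172) (.g (nat_lit 2889) (.e (nat_lit 704589) (nat_lit 3) (.e (nat_lit 163975) (nat_lit 30) (.e (nat_lit 573491) (nat_lit 15) (.e (nat_lit 81954) (nat_lit 23) (.e (nat_lit 98356) (nat_lit 26) (.e (nat_lit 426399) (nat_lit 15) (.e (nat_lit 2056) (nat_lit 142) .nil))))))) (.g (nat_lit 1) (.e (nat_lit 440404) (nat_lit 0) .nil) .nil)))))) 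
(.nd (nat_lit 7) (.nd (nat_lit 8) (.nd (nat_lit 9) 
(.lf (nat_lit 607340) (.g (nat_lit 507) (.e (nat_lit 819219) (nat_lit 4) (.e (nat_lit 172115) (nat_lit 10) (.e (nat_lit 434228) (nat_lit 22) .nil))) (.g (nat_lit 0) (.e (nat_lit 437602) (nat_lit 0) .nil) .nil))) 
(.lf (nat_lit 607852) (.g (nat_lit 2821) (.e (nat_lit 696344) (nat_lit 8) (.e (nat_lit 172078) (nat_lit 7) (.e (nat_lit 409649) (nat_lit 18) (.e (nat_lit 303140) (nat_lit 10) (.e (nat_lit 434275) (nat_lit 39) (.e (nat_lit 663580) (nat_lit 9) (.e (nat_lit 2416) (nat_lit 157) (.e (nat_lit 3468) (nat_lit 217) .nil)))))))) (.g (nat_lit 1) (.e (nat_lit 439553) (nat_lit 0) .nil) .nil)))) 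
(.nd (nat_lit 9) 
(.lf (nat_lit 607596) (.g (nat_lit 3286) (.e (nat_lit 696343) (nat_lit 8) (.e (nat_lit 172066) (nat_lit 3) (.e (nat_lit 204869) (nat_lit 29) (.e (nat_lit 360475) (nat_lit 8) (.e (nat_lit 557090) (nat_lit 12) (.e (nat_lit 164020) (nat_lit 45) .nil)))))) (.g (nat_lit 1) (.e (nat_lit 439056) (nat_lit 0) .nil) .nil))) 
(.lf (nat_lit 608108) (.g (nat_lit 2704) (.e (nat_lit 704589) (nat_lit 3) (.e (nat_lit 163975) (nat_lit 30) (.e (nat_lit 573481) (nat_lit 13) (.e (nat_lit 65604) (nat_lit 9) (.e (nat_lit 336028) (nat_lit 3) (.e (nat_lit 98359) (nat_lit 26) (.e (nat_lit 426410) (nat_lit 15) (.e (nat_lit 2057) (nat_lit 142) .nil)))))))) (.g (nat_lit 1) (.e (nat_lit 440337) (nat_lit 0) .nil) .nil))))) 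
(.nd (nat_lit 8) (.nd (nat_lit 9) 
(.lf (nat_lit 607468) (.g (nat_lit 2618) (.e (nat_lit 688166) (nat_lit 15) (.e (nat_lit 57478) (nat_lit 28) (.e (nat_lit 557105) (nat_lit 14) (.e (nat_lit 180252) (nat_lit 10) (.e (nat_lit 573488) (nat_lit 14) (.e (nat_lit 73747) (nat_lit 3) (.e (nat_lit 516100) (nat_lit 0) (.e (nat_lit 7936) (nat_lit 216) .nil)))))))) (.g (nat_lit 1) (.e (nat_lit 438171) (nat_lit 0) .nil) .nil))) 
(.lf (nat_lit 607980) (.g (nat_lit 417) (.e (nat_lit 696344) (nat_lit 8) (.e (nat_lit 172106) (nat_lit 10) (.e (nat_lit 434287) (nat_lit 43) .nil))) (.g (nat_lit 0) (.e (nat_lit 439781) (nat_lit 0) .nil) .nil)))) (.nd (nat_lit 9) 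
(.lf (nat_lit 607724) (.g (nat_lit 414) (.e (nat_lit 696343) (nat_lit 8) (.e (nat_lit 172113) (nat_lit 10) (.e (nat_lit 434207) (nat_lit 18) .nil))) (.g (nat_lit 0) (.e (nat_lit 439337) (nat_lit 0) .nil) .nil))) 
(.lf (nat_lit 608236) (.g (nat_lit 2501) (.e (nat_lit 704589) (nat_lit 3) (.e (nat_lit 163975) (nat_lit 30) (.e (nat_lit 573492) (nat_lit 15) (.e (nat_lit 81956) (nat_lit 23) (.e (nat_lit 98357) (nat_lit 26) .nil))))) (.g (nat_lit 0) (.e (nat_lit 440572) (nat_lit 0) .nil) .nil)))))))) (.nd (nat_lit 5) (.nd (nat_lit 6) (.nd (nat_lit 7) (.nd (nat_lit 8) (.nd (nat_lit 9) 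
(.lf (nat_lit 607260) (.g (nat_lit 667) (.e (nat_lit 811012) (nat_lit 0) (.e (nat_lit 5780) (nat_lit 317) (.e (nat_lit 180241) (nat_lit 4) (.e (nat_lit 524340) (nat_lit 28) (.e (nat_lit 352286) (nat_lit 20) (.e (nat_lit 2384) (nat_lit 155) .nil)))))) (.g (nat_lit 1) (.e (nat_lit 437106) (nat_lit 0) .nil) .nil))) 
(.lf (nat_lit 607772) (.g (nat_lit 2667) (.e (nat_lit 696343) (nat_lit 8) (.e (nat_lit 172123) (nat_lit 13) (.e (nat_lit 483412) (nat_lit 27) (.e (nat_lit 401437) (nat_lit 9) (.e (nat_lit 425986) (nat_lit 0) .nil))))) (.g (nat_lit 0) (.e (nat_lit 439463) (nat_lit 0) .nil) .nil)))) (.nd (nat_lit 9) 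
(.lf (nat_lit 607516) (.g (nat_lit 3797) (.e (nat_lit 696328) (nat_lit 5) (.e (nat_lit 2884) (nat_lit 184) (.e (nat_lit 426140) (nat_lit 3) (.e (nat_lit 204869) (nat_lit 29) (.e (nat_lit 360475) (nat_lit 8) (.e (nat_lit 557091) (nat_lit 12) (.e (nat_lit 164018) (nat_lit 45) .nil))))))) (.g (nat_lit 1) (.e (nat_lit 438374) (nat_lit 0) .nil) .nil))) 
(.lf (nat_lit 608028) (.g (nat_lit 1707) (.e (nat_lit 696344) (nat_lit 8) (.e (nat_lit 172115) (nat_lit 10) (.e (nat_lit 434209) (nat_lit 18) (.e (nat_lit 6273) (nat_lit 337) (.e (nat_lit 2645) (nat_lit 166) (.e (nat_lit 188435) (nat_lit 20) (.e (nat_lit 3467) (nat_lit 217) .nil))))))) (.g (nat_lit 1) (.e (nat_lit 439877) (nat_lit 0) .nil) .nil))))) (.nd (nat_lit 8) (.nd (nat_lit 9) 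
(.lf (nat_lit 607388) (.g (nat_lit 4922) (.e (nat_lit 688138) (nat_lit 5) (.e (nat_lit 2877) (nat_lit 184) (.e (nat_lit 426125) (nat_lit 2) (.e (nat_lit 196666) (nat_lit 13) (.e (nat_lit 65610) (nat_lit 10) (.e (nat_lit 344129) (nat_lit 26) (.e (nat_lit 557090) (nat_lit 12) (.e (nat_lit 164016) (nat_lit 44) .nil)))))))) (.g (nat_lit 1) (.e (nat_lit 437748) (nat_lit 0) .nil) .nil))) 
(.lf (nat_lit 607900) (.g (nat_lit 2435) (.e (nat_lit 696344) (nat_lit 8) (.e (nat_lit 172082) (nat_lit 7) (.e (nat_lit 409646) (nat_lit 18) (.e (nat_lit 303133) (nat_lit 9) (.e (nat_lit 426042) (nat_lit 0) (.e (nat_lit 2428) (nat_lit 157) (.e (nat_lit 5966) (nat_lit 324) (.e (nat_lit 163844) (nat_lit 0) (.e (nat_lit 3471) (nat_lit 217) .nil))))))))) (.g (nat_lit 1) (.e (nat_lit 439651) (nat_lit 0) .nil) .nil)))) 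
(.nd (nat_lit 9) 
(.lf (nat_lit 607644) (.g (nat_lit 2591) (.e (nat_lit 696343) (nat_lit 8) (.e (nat_lit 172082) (nat_lit 7) (.e (nat_lit 409646) (nat_lit 18) (.e (nat_lit 303133) (nat_lit 9) (.e (nat_lit 426042) (nat_lit 0) (.e (nat_lit 2446) (nat_lit 157) (.e (nat_lit 5966) (nat_lit 324) (.e (nat_lit 163844) (nat_lit 0) (.e (nat_lit 3471) (nat_lit 217) .nil))))))))) (.g (nat_lit 1) (.e (nat_lit 439152) (nat_lit 0) .nil) .nil))) 
(.lf (nat_lit 608156) (.g (nat_lit 2824) (.e (nat_lit 704589) (nat_lit 3) (.e (nat_lit 163975) (nat_lit 30) (.e (nat_lit 573491) (nat_lit 15) (.e (nat_lit 81954) (nat_lit 23) (.e (nat_lit 98356) (nat_lit 26) (.e (nat_lit 426361) (nat_lit 15) (.e (nat_lit 7936) (nat_lit 142) .nil))))))) (.g (nat_lit 1) (.e (nat_lit 440388) (nat_lit 0) .nil) .nil)))))) 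
(.nd (nat_lit 7) (.nd (nat_lit 8) (.nd (nat_lit 9) 
(.lf (nat_lit 607324) (.g (nat_lit 1965) (.e (nat_lit 819219) (nat_lit 4) (.e (nat_lit 172079) (nat_lit 7) (.e (nat_lit 409617) (nat_lit 10) (.e (nat_lit 632) (nat_lit 50) (.e (nat_lit 573485) (nat_lit 13) .nil))))) (.g (nat_lit 0) (.e (nat_lit 437535) (nat_lit 0) .nil) .nil))) 
(.lf (nat_lit 607836) (.g (nat_lit 3787) (.e (nat_lit 696344) (nat_lit 8) (.e (nat_lit 172067) (nat_lit 3) (.e (nat_lit 204869) (nat_lit 29) (.e (nat_lit 360475) (nat_lit 8) (.e (nat_lit 557089) (nat_lit 12) (.e (nat_lit 164019) (nat_lit 45) .nil)))))) (.g (nat_lit 1) (.e (nat_lit 439536) (nat_lit 0) .nil) .nil)))) (.nd (nat_lit 9) 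
(.lf (nat_lit 607580) (.g (nat_lit 4122) (.e (nat_lit 696343) (nat_lit 8) (.e (nat_lit 172065) (nat_lit 3) (.e (nat_lit 204855) (nat_lit 26) (.e (nat_lit 336176) (nat_lit 10) (.e (nat_lit 344133) (nat_lit 26) (.e (nat_lit 557091) (nat_lit 12) (.e (nat_lit 164018) (nat_lit 45) .nil))))))) (.g (nat_lit 1) (.e (nat_lit 439040) (nat_lit 0) .nil) .nil))) 
(.lf (nat_lit 608092) (.g (nat_lit 1247) (.e (nat_lit 696348) (nat_lit 12) (.e (nat_lit 237601) (nat_lit 9) (.e (nat_lit 426555) (nat_lit 32) (.e (nat_lit 376857) (nat_lit 21) (.e (nat_lit 57854) (nat_lit 252) .nil))))) (.g (nat_lit 0) (.e (nat_lit 440156) (nat_lit 0) .nil) .nil))))) (.nd (nat_lit 8) (.nd (nat_lit 9) 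
(.lf (nat_lit 607452) (.g (nat_lit 1362) (.e (nat_lit 688139) (nat_lit 5) (.e (nat_lit 3085) (nat_lit 191) (.e (nat_lit 483337) (nat_lit 9) (.e (nat_lit 426297) (nat_lit 11) .nil)))) (.g (nat_lit 0) (.e (nat_lit 437944) (nat_lit 0) .nil) .nil))) 
(.lf (nat_lit 607964) (.g (nat_lit 1469) (.e (nat_lit 696344) (nat_lit 8) (.e (nat_lit 172106) (nat_lit 10) (.e (nat_lit 434209) (nat_lit 18) (.e (nat_lit 6277) (nat_lit 337) .nil)))) (.g (nat_lit 0) (.e (nat_lit 439761) (nat_lit 0) .nil) .nil)))) (.nd (nat_lit 9) 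
(.lf (nat_lit 607708) (.g (nat_lit 359) (.e (nat_lit 696343) (nat_lit 8) (.e (nat_lit 172106) (nat_lit 10) (.e (nat_lit 434286) (nat_lit 42) .nil))) (.g (nat_lit 0) (.e (nat_lit 439298) (nat_lit 0) .nil) .nil))) 
(.lf (nat_lit 608220) (.g (nat_lit 3739) (.e (nat_lit 704589) (nat_lit 3) (.e (nat_lit 163975) (nat_lit 30) (.e (nat_lit 573492) (nat_lit 15) (.e (nat_lit 81956) (nat_lit 23) (.e (nat_lit 98356) (nat_lit 26) (.e (nat_lit 426364) (nat_lit 15) (.e (nat_lit 2056) (nat_lit 142) .nil))))))) (.g (nat_lit 1) (.e (nat_lit 440556) (nat_lit 0) .nil) .nil))))))) 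
(.nd (nat_lit 6) (.nd (nat_lit 7) (.nd (nat_lit 8) (.nd (nat_lit 9) 
(.lf (nat_lit 607292) (.g (nat_lit 401) (.e (nat_lit 819203) (nat_lit 0) (.e (nat_lit 3016) (nat_lit 187) (.e (nat_lit 458496) (nat_lit 4) .nil))) (.g (nat_lit 0) (.e (nat_lit 437302) (nat_lit 0) .nil) .nil))) 
(.lf (nat_lit 607804) (.g (nat_lit 3626) (.e (nat_lit 696344) (nat_lit 8) (.e (nat_lit 172064) (nat_lit 2) (.e (nat_lit 196666) (nat_lit 13) (.e (nat_lit 65617) (nat_lit 10) (.e (nat_lit 344133) (nat_lit 26) (.e (nat_lit 557089) (nat_lit 12) (.e (nat_lit 164019) (nat_lit 45) .nil))))))) (.g (nat_lit 1) (.e (nat_lit 439501) (nat_lit 0) .nil) .nil)))) (.nd (nat_lit 9) 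
(.lf (nat_lit 607548) (.g (nat_lit 2982) (.e (nat_lit 696330) (nat_lit 5) (.e (nat_lit 3098) (nat_lit 192) (.e (nat_lit 491537) (nat_lit 2) (.e (nat_lit 90165) (nat_lit 12) (.e (nat_lit 171776) (nat_lit 192) .nil))))) (.g (nat_lit 0) (.e (nat_lit 438746) (nat_lit 0) .nil) .nil))) 
(.lf (nat_lit 608060) (.g (nat_lit 495) (.e (nat_lit 696344) (nat_lit 8) (.e (nat_lit 172125) (nat_lit 14) (.e (nat_lit 491566) (nat_lit 12) .nil))) (.g (nat_lit 0) (.e (nat_lit 439929) (nat_lit 0) .nil) .nil))))) (.nd (nat_lit 8) (.nd (nat_lit 9) 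
(.lf (nat_lit 607420) (.g (nat_lit 454) (.e (nat_lit 688139) (nat_lit 5) (.e (nat_lit 2887) (nat_lit 184) (.e (nat_lit 426285) (nat_lit 10) .nil))) (.g (nat_lit 0) (.e (nat_lit 437858) (nat_lit 0) .nil) .nil))) 
(.lf (nat_lit 607932) (.g (nat_lit 2271) (.e (nat_lit 696344) (nat_lit 8) (.e (nat_lit 172082) (nat_lit 7) (.e (nat_lit 409646) (nat_lit 18) (.e (nat_lit 303143) (nat_lit 12) (.e (nat_lit 475197) (nat_lit 40) (.e (nat_lit 704853) (nat_lit 17) (.e (nat_lit 171776) (nat_lit 106) .nil))))))) (.g (nat_lit 1) (.e (nat_lit 439708) (nat_lit 0) .nil) .nil)))) (.nd (nat_lit 9) 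
(.lf (nat_lit 607676) (.g (nat_lit 2799) (.e (nat_lit 696343) (nat_lit 8) (.e (nat_lit 172082) (nat_lit 7) (.e (nat_lit 409649) (nat_lit 18) (.e (nat_lit 303137) (nat_lit 10) (.e (nat_lit 434275) (nat_lit 39) .nil))))) (.g (nat_lit 0) (.e (nat_lit 439238) (nat_lit 0) .nil) .nil))) 
(.lf (nat_lit 608188) (.g (nat_lit 3133) (.e (nat_lit 704589) (nat_lit 3) (.e (nat_lit 163975) (nat_lit 30) (.e (nat_lit 573492) (nat_lit 15) (.e (nat_lit 81953) (nat_lit 22) (.e (nat_lit 90169) (nat_lit 13) (.e (nat_lit 172133) (nat_lit 15) (.e (nat_lit 2058) (nat_lit 142) .nil))))))) (.g (nat_lit 1) (.e (nat_lit 440504) (nat_lit 0) .nil) .nil)))))) 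
(.nd (nat_lit 7) (.nd (nat_lit 8) (.nd (nat_lit 9) 
(.lf (nat_lit 607356) (.g (nat_lit 1955) (.e (nat_lit 819221) (nat_lit 6) (.e (nat_lit 188439) (nat_lit 20) (.e (nat_lit 3289) (nat_lit 201) (.e (nat_lit 565269) (nat_lit 6) (.e (nat_lit 81946) (nat_lit 20) (.e (nat_lit 2391) (nat_lit 156) .nil)))))) (.g (nat_lit 1) (.e (nat_lit 437634) (nat_lit 0) .nil) .nil))) 
(.lf (nat_lit 607868) (.g (nat_lit 2523) (.e (nat_lit 696344) (nat_lit 8) (.e (nat_lit 172079) (nat_lit 7) (.e (nat_lit 409645) (nat_lit 18) (.e (nat_lit 303139) (nat_lit 10) (.e (nat_lit 434275) (nat_lit 39) (.e (nat_lit 663585) (nat_lit 12) (.e (nat_lit 164018) (nat_lit 45) .nil))))))) (.g (nat_lit 1) (.e (nat_lit 439597) (nat_lit 0) .nil) .nil)))) (.nd (nat_lit 9) 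
(.lf (nat_lit 607612) (.g (nat_lit 3569) (.e (nat_lit 696343) (nat_lit 8) (.e (nat_lit 172067) (nat_lit 3) (.e (nat_lit 204869) (nat_lit 29) (.e (nat_lit 360475) (nat_lit 8) (.e (nat_lit 557068) (nat_lit 9) .nil))))) (.g (nat_lit 0) (.e (nat_lit 439075) (nat_lit 0) .nil) .nil))) 
(.lf (nat_lit 608124) (.g (nat_lit 5424) (.e (nat_lit 704589) (nat_lit 3) (.e (nat_lit 163975) (nat_lit 30) (.e (nat_lit 573481) (nat_lit 13) (.e (nat_lit 65619) (nat_lit 10) (.e (nat_lit 344117) (nat_lit 21) (.e (nat_lit 516145) (nat_lit 9) (.e (nat_lit 426375) (nat_lit 15) (.e (nat_lit 2059) (nat_lit 142) .nil)))))))) (.g (nat_lit 1) (.e (nat_lit 440354) (nat_lit 0) .nil) .nil))))) 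
(.nd (nat_lit 8) (.nd (nat_lit 9) 
(.lf (nat_lit 607484) (.g (nat_lit 3604) (.e (nat_lit 688171) (nat_lit 15) (.e (nat_lit 57465) (nat_lit 23) (.e (nat_lit 516129) (nat_lit 3) (.e (nat_lit 221210) (nat_lit 22) (.e (nat_lit 196668) (nat_lit 14) (.e (nat_lit 73746) (nat_lit 3) (.e (nat_lit 516100) (nat_lit 0) (.e (nat_lit 7936) (nat_lit 216) .nil)))))))) (.g (nat_lit 1) (.e (nat_lit 438192) (nat_lit 0) .nil) .nil))) 
(.lf (nat_lit 607996) (.g (nat_lit 798) (.e (nat_lit 696344) (nat_lit 8) (.e (nat_lit 172112) (nat_lit 10) (.e (nat_lit 434208) (nat_lit 18) (.e (nat_lit 6420) (nat_lit 341) .nil)))) (.g (nat_lit 0) (.e (nat_lit 439805) (nat_lit 0) .nil) .nil)))) (.nd (nat_lit 9) 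
(.lf (nat_lit 607740) (.g (nat_lit 414) (.e (nat_lit 696343) (nat_lit 8) (.e (nat_lit 172113) (nat_lit 10) (.e (nat_lit 434286) (nat_lit 42) .nil))) (.g (nat_lit 0) (.e (nat_lit 439380) (nat_lit 0) .nil) .nil))) 
(.lf (nat_lit 608252) (.g (nat_lit 4395) (.e (nat_lit 704589) (nat_lit 3) (.e (nat_lit 163975) (nat_lit 30) (.e (nat_lit 573492) (nat_lit 15) (.e (nat_lit 81956) (nat_lit 23) (.e (nat_lit 98384) (nat_lit 32) (.e (nat_lit 483072) (nat_lit 40) .nil)))))) (.g (nat_lit 1) (.e (nat_lit 440588) (nat_lit 0) .nil) .nil))))))))))) 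
(.nd (nat_lit 2) (.nd (nat_lit 3) (.nd (nat_lit 4) (.nd (nat_lit 5) (.nd (nat_lit 6) 
(.nd (nat_lit 7) (.nd (nat_lit 8) (.nd (nat_lit 9) 
(.lf (nat_lit 607234) (.g (nat_lit 2685) (.e (nat_lit 802832) (nat_lit 20) (.e (nat_lit 3613) (nat_lit 226) (.e (nat_lit 770072) (nat_lit 8) (.e (nat_lit 65586) (nat_lit 7) (.e (nat_lit 319531) (nat_lit 16) (.e (nat_lit 286759) (nat_lit 12) (.e (nat_lit 385110) (nat_lit 52) .nil))))))) (.g (nat_lit 1) (.e (nat_lit 437033) (nat_lit 0) .nil) .nil))) 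
(.lf (nat_lit 607746) (.g (nat_lit 2328) (.e (nat_lit 696343) (nat_lit 8) (.e (nat_lit 172113) (nat_lit 10) (.e (nat_lit 434289) (nat_lit 43) (.e (nat_lit 696346) (nat_lit 10) (.e (nat_lit 188438) (nat_lit 20) (.e (nat_lit 3467) (nat_lit 217) .nil)))))) (.g (nat_lit 1) (.e (nat_lit 439397) (nat_lit 0) .nil) .nil)))) (.nd (nat_lit 9) 
(.lf (nat_lit 607490) (.g (nat_lit 3118) (.e (nat_lit 688177) (nat_lit 16) (.e (nat_lit 65619) (nat_lit 10) (.e (nat_lit 344179) (nat_lit 44) (.e (nat_lit 778466) (nat_lit 11) (.e (nat_lit 24617) (nat_lit 7) (.e (nat_lit 319505) (nat_lit 10) (.e (nat_lit 720) (nat_lit 64) .nil))))))) (.g (nat_lit 1) (.e (nat_lit 438219) (nat_lit 0) .nil) .nil))) 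
(.lf (nat_lit 608002) (.g (nat_lit 1597) (.e (nat_lit 696344) (nat_lit 8) (.e (nat_lit 172112) (nat_lit 10) (.e (nat_lit 434289) (nat_lit 43) (.e (nat_lit 696346) (nat_lit 10) (.e (nat_lit 188439) (nat_lit 20) (.e (nat_lit 3467) (nat_lit 217) .nil)))))) (.g (nat_lit 1) (.e (nat_lit 439811) (nat_lit 0) .nil) .nil))))) (.nd (nat_lit 8) (.nd (nat_lit 9) 
(.lf (nat_lit 607362) (.g (nat_lit 1780) (.e (nat_lit 819221) (nat_lit 6) (.e (nat_lit 188440) (nat_lit 20) (.e (nat_lit 3289) (nat_lit 201) (.e (nat_lit 565269) (nat_lit 6) (.e (nat_lit 81946) (nat_lit 20) (.e (nat_lit 2390) (nat_lit 156) .nil)))))) (.g (nat_lit 1) (.e (nat_lit 437640) (nat_lit 0) .nil) .nil))) 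
(.lf (nat_lit 607874) (.g (nat_lit 2103) (.e (nat_lit 696344) (nat_lit 8) (.e (nat_lit 172079) (nat_lit 7) (.e (nat_lit 409645) (nat_lit 18) (.e (nat_lit 303143) (nat_lit 12) (.e (nat_lit 475215) (nat_lit 43) .nil))))) (.g (nat_lit 0) (.e (nat_lit 439618) (nat_lit 0) .nil) .nil)))) (.nd (nat_lit 9) 
(.lf (nat_lit 607618) (.g (nat_lit 2166) (.e (nat_lit 696343) (nat_lit 8) (.e (nat_lit 172079) (nat_lit 7) (.e (nat_lit 409645) (nat_lit 18) (.e (nat_lit 303133) (nat_lit 9) (.e (nat_lit 426042) (nat_lit 0) (.e (nat_lit 2428) (nat_lit 157) (.e (nat_lit 5965) (nat_lit 324) (.e (nat_lit 163844) (nat_lit 0) (.e (nat_lit 3471) (nat_lit 217) .nil))))))))) (.g (nat_lit 1) (.e (nat_lit 439087) (nat_lit 0) .nil) .nil))) 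
(.lf (nat_lit 608130) (.g (nat_lit 3225) (.e (nat_lit 704589) (nat_lit 3) (.e (nat_lit 163975) (nat_lit 30) (.e (nat_lit 573481) (nat_lit 13) (.e (nat_lit 65619) (nat_lit 10) (.e (nat_lit 344117) (nat_lit 21) (.e (nat_lit 516152) (nat_lit 9) (.e (nat_lit 426410) (nat_lit 15) (.e (nat_lit 2058) (nat_lit 142) .nil)))))))) (.g (nat_lit 1) (.e (nat_lit 440360) (nat_lit 0) .nil) .nil)))))) 
(.nd (nat_lit 7) (.nd (nat_lit 8) (.nd (nat_lit 9) 
(.lf (nat_lit 607298) (.g (nat_lit 359) (.e (nat_lit 819203) (nat_lit 0) (.e (nat_lit 3022) (nat_lit 187) (.e (nat_lit 450584) (nat_lit 9) .nil))) (.g (nat_lit 0) (.e (nat_lit 437333) (nat_lit 0) .nil) .nil))) 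
(.lf (nat_lit 607810) (.g (nat_lit 3961) (.e (nat_lit 696344) (nat_lit 8) (.e (nat_lit 172065) (nat_lit 3) (.e (nat_lit 204868) (nat_lit 29) (.e (nat_lit 360473) (nat_lit 8) (.e (nat_lit 557091) (nat_lit 12) (.e (nat_lit 164020) (nat_lit 45) .nil)))))) (.g (nat_lit 1) (.e (nat_lit 439508) (nat_lit 0) .nil) .nil)))) (.nd (nat_lit 9) 
(.lf (nat_lit 607554) (.g (nat_lit 3331) (.e (nat_lit 696342) (nat_lit 8) (.e (nat_lit 172067) (nat_lit 3) (.e (nat_lit 204868) (nat_lit 29) (.e (nat_lit 360475) (nat_lit 8) (.e (nat_lit 557089) (nat_lit 12) .nil))))) (.g (nat_lit 0) (.e (nat_lit 438975) (nat_lit 0) .nil) .nil))) 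
(.lf (nat_lit 608066) (.g (nat_lit 2092) (.e (nat_lit 696344) (nat_lit 8) (.e (nat_lit 172126) (nat_lit 14) (.e (nat_lit 491566) (nat_lit 12) (.e (nat_lit 385104) (nat_lit 50) (.e (nat_lit 786460) (nat_lit 20) .nil))))) (.g (nat_lit 0) (.e (nat_lit 439942) (nat_lit 0) .nil) .nil))))) (.nd (nat_lit 8) (.nd (nat_lit 9) 
(.lf (nat_lit 607426) (.g (nat_lit 618) (.e (nat_lit 688139) (nat_lit 5) (.e (nat_lit 2887) (nat_lit 184) (.e (nat_lit 426291) (nat_lit 10) .nil))) (.g (nat_lit 0) (.e (nat_lit 437884) (nat_lit 0) .nil) .nil))) 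
(.lf (nat_lit 607938) (.g (nat_lit 2028) (.e (nat_lit 696344) (nat_lit 8) (.e (nat_lit 172082) (nat_lit 7) (.e (nat_lit 409646) (nat_lit 18) (.e (nat_lit 303143) (nat_lit 12) (.e (nat_lit 475218) (nat_lit 44) .nil))))) (.g (nat_lit 0) (.e (nat_lit 439719) (nat_lit 0) .nil) .nil)))) (.nd (nat_lit 9) 
(.lf (nat_lit 607682) (.g (nat_lit 2481) (.e (nat_lit 696343) (nat_lit 8) (.e (nat_lit 172082) (nat_lit 7) (.e (nat_lit 409649) (nat_lit 18) (.e (nat_lit 303140) (nat_lit 10) (.e (nat_lit 434275) (nat_lit 39) (.e (nat_lit 663580) (nat_lit 9) (.e (nat_lit 2515) (nat_lit 157) (.e (nat_lit 3464) (nat_lit 217) .nil)))))))) (.g (nat_lit 1) (.e (nat_lit 439244) (nat_lit 0) .nil) .nil))) 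
(.lf (nat_lit 608194) (.g (nat_lit 3071) (.e (nat_lit 704589) (nat_lit 3) (.e (nat_lit 163975) (nat_lit 30) (.e (nat_lit 573492) (nat_lit 15) (.e (nat_lit 81956) (nat_lit 23) (.e (nat_lit 98355) (nat_lit 26) (.e (nat_lit 426393) (nat_lit 15) (.e (nat_lit 2057) (nat_lit 142) .nil))))))) (.g (nat_lit 1) (.e (nat_lit 440530) (nat_lit 0) .nil) .nil))))))) 
(.nd (nat_lit 6) (.nd (nat_lit 7) (.nd (nat_lit 8) (.nd (nat_lit 9) 
(.lf (nat_lit 607266) (.g (nat_lit 1131) (.e (nat_lit 811028) (nat_lit 9) (.e (nat_lit 303137) (nat_lit 10) (.e (nat_lit 434241) (nat_lit 27) (.e (nat_lit 565269) (nat_lit 6) (.e (nat_lit 81933) (nat_lit 20) .nil))))) (.g (nat_lit 0) (.e (nat_lit 437134) (nat_lit 0) .nil) .nil))) 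
(.lf (nat_lit 607778) (.g (nat_lit 1403) (.e (nat_lit 696343) (nat_lit 8) (.e (nat_lit 172123) (nat_lit 13) (.e (nat_lit 483413) (nat_lit 27) (.e (nat_lit 401440) (nat_lit 9) .nil)))) (.g (nat_lit 0) (.e (nat_lit 439471) (nat_lit 0) .nil) .nil)))) (.nd (nat_lit 9) 
(.lf (nat_lit 607522) (.g (nat_lit 3713) (.e (nat_lit 696328) (nat_lit 5) (.e (nat_lit 2980) (nat_lit 185) (.e (nat_lit 434231) (nat_lit 23) (.e (nat_lit 532550) (nat_lit 12) (.e (nat_lit 360475) (nat_lit 8) (.e (nat_lit 557091) (nat_lit 12) (.e (nat_lit 164018) (nat_lit 45) .nil))))))) (.g (nat_lit 1) (.e (nat_lit 438383) (nat_lit 0) .nil) .nil))) 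
(.lf (nat_lit 608034) (.g (nat_lit 3226) (.e (nat_lit 696344) (nat_lit 8) (.e (nat_lit 172115) (nat_lit 10) (.e (nat_lit 434209) (nat_lit 18) (.e (nat_lit 6425) (nat_lit 342) (.e (nat_lit 229412) (nat_lit 14) (.e (nat_lit 442411) (nat_lit 20) (.e (nat_lit 3467) (nat_lit 217) .nil))))))) (.g (nat_lit 1) (.e (nat_lit 439884) (nat_lit 0) .nil) .nil))))) (.nd (nat_lit 8) (.nd (nat_lit 9) 
(.lf (nat_lit 607394) (.g (nat_lit 1638) (.e (nat_lit 688138) (nat_lit 5) (.e (nat_lit 2887) (nat_lit 184) (.e (nat_lit 426140) (nat_lit 3) (.e (nat_lit 204870) (nat_lit 29) .nil)))) (.g (nat_lit 0) (.e (nat_lit 437758) (nat_lit 0) .nil) .nil))) 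
(.lf (nat_lit 607906) (.g (nat_lit 2516) (.e (nat_lit 696344) (nat_lit 8) (.e (nat_lit 172082) (nat_lit 7) (.e (nat_lit 409646) (nat_lit 18) (.e (nat_lit 303133) (nat_lit 9) (.e (nat_lit 426042) (nat_lit 0) (.e (nat_lit 2447) (nat_lit 157) (.e (nat_lit 5968) (nat_lit 324) (.e (nat_lit 163844) (nat_lit 0) (.e (nat_lit 3471) (nat_lit 217) .nil))))))))) (.g (nat_lit 1) (.e (nat_lit 439657) (nat_lit 0) .nil) .nil)))) 
(.nd (nat_lit 9) 
(.lf (nat_lit 607650) (.g (nat_lit 2373) (.e (nat_lit 696343) (nat_lit 8) (.e (nat_lit 172082) (nat_lit 7) (.e (nat_lit 409646) (nat_lit 18) (.e (nat_lit 303133) (nat_lit 9) (.e (nat_lit 426043) (nat_lit 0) (.e (nat_lit 2422) (nat_lit 157) (.e (nat_lit 5965) (nat_lit 324) (.e (nat_lit 163844) (nat_lit 0) (.e (nat_lit 3471) (nat_lit 217) .nil))))))))) (.g (nat_lit 1) (.e (nat_lit 439158) (nat_lit 0) .nil) .nil))) 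
(.lf (nat_lit 608162) (.g (nat_lit 3112) (.e (nat_lit 704589) (nat_lit 3) (.e (nat_lit 163975) (nat_lit 30) (.e (nat_lit 573491) (nat_lit 15) (.e (nat_lit 81954) (nat_lit 23) (.e (nat_lit 98356) (nat_lit 26) (.e (nat_lit 426374) (nat_lit 15) (.e (nat_lit 2056) (nat_lit 142) .nil))))))) (.g (nat_lit 1) (.e (nat_lit 440394) (nat_lit 0) .nil) .nil)))))) 
(.nd (nat_lit 7) (.nd (nat_lit 8) (.nd (nat_lit 9) 
(.lf (nat_lit 607330) (.g (nat_lit 2423) (.e (nat_lit 819219) (nat_lit 4) (.e (nat_lit 172094) (nat_lit 9) (.e (nat_lit 426125) (nat_lit 2) (.e (nat_lit 196616) (nat_lit 0) .nil)))) (.g (nat_lit 0) (.e (nat_lit 437554) (nat_lit 0) .nil) .nil))) 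
(.lf (nat_lit 607842) (.g (nat_lit 2271) (.e (nat_lit 696344) (nat_lit 8) (.e (nat_lit 172078) (nat_lit 7) (.e (nat_lit 409646) (nat_lit 18) (.e (nat_lit 303140) (nat_lit 10) (.e (nat_lit 434275) (nat_lit 39) (.e (nat_lit 663580) (nat_lit 9) (.e (nat_lit 2416) (nat_lit 157) (.e (nat_lit 3468) (nat_lit 217) .nil)))))))) (.g (nat_lit 1) (.e (nat_lit 439543) (nat_lit 0) .nil) .nil)))) 
(.nd (nat_lit 9) 
(.lf (nat_lit 607586) (.g (nat_lit 2456) (.e (nat_lit 696343) (nat_lit 8) (.e (nat_lit 172065) (nat_lit 3) (.e (nat_lit 204868) (nat_lit 29) (.e (nat_lit 360474) (nat_lit 8) (.e (nat_lit 557091) (nat_lit 12) (.e (nat_lit 164020) (nat_lit 45) .nil)))))) (.g (nat_lit 1) (.e (nat_lit 439046) (nat_lit 0) .nil) .nil))) 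
(.lf (nat_lit 608098) (.g (nat_lit 2547) (.e (nat_lit 704588) (nat_lit 3) (.e (nat_lit 163962) (nat_lit 25) (.e (nat_lit 532544) (nat_lit 10) (.e (nat_lit 344129) (nat_lit 26) (.e (nat_lit 557104) (nat_lit 14) (.e (nat_lit 188160) (nat_lit 1) (.e (nat_lit 499910) (nat_lit 8) (.e (nat_lit 164021) (nat_lit 46) .nil)))))))) (.g (nat_lit 1) (.e (nat_lit 440304) (nat_lit 0) .nil) .nil))))) 
(.nd (nat_lit 8) (.nd (nat_lit 9) 
(.lf (nat_lit 607458) (.g (nat_lit 3466) (.e (nat_lit 688165) (nat_lit 15) (.e (nat_lit 57479) (nat_lit 28) (.e (nat_lit 557105) (nat_lit 14) (.e (nat_lit 180252) (nat_lit 10) (.e (nat_lit 573481) (nat_lit 13) (.e (nat_lit 65570) (nat_lit 3) (.e (nat_lit 98321) (nat_lit 17) (.e (nat_lit 7936) (nat_lit 216) .nil)))))))) (.g (nat_lit 1) (.e (nat_lit 438160) (nat_lit 0) .nil) .nil))) 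
(.lf (nat_lit 607970) (.g (nat_lit 3029) (.e (nat_lit 696344) (nat_lit 8) (.e (nat_lit 172106) (nat_lit 10) (.e (nat_lit 434209) (nat_lit 18) (.e (nat_lit 6425) (nat_lit 342) (.e (nat_lit 229412) (nat_lit 14) (.e (nat_lit 442411) (nat_lit 20) (.e (nat_lit 3467) (nat_lit 217) .nil))))))) (.g (nat_lit 1) (.e (nat_lit 439771) (nat_lit 0) .nil) .nil)))) (.nd (nat_lit 9) 
(.lf (nat_lit 607714) (.g (nat_lit 1937) (.e (nat_lit 696343) (nat_lit 8) (.e (nat_lit 172107) (nat_lit 10) (.e (nat_lit 434289) (nat_lit 43) (.e (nat_lit 696346) (nat_lit 10) (.e (nat_lit 188435) (nat_lit 20) (.e (nat_lit 3468) (nat_lit 217) .nil)))))) (.g (nat_lit 1) (.e (nat_lit 439310) (nat_lit 0) .nil) .nil))) 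
(.lf (nat_lit 608226) (.g (nat_lit 4287) (.e (nat_lit 704589) (nat_lit 3) (.e (nat_lit 163975) (nat_lit 30) (.e (nat_lit 573492) (nat_lit 15) (.e (nat_lit 81956) (nat_lit 23) (.e (nat_lit 98356) (nat_lit 26) (.e (nat_lit 426375) (nat_lit 15) (.e (nat_lit 2057) (nat_lit 142) .nil))))))) (.g (nat_lit 1) (.e (nat_lit 440562) (nat_lit 0) .nil) .nil)))))))) 
(.nd (nat_lit 5) (.nd (nat_lit 6) (.nd (nat_lit 7) (.nd (nat_lit 8) (.nd (nat_lit 9) 
(.lf (nat_lit 607250) (.g (nat_lit 958) (.e (nat_lit 811012) (nat_lit 0) (.e (nat_lit 5776) (nat_lit 317) (.e (nat_lit 180241) (nat_lit 4) (.e (nat_lit 524340) (nat_lit 28) (.e (nat_lit 352283) (nat_lit 20) (.e (nat_lit 2384) (nat_lit 155) .nil)))))) (.g (nat_lit 1) (.e (nat_lit 437095) (nat_lit 0) .nil) .nil))) 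
(.lf (nat_lit 607762) (.g (nat_lit 1841) (.e (nat_lit 696343) (nat_lit 8) (.e (nat_lit 172123) (nat_lit 13) (.e (nat_lit 483410) (nat_lit 27) (.e (nat_lit 401434) (nat_lit 9) (.e (nat_lit 425986) (nat_lit 0) .nil))))) (.g (nat_lit 0) (.e (nat_lit 439449) (nat_lit 0) .nil) .nil)))) (.nd (nat_lit 9) 
(.lf (nat_lit 607506) (.g (nat_lit 3074) (.e (nat_lit 696327) (nat_lit 5) (.e (nat_lit 3004) (nat_lit 186) (.e (nat_lit 442390) (nat_lit 11) (.e (nat_lit 336232) (nat_lit 14) (.e (nat_lit 401448) (nat_lit 10) (.e (nat_lit 434289) (nat_lit 43) .nil)))))) (.g (nat_lit 1) (.e (nat_lit 438273) (nat_lit 0) .nil) .nil))) 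
(.lf (nat_lit 608018) (.g (nat_lit 1951) (.e (nat_lit 696344) (nat_lit 8) (.e (nat_lit 172113) (nat_lit 10) (.e (nat_lit 434289) (nat_lit 43) (.e (nat_lit 696346) (nat_lit 10) (.e (nat_lit 188440) (nat_lit 20) (.e (nat_lit 3467) (nat_lit 217) .nil)))))) (.g (nat_lit 1) (.e (nat_lit 439860) (nat_lit 0) .nil) .nil))))) (.nd (nat_lit 8) (.nd (nat_lit 9) 
(.lf (nat_lit 607378) (.g (nat_lit 1877) (.e (nat_lit 819237) (nat_lit 11) (.e (nat_lit 16466) (nat_lit 13) (.e (nat_lit 483372) (nat_lit 21) (.e (nat_lit 319531) (nat_lit 16) .nil)))) (.g (nat_lit 0) (.e (nat_lit 437679) (nat_lit 0) .nil) .nil))) 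
(.lf (nat_lit 607890) (.g (nat_lit 2492) (.e (nat_lit 696344) (nat_lit 8) (.e (nat_lit 172081) (nat_lit 7) (.e (nat_lit 409649) (nat_lit 18) (.e (nat_lit 303140) (nat_lit 10) (.e (nat_lit 434202) (nat_lit 18) (.e (nat_lit 5968) (nat_lit 324) (.e (nat_lit 163844) (nat_lit 0) (.e (nat_lit 3471) (nat_lit 217) .nil)))))))) (.g (nat_lit 1) (.e (nat_lit 439638) (nat_lit 0) .nil) .nil)))) 
(.nd (nat_lit 9) 
(.lf (nat_lit 607634) (.g (nat_lit 2575) (.e (nat_lit 696343) (nat_lit 8) (.e (nat_lit 172081) (nat_lit 7) (.e (nat_lit 409649) (nat_lit 18) (.e (nat_lit 303140) (nat_lit 10) (.e (nat_lit 434275) (nat_lit 39) (.e (nat_lit 663580) (nat_lit 9) (.e (nat_lit 7936) (nat_lit 157) (.e (nat_lit 3471) (nat_lit 217) .nil)))))))) (.g (nat_lit 1) (.e (nat_lit 439136) (nat_lit 0) .nil) .nil))) 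
(.lf (nat_lit 608146) (.g (nat_lit 1622) (.e (nat_lit 704589) (nat_lit 3) (.e (nat_lit 163975) (nat_lit 30) (.e (nat_lit 573491) (nat_lit 15) (.e (nat_lit 81954) (nat_lit 23) (.e (nat_lit 98355) (nat_lit 26) (.e (nat_lit 426393) (nat_lit 15) (.e (nat_lit 2057) (nat_lit 142) .nil))))))) (.g (nat_lit 1) (.e (nat_lit 440378) (nat_lit 0) .nil) .nil)))))) 
(.nd (nat_lit 7) (.nd (nat_lit 8) (.nd (nat_lit 9) 
(.lf (nat_lit 607314) (.g (nat_lit 1568) (.e (nat_lit 819214) (nat_lit 3) (.e (nat_lit 163962) (nat_lit 25) (.e (nat_lit 532544) (nat_lit 10) (.e (nat_lit 344130) (nat_lit 26) (.e (nat_lit 557097) (nat_lit 13) .nil))))) (.g (nat_lit 0) (.e (nat_lit 437503) (nat_lit 0) .nil) .nil))) 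
(.lf (nat_lit 607826) (.g (nat_lit 3141) (.e (nat_lit 696344) (nat_lit 8) (.e (nat_lit 172067) (nat_lit 3) (.e (nat_lit 204868) (nat_lit 29) (.e (nat_lit 360475) (nat_lit 8) (.e (nat_lit 557068) (nat_lit 9) .nil))))) (.g (nat_lit 0) (.e (nat_lit 439526) (nat_lit 0) .nil) .nil)))) (.nd (nat_lit 9) 
(.lf (nat_lit 607570) (.g (nat_lit 2464) (.e (nat_lit 696343) (nat_lit 8) (.e (nat_lit 172063) (nat_lit 2) (.e (nat_lit 196666) (nat_lit 13) (.e (nat_lit 65617) (nat_lit 10) (.e (nat_lit 344130) (nat_lit 26) (.e (nat_lit 557090) (nat_lit 12) (.e (nat_lit 164020) (nat_lit 45) .nil))))))) (.g (nat_lit 1) (.e (nat_lit 439028) (nat_lit 0) .nil) .nil))) 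
(.lf (nat_lit 608082) (.g (nat_lit 2628) (.e (nat_lit 696348) (nat_lit 12) (.e (nat_lit 237589) (nat_lit 2) (.e (nat_lit 196666) (nat_lit 13) (.e (nat_lit 65617) (nat_lit 10) (.e (nat_lit 344133) (nat_lit 26) (.e (nat_lit 557091) (nat_lit 12) (.e (nat_lit 164019) (nat_lit 45) .nil))))))) (.g (nat_lit 1) (.e (nat_lit 440139) (nat_lit 0) .nil) .nil))))) (.nd (nat_lit 8) (.nd (nat_lit 9) 
(.lf (nat_lit 607442) (.g (nat_lit 2086) (.e (nat_lit 688139) (nat_lit 5) (.e (nat_lit 3062) (nat_lit 190) (.e (nat_lit 475179) (nat_lit 24) (.e (nat_lit 516174) (nat_lit 14) (.e (nat_lit 474880) (nat_lit 19) .nil))))) (.g (nat_lit 0) (.e (nat_lit 437934) (nat_lit 0) .nil) .nil))) 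
(.lf (nat_lit 607954) (.g (nat_lit 1403) (.e (nat_lit 696344) (nat_lit 8) (.e (nat_lit 172092) (nat_lit 9) (.e (nat_lit 426528) (nat_lit 27) (.e (nat_lit 335894) (nat_lit 0) (.e (nat_lit 6722) (nat_lit 362) (.e (nat_lit 180269) (nat_lit 25) .nil)))))) (.g (nat_lit 1) (.e (nat_lit 439736) (nat_lit 0) .nil) .nil)))) (.nd (nat_lit 9) 
(.lf (nat_lit 607698) (.g (nat_lit 1712) (.e (nat_lit 696343) (nat_lit 8) (.e (nat_lit 172106) (nat_lit 10) (.e (nat_lit 434209) (nat_lit 18) (.e (nat_lit 6284) (nat_lit 337) .nil)))) (.g (nat_lit 0) (.e (nat_lit 439277) (nat_lit 0) .nil) .nil))) 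
(.lf (nat_lit 608210) (.g (nat_lit 3814) (.e (nat_lit 704589) (nat_lit 3) (.e (nat_lit 163975) (nat_lit 30) (.e (nat_lit 573492) (nat_lit 15) (.e (nat_lit 81956) (nat_lit 23) (.e (nat_lit 98356) (nat_lit 26) (.e (nat_lit 426360) (nat_lit 15) (.e (nat_lit 2047) (nat_lit 142) .nil))))))) (.g (nat_lit 1) (.e (nat_lit 440546) (nat_lit 0) .nil) .nil))))))) 
(.nd (nat_lit 6) (.nd (nat_lit 7) (.nd (nat_lit 8) (.nd (nat_lit 9) 
(.lf (nat_lit 607282) (.g (nat_lit 508) (.e (nat_lit 819202) (nat_lit 0) (.e (nat_lit 3015) (nat_lit 187) (.e (nat_lit 458496) (nat_lit 8) .nil))) (.g (nat_lit 0) (.e (nat_lit 437236) (nat_lit 0) .nil) .nil))) 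
(.lf (nat_lit 607794) (.g (nat_lit 3561) (.e (nat_lit 696344) (nat_lit 8) (.e (nat_lit 172064) (nat_lit 2) (.e (nat_lit 196666) (nat_lit 13) (.e (nat_lit 65610) (nat_lit 10) (.e (nat_lit 344129) (nat_lit 26) (.e (nat_lit 557066) (nat_lit 9) (.e (nat_lit 2399) (nat_lit 157) (.e (nat_lit 3471) (nat_lit 217) .nil)))))))) (.g (nat_lit 1) (.e (nat_lit 439491) (nat_lit 0) .nil) .nil)))) 
(.nd (nat_lit 9) 
(.lf (nat_lit 607538) (.g (nat_lit 3960) (.e (nat_lit 696329) (nat_lit 5) (.e (nat_lit 2980) (nat_lit 185) (.e (nat_lit 434231) (nat_lit 23) (.e (nat_lit 532549) (nat_lit 12) (.e (nat_lit 360473) (nat_lit 8) (.e (nat_lit 557091) (nat_lit 12) (.e (nat_lit 164020) (nat_lit 45) .nil))))))) (.g (nat_lit 1) (.e (nat_lit 438467) (nat_lit 0) .nil) .nil))) 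
(.lf (nat_lit 608050) (.g (nat_lit 2197) (.e (nat_lit 696344) (nat_lit 8) (.e (nat_lit 172115) (nat_lit 10) (.e (nat_lit 434289) (nat_lit 43) (.e (nat_lit 696346) (nat_lit 10) (.e (nat_lit 188439) (nat_lit 20) (.e (nat_lit 3467) (nat_lit 217) .nil)))))) (.g (nat_lit 1) (.e (nat_lit 439905) (nat_lit 0) .nil) .nil))))) (.nd (nat_lit 8) (.nd (nat_lit 9) 
(.lf (nat_lit 607410) (.g (nat_lit 4054) (.e (nat_lit 688139) (nat_lit 5) (.e (nat_lit 2887) (nat_lit 184) (.e (nat_lit 426140) (nat_lit 3) (.e (nat_lit 204855) (nat_lit 26) (.e (nat_lit 336176) (nat_lit 10) (.e (nat_lit 344130) (nat_lit 26) (.e (nat_lit 557090) (nat_lit 12) (.e (nat_lit 164016) (nat_lit 44) .nil)))))))) (.g (nat_lit 1) (.e (nat_lit 437845) (nat_lit 0) .nil) .nil))) 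
(.lf (nat_lit 607922) (.g (nat_lit 2385) (.e (nat_lit 696344) (nat_lit 8) (.e (nat_lit 172082) (nat_lit 7) (.e (nat_lit 409646) (nat_lit 18) (.e (nat_lit 303140) (nat_lit 10) (.e (nat_lit 434275) (nat_lit 39) (.e (nat_lit 663574) (nat_lit 9) (.e (nat_lit 2466) (nat_lit 157) (.e (nat_lit 3467) (nat_lit 217) .nil)))))))) (.g (nat_lit 1) (.e (nat_lit 439694) (nat_lit 0) .nil) .nil)))) 
(.nd (nat_lit 9) 
(.lf (nat_lit 607666) (.g (nat_lit 2584) (.e (nat_lit 696343) (nat_lit 8) (.e (nat_lit 172082) (nat_lit 7) (.e (nat_lit 409646) (nat_lit 18) (.e (nat_lit 303140) (nat_lit 10) (.e (nat_lit 434275) (nat_lit 39) (.e (nat_lit 663580) (nat_lit 9) (.e (nat_lit 2416) (nat_lit 157) (.e (nat_lit 3468) (nat_lit 217) .nil)))))))) (.g (nat_lit 1) (.e (nat_lit 439202) (nat_lit 0) .nil) .nil))) 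
(.lf (nat_lit 608178) (.g (nat_lit 1882) (.e (nat_lit 704589) (nat_lit 3) (.e (nat_lit 163975) (nat_lit 30) (.e (nat_lit 573491) (nat_lit 15) (.e (nat_lit 81956) (nat_lit 23) (.e (nat_lit 98356) (nat_lit 26) .nil))))) (.g (nat_lit 0) (.e (nat_lit 440410) (nat_lit 0) .nil) .nil)))))) (.nd (nat_lit 7) (.nd (nat_lit 8) (.nd (nat_lit 9) 
(.lf (nat_lit 607346) (.g (nat_lit 1744) (.e (nat_lit 819221) (nat_lit 6) (.e (nat_lit 188434) (nat_lit 20) (.e (nat_lit 3289) (nat_lit 201) (.e (nat_lit 565269) (nat_lit 6) (.e (nat_lit 81947) (nat_lit 20) (.e (nat_lit 2390) (nat_lit 156) .nil)))))) (.g (nat_lit 1) (.e (nat_lit 437624) (nat_lit 0) .nil) .nil))) 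
(.lf (nat_lit 607858) (.g (nat_lit 2675) (.e (nat_lit 696344) (nat_lit 8) (.e (nat_lit 172079) (nat_lit 7) (.e (nat_lit 409645) (nat_lit 18) (.e (nat_lit 303133) (nat_lit 9) (.e (nat_lit 426042) (nat_lit 0) (.e (nat_lit 2447) (nat_lit 157) (.e (nat_lit 5964) (nat_lit 324) (.e (nat_lit 163844) (nat_lit 0) (.e (nat_lit 3471) (nat_lit 217) .nil))))))))) (.g (nat_lit 1) (.e (nat_lit 439567) (nat_lit 0) .nil) .nil)))) 
(.nd (nat_lit 9) 
(.lf (nat_lit 607602) (.g (nat_lit 1709) (.e (nat_lit 696343) (nat_lit 8) (.e (nat_lit 172067) (nat_lit 3) (.e (nat_lit 204868) (nat_lit 29) (.e (nat_lit 360474) (nat_lit 8) .nil)))) (.g (nat_lit 0) (.e (nat_lit 439065) (nat_lit 0) .nil) .nil))) 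
(.lf (nat_lit 608114) (.g (nat_lit 1737) (.e (nat_lit 704589) (nat_lit 3) (.e (nat_lit 163975) (nat_lit 30) (.e (nat_lit 573481) (nat_lit 13) (.e (nat_lit 65619) (nat_lit 10) (.e (nat_lit 344116) (nat_lit 21) .nil))))) (.g (nat_lit 0) (.e (nat_lit 440344) (nat_lit 0) .nil) .nil))))) (.nd (nat_lit 8) (.nd (nat_lit 9) 
(.lf (nat_lit 607474) (.g (nat_lit 3438) (.e (nat_lit 688166) (nat_lit 15) (.e (nat_lit 57479) (nat_lit 28) (.e (nat_lit 557105) (nat_lit 14) (.e (nat_lit 180252) (nat_lit 10) (.e (nat_lit 573481) (nat_lit 13) (.e (nat_lit 65570) (nat_lit 3) (.e (nat_lit 98321) (nat_lit 17) (.e (nat_lit 7936) (nat_lit 216) .nil)))))))) (.g (nat_lit 1) (.e (nat_lit 438177) (nat_lit 0) .nil) .nil))) 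
(.lf (nat_lit 607986) (.g (nat_lit 2349) (.e (nat_lit 696344) (nat_lit 8) (.e (nat_lit 172106) (nat_lit 10) (.e (nat_lit 434289) (nat_lit 43) (.e (nat_lit 696346) (nat_lit 10) (.e (nat_lit 188435) (nat_lit 20) (.e (nat_lit 3468) (nat_lit 217) .nil)))))) (.g (nat_lit 1) (.e (nat_lit 439789) (nat_lit 0) .nil) .nil)))) (.nd (nat_lit 9) 
(.lf (nat_lit 607730) (.g (nat_lit 1062) (.e (nat_lit 696343) (nat_lit 8) (.e (nat_lit 172113) (nat_lit 10) (.e (nat_lit 434208) (nat_lit 18) (.e (nat_lit 6254) (nat_lit 337) .nil)))) (.g (nat_lit 0) (.e (nat_lit 439357) (nat_lit 0) .nil) .nil))) 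
(.lf (nat_lit 608242) (.g (nat_lit 3034) (.e (nat_lit 704589) (nat_lit 3) (.e (nat_lit 163975) (nat_lit 30) (.e (nat_lit 573492) (nat_lit 15) (.e (nat_lit 81956) (nat_lit 23) (.e (nat_lit 98360) (nat_lit 26) (.e (nat_lit 426410) (nat_lit 15) (.e (nat_lit 2058) (nat_lit 142) .nil))))))) (.g (nat_lit 1) (.e (nat_lit 440578) (nat_lit 0) .nil) .nil))))))))) 
(.nd (nat_lit 4) (.nd (nat_lit 5) (.nd (nat_lit 6) (.nd (nat_lit 7) (.nd (nat_lit 8) 
(.nd (nat_lit 9) 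
(.lf (nat_lit 607242) (.g (nat_lit 601) (.e (nat_lit 802844) (nat_lit 24) (.e (nat_lit 213030) (nat_lit 11) (.e (nat_lit 24617) (nat_lit 7) .nil))) (.g (nat_lit 0) (.e (nat_lit 437073) (nat_lit 0) .nil) .nil))) 
(.lf (nat_lit 607754) (.g (nat_lit 2602) (.e (nat_lit 696343) (nat_lit 8) (.e (nat_lit 172115) (nat_lit 10) (.e (nat_lit 434209) (nat_lit 18) (.e (nat_lit 6425) (nat_lit 342) (.e (nat_lit 229412) (nat_lit 14) (.e (nat_lit 442412) (nat_lit 20) (.e (nat_lit 3468) (nat_lit 217) .nil))))))) (.g (nat_lit 1) (.e (nat_lit 439412) (nat_lit 0) .nil) .nil)))) (.nd (nat_lit 9) 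
(.lf (nat_lit 607498) (.g (nat_lit 2584) (.e (nat_lit 688182) (nat_lit 17) (.e (nat_lit 73755) (nat_lit 8) (.e (nat_lit 557065) (nat_lit 9) (.e (nat_lit 3098) (nat_lit 192) (.e (nat_lit 491571) (nat_lit 13) (.e (nat_lit 393232) (nat_lit 17) (.e (nat_lit 3461) (nat_lit 216) .nil))))))) (.g (nat_lit 1) (.e (nat_lit 438246) (nat_lit 0) .nil) .nil))) 
(.lf (nat_lit 608010) (.g (nat_lit 1761) (.e (nat_lit 696344) (nat_lit 8) (.e (nat_lit 172113) (nat_lit 10) (.e (nat_lit 434208) (nat_lit 18) (.e (nat_lit 6252) (nat_lit 337) (.e (nat_lit 2651) (nat_lit 166) .nil))))) (.g (nat_lit 0) (.e (nat_lit 439834) (nat_lit 0) .nil) .nil))))) (.nd (nat_lit 8) (.nd (nat_lit 9) 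
(.lf (nat_lit 607370) (.g (nat_lit 2393) (.e (nat_lit 819221) (nat_lit 6) (.e (nat_lit 188455) (nat_lit 24) (.e (nat_lit 229519) (nat_lit 125) (.e (nat_lit 122919) (nat_lit 15) (.e (nat_lit 360493) (nat_lit 27) .nil))))) (.g (nat_lit 0) (.e (nat_lit 437664) (nat_lit 0) .nil) .nil))) 
(.lf (nat_lit 607882) (.g (nat_lit 3307) (.e (nat_lit 696344) (nat_lit 8) (.e (nat_lit 172079) (nat_lit 7) (.e (nat_lit 409649) (nat_lit 18) (.e (nat_lit 303140) (nat_lit 10) (.e (nat_lit 434275) (nat_lit 39) (.e (nat_lit 663580) (nat_lit 9) (.e (nat_lit 2416) (nat_lit 157) (.e (nat_lit 3467) (nat_lit 217) .nil)))))))) (.g (nat_lit 1) (.e (nat_lit 439630) (nat_lit 0) .nil) .nil)))) 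
(.nd (nat_lit 9) 
(.lf (nat_lit 607626) (.g (nat_lit 1313) (.e (nat_lit 696343) (nat_lit 8) (.e (nat_lit 172079) (nat_lit 7) (.e (nat_lit 409645) (nat_lit 18) (.e (nat_lit 303139) (nat_lit 10) .nil)))) (.g (nat_lit 0) (.e (nat_lit 439105) (nat_lit 0) .nil) .nil))) 
(.lf (nat_lit 608138) (.g (nat_lit 3293) (.e (nat_lit 704589) (nat_lit 3) (.e (nat_lit 163975) (nat_lit 30) (.e (nat_lit 573484) (nat_lit 13) (.e (nat_lit 65610) (nat_lit 10) (.e (nat_lit 344117) (nat_lit 21) (.e (nat_lit 516179) (nat_lit 15) (.e (nat_lit 475198) (nat_lit 40) .nil))))))) (.g (nat_lit 1) (.e (nat_lit 440368) (nat_lit 0) .nil) .nil)))))) 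
(.nd (nat_lit 7) (.nd (nat_lit 8) (.nd (nat_lit 9) 
(.lf (nat_lit 607306) (.g (nat_lit 1741) (.e (nat_lit 819204) (nat_lit 0) (.e (nat_lit 3016) (nat_lit 187) (.e (nat_lit 450584) (nat_lit 9) (.e (nat_lit 565252) (nat_lit 0) (.e (nat_lit 1599) (nat_lit 111) (.e (nat_lit 360493) (nat_lit 27) .nil)))))) (.g (nat_lit 1) (.e (nat_lit 437439) (nat_lit 0) .nil) .nil))) 
(.lf (nat_lit 607818) (.g (nat_lit 2792) (.e (nat_lit 696344) (nat_lit 8) (.e (nat_lit 172067) (nat_lit 3) (.e (nat_lit 204855) (nat_lit 26) (.e (nat_lit 336176) (nat_lit 10) (.e (nat_lit 344127) (nat_lit 26) (.e (nat_lit 557090) (nat_lit 12) (.e (nat_lit 164019) (nat_lit 45) .nil))))))) (.g (nat_lit 1) (.e (nat_lit 439516) (nat_lit 0) .nil) .nil)))) (.nd (nat_lit 9) 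
(.lf (nat_lit 607562) (.g (nat_lit 4028) (.e (nat_lit 696343) (nat_lit 8) (.e (nat_lit 172062) (nat_lit 2) (.e (nat_lit 196666) (nat_lit 13) (.e (nat_lit 65617) (nat_lit 10) (.e (nat_lit 344130) (nat_lit 26) (.e (nat_lit 557090) (nat_lit 12) (.e (nat_lit 164018) (nat_lit 45) .nil))))))) (.g (nat_lit 1) (.e (nat_lit 439020) (nat_lit 0) .nil) .nil))) 
(.lf (nat_lit 608074) (.g (nat_lit 3169) (.e (nat_lit 696346) (nat_lit 10) (.e (nat_lit 188439) (nat_lit 20) (.e (nat_lit 3469) (nat_lit 217) (.e (nat_lit 696344) (nat_lit 8) (.e (nat_lit 172116) (nat_lit 10) (.e (nat_lit 434289) (nat_lit 43) .nil)))))) (.g (nat_lit 1) (.e (nat_lit 440035) (nat_lit 0) .nil) .nil))))) (.nd (nat_lit 8) (.nd (nat_lit 9) 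
(.lf (nat_lit 607434) (.g (nat_lit 2323) (.e (nat_lit 688139) (nat_lit 5) (.e (nat_lit 3062) (nat_lit 190) (.e (nat_lit 475179) (nat_lit 24) (.e (nat_lit 516158) (nat_lit 9) (.e (nat_lit 426188) (nat_lit 9) .nil))))) (.g (nat_lit 0) (.e (nat_lit 437926) (nat_lit 0) .nil) .nil))) 
(.lf (nat_lit 607946) (.g (nat_lit 4320) (.e (nat_lit 696344) (nat_lit 8) (.e (nat_lit 172082) (nat_lit 7) (.e (nat_lit 409649) (nat_lit 18) (.e (nat_lit 303140) (nat_lit 10) (.e (nat_lit 434275) (nat_lit 39) (.e (nat_lit 663574) (nat_lit 9) (.e (nat_lit 2472) (nat_lit 157) (.e (nat_lit 3469) (nat_lit 217) .nil)))))))) (.g (nat_lit 1) (.e (nat_lit 439728) (nat_lit 0) .nil) .nil)))) 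
(.nd (nat_lit 9) 
(.lf (nat_lit 607690) (.g (nat_lit 291) (.e (nat_lit 696343) (nat_lit 8) (.e (nat_lit 172106) (nat_lit 10) (.e (nat_lit 434209) (nat_lit 18) .nil))) (.g (nat_lit 0) (.e (nat_lit 439269) (nat_lit 0) .nil) .nil))) 
(.lf (nat_lit 608202) (.g (nat_lit 3131) (.e (nat_lit 704589) (nat_lit 3) (.e (nat_lit 163975) (nat_lit 30) (.e (nat_lit 573492) (nat_lit 15) (.e (nat_lit 81956) (nat_lit 23) (.e (nat_lit 98355) (nat_lit 26) (.e (nat_lit 426402) (nat_lit 15) (.e (nat_lit 2046) (nat_lit 142) .nil))))))) (.g (nat_lit 1) (.e (nat_lit 440538) (nat_lit 0) .nil) .nil))))))) 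
(.nd (nat_lit 6) (.nd (nat_lit 7) (.nd (nat_lit 8) (.nd (nat_lit 9) 
(.lf (nat_lit 607274) (.g (nat_lit 1673) (.e (nat_lit 811033) (nat_lit 11) (.e (nat_lit 580) (nat_lit 43) (.e (nat_lit 516151) (nat_lit 9) (.e (nat_lit 426132) (nat_lit 3) (.e (nat_lit 212736) (nat_lit 16) .nil))))) (.g (nat_lit 0) (.e (nat_lit 437184) (nat_lit 0) .nil) .nil))) 
(.lf (nat_lit 607786) (.g (nat_lit 2458) (.e (nat_lit 696343) (nat_lit 8) (.e (nat_lit 172126) (nat_lit 14) (.e (nat_lit 491566) (nat_lit 12) (.e (nat_lit 385109) (nat_lit 51) .nil)))) (.g (nat_lit 0) (.e (nat_lit 439482) (nat_lit 0) .nil) .nil)))) (.nd (nat_lit 9) 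
(.lf (nat_lit 607530) (.g (nat_lit 4314) (.e (nat_lit 696329) (nat_lit 5) (.e (nat_lit 2884) (nat_lit 184) (.e (nat_lit 426125) (nat_lit 2) (.e (nat_lit 196666) (nat_lit 13) (.e (nat_lit 65617) (nat_lit 10) (.e (nat_lit 344133) (nat_lit 26) (.e (nat_lit 557089) (nat_lit 12) (.e (nat_lit 164020) (nat_lit 45) .nil)))))))) (.g (nat_lit 1) (.e (nat_lit 438447) (nat_lit 0) .nil) .nil))) 
(.lf (nat_lit 608042) (.g (nat_lit 2445) (.e (nat_lit 696344) (nat_lit 8) (.e (nat_lit 172115) (nat_lit 10) (.e (nat_lit 434209) (nat_lit 18) (.e (nat_lit 6428) (nat_lit 342) (.e (nat_lit 229412) (nat_lit 14) (.e (nat_lit 442411) (nat_lit 20) (.e (nat_lit 3468) (nat_lit 217) .nil))))))) (.g (nat_lit 1) (.e (nat_lit 439892) (nat_lit 0) .nil) .nil))))) (.nd (nat_lit 8) (.nd (nat_lit 9) 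
(.lf (nat_lit 607402) (.g (nat_lit 1847) (.e (nat_lit 688138) (nat_lit 5) (.e (nat_lit 3062) (nat_lit 190) (.e (nat_lit 475179) (nat_lit 24) (.e (nat_lit 516164) (nat_lit 11) .nil)))) (.g (nat_lit 0) (.e (nat_lit 437824) (nat_lit 0) .nil) .nil))) 
(.lf (nat_lit 607914) (.g (nat_lit 2904) (.e (nat_lit 696344) (nat_lit 8) (.e (nat_lit 172082) (nat_lit 7) (.e (nat_lit 409646) (nat_lit 18) (.e (nat_lit 303140) (nat_lit 10) (.e (nat_lit 434199) (nat_lit 18) (.e (nat_lit 5966) (nat_lit 324) (.e (nat_lit 163844) (nat_lit 0) (.e (nat_lit 3471) (nat_lit 217) .nil)))))))) (.g (nat_lit 1) (.e (nat_lit 439686) (nat_lit 0) .nil) .nil)))) 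
(.nd (nat_lit 9) 
(.lf (nat_lit 607658) (.g (nat_lit 3184) (.e (nat_lit 696343) (nat_lit 8) (.e (nat_lit 172082) (nat_lit 7) (.e (nat_lit 409646) (nat_lit 18) (.e (nat_lit 303140) (nat_lit 10) (.e (nat_lit 434200) (nat_lit 18) (.e (nat_lit 5968) (nat_lit 324) (.e (nat_lit 163844) (nat_lit 0) (.e (nat_lit 3471) (nat_lit 217) .nil)))))))) (.g (nat_lit 1) (.e (nat_lit 439194) (nat_lit 0) .nil) .nil))) 
(.lf (nat_lit 608170) (.g (nat_lit 3035) (.e (nat_lit 704589) (nat_lit 3) (.e (nat_lit 163975) (nat_lit 30) (.e (nat_lit 573491) (nat_lit 15) (.e (nat_lit 81954) (nat_lit 23) (.e (nat_lit 98356) (nat_lit 26) (.e (nat_lit 426420) (nat_lit 15) (.e (nat_lit 2056) (nat_lit 142) .nil))))))) (.g (nat_lit 1) (.e (nat_lit 440402) (nat_lit 0) .nil) .nil)))))) 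
(.nd (nat_lit 7) (.nd (nat_lit 8) (.nd (nat_lit 9) 
(.lf (nat_lit 607338) (.g (nat_lit 1242) (.e (nat_lit 819219) (nat_lit 4) (.e (nat_lit 172113) (nat_lit 10) (.e (nat_lit 434245) (nat_lit 28) (.e (nat_lit 573503) (nat_lit 18) .nil)))) (.g (nat_lit 0) (.e (nat_lit 437590) (nat_lit 0) .nil) .nil))) 
(.lf (nat_lit 607850) (.g (nat_lit 4465) (.e (nat_lit 696344) (nat_lit 8) (.e (nat_lit 172078) (nat_lit 7) (.e (nat_lit 409649) (nat_lit 18) (.e (nat_lit 303140) (nat_lit 10) (.e (nat_lit 434275) (nat_lit 39) (.e (nat_lit 663574) (nat_lit 9) (.e (nat_lit 2472) (nat_lit 157) (.e (nat_lit 3469) (nat_lit 217) .nil)))))))) (.g (nat_lit 1) (.e (nat_lit 439551) (nat_lit 0) .nil) .nil)))) 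
(.nd (nat_lit 9) 
(.lf (nat_lit 607594) (.g (nat_lit 2457) (.e (nat_lit 696343) (nat_lit 8) (.e (nat_lit 172065) (nat_lit 3) (.e (nat_lit 204870) (nat_lit 29) (.e (nat_lit 360473) (nat_lit 8) (.e (nat_lit 557090) (nat_lit 12) (.e (nat_lit 164020) (nat_lit 45) .nil)))))) (.g (nat_lit 1) (.e (nat_lit 439054) (nat_lit 0) .nil) .nil))) 
(.lf (nat_lit 608106) (.g (nat_lit 5054) (.e (nat_lit 704589) (nat_lit 3) (.e (nat_lit 163975) (nat_lit 30) (.e (nat_lit 573481) (nat_lit 13) (.e (nat_lit 65604) (nat_lit 9) (.e (nat_lit 336013) (nat_lit 2) (.e (nat_lit 90169) (nat_lit 13) (.e (nat_lit 172133) (nat_lit 15) (.e (nat_lit 2059) (nat_lit 142) .nil)))))))) (.g (nat_lit 1) (.e (nat_lit 440335) (nat_lit 0) .nil) .nil))))) 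
(.nd (nat_lit 8) (.nd (nat_lit 9) 
(.lf (nat_lit 607466) (.g (nat_lit 2340) (.e (nat_lit 688166) (nat_lit 15) (.e (nat_lit 57478) (nat_lit 28) (.e (nat_lit 557105) (nat_lit 14) (.e (nat_lit 180252) (nat_lit 10) (.e (nat_lit 573481) (nat_lit 13) .nil))))) (.g (nat_lit 0) (.e (nat_lit 438169) (nat_lit 0) .nil) .nil))) 
(.lf (nat_lit 607978) (.g (nat_lit 1409) (.e (nat_lit 696344) (nat_lit 8) (.e (nat_lit 172106) (nat_lit 10) (.e (nat_lit 434209) (nat_lit 18) (.e (nat_lit 6428) (nat_lit 342) .nil)))) (.g (nat_lit 0) (.e (nat_lit 439779) (nat_lit 0) .nil) .nil)))) (.nd (nat_lit 9) 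
(.lf (nat_lit 607722) (.g (nat_lit 1856) (.e (nat_lit 696343) (nat_lit 8) (.e (nat_lit 172113) (nat_lit 10) (.e (nat_lit 434203) (nat_lit 18) (.e (nat_lit 6416) (nat_lit 341) (.e (nat_lit 163932) (nat_lit 17) (.e (nat_lit 466967) (nat_lit 20) (.e (nat_lit 3464) (nat_lit 217) .nil))))))) (.g (nat_lit 1) (.e (nat_lit 439331) (nat_lit 0) .nil) .nil))) 
(.lf (nat_lit 608234) (.g (nat_lit 3944) (.e (nat_lit 704589) (nat_lit 3) (.e (nat_lit 163975) (nat_lit 30) (.e (nat_lit 573492) (nat_lit 15) (.e (nat_lit 81956) (nat_lit 23) (.e (nat_lit 98356) (nat_lit 26) (.e (nat_lit 426420) (nat_lit 15) (.e (nat_lit 2057) (nat_lit 142) .nil))))))) (.g (nat_lit 1) (.e (nat_lit 440570) (nat_lit 0) .nil) .nil)))))))) 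
(.nd (nat_lit 5) (.nd (nat_lit 6) (.nd (nat_lit 7) (.nd (nat_lit 8) (.nd (nat_lit 9) 
(.lf (nat_lit 607258) (.g (nat_lit 1216) (.e (nat_lit 811012) (nat_lit 0) (.e (nat_lit 5779) (nat_lit 317) (.e (nat_lit 180241) (nat_lit 4) (.e (nat_lit 524340) (nat_lit 28) (.e (nat_lit 352287) (nat_lit 20) (.e (nat_lit 2384) (nat_lit 155) .nil)))))) (.g (nat_lit 1) (.e (nat_lit 437104) (nat_lit 0) .nil) .nil))) 
(.lf (nat_lit 607770) (.g (nat_lit 2716) (.e (nat_lit 696343) (nat_lit 8) (.e (nat_lit 172123) (nat_lit 13) (.e (nat_lit 483412) (nat_lit 27) (.e (nat_lit 401434) (nat_lit 9) (.e (nat_lit 425986) (nat_lit 0) (.e (nat_lit 3471) (nat_lit 217) .nil)))))) (.g (nat_lit 1) (.e (nat_lit 439461) (nat_lit 0) .nil) .nil)))) (.nd (nat_lit 9) 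
(.lf (nat_lit 607514) (.g (nat_lit 2986) (.e (nat_lit 696328) (nat_lit 5) (.e (nat_lit 2884) (nat_lit 184) (.e (nat_lit 426140) (nat_lit 3) (.e (nat_lit 204869) (nat_lit 29) (.e (nat_lit 360474) (nat_lit 8) (.e (nat_lit 557094) (nat_lit 12) (.e (nat_lit 164018) (nat_lit 45) .nil))))))) (.g (nat_lit 1) (.e (nat_lit 438372) (nat_lit 0) .nil) .nil))) 
(.lf (nat_lit 608026) (.g (nat_lit 1322) (.e (nat_lit 696344) (nat_lit 8) (.e (nat_lit 172115) (nat_lit 10) (.e (nat_lit 434209) (nat_lit 18) (.e (nat_lit 6272) (nat_lit 337) .nil)))) (.g (nat_lit 0) (.e (nat_lit 439875) (nat_lit 0) .nil) .nil))))) (.nd (nat_lit 8) (.nd (nat_lit 9) 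
(.lf (nat_lit 607386) (.g (nat_lit 3260) (.e (nat_lit 679968) (nat_lit 13) (.e (nat_lit 2663) (nat_lit 167) (.e (nat_lit 196666) (nat_lit 13) (.e (nat_lit 65610) (nat_lit 10) (.e (nat_lit 344117) (nat_lit 21) .nil))))) (.g (nat_lit 0) (.e (nat_lit 437717) (nat_lit 0) .nil) .nil))) 
(.lf (nat_lit 607898) (.g (nat_lit 2347) (.e (nat_lit 696344) (nat_lit 8) (.e (nat_lit 172082) (nat_lit 7) (.e (nat_lit 409646) (nat_lit 18) (.e (nat_lit 303133) (nat_lit 9) (.e (nat_lit 426032) (nat_lit 0) (.e (nat_lit 2450) (nat_lit 157) (.e (nat_lit 5965) (nat_lit 324) (.e (nat_lit 163844) (nat_lit 0) (.e (nat_lit 3471) (nat_lit 217) .nil))))))))) (.g (nat_lit 1) (.e (nat_lit 439649) (nat_lit 0) .nil) .nil)))) 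
(.nd (nat_lit 9) 
(.lf (nat_lit 607642) (.g (nat_lit 2506) (.e (nat_lit 696343) (nat_lit 8) (.e (nat_lit 172082) (nat_lit 7) (.e (nat_lit 409646) (nat_lit 18) (.e (nat_lit 303133) (nat_lit 9) (.e (nat_lit 426042) (nat_lit 0) (.e (nat_lit 2429) (nat_lit 157) (.e (nat_lit 5965) (nat_lit 324) (.e (nat_lit 163844) (nat_lit 0) (.e (nat_lit 3471) (nat_lit 217) .nil))))))))) (.g (nat_lit 1) (.e (nat_lit 439150) (nat_lit 0) .nil) .nil))) 
(.lf (nat_lit 608154) (.g (nat_lit 2204) (.e (nat_lit 704589) (nat_lit 3) (.e (nat_lit 163975) (nat_lit 30) (.e (nat_lit 573491) (nat_lit 15) (.e (nat_lit 81954) (nat_lit 23) (.e (nat_lit 98356) (nat_lit 26) (.e (nat_lit 426361) (nat_lit 15) (.e (nat_lit 2055) (nat_lit 142) .nil))))))) (.g (nat_lit 1) (.e (nat_lit 440386) (nat_lit 0) .nil) .nil)))))) 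
(.nd (nat_lit 7) (.nd (nat_lit 8) (.nd (nat_lit 9) 
(.lf (nat_lit 607322) (.g (nat_lit 1180) (.e (nat_lit 819219) (nat_lit 4) (.e (nat_lit 172079) (nat_lit 7) (.e (nat_lit 409609) (nat_lit 10) (.e (nat_lit 632) (nat_lit 50) (.e (nat_lit 573491) (nat_lit 15) .nil))))) (.g (nat_lit 0) (.e (nat_lit 437529) (nat_lit 0) .nil) .nil))) 
(.lf (nat_lit 607834) (.g (nat_lit 4602) (.e (nat_lit 696344) (nat_lit 8) (.e (nat_lit 172067) (nat_lit 3) (.e (nat_lit 204869) (nat_lit 29) (.e (nat_lit 360475) (nat_lit 8) (.e (nat_lit 557068) (nat_lit 9) (.e (nat_lit 2430) (nat_lit 157) (.e (nat_lit 3471) (nat_lit 217) .nil))))))) (.g (nat_lit 1) (.e (nat_lit 439534) (nat_lit 0) .nil) .nil)))) (.nd (nat_lit 9) 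
(.lf (nat_lit 607578) (.g (nat_lit 3642) (.e (nat_lit 696343) (nat_lit 8) (.e (nat_lit 172065) (nat_lit 3) (.e (nat_lit 204855) (nat_lit 26) (.e (nat_lit 336176) (nat_lit 10) (.e (nat_lit 344132) (nat_lit 26) (.e (nat_lit 557093) (nat_lit 12) (.e (nat_lit 164018) (nat_lit 45) .nil))))))) (.g (nat_lit 1) (.e (nat_lit 439037) (nat_lit 0) .nil) .nil))) 
(.lf (nat_lit 608090) (.g (nat_lit 954) (.e (nat_lit 696348) (nat_lit 12) (.e (nat_lit 237590) (nat_lit 2) (.e (nat_lit 196681) (nat_lit 17) (.e (nat_lit 131123) (nat_lit 12) .nil)))) (.g (nat_lit 0) (.e (nat_lit 440153) (nat_lit 0) .nil) .nil))))) (.nd (nat_lit 8) (.nd (nat_lit 9) 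
(.lf (nat_lit 607450) (.g (nat_lit 1824) (.e (nat_lit 688139) (nat_lit 5) (.e (nat_lit 3085) (nat_lit 191) (.e (nat_lit 483337) (nat_lit 9) (.e (nat_lit 426275) (nat_lit 10) (.e (nat_lit 434229) (nat_lit 22) .nil))))) (.g (nat_lit 0) (.e (nat_lit 437942) (nat_lit 0) .nil) .nil))) 
(.lf (nat_lit 607962) (.g (nat_lit 1337) (.e (nat_lit 696344) (nat_lit 8) (.e (nat_lit 172106) (nat_lit 10) (.e (nat_lit 434209) (nat_lit 18) (.e (nat_lit 6273) (nat_lit 337) .nil)))) (.g (nat_lit 0) (.e (nat_lit 439759) (nat_lit 0) .nil) .nil)))) (.nd (nat_lit 9) 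
(.lf (nat_lit 607706) (.g (nat_lit 2059) (.e (nat_lit 696343) (nat_lit 8) (.e (nat_lit 172106) (nat_lit 10) (.e (nat_lit 434209) (nat_lit 18) (.e (nat_lit 6428) (nat_lit 342) (.e (nat_lit 229412) (nat_lit 14) (.e (nat_lit 442411) (nat_lit 20) (.e (nat_lit 3467) (nat_lit 217) .nil))))))) (.g (nat_lit 1) (.e (nat_lit 439295) (nat_lit 0) .nil) .nil))) 
(.lf (nat_lit 608218) (.g (nat_lit 3359) (.e (nat_lit 704589) (nat_lit 3) (.e (nat_lit 163975) (nat_lit 30) (.e (nat_lit 573492) (nat_lit 15) (.e (nat_lit 81956) (nat_lit 23) (.e (nat_lit 98356) (nat_lit 26) (.e (nat_lit 426361) (nat_lit 15) (.e (nat_lit 2064) (nat_lit 142) .nil))))))) (.g (nat_lit 1) (.e (nat_lit 440554) (nat_lit 0) .nil) .nil))))))) 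
(.nd (nat_lit 6) (.nd (nat_lit 7) (.nd (nat_lit 8) (.nd (nat_lit 9) 
(.lf (nat_lit 607290) (.g (nat_lit 1244) (.e (nat_lit 819203) (nat_lit 0) (.e (nat_lit 3015) (nat_lit 187) (.e (nat_lit 450584) (nat_lit 9) (.e (nat_lit 573184) (nat_lit 6) .nil)))) (.g (nat_lit 0) (.e (nat_lit 437298) (nat_lit 0) .nil) .nil))) 
(.lf (nat_lit 607802) (.g (nat_lit 4822) (.e (nat_lit 696344) (nat_lit 8) (.e (nat_lit 172064) (nat_lit 2) (.e (nat_lit 196666) (nat_lit 13) (.e (nat_lit 65617) (nat_lit 10) (.e (nat_lit 344130) (nat_lit 26) (.e (nat_lit 557090) (nat_lit 12) (.e (nat_lit 164019) (nat_lit 45) .nil))))))) (.g (nat_lit 1) (.e (nat_lit 439499) (nat_lit 0) .nil) .nil)))) (.nd (nat_lit 9) 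
(.lf (nat_lit 607546) (.g (nat_lit 3120) (.e (nat_lit 696329) (nat_lit 5) (.e (nat_lit 3004) (nat_lit 186) (.e (nat_lit 442390) (nat_lit 11) (.e (nat_lit 336232) (nat_lit 14) (.e (nat_lit 401448) (nat_lit 10) (.e (nat_lit 434289) (nat_lit 43) .nil)))))) (.g (nat_lit 1) (.e (nat_lit 438483) (nat_lit 0) .nil) .nil))) 
(.lf (nat_lit 608058) (.g (nat_lit 1041) (.e (nat_lit 696344) (nat_lit 8) (.e (nat_lit 172123) (nat_lit 13) (.e (nat_lit 483410) (nat_lit 27) (.e (nat_lit 401440) (nat_lit 9) .nil)))) (.g (nat_lit 0) (.e (nat_lit 439921) (nat_lit 0) .nil) .nil))))) (.nd (nat_lit 8) (.nd (nat_lit 9) 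
(.lf (nat_lit 607418) (.g (nat_lit 638) (.e (nat_lit 688139) (nat_lit 5) (.e (nat_lit 2887) (nat_lit 184) (.e (nat_lit 426276) (nat_lit 10) .nil))) (.g (nat_lit 0) (.e (nat_lit 437855) (nat_lit 0) .nil) .nil))) 
(.lf (nat_lit 607930) (.g (nat_lit 1981) (.e (nat_lit 696344) (nat_lit 8) (.e (nat_lit 172082) (nat_lit 7) (.e (nat_lit 409646) (nat_lit 18) (.e (nat_lit 303143) (nat_lit 12) (.e (nat_lit 475197) (nat_lit 40) .nil))))) (.g (nat_lit 0) (.e (nat_lit 439703) (nat_lit 0) .nil) .nil)))) (.nd (nat_lit 9) 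
(.lf (nat_lit 607674) (.g (nat_lit 2730) (.e (nat_lit 696343) (nat_lit 8) (.e (nat_lit 172082) (nat_lit 7) (.e (nat_lit 409648) (nat_lit 18) (.e (nat_lit 303137) (nat_lit 10) (.e (nat_lit 434275) (nat_lit 39) (.e (nat_lit 663580) (nat_lit 9) (.e (nat_lit 2478) (nat_lit 157) (.e (nat_lit 3464) (nat_lit 217) .nil)))))))) (.g (nat_lit 1) (.e (nat_lit 439235) (nat_lit 0) .nil) .nil))) 
(.lf (nat_lit 608186) (.g (nat_lit 4420) (.e (nat_lit 704589) (nat_lit 3) (.e (nat_lit 163975) (nat_lit 30) (.e (nat_lit 573492) (nat_lit 15) (.e (nat_lit 81953) (nat_lit 22) (.e (nat_lit 90166) (nat_lit 13) (.e (nat_lit 172138) (nat_lit 15) (.e (nat_lit 2058) (nat_lit 142) .nil))))))) (.g (nat_lit 1) (.e (nat_lit 440502) (nat_lit 0) .nil) .nil)))))) 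
(.nd (nat_lit 7) (.nd (nat_lit 8) (.nd (nat_lit 9) 
(.lf (nat_lit 607354) (.g (nat_lit 1311) (.e (nat_lit 819221) (nat_lit 6) (.e (nat_lit 188438) (nat_lit 20) (.e (nat_lit 3289) (nat_lit 201) (.e (nat_lit 565267) (nat_lit 4) (.e (nat_lit 65617) (nat_lit 10) (.e (nat_lit 344183) (nat_lit 49) .nil)))))) (.g (nat_lit 1) (.e (nat_lit 437632) (nat_lit 0) .nil) .nil))) 
(.lf (nat_lit 607866) (.g (nat_lit 2450) (.e (nat_lit 696344) (nat_lit 8) (.e (nat_lit 172079) (nat_lit 7) (.e (nat_lit 409645) (nat_lit 18) (.e (nat_lit 303137) (nat_lit 10) (.e (nat_lit 434200) (nat_lit 18) .nil))))) (.g (nat_lit 0) (.e (nat_lit 439595) (nat_lit 0) .nil) .nil)))) (.nd (nat_lit 9) 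
(.lf (nat_lit 607610) (.g (nat_lit 2737) (.e (nat_lit 696343) (nat_lit 8) (.e (nat_lit 172067) (nat_lit 3) (.e (nat_lit 204869) (nat_lit 29) (.e (nat_lit 360473) (nat_lit 8) (.e (nat_lit 557091) (nat_lit 12) (.e (nat_lit 164020) (nat_lit 45) .nil)))))) (.g (nat_lit 1) (.e (nat_lit 439073) (nat_lit 0) .nil) .nil))) 
(.lf (nat_lit 608122) (.g (nat_lit 4546) (.e (nat_lit 704589) (nat_lit 3) (.e (nat_lit 163975) (nat_lit 30) (.e (nat_lit 573481) (nat_lit 13) (.e (nat_lit 65619) (nat_lit 10) (.e (nat_lit 344117) (nat_lit 21) (.e (nat_lit 516145) (nat_lit 9) (.e (nat_lit 426374) (nat_lit 15) (.e (nat_lit 2059) (nat_lit 142) .nil)))))))) (.g (nat_lit 1) (.e (nat_lit 440352) (nat_lit 0) .nil) .nil))))) 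
(.nd (nat_lit 8) (.nd (nat_lit 9) 
(.lf (nat_lit 607482) (.g (nat_lit 3384) (.e (nat_lit 688167) (nat_lit 15) (.e (nat_lit 57479) (nat_lit 28) (.e (nat_lit 557105) (nat_lit 14) (.e (nat_lit 180252) (nat_lit 10) (.e (nat_lit 573487) (nat_lit 14) (.e (nat_lit 73747) (nat_lit 3) (.e (nat_lit 516100) (nat_lit 0) (.e (nat_lit 7936) (nat_lit 216) .nil)))))))) (.g (nat_lit 1) (.e (nat_lit 438186) (nat_lit 0) .nil) .nil))) 
(.lf (nat_lit 607994) (.g (nat_lit 2034) (.e (nat_lit 696344) (nat_lit 8) (.e (nat_lit 172107) (nat_lit 10) (.e (nat_lit 434289) (nat_lit 43) (.e (nat_lit 696346) (nat_lit 10) (.e (nat_lit 188438) (nat_lit 20) (.e (nat_lit 3467) (nat_lit 217) .nil)))))) (.g (nat_lit 1) (.e (nat_lit 439803) (nat_lit 0) .nil) .nil)))) (.nd (nat_lit 9) 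
(.lf (nat_lit 607738) (.g (nat_lit 2300) (.e (nat_lit 696343) (nat_lit 8) (.e (nat_lit 172113) (nat_lit 10) (.e (nat_lit 434208) (nat_lit 18) (.e (nat_lit 6420) (nat_lit 341) (.e (nat_lit 163932) (nat_lit 17) (.e (nat_lit 466967) (nat_lit 20) (.e (nat_lit 3464) (nat_lit 217) .nil))))))) (.g (nat_lit 1) (.e (nat_lit 439378) (nat_lit 0) .nil) .nil))) 
(.lf (nat_lit 608250) (.g (nat_lit 3799) (.e (nat_lit 704589) (nat_lit 3) (.e (nat_lit 163975) (nat_lit 30) (.e (nat_lit 573492) (nat_lit 15) (.e (nat_lit 81956) (nat_lit 23) (.e (nat_lit 98384) (nat_lit 32) (.e (nat_lit 475195) (nat_lit 40) .nil)))))) (.g (nat_lit 1) (.e (nat_lit 440586) (nat_lit 0) .nil) .nil)))))))))) 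
(.nd (nat_lit 3) (.nd (nat_lit 4) (.nd (nat_lit 5) (.nd (nat_lit 6) (.nd (nat_lit 7) 
(.nd (nat_lit 8) (.nd (nat_lit 9) 
(.lf (nat_lit 607238) (.g (nat_lit 2097) (.e (nat_lit 802840) (nat_lit 22) (.e (nat_lit 196654) (nat_lit 11) (.e (nat_lit 16436) (nat_lit 9) (.e (nat_lit 426131) (nat_lit 3) (.e (nat_lit 204880) (nat_lit 32) .nil))))) (.g (nat_lit 0) (.e (nat_lit 437052) (nat_lit 0) .nil) .nil))) 
(.lf (nat_lit 607750) (.g (nat_lit 468) (.e (nat_lit 696343) (nat_lit 8) (.e (nat_lit 172115) (nat_lit 10) (.e (nat_lit 434209) (nat_lit 18) .nil))) (.g (nat_lit 0) (.e (nat_lit 439406) (nat_lit 0) .nil) .nil)))) (.nd (nat_lit 9) 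
(.lf (nat_lit 607494) (.g (nat_lit 3081) (.e (nat_lit 688178) (nat_lit 16) (.e (nat_lit 65568) (nat_lit 2) (.e (nat_lit 90170) (nat_lit 13) (.e (nat_lit 172106) (nat_lit 10) (.e (nat_lit 434231) (nat_lit 23) (.e (nat_lit 540416) (nat_lit 17) (.e (nat_lit 3460) (nat_lit 216) .nil))))))) (.g (nat_lit 1) (.e (nat_lit 438232) (nat_lit 0) .nil) .nil))) 
(.lf (nat_lit 608006) (.g (nat_lit 4097) (.e (nat_lit 696344) (nat_lit 8) (.e (nat_lit 172113) (nat_lit 10) (.e (nat_lit 434203) (nat_lit 18) (.e (nat_lit 6255) (nat_lit 337) (.e (nat_lit 2653) (nat_lit 166) (.e (nat_lit 188440) (nat_lit 20) (.e (nat_lit 3469) (nat_lit 217) .nil))))))) (.g (nat_lit 1) (.e (nat_lit 439824) (nat_lit 0) .nil) .nil))))) (.nd (nat_lit 8) (.nd (nat_lit 9) 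
(.lf (nat_lit 607366) (.g (nat_lit 2172) (.e (nat_lit 819221) (nat_lit 6) (.e (nat_lit 188441) (nat_lit 20) (.e (nat_lit 3289) (nat_lit 201) (.e (nat_lit 565269) (nat_lit 6) (.e (nat_lit 81946) (nat_lit 20) (.e (nat_lit 2391) (nat_lit 156) .nil)))))) (.g (nat_lit 1) (.e (nat_lit 437644) (nat_lit 0) .nil) .nil))) 
(.lf (nat_lit 607878) (.g (nat_lit 4617) (.e (nat_lit 696344) (nat_lit 8) (.e (nat_lit 172079) (nat_lit 7) (.e (nat_lit 409648) (nat_lit 18) (.e (nat_lit 303137) (nat_lit 10) (.e (nat_lit 434275) (nat_lit 39) (.e (nat_lit 663574) (nat_lit 9) (.e (nat_lit 2467) (nat_lit 157) (.e (nat_lit 3469) (nat_lit 217) .nil)))))))) (.g (nat_lit 1) (.e (nat_lit 439626) (nat_lit 0) .nil) .nil)))) 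
(.nd (nat_lit 9) 
(.lf (nat_lit 607622) (.g (nat_lit 2251) (.e (nat_lit 696343) (nat_lit 8) (.e (nat_lit 172079) (nat_lit 7) (.e (nat_lit 409645) (nat_lit 18) (.e (nat_lit 303133) (nat_lit 9) (.e (nat_lit 426042) (nat_lit 0) (.e (nat_lit 2448) (nat_lit 157) (.e (nat_lit 5965) (nat_lit 324) (.e (nat_lit 163844) (nat_lit 0) (.e (nat_lit 3471) (nat_lit 217) .nil))))))))) (.g (nat_lit 1) (.e (nat_lit 439091) (nat_lit 0) .nil) .nil))) 
(.lf (nat_lit 608134) (.g (nat_lit 3582) (.e (nat_lit 704589) (nat_lit 3) (.e (nat_lit 163975) (nat_lit 30) (.e (nat_lit 573482) (nat_lit 13) (.e (nat_lit 65619) (nat_lit 10) (.e (nat_lit 344117) (nat_lit 21) (.e (nat_lit 516151) (nat_lit 9) (.e (nat_lit 426396) (nat_lit 15) (.e (nat_lit 2059) (nat_lit 142) .nil)))))))) (.g (nat_lit 1) (.e (nat_lit 440364) (nat_lit 0) .nil) .nil)))))) 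
(.nd (nat_lit 7) (.nd (nat_lit 8) (.nd (nat_lit 9) 
(.lf (nat_lit 607302) (.g (nat_lit 270) (.e (nat_lit 819204) (nat_lit 0) (.e (nat_lit 2999) (nat_lit 186) (.e (nat_lit 450304) (nat_lit 2) .nil))) (.g (nat_lit 0) (.e (nat_lit 437388) (nat_lit 0) .nil) .nil))) 
(.lf (nat_lit 607814) (.g (nat_lit 4131) (.e (nat_lit 696344) (nat_lit 8) (.e (nat_lit 172066) (nat_lit 3) (.e (nat_lit 204869) (nat_lit 29) (.e (nat_lit 360475) (nat_lit 8) (.e (nat_lit 557090) (nat_lit 12) (.e (nat_lit 164020) (nat_lit 45) .nil)))))) (.g (nat_lit 1) (.e (nat_lit 439512) (nat_lit 0) .nil) .nil)))) (.nd (nat_lit 9) 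
(.lf (nat_lit 607558) (.g (nat_lit 3878) (.e (nat_lit 696343) (nat_lit 8) (.e (nat_lit 172062) (nat_lit 2) (.e (nat_lit 196666) (nat_lit 13) (.e (nat_lit 65610) (nat_lit 10) (.e (nat_lit 344129) (nat_lit 26) (.e (nat_lit 557090) (nat_lit 12) (.e (nat_lit 164019) (nat_lit 45) .nil))))))) (.g (nat_lit 1) (.e (nat_lit 439016) (nat_lit 0) .nil) .nil))) 
(.lf (nat_lit 608070) (.g (nat_lit 3625) (.e (nat_lit 696345) (nat_lit 9) (.e (nat_lit 180246) (nat_lit 6) (.e (nat_lit 540706) (nat_lit 12) (.e (nat_lit 360475) (nat_lit 8) (.e (nat_lit 557090) (nat_lit 12) (.e (nat_lit 164020) (nat_lit 45) .nil)))))) (.g (nat_lit 1) (.e (nat_lit 439963) (nat_lit 0) .nil) .nil))))) (.nd (nat_lit 8) (.nd (nat_lit 9) 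
(.lf (nat_lit 607430) (.g (nat_lit 1061) (.e (nat_lit 688139) (nat_lit 5) (.e (nat_lit 3062) (nat_lit 190) (.e (nat_lit 475179) (nat_lit 24) (.e (nat_lit 516150) (nat_lit 9) .nil)))) (.g (nat_lit 0) (.e (nat_lit 437922) (nat_lit 0) .nil) .nil))) 
(.lf (nat_lit 607942) (.g (nat_lit 2570) (.e (nat_lit 696344) (nat_lit 8) (.e (nat_lit 172082) (nat_lit 7) (.e (nat_lit 409649) (nat_lit 18) (.e (nat_lit 303140) (nat_lit 10) (.e (nat_lit 434200) (nat_lit 18) (.e (nat_lit 5965) (nat_lit 324) (.e (nat_lit 163844) (nat_lit 0) (.e (nat_lit 3471) (nat_lit 217) .nil)))))))) (.g (nat_lit 1) (.e (nat_lit 439724) (nat_lit 0) .nil) .nil)))) 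
(.nd (nat_lit 9) 
(.lf (nat_lit 607686) (.g (nat_lit 342) (.e (nat_lit 696343) (nat_lit 8) (.e (nat_lit 172106) (nat_lit 10) (.e (nat_lit 434202) (nat_lit 18) .nil))) (.g (nat_lit 0) (.e (nat_lit 439257) (nat_lit 0) .nil) .nil))) 
(.lf (nat_lit 608198) (.g (nat_lit 2892) (.e (nat_lit 704589) (nat_lit 3) (.e (nat_lit 163975) (nat_lit 30) (.e (nat_lit 573492) (nat_lit 15) (.e (nat_lit 81956) (nat_lit 23) (.e (nat_lit 98355) (nat_lit 26) (.e (nat_lit 426416) (nat_lit 15) (.e (nat_lit 2059) (nat_lit 142) .nil))))))) (.g (nat_lit 1) (.e (nat_lit 440534) (nat_lit 0) .nil) .nil))))))) 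
(.nd (nat_lit 6) (.nd (nat_lit 7) (.nd (nat_lit 8) (.nd (nat_lit 9) 
(.lf (nat_lit 607270) (.g (nat_lit 546) (.e (nat_lit 811029) (nat_lit 9) (.e (nat_lit 303140) (nat_lit 10) (.e (nat_lit 434228) (nat_lit 22) (.e (nat_lit 532224) (nat_lit 29) .nil)))) (.g (nat_lit 0) (.e (nat_lit 437167) (nat_lit 0) .nil) .nil))) 
(.lf (nat_lit 607782) (.g (nat_lit 2016) (.e (nat_lit 696343) (nat_lit 8) (.e (nat_lit 172126) (nat_lit 14) (.e (nat_lit 491566) (nat_lit 12) (.e (nat_lit 385104) (nat_lit 50) (.e (nat_lit 786460) (nat_lit 20) .nil))))) (.g (nat_lit 0) (.e (nat_lit 439478) (nat_lit 0) .nil) .nil)))) (.nd (nat_lit 9) 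
(.lf (nat_lit 607526) (.g (nat_lit 2479) (.e (nat_lit 696328) (nat_lit 5) (.e (nat_lit 3004) (nat_lit 186) (.e (nat_lit 442390) (nat_lit 11) (.e (nat_lit 336232) (nat_lit 14) (.e (nat_lit 401448) (nat_lit 10) (.e (nat_lit 434287) (nat_lit 43) .nil)))))) (.g (nat_lit 1) (.e (nat_lit 438392) (nat_lit 0) .nil) .nil))) 
(.lf (nat_lit 608038) (.g (nat_lit 1856) (.e (nat_lit 696344) (nat_lit 8) (.e (nat_lit 172115) (nat_lit 10) (.e (nat_lit 434209) (nat_lit 18) (.e (nat_lit 6427) (nat_lit 342) (.e (nat_lit 229402) (nat_lit 12) .nil))))) (.g (nat_lit 0) (.e (nat_lit 439888) (nat_lit 0) .nil) .nil))))) (.nd (nat_lit 8) (.nd (nat_lit 9) 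
(.lf (nat_lit 607398) (.g (nat_lit 551) (.e (nat_lit 688138) (nat_lit 5) (.e (nat_lit 2887) (nat_lit 184) (.e (nat_lit 426290) (nat_lit 10) .nil))) (.g (nat_lit 0) (.e (nat_lit 437790) (nat_lit 0) .nil) .nil))) 
(.lf (nat_lit 607910) (.g (nat_lit 2817) (.e (nat_lit 696344) (nat_lit 8) (.e (nat_lit 172082) (nat_lit 7) (.e (nat_lit 409646) (nat_lit 18) (.e (nat_lit 303135) (nat_lit 10) (.e (nat_lit 434275) (nat_lit 39) (.e (nat_lit 663585) (nat_lit 12) (.e (nat_lit 164018) (nat_lit 45) .nil))))))) (.g (nat_lit 1) (.e (nat_lit 439682) (nat_lit 0) .nil) .nil)))) (.nd (nat_lit 9) 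
(.lf (nat_lit 607654) (.g (nat_lit 1883) (.e (nat_lit 696343) (nat_lit 8) (.e (nat_lit 172082) (nat_lit 7) (.e (nat_lit 409646) (nat_lit 18) (.e (nat_lit 303139) (nat_lit 10) .nil)))) (.g (nat_lit 0) (.e (nat_lit 439190) (nat_lit 0) .nil) .nil))) 
(.lf (nat_lit 608166) (.g (nat_lit 3031) (.e (nat_lit 704589) (nat_lit 3) (.e (nat_lit 163975) (nat_lit 30) (.e (nat_lit 573491) (nat_lit 15) (.e (nat_lit 81954) (nat_lit 23) (.e (nat_lit 98356) (nat_lit 26) (.e (nat_lit 426376) (nat_lit 15) (.e (nat_lit 2057) (nat_lit 142) .nil))))))) (.g (nat_lit 1) (.e (nat_lit 440398) (nat_lit 0) .nil) .nil)))))) 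
(.nd (nat_lit 7) (.nd (nat_lit 8) (.nd (nat_lit 9) 
(.lf (nat_lit 607334) (.g (nat_lit 2157) (.e (nat_lit 819219) (nat_lit 4) (.e (nat_lit 172106) (nat_lit 10) (.e (nat_lit 434241) (nat_lit 27) (.e (nat_lit 565267) (nat_lit 4) (.e (nat_lit 65610) (nat_lit 10) (.e (nat_lit 344183) (nat_lit 49) .nil)))))) (.g (nat_lit 1) (.e (nat_lit 437582) (nat_lit 0) .nil) .nil))) 
(.lf (nat_lit 607846) (.g (nat_lit 2351) (.e (nat_lit 696344) (nat_lit 8) (.e (nat_lit 172078) (nat_lit 7) (.e (nat_lit 409648) (nat_lit 18) (.e (nat_lit 303137) (nat_lit 10) (.e (nat_lit 434275) (nat_lit 39) (.e (nat_lit 663580) (nat_lit 9) (.e (nat_lit 2478) (nat_lit 157) (.e (nat_lit 3464) (nat_lit 217) .nil)))))))) (.g (nat_lit 1) (.e (nat_lit 439547) (nat_lit 0) .nil) .nil)))) 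
(.nd (nat_lit 9) 
(.lf (nat_lit 607590) (.g (nat_lit 2558) (.e (nat_lit 696343) (nat_lit 8) (.e (nat_lit 172065) (nat_lit 3) (.e (nat_lit 204869) (nat_lit 29) (.e (nat_lit 360475) (nat_lit 8) (.e (nat_lit 557089) (nat_lit 12) (.e (nat_lit 164019) (nat_lit 45) .nil)))))) (.g (nat_lit 1) (.e (nat_lit 439050) (nat_lit 0) .nil) .nil))) 
(.lf (nat_lit 608102) (.g (nat_lit 1497) (.e (nat_lit 704588) (nat_lit 3) (.e (nat_lit 163979) (nat_lit 30) (.e (nat_lit 573492) (nat_lit 15) (.e (nat_lit 81956) (nat_lit 23) .nil)))) (.g (nat_lit 0) (.e (nat_lit 440310) (nat_lit 0) .nil) .nil))))) (.nd (nat_lit 8) (.nd (nat_lit 9) 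
(.lf (nat_lit 607462) (.g (nat_lit 3883) (.e (nat_lit 688166) (nat_lit 15) (.e (nat_lit 57477) (nat_lit 28) (.e (nat_lit 557104) (nat_lit 14) (.e (nat_lit 180252) (nat_lit 10) (.e (nat_lit 573482) (nat_lit 13) (.e (nat_lit 65569) (nat_lit 3) (.e (nat_lit 98321) (nat_lit 17) (.e (nat_lit 7936) (nat_lit 216) .nil)))))))) (.g (nat_lit 1) (.e (nat_lit 438165) (nat_lit 0) .nil) .nil))) 
(.lf (nat_lit 607974) (.g (nat_lit 2898) (.e (nat_lit 696344) (nat_lit 8) (.e (nat_lit 172106) (nat_lit 10) (.e (nat_lit 434209) (nat_lit 18) (.e (nat_lit 6426) (nat_lit 342) (.e (nat_lit 229412) (nat_lit 14) (.e (nat_lit 442411) (nat_lit 20) (.e (nat_lit 3468) (nat_lit 217) .nil))))))) (.g (nat_lit 1) (.e (nat_lit 439775) (nat_lit 0) .nil) .nil)))) (.nd (nat_lit 9) 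
(.lf (nat_lit 607718) (.g (nat_lit 1922) (.e (nat_lit 696343) (nat_lit 8) (.e (nat_lit 172112) (nat_lit 10) (.e (nat_lit 434289) (nat_lit 43) (.e (nat_lit 696346) (nat_lit 10) (.e (nat_lit 188435) (nat_lit 20) (.e (nat_lit 3468) (nat_lit 217) .nil)))))) (.g (nat_lit 1) (.e (nat_lit 439316) (nat_lit 0) .nil) .nil))) 
(.lf (nat_lit 608230) (.g (nat_lit 3960) (.e (nat_lit 704589) (nat_lit 3) (.e (nat_lit 163975) (nat_lit 30) (.e (nat_lit 573492) (nat_lit 15) (.e (nat_lit 81956) (nat_lit 23) (.e (nat_lit 98356) (nat_lit 26) (.e (nat_lit 426379) (nat_lit 15) (.e (nat_lit 2058) (nat_lit 142) .nil))))))) (.g (nat_lit 1) (.e (nat_lit 440566) (nat_lit 0) .nil) .nil)))))))) 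
(.nd (nat_lit 5) (.nd (nat_lit 6) (.nd (nat_lit 7) (.nd (nat_lit 8) (.nd (nat_lit 9) 
(.lf (nat_lit 607254) (.g (nat_lit 696) (.e (nat_lit 811012) (nat_lit 0) (.e (nat_lit 5777) (nat_lit 317) (.e (nat_lit 180241) (nat_lit 4) (.e (nat_lit 524340) (nat_lit 28) (.e (nat_lit 352286) (nat_lit 20) (.e (nat_lit 2384) (nat_lit 155) .nil)))))) (.g (nat_lit 1) (.e (nat_lit 437099) (nat_lit 0) .nil) .nil))) 
(.lf (nat_lit 607766) (.g (nat_lit 1744) (.e (nat_lit 696343) (nat_lit 8) (.e (nat_lit 172123) (nat_lit 13) (.e (nat_lit 483410) (nat_lit 27) (.e (nat_lit 401440) (nat_lit 9) (.e (nat_lit 426041) (nat_lit 0) .nil))))) (.g (nat_lit 0) (.e (nat_lit 439453) (nat_lit 0) .nil) .nil)))) (.nd (nat_lit 9) 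
(.lf (nat_lit 607510) (.g (nat_lit 4373) (.e (nat_lit 696328) (nat_lit 5) (.e (nat_lit 2884) (nat_lit 184) (.e (nat_lit 426125) (nat_lit 2) (.e (nat_lit 196666) (nat_lit 13) (.e (nat_lit 65617) (nat_lit 10) (.e (nat_lit 344133) (nat_lit 26) (.e (nat_lit 557091) (nat_lit 12) (.e (nat_lit 164018) (nat_lit 45) .nil)))))))) (.g (nat_lit 1) (.e (nat_lit 438364) (nat_lit 0) .nil) .nil))) 
(.lf (nat_lit 608022) (.g (nat_lit 1209) (.e (nat_lit 696344) (nat_lit 8) (.e (nat_lit 172115) (nat_lit 10) (.e (nat_lit 434202) (nat_lit 18) (.e (nat_lit 6418) (nat_lit 341) .nil)))) (.g (nat_lit 0) (.e (nat_lit 439870) (nat_lit 0) .nil) .nil))))) (.nd (nat_lit 8) (.nd (nat_lit 9) 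
(.lf (nat_lit 607382) (.g (nat_lit 1003) (.e (nat_lit 819237) (nat_lit 11) (.e (nat_lit 16468) (nat_lit 13) (.e (nat_lit 483372) (nat_lit 21) (.e (nat_lit 319533) (nat_lit 16) .nil)))) (.g (nat_lit 0) (.e (nat_lit 437683) (nat_lit 0) .nil) .nil))) 
(.lf (nat_lit 607894) (.g (nat_lit 2736) (.e (nat_lit 696344) (nat_lit 8) (.e (nat_lit 172081) (nat_lit 7) (.e (nat_lit 409649) (nat_lit 18) (.e (nat_lit 303140) (nat_lit 10) (.e (nat_lit 434275) (nat_lit 39) (.e (nat_lit 663579) (nat_lit 9) (.e (nat_lit 2427) (nat_lit 157) (.e (nat_lit 3471) (nat_lit 217) .nil)))))))) (.g (nat_lit 1) (.e (nat_lit 439642) (nat_lit 0) .nil) .nil)))) 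
(.nd (nat_lit 9) 
(.lf (nat_lit 607638) (.g (nat_lit 2402) (.e (nat_lit 696343) (nat_lit 8) (.e (nat_lit 172082) (nat_lit 7) (.e (nat_lit 409646) (nat_lit 18) (.e (nat_lit 303133) (nat_lit 9) (.e (nat_lit 426032) (nat_lit 0) (.e (nat_lit 2441) (nat_lit 157) (.e (nat_lit 5965) (nat_lit 324) (.e (nat_lit 163844) (nat_lit 0) (.e (nat_lit 3471) (nat_lit 217) .nil))))))))) (.g (nat_lit 1) (.e (nat_lit 439146) (nat_lit 0) .nil) .nil))) 
(.lf (nat_lit 608150) (.g (nat_lit 2568) (.e (nat_lit 704589) (nat_lit 3) (.e (nat_lit 163975) (nat_lit 30) (.e (nat_lit 573491) (nat_lit 15) (.e (nat_lit 81954) (nat_lit 23) (.e (nat_lit 98356) (nat_lit 26) (.e (nat_lit 426360) (nat_lit 15) (.e (nat_lit 2047) (nat_lit 142) .nil))))))) (.g (nat_lit 1) (.e (nat_lit 440382) (nat_lit 0) .nil) .nil)))))) 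
(.nd (nat_lit 7) (.nd (nat_lit 8) (.nd (nat_lit 9) 
(.lf (nat_lit 607318) (.g (nat_lit 1698) (.e (nat_lit 819217) (nat_lit 4) (.e (nat_lit 172115) (nat_lit 10) (.e (nat_lit 434244) (nat_lit 28) (.e (nat_lit 573503) (nat_lit 18) .nil)))) (.g (nat_lit 0) (.e (nat_lit 437516) (nat_lit 0) .nil) .nil))) 
(.lf (nat_lit 607830) (.g (nat_lit 4784) (.e (nat_lit 696344) (nat_lit 8) (.e (nat_lit 172067) (nat_lit 3) (.e (nat_lit 204868) (nat_lit 29) (.e (nat_lit 360475) (nat_lit 8) (.e (nat_lit 557091) (nat_lit 12) (.e (nat_lit 164019) (nat_lit 45) .nil)))))) (.g (nat_lit 1) (.e (nat_lit 439530) (nat_lit 0) .nil) .nil)))) (.nd (nat_lit 9) 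
(.lf (nat_lit 607574) (.g (nat_lit 4510) (.e (nat_lit 696343) (nat_lit 8) (.e (nat_lit 172064) (nat_lit 2) (.e (nat_lit 196666) (nat_lit 13) (.e (nat_lit 65610) (nat_lit 10) (.e (nat_lit 344129) (nat_lit 26) (.e (nat_lit 557090) (nat_lit 12) (.e (nat_lit 164019) (nat_lit 45) .nil))))))) (.g (nat_lit 1) (.e (nat_lit 439032) (nat_lit 0) .nil) .nil))) 
(.lf (nat_lit 608086) (.g (nat_lit 2352) (.e (nat_lit 696348) (nat_lit 12) (.e (nat_lit 237590) (nat_lit 2) (.e (nat_lit 196666) (nat_lit 13) (.e (nat_lit 65617) (nat_lit 10) (.e (nat_lit 344132) (nat_lit 26) (.e (nat_lit 557094) (nat_lit 12) (.e (nat_lit 164018) (nat_lit 45) .nil))))))) (.g (nat_lit 1) (.e (nat_lit 440143) (nat_lit 0) .nil) .nil))))) (.nd (nat_lit 8) (.nd (nat_lit 9) 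
(.lf (nat_lit 607446) (.g (nat_lit 2213) (.e (nat_lit 688139) (nat_lit 5) (.e (nat_lit 3062) (nat_lit 190) (.e (nat_lit 475179) (nat_lit 24) (.e (nat_lit 516176) (nat_lit 14) (.e (nat_lit 466948) (nat_lit 0) (.e (nat_lit 7936) (nat_lit 360) (.e (nat_lit 164017) (nat_lit 44) .nil))))))) (.g (nat_lit 1) (.e (nat_lit 437938) (nat_lit 0) .nil) .nil))) 
(.lf (nat_lit 607958) (.g (nat_lit 1417) (.e (nat_lit 696344) (nat_lit 8) (.e (nat_lit 172106) (nat_lit 10) (.e (nat_lit 434209) (nat_lit 18) (.e (nat_lit 6270) (nat_lit 337) .nil)))) (.g (nat_lit 0) (.e (nat_lit 439755) (nat_lit 0) .nil) .nil)))) (.nd (nat_lit 9) 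
(.lf (nat_lit 607702) (.g (nat_lit 2007) (.e (nat_lit 696343) (nat_lit 8) (.e (nat_lit 172106) (nat_lit 10) (.e (nat_lit 434209) (nat_lit 18) (.e (nat_lit 6426) (nat_lit 342) (.e (nat_lit 229412) (nat_lit 14) .nil))))) (.g (nat_lit 0) (.e (nat_lit 439287) (nat_lit 0) .nil) .nil))) 
(.lf (nat_lit 608214) (.g (nat_lit 3469) (.e (nat_lit 704589) (nat_lit 3) (.e (nat_lit 163975) (nat_lit 30) (.e (nat_lit 573492) (nat_lit 15) (.e (nat_lit 81956) (nat_lit 23) (.e (nat_lit 98356) (nat_lit 26) (.e (nat_lit 426360) (nat_lit 15) (.e (nat_lit 2097) (nat_lit 142) .nil))))))) (.g (nat_lit 1) (.e (nat_lit 440550) (nat_lit 0) .nil) .nil))))))) 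
(.nd (nat_lit 6) (.nd (nat_lit 7) (.nd (nat_lit 8) (.nd (nat_lit 9) 
(.lf (nat_lit 607286) (.g (nat_lit 1057) (.e (nat_lit 819202) (nat_lit 0) (.e (nat_lit 3027) (nat_lit 187) (.e (nat_lit 450584) (nat_lit 9) (.e (nat_lit 565252) (nat_lit 0) .nil)))) (.g (nat_lit 0) (.e (nat_lit 437259) (nat_lit 0) .nil) .nil))) 
(.lf (nat_lit 607798) (.g (nat_lit 2117) (.e (nat_lit 696344) (nat_lit 8) (.e (nat_lit 172064) (nat_lit 2) (.e (nat_lit 196666) (nat_lit 13) (.e (nat_lit 65610) (nat_lit 10) (.e (nat_lit 344129) (nat_lit 26) (.e (nat_lit 557067) (nat_lit 9) (.e (nat_lit 2469) (nat_lit 157) (.e (nat_lit 3467) (nat_lit 217) .nil)))))))) (.g (nat_lit 1) (.e (nat_lit 439495) (nat_lit 0) .nil) .nil)))) 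
(.nd (nat_lit 9) 
(.lf (nat_lit 607542) (.g (nat_lit 2714) (.e (nat_lit 696329) (nat_lit 5) (.e (nat_lit 2988) (nat_lit 186) (.e (nat_lit 442390) (nat_lit 11) (.e (nat_lit 336232) (nat_lit 14) (.e (nat_lit 401446) (nat_lit 10) (.e (nat_lit 434289) (nat_lit 43) .nil)))))) (.g (nat_lit 1) (.e (nat_lit 438472) (nat_lit 0) .nil) .nil))) 
(.lf (nat_lit 608054) (.g (nat_lit 1915) (.e (nat_lit 696344) (nat_lit 8) (.e (nat_lit 172116) (nat_lit 10) (.e (nat_lit 434289) (nat_lit 43) (.e (nat_lit 696346) (nat_lit 10) (.e (nat_lit 188435) (nat_lit 20) (.e (nat_lit 3467) (nat_lit 217) .nil)))))) (.g (nat_lit 1) (.e (nat_lit 439909) (nat_lit 0) .nil) .nil))))) (.nd (nat_lit 8) (.nd (nat_lit 9) 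
(.lf (nat_lit 607414) (.g (nat_lit 2657) (.e (nat_lit 688139) (nat_lit 5) (.e (nat_lit 2887) (nat_lit 184) (.e (nat_lit 426140) (nat_lit 3) (.e (nat_lit 204868) (nat_lit 29) (.e (nat_lit 360473) (nat_lit 8) (.e (nat_lit 557094) (nat_lit 12) (.e (nat_lit 164016) (nat_lit 44) .nil))))))) (.g (nat_lit 1) (.e (nat_lit 437849) (nat_lit 0) .nil) .nil))) 
(.lf (nat_lit 607926) (.g (nat_lit 2224) (.e (nat_lit 696344) (nat_lit 8) (.e (nat_lit 172082) (nat_lit 7) (.e (nat_lit 409646) (nat_lit 18) (.e (nat_lit 303140) (nat_lit 10) (.e (nat_lit 434275) (nat_lit 39) (.e (nat_lit 663580) (nat_lit 9) (.e (nat_lit 2515) (nat_lit 157) (.e (nat_lit 3464) (nat_lit 217) .nil)))))))) (.g (nat_lit 1) (.e (nat_lit 439698) (nat_lit 0) .nil) .nil)))) 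
(.nd (nat_lit 9) 
(.lf (nat_lit 607670) (.g (nat_lit 1317) (.e (nat_lit 696343) (nat_lit 8) (.e (nat_lit 172082) (nat_lit 7) (.e (nat_lit 409646) (nat_lit 18) (.e (nat_lit 303143) (nat_lit 12) .nil)))) (.g (nat_lit 0) (.e (nat_lit 439207) (nat_lit 0) .nil) .nil))) 
(.lf (nat_lit 608182) (.g (nat_lit 3747) (.e (nat_lit 704589) (nat_lit 3) (.e (nat_lit 163975) (nat_lit 30) (.e (nat_lit 573492) (nat_lit 15) (.e (nat_lit 81953) (nat_lit 22) (.e (nat_lit 90166) (nat_lit 13) .nil))))) (.g (nat_lit 0) (.e (nat_lit 440498) (nat_lit 0) .nil) .nil)))))) (.nd (nat_lit 7) (.nd (nat_lit 8) (.nd (nat_lit 9) 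
(.lf (nat_lit 607350) (.g (nat_lit 1851) (.e (nat_lit 819221) (nat_lit 6) (.e (nat_lit 188435) (nat_lit 20) (.e (nat_lit 3289) (nat_lit 201) (.e (nat_lit 565269) (nat_lit 6) (.e (nat_lit 81946) (nat_lit 20) (.e (nat_lit 2391) (nat_lit 156) .nil)))))) (.g (nat_lit 1) (.e (nat_lit 437628) (nat_lit 0) .nil) .nil))) 
(.lf (nat_lit 607862) (.g (nat_lit 3611) (.e (nat_lit 696344) (nat_lit 8) (.e (nat_lit 172079) (nat_lit 7) (.e (nat_lit 409645) (nat_lit 18) (.e (nat_lit 303135) (nat_lit 10) (.e (nat_lit 434275) (nat_lit 39) (.e (nat_lit 663574) (nat_lit 9) (.e (nat_lit 2467) (nat_lit 157) (.e (nat_lit 3469) (nat_lit 217) .nil)))))))) (.g (nat_lit 1) (.e (nat_lit 439591) (nat_lit 0) .nil) .nil)))) 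
(.nd (nat_lit 9) 
(.lf (nat_lit 607606) (.g (nat_lit 4711) (.e (nat_lit 696343) (nat_lit 8) (.e (nat_lit 172067) (nat_lit 3) (.e (nat_lit 204868) (nat_lit 29) (.e (nat_lit 360475) (nat_lit 8) (.e (nat_lit 557091) (nat_lit 12) (.e (nat_lit 164018) (nat_lit 45) .nil)))))) (.g (nat_lit 1) (.e (nat_lit 439069) (nat_lit 0) .nil) .nil))) 
(.lf (nat_lit 608118) (.g (nat_lit 3606) (.e (nat_lit 704589) (nat_lit 3) (.e (nat_lit 163975) (nat_lit 30) (.e (nat_lit 573481) (nat_lit 13) (.e (nat_lit 65619) (nat_lit 10) (.e (nat_lit 344117) (nat_lit 21) (.e (nat_lit 516144) (nat_lit 9) (.e (nat_lit 426376) (nat_lit 15) (.e (nat_lit 2059) (nat_lit 142) .nil)))))))) (.g (nat_lit 1) (.e (nat_lit 440348) (nat_lit 0) .nil) .nil))))) 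
(.nd (nat_lit 8) (.nd (nat_lit 9) 
(.lf (nat_lit 607478) (.g (nat_lit 3191) (.e (nat_lit 688166) (nat_lit 15) (.e (nat_lit 57479) (nat_lit 28) (.e (nat_lit 557105) (nat_lit 14) (.e (nat_lit 180252) (nat_lit 10) (.e (nat_lit 573487) (nat_lit 14) (.e (nat_lit 73747) (nat_lit 3) (.e (nat_lit 516101) (nat_lit 0) (.e (nat_lit 3454) (nat_lit 216) .nil)))))))) (.g (nat_lit 1) (.e (nat_lit 438181) (nat_lit 0) .nil) .nil))) 
(.lf (nat_lit 607990) (.g (nat_lit 2040) (.e (nat_lit 696344) (nat_lit 8) (.e (nat_lit 172107) (nat_lit 10) (.e (nat_lit 434289) (nat_lit 43) (.e (nat_lit 696344) (nat_lit 8) (.e (nat_lit 172106) (nat_lit 10) (.e (nat_lit 434287) (nat_lit 43) .nil)))))) (.g (nat_lit 1) (.e (nat_lit 439799) (nat_lit 0) .nil) .nil)))) (.nd (nat_lit 9) 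
(.lf (nat_lit 607734) (.g (nat_lit 1058) (.e (nat_lit 696343) (nat_lit 8) (.e (nat_lit 172113) (nat_lit 10) (.e (nat_lit 434208) (nat_lit 18) (.e (nat_lit 6416) (nat_lit 341) .nil)))) (.g (nat_lit 0) (.e (nat_lit 439371) (nat_lit 0) .nil) .nil))) 
(.lf (nat_lit 608246) (.g (nat_lit 4229) (.e (nat_lit 704589) (nat_lit 3) (.e (nat_lit 163975) (nat_lit 30) (.e (nat_lit 573492) (nat_lit 15) (.e (nat_lit 81956) (nat_lit 23) (.e (nat_lit 98362) (nat_lit 26) (.e (nat_lit 426411) (nat_lit 15) (.e (nat_lit 2058) (nat_lit 142) .nil))))))) (.g (nat_lit 1) (.e (nat_lit 440582) (nat_lit 0) .nil) .nil))))))))) 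
(.nd (nat_lit 4) (.nd (nat_lit 5) (.nd (nat_lit 6) (.nd (nat_lit 7) (.nd (nat_lit 8) 
(.nd (nat_lit 9) 
(.lf (nat_lit 607246) (.g (nat_lit 893) (.e (nat_lit 811011) (nat_lit 0) (.e (nat_lit 5777) (nat_lit 317) (.e (nat_lit 180241) (nat_lit 4) (.e (nat_lit 524340) (nat_lit 28) (.e (nat_lit 352283) (nat_lit 20) (.e (nat_lit 2384) (nat_lit 155) .nil)))))) (.g (nat_lit 1) (.e (nat_lit 437086) (nat_lit 0) .nil) .nil))) 
(.lf (nat_lit 607758) (.g (nat_lit 2097) (.e (nat_lit 696343) (nat_lit 8) (.e (nat_lit 172116) (nat_lit 10) (.e (nat_lit 434289) (nat_lit 43) (.e (nat_lit 696346) (nat_lit 10) (.e (nat_lit 188434) (nat_lit 20) (.e (nat_lit 3467) (nat_lit 217) .nil)))))) (.g (nat_lit 1) (.e (nat_lit 439429) (nat_lit 0) .nil) .nil)))) (.nd (nat_lit 9) 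
(.lf (nat_lit 607502) (.g (nat_lit 1268) (.e (nat_lit 688186) (nat_lit 18) (.e (nat_lit 89856) (nat_lit 0) (.e (nat_lit 3604) (nat_lit 225) (.e (nat_lit 761912) (nat_lit 18) (.e (nat_lit 196352) (nat_lit 0) (.e (nat_lit 2032) (nat_lit 140) .nil)))))) (.g (nat_lit 1) (.e (nat_lit 438251) (nat_lit 0) .nil) .nil))) 
(.lf (nat_lit 608014) (.g (nat_lit 2283) (.e (nat_lit 696344) (nat_lit 8) (.e (nat_lit 172113) (nat_lit 10) (.e (nat_lit 434289) (nat_lit 43) (.e (nat_lit 696346) (nat_lit 10) (.e (nat_lit 188435) (nat_lit 20) (.e (nat_lit 3468) (nat_lit 217) .nil)))))) (.g (nat_lit 1) (.e (nat_lit 439856) (nat_lit 0) .nil) .nil))))) (.nd (nat_lit 8) (.nd (nat_lit 9) 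
(.lf (nat_lit 607374) (.g (nat_lit 1765) (.e (nat_lit 819237) (nat_lit 11) (.e (nat_lit 16438) (nat_lit 9) (.e (nat_lit 426482) (nat_lit 27) (.e (nat_lit 336060) (nat_lit 7) (.e (nat_lit 319534) (nat_lit 16) .nil))))) (.g (nat_lit 0) (.e (nat_lit 437675) (nat_lit 0) .nil) .nil))) 
(.lf (nat_lit 607886) (.g (nat_lit 2832) (.e (nat_lit 696344) (nat_lit 8) (.e (nat_lit 172079) (nat_lit 7) (.e (nat_lit 409649) (nat_lit 18) (.e (nat_lit 303140) (nat_lit 10) (.e (nat_lit 434275) (nat_lit 39) (.e (nat_lit 663584) (nat_lit 12) (.e (nat_lit 164019) (nat_lit 45) .nil))))))) (.g (nat_lit 1) (.e (nat_lit 439634) (nat_lit 0) .nil) .nil)))) (.nd (nat_lit 9) 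
(.lf (nat_lit 607630) (.g (nat_lit 2792) (.e (nat_lit 696343) (nat_lit 8) (.e (nat_lit 172079) (nat_lit 7) (.e (nat_lit 409649) (nat_lit 18) (.e (nat_lit 303140) (nat_lit 10) (.e (nat_lit 434275) (nat_lit 39) .nil))))) (.g (nat_lit 0) (.e (nat_lit 439131) (nat_lit 0) .nil) .nil))) 
(.lf (nat_lit 608142) (.g (nat_lit 1781) (.e (nat_lit 704589) (nat_lit 3) (.e (nat_lit 163975) (nat_lit 30) (.e (nat_lit 573491) (nat_lit 15) (.e (nat_lit 81954) (nat_lit 23) (.e (nat_lit 98355) (nat_lit 26) (.e (nat_lit 426375) (nat_lit 15) (.e (nat_lit 2056) (nat_lit 142) .nil))))))) (.g (nat_lit 1) (.e (nat_lit 440374) (nat_lit 0) .nil) .nil)))))) 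
(.nd (nat_lit 7) (.nd (nat_lit 8) (.nd (nat_lit 9) 
(.lf (nat_lit 607310) (.g (nat_lit 2205) (.e (nat_lit 819204) (nat_lit 0) (.e (nat_lit 3027) (nat_lit 187) (.e (nat_lit 450584) (nat_lit 9) (.e (nat_lit 565252) (nat_lit 0) (.e (nat_lit 1595) (nat_lit 111) (.e (nat_lit 360493) (nat_lit 27) .nil)))))) (.g (nat_lit 1) (.e (nat_lit 437469) (nat_lit 0) .nil) .nil))) 
(.lf (nat_lit 607822) (.g (nat_lit 3716) (.e (nat_lit 696344) (nat_lit 8) (.e (nat_lit 172067) (nat_lit 3) (.e (nat_lit 204868) (nat_lit 29) (.e (nat_lit 360473) (nat_lit 8) (.e (nat_lit 557089) (nat_lit 12) (.e (nat_lit 164019) (nat_lit 45) .nil)))))) (.g (nat_lit 1) (.e (nat_lit 439522) (nat_lit 0) .nil) .nil)))) (.nd (nat_lit 9) 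
(.lf (nat_lit 607566) (.g (nat_lit 2285) (.e (nat_lit 696343) (nat_lit 8) (.e (nat_lit 172062) (nat_lit 2) (.e (nat_lit 196666) (nat_lit 13) (.e (nat_lit 65617) (nat_lit 10) (.e (nat_lit 344133) (nat_lit 26) (.e (nat_lit 557089) (nat_lit 12) (.e (nat_lit 164019) (nat_lit 45) .nil))))))) (.g (nat_lit 1) (.e (nat_lit 439024) (nat_lit 0) .nil) .nil))) 
(.lf (nat_lit 608078) (.g (nat_lit 3287) (.e (nat_lit 696348) (nat_lit 12) (.e (nat_lit 237589) (nat_lit 2) (.e (nat_lit 196666) (nat_lit 13) (.e (nat_lit 65617) (nat_lit 10) (.e (nat_lit 344130) (nat_lit 26) (.e (nat_lit 557090) (nat_lit 12) (.e (nat_lit 164018) (nat_lit 45) .nil))))))) (.g (nat_lit 1) (.e (nat_lit 440135) (nat_lit 0) .nil) .nil))))) (.nd (nat_lit 8) (.nd (nat_lit 9) 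
(.lf (nat_lit 607438) (.g (nat_lit 1895) (.e (nat_lit 688139) (nat_lit 5) (.e (nat_lit 3062) (nat_lit 190) (.e (nat_lit 475179) (nat_lit 24) (.e (nat_lit 516164) (nat_lit 11) (.e (nat_lit 442391) (nat_lit 19) .nil))))) (.g (nat_lit 0) (.e (nat_lit 437930) (nat_lit 0) .nil) .nil))) 
(.lf (nat_lit 607950) (.g (nat_lit 2616) (.e (nat_lit 696344) (nat_lit 8) (.e (nat_lit 172082) (nat_lit 7) (.e (nat_lit 409649) (nat_lit 18) (.e (nat_lit 303140) (nat_lit 10) (.e (nat_lit 434275) (nat_lit 39) (.e (nat_lit 663579) (nat_lit 9) (.e (nat_lit 2422) (nat_lit 157) (.e (nat_lit 3471) (nat_lit 217) .nil)))))))) (.g (nat_lit 1) (.e (nat_lit 439732) (nat_lit 0) .nil) .nil)))) 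
(.nd (nat_lit 9) 
(.lf (nat_lit 607694) (.g (nat_lit 2808) (.e (nat_lit 696343) (nat_lit 8) (.e (nat_lit 172106) (nat_lit 10) (.e (nat_lit 434209) (nat_lit 18) (.e (nat_lit 6273) (nat_lit 337) (.e (nat_lit 2645) (nat_lit 166) (.e (nat_lit 188434) (nat_lit 20) (.e (nat_lit 3467) (nat_lit 217) .nil))))))) (.g (nat_lit 1) (.e (nat_lit 439273) (nat_lit 0) .nil) .nil))) 
(.lf (nat_lit 608206) (.g (nat_lit 3398) (.e (nat_lit 704589) (nat_lit 3) (.e (nat_lit 163975) (nat_lit 30) (.e (nat_lit 573492) (nat_lit 15) (.e (nat_lit 81956) (nat_lit 23) (.e (nat_lit 98356) (nat_lit 26) (.e (nat_lit 426354) (nat_lit 15) (.e (nat_lit 2064) (nat_lit 142) .nil))))))) (.g (nat_lit 1) (.e (nat_lit 440542) (nat_lit 0) .nil) .nil))))))) 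
(.nd (nat_lit 6) (.nd (nat_lit 7) (.nd (nat_lit 8) (.nd (nat_lit 9) 
(.lf (nat_lit 607278) (.g (nat_lit 3917) (.e (nat_lit 811045) (nat_lit 14) (.e (nat_lit 40996) (nat_lit 11) (.e (nat_lit 24665) (nat_lit 14) (.e (nat_lit 401460) (nat_lit 14) (.e (nat_lit 491566) (nat_lit 12) (.e (nat_lit 385113) (nat_lit 53) .nil)))))) (.g (nat_lit 1) (.e (nat_lit 437198) (nat_lit 0) .nil) .nil))) 
(.lf (nat_lit 607790) (.g (nat_lit 3205) (.e (nat_lit 696344) (nat_lit 8) (.e (nat_lit 172062) (nat_lit 2) (.e (nat_lit 196666) (nat_lit 13) (.e (nat_lit 65617) (nat_lit 10) (.e (nat_lit 344132) (nat_lit 26) (.e (nat_lit 557089) (nat_lit 12) (.e (nat_lit 164020) (nat_lit 45) .nil))))))) (.g (nat_lit 1) (.e (nat_lit 439487) (nat_lit 0) .nil) .nil)))) (.nd (nat_lit 9) 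
(.lf (nat_lit 607534) (.g (nat_lit 4361) (.e (nat_lit 696329) (nat_lit 5) (.e (nat_lit 2884) (nat_lit 184) (.e (nat_lit 426140) (nat_lit 3) (.e (nat_lit 204869) (nat_lit 29) (.e (nat_lit 360475) (nat_lit 8) (.e (nat_lit 557091) (nat_lit 12) (.e (nat_lit 164020) (nat_lit 45) .nil))))))) (.g (nat_lit 1) (.e (nat_lit 438453) (nat_lit 0) .nil) .nil))) 
(.lf (nat_lit 608046) (.g (nat_lit 2790) (.e (nat_lit 696344) (nat_lit 8) (.e (nat_lit 172115) (nat_lit 10) (.e (nat_lit 434289) (nat_lit 43) (.e (nat_lit 696346) (nat_lit 10) (.e (nat_lit 188434) (nat_lit 20) (.e (nat_lit 3467) (nat_lit 217) .nil)))))) (.g (nat_lit 1) (.e (nat_lit 439901) (nat_lit 0) .nil) .nil))))) (.nd (nat_lit 8) (.nd (nat_lit 9) 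
(.lf (nat_lit 607406) (.g (nat_lit 2511) (.e (nat_lit 688138) (nat_lit 5) (.e (nat_lit 3062) (nat_lit 190) (.e (nat_lit 475179) (nat_lit 24) (.e (nat_lit 516176) (nat_lit 14) (.e (nat_lit 466946) (nat_lit 0) (.e (nat_lit 7936) (nat_lit 360) (.e (nat_lit 164017) (nat_lit 44) .nil))))))) (.g (nat_lit 1) (.e (nat_lit 437828) (nat_lit 0) .nil) .nil))) 
(.lf (nat_lit 607918) (.g (nat_lit 2812) (.e (nat_lit 696344) (nat_lit 8) (.e (nat_lit 172082) (nat_lit 7) (.e (nat_lit 409646) (nat_lit 18) (.e (nat_lit 303140) (nat_lit 10) (.e (nat_lit 434202) (nat_lit 18) (.e (nat_lit 5966) (nat_lit 324) (.e (nat_lit 163844) (nat_lit 0) (.e (nat_lit 3471) (nat_lit 217) .nil)))))))) (.g (nat_lit 1) (.e (nat_lit 439690) (nat_lit 0) .nil) .nil)))) 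
(.nd (nat_lit 9) 
(.lf (nat_lit 607662) (.g (nat_lit 3022) (.e (nat_lit 696343) (nat_lit 8) (.e (nat_lit 172082) (nat_lit 7) (.e (nat_lit 409646) (nat_lit 18) (.e (nat_lit 303140) (nat_lit 10) (.e (nat_lit 434206) (nat_lit 18) (.e (nat_lit 5968) (nat_lit 324) (.e (nat_lit 163844) (nat_lit 0) (.e (nat_lit 3471) (nat_lit 217) .nil)))))))) (.g (nat_lit 1) (.e (nat_lit 439198) (nat_lit 0) .nil) .nil))) 
(.lf (nat_lit 608174) (.g (nat_lit 1740) (.e (nat_lit 704589) (nat_lit 3) (.e (nat_lit 163975) (nat_lit 30) (.e (nat_lit 573491) (nat_lit 15) (.e (nat_lit 81954) (nat_lit 23) (.e (nat_lit 98362) (nat_lit 26) (.e (nat_lit 426412) (nat_lit 15) (.e (nat_lit 2056) (nat_lit 142) .nil))))))) (.g (nat_lit 1) (.e (nat_lit 440406) (nat_lit 0) .nil) .nil)))))) 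
(.nd (nat_lit 7) (.nd (nat_lit 8) (.nd (nat_lit 9) 
(.lf (nat_lit 607342) (.g (nat_lit 744) (.e (nat_lit 819219) (nat_lit 4) (.e (nat_lit 172115) (nat_lit 10) (.e (nat_lit 434241) (nat_lit 27) (.e (nat_lit 565269) (nat_lit 6) .nil)))) (.g (nat_lit 0) (.e (nat_lit 437610) (nat_lit 0) .nil) .nil))) 
(.lf (nat_lit 607854) (.g (nat_lit 2908) (.e (nat_lit 696344) (nat_lit 8) (.e (nat_lit 172078) (nat_lit 7) (.e (nat_lit 409649) (nat_lit 18) (.e (nat_lit 303140) (nat_lit 10) (.e (nat_lit 434275) (nat_lit 39) (.e (nat_lit 663579) (nat_lit 9) (.e (nat_lit 2427) (nat_lit 157) (.e (nat_lit 3471) (nat_lit 217) .nil)))))))) (.g (nat_lit 1) (.e (nat_lit 439555) (nat_lit 0) .nil) .nil)))) 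
(.nd (nat_lit 9) 
(.lf (nat_lit 607598) (.g (nat_lit 1204) (.e (nat_lit 696343) (nat_lit 8) (.e (nat_lit 172067) (nat_lit 3) (.e (nat_lit 204868) (nat_lit 29) (.e (nat_lit 360473) (nat_lit 8) .nil)))) (.g (nat_lit 0) (.e (nat_lit 439061) (nat_lit 0) .nil) .nil))) 
(.lf (nat_lit 608110) (.g (nat_lit 4002) (.e (nat_lit 704589) (nat_lit 3) (.e (nat_lit 163975) (nat_lit 30) (.e (nat_lit 573481) (nat_lit 13) (.e (nat_lit 65609) (nat_lit 10) (.e (nat_lit 344117) (nat_lit 21) (.e (nat_lit 516151) (nat_lit 9) (.e (nat_lit 426412) (nat_lit 15) (.e (nat_lit 2056) (nat_lit 142) .nil)))))))) (.g (nat_lit 1) (.e (nat_lit 440339) (nat_lit 0) .nil) .nil))))) 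
(.nd (nat_lit 8) (.nd (nat_lit 9) 
(.lf (nat_lit 607470) (.g (nat_lit 2324) (.e (nat_lit 688166) (nat_lit 15) (.e (nat_lit 57479) (nat_lit 28) (.e (nat_lit 557103) (nat_lit 14) (.e (nat_lit 180250) (nat_lit 10) (.e (nat_lit 573482) (nat_lit 13) (.e (nat_lit 65571) (nat_lit 3) (.e (nat_lit 98321) (nat_lit 17) (.e (nat_lit 7936) (nat_lit 216) .nil)))))))) (.g (nat_lit 1) (.e (nat_lit 438173) (nat_lit 0) .nil) .nil))) 
(.lf (nat_lit 607982) (.g (nat_lit 2409) (.e (nat_lit 696344) (nat_lit 8) (.e (nat_lit 172106) (nat_lit 10) (.e (nat_lit 434288) (nat_lit 43) (.e (nat_lit 696346) (nat_lit 10) (.e (nat_lit 188440) (nat_lit 20) (.e (nat_lit 3468) (nat_lit 217) .nil)))))) (.g (nat_lit 1) (.e (nat_lit 439783) (nat_lit 0) .nil) .nil)))) (.nd (nat_lit 9) 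
(.lf (nat_lit 607726) (.g (nat_lit 1646) (.e (nat_lit 696343) (nat_lit 8) (.e (nat_lit 172113) (nat_lit 10) (.e (nat_lit 434207) (nat_lit 18) (.e (nat_lit 6416) (nat_lit 341) (.e (nat_lit 163932) (nat_lit 17) (.e (nat_lit 466967) (nat_lit 20) (.e (nat_lit 3464) (nat_lit 217) .nil))))))) (.g (nat_lit 1) (.e (nat_lit 439343) (nat_lit 0) .nil) .nil))) 
(.lf (nat_lit 608238) (.g (nat_lit 3235) (.e (nat_lit 704589) (nat_lit 3) (.e (nat_lit 163975) (nat_lit 30) (.e (nat_lit 573492) (nat_lit 15) (.e (nat_lit 81956) (nat_lit 23) (.e (nat_lit 98359) (nat_lit 26) (.e (nat_lit 426380) (nat_lit 15) (.e (nat_lit 2058) (nat_lit 142) .nil))))))) (.g (nat_lit 1) (.e (nat_lit 440574) (nat_lit 0) .nil) .nil)))))))) 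
(.nd (nat_lit 5) (.nd (nat_lit 6) (.nd (nat_lit 7) (.nd (nat_lit 8) (.nd (nat_lit 9) 
(.lf (nat_lit 607262) (.g (nat_lit 985) (.e (nat_lit 811018) (nat_lit 0) (.e (nat_lit 5750) (nat_lit 314) (.e (nat_lit 24640) (nat_lit 10) (.e (nat_lit 344117) (nat_lit 21) .nil)))) (.g (nat_lit 0) (.e (nat_lit 437112) (nat_lit 0) .nil) .nil))) 
(.lf (nat_lit 607774) (.g (nat_lit 2482) (.e (nat_lit 696343) (nat_lit 8) (.e (nat_lit 172123) (nat_lit 13) (.e (nat_lit 483412) (nat_lit 27) (.e (nat_lit 401444) (nat_lit 9) (.e (nat_lit 425984) (nat_lit 0) (.e (nat_lit 3471) (nat_lit 217) .nil)))))) (.g (nat_lit 1) (.e (nat_lit 439465) (nat_lit 0) .nil) .nil)))) (.nd (nat_lit 9) 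
(.lf (nat_lit 607518) (.g (nat_lit 3369) (.e (nat_lit 696328) (nat_lit 5) (.e (nat_lit 2980) (nat_lit 185) (.e (nat_lit 434231) (nat_lit 23) (.e (nat_lit 532549) (nat_lit 12) (.e (nat_lit 360473) (nat_lit 8) (.e (nat_lit 557091) (nat_lit 12) (.e (nat_lit 164018) (nat_lit 45) .nil))))))) (.g (nat_lit 1) (.e (nat_lit 438379) (nat_lit 0) .nil) .nil))) 
(.lf (nat_lit 608030) (.g (nat_lit 1778) (.e (nat_lit 696344) (nat_lit 8) (.e (nat_lit 172115) (nat_lit 10) (.e (nat_lit 434209) (nat_lit 18) (.e (nat_lit 6273) (nat_lit 337) (.e (nat_lit 2646) (nat_lit 166) (.e (nat_lit 188440) (nat_lit 20) (.e (nat_lit 3467) (nat_lit 217) .nil))))))) (.g (nat_lit 1) (.e (nat_lit 439879) (nat_lit 0) .nil) .nil))))) (.nd (nat_lit 8) (.nd (nat_lit 9) 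
(.lf (nat_lit 607390) (.g (nat_lit 3356) (.e (nat_lit 688138) (nat_lit 5) (.e (nat_lit 2887) (nat_lit 184) (.e (nat_lit 426140) (nat_lit 3) (.e (nat_lit 204855) (nat_lit 26) (.e (nat_lit 336176) (nat_lit 10) (.e (nat_lit 344132) (nat_lit 26) (.e (nat_lit 557094) (nat_lit 12) (.e (nat_lit 164016) (nat_lit 44) .nil)))))))) (.g (nat_lit 1) (.e (nat_lit 437754) (nat_lit 0) .nil) .nil))) 
(.lf (nat_lit 607902) (.g (nat_lit 2513) (.e (nat_lit 696344) (nat_lit 8) (.e (nat_lit 172082) (nat_lit 7) (.e (nat_lit 409646) (nat_lit 18) (.e (nat_lit 303133) (nat_lit 9) (.e (nat_lit 426042) (nat_lit 0) (.e (nat_lit 2442) (nat_lit 157) (.e (nat_lit 5965) (nat_lit 324) (.e (nat_lit 163844) (nat_lit 0) (.e (nat_lit 3471) (nat_lit 217) .nil))))))))) (.g (nat_lit 1) (.e (nat_lit 439653) (nat_lit 0) .nil) .nil)))) 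
(.nd (nat_lit 9) 
(.lf (nat_lit 607646) (.g (nat_lit 2664) (.e (nat_lit 696343) (nat_lit 8) (.e (nat_lit 172082) (nat_lit 7) (.e (nat_lit 409646) (nat_lit 18) (.e (nat_lit 303133) (nat_lit 9) (.e (nat_lit 426042) (nat_lit 0) (.e (nat_lit 2447) (nat_lit 157) (.e (nat_lit 5968) (nat_lit 324) (.e (nat_lit 163844) (nat_lit 0) (.e (nat_lit 3471) (nat_lit 217) .nil))))))))) (.g (nat_lit 1) (.e (nat_lit 439154) (nat_lit 0) .nil) .nil))) 
(.lf (nat_lit 608158) (.g (nat_lit 2740) (.e (nat_lit 704589) (nat_lit 3) (.e (nat_lit 163975) (nat_lit 30) (.e (nat_lit 573491) (nat_lit 15) (.e (nat_lit 81954) (nat_lit 23) (.e (nat_lit 98356) (nat_lit 26) (.e (nat_lit 426364) (nat_lit 15) (.e (nat_lit 2056) (nat_lit 142) .nil))))))) (.g (nat_lit 1) (.e (nat_lit 440390) (nat_lit 0) .nil) .nil)))))) 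
(.nd (nat_lit 7) (.nd (nat_lit 8) (.nd (nat_lit 9) 
(.lf (nat_lit 607326) (.g (nat_lit 384) (.e (nat_lit 819219) (nat_lit 4) (.e (nat_lit 172082) (nat_lit 7) (.e (nat_lit 409612) (nat_lit 10) .nil))) (.g (nat_lit 0) (.e (nat_lit 437537) (nat_lit 0) .nil) .nil))) 
(.lf (nat_lit 607838) (.g (nat_lit 492) (.e (nat_lit 696344) (nat_lit 8) (.e (nat_lit 172067) (nat_lit 3) (.e (nat_lit 204877) (nat_lit 31) .nil))) (.g (nat_lit 0) (.e (nat_lit 439538) (nat_lit 0) .nil) .nil)))) (.nd (nat_lit 9) 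
(.lf (nat_lit 607582) (.g (nat_lit 2193) (.e (nat_lit 696343) (nat_lit 8) (.e (nat_lit 172065) (nat_lit 3) (.e (nat_lit 204868) (nat_lit 29) (.e (nat_lit 360473) (nat_lit 8) (.e (nat_lit 557091) (nat_lit 12) (.e (nat_lit 164019) (nat_lit 45) .nil)))))) (.g (nat_lit 1) (.e (nat_lit 439042) (nat_lit 0) .nil) .nil))) 
(.lf (nat_lit 608094) (.g (nat_lit 837) (.e (nat_lit 696348) (nat_lit 12) (.e (nat_lit 237605) (nat_lit 9) (.e (nat_lit 426555) (nat_lit 32) (.e (nat_lit 376860) (nat_lit 21) .nil)))) (.g (nat_lit 0) (.e (nat_lit 440161) (nat_lit 0) .nil) .nil))))) (.nd (nat_lit 8) (.nd (nat_lit 9) 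
(.lf (nat_lit 607454) (.g (nat_lit 936) (.e (nat_lit 688139) (nat_lit 5) (.e (nat_lit 3085) (nat_lit 191) (.e (nat_lit 483338) (nat_lit 9) (.e (nat_lit 426261) (nat_lit 9) (.e (nat_lit 425995) (nat_lit 0) .nil))))) (.g (nat_lit 0) (.e (nat_lit 437947) (nat_lit 0) .nil) .nil))) 
(.lf (nat_lit 607966) (.g (nat_lit 1828) (.e (nat_lit 696344) (nat_lit 8) (.e (nat_lit 172106) (nat_lit 10) (.e (nat_lit 434209) (nat_lit 18) (.e (nat_lit 6284) (nat_lit 337) (.e (nat_lit 7936) (nat_lit 166) .nil))))) (.g (nat_lit 0) (.e (nat_lit 439764) (nat_lit 0) .nil) .nil)))) (.nd (nat_lit 9) 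
(.lf (nat_lit 607710) (.g (nat_lit 2108) (.e (nat_lit 696343) (nat_lit 8) (.e (nat_lit 172106) (nat_lit 10) (.e (nat_lit 434289) (nat_lit 43) (.e (nat_lit 696346) (nat_lit 10) (.e (nat_lit 188435) (nat_lit 20) (.e (nat_lit 3467) (nat_lit 217) .nil)))))) (.g (nat_lit 1) (.e (nat_lit 439304) (nat_lit 0) .nil) .nil))) 
(.lf (nat_lit 608222) (.g (nat_lit 3453) (.e (nat_lit 704589) (nat_lit 3) (.e (nat_lit 163975) (nat_lit 30) (.e (nat_lit 573492) (nat_lit 15) (.e (nat_lit 81956) (nat_lit 23) (.e (nat_lit 98356) (nat_lit 26) (.e (nat_lit 426363) (nat_lit 15) (.e (nat_lit 2060) (nat_lit 142) .nil))))))) (.g (nat_lit 1) (.e (nat_lit 440558) (nat_lit 0) .nil) .nil))))))) 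
(.nd (nat_lit 6) (.nd (nat_lit 7) (.nd (nat_lit 8) (.nd (nat_lit 9) 
(.lf (nat_lit 607294) (.g (nat_lit 968) (.e (nat_lit 819203) (nat_lit 0) (.e (nat_lit 3016) (nat_lit 187) (.e (nat_lit 450584) (nat_lit 9) (.e (nat_lit 565251) (nat_lit 0) .nil)))) (.g (nat_lit 0) (.e (nat_lit 437317) (nat_lit 0) .nil) .nil))) 
(.lf (nat_lit 607806) (.g (nat_lit 4020) (.e (nat_lit 696344) (nat_lit 8) (.e (nat_lit 172065) (nat_lit 3) (.e (nat_lit 204855) (nat_lit 26) (.e (nat_lit 336176) (nat_lit 10) (.e (nat_lit 344130) (nat_lit 26) (.e (nat_lit 557090) (nat_lit 12) (.e (nat_lit 164019) (nat_lit 45) .nil))))))) (.g (nat_lit 1) (.e (nat_lit 439504) (nat_lit 0) .nil) .nil)))) (.nd (nat_lit 9) 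
(.lf (nat_lit 607550) (.g (nat_lit 2733) (.e (nat_lit 696342) (nat_lit 8) (.e (nat_lit 172065) (nat_lit 3) (.e (nat_lit 204869) (nat_lit 29) (.e (nat_lit 360475) (nat_lit 8) (.e (nat_lit 557091) (nat_lit 12) .nil))))) (.g (nat_lit 0) (.e (nat_lit 438970) (nat_lit 0) .nil) .nil))) 
(.lf (nat_lit 608062) (.g (nat_lit 2982) (.e (nat_lit 696344) (nat_lit 8) (.e (nat_lit 172125) (nat_lit 14) (.e (nat_lit 491566) (nat_lit 12) (.e (nat_lit 385107) (nat_lit 51) (.e (nat_lit 794684) (nat_lit 25) .nil))))) (.g (nat_lit 0) (.e (nat_lit 439931) (nat_lit 0) .nil) .nil))))) (.nd (nat_lit 8) (.nd (nat_lit 9) 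
(.lf (nat_lit 607422) (.g (nat_lit 399) (.e (nat_lit 688139) (nat_lit 5) (.e (nat_lit 2887) (nat_lit 184) (.e (nat_lit 426286) (nat_lit 10) .nil))) (.g (nat_lit 0) (.e (nat_lit 437869) (nat_lit 0) .nil) .nil))) 
(.lf (nat_lit 607934) (.g (nat_lit 3287) (.e (nat_lit 696344) (nat_lit 8) (.e (nat_lit 172082) (nat_lit 7) (.e (nat_lit 409646) (nat_lit 18) (.e (nat_lit 303143) (nat_lit 12) (.e (nat_lit 475199) (nat_lit 40) (.e (nat_lit 704853) (nat_lit 17) (.e (nat_lit 171776) (nat_lit 106) .nil))))))) (.g (nat_lit 1) (.e (nat_lit 439711) (nat_lit 0) .nil) .nil)))) (.nd (nat_lit 9) 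
(.lf (nat_lit 607678) (.g (nat_lit 2763) (.e (nat_lit 696343) (nat_lit 8) (.e (nat_lit 172082) (nat_lit 7) (.e (nat_lit 409649) (nat_lit 18) (.e (nat_lit 303140) (nat_lit 10) (.e (nat_lit 434200) (nat_lit 18) (.e (nat_lit 5965) (nat_lit 324) (.e (nat_lit 163844) (nat_lit 0) (.e (nat_lit 3471) (nat_lit 217) .nil)))))))) (.g (nat_lit 1) (.e (nat_lit 439240) (nat_lit 0) .nil) .nil))) 
(.lf (nat_lit 608190) (.g (nat_lit 2520) (.e (nat_lit 704589) (nat_lit 3) (.e (nat_lit 163975) (nat_lit 30) (.e (nat_lit 573492) (nat_lit 15) (.e (nat_lit 81956) (nat_lit 23) (.e (nat_lit 98355) (nat_lit 26) .nil))))) (.g (nat_lit 0) (.e (nat_lit 440526) (nat_lit 0) .nil) .nil)))))) (.nd (nat_lit 7) (.nd (nat_lit 8) (.nd (nat_lit 9) 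
(.lf (nat_lit 607358) (.g (nat_lit 1467) (.e (nat_lit 819221) (nat_lit 6) (.e (nat_lit 188440) (nat_lit 20) (.e (nat_lit 3307) (nat_lit 202) (.e (nat_lit 573503) (nat_lit 18) .nil)))) (.g (nat_lit 0) (.e (nat_lit 437636) (nat_lit 0) .nil) .nil))) 
(.lf (nat_lit 607870) (.g (nat_lit 3844) (.e (nat_lit 696344) (nat_lit 8) (.e (nat_lit 172079) (nat_lit 7) (.e (nat_lit 409645) (nat_lit 18) (.e (nat_lit 303140) (nat_lit 10) (.e (nat_lit 434275) (nat_lit 39) (.e (nat_lit 663574) (nat_lit 9) (.e (nat_lit 2473) (nat_lit 157) (.e (nat_lit 3469) (nat_lit 217) .nil)))))))) (.g (nat_lit 1) (.e (nat_lit 439599) (nat_lit 0) .nil) .nil)))) 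
(.nd (nat_lit 9) 
(.lf (nat_lit 607614) (.g (nat_lit 3741) (.e (nat_lit 696343) (nat_lit 8) (.e (nat_lit 172067) (nat_lit 3) (.e (nat_lit 204869) (nat_lit 29) (.e (nat_lit 360475) (nat_lit 8) (.e (nat_lit 557091) (nat_lit 12) (.e (nat_lit 164019) (nat_lit 45) .nil)))))) (.g (nat_lit 1) (.e (nat_lit 439077) (nat_lit 0) .nil) .nil))) 
(.lf (nat_lit 608126) (.g (nat_lit 5201) (.e (nat_lit 704589) (nat_lit 3) (.e (nat_lit 163975) (nat_lit 30) (.e (nat_lit 573481) (nat_lit 13) (.e (nat_lit 65619) (nat_lit 10) (.e (nat_lit 344117) (nat_lit 21) (.e (nat_lit 516145) (nat_lit 9) (.e (nat_lit 426420) (nat_lit 15) (.e (nat_lit 2059) (nat_lit 142) .nil)))))))) (.g (nat_lit 1) (.e (nat_lit 440356) (nat_lit 0) .nil) .nil))))) 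
(.nd (nat_lit 8) (.nd (nat_lit 9) 
(.lf (nat_lit 607486) (.g (nat_lit 3883) (.e (nat_lit 688171) (nat_lit 15) (.e (nat_lit 57465) (nat_lit 23) (.e (nat_lit 516129) (nat_lit 3) (.e (nat_lit 221210) (nat_lit 22) (.e (nat_lit 196670) (nat_lit 14) (.e (nat_lit 73746) (nat_lit 3) (.e (nat_lit 516100) (nat_lit 0) (.e (nat_lit 7936) (nat_lit 216) .nil)))))))) (.g (nat_lit 1) (.e (nat_lit 438194) (nat_lit 0) .nil) .nil))) 
(.lf (nat_lit 607998) (.g (nat_lit 2183) (.e (nat_lit 696344) (nat_lit 8) (.e (nat_lit 172112) (nat_lit 10) (.e (nat_lit 434289) (nat_lit 43) (.e (nat_lit 696346) (nat_lit 10) (.e (nat_lit 188434) (nat_lit 20) (.e (nat_lit 3467) (nat_lit 217) .nil)))))) (.g (nat_lit 1) (.e (nat_lit 439807) (nat_lit 0) .nil) .nil)))) (.nd (nat_lit 9) 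
(.lf (nat_lit 607742) (.g (nat_lit 3656) (.e (nat_lit 696343) (nat_lit 8) (.e (nat_lit 172113) (nat_lit 10) (.e (nat_lit 434289) (nat_lit 43) (.e (nat_lit 696344) (nat_lit 8) (.e (nat_lit 172113) (nat_lit 10) (.e (nat_lit 434289) (nat_lit 43) .nil)))))) (.g (nat_lit 1) (.e (nat_lit 439393) (nat_lit 0) .nil) .nil))) 
(.lf (nat_lit 608254) (.g (nat_lit 3772) (.e (nat_lit 704589) (nat_lit 3) (.e (nat_lit 163975) (nat_lit 30) (.e (nat_lit 573492) (nat_lit 15) (.e (nat_lit 81956) (nat_lit 23) (.e (nat_lit 98386) (nat_lit 32) (.e (nat_lit 475196) (nat_lit 40) .nil)))))) (.g (nat_lit 1) (.e (nat_lit 440590) (nat_lit 0) .nil) .nil)))))))))))) 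
(.nd (nat_lit 1) (.nd (nat_lit 2) (.nd (nat_lit 3) (.nd (nat_lit 4) (.nd (nat_lit 5) 
(.nd (nat_lit 6) (.nd (nat_lit 7) (.nd (nat_lit 8) (.nd (nat_lit 9) 
(.lf (nat_lit 607233) (.g (nat_lit 3151) (.e (nat_lit 802832) (nat_lit 20) (.e (nat_lit 3613) (nat_lit 226) (.e (nat_lit 770072) (nat_lit 8) (.e (nat_lit 65586) (nat_lit 7) (.e (nat_lit 319531) (nat_lit 16) (.e (nat_lit 286748) (nat_lit 9) (.e (nat_lit 336295) (nat_lit 15) (.e (nat_lit 3784) (nat_lit 230) .nil)))))))) (.g (nat_lit 1) (.e (nat_lit 437032) (nat_lit 0) .nil) .nil))) 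
(.lf (nat_lit 607745) (.g (nat_lit 2228) (.e (nat_lit 696343) (nat_lit 8) (.e (nat_lit 172113) (nat_lit 10) (.e (nat_lit 434289) (nat_lit 43) (.e (nat_lit 696346) (nat_lit 10) (.e (nat_lit 188435) (nat_lit 20) (.e (nat_lit 3468) (nat_lit 217) .nil)))))) (.g (nat_lit 1) (.e (nat_lit 439396) (nat_lit 0) .nil) .nil)))) (.nd (nat_lit 9) 
(.lf (nat_lit 607489) (.g (nat_lit 3757) (.e (nat_lit 688177) (nat_lit 16) (.e (nat_lit 65610) (nat_lit 10) (.e (nat_lit 344179) (nat_lit 44) (.e (nat_lit 778466) (nat_lit 11) (.e (nat_lit 24617) (nat_lit 7) (.e (nat_lit 319505) (nat_lit 10) (.e (nat_lit 720) (nat_lit 64) .nil))))))) (.g (nat_lit 1) (.e (nat_lit 438218) (nat_lit 0) .nil) .nil))) 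
(.lf (nat_lit 608001) (.g (nat_lit 1825) (.e (nat_lit 696344) (nat_lit 8) (.e (nat_lit 172112) (nat_lit 10) (.e (nat_lit 434289) (nat_lit 43) (.e (nat_lit 696346) (nat_lit 10) (.e (nat_lit 188438) (nat_lit 20) (.e (nat_lit 3467) (nat_lit 217) .nil)))))) (.g (nat_lit 1) (.e (nat_lit 439810) (nat_lit 0) .nil) .nil))))) (.nd (nat_lit 8) (.nd (nat_lit 9) 
(.lf (nat_lit 607361) (.g (nat_lit 1645) (.e (nat_lit 819221) (nat_lit 6) (.e (nat_lit 188440) (nat_lit 20) (.e (nat_lit 3289) (nat_lit 201) (.e (nat_lit 565269) (nat_lit 6) (.e (nat_lit 81939) (nat_lit 20) (.e (nat_lit 2391) (nat_lit 156) .nil)))))) (.g (nat_lit 1) (.e (nat_lit 437639) (nat_lit 0) .nil) .nil))) 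
(.lf (nat_lit 607873) (.g (nat_lit 2510) (.e (nat_lit 696344) (nat_lit 8) (.e (nat_lit 172079) (nat_lit 7) (.e (nat_lit 409645) (nat_lit 18) (.e (nat_lit 303143) (nat_lit 12) (.e (nat_lit 475197) (nat_lit 40) (.e (nat_lit 704853) (nat_lit 17) (.e (nat_lit 171776) (nat_lit 106) .nil))))))) (.g (nat_lit 1) (.e (nat_lit 439607) (nat_lit 0) .nil) .nil)))) (.nd (nat_lit 9) 
(.lf (nat_lit 607617) (.g (nat_lit 2263) (.e (nat_lit 696343) (nat_lit 8) (.e (nat_lit 172079) (nat_lit 7) (.e (nat_lit 409645) (nat_lit 18) (.e (nat_lit 303133) (nat_lit 9) (.e (nat_lit 426042) (nat_lit 0) (.e (nat_lit 2427) (nat_lit 157) (.e (nat_lit 5966) (nat_lit 324) (.e (nat_lit 163844) (nat_lit 0) (.e (nat_lit 3471) (nat_lit 217) .nil))))))))) (.g (nat_lit 1) (.e (nat_lit 439086) (nat_lit 0) .nil) .nil))) 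
(.lf (nat_lit 608129) (.g (nat_lit 4706) (.e (nat_lit 704589) (nat_lit 3) (.e (nat_lit 163975) (nat_lit 30) (.e (nat_lit 573481) (nat_lit 13) (.e (nat_lit 65619) (nat_lit 10) (.e (nat_lit 344117) (nat_lit 21) (.e (nat_lit 516151) (nat_lit 9) (.e (nat_lit 426414) (nat_lit 15) (.e (nat_lit 2058) (nat_lit 142) .nil)))))))) (.g (nat_lit 1) (.e (nat_lit 440359) (nat_lit 0) .nil) .nil)))))) 
(.nd (nat_lit 7) (.nd (nat_lit 8) (.nd (nat_lit 9) 
(.lf (nat_lit 607297) (.g (nat_lit 395) (.e (nat_lit 819203) (nat_lit 0) (.e (nat_lit 3022) (nat_lit 187) (.e (nat_lit 458496) (nat_lit 4) .nil))) (.g (nat_lit 0) (.e (nat_lit 437324) (nat_lit 0) .nil) .nil))) 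
(.lf (nat_lit 607809) (.g (nat_lit 2858) (.e (nat_lit 696344) (nat_lit 8) (.e (nat_lit 172065) (nat_lit 3) (.e (nat_lit 204868) (nat_lit 29) (.e (nat_lit 360473) (nat_lit 8) (.e (nat_lit 557091) (nat_lit 12) (.e (nat_lit 164019) (nat_lit 45) .nil)))))) (.g (nat_lit 1) (.e (nat_lit 439507) (nat_lit 0) .nil) .nil)))) (.nd (nat_lit 9) 
(.lf (nat_lit 607553) (.g (nat_lit 2214) (.e (nat_lit 696342) (nat_lit 8) (.e (nat_lit 172067) (nat_lit 3) (.e (nat_lit 204868) (nat_lit 29) (.e (nat_lit 360473) (nat_lit 8) (.e (nat_lit 557094) (nat_lit 12) (.e (nat_lit 164018) (nat_lit 45) .nil)))))) (.g (nat_lit 1) (.e (nat_lit 438974) (nat_lit 0) .nil) .nil))) 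
(.lf (nat_lit 608065) (.g (nat_lit 2399) (.e (nat_lit 696344) (nat_lit 8) (.e (nat_lit 172126) (nat_lit 14) (.e (nat_lit 491534) (nat_lit 1) (.e (nat_lit 57687) (nat_lit 156) (.e (nat_lit 163933) (nat_lit 17) (.e (nat_lit 466967) (nat_lit 20) (.e (nat_lit 3464) (nat_lit 217) .nil))))))) (.g (nat_lit 1) (.e (nat_lit 439938) (nat_lit 0) .nil) .nil))))) (.nd (nat_lit 8) (.nd (nat_lit 9) 
(.lf (nat_lit 607425) (.g (nat_lit 553) (.e (nat_lit 688139) (nat_lit 5) (.e (nat_lit 2887) (nat_lit 184) (.e (nat_lit 426290) (nat_lit 10) .nil))) (.g (nat_lit 0) (.e (nat_lit 437882) (nat_lit 0) .nil) .nil))) 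
(.lf (nat_lit 607937) (.g (nat_lit 1852) (.e (nat_lit 696344) (nat_lit 8) (.e (nat_lit 172082) (nat_lit 7) (.e (nat_lit 409646) (nat_lit 18) (.e (nat_lit 303143) (nat_lit 12) (.e (nat_lit 475215) (nat_lit 43) .nil))))) (.g (nat_lit 0) (.e (nat_lit 439718) (nat_lit 0) .nil) .nil)))) (.nd (nat_lit 9) 
(.lf (nat_lit 607681) (.g (nat_lit 3984) (.e (nat_lit 696343) (nat_lit 8) (.e (nat_lit 172082) (nat_lit 7) (.e (nat_lit 409649) (nat_lit 18) (.e (nat_lit 303140) (nat_lit 10) (.e (nat_lit 434275) (nat_lit 39) (.e (nat_lit 663580) (nat_lit 9) (.e (nat_lit 2478) (nat_lit 157) (.e (nat_lit 3464) (nat_lit 217) .nil)))))))) (.g (nat_lit 1) (.e (nat_lit 439243) (nat_lit 0) .nil) .nil))) 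
(.lf (nat_lit 608193) (.g (nat_lit 3327) (.e (nat_lit 704589) (nat_lit 3) (.e (nat_lit 163975) (nat_lit 30) (.e (nat_lit 573492) (nat_lit 15) (.e (nat_lit 81956) (nat_lit 23) (.e (nat_lit 98355) (nat_lit 26) (.e (nat_lit 426382) (nat_lit 15) (.e (nat_lit 2059) (nat_lit 142) .nil))))))) (.g (nat_lit 1) (.e (nat_lit 440529) (nat_lit 0) .nil) .nil))))))) 
(.nd (nat_lit 6) (.nd (nat_lit 7) (.nd (nat_lit 8) (.nd (nat_lit 9) 
(.lf (nat_lit 607265) (.g (nat_lit 1222) (.e (nat_lit 811028) (nat_lit 9) (.e (nat_lit 303137) (nat_lit 10) (.e (nat_lit 434241) (nat_lit 27) (.e (nat_lit 565269) (nat_lit 6) (.e (nat_lit 81931) (nat_lit 20) .nil))))) (.g (nat_lit 0) (.e (nat_lit 437133) (nat_lit 0) .nil) .nil))) 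
(.lf (nat_lit 607777) (.g (nat_lit 2029) (.e (nat_lit 696343) (nat_lit 8) (.e (nat_lit 172123) (nat_lit 13) (.e (nat_lit 483413) (nat_lit 27) (.e (nat_lit 401435) (nat_lit 9) (.e (nat_lit 425986) (nat_lit 0) (.e (nat_lit 3471) (nat_lit 217) .nil)))))) (.g (nat_lit 1) (.e (nat_lit 439469) (nat_lit 0) .nil) .nil)))) (.nd (nat_lit 9) 
(.lf (nat_lit 607521) (.g (nat_lit 3895) (.e (nat_lit 696328) (nat_lit 5) (.e (nat_lit 2980) (nat_lit 185) (.e (nat_lit 434231) (nat_lit 23) (.e (nat_lit 532550) (nat_lit 12) (.e (nat_lit 360475) (nat_lit 8) (.e (nat_lit 557089) (nat_lit 12) (.e (nat_lit 164020) (nat_lit 45) .nil))))))) (.g (nat_lit 1) (.e (nat_lit 438382) (nat_lit 0) .nil) .nil))) 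
(.lf (nat_lit 608033) (.g (nat_lit 2461) (.e (nat_lit 696344) (nat_lit 8) (.e (nat_lit 172115) (nat_lit 10) (.e (nat_lit 434209) (nat_lit 18) (.e (nat_lit 6425) (nat_lit 342) (.e (nat_lit 229412) (nat_lit 14) (.e (nat_lit 442408) (nat_lit 20) (.e (nat_lit 3467) (nat_lit 217) .nil))))))) (.g (nat_lit 1) (.e (nat_lit 439883) (nat_lit 0) .nil) .nil))))) (.nd (nat_lit 8) (.nd (nat_lit 9) 
(.lf (nat_lit 607393) (.g (nat_lit 2755) (.e (nat_lit 688138) (nat_lit 5) (.e (nat_lit 2887) (nat_lit 184) (.e (nat_lit 426140) (nat_lit 3) (.e (nat_lit 204868) (nat_lit 29) (.e (nat_lit 360473) (nat_lit 8) (.e (nat_lit 557094) (nat_lit 12) (.e (nat_lit 164016) (nat_lit 44) .nil))))))) (.g (nat_lit 1) (.e (nat_lit 437757) (nat_lit 0) .nil) .nil))) 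
(.lf (nat_lit 607905) (.g (nat_lit 2620) (.e (nat_lit 696344) (nat_lit 8) (.e (nat_lit 172082) (nat_lit 7) (.e (nat_lit 409646) (nat_lit 18) (.e (nat_lit 303133) (nat_lit 9) (.e (nat_lit 426042) (nat_lit 0) (.e (nat_lit 2447) (nat_lit 157) (.e (nat_lit 5964) (nat_lit 324) (.e (nat_lit 163844) (nat_lit 0) (.e (nat_lit 3471) (nat_lit 217) .nil))))))))) (.g (nat_lit 1) (.e (nat_lit 439656) (nat_lit 0) .nil) .nil)))) 
(.nd (nat_lit 9) 
(.lf (nat_lit 607649) (.g (nat_lit 2608) (.e (nat_lit 696343) (nat_lit 8) (.e (nat_lit 172082) (nat_lit 7) (.e (nat_lit 409646) (nat_lit 18) (.e (nat_lit 303133) (nat_lit 9) (.e (nat_lit 426042) (nat_lit 0) (.e (nat_lit 2449) (nat_lit 157) (.e (nat_lit 5966) (nat_lit 324) (.e (nat_lit 163844) (nat_lit 0) (.e (nat_lit 3471) (nat_lit 217) .nil))))))))) (.g (nat_lit 1) (.e (nat_lit 439157) (nat_lit 0) .nil) .nil))) 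
(.lf (nat_lit 608161) (.g (nat_lit 2772) (.e (nat_lit 704589) (nat_lit 3) (.e (nat_lit 163975) (nat_lit 30) (.e (nat_lit 573491) (nat_lit 15) (.e (nat_lit 81954) (nat_lit 23) (.e (nat_lit 98356) (nat_lit 26) (.e (nat_lit 426363) (nat_lit 15) (.e (nat_lit 2063) (nat_lit 142) .nil))))))) (.g (nat_lit 1) (.e (nat_lit 440393) (nat_lit 0) .nil) .nil)))))) 
(.nd (nat_lit 7) (.nd (nat_lit 8) (.nd (nat_lit 9) 
(.lf (nat_lit 607329) (.g (nat_lit 2492) (.e (nat_lit 819219) (nat_lit 4) (.e (nat_lit 172094) (nat_lit 9) (.e (nat_lit 426125) (nat_lit 2) (.e (nat_lit 196615) (nat_lit 0) .nil)))) (.g (nat_lit 0) (.e (nat_lit 437553) (nat_lit 0) .nil) .nil))) 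
(.lf (nat_lit 607841) (.g (nat_lit 2482) (.e (nat_lit 696344) (nat_lit 8) (.e (nat_lit 172078) (nat_lit 7) (.e (nat_lit 409646) (nat_lit 18) (.e (nat_lit 303140) (nat_lit 10) (.e (nat_lit 434275) (nat_lit 39) (.e (nat_lit 663580) (nat_lit 9) (.e (nat_lit 2416) (nat_lit 157) (.e (nat_lit 3467) (nat_lit 217) .nil)))))))) (.g (nat_lit 1) (.e (nat_lit 439542) (nat_lit 0) .nil) .nil)))) 
(.nd (nat_lit 9) 
(.lf (nat_lit 607585) (.g (nat_lit 2589) (.e (nat_lit 696343) (nat_lit 8) (.e (nat_lit 172065) (nat_lit 3) (.e (nat_lit 204868) (nat_lit 29) (.e (nat_lit 360473) (nat_lit 8) (.e (nat_lit 557094) (nat_lit 12) (.e (nat_lit 164018) (nat_lit 45) .nil)))))) (.g (nat_lit 1) (.e (nat_lit 439045) (nat_lit 0) .nil) .nil))) 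
(.lf (nat_lit 608097) (.g (nat_lit 1627) (.e (nat_lit 704550) (nat_lit 0) (.e (nat_lit 3090) (nat_lit 191) (.e (nat_lit 483364) (nat_lit 18) (.e (nat_lit 57921) (nat_lit 280) .nil)))) (.g (nat_lit 0) (.e (nat_lit 440288) (nat_lit 0) .nil) .nil))))) (.nd (nat_lit 8) (.nd (nat_lit 9) 
(.lf (nat_lit 607457) (.g (nat_lit 467) (.e (nat_lit 696064) (nat_lit 10) (.e (nat_lit 188434) (nat_lit 20) (.e (nat_lit 3469) (nat_lit 217) .nil))) (.g (nat_lit 0) (.e (nat_lit 438086) (nat_lit 0) .nil) .nil))) 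
(.lf (nat_lit 607969) (.g (nat_lit 2264) (.e (nat_lit 696344) (nat_lit 8) (.e (nat_lit 172106) (nat_lit 10) (.e (nat_lit 434209) (nat_lit 18) (.e (nat_lit 6425) (nat_lit 342) (.e (nat_lit 229412) (nat_lit 14) (.e (nat_lit 442408) (nat_lit 20) (.e (nat_lit 3467) (nat_lit 217) .nil))))))) (.g (nat_lit 1) (.e (nat_lit 439770) (nat_lit 0) .nil) .nil)))) (.nd (nat_lit 9) 
(.lf (nat_lit 607713) (.g (nat_lit 1936) (.e (nat_lit 696343) (nat_lit 8) (.e (nat_lit 172106) (nat_lit 10) (.e (nat_lit 434289) (nat_lit 43) (.e (nat_lit 696346) (nat_lit 10) (.e (nat_lit 188439) (nat_lit 20) (.e (nat_lit 3467) (nat_lit 217) .nil)))))) (.g (nat_lit 1) (.e (nat_lit 439307) (nat_lit 0) .nil) .nil))) 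
(.lf (nat_lit 608225) (.g (nat_lit 4021) (.e (nat_lit 704589) (nat_lit 3) (.e (nat_lit 163975) (nat_lit 30) (.e (nat_lit 573492) (nat_lit 15) (.e (nat_lit 81956) (nat_lit 23) (.e (nat_lit 98356) (nat_lit 26) (.e (nat_lit 426375) (nat_lit 15) (.e (nat_lit 2056) (nat_lit 142) .nil))))))) (.g (nat_lit 1) (.e (nat_lit 440561) (nat_lit 0) .nil) .nil)))))))) 
(.nd (nat_lit 5) (.nd (nat_lit 6) (.nd (nat_lit 7) (.nd (nat_lit 8) (.nd (nat_lit 9) 
(.lf (nat_lit 607249) (.g (nat_lit 854) (.e (nat_lit 811011) (nat_lit 0) (.e (nat_lit 5780) (nat_lit 317) (.e (nat_lit 180241) (nat_lit 4) (.e (nat_lit 524340) (nat_lit 28) (.e (nat_lit 352283) (nat_lit 20) (.e (nat_lit 2384) (nat_lit 155) .nil)))))) (.g (nat_lit 1) (.e (nat_lit 437092) (nat_lit 0) .nil) .nil))) 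
(.lf (nat_lit 607761) (.g (nat_lit 3781) (.e (nat_lit 696343) (nat_lit 8) (.e (nat_lit 172121) (nat_lit 13) (.e (nat_lit 483413) (nat_lit 27) (.e (nat_lit 401448) (nat_lit 10) (.e (nat_lit 434289) (nat_lit 43) .nil))))) (.g (nat_lit 1) (.e (nat_lit 439441) (nat_lit 0) .nil) .nil)))) (.nd (nat_lit 9) 
(.lf (nat_lit 607505) (.g (nat_lit 3194) (.e (nat_lit 696327) (nat_lit 5) (.e (nat_lit 3004) (nat_lit 186) (.e (nat_lit 442390) (nat_lit 11) (.e (nat_lit 336231) (nat_lit 14) (.e (nat_lit 401448) (nat_lit 10) (.e (nat_lit 434289) (nat_lit 43) .nil)))))) (.g (nat_lit 1) (.e (nat_lit 438272) (nat_lit 0) .nil) .nil))) 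
(.lf (nat_lit 608017) (.g (nat_lit 2427) (.e (nat_lit 696344) (nat_lit 8) (.e (nat_lit 172113) (nat_lit 10) (.e (nat_lit 434289) (nat_lit 43) (.e (nat_lit 696346) (nat_lit 10) (.e (nat_lit 188439) (nat_lit 20) (.e (nat_lit 3468) (nat_lit 217) .nil)))))) (.g (nat_lit 1) (.e (nat_lit 439859) (nat_lit 0) .nil) .nil))))) (.nd (nat_lit 8) (.nd (nat_lit 9) 
(.lf (nat_lit 607377) (.g (nat_lit 2919) (.e (nat_lit 819237) (nat_lit 11) (.e (nat_lit 16465) (nat_lit 13) (.e (nat_lit 483372) (nat_lit 21) (.e (nat_lit 319534) (nat_lit 16) (.e (nat_lit 286728) (nat_lit 0) .nil))))) (.g (nat_lit 0) (.e (nat_lit 437678) (nat_lit 0) .nil) .nil))) 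
(.lf (nat_lit 607889) (.g (nat_lit 2882) (.e (nat_lit 696344) (nat_lit 8) (.e (nat_lit 172081) (nat_lit 7) (.e (nat_lit 409648) (nat_lit 18) (.e (nat_lit 303137) (nat_lit 10) (.e (nat_lit 434275) (nat_lit 39) (.e (nat_lit 663580) (nat_lit 9) (.e (nat_lit 2478) (nat_lit 157) (.e (nat_lit 3464) (nat_lit 217) .nil)))))))) (.g (nat_lit 1) (.e (nat_lit 439637) (nat_lit 0) .nil) .nil)))) 
(.nd (nat_lit 9) 
(.lf (nat_lit 607633) (.g (nat_lit 3800) (.e (nat_lit 696343) (nat_lit 8) (.e (nat_lit 172081) (nat_lit 7) (.e (nat_lit 409649) (nat_lit 18) (.e (nat_lit 303140) (nat_lit 10) (.e (nat_lit 434275) (nat_lit 39) (.e (nat_lit 663580) (nat_lit 9) (.e (nat_lit 2416) (nat_lit 157) (.e (nat_lit 3471) (nat_lit 217) .nil)))))))) (.g (nat_lit 1) (.e (nat_lit 439135) (nat_lit 0) .nil) .nil))) 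
(.lf (nat_lit 608145) (.g (nat_lit 1748) (.e (nat_lit 704589) (nat_lit 3) (.e (nat_lit 163975) (nat_lit 30) (.e (nat_lit 573491) (nat_lit 15) (.e (nat_lit 81954) (nat_lit 23) (.e (nat_lit 98355) (nat_lit 26) (.e (nat_lit 426393) (nat_lit 15) (.e (nat_lit 2056) (nat_lit 142) .nil))))))) (.g (nat_lit 1) (.e (nat_lit 440377) (nat_lit 0) .nil) .nil)))))) 
(.nd (nat_lit 7) (.nd (nat_lit 8) (.nd (nat_lit 9) 
(.lf (nat_lit 607313) (.g (nat_lit 1723) (.e (nat_lit 819214) (nat_lit 3) (.e (nat_lit 163962) (nat_lit 25) (.e (nat_lit 532544) (nat_lit 10) (.e (nat_lit 344129) (nat_lit 26) (.e (nat_lit 557097) (nat_lit 13) .nil))))) (.g (nat_lit 0) (.e (nat_lit 437502) (nat_lit 0) .nil) .nil))) 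
(.lf (nat_lit 607825) (.g (nat_lit 4522) (.e (nat_lit 696344) (nat_lit 8) (.e (nat_lit 172067) (nat_lit 3) (.e (nat_lit 204868) (nat_lit 29) (.e (nat_lit 360475) (nat_lit 8) (.e (nat_lit 557067) (nat_lit 9) (.e (nat_lit 2467) (nat_lit 157) (.e (nat_lit 3469) (nat_lit 217) .nil))))))) (.g (nat_lit 1) (.e (nat_lit 439525) (nat_lit 0) .nil) .nil)))) (.nd (nat_lit 9) 
(.lf (nat_lit 607569) (.g (nat_lit 4676) (.e (nat_lit 696343) (nat_lit 8) (.e (nat_lit 172062) (nat_lit 2) (.e (nat_lit 196666) (nat_lit 13) (.e (nat_lit 65617) (nat_lit 10) (.e (nat_lit 344133) (nat_lit 26) (.e (nat_lit 557091) (nat_lit 12) (.e (nat_lit 164020) (nat_lit 45) .nil))))))) (.g (nat_lit 1) (.e (nat_lit 439027) (nat_lit 0) .nil) .nil))) 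
(.lf (nat_lit 608081) (.g (nat_lit 3417) (.e (nat_lit 696348) (nat_lit 12) (.e (nat_lit 237589) (nat_lit 2) (.e (nat_lit 196666) (nat_lit 13) (.e (nat_lit 65617) (nat_lit 10) (.e (nat_lit 344133) (nat_lit 26) (.e (nat_lit 557091) (nat_lit 12) (.e (nat_lit 164018) (nat_lit 45) .nil))))))) (.g (nat_lit 1) (.e (nat_lit 440138) (nat_lit 0) .nil) .nil))))) (.nd (nat_lit 8) (.nd (nat_lit 9) 
(.lf (nat_lit 607441) (.g (nat_lit 2113) (.e (nat_lit 688139) (nat_lit 5) (.e (nat_lit 3062) (nat_lit 190) (.e (nat_lit 475179) (nat_lit 24) (.e (nat_lit 516174) (nat_lit 14) (.e (nat_lit 466947) (nat_lit 0) .nil))))) (.g (nat_lit 0) (.e (nat_lit 437933) (nat_lit 0) .nil) .nil))) 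
(.lf (nat_lit 607953) (.g (nat_lit 916) (.e (nat_lit 696344) (nat_lit 8) (.e (nat_lit 172089) (nat_lit 9) (.e (nat_lit 426499) (nat_lit 27) (.e (nat_lit 336232) (nat_lit 14) .nil)))) (.g (nat_lit 0) (.e (nat_lit 439735) (nat_lit 0) .nil) .nil)))) (.nd (nat_lit 9) 
(.lf (nat_lit 607697) (.g (nat_lit 2156) (.e (nat_lit 696343) (nat_lit 8) (.e (nat_lit 172106) (nat_lit 10) (.e (nat_lit 434209) (nat_lit 18) (.e (nat_lit 6273) (nat_lit 337) (.e (nat_lit 2646) (nat_lit 166) (.e (nat_lit 188440) (nat_lit 20) (.e (nat_lit 3467) (nat_lit 217) .nil))))))) (.g (nat_lit 1) (.e (nat_lit 439276) (nat_lit 0) .nil) .nil))) 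
(.lf (nat_lit 608209) (.g (nat_lit 2911) (.e (nat_lit 704589) (nat_lit 3) (.e (nat_lit 163975) (nat_lit 30) (.e (nat_lit 573492) (nat_lit 15) (.e (nat_lit 81956) (nat_lit 23) (.e (nat_lit 98356) (nat_lit 26) (.e (nat_lit 426360) (nat_lit 15) (.e (nat_lit 2046) (nat_lit 142) .nil))))))) (.g (nat_lit 1) (.e (nat_lit 440545) (nat_lit 0) .nil) .nil))))))) 
(.nd (nat_lit 6) (.nd (nat_lit 7) (.nd (nat_lit 8) (.nd (nat_lit 9) 
(.lf (nat_lit 607281) (.g (nat_lit 1591) (.e (nat_lit 819202) (nat_lit 0) (.e (nat_lit 3015) (nat_lit 187) (.e (nat_lit 450562) (nat_lit 0) (.e (nat_lit 4275) (nat_lit 252) .nil)))) (.g (nat_lit 0) (.e (nat_lit 437228) (nat_lit 0) .nil) .nil))) 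
(.lf (nat_lit 607793) (.g (nat_lit 2781) (.e (nat_lit 696344) (nat_lit 8) (.e (nat_lit 172064) (nat_lit 2) (.e (nat_lit 196666) (nat_lit 13) (.e (nat_lit 65610) (nat_lit 10) (.e (nat_lit 344128) (nat_lit 26) (.e (nat_lit 557091) (nat_lit 12) (.e (nat_lit 164020) (nat_lit 45) .nil))))))) (.g (nat_lit 1) (.e (nat_lit 439490) (nat_lit 0) .nil) .nil)))) (.nd (nat_lit 9) 
(.lf (nat_lit 607537) (.g (nat_lit 4381) (.e (nat_lit 696329) (nat_lit 5) (.e (nat_lit 2964) (nat_lit 185) (.e (nat_lit 434231) (nat_lit 23) (.e (nat_lit 532550) (nat_lit 12) (.e (nat_lit 360475) (nat_lit 8) (.e (nat_lit 557091) (nat_lit 12) (.e (nat_lit 164020) (nat_lit 45) .nil))))))) (.g (nat_lit 1) (.e (nat_lit 438464) (nat_lit 0) .nil) .nil))) 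
(.lf (nat_lit 608049) (.g (nat_lit 2420) (.e (nat_lit 696344) (nat_lit 8) (.e (nat_lit 172115) (nat_lit 10) (.e (nat_lit 434289) (nat_lit 43) (.e (nat_lit 696346) (nat_lit 10) (.e (nat_lit 188438) (nat_lit 20) (.e (nat_lit 3467) (nat_lit 217) .nil)))))) (.g (nat_lit 1) (.e (nat_lit 439904) (nat_lit 0) .nil) .nil))))) (.nd (nat_lit 8) (.nd (nat_lit 9) 
(.lf (nat_lit 607409) (.g (nat_lit 4403) (.e (nat_lit 688139) (nat_lit 5) (.e (nat_lit 2887) (nat_lit 184) (.e (nat_lit 426136) (nat_lit 3) (.e (nat_lit 204869) (nat_lit 29) (.e (nat_lit 360475) (nat_lit 8) (.e (nat_lit 557091) (nat_lit 12) (.e (nat_lit 164016) (nat_lit 44) .nil))))))) (.g (nat_lit 1) (.e (nat_lit 437844) (nat_lit 0) .nil) .nil))) 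
(.lf (nat_lit 607921) (.g (nat_lit 2627) (.e (nat_lit 696344) (nat_lit 8) (.e (nat_lit 172082) (nat_lit 7) (.e (nat_lit 409646) (nat_lit 18) (.e (nat_lit 303140) (nat_lit 10) (.e (nat_lit 434275) (nat_lit 39) (.e (nat_lit 663574) (nat_lit 9) (.e (nat_lit 2464) (nat_lit 157) (.e (nat_lit 3467) (nat_lit 217) .nil)))))))) (.g (nat_lit 1) (.e (nat_lit 439693) (nat_lit 0) .nil) .nil)))) 
(.nd (nat_lit 9) 
(.lf (nat_lit 607665) (.g (nat_lit 2453) (.e (nat_lit 696343) (nat_lit 8) (.e (nat_lit 172082) (nat_lit 7) (.e (nat_lit 409646) (nat_lit 18) (.e (nat_lit 303140) (nat_lit 10) (.e (nat_lit 434275) (nat_lit 39) (.e (nat_lit 663580) (nat_lit 9) (.e (nat_lit 2416) (nat_lit 157) (.e (nat_lit 3467) (nat_lit 217) .nil)))))))) (.g (nat_lit 1) (.e (nat_lit 439201) (nat_lit 0) .nil) .nil))) 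
(.lf (nat_lit 608177) (.g (nat_lit 3464) (.e (nat_lit 704589) (nat_lit 3) (.e (nat_lit 163975) (nat_lit 30) (.e (nat_lit 573491) (nat_lit 15) (.e (nat_lit 81954) (nat_lit 23) (.e (nat_lit 98384) (nat_lit 32) (.e (nat_lit 483072) (nat_lit 40) .nil)))))) (.g (nat_lit 1) (.e (nat_lit 440409) (nat_lit 0) .nil) .nil)))))) (.nd (nat_lit 7) (.nd (nat_lit 8) (.nd (nat_lit 9) 
(.lf (nat_lit 607345) (.g (nat_lit 1840) (.e (nat_lit 819221) (nat_lit 6) (.e (nat_lit 188434) (nat_lit 20) (.e (nat_lit 3289) (nat_lit 201) (.e (nat_lit 565269) (nat_lit 6) (.e (nat_lit 81946) (nat_lit 20) (.e (nat_lit 2390) (nat_lit 156) .nil)))))) (.g (nat_lit 1) (.e (nat_lit 437623) (nat_lit 0) .nil) .nil))) 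
(.lf (nat_lit 607857) (.g (nat_lit 2568) (.e (nat_lit 696344) (nat_lit 8) (.e (nat_lit 172079) (nat_lit 7) (.e (nat_lit 409645) (nat_lit 18) (.e (nat_lit 303133) (nat_lit 9) (.e (nat_lit 426042) (nat_lit 0) (.e (nat_lit 2442) (nat_lit 157) (.e (nat_lit 5965) (nat_lit 324) (.e (nat_lit 163844) (nat_lit 0) (.e (nat_lit 3471) (nat_lit 217) .nil))))))))) (.g (nat_lit 1) (.e (nat_lit 439566) (nat_lit 0) .nil) .nil)))) 
(.nd (nat_lit 9) 
(.lf (nat_lit 607601) (.g (nat_lit 3175) (.e (nat_lit 696343) (nat_lit 8) (.e (nat_lit 172067) (nat_lit 3) (.e (nat_lit 204868) (nat_lit 29) (.e (nat_lit 360473) (nat_lit 8) (.e (nat_lit 557094) (nat_lit 12) (.e (nat_lit 164018) (nat_lit 45) .nil)))))) (.g (nat_lit 1) (.e (nat_lit 439064) (nat_lit 0) .nil) .nil))) 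
(.lf (nat_lit 608113) (.g (nat_lit 4708) (.e (nat_lit 704589) (nat_lit 3) (.e (nat_lit 163975) (nat_lit 30) (.e (nat_lit 573481) (nat_lit 13) (.e (nat_lit 65610) (nat_lit 10) (.e (nat_lit 344117) (nat_lit 21) (.e (nat_lit 516151) (nat_lit 9) (.e (nat_lit 426412) (nat_lit 15) (.e (nat_lit 2057) (nat_lit 142) .nil)))))))) (.g (nat_lit 1) (.e (nat_lit 440342) (nat_lit 0) .nil) .nil))))) 
(.nd (nat_lit 8) (.nd (nat_lit 9) 
(.lf (nat_lit 607473) (.g (nat_lit 2511) (.e (nat_lit 688166) (nat_lit 15) (.e (nat_lit 57479) (nat_lit 28) (.e (nat_lit 557103) (nat_lit 14) (.e (nat_lit 180250) (nat_lit 10) (.e (nat_lit 573487) (nat_lit 14) (.e (nat_lit 73747) (nat_lit 3) (.e (nat_lit 516100) (nat_lit 0) (.e (nat_lit 7936) (nat_lit 216) .nil)))))))) (.g (nat_lit 1) (.e (nat_lit 438176) (nat_lit 0) .nil) .nil))) 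
(.lf (nat_lit 607985) (.g (nat_lit 2058) (.e (nat_lit 696344) (nat_lit 8) (.e (nat_lit 172106) (nat_lit 10) (.e (nat_lit 434289) (nat_lit 43) (.e (nat_lit 696346) (nat_lit 10) (.e (nat_lit 188435) (nat_lit 20) (.e (nat_lit 3467) (nat_lit 217) .nil)))))) (.g (nat_lit 1) (.e (nat_lit 439788) (nat_lit 0) .nil) .nil)))) (.nd (nat_lit 9) 
(.lf (nat_lit 607729) (.g (nat_lit 1938) (.e (nat_lit 696343) (nat_lit 8) (.e (nat_lit 172113) (nat_lit 10) (.e (nat_lit 434208) (nat_lit 18) (.e (nat_lit 6252) (nat_lit 337) (.e (nat_lit 7936) (nat_lit 166) .nil))))) (.g (nat_lit 0) (.e (nat_lit 439351) (nat_lit 0) .nil) .nil))) 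
(.lf (nat_lit 608241) (.g (nat_lit 2510) (.e (nat_lit 704589) (nat_lit 3) (.e (nat_lit 163975) (nat_lit 30) (.e (nat_lit 573492) (nat_lit 15) (.e (nat_lit 81956) (nat_lit 23) (.e (nat_lit 98360) (nat_lit 26) .nil))))) (.g (nat_lit 0) (.e (nat_lit 440577) (nat_lit 0) .nil) .nil))))))))) (.nd (nat_lit 4) (.nd (nat_lit 5) (.nd (nat_lit 6) (.nd (nat_lit 7) (.nd (nat_lit 8) (.nd (nat_lit 9) 
(.lf (nat_lit 607241) (.g (nat_lit 1774) (.e (nat_lit 802843) (nat_lit 24) (.e (nat_lit 213030) (nat_lit 11) (.e (nat_lit 24617) (nat_lit 7) (.e (nat_lit 319531) (nat_lit 16) .nil)))) (.g (nat_lit 0) (.e (nat_lit 437072) (nat_lit 0) .nil) .nil))) 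
(.lf (nat_lit 607753) (.g (nat_lit 2611) (.e (nat_lit 696343) (nat_lit 8) (.e (nat_lit 172115) (nat_lit 10) (.e (nat_lit 434209) (nat_lit 18) (.e (nat_lit 6425) (nat_lit 342) (.e (nat_lit 229412) (nat_lit 14) (.e (nat_lit 442411) (nat_lit 20) (.e (nat_lit 3467) (nat_lit 217) .nil))))))) (.g (nat_lit 1) (.e (nat_lit 439411) (nat_lit 0) .nil) .nil)))) (.nd (nat_lit 9) 
(.lf (nat_lit 607497) (.g (nat_lit 1987) (.e (nat_lit 688181) (nat_lit 17) (.e (nat_lit 73755) (nat_lit 8) (.e (nat_lit 557065) (nat_lit 9) (.e (nat_lit 3098) (nat_lit 192) (.e (nat_lit 491571) (nat_lit 13) .nil))))) (.g (nat_lit 0) (.e (nat_lit 438244) (nat_lit 0) .nil) .nil))) 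
(.lf (nat_lit 608009) (.g (nat_lit 393) (.e (nat_lit 696344) (nat_lit 8) (.e (nat_lit 172113) (nat_lit 10) (.e (nat_lit 434208) (nat_lit 18) .nil))) (.g (nat_lit 0) (.e (nat_lit 439831) (nat_lit 0) .nil) .nil))))) (.nd (nat_lit 8) (.nd (nat_lit 9) 
(.lf (nat_lit 607369) (.g (nat_lit 659) (.e (nat_lit 819221) (nat_lit 6) (.e (nat_lit 188453) (nat_lit 24) (.e (nat_lit 229519) (nat_lit 125) .nil))) (.g (nat_lit 0) (.e (nat_lit 437663) (nat_lit 0) .nil) .nil))) 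
(.lf (nat_lit 607881) (.g (nat_lit 3508) (.e (nat_lit 696344) (nat_lit 8) (.e (nat_lit 172079) (nat_lit 7) (.e (nat_lit 409649) (nat_lit 18) (.e (nat_lit 303140) (nat_lit 10) (.e (nat_lit 434202) (nat_lit 18) (.e (nat_lit 5964) (nat_lit 324) (.e (nat_lit 163844) (nat_lit 0) (.e (nat_lit 3471) (nat_lit 217) .nil)))))))) (.g (nat_lit 1) (.e (nat_lit 439629) (nat_lit 0) .nil) .nil)))) 
(.nd (nat_lit 9) 
(.lf (nat_lit 607625) (.g (nat_lit 1797) (.e (nat_lit 696343) (nat_lit 8) (.e (nat_lit 172079) (nat_lit 7) (.e (nat_lit 409645) (nat_lit 18) (.e (nat_lit 303137) (nat_lit 10) .nil)))) (.g (nat_lit 0) (.e (nat_lit 439103) (nat_lit 0) .nil) .nil))) 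
(.lf (nat_lit 608137) (.g (nat_lit 5015) (.e (nat_lit 704589) (nat_lit 3) (.e (nat_lit 163975) (nat_lit 30) (.e (nat_lit 573484) (nat_lit 13) (.e (nat_lit 65610) (nat_lit 10) (.e (nat_lit 344117) (nat_lit 21) (.e (nat_lit 516151) (nat_lit 9) (.e (nat_lit 426412) (nat_lit 15) (.e (nat_lit 2058) (nat_lit 142) .nil)))))))) (.g (nat_lit 1) (.e (nat_lit 440367) (nat_lit 0) .nil) .nil)))))) 
(.nd (nat_lit 7) (.nd (nat_lit 8) (.nd (nat_lit 9) 
(.lf (nat_lit 607305) (.g (nat_lit 2050) (.e (nat_lit 819204) (nat_lit 0) (.e (nat_lit 3016) (nat_lit 187) (.e (nat_lit 450584) (nat_lit 9) (.e (nat_lit 565252) (nat_lit 0) (.e (nat_lit 1595) (nat_lit 111) (.e (nat_lit 360493) (nat_lit 27) .nil)))))) (.g (nat_lit 1) (.e (nat_lit 437438) (nat_lit 0) .nil) .nil))) 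
(.lf (nat_lit 607817) (.g (nat_lit 1231) (.e (nat_lit 696344) (nat_lit 8) (.e (nat_lit 172067) (nat_lit 3) (.e (nat_lit 204855) (nat_lit 26) (.e (nat_lit 336173) (nat_lit 10) .nil)))) (.g (nat_lit 0) (.e (nat_lit 439515) (nat_lit 0) .nil) .nil)))) (.nd (nat_lit 9) 
(.lf (nat_lit 607561) (.g (nat_lit 3978) (.e (nat_lit 696343) (nat_lit 8) (.e (nat_lit 172062) (nat_lit 2) (.e (nat_lit 196666) (nat_lit 13) (.e (nat_lit 65617) (nat_lit 10) (.e (nat_lit 344130) (nat_lit 26) (.e (nat_lit 557089) (nat_lit 12) (.e (nat_lit 164020) (nat_lit 45) .nil))))))) (.g (nat_lit 1) (.e (nat_lit 439019) (nat_lit 0) .nil) .nil))) 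
(.lf (nat_lit 608073) (.g (nat_lit 3499) (.e (nat_lit 696346) (nat_lit 10) (.e (nat_lit 188439) (nat_lit 20) (.e (nat_lit 3469) (nat_lit 217) (.e (nat_lit 696344) (nat_lit 8) (.e (nat_lit 172115) (nat_lit 10) (.e (nat_lit 434289) (nat_lit 43) .nil)))))) (.g (nat_lit 1) (.e (nat_lit 440034) (nat_lit 0) .nil) .nil))))) (.nd (nat_lit 8) (.nd (nat_lit 9) 
(.lf (nat_lit 607433) (.g (nat_lit 2337) (.e (nat_lit 688139) (nat_lit 5) (.e (nat_lit 3062) (nat_lit 190) (.e (nat_lit 475179) (nat_lit 24) (.e (nat_lit 516158) (nat_lit 9) (.e (nat_lit 426187) (nat_lit 9) .nil))))) (.g (nat_lit 0) (.e (nat_lit 437925) (nat_lit 0) .nil) .nil))) 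
(.lf (nat_lit 607945) (.g (nat_lit 2428) (.e (nat_lit 696344) (nat_lit 8) (.e (nat_lit 172082) (nat_lit 7) (.e (nat_lit 409649) (nat_lit 18) (.e (nat_lit 303140) (nat_lit 10) (.e (nat_lit 434275) (nat_lit 39) (.e (nat_lit 663574) (nat_lit 9) (.e (nat_lit 2466) (nat_lit 157) (.e (nat_lit 3467) (nat_lit 217) .nil)))))))) (.g (nat_lit 1) (.e (nat_lit 439727) (nat_lit 0) .nil) .nil)))) 
(.nd (nat_lit 9) 
(.lf (nat_lit 607689) (.g (nat_lit 1939) (.e (nat_lit 696343) (nat_lit 8) (.e (nat_lit 172106) (nat_lit 10) (.e (nat_lit 434202) (nat_lit 18) (.e (nat_lit 6420) (nat_lit 341) (.e (nat_lit 163932) (nat_lit 17) (.e (nat_lit 466967) (nat_lit 20) (.e (nat_lit 3464) (nat_lit 217) .nil))))))) (.g (nat_lit 1) (.e (nat_lit 439268) (nat_lit 0) .nil) .nil))) 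
(.lf (nat_lit 608201) (.g (nat_lit 2534) (.e (nat_lit 704589) (nat_lit 3) (.e (nat_lit 163975) (nat_lit 30) (.e (nat_lit 573492) (nat_lit 15) (.e (nat_lit 81956) (nat_lit 23) (.e (nat_lit 98355) (nat_lit 26) (.e (nat_lit 426402) (nat_lit 15) (.e (nat_lit 2045) (nat_lit 142) .nil))))))) (.g (nat_lit 1) (.e (nat_lit 440537) (nat_lit 0) .nil) .nil))))))) 
(.nd (nat_lit 6) (.nd (nat_lit 7) (.nd (nat_lit 8) (.nd (nat_lit 9) 
(.lf (nat_lit 607273) (.g (nat_lit 2442) (.e (nat_lit 811032) (nat_lit 11) (.e (nat_lit 883) (nat_lit 75) (.e (nat_lit 778466) (nat_lit 11) (.e (nat_lit 24617) (nat_lit 7) (.e (nat_lit 319532) (nat_lit 16) .nil))))) (.g (nat_lit 0) (.e (nat_lit 437183) (nat_lit 0) .nil) .nil))) 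
(.lf (nat_lit 607785) (.g (nat_lit 2772) (.e (nat_lit 696343) (nat_lit 8) (.e (nat_lit 172126) (nat_lit 14) (.e (nat_lit 491566) (nat_lit 12) (.e (nat_lit 385108) (nat_lit 51) .nil)))) (.g (nat_lit 0) (.e (nat_lit 439481) (nat_lit 0) .nil) .nil)))) (.nd (nat_lit 9) 
(.lf (nat_lit 607529) (.g (nat_lit 4775) (.e (nat_lit 696329) (nat_lit 5) (.e (nat_lit 2884) (nat_lit 184) (.e (nat_lit 426125) (nat_lit 2) (.e (nat_lit 196666) (nat_lit 13) (.e (nat_lit 65617) (nat_lit 10) (.e (nat_lit 344132) (nat_lit 26) (.e (nat_lit 557091) (nat_lit 12) (.e (nat_lit 164020) (nat_lit 45) .nil)))))))) (.g (nat_lit 1) (.e (nat_lit 438446) (nat_lit 0) .nil) .nil))) 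
(.lf (nat_lit 608041) (.g (nat_lit 2015) (.e (nat_lit 696344) (nat_lit 8) (.e (nat_lit 172115) (nat_lit 10) (.e (nat_lit 434209) (nat_lit 18) (.e (nat_lit 6427) (nat_lit 342) (.e (nat_lit 229415) (nat_lit 15) (.e (nat_lit 450601) (nat_lit 21) .nil)))))) (.g (nat_lit 1) (.e (nat_lit 439891) (nat_lit 0) .nil) .nil))))) (.nd (nat_lit 8) (.nd (nat_lit 9) 
(.lf (nat_lit 607401) (.g (nat_lit 1878) (.e (nat_lit 688138) (nat_lit 5) (.e (nat_lit 3062) (nat_lit 190) (.e (nat_lit 475179) (nat_lit 24) (.e (nat_lit 516158) (nat_lit 9) .nil)))) (.g (nat_lit 0) (.e (nat_lit 437823) (nat_lit 0) .nil) .nil))) 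
(.lf (nat_lit 607913) (.g (nat_lit 2986) (.e (nat_lit 696344) (nat_lit 8) (.e (nat_lit 172082) (nat_lit 7) (.e (nat_lit 409646) (nat_lit 18) (.e (nat_lit 303140) (nat_lit 10) (.e (nat_lit 434199) (nat_lit 18) (.e (nat_lit 5965) (nat_lit 324) (.e (nat_lit 163844) (nat_lit 0) (.e (nat_lit 3471) (nat_lit 217) .nil)))))))) (.g (nat_lit 1) (.e (nat_lit 439685) (nat_lit 0) .nil) .nil)))) 
(.nd (nat_lit 9) 
(.lf (nat_lit 607657) (.g (nat_lit 3044) (.e (nat_lit 696343) (nat_lit 8) (.e (nat_lit 172082) (nat_lit 7) (.e (nat_lit 409646) (nat_lit 18) (.e (nat_lit 303140) (nat_lit 10) (.e (nat_lit 434199) (nat_lit 18) (.e (nat_lit 5966) (nat_lit 324) (.e (nat_lit 163844) (nat_lit 0) (.e (nat_lit 3471) (nat_lit 217) .nil)))))))) (.g (nat_lit 1) (.e (nat_lit 439193) (nat_lit 0) .nil) .nil))) 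
(.lf (nat_lit 608169) (.g (nat_lit 3073) (.e (nat_lit 704589) (nat_lit 3) (.e (nat_lit 163975) (nat_lit 30) (.e (nat_lit 573491) (nat_lit 15) (.e (nat_lit 81954) (nat_lit 23) (.e (nat_lit 98356) (nat_lit 26) (.e (nat_lit 426393) (nat_lit 15) (.e (nat_lit 2057) (nat_lit 142) .nil))))))) (.g (nat_lit 1) (.e (nat_lit 440401) (nat_lit 0) .nil) .nil)))))) 
(.nd (nat_lit 7) (.nd (nat_lit 8) (.nd (nat_lit 9) 
(.lf (nat_lit 607337) (.g (nat_lit 1338) (.e (nat_lit 819219) (nat_lit 4) (.e (nat_lit 172113) (nat_lit 10) (.e (nat_lit 434245) (nat_lit 28) (.e (nat_lit 573502) (nat_lit 18) .nil)))) (.g (nat_lit 0) (.e (nat_lit 437589) (nat_lit 0) .nil) .nil))) 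
(.lf (nat_lit 607849) (.g (nat_lit 2468) (.e (nat_lit 696344) (nat_lit 8) (.e (nat_lit 172078) (nat_lit 7) (.e (nat_lit 409649) (nat_lit 18) (.e (nat_lit 303140) (nat_lit 10) (.e (nat_lit 434275) (nat_lit 39) (.e (nat_lit 663574) (nat_lit 9) (.e (nat_lit 2457) (nat_lit 157) (.e (nat_lit 3467) (nat_lit 217) .nil)))))))) (.g (nat_lit 1) (.e (nat_lit 439550) (nat_lit 0) .nil) .nil)))) 
(.nd (nat_lit 9) 
(.lf (nat_lit 607593) (.g (nat_lit 4556) (.e (nat_lit 696343) (nat_lit 8) (.e (nat_lit 172065) (nat_lit 3) (.e (nat_lit 204869) (nat_lit 29) (.e (nat_lit 360475) (nat_lit 8) (.e (nat_lit 557091) (nat_lit 12) (.e (nat_lit 164020) (nat_lit 45) .nil)))))) (.g (nat_lit 1) (.e (nat_lit 439053) (nat_lit 0) .nil) .nil))) 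
(.lf (nat_lit 608105) (.g (nat_lit 3303) (.e (nat_lit 704589) (nat_lit 3) (.e (nat_lit 163975) (nat_lit 30) (.e (nat_lit 573481) (nat_lit 13) (.e (nat_lit 65604) (nat_lit 9) (.e (nat_lit 336013) (nat_lit 2) (.e (nat_lit 90134) (nat_lit 9) (.e (nat_lit 3071) (nat_lit 190) (.e (nat_lit 475197) (nat_lit 40) .nil)))))))) (.g (nat_lit 1) (.e (nat_lit 440334) (nat_lit 0) .nil) .nil))))) 
(.nd (nat_lit 8) (.nd (nat_lit 9) 
(.lf (nat_lit 607465) (.g (nat_lit 2603) (.e (nat_lit 688166) (nat_lit 15) (.e (nat_lit 57478) (nat_lit 28) (.e (nat_lit 557105) (nat_lit 14) (.e (nat_lit 180252) (nat_lit 10) (.e (nat_lit 573480) (nat_lit 13) .nil))))) (.g (nat_lit 0) (.e (nat_lit 438168) (nat_lit 0) .nil) .nil))) 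
(.lf (nat_lit 607977) (.g (nat_lit 2599) (.e (nat_lit 696344) (nat_lit 8) (.e (nat_lit 172106) (nat_lit 10) (.e (nat_lit 434209) (nat_lit 18) (.e (nat_lit 6427) (nat_lit 342) (.e (nat_lit 229412) (nat_lit 14) (.e (nat_lit 442411) (nat_lit 20) (.e (nat_lit 3467) (nat_lit 217) .nil))))))) (.g (nat_lit 1) (.e (nat_lit 439778) (nat_lit 0) .nil) .nil)))) (.nd (nat_lit 9) 
(.lf (nat_lit 607721) (.g (nat_lit 2586) (.e (nat_lit 696343) (nat_lit 8) (.e (nat_lit 172113) (nat_lit 10) (.e (nat_lit 434203) (nat_lit 18) (.e (nat_lit 6254) (nat_lit 337) (.e (nat_lit 2725) (nat_lit 172) (.e (nat_lit 237605) (nat_lit 9) (.e (nat_lit 425986) (nat_lit 0) (.e (nat_lit 3471) (nat_lit 217) .nil)))))))) (.g (nat_lit 1) (.e (nat_lit 439325) (nat_lit 0) .nil) .nil))) 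
(.lf (nat_lit 608233) (.g (nat_lit 4161) (.e (nat_lit 704589) (nat_lit 3) (.e (nat_lit 163975) (nat_lit 30) (.e (nat_lit 573492) (nat_lit 15) (.e (nat_lit 81956) (nat_lit 23) (.e (nat_lit 98356) (nat_lit 26) (.e (nat_lit 426420) (nat_lit 15) (.e (nat_lit 2056) (nat_lit 142) .nil))))))) (.g (nat_lit 1) (.e (nat_lit 440569) (nat_lit 0) .nil) .nil)))))))) 
(.nd (nat_lit 5) (.nd (nat_lit 6) (.nd (nat_lit 7) (.nd (nat_lit 8) (.nd (nat_lit 9) 
(.lf (nat_lit 607257) (.g (nat_lit 871) (.e (nat_lit 811012) (nat_lit 0) (.e (nat_lit 5779) (nat_lit 317) (.e (nat_lit 180241) (nat_lit 4) (.e (nat_lit 524340) (nat_lit 28) (.e (nat_lit 352286) (nat_lit 20) (.e (nat_lit 2384) (nat_lit 155) .nil)))))) (.g (nat_lit 1) (.e (nat_lit 437103) (nat_lit 0) .nil) .nil))) 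
(.lf (nat_lit 607769) (.g (nat_lit 1207) (.e (nat_lit 696343) (nat_lit 8) (.e (nat_lit 172123) (nat_lit 13) (.e (nat_lit 483411) (nat_lit 27) (.e (nat_lit 401449) (nat_lit 11) .nil)))) (.g (nat_lit 0) (.e (nat_lit 439460) (nat_lit 0) .nil) .nil)))) (.nd (nat_lit 9) 
(.lf (nat_lit 607513) (.g (nat_lit 3509) (.e (nat_lit 696328) (nat_lit 5) (.e (nat_lit 2884) (nat_lit 184) (.e (nat_lit 426140) (nat_lit 3) (.e (nat_lit 204868) (nat_lit 29) (.e (nat_lit 360473) (nat_lit 8) (.e (nat_lit 557091) (nat_lit 12) (.e (nat_lit 164020) (nat_lit 45) .nil))))))) (.g (nat_lit 1) (.e (nat_lit 438371) (nat_lit 0) .nil) .nil))) 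
(.lf (nat_lit 608025) (.g (nat_lit 1315) (.e (nat_lit 696344) (nat_lit 8) (.e (nat_lit 172115) (nat_lit 10) (.e (nat_lit 434209) (nat_lit 18) (.e (nat_lit 6271) (nat_lit 337) .nil)))) (.g (nat_lit 0) (.e (nat_lit 439874) (nat_lit 0) .nil) .nil))))) (.nd (nat_lit 8) (.nd (nat_lit 9) 
(.lf (nat_lit 607385) (.g (nat_lit 3371) (.e (nat_lit 679965) (nat_lit 13) (.e (nat_lit 2663) (nat_lit 167) (.e (nat_lit 196666) (nat_lit 13) (.e (nat_lit 65610) (nat_lit 10) (.e (nat_lit 344117) (nat_lit 21) .nil))))) (.g (nat_lit 0) (.e (nat_lit 437712) (nat_lit 0) .nil) .nil))) 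
(.lf (nat_lit 607897) (.g (nat_lit 1588) (.e (nat_lit 696344) (nat_lit 8) (.e (nat_lit 172082) (nat_lit 7) (.e (nat_lit 409646) (nat_lit 18) (.e (nat_lit 303127) (nat_lit 9) .nil)))) (.g (nat_lit 0) (.e (nat_lit 439646) (nat_lit 0) .nil) .nil)))) (.nd (nat_lit 9) 
(.lf (nat_lit 607641) (.g (nat_lit 2583) (.e (nat_lit 696343) (nat_lit 8) (.e (nat_lit 172082) (nat_lit 7) (.e (nat_lit 409646) (nat_lit 18) (.e (nat_lit 303133) (nat_lit 9) (.e (nat_lit 426042) (nat_lit 0) (.e (nat_lit 2428) (nat_lit 157) (.e (nat_lit 5966) (nat_lit 324) (.e (nat_lit 163844) (nat_lit 0) (.e (nat_lit 3471) (nat_lit 217) .nil))))))))) (.g (nat_lit 1) (.e (nat_lit 439149) (nat_lit 0) .nil) .nil))) 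
(.lf (nat_lit 608153) (.g (nat_lit 2466) (.e (nat_lit 704589) (nat_lit 3) (.e (nat_lit 163975) (nat_lit 30) (.e (nat_lit 573491) (nat_lit 15) (.e (nat_lit 81954) (nat_lit 23) (.e (nat_lit 98356) (nat_lit 26) (.e (nat_lit 426361) (nat_lit 15) (.e (nat_lit 2044) (nat_lit 142) .nil))))))) (.g (nat_lit 1) (.e (nat_lit 440385) (nat_lit 0) .nil) .nil)))))) 
(.nd (nat_lit 7) (.nd (nat_lit 8) (.nd (nat_lit 9) 
(.lf (nat_lit 607321) (.g (nat_lit 2348) (.e (nat_lit 819218) (nat_lit 4) (.e (nat_lit 172113) (nat_lit 10) (.e (nat_lit 434248) (nat_lit 28) (.e (nat_lit 573503) (nat_lit 18) (.e (nat_lit 1359) (nat_lit 102) .nil))))) (.g (nat_lit 0) (.e (nat_lit 437526) (nat_lit 0) .nil) .nil))) 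
(.lf (nat_lit 607833) (.g (nat_lit 4754) (.e (nat_lit 696344) (nat_lit 8) (.e (nat_lit 172067) (nat_lit 3) (.e (nat_lit 204869) (nat_lit 29) (.e (nat_lit 360475) (nat_lit 8) (.e (nat_lit 557067) (nat_lit 9) (.e (nat_lit 2467) (nat_lit 157) (.e (nat_lit 3469) (nat_lit 217) .nil))))))) (.g (nat_lit 1) (.e (nat_lit 439533) (nat_lit 0) .nil) .nil)))) (.nd (nat_lit 9) 
(.lf (nat_lit 607577) (.g (nat_lit 4060) (.e (nat_lit 696343) (nat_lit 8) (.e (nat_lit 172065) (nat_lit 3) (.e (nat_lit 204855) (nat_lit 26) (.e (nat_lit 336176) (nat_lit 10) (.e (nat_lit 344130) (nat_lit 26) (.e (nat_lit 557090) (nat_lit 12) (.e (nat_lit 164018) (nat_lit 45) .nil))))))) (.g (nat_lit 1) (.e (nat_lit 439036) (nat_lit 0) .nil) .nil))) 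
(.lf (nat_lit 608089) (.g (nat_lit 912) (.e (nat_lit 696348) (nat_lit 12) (.e (nat_lit 237590) (nat_lit 2) (.e (nat_lit 196681) (nat_lit 17) (.e (nat_lit 131109) (nat_lit 9) .nil)))) (.g (nat_lit 0) (.e (nat_lit 440150) (nat_lit 0) .nil) .nil))))) (.nd (nat_lit 8) (.nd (nat_lit 9) 
(.lf (nat_lit 607449) (.g (nat_lit 1447) (.e (nat_lit 688139) (nat_lit 5) (.e (nat_lit 3085) (nat_lit 191) (.e (nat_lit 483337) (nat_lit 9) (.e (nat_lit 426199) (nat_lit 9) (.e (nat_lit 426128) (nat_lit 2) .nil))))) (.g (nat_lit 0) (.e (nat_lit 437941) (nat_lit 0) .nil) .nil))) 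
(.lf (nat_lit 607961) (.g (nat_lit 1378) (.e (nat_lit 696344) (nat_lit 8) (.e (nat_lit 172106) (nat_lit 10) (.e (nat_lit 434209) (nat_lit 18) (.e (nat_lit 6272) (nat_lit 337) .nil)))) (.g (nat_lit 0) (.e (nat_lit 439758) (nat_lit 0) .nil) .nil)))) (.nd (nat_lit 9) 
(.lf (nat_lit 607705) (.g (nat_lit 1454) (.e (nat_lit 696343) (nat_lit 8) (.e (nat_lit 172106) (nat_lit 10) (.e (nat_lit 434209) (nat_lit 18) (.e (nat_lit 6428) (nat_lit 342) .nil)))) (.g (nat_lit 0) (.e (nat_lit 439294) (nat_lit 0) .nil) .nil))) 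
(.lf (nat_lit 608217) (.g (nat_lit 3267) (.e (nat_lit 704589) (nat_lit 3) (.e (nat_lit 163975) (nat_lit 30) (.e (nat_lit 573492) (nat_lit 15) (.e (nat_lit 81956) (nat_lit 23) (.e (nat_lit 98356) (nat_lit 26) (.e (nat_lit 426361) (nat_lit 15) (.e (nat_lit 2055) (nat_lit 142) .nil))))))) (.g (nat_lit 1) (.e (nat_lit 440553) (nat_lit 0) .nil) .nil))))))) 
(.nd (nat_lit 6) (.nd (nat_lit 7) (.nd (nat_lit 8) (.nd (nat_lit 9) 
(.lf (nat_lit 607289) (.g (nat_lit 487) (.e (nat_lit 819203) (nat_lit 0) (.e (nat_lit 3015) (nat_lit 187) (.e (nat_lit 450584) (nat_lit 9) .nil))) (.g (nat_lit 0) (.e (nat_lit 437296) (nat_lit 0) .nil) .nil))) 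
(.lf (nat_lit 607801) (.g (nat_lit 3543) (.e (nat_lit 696344) (nat_lit 8) (.e (nat_lit 172064) (nat_lit 2) (.e (nat_lit 196666) (nat_lit 13) (.e (nat_lit 65617) (nat_lit 10) (.e (nat_lit 344130) (nat_lit 26) (.e (nat_lit 557089) (nat_lit 12) (.e (nat_lit 164019) (nat_lit 45) .nil))))))) (.g (nat_lit 1) (.e (nat_lit 439498) (nat_lit 0) .nil) .nil)))) (.nd (nat_lit 9) 
(.lf (nat_lit 607545) (.g (nat_lit 2726) (.e (nat_lit 696329) (nat_lit 5) (.e (nat_lit 3004) (nat_lit 186) (.e (nat_lit 442390) (nat_lit 11) (.e (nat_lit 336232) (nat_lit 14) (.e (nat_lit 401446) (nat_lit 10) (.e (nat_lit 434289) (nat_lit 43) .nil)))))) (.g (nat_lit 1) (.e (nat_lit 438482) (nat_lit 0) .nil) .nil))) 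
(.lf (nat_lit 608057) (.g (nat_lit 1763) (.e (nat_lit 696344) (nat_lit 8) (.e (nat_lit 172116) (nat_lit 10) (.e (nat_lit 434289) (nat_lit 43) (.e (nat_lit 696346) (nat_lit 10) (.e (nat_lit 188439) (nat_lit 20) (.e (nat_lit 3467) (nat_lit 217) .nil)))))) (.g (nat_lit 1) (.e (nat_lit 439912) (nat_lit 0) .nil) .nil))))) (.nd (nat_lit 8) (.nd (nat_lit 9) 
(.lf (nat_lit 607417) (.g (nat_lit 432) (.e (nat_lit 688139) (nat_lit 5) (.e (nat_lit 2887) (nat_lit 184) (.e (nat_lit 426211) (nat_lit 9) .nil))) (.g (nat_lit 0) (.e (nat_lit 437853) (nat_lit 0) .nil) .nil))) 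
(.lf (nat_lit 607929) (.g (nat_lit 1153) (.e (nat_lit 696344) (nat_lit 8) (.e (nat_lit 172082) (nat_lit 7) (.e (nat_lit 409646) (nat_lit 18) (.e (nat_lit 303143) (nat_lit 12) .nil)))) (.g (nat_lit 0) (.e (nat_lit 439701) (nat_lit 0) .nil) .nil)))) (.nd (nat_lit 9) 
(.lf (nat_lit 607673) (.g (nat_lit 2921) (.e (nat_lit 696343) (nat_lit 8) (.e (nat_lit 172082) (nat_lit 7) (.e (nat_lit 409648) (nat_lit 18) (.e (nat_lit 303137) (nat_lit 10) (.e (nat_lit 434275) (nat_lit 39) (.e (nat_lit 663580) (nat_lit 9) (.e (nat_lit 2416) (nat_lit 157) (.e (nat_lit 3471) (nat_lit 217) .nil)))))))) (.g (nat_lit 1) (.e (nat_lit 439234) (nat_lit 0) .nil) .nil))) 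
(.lf (nat_lit 608185) (.g (nat_lit 4205) (.e (nat_lit 704589) (nat_lit 3) (.e (nat_lit 163975) (nat_lit 30) (.e (nat_lit 573492) (nat_lit 15) (.e (nat_lit 81953) (nat_lit 22) (.e (nat_lit 90166) (nat_lit 13) (.e (nat_lit 172136) (nat_lit 15) (.e (nat_lit 2059) (nat_lit 142) .nil))))))) (.g (nat_lit 1) (.e (nat_lit 440501) (nat_lit 0) .nil) .nil)))))) 
(.nd (nat_lit 7) (.nd (nat_lit 8) (.nd (nat_lit 9) 
(.lf (nat_lit 607353) (.g (nat_lit 83) (.e (nat_lit 819221) (nat_lit 6) (.e (nat_lit 188438) (nat_lit 20) (.e (nat_lit 3288) (nat_lit 201) .nil))) (.g (nat_lit 0) (.e (nat_lit 437631) (nat_lit 0) .nil) .nil))) 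
(.lf (nat_lit 607865) (.g (nat_lit 2964) (.e (nat_lit 696344) (nat_lit 8) (.e (nat_lit 172079) (nat_lit 7) (.e (nat_lit 409645) (nat_lit 18) (.e (nat_lit 303135) (nat_lit 10) (.e (nat_lit 434275) (nat_lit 39) (.e (nat_lit 663585) (nat_lit 12) (.e (nat_lit 164018) (nat_lit 45) .nil))))))) (.g (nat_lit 1) (.e (nat_lit 439594) (nat_lit 0) .nil) .nil)))) (.nd (nat_lit 9) 
(.lf (nat_lit 607609) (.g (nat_lit 3786) (.e (nat_lit 696343) (nat_lit 8) (.e (nat_lit 172067) (nat_lit 3) (.e (nat_lit 204869) (nat_lit 29) (.e (nat_lit 360473) (nat_lit 8) (.e (nat_lit 557090) (nat_lit 12) (.e (nat_lit 164020) (nat_lit 45) .nil)))))) (.g (nat_lit 1) (.e (nat_lit 439072) (nat_lit 0) .nil) .nil))) 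
(.lf (nat_lit 608121) (.g (nat_lit 4351) (.e (nat_lit 704589) (nat_lit 3) (.e (nat_lit 163975) (nat_lit 30) (.e (nat_lit 573481) (nat_lit 13) (.e (nat_lit 65619) (nat_lit 10) (.e (nat_lit 344117) (nat_lit 21) (.e (nat_lit 516145) (nat_lit 9) (.e (nat_lit 426374) (nat_lit 15) (.e (nat_lit 2058) (nat_lit 142) .nil)))))))) (.g (nat_lit 1) (.e (nat_lit 440351) (nat_lit 0) .nil) .nil))))) 
(.nd (nat_lit 8) (.nd (nat_lit 9) 
(.lf (nat_lit 607481) (.g (nat_lit 3182) (.e (nat_lit 688167) (nat_lit 15) (.e (nat_lit 57479) (nat_lit 28) (.e (nat_lit 557105) (nat_lit 14) (.e (nat_lit 180252) (nat_lit 10) (.e (nat_lit 573482) (nat_lit 13) (.e (nat_lit 65571) (nat_lit 3) (.e (nat_lit 98325) (nat_lit 17) (.e (nat_lit 3452) (nat_lit 216) .nil)))))))) (.g (nat_lit 1) (.e (nat_lit 438185) (nat_lit 0) .nil) .nil))) 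
(.lf (nat_lit 607993) (.g (nat_lit 1977) (.e (nat_lit 696344) (nat_lit 8) (.e (nat_lit 172107) (nat_lit 10) (.e (nat_lit 434289) (nat_lit 43) (.e (nat_lit 696346) (nat_lit 10) (.e (nat_lit 188435) (nat_lit 20) (.e (nat_lit 3468) (nat_lit 217) .nil)))))) (.g (nat_lit 1) (.e (nat_lit 439802) (nat_lit 0) .nil) .nil)))) (.nd (nat_lit 9) 
(.lf (nat_lit 607737) (.g (nat_lit 1057) (.e (nat_lit 696343) (nat_lit 8) (.e (nat_lit 172113) (nat_lit 10) (.e (nat_lit 434208) (nat_lit 18) (.e (nat_lit 6420) (nat_lit 341) .nil)))) (.g (nat_lit 0) (.e (nat_lit 439376) (nat_lit 0) .nil) .nil))) 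
(.lf (nat_lit 608249) (.g (nat_lit 2105) (.e (nat_lit 704589) (nat_lit 3) (.e (nat_lit 163975) (nat_lit 30) (.e (nat_lit 573492) (nat_lit 15) (.e (nat_lit 81956) (nat_lit 23) (.e (nat_lit 98383) (nat_lit 32) .nil))))) (.g (nat_lit 0) (.e (nat_lit 440585) (nat_lit 0) .nil) .nil)))))))))) 
(.nd (nat_lit 3) (.nd (nat_lit 4) (.nd (nat_lit 5) (.nd (nat_lit 6) (.nd (nat_lit 7) 
(.nd (nat_lit 8) (.nd (nat_lit 9) 
(.lf (nat_lit 607237) (.g (nat_lit 2093) (.e (nat_lit 802840) (nat_lit 22) (.e (nat_lit 196654) (nat_lit 11) (.e (nat_lit 16436) (nat_lit 9) (.e (nat_lit 426131) (nat_lit 3) (.e (nat_lit 204852) (nat_lit 26) .nil))))) (.g (nat_lit 0) (.e (nat_lit 437051) (nat_lit 0) .nil) .nil))) 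
(.lf (nat_lit 607749) (.g (nat_lit 534) (.e (nat_lit 696343) (nat_lit 8) (.e (nat_lit 172115) (nat_lit 10) (.e (nat_lit 434202) (nat_lit 18) .nil))) (.g (nat_lit 0) (.e (nat_lit 439400) (nat_lit 0) .nil) .nil)))) (.nd (nat_lit 9) 
(.lf (nat_lit 607493) (.g (nat_lit 3569) (.e (nat_lit 688178) (nat_lit 16) (.e (nat_lit 65568) (nat_lit 2) (.e (nat_lit 90170) (nat_lit 13) (.e (nat_lit 172106) (nat_lit 10) (.e (nat_lit 434231) (nat_lit 23) (.e (nat_lit 532577) (nat_lit 17) (.e (nat_lit 3452) (nat_lit 216) .nil))))))) (.g (nat_lit 1) (.e (nat_lit 438231) (nat_lit 0) .nil) .nil))) 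
(.lf (nat_lit 608005) (.g (nat_lit 4216) (.e (nat_lit 696344) (nat_lit 8) (.e (nat_lit 172113) (nat_lit 10) (.e (nat_lit 434203) (nat_lit 18) (.e (nat_lit 6255) (nat_lit 337) (.e (nat_lit 2651) (nat_lit 166) (.e (nat_lit 188439) (nat_lit 20) (.e (nat_lit 3469) (nat_lit 217) .nil))))))) (.g (nat_lit 1) (.e (nat_lit 439822) (nat_lit 0) .nil) .nil))))) (.nd (nat_lit 8) (.nd (nat_lit 9) 
(.lf (nat_lit 607365) (.g (nat_lit 2050) (.e (nat_lit 819221) (nat_lit 6) (.e (nat_lit 188440) (nat_lit 20) (.e (nat_lit 3289) (nat_lit 201) (.e (nat_lit 565269) (nat_lit 6) (.e (nat_lit 81947) (nat_lit 20) (.e (nat_lit 2391) (nat_lit 156) .nil)))))) (.g (nat_lit 1) (.e (nat_lit 437643) (nat_lit 0) .nil) .nil))) 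
(.lf (nat_lit 607877) (.g (nat_lit 3132) (.e (nat_lit 696344) (nat_lit 8) (.e (nat_lit 172079) (nat_lit 7) (.e (nat_lit 409646) (nat_lit 18) (.e (nat_lit 303140) (nat_lit 10) (.e (nat_lit 434275) (nat_lit 39) (.e (nat_lit 663580) (nat_lit 9) (.e (nat_lit 2416) (nat_lit 157) (.e (nat_lit 3469) (nat_lit 217) .nil)))))))) (.g (nat_lit 1) (.e (nat_lit 439625) (nat_lit 0) .nil) .nil)))) 
(.nd (nat_lit 9) 
(.lf (nat_lit 607621) (.g (nat_lit 2250) (.e (nat_lit 696343) (nat_lit 8) (.e (nat_lit 172079) (nat_lit 7) (.e (nat_lit 409645) (nat_lit 18) (.e (nat_lit 303133) (nat_lit 9) (.e (nat_lit 426042) (nat_lit 0) (.e (nat_lit 2447) (nat_lit 157) (.e (nat_lit 5966) (nat_lit 324) (.e (nat_lit 163844) (nat_lit 0) (.e (nat_lit 3471) (nat_lit 217) .nil))))))))) (.g (nat_lit 1) (.e (nat_lit 439090) (nat_lit 0) .nil) .nil))) 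
(.lf (nat_lit 608133) (.g (nat_lit 2665) (.e (nat_lit 704589) (nat_lit 3) (.e (nat_lit 163975) (nat_lit 30) (.e (nat_lit 573482) (nat_lit 13) (.e (nat_lit 65619) (nat_lit 10) (.e (nat_lit 344117) (nat_lit 21) .nil))))) (.g (nat_lit 0) (.e (nat_lit 440363) (nat_lit 0) .nil) .nil)))))) (.nd (nat_lit 7) (.nd (nat_lit 8) (.nd (nat_lit 9) 
(.lf (nat_lit 607301) (.g (nat_lit 854) (.e (nat_lit 819204) (nat_lit 0) (.e (nat_lit 2668) (nat_lit 167) (.e (nat_lit 196670) (nat_lit 14) .nil))) (.g (nat_lit 0) (.e (nat_lit 437358) (nat_lit 0) .nil) .nil))) 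
(.lf (nat_lit 607813) (.g (nat_lit 3878) (.e (nat_lit 696344) (nat_lit 8) (.e (nat_lit 172065) (nat_lit 3) (.e (nat_lit 204869) (nat_lit 29) (.e (nat_lit 360475) (nat_lit 8) (.e (nat_lit 557091) (nat_lit 12) (.e (nat_lit 164019) (nat_lit 45) .nil)))))) (.g (nat_lit 1) (.e (nat_lit 439511) (nat_lit 0) .nil) .nil)))) (.nd (nat_lit 9) 
(.lf (nat_lit 607557) (.g (nat_lit 4698) (.e (nat_lit 696343) (nat_lit 8) (.e (nat_lit 172062) (nat_lit 2) (.e (nat_lit 196666) (nat_lit 13) (.e (nat_lit 65610) (nat_lit 10) (.e (nat_lit 344129) (nat_lit 26) (.e (nat_lit 557089) (nat_lit 12) (.e (nat_lit 164020) (nat_lit 45) .nil))))))) (.g (nat_lit 1) (.e (nat_lit 439015) (nat_lit 0) .nil) .nil))) 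
(.lf (nat_lit 608069) (.g (nat_lit 5135) (.e (nat_lit 696345) (nat_lit 9) (.e (nat_lit 180244) (nat_lit 5) (.e (nat_lit 532550) (nat_lit 12) (.e (nat_lit 360474) (nat_lit 8) (.e (nat_lit 557091) (nat_lit 12) (.e (nat_lit 164020) (nat_lit 45) .nil)))))) (.g (nat_lit 1) (.e (nat_lit 439958) (nat_lit 0) .nil) .nil))))) (.nd (nat_lit 8) (.nd (nat_lit 9) 
(.lf (nat_lit 607429) (.g (nat_lit 2310) (.e (nat_lit 688139) (nat_lit 5) (.e (nat_lit 3062) (nat_lit 190) (.e (nat_lit 475179) (nat_lit 24) (.e (nat_lit 516102) (nat_lit 0) (.e (nat_lit 7936) (nat_lit 392) .nil))))) (.g (nat_lit 0) (.e (nat_lit 437920) (nat_lit 0) .nil) .nil))) 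
(.lf (nat_lit 607941) (.g (nat_lit 3194) (.e (nat_lit 696344) (nat_lit 8) (.e (nat_lit 172082) (nat_lit 7) (.e (nat_lit 409648) (nat_lit 18) (.e (nat_lit 303137) (nat_lit 10) (.e (nat_lit 434275) (nat_lit 39) (.e (nat_lit 663584) (nat_lit 12) (.e (nat_lit 164020) (nat_lit 45) .nil))))))) (.g (nat_lit 1) (.e (nat_lit 439723) (nat_lit 0) .nil) .nil)))) (.nd (nat_lit 9) 
(.lf (nat_lit 607685) (.g (nat_lit 821) (.e (nat_lit 696343) (nat_lit 8) (.e (nat_lit 172105) (nat_lit 10) (.e (nat_lit 434289) (nat_lit 43) (.e (nat_lit 696344) (nat_lit 8) .nil)))) (.g (nat_lit 0) (.e (nat_lit 439256) (nat_lit 0) .nil) .nil))) 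
(.lf (nat_lit 608197) (.g (nat_lit 2522) (.e (nat_lit 704589) (nat_lit 3) (.e (nat_lit 163975) (nat_lit 30) (.e (nat_lit 573492) (nat_lit 15) (.e (nat_lit 81956) (nat_lit 23) (.e (nat_lit 98355) (nat_lit 26) (.e (nat_lit 426416) (nat_lit 15) (.e (nat_lit 2058) (nat_lit 142) .nil))))))) (.g (nat_lit 1) (.e (nat_lit 440533) (nat_lit 0) .nil) .nil))))))) 
(.nd (nat_lit 6) (.nd (nat_lit 7) (.nd (nat_lit 8) (.nd (nat_lit 9) 
(.lf (nat_lit 607269) (.g (nat_lit 433) (.e (nat_lit 811029) (nat_lit 9) (.e (nat_lit 303140) (nat_lit 10) (.e (nat_lit 434219) (nat_lit 19) .nil))) (.g (nat_lit 0) (.e (nat_lit 437166) (nat_lit 0) .nil) .nil))) 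
(.lf (nat_lit 607781) (.g (nat_lit 584) (.e (nat_lit 696343) (nat_lit 8) (.e (nat_lit 172126) (nat_lit 14) (.e (nat_lit 491534) (nat_lit 1) .nil))) (.g (nat_lit 0) (.e (nat_lit 439475) (nat_lit 0) .nil) .nil)))) (.nd (nat_lit 9) 
(.lf (nat_lit 607525) (.g (nat_lit 3269) (.e (nat_lit 696328) (nat_lit 5) (.e (nat_lit 3004) (nat_lit 186) (.e (nat_lit 442390) (nat_lit 11) (.e (nat_lit 336231) (nat_lit 14) (.e (nat_lit 401448) (nat_lit 10) (.e (nat_lit 434289) (nat_lit 43) .nil)))))) (.g (nat_lit 1) (.e (nat_lit 438391) (nat_lit 0) .nil) .nil))) 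
(.lf (nat_lit 608037) (.g (nat_lit 1294) (.e (nat_lit 696344) (nat_lit 8) (.e (nat_lit 172115) (nat_lit 10) (.e (nat_lit 434209) (nat_lit 18) (.e (nat_lit 6426) (nat_lit 342) .nil)))) (.g (nat_lit 0) (.e (nat_lit 439887) (nat_lit 0) .nil) .nil))))) (.nd (nat_lit 8) (.nd (nat_lit 9) 
(.lf (nat_lit 607397) (.g (nat_lit 635) (.e (nat_lit 688138) (nat_lit 5) (.e (nat_lit 2887) (nat_lit 184) (.e (nat_lit 426276) (nat_lit 10) .nil))) (.g (nat_lit 0) (.e (nat_lit 437768) (nat_lit 0) .nil) .nil))) 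
(.lf (nat_lit 607909) (.g (nat_lit 1287) (.e (nat_lit 696344) (nat_lit 8) (.e (nat_lit 172082) (nat_lit 7) (.e (nat_lit 409646) (nat_lit 18) (.e (nat_lit 303133) (nat_lit 9) (.e (nat_lit 426412) (nat_lit 15) .nil))))) (.g (nat_lit 0) (.e (nat_lit 439660) (nat_lit 0) .nil) .nil)))) (.nd (nat_lit 9) 
(.lf (nat_lit 607653) (.g (nat_lit 2026) (.e (nat_lit 696343) (nat_lit 8) (.e (nat_lit 172082) (nat_lit 7) (.e (nat_lit 409646) (nat_lit 18) (.e (nat_lit 303137) (nat_lit 10) .nil)))) (.g (nat_lit 0) (.e (nat_lit 439189) (nat_lit 0) .nil) .nil))) 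
(.lf (nat_lit 608165) (.g (nat_lit 3079) (.e (nat_lit 704589) (nat_lit 3) (.e (nat_lit 163975) (nat_lit 30) (.e (nat_lit 573491) (nat_lit 15) (.e (nat_lit 81954) (nat_lit 23) (.e (nat_lit 98356) (nat_lit 26) (.e (nat_lit 426376) (nat_lit 15) (.e (nat_lit 2056) (nat_lit 142) .nil))))))) (.g (nat_lit 1) (.e (nat_lit 440397) (nat_lit 0) .nil) .nil)))))) 
(.nd (nat_lit 7) (.nd (nat_lit 8) (.nd (nat_lit 9) 
(.lf (nat_lit 607333) (.g (nat_lit 1507) (.e (nat_lit 819219) (nat_lit 4) (.e (nat_lit 172106) (nat_lit 10) (.e (nat_lit 434244) (nat_lit 28) (.e (nat_lit 573503) (nat_lit 18) .nil)))) (.g (nat_lit 0) (.e (nat_lit 437579) (nat_lit 0) .nil) .nil))) 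
(.lf (nat_lit 607845) (.g (nat_lit 2419) (.e (nat_lit 696344) (nat_lit 8) (.e (nat_lit 172078) (nat_lit 7) (.e (nat_lit 409646) (nat_lit 18) (.e (nat_lit 303140) (nat_lit 10) (.e (nat_lit 434275) (nat_lit 39) (.e (nat_lit 663579) (nat_lit 9) (.e (nat_lit 2427) (nat_lit 157) (.e (nat_lit 3471) (nat_lit 217) .nil)))))))) (.g (nat_lit 1) (.e (nat_lit 439546) (nat_lit 0) .nil) .nil)))) 
(.nd (nat_lit 9) 
(.lf (nat_lit 607589) (.g (nat_lit 3221) (.e (nat_lit 696343) (nat_lit 8) (.e (nat_lit 172065) (nat_lit 3) (.e (nat_lit 204869) (nat_lit 29) (.e (nat_lit 360474) (nat_lit 8) (.e (nat_lit 557094) (nat_lit 12) (.e (nat_lit 164018) (nat_lit 45) .nil)))))) (.g (nat_lit 1) (.e (nat_lit 439049) (nat_lit 0) .nil) .nil))) 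
(.lf (nat_lit 608101) (.g (nat_lit 1289) (.e (nat_lit 704588) (nat_lit 3) (.e (nat_lit 163977) (nat_lit 30) (.e (nat_lit 573493) (nat_lit 15) (.e (nat_lit 81956) (nat_lit 23) .nil)))) (.g (nat_lit 0) (.e (nat_lit 440308) (nat_lit 0) .nil) .nil))))) (.nd (nat_lit 8) (.nd (nat_lit 9) 
(.lf (nat_lit 607461) (.g (nat_lit 2119) (.e (nat_lit 688166) (nat_lit 15) (.e (nat_lit 57477) (nat_lit 28) (.e (nat_lit 557104) (nat_lit 14) (.e (nat_lit 180252) (nat_lit 10) (.e (nat_lit 573481) (nat_lit 13) (.e (nat_lit 65570) (nat_lit 3) (.e (nat_lit 98321) (nat_lit 17) (.e (nat_lit 7936) (nat_lit 216) .nil)))))))) (.g (nat_lit 1) (.e (nat_lit 438164) (nat_lit 0) .nil) .nil))) 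
(.lf (nat_lit 607973) (.g (nat_lit 1260) (.e (nat_lit 696344) (nat_lit 8) (.e (nat_lit 172106) (nat_lit 10) (.e (nat_lit 434209) (nat_lit 18) (.e (nat_lit 6426) (nat_lit 342) .nil)))) (.g (nat_lit 0) (.e (nat_lit 439774) (nat_lit 0) .nil) .nil)))) (.nd (nat_lit 9) 
(.lf (nat_lit 607717) (.g (nat_lit 1950) (.e (nat_lit 696343) (nat_lit 8) (.e (nat_lit 172112) (nat_lit 10) (.e (nat_lit 434289) (nat_lit 43) (.e (nat_lit 696346) (nat_lit 10) (.e (nat_lit 188434) (nat_lit 20) (.e (nat_lit 3467) (nat_lit 217) .nil)))))) (.g (nat_lit 1) (.e (nat_lit 439315) (nat_lit 0) .nil) .nil))) 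
(.lf (nat_lit 608229) (.g (nat_lit 4423) (.e (nat_lit 704589) (nat_lit 3) (.e (nat_lit 163975) (nat_lit 30) (.e (nat_lit 573492) (nat_lit 15) (.e (nat_lit 81956) (nat_lit 23) (.e (nat_lit 98356) (nat_lit 26) (.e (nat_lit 426376) (nat_lit 15) (.e (nat_lit 2059) (nat_lit 142) .nil))))))) (.g (nat_lit 1) (.e (nat_lit 440565) (nat_lit 0) .nil) .nil)))))))) 
(.nd (nat_lit 5) (.nd (nat_lit 6) (.nd (nat_lit 7) (.nd (nat_lit 8) (.nd (nat_lit 9) 
(.lf (nat_lit 607253) (.g (nat_lit 838) (.e (nat_lit 811012) (nat_lit 0) (.e (nat_lit 5777) (nat_lit 317) (.e (nat_lit 180241) (nat_lit 4) (.e (nat_lit 524340) (nat_lit 28) (.e (nat_lit 352283) (nat_lit 20) (.e (nat_lit 2384) (nat_lit 155) .nil)))))) (.g (nat_lit 1) (.e (nat_lit 437098) (nat_lit 0) .nil) .nil))) 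
(.lf (nat_lit 607765) (.g (nat_lit 1031) (.e (nat_lit 696343) (nat_lit 8) (.e (nat_lit 172123) (nat_lit 13) (.e (nat_lit 483410) (nat_lit 27) (.e (nat_lit 401440) (nat_lit 9) .nil)))) (.g (nat_lit 0) (.e (nat_lit 439452) (nat_lit 0) .nil) .nil)))) (.nd (nat_lit 9) 
(.lf (nat_lit 607509) (.g (nat_lit 4250) (.e (nat_lit 696328) (nat_lit 5) (.e (nat_lit 2884) (nat_lit 184) (.e (nat_lit 426125) (nat_lit 2) (.e (nat_lit 196666) (nat_lit 13) (.e (nat_lit 65617) (nat_lit 10) (.e (nat_lit 344133) (nat_lit 26) (.e (nat_lit 557089) (nat_lit 12) (.e (nat_lit 164020) (nat_lit 45) .nil)))))))) (.g (nat_lit 1) (.e (nat_lit 438363) (nat_lit 0) .nil) .nil))) 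
(.lf (nat_lit 608021) (.g (nat_lit 1205) (.e (nat_lit 696344) (nat_lit 8) (.e (nat_lit 172115) (nat_lit 10) (.e (nat_lit 434202) (nat_lit 18) (.e (nat_lit 6252) (nat_lit 337) .nil)))) (.g (nat_lit 0) (.e (nat_lit 439863) (nat_lit 0) .nil) .nil))))) (.nd (nat_lit 8) (.nd (nat_lit 9) 
(.lf (nat_lit 607381) (.g (nat_lit 2153) (.e (nat_lit 819237) (nat_lit 11) (.e (nat_lit 16468) (nat_lit 13) (.e (nat_lit 483372) (nat_lit 21) (.e (nat_lit 319532) (nat_lit 16) (.e (nat_lit 286725) (nat_lit 0) .nil))))) (.g (nat_lit 0) (.e (nat_lit 437682) (nat_lit 0) .nil) .nil))) 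
(.lf (nat_lit 607893) (.g (nat_lit 2671) (.e (nat_lit 696344) (nat_lit 8) (.e (nat_lit 172081) (nat_lit 7) (.e (nat_lit 409649) (nat_lit 18) (.e (nat_lit 303140) (nat_lit 10) (.e (nat_lit 434275) (nat_lit 39) (.e (nat_lit 663580) (nat_lit 9) (.e (nat_lit 7936) (nat_lit 157) (.e (nat_lit 3471) (nat_lit 217) .nil)))))))) (.g (nat_lit 1) (.e (nat_lit 439641) (nat_lit 0) .nil) .nil)))) 
(.nd (nat_lit 9) 
(.lf (nat_lit 607637) (.g (nat_lit 2297) (.e (nat_lit 696343) (nat_lit 8) (.e (nat_lit 172082) (nat_lit 7) (.e (nat_lit 409646) (nat_lit 18) (.e (nat_lit 303127) (nat_lit 9) (.e (nat_lit 426449) (nat_lit 20) .nil))))) (.g (nat_lit 0) (.e (nat_lit 439139) (nat_lit 0) .nil) .nil))) 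
(.lf (nat_lit 608149) (.g (nat_lit 3021) (.e (nat_lit 704589) (nat_lit 3) (.e (nat_lit 163975) (nat_lit 30) (.e (nat_lit 573491) (nat_lit 15) (.e (nat_lit 81954) (nat_lit 23) (.e (nat_lit 98356) (nat_lit 26) (.e (nat_lit 426352) (nat_lit 15) (.e (nat_lit 7936) (nat_lit 142) .nil))))))) (.g (nat_lit 1) (.e (nat_lit 440381) (nat_lit 0) .nil) .nil)))))) 
(.nd (nat_lit 7) (.nd (nat_lit 8) (.nd (nat_lit 9) 
(.lf (nat_lit 607317) (.g (nat_lit 1684) (.e (nat_lit 819217) (nat_lit 4) (.e (nat_lit 172115) (nat_lit 10) (.e (nat_lit 434244) (nat_lit 28) (.e (nat_lit 573502) (nat_lit 18) .nil)))) (.g (nat_lit 0) (.e (nat_lit 437515) (nat_lit 0) .nil) .nil))) 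
(.lf (nat_lit 607829) (.g (nat_lit 4236) (.e (nat_lit 696344) (nat_lit 8) (.e (nat_lit 172067) (nat_lit 3) (.e (nat_lit 204868) (nat_lit 29) (.e (nat_lit 360475) (nat_lit 8) (.e (nat_lit 557091) (nat_lit 12) (.e (nat_lit 164018) (nat_lit 45) .nil)))))) (.g (nat_lit 1) (.e (nat_lit 439529) (nat_lit 0) .nil) .nil)))) (.nd (nat_lit 9) 
(.lf (nat_lit 607573) (.g (nat_lit 5297) (.e (nat_lit 696343) (nat_lit 8) (.e (nat_lit 172064) (nat_lit 2) (.e (nat_lit 196666) (nat_lit 13) (.e (nat_lit 65610) (nat_lit 10) (.e (nat_lit 344129) (nat_lit 26) (.e (nat_lit 557089) (nat_lit 12) (.e (nat_lit 164020) (nat_lit 45) .nil))))))) (.g (nat_lit 1) (.e (nat_lit 439031) (nat_lit 0) .nil) .nil))) 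
(.lf (nat_lit 608085) (.g (nat_lit 2729) (.e (nat_lit 696348) (nat_lit 12) (.e (nat_lit 237590) (nat_lit 2) (.e (nat_lit 196666) (nat_lit 13) (.e (nat_lit 65617) (nat_lit 10) (.e (nat_lit 344132) (nat_lit 26) (.e (nat_lit 557093) (nat_lit 12) (.e (nat_lit 164018) (nat_lit 45) .nil))))))) (.g (nat_lit 1) (.e (nat_lit 440142) (nat_lit 0) .nil) .nil))))) (.nd (nat_lit 8) (.nd (nat_lit 9) 
(.lf (nat_lit 607445) (.g (nat_lit 2220) (.e (nat_lit 688139) (nat_lit 5) (.e (nat_lit 3062) (nat_lit 190) (.e (nat_lit 475179) (nat_lit 24) (.e (nat_lit 516176) (nat_lit 14) (.e (nat_lit 466946) (nat_lit 0) .nil))))) (.g (nat_lit 0) (.e (nat_lit 437937) (nat_lit 0) .nil) .nil))) 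
(.lf (nat_lit 607957) (.g (nat_lit 2721) (.e (nat_lit 696344) (nat_lit 8) (.e (nat_lit 172106) (nat_lit 10) (.e (nat_lit 434202) (nat_lit 18) (.e (nat_lit 6416) (nat_lit 341) (.e (nat_lit 163903) (nat_lit 12) (.e (nat_lit 426294) (nat_lit 11) (.e (nat_lit 458810) (nat_lit 43) .nil))))))) (.g (nat_lit 1) (.e (nat_lit 439754) (nat_lit 0) .nil) .nil)))) (.nd (nat_lit 9) 
(.lf (nat_lit 607701) (.g (nat_lit 3041) (.e (nat_lit 696343) (nat_lit 8) (.e (nat_lit 172106) (nat_lit 10) (.e (nat_lit 434209) (nat_lit 18) (.e (nat_lit 6425) (nat_lit 342) (.e (nat_lit 229412) (nat_lit 14) (.e (nat_lit 442411) (nat_lit 20) (.e (nat_lit 3467) (nat_lit 217) .nil))))))) (.g (nat_lit 1) (.e (nat_lit 439284) (nat_lit 0) .nil) .nil))) 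
(.lf (nat_lit 608213) (.g (nat_lit 3805) (.e (nat_lit 704589) (nat_lit 3) (.e (nat_lit 163975) (nat_lit 30) (.e (nat_lit 573492) (nat_lit 15) (.e (nat_lit 81956) (nat_lit 23) (.e (nat_lit 98356) (nat_lit 26) (.e (nat_lit 426360) (nat_lit 15) (.e (nat_lit 2063) (nat_lit 142) .nil))))))) (.g (nat_lit 1) (.e (nat_lit 440549) (nat_lit 0) .nil) .nil))))))) 
(.nd (nat_lit 6) (.nd (nat_lit 7) (.nd (nat_lit 8) (.nd (nat_lit 9) 
(.lf (nat_lit 607285) (.g (nat_lit 465) (.e (nat_lit 819202) (nat_lit 0) (.e (nat_lit 3022) (nat_lit 187) (.e (nat_lit 450584) (nat_lit 9) .nil))) (.g (nat_lit 0) (.e (nat_lit 437254) (nat_lit 0) .nil) .nil))) 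
(.lf (nat_lit 607797) (.g (nat_lit 3716) (.e (nat_lit 696344) (nat_lit 8) (.e (nat_lit 172064) (nat_lit 2) (.e (nat_lit 196666) (nat_lit 13) (.e (nat_lit 65610) (nat_lit 10) (.e (nat_lit 344129) (nat_lit 26) (.e (nat_lit 557067) (nat_lit 9) (.e (nat_lit 2466) (nat_lit 157) (.e (nat_lit 3467) (nat_lit 217) .nil)))))))) (.g (nat_lit 1) (.e (nat_lit 439494) (nat_lit 0) .nil) .nil)))) 
(.nd (nat_lit 9) 
(.lf (nat_lit 607541) (.g (nat_lit 3273) (.e (nat_lit 696329) (nat_lit 5) (.e (nat_lit 2988) (nat_lit 186) (.e (nat_lit 442390) (nat_lit 11) (.e (nat_lit 336231) (nat_lit 14) (.e (nat_lit 401448) (nat_lit 10) (.e (nat_lit 434289) (nat_lit 43) .nil)))))) (.g (nat_lit 1) (.e (nat_lit 438471) (nat_lit 0) .nil) .nil))) 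
(.lf (nat_lit 608053) (.g (nat_lit 2355) (.e (nat_lit 696344) (nat_lit 8) (.e (nat_lit 172116) (nat_lit 10) (.e (nat_lit 434289) (nat_lit 43) (.e (nat_lit 696346) (nat_lit 10) (.e (nat_lit 188434) (nat_lit 20) (.e (nat_lit 3467) (nat_lit 217) .nil)))))) (.g (nat_lit 1) (.e (nat_lit 439908) (nat_lit 0) .nil) .nil))))) (.nd (nat_lit 8) (.nd (nat_lit 9) 
(.lf (nat_lit 607413) (.g (nat_lit 3217) (.e (nat_lit 688139) (nat_lit 5) (.e (nat_lit 2887) (nat_lit 184) (.e (nat_lit 426140) (nat_lit 3) (.e (nat_lit 204868) (nat_lit 29) (.e (nat_lit 360473) (nat_lit 8) (.e (nat_lit 557091) (nat_lit 12) (.e (nat_lit 164016) (nat_lit 44) .nil))))))) (.g (nat_lit 1) (.e (nat_lit 437848) (nat_lit 0) .nil) .nil))) 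
(.lf (nat_lit 607925) (.g (nat_lit 3188) (.e (nat_lit 696344) (nat_lit 8) (.e (nat_lit 172082) (nat_lit 7) (.e (nat_lit 409646) (nat_lit 18) (.e (nat_lit 303140) (nat_lit 10) (.e (nat_lit 434275) (nat_lit 39) (.e (nat_lit 663580) (nat_lit 9) (.e (nat_lit 2416) (nat_lit 157) (.e (nat_lit 3467) (nat_lit 217) .nil)))))))) (.g (nat_lit 1) (.e (nat_lit 439697) (nat_lit 0) .nil) .nil)))) 
(.nd (nat_lit 9) 
(.lf (nat_lit 607669) (.g (nat_lit 2762) (.e (nat_lit 696343) (nat_lit 8) (.e (nat_lit 172082) (nat_lit 7) (.e (nat_lit 409646) (nat_lit 18) (.e (nat_lit 303140) (nat_lit 10) (.e (nat_lit 434275) (nat_lit 39) (.e (nat_lit 663579) (nat_lit 9) (.e (nat_lit 2429) (nat_lit 157) (.e (nat_lit 3471) (nat_lit 217) .nil)))))))) (.g (nat_lit 1) (.e (nat_lit 439205) (nat_lit 0) .nil) .nil))) 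
(.lf (nat_lit 608181) (.g (nat_lit 1045) (.e (nat_lit 704589) (nat_lit 3) (.e (nat_lit 163975) (nat_lit 30) (.e (nat_lit 573492) (nat_lit 15) (.e (nat_lit 81953) (nat_lit 22) .nil)))) (.g (nat_lit 0) (.e (nat_lit 440420) (nat_lit 0) .nil) .nil)))))) (.nd (nat_lit 7) (.nd (nat_lit 8) (.nd (nat_lit 9) 
(.lf (nat_lit 607349) (.g (nat_lit 1474) (.e (nat_lit 819221) (nat_lit 6) (.e (nat_lit 188435) (nat_lit 20) (.e (nat_lit 3289) (nat_lit 201) (.e (nat_lit 565269) (nat_lit 6) (.e (nat_lit 81946) (nat_lit 20) (.e (nat_lit 2390) (nat_lit 156) .nil)))))) (.g (nat_lit 1) (.e (nat_lit 437627) (nat_lit 0) .nil) .nil))) 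
(.lf (nat_lit 607861) (.g (nat_lit 1363) (.e (nat_lit 696344) (nat_lit 8) (.e (nat_lit 172079) (nat_lit 7) (.e (nat_lit 409645) (nat_lit 18) (.e (nat_lit 303133) (nat_lit 9) (.e (nat_lit 426412) (nat_lit 15) .nil))))) (.g (nat_lit 0) (.e (nat_lit 439570) (nat_lit 0) .nil) .nil)))) (.nd (nat_lit 9) 
(.lf (nat_lit 607605) (.g (nat_lit 3866) (.e (nat_lit 696343) (nat_lit 8) (.e (nat_lit 172067) (nat_lit 3) (.e (nat_lit 204868) (nat_lit 29) (.e (nat_lit 360475) (nat_lit 8) (.e (nat_lit 557090) (nat_lit 12) (.e (nat_lit 164020) (nat_lit 45) .nil)))))) (.g (nat_lit 1) (.e (nat_lit 439068) (nat_lit 0) .nil) .nil))) 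
(.lf (nat_lit 608117) (.g (nat_lit 3305) (.e (nat_lit 704589) (nat_lit 3) (.e (nat_lit 163975) (nat_lit 30) (.e (nat_lit 573481) (nat_lit 13) (.e (nat_lit 65619) (nat_lit 10) (.e (nat_lit 344117) (nat_lit 21) (.e (nat_lit 516144) (nat_lit 9) (.e (nat_lit 426376) (nat_lit 15) (.e (nat_lit 2057) (nat_lit 142) .nil)))))))) (.g (nat_lit 1) (.e (nat_lit 440347) (nat_lit 0) .nil) .nil))))) 
(.nd (nat_lit 8) (.nd (nat_lit 9) 
(.lf (nat_lit 607477) (.g (nat_lit 3601) (.e (nat_lit 688166) (nat_lit 15) (.e (nat_lit 57479) (nat_lit 28) (.e (nat_lit 557105) (nat_lit 14) (.e (nat_lit 180252) (nat_lit 10) (.e (nat_lit 573487) (nat_lit 14) (.e (nat_lit 73747) (nat_lit 3) (.e (nat_lit 516097) (nat_lit 0) (.e (nat_lit 3454) (nat_lit 216) .nil)))))))) (.g (nat_lit 1) (.e (nat_lit 438180) (nat_lit 0) .nil) .nil))) 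
(.lf (nat_lit 607989) (.g (nat_lit 2146) (.e (nat_lit 696344) (nat_lit 8) (.e (nat_lit 172106) (nat_lit 10) (.e (nat_lit 434289) (nat_lit 43) (.e (nat_lit 696346) (nat_lit 10) (.e (nat_lit 188441) (nat_lit 20) (.e (nat_lit 3468) (nat_lit 217) .nil)))))) (.g (nat_lit 1) (.e (nat_lit 439792) (nat_lit 0) .nil) .nil)))) (.nd (nat_lit 9) 
(.lf (nat_lit 607733) (.g (nat_lit 1088) (.e (nat_lit 696343) (nat_lit 8) (.e (nat_lit 172113) (nat_lit 10) (.e (nat_lit 434208) (nat_lit 18) (.e (nat_lit 6255) (nat_lit 337) .nil)))) (.g (nat_lit 0) (.e (nat_lit 439366) (nat_lit 0) .nil) .nil))) 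
(.lf (nat_lit 608245) (.g (nat_lit 4076) (.e (nat_lit 704589) (nat_lit 3) (.e (nat_lit 163975) (nat_lit 30) (.e (nat_lit 573492) (nat_lit 15) (.e (nat_lit 81956) (nat_lit 23) (.e (nat_lit 98362) (nat_lit 26) (.e (nat_lit 426410) (nat_lit 15) (.e (nat_lit 2059) (nat_lit 142) .nil))))))) (.g (nat_lit 1) (.e (nat_lit 440581) (nat_lit 0) .nil) .nil))))))))) 
(.nd (nat_lit 4) (.nd (nat_lit 5) (.nd (nat_lit 6) (.nd (nat_lit 7) (.nd (nat_lit 8) 
(.nd (nat_lit 9) 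
(.lf (nat_lit 607245) (.g (nat_lit 1011) (.e (nat_lit 811011) (nat_lit 0) (.e (nat_lit 5776) (nat_lit 317) (.e (nat_lit 180241) (nat_lit 4) (.e (nat_lit 524340) (nat_lit 28) (.e (nat_lit 352283) (nat_lit 20) (.e (nat_lit 2384) (nat_lit 155) .nil)))))) (.g (nat_lit 1) (.e (nat_lit 437085) (nat_lit 0) .nil) .nil))) 
(.lf (nat_lit 607757) (.g (nat_lit 2338) (.e (nat_lit 696343) (nat_lit 8) (.e (nat_lit 172115) (nat_lit 10) (.e (nat_lit 434289) (nat_lit 43) (.e (nat_lit 696346) (nat_lit 10) (.e (nat_lit 188435) (nat_lit 20) (.e (nat_lit 3468) (nat_lit 217) .nil)))))) (.g (nat_lit 1) (.e (nat_lit 439423) (nat_lit 0) .nil) .nil)))) (.nd (nat_lit 9) 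
(.lf (nat_lit 607501) (.g (nat_lit 2513) (.e (nat_lit 688182) (nat_lit 17) (.e (nat_lit 73755) (nat_lit 8) (.e (nat_lit 557067) (nat_lit 9) (.e (nat_lit 3096) (nat_lit 192) (.e (nat_lit 491571) (nat_lit 13) (.e (nat_lit 393242) (nat_lit 17) (.e (nat_lit 3452) (nat_lit 216) .nil))))))) (.g (nat_lit 1) (.e (nat_lit 438249) (nat_lit 0) .nil) .nil))) 
(.lf (nat_lit 608013) (.g (nat_lit 2280) (.e (nat_lit 696344) (nat_lit 8) (.e (nat_lit 172113) (nat_lit 10) (.e (nat_lit 434289) (nat_lit 43) (.e (nat_lit 696346) (nat_lit 10) (.e (nat_lit 188435) (nat_lit 20) (.e (nat_lit 3467) (nat_lit 217) .nil)))))) (.g (nat_lit 1) (.e (nat_lit 439855) (nat_lit 0) .nil) .nil))))) (.nd (nat_lit 8) (.nd (nat_lit 9) 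
(.lf (nat_lit 607373) (.g (nat_lit 1073) (.e (nat_lit 819237) (nat_lit 11) (.e (nat_lit 16437) (nat_lit 9) (.e (nat_lit 426482) (nat_lit 27) (.e (nat_lit 336060) (nat_lit 7) .nil)))) (.g (nat_lit 0) (.e (nat_lit 437674) (nat_lit 0) .nil) .nil))) 
(.lf (nat_lit 607885) (.g (nat_lit 3252) (.e (nat_lit 696344) (nat_lit 8) (.e (nat_lit 172079) (nat_lit 7) (.e (nat_lit 409649) (nat_lit 18) (.e (nat_lit 303140) (nat_lit 10) (.e (nat_lit 434275) (nat_lit 39) (.e (nat_lit 663584) (nat_lit 12) (.e (nat_lit 164018) (nat_lit 45) .nil))))))) (.g (nat_lit 1) (.e (nat_lit 439633) (nat_lit 0) .nil) .nil)))) (.nd (nat_lit 9) 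
(.lf (nat_lit 607629) (.g (nat_lit 2806) (.e (nat_lit 696343) (nat_lit 8) (.e (nat_lit 172079) (nat_lit 7) (.e (nat_lit 409649) (nat_lit 18) (.e (nat_lit 303140) (nat_lit 10) (.e (nat_lit 434202) (nat_lit 18) (.e (nat_lit 5964) (nat_lit 324) (.e (nat_lit 163844) (nat_lit 0) (.e (nat_lit 3471) (nat_lit 217) .nil)))))))) (.g (nat_lit 1) (.e (nat_lit 439130) (nat_lit 0) .nil) .nil))) 
(.lf (nat_lit 608141) (.g (nat_lit 1338) (.e (nat_lit 704589) (nat_lit 3) (.e (nat_lit 163975) (nat_lit 30) (.e (nat_lit 573491) (nat_lit 15) (.e (nat_lit 81954) (nat_lit 23) (.e (nat_lit 98355) (nat_lit 26) .nil))))) (.g (nat_lit 0) (.e (nat_lit 440373) (nat_lit 0) .nil) .nil)))))) (.nd (nat_lit 7) (.nd (nat_lit 8) (.nd (nat_lit 9) 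
(.lf (nat_lit 607309) (.g (nat_lit 1851) (.e (nat_lit 819204) (nat_lit 0) (.e (nat_lit 3022) (nat_lit 187) (.e (nat_lit 450584) (nat_lit 9) (.e (nat_lit 565252) (nat_lit 0) (.e (nat_lit 1599) (nat_lit 111) (.e (nat_lit 360493) (nat_lit 27) .nil)))))) (.g (nat_lit 1) (.e (nat_lit 437451) (nat_lit 0) .nil) .nil))) 
(.lf (nat_lit 607821) (.g (nat_lit 3773) (.e (nat_lit 696344) (nat_lit 8) (.e (nat_lit 172067) (nat_lit 3) (.e (nat_lit 204868) (nat_lit 29) (.e (nat_lit 360473) (nat_lit 8) (.e (nat_lit 557067) (nat_lit 9) (.e (nat_lit 2467) (nat_lit 157) (.e (nat_lit 3469) (nat_lit 217) .nil))))))) (.g (nat_lit 1) (.e (nat_lit 439521) (nat_lit 0) .nil) .nil)))) (.nd (nat_lit 9) 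
(.lf (nat_lit 607565) (.g (nat_lit 3509) (.e (nat_lit 696343) (nat_lit 8) (.e (nat_lit 172062) (nat_lit 2) (.e (nat_lit 196666) (nat_lit 13) (.e (nat_lit 65617) (nat_lit 10) (.e (nat_lit 344132) (nat_lit 26) (.e (nat_lit 557094) (nat_lit 12) (.e (nat_lit 164018) (nat_lit 45) .nil))))))) (.g (nat_lit 1) (.e (nat_lit 439023) (nat_lit 0) .nil) .nil))) 
(.lf (nat_lit 608077) (.g (nat_lit 3714) (.e (nat_lit 696346) (nat_lit 10) (.e (nat_lit 188441) (nat_lit 20) (.e (nat_lit 3469) (nat_lit 217) (.e (nat_lit 696344) (nat_lit 8) (.e (nat_lit 172113) (nat_lit 10) (.e (nat_lit 434289) (nat_lit 43) .nil)))))) (.g (nat_lit 1) (.e (nat_lit 440053) (nat_lit 0) .nil) .nil))))) (.nd (nat_lit 8) (.nd (nat_lit 9) 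
(.lf (nat_lit 607437) (.g (nat_lit 1607) (.e (nat_lit 688139) (nat_lit 5) (.e (nat_lit 3062) (nat_lit 190) (.e (nat_lit 475179) (nat_lit 24) (.e (nat_lit 516164) (nat_lit 11) .nil)))) (.g (nat_lit 0) (.e (nat_lit 437929) (nat_lit 0) .nil) .nil))) 
(.lf (nat_lit 607949) (.g (nat_lit 2211) (.e (nat_lit 696344) (nat_lit 8) (.e (nat_lit 172082) (nat_lit 7) (.e (nat_lit 409649) (nat_lit 18) (.e (nat_lit 303140) (nat_lit 10) (.e (nat_lit 434275) (nat_lit 39) (.e (nat_lit 663580) (nat_lit 9) (.e (nat_lit 7936) (nat_lit 157) (.e (nat_lit 3467) (nat_lit 217) .nil)))))))) (.g (nat_lit 1) (.e (nat_lit 439731) (nat_lit 0) .nil) .nil)))) 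
(.nd (nat_lit 9) 
(.lf (nat_lit 607693) (.g (nat_lit 1330) (.e (nat_lit 696343) (nat_lit 8) (.e (nat_lit 172106) (nat_lit 10) (.e (nat_lit 434209) (nat_lit 18) (.e (nat_lit 6273) (nat_lit 337) .nil)))) (.g (nat_lit 0) (.e (nat_lit 439272) (nat_lit 0) .nil) .nil))) 
(.lf (nat_lit 608205) (.g (nat_lit 3371) (.e (nat_lit 704589) (nat_lit 3) (.e (nat_lit 163975) (nat_lit 30) (.e (nat_lit 573492) (nat_lit 15) (.e (nat_lit 81956) (nat_lit 23) (.e (nat_lit 98356) (nat_lit 26) (.e (nat_lit 426354) (nat_lit 15) (.e (nat_lit 2050) (nat_lit 142) .nil))))))) (.g (nat_lit 1) (.e (nat_lit 440541) (nat_lit 0) .nil) .nil))))))) 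
(.nd (nat_lit 6) (.nd (nat_lit 7) (.nd (nat_lit 8) (.nd (nat_lit 9) 
(.lf (nat_lit 607277) (.g (nat_lit 1625) (.e (nat_lit 811045) (nat_lit 14) (.e (nat_lit 40993) (nat_lit 11) (.e (nat_lit 24617) (nat_lit 7) (.e (nat_lit 319534) (nat_lit 16) (.e (nat_lit 286759) (nat_lit 12) .nil))))) (.g (nat_lit 0) (.e (nat_lit 437197) (nat_lit 0) .nil) .nil))) 
(.lf (nat_lit 607789) (.g (nat_lit 4200) (.e (nat_lit 696344) (nat_lit 8) (.e (nat_lit 172062) (nat_lit 2) (.e (nat_lit 196666) (nat_lit 13) (.e (nat_lit 65617) (nat_lit 10) (.e (nat_lit 344130) (nat_lit 26) (.e (nat_lit 557090) (nat_lit 12) (.e (nat_lit 164019) (nat_lit 45) .nil))))))) (.g (nat_lit 1) (.e (nat_lit 439486) (nat_lit 0) .nil) .nil)))) (.nd (nat_lit 9) 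
(.lf (nat_lit 607533) (.g (nat_lit 4071) (.e (nat_lit 696329) (nat_lit 5) (.e (nat_lit 2884) (nat_lit 184) (.e (nat_lit 426140) (nat_lit 3) (.e (nat_lit 204869) (nat_lit 29) (.e (nat_lit 360475) (nat_lit 8) (.e (nat_lit 557089) (nat_lit 12) (.e (nat_lit 164020) (nat_lit 45) .nil))))))) (.g (nat_lit 1) (.e (nat_lit 438452) (nat_lit 0) .nil) .nil))) 
(.lf (nat_lit 608045) (.g (nat_lit 2327) (.e (nat_lit 696344) (nat_lit 8) (.e (nat_lit 172115) (nat_lit 10) (.e (nat_lit 434289) (nat_lit 43) (.e (nat_lit 696344) (nat_lit 8) (.e (nat_lit 172106) (nat_lit 10) (.e (nat_lit 434287) (nat_lit 43) .nil)))))) (.g (nat_lit 1) (.e (nat_lit 439900) (nat_lit 0) .nil) .nil))))) (.nd (nat_lit 8) (.nd (nat_lit 9) 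
(.lf (nat_lit 607405) (.g (nat_lit 1131) (.e (nat_lit 688138) (nat_lit 5) (.e (nat_lit 3062) (nat_lit 190) (.e (nat_lit 475179) (nat_lit 24) (.e (nat_lit 516176) (nat_lit 14) .nil)))) (.g (nat_lit 0) (.e (nat_lit 437827) (nat_lit 0) .nil) .nil))) 
(.lf (nat_lit 607917) (.g (nat_lit 2739) (.e (nat_lit 696344) (nat_lit 8) (.e (nat_lit 172082) (nat_lit 7) (.e (nat_lit 409646) (nat_lit 18) (.e (nat_lit 303140) (nat_lit 10) (.e (nat_lit 434202) (nat_lit 18) (.e (nat_lit 5965) (nat_lit 324) (.e (nat_lit 163844) (nat_lit 0) (.e (nat_lit 3471) (nat_lit 217) .nil)))))))) (.g (nat_lit 1) (.e (nat_lit 439689) (nat_lit 0) .nil) .nil)))) 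
(.nd (nat_lit 9) 
(.lf (nat_lit 607661) (.g (nat_lit 2952) (.e (nat_lit 696343) (nat_lit 8) (.e (nat_lit 172082) (nat_lit 7) (.e (nat_lit 409646) (nat_lit 18) (.e (nat_lit 303140) (nat_lit 10) (.e (nat_lit 434202) (nat_lit 18) (.e (nat_lit 5966) (nat_lit 324) (.e (nat_lit 163844) (nat_lit 0) (.e (nat_lit 3471) (nat_lit 217) .nil)))))))) (.g (nat_lit 1) (.e (nat_lit 439197) (nat_lit 0) .nil) .nil))) 
(.lf (nat_lit 608173) (.g (nat_lit 2502) (.e (nat_lit 704589) (nat_lit 3) (.e (nat_lit 163975) (nat_lit 30) (.e (nat_lit 573491) (nat_lit 15) (.e (nat_lit 81954) (nat_lit 23) (.e (nat_lit 98359) (nat_lit 26) (.e (nat_lit 426410) (nat_lit 15) (.e (nat_lit 2057) (nat_lit 142) .nil))))))) (.g (nat_lit 1) (.e (nat_lit 440405) (nat_lit 0) .nil) .nil)))))) 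
(.nd (nat_lit 7) (.nd (nat_lit 8) (.nd (nat_lit 9) 
(.lf (nat_lit 607341) (.g (nat_lit 1232) (.e (nat_lit 819219) (nat_lit 4) (.e (nat_lit 172115) (nat_lit 10) (.e (nat_lit 434244) (nat_lit 28) (.e (nat_lit 573503) (nat_lit 18) .nil)))) (.g (nat_lit 0) (.e (nat_lit 437604) (nat_lit 0) .nil) .nil))) 
(.lf (nat_lit 607853) (.g (nat_lit 2843) (.e (nat_lit 696344) (nat_lit 8) (.e (nat_lit 172078) (nat_lit 7) (.e (nat_lit 409649) (nat_lit 18) (.e (nat_lit 303140) (nat_lit 10) (.e (nat_lit 434275) (nat_lit 39) (.e (nat_lit 663580) (nat_lit 9) (.e (nat_lit 7936) (nat_lit 157) (.e (nat_lit 3471) (nat_lit 217) .nil)))))))) (.g (nat_lit 1) (.e (nat_lit 439554) (nat_lit 0) .nil) .nil)))) 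
(.nd (nat_lit 9) 
(.lf (nat_lit 607597) (.g (nat_lit 2947) (.e (nat_lit 696343) (nat_lit 8) (.e (nat_lit 172066) (nat_lit 3) (.e (nat_lit 204869) (nat_lit 29) (.e (nat_lit 360475) (nat_lit 8) (.e (nat_lit 557091) (nat_lit 12) (.e (nat_lit 164018) (nat_lit 45) .nil)))))) (.g (nat_lit 1) (.e (nat_lit 439057) (nat_lit 0) .nil) .nil))) 
(.lf (nat_lit 608109) (.g (nat_lit 2898) (.e (nat_lit 704589) (nat_lit 3) (.e (nat_lit 163975) (nat_lit 30) (.e (nat_lit 573481) (nat_lit 13) (.e (nat_lit 65604) (nat_lit 9) (.e (nat_lit 336028) (nat_lit 3) (.e (nat_lit 98362) (nat_lit 26) (.e (nat_lit 426412) (nat_lit 15) (.e (nat_lit 2059) (nat_lit 142) .nil)))))))) (.g (nat_lit 1) (.e (nat_lit 440338) (nat_lit 0) .nil) .nil))))) 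
(.nd (nat_lit 8) (.nd (nat_lit 9) 
(.lf (nat_lit 607469) (.g (nat_lit 1622) (.e (nat_lit 688166) (nat_lit 15) (.e (nat_lit 57479) (nat_lit 28) (.e (nat_lit 557103) (nat_lit 14) (.e (nat_lit 180250) (nat_lit 10) .nil)))) (.g (nat_lit 0) (.e (nat_lit 438172) (nat_lit 0) .nil) .nil))) 
(.lf (nat_lit 607981) (.g (nat_lit 2190) (.e (nat_lit 696344) (nat_lit 8) (.e (nat_lit 172106) (nat_lit 10) (.e (nat_lit 434288) (nat_lit 43) (.e (nat_lit 696346) (nat_lit 10) (.e (nat_lit 188438) (nat_lit 20) (.e (nat_lit 3468) (nat_lit 217) .nil)))))) (.g (nat_lit 1) (.e (nat_lit 439782) (nat_lit 0) .nil) .nil)))) (.nd (nat_lit 9) 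
(.lf (nat_lit 607725) (.g (nat_lit 1861) (.e (nat_lit 696343) (nat_lit 8) (.e (nat_lit 172113) (nat_lit 10) (.e (nat_lit 434207) (nat_lit 18) (.e (nat_lit 6252) (nat_lit 337) (.e (nat_lit 2725) (nat_lit 172) (.e (nat_lit 237605) (nat_lit 9) (.e (nat_lit 425986) (nat_lit 0) (.e (nat_lit 3471) (nat_lit 217) .nil)))))))) (.g (nat_lit 1) (.e (nat_lit 439341) (nat_lit 0) .nil) .nil))) 
(.lf (nat_lit 608237) (.g (nat_lit 2783) (.e (nat_lit 704589) (nat_lit 3) (.e (nat_lit 163975) (nat_lit 30) (.e (nat_lit 573492) (nat_lit 15) (.e (nat_lit 81956) (nat_lit 23) (.e (nat_lit 98357) (nat_lit 26) (.e (nat_lit 426375) (nat_lit 15) (.e (nat_lit 2059) (nat_lit 142) .nil))))))) (.g (nat_lit 1) (.e (nat_lit 440573) (nat_lit 0) .nil) .nil)))))))) 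
(.nd (nat_lit 5) (.nd (nat_lit 6) (.nd (nat_lit 7) (.nd (nat_lit 8) (.nd (nat_lit 9) 
(.lf (nat_lit 607261) (.g (nat_lit 1310) (.e (nat_lit 811018) (nat_lit 0) (.e (nat_lit 5750) (nat_lit 314) (.e (nat_lit 24632) (nat_lit 9) (.e (nat_lit 336028) (nat_lit 3) (.e (nat_lit 106240) (nat_lit 15) (.e (nat_lit 385115) (nat_lit 53) .nil)))))) (.g (nat_lit 1) (.e (nat_lit 437111) (nat_lit 0) .nil) .nil))) 
(.lf (nat_lit 607773) (.g (nat_lit 1776) (.e (nat_lit 696343) (nat_lit 8) (.e (nat_lit 172123) (nat_lit 13) (.e (nat_lit 483412) (nat_lit 27) (.e (nat_lit 401439) (nat_lit 9) (.e (nat_lit 426043) (nat_lit 0) (.e (nat_lit 3468) (nat_lit 217) .nil)))))) (.g (nat_lit 1) (.e (nat_lit 439464) (nat_lit 0) .nil) .nil)))) (.nd (nat_lit 9) 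
(.lf (nat_lit 607517) (.g (nat_lit 4257) (.e (nat_lit 696328) (nat_lit 5) (.e (nat_lit 2884) (nat_lit 184) (.e (nat_lit 426140) (nat_lit 3) (.e (nat_lit 204869) (nat_lit 29) (.e (nat_lit 360475) (nat_lit 8) (.e (nat_lit 557091) (nat_lit 12) (.e (nat_lit 164020) (nat_lit 45) .nil))))))) (.g (nat_lit 1) (.e (nat_lit 438375) (nat_lit 0) .nil) .nil))) 
(.lf (nat_lit 608029) (.g (nat_lit 1663) (.e (nat_lit 696344) (nat_lit 8) (.e (nat_lit 172115) (nat_lit 10) (.e (nat_lit 434209) (nat_lit 18) (.e (nat_lit 6273) (nat_lit 337) (.e (nat_lit 2645) (nat_lit 166) (.e (nat_lit 188439) (nat_lit 20) (.e (nat_lit 3467) (nat_lit 217) .nil))))))) (.g (nat_lit 1) (.e (nat_lit 439878) (nat_lit 0) .nil) .nil))))) (.nd (nat_lit 8) (.nd (nat_lit 9) 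
(.lf (nat_lit 607389) (.g (nat_lit 5316) (.e (nat_lit 688138) (nat_lit 5) (.e (nat_lit 2887) (nat_lit 184) (.e (nat_lit 426135) (nat_lit 3) (.e (nat_lit 204869) (nat_lit 29) (.e (nat_lit 360475) (nat_lit 8) (.e (nat_lit 557091) (nat_lit 12) (.e (nat_lit 164016) (nat_lit 44) .nil))))))) (.g (nat_lit 1) (.e (nat_lit 437753) (nat_lit 0) .nil) .nil))) 
(.lf (nat_lit 607901) (.g (nat_lit 2358) (.e (nat_lit 696344) (nat_lit 8) (.e (nat_lit 172082) (nat_lit 7) (.e (nat_lit 409646) (nat_lit 18) (.e (nat_lit 303133) (nat_lit 9) (.e (nat_lit 426042) (nat_lit 0) (.e (nat_lit 2429) (nat_lit 157) (.e (nat_lit 5965) (nat_lit 324) (.e (nat_lit 163844) (nat_lit 0) (.e (nat_lit 3471) (nat_lit 217) .nil))))))))) (.g (nat_lit 1) (.e (nat_lit 439652) (nat_lit 0) .nil) .nil)))) 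
(.nd (nat_lit 9) 
(.lf (nat_lit 607645) (.g (nat_lit 2768) (.e (nat_lit 696343) (nat_lit 8) (.e (nat_lit 172082) (nat_lit 7) (.e (nat_lit 409646) (nat_lit 18) (.e (nat_lit 303133) (nat_lit 9) (.e (nat_lit 426042) (nat_lit 0) (.e (nat_lit 2447) (nat_lit 157) (.e (nat_lit 5964) (nat_lit 324) (.e (nat_lit 163844) (nat_lit 0) (.e (nat_lit 3471) (nat_lit 217) .nil))))))))) (.g (nat_lit 1) (.e (nat_lit 439153) (nat_lit 0) .nil) .nil))) 
(.lf (nat_lit 608157) (.g (nat_lit 2313) (.e (nat_lit 704589) (nat_lit 3) (.e (nat_lit 163975) (nat_lit 30) (.e (nat_lit 573491) (nat_lit 15) (.e (nat_lit 81954) (nat_lit 23) (.e (nat_lit 98356) (nat_lit 26) (.e (nat_lit 426362) (nat_lit 15) (.e (nat_lit 2056) (nat_lit 142) .nil))))))) (.g (nat_lit 1) (.e (nat_lit 440389) (nat_lit 0) .nil) .nil)))))) 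
(.nd (nat_lit 7) (.nd (nat_lit 8) (.nd (nat_lit 9) 
(.lf (nat_lit 607325) (.g (nat_lit 2089) (.e (nat_lit 819219) (nat_lit 4) (.e (nat_lit 172079) (nat_lit 7) (.e (nat_lit 409617) (nat_lit 10) (.e (nat_lit 632) (nat_lit 50) (.e (nat_lit 573491) (nat_lit 15) .nil))))) (.g (nat_lit 0) (.e (nat_lit 437536) (nat_lit 0) .nil) .nil))) 
(.lf (nat_lit 607837) (.g (nat_lit 689) (.e (nat_lit 696344) (nat_lit 8) (.e (nat_lit 172067) (nat_lit 3) (.e (nat_lit 204876) (nat_lit 31) .nil))) (.g (nat_lit 0) (.e (nat_lit 439537) (nat_lit 0) .nil) .nil)))) (.nd (nat_lit 9) 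
(.lf (nat_lit 607581) (.g (nat_lit 3198) (.e (nat_lit 696343) (nat_lit 8) (.e (nat_lit 172065) (nat_lit 3) (.e (nat_lit 204868) (nat_lit 29) (.e (nat_lit 360473) (nat_lit 8) (.e (nat_lit 557091) (nat_lit 12) (.e (nat_lit 164018) (nat_lit 45) .nil)))))) (.g (nat_lit 1) (.e (nat_lit 439041) (nat_lit 0) .nil) .nil))) 
(.lf (nat_lit 608093) (.g (nat_lit 672) (.e (nat_lit 696348) (nat_lit 12) (.e (nat_lit 237605) (nat_lit 9) (.e (nat_lit 426555) (nat_lit 32) (.e (nat_lit 376857) (nat_lit 21) .nil)))) (.g (nat_lit 0) (.e (nat_lit 440157) (nat_lit 0) .nil) .nil))))) (.nd (nat_lit 8) (.nd (nat_lit 9) 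
(.lf (nat_lit 607453) (.g (nat_lit 1362) (.e (nat_lit 688139) (nat_lit 5) (.e (nat_lit 3085) (nat_lit 191) (.e (nat_lit 483337) (nat_lit 9) (.e (nat_lit 426299) (nat_lit 11) .nil)))) (.g (nat_lit 0) (.e (nat_lit 437945) (nat_lit 0) .nil) .nil))) 
(.lf (nat_lit 607965) (.g (nat_lit 1845) (.e (nat_lit 696344) (nat_lit 8) (.e (nat_lit 172106) (nat_lit 10) (.e (nat_lit 434209) (nat_lit 18) (.e (nat_lit 6284) (nat_lit 337) (.e (nat_lit 2644) (nat_lit 166) .nil))))) (.g (nat_lit 0) (.e (nat_lit 439763) (nat_lit 0) .nil) .nil)))) (.nd (nat_lit 9) 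
(.lf (nat_lit 607709) (.g (nat_lit 2572) (.e (nat_lit 696343) (nat_lit 8) (.e (nat_lit 172106) (nat_lit 10) (.e (nat_lit 434289) (nat_lit 43) (.e (nat_lit 696346) (nat_lit 10) (.e (nat_lit 188434) (nat_lit 20) (.e (nat_lit 3467) (nat_lit 217) .nil)))))) (.g (nat_lit 1) (.e (nat_lit 439303) (nat_lit 0) .nil) .nil))) 
(.lf (nat_lit 608221) (.g (nat_lit 2896) (.e (nat_lit 704589) (nat_lit 3) (.e (nat_lit 163975) (nat_lit 30) (.e (nat_lit 573492) (nat_lit 15) (.e (nat_lit 81956) (nat_lit 23) (.e (nat_lit 98356) (nat_lit 26) (.e (nat_lit 426363) (nat_lit 15) (.e (nat_lit 2044) (nat_lit 142) .nil))))))) (.g (nat_lit 1) (.e (nat_lit 440557) (nat_lit 0) .nil) .nil))))))) 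
(.nd (nat_lit 6) (.nd (nat_lit 7) (.nd (nat_lit 8) (.nd (nat_lit 9) 
(.lf (nat_lit 607293) (.g (nat_lit 975) (.e (nat_lit 819203) (nat_lit 0) (.e (nat_lit 3016) (nat_lit 187) (.e (nat_lit 458496) (nat_lit 8) (.e (nat_lit 557059) (nat_lit 0) (.e (nat_lit 1582) (nat_lit 111) (.e (nat_lit 360493) (nat_lit 27) .nil)))))) (.g (nat_lit 1) (.e (nat_lit 437316) (nat_lit 0) .nil) .nil))) 
(.lf (nat_lit 607805) (.g (nat_lit 4717) (.e (nat_lit 696344) (nat_lit 8) (.e (nat_lit 172064) (nat_lit 2) (.e (nat_lit 196666) (nat_lit 13) (.e (nat_lit 65617) (nat_lit 10) (.e (nat_lit 344133) (nat_lit 26) (.e (nat_lit 557091) (nat_lit 12) (.e (nat_lit 164019) (nat_lit 45) .nil))))))) (.g (nat_lit 1) (.e (nat_lit 439502) (nat_lit 0) .nil) .nil)))) (.nd (nat_lit 9) 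
(.lf (nat_lit 607549) (.g (nat_lit 2867) (.e (nat_lit 696334) (nat_lit 5) (.e (nat_lit 2893) (nat_lit 184) (.e (nat_lit 426125) (nat_lit 2) (.e (nat_lit 196666) (nat_lit 13) (.e (nat_lit 65610) (nat_lit 10) .nil))))) (.g (nat_lit 0) (.e (nat_lit 438747) (nat_lit 0) .nil) .nil))) 
(.lf (nat_lit 608061) (.g (nat_lit 2985) (.e (nat_lit 696344) (nat_lit 8) (.e (nat_lit 172125) (nat_lit 14) (.e (nat_lit 491566) (nat_lit 12) (.e (nat_lit 385107) (nat_lit 51) (.e (nat_lit 794683) (nat_lit 25) .nil))))) (.g (nat_lit 0) (.e (nat_lit 439930) (nat_lit 0) .nil) .nil))))) (.nd (nat_lit 8) (.nd (nat_lit 9) 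
(.lf (nat_lit 607421) (.g (nat_lit 1079) (.e (nat_lit 688139) (nat_lit 5) (.e (nat_lit 2887) (nat_lit 184) (.e (nat_lit 426285) (nat_lit 10) (.e (nat_lit 434289) (nat_lit 43) .nil)))) (.g (nat_lit 0) (.e (nat_lit 437863) (nat_lit 0) .nil) .nil))) 
(.lf (nat_lit 607933) (.g (nat_lit 3334) (.e (nat_lit 696344) (nat_lit 8) (.e (nat_lit 172082) (nat_lit 7) (.e (nat_lit 409646) (nat_lit 18) (.e (nat_lit 303143) (nat_lit 12) (.e (nat_lit 475199) (nat_lit 40) (.e (nat_lit 704852) (nat_lit 17) (.e (nat_lit 171776) (nat_lit 106) .nil))))))) (.g (nat_lit 1) (.e (nat_lit 439710) (nat_lit 0) .nil) .nil)))) (.nd (nat_lit 9) 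
(.lf (nat_lit 607677) (.g (nat_lit 2493) (.e (nat_lit 696343) (nat_lit 8) (.e (nat_lit 172082) (nat_lit 7) (.e (nat_lit 409649) (nat_lit 18) (.e (nat_lit 303140) (nat_lit 10) (.e (nat_lit 434200) (nat_lit 18) (.e (nat_lit 5964) (nat_lit 324) (.e (nat_lit 163844) (nat_lit 0) (.e (nat_lit 3471) (nat_lit 217) .nil)))))))) (.g (nat_lit 1) (.e (nat_lit 439239) (nat_lit 0) .nil) .nil))) 
(.lf (nat_lit 608189) (.g (nat_lit 3711) (.e (nat_lit 704589) (nat_lit 3) (.e (nat_lit 163975) (nat_lit 30) (.e (nat_lit 573492) (nat_lit 15) (.e (nat_lit 81953) (nat_lit 22) (.e (nat_lit 90170) (nat_lit 13) (.e (nat_lit 172137) (nat_lit 15) (.e (nat_lit 2059) (nat_lit 142) .nil))))))) (.g (nat_lit 1) (.e (nat_lit 440505) (nat_lit 0) .nil) .nil)))))) 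
(.nd (nat_lit 7) (.nd (nat_lit 8) (.nd (nat_lit 9) 
(.lf (nat_lit 607357) (.g (nat_lit 1487) (.e (nat_lit 819221) (nat_lit 6) (.e (nat_lit 188439) (nat_lit 20) (.e (nat_lit 3289) (nat_lit 201) (.e (nat_lit 565269) (nat_lit 6) (.e (nat_lit 81947) (nat_lit 20) (.e (nat_lit 2390) (nat_lit 156) .nil)))))) (.g (nat_lit 1) (.e (nat_lit 437635) (nat_lit 0) .nil) .nil))) 
(.lf (nat_lit 607869) (.g (nat_lit 4031) (.e (nat_lit 696344) (nat_lit 8) (.e (nat_lit 172079) (nat_lit 7) (.e (nat_lit 409645) (nat_lit 18) (.e (nat_lit 303140) (nat_lit 10) (.e (nat_lit 434275) (nat_lit 39) (.e (nat_lit 663574) (nat_lit 9) (.e (nat_lit 2472) (nat_lit 157) (.e (nat_lit 3469) (nat_lit 217) .nil)))))))) (.g (nat_lit 1) (.e (nat_lit 439598) (nat_lit 0) .nil) .nil)))) 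
(.nd (nat_lit 9) 
(.lf (nat_lit 607613) (.g (nat_lit 2954) (.e (nat_lit 696343) (nat_lit 8) (.e (nat_lit 172067) (nat_lit 3) (.e (nat_lit 204869) (nat_lit 29) (.e (nat_lit 360475) (nat_lit 8) (.e (nat_lit 557089) (nat_lit 12) (.e (nat_lit 164019) (nat_lit 45) .nil)))))) (.g (nat_lit 1) (.e (nat_lit 439076) (nat_lit 0) .nil) .nil))) 
(.lf (nat_lit 608125) (.g (nat_lit 3762) (.e (nat_lit 704589) (nat_lit 3) (.e (nat_lit 163975) (nat_lit 30) (.e (nat_lit 573481) (nat_lit 13) (.e (nat_lit 65619) (nat_lit 10) (.e (nat_lit 344117) (nat_lit 21) (.e (nat_lit 516145) (nat_lit 9) (.e (nat_lit 426416) (nat_lit 15) (.e (nat_lit 2056) (nat_lit 142) .nil)))))))) (.g (nat_lit 1) (.e (nat_lit 440355) (nat_lit 0) .nil) .nil))))) 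
(.nd (nat_lit 8) (.nd (nat_lit 9) 
(.lf (nat_lit 607485) (.g (nat_lit 3449) (.e (nat_lit 688171) (nat_lit 15) (.e (nat_lit 57465) (nat_lit 23) (.e (nat_lit 516129) (nat_lit 3) (.e (nat_lit 221210) (nat_lit 22) (.e (nat_lit 196668) (nat_lit 14) (.e (nat_lit 73747) (nat_lit 3) (.e (nat_lit 516100) (nat_lit 0) (.e (nat_lit 7936) (nat_lit 216) .nil)))))))) (.g (nat_lit 1) (.e (nat_lit 438193) (nat_lit 0) .nil) .nil))) 
(.lf (nat_lit 607997) (.g (nat_lit 3200) (.e (nat_lit 696344) (nat_lit 8) (.e (nat_lit 172112) (nat_lit 10) (.e (nat_lit 434289) (nat_lit 43) (.e (nat_lit 696344) (nat_lit 8) (.e (nat_lit 172106) (nat_lit 10) (.e (nat_lit 434288) (nat_lit 43) .nil)))))) (.g (nat_lit 1) (.e (nat_lit 439806) (nat_lit 0) .nil) .nil)))) (.nd (nat_lit 9) 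
(.lf (nat_lit 607741) (.g (nat_lit 487) (.e (nat_lit 696343) (nat_lit 8) (.e (nat_lit 172113) (nat_lit 10) (.e (nat_lit 434287) (nat_lit 43) .nil))) (.g (nat_lit 0) (.e (nat_lit 439381) (nat_lit 0) .nil) .nil))) 
(.lf (nat_lit 608253) (.g (nat_lit 3245) (.e (nat_lit 704589) (nat_lit 3) (.e (nat_lit 163975) (nat_lit 30) (.e (nat_lit 573492) (nat_lit 15) (.e (nat_lit 81956) (nat_lit 23) (.e (nat_lit 98385) (nat_lit 32) (.e (nat_lit 483072) (nat_lit 40) .nil)))))) (.g (nat_lit 1) (.e (nat_lit 440589) (nat_lit 0) .nil) .nil))))))))))) 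
(.nd (nat_lit 2) (.nd (nat_lit 3) (.nd (nat_lit 4) (.nd (nat_lit 5) (.nd (nat_lit 6) 
(.nd (nat_lit 7) (.nd (nat_lit 8) (.nd (nat_lit 9) 
(.lf (nat_lit 607235) (.g (nat_lit 1164) (.e (nat_lit 802834) (nat_lit 20) (.e (nat_lit 3748) (nat_lit 228) (.e (nat_lit 786473) (nat_lit 27) (.e (nat_lit 336429) (nat_lit 29) .nil)))) (.g (nat_lit 0) (.e (nat_lit 437034) (nat_lit 0) .nil) .nil))) 
(.lf (nat_lit 607747) (.g (nat_lit 2056) (.e (nat_lit 696343) (nat_lit 8) (.e (nat_lit 172113) (nat_lit 10) (.e (nat_lit 434289) (nat_lit 43) (.e (nat_lit 696346) (nat_lit 10) (.e (nat_lit 188439) (nat_lit 20) (.e (nat_lit 3467) (nat_lit 217) .nil)))))) (.g (nat_lit 1) (.e (nat_lit 439398) (nat_lit 0) .nil) .nil)))) (.nd (nat_lit 9) 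
(.lf (nat_lit 607491) (.g (nat_lit 1693) (.e (nat_lit 688177) (nat_lit 16) (.e (nat_lit 65628) (nat_lit 14) (.e (nat_lit 401432) (nat_lit 7) (.e (nat_lit 409645) (nat_lit 18) .nil)))) (.g (nat_lit 0) (.e (nat_lit 438220) (nat_lit 0) .nil) .nil))) 
(.lf (nat_lit 608003) (.g (nat_lit 396) (.e (nat_lit 696344) (nat_lit 8) (.e (nat_lit 172113) (nat_lit 10) (.e (nat_lit 434203) (nat_lit 18) .nil))) (.g (nat_lit 0) (.e (nat_lit 439812) (nat_lit 0) .nil) .nil))))) (.nd (nat_lit 8) (.nd (nat_lit 9) 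
(.lf (nat_lit 607363) (.g (nat_lit 2159) (.e (nat_lit 819221) (nat_lit 6) (.e (nat_lit 188440) (nat_lit 20) (.e (nat_lit 3289) (nat_lit 201) (.e (nat_lit 565269) (nat_lit 6) (.e (nat_lit 81946) (nat_lit 20) (.e (nat_lit 2391) (nat_lit 156) .nil)))))) (.g (nat_lit 1) (.e (nat_lit 437641) (nat_lit 0) .nil) .nil))) 
(.lf (nat_lit 607875) (.g (nat_lit 2033) (.e (nat_lit 696344) (nat_lit 8) (.e (nat_lit 172079) (nat_lit 7) (.e (nat_lit 409645) (nat_lit 18) (.e (nat_lit 303143) (nat_lit 12) (.e (nat_lit 475218) (nat_lit 44) .nil))))) (.g (nat_lit 0) (.e (nat_lit 439620) (nat_lit 0) .nil) .nil)))) (.nd (nat_lit 9) 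
(.lf (nat_lit 607619) (.g (nat_lit 2360) (.e (nat_lit 696343) (nat_lit 8) (.e (nat_lit 172079) (nat_lit 7) (.e (nat_lit 409645) (nat_lit 18) (.e (nat_lit 303133) (nat_lit 9) (.e (nat_lit 426042) (nat_lit 0) (.e (nat_lit 2442) (nat_lit 157) (.e (nat_lit 5964) (nat_lit 324) (.e (nat_lit 163844) (nat_lit 0) (.e (nat_lit 3471) (nat_lit 217) .nil))))))))) (.g (nat_lit 1) (.e (nat_lit 439088) (nat_lit 0) .nil) .nil))) 
(.lf (nat_lit 608131) (.g (nat_lit 3170) (.e (nat_lit 704589) (nat_lit 3) (.e (nat_lit 163975) (nat_lit 30) (.e (nat_lit 573481) (nat_lit 13) (.e (nat_lit 65619) (nat_lit 10) (.e (nat_lit 344117) (nat_lit 21) (.e (nat_lit 516152) (nat_lit 9) (.e (nat_lit 426411) (nat_lit 15) (.e (nat_lit 2058) (nat_lit 142) .nil)))))))) (.g (nat_lit 1) (.e (nat_lit 440361) (nat_lit 0) .nil) .nil)))))) 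
(.nd (nat_lit 7) (.nd (nat_lit 8) (.nd (nat_lit 9) 
(.lf (nat_lit 607299) (.g (nat_lit 1050) (.e (nat_lit 819203) (nat_lit 0) (.e (nat_lit 3022) (nat_lit 187) (.e (nat_lit 450584) (nat_lit 9) (.e (nat_lit 573184) (nat_lit 6) .nil)))) (.g (nat_lit 0) (.e (nat_lit 437338) (nat_lit 0) .nil) .nil))) 
(.lf (nat_lit 607811) (.g (nat_lit 4240) (.e (nat_lit 696344) (nat_lit 8) (.e (nat_lit 172065) (nat_lit 3) (.e (nat_lit 204868) (nat_lit 29) (.e (nat_lit 360475) (nat_lit 8) (.e (nat_lit 557091) (nat_lit 12) (.e (nat_lit 164020) (nat_lit 45) .nil)))))) (.g (nat_lit 1) (.e (nat_lit 439509) (nat_lit 0) .nil) .nil)))) (.nd (nat_lit 9) 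
(.lf (nat_lit 607555) (.g (nat_lit 3291) (.e (nat_lit 696342) (nat_lit 8) (.e (nat_lit 172067) (nat_lit 3) (.e (nat_lit 204868) (nat_lit 29) (.e (nat_lit 360475) (nat_lit 8) (.e (nat_lit 557091) (nat_lit 12) .nil))))) (.g (nat_lit 0) (.e (nat_lit 438976) (nat_lit 0) .nil) .nil))) 
(.lf (nat_lit 608067) (.g (nat_lit 1904) (.e (nat_lit 696344) (nat_lit 8) (.e (nat_lit 172126) (nat_lit 14) (.e (nat_lit 491566) (nat_lit 12) (.e (nat_lit 385105) (nat_lit 50) .nil)))) (.g (nat_lit 0) (.e (nat_lit 439943) (nat_lit 0) .nil) .nil))))) (.nd (nat_lit 8) (.nd (nat_lit 9) 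
(.lf (nat_lit 607427) (.g (nat_lit 1353) (.e (nat_lit 688139) (nat_lit 5) (.e (nat_lit 3062) (nat_lit 190) (.e (nat_lit 475177) (nat_lit 24) (.e (nat_lit 516162) (nat_lit 11) .nil)))) (.g (nat_lit 0) (.e (nat_lit 437918) (nat_lit 0) .nil) .nil))) 
(.lf (nat_lit 607939) (.g (nat_lit 2846) (.e (nat_lit 696344) (nat_lit 8) (.e (nat_lit 172082) (nat_lit 7) (.e (nat_lit 409648) (nat_lit 18) (.e (nat_lit 303137) (nat_lit 10) (.e (nat_lit 434275) (nat_lit 39) (.e (nat_lit 663580) (nat_lit 9) (.e (nat_lit 2416) (nat_lit 157) (.e (nat_lit 3471) (nat_lit 217) .nil)))))))) (.g (nat_lit 1) (.e (nat_lit 439721) (nat_lit 0) .nil) .nil)))) 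
(.nd (nat_lit 9) 
(.lf (nat_lit 607683) (.g (nat_lit 2493) (.e (nat_lit 696343) (nat_lit 8) (.e (nat_lit 172082) (nat_lit 7) (.e (nat_lit 409649) (nat_lit 18) (.e (nat_lit 303140) (nat_lit 10) (.e (nat_lit 434275) (nat_lit 39) (.e (nat_lit 663579) (nat_lit 9) (.e (nat_lit 2426) (nat_lit 157) (.e (nat_lit 3471) (nat_lit 217) .nil)))))))) (.g (nat_lit 1) (.e (nat_lit 439245) (nat_lit 0) .nil) .nil))) 
(.lf (nat_lit 608195) (.g (nat_lit 2538) (.e (nat_lit 704589) (nat_lit 3) (.e (nat_lit 163975) (nat_lit 30) (.e (nat_lit 573492) (nat_lit 15) (.e (nat_lit 81956) (nat_lit 23) (.e (nat_lit 98355) (nat_lit 26) (.e (nat_lit 426405) (nat_lit 15) (.e (nat_lit 2058) (nat_lit 142) .nil))))))) (.g (nat_lit 1) (.e (nat_lit 440531) (nat_lit 0) .nil) .nil))))))) 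
(.nd (nat_lit 6) (.nd (nat_lit 7) (.nd (nat_lit 8) (.nd (nat_lit 9) 
(.lf (nat_lit 607267) (.g (nat_lit 1145) (.e (nat_lit 811028) (nat_lit 9) (.e (nat_lit 303137) (nat_lit 10) (.e (nat_lit 434241) (nat_lit 27) (.e (nat_lit 565269) (nat_lit 6) (.e (nat_lit 81934) (nat_lit 20) .nil))))) (.g (nat_lit 0) (.e (nat_lit 437135) (nat_lit 0) .nil) .nil))) 
(.lf (nat_lit 607779) (.g (nat_lit 3127) (.e (nat_lit 696343) (nat_lit 8) (.e (nat_lit 172123) (nat_lit 13) (.e (nat_lit 483413) (nat_lit 27) (.e (nat_lit 401440) (nat_lit 9) (.e (nat_lit 426017) (nat_lit 0) (.e (nat_lit 3471) (nat_lit 217) .nil)))))) (.g (nat_lit 1) (.e (nat_lit 439472) (nat_lit 0) .nil) .nil)))) (.nd (nat_lit 9) 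
(.lf (nat_lit 607523) (.g (nat_lit 4175) (.e (nat_lit 696328) (nat_lit 5) (.e (nat_lit 2980) (nat_lit 185) (.e (nat_lit 434231) (nat_lit 23) (.e (nat_lit 532550) (nat_lit 12) (.e (nat_lit 360475) (nat_lit 8) (.e (nat_lit 557091) (nat_lit 12) (.e (nat_lit 164020) (nat_lit 45) .nil))))))) (.g (nat_lit 1) (.e (nat_lit 438384) (nat_lit 0) .nil) .nil))) 
(.lf (nat_lit 608035) (.g (nat_lit 2546) (.e (nat_lit 696344) (nat_lit 8) (.e (nat_lit 172115) (nat_lit 10) (.e (nat_lit 434209) (nat_lit 18) (.e (nat_lit 6425) (nat_lit 342) (.e (nat_lit 229412) (nat_lit 14) (.e (nat_lit 442412) (nat_lit 20) (.e (nat_lit 3468) (nat_lit 217) .nil))))))) (.g (nat_lit 1) (.e (nat_lit 439885) (nat_lit 0) .nil) .nil))))) (.nd (nat_lit 8) (.nd (nat_lit 9) 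
(.lf (nat_lit 607395) (.g (nat_lit 376) (.e (nat_lit 688138) (nat_lit 5) (.e (nat_lit 2887) (nat_lit 184) (.e (nat_lit 426169) (nat_lit 7) .nil))) (.g (nat_lit 0) (.e (nat_lit 437759) (nat_lit 0) .nil) .nil))) 
(.lf (nat_lit 607907) (.g (nat_lit 2519) (.e (nat_lit 696344) (nat_lit 8) (.e (nat_lit 172082) (nat_lit 7) (.e (nat_lit 409646) (nat_lit 18) (.e (nat_lit 303133) (nat_lit 9) (.e (nat_lit 426042) (nat_lit 0) (.e (nat_lit 2448) (nat_lit 157) (.e (nat_lit 5966) (nat_lit 324) (.e (nat_lit 163844) (nat_lit 0) (.e (nat_lit 3471) (nat_lit 217) .nil))))))))) (.g (nat_lit 1) (.e (nat_lit 439658) (nat_lit 0) .nil) .nil)))) 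
(.nd (nat_lit 9) 
(.lf (nat_lit 607651) (.g (nat_lit 2405) (.e (nat_lit 696343) (nat_lit 8) (.e (nat_lit 172082) (nat_lit 7) (.e (nat_lit 409646) (nat_lit 18) (.e (nat_lit 303133) (nat_lit 9) (.e (nat_lit 426146) (nat_lit 4) (.e (nat_lit 229710) (nat_lit 258) (.e (nat_lit 163844) (nat_lit 0) (.e (nat_lit 3471) (nat_lit 217) .nil)))))))) (.g (nat_lit 1) (.e (nat_lit 439159) (nat_lit 0) .nil) .nil))) 
(.lf (nat_lit 608163) (.g (nat_lit 2912) (.e (nat_lit 704589) (nat_lit 3) (.e (nat_lit 163975) (nat_lit 30) (.e (nat_lit 573491) (nat_lit 15) (.e (nat_lit 81954) (nat_lit 23) (.e (nat_lit 98356) (nat_lit 26) (.e (nat_lit 426375) (nat_lit 15) (.e (nat_lit 2056) (nat_lit 142) .nil))))))) (.g (nat_lit 1) (.e (nat_lit 440395) (nat_lit 0) .nil) .nil)))))) 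
(.nd (nat_lit 7) (.nd (nat_lit 8) (.nd (nat_lit 9) 
(.lf (nat_lit 607331) (.g (nat_lit 1101) (.e (nat_lit 819219) (nat_lit 4) (.e (nat_lit 172094) (nat_lit 9) (.e (nat_lit 426125) (nat_lit 2) (.e (nat_lit 204544) (nat_lit 0) .nil)))) (.g (nat_lit 0) (.e (nat_lit 437555) (nat_lit 0) .nil) .nil))) 
(.lf (nat_lit 607843) (.g (nat_lit 2352) (.e (nat_lit 696344) (nat_lit 8) (.e (nat_lit 172078) (nat_lit 7) (.e (nat_lit 409646) (nat_lit 18) (.e (nat_lit 303140) (nat_lit 10) (.e (nat_lit 434275) (nat_lit 39) (.e (nat_lit 663580) (nat_lit 9) (.e (nat_lit 7936) (nat_lit 157) (.e (nat_lit 3469) (nat_lit 217) .nil)))))))) (.g (nat_lit 1) (.e (nat_lit 439544) (nat_lit 0) .nil) .nil)))) 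
(.nd (nat_lit 9) 
(.lf (nat_lit 607587) (.g (nat_lit 2854) (.e (nat_lit 696343) (nat_lit 8) (.e (nat_lit 172065) (nat_lit 3) (.e (nat_lit 204868) (nat_lit 29) (.e (nat_lit 360475) (nat_lit 8) (.e (nat_lit 557090) (nat_lit 12) (.e (nat_lit 164020) (nat_lit 45) .nil)))))) (.g (nat_lit 1) (.e (nat_lit 439047) (nat_lit 0) .nil) .nil))) 
(.lf (nat_lit 608099) (.g (nat_lit 2213) (.e (nat_lit 704588) (nat_lit 3) (.e (nat_lit 163962) (nat_lit 25) (.e (nat_lit 532544) (nat_lit 10) (.e (nat_lit 344131) (nat_lit 26) (.e (nat_lit 557103) (nat_lit 14) (.e (nat_lit 188160) (nat_lit 1) (.e (nat_lit 499910) (nat_lit 8) (.e (nat_lit 164021) (nat_lit 46) .nil)))))))) (.g (nat_lit 1) (.e (nat_lit 440305) (nat_lit 0) .nil) .nil))))) 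
(.nd (nat_lit 8) (.nd (nat_lit 9) 
(.lf (nat_lit 607459) (.g (nat_lit 4297) (.e (nat_lit 688165) (nat_lit 15) (.e (nat_lit 57479) (nat_lit 28) (.e (nat_lit 557105) (nat_lit 14) (.e (nat_lit 180252) (nat_lit 10) (.e (nat_lit 573488) (nat_lit 14) (.e (nat_lit 73747) (nat_lit 3) (.e (nat_lit 516100) (nat_lit 0) (.e (nat_lit 7936) (nat_lit 216) .nil)))))))) (.g (nat_lit 1) (.e (nat_lit 438161) (nat_lit 0) .nil) .nil))) 
(.lf (nat_lit 607971) (.g (nat_lit 2637) (.e (nat_lit 696344) (nat_lit 8) (.e (nat_lit 172106) (nat_lit 10) (.e (nat_lit 434209) (nat_lit 18) (.e (nat_lit 6425) (nat_lit 342) (.e (nat_lit 229412) (nat_lit 14) (.e (nat_lit 442412) (nat_lit 20) (.e (nat_lit 3468) (nat_lit 217) .nil))))))) (.g (nat_lit 1) (.e (nat_lit 439772) (nat_lit 0) .nil) .nil)))) (.nd (nat_lit 9) 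
(.lf (nat_lit 607715) (.g (nat_lit 3336) (.e (nat_lit 696343) (nat_lit 8) (.e (nat_lit 172112) (nat_lit 10) (.e (nat_lit 434289) (nat_lit 43) (.e (nat_lit 696344) (nat_lit 8) (.e (nat_lit 172106) (nat_lit 10) (.e (nat_lit 434289) (nat_lit 43) .nil)))))) (.g (nat_lit 1) (.e (nat_lit 439312) (nat_lit 0) .nil) .nil))) 
(.lf (nat_lit 608227) (.g (nat_lit 4160) (.e (nat_lit 704589) (nat_lit 3) (.e (nat_lit 163975) (nat_lit 30) (.e (nat_lit 573492) (nat_lit 15) (.e (nat_lit 81956) (nat_lit 23) (.e (nat_lit 98356) (nat_lit 26) (.e (nat_lit 426376) (nat_lit 15) (.e (nat_lit 2056) (nat_lit 142) .nil))))))) (.g (nat_lit 1) (.e (nat_lit 440563) (nat_lit 0) .nil) .nil)))))))) 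
(.nd (nat_lit 5) (.nd (nat_lit 6) (.nd (nat_lit 7) (.nd (nat_lit 8) (.nd (nat_lit 9) 
(.lf (nat_lit 607251) (.g (nat_lit 818) (.e (nat_lit 811012) (nat_lit 0) (.e (nat_lit 5776) (nat_lit 317) (.e (nat_lit 180241) (nat_lit 4) (.e (nat_lit 524340) (nat_lit 28) (.e (nat_lit 352286) (nat_lit 20) (.e (nat_lit 2384) (nat_lit 155) .nil)))))) (.g (nat_lit 1) (.e (nat_lit 437096) (nat_lit 0) .nil) .nil))) 
(.lf (nat_lit 607763) (.g (nat_lit 2598) (.e (nat_lit 696343) (nat_lit 8) (.e (nat_lit 172123) (nat_lit 13) (.e (nat_lit 483410) (nat_lit 27) (.e (nat_lit 401435) (nat_lit 9) (.e (nat_lit 425986) (nat_lit 0) (.e (nat_lit 3471) (nat_lit 217) .nil)))))) (.g (nat_lit 1) (.e (nat_lit 439450) (nat_lit 0) .nil) .nil)))) (.nd (nat_lit 9) 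
(.lf (nat_lit 607507) (.g (nat_lit 1794) (.e (nat_lit 696328) (nat_lit 5) (.e (nat_lit 2878) (nat_lit 184) (.e (nat_lit 426140) (nat_lit 3) (.e (nat_lit 204868) (nat_lit 29) (.e (nat_lit 360472) (nat_lit 8) .nil))))) (.g (nat_lit 0) (.e (nat_lit 438361) (nat_lit 0) .nil) .nil))) 
(.lf (nat_lit 608019) (.g (nat_lit 3635) (.e (nat_lit 696344) (nat_lit 8) (.e (nat_lit 172113) (nat_lit 10) (.e (nat_lit 434289) (nat_lit 43) (.e (nat_lit 696346) (nat_lit 10) (.e (nat_lit 188440) (nat_lit 20) (.e (nat_lit 3469) (nat_lit 217) .nil)))))) (.g (nat_lit 1) (.e (nat_lit 439861) (nat_lit 0) .nil) .nil))))) (.nd (nat_lit 8) (.nd (nat_lit 9) 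
(.lf (nat_lit 607379) (.g (nat_lit 2884) (.e (nat_lit 819237) (nat_lit 11) (.e (nat_lit 16466) (nat_lit 13) (.e (nat_lit 483372) (nat_lit 21) (.e (nat_lit 319533) (nat_lit 16) (.e (nat_lit 286724) (nat_lit 0) .nil))))) (.g (nat_lit 0) (.e (nat_lit 437680) (nat_lit 0) .nil) .nil))) 
(.lf (nat_lit 607891) (.g (nat_lit 2649) (.e (nat_lit 696344) (nat_lit 8) (.e (nat_lit 172081) (nat_lit 7) (.e (nat_lit 409649) (nat_lit 18) (.e (nat_lit 303140) (nat_lit 10) (.e (nat_lit 434275) (nat_lit 39) (.e (nat_lit 663580) (nat_lit 9) (.e (nat_lit 2416) (nat_lit 157) (.e (nat_lit 3468) (nat_lit 217) .nil)))))))) (.g (nat_lit 1) (.e (nat_lit 439639) (nat_lit 0) .nil) .nil)))) 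
(.nd (nat_lit 9) 
(.lf (nat_lit 607635) (.g (nat_lit 2507) (.e (nat_lit 696343) (nat_lit 8) (.e (nat_lit 172081) (nat_lit 7) (.e (nat_lit 409649) (nat_lit 18) (.e (nat_lit 303140) (nat_lit 10) (.e (nat_lit 434275) (nat_lit 39) (.e (nat_lit 663584) (nat_lit 12) (.e (nat_lit 164020) (nat_lit 45) .nil))))))) (.g (nat_lit 1) (.e (nat_lit 439137) (nat_lit 0) .nil) .nil))) 
(.lf (nat_lit 608147) (.g (nat_lit 1544) (.e (nat_lit 704589) (nat_lit 3) (.e (nat_lit 163975) (nat_lit 30) (.e (nat_lit 573491) (nat_lit 15) (.e (nat_lit 81954) (nat_lit 23) (.e (nat_lit 98355) (nat_lit 26) (.e (nat_lit 426420) (nat_lit 15) (.e (nat_lit 2056) (nat_lit 142) .nil))))))) (.g (nat_lit 1) (.e (nat_lit 440379) (nat_lit 0) .nil) .nil)))))) 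
(.nd (nat_lit 7) (.nd (nat_lit 8) (.nd (nat_lit 9) 
(.lf (nat_lit 607315) (.g (nat_lit 1819) (.e (nat_lit 819217) (nat_lit 4) (.e (nat_lit 172106) (nat_lit 10) (.e (nat_lit 434244) (nat_lit 28) (.e (nat_lit 573503) (nat_lit 18) .nil)))) (.g (nat_lit 0) (.e (nat_lit 437512) (nat_lit 0) .nil) .nil))) 
(.lf (nat_lit 607827) (.g (nat_lit 3906) (.e (nat_lit 696344) (nat_lit 8) (.e (nat_lit 172067) (nat_lit 3) (.e (nat_lit 204868) (nat_lit 29) (.e (nat_lit 360475) (nat_lit 8) (.e (nat_lit 557089) (nat_lit 12) (.e (nat_lit 164019) (nat_lit 45) .nil)))))) (.g (nat_lit 1) (.e (nat_lit 439527) (nat_lit 0) .nil) .nil)))) (.nd (nat_lit 9) 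
(.lf (nat_lit 607571) (.g (nat_lit 2485) (.e (nat_lit 696343) (nat_lit 8) (.e (nat_lit 172063) (nat_lit 2) (.e (nat_lit 196666) (nat_lit 13) (.e (nat_lit 65617) (nat_lit 10) (.e (nat_lit 344133) (nat_lit 26) (.e (nat_lit 557091) (nat_lit 12) (.e (nat_lit 164020) (nat_lit 45) .nil))))))) (.g (nat_lit 1) (.e (nat_lit 439029) (nat_lit 0) .nil) .nil))) 
(.lf (nat_lit 608083) (.g (nat_lit 1441) (.e (nat_lit 696348) (nat_lit 12) (.e (nat_lit 237590) (nat_lit 2) (.e (nat_lit 196666) (nat_lit 13) (.e (nat_lit 65617) (nat_lit 10) .nil)))) (.g (nat_lit 0) (.e (nat_lit 440140) (nat_lit 0) .nil) .nil))))) (.nd (nat_lit 8) (.nd (nat_lit 9) 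
(.lf (nat_lit 607443) (.g (nat_lit 2184) (.e (nat_lit 688139) (nat_lit 5) (.e (nat_lit 3062) (nat_lit 190) (.e (nat_lit 475179) (nat_lit 24) (.e (nat_lit 516174) (nat_lit 14) (.e (nat_lit 474880) (nat_lit 19) (.e (nat_lit 401414) (nat_lit 0) (.e (nat_lit 3459) (nat_lit 216) .nil))))))) (.g (nat_lit 1) (.e (nat_lit 437935) (nat_lit 0) .nil) .nil))) 
(.lf (nat_lit 607955) (.g (nat_lit 1438) (.e (nat_lit 696344) (nat_lit 8) (.e (nat_lit 172092) (nat_lit 9) (.e (nat_lit 426528) (nat_lit 27) (.e (nat_lit 335894) (nat_lit 0) (.e (nat_lit 6724) (nat_lit 362) (.e (nat_lit 180269) (nat_lit 25) .nil)))))) (.g (nat_lit 1) (.e (nat_lit 439737) (nat_lit 0) .nil) .nil)))) (.nd (nat_lit 9) 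
(.lf (nat_lit 607699) (.g (nat_lit 2357) (.e (nat_lit 696343) (nat_lit 8) (.e (nat_lit 172106) (nat_lit 10) (.e (nat_lit 434209) (nat_lit 18) (.e (nat_lit 6425) (nat_lit 342) (.e (nat_lit 229412) (nat_lit 14) .nil))))) (.g (nat_lit 0) (.e (nat_lit 439282) (nat_lit 0) .nil) .nil))) 
(.lf (nat_lit 608211) (.g (nat_lit 3558) (.e (nat_lit 704589) (nat_lit 3) (.e (nat_lit 163975) (nat_lit 30) (.e (nat_lit 573492) (nat_lit 15) (.e (nat_lit 81956) (nat_lit 23) (.e (nat_lit 98356) (nat_lit 26) (.e (nat_lit 426360) (nat_lit 15) (.e (nat_lit 2060) (nat_lit 142) .nil))))))) (.g (nat_lit 1) (.e (nat_lit 440547) (nat_lit 0) .nil) .nil))))))) 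
(.nd (nat_lit 6) (.nd (nat_lit 7) (.nd (nat_lit 8) (.nd (nat_lit 9) 
(.lf (nat_lit 607283) (.g (nat_lit 1184) (.e (nat_lit 819202) (nat_lit 0) (.e (nat_lit 3015) (nat_lit 187) (.e (nat_lit 450584) (nat_lit 9) (.e (nat_lit 565251) (nat_lit 0) .nil)))) (.g (nat_lit 0) (.e (nat_lit 437237) (nat_lit 0) .nil) .nil))) 
(.lf (nat_lit 607795) (.g (nat_lit 3334) (.e (nat_lit 696344) (nat_lit 8) (.e (nat_lit 172064) (nat_lit 2) (.e (nat_lit 196666) (nat_lit 13) (.e (nat_lit 65610) (nat_lit 10) (.e (nat_lit 344129) (nat_lit 26) (.e (nat_lit 557067) (nat_lit 9) (.e (nat_lit 2430) (nat_lit 157) (.e (nat_lit 3471) (nat_lit 217) .nil)))))))) (.g (nat_lit 1) (.e (nat_lit 439492) (nat_lit 0) .nil) .nil)))) 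
(.nd (nat_lit 9) 
(.lf (nat_lit 607539) (.g (nat_lit 4286) (.e (nat_lit 696329) (nat_lit 5) (.e (nat_lit 2980) (nat_lit 185) (.e (nat_lit 434231) (nat_lit 23) (.e (nat_lit 532550) (nat_lit 12) (.e (nat_lit 360475) (nat_lit 8) (.e (nat_lit 557091) (nat_lit 12) (.e (nat_lit 164020) (nat_lit 45) .nil))))))) (.g (nat_lit 1) (.e (nat_lit 438468) (nat_lit 0) .nil) .nil))) 
(.lf (nat_lit 608051) (.g (nat_lit 1997) (.e (nat_lit 696344) (nat_lit 8) (.e (nat_lit 172115) (nat_lit 10) (.e (nat_lit 434289) (nat_lit 43) (.e (nat_lit 696346) (nat_lit 10) (.e (nat_lit 188440) (nat_lit 20) (.e (nat_lit 3467) (nat_lit 217) .nil)))))) (.g (nat_lit 1) (.e (nat_lit 439906) (nat_lit 0) .nil) .nil))))) (.nd (nat_lit 8) (.nd (nat_lit 9) 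
(.lf (nat_lit 607411) (.g (nat_lit 3234) (.e (nat_lit 688139) (nat_lit 5) (.e (nat_lit 2887) (nat_lit 184) (.e (nat_lit 426140) (nat_lit 3) (.e (nat_lit 204855) (nat_lit 26) (.e (nat_lit 336176) (nat_lit 10) (.e (nat_lit 344132) (nat_lit 26) (.e (nat_lit 557094) (nat_lit 12) (.e (nat_lit 164016) (nat_lit 44) .nil)))))))) (.g (nat_lit 1) (.e (nat_lit 437846) (nat_lit 0) .nil) .nil))) 
(.lf (nat_lit 607923) (.g (nat_lit 2617) (.e (nat_lit 696344) (nat_lit 8) (.e (nat_lit 172082) (nat_lit 7) (.e (nat_lit 409646) (nat_lit 18) (.e (nat_lit 303140) (nat_lit 10) (.e (nat_lit 434275) (nat_lit 39) (.e (nat_lit 663574) (nat_lit 9) (.e (nat_lit 2472) (nat_lit 157) (.e (nat_lit 3467) (nat_lit 217) .nil)))))))) (.g (nat_lit 1) (.e (nat_lit 439695) (nat_lit 0) .nil) .nil)))) 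
(.nd (nat_lit 9) 
(.lf (nat_lit 607667) (.g (nat_lit 2344) (.e (nat_lit 696343) (nat_lit 8) (.e (nat_lit 172082) (nat_lit 7) (.e (nat_lit 409646) (nat_lit 18) (.e (nat_lit 303140) (nat_lit 10) (.e (nat_lit 434275) (nat_lit 39) (.e (nat_lit 663580) (nat_lit 9) (.e (nat_lit 2515) (nat_lit 157) (.e (nat_lit 3464) (nat_lit 217) .nil)))))))) (.g (nat_lit 1) (.e (nat_lit 439203) (nat_lit 0) .nil) .nil))) 
(.lf (nat_lit 608179) (.g (nat_lit 3586) (.e (nat_lit 704589) (nat_lit 3) (.e (nat_lit 163975) (nat_lit 30) (.e (nat_lit 573492) (nat_lit 15) (.e (nat_lit 81951) (nat_lit 22) (.e (nat_lit 90170) (nat_lit 13) (.e (nat_lit 172138) (nat_lit 15) (.e (nat_lit 2058) (nat_lit 142) .nil))))))) (.g (nat_lit 1) (.e (nat_lit 440418) (nat_lit 0) .nil) .nil)))))) 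
(.nd (nat_lit 7) (.nd (nat_lit 8) (.nd (nat_lit 9) 
(.lf (nat_lit 607347) (.g (nat_lit 1020) (.e (nat_lit 819221) (nat_lit 6) (.e (nat_lit 188435) (nat_lit 20) (.e (nat_lit 3289) (nat_lit 201) (.e (nat_lit 565269) (nat_lit 6) (.e (nat_lit 81939) (nat_lit 20) (.e (nat_lit 2390) (nat_lit 156) .nil)))))) (.g (nat_lit 1) (.e (nat_lit 437625) (nat_lit 0) .nil) .nil))) 
(.lf (nat_lit 607859) (.g (nat_lit 2571) (.e (nat_lit 696344) (nat_lit 8) (.e (nat_lit 172079) (nat_lit 7) (.e (nat_lit 409645) (nat_lit 18) (.e (nat_lit 303133) (nat_lit 9) (.e (nat_lit 426042) (nat_lit 0) (.e (nat_lit 2447) (nat_lit 157) (.e (nat_lit 5968) (nat_lit 324) (.e (nat_lit 163844) (nat_lit 0) (.e (nat_lit 3471) (nat_lit 217) .nil))))))))) (.g (nat_lit 1) (.e (nat_lit 439568) (nat_lit 0) .nil) .nil)))) 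
(.nd (nat_lit 9) 
(.lf (nat_lit 607603) (.g (nat_lit 3203) (.e (nat_lit 696343) (nat_lit 8) (.e (nat_lit 172067) (nat_lit 3) (.e (nat_lit 204868) (nat_lit 29) (.e (nat_lit 360475) (nat_lit 8) (.e (nat_lit 557089) (nat_lit 12) .nil))))) (.g (nat_lit 0) (.e (nat_lit 439066) (nat_lit 0) .nil) .nil))) 
(.lf (nat_lit 608115) (.g (nat_lit 3389) (.e (nat_lit 704589) (nat_lit 3) (.e (nat_lit 163975) (nat_lit 30) (.e (nat_lit 573481) (nat_lit 13) (.e (nat_lit 65619) (nat_lit 10) (.e (nat_lit 344117) (nat_lit 21) (.e (nat_lit 516144) (nat_lit 9) (.e (nat_lit 426374) (nat_lit 15) (.e (nat_lit 2058) (nat_lit 142) .nil)))))))) (.g (nat_lit 1) (.e (nat_lit 440345) (nat_lit 0) .nil) .nil))))) 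
(.nd (nat_lit 8) (.nd (nat_lit 9) 
(.lf (nat_lit 607475) (.g (nat_lit 2883) (.e (nat_lit 688166) (nat_lit 15) (.e (nat_lit 57479) (nat_lit 28) (.e (nat_lit 557105) (nat_lit 14) (.e (nat_lit 180252) (nat_lit 10) (.e (nat_lit 573482) (nat_lit 13) (.e (nat_lit 65571) (nat_lit 3) (.e (nat_lit 98319) (nat_lit 17) (.e (nat_lit 3453) (nat_lit 216) .nil)))))))) (.g (nat_lit 1) (.e (nat_lit 438178) (nat_lit 0) .nil) .nil))) 
(.lf (nat_lit 607987) (.g (nat_lit 2126) (.e (nat_lit 696344) (nat_lit 8) (.e (nat_lit 172106) (nat_lit 10) (.e (nat_lit 434289) (nat_lit 43) (.e (nat_lit 696346) (nat_lit 10) (.e (nat_lit 188438) (nat_lit 20) (.e (nat_lit 3467) (nat_lit 217) .nil)))))) (.g (nat_lit 1) (.e (nat_lit 439790) (nat_lit 0) .nil) .nil)))) (.nd (nat_lit 9) 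
(.lf (nat_lit 607731) (.g (nat_lit 1530) (.e (nat_lit 696343) (nat_lit 8) (.e (nat_lit 172113) (nat_lit 10) (.e (nat_lit 434208) (nat_lit 18) (.e (nat_lit 6254) (nat_lit 337) (.e (nat_lit 7936) (nat_lit 166) .nil))))) (.g (nat_lit 0) (.e (nat_lit 439361) (nat_lit 0) .nil) .nil))) 
(.lf (nat_lit 608243) (.g (nat_lit 2541) (.e (nat_lit 704589) (nat_lit 3) (.e (nat_lit 163975) (nat_lit 30) (.e (nat_lit 573492) (nat_lit 15) (.e (nat_lit 81956) (nat_lit 23) (.e (nat_lit 98360) (nat_lit 26) (.e (nat_lit 426411) (nat_lit 15) (.e (nat_lit 2057) (nat_lit 142) .nil))))))) (.g (nat_lit 1) (.e (nat_lit 440579) (nat_lit 0) .nil) .nil))))))))) 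
(.nd (nat_lit 4) (.nd (nat_lit 5) (.nd (nat_lit 6) (.nd (nat_lit 7) (.nd (nat_lit 8) 
(.nd (nat_lit 9) 
(.lf (nat_lit 607243) (.g (nat_lit 1338) (.e (nat_lit 802848) (nat_lit 28) (.e (nat_lit 253990) (nat_lit 11) (.e (nat_lit 16473) (nat_lit 14) (.e (nat_lit 491558) (nat_lit 10) .nil)))) (.g (nat_lit 0) (.e (nat_lit 437075) (nat_lit 0) .nil) .nil))) 
(.lf (nat_lit 607755) (.g (nat_lit 2581) (.e (nat_lit 696343) (nat_lit 8) (.e (nat_lit 172115) (nat_lit 10) (.e (nat_lit 434209) (nat_lit 18) (.e (nat_lit 6428) (nat_lit 342) (.e (nat_lit 229412) (nat_lit 14) (.e (nat_lit 442411) (nat_lit 20) (.e (nat_lit 3468) (nat_lit 217) .nil))))))) (.g (nat_lit 1) (.e (nat_lit 439419) (nat_lit 0) .nil) .nil)))) (.nd (nat_lit 9) 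
(.lf (nat_lit 607499) (.g (nat_lit 3626) (.e (nat_lit 688182) (nat_lit 17) (.e (nat_lit 73755) (nat_lit 8) (.e (nat_lit 557067) (nat_lit 9) (.e (nat_lit 3096) (nat_lit 192) (.e (nat_lit 491571) (nat_lit 13) (.e (nat_lit 393232) (nat_lit 17) (.e (nat_lit 3461) (nat_lit 216) .nil))))))) (.g (nat_lit 1) (.e (nat_lit 438247) (nat_lit 0) .nil) .nil))) 
(.lf (nat_lit 608011) (.g (nat_lit 4471) (.e (nat_lit 696344) (nat_lit 8) (.e (nat_lit 172113) (nat_lit 10) (.e (nat_lit 434208) (nat_lit 18) (.e (nat_lit 6255) (nat_lit 337) (.e (nat_lit 2651) (nat_lit 166) (.e (nat_lit 188439) (nat_lit 20) (.e (nat_lit 3469) (nat_lit 217) .nil))))))) (.g (nat_lit 1) (.e (nat_lit 439848) (nat_lit 0) .nil) .nil))))) (.nd (nat_lit 8) (.nd (nat_lit 9) 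
(.lf (nat_lit 607371) (.g (nat_lit 1788) (.e (nat_lit 819237) (nat_lit 11) (.e (nat_lit 16433) (nat_lit 9) (.e (nat_lit 426482) (nat_lit 27) (.e (nat_lit 336060) (nat_lit 7) .nil)))) (.g (nat_lit 0) (.e (nat_lit 437672) (nat_lit 0) .nil) .nil))) 
(.lf (nat_lit 607883) (.g (nat_lit 3096) (.e (nat_lit 696344) (nat_lit 8) (.e (nat_lit 172079) (nat_lit 7) (.e (nat_lit 409649) (nat_lit 18) (.e (nat_lit 303140) (nat_lit 10) (.e (nat_lit 434275) (nat_lit 39) (.e (nat_lit 663580) (nat_lit 9) (.e (nat_lit 2416) (nat_lit 157) (.e (nat_lit 3468) (nat_lit 217) .nil)))))))) (.g (nat_lit 1) (.e (nat_lit 439631) (nat_lit 0) .nil) .nil)))) 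
(.nd (nat_lit 9) 
(.lf (nat_lit 607627) (.g (nat_lit 1112) (.e (nat_lit 696343) (nat_lit 8) (.e (nat_lit 172079) (nat_lit 7) (.e (nat_lit 409645) (nat_lit 18) (.e (nat_lit 303140) (nat_lit 10) .nil)))) (.g (nat_lit 0) (.e (nat_lit 439106) (nat_lit 0) .nil) .nil))) 
(.lf (nat_lit 608139) (.g (nat_lit 2238) (.e (nat_lit 704589) (nat_lit 3) (.e (nat_lit 163975) (nat_lit 30) (.e (nat_lit 573491) (nat_lit 15) (.e (nat_lit 81946) (nat_lit 20) (.e (nat_lit 1802) (nat_lit 119) (.e (nat_lit 516182) (nat_lit 15) (.e (nat_lit 475197) (nat_lit 40) .nil))))))) (.g (nat_lit 1) (.e (nat_lit 440369) (nat_lit 0) .nil) .nil)))))) 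
(.nd (nat_lit 7) (.nd (nat_lit 8) (.nd (nat_lit 9) 
(.lf (nat_lit 607307) (.g (nat_lit 1091) (.e (nat_lit 819204) (nat_lit 0) (.e (nat_lit 3022) (nat_lit 187) (.e (nat_lit 450584) (nat_lit 9) (.e (nat_lit 565248) (nat_lit 0) .nil)))) (.g (nat_lit 0) (.e (nat_lit 437449) (nat_lit 0) .nil) .nil))) 
(.lf (nat_lit 607819) (.g (nat_lit 1240) (.e (nat_lit 696344) (nat_lit 8) (.e (nat_lit 172067) (nat_lit 3) (.e (nat_lit 204865) (nat_lit 28) (.e (nat_lit 360192) (nat_lit 3) .nil)))) (.g (nat_lit 0) (.e (nat_lit 439517) (nat_lit 0) .nil) .nil)))) (.nd (nat_lit 9) 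
(.lf (nat_lit 607563) (.g (nat_lit 4641) (.e (nat_lit 696343) (nat_lit 8) (.e (nat_lit 172062) (nat_lit 2) (.e (nat_lit 196666) (nat_lit 13) (.e (nat_lit 65617) (nat_lit 10) (.e (nat_lit 344130) (nat_lit 26) (.e (nat_lit 557090) (nat_lit 12) (.e (nat_lit 164020) (nat_lit 45) .nil))))))) (.g (nat_lit 1) (.e (nat_lit 439021) (nat_lit 0) .nil) .nil))) 
(.lf (nat_lit 608075) (.g (nat_lit 2037) (.e (nat_lit 696346) (nat_lit 10) (.e (nat_lit 188440) (nat_lit 20) (.e (nat_lit 3469) (nat_lit 217) (.e (nat_lit 696344) (nat_lit 8) (.e (nat_lit 172113) (nat_lit 10) (.e (nat_lit 434287) (nat_lit 43) .nil)))))) (.g (nat_lit 1) (.e (nat_lit 440046) (nat_lit 0) .nil) .nil))))) (.nd (nat_lit 8) (.nd (nat_lit 9) 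
(.lf (nat_lit 607435) (.g (nat_lit 1980) (.e (nat_lit 688139) (nat_lit 5) (.e (nat_lit 3062) (nat_lit 190) (.e (nat_lit 475179) (nat_lit 24) (.e (nat_lit 516162) (nat_lit 11) (.e (nat_lit 442391) (nat_lit 19) .nil))))) (.g (nat_lit 0) (.e (nat_lit 437927) (nat_lit 0) .nil) .nil))) 
(.lf (nat_lit 607947) (.g (nat_lit 2223) (.e (nat_lit 696344) (nat_lit 8) (.e (nat_lit 172082) (nat_lit 7) (.e (nat_lit 409649) (nat_lit 18) (.e (nat_lit 303140) (nat_lit 10) (.e (nat_lit 434275) (nat_lit 39) (.e (nat_lit 663574) (nat_lit 9) (.e (nat_lit 2473) (nat_lit 157) (.e (nat_lit 3467) (nat_lit 217) .nil)))))))) (.g (nat_lit 1) (.e (nat_lit 439729) (nat_lit 0) .nil) .nil)))) 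
(.nd (nat_lit 9) 
(.lf (nat_lit 607691) (.g (nat_lit 1589) (.e (nat_lit 696343) (nat_lit 8) (.e (nat_lit 172106) (nat_lit 10) (.e (nat_lit 434209) (nat_lit 18) (.e (nat_lit 6271) (nat_lit 337) .nil)))) (.g (nat_lit 0) (.e (nat_lit 439270) (nat_lit 0) .nil) .nil))) 
(.lf (nat_lit 608203) (.g (nat_lit 2738) (.e (nat_lit 704589) (nat_lit 3) (.e (nat_lit 163975) (nat_lit 30) (.e (nat_lit 573492) (nat_lit 15) (.e (nat_lit 81956) (nat_lit 23) (.e (nat_lit 98355) (nat_lit 26) (.e (nat_lit 426402) (nat_lit 15) (.e (nat_lit 2056) (nat_lit 142) .nil))))))) (.g (nat_lit 1) (.e (nat_lit 440539) (nat_lit 0) .nil) .nil))))))) 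
(.nd (nat_lit 6) (.nd (nat_lit 7) (.nd (nat_lit 8) (.nd (nat_lit 9) 
(.lf (nat_lit 607275) (.g (nat_lit 1673) (.e (nat_lit 811035) (nat_lit 11) (.e (nat_lit 580) (nat_lit 43) (.e (nat_lit 516151) (nat_lit 9) (.e (nat_lit 426132) (nat_lit 3) (.e (nat_lit 212736) (nat_lit 16) .nil))))) (.g (nat_lit 0) (.e (nat_lit 437186) (nat_lit 0) .nil) .nil))) 
(.lf (nat_lit 607787) (.g (nat_lit 2861) (.e (nat_lit 696344) (nat_lit 8) (.e (nat_lit 172062) (nat_lit 2) (.e (nat_lit 196666) (nat_lit 13) (.e (nat_lit 65617) (nat_lit 10) (.e (nat_lit 344127) (nat_lit 26) (.e (nat_lit 557088) (nat_lit 12) (.e (nat_lit 164018) (nat_lit 45) .nil))))))) (.g (nat_lit 1) (.e (nat_lit 439484) (nat_lit 0) .nil) .nil)))) (.nd (nat_lit 9) 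
(.lf (nat_lit 607531) (.g (nat_lit 4949) (.e (nat_lit 696329) (nat_lit 5) (.e (nat_lit 2884) (nat_lit 184) (.e (nat_lit 426125) (nat_lit 2) (.e (nat_lit 196666) (nat_lit 13) (.e (nat_lit 65617) (nat_lit 10) (.e (nat_lit 344133) (nat_lit 26) (.e (nat_lit 557091) (nat_lit 12) (.e (nat_lit 164020) (nat_lit 45) .nil)))))))) (.g (nat_lit 1) (.e (nat_lit 438448) (nat_lit 0) .nil) .nil))) 
(.lf (nat_lit 608043) (.g (nat_lit 735) (.e (nat_lit 696344) (nat_lit 8) (.e (nat_lit 172115) (nat_lit 10) (.e (nat_lit 434285) (nat_lit 42) (.e (nat_lit 696064) (nat_lit 10) .nil)))) (.g (nat_lit 0) (.e (nat_lit 439893) (nat_lit 0) .nil) .nil))))) (.nd (nat_lit 8) (.nd (nat_lit 9) 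
(.lf (nat_lit 607403) (.g (nat_lit 1499) (.e (nat_lit 688138) (nat_lit 5) (.e (nat_lit 3062) (nat_lit 190) (.e (nat_lit 475179) (nat_lit 24) (.e (nat_lit 516174) (nat_lit 14) .nil)))) (.g (nat_lit 0) (.e (nat_lit 437825) (nat_lit 0) .nil) .nil))) 
(.lf (nat_lit 607915) (.g (nat_lit 3044) (.e (nat_lit 696344) (nat_lit 8) (.e (nat_lit 172082) (nat_lit 7) (.e (nat_lit 409646) (nat_lit 18) (.e (nat_lit 303140) (nat_lit 10) (.e (nat_lit 434200) (nat_lit 18) (.e (nat_lit 5968) (nat_lit 324) (.e (nat_lit 163844) (nat_lit 0) (.e (nat_lit 3471) (nat_lit 217) .nil)))))))) (.g (nat_lit 1) (.e (nat_lit 439687) (nat_lit 0) .nil) .nil)))) 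
(.nd (nat_lit 9) 
(.lf (nat_lit 607659) (.g (nat_lit 3033) (.e (nat_lit 696343) (nat_lit 8) (.e (nat_lit 172082) (nat_lit 7) (.e (nat_lit 409646) (nat_lit 18) (.e (nat_lit 303140) (nat_lit 10) (.e (nat_lit 434202) (nat_lit 18) (.e (nat_lit 5964) (nat_lit 324) (.e (nat_lit 163843) (nat_lit 0) (.e (nat_lit 3471) (nat_lit 217) .nil)))))))) (.g (nat_lit 1) (.e (nat_lit 439195) (nat_lit 0) .nil) .nil))) 
(.lf (nat_lit 608171) (.g (nat_lit 2841) (.e (nat_lit 704589) (nat_lit 3) (.e (nat_lit 163975) (nat_lit 30) (.e (nat_lit 573491) (nat_lit 15) (.e (nat_lit 81954) (nat_lit 23) (.e (nat_lit 98356) (nat_lit 26) (.e (nat_lit 426420) (nat_lit 15) (.e (nat_lit 2057) (nat_lit 142) .nil))))))) (.g (nat_lit 1) (.e (nat_lit 440403) (nat_lit 0) .nil) .nil)))))) 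
(.nd (nat_lit 7) (.nd (nat_lit 8) (.nd (nat_lit 9) 
(.lf (nat_lit 607339) (.g (nat_lit 1431) (.e (nat_lit 819219) (nat_lit 4) (.e (nat_lit 172113) (nat_lit 10) (.e (nat_lit 434248) (nat_lit 28) (.e (nat_lit 573503) (nat_lit 18) .nil)))) (.g (nat_lit 0) (.e (nat_lit 437593) (nat_lit 0) .nil) .nil))) 
(.lf (nat_lit 607851) (.g (nat_lit 3032) (.e (nat_lit 696344) (nat_lit 8) (.e (nat_lit 172078) (nat_lit 7) (.e (nat_lit 409649) (nat_lit 18) (.e (nat_lit 303140) (nat_lit 10) (.e (nat_lit 434275) (nat_lit 39) (.e (nat_lit 663580) (nat_lit 9) (.e (nat_lit 2416) (nat_lit 157) (.e (nat_lit 3467) (nat_lit 217) .nil)))))))) (.g (nat_lit 1) (.e (nat_lit 439552) (nat_lit 0) .nil) .nil)))) 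
(.nd (nat_lit 9) 
(.lf (nat_lit 607595) (.g (nat_lit 3177) (.e (nat_lit 696343) (nat_lit 8) (.e (nat_lit 172066) (nat_lit 3) (.e (nat_lit 204869) (nat_lit 29) (.e (nat_lit 360475) (nat_lit 8) (.e (nat_lit 557089) (nat_lit 12) (.e (nat_lit 164020) (nat_lit 45) .nil)))))) (.g (nat_lit 1) (.e (nat_lit 439055) (nat_lit 0) .nil) .nil))) 
(.lf (nat_lit 608107) (.g (nat_lit 3985) (.e (nat_lit 704589) (nat_lit 3) (.e (nat_lit 163975) (nat_lit 30) (.e (nat_lit 573481) (nat_lit 13) (.e (nat_lit 65604) (nat_lit 9) (.e (nat_lit 336013) (nat_lit 2) (.e (nat_lit 90170) (nat_lit 13) (.e (nat_lit 172137) (nat_lit 15) (.e (nat_lit 2058) (nat_lit 142) .nil)))))))) (.g (nat_lit 1) (.e (nat_lit 440336) (nat_lit 0) .nil) .nil))))) 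
(.nd (nat_lit 8) (.nd (nat_lit 9) 
(.lf (nat_lit 607467) (.g (nat_lit 2361) (.e (nat_lit 688166) (nat_lit 15) (.e (nat_lit 57478) (nat_lit 28) (.e (nat_lit 557105) (nat_lit 14) (.e (nat_lit 180252) (nat_lit 10) (.e (nat_lit 573487) (nat_lit 14) (.e (nat_lit 73747) (nat_lit 3) (.e (nat_lit 516100) (nat_lit 0) (.e (nat_lit 7936) (nat_lit 216) .nil)))))))) (.g (nat_lit 1) (.e (nat_lit 438170) (nat_lit 0) .nil) .nil))) 
(.lf (nat_lit 607979) (.g (nat_lit 3004) (.e (nat_lit 696344) (nat_lit 8) (.e (nat_lit 172106) (nat_lit 10) (.e (nat_lit 434209) (nat_lit 18) (.e (nat_lit 6428) (nat_lit 342) (.e (nat_lit 229412) (nat_lit 14) (.e (nat_lit 442411) (nat_lit 20) (.e (nat_lit 3468) (nat_lit 217) .nil))))))) (.g (nat_lit 1) (.e (nat_lit 439780) (nat_lit 0) .nil) .nil)))) (.nd (nat_lit 9) 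
(.lf (nat_lit 607723) (.g (nat_lit 2208) (.e (nat_lit 696343) (nat_lit 8) (.e (nat_lit 172113) (nat_lit 10) (.e (nat_lit 434203) (nat_lit 18) (.e (nat_lit 6420) (nat_lit 341) (.e (nat_lit 163932) (nat_lit 17) (.e (nat_lit 466967) (nat_lit 20) (.e (nat_lit 3464) (nat_lit 217) .nil))))))) (.g (nat_lit 1) (.e (nat_lit 439333) (nat_lit 0) .nil) .nil))) 
(.lf (nat_lit 608235) (.g (nat_lit 2994) (.e (nat_lit 704589) (nat_lit 3) (.e (nat_lit 163975) (nat_lit 30) (.e (nat_lit 573492) (nat_lit 15) (.e (nat_lit 81956) (nat_lit 23) (.e (nat_lit 98356) (nat_lit 26) (.e (nat_lit 426402) (nat_lit 15) (.e (nat_lit 2046) (nat_lit 142) .nil))))))) (.g (nat_lit 1) (.e (nat_lit 440571) (nat_lit 0) .nil) .nil)))))))) 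
(.nd (nat_lit 5) (.nd (nat_lit 6) (.nd (nat_lit 7) (.nd (nat_lit 8) (.nd (nat_lit 9) 
(.lf (nat_lit 607259) (.g (nat_lit 807) (.e (nat_lit 811012) (nat_lit 0) (.e (nat_lit 5780) (nat_lit 317) (.e (nat_lit 180241) (nat_lit 4) (.e (nat_lit 524340) (nat_lit 28) (.e (nat_lit 352283) (nat_lit 20) (.e (nat_lit 2384) (nat_lit 155) .nil)))))) (.g (nat_lit 1) (.e (nat_lit 437105) (nat_lit 0) .nil) .nil))) 
(.lf (nat_lit 607771) (.g (nat_lit 2478) (.e (nat_lit 696343) (nat_lit 8) (.e (nat_lit 172123) (nat_lit 13) (.e (nat_lit 483412) (nat_lit 27) (.e (nat_lit 401435) (nat_lit 9) (.e (nat_lit 425986) (nat_lit 0) (.e (nat_lit 3471) (nat_lit 217) .nil)))))) (.g (nat_lit 1) (.e (nat_lit 439462) (nat_lit 0) .nil) .nil)))) (.nd (nat_lit 9) 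
(.lf (nat_lit 607515) (.g (nat_lit 3993) (.e (nat_lit 696328) (nat_lit 5) (.e (nat_lit 2884) (nat_lit 184) (.e (nat_lit 426140) (nat_lit 3) (.e (nat_lit 204869) (nat_lit 29) (.e (nat_lit 360475) (nat_lit 8) (.e (nat_lit 557089) (nat_lit 12) (.e (nat_lit 164020) (nat_lit 45) .nil))))))) (.g (nat_lit 1) (.e (nat_lit 438373) (nat_lit 0) .nil) .nil))) 
(.lf (nat_lit 608027) (.g (nat_lit 911) (.e (nat_lit 696344) (nat_lit 8) (.e (nat_lit 172115) (nat_lit 10) (.e (nat_lit 434209) (nat_lit 18) (.e (nat_lit 6273) (nat_lit 337) .nil)))) (.g (nat_lit 0) (.e (nat_lit 439876) (nat_lit 0) .nil) .nil))))) (.nd (nat_lit 8) (.nd (nat_lit 9) 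
(.lf (nat_lit 607387) (.g (nat_lit 5052) (.e (nat_lit 679968) (nat_lit 13) (.e (nat_lit 2663) (nat_lit 167) (.e (nat_lit 196666) (nat_lit 13) (.e (nat_lit 65610) (nat_lit 10) (.e (nat_lit 344117) (nat_lit 21) (.e (nat_lit 516145) (nat_lit 9) (.e (nat_lit 426360) (nat_lit 15) (.e (nat_lit 2015) (nat_lit 139) .nil)))))))) (.g (nat_lit 1) (.e (nat_lit 437718) (nat_lit 0) .nil) .nil))) 
(.lf (nat_lit 607899) (.g (nat_lit 2457) (.e (nat_lit 696344) (nat_lit 8) (.e (nat_lit 172082) (nat_lit 7) (.e (nat_lit 409646) (nat_lit 18) (.e (nat_lit 303133) (nat_lit 9) (.e (nat_lit 426042) (nat_lit 0) (.e (nat_lit 2427) (nat_lit 157) (.e (nat_lit 5968) (nat_lit 324) (.e (nat_lit 163844) (nat_lit 0) (.e (nat_lit 3471) (nat_lit 217) .nil))))))))) (.g (nat_lit 1) (.e (nat_lit 439650) (nat_lit 0) .nil) .nil)))) 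
(.nd (nat_lit 9) 
(.lf (nat_lit 607643) (.g (nat_lit 2661) (.e (nat_lit 696343) (nat_lit 8) (.e (nat_lit 172082) (nat_lit 7) (.e (nat_lit 409646) (nat_lit 18) (.e (nat_lit 303133) (nat_lit 9) (.e (nat_lit 426042) (nat_lit 0) (.e (nat_lit 2442) (nat_lit 157) (.e (nat_lit 5965) (nat_lit 324) (.e (nat_lit 163844) (nat_lit 0) (.e (nat_lit 3471) (nat_lit 217) .nil))))))))) (.g (nat_lit 1) (.e (nat_lit 439151) (nat_lit 0) .nil) .nil))) 
(.lf (nat_lit 608155) (.g (nat_lit 2310) (.e (nat_lit 704589) (nat_lit 3) (.e (nat_lit 163975) (nat_lit 30) (.e (nat_lit 573491) (nat_lit 15) (.e (nat_lit 81954) (nat_lit 23) (.e (nat_lit 98356) (nat_lit 26) (.e (nat_lit 426361) (nat_lit 15) (.e (nat_lit 2064) (nat_lit 142) .nil))))))) (.g (nat_lit 1) (.e (nat_lit 440387) (nat_lit 0) .nil) .nil)))))) 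
(.nd (nat_lit 7) (.nd (nat_lit 8) (.nd (nat_lit 9) 
(.lf (nat_lit 607323) (.g (nat_lit 177) (.e (nat_lit 819219) (nat_lit 4) (.e (nat_lit 172079) (nat_lit 7) (.e (nat_lit 409611) (nat_lit 10) .nil))) (.g (nat_lit 0) (.e (nat_lit 437530) (nat_lit 0) .nil) .nil))) 
(.lf (nat_lit 607835) (.g (nat_lit 4956) (.e (nat_lit 696344) (nat_lit 8) (.e (nat_lit 172067) (nat_lit 3) (.e (nat_lit 204869) (nat_lit 29) (.e (nat_lit 360475) (nat_lit 8) (.e (nat_lit 557068) (nat_lit 9) (.e (nat_lit 2467) (nat_lit 157) (.e (nat_lit 3469) (nat_lit 217) .nil))))))) (.g (nat_lit 1) (.e (nat_lit 439535) (nat_lit 0) .nil) .nil)))) (.nd (nat_lit 9) 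
(.lf (nat_lit 607579) (.g (nat_lit 3291) (.e (nat_lit 696343) (nat_lit 8) (.e (nat_lit 172065) (nat_lit 3) (.e (nat_lit 204855) (nat_lit 26) (.e (nat_lit 336176) (nat_lit 10) (.e (nat_lit 344132) (nat_lit 26) (.e (nat_lit 557094) (nat_lit 12) (.e (nat_lit 164018) (nat_lit 45) .nil))))))) (.g (nat_lit 1) (.e (nat_lit 439038) (nat_lit 0) .nil) .nil))) 
(.lf (nat_lit 608091) (.g (nat_lit 3040) (.e (nat_lit 696348) (nat_lit 12) (.e (nat_lit 237592) (nat_lit 3) (.e (nat_lit 204869) (nat_lit 29) (.e (nat_lit 360474) (nat_lit 8) (.e (nat_lit 557091) (nat_lit 12) (.e (nat_lit 164020) (nat_lit 45) .nil)))))) (.g (nat_lit 1) (.e (nat_lit 440155) (nat_lit 0) .nil) .nil))))) (.nd (nat_lit 8) (.nd (nat_lit 9) 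
(.lf (nat_lit 607451) (.g (nat_lit 1233) (.e (nat_lit 688139) (nat_lit 5) (.e (nat_lit 3085) (nat_lit 191) (.e (nat_lit 483337) (nat_lit 9) (.e (nat_lit 426287) (nat_lit 10) .nil)))) (.g (nat_lit 0) (.e (nat_lit 437943) (nat_lit 0) .nil) .nil))) 
(.lf (nat_lit 607963) (.g (nat_lit 2120) (.e (nat_lit 696344) (nat_lit 8) (.e (nat_lit 172106) (nat_lit 10) (.e (nat_lit 434209) (nat_lit 18) (.e (nat_lit 6273) (nat_lit 337) (.e (nat_lit 2646) (nat_lit 166) (.e (nat_lit 188440) (nat_lit 20) (.e (nat_lit 3467) (nat_lit 217) .nil))))))) (.g (nat_lit 1) (.e (nat_lit 439760) (nat_lit 0) .nil) .nil)))) (.nd (nat_lit 9) 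
(.lf (nat_lit 607707) (.g (nat_lit 2845) (.e (nat_lit 696343) (nat_lit 8) (.e (nat_lit 172106) (nat_lit 10) (.e (nat_lit 434209) (nat_lit 18) (.e (nat_lit 6428) (nat_lit 342) (.e (nat_lit 229412) (nat_lit 14) (.e (nat_lit 442411) (nat_lit 20) (.e (nat_lit 3468) (nat_lit 217) .nil))))))) (.g (nat_lit 1) (.e (nat_lit 439296) (nat_lit 0) .nil) .nil))) 
(.lf (nat_lit 608219) (.g (nat_lit 3938) (.e (nat_lit 704589) (nat_lit 3) (.e (nat_lit 163975) (nat_lit 30) (.e (nat_lit 573492) (nat_lit 15) (.e (nat_lit 81956) (nat_lit 23) (.e (nat_lit 98356) (nat_lit 26) (.e (nat_lit 426361) (nat_lit 15) (.e (nat_lit 7936) (nat_lit 142) .nil))))))) (.g (nat_lit 1) (.e (nat_lit 440555) (nat_lit 0) .nil) .nil))))))) 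
(.nd (nat_lit 6) (.nd (nat_lit 7) (.nd (nat_lit 8) (.nd (nat_lit 9) 
(.lf (nat_lit 607291) (.g (nat_lit 401) (.e (nat_lit 819203) (nat_lit 0) (.e (nat_lit 3016) (nat_lit 187) (.e (nat_lit 458496) (nat_lit 3) .nil))) (.g (nat_lit 0) (.e (nat_lit 437301) (nat_lit 0) .nil) .nil))) 
(.lf (nat_lit 607803) (.g (nat_lit 2776) (.e (nat_lit 696344) (nat_lit 8) (.e (nat_lit 172064) (nat_lit 2) (.e (nat_lit 196666) (nat_lit 13) (.e (nat_lit 65617) (nat_lit 10) (.e (nat_lit 344132) (nat_lit 26) (.e (nat_lit 557088) (nat_lit 12) (.e (nat_lit 164018) (nat_lit 45) .nil))))))) (.g (nat_lit 1) (.e (nat_lit 439500) (nat_lit 0) .nil) .nil)))) (.nd (nat_lit 9) 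
(.lf (nat_lit 607547) (.g (nat_lit 2456) (.e (nat_lit 696330) (nat_lit 5) (.e (nat_lit 2988) (nat_lit 186) (.e (nat_lit 442390) (nat_lit 11) (.e (nat_lit 336231) (nat_lit 14) (.e (nat_lit 401448) (nat_lit 10) (.e (nat_lit 434287) (nat_lit 43) .nil)))))) (.g (nat_lit 1) (.e (nat_lit 438620) (nat_lit 0) .nil) .nil))) 
(.lf (nat_lit 608059) (.g (nat_lit 762) (.e (nat_lit 696344) (nat_lit 8) (.e (nat_lit 172124) (nat_lit 14) (.e (nat_lit 491534) (nat_lit 1) .nil))) (.g (nat_lit 0) (.e (nat_lit 439926) (nat_lit 0) .nil) .nil))))) (.nd (nat_lit 8) (.nd (nat_lit 9) 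
(.lf (nat_lit 607419) (.g (nat_lit 789) (.e (nat_lit 688139) (nat_lit 5) (.e (nat_lit 2887) (nat_lit 184) (.e (nat_lit 426276) (nat_lit 10) (.e (nat_lit 434209) (nat_lit 18) .nil)))) (.g (nat_lit 0) (.e (nat_lit 437856) (nat_lit 0) .nil) .nil))) 
(.lf (nat_lit 607931) (.g (nat_lit 2493) (.e (nat_lit 696344) (nat_lit 8) (.e (nat_lit 172082) (nat_lit 7) (.e (nat_lit 409646) (nat_lit 18) (.e (nat_lit 303143) (nat_lit 12) (.e (nat_lit 475197) (nat_lit 40) (.e (nat_lit 704852) (nat_lit 17) (.e (nat_lit 171776) (nat_lit 106) .nil))))))) (.g (nat_lit 1) (.e (nat_lit 439707) (nat_lit 0) .nil) .nil)))) (.nd (nat_lit 9) 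
(.lf (nat_lit 607675) (.g (nat_lit 2281) (.e (nat_lit 696343) (nat_lit 8) (.e (nat_lit 172082) (nat_lit 7) (.e (nat_lit 409649) (nat_lit 18) (.e (nat_lit 303135) (nat_lit 10) .nil)))) (.g (nat_lit 0) (.e (nat_lit 439237) (nat_lit 0) .nil) .nil))) 
(.lf (nat_lit 608187) (.g (nat_lit 4537) (.e (nat_lit 704589) (nat_lit 3) (.e (nat_lit 163975) (nat_lit 30) (.e (nat_lit 573492) (nat_lit 15) (.e (nat_lit 81953) (nat_lit 22) (.e (nat_lit 90167) (nat_lit 13) .nil))))) (.g (nat_lit 0) (.e (nat_lit 440503) (nat_lit 0) .nil) .nil)))))) (.nd (nat_lit 7) (.nd (nat_lit 8) (.nd (nat_lit 9) 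
(.lf (nat_lit 607355) (.g (nat_lit 1041) (.e (nat_lit 819221) (nat_lit 6) (.e (nat_lit 188438) (nat_lit 20) (.e (nat_lit 3289) (nat_lit 201) (.e (nat_lit 565267) (nat_lit 4) (.e (nat_lit 65620) (nat_lit 10) (.e (nat_lit 344183) (nat_lit 49) .nil)))))) (.g (nat_lit 1) (.e (nat_lit 437633) (nat_lit 0) .nil) .nil))) 
(.lf (nat_lit 607867) (.g (nat_lit 3763) (.e (nat_lit 696344) (nat_lit 8) (.e (nat_lit 172079) (nat_lit 7) (.e (nat_lit 409645) (nat_lit 18) (.e (nat_lit 303137) (nat_lit 10) (.e (nat_lit 434275) (nat_lit 39) (.e (nat_lit 663580) (nat_lit 9) (.e (nat_lit 2478) (nat_lit 157) (.e (nat_lit 3464) (nat_lit 217) .nil)))))))) (.g (nat_lit 1) (.e (nat_lit 439596) (nat_lit 0) .nil) .nil)))) 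
(.nd (nat_lit 9) 
(.lf (nat_lit 607611) (.g (nat_lit 4189) (.e (nat_lit 696343) (nat_lit 8) (.e (nat_lit 172067) (nat_lit 3) (.e (nat_lit 204869) (nat_lit 29) (.e (nat_lit 360474) (nat_lit 8) (.e (nat_lit 557088) (nat_lit 12) (.e (nat_lit 164020) (nat_lit 45) .nil)))))) (.g (nat_lit 1) (.e (nat_lit 439074) (nat_lit 0) .nil) .nil))) 
(.lf (nat_lit 608123) (.g (nat_lit 4938) (.e (nat_lit 704589) (nat_lit 3) (.e (nat_lit 163975) (nat_lit 30) (.e (nat_lit 573481) (nat_lit 13) (.e (nat_lit 65619) (nat_lit 10) (.e (nat_lit 344117) (nat_lit 21) (.e (nat_lit 516145) (nat_lit 9) (.e (nat_lit 426375) (nat_lit 15) (.e (nat_lit 2058) (nat_lit 142) .nil)))))))) (.g (nat_lit 1) (.e (nat_lit 440353) (nat_lit 0) .nil) .nil))))) 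
(.nd (nat_lit 8) (.nd (nat_lit 9) 
(.lf (nat_lit 607483) (.g (nat_lit 3488) (.e (nat_lit 688171) (nat_lit 15) (.e (nat_lit 57465) (nat_lit 23) (.e (nat_lit 516129) (nat_lit 3) (.e (nat_lit 221210) (nat_lit 22) (.e (nat_lit 196666) (nat_lit 13) (.e (nat_lit 65569) (nat_lit 3) (.e (nat_lit 98321) (nat_lit 17) (.e (nat_lit 7936) (nat_lit 216) .nil)))))))) (.g (nat_lit 1) (.e (nat_lit 438191) (nat_lit 0) .nil) .nil))) 
(.lf (nat_lit 607995) (.g (nat_lit 1811) (.e (nat_lit 696344) (nat_lit 8) (.e (nat_lit 172107) (nat_lit 10) (.e (nat_lit 434289) (nat_lit 43) (.e (nat_lit 696346) (nat_lit 10) (.e (nat_lit 188439) (nat_lit 20) (.e (nat_lit 3467) (nat_lit 217) .nil)))))) (.g (nat_lit 1) (.e (nat_lit 439804) (nat_lit 0) .nil) .nil)))) (.nd (nat_lit 9) 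
(.lf (nat_lit 607739) (.g (nat_lit 1813) (.e (nat_lit 696343) (nat_lit 8) (.e (nat_lit 172113) (nat_lit 10) (.e (nat_lit 434208) (nat_lit 18) (.e (nat_lit 6421) (nat_lit 341) (.e (nat_lit 163932) (nat_lit 17) .nil))))) (.g (nat_lit 0) (.e (nat_lit 439379) (nat_lit 0) .nil) .nil))) 
(.lf (nat_lit 608251) (.g (nat_lit 3656) (.e (nat_lit 704589) (nat_lit 3) (.e (nat_lit 163975) (nat_lit 30) (.e (nat_lit 573492) (nat_lit 15) (.e (nat_lit 81956) (nat_lit 23) (.e (nat_lit 98384) (nat_lit 32) (.e (nat_lit 475196) (nat_lit 40) .nil)))))) (.g (nat_lit 1) (.e (nat_lit 440587) (nat_lit 0) .nil) .nil)))))))))) 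
(.nd (nat_lit 3) (.nd (nat_lit 4) (.nd (nat_lit 5) (.nd (nat_lit 6) (.nd (nat_lit 7) 
(.nd (nat_lit 8) (.nd (nat_lit 9) 
(.lf (nat_lit 607239) (.g (nat_lit 3189) (.e (nat_lit 802842) (nat_lit 23) (.e (nat_lit 204829) (nat_lit 18) (.e (nat_lit 57847) (nat_lit 252) (.e (nat_lit 57377) (nat_lit 3) .nil)))) (.g (nat_lit 0) (.e (nat_lit 437063) (nat_lit 0) .nil) .nil))) 
(.lf (nat_lit 607751) (.g (nat_lit 2513) (.e (nat_lit 696343) (nat_lit 8) (.e (nat_lit 172115) (nat_lit 10) (.e (nat_lit 434209) (nat_lit 18) (.e (nat_lit 6425) (nat_lit 342) (.e (nat_lit 229412) (nat_lit 14) .nil))))) (.g (nat_lit 0) (.e (nat_lit 439409) (nat_lit 0) .nil) .nil)))) (.nd (nat_lit 9) 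
(.lf (nat_lit 607495) (.g (nat_lit 2039) (.e (nat_lit 688180) (nat_lit 17) (.e (nat_lit 73753) (nat_lit 8) (.e (nat_lit 557072) (nat_lit 9) (.e (nat_lit 3098) (nat_lit 192) (.e (nat_lit 491571) (nat_lit 13) .nil))))) (.g (nat_lit 0) (.e (nat_lit 438241) (nat_lit 0) .nil) .nil))) 
(.lf (nat_lit 608007) (.g (nat_lit 2970) (.e (nat_lit 696344) (nat_lit 8) (.e (nat_lit 172113) (nat_lit 10) (.e (nat_lit 434203) (nat_lit 18) (.e (nat_lit 6421) (nat_lit 341) (.e (nat_lit 163923) (nat_lit 15) (.e (nat_lit 450601) (nat_lit 21) .nil)))))) (.g (nat_lit 1) (.e (nat_lit 439827) (nat_lit 0) .nil) .nil))))) (.nd (nat_lit 8) (.nd (nat_lit 9) 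
(.lf (nat_lit 607367) (.g (nat_lit 1700) (.e (nat_lit 819221) (nat_lit 6) (.e (nat_lit 188441) (nat_lit 20) (.e (nat_lit 3289) (nat_lit 201) (.e (nat_lit 565269) (nat_lit 6) (.e (nat_lit 81947) (nat_lit 20) (.e (nat_lit 2390) (nat_lit 156) .nil)))))) (.g (nat_lit 1) (.e (nat_lit 437645) (nat_lit 0) .nil) .nil))) 
(.lf (nat_lit 607879) (.g (nat_lit 3431) (.e (nat_lit 696344) (nat_lit 8) (.e (nat_lit 172079) (nat_lit 7) (.e (nat_lit 409648) (nat_lit 18) (.e (nat_lit 303137) (nat_lit 10) (.e (nat_lit 434275) (nat_lit 39) (.e (nat_lit 663580) (nat_lit 9) (.e (nat_lit 2478) (nat_lit 157) (.e (nat_lit 3464) (nat_lit 217) .nil)))))))) (.g (nat_lit 1) (.e (nat_lit 439627) (nat_lit 0) .nil) .nil)))) 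
(.nd (nat_lit 9) 
(.lf (nat_lit 607623) (.g (nat_lit 2169) (.e (nat_lit 696343) (nat_lit 8) (.e (nat_lit 172079) (nat_lit 7) (.e (nat_lit 409645) (nat_lit 18) (.e (nat_lit 303133) (nat_lit 9) (.e (nat_lit 426042) (nat_lit 0) (.e (nat_lit 2449) (nat_lit 157) (.e (nat_lit 5965) (nat_lit 324) (.e (nat_lit 163844) (nat_lit 0) (.e (nat_lit 3471) (nat_lit 217) .nil))))))))) (.g (nat_lit 1) (.e (nat_lit 439092) (nat_lit 0) .nil) .nil))) 
(.lf (nat_lit 608135) (.g (nat_lit 3411) (.e (nat_lit 704589) (nat_lit 3) (.e (nat_lit 163975) (nat_lit 30) (.e (nat_lit 573482) (nat_lit 13) (.e (nat_lit 65619) (nat_lit 10) (.e (nat_lit 344117) (nat_lit 21) (.e (nat_lit 516151) (nat_lit 9) (.e (nat_lit 426412) (nat_lit 15) (.e (nat_lit 2059) (nat_lit 142) .nil)))))))) (.g (nat_lit 1) (.e (nat_lit 440365) (nat_lit 0) .nil) .nil)))))) 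
(.nd (nat_lit 7) (.nd (nat_lit 8) (.nd (nat_lit 9) 
(.lf (nat_lit 607303) (.g (nat_lit 1401) (.e (nat_lit 819204) (nat_lit 0) (.e (nat_lit 3015) (nat_lit 187) (.e (nat_lit 450562) (nat_lit 0) (.e (nat_lit 4093) (nat_lit 245) (.e (nat_lit 7936) (nat_lit 90) .nil))))) (.g (nat_lit 0) (.e (nat_lit 437389) (nat_lit 0) .nil) .nil))) 
(.lf (nat_lit 607815) (.g (nat_lit 3487) (.e (nat_lit 696344) (nat_lit 8) (.e (nat_lit 172066) (nat_lit 3) (.e (nat_lit 204869) (nat_lit 29) (.e (nat_lit 360475) (nat_lit 8) (.e (nat_lit 557091) (nat_lit 12) (.e (nat_lit 164018) (nat_lit 45) .nil)))))) (.g (nat_lit 1) (.e (nat_lit 439513) (nat_lit 0) .nil) .nil)))) (.nd (nat_lit 9) 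
(.lf (nat_lit 607559) (.g (nat_lit 4800) (.e (nat_lit 696343) (nat_lit 8) (.e (nat_lit 172062) (nat_lit 2) (.e (nat_lit 196666) (nat_lit 13) (.e (nat_lit 65617) (nat_lit 10) (.e (nat_lit 344127) (nat_lit 26) (.e (nat_lit 557090) (nat_lit 12) (.e (nat_lit 164020) (nat_lit 45) .nil))))))) (.g (nat_lit 1) (.e (nat_lit 439017) (nat_lit 0) .nil) .nil))) 
(.lf (nat_lit 608071) (.g (nat_lit 2077) (.e (nat_lit 696346) (nat_lit 10) (.e (nat_lit 188434) (nat_lit 20) (.e (nat_lit 3469) (nat_lit 217) (.e (nat_lit 696344) (nat_lit 8) (.e (nat_lit 172113) (nat_lit 10) (.e (nat_lit 434287) (nat_lit 43) .nil)))))) (.g (nat_lit 1) (.e (nat_lit 440025) (nat_lit 0) .nil) .nil))))) (.nd (nat_lit 8) (.nd (nat_lit 9) 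
(.lf (nat_lit 607431) (.g (nat_lit 2249) (.e (nat_lit 688139) (nat_lit 5) (.e (nat_lit 3062) (nat_lit 190) (.e (nat_lit 475179) (nat_lit 24) (.e (nat_lit 516150) (nat_lit 9) (.e (nat_lit 426250) (nat_lit 9) .nil))))) (.g (nat_lit 0) (.e (nat_lit 437923) (nat_lit 0) .nil) .nil))) 
(.lf (nat_lit 607943) (.g (nat_lit 2273) (.e (nat_lit 696344) (nat_lit 8) (.e (nat_lit 172082) (nat_lit 7) (.e (nat_lit 409649) (nat_lit 18) (.e (nat_lit 303140) (nat_lit 10) (.e (nat_lit 434202) (nat_lit 18) .nil))))) (.g (nat_lit 0) (.e (nat_lit 439725) (nat_lit 0) .nil) .nil)))) (.nd (nat_lit 9) 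
(.lf (nat_lit 607687) (.g (nat_lit 1196) (.e (nat_lit 696343) (nat_lit 8) (.e (nat_lit 172106) (nat_lit 10) (.e (nat_lit 434202) (nat_lit 18) (.e (nat_lit 6254) (nat_lit 337) (.e (nat_lit 7936) (nat_lit 166) .nil))))) (.g (nat_lit 0) (.e (nat_lit 439262) (nat_lit 0) .nil) .nil))) 
(.lf (nat_lit 608199) (.g (nat_lit 3001) (.e (nat_lit 704589) (nat_lit 3) (.e (nat_lit 163975) (nat_lit 30) (.e (nat_lit 573492) (nat_lit 15) (.e (nat_lit 81956) (nat_lit 23) (.e (nat_lit 98355) (nat_lit 26) (.e (nat_lit 426420) (nat_lit 15) (.e (nat_lit 2056) (nat_lit 142) .nil))))))) (.g (nat_lit 1) (.e (nat_lit 440535) (nat_lit 0) .nil) .nil))))))) 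
(.nd (nat_lit 6) (.nd (nat_lit 7) (.nd (nat_lit 8) (.nd (nat_lit 9) 
(.lf (nat_lit 607271) (.g (nat_lit 1922) (.e (nat_lit 811031) (nat_lit 11) (.e (nat_lit 883) (nat_lit 75) (.e (nat_lit 778466) (nat_lit 11) (.e (nat_lit 24617) (nat_lit 7) (.e (nat_lit 319529) (nat_lit 16) .nil))))) (.g (nat_lit 0) (.e (nat_lit 437176) (nat_lit 0) .nil) .nil))) 
(.lf (nat_lit 607783) (.g (nat_lit 1819) (.e (nat_lit 696343) (nat_lit 8) (.e (nat_lit 172126) (nat_lit 14) (.e (nat_lit 491566) (nat_lit 12) (.e (nat_lit 385105) (nat_lit 50) .nil)))) (.g (nat_lit 0) (.e (nat_lit 439479) (nat_lit 0) .nil) .nil)))) (.nd (nat_lit 9) 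
(.lf (nat_lit 607527) (.g (nat_lit 3124) (.e (nat_lit 696328) (nat_lit 5) (.e (nat_lit 3004) (nat_lit 186) (.e (nat_lit 442390) (nat_lit 11) (.e (nat_lit 336232) (nat_lit 14) (.e (nat_lit 401448) (nat_lit 10) (.e (nat_lit 434289) (nat_lit 43) .nil)))))) (.g (nat_lit 1) (.e (nat_lit 438393) (nat_lit 0) .nil) .nil))) 
(.lf (nat_lit 608039) (.g (nat_lit 1797) (.e (nat_lit 696344) (nat_lit 8) (.e (nat_lit 172115) (nat_lit 10) (.e (nat_lit 434209) (nat_lit 18) (.e (nat_lit 6427) (nat_lit 342) (.e (nat_lit 229412) (nat_lit 14) .nil))))) (.g (nat_lit 0) (.e (nat_lit 439889) (nat_lit 0) .nil) .nil))))) (.nd (nat_lit 8) (.nd (nat_lit 9) 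
(.lf (nat_lit 607399) (.g (nat_lit 617) (.e (nat_lit 688138) (nat_lit 5) (.e (nat_lit 2887) (nat_lit 184) (.e (nat_lit 426291) (nat_lit 10) .nil))) (.g (nat_lit 0) (.e (nat_lit 437793) (nat_lit 0) .nil) .nil))) 
(.lf (nat_lit 607911) (.g (nat_lit 3049) (.e (nat_lit 696344) (nat_lit 8) (.e (nat_lit 172082) (nat_lit 7) (.e (nat_lit 409646) (nat_lit 18) (.e (nat_lit 303137) (nat_lit 10) (.e (nat_lit 434275) (nat_lit 39) (.e (nat_lit 663580) (nat_lit 9) (.e (nat_lit 2478) (nat_lit 157) (.e (nat_lit 3464) (nat_lit 217) .nil)))))))) (.g (nat_lit 1) (.e (nat_lit 439683) (nat_lit 0) .nil) .nil)))) 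
(.nd (nat_lit 9) 
(.lf (nat_lit 607655) (.g (nat_lit 3056) (.e (nat_lit 696343) (nat_lit 8) (.e (nat_lit 172082) (nat_lit 7) (.e (nat_lit 409646) (nat_lit 18) (.e (nat_lit 303140) (nat_lit 10) (.e (nat_lit 434199) (nat_lit 18) (.e (nat_lit 5964) (nat_lit 324) (.e (nat_lit 163844) (nat_lit 0) (.e (nat_lit 3471) (nat_lit 217) .nil)))))))) (.g (nat_lit 1) (.e (nat_lit 439191) (nat_lit 0) .nil) .nil))) 
(.lf (nat_lit 608167) (.g (nat_lit 3336) (.e (nat_lit 704589) (nat_lit 3) (.e (nat_lit 163975) (nat_lit 30) (.e (nat_lit 573491) (nat_lit 15) (.e (nat_lit 81954) (nat_lit 23) (.e (nat_lit 98356) (nat_lit 26) (.e (nat_lit 426376) (nat_lit 15) (.e (nat_lit 2059) (nat_lit 142) .nil))))))) (.g (nat_lit 1) (.e (nat_lit 440399) (nat_lit 0) .nil) .nil)))))) 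
(.nd (nat_lit 7) (.nd (nat_lit 8) (.nd (nat_lit 9) 
(.lf (nat_lit 607335) (.g (nat_lit 1967) (.e (nat_lit 819219) (nat_lit 4) (.e (nat_lit 172112) (nat_lit 10) (.e (nat_lit 434248) (nat_lit 28) (.e (nat_lit 573503) (nat_lit 18) (.e (nat_lit 1358) (nat_lit 102) .nil))))) (.g (nat_lit 0) (.e (nat_lit 437586) (nat_lit 0) .nil) .nil))) 
(.lf (nat_lit 607847) (.g (nat_lit 2769) (.e (nat_lit 696344) (nat_lit 8) (.e (nat_lit 172078) (nat_lit 7) (.e (nat_lit 409649) (nat_lit 18) (.e (nat_lit 303140) (nat_lit 10) (.e (nat_lit 434202) (nat_lit 18) (.e (nat_lit 5968) (nat_lit 324) (.e (nat_lit 163844) (nat_lit 0) (.e (nat_lit 3471) (nat_lit 217) .nil)))))))) (.g (nat_lit 1) (.e (nat_lit 439548) (nat_lit 0) .nil) .nil)))) 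
(.nd (nat_lit 9) 
(.lf (nat_lit 607591) (.g (nat_lit 4328) (.e (nat_lit 696343) (nat_lit 8) (.e (nat_lit 172065) (nat_lit 3) (.e (nat_lit 204869) (nat_lit 29) (.e (nat_lit 360475) (nat_lit 8) (.e (nat_lit 557089) (nat_lit 12) (.e (nat_lit 164020) (nat_lit 45) .nil)))))) (.g (nat_lit 1) (.e (nat_lit 439051) (nat_lit 0) .nil) .nil))) 
(.lf (nat_lit 608103) (.g (nat_lit 3858) (.e (nat_lit 704588) (nat_lit 3) (.e (nat_lit 163979) (nat_lit 30) (.e (nat_lit 573493) (nat_lit 15) (.e (nat_lit 81956) (nat_lit 23) (.e (nat_lit 98385) (nat_lit 32) (.e (nat_lit 475205) (nat_lit 40) .nil)))))) (.g (nat_lit 1) (.e (nat_lit 440322) (nat_lit 0) .nil) .nil))))) (.nd (nat_lit 8) (.nd (nat_lit 9) 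
(.lf (nat_lit 607463) (.g (nat_lit 3738) (.e (nat_lit 688166) (nat_lit 15) (.e (nat_lit 57477) (nat_lit 28) (.e (nat_lit 557104) (nat_lit 14) (.e (nat_lit 180252) (nat_lit 10) (.e (nat_lit 573482) (nat_lit 13) (.e (nat_lit 65571) (nat_lit 3) (.e (nat_lit 98321) (nat_lit 17) (.e (nat_lit 7936) (nat_lit 216) .nil)))))))) (.g (nat_lit 1) (.e (nat_lit 438166) (nat_lit 0) .nil) .nil))) 
(.lf (nat_lit 607975) (.g (nat_lit 1284) (.e (nat_lit 696344) (nat_lit 8) (.e (nat_lit 172106) (nat_lit 10) (.e (nat_lit 434209) (nat_lit 18) (.e (nat_lit 6427) (nat_lit 342) .nil)))) (.g (nat_lit 0) (.e (nat_lit 439776) (nat_lit 0) .nil) .nil)))) (.nd (nat_lit 9) 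
(.lf (nat_lit 607719) (.g (nat_lit 406) (.e (nat_lit 696343) (nat_lit 8) (.e (nat_lit 172113) (nat_lit 10) (.e (nat_lit 434203) (nat_lit 18) .nil))) (.g (nat_lit 0) (.e (nat_lit 439317) (nat_lit 0) .nil) .nil))) 
(.lf (nat_lit 608231) (.g (nat_lit 4207) (.e (nat_lit 704589) (nat_lit 3) (.e (nat_lit 163975) (nat_lit 30) (.e (nat_lit 573492) (nat_lit 15) (.e (nat_lit 81956) (nat_lit 23) (.e (nat_lit 98356) (nat_lit 26) (.e (nat_lit 426393) (nat_lit 15) (.e (nat_lit 2056) (nat_lit 142) .nil))))))) (.g (nat_lit 1) (.e (nat_lit 440567) (nat_lit 0) .nil) .nil)))))))) 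
(.nd (nat_lit 5) (.nd (nat_lit 6) (.nd (nat_lit 7) (.nd (nat_lit 8) (.nd (nat_lit 9) 
(.lf (nat_lit 607255) (.g (nat_lit 1041) (.e (nat_lit 811012) (nat_lit 0) (.e (nat_lit 5777) (nat_lit 317) (.e (nat_lit 180241) (nat_lit 4) (.e (nat_lit 524340) (nat_lit 28) (.e (nat_lit 352287) (nat_lit 20) (.e (nat_lit 2384) (nat_lit 155) .nil)))))) (.g (nat_lit 1) (.e (nat_lit 437100) (nat_lit 0) .nil) .nil))) 
(.lf (nat_lit 607767) (.g (nat_lit 1177) (.e (nat_lit 696343) (nat_lit 8) (.e (nat_lit 172123) (nat_lit 13) (.e (nat_lit 483410) (nat_lit 27) (.e (nat_lit 401449) (nat_lit 11) .nil)))) (.g (nat_lit 0) (.e (nat_lit 439456) (nat_lit 0) .nil) .nil)))) (.nd (nat_lit 9) 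
(.lf (nat_lit 607511) (.g (nat_lit 4859) (.e (nat_lit 696328) (nat_lit 5) (.e (nat_lit 2884) (nat_lit 184) (.e (nat_lit 426125) (nat_lit 2) (.e (nat_lit 196666) (nat_lit 13) (.e (nat_lit 65617) (nat_lit 10) (.e (nat_lit 344133) (nat_lit 26) (.e (nat_lit 557091) (nat_lit 12) (.e (nat_lit 164020) (nat_lit 45) .nil)))))))) (.g (nat_lit 1) (.e (nat_lit 438365) (nat_lit 0) .nil) .nil))) 
(.lf (nat_lit 608023) (.g (nat_lit 1440) (.e (nat_lit 696344) (nat_lit 8) (.e (nat_lit 172115) (nat_lit 10) (.e (nat_lit 434202) (nat_lit 18) (.e (nat_lit 6420) (nat_lit 341) (.e (nat_lit 163908) (nat_lit 12) .nil))))) (.g (nat_lit 0) (.e (nat_lit 439871) (nat_lit 0) .nil) .nil))))) (.nd (nat_lit 8) (.nd (nat_lit 9) 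
(.lf (nat_lit 607383) (.g (nat_lit 2192) (.e (nat_lit 827136) (nat_lit 11) (.e (nat_lit 16468) (nat_lit 13) (.e (nat_lit 483372) (nat_lit 21) (.e (nat_lit 319531) (nat_lit 16) (.e (nat_lit 286728) (nat_lit 0) .nil))))) (.g (nat_lit 0) (.e (nat_lit 437684) (nat_lit 0) .nil) .nil))) 
(.lf (nat_lit 607895) (.g (nat_lit 2385) (.e (nat_lit 696344) (nat_lit 8) (.e (nat_lit 172081) (nat_lit 7) (.e (nat_lit 409649) (nat_lit 18) (.e (nat_lit 303140) (nat_lit 10) (.e (nat_lit 434275) (nat_lit 39) (.e (nat_lit 663584) (nat_lit 12) (.e (nat_lit 164019) (nat_lit 45) .nil))))))) (.g (nat_lit 1) (.e (nat_lit 439643) (nat_lit 0) .nil) .nil)))) (.nd (nat_lit 9) 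
(.lf (nat_lit 607639) (.g (nat_lit 2495) (.e (nat_lit 696343) (nat_lit 8) (.e (nat_lit 172082) (nat_lit 7) (.e (nat_lit 409646) (nat_lit 18) (.e (nat_lit 303133) (nat_lit 9) (.e (nat_lit 426032) (nat_lit 0) (.e (nat_lit 2450) (nat_lit 157) (.e (nat_lit 5965) (nat_lit 324) (.e (nat_lit 163844) (nat_lit 0) (.e (nat_lit 3471) (nat_lit 217) .nil))))))))) (.g (nat_lit 1) (.e (nat_lit 439147) (nat_lit 0) .nil) .nil))) 
(.lf (nat_lit 608151) (.g (nat_lit 2603) (.e (nat_lit 704589) (nat_lit 3) (.e (nat_lit 163975) (nat_lit 30) (.e (nat_lit 573491) (nat_lit 15) (.e (nat_lit 81954) (nat_lit 23) (.e (nat_lit 98356) (nat_lit 26) (.e (nat_lit 426360) (nat_lit 15) (.e (nat_lit 2061) (nat_lit 142) .nil))))))) (.g (nat_lit 1) (.e (nat_lit 440383) (nat_lit 0) .nil) .nil)))))) 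
(.nd (nat_lit 7) (.nd (nat_lit 8) (.nd (nat_lit 9) 
(.lf (nat_lit 607319) (.g (nat_lit 834) (.e (nat_lit 819217) (nat_lit 4) (.e (nat_lit 172115) (nat_lit 10) (.e (nat_lit 434241) (nat_lit 27) (.e (nat_lit 565267) (nat_lit 4) .nil)))) (.g (nat_lit 0) (.e (nat_lit 437517) (nat_lit 0) .nil) .nil))) 
(.lf (nat_lit 607831) (.g (nat_lit 4769) (.e (nat_lit 696344) (nat_lit 8) (.e (nat_lit 172067) (nat_lit 3) (.e (nat_lit 204868) (nat_lit 29) (.e (nat_lit 360475) (nat_lit 8) (.e (nat_lit 557091) (nat_lit 12) (.e (nat_lit 164020) (nat_lit 45) .nil)))))) (.g (nat_lit 1) (.e (nat_lit 439531) (nat_lit 0) .nil) .nil)))) (.nd (nat_lit 9) 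
(.lf (nat_lit 607575) (.g (nat_lit 2709) (.e (nat_lit 696343) (nat_lit 8) (.e (nat_lit 172064) (nat_lit 2) (.e (nat_lit 196666) (nat_lit 13) (.e (nat_lit 65617) (nat_lit 10) (.e (nat_lit 344130) (nat_lit 26) (.e (nat_lit 557089) (nat_lit 12) (.e (nat_lit 164019) (nat_lit 45) .nil))))))) (.g (nat_lit 1) (.e (nat_lit 439033) (nat_lit 0) .nil) .nil))) 
(.lf (nat_lit 608087) (.g (nat_lit 2261) (.e (nat_lit 696348) (nat_lit 12) (.e (nat_lit 237590) (nat_lit 2) (.e (nat_lit 196666) (nat_lit 13) (.e (nat_lit 65617) (nat_lit 10) (.e (nat_lit 344133) (nat_lit 26) .nil))))) (.g (nat_lit 0) (.e (nat_lit 440144) (nat_lit 0) .nil) .nil))))) (.nd (nat_lit 8) (.nd (nat_lit 9) 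
(.lf (nat_lit 607447) (.g (nat_lit 2613) (.e (nat_lit 688139) (nat_lit 5) (.e (nat_lit 3062) (nat_lit 190) (.e (nat_lit 475185) (nat_lit 29) (.e (nat_lit 557093) (nat_lit 12) (.e (nat_lit 171776) (nat_lit 192) .nil))))) (.g (nat_lit 0) (.e (nat_lit 437939) (nat_lit 0) .nil) .nil))) 
(.lf (nat_lit 607959) (.g (nat_lit 1621) (.e (nat_lit 696344) (nat_lit 8) (.e (nat_lit 172106) (nat_lit 10) (.e (nat_lit 434209) (nat_lit 18) (.e (nat_lit 6270) (nat_lit 337) (.e (nat_lit 2646) (nat_lit 166) .nil))))) (.g (nat_lit 0) (.e (nat_lit 439756) (nat_lit 0) .nil) .nil)))) (.nd (nat_lit 9) 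
(.lf (nat_lit 607703) (.g (nat_lit 1769) (.e (nat_lit 696343) (nat_lit 8) (.e (nat_lit 172106) (nat_lit 10) (.e (nat_lit 434209) (nat_lit 18) (.e (nat_lit 6427) (nat_lit 342) (.e (nat_lit 229412) (nat_lit 14) .nil))))) (.g (nat_lit 0) (.e (nat_lit 439292) (nat_lit 0) .nil) .nil))) 
(.lf (nat_lit 608215) (.g (nat_lit 3490) (.e (nat_lit 704589) (nat_lit 3) (.e (nat_lit 163975) (nat_lit 30) (.e (nat_lit 573492) (nat_lit 15) (.e (nat_lit 81956) (nat_lit 23) (.e (nat_lit 98356) (nat_lit 26) (.e (nat_lit 426360) (nat_lit 15) (.e (nat_lit 7936) (nat_lit 142) .nil))))))) (.g (nat_lit 1) (.e (nat_lit 440551) (nat_lit 0) .nil) .nil))))))) 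
(.nd (nat_lit 6) (.nd (nat_lit 7) (.nd (nat_lit 8) (.nd (nat_lit 9) 
(.lf (nat_lit 607287) (.g (nat_lit 2570) (.e (nat_lit 819203) (nat_lit 0) (.e (nat_lit 3015) (nat_lit 187) (.e (nat_lit 450562) (nat_lit 0) (.e (nat_lit 4275) (nat_lit 252) (.e (nat_lit 8288) (nat_lit 51) (.e (nat_lit 5412) (nat_lit 303) (.e (nat_lit 73777) (nat_lit 31) .nil))))))) (.g (nat_lit 1) (.e (nat_lit 437273) (nat_lit 0) .nil) .nil))) 
(.lf (nat_lit 607799) (.g (nat_lit 4322) (.e (nat_lit 696344) (nat_lit 8) (.e (nat_lit 172064) (nat_lit 2) (.e (nat_lit 196666) (nat_lit 13) (.e (nat_lit 65610) (nat_lit 10) (.e (nat_lit 344129) (nat_lit 26) (.e (nat_lit 557089) (nat_lit 12) (.e (nat_lit 164019) (nat_lit 45) .nil))))))) (.g (nat_lit 1) (.e (nat_lit 439496) (nat_lit 0) .nil) .nil)))) (.nd (nat_lit 9) 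
(.lf (nat_lit 607543) (.g (nat_lit 3117) (.e (nat_lit 696329) (nat_lit 5) (.e (nat_lit 2988) (nat_lit 186) (.e (nat_lit 442390) (nat_lit 11) (.e (nat_lit 336232) (nat_lit 14) (.e (nat_lit 401448) (nat_lit 10) (.e (nat_lit 434289) (nat_lit 43) .nil)))))) (.g (nat_lit 1) (.e (nat_lit 438473) (nat_lit 0) .nil) .nil))) 
(.lf (nat_lit 608055) (.g (nat_lit 2021) (.e (nat_lit 696344) (nat_lit 8) (.e (nat_lit 172116) (nat_lit 10) (.e (nat_lit 434289) (nat_lit 43) (.e (nat_lit 696346) (nat_lit 10) (.e (nat_lit 188435) (nat_lit 20) (.e (nat_lit 3468) (nat_lit 217) .nil)))))) (.g (nat_lit 1) (.e (nat_lit 439910) (nat_lit 0) .nil) .nil))))) (.nd (nat_lit 8) (.nd (nat_lit 9) 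
(.lf (nat_lit 607415) (.g (nat_lit 4614) (.e (nat_lit 688139) (nat_lit 5) (.e (nat_lit 2887) (nat_lit 184) (.e (nat_lit 426140) (nat_lit 3) (.e (nat_lit 204869) (nat_lit 29) (.e (nat_lit 360475) (nat_lit 8) (.e (nat_lit 557089) (nat_lit 12) (.e (nat_lit 164017) (nat_lit 44) .nil))))))) (.g (nat_lit 1) (.e (nat_lit 437850) (nat_lit 0) .nil) .nil))) 
(.lf (nat_lit 607927) (.g (nat_lit 2575) (.e (nat_lit 696344) (nat_lit 8) (.e (nat_lit 172082) (nat_lit 7) (.e (nat_lit 409646) (nat_lit 18) (.e (nat_lit 303140) (nat_lit 10) (.e (nat_lit 434275) (nat_lit 39) (.e (nat_lit 663579) (nat_lit 9) (.e (nat_lit 2422) (nat_lit 157) (.e (nat_lit 3471) (nat_lit 217) .nil)))))))) (.g (nat_lit 1) (.e (nat_lit 439699) (nat_lit 0) .nil) .nil)))) 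
(.nd (nat_lit 9) 
(.lf (nat_lit 607671) (.g (nat_lit 1964) (.e (nat_lit 696343) (nat_lit 8) (.e (nat_lit 172082) (nat_lit 7) (.e (nat_lit 409646) (nat_lit 18) (.e (nat_lit 303143) (nat_lit 12) (.e (nat_lit 475212) (nat_lit 42) .nil))))) (.g (nat_lit 0) (.e (nat_lit 439224) (nat_lit 0) .nil) .nil))) 
(.lf (nat_lit 608183) (.g (nat_lit 3772) (.e (nat_lit 704589) (nat_lit 3) (.e (nat_lit 163975) (nat_lit 30) (.e (nat_lit 573492) (nat_lit 15) (.e (nat_lit 81953) (nat_lit 22) (.e (nat_lit 90166) (nat_lit 13) (.e (nat_lit 172131) (nat_lit 15) (.e (nat_lit 2058) (nat_lit 142) .nil))))))) (.g (nat_lit 1) (.e (nat_lit 440499) (nat_lit 0) .nil) .nil)))))) 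
(.nd (nat_lit 7) (.nd (nat_lit 8) (.nd (nat_lit 9) 
(.lf (nat_lit 607351) (.g (nat_lit 1377) (.e (nat_lit 819221) (nat_lit 6) (.e (nat_lit 188435) (nat_lit 20) (.e (nat_lit 3289) (nat_lit 201) (.e (nat_lit 565269) (nat_lit 6) (.e (nat_lit 81947) (nat_lit 20) (.e (nat_lit 2390) (nat_lit 156) .nil)))))) (.g (nat_lit 1) (.e (nat_lit 437629) (nat_lit 0) .nil) .nil))) 
(.lf (nat_lit 607863) (.g (nat_lit 3411) (.e (nat_lit 696344) (nat_lit 8) (.e (nat_lit 172079) (nat_lit 7) (.e (nat_lit 409645) (nat_lit 18) (.e (nat_lit 303135) (nat_lit 10) (.e (nat_lit 434275) (nat_lit 39) (.e (nat_lit 663580) (nat_lit 9) (.e (nat_lit 2416) (nat_lit 157) (.e (nat_lit 3469) (nat_lit 217) .nil)))))))) (.g (nat_lit 1) (.e (nat_lit 439592) (nat_lit 0) .nil) .nil)))) 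
(.nd (nat_lit 9) 
(.lf (nat_lit 607607) (.g (nat_lit 4034) (.e (nat_lit 696343) (nat_lit 8) (.e (nat_lit 172067) (nat_lit 3) (.e (nat_lit 204868) (nat_lit 29) (.e (nat_lit 360475) (nat_lit 8) (.e (nat_lit 557091) (nat_lit 12) (.e (nat_lit 164019) (nat_lit 45) .nil)))))) (.g (nat_lit 1) (.e (nat_lit 439070) (nat_lit 0) .nil) .nil))) 
(.lf (nat_lit 608119) (.g (nat_lit 3251) (.e (nat_lit 704589) (nat_lit 3) (.e (nat_lit 163975) (nat_lit 30) (.e (nat_lit 573481) (nat_lit 13) (.e (nat_lit 65619) (nat_lit 10) (.e (nat_lit 344117) (nat_lit 21) (.e (nat_lit 516144) (nat_lit 9) (.e (nat_lit 426393) (nat_lit 15) (.e (nat_lit 2057) (nat_lit 142) .nil)))))))) (.g (nat_lit 1) (.e (nat_lit 440349) (nat_lit 0) .nil) .nil))))) 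
(.nd (nat_lit 8) (.nd (nat_lit 9) 
(.lf (nat_lit 607479) (.g (nat_lit 3523) (.e (nat_lit 688166) (nat_lit 15) (.e (nat_lit 57479) (nat_lit 28) (.e (nat_lit 557105) (nat_lit 14) (.e (nat_lit 180252) (nat_lit 10) (.e (nat_lit 573488) (nat_lit 14) (.e (nat_lit 73747) (nat_lit 3) (.e (nat_lit 516097) (nat_lit 0) (.e (nat_lit 3454) (nat_lit 216) .nil)))))))) (.g (nat_lit 1) (.e (nat_lit 438182) (nat_lit 0) .nil) .nil))) 
(.lf (nat_lit 607991) (.g (nat_lit 2398) (.e (nat_lit 696344) (nat_lit 8) (.e (nat_lit 172107) (nat_lit 10) (.e (nat_lit 434289) (nat_lit 43) (.e (nat_lit 696346) (nat_lit 10) (.e (nat_lit 188434) (nat_lit 20) (.e (nat_lit 3467) (nat_lit 217) .nil)))))) (.g (nat_lit 1) (.e (nat_lit 439800) (nat_lit 0) .nil) .nil)))) (.nd (nat_lit 9) 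
(.lf (nat_lit 607735) (.g (nat_lit 1945) (.e (nat_lit 696343) (nat_lit 8) (.e (nat_lit 172113) (nat_lit 10) (.e (nat_lit 434208) (nat_lit 18) (.e (nat_lit 6416) (nat_lit 341) (.e (nat_lit 163932) (nat_lit 17) (.e (nat_lit 466967) (nat_lit 20) (.e (nat_lit 3464) (nat_lit 217) .nil))))))) (.g (nat_lit 1) (.e (nat_lit 439374) (nat_lit 0) .nil) .nil))) 
(.lf (nat_lit 608247) (.g (nat_lit 4222) (.e (nat_lit 704589) (nat_lit 3) (.e (nat_lit 163975) (nat_lit 30) (.e (nat_lit 573492) (nat_lit 15) (.e (nat_lit 81956) (nat_lit 23) (.e (nat_lit 98362) (nat_lit 26) (.e (nat_lit 426411) (nat_lit 15) (.e (nat_lit 2059) (nat_lit 142) .nil))))))) (.g (nat_lit 1) (.e (nat_lit 440583) (nat_lit 0) .nil) .nil))))))))) 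
(.nd (nat_lit 4) (.nd (nat_lit 5) (.nd (nat_lit 6) (.nd (nat_lit 7) (.nd (nat_lit 8) 
(.nd (nat_lit 9) 
(.lf (nat_lit 607247) (.g (nat_lit 1098) (.e (nat_lit 811011) (nat_lit 0) (.e (nat_lit 5777) (nat_lit 317) (.e (nat_lit 180241) (nat_lit 4) (.e (nat_lit 524340) (nat_lit 28) (.e (nat_lit 352287) (nat_lit 20) (.e (nat_lit 2384) (nat_lit 155) .nil)))))) (.g (nat_lit 1) (.e (nat_lit 437087) (nat_lit 0) .nil) .nil))) 
(.lf (nat_lit 607759) (.g (nat_lit 1982) (.e (nat_lit 696343) (nat_lit 8) (.e (nat_lit 172116) (nat_lit 10) (.e (nat_lit 434289) (nat_lit 43) (.e (nat_lit 696346) (nat_lit 10) (.e (nat_lit 188435) (nat_lit 20) (.e (nat_lit 3468) (nat_lit 217) .nil)))))) (.g (nat_lit 1) (.e (nat_lit 439430) (nat_lit 0) .nil) .nil)))) (.nd (nat_lit 9) 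
(.lf (nat_lit 607503) (.g (nat_lit 3154) (.e (nat_lit 696326) (nat_lit 5) (.e (nat_lit 2872) (nat_lit 184) (.e (nat_lit 426125) (nat_lit 2) (.e (nat_lit 196666) (nat_lit 13) (.e (nat_lit 65610) (nat_lit 10) .nil))))) (.g (nat_lit 0) (.e (nat_lit 438254) (nat_lit 0) .nil) .nil))) 
(.lf (nat_lit 608015) (.g (nat_lit 2402) (.e (nat_lit 696344) (nat_lit 8) (.e (nat_lit 172113) (nat_lit 10) (.e (nat_lit 434289) (nat_lit 43) (.e (nat_lit 696346) (nat_lit 10) (.e (nat_lit 188438) (nat_lit 20) (.e (nat_lit 3467) (nat_lit 217) .nil)))))) (.g (nat_lit 1) (.e (nat_lit 439857) (nat_lit 0) .nil) .nil))))) (.nd (nat_lit 8) (.nd (nat_lit 9) 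
(.lf (nat_lit 607375) (.g (nat_lit 3047) (.e (nat_lit 819237) (nat_lit 11) (.e (nat_lit 16465) (nat_lit 13) (.e (nat_lit 483372) (nat_lit 21) (.e (nat_lit 319533) (nat_lit 16) (.e (nat_lit 286724) (nat_lit 0) .nil))))) (.g (nat_lit 0) (.e (nat_lit 437676) (nat_lit 0) .nil) .nil))) 
(.lf (nat_lit 607887) (.g (nat_lit 2697) (.e (nat_lit 696344) (nat_lit 8) (.e (nat_lit 172081) (nat_lit 7) (.e (nat_lit 409646) (nat_lit 18) (.e (nat_lit 303140) (nat_lit 10) (.e (nat_lit 434275) (nat_lit 39) (.e (nat_lit 663574) (nat_lit 9) (.e (nat_lit 2467) (nat_lit 157) (.e (nat_lit 3469) (nat_lit 217) .nil)))))))) (.g (nat_lit 1) (.e (nat_lit 439635) (nat_lit 0) .nil) .nil)))) 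
(.nd (nat_lit 9) 
(.lf (nat_lit 607631) (.g (nat_lit 3036) (.e (nat_lit 696343) (nat_lit 8) (.e (nat_lit 172079) (nat_lit 7) (.e (nat_lit 409649) (nat_lit 18) (.e (nat_lit 303140) (nat_lit 10) (.e (nat_lit 434275) (nat_lit 39) (.e (nat_lit 663580) (nat_lit 9) (.e (nat_lit 2478) (nat_lit 157) (.e (nat_lit 3464) (nat_lit 217) .nil)))))))) (.g (nat_lit 1) (.e (nat_lit 439132) (nat_lit 0) .nil) .nil))) 
(.lf (nat_lit 608143) (.g (nat_lit 1895) (.e (nat_lit 704589) (nat_lit 3) (.e (nat_lit 163975) (nat_lit 30) (.e (nat_lit 573491) (nat_lit 15) (.e (nat_lit 81954) (nat_lit 23) (.e (nat_lit 98355) (nat_lit 26) (.e (nat_lit 426376) (nat_lit 15) (.e (nat_lit 2056) (nat_lit 142) .nil))))))) (.g (nat_lit 1) (.e (nat_lit 440375) (nat_lit 0) .nil) .nil)))))) 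
(.nd (nat_lit 7) (.nd (nat_lit 8) (.nd (nat_lit 9) 
(.lf (nat_lit 607311) (.g (nat_lit 1896) (.e (nat_lit 819204) (nat_lit 0) (.e (nat_lit 3027) (nat_lit 187) (.e (nat_lit 450584) (nat_lit 9) (.e (nat_lit 565252) (nat_lit 0) (.e (nat_lit 1599) (nat_lit 111) (.e (nat_lit 360493) (nat_lit 27) .nil)))))) (.g (nat_lit 1) (.e (nat_lit 437470) (nat_lit 0) .nil) .nil))) 
(.lf (nat_lit 607823) (.g (nat_lit 4266) (.e (nat_lit 696344) (nat_lit 8) (.e (nat_lit 172067) (nat_lit 3) (.e (nat_lit 204868) (nat_lit 29) (.e (nat_lit 360473) (nat_lit 8) (.e (nat_lit 557091) (nat_lit 12) (.e (nat_lit 164020) (nat_lit 45) .nil)))))) (.g (nat_lit 1) (.e (nat_lit 439523) (nat_lit 0) .nil) .nil)))) (.nd (nat_lit 9) 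
(.lf (nat_lit 607567) (.g (nat_lit 4102) (.e (nat_lit 696343) (nat_lit 8) (.e (nat_lit 172062) (nat_lit 2) (.e (nat_lit 196666) (nat_lit 13) (.e (nat_lit 65617) (nat_lit 10) (.e (nat_lit 344133) (nat_lit 26) (.e (nat_lit 557089) (nat_lit 12) (.e (nat_lit 164020) (nat_lit 45) .nil))))))) (.g (nat_lit 1) (.e (nat_lit 439025) (nat_lit 0) .nil) .nil))) 
(.lf (nat_lit 608079) (.g (nat_lit 2747) (.e (nat_lit 696348) (nat_lit 12) (.e (nat_lit 237589) (nat_lit 2) (.e (nat_lit 196666) (nat_lit 13) (.e (nat_lit 65617) (nat_lit 10) (.e (nat_lit 344130) (nat_lit 26) (.e (nat_lit 557090) (nat_lit 12) (.e (nat_lit 164019) (nat_lit 45) .nil))))))) (.g (nat_lit 1) (.e (nat_lit 440136) (nat_lit 0) .nil) .nil))))) (.nd (nat_lit 8) (.nd (nat_lit 9) 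
(.lf (nat_lit 607439) (.g (nat_lit 1932) (.e (nat_lit 688139) (nat_lit 5) (.e (nat_lit 3062) (nat_lit 190) (.e (nat_lit 475179) (nat_lit 24) (.e (nat_lit 516166) (nat_lit 12) .nil)))) (.g (nat_lit 0) (.e (nat_lit 437931) (nat_lit 0) .nil) .nil))) 
(.lf (nat_lit 607951) (.g (nat_lit 3195) (.e (nat_lit 696344) (nat_lit 8) (.e (nat_lit 172082) (nat_lit 7) (.e (nat_lit 409649) (nat_lit 18) (.e (nat_lit 303140) (nat_lit 10) (.e (nat_lit 434275) (nat_lit 39) (.e (nat_lit 663579) (nat_lit 9) (.e (nat_lit 2427) (nat_lit 157) (.e (nat_lit 3471) (nat_lit 217) .nil)))))))) (.g (nat_lit 1) (.e (nat_lit 439733) (nat_lit 0) .nil) .nil)))) 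
(.nd (nat_lit 9) 
(.lf (nat_lit 607695) (.g (nat_lit 2083) (.e (nat_lit 696343) (nat_lit 8) (.e (nat_lit 172106) (nat_lit 10) (.e (nat_lit 434209) (nat_lit 18) (.e (nat_lit 6273) (nat_lit 337) (.e (nat_lit 2645) (nat_lit 166) (.e (nat_lit 188435) (nat_lit 20) (.e (nat_lit 3467) (nat_lit 217) .nil))))))) (.g (nat_lit 1) (.e (nat_lit 439274) (nat_lit 0) .nil) .nil))) 
(.lf (nat_lit 608207) (.g (nat_lit 3937) (.e (nat_lit 704589) (nat_lit 3) (.e (nat_lit 163975) (nat_lit 30) (.e (nat_lit 573492) (nat_lit 15) (.e (nat_lit 81956) (nat_lit 23) (.e (nat_lit 98356) (nat_lit 26) (.e (nat_lit 426352) (nat_lit 15) (.e (nat_lit 7936) (nat_lit 142) .nil))))))) (.g (nat_lit 1) (.e (nat_lit 440543) (nat_lit 0) .nil) .nil))))))) 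
(.nd (nat_lit 6) (.nd (nat_lit 7) (.nd (nat_lit 8) (.nd (nat_lit 9) 
(.lf (nat_lit 607279) (.g (nat_lit 458) (.e (nat_lit 818944) (nat_lit 14) (.e (nat_lit 40997) (nat_lit 11) (.e (nat_lit 24617) (nat_lit 7) (.e (nat_lit 327424) (nat_lit 16) .nil)))) (.g (nat_lit 0) (.e (nat_lit 437199) (nat_lit 0) .nil) .nil))) 
(.lf (nat_lit 607791) (.g (nat_lit 3005) (.e (nat_lit 696344) (nat_lit 8) (.e (nat_lit 172062) (nat_lit 2) (.e (nat_lit 196666) (nat_lit 13) (.e (nat_lit 65617) (nat_lit 10) (.e (nat_lit 344133) (nat_lit 26) (.e (nat_lit 557089) (nat_lit 12) (.e (nat_lit 164019) (nat_lit 45) .nil))))))) (.g (nat_lit 1) (.e (nat_lit 439488) (nat_lit 0) .nil) .nil)))) (.nd (nat_lit 9) 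
(.lf (nat_lit 607535) (.g (nat_lit 4042) (.e (nat_lit 696329) (nat_lit 5) (.e (nat_lit 2964) (nat_lit 185) (.e (nat_lit 434231) (nat_lit 23) (.e (nat_lit 532549) (nat_lit 12) (.e (nat_lit 360473) (nat_lit 8) (.e (nat_lit 557091) (nat_lit 12) (.e (nat_lit 164020) (nat_lit 45) .nil))))))) (.g (nat_lit 1) (.e (nat_lit 438462) (nat_lit 0) .nil) .nil))) 
(.lf (nat_lit 608047) (.g (nat_lit 2315) (.e (nat_lit 696344) (nat_lit 8) (.e (nat_lit 172115) (nat_lit 10) (.e (nat_lit 434289) (nat_lit 43) (.e (nat_lit 696346) (nat_lit 10) (.e (nat_lit 188435) (nat_lit 20) (.e (nat_lit 3467) (nat_lit 217) .nil)))))) (.g (nat_lit 1) (.e (nat_lit 439902) (nat_lit 0) .nil) .nil))))) (.nd (nat_lit 8) (.nd (nat_lit 9) 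
(.lf (nat_lit 607407) (.g (nat_lit 2907) (.e (nat_lit 688138) (nat_lit 5) (.e (nat_lit 3062) (nat_lit 190) (.e (nat_lit 475185) (nat_lit 29) (.e (nat_lit 557093) (nat_lit 12) (.e (nat_lit 171776) (nat_lit 192) .nil))))) (.g (nat_lit 0) (.e (nat_lit 437830) (nat_lit 0) .nil) .nil))) 
(.lf (nat_lit 607919) (.g (nat_lit 2882) (.e (nat_lit 696344) (nat_lit 8) (.e (nat_lit 172082) (nat_lit 7) (.e (nat_lit 409646) (nat_lit 18) (.e (nat_lit 303140) (nat_lit 10) (.e (nat_lit 434206) (nat_lit 18) (.e (nat_lit 5968) (nat_lit 324) (.e (nat_lit 163844) (nat_lit 0) (.e (nat_lit 3471) (nat_lit 217) .nil)))))))) (.g (nat_lit 1) (.e (nat_lit 439691) (nat_lit 0) .nil) .nil)))) 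
(.nd (nat_lit 9) 
(.lf (nat_lit 607663) (.g (nat_lit 2229) (.e (nat_lit 696343) (nat_lit 8) (.e (nat_lit 172082) (nat_lit 7) (.e (nat_lit 409646) (nat_lit 18) (.e (nat_lit 303140) (nat_lit 10) (.e (nat_lit 434275) (nat_lit 39) .nil))))) (.g (nat_lit 0) (.e (nat_lit 439199) (nat_lit 0) .nil) .nil))) 
(.lf (nat_lit 608175) (.g (nat_lit 1649) (.e (nat_lit 704589) (nat_lit 3) (.e (nat_lit 163975) (nat_lit 30) (.e (nat_lit 573491) (nat_lit 15) (.e (nat_lit 81954) (nat_lit 23) (.e (nat_lit 98362) (nat_lit 26) (.e (nat_lit 426412) (nat_lit 15) (.e (nat_lit 2057) (nat_lit 142) .nil))))))) (.g (nat_lit 1) (.e (nat_lit 440407) (nat_lit 0) .nil) .nil)))))) 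
(.nd (nat_lit 7) (.nd (nat_lit 8) (.nd (nat_lit 9) 
(.lf (nat_lit 607343) (.g (nat_lit 1433) (.e (nat_lit 819221) (nat_lit 6) (.e (nat_lit 188434) (nat_lit 20) (.e (nat_lit 3289) (nat_lit 201) (.e (nat_lit 565269) (nat_lit 6) (.e (nat_lit 81942) (nat_lit 20) (.e (nat_lit 2390) (nat_lit 156) .nil)))))) (.g (nat_lit 1) (.e (nat_lit 437621) (nat_lit 0) .nil) .nil))) 
(.lf (nat_lit 607855) (.g (nat_lit 2557) (.e (nat_lit 696344) (nat_lit 8) (.e (nat_lit 172078) (nat_lit 7) (.e (nat_lit 409649) (nat_lit 18) (.e (nat_lit 303140) (nat_lit 10) (.e (nat_lit 434275) (nat_lit 39) (.e (nat_lit 663584) (nat_lit 12) (.e (nat_lit 164019) (nat_lit 45) .nil))))))) (.g (nat_lit 1) (.e (nat_lit 439556) (nat_lit 0) .nil) .nil)))) (.nd (nat_lit 9) 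
(.lf (nat_lit 607599) (.g (nat_lit 2577) (.e (nat_lit 696343) (nat_lit 8) (.e (nat_lit 172067) (nat_lit 3) (.e (nat_lit 204868) (nat_lit 29) (.e (nat_lit 360473) (nat_lit 8) (.e (nat_lit 557089) (nat_lit 12) (.e (nat_lit 164019) (nat_lit 45) .nil)))))) (.g (nat_lit 1) (.e (nat_lit 439062) (nat_lit 0) .nil) .nil))) 
(.lf (nat_lit 608111) (.g (nat_lit 3881) (.e (nat_lit 704589) (nat_lit 3) (.e (nat_lit 163975) (nat_lit 30) (.e (nat_lit 573481) (nat_lit 13) (.e (nat_lit 65609) (nat_lit 10) (.e (nat_lit 344117) (nat_lit 21) (.e (nat_lit 516151) (nat_lit 9) (.e (nat_lit 426412) (nat_lit 15) (.e (nat_lit 2057) (nat_lit 142) .nil)))))))) (.g (nat_lit 1) (.e (nat_lit 440340) (nat_lit 0) .nil) .nil))))) 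
(.nd (nat_lit 8) (.nd (nat_lit 9) 
(.lf (nat_lit 607471) (.g (nat_lit 2528) (.e (nat_lit 688166) (nat_lit 15) (.e (nat_lit 57479) (nat_lit 28) (.e (nat_lit 557103) (nat_lit 14) (.e (nat_lit 180250) (nat_lit 10) (.e (nat_lit 573485) (nat_lit 13) (.e (nat_lit 65569) (nat_lit 3) (.e (nat_lit 98321) (nat_lit 17) (.e (nat_lit 7936) (nat_lit 216) .nil)))))))) (.g (nat_lit 1) (.e (nat_lit 438174) (nat_lit 0) .nil) .nil))) 
(.lf (nat_lit 607983) (.g (nat_lit 2221) (.e (nat_lit 696344) (nat_lit 8) (.e (nat_lit 172106) (nat_lit 10) (.e (nat_lit 434289) (nat_lit 43) (.e (nat_lit 696344) (nat_lit 8) (.e (nat_lit 172106) (nat_lit 10) (.e (nat_lit 434287) (nat_lit 43) .nil)))))) (.g (nat_lit 1) (.e (nat_lit 439786) (nat_lit 0) .nil) .nil)))) (.nd (nat_lit 9) 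
(.lf (nat_lit 607727) (.g (nat_lit 399) (.e (nat_lit 696343) (nat_lit 8) (.e (nat_lit 172113) (nat_lit 10) (.e (nat_lit 434208) (nat_lit 18) .nil))) (.g (nat_lit 0) (.e (nat_lit 439344) (nat_lit 0) .nil) .nil))) 
(.lf (nat_lit 608239) (.g (nat_lit 2806) (.e (nat_lit 704589) (nat_lit 3) (.e (nat_lit 163975) (nat_lit 30) (.e (nat_lit 573492) (nat_lit 15) (.e (nat_lit 81956) (nat_lit 23) (.e (nat_lit 98359) (nat_lit 26) (.e (nat_lit 426410) (nat_lit 15) (.e (nat_lit 2057) (nat_lit 142) .nil))))))) (.g (nat_lit 1) (.e (nat_lit 440575) (nat_lit 0) .nil) .nil)))))))) 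
(.nd (nat_lit 5) (.nd (nat_lit 6) (.nd (nat_lit 7) (.nd (nat_lit 8) (.nd (nat_lit 9) 
(.lf (nat_lit 607263) (.g (nat_lit 1673) (.e (nat_lit 811024) (nat_lit 5) (.e (nat_lit 270354) (nat_lit 8) (.e (nat_lit 303145) (nat_lit 13) (.e (nat_lit 483402) (nat_lit 26) (.e (nat_lit 385114) (nat_lit 53) .nil))))) (.g (nat_lit 0) (.e (nat_lit 437119) (nat_lit 0) .nil) .nil))) 
(.lf (nat_lit 607775) (.g (nat_lit 155) (.e (nat_lit 696343) (nat_lit 8) (.e (nat_lit 172123) (nat_lit 13) (.e (nat_lit 483413) (nat_lit 27) .nil))) (.g (nat_lit 0) (.e (nat_lit 439467) (nat_lit 0) .nil) .nil)))) (.nd (nat_lit 9) 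
(.lf (nat_lit 607519) (.g (nat_lit 3844) (.e (nat_lit 696328) (nat_lit 5) (.e (nat_lit 2980) (nat_lit 185) (.e (nat_lit 434231) (nat_lit 23) (.e (nat_lit 532549) (nat_lit 12) (.e (nat_lit 360473) (nat_lit 8) (.e (nat_lit 557091) (nat_lit 12) (.e (nat_lit 164020) (nat_lit 45) .nil))))))) (.g (nat_lit 1) (.e (nat_lit 438380) (nat_lit 0) .nil) .nil))) 
(.lf (nat_lit 608031) (.g (nat_lit 2507) (.e (nat_lit 696344) (nat_lit 8) (.e (nat_lit 172115) (nat_lit 10) (.e (nat_lit 434209) (nat_lit 18) (.e (nat_lit 6425) (nat_lit 342) (.e (nat_lit 229402) (nat_lit 12) .nil))))) (.g (nat_lit 0) (.e (nat_lit 439881) (nat_lit 0) .nil) .nil))))) (.nd (nat_lit 8) (.nd (nat_lit 9) 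
(.lf (nat_lit 607391) (.g (nat_lit 4134) (.e (nat_lit 688138) (nat_lit 5) (.e (nat_lit 2887) (nat_lit 184) (.e (nat_lit 426140) (nat_lit 3) (.e (nat_lit 204855) (nat_lit 26) (.e (nat_lit 336176) (nat_lit 10) (.e (nat_lit 344133) (nat_lit 26) (.e (nat_lit 557091) (nat_lit 12) (.e (nat_lit 164016) (nat_lit 44) .nil)))))))) (.g (nat_lit 1) (.e (nat_lit 437755) (nat_lit 0) .nil) .nil))) 
(.lf (nat_lit 607903) (.g (nat_lit 2746) (.e (nat_lit 696344) (nat_lit 8) (.e (nat_lit 172082) (nat_lit 7) (.e (nat_lit 409646) (nat_lit 18) (.e (nat_lit 303133) (nat_lit 9) (.e (nat_lit 426042) (nat_lit 0) (.e (nat_lit 2446) (nat_lit 157) (.e (nat_lit 5965) (nat_lit 324) (.e (nat_lit 163844) (nat_lit 0) (.e (nat_lit 3471) (nat_lit 217) .nil))))))))) (.g (nat_lit 1) (.e (nat_lit 439654) (nat_lit 0) .nil) .nil)))) 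
(.nd (nat_lit 9) 
(.lf (nat_lit 607647) (.g (nat_lit 2368) (.e (nat_lit 696343) (nat_lit 8) (.e (nat_lit 172082) (nat_lit 7) (.e (nat_lit 409646) (nat_lit 18) (.e (nat_lit 303133) (nat_lit 9) (.e (nat_lit 426042) (nat_lit 0) (.e (nat_lit 2448) (nat_lit 157) (.e (nat_lit 5964) (nat_lit 324) (.e (nat_lit 163844) (nat_lit 0) (.e (nat_lit 3471) (nat_lit 217) .nil))))))))) (.g (nat_lit 1) (.e (nat_lit 439155) (nat_lit 0) .nil) .nil))) 
(.lf (nat_lit 608159) (.g (nat_lit 2495) (.e (nat_lit 704589) (nat_lit 3) (.e (nat_lit 163975) (nat_lit 30) (.e (nat_lit 573491) (nat_lit 15) (.e (nat_lit 81954) (nat_lit 23) (.e (nat_lit 98356) (nat_lit 26) (.e (nat_lit 426363) (nat_lit 15) (.e (nat_lit 2060) (nat_lit 142) .nil))))))) (.g (nat_lit 1) (.e (nat_lit 440391) (nat_lit 0) .nil) .nil)))))) 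
(.nd (nat_lit 7) (.nd (nat_lit 8) (.nd (nat_lit 9) 
(.lf (nat_lit 607327) (.g (nat_lit 1694) (.e (nat_lit 819219) (nat_lit 4) (.e (nat_lit 172082) (nat_lit 7) (.e (nat_lit 409617) (nat_lit 10) (.e (nat_lit 632) (nat_lit 50) (.e (nat_lit 573482) (nat_lit 13) .nil))))) (.g (nat_lit 0) (.e (nat_lit 437545) (nat_lit 0) .nil) .nil))) 
(.lf (nat_lit 607839) (.g (nat_lit 538) (.e (nat_lit 696344) (nat_lit 8) (.e (nat_lit 172067) (nat_lit 3) (.e (nat_lit 204878) (nat_lit 31) .nil))) (.g (nat_lit 0) (.e (nat_lit 439540) (nat_lit 0) .nil) .nil)))) (.nd (nat_lit 9) 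
(.lf (nat_lit 607583) (.g (nat_lit 3716) (.e (nat_lit 696343) (nat_lit 8) (.e (nat_lit 172065) (nat_lit 3) (.e (nat_lit 204868) (nat_lit 29) (.e (nat_lit 360473) (nat_lit 8) (.e (nat_lit 557091) (nat_lit 12) (.e (nat_lit 164020) (nat_lit 45) .nil)))))) (.g (nat_lit 1) (.e (nat_lit 439043) (nat_lit 0) .nil) .nil))) 
(.lf (nat_lit 608095) (.g (nat_lit 1610) (.e (nat_lit 696348) (nat_lit 12) (.e (nat_lit 237605) (nat_lit 9) (.e (nat_lit 426555) (nat_lit 32) (.e (nat_lit 376860) (nat_lit 21) (.e (nat_lit 57854) (nat_lit 252) .nil))))) (.g (nat_lit 0) (.e (nat_lit 440162) (nat_lit 0) .nil) .nil))))) (.nd (nat_lit 8) (.nd (nat_lit 9) 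
(.lf (nat_lit 607455) (.g (nat_lit 447) (.e (nat_lit 688139) (nat_lit 5) (.e (nat_lit 3085) (nat_lit 191) (.e (nat_lit 491264) (nat_lit 11) .nil))) (.g (nat_lit 0) (.e (nat_lit 437948) (nat_lit 0) .nil) .nil))) 
(.lf (nat_lit 607967) (.g (nat_lit 1499) (.e (nat_lit 696344) (nat_lit 8) (.e (nat_lit 172106) (nat_lit 10) (.e (nat_lit 434209) (nat_lit 18) (.e (nat_lit 6313) (nat_lit 337) .nil)))) (.g (nat_lit 0) (.e (nat_lit 439767) (nat_lit 0) .nil) .nil)))) (.nd (nat_lit 9) 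
(.lf (nat_lit 607711) (.g (nat_lit 2177) (.e (nat_lit 696343) (nat_lit 8) (.e (nat_lit 172106) (nat_lit 10) (.e (nat_lit 434289) (nat_lit 43) (.e (nat_lit 696346) (nat_lit 10) (.e (nat_lit 188435) (nat_lit 20) (.e (nat_lit 3468) (nat_lit 217) .nil)))))) (.g (nat_lit 1) (.e (nat_lit 439305) (nat_lit 0) .nil) .nil))) 
(.lf (nat_lit 608223) (.g (nat_lit 3785) (.e (nat_lit 704589) (nat_lit 3) (.e (nat_lit 163975) (nat_lit 30) (.e (nat_lit 573492) (nat_lit 15) (.e (nat_lit 81956) (nat_lit 23) (.e (nat_lit 98356) (nat_lit 26) (.e (nat_lit 426363) (nat_lit 15) (.e (nat_lit 2063) (nat_lit 142) .nil))))))) (.g (nat_lit 1) (.e (nat_lit 440559) (nat_lit 0) .nil) .nil))))))) 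
(.nd (nat_lit 6) (.nd (nat_lit 7) (.nd (nat_lit 8) (.nd (nat_lit 9) 
(.lf (nat_lit 607295) (.g (nat_lit 1744) (.e (nat_lit 819203) (nat_lit 0) (.e (nat_lit 3016) (nat_lit 187) (.e (nat_lit 450584) (nat_lit 9) (.e (nat_lit 565252) (nat_lit 0) (.e (nat_lit 1586) (nat_lit 111) (.e (nat_lit 360493) (nat_lit 27) .nil)))))) (.g (nat_lit 1) (.e (nat_lit 437318) (nat_lit 0) .nil) .nil))) 
(.lf (nat_lit 607807) (.g (nat_lit 2954) (.e (nat_lit 696344) (nat_lit 8) (.e (nat_lit 172065) (nat_lit 3) (.e (nat_lit 204855) (nat_lit 26) (.e (nat_lit 336176) (nat_lit 10) (.e (nat_lit 344133) (nat_lit 26) (.e (nat_lit 557089) (nat_lit 12) (.e (nat_lit 164019) (nat_lit 45) .nil))))))) (.g (nat_lit 1) (.e (nat_lit 439505) (nat_lit 0) .nil) .nil)))) (.nd (nat_lit 9) 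
(.lf (nat_lit 607551) (.g (nat_lit 2046) (.e (nat_lit 696342) (nat_lit 8) (.e (nat_lit 172067) (nat_lit 3) (.e (nat_lit 204855) (nat_lit 26) (.e (nat_lit 336176) (nat_lit 10) (.e (nat_lit 344132) (nat_lit 26) .nil))))) (.g (nat_lit 0) (.e (nat_lit 438971) (nat_lit 0) .nil) .nil))) 
(.lf (nat_lit 608063) (.g (nat_lit 4239) (.e (nat_lit 696344) (nat_lit 8) (.e (nat_lit 172125) (nat_lit 14) (.e (nat_lit 491566) (nat_lit 12) (.e (nat_lit 385109) (nat_lit 51) (.e (nat_lit 794682) (nat_lit 25) .nil))))) (.g (nat_lit 0) (.e (nat_lit 439932) (nat_lit 0) .nil) .nil))))) (.nd (nat_lit 8) (.nd (nat_lit 9) 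
(.lf (nat_lit 607423) (.g (nat_lit 969) (.e (nat_lit 688139) (nat_lit 5) (.e (nat_lit 2887) (nat_lit 184) (.e (nat_lit 426286) (nat_lit 10) (.e (nat_lit 434208) (nat_lit 18) .nil)))) (.g (nat_lit 0) (.e (nat_lit 437872) (nat_lit 0) .nil) .nil))) 
(.lf (nat_lit 607935) (.g (nat_lit 3900) (.e (nat_lit 696344) (nat_lit 8) (.e (nat_lit 172082) (nat_lit 7) (.e (nat_lit 409646) (nat_lit 18) (.e (nat_lit 303143) (nat_lit 12) (.e (nat_lit 475199) (nat_lit 40) (.e (nat_lit 704855) (nat_lit 17) (.e (nat_lit 171776) (nat_lit 106) .nil))))))) (.g (nat_lit 1) (.e (nat_lit 439712) (nat_lit 0) .nil) .nil)))) (.nd (nat_lit 9) 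
(.lf (nat_lit 607679) (.g (nat_lit 2594) (.e (nat_lit 696343) (nat_lit 8) (.e (nat_lit 172082) (nat_lit 7) (.e (nat_lit 409649) (nat_lit 18) (.e (nat_lit 303140) (nat_lit 10) (.e (nat_lit 434200) (nat_lit 18) (.e (nat_lit 5966) (nat_lit 324) (.e (nat_lit 163844) (nat_lit 0) (.e (nat_lit 3471) (nat_lit 217) .nil)))))))) (.g (nat_lit 1) (.e (nat_lit 439241) (nat_lit 0) .nil) .nil))) 
(.lf (nat_lit 608191) (.g (nat_lit 2798) (.e (nat_lit 704589) (nat_lit 3) (.e (nat_lit 163975) (nat_lit 30) (.e (nat_lit 573492) (nat_lit 15) (.e (nat_lit 81956) (nat_lit 23) (.e (nat_lit 98355) (nat_lit 26) (.e (nat_lit 426374) (nat_lit 15) (.e (nat_lit 2056) (nat_lit 142) .nil))))))) (.g (nat_lit 1) (.e (nat_lit 440527) (nat_lit 0) .nil) .nil)))))) 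
(.nd (nat_lit 7) (.nd (nat_lit 8) (.nd (nat_lit 9) 
(.lf (nat_lit 607359) (.g (nat_lit 836) (.e (nat_lit 819221) (nat_lit 6) (.e (nat_lit 188440) (nat_lit 20) (.e (nat_lit 3288) (nat_lit 201) (.e (nat_lit 565267) (nat_lit 4) (.e (nat_lit 65616) (nat_lit 10) .nil))))) (.g (nat_lit 0) (.e (nat_lit 437637) (nat_lit 0) .nil) .nil))) 
(.lf (nat_lit 607871) (.g (nat_lit 3663) (.e (nat_lit 696344) (nat_lit 8) (.e (nat_lit 172079) (nat_lit 7) (.e (nat_lit 409645) (nat_lit 18) (.e (nat_lit 303140) (nat_lit 10) (.e (nat_lit 434275) (nat_lit 39) (.e (nat_lit 663580) (nat_lit 9) (.e (nat_lit 2416) (nat_lit 157) (.e (nat_lit 3471) (nat_lit 217) .nil)))))))) (.g (nat_lit 1) (.e (nat_lit 439600) (nat_lit 0) .nil) .nil)))) 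
(.nd (nat_lit 9) 
(.lf (nat_lit 607615) (.g (nat_lit 1078) (.e (nat_lit 696343) (nat_lit 8) (.e (nat_lit 172079) (nat_lit 7) (.e (nat_lit 409645) (nat_lit 18) (.e (nat_lit 303133) (nat_lit 9) .nil)))) (.g (nat_lit 0) (.e (nat_lit 439084) (nat_lit 0) .nil) .nil))) 
(.lf (nat_lit 608127) (.g (nat_lit 2142) (.e (nat_lit 704589) (nat_lit 3) (.e (nat_lit 163975) (nat_lit 30) (.e (nat_lit 573481) (nat_lit 13) (.e (nat_lit 65619) (nat_lit 10) (.e (nat_lit 344117) (nat_lit 21) (.e (nat_lit 516147) (nat_lit 9) (.e (nat_lit 426420) (nat_lit 15) (.e (nat_lit 2058) (nat_lit 142) .nil)))))))) (.g (nat_lit 1) (.e (nat_lit 440357) (nat_lit 0) .nil) .nil))))) 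
(.nd (nat_lit 8) (.nd (nat_lit 9) 
(.lf (nat_lit 607487) (.g (nat_lit 2874) (.e (nat_lit 688174) (nat_lit 16) (.e (nat_lit 65568) (nat_lit 2) (.e (nat_lit 90170) (nat_lit 13) (.e (nat_lit 172106) (nat_lit 10) (.e (nat_lit 434231) (nat_lit 23) (.e (nat_lit 540416) (nat_lit 17) (.e (nat_lit 3453) (nat_lit 216) .nil))))))) (.g (nat_lit 1) (.e (nat_lit 438197) (nat_lit 0) .nil) .nil))) 
(.lf (nat_lit 607999) (.g (nat_lit 1740) (.e (nat_lit 696344) (nat_lit 8) (.e (nat_lit 172112) (nat_lit 10) (.e (nat_lit 434289) (nat_lit 43) (.e (nat_lit 696346) (nat_lit 10) (.e (nat_lit 188435) (nat_lit 20) (.e (nat_lit 3467) (nat_lit 217) .nil)))))) (.g (nat_lit 1) (.e (nat_lit 439808) (nat_lit 0) .nil) .nil)))) (.nd (nat_lit 9) 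
(.lf (nat_lit 607743) (.g (nat_lit 2668) (.e (nat_lit 696343) (nat_lit 8) (.e (nat_lit 172113) (nat_lit 10) (.e (nat_lit 434289) (nat_lit 43) (.e (nat_lit 696346) (nat_lit 10) (.e (nat_lit 188434) (nat_lit 20) (.e (nat_lit 3467) (nat_lit 217) .nil)))))) (.g (nat_lit 1) (.e (nat_lit 439394) (nat_lit 0) .nil) .nil))) 
(.lf (nat_lit 608255) (.g (nat_lit 2186) (.e (nat_lit 704589) (nat_lit 3) (.e (nat_lit 163975) (nat_lit 30) (.e (nat_lit 573492) (nat_lit 15) (.e (nat_lit 81956) (nat_lit 23) (.e (nat_lit 106240) (nat_lit 32) .nil))))) (.g (nat_lit 0) (.e (nat_lit 440591) (nat_lit 0) .nil) .nil)))))))))))))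

noncomputable def tv5654 : DT := (.nd (nat_lit 0) (.nd (nat_lit 1) (.nd (nat_lit 2) (.nd (nat_lit 3) (.nd (nat_lit 4) (.nd (nat_lit 5) (.nd (nat_lit 6) (.nd (nat_lit 7) (.nd (nat_lit 8) (.nd (nat_lit 9) 
(.lf (nat_lit 608256) (.g (nat_lit 1637) (.e (nat_lit 704589) (nat_lit 3) (.e (nat_lit 163975) (nat_lit 30) (.e (nat_lit 573493) (nat_lit 15) (.e (nat_lit 81953) (nat_lit 22) .nil)))) (.g (nat_lit 0) (.e (nat_lit 440597) (nat_lit 0) .nil) .nil))) 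
(.lf (nat_lit 608768) (.g (nat_lit 2110) (.e (nat_lit 704591) (nat_lit 4) (.e (nat_lit 172126) (nat_lit 14) (.e (nat_lit 491550) (nat_lit 9) (.e (nat_lit 336430) (nat_lit 29) (.e (nat_lit 442376) (nat_lit 0) (.e (nat_lit 2148) (nat_lit 142) .nil)))))) (.g (nat_lit 1) (.e (nat_lit 441614) (nat_lit 0) .nil) .nil)))) (.nd (nat_lit 9) 
(.lf (nat_lit 608512) (.g (nat_lit 2549) (.e (nat_lit 704589) (nat_lit 3) (.e (nat_lit 163979) (nat_lit 30) (.e (nat_lit 573491) (nat_lit 15) (.e (nat_lit 81946) (nat_lit 20) (.e (nat_lit 1802) (nat_lit 119) (.e (nat_lit 516182) (nat_lit 15) (.e (nat_lit 475197) (nat_lit 40) .nil))))))) (.g (nat_lit 1) (.e (nat_lit 440972) (nat_lit 0) .nil) .nil))) 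
(.lf (nat_lit 609024) (.g (nat_lit 1999) (.e (nat_lit 704598) (nat_lit 6) (.e (nat_lit 188455) (nat_lit 24) (.e (nat_lit 229678) (nat_lit 244) (.e (nat_lit 163842) (nat_lit 0) .nil)))) (.g (nat_lit 0) (.e (nat_lit 442521) (nat_lit 0) .nil) .nil))))) (.nd (nat_lit 8) (.nd (nat_lit 9) 
(.lf (nat_lit 608384) (.g (nat_lit 2034) (.e (nat_lit 704589) (nat_lit 3) (.e (nat_lit 163978) (nat_lit 30) (.e (nat_lit 573485) (nat_lit 13) (.e (nat_lit 65619) (nat_lit 10) (.e (nat_lit 344116) (nat_lit 21) .nil))))) (.g (nat_lit 0) (.e (nat_lit 440837) (nat_lit 0) .nil) .nil))) 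
(.lf (nat_lit 608896) (.g (nat_lit 1964) (.e (nat_lit 704597) (nat_lit 6) (.e (nat_lit 188455) (nat_lit 24) (.e (nat_lit 229679) (nat_lit 244) (.e (nat_lit 163919) (nat_lit 14) (.e (nat_lit 442371) (nat_lit 0) .nil))))) (.g (nat_lit 0) (.e (nat_lit 442361) (nat_lit 0) .nil) .nil)))) (.nd (nat_lit 9) 
(.lf (nat_lit 608640) (.g (nat_lit 3574) (.e (nat_lit 704589) (nat_lit 3) (.e (nat_lit 163979) (nat_lit 30) (.e (nat_lit 573493) (nat_lit 15) (.e (nat_lit 81954) (nat_lit 23) (.e (nat_lit 98356) (nat_lit 26) (.e (nat_lit 426379) (nat_lit 15) (.e (nat_lit 2058) (nat_lit 142) .nil))))))) (.g (nat_lit 1) (.e (nat_lit 441317) (nat_lit 0) .nil) .nil))) 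
(.lf (nat_lit 609152) (.g (nat_lit 3593) (.e (nat_lit 704627) (nat_lit 9) (.e (nat_lit 375) (nat_lit 32) (.e (nat_lit 426140) (nat_lit 3) (.e (nat_lit 204868) (nat_lit 29) (.e (nat_lit 360473) (nat_lit 8) (.e (nat_lit 557091) (nat_lit 12) (.e (nat_lit 164022) (nat_lit 46) .nil))))))) (.g (nat_lit 1) (.e (nat_lit 443000) (nat_lit 0) .nil) .nil)))))) 
(.nd (nat_lit 7) (.nd (nat_lit 8) (.nd (nat_lit 9) 
(.lf (nat_lit 608320) (.g (nat_lit 2817) (.e (nat_lit 704589) (nat_lit 3) (.e (nat_lit 163976) (nat_lit 30) (.e (nat_lit 573492) (nat_lit 15) (.e (nat_lit 81956) (nat_lit 23) (.e (nat_lit 98355) (nat_lit 26) (.e (nat_lit 426375) (nat_lit 15) (.e (nat_lit 2056) (nat_lit 142) .nil))))))) (.g (nat_lit 1) (.e (nat_lit 440760) (nat_lit 0) .nil) .nil))) 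
(.lf (nat_lit 608832) (.g (nat_lit 2160) (.e (nat_lit 704595) (nat_lit 5) (.e (nat_lit 180278) (nat_lit 32) (.e (nat_lit 1661) (nat_lit 115) (.e (nat_lit 393268) (nat_lit 23) (.e (nat_lit 426399) (nat_lit 15) .nil))))) (.g (nat_lit 0) (.e (nat_lit 442175) (nat_lit 0) .nil) .nil)))) (.nd (nat_lit 9) 
(.lf (nat_lit 608576) (.g (nat_lit 3075) (.e (nat_lit 704589) (nat_lit 3) (.e (nat_lit 163979) (nat_lit 30) (.e (nat_lit 573492) (nat_lit 15) (.e (nat_lit 81956) (nat_lit 23) (.e (nat_lit 98355) (nat_lit 26) (.e (nat_lit 426375) (nat_lit 15) (.e (nat_lit 2056) (nat_lit 142) .nil))))))) (.g (nat_lit 1) (.e (nat_lit 441051) (nat_lit 0) .nil) .nil))) 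
(.lf (nat_lit 609088) (.g (nat_lit 1676) (.e (nat_lit 704599) (nat_lit 6) (.e (nat_lit 188453) (nat_lit 24) (.e (nat_lit 229663) (nat_lit 240) (.e (nat_lit 2497) (nat_lit 157) .nil)))) (.g (nat_lit 0) (.e (nat_lit 442608) (nat_lit 0) .nil) .nil))))) (.nd (nat_lit 8) (.nd (nat_lit 9) 
(.lf (nat_lit 608448) (.g (nat_lit 2378) (.e (nat_lit 704589) (nat_lit 3) (.e (nat_lit 163979) (nat_lit 30) (.e (nat_lit 573482) (nat_lit 13) (.e (nat_lit 65604) (nat_lit 9) (.e (nat_lit 336028) (nat_lit 3) (.e (nat_lit 98359) (nat_lit 26) (.e (nat_lit 426396) (nat_lit 15) (.e (nat_lit 2057) (nat_lit 142) .nil)))))))) (.g (nat_lit 1) (.e (nat_lit 440907) (nat_lit 0) .nil) .nil))) 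
(.lf (nat_lit 608960) (.g (nat_lit 1895) (.e (nat_lit 704598) (nat_lit 6) (.e (nat_lit 188446) (nat_lit 21) (.e (nat_lit 164348) (nat_lit 240) (.e (nat_lit 2650) (nat_lit 166) (.e (nat_lit 188419) (nat_lit 0) .nil))))) (.g (nat_lit 0) (.e (nat_lit 442437) (nat_lit 0) .nil) .nil)))) (.nd (nat_lit 9) 
(.lf (nat_lit 608704) (.g (nat_lit 3078) (.e (nat_lit 704589) (nat_lit 3) (.e (nat_lit 163979) (nat_lit 30) (.e (nat_lit 573493) (nat_lit 15) (.e (nat_lit 81956) (nat_lit 23) (.e (nat_lit 98356) (nat_lit 26) (.e (nat_lit 426402) (nat_lit 15) (.e (nat_lit 2056) (nat_lit 142) .nil))))))) (.g (nat_lit 1) (.e (nat_lit 441391) (nat_lit 0) .nil) .nil))) 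
(.lf (nat_lit 609216) (.g (nat_lit 615) (.e (nat_lit 704736) (nat_lit 11) (.e (nat_lit 16415) (nat_lit 3) (.e (nat_lit 204861) (nat_lit 26) .nil))) (.g (nat_lit 0) (.e (nat_lit 443517) (nat_lit 0) .nil) .nil))))))) (.nd (nat_lit 6) (.nd (nat_lit 7) (.nd (nat_lit 8) (.nd (nat_lit 9) 
(.lf (nat_lit 608288) (.g (nat_lit 1523) (.e (nat_lit 704589) (nat_lit 3) (.e (nat_lit 163976) (nat_lit 30) (.e (nat_lit 573491) (nat_lit 15) (.e (nat_lit 81954) (nat_lit 23) (.e (nat_lit 98355) (nat_lit 26) (.e (nat_lit 426402) (nat_lit 15) (.e (nat_lit 2046) (nat_lit 142) .nil))))))) (.g (nat_lit 1) (.e (nat_lit 440635) (nat_lit 0) .nil) .nil))) 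
(.lf (nat_lit 608800) (.g (nat_lit 528) (.e (nat_lit 704593) (nat_lit 4) (.e (nat_lit 172124) (nat_lit 14) (.e (nat_lit 491570) (nat_lit 13) .nil))) (.g (nat_lit 0) (.e (nat_lit 441886) (nat_lit 0) .nil) .nil)))) (.nd (nat_lit 9) 
(.lf (nat_lit 608544) (.g (nat_lit 3378) (.e (nat_lit 704589) (nat_lit 3) (.e (nat_lit 163979) (nat_lit 30) (.e (nat_lit 573491) (nat_lit 15) (.e (nat_lit 81954) (nat_lit 23) (.e (nat_lit 98356) (nat_lit 26) (.e (nat_lit 426363) (nat_lit 15) (.e (nat_lit 2061) (nat_lit 142) .nil))))))) (.g (nat_lit 1) (.e (nat_lit 441010) (nat_lit 0) .nil) .nil))) 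
(.lf (nat_lit 609056) (.g (nat_lit 1033) (.e (nat_lit 704599) (nat_lit 6) (.e (nat_lit 188444) (nat_lit 21) (.e (nat_lit 164347) (nat_lit 240) (.e (nat_lit 2650) (nat_lit 166) .nil)))) (.g (nat_lit 0) (.e (nat_lit 442563) (nat_lit 0) .nil) .nil))))) (.nd (nat_lit 8) (.nd (nat_lit 9) 
(.lf (nat_lit 608416) (.g (nat_lit 3244) (.e (nat_lit 704589) (nat_lit 3) (.e (nat_lit 163978) (nat_lit 30) (.e (nat_lit 573485) (nat_lit 13) (.e (nat_lit 65619) (nat_lit 10) (.e (nat_lit 344117) (nat_lit 21) (.e (nat_lit 516180) (nat_lit 15) (.e (nat_lit 475195) (nat_lit 40) .nil))))))) (.g (nat_lit 1) (.e (nat_lit 440869) (nat_lit 0) .nil) .nil))) 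
(.lf (nat_lit 608928) (.g (nat_lit 1068) (.e (nat_lit 704598) (nat_lit 6) (.e (nat_lit 188439) (nat_lit 20) (.e (nat_lit 3408) (nat_lit 212) (.e (nat_lit 655380) (nat_lit 6) (.e (nat_lit 188418) (nat_lit 0) (.e (nat_lit 2057) (nat_lit 142) .nil)))))) (.g (nat_lit 1) (.e (nat_lit 442395) (nat_lit 0) .nil) .nil)))) (.nd (nat_lit 9) 
(.lf (nat_lit 608672) (.g (nat_lit 2912) (.e (nat_lit 704589) (nat_lit 3) (.e (nat_lit 163979) (nat_lit 30) (.e (nat_lit 573493) (nat_lit 15) (.e (nat_lit 81956) (nat_lit 23) (.e (nat_lit 98356) (nat_lit 26) (.e (nat_lit 426354) (nat_lit 15) (.e (nat_lit 2051) (nat_lit 142) .nil))))))) (.g (nat_lit 1) (.e (nat_lit 441359) (nat_lit 0) .nil) .nil))) 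
(.lf (nat_lit 609184) (.g (nat_lit 3290) (.e (nat_lit 704728) (nat_lit 10) (.e (nat_lit 8234) (nat_lit 20) (.e (nat_lit 573489) (nat_lit 14) (.e (nat_lit 73755) (nat_lit 8) (.e (nat_lit 557104) (nat_lit 14) (.e (nat_lit 188160) (nat_lit 3) (.e (nat_lit 516106) (nat_lit 0) (.e (nat_lit 7936) (nat_lit 218) .nil)))))))) (.g (nat_lit 1) (.e (nat_lit 443366) (nat_lit 0) .nil) .nil)))))) 
(.nd (nat_lit 7) (.nd (nat_lit 8) (.nd (nat_lit 9) 
(.lf (nat_lit 608352) (.g (nat_lit 3880) (.e (nat_lit 704589) (nat_lit 3) (.e (nat_lit 163976) (nat_lit 30) (.e (nat_lit 573492) (nat_lit 15) (.e (nat_lit 81956) (nat_lit 23) (.e (nat_lit 98356) (nat_lit 26) (.e (nat_lit 426420) (nat_lit 15) (.e (nat_lit 2056) (nat_lit 142) .nil))))))) (.g (nat_lit 1) (.e (nat_lit 440792) (nat_lit 0) .nil) .nil))) 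
(.lf (nat_lit 608864) (.g (nat_lit 1158) (.e (nat_lit 704597) (nat_lit 6) (.e (nat_lit 188446) (nat_lit 21) (.e (nat_lit 164347) (nat_lit 240) (.e (nat_lit 2648) (nat_lit 166) .nil)))) (.g (nat_lit 0) (.e (nat_lit 442279) (nat_lit 0) .nil) .nil)))) (.nd (nat_lit 9) 
(.lf (nat_lit 608608) (.g (nat_lit 4662) (.e (nat_lit 704589) (nat_lit 3) (.e (nat_lit 163979) (nat_lit 30) (.e (nat_lit 573492) (nat_lit 15) (.e (nat_lit 81956) (nat_lit 23) (.e (nat_lit 98356) (nat_lit 26) (.e (nat_lit 426393) (nat_lit 15) (.e (nat_lit 2058) (nat_lit 142) .nil))))))) (.g (nat_lit 1) (.e (nat_lit 441083) (nat_lit 0) .nil) .nil))) 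
(.lf (nat_lit 609120) (.g (nat_lit 398) (.e (nat_lit 704599) (nat_lit 6) (.e (nat_lit 188455) (nat_lit 24) (.e (nat_lit 229664) (nat_lit 240) .nil))) (.g (nat_lit 0) (.e (nat_lit 442667) (nat_lit 0) .nil) .nil))))) (.nd (nat_lit 8) (.nd (nat_lit 9) 
(.lf (nat_lit 608480) (.g (nat_lit 5723) (.e (nat_lit 704589) (nat_lit 3) (.e (nat_lit 163979) (nat_lit 30) (.e (nat_lit 573482) (nat_lit 13) (.e (nat_lit 65619) (nat_lit 10) (.e (nat_lit 344117) (nat_lit 21) (.e (nat_lit 516145) (nat_lit 9) (.e (nat_lit 426375) (nat_lit 15) (.e (nat_lit 2059) (nat_lit 142) .nil)))))))) (.g (nat_lit 1) (.e (nat_lit 440939) (nat_lit 0) .nil) .nil))) 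
(.lf (nat_lit 608992) (.g (nat_lit 1715) (.e (nat_lit 704598) (nat_lit 6) (.e (nat_lit 188453) (nat_lit 24) (.e (nat_lit 229680) (nat_lit 244) (.e (nat_lit 163932) (nat_lit 17) (.e (nat_lit 466947) (nat_lit 0) (.e (nat_lit 2057) (nat_lit 142) .nil)))))) (.g (nat_lit 1) (.e (nat_lit 442485) (nat_lit 0) .nil) .nil)))) (.nd (nat_lit 9) 
(.lf (nat_lit 608736) (.g (nat_lit 3262) (.e (nat_lit 704590) (nat_lit 3) (.e (nat_lit 163962) (nat_lit 25) (.e (nat_lit 532543) (nat_lit 10) (.e (nat_lit 344129) (nat_lit 26) (.e (nat_lit 557104) (nat_lit 14) (.e (nat_lit 188160) (nat_lit 3) (.e (nat_lit 516106) (nat_lit 0) (.e (nat_lit 7936) (nat_lit 218) .nil)))))))) (.g (nat_lit 1) (.e (nat_lit 441489) (nat_lit 0) .nil) .nil))) 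
(.lf (nat_lit 609248) (.g (nat_lit 1582) (.e (nat_lit 704737) (nat_lit 11) (.e (nat_lit 16466) (nat_lit 13) (.e (nat_lit 483410) (nat_lit 27) (.e (nat_lit 401448) (nat_lit 10) .nil)))) (.g (nat_lit 0) (.e (nat_lit 443766) (nat_lit 0) .nil) .nil)))))))) (.nd (nat_lit 5) (.nd (nat_lit 6) (.nd (nat_lit 7) (.nd (nat_lit 8) (.nd (nat_lit 9) 
(.lf (nat_lit 608272) (.g (nat_lit 2977) (.e (nat_lit 704589) (nat_lit 3) (.e (nat_lit 163976) (nat_lit 30) (.e (nat_lit 573481) (nat_lit 13) (.e (nat_lit 65619) (nat_lit 10) (.e (nat_lit 344117) (nat_lit 21) (.e (nat_lit 516152) (nat_lit 9) (.e (nat_lit 426411) (nat_lit 15) (.e (nat_lit 2058) (nat_lit 142) .nil)))))))) (.g (nat_lit 1) (.e (nat_lit 440617) (nat_lit 0) .nil) .nil))) 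
(.lf (nat_lit 608784) (.g (nat_lit 2116) (.e (nat_lit 704592) (nat_lit 4) (.e (nat_lit 172126) (nat_lit 14) (.e (nat_lit 491550) (nat_lit 9) (.e (nat_lit 336430) (nat_lit 29) (.e (nat_lit 442378) (nat_lit 0) (.e (nat_lit 2057) (nat_lit 142) .nil)))))) (.g (nat_lit 1) (.e (nat_lit 441708) (nat_lit 0) .nil) .nil)))) (.nd (nat_lit 9) 
(.lf (nat_lit 608528) (.g (nat_lit 2080) (.e (nat_lit 704589) (nat_lit 3) (.e (nat_lit 163979) (nat_lit 30) (.e (nat_lit 573491) (nat_lit 15) (.e (nat_lit 81954) (nat_lit 23) (.e (nat_lit 98356) (nat_lit 26) (.e (nat_lit 426354) (nat_lit 15) (.e (nat_lit 2053) (nat_lit 142) .nil))))))) (.g (nat_lit 1) (.e (nat_lit 440994) (nat_lit 0) .nil) .nil))) 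
(.lf (nat_lit 609040) (.g (nat_lit 2290) (.e (nat_lit 704598) (nat_lit 6) (.e (nat_lit 188455) (nat_lit 24) (.e (nat_lit 229680) (nat_lit 244) (.e (nat_lit 163915) (nat_lit 12) (.e (nat_lit 426306) (nat_lit 12) (.e (nat_lit 475199) (nat_lit 40) .nil)))))) (.g (nat_lit 1) (.e (nat_lit 442538) (nat_lit 0) .nil) .nil))))) (.nd (nat_lit 8) (.nd (nat_lit 9) 
(.lf (nat_lit 608400) (.g (nat_lit 4966) (.e (nat_lit 704589) (nat_lit 3) (.e (nat_lit 163978) (nat_lit 30) (.e (nat_lit 573485) (nat_lit 13) (.e (nat_lit 65619) (nat_lit 10) (.e (nat_lit 344117) (nat_lit 21) (.e (nat_lit 516145) (nat_lit 9) (.e (nat_lit 426420) (nat_lit 15) (.e (nat_lit 2058) (nat_lit 142) .nil)))))))) (.g (nat_lit 1) (.e (nat_lit 440853) (nat_lit 0) .nil) .nil))) 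
(.lf (nat_lit 608912) (.g (nat_lit 1157) (.e (nat_lit 704598) (nat_lit 6) (.e (nat_lit 188434) (nat_lit 20) (.e (nat_lit 3408) (nat_lit 212) (.e (nat_lit 655380) (nat_lit 6) (.e (nat_lit 188418) (nat_lit 0) (.e (nat_lit 2057) (nat_lit 142) .nil)))))) (.g (nat_lit 1) (.e (nat_lit 442379) (nat_lit 0) .nil) .nil)))) (.nd (nat_lit 9) 
(.lf (nat_lit 608656) (.g (nat_lit 4392) (.e (nat_lit 704589) (nat_lit 3) (.e (nat_lit 163979) (nat_lit 30) (.e (nat_lit 573493) (nat_lit 15) (.e (nat_lit 81954) (nat_lit 23) (.e (nat_lit 98386) (nat_lit 32) (.e (nat_lit 475196) (nat_lit 40) .nil)))))) (.g (nat_lit 1) (.e (nat_lit 441333) (nat_lit 0) .nil) .nil))) 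
(.lf (nat_lit 609168) (.g (nat_lit 3519) (.e (nat_lit 704629) (nat_lit 9) (.e (nat_lit 375) (nat_lit 32) (.e (nat_lit 426118) (nat_lit 2) (.e (nat_lit 196666) (nat_lit 13) (.e (nat_lit 65617) (nat_lit 10) (.e (nat_lit 344133) (nat_lit 26) (.e (nat_lit 557091) (nat_lit 12) (.e (nat_lit 164022) (nat_lit 46) .nil)))))))) (.g (nat_lit 1) (.e (nat_lit 443118) (nat_lit 0) .nil) .nil)))))) 
(.nd (nat_lit 7) (.nd (nat_lit 8) (.nd (nat_lit 9) 
(.lf (nat_lit 608336) (.g (nat_lit 3064) (.e (nat_lit 704589) (nat_lit 3) (.e (nat_lit 163976) (nat_lit 30) (.e (nat_lit 573492) (nat_lit 15) (.e (nat_lit 81956) (nat_lit 23) (.e (nat_lit 98356) (nat_lit 26) (.e (nat_lit 426361) (nat_lit 15) (.e (nat_lit 2044) (nat_lit 142) .nil))))))) (.g (nat_lit 1) (.e (nat_lit 440776) (nat_lit 0) .nil) .nil))) 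
(.lf (nat_lit 608848) (.g (nat_lit 864) (.e (nat_lit 704597) (nat_lit 6) (.e (nat_lit 188439) (nat_lit 20) (.e (nat_lit 3406) (nat_lit 212) (.e (nat_lit 655380) (nat_lit 6) (.e (nat_lit 188417) (nat_lit 0) (.e (nat_lit 2148) (nat_lit 142) .nil)))))) (.g (nat_lit 1) (.e (nat_lit 442245) (nat_lit 0) .nil) .nil)))) (.nd (nat_lit 9) 
(.lf (nat_lit 608592) (.g (nat_lit 3209) (.e (nat_lit 704589) (nat_lit 3) (.e (nat_lit 163979) (nat_lit 30) (.e (nat_lit 573492) (nat_lit 15) (.e (nat_lit 81956) (nat_lit 23) (.e (nat_lit 98356) (nat_lit 26) (.e (nat_lit 426360) (nat_lit 15) (.e (nat_lit 2097) (nat_lit 142) .nil))))))) (.g (nat_lit 1) (.e (nat_lit 441067) (nat_lit 0) .nil) .nil))) 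
(.lf (nat_lit 609104) (.g (nat_lit 2387) (.e (nat_lit 704599) (nat_lit 6) (.e (nat_lit 188454) (nat_lit 24) (.e (nat_lit 229663) (nat_lit 240) (.e (nat_lit 2630) (nat_lit 164) (.e (nat_lit 172118) (nat_lit 12) (.e (nat_lit 475198) (nat_lit 40) .nil)))))) (.g (nat_lit 1) (.e (nat_lit 442640) (nat_lit 0) .nil) .nil))))) (.nd (nat_lit 8) (.nd (nat_lit 9) 
(.lf (nat_lit 608464) (.g (nat_lit 2243) (.e (nat_lit 704589) (nat_lit 3) (.e (nat_lit 163979) (nat_lit 30) (.e (nat_lit 573482) (nat_lit 13) (.e (nat_lit 65619) (nat_lit 10) (.e (nat_lit 344116) (nat_lit 21) .nil))))) (.g (nat_lit 0) (.e (nat_lit 440923) (nat_lit 0) .nil) .nil))) 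
(.lf (nat_lit 608976) (.g (nat_lit 1666) (.e (nat_lit 704598) (nat_lit 6) (.e (nat_lit 188453) (nat_lit 24) (.e (nat_lit 229664) (nat_lit 240) (.e (nat_lit 2725) (nat_lit 172) (.e (nat_lit 237617) (nat_lit 12) .nil))))) (.g (nat_lit 0) (.e (nat_lit 442468) (nat_lit 0) .nil) .nil)))) (.nd (nat_lit 9) 
(.lf (nat_lit 608720) (.g (nat_lit 4695) (.e (nat_lit 704589) (nat_lit 3) (.e (nat_lit 163979) (nat_lit 30) (.e (nat_lit 573493) (nat_lit 15) (.e (nat_lit 81956) (nat_lit 23) (.e (nat_lit 98362) (nat_lit 26) (.e (nat_lit 426411) (nat_lit 15) (.e (nat_lit 2057) (nat_lit 142) .nil))))))) (.g (nat_lit 1) (.e (nat_lit 441407) (nat_lit 0) .nil) .nil))) 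
(.lf (nat_lit 609232) (.g (nat_lit 741) (.e (nat_lit 704737) (nat_lit 11) (.e (nat_lit 16392) (nat_lit 0) (.e (nat_lit 6989) (nat_lit 377) .nil))) (.g (nat_lit 0) (.e (nat_lit 443654) (nat_lit 0) .nil) .nil))))))) (.nd (nat_lit 6) (.nd (nat_lit 7) (.nd (nat_lit 8) (.nd (nat_lit 9) 
(.lf (nat_lit 608304) (.g (nat_lit 3142) (.e (nat_lit 704589) (nat_lit 3) (.e (nat_lit 163976) (nat_lit 30) (.e (nat_lit 573491) (nat_lit 15) (.e (nat_lit 81954) (nat_lit 23) (.e (nat_lit 98356) (nat_lit 26) (.e (nat_lit 426376) (nat_lit 15) (.e (nat_lit 2059) (nat_lit 142) .nil))))))) (.g (nat_lit 1) (.e (nat_lit 440651) (nat_lit 0) .nil) .nil))) 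
(.lf (nat_lit 608816) (.g (nat_lit 2042) (.e (nat_lit 704595) (nat_lit 5) (.e (nat_lit 180277) (nat_lit 32) (.e (nat_lit 1427) (nat_lit 108) (.e (nat_lit 336443) (nat_lit 32) (.e (nat_lit 466949) (nat_lit 0) .nil))))) (.g (nat_lit 0) (.e (nat_lit 442121) (nat_lit 0) .nil) .nil)))) (.nd (nat_lit 9) 
(.lf (nat_lit 608560) (.g (nat_lit 2970) (.e (nat_lit 704589) (nat_lit 3) (.e (nat_lit 163979) (nat_lit 30) (.e (nat_lit 573491) (nat_lit 15) (.e (nat_lit 81954) (nat_lit 23) (.e (nat_lit 98359) (nat_lit 26) (.e (nat_lit 426410) (nat_lit 15) (.e (nat_lit 2057) (nat_lit 142) .nil))))))) (.g (nat_lit 1) (.e (nat_lit 441026) (nat_lit 0) .nil) .nil))) 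
(.lf (nat_lit 609072) (.g (nat_lit 776) (.e (nat_lit 704599) (nat_lit 6) (.e (nat_lit 188446) (nat_lit 21) (.e (nat_lit 164346) (nat_lit 240) (.e (nat_lit 2648) (nat_lit 166) .nil)))) (.g (nat_lit 0) (.e (nat_lit 442579) (nat_lit 0) .nil) .nil))))) (.nd (nat_lit 8) (.nd (nat_lit 9) 
(.lf (nat_lit 608432) (.g (nat_lit 4287) (.e (nat_lit 704589) (nat_lit 3) (.e (nat_lit 163979) (nat_lit 30) (.e (nat_lit 573480) (nat_lit 13) (.e (nat_lit 65610) (nat_lit 10) (.e (nat_lit 344117) (nat_lit 21) (.e (nat_lit 516151) (nat_lit 9) (.e (nat_lit 426412) (nat_lit 15) (.e (nat_lit 2057) (nat_lit 142) .nil)))))))) (.g (nat_lit 1) (.e (nat_lit 440891) (nat_lit 0) .nil) .nil))) 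
(.lf (nat_lit 608944) (.g (nat_lit 1769) (.e (nat_lit 704598) (nat_lit 6) (.e (nat_lit 188444) (nat_lit 21) (.e (nat_lit 164348) (nat_lit 240) (.e (nat_lit 2650) (nat_lit 166) (.e (nat_lit 188419) (nat_lit 0) .nil))))) (.g (nat_lit 0) (.e (nat_lit 442415) (nat_lit 0) .nil) .nil)))) (.nd (nat_lit 9) 
(.lf (nat_lit 608688) (.g (nat_lit 3316) (.e (nat_lit 704589) (nat_lit 3) (.e (nat_lit 163979) (nat_lit 30) (.e (nat_lit 573493) (nat_lit 15) (.e (nat_lit 81956) (nat_lit 23) (.e (nat_lit 98356) (nat_lit 26) (.e (nat_lit 426363) (nat_lit 15) (.e (nat_lit 2044) (nat_lit 142) .nil))))))) (.g (nat_lit 1) (.e (nat_lit 441375) (nat_lit 0) .nil) .nil))) 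
(.lf (nat_lit 609200) (.g (nat_lit 2642) (.e (nat_lit 704732) (nat_lit 11) (.e (nat_lit 16473) (nat_lit 14) (.e (nat_lit 491526) (nat_lit 0) (.e (nat_lit 2270) (nat_lit 149) .nil)))) (.g (nat_lit 0) (.e (nat_lit 443418) (nat_lit 0) .nil) .nil)))))) (.nd (nat_lit 7) (.nd (nat_lit 8) (.nd (nat_lit 9) 
(.lf (nat_lit 608368) (.g (nat_lit 2914) (.e (nat_lit 704589) (nat_lit 3) (.e (nat_lit 163978) (nat_lit 30) (.e (nat_lit 573479) (nat_lit 13) (.e (nat_lit 65610) (nat_lit 10) (.e (nat_lit 344117) (nat_lit 21) .nil))))) (.g (nat_lit 0) (.e (nat_lit 440817) (nat_lit 0) .nil) .nil))) 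
(.lf (nat_lit 608880) (.g (nat_lit 658) (.e (nat_lit 704597) (nat_lit 6) (.e (nat_lit 188452) (nat_lit 23) (.e (nat_lit 204830) (nat_lit 18) .nil))) (.g (nat_lit 0) (.e (nat_lit 442323) (nat_lit 0) .nil) .nil)))) (.nd (nat_lit 9) 
(.lf (nat_lit 608624) (.g (nat_lit 1752) (.e (nat_lit 704589) (nat_lit 3) (.e (nat_lit 163979) (nat_lit 30) (.e (nat_lit 573493) (nat_lit 15) (.e (nat_lit 81951) (nat_lit 22) .nil)))) (.g (nat_lit 0) (.e (nat_lit 441205) (nat_lit 0) .nil) .nil))) 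
(.lf (nat_lit 609136) (.g (nat_lit 2624) (.e (nat_lit 704599) (nat_lit 6) (.e (nat_lit 188455) (nat_lit 24) (.e (nat_lit 229678) (nat_lit 244) (.e (nat_lit 163900) (nat_lit 12) (.e (nat_lit 426317) (nat_lit 12) .nil))))) (.g (nat_lit 0) (.e (nat_lit 442694) (nat_lit 0) .nil) .nil))))) (.nd (nat_lit 8) (.nd (nat_lit 9) 
(.lf (nat_lit 608496) (.g (nat_lit 3606) (.e (nat_lit 704589) (nat_lit 3) (.e (nat_lit 163979) (nat_lit 30) (.e (nat_lit 573482) (nat_lit 13) (.e (nat_lit 65619) (nat_lit 10) (.e (nat_lit 344117) (nat_lit 21) (.e (nat_lit 516152) (nat_lit 9) (.e (nat_lit 426411) (nat_lit 15) (.e (nat_lit 2058) (nat_lit 142) .nil)))))))) (.g (nat_lit 1) (.e (nat_lit 440955) (nat_lit 0) .nil) .nil))) 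
(.lf (nat_lit 609008) (.g (nat_lit 3353) (.e (nat_lit 704598) (nat_lit 6) (.e (nat_lit 188455) (nat_lit 24) (.e (nat_lit 229663) (nat_lit 240) (.e (nat_lit 2651) (nat_lit 166) (.e (nat_lit 188420) (nat_lit 0) (.e (nat_lit 2059) (nat_lit 142) .nil)))))) (.g (nat_lit 1) (.e (nat_lit 442505) (nat_lit 0) .nil) .nil)))) (.nd (nat_lit 9) 
(.lf (nat_lit 608752) (.g (nat_lit 3846) (.e (nat_lit 704590) (nat_lit 3) (.e (nat_lit 163975) (nat_lit 30) (.e (nat_lit 573481) (nat_lit 13) (.e (nat_lit 65619) (nat_lit 10) (.e (nat_lit 344117) (nat_lit 21) (.e (nat_lit 516180) (nat_lit 15) (.e (nat_lit 483072) (nat_lit 40) .nil))))))) (.g (nat_lit 1) (.e (nat_lit 441508) (nat_lit 0) .nil) .nil))) 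
(.lf (nat_lit 609264) (.g (nat_lit 4647) (.e (nat_lit 704738) (nat_lit 11) (.e (nat_lit 16425) (nat_lit 7) (.e (nat_lit 409649) (nat_lit 18) (.e (nat_lit 303140) (nat_lit 10) (.e (nat_lit 434275) (nat_lit 39) (.e (nat_lit 663574) (nat_lit 9) (.e (nat_lit 2418) (nat_lit 157) (.e (nat_lit 3502) (nat_lit 218) .nil)))))))) (.g (nat_lit 1) (.e (nat_lit 443885) (nat_lit 0) .nil) .nil))))))))) 
(.nd (nat_lit 4) (.nd (nat_lit 5) (.nd (nat_lit 6) (.nd (nat_lit 7) (.nd (nat_lit 8) 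
(.nd (nat_lit 9) 
(.lf (nat_lit 608264) (.g (nat_lit 4149) (.e (nat_lit 704589) (nat_lit 3) (.e (nat_lit 163976) (nat_lit 30) (.e (nat_lit 573481) (nat_lit 13) (.e (nat_lit 65619) (nat_lit 10) (.e (nat_lit 344117) (nat_lit 21) (.e (nat_lit 516145) (nat_lit 9) (.e (nat_lit 426374) (nat_lit 15) (.e (nat_lit 2058) (nat_lit 142) .nil)))))))) (.g (nat_lit 1) (.e (nat_lit 440609) (nat_lit 0) .nil) .nil))) 
(.lf (nat_lit 608776) (.g (nat_lit 2561) (.e (nat_lit 704592) (nat_lit 4) (.e (nat_lit 172126) (nat_lit 14) (.e (nat_lit 491549) (nat_lit 9) (.e (nat_lit 336430) (nat_lit 29) (.e (nat_lit 442377) (nat_lit 0) .nil))))) (.g (nat_lit 0) (.e (nat_lit 441690) (nat_lit 0) .nil) .nil)))) (.nd (nat_lit 9) 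
(.lf (nat_lit 608520) (.g (nat_lit 2544) (.e (nat_lit 704589) (nat_lit 3) (.e (nat_lit 163979) (nat_lit 30) (.e (nat_lit 573491) (nat_lit 15) (.e (nat_lit 81954) (nat_lit 23) (.e (nat_lit 98355) (nat_lit 26) (.e (nat_lit 426375) (nat_lit 15) (.e (nat_lit 2057) (nat_lit 142) .nil))))))) (.g (nat_lit 1) (.e (nat_lit 440986) (nat_lit 0) .nil) .nil))) 
(.lf (nat_lit 609032) (.g (nat_lit 2072) (.e (nat_lit 704598) (nat_lit 6) (.e (nat_lit 188455) (nat_lit 24) (.e (nat_lit 229678) (nat_lit 244) (.e (nat_lit 163914) (nat_lit 12) .nil)))) (.g (nat_lit 0) (.e (nat_lit 442530) (nat_lit 0) .nil) .nil))))) (.nd (nat_lit 8) (.nd (nat_lit 9) 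
(.lf (nat_lit 608392) (.g (nat_lit 2589) (.e (nat_lit 704589) (nat_lit 3) (.e (nat_lit 163978) (nat_lit 30) (.e (nat_lit 573485) (nat_lit 13) (.e (nat_lit 65619) (nat_lit 10) (.e (nat_lit 344117) (nat_lit 21) (.e (nat_lit 516144) (nat_lit 9) (.e (nat_lit 426402) (nat_lit 15) (.e (nat_lit 2045) (nat_lit 142) .nil)))))))) (.g (nat_lit 1) (.e (nat_lit 440845) (nat_lit 0) .nil) .nil))) 
(.lf (nat_lit 608904) (.g (nat_lit 1801) (.e (nat_lit 704598) (nat_lit 6) (.e (nat_lit 188427) (nat_lit 20) (.e (nat_lit 3402) (nat_lit 211) (.e (nat_lit 647185) (nat_lit 6) (.e (nat_lit 188418) (nat_lit 0) (.e (nat_lit 2058) (nat_lit 142) .nil)))))) (.g (nat_lit 1) (.e (nat_lit 442371) (nat_lit 0) .nil) .nil)))) (.nd (nat_lit 9) 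
(.lf (nat_lit 608648) (.g (nat_lit 3555) (.e (nat_lit 704589) (nat_lit 3) (.e (nat_lit 163979) (nat_lit 30) (.e (nat_lit 573493) (nat_lit 15) (.e (nat_lit 81954) (nat_lit 23) (.e (nat_lit 98362) (nat_lit 26) (.e (nat_lit 426412) (nat_lit 15) (.e (nat_lit 2059) (nat_lit 142) .nil))))))) (.g (nat_lit 1) (.e (nat_lit 441325) (nat_lit 0) .nil) .nil))) 
(.lf (nat_lit 609160) (.g (nat_lit 4755) (.e (nat_lit 704628) (nat_lit 9) (.e (nat_lit 375) (nat_lit 32) (.e (nat_lit 426125) (nat_lit 2) (.e (nat_lit 196666) (nat_lit 13) (.e (nat_lit 65610) (nat_lit 10) (.e (nat_lit 344132) (nat_lit 26) (.e (nat_lit 557094) (nat_lit 12) (.e (nat_lit 164022) (nat_lit 46) .nil)))))))) (.g (nat_lit 1) (.e (nat_lit 443066) (nat_lit 0) .nil) .nil)))))) 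
(.nd (nat_lit 7) (.nd (nat_lit 8) (.nd (nat_lit 9) 
(.lf (nat_lit 608328) (.g (nat_lit 2535) (.e (nat_lit 704589) (nat_lit 3) (.e (nat_lit 163976) (nat_lit 30) (.e (nat_lit 573492) (nat_lit 15) (.e (nat_lit 81956) (nat_lit 23) (.e (nat_lit 98355) (nat_lit 26) (.e (nat_lit 426420) (nat_lit 15) (.e (nat_lit 2056) (nat_lit 142) .nil))))))) (.g (nat_lit 1) (.e (nat_lit 440768) (nat_lit 0) .nil) .nil))) 
(.lf (nat_lit 608840) (.g (nat_lit 983) (.e (nat_lit 704596) (nat_lit 5) (.e (nat_lit 180277) (nat_lit 32) (.e (nat_lit 1660) (nat_lit 115) (.e (nat_lit 401152) (nat_lit 23) .nil)))) (.g (nat_lit 0) (.e (nat_lit 442216) (nat_lit 0) .nil) .nil)))) (.nd (nat_lit 9) 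
(.lf (nat_lit 608584) (.g (nat_lit 2896) (.e (nat_lit 704589) (nat_lit 3) (.e (nat_lit 163979) (nat_lit 30) (.e (nat_lit 573492) (nat_lit 15) (.e (nat_lit 81956) (nat_lit 23) (.e (nat_lit 98355) (nat_lit 26) (.e (nat_lit 426402) (nat_lit 15) (.e (nat_lit 2046) (nat_lit 142) .nil))))))) (.g (nat_lit 1) (.e (nat_lit 441059) (nat_lit 0) .nil) .nil))) 
(.lf (nat_lit 609096) (.g (nat_lit 2024) (.e (nat_lit 704599) (nat_lit 6) (.e (nat_lit 188453) (nat_lit 24) (.e (nat_lit 229666) (nat_lit 240) (.e (nat_lit 2651) (nat_lit 166) (.e (nat_lit 188420) (nat_lit 0) (.e (nat_lit 2056) (nat_lit 142) .nil)))))) (.g (nat_lit 1) (.e (nat_lit 442627) (nat_lit 0) .nil) .nil))))) (.nd (nat_lit 8) (.nd (nat_lit 9) 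
(.lf (nat_lit 608456) (.g (nat_lit 5663) (.e (nat_lit 704589) (nat_lit 3) (.e (nat_lit 163979) (nat_lit 30) (.e (nat_lit 573482) (nat_lit 13) (.e (nat_lit 65610) (nat_lit 10) (.e (nat_lit 344117) (nat_lit 21) (.e (nat_lit 516151) (nat_lit 9) (.e (nat_lit 426412) (nat_lit 15) (.e (nat_lit 2058) (nat_lit 142) .nil)))))))) (.g (nat_lit 1) (.e (nat_lit 440915) (nat_lit 0) .nil) .nil))) 
(.lf (nat_lit 608968) (.g (nat_lit 3110) (.e (nat_lit 704598) (nat_lit 6) (.e (nat_lit 188453) (nat_lit 24) (.e (nat_lit 229663) (nat_lit 240) (.e (nat_lit 2630) (nat_lit 164) (.e (nat_lit 172119) (nat_lit 12) .nil))))) (.g (nat_lit 0) (.e (nat_lit 442460) (nat_lit 0) .nil) .nil)))) (.nd (nat_lit 9) 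
(.lf (nat_lit 608712) (.g (nat_lit 3430) (.e (nat_lit 704589) (nat_lit 3) (.e (nat_lit 163979) (nat_lit 30) (.e (nat_lit 573493) (nat_lit 15) (.e (nat_lit 81956) (nat_lit 23) (.e (nat_lit 98359) (nat_lit 26) (.e (nat_lit 426410) (nat_lit 15) (.e (nat_lit 2057) (nat_lit 142) .nil))))))) (.g (nat_lit 1) (.e (nat_lit 441399) (nat_lit 0) .nil) .nil))) 
(.lf (nat_lit 609224) (.g (nat_lit 1382) (.e (nat_lit 704736) (nat_lit 11) (.e (nat_lit 16439) (nat_lit 9) (.e (nat_lit 426499) (nat_lit 27) (.e (nat_lit 335892) (nat_lit 0) .nil)))) (.g (nat_lit 0) (.e (nat_lit 443532) (nat_lit 0) .nil) .nil))))))) (.nd (nat_lit 6) (.nd (nat_lit 7) (.nd (nat_lit 8) (.nd (nat_lit 9) 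
(.lf (nat_lit 608296) (.g (nat_lit 2347) (.e (nat_lit 704589) (nat_lit 3) (.e (nat_lit 163976) (nat_lit 30) (.e (nat_lit 573491) (nat_lit 15) (.e (nat_lit 81954) (nat_lit 23) (.e (nat_lit 98356) (nat_lit 26) (.e (nat_lit 426363) (nat_lit 15) (.e (nat_lit 2060) (nat_lit 142) .nil))))))) (.g (nat_lit 1) (.e (nat_lit 440643) (nat_lit 0) .nil) .nil))) 
(.lf (nat_lit 608808) (.g (nat_lit 2603) (.e (nat_lit 704595) (nat_lit 5) (.e (nat_lit 180271) (nat_lit 26) (.e (nat_lit 704629) (nat_lit 9) (.e (nat_lit 442) (nat_lit 33) (.e (nat_lit 434233) (nat_lit 23) .nil))))) (.g (nat_lit 0) (.e (nat_lit 442106) (nat_lit 0) .nil) .nil)))) (.nd (nat_lit 9) 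
(.lf (nat_lit 608552) (.g (nat_lit 3570) (.e (nat_lit 704589) (nat_lit 3) (.e (nat_lit 163979) (nat_lit 30) (.e (nat_lit 573491) (nat_lit 15) (.e (nat_lit 81954) (nat_lit 23) (.e (nat_lit 98356) (nat_lit 26) (.e (nat_lit 426393) (nat_lit 15) (.e (nat_lit 2056) (nat_lit 142) .nil))))))) (.g (nat_lit 1) (.e (nat_lit 441018) (nat_lit 0) .nil) .nil))) 
(.lf (nat_lit 609064) (.g (nat_lit 1595) (.e (nat_lit 704599) (nat_lit 6) (.e (nat_lit 188445) (nat_lit 21) (.e (nat_lit 164347) (nat_lit 240) (.e (nat_lit 2648) (nat_lit 166) (.e (nat_lit 188420) (nat_lit 0) .nil))))) (.g (nat_lit 0) (.e (nat_lit 442571) (nat_lit 0) .nil) .nil))))) (.nd (nat_lit 8) (.nd (nat_lit 9) 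
(.lf (nat_lit 608424) (.g (nat_lit 3925) (.e (nat_lit 704589) (nat_lit 3) (.e (nat_lit 163978) (nat_lit 30) (.e (nat_lit 573491) (nat_lit 15) (.e (nat_lit 81942) (nat_lit 20) .nil)))) (.g (nat_lit 0) (.e (nat_lit 440878) (nat_lit 0) .nil) .nil))) 
(.lf (nat_lit 608936) (.g (nat_lit 1065) (.e (nat_lit 704598) (nat_lit 6) (.e (nat_lit 188444) (nat_lit 21) (.e (nat_lit 164346) (nat_lit 240) (.e (nat_lit 2648) (nat_lit 166) (.e (nat_lit 188418) (nat_lit 0) .nil))))) (.g (nat_lit 0) (.e (nat_lit 442406) (nat_lit 0) .nil) .nil)))) (.nd (nat_lit 9) 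
(.lf (nat_lit 608680) (.g (nat_lit 4149) (.e (nat_lit 704589) (nat_lit 3) (.e (nat_lit 163979) (nat_lit 30) (.e (nat_lit 573493) (nat_lit 15) (.e (nat_lit 81956) (nat_lit 23) (.e (nat_lit 98356) (nat_lit 26) (.e (nat_lit 426360) (nat_lit 15) (.e (nat_lit 2063) (nat_lit 142) .nil))))))) (.g (nat_lit 1) (.e (nat_lit 441367) (nat_lit 0) .nil) .nil))) 
(.lf (nat_lit 609192) (.g (nat_lit 653) (.e (nat_lit 704732) (nat_lit 11) (.e (nat_lit 16415) (nat_lit 3) (.e (nat_lit 204869) (nat_lit 29) .nil))) (.g (nat_lit 0) (.e (nat_lit 443399) (nat_lit 0) .nil) .nil)))))) (.nd (nat_lit 7) (.nd (nat_lit 8) (.nd (nat_lit 9) 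
(.lf (nat_lit 608360) (.g (nat_lit 3509) (.e (nat_lit 704589) (nat_lit 3) (.e (nat_lit 163976) (nat_lit 30) (.e (nat_lit 573492) (nat_lit 15) (.e (nat_lit 81956) (nat_lit 23) (.e (nat_lit 98362) (nat_lit 26) (.e (nat_lit 426410) (nat_lit 15) (.e (nat_lit 2059) (nat_lit 142) .nil))))))) (.g (nat_lit 1) (.e (nat_lit 440800) (nat_lit 0) .nil) .nil))) 
(.lf (nat_lit 608872) (.g (nat_lit 1058) (.e (nat_lit 704597) (nat_lit 6) (.e (nat_lit 188449) (nat_lit 22) (.e (nat_lit 196697) (nat_lit 19) .nil))) (.g (nat_lit 0) (.e (nat_lit 442292) (nat_lit 0) .nil) .nil)))) (.nd (nat_lit 9) 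
(.lf (nat_lit 608616) (.g (nat_lit 3612) (.e (nat_lit 704589) (nat_lit 3) (.e (nat_lit 163979) (nat_lit 30) (.e (nat_lit 573492) (nat_lit 15) (.e (nat_lit 81956) (nat_lit 23) (.e (nat_lit 98384) (nat_lit 32) (.e (nat_lit 475196) (nat_lit 40) .nil)))))) (.g (nat_lit 1) (.e (nat_lit 441091) (nat_lit 0) .nil) .nil))) 
(.lf (nat_lit 609128) (.g (nat_lit 2515) (.e (nat_lit 704599) (nat_lit 6) (.e (nat_lit 188455) (nat_lit 24) (.e (nat_lit 229666) (nat_lit 240) (.e (nat_lit 2651) (nat_lit 166) (.e (nat_lit 188420) (nat_lit 0) (.e (nat_lit 2058) (nat_lit 142) .nil)))))) (.g (nat_lit 1) (.e (nat_lit 442682) (nat_lit 0) .nil) .nil))))) (.nd (nat_lit 8) (.nd (nat_lit 9) 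
(.lf (nat_lit 608488) (.g (nat_lit 2252) (.e (nat_lit 704589) (nat_lit 3) (.e (nat_lit 163979) (nat_lit 30) (.e (nat_lit 573482) (nat_lit 13) (.e (nat_lit 65619) (nat_lit 10) (.e (nat_lit 344117) (nat_lit 21) (.e (nat_lit 516147) (nat_lit 9) (.e (nat_lit 426402) (nat_lit 15) (.e (nat_lit 2046) (nat_lit 142) .nil)))))))) (.g (nat_lit 1) (.e (nat_lit 440947) (nat_lit 0) .nil) .nil))) 
(.lf (nat_lit 609000) (.g (nat_lit 2201) (.e (nat_lit 704598) (nat_lit 6) (.e (nat_lit 188455) (nat_lit 24) (.e (nat_lit 229663) (nat_lit 240) (.e (nat_lit 2463) (nat_lit 157) .nil)))) (.g (nat_lit 0) (.e (nat_lit 442494) (nat_lit 0) .nil) .nil)))) (.nd (nat_lit 9) 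
(.lf (nat_lit 608744) (.g (nat_lit 3094) (.e (nat_lit 704590) (nat_lit 3) (.e (nat_lit 163962) (nat_lit 25) (.e (nat_lit 532544) (nat_lit 10) (.e (nat_lit 344130) (nat_lit 26) (.e (nat_lit 557104) (nat_lit 14) (.e (nat_lit 188160) (nat_lit 3) (.e (nat_lit 516106) (nat_lit 0) (.e (nat_lit 7936) (nat_lit 218) .nil)))))))) (.g (nat_lit 1) (.e (nat_lit 441497) (nat_lit 0) .nil) .nil))) 
(.lf (nat_lit 609256) (.g (nat_lit 2296) (.e (nat_lit 704738) (nat_lit 11) (.e (nat_lit 16412) (nat_lit 2) (.e (nat_lit 196681) (nat_lit 17) (.e (nat_lit 131117) (nat_lit 10) .nil)))) (.g (nat_lit 0) (.e (nat_lit 443818) (nat_lit 0) .nil) .nil)))))))) (.nd (nat_lit 5) (.nd (nat_lit 6) (.nd (nat_lit 7) (.nd (nat_lit 8) (.nd (nat_lit 9) 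
(.lf (nat_lit 608280) (.g (nat_lit 2340) (.e (nat_lit 704589) (nat_lit 3) (.e (nat_lit 163976) (nat_lit 30) (.e (nat_lit 573491) (nat_lit 15) (.e (nat_lit 81951) (nat_lit 22) (.e (nat_lit 90167) (nat_lit 13) (.e (nat_lit 172138) (nat_lit 15) (.e (nat_lit 2059) (nat_lit 142) .nil))))))) (.g (nat_lit 1) (.e (nat_lit 440627) (nat_lit 0) .nil) .nil))) 
(.lf (nat_lit 608792) (.g (nat_lit 2731) (.e (nat_lit 704592) (nat_lit 4) (.e (nat_lit 172126) (nat_lit 14) (.e (nat_lit 491571) (nat_lit 13) (.e (nat_lit 393292) (nat_lit 26) (.e (nat_lit 475196) (nat_lit 40) .nil))))) (.g (nat_lit 1) (.e (nat_lit 441851) (nat_lit 0) .nil) .nil)))) (.nd (nat_lit 9) 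
(.lf (nat_lit 608536) (.g (nat_lit 2190) (.e (nat_lit 704589) (nat_lit 3) (.e (nat_lit 163979) (nat_lit 30) (.e (nat_lit 573491) (nat_lit 15) (.e (nat_lit 81954) (nat_lit 23) (.e (nat_lit 98356) (nat_lit 26) (.e (nat_lit 426360) (nat_lit 15) (.e (nat_lit 2064) (nat_lit 142) .nil))))))) (.g (nat_lit 1) (.e (nat_lit 441002) (nat_lit 0) .nil) .nil))) 
(.lf (nat_lit 609048) (.g (nat_lit 1086) (.e (nat_lit 704599) (nat_lit 6) (.e (nat_lit 188440) (nat_lit 20) (.e (nat_lit 3409) (nat_lit 212) (.e (nat_lit 655380) (nat_lit 6) (.e (nat_lit 188418) (nat_lit 0) (.e (nat_lit 2056) (nat_lit 142) .nil)))))) (.g (nat_lit 1) (.e (nat_lit 442550) (nat_lit 0) .nil) .nil))))) (.nd (nat_lit 8) (.nd (nat_lit 9) 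
(.lf (nat_lit 608408) (.g (nat_lit 2115) (.e (nat_lit 704589) (nat_lit 3) (.e (nat_lit 163978) (nat_lit 30) (.e (nat_lit 573485) (nat_lit 13) (.e (nat_lit 65619) (nat_lit 10) (.e (nat_lit 344117) (nat_lit 21) (.e (nat_lit 516147) (nat_lit 9) (.e (nat_lit 426420) (nat_lit 15) (.e (nat_lit 2056) (nat_lit 142) .nil)))))))) (.g (nat_lit 1) (.e (nat_lit 440861) (nat_lit 0) .nil) .nil))) 
(.lf (nat_lit 608920) (.g (nat_lit 2604) (.e (nat_lit 704598) (nat_lit 6) (.e (nat_lit 188434) (nat_lit 20) (.e (nat_lit 3409) (nat_lit 212) (.e (nat_lit 655378) (nat_lit 4) (.e (nat_lit 172119) (nat_lit 12) (.e (nat_lit 475199) (nat_lit 40) .nil)))))) (.g (nat_lit 1) (.e (nat_lit 442387) (nat_lit 0) .nil) .nil)))) (.nd (nat_lit 9) 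
(.lf (nat_lit 608664) (.g (nat_lit 3492) (.e (nat_lit 704589) (nat_lit 3) (.e (nat_lit 163979) (nat_lit 30) (.e (nat_lit 573493) (nat_lit 15) (.e (nat_lit 81956) (nat_lit 23) (.e (nat_lit 98355) (nat_lit 26) (.e (nat_lit 426382) (nat_lit 15) (.e (nat_lit 2059) (nat_lit 142) .nil))))))) (.g (nat_lit 1) (.e (nat_lit 441351) (nat_lit 0) .nil) .nil))) 
(.lf (nat_lit 609176) (.g (nat_lit 2066) (.e (nat_lit 704629) (nat_lit 9) (.e (nat_lit 411) (nat_lit 32) (.e (nat_lit 426140) (nat_lit 3) (.e (nat_lit 204869) (nat_lit 29) (.e (nat_lit 360473) (nat_lit 8) .nil))))) (.g (nat_lit 0) (.e (nat_lit 443249) (nat_lit 0) .nil) .nil)))))) (.nd (nat_lit 7) (.nd (nat_lit 8) (.nd (nat_lit 9) 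
(.lf (nat_lit 608344) (.g (nat_lit 3895) (.e (nat_lit 704589) (nat_lit 3) (.e (nat_lit 163976) (nat_lit 30) (.e (nat_lit 573492) (nat_lit 15) (.e (nat_lit 81956) (nat_lit 23) (.e (nat_lit 98356) (nat_lit 26) (.e (nat_lit 426374) (nat_lit 15) (.e (nat_lit 2056) (nat_lit 142) .nil))))))) (.g (nat_lit 1) (.e (nat_lit 440784) (nat_lit 0) .nil) .nil))) 
(.lf (nat_lit 608856) (.g (nat_lit 2236) (.e (nat_lit 704597) (nat_lit 6) (.e (nat_lit 188444) (nat_lit 21) (.e (nat_lit 164347) (nat_lit 240) (.e (nat_lit 2648) (nat_lit 166) (.e (nat_lit 188417) (nat_lit 0) (.e (nat_lit 2147) (nat_lit 142) .nil)))))) (.g (nat_lit 1) (.e (nat_lit 442266) (nat_lit 0) .nil) .nil)))) (.nd (nat_lit 9) 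
(.lf (nat_lit 608600) (.g (nat_lit 3669) (.e (nat_lit 704589) (nat_lit 3) (.e (nat_lit 163979) (nat_lit 30) (.e (nat_lit 573492) (nat_lit 15) (.e (nat_lit 81956) (nat_lit 23) (.e (nat_lit 98356) (nat_lit 26) (.e (nat_lit 426363) (nat_lit 15) (.e (nat_lit 2061) (nat_lit 142) .nil))))))) (.g (nat_lit 1) (.e (nat_lit 441075) (nat_lit 0) .nil) .nil))) 
(.lf (nat_lit 609112) (.g (nat_lit 2118) (.e (nat_lit 704599) (nat_lit 6) (.e (nat_lit 188455) (nat_lit 24) (.e (nat_lit 229663) (nat_lit 240) (.e (nat_lit 2621) (nat_lit 164) .nil)))) (.g (nat_lit 0) (.e (nat_lit 442653) (nat_lit 0) .nil) .nil))))) (.nd (nat_lit 8) (.nd (nat_lit 9) 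
(.lf (nat_lit 608472) (.g (nat_lit 3602) (.e (nat_lit 704589) (nat_lit 3) (.e (nat_lit 163979) (nat_lit 30) (.e (nat_lit 573482) (nat_lit 13) (.e (nat_lit 65619) (nat_lit 10) (.e (nat_lit 344117) (nat_lit 21) (.e (nat_lit 516144) (nat_lit 9) (.e (nat_lit 426393) (nat_lit 15) (.e (nat_lit 2057) (nat_lit 142) .nil)))))))) (.g (nat_lit 1) (.e (nat_lit 440931) (nat_lit 0) .nil) .nil))) 
(.lf (nat_lit 608984) (.g (nat_lit 2082) (.e (nat_lit 704598) (nat_lit 6) (.e (nat_lit 188453) (nat_lit 24) (.e (nat_lit 229678) (nat_lit 244) (.e (nat_lit 163908) (nat_lit 12) (.e (nat_lit 426312) (nat_lit 12) .nil))))) (.g (nat_lit 0) (.e (nat_lit 442477) (nat_lit 0) .nil) .nil)))) (.nd (nat_lit 9) 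
(.lf (nat_lit 608728) (.g (nat_lit 4297) (.e (nat_lit 704589) (nat_lit 3) (.e (nat_lit 163979) (nat_lit 30) (.e (nat_lit 573493) (nat_lit 15) (.e (nat_lit 81956) (nat_lit 23) (.e (nat_lit 98384) (nat_lit 32) (.e (nat_lit 475195) (nat_lit 40) .nil)))))) (.g (nat_lit 1) (.e (nat_lit 441415) (nat_lit 0) .nil) .nil))) 
(.lf (nat_lit 609240) (.g (nat_lit 2895) (.e (nat_lit 704737) (nat_lit 11) (.e (nat_lit 16463) (nat_lit 13) (.e (nat_lit 483345) (nat_lit 17) (.e (nat_lit 6724) (nat_lit 362) (.e (nat_lit 180271) (nat_lit 26) .nil))))) (.g (nat_lit 1) (.e (nat_lit 443755) (nat_lit 0) .nil) .nil))))))) (.nd (nat_lit 6) (.nd (nat_lit 7) (.nd (nat_lit 8) (.nd (nat_lit 9) 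
(.lf (nat_lit 608312) (.g (nat_lit 1382) (.e (nat_lit 704589) (nat_lit 3) (.e (nat_lit 163976) (nat_lit 30) (.e (nat_lit 573491) (nat_lit 15) (.e (nat_lit 81955) (nat_lit 23) (.e (nat_lit 98383) (nat_lit 32) .nil))))) (.g (nat_lit 0) (.e (nat_lit 440659) (nat_lit 0) .nil) .nil))) 
(.lf (nat_lit 608824) (.g (nat_lit 2027) (.e (nat_lit 704595) (nat_lit 5) (.e (nat_lit 180278) (nat_lit 32) (.e (nat_lit 1426) (nat_lit 108) (.e (nat_lit 336443) (nat_lit 32) (.e (nat_lit 466949) (nat_lit 0) .nil))))) (.g (nat_lit 0) (.e (nat_lit 442141) (nat_lit 0) .nil) .nil)))) (.nd (nat_lit 9) 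
(.lf (nat_lit 608568) (.g (nat_lit 1235) (.e (nat_lit 704589) (nat_lit 3) (.e (nat_lit 163979) (nat_lit 30) (.e (nat_lit 573491) (nat_lit 15) (.e (nat_lit 81956) (nat_lit 23) .nil)))) (.g (nat_lit 0) (.e (nat_lit 441034) (nat_lit 0) .nil) .nil))) 
(.lf (nat_lit 609080) (.g (nat_lit 1248) (.e (nat_lit 704599) (nat_lit 6) (.e (nat_lit 188446) (nat_lit 21) (.e (nat_lit 164348) (nat_lit 240) (.e (nat_lit 2648) (nat_lit 166) .nil)))) (.g (nat_lit 0) (.e (nat_lit 442591) (nat_lit 0) .nil) .nil))))) (.nd (nat_lit 8) (.nd (nat_lit 9) 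
(.lf (nat_lit 608440) (.g (nat_lit 5064) (.e (nat_lit 704589) (nat_lit 3) (.e (nat_lit 163979) (nat_lit 30) (.e (nat_lit 573482) (nat_lit 13) (.e (nat_lit 65598) (nat_lit 9) (.e (nat_lit 336013) (nat_lit 2) (.e (nat_lit 90169) (nat_lit 13) (.e (nat_lit 172133) (nat_lit 15) (.e (nat_lit 2059) (nat_lit 142) .nil)))))))) (.g (nat_lit 1) (.e (nat_lit 440899) (nat_lit 0) .nil) .nil))) 
(.lf (nat_lit 608952) (.g (nat_lit 1669) (.e (nat_lit 704598) (nat_lit 6) (.e (nat_lit 188446) (nat_lit 21) (.e (nat_lit 164348) (nat_lit 240) (.e (nat_lit 2619) (nat_lit 164) (.e (nat_lit 172118) (nat_lit 12) .nil))))) (.g (nat_lit 0) (.e (nat_lit 442425) (nat_lit 0) .nil) .nil)))) (.nd (nat_lit 9) 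
(.lf (nat_lit 608696) (.g (nat_lit 4503) (.e (nat_lit 704589) (nat_lit 3) (.e (nat_lit 163979) (nat_lit 30) (.e (nat_lit 573493) (nat_lit 15) (.e (nat_lit 81956) (nat_lit 23) (.e (nat_lit 98356) (nat_lit 26) (.e (nat_lit 426376) (nat_lit 15) (.e (nat_lit 2057) (nat_lit 142) .nil))))))) (.g (nat_lit 1) (.e (nat_lit 441383) (nat_lit 0) .nil) .nil))) 
(.lf (nat_lit 609208) (.g (nat_lit 803) (.e (nat_lit 704734) (nat_lit 11) (.e (nat_lit 16436) (nat_lit 9) (.e (nat_lit 426555) (nat_lit 32) (.e (nat_lit 376859) (nat_lit 21) .nil)))) (.g (nat_lit 0) (.e (nat_lit 443452) (nat_lit 0) .nil) .nil)))))) (.nd (nat_lit 7) (.nd (nat_lit 8) (.nd (nat_lit 9) 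
(.lf (nat_lit 608376) (.g (nat_lit 4652) (.e (nat_lit 704589) (nat_lit 3) (.e (nat_lit 163978) (nat_lit 30) (.e (nat_lit 573485) (nat_lit 13) (.e (nat_lit 65604) (nat_lit 9) (.e (nat_lit 336013) (nat_lit 2) (.e (nat_lit 90170) (nat_lit 13) (.e (nat_lit 172137) (nat_lit 15) (.e (nat_lit 2058) (nat_lit 142) .nil)))))))) (.g (nat_lit 1) (.e (nat_lit 440826) (nat_lit 0) .nil) .nil))) 
(.lf (nat_lit 608888) (.g (nat_lit 982) (.e (nat_lit 704597) (nat_lit 6) (.e (nat_lit 188453) (nat_lit 24) (.e (nat_lit 229680) (nat_lit 244) (.e (nat_lit 163919) (nat_lit 14) .nil)))) (.g (nat_lit 0) (.e (nat_lit 442344) (nat_lit 0) .nil) .nil)))) (.nd (nat_lit 9) 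
(.lf (nat_lit 608632) (.g (nat_lit 3491) (.e (nat_lit 704589) (nat_lit 3) (.e (nat_lit 163979) (nat_lit 30) (.e (nat_lit 573493) (nat_lit 15) (.e (nat_lit 81953) (nat_lit 22) (.e (nat_lit 90166) (nat_lit 13) (.e (nat_lit 172136) (nat_lit 15) (.e (nat_lit 2059) (nat_lit 142) .nil))))))) (.g (nat_lit 1) (.e (nat_lit 441301) (nat_lit 0) .nil) .nil))) 
(.lf (nat_lit 609144) (.g (nat_lit 2663) (.e (nat_lit 704599) (nat_lit 6) (.e (nat_lit 188455) (nat_lit 24) (.e (nat_lit 229678) (nat_lit 244) (.e (nat_lit 163931) (nat_lit 17) (.e (nat_lit 466947) (nat_lit 0) .nil))))) (.g (nat_lit 0) (.e (nat_lit 442705) (nat_lit 0) .nil) .nil))))) (.nd (nat_lit 8) (.nd (nat_lit 9) 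
(.lf (nat_lit 608504) (.g (nat_lit 2703) (.e (nat_lit 704589) (nat_lit 3) (.e (nat_lit 163979) (nat_lit 30) (.e (nat_lit 573485) (nat_lit 13) (.e (nat_lit 65619) (nat_lit 10) (.e (nat_lit 344117) (nat_lit 21) .nil))))) (.g (nat_lit 0) (.e (nat_lit 440963) (nat_lit 0) .nil) .nil))) 
(.lf (nat_lit 609016) (.g (nat_lit 1851) (.e (nat_lit 704598) (nat_lit 6) (.e (nat_lit 188455) (nat_lit 24) (.e (nat_lit 229664) (nat_lit 240) (.e (nat_lit 2725) (nat_lit 172) (.e (nat_lit 237619) (nat_lit 12) .nil))))) (.g (nat_lit 0) (.e (nat_lit 442513) (nat_lit 0) .nil) .nil)))) (.nd (nat_lit 9) 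
(.lf (nat_lit 608760) (.g (nat_lit 3070) (.e (nat_lit 704590) (nat_lit 3) (.e (nat_lit 163975) (nat_lit 30) (.e (nat_lit 573492) (nat_lit 15) (.e (nat_lit 81956) (nat_lit 23) (.e (nat_lit 106240) (nat_lit 32) (.e (nat_lit 475198) (nat_lit 40) .nil)))))) (.g (nat_lit 1) (.e (nat_lit 441574) (nat_lit 0) .nil) .nil))) 
(.lf (nat_lit 609272) (.g (nat_lit 2663) (.e (nat_lit 704738) (nat_lit 11) (.e (nat_lit 16436) (nat_lit 9) (.e (nat_lit 426482) (nat_lit 27) (.e (nat_lit 335907) (nat_lit 0) (.e (nat_lit 7936) (nat_lit 362) .nil))))) (.g (nat_lit 0) (.e (nat_lit 443903) (nat_lit 0) .nil) .nil)))))))))) 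
(.nd (nat_lit 3) (.nd (nat_lit 4) (.nd (nat_lit 5) (.nd (nat_lit 6) (.nd (nat_lit 7) 
(.nd (nat_lit 8) (.nd (nat_lit 9) 
(.lf (nat_lit 608260) (.g (nat_lit 3815) (.e (nat_lit 704589) (nat_lit 3) (.e (nat_lit 163976) (nat_lit 30) (.e (nat_lit 573481) (nat_lit 13) (.e (nat_lit 65604) (nat_lit 9) (.e (nat_lit 336013) (nat_lit 2) (.e (nat_lit 90170) (nat_lit 13) (.e (nat_lit 172137) (nat_lit 15) (.e (nat_lit 2058) (nat_lit 142) .nil)))))))) (.g (nat_lit 1) (.e (nat_lit 440603) (nat_lit 0) .nil) .nil))) 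
(.lf (nat_lit 608772) (.g (nat_lit 3285) (.e (nat_lit 704592) (nat_lit 4) (.e (nat_lit 172125) (nat_lit 14) (.e (nat_lit 491571) (nat_lit 13) (.e (nat_lit 393291) (nat_lit 26) (.e (nat_lit 475199) (nat_lit 40) .nil))))) (.g (nat_lit 0) (.e (nat_lit 441666) (nat_lit 0) .nil) .nil)))) (.nd (nat_lit 9) 
(.lf (nat_lit 608516) (.g (nat_lit 2538) (.e (nat_lit 704589) (nat_lit 3) (.e (nat_lit 163979) (nat_lit 30) (.e (nat_lit 573491) (nat_lit 15) (.e (nat_lit 81951) (nat_lit 22) (.e (nat_lit 90169) (nat_lit 13) .nil))))) (.g (nat_lit 0) (.e (nat_lit 440981) (nat_lit 0) .nil) .nil))) 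
(.lf (nat_lit 609028) (.g (nat_lit 2098) (.e (nat_lit 704598) (nat_lit 6) (.e (nat_lit 188455) (nat_lit 24) (.e (nat_lit 229678) (nat_lit 244) (.e (nat_lit 163905) (nat_lit 12) .nil)))) (.g (nat_lit 0) (.e (nat_lit 442525) (nat_lit 0) .nil) .nil))))) (.nd (nat_lit 8) (.nd (nat_lit 9) 
(.lf (nat_lit 608388) (.g (nat_lit 3182) (.e (nat_lit 704589) (nat_lit 3) (.e (nat_lit 163978) (nat_lit 30) (.e (nat_lit 573485) (nat_lit 13) (.e (nat_lit 65619) (nat_lit 10) (.e (nat_lit 344117) (nat_lit 21) (.e (nat_lit 516144) (nat_lit 9) (.e (nat_lit 426379) (nat_lit 15) (.e (nat_lit 2056) (nat_lit 142) .nil)))))))) (.g (nat_lit 1) (.e (nat_lit 440841) (nat_lit 0) .nil) .nil))) 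
(.lf (nat_lit 608900) (.g (nat_lit 2146) (.e (nat_lit 704598) (nat_lit 6) (.e (nat_lit 188427) (nat_lit 20) (.e (nat_lit 3402) (nat_lit 211) (.e (nat_lit 647183) (nat_lit 4) (.e (nat_lit 172118) (nat_lit 12) (.e (nat_lit 475199) (nat_lit 40) .nil)))))) (.g (nat_lit 1) (.e (nat_lit 442367) (nat_lit 0) .nil) .nil)))) (.nd (nat_lit 9) 
(.lf (nat_lit 608644) (.g (nat_lit 4128) (.e (nat_lit 704589) (nat_lit 3) (.e (nat_lit 163979) (nat_lit 30) (.e (nat_lit 573493) (nat_lit 15) (.e (nat_lit 81954) (nat_lit 23) (.e (nat_lit 98359) (nat_lit 26) (.e (nat_lit 426412) (nat_lit 15) (.e (nat_lit 2056) (nat_lit 142) .nil))))))) (.g (nat_lit 1) (.e (nat_lit 441321) (nat_lit 0) .nil) .nil))) 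
(.lf (nat_lit 609156) (.g (nat_lit 3960) (.e (nat_lit 704627) (nat_lit 9) (.e (nat_lit 452) (nat_lit 33) (.e (nat_lit 434231) (nat_lit 23) (.e (nat_lit 532549) (nat_lit 12) (.e (nat_lit 360473) (nat_lit 8) (.e (nat_lit 557091) (nat_lit 12) (.e (nat_lit 164022) (nat_lit 46) .nil))))))) (.g (nat_lit 1) (.e (nat_lit 443012) (nat_lit 0) .nil) .nil)))))) 
(.nd (nat_lit 7) (.nd (nat_lit 8) (.nd (nat_lit 9) 
(.lf (nat_lit 608324) (.g (nat_lit 2750) (.e (nat_lit 704589) (nat_lit 3) (.e (nat_lit 163976) (nat_lit 30) (.e (nat_lit 573492) (nat_lit 15) (.e (nat_lit 81956) (nat_lit 23) (.e (nat_lit 98355) (nat_lit 26) (.e (nat_lit 426382) (nat_lit 15) (.e (nat_lit 2059) (nat_lit 142) .nil))))))) (.g (nat_lit 1) (.e (nat_lit 440764) (nat_lit 0) .nil) .nil))) 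
(.lf (nat_lit 608836) (.g (nat_lit 2087) (.e (nat_lit 704595) (nat_lit 5) (.e (nat_lit 180283) (nat_lit 45) (.e (nat_lit 2781) (nat_lit 178) (.e (nat_lit 286771) (nat_lit 29) (.e (nat_lit 442379) (nat_lit 0) (.e (nat_lit 2059) (nat_lit 142) .nil)))))) (.g (nat_lit 1) (.e (nat_lit 442182) (nat_lit 0) .nil) .nil)))) (.nd (nat_lit 9) 
(.lf (nat_lit 608580) (.g (nat_lit 2771) (.e (nat_lit 704589) (nat_lit 3) (.e (nat_lit 163979) (nat_lit 30) (.e (nat_lit 573492) (nat_lit 15) (.e (nat_lit 81956) (nat_lit 23) (.e (nat_lit 98355) (nat_lit 26) (.e (nat_lit 426379) (nat_lit 15) (.e (nat_lit 2056) (nat_lit 142) .nil))))))) (.g (nat_lit 1) (.e (nat_lit 441055) (nat_lit 0) .nil) .nil))) 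
(.lf (nat_lit 609092) (.g (nat_lit 1606) (.e (nat_lit 704599) (nat_lit 6) (.e (nat_lit 188453) (nat_lit 24) (.e (nat_lit 229663) (nat_lit 240) (.e (nat_lit 2725) (nat_lit 172) .nil)))) (.g (nat_lit 0) (.e (nat_lit 442617) (nat_lit 0) .nil) .nil))))) (.nd (nat_lit 8) (.nd (nat_lit 9) 
(.lf (nat_lit 608452) (.g (nat_lit 1996) (.e (nat_lit 704589) (nat_lit 3) (.e (nat_lit 163979) (nat_lit 30) (.e (nat_lit 573482) (nat_lit 13) (.e (nat_lit 65604) (nat_lit 9) (.e (nat_lit 343808) (nat_lit 3) .nil))))) (.g (nat_lit 0) (.e (nat_lit 440911) (nat_lit 0) .nil) .nil))) 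
(.lf (nat_lit 608964) (.g (nat_lit 1053) (.e (nat_lit 704598) (nat_lit 6) (.e (nat_lit 188452) (nat_lit 23) (.e (nat_lit 204829) (nat_lit 18) .nil))) (.g (nat_lit 0) (.e (nat_lit 442445) (nat_lit 0) .nil) .nil)))) (.nd (nat_lit 9) 
(.lf (nat_lit 608708) (.g (nat_lit 2455) (.e (nat_lit 704589) (nat_lit 3) (.e (nat_lit 163979) (nat_lit 30) (.e (nat_lit 573493) (nat_lit 15) (.e (nat_lit 81956) (nat_lit 23) (.e (nat_lit 98359) (nat_lit 26) .nil))))) (.g (nat_lit 0) (.e (nat_lit 441395) (nat_lit 0) .nil) .nil))) 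
(.lf (nat_lit 609220) (.g (nat_lit 2791) (.e (nat_lit 704736) (nat_lit 11) (.e (nat_lit 16425) (nat_lit 7) (.e (nat_lit 409648) (nat_lit 18) (.e (nat_lit 303137) (nat_lit 10) (.e (nat_lit 434275) (nat_lit 39) (.e (nat_lit 663580) (nat_lit 9) (.e (nat_lit 2478) (nat_lit 157) (.e (nat_lit 7936) (nat_lit 218) .nil)))))))) (.g (nat_lit 1) (.e (nat_lit 443524) (nat_lit 0) .nil) .nil))))))) 
(.nd (nat_lit 6) (.nd (nat_lit 7) (.nd (nat_lit 8) (.nd (nat_lit 9) 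
(.lf (nat_lit 608292) (.g (nat_lit 2455) (.e (nat_lit 704589) (nat_lit 3) (.e (nat_lit 163976) (nat_lit 30) (.e (nat_lit 573491) (nat_lit 15) (.e (nat_lit 81954) (nat_lit 23) (.e (nat_lit 98356) (nat_lit 26) (.e (nat_lit 426360) (nat_lit 15) (.e (nat_lit 2061) (nat_lit 142) .nil))))))) (.g (nat_lit 1) (.e (nat_lit 440639) (nat_lit 0) .nil) .nil))) 
(.lf (nat_lit 608804) (.g (nat_lit 3134) (.e (nat_lit 704593) (nat_lit 4) (.e (nat_lit 172124) (nat_lit 14) (.e (nat_lit 491571) (nat_lit 13) (.e (nat_lit 393291) (nat_lit 26) (.e (nat_lit 475199) (nat_lit 40) .nil))))) (.g (nat_lit 0) (.e (nat_lit 441914) (nat_lit 0) .nil) .nil)))) (.nd (nat_lit 9) 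
(.lf (nat_lit 608548) (.g (nat_lit 3620) (.e (nat_lit 704589) (nat_lit 3) (.e (nat_lit 163979) (nat_lit 30) (.e (nat_lit 573491) (nat_lit 15) (.e (nat_lit 81954) (nat_lit 23) (.e (nat_lit 98356) (nat_lit 26) (.e (nat_lit 426375) (nat_lit 15) (.e (nat_lit 2057) (nat_lit 142) .nil))))))) (.g (nat_lit 1) (.e (nat_lit 441014) (nat_lit 0) .nil) .nil))) 
(.lf (nat_lit 609060) (.g (nat_lit 863) (.e (nat_lit 704599) (nat_lit 6) (.e (nat_lit 188445) (nat_lit 21) (.e (nat_lit 164346) (nat_lit 240) (.e (nat_lit 2648) (nat_lit 166) .nil)))) (.g (nat_lit 0) (.e (nat_lit 442567) (nat_lit 0) .nil) .nil))))) (.nd (nat_lit 8) (.nd (nat_lit 9) 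
(.lf (nat_lit 608420) (.g (nat_lit 1800) (.e (nat_lit 704589) (nat_lit 3) (.e (nat_lit 163978) (nat_lit 30) (.e (nat_lit 573490) (nat_lit 15) (.e (nat_lit 81953) (nat_lit 22) .nil)))) (.g (nat_lit 0) (.e (nat_lit 440873) (nat_lit 0) .nil) .nil))) 
(.lf (nat_lit 608932) (.g (nat_lit 1722) (.e (nat_lit 704598) (nat_lit 6) (.e (nat_lit 188441) (nat_lit 20) (.e (nat_lit 3408) (nat_lit 212) (.e (nat_lit 655378) (nat_lit 4) (.e (nat_lit 172118) (nat_lit 12) .nil))))) (.g (nat_lit 0) (.e (nat_lit 442400) (nat_lit 0) .nil) .nil)))) (.nd (nat_lit 9) 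
(.lf (nat_lit 608676) (.g (nat_lit 3255) (.e (nat_lit 704589) (nat_lit 3) (.e (nat_lit 163979) (nat_lit 30) (.e (nat_lit 573493) (nat_lit 15) (.e (nat_lit 81956) (nat_lit 23) (.e (nat_lit 98356) (nat_lit 26) (.e (nat_lit 426360) (nat_lit 15) (.e (nat_lit 2046) (nat_lit 142) .nil))))))) (.g (nat_lit 1) (.e (nat_lit 441363) (nat_lit 0) .nil) .nil))) 
(.lf (nat_lit 609188) (.g (nat_lit 1342) (.e (nat_lit 704731) (nat_lit 11) (.e (nat_lit 16466) (nat_lit 13) (.e (nat_lit 483393) (nat_lit 23) (.e (nat_lit 335988) (nat_lit 1) .nil)))) (.g (nat_lit 0) (.e (nat_lit 443380) (nat_lit 0) .nil) .nil)))))) (.nd (nat_lit 7) (.nd (nat_lit 8) (.nd (nat_lit 9) 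
(.lf (nat_lit 608356) (.g (nat_lit 3588) (.e (nat_lit 704589) (nat_lit 3) (.e (nat_lit 163976) (nat_lit 30) (.e (nat_lit 573492) (nat_lit 15) (.e (nat_lit 81956) (nat_lit 23) (.e (nat_lit 98359) (nat_lit 26) (.e (nat_lit 426414) (nat_lit 15) (.e (nat_lit 2059) (nat_lit 142) .nil))))))) (.g (nat_lit 1) (.e (nat_lit 440796) (nat_lit 0) .nil) .nil))) 
(.lf (nat_lit 608868) (.g (nat_lit 1248) (.e (nat_lit 704597) (nat_lit 6) (.e (nat_lit 188446) (nat_lit 21) (.e (nat_lit 164348) (nat_lit 240) (.e (nat_lit 2650) (nat_lit 166) .nil)))) (.g (nat_lit 0) (.e (nat_lit 442286) (nat_lit 0) .nil) .nil)))) (.nd (nat_lit 9) 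
(.lf (nat_lit 608612) (.g (nat_lit 5128) (.e (nat_lit 704589) (nat_lit 3) (.e (nat_lit 163979) (nat_lit 30) (.e (nat_lit 573492) (nat_lit 15) (.e (nat_lit 81956) (nat_lit 23) (.e (nat_lit 98363) (nat_lit 26) .nil))))) (.g (nat_lit 0) (.e (nat_lit 441087) (nat_lit 0) .nil) .nil))) 
(.lf (nat_lit 609124) (.g (nat_lit 2647) (.e (nat_lit 704599) (nat_lit 6) (.e (nat_lit 188455) (nat_lit 24) (.e (nat_lit 229665) (nat_lit 240) (.e (nat_lit 2651) (nat_lit 166) (.e (nat_lit 188420) (nat_lit 0) (.e (nat_lit 2056) (nat_lit 142) .nil)))))) (.g (nat_lit 1) (.e (nat_lit 442675) (nat_lit 0) .nil) .nil))))) (.nd (nat_lit 8) (.nd (nat_lit 9) 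
(.lf (nat_lit 608484) (.g (nat_lit 3037) (.e (nat_lit 704589) (nat_lit 3) (.e (nat_lit 163979) (nat_lit 30) (.e (nat_lit 573482) (nat_lit 13) (.e (nat_lit 65619) (nat_lit 10) (.e (nat_lit 344117) (nat_lit 21) (.e (nat_lit 516147) (nat_lit 9) (.e (nat_lit 426375) (nat_lit 15) (.e (nat_lit 2057) (nat_lit 142) .nil)))))))) (.g (nat_lit 1) (.e (nat_lit 440943) (nat_lit 0) .nil) .nil))) 
(.lf (nat_lit 608996) (.g (nat_lit 1578) (.e (nat_lit 704598) (nat_lit 6) (.e (nat_lit 188454) (nat_lit 24) (.e (nat_lit 229664) (nat_lit 240) (.e (nat_lit 2651) (nat_lit 166) (.e (nat_lit 188420) (nat_lit 0) (.e (nat_lit 2057) (nat_lit 142) .nil)))))) (.g (nat_lit 1) (.e (nat_lit 442489) (nat_lit 0) .nil) .nil)))) (.nd (nat_lit 9) 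
(.lf (nat_lit 608740) (.g (nat_lit 2332) (.e (nat_lit 704590) (nat_lit 3) (.e (nat_lit 163962) (nat_lit 25) (.e (nat_lit 532543) (nat_lit 10) (.e (nat_lit 344133) (nat_lit 26) (.e (nat_lit 557105) (nat_lit 14) (.e (nat_lit 188160) (nat_lit 3) (.e (nat_lit 516106) (nat_lit 0) (.e (nat_lit 7936) (nat_lit 218) .nil)))))))) (.g (nat_lit 1) (.e (nat_lit 441493) (nat_lit 0) .nil) .nil))) 
(.lf (nat_lit 609252) (.g (nat_lit 1900) (.e (nat_lit 704737) (nat_lit 11) (.e (nat_lit 16473) (nat_lit 14) (.e (nat_lit 491526) (nat_lit 0) (.e (nat_lit 2270) (nat_lit 149) .nil)))) (.g (nat_lit 0) (.e (nat_lit 443781) (nat_lit 0) .nil) .nil)))))))) (.nd (nat_lit 5) (.nd (nat_lit 6) (.nd (nat_lit 7) (.nd (nat_lit 8) (.nd (nat_lit 9) 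
(.lf (nat_lit 608276) (.g (nat_lit 5657) (.e (nat_lit 704589) (nat_lit 3) (.e (nat_lit 163976) (nat_lit 30) (.e (nat_lit 573484) (nat_lit 13) (.e (nat_lit 65610) (nat_lit 10) (.e (nat_lit 344117) (nat_lit 21) (.e (nat_lit 516151) (nat_lit 9) (.e (nat_lit 426412) (nat_lit 15) (.e (nat_lit 2056) (nat_lit 142) .nil)))))))) (.g (nat_lit 1) (.e (nat_lit 440621) (nat_lit 0) .nil) .nil))) 
(.lf (nat_lit 608788) (.g (nat_lit 2645) (.e (nat_lit 704592) (nat_lit 4) (.e (nat_lit 172126) (nat_lit 14) (.e (nat_lit 491570) (nat_lit 13) (.e (nat_lit 393294) (nat_lit 26) (.e (nat_lit 475196) (nat_lit 40) .nil))))) (.g (nat_lit 1) (.e (nat_lit 441731) (nat_lit 0) .nil) .nil)))) (.nd (nat_lit 9) 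
(.lf (nat_lit 608532) (.g (nat_lit 2393) (.e (nat_lit 704589) (nat_lit 3) (.e (nat_lit 163979) (nat_lit 30) (.e (nat_lit 573491) (nat_lit 15) (.e (nat_lit 81954) (nat_lit 23) (.e (nat_lit 98356) (nat_lit 26) (.e (nat_lit 426360) (nat_lit 15) (.e (nat_lit 2051) (nat_lit 142) .nil))))))) (.g (nat_lit 1) (.e (nat_lit 440998) (nat_lit 0) .nil) .nil))) 
(.lf (nat_lit 609044) (.g (nat_lit 1658) (.e (nat_lit 704599) (nat_lit 6) (.e (nat_lit 188440) (nat_lit 20) (.e (nat_lit 3406) (nat_lit 212) (.e (nat_lit 655363) (nat_lit 0) (.e (nat_lit 3004) (nat_lit 186) .nil))))) (.g (nat_lit 0) (.e (nat_lit 442543) (nat_lit 0) .nil) .nil))))) (.nd (nat_lit 8) (.nd (nat_lit 9) 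
(.lf (nat_lit 608404) (.g (nat_lit 2828) (.e (nat_lit 704589) (nat_lit 3) (.e (nat_lit 163978) (nat_lit 30) (.e (nat_lit 573485) (nat_lit 13) (.e (nat_lit 65619) (nat_lit 10) (.e (nat_lit 344117) (nat_lit 21) (.e (nat_lit 516147) (nat_lit 9) (.e (nat_lit 426376) (nat_lit 15) (.e (nat_lit 2056) (nat_lit 142) .nil)))))))) (.g (nat_lit 1) (.e (nat_lit 440857) (nat_lit 0) .nil) .nil))) 
(.lf (nat_lit 608916) (.g (nat_lit 3049) (.e (nat_lit 704598) (nat_lit 6) (.e (nat_lit 188434) (nat_lit 20) (.e (nat_lit 3409) (nat_lit 212) (.e (nat_lit 655364) (nat_lit 0) (.e (nat_lit 2988) (nat_lit 186) (.e (nat_lit 442374) (nat_lit 0) (.e (nat_lit 2059) (nat_lit 142) .nil))))))) (.g (nat_lit 1) (.e (nat_lit 442383) (nat_lit 0) .nil) .nil)))) (.nd (nat_lit 9) 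
(.lf (nat_lit 608660) (.g (nat_lit 3020) (.e (nat_lit 704589) (nat_lit 3) (.e (nat_lit 163979) (nat_lit 30) (.e (nat_lit 573493) (nat_lit 15) (.e (nat_lit 81956) (nat_lit 23) (.e (nat_lit 98355) (nat_lit 26) (.e (nat_lit 426374) (nat_lit 15) (.e (nat_lit 2056) (nat_lit 142) .nil))))))) (.g (nat_lit 1) (.e (nat_lit 441347) (nat_lit 0) .nil) .nil))) 
(.lf (nat_lit 609172) (.g (nat_lit 4649) (.e (nat_lit 704629) (nat_lit 9) (.e (nat_lit 375) (nat_lit 32) (.e (nat_lit 426135) (nat_lit 3) (.e (nat_lit 204869) (nat_lit 29) (.e (nat_lit 360474) (nat_lit 8) (.e (nat_lit 557094) (nat_lit 12) (.e (nat_lit 164022) (nat_lit 46) .nil))))))) (.g (nat_lit 1) (.e (nat_lit 443122) (nat_lit 0) .nil) .nil)))))) 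
(.nd (nat_lit 7) (.nd (nat_lit 8) (.nd (nat_lit 9) 
(.lf (nat_lit 608340) (.g (nat_lit 3422) (.e (nat_lit 704589) (nat_lit 3) (.e (nat_lit 163976) (nat_lit 30) (.e (nat_lit 573492) (nat_lit 15) (.e (nat_lit 81956) (nat_lit 23) (.e (nat_lit 98356) (nat_lit 26) (.e (nat_lit 426364) (nat_lit 15) (.e (nat_lit 2056) (nat_lit 142) .nil))))))) (.g (nat_lit 1) (.e (nat_lit 440780) (nat_lit 0) .nil) .nil))) 
(.lf (nat_lit 608852) (.g (nat_lit 570) (.e (nat_lit 704597) (nat_lit 6) (.e (nat_lit 188441) (nat_lit 20) (.e (nat_lit 3406) (nat_lit 212) .nil))) (.g (nat_lit 0) (.e (nat_lit 442253) (nat_lit 0) .nil) .nil)))) (.nd (nat_lit 9) 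
(.lf (nat_lit 608596) (.g (nat_lit 3678) (.e (nat_lit 704589) (nat_lit 3) (.e (nat_lit 163979) (nat_lit 30) (.e (nat_lit 573492) (nat_lit 15) (.e (nat_lit 81956) (nat_lit 23) (.e (nat_lit 98356) (nat_lit 26) (.e (nat_lit 426361) (nat_lit 15) (.e (nat_lit 7936) (nat_lit 142) .nil))))))) (.g (nat_lit 1) (.e (nat_lit 441071) (nat_lit 0) .nil) .nil))) 
(.lf (nat_lit 609108) (.g (nat_lit 2208) (.e (nat_lit 704599) (nat_lit 6) (.e (nat_lit 188455) (nat_lit 24) (.e (nat_lit 229663) (nat_lit 240) (.e (nat_lit 2463) (nat_lit 157) .nil)))) (.g (nat_lit 0) (.e (nat_lit 442647) (nat_lit 0) .nil) .nil))))) (.nd (nat_lit 8) (.nd (nat_lit 9) 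
(.lf (nat_lit 608468) (.g (nat_lit 4115) (.e (nat_lit 704589) (nat_lit 3) (.e (nat_lit 163979) (nat_lit 30) (.e (nat_lit 573482) (nat_lit 13) (.e (nat_lit 65619) (nat_lit 10) (.e (nat_lit 344117) (nat_lit 21) (.e (nat_lit 516144) (nat_lit 9) (.e (nat_lit 426375) (nat_lit 15) (.e (nat_lit 2057) (nat_lit 142) .nil)))))))) (.g (nat_lit 1) (.e (nat_lit 440927) (nat_lit 0) .nil) .nil))) 
(.lf (nat_lit 608980) (.g (nat_lit 1308) (.e (nat_lit 704598) (nat_lit 6) (.e (nat_lit 188453) (nat_lit 24) (.e (nat_lit 229665) (nat_lit 240) (.e (nat_lit 2725) (nat_lit 172) (.e (nat_lit 237619) (nat_lit 12) .nil))))) (.g (nat_lit 0) (.e (nat_lit 442472) (nat_lit 0) .nil) .nil)))) (.nd (nat_lit 9) 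
(.lf (nat_lit 608724) (.g (nat_lit 4530) (.e (nat_lit 704589) (nat_lit 3) (.e (nat_lit 163979) (nat_lit 30) (.e (nat_lit 573493) (nat_lit 15) (.e (nat_lit 81956) (nat_lit 23) (.e (nat_lit 98365) (nat_lit 26) .nil))))) (.g (nat_lit 0) (.e (nat_lit 441411) (nat_lit 0) .nil) .nil))) 
(.lf (nat_lit 609236) (.g (nat_lit 1800) (.e (nat_lit 704737) (nat_lit 11) (.e (nat_lit 16424) (nat_lit 7) (.e (nat_lit 409645) (nat_lit 18) (.e (nat_lit 303143) (nat_lit 12) (.e (nat_lit 475216) (nat_lit 44) .nil))))) (.g (nat_lit 0) (.e (nat_lit 443672) (nat_lit 0) .nil) .nil))))))) (.nd (nat_lit 6) (.nd (nat_lit 7) (.nd (nat_lit 8) (.nd (nat_lit 9) 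
(.lf (nat_lit 608308) (.g (nat_lit 2729) (.e (nat_lit 704589) (nat_lit 3) (.e (nat_lit 163976) (nat_lit 30) (.e (nat_lit 573491) (nat_lit 15) (.e (nat_lit 81954) (nat_lit 23) (.e (nat_lit 98356) (nat_lit 26) (.e (nat_lit 426420) (nat_lit 15) (.e (nat_lit 2057) (nat_lit 142) .nil))))))) (.g (nat_lit 1) (.e (nat_lit 440655) (nat_lit 0) .nil) .nil))) 
(.lf (nat_lit 608820) (.g (nat_lit 2071) (.e (nat_lit 704595) (nat_lit 5) (.e (nat_lit 180277) (nat_lit 32) (.e (nat_lit 1660) (nat_lit 115) (.e (nat_lit 393271) (nat_lit 23) (.e (nat_lit 426405) (nat_lit 15) .nil))))) (.g (nat_lit 0) (.e (nat_lit 442126) (nat_lit 0) .nil) .nil)))) (.nd (nat_lit 9) 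
(.lf (nat_lit 608564) (.g (nat_lit 3070) (.e (nat_lit 704589) (nat_lit 3) (.e (nat_lit 163979) (nat_lit 30) (.e (nat_lit 573491) (nat_lit 15) (.e (nat_lit 81954) (nat_lit 23) (.e (nat_lit 98384) (nat_lit 32) (.e (nat_lit 475195) (nat_lit 40) .nil)))))) (.g (nat_lit 1) (.e (nat_lit 441030) (nat_lit 0) .nil) .nil))) 
(.lf (nat_lit 609076) (.g (nat_lit 2063) (.e (nat_lit 704599) (nat_lit 6) (.e (nat_lit 188446) (nat_lit 21) (.e (nat_lit 164347) (nat_lit 240) (.e (nat_lit 2648) (nat_lit 166) (.e (nat_lit 188418) (nat_lit 0) .nil))))) (.g (nat_lit 0) (.e (nat_lit 442585) (nat_lit 0) .nil) .nil))))) (.nd (nat_lit 8) (.nd (nat_lit 9) 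
(.lf (nat_lit 608436) (.g (nat_lit 2833) (.e (nat_lit 704589) (nat_lit 3) (.e (nat_lit 163979) (nat_lit 30) (.e (nat_lit 573481) (nat_lit 13) (.e (nat_lit 65610) (nat_lit 10) (.e (nat_lit 344117) (nat_lit 21) (.e (nat_lit 516151) (nat_lit 9) (.e (nat_lit 426412) (nat_lit 15) (.e (nat_lit 2057) (nat_lit 142) .nil)))))))) (.g (nat_lit 1) (.e (nat_lit 440895) (nat_lit 0) .nil) .nil))) 
(.lf (nat_lit 608948) (.g (nat_lit 1224) (.e (nat_lit 704598) (nat_lit 6) (.e (nat_lit 188446) (nat_lit 21) (.e (nat_lit 164346) (nat_lit 240) (.e (nat_lit 2648) (nat_lit 166) (.e (nat_lit 188418) (nat_lit 0) .nil))))) (.g (nat_lit 0) (.e (nat_lit 442419) (nat_lit 0) .nil) .nil)))) (.nd (nat_lit 9) 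
(.lf (nat_lit 608692) (.g (nat_lit 4588) (.e (nat_lit 704589) (nat_lit 3) (.e (nat_lit 163979) (nat_lit 30) (.e (nat_lit 573493) (nat_lit 15) (.e (nat_lit 81956) (nat_lit 23) (.e (nat_lit 98356) (nat_lit 26) (.e (nat_lit 426374) (nat_lit 15) (.e (nat_lit 2056) (nat_lit 142) .nil))))))) (.g (nat_lit 1) (.e (nat_lit 441379) (nat_lit 0) .nil) .nil))) 
(.lf (nat_lit 609204) (.g (nat_lit 1422) (.e (nat_lit 704734) (nat_lit 11) (.e (nat_lit 16436) (nat_lit 9) (.e (nat_lit 426555) (nat_lit 32) (.e (nat_lit 376857) (nat_lit 21) (.e (nat_lit 57847) (nat_lit 252) .nil))))) (.g (nat_lit 0) (.e (nat_lit 443448) (nat_lit 0) .nil) .nil)))))) (.nd (nat_lit 7) (.nd (nat_lit 8) (.nd (nat_lit 9) 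
(.lf (nat_lit 608372) (.g (nat_lit 3224) (.e (nat_lit 704589) (nat_lit 3) (.e (nat_lit 163978) (nat_lit 30) (.e (nat_lit 573485) (nat_lit 13) (.e (nat_lit 65604) (nat_lit 9) (.e (nat_lit 336013) (nat_lit 2) (.e (nat_lit 90134) (nat_lit 9) (.e (nat_lit 3071) (nat_lit 190) (.e (nat_lit 475196) (nat_lit 40) .nil)))))))) (.g (nat_lit 1) (.e (nat_lit 440822) (nat_lit 0) .nil) .nil))) 
(.lf (nat_lit 608884) (.g (nat_lit 3094) (.e (nat_lit 704597) (nat_lit 6) (.e (nat_lit 188453) (nat_lit 24) (.e (nat_lit 229663) (nat_lit 240) (.e (nat_lit 2651) (nat_lit 166) (.e (nat_lit 188417) (nat_lit 0) (.e (nat_lit 2147) (nat_lit 142) .nil)))))) (.g (nat_lit 1) (.e (nat_lit 442334) (nat_lit 0) .nil) .nil)))) (.nd (nat_lit 9) 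
(.lf (nat_lit 608628) (.g (nat_lit 4867) (.e (nat_lit 704589) (nat_lit 3) (.e (nat_lit 163979) (nat_lit 30) (.e (nat_lit 573493) (nat_lit 15) (.e (nat_lit 81951) (nat_lit 22) (.e (nat_lit 90170) (nat_lit 13) (.e (nat_lit 172138) (nat_lit 15) (.e (nat_lit 2058) (nat_lit 142) .nil))))))) (.g (nat_lit 1) (.e (nat_lit 441212) (nat_lit 0) .nil) .nil))) 
(.lf (nat_lit 609140) (.g (nat_lit 1555) (.e (nat_lit 704599) (nat_lit 6) (.e (nat_lit 188455) (nat_lit 24) (.e (nat_lit 229678) (nat_lit 244) (.e (nat_lit 163908) (nat_lit 12) .nil)))) (.g (nat_lit 0) (.e (nat_lit 442699) (nat_lit 0) .nil) .nil))))) (.nd (nat_lit 8) (.nd (nat_lit 9) 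
(.lf (nat_lit 608500) (.g (nat_lit 4284) (.e (nat_lit 704589) (nat_lit 3) (.e (nat_lit 163979) (nat_lit 30) (.e (nat_lit 573484) (nat_lit 13) (.e (nat_lit 65610) (nat_lit 10) (.e (nat_lit 344117) (nat_lit 21) .nil))))) (.g (nat_lit 0) (.e (nat_lit 440959) (nat_lit 0) .nil) .nil))) 
(.lf (nat_lit 609012) (.g (nat_lit 2054) (.e (nat_lit 704598) (nat_lit 6) (.e (nat_lit 188455) (nat_lit 24) (.e (nat_lit 229664) (nat_lit 240) (.e (nat_lit 2630) (nat_lit 164) (.e (nat_lit 172118) (nat_lit 12) .nil))))) (.g (nat_lit 0) (.e (nat_lit 442509) (nat_lit 0) .nil) .nil)))) (.nd (nat_lit 9) 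
(.lf (nat_lit 608756) (.g (nat_lit 2958) (.e (nat_lit 704590) (nat_lit 3) (.e (nat_lit 163975) (nat_lit 30) (.e (nat_lit 573491) (nat_lit 15) (.e (nat_lit 81954) (nat_lit 23) (.e (nat_lit 98385) (nat_lit 32) (.e (nat_lit 475195) (nat_lit 40) .nil)))))) (.g (nat_lit 1) (.e (nat_lit 441512) (nat_lit 0) .nil) .nil))) 
(.lf (nat_lit 609268) (.g (nat_lit 3442) (.e (nat_lit 704738) (nat_lit 11) (.e (nat_lit 16425) (nat_lit 7) (.e (nat_lit 409649) (nat_lit 18) (.e (nat_lit 303140) (nat_lit 10) (.e (nat_lit 434275) (nat_lit 39) (.e (nat_lit 663580) (nat_lit 9) (.e (nat_lit 2416) (nat_lit 157) (.e (nat_lit 3526) (nat_lit 218) .nil)))))))) (.g (nat_lit 1) (.e (nat_lit 443889) (nat_lit 0) .nil) .nil))))))))) 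
(.nd (nat_lit 4) (.nd (nat_lit 5) (.nd (nat_lit 6) (.nd (nat_lit 7) (.nd (nat_lit 8) 
(.nd (nat_lit 9) 
(.lf (nat_lit 608268) (.g (nat_lit 4738) (.e (nat_lit 704589) (nat_lit 3) (.e (nat_lit 163976) (nat_lit 30) (.e (nat_lit 573481) (nat_lit 13) (.e (nat_lit 65619) (nat_lit 10) (.e (nat_lit 344117) (nat_lit 21) (.e (nat_lit 516145) (nat_lit 9) (.e (nat_lit 426420) (nat_lit 15) (.e (nat_lit 2059) (nat_lit 142) .nil)))))))) (.g (nat_lit 1) (.e (nat_lit 440613) (nat_lit 0) .nil) .nil))) 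
(.lf (nat_lit 608780) (.g (nat_lit 1592) (.e (nat_lit 704592) (nat_lit 4) (.e (nat_lit 172126) (nat_lit 14) (.e (nat_lit 491550) (nat_lit 9) (.e (nat_lit 336372) (nat_lit 27) .nil)))) (.g (nat_lit 0) (.e (nat_lit 441699) (nat_lit 0) .nil) .nil)))) (.nd (nat_lit 9) 
(.lf (nat_lit 608524) (.g (nat_lit 2089) (.e (nat_lit 704589) (nat_lit 3) (.e (nat_lit 163979) (nat_lit 30) (.e (nat_lit 573491) (nat_lit 15) (.e (nat_lit 81954) (nat_lit 23) (.e (nat_lit 98355) (nat_lit 26) (.e (nat_lit 426393) (nat_lit 15) (.e (nat_lit 2057) (nat_lit 142) .nil))))))) (.g (nat_lit 1) (.e (nat_lit 440990) (nat_lit 0) .nil) .nil))) 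
(.lf (nat_lit 609036) (.g (nat_lit 2117) (.e (nat_lit 704598) (nat_lit 6) (.e (nat_lit 188455) (nat_lit 24) (.e (nat_lit 229678) (nat_lit 244) (.e (nat_lit 163932) (nat_lit 17) .nil)))) (.g (nat_lit 0) (.e (nat_lit 442534) (nat_lit 0) .nil) .nil))))) (.nd (nat_lit 8) (.nd (nat_lit 9) 
(.lf (nat_lit 608396) (.g (nat_lit 4448) (.e (nat_lit 704589) (nat_lit 3) (.e (nat_lit 163978) (nat_lit 30) (.e (nat_lit 573485) (nat_lit 13) (.e (nat_lit 65619) (nat_lit 10) (.e (nat_lit 344117) (nat_lit 21) (.e (nat_lit 516145) (nat_lit 9) (.e (nat_lit 426374) (nat_lit 15) (.e (nat_lit 2059) (nat_lit 142) .nil)))))))) (.g (nat_lit 1) (.e (nat_lit 440849) (nat_lit 0) .nil) .nil))) 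
(.lf (nat_lit 608908) (.g (nat_lit 2169) (.e (nat_lit 704598) (nat_lit 6) (.e (nat_lit 188431) (nat_lit 20) (.e (nat_lit 3402) (nat_lit 211) (.e (nat_lit 647183) (nat_lit 4) (.e (nat_lit 172120) (nat_lit 12) (.e (nat_lit 475197) (nat_lit 40) .nil)))))) (.g (nat_lit 1) (.e (nat_lit 442375) (nat_lit 0) .nil) .nil)))) (.nd (nat_lit 9) 
(.lf (nat_lit 608652) (.g (nat_lit 3759) (.e (nat_lit 704589) (nat_lit 3) (.e (nat_lit 163979) (nat_lit 30) (.e (nat_lit 573493) (nat_lit 15) (.e (nat_lit 81954) (nat_lit 23) (.e (nat_lit 98365) (nat_lit 26) (.e (nat_lit 426413) (nat_lit 15) (.e (nat_lit 2059) (nat_lit 142) .nil))))))) (.g (nat_lit 1) (.e (nat_lit 441329) (nat_lit 0) .nil) .nil))) 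
(.lf (nat_lit 609164) (.g (nat_lit 3113) (.e (nat_lit 704628) (nat_lit 9) (.e (nat_lit 411) (nat_lit 32) (.e (nat_lit 426140) (nat_lit 3) (.e (nat_lit 204868) (nat_lit 29) (.e (nat_lit 360473) (nat_lit 8) (.e (nat_lit 557094) (nat_lit 12) (.e (nat_lit 164022) (nat_lit 46) .nil))))))) (.g (nat_lit 1) (.e (nat_lit 443082) (nat_lit 0) .nil) .nil)))))) 
(.nd (nat_lit 7) (.nd (nat_lit 8) (.nd (nat_lit 9) 
(.lf (nat_lit 608332) (.g (nat_lit 3553) (.e (nat_lit 704589) (nat_lit 3) (.e (nat_lit 163976) (nat_lit 30) (.e (nat_lit 573492) (nat_lit 15) (.e (nat_lit 81956) (nat_lit 23) (.e (nat_lit 98356) (nat_lit 26) (.e (nat_lit 426352) (nat_lit 15) (.e (nat_lit 7936) (nat_lit 142) .nil))))))) (.g (nat_lit 1) (.e (nat_lit 440772) (nat_lit 0) .nil) .nil))) 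
(.lf (nat_lit 608844) (.g (nat_lit 1418) (.e (nat_lit 704597) (nat_lit 6) (.e (nat_lit 188431) (nat_lit 20) (.e (nat_lit 3401) (nat_lit 211) (.e (nat_lit 647185) (nat_lit 6) (.e (nat_lit 188417) (nat_lit 0) (.e (nat_lit 2147) (nat_lit 142) .nil)))))) (.g (nat_lit 1) (.e (nat_lit 442240) (nat_lit 0) .nil) .nil)))) (.nd (nat_lit 9) 
(.lf (nat_lit 608588) (.g (nat_lit 3554) (.e (nat_lit 704589) (nat_lit 3) (.e (nat_lit 163979) (nat_lit 30) (.e (nat_lit 573492) (nat_lit 15) (.e (nat_lit 81956) (nat_lit 23) (.e (nat_lit 98356) (nat_lit 26) (.e (nat_lit 426360) (nat_lit 15) (.e (nat_lit 2047) (nat_lit 142) .nil))))))) (.g (nat_lit 1) (.e (nat_lit 441063) (nat_lit 0) .nil) .nil))) 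
(.lf (nat_lit 609100) (.g (nat_lit 2205) (.e (nat_lit 704599) (nat_lit 6) (.e (nat_lit 188453) (nat_lit 24) (.e (nat_lit 229678) (nat_lit 244) (.e (nat_lit 163905) (nat_lit 12) (.e (nat_lit 426320) (nat_lit 12) .nil))))) (.g (nat_lit 0) (.e (nat_lit 442632) (nat_lit 0) .nil) .nil))))) (.nd (nat_lit 8) (.nd (nat_lit 9) 
(.lf (nat_lit 608460) (.g (nat_lit 1165) (.e (nat_lit 704589) (nat_lit 3) (.e (nat_lit 163979) (nat_lit 30) (.e (nat_lit 573482) (nat_lit 13) (.e (nat_lit 65619) (nat_lit 10) .nil)))) (.g (nat_lit 0) (.e (nat_lit 440919) (nat_lit 0) .nil) .nil))) 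
(.lf (nat_lit 608972) (.g (nat_lit 2026) (.e (nat_lit 704598) (nat_lit 6) (.e (nat_lit 188453) (nat_lit 24) (.e (nat_lit 229664) (nat_lit 240) (.e (nat_lit 2630) (nat_lit 164) (.e (nat_lit 172118) (nat_lit 12) (.e (nat_lit 475198) (nat_lit 40) .nil)))))) (.g (nat_lit 1) (.e (nat_lit 442464) (nat_lit 0) .nil) .nil)))) (.nd (nat_lit 9) 
(.lf (nat_lit 608716) (.g (nat_lit 3986) (.e (nat_lit 704589) (nat_lit 3) (.e (nat_lit 163979) (nat_lit 30) (.e (nat_lit 573493) (nat_lit 15) (.e (nat_lit 81956) (nat_lit 23) (.e (nat_lit 98360) (nat_lit 26) (.e (nat_lit 426411) (nat_lit 15) (.e (nat_lit 2057) (nat_lit 142) .nil))))))) (.g (nat_lit 1) (.e (nat_lit 441403) (nat_lit 0) .nil) .nil))) 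
(.lf (nat_lit 609228) (.g (nat_lit 943) (.e (nat_lit 704736) (nat_lit 11) (.e (nat_lit 16466) (nat_lit 13) (.e (nat_lit 483344) (nat_lit 17) .nil))) (.g (nat_lit 0) (.e (nat_lit 443619) (nat_lit 0) .nil) .nil))))))) (.nd (nat_lit 6) (.nd (nat_lit 7) (.nd (nat_lit 8) (.nd (nat_lit 9) 
(.lf (nat_lit 608300) (.g (nat_lit 2835) (.e (nat_lit 704589) (nat_lit 3) (.e (nat_lit 163976) (nat_lit 30) (.e (nat_lit 573491) (nat_lit 15) (.e (nat_lit 81954) (nat_lit 23) (.e (nat_lit 98356) (nat_lit 26) (.e (nat_lit 426375) (nat_lit 15) (.e (nat_lit 2056) (nat_lit 142) .nil))))))) (.g (nat_lit 1) (.e (nat_lit 440647) (nat_lit 0) .nil) .nil))) 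
(.lf (nat_lit 608812) (.g (nat_lit 1902) (.e (nat_lit 704595) (nat_lit 5) (.e (nat_lit 180277) (nat_lit 32) (.e (nat_lit 1425) (nat_lit 108) (.e (nat_lit 336430) (nat_lit 29) (.e (nat_lit 442379) (nat_lit 0) (.e (nat_lit 2057) (nat_lit 142) .nil)))))) (.g (nat_lit 1) (.e (nat_lit 442110) (nat_lit 0) .nil) .nil)))) (.nd (nat_lit 9) 
(.lf (nat_lit 608556) (.g (nat_lit 3295) (.e (nat_lit 704589) (nat_lit 3) (.e (nat_lit 163979) (nat_lit 30) (.e (nat_lit 573491) (nat_lit 15) (.e (nat_lit 81954) (nat_lit 23) (.e (nat_lit 98356) (nat_lit 26) (.e (nat_lit 426420) (nat_lit 15) (.e (nat_lit 2057) (nat_lit 142) .nil))))))) (.g (nat_lit 1) (.e (nat_lit 441022) (nat_lit 0) .nil) .nil))) 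
(.lf (nat_lit 609068) (.g (nat_lit 1330) (.e (nat_lit 704599) (nat_lit 6) (.e (nat_lit 188446) (nat_lit 21) (.e (nat_lit 164345) (nat_lit 240) (.e (nat_lit 2648) (nat_lit 166) (.e (nat_lit 188418) (nat_lit 0) .nil))))) (.g (nat_lit 0) (.e (nat_lit 442575) (nat_lit 0) .nil) .nil))))) (.nd (nat_lit 8) (.nd (nat_lit 9) 
(.lf (nat_lit 608428) (.g (nat_lit 3798) (.e (nat_lit 704589) (nat_lit 3) (.e (nat_lit 163978) (nat_lit 30) (.e (nat_lit 573491) (nat_lit 15) (.e (nat_lit 81952) (nat_lit 22) .nil)))) (.g (nat_lit 0) (.e (nat_lit 440882) (nat_lit 0) .nil) .nil))) 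
(.lf (nat_lit 608940) (.g (nat_lit 2083) (.e (nat_lit 704598) (nat_lit 6) (.e (nat_lit 188444) (nat_lit 21) (.e (nat_lit 164347) (nat_lit 240) (.e (nat_lit 2650) (nat_lit 166) (.e (nat_lit 188420) (nat_lit 0) .nil))))) (.g (nat_lit 0) (.e (nat_lit 442410) (nat_lit 0) .nil) .nil)))) (.nd (nat_lit 9) 
(.lf (nat_lit 608684) (.g (nat_lit 3010) (.e (nat_lit 704589) (nat_lit 3) (.e (nat_lit 163979) (nat_lit 30) (.e (nat_lit 573493) (nat_lit 15) (.e (nat_lit 81956) (nat_lit 23) (.e (nat_lit 98356) (nat_lit 26) (.e (nat_lit 426362) (nat_lit 15) (.e (nat_lit 2045) (nat_lit 142) .nil))))))) (.g (nat_lit 1) (.e (nat_lit 441371) (nat_lit 0) .nil) .nil))) 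
(.lf (nat_lit 609196) (.g (nat_lit 2722) (.e (nat_lit 704732) (nat_lit 11) (.e (nat_lit 16425) (nat_lit 7) (.e (nat_lit 409648) (nat_lit 18) (.e (nat_lit 303137) (nat_lit 10) (.e (nat_lit 434275) (nat_lit 39) (.e (nat_lit 663574) (nat_lit 9) (.e (nat_lit 2418) (nat_lit 157) (.e (nat_lit 3510) (nat_lit 218) .nil)))))))) (.g (nat_lit 1) (.e (nat_lit 443406) (nat_lit 0) .nil) .nil)))))) 
(.nd (nat_lit 7) (.nd (nat_lit 8) (.nd (nat_lit 9) 
(.lf (nat_lit 608364) (.g (nat_lit 2939) (.e (nat_lit 704589) (nat_lit 3) (.e (nat_lit 163976) (nat_lit 30) (.e (nat_lit 573492) (nat_lit 15) (.e (nat_lit 81956) (nat_lit 23) (.e (nat_lit 98385) (nat_lit 32) (.e (nat_lit 483072) (nat_lit 40) .nil)))))) (.g (nat_lit 1) (.e (nat_lit 440804) (nat_lit 0) .nil) .nil))) 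
(.lf (nat_lit 608876) (.g (nat_lit 942) (.e (nat_lit 704597) (nat_lit 6) (.e (nat_lit 188452) (nat_lit 23) (.e (nat_lit 204805) (nat_lit 0) .nil))) (.g (nat_lit 0) (.e (nat_lit 442303) (nat_lit 0) .nil) .nil)))) (.nd (nat_lit 9) 
(.lf (nat_lit 608620) (.g (nat_lit 3006) (.e (nat_lit 704589) (nat_lit 3) (.e (nat_lit 163979) (nat_lit 30) (.e (nat_lit 573492) (nat_lit 15) (.e (nat_lit 81956) (nat_lit 23) (.e (nat_lit 98385) (nat_lit 32) (.e (nat_lit 483072) (nat_lit 40) .nil)))))) (.g (nat_lit 1) (.e (nat_lit 441095) (nat_lit 0) .nil) .nil))) 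
(.lf (nat_lit 609132) (.g (nat_lit 1686) (.e (nat_lit 704599) (nat_lit 6) (.e (nat_lit 188455) (nat_lit 24) (.e (nat_lit 229677) (nat_lit 244) (.e (nat_lit 163908) (nat_lit 12) (.e (nat_lit 426312) (nat_lit 12) .nil))))) (.g (nat_lit 0) (.e (nat_lit 442689) (nat_lit 0) .nil) .nil))))) (.nd (nat_lit 8) (.nd (nat_lit 9) 
(.lf (nat_lit 608492) (.g (nat_lit 2363) (.e (nat_lit 704589) (nat_lit 3) (.e (nat_lit 163979) (nat_lit 30) (.e (nat_lit 573482) (nat_lit 13) (.e (nat_lit 65619) (nat_lit 10) (.e (nat_lit 344117) (nat_lit 21) (.e (nat_lit 516152) (nat_lit 9) (.e (nat_lit 426410) (nat_lit 15) (.e (nat_lit 2057) (nat_lit 142) .nil)))))))) (.g (nat_lit 1) (.e (nat_lit 440951) (nat_lit 0) .nil) .nil))) 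
(.lf (nat_lit 609004) (.g (nat_lit 3323) (.e (nat_lit 704598) (nat_lit 6) (.e (nat_lit 188455) (nat_lit 24) (.e (nat_lit 229663) (nat_lit 240) (.e (nat_lit 2630) (nat_lit 164) (.e (nat_lit 172119) (nat_lit 12) .nil))))) (.g (nat_lit 0) (.e (nat_lit 442501) (nat_lit 0) .nil) .nil)))) (.nd (nat_lit 9) 
(.lf (nat_lit 608748) (.g (nat_lit 306) (.e (nat_lit 704590) (nat_lit 3) (.e (nat_lit 163975) (nat_lit 30) (.e (nat_lit 573481) (nat_lit 13) .nil))) (.g (nat_lit 0) (.e (nat_lit 441503) (nat_lit 0) .nil) .nil))) 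
(.lf (nat_lit 609260) (.g (nat_lit 743) (.e (nat_lit 704738) (nat_lit 11) (.e (nat_lit 16425) (nat_lit 7) (.e (nat_lit 409615) (nat_lit 10) .nil))) (.g (nat_lit 0) (.e (nat_lit 443848) (nat_lit 0) .nil) .nil)))))))) (.nd (nat_lit 5) (.nd (nat_lit 6) (.nd (nat_lit 7) (.nd (nat_lit 8) (.nd (nat_lit 9) 
(.lf (nat_lit 608284) (.g (nat_lit 1685) (.e (nat_lit 704589) (nat_lit 3) (.e (nat_lit 163976) (nat_lit 30) (.e (nat_lit 573491) (nat_lit 15) (.e (nat_lit 81954) (nat_lit 23) (.e (nat_lit 98355) (nat_lit 26) (.e (nat_lit 426376) (nat_lit 15) (.e (nat_lit 2057) (nat_lit 142) .nil))))))) (.g (nat_lit 1) (.e (nat_lit 440631) (nat_lit 0) .nil) .nil))) 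
(.lf (nat_lit 608796) (.g (nat_lit 1991) (.e (nat_lit 704593) (nat_lit 4) (.e (nat_lit 172119) (nat_lit 12) (.e (nat_lit 475211) (nat_lit 41) (.e (nat_lit 712750) (nat_lit 29) (.e (nat_lit 442374) (nat_lit 0) (.e (nat_lit 2059) (nat_lit 142) .nil)))))) (.g (nat_lit 1) (.e (nat_lit 441877) (nat_lit 0) .nil) .nil)))) (.nd (nat_lit 9) 
(.lf (nat_lit 608540) (.g (nat_lit 3227) (.e (nat_lit 704589) (nat_lit 3) (.e (nat_lit 163979) (nat_lit 30) (.e (nat_lit 573491) (nat_lit 15) (.e (nat_lit 81954) (nat_lit 23) (.e (nat_lit 98356) (nat_lit 26) (.e (nat_lit 426364) (nat_lit 15) (.e (nat_lit 2056) (nat_lit 142) .nil))))))) (.g (nat_lit 1) (.e (nat_lit 441006) (nat_lit 0) .nil) .nil))) 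
(.lf (nat_lit 609052) (.g (nat_lit 1036) (.e (nat_lit 704599) (nat_lit 6) (.e (nat_lit 188444) (nat_lit 21) (.e (nat_lit 164345) (nat_lit 240) (.e (nat_lit 2648) (nat_lit 166) (.e (nat_lit 188420) (nat_lit 0) .nil))))) (.g (nat_lit 0) (.e (nat_lit 442559) (nat_lit 0) .nil) .nil))))) (.nd (nat_lit 8) (.nd (nat_lit 9) 
(.lf (nat_lit 608412) (.g (nat_lit 2320) (.e (nat_lit 704589) (nat_lit 3) (.e (nat_lit 163978) (nat_lit 30) (.e (nat_lit 573485) (nat_lit 13) (.e (nat_lit 65619) (nat_lit 10) (.e (nat_lit 344117) (nat_lit 21) (.e (nat_lit 516152) (nat_lit 9) (.e (nat_lit 426410) (nat_lit 15) (.e (nat_lit 2057) (nat_lit 142) .nil)))))))) (.g (nat_lit 1) (.e (nat_lit 440865) (nat_lit 0) .nil) .nil))) 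
(.lf (nat_lit 608924) (.g (nat_lit 2068) (.e (nat_lit 704598) (nat_lit 6) (.e (nat_lit 188434) (nat_lit 20) (.e (nat_lit 3409) (nat_lit 212) (.e (nat_lit 655380) (nat_lit 6) (.e (nat_lit 188418) (nat_lit 0) (.e (nat_lit 2059) (nat_lit 142) .nil)))))) (.g (nat_lit 1) (.e (nat_lit 442391) (nat_lit 0) .nil) .nil)))) (.nd (nat_lit 9) 
(.lf (nat_lit 608668) (.g (nat_lit 3262) (.e (nat_lit 704589) (nat_lit 3) (.e (nat_lit 163979) (nat_lit 30) (.e (nat_lit 573493) (nat_lit 15) (.e (nat_lit 81956) (nat_lit 23) (.e (nat_lit 98355) (nat_lit 26) (.e (nat_lit 426420) (nat_lit 15) (.e (nat_lit 2056) (nat_lit 142) .nil))))))) (.g (nat_lit 1) (.e (nat_lit 441355) (nat_lit 0) .nil) .nil))) 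
(.lf (nat_lit 609180) (.g (nat_lit 2532) (.e (nat_lit 704727) (nat_lit 10) (.e (nat_lit 8226) (nat_lit 15) (.e (nat_lit 532513) (nat_lit 3) (.e (nat_lit 114714) (nat_lit 22) (.e (nat_lit 90172) (nat_lit 14) (.e (nat_lit 188160) (nat_lit 3) (.e (nat_lit 516106) (nat_lit 0) (.e (nat_lit 3537) (nat_lit 218) .nil)))))))) (.g (nat_lit 1) (.e (nat_lit 443351) (nat_lit 0) .nil) .nil)))))) 
(.nd (nat_lit 7) (.nd (nat_lit 8) (.nd (nat_lit 9) 
(.lf (nat_lit 608348) (.g (nat_lit 3778) (.e (nat_lit 704589) (nat_lit 3) (.e (nat_lit 163976) (nat_lit 30) (.e (nat_lit 573492) (nat_lit 15) (.e (nat_lit 81956) (nat_lit 23) (.e (nat_lit 98356) (nat_lit 26) (.e (nat_lit 426376) (nat_lit 15) (.e (nat_lit 2057) (nat_lit 142) .nil))))))) (.g (nat_lit 1) (.e (nat_lit 440788) (nat_lit 0) .nil) .nil))) 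
(.lf (nat_lit 608860) (.g (nat_lit 1887) (.e (nat_lit 704597) (nat_lit 6) (.e (nat_lit 188444) (nat_lit 21) (.e (nat_lit 164348) (nat_lit 240) (.e (nat_lit 2650) (nat_lit 166) (.e (nat_lit 188416) (nat_lit 0) .nil))))) (.g (nat_lit 0) (.e (nat_lit 442272) (nat_lit 0) .nil) .nil)))) (.nd (nat_lit 9) 
(.lf (nat_lit 608604) (.g (nat_lit 5008) (.e (nat_lit 704589) (nat_lit 3) (.e (nat_lit 163979) (nat_lit 30) (.e (nat_lit 573492) (nat_lit 15) (.e (nat_lit 81956) (nat_lit 23) (.e (nat_lit 98356) (nat_lit 26) (.e (nat_lit 426374) (nat_lit 15) (.e (nat_lit 2059) (nat_lit 142) .nil))))))) (.g (nat_lit 1) (.e (nat_lit 441079) (nat_lit 0) .nil) .nil))) 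
(.lf (nat_lit 609116) (.g (nat_lit 3393) (.e (nat_lit 704599) (nat_lit 6) (.e (nat_lit 188455) (nat_lit 24) (.e (nat_lit 229663) (nat_lit 240) (.e (nat_lit 2651) (nat_lit 166) (.e (nat_lit 188420) (nat_lit 0) (.e (nat_lit 2058) (nat_lit 142) .nil)))))) (.g (nat_lit 1) (.e (nat_lit 442660) (nat_lit 0) .nil) .nil))))) (.nd (nat_lit 8) (.nd (nat_lit 9) 
(.lf (nat_lit 608476) (.g (nat_lit 2417) (.e (nat_lit 704589) (nat_lit 3) (.e (nat_lit 163979) (nat_lit 30) (.e (nat_lit 573482) (nat_lit 13) (.e (nat_lit 65619) (nat_lit 10) (.e (nat_lit 344117) (nat_lit 21) (.e (nat_lit 516144) (nat_lit 9) (.e (nat_lit 426402) (nat_lit 15) (.e (nat_lit 2045) (nat_lit 142) .nil)))))))) (.g (nat_lit 1) (.e (nat_lit 440935) (nat_lit 0) .nil) .nil))) 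
(.lf (nat_lit 608988) (.g (nat_lit 1935) (.e (nat_lit 704598) (nat_lit 6) (.e (nat_lit 188453) (nat_lit 24) (.e (nat_lit 229680) (nat_lit 244) (.e (nat_lit 163902) (nat_lit 12) (.e (nat_lit 426319) (nat_lit 12) .nil))))) (.g (nat_lit 0) (.e (nat_lit 442481) (nat_lit 0) .nil) .nil)))) (.nd (nat_lit 9) 
(.lf (nat_lit 608732) (.g (nat_lit 3933) (.e (nat_lit 704589) (nat_lit 3) (.e (nat_lit 163979) (nat_lit 30) (.e (nat_lit 573493) (nat_lit 15) (.e (nat_lit 81956) (nat_lit 23) (.e (nat_lit 98385) (nat_lit 32) (.e (nat_lit 483072) (nat_lit 40) .nil)))))) (.g (nat_lit 1) (.e (nat_lit 441419) (nat_lit 0) .nil) .nil))) 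
(.lf (nat_lit 609244) (.g (nat_lit 1807) (.e (nat_lit 704737) (nat_lit 11) (.e (nat_lit 16464) (nat_lit 13) (.e (nat_lit 483410) (nat_lit 27) (.e (nat_lit 401448) (nat_lit 10) (.e (nat_lit 434291) (nat_lit 44) .nil))))) (.g (nat_lit 0) (.e (nat_lit 443760) (nat_lit 0) .nil) .nil))))))) (.nd (nat_lit 6) (.nd (nat_lit 7) (.nd (nat_lit 8) (.nd (nat_lit 9) 
(.lf (nat_lit 608316) (.g (nat_lit 2863) (.e (nat_lit 704589) (nat_lit 3) (.e (nat_lit 163976) (nat_lit 30) (.e (nat_lit 573492) (nat_lit 15) (.e (nat_lit 81953) (nat_lit 22) (.e (nat_lit 90169) (nat_lit 13) (.e (nat_lit 172133) (nat_lit 15) (.e (nat_lit 2058) (nat_lit 142) .nil))))))) (.g (nat_lit 1) (.e (nat_lit 440739) (nat_lit 0) .nil) .nil))) 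
(.lf (nat_lit 608828) (.g (nat_lit 1415) (.e (nat_lit 704595) (nat_lit 5) (.e (nat_lit 180278) (nat_lit 32) (.e (nat_lit 1660) (nat_lit 115) (.e (nat_lit 393274) (nat_lit 23) (.e (nat_lit 426412) (nat_lit 15) .nil))))) (.g (nat_lit 0) (.e (nat_lit 442161) (nat_lit 0) .nil) .nil)))) (.nd (nat_lit 9) 
(.lf (nat_lit 608572) (.g (nat_lit 2350) (.e (nat_lit 704589) (nat_lit 3) (.e (nat_lit 163979) (nat_lit 30) (.e (nat_lit 573492) (nat_lit 15) (.e (nat_lit 81953) (nat_lit 22) .nil)))) (.g (nat_lit 0) (.e (nat_lit 441042) (nat_lit 0) .nil) .nil))) 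
(.lf (nat_lit 609084) (.g (nat_lit 1099) (.e (nat_lit 704599) (nat_lit 6) (.e (nat_lit 188452) (nat_lit 23) (.e (nat_lit 204829) (nat_lit 18) .nil))) (.g (nat_lit 0) (.e (nat_lit 442597) (nat_lit 0) .nil) .nil))))) (.nd (nat_lit 8) (.nd (nat_lit 9) 
(.lf (nat_lit 608444) (.g (nat_lit 3743) (.e (nat_lit 704589) (nat_lit 3) (.e (nat_lit 163979) (nat_lit 30) (.e (nat_lit 573482) (nat_lit 13) (.e (nat_lit 65604) (nat_lit 9) (.e (nat_lit 336013) (nat_lit 2) (.e (nat_lit 90134) (nat_lit 9) (.e (nat_lit 3071) (nat_lit 190) (.e (nat_lit 475197) (nat_lit 40) .nil)))))))) (.g (nat_lit 1) (.e (nat_lit 440903) (nat_lit 0) .nil) .nil))) 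
(.lf (nat_lit 608956) (.g (nat_lit 2623) (.e (nat_lit 704598) (nat_lit 6) (.e (nat_lit 188446) (nat_lit 21) (.e (nat_lit 164348) (nat_lit 240) (.e (nat_lit 2648) (nat_lit 166) (.e (nat_lit 188418) (nat_lit 0) (.e (nat_lit 2059) (nat_lit 142) .nil)))))) (.g (nat_lit 1) (.e (nat_lit 442433) (nat_lit 0) .nil) .nil)))) (.nd (nat_lit 9) 
(.lf (nat_lit 608700) (.g (nat_lit 3096) (.e (nat_lit 704589) (nat_lit 3) (.e (nat_lit 163979) (nat_lit 30) (.e (nat_lit 573493) (nat_lit 15) (.e (nat_lit 81956) (nat_lit 23) (.e (nat_lit 98356) (nat_lit 26) (.e (nat_lit 426415) (nat_lit 15) (.e (nat_lit 7936) (nat_lit 142) .nil))))))) (.g (nat_lit 1) (.e (nat_lit 441387) (nat_lit 0) .nil) .nil))) 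
(.lf (nat_lit 609212) (.g (nat_lit 887) (.e (nat_lit 704735) (nat_lit 11) (.e (nat_lit 16436) (nat_lit 9) (.e (nat_lit 426550) (nat_lit 31) (.e (nat_lit 376576) (nat_lit 5) .nil)))) (.g (nat_lit 0) (.e (nat_lit 443469) (nat_lit 0) .nil) .nil)))))) (.nd (nat_lit 7) (.nd (nat_lit 8) (.nd (nat_lit 9) 
(.lf (nat_lit 608380) (.g (nat_lit 3204) (.e (nat_lit 704589) (nat_lit 3) (.e (nat_lit 163978) (nat_lit 30) (.e (nat_lit 573485) (nat_lit 13) (.e (nat_lit 65604) (nat_lit 9) (.e (nat_lit 336028) (nat_lit 3) (.e (nat_lit 98362) (nat_lit 26) (.e (nat_lit 426412) (nat_lit 15) (.e (nat_lit 2059) (nat_lit 142) .nil)))))))) (.g (nat_lit 1) (.e (nat_lit 440830) (nat_lit 0) .nil) .nil))) 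
(.lf (nat_lit 608892) (.g (nat_lit 1953) (.e (nat_lit 704597) (nat_lit 6) (.e (nat_lit 188455) (nat_lit 24) (.e (nat_lit 229663) (nat_lit 240) (.e (nat_lit 2653) (nat_lit 166) .nil)))) (.g (nat_lit 0) (.e (nat_lit 442350) (nat_lit 0) .nil) .nil)))) (.nd (nat_lit 9) 
(.lf (nat_lit 608636) (.g (nat_lit 4124) (.e (nat_lit 704589) (nat_lit 3) (.e (nat_lit 163979) (nat_lit 30) (.e (nat_lit 573493) (nat_lit 15) (.e (nat_lit 81953) (nat_lit 22) (.e (nat_lit 90170) (nat_lit 13) (.e (nat_lit 172137) (nat_lit 15) (.e (nat_lit 2059) (nat_lit 142) .nil))))))) (.g (nat_lit 1) (.e (nat_lit 441305) (nat_lit 0) .nil) .nil))) 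
(.lf (nat_lit 609148) (.g (nat_lit 1263) (.e (nat_lit 712448) (nat_lit 6) (.e (nat_lit 188431) (nat_lit 20) (.e (nat_lit 3397) (nat_lit 211) (.e (nat_lit 647183) (nat_lit 4) (.e (nat_lit 172118) (nat_lit 12) .nil))))) (.g (nat_lit 0) (.e (nat_lit 442713) (nat_lit 0) .nil) .nil))))) (.nd (nat_lit 8) (.nd (nat_lit 9) 
(.lf (nat_lit 608508) (.g (nat_lit 1075) (.e (nat_lit 704589) (nat_lit 3) (.e (nat_lit 163979) (nat_lit 30) (.e (nat_lit 573491) (nat_lit 15) (.e (nat_lit 81943) (nat_lit 20) .nil)))) (.g (nat_lit 0) (.e (nat_lit 440968) (nat_lit 0) .nil) .nil))) 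
(.lf (nat_lit 609020) (.g (nat_lit 2723) (.e (nat_lit 704598) (nat_lit 6) (.e (nat_lit 188455) (nat_lit 24) (.e (nat_lit 229666) (nat_lit 240) (.e (nat_lit 2630) (nat_lit 164) (.e (nat_lit 172120) (nat_lit 12) (.e (nat_lit 475197) (nat_lit 40) .nil)))))) (.g (nat_lit 1) (.e (nat_lit 442517) (nat_lit 0) .nil) .nil)))) (.nd (nat_lit 9) 
(.lf (nat_lit 608764) (.g (nat_lit 1686) (.e (nat_lit 712448) (nat_lit 3) (.e (nat_lit 163977) (nat_lit 30) (.e (nat_lit 573493) (nat_lit 15) (.e (nat_lit 81954) (nat_lit 23) .nil)))) (.g (nat_lit 0) (.e (nat_lit 441592) (nat_lit 0) .nil) .nil))) 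
(.lf (nat_lit 609276) (.g (nat_lit 3740) (.e (nat_lit 704738) (nat_lit 11) (.e (nat_lit 16447) (nat_lit 10) (.e (nat_lit 434212) (nat_lit 18) (.e (nat_lit 6425) (nat_lit 342) (.e (nat_lit 229415) (nat_lit 15) (.e (nat_lit 450604) (nat_lit 22) .nil)))))) (.g (nat_lit 1) (.e (nat_lit 443938) (nat_lit 0) .nil) .nil))))))))))) 
(.nd (nat_lit 2) (.nd (nat_lit 3) (.nd (nat_lit 4) (.nd (nat_lit 5) (.nd (nat_lit 6) 
(.nd (nat_lit 7) (.nd (nat_lit 8) (.nd (nat_lit 9) 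
(.lf (nat_lit 608258) (.g (nat_lit 4270) (.e (nat_lit 704589) (nat_lit 3) (.e (nat_lit 163976) (nat_lit 30) (.e (nat_lit 573480) (nat_lit 13) (.e (nat_lit 65610) (nat_lit 10) (.e (nat_lit 344117) (nat_lit 21) (.e (nat_lit 516151) (nat_lit 9) (.e (nat_lit 426412) (nat_lit 15) (.e (nat_lit 2058) (nat_lit 142) .nil)))))))) (.g (nat_lit 1) (.e (nat_lit 440601) (nat_lit 0) .nil) .nil))) 
(.lf (nat_lit 608770) (.g (nat_lit 606) (.e (nat_lit 704592) (nat_lit 4) (.e (nat_lit 172124) (nat_lit 14) (.e (nat_lit 491571) (nat_lit 13) .nil))) (.g (nat_lit 0) (.e (nat_lit 441660) (nat_lit 0) .nil) .nil)))) (.nd (nat_lit 9) 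
(.lf (nat_lit 608514) (.g (nat_lit 1213) (.e (nat_lit 704589) (nat_lit 3) (.e (nat_lit 163979) (nat_lit 30) (.e (nat_lit 573491) (nat_lit 15) (.e (nat_lit 81951) (nat_lit 22) .nil)))) (.g (nat_lit 0) (.e (nat_lit 440974) (nat_lit 0) .nil) .nil))) 
(.lf (nat_lit 609026) (.g (nat_lit 2216) (.e (nat_lit 704598) (nat_lit 6) (.e (nat_lit 188455) (nat_lit 24) (.e (nat_lit 229678) (nat_lit 244) (.e (nat_lit 163902) (nat_lit 12) .nil)))) (.g (nat_lit 0) (.e (nat_lit 442523) (nat_lit 0) .nil) .nil))))) (.nd (nat_lit 8) (.nd (nat_lit 9) 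
(.lf (nat_lit 608386) (.g (nat_lit 3070) (.e (nat_lit 704589) (nat_lit 3) (.e (nat_lit 163978) (nat_lit 30) (.e (nat_lit 573485) (nat_lit 13) (.e (nat_lit 65619) (nat_lit 10) (.e (nat_lit 344117) (nat_lit 21) (.e (nat_lit 516144) (nat_lit 9) (.e (nat_lit 426364) (nat_lit 15) (.e (nat_lit 2056) (nat_lit 142) .nil)))))))) (.g (nat_lit 1) (.e (nat_lit 440839) (nat_lit 0) .nil) .nil))) 
(.lf (nat_lit 608898) (.g (nat_lit 1725) (.e (nat_lit 704598) (nat_lit 6) (.e (nat_lit 188427) (nat_lit 20) (.e (nat_lit 3401) (nat_lit 211) (.e (nat_lit 647185) (nat_lit 6) (.e (nat_lit 188420) (nat_lit 0) (.e (nat_lit 2059) (nat_lit 142) .nil)))))) (.g (nat_lit 1) (.e (nat_lit 442365) (nat_lit 0) .nil) .nil)))) (.nd (nat_lit 9) 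
(.lf (nat_lit 608642) (.g (nat_lit 2897) (.e (nat_lit 704589) (nat_lit 3) (.e (nat_lit 163979) (nat_lit 30) (.e (nat_lit 573493) (nat_lit 15) (.e (nat_lit 81954) (nat_lit 23) (.e (nat_lit 98358) (nat_lit 26) .nil))))) (.g (nat_lit 0) (.e (nat_lit 441319) (nat_lit 0) .nil) .nil))) 
(.lf (nat_lit 609154) (.g (nat_lit 4380) (.e (nat_lit 704627) (nat_lit 9) (.e (nat_lit 375) (nat_lit 32) (.e (nat_lit 426140) (nat_lit 3) (.e (nat_lit 204869) (nat_lit 29) (.e (nat_lit 360475) (nat_lit 8) (.e (nat_lit 557091) (nat_lit 12) (.e (nat_lit 164022) (nat_lit 46) .nil))))))) (.g (nat_lit 1) (.e (nat_lit 443002) (nat_lit 0) .nil) .nil)))))) 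
(.nd (nat_lit 7) (.nd (nat_lit 8) (.nd (nat_lit 9) 
(.lf (nat_lit 608322) (.g (nat_lit 2768) (.e (nat_lit 704589) (nat_lit 3) (.e (nat_lit 163976) (nat_lit 30) (.e (nat_lit 573492) (nat_lit 15) (.e (nat_lit 81956) (nat_lit 23) (.e (nat_lit 98355) (nat_lit 26) (.e (nat_lit 426376) (nat_lit 15) (.e (nat_lit 2057) (nat_lit 142) .nil))))))) (.g (nat_lit 1) (.e (nat_lit 440762) (nat_lit 0) .nil) .nil))) 
(.lf (nat_lit 608834) (.g (nat_lit 984) (.e (nat_lit 704595) (nat_lit 5) (.e (nat_lit 180278) (nat_lit 32) (.e (nat_lit 1661) (nat_lit 115) (.e (nat_lit 393269) (nat_lit 23) .nil)))) (.g (nat_lit 0) (.e (nat_lit 442177) (nat_lit 0) .nil) .nil)))) (.nd (nat_lit 9) 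
(.lf (nat_lit 608578) (.g (nat_lit 3112) (.e (nat_lit 704589) (nat_lit 3) (.e (nat_lit 163979) (nat_lit 30) (.e (nat_lit 573492) (nat_lit 15) (.e (nat_lit 81956) (nat_lit 23) (.e (nat_lit 98355) (nat_lit 26) (.e (nat_lit 426376) (nat_lit 15) (.e (nat_lit 2057) (nat_lit 142) .nil))))))) (.g (nat_lit 1) (.e (nat_lit 441053) (nat_lit 0) .nil) .nil))) 
(.lf (nat_lit 609090) (.g (nat_lit 1788) (.e (nat_lit 704599) (nat_lit 6) (.e (nat_lit 188453) (nat_lit 24) (.e (nat_lit 229663) (nat_lit 240) (.e (nat_lit 2647) (nat_lit 166) .nil)))) (.g (nat_lit 0) (.e (nat_lit 442613) (nat_lit 0) .nil) .nil))))) (.nd (nat_lit 8) (.nd (nat_lit 9) 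
(.lf (nat_lit 608450) (.g (nat_lit 3241) (.e (nat_lit 704589) (nat_lit 3) (.e (nat_lit 163979) (nat_lit 30) (.e (nat_lit 573482) (nat_lit 13) (.e (nat_lit 65604) (nat_lit 9) (.e (nat_lit 336028) (nat_lit 3) (.e (nat_lit 98359) (nat_lit 26) (.e (nat_lit 426410) (nat_lit 15) (.e (nat_lit 2057) (nat_lit 142) .nil)))))))) (.g (nat_lit 1) (.e (nat_lit 440909) (nat_lit 0) .nil) .nil))) 
(.lf (nat_lit 608962) (.g (nat_lit 1969) (.e (nat_lit 704598) (nat_lit 6) (.e (nat_lit 188446) (nat_lit 21) (.e (nat_lit 164348) (nat_lit 240) (.e (nat_lit 2650) (nat_lit 166) (.e (nat_lit 188420) (nat_lit 0) .nil))))) (.g (nat_lit 0) (.e (nat_lit 442439) (nat_lit 0) .nil) .nil)))) (.nd (nat_lit 9) 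
(.lf (nat_lit 608706) (.g (nat_lit 2979) (.e (nat_lit 704589) (nat_lit 3) (.e (nat_lit 163979) (nat_lit 30) (.e (nat_lit 573493) (nat_lit 15) (.e (nat_lit 81956) (nat_lit 23) (.e (nat_lit 98357) (nat_lit 26) (.e (nat_lit 426375) (nat_lit 15) (.e (nat_lit 2059) (nat_lit 142) .nil))))))) (.g (nat_lit 1) (.e (nat_lit 441393) (nat_lit 0) .nil) .nil))) 
(.lf (nat_lit 609218) (.g (nat_lit 1647) (.e (nat_lit 704736) (nat_lit 11) (.e (nat_lit 16425) (nat_lit 7) (.e (nat_lit 409617) (nat_lit 10) (.e (nat_lit 848) (nat_lit 73) .nil)))) (.g (nat_lit 0) (.e (nat_lit 443520) (nat_lit 0) .nil) .nil))))))) (.nd (nat_lit 6) (.nd (nat_lit 7) (.nd (nat_lit 8) (.nd (nat_lit 9) 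
(.lf (nat_lit 608290) (.g (nat_lit 2833) (.e (nat_lit 704589) (nat_lit 3) (.e (nat_lit 163976) (nat_lit 30) (.e (nat_lit 573491) (nat_lit 15) (.e (nat_lit 81954) (nat_lit 23) (.e (nat_lit 98356) (nat_lit 26) (.e (nat_lit 426352) (nat_lit 15) (.e (nat_lit 7936) (nat_lit 142) .nil))))))) (.g (nat_lit 1) (.e (nat_lit 440637) (nat_lit 0) .nil) .nil))) 
(.lf (nat_lit 608802) (.g (nat_lit 1769) (.e (nat_lit 704593) (nat_lit 4) (.e (nat_lit 172124) (nat_lit 14) (.e (nat_lit 491571) (nat_lit 13) (.e (nat_lit 393291) (nat_lit 26) .nil)))) (.g (nat_lit 0) (.e (nat_lit 441912) (nat_lit 0) .nil) .nil)))) (.nd (nat_lit 9) 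
(.lf (nat_lit 608546) (.g (nat_lit 3583) (.e (nat_lit 704589) (nat_lit 3) (.e (nat_lit 163979) (nat_lit 30) (.e (nat_lit 573491) (nat_lit 15) (.e (nat_lit 81954) (nat_lit 23) (.e (nat_lit 98356) (nat_lit 26) (.e (nat_lit 426374) (nat_lit 15) (.e (nat_lit 2056) (nat_lit 142) .nil))))))) (.g (nat_lit 1) (.e (nat_lit 441012) (nat_lit 0) .nil) .nil))) 
(.lf (nat_lit 609058) (.g (nat_lit 282) (.e (nat_lit 704599) (nat_lit 6) (.e (nat_lit 188445) (nat_lit 21) (.e (nat_lit 164345) (nat_lit 240) .nil))) (.g (nat_lit 0) (.e (nat_lit 442565) (nat_lit 0) .nil) .nil))))) (.nd (nat_lit 8) (.nd (nat_lit 9) 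
(.lf (nat_lit 608418) (.g (nat_lit 2052) (.e (nat_lit 704589) (nat_lit 3) (.e (nat_lit 163978) (nat_lit 30) (.e (nat_lit 573485) (nat_lit 13) (.e (nat_lit 65619) (nat_lit 10) (.e (nat_lit 344118) (nat_lit 21) .nil))))) (.g (nat_lit 0) (.e (nat_lit 440871) (nat_lit 0) .nil) .nil))) 
(.lf (nat_lit 608930) (.g (nat_lit 791) (.e (nat_lit 704598) (nat_lit 6) (.e (nat_lit 188440) (nat_lit 20) (.e (nat_lit 3408) (nat_lit 212) (.e (nat_lit 655378) (nat_lit 4) .nil)))) (.g (nat_lit 0) (.e (nat_lit 442397) (nat_lit 0) .nil) .nil)))) (.nd (nat_lit 9) 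
(.lf (nat_lit 608674) (.g (nat_lit 4378) (.e (nat_lit 704589) (nat_lit 3) (.e (nat_lit 163979) (nat_lit 30) (.e (nat_lit 573493) (nat_lit 15) (.e (nat_lit 81956) (nat_lit 23) (.e (nat_lit 98356) (nat_lit 26) (.e (nat_lit 426352) (nat_lit 15) (.e (nat_lit 7936) (nat_lit 142) .nil))))))) (.g (nat_lit 1) (.e (nat_lit 441361) (nat_lit 0) .nil) .nil))) 
(.lf (nat_lit 609186) (.g (nat_lit 5619) (.e (nat_lit 704731) (nat_lit 11) (.e (nat_lit 16416) (nat_lit 3) (.e (nat_lit 204869) (nat_lit 29) (.e (nat_lit 360475) (nat_lit 8) (.e (nat_lit 557068) (nat_lit 9) .nil))))) (.g (nat_lit 0) (.e (nat_lit 443376) (nat_lit 0) .nil) .nil)))))) (.nd (nat_lit 7) (.nd (nat_lit 8) (.nd (nat_lit 9) 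
(.lf (nat_lit 608354) (.g (nat_lit 2317) (.e (nat_lit 704589) (nat_lit 3) (.e (nat_lit 163976) (nat_lit 30) (.e (nat_lit 573492) (nat_lit 15) (.e (nat_lit 81956) (nat_lit 23) (.e (nat_lit 98357) (nat_lit 26) .nil))))) (.g (nat_lit 0) (.e (nat_lit 440794) (nat_lit 0) .nil) .nil))) 
(.lf (nat_lit 608866) (.g (nat_lit 2238) (.e (nat_lit 704597) (nat_lit 6) (.e (nat_lit 188446) (nat_lit 21) (.e (nat_lit 164347) (nat_lit 240) (.e (nat_lit 2650) (nat_lit 166) (.e (nat_lit 188417) (nat_lit 0) .nil))))) (.g (nat_lit 0) (.e (nat_lit 442283) (nat_lit 0) .nil) .nil)))) (.nd (nat_lit 9) 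
(.lf (nat_lit 608610) (.g (nat_lit 3349) (.e (nat_lit 704589) (nat_lit 3) (.e (nat_lit 163979) (nat_lit 30) (.e (nat_lit 573492) (nat_lit 15) (.e (nat_lit 81956) (nat_lit 23) (.e (nat_lit 98356) (nat_lit 26) (.e (nat_lit 426400) (nat_lit 15) (.e (nat_lit 2056) (nat_lit 142) .nil))))))) (.g (nat_lit 1) (.e (nat_lit 441085) (nat_lit 0) .nil) .nil))) 
(.lf (nat_lit 609122) (.g (nat_lit 1883) (.e (nat_lit 704599) (nat_lit 6) (.e (nat_lit 188455) (nat_lit 24) (.e (nat_lit 229664) (nat_lit 240) (.e (nat_lit 2725) (nat_lit 172) (.e (nat_lit 237616) (nat_lit 12) .nil))))) (.g (nat_lit 0) (.e (nat_lit 442672) (nat_lit 0) .nil) .nil))))) (.nd (nat_lit 8) (.nd (nat_lit 9) 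
(.lf (nat_lit 608482) (.g (nat_lit 5501) (.e (nat_lit 704589) (nat_lit 3) (.e (nat_lit 163979) (nat_lit 30) (.e (nat_lit 573482) (nat_lit 13) (.e (nat_lit 65619) (nat_lit 10) (.e (nat_lit 344117) (nat_lit 21) (.e (nat_lit 516145) (nat_lit 9) (.e (nat_lit 426420) (nat_lit 15) (.e (nat_lit 2059) (nat_lit 142) .nil)))))))) (.g (nat_lit 1) (.e (nat_lit 440941) (nat_lit 0) .nil) .nil))) 
(.lf (nat_lit 608994) (.g (nat_lit 1564) (.e (nat_lit 704598) (nat_lit 6) (.e (nat_lit 188454) (nat_lit 24) (.e (nat_lit 229663) (nat_lit 240) (.e (nat_lit 2651) (nat_lit 166) (.e (nat_lit 188420) (nat_lit 0) .nil))))) (.g (nat_lit 0) (.e (nat_lit 442487) (nat_lit 0) .nil) .nil)))) (.nd (nat_lit 9) 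
(.lf (nat_lit 608738) (.g (nat_lit 1798) (.e (nat_lit 704590) (nat_lit 3) (.e (nat_lit 163962) (nat_lit 25) (.e (nat_lit 532543) (nat_lit 10) (.e (nat_lit 344130) (nat_lit 26) (.e (nat_lit 557104) (nat_lit 14) (.e (nat_lit 188160) (nat_lit 3) (.e (nat_lit 516106) (nat_lit 0) (.e (nat_lit 7936) (nat_lit 218) .nil)))))))) (.g (nat_lit 1) (.e (nat_lit 441491) (nat_lit 0) .nil) .nil))) 
(.lf (nat_lit 609250) (.g (nat_lit 1742) (.e (nat_lit 704737) (nat_lit 11) (.e (nat_lit 16468) (nat_lit 13) (.e (nat_lit 483372) (nat_lit 21) (.e (nat_lit 319504) (nat_lit 10) (.e (nat_lit 7936) (nat_lit 315) .nil))))) (.g (nat_lit 0) (.e (nat_lit 443772) (nat_lit 0) .nil) .nil)))))))) (.nd (nat_lit 5) (.nd (nat_lit 6) (.nd (nat_lit 7) (.nd (nat_lit 8) (.nd (nat_lit 9) 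
(.lf (nat_lit 608274) (.g (nat_lit 3003) (.e (nat_lit 704589) (nat_lit 3) (.e (nat_lit 163976) (nat_lit 30) (.e (nat_lit 573482) (nat_lit 13) (.e (nat_lit 65619) (nat_lit 10) (.e (nat_lit 344117) (nat_lit 21) (.e (nat_lit 516151) (nat_lit 9) (.e (nat_lit 426412) (nat_lit 15) (.e (nat_lit 2059) (nat_lit 142) .nil)))))))) (.g (nat_lit 1) (.e (nat_lit 440619) (nat_lit 0) .nil) .nil))) 
(.lf (nat_lit 608786) (.g (nat_lit 345) (.e (nat_lit 704592) (nat_lit 4) (.e (nat_lit 172126) (nat_lit 14) (.e (nat_lit 491569) (nat_lit 13) .nil))) (.g (nat_lit 0) (.e (nat_lit 441723) (nat_lit 0) .nil) .nil)))) (.nd (nat_lit 9) 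
(.lf (nat_lit 608530) (.g (nat_lit 2986) (.e (nat_lit 704589) (nat_lit 3) (.e (nat_lit 163979) (nat_lit 30) (.e (nat_lit 573491) (nat_lit 15) (.e (nat_lit 81954) (nat_lit 23) (.e (nat_lit 98356) (nat_lit 26) (.e (nat_lit 426360) (nat_lit 15) (.e (nat_lit 2047) (nat_lit 142) .nil))))))) (.g (nat_lit 1) (.e (nat_lit 440996) (nat_lit 0) .nil) .nil))) 
(.lf (nat_lit 609042) (.g (nat_lit 1315) (.e (nat_lit 704598) (nat_lit 6) (.e (nat_lit 188455) (nat_lit 24) (.e (nat_lit 229681) (nat_lit 244) (.e (nat_lit 163932) (nat_lit 17) (.e (nat_lit 466947) (nat_lit 0) (.e (nat_lit 2057) (nat_lit 142) .nil)))))) (.g (nat_lit 1) (.e (nat_lit 442540) (nat_lit 0) .nil) .nil))))) (.nd (nat_lit 8) (.nd (nat_lit 9) 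
(.lf (nat_lit 608402) (.g (nat_lit 2203) (.e (nat_lit 704589) (nat_lit 3) (.e (nat_lit 163978) (nat_lit 30) (.e (nat_lit 573485) (nat_lit 13) (.e (nat_lit 65619) (nat_lit 10) (.e (nat_lit 344117) (nat_lit 21) (.e (nat_lit 516147) (nat_lit 9) (.e (nat_lit 426364) (nat_lit 15) (.e (nat_lit 2056) (nat_lit 142) .nil)))))))) (.g (nat_lit 1) (.e (nat_lit 440855) (nat_lit 0) .nil) .nil))) 
(.lf (nat_lit 608914) (.g (nat_lit 1830) (.e (nat_lit 704598) (nat_lit 6) (.e (nat_lit 188434) (nat_lit 20) (.e (nat_lit 3408) (nat_lit 212) (.e (nat_lit 655380) (nat_lit 6) (.e (nat_lit 188420) (nat_lit 0) (.e (nat_lit 2058) (nat_lit 142) .nil)))))) (.g (nat_lit 1) (.e (nat_lit 442381) (nat_lit 0) .nil) .nil)))) (.nd (nat_lit 9) 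
(.lf (nat_lit 608658) (.g (nat_lit 3625) (.e (nat_lit 704589) (nat_lit 3) (.e (nat_lit 163979) (nat_lit 30) (.e (nat_lit 573493) (nat_lit 15) (.e (nat_lit 81954) (nat_lit 23) (.e (nat_lit 106240) (nat_lit 32) (.e (nat_lit 475199) (nat_lit 40) .nil)))))) (.g (nat_lit 1) (.e (nat_lit 441335) (nat_lit 0) .nil) .nil))) 
(.lf (nat_lit 609170) (.g (nat_lit 4565) (.e (nat_lit 704629) (nat_lit 9) (.e (nat_lit 375) (nat_lit 32) (.e (nat_lit 426125) (nat_lit 2) (.e (nat_lit 196674) (nat_lit 15) (.e (nat_lit 81946) (nat_lit 20) .nil))))) (.g (nat_lit 0) (.e (nat_lit 443120) (nat_lit 0) .nil) .nil)))))) (.nd (nat_lit 7) (.nd (nat_lit 8) (.nd (nat_lit 9) 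
(.lf (nat_lit 608338) (.g (nat_lit 3554) (.e (nat_lit 704589) (nat_lit 3) (.e (nat_lit 163976) (nat_lit 30) (.e (nat_lit 573492) (nat_lit 15) (.e (nat_lit 81956) (nat_lit 23) (.e (nat_lit 98356) (nat_lit 26) (.e (nat_lit 426361) (nat_lit 15) (.e (nat_lit 7936) (nat_lit 142) .nil))))))) (.g (nat_lit 1) (.e (nat_lit 440778) (nat_lit 0) .nil) .nil))) 
(.lf (nat_lit 608850) (.g (nat_lit 1150) (.e (nat_lit 704597) (nat_lit 6) (.e (nat_lit 188439) (nat_lit 20) (.e (nat_lit 3409) (nat_lit 212) (.e (nat_lit 655380) (nat_lit 6) (.e (nat_lit 188417) (nat_lit 0) (.e (nat_lit 2147) (nat_lit 142) .nil)))))) (.g (nat_lit 1) (.e (nat_lit 442248) (nat_lit 0) .nil) .nil)))) (.nd (nat_lit 9) 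
(.lf (nat_lit 608594) (.g (nat_lit 3279) (.e (nat_lit 704589) (nat_lit 3) (.e (nat_lit 163979) (nat_lit 30) (.e (nat_lit 573492) (nat_lit 15) (.e (nat_lit 81956) (nat_lit 23) (.e (nat_lit 98356) (nat_lit 26) (.e (nat_lit 426361) (nat_lit 15) (.e (nat_lit 2044) (nat_lit 142) .nil))))))) (.g (nat_lit 1) (.e (nat_lit 441069) (nat_lit 0) .nil) .nil))) 
(.lf (nat_lit 609106) (.g (nat_lit 333) (.e (nat_lit 704599) (nat_lit 6) (.e (nat_lit 188455) (nat_lit 24) (.e (nat_lit 229663) (nat_lit 240) .nil))) (.g (nat_lit 0) (.e (nat_lit 442644) (nat_lit 0) .nil) .nil))))) (.nd (nat_lit 8) (.nd (nat_lit 9) 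
(.lf (nat_lit 608466) (.g (nat_lit 3175) (.e (nat_lit 704589) (nat_lit 3) (.e (nat_lit 163979) (nat_lit 30) (.e (nat_lit 573482) (nat_lit 13) (.e (nat_lit 65619) (nat_lit 10) (.e (nat_lit 344117) (nat_lit 21) (.e (nat_lit 516144) (nat_lit 9) (.e (nat_lit 426364) (nat_lit 15) (.e (nat_lit 2056) (nat_lit 142) .nil)))))))) (.g (nat_lit 1) (.e (nat_lit 440925) (nat_lit 0) .nil) .nil))) 
(.lf (nat_lit 608978) (.g (nat_lit 2148) (.e (nat_lit 704598) (nat_lit 6) (.e (nat_lit 188453) (nat_lit 24) (.e (nat_lit 229665) (nat_lit 240) (.e (nat_lit 2651) (nat_lit 166) (.e (nat_lit 188418) (nat_lit 0) .nil))))) (.g (nat_lit 0) (.e (nat_lit 442470) (nat_lit 0) .nil) .nil)))) (.nd (nat_lit 9) 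
(.lf (nat_lit 608722) (.g (nat_lit 4973) (.e (nat_lit 704589) (nat_lit 3) (.e (nat_lit 163979) (nat_lit 30) (.e (nat_lit 573493) (nat_lit 15) (.e (nat_lit 81956) (nat_lit 23) (.e (nat_lit 98362) (nat_lit 26) (.e (nat_lit 426412) (nat_lit 15) (.e (nat_lit 2057) (nat_lit 142) .nil))))))) (.g (nat_lit 1) (.e (nat_lit 441409) (nat_lit 0) .nil) .nil))) 
(.lf (nat_lit 609234) (.g (nat_lit 2066) (.e (nat_lit 704737) (nat_lit 11) (.e (nat_lit 16416) (nat_lit 3) (.e (nat_lit 204837) (nat_lit 20) (.e (nat_lit 114708) (nat_lit 20) .nil)))) (.g (nat_lit 0) (.e (nat_lit 443666) (nat_lit 0) .nil) .nil))))))) (.nd (nat_lit 6) (.nd (nat_lit 7) (.nd (nat_lit 8) (.nd (nat_lit 9) 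
(.lf (nat_lit 608306) (.g (nat_lit 2929) (.e (nat_lit 704589) (nat_lit 3) (.e (nat_lit 163976) (nat_lit 30) (.e (nat_lit 573491) (nat_lit 15) (.e (nat_lit 81954) (nat_lit 23) (.e (nat_lit 98356) (nat_lit 26) (.e (nat_lit 426393) (nat_lit 15) (.e (nat_lit 2057) (nat_lit 142) .nil))))))) (.g (nat_lit 1) (.e (nat_lit 440653) (nat_lit 0) .nil) .nil))) 
(.lf (nat_lit 608818) (.g (nat_lit 2000) (.e (nat_lit 704595) (nat_lit 5) (.e (nat_lit 180277) (nat_lit 32) (.e (nat_lit 1428) (nat_lit 108) (.e (nat_lit 336430) (nat_lit 29) (.e (nat_lit 442378) (nat_lit 0) (.e (nat_lit 2058) (nat_lit 142) .nil)))))) (.g (nat_lit 1) (.e (nat_lit 442124) (nat_lit 0) .nil) .nil)))) (.nd (nat_lit 9) 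
(.lf (nat_lit 608562) (.g (nat_lit 2148) (.e (nat_lit 704589) (nat_lit 3) (.e (nat_lit 163979) (nat_lit 30) (.e (nat_lit 573491) (nat_lit 15) (.e (nat_lit 81954) (nat_lit 23) (.e (nat_lit 98362) (nat_lit 26) .nil))))) (.g (nat_lit 0) (.e (nat_lit 441028) (nat_lit 0) .nil) .nil))) 
(.lf (nat_lit 609074) (.g (nat_lit 1658) (.e (nat_lit 704599) (nat_lit 6) (.e (nat_lit 188446) (nat_lit 21) (.e (nat_lit 164347) (nat_lit 240) (.e (nat_lit 2619) (nat_lit 164) (.e (nat_lit 172119) (nat_lit 12) .nil))))) (.g (nat_lit 0) (.e (nat_lit 442583) (nat_lit 0) .nil) .nil))))) (.nd (nat_lit 8) (.nd (nat_lit 9) 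
(.lf (nat_lit 608434) (.g (nat_lit 2048) (.e (nat_lit 704589) (nat_lit 3) (.e (nat_lit 163979) (nat_lit 30) (.e (nat_lit 573481) (nat_lit 13) (.e (nat_lit 65609) (nat_lit 10) .nil)))) (.g (nat_lit 0) (.e (nat_lit 440893) (nat_lit 0) .nil) .nil))) 
(.lf (nat_lit 608946) (.g (nat_lit 1847) (.e (nat_lit 704598) (nat_lit 6) (.e (nat_lit 188444) (nat_lit 21) (.e (nat_lit 164348) (nat_lit 240) (.e (nat_lit 2650) (nat_lit 166) (.e (nat_lit 188420) (nat_lit 0) .nil))))) (.g (nat_lit 0) (.e (nat_lit 442417) (nat_lit 0) .nil) .nil)))) (.nd (nat_lit 9) 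
(.lf (nat_lit 608690) (.g (nat_lit 4349) (.e (nat_lit 704589) (nat_lit 3) (.e (nat_lit 163979) (nat_lit 30) (.e (nat_lit 573493) (nat_lit 15) (.e (nat_lit 81956) (nat_lit 23) (.e (nat_lit 98356) (nat_lit 26) (.e (nat_lit 426363) (nat_lit 15) (.e (nat_lit 2061) (nat_lit 142) .nil))))))) (.g (nat_lit 1) (.e (nat_lit 441377) (nat_lit 0) .nil) .nil))) 
(.lf (nat_lit 609202) (.g (nat_lit 2031) (.e (nat_lit 704734) (nat_lit 11) (.e (nat_lit 16416) (nat_lit 3) (.e (nat_lit 204861) (nat_lit 26) (.e (nat_lit 336194) (nat_lit 12) (.e (nat_lit 385057) (nat_lit 22) .nil))))) (.g (nat_lit 0) (.e (nat_lit 443437) (nat_lit 0) .nil) .nil)))))) (.nd (nat_lit 7) (.nd (nat_lit 8) (.nd (nat_lit 9) 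
(.lf (nat_lit 608370) (.g (nat_lit 2046) (.e (nat_lit 704589) (nat_lit 3) (.e (nat_lit 163978) (nat_lit 30) (.e (nat_lit 573479) (nat_lit 13) (.e (nat_lit 65619) (nat_lit 10) .nil)))) (.g (nat_lit 0) (.e (nat_lit 440819) (nat_lit 0) .nil) .nil))) 
(.lf (nat_lit 608882) (.g (nat_lit 1490) (.e (nat_lit 704597) (nat_lit 6) (.e (nat_lit 188452) (nat_lit 23) (.e (nat_lit 204830) (nat_lit 18) (.e (nat_lit 57670) (nat_lit 152) .nil)))) (.g (nat_lit 0) (.e (nat_lit 442329) (nat_lit 0) .nil) .nil)))) (.nd (nat_lit 9) 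
(.lf (nat_lit 608626) (.g (nat_lit 3469) (.e (nat_lit 704589) (nat_lit 3) (.e (nat_lit 163979) (nat_lit 30) (.e (nat_lit 573493) (nat_lit 15) (.e (nat_lit 81951) (nat_lit 22) (.e (nat_lit 90169) (nat_lit 13) .nil))))) (.g (nat_lit 0) (.e (nat_lit 441210) (nat_lit 0) .nil) .nil))) 
(.lf (nat_lit 609138) (.g (nat_lit 2236) (.e (nat_lit 704599) (nat_lit 6) (.e (nat_lit 188455) (nat_lit 24) (.e (nat_lit 229678) (nat_lit 244) (.e (nat_lit 163904) (nat_lit 12) .nil)))) (.g (nat_lit 0) (.e (nat_lit 442697) (nat_lit 0) .nil) .nil))))) (.nd (nat_lit 8) (.nd (nat_lit 9) 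
(.lf (nat_lit 608498) (.g (nat_lit 2251) (.e (nat_lit 704589) (nat_lit 3) (.e (nat_lit 163979) (nat_lit 30) (.e (nat_lit 573482) (nat_lit 13) (.e (nat_lit 65619) (nat_lit 10) (.e (nat_lit 344118) (nat_lit 21) .nil))))) (.g (nat_lit 0) (.e (nat_lit 440957) (nat_lit 0) .nil) .nil))) 
(.lf (nat_lit 609010) (.g (nat_lit 2084) (.e (nat_lit 704598) (nat_lit 6) (.e (nat_lit 188455) (nat_lit 24) (.e (nat_lit 229663) (nat_lit 240) (.e (nat_lit 2725) (nat_lit 172) .nil)))) (.g (nat_lit 0) (.e (nat_lit 442507) (nat_lit 0) .nil) .nil)))) (.nd (nat_lit 9) 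
(.lf (nat_lit 608754) (.g (nat_lit 1020) (.e (nat_lit 704590) (nat_lit 3) (.e (nat_lit 163975) (nat_lit 30) (.e (nat_lit 573491) (nat_lit 15) (.e (nat_lit 81951) (nat_lit 22) .nil)))) (.g (nat_lit 0) (.e (nat_lit 441510) (nat_lit 0) .nil) .nil))) 
(.lf (nat_lit 609266) (.g (nat_lit 5106) (.e (nat_lit 704738) (nat_lit 11) (.e (nat_lit 16425) (nat_lit 7) (.e (nat_lit 409649) (nat_lit 18) (.e (nat_lit 303140) (nat_lit 10) (.e (nat_lit 434275) (nat_lit 39) (.e (nat_lit 663574) (nat_lit 9) (.e (nat_lit 2418) (nat_lit 157) (.e (nat_lit 3526) (nat_lit 218) .nil)))))))) (.g (nat_lit 1) (.e (nat_lit 443887) (nat_lit 0) .nil) .nil))))))))) 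
(.nd (nat_lit 4) (.nd (nat_lit 5) (.nd (nat_lit 6) (.nd (nat_lit 7) (.nd (nat_lit 8) 
(.nd (nat_lit 9) 
(.lf (nat_lit 608266) (.g (nat_lit 4613) (.e (nat_lit 704589) (nat_lit 3) (.e (nat_lit 163976) (nat_lit 30) (.e (nat_lit 573481) (nat_lit 13) (.e (nat_lit 65619) (nat_lit 10) (.e (nat_lit 344117) (nat_lit 21) (.e (nat_lit 516145) (nat_lit 9) (.e (nat_lit 426375) (nat_lit 15) (.e (nat_lit 2058) (nat_lit 142) .nil)))))))) (.g (nat_lit 1) (.e (nat_lit 440611) (nat_lit 0) .nil) .nil))) 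
(.lf (nat_lit 608778) (.g (nat_lit 3400) (.e (nat_lit 704592) (nat_lit 4) (.e (nat_lit 172126) (nat_lit 14) (.e (nat_lit 491549) (nat_lit 9) (.e (nat_lit 336430) (nat_lit 29) (.e (nat_lit 442379) (nat_lit 0) (.e (nat_lit 2059) (nat_lit 142) .nil)))))) (.g (nat_lit 1) (.e (nat_lit 441692) (nat_lit 0) .nil) .nil)))) (.nd (nat_lit 9) 
(.lf (nat_lit 608522) (.g (nat_lit 1992) (.e (nat_lit 704589) (nat_lit 3) (.e (nat_lit 163979) (nat_lit 30) (.e (nat_lit 573491) (nat_lit 15) (.e (nat_lit 81954) (nat_lit 23) (.e (nat_lit 98355) (nat_lit 26) (.e (nat_lit 426379) (nat_lit 15) (.e (nat_lit 2056) (nat_lit 142) .nil))))))) (.g (nat_lit 1) (.e (nat_lit 440988) (nat_lit 0) .nil) .nil))) 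
(.lf (nat_lit 609034) (.g (nat_lit 2961) (.e (nat_lit 704598) (nat_lit 6) (.e (nat_lit 188455) (nat_lit 24) (.e (nat_lit 229678) (nat_lit 244) (.e (nat_lit 163920) (nat_lit 14) (.e (nat_lit 442374) (nat_lit 0) .nil))))) (.g (nat_lit 0) (.e (nat_lit 442532) (nat_lit 0) .nil) .nil))))) (.nd (nat_lit 8) (.nd (nat_lit 9) 
(.lf (nat_lit 608394) (.g (nat_lit 3347) (.e (nat_lit 704589) (nat_lit 3) (.e (nat_lit 163978) (nat_lit 30) (.e (nat_lit 573485) (nat_lit 13) (.e (nat_lit 65619) (nat_lit 10) (.e (nat_lit 344117) (nat_lit 21) (.e (nat_lit 516145) (nat_lit 9) (.e (nat_lit 426374) (nat_lit 15) (.e (nat_lit 2057) (nat_lit 142) .nil)))))))) (.g (nat_lit 1) (.e (nat_lit 440847) (nat_lit 0) .nil) .nil))) 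
(.lf (nat_lit 608906) (.g (nat_lit 1631) (.e (nat_lit 704598) (nat_lit 6) (.e (nat_lit 188427) (nat_lit 20) (.e (nat_lit 3402) (nat_lit 211) (.e (nat_lit 647185) (nat_lit 6) (.e (nat_lit 188420) (nat_lit 0) (.e (nat_lit 2058) (nat_lit 142) .nil)))))) (.g (nat_lit 1) (.e (nat_lit 442373) (nat_lit 0) .nil) .nil)))) (.nd (nat_lit 9) 
(.lf (nat_lit 608650) (.g (nat_lit 3877) (.e (nat_lit 704589) (nat_lit 3) (.e (nat_lit 163979) (nat_lit 30) (.e (nat_lit 573493) (nat_lit 15) (.e (nat_lit 81954) (nat_lit 23) (.e (nat_lit 98363) (nat_lit 26) (.e (nat_lit 426419) (nat_lit 15) (.e (nat_lit 2059) (nat_lit 142) .nil))))))) (.g (nat_lit 1) (.e (nat_lit 441327) (nat_lit 0) .nil) .nil))) 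
(.lf (nat_lit 609162) (.g (nat_lit 2023) (.e (nat_lit 704628) (nat_lit 9) (.e (nat_lit 375) (nat_lit 32) (.e (nat_lit 426140) (nat_lit 3) (.e (nat_lit 204868) (nat_lit 29) (.e (nat_lit 360474) (nat_lit 8) .nil))))) (.g (nat_lit 0) (.e (nat_lit 443070) (nat_lit 0) .nil) .nil)))))) (.nd (nat_lit 7) (.nd (nat_lit 8) (.nd (nat_lit 9) 
(.lf (nat_lit 608330) (.g (nat_lit 2602) (.e (nat_lit 704589) (nat_lit 3) (.e (nat_lit 163976) (nat_lit 30) (.e (nat_lit 573492) (nat_lit 15) (.e (nat_lit 81956) (nat_lit 23) (.e (nat_lit 98355) (nat_lit 26) (.e (nat_lit 426402) (nat_lit 15) (.e (nat_lit 2046) (nat_lit 142) .nil))))))) (.g (nat_lit 1) (.e (nat_lit 440770) (nat_lit 0) .nil) .nil))) 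
(.lf (nat_lit 608842) (.g (nat_lit 1061) (.e (nat_lit 704597) (nat_lit 6) (.e (nat_lit 188431) (nat_lit 20) (.e (nat_lit 3397) (nat_lit 211) (.e (nat_lit 647185) (nat_lit 6) (.e (nat_lit 188416) (nat_lit 0) .nil))))) (.g (nat_lit 0) (.e (nat_lit 442237) (nat_lit 0) .nil) .nil)))) (.nd (nat_lit 9) 
(.lf (nat_lit 608586) (.g (nat_lit 3111) (.e (nat_lit 704589) (nat_lit 3) (.e (nat_lit 163979) (nat_lit 30) (.e (nat_lit 573492) (nat_lit 15) (.e (nat_lit 81956) (nat_lit 23) (.e (nat_lit 98356) (nat_lit 26) (.e (nat_lit 426354) (nat_lit 15) (.e (nat_lit 2050) (nat_lit 142) .nil))))))) (.g (nat_lit 1) (.e (nat_lit 441061) (nat_lit 0) .nil) .nil))) 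
(.lf (nat_lit 609098) (.g (nat_lit 606) (.e (nat_lit 704599) (nat_lit 6) (.e (nat_lit 188453) (nat_lit 24) (.e (nat_lit 229677) (nat_lit 244) .nil))) (.g (nat_lit 0) (.e (nat_lit 442630) (nat_lit 0) .nil) .nil))))) (.nd (nat_lit 8) (.nd (nat_lit 9) 
(.lf (nat_lit 608458) (.g (nat_lit 1713) (.e (nat_lit 704589) (nat_lit 3) (.e (nat_lit 163979) (nat_lit 30) (.e (nat_lit 573482) (nat_lit 13) (.e (nat_lit 65613) (nat_lit 10) (.e (nat_lit 344119) (nat_lit 21) .nil))))) (.g (nat_lit 0) (.e (nat_lit 440917) (nat_lit 0) .nil) .nil))) 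
(.lf (nat_lit 608970) (.g (nat_lit 2280) (.e (nat_lit 704598) (nat_lit 6) (.e (nat_lit 188453) (nat_lit 24) (.e (nat_lit 229663) (nat_lit 240) (.e (nat_lit 2653) (nat_lit 166) (.e (nat_lit 188418) (nat_lit 0) (.e (nat_lit 2056) (nat_lit 142) .nil)))))) (.g (nat_lit 1) (.e (nat_lit 442462) (nat_lit 0) .nil) .nil)))) (.nd (nat_lit 9) 
(.lf (nat_lit 608714) (.g (nat_lit 3309) (.e (nat_lit 704589) (nat_lit 3) (.e (nat_lit 163979) (nat_lit 30) (.e (nat_lit 573493) (nat_lit 15) (.e (nat_lit 81956) (nat_lit 23) (.e (nat_lit 98360) (nat_lit 26) (.e (nat_lit 426396) (nat_lit 15) (.e (nat_lit 2058) (nat_lit 142) .nil))))))) (.g (nat_lit 1) (.e (nat_lit 441401) (nat_lit 0) .nil) .nil))) 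
(.lf (nat_lit 609226) (.g (nat_lit 967) (.e (nat_lit 704736) (nat_lit 11) (.e (nat_lit 16463) (nat_lit 13) (.e (nat_lit 483349) (nat_lit 17) .nil))) (.g (nat_lit 0) (.e (nat_lit 443613) (nat_lit 0) .nil) .nil))))))) (.nd (nat_lit 6) (.nd (nat_lit 7) (.nd (nat_lit 8) (.nd (nat_lit 9) 
(.lf (nat_lit 608298) (.g (nat_lit 2541) (.e (nat_lit 704589) (nat_lit 3) (.e (nat_lit 163976) (nat_lit 30) (.e (nat_lit 573491) (nat_lit 15) (.e (nat_lit 81954) (nat_lit 23) (.e (nat_lit 98356) (nat_lit 26) (.e (nat_lit 426363) (nat_lit 15) (.e (nat_lit 2063) (nat_lit 142) .nil))))))) (.g (nat_lit 1) (.e (nat_lit 440645) (nat_lit 0) .nil) .nil))) 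
(.lf (nat_lit 608810) (.g (nat_lit 4608) (.e (nat_lit 704595) (nat_lit 5) (.e (nat_lit 180271) (nat_lit 26) (.e (nat_lit 704738) (nat_lit 11) (.e (nat_lit 16416) (nat_lit 3) (.e (nat_lit 204837) (nat_lit 20) .nil))))) (.g (nat_lit 0) (.e (nat_lit 442108) (nat_lit 0) .nil) .nil)))) (.nd (nat_lit 9) 
(.lf (nat_lit 608554) (.g (nat_lit 2099) (.e (nat_lit 704589) (nat_lit 3) (.e (nat_lit 163979) (nat_lit 30) (.e (nat_lit 573491) (nat_lit 15) (.e (nat_lit 81954) (nat_lit 23) (.e (nat_lit 98356) (nat_lit 26) (.e (nat_lit 426415) (nat_lit 15) (.e (nat_lit 7936) (nat_lit 142) .nil))))))) (.g (nat_lit 1) (.e (nat_lit 441020) (nat_lit 0) .nil) .nil))) 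
(.lf (nat_lit 609066) (.g (nat_lit 1837) (.e (nat_lit 704599) (nat_lit 6) (.e (nat_lit 188445) (nat_lit 21) (.e (nat_lit 164348) (nat_lit 240) (.e (nat_lit 2648) (nat_lit 166) (.e (nat_lit 188420) (nat_lit 0) .nil))))) (.g (nat_lit 0) (.e (nat_lit 442573) (nat_lit 0) .nil) .nil))))) (.nd (nat_lit 8) (.nd (nat_lit 9) 
(.lf (nat_lit 608426) (.g (nat_lit 3988) (.e (nat_lit 704589) (nat_lit 3) (.e (nat_lit 163978) (nat_lit 30) (.e (nat_lit 573491) (nat_lit 15) (.e (nat_lit 81946) (nat_lit 20) (.e (nat_lit 1802) (nat_lit 119) .nil))))) (.g (nat_lit 0) (.e (nat_lit 440880) (nat_lit 0) .nil) .nil))) 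
(.lf (nat_lit 608938) (.g (nat_lit 2078) (.e (nat_lit 704598) (nat_lit 6) (.e (nat_lit 188444) (nat_lit 21) (.e (nat_lit 164347) (nat_lit 240) (.e (nat_lit 2650) (nat_lit 166) (.e (nat_lit 188418) (nat_lit 0) .nil))))) (.g (nat_lit 0) (.e (nat_lit 442408) (nat_lit 0) .nil) .nil)))) (.nd (nat_lit 9) 
(.lf (nat_lit 608682) (.g (nat_lit 3672) (.e (nat_lit 704589) (nat_lit 3) (.e (nat_lit 163979) (nat_lit 30) (.e (nat_lit 573493) (nat_lit 15) (.e (nat_lit 81956) (nat_lit 23) (.e (nat_lit 98356) (nat_lit 26) (.e (nat_lit 426361) (nat_lit 15) (.e (nat_lit 2064) (nat_lit 142) .nil))))))) (.g (nat_lit 1) (.e (nat_lit 441369) (nat_lit 0) .nil) .nil))) 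
(.lf (nat_lit 609194) (.g (nat_lit 1814) (.e (nat_lit 704732) (nat_lit 11) (.e (nat_lit 16416) (nat_lit 3) (.e (nat_lit 204861) (nat_lit 26) (.e (nat_lit 336076) (nat_lit 9) .nil)))) (.g (nat_lit 0) (.e (nat_lit 443401) (nat_lit 0) .nil) .nil)))))) (.nd (nat_lit 7) (.nd (nat_lit 8) (.nd (nat_lit 9) 
(.lf (nat_lit 608362) (.g (nat_lit 3559) (.e (nat_lit 704589) (nat_lit 3) (.e (nat_lit 163976) (nat_lit 30) (.e (nat_lit 573492) (nat_lit 15) (.e (nat_lit 81956) (nat_lit 23) (.e (nat_lit 98384) (nat_lit 32) (.e (nat_lit 475195) (nat_lit 40) .nil)))))) (.g (nat_lit 1) (.e (nat_lit 440802) (nat_lit 0) .nil) .nil))) 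
(.lf (nat_lit 608874) (.g (nat_lit 638) (.e (nat_lit 704597) (nat_lit 6) (.e (nat_lit 188450) (nat_lit 23) (.e (nat_lit 204830) (nat_lit 18) .nil))) (.g (nat_lit 0) (.e (nat_lit 442298) (nat_lit 0) .nil) .nil)))) (.nd (nat_lit 9) 
(.lf (nat_lit 608618) (.g (nat_lit 3230) (.e (nat_lit 704589) (nat_lit 3) (.e (nat_lit 163979) (nat_lit 30) (.e (nat_lit 573492) (nat_lit 15) (.e (nat_lit 81956) (nat_lit 23) (.e (nat_lit 98385) (nat_lit 32) (.e (nat_lit 475195) (nat_lit 40) .nil)))))) (.g (nat_lit 1) (.e (nat_lit 441093) (nat_lit 0) .nil) .nil))) 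
(.lf (nat_lit 609130) (.g (nat_lit 503) (.e (nat_lit 704599) (nat_lit 6) (.e (nat_lit 188455) (nat_lit 24) (.e (nat_lit 229677) (nat_lit 244) .nil))) (.g (nat_lit 0) (.e (nat_lit 442686) (nat_lit 0) .nil) .nil))))) (.nd (nat_lit 8) (.nd (nat_lit 9) 
(.lf (nat_lit 608490) (.g (nat_lit 4028) (.e (nat_lit 704589) (nat_lit 3) (.e (nat_lit 163979) (nat_lit 30) (.e (nat_lit 573482) (nat_lit 13) (.e (nat_lit 65619) (nat_lit 10) (.e (nat_lit 344117) (nat_lit 21) (.e (nat_lit 516151) (nat_lit 9) (.e (nat_lit 426410) (nat_lit 15) (.e (nat_lit 2057) (nat_lit 142) .nil)))))))) (.g (nat_lit 1) (.e (nat_lit 440949) (nat_lit 0) .nil) .nil))) 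
(.lf (nat_lit 609002) (.g (nat_lit 2081) (.e (nat_lit 704598) (nat_lit 6) (.e (nat_lit 188455) (nat_lit 24) (.e (nat_lit 229663) (nat_lit 240) (.e (nat_lit 2620) (nat_lit 164) .nil)))) (.g (nat_lit 0) (.e (nat_lit 442499) (nat_lit 0) .nil) .nil)))) (.nd (nat_lit 9) 
(.lf (nat_lit 608746) (.g (nat_lit 3845) (.e (nat_lit 704590) (nat_lit 3) (.e (nat_lit 163962) (nat_lit 25) (.e (nat_lit 532544) (nat_lit 10) (.e (nat_lit 344133) (nat_lit 26) (.e (nat_lit 557103) (nat_lit 14) (.e (nat_lit 188160) (nat_lit 3) (.e (nat_lit 516106) (nat_lit 0) (.e (nat_lit 7936) (nat_lit 218) .nil)))))))) (.g (nat_lit 1) (.e (nat_lit 441499) (nat_lit 0) .nil) .nil))) 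
(.lf (nat_lit 609258) (.g (nat_lit 1674) (.e (nat_lit 704738) (nat_lit 11) (.e (nat_lit 16416) (nat_lit 3) (.e (nat_lit 204865) (nat_lit 28) .nil))) (.g (nat_lit 0) (.e (nat_lit 443839) (nat_lit 0) .nil) .nil)))))))) (.nd (nat_lit 5) (.nd (nat_lit 6) (.nd (nat_lit 7) (.nd (nat_lit 8) (.nd (nat_lit 9) 
(.lf (nat_lit 608282) (.g (nat_lit 1719) (.e (nat_lit 704589) (nat_lit 3) (.e (nat_lit 163976) (nat_lit 30) (.e (nat_lit 573491) (nat_lit 15) (.e (nat_lit 81954) (nat_lit 23) (.e (nat_lit 98355) (nat_lit 26) (.e (nat_lit 426375) (nat_lit 15) (.e (nat_lit 2056) (nat_lit 142) .nil))))))) (.g (nat_lit 1) (.e (nat_lit 440629) (nat_lit 0) .nil) .nil))) 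
(.lf (nat_lit 608794) (.g (nat_lit 1233) (.e (nat_lit 704593) (nat_lit 4) (.e (nat_lit 172094) (nat_lit 9) (.e (nat_lit 426025) (nat_lit 0) (.e (nat_lit 3397) (nat_lit 211) .nil)))) (.g (nat_lit 0) (.e (nat_lit 441867) (nat_lit 0) .nil) .nil)))) (.nd (nat_lit 9) 
(.lf (nat_lit 608538) (.g (nat_lit 2721) (.e (nat_lit 704589) (nat_lit 3) (.e (nat_lit 163979) (nat_lit 30) (.e (nat_lit 573491) (nat_lit 15) (.e (nat_lit 81954) (nat_lit 23) (.e (nat_lit 98356) (nat_lit 26) (.e (nat_lit 426361) (nat_lit 15) (.e (nat_lit 2064) (nat_lit 142) .nil))))))) (.g (nat_lit 1) (.e (nat_lit 441004) (nat_lit 0) .nil) .nil))) 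
(.lf (nat_lit 609050) (.g (nat_lit 1436) (.e (nat_lit 704599) (nat_lit 6) (.e (nat_lit 188441) (nat_lit 20) (.e (nat_lit 3406) (nat_lit 212) (.e (nat_lit 655378) (nat_lit 4) (.e (nat_lit 172118) (nat_lit 12) .nil))))) (.g (nat_lit 0) (.e (nat_lit 442554) (nat_lit 0) .nil) .nil))))) (.nd (nat_lit 8) (.nd (nat_lit 9) 
(.lf (nat_lit 608410) (.g (nat_lit 4010) (.e (nat_lit 704589) (nat_lit 3) (.e (nat_lit 163978) (nat_lit 30) (.e (nat_lit 573485) (nat_lit 13) (.e (nat_lit 65619) (nat_lit 10) (.e (nat_lit 344117) (nat_lit 21) (.e (nat_lit 516151) (nat_lit 9) (.e (nat_lit 426410) (nat_lit 15) (.e (nat_lit 2057) (nat_lit 142) .nil)))))))) (.g (nat_lit 1) (.e (nat_lit 440863) (nat_lit 0) .nil) .nil))) 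
(.lf (nat_lit 608922) (.g (nat_lit 2979) (.e (nat_lit 704598) (nat_lit 6) (.e (nat_lit 188434) (nat_lit 20) (.e (nat_lit 3409) (nat_lit 212) (.e (nat_lit 655378) (nat_lit 4) (.e (nat_lit 172120) (nat_lit 12) (.e (nat_lit 475199) (nat_lit 40) .nil)))))) (.g (nat_lit 1) (.e (nat_lit 442389) (nat_lit 0) .nil) .nil)))) (.nd (nat_lit 9) 
(.lf (nat_lit 608666) (.g (nat_lit 3307) (.e (nat_lit 704589) (nat_lit 3) (.e (nat_lit 163979) (nat_lit 30) (.e (nat_lit 573493) (nat_lit 15) (.e (nat_lit 81956) (nat_lit 23) (.e (nat_lit 98355) (nat_lit 26) (.e (nat_lit 426393) (nat_lit 15) (.e (nat_lit 2057) (nat_lit 142) .nil))))))) (.g (nat_lit 1) (.e (nat_lit 441353) (nat_lit 0) .nil) .nil))) 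
(.lf (nat_lit 609178) (.g (nat_lit 5841) (.e (nat_lit 704629) (nat_lit 9) (.e (nat_lit 442) (nat_lit 33) (.e (nat_lit 434234) (nat_lit 23) (.e (nat_lit 532535) (nat_lit 9) (.e (nat_lit 336176) (nat_lit 10) (.e (nat_lit 344132) (nat_lit 26) (.e (nat_lit 557093) (nat_lit 12) (.e (nat_lit 164022) (nat_lit 46) .nil)))))))) (.g (nat_lit 1) (.e (nat_lit 443257) (nat_lit 0) .nil) .nil)))))) 
(.nd (nat_lit 7) (.nd (nat_lit 8) (.nd (nat_lit 9) 
(.lf (nat_lit 608346) (.g (nat_lit 3942) (.e (nat_lit 704589) (nat_lit 3) (.e (nat_lit 163976) (nat_lit 30) (.e (nat_lit 573492) (nat_lit 15) (.e (nat_lit 81956) (nat_lit 23) (.e (nat_lit 98356) (nat_lit 26) (.e (nat_lit 426375) (nat_lit 15) (.e (nat_lit 2057) (nat_lit 142) .nil))))))) (.g (nat_lit 1) (.e (nat_lit 440786) (nat_lit 0) .nil) .nil))) 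
(.lf (nat_lit 608858) (.g (nat_lit 1037) (.e (nat_lit 704597) (nat_lit 6) (.e (nat_lit 188444) (nat_lit 21) (.e (nat_lit 164348) (nat_lit 240) (.e (nat_lit 2648) (nat_lit 166) .nil)))) (.g (nat_lit 0) (.e (nat_lit 442269) (nat_lit 0) .nil) .nil)))) (.nd (nat_lit 9) 
(.lf (nat_lit 608602) (.g (nat_lit 3477) (.e (nat_lit 704589) (nat_lit 3) (.e (nat_lit 163979) (nat_lit 30) (.e (nat_lit 573492) (nat_lit 15) (.e (nat_lit 81956) (nat_lit 23) (.e (nat_lit 98356) (nat_lit 26) (.e (nat_lit 426374) (nat_lit 15) (.e (nat_lit 2057) (nat_lit 142) .nil))))))) (.g (nat_lit 1) (.e (nat_lit 441077) (nat_lit 0) .nil) .nil))) 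
(.lf (nat_lit 609114) (.g (nat_lit 2245) (.e (nat_lit 704599) (nat_lit 6) (.e (nat_lit 188455) (nat_lit 24) (.e (nat_lit 229663) (nat_lit 240) (.e (nat_lit 2647) (nat_lit 166) .nil)))) (.g (nat_lit 0) (.e (nat_lit 442657) (nat_lit 0) .nil) .nil))))) (.nd (nat_lit 8) (.nd (nat_lit 9) 
(.lf (nat_lit 608474) (.g (nat_lit 3521) (.e (nat_lit 704589) (nat_lit 3) (.e (nat_lit 163979) (nat_lit 30) (.e (nat_lit 573482) (nat_lit 13) (.e (nat_lit 65619) (nat_lit 10) (.e (nat_lit 344117) (nat_lit 21) (.e (nat_lit 516144) (nat_lit 9) (.e (nat_lit 426420) (nat_lit 15) (.e (nat_lit 2056) (nat_lit 142) .nil)))))))) (.g (nat_lit 1) (.e (nat_lit 440933) (nat_lit 0) .nil) .nil))) 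
(.lf (nat_lit 608986) (.g (nat_lit 2342) (.e (nat_lit 704598) (nat_lit 6) (.e (nat_lit 188453) (nat_lit 24) (.e (nat_lit 229678) (nat_lit 244) (.e (nat_lit 163931) (nat_lit 17) (.e (nat_lit 466947) (nat_lit 0) .nil))))) (.g (nat_lit 0) (.e (nat_lit 442479) (nat_lit 0) .nil) .nil)))) (.nd (nat_lit 9) 
(.lf (nat_lit 608730) (.g (nat_lit 4979) (.e (nat_lit 704589) (nat_lit 3) (.e (nat_lit 163979) (nat_lit 30) (.e (nat_lit 573493) (nat_lit 15) (.e (nat_lit 81956) (nat_lit 23) (.e (nat_lit 98384) (nat_lit 32) (.e (nat_lit 483072) (nat_lit 40) .nil)))))) (.g (nat_lit 1) (.e (nat_lit 441417) (nat_lit 0) .nil) .nil))) 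
(.lf (nat_lit 609242) (.g (nat_lit 867) (.e (nat_lit 704737) (nat_lit 11) (.e (nat_lit 16463) (nat_lit 13) (.e (nat_lit 483360) (nat_lit 17) .nil))) (.g (nat_lit 0) (.e (nat_lit 443758) (nat_lit 0) .nil) .nil))))))) (.nd (nat_lit 6) (.nd (nat_lit 7) (.nd (nat_lit 8) (.nd (nat_lit 9) 
(.lf (nat_lit 608314) (.g (nat_lit 829) (.e (nat_lit 704589) (nat_lit 3) (.e (nat_lit 163976) (nat_lit 30) (.e (nat_lit 573492) (nat_lit 15) (.e (nat_lit 81953) (nat_lit 22) .nil)))) (.g (nat_lit 0) (.e (nat_lit 440668) (nat_lit 0) .nil) .nil))) 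
(.lf (nat_lit 608826) (.g (nat_lit 1667) (.e (nat_lit 704595) (nat_lit 5) (.e (nat_lit 180278) (nat_lit 32) (.e (nat_lit 1427) (nat_lit 108) (.e (nat_lit 336444) (nat_lit 32) .nil)))) (.g (nat_lit 0) (.e (nat_lit 442158) (nat_lit 0) .nil) .nil)))) (.nd (nat_lit 9) 
(.lf (nat_lit 608570) (.g (nat_lit 2384) (.e (nat_lit 704589) (nat_lit 3) (.e (nat_lit 163979) (nat_lit 30) (.e (nat_lit 573491) (nat_lit 15) (.e (nat_lit 81956) (nat_lit 23) (.e (nat_lit 98383) (nat_lit 32) .nil))))) (.g (nat_lit 0) (.e (nat_lit 441036) (nat_lit 0) .nil) .nil))) 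
(.lf (nat_lit 609082) (.g (nat_lit 1275) (.e (nat_lit 704599) (nat_lit 6) (.e (nat_lit 188446) (nat_lit 21) (.e (nat_lit 164348) (nat_lit 240) (.e (nat_lit 2650) (nat_lit 166) .nil)))) (.g (nat_lit 0) (.e (nat_lit 442593) (nat_lit 0) .nil) .nil))))) (.nd (nat_lit 8) (.nd (nat_lit 9) 
(.lf (nat_lit 608442) (.g (nat_lit 1913) (.e (nat_lit 704589) (nat_lit 3) (.e (nat_lit 163979) (nat_lit 30) (.e (nat_lit 573482) (nat_lit 13) (.e (nat_lit 65604) (nat_lit 9) (.e (nat_lit 336013) (nat_lit 2) .nil))))) (.g (nat_lit 0) (.e (nat_lit 440901) (nat_lit 0) .nil) .nil))) 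
(.lf (nat_lit 608954) (.g (nat_lit 3027) (.e (nat_lit 704598) (nat_lit 6) (.e (nat_lit 188446) (nat_lit 21) (.e (nat_lit 164348) (nat_lit 240) (.e (nat_lit 2628) (nat_lit 164) (.e (nat_lit 172120) (nat_lit 12) (.e (nat_lit 475198) (nat_lit 40) .nil)))))) (.g (nat_lit 1) (.e (nat_lit 442429) (nat_lit 0) .nil) .nil)))) (.nd (nat_lit 9) 
(.lf (nat_lit 608698) (.g (nat_lit 4572) (.e (nat_lit 704589) (nat_lit 3) (.e (nat_lit 163979) (nat_lit 30) (.e (nat_lit 573493) (nat_lit 15) (.e (nat_lit 81956) (nat_lit 23) (.e (nat_lit 98356) (nat_lit 26) (.e (nat_lit 426393) (nat_lit 15) (.e (nat_lit 2056) (nat_lit 142) .nil))))))) (.g (nat_lit 1) (.e (nat_lit 441385) (nat_lit 0) .nil) .nil))) 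
(.lf (nat_lit 609210) (.g (nat_lit 1585) (.e (nat_lit 704734) (nat_lit 11) (.e (nat_lit 16436) (nat_lit 9) (.e (nat_lit 426555) (nat_lit 32) (.e (nat_lit 376860) (nat_lit 21) (.e (nat_lit 57853) (nat_lit 252) .nil))))) (.g (nat_lit 0) (.e (nat_lit 443454) (nat_lit 0) .nil) .nil)))))) (.nd (nat_lit 7) (.nd (nat_lit 8) (.nd (nat_lit 9) 
(.lf (nat_lit 608378) (.g (nat_lit 3032) (.e (nat_lit 704589) (nat_lit 3) (.e (nat_lit 163978) (nat_lit 30) (.e (nat_lit 573485) (nat_lit 13) (.e (nat_lit 65604) (nat_lit 9) (.e (nat_lit 336028) (nat_lit 3) (.e (nat_lit 98359) (nat_lit 26) (.e (nat_lit 426410) (nat_lit 15) (.e (nat_lit 2056) (nat_lit 142) .nil)))))))) (.g (nat_lit 1) (.e (nat_lit 440828) (nat_lit 0) .nil) .nil))) 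
(.lf (nat_lit 608890) (.g (nat_lit 2874) (.e (nat_lit 704597) (nat_lit 6) (.e (nat_lit 188455) (nat_lit 24) (.e (nat_lit 229663) (nat_lit 240) (.e (nat_lit 2651) (nat_lit 166) (.e (nat_lit 188416) (nat_lit 0) .nil))))) (.g (nat_lit 0) (.e (nat_lit 442348) (nat_lit 0) .nil) .nil)))) (.nd (nat_lit 9) 
(.lf (nat_lit 608634) (.g (nat_lit 4444) (.e (nat_lit 704589) (nat_lit 3) (.e (nat_lit 163979) (nat_lit 30) (.e (nat_lit 573493) (nat_lit 15) (.e (nat_lit 81953) (nat_lit 22) (.e (nat_lit 90167) (nat_lit 13) .nil))))) (.g (nat_lit 0) (.e (nat_lit 441303) (nat_lit 0) .nil) .nil))) 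
(.lf (nat_lit 609146) (.g (nat_lit 2061) (.e (nat_lit 704599) (nat_lit 6) (.e (nat_lit 188455) (nat_lit 24) (.e (nat_lit 229679) (nat_lit 244) (.e (nat_lit 163919) (nat_lit 14) (.e (nat_lit 442374) (nat_lit 0) (.e (nat_lit 2059) (nat_lit 142) .nil)))))) (.g (nat_lit 1) (.e (nat_lit 442707) (nat_lit 0) .nil) .nil))))) (.nd (nat_lit 8) (.nd (nat_lit 9) 
(.lf (nat_lit 608506) (.g (nat_lit 1564) (.e (nat_lit 704589) (nat_lit 3) (.e (nat_lit 163979) (nat_lit 30) (.e (nat_lit 573491) (nat_lit 15) (.e (nat_lit 81941) (nat_lit 20) .nil)))) (.g (nat_lit 0) (.e (nat_lit 440966) (nat_lit 0) .nil) .nil))) 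
(.lf (nat_lit 609018) (.g (nat_lit 1421) (.e (nat_lit 704598) (nat_lit 6) (.e (nat_lit 188455) (nat_lit 24) (.e (nat_lit 229665) (nat_lit 240) (.e (nat_lit 2653) (nat_lit 166) (.e (nat_lit 188418) (nat_lit 0) (.e (nat_lit 2056) (nat_lit 142) .nil)))))) (.g (nat_lit 1) (.e (nat_lit 442515) (nat_lit 0) .nil) .nil)))) (.nd (nat_lit 9) 
(.lf (nat_lit 608762) (.g (nat_lit 381) (.e (nat_lit 704590) (nat_lit 3) (.e (nat_lit 163977) (nat_lit 30) (.e (nat_lit 573493) (nat_lit 15) .nil))) (.g (nat_lit 0) (.e (nat_lit 441579) (nat_lit 0) .nil) .nil))) 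
(.lf (nat_lit 609274) (.g (nat_lit 2159) (.e (nat_lit 704738) (nat_lit 11) (.e (nat_lit 16439) (nat_lit 9) (.e (nat_lit 426501) (nat_lit 27) (.e (nat_lit 335894) (nat_lit 0) (.e (nat_lit 6722) (nat_lit 362) (.e (nat_lit 180272) (nat_lit 26) .nil)))))) (.g (nat_lit 1) (.e (nat_lit 443910) (nat_lit 0) .nil) .nil)))))))))) 
(.nd (nat_lit 3) (.nd (nat_lit 4) (.nd (nat_lit 5) (.nd (nat_lit 6) (.nd (nat_lit 7) 
(.nd (nat_lit 8) (.nd (nat_lit 9) 
(.lf (nat_lit 608262) (.g (nat_lit 3487) (.e (nat_lit 704589) (nat_lit 3) (.e (nat_lit 163976) (nat_lit 30) (.e (nat_lit 573481) (nat_lit 13) (.e (nat_lit 65619) (nat_lit 10) (.e (nat_lit 344117) (nat_lit 21) (.e (nat_lit 516144) (nat_lit 9) (.e (nat_lit 426375) (nat_lit 15) (.e (nat_lit 2057) (nat_lit 142) .nil)))))))) (.g (nat_lit 1) (.e (nat_lit 440607) (nat_lit 0) .nil) .nil))) 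
(.lf (nat_lit 608774) (.g (nat_lit 3810) (.e (nat_lit 704592) (nat_lit 4) (.e (nat_lit 172126) (nat_lit 14) (.e (nat_lit 491549) (nat_lit 9) (.e (nat_lit 336395) (nat_lit 27) (.e (nat_lit 426305) (nat_lit 12) (.e (nat_lit 475198) (nat_lit 40) .nil)))))) (.g (nat_lit 1) (.e (nat_lit 441684) (nat_lit 0) .nil) .nil)))) (.nd (nat_lit 9) 
(.lf (nat_lit 608518) (.g (nat_lit 1860) (.e (nat_lit 704589) (nat_lit 3) (.e (nat_lit 163979) (nat_lit 30) (.e (nat_lit 573491) (nat_lit 15) (.e (nat_lit 81954) (nat_lit 23) (.e (nat_lit 98355) (nat_lit 26) .nil))))) (.g (nat_lit 0) (.e (nat_lit 440984) (nat_lit 0) .nil) .nil))) 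
(.lf (nat_lit 609030) (.g (nat_lit 2384) (.e (nat_lit 704598) (nat_lit 6) (.e (nat_lit 188455) (nat_lit 24) (.e (nat_lit 229678) (nat_lit 244) (.e (nat_lit 163909) (nat_lit 12) .nil)))) (.g (nat_lit 0) (.e (nat_lit 442527) (nat_lit 0) .nil) .nil))))) (.nd (nat_lit 8) (.nd (nat_lit 9) 
(.lf (nat_lit 608390) (.g (nat_lit 3416) (.e (nat_lit 704589) (nat_lit 3) (.e (nat_lit 163978) (nat_lit 30) (.e (nat_lit 573485) (nat_lit 13) (.e (nat_lit 65619) (nat_lit 10) (.e (nat_lit 344117) (nat_lit 21) (.e (nat_lit 516144) (nat_lit 9) (.e (nat_lit 426420) (nat_lit 15) (.e (nat_lit 2056) (nat_lit 142) .nil)))))))) (.g (nat_lit 1) (.e (nat_lit 440843) (nat_lit 0) .nil) .nil))) 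
(.lf (nat_lit 608902) (.g (nat_lit 2284) (.e (nat_lit 704598) (nat_lit 6) (.e (nat_lit 188427) (nat_lit 20) (.e (nat_lit 3402) (nat_lit 211) (.e (nat_lit 647183) (nat_lit 4) (.e (nat_lit 172120) (nat_lit 12) (.e (nat_lit 475198) (nat_lit 40) .nil)))))) (.g (nat_lit 1) (.e (nat_lit 442369) (nat_lit 0) .nil) .nil)))) (.nd (nat_lit 9) 
(.lf (nat_lit 608646) (.g (nat_lit 3229) (.e (nat_lit 704589) (nat_lit 3) (.e (nat_lit 163979) (nat_lit 30) (.e (nat_lit 573493) (nat_lit 15) (.e (nat_lit 81954) (nat_lit 23) (.e (nat_lit 98360) (nat_lit 26) (.e (nat_lit 426396) (nat_lit 15) (.e (nat_lit 2059) (nat_lit 142) .nil))))))) (.g (nat_lit 1) (.e (nat_lit 441323) (nat_lit 0) .nil) .nil))) 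
(.lf (nat_lit 609158) (.g (nat_lit 4336) (.e (nat_lit 704627) (nat_lit 9) (.e (nat_lit 452) (nat_lit 33) (.e (nat_lit 434231) (nat_lit 23) (.e (nat_lit 532550) (nat_lit 12) (.e (nat_lit 360475) (nat_lit 8) (.e (nat_lit 557091) (nat_lit 12) (.e (nat_lit 164022) (nat_lit 46) .nil))))))) (.g (nat_lit 1) (.e (nat_lit 443014) (nat_lit 0) .nil) .nil)))))) 
(.nd (nat_lit 7) (.nd (nat_lit 8) (.nd (nat_lit 9) 
(.lf (nat_lit 608326) (.g (nat_lit 2576) (.e (nat_lit 704589) (nat_lit 3) (.e (nat_lit 163976) (nat_lit 30) (.e (nat_lit 573492) (nat_lit 15) (.e (nat_lit 81956) (nat_lit 23) (.e (nat_lit 98355) (nat_lit 26) (.e (nat_lit 426393) (nat_lit 15) (.e (nat_lit 2057) (nat_lit 142) .nil))))))) (.g (nat_lit 1) (.e (nat_lit 440766) (nat_lit 0) .nil) .nil))) 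
(.lf (nat_lit 608838) (.g (nat_lit 877) (.e (nat_lit 704596) (nat_lit 5) (.e (nat_lit 180277) (nat_lit 32) (.e (nat_lit 1428) (nat_lit 108) (.e (nat_lit 336428) (nat_lit 29) .nil)))) (.g (nat_lit 0) (.e (nat_lit 442212) (nat_lit 0) .nil) .nil)))) (.nd (nat_lit 9) 
(.lf (nat_lit 608582) (.g (nat_lit 2918) (.e (nat_lit 704589) (nat_lit 3) (.e (nat_lit 163979) (nat_lit 30) (.e (nat_lit 573492) (nat_lit 15) (.e (nat_lit 81956) (nat_lit 23) (.e (nat_lit 98355) (nat_lit 26) (.e (nat_lit 426393) (nat_lit 15) (.e (nat_lit 2057) (nat_lit 142) .nil))))))) (.g (nat_lit 1) (.e (nat_lit 441057) (nat_lit 0) .nil) .nil))) 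
(.lf (nat_lit 609094) (.g (nat_lit 1678) (.e (nat_lit 704599) (nat_lit 6) (.e (nat_lit 188453) (nat_lit 24) (.e (nat_lit 229665) (nat_lit 240) (.e (nat_lit 2653) (nat_lit 166) (.e (nat_lit 188418) (nat_lit 0) (.e (nat_lit 2056) (nat_lit 142) .nil)))))) (.g (nat_lit 1) (.e (nat_lit 442624) (nat_lit 0) .nil) .nil))))) (.nd (nat_lit 8) (.nd (nat_lit 9) 
(.lf (nat_lit 608454) (.g (nat_lit 4131) (.e (nat_lit 704589) (nat_lit 3) (.e (nat_lit 163979) (nat_lit 30) (.e (nat_lit 573482) (nat_lit 13) (.e (nat_lit 65609) (nat_lit 10) (.e (nat_lit 344117) (nat_lit 21) (.e (nat_lit 516151) (nat_lit 9) (.e (nat_lit 426412) (nat_lit 15) (.e (nat_lit 2058) (nat_lit 142) .nil)))))))) (.g (nat_lit 1) (.e (nat_lit 440913) (nat_lit 0) .nil) .nil))) 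
(.lf (nat_lit 608966) (.g (nat_lit 803) (.e (nat_lit 704598) (nat_lit 6) (.e (nat_lit 188452) (nat_lit 23) (.e (nat_lit 204830) (nat_lit 18) .nil))) (.g (nat_lit 0) (.e (nat_lit 442453) (nat_lit 0) .nil) .nil)))) (.nd (nat_lit 9) 
(.lf (nat_lit 608710) (.g (nat_lit 2940) (.e (nat_lit 704589) (nat_lit 3) (.e (nat_lit 163979) (nat_lit 30) (.e (nat_lit 573493) (nat_lit 15) (.e (nat_lit 81956) (nat_lit 23) (.e (nat_lit 98359) (nat_lit 26) (.e (nat_lit 426394) (nat_lit 15) (.e (nat_lit 2054) (nat_lit 142) .nil))))))) (.g (nat_lit 1) (.e (nat_lit 441397) (nat_lit 0) .nil) .nil))) 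
(.lf (nat_lit 609222) (.g (nat_lit 876) (.e (nat_lit 704736) (nat_lit 11) (.e (nat_lit 16436) (nat_lit 9) (.e (nat_lit 426550) (nat_lit 31) (.e (nat_lit 376576) (nat_lit 5) .nil)))) (.g (nat_lit 0) (.e (nat_lit 443530) (nat_lit 0) .nil) .nil))))))) (.nd (nat_lit 6) (.nd (nat_lit 7) (.nd (nat_lit 8) (.nd (nat_lit 9) 
(.lf (nat_lit 608294) (.g (nat_lit 2636) (.e (nat_lit 704589) (nat_lit 3) (.e (nat_lit 163976) (nat_lit 30) (.e (nat_lit 573491) (nat_lit 15) (.e (nat_lit 81954) (nat_lit 23) (.e (nat_lit 98356) (nat_lit 26) (.e (nat_lit 426361) (nat_lit 15) (.e (nat_lit 7936) (nat_lit 142) .nil))))))) (.g (nat_lit 1) (.e (nat_lit 440641) (nat_lit 0) .nil) .nil))) 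
(.lf (nat_lit 608806) (.g (nat_lit 382) (.e (nat_lit 704594) (nat_lit 5) (.e (nat_lit 180278) (nat_lit 32) (.e (nat_lit 1661) (nat_lit 115) .nil))) (.g (nat_lit 0) (.e (nat_lit 442077) (nat_lit 0) .nil) .nil)))) (.nd (nat_lit 9) 
(.lf (nat_lit 608550) (.g (nat_lit 3485) (.e (nat_lit 704589) (nat_lit 3) (.e (nat_lit 163979) (nat_lit 30) (.e (nat_lit 573491) (nat_lit 15) (.e (nat_lit 81954) (nat_lit 23) (.e (nat_lit 98356) (nat_lit 26) (.e (nat_lit 426376) (nat_lit 15) (.e (nat_lit 2057) (nat_lit 142) .nil))))))) (.g (nat_lit 1) (.e (nat_lit 441016) (nat_lit 0) .nil) .nil))) 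
(.lf (nat_lit 609062) (.g (nat_lit 1498) (.e (nat_lit 704599) (nat_lit 6) (.e (nat_lit 188445) (nat_lit 21) (.e (nat_lit 164347) (nat_lit 240) (.e (nat_lit 2619) (nat_lit 164) (.e (nat_lit 172118) (nat_lit 12) .nil))))) (.g (nat_lit 0) (.e (nat_lit 442569) (nat_lit 0) .nil) .nil))))) (.nd (nat_lit 8) (.nd (nat_lit 9) 
(.lf (nat_lit 608422) (.g (nat_lit 936) (.e (nat_lit 704589) (nat_lit 3) (.e (nat_lit 163978) (nat_lit 30) (.e (nat_lit 573491) (nat_lit 15) .nil))) (.g (nat_lit 0) (.e (nat_lit 440875) (nat_lit 0) .nil) .nil))) 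
(.lf (nat_lit 608934) (.g (nat_lit 584) (.e (nat_lit 704598) (nat_lit 6) (.e (nat_lit 188441) (nat_lit 20) (.e (nat_lit 3409) (nat_lit 212) .nil))) (.g (nat_lit 0) (.e (nat_lit 442402) (nat_lit 0) .nil) .nil)))) (.nd (nat_lit 9) 
(.lf (nat_lit 608678) (.g (nat_lit 3150) (.e (nat_lit 704589) (nat_lit 3) (.e (nat_lit 163979) (nat_lit 30) (.e (nat_lit 573493) (nat_lit 15) (.e (nat_lit 81956) (nat_lit 23) (.e (nat_lit 98356) (nat_lit 26) (.e (nat_lit 426360) (nat_lit 15) (.e (nat_lit 2050) (nat_lit 142) .nil))))))) (.g (nat_lit 1) (.e (nat_lit 441365) (nat_lit 0) .nil) .nil))) 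
(.lf (nat_lit 609190) (.g (nat_lit 2540) (.e (nat_lit 704732) (nat_lit 11) (.e (nat_lit 16412) (nat_lit 2) (.e (nat_lit 196666) (nat_lit 13) (.e (nat_lit 65610) (nat_lit 10) (.e (nat_lit 344129) (nat_lit 26) .nil))))) (.g (nat_lit 0) (.e (nat_lit 443389) (nat_lit 0) .nil) .nil)))))) (.nd (nat_lit 7) (.nd (nat_lit 8) (.nd (nat_lit 9) 
(.lf (nat_lit 608358) (.g (nat_lit 2835) (.e (nat_lit 704589) (nat_lit 3) (.e (nat_lit 163976) (nat_lit 30) (.e (nat_lit 573492) (nat_lit 15) (.e (nat_lit 81956) (nat_lit 23) (.e (nat_lit 98360) (nat_lit 26) (.e (nat_lit 426410) (nat_lit 15) (.e (nat_lit 2059) (nat_lit 142) .nil))))))) (.g (nat_lit 1) (.e (nat_lit 440798) (nat_lit 0) .nil) .nil))) 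
(.lf (nat_lit 608870) (.g (nat_lit 509) (.e (nat_lit 704597) (nat_lit 6) (.e (nat_lit 188449) (nat_lit 22) (.e (nat_lit 204544) (nat_lit 2) .nil))) (.g (nat_lit 0) (.e (nat_lit 442289) (nat_lit 0) .nil) .nil)))) (.nd (nat_lit 9) 
(.lf (nat_lit 608614) (.g (nat_lit 2916) (.e (nat_lit 704589) (nat_lit 3) (.e (nat_lit 163979) (nat_lit 30) (.e (nat_lit 573492) (nat_lit 15) (.e (nat_lit 81956) (nat_lit 23) (.e (nat_lit 98383) (nat_lit 32) .nil))))) (.g (nat_lit 0) (.e (nat_lit 441089) (nat_lit 0) .nil) .nil))) 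
(.lf (nat_lit 609126) (.g (nat_lit 940) (.e (nat_lit 704599) (nat_lit 6) (.e (nat_lit 188455) (nat_lit 24) (.e (nat_lit 229665) (nat_lit 240) (.e (nat_lit 2725) (nat_lit 172) .nil)))) (.g (nat_lit 0) (.e (nat_lit 442679) (nat_lit 0) .nil) .nil))))) (.nd (nat_lit 8) (.nd (nat_lit 9) 
(.lf (nat_lit 608486) (.g (nat_lit 2127) (.e (nat_lit 704589) (nat_lit 3) (.e (nat_lit 163979) (nat_lit 30) (.e (nat_lit 573482) (nat_lit 13) (.e (nat_lit 65619) (nat_lit 10) (.e (nat_lit 344117) (nat_lit 21) (.e (nat_lit 516147) (nat_lit 9) (.e (nat_lit 426393) (nat_lit 15) (.e (nat_lit 2057) (nat_lit 142) .nil)))))))) (.g (nat_lit 1) (.e (nat_lit 440945) (nat_lit 0) .nil) .nil))) 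
(.lf (nat_lit 608998) (.g (nat_lit 322) (.e (nat_lit 704598) (nat_lit 6) (.e (nat_lit 188455) (nat_lit 24) (.e (nat_lit 229663) (nat_lit 240) .nil))) (.g (nat_lit 0) (.e (nat_lit 442491) (nat_lit 0) .nil) .nil)))) (.nd (nat_lit 9) 
(.lf (nat_lit 608742) (.g (nat_lit 3100) (.e (nat_lit 704590) (nat_lit 3) (.e (nat_lit 163962) (nat_lit 25) (.e (nat_lit 532544) (nat_lit 10) (.e (nat_lit 344129) (nat_lit 26) (.e (nat_lit 557104) (nat_lit 14) (.e (nat_lit 188160) (nat_lit 3) (.e (nat_lit 516106) (nat_lit 0) (.e (nat_lit 7936) (nat_lit 218) .nil)))))))) (.g (nat_lit 1) (.e (nat_lit 441495) (nat_lit 0) .nil) .nil))) 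
(.lf (nat_lit 609254) (.g (nat_lit 994) (.e (nat_lit 704737) (nat_lit 11) (.e (nat_lit 16473) (nat_lit 14) (.e (nat_lit 491584) (nat_lit 28) .nil))) (.g (nat_lit 0) (.e (nat_lit 443797) (nat_lit 0) .nil) .nil)))))))) (.nd (nat_lit 5) (.nd (nat_lit 6) (.nd (nat_lit 7) (.nd (nat_lit 8) (.nd (nat_lit 9) 
(.lf (nat_lit 608278) (.g (nat_lit 2055) (.e (nat_lit 704589) (nat_lit 3) (.e (nat_lit 163976) (nat_lit 30) (.e (nat_lit 573491) (nat_lit 15) (.e (nat_lit 81946) (nat_lit 20) (.e (nat_lit 1802) (nat_lit 119) (.e (nat_lit 516182) (nat_lit 15) (.e (nat_lit 475197) (nat_lit 40) .nil))))))) (.g (nat_lit 1) (.e (nat_lit 440623) (nat_lit 0) .nil) .nil))) 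
(.lf (nat_lit 608790) (.g (nat_lit 2805) (.e (nat_lit 704592) (nat_lit 4) (.e (nat_lit 172126) (nat_lit 14) (.e (nat_lit 491571) (nat_lit 13) (.e (nat_lit 393291) (nat_lit 26) (.e (nat_lit 475196) (nat_lit 40) .nil))))) (.g (nat_lit 1) (.e (nat_lit 441848) (nat_lit 0) .nil) .nil)))) (.nd (nat_lit 9) 
(.lf (nat_lit 608534) (.g (nat_lit 3021) (.e (nat_lit 704589) (nat_lit 3) (.e (nat_lit 163979) (nat_lit 30) (.e (nat_lit 573491) (nat_lit 15) (.e (nat_lit 81954) (nat_lit 23) (.e (nat_lit 98356) (nat_lit 26) (.e (nat_lit 426360) (nat_lit 15) (.e (nat_lit 2061) (nat_lit 142) .nil))))))) (.g (nat_lit 1) (.e (nat_lit 441000) (nat_lit 0) .nil) .nil))) 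
(.lf (nat_lit 609046) (.g (nat_lit 633) (.e (nat_lit 704599) (nat_lit 6) (.e (nat_lit 188440) (nat_lit 20) (.e (nat_lit 3407) (nat_lit 212) (.e (nat_lit 655378) (nat_lit 4) .nil)))) (.g (nat_lit 0) (.e (nat_lit 442545) (nat_lit 0) .nil) .nil))))) (.nd (nat_lit 8) (.nd (nat_lit 9) 
(.lf (nat_lit 608406) (.g (nat_lit 2280) (.e (nat_lit 704589) (nat_lit 3) (.e (nat_lit 163978) (nat_lit 30) (.e (nat_lit 573485) (nat_lit 13) (.e (nat_lit 65619) (nat_lit 10) (.e (nat_lit 344117) (nat_lit 21) (.e (nat_lit 516147) (nat_lit 9) (.e (nat_lit 426393) (nat_lit 15) (.e (nat_lit 2056) (nat_lit 142) .nil)))))))) (.g (nat_lit 1) (.e (nat_lit 440859) (nat_lit 0) .nil) .nil))) 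
(.lf (nat_lit 608918) (.g (nat_lit 2803) (.e (nat_lit 704598) (nat_lit 6) (.e (nat_lit 188434) (nat_lit 20) (.e (nat_lit 3409) (nat_lit 212) (.e (nat_lit 655378) (nat_lit 4) (.e (nat_lit 172118) (nat_lit 12) (.e (nat_lit 475198) (nat_lit 40) .nil)))))) (.g (nat_lit 1) (.e (nat_lit 442385) (nat_lit 0) .nil) .nil)))) (.nd (nat_lit 9) 
(.lf (nat_lit 608662) (.g (nat_lit 3501) (.e (nat_lit 704589) (nat_lit 3) (.e (nat_lit 163979) (nat_lit 30) (.e (nat_lit 573493) (nat_lit 15) (.e (nat_lit 81956) (nat_lit 23) (.e (nat_lit 98355) (nat_lit 26) (.e (nat_lit 426376) (nat_lit 15) (.e (nat_lit 2057) (nat_lit 142) .nil))))))) (.g (nat_lit 1) (.e (nat_lit 441349) (nat_lit 0) .nil) .nil))) 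
(.lf (nat_lit 609174) (.g (nat_lit 1001) (.e (nat_lit 704629) (nat_lit 9) (.e (nat_lit 411) (nat_lit 32) (.e (nat_lit 426125) (nat_lit 2) (.e (nat_lit 196666) (nat_lit 13) .nil)))) (.g (nat_lit 0) (.e (nat_lit 443247) (nat_lit 0) .nil) .nil)))))) (.nd (nat_lit 7) (.nd (nat_lit 8) (.nd (nat_lit 9) 
(.lf (nat_lit 608342) (.g (nat_lit 3109) (.e (nat_lit 704589) (nat_lit 3) (.e (nat_lit 163976) (nat_lit 30) (.e (nat_lit 573492) (nat_lit 15) (.e (nat_lit 81956) (nat_lit 23) (.e (nat_lit 98356) (nat_lit 26) (.e (nat_lit 426363) (nat_lit 15) (.e (nat_lit 2060) (nat_lit 142) .nil))))))) (.g (nat_lit 1) (.e (nat_lit 440782) (nat_lit 0) .nil) .nil))) 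
(.lf (nat_lit 608854) (.g (nat_lit 1350) (.e (nat_lit 704597) (nat_lit 6) (.e (nat_lit 188444) (nat_lit 21) (.e (nat_lit 164345) (nat_lit 240) (.e (nat_lit 2650) (nat_lit 166) (.e (nat_lit 188416) (nat_lit 0) .nil))))) (.g (nat_lit 0) (.e (nat_lit 442262) (nat_lit 0) .nil) .nil)))) (.nd (nat_lit 9) 
(.lf (nat_lit 608598) (.g (nat_lit 4043) (.e (nat_lit 704589) (nat_lit 3) (.e (nat_lit 163979) (nat_lit 30) (.e (nat_lit 573492) (nat_lit 15) (.e (nat_lit 81956) (nat_lit 23) (.e (nat_lit 98356) (nat_lit 26) (.e (nat_lit 426363) (nat_lit 15) (.e (nat_lit 2056) (nat_lit 142) .nil))))))) (.g (nat_lit 1) (.e (nat_lit 441073) (nat_lit 0) .nil) .nil))) 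
(.lf (nat_lit 609110) (.g (nat_lit 2655) (.e (nat_lit 704599) (nat_lit 6) (.e (nat_lit 188455) (nat_lit 24) (.e (nat_lit 229663) (nat_lit 240) (.e (nat_lit 2497) (nat_lit 157) (.e (nat_lit 2854) (nat_lit 184) .nil))))) (.g (nat_lit 0) (.e (nat_lit 442650) (nat_lit 0) .nil) .nil))))) (.nd (nat_lit 8) (.nd (nat_lit 9) 
(.lf (nat_lit 608470) (.g (nat_lit 3287) (.e (nat_lit 704589) (nat_lit 3) (.e (nat_lit 163979) (nat_lit 30) (.e (nat_lit 573482) (nat_lit 13) (.e (nat_lit 65619) (nat_lit 10) (.e (nat_lit 344117) (nat_lit 21) (.e (nat_lit 516144) (nat_lit 9) (.e (nat_lit 426379) (nat_lit 15) (.e (nat_lit 2056) (nat_lit 142) .nil)))))))) (.g (nat_lit 1) (.e (nat_lit 440929) (nat_lit 0) .nil) .nil))) 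
(.lf (nat_lit 608982) (.g (nat_lit 484) (.e (nat_lit 704598) (nat_lit 6) (.e (nat_lit 188453) (nat_lit 24) (.e (nat_lit 229678) (nat_lit 244) .nil))) (.g (nat_lit 0) (.e (nat_lit 442475) (nat_lit 0) .nil) .nil)))) (.nd (nat_lit 9) 
(.lf (nat_lit 608726) (.g (nat_lit 3227) (.e (nat_lit 704589) (nat_lit 3) (.e (nat_lit 163979) (nat_lit 30) (.e (nat_lit 573493) (nat_lit 15) (.e (nat_lit 81956) (nat_lit 23) (.e (nat_lit 106240) (nat_lit 26) (.e (nat_lit 426419) (nat_lit 15) (.e (nat_lit 2059) (nat_lit 142) .nil))))))) (.g (nat_lit 1) (.e (nat_lit 441413) (nat_lit 0) .nil) .nil))) 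
(.lf (nat_lit 609238) (.g (nat_lit 3133) (.e (nat_lit 704737) (nat_lit 11) (.e (nat_lit 16447) (nat_lit 10) (.e (nat_lit 434212) (nat_lit 18) (.e (nat_lit 6425) (nat_lit 342) (.e (nat_lit 229413) (nat_lit 15) (.e (nat_lit 450603) (nat_lit 22) .nil)))))) (.g (nat_lit 1) (.e (nat_lit 443699) (nat_lit 0) .nil) .nil))))))) (.nd (nat_lit 6) (.nd (nat_lit 7) (.nd (nat_lit 8) (.nd (nat_lit 9) 
(.lf (nat_lit 608310) (.g (nat_lit 2403) (.e (nat_lit 704589) (nat_lit 3) (.e (nat_lit 163976) (nat_lit 30) (.e (nat_lit 573491) (nat_lit 15) (.e (nat_lit 81954) (nat_lit 23) (.e (nat_lit 98359) (nat_lit 26) (.e (nat_lit 426410) (nat_lit 15) (.e (nat_lit 2057) (nat_lit 142) .nil))))))) (.g (nat_lit 1) (.e (nat_lit 440657) (nat_lit 0) .nil) .nil))) 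
(.lf (nat_lit 608822) (.g (nat_lit 1342) (.e (nat_lit 704595) (nat_lit 5) (.e (nat_lit 180278) (nat_lit 32) (.e (nat_lit 1425) (nat_lit 108) (.e (nat_lit 336430) (nat_lit 29) (.e (nat_lit 442378) (nat_lit 0) (.e (nat_lit 2057) (nat_lit 142) .nil)))))) (.g (nat_lit 1) (.e (nat_lit 442139) (nat_lit 0) .nil) .nil)))) (.nd (nat_lit 9) 
(.lf (nat_lit 608566) (.g (nat_lit 3881) (.e (nat_lit 704589) (nat_lit 3) (.e (nat_lit 163979) (nat_lit 30) (.e (nat_lit 573491) (nat_lit 15) (.e (nat_lit 81954) (nat_lit 23) (.e (nat_lit 98384) (nat_lit 32) (.e (nat_lit 483072) (nat_lit 40) .nil)))))) (.g (nat_lit 1) (.e (nat_lit 441032) (nat_lit 0) .nil) .nil))) 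
(.lf (nat_lit 609078) (.g (nat_lit 2175) (.e (nat_lit 704599) (nat_lit 6) (.e (nat_lit 188446) (nat_lit 21) (.e (nat_lit 164347) (nat_lit 240) (.e (nat_lit 2650) (nat_lit 166) (.e (nat_lit 188419) (nat_lit 0) .nil))))) (.g (nat_lit 0) (.e (nat_lit 442587) (nat_lit 0) .nil) .nil))))) (.nd (nat_lit 8) (.nd (nat_lit 9) 
(.lf (nat_lit 608438) (.g (nat_lit 2045) (.e (nat_lit 704589) (nat_lit 3) (.e (nat_lit 163979) (nat_lit 30) (.e (nat_lit 573481) (nat_lit 13) (.e (nat_lit 65613) (nat_lit 10) .nil)))) (.g (nat_lit 0) (.e (nat_lit 440897) (nat_lit 0) .nil) .nil))) 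
(.lf (nat_lit 608950) (.g (nat_lit 2216) (.e (nat_lit 704598) (nat_lit 6) (.e (nat_lit 188446) (nat_lit 21) (.e (nat_lit 164347) (nat_lit 240) (.e (nat_lit 2650) (nat_lit 166) (.e (nat_lit 188420) (nat_lit 0) .nil))))) (.g (nat_lit 0) (.e (nat_lit 442423) (nat_lit 0) .nil) .nil)))) (.nd (nat_lit 9) 
(.lf (nat_lit 608694) (.g (nat_lit 4613) (.e (nat_lit 704589) (nat_lit 3) (.e (nat_lit 163979) (nat_lit 30) (.e (nat_lit 573493) (nat_lit 15) (.e (nat_lit 81956) (nat_lit 23) (.e (nat_lit 98356) (nat_lit 26) (.e (nat_lit 426375) (nat_lit 15) (.e (nat_lit 2057) (nat_lit 142) .nil))))))) (.g (nat_lit 1) (.e (nat_lit 441381) (nat_lit 0) .nil) .nil))) 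
(.lf (nat_lit 609206) (.g (nat_lit 1741) (.e (nat_lit 704734) (nat_lit 11) (.e (nat_lit 16436) (nat_lit 9) (.e (nat_lit 426555) (nat_lit 32) (.e (nat_lit 376857) (nat_lit 21) (.e (nat_lit 57852) (nat_lit 252) .nil))))) (.g (nat_lit 0) (.e (nat_lit 443450) (nat_lit 0) .nil) .nil)))))) (.nd (nat_lit 7) (.nd (nat_lit 8) (.nd (nat_lit 9) 
(.lf (nat_lit 608374) (.g (nat_lit 6210) (.e (nat_lit 704589) (nat_lit 3) (.e (nat_lit 163978) (nat_lit 30) (.e (nat_lit 573485) (nat_lit 13) (.e (nat_lit 65604) (nat_lit 9) (.e (nat_lit 336013) (nat_lit 2) (.e (nat_lit 90168) (nat_lit 13) (.e (nat_lit 172133) (nat_lit 15) (.e (nat_lit 2059) (nat_lit 142) .nil)))))))) (.g (nat_lit 1) (.e (nat_lit 440824) (nat_lit 0) .nil) .nil))) 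
(.lf (nat_lit 608886) (.g (nat_lit 647) (.e (nat_lit 704597) (nat_lit 6) (.e (nat_lit 188453) (nat_lit 24) (.e (nat_lit 229679) (nat_lit 244) .nil))) (.g (nat_lit 0) (.e (nat_lit 442342) (nat_lit 0) .nil) .nil)))) (.nd (nat_lit 9) 
(.lf (nat_lit 608630) (.g (nat_lit 844) (.e (nat_lit 704589) (nat_lit 3) (.e (nat_lit 163979) (nat_lit 30) (.e (nat_lit 573493) (nat_lit 15) (.e (nat_lit 81953) (nat_lit 22) .nil)))) (.g (nat_lit 0) (.e (nat_lit 441214) (nat_lit 0) .nil) .nil))) 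
(.lf (nat_lit 609142) (.g (nat_lit 2244) (.e (nat_lit 704599) (nat_lit 6) (.e (nat_lit 188455) (nat_lit 24) (.e (nat_lit 229678) (nat_lit 244) (.e (nat_lit 163909) (nat_lit 12) .nil)))) (.g (nat_lit 0) (.e (nat_lit 442701) (nat_lit 0) .nil) .nil))))) (.nd (nat_lit 8) (.nd (nat_lit 9) 
(.lf (nat_lit 608502) (.g (nat_lit 6241) (.e (nat_lit 704589) (nat_lit 3) (.e (nat_lit 163979) (nat_lit 30) (.e (nat_lit 573484) (nat_lit 13) (.e (nat_lit 65610) (nat_lit 10) (.e (nat_lit 344117) (nat_lit 21) (.e (nat_lit 516151) (nat_lit 9) (.e (nat_lit 426412) (nat_lit 15) (.e (nat_lit 2057) (nat_lit 142) .nil)))))))) (.g (nat_lit 1) (.e (nat_lit 440961) (nat_lit 0) .nil) .nil))) 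
(.lf (nat_lit 609014) (.g (nat_lit 1862) (.e (nat_lit 704598) (nat_lit 6) (.e (nat_lit 188455) (nat_lit 24) (.e (nat_lit 229664) (nat_lit 240) (.e (nat_lit 2725) (nat_lit 172) (.e (nat_lit 237616) (nat_lit 12) .nil))))) (.g (nat_lit 0) (.e (nat_lit 442511) (nat_lit 0) .nil) .nil)))) (.nd (nat_lit 9) 
(.lf (nat_lit 608758) (.g (nat_lit 4378) (.e (nat_lit 704590) (nat_lit 3) (.e (nat_lit 163975) (nat_lit 30) (.e (nat_lit 573492) (nat_lit 15) (.e (nat_lit 81956) (nat_lit 23) (.e (nat_lit 98384) (nat_lit 32) (.e (nat_lit 475196) (nat_lit 40) .nil)))))) (.g (nat_lit 1) (.e (nat_lit 441572) (nat_lit 0) .nil) .nil))) 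
(.lf (nat_lit 609270) (.g (nat_lit 4292) (.e (nat_lit 704738) (nat_lit 11) (.e (nat_lit 16425) (nat_lit 7) (.e (nat_lit 409649) (nat_lit 18) (.e (nat_lit 303140) (nat_lit 10) (.e (nat_lit 434275) (nat_lit 39) (.e (nat_lit 663580) (nat_lit 9) (.e (nat_lit 7936) (nat_lit 157) (.e (nat_lit 3526) (nat_lit 218) .nil)))))))) (.g (nat_lit 1) (.e (nat_lit 443891) (nat_lit 0) .nil) .nil))))))))) 
(.nd (nat_lit 4) (.nd (nat_lit 5) (.nd (nat_lit 6) (.nd (nat_lit 7) (.nd (nat_lit 8) 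
(.nd (nat_lit 9) 
(.lf (nat_lit 608270) (.g (nat_lit 4513) (.e (nat_lit 704589) (nat_lit 3) (.e (nat_lit 163976) (nat_lit 30) (.e (nat_lit 573481) (nat_lit 13) (.e (nat_lit 65619) (nat_lit 10) (.e (nat_lit 344117) (nat_lit 21) (.e (nat_lit 516151) (nat_lit 9) (.e (nat_lit 426414) (nat_lit 15) (.e (nat_lit 2058) (nat_lit 142) .nil)))))))) (.g (nat_lit 1) (.e (nat_lit 440615) (nat_lit 0) .nil) .nil))) 
(.lf (nat_lit 608782) (.g (nat_lit 1955) (.e (nat_lit 704592) (nat_lit 4) (.e (nat_lit 172126) (nat_lit 14) (.e (nat_lit 491550) (nat_lit 9) (.e (nat_lit 336430) (nat_lit 29) (.e (nat_lit 442377) (nat_lit 0) .nil))))) (.g (nat_lit 0) (.e (nat_lit 441706) (nat_lit 0) .nil) .nil)))) (.nd (nat_lit 9) 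
(.lf (nat_lit 608526) (.g (nat_lit 2087) (.e (nat_lit 704589) (nat_lit 3) (.e (nat_lit 163979) (nat_lit 30) (.e (nat_lit 573491) (nat_lit 15) (.e (nat_lit 81954) (nat_lit 23) (.e (nat_lit 98355) (nat_lit 26) (.e (nat_lit 426402) (nat_lit 15) (.e (nat_lit 2046) (nat_lit 142) .nil))))))) (.g (nat_lit 1) (.e (nat_lit 440992) (nat_lit 0) .nil) .nil))) 
(.lf (nat_lit 609038) (.g (nat_lit 1798) (.e (nat_lit 704598) (nat_lit 6) (.e (nat_lit 188455) (nat_lit 24) (.e (nat_lit 229680) (nat_lit 244) (.e (nat_lit 163902) (nat_lit 12) (.e (nat_lit 426319) (nat_lit 12) .nil))))) (.g (nat_lit 0) (.e (nat_lit 442536) (nat_lit 0) .nil) .nil))))) (.nd (nat_lit 8) (.nd (nat_lit 9) 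
(.lf (nat_lit 608398) (.g (nat_lit 5426) (.e (nat_lit 704589) (nat_lit 3) (.e (nat_lit 163978) (nat_lit 30) (.e (nat_lit 573485) (nat_lit 13) (.e (nat_lit 65619) (nat_lit 10) (.e (nat_lit 344117) (nat_lit 21) (.e (nat_lit 516145) (nat_lit 9) (.e (nat_lit 426375) (nat_lit 15) (.e (nat_lit 2059) (nat_lit 142) .nil)))))))) (.g (nat_lit 1) (.e (nat_lit 440851) (nat_lit 0) .nil) .nil))) 
(.lf (nat_lit 608910) (.g (nat_lit 1168) (.e (nat_lit 704598) (nat_lit 6) (.e (nat_lit 188434) (nat_lit 20) (.e (nat_lit 3406) (nat_lit 212) (.e (nat_lit 655380) (nat_lit 6) (.e (nat_lit 188420) (nat_lit 0) (.e (nat_lit 2057) (nat_lit 142) .nil)))))) (.g (nat_lit 1) (.e (nat_lit 442377) (nat_lit 0) .nil) .nil)))) (.nd (nat_lit 9) 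
(.lf (nat_lit 608654) (.g (nat_lit 2918) (.e (nat_lit 704589) (nat_lit 3) (.e (nat_lit 163979) (nat_lit 30) (.e (nat_lit 573493) (nat_lit 15) (.e (nat_lit 81954) (nat_lit 23) (.e (nat_lit 98383) (nat_lit 32) .nil))))) (.g (nat_lit 0) (.e (nat_lit 441331) (nat_lit 0) .nil) .nil))) 
(.lf (nat_lit 609166) (.g (nat_lit 3411) (.e (nat_lit 704629) (nat_lit 9) (.e (nat_lit 375) (nat_lit 32) (.e (nat_lit 426118) (nat_lit 2) (.e (nat_lit 196666) (nat_lit 13) (.e (nat_lit 65617) (nat_lit 10) (.e (nat_lit 344130) (nat_lit 26) (.e (nat_lit 557090) (nat_lit 12) (.e (nat_lit 164022) (nat_lit 46) .nil)))))))) (.g (nat_lit 1) (.e (nat_lit 443116) (nat_lit 0) .nil) .nil)))))) 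
(.nd (nat_lit 7) (.nd (nat_lit 8) (.nd (nat_lit 9) 
(.lf (nat_lit 608334) (.g (nat_lit 3563) (.e (nat_lit 704589) (nat_lit 3) (.e (nat_lit 163976) (nat_lit 30) (.e (nat_lit 573492) (nat_lit 15) (.e (nat_lit 81956) (nat_lit 23) (.e (nat_lit 98356) (nat_lit 26) (.e (nat_lit 426360) (nat_lit 15) (.e (nat_lit 2061) (nat_lit 142) .nil))))))) (.g (nat_lit 1) (.e (nat_lit 440774) (nat_lit 0) .nil) .nil))) 
(.lf (nat_lit 608846) (.g (nat_lit 496) (.e (nat_lit 704597) (nat_lit 6) (.e (nat_lit 188434) (nat_lit 20) (.e (nat_lit 3409) (nat_lit 212) .nil))) (.g (nat_lit 0) (.e (nat_lit 442243) (nat_lit 0) .nil) .nil)))) (.nd (nat_lit 9) 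
(.lf (nat_lit 608590) (.g (nat_lit 3647) (.e (nat_lit 704589) (nat_lit 3) (.e (nat_lit 163979) (nat_lit 30) (.e (nat_lit 573492) (nat_lit 15) (.e (nat_lit 81956) (nat_lit 23) (.e (nat_lit 98356) (nat_lit 26) (.e (nat_lit 426360) (nat_lit 15) (.e (nat_lit 2061) (nat_lit 142) .nil))))))) (.g (nat_lit 1) (.e (nat_lit 441065) (nat_lit 0) .nil) .nil))) 
(.lf (nat_lit 609102) (.g (nat_lit 502) (.e (nat_lit 704599) (nat_lit 6) (.e (nat_lit 188453) (nat_lit 24) (.e (nat_lit 229679) (nat_lit 244) .nil))) (.g (nat_lit 0) (.e (nat_lit 442634) (nat_lit 0) .nil) .nil))))) (.nd (nat_lit 8) (.nd (nat_lit 9) 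
(.lf (nat_lit 608462) (.g (nat_lit 2192) (.e (nat_lit 704589) (nat_lit 3) (.e (nat_lit 163979) (nat_lit 30) (.e (nat_lit 573482) (nat_lit 13) (.e (nat_lit 65619) (nat_lit 10) (.e (nat_lit 344107) (nat_lit 19) .nil))))) (.g (nat_lit 0) (.e (nat_lit 440921) (nat_lit 0) .nil) .nil))) 
(.lf (nat_lit 608974) (.g (nat_lit 3054) (.e (nat_lit 704598) (nat_lit 6) (.e (nat_lit 188453) (nat_lit 24) (.e (nat_lit 229664) (nat_lit 240) (.e (nat_lit 2630) (nat_lit 164) (.e (nat_lit 172120) (nat_lit 12) (.e (nat_lit 475197) (nat_lit 40) .nil)))))) (.g (nat_lit 1) (.e (nat_lit 442466) (nat_lit 0) .nil) .nil)))) (.nd (nat_lit 9) 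
(.lf (nat_lit 608718) (.g (nat_lit 4437) (.e (nat_lit 704589) (nat_lit 3) (.e (nat_lit 163979) (nat_lit 30) (.e (nat_lit 573493) (nat_lit 15) (.e (nat_lit 81956) (nat_lit 23) (.e (nat_lit 98362) (nat_lit 26) .nil))))) (.g (nat_lit 0) (.e (nat_lit 441405) (nat_lit 0) .nil) .nil))) 
(.lf (nat_lit 609230) (.g (nat_lit 469) (.e (nat_lit 704737) (nat_lit 11) (.e (nat_lit 16388) (nat_lit 0) (.e (nat_lit 7379) (nat_lit 390) .nil))) (.g (nat_lit 0) (.e (nat_lit 443652) (nat_lit 0) .nil) .nil))))))) (.nd (nat_lit 6) (.nd (nat_lit 7) (.nd (nat_lit 8) (.nd (nat_lit 9) 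
(.lf (nat_lit 608302) (.g (nat_lit 2991) (.e (nat_lit 704589) (nat_lit 3) (.e (nat_lit 163976) (nat_lit 30) (.e (nat_lit 573491) (nat_lit 15) (.e (nat_lit 81954) (nat_lit 23) (.e (nat_lit 98356) (nat_lit 26) (.e (nat_lit 426376) (nat_lit 15) (.e (nat_lit 2056) (nat_lit 142) .nil))))))) (.g (nat_lit 1) (.e (nat_lit 440649) (nat_lit 0) .nil) .nil))) 
(.lf (nat_lit 608814) (.g (nat_lit 2077) (.e (nat_lit 704595) (nat_lit 5) (.e (nat_lit 180277) (nat_lit 32) (.e (nat_lit 1426) (nat_lit 108) (.e (nat_lit 336430) (nat_lit 29) (.e (nat_lit 442379) (nat_lit 0) (.e (nat_lit 2057) (nat_lit 142) .nil)))))) (.g (nat_lit 1) (.e (nat_lit 442112) (nat_lit 0) .nil) .nil)))) (.nd (nat_lit 9) 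
(.lf (nat_lit 608558) (.g (nat_lit 1814) (.e (nat_lit 704589) (nat_lit 3) (.e (nat_lit 163979) (nat_lit 30) (.e (nat_lit 573491) (nat_lit 15) (.e (nat_lit 81954) (nat_lit 23) (.e (nat_lit 98357) (nat_lit 26) .nil))))) (.g (nat_lit 0) (.e (nat_lit 441024) (nat_lit 0) .nil) .nil))) 
(.lf (nat_lit 609070) (.g (nat_lit 1631) (.e (nat_lit 704599) (nat_lit 6) (.e (nat_lit 188446) (nat_lit 21) (.e (nat_lit 164346) (nat_lit 240) (.e (nat_lit 2619) (nat_lit 164) (.e (nat_lit 172118) (nat_lit 12) .nil))))) (.g (nat_lit 0) (.e (nat_lit 442577) (nat_lit 0) .nil) .nil))))) (.nd (nat_lit 8) (.nd (nat_lit 9) 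
(.lf (nat_lit 608430) (.g (nat_lit 2727) (.e (nat_lit 704589) (nat_lit 3) (.e (nat_lit 163978) (nat_lit 30) (.e (nat_lit 573493) (nat_lit 15) (.e (nat_lit 81956) (nat_lit 23) .nil)))) (.g (nat_lit 0) (.e (nat_lit 440887) (nat_lit 0) .nil) .nil))) 
(.lf (nat_lit 608942) (.g (nat_lit 1614) (.e (nat_lit 704598) (nat_lit 6) (.e (nat_lit 188444) (nat_lit 21) (.e (nat_lit 164348) (nat_lit 240) (.e (nat_lit 2619) (nat_lit 164) (.e (nat_lit 172118) (nat_lit 12) .nil))))) (.g (nat_lit 0) (.e (nat_lit 442412) (nat_lit 0) .nil) .nil)))) (.nd (nat_lit 9) 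
(.lf (nat_lit 608686) (.g (nat_lit 4215) (.e (nat_lit 704589) (nat_lit 3) (.e (nat_lit 163979) (nat_lit 30) (.e (nat_lit 573493) (nat_lit 15) (.e (nat_lit 81956) (nat_lit 23) (.e (nat_lit 98356) (nat_lit 26) (.e (nat_lit 426364) (nat_lit 15) (.e (nat_lit 2056) (nat_lit 142) .nil))))))) (.g (nat_lit 1) (.e (nat_lit 441373) (nat_lit 0) .nil) .nil))) 
(.lf (nat_lit 609198) (.g (nat_lit 2368) (.e (nat_lit 704732) (nat_lit 11) (.e (nat_lit 16425) (nat_lit 7) (.e (nat_lit 409649) (nat_lit 18) (.e (nat_lit 303140) (nat_lit 10) (.e (nat_lit 434275) (nat_lit 39) .nil))))) (.g (nat_lit 0) (.e (nat_lit 443408) (nat_lit 0) .nil) .nil)))))) (.nd (nat_lit 7) (.nd (nat_lit 8) (.nd (nat_lit 9) 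
(.lf (nat_lit 608366) (.g (nat_lit 1987) (.e (nat_lit 704589) (nat_lit 3) (.e (nat_lit 163976) (nat_lit 30) (.e (nat_lit 573492) (nat_lit 15) (.e (nat_lit 81956) (nat_lit 23) (.e (nat_lit 106240) (nat_lit 32) .nil))))) (.g (nat_lit 0) (.e (nat_lit 440806) (nat_lit 0) .nil) .nil))) 
(.lf (nat_lit 608878) (.g (nat_lit 882) (.e (nat_lit 704597) (nat_lit 6) (.e (nat_lit 188452) (nat_lit 23) (.e (nat_lit 204817) (nat_lit 17) .nil))) (.g (nat_lit 0) (.e (nat_lit 442308) (nat_lit 0) .nil) .nil)))) (.nd (nat_lit 9) 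
(.lf (nat_lit 608622) (.g (nat_lit 3794) (.e (nat_lit 704589) (nat_lit 3) (.e (nat_lit 163979) (nat_lit 30) (.e (nat_lit 573492) (nat_lit 15) (.e (nat_lit 81956) (nat_lit 23) (.e (nat_lit 106240) (nat_lit 32) .nil))))) (.g (nat_lit 0) (.e (nat_lit 441097) (nat_lit 0) .nil) .nil))) 
(.lf (nat_lit 609134) (.g (nat_lit 1995) (.e (nat_lit 704599) (nat_lit 6) (.e (nat_lit 188455) (nat_lit 24) (.e (nat_lit 229678) (nat_lit 244) (.e (nat_lit 163842) (nat_lit 0) .nil)))) (.g (nat_lit 0) (.e (nat_lit 442691) (nat_lit 0) .nil) .nil))))) (.nd (nat_lit 8) (.nd (nat_lit 9) 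
(.lf (nat_lit 608494) (.g (nat_lit 2400) (.e (nat_lit 704589) (nat_lit 3) (.e (nat_lit 163979) (nat_lit 30) (.e (nat_lit 573482) (nat_lit 13) (.e (nat_lit 65619) (nat_lit 10) (.e (nat_lit 344117) (nat_lit 21) (.e (nat_lit 516152) (nat_lit 9) (.e (nat_lit 426411) (nat_lit 15) (.e (nat_lit 2056) (nat_lit 142) .nil)))))))) (.g (nat_lit 1) (.e (nat_lit 440953) (nat_lit 0) .nil) .nil))) 
(.lf (nat_lit 609006) (.g (nat_lit 2259) (.e (nat_lit 704598) (nat_lit 6) (.e (nat_lit 188455) (nat_lit 24) (.e (nat_lit 229663) (nat_lit 240) (.e (nat_lit 2647) (nat_lit 166) .nil)))) (.g (nat_lit 0) (.e (nat_lit 442503) (nat_lit 0) .nil) .nil)))) (.nd (nat_lit 9) 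
(.lf (nat_lit 608750) (.g (nat_lit 1019) (.e (nat_lit 704590) (nat_lit 3) (.e (nat_lit 163975) (nat_lit 30) (.e (nat_lit 573481) (nat_lit 13) (.e (nat_lit 65613) (nat_lit 10) .nil)))) (.g (nat_lit 0) (.e (nat_lit 441505) (nat_lit 0) .nil) .nil))) 
(.lf (nat_lit 609262) (.g (nat_lit 3533) (.e (nat_lit 704738) (nat_lit 11) (.e (nat_lit 16425) (nat_lit 7) (.e (nat_lit 409648) (nat_lit 18) (.e (nat_lit 303137) (nat_lit 10) (.e (nat_lit 434275) (nat_lit 39) (.e (nat_lit 663580) (nat_lit 9) (.e (nat_lit 2478) (nat_lit 157) (.e (nat_lit 7936) (nat_lit 218) .nil)))))))) (.g (nat_lit 1) (.e (nat_lit 443883) (nat_lit 0) .nil) .nil)))))))) 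
(.nd (nat_lit 5) (.nd (nat_lit 6) (.nd (nat_lit 7) (.nd (nat_lit 8) (.nd (nat_lit 9) 
(.lf (nat_lit 608286) (.g (nat_lit 1493) (.e (nat_lit 704589) (nat_lit 3) (.e (nat_lit 163976) (nat_lit 30) (.e (nat_lit 573491) (nat_lit 15) (.e (nat_lit 81954) (nat_lit 23) (.e (nat_lit 98355) (nat_lit 26) (.e (nat_lit 426393) (nat_lit 15) (.e (nat_lit 2057) (nat_lit 142) .nil))))))) (.g (nat_lit 1) (.e (nat_lit 440633) (nat_lit 0) .nil) .nil))) 
(.lf (nat_lit 608798) (.g (nat_lit 2317) (.e (nat_lit 704593) (nat_lit 4) (.e (nat_lit 172124) (nat_lit 14) (.e (nat_lit 491549) (nat_lit 9) (.e (nat_lit 336430) (nat_lit 29) (.e (nat_lit 442379) (nat_lit 0) .nil))))) (.g (nat_lit 0) (.e (nat_lit 441881) (nat_lit 0) .nil) .nil)))) (.nd (nat_lit 9) 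
(.lf (nat_lit 608542) (.g (nat_lit 2285) (.e (nat_lit 704589) (nat_lit 3) (.e (nat_lit 163979) (nat_lit 30) (.e (nat_lit 573491) (nat_lit 15) (.e (nat_lit 81954) (nat_lit 23) (.e (nat_lit 98356) (nat_lit 26) (.e (nat_lit 426363) (nat_lit 15) (.e (nat_lit 2044) (nat_lit 142) .nil))))))) (.g (nat_lit 1) (.e (nat_lit 441008) (nat_lit 0) .nil) .nil))) 
(.lf (nat_lit 609054) (.g (nat_lit 1935) (.e (nat_lit 704599) (nat_lit 6) (.e (nat_lit 188444) (nat_lit 21) (.e (nat_lit 164347) (nat_lit 240) (.e (nat_lit 2648) (nat_lit 166) (.e (nat_lit 188418) (nat_lit 0) .nil))))) (.g (nat_lit 0) (.e (nat_lit 442561) (nat_lit 0) .nil) .nil))))) (.nd (nat_lit 8) (.nd (nat_lit 9) 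
(.lf (nat_lit 608414) (.g (nat_lit 2366) (.e (nat_lit 704589) (nat_lit 3) (.e (nat_lit 163978) (nat_lit 30) (.e (nat_lit 573485) (nat_lit 13) (.e (nat_lit 65619) (nat_lit 10) (.e (nat_lit 344117) (nat_lit 21) (.e (nat_lit 516152) (nat_lit 9) (.e (nat_lit 426411) (nat_lit 15) (.e (nat_lit 2056) (nat_lit 142) .nil)))))))) (.g (nat_lit 1) (.e (nat_lit 440867) (nat_lit 0) .nil) .nil))) 
(.lf (nat_lit 608926) (.g (nat_lit 1947) (.e (nat_lit 704598) (nat_lit 6) (.e (nat_lit 188434) (nat_lit 20) (.e (nat_lit 3409) (nat_lit 212) (.e (nat_lit 655380) (nat_lit 6) (.e (nat_lit 188420) (nat_lit 0) (.e (nat_lit 2059) (nat_lit 142) .nil)))))) (.g (nat_lit 1) (.e (nat_lit 442393) (nat_lit 0) .nil) .nil)))) (.nd (nat_lit 9) 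
(.lf (nat_lit 608670) (.g (nat_lit 3263) (.e (nat_lit 704589) (nat_lit 3) (.e (nat_lit 163979) (nat_lit 30) (.e (nat_lit 573493) (nat_lit 15) (.e (nat_lit 81956) (nat_lit 23) (.e (nat_lit 98355) (nat_lit 26) (.e (nat_lit 426402) (nat_lit 15) (.e (nat_lit 2046) (nat_lit 142) .nil))))))) (.g (nat_lit 1) (.e (nat_lit 441357) (nat_lit 0) .nil) .nil))) 
(.lf (nat_lit 609182) (.g (nat_lit 2983) (.e (nat_lit 704728) (nat_lit 10) (.e (nat_lit 8234) (nat_lit 20) (.e (nat_lit 573489) (nat_lit 14) (.e (nat_lit 73754) (nat_lit 8) (.e (nat_lit 557103) (nat_lit 14) .nil))))) (.g (nat_lit 0) (.e (nat_lit 443364) (nat_lit 0) .nil) .nil)))))) (.nd (nat_lit 7) (.nd (nat_lit 8) (.nd (nat_lit 9) 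
(.lf (nat_lit 608350) (.g (nat_lit 3893) (.e (nat_lit 704589) (nat_lit 3) (.e (nat_lit 163976) (nat_lit 30) (.e (nat_lit 573492) (nat_lit 15) (.e (nat_lit 81956) (nat_lit 23) (.e (nat_lit 98356) (nat_lit 26) (.e (nat_lit 426393) (nat_lit 15) (.e (nat_lit 2056) (nat_lit 142) .nil))))))) (.g (nat_lit 1) (.e (nat_lit 440790) (nat_lit 0) .nil) .nil))) 
(.lf (nat_lit 608862) (.g (nat_lit 1687) (.e (nat_lit 704597) (nat_lit 6) (.e (nat_lit 188446) (nat_lit 21) (.e (nat_lit 164345) (nat_lit 240) (.e (nat_lit 2650) (nat_lit 166) (.e (nat_lit 188416) (nat_lit 0) .nil))))) (.g (nat_lit 0) (.e (nat_lit 442276) (nat_lit 0) .nil) .nil)))) (.nd (nat_lit 9) 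
(.lf (nat_lit 608606) (.g (nat_lit 4935) (.e (nat_lit 704589) (nat_lit 3) (.e (nat_lit 163979) (nat_lit 30) (.e (nat_lit 573492) (nat_lit 15) (.e (nat_lit 81956) (nat_lit 23) (.e (nat_lit 98356) (nat_lit 26) (.e (nat_lit 426375) (nat_lit 15) (.e (nat_lit 2059) (nat_lit 142) .nil))))))) (.g (nat_lit 1) (.e (nat_lit 441081) (nat_lit 0) .nil) .nil))) 
(.lf (nat_lit 609118) (.g (nat_lit 2342) (.e (nat_lit 704599) (nat_lit 6) (.e (nat_lit 188455) (nat_lit 24) (.e (nat_lit 229663) (nat_lit 240) (.e (nat_lit 7936) (nat_lit 166) .nil)))) (.g (nat_lit 0) (.e (nat_lit 442663) (nat_lit 0) .nil) .nil))))) (.nd (nat_lit 8) (.nd (nat_lit 9) 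
(.lf (nat_lit 608478) (.g (nat_lit 4843) (.e (nat_lit 704589) (nat_lit 3) (.e (nat_lit 163979) (nat_lit 30) (.e (nat_lit 573482) (nat_lit 13) (.e (nat_lit 65619) (nat_lit 10) (.e (nat_lit 344117) (nat_lit 21) (.e (nat_lit 516145) (nat_lit 9) (.e (nat_lit 426374) (nat_lit 15) (.e (nat_lit 2059) (nat_lit 142) .nil)))))))) (.g (nat_lit 1) (.e (nat_lit 440937) (nat_lit 0) .nil) .nil))) 
(.lf (nat_lit 608990) (.g (nat_lit 2118) (.e (nat_lit 704598) (nat_lit 6) (.e (nat_lit 188453) (nat_lit 24) (.e (nat_lit 229680) (nat_lit 244) (.e (nat_lit 163908) (nat_lit 12) (.e (nat_lit 426312) (nat_lit 12) (.e (nat_lit 475199) (nat_lit 40) .nil)))))) (.g (nat_lit 1) (.e (nat_lit 442483) (nat_lit 0) .nil) .nil)))) (.nd (nat_lit 9) 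
(.lf (nat_lit 608734) (.g (nat_lit 3214) (.e (nat_lit 704589) (nat_lit 3) (.e (nat_lit 163979) (nat_lit 30) (.e (nat_lit 573493) (nat_lit 15) (.e (nat_lit 81956) (nat_lit 23) (.e (nat_lit 106240) (nat_lit 32) .nil))))) (.g (nat_lit 0) (.e (nat_lit 441421) (nat_lit 0) .nil) .nil))) 
(.lf (nat_lit 609246) (.g (nat_lit 1696) (.e (nat_lit 704737) (nat_lit 11) (.e (nat_lit 16465) (nat_lit 13) (.e (nat_lit 483410) (nat_lit 27) (.e (nat_lit 401448) (nat_lit 10) .nil)))) (.g (nat_lit 0) (.e (nat_lit 443762) (nat_lit 0) .nil) .nil))))))) (.nd (nat_lit 6) (.nd (nat_lit 7) (.nd (nat_lit 8) (.nd (nat_lit 9) 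
(.lf (nat_lit 608318) (.g (nat_lit 940) (.e (nat_lit 704589) (nat_lit 3) (.e (nat_lit 163976) (nat_lit 30) (.e (nat_lit 573492) (nat_lit 15) (.e (nat_lit 81954) (nat_lit 23) .nil)))) (.g (nat_lit 0) (.e (nat_lit 440751) (nat_lit 0) .nil) .nil))) 
(.lf (nat_lit 608830) (.g (nat_lit 1679) (.e (nat_lit 704595) (nat_lit 5) (.e (nat_lit 180278) (nat_lit 32) (.e (nat_lit 1661) (nat_lit 115) (.e (nat_lit 393268) (nat_lit 23) (.e (nat_lit 426362) (nat_lit 15) .nil))))) (.g (nat_lit 0) (.e (nat_lit 442164) (nat_lit 0) .nil) .nil)))) (.nd (nat_lit 9) 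
(.lf (nat_lit 608574) (.g (nat_lit 1601) (.e (nat_lit 704589) (nat_lit 3) (.e (nat_lit 163979) (nat_lit 30) (.e (nat_lit 573492) (nat_lit 15) (.e (nat_lit 81956) (nat_lit 23) .nil)))) (.g (nat_lit 0) (.e (nat_lit 441044) (nat_lit 0) .nil) .nil))) 
(.lf (nat_lit 609086) (.g (nat_lit 1915) (.e (nat_lit 704599) (nat_lit 6) (.e (nat_lit 188452) (nat_lit 23) (.e (nat_lit 204830) (nat_lit 18) (.e (nat_lit 57663) (nat_lit 152) .nil)))) (.g (nat_lit 0) (.e (nat_lit 442604) (nat_lit 0) .nil) .nil))))) (.nd (nat_lit 8) (.nd (nat_lit 9) 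
(.lf (nat_lit 608446) (.g (nat_lit 4611) (.e (nat_lit 704589) (nat_lit 3) (.e (nat_lit 163979) (nat_lit 30) (.e (nat_lit 573482) (nat_lit 13) (.e (nat_lit 65604) (nat_lit 9) (.e (nat_lit 336013) (nat_lit 2) (.e (nat_lit 90170) (nat_lit 13) (.e (nat_lit 172137) (nat_lit 15) (.e (nat_lit 2058) (nat_lit 142) .nil)))))))) (.g (nat_lit 1) (.e (nat_lit 440905) (nat_lit 0) .nil) .nil))) 
(.lf (nat_lit 608958) (.g (nat_lit 2637) (.e (nat_lit 704598) (nat_lit 6) (.e (nat_lit 188446) (nat_lit 21) (.e (nat_lit 164348) (nat_lit 240) (.e (nat_lit 2648) (nat_lit 166) (.e (nat_lit 188420) (nat_lit 0) (.e (nat_lit 2059) (nat_lit 142) .nil)))))) (.g (nat_lit 1) (.e (nat_lit 442435) (nat_lit 0) .nil) .nil)))) (.nd (nat_lit 9) 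
(.lf (nat_lit 608702) (.g (nat_lit 4570) (.e (nat_lit 704589) (nat_lit 3) (.e (nat_lit 163979) (nat_lit 30) (.e (nat_lit 573493) (nat_lit 15) (.e (nat_lit 81956) (nat_lit 23) (.e (nat_lit 98356) (nat_lit 26) (.e (nat_lit 426420) (nat_lit 15) (.e (nat_lit 2056) (nat_lit 142) .nil))))))) (.g (nat_lit 1) (.e (nat_lit 441389) (nat_lit 0) .nil) .nil))) 
(.lf (nat_lit 609214) (.g (nat_lit 2212) (.e (nat_lit 704736) (nat_lit 11) (.e (nat_lit 16412) (nat_lit 2) (.e (nat_lit 196666) (nat_lit 13) (.e (nat_lit 65609) (nat_lit 10) .nil)))) (.g (nat_lit 0) (.e (nat_lit 443511) (nat_lit 0) .nil) .nil)))))) (.nd (nat_lit 7) (.nd (nat_lit 8) (.nd (nat_lit 9) 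
(.lf (nat_lit 608382) (.g (nat_lit 4953) (.e (nat_lit 704589) (nat_lit 3) (.e (nat_lit 163978) (nat_lit 30) (.e (nat_lit 573485) (nat_lit 13) (.e (nat_lit 65610) (nat_lit 10) (.e (nat_lit 344117) (nat_lit 21) (.e (nat_lit 516151) (nat_lit 9) (.e (nat_lit 426412) (nat_lit 15) (.e (nat_lit 2056) (nat_lit 142) .nil)))))))) (.g (nat_lit 1) (.e (nat_lit 440832) (nat_lit 0) .nil) .nil))) 
(.lf (nat_lit 608894) (.g (nat_lit 2145) (.e (nat_lit 704597) (nat_lit 6) (.e (nat_lit 188455) (nat_lit 24) (.e (nat_lit 229678) (nat_lit 244) (.e (nat_lit 163915) (nat_lit 12) .nil)))) (.g (nat_lit 0) (.e (nat_lit 442359) (nat_lit 0) .nil) .nil)))) (.nd (nat_lit 9) 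
(.lf (nat_lit 608638) (.g (nat_lit 3095) (.e (nat_lit 704589) (nat_lit 3) (.e (nat_lit 163979) (nat_lit 30) (.e (nat_lit 573493) (nat_lit 15) (.e (nat_lit 81954) (nat_lit 23) (.e (nat_lit 98356) (nat_lit 26) .nil))))) (.g (nat_lit 0) (.e (nat_lit 441315) (nat_lit 0) .nil) .nil))) 
(.lf (nat_lit 609150) (.g (nat_lit 2713) (.e (nat_lit 704627) (nat_lit 9) (.e (nat_lit 375) (nat_lit 32) (.e (nat_lit 426125) (nat_lit 2) (.e (nat_lit 196630) (nat_lit 9) (.e (nat_lit 1596) (nat_lit 111) .nil))))) (.g (nat_lit 0) (.e (nat_lit 442995) (nat_lit 0) .nil) .nil))))) (.nd (nat_lit 8) (.nd (nat_lit 9) 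
(.lf (nat_lit 608510) (.g (nat_lit 1480) (.e (nat_lit 704589) (nat_lit 3) (.e (nat_lit 163979) (nat_lit 30) (.e (nat_lit 573491) (nat_lit 15) (.e (nat_lit 81943) (nat_lit 20) (.e (nat_lit 1802) (nat_lit 119) .nil))))) (.g (nat_lit 0) (.e (nat_lit 440970) (nat_lit 0) .nil) .nil))) 
(.lf (nat_lit 609022) (.g (nat_lit 1145) (.e (nat_lit 704598) (nat_lit 6) (.e (nat_lit 188455) (nat_lit 24) (.e (nat_lit 229666) (nat_lit 240) (.e (nat_lit 2653) (nat_lit 166) (.e (nat_lit 188418) (nat_lit 0) (.e (nat_lit 2056) (nat_lit 142) .nil)))))) (.g (nat_lit 1) (.e (nat_lit 442519) (nat_lit 0) .nil) .nil)))) (.nd (nat_lit 9) 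
(.lf (nat_lit 608766) (.g (nat_lit 511) (.e (nat_lit 704591) (nat_lit 4) (.e (nat_lit 172126) (nat_lit 14) (.e (nat_lit 491549) (nat_lit 9) .nil))) (.g (nat_lit 0) (.e (nat_lit 441612) (nat_lit 0) .nil) .nil))) 
(.lf (nat_lit 609278) (.g (nat_lit 927) (.e (nat_lit 704738) (nat_lit 11) (.e (nat_lit 16463) (nat_lit 13) (.e (nat_lit 483356) (nat_lit 17) (.e (nat_lit 7936) (nat_lit 362) .nil)))) (.g (nat_lit 0) (.e (nat_lit 443966) (nat_lit 0) .nil) .nil)))))))))))) 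
(.nd (nat_lit 1) (.nd (nat_lit 2) (.nd (nat_lit 3) (.nd (nat_lit 4) (.nd (nat_lit 5) 
(.nd (nat_lit 6) (.nd (nat_lit 7) (.nd (nat_lit 8) (.nd (nat_lit 9) 
(.lf (nat_lit 608257) (.g (nat_lit 1672) (.e (nat_lit 704589) (nat_lit 3) (.e (nat_lit 163975) (nat_lit 30) (.e (nat_lit 573493) (nat_lit 15) (.e (nat_lit 81956) (nat_lit 23) .nil)))) (.g (nat_lit 0) (.e (nat_lit 440598) (nat_lit 0) .nil) .nil))) 
(.lf (nat_lit 608769) (.g (nat_lit 2475) (.e (nat_lit 704592) (nat_lit 4) (.e (nat_lit 172120) (nat_lit 12) (.e (nat_lit 475199) (nat_lit 40) (.e (nat_lit 704598) (nat_lit 6) (.e (nat_lit 188418) (nat_lit 0) (.e (nat_lit 2058) (nat_lit 142) .nil)))))) (.g (nat_lit 1) (.e (nat_lit 441655) (nat_lit 0) .nil) .nil)))) (.nd (nat_lit 9) 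
(.lf (nat_lit 608513) (.g (nat_lit 1904) (.e (nat_lit 704589) (nat_lit 3) (.e (nat_lit 163979) (nat_lit 30) (.e (nat_lit 573491) (nat_lit 15) (.e (nat_lit 81947) (nat_lit 20) (.e (nat_lit 1801) (nat_lit 119) .nil))))) (.g (nat_lit 0) (.e (nat_lit 440973) (nat_lit 0) .nil) .nil))) 
(.lf (nat_lit 609025) (.g (nat_lit 2386) (.e (nat_lit 704598) (nat_lit 6) (.e (nat_lit 188455) (nat_lit 24) (.e (nat_lit 229678) (nat_lit 244) (.e (nat_lit 163900) (nat_lit 12) .nil)))) (.g (nat_lit 0) (.e (nat_lit 442522) (nat_lit 0) .nil) .nil))))) (.nd (nat_lit 8) (.nd (nat_lit 9) 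
(.lf (nat_lit 608385) (.g (nat_lit 1870) (.e (nat_lit 704589) (nat_lit 3) (.e (nat_lit 163978) (nat_lit 30) (.e (nat_lit 573485) (nat_lit 13) (.e (nat_lit 65619) (nat_lit 10) (.e (nat_lit 344117) (nat_lit 21) .nil))))) (.g (nat_lit 0) (.e (nat_lit 440838) (nat_lit 0) .nil) .nil))) 
(.lf (nat_lit 608897) (.g (nat_lit 1275) (.e (nat_lit 704598) (nat_lit 6) (.e (nat_lit 188427) (nat_lit 20) (.e (nat_lit 3397) (nat_lit 211) (.e (nat_lit 647185) (nat_lit 6) (.e (nat_lit 188418) (nat_lit 0) (.e (nat_lit 2057) (nat_lit 142) .nil)))))) (.g (nat_lit 1) (.e (nat_lit 442363) (nat_lit 0) .nil) .nil)))) (.nd (nat_lit 9) 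
(.lf (nat_lit 608641) (.g (nat_lit 3332) (.e (nat_lit 704589) (nat_lit 3) (.e (nat_lit 163979) (nat_lit 30) (.e (nat_lit 573493) (nat_lit 15) (.e (nat_lit 81954) (nat_lit 23) (.e (nat_lit 98356) (nat_lit 26) (.e (nat_lit 426416) (nat_lit 15) (.e (nat_lit 2056) (nat_lit 142) .nil))))))) (.g (nat_lit 1) (.e (nat_lit 441318) (nat_lit 0) .nil) .nil))) 
(.lf (nat_lit 609153) (.g (nat_lit 3605) (.e (nat_lit 704627) (nat_lit 9) (.e (nat_lit 375) (nat_lit 32) (.e (nat_lit 426140) (nat_lit 3) (.e (nat_lit 204869) (nat_lit 29) (.e (nat_lit 360474) (nat_lit 8) (.e (nat_lit 557094) (nat_lit 12) (.e (nat_lit 164022) (nat_lit 46) .nil))))))) (.g (nat_lit 1) (.e (nat_lit 443001) (nat_lit 0) .nil) .nil)))))) 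
(.nd (nat_lit 7) (.nd (nat_lit 8) (.nd (nat_lit 9) 
(.lf (nat_lit 608321) (.g (nat_lit 3075) (.e (nat_lit 704589) (nat_lit 3) (.e (nat_lit 163976) (nat_lit 30) (.e (nat_lit 573492) (nat_lit 15) (.e (nat_lit 81956) (nat_lit 23) (.e (nat_lit 98355) (nat_lit 26) (.e (nat_lit 426375) (nat_lit 15) (.e (nat_lit 2057) (nat_lit 142) .nil))))))) (.g (nat_lit 1) (.e (nat_lit 440761) (nat_lit 0) .nil) .nil))) 
(.lf (nat_lit 608833) (.g (nat_lit 2013) (.e (nat_lit 704595) (nat_lit 5) (.e (nat_lit 180278) (nat_lit 32) (.e (nat_lit 1661) (nat_lit 115) (.e (nat_lit 393268) (nat_lit 23) (.e (nat_lit 426402) (nat_lit 15) .nil))))) (.g (nat_lit 0) (.e (nat_lit 442176) (nat_lit 0) .nil) .nil)))) (.nd (nat_lit 9) 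
(.lf (nat_lit 608577) (.g (nat_lit 3166) (.e (nat_lit 704589) (nat_lit 3) (.e (nat_lit 163979) (nat_lit 30) (.e (nat_lit 573492) (nat_lit 15) (.e (nat_lit 81956) (nat_lit 23) (.e (nat_lit 98355) (nat_lit 26) (.e (nat_lit 426376) (nat_lit 15) (.e (nat_lit 2056) (nat_lit 142) .nil))))))) (.g (nat_lit 1) (.e (nat_lit 441052) (nat_lit 0) .nil) .nil))) 
(.lf (nat_lit 609089) (.g (nat_lit 3367) (.e (nat_lit 704599) (nat_lit 6) (.e (nat_lit 188453) (nat_lit 24) (.e (nat_lit 229663) (nat_lit 240) (.e (nat_lit 2630) (nat_lit 164) (.e (nat_lit 172119) (nat_lit 12) .nil))))) (.g (nat_lit 0) (.e (nat_lit 442612) (nat_lit 0) .nil) .nil))))) (.nd (nat_lit 8) (.nd (nat_lit 9) 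
(.lf (nat_lit 608449) (.g (nat_lit 2942) (.e (nat_lit 704589) (nat_lit 3) (.e (nat_lit 163979) (nat_lit 30) (.e (nat_lit 573482) (nat_lit 13) (.e (nat_lit 65604) (nat_lit 9) (.e (nat_lit 336028) (nat_lit 3) (.e (nat_lit 98359) (nat_lit 26) (.e (nat_lit 426410) (nat_lit 15) (.e (nat_lit 2056) (nat_lit 142) .nil)))))))) (.g (nat_lit 1) (.e (nat_lit 440908) (nat_lit 0) .nil) .nil))) 
(.lf (nat_lit 608961) (.g (nat_lit 1896) (.e (nat_lit 704598) (nat_lit 6) (.e (nat_lit 188446) (nat_lit 21) (.e (nat_lit 164348) (nat_lit 240) (.e (nat_lit 2650) (nat_lit 166) (.e (nat_lit 188419) (nat_lit 0) (.e (nat_lit 2057) (nat_lit 142) .nil)))))) (.g (nat_lit 1) (.e (nat_lit 442438) (nat_lit 0) .nil) .nil)))) (.nd (nat_lit 9) 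
(.lf (nat_lit 608705) (.g (nat_lit 2641) (.e (nat_lit 704589) (nat_lit 3) (.e (nat_lit 163979) (nat_lit 30) (.e (nat_lit 573493) (nat_lit 15) (.e (nat_lit 81956) (nat_lit 23) (.e (nat_lit 98357) (nat_lit 26) .nil))))) (.g (nat_lit 0) (.e (nat_lit 441392) (nat_lit 0) .nil) .nil))) 
(.lf (nat_lit 609217) (.g (nat_lit 1286) (.e (nat_lit 704736) (nat_lit 11) (.e (nat_lit 16415) (nat_lit 3) (.e (nat_lit 204861) (nat_lit 26) (.e (nat_lit 336076) (nat_lit 9) .nil)))) (.g (nat_lit 0) (.e (nat_lit 443518) (nat_lit 0) .nil) .nil))))))) (.nd (nat_lit 6) (.nd (nat_lit 7) (.nd (nat_lit 8) (.nd (nat_lit 9) 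
(.lf (nat_lit 608289) (.g (nat_lit 1274) (.e (nat_lit 704589) (nat_lit 3) (.e (nat_lit 163976) (nat_lit 30) (.e (nat_lit 573491) (nat_lit 15) (.e (nat_lit 81954) (nat_lit 23) (.e (nat_lit 98356) (nat_lit 26) .nil))))) (.g (nat_lit 0) (.e (nat_lit 440636) (nat_lit 0) .nil) .nil))) 
(.lf (nat_lit 608801) (.g (nat_lit 2656) (.e (nat_lit 704593) (nat_lit 4) (.e (nat_lit 172124) (nat_lit 14) (.e (nat_lit 491570) (nat_lit 13) (.e (nat_lit 393271) (nat_lit 23) (.e (nat_lit 426402) (nat_lit 15) .nil))))) (.g (nat_lit 0) (.e (nat_lit 441887) (nat_lit 0) .nil) .nil)))) (.nd (nat_lit 9) 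
(.lf (nat_lit 608545) (.g (nat_lit 3137) (.e (nat_lit 704589) (nat_lit 3) (.e (nat_lit 163979) (nat_lit 30) (.e (nat_lit 573491) (nat_lit 15) (.e (nat_lit 81954) (nat_lit 23) (.e (nat_lit 98356) (nat_lit 26) (.e (nat_lit 426363) (nat_lit 15) (.e (nat_lit 2063) (nat_lit 142) .nil))))))) (.g (nat_lit 1) (.e (nat_lit 441011) (nat_lit 0) .nil) .nil))) 
(.lf (nat_lit 609057) (.g (nat_lit 1149) (.e (nat_lit 704599) (nat_lit 6) (.e (nat_lit 188444) (nat_lit 21) (.e (nat_lit 164348) (nat_lit 240) (.e (nat_lit 2648) (nat_lit 166) .nil)))) (.g (nat_lit 0) (.e (nat_lit 442564) (nat_lit 0) .nil) .nil))))) (.nd (nat_lit 8) (.nd (nat_lit 9) 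
(.lf (nat_lit 608417) (.g (nat_lit 4179) (.e (nat_lit 704589) (nat_lit 3) (.e (nat_lit 163978) (nat_lit 30) (.e (nat_lit 573485) (nat_lit 13) (.e (nat_lit 65619) (nat_lit 10) (.e (nat_lit 344117) (nat_lit 21) (.e (nat_lit 516180) (nat_lit 15) (.e (nat_lit 483072) (nat_lit 40) .nil))))))) (.g (nat_lit 1) (.e (nat_lit 440870) (nat_lit 0) .nil) .nil))) 
(.lf (nat_lit 608929) (.g (nat_lit 926) (.e (nat_lit 704598) (nat_lit 6) (.e (nat_lit 188439) (nat_lit 20) (.e (nat_lit 3409) (nat_lit 212) (.e (nat_lit 655380) (nat_lit 6) (.e (nat_lit 188418) (nat_lit 0) (.e (nat_lit 2056) (nat_lit 142) .nil)))))) (.g (nat_lit 1) (.e (nat_lit 442396) (nat_lit 0) .nil) .nil)))) (.nd (nat_lit 9) 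
(.lf (nat_lit 608673) (.g (nat_lit 3192) (.e (nat_lit 704589) (nat_lit 3) (.e (nat_lit 163979) (nat_lit 30) (.e (nat_lit 573493) (nat_lit 15) (.e (nat_lit 81956) (nat_lit 23) (.e (nat_lit 98356) (nat_lit 26) (.e (nat_lit 426354) (nat_lit 15) (.e (nat_lit 2053) (nat_lit 142) .nil))))))) (.g (nat_lit 1) (.e (nat_lit 441360) (nat_lit 0) .nil) .nil))) 
(.lf (nat_lit 609185) (.g (nat_lit 2517) (.e (nat_lit 704731) (nat_lit 11) (.e (nat_lit 16416) (nat_lit 3) (.e (nat_lit 204869) (nat_lit 29) (.e (nat_lit 360474) (nat_lit 8) .nil)))) (.g (nat_lit 0) (.e (nat_lit 443375) (nat_lit 0) .nil) .nil)))))) (.nd (nat_lit 7) (.nd (nat_lit 8) (.nd (nat_lit 9) 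
(.lf (nat_lit 608353) (.g (nat_lit 3666) (.e (nat_lit 704589) (nat_lit 3) (.e (nat_lit 163976) (nat_lit 30) (.e (nat_lit 573492) (nat_lit 15) (.e (nat_lit 81956) (nat_lit 23) (.e (nat_lit 98356) (nat_lit 26) (.e (nat_lit 426420) (nat_lit 15) (.e (nat_lit 2057) (nat_lit 142) .nil))))))) (.g (nat_lit 1) (.e (nat_lit 440793) (nat_lit 0) .nil) .nil))) 
(.lf (nat_lit 608865) (.g (nat_lit 1067) (.e (nat_lit 704597) (nat_lit 6) (.e (nat_lit 188446) (nat_lit 21) (.e (nat_lit 164347) (nat_lit 240) (.e (nat_lit 2650) (nat_lit 166) .nil)))) (.g (nat_lit 0) (.e (nat_lit 442281) (nat_lit 0) .nil) .nil)))) (.nd (nat_lit 9) 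
(.lf (nat_lit 608609) (.g (nat_lit 4783) (.e (nat_lit 704589) (nat_lit 3) (.e (nat_lit 163979) (nat_lit 30) (.e (nat_lit 573492) (nat_lit 15) (.e (nat_lit 81956) (nat_lit 23) (.e (nat_lit 98356) (nat_lit 26) (.e (nat_lit 426420) (nat_lit 15) (.e (nat_lit 2059) (nat_lit 142) .nil))))))) (.g (nat_lit 1) (.e (nat_lit 441084) (nat_lit 0) .nil) .nil))) 
(.lf (nat_lit 609121) (.g (nat_lit 2419) (.e (nat_lit 704599) (nat_lit 6) (.e (nat_lit 188455) (nat_lit 24) (.e (nat_lit 229664) (nat_lit 240) (.e (nat_lit 2651) (nat_lit 166) (.e (nat_lit 188420) (nat_lit 0) (.e (nat_lit 2056) (nat_lit 142) .nil)))))) (.g (nat_lit 1) (.e (nat_lit 442669) (nat_lit 0) .nil) .nil))))) (.nd (nat_lit 8) (.nd (nat_lit 9) 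
(.lf (nat_lit 608481) (.g (nat_lit 2453) (.e (nat_lit 704589) (nat_lit 3) (.e (nat_lit 163979) (nat_lit 30) (.e (nat_lit 573482) (nat_lit 13) (.e (nat_lit 65619) (nat_lit 10) (.e (nat_lit 344117) (nat_lit 21) (.e (nat_lit 516145) (nat_lit 9) (.e (nat_lit 426416) (nat_lit 15) (.e (nat_lit 7936) (nat_lit 142) .nil)))))))) (.g (nat_lit 1) (.e (nat_lit 440940) (nat_lit 0) .nil) .nil))) 
(.lf (nat_lit 608993) (.g (nat_lit 1327) (.e (nat_lit 704598) (nat_lit 6) (.e (nat_lit 188453) (nat_lit 24) (.e (nat_lit 229681) (nat_lit 244) (.e (nat_lit 163932) (nat_lit 17) (.e (nat_lit 466947) (nat_lit 0) (.e (nat_lit 2057) (nat_lit 142) .nil)))))) (.g (nat_lit 1) (.e (nat_lit 442486) (nat_lit 0) .nil) .nil)))) (.nd (nat_lit 9) 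
(.lf (nat_lit 608737) (.g (nat_lit 1809) (.e (nat_lit 704590) (nat_lit 3) (.e (nat_lit 163962) (nat_lit 25) (.e (nat_lit 532543) (nat_lit 10) (.e (nat_lit 344130) (nat_lit 26) (.e (nat_lit 557103) (nat_lit 14) (.e (nat_lit 188160) (nat_lit 3) (.e (nat_lit 516106) (nat_lit 0) (.e (nat_lit 7936) (nat_lit 218) .nil)))))))) (.g (nat_lit 1) (.e (nat_lit 441490) (nat_lit 0) .nil) .nil))) 
(.lf (nat_lit 609249) (.g (nat_lit 2170) (.e (nat_lit 704737) (nat_lit 11) (.e (nat_lit 16466) (nat_lit 13) (.e (nat_lit 483411) (nat_lit 27) (.e (nat_lit 401448) (nat_lit 10) (.e (nat_lit 434291) (nat_lit 44) .nil))))) (.g (nat_lit 0) (.e (nat_lit 443767) (nat_lit 0) .nil) .nil)))))))) (.nd (nat_lit 5) (.nd (nat_lit 6) (.nd (nat_lit 7) (.nd (nat_lit 8) (.nd (nat_lit 9) 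
(.lf (nat_lit 608273) (.g (nat_lit 3258) (.e (nat_lit 704589) (nat_lit 3) (.e (nat_lit 163976) (nat_lit 30) (.e (nat_lit 573481) (nat_lit 13) (.e (nat_lit 65619) (nat_lit 10) (.e (nat_lit 344117) (nat_lit 21) (.e (nat_lit 516180) (nat_lit 15) (.e (nat_lit 483072) (nat_lit 40) .nil))))))) (.g (nat_lit 1) (.e (nat_lit 440618) (nat_lit 0) .nil) .nil))) 
(.lf (nat_lit 608785) (.g (nat_lit 3111) (.e (nat_lit 704592) (nat_lit 4) (.e (nat_lit 172126) (nat_lit 14) (.e (nat_lit 491550) (nat_lit 9) (.e (nat_lit 336430) (nat_lit 29) (.e (nat_lit 442379) (nat_lit 0) (.e (nat_lit 2057) (nat_lit 142) .nil)))))) (.g (nat_lit 1) (.e (nat_lit 441709) (nat_lit 0) .nil) .nil)))) (.nd (nat_lit 9) 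
(.lf (nat_lit 608529) (.g (nat_lit 3439) (.e (nat_lit 704589) (nat_lit 3) (.e (nat_lit 163979) (nat_lit 30) (.e (nat_lit 573491) (nat_lit 15) (.e (nat_lit 81954) (nat_lit 23) (.e (nat_lit 98356) (nat_lit 26) (.e (nat_lit 426352) (nat_lit 15) (.e (nat_lit 7936) (nat_lit 142) .nil))))))) (.g (nat_lit 1) (.e (nat_lit 440995) (nat_lit 0) .nil) .nil))) 
(.lf (nat_lit 609041) (.g (nat_lit 1527) (.e (nat_lit 704598) (nat_lit 6) (.e (nat_lit 188455) (nat_lit 24) (.e (nat_lit 229680) (nat_lit 244) (.e (nat_lit 163919) (nat_lit 14) (.e (nat_lit 442374) (nat_lit 0) .nil))))) (.g (nat_lit 0) (.e (nat_lit 442539) (nat_lit 0) .nil) .nil))))) (.nd (nat_lit 8) (.nd (nat_lit 9) 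
(.lf (nat_lit 608401) (.g (nat_lit 5222) (.e (nat_lit 704589) (nat_lit 3) (.e (nat_lit 163978) (nat_lit 30) (.e (nat_lit 573485) (nat_lit 13) (.e (nat_lit 65619) (nat_lit 10) (.e (nat_lit 344117) (nat_lit 21) (.e (nat_lit 516145) (nat_lit 9) (.e (nat_lit 426420) (nat_lit 15) (.e (nat_lit 2059) (nat_lit 142) .nil)))))))) (.g (nat_lit 1) (.e (nat_lit 440854) (nat_lit 0) .nil) .nil))) 
(.lf (nat_lit 608913) (.g (nat_lit 1180) (.e (nat_lit 704598) (nat_lit 6) (.e (nat_lit 188434) (nat_lit 20) (.e (nat_lit 3408) (nat_lit 212) (.e (nat_lit 655380) (nat_lit 6) (.e (nat_lit 188420) (nat_lit 0) (.e (nat_lit 2057) (nat_lit 142) .nil)))))) (.g (nat_lit 1) (.e (nat_lit 442380) (nat_lit 0) .nil) .nil)))) (.nd (nat_lit 9) 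
(.lf (nat_lit 608657) (.g (nat_lit 3152) (.e (nat_lit 704589) (nat_lit 3) (.e (nat_lit 163979) (nat_lit 30) (.e (nat_lit 573493) (nat_lit 15) (.e (nat_lit 81954) (nat_lit 23) (.e (nat_lit 106240) (nat_lit 32) .nil))))) (.g (nat_lit 0) (.e (nat_lit 441334) (nat_lit 0) .nil) .nil))) 
(.lf (nat_lit 609169) (.g (nat_lit 4054) (.e (nat_lit 704629) (nat_lit 9) (.e (nat_lit 375) (nat_lit 32) (.e (nat_lit 426125) (nat_lit 2) (.e (nat_lit 196666) (nat_lit 13) (.e (nat_lit 65614) (nat_lit 10) .nil))))) (.g (nat_lit 0) (.e (nat_lit 443119) (nat_lit 0) .nil) .nil)))))) (.nd (nat_lit 7) (.nd (nat_lit 8) (.nd (nat_lit 9) 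
(.lf (nat_lit 608337) (.g (nat_lit 2923) (.e (nat_lit 704589) (nat_lit 3) (.e (nat_lit 163976) (nat_lit 30) (.e (nat_lit 573492) (nat_lit 15) (.e (nat_lit 81956) (nat_lit 23) (.e (nat_lit 98356) (nat_lit 26) (.e (nat_lit 426361) (nat_lit 15) (.e (nat_lit 2055) (nat_lit 142) .nil))))))) (.g (nat_lit 1) (.e (nat_lit 440777) (nat_lit 0) .nil) .nil))) 
(.lf (nat_lit 608849) (.g (nat_lit 869) (.e (nat_lit 704597) (nat_lit 6) (.e (nat_lit 188439) (nat_lit 20) (.e (nat_lit 3408) (nat_lit 212) (.e (nat_lit 655380) (nat_lit 6) (.e (nat_lit 188417) (nat_lit 0) (.e (nat_lit 2148) (nat_lit 142) .nil)))))) (.g (nat_lit 1) (.e (nat_lit 442246) (nat_lit 0) .nil) .nil)))) (.nd (nat_lit 9) 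
(.lf (nat_lit 608593) (.g (nat_lit 3230) (.e (nat_lit 704589) (nat_lit 3) (.e (nat_lit 163979) (nat_lit 30) (.e (nat_lit 573492) (nat_lit 15) (.e (nat_lit 81956) (nat_lit 23) (.e (nat_lit 98356) (nat_lit 26) (.e (nat_lit 426360) (nat_lit 15) (.e (nat_lit 7936) (nat_lit 142) .nil))))))) (.g (nat_lit 1) (.e (nat_lit 441068) (nat_lit 0) .nil) .nil))) 
(.lf (nat_lit 609105) (.g (nat_lit 1891) (.e (nat_lit 704599) (nat_lit 6) (.e (nat_lit 188454) (nat_lit 24) (.e (nat_lit 229663) (nat_lit 240) (.e (nat_lit 2651) (nat_lit 166) (.e (nat_lit 188420) (nat_lit 0) (.e (nat_lit 2059) (nat_lit 142) .nil)))))) (.g (nat_lit 1) (.e (nat_lit 442643) (nat_lit 0) .nil) .nil))))) (.nd (nat_lit 8) (.nd (nat_lit 9) 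
(.lf (nat_lit 608465) (.g (nat_lit 2055) (.e (nat_lit 704589) (nat_lit 3) (.e (nat_lit 163979) (nat_lit 30) (.e (nat_lit 573482) (nat_lit 13) (.e (nat_lit 65619) (nat_lit 10) (.e (nat_lit 344117) (nat_lit 21) .nil))))) (.g (nat_lit 0) (.e (nat_lit 440924) (nat_lit 0) .nil) .nil))) 
(.lf (nat_lit 608977) (.g (nat_lit 1541) (.e (nat_lit 704598) (nat_lit 6) (.e (nat_lit 188453) (nat_lit 24) (.e (nat_lit 229664) (nat_lit 240) (.e (nat_lit 2725) (nat_lit 172) (.e (nat_lit 237619) (nat_lit 12) .nil))))) (.g (nat_lit 0) (.e (nat_lit 442469) (nat_lit 0) .nil) .nil)))) (.nd (nat_lit 9) 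
(.lf (nat_lit 608721) (.g (nat_lit 4576) (.e (nat_lit 704589) (nat_lit 3) (.e (nat_lit 163979) (nat_lit 30) (.e (nat_lit 573493) (nat_lit 15) (.e (nat_lit 81956) (nat_lit 23) (.e (nat_lit 98362) (nat_lit 26) (.e (nat_lit 426414) (nat_lit 15) (.e (nat_lit 2058) (nat_lit 142) .nil))))))) (.g (nat_lit 1) (.e (nat_lit 441408) (nat_lit 0) .nil) .nil))) 
(.lf (nat_lit 609233) (.g (nat_lit 2236) (.e (nat_lit 704737) (nat_lit 11) (.e (nat_lit 16412) (nat_lit 2) (.e (nat_lit 196681) (nat_lit 17) (.e (nat_lit 131117) (nat_lit 10) .nil)))) (.g (nat_lit 0) (.e (nat_lit 443663) (nat_lit 0) .nil) .nil))))))) (.nd (nat_lit 6) (.nd (nat_lit 7) (.nd (nat_lit 8) (.nd (nat_lit 9) 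
(.lf (nat_lit 608305) (.g (nat_lit 3009) (.e (nat_lit 704589) (nat_lit 3) (.e (nat_lit 163976) (nat_lit 30) (.e (nat_lit 573491) (nat_lit 15) (.e (nat_lit 81954) (nat_lit 23) (.e (nat_lit 98356) (nat_lit 26) (.e (nat_lit 426393) (nat_lit 15) (.e (nat_lit 2056) (nat_lit 142) .nil))))))) (.g (nat_lit 1) (.e (nat_lit 440652) (nat_lit 0) .nil) .nil))) 
(.lf (nat_lit 608817) (.g (nat_lit 1645) (.e (nat_lit 704595) (nat_lit 5) (.e (nat_lit 180277) (nat_lit 32) (.e (nat_lit 1428) (nat_lit 108) (.e (nat_lit 336430) (nat_lit 29) (.e (nat_lit 442378) (nat_lit 0) .nil))))) (.g (nat_lit 0) (.e (nat_lit 442123) (nat_lit 0) .nil) .nil)))) (.nd (nat_lit 9) 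
(.lf (nat_lit 608561) (.g (nat_lit 2023) (.e (nat_lit 704589) (nat_lit 3) (.e (nat_lit 163979) (nat_lit 30) (.e (nat_lit 573491) (nat_lit 15) (.e (nat_lit 81954) (nat_lit 23) (.e (nat_lit 98360) (nat_lit 26) .nil))))) (.g (nat_lit 0) (.e (nat_lit 441027) (nat_lit 0) .nil) .nil))) 
(.lf (nat_lit 609073) (.g (nat_lit 1271) (.e (nat_lit 704599) (nat_lit 6) (.e (nat_lit 188446) (nat_lit 21) (.e (nat_lit 164346) (nat_lit 240) (.e (nat_lit 2648) (nat_lit 166) (.e (nat_lit 188418) (nat_lit 0) .nil))))) (.g (nat_lit 0) (.e (nat_lit 442580) (nat_lit 0) .nil) .nil))))) (.nd (nat_lit 8) (.nd (nat_lit 9) 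
(.lf (nat_lit 608433) (.g (nat_lit 2028) (.e (nat_lit 704589) (nat_lit 3) (.e (nat_lit 163979) (nat_lit 30) (.e (nat_lit 573481) (nat_lit 13) (.e (nat_lit 65589) (nat_lit 9) .nil)))) (.g (nat_lit 0) (.e (nat_lit 440892) (nat_lit 0) .nil) .nil))) 
(.lf (nat_lit 608945) (.g (nat_lit 1798) (.e (nat_lit 704598) (nat_lit 6) (.e (nat_lit 188444) (nat_lit 21) (.e (nat_lit 164348) (nat_lit 240) (.e (nat_lit 2650) (nat_lit 166) (.e (nat_lit 188419) (nat_lit 0) (.e (nat_lit 2057) (nat_lit 142) .nil)))))) (.g (nat_lit 1) (.e (nat_lit 442416) (nat_lit 0) .nil) .nil)))) (.nd (nat_lit 9) 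
(.lf (nat_lit 608689) (.g (nat_lit 3873) (.e (nat_lit 704589) (nat_lit 3) (.e (nat_lit 163979) (nat_lit 30) (.e (nat_lit 573493) (nat_lit 15) (.e (nat_lit 81956) (nat_lit 23) (.e (nat_lit 98356) (nat_lit 26) (.e (nat_lit 426363) (nat_lit 15) (.e (nat_lit 2060) (nat_lit 142) .nil))))))) (.g (nat_lit 1) (.e (nat_lit 441376) (nat_lit 0) .nil) .nil))) 
(.lf (nat_lit 609201) (.g (nat_lit 802) (.e (nat_lit 704734) (nat_lit 11) (.e (nat_lit 16412) (nat_lit 2) (.e (nat_lit 196672) (nat_lit 15) (.e (nat_lit 89856) (nat_lit 3) .nil)))) (.g (nat_lit 0) (.e (nat_lit 443436) (nat_lit 0) .nil) .nil)))))) (.nd (nat_lit 7) (.nd (nat_lit 8) (.nd (nat_lit 9) 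
(.lf (nat_lit 608369) (.g (nat_lit 6016) (.e (nat_lit 704589) (nat_lit 3) (.e (nat_lit 163978) (nat_lit 30) (.e (nat_lit 573479) (nat_lit 13) (.e (nat_lit 65610) (nat_lit 10) (.e (nat_lit 344117) (nat_lit 21) (.e (nat_lit 516151) (nat_lit 9) (.e (nat_lit 426412) (nat_lit 15) (.e (nat_lit 2057) (nat_lit 142) .nil)))))))) (.g (nat_lit 1) (.e (nat_lit 440818) (nat_lit 0) .nil) .nil))) 
(.lf (nat_lit 608881) (.g (nat_lit 2062) (.e (nat_lit 704597) (nat_lit 6) (.e (nat_lit 188452) (nat_lit 23) (.e (nat_lit 204830) (nat_lit 18) (.e (nat_lit 57663) (nat_lit 152) (.e (nat_lit 2630) (nat_lit 164) (.e (nat_lit 172039) (nat_lit 0) (.e (nat_lit 3528) (nat_lit 218) .nil))))))) (.g (nat_lit 1) (.e (nat_lit 442325) (nat_lit 0) .nil) .nil)))) (.nd (nat_lit 9) 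
(.lf (nat_lit 608625) (.g (nat_lit 3549) (.e (nat_lit 704589) (nat_lit 3) (.e (nat_lit 163979) (nat_lit 30) (.e (nat_lit 573493) (nat_lit 15) (.e (nat_lit 81951) (nat_lit 22) (.e (nat_lit 90167) (nat_lit 13) .nil))))) (.g (nat_lit 0) (.e (nat_lit 441209) (nat_lit 0) .nil) .nil))) 
(.lf (nat_lit 609137) (.g (nat_lit 3552) (.e (nat_lit 704599) (nat_lit 6) (.e (nat_lit 188455) (nat_lit 24) (.e (nat_lit 229678) (nat_lit 244) (.e (nat_lit 163902) (nat_lit 12) (.e (nat_lit 426320) (nat_lit 12) .nil))))) (.g (nat_lit 0) (.e (nat_lit 442696) (nat_lit 0) .nil) .nil))))) (.nd (nat_lit 8) (.nd (nat_lit 9) 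
(.lf (nat_lit 608497) (.g (nat_lit 3931) (.e (nat_lit 704589) (nat_lit 3) (.e (nat_lit 163979) (nat_lit 30) (.e (nat_lit 573482) (nat_lit 13) (.e (nat_lit 65619) (nat_lit 10) (.e (nat_lit 344117) (nat_lit 21) (.e (nat_lit 516180) (nat_lit 15) (.e (nat_lit 483072) (nat_lit 40) .nil))))))) (.g (nat_lit 1) (.e (nat_lit 440956) (nat_lit 0) .nil) .nil))) 
(.lf (nat_lit 609009) (.g (nat_lit 2314) (.e (nat_lit 704598) (nat_lit 6) (.e (nat_lit 188455) (nat_lit 24) (.e (nat_lit 229663) (nat_lit 240) (.e (nat_lit 2653) (nat_lit 166) (.e (nat_lit 188418) (nat_lit 0) (.e (nat_lit 2056) (nat_lit 142) .nil)))))) (.g (nat_lit 1) (.e (nat_lit 442506) (nat_lit 0) .nil) .nil)))) (.nd (nat_lit 9) 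
(.lf (nat_lit 608753) (.g (nat_lit 341) (.e (nat_lit 704590) (nat_lit 3) (.e (nat_lit 163975) (nat_lit 30) (.e (nat_lit 573491) (nat_lit 15) .nil))) (.g (nat_lit 0) (.e (nat_lit 441509) (nat_lit 0) .nil) .nil))) 
(.lf (nat_lit 609265) (.g (nat_lit 4616) (.e (nat_lit 704738) (nat_lit 11) (.e (nat_lit 16425) (nat_lit 7) (.e (nat_lit 409649) (nat_lit 18) (.e (nat_lit 303140) (nat_lit 10) (.e (nat_lit 434275) (nat_lit 39) (.e (nat_lit 663574) (nat_lit 9) (.e (nat_lit 2418) (nat_lit 157) (.e (nat_lit 3522) (nat_lit 218) .nil)))))))) (.g (nat_lit 1) (.e (nat_lit 443886) (nat_lit 0) .nil) .nil))))))))) 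
(.nd (nat_lit 4) (.nd (nat_lit 5) (.nd (nat_lit 6) (.nd (nat_lit 7) (.nd (nat_lit 8) 
(.nd (nat_lit 9) 
(.lf (nat_lit 608265) (.g (nat_lit 4057) (.e (nat_lit 704589) (nat_lit 3) (.e (nat_lit 163976) (nat_lit 30) (.e (nat_lit 573481) (nat_lit 13) (.e (nat_lit 65619) (nat_lit 10) (.e (nat_lit 344117) (nat_lit 21) (.e (nat_lit 516145) (nat_lit 9) (.e (nat_lit 426374) (nat_lit 15) (.e (nat_lit 2059) (nat_lit 142) .nil)))))))) (.g (nat_lit 1) (.e (nat_lit 440610) (nat_lit 0) .nil) .nil))) 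
(.lf (nat_lit 608777) (.g (nat_lit 2560) (.e (nat_lit 704592) (nat_lit 4) (.e (nat_lit 172126) (nat_lit 14) (.e (nat_lit 491549) (nat_lit 9) (.e (nat_lit 336430) (nat_lit 29) (.e (nat_lit 442378) (nat_lit 0) .nil))))) (.g (nat_lit 0) (.e (nat_lit 441691) (nat_lit 0) .nil) .nil)))) (.nd (nat_lit 9) 
(.lf (nat_lit 608521) (.g (nat_lit 2283) (.e (nat_lit 704589) (nat_lit 3) (.e (nat_lit 163979) (nat_lit 30) (.e (nat_lit 573491) (nat_lit 15) (.e (nat_lit 81954) (nat_lit 23) (.e (nat_lit 98355) (nat_lit 26) (.e (nat_lit 426376) (nat_lit 15) (.e (nat_lit 2057) (nat_lit 142) .nil))))))) (.g (nat_lit 1) (.e (nat_lit 440987) (nat_lit 0) .nil) .nil))) 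
(.lf (nat_lit 609033) (.g (nat_lit 1684) (.e (nat_lit 704598) (nat_lit 6) (.e (nat_lit 188455) (nat_lit 24) (.e (nat_lit 229678) (nat_lit 244) (.e (nat_lit 163919) (nat_lit 14) .nil)))) (.g (nat_lit 0) (.e (nat_lit 442531) (nat_lit 0) .nil) .nil))))) (.nd (nat_lit 8) (.nd (nat_lit 9) 
(.lf (nat_lit 608393) (.g (nat_lit 3186) (.e (nat_lit 704589) (nat_lit 3) (.e (nat_lit 163978) (nat_lit 30) (.e (nat_lit 573485) (nat_lit 13) (.e (nat_lit 65619) (nat_lit 10) (.e (nat_lit 344117) (nat_lit 21) (.e (nat_lit 516144) (nat_lit 9) (.e (nat_lit 426402) (nat_lit 15) (.e (nat_lit 2046) (nat_lit 142) .nil)))))))) (.g (nat_lit 1) (.e (nat_lit 440846) (nat_lit 0) .nil) .nil))) 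
(.lf (nat_lit 608905) (.g (nat_lit 1832) (.e (nat_lit 704598) (nat_lit 6) (.e (nat_lit 188427) (nat_lit 20) (.e (nat_lit 3402) (nat_lit 211) (.e (nat_lit 647185) (nat_lit 6) (.e (nat_lit 188418) (nat_lit 0) (.e (nat_lit 2059) (nat_lit 142) .nil)))))) (.g (nat_lit 1) (.e (nat_lit 442372) (nat_lit 0) .nil) .nil)))) (.nd (nat_lit 9) 
(.lf (nat_lit 608649) (.g (nat_lit 3257) (.e (nat_lit 704589) (nat_lit 3) (.e (nat_lit 163979) (nat_lit 30) (.e (nat_lit 573493) (nat_lit 15) (.e (nat_lit 81954) (nat_lit 23) (.e (nat_lit 98363) (nat_lit 26) .nil))))) (.g (nat_lit 0) (.e (nat_lit 441326) (nat_lit 0) .nil) .nil))) 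
(.lf (nat_lit 609161) (.g (nat_lit 4908) (.e (nat_lit 704628) (nat_lit 9) (.e (nat_lit 375) (nat_lit 32) (.e (nat_lit 426125) (nat_lit 2) (.e (nat_lit 196666) (nat_lit 13) (.e (nat_lit 65614) (nat_lit 10) (.e (nat_lit 344133) (nat_lit 26) (.e (nat_lit 557091) (nat_lit 12) (.e (nat_lit 164022) (nat_lit 46) .nil)))))))) (.g (nat_lit 1) (.e (nat_lit 443068) (nat_lit 0) .nil) .nil)))))) 
(.nd (nat_lit 7) (.nd (nat_lit 8) (.nd (nat_lit 9) 
(.lf (nat_lit 608329) (.g (nat_lit 2301) (.e (nat_lit 704589) (nat_lit 3) (.e (nat_lit 163976) (nat_lit 30) (.e (nat_lit 573492) (nat_lit 15) (.e (nat_lit 81956) (nat_lit 23) (.e (nat_lit 98355) (nat_lit 26) (.e (nat_lit 426420) (nat_lit 15) (.e (nat_lit 2057) (nat_lit 142) .nil))))))) (.g (nat_lit 1) (.e (nat_lit 440769) (nat_lit 0) .nil) .nil))) 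
(.lf (nat_lit 608841) (.g (nat_lit 1143) (.e (nat_lit 704597) (nat_lit 6) (.e (nat_lit 188418) (nat_lit 0) (.e (nat_lit 2058) (nat_lit 142) (.e (nat_lit 704599) (nat_lit 6) (.e (nat_lit 188416) (nat_lit 0) .nil))))) (.g (nat_lit 0) (.e (nat_lit 442236) (nat_lit 0) .nil) .nil)))) (.nd (nat_lit 9) 
(.lf (nat_lit 608585) (.g (nat_lit 3082) (.e (nat_lit 704589) (nat_lit 3) (.e (nat_lit 163979) (nat_lit 30) (.e (nat_lit 573492) (nat_lit 15) (.e (nat_lit 81956) (nat_lit 23) (.e (nat_lit 98356) (nat_lit 26) .nil))))) (.g (nat_lit 0) (.e (nat_lit 441060) (nat_lit 0) .nil) .nil))) 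
(.lf (nat_lit 609097) (.g (nat_lit 1173) (.e (nat_lit 704599) (nat_lit 6) (.e (nat_lit 188453) (nat_lit 24) (.e (nat_lit 229666) (nat_lit 240) (.e (nat_lit 2653) (nat_lit 166) (.e (nat_lit 188418) (nat_lit 0) (.e (nat_lit 2056) (nat_lit 142) .nil)))))) (.g (nat_lit 1) (.e (nat_lit 442629) (nat_lit 0) .nil) .nil))))) (.nd (nat_lit 8) (.nd (nat_lit 9) 
(.lf (nat_lit 608457) (.g (nat_lit 1406) (.e (nat_lit 704589) (nat_lit 3) (.e (nat_lit 163979) (nat_lit 30) (.e (nat_lit 573482) (nat_lit 13) (.e (nat_lit 65613) (nat_lit 10) .nil)))) (.g (nat_lit 0) (.e (nat_lit 440916) (nat_lit 0) .nil) .nil))) 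
(.lf (nat_lit 608969) (.g (nat_lit 2592) (.e (nat_lit 704598) (nat_lit 6) (.e (nat_lit 188453) (nat_lit 24) (.e (nat_lit 229663) (nat_lit 240) (.e (nat_lit 2651) (nat_lit 166) (.e (nat_lit 188418) (nat_lit 0) .nil))))) (.g (nat_lit 0) (.e (nat_lit 442461) (nat_lit 0) .nil) .nil)))) (.nd (nat_lit 9) 
(.lf (nat_lit 608713) (.g (nat_lit 4396) (.e (nat_lit 704589) (nat_lit 3) (.e (nat_lit 163979) (nat_lit 30) (.e (nat_lit 573493) (nat_lit 15) (.e (nat_lit 81956) (nat_lit 23) (.e (nat_lit 98359) (nat_lit 26) (.e (nat_lit 426414) (nat_lit 15) (.e (nat_lit 2059) (nat_lit 142) .nil))))))) (.g (nat_lit 1) (.e (nat_lit 441400) (nat_lit 0) .nil) .nil))) 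
(.lf (nat_lit 609225) (.g (nat_lit 1898) (.e (nat_lit 704736) (nat_lit 11) (.e (nat_lit 16439) (nat_lit 9) (.e (nat_lit 426499) (nat_lit 27) (.e (nat_lit 335895) (nat_lit 0) (.e (nat_lit 6724) (nat_lit 362) .nil))))) (.g (nat_lit 0) (.e (nat_lit 443534) (nat_lit 0) .nil) .nil))))))) (.nd (nat_lit 6) (.nd (nat_lit 7) (.nd (nat_lit 8) (.nd (nat_lit 9) 
(.lf (nat_lit 608297) (.g (nat_lit 2812) (.e (nat_lit 704589) (nat_lit 3) (.e (nat_lit 163976) (nat_lit 30) (.e (nat_lit 573491) (nat_lit 15) (.e (nat_lit 81954) (nat_lit 23) (.e (nat_lit 98356) (nat_lit 26) (.e (nat_lit 426363) (nat_lit 15) (.e (nat_lit 2061) (nat_lit 142) .nil))))))) (.g (nat_lit 1) (.e (nat_lit 440644) (nat_lit 0) .nil) .nil))) 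
(.lf (nat_lit 608809) (.g (nat_lit 547) (.e (nat_lit 704595) (nat_lit 5) (.e (nat_lit 180271) (nat_lit 26) (.e (nat_lit 704737) (nat_lit 11) .nil))) (.g (nat_lit 0) (.e (nat_lit 442107) (nat_lit 0) .nil) .nil)))) (.nd (nat_lit 9) 
(.lf (nat_lit 608553) (.g (nat_lit 3527) (.e (nat_lit 704589) (nat_lit 3) (.e (nat_lit 163979) (nat_lit 30) (.e (nat_lit 573491) (nat_lit 15) (.e (nat_lit 81954) (nat_lit 23) (.e (nat_lit 98356) (nat_lit 26) (.e (nat_lit 426393) (nat_lit 15) (.e (nat_lit 2057) (nat_lit 142) .nil))))))) (.g (nat_lit 1) (.e (nat_lit 441019) (nat_lit 0) .nil) .nil))) 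
(.lf (nat_lit 609065) (.g (nat_lit 1857) (.e (nat_lit 704599) (nat_lit 6) (.e (nat_lit 188445) (nat_lit 21) (.e (nat_lit 164348) (nat_lit 240) (.e (nat_lit 2648) (nat_lit 166) (.e (nat_lit 188418) (nat_lit 0) .nil))))) (.g (nat_lit 0) (.e (nat_lit 442572) (nat_lit 0) .nil) .nil))))) (.nd (nat_lit 8) (.nd (nat_lit 9) 
(.lf (nat_lit 608425) (.g (nat_lit 3771) (.e (nat_lit 704589) (nat_lit 3) (.e (nat_lit 163978) (nat_lit 30) (.e (nat_lit 573491) (nat_lit 15) (.e (nat_lit 81943) (nat_lit 20) .nil)))) (.g (nat_lit 0) (.e (nat_lit 440879) (nat_lit 0) .nil) .nil))) 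
(.lf (nat_lit 608937) (.g (nat_lit 1889) (.e (nat_lit 704598) (nat_lit 6) (.e (nat_lit 188444) (nat_lit 21) (.e (nat_lit 164347) (nat_lit 240) (.e (nat_lit 2648) (nat_lit 166) (.e (nat_lit 188418) (nat_lit 0) .nil))))) (.g (nat_lit 0) (.e (nat_lit 442407) (nat_lit 0) .nil) .nil)))) (.nd (nat_lit 9) 
(.lf (nat_lit 608681) (.g (nat_lit 3859) (.e (nat_lit 704589) (nat_lit 3) (.e (nat_lit 163979) (nat_lit 30) (.e (nat_lit 573493) (nat_lit 15) (.e (nat_lit 81956) (nat_lit 23) (.e (nat_lit 98356) (nat_lit 26) (.e (nat_lit 426361) (nat_lit 15) (.e (nat_lit 2044) (nat_lit 142) .nil))))))) (.g (nat_lit 1) (.e (nat_lit 441368) (nat_lit 0) .nil) .nil))) 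
(.lf (nat_lit 609193) (.g (nat_lit 1787) (.e (nat_lit 704732) (nat_lit 11) (.e (nat_lit 16416) (nat_lit 3) (.e (nat_lit 204861) (nat_lit 26) (.e (nat_lit 336075) (nat_lit 9) .nil)))) (.g (nat_lit 0) (.e (nat_lit 443400) (nat_lit 0) .nil) .nil)))))) (.nd (nat_lit 7) (.nd (nat_lit 8) (.nd (nat_lit 9) 
(.lf (nat_lit 608361) (.g (nat_lit 3675) (.e (nat_lit 704589) (nat_lit 3) (.e (nat_lit 163976) (nat_lit 30) (.e (nat_lit 573492) (nat_lit 15) (.e (nat_lit 81956) (nat_lit 23) (.e (nat_lit 98362) (nat_lit 26) (.e (nat_lit 426411) (nat_lit 15) (.e (nat_lit 2059) (nat_lit 142) .nil))))))) (.g (nat_lit 1) (.e (nat_lit 440801) (nat_lit 0) .nil) .nil))) 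
(.lf (nat_lit 608873) (.g (nat_lit 1162) (.e (nat_lit 704597) (nat_lit 6) (.e (nat_lit 188450) (nat_lit 23) (.e (nat_lit 204817) (nat_lit 17) (.e (nat_lit 7936) (nat_lit 149) .nil)))) (.g (nat_lit 0) (.e (nat_lit 442293) (nat_lit 0) .nil) .nil)))) (.nd (nat_lit 9) 
(.lf (nat_lit 608617) (.g (nat_lit 4439) (.e (nat_lit 704589) (nat_lit 3) (.e (nat_lit 163979) (nat_lit 30) (.e (nat_lit 573492) (nat_lit 15) (.e (nat_lit 81956) (nat_lit 23) (.e (nat_lit 98384) (nat_lit 32) (.e (nat_lit 483072) (nat_lit 40) .nil)))))) (.g (nat_lit 1) (.e (nat_lit 441092) (nat_lit 0) .nil) .nil))) 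
(.lf (nat_lit 609129) (.g (nat_lit 1219) (.e (nat_lit 704599) (nat_lit 6) (.e (nat_lit 188455) (nat_lit 24) (.e (nat_lit 229666) (nat_lit 240) (.e (nat_lit 2653) (nat_lit 166) (.e (nat_lit 188418) (nat_lit 0) (.e (nat_lit 2056) (nat_lit 142) .nil)))))) (.g (nat_lit 1) (.e (nat_lit 442683) (nat_lit 0) .nil) .nil))))) (.nd (nat_lit 8) (.nd (nat_lit 9) 
(.lf (nat_lit 608489) (.g (nat_lit 2500) (.e (nat_lit 704589) (nat_lit 3) (.e (nat_lit 163979) (nat_lit 30) (.e (nat_lit 573482) (nat_lit 13) (.e (nat_lit 65619) (nat_lit 10) (.e (nat_lit 344117) (nat_lit 21) (.e (nat_lit 516151) (nat_lit 9) (.e (nat_lit 426396) (nat_lit 15) (.e (nat_lit 2057) (nat_lit 142) .nil)))))))) (.g (nat_lit 1) (.e (nat_lit 440948) (nat_lit 0) .nil) .nil))) 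
(.lf (nat_lit 609001) (.g (nat_lit 2341) (.e (nat_lit 704598) (nat_lit 6) (.e (nat_lit 188455) (nat_lit 24) (.e (nat_lit 229663) (nat_lit 240) (.e (nat_lit 2497) (nat_lit 157) .nil)))) (.g (nat_lit 0) (.e (nat_lit 442496) (nat_lit 0) .nil) .nil)))) (.nd (nat_lit 9) 
(.lf (nat_lit 608745) (.g (nat_lit 2718) (.e (nat_lit 704590) (nat_lit 3) (.e (nat_lit 163962) (nat_lit 25) (.e (nat_lit 532544) (nat_lit 10) (.e (nat_lit 344131) (nat_lit 26) (.e (nat_lit 557103) (nat_lit 14) (.e (nat_lit 188160) (nat_lit 3) (.e (nat_lit 516106) (nat_lit 0) (.e (nat_lit 7936) (nat_lit 218) .nil)))))))) (.g (nat_lit 1) (.e (nat_lit 441498) (nat_lit 0) .nil) .nil))) 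
(.lf (nat_lit 609257) (.g (nat_lit 3501) (.e (nat_lit 704738) (nat_lit 11) (.e (nat_lit 16416) (nat_lit 3) (.e (nat_lit 204854) (nat_lit 26) (.e (nat_lit 336182) (nat_lit 11) (.e (nat_lit 368682) (nat_lit 26) .nil))))) (.g (nat_lit 0) (.e (nat_lit 443831) (nat_lit 0) .nil) .nil)))))))) (.nd (nat_lit 5) (.nd (nat_lit 6) (.nd (nat_lit 7) (.nd (nat_lit 8) (.nd (nat_lit 9) 
(.lf (nat_lit 608281) (.g (nat_lit 1288) (.e (nat_lit 704589) (nat_lit 3) (.e (nat_lit 163976) (nat_lit 30) (.e (nat_lit 573491) (nat_lit 15) (.e (nat_lit 81954) (nat_lit 23) (.e (nat_lit 98355) (nat_lit 26) .nil))))) (.g (nat_lit 0) (.e (nat_lit 440628) (nat_lit 0) .nil) .nil))) 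
(.lf (nat_lit 608793) (.g (nat_lit 1888) (.e (nat_lit 704593) (nat_lit 4) (.e (nat_lit 172082) (nat_lit 7) (.e (nat_lit 409649) (nat_lit 18) (.e (nat_lit 311040) (nat_lit 35) .nil)))) (.g (nat_lit 0) (.e (nat_lit 441866) (nat_lit 0) .nil) .nil)))) (.nd (nat_lit 9) 
(.lf (nat_lit 608537) (.g (nat_lit 2884) (.e (nat_lit 704589) (nat_lit 3) (.e (nat_lit 163979) (nat_lit 30) (.e (nat_lit 573491) (nat_lit 15) (.e (nat_lit 81954) (nat_lit 23) (.e (nat_lit 98356) (nat_lit 26) (.e (nat_lit 426361) (nat_lit 15) (.e (nat_lit 2044) (nat_lit 142) .nil))))))) (.g (nat_lit 1) (.e (nat_lit 441003) (nat_lit 0) .nil) .nil))) 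
(.lf (nat_lit 609049) (.g (nat_lit 571) (.e (nat_lit 704599) (nat_lit 6) (.e (nat_lit 188441) (nat_lit 20) (.e (nat_lit 3406) (nat_lit 212) .nil))) (.g (nat_lit 0) (.e (nat_lit 442553) (nat_lit 0) .nil) .nil))))) (.nd (nat_lit 8) (.nd (nat_lit 9) 
(.lf (nat_lit 608409) (.g (nat_lit 2539) (.e (nat_lit 704589) (nat_lit 3) (.e (nat_lit 163978) (nat_lit 30) (.e (nat_lit 573485) (nat_lit 13) (.e (nat_lit 65619) (nat_lit 10) (.e (nat_lit 344117) (nat_lit 21) (.e (nat_lit 516147) (nat_lit 9) (.e (nat_lit 426402) (nat_lit 15) (.e (nat_lit 2046) (nat_lit 142) .nil)))))))) (.g (nat_lit 1) (.e (nat_lit 440862) (nat_lit 0) .nil) .nil))) 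
(.lf (nat_lit 608921) (.g (nat_lit 2854) (.e (nat_lit 704598) (nat_lit 6) (.e (nat_lit 188434) (nat_lit 20) (.e (nat_lit 3409) (nat_lit 212) (.e (nat_lit 655378) (nat_lit 4) (.e (nat_lit 172120) (nat_lit 12) (.e (nat_lit 475198) (nat_lit 40) .nil)))))) (.g (nat_lit 1) (.e (nat_lit 442388) (nat_lit 0) .nil) .nil)))) (.nd (nat_lit 9) 
(.lf (nat_lit 608665) (.g (nat_lit 3423) (.e (nat_lit 704589) (nat_lit 3) (.e (nat_lit 163979) (nat_lit 30) (.e (nat_lit 573493) (nat_lit 15) (.e (nat_lit 81956) (nat_lit 23) (.e (nat_lit 98355) (nat_lit 26) (.e (nat_lit 426393) (nat_lit 15) (.e (nat_lit 2056) (nat_lit 142) .nil))))))) (.g (nat_lit 1) (.e (nat_lit 441352) (nat_lit 0) .nil) .nil))) 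
(.lf (nat_lit 609177) (.g (nat_lit 2444) (.e (nat_lit 704629) (nat_lit 9) (.e (nat_lit 436) (nat_lit 32) (.e (nat_lit 426139) (nat_lit 3) (.e (nat_lit 204869) (nat_lit 29) (.e (nat_lit 360473) (nat_lit 8) .nil))))) (.g (nat_lit 0) (.e (nat_lit 443255) (nat_lit 0) .nil) .nil)))))) (.nd (nat_lit 7) (.nd (nat_lit 8) (.nd (nat_lit 9) 
(.lf (nat_lit 608345) (.g (nat_lit 3747) (.e (nat_lit 704589) (nat_lit 3) (.e (nat_lit 163976) (nat_lit 30) (.e (nat_lit 573492) (nat_lit 15) (.e (nat_lit 81956) (nat_lit 23) (.e (nat_lit 98356) (nat_lit 26) (.e (nat_lit 426375) (nat_lit 15) (.e (nat_lit 2056) (nat_lit 142) .nil))))))) (.g (nat_lit 1) (.e (nat_lit 440785) (nat_lit 0) .nil) .nil))) 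
(.lf (nat_lit 608857) (.g (nat_lit 1976) (.e (nat_lit 704597) (nat_lit 6) (.e (nat_lit 188444) (nat_lit 21) (.e (nat_lit 164347) (nat_lit 240) (.e (nat_lit 2650) (nat_lit 166) (.e (nat_lit 188417) (nat_lit 0) .nil))))) (.g (nat_lit 0) (.e (nat_lit 442268) (nat_lit 0) .nil) .nil)))) (.nd (nat_lit 9) 
(.lf (nat_lit 608601) (.g (nat_lit 3472) (.e (nat_lit 704589) (nat_lit 3) (.e (nat_lit 163979) (nat_lit 30) (.e (nat_lit 573492) (nat_lit 15) (.e (nat_lit 81956) (nat_lit 23) (.e (nat_lit 98356) (nat_lit 26) (.e (nat_lit 426363) (nat_lit 15) (.e (nat_lit 2063) (nat_lit 142) .nil))))))) (.g (nat_lit 1) (.e (nat_lit 441076) (nat_lit 0) .nil) .nil))) 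
(.lf (nat_lit 609113) (.g (nat_lit 3221) (.e (nat_lit 704599) (nat_lit 6) (.e (nat_lit 188455) (nat_lit 24) (.e (nat_lit 229663) (nat_lit 240) (.e (nat_lit 2630) (nat_lit 164) (.e (nat_lit 172119) (nat_lit 12) .nil))))) (.g (nat_lit 0) (.e (nat_lit 442656) (nat_lit 0) .nil) .nil))))) (.nd (nat_lit 8) (.nd (nat_lit 9) 
(.lf (nat_lit 608473) (.g (nat_lit 3806) (.e (nat_lit 704589) (nat_lit 3) (.e (nat_lit 163979) (nat_lit 30) (.e (nat_lit 573482) (nat_lit 13) (.e (nat_lit 65619) (nat_lit 10) (.e (nat_lit 344117) (nat_lit 21) (.e (nat_lit 516144) (nat_lit 9) (.e (nat_lit 426405) (nat_lit 15) (.e (nat_lit 2059) (nat_lit 142) .nil)))))))) (.g (nat_lit 1) (.e (nat_lit 440932) (nat_lit 0) .nil) .nil))) 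
(.lf (nat_lit 608985) (.g (nat_lit 1491) (.e (nat_lit 704598) (nat_lit 6) (.e (nat_lit 188453) (nat_lit 24) (.e (nat_lit 229678) (nat_lit 244) (.e (nat_lit 163914) (nat_lit 12) .nil)))) (.g (nat_lit 0) (.e (nat_lit 442478) (nat_lit 0) .nil) .nil)))) (.nd (nat_lit 9) 
(.lf (nat_lit 608729) (.g (nat_lit 4134) (.e (nat_lit 704589) (nat_lit 3) (.e (nat_lit 163979) (nat_lit 30) (.e (nat_lit 573493) (nat_lit 15) (.e (nat_lit 81956) (nat_lit 23) (.e (nat_lit 98384) (nat_lit 32) (.e (nat_lit 475196) (nat_lit 40) .nil)))))) (.g (nat_lit 1) (.e (nat_lit 441416) (nat_lit 0) .nil) .nil))) 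
(.lf (nat_lit 609241) (.g (nat_lit 867) (.e (nat_lit 704737) (nat_lit 11) (.e (nat_lit 16463) (nat_lit 13) (.e (nat_lit 483358) (nat_lit 17) .nil))) (.g (nat_lit 0) (.e (nat_lit 443757) (nat_lit 0) .nil) .nil))))))) (.nd (nat_lit 6) (.nd (nat_lit 7) (.nd (nat_lit 8) (.nd (nat_lit 9) 
(.lf (nat_lit 608313) (.g (nat_lit 3272) (.e (nat_lit 704589) (nat_lit 3) (.e (nat_lit 163976) (nat_lit 30) (.e (nat_lit 573492) (nat_lit 15) (.e (nat_lit 81951) (nat_lit 22) (.e (nat_lit 90170) (nat_lit 13) (.e (nat_lit 172138) (nat_lit 15) (.e (nat_lit 2059) (nat_lit 142) .nil))))))) (.g (nat_lit 1) (.e (nat_lit 440667) (nat_lit 0) .nil) .nil))) 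
(.lf (nat_lit 608825) (.g (nat_lit 533) (.e (nat_lit 704595) (nat_lit 5) (.e (nat_lit 180278) (nat_lit 32) (.e (nat_lit 1427) (nat_lit 108) .nil))) (.g (nat_lit 0) (.e (nat_lit 442142) (nat_lit 0) .nil) .nil)))) (.nd (nat_lit 9) 
(.lf (nat_lit 608569) (.g (nat_lit 2064) (.e (nat_lit 704589) (nat_lit 3) (.e (nat_lit 163979) (nat_lit 30) (.e (nat_lit 573491) (nat_lit 15) (.e (nat_lit 81956) (nat_lit 23) (.e (nat_lit 98356) (nat_lit 26) .nil))))) (.g (nat_lit 0) (.e (nat_lit 441035) (nat_lit 0) .nil) .nil))) 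
(.lf (nat_lit 609081) (.g (nat_lit 1708) (.e (nat_lit 704599) (nat_lit 6) (.e (nat_lit 188446) (nat_lit 21) (.e (nat_lit 164348) (nat_lit 240) (.e (nat_lit 2648) (nat_lit 166) (.e (nat_lit 188420) (nat_lit 0) .nil))))) (.g (nat_lit 0) (.e (nat_lit 442592) (nat_lit 0) .nil) .nil))))) (.nd (nat_lit 8) (.nd (nat_lit 9) 
(.lf (nat_lit 608441) (.g (nat_lit 1146) (.e (nat_lit 704589) (nat_lit 3) (.e (nat_lit 163979) (nat_lit 30) (.e (nat_lit 573482) (nat_lit 13) (.e (nat_lit 65604) (nat_lit 9) .nil)))) (.g (nat_lit 0) (.e (nat_lit 440900) (nat_lit 0) .nil) .nil))) 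
(.lf (nat_lit 608953) (.g (nat_lit 2781) (.e (nat_lit 704598) (nat_lit 6) (.e (nat_lit 188446) (nat_lit 21) (.e (nat_lit 164348) (nat_lit 240) (.e (nat_lit 2628) (nat_lit 164) (.e (nat_lit 172118) (nat_lit 12) (.e (nat_lit 475198) (nat_lit 40) .nil)))))) (.g (nat_lit 1) (.e (nat_lit 442426) (nat_lit 0) .nil) .nil)))) (.nd (nat_lit 9) 
(.lf (nat_lit 608697) (.g (nat_lit 4765) (.e (nat_lit 704589) (nat_lit 3) (.e (nat_lit 163979) (nat_lit 30) (.e (nat_lit 573493) (nat_lit 15) (.e (nat_lit 81956) (nat_lit 23) (.e (nat_lit 98356) (nat_lit 26) (.e (nat_lit 426376) (nat_lit 15) (.e (nat_lit 2059) (nat_lit 142) .nil))))))) (.g (nat_lit 1) (.e (nat_lit 441384) (nat_lit 0) .nil) .nil))) 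
(.lf (nat_lit 609209) (.g (nat_lit 1852) (.e (nat_lit 704734) (nat_lit 11) (.e (nat_lit 16436) (nat_lit 9) (.e (nat_lit 426555) (nat_lit 32) (.e (nat_lit 376860) (nat_lit 21) (.e (nat_lit 57852) (nat_lit 252) .nil))))) (.g (nat_lit 0) (.e (nat_lit 443453) (nat_lit 0) .nil) .nil)))))) (.nd (nat_lit 7) (.nd (nat_lit 8) (.nd (nat_lit 9) 
(.lf (nat_lit 608377) (.g (nat_lit 1884) (.e (nat_lit 704589) (nat_lit 3) (.e (nat_lit 163978) (nat_lit 30) (.e (nat_lit 573485) (nat_lit 13) (.e (nat_lit 65604) (nat_lit 9) (.e (nat_lit 336028) (nat_lit 3) .nil))))) (.g (nat_lit 0) (.e (nat_lit 440827) (nat_lit 0) .nil) .nil))) 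
(.lf (nat_lit 608889) (.g (nat_lit 429) (.e (nat_lit 704597) (nat_lit 6) (.e (nat_lit 188453) (nat_lit 24) (.e (nat_lit 229681) (nat_lit 244) .nil))) (.g (nat_lit 0) (.e (nat_lit 442345) (nat_lit 0) .nil) .nil)))) (.nd (nat_lit 9) 
(.lf (nat_lit 608633) (.g (nat_lit 3756) (.e (nat_lit 704589) (nat_lit 3) (.e (nat_lit 163979) (nat_lit 30) (.e (nat_lit 573493) (nat_lit 15) (.e (nat_lit 81953) (nat_lit 22) (.e (nat_lit 90166) (nat_lit 13) (.e (nat_lit 172138) (nat_lit 15) (.e (nat_lit 2058) (nat_lit 142) .nil))))))) (.g (nat_lit 1) (.e (nat_lit 441302) (nat_lit 0) .nil) .nil))) 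
(.lf (nat_lit 609145) (.g (nat_lit 2532) (.e (nat_lit 704599) (nat_lit 6) (.e (nat_lit 188455) (nat_lit 24) (.e (nat_lit 229678) (nat_lit 244) (.e (nat_lit 163932) (nat_lit 17) (.e (nat_lit 466947) (nat_lit 0) .nil))))) (.g (nat_lit 0) (.e (nat_lit 442706) (nat_lit 0) .nil) .nil))))) (.nd (nat_lit 8) (.nd (nat_lit 9) 
(.lf (nat_lit 608505) (.g (nat_lit 1276) (.e (nat_lit 704589) (nat_lit 3) (.e (nat_lit 163979) (nat_lit 30) (.e (nat_lit 573491) (nat_lit 15) (.e (nat_lit 81928) (nat_lit 20) .nil)))) (.g (nat_lit 0) (.e (nat_lit 440964) (nat_lit 0) .nil) .nil))) 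
(.lf (nat_lit 609017) (.g (nat_lit 2524) (.e (nat_lit 704598) (nat_lit 6) (.e (nat_lit 188455) (nat_lit 24) (.e (nat_lit 229665) (nat_lit 240) (.e (nat_lit 2651) (nat_lit 166) (.e (nat_lit 188420) (nat_lit 0) (.e (nat_lit 2056) (nat_lit 142) .nil)))))) (.g (nat_lit 1) (.e (nat_lit 442514) (nat_lit 0) .nil) .nil)))) (.nd (nat_lit 9) 
(.lf (nat_lit 608761) (.g (nat_lit 1436) (.e (nat_lit 704590) (nat_lit 3) (.e (nat_lit 163975) (nat_lit 30) (.e (nat_lit 573493) (nat_lit 15) (.e (nat_lit 81956) (nat_lit 23) .nil)))) (.g (nat_lit 0) (.e (nat_lit 441578) (nat_lit 0) .nil) .nil))) 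
(.lf (nat_lit 609273) (.g (nat_lit 770) (.e (nat_lit 704738) (nat_lit 11) (.e (nat_lit 16436) (nat_lit 9) (.e (nat_lit 426495) (nat_lit 27) .nil))) (.g (nat_lit 0) (.e (nat_lit 443904) (nat_lit 0) .nil) .nil)))))))))) (.nd (nat_lit 3) (.nd (nat_lit 4) (.nd (nat_lit 5) (.nd (nat_lit 6) (.nd (nat_lit 7) (.nd (nat_lit 8) (.nd (nat_lit 9) 
(.lf (nat_lit 608261) (.g (nat_lit 4266) (.e (nat_lit 704589) (nat_lit 3) (.e (nat_lit 163976) (nat_lit 30) (.e (nat_lit 573481) (nat_lit 13) (.e (nat_lit 65610) (nat_lit 10) (.e (nat_lit 344117) (nat_lit 21) (.e (nat_lit 516151) (nat_lit 9) (.e (nat_lit 426412) (nat_lit 15) (.e (nat_lit 2056) (nat_lit 142) .nil)))))))) (.g (nat_lit 1) (.e (nat_lit 440604) (nat_lit 0) .nil) .nil))) 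
(.lf (nat_lit 608773) (.g (nat_lit 432) (.e (nat_lit 704592) (nat_lit 4) (.e (nat_lit 172126) (nat_lit 14) (.e (nat_lit 491549) (nat_lit 9) .nil))) (.g (nat_lit 0) (.e (nat_lit 441675) (nat_lit 0) .nil) .nil)))) (.nd (nat_lit 9) 
(.lf (nat_lit 608517) (.g (nat_lit 1173) (.e (nat_lit 704589) (nat_lit 3) (.e (nat_lit 163979) (nat_lit 30) (.e (nat_lit 573491) (nat_lit 15) (.e (nat_lit 81954) (nat_lit 23) .nil)))) (.g (nat_lit 0) (.e (nat_lit 440983) (nat_lit 0) .nil) .nil))) 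
(.lf (nat_lit 609029) (.g (nat_lit 2108) (.e (nat_lit 704598) (nat_lit 6) (.e (nat_lit 188455) (nat_lit 24) (.e (nat_lit 229678) (nat_lit 244) (.e (nat_lit 163908) (nat_lit 12) (.e (nat_lit 426312) (nat_lit 12) .nil))))) (.g (nat_lit 0) (.e (nat_lit 442526) (nat_lit 0) .nil) .nil))))) (.nd (nat_lit 8) (.nd (nat_lit 9) 
(.lf (nat_lit 608389) (.g (nat_lit 3565) (.e (nat_lit 704589) (nat_lit 3) (.e (nat_lit 163978) (nat_lit 30) (.e (nat_lit 573485) (nat_lit 13) (.e (nat_lit 65619) (nat_lit 10) (.e (nat_lit 344117) (nat_lit 21) (.e (nat_lit 516144) (nat_lit 9) (.e (nat_lit 426405) (nat_lit 15) (.e (nat_lit 2059) (nat_lit 142) .nil)))))))) (.g (nat_lit 1) (.e (nat_lit 440842) (nat_lit 0) .nil) .nil))) 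
(.lf (nat_lit 608901) (.g (nat_lit 2031) (.e (nat_lit 704598) (nat_lit 6) (.e (nat_lit 188427) (nat_lit 20) (.e (nat_lit 3402) (nat_lit 211) (.e (nat_lit 647183) (nat_lit 4) (.e (nat_lit 172120) (nat_lit 12) (.e (nat_lit 475197) (nat_lit 40) .nil)))))) (.g (nat_lit 1) (.e (nat_lit 442368) (nat_lit 0) .nil) .nil)))) (.nd (nat_lit 9) 
(.lf (nat_lit 608645) (.g (nat_lit 4029) (.e (nat_lit 704589) (nat_lit 3) (.e (nat_lit 163979) (nat_lit 30) (.e (nat_lit 573493) (nat_lit 15) (.e (nat_lit 81954) (nat_lit 23) (.e (nat_lit 98359) (nat_lit 26) (.e (nat_lit 426412) (nat_lit 15) (.e (nat_lit 2057) (nat_lit 142) .nil))))))) (.g (nat_lit 1) (.e (nat_lit 441322) (nat_lit 0) .nil) .nil))) 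
(.lf (nat_lit 609157) (.g (nat_lit 3456) (.e (nat_lit 704627) (nat_lit 9) (.e (nat_lit 452) (nat_lit 33) (.e (nat_lit 434231) (nat_lit 23) (.e (nat_lit 532550) (nat_lit 12) (.e (nat_lit 360474) (nat_lit 8) (.e (nat_lit 557094) (nat_lit 12) (.e (nat_lit 164022) (nat_lit 46) .nil))))))) (.g (nat_lit 1) (.e (nat_lit 443013) (nat_lit 0) .nil) .nil)))))) 
(.nd (nat_lit 7) (.nd (nat_lit 8) (.nd (nat_lit 9) 
(.lf (nat_lit 608325) (.g (nat_lit 2729) (.e (nat_lit 704589) (nat_lit 3) (.e (nat_lit 163976) (nat_lit 30) (.e (nat_lit 573492) (nat_lit 15) (.e (nat_lit 81956) (nat_lit 23) (.e (nat_lit 98355) (nat_lit 26) (.e (nat_lit 426393) (nat_lit 15) (.e (nat_lit 2056) (nat_lit 142) .nil))))))) (.g (nat_lit 1) (.e (nat_lit 440765) (nat_lit 0) .nil) .nil))) 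
(.lf (nat_lit 608837) (.g (nat_lit 991) (.e (nat_lit 704596) (nat_lit 5) (.e (nat_lit 180277) (nat_lit 32) (.e (nat_lit 1427) (nat_lit 108) (.e (nat_lit 336428) (nat_lit 29) .nil)))) (.g (nat_lit 0) (.e (nat_lit 442207) (nat_lit 0) .nil) .nil)))) (.nd (nat_lit 9) 
(.lf (nat_lit 608581) (.g (nat_lit 2984) (.e (nat_lit 704589) (nat_lit 3) (.e (nat_lit 163979) (nat_lit 30) (.e (nat_lit 573492) (nat_lit 15) (.e (nat_lit 81956) (nat_lit 23) (.e (nat_lit 98355) (nat_lit 26) (.e (nat_lit 426393) (nat_lit 15) (.e (nat_lit 2056) (nat_lit 142) .nil))))))) (.g (nat_lit 1) (.e (nat_lit 441056) (nat_lit 0) .nil) .nil))) 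
(.lf (nat_lit 609093) (.g (nat_lit 996) (.e (nat_lit 704599) (nat_lit 6) (.e (nat_lit 188453) (nat_lit 24) (.e (nat_lit 229664) (nat_lit 240) (.e (nat_lit 2725) (nat_lit 172) .nil)))) (.g (nat_lit 0) (.e (nat_lit 442619) (nat_lit 0) .nil) .nil))))) (.nd (nat_lit 8) (.nd (nat_lit 9) 
(.lf (nat_lit 608453) (.g (nat_lit 1379) (.e (nat_lit 704589) (nat_lit 3) (.e (nat_lit 163979) (nat_lit 30) (.e (nat_lit 573482) (nat_lit 13) (.e (nat_lit 65609) (nat_lit 10) .nil)))) (.g (nat_lit 0) (.e (nat_lit 440912) (nat_lit 0) .nil) .nil))) 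
(.lf (nat_lit 608965) (.g (nat_lit 2397) (.e (nat_lit 704598) (nat_lit 6) (.e (nat_lit 188452) (nat_lit 23) (.e (nat_lit 204829) (nat_lit 18) (.e (nat_lit 57691) (nat_lit 156) .nil)))) (.g (nat_lit 0) (.e (nat_lit 442450) (nat_lit 0) .nil) .nil)))) (.nd (nat_lit 9) 
(.lf (nat_lit 608709) (.g (nat_lit 2909) (.e (nat_lit 704589) (nat_lit 3) (.e (nat_lit 163979) (nat_lit 30) (.e (nat_lit 573493) (nat_lit 15) (.e (nat_lit 81956) (nat_lit 23) (.e (nat_lit 98359) (nat_lit 26) (.e (nat_lit 426380) (nat_lit 15) (.e (nat_lit 2056) (nat_lit 142) .nil))))))) (.g (nat_lit 1) (.e (nat_lit 441396) (nat_lit 0) .nil) .nil))) 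
(.lf (nat_lit 609221) (.g (nat_lit 2253) (.e (nat_lit 704736) (nat_lit 11) (.e (nat_lit 16425) (nat_lit 7) (.e (nat_lit 409649) (nat_lit 18) (.e (nat_lit 303140) (nat_lit 10) (.e (nat_lit 434275) (nat_lit 39) (.e (nat_lit 663580) (nat_lit 9) (.e (nat_lit 7936) (nat_lit 157) (.e (nat_lit 3518) (nat_lit 218) .nil)))))))) (.g (nat_lit 1) (.e (nat_lit 443525) (nat_lit 0) .nil) .nil))))))) 
(.nd (nat_lit 6) (.nd (nat_lit 7) (.nd (nat_lit 8) (.nd (nat_lit 9) 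
(.lf (nat_lit 608293) (.g (nat_lit 2187) (.e (nat_lit 704589) (nat_lit 3) (.e (nat_lit 163976) (nat_lit 30) (.e (nat_lit 573491) (nat_lit 15) (.e (nat_lit 81954) (nat_lit 23) (.e (nat_lit 98356) (nat_lit 26) (.e (nat_lit 426361) (nat_lit 15) (.e (nat_lit 2044) (nat_lit 142) .nil))))))) (.g (nat_lit 1) (.e (nat_lit 440640) (nat_lit 0) .nil) .nil))) 
(.lf (nat_lit 608805) (.g (nat_lit 1942) (.e (nat_lit 704593) (nat_lit 4) (.e (nat_lit 172124) (nat_lit 14) (.e (nat_lit 491571) (nat_lit 13) (.e (nat_lit 393292) (nat_lit 26) .nil)))) (.g (nat_lit 0) (.e (nat_lit 441915) (nat_lit 0) .nil) .nil)))) (.nd (nat_lit 9) 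
(.lf (nat_lit 608549) (.g (nat_lit 3558) (.e (nat_lit 704589) (nat_lit 3) (.e (nat_lit 163979) (nat_lit 30) (.e (nat_lit 573491) (nat_lit 15) (.e (nat_lit 81954) (nat_lit 23) (.e (nat_lit 98356) (nat_lit 26) (.e (nat_lit 426376) (nat_lit 15) (.e (nat_lit 2056) (nat_lit 142) .nil))))))) (.g (nat_lit 1) (.e (nat_lit 441015) (nat_lit 0) .nil) .nil))) 
(.lf (nat_lit 609061) (.g (nat_lit 346) (.e (nat_lit 704599) (nat_lit 6) (.e (nat_lit 188445) (nat_lit 21) (.e (nat_lit 164347) (nat_lit 240) .nil))) (.g (nat_lit 0) (.e (nat_lit 442568) (nat_lit 0) .nil) .nil))))) (.nd (nat_lit 8) (.nd (nat_lit 9) 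
(.lf (nat_lit 608421) (.g (nat_lit 3453) (.e (nat_lit 704589) (nat_lit 3) (.e (nat_lit 163978) (nat_lit 30) (.e (nat_lit 573490) (nat_lit 15) (.e (nat_lit 81956) (nat_lit 23) (.e (nat_lit 98384) (nat_lit 32) .nil))))) (.g (nat_lit 0) (.e (nat_lit 440874) (nat_lit 0) .nil) .nil))) 
(.lf (nat_lit 608933) (.g (nat_lit 1676) (.e (nat_lit 704598) (nat_lit 6) (.e (nat_lit 188441) (nat_lit 20) (.e (nat_lit 3408) (nat_lit 212) (.e (nat_lit 655378) (nat_lit 4) (.e (nat_lit 172120) (nat_lit 12) .nil))))) (.g (nat_lit 0) (.e (nat_lit 442401) (nat_lit 0) .nil) .nil)))) (.nd (nat_lit 9) 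
(.lf (nat_lit 608677) (.g (nat_lit 4158) (.e (nat_lit 704589) (nat_lit 3) (.e (nat_lit 163979) (nat_lit 30) (.e (nat_lit 573493) (nat_lit 15) (.e (nat_lit 81956) (nat_lit 23) (.e (nat_lit 98356) (nat_lit 26) (.e (nat_lit 426360) (nat_lit 15) (.e (nat_lit 2047) (nat_lit 142) .nil))))))) (.g (nat_lit 1) (.e (nat_lit 441364) (nat_lit 0) .nil) .nil))) 
(.lf (nat_lit 609189) (.g (nat_lit 2953) (.e (nat_lit 704731) (nat_lit 11) (.e (nat_lit 16473) (nat_lit 14) (.e (nat_lit 491526) (nat_lit 0) (.e (nat_lit 2270) (nat_lit 149) .nil)))) (.g (nat_lit 0) (.e (nat_lit 443386) (nat_lit 0) .nil) .nil)))))) (.nd (nat_lit 7) (.nd (nat_lit 8) (.nd (nat_lit 9) 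
(.lf (nat_lit 608357) (.g (nat_lit 2543) (.e (nat_lit 704589) (nat_lit 3) (.e (nat_lit 163976) (nat_lit 30) (.e (nat_lit 573492) (nat_lit 15) (.e (nat_lit 81956) (nat_lit 23) (.e (nat_lit 98360) (nat_lit 26) (.e (nat_lit 426410) (nat_lit 15) (.e (nat_lit 2058) (nat_lit 142) .nil))))))) (.g (nat_lit 1) (.e (nat_lit 440797) (nat_lit 0) .nil) .nil))) 
(.lf (nat_lit 608869) (.g (nat_lit 2066) (.e (nat_lit 704597) (nat_lit 6) (.e (nat_lit 188446) (nat_lit 21) (.e (nat_lit 164348) (nat_lit 240) (.e (nat_lit 2650) (nat_lit 166) (.e (nat_lit 188416) (nat_lit 0) .nil))))) (.g (nat_lit 0) (.e (nat_lit 442287) (nat_lit 0) .nil) .nil)))) (.nd (nat_lit 9) 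
(.lf (nat_lit 608613) (.g (nat_lit 3794) (.e (nat_lit 704589) (nat_lit 3) (.e (nat_lit 163979) (nat_lit 30) (.e (nat_lit 573492) (nat_lit 15) (.e (nat_lit 81956) (nat_lit 23) (.e (nat_lit 106240) (nat_lit 26) .nil))))) (.g (nat_lit 0) (.e (nat_lit 441088) (nat_lit 0) .nil) .nil))) 
(.lf (nat_lit 609125) (.g (nat_lit 1537) (.e (nat_lit 704599) (nat_lit 6) (.e (nat_lit 188455) (nat_lit 24) (.e (nat_lit 229665) (nat_lit 240) (.e (nat_lit 2653) (nat_lit 166) (.e (nat_lit 188418) (nat_lit 0) (.e (nat_lit 2056) (nat_lit 142) .nil)))))) (.g (nat_lit 1) (.e (nat_lit 442677) (nat_lit 0) .nil) .nil))))) (.nd (nat_lit 8) (.nd (nat_lit 9) 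
(.lf (nat_lit 608485) (.g (nat_lit 2242) (.e (nat_lit 704589) (nat_lit 3) (.e (nat_lit 163979) (nat_lit 30) (.e (nat_lit 573482) (nat_lit 13) (.e (nat_lit 65619) (nat_lit 10) (.e (nat_lit 344117) (nat_lit 21) (.e (nat_lit 516147) (nat_lit 9) (.e (nat_lit 426393) (nat_lit 15) (.e (nat_lit 2056) (nat_lit 142) .nil)))))))) (.g (nat_lit 1) (.e (nat_lit 440944) (nat_lit 0) .nil) .nil))) 
(.lf (nat_lit 608997) (.g (nat_lit 1319) (.e (nat_lit 704598) (nat_lit 6) (.e (nat_lit 188454) (nat_lit 24) (.e (nat_lit 229678) (nat_lit 244) (.e (nat_lit 163908) (nat_lit 12) (.e (nat_lit 426305) (nat_lit 12) .nil))))) (.g (nat_lit 0) (.e (nat_lit 442490) (nat_lit 0) .nil) .nil)))) (.nd (nat_lit 9) 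
(.lf (nat_lit 608741) (.g (nat_lit 2950) (.e (nat_lit 704590) (nat_lit 3) (.e (nat_lit 163962) (nat_lit 25) (.e (nat_lit 532544) (nat_lit 10) (.e (nat_lit 344129) (nat_lit 26) (.e (nat_lit 557103) (nat_lit 14) (.e (nat_lit 188160) (nat_lit 3) (.e (nat_lit 516106) (nat_lit 0) (.e (nat_lit 7936) (nat_lit 218) .nil)))))))) (.g (nat_lit 1) (.e (nat_lit 441494) (nat_lit 0) .nil) .nil))) 
(.lf (nat_lit 609253) (.g (nat_lit 663) (.e (nat_lit 704737) (nat_lit 11) (.e (nat_lit 16473) (nat_lit 14) (.e (nat_lit 499456) (nat_lit 25) .nil))) (.g (nat_lit 0) (.e (nat_lit 443795) (nat_lit 0) .nil) .nil)))))))) (.nd (nat_lit 5) (.nd (nat_lit 6) (.nd (nat_lit 7) (.nd (nat_lit 8) (.nd (nat_lit 9) 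
(.lf (nat_lit 608277) (.g (nat_lit 5545) (.e (nat_lit 704589) (nat_lit 3) (.e (nat_lit 163976) (nat_lit 30) (.e (nat_lit 573484) (nat_lit 13) (.e (nat_lit 65610) (nat_lit 10) (.e (nat_lit 344117) (nat_lit 21) (.e (nat_lit 516151) (nat_lit 9) (.e (nat_lit 426412) (nat_lit 15) (.e (nat_lit 2057) (nat_lit 142) .nil)))))))) (.g (nat_lit 1) (.e (nat_lit 440622) (nat_lit 0) .nil) .nil))) 
(.lf (nat_lit 608789) (.g (nat_lit 3166) (.e (nat_lit 704592) (nat_lit 4) (.e (nat_lit 172126) (nat_lit 14) (.e (nat_lit 491570) (nat_lit 13) (.e (nat_lit 393294) (nat_lit 26) (.e (nat_lit 475199) (nat_lit 40) .nil))))) (.g (nat_lit 1) (.e (nat_lit 441732) (nat_lit 0) .nil) .nil)))) (.nd (nat_lit 9) 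
(.lf (nat_lit 608533) (.g (nat_lit 3397) (.e (nat_lit 704589) (nat_lit 3) (.e (nat_lit 163979) (nat_lit 30) (.e (nat_lit 573491) (nat_lit 15) (.e (nat_lit 81954) (nat_lit 23) (.e (nat_lit 98356) (nat_lit 26) (.e (nat_lit 426360) (nat_lit 15) (.e (nat_lit 2056) (nat_lit 142) .nil))))))) (.g (nat_lit 1) (.e (nat_lit 440999) (nat_lit 0) .nil) .nil))) 
(.lf (nat_lit 609045) (.g (nat_lit 1136) (.e (nat_lit 704599) (nat_lit 6) (.e (nat_lit 188440) (nat_lit 20) (.e (nat_lit 3406) (nat_lit 212) (.e (nat_lit 655380) (nat_lit 6) (.e (nat_lit 188420) (nat_lit 0) .nil))))) (.g (nat_lit 0) (.e (nat_lit 442544) (nat_lit 0) .nil) .nil))))) (.nd (nat_lit 8) (.nd (nat_lit 9) 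
(.lf (nat_lit 608405) (.g (nat_lit 1998) (.e (nat_lit 704589) (nat_lit 3) (.e (nat_lit 163978) (nat_lit 30) (.e (nat_lit 573485) (nat_lit 13) (.e (nat_lit 65619) (nat_lit 10) (.e (nat_lit 344117) (nat_lit 21) (.e (nat_lit 516147) (nat_lit 9) (.e (nat_lit 426379) (nat_lit 15) (.e (nat_lit 2056) (nat_lit 142) .nil)))))))) (.g (nat_lit 1) (.e (nat_lit 440858) (nat_lit 0) .nil) .nil))) 
(.lf (nat_lit 608917) (.g (nat_lit 2976) (.e (nat_lit 704598) (nat_lit 6) (.e (nat_lit 188434) (nat_lit 20) (.e (nat_lit 3409) (nat_lit 212) (.e (nat_lit 655364) (nat_lit 0) (.e (nat_lit 3004) (nat_lit 186) (.e (nat_lit 442374) (nat_lit 0) (.e (nat_lit 2059) (nat_lit 142) .nil))))))) (.g (nat_lit 1) (.e (nat_lit 442384) (nat_lit 0) .nil) .nil)))) (.nd (nat_lit 9) 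
(.lf (nat_lit 608661) (.g (nat_lit 3777) (.e (nat_lit 704589) (nat_lit 3) (.e (nat_lit 163979) (nat_lit 30) (.e (nat_lit 573493) (nat_lit 15) (.e (nat_lit 81956) (nat_lit 23) (.e (nat_lit 98355) (nat_lit 26) (.e (nat_lit 426375) (nat_lit 15) (.e (nat_lit 2057) (nat_lit 142) .nil))))))) (.g (nat_lit 1) (.e (nat_lit 441348) (nat_lit 0) .nil) .nil))) 
(.lf (nat_lit 609173) (.g (nat_lit 437) (.e (nat_lit 704629) (nat_lit 9) (.e (nat_lit 375) (nat_lit 32) (.e (nat_lit 426288) (nat_lit 10) .nil))) (.g (nat_lit 0) (.e (nat_lit 443243) (nat_lit 0) .nil) .nil)))))) (.nd (nat_lit 7) (.nd (nat_lit 8) (.nd (nat_lit 9) 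
(.lf (nat_lit 608341) (.g (nat_lit 2550) (.e (nat_lit 704589) (nat_lit 3) (.e (nat_lit 163976) (nat_lit 30) (.e (nat_lit 573492) (nat_lit 15) (.e (nat_lit 81956) (nat_lit 23) (.e (nat_lit 98356) (nat_lit 26) (.e (nat_lit 426363) (nat_lit 15) (.e (nat_lit 2044) (nat_lit 142) .nil))))))) (.g (nat_lit 1) (.e (nat_lit 440781) (nat_lit 0) .nil) .nil))) 
(.lf (nat_lit 608853) (.g (nat_lit 1477) (.e (nat_lit 704597) (nat_lit 6) (.e (nat_lit 188444) (nat_lit 21) (.e (nat_lit 164345) (nat_lit 240) (.e (nat_lit 2648) (nat_lit 166) (.e (nat_lit 188417) (nat_lit 0) (.e (nat_lit 2147) (nat_lit 142) .nil)))))) (.g (nat_lit 1) (.e (nat_lit 442261) (nat_lit 0) .nil) .nil)))) (.nd (nat_lit 9) 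
(.lf (nat_lit 608597) (.g (nat_lit 3513) (.e (nat_lit 704589) (nat_lit 3) (.e (nat_lit 163979) (nat_lit 30) (.e (nat_lit 573492) (nat_lit 15) (.e (nat_lit 81956) (nat_lit 23) (.e (nat_lit 98356) (nat_lit 26) (.e (nat_lit 426364) (nat_lit 15) (.e (nat_lit 2056) (nat_lit 142) .nil))))))) (.g (nat_lit 1) (.e (nat_lit 441072) (nat_lit 0) .nil) .nil))) 
(.lf (nat_lit 609109) (.g (nat_lit 2342) (.e (nat_lit 704599) (nat_lit 6) (.e (nat_lit 188455) (nat_lit 24) (.e (nat_lit 229663) (nat_lit 240) (.e (nat_lit 2497) (nat_lit 157) .nil)))) (.g (nat_lit 0) (.e (nat_lit 442649) (nat_lit 0) .nil) .nil))))) (.nd (nat_lit 8) (.nd (nat_lit 9) 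
(.lf (nat_lit 608469) (.g (nat_lit 3656) (.e (nat_lit 704589) (nat_lit 3) (.e (nat_lit 163979) (nat_lit 30) (.e (nat_lit 573482) (nat_lit 13) (.e (nat_lit 65619) (nat_lit 10) (.e (nat_lit 344117) (nat_lit 21) (.e (nat_lit 516144) (nat_lit 9) (.e (nat_lit 426376) (nat_lit 15) (.e (nat_lit 2057) (nat_lit 142) .nil)))))))) (.g (nat_lit 1) (.e (nat_lit 440928) (nat_lit 0) .nil) .nil))) 
(.lf (nat_lit 608981) (.g (nat_lit 1304) (.e (nat_lit 704598) (nat_lit 6) (.e (nat_lit 188453) (nat_lit 24) (.e (nat_lit 229666) (nat_lit 240) (.e (nat_lit 2653) (nat_lit 166) (.e (nat_lit 188418) (nat_lit 0) (.e (nat_lit 2056) (nat_lit 142) .nil)))))) (.g (nat_lit 1) (.e (nat_lit 442473) (nat_lit 0) .nil) .nil)))) (.nd (nat_lit 9) 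
(.lf (nat_lit 608725) (.g (nat_lit 3214) (.e (nat_lit 704589) (nat_lit 3) (.e (nat_lit 163979) (nat_lit 30) (.e (nat_lit 573493) (nat_lit 15) (.e (nat_lit 81956) (nat_lit 23) (.e (nat_lit 106240) (nat_lit 26) .nil))))) (.g (nat_lit 0) (.e (nat_lit 441412) (nat_lit 0) .nil) .nil))) 
(.lf (nat_lit 609237) (.g (nat_lit 2003) (.e (nat_lit 704737) (nat_lit 11) (.e (nat_lit 16425) (nat_lit 7) (.e (nat_lit 409617) (nat_lit 10) (.e (nat_lit 848) (nat_lit 73) .nil)))) (.g (nat_lit 0) (.e (nat_lit 443673) (nat_lit 0) .nil) .nil))))))) (.nd (nat_lit 6) (.nd (nat_lit 7) (.nd (nat_lit 8) (.nd (nat_lit 9) 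
(.lf (nat_lit 608309) (.g (nat_lit 2812) (.e (nat_lit 704589) (nat_lit 3) (.e (nat_lit 163976) (nat_lit 30) (.e (nat_lit 573491) (nat_lit 15) (.e (nat_lit 81954) (nat_lit 23) (.e (nat_lit 98356) (nat_lit 26) (.e (nat_lit 426399) (nat_lit 15) (.e (nat_lit 2056) (nat_lit 142) .nil))))))) (.g (nat_lit 1) (.e (nat_lit 440656) (nat_lit 0) .nil) .nil))) 
(.lf (nat_lit 608821) (.g (nat_lit 2174) (.e (nat_lit 704595) (nat_lit 5) (.e (nat_lit 180277) (nat_lit 32) (.e (nat_lit 1660) (nat_lit 115) (.e (nat_lit 393271) (nat_lit 23) (.e (nat_lit 426402) (nat_lit 15) .nil))))) (.g (nat_lit 0) (.e (nat_lit 442127) (nat_lit 0) .nil) .nil)))) (.nd (nat_lit 9) 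
(.lf (nat_lit 608565) (.g (nat_lit 3393) (.e (nat_lit 704589) (nat_lit 3) (.e (nat_lit 163979) (nat_lit 30) (.e (nat_lit 573491) (nat_lit 15) (.e (nat_lit 81954) (nat_lit 23) (.e (nat_lit 98384) (nat_lit 32) (.e (nat_lit 475196) (nat_lit 40) .nil)))))) (.g (nat_lit 1) (.e (nat_lit 441031) (nat_lit 0) .nil) .nil))) 
(.lf (nat_lit 609077) (.g (nat_lit 1868) (.e (nat_lit 704599) (nat_lit 6) (.e (nat_lit 188446) (nat_lit 21) (.e (nat_lit 164347) (nat_lit 240) (.e (nat_lit 2648) (nat_lit 166) (.e (nat_lit 188420) (nat_lit 0) .nil))))) (.g (nat_lit 0) (.e (nat_lit 442586) (nat_lit 0) .nil) .nil))))) (.nd (nat_lit 8) (.nd (nat_lit 9) 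
(.lf (nat_lit 608437) (.g (nat_lit 4036) (.e (nat_lit 704589) (nat_lit 3) (.e (nat_lit 163979) (nat_lit 30) (.e (nat_lit 573481) (nat_lit 13) (.e (nat_lit 65610) (nat_lit 10) (.e (nat_lit 344117) (nat_lit 21) (.e (nat_lit 516151) (nat_lit 9) (.e (nat_lit 426412) (nat_lit 15) (.e (nat_lit 2059) (nat_lit 142) .nil)))))))) (.g (nat_lit 1) (.e (nat_lit 440896) (nat_lit 0) .nil) .nil))) 
(.lf (nat_lit 608949) (.g (nat_lit 1946) (.e (nat_lit 704598) (nat_lit 6) (.e (nat_lit 188446) (nat_lit 21) (.e (nat_lit 164347) (nat_lit 240) (.e (nat_lit 2648) (nat_lit 166) (.e (nat_lit 188418) (nat_lit 0) .nil))))) (.g (nat_lit 0) (.e (nat_lit 442422) (nat_lit 0) .nil) .nil)))) (.nd (nat_lit 9) 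
(.lf (nat_lit 608693) (.g (nat_lit 4413) (.e (nat_lit 704589) (nat_lit 3) (.e (nat_lit 163979) (nat_lit 30) (.e (nat_lit 573493) (nat_lit 15) (.e (nat_lit 81956) (nat_lit 23) (.e (nat_lit 98356) (nat_lit 26) (.e (nat_lit 426375) (nat_lit 15) (.e (nat_lit 2056) (nat_lit 142) .nil))))))) (.g (nat_lit 1) (.e (nat_lit 441380) (nat_lit 0) .nil) .nil))) 
(.lf (nat_lit 609205) (.g (nat_lit 1550) (.e (nat_lit 704734) (nat_lit 11) (.e (nat_lit 16436) (nat_lit 9) (.e (nat_lit 426555) (nat_lit 32) (.e (nat_lit 376857) (nat_lit 21) (.e (nat_lit 57851) (nat_lit 252) .nil))))) (.g (nat_lit 0) (.e (nat_lit 443449) (nat_lit 0) .nil) .nil)))))) (.nd (nat_lit 7) (.nd (nat_lit 8) (.nd (nat_lit 9) 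
(.lf (nat_lit 608373) (.g (nat_lit 3981) (.e (nat_lit 704589) (nat_lit 3) (.e (nat_lit 163978) (nat_lit 30) (.e (nat_lit 573485) (nat_lit 13) (.e (nat_lit 65604) (nat_lit 9) (.e (nat_lit 336013) (nat_lit 2) (.e (nat_lit 90134) (nat_lit 9) (.e (nat_lit 3071) (nat_lit 190) (.e (nat_lit 475197) (nat_lit 40) .nil)))))))) (.g (nat_lit 1) (.e (nat_lit 440823) (nat_lit 0) .nil) .nil))) 
(.lf (nat_lit 608885) (.g (nat_lit 2882) (.e (nat_lit 704597) (nat_lit 6) (.e (nat_lit 188453) (nat_lit 24) (.e (nat_lit 229665) (nat_lit 240) (.e (nat_lit 2651) (nat_lit 166) (.e (nat_lit 188417) (nat_lit 0) (.e (nat_lit 2147) (nat_lit 142) .nil)))))) (.g (nat_lit 1) (.e (nat_lit 442337) (nat_lit 0) .nil) .nil)))) (.nd (nat_lit 9) 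
(.lf (nat_lit 608629) (.g (nat_lit 5059) (.e (nat_lit 704589) (nat_lit 3) (.e (nat_lit 163979) (nat_lit 30) (.e (nat_lit 573493) (nat_lit 15) (.e (nat_lit 81951) (nat_lit 22) (.e (nat_lit 90170) (nat_lit 13) (.e (nat_lit 172138) (nat_lit 15) (.e (nat_lit 2059) (nat_lit 142) .nil))))))) (.g (nat_lit 1) (.e (nat_lit 441213) (nat_lit 0) .nil) .nil))) 
(.lf (nat_lit 609141) (.g (nat_lit 2248) (.e (nat_lit 704599) (nat_lit 6) (.e (nat_lit 188455) (nat_lit 24) (.e (nat_lit 229678) (nat_lit 244) (.e (nat_lit 163908) (nat_lit 12) (.e (nat_lit 426312) (nat_lit 12) .nil))))) (.g (nat_lit 0) (.e (nat_lit 442700) (nat_lit 0) .nil) .nil))))) (.nd (nat_lit 8) (.nd (nat_lit 9) 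
(.lf (nat_lit 608501) (.g (nat_lit 6347) (.e (nat_lit 704589) (nat_lit 3) (.e (nat_lit 163979) (nat_lit 30) (.e (nat_lit 573484) (nat_lit 13) (.e (nat_lit 65610) (nat_lit 10) (.e (nat_lit 344117) (nat_lit 21) (.e (nat_lit 516151) (nat_lit 9) (.e (nat_lit 426412) (nat_lit 15) (.e (nat_lit 2056) (nat_lit 142) .nil)))))))) (.g (nat_lit 1) (.e (nat_lit 440960) (nat_lit 0) .nil) .nil))) 
(.lf (nat_lit 609013) (.g (nat_lit 2061) (.e (nat_lit 704598) (nat_lit 6) (.e (nat_lit 188455) (nat_lit 24) (.e (nat_lit 229664) (nat_lit 240) (.e (nat_lit 2630) (nat_lit 164) (.e (nat_lit 172118) (nat_lit 12) (.e (nat_lit 475198) (nat_lit 40) .nil)))))) (.g (nat_lit 1) (.e (nat_lit 442510) (nat_lit 0) .nil) .nil)))) (.nd (nat_lit 9) 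
(.lf (nat_lit 608757) (.g (nat_lit 2641) (.e (nat_lit 704590) (nat_lit 3) (.e (nat_lit 163975) (nat_lit 30) (.e (nat_lit 573491) (nat_lit 15) (.e (nat_lit 81954) (nat_lit 23) (.e (nat_lit 98386) (nat_lit 32) (.e (nat_lit 475197) (nat_lit 40) .nil)))))) (.g (nat_lit 1) (.e (nat_lit 441513) (nat_lit 0) .nil) .nil))) 
(.lf (nat_lit 609269) (.g (nat_lit 3743) (.e (nat_lit 704738) (nat_lit 11) (.e (nat_lit 16425) (nat_lit 7) (.e (nat_lit 409649) (nat_lit 18) (.e (nat_lit 303140) (nat_lit 10) (.e (nat_lit 434275) (nat_lit 39) (.e (nat_lit 663580) (nat_lit 9) (.e (nat_lit 2478) (nat_lit 157) (.e (nat_lit 7936) (nat_lit 218) .nil)))))))) (.g (nat_lit 1) (.e (nat_lit 443890) (nat_lit 0) .nil) .nil))))))))) 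
(.nd (nat_lit 4) (.nd (nat_lit 5) (.nd (nat_lit 6) (.nd (nat_lit 7) (.nd (nat_lit 8) 
(.nd (nat_lit 9) 
(.lf (nat_lit 608269) (.g (nat_lit 3414) (.e (nat_lit 704589) (nat_lit 3) (.e (nat_lit 163976) (nat_lit 30) (.e (nat_lit 573481) (nat_lit 13) (.e (nat_lit 65619) (nat_lit 10) (.e (nat_lit 344117) (nat_lit 21) (.e (nat_lit 516151) (nat_lit 9) (.e (nat_lit 426410) (nat_lit 15) (.e (nat_lit 2057) (nat_lit 142) .nil)))))))) (.g (nat_lit 1) (.e (nat_lit 440614) (nat_lit 0) .nil) .nil))) 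
(.lf (nat_lit 608781) (.g (nat_lit 1301) (.e (nat_lit 704592) (nat_lit 4) (.e (nat_lit 172126) (nat_lit 14) (.e (nat_lit 491550) (nat_lit 9) (.e (nat_lit 336428) (nat_lit 29) .nil)))) (.g (nat_lit 0) (.e (nat_lit 441705) (nat_lit 0) .nil) .nil)))) (.nd (nat_lit 9) 
(.lf (nat_lit 608525) (.g (nat_lit 2044) (.e (nat_lit 704589) (nat_lit 3) (.e (nat_lit 163979) (nat_lit 30) (.e (nat_lit 573491) (nat_lit 15) (.e (nat_lit 81954) (nat_lit 23) (.e (nat_lit 98355) (nat_lit 26) (.e (nat_lit 426420) (nat_lit 15) (.e (nat_lit 2056) (nat_lit 142) .nil))))))) (.g (nat_lit 1) (.e (nat_lit 440991) (nat_lit 0) .nil) .nil))) 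
(.lf (nat_lit 609037) (.g (nat_lit 1442) (.e (nat_lit 704598) (nat_lit 6) (.e (nat_lit 188455) (nat_lit 24) (.e (nat_lit 229680) (nat_lit 244) (.e (nat_lit 163900) (nat_lit 12) (.e (nat_lit 426317) (nat_lit 12) .nil))))) (.g (nat_lit 0) (.e (nat_lit 442535) (nat_lit 0) .nil) .nil))))) (.nd (nat_lit 8) (.nd (nat_lit 9) 
(.lf (nat_lit 608397) (.g (nat_lit 5209) (.e (nat_lit 704589) (nat_lit 3) (.e (nat_lit 163978) (nat_lit 30) (.e (nat_lit 573485) (nat_lit 13) (.e (nat_lit 65619) (nat_lit 10) (.e (nat_lit 344117) (nat_lit 21) (.e (nat_lit 516145) (nat_lit 9) (.e (nat_lit 426375) (nat_lit 15) (.e (nat_lit 2058) (nat_lit 142) .nil)))))))) (.g (nat_lit 1) (.e (nat_lit 440850) (nat_lit 0) .nil) .nil))) 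
(.lf (nat_lit 608909) (.g (nat_lit 1158) (.e (nat_lit 704598) (nat_lit 6) (.e (nat_lit 188434) (nat_lit 20) (.e (nat_lit 3406) (nat_lit 212) (.e (nat_lit 655380) (nat_lit 6) (.e (nat_lit 188418) (nat_lit 0) (.e (nat_lit 2057) (nat_lit 142) .nil)))))) (.g (nat_lit 1) (.e (nat_lit 442376) (nat_lit 0) .nil) .nil)))) (.nd (nat_lit 9) 
(.lf (nat_lit 608653) (.g (nat_lit 3152) (.e (nat_lit 704589) (nat_lit 3) (.e (nat_lit 163979) (nat_lit 30) (.e (nat_lit 573493) (nat_lit 15) (.e (nat_lit 81954) (nat_lit 23) (.e (nat_lit 106240) (nat_lit 26) .nil))))) (.g (nat_lit 0) (.e (nat_lit 441330) (nat_lit 0) .nil) .nil))) 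
(.lf (nat_lit 609165) (.g (nat_lit 3447) (.e (nat_lit 704629) (nat_lit 9) (.e (nat_lit 375) (nat_lit 32) (.e (nat_lit 426113) (nat_lit 2) (.e (nat_lit 196666) (nat_lit 13) (.e (nat_lit 65617) (nat_lit 10) (.e (nat_lit 344132) (nat_lit 26) (.e (nat_lit 557094) (nat_lit 12) (.e (nat_lit 164022) (nat_lit 46) .nil)))))))) (.g (nat_lit 1) (.e (nat_lit 443115) (nat_lit 0) .nil) .nil)))))) 
(.nd (nat_lit 7) (.nd (nat_lit 8) (.nd (nat_lit 9) 
(.lf (nat_lit 608333) (.g (nat_lit 3335) (.e (nat_lit 704589) (nat_lit 3) (.e (nat_lit 163976) (nat_lit 30) (.e (nat_lit 573492) (nat_lit 15) (.e (nat_lit 81956) (nat_lit 23) (.e (nat_lit 98356) (nat_lit 26) (.e (nat_lit 426360) (nat_lit 15) (.e (nat_lit 2047) (nat_lit 142) .nil))))))) (.g (nat_lit 1) (.e (nat_lit 440773) (nat_lit 0) .nil) .nil))) 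
(.lf (nat_lit 608845) (.g (nat_lit 1440) (.e (nat_lit 704597) (nat_lit 6) (.e (nat_lit 188431) (nat_lit 20) (.e (nat_lit 3402) (nat_lit 211) (.e (nat_lit 647185) (nat_lit 6) (.e (nat_lit 188417) (nat_lit 0) (.e (nat_lit 2147) (nat_lit 142) .nil)))))) (.g (nat_lit 1) (.e (nat_lit 442242) (nat_lit 0) .nil) .nil)))) (.nd (nat_lit 9) 
(.lf (nat_lit 608589) (.g (nat_lit 3298) (.e (nat_lit 704589) (nat_lit 3) (.e (nat_lit 163979) (nat_lit 30) (.e (nat_lit 573492) (nat_lit 15) (.e (nat_lit 81956) (nat_lit 23) (.e (nat_lit 98356) (nat_lit 26) (.e (nat_lit 426360) (nat_lit 15) (.e (nat_lit 2060) (nat_lit 142) .nil))))))) (.g (nat_lit 1) (.e (nat_lit 441064) (nat_lit 0) .nil) .nil))) 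
(.lf (nat_lit 609101) (.g (nat_lit 2118) (.e (nat_lit 704599) (nat_lit 6) (.e (nat_lit 188453) (nat_lit 24) (.e (nat_lit 229678) (nat_lit 244) (.e (nat_lit 163908) (nat_lit 12) (.e (nat_lit 426312) (nat_lit 12) .nil))))) (.g (nat_lit 0) (.e (nat_lit 442633) (nat_lit 0) .nil) .nil))))) (.nd (nat_lit 8) (.nd (nat_lit 9) 
(.lf (nat_lit 608461) (.g (nat_lit 2866) (.e (nat_lit 704589) (nat_lit 3) (.e (nat_lit 163979) (nat_lit 30) (.e (nat_lit 573482) (nat_lit 13) (.e (nat_lit 65619) (nat_lit 10) (.e (nat_lit 344105) (nat_lit 19) (.e (nat_lit 499919) (nat_lit 9) (.e (nat_lit 172138) (nat_lit 15) (.e (nat_lit 2059) (nat_lit 142) .nil)))))))) (.g (nat_lit 1) (.e (nat_lit 440920) (nat_lit 0) .nil) .nil))) 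
(.lf (nat_lit 608973) (.g (nat_lit 1927) (.e (nat_lit 704598) (nat_lit 6) (.e (nat_lit 188453) (nat_lit 24) (.e (nat_lit 229664) (nat_lit 240) (.e (nat_lit 2630) (nat_lit 164) (.e (nat_lit 172118) (nat_lit 12) (.e (nat_lit 475199) (nat_lit 40) .nil)))))) (.g (nat_lit 1) (.e (nat_lit 442465) (nat_lit 0) .nil) .nil)))) (.nd (nat_lit 9) 
(.lf (nat_lit 608717) (.g (nat_lit 3487) (.e (nat_lit 704589) (nat_lit 3) (.e (nat_lit 163979) (nat_lit 30) (.e (nat_lit 573493) (nat_lit 15) (.e (nat_lit 81956) (nat_lit 23) (.e (nat_lit 98360) (nat_lit 26) (.e (nat_lit 426414) (nat_lit 15) (.e (nat_lit 2059) (nat_lit 142) .nil))))))) (.g (nat_lit 1) (.e (nat_lit 441404) (nat_lit 0) .nil) .nil))) 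
(.lf (nat_lit 609229) (.g (nat_lit 2045) (.e (nat_lit 704736) (nat_lit 11) (.e (nat_lit 16473) (nat_lit 14) (.e (nat_lit 491526) (nat_lit 0) (.e (nat_lit 2270) (nat_lit 149) .nil)))) (.g (nat_lit 0) (.e (nat_lit 443635) (nat_lit 0) .nil) .nil))))))) (.nd (nat_lit 6) (.nd (nat_lit 7) (.nd (nat_lit 8) (.nd (nat_lit 9) 
(.lf (nat_lit 608301) (.g (nat_lit 3051) (.e (nat_lit 704589) (nat_lit 3) (.e (nat_lit 163976) (nat_lit 30) (.e (nat_lit 573491) (nat_lit 15) (.e (nat_lit 81954) (nat_lit 23) (.e (nat_lit 98356) (nat_lit 26) (.e (nat_lit 426375) (nat_lit 15) (.e (nat_lit 2057) (nat_lit 142) .nil))))))) (.g (nat_lit 1) (.e (nat_lit 440648) (nat_lit 0) .nil) .nil))) 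
(.lf (nat_lit 608813) (.g (nat_lit 1273) (.e (nat_lit 704595) (nat_lit 5) (.e (nat_lit 180277) (nat_lit 32) (.e (nat_lit 1426) (nat_lit 108) (.e (nat_lit 336430) (nat_lit 29) (.e (nat_lit 442378) (nat_lit 0) .nil))))) (.g (nat_lit 0) (.e (nat_lit 442111) (nat_lit 0) .nil) .nil)))) (.nd (nat_lit 9) 
(.lf (nat_lit 608557) (.g (nat_lit 3376) (.e (nat_lit 704589) (nat_lit 3) (.e (nat_lit 163979) (nat_lit 30) (.e (nat_lit 573491) (nat_lit 15) (.e (nat_lit 81954) (nat_lit 23) (.e (nat_lit 98356) (nat_lit 26) (.e (nat_lit 426399) (nat_lit 15) (.e (nat_lit 2056) (nat_lit 142) .nil))))))) (.g (nat_lit 1) (.e (nat_lit 441023) (nat_lit 0) .nil) .nil))) 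
(.lf (nat_lit 609069) (.g (nat_lit 1195) (.e (nat_lit 704599) (nat_lit 6) (.e (nat_lit 188446) (nat_lit 21) (.e (nat_lit 164345) (nat_lit 240) (.e (nat_lit 2648) (nat_lit 166) (.e (nat_lit 188420) (nat_lit 0) .nil))))) (.g (nat_lit 0) (.e (nat_lit 442576) (nat_lit 0) .nil) .nil))))) (.nd (nat_lit 8) (.nd (nat_lit 9) 
(.lf (nat_lit 608429) (.g (nat_lit 869) (.e (nat_lit 704589) (nat_lit 3) (.e (nat_lit 163978) (nat_lit 30) (.e (nat_lit 573493) (nat_lit 15) .nil))) (.g (nat_lit 0) (.e (nat_lit 440886) (nat_lit 0) .nil) .nil))) 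
(.lf (nat_lit 608941) (.g (nat_lit 1114) (.e (nat_lit 704598) (nat_lit 6) (.e (nat_lit 188444) (nat_lit 21) (.e (nat_lit 164348) (nat_lit 240) (.e (nat_lit 2618) (nat_lit 164) .nil)))) (.g (nat_lit 0) (.e (nat_lit 442411) (nat_lit 0) .nil) .nil)))) (.nd (nat_lit 9) 
(.lf (nat_lit 608685) (.g (nat_lit 2874) (.e (nat_lit 704589) (nat_lit 3) (.e (nat_lit 163979) (nat_lit 30) (.e (nat_lit 573493) (nat_lit 15) (.e (nat_lit 81956) (nat_lit 23) (.e (nat_lit 98356) (nat_lit 26) (.e (nat_lit 426362) (nat_lit 15) (.e (nat_lit 2060) (nat_lit 142) .nil))))))) (.g (nat_lit 1) (.e (nat_lit 441372) (nat_lit 0) .nil) .nil))) 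
(.lf (nat_lit 609197) (.g (nat_lit 3527) (.e (nat_lit 704732) (nat_lit 11) (.e (nat_lit 16425) (nat_lit 7) (.e (nat_lit 409648) (nat_lit 18) (.e (nat_lit 303137) (nat_lit 10) (.e (nat_lit 434275) (nat_lit 39) (.e (nat_lit 663580) (nat_lit 9) (.e (nat_lit 2478) (nat_lit 157) (.e (nat_lit 7936) (nat_lit 218) .nil)))))))) (.g (nat_lit 1) (.e (nat_lit 443407) (nat_lit 0) .nil) .nil)))))) 
(.nd (nat_lit 7) (.nd (nat_lit 8) (.nd (nat_lit 9) 
(.lf (nat_lit 608365) (.g (nat_lit 3410) (.e (nat_lit 704589) (nat_lit 3) (.e (nat_lit 163976) (nat_lit 30) (.e (nat_lit 573492) (nat_lit 15) (.e (nat_lit 81956) (nat_lit 23) (.e (nat_lit 98386) (nat_lit 32) (.e (nat_lit 475196) (nat_lit 40) .nil)))))) (.g (nat_lit 1) (.e (nat_lit 440805) (nat_lit 0) .nil) .nil))) 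
(.lf (nat_lit 608877) (.g (nat_lit 1479) (.e (nat_lit 704597) (nat_lit 6) (.e (nat_lit 188452) (nat_lit 23) (.e (nat_lit 204805) (nat_lit 0) (.e (nat_lit 7096) (nat_lit 380) .nil)))) (.g (nat_lit 0) (.e (nat_lit 442304) (nat_lit 0) .nil) .nil)))) (.nd (nat_lit 9) 
(.lf (nat_lit 608621) (.g (nat_lit 3806) (.e (nat_lit 704589) (nat_lit 3) (.e (nat_lit 163979) (nat_lit 30) (.e (nat_lit 573492) (nat_lit 15) (.e (nat_lit 81956) (nat_lit 23) (.e (nat_lit 98386) (nat_lit 32) (.e (nat_lit 475196) (nat_lit 40) .nil)))))) (.g (nat_lit 1) (.e (nat_lit 441096) (nat_lit 0) .nil) .nil))) 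
(.lf (nat_lit 609133) (.g (nat_lit 295) (.e (nat_lit 704599) (nat_lit 6) (.e (nat_lit 188455) (nat_lit 24) (.e (nat_lit 229678) (nat_lit 244) .nil))) (.g (nat_lit 0) (.e (nat_lit 442690) (nat_lit 0) .nil) .nil))))) (.nd (nat_lit 8) (.nd (nat_lit 9) 
(.lf (nat_lit 608493) (.g (nat_lit 3650) (.e (nat_lit 704589) (nat_lit 3) (.e (nat_lit 163979) (nat_lit 30) (.e (nat_lit 573482) (nat_lit 13) (.e (nat_lit 65619) (nat_lit 10) (.e (nat_lit 344117) (nat_lit 21) (.e (nat_lit 516152) (nat_lit 9) (.e (nat_lit 426410) (nat_lit 15) (.e (nat_lit 2058) (nat_lit 142) .nil)))))))) (.g (nat_lit 1) (.e (nat_lit 440952) (nat_lit 0) .nil) .nil))) 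
(.lf (nat_lit 609005) (.g (nat_lit 4179) (.e (nat_lit 704598) (nat_lit 6) (.e (nat_lit 188455) (nat_lit 24) (.e (nat_lit 229663) (nat_lit 240) (.e (nat_lit 2630) (nat_lit 164) (.e (nat_lit 172120) (nat_lit 12) (.e (nat_lit 475197) (nat_lit 40) .nil)))))) (.g (nat_lit 1) (.e (nat_lit 442502) (nat_lit 0) .nil) .nil)))) (.nd (nat_lit 9) 
(.lf (nat_lit 608749) (.g (nat_lit 4053) (.e (nat_lit 704590) (nat_lit 3) (.e (nat_lit 163975) (nat_lit 30) (.e (nat_lit 573481) (nat_lit 13) (.e (nat_lit 65604) (nat_lit 9) (.e (nat_lit 336028) (nat_lit 3) (.e (nat_lit 98386) (nat_lit 32) (.e (nat_lit 475196) (nat_lit 40) .nil))))))) (.g (nat_lit 1) (.e (nat_lit 441504) (nat_lit 0) .nil) .nil))) 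
(.lf (nat_lit 609261) (.g (nat_lit 3072) (.e (nat_lit 704738) (nat_lit 11) (.e (nat_lit 16425) (nat_lit 7) (.e (nat_lit 409617) (nat_lit 10) (.e (nat_lit 848) (nat_lit 73) (.e (nat_lit 761905) (nat_lit 16) (.e (nat_lit 172113) (nat_lit 10) (.e (nat_lit 442112) (nat_lit 44) .nil))))))) (.g (nat_lit 1) (.e (nat_lit 443880) (nat_lit 0) .nil) .nil)))))))) 
(.nd (nat_lit 5) (.nd (nat_lit 6) (.nd (nat_lit 7) (.nd (nat_lit 8) (.nd (nat_lit 9) 
(.lf (nat_lit 608285) (.g (nat_lit 1646) (.e (nat_lit 704589) (nat_lit 3) (.e (nat_lit 163976) (nat_lit 30) (.e (nat_lit 573491) (nat_lit 15) (.e (nat_lit 81954) (nat_lit 23) (.e (nat_lit 98355) (nat_lit 26) (.e (nat_lit 426393) (nat_lit 15) (.e (nat_lit 2056) (nat_lit 142) .nil))))))) (.g (nat_lit 1) (.e (nat_lit 440632) (nat_lit 0) .nil) .nil))) 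
(.lf (nat_lit 608797) (.g (nat_lit 521) (.e (nat_lit 704593) (nat_lit 4) (.e (nat_lit 172124) (nat_lit 14) (.e (nat_lit 491549) (nat_lit 9) .nil))) (.g (nat_lit 0) (.e (nat_lit 441880) (nat_lit 0) .nil) .nil)))) (.nd (nat_lit 9) 
(.lf (nat_lit 608541) (.g (nat_lit 2171) (.e (nat_lit 704589) (nat_lit 3) (.e (nat_lit 163979) (nat_lit 30) (.e (nat_lit 573491) (nat_lit 15) (.e (nat_lit 81954) (nat_lit 23) (.e (nat_lit 98356) (nat_lit 26) (.e (nat_lit 426364) (nat_lit 15) (.e (nat_lit 2061) (nat_lit 142) .nil))))))) (.g (nat_lit 1) (.e (nat_lit 441007) (nat_lit 0) .nil) .nil))) 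
(.lf (nat_lit 609053) (.g (nat_lit 949) (.e (nat_lit 704599) (nat_lit 6) (.e (nat_lit 188444) (nat_lit 21) (.e (nat_lit 164346) (nat_lit 240) (.e (nat_lit 2648) (nat_lit 166) (.e (nat_lit 188420) (nat_lit 0) .nil))))) (.g (nat_lit 0) (.e (nat_lit 442560) (nat_lit 0) .nil) .nil))))) (.nd (nat_lit 8) (.nd (nat_lit 9) 
(.lf (nat_lit 608413) (.g (nat_lit 3593) (.e (nat_lit 704589) (nat_lit 3) (.e (nat_lit 163978) (nat_lit 30) (.e (nat_lit 573485) (nat_lit 13) (.e (nat_lit 65619) (nat_lit 10) (.e (nat_lit 344117) (nat_lit 21) (.e (nat_lit 516152) (nat_lit 9) (.e (nat_lit 426410) (nat_lit 15) (.e (nat_lit 2058) (nat_lit 142) .nil)))))))) (.g (nat_lit 1) (.e (nat_lit 440866) (nat_lit 0) .nil) .nil))) 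
(.lf (nat_lit 608925) (.g (nat_lit 1106) (.e (nat_lit 704598) (nat_lit 6) (.e (nat_lit 188434) (nat_lit 20) (.e (nat_lit 3409) (nat_lit 212) (.e (nat_lit 655380) (nat_lit 6) (.e (nat_lit 188420) (nat_lit 0) (.e (nat_lit 2057) (nat_lit 142) .nil)))))) (.g (nat_lit 1) (.e (nat_lit 442392) (nat_lit 0) .nil) .nil)))) (.nd (nat_lit 9) 
(.lf (nat_lit 608669) (.g (nat_lit 3023) (.e (nat_lit 704589) (nat_lit 3) (.e (nat_lit 163979) (nat_lit 30) (.e (nat_lit 573493) (nat_lit 15) (.e (nat_lit 81956) (nat_lit 23) (.e (nat_lit 98355) (nat_lit 26) (.e (nat_lit 426420) (nat_lit 15) (.e (nat_lit 2057) (nat_lit 142) .nil))))))) (.g (nat_lit 1) (.e (nat_lit 441356) (nat_lit 0) .nil) .nil))) 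
(.lf (nat_lit 609181) (.g (nat_lit 2230) (.e (nat_lit 704728) (nat_lit 10) (.e (nat_lit 8228) (nat_lit 15) (.e (nat_lit 532513) (nat_lit 3) (.e (nat_lit 114714) (nat_lit 22) (.e (nat_lit 90172) (nat_lit 14) (.e (nat_lit 188160) (nat_lit 3) (.e (nat_lit 516106) (nat_lit 0) (.e (nat_lit 3537) (nat_lit 218) .nil)))))))) (.g (nat_lit 1) (.e (nat_lit 443357) (nat_lit 0) .nil) .nil)))))) 
(.nd (nat_lit 7) (.nd (nat_lit 8) (.nd (nat_lit 9) 
(.lf (nat_lit 608349) (.g (nat_lit 4031) (.e (nat_lit 704589) (nat_lit 3) (.e (nat_lit 163976) (nat_lit 30) (.e (nat_lit 573492) (nat_lit 15) (.e (nat_lit 81956) (nat_lit 23) (.e (nat_lit 98356) (nat_lit 26) (.e (nat_lit 426376) (nat_lit 15) (.e (nat_lit 2059) (nat_lit 142) .nil))))))) (.g (nat_lit 1) (.e (nat_lit 440789) (nat_lit 0) .nil) .nil))) 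
(.lf (nat_lit 608861) (.g (nat_lit 532) (.e (nat_lit 704597) (nat_lit 6) (.e (nat_lit 188446) (nat_lit 21) (.e (nat_lit 164345) (nat_lit 240) .nil))) (.g (nat_lit 0) (.e (nat_lit 442274) (nat_lit 0) .nil) .nil)))) (.nd (nat_lit 9) 
(.lf (nat_lit 608605) (.g (nat_lit 4518) (.e (nat_lit 704589) (nat_lit 3) (.e (nat_lit 163979) (nat_lit 30) (.e (nat_lit 573492) (nat_lit 15) (.e (nat_lit 81956) (nat_lit 23) (.e (nat_lit 98356) (nat_lit 26) (.e (nat_lit 426375) (nat_lit 15) (.e (nat_lit 2058) (nat_lit 142) .nil))))))) (.g (nat_lit 1) (.e (nat_lit 441080) (nat_lit 0) .nil) .nil))) 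
(.lf (nat_lit 609117) (.g (nat_lit 2523) (.e (nat_lit 704599) (nat_lit 6) (.e (nat_lit 188455) (nat_lit 24) (.e (nat_lit 229663) (nat_lit 240) (.e (nat_lit 2653) (nat_lit 166) (.e (nat_lit 188418) (nat_lit 0) (.e (nat_lit 2056) (nat_lit 142) .nil)))))) (.g (nat_lit 1) (.e (nat_lit 442661) (nat_lit 0) .nil) .nil))))) (.nd (nat_lit 8) (.nd (nat_lit 9) 
(.lf (nat_lit 608477) (.g (nat_lit 4744) (.e (nat_lit 704589) (nat_lit 3) (.e (nat_lit 163979) (nat_lit 30) (.e (nat_lit 573482) (nat_lit 13) (.e (nat_lit 65619) (nat_lit 10) (.e (nat_lit 344117) (nat_lit 21) (.e (nat_lit 516145) (nat_lit 9) (.e (nat_lit 426374) (nat_lit 15) (.e (nat_lit 2058) (nat_lit 142) .nil)))))))) (.g (nat_lit 1) (.e (nat_lit 440936) (nat_lit 0) .nil) .nil))) 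
(.lf (nat_lit 608989) (.g (nat_lit 1784) (.e (nat_lit 704598) (nat_lit 6) (.e (nat_lit 188453) (nat_lit 24) (.e (nat_lit 229680) (nat_lit 244) (.e (nat_lit 163908) (nat_lit 12) (.e (nat_lit 426305) (nat_lit 12) .nil))))) (.g (nat_lit 0) (.e (nat_lit 442482) (nat_lit 0) .nil) .nil)))) (.nd (nat_lit 9) 
(.lf (nat_lit 608733) (.g (nat_lit 4394) (.e (nat_lit 704589) (nat_lit 3) (.e (nat_lit 163979) (nat_lit 30) (.e (nat_lit 573493) (nat_lit 15) (.e (nat_lit 81956) (nat_lit 23) (.e (nat_lit 98386) (nat_lit 32) (.e (nat_lit 475196) (nat_lit 40) .nil)))))) (.g (nat_lit 1) (.e (nat_lit 441420) (nat_lit 0) .nil) .nil))) 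
(.lf (nat_lit 609245) (.g (nat_lit 808) (.e (nat_lit 704737) (nat_lit 11) (.e (nat_lit 16465) (nat_lit 13) (.e (nat_lit 483342) (nat_lit 17) .nil))) (.g (nat_lit 0) (.e (nat_lit 443761) (nat_lit 0) .nil) .nil))))))) (.nd (nat_lit 6) (.nd (nat_lit 7) (.nd (nat_lit 8) (.nd (nat_lit 9) 
(.lf (nat_lit 608317) (.g (nat_lit 3311) (.e (nat_lit 704589) (nat_lit 3) (.e (nat_lit 163976) (nat_lit 30) (.e (nat_lit 573492) (nat_lit 15) (.e (nat_lit 81953) (nat_lit 22) (.e (nat_lit 90170) (nat_lit 13) (.e (nat_lit 172137) (nat_lit 15) (.e (nat_lit 2059) (nat_lit 142) .nil))))))) (.g (nat_lit 1) (.e (nat_lit 440740) (nat_lit 0) .nil) .nil))) 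
(.lf (nat_lit 608829) (.g (nat_lit 1727) (.e (nat_lit 704595) (nat_lit 5) (.e (nat_lit 180278) (nat_lit 32) (.e (nat_lit 1661) (nat_lit 115) (.e (nat_lit 393268) (nat_lit 23) (.e (nat_lit 426360) (nat_lit 15) .nil))))) (.g (nat_lit 0) (.e (nat_lit 442162) (nat_lit 0) .nil) .nil)))) (.nd (nat_lit 9) 
(.lf (nat_lit 608573) (.g (nat_lit 6610) (.e (nat_lit 704589) (nat_lit 3) (.e (nat_lit 163979) (nat_lit 30) (.e (nat_lit 573492) (nat_lit 15) (.e (nat_lit 81953) (nat_lit 22) (.e (nat_lit 90169) (nat_lit 13) .nil))))) (.g (nat_lit 0) (.e (nat_lit 441043) (nat_lit 0) .nil) .nil))) 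
(.lf (nat_lit 609085) (.g (nat_lit 2443) (.e (nat_lit 704599) (nat_lit 6) (.e (nat_lit 188452) (nat_lit 23) (.e (nat_lit 204829) (nat_lit 18) (.e (nat_lit 57691) (nat_lit 156) .nil)))) (.g (nat_lit 0) (.e (nat_lit 442600) (nat_lit 0) .nil) .nil))))) (.nd (nat_lit 8) (.nd (nat_lit 9) 
(.lf (nat_lit 608445) (.g (nat_lit 5460) (.e (nat_lit 704589) (nat_lit 3) (.e (nat_lit 163979) (nat_lit 30) (.e (nat_lit 573482) (nat_lit 13) (.e (nat_lit 65604) (nat_lit 9) (.e (nat_lit 336013) (nat_lit 2) (.e (nat_lit 90169) (nat_lit 13) (.e (nat_lit 172133) (nat_lit 15) (.e (nat_lit 2059) (nat_lit 142) .nil)))))))) (.g (nat_lit 1) (.e (nat_lit 440904) (nat_lit 0) .nil) .nil))) 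
(.lf (nat_lit 608957) (.g (nat_lit 2515) (.e (nat_lit 704598) (nat_lit 6) (.e (nat_lit 188446) (nat_lit 21) (.e (nat_lit 164348) (nat_lit 240) (.e (nat_lit 2648) (nat_lit 166) (.e (nat_lit 188420) (nat_lit 0) (.e (nat_lit 2058) (nat_lit 142) .nil)))))) (.g (nat_lit 1) (.e (nat_lit 442434) (nat_lit 0) .nil) .nil)))) (.nd (nat_lit 9) 
(.lf (nat_lit 608701) (.g (nat_lit 2872) (.e (nat_lit 704589) (nat_lit 3) (.e (nat_lit 163979) (nat_lit 30) (.e (nat_lit 573493) (nat_lit 15) (.e (nat_lit 81956) (nat_lit 23) (.e (nat_lit 98356) (nat_lit 26) (.e (nat_lit 426416) (nat_lit 15) (.e (nat_lit 7936) (nat_lit 142) .nil))))))) (.g (nat_lit 1) (.e (nat_lit 441388) (nat_lit 0) .nil) .nil))) 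
(.lf (nat_lit 609213) (.g (nat_lit 2995) (.e (nat_lit 704735) (nat_lit 11) (.e (nat_lit 16473) (nat_lit 14) (.e (nat_lit 491526) (nat_lit 0) (.e (nat_lit 2270) (nat_lit 149) .nil)))) (.g (nat_lit 0) (.e (nat_lit 443500) (nat_lit 0) .nil) .nil)))))) (.nd (nat_lit 7) (.nd (nat_lit 8) (.nd (nat_lit 9) 
(.lf (nat_lit 608381) (.g (nat_lit 1943) (.e (nat_lit 704589) (nat_lit 3) (.e (nat_lit 163978) (nat_lit 30) (.e (nat_lit 573485) (nat_lit 13) (.e (nat_lit 65604) (nat_lit 9) (.e (nat_lit 343808) (nat_lit 3) .nil))))) (.g (nat_lit 0) (.e (nat_lit 440831) (nat_lit 0) .nil) .nil))) 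
(.lf (nat_lit 608893) (.g (nat_lit 2096) (.e (nat_lit 704597) (nat_lit 6) (.e (nat_lit 188455) (nat_lit 24) (.e (nat_lit 229678) (nat_lit 244) (.e (nat_lit 163913) (nat_lit 12) .nil)))) (.g (nat_lit 0) (.e (nat_lit 442358) (nat_lit 0) .nil) .nil)))) (.nd (nat_lit 9) 
(.lf (nat_lit 608637) (.g (nat_lit 3188) (.e (nat_lit 704589) (nat_lit 3) (.e (nat_lit 163979) (nat_lit 30) (.e (nat_lit 573493) (nat_lit 15) (.e (nat_lit 81954) (nat_lit 23) (.e (nat_lit 98355) (nat_lit 26) .nil))))) (.g (nat_lit 0) (.e (nat_lit 441314) (nat_lit 0) .nil) .nil))) 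
(.lf (nat_lit 609149) (.g (nat_lit 4503) (.e (nat_lit 704626) (nat_lit 9) (.e (nat_lit 375) (nat_lit 32) (.e (nat_lit 426125) (nat_lit 2) (.e (nat_lit 196666) (nat_lit 13) (.e (nat_lit 65614) (nat_lit 10) .nil))))) (.g (nat_lit 0) (.e (nat_lit 442942) (nat_lit 0) .nil) .nil))))) (.nd (nat_lit 8) (.nd (nat_lit 9) 
(.lf (nat_lit 608509) (.g (nat_lit 1480) (.e (nat_lit 704589) (nat_lit 3) (.e (nat_lit 163979) (nat_lit 30) (.e (nat_lit 573491) (nat_lit 15) (.e (nat_lit 81943) (nat_lit 20) (.e (nat_lit 1781) (nat_lit 119) .nil))))) (.g (nat_lit 0) (.e (nat_lit 440969) (nat_lit 0) .nil) .nil))) 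
(.lf (nat_lit 609021) (.g (nat_lit 2469) (.e (nat_lit 704598) (nat_lit 6) (.e (nat_lit 188455) (nat_lit 24) (.e (nat_lit 229666) (nat_lit 240) (.e (nat_lit 2651) (nat_lit 166) (.e (nat_lit 188420) (nat_lit 0) (.e (nat_lit 2058) (nat_lit 142) .nil)))))) (.g (nat_lit 1) (.e (nat_lit 442518) (nat_lit 0) .nil) .nil)))) (.nd (nat_lit 9) 
(.lf (nat_lit 608765) (.g (nat_lit 1529) (.e (nat_lit 712448) (nat_lit 3) (.e (nat_lit 163979) (nat_lit 30) (.e (nat_lit 573492) (nat_lit 15) (.e (nat_lit 81956) (nat_lit 23) .nil)))) (.g (nat_lit 0) (.e (nat_lit 441595) (nat_lit 0) .nil) .nil))) 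
(.lf (nat_lit 609277) (.g (nat_lit 809) (.e (nat_lit 704738) (nat_lit 11) (.e (nat_lit 16463) (nat_lit 13) (.e (nat_lit 483342) (nat_lit 17) .nil))) (.g (nat_lit 0) (.e (nat_lit 443965) (nat_lit 0) .nil) .nil))))))))))) (.nd (nat_lit 2) (.nd (nat_lit 3) (.nd (nat_lit 4) (.nd (nat_lit 5) (.nd (nat_lit 6) (.nd (nat_lit 7) (.nd (nat_lit 8) (.nd (nat_lit 9) 
(.lf (nat_lit 608259) (.g (nat_lit 4683) (.e (nat_lit 704589) (nat_lit 3) (.e (nat_lit 163976) (nat_lit 30) (.e (nat_lit 573481) (nat_lit 13) (.e (nat_lit 65604) (nat_lit 9) (.e (nat_lit 336013) (nat_lit 2) (.e (nat_lit 90169) (nat_lit 13) (.e (nat_lit 172133) (nat_lit 15) (.e (nat_lit 2059) (nat_lit 142) .nil)))))))) (.g (nat_lit 1) (.e (nat_lit 440602) (nat_lit 0) .nil) .nil))) 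
(.lf (nat_lit 608771) (.g (nat_lit 1883) (.e (nat_lit 704592) (nat_lit 4) (.e (nat_lit 172125) (nat_lit 14) (.e (nat_lit 491571) (nat_lit 13) (.e (nat_lit 393291) (nat_lit 26) .nil)))) (.g (nat_lit 0) (.e (nat_lit 441665) (nat_lit 0) .nil) .nil)))) (.nd (nat_lit 9) 
(.lf (nat_lit 608515) (.g (nat_lit 2953) (.e (nat_lit 704589) (nat_lit 3) (.e (nat_lit 163979) (nat_lit 30) (.e (nat_lit 573491) (nat_lit 15) (.e (nat_lit 81951) (nat_lit 22) (.e (nat_lit 90167) (nat_lit 13) (.e (nat_lit 172138) (nat_lit 15) (.e (nat_lit 2059) (nat_lit 142) .nil))))))) (.g (nat_lit 1) (.e (nat_lit 440980) (nat_lit 0) .nil) .nil))) 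
(.lf (nat_lit 609027) (.g (nat_lit 2255) (.e (nat_lit 704598) (nat_lit 6) (.e (nat_lit 188455) (nat_lit 24) (.e (nat_lit 229678) (nat_lit 244) (.e (nat_lit 163904) (nat_lit 12) .nil)))) (.g (nat_lit 0) (.e (nat_lit 442524) (nat_lit 0) .nil) .nil))))) (.nd (nat_lit 8) (.nd (nat_lit 9) 
(.lf (nat_lit 608387) (.g (nat_lit 3977) (.e (nat_lit 704589) (nat_lit 3) (.e (nat_lit 163978) (nat_lit 30) (.e (nat_lit 573485) (nat_lit 13) (.e (nat_lit 65619) (nat_lit 10) (.e (nat_lit 344117) (nat_lit 21) (.e (nat_lit 516144) (nat_lit 9) (.e (nat_lit 426375) (nat_lit 15) (.e (nat_lit 2057) (nat_lit 142) .nil)))))))) (.g (nat_lit 1) (.e (nat_lit 440840) (nat_lit 0) .nil) .nil))) 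
(.lf (nat_lit 608899) (.g (nat_lit 2253) (.e (nat_lit 704598) (nat_lit 6) (.e (nat_lit 188427) (nat_lit 20) (.e (nat_lit 3402) (nat_lit 211) (.e (nat_lit 647183) (nat_lit 4) (.e (nat_lit 172118) (nat_lit 12) (.e (nat_lit 475198) (nat_lit 40) .nil)))))) (.g (nat_lit 1) (.e (nat_lit 442366) (nat_lit 0) .nil) .nil)))) (.nd (nat_lit 9) 
(.lf (nat_lit 608643) (.g (nat_lit 3025) (.e (nat_lit 704589) (nat_lit 3) (.e (nat_lit 163979) (nat_lit 30) (.e (nat_lit 573493) (nat_lit 15) (.e (nat_lit 81954) (nat_lit 23) (.e (nat_lit 98359) (nat_lit 26) .nil))))) (.g (nat_lit 0) (.e (nat_lit 441320) (nat_lit 0) .nil) .nil))) 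
(.lf (nat_lit 609155) (.g (nat_lit 2585) (.e (nat_lit 704627) (nat_lit 9) (.e (nat_lit 399) (nat_lit 32) (.e (nat_lit 426123) (nat_lit 2) (.e (nat_lit 196666) (nat_lit 13) (.e (nat_lit 65617) (nat_lit 10) .nil))))) (.g (nat_lit 0) (.e (nat_lit 443011) (nat_lit 0) .nil) .nil)))))) (.nd (nat_lit 7) (.nd (nat_lit 8) (.nd (nat_lit 9) 
(.lf (nat_lit 608323) (.g (nat_lit 2513) (.e (nat_lit 704589) (nat_lit 3) (.e (nat_lit 163976) (nat_lit 30) (.e (nat_lit 573492) (nat_lit 15) (.e (nat_lit 81956) (nat_lit 23) (.e (nat_lit 98355) (nat_lit 26) (.e (nat_lit 426379) (nat_lit 15) (.e (nat_lit 2056) (nat_lit 142) .nil))))))) (.g (nat_lit 1) (.e (nat_lit 440763) (nat_lit 0) .nil) .nil))) 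
(.lf (nat_lit 608835) (.g (nat_lit 953) (.e (nat_lit 704595) (nat_lit 5) (.e (nat_lit 180278) (nat_lit 32) (.e (nat_lit 1661) (nat_lit 115) (.e (nat_lit 393275) (nat_lit 23) .nil)))) (.g (nat_lit 0) (.e (nat_lit 442178) (nat_lit 0) .nil) .nil)))) (.nd (nat_lit 9) 
(.lf (nat_lit 608579) (.g (nat_lit 3306) (.e (nat_lit 704589) (nat_lit 3) (.e (nat_lit 163979) (nat_lit 30) (.e (nat_lit 573492) (nat_lit 15) (.e (nat_lit 81956) (nat_lit 23) (.e (nat_lit 98355) (nat_lit 26) (.e (nat_lit 426376) (nat_lit 15) (.e (nat_lit 2059) (nat_lit 142) .nil))))))) (.g (nat_lit 1) (.e (nat_lit 441054) (nat_lit 0) .nil) .nil))) 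
(.lf (nat_lit 609091) (.g (nat_lit 3076) (.e (nat_lit 704599) (nat_lit 6) (.e (nat_lit 188453) (nat_lit 24) (.e (nat_lit 229663) (nat_lit 240) (.e (nat_lit 2651) (nat_lit 166) (.e (nat_lit 188420) (nat_lit 0) (.e (nat_lit 2056) (nat_lit 142) .nil)))))) (.g (nat_lit 1) (.e (nat_lit 442614) (nat_lit 0) .nil) .nil))))) (.nd (nat_lit 8) (.nd (nat_lit 9) 
(.lf (nat_lit 608451) (.g (nat_lit 3287) (.e (nat_lit 704589) (nat_lit 3) (.e (nat_lit 163979) (nat_lit 30) (.e (nat_lit 573482) (nat_lit 13) (.e (nat_lit 65604) (nat_lit 9) (.e (nat_lit 336028) (nat_lit 3) (.e (nat_lit 98362) (nat_lit 26) (.e (nat_lit 426412) (nat_lit 15) (.e (nat_lit 2059) (nat_lit 142) .nil)))))))) (.g (nat_lit 1) (.e (nat_lit 440910) (nat_lit 0) .nil) .nil))) 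
(.lf (nat_lit 608963) (.g (nat_lit 2972) (.e (nat_lit 704598) (nat_lit 6) (.e (nat_lit 188449) (nat_lit 22) (.e (nat_lit 204544) (nat_lit 2) (.e (nat_lit 24665) (nat_lit 14) (.e (nat_lit 401414) (nat_lit 0) (.e (nat_lit 7936) (nat_lit 218) .nil)))))) (.g (nat_lit 1) (.e (nat_lit 442440) (nat_lit 0) .nil) .nil)))) (.nd (nat_lit 9) 
(.lf (nat_lit 608707) (.g (nat_lit 2743) (.e (nat_lit 704589) (nat_lit 3) (.e (nat_lit 163979) (nat_lit 30) (.e (nat_lit 573493) (nat_lit 15) (.e (nat_lit 81956) (nat_lit 23) (.e (nat_lit 98357) (nat_lit 26) (.e (nat_lit 426393) (nat_lit 15) (.e (nat_lit 2058) (nat_lit 142) .nil))))))) (.g (nat_lit 1) (.e (nat_lit 441394) (nat_lit 0) .nil) .nil))) 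
(.lf (nat_lit 609219) (.g (nat_lit 2808) (.e (nat_lit 704736) (nat_lit 11) (.e (nat_lit 16425) (nat_lit 7) (.e (nat_lit 409617) (nat_lit 10) (.e (nat_lit 848) (nat_lit 73) (.e (nat_lit 761906) (nat_lit 16) (.e (nat_lit 172097) (nat_lit 9) (.e (nat_lit 426025) (nat_lit 0) (.e (nat_lit 3536) (nat_lit 218) .nil)))))))) (.g (nat_lit 1) (.e (nat_lit 443522) (nat_lit 0) .nil) .nil))))))) 
(.nd (nat_lit 6) (.nd (nat_lit 7) (.nd (nat_lit 8) (.nd (nat_lit 9) 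
(.lf (nat_lit 608291) (.g (nat_lit 2830) (.e (nat_lit 704589) (nat_lit 3) (.e (nat_lit 163976) (nat_lit 30) (.e (nat_lit 573491) (nat_lit 15) (.e (nat_lit 81954) (nat_lit 23) (.e (nat_lit 98356) (nat_lit 26) (.e (nat_lit 426360) (nat_lit 15) (.e (nat_lit 2056) (nat_lit 142) .nil))))))) (.g (nat_lit 1) (.e (nat_lit 440638) (nat_lit 0) .nil) .nil))) 
(.lf (nat_lit 608803) (.g (nat_lit 3197) (.e (nat_lit 704593) (nat_lit 4) (.e (nat_lit 172124) (nat_lit 14) (.e (nat_lit 491571) (nat_lit 13) (.e (nat_lit 393291) (nat_lit 26) (.e (nat_lit 475198) (nat_lit 40) .nil))))) (.g (nat_lit 0) (.e (nat_lit 441913) (nat_lit 0) .nil) .nil)))) (.nd (nat_lit 9) 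
(.lf (nat_lit 608547) (.g (nat_lit 3399) (.e (nat_lit 704589) (nat_lit 3) (.e (nat_lit 163979) (nat_lit 30) (.e (nat_lit 573491) (nat_lit 15) (.e (nat_lit 81954) (nat_lit 23) (.e (nat_lit 98356) (nat_lit 26) (.e (nat_lit 426375) (nat_lit 15) (.e (nat_lit 2056) (nat_lit 142) .nil))))))) (.g (nat_lit 1) (.e (nat_lit 441013) (nat_lit 0) .nil) .nil))) 
(.lf (nat_lit 609059) (.g (nat_lit 1360) (.e (nat_lit 704599) (nat_lit 6) (.e (nat_lit 188445) (nat_lit 21) (.e (nat_lit 164345) (nat_lit 240) (.e (nat_lit 2648) (nat_lit 166) (.e (nat_lit 188420) (nat_lit 0) .nil))))) (.g (nat_lit 0) (.e (nat_lit 442566) (nat_lit 0) .nil) .nil))))) (.nd (nat_lit 8) (.nd (nat_lit 9) 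
(.lf (nat_lit 608419) (.g (nat_lit 2071) (.e (nat_lit 704589) (nat_lit 3) (.e (nat_lit 163978) (nat_lit 30) (.e (nat_lit 573485) (nat_lit 13) (.e (nat_lit 65619) (nat_lit 10) (.e (nat_lit 344119) (nat_lit 21) .nil))))) (.g (nat_lit 0) (.e (nat_lit 440872) (nat_lit 0) .nil) .nil))) 
(.lf (nat_lit 608931) (.g (nat_lit 512) (.e (nat_lit 704598) (nat_lit 6) (.e (nat_lit 188440) (nat_lit 20) (.e (nat_lit 3409) (nat_lit 212) .nil))) (.g (nat_lit 0) (.e (nat_lit 442398) (nat_lit 0) .nil) .nil)))) (.nd (nat_lit 9) 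
(.lf (nat_lit 608675) (.g (nat_lit 3234) (.e (nat_lit 704589) (nat_lit 3) (.e (nat_lit 163979) (nat_lit 30) (.e (nat_lit 573493) (nat_lit 15) (.e (nat_lit 81956) (nat_lit 23) (.e (nat_lit 98356) (nat_lit 26) (.e (nat_lit 426360) (nat_lit 15) (.e (nat_lit 2044) (nat_lit 142) .nil))))))) (.g (nat_lit 1) (.e (nat_lit 441362) (nat_lit 0) .nil) .nil))) 
(.lf (nat_lit 609187) (.g (nat_lit 1347) (.e (nat_lit 704731) (nat_lit 11) (.e (nat_lit 16466) (nat_lit 13) (.e (nat_lit 483393) (nat_lit 23) (.e (nat_lit 335987) (nat_lit 1) .nil)))) (.g (nat_lit 0) (.e (nat_lit 443379) (nat_lit 0) .nil) .nil)))))) (.nd (nat_lit 7) (.nd (nat_lit 8) (.nd (nat_lit 9) 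
(.lf (nat_lit 608355) (.g (nat_lit 2630) (.e (nat_lit 704589) (nat_lit 3) (.e (nat_lit 163976) (nat_lit 30) (.e (nat_lit 573492) (nat_lit 15) (.e (nat_lit 81956) (nat_lit 23) (.e (nat_lit 98359) (nat_lit 26) (.e (nat_lit 426410) (nat_lit 15) (.e (nat_lit 2057) (nat_lit 142) .nil))))))) (.g (nat_lit 1) (.e (nat_lit 440795) (nat_lit 0) .nil) .nil))) 
(.lf (nat_lit 608867) (.g (nat_lit 1231) (.e (nat_lit 704597) (nat_lit 6) (.e (nat_lit 188446) (nat_lit 21) (.e (nat_lit 164348) (nat_lit 240) (.e (nat_lit 2648) (nat_lit 166) .nil)))) (.g (nat_lit 0) (.e (nat_lit 442284) (nat_lit 0) .nil) .nil)))) (.nd (nat_lit 9) 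
(.lf (nat_lit 608611) (.g (nat_lit 2699) (.e (nat_lit 704589) (nat_lit 3) (.e (nat_lit 163979) (nat_lit 30) (.e (nat_lit 573492) (nat_lit 15) (.e (nat_lit 81956) (nat_lit 23) (.e (nat_lit 98357) (nat_lit 26) .nil))))) (.g (nat_lit 0) (.e (nat_lit 441086) (nat_lit 0) .nil) .nil))) 
(.lf (nat_lit 609123) (.g (nat_lit 1889) (.e (nat_lit 704599) (nat_lit 6) (.e (nat_lit 188455) (nat_lit 24) (.e (nat_lit 229664) (nat_lit 240) (.e (nat_lit 2725) (nat_lit 172) (.e (nat_lit 237619) (nat_lit 12) .nil))))) (.g (nat_lit 0) (.e (nat_lit 442674) (nat_lit 0) .nil) .nil))))) (.nd (nat_lit 8) (.nd (nat_lit 9) 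
(.lf (nat_lit 608483) (.g (nat_lit 2193) (.e (nat_lit 704589) (nat_lit 3) (.e (nat_lit 163979) (nat_lit 30) (.e (nat_lit 573482) (nat_lit 13) (.e (nat_lit 65619) (nat_lit 10) (.e (nat_lit 344117) (nat_lit 21) (.e (nat_lit 516147) (nat_lit 9) (.e (nat_lit 426364) (nat_lit 15) (.e (nat_lit 2056) (nat_lit 142) .nil)))))))) (.g (nat_lit 1) (.e (nat_lit 440942) (nat_lit 0) .nil) .nil))) 
(.lf (nat_lit 608995) (.g (nat_lit 1574) (.e (nat_lit 704598) (nat_lit 6) (.e (nat_lit 188454) (nat_lit 24) (.e (nat_lit 229664) (nat_lit 240) (.e (nat_lit 2651) (nat_lit 166) (.e (nat_lit 188420) (nat_lit 0) (.e (nat_lit 2056) (nat_lit 142) .nil)))))) (.g (nat_lit 1) (.e (nat_lit 442488) (nat_lit 0) .nil) .nil)))) (.nd (nat_lit 9) 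
(.lf (nat_lit 608739) (.g (nat_lit 2700) (.e (nat_lit 704590) (nat_lit 3) (.e (nat_lit 163962) (nat_lit 25) (.e (nat_lit 532543) (nat_lit 10) (.e (nat_lit 344133) (nat_lit 26) (.e (nat_lit 557103) (nat_lit 14) (.e (nat_lit 188160) (nat_lit 3) (.e (nat_lit 516106) (nat_lit 0) (.e (nat_lit 7936) (nat_lit 218) .nil)))))))) (.g (nat_lit 1) (.e (nat_lit 441492) (nat_lit 0) .nil) .nil))) 
(.lf (nat_lit 609251) (.g (nat_lit 1155) (.e (nat_lit 704737) (nat_lit 11) (.e (nat_lit 16473) (nat_lit 14) (.e (nat_lit 491525) (nat_lit 0) (.e (nat_lit 2270) (nat_lit 149) .nil)))) (.g (nat_lit 0) (.e (nat_lit 443778) (nat_lit 0) .nil) .nil)))))))) (.nd (nat_lit 5) (.nd (nat_lit 6) (.nd (nat_lit 7) (.nd (nat_lit 8) (.nd (nat_lit 9) 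
(.lf (nat_lit 608275) (.g (nat_lit 3555) (.e (nat_lit 704589) (nat_lit 3) (.e (nat_lit 163976) (nat_lit 30) (.e (nat_lit 573484) (nat_lit 13) (.e (nat_lit 65610) (nat_lit 10) (.e (nat_lit 344117) (nat_lit 21) .nil))))) (.g (nat_lit 0) (.e (nat_lit 440620) (nat_lit 0) .nil) .nil))) 
(.lf (nat_lit 608787) (.g (nat_lit 2757) (.e (nat_lit 704592) (nat_lit 4) (.e (nat_lit 172126) (nat_lit 14) (.e (nat_lit 491569) (nat_lit 13) (.e (nat_lit 393290) (nat_lit 26) (.e (nat_lit 475199) (nat_lit 40) .nil))))) (.g (nat_lit 1) (.e (nat_lit 441727) (nat_lit 0) .nil) .nil)))) (.nd (nat_lit 9) 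
(.lf (nat_lit 608531) (.g (nat_lit 2270) (.e (nat_lit 704589) (nat_lit 3) (.e (nat_lit 163979) (nat_lit 30) (.e (nat_lit 573491) (nat_lit 15) (.e (nat_lit 81954) (nat_lit 23) (.e (nat_lit 98356) (nat_lit 26) (.e (nat_lit 426360) (nat_lit 15) (.e (nat_lit 2049) (nat_lit 142) .nil))))))) (.g (nat_lit 1) (.e (nat_lit 440997) (nat_lit 0) .nil) .nil))) 
(.lf (nat_lit 609043) (.g (nat_lit 672) (.e (nat_lit 704599) (nat_lit 6) (.e (nat_lit 188418) (nat_lit 0) (.e (nat_lit 2058) (nat_lit 142) (.e (nat_lit 704598) (nat_lit 6) .nil)))) (.g (nat_lit 0) (.e (nat_lit 442541) (nat_lit 0) .nil) .nil))))) (.nd (nat_lit 8) (.nd (nat_lit 9) 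
(.lf (nat_lit 608403) (.g (nat_lit 3014) (.e (nat_lit 704589) (nat_lit 3) (.e (nat_lit 163978) (nat_lit 30) (.e (nat_lit 573485) (nat_lit 13) (.e (nat_lit 65619) (nat_lit 10) (.e (nat_lit 344117) (nat_lit 21) (.e (nat_lit 516147) (nat_lit 9) (.e (nat_lit 426375) (nat_lit 15) (.e (nat_lit 2057) (nat_lit 142) .nil)))))))) (.g (nat_lit 1) (.e (nat_lit 440856) (nat_lit 0) .nil) .nil))) 
(.lf (nat_lit 608915) (.g (nat_lit 1970) (.e (nat_lit 704598) (nat_lit 6) (.e (nat_lit 188434) (nat_lit 20) (.e (nat_lit 3408) (nat_lit 212) (.e (nat_lit 655380) (nat_lit 6) (.e (nat_lit 188420) (nat_lit 0) (.e (nat_lit 2059) (nat_lit 142) .nil)))))) (.g (nat_lit 1) (.e (nat_lit 442382) (nat_lit 0) .nil) .nil)))) (.nd (nat_lit 9) 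
(.lf (nat_lit 608659) (.g (nat_lit 2586) (.e (nat_lit 704589) (nat_lit 3) (.e (nat_lit 163979) (nat_lit 30) (.e (nat_lit 573493) (nat_lit 15) (.e (nat_lit 81956) (nat_lit 23) (.e (nat_lit 98354) (nat_lit 26) .nil))))) (.g (nat_lit 0) (.e (nat_lit 441346) (nat_lit 0) .nil) .nil))) 
(.lf (nat_lit 609171) (.g (nat_lit 3192) (.e (nat_lit 704629) (nat_lit 9) (.e (nat_lit 375) (nat_lit 32) (.e (nat_lit 426135) (nat_lit 3) (.e (nat_lit 204868) (nat_lit 29) (.e (nat_lit 360473) (nat_lit 8) (.e (nat_lit 557094) (nat_lit 12) (.e (nat_lit 164022) (nat_lit 46) .nil))))))) (.g (nat_lit 1) (.e (nat_lit 443121) (nat_lit 0) .nil) .nil)))))) 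
(.nd (nat_lit 7) (.nd (nat_lit 8) (.nd (nat_lit 9) 
(.lf (nat_lit 608339) (.g (nat_lit 2690) (.e (nat_lit 704589) (nat_lit 3) (.e (nat_lit 163976) (nat_lit 30) (.e (nat_lit 573492) (nat_lit 15) (.e (nat_lit 81956) (nat_lit 23) (.e (nat_lit 98356) (nat_lit 26) (.e (nat_lit 426362) (nat_lit 15) (.e (nat_lit 2061) (nat_lit 142) .nil))))))) (.g (nat_lit 1) (.e (nat_lit 440779) (nat_lit 0) .nil) .nil))) 
(.lf (nat_lit 608851) (.g (nat_lit 450) (.e (nat_lit 704597) (nat_lit 6) (.e (nat_lit 188440) (nat_lit 20) (.e (nat_lit 3406) (nat_lit 212) .nil))) (.g (nat_lit 0) (.e (nat_lit 442249) (nat_lit 0) .nil) .nil)))) (.nd (nat_lit 9) 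
(.lf (nat_lit 608595) (.g (nat_lit 3092) (.e (nat_lit 704589) (nat_lit 3) (.e (nat_lit 163979) (nat_lit 30) (.e (nat_lit 573492) (nat_lit 15) (.e (nat_lit 81956) (nat_lit 23) (.e (nat_lit 98356) (nat_lit 26) (.e (nat_lit 426361) (nat_lit 15) (.e (nat_lit 2064) (nat_lit 142) .nil))))))) (.g (nat_lit 1) (.e (nat_lit 441070) (nat_lit 0) .nil) .nil))) 
(.lf (nat_lit 609107) (.g (nat_lit 2423) (.e (nat_lit 704599) (nat_lit 6) (.e (nat_lit 188455) (nat_lit 24) (.e (nat_lit 229663) (nat_lit 240) (.e (nat_lit 2450) (nat_lit 157) .nil)))) (.g (nat_lit 0) (.e (nat_lit 442646) (nat_lit 0) .nil) .nil))))) (.nd (nat_lit 8) (.nd (nat_lit 9) 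
(.lf (nat_lit 608467) (.g (nat_lit 2514) (.e (nat_lit 704589) (nat_lit 3) (.e (nat_lit 163979) (nat_lit 30) (.e (nat_lit 573482) (nat_lit 13) (.e (nat_lit 65619) (nat_lit 10) (.e (nat_lit 344117) (nat_lit 21) (.e (nat_lit 516144) (nat_lit 9) (.e (nat_lit 426374) (nat_lit 15) (.e (nat_lit 2057) (nat_lit 142) .nil)))))))) (.g (nat_lit 1) (.e (nat_lit 440926) (nat_lit 0) .nil) .nil))) 
(.lf (nat_lit 608979) (.g (nat_lit 1734) (.e (nat_lit 704598) (nat_lit 6) (.e (nat_lit 188453) (nat_lit 24) (.e (nat_lit 229665) (nat_lit 240) (.e (nat_lit 2653) (nat_lit 166) (.e (nat_lit 188418) (nat_lit 0) (.e (nat_lit 2056) (nat_lit 142) .nil)))))) (.g (nat_lit 1) (.e (nat_lit 442471) (nat_lit 0) .nil) .nil)))) (.nd (nat_lit 9) 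
(.lf (nat_lit 608723) (.g (nat_lit 3079) (.e (nat_lit 704589) (nat_lit 3) (.e (nat_lit 163979) (nat_lit 30) (.e (nat_lit 573493) (nat_lit 15) (.e (nat_lit 81956) (nat_lit 23) (.e (nat_lit 98363) (nat_lit 26) .nil))))) (.g (nat_lit 0) (.e (nat_lit 441410) (nat_lit 0) .nil) .nil))) 
(.lf (nat_lit 609235) (.g (nat_lit 1212) (.e (nat_lit 704737) (nat_lit 11) (.e (nat_lit 16416) (nat_lit 3) (.e (nat_lit 204866) (nat_lit 28) .nil))) (.g (nat_lit 0) (.e (nat_lit 443671) (nat_lit 0) .nil) .nil))))))) (.nd (nat_lit 6) (.nd (nat_lit 7) (.nd (nat_lit 8) (.nd (nat_lit 9) 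
(.lf (nat_lit 608307) (.g (nat_lit 2951) (.e (nat_lit 704589) (nat_lit 3) (.e (nat_lit 163976) (nat_lit 30) (.e (nat_lit 573491) (nat_lit 15) (.e (nat_lit 81954) (nat_lit 23) (.e (nat_lit 98356) (nat_lit 26) (.e (nat_lit 426420) (nat_lit 15) (.e (nat_lit 2056) (nat_lit 142) .nil))))))) (.g (nat_lit 1) (.e (nat_lit 440654) (nat_lit 0) .nil) .nil))) 
(.lf (nat_lit 608819) (.g (nat_lit 2899) (.e (nat_lit 704595) (nat_lit 5) (.e (nat_lit 180277) (nat_lit 32) (.e (nat_lit 1428) (nat_lit 108) (.e (nat_lit 336430) (nat_lit 29) (.e (nat_lit 442379) (nat_lit 0) (.e (nat_lit 2058) (nat_lit 142) .nil)))))) (.g (nat_lit 1) (.e (nat_lit 442125) (nat_lit 0) .nil) .nil)))) (.nd (nat_lit 9) 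
(.lf (nat_lit 608563) (.g (nat_lit 1873) (.e (nat_lit 704589) (nat_lit 3) (.e (nat_lit 163979) (nat_lit 30) (.e (nat_lit 573491) (nat_lit 15) (.e (nat_lit 81954) (nat_lit 23) (.e (nat_lit 98383) (nat_lit 32) .nil))))) (.g (nat_lit 0) (.e (nat_lit 441029) (nat_lit 0) .nil) .nil))) 
(.lf (nat_lit 609075) (.g (nat_lit 1622) (.e (nat_lit 704599) (nat_lit 6) (.e (nat_lit 188446) (nat_lit 21) (.e (nat_lit 164347) (nat_lit 240) (.e (nat_lit 2629) (nat_lit 164) (.e (nat_lit 172118) (nat_lit 12) .nil))))) (.g (nat_lit 0) (.e (nat_lit 442584) (nat_lit 0) .nil) .nil))))) (.nd (nat_lit 8) (.nd (nat_lit 9) 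
(.lf (nat_lit 608435) (.g (nat_lit 2939) (.e (nat_lit 704589) (nat_lit 3) (.e (nat_lit 163979) (nat_lit 30) (.e (nat_lit 573481) (nat_lit 13) (.e (nat_lit 65610) (nat_lit 10) (.e (nat_lit 344117) (nat_lit 21) (.e (nat_lit 516151) (nat_lit 9) (.e (nat_lit 426412) (nat_lit 15) (.e (nat_lit 2056) (nat_lit 142) .nil)))))))) (.g (nat_lit 1) (.e (nat_lit 440894) (nat_lit 0) .nil) .nil))) 
(.lf (nat_lit 608947) (.g (nat_lit 1257) (.e (nat_lit 704598) (nat_lit 6) (.e (nat_lit 188446) (nat_lit 21) (.e (nat_lit 164345) (nat_lit 240) (.e (nat_lit 2648) (nat_lit 166) (.e (nat_lit 188418) (nat_lit 0) .nil))))) (.g (nat_lit 0) (.e (nat_lit 442418) (nat_lit 0) .nil) .nil)))) (.nd (nat_lit 9) 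
(.lf (nat_lit 608691) (.g (nat_lit 4152) (.e (nat_lit 704589) (nat_lit 3) (.e (nat_lit 163979) (nat_lit 30) (.e (nat_lit 573493) (nat_lit 15) (.e (nat_lit 81956) (nat_lit 23) (.e (nat_lit 98356) (nat_lit 26) (.e (nat_lit 426363) (nat_lit 15) (.e (nat_lit 2063) (nat_lit 142) .nil))))))) (.g (nat_lit 1) (.e (nat_lit 441378) (nat_lit 0) .nil) .nil))) 
(.lf (nat_lit 609203) (.g (nat_lit 2132) (.e (nat_lit 704734) (nat_lit 11) (.e (nat_lit 16416) (nat_lit 3) (.e (nat_lit 204861) (nat_lit 26) (.e (nat_lit 336194) (nat_lit 12) (.e (nat_lit 385059) (nat_lit 22) .nil))))) (.g (nat_lit 0) (.e (nat_lit 443438) (nat_lit 0) .nil) .nil)))))) (.nd (nat_lit 7) (.nd (nat_lit 8) (.nd (nat_lit 9) 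
(.lf (nat_lit 608371) (.g (nat_lit 345) (.e (nat_lit 704589) (nat_lit 3) (.e (nat_lit 163978) (nat_lit 30) (.e (nat_lit 573485) (nat_lit 13) .nil))) (.g (nat_lit 0) (.e (nat_lit 440820) (nat_lit 0) .nil) .nil))) 
(.lf (nat_lit 608883) (.g (nat_lit 2445) (.e (nat_lit 704597) (nat_lit 6) (.e (nat_lit 188453) (nat_lit 24) (.e (nat_lit 229663) (nat_lit 240) (.e (nat_lit 2651) (nat_lit 166) (.e (nat_lit 188416) (nat_lit 0) .nil))))) (.g (nat_lit 0) (.e (nat_lit 442333) (nat_lit 0) .nil) .nil)))) (.nd (nat_lit 9) 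
(.lf (nat_lit 608627) (.g (nat_lit 4382) (.e (nat_lit 704589) (nat_lit 3) (.e (nat_lit 163979) (nat_lit 30) (.e (nat_lit 573493) (nat_lit 15) (.e (nat_lit 81951) (nat_lit 22) (.e (nat_lit 90170) (nat_lit 13) (.e (nat_lit 172138) (nat_lit 15) (.e (nat_lit 2056) (nat_lit 142) .nil))))))) (.g (nat_lit 1) (.e (nat_lit 441211) (nat_lit 0) .nil) .nil))) 
(.lf (nat_lit 609139) (.g (nat_lit 1711) (.e (nat_lit 704599) (nat_lit 6) (.e (nat_lit 188455) (nat_lit 24) (.e (nat_lit 229678) (nat_lit 244) (.e (nat_lit 163905) (nat_lit 12) .nil)))) (.g (nat_lit 0) (.e (nat_lit 442698) (nat_lit 0) .nil) .nil))))) (.nd (nat_lit 8) (.nd (nat_lit 9) 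
(.lf (nat_lit 608499) (.g (nat_lit 2210) (.e (nat_lit 704589) (nat_lit 3) (.e (nat_lit 163979) (nat_lit 30) (.e (nat_lit 573482) (nat_lit 13) (.e (nat_lit 65619) (nat_lit 10) (.e (nat_lit 344119) (nat_lit 21) .nil))))) (.g (nat_lit 0) (.e (nat_lit 440958) (nat_lit 0) .nil) .nil))) 
(.lf (nat_lit 609011) (.g (nat_lit 2904) (.e (nat_lit 704598) (nat_lit 6) (.e (nat_lit 188455) (nat_lit 24) (.e (nat_lit 229663) (nat_lit 240) (.e (nat_lit 2725) (nat_lit 172) (.e (nat_lit 237619) (nat_lit 12) .nil))))) (.g (nat_lit 0) (.e (nat_lit 442508) (nat_lit 0) .nil) .nil)))) (.nd (nat_lit 9) 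
(.lf (nat_lit 608755) (.g (nat_lit 3552) (.e (nat_lit 704590) (nat_lit 3) (.e (nat_lit 163975) (nat_lit 30) (.e (nat_lit 573491) (nat_lit 15) (.e (nat_lit 81954) (nat_lit 23) (.e (nat_lit 98384) (nat_lit 32) (.e (nat_lit 483072) (nat_lit 40) .nil)))))) (.g (nat_lit 1) (.e (nat_lit 441511) (nat_lit 0) .nil) .nil))) 
(.lf (nat_lit 609267) (.g (nat_lit 3293) (.e (nat_lit 704738) (nat_lit 11) (.e (nat_lit 16425) (nat_lit 7) (.e (nat_lit 409649) (nat_lit 18) (.e (nat_lit 303140) (nat_lit 10) (.e (nat_lit 434275) (nat_lit 39) (.e (nat_lit 663580) (nat_lit 9) (.e (nat_lit 2416) (nat_lit 157) (.e (nat_lit 3501) (nat_lit 218) .nil)))))))) (.g (nat_lit 1) (.e (nat_lit 443888) (nat_lit 0) .nil) .nil))))))))) 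
(.nd (nat_lit 4) (.nd (nat_lit 5) (.nd (nat_lit 6) (.nd (nat_lit 7) (.nd (nat_lit 8) 
(.nd (nat_lit 9) 
(.lf (nat_lit 608267) (.g (nat_lit 4976) (.e (nat_lit 704589) (nat_lit 3) (.e (nat_lit 163976) (nat_lit 30) (.e (nat_lit 573481) (nat_lit 13) (.e (nat_lit 65619) (nat_lit 10) (.e (nat_lit 344117) (nat_lit 21) (.e (nat_lit 516145) (nat_lit 9) (.e (nat_lit 426375) (nat_lit 15) (.e (nat_lit 2059) (nat_lit 142) .nil)))))))) (.g (nat_lit 1) (.e (nat_lit 440612) (nat_lit 0) .nil) .nil))) 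
(.lf (nat_lit 608779) (.g (nat_lit 446) (.e (nat_lit 704592) (nat_lit 4) (.e (nat_lit 172126) (nat_lit 14) (.e (nat_lit 491550) (nat_lit 9) .nil))) (.g (nat_lit 0) (.e (nat_lit 441695) (nat_lit 0) .nil) .nil)))) (.nd (nat_lit 9) 
(.lf (nat_lit 608523) (.g (nat_lit 2205) (.e (nat_lit 704589) (nat_lit 3) (.e (nat_lit 163979) (nat_lit 30) (.e (nat_lit 573491) (nat_lit 15) (.e (nat_lit 81954) (nat_lit 23) (.e (nat_lit 98355) (nat_lit 26) (.e (nat_lit 426393) (nat_lit 15) (.e (nat_lit 2056) (nat_lit 142) .nil))))))) (.g (nat_lit 1) (.e (nat_lit 440989) (nat_lit 0) .nil) .nil))) 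
(.lf (nat_lit 609035) (.g (nat_lit 2886) (.e (nat_lit 704598) (nat_lit 6) (.e (nat_lit 188455) (nat_lit 24) (.e (nat_lit 229678) (nat_lit 244) (.e (nat_lit 163931) (nat_lit 17) (.e (nat_lit 466947) (nat_lit 0) .nil))))) (.g (nat_lit 0) (.e (nat_lit 442533) (nat_lit 0) .nil) .nil))))) (.nd (nat_lit 8) (.nd (nat_lit 9) 
(.lf (nat_lit 608395) (.g (nat_lit 4632) (.e (nat_lit 704589) (nat_lit 3) (.e (nat_lit 163978) (nat_lit 30) (.e (nat_lit 573485) (nat_lit 13) (.e (nat_lit 65619) (nat_lit 10) (.e (nat_lit 344117) (nat_lit 21) (.e (nat_lit 516145) (nat_lit 9) (.e (nat_lit 426374) (nat_lit 15) (.e (nat_lit 2058) (nat_lit 142) .nil)))))))) (.g (nat_lit 1) (.e (nat_lit 440848) (nat_lit 0) .nil) .nil))) 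
(.lf (nat_lit 608907) (.g (nat_lit 1766) (.e (nat_lit 704598) (nat_lit 6) (.e (nat_lit 188427) (nat_lit 20) (.e (nat_lit 3402) (nat_lit 211) (.e (nat_lit 647185) (nat_lit 6) (.e (nat_lit 188420) (nat_lit 0) (.e (nat_lit 2059) (nat_lit 142) .nil)))))) (.g (nat_lit 1) (.e (nat_lit 442374) (nat_lit 0) .nil) .nil)))) (.nd (nat_lit 9) 
(.lf (nat_lit 608651) (.g (nat_lit 3288) (.e (nat_lit 704589) (nat_lit 3) (.e (nat_lit 163979) (nat_lit 30) (.e (nat_lit 573493) (nat_lit 15) (.e (nat_lit 81954) (nat_lit 23) (.e (nat_lit 98365) (nat_lit 26) .nil))))) (.g (nat_lit 0) (.e (nat_lit 441328) (nat_lit 0) .nil) .nil))) 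
(.lf (nat_lit 609163) (.g (nat_lit 3099) (.e (nat_lit 704628) (nat_lit 9) (.e (nat_lit 411) (nat_lit 32) (.e (nat_lit 426140) (nat_lit 3) (.e (nat_lit 204868) (nat_lit 29) (.e (nat_lit 360473) (nat_lit 8) (.e (nat_lit 557093) (nat_lit 12) (.e (nat_lit 164022) (nat_lit 46) .nil))))))) (.g (nat_lit 1) (.e (nat_lit 443081) (nat_lit 0) .nil) .nil)))))) 
(.nd (nat_lit 7) (.nd (nat_lit 8) (.nd (nat_lit 9) 
(.lf (nat_lit 608331) (.g (nat_lit 2120) (.e (nat_lit 704589) (nat_lit 3) (.e (nat_lit 163976) (nat_lit 30) (.e (nat_lit 573492) (nat_lit 15) (.e (nat_lit 81956) (nat_lit 23) (.e (nat_lit 98356) (nat_lit 26) .nil))))) (.g (nat_lit 0) (.e (nat_lit 440771) (nat_lit 0) .nil) .nil))) 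
(.lf (nat_lit 608843) (.g (nat_lit 956) (.e (nat_lit 704597) (nat_lit 6) (.e (nat_lit 188431) (nat_lit 20) (.e (nat_lit 3399) (nat_lit 211) (.e (nat_lit 647185) (nat_lit 6) (.e (nat_lit 188416) (nat_lit 0) .nil))))) (.g (nat_lit 0) (.e (nat_lit 442238) (nat_lit 0) .nil) .nil)))) (.nd (nat_lit 9) 
(.lf (nat_lit 608587) (.g (nat_lit 3677) (.e (nat_lit 704589) (nat_lit 3) (.e (nat_lit 163979) (nat_lit 30) (.e (nat_lit 573492) (nat_lit 15) (.e (nat_lit 81956) (nat_lit 23) (.e (nat_lit 98356) (nat_lit 26) (.e (nat_lit 426352) (nat_lit 15) (.e (nat_lit 7936) (nat_lit 142) .nil))))))) (.g (nat_lit 1) (.e (nat_lit 441062) (nat_lit 0) .nil) .nil))) 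
(.lf (nat_lit 609099) (.g (nat_lit 508) (.e (nat_lit 704599) (nat_lit 6) (.e (nat_lit 188453) (nat_lit 24) (.e (nat_lit 229678) (nat_lit 244) .nil))) (.g (nat_lit 0) (.e (nat_lit 442631) (nat_lit 0) .nil) .nil))))) (.nd (nat_lit 8) (.nd (nat_lit 9) 
(.lf (nat_lit 608459) (.g (nat_lit 1860) (.e (nat_lit 704589) (nat_lit 3) (.e (nat_lit 163979) (nat_lit 30) (.e (nat_lit 573482) (nat_lit 13) (.e (nat_lit 65616) (nat_lit 10) (.e (nat_lit 344118) (nat_lit 21) .nil))))) (.g (nat_lit 0) (.e (nat_lit 440918) (nat_lit 0) .nil) .nil))) 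
(.lf (nat_lit 608971) (.g (nat_lit 1565) (.e (nat_lit 704598) (nat_lit 6) (.e (nat_lit 188453) (nat_lit 24) (.e (nat_lit 229663) (nat_lit 240) (.e (nat_lit 2725) (nat_lit 172) .nil)))) (.g (nat_lit 0) (.e (nat_lit 442463) (nat_lit 0) .nil) .nil)))) (.nd (nat_lit 9) 
(.lf (nat_lit 608715) (.g (nat_lit 3252) (.e (nat_lit 704589) (nat_lit 3) (.e (nat_lit 163979) (nat_lit 30) (.e (nat_lit 573493) (nat_lit 15) (.e (nat_lit 81956) (nat_lit 23) (.e (nat_lit 98360) (nat_lit 26) (.e (nat_lit 426410) (nat_lit 15) (.e (nat_lit 2057) (nat_lit 142) .nil))))))) (.g (nat_lit 1) (.e (nat_lit 441402) (nat_lit 0) .nil) .nil))) 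
(.lf (nat_lit 609227) (.g (nat_lit 1342) (.e (nat_lit 704736) (nat_lit 11) (.e (nat_lit 16466) (nat_lit 13) (.e (nat_lit 483343) (nat_lit 17) (.e (nat_lit 6724) (nat_lit 362) .nil)))) (.g (nat_lit 0) (.e (nat_lit 443618) (nat_lit 0) .nil) .nil))))))) (.nd (nat_lit 6) (.nd (nat_lit 7) (.nd (nat_lit 8) (.nd (nat_lit 9) 
(.lf (nat_lit 608299) (.g (nat_lit 3007) (.e (nat_lit 704589) (nat_lit 3) (.e (nat_lit 163976) (nat_lit 30) (.e (nat_lit 573491) (nat_lit 15) (.e (nat_lit 81954) (nat_lit 23) (.e (nat_lit 98356) (nat_lit 26) (.e (nat_lit 426374) (nat_lit 15) (.e (nat_lit 2056) (nat_lit 142) .nil))))))) (.g (nat_lit 1) (.e (nat_lit 440646) (nat_lit 0) .nil) .nil))) 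
(.lf (nat_lit 608811) (.g (nat_lit 1173) (.e (nat_lit 704595) (nat_lit 5) (.e (nat_lit 180277) (nat_lit 32) (.e (nat_lit 1425) (nat_lit 108) (.e (nat_lit 336430) (nat_lit 29) (.e (nat_lit 442378) (nat_lit 0) .nil))))) (.g (nat_lit 0) (.e (nat_lit 442109) (nat_lit 0) .nil) .nil)))) (.nd (nat_lit 9) 
(.lf (nat_lit 608555) (.g (nat_lit 3522) (.e (nat_lit 704589) (nat_lit 3) (.e (nat_lit 163979) (nat_lit 30) (.e (nat_lit 573491) (nat_lit 15) (.e (nat_lit 81954) (nat_lit 23) (.e (nat_lit 98356) (nat_lit 26) (.e (nat_lit 426420) (nat_lit 15) (.e (nat_lit 2056) (nat_lit 142) .nil))))))) (.g (nat_lit 1) (.e (nat_lit 441021) (nat_lit 0) .nil) .nil))) 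
(.lf (nat_lit 609067) (.g (nat_lit 449) (.e (nat_lit 704599) (nat_lit 6) (.e (nat_lit 188446) (nat_lit 21) (.e (nat_lit 164345) (nat_lit 240) .nil))) (.g (nat_lit 0) (.e (nat_lit 442574) (nat_lit 0) .nil) .nil))))) (.nd (nat_lit 8) (.nd (nat_lit 9) 
(.lf (nat_lit 608427) (.g (nat_lit 3714) (.e (nat_lit 704589) (nat_lit 3) (.e (nat_lit 163978) (nat_lit 30) (.e (nat_lit 573491) (nat_lit 15) (.e (nat_lit 81947) (nat_lit 20) .nil)))) (.g (nat_lit 0) (.e (nat_lit 440881) (nat_lit 0) .nil) .nil))) 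
(.lf (nat_lit 608939) (.g (nat_lit 1919) (.e (nat_lit 704598) (nat_lit 6) (.e (nat_lit 188444) (nat_lit 21) (.e (nat_lit 164347) (nat_lit 240) (.e (nat_lit 2650) (nat_lit 166) (.e (nat_lit 188419) (nat_lit 0) (.e (nat_lit 2056) (nat_lit 142) .nil)))))) (.g (nat_lit 1) (.e (nat_lit 442409) (nat_lit 0) .nil) .nil)))) (.nd (nat_lit 9) 
(.lf (nat_lit 608683) (.g (nat_lit 4258) (.e (nat_lit 704589) (nat_lit 3) (.e (nat_lit 163979) (nat_lit 30) (.e (nat_lit 573493) (nat_lit 15) (.e (nat_lit 81956) (nat_lit 23) (.e (nat_lit 98356) (nat_lit 26) (.e (nat_lit 426361) (nat_lit 15) (.e (nat_lit 7936) (nat_lit 142) .nil))))))) (.g (nat_lit 1) (.e (nat_lit 441370) (nat_lit 0) .nil) .nil))) 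
(.lf (nat_lit 609195) (.g (nat_lit 1691) (.e (nat_lit 704732) (nat_lit 11) (.e (nat_lit 16416) (nat_lit 3) (.e (nat_lit 204861) (nat_lit 26) (.e (nat_lit 336194) (nat_lit 12) .nil)))) (.g (nat_lit 0) (.e (nat_lit 443402) (nat_lit 0) .nil) .nil)))))) (.nd (nat_lit 7) (.nd (nat_lit 8) (.nd (nat_lit 9) 
(.lf (nat_lit 608363) (.g (nat_lit 4131) (.e (nat_lit 704589) (nat_lit 3) (.e (nat_lit 163976) (nat_lit 30) (.e (nat_lit 573492) (nat_lit 15) (.e (nat_lit 81956) (nat_lit 23) (.e (nat_lit 98384) (nat_lit 32) (.e (nat_lit 483072) (nat_lit 40) .nil)))))) (.g (nat_lit 1) (.e (nat_lit 440803) (nat_lit 0) .nil) .nil))) 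
(.lf (nat_lit 608875) (.g (nat_lit 1441) (.e (nat_lit 704597) (nat_lit 6) (.e (nat_lit 188450) (nat_lit 23) (.e (nat_lit 204830) (nat_lit 18) (.e (nat_lit 57663) (nat_lit 152) .nil)))) (.g (nat_lit 0) (.e (nat_lit 442300) (nat_lit 0) .nil) .nil)))) (.nd (nat_lit 9) 
(.lf (nat_lit 608619) (.g (nat_lit 3575) (.e (nat_lit 704589) (nat_lit 3) (.e (nat_lit 163979) (nat_lit 30) (.e (nat_lit 573492) (nat_lit 15) (.e (nat_lit 81956) (nat_lit 23) (.e (nat_lit 98385) (nat_lit 32) (.e (nat_lit 475196) (nat_lit 40) .nil)))))) (.g (nat_lit 1) (.e (nat_lit 441094) (nat_lit 0) .nil) .nil))) 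
(.lf (nat_lit 609131) (.g (nat_lit 2140) (.e (nat_lit 704599) (nat_lit 6) (.e (nat_lit 188455) (nat_lit 24) (.e (nat_lit 229677) (nat_lit 244) (.e (nat_lit 163903) (nat_lit 12) (.e (nat_lit 426320) (nat_lit 12) .nil))))) (.g (nat_lit 0) (.e (nat_lit 442687) (nat_lit 0) .nil) .nil))))) (.nd (nat_lit 8) (.nd (nat_lit 9) 
(.lf (nat_lit 608491) (.g (nat_lit 5128) (.e (nat_lit 704589) (nat_lit 3) (.e (nat_lit 163979) (nat_lit 30) (.e (nat_lit 573482) (nat_lit 13) (.e (nat_lit 65619) (nat_lit 10) (.e (nat_lit 344117) (nat_lit 21) (.e (nat_lit 516151) (nat_lit 9) (.e (nat_lit 426414) (nat_lit 15) (.e (nat_lit 2058) (nat_lit 142) .nil)))))))) (.g (nat_lit 1) (.e (nat_lit 440950) (nat_lit 0) .nil) .nil))) 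
(.lf (nat_lit 609003) (.g (nat_lit 2073) (.e (nat_lit 704598) (nat_lit 6) (.e (nat_lit 188455) (nat_lit 24) (.e (nat_lit 229663) (nat_lit 240) (.e (nat_lit 2621) (nat_lit 164) .nil)))) (.g (nat_lit 0) (.e (nat_lit 442500) (nat_lit 0) .nil) .nil)))) (.nd (nat_lit 9) 
(.lf (nat_lit 608747) (.g (nat_lit 3320) (.e (nat_lit 704590) (nat_lit 3) (.e (nat_lit 163962) (nat_lit 25) (.e (nat_lit 532544) (nat_lit 10) (.e (nat_lit 344133) (nat_lit 26) (.e (nat_lit 557105) (nat_lit 14) (.e (nat_lit 188160) (nat_lit 3) (.e (nat_lit 516106) (nat_lit 0) (.e (nat_lit 7936) (nat_lit 218) .nil)))))))) (.g (nat_lit 1) (.e (nat_lit 441500) (nat_lit 0) .nil) .nil))) 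
(.lf (nat_lit 609259) (.g (nat_lit 353) (.e (nat_lit 704738) (nat_lit 11) (.e (nat_lit 16425) (nat_lit 7) (.e (nat_lit 409608) (nat_lit 10) .nil))) (.g (nat_lit 0) (.e (nat_lit 443845) (nat_lit 0) .nil) .nil)))))))) (.nd (nat_lit 5) (.nd (nat_lit 6) (.nd (nat_lit 7) (.nd (nat_lit 8) (.nd (nat_lit 9) 
(.lf (nat_lit 608283) (.g (nat_lit 1977) (.e (nat_lit 704589) (nat_lit 3) (.e (nat_lit 163976) (nat_lit 30) (.e (nat_lit 573491) (nat_lit 15) (.e (nat_lit 81954) (nat_lit 23) (.e (nat_lit 98355) (nat_lit 26) (.e (nat_lit 426375) (nat_lit 15) (.e (nat_lit 2057) (nat_lit 142) .nil))))))) (.g (nat_lit 1) (.e (nat_lit 440630) (nat_lit 0) .nil) .nil))) 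
(.lf (nat_lit 608795) (.g (nat_lit 1257) (.e (nat_lit 704593) (nat_lit 4) (.e (nat_lit 172094) (nat_lit 9) (.e (nat_lit 426025) (nat_lit 0) (.e (nat_lit 3399) (nat_lit 211) .nil)))) (.g (nat_lit 0) (.e (nat_lit 441868) (nat_lit 0) .nil) .nil)))) (.nd (nat_lit 9) 
(.lf (nat_lit 608539) (.g (nat_lit 3242) (.e (nat_lit 704589) (nat_lit 3) (.e (nat_lit 163979) (nat_lit 30) (.e (nat_lit 573491) (nat_lit 15) (.e (nat_lit 81954) (nat_lit 23) (.e (nat_lit 98356) (nat_lit 26) (.e (nat_lit 426361) (nat_lit 15) (.e (nat_lit 7936) (nat_lit 142) .nil))))))) (.g (nat_lit 1) (.e (nat_lit 441005) (nat_lit 0) .nil) .nil))) 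
(.lf (nat_lit 609051) (.g (nat_lit 1307) (.e (nat_lit 704599) (nat_lit 6) (.e (nat_lit 188441) (nat_lit 20) (.e (nat_lit 3406) (nat_lit 212) (.e (nat_lit 655378) (nat_lit 4) (.e (nat_lit 172120) (nat_lit 12) .nil))))) (.g (nat_lit 0) (.e (nat_lit 442555) (nat_lit 0) .nil) .nil))))) (.nd (nat_lit 8) (.nd (nat_lit 9) 
(.lf (nat_lit 608411) (.g (nat_lit 5078) (.e (nat_lit 704589) (nat_lit 3) (.e (nat_lit 163978) (nat_lit 30) (.e (nat_lit 573485) (nat_lit 13) (.e (nat_lit 65619) (nat_lit 10) (.e (nat_lit 344117) (nat_lit 21) (.e (nat_lit 516151) (nat_lit 9) (.e (nat_lit 426414) (nat_lit 15) (.e (nat_lit 2058) (nat_lit 142) .nil)))))))) (.g (nat_lit 1) (.e (nat_lit 440864) (nat_lit 0) .nil) .nil))) 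
(.lf (nat_lit 608923) (.g (nat_lit 1108) (.e (nat_lit 704598) (nat_lit 6) (.e (nat_lit 188434) (nat_lit 20) (.e (nat_lit 3409) (nat_lit 212) (.e (nat_lit 655380) (nat_lit 6) (.e (nat_lit 188418) (nat_lit 0) (.e (nat_lit 2056) (nat_lit 142) .nil)))))) (.g (nat_lit 1) (.e (nat_lit 442390) (nat_lit 0) .nil) .nil)))) (.nd (nat_lit 9) 
(.lf (nat_lit 608667) (.g (nat_lit 3440) (.e (nat_lit 704589) (nat_lit 3) (.e (nat_lit 163979) (nat_lit 30) (.e (nat_lit 573493) (nat_lit 15) (.e (nat_lit 81956) (nat_lit 23) (.e (nat_lit 98355) (nat_lit 26) (.e (nat_lit 426405) (nat_lit 15) (.e (nat_lit 2059) (nat_lit 142) .nil))))))) (.g (nat_lit 1) (.e (nat_lit 441354) (nat_lit 0) .nil) .nil))) 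
(.lf (nat_lit 609179) (.g (nat_lit 4188) (.e (nat_lit 704719) (nat_lit 10) (.e (nat_lit 8234) (nat_lit 20) (.e (nat_lit 573489) (nat_lit 14) (.e (nat_lit 73755) (nat_lit 8) (.e (nat_lit 557104) (nat_lit 14) (.e (nat_lit 188160) (nat_lit 3) (.e (nat_lit 516106) (nat_lit 0) (.e (nat_lit 7936) (nat_lit 218) .nil)))))))) (.g (nat_lit 1) (.e (nat_lit 443348) (nat_lit 0) .nil) .nil)))))) 
(.nd (nat_lit 7) (.nd (nat_lit 8) (.nd (nat_lit 9) 
(.lf (nat_lit 608347) (.g (nat_lit 3875) (.e (nat_lit 704589) (nat_lit 3) (.e (nat_lit 163976) (nat_lit 30) (.e (nat_lit 573492) (nat_lit 15) (.e (nat_lit 81956) (nat_lit 23) (.e (nat_lit 98356) (nat_lit 26) (.e (nat_lit 426376) (nat_lit 15) (.e (nat_lit 2056) (nat_lit 142) .nil))))))) (.g (nat_lit 1) (.e (nat_lit 440787) (nat_lit 0) .nil) .nil))) 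
(.lf (nat_lit 608859) (.g (nat_lit 1052) (.e (nat_lit 704597) (nat_lit 6) (.e (nat_lit 188444) (nat_lit 21) (.e (nat_lit 164348) (nat_lit 240) (.e (nat_lit 2650) (nat_lit 166) .nil)))) (.g (nat_lit 0) (.e (nat_lit 442271) (nat_lit 0) .nil) .nil)))) (.nd (nat_lit 9) 
(.lf (nat_lit 608603) (.g (nat_lit 4665) (.e (nat_lit 704589) (nat_lit 3) (.e (nat_lit 163979) (nat_lit 30) (.e (nat_lit 573492) (nat_lit 15) (.e (nat_lit 81956) (nat_lit 23) (.e (nat_lit 98356) (nat_lit 26) (.e (nat_lit 426374) (nat_lit 15) (.e (nat_lit 2058) (nat_lit 142) .nil))))))) (.g (nat_lit 1) (.e (nat_lit 441078) (nat_lit 0) .nil) .nil))) 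
(.lf (nat_lit 609115) (.g (nat_lit 2945) (.e (nat_lit 704599) (nat_lit 6) (.e (nat_lit 188455) (nat_lit 24) (.e (nat_lit 229663) (nat_lit 240) (.e (nat_lit 2651) (nat_lit 166) (.e (nat_lit 188420) (nat_lit 0) (.e (nat_lit 2056) (nat_lit 142) .nil)))))) (.g (nat_lit 1) (.e (nat_lit 442658) (nat_lit 0) .nil) .nil))))) (.nd (nat_lit 8) (.nd (nat_lit 9) 
(.lf (nat_lit 608475) (.g (nat_lit 3283) (.e (nat_lit 704589) (nat_lit 3) (.e (nat_lit 163979) (nat_lit 30) (.e (nat_lit 573482) (nat_lit 13) (.e (nat_lit 65619) (nat_lit 10) (.e (nat_lit 344117) (nat_lit 21) (.e (nat_lit 516144) (nat_lit 9) (.e (nat_lit 426420) (nat_lit 15) (.e (nat_lit 2057) (nat_lit 142) .nil)))))))) (.g (nat_lit 1) (.e (nat_lit 440934) (nat_lit 0) .nil) .nil))) 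
(.lf (nat_lit 608987) (.g (nat_lit 1111) (.e (nat_lit 704598) (nat_lit 6) (.e (nat_lit 188453) (nat_lit 24) (.e (nat_lit 229680) (nat_lit 244) (.e (nat_lit 163900) (nat_lit 12) .nil)))) (.g (nat_lit 0) (.e (nat_lit 442480) (nat_lit 0) .nil) .nil)))) (.nd (nat_lit 9) 
(.lf (nat_lit 608731) (.g (nat_lit 4177) (.e (nat_lit 704589) (nat_lit 3) (.e (nat_lit 163979) (nat_lit 30) (.e (nat_lit 573493) (nat_lit 15) (.e (nat_lit 81956) (nat_lit 23) (.e (nat_lit 98385) (nat_lit 32) (.e (nat_lit 475195) (nat_lit 40) .nil)))))) (.g (nat_lit 1) (.e (nat_lit 441418) (nat_lit 0) .nil) .nil))) 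
(.lf (nat_lit 609243) (.g (nat_lit 2385) (.e (nat_lit 704737) (nat_lit 11) (.e (nat_lit 16463) (nat_lit 13) (.e (nat_lit 483410) (nat_lit 27) (.e (nat_lit 401448) (nat_lit 10) (.e (nat_lit 434291) (nat_lit 44) .nil))))) (.g (nat_lit 0) (.e (nat_lit 443759) (nat_lit 0) .nil) .nil))))))) (.nd (nat_lit 6) (.nd (nat_lit 7) (.nd (nat_lit 8) (.nd (nat_lit 9) 
(.lf (nat_lit 608315) (.g (nat_lit 3140) (.e (nat_lit 704589) (nat_lit 3) (.e (nat_lit 163976) (nat_lit 30) (.e (nat_lit 573492) (nat_lit 15) (.e (nat_lit 81953) (nat_lit 22) (.e (nat_lit 90166) (nat_lit 13) (.e (nat_lit 172138) (nat_lit 15) (.e (nat_lit 2058) (nat_lit 142) .nil))))))) (.g (nat_lit 1) (.e (nat_lit 440738) (nat_lit 0) .nil) .nil))) 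
(.lf (nat_lit 608827) (.g (nat_lit 1640) (.e (nat_lit 704595) (nat_lit 5) (.e (nat_lit 180278) (nat_lit 32) (.e (nat_lit 1428) (nat_lit 108) (.e (nat_lit 336430) (nat_lit 29) (.e (nat_lit 442378) (nat_lit 0) (.e (nat_lit 2057) (nat_lit 142) .nil)))))) (.g (nat_lit 1) (.e (nat_lit 442159) (nat_lit 0) .nil) .nil)))) (.nd (nat_lit 9) 
(.lf (nat_lit 608571) (.g (nat_lit 1367) (.e (nat_lit 704589) (nat_lit 3) (.e (nat_lit 163979) (nat_lit 30) (.e (nat_lit 573491) (nat_lit 15) (.e (nat_lit 89856) (nat_lit 23) .nil)))) (.g (nat_lit 0) (.e (nat_lit 441037) (nat_lit 0) .nil) .nil))) 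
(.lf (nat_lit 609083) (.g (nat_lit 2678) (.e (nat_lit 704599) (nat_lit 6) (.e (nat_lit 188449) (nat_lit 22) (.e (nat_lit 204544) (nat_lit 2) (.e (nat_lit 24665) (nat_lit 14) (.e (nat_lit 401414) (nat_lit 0) (.e (nat_lit 7936) (nat_lit 218) .nil)))))) (.g (nat_lit 1) (.e (nat_lit 442594) (nat_lit 0) .nil) .nil))))) (.nd (nat_lit 8) (.nd (nat_lit 9) 
(.lf (nat_lit 608443) (.g (nat_lit 3086) (.e (nat_lit 704589) (nat_lit 3) (.e (nat_lit 163979) (nat_lit 30) (.e (nat_lit 573482) (nat_lit 13) (.e (nat_lit 65604) (nat_lit 9) (.e (nat_lit 336013) (nat_lit 2) (.e (nat_lit 90134) (nat_lit 9) (.e (nat_lit 3071) (nat_lit 190) (.e (nat_lit 475196) (nat_lit 40) .nil)))))))) (.g (nat_lit 1) (.e (nat_lit 440902) (nat_lit 0) .nil) .nil))) 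
(.lf (nat_lit 608955) (.g (nat_lit 2584) (.e (nat_lit 704598) (nat_lit 6) (.e (nat_lit 188446) (nat_lit 21) (.e (nat_lit 164348) (nat_lit 240) (.e (nat_lit 2648) (nat_lit 166) (.e (nat_lit 188418) (nat_lit 0) (.e (nat_lit 2058) (nat_lit 142) .nil)))))) (.g (nat_lit 1) (.e (nat_lit 442432) (nat_lit 0) .nil) .nil)))) (.nd (nat_lit 9) 
(.lf (nat_lit 608699) (.g (nat_lit 4540) (.e (nat_lit 704589) (nat_lit 3) (.e (nat_lit 163979) (nat_lit 30) (.e (nat_lit 573493) (nat_lit 15) (.e (nat_lit 81956) (nat_lit 23) (.e (nat_lit 98356) (nat_lit 26) (.e (nat_lit 426393) (nat_lit 15) (.e (nat_lit 2057) (nat_lit 142) .nil))))))) (.g (nat_lit 1) (.e (nat_lit 441386) (nat_lit 0) .nil) .nil))) 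
(.lf (nat_lit 609211) (.g (nat_lit 398) (.e (nat_lit 704734) (nat_lit 11) (.e (nat_lit 16466) (nat_lit 13) (.e (nat_lit 483413) (nat_lit 27) .nil))) (.g (nat_lit 0) (.e (nat_lit 443457) (nat_lit 0) .nil) .nil)))))) (.nd (nat_lit 7) (.nd (nat_lit 8) (.nd (nat_lit 9) 
(.lf (nat_lit 608379) (.g (nat_lit 2354) (.e (nat_lit 704589) (nat_lit 3) (.e (nat_lit 163978) (nat_lit 30) (.e (nat_lit 573485) (nat_lit 13) (.e (nat_lit 65604) (nat_lit 9) (.e (nat_lit 336028) (nat_lit 3) (.e (nat_lit 98362) (nat_lit 26) (.e (nat_lit 426412) (nat_lit 15) (.e (nat_lit 2058) (nat_lit 142) .nil)))))))) (.g (nat_lit 1) (.e (nat_lit 440829) (nat_lit 0) .nil) .nil))) 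
(.lf (nat_lit 608891) (.g (nat_lit 2824) (.e (nat_lit 704597) (nat_lit 6) (.e (nat_lit 188455) (nat_lit 24) (.e (nat_lit 229663) (nat_lit 240) (.e (nat_lit 2651) (nat_lit 166) (.e (nat_lit 188417) (nat_lit 0) (.e (nat_lit 2148) (nat_lit 142) .nil)))))) (.g (nat_lit 1) (.e (nat_lit 442349) (nat_lit 0) .nil) .nil)))) (.nd (nat_lit 9) 
(.lf (nat_lit 608635) (.g (nat_lit 3825) (.e (nat_lit 704589) (nat_lit 3) (.e (nat_lit 163979) (nat_lit 30) (.e (nat_lit 573493) (nat_lit 15) (.e (nat_lit 81953) (nat_lit 22) (.e (nat_lit 90169) (nat_lit 13) (.e (nat_lit 172133) (nat_lit 15) (.e (nat_lit 2058) (nat_lit 142) .nil))))))) (.g (nat_lit 1) (.e (nat_lit 441304) (nat_lit 0) .nil) .nil))) 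
(.lf (nat_lit 609147) (.g (nat_lit 1453) (.e (nat_lit 704599) (nat_lit 6) (.e (nat_lit 188455) (nat_lit 24) (.e (nat_lit 229680) (nat_lit 244) (.e (nat_lit 163900) (nat_lit 12) (.e (nat_lit 426317) (nat_lit 12) .nil))))) (.g (nat_lit 0) (.e (nat_lit 442708) (nat_lit 0) .nil) .nil))))) (.nd (nat_lit 8) (.nd (nat_lit 9) 
(.lf (nat_lit 608507) (.g (nat_lit 1524) (.e (nat_lit 704589) (nat_lit 3) (.e (nat_lit 163979) (nat_lit 30) (.e (nat_lit 573491) (nat_lit 15) (.e (nat_lit 81942) (nat_lit 20) .nil)))) (.g (nat_lit 0) (.e (nat_lit 440967) (nat_lit 0) .nil) .nil))) 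
(.lf (nat_lit 609019) (.g (nat_lit 1909) (.e (nat_lit 704598) (nat_lit 6) (.e (nat_lit 188455) (nat_lit 24) (.e (nat_lit 229665) (nat_lit 240) (.e (nat_lit 2653) (nat_lit 166) (.e (nat_lit 188418) (nat_lit 0) (.e (nat_lit 2057) (nat_lit 142) .nil)))))) (.g (nat_lit 1) (.e (nat_lit 442516) (nat_lit 0) .nil) .nil)))) (.nd (nat_lit 9) 
(.lf (nat_lit 608763) (.g (nat_lit 812) (.e (nat_lit 712448) (nat_lit 3) (.e (nat_lit 163977) (nat_lit 30) (.e (nat_lit 573491) (nat_lit 15) (.e (nat_lit 81954) (nat_lit 23) .nil)))) (.g (nat_lit 0) (.e (nat_lit 441590) (nat_lit 0) .nil) .nil))) 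
(.lf (nat_lit 609275) (.g (nat_lit 3682) (.e (nat_lit 704738) (nat_lit 11) (.e (nat_lit 16447) (nat_lit 10) (.e (nat_lit 434212) (nat_lit 18) (.e (nat_lit 6425) (nat_lit 342) (.e (nat_lit 229415) (nat_lit 15) (.e (nat_lit 450603) (nat_lit 22) .nil)))))) (.g (nat_lit 1) (.e (nat_lit 443937) (nat_lit 0) .nil) .nil)))))))))) 
(.nd (nat_lit 3) (.nd (nat_lit 4) (.nd (nat_lit 5) (.nd (nat_lit 6) (.nd (nat_lit 7) 
(.nd (nat_lit 8) (.nd (nat_lit 9) 
(.lf (nat_lit 608263) (.g (nat_lit 3137) (.e (nat_lit 704589) (nat_lit 3) (.e (nat_lit 163976) (nat_lit 30) (.e (nat_lit 573481) (nat_lit 13) (.e (nat_lit 65619) (nat_lit 10) (.e (nat_lit 344117) (nat_lit 21) (.e (nat_lit 516144) (nat_lit 9) (.e (nat_lit 426405) (nat_lit 15) (.e (nat_lit 2059) (nat_lit 142) .nil)))))))) (.g (nat_lit 1) (.e (nat_lit 440608) (nat_lit 0) .nil) .nil))) 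
(.lf (nat_lit 608775) (.g (nat_lit 2158) (.e (nat_lit 704592) (nat_lit 4) (.e (nat_lit 172126) (nat_lit 14) (.e (nat_lit 491549) (nat_lit 9) (.e (nat_lit 336400) (nat_lit 27) .nil)))) (.g (nat_lit 0) (.e (nat_lit 441687) (nat_lit 0) .nil) .nil)))) (.nd (nat_lit 9) 
(.lf (nat_lit 608519) (.g (nat_lit 2281) (.e (nat_lit 704589) (nat_lit 3) (.e (nat_lit 163979) (nat_lit 30) (.e (nat_lit 573491) (nat_lit 15) (.e (nat_lit 81954) (nat_lit 23) (.e (nat_lit 98355) (nat_lit 26) (.e (nat_lit 426375) (nat_lit 15) (.e (nat_lit 2056) (nat_lit 142) .nil))))))) (.g (nat_lit 1) (.e (nat_lit 440985) (nat_lit 0) .nil) .nil))) 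
(.lf (nat_lit 609031) (.g (nat_lit 1661) (.e (nat_lit 704598) (nat_lit 6) (.e (nat_lit 188455) (nat_lit 24) (.e (nat_lit 229678) (nat_lit 244) (.e (nat_lit 163913) (nat_lit 12) .nil)))) (.g (nat_lit 0) (.e (nat_lit 442529) (nat_lit 0) .nil) .nil))))) (.nd (nat_lit 8) (.nd (nat_lit 9) 
(.lf (nat_lit 608391) (.g (nat_lit 3169) (.e (nat_lit 704589) (nat_lit 3) (.e (nat_lit 163978) (nat_lit 30) (.e (nat_lit 573485) (nat_lit 13) (.e (nat_lit 65619) (nat_lit 10) (.e (nat_lit 344117) (nat_lit 21) (.e (nat_lit 516144) (nat_lit 9) (.e (nat_lit 426420) (nat_lit 15) (.e (nat_lit 2057) (nat_lit 142) .nil)))))))) (.g (nat_lit 1) (.e (nat_lit 440844) (nat_lit 0) .nil) .nil))) 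
(.lf (nat_lit 608903) (.g (nat_lit 2376) (.e (nat_lit 704598) (nat_lit 6) (.e (nat_lit 188427) (nat_lit 20) (.e (nat_lit 3402) (nat_lit 211) (.e (nat_lit 647183) (nat_lit 4) (.e (nat_lit 172120) (nat_lit 12) (.e (nat_lit 475199) (nat_lit 40) .nil)))))) (.g (nat_lit 1) (.e (nat_lit 442370) (nat_lit 0) .nil) .nil)))) (.nd (nat_lit 9) 
(.lf (nat_lit 608647) (.g (nat_lit 3246) (.e (nat_lit 704589) (nat_lit 3) (.e (nat_lit 163979) (nat_lit 30) (.e (nat_lit 573493) (nat_lit 15) (.e (nat_lit 81954) (nat_lit 23) (.e (nat_lit 98362) (nat_lit 26) .nil))))) (.g (nat_lit 0) (.e (nat_lit 441324) (nat_lit 0) .nil) .nil))) 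
(.lf (nat_lit 609159) (.g (nat_lit 4022) (.e (nat_lit 704628) (nat_lit 9) (.e (nat_lit 375) (nat_lit 32) (.e (nat_lit 426125) (nat_lit 2) (.e (nat_lit 196666) (nat_lit 13) (.e (nat_lit 65610) (nat_lit 10) (.e (nat_lit 344128) (nat_lit 26) (.e (nat_lit 557094) (nat_lit 12) (.e (nat_lit 164022) (nat_lit 46) .nil)))))))) (.g (nat_lit 1) (.e (nat_lit 443065) (nat_lit 0) .nil) .nil)))))) 
(.nd (nat_lit 7) (.nd (nat_lit 8) (.nd (nat_lit 9) 
(.lf (nat_lit 608327) (.g (nat_lit 2698) (.e (nat_lit 704589) (nat_lit 3) (.e (nat_lit 163976) (nat_lit 30) (.e (nat_lit 573492) (nat_lit 15) (.e (nat_lit 81956) (nat_lit 23) (.e (nat_lit 98355) (nat_lit 26) (.e (nat_lit 426405) (nat_lit 15) (.e (nat_lit 2059) (nat_lit 142) .nil))))))) (.g (nat_lit 1) (.e (nat_lit 440767) (nat_lit 0) .nil) .nil))) 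
(.lf (nat_lit 608839) (.g (nat_lit 2008) (.e (nat_lit 704596) (nat_lit 5) (.e (nat_lit 180277) (nat_lit 32) (.e (nat_lit 1660) (nat_lit 115) (.e (nat_lit 393271) (nat_lit 23) (.e (nat_lit 426402) (nat_lit 15) .nil))))) (.g (nat_lit 0) (.e (nat_lit 442215) (nat_lit 0) .nil) .nil)))) (.nd (nat_lit 9) 
(.lf (nat_lit 608583) (.g (nat_lit 2800) (.e (nat_lit 704589) (nat_lit 3) (.e (nat_lit 163979) (nat_lit 30) (.e (nat_lit 573492) (nat_lit 15) (.e (nat_lit 81956) (nat_lit 23) (.e (nat_lit 98355) (nat_lit 26) (.e (nat_lit 426420) (nat_lit 15) (.e (nat_lit 2056) (nat_lit 142) .nil))))))) (.g (nat_lit 1) (.e (nat_lit 441058) (nat_lit 0) .nil) .nil))) 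
(.lf (nat_lit 609095) (.g (nat_lit 976) (.e (nat_lit 704599) (nat_lit 6) (.e (nat_lit 188453) (nat_lit 24) (.e (nat_lit 229665) (nat_lit 240) (.e (nat_lit 2725) (nat_lit 172) .nil)))) (.g (nat_lit 0) (.e (nat_lit 442626) (nat_lit 0) .nil) .nil))))) (.nd (nat_lit 8) (.nd (nat_lit 9) 
(.lf (nat_lit 608455) (.g (nat_lit 5064) (.e (nat_lit 704589) (nat_lit 3) (.e (nat_lit 163979) (nat_lit 30) (.e (nat_lit 573482) (nat_lit 13) (.e (nat_lit 65610) (nat_lit 10) (.e (nat_lit 344117) (nat_lit 21) (.e (nat_lit 516151) (nat_lit 9) (.e (nat_lit 426412) (nat_lit 15) (.e (nat_lit 2057) (nat_lit 142) .nil)))))))) (.g (nat_lit 1) (.e (nat_lit 440914) (nat_lit 0) .nil) .nil))) 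
(.lf (nat_lit 608967) (.g (nat_lit 1826) (.e (nat_lit 704598) (nat_lit 6) (.e (nat_lit 188452) (nat_lit 23) (.e (nat_lit 204830) (nat_lit 18) (.e (nat_lit 57663) (nat_lit 152) .nil)))) (.g (nat_lit 0) (.e (nat_lit 442454) (nat_lit 0) .nil) .nil)))) (.nd (nat_lit 9) 
(.lf (nat_lit 608711) (.g (nat_lit 2580) (.e (nat_lit 704589) (nat_lit 3) (.e (nat_lit 163979) (nat_lit 30) (.e (nat_lit 573493) (nat_lit 15) (.e (nat_lit 81956) (nat_lit 23) (.e (nat_lit 98359) (nat_lit 26) (.e (nat_lit 426396) (nat_lit 15) (.e (nat_lit 2057) (nat_lit 142) .nil))))))) (.g (nat_lit 1) (.e (nat_lit 441398) (nat_lit 0) .nil) .nil))) 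
(.lf (nat_lit 609223) (.g (nat_lit 1718) (.e (nat_lit 704736) (nat_lit 11) (.e (nat_lit 16436) (nat_lit 9) (.e (nat_lit 426555) (nat_lit 32) (.e (nat_lit 376860) (nat_lit 21) .nil)))) (.g (nat_lit 0) (.e (nat_lit 443531) (nat_lit 0) .nil) .nil))))))) (.nd (nat_lit 6) (.nd (nat_lit 7) (.nd (nat_lit 8) (.nd (nat_lit 9) 
(.lf (nat_lit 608295) (.g (nat_lit 2620) (.e (nat_lit 704589) (nat_lit 3) (.e (nat_lit 163976) (nat_lit 30) (.e (nat_lit 573491) (nat_lit 15) (.e (nat_lit 81954) (nat_lit 23) (.e (nat_lit 98356) (nat_lit 26) (.e (nat_lit 426364) (nat_lit 15) (.e (nat_lit 2056) (nat_lit 142) .nil))))))) (.g (nat_lit 1) (.e (nat_lit 440642) (nat_lit 0) .nil) .nil))) 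
(.lf (nat_lit 608807) (.g (nat_lit 1671) (.e (nat_lit 704595) (nat_lit 5) (.e (nat_lit 180271) (nat_lit 26) (.e (nat_lit 704629) (nat_lit 9) (.e (nat_lit 442) (nat_lit 33) .nil)))) (.g (nat_lit 0) (.e (nat_lit 442105) (nat_lit 0) .nil) .nil)))) (.nd (nat_lit 9) 
(.lf (nat_lit 608551) (.g (nat_lit 3744) (.e (nat_lit 704589) (nat_lit 3) (.e (nat_lit 163979) (nat_lit 30) (.e (nat_lit 573491) (nat_lit 15) (.e (nat_lit 81954) (nat_lit 23) (.e (nat_lit 98356) (nat_lit 26) (.e (nat_lit 426376) (nat_lit 15) (.e (nat_lit 2059) (nat_lit 142) .nil))))))) (.g (nat_lit 1) (.e (nat_lit 441017) (nat_lit 0) .nil) .nil))) 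
(.lf (nat_lit 609063) (.g (nat_lit 1730) (.e (nat_lit 704599) (nat_lit 6) (.e (nat_lit 188445) (nat_lit 21) (.e (nat_lit 164347) (nat_lit 240) (.e (nat_lit 2648) (nat_lit 166) (.e (nat_lit 188418) (nat_lit 0) .nil))))) (.g (nat_lit 0) (.e (nat_lit 442570) (nat_lit 0) .nil) .nil))))) (.nd (nat_lit 8) (.nd (nat_lit 9) 
(.lf (nat_lit 608423) (.g (nat_lit 3981) (.e (nat_lit 704589) (nat_lit 3) (.e (nat_lit 163978) (nat_lit 30) (.e (nat_lit 573491) (nat_lit 15) (.e (nat_lit 81941) (nat_lit 20) .nil)))) (.g (nat_lit 0) (.e (nat_lit 440877) (nat_lit 0) .nil) .nil))) 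
(.lf (nat_lit 608935) (.g (nat_lit 1525) (.e (nat_lit 704598) (nat_lit 6) (.e (nat_lit 188441) (nat_lit 20) (.e (nat_lit 3409) (nat_lit 212) (.e (nat_lit 655378) (nat_lit 4) (.e (nat_lit 172120) (nat_lit 12) .nil))))) (.g (nat_lit 0) (.e (nat_lit 442403) (nat_lit 0) .nil) .nil)))) (.nd (nat_lit 9) 
(.lf (nat_lit 608679) (.g (nat_lit 4251) (.e (nat_lit 704589) (nat_lit 3) (.e (nat_lit 163979) (nat_lit 30) (.e (nat_lit 573493) (nat_lit 15) (.e (nat_lit 81956) (nat_lit 23) (.e (nat_lit 98356) (nat_lit 26) (.e (nat_lit 426360) (nat_lit 15) (.e (nat_lit 2061) (nat_lit 142) .nil))))))) (.g (nat_lit 1) (.e (nat_lit 441366) (nat_lit 0) .nil) .nil))) 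
(.lf (nat_lit 609191) (.g (nat_lit 603) (.e (nat_lit 704732) (nat_lit 11) (.e (nat_lit 16412) (nat_lit 2) (.e (nat_lit 196672) (nat_lit 15) .nil))) (.g (nat_lit 0) (.e (nat_lit 443390) (nat_lit 0) .nil) .nil)))))) (.nd (nat_lit 7) (.nd (nat_lit 8) (.nd (nat_lit 9) 
(.lf (nat_lit 608359) (.g (nat_lit 3334) (.e (nat_lit 704589) (nat_lit 3) (.e (nat_lit 163976) (nat_lit 30) (.e (nat_lit 573492) (nat_lit 15) (.e (nat_lit 81956) (nat_lit 23) (.e (nat_lit 98362) (nat_lit 26) .nil))))) (.g (nat_lit 0) (.e (nat_lit 440799) (nat_lit 0) .nil) .nil))) 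
(.lf (nat_lit 608871) (.g (nat_lit 1011) (.e (nat_lit 704597) (nat_lit 6) (.e (nat_lit 188449) (nat_lit 22) (.e (nat_lit 196683) (nat_lit 18) .nil))) (.g (nat_lit 0) (.e (nat_lit 442291) (nat_lit 0) .nil) .nil)))) (.nd (nat_lit 9) 
(.lf (nat_lit 608615) (.g (nat_lit 3818) (.e (nat_lit 704589) (nat_lit 3) (.e (nat_lit 163979) (nat_lit 30) (.e (nat_lit 573492) (nat_lit 15) (.e (nat_lit 81956) (nat_lit 23) (.e (nat_lit 98384) (nat_lit 32) (.e (nat_lit 475195) (nat_lit 40) .nil)))))) (.g (nat_lit 1) (.e (nat_lit 441090) (nat_lit 0) .nil) .nil))) 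
(.lf (nat_lit 609127) (.g (nat_lit 2730) (.e (nat_lit 704599) (nat_lit 6) (.e (nat_lit 188455) (nat_lit 24) (.e (nat_lit 229666) (nat_lit 240) (.e (nat_lit 2630) (nat_lit 164) (.e (nat_lit 172118) (nat_lit 12) (.e (nat_lit 475198) (nat_lit 40) .nil)))))) (.g (nat_lit 1) (.e (nat_lit 442680) (nat_lit 0) .nil) .nil))))) (.nd (nat_lit 8) (.nd (nat_lit 9) 
(.lf (nat_lit 608487) (.g (nat_lit 2105) (.e (nat_lit 704589) (nat_lit 3) (.e (nat_lit 163979) (nat_lit 30) (.e (nat_lit 573482) (nat_lit 13) (.e (nat_lit 65619) (nat_lit 10) (.e (nat_lit 344117) (nat_lit 21) (.e (nat_lit 516147) (nat_lit 9) (.e (nat_lit 426420) (nat_lit 15) (.e (nat_lit 2056) (nat_lit 142) .nil)))))))) (.g (nat_lit 1) (.e (nat_lit 440946) (nat_lit 0) .nil) .nil))) 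
(.lf (nat_lit 608999) (.g (nat_lit 2417) (.e (nat_lit 704598) (nat_lit 6) (.e (nat_lit 188455) (nat_lit 24) (.e (nat_lit 229663) (nat_lit 240) (.e (nat_lit 2450) (nat_lit 157) .nil)))) (.g (nat_lit 0) (.e (nat_lit 442493) (nat_lit 0) .nil) .nil)))) (.nd (nat_lit 9) 
(.lf (nat_lit 608743) (.g (nat_lit 2983) (.e (nat_lit 704590) (nat_lit 3) (.e (nat_lit 163962) (nat_lit 25) (.e (nat_lit 532544) (nat_lit 10) (.e (nat_lit 344130) (nat_lit 26) (.e (nat_lit 557103) (nat_lit 14) (.e (nat_lit 188160) (nat_lit 3) (.e (nat_lit 516106) (nat_lit 0) (.e (nat_lit 7936) (nat_lit 218) .nil)))))))) (.g (nat_lit 1) (.e (nat_lit 441496) (nat_lit 0) .nil) .nil))) 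
(.lf (nat_lit 609255) (.g (nat_lit 2527) (.e (nat_lit 704738) (nat_lit 11) (.e (nat_lit 16412) (nat_lit 2) (.e (nat_lit 196666) (nat_lit 13) (.e (nat_lit 65613) (nat_lit 10) .nil)))) (.g (nat_lit 0) (.e (nat_lit 443801) (nat_lit 0) .nil) .nil)))))))) (.nd (nat_lit 5) (.nd (nat_lit 6) (.nd (nat_lit 7) (.nd (nat_lit 8) (.nd (nat_lit 9) 
(.lf (nat_lit 608279) (.g (nat_lit 1514) (.e (nat_lit 704589) (nat_lit 3) (.e (nat_lit 163976) (nat_lit 30) (.e (nat_lit 573491) (nat_lit 15) (.e (nat_lit 81947) (nat_lit 20) (.e (nat_lit 1798) (nat_lit 119) .nil))))) (.g (nat_lit 0) (.e (nat_lit 440624) (nat_lit 0) .nil) .nil))) 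
(.lf (nat_lit 608791) (.g (nat_lit 3057) (.e (nat_lit 704592) (nat_lit 4) (.e (nat_lit 172126) (nat_lit 14) (.e (nat_lit 491571) (nat_lit 13) (.e (nat_lit 393292) (nat_lit 26) (.e (nat_lit 475195) (nat_lit 40) .nil))))) (.g (nat_lit 1) (.e (nat_lit 441850) (nat_lit 0) .nil) .nil)))) (.nd (nat_lit 9) 
(.lf (nat_lit 608535) (.g (nat_lit 2364) (.e (nat_lit 704589) (nat_lit 3) (.e (nat_lit 163979) (nat_lit 30) (.e (nat_lit 573491) (nat_lit 15) (.e (nat_lit 81954) (nat_lit 23) (.e (nat_lit 98356) (nat_lit 26) (.e (nat_lit 426360) (nat_lit 15) (.e (nat_lit 2062) (nat_lit 142) .nil))))))) (.g (nat_lit 1) (.e (nat_lit 441001) (nat_lit 0) .nil) .nil))) 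
(.lf (nat_lit 609047) (.g (nat_lit 1023) (.e (nat_lit 704599) (nat_lit 6) (.e (nat_lit 188440) (nat_lit 20) (.e (nat_lit 3408) (nat_lit 212) (.e (nat_lit 655380) (nat_lit 6) (.e (nat_lit 188418) (nat_lit 0) (.e (nat_lit 2056) (nat_lit 142) .nil)))))) (.g (nat_lit 1) (.e (nat_lit 442546) (nat_lit 0) .nil) .nil))))) (.nd (nat_lit 8) (.nd (nat_lit 9) 
(.lf (nat_lit 608407) (.g (nat_lit 2113) (.e (nat_lit 704589) (nat_lit 3) (.e (nat_lit 163978) (nat_lit 30) (.e (nat_lit 573485) (nat_lit 13) (.e (nat_lit 65619) (nat_lit 10) (.e (nat_lit 344117) (nat_lit 21) (.e (nat_lit 516147) (nat_lit 9) (.e (nat_lit 426393) (nat_lit 15) (.e (nat_lit 2057) (nat_lit 142) .nil)))))))) (.g (nat_lit 1) (.e (nat_lit 440860) (nat_lit 0) .nil) .nil))) 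
(.lf (nat_lit 608919) (.g (nat_lit 2668) (.e (nat_lit 704598) (nat_lit 6) (.e (nat_lit 188434) (nat_lit 20) (.e (nat_lit 3409) (nat_lit 212) (.e (nat_lit 655378) (nat_lit 4) (.e (nat_lit 172118) (nat_lit 12) (.e (nat_lit 475199) (nat_lit 40) .nil)))))) (.g (nat_lit 1) (.e (nat_lit 442386) (nat_lit 0) .nil) .nil)))) (.nd (nat_lit 9) 
(.lf (nat_lit 608663) (.g (nat_lit 3210) (.e (nat_lit 704589) (nat_lit 3) (.e (nat_lit 163979) (nat_lit 30) (.e (nat_lit 573493) (nat_lit 15) (.e (nat_lit 81956) (nat_lit 23) (.e (nat_lit 98355) (nat_lit 26) (.e (nat_lit 426379) (nat_lit 15) (.e (nat_lit 2056) (nat_lit 142) .nil))))))) (.g (nat_lit 1) (.e (nat_lit 441350) (nat_lit 0) .nil) .nil))) 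
(.lf (nat_lit 609175) (.g (nat_lit 2197) (.e (nat_lit 704629) (nat_lit 9) (.e (nat_lit 411) (nat_lit 32) (.e (nat_lit 426125) (nat_lit 2) (.e (nat_lit 196666) (nat_lit 13) (.e (nat_lit 65617) (nat_lit 10) .nil))))) (.g (nat_lit 0) (.e (nat_lit 443248) (nat_lit 0) .nil) .nil)))))) (.nd (nat_lit 7) (.nd (nat_lit 8) (.nd (nat_lit 9) 
(.lf (nat_lit 608343) (.g (nat_lit 3358) (.e (nat_lit 704589) (nat_lit 3) (.e (nat_lit 163976) (nat_lit 30) (.e (nat_lit 573492) (nat_lit 15) (.e (nat_lit 81956) (nat_lit 23) (.e (nat_lit 98356) (nat_lit 26) (.e (nat_lit 426363) (nat_lit 15) (.e (nat_lit 2063) (nat_lit 142) .nil))))))) (.g (nat_lit 1) (.e (nat_lit 440783) (nat_lit 0) .nil) .nil))) 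
(.lf (nat_lit 608855) (.g (nat_lit 962) (.e (nat_lit 704597) (nat_lit 6) (.e (nat_lit 188444) (nat_lit 21) (.e (nat_lit 164347) (nat_lit 240) (.e (nat_lit 2648) (nat_lit 166) .nil)))) (.g (nat_lit 0) (.e (nat_lit 442264) (nat_lit 0) .nil) .nil)))) (.nd (nat_lit 9) 
(.lf (nat_lit 608599) (.g (nat_lit 3193) (.e (nat_lit 704589) (nat_lit 3) (.e (nat_lit 163979) (nat_lit 30) (.e (nat_lit 573492) (nat_lit 15) (.e (nat_lit 81956) (nat_lit 23) (.e (nat_lit 98356) (nat_lit 26) (.e (nat_lit 426363) (nat_lit 15) (.e (nat_lit 2060) (nat_lit 142) .nil))))))) (.g (nat_lit 1) (.e (nat_lit 441074) (nat_lit 0) .nil) .nil))) 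
(.lf (nat_lit 609111) (.g (nat_lit 2101) (.e (nat_lit 704599) (nat_lit 6) (.e (nat_lit 188455) (nat_lit 24) (.e (nat_lit 229663) (nat_lit 240) (.e (nat_lit 2620) (nat_lit 164) .nil)))) (.g (nat_lit 0) (.e (nat_lit 442652) (nat_lit 0) .nil) .nil))))) (.nd (nat_lit 8) (.nd (nat_lit 9) 
(.lf (nat_lit 608471) (.g (nat_lit 2433) (.e (nat_lit 704589) (nat_lit 3) (.e (nat_lit 163979) (nat_lit 30) (.e (nat_lit 573482) (nat_lit 13) (.e (nat_lit 65619) (nat_lit 10) (.e (nat_lit 344117) (nat_lit 21) (.e (nat_lit 516144) (nat_lit 9) (.e (nat_lit 426382) (nat_lit 15) (.e (nat_lit 2056) (nat_lit 142) .nil)))))))) (.g (nat_lit 1) (.e (nat_lit 440930) (nat_lit 0) .nil) .nil))) 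
(.lf (nat_lit 608983) (.g (nat_lit 1475) (.e (nat_lit 704598) (nat_lit 6) (.e (nat_lit 188453) (nat_lit 24) (.e (nat_lit 229678) (nat_lit 244) (.e (nat_lit 163900) (nat_lit 12) .nil)))) (.g (nat_lit 0) (.e (nat_lit 442476) (nat_lit 0) .nil) .nil)))) (.nd (nat_lit 9) 
(.lf (nat_lit 608727) (.g (nat_lit 2633) (.e (nat_lit 704589) (nat_lit 3) (.e (nat_lit 163979) (nat_lit 30) (.e (nat_lit 573493) (nat_lit 15) (.e (nat_lit 81956) (nat_lit 23) (.e (nat_lit 98383) (nat_lit 32) .nil))))) (.g (nat_lit 0) (.e (nat_lit 441414) (nat_lit 0) .nil) .nil))) 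
(.lf (nat_lit 609239) (.g (nat_lit 3712) (.e (nat_lit 704737) (nat_lit 11) (.e (nat_lit 16447) (nat_lit 10) (.e (nat_lit 434212) (nat_lit 18) (.e (nat_lit 6425) (nat_lit 342) (.e (nat_lit 229415) (nat_lit 15) (.e (nat_lit 450603) (nat_lit 22) .nil)))))) (.g (nat_lit 1) (.e (nat_lit 443700) (nat_lit 0) .nil) .nil))))))) (.nd (nat_lit 6) (.nd (nat_lit 7) (.nd (nat_lit 8) (.nd (nat_lit 9) 
(.lf (nat_lit 608311) (.g (nat_lit 3275) (.e (nat_lit 704589) (nat_lit 3) (.e (nat_lit 163976) (nat_lit 30) (.e (nat_lit 573491) (nat_lit 15) (.e (nat_lit 81954) (nat_lit 23) (.e (nat_lit 98384) (nat_lit 32) (.e (nat_lit 483072) (nat_lit 40) .nil)))))) (.g (nat_lit 1) (.e (nat_lit 440658) (nat_lit 0) .nil) .nil))) 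
(.lf (nat_lit 608823) (.g (nat_lit 1417) (.e (nat_lit 704595) (nat_lit 5) (.e (nat_lit 180278) (nat_lit 32) (.e (nat_lit 1426) (nat_lit 108) (.e (nat_lit 336430) (nat_lit 29) (.e (nat_lit 442378) (nat_lit 0) (.e (nat_lit 2057) (nat_lit 142) .nil)))))) (.g (nat_lit 1) (.e (nat_lit 442140) (nat_lit 0) .nil) .nil)))) (.nd (nat_lit 9) 
(.lf (nat_lit 608567) (.g (nat_lit 1509) (.e (nat_lit 704589) (nat_lit 3) (.e (nat_lit 163979) (nat_lit 30) (.e (nat_lit 573491) (nat_lit 15) (.e (nat_lit 81955) (nat_lit 23) .nil)))) (.g (nat_lit 0) (.e (nat_lit 441033) (nat_lit 0) .nil) .nil))) 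
(.lf (nat_lit 609079) (.g (nat_lit 1453) (.e (nat_lit 704599) (nat_lit 6) (.e (nat_lit 188446) (nat_lit 21) (.e (nat_lit 164348) (nat_lit 240) (.e (nat_lit 2618) (nat_lit 164) .nil)))) (.g (nat_lit 0) (.e (nat_lit 442589) (nat_lit 0) .nil) .nil))))) (.nd (nat_lit 8) (.nd (nat_lit 9) 
(.lf (nat_lit 608439) (.g (nat_lit 2777) (.e (nat_lit 704589) (nat_lit 3) (.e (nat_lit 163979) (nat_lit 30) (.e (nat_lit 573481) (nat_lit 13) (.e (nat_lit 65619) (nat_lit 10) (.e (nat_lit 344117) (nat_lit 21) .nil))))) (.g (nat_lit 0) (.e (nat_lit 440898) (nat_lit 0) .nil) .nil))) 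
(.lf (nat_lit 608951) (.g (nat_lit 1216) (.e (nat_lit 704598) (nat_lit 6) (.e (nat_lit 188446) (nat_lit 21) (.e (nat_lit 164348) (nat_lit 240) (.e (nat_lit 2618) (nat_lit 164) .nil)))) (.g (nat_lit 0) (.e (nat_lit 442424) (nat_lit 0) .nil) .nil)))) (.nd (nat_lit 9) 
(.lf (nat_lit 608695) (.g (nat_lit 4567) (.e (nat_lit 704589) (nat_lit 3) (.e (nat_lit 163979) (nat_lit 30) (.e (nat_lit 573493) (nat_lit 15) (.e (nat_lit 81956) (nat_lit 23) (.e (nat_lit 98356) (nat_lit 26) (.e (nat_lit 426376) (nat_lit 15) (.e (nat_lit 2056) (nat_lit 142) .nil))))))) (.g (nat_lit 1) (.e (nat_lit 441382) (nat_lit 0) .nil) .nil))) 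
(.lf (nat_lit 609207) (.g (nat_lit 1369) (.e (nat_lit 704734) (nat_lit 11) (.e (nat_lit 16436) (nat_lit 9) (.e (nat_lit 426555) (nat_lit 32) (.e (nat_lit 376857) (nat_lit 21) (.e (nat_lit 57853) (nat_lit 252) .nil))))) (.g (nat_lit 0) (.e (nat_lit 443451) (nat_lit 0) .nil) .nil)))))) (.nd (nat_lit 7) (.nd (nat_lit 8) (.nd (nat_lit 9) 
(.lf (nat_lit 608375) (.g (nat_lit 5556) (.e (nat_lit 704589) (nat_lit 3) (.e (nat_lit 163978) (nat_lit 30) (.e (nat_lit 573485) (nat_lit 13) (.e (nat_lit 65604) (nat_lit 9) (.e (nat_lit 336013) (nat_lit 2) (.e (nat_lit 90169) (nat_lit 13) (.e (nat_lit 172133) (nat_lit 15) (.e (nat_lit 2059) (nat_lit 142) .nil)))))))) (.g (nat_lit 1) (.e (nat_lit 440825) (nat_lit 0) .nil) .nil))) 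
(.lf (nat_lit 608887) (.g (nat_lit 1711) (.e (nat_lit 704597) (nat_lit 6) (.e (nat_lit 188453) (nat_lit 24) (.e (nat_lit 229679) (nat_lit 244) (.e (nat_lit 163919) (nat_lit 14) (.e (nat_lit 442371) (nat_lit 0) .nil))))) (.g (nat_lit 0) (.e (nat_lit 442343) (nat_lit 0) .nil) .nil)))) (.nd (nat_lit 9) 
(.lf (nat_lit 608631) (.g (nat_lit 3429) (.e (nat_lit 704589) (nat_lit 3) (.e (nat_lit 163979) (nat_lit 30) (.e (nat_lit 573493) (nat_lit 15) (.e (nat_lit 81953) (nat_lit 22) (.e (nat_lit 90166) (nat_lit 13) .nil))))) (.g (nat_lit 0) (.e (nat_lit 441300) (nat_lit 0) .nil) .nil))) 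
(.lf (nat_lit 609143) (.g (nat_lit 2882) (.e (nat_lit 704599) (nat_lit 6) (.e (nat_lit 188455) (nat_lit 24) (.e (nat_lit 229678) (nat_lit 244) (.e (nat_lit 163920) (nat_lit 14) (.e (nat_lit 442374) (nat_lit 0) .nil))))) (.g (nat_lit 0) (.e (nat_lit 442704) (nat_lit 0) .nil) .nil))))) (.nd (nat_lit 8) (.nd (nat_lit 9) 
(.lf (nat_lit 608503) (.g (nat_lit 1716) (.e (nat_lit 704589) (nat_lit 3) (.e (nat_lit 163979) (nat_lit 30) (.e (nat_lit 573485) (nat_lit 13) (.e (nat_lit 65604) (nat_lit 9) .nil)))) (.g (nat_lit 0) (.e (nat_lit 440962) (nat_lit 0) .nil) .nil))) 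
(.lf (nat_lit 609015) (.g (nat_lit 1991) (.e (nat_lit 704598) (nat_lit 6) (.e (nat_lit 188455) (nat_lit 24) (.e (nat_lit 229664) (nat_lit 240) (.e (nat_lit 2725) (nat_lit 172) (.e (nat_lit 237617) (nat_lit 12) .nil))))) (.g (nat_lit 0) (.e (nat_lit 442512) (nat_lit 0) .nil) .nil)))) (.nd (nat_lit 9) 
(.lf (nat_lit 608759) (.g (nat_lit 2672) (.e (nat_lit 704590) (nat_lit 3) (.e (nat_lit 163975) (nat_lit 30) (.e (nat_lit 573492) (nat_lit 15) (.e (nat_lit 81956) (nat_lit 23) (.e (nat_lit 106240) (nat_lit 32) (.e (nat_lit 475196) (nat_lit 40) .nil)))))) (.g (nat_lit 1) (.e (nat_lit 441573) (nat_lit 0) .nil) .nil))) 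
(.lf (nat_lit 609271) (.g (nat_lit 363) (.e (nat_lit 704738) (nat_lit 11) (.e (nat_lit 16433) (nat_lit 9) (.e (nat_lit 426479) (nat_lit 27) .nil))) (.g (nat_lit 0) (.e (nat_lit 443898) (nat_lit 0) .nil) .nil))))))))) (.nd (nat_lit 4) (.nd (nat_lit 5) (.nd (nat_lit 6) (.nd (nat_lit 7) (.nd (nat_lit 8) (.nd (nat_lit 9) 
(.lf (nat_lit 608271) (.g (nat_lit 3019) (.e (nat_lit 704589) (nat_lit 3) (.e (nat_lit 163976) (nat_lit 30) (.e (nat_lit 573481) (nat_lit 13) (.e (nat_lit 65619) (nat_lit 10) (.e (nat_lit 344117) (nat_lit 21) (.e (nat_lit 516152) (nat_lit 9) (.e (nat_lit 426410) (nat_lit 15) (.e (nat_lit 2058) (nat_lit 142) .nil)))))))) (.g (nat_lit 1) (.e (nat_lit 440616) (nat_lit 0) .nil) .nil))) 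
(.lf (nat_lit 608783) (.g (nat_lit 1906) (.e (nat_lit 704592) (nat_lit 4) (.e (nat_lit 172126) (nat_lit 14) (.e (nat_lit 491550) (nat_lit 9) (.e (nat_lit 336430) (nat_lit 29) (.e (nat_lit 442378) (nat_lit 0) .nil))))) (.g (nat_lit 0) (.e (nat_lit 441707) (nat_lit 0) .nil) .nil)))) (.nd (nat_lit 9) 
(.lf (nat_lit 608527) (.g (nat_lit 1846) (.e (nat_lit 704589) (nat_lit 3) (.e (nat_lit 163979) (nat_lit 30) (.e (nat_lit 573491) (nat_lit 15) (.e (nat_lit 81954) (nat_lit 23) (.e (nat_lit 98356) (nat_lit 26) .nil))))) (.g (nat_lit 0) (.e (nat_lit 440993) (nat_lit 0) .nil) .nil))) 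
(.lf (nat_lit 609039) (.g (nat_lit 1753) (.e (nat_lit 704598) (nat_lit 6) (.e (nat_lit 188455) (nat_lit 24) (.e (nat_lit 229680) (nat_lit 244) (.e (nat_lit 163908) (nat_lit 12) (.e (nat_lit 426312) (nat_lit 12) (.e (nat_lit 475199) (nat_lit 40) .nil)))))) (.g (nat_lit 1) (.e (nat_lit 442537) (nat_lit 0) .nil) .nil))))) (.nd (nat_lit 8) (.nd (nat_lit 9) 
(.lf (nat_lit 608399) (.g (nat_lit 2620) (.e (nat_lit 704589) (nat_lit 3) (.e (nat_lit 163978) (nat_lit 30) (.e (nat_lit 573485) (nat_lit 13) (.e (nat_lit 65619) (nat_lit 10) (.e (nat_lit 344117) (nat_lit 21) (.e (nat_lit 516145) (nat_lit 9) (.e (nat_lit 426416) (nat_lit 15) (.e (nat_lit 7936) (nat_lit 142) .nil)))))))) (.g (nat_lit 1) (.e (nat_lit 440852) (nat_lit 0) .nil) .nil))) 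
(.lf (nat_lit 608911) (.g (nat_lit 2969) (.e (nat_lit 704598) (nat_lit 6) (.e (nat_lit 188434) (nat_lit 20) (.e (nat_lit 3408) (nat_lit 212) (.e (nat_lit 655364) (nat_lit 0) (.e (nat_lit 3004) (nat_lit 186) (.e (nat_lit 442374) (nat_lit 0) (.e (nat_lit 2059) (nat_lit 142) .nil))))))) (.g (nat_lit 1) (.e (nat_lit 442378) (nat_lit 0) .nil) .nil)))) (.nd (nat_lit 9) 
(.lf (nat_lit 608655) (.g (nat_lit 3290) (.e (nat_lit 704589) (nat_lit 3) (.e (nat_lit 163979) (nat_lit 30) (.e (nat_lit 573493) (nat_lit 15) (.e (nat_lit 81954) (nat_lit 23) (.e (nat_lit 98385) (nat_lit 32) .nil))))) (.g (nat_lit 0) (.e (nat_lit 441332) (nat_lit 0) .nil) .nil))) 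
(.lf (nat_lit 609167) (.g (nat_lit 3314) (.e (nat_lit 704629) (nat_lit 9) (.e (nat_lit 375) (nat_lit 32) (.e (nat_lit 426118) (nat_lit 2) (.e (nat_lit 196666) (nat_lit 13) (.e (nat_lit 65617) (nat_lit 10) (.e (nat_lit 344132) (nat_lit 26) (.e (nat_lit 557093) (nat_lit 12) (.e (nat_lit 164022) (nat_lit 46) .nil)))))))) (.g (nat_lit 1) (.e (nat_lit 443117) (nat_lit 0) .nil) .nil)))))) 
(.nd (nat_lit 7) (.nd (nat_lit 8) (.nd (nat_lit 9) 
(.lf (nat_lit 608335) (.g (nat_lit 3361) (.e (nat_lit 704589) (nat_lit 3) (.e (nat_lit 163976) (nat_lit 30) (.e (nat_lit 573492) (nat_lit 15) (.e (nat_lit 81956) (nat_lit 23) (.e (nat_lit 98356) (nat_lit 26) (.e (nat_lit 426360) (nat_lit 15) (.e (nat_lit 2063) (nat_lit 142) .nil))))))) (.g (nat_lit 1) (.e (nat_lit 440775) (nat_lit 0) .nil) .nil))) 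
(.lf (nat_lit 608847) (.g (nat_lit 325) (.e (nat_lit 704597) (nat_lit 6) (.e (nat_lit 188435) (nat_lit 20) (.e (nat_lit 3409) (nat_lit 212) (.e (nat_lit 655380) (nat_lit 6) .nil)))) (.g (nat_lit 0) (.e (nat_lit 442244) (nat_lit 0) .nil) .nil)))) (.nd (nat_lit 9) 
(.lf (nat_lit 608591) (.g (nat_lit 3545) (.e (nat_lit 704589) (nat_lit 3) (.e (nat_lit 163979) (nat_lit 30) (.e (nat_lit 573492) (nat_lit 15) (.e (nat_lit 81956) (nat_lit 23) (.e (nat_lit 98356) (nat_lit 26) (.e (nat_lit 426360) (nat_lit 15) (.e (nat_lit 2063) (nat_lit 142) .nil))))))) (.g (nat_lit 1) (.e (nat_lit 441066) (nat_lit 0) .nil) .nil))) 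
(.lf (nat_lit 609103) (.g (nat_lit 1812) (.e (nat_lit 704599) (nat_lit 6) (.e (nat_lit 188453) (nat_lit 24) (.e (nat_lit 229680) (nat_lit 244) (.e (nat_lit 163908) (nat_lit 12) (.e (nat_lit 426305) (nat_lit 12) .nil))))) (.g (nat_lit 0) (.e (nat_lit 442636) (nat_lit 0) .nil) .nil))))) (.nd (nat_lit 8) (.nd (nat_lit 9) 
(.lf (nat_lit 608463) (.g (nat_lit 2253) (.e (nat_lit 704589) (nat_lit 3) (.e (nat_lit 163979) (nat_lit 30) (.e (nat_lit 573482) (nat_lit 13) (.e (nat_lit 65619) (nat_lit 10) (.e (nat_lit 344108) (nat_lit 19) .nil))))) (.g (nat_lit 0) (.e (nat_lit 440922) (nat_lit 0) .nil) .nil))) 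
(.lf (nat_lit 608975) (.g (nat_lit 1535) (.e (nat_lit 704598) (nat_lit 6) (.e (nat_lit 188453) (nat_lit 24) (.e (nat_lit 229664) (nat_lit 240) (.e (nat_lit 2725) (nat_lit 172) (.e (nat_lit 237616) (nat_lit 12) .nil))))) (.g (nat_lit 0) (.e (nat_lit 442467) (nat_lit 0) .nil) .nil)))) (.nd (nat_lit 9) 
(.lf (nat_lit 608719) (.g (nat_lit 4545) (.e (nat_lit 704589) (nat_lit 3) (.e (nat_lit 163979) (nat_lit 30) (.e (nat_lit 573493) (nat_lit 15) (.e (nat_lit 81956) (nat_lit 23) (.e (nat_lit 98362) (nat_lit 26) (.e (nat_lit 426411) (nat_lit 15) (.e (nat_lit 2056) (nat_lit 142) .nil))))))) (.g (nat_lit 1) (.e (nat_lit 441406) (nat_lit 0) .nil) .nil))) 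
(.lf (nat_lit 609231) (.g (nat_lit 893) (.e (nat_lit 704737) (nat_lit 11) (.e (nat_lit 16392) (nat_lit 0) (.e (nat_lit 6970) (nat_lit 377) (.e (nat_lit 1167) (nat_lit 86) .nil)))) (.g (nat_lit 0) (.e (nat_lit 443653) (nat_lit 0) .nil) .nil))))))) (.nd (nat_lit 6) (.nd (nat_lit 7) (.nd (nat_lit 8) (.nd (nat_lit 9) 
(.lf (nat_lit 608303) (.g (nat_lit 2885) (.e (nat_lit 704589) (nat_lit 3) (.e (nat_lit 163976) (nat_lit 30) (.e (nat_lit 573491) (nat_lit 15) (.e (nat_lit 81954) (nat_lit 23) (.e (nat_lit 98356) (nat_lit 26) (.e (nat_lit 426376) (nat_lit 15) (.e (nat_lit 2057) (nat_lit 142) .nil))))))) (.g (nat_lit 1) (.e (nat_lit 440650) (nat_lit 0) .nil) .nil))) 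
(.lf (nat_lit 608815) (.g (nat_lit 1988) (.e (nat_lit 704595) (nat_lit 5) (.e (nat_lit 180277) (nat_lit 32) (.e (nat_lit 1427) (nat_lit 108) (.e (nat_lit 336430) (nat_lit 29) (.e (nat_lit 442378) (nat_lit 0) .nil))))) (.g (nat_lit 0) (.e (nat_lit 442120) (nat_lit 0) .nil) .nil)))) (.nd (nat_lit 9) 
(.lf (nat_lit 608559) (.g (nat_lit 1742) (.e (nat_lit 704589) (nat_lit 3) (.e (nat_lit 163979) (nat_lit 30) (.e (nat_lit 573491) (nat_lit 15) (.e (nat_lit 81954) (nat_lit 23) (.e (nat_lit 98359) (nat_lit 26) .nil))))) (.g (nat_lit 0) (.e (nat_lit 441025) (nat_lit 0) .nil) .nil))) 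
(.lf (nat_lit 609071) (.g (nat_lit 1337) (.e (nat_lit 704599) (nat_lit 6) (.e (nat_lit 188446) (nat_lit 21) (.e (nat_lit 164346) (nat_lit 240) (.e (nat_lit 2628) (nat_lit 164) (.e (nat_lit 172118) (nat_lit 12) .nil))))) (.g (nat_lit 0) (.e (nat_lit 442578) (nat_lit 0) .nil) .nil))))) (.nd (nat_lit 8) (.nd (nat_lit 9) 
(.lf (nat_lit 608431) (.g (nat_lit 4393) (.e (nat_lit 704589) (nat_lit 3) (.e (nat_lit 163979) (nat_lit 30) (.e (nat_lit 573480) (nat_lit 13) (.e (nat_lit 65610) (nat_lit 10) (.e (nat_lit 344117) (nat_lit 21) (.e (nat_lit 516151) (nat_lit 9) (.e (nat_lit 426412) (nat_lit 15) (.e (nat_lit 2056) (nat_lit 142) .nil)))))))) (.g (nat_lit 1) (.e (nat_lit 440890) (nat_lit 0) .nil) .nil))) 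
(.lf (nat_lit 608943) (.g (nat_lit 1864) (.e (nat_lit 704598) (nat_lit 6) (.e (nat_lit 188444) (nat_lit 21) (.e (nat_lit 164348) (nat_lit 240) (.e (nat_lit 2650) (nat_lit 166) (.e (nat_lit 188418) (nat_lit 0) .nil))))) (.g (nat_lit 0) (.e (nat_lit 442414) (nat_lit 0) .nil) .nil)))) (.nd (nat_lit 9) 
(.lf (nat_lit 608687) (.g (nat_lit 3158) (.e (nat_lit 704589) (nat_lit 3) (.e (nat_lit 163979) (nat_lit 30) (.e (nat_lit 573493) (nat_lit 15) (.e (nat_lit 81956) (nat_lit 23) (.e (nat_lit 98356) (nat_lit 26) (.e (nat_lit 426364) (nat_lit 15) (.e (nat_lit 2061) (nat_lit 142) .nil))))))) (.g (nat_lit 1) (.e (nat_lit 441374) (nat_lit 0) .nil) .nil))) 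
(.lf (nat_lit 609199) (.g (nat_lit 1526) (.e (nat_lit 704732) (nat_lit 11) (.e (nat_lit 16463) (nat_lit 13) (.e (nat_lit 483412) (nat_lit 27) (.e (nat_lit 401448) (nat_lit 10) .nil)))) (.g (nat_lit 0) (.e (nat_lit 443409) (nat_lit 0) .nil) .nil)))))) (.nd (nat_lit 7) (.nd (nat_lit 8) (.nd (nat_lit 9) 
(.lf (nat_lit 608367) (.g (nat_lit 2207) (.e (nat_lit 704589) (nat_lit 3) (.e (nat_lit 163978) (nat_lit 30) (.e (nat_lit 573479) (nat_lit 13) (.e (nat_lit 65604) (nat_lit 9) .nil)))) (.g (nat_lit 0) (.e (nat_lit 440816) (nat_lit 0) .nil) .nil))) 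
(.lf (nat_lit 608879) (.g (nat_lit 2207) (.e (nat_lit 704597) (nat_lit 6) (.e (nat_lit 188452) (nat_lit 23) (.e (nat_lit 204829) (nat_lit 18) (.e (nat_lit 57691) (nat_lit 156) .nil)))) (.g (nat_lit 0) (.e (nat_lit 442319) (nat_lit 0) .nil) .nil)))) (.nd (nat_lit 9) 
(.lf (nat_lit 608623) (.g (nat_lit 4005) (.e (nat_lit 704589) (nat_lit 3) (.e (nat_lit 163979) (nat_lit 30) (.e (nat_lit 573492) (nat_lit 15) (.e (nat_lit 81956) (nat_lit 23) (.e (nat_lit 106240) (nat_lit 32) (.e (nat_lit 475199) (nat_lit 40) .nil)))))) (.g (nat_lit 1) (.e (nat_lit 441098) (nat_lit 0) .nil) .nil))) 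
(.lf (nat_lit 609135) (.g (nat_lit 2148) (.e (nat_lit 704599) (nat_lit 6) (.e (nat_lit 188455) (nat_lit 24) (.e (nat_lit 229678) (nat_lit 244) (.e (nat_lit 163900) (nat_lit 12) .nil)))) (.g (nat_lit 0) (.e (nat_lit 442693) (nat_lit 0) .nil) .nil))))) (.nd (nat_lit 8) (.nd (nat_lit 9) 
(.lf (nat_lit 608495) (.g (nat_lit 2551) (.e (nat_lit 704589) (nat_lit 3) (.e (nat_lit 163979) (nat_lit 30) (.e (nat_lit 573482) (nat_lit 13) (.e (nat_lit 65619) (nat_lit 10) (.e (nat_lit 344117) (nat_lit 21) (.e (nat_lit 516152) (nat_lit 9) (.e (nat_lit 426411) (nat_lit 15) (.e (nat_lit 2057) (nat_lit 142) .nil)))))))) (.g (nat_lit 1) (.e (nat_lit 440954) (nat_lit 0) .nil) .nil))) 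
(.lf (nat_lit 609007) (.g (nat_lit 3273) (.e (nat_lit 704598) (nat_lit 6) (.e (nat_lit 188455) (nat_lit 24) (.e (nat_lit 229663) (nat_lit 240) (.e (nat_lit 2651) (nat_lit 166) (.e (nat_lit 188420) (nat_lit 0) (.e (nat_lit 2058) (nat_lit 142) .nil)))))) (.g (nat_lit 1) (.e (nat_lit 442504) (nat_lit 0) .nil) .nil)))) (.nd (nat_lit 9) 
(.lf (nat_lit 608751) (.g (nat_lit 1140) (.e (nat_lit 704590) (nat_lit 3) (.e (nat_lit 163975) (nat_lit 30) (.e (nat_lit 573481) (nat_lit 13) (.e (nat_lit 65619) (nat_lit 10) .nil)))) (.g (nat_lit 0) (.e (nat_lit 441506) (nat_lit 0) .nil) .nil))) 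
(.lf (nat_lit 609263) (.g (nat_lit 5076) (.e (nat_lit 704738) (nat_lit 11) (.e (nat_lit 16425) (nat_lit 7) (.e (nat_lit 409649) (nat_lit 18) (.e (nat_lit 303140) (nat_lit 10) (.e (nat_lit 434275) (nat_lit 39) (.e (nat_lit 663574) (nat_lit 9) (.e (nat_lit 2418) (nat_lit 157) (.e (nat_lit 3501) (nat_lit 218) .nil)))))))) (.g (nat_lit 1) (.e (nat_lit 443884) (nat_lit 0) .nil) .nil)))))))) 
(.nd (nat_lit 5) (.nd (nat_lit 6) (.nd (nat_lit 7) (.nd (nat_lit 8) (.nd (nat_lit 9) 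
(.lf (nat_lit 608287) (.g (nat_lit 1475) (.e (nat_lit 704589) (nat_lit 3) (.e (nat_lit 163976) (nat_lit 30) (.e (nat_lit 573491) (nat_lit 15) (.e (nat_lit 81954) (nat_lit 23) (.e (nat_lit 98355) (nat_lit 26) (.e (nat_lit 426420) (nat_lit 15) (.e (nat_lit 2056) (nat_lit 142) .nil))))))) (.g (nat_lit 1) (.e (nat_lit 440634) (nat_lit 0) .nil) .nil))) 
(.lf (nat_lit 608799) (.g (nat_lit 1538) (.e (nat_lit 704593) (nat_lit 4) (.e (nat_lit 172124) (nat_lit 14) (.e (nat_lit 491550) (nat_lit 9) (.e (nat_lit 336430) (nat_lit 29) .nil)))) (.g (nat_lit 0) (.e (nat_lit 441882) (nat_lit 0) .nil) .nil)))) (.nd (nat_lit 9) 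
(.lf (nat_lit 608543) (.g (nat_lit 2913) (.e (nat_lit 704589) (nat_lit 3) (.e (nat_lit 163979) (nat_lit 30) (.e (nat_lit 573491) (nat_lit 15) (.e (nat_lit 81954) (nat_lit 23) (.e (nat_lit 98356) (nat_lit 26) (.e (nat_lit 426363) (nat_lit 15) (.e (nat_lit 2060) (nat_lit 142) .nil))))))) (.g (nat_lit 1) (.e (nat_lit 441009) (nat_lit 0) .nil) .nil))) 
(.lf (nat_lit 609055) (.g (nat_lit 1721) (.e (nat_lit 704599) (nat_lit 6) (.e (nat_lit 188444) (nat_lit 21) (.e (nat_lit 164347) (nat_lit 240) (.e (nat_lit 2648) (nat_lit 166) (.e (nat_lit 188420) (nat_lit 0) .nil))))) (.g (nat_lit 0) (.e (nat_lit 442562) (nat_lit 0) .nil) .nil))))) (.nd (nat_lit 8) (.nd (nat_lit 9) 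
(.lf (nat_lit 608415) (.g (nat_lit 3538) (.e (nat_lit 704589) (nat_lit 3) (.e (nat_lit 163978) (nat_lit 30) (.e (nat_lit 573485) (nat_lit 13) (.e (nat_lit 65619) (nat_lit 10) (.e (nat_lit 344117) (nat_lit 21) (.e (nat_lit 516152) (nat_lit 9) (.e (nat_lit 426411) (nat_lit 15) (.e (nat_lit 2058) (nat_lit 142) .nil)))))))) (.g (nat_lit 1) (.e (nat_lit 440868) (nat_lit 0) .nil) .nil))) 
(.lf (nat_lit 608927) (.g (nat_lit 1092) (.e (nat_lit 704598) (nat_lit 6) (.e (nat_lit 188435) (nat_lit 20) (.e (nat_lit 3409) (nat_lit 212) (.e (nat_lit 655380) (nat_lit 6) (.e (nat_lit 188418) (nat_lit 0) (.e (nat_lit 2057) (nat_lit 142) .nil)))))) (.g (nat_lit 1) (.e (nat_lit 442394) (nat_lit 0) .nil) .nil)))) (.nd (nat_lit 9) 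
(.lf (nat_lit 608671) (.g (nat_lit 2765) (.e (nat_lit 704589) (nat_lit 3) (.e (nat_lit 163979) (nat_lit 30) (.e (nat_lit 573493) (nat_lit 15) (.e (nat_lit 81956) (nat_lit 23) (.e (nat_lit 98356) (nat_lit 26) .nil))))) (.g (nat_lit 0) (.e (nat_lit 441358) (nat_lit 0) .nil) .nil))) 
(.lf (nat_lit 609183) (.g (nat_lit 3203) (.e (nat_lit 704728) (nat_lit 10) (.e (nat_lit 8234) (nat_lit 20) (.e (nat_lit 573489) (nat_lit 14) (.e (nat_lit 73755) (nat_lit 8) (.e (nat_lit 557104) (nat_lit 14) (.e (nat_lit 188160) (nat_lit 3) (.e (nat_lit 516106) (nat_lit 0) (.e (nat_lit 3535) (nat_lit 218) .nil)))))))) (.g (nat_lit 1) (.e (nat_lit 443365) (nat_lit 0) .nil) .nil)))))) 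
(.nd (nat_lit 7) (.nd (nat_lit 8) (.nd (nat_lit 9) 
(.lf (nat_lit 608351) (.g (nat_lit 3824) (.e (nat_lit 704589) (nat_lit 3) (.e (nat_lit 163976) (nat_lit 30) (.e (nat_lit 573492) (nat_lit 15) (.e (nat_lit 81956) (nat_lit 23) (.e (nat_lit 98356) (nat_lit 26) (.e (nat_lit 426393) (nat_lit 15) (.e (nat_lit 2057) (nat_lit 142) .nil))))))) (.g (nat_lit 1) (.e (nat_lit 440791) (nat_lit 0) .nil) .nil))) 
(.lf (nat_lit 608863) (.g (nat_lit 1218) (.e (nat_lit 704597) (nat_lit 6) (.e (nat_lit 188446) (nat_lit 21) (.e (nat_lit 164346) (nat_lit 240) (.e (nat_lit 2648) (nat_lit 166) (.e (nat_lit 188417) (nat_lit 0) .nil))))) (.g (nat_lit 0) (.e (nat_lit 442278) (nat_lit 0) .nil) .nil)))) (.nd (nat_lit 9) 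
(.lf (nat_lit 608607) (.g (nat_lit 4633) (.e (nat_lit 704589) (nat_lit 3) (.e (nat_lit 163979) (nat_lit 30) (.e (nat_lit 573492) (nat_lit 15) (.e (nat_lit 81956) (nat_lit 23) (.e (nat_lit 98356) (nat_lit 26) (.e (nat_lit 426376) (nat_lit 15) (.e (nat_lit 2058) (nat_lit 142) .nil))))))) (.g (nat_lit 1) (.e (nat_lit 441082) (nat_lit 0) .nil) .nil))) 
(.lf (nat_lit 609119) (.g (nat_lit 2092) (.e (nat_lit 704599) (nat_lit 6) (.e (nat_lit 188455) (nat_lit 24) (.e (nat_lit 229663) (nat_lit 240) (.e (nat_lit 2725) (nat_lit 172) .nil)))) (.g (nat_lit 0) (.e (nat_lit 442664) (nat_lit 0) .nil) .nil))))) (.nd (nat_lit 8) (.nd (nat_lit 9) 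
(.lf (nat_lit 608479) (.g (nat_lit 5230) (.e (nat_lit 704589) (nat_lit 3) (.e (nat_lit 163979) (nat_lit 30) (.e (nat_lit 573482) (nat_lit 13) (.e (nat_lit 65619) (nat_lit 10) (.e (nat_lit 344117) (nat_lit 21) (.e (nat_lit 516145) (nat_lit 9) (.e (nat_lit 426375) (nat_lit 15) (.e (nat_lit 2058) (nat_lit 142) .nil)))))))) (.g (nat_lit 1) (.e (nat_lit 440938) (nat_lit 0) .nil) .nil))) 
(.lf (nat_lit 608991) (.g (nat_lit 1581) (.e (nat_lit 704598) (nat_lit 6) (.e (nat_lit 188453) (nat_lit 24) (.e (nat_lit 229680) (nat_lit 244) (.e (nat_lit 163919) (nat_lit 14) (.e (nat_lit 442374) (nat_lit 0) .nil))))) (.g (nat_lit 0) (.e (nat_lit 442484) (nat_lit 0) .nil) .nil)))) (.nd (nat_lit 9) 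
(.lf (nat_lit 608735) (.g (nat_lit 3022) (.e (nat_lit 704590) (nat_lit 3) (.e (nat_lit 163962) (nat_lit 25) (.e (nat_lit 532543) (nat_lit 10) (.e (nat_lit 344129) (nat_lit 26) (.e (nat_lit 557103) (nat_lit 14) (.e (nat_lit 188160) (nat_lit 3) (.e (nat_lit 516106) (nat_lit 0) (.e (nat_lit 7936) (nat_lit 218) .nil)))))))) (.g (nat_lit 1) (.e (nat_lit 441488) (nat_lit 0) .nil) .nil))) 
(.lf (nat_lit 609247) (.g (nat_lit 1305) (.e (nat_lit 704737) (nat_lit 11) (.e (nat_lit 16466) (nat_lit 13) (.e (nat_lit 483350) (nat_lit 17) (.e (nat_lit 7936) (nat_lit 362) .nil)))) (.g (nat_lit 0) (.e (nat_lit 443763) (nat_lit 0) .nil) .nil))))))) (.nd (nat_lit 6) (.nd (nat_lit 7) (.nd (nat_lit 8) (.nd (nat_lit 9) 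
(.lf (nat_lit 608319) (.g (nat_lit 2311) (.e (nat_lit 704589) (nat_lit 3) (.e (nat_lit 163976) (nat_lit 30) (.e (nat_lit 573492) (nat_lit 15) (.e (nat_lit 81956) (nat_lit 23) (.e (nat_lit 98355) (nat_lit 26) (.e (nat_lit 426374) (nat_lit 15) (.e (nat_lit 2056) (nat_lit 142) .nil))))))) (.g (nat_lit 1) (.e (nat_lit 440759) (nat_lit 0) .nil) .nil))) 
(.lf (nat_lit 608831) (.g (nat_lit 1790) (.e (nat_lit 704595) (nat_lit 5) (.e (nat_lit 180278) (nat_lit 32) (.e (nat_lit 1661) (nat_lit 115) (.e (nat_lit 393268) (nat_lit 23) (.e (nat_lit 426374) (nat_lit 15) .nil))))) (.g (nat_lit 0) (.e (nat_lit 442168) (nat_lit 0) .nil) .nil)))) (.nd (nat_lit 9) 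
(.lf (nat_lit 608575) (.g (nat_lit 2639) (.e (nat_lit 704589) (nat_lit 3) (.e (nat_lit 163979) (nat_lit 30) (.e (nat_lit 573492) (nat_lit 15) (.e (nat_lit 81956) (nat_lit 23) (.e (nat_lit 98355) (nat_lit 26) .nil))))) (.g (nat_lit 0) (.e (nat_lit 441050) (nat_lit 0) .nil) .nil))) 
(.lf (nat_lit 609087) (.g (nat_lit 1696) (.e (nat_lit 704599) (nat_lit 6) (.e (nat_lit 188453) (nat_lit 24) (.e (nat_lit 229663) (nat_lit 240) (.e (nat_lit 2463) (nat_lit 157) .nil)))) (.g (nat_lit 0) (.e (nat_lit 442607) (nat_lit 0) .nil) .nil))))) (.nd (nat_lit 8) (.nd (nat_lit 9) 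
(.lf (nat_lit 608447) (.g (nat_lit 1963) (.e (nat_lit 704589) (nat_lit 3) (.e (nat_lit 163979) (nat_lit 30) (.e (nat_lit 573482) (nat_lit 13) (.e (nat_lit 65604) (nat_lit 9) (.e (nat_lit 336028) (nat_lit 3) .nil))))) (.g (nat_lit 0) (.e (nat_lit 440906) (nat_lit 0) .nil) .nil))) 
(.lf (nat_lit 608959) (.g (nat_lit 1988) (.e (nat_lit 704598) (nat_lit 6) (.e (nat_lit 188446) (nat_lit 21) (.e (nat_lit 164348) (nat_lit 240) (.e (nat_lit 2650) (nat_lit 166) (.e (nat_lit 188418) (nat_lit 0) .nil))))) (.g (nat_lit 0) (.e (nat_lit 442436) (nat_lit 0) .nil) .nil)))) (.nd (nat_lit 9) 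
(.lf (nat_lit 608703) (.g (nat_lit 4351) (.e (nat_lit 704589) (nat_lit 3) (.e (nat_lit 163979) (nat_lit 30) (.e (nat_lit 573493) (nat_lit 15) (.e (nat_lit 81956) (nat_lit 23) (.e (nat_lit 98356) (nat_lit 26) (.e (nat_lit 426420) (nat_lit 15) (.e (nat_lit 2057) (nat_lit 142) .nil))))))) (.g (nat_lit 1) (.e (nat_lit 441390) (nat_lit 0) .nil) .nil))) 
(.lf (nat_lit 609215) (.g (nat_lit 2439) (.e (nat_lit 704736) (nat_lit 11) (.e (nat_lit 16412) (nat_lit 2) (.e (nat_lit 196674) (nat_lit 15) (.e (nat_lit 81947) (nat_lit 20) (.e (nat_lit 1859) (nat_lit 124) .nil))))) (.g (nat_lit 0) (.e (nat_lit 443515) (nat_lit 0) .nil) .nil)))))) (.nd (nat_lit 7) (.nd (nat_lit 8) (.nd (nat_lit 9) 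
(.lf (nat_lit 608383) (.g (nat_lit 4840) (.e (nat_lit 704589) (nat_lit 3) (.e (nat_lit 163978) (nat_lit 30) (.e (nat_lit 573485) (nat_lit 13) (.e (nat_lit 65610) (nat_lit 10) (.e (nat_lit 344117) (nat_lit 21) (.e (nat_lit 516151) (nat_lit 9) (.e (nat_lit 426412) (nat_lit 15) (.e (nat_lit 2057) (nat_lit 142) .nil)))))))) (.g (nat_lit 1) (.e (nat_lit 440833) (nat_lit 0) .nil) .nil))) 
(.lf (nat_lit 608895) (.g (nat_lit 2564) (.e (nat_lit 704597) (nat_lit 6) (.e (nat_lit 188455) (nat_lit 24) (.e (nat_lit 229678) (nat_lit 244) (.e (nat_lit 163919) (nat_lit 14) (.e (nat_lit 442371) (nat_lit 0) .nil))))) (.g (nat_lit 0) (.e (nat_lit 442360) (nat_lit 0) .nil) .nil)))) (.nd (nat_lit 9) 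
(.lf (nat_lit 608639) (.g (nat_lit 3531) (.e (nat_lit 704589) (nat_lit 3) (.e (nat_lit 163979) (nat_lit 30) (.e (nat_lit 573493) (nat_lit 15) (.e (nat_lit 81954) (nat_lit 23) (.e (nat_lit 98356) (nat_lit 26) (.e (nat_lit 426363) (nat_lit 15) (.e (nat_lit 2056) (nat_lit 142) .nil))))))) (.g (nat_lit 1) (.e (nat_lit 441316) (nat_lit 0) .nil) .nil))) 
(.lf (nat_lit 609151) (.g (nat_lit 4504) (.e (nat_lit 704627) (nat_lit 9) (.e (nat_lit 375) (nat_lit 32) (.e (nat_lit 426125) (nat_lit 2) (.e (nat_lit 196666) (nat_lit 13) (.e (nat_lit 65614) (nat_lit 10) .nil))))) (.g (nat_lit 0) (.e (nat_lit 442998) (nat_lit 0) .nil) .nil))))) (.nd (nat_lit 8) (.nd (nat_lit 9) 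
(.lf (nat_lit 608511) (.g (nat_lit 1474) (.e (nat_lit 704589) (nat_lit 3) (.e (nat_lit 163979) (nat_lit 30) (.e (nat_lit 573491) (nat_lit 15) (.e (nat_lit 81946) (nat_lit 20) .nil)))) (.g (nat_lit 0) (.e (nat_lit 440971) (nat_lit 0) .nil) .nil))) 
(.lf (nat_lit 609023) (.g (nat_lit 543) (.e (nat_lit 704598) (nat_lit 6) (.e (nat_lit 188455) (nat_lit 24) (.e (nat_lit 229677) (nat_lit 244) .nil))) (.g (nat_lit 0) (.e (nat_lit 442520) (nat_lit 0) .nil) .nil)))) (.nd (nat_lit 9) 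
(.lf (nat_lit 608767) (.g (nat_lit 2322) (.e (nat_lit 704591) (nat_lit 4) (.e (nat_lit 172126) (nat_lit 14) (.e (nat_lit 491550) (nat_lit 9) (.e (nat_lit 336430) (nat_lit 29) (.e (nat_lit 442376) (nat_lit 0) (.e (nat_lit 2147) (nat_lit 142) .nil)))))) (.g (nat_lit 1) (.e (nat_lit 441613) (nat_lit 0) .nil) .nil))) 
(.lf (nat_lit 609279) (.g (nat_lit 809) (.e (nat_lit 704738) (nat_lit 11) (.e (nat_lit 16463) (nat_lit 13) (.e (nat_lit 483357) (nat_lit 17) .nil))) (.g (nat_lit 0) (.e (nat_lit 443967) (nat_lit 0) .nil) .nil)))))))))))))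

noncomputable def tv5655 : DT := (.nd (nat_lit 0) (.nd (nat_lit 1) (.nd (nat_lit 2) (.nd (nat_lit 3) (.nd (nat_lit 4) (.nd (nat_lit 5) (.nd (nat_lit 6) (.nd (nat_lit 7) (.nd (nat_lit 8) (.nd (nat_lit 9) 
(.lf (nat_lit 609280) (.g (nat_lit 1755) (.e (nat_lit 704738) (nat_lit 11) (.e (nat_lit 16463) (nat_lit 13) (.e (nat_lit 483410) (nat_lit 27) (.e (nat_lit 401448) (nat_lit 10) (.e (nat_lit 434291) (nat_lit 44) .nil))))) (.g (nat_lit 0) (.e (nat_lit 443968) (nat_lit 0) .nil) .nil))) 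
(.lf (nat_lit 609792) (.g (nat_lit 3241) (.e (nat_lit 720909) (nat_lit 11) (.e (nat_lit 426137) (nat_lit 3) (.e (nat_lit 204869) (nat_lit 29) (.e (nat_lit 360474) (nat_lit 8) (.e (nat_lit 557089) (nat_lit 12) (.e (nat_lit 171776) (nat_lit 48) .nil)))))) (.g (nat_lit 1) (.e (nat_lit 445404) (nat_lit 0) .nil) .nil)))) (.nd (nat_lit 9) 
(.lf (nat_lit 609536) (.g (nat_lit 1815) (.e (nat_lit 712753) (nat_lit 30) (.e (nat_lit 450579) (nat_lit 5) (.e (nat_lit 532504) (nat_lit 1) (.e (nat_lit 57651) (nat_lit 152) (.e (nat_lit 2635) (nat_lit 165) (.e (nat_lit 188160) (nat_lit 27) .nil)))))) (.g (nat_lit 1) (.e (nat_lit 444701) (nat_lit 0) .nil) .nil))) 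
(.lf (nat_lit 610048) (.g (nat_lit 1759) (.e (nat_lit 745491) (nat_lit 4) (.e (nat_lit 65620) (nat_lit 10) (.e (nat_lit 344138) (nat_lit 29) (.e (nat_lit 581653) (nat_lit 6) (.e (nat_lit 188440) (nat_lit 20) (.e (nat_lit 3578) (nat_lit 223) .nil)))))) (.g (nat_lit 1) (.e (nat_lit 447002) (nat_lit 0) .nil) .nil))))) (.nd (nat_lit 8) (.nd (nat_lit 9) 
(.lf (nat_lit 609408) (.g (nat_lit 1330) (.e (nat_lit 712745) (nat_lit 27) (.e (nat_lit 426347) (nat_lit 14) (.e (nat_lit 491571) (nat_lit 13) (.e (nat_lit 393266) (nat_lit 23) (.e (nat_lit 426411) (nat_lit 15) .nil))))) (.g (nat_lit 0) (.e (nat_lit 444514) (nat_lit 0) .nil) .nil))) 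
(.lf (nat_lit 609920) (.g (nat_lit 2207) (.e (nat_lit 729098) (nat_lit 11) (.e (nat_lit 426124) (nat_lit 2) (.e (nat_lit 196666) (nat_lit 13) (.e (nat_lit 65617) (nat_lit 10) .nil)))) (.g (nat_lit 0) (.e (nat_lit 446158) (nat_lit 0) .nil) .nil)))) 
(.lf (nat_lit 609664) (.g (nat_lit 1447) (.e (nat_lit 712761) (nat_lit 34) (.e (nat_lit 483380) (nat_lit 23) (.e (nat_lit 336316) (nat_lit 17) .nil))) (.g (nat_lit 0) (.e (nat_lit 444880) (nat_lit 0) .nil) .nil))))) (.nd (nat_lit 7) (.nd (nat_lit 8) (.nd (nat_lit 9) 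
(.lf (nat_lit 609344) (.g (nat_lit 908) (.e (nat_lit 712742) (nat_lit 27) (.e (nat_lit 426173) (nat_lit 7) (.e (nat_lit 409616) (nat_lit 10) (.e (nat_lit 7936) (nat_lit 300) .nil)))) (.g (nat_lit 0) (.e (nat_lit 444391) (nat_lit 0) .nil) .nil))) 
(.lf (nat_lit 609856) (.g (nat_lit 3849) (.e (nat_lit 720938) (nat_lit 22) (.e (nat_lit 90160) (nat_lit 11) (.e (nat_lit 24665) (nat_lit 14) (.e (nat_lit 401414) (nat_lit 0) (.e (nat_lit 3272) (nat_lit 199) (.e (nat_lit 548898) (nat_lit 14) (.e (nat_lit 3063) (nat_lit 190) (.e (nat_lit 475212) (nat_lit 42) .nil)))))))) (.g (nat_lit 1) (.e (nat_lit 445939) (nat_lit 0) .nil) .nil)))) 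
(.lf (nat_lit 609600) (.g (nat_lit 2699) (.e (nat_lit 712754) (nat_lit 30) (.e (nat_lit 450588) (nat_lit 10) (.e (nat_lit 573475) (nat_lit 12) (.e (nat_lit 57505) (nat_lit 39) .nil)))) (.g (nat_lit 0) (.e (nat_lit 444777) (nat_lit 0) .nil) .nil)))) (.nd (nat_lit 8) (.nd (nat_lit 9) 
(.lf (nat_lit 609472) (.g (nat_lit 1135) (.e (nat_lit 712751) (nat_lit 29) (.e (nat_lit 442421) (nat_lit 21) (.e (nat_lit 164346) (nat_lit 240) (.e (nat_lit 2648) (nat_lit 166) .nil)))) (.g (nat_lit 0) (.e (nat_lit 444610) (nat_lit 0) .nil) .nil))) 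
(.lf (nat_lit 609984) (.g (nat_lit 969) (.e (nat_lit 737318) (nat_lit 15) (.e (nat_lit 49189) (nat_lit 11) (.e (nat_lit 16425) (nat_lit 7) (.e (nat_lit 409644) (nat_lit 18) .nil)))) (.g (nat_lit 0) (.e (nat_lit 446923) (nat_lit 0) .nil) .nil)))) 
(.lf (nat_lit 609728) (.g (nat_lit 2992) (.e (nat_lit 720908) (nat_lit 11) (.e (nat_lit 426139) (nat_lit 3) (.e (nat_lit 204869) (nat_lit 29) (.e (nat_lit 360474) (nat_lit 8) (.e (nat_lit 557094) (nat_lit 12) (.e (nat_lit 171776) (nat_lit 48) .nil)))))) (.g (nat_lit 1) (.e (nat_lit 445228) (nat_lit 0) .nil) .nil)))))) (.nd (nat_lit 6) (.nd (nat_lit 7) (.nd (nat_lit 8) (.nd (nat_lit 9) 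
(.lf (nat_lit 609312) (.g (nat_lit 1104) (.e (nat_lit 704754) (nat_lit 12) (.e (nat_lit 57479) (nat_lit 28) (.e (nat_lit 557094) (nat_lit 12) .nil))) (.g (nat_lit 0) (.e (nat_lit 444075) (nat_lit 0) .nil) .nil))) 
(.lf (nat_lit 609824) (.g (nat_lit 1766) (.e (nat_lit 720909) (nat_lit 11) (.e (nat_lit 426198) (nat_lit 9) (.e (nat_lit 426550) (nat_lit 31) (.e (nat_lit 368656) (nat_lit 14) (.e (nat_lit 57813) (nat_lit 246) (.e (nat_lit 57610) (nat_lit 109) .nil)))))) (.g (nat_lit 1) (.e (nat_lit 445457) (nat_lit 0) .nil) .nil)))) 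
(.lf (nat_lit 609568) (.g (nat_lit 3194) (.e (nat_lit 712753) (nat_lit 30) (.e (nat_lit 450586) (nat_lit 10) (.e (nat_lit 573473) (nat_lit 12) (.e (nat_lit 57508) (nat_lit 39) (.e (nat_lit 647199) (nat_lit 11) (.e (nat_lit 16388) (nat_lit 0) (.e (nat_lit 3544) (nat_lit 219) .nil))))))) (.g (nat_lit 1) (.e (nat_lit 444733) (nat_lit 0) .nil) .nil)))) (.nd (nat_lit 8) (.nd (nat_lit 9) 
(.lf (nat_lit 609440) (.g (nat_lit 1642) (.e (nat_lit 712750) (nat_lit 29) (.e (nat_lit 442421) (nat_lit 21) (.e (nat_lit 164346) (nat_lit 240) (.e (nat_lit 2648) (nat_lit 166) (.e (nat_lit 188418) (nat_lit 0) .nil))))) (.g (nat_lit 0) (.e (nat_lit 444565) (nat_lit 0) .nil) .nil))) 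
(.lf (nat_lit 609952) (.g (nat_lit 1612) (.e (nat_lit 737300) (nat_lit 7) (.e (nat_lit 286749) (nat_lit 9) (.e (nat_lit 336013) (nat_lit 2) (.e (nat_lit 98048) (nat_lit 0) .nil)))) (.g (nat_lit 0) (.e (nat_lit 446856) (nat_lit 0) .nil) .nil)))) 
(.lf (nat_lit 609696) (.g (nat_lit 3377) (.e (nat_lit 720908) (nat_lit 11) (.e (nat_lit 426122) (nat_lit 2) (.e (nat_lit 196666) (nat_lit 13) (.e (nat_lit 65610) (nat_lit 10) (.e (nat_lit 344129) (nat_lit 26) (.e (nat_lit 557090) (nat_lit 12) (.e (nat_lit 171776) (nat_lit 48) .nil))))))) (.g (nat_lit 1) (.e (nat_lit 445191) (nat_lit 0) .nil) .nil))))) 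
(.nd (nat_lit 7) (.nd (nat_lit 8) (.nd (nat_lit 9) 
(.lf (nat_lit 609376) (.g (nat_lit 3266) (.e (nat_lit 712745) (nat_lit 27) (.e (nat_lit 426347) (nat_lit 14) (.e (nat_lit 491569) (nat_lit 13) (.e (nat_lit 393271) (nat_lit 23) (.e (nat_lit 426405) (nat_lit 15) .nil))))) (.g (nat_lit 0) (.e (nat_lit 444479) (nat_lit 0) .nil) .nil))) 
(.lf (nat_lit 609888) (.g (nat_lit 1227) (.e (nat_lit 720949) (nat_lit 24) (.e (nat_lit 106536) (nat_lit 11) (.e (nat_lit 16425) (nat_lit 7) .nil))) (.g (nat_lit 0) (.e (nat_lit 445989) (nat_lit 0) .nil) .nil)))) 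
(.lf (nat_lit 609632) (.g (nat_lit 3049) (.e (nat_lit 712755) (nat_lit 30) (.e (nat_lit 450588) (nat_lit 10) (.e (nat_lit 573473) (nat_lit 12) (.e (nat_lit 57503) (nat_lit 38) (.e (nat_lit 638985) (nat_lit 5) (.e (nat_lit 2884) (nat_lit 184) (.e (nat_lit 426025) (nat_lit 0) (.e (nat_lit 3543) (nat_lit 219) .nil)))))))) (.g (nat_lit 1) (.e (nat_lit 444819) (nat_lit 0) .nil) .nil)))) 
(.nd (nat_lit 8) (.nd (nat_lit 9) 
(.lf (nat_lit 609504) (.g (nat_lit 1530) (.e (nat_lit 712753) (nat_lit 30) (.e (nat_lit 450565) (nat_lit 0) (.e (nat_lit 5546) (nat_lit 306) (.e (nat_lit 2618) (nat_lit 164) (.e (nat_lit 172118) (nat_lit 12) .nil))))) (.g (nat_lit 0) (.e (nat_lit 444668) (nat_lit 0) .nil) .nil))) 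
(.lf (nat_lit 610016) (.g (nat_lit 1986) (.e (nat_lit 745491) (nat_lit 4) (.e (nat_lit 65610) (nat_lit 10) (.e (nat_lit 344138) (nat_lit 29) (.e (nat_lit 581653) (nat_lit 6) (.e (nat_lit 188441) (nat_lit 20) (.e (nat_lit 3578) (nat_lit 223) .nil)))))) (.g (nat_lit 1) (.e (nat_lit 446961) (nat_lit 0) .nil) .nil)))) 
(.lf (nat_lit 609760) (.g (nat_lit 976) (.e (nat_lit 720909) (nat_lit 11) (.e (nat_lit 426124) (nat_lit 2) (.e (nat_lit 196666) (nat_lit 13) (.e (nat_lit 65617) (nat_lit 10) .nil)))) (.g (nat_lit 0) (.e (nat_lit 445344) (nat_lit 0) .nil) .nil))))))) (.nd (nat_lit 5) (.nd (nat_lit 6) (.nd (nat_lit 7) (.nd (nat_lit 8) (.nd (nat_lit 9) 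
(.lf (nat_lit 609296) (.g (nat_lit 2086) (.e (nat_lit 704741) (nat_lit 11) (.e (nat_lit 16416) (nat_lit 3) (.e (nat_lit 204861) (nat_lit 26) (.e (nat_lit 336194) (nat_lit 12) (.e (nat_lit 385068) (nat_lit 26) .nil))))) (.g (nat_lit 0) (.e (nat_lit 444006) (nat_lit 0) .nil) .nil))) 
(.lf (nat_lit 609808) (.g (nat_lit 2405) (.e (nat_lit 720909) (nat_lit 11) (.e (nat_lit 426139) (nat_lit 3) (.e (nat_lit 204868) (nat_lit 29) (.e (nat_lit 360473) (nat_lit 8) (.e (nat_lit 557093) (nat_lit 12) (.e (nat_lit 171776) (nat_lit 48) .nil)))))) (.g (nat_lit 1) (.e (nat_lit 445427) (nat_lit 0) .nil) .nil)))) 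
(.lf (nat_lit 609552) (.g (nat_lit 1993) (.e (nat_lit 712753) (nat_lit 30) (.e (nat_lit 450580) (nat_lit 5) (.e (nat_lit 532501) (nat_lit 1) (.e (nat_lit 57663) (nat_lit 152) (.e (nat_lit 2725) (nat_lit 172) .nil))))) (.g (nat_lit 0) (.e (nat_lit 444717) (nat_lit 0) .nil) .nil)))) (.nd (nat_lit 8) (.nd (nat_lit 9) 
(.lf (nat_lit 609424) (.g (nat_lit 3252) (.e (nat_lit 712745) (nat_lit 27) (.e (nat_lit 426347) (nat_lit 14) (.e (nat_lit 491571) (nat_lit 13) (.e (nat_lit 393271) (nat_lit 23) (.e (nat_lit 426376) (nat_lit 15) .nil))))) (.g (nat_lit 0) (.e (nat_lit 444531) (nat_lit 0) .nil) .nil))) 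
(.lf (nat_lit 609936) (.g (nat_lit 1019) (.e (nat_lit 737281) (nat_lit 0) (.e (nat_lit 5410) (nat_lit 303) (.e (nat_lit 73750) (nat_lit 6) (.e (nat_lit 540724) (nat_lit 28) (.e (nat_lit 442399) (nat_lit 20) (.e (nat_lit 3572) (nat_lit 222) .nil)))))) (.g (nat_lit 1) (.e (nat_lit 446690) (nat_lit 0) .nil) .nil)))) 
(.lf (nat_lit 609680) (.g (nat_lit 1039) (.e (nat_lit 728832) (nat_lit 4) (.e (nat_lit 213032) (nat_lit 11) (.e (nat_lit 24660) (nat_lit 13) (.e (nat_lit 393290) (nat_lit 26) .nil)))) (.g (nat_lit 0) (.e (nat_lit 445003) (nat_lit 0) .nil) .nil))))) (.nd (nat_lit 7) (.nd (nat_lit 8) (.nd (nat_lit 9) 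
(.lf (nat_lit 609360) (.g (nat_lit 47) (.e (nat_lit 712745) (nat_lit 27) (.e (nat_lit 425984) (nat_lit 0) (.e (nat_lit 7588) (nat_lit 406) .nil))) (.g (nat_lit 0) (.e (nat_lit 444457) (nat_lit 0) .nil) .nil))) 
(.lf (nat_lit 609872) (.g (nat_lit 923) (.e (nat_lit 720944) (nat_lit 23) (.e (nat_lit 98356) (nat_lit 26) (.e (nat_lit 426428) (nat_lit 17) .nil))) (.g (nat_lit 0) (.e (nat_lit 445958) (nat_lit 0) .nil) .nil)))) 
(.lf (nat_lit 609616) (.g (nat_lit 2286) (.e (nat_lit 712755) (nat_lit 30) (.e (nat_lit 450564) (nat_lit 0) (.e (nat_lit 5547) (nat_lit 306) (.e (nat_lit 2628) (nat_lit 164) (.e (nat_lit 172120) (nat_lit 12) .nil))))) (.g (nat_lit 0) (.e (nat_lit 444798) (nat_lit 0) .nil) .nil)))) (.nd (nat_lit 8) (.nd (nat_lit 9) 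
(.lf (nat_lit 609488) (.g (nat_lit 2432) (.e (nat_lit 712752) (nat_lit 29) (.e (nat_lit 442428) (nat_lit 24) (.e (nat_lit 229663) (nat_lit 240) (.e (nat_lit 2630) (nat_lit 164) (.e (nat_lit 172118) (nat_lit 12) .nil))))) (.g (nat_lit 0) (.e (nat_lit 444643) (nat_lit 0) .nil) .nil))) 
(.lf (nat_lit 610000) (.g (nat_lit 1660) (.e (nat_lit 745486) (nat_lit 3) (.e (nat_lit 57464) (nat_lit 23) (.e (nat_lit 516160) (nat_lit 10) (.e (nat_lit 434247) (nat_lit 28) (.e (nat_lit 573485) (nat_lit 13) .nil))))) (.g (nat_lit 0) (.e (nat_lit 446942) (nat_lit 0) .nil) .nil)))) 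
(.lf (nat_lit 609744) (.g (nat_lit 3583) (.e (nat_lit 720909) (nat_lit 11) (.e (nat_lit 426122) (nat_lit 2) (.e (nat_lit 196666) (nat_lit 13) (.e (nat_lit 65610) (nat_lit 10) (.e (nat_lit 344129) (nat_lit 26) (.e (nat_lit 557090) (nat_lit 12) (.e (nat_lit 171776) (nat_lit 48) .nil))))))) (.g (nat_lit 1) (.e (nat_lit 445323) (nat_lit 0) .nil) .nil)))))) 
(.nd (nat_lit 6) (.nd (nat_lit 7) (.nd (nat_lit 8) (.nd (nat_lit 9) 
(.lf (nat_lit 609328) (.g (nat_lit 2686) (.e (nat_lit 712728) (nat_lit 18) (.e (nat_lit 204863) (nat_lit 27) (.e (nat_lit 344129) (nat_lit 26) (.e (nat_lit 557097) (nat_lit 13) (.e (nat_lit 179968) (nat_lit 18) .nil))))) (.g (nat_lit 0) (.e (nat_lit 444236) (nat_lit 0) .nil) .nil))) 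
(.lf (nat_lit 609840) (.g (nat_lit 1780) (.e (nat_lit 720929) (nat_lit 21) (.e (nat_lit 57927) (nat_lit 282) (.e (nat_lit 163933) (nat_lit 17) (.e (nat_lit 466977) (nat_lit 22) (.e (nat_lit 196656) (nat_lit 11) .nil))))) (.g (nat_lit 0) (.e (nat_lit 445908) (nat_lit 0) .nil) .nil)))) 
(.lf (nat_lit 609584) (.g (nat_lit 2625) (.e (nat_lit 712753) (nat_lit 30) (.e (nat_lit 450586) (nat_lit 10) (.e (nat_lit 573475) (nat_lit 12) (.e (nat_lit 57509) (nat_lit 39) (.e (nat_lit 647199) (nat_lit 11) (.e (nat_lit 16388) (nat_lit 0) (.e (nat_lit 3548) (nat_lit 219) .nil))))))) (.g (nat_lit 1) (.e (nat_lit 444749) (nat_lit 0) .nil) .nil)))) (.nd (nat_lit 8) (.nd (nat_lit 9) 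
(.lf (nat_lit 609456) (.g (nat_lit 1140) (.e (nat_lit 712750) (nat_lit 29) (.e (nat_lit 442430) (nat_lit 24) (.e (nat_lit 229664) (nat_lit 240) (.e (nat_lit 2725) (nat_lit 172) .nil)))) (.g (nat_lit 0) (.e (nat_lit 444589) (nat_lit 0) .nil) .nil))) 
(.lf (nat_lit 609968) (.g (nat_lit 1389) (.e (nat_lit 737300) (nat_lit 7) (.e (nat_lit 286756) (nat_lit 10) (.e (nat_lit 344138) (nat_lit 29) (.e (nat_lit 581653) (nat_lit 6) (.e (nat_lit 188430) (nat_lit 20) (.e (nat_lit 3571) (nat_lit 222) .nil)))))) (.g (nat_lit 1) (.e (nat_lit 446895) (nat_lit 0) .nil) .nil)))) 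
(.lf (nat_lit 609712) (.g (nat_lit 2929) (.e (nat_lit 720908) (nat_lit 11) (.e (nat_lit 426137) (nat_lit 3) (.e (nat_lit 204869) (nat_lit 29) (.e (nat_lit 360474) (nat_lit 8) (.e (nat_lit 557091) (nat_lit 12) (.e (nat_lit 171776) (nat_lit 48) .nil)))))) (.g (nat_lit 1) (.e (nat_lit 445212) (nat_lit 0) .nil) .nil))))) (.nd (nat_lit 7) (.nd (nat_lit 8) (.nd (nat_lit 9) 
(.lf (nat_lit 609392) (.g (nat_lit 2839) (.e (nat_lit 712745) (nat_lit 27) (.e (nat_lit 426347) (nat_lit 14) (.e (nat_lit 491570) (nat_lit 13) (.e (nat_lit 393271) (nat_lit 23) (.e (nat_lit 426379) (nat_lit 15) .nil))))) (.g (nat_lit 0) (.e (nat_lit 444496) (nat_lit 0) .nil) .nil))) 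
(.lf (nat_lit 609904) (.g (nat_lit 2354) (.e (nat_lit 737024) (nat_lit 4) (.e (nat_lit 213032) (nat_lit 11) (.e (nat_lit 24655) (nat_lit 13) (.e (nat_lit 393296) (nat_lit 26) (.e (nat_lit 475215) (nat_lit 43) .nil))))) (.g (nat_lit 0) (.e (nat_lit 446043) (nat_lit 0) .nil) .nil)))) 
(.lf (nat_lit 609648) (.g (nat_lit 3175) (.e (nat_lit 712755) (nat_lit 30) (.e (nat_lit 450588) (nat_lit 10) (.e (nat_lit 573475) (nat_lit 12) (.e (nat_lit 57504) (nat_lit 38) (.e (nat_lit 638999) (nat_lit 8) (.e (nat_lit 172036) (nat_lit 0) (.e (nat_lit 3543) (nat_lit 219) .nil))))))) (.g (nat_lit 1) (.e (nat_lit 444835) (nat_lit 0) .nil) .nil)))) (.nd (nat_lit 8) (.nd (nat_lit 9) 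
(.lf (nat_lit 609520) (.g (nat_lit 2107) (.e (nat_lit 712753) (nat_lit 30) (.e (nat_lit 450579) (nat_lit 5) (.e (nat_lit 532499) (nat_lit 1) (.e (nat_lit 57655) (nat_lit 152) (.e (nat_lit 2636) (nat_lit 165) (.e (nat_lit 188160) (nat_lit 27) .nil)))))) (.g (nat_lit 1) (.e (nat_lit 444685) (nat_lit 0) .nil) .nil))) 
(.lf (nat_lit 610032) (.g (nat_lit 2063) (.e (nat_lit 745491) (nat_lit 4) (.e (nat_lit 65617) (nat_lit 10) (.e (nat_lit 344138) (nat_lit 29) (.e (nat_lit 581653) (nat_lit 6) (.e (nat_lit 188440) (nat_lit 20) (.e (nat_lit 3578) (nat_lit 223) .nil)))))) (.g (nat_lit 1) (.e (nat_lit 446981) (nat_lit 0) .nil) .nil)))) 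
(.lf (nat_lit 609776) (.g (nat_lit 2625) (.e (nat_lit 720909) (nat_lit 11) (.e (nat_lit 426133) (nat_lit 3) (.e (nat_lit 204868) (nat_lit 29) (.e (nat_lit 360473) (nat_lit 8) (.e (nat_lit 557089) (nat_lit 12) (.e (nat_lit 171776) (nat_lit 48) .nil)))))) (.g (nat_lit 1) (.e (nat_lit 445382) (nat_lit 0) .nil) .nil)))))))) 
(.nd (nat_lit 4) (.nd (nat_lit 5) (.nd (nat_lit 6) (.nd (nat_lit 7) (.nd (nat_lit 8) 
(.nd (nat_lit 9) 
(.lf (nat_lit 609288) (.g (nat_lit 2995) (.e (nat_lit 704739) (nat_lit 11) (.e (nat_lit 16473) (nat_lit 14) (.e (nat_lit 491526) (nat_lit 0) (.e (nat_lit 2270) (nat_lit 149) .nil)))) (.g (nat_lit 0) (.e (nat_lit 443985) (nat_lit 0) .nil) .nil))) 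
(.lf (nat_lit 609800) (.g (nat_lit 3352) (.e (nat_lit 720909) (nat_lit 11) (.e (nat_lit 426138) (nat_lit 3) (.e (nat_lit 204869) (nat_lit 29) (.e (nat_lit 360474) (nat_lit 8) (.e (nat_lit 557089) (nat_lit 12) (.e (nat_lit 171776) (nat_lit 48) .nil)))))) (.g (nat_lit 1) (.e (nat_lit 445412) (nat_lit 0) .nil) .nil)))) (.nd (nat_lit 9) 
(.lf (nat_lit 609544) (.g (nat_lit 2359) (.e (nat_lit 712753) (nat_lit 30) (.e (nat_lit 450579) (nat_lit 5) (.e (nat_lit 532504) (nat_lit 1) (.e (nat_lit 57670) (nat_lit 152) (.e (nat_lit 2629) (nat_lit 164) (.e (nat_lit 172051) (nat_lit 0) (.e (nat_lit 7936) (nat_lit 219) .nil))))))) (.g (nat_lit 1) (.e (nat_lit 444709) (nat_lit 0) .nil) .nil))) 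
(.lf (nat_lit 610056) (.g (nat_lit 3300) (.e (nat_lit 745509) (nat_lit 11) (.e (nat_lit 24660) (nat_lit 13) (.e (nat_lit 393260) (nat_lit 21) (.e (nat_lit 409649) (nat_lit 18) (.e (nat_lit 303111) (nat_lit 0) (.e (nat_lit 3578) (nat_lit 223) .nil)))))) (.g (nat_lit 1) (.e (nat_lit 447046) (nat_lit 0) .nil) .nil))))) (.nd (nat_lit 8) (.nd (nat_lit 9) 
(.lf (nat_lit 609416) (.g (nat_lit 2888) (.e (nat_lit 712745) (nat_lit 27) (.e (nat_lit 426347) (nat_lit 14) (.e (nat_lit 491571) (nat_lit 13) (.e (nat_lit 393268) (nat_lit 23) (.e (nat_lit 426376) (nat_lit 15) (.e (nat_lit 2175) (nat_lit 143) .nil)))))) (.g (nat_lit 1) (.e (nat_lit 444523) (nat_lit 0) .nil) .nil))) 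
(.lf (nat_lit 609928) (.g (nat_lit 2962) (.e (nat_lit 729099) (nat_lit 12) (.e (nat_lit 434230) (nat_lit 23) (.e (nat_lit 532550) (nat_lit 12) (.e (nat_lit 360474) (nat_lit 8) (.e (nat_lit 557094) (nat_lit 12) (.e (nat_lit 171776) (nat_lit 49) .nil)))))) (.g (nat_lit 1) (.e (nat_lit 446222) (nat_lit 0) .nil) .nil)))) 
(.lf (nat_lit 609672) (.g (nat_lit 753) (.e (nat_lit 728832) (nat_lit 4) (.e (nat_lit 213030) (nat_lit 11) (.e (nat_lit 24631) (nat_lit 9) .nil))) (.g (nat_lit 0) (.e (nat_lit 444991) (nat_lit 0) .nil) .nil))))) (.nd (nat_lit 7) (.nd (nat_lit 8) (.nd (nat_lit 9) 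
(.lf (nat_lit 609352) (.g (nat_lit 2933) (.e (nat_lit 712742) (nat_lit 27) (.e (nat_lit 426338) (nat_lit 14) (.e (nat_lit 491570) (nat_lit 13) (.e (nat_lit 393291) (nat_lit 26) (.e (nat_lit 475210) (nat_lit 41) .nil))))) (.g (nat_lit 1) (.e (nat_lit 444420) (nat_lit 0) .nil) .nil))) 
(.lf (nat_lit 609864) (.g (nat_lit 1217) (.e (nat_lit 720942) (nat_lit 23) (.e (nat_lit 98333) (nat_lit 18) (.e (nat_lit 164325) (nat_lit 230) .nil))) (.g (nat_lit 0) (.e (nat_lit 445948) (nat_lit 0) .nil) .nil)))) 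
(.lf (nat_lit 609608) (.g (nat_lit 2523) (.e (nat_lit 712754) (nat_lit 30) (.e (nat_lit 450588) (nat_lit 10) (.e (nat_lit 573503) (nat_lit 18) (.e (nat_lit 1349) (nat_lit 102) (.e (nat_lit 286739) (nat_lit 7) .nil))))) (.g (nat_lit 0) (.e (nat_lit 444785) (nat_lit 0) .nil) .nil)))) (.nd (nat_lit 8) (.nd (nat_lit 9) 
(.lf (nat_lit 609480) (.g (nat_lit 606) (.e (nat_lit 712751) (nat_lit 29) (.e (nat_lit 442430) (nat_lit 24) (.e (nat_lit 229681) (nat_lit 244) .nil))) (.g (nat_lit 0) (.e (nat_lit 444627) (nat_lit 0) .nil) .nil))) 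
(.lf (nat_lit 609992) (.g (nat_lit 4434) (.e (nat_lit 737317) (nat_lit 14) (.e (nat_lit 40995) (nat_lit 11) (.e (nat_lit 24665) (nat_lit 14) (.e (nat_lit 401448) (nat_lit 10) (.e (nat_lit 434275) (nat_lit 39) (.e (nat_lit 663585) (nat_lit 12) (.e (nat_lit 171776) (nat_lit 50) .nil))))))) (.g (nat_lit 1) (.e (nat_lit 446931) (nat_lit 0) .nil) .nil)))) 
(.lf (nat_lit 609736) (.g (nat_lit 3251) (.e (nat_lit 720909) (nat_lit 11) (.e (nat_lit 426116) (nat_lit 2) (.e (nat_lit 196666) (nat_lit 13) (.e (nat_lit 65617) (nat_lit 10) (.e (nat_lit 344130) (nat_lit 26) (.e (nat_lit 557090) (nat_lit 12) (.e (nat_lit 171776) (nat_lit 48) .nil))))))) (.g (nat_lit 1) (.e (nat_lit 445313) (nat_lit 0) .nil) .nil)))))) 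
(.nd (nat_lit 6) (.nd (nat_lit 7) (.nd (nat_lit 8) (.nd (nat_lit 9) 
(.lf (nat_lit 609320) (.g (nat_lit 2444) (.e (nat_lit 712719) (nat_lit 15) (.e (nat_lit 3238) (nat_lit 197) (.e (nat_lit 532543) (nat_lit 10) (.e (nat_lit 344133) (nat_lit 26) (.e (nat_lit 557103) (nat_lit 14) (.e (nat_lit 188160) (nat_lit 3) (.e (nat_lit 516106) (nat_lit 0) (.e (nat_lit 7936) (nat_lit 219) .nil)))))))) (.g (nat_lit 1) (.e (nat_lit 444115) (nat_lit 0) .nil) .nil))) 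
(.lf (nat_lit 609832) (.g (nat_lit 1916) (.e (nat_lit 720909) (nat_lit 11) (.e (nat_lit 426200) (nat_lit 9) (.e (nat_lit 426550) (nat_lit 31) (.e (nat_lit 368656) (nat_lit 14) (.e (nat_lit 57814) (nat_lit 246) (.e (nat_lit 57610) (nat_lit 109) .nil)))))) (.g (nat_lit 1) (.e (nat_lit 445484) (nat_lit 0) .nil) .nil)))) 
(.lf (nat_lit 609576) (.g (nat_lit 4064) (.e (nat_lit 712753) (nat_lit 30) (.e (nat_lit 450586) (nat_lit 10) (.e (nat_lit 573475) (nat_lit 12) (.e (nat_lit 57503) (nat_lit 38) (.e (nat_lit 638998) (nat_lit 8) (.e (nat_lit 172035) (nat_lit 0) (.e (nat_lit 3547) (nat_lit 219) .nil))))))) (.g (nat_lit 1) (.e (nat_lit 444741) (nat_lit 0) .nil) .nil)))) (.nd (nat_lit 8) (.nd (nat_lit 9) 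
(.lf (nat_lit 609448) (.g (nat_lit 2543) (.e (nat_lit 712750) (nat_lit 29) (.e (nat_lit 442421) (nat_lit 21) (.e (nat_lit 164348) (nat_lit 240) (.e (nat_lit 2619) (nat_lit 164) (.e (nat_lit 172118) (nat_lit 12) .nil))))) (.g (nat_lit 0) (.e (nat_lit 444576) (nat_lit 0) .nil) .nil))) 
(.lf (nat_lit 609960) (.g (nat_lit 1732) (.e (nat_lit 737300) (nat_lit 7) (.e (nat_lit 286754) (nat_lit 10) (.e (nat_lit 344138) (nat_lit 29) (.e (nat_lit 581653) (nat_lit 6) (.e (nat_lit 188431) (nat_lit 20) (.e (nat_lit 3567) (nat_lit 222) .nil)))))) (.g (nat_lit 1) (.e (nat_lit 446877) (nat_lit 0) .nil) .nil)))) 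
(.lf (nat_lit 609704) (.g (nat_lit 2207) (.e (nat_lit 720908) (nat_lit 11) (.e (nat_lit 426124) (nat_lit 2) (.e (nat_lit 196666) (nat_lit 13) (.e (nat_lit 65617) (nat_lit 10) .nil)))) (.g (nat_lit 0) (.e (nat_lit 445199) (nat_lit 0) .nil) .nil))))) (.nd (nat_lit 7) (.nd (nat_lit 8) (.nd (nat_lit 9) 
(.lf (nat_lit 609384) (.g (nat_lit 420) (.e (nat_lit 712745) (nat_lit 27) (.e (nat_lit 426347) (nat_lit 14) (.e (nat_lit 491570) (nat_lit 13) .nil))) (.g (nat_lit 0) (.e (nat_lit 444488) (nat_lit 0) .nil) .nil))) 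
(.lf (nat_lit 609896) (.g (nat_lit 2185) (.e (nat_lit 720954) (nat_lit 25) (.e (nat_lit 114698) (nat_lit 11) (.e (nat_lit 426179) (nat_lit 8) (.e (nat_lit 417828) (nat_lit 18) (.e (nat_lit 303143) (nat_lit 12) .nil))))) (.g (nat_lit 0) (.e (nat_lit 446004) (nat_lit 0) .nil) .nil)))) 
(.lf (nat_lit 609640) (.g (nat_lit 3663) (.e (nat_lit 712755) (nat_lit 30) (.e (nat_lit 450588) (nat_lit 10) (.e (nat_lit 573474) (nat_lit 12) (.e (nat_lit 57506) (nat_lit 39) (.e (nat_lit 647201) (nat_lit 12) (.e (nat_lit 57574) (nat_lit 55) (.e (nat_lit 778455) (nat_lit 10) (.e (nat_lit 8356) (nat_lit 88) .nil)))))))) (.g (nat_lit 1) (.e (nat_lit 444827) (nat_lit 0) .nil) .nil)))) 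
(.nd (nat_lit 8) (.nd (nat_lit 9) 
(.lf (nat_lit 609512) (.g (nat_lit 2561) (.e (nat_lit 712753) (nat_lit 30) (.e (nat_lit 450565) (nat_lit 0) (.e (nat_lit 5548) (nat_lit 306) (.e (nat_lit 2648) (nat_lit 166) (.e (nat_lit 188420) (nat_lit 0) (.e (nat_lit 2175) (nat_lit 143) .nil)))))) (.g (nat_lit 1) (.e (nat_lit 444677) (nat_lit 0) .nil) .nil))) 
(.lf (nat_lit 610024) (.g (nat_lit 1203) (.e (nat_lit 745491) (nat_lit 4) (.e (nat_lit 65616) (nat_lit 10) (.e (nat_lit 344138) (nat_lit 29) (.e (nat_lit 581653) (nat_lit 6) (.e (nat_lit 188438) (nat_lit 20) (.e (nat_lit 3578) (nat_lit 223) .nil)))))) (.g (nat_lit 1) (.e (nat_lit 446972) (nat_lit 0) .nil) .nil)))) 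
(.lf (nat_lit 609768) (.g (nat_lit 3876) (.e (nat_lit 720909) (nat_lit 11) (.e (nat_lit 426124) (nat_lit 2) (.e (nat_lit 196674) (nat_lit 15) (.e (nat_lit 81946) (nat_lit 20) (.e (nat_lit 1858) (nat_lit 124) (.e (nat_lit 557089) (nat_lit 12) (.e (nat_lit 171776) (nat_lit 48) .nil))))))) (.g (nat_lit 1) (.e (nat_lit 445361) (nat_lit 0) .nil) .nil))))))) 
(.nd (nat_lit 5) (.nd (nat_lit 6) (.nd (nat_lit 7) (.nd (nat_lit 8) (.nd (nat_lit 9) 
(.lf (nat_lit 609304) (.g (nat_lit 1387) (.e (nat_lit 704742) (nat_lit 11) (.e (nat_lit 16466) (nat_lit 13) (.e (nat_lit 483413) (nat_lit 27) .nil))) (.g (nat_lit 0) (.e (nat_lit 444030) (nat_lit 0) .nil) .nil))) 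
(.lf (nat_lit 609816) (.g (nat_lit 1819) (.e (nat_lit 720909) (nat_lit 11) (.e (nat_lit 426188) (nat_lit 9) (.e (nat_lit 426550) (nat_lit 31) (.e (nat_lit 368656) (nat_lit 14) (.e (nat_lit 57809) (nat_lit 246) (.e (nat_lit 57610) (nat_lit 109) .nil)))))) (.g (nat_lit 1) (.e (nat_lit 445441) (nat_lit 0) .nil) .nil)))) 
(.lf (nat_lit 609560) (.g (nat_lit 2552) (.e (nat_lit 712753) (nat_lit 30) (.e (nat_lit 450586) (nat_lit 10) (.e (nat_lit 573473) (nat_lit 12) (.e (nat_lit 57508) (nat_lit 39) (.e (nat_lit 647195) (nat_lit 9) (.e (nat_lit 426) (nat_lit 32) (.e (nat_lit 426009) (nat_lit 0) (.e (nat_lit 3544) (nat_lit 219) .nil)))))))) (.g (nat_lit 1) (.e (nat_lit 444725) (nat_lit 0) .nil) .nil)))) 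
(.nd (nat_lit 8) (.nd (nat_lit 9) 
(.lf (nat_lit 609432) (.g (nat_lit 2717) (.e (nat_lit 712747) (nat_lit 28) (.e (nat_lit 434289) (nat_lit 43) (.e (nat_lit 696344) (nat_lit 8) (.e (nat_lit 172067) (nat_lit 3) (.e (nat_lit 204838) (nat_lit 20) .nil))))) (.g (nat_lit 0) (.e (nat_lit 444543) (nat_lit 0) .nil) .nil))) 
(.lf (nat_lit 609944) (.g (nat_lit 587) (.e (nat_lit 737284) (nat_lit 0) (.e (nat_lit 5413) (nat_lit 303) (.e (nat_lit 73750) (nat_lit 6) (.e (nat_lit 540724) (nat_lit 28) (.e (nat_lit 442396) (nat_lit 20) (.e (nat_lit 3571) (nat_lit 222) .nil)))))) (.g (nat_lit 1) (.e (nat_lit 446803) (nat_lit 0) .nil) .nil)))) 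
(.lf (nat_lit 609688) (.g (nat_lit 3462) (.e (nat_lit 720907) (nat_lit 11) (.e (nat_lit 426129) (nat_lit 3) (.e (nat_lit 204869) (nat_lit 29) (.e (nat_lit 360475) (nat_lit 8) (.e (nat_lit 557091) (nat_lit 12) (.e (nat_lit 171776) (nat_lit 48) .nil)))))) (.g (nat_lit 1) (.e (nat_lit 445141) (nat_lit 0) .nil) .nil))))) (.nd (nat_lit 7) (.nd (nat_lit 8) (.nd (nat_lit 9) 
(.lf (nat_lit 609368) (.g (nat_lit 3645) (.e (nat_lit 712745) (nat_lit 27) (.e (nat_lit 426347) (nat_lit 14) (.e (nat_lit 491549) (nat_lit 9) (.e (nat_lit 336430) (nat_lit 29) (.e (nat_lit 442379) (nat_lit 0) (.e (nat_lit 2175) (nat_lit 143) .nil)))))) (.g (nat_lit 1) (.e (nat_lit 444469) (nat_lit 0) .nil) .nil))) 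
(.lf (nat_lit 609880) (.g (nat_lit 2750) (.e (nat_lit 720945) (nat_lit 23) (.e (nat_lit 98356) (nat_lit 26) (.e (nat_lit 426438) (nat_lit 18) (.e (nat_lit 98335) (nat_lit 18) (.e (nat_lit 164305) (nat_lit 226) (.e (nat_lit 2604) (nat_lit 163) (.e (nat_lit 163962) (nat_lit 25) (.e (nat_lit 532483) (nat_lit 0) (.e (nat_lit 2198) (nat_lit 144) .nil))))))))) (.g (nat_lit 1) (.e (nat_lit 445974) (nat_lit 0) .nil) .nil)))) 
(.lf (nat_lit 609624) (.g (nat_lit 2155) (.e (nat_lit 712755) (nat_lit 30) (.e (nat_lit 450568) (nat_lit 0) (.e (nat_lit 5448) (nat_lit 306) (.e (nat_lit 2653) (nat_lit 166) (.e (nat_lit 188418) (nat_lit 0) (.e (nat_lit 2175) (nat_lit 143) .nil)))))) (.g (nat_lit 1) (.e (nat_lit 444811) (nat_lit 0) .nil) .nil)))) (.nd (nat_lit 8) (.nd (nat_lit 9) 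
(.lf (nat_lit 609496) (.g (nat_lit 418) (.e (nat_lit 712753) (nat_lit 30) (.e (nat_lit 450561) (nat_lit 0) (.e (nat_lit 5537) (nat_lit 306) .nil))) (.g (nat_lit 0) (.e (nat_lit 444656) (nat_lit 0) .nil) .nil))) 
(.lf (nat_lit 610008) (.g (nat_lit 1686) (.e (nat_lit 745490) (nat_lit 4) (.e (nat_lit 65619) (nat_lit 10) (.e (nat_lit 344138) (nat_lit 29) (.e (nat_lit 581653) (nat_lit 6) (.e (nat_lit 188439) (nat_lit 20) .nil))))) (.g (nat_lit 0) (.e (nat_lit 446950) (nat_lit 0) .nil) .nil)))) 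
(.lf (nat_lit 609752) (.g (nat_lit 2385) (.e (nat_lit 720909) (nat_lit 11) (.e (nat_lit 426123) (nat_lit 2) (.e (nat_lit 196666) (nat_lit 13) (.e (nat_lit 65617) (nat_lit 10) (.e (nat_lit 344130) (nat_lit 26) (.e (nat_lit 557089) (nat_lit 12) (.e (nat_lit 171776) (nat_lit 48) .nil))))))) (.g (nat_lit 1) (.e (nat_lit 445333) (nat_lit 0) .nil) .nil)))))) 
(.nd (nat_lit 6) (.nd (nat_lit 7) (.nd (nat_lit 8) (.nd (nat_lit 9) 
(.lf (nat_lit 609336) (.g (nat_lit 1836) (.e (nat_lit 712739) (nat_lit 27) (.e (nat_lit 426171) (nat_lit 7) (.e (nat_lit 409646) (nat_lit 18) (.e (nat_lit 311040) (nat_lit 35) .nil)))) (.g (nat_lit 0) (.e (nat_lit 444331) (nat_lit 0) .nil) .nil))) 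
(.lf (nat_lit 609848) (.g (nat_lit 3161) (.e (nat_lit 720932) (nat_lit 21) (.e (nat_lit 57692) (nat_lit 156) (.e (nat_lit 163869) (nat_lit 2) (.e (nat_lit 196654) (nat_lit 11) (.e (nat_lit 16458) (nat_lit 12) .nil))))) (.g (nat_lit 0) (.e (nat_lit 445922) (nat_lit 0) .nil) .nil)))) 
(.lf (nat_lit 609592) (.g (nat_lit 2974) (.e (nat_lit 712754) (nat_lit 30) (.e (nat_lit 450588) (nat_lit 10) (.e (nat_lit 573473) (nat_lit 12) (.e (nat_lit 57504) (nat_lit 38) (.e (nat_lit 638999) (nat_lit 8) .nil))))) (.g (nat_lit 0) (.e (nat_lit 444764) (nat_lit 0) .nil) .nil)))) (.nd (nat_lit 8) (.nd (nat_lit 9) 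
(.lf (nat_lit 609464) (.g (nat_lit 440) (.e (nat_lit 712750) (nat_lit 29) (.e (nat_lit 442430) (nat_lit 24) (.e (nat_lit 229680) (nat_lit 244) .nil))) (.g (nat_lit 0) (.e (nat_lit 444598) (nat_lit 0) .nil) .nil))) 
(.lf (nat_lit 609976) (.g (nat_lit 2937) (.e (nat_lit 737318) (nat_lit 15) (.e (nat_lit 49187) (nat_lit 11) (.e (nat_lit 16425) (nat_lit 7) (.e (nat_lit 409646) (nat_lit 18) (.e (nat_lit 303133) (nat_lit 9) (.e (nat_lit 426412) (nat_lit 15) (.e (nat_lit 2233) (nat_lit 146) .nil))))))) (.g (nat_lit 1) (.e (nat_lit 446914) (nat_lit 0) .nil) .nil)))) 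
(.lf (nat_lit 609720) (.g (nat_lit 3104) (.e (nat_lit 720908) (nat_lit 11) (.e (nat_lit 426138) (nat_lit 3) (.e (nat_lit 204869) (nat_lit 29) (.e (nat_lit 360474) (nat_lit 8) (.e (nat_lit 557091) (nat_lit 12) (.e (nat_lit 171776) (nat_lit 48) .nil)))))) (.g (nat_lit 1) (.e (nat_lit 445220) (nat_lit 0) .nil) .nil))))) (.nd (nat_lit 7) (.nd (nat_lit 8) (.nd (nat_lit 9) 
(.lf (nat_lit 609400) (.g (nat_lit 1468) (.e (nat_lit 712745) (nat_lit 27) (.e (nat_lit 426347) (nat_lit 14) (.e (nat_lit 491570) (nat_lit 13) (.e (nat_lit 393279) (nat_lit 23) .nil)))) (.g (nat_lit 0) (.e (nat_lit 444505) (nat_lit 0) .nil) .nil))) 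
(.lf (nat_lit 609912) (.g (nat_lit 3062) (.e (nat_lit 729096) (nat_lit 11) (.e (nat_lit 426121) (nat_lit 2) (.e (nat_lit 196666) (nat_lit 13) (.e (nat_lit 65610) (nat_lit 10) (.e (nat_lit 344129) (nat_lit 26) (.e (nat_lit 557090) (nat_lit 12) (.e (nat_lit 171776) (nat_lit 49) .nil))))))) (.g (nat_lit 1) (.e (nat_lit 446135) (nat_lit 0) .nil) .nil)))) 
(.lf (nat_lit 609656) (.g (nat_lit 1726) (.e (nat_lit 712755) (nat_lit 30) (.e (nat_lit 450597) (nat_lit 17) (.e (nat_lit 663589) (nat_lit 14) (.e (nat_lit 2817) (nat_lit 181) (.e (nat_lit 311339) (nat_lit 12) (.e (nat_lit 475207) (nat_lit 41) .nil)))))) (.g (nat_lit 1) (.e (nat_lit 444843) (nat_lit 0) .nil) .nil)))) (.nd (nat_lit 8) (.nd (nat_lit 9) 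
(.lf (nat_lit 609528) (.g (nat_lit 1969) (.e (nat_lit 712753) (nat_lit 30) (.e (nat_lit 450579) (nat_lit 5) (.e (nat_lit 532501) (nat_lit 1) (.e (nat_lit 57663) (nat_lit 152) (.e (nat_lit 7936) (nat_lit 165) (.e (nat_lit 188160) (nat_lit 27) .nil)))))) (.g (nat_lit 1) (.e (nat_lit 444693) (nat_lit 0) .nil) .nil))) 
(.lf (nat_lit 610040) (.g (nat_lit 1917) (.e (nat_lit 745491) (nat_lit 4) (.e (nat_lit 65619) (nat_lit 10) (.e (nat_lit 344138) (nat_lit 29) (.e (nat_lit 581653) (nat_lit 6) (.e (nat_lit 188439) (nat_lit 20) (.e (nat_lit 3578) (nat_lit 223) .nil)))))) (.g (nat_lit 1) (.e (nat_lit 446992) (nat_lit 0) .nil) .nil)))) 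
(.lf (nat_lit 609784) (.g (nat_lit 3846) (.e (nat_lit 720909) (nat_lit 11) (.e (nat_lit 426133) (nat_lit 3) (.e (nat_lit 204869) (nat_lit 29) (.e (nat_lit 360474) (nat_lit 8) (.e (nat_lit 557093) (nat_lit 12) (.e (nat_lit 171776) (nat_lit 48) .nil)))))) (.g (nat_lit 1) (.e (nat_lit 445390) (nat_lit 0) .nil) .nil))))))))) 
(.nd (nat_lit 3) (.nd (nat_lit 4) (.nd (nat_lit 5) (.nd (nat_lit 6) (.nd (nat_lit 7) 
(.nd (nat_lit 8) (.nd (nat_lit 9) 
(.lf (nat_lit 609284) (.g (nat_lit 2242) (.e (nat_lit 704738) (nat_lit 11) (.e (nat_lit 16466) (nat_lit 13) (.e (nat_lit 483344) (nat_lit 17) (.e (nat_lit 6722) (nat_lit 362) (.e (nat_lit 180272) (nat_lit 26) .nil))))) (.g (nat_lit 1) (.e (nat_lit 443974) (nat_lit 0) .nil) .nil))) 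
(.lf (nat_lit 609796) (.g (nat_lit 3463) (.e (nat_lit 720909) (nat_lit 11) (.e (nat_lit 426137) (nat_lit 3) (.e (nat_lit 204869) (nat_lit 29) (.e (nat_lit 360475) (nat_lit 8) (.e (nat_lit 557091) (nat_lit 12) (.e (nat_lit 171776) (nat_lit 48) .nil)))))) (.g (nat_lit 1) (.e (nat_lit 445408) (nat_lit 0) .nil) .nil)))) (.nd (nat_lit 9) 
(.lf (nat_lit 609540) (.g (nat_lit 2039) (.e (nat_lit 712753) (nat_lit 30) (.e (nat_lit 450579) (nat_lit 5) (.e (nat_lit 532504) (nat_lit 1) (.e (nat_lit 57651) (nat_lit 152) (.e (nat_lit 2640) (nat_lit 165) (.e (nat_lit 188160) (nat_lit 27) .nil)))))) (.g (nat_lit 1) (.e (nat_lit 444705) (nat_lit 0) .nil) .nil))) 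
(.lf (nat_lit 610052) (.g (nat_lit 4453) (.e (nat_lit 745509) (nat_lit 11) (.e (nat_lit 24617) (nat_lit 7) (.e (nat_lit 319533) (nat_lit 16) (.e (nat_lit 286762) (nat_lit 14) (.e (nat_lit 401454) (nat_lit 12) (.e (nat_lit 475221) (nat_lit 45) .nil)))))) (.g (nat_lit 1) (.e (nat_lit 447041) (nat_lit 0) .nil) .nil))))) (.nd (nat_lit 8) (.nd (nat_lit 9) 
(.lf (nat_lit 609412) (.g (nat_lit 1990) (.e (nat_lit 712745) (nat_lit 27) (.e (nat_lit 426347) (nat_lit 14) (.e (nat_lit 491571) (nat_lit 13) (.e (nat_lit 393267) (nat_lit 23) (.e (nat_lit 426382) (nat_lit 15) .nil))))) (.g (nat_lit 0) (.e (nat_lit 444518) (nat_lit 0) .nil) .nil))) 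
(.lf (nat_lit 609924) (.g (nat_lit 2240) (.e (nat_lit 729098) (nat_lit 11) (.e (nat_lit 426138) (nat_lit 3) (.e (nat_lit 204869) (nat_lit 29) (.e (nat_lit 360474) (nat_lit 8) (.e (nat_lit 557094) (nat_lit 12) (.e (nat_lit 171776) (nat_lit 49) .nil)))))) (.g (nat_lit 1) (.e (nat_lit 446167) (nat_lit 0) .nil) .nil)))) 
(.lf (nat_lit 609668) (.g (nat_lit 1799) (.e (nat_lit 712761) (nat_lit 34) (.e (nat_lit 483413) (nat_lit 27) (.e (nat_lit 401414) (nat_lit 0) (.e (nat_lit 3238) (nat_lit 197) .nil)))) (.g (nat_lit 0) (.e (nat_lit 444948) (nat_lit 0) .nil) .nil))))) (.nd (nat_lit 7) (.nd (nat_lit 8) (.nd (nat_lit 9) 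
(.lf (nat_lit 609348) (.g (nat_lit 423) (.e (nat_lit 712742) (nat_lit 27) (.e (nat_lit 426338) (nat_lit 14) (.e (nat_lit 491570) (nat_lit 13) .nil))) (.g (nat_lit 0) (.e (nat_lit 444416) (nat_lit 0) .nil) .nil))) 
(.lf (nat_lit 609860) (.g (nat_lit 4073) (.e (nat_lit 720941) (nat_lit 22) (.e (nat_lit 90160) (nat_lit 11) (.e (nat_lit 24665) (nat_lit 14) (.e (nat_lit 401414) (nat_lit 0) (.e (nat_lit 3238) (nat_lit 197) (.e (nat_lit 532565) (nat_lit 15) (.e (nat_lit 392960) (nat_lit 42) .nil))))))) (.g (nat_lit 1) (.e (nat_lit 445944) (nat_lit 0) .nil) .nil)))) 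
(.lf (nat_lit 609604) (.g (nat_lit 2737) (.e (nat_lit 712754) (nat_lit 30) (.e (nat_lit 450588) (nat_lit 10) (.e (nat_lit 573475) (nat_lit 12) (.e (nat_lit 57508) (nat_lit 39) (.e (nat_lit 647195) (nat_lit 9) .nil))))) (.g (nat_lit 0) (.e (nat_lit 444781) (nat_lit 0) .nil) .nil)))) (.nd (nat_lit 8) (.nd (nat_lit 9) 
(.lf (nat_lit 609476) (.g (nat_lit 1846) (.e (nat_lit 712751) (nat_lit 29) (.e (nat_lit 442421) (nat_lit 21) (.e (nat_lit 164348) (nat_lit 240) (.e (nat_lit 2648) (nat_lit 166) .nil)))) (.g (nat_lit 0) (.e (nat_lit 444620) (nat_lit 0) .nil) .nil))) 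
(.lf (nat_lit 609988) (.g (nat_lit 2978) (.e (nat_lit 737318) (nat_lit 15) (.e (nat_lit 49189) (nat_lit 11) (.e (nat_lit 16425) (nat_lit 7) (.e (nat_lit 409649) (nat_lit 18) (.e (nat_lit 303143) (nat_lit 12) (.e (nat_lit 475219) (nat_lit 44) .nil)))))) (.g (nat_lit 1) (.e (nat_lit 446927) (nat_lit 0) .nil) .nil)))) 
(.lf (nat_lit 609732) (.g (nat_lit 3321) (.e (nat_lit 720909) (nat_lit 11) (.e (nat_lit 426114) (nat_lit 2) (.e (nat_lit 196666) (nat_lit 13) (.e (nat_lit 65610) (nat_lit 10) (.e (nat_lit 344129) (nat_lit 26) (.e (nat_lit 557090) (nat_lit 12) (.e (nat_lit 171776) (nat_lit 48) .nil))))))) (.g (nat_lit 1) (.e (nat_lit 445307) (nat_lit 0) .nil) .nil)))))) 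
(.nd (nat_lit 6) (.nd (nat_lit 7) (.nd (nat_lit 8) (.nd (nat_lit 9) 
(.lf (nat_lit 609316) (.g (nat_lit 3026) (.e (nat_lit 712706) (nat_lit 0) (.e (nat_lit 1788) (nat_lit 119) (.e (nat_lit 516185) (nat_lit 16) (.e (nat_lit 491560) (nat_lit 10) (.e (nat_lit 344118) (nat_lit 21) .nil))))) (.g (nat_lit 0) (.e (nat_lit 444092) (nat_lit 0) .nil) .nil))) 
(.lf (nat_lit 609828) (.g (nat_lit 2587) (.e (nat_lit 720909) (nat_lit 11) (.e (nat_lit 426200) (nat_lit 9) (.e (nat_lit 425986) (nat_lit 0) (.e (nat_lit 3471) (nat_lit 217) (.e (nat_lit 696343) (nat_lit 8) (.e (nat_lit 172113) (nat_lit 10) (.e (nat_lit 442112) (nat_lit 46) .nil))))))) (.g (nat_lit 1) (.e (nat_lit 445468) (nat_lit 0) .nil) .nil)))) 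
(.lf (nat_lit 609572) (.g (nat_lit 3037) (.e (nat_lit 712753) (nat_lit 30) (.e (nat_lit 450586) (nat_lit 10) (.e (nat_lit 573473) (nat_lit 12) (.e (nat_lit 57511) (nat_lit 39) (.e (nat_lit 647199) (nat_lit 11) (.e (nat_lit 16388) (nat_lit 0) (.e (nat_lit 3548) (nat_lit 219) .nil))))))) (.g (nat_lit 1) (.e (nat_lit 444737) (nat_lit 0) .nil) .nil)))) (.nd (nat_lit 8) (.nd (nat_lit 9) 
(.lf (nat_lit 609444) (.g (nat_lit 2218) (.e (nat_lit 712750) (nat_lit 29) (.e (nat_lit 442421) (nat_lit 21) (.e (nat_lit 164347) (nat_lit 240) (.e (nat_lit 2650) (nat_lit 166) (.e (nat_lit 188419) (nat_lit 0) .nil))))) (.g (nat_lit 0) (.e (nat_lit 444572) (nat_lit 0) .nil) .nil))) 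
(.lf (nat_lit 609956) (.g (nat_lit 1241) (.e (nat_lit 737300) (nat_lit 7) (.e (nat_lit 286753) (nat_lit 10) (.e (nat_lit 344138) (nat_lit 29) (.e (nat_lit 581653) (nat_lit 6) (.e (nat_lit 188430) (nat_lit 20) (.e (nat_lit 3571) (nat_lit 222) .nil)))))) (.g (nat_lit 1) (.e (nat_lit 446868) (nat_lit 0) .nil) .nil)))) 
(.lf (nat_lit 609700) (.g (nat_lit 2411) (.e (nat_lit 720908) (nat_lit 11) (.e (nat_lit 426122) (nat_lit 2) (.e (nat_lit 196666) (nat_lit 13) (.e (nat_lit 65617) (nat_lit 10) (.e (nat_lit 344133) (nat_lit 26) (.e (nat_lit 557092) (nat_lit 12) (.e (nat_lit 171776) (nat_lit 48) .nil))))))) (.g (nat_lit 1) (.e (nat_lit 445195) (nat_lit 0) .nil) .nil))))) 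
(.nd (nat_lit 7) (.nd (nat_lit 8) (.nd (nat_lit 9) 
(.lf (nat_lit 609380) (.g (nat_lit 1785) (.e (nat_lit 712745) (nat_lit 27) (.e (nat_lit 426347) (nat_lit 14) (.e (nat_lit 491569) (nat_lit 13) (.e (nat_lit 393281) (nat_lit 23) .nil)))) (.g (nat_lit 0) (.e (nat_lit 444484) (nat_lit 0) .nil) .nil))) 
(.lf (nat_lit 609892) (.g (nat_lit 1780) (.e (nat_lit 720951) (nat_lit 24) (.e (nat_lit 106536) (nat_lit 11) (.e (nat_lit 16425) (nat_lit 7) (.e (nat_lit 409647) (nat_lit 18) .nil)))) (.g (nat_lit 0) (.e (nat_lit 445995) (nat_lit 0) .nil) .nil)))) 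
(.lf (nat_lit 609636) (.g (nat_lit 3076) (.e (nat_lit 712755) (nat_lit 30) (.e (nat_lit 450588) (nat_lit 10) (.e (nat_lit 573473) (nat_lit 12) (.e (nat_lit 57508) (nat_lit 39) (.e (nat_lit 647201) (nat_lit 12) (.e (nat_lit 57575) (nat_lit 55) (.e (nat_lit 778455) (nat_lit 10) (.e (nat_lit 8356) (nat_lit 88) .nil)))))))) (.g (nat_lit 1) (.e (nat_lit 444823) (nat_lit 0) .nil) .nil)))) 
(.nd (nat_lit 8) (.nd (nat_lit 9) 
(.lf (nat_lit 609508) (.g (nat_lit 1405) (.e (nat_lit 712753) (nat_lit 30) (.e (nat_lit 450565) (nat_lit 0) (.e (nat_lit 5548) (nat_lit 306) (.e (nat_lit 2618) (nat_lit 164) .nil)))) (.g (nat_lit 0) (.e (nat_lit 444673) (nat_lit 0) .nil) .nil))) 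
(.lf (nat_lit 610020) (.g (nat_lit 1269) (.e (nat_lit 745491) (nat_lit 4) (.e (nat_lit 65611) (nat_lit 10) (.e (nat_lit 344138) (nat_lit 29) (.e (nat_lit 581653) (nat_lit 6) (.e (nat_lit 188438) (nat_lit 20) (.e (nat_lit 3578) (nat_lit 223) .nil)))))) (.g (nat_lit 1) (.e (nat_lit 446967) (nat_lit 0) .nil) .nil)))) 
(.lf (nat_lit 609764) (.g (nat_lit 2799) (.e (nat_lit 720909) (nat_lit 11) (.e (nat_lit 426124) (nat_lit 2) (.e (nat_lit 196666) (nat_lit 13) (.e (nat_lit 65617) (nat_lit 10) (.e (nat_lit 344133) (nat_lit 26) (.e (nat_lit 557089) (nat_lit 12) (.e (nat_lit 171776) (nat_lit 48) .nil))))))) (.g (nat_lit 1) (.e (nat_lit 445348) (nat_lit 0) .nil) .nil))))))) 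
(.nd (nat_lit 5) (.nd (nat_lit 6) (.nd (nat_lit 7) (.nd (nat_lit 8) (.nd (nat_lit 9) 
(.lf (nat_lit 609300) (.g (nat_lit 1529) (.e (nat_lit 704742) (nat_lit 11) (.e (nat_lit 16416) (nat_lit 3) (.e (nat_lit 204869) (nat_lit 29) .nil))) (.g (nat_lit 0) (.e (nat_lit 444026) (nat_lit 0) .nil) .nil))) 
(.lf (nat_lit 609812) (.g (nat_lit 3266) (.e (nat_lit 720909) (nat_lit 11) (.e (nat_lit 426139) (nat_lit 3) (.e (nat_lit 204869) (nat_lit 29) (.e (nat_lit 360474) (nat_lit 8) (.e (nat_lit 557094) (nat_lit 12) (.e (nat_lit 171776) (nat_lit 48) .nil)))))) (.g (nat_lit 1) (.e (nat_lit 445431) (nat_lit 0) .nil) .nil)))) 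
(.lf (nat_lit 609556) (.g (nat_lit 2642) (.e (nat_lit 712753) (nat_lit 30) (.e (nat_lit 450586) (nat_lit 10) (.e (nat_lit 573473) (nat_lit 12) (.e (nat_lit 57503) (nat_lit 38) (.e (nat_lit 638998) (nat_lit 8) (.e (nat_lit 172035) (nat_lit 0) (.e (nat_lit 3547) (nat_lit 219) .nil))))))) (.g (nat_lit 1) (.e (nat_lit 444721) (nat_lit 0) .nil) .nil)))) (.nd (nat_lit 8) (.nd (nat_lit 9) 
(.lf (nat_lit 609428) (.g (nat_lit 1710) (.e (nat_lit 712745) (nat_lit 27) (.e (nat_lit 426347) (nat_lit 14) (.e (nat_lit 491571) (nat_lit 13) (.e (nat_lit 393279) (nat_lit 23) .nil)))) (.g (nat_lit 0) (.e (nat_lit 444535) (nat_lit 0) .nil) .nil))) 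
(.lf (nat_lit 609940) (.g (nat_lit 442) (.e (nat_lit 737284) (nat_lit 0) (.e (nat_lit 5409) (nat_lit 303) (.e (nat_lit 73750) (nat_lit 6) (.e (nat_lit 540724) (nat_lit 28) (.e (nat_lit 442398) (nat_lit 20) (.e (nat_lit 3571) (nat_lit 222) .nil)))))) (.g (nat_lit 1) (.e (nat_lit 446763) (nat_lit 0) .nil) .nil)))) 
(.lf (nat_lit 609684) (.g (nat_lit 3530) (.e (nat_lit 720907) (nat_lit 11) (.e (nat_lit 426073) (nat_lit 0) (.e (nat_lit 3249) (nat_lit 197) (.e (nat_lit 532550) (nat_lit 12) (.e (nat_lit 360475) (nat_lit 8) (.e (nat_lit 557091) (nat_lit 12) (.e (nat_lit 171776) (nat_lit 48) .nil))))))) (.g (nat_lit 1) (.e (nat_lit 445136) (nat_lit 0) .nil) .nil))))) 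
(.nd (nat_lit 7) (.nd (nat_lit 8) (.nd (nat_lit 9) 
(.lf (nat_lit 609364) (.g (nat_lit 430) (.e (nat_lit 712745) (nat_lit 27) (.e (nat_lit 426347) (nat_lit 14) (.e (nat_lit 491549) (nat_lit 9) .nil))) (.g (nat_lit 0) (.e (nat_lit 444465) (nat_lit 0) .nil) .nil))) 
(.lf (nat_lit 609876) (.g (nat_lit 3177) (.e (nat_lit 720945) (nat_lit 23) (.e (nat_lit 98335) (nat_lit 18) (.e (nat_lit 164327) (nat_lit 230) (.e (nat_lit 163875) (nat_lit 3) (.e (nat_lit 204809) (nat_lit 9) (.e (nat_lit 426139) (nat_lit 3) (.e (nat_lit 204817) (nat_lit 17) (.e (nat_lit 2198) (nat_lit 144) .nil)))))))) (.g (nat_lit 1) (.e (nat_lit 445970) (nat_lit 0) .nil) .nil)))) 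
(.lf (nat_lit 609620) (.g (nat_lit 2044) (.e (nat_lit 712755) (nat_lit 30) (.e (nat_lit 450565) (nat_lit 0) (.e (nat_lit 5546) (nat_lit 306) (.e (nat_lit 2619) (nat_lit 164) (.e (nat_lit 172120) (nat_lit 12) .nil))))) (.g (nat_lit 0) (.e (nat_lit 444805) (nat_lit 0) .nil) .nil)))) (.nd (nat_lit 8) (.nd (nat_lit 9) 
(.lf (nat_lit 609492) (.g (nat_lit 2643) (.e (nat_lit 712752) (nat_lit 29) (.e (nat_lit 442430) (nat_lit 24) (.e (nat_lit 229677) (nat_lit 244) (.e (nat_lit 163903) (nat_lit 12) (.e (nat_lit 426320) (nat_lit 12) (.e (nat_lit 475209) (nat_lit 41) .nil)))))) (.g (nat_lit 1) (.e (nat_lit 444650) (nat_lit 0) .nil) .nil))) 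
(.lf (nat_lit 610004) (.g (nat_lit 1496) (.e (nat_lit 745489) (nat_lit 4) (.e (nat_lit 65619) (nat_lit 10) (.e (nat_lit 344138) (nat_lit 29) (.e (nat_lit 581653) (nat_lit 6) (.e (nat_lit 188439) (nat_lit 20) .nil))))) (.g (nat_lit 0) (.e (nat_lit 446946) (nat_lit 0) .nil) .nil)))) 
(.lf (nat_lit 609748) (.g (nat_lit 2860) (.e (nat_lit 720909) (nat_lit 11) (.e (nat_lit 426122) (nat_lit 2) (.e (nat_lit 196666) (nat_lit 13) (.e (nat_lit 65617) (nat_lit 10) (.e (nat_lit 344132) (nat_lit 26) (.e (nat_lit 557094) (nat_lit 12) (.e (nat_lit 171776) (nat_lit 48) .nil))))))) (.g (nat_lit 1) (.e (nat_lit 445327) (nat_lit 0) .nil) .nil)))))) 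
(.nd (nat_lit 6) (.nd (nat_lit 7) (.nd (nat_lit 8) (.nd (nat_lit 9) 
(.lf (nat_lit 609332) (.g (nat_lit 1993) (.e (nat_lit 712728) (nat_lit 18) (.e (nat_lit 204863) (nat_lit 27) (.e (nat_lit 344133) (nat_lit 26) (.e (nat_lit 557096) (nat_lit 13) .nil)))) (.g (nat_lit 0) (.e (nat_lit 444240) (nat_lit 0) .nil) .nil))) 
(.lf (nat_lit 609844) (.g (nat_lit 1305) (.e (nat_lit 720931) (nat_lit 21) (.e (nat_lit 57926) (nat_lit 282) (.e (nat_lit 163933) (nat_lit 17) (.e (nat_lit 466977) (nat_lit 22) .nil)))) (.g (nat_lit 0) (.e (nat_lit 445918) (nat_lit 0) .nil) .nil)))) 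
(.lf (nat_lit 609588) (.g (nat_lit 2644) (.e (nat_lit 712753) (nat_lit 30) (.e (nat_lit 450593) (nat_lit 16) (.e (nat_lit 655364) (nat_lit 0) (.e (nat_lit 2988) (nat_lit 186) (.e (nat_lit 442374) (nat_lit 0) (.e (nat_lit 2175) (nat_lit 143) .nil)))))) (.g (nat_lit 1) (.e (nat_lit 444753) (nat_lit 0) .nil) .nil)))) (.nd (nat_lit 8) (.nd (nat_lit 9) 
(.lf (nat_lit 609460) (.g (nat_lit 619) (.e (nat_lit 712750) (nat_lit 29) (.e (nat_lit 442430) (nat_lit 24) (.e (nat_lit 229678) (nat_lit 244) .nil))) (.g (nat_lit 0) (.e (nat_lit 444594) (nat_lit 0) .nil) .nil))) 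
(.lf (nat_lit 609972) (.g (nat_lit 2521) (.e (nat_lit 737303) (nat_lit 11) (.e (nat_lit 755) (nat_lit 66) (.e (nat_lit 704738) (nat_lit 11) (.e (nat_lit 16425) (nat_lit 7) (.e (nat_lit 409649) (nat_lit 18) .nil))))) (.g (nat_lit 0) (.e (nat_lit 446905) (nat_lit 0) .nil) .nil)))) 
(.lf (nat_lit 609716) (.g (nat_lit 1759) (.e (nat_lit 720908) (nat_lit 11) (.e (nat_lit 426138) (nat_lit 3) (.e (nat_lit 204868) (nat_lit 29) (.e (nat_lit 360473) (nat_lit 8) (.e (nat_lit 557089) (nat_lit 12) (.e (nat_lit 171776) (nat_lit 48) .nil)))))) (.g (nat_lit 1) (.e (nat_lit 445216) (nat_lit 0) .nil) .nil))))) (.nd (nat_lit 7) (.nd (nat_lit 8) (.nd (nat_lit 9) 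
(.lf (nat_lit 609396) (.g (nat_lit 2839) (.e (nat_lit 712745) (nat_lit 27) (.e (nat_lit 426347) (nat_lit 14) (.e (nat_lit 491570) (nat_lit 13) (.e (nat_lit 393271) (nat_lit 23) (.e (nat_lit 426420) (nat_lit 15) .nil))))) (.g (nat_lit 0) (.e (nat_lit 444500) (nat_lit 0) .nil) .nil))) 
(.lf (nat_lit 609908) (.g (nat_lit 3747) (.e (nat_lit 729095) (nat_lit 11) (.e (nat_lit 426136) (nat_lit 3) (.e (nat_lit 204869) (nat_lit 29) (.e (nat_lit 360475) (nat_lit 8) (.e (nat_lit 557091) (nat_lit 12) (.e (nat_lit 171776) (nat_lit 49) .nil)))))) (.g (nat_lit 1) (.e (nat_lit 446124) (nat_lit 0) .nil) .nil)))) 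
(.lf (nat_lit 609652) (.g (nat_lit 2934) (.e (nat_lit 712755) (nat_lit 30) (.e (nat_lit 450596) (nat_lit 17) (.e (nat_lit 663589) (nat_lit 14) (.e (nat_lit 2798) (nat_lit 180) (.e (nat_lit 303143) (nat_lit 12) (.e (nat_lit 475207) (nat_lit 41) .nil)))))) (.g (nat_lit 1) (.e (nat_lit 444839) (nat_lit 0) .nil) .nil)))) (.nd (nat_lit 8) (.nd (nat_lit 9) 
(.lf (nat_lit 609524) (.g (nat_lit 1888) (.e (nat_lit 712753) (nat_lit 30) (.e (nat_lit 450579) (nat_lit 5) (.e (nat_lit 532501) (nat_lit 1) (.e (nat_lit 57651) (nat_lit 152) (.e (nat_lit 2640) (nat_lit 165) (.e (nat_lit 188160) (nat_lit 27) .nil)))))) (.g (nat_lit 1) (.e (nat_lit 444689) (nat_lit 0) .nil) .nil))) 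
(.lf (nat_lit 610036) (.g (nat_lit 1489) (.e (nat_lit 745491) (nat_lit 4) (.e (nat_lit 65619) (nat_lit 10) (.e (nat_lit 344138) (nat_lit 29) (.e (nat_lit 581653) (nat_lit 6) (.e (nat_lit 188434) (nat_lit 20) (.e (nat_lit 3577) (nat_lit 223) .nil)))))) (.g (nat_lit 1) (.e (nat_lit 446988) (nat_lit 0) .nil) .nil)))) 
(.lf (nat_lit 609780) (.g (nat_lit 1308) (.e (nat_lit 720909) (nat_lit 11) (.e (nat_lit 426133) (nat_lit 3) (.e (nat_lit 204868) (nat_lit 29) (.e (nat_lit 360474) (nat_lit 8) .nil)))) (.g (nat_lit 0) (.e (nat_lit 445386) (nat_lit 0) .nil) .nil)))))))) (.nd (nat_lit 4) (.nd (nat_lit 5) (.nd (nat_lit 6) (.nd (nat_lit 7) (.nd (nat_lit 8) (.nd (nat_lit 9) 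
(.lf (nat_lit 609292) (.g (nat_lit 3411) (.e (nat_lit 704740) (nat_lit 11) (.e (nat_lit 16425) (nat_lit 7) (.e (nat_lit 409648) (nat_lit 18) (.e (nat_lit 303137) (nat_lit 10) (.e (nat_lit 434275) (nat_lit 39) (.e (nat_lit 663580) (nat_lit 9) (.e (nat_lit 2478) (nat_lit 157) (.e (nat_lit 7936) (nat_lit 218) .nil)))))))) (.g (nat_lit 1) (.e (nat_lit 443998) (nat_lit 0) .nil) .nil))) 
(.lf (nat_lit 609804) (.g (nat_lit 3445) (.e (nat_lit 720909) (nat_lit 11) (.e (nat_lit 426138) (nat_lit 3) (.e (nat_lit 204869) (nat_lit 29) (.e (nat_lit 360475) (nat_lit 8) (.e (nat_lit 557089) (nat_lit 12) (.e (nat_lit 171776) (nat_lit 48) .nil)))))) (.g (nat_lit 1) (.e (nat_lit 445416) (nat_lit 0) .nil) .nil)))) 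
(.lf (nat_lit 609548) (.g (nat_lit 2697) (.e (nat_lit 712753) (nat_lit 30) (.e (nat_lit 450580) (nat_lit 5) (.e (nat_lit 532499) (nat_lit 1) (.e (nat_lit 57655) (nat_lit 152) (.e (nat_lit 2636) (nat_lit 165) (.e (nat_lit 188160) (nat_lit 27) .nil)))))) (.g (nat_lit 1) (.e (nat_lit 444713) (nat_lit 0) .nil) .nil)))) (.nd (nat_lit 8) (.nd (nat_lit 9) 
(.lf (nat_lit 609420) (.g (nat_lit 2179) (.e (nat_lit 712745) (nat_lit 27) (.e (nat_lit 426347) (nat_lit 14) (.e (nat_lit 491571) (nat_lit 13) (.e (nat_lit 393269) (nat_lit 23) (.e (nat_lit 426377) (nat_lit 15) .nil))))) (.g (nat_lit 0) (.e (nat_lit 444527) (nat_lit 0) .nil) .nil))) 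
(.lf (nat_lit 609932) (.g (nat_lit 3292) (.e (nat_lit 729099) (nat_lit 12) (.e (nat_lit 434233) (nat_lit 23) (.e (nat_lit 532550) (nat_lit 12) (.e (nat_lit 360475) (nat_lit 8) (.e (nat_lit 557091) (nat_lit 12) (.e (nat_lit 171776) (nat_lit 49) .nil)))))) (.g (nat_lit 1) (.e (nat_lit 446228) (nat_lit 0) .nil) .nil)))) 
(.lf (nat_lit 609676) (.g (nat_lit 451) (.e (nat_lit 728832) (nat_lit 4) (.e (nat_lit 213030) (nat_lit 11) (.e (nat_lit 24657) (nat_lit 13) .nil))) (.g (nat_lit 0) (.e (nat_lit 444995) (nat_lit 0) .nil) .nil))))) (.nd (nat_lit 7) (.nd (nat_lit 8) (.nd (nat_lit 9) 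
(.lf (nat_lit 609356) (.g (nat_lit 3352) (.e (nat_lit 712742) (nat_lit 27) (.e (nat_lit 426338) (nat_lit 14) (.e (nat_lit 491571) (nat_lit 13) (.e (nat_lit 393291) (nat_lit 26) (.e (nat_lit 475209) (nat_lit 41) .nil))))) (.g (nat_lit 0) (.e (nat_lit 444434) (nat_lit 0) .nil) .nil))) 
(.lf (nat_lit 609868) (.g (nat_lit 2707) (.e (nat_lit 720944) (nat_lit 23) (.e (nat_lit 98333) (nat_lit 18) (.e (nat_lit 164325) (nat_lit 230) (.e (nat_lit 163873) (nat_lit 3) .nil)))) (.g (nat_lit 0) (.e (nat_lit 445953) (nat_lit 0) .nil) .nil)))) 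
(.lf (nat_lit 609612) (.g (nat_lit 1274) (.e (nat_lit 712755) (nat_lit 30) (.e (nat_lit 450563) (nat_lit 0) (.e (nat_lit 5537) (nat_lit 306) (.e (nat_lit 2625) (nat_lit 164) (.e (nat_lit 172118) (nat_lit 12) .nil))))) (.g (nat_lit 0) (.e (nat_lit 444794) (nat_lit 0) .nil) .nil)))) (.nd (nat_lit 8) (.nd (nat_lit 9) 
(.lf (nat_lit 609484) (.g (nat_lit 1657) (.e (nat_lit 712752) (nat_lit 29) (.e (nat_lit 442421) (nat_lit 21) (.e (nat_lit 164346) (nat_lit 240) (.e (nat_lit 2649) (nat_lit 166) (.e (nat_lit 188420) (nat_lit 0) .nil))))) (.g (nat_lit 0) (.e (nat_lit 444637) (nat_lit 0) .nil) .nil))) 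
(.lf (nat_lit 609996) (.g (nat_lit 1030) (.e (nat_lit 745475) (nat_lit 0) (.e (nat_lit 1598) (nat_lit 111) (.e (nat_lit 360477) (nat_lit 11) (.e (nat_lit 581635) (nat_lit 0) (.e (nat_lit 3015) (nat_lit 187) .nil))))) (.g (nat_lit 0) (.e (nat_lit 446935) (nat_lit 0) .nil) .nil)))) 
(.lf (nat_lit 609740) (.g (nat_lit 3302) (.e (nat_lit 720909) (nat_lit 11) (.e (nat_lit 426121) (nat_lit 2) (.e (nat_lit 196666) (nat_lit 13) (.e (nat_lit 65610) (nat_lit 10) (.e (nat_lit 344129) (nat_lit 26) (.e (nat_lit 557090) (nat_lit 12) (.e (nat_lit 171776) (nat_lit 48) .nil))))))) (.g (nat_lit 1) (.e (nat_lit 445319) (nat_lit 0) .nil) .nil)))))) 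
(.nd (nat_lit 6) (.nd (nat_lit 7) (.nd (nat_lit 8) (.nd (nat_lit 9) 
(.lf (nat_lit 609324) (.g (nat_lit 2411) (.e (nat_lit 712726) (nat_lit 17) (.e (nat_lit 196670) (nat_lit 14) (.e (nat_lit 73753) (nat_lit 8) (.e (nat_lit 557103) (nat_lit 14) (.e (nat_lit 188160) (nat_lit 3) (.e (nat_lit 516106) (nat_lit 0) (.e (nat_lit 7936) (nat_lit 219) .nil))))))) (.g (nat_lit 1) (.e (nat_lit 444165) (nat_lit 0) .nil) .nil))) 
(.lf (nat_lit 609836) (.g (nat_lit 2930) (.e (nat_lit 728832) (nat_lit 11) (.e (nat_lit 426123) (nat_lit 2) (.e (nat_lit 196666) (nat_lit 13) (.e (nat_lit 65617) (nat_lit 10) (.e (nat_lit 344132) (nat_lit 26) .nil))))) (.g (nat_lit 0) (.e (nat_lit 445654) (nat_lit 0) .nil) .nil)))) 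
(.lf (nat_lit 609580) (.g (nat_lit 2128) (.e (nat_lit 712753) (nat_lit 30) (.e (nat_lit 450586) (nat_lit 10) (.e (nat_lit 573475) (nat_lit 12) (.e (nat_lit 57507) (nat_lit 39) (.e (nat_lit 647199) (nat_lit 11) (.e (nat_lit 16388) (nat_lit 0) (.e (nat_lit 3548) (nat_lit 219) .nil))))))) (.g (nat_lit 1) (.e (nat_lit 444745) (nat_lit 0) .nil) .nil)))) (.nd (nat_lit 8) (.nd (nat_lit 9) 
(.lf (nat_lit 609452) (.g (nat_lit 816) (.e (nat_lit 712750) (nat_lit 29) (.e (nat_lit 442428) (nat_lit 24) (.e (nat_lit 229681) (nat_lit 244) (.e (nat_lit 163905) (nat_lit 12) .nil)))) (.g (nat_lit 0) (.e (nat_lit 444582) (nat_lit 0) .nil) .nil))) 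
(.lf (nat_lit 609964) (.g (nat_lit 1645) (.e (nat_lit 737300) (nat_lit 7) (.e (nat_lit 286755) (nat_lit 10) (.e (nat_lit 344138) (nat_lit 29) (.e (nat_lit 581653) (nat_lit 6) (.e (nat_lit 188431) (nat_lit 20) (.e (nat_lit 3567) (nat_lit 222) .nil)))))) (.g (nat_lit 1) (.e (nat_lit 446886) (nat_lit 0) .nil) .nil)))) 
(.lf (nat_lit 609708) (.g (nat_lit 1959) (.e (nat_lit 720908) (nat_lit 11) (.e (nat_lit 426133) (nat_lit 3) (.e (nat_lit 204868) (nat_lit 29) (.e (nat_lit 360473) (nat_lit 8) .nil)))) (.g (nat_lit 0) (.e (nat_lit 445208) (nat_lit 0) .nil) .nil))))) (.nd (nat_lit 7) (.nd (nat_lit 8) (.nd (nat_lit 9) 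
(.lf (nat_lit 609388) (.g (nat_lit 1580) (.e (nat_lit 712745) (nat_lit 27) (.e (nat_lit 426347) (nat_lit 14) (.e (nat_lit 491570) (nat_lit 13) (.e (nat_lit 393271) (nat_lit 23) .nil)))) (.g (nat_lit 0) (.e (nat_lit 444492) (nat_lit 0) .nil) .nil))) 
(.lf (nat_lit 609900) (.g (nat_lit 2335) (.e (nat_lit 720956) (nat_lit 25) (.e (nat_lit 114698) (nat_lit 11) (.e (nat_lit 426181) (nat_lit 8) (.e (nat_lit 417828) (nat_lit 18) (.e (nat_lit 303143) (nat_lit 12) .nil))))) (.g (nat_lit 0) (.e (nat_lit 446016) (nat_lit 0) .nil) .nil)))) 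
(.lf (nat_lit 609644) (.g (nat_lit 3533) (.e (nat_lit 712755) (nat_lit 30) (.e (nat_lit 450588) (nat_lit 10) (.e (nat_lit 573475) (nat_lit 12) (.e (nat_lit 57503) (nat_lit 38) (.e (nat_lit 638998) (nat_lit 8) (.e (nat_lit 172039) (nat_lit 0) (.e (nat_lit 3543) (nat_lit 219) .nil))))))) (.g (nat_lit 1) (.e (nat_lit 444831) (nat_lit 0) .nil) .nil)))) (.nd (nat_lit 8) (.nd (nat_lit 9) 
(.lf (nat_lit 609516) (.g (nat_lit 3228) (.e (nat_lit 712753) (nat_lit 30) (.e (nat_lit 450569) (nat_lit 0) (.e (nat_lit 5448) (nat_lit 306) (.e (nat_lit 2630) (nat_lit 164) (.e (nat_lit 172120) (nat_lit 12) (.e (nat_lit 475210) (nat_lit 41) .nil)))))) (.g (nat_lit 1) (.e (nat_lit 444681) (nat_lit 0) .nil) .nil))) 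
(.lf (nat_lit 610028) (.g (nat_lit 2145) (.e (nat_lit 745491) (nat_lit 4) (.e (nat_lit 65617) (nat_lit 10) (.e (nat_lit 344138) (nat_lit 29) (.e (nat_lit 581653) (nat_lit 6) (.e (nat_lit 188434) (nat_lit 20) (.e (nat_lit 3578) (nat_lit 223) .nil)))))) (.g (nat_lit 1) (.e (nat_lit 446977) (nat_lit 0) .nil) .nil)))) 
(.lf (nat_lit 609772) (.g (nat_lit 3918) (.e (nat_lit 720909) (nat_lit 11) (.e (nat_lit 426124) (nat_lit 2) (.e (nat_lit 196674) (nat_lit 15) (.e (nat_lit 81946) (nat_lit 20) (.e (nat_lit 1858) (nat_lit 124) (.e (nat_lit 557094) (nat_lit 12) (.e (nat_lit 171776) (nat_lit 48) .nil))))))) (.g (nat_lit 1) (.e (nat_lit 445365) (nat_lit 0) .nil) .nil))))))) 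
(.nd (nat_lit 5) (.nd (nat_lit 6) (.nd (nat_lit 7) (.nd (nat_lit 8) (.nd (nat_lit 9) 
(.lf (nat_lit 609308) (.g (nat_lit 1373) (.e (nat_lit 712448) (nat_lit 11) (.e (nat_lit 16425) (nat_lit 7) (.e (nat_lit 409649) (nat_lit 18) (.e (nat_lit 303140) (nat_lit 10) .nil)))) (.g (nat_lit 0) (.e (nat_lit 444040) (nat_lit 0) .nil) .nil))) 
(.lf (nat_lit 609820) (.g (nat_lit 1858) (.e (nat_lit 720909) (nat_lit 11) (.e (nat_lit 426188) (nat_lit 9) (.e (nat_lit 426550) (nat_lit 31) (.e (nat_lit 368656) (nat_lit 14) (.e (nat_lit 57816) (nat_lit 246) (.e (nat_lit 57610) (nat_lit 109) .nil)))))) (.g (nat_lit 1) (.e (nat_lit 445445) (nat_lit 0) .nil) .nil)))) 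
(.lf (nat_lit 609564) (.g (nat_lit 1990) (.e (nat_lit 712753) (nat_lit 30) (.e (nat_lit 450586) (nat_lit 10) (.e (nat_lit 573473) (nat_lit 12) (.e (nat_lit 57508) (nat_lit 39) (.e (nat_lit 647195) (nat_lit 9) (.e (nat_lit 426) (nat_lit 32) (.e (nat_lit 426010) (nat_lit 0) (.e (nat_lit 3546) (nat_lit 219) .nil)))))))) (.g (nat_lit 1) (.e (nat_lit 444729) (nat_lit 0) .nil) .nil)))) 
(.nd (nat_lit 8) (.nd (nat_lit 9) 
(.lf (nat_lit 609436) (.g (nat_lit 2090) (.e (nat_lit 712750) (nat_lit 29) (.e (nat_lit 442382) (nat_lit 8) (.e (nat_lit 155652) (nat_lit 0) (.e (nat_lit 2984) (nat_lit 186) (.e (nat_lit 442374) (nat_lit 0) (.e (nat_lit 2175) (nat_lit 143) .nil)))))) (.g (nat_lit 1) (.e (nat_lit 444559) (nat_lit 0) .nil) .nil))) 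
(.lf (nat_lit 609948) (.g (nat_lit 3919) (.e (nat_lit 737302) (nat_lit 10) (.e (nat_lit 311324) (nat_lit 9) (.e (nat_lit 426436) (nat_lit 18) (.e (nat_lit 98335) (nat_lit 18) (.e (nat_lit 164305) (nat_lit 226) (.e (nat_lit 2630) (nat_lit 164) (.e (nat_lit 172035) (nat_lit 0) (.e (nat_lit 3571) (nat_lit 222) .nil)))))))) (.g (nat_lit 1) (.e (nat_lit 446841) (nat_lit 0) .nil) .nil)))) 
(.lf (nat_lit 609692) (.g (nat_lit 1012) (.e (nat_lit 720907) (nat_lit 11) (.e (nat_lit 426230) (nat_lit 9) (.e (nat_lit 426549) (nat_lit 31) (.e (nat_lit 368656) (nat_lit 14) (.e (nat_lit 57815) (nat_lit 246) (.e (nat_lit 57610) (nat_lit 109) .nil)))))) (.g (nat_lit 1) (.e (nat_lit 445146) (nat_lit 0) .nil) .nil))))) (.nd (nat_lit 7) (.nd (nat_lit 8) (.nd (nat_lit 9) 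
(.lf (nat_lit 609372) (.g (nat_lit 320) (.e (nat_lit 712745) (nat_lit 27) (.e (nat_lit 426347) (nat_lit 14) (.e (nat_lit 491569) (nat_lit 13) .nil))) (.g (nat_lit 0) (.e (nat_lit 444475) (nat_lit 0) .nil) .nil))) 
(.lf (nat_lit 609884) (.g (nat_lit 2956) (.e (nat_lit 720945) (nat_lit 23) (.e (nat_lit 98384) (nat_lit 32) (.e (nat_lit 475179) (nat_lit 24) (.e (nat_lit 516117) (nat_lit 1) (.e (nat_lit 164305) (nat_lit 226) .nil))))) (.g (nat_lit 0) (.e (nat_lit 445982) (nat_lit 0) .nil) .nil)))) 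
(.lf (nat_lit 609628) (.g (nat_lit 3617) (.e (nat_lit 712755) (nat_lit 30) (.e (nat_lit 450587) (nat_lit 10) (.e (nat_lit 573475) (nat_lit 12) (.e (nat_lit 57503) (nat_lit 38) (.e (nat_lit 638999) (nat_lit 8) (.e (nat_lit 172035) (nat_lit 0) (.e (nat_lit 3543) (nat_lit 219) .nil))))))) (.g (nat_lit 1) (.e (nat_lit 444815) (nat_lit 0) .nil) .nil)))) (.nd (nat_lit 8) (.nd (nat_lit 9) 
(.lf (nat_lit 609500) (.g (nat_lit 1786) (.e (nat_lit 712753) (nat_lit 30) (.e (nat_lit 450564) (nat_lit 0) (.e (nat_lit 5546) (nat_lit 306) (.e (nat_lit 2629) (nat_lit 164) (.e (nat_lit 172118) (nat_lit 12) .nil))))) (.g (nat_lit 0) (.e (nat_lit 444661) (nat_lit 0) .nil) .nil))) 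
(.lf (nat_lit 610012) (.g (nat_lit 1660) (.e (nat_lit 745491) (nat_lit 4) (.e (nat_lit 65610) (nat_lit 10) (.e (nat_lit 344138) (nat_lit 29) (.e (nat_lit 581653) (nat_lit 6) (.e (nat_lit 188435) (nat_lit 20) (.e (nat_lit 3578) (nat_lit 223) .nil)))))) (.g (nat_lit 1) (.e (nat_lit 446957) (nat_lit 0) .nil) .nil)))) 
(.lf (nat_lit 609756) (.g (nat_lit 3574) (.e (nat_lit 720909) (nat_lit 11) (.e (nat_lit 426123) (nat_lit 2) (.e (nat_lit 196666) (nat_lit 13) (.e (nat_lit 65617) (nat_lit 10) (.e (nat_lit 344133) (nat_lit 26) (.e (nat_lit 557091) (nat_lit 12) (.e (nat_lit 171776) (nat_lit 48) .nil))))))) (.g (nat_lit 1) (.e (nat_lit 445337) (nat_lit 0) .nil) .nil)))))) 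
(.nd (nat_lit 6) (.nd (nat_lit 7) (.nd (nat_lit 8) (.nd (nat_lit 9) 
(.lf (nat_lit 609340) (.g (nat_lit 2174) (.e (nat_lit 712740) (nat_lit 27) (.e (nat_lit 426544) (nat_lit 30) (.e (nat_lit 360474) (nat_lit 8) (.e (nat_lit 557091) (nat_lit 12) .nil)))) (.g (nat_lit 0) (.e (nat_lit 444376) (nat_lit 0) .nil) .nil))) 
(.lf (nat_lit 609852) (.g (nat_lit 2153) (.e (nat_lit 720937) (nat_lit 22) (.e (nat_lit 90158) (nat_lit 11) (.e (nat_lit 24630) (nat_lit 9) (.e (nat_lit 336019) (nat_lit 3) (.e (nat_lit 98386) (nat_lit 32) .nil))))) (.g (nat_lit 0) (.e (nat_lit 445934) (nat_lit 0) .nil) .nil)))) 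
(.lf (nat_lit 609596) (.g (nat_lit 2815) (.e (nat_lit 712754) (nat_lit 30) (.e (nat_lit 450588) (nat_lit 10) (.e (nat_lit 573473) (nat_lit 12) (.e (nat_lit 57511) (nat_lit 39) (.e (nat_lit 647199) (nat_lit 11) (.e (nat_lit 16388) (nat_lit 0) (.e (nat_lit 3548) (nat_lit 219) .nil))))))) (.g (nat_lit 1) (.e (nat_lit 444768) (nat_lit 0) .nil) .nil)))) (.nd (nat_lit 8) (.nd (nat_lit 9) 
(.lf (nat_lit 609468) (.g (nat_lit 1826) (.e (nat_lit 712750) (nat_lit 29) (.e (nat_lit 442430) (nat_lit 24) (.e (nat_lit 229681) (nat_lit 244) (.e (nat_lit 163919) (nat_lit 14) (.e (nat_lit 442374) (nat_lit 0) (.e (nat_lit 2175) (nat_lit 143) .nil)))))) (.g (nat_lit 1) (.e (nat_lit 444602) (nat_lit 0) .nil) .nil))) 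
(.lf (nat_lit 609980) (.g (nat_lit 2683) (.e (nat_lit 737318) (nat_lit 15) (.e (nat_lit 49188) (nat_lit 11) (.e (nat_lit 16425) (nat_lit 7) (.e (nat_lit 409645) (nat_lit 18) (.e (nat_lit 303143) (nat_lit 12) (.e (nat_lit 475218) (nat_lit 44) .nil)))))) (.g (nat_lit 1) (.e (nat_lit 446919) (nat_lit 0) .nil) .nil)))) 
(.lf (nat_lit 609724) (.g (nat_lit 2402) (.e (nat_lit 720908) (nat_lit 11) (.e (nat_lit 426139) (nat_lit 3) (.e (nat_lit 204868) (nat_lit 29) (.e (nat_lit 360473) (nat_lit 8) (.e (nat_lit 557089) (nat_lit 12) (.e (nat_lit 171776) (nat_lit 48) .nil)))))) (.g (nat_lit 1) (.e (nat_lit 445224) (nat_lit 0) .nil) .nil))))) (.nd (nat_lit 7) (.nd (nat_lit 8) (.nd (nat_lit 9) 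
(.lf (nat_lit 609404) (.g (nat_lit 1506) (.e (nat_lit 712745) (nat_lit 27) (.e (nat_lit 426347) (nat_lit 14) (.e (nat_lit 491570) (nat_lit 13) (.e (nat_lit 393294) (nat_lit 26) .nil)))) (.g (nat_lit 0) (.e (nat_lit 444509) (nat_lit 0) .nil) .nil))) 
(.lf (nat_lit 609916) (.g (nat_lit 3277) (.e (nat_lit 729098) (nat_lit 11) (.e (nat_lit 426121) (nat_lit 2) (.e (nat_lit 196666) (nat_lit 13) (.e (nat_lit 65617) (nat_lit 10) (.e (nat_lit 344133) (nat_lit 26) (.e (nat_lit 557091) (nat_lit 12) (.e (nat_lit 171776) (nat_lit 49) .nil))))))) (.g (nat_lit 1) (.e (nat_lit 446154) (nat_lit 0) .nil) .nil)))) 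
(.lf (nat_lit 609660) (.g (nat_lit 887) (.e (nat_lit 712755) (nat_lit 30) (.e (nat_lit 450593) (nat_lit 16) (.e (nat_lit 655367) (nat_lit 0) (.e (nat_lit 2861) (nat_lit 184) .nil)))) (.g (nat_lit 0) (.e (nat_lit 444848) (nat_lit 0) .nil) .nil)))) (.nd (nat_lit 8) (.nd (nat_lit 9) 
(.lf (nat_lit 609532) (.g (nat_lit 2368) (.e (nat_lit 712753) (nat_lit 30) (.e (nat_lit 450579) (nat_lit 5) (.e (nat_lit 532501) (nat_lit 1) (.e (nat_lit 57670) (nat_lit 152) (.e (nat_lit 2629) (nat_lit 164) (.e (nat_lit 172051) (nat_lit 0) (.e (nat_lit 7936) (nat_lit 219) .nil))))))) (.g (nat_lit 1) (.e (nat_lit 444697) (nat_lit 0) .nil) .nil))) 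
(.lf (nat_lit 610044) (.g (nat_lit 3514) (.e (nat_lit 745491) (nat_lit 4) (.e (nat_lit 65619) (nat_lit 10) (.e (nat_lit 344129) (nat_lit 26) (.e (nat_lit 557119) (nat_lit 18) (.e (nat_lit 2807) (nat_lit 180) (.e (nat_lit 303137) (nat_lit 10) (.e (nat_lit 434295) (nat_lit 49) .nil))))))) (.g (nat_lit 1) (.e (nat_lit 446997) (nat_lit 0) .nil) .nil)))) 
(.lf (nat_lit 609788) (.g (nat_lit 2126) (.e (nat_lit 720909) (nat_lit 11) (.e (nat_lit 426137) (nat_lit 3) (.e (nat_lit 204868) (nat_lit 29) (.e (nat_lit 360473) (nat_lit 8) (.e (nat_lit 557089) (nat_lit 12) (.e (nat_lit 171776) (nat_lit 48) .nil)))))) (.g (nat_lit 1) (.e (nat_lit 445400) (nat_lit 0) .nil) .nil)))))))))) 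
(.nd (nat_lit 2) (.nd (nat_lit 3) (.nd (nat_lit 4) (.nd (nat_lit 5) (.nd (nat_lit 6) 
(.nd (nat_lit 7) (.nd (nat_lit 8) (.nd (nat_lit 9) 
(.lf (nat_lit 609282) (.g (nat_lit 876) (.e (nat_lit 704738) (nat_lit 11) (.e (nat_lit 16466) (nat_lit 13) (.e (nat_lit 483342) (nat_lit 17) .nil))) (.g (nat_lit 0) (.e (nat_lit 443972) (nat_lit 0) .nil) .nil))) 
(.lf (nat_lit 609794) (.g (nat_lit 2746) (.e (nat_lit 720909) (nat_lit 11) (.e (nat_lit 426137) (nat_lit 3) (.e (nat_lit 204869) (nat_lit 29) (.e (nat_lit 360474) (nat_lit 8) (.e (nat_lit 557094) (nat_lit 12) (.e (nat_lit 171776) (nat_lit 48) .nil)))))) (.g (nat_lit 1) (.e (nat_lit 445406) (nat_lit 0) .nil) .nil)))) (.nd (nat_lit 9) 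
(.lf (nat_lit 609538) (.g (nat_lit 2274) (.e (nat_lit 712753) (nat_lit 30) (.e (nat_lit 450579) (nat_lit 5) (.e (nat_lit 532504) (nat_lit 1) (.e (nat_lit 57651) (nat_lit 152) (.e (nat_lit 2638) (nat_lit 165) (.e (nat_lit 188160) (nat_lit 27) .nil)))))) (.g (nat_lit 1) (.e (nat_lit 444703) (nat_lit 0) .nil) .nil))) 
(.lf (nat_lit 610050) (.g (nat_lit 744) (.e (nat_lit 745492) (nat_lit 5) (.e (nat_lit 73729) (nat_lit 0) (.e (nat_lit 4539) (nat_lit 267) .nil))) (.g (nat_lit 0) (.e (nat_lit 447006) (nat_lit 0) .nil) .nil))))) (.nd (nat_lit 8) (.nd (nat_lit 9) 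
(.lf (nat_lit 609410) (.g (nat_lit 1983) (.e (nat_lit 712745) (nat_lit 27) (.e (nat_lit 426347) (nat_lit 14) (.e (nat_lit 491571) (nat_lit 13) (.e (nat_lit 393267) (nat_lit 23) (.e (nat_lit 426375) (nat_lit 15) .nil))))) (.g (nat_lit 0) (.e (nat_lit 444516) (nat_lit 0) .nil) .nil))) 
(.lf (nat_lit 609922) (.g (nat_lit 2661) (.e (nat_lit 729098) (nat_lit 11) (.e (nat_lit 426137) (nat_lit 3) (.e (nat_lit 204869) (nat_lit 29) (.e (nat_lit 360474) (nat_lit 8) (.e (nat_lit 557094) (nat_lit 12) (.e (nat_lit 171776) (nat_lit 49) .nil)))))) (.g (nat_lit 1) (.e (nat_lit 446164) (nat_lit 0) .nil) .nil)))) 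
(.lf (nat_lit 609666) (.g (nat_lit 1089) (.e (nat_lit 712761) (nat_lit 34) (.e (nat_lit 483411) (nat_lit 27) (.e (nat_lit 401426) (nat_lit 3) .nil))) (.g (nat_lit 0) (.e (nat_lit 444946) (nat_lit 0) .nil) .nil))))) (.nd (nat_lit 7) (.nd (nat_lit 8) (.nd (nat_lit 9) 
(.lf (nat_lit 609346) (.g (nat_lit 2858) (.e (nat_lit 712742) (nat_lit 27) (.e (nat_lit 426338) (nat_lit 14) (.e (nat_lit 491569) (nat_lit 13) (.e (nat_lit 393290) (nat_lit 26) (.e (nat_lit 475210) (nat_lit 41) .nil))))) (.g (nat_lit 1) (.e (nat_lit 444414) (nat_lit 0) .nil) .nil))) 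
(.lf (nat_lit 609858) (.g (nat_lit 4032) (.e (nat_lit 720941) (nat_lit 22) (.e (nat_lit 90159) (nat_lit 11) (.e (nat_lit 24665) (nat_lit 14) (.e (nat_lit 401427) (nat_lit 3) (.e (nat_lit 204882) (nat_lit 32) (.e (nat_lit 392960) (nat_lit 42) .nil)))))) (.g (nat_lit 1) (.e (nat_lit 445942) (nat_lit 0) .nil) .nil)))) 
(.lf (nat_lit 609602) (.g (nat_lit 2713) (.e (nat_lit 712754) (nat_lit 30) (.e (nat_lit 450588) (nat_lit 10) (.e (nat_lit 573475) (nat_lit 12) (.e (nat_lit 57507) (nat_lit 39) (.e (nat_lit 647190) (nat_lit 9) (.e (nat_lit 430) (nat_lit 32) (.e (nat_lit 426011) (nat_lit 0) (.e (nat_lit 3546) (nat_lit 219) .nil)))))))) (.g (nat_lit 1) (.e (nat_lit 444779) (nat_lit 0) .nil) .nil)))) 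
(.nd (nat_lit 8) (.nd (nat_lit 9) 
(.lf (nat_lit 609474) (.g (nat_lit 1902) (.e (nat_lit 712751) (nat_lit 29) (.e (nat_lit 442421) (nat_lit 21) (.e (nat_lit 164347) (nat_lit 240) (.e (nat_lit 2648) (nat_lit 166) (.e (nat_lit 188418) (nat_lit 0) .nil))))) (.g (nat_lit 0) (.e (nat_lit 444613) (nat_lit 0) .nil) .nil))) 
(.lf (nat_lit 609986) (.g (nat_lit 3381) (.e (nat_lit 737318) (nat_lit 15) (.e (nat_lit 49189) (nat_lit 11) (.e (nat_lit 16425) (nat_lit 7) (.e (nat_lit 409645) (nat_lit 18) (.e (nat_lit 303133) (nat_lit 9) (.e (nat_lit 426412) (nat_lit 15) (.e (nat_lit 2233) (nat_lit 146) .nil))))))) (.g (nat_lit 1) (.e (nat_lit 446925) (nat_lit 0) .nil) .nil)))) 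
(.lf (nat_lit 609730) (.g (nat_lit 3695) (.e (nat_lit 720908) (nat_lit 11) (.e (nat_lit 426139) (nat_lit 3) (.e (nat_lit 204869) (nat_lit 29) (.e (nat_lit 360475) (nat_lit 8) (.e (nat_lit 557091) (nat_lit 12) (.e (nat_lit 171776) (nat_lit 48) .nil)))))) (.g (nat_lit 1) (.e (nat_lit 445230) (nat_lit 0) .nil) .nil)))))) (.nd (nat_lit 6) (.nd (nat_lit 7) (.nd (nat_lit 8) (.nd (nat_lit 9) 
(.lf (nat_lit 609314) (.g (nat_lit 1143) (.e (nat_lit 704778) (nat_lit 14) (.e (nat_lit 1374) (nat_lit 104) (.e (nat_lit 303137) (nat_lit 10) .nil))) (.g (nat_lit 0) (.e (nat_lit 444082) (nat_lit 0) .nil) .nil))) 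
(.lf (nat_lit 609826) (.g (nat_lit 1745) (.e (nat_lit 720909) (nat_lit 11) (.e (nat_lit 426198) (nat_lit 9) (.e (nat_lit 426550) (nat_lit 31) (.e (nat_lit 368656) (nat_lit 14) (.e (nat_lit 57816) (nat_lit 246) (.e (nat_lit 57610) (nat_lit 109) .nil)))))) (.g (nat_lit 1) (.e (nat_lit 445459) (nat_lit 0) .nil) .nil)))) 
(.lf (nat_lit 609570) (.g (nat_lit 2302) (.e (nat_lit 712753) (nat_lit 30) (.e (nat_lit 450586) (nat_lit 10) (.e (nat_lit 573473) (nat_lit 12) (.e (nat_lit 57510) (nat_lit 39) (.e (nat_lit 647199) (nat_lit 11) (.e (nat_lit 16388) (nat_lit 0) (.e (nat_lit 3544) (nat_lit 219) .nil))))))) (.g (nat_lit 1) (.e (nat_lit 444735) (nat_lit 0) .nil) .nil)))) (.nd (nat_lit 8) (.nd (nat_lit 9) 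
(.lf (nat_lit 609442) (.g (nat_lit 2032) (.e (nat_lit 712750) (nat_lit 29) (.e (nat_lit 442421) (nat_lit 21) (.e (nat_lit 164347) (nat_lit 240) (.e (nat_lit 2648) (nat_lit 166) (.e (nat_lit 188418) (nat_lit 0) (.e (nat_lit 2175) (nat_lit 143) .nil)))))) (.g (nat_lit 1) (.e (nat_lit 444570) (nat_lit 0) .nil) .nil))) 
(.lf (nat_lit 609954) (.g (nat_lit 1054) (.e (nat_lit 737300) (nat_lit 7) (.e (nat_lit 286753) (nat_lit 10) (.e (nat_lit 344138) (nat_lit 29) (.e (nat_lit 581653) (nat_lit 6) (.e (nat_lit 188428) (nat_lit 20) .nil))))) (.g (nat_lit 0) (.e (nat_lit 446866) (nat_lit 0) .nil) .nil)))) 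
(.lf (nat_lit 609698) (.g (nat_lit 2658) (.e (nat_lit 720908) (nat_lit 11) (.e (nat_lit 426122) (nat_lit 2) (.e (nat_lit 196666) (nat_lit 13) (.e (nat_lit 65617) (nat_lit 10) (.e (nat_lit 344132) (nat_lit 26) (.e (nat_lit 557094) (nat_lit 12) (.e (nat_lit 171776) (nat_lit 48) .nil))))))) (.g (nat_lit 1) (.e (nat_lit 445193) (nat_lit 0) .nil) .nil))))) 
(.nd (nat_lit 7) (.nd (nat_lit 8) (.nd (nat_lit 9) 
(.lf (nat_lit 609378) (.g (nat_lit 1827) (.e (nat_lit 712745) (nat_lit 27) (.e (nat_lit 426347) (nat_lit 14) (.e (nat_lit 491569) (nat_lit 13) (.e (nat_lit 393279) (nat_lit 23) .nil)))) (.g (nat_lit 0) (.e (nat_lit 444482) (nat_lit 0) .nil) .nil))) 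
(.lf (nat_lit 609890) (.g (nat_lit 2228) (.e (nat_lit 720951) (nat_lit 24) (.e (nat_lit 106536) (nat_lit 11) (.e (nat_lit 16425) (nat_lit 7) (.e (nat_lit 409643) (nat_lit 18) (.e (nat_lit 303143) (nat_lit 12) .nil))))) (.g (nat_lit 0) (.e (nat_lit 445993) (nat_lit 0) .nil) .nil)))) 
(.lf (nat_lit 609634) (.g (nat_lit 3107) (.e (nat_lit 712755) (nat_lit 30) (.e (nat_lit 450588) (nat_lit 10) (.e (nat_lit 573473) (nat_lit 12) (.e (nat_lit 57504) (nat_lit 38) (.e (nat_lit 638999) (nat_lit 8) (.e (nat_lit 172036) (nat_lit 0) (.e (nat_lit 3543) (nat_lit 219) .nil))))))) (.g (nat_lit 1) (.e (nat_lit 444821) (nat_lit 0) .nil) .nil)))) (.nd (nat_lit 8) (.nd (nat_lit 9) 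
(.lf (nat_lit 609506) (.g (nat_lit 1559) (.e (nat_lit 712753) (nat_lit 30) (.e (nat_lit 450565) (nat_lit 0) (.e (nat_lit 5546) (nat_lit 306) (.e (nat_lit 2628) (nat_lit 164) (.e (nat_lit 172120) (nat_lit 12) .nil))))) (.g (nat_lit 0) (.e (nat_lit 444670) (nat_lit 0) .nil) .nil))) 
(.lf (nat_lit 610018) (.g (nat_lit 1857) (.e (nat_lit 745491) (nat_lit 4) (.e (nat_lit 65611) (nat_lit 10) (.e (nat_lit 344138) (nat_lit 29) (.e (nat_lit 581653) (nat_lit 6) (.e (nat_lit 188434) (nat_lit 20) (.e (nat_lit 3578) (nat_lit 223) .nil)))))) (.g (nat_lit 1) (.e (nat_lit 446965) (nat_lit 0) .nil) .nil)))) 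
(.lf (nat_lit 609762) (.g (nat_lit 3359) (.e (nat_lit 720909) (nat_lit 11) (.e (nat_lit 426124) (nat_lit 2) (.e (nat_lit 196666) (nat_lit 13) (.e (nat_lit 65617) (nat_lit 10) (.e (nat_lit 344132) (nat_lit 26) (.e (nat_lit 557093) (nat_lit 12) (.e (nat_lit 171776) (nat_lit 48) .nil))))))) (.g (nat_lit 1) (.e (nat_lit 445346) (nat_lit 0) .nil) .nil))))))) 
(.nd (nat_lit 5) (.nd (nat_lit 6) (.nd (nat_lit 7) (.nd (nat_lit 8) (.nd (nat_lit 9) 
(.lf (nat_lit 609298) (.g (nat_lit 2070) (.e (nat_lit 704741) (nat_lit 11) (.e (nat_lit 16468) (nat_lit 13) (.e (nat_lit 483372) (nat_lit 21) (.e (nat_lit 319511) (nat_lit 10) (.e (nat_lit 5664) (nat_lit 312) (.e (nat_lit 7936) (nat_lit 157) (.e (nat_lit 3486) (nat_lit 218) .nil))))))) (.g (nat_lit 1) (.e (nat_lit 444020) (nat_lit 0) .nil) .nil))) 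
(.lf (nat_lit 609810) (.g (nat_lit 3499) (.e (nat_lit 720909) (nat_lit 11) (.e (nat_lit 426139) (nat_lit 3) (.e (nat_lit 204868) (nat_lit 29) (.e (nat_lit 360475) (nat_lit 8) (.e (nat_lit 557089) (nat_lit 12) .nil))))) (.g (nat_lit 0) (.e (nat_lit 445429) (nat_lit 0) .nil) .nil)))) 
(.lf (nat_lit 609554) (.g (nat_lit 1597) (.e (nat_lit 712753) (nat_lit 30) (.e (nat_lit 450580) (nat_lit 5) (.e (nat_lit 532503) (nat_lit 1) (.e (nat_lit 57693) (nat_lit 157) .nil)))) (.g (nat_lit 0) (.e (nat_lit 444719) (nat_lit 0) .nil) .nil)))) (.nd (nat_lit 8) (.nd (nat_lit 9) 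
(.lf (nat_lit 609426) (.g (nat_lit 1754) (.e (nat_lit 712745) (nat_lit 27) (.e (nat_lit 426347) (nat_lit 14) (.e (nat_lit 491571) (nat_lit 13) (.e (nat_lit 393274) (nat_lit 23) (.e (nat_lit 426414) (nat_lit 15) .nil))))) (.g (nat_lit 0) (.e (nat_lit 444533) (nat_lit 0) .nil) .nil))) 
(.lf (nat_lit 609938) (.g (nat_lit 614) (.e (nat_lit 737283) (nat_lit 0) (.e (nat_lit 5413) (nat_lit 303) (.e (nat_lit 73750) (nat_lit 6) (.e (nat_lit 540724) (nat_lit 28) (.e (nat_lit 442396) (nat_lit 20) (.e (nat_lit 3571) (nat_lit 222) .nil)))))) (.g (nat_lit 1) (.e (nat_lit 446750) (nat_lit 0) .nil) .nil)))) 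
(.lf (nat_lit 609682) (.g (nat_lit 3499) (.e (nat_lit 720904) (nat_lit 11) (.e (nat_lit 426139) (nat_lit 3) (.e (nat_lit 204869) (nat_lit 29) (.e (nat_lit 360475) (nat_lit 8) (.e (nat_lit 557089) (nat_lit 12) (.e (nat_lit 171776) (nat_lit 48) .nil)))))) (.g (nat_lit 1) (.e (nat_lit 445024) (nat_lit 0) .nil) .nil))))) (.nd (nat_lit 7) (.nd (nat_lit 8) (.nd (nat_lit 9) 
(.lf (nat_lit 609362) (.g (nat_lit 422) (.e (nat_lit 712745) (nat_lit 27) (.e (nat_lit 426347) (nat_lit 14) (.e (nat_lit 491547) (nat_lit 9) .nil))) (.g (nat_lit 0) (.e (nat_lit 444463) (nat_lit 0) .nil) .nil))) 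
(.lf (nat_lit 609874) (.g (nat_lit 3249) (.e (nat_lit 720945) (nat_lit 23) (.e (nat_lit 98334) (nat_lit 18) (.e (nat_lit 164398) (nat_lit 256) (.e (nat_lit 57377) (nat_lit 3) (.e (nat_lit 98376) (nat_lit 30) .nil))))) (.g (nat_lit 0) (.e (nat_lit 445968) (nat_lit 0) .nil) .nil)))) 
(.lf (nat_lit 609618) (.g (nat_lit 2148) (.e (nat_lit 712755) (nat_lit 30) (.e (nat_lit 450564) (nat_lit 0) (.e (nat_lit 5548) (nat_lit 306) (.e (nat_lit 2619) (nat_lit 164) (.e (nat_lit 172119) (nat_lit 12) .nil))))) (.g (nat_lit 0) (.e (nat_lit 444802) (nat_lit 0) .nil) .nil)))) (.nd (nat_lit 8) (.nd (nat_lit 9) 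
(.lf (nat_lit 609490) (.g (nat_lit 1262) (.e (nat_lit 712752) (nat_lit 29) (.e (nat_lit 442430) (nat_lit 24) (.e (nat_lit 229666) (nat_lit 240) (.e (nat_lit 2622) (nat_lit 164) (.e (nat_lit 172118) (nat_lit 12) .nil))))) (.g (nat_lit 0) (.e (nat_lit 444648) (nat_lit 0) .nil) .nil))) 
(.lf (nat_lit 610002) (.g (nat_lit 1554) (.e (nat_lit 745489) (nat_lit 4) (.e (nat_lit 65617) (nat_lit 10) (.e (nat_lit 344133) (nat_lit 26) (.e (nat_lit 557119) (nat_lit 18) .nil)))) (.g (nat_lit 0) (.e (nat_lit 446944) (nat_lit 0) .nil) .nil)))) 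
(.lf (nat_lit 609746) (.g (nat_lit 3456) (.e (nat_lit 720909) (nat_lit 11) (.e (nat_lit 426122) (nat_lit 2) (.e (nat_lit 196666) (nat_lit 13) (.e (nat_lit 65617) (nat_lit 10) (.e (nat_lit 344130) (nat_lit 26) (.e (nat_lit 557090) (nat_lit 12) (.e (nat_lit 171776) (nat_lit 48) .nil))))))) (.g (nat_lit 1) (.e (nat_lit 445325) (nat_lit 0) .nil) .nil)))))) 
(.nd (nat_lit 6) (.nd (nat_lit 7) (.nd (nat_lit 8) (.nd (nat_lit 9) 
(.lf (nat_lit 609330) (.g (nat_lit 1669) (.e (nat_lit 712728) (nat_lit 18) (.e (nat_lit 204863) (nat_lit 27) (.e (nat_lit 344130) (nat_lit 26) (.e (nat_lit 557104) (nat_lit 14) .nil)))) (.g (nat_lit 0) (.e (nat_lit 444238) (nat_lit 0) .nil) .nil))) 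
(.lf (nat_lit 609842) (.g (nat_lit 1963) (.e (nat_lit 720931) (nat_lit 21) (.e (nat_lit 57926) (nat_lit 282) (.e (nat_lit 163932) (nat_lit 17) (.e (nat_lit 466977) (nat_lit 22) (.e (nat_lit 196624) (nat_lit 9) .nil))))) (.g (nat_lit 0) (.e (nat_lit 445916) (nat_lit 0) .nil) .nil)))) 
(.lf (nat_lit 609586) (.g (nat_lit 2208) (.e (nat_lit 712753) (nat_lit 30) (.e (nat_lit 450586) (nat_lit 10) (.e (nat_lit 573478) (nat_lit 12) (.e (nat_lit 57509) (nat_lit 39) (.e (nat_lit 647199) (nat_lit 11) (.e (nat_lit 16388) (nat_lit 0) (.e (nat_lit 3548) (nat_lit 219) .nil))))))) (.g (nat_lit 1) (.e (nat_lit 444751) (nat_lit 0) .nil) .nil)))) (.nd (nat_lit 8) (.nd (nat_lit 9) 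
(.lf (nat_lit 609458) (.g (nat_lit 440) (.e (nat_lit 712750) (nat_lit 29) (.e (nat_lit 442430) (nat_lit 24) (.e (nat_lit 229666) (nat_lit 240) .nil))) (.g (nat_lit 0) (.e (nat_lit 444592) (nat_lit 0) .nil) .nil))) 
(.lf (nat_lit 609970) (.g (nat_lit 2340) (.e (nat_lit 737300) (nat_lit 7) (.e (nat_lit 286756) (nat_lit 10) (.e (nat_lit 344138) (nat_lit 29) (.e (nat_lit 581653) (nat_lit 6) (.e (nat_lit 188431) (nat_lit 20) (.e (nat_lit 3571) (nat_lit 222) .nil)))))) (.g (nat_lit 1) (.e (nat_lit 446897) (nat_lit 0) .nil) .nil)))) 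
(.lf (nat_lit 609714) (.g (nat_lit 3052) (.e (nat_lit 720908) (nat_lit 11) (.e (nat_lit 426137) (nat_lit 3) (.e (nat_lit 204869) (nat_lit 29) (.e (nat_lit 360475) (nat_lit 8) (.e (nat_lit 557089) (nat_lit 12) (.e (nat_lit 171776) (nat_lit 48) .nil)))))) (.g (nat_lit 1) (.e (nat_lit 445214) (nat_lit 0) .nil) .nil))))) (.nd (nat_lit 7) (.nd (nat_lit 8) (.nd (nat_lit 9) 
(.lf (nat_lit 609394) (.g (nat_lit 2839) (.e (nat_lit 712745) (nat_lit 27) (.e (nat_lit 426347) (nat_lit 14) (.e (nat_lit 491570) (nat_lit 13) (.e (nat_lit 393271) (nat_lit 23) (.e (nat_lit 426393) (nat_lit 15) .nil))))) (.g (nat_lit 0) (.e (nat_lit 444498) (nat_lit 0) .nil) .nil))) 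
(.lf (nat_lit 609906) (.g (nat_lit 2403) (.e (nat_lit 729095) (nat_lit 11) (.e (nat_lit 426125) (nat_lit 2) (.e (nat_lit 196666) (nat_lit 13) (.e (nat_lit 65617) (nat_lit 10) (.e (nat_lit 344130) (nat_lit 26) (.e (nat_lit 557089) (nat_lit 12) (.e (nat_lit 171776) (nat_lit 49) .nil))))))) (.g (nat_lit 1) (.e (nat_lit 446122) (nat_lit 0) .nil) .nil)))) 
(.lf (nat_lit 609650) (.g (nat_lit 4832) (.e (nat_lit 712755) (nat_lit 30) (.e (nat_lit 450588) (nat_lit 10) (.e (nat_lit 573475) (nat_lit 12) (.e (nat_lit 57507) (nat_lit 39) (.e (nat_lit 647201) (nat_lit 12) (.e (nat_lit 57574) (nat_lit 55) (.e (nat_lit 778455) (nat_lit 10) (.e (nat_lit 8356) (nat_lit 88) .nil)))))))) (.g (nat_lit 1) (.e (nat_lit 444837) (nat_lit 0) .nil) .nil)))) 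
(.nd (nat_lit 8) (.nd (nat_lit 9) 
(.lf (nat_lit 609522) (.g (nat_lit 2184) (.e (nat_lit 712753) (nat_lit 30) (.e (nat_lit 450579) (nat_lit 5) (.e (nat_lit 532501) (nat_lit 1) (.e (nat_lit 57651) (nat_lit 152) (.e (nat_lit 2638) (nat_lit 165) (.e (nat_lit 188160) (nat_lit 27) .nil)))))) (.g (nat_lit 1) (.e (nat_lit 444687) (nat_lit 0) .nil) .nil))) 
(.lf (nat_lit 610034) (.g (nat_lit 2090) (.e (nat_lit 745491) (nat_lit 4) (.e (nat_lit 65617) (nat_lit 10) (.e (nat_lit 344130) (nat_lit 26) (.e (nat_lit 557119) (nat_lit 18) (.e (nat_lit 2449) (nat_lit 157) .nil))))) (.g (nat_lit 0) (.e (nat_lit 446983) (nat_lit 0) .nil) .nil)))) 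
(.lf (nat_lit 609778) (.g (nat_lit 2225) (.e (nat_lit 720909) (nat_lit 11) (.e (nat_lit 426133) (nat_lit 3) (.e (nat_lit 204868) (nat_lit 29) (.e (nat_lit 360473) (nat_lit 8) (.e (nat_lit 557093) (nat_lit 12) (.e (nat_lit 171776) (nat_lit 48) .nil)))))) (.g (nat_lit 1) (.e (nat_lit 445384) (nat_lit 0) .nil) .nil)))))))) 
(.nd (nat_lit 4) (.nd (nat_lit 5) (.nd (nat_lit 6) (.nd (nat_lit 7) (.nd (nat_lit 8) 
(.nd (nat_lit 9) 
(.lf (nat_lit 609290) (.g (nat_lit 1386) (.e (nat_lit 704740) (nat_lit 11) (.e (nat_lit 16416) (nat_lit 3) (.e (nat_lit 204861) (nat_lit 26) (.e (nat_lit 336075) (nat_lit 9) .nil)))) (.g (nat_lit 0) (.e (nat_lit 443992) (nat_lit 0) .nil) .nil))) 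
(.lf (nat_lit 609802) (.g (nat_lit 3006) (.e (nat_lit 720909) (nat_lit 11) (.e (nat_lit 426138) (nat_lit 3) (.e (nat_lit 204869) (nat_lit 29) (.e (nat_lit 360474) (nat_lit 8) (.e (nat_lit 557093) (nat_lit 12) (.e (nat_lit 171776) (nat_lit 48) .nil)))))) (.g (nat_lit 1) (.e (nat_lit 445414) (nat_lit 0) .nil) .nil)))) (.nd (nat_lit 9) 
(.lf (nat_lit 609546) (.g (nat_lit 1983) (.e (nat_lit 712753) (nat_lit 30) (.e (nat_lit 450580) (nat_lit 5) (.e (nat_lit 532499) (nat_lit 1) (.e (nat_lit 57652) (nat_lit 152) .nil)))) (.g (nat_lit 0) (.e (nat_lit 444711) (nat_lit 0) .nil) .nil))) 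
(.lf (nat_lit 610058) (.g (nat_lit 1203) (.e (nat_lit 753408) (nat_lit 11) (.e (nat_lit 24660) (nat_lit 13) (.e (nat_lit 393260) (nat_lit 21) (.e (nat_lit 409648) (nat_lit 18) .nil)))) (.g (nat_lit 0) (.e (nat_lit 447051) (nat_lit 0) .nil) .nil))))) (.nd (nat_lit 8) (.nd (nat_lit 9) 
(.lf (nat_lit 609418) (.g (nat_lit 2929) (.e (nat_lit 712745) (nat_lit 27) (.e (nat_lit 426347) (nat_lit 14) (.e (nat_lit 491571) (nat_lit 13) (.e (nat_lit 393268) (nat_lit 23) (.e (nat_lit 426420) (nat_lit 15) .nil))))) (.g (nat_lit 0) (.e (nat_lit 444525) (nat_lit 0) .nil) .nil))) 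
(.lf (nat_lit 609930) (.g (nat_lit 4330) (.e (nat_lit 729099) (nat_lit 12) (.e (nat_lit 434232) (nat_lit 23) (.e (nat_lit 532550) (nat_lit 12) (.e (nat_lit 360474) (nat_lit 8) (.e (nat_lit 557094) (nat_lit 12) (.e (nat_lit 171776) (nat_lit 49) .nil)))))) (.g (nat_lit 1) (.e (nat_lit 446224) (nat_lit 0) .nil) .nil)))) 
(.lf (nat_lit 609674) (.g (nat_lit 755) (.e (nat_lit 728832) (nat_lit 4) (.e (nat_lit 213030) (nat_lit 11) (.e (nat_lit 24655) (nat_lit 13) .nil))) (.g (nat_lit 0) (.e (nat_lit 444993) (nat_lit 0) .nil) .nil))))) (.nd (nat_lit 7) (.nd (nat_lit 8) (.nd (nat_lit 9) 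
(.lf (nat_lit 609354) (.g (nat_lit 2733) (.e (nat_lit 712742) (nat_lit 27) (.e (nat_lit 426338) (nat_lit 14) (.e (nat_lit 491571) (nat_lit 13) (.e (nat_lit 393291) (nat_lit 26) (.e (nat_lit 475207) (nat_lit 41) .nil))))) (.g (nat_lit 0) (.e (nat_lit 444432) (nat_lit 0) .nil) .nil))) 
(.lf (nat_lit 609866) (.g (nat_lit 1734) (.e (nat_lit 720942) (nat_lit 23) (.e (nat_lit 98334) (nat_lit 18) (.e (nat_lit 164330) (nat_lit 230) (.e (nat_lit 163874) (nat_lit 3) .nil)))) (.g (nat_lit 0) (.e (nat_lit 445950) (nat_lit 0) .nil) .nil)))) 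
(.lf (nat_lit 609610) (.g (nat_lit 522) (.e (nat_lit 712755) (nat_lit 30) (.e (nat_lit 450562) (nat_lit 0) (.e (nat_lit 5945) (nat_lit 322) .nil))) (.g (nat_lit 0) (.e (nat_lit 444788) (nat_lit 0) .nil) .nil)))) (.nd (nat_lit 8) (.nd (nat_lit 9) 
(.lf (nat_lit 609482) (.g (nat_lit 1778) (.e (nat_lit 712752) (nat_lit 29) (.e (nat_lit 442419) (nat_lit 21) (.e (nat_lit 164348) (nat_lit 240) (.e (nat_lit 2619) (nat_lit 164) .nil)))) (.g (nat_lit 0) (.e (nat_lit 444635) (nat_lit 0) .nil) .nil))) 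
(.lf (nat_lit 609994) (.g (nat_lit 1840) (.e (nat_lit 745475) (nat_lit 0) (.e (nat_lit 1595) (nat_lit 111) (.e (nat_lit 360477) (nat_lit 11) (.e (nat_lit 581636) (nat_lit 0) (.e (nat_lit 3015) (nat_lit 187) (.e (nat_lit 450605) (nat_lit 27) .nil)))))) (.g (nat_lit 1) (.e (nat_lit 446933) (nat_lit 0) .nil) .nil)))) 
(.lf (nat_lit 609738) (.g (nat_lit 3257) (.e (nat_lit 720909) (nat_lit 11) (.e (nat_lit 426116) (nat_lit 2) (.e (nat_lit 196666) (nat_lit 13) (.e (nat_lit 65617) (nat_lit 10) (.e (nat_lit 344133) (nat_lit 26) (.e (nat_lit 557091) (nat_lit 12) (.e (nat_lit 171776) (nat_lit 48) .nil))))))) (.g (nat_lit 1) (.e (nat_lit 445315) (nat_lit 0) .nil) .nil)))))) 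
(.nd (nat_lit 6) (.nd (nat_lit 7) (.nd (nat_lit 8) (.nd (nat_lit 9) 
(.lf (nat_lit 609322) (.g (nat_lit 1195) (.e (nat_lit 712719) (nat_lit 15) (.e (nat_lit 3304) (nat_lit 202) (.e (nat_lit 573491) (nat_lit 15) (.e (nat_lit 81954) (nat_lit 23) .nil)))) (.g (nat_lit 0) (.e (nat_lit 444130) (nat_lit 0) .nil) .nil))) 
(.lf (nat_lit 609834) (.g (nat_lit 1966) (.e (nat_lit 728832) (nat_lit 11) (.e (nat_lit 426123) (nat_lit 2) (.e (nat_lit 196666) (nat_lit 13) (.e (nat_lit 65617) (nat_lit 10) .nil)))) (.g (nat_lit 0) (.e (nat_lit 445652) (nat_lit 0) .nil) .nil)))) 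
(.lf (nat_lit 609578) (.g (nat_lit 3351) (.e (nat_lit 712753) (nat_lit 30) (.e (nat_lit 450586) (nat_lit 10) (.e (nat_lit 573475) (nat_lit 12) (.e (nat_lit 57503) (nat_lit 38) (.e (nat_lit 638999) (nat_lit 8) (.e (nat_lit 172035) (nat_lit 0) (.e (nat_lit 3547) (nat_lit 219) .nil))))))) (.g (nat_lit 1) (.e (nat_lit 444743) (nat_lit 0) .nil) .nil)))) (.nd (nat_lit 8) (.nd (nat_lit 9) 
(.lf (nat_lit 609450) (.g (nat_lit 2336) (.e (nat_lit 712750) (nat_lit 29) (.e (nat_lit 442424) (nat_lit 22) (.e (nat_lit 204544) (nat_lit 2) (.e (nat_lit 24665) (nat_lit 14) (.e (nat_lit 401414) (nat_lit 0) (.e (nat_lit 7936) (nat_lit 219) .nil)))))) (.g (nat_lit 1) (.e (nat_lit 444580) (nat_lit 0) .nil) .nil))) 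
(.lf (nat_lit 609962) (.g (nat_lit 1763) (.e (nat_lit 737300) (nat_lit 7) (.e (nat_lit 286755) (nat_lit 10) (.e (nat_lit 344138) (nat_lit 29) (.e (nat_lit 581653) (nat_lit 6) (.e (nat_lit 188427) (nat_lit 20) (.e (nat_lit 3572) (nat_lit 222) .nil)))))) (.g (nat_lit 1) (.e (nat_lit 446884) (nat_lit 0) .nil) .nil)))) 
(.lf (nat_lit 609706) (.g (nat_lit 2988) (.e (nat_lit 720908) (nat_lit 11) (.e (nat_lit 426124) (nat_lit 2) (.e (nat_lit 196666) (nat_lit 13) (.e (nat_lit 65617) (nat_lit 10) (.e (nat_lit 344133) (nat_lit 26) .nil))))) (.g (nat_lit 0) (.e (nat_lit 445201) (nat_lit 0) .nil) .nil))))) (.nd (nat_lit 7) (.nd (nat_lit 8) (.nd (nat_lit 9) 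
(.lf (nat_lit 609386) (.g (nat_lit 2262) (.e (nat_lit 712745) (nat_lit 27) (.e (nat_lit 426347) (nat_lit 14) (.e (nat_lit 491570) (nat_lit 13) (.e (nat_lit 393267) (nat_lit 23) (.e (nat_lit 426374) (nat_lit 15) .nil))))) (.g (nat_lit 0) (.e (nat_lit 444490) (nat_lit 0) .nil) .nil))) 
(.lf (nat_lit 609898) (.g (nat_lit 1099) (.e (nat_lit 720956) (nat_lit 25) (.e (nat_lit 114698) (nat_lit 11) (.e (nat_lit 426172) (nat_lit 7) .nil))) (.g (nat_lit 0) (.e (nat_lit 446014) (nat_lit 0) .nil) .nil)))) 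
(.lf (nat_lit 609642) (.g (nat_lit 4001) (.e (nat_lit 712755) (nat_lit 30) (.e (nat_lit 450588) (nat_lit 10) (.e (nat_lit 573474) (nat_lit 12) (.e (nat_lit 57508) (nat_lit 39) (.e (nat_lit 647201) (nat_lit 12) (.e (nat_lit 57574) (nat_lit 55) (.e (nat_lit 778455) (nat_lit 10) (.e (nat_lit 8356) (nat_lit 88) .nil)))))))) (.g (nat_lit 1) (.e (nat_lit 444829) (nat_lit 0) .nil) .nil)))) 
(.nd (nat_lit 8) (.nd (nat_lit 9) 
(.lf (nat_lit 609514) (.g (nat_lit 1987) (.e (nat_lit 712753) (nat_lit 30) (.e (nat_lit 450568) (nat_lit 0) (.e (nat_lit 5448) (nat_lit 306) (.e (nat_lit 2653) (nat_lit 166) (.e (nat_lit 188418) (nat_lit 0) (.e (nat_lit 2174) (nat_lit 143) .nil)))))) (.g (nat_lit 1) (.e (nat_lit 444679) (nat_lit 0) .nil) .nil))) 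
(.lf (nat_lit 610026) (.g (nat_lit 1695) (.e (nat_lit 745491) (nat_lit 4) (.e (nat_lit 65616) (nat_lit 10) (.e (nat_lit 344138) (nat_lit 29) (.e (nat_lit 581653) (nat_lit 6) (.e (nat_lit 188440) (nat_lit 20) (.e (nat_lit 3578) (nat_lit 223) .nil)))))) (.g (nat_lit 1) (.e (nat_lit 446974) (nat_lit 0) .nil) .nil)))) 
(.lf (nat_lit 609770) (.g (nat_lit 3379) (.e (nat_lit 720909) (nat_lit 11) (.e (nat_lit 426124) (nat_lit 2) (.e (nat_lit 196674) (nat_lit 15) (.e (nat_lit 81946) (nat_lit 20) (.e (nat_lit 1858) (nat_lit 124) (.e (nat_lit 557092) (nat_lit 12) (.e (nat_lit 171776) (nat_lit 48) .nil))))))) (.g (nat_lit 1) (.e (nat_lit 445363) (nat_lit 0) .nil) .nil))))))) 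
(.nd (nat_lit 5) (.nd (nat_lit 6) (.nd (nat_lit 7) (.nd (nat_lit 8) (.nd (nat_lit 9) 
(.lf (nat_lit 609306) (.g (nat_lit 2529) (.e (nat_lit 712448) (nat_lit 11) (.e (nat_lit 16412) (nat_lit 2) (.e (nat_lit 196674) (nat_lit 15) (.e (nat_lit 81947) (nat_lit 20) (.e (nat_lit 7936) (nat_lit 126) .nil))))) (.g (nat_lit 0) (.e (nat_lit 444036) (nat_lit 0) .nil) .nil))) 
(.lf (nat_lit 609818) (.g (nat_lit 1881) (.e (nat_lit 720909) (nat_lit 11) (.e (nat_lit 426188) (nat_lit 9) (.e (nat_lit 426550) (nat_lit 31) (.e (nat_lit 368656) (nat_lit 14) (.e (nat_lit 57813) (nat_lit 246) (.e (nat_lit 57610) (nat_lit 109) .nil)))))) (.g (nat_lit 1) (.e (nat_lit 445443) (nat_lit 0) .nil) .nil)))) 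
(.lf (nat_lit 609562) (.g (nat_lit 2224) (.e (nat_lit 712753) (nat_lit 30) (.e (nat_lit 450586) (nat_lit 10) (.e (nat_lit 573473) (nat_lit 12) (.e (nat_lit 57508) (nat_lit 39) (.e (nat_lit 647195) (nat_lit 9) (.e (nat_lit 426) (nat_lit 32) (.e (nat_lit 426009) (nat_lit 0) (.e (nat_lit 3548) (nat_lit 219) .nil)))))))) (.g (nat_lit 1) (.e (nat_lit 444727) (nat_lit 0) .nil) .nil)))) 
(.nd (nat_lit 8) (.nd (nat_lit 9) 
(.lf (nat_lit 609434) (.g (nat_lit 1429) (.e (nat_lit 712750) (nat_lit 29) (.e (nat_lit 442371) (nat_lit 0) (.e (nat_lit 2148) (nat_lit 142) (.e (nat_lit 704597) (nat_lit 6) (.e (nat_lit 188420) (nat_lit 0) (.e (nat_lit 2174) (nat_lit 143) .nil)))))) (.g (nat_lit 1) (.e (nat_lit 444553) (nat_lit 0) .nil) .nil))) 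
(.lf (nat_lit 609946) (.g (nat_lit 1789) (.e (nat_lit 737296) (nat_lit 5) (.e (nat_lit 270373) (nat_lit 16) (.e (nat_lit 286760) (nat_lit 13) (.e (nat_lit 393296) (nat_lit 26) (.e (nat_lit 475216) (nat_lit 44) .nil))))) (.g (nat_lit 1) (.e (nat_lit 446827) (nat_lit 0) .nil) .nil)))) 
(.lf (nat_lit 609690) (.g (nat_lit 1025) (.e (nat_lit 720907) (nat_lit 11) (.e (nat_lit 426230) (nat_lit 9) (.e (nat_lit 426549) (nat_lit 31) (.e (nat_lit 368656) (nat_lit 14) (.e (nat_lit 57813) (nat_lit 246) (.e (nat_lit 57610) (nat_lit 109) .nil)))))) (.g (nat_lit 1) (.e (nat_lit 445144) (nat_lit 0) .nil) .nil))))) (.nd (nat_lit 7) (.nd (nat_lit 8) (.nd (nat_lit 9) 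
(.lf (nat_lit 609370) (.g (nat_lit 2607) (.e (nat_lit 712745) (nat_lit 27) (.e (nat_lit 426347) (nat_lit 14) (.e (nat_lit 491549) (nat_lit 9) (.e (nat_lit 336443) (nat_lit 32) (.e (nat_lit 466949) (nat_lit 0) .nil))))) (.g (nat_lit 0) (.e (nat_lit 444471) (nat_lit 0) .nil) .nil))) 
(.lf (nat_lit 609882) (.g (nat_lit 1301) (.e (nat_lit 720945) (nat_lit 23) (.e (nat_lit 98366) (nat_lit 27) (.e (nat_lit 434244) (nat_lit 28) (.e (nat_lit 573474) (nat_lit 12) .nil)))) (.g (nat_lit 0) (.e (nat_lit 445979) (nat_lit 0) .nil) .nil)))) 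
(.lf (nat_lit 609626) (.g (nat_lit 4488) (.e (nat_lit 712755) (nat_lit 30) (.e (nat_lit 450587) (nat_lit 10) (.e (nat_lit 573475) (nat_lit 12) (.e (nat_lit 57503) (nat_lit 38) (.e (nat_lit 638998) (nat_lit 8) (.e (nat_lit 172035) (nat_lit 0) (.e (nat_lit 3543) (nat_lit 219) .nil))))))) (.g (nat_lit 1) (.e (nat_lit 444813) (nat_lit 0) .nil) .nil)))) (.nd (nat_lit 8) (.nd (nat_lit 9) 
(.lf (nat_lit 609498) (.g (nat_lit 427) (.e (nat_lit 712753) (nat_lit 30) (.e (nat_lit 450561) (nat_lit 0) (.e (nat_lit 5539) (nat_lit 306) .nil))) (.g (nat_lit 0) (.e (nat_lit 444658) (nat_lit 0) .nil) .nil))) 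
(.lf (nat_lit 610010) (.g (nat_lit 487) (.e (nat_lit 745490) (nat_lit 4) (.e (nat_lit 65620) (nat_lit 10) (.e (nat_lit 344138) (nat_lit 29) (.e (nat_lit 581651) (nat_lit 4) .nil)))) (.g (nat_lit 0) (.e (nat_lit 446952) (nat_lit 0) .nil) .nil)))) 
(.lf (nat_lit 609754) (.g (nat_lit 2942) (.e (nat_lit 720909) (nat_lit 11) (.e (nat_lit 426123) (nat_lit 2) (.e (nat_lit 196666) (nat_lit 13) (.e (nat_lit 65617) (nat_lit 10) (.e (nat_lit 344132) (nat_lit 26) (.e (nat_lit 557094) (nat_lit 12) (.e (nat_lit 171776) (nat_lit 48) .nil))))))) (.g (nat_lit 1) (.e (nat_lit 445335) (nat_lit 0) .nil) .nil)))))) 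
(.nd (nat_lit 6) (.nd (nat_lit 7) (.nd (nat_lit 8) (.nd (nat_lit 9) 
(.lf (nat_lit 609338) (.g (nat_lit 2758) (.e (nat_lit 712739) (nat_lit 27) (.e (nat_lit 426340) (nat_lit 14) (.e (nat_lit 491571) (nat_lit 13) (.e (nat_lit 393291) (nat_lit 26) (.e (nat_lit 475207) (nat_lit 41) .nil))))) (.g (nat_lit 0) (.e (nat_lit 444353) (nat_lit 0) .nil) .nil))) 
(.lf (nat_lit 609850) (.g (nat_lit 3481) (.e (nat_lit 720934) (nat_lit 21) (.e (nat_lit 57692) (nat_lit 156) (.e (nat_lit 163869) (nat_lit 2) (.e (nat_lit 196654) (nat_lit 11) (.e (nat_lit 16458) (nat_lit 12) (.e (nat_lit 475152) (nat_lit 17) (.e (nat_lit 65280) (nat_lit 109) .nil))))))) (.g (nat_lit 1) (.e (nat_lit 445931) (nat_lit 0) .nil) .nil)))) 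
(.lf (nat_lit 609594) (.g (nat_lit 2331) (.e (nat_lit 712754) (nat_lit 30) (.e (nat_lit 450588) (nat_lit 10) (.e (nat_lit 573473) (nat_lit 12) (.e (nat_lit 57508) (nat_lit 39) (.e (nat_lit 647190) (nat_lit 9) .nil))))) (.g (nat_lit 0) (.e (nat_lit 444766) (nat_lit 0) .nil) .nil)))) (.nd (nat_lit 8) (.nd (nat_lit 9) 
(.lf (nat_lit 609466) (.g (nat_lit 2791) (.e (nat_lit 712750) (nat_lit 29) (.e (nat_lit 442430) (nat_lit 24) (.e (nat_lit 229680) (nat_lit 244) (.e (nat_lit 163932) (nat_lit 17) (.e (nat_lit 466947) (nat_lit 0) (.e (nat_lit 2173) (nat_lit 143) .nil)))))) (.g (nat_lit 1) (.e (nat_lit 444600) (nat_lit 0) .nil) .nil))) 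
(.lf (nat_lit 609978) (.g (nat_lit 2853) (.e (nat_lit 737318) (nat_lit 15) (.e (nat_lit 49188) (nat_lit 11) (.e (nat_lit 16425) (nat_lit 7) (.e (nat_lit 409643) (nat_lit 18) (.e (nat_lit 303143) (nat_lit 12) (.e (nat_lit 475220) (nat_lit 44) .nil)))))) (.g (nat_lit 1) (.e (nat_lit 446917) (nat_lit 0) .nil) .nil)))) 
(.lf (nat_lit 609722) (.g (nat_lit 3196) (.e (nat_lit 720908) (nat_lit 11) (.e (nat_lit 426138) (nat_lit 3) (.e (nat_lit 204869) (nat_lit 29) (.e (nat_lit 360475) (nat_lit 8) (.e (nat_lit 557089) (nat_lit 12) (.e (nat_lit 171776) (nat_lit 48) .nil)))))) (.g (nat_lit 1) (.e (nat_lit 445222) (nat_lit 0) .nil) .nil))))) (.nd (nat_lit 7) (.nd (nat_lit 8) (.nd (nat_lit 9) 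
(.lf (nat_lit 609402) (.g (nat_lit 2508) (.e (nat_lit 712745) (nat_lit 27) (.e (nat_lit 426347) (nat_lit 14) (.e (nat_lit 491570) (nat_lit 13) (.e (nat_lit 393281) (nat_lit 23) (.e (nat_lit 426413) (nat_lit 15) .nil))))) (.g (nat_lit 0) (.e (nat_lit 444507) (nat_lit 0) .nil) .nil))) 
(.lf (nat_lit 609914) (.g (nat_lit 2275) (.e (nat_lit 729096) (nat_lit 11) (.e (nat_lit 426137) (nat_lit 3) (.e (nat_lit 204869) (nat_lit 29) (.e (nat_lit 360474) (nat_lit 8) (.e (nat_lit 557094) (nat_lit 12) (.e (nat_lit 171776) (nat_lit 49) .nil)))))) (.g (nat_lit 1) (.e (nat_lit 446138) (nat_lit 0) .nil) .nil)))) 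
(.lf (nat_lit 609658) (.g (nat_lit 349) (.e (nat_lit 712755) (nat_lit 30) (.e (nat_lit 450593) (nat_lit 16) (.e (nat_lit 655364) (nat_lit 0) .nil))) (.g (nat_lit 0) (.e (nat_lit 444846) (nat_lit 0) .nil) .nil)))) (.nd (nat_lit 8) (.nd (nat_lit 9) 
(.lf (nat_lit 609530) (.g (nat_lit 2661) (.e (nat_lit 712753) (nat_lit 30) (.e (nat_lit 450579) (nat_lit 5) (.e (nat_lit 532501) (nat_lit 1) (.e (nat_lit 57663) (nat_lit 152) (.e (nat_lit 2725) (nat_lit 172) (.e (nat_lit 237578) (nat_lit 0) (.e (nat_lit 7936) (nat_lit 219) .nil))))))) (.g (nat_lit 1) (.e (nat_lit 444695) (nat_lit 0) .nil) .nil))) 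
(.lf (nat_lit 610042) (.g (nat_lit 2713) (.e (nat_lit 745491) (nat_lit 4) (.e (nat_lit 65619) (nat_lit 10) (.e (nat_lit 344129) (nat_lit 26) (.e (nat_lit 557118) (nat_lit 18) (.e (nat_lit 2807) (nat_lit 180) (.e (nat_lit 303137) (nat_lit 10) (.e (nat_lit 434295) (nat_lit 49) .nil))))))) (.g (nat_lit 1) (.e (nat_lit 446995) (nat_lit 0) .nil) .nil)))) 
(.lf (nat_lit 609786) (.g (nat_lit 4691) (.e (nat_lit 720909) (nat_lit 11) (.e (nat_lit 426133) (nat_lit 3) (.e (nat_lit 204869) (nat_lit 29) (.e (nat_lit 360475) (nat_lit 8) (.e (nat_lit 557089) (nat_lit 12) (.e (nat_lit 171776) (nat_lit 48) .nil)))))) (.g (nat_lit 1) (.e (nat_lit 445392) (nat_lit 0) .nil) .nil))))))))) 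
(.nd (nat_lit 3) (.nd (nat_lit 4) (.nd (nat_lit 5) (.nd (nat_lit 6) (.nd (nat_lit 7) 
(.nd (nat_lit 8) (.nd (nat_lit 9) 
(.lf (nat_lit 609286) (.g (nat_lit 1106) (.e (nat_lit 704738) (nat_lit 11) (.e (nat_lit 16466) (nat_lit 13) (.e (nat_lit 483356) (nat_lit 17) (.e (nat_lit 7936) (nat_lit 362) .nil)))) (.g (nat_lit 0) (.e (nat_lit 443976) (nat_lit 0) .nil) .nil))) 
(.lf (nat_lit 609798) (.g (nat_lit 2320) (.e (nat_lit 720909) (nat_lit 11) (.e (nat_lit 426138) (nat_lit 3) (.e (nat_lit 204868) (nat_lit 29) (.e (nat_lit 360473) (nat_lit 8) (.e (nat_lit 557091) (nat_lit 12) (.e (nat_lit 171776) (nat_lit 48) .nil)))))) (.g (nat_lit 1) (.e (nat_lit 445410) (nat_lit 0) .nil) .nil)))) (.nd (nat_lit 9) 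
(.lf (nat_lit 609542) (.g (nat_lit 2820) (.e (nat_lit 712753) (nat_lit 30) (.e (nat_lit 450579) (nat_lit 5) (.e (nat_lit 532504) (nat_lit 1) (.e (nat_lit 57663) (nat_lit 152) (.e (nat_lit 2630) (nat_lit 164) (.e (nat_lit 172049) (nat_lit 0) (.e (nat_lit 7936) (nat_lit 219) .nil))))))) (.g (nat_lit 1) (.e (nat_lit 444707) (nat_lit 0) .nil) .nil))) 
(.lf (nat_lit 610054) (.g (nat_lit 886) (.e (nat_lit 745509) (nat_lit 11) (.e (nat_lit 24628) (nat_lit 9) (.e (nat_lit 336369) (nat_lit 27) .nil))) (.g (nat_lit 0) (.e (nat_lit 447044) (nat_lit 0) .nil) .nil))))) (.nd (nat_lit 8) (.nd (nat_lit 9) 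
(.lf (nat_lit 609414) (.g (nat_lit 1983) (.e (nat_lit 712745) (nat_lit 27) (.e (nat_lit 426347) (nat_lit 14) (.e (nat_lit 491571) (nat_lit 13) (.e (nat_lit 393267) (nat_lit 23) (.e (nat_lit 426420) (nat_lit 15) .nil))))) (.g (nat_lit 0) (.e (nat_lit 444520) (nat_lit 0) .nil) .nil))) 
(.lf (nat_lit 609926) (.g (nat_lit 3746) (.e (nat_lit 729098) (nat_lit 11) (.e (nat_lit 426139) (nat_lit 3) (.e (nat_lit 204869) (nat_lit 29) (.e (nat_lit 360475) (nat_lit 8) (.e (nat_lit 557091) (nat_lit 12) (.e (nat_lit 171776) (nat_lit 49) .nil)))))) (.g (nat_lit 1) (.e (nat_lit 446172) (nat_lit 0) .nil) .nil)))) 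
(.lf (nat_lit 609670) (.g (nat_lit 1467) (.e (nat_lit 712761) (nat_lit 34) (.e (nat_lit 483413) (nat_lit 27) (.e (nat_lit 401426) (nat_lit 3) (.e (nat_lit 204837) (nat_lit 20) .nil)))) (.g (nat_lit 0) (.e (nat_lit 444957) (nat_lit 0) .nil) .nil))))) (.nd (nat_lit 7) (.nd (nat_lit 8) (.nd (nat_lit 9) 
(.lf (nat_lit 609350) (.g (nat_lit 3250) (.e (nat_lit 712742) (nat_lit 27) (.e (nat_lit 426338) (nat_lit 14) (.e (nat_lit 491570) (nat_lit 13) (.e (nat_lit 393271) (nat_lit 23) (.e (nat_lit 426402) (nat_lit 15) (.e (nat_lit 2162) (nat_lit 143) .nil)))))) (.g (nat_lit 1) (.e (nat_lit 444418) (nat_lit 0) .nil) .nil))) 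
(.lf (nat_lit 609862) (.g (nat_lit 3559) (.e (nat_lit 720941) (nat_lit 22) (.e (nat_lit 90160) (nat_lit 11) (.e (nat_lit 24665) (nat_lit 14) (.e (nat_lit 401426) (nat_lit 3) (.e (nat_lit 204882) (nat_lit 32) (.e (nat_lit 392960) (nat_lit 42) .nil)))))) (.g (nat_lit 1) (.e (nat_lit 445946) (nat_lit 0) .nil) .nil)))) 
(.lf (nat_lit 609606) (.g (nat_lit 3220) (.e (nat_lit 712754) (nat_lit 30) (.e (nat_lit 450588) (nat_lit 10) (.e (nat_lit 573475) (nat_lit 12) (.e (nat_lit 57509) (nat_lit 39) (.e (nat_lit 647199) (nat_lit 11) (.e (nat_lit 16388) (nat_lit 0) (.e (nat_lit 3548) (nat_lit 219) .nil))))))) (.g (nat_lit 1) (.e (nat_lit 444783) (nat_lit 0) .nil) .nil)))) (.nd (nat_lit 8) (.nd (nat_lit 9) 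
(.lf (nat_lit 609478) (.g (nat_lit 995) (.e (nat_lit 712751) (nat_lit 29) (.e (nat_lit 442430) (nat_lit 24) (.e (nat_lit 229665) (nat_lit 240) (.e (nat_lit 2651) (nat_lit 166) .nil)))) (.g (nat_lit 0) (.e (nat_lit 444624) (nat_lit 0) .nil) .nil))) 
(.lf (nat_lit 609990) (.g (nat_lit 1009) (.e (nat_lit 745216) (nat_lit 15) (.e (nat_lit 49189) (nat_lit 11) (.e (nat_lit 16425) (nat_lit 7) (.e (nat_lit 409646) (nat_lit 18) .nil)))) (.g (nat_lit 0) (.e (nat_lit 446929) (nat_lit 0) .nil) .nil)))) 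
(.lf (nat_lit 609734) (.g (nat_lit 2807) (.e (nat_lit 720909) (nat_lit 11) (.e (nat_lit 426114) (nat_lit 2) (.e (nat_lit 196666) (nat_lit 13) (.e (nat_lit 65617) (nat_lit 10) (.e (nat_lit 344132) (nat_lit 26) (.e (nat_lit 557094) (nat_lit 12) (.e (nat_lit 171776) (nat_lit 48) .nil))))))) (.g (nat_lit 1) (.e (nat_lit 445309) (nat_lit 0) .nil) .nil)))))) 
(.nd (nat_lit 6) (.nd (nat_lit 7) (.nd (nat_lit 8) (.nd (nat_lit 9) 
(.lf (nat_lit 609318) (.g (nat_lit 2058) (.e (nat_lit 712719) (nat_lit 15) (.e (nat_lit 3238) (nat_lit 197) (.e (nat_lit 532543) (nat_lit 10) (.e (nat_lit 344117) (nat_lit 21) (.e (nat_lit 516123) (nat_lit 2) .nil))))) (.g (nat_lit 0) (.e (nat_lit 444113) (nat_lit 0) .nil) .nil))) 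
(.lf (nat_lit 609830) (.g (nat_lit 1901) (.e (nat_lit 720909) (nat_lit 11) (.e (nat_lit 426200) (nat_lit 9) (.e (nat_lit 426550) (nat_lit 31) (.e (nat_lit 368656) (nat_lit 14) (.e (nat_lit 57809) (nat_lit 246) (.e (nat_lit 57610) (nat_lit 109) .nil)))))) (.g (nat_lit 1) (.e (nat_lit 445482) (nat_lit 0) .nil) .nil)))) 
(.lf (nat_lit 609574) (.g (nat_lit 3419) (.e (nat_lit 712753) (nat_lit 30) (.e (nat_lit 450586) (nat_lit 10) (.e (nat_lit 573475) (nat_lit 12) (.e (nat_lit 57503) (nat_lit 38) (.e (nat_lit 638998) (nat_lit 8) (.e (nat_lit 172034) (nat_lit 0) (.e (nat_lit 3549) (nat_lit 219) .nil))))))) (.g (nat_lit 1) (.e (nat_lit 444739) (nat_lit 0) .nil) .nil)))) (.nd (nat_lit 8) (.nd (nat_lit 9) 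
(.lf (nat_lit 609446) (.g (nat_lit 788) (.e (nat_lit 712750) (nat_lit 29) (.e (nat_lit 442421) (nat_lit 21) (.e (nat_lit 164348) (nat_lit 240) .nil))) (.g (nat_lit 0) (.e (nat_lit 444574) (nat_lit 0) .nil) .nil))) 
(.lf (nat_lit 609958) (.g (nat_lit 2188) (.e (nat_lit 737300) (nat_lit 7) (.e (nat_lit 286753) (nat_lit 10) (.e (nat_lit 344138) (nat_lit 29) (.e (nat_lit 581653) (nat_lit 6) (.e (nat_lit 188431) (nat_lit 20) (.e (nat_lit 3571) (nat_lit 222) .nil)))))) (.g (nat_lit 1) (.e (nat_lit 446870) (nat_lit 0) .nil) .nil)))) 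
(.lf (nat_lit 609702) (.g (nat_lit 2441) (.e (nat_lit 720908) (nat_lit 11) (.e (nat_lit 426123) (nat_lit 2) (.e (nat_lit 196666) (nat_lit 13) (.e (nat_lit 65617) (nat_lit 10) (.e (nat_lit 344130) (nat_lit 26) (.e (nat_lit 557090) (nat_lit 12) (.e (nat_lit 171776) (nat_lit 48) .nil))))))) (.g (nat_lit 1) (.e (nat_lit 445197) (nat_lit 0) .nil) .nil))))) 
(.nd (nat_lit 7) (.nd (nat_lit 8) (.nd (nat_lit 9) 
(.lf (nat_lit 609382) (.g (nat_lit 1799) (.e (nat_lit 712745) (nat_lit 27) (.e (nat_lit 426347) (nat_lit 14) (.e (nat_lit 491569) (nat_lit 13) (.e (nat_lit 393292) (nat_lit 26) .nil)))) (.g (nat_lit 0) (.e (nat_lit 444486) (nat_lit 0) .nil) .nil))) 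
(.lf (nat_lit 609894) (.g (nat_lit 3063) (.e (nat_lit 720952) (nat_lit 24) (.e (nat_lit 106536) (nat_lit 11) (.e (nat_lit 16425) (nat_lit 7) (.e (nat_lit 409648) (nat_lit 18) (.e (nat_lit 303142) (nat_lit 12) .nil))))) (.g (nat_lit 0) (.e (nat_lit 446001) (nat_lit 0) .nil) .nil)))) 
(.lf (nat_lit 609638) (.g (nat_lit 3311) (.e (nat_lit 712755) (nat_lit 30) (.e (nat_lit 450588) (nat_lit 10) (.e (nat_lit 573474) (nat_lit 12) (.e (nat_lit 57503) (nat_lit 38) (.e (nat_lit 638985) (nat_lit 5) (.e (nat_lit 2884) (nat_lit 184) (.e (nat_lit 426025) (nat_lit 0) (.e (nat_lit 3543) (nat_lit 219) .nil)))))))) (.g (nat_lit 1) (.e (nat_lit 444825) (nat_lit 0) .nil) .nil)))) 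
(.nd (nat_lit 8) (.nd (nat_lit 9) 
(.lf (nat_lit 609510) (.g (nat_lit 2783) (.e (nat_lit 712753) (nat_lit 30) (.e (nat_lit 450565) (nat_lit 0) (.e (nat_lit 5548) (nat_lit 306) (.e (nat_lit 2648) (nat_lit 166) (.e (nat_lit 188418) (nat_lit 0) (.e (nat_lit 2174) (nat_lit 143) .nil)))))) (.g (nat_lit 1) (.e (nat_lit 444675) (nat_lit 0) .nil) .nil))) 
(.lf (nat_lit 610022) (.g (nat_lit 1608) (.e (nat_lit 745491) (nat_lit 4) (.e (nat_lit 65611) (nat_lit 10) (.e (nat_lit 344138) (nat_lit 29) (.e (nat_lit 581653) (nat_lit 6) (.e (nat_lit 188441) (nat_lit 20) (.e (nat_lit 3578) (nat_lit 223) .nil)))))) (.g (nat_lit 1) (.e (nat_lit 446969) (nat_lit 0) .nil) .nil)))) 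
(.lf (nat_lit 609766) (.g (nat_lit 1537) (.e (nat_lit 720909) (nat_lit 11) (.e (nat_lit 426124) (nat_lit 2) (.e (nat_lit 196674) (nat_lit 15) (.e (nat_lit 81940) (nat_lit 20) .nil)))) (.g (nat_lit 0) (.e (nat_lit 445356) (nat_lit 0) .nil) .nil))))))) (.nd (nat_lit 5) (.nd (nat_lit 6) (.nd (nat_lit 7) (.nd (nat_lit 8) (.nd (nat_lit 9) 
(.lf (nat_lit 609302) (.g (nat_lit 1333) (.e (nat_lit 704742) (nat_lit 11) (.e (nat_lit 16466) (nat_lit 13) (.e (nat_lit 483393) (nat_lit 23) (.e (nat_lit 335988) (nat_lit 1) .nil)))) (.g (nat_lit 0) (.e (nat_lit 444028) (nat_lit 0) .nil) .nil))) 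
(.lf (nat_lit 609814) (.g (nat_lit 3972) (.e (nat_lit 720909) (nat_lit 11) (.e (nat_lit 426139) (nat_lit 3) (.e (nat_lit 204869) (nat_lit 29) (.e (nat_lit 360475) (nat_lit 8) (.e (nat_lit 557091) (nat_lit 12) (.e (nat_lit 171776) (nat_lit 48) .nil)))))) (.g (nat_lit 1) (.e (nat_lit 445433) (nat_lit 0) .nil) .nil)))) 
(.lf (nat_lit 609558) (.g (nat_lit 2588) (.e (nat_lit 712753) (nat_lit 30) (.e (nat_lit 450586) (nat_lit 10) (.e (nat_lit 573473) (nat_lit 12) (.e (nat_lit 57504) (nat_lit 38) (.e (nat_lit 638999) (nat_lit 8) (.e (nat_lit 172035) (nat_lit 0) (.e (nat_lit 3547) (nat_lit 219) .nil))))))) (.g (nat_lit 1) (.e (nat_lit 444723) (nat_lit 0) .nil) .nil)))) (.nd (nat_lit 8) (.nd (nat_lit 9) 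
(.lf (nat_lit 609430) (.g (nat_lit 2576) (.e (nat_lit 712745) (nat_lit 27) (.e (nat_lit 426347) (nat_lit 14) (.e (nat_lit 491571) (nat_lit 13) (.e (nat_lit 393281) (nat_lit 23) (.e (nat_lit 426413) (nat_lit 15) .nil))))) (.g (nat_lit 0) (.e (nat_lit 444537) (nat_lit 0) .nil) .nil))) 
(.lf (nat_lit 609942) (.g (nat_lit 917) (.e (nat_lit 737284) (nat_lit 0) (.e (nat_lit 5410) (nat_lit 303) (.e (nat_lit 73750) (nat_lit 6) (.e (nat_lit 540724) (nat_lit 28) (.e (nat_lit 442399) (nat_lit 20) (.e (nat_lit 3571) (nat_lit 222) .nil)))))) (.g (nat_lit 1) (.e (nat_lit 446776) (nat_lit 0) .nil) .nil)))) 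
(.lf (nat_lit 609686) (.g (nat_lit 1943) (.e (nat_lit 720907) (nat_lit 11) (.e (nat_lit 426129) (nat_lit 3) (.e (nat_lit 204868) (nat_lit 29) (.e (nat_lit 360473) (nat_lit 8) (.e (nat_lit 557089) (nat_lit 12) .nil))))) (.g (nat_lit 0) (.e (nat_lit 445139) (nat_lit 0) .nil) .nil))))) (.nd (nat_lit 7) (.nd (nat_lit 8) (.nd (nat_lit 9) 
(.lf (nat_lit 609366) (.g (nat_lit 2525) (.e (nat_lit 712745) (nat_lit 27) (.e (nat_lit 426347) (nat_lit 14) (.e (nat_lit 491549) (nat_lit 9) (.e (nat_lit 336430) (nat_lit 29) (.e (nat_lit 442377) (nat_lit 0) .nil))))) (.g (nat_lit 0) (.e (nat_lit 444467) (nat_lit 0) .nil) .nil))) 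
(.lf (nat_lit 609878) (.g (nat_lit 2358) (.e (nat_lit 720945) (nat_lit 23) (.e (nat_lit 98356) (nat_lit 26) (.e (nat_lit 426438) (nat_lit 18) (.e (nat_lit 98334) (nat_lit 18) (.e (nat_lit 164305) (nat_lit 226) (.e (nat_lit 2604) (nat_lit 163) (.e (nat_lit 163962) (nat_lit 25) (.e (nat_lit 532484) (nat_lit 0) (.e (nat_lit 2198) (nat_lit 144) .nil))))))))) (.g (nat_lit 1) (.e (nat_lit 445972) (nat_lit 0) .nil) .nil)))) 
(.lf (nat_lit 609622) (.g (nat_lit 1082) (.e (nat_lit 712755) (nat_lit 30) (.e (nat_lit 450566) (nat_lit 0) (.e (nat_lit 5543) (nat_lit 306) (.e (nat_lit 2648) (nat_lit 166) (.e (nat_lit 188418) (nat_lit 0) .nil))))) (.g (nat_lit 0) (.e (nat_lit 444808) (nat_lit 0) .nil) .nil)))) (.nd (nat_lit 8) (.nd (nat_lit 9) 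
(.lf (nat_lit 609494) (.g (nat_lit 543) (.e (nat_lit 712752) (nat_lit 29) (.e (nat_lit 442430) (nat_lit 24) (.e (nat_lit 229679) (nat_lit 244) .nil))) (.g (nat_lit 0) (.e (nat_lit 444653) (nat_lit 0) .nil) .nil))) 
(.lf (nat_lit 610006) (.g (nat_lit 1598) (.e (nat_lit 745490) (nat_lit 4) (.e (nat_lit 65610) (nat_lit 10) (.e (nat_lit 344138) (nat_lit 29) (.e (nat_lit 581653) (nat_lit 6) (.e (nat_lit 188441) (nat_lit 20) (.e (nat_lit 3579) (nat_lit 223) .nil)))))) (.g (nat_lit 1) (.e (nat_lit 446948) (nat_lit 0) .nil) .nil)))) 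
(.lf (nat_lit 609750) (.g (nat_lit 3612) (.e (nat_lit 720909) (nat_lit 11) (.e (nat_lit 426123) (nat_lit 2) (.e (nat_lit 196666) (nat_lit 13) (.e (nat_lit 65610) (nat_lit 10) (.e (nat_lit 344129) (nat_lit 26) (.e (nat_lit 557089) (nat_lit 12) (.e (nat_lit 171776) (nat_lit 48) .nil))))))) (.g (nat_lit 1) (.e (nat_lit 445331) (nat_lit 0) .nil) .nil)))))) 
(.nd (nat_lit 6) (.nd (nat_lit 7) (.nd (nat_lit 8) (.nd (nat_lit 9) 
(.lf (nat_lit 609334) (.g (nat_lit 2794) (.e (nat_lit 712728) (nat_lit 18) (.e (nat_lit 204863) (nat_lit 27) (.e (nat_lit 344133) (nat_lit 26) (.e (nat_lit 557103) (nat_lit 14) (.e (nat_lit 188160) (nat_lit 3) .nil))))) (.g (nat_lit 0) (.e (nat_lit 444242) (nat_lit 0) .nil) .nil))) 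
(.lf (nat_lit 609846) (.g (nat_lit 1742) (.e (nat_lit 720931) (nat_lit 21) (.e (nat_lit 57927) (nat_lit 282) (.e (nat_lit 163933) (nat_lit 17) (.e (nat_lit 466976) (nat_lit 22) (.e (nat_lit 196628) (nat_lit 9) .nil))))) (.g (nat_lit 0) (.e (nat_lit 445920) (nat_lit 0) .nil) .nil)))) 
(.lf (nat_lit 609590) (.g (nat_lit 1153) (.e (nat_lit 712753) (nat_lit 30) (.e (nat_lit 450593) (nat_lit 16) (.e (nat_lit 655377) (nat_lit 4) (.e (nat_lit 172118) (nat_lit 12) .nil)))) (.g (nat_lit 0) (.e (nat_lit 444756) (nat_lit 0) .nil) .nil)))) (.nd (nat_lit 8) (.nd (nat_lit 9) 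
(.lf (nat_lit 609462) (.g (nat_lit 672) (.e (nat_lit 712750) (nat_lit 29) (.e (nat_lit 442430) (nat_lit 24) (.e (nat_lit 229679) (nat_lit 244) .nil))) (.g (nat_lit 0) (.e (nat_lit 444596) (nat_lit 0) .nil) .nil))) 
(.lf (nat_lit 609974) (.g (nat_lit 949) (.e (nat_lit 737318) (nat_lit 15) (.e (nat_lit 49185) (nat_lit 11) (.e (nat_lit 16425) (nat_lit 7) (.e (nat_lit 409645) (nat_lit 18) .nil)))) (.g (nat_lit 0) (.e (nat_lit 446911) (nat_lit 0) .nil) .nil)))) 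
(.lf (nat_lit 609718) (.g (nat_lit 1648) (.e (nat_lit 720908) (nat_lit 11) (.e (nat_lit 426138) (nat_lit 3) (.e (nat_lit 204868) (nat_lit 29) (.e (nat_lit 360473) (nat_lit 8) (.e (nat_lit 557094) (nat_lit 12) (.e (nat_lit 171776) (nat_lit 48) .nil)))))) (.g (nat_lit 1) (.e (nat_lit 445218) (nat_lit 0) .nil) .nil))))) (.nd (nat_lit 7) (.nd (nat_lit 8) (.nd (nat_lit 9) 
(.lf (nat_lit 609398) (.g (nat_lit 2468) (.e (nat_lit 712745) (nat_lit 27) (.e (nat_lit 426347) (nat_lit 14) (.e (nat_lit 491570) (nat_lit 13) (.e (nat_lit 393274) (nat_lit 23) (.e (nat_lit 426412) (nat_lit 15) .nil))))) (.g (nat_lit 0) (.e (nat_lit 444503) (nat_lit 0) .nil) .nil))) 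
(.lf (nat_lit 609910) (.g (nat_lit 2474) (.e (nat_lit 729095) (nat_lit 11) (.e (nat_lit 426140) (nat_lit 3) (.e (nat_lit 204869) (nat_lit 29) (.e (nat_lit 360474) (nat_lit 8) (.e (nat_lit 557094) (nat_lit 12) (.e (nat_lit 171776) (nat_lit 49) .nil)))))) (.g (nat_lit 1) (.e (nat_lit 446126) (nat_lit 0) .nil) .nil)))) 
(.lf (nat_lit 609654) (.g (nat_lit 3760) (.e (nat_lit 712755) (nat_lit 30) (.e (nat_lit 450597) (nat_lit 17) (.e (nat_lit 663589) (nat_lit 14) (.e (nat_lit 2798) (nat_lit 180) (.e (nat_lit 303143) (nat_lit 12) (.e (nat_lit 475210) (nat_lit 41) .nil)))))) (.g (nat_lit 1) (.e (nat_lit 444841) (nat_lit 0) .nil) .nil)))) (.nd (nat_lit 8) (.nd (nat_lit 9) 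
(.lf (nat_lit 609526) (.g (nat_lit 3141) (.e (nat_lit 712753) (nat_lit 30) (.e (nat_lit 450579) (nat_lit 5) (.e (nat_lit 532501) (nat_lit 1) (.e (nat_lit 57663) (nat_lit 152) (.e (nat_lit 2630) (nat_lit 164) (.e (nat_lit 172049) (nat_lit 0) (.e (nat_lit 7936) (nat_lit 219) .nil))))))) (.g (nat_lit 1) (.e (nat_lit 444691) (nat_lit 0) .nil) .nil))) 
(.lf (nat_lit 610038) (.g (nat_lit 1488) (.e (nat_lit 745491) (nat_lit 4) (.e (nat_lit 65619) (nat_lit 10) (.e (nat_lit 344138) (nat_lit 29) (.e (nat_lit 581653) (nat_lit 6) (.e (nat_lit 188435) (nat_lit 20) (.e (nat_lit 3578) (nat_lit 223) .nil)))))) (.g (nat_lit 1) (.e (nat_lit 446990) (nat_lit 0) .nil) .nil)))) 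
(.lf (nat_lit 609782) (.g (nat_lit 3581) (.e (nat_lit 720909) (nat_lit 11) (.e (nat_lit 426133) (nat_lit 3) (.e (nat_lit 204869) (nat_lit 29) (.e (nat_lit 360474) (nat_lit 8) (.e (nat_lit 557089) (nat_lit 12) .nil))))) (.g (nat_lit 0) (.e (nat_lit 445388) (nat_lit 0) .nil) .nil)))))))) (.nd (nat_lit 4) (.nd (nat_lit 5) (.nd (nat_lit 6) (.nd (nat_lit 7) (.nd (nat_lit 8) (.nd (nat_lit 9) 
(.lf (nat_lit 609294) (.g (nat_lit 693) (.e (nat_lit 704740) (nat_lit 11) (.e (nat_lit 16436) (nat_lit 9) (.e (nat_lit 426555) (nat_lit 32) .nil))) (.g (nat_lit 0) (.e (nat_lit 444000) (nat_lit 0) .nil) .nil))) 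
(.lf (nat_lit 609806) (.g (nat_lit 2783) (.e (nat_lit 720909) (nat_lit 11) (.e (nat_lit 426139) (nat_lit 3) (.e (nat_lit 204868) (nat_lit 29) (.e (nat_lit 360473) (nat_lit 8) (.e (nat_lit 557089) (nat_lit 12) (.e (nat_lit 171776) (nat_lit 48) .nil)))))) (.g (nat_lit 1) (.e (nat_lit 445425) (nat_lit 0) .nil) .nil)))) 
(.lf (nat_lit 609550) (.g (nat_lit 1960) (.e (nat_lit 712753) (nat_lit 30) (.e (nat_lit 450580) (nat_lit 5) (.e (nat_lit 532499) (nat_lit 1) (.e (nat_lit 57694) (nat_lit 157) .nil)))) (.g (nat_lit 0) (.e (nat_lit 444715) (nat_lit 0) .nil) .nil)))) (.nd (nat_lit 8) (.nd (nat_lit 9) 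
(.lf (nat_lit 609422) (.g (nat_lit 2019) (.e (nat_lit 712745) (nat_lit 27) (.e (nat_lit 426347) (nat_lit 14) (.e (nat_lit 491571) (nat_lit 13) (.e (nat_lit 393271) (nat_lit 23) .nil)))) (.g (nat_lit 0) (.e (nat_lit 444529) (nat_lit 0) .nil) .nil))) 
(.lf (nat_lit 609934) (.g (nat_lit 1440) (.e (nat_lit 729117) (nat_lit 25) (.e (nat_lit 114718) (nat_lit 23) (.e (nat_lit 98388) (nat_lit 33) (.e (nat_lit 491571) (nat_lit 13) .nil)))) (.g (nat_lit 0) (.e (nat_lit 446687) (nat_lit 0) .nil) .nil)))) 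
(.lf (nat_lit 609678) (.g (nat_lit 1186) (.e (nat_lit 728832) (nat_lit 4) (.e (nat_lit 213032) (nat_lit 11) (.e (nat_lit 24655) (nat_lit 13) (.e (nat_lit 393294) (nat_lit 26) .nil)))) (.g (nat_lit 0) (.e (nat_lit 445001) (nat_lit 0) .nil) .nil))))) (.nd (nat_lit 7) (.nd (nat_lit 8) (.nd (nat_lit 9) 
(.lf (nat_lit 609358) (.g (nat_lit 2223) (.e (nat_lit 712742) (nat_lit 27) (.e (nat_lit 426338) (nat_lit 14) (.e (nat_lit 491571) (nat_lit 13) (.e (nat_lit 393292) (nat_lit 26) (.e (nat_lit 475207) (nat_lit 41) .nil))))) (.g (nat_lit 0) (.e (nat_lit 444436) (nat_lit 0) .nil) .nil))) 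
(.lf (nat_lit 609870) (.g (nat_lit 1927) (.e (nat_lit 720944) (nat_lit 23) (.e (nat_lit 98334) (nat_lit 18) (.e (nat_lit 164330) (nat_lit 230) (.e (nat_lit 163873) (nat_lit 3) .nil)))) (.g (nat_lit 0) (.e (nat_lit 445956) (nat_lit 0) .nil) .nil)))) 
(.lf (nat_lit 609614) (.g (nat_lit 586) (.e (nat_lit 712755) (nat_lit 30) (.e (nat_lit 450564) (nat_lit 0) (.e (nat_lit 5546) (nat_lit 306) .nil))) (.g (nat_lit 0) (.e (nat_lit 444796) (nat_lit 0) .nil) .nil)))) (.nd (nat_lit 8) (.nd (nat_lit 9) 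
(.lf (nat_lit 609486) (.g (nat_lit 1938) (.e (nat_lit 712752) (nat_lit 29) (.e (nat_lit 442421) (nat_lit 21) (.e (nat_lit 164348) (nat_lit 240) (.e (nat_lit 2618) (nat_lit 164) .nil)))) (.g (nat_lit 0) (.e (nat_lit 444640) (nat_lit 0) .nil) .nil))) 
(.lf (nat_lit 609998) (.g (nat_lit 912) (.e (nat_lit 745475) (nat_lit 0) (.e (nat_lit 1598) (nat_lit 111) (.e (nat_lit 360477) (nat_lit 11) (.e (nat_lit 589568) (nat_lit 6) .nil)))) (.g (nat_lit 0) (.e (nat_lit 446937) (nat_lit 0) .nil) .nil)))) 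
(.lf (nat_lit 609742) (.g (nat_lit 3370) (.e (nat_lit 720909) (nat_lit 11) (.e (nat_lit 426121) (nat_lit 2) (.e (nat_lit 196666) (nat_lit 13) (.e (nat_lit 65617) (nat_lit 10) (.e (nat_lit 344132) (nat_lit 26) (.e (nat_lit 557093) (nat_lit 12) (.e (nat_lit 171776) (nat_lit 48) .nil))))))) (.g (nat_lit 1) (.e (nat_lit 445321) (nat_lit 0) .nil) .nil)))))) 
(.nd (nat_lit 6) (.nd (nat_lit 7) (.nd (nat_lit 8) (.nd (nat_lit 9) 
(.lf (nat_lit 609326) (.g (nat_lit 3799) (.e (nat_lit 712728) (nat_lit 18) (.e (nat_lit 204863) (nat_lit 27) (.e (nat_lit 344117) (nat_lit 21) (.e (nat_lit 516106) (nat_lit 0) (.e (nat_lit 3721) (nat_lit 227) .nil))))) (.g (nat_lit 0) (.e (nat_lit 444234) (nat_lit 0) .nil) .nil))) 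
(.lf (nat_lit 609838) (.g (nat_lit 459) (.e (nat_lit 728832) (nat_lit 16) (.e (nat_lit 466972) (nat_lit 21) (.e (nat_lit 164161) (nat_lit 152) .nil))) (.g (nat_lit 0) (.e (nat_lit 445899) (nat_lit 0) .nil) .nil)))) 
(.lf (nat_lit 609582) (.g (nat_lit 2228) (.e (nat_lit 712753) (nat_lit 30) (.e (nat_lit 450586) (nat_lit 10) (.e (nat_lit 573475) (nat_lit 12) (.e (nat_lit 57508) (nat_lit 39) (.e (nat_lit 647199) (nat_lit 11) (.e (nat_lit 16388) (nat_lit 0) (.e (nat_lit 3548) (nat_lit 219) .nil))))))) (.g (nat_lit 1) (.e (nat_lit 444747) (nat_lit 0) .nil) .nil)))) (.nd (nat_lit 8) (.nd (nat_lit 9) 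
(.lf (nat_lit 609454) (.g (nat_lit 2341) (.e (nat_lit 712750) (nat_lit 29) (.e (nat_lit 442430) (nat_lit 24) (.e (nat_lit 229663) (nat_lit 240) (.e (nat_lit 2653) (nat_lit 166) (.e (nat_lit 188418) (nat_lit 0) .nil))))) (.g (nat_lit 0) (.e (nat_lit 444587) (nat_lit 0) .nil) .nil))) 
(.lf (nat_lit 609966) (.g (nat_lit 2390) (.e (nat_lit 737300) (nat_lit 7) (.e (nat_lit 286755) (nat_lit 10) (.e (nat_lit 344138) (nat_lit 29) (.e (nat_lit 581653) (nat_lit 6) (.e (nat_lit 188431) (nat_lit 20) (.e (nat_lit 3572) (nat_lit 222) .nil)))))) (.g (nat_lit 1) (.e (nat_lit 446888) (nat_lit 0) .nil) .nil)))) 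
(.lf (nat_lit 609710) (.g (nat_lit 2260) (.e (nat_lit 720908) (nat_lit 11) (.e (nat_lit 426137) (nat_lit 3) (.e (nat_lit 204868) (nat_lit 29) (.e (nat_lit 360473) (nat_lit 8) (.e (nat_lit 557091) (nat_lit 12) (.e (nat_lit 171776) (nat_lit 48) .nil)))))) (.g (nat_lit 1) (.e (nat_lit 445210) (nat_lit 0) .nil) .nil))))) (.nd (nat_lit 7) (.nd (nat_lit 8) (.nd (nat_lit 9) 
(.lf (nat_lit 609390) (.g (nat_lit 3205) (.e (nat_lit 712745) (nat_lit 27) (.e (nat_lit 426347) (nat_lit 14) (.e (nat_lit 491570) (nat_lit 13) (.e (nat_lit 393271) (nat_lit 23) (.e (nat_lit 426375) (nat_lit 15) (.e (nat_lit 2175) (nat_lit 143) .nil)))))) (.g (nat_lit 1) (.e (nat_lit 444494) (nat_lit 0) .nil) .nil))) 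
(.lf (nat_lit 609902) (.g (nat_lit 2795) (.e (nat_lit 720956) (nat_lit 25) (.e (nat_lit 114698) (nat_lit 11) (.e (nat_lit 426182) (nat_lit 8) (.e (nat_lit 417828) (nat_lit 18) (.e (nat_lit 303143) (nat_lit 12) .nil))))) (.g (nat_lit 0) (.e (nat_lit 446018) (nat_lit 0) .nil) .nil)))) 
(.lf (nat_lit 609646) (.g (nat_lit 3181) (.e (nat_lit 712755) (nat_lit 30) (.e (nat_lit 450588) (nat_lit 10) (.e (nat_lit 573475) (nat_lit 12) (.e (nat_lit 57503) (nat_lit 38) (.e (nat_lit 638999) (nat_lit 8) (.e (nat_lit 172036) (nat_lit 0) (.e (nat_lit 3543) (nat_lit 219) .nil))))))) (.g (nat_lit 1) (.e (nat_lit 444833) (nat_lit 0) .nil) .nil)))) (.nd (nat_lit 8) (.nd (nat_lit 9) 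
(.lf (nat_lit 609518) (.g (nat_lit 2773) (.e (nat_lit 712753) (nat_lit 30) (.e (nat_lit 450569) (nat_lit 0) (.e (nat_lit 5448) (nat_lit 306) (.e (nat_lit 2651) (nat_lit 166) (.e (nat_lit 188420) (nat_lit 0) (.e (nat_lit 2174) (nat_lit 143) .nil)))))) (.g (nat_lit 1) (.e (nat_lit 444683) (nat_lit 0) .nil) .nil))) 
(.lf (nat_lit 610030) (.g (nat_lit 1585) (.e (nat_lit 745491) (nat_lit 4) (.e (nat_lit 65617) (nat_lit 10) (.e (nat_lit 344138) (nat_lit 29) (.e (nat_lit 581653) (nat_lit 6) (.e (nat_lit 188435) (nat_lit 20) (.e (nat_lit 3578) (nat_lit 223) .nil)))))) (.g (nat_lit 1) (.e (nat_lit 446979) (nat_lit 0) .nil) .nil)))) 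
(.lf (nat_lit 609774) (.g (nat_lit 1561) (.e (nat_lit 720909) (nat_lit 11) (.e (nat_lit 426124) (nat_lit 2) (.e (nat_lit 196674) (nat_lit 15) (.e (nat_lit 81947) (nat_lit 20) (.e (nat_lit 1859) (nat_lit 124) .nil))))) (.g (nat_lit 0) (.e (nat_lit 445368) (nat_lit 0) .nil) .nil))))))) (.nd (nat_lit 5) (.nd (nat_lit 6) (.nd (nat_lit 7) (.nd (nat_lit 8) (.nd (nat_lit 9) 
(.lf (nat_lit 609310) (.g (nat_lit 4171) (.e (nat_lit 704754) (nat_lit 12) (.e (nat_lit 57479) (nat_lit 28) (.e (nat_lit 557090) (nat_lit 12) (.e (nat_lit 164038) (nat_lit 55) .nil)))) (.g (nat_lit 0) (.e (nat_lit 444063) (nat_lit 0) .nil) .nil))) 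
(.lf (nat_lit 609822) (.g (nat_lit 1705) (.e (nat_lit 720909) (nat_lit 11) (.e (nat_lit 426198) (nat_lit 9) (.e (nat_lit 426550) (nat_lit 31) (.e (nat_lit 368656) (nat_lit 14) (.e (nat_lit 57809) (nat_lit 246) (.e (nat_lit 57610) (nat_lit 109) .nil)))))) (.g (nat_lit 1) (.e (nat_lit 445455) (nat_lit 0) .nil) .nil)))) 
(.lf (nat_lit 609566) (.g (nat_lit 2069) (.e (nat_lit 712753) (nat_lit 30) (.e (nat_lit 450586) (nat_lit 10) (.e (nat_lit 573473) (nat_lit 12) (.e (nat_lit 57508) (nat_lit 39) (.e (nat_lit 647195) (nat_lit 9) (.e (nat_lit 426) (nat_lit 32) (.e (nat_lit 426012) (nat_lit 0) (.e (nat_lit 3546) (nat_lit 219) .nil)))))))) (.g (nat_lit 1) (.e (nat_lit 444731) (nat_lit 0) .nil) .nil)))) 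
(.nd (nat_lit 8) (.nd (nat_lit 9) 
(.lf (nat_lit 609438) (.g (nat_lit 1745) (.e (nat_lit 712750) (nat_lit 29) (.e (nat_lit 442419) (nat_lit 21) (.e (nat_lit 164348) (nat_lit 240) (.e (nat_lit 2628) (nat_lit 164) .nil)))) (.g (nat_lit 0) (.e (nat_lit 444562) (nat_lit 0) .nil) .nil))) 
(.lf (nat_lit 609950) (.g (nat_lit 1528) (.e (nat_lit 737299) (nat_lit 7) (.e (nat_lit 286756) (nat_lit 10) (.e (nat_lit 344138) (nat_lit 29) (.e (nat_lit 581653) (nat_lit 6) (.e (nat_lit 188431) (nat_lit 20) (.e (nat_lit 3572) (nat_lit 222) .nil)))))) (.g (nat_lit 1) (.e (nat_lit 446851) (nat_lit 0) .nil) .nil)))) 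
(.lf (nat_lit 609694) (.g (nat_lit 3127) (.e (nat_lit 720908) (nat_lit 11) (.e (nat_lit 426121) (nat_lit 2) (.e (nat_lit 196666) (nat_lit 13) (.e (nat_lit 65617) (nat_lit 10) (.e (nat_lit 344130) (nat_lit 26) (.e (nat_lit 557090) (nat_lit 12) (.e (nat_lit 171776) (nat_lit 48) .nil))))))) (.g (nat_lit 1) (.e (nat_lit 445189) (nat_lit 0) .nil) .nil))))) 
(.nd (nat_lit 7) (.nd (nat_lit 8) (.nd (nat_lit 9) 
(.lf (nat_lit 609374) (.g (nat_lit 3266) (.e (nat_lit 712745) (nat_lit 27) (.e (nat_lit 426347) (nat_lit 14) (.e (nat_lit 491569) (nat_lit 13) (.e (nat_lit 393271) (nat_lit 23) (.e (nat_lit 426375) (nat_lit 15) .nil))))) (.g (nat_lit 0) (.e (nat_lit 444477) (nat_lit 0) .nil) .nil))) 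
(.lf (nat_lit 609886) (.g (nat_lit 2283) (.e (nat_lit 720946) (nat_lit 24) (.e (nat_lit 106534) (nat_lit 11) (.e (nat_lit 16425) (nat_lit 7) (.e (nat_lit 409647) (nat_lit 18) (.e (nat_lit 303143) (nat_lit 12) .nil))))) (.g (nat_lit 0) (.e (nat_lit 445984) (nat_lit 0) .nil) .nil)))) 
(.lf (nat_lit 609630) (.g (nat_lit 3731) (.e (nat_lit 712755) (nat_lit 30) (.e (nat_lit 450587) (nat_lit 10) (.e (nat_lit 573475) (nat_lit 12) (.e (nat_lit 57503) (nat_lit 38) (.e (nat_lit 638999) (nat_lit 8) (.e (nat_lit 172039) (nat_lit 0) (.e (nat_lit 3543) (nat_lit 219) .nil))))))) (.g (nat_lit 1) (.e (nat_lit 444817) (nat_lit 0) .nil) .nil)))) (.nd (nat_lit 8) (.nd (nat_lit 9) 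
(.lf (nat_lit 609502) (.g (nat_lit 1316) (.e (nat_lit 712753) (nat_lit 30) (.e (nat_lit 450564) (nat_lit 0) (.e (nat_lit 5547) (nat_lit 306) (.e (nat_lit 2629) (nat_lit 164) .nil)))) (.g (nat_lit 0) (.e (nat_lit 444663) (nat_lit 0) .nil) .nil))) 
(.lf (nat_lit 610014) (.g (nat_lit 1286) (.e (nat_lit 745491) (nat_lit 4) (.e (nat_lit 65610) (nat_lit 10) (.e (nat_lit 344138) (nat_lit 29) (.e (nat_lit 581653) (nat_lit 6) (.e (nat_lit 188439) (nat_lit 20) (.e (nat_lit 3577) (nat_lit 223) .nil)))))) (.g (nat_lit 1) (.e (nat_lit 446959) (nat_lit 0) .nil) .nil)))) 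
(.lf (nat_lit 609758) (.g (nat_lit 2559) (.e (nat_lit 720909) (nat_lit 11) (.e (nat_lit 426124) (nat_lit 2) (.e (nat_lit 196666) (nat_lit 13) (.e (nat_lit 65610) (nat_lit 10) (.e (nat_lit 344129) (nat_lit 26) .nil))))) (.g (nat_lit 0) (.e (nat_lit 445342) (nat_lit 0) .nil) .nil)))))) (.nd (nat_lit 6) (.nd (nat_lit 7) (.nd (nat_lit 8) (.nd (nat_lit 9) 
(.lf (nat_lit 609342) (.g (nat_lit 3407) (.e (nat_lit 712740) (nat_lit 27) (.e (nat_lit 426544) (nat_lit 30) (.e (nat_lit 360475) (nat_lit 8) (.e (nat_lit 557091) (nat_lit 12) (.e (nat_lit 164002) (nat_lit 40) (.e (nat_lit 655398) (nat_lit 12) (.e (nat_lit 57548) (nat_lit 47) .nil))))))) (.g (nat_lit 1) (.e (nat_lit 444378) (nat_lit 0) .nil) .nil))) 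
(.lf (nat_lit 609854) (.g (nat_lit 3812) (.e (nat_lit 720937) (nat_lit 22) (.e (nat_lit 90160) (nat_lit 11) (.e (nat_lit 24665) (nat_lit 14) (.e (nat_lit 401414) (nat_lit 0) (.e (nat_lit 3272) (nat_lit 199) .nil))))) (.g (nat_lit 0) (.e (nat_lit 445936) (nat_lit 0) .nil) .nil)))) 
(.lf (nat_lit 609598) (.g (nat_lit 2773) (.e (nat_lit 712754) (nat_lit 30) (.e (nat_lit 450588) (nat_lit 10) (.e (nat_lit 573475) (nat_lit 12) (.e (nat_lit 57503) (nat_lit 38) (.e (nat_lit 638998) (nat_lit 8) .nil))))) (.g (nat_lit 0) (.e (nat_lit 444772) (nat_lit 0) .nil) .nil)))) (.nd (nat_lit 8) (.nd (nat_lit 9) 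
(.lf (nat_lit 609470) (.g (nat_lit 2595) (.e (nat_lit 712750) (nat_lit 29) (.e (nat_lit 442430) (nat_lit 24) (.e (nat_lit 229681) (nat_lit 244) (.e (nat_lit 163932) (nat_lit 17) (.e (nat_lit 466947) (nat_lit 0) (.e (nat_lit 2173) (nat_lit 143) .nil)))))) (.g (nat_lit 1) (.e (nat_lit 444604) (nat_lit 0) .nil) .nil))) 
(.lf (nat_lit 609982) (.g (nat_lit 3060) (.e (nat_lit 737318) (nat_lit 15) (.e (nat_lit 49188) (nat_lit 11) (.e (nat_lit 16425) (nat_lit 7) (.e (nat_lit 409646) (nat_lit 18) (.e (nat_lit 303133) (nat_lit 9) (.e (nat_lit 426412) (nat_lit 15) (.e (nat_lit 2233) (nat_lit 146) .nil))))))) (.g (nat_lit 1) (.e (nat_lit 446921) (nat_lit 0) .nil) .nil)))) 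
(.lf (nat_lit 609726) (.g (nat_lit 2056) (.e (nat_lit 720908) (nat_lit 11) (.e (nat_lit 426139) (nat_lit 3) (.e (nat_lit 204868) (nat_lit 29) (.e (nat_lit 360473) (nat_lit 8) (.e (nat_lit 557093) (nat_lit 12) (.e (nat_lit 171776) (nat_lit 48) .nil)))))) (.g (nat_lit 1) (.e (nat_lit 445226) (nat_lit 0) .nil) .nil))))) (.nd (nat_lit 7) (.nd (nat_lit 8) (.nd (nat_lit 9) 
(.lf (nat_lit 609406) (.g (nat_lit 214) (.e (nat_lit 712745) (nat_lit 27) (.e (nat_lit 426347) (nat_lit 14) (.e (nat_lit 491571) (nat_lit 13) .nil))) (.g (nat_lit 0) (.e (nat_lit 444512) (nat_lit 0) .nil) .nil))) 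
(.lf (nat_lit 609918) (.g (nat_lit 3850) (.e (nat_lit 729098) (nat_lit 11) (.e (nat_lit 426123) (nat_lit 2) (.e (nat_lit 196666) (nat_lit 13) (.e (nat_lit 65610) (nat_lit 10) (.e (nat_lit 344129) (nat_lit 26) (.e (nat_lit 557090) (nat_lit 12) (.e (nat_lit 171776) (nat_lit 49) .nil))))))) (.g (nat_lit 1) (.e (nat_lit 446156) (nat_lit 0) .nil) .nil)))) 
(.lf (nat_lit 609662) (.g (nat_lit 1261) (.e (nat_lit 712757) (nat_lit 32) (.e (nat_lit 466972) (nat_lit 21) (.e (nat_lit 164402) (nat_lit 256) (.e (nat_lit 57450) (nat_lit 20) .nil)))) (.g (nat_lit 0) (.e (nat_lit 444850) (nat_lit 0) .nil) .nil)))) (.nd (nat_lit 8) (.nd (nat_lit 9) 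
(.lf (nat_lit 609534) (.g (nat_lit 2008) (.e (nat_lit 712753) (nat_lit 30) (.e (nat_lit 450579) (nat_lit 5) (.e (nat_lit 532503) (nat_lit 1) (.e (nat_lit 57653) (nat_lit 152) (.e (nat_lit 2635) (nat_lit 165) (.e (nat_lit 188160) (nat_lit 27) .nil)))))) (.g (nat_lit 1) (.e (nat_lit 444699) (nat_lit 0) .nil) .nil))) 
(.lf (nat_lit 610046) (.g (nat_lit 1280) (.e (nat_lit 745491) (nat_lit 4) (.e (nat_lit 65620) (nat_lit 10) (.e (nat_lit 344138) (nat_lit 29) (.e (nat_lit 581653) (nat_lit 6) (.e (nat_lit 188435) (nat_lit 20) (.e (nat_lit 3578) (nat_lit 223) .nil)))))) (.g (nat_lit 1) (.e (nat_lit 447000) (nat_lit 0) .nil) .nil)))) 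
(.lf (nat_lit 609790) (.g (nat_lit 1735) (.e (nat_lit 720909) (nat_lit 11) (.e (nat_lit 426137) (nat_lit 3) (.e (nat_lit 204868) (nat_lit 29) (.e (nat_lit 360473) (nat_lit 8) (.e (nat_lit 557093) (nat_lit 12) (.e (nat_lit 171776) (nat_lit 48) .nil)))))) (.g (nat_lit 1) (.e (nat_lit 445402) (nat_lit 0) .nil) .nil))))))))))) 
(.nd (nat_lit 1) (.nd (nat_lit 2) (.nd (nat_lit 3) (.nd (nat_lit 4) (.nd (nat_lit 5) 
(.nd (nat_lit 6) (.nd (nat_lit 7) (.nd (nat_lit 8) (.nd (nat_lit 9) 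
(.lf (nat_lit 609281) (.g (nat_lit 1499) (.e (nat_lit 704738) (nat_lit 11) (.e (nat_lit 16464) (nat_lit 13) (.e (nat_lit 483410) (nat_lit 27) (.e (nat_lit 401448) (nat_lit 10) (.e (nat_lit 434291) (nat_lit 44) .nil))))) (.g (nat_lit 0) (.e (nat_lit 443971) (nat_lit 0) .nil) .nil))) 
(.lf (nat_lit 609793) (.g (nat_lit 3089) (.e (nat_lit 720909) (nat_lit 11) (.e (nat_lit 426137) (nat_lit 3) (.e (nat_lit 204869) (nat_lit 29) (.e (nat_lit 360474) (nat_lit 8) (.e (nat_lit 557091) (nat_lit 12) (.e (nat_lit 171776) (nat_lit 48) .nil)))))) (.g (nat_lit 1) (.e (nat_lit 445405) (nat_lit 0) .nil) .nil)))) (.nd (nat_lit 9) 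
(.lf (nat_lit 609537) (.g (nat_lit 1871) (.e (nat_lit 712753) (nat_lit 30) (.e (nat_lit 450579) (nat_lit 5) (.e (nat_lit 532504) (nat_lit 1) (.e (nat_lit 57651) (nat_lit 152) (.e (nat_lit 2636) (nat_lit 165) (.e (nat_lit 188160) (nat_lit 27) .nil)))))) (.g (nat_lit 1) (.e (nat_lit 444702) (nat_lit 0) .nil) .nil))) 
(.lf (nat_lit 610049) (.g (nat_lit 1588) (.e (nat_lit 745491) (nat_lit 4) (.e (nat_lit 65620) (nat_lit 10) (.e (nat_lit 344138) (nat_lit 29) (.e (nat_lit 581653) (nat_lit 6) (.e (nat_lit 188441) (nat_lit 20) (.e (nat_lit 3578) (nat_lit 223) .nil)))))) (.g (nat_lit 1) (.e (nat_lit 447003) (nat_lit 0) .nil) .nil))))) (.nd (nat_lit 8) (.nd (nat_lit 9) 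
(.lf (nat_lit 609409) (.g (nat_lit 1500) (.e (nat_lit 712745) (nat_lit 27) (.e (nat_lit 426347) (nat_lit 14) (.e (nat_lit 491571) (nat_lit 13) (.e (nat_lit 393267) (nat_lit 23) .nil)))) (.g (nat_lit 0) (.e (nat_lit 444515) (nat_lit 0) .nil) .nil))) 
(.lf (nat_lit 609921) (.g (nat_lit 3014) (.e (nat_lit 729098) (nat_lit 11) (.e (nat_lit 426137) (nat_lit 3) (.e (nat_lit 204869) (nat_lit 29) (.e (nat_lit 360474) (nat_lit 8) (.e (nat_lit 557091) (nat_lit 12) (.e (nat_lit 171776) (nat_lit 49) .nil)))))) (.g (nat_lit 1) (.e (nat_lit 446163) (nat_lit 0) .nil) .nil)))) 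
(.lf (nat_lit 609665) (.g (nat_lit 1455) (.e (nat_lit 712761) (nat_lit 34) (.e (nat_lit 483380) (nat_lit 23) (.e (nat_lit 336326) (nat_lit 18) .nil))) (.g (nat_lit 0) (.e (nat_lit 444883) (nat_lit 0) .nil) .nil))))) (.nd (nat_lit 7) (.nd (nat_lit 8) (.nd (nat_lit 9) 
(.lf (nat_lit 609345) (.g (nat_lit 434) (.e (nat_lit 712742) (nat_lit 27) (.e (nat_lit 426338) (nat_lit 14) (.e (nat_lit 491549) (nat_lit 9) .nil))) (.g (nat_lit 0) (.e (nat_lit 444410) (nat_lit 0) .nil) .nil))) 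
(.lf (nat_lit 609857) (.g (nat_lit 5118) (.e (nat_lit 720941) (nat_lit 22) (.e (nat_lit 90159) (nat_lit 11) (.e (nat_lit 24662) (nat_lit 14) (.e (nat_lit 401428) (nat_lit 3) (.e (nat_lit 204882) (nat_lit 32) (.e (nat_lit 392960) (nat_lit 42) .nil)))))) (.g (nat_lit 1) (.e (nat_lit 445941) (nat_lit 0) .nil) .nil)))) 
(.lf (nat_lit 609601) (.g (nat_lit 2691) (.e (nat_lit 712754) (nat_lit 30) (.e (nat_lit 450588) (nat_lit 10) (.e (nat_lit 573475) (nat_lit 12) (.e (nat_lit 57507) (nat_lit 39) (.e (nat_lit 647190) (nat_lit 9) (.e (nat_lit 430) (nat_lit 32) (.e (nat_lit 426011) (nat_lit 0) (.e (nat_lit 3544) (nat_lit 219) .nil)))))))) (.g (nat_lit 1) (.e (nat_lit 444778) (nat_lit 0) .nil) .nil)))) 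
(.nd (nat_lit 8) (.nd (nat_lit 9) 
(.lf (nat_lit 609473) (.g (nat_lit 1573) (.e (nat_lit 712751) (nat_lit 29) (.e (nat_lit 442421) (nat_lit 21) (.e (nat_lit 164346) (nat_lit 240) (.e (nat_lit 2648) (nat_lit 166) (.e (nat_lit 188420) (nat_lit 0) .nil))))) (.g (nat_lit 0) (.e (nat_lit 444611) (nat_lit 0) .nil) .nil))) 
(.lf (nat_lit 609985) (.g (nat_lit 1391) (.e (nat_lit 737318) (nat_lit 15) (.e (nat_lit 49189) (nat_lit 11) (.e (nat_lit 16425) (nat_lit 7) (.e (nat_lit 409645) (nat_lit 18) (.e (nat_lit 303133) (nat_lit 9) .nil))))) (.g (nat_lit 0) (.e (nat_lit 446924) (nat_lit 0) .nil) .nil)))) 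
(.lf (nat_lit 609729) (.g (nat_lit 3407) (.e (nat_lit 720908) (nat_lit 11) (.e (nat_lit 426139) (nat_lit 3) (.e (nat_lit 204869) (nat_lit 29) (.e (nat_lit 360475) (nat_lit 8) (.e (nat_lit 557089) (nat_lit 12) (.e (nat_lit 171776) (nat_lit 48) .nil)))))) (.g (nat_lit 1) (.e (nat_lit 445229) (nat_lit 0) .nil) .nil)))))) (.nd (nat_lit 6) (.nd (nat_lit 7) (.nd (nat_lit 8) (.nd (nat_lit 9) 
(.lf (nat_lit 609313) (.g (nat_lit 461) (.e (nat_lit 704771) (nat_lit 14) (.e (nat_lit 1360) (nat_lit 102) (.e (nat_lit 286753) (nat_lit 10) .nil))) (.g (nat_lit 0) (.e (nat_lit 444081) (nat_lit 0) .nil) .nil))) 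
(.lf (nat_lit 609825) (.g (nat_lit 1725) (.e (nat_lit 720909) (nat_lit 11) (.e (nat_lit 426198) (nat_lit 9) (.e (nat_lit 426550) (nat_lit 31) (.e (nat_lit 368656) (nat_lit 14) (.e (nat_lit 57814) (nat_lit 246) (.e (nat_lit 57610) (nat_lit 109) .nil)))))) (.g (nat_lit 1) (.e (nat_lit 445458) (nat_lit 0) .nil) .nil)))) 
(.lf (nat_lit 609569) (.g (nat_lit 2772) (.e (nat_lit 712753) (nat_lit 30) (.e (nat_lit 450586) (nat_lit 10) (.e (nat_lit 573473) (nat_lit 12) (.e (nat_lit 57508) (nat_lit 39) (.e (nat_lit 647199) (nat_lit 11) (.e (nat_lit 16388) (nat_lit 0) (.e (nat_lit 3548) (nat_lit 219) .nil))))))) (.g (nat_lit 1) (.e (nat_lit 444734) (nat_lit 0) .nil) .nil)))) (.nd (nat_lit 8) (.nd (nat_lit 9) 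
(.lf (nat_lit 609441) (.g (nat_lit 1587) (.e (nat_lit 712750) (nat_lit 29) (.e (nat_lit 442421) (nat_lit 21) (.e (nat_lit 164347) (nat_lit 240) (.e (nat_lit 2629) (nat_lit 164) (.e (nat_lit 172119) (nat_lit 12) .nil))))) (.g (nat_lit 0) (.e (nat_lit 444568) (nat_lit 0) .nil) .nil))) 
(.lf (nat_lit 609953) (.g (nat_lit 2021) (.e (nat_lit 737300) (nat_lit 7) (.e (nat_lit 286753) (nat_lit 10) (.e (nat_lit 344138) (nat_lit 29) (.e (nat_lit 581653) (nat_lit 6) (.e (nat_lit 188427) (nat_lit 20) (.e (nat_lit 3572) (nat_lit 222) .nil)))))) (.g (nat_lit 1) (.e (nat_lit 446865) (nat_lit 0) .nil) .nil)))) 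
(.lf (nat_lit 609697) (.g (nat_lit 3254) (.e (nat_lit 720908) (nat_lit 11) (.e (nat_lit 426122) (nat_lit 2) (.e (nat_lit 196666) (nat_lit 13) (.e (nat_lit 65617) (nat_lit 10) (.e (nat_lit 344130) (nat_lit 26) (.e (nat_lit 557090) (nat_lit 12) (.e (nat_lit 171776) (nat_lit 48) .nil))))))) (.g (nat_lit 1) (.e (nat_lit 445192) (nat_lit 0) .nil) .nil))))) 
(.nd (nat_lit 7) (.nd (nat_lit 8) (.nd (nat_lit 9) 
(.lf (nat_lit 609377) (.g (nat_lit 1709) (.e (nat_lit 712745) (nat_lit 27) (.e (nat_lit 426347) (nat_lit 14) (.e (nat_lit 491569) (nat_lit 13) (.e (nat_lit 393274) (nat_lit 23) .nil)))) (.g (nat_lit 0) (.e (nat_lit 444481) (nat_lit 0) .nil) .nil))) 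
(.lf (nat_lit 609889) (.g (nat_lit 1227) (.e (nat_lit 720950) (nat_lit 24) (.e (nat_lit 106536) (nat_lit 11) (.e (nat_lit 16425) (nat_lit 7) .nil))) (.g (nat_lit 0) (.e (nat_lit 445990) (nat_lit 0) .nil) .nil)))) 
(.lf (nat_lit 609633) (.g (nat_lit 3007) (.e (nat_lit 712755) (nat_lit 30) (.e (nat_lit 450588) (nat_lit 10) (.e (nat_lit 573473) (nat_lit 12) (.e (nat_lit 57503) (nat_lit 38) (.e (nat_lit 638998) (nat_lit 8) (.e (nat_lit 172035) (nat_lit 0) (.e (nat_lit 3543) (nat_lit 219) .nil))))))) (.g (nat_lit 1) (.e (nat_lit 444820) (nat_lit 0) .nil) .nil)))) (.nd (nat_lit 8) (.nd (nat_lit 9) 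
(.lf (nat_lit 609505) (.g (nat_lit 1956) (.e (nat_lit 712753) (nat_lit 30) (.e (nat_lit 450565) (nat_lit 0) (.e (nat_lit 5546) (nat_lit 306) (.e (nat_lit 2619) (nat_lit 164) (.e (nat_lit 172118) (nat_lit 12) .nil))))) (.g (nat_lit 0) (.e (nat_lit 444669) (nat_lit 0) .nil) .nil))) 
(.lf (nat_lit 610017) (.g (nat_lit 2292) (.e (nat_lit 745491) (nat_lit 4) (.e (nat_lit 65610) (nat_lit 10) (.e (nat_lit 344129) (nat_lit 26) (.e (nat_lit 557119) (nat_lit 18) (.e (nat_lit 2449) (nat_lit 157) .nil))))) (.g (nat_lit 0) (.e (nat_lit 446962) (nat_lit 0) .nil) .nil)))) 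
(.lf (nat_lit 609761) (.g (nat_lit 3741) (.e (nat_lit 720909) (nat_lit 11) (.e (nat_lit 426124) (nat_lit 2) (.e (nat_lit 196666) (nat_lit 13) (.e (nat_lit 65617) (nat_lit 10) (.e (nat_lit 344130) (nat_lit 26) (.e (nat_lit 557090) (nat_lit 12) (.e (nat_lit 171776) (nat_lit 48) .nil))))))) (.g (nat_lit 1) (.e (nat_lit 445345) (nat_lit 0) .nil) .nil))))))) 
(.nd (nat_lit 5) (.nd (nat_lit 6) (.nd (nat_lit 7) (.nd (nat_lit 8) (.nd (nat_lit 9) 
(.lf (nat_lit 609297) (.g (nat_lit 407) (.e (nat_lit 704741) (nat_lit 11) (.e (nat_lit 16436) (nat_lit 9) (.e (nat_lit 426550) (nat_lit 31) .nil))) (.g (nat_lit 0) (.e (nat_lit 444010) (nat_lit 0) .nil) .nil))) 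
(.lf (nat_lit 609809) (.g (nat_lit 2551) (.e (nat_lit 720909) (nat_lit 11) (.e (nat_lit 426139) (nat_lit 3) (.e (nat_lit 204868) (nat_lit 29) (.e (nat_lit 360473) (nat_lit 8) (.e (nat_lit 557094) (nat_lit 12) (.e (nat_lit 171776) (nat_lit 48) .nil)))))) (.g (nat_lit 1) (.e (nat_lit 445428) (nat_lit 0) .nil) .nil)))) 
(.lf (nat_lit 609553) (.g (nat_lit 1467) (.e (nat_lit 712753) (nat_lit 30) (.e (nat_lit 450580) (nat_lit 5) (.e (nat_lit 532501) (nat_lit 1) (.e (nat_lit 57693) (nat_lit 157) .nil)))) (.g (nat_lit 0) (.e (nat_lit 444718) (nat_lit 0) .nil) .nil)))) (.nd (nat_lit 8) (.nd (nat_lit 9) 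
(.lf (nat_lit 609425) (.g (nat_lit 3229) (.e (nat_lit 712745) (nat_lit 27) (.e (nat_lit 426347) (nat_lit 14) (.e (nat_lit 491571) (nat_lit 13) (.e (nat_lit 393274) (nat_lit 23) (.e (nat_lit 426396) (nat_lit 15) (.e (nat_lit 2175) (nat_lit 143) .nil)))))) (.g (nat_lit 1) (.e (nat_lit 444532) (nat_lit 0) .nil) .nil))) 
(.lf (nat_lit 609937) (.g (nat_lit 1084) (.e (nat_lit 737283) (nat_lit 0) (.e (nat_lit 5409) (nat_lit 303) (.e (nat_lit 73750) (nat_lit 6) (.e (nat_lit 540724) (nat_lit 28) (.e (nat_lit 442399) (nat_lit 20) (.e (nat_lit 3571) (nat_lit 222) .nil)))))) (.g (nat_lit 1) (.e (nat_lit 446706) (nat_lit 0) .nil) .nil)))) 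
(.lf (nat_lit 609681) (.g (nat_lit 1034) (.e (nat_lit 728832) (nat_lit 4) (.e (nat_lit 213032) (nat_lit 11) (.e (nat_lit 24660) (nat_lit 13) (.e (nat_lit 393292) (nat_lit 26) .nil)))) (.g (nat_lit 0) (.e (nat_lit 445004) (nat_lit 0) .nil) .nil))))) (.nd (nat_lit 7) (.nd (nat_lit 8) (.nd (nat_lit 9) 
(.lf (nat_lit 609361) (.g (nat_lit 1867) (.e (nat_lit 712745) (nat_lit 27) (.e (nat_lit 426347) (nat_lit 14) (.e (nat_lit 491546) (nat_lit 9) (.e (nat_lit 336428) (nat_lit 29) (.e (nat_lit 442374) (nat_lit 0) .nil))))) (.g (nat_lit 0) (.e (nat_lit 444462) (nat_lit 0) .nil) .nil))) 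
(.lf (nat_lit 609873) (.g (nat_lit 1813) (.e (nat_lit 720945) (nat_lit 23) (.e (nat_lit 98333) (nat_lit 18) (.e (nat_lit 164399) (nat_lit 256) (.e (nat_lit 57372) (nat_lit 2) .nil)))) (.g (nat_lit 0) (.e (nat_lit 445963) (nat_lit 0) .nil) .nil)))) 
(.lf (nat_lit 609617) (.g (nat_lit 1852) (.e (nat_lit 712755) (nat_lit 30) (.e (nat_lit 450564) (nat_lit 0) (.e (nat_lit 5547) (nat_lit 306) (.e (nat_lit 2629) (nat_lit 164) .nil)))) (.g (nat_lit 0) (.e (nat_lit 444799) (nat_lit 0) .nil) .nil)))) (.nd (nat_lit 8) (.nd (nat_lit 9) 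
(.lf (nat_lit 609489) (.g (nat_lit 616) (.e (nat_lit 712752) (nat_lit 29) (.e (nat_lit 442428) (nat_lit 24) (.e (nat_lit 229677) (nat_lit 244) .nil))) (.g (nat_lit 0) (.e (nat_lit 444644) (nat_lit 0) .nil) .nil))) 
(.lf (nat_lit 610001) (.g (nat_lit 406) (.e (nat_lit 745489) (nat_lit 4) (.e (nat_lit 65598) (nat_lit 9) (.e (nat_lit 336013) (nat_lit 2) .nil))) (.g (nat_lit 0) (.e (nat_lit 446943) (nat_lit 0) .nil) .nil)))) 
(.lf (nat_lit 609745) (.g (nat_lit 665) (.e (nat_lit 720909) (nat_lit 11) (.e (nat_lit 426122) (nat_lit 2) (.e (nat_lit 196666) (nat_lit 13) (.e (nat_lit 65617) (nat_lit 10) .nil)))) (.g (nat_lit 0) (.e (nat_lit 445324) (nat_lit 0) .nil) .nil)))))) (.nd (nat_lit 6) (.nd (nat_lit 7) (.nd (nat_lit 8) (.nd (nat_lit 9) 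
(.lf (nat_lit 609329) (.g (nat_lit 1689) (.e (nat_lit 712728) (nat_lit 18) (.e (nat_lit 204863) (nat_lit 27) (.e (nat_lit 344130) (nat_lit 26) (.e (nat_lit 557103) (nat_lit 14) .nil)))) (.g (nat_lit 0) (.e (nat_lit 444237) (nat_lit 0) .nil) .nil))) 
(.lf (nat_lit 609841) (.g (nat_lit 1541) (.e (nat_lit 720930) (nat_lit 21) (.e (nat_lit 57927) (nat_lit 282) (.e (nat_lit 163933) (nat_lit 17) (.e (nat_lit 466976) (nat_lit 22) .nil)))) (.g (nat_lit 0) (.e (nat_lit 445911) (nat_lit 0) .nil) .nil)))) 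
(.lf (nat_lit 609585) (.g (nat_lit 1831) (.e (nat_lit 712753) (nat_lit 30) (.e (nat_lit 450586) (nat_lit 10) (.e (nat_lit 573477) (nat_lit 12) (.e (nat_lit 57511) (nat_lit 39) (.e (nat_lit 647199) (nat_lit 11) (.e (nat_lit 16388) (nat_lit 0) (.e (nat_lit 3548) (nat_lit 219) .nil))))))) (.g (nat_lit 1) (.e (nat_lit 444750) (nat_lit 0) .nil) .nil)))) (.nd (nat_lit 8) (.nd (nat_lit 9) 
(.lf (nat_lit 609457) (.g (nat_lit 1594) (.e (nat_lit 712750) (nat_lit 29) (.e (nat_lit 442430) (nat_lit 24) (.e (nat_lit 229665) (nat_lit 240) (.e (nat_lit 2725) (nat_lit 172) (.e (nat_lit 237618) (nat_lit 12) .nil))))) (.g (nat_lit 0) (.e (nat_lit 444591) (nat_lit 0) .nil) .nil))) 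
(.lf (nat_lit 609969) (.g (nat_lit 1974) (.e (nat_lit 737300) (nat_lit 7) (.e (nat_lit 286756) (nat_lit 10) (.e (nat_lit 344138) (nat_lit 29) (.e (nat_lit 581653) (nat_lit 6) (.e (nat_lit 188431) (nat_lit 20) (.e (nat_lit 3567) (nat_lit 222) .nil)))))) (.g (nat_lit 1) (.e (nat_lit 446896) (nat_lit 0) .nil) .nil)))) 
(.lf (nat_lit 609713) (.g (nat_lit 2586) (.e (nat_lit 720908) (nat_lit 11) (.e (nat_lit 426137) (nat_lit 3) (.e (nat_lit 204869) (nat_lit 29) (.e (nat_lit 360474) (nat_lit 8) (.e (nat_lit 557094) (nat_lit 12) (.e (nat_lit 171776) (nat_lit 48) .nil)))))) (.g (nat_lit 1) (.e (nat_lit 445213) (nat_lit 0) .nil) .nil))))) (.nd (nat_lit 7) (.nd (nat_lit 8) (.nd (nat_lit 9) 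
(.lf (nat_lit 609393) (.g (nat_lit 2839) (.e (nat_lit 712745) (nat_lit 27) (.e (nat_lit 426347) (nat_lit 14) (.e (nat_lit 491570) (nat_lit 13) (.e (nat_lit 393271) (nat_lit 23) (.e (nat_lit 426382) (nat_lit 15) .nil))))) (.g (nat_lit 0) (.e (nat_lit 444497) (nat_lit 0) .nil) .nil))) 
(.lf (nat_lit 609905) (.g (nat_lit 3904) (.e (nat_lit 729095) (nat_lit 11) (.e (nat_lit 426125) (nat_lit 2) (.e (nat_lit 196666) (nat_lit 13) (.e (nat_lit 65610) (nat_lit 10) (.e (nat_lit 344129) (nat_lit 26) (.e (nat_lit 557090) (nat_lit 12) (.e (nat_lit 171776) (nat_lit 49) .nil))))))) (.g (nat_lit 1) (.e (nat_lit 446121) (nat_lit 0) .nil) .nil)))) 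
(.lf (nat_lit 609649) (.g (nat_lit 2958) (.e (nat_lit 712755) (nat_lit 30) (.e (nat_lit 450588) (nat_lit 10) (.e (nat_lit 573475) (nat_lit 12) (.e (nat_lit 57504) (nat_lit 38) (.e (nat_lit 638999) (nat_lit 8) (.e (nat_lit 172039) (nat_lit 0) (.e (nat_lit 3543) (nat_lit 219) .nil))))))) (.g (nat_lit 1) (.e (nat_lit 444836) (nat_lit 0) .nil) .nil)))) (.nd (nat_lit 8) (.nd (nat_lit 9) 
(.lf (nat_lit 609521) (.g (nat_lit 1699) (.e (nat_lit 712753) (nat_lit 30) (.e (nat_lit 450579) (nat_lit 5) (.e (nat_lit 532501) (nat_lit 1) (.e (nat_lit 57651) (nat_lit 152) (.e (nat_lit 2635) (nat_lit 165) (.e (nat_lit 188160) (nat_lit 27) .nil)))))) (.g (nat_lit 1) (.e (nat_lit 444686) (nat_lit 0) .nil) .nil))) 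
(.lf (nat_lit 610033) (.g (nat_lit 1906) (.e (nat_lit 745491) (nat_lit 4) (.e (nat_lit 65617) (nat_lit 10) (.e (nat_lit 344138) (nat_lit 29) (.e (nat_lit 581653) (nat_lit 6) (.e (nat_lit 188441) (nat_lit 20) (.e (nat_lit 3578) (nat_lit 223) .nil)))))) (.g (nat_lit 1) (.e (nat_lit 446982) (nat_lit 0) .nil) .nil)))) 
(.lf (nat_lit 609777) (.g (nat_lit 2919) (.e (nat_lit 720909) (nat_lit 11) (.e (nat_lit 426133) (nat_lit 3) (.e (nat_lit 204868) (nat_lit 29) (.e (nat_lit 360473) (nat_lit 8) (.e (nat_lit 557091) (nat_lit 12) (.e (nat_lit 171776) (nat_lit 48) .nil)))))) (.g (nat_lit 1) (.e (nat_lit 445383) (nat_lit 0) .nil) .nil)))))))) 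
(.nd (nat_lit 4) (.nd (nat_lit 5) (.nd (nat_lit 6) (.nd (nat_lit 7) (.nd (nat_lit 8) 
(.nd (nat_lit 9) 
(.lf (nat_lit 609289) (.g (nat_lit 557) (.e (nat_lit 704740) (nat_lit 11) (.e (nat_lit 16412) (nat_lit 2) (.e (nat_lit 196681) (nat_lit 17) .nil))) (.g (nat_lit 0) (.e (nat_lit 443990) (nat_lit 0) .nil) .nil))) 
(.lf (nat_lit 609801) (.g (nat_lit 3234) (.e (nat_lit 720909) (nat_lit 11) (.e (nat_lit 426138) (nat_lit 3) (.e (nat_lit 204869) (nat_lit 29) (.e (nat_lit 360474) (nat_lit 8) (.e (nat_lit 557091) (nat_lit 12) (.e (nat_lit 171776) (nat_lit 48) .nil)))))) (.g (nat_lit 1) (.e (nat_lit 445413) (nat_lit 0) .nil) .nil)))) (.nd (nat_lit 9) 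
(.lf (nat_lit 609545) (.g (nat_lit 1684) (.e (nat_lit 712753) (nat_lit 30) (.e (nat_lit 450579) (nat_lit 5) (.e (nat_lit 532504) (nat_lit 1) (.e (nat_lit 57670) (nat_lit 152) (.e (nat_lit 2637) (nat_lit 165) (.e (nat_lit 188160) (nat_lit 27) .nil)))))) (.g (nat_lit 1) (.e (nat_lit 444710) (nat_lit 0) .nil) .nil))) 
(.lf (nat_lit 610057) (.g (nat_lit 4526) (.e (nat_lit 745509) (nat_lit 11) (.e (nat_lit 24660) (nat_lit 13) (.e (nat_lit 393260) (nat_lit 21) (.e (nat_lit 409649) (nat_lit 18) (.e (nat_lit 303111) (nat_lit 0) (.e (nat_lit 3579) (nat_lit 223) .nil)))))) (.g (nat_lit 1) (.e (nat_lit 447047) (nat_lit 0) .nil) .nil))))) (.nd (nat_lit 8) (.nd (nat_lit 9) 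
(.lf (nat_lit 609417) (.g (nat_lit 3081) (.e (nat_lit 712745) (nat_lit 27) (.e (nat_lit 426347) (nat_lit 14) (.e (nat_lit 491571) (nat_lit 13) (.e (nat_lit 393268) (nat_lit 23) (.e (nat_lit 426393) (nat_lit 15) .nil))))) (.g (nat_lit 0) (.e (nat_lit 444524) (nat_lit 0) .nil) .nil))) 
(.lf (nat_lit 609929) (.g (nat_lit 3489) (.e (nat_lit 729099) (nat_lit 12) (.e (nat_lit 434230) (nat_lit 23) (.e (nat_lit 532550) (nat_lit 12) (.e (nat_lit 360475) (nat_lit 8) (.e (nat_lit 557091) (nat_lit 12) (.e (nat_lit 171776) (nat_lit 49) .nil)))))) (.g (nat_lit 1) (.e (nat_lit 446223) (nat_lit 0) .nil) .nil)))) 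
(.lf (nat_lit 609673) (.g (nat_lit 1469) (.e (nat_lit 728832) (nat_lit 4) (.e (nat_lit 213030) (nat_lit 11) (.e (nat_lit 24631) (nat_lit 9) (.e (nat_lit 336388) (nat_lit 27) .nil)))) (.g (nat_lit 0) (.e (nat_lit 444992) (nat_lit 0) .nil) .nil))))) (.nd (nat_lit 7) (.nd (nat_lit 8) (.nd (nat_lit 9) 
(.lf (nat_lit 609353) (.g (nat_lit 2839) (.e (nat_lit 712742) (nat_lit 27) (.e (nat_lit 426338) (nat_lit 14) (.e (nat_lit 491570) (nat_lit 13) (.e (nat_lit 393294) (nat_lit 26) (.e (nat_lit 475209) (nat_lit 41) .nil))))) (.g (nat_lit 1) (.e (nat_lit 444421) (nat_lit 0) .nil) .nil))) 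
(.lf (nat_lit 609865) (.g (nat_lit 826) (.e (nat_lit 720942) (nat_lit 23) (.e (nat_lit 98334) (nat_lit 18) (.e (nat_lit 164330) (nat_lit 230) .nil))) (.g (nat_lit 0) (.e (nat_lit 445949) (nat_lit 0) .nil) .nil)))) 
(.lf (nat_lit 609609) (.g (nat_lit 2789) (.e (nat_lit 712754) (nat_lit 30) (.e (nat_lit 450588) (nat_lit 10) (.e (nat_lit 573503) (nat_lit 18) (.e (nat_lit 1349) (nat_lit 102) (.e (nat_lit 286740) (nat_lit 7) .nil))))) (.g (nat_lit 0) (.e (nat_lit 444786) (nat_lit 0) .nil) .nil)))) (.nd (nat_lit 8) (.nd (nat_lit 9) 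
(.lf (nat_lit 609481) (.g (nat_lit 1900) (.e (nat_lit 712752) (nat_lit 29) (.e (nat_lit 442374) (nat_lit 0) (.e (nat_lit 2175) (nat_lit 143) (.e (nat_lit 712745) (nat_lit 27) (.e (nat_lit 426318) (nat_lit 12) .nil))))) (.g (nat_lit 0) (.e (nat_lit 444632) (nat_lit 0) .nil) .nil))) 
(.lf (nat_lit 609993) (.g (nat_lit 1424) (.e (nat_lit 745475) (nat_lit 0) (.e (nat_lit 1586) (nat_lit 111) (.e (nat_lit 360450) (nat_lit 0) (.e (nat_lit 4132) (nat_lit 246) .nil)))) (.g (nat_lit 0) (.e (nat_lit 446932) (nat_lit 0) .nil) .nil)))) 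
(.lf (nat_lit 609737) (.g (nat_lit 2837) (.e (nat_lit 720909) (nat_lit 11) (.e (nat_lit 426116) (nat_lit 2) (.e (nat_lit 196666) (nat_lit 13) (.e (nat_lit 65617) (nat_lit 10) (.e (nat_lit 344132) (nat_lit 26) (.e (nat_lit 557093) (nat_lit 12) (.e (nat_lit 171776) (nat_lit 48) .nil))))))) (.g (nat_lit 1) (.e (nat_lit 445314) (nat_lit 0) .nil) .nil)))))) 
(.nd (nat_lit 6) (.nd (nat_lit 7) (.nd (nat_lit 8) (.nd (nat_lit 9) 
(.lf (nat_lit 609321) (.g (nat_lit 1052) (.e (nat_lit 712719) (nat_lit 15) (.e (nat_lit 3297) (nat_lit 202) (.e (nat_lit 573491) (nat_lit 15) (.e (nat_lit 81954) (nat_lit 23) .nil)))) (.g (nat_lit 0) (.e (nat_lit 444119) (nat_lit 0) .nil) .nil))) 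
(.lf (nat_lit 609833) (.g (nat_lit 1939) (.e (nat_lit 720909) (nat_lit 11) (.e (nat_lit 426200) (nat_lit 9) (.e (nat_lit 426550) (nat_lit 31) (.e (nat_lit 368656) (nat_lit 14) (.e (nat_lit 57816) (nat_lit 246) (.e (nat_lit 57610) (nat_lit 109) .nil)))))) (.g (nat_lit 1) (.e (nat_lit 445485) (nat_lit 0) .nil) .nil)))) 
(.lf (nat_lit 609577) (.g (nat_lit 2565) (.e (nat_lit 712753) (nat_lit 30) (.e (nat_lit 450586) (nat_lit 10) (.e (nat_lit 573475) (nat_lit 12) (.e (nat_lit 57503) (nat_lit 38) (.e (nat_lit 638998) (nat_lit 8) (.e (nat_lit 172039) (nat_lit 0) (.e (nat_lit 3547) (nat_lit 219) .nil))))))) (.g (nat_lit 1) (.e (nat_lit 444742) (nat_lit 0) .nil) .nil)))) (.nd (nat_lit 8) (.nd (nat_lit 9) 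
(.lf (nat_lit 609449) (.g (nat_lit 1803) (.e (nat_lit 712750) (nat_lit 29) (.e (nat_lit 442421) (nat_lit 21) (.e (nat_lit 164348) (nat_lit 240) (.e (nat_lit 2648) (nat_lit 166) .nil)))) (.g (nat_lit 0) (.e (nat_lit 444578) (nat_lit 0) .nil) .nil))) 
(.lf (nat_lit 609961) (.g (nat_lit 2105) (.e (nat_lit 737300) (nat_lit 7) (.e (nat_lit 286754) (nat_lit 10) (.e (nat_lit 344138) (nat_lit 29) (.e (nat_lit 581653) (nat_lit 6) (.e (nat_lit 188431) (nat_lit 20) (.e (nat_lit 3571) (nat_lit 222) .nil)))))) (.g (nat_lit 1) (.e (nat_lit 446878) (nat_lit 0) .nil) .nil)))) 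
(.lf (nat_lit 609705) (.g (nat_lit 3063) (.e (nat_lit 720908) (nat_lit 11) (.e (nat_lit 426124) (nat_lit 2) (.e (nat_lit 196666) (nat_lit 13) (.e (nat_lit 65617) (nat_lit 10) (.e (nat_lit 344130) (nat_lit 26) .nil))))) (.g (nat_lit 0) (.e (nat_lit 445200) (nat_lit 0) .nil) .nil))))) (.nd (nat_lit 7) (.nd (nat_lit 8) (.nd (nat_lit 9) 
(.lf (nat_lit 609385) (.g (nat_lit 1716) (.e (nat_lit 712745) (nat_lit 27) (.e (nat_lit 426347) (nat_lit 14) (.e (nat_lit 491570) (nat_lit 13) (.e (nat_lit 393267) (nat_lit 23) .nil)))) (.g (nat_lit 0) (.e (nat_lit 444489) (nat_lit 0) .nil) .nil))) 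
(.lf (nat_lit 609897) (.g (nat_lit 2741) (.e (nat_lit 720954) (nat_lit 25) (.e (nat_lit 114698) (nat_lit 11) (.e (nat_lit 426182) (nat_lit 8) (.e (nat_lit 417828) (nat_lit 18) (.e (nat_lit 303143) (nat_lit 12) .nil))))) (.g (nat_lit 0) (.e (nat_lit 446005) (nat_lit 0) .nil) .nil)))) 
(.lf (nat_lit 609641) (.g (nat_lit 4010) (.e (nat_lit 712755) (nat_lit 30) (.e (nat_lit 450588) (nat_lit 10) (.e (nat_lit 573474) (nat_lit 12) (.e (nat_lit 57507) (nat_lit 39) (.e (nat_lit 647201) (nat_lit 12) (.e (nat_lit 57574) (nat_lit 55) (.e (nat_lit 778455) (nat_lit 10) (.e (nat_lit 8356) (nat_lit 88) .nil)))))))) (.g (nat_lit 1) (.e (nat_lit 444828) (nat_lit 0) .nil) .nil)))) 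
(.nd (nat_lit 8) (.nd (nat_lit 9) 
(.lf (nat_lit 609513) (.g (nat_lit 2989) (.e (nat_lit 712753) (nat_lit 30) (.e (nat_lit 450568) (nat_lit 0) (.e (nat_lit 5448) (nat_lit 306) (.e (nat_lit 2630) (nat_lit 164) (.e (nat_lit 172120) (nat_lit 12) (.e (nat_lit 475210) (nat_lit 41) .nil)))))) (.g (nat_lit 1) (.e (nat_lit 444678) (nat_lit 0) .nil) .nil))) 
(.lf (nat_lit 610025) (.g (nat_lit 2660) (.e (nat_lit 745491) (nat_lit 4) (.e (nat_lit 65616) (nat_lit 10) (.e (nat_lit 344138) (nat_lit 29) (.e (nat_lit 581653) (nat_lit 6) (.e (nat_lit 188439) (nat_lit 20) (.e (nat_lit 3579) (nat_lit 223) .nil)))))) (.g (nat_lit 1) (.e (nat_lit 446973) (nat_lit 0) .nil) .nil)))) 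
(.lf (nat_lit 609769) (.g (nat_lit 4228) (.e (nat_lit 720909) (nat_lit 11) (.e (nat_lit 426124) (nat_lit 2) (.e (nat_lit 196674) (nat_lit 15) (.e (nat_lit 81946) (nat_lit 20) (.e (nat_lit 1858) (nat_lit 124) (.e (nat_lit 557091) (nat_lit 12) (.e (nat_lit 171776) (nat_lit 48) .nil))))))) (.g (nat_lit 1) (.e (nat_lit 445362) (nat_lit 0) .nil) .nil))))))) 
(.nd (nat_lit 5) (.nd (nat_lit 6) (.nd (nat_lit 7) (.nd (nat_lit 8) (.nd (nat_lit 9) 
(.lf (nat_lit 609305) (.g (nat_lit 1424) (.e (nat_lit 712448) (nat_lit 11) (.e (nat_lit 16412) (nat_lit 2) (.e (nat_lit 196674) (nat_lit 15) (.e (nat_lit 89856) (nat_lit 2) .nil)))) (.g (nat_lit 0) (.e (nat_lit 444035) (nat_lit 0) .nil) .nil))) 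
(.lf (nat_lit 609817) (.g (nat_lit 1884) (.e (nat_lit 720909) (nat_lit 11) (.e (nat_lit 426188) (nat_lit 9) (.e (nat_lit 426550) (nat_lit 31) (.e (nat_lit 368656) (nat_lit 14) (.e (nat_lit 57811) (nat_lit 246) (.e (nat_lit 57610) (nat_lit 109) .nil)))))) (.g (nat_lit 1) (.e (nat_lit 445442) (nat_lit 0) .nil) .nil)))) 
(.lf (nat_lit 609561) (.g (nat_lit 2619) (.e (nat_lit 712753) (nat_lit 30) (.e (nat_lit 450586) (nat_lit 10) (.e (nat_lit 573473) (nat_lit 12) (.e (nat_lit 57508) (nat_lit 39) (.e (nat_lit 647195) (nat_lit 9) (.e (nat_lit 426) (nat_lit 32) (.e (nat_lit 426009) (nat_lit 0) (.e (nat_lit 3546) (nat_lit 219) .nil)))))))) (.g (nat_lit 1) (.e (nat_lit 444726) (nat_lit 0) .nil) .nil)))) 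
(.nd (nat_lit 8) (.nd (nat_lit 9) 
(.lf (nat_lit 609433) (.g (nat_lit 3510) (.e (nat_lit 712749) (nat_lit 28) (.e (nat_lit 434268) (nat_lit 36) (.e (nat_lit 639017) (nat_lit 15) (.e (nat_lit 57480) (nat_lit 28) (.e (nat_lit 557067) (nat_lit 9) (.e (nat_lit 3022) (nat_lit 187) (.e (nat_lit 458496) (nat_lit 23) .nil))))))) (.g (nat_lit 1) (.e (nat_lit 444545) (nat_lit 0) .nil) .nil))) 
(.lf (nat_lit 609945) (.g (nat_lit 890) (.e (nat_lit 737284) (nat_lit 0) (.e (nat_lit 5413) (nat_lit 303) (.e (nat_lit 73750) (nat_lit 6) (.e (nat_lit 540724) (nat_lit 28) (.e (nat_lit 442399) (nat_lit 20) (.e (nat_lit 3571) (nat_lit 222) .nil)))))) (.g (nat_lit 1) (.e (nat_lit 446804) (nat_lit 0) .nil) .nil)))) 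
(.lf (nat_lit 609689) (.g (nat_lit 987) (.e (nat_lit 720907) (nat_lit 11) (.e (nat_lit 426230) (nat_lit 9) (.e (nat_lit 426549) (nat_lit 31) (.e (nat_lit 368656) (nat_lit 14) (.e (nat_lit 57809) (nat_lit 246) (.e (nat_lit 57610) (nat_lit 109) .nil)))))) (.g (nat_lit 1) (.e (nat_lit 445143) (nat_lit 0) .nil) .nil))))) (.nd (nat_lit 7) (.nd (nat_lit 8) (.nd (nat_lit 9) 
(.lf (nat_lit 609369) (.g (nat_lit 2689) (.e (nat_lit 712745) (nat_lit 27) (.e (nat_lit 426347) (nat_lit 14) (.e (nat_lit 491549) (nat_lit 9) (.e (nat_lit 336443) (nat_lit 32) (.e (nat_lit 466946) (nat_lit 0) .nil))))) (.g (nat_lit 0) (.e (nat_lit 444470) (nat_lit 0) .nil) .nil))) 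
(.lf (nat_lit 609881) (.g (nat_lit 2144) (.e (nat_lit 720945) (nat_lit 23) (.e (nat_lit 98356) (nat_lit 26) (.e (nat_lit 426438) (nat_lit 18) (.e (nat_lit 98335) (nat_lit 18) (.e (nat_lit 164305) (nat_lit 226) (.e (nat_lit 2604) (nat_lit 163) (.e (nat_lit 163962) (nat_lit 25) (.e (nat_lit 532484) (nat_lit 0) (.e (nat_lit 2198) (nat_lit 144) .nil))))))))) (.g (nat_lit 1) (.e (nat_lit 445975) (nat_lit 0) .nil) .nil)))) 
(.lf (nat_lit 609625) (.g (nat_lit 2605) (.e (nat_lit 712755) (nat_lit 30) (.e (nat_lit 450569) (nat_lit 0) (.e (nat_lit 5448) (nat_lit 306) (.e (nat_lit 2653) (nat_lit 166) (.e (nat_lit 188418) (nat_lit 0) (.e (nat_lit 2175) (nat_lit 143) .nil)))))) (.g (nat_lit 1) (.e (nat_lit 444812) (nat_lit 0) .nil) .nil)))) (.nd (nat_lit 8) (.nd (nat_lit 9) 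
(.lf (nat_lit 609497) (.g (nat_lit 933) (.e (nat_lit 712753) (nat_lit 30) (.e (nat_lit 450561) (nat_lit 0) (.e (nat_lit 5537) (nat_lit 306) (.e (nat_lit 2515) (nat_lit 157) .nil)))) (.g (nat_lit 0) (.e (nat_lit 444657) (nat_lit 0) .nil) .nil))) 
(.lf (nat_lit 610009) (.g (nat_lit 1753) (.e (nat_lit 745490) (nat_lit 4) (.e (nat_lit 65619) (nat_lit 10) (.e (nat_lit 344138) (nat_lit 29) (.e (nat_lit 581653) (nat_lit 6) (.e (nat_lit 188441) (nat_lit 20) .nil))))) (.g (nat_lit 0) (.e (nat_lit 446951) (nat_lit 0) .nil) .nil)))) 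
(.lf (nat_lit 609753) (.g (nat_lit 3421) (.e (nat_lit 720909) (nat_lit 11) (.e (nat_lit 426123) (nat_lit 2) (.e (nat_lit 196666) (nat_lit 13) (.e (nat_lit 65617) (nat_lit 10) (.e (nat_lit 344130) (nat_lit 26) (.e (nat_lit 557090) (nat_lit 12) (.e (nat_lit 171776) (nat_lit 48) .nil))))))) (.g (nat_lit 1) (.e (nat_lit 445334) (nat_lit 0) .nil) .nil)))))) 
(.nd (nat_lit 6) (.nd (nat_lit 7) (.nd (nat_lit 8) (.nd (nat_lit 9) 
(.lf (nat_lit 609337) (.g (nat_lit 2481) (.e (nat_lit 712739) (nat_lit 27) (.e (nat_lit 426339) (nat_lit 14) (.e (nat_lit 491571) (nat_lit 13) (.e (nat_lit 393291) (nat_lit 26) (.e (nat_lit 475210) (nat_lit 41) .nil))))) (.g (nat_lit 0) (.e (nat_lit 444351) (nat_lit 0) .nil) .nil))) 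
(.lf (nat_lit 609849) (.g (nat_lit 3029) (.e (nat_lit 720934) (nat_lit 21) (.e (nat_lit 57691) (nat_lit 156) (.e (nat_lit 163871) (nat_lit 2) (.e (nat_lit 196656) (nat_lit 11) (.e (nat_lit 16473) (nat_lit 14) .nil))))) (.g (nat_lit 0) (.e (nat_lit 445930) (nat_lit 0) .nil) .nil)))) 
(.lf (nat_lit 609593) (.g (nat_lit 2585) (.e (nat_lit 712754) (nat_lit 30) (.e (nat_lit 450588) (nat_lit 10) (.e (nat_lit 573473) (nat_lit 12) (.e (nat_lit 57507) (nat_lit 39) (.e (nat_lit 647195) (nat_lit 9) .nil))))) (.g (nat_lit 0) (.e (nat_lit 444765) (nat_lit 0) .nil) .nil)))) (.nd (nat_lit 8) (.nd (nat_lit 9) 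
(.lf (nat_lit 609465) (.g (nat_lit 2985) (.e (nat_lit 712750) (nat_lit 29) (.e (nat_lit 442430) (nat_lit 24) (.e (nat_lit 229680) (nat_lit 244) (.e (nat_lit 163919) (nat_lit 14) (.e (nat_lit 442374) (nat_lit 0) (.e (nat_lit 2175) (nat_lit 143) .nil)))))) (.g (nat_lit 1) (.e (nat_lit 444599) (nat_lit 0) .nil) .nil))) 
(.lf (nat_lit 609977) (.g (nat_lit 2689) (.e (nat_lit 737318) (nat_lit 15) (.e (nat_lit 49188) (nat_lit 11) (.e (nat_lit 16425) (nat_lit 7) (.e (nat_lit 409643) (nat_lit 18) (.e (nat_lit 303143) (nat_lit 12) (.e (nat_lit 475218) (nat_lit 44) .nil)))))) (.g (nat_lit 1) (.e (nat_lit 446916) (nat_lit 0) .nil) .nil)))) 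
(.lf (nat_lit 609721) (.g (nat_lit 2698) (.e (nat_lit 720908) (nat_lit 11) (.e (nat_lit 426138) (nat_lit 3) (.e (nat_lit 204869) (nat_lit 29) (.e (nat_lit 360474) (nat_lit 8) (.e (nat_lit 557094) (nat_lit 12) (.e (nat_lit 171776) (nat_lit 48) .nil)))))) (.g (nat_lit 1) (.e (nat_lit 445221) (nat_lit 0) .nil) .nil))))) (.nd (nat_lit 7) (.nd (nat_lit 8) (.nd (nat_lit 9) 
(.lf (nat_lit 609401) (.g (nat_lit 1814) (.e (nat_lit 712745) (nat_lit 27) (.e (nat_lit 426347) (nat_lit 14) (.e (nat_lit 491570) (nat_lit 13) (.e (nat_lit 393281) (nat_lit 23) .nil)))) (.g (nat_lit 0) (.e (nat_lit 444506) (nat_lit 0) .nil) .nil))) 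
(.lf (nat_lit 609913) (.g (nat_lit 3921) (.e (nat_lit 729096) (nat_lit 11) (.e (nat_lit 426123) (nat_lit 2) (.e (nat_lit 196666) (nat_lit 13) (.e (nat_lit 65610) (nat_lit 10) (.e (nat_lit 344129) (nat_lit 26) (.e (nat_lit 557090) (nat_lit 12) (.e (nat_lit 171776) (nat_lit 49) .nil))))))) (.g (nat_lit 1) (.e (nat_lit 446136) (nat_lit 0) .nil) .nil)))) 
(.lf (nat_lit 609657) (.g (nat_lit 437) (.e (nat_lit 712755) (nat_lit 30) (.e (nat_lit 450593) (nat_lit 16) (.e (nat_lit 655363) (nat_lit 0) .nil))) (.g (nat_lit 0) (.e (nat_lit 444845) (nat_lit 0) .nil) .nil)))) (.nd (nat_lit 8) (.nd (nat_lit 9) 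
(.lf (nat_lit 609529) (.g (nat_lit 3122) (.e (nat_lit 712753) (nat_lit 30) (.e (nat_lit 450579) (nat_lit 5) (.e (nat_lit 532501) (nat_lit 1) (.e (nat_lit 57663) (nat_lit 152) (.e (nat_lit 2725) (nat_lit 172) (.e (nat_lit 237573) (nat_lit 0) (.e (nat_lit 7936) (nat_lit 219) .nil))))))) (.g (nat_lit 1) (.e (nat_lit 444694) (nat_lit 0) .nil) .nil))) 
(.lf (nat_lit 610041) (.g (nat_lit 1969) (.e (nat_lit 745491) (nat_lit 4) (.e (nat_lit 65619) (nat_lit 10) (.e (nat_lit 344138) (nat_lit 29) (.e (nat_lit 581653) (nat_lit 6) (.e (nat_lit 188440) (nat_lit 20) (.e (nat_lit 3578) (nat_lit 223) .nil)))))) (.g (nat_lit 1) (.e (nat_lit 446993) (nat_lit 0) .nil) .nil)))) 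
(.lf (nat_lit 609785) (.g (nat_lit 3444) (.e (nat_lit 720909) (nat_lit 11) (.e (nat_lit 426133) (nat_lit 3) (.e (nat_lit 204869) (nat_lit 29) (.e (nat_lit 360474) (nat_lit 8) (.e (nat_lit 557094) (nat_lit 12) (.e (nat_lit 171776) (nat_lit 48) .nil)))))) (.g (nat_lit 1) (.e (nat_lit 445391) (nat_lit 0) .nil) .nil))))))))) 
(.nd (nat_lit 3) (.nd (nat_lit 4) (.nd (nat_lit 5) (.nd (nat_lit 6) (.nd (nat_lit 7) 
(.nd (nat_lit 8) (.nd (nat_lit 9) 
(.lf (nat_lit 609285) (.g (nat_lit 980) (.e (nat_lit 704738) (nat_lit 11) (.e (nat_lit 16466) (nat_lit 13) (.e (nat_lit 483347) (nat_lit 17) .nil))) (.g (nat_lit 0) (.e (nat_lit 443975) (nat_lit 0) .nil) .nil))) 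
(.lf (nat_lit 609797) (.g (nat_lit 2011) (.e (nat_lit 720909) (nat_lit 11) (.e (nat_lit 426138) (nat_lit 3) (.e (nat_lit 204868) (nat_lit 29) (.e (nat_lit 360473) (nat_lit 8) (.e (nat_lit 557089) (nat_lit 12) (.e (nat_lit 171776) (nat_lit 48) .nil)))))) (.g (nat_lit 1) (.e (nat_lit 445409) (nat_lit 0) .nil) .nil)))) (.nd (nat_lit 9) 
(.lf (nat_lit 609541) (.g (nat_lit 2024) (.e (nat_lit 712753) (nat_lit 30) (.e (nat_lit 450579) (nat_lit 5) (.e (nat_lit 532504) (nat_lit 1) (.e (nat_lit 57663) (nat_lit 152) (.e (nat_lit 2630) (nat_lit 164) (.e (nat_lit 172039) (nat_lit 0) (.e (nat_lit 3547) (nat_lit 219) .nil))))))) (.g (nat_lit 1) (.e (nat_lit 444706) (nat_lit 0) .nil) .nil))) 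
(.lf (nat_lit 610053) (.g (nat_lit 1311) (.e (nat_lit 745509) (nat_lit 11) (.e (nat_lit 24626) (nat_lit 9) (.e (nat_lit 336369) (nat_lit 27) (.e (nat_lit 426173) (nat_lit 7) .nil)))) (.g (nat_lit 0) (.e (nat_lit 447043) (nat_lit 0) .nil) .nil))))) (.nd (nat_lit 8) (.nd (nat_lit 9) 
(.lf (nat_lit 609413) (.g (nat_lit 1983) (.e (nat_lit 712745) (nat_lit 27) (.e (nat_lit 426347) (nat_lit 14) (.e (nat_lit 491571) (nat_lit 13) (.e (nat_lit 393267) (nat_lit 23) (.e (nat_lit 426405) (nat_lit 15) .nil))))) (.g (nat_lit 0) (.e (nat_lit 444519) (nat_lit 0) .nil) .nil))) 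
(.lf (nat_lit 609925) (.g (nat_lit 3017) (.e (nat_lit 729098) (nat_lit 11) (.e (nat_lit 426139) (nat_lit 3) (.e (nat_lit 204869) (nat_lit 29) (.e (nat_lit 360474) (nat_lit 8) (.e (nat_lit 557094) (nat_lit 12) (.e (nat_lit 171776) (nat_lit 49) .nil)))))) (.g (nat_lit 1) (.e (nat_lit 446171) (nat_lit 0) .nil) .nil)))) 
(.lf (nat_lit 609669) (.g (nat_lit 1424) (.e (nat_lit 712761) (nat_lit 34) (.e (nat_lit 483413) (nat_lit 27) (.e (nat_lit 401426) (nat_lit 3) (.e (nat_lit 204834) (nat_lit 19) .nil)))) (.g (nat_lit 0) (.e (nat_lit 444954) (nat_lit 0) .nil) .nil))))) (.nd (nat_lit 7) (.nd (nat_lit 8) (.nd (nat_lit 9) 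
(.lf (nat_lit 609349) (.g (nat_lit 2097) (.e (nat_lit 712742) (nat_lit 27) (.e (nat_lit 426338) (nat_lit 14) (.e (nat_lit 491570) (nat_lit 13) (.e (nat_lit 393271) (nat_lit 23) (.e (nat_lit 426354) (nat_lit 15) (.e (nat_lit 2180) (nat_lit 143) .nil)))))) (.g (nat_lit 1) (.e (nat_lit 444417) (nat_lit 0) .nil) .nil))) 
(.lf (nat_lit 609861) (.g (nat_lit 4266) (.e (nat_lit 720941) (nat_lit 22) (.e (nat_lit 90160) (nat_lit 11) (.e (nat_lit 24665) (nat_lit 14) (.e (nat_lit 401426) (nat_lit 3) (.e (nat_lit 204880) (nat_lit 32) (.e (nat_lit 392960) (nat_lit 42) .nil)))))) (.g (nat_lit 1) (.e (nat_lit 445945) (nat_lit 0) .nil) .nil)))) 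
(.lf (nat_lit 609605) (.g (nat_lit 2789) (.e (nat_lit 712754) (nat_lit 30) (.e (nat_lit 450588) (nat_lit 10) (.e (nat_lit 573475) (nat_lit 12) (.e (nat_lit 57508) (nat_lit 39) (.e (nat_lit 647195) (nat_lit 9) (.e (nat_lit 426) (nat_lit 32) (.e (nat_lit 426011) (nat_lit 0) (.e (nat_lit 3548) (nat_lit 219) .nil)))))))) (.g (nat_lit 1) (.e (nat_lit 444782) (nat_lit 0) .nil) .nil)))) 
(.nd (nat_lit 8) (.nd (nat_lit 9) 
(.lf (nat_lit 609477) (.g (nat_lit 1761) (.e (nat_lit 712751) (nat_lit 29) (.e (nat_lit 442424) (nat_lit 22) (.e (nat_lit 204544) (nat_lit 2) (.e (nat_lit 24665) (nat_lit 14) (.e (nat_lit 401414) (nat_lit 0) (.e (nat_lit 7936) (nat_lit 219) .nil)))))) (.g (nat_lit 1) (.e (nat_lit 444621) (nat_lit 0) .nil) .nil))) 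
(.lf (nat_lit 609989) (.g (nat_lit 969) (.e (nat_lit 745216) (nat_lit 15) (.e (nat_lit 49189) (nat_lit 11) (.e (nat_lit 16425) (nat_lit 7) (.e (nat_lit 409643) (nat_lit 18) .nil)))) (.g (nat_lit 0) (.e (nat_lit 446928) (nat_lit 0) .nil) .nil)))) 
(.lf (nat_lit 609733) (.g (nat_lit 3355) (.e (nat_lit 720909) (nat_lit 11) (.e (nat_lit 426114) (nat_lit 2) (.e (nat_lit 196666) (nat_lit 13) (.e (nat_lit 65617) (nat_lit 10) (.e (nat_lit 344130) (nat_lit 26) (.e (nat_lit 557090) (nat_lit 12) (.e (nat_lit 171776) (nat_lit 48) .nil))))))) (.g (nat_lit 1) (.e (nat_lit 445308) (nat_lit 0) .nil) .nil)))))) 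
(.nd (nat_lit 6) (.nd (nat_lit 7) (.nd (nat_lit 8) (.nd (nat_lit 9) 
(.lf (nat_lit 609317) (.g (nat_lit 1679) (.e (nat_lit 712716) (nat_lit 15) (.e (nat_lit 3308) (nat_lit 202) (.e (nat_lit 573493) (nat_lit 15) (.e (nat_lit 81954) (nat_lit 23) .nil)))) (.g (nat_lit 0) (.e (nat_lit 444104) (nat_lit 0) .nil) .nil))) 
(.lf (nat_lit 609829) (.g (nat_lit 2326) (.e (nat_lit 720909) (nat_lit 11) (.e (nat_lit 426200) (nat_lit 9) (.e (nat_lit 425986) (nat_lit 0) (.e (nat_lit 3471) (nat_lit 217) (.e (nat_lit 696344) (nat_lit 8) (.e (nat_lit 172094) (nat_lit 9) (.e (nat_lit 426007) (nat_lit 0) (.e (nat_lit 3550) (nat_lit 220) .nil)))))))) (.g (nat_lit 1) (.e (nat_lit 445469) (nat_lit 0) .nil) .nil)))) 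
(.lf (nat_lit 609573) (.g (nat_lit 2603) (.e (nat_lit 712753) (nat_lit 30) (.e (nat_lit 450586) (nat_lit 10) (.e (nat_lit 573475) (nat_lit 12) (.e (nat_lit 57503) (nat_lit 38) (.e (nat_lit 638985) (nat_lit 5) (.e (nat_lit 2884) (nat_lit 184) (.e (nat_lit 426025) (nat_lit 0) (.e (nat_lit 3543) (nat_lit 219) .nil)))))))) (.g (nat_lit 1) (.e (nat_lit 444738) (nat_lit 0) .nil) .nil)))) 
(.nd (nat_lit 8) (.nd (nat_lit 9) 
(.lf (nat_lit 609445) (.g (nat_lit 2413) (.e (nat_lit 712750) (nat_lit 29) (.e (nat_lit 442421) (nat_lit 21) (.e (nat_lit 164347) (nat_lit 240) (.e (nat_lit 2650) (nat_lit 166) (.e (nat_lit 188420) (nat_lit 0) .nil))))) (.g (nat_lit 0) (.e (nat_lit 444573) (nat_lit 0) .nil) .nil))) 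
(.lf (nat_lit 609957) (.g (nat_lit 1783) (.e (nat_lit 737300) (nat_lit 7) (.e (nat_lit 286753) (nat_lit 10) (.e (nat_lit 344138) (nat_lit 29) (.e (nat_lit 581653) (nat_lit 6) (.e (nat_lit 188430) (nat_lit 20) (.e (nat_lit 3572) (nat_lit 222) .nil)))))) (.g (nat_lit 1) (.e (nat_lit 446869) (nat_lit 0) .nil) .nil)))) 
(.lf (nat_lit 609701) (.g (nat_lit 3923) (.e (nat_lit 720908) (nat_lit 11) (.e (nat_lit 426123) (nat_lit 2) (.e (nat_lit 196666) (nat_lit 13) (.e (nat_lit 65610) (nat_lit 10) (.e (nat_lit 344129) (nat_lit 26) (.e (nat_lit 557090) (nat_lit 12) (.e (nat_lit 171776) (nat_lit 48) .nil))))))) (.g (nat_lit 1) (.e (nat_lit 445196) (nat_lit 0) .nil) .nil))))) 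
(.nd (nat_lit 7) (.nd (nat_lit 8) (.nd (nat_lit 9) 
(.lf (nat_lit 609381) (.g (nat_lit 2533) (.e (nat_lit 712745) (nat_lit 27) (.e (nat_lit 426347) (nat_lit 14) (.e (nat_lit 491569) (nat_lit 13) (.e (nat_lit 393281) (nat_lit 23) (.e (nat_lit 426413) (nat_lit 15) .nil))))) (.g (nat_lit 0) (.e (nat_lit 444485) (nat_lit 0) .nil) .nil))) 
(.lf (nat_lit 609893) (.g (nat_lit 2644) (.e (nat_lit 720952) (nat_lit 24) (.e (nat_lit 106536) (nat_lit 11) (.e (nat_lit 16392) (nat_lit 0) (.e (nat_lit 6989) (nat_lit 377) (.e (nat_lit 2810) (nat_lit 180) .nil))))) (.g (nat_lit 0) (.e (nat_lit 446000) (nat_lit 0) .nil) .nil)))) 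
(.lf (nat_lit 609637) (.g (nat_lit 2964) (.e (nat_lit 712755) (nat_lit 30) (.e (nat_lit 450588) (nat_lit 10) (.e (nat_lit 573473) (nat_lit 12) (.e (nat_lit 57511) (nat_lit 39) (.e (nat_lit 647201) (nat_lit 12) (.e (nat_lit 57574) (nat_lit 55) (.e (nat_lit 778455) (nat_lit 10) (.e (nat_lit 8356) (nat_lit 88) .nil)))))))) (.g (nat_lit 1) (.e (nat_lit 444824) (nat_lit 0) .nil) .nil)))) 
(.nd (nat_lit 8) (.nd (nat_lit 9) 
(.lf (nat_lit 609509) (.g (nat_lit 3139) (.e (nat_lit 712753) (nat_lit 30) (.e (nat_lit 450565) (nat_lit 0) (.e (nat_lit 5548) (nat_lit 306) (.e (nat_lit 2628) (nat_lit 164) (.e (nat_lit 172118) (nat_lit 12) (.e (nat_lit 475210) (nat_lit 41) .nil)))))) (.g (nat_lit 1) (.e (nat_lit 444674) (nat_lit 0) .nil) .nil))) 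
(.lf (nat_lit 610021) (.g (nat_lit 1763) (.e (nat_lit 745491) (nat_lit 4) (.e (nat_lit 65611) (nat_lit 10) (.e (nat_lit 344138) (nat_lit 29) (.e (nat_lit 581653) (nat_lit 6) (.e (nat_lit 188440) (nat_lit 20) (.e (nat_lit 3578) (nat_lit 223) .nil)))))) (.g (nat_lit 1) (.e (nat_lit 446968) (nat_lit 0) .nil) .nil)))) 
(.lf (nat_lit 609765) (.g (nat_lit 3787) (.e (nat_lit 720909) (nat_lit 11) (.e (nat_lit 426124) (nat_lit 2) (.e (nat_lit 196666) (nat_lit 13) (.e (nat_lit 65617) (nat_lit 10) (.e (nat_lit 344133) (nat_lit 26) (.e (nat_lit 557091) (nat_lit 12) (.e (nat_lit 171776) (nat_lit 48) .nil))))))) (.g (nat_lit 1) (.e (nat_lit 445349) (nat_lit 0) .nil) .nil))))))) 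
(.nd (nat_lit 5) (.nd (nat_lit 6) (.nd (nat_lit 7) (.nd (nat_lit 8) (.nd (nat_lit 9) 
(.lf (nat_lit 609301) (.g (nat_lit 1363) (.e (nat_lit 704742) (nat_lit 11) (.e (nat_lit 16466) (nat_lit 13) (.e (nat_lit 483393) (nat_lit 23) (.e (nat_lit 335987) (nat_lit 1) .nil)))) (.g (nat_lit 0) (.e (nat_lit 444027) (nat_lit 0) .nil) .nil))) 
(.lf (nat_lit 609813) (.g (nat_lit 3805) (.e (nat_lit 720909) (nat_lit 11) (.e (nat_lit 426139) (nat_lit 3) (.e (nat_lit 204869) (nat_lit 29) (.e (nat_lit 360475) (nat_lit 8) (.e (nat_lit 557089) (nat_lit 12) (.e (nat_lit 171776) (nat_lit 48) .nil)))))) (.g (nat_lit 1) (.e (nat_lit 445432) (nat_lit 0) .nil) .nil)))) 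
(.lf (nat_lit 609557) (.g (nat_lit 1719) (.e (nat_lit 712753) (nat_lit 30) (.e (nat_lit 450586) (nat_lit 10) (.e (nat_lit 573473) (nat_lit 12) (.e (nat_lit 57503) (nat_lit 38) (.e (nat_lit 638999) (nat_lit 8) (.e (nat_lit 172035) (nat_lit 0) (.e (nat_lit 3547) (nat_lit 219) .nil))))))) (.g (nat_lit 1) (.e (nat_lit 444722) (nat_lit 0) .nil) .nil)))) (.nd (nat_lit 8) (.nd (nat_lit 9) 
(.lf (nat_lit 609429) (.g (nat_lit 2606) (.e (nat_lit 712745) (nat_lit 27) (.e (nat_lit 426347) (nat_lit 14) (.e (nat_lit 491571) (nat_lit 13) (.e (nat_lit 393281) (nat_lit 23) (.e (nat_lit 426410) (nat_lit 15) .nil))))) (.g (nat_lit 0) (.e (nat_lit 444536) (nat_lit 0) .nil) .nil))) 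
(.lf (nat_lit 609941) (.g (nat_lit 615) (.e (nat_lit 737284) (nat_lit 0) (.e (nat_lit 5410) (nat_lit 303) (.e (nat_lit 73750) (nat_lit 6) (.e (nat_lit 540724) (nat_lit 28) (.e (nat_lit 442396) (nat_lit 20) (.e (nat_lit 3571) (nat_lit 222) .nil)))))) (.g (nat_lit 1) (.e (nat_lit 446775) (nat_lit 0) .nil) .nil)))) 
(.lf (nat_lit 609685) (.g (nat_lit 2422) (.e (nat_lit 720907) (nat_lit 11) (.e (nat_lit 426126) (nat_lit 2) (.e (nat_lit 196666) (nat_lit 13) (.e (nat_lit 65617) (nat_lit 10) (.e (nat_lit 344130) (nat_lit 26) (.e (nat_lit 557090) (nat_lit 12) (.e (nat_lit 171776) (nat_lit 48) .nil))))))) (.g (nat_lit 1) (.e (nat_lit 445137) (nat_lit 0) .nil) .nil))))) 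
(.nd (nat_lit 7) (.nd (nat_lit 8) (.nd (nat_lit 9) 
(.lf (nat_lit 609365) (.g (nat_lit 2377) (.e (nat_lit 712745) (nat_lit 27) (.e (nat_lit 426347) (nat_lit 14) (.e (nat_lit 491549) (nat_lit 9) (.e (nat_lit 336369) (nat_lit 27) (.e (nat_lit 426310) (nat_lit 12) .nil))))) (.g (nat_lit 0) (.e (nat_lit 444466) (nat_lit 0) .nil) .nil))) 
(.lf (nat_lit 609877) (.g (nat_lit 2964) (.e (nat_lit 720945) (nat_lit 23) (.e (nat_lit 98356) (nat_lit 26) (.e (nat_lit 426438) (nat_lit 18) (.e (nat_lit 98334) (nat_lit 18) (.e (nat_lit 164305) (nat_lit 226) (.e (nat_lit 2604) (nat_lit 163) (.e (nat_lit 163962) (nat_lit 25) (.e (nat_lit 532483) (nat_lit 0) (.e (nat_lit 2198) (nat_lit 144) .nil))))))))) (.g (nat_lit 1) (.e (nat_lit 445971) (nat_lit 0) .nil) .nil)))) 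
(.lf (nat_lit 609621) (.g (nat_lit 1735) (.e (nat_lit 712755) (nat_lit 30) (.e (nat_lit 450565) (nat_lit 0) (.e (nat_lit 5548) (nat_lit 306) (.e (nat_lit 2618) (nat_lit 164) (.e (nat_lit 172120) (nat_lit 12) .nil))))) (.g (nat_lit 0) (.e (nat_lit 444807) (nat_lit 0) .nil) .nil)))) (.nd (nat_lit 8) (.nd (nat_lit 9) 
(.lf (nat_lit 609493) (.g (nat_lit 2051) (.e (nat_lit 712752) (nat_lit 29) (.e (nat_lit 442430) (nat_lit 24) (.e (nat_lit 229678) (nat_lit 244) (.e (nat_lit 163905) (nat_lit 12) (.e (nat_lit 426320) (nat_lit 12) .nil))))) (.g (nat_lit 0) (.e (nat_lit 444651) (nat_lit 0) .nil) .nil))) 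
(.lf (nat_lit 610005) (.g (nat_lit 1562) (.e (nat_lit 745489) (nat_lit 4) (.e (nat_lit 65619) (nat_lit 10) (.e (nat_lit 344138) (nat_lit 29) (.e (nat_lit 581653) (nat_lit 6) (.e (nat_lit 188441) (nat_lit 20) .nil))))) (.g (nat_lit 0) (.e (nat_lit 446947) (nat_lit 0) .nil) .nil)))) 
(.lf (nat_lit 609749) (.g (nat_lit 3489) (.e (nat_lit 720909) (nat_lit 11) (.e (nat_lit 426122) (nat_lit 2) (.e (nat_lit 196666) (nat_lit 13) (.e (nat_lit 65617) (nat_lit 10) (.e (nat_lit 344133) (nat_lit 26) (.e (nat_lit 557091) (nat_lit 12) (.e (nat_lit 171776) (nat_lit 48) .nil))))))) (.g (nat_lit 1) (.e (nat_lit 445328) (nat_lit 0) .nil) .nil)))))) 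
(.nd (nat_lit 6) (.nd (nat_lit 7) (.nd (nat_lit 8) (.nd (nat_lit 9) 
(.lf (nat_lit 609333) (.g (nat_lit 1645) (.e (nat_lit 712728) (nat_lit 18) (.e (nat_lit 204863) (nat_lit 27) (.e (nat_lit 344133) (nat_lit 26) (.e (nat_lit 557098) (nat_lit 13) .nil)))) (.g (nat_lit 0) (.e (nat_lit 444241) (nat_lit 0) .nil) .nil))) 
(.lf (nat_lit 609845) (.g (nat_lit 2062) (.e (nat_lit 720931) (nat_lit 21) (.e (nat_lit 57926) (nat_lit 282) (.e (nat_lit 163933) (nat_lit 17) (.e (nat_lit 466977) (nat_lit 22) (.e (nat_lit 196624) (nat_lit 9) .nil))))) (.g (nat_lit 0) (.e (nat_lit 445919) (nat_lit 0) .nil) .nil)))) 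
(.lf (nat_lit 609589) (.g (nat_lit 2407) (.e (nat_lit 712753) (nat_lit 30) (.e (nat_lit 450593) (nat_lit 16) (.e (nat_lit 655367) (nat_lit 0) (.e (nat_lit 2946) (nat_lit 184) (.e (nat_lit 426306) (nat_lit 12) (.e (nat_lit 475207) (nat_lit 41) .nil)))))) (.g (nat_lit 1) (.e (nat_lit 444755) (nat_lit 0) .nil) .nil)))) (.nd (nat_lit 8) (.nd (nat_lit 9) 
(.lf (nat_lit 609461) (.g (nat_lit 2469) (.e (nat_lit 712750) (nat_lit 29) (.e (nat_lit 442430) (nat_lit 24) (.e (nat_lit 229678) (nat_lit 244) (.e (nat_lit 163913) (nat_lit 12) (.e (nat_lit 426318) (nat_lit 12) .nil))))) (.g (nat_lit 0) (.e (nat_lit 444595) (nat_lit 0) .nil) .nil))) 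
(.lf (nat_lit 609973) (.g (nat_lit 2039) (.e (nat_lit 737310) (nat_lit 11) (.e (nat_lit 788) (nat_lit 66) (.e (nat_lit 704738) (nat_lit 11) (.e (nat_lit 16425) (nat_lit 7) (.e (nat_lit 409646) (nat_lit 18) .nil))))) (.g (nat_lit 0) (.e (nat_lit 446907) (nat_lit 0) .nil) .nil)))) 
(.lf (nat_lit 609717) (.g (nat_lit 2189) (.e (nat_lit 720908) (nat_lit 11) (.e (nat_lit 426138) (nat_lit 3) (.e (nat_lit 204868) (nat_lit 29) (.e (nat_lit 360473) (nat_lit 8) (.e (nat_lit 557091) (nat_lit 12) (.e (nat_lit 171776) (nat_lit 48) .nil)))))) (.g (nat_lit 1) (.e (nat_lit 445217) (nat_lit 0) .nil) .nil))))) (.nd (nat_lit 7) (.nd (nat_lit 8) (.nd (nat_lit 9) 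
(.lf (nat_lit 609397) (.g (nat_lit 1855) (.e (nat_lit 712745) (nat_lit 27) (.e (nat_lit 426347) (nat_lit 14) (.e (nat_lit 491570) (nat_lit 13) (.e (nat_lit 393274) (nat_lit 23) .nil)))) (.g (nat_lit 0) (.e (nat_lit 444502) (nat_lit 0) .nil) .nil))) 
(.lf (nat_lit 609909) (.g (nat_lit 1807) (.e (nat_lit 729095) (nat_lit 11) (.e (nat_lit 426140) (nat_lit 3) (.e (nat_lit 204868) (nat_lit 29) (.e (nat_lit 360473) (nat_lit 8) (.e (nat_lit 557094) (nat_lit 12) (.e (nat_lit 171776) (nat_lit 49) .nil)))))) (.g (nat_lit 1) (.e (nat_lit 446125) (nat_lit 0) .nil) .nil)))) 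
(.lf (nat_lit 609653) (.g (nat_lit 3027) (.e (nat_lit 712755) (nat_lit 30) (.e (nat_lit 450597) (nat_lit 17) (.e (nat_lit 663589) (nat_lit 14) (.e (nat_lit 2798) (nat_lit 180) (.e (nat_lit 303133) (nat_lit 9) (.e (nat_lit 426412) (nat_lit 15) (.e (nat_lit 2174) (nat_lit 143) .nil))))))) (.g (nat_lit 1) (.e (nat_lit 444840) (nat_lit 0) .nil) .nil)))) (.nd (nat_lit 8) (.nd (nat_lit 9) 
(.lf (nat_lit 609525) (.g (nat_lit 2029) (.e (nat_lit 712753) (nat_lit 30) (.e (nat_lit 450579) (nat_lit 5) (.e (nat_lit 532501) (nat_lit 1) (.e (nat_lit 57663) (nat_lit 152) (.e (nat_lit 2630) (nat_lit 164) (.e (nat_lit 172035) (nat_lit 0) (.e (nat_lit 3547) (nat_lit 219) .nil))))))) (.g (nat_lit 1) (.e (nat_lit 444690) (nat_lit 0) .nil) .nil))) 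
(.lf (nat_lit 610037) (.g (nat_lit 2066) (.e (nat_lit 745491) (nat_lit 4) (.e (nat_lit 65619) (nat_lit 10) (.e (nat_lit 344138) (nat_lit 29) (.e (nat_lit 581653) (nat_lit 6) (.e (nat_lit 188434) (nat_lit 20) (.e (nat_lit 3578) (nat_lit 223) .nil)))))) (.g (nat_lit 1) (.e (nat_lit 446989) (nat_lit 0) .nil) .nil)))) 
(.lf (nat_lit 609781) (.g (nat_lit 4179) (.e (nat_lit 720909) (nat_lit 11) (.e (nat_lit 426133) (nat_lit 3) (.e (nat_lit 204868) (nat_lit 29) (.e (nat_lit 360475) (nat_lit 8) (.e (nat_lit 557091) (nat_lit 12) (.e (nat_lit 171776) (nat_lit 48) .nil)))))) (.g (nat_lit 1) (.e (nat_lit 445387) (nat_lit 0) .nil) .nil)))))))) 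
(.nd (nat_lit 4) (.nd (nat_lit 5) (.nd (nat_lit 6) (.nd (nat_lit 7) (.nd (nat_lit 8) 
(.nd (nat_lit 9) 
(.lf (nat_lit 609293) (.g (nat_lit 2170) (.e (nat_lit 704740) (nat_lit 11) (.e (nat_lit 16425) (nat_lit 7) (.e (nat_lit 409649) (nat_lit 18) (.e (nat_lit 303140) (nat_lit 10) (.e (nat_lit 434275) (nat_lit 39) (.e (nat_lit 663580) (nat_lit 9) (.e (nat_lit 7936) (nat_lit 157) (.e (nat_lit 3477) (nat_lit 218) .nil)))))))) (.g (nat_lit 1) (.e (nat_lit 443999) (nat_lit 0) .nil) .nil))) 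
(.lf (nat_lit 609805) (.g (nat_lit 3585) (.e (nat_lit 720909) (nat_lit 11) (.e (nat_lit 426138) (nat_lit 3) (.e (nat_lit 204869) (nat_lit 29) (.e (nat_lit 360475) (nat_lit 8) (.e (nat_lit 557091) (nat_lit 12) (.e (nat_lit 171776) (nat_lit 48) .nil)))))) (.g (nat_lit 1) (.e (nat_lit 445417) (nat_lit 0) .nil) .nil)))) 
(.lf (nat_lit 609549) (.g (nat_lit 2241) (.e (nat_lit 712753) (nat_lit 30) (.e (nat_lit 450580) (nat_lit 5) (.e (nat_lit 532499) (nat_lit 1) (.e (nat_lit 57667) (nat_lit 152) .nil)))) (.g (nat_lit 0) (.e (nat_lit 444714) (nat_lit 0) .nil) .nil)))) (.nd (nat_lit 8) (.nd (nat_lit 9) 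
(.lf (nat_lit 609421) (.g (nat_lit 2179) (.e (nat_lit 712745) (nat_lit 27) (.e (nat_lit 426347) (nat_lit 14) (.e (nat_lit 491571) (nat_lit 13) (.e (nat_lit 393269) (nat_lit 23) (.e (nat_lit 426393) (nat_lit 15) .nil))))) (.g (nat_lit 0) (.e (nat_lit 444528) (nat_lit 0) .nil) .nil))) 
(.lf (nat_lit 609933) (.g (nat_lit 865) (.e (nat_lit 729117) (nat_lit 25) (.e (nat_lit 114718) (nat_lit 23) (.e (nat_lit 98388) (nat_lit 33) .nil))) (.g (nat_lit 0) (.e (nat_lit 446686) (nat_lit 0) .nil) .nil)))) 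
(.lf (nat_lit 609677) (.g (nat_lit 851) (.e (nat_lit 728832) (nat_lit 4) (.e (nat_lit 213030) (nat_lit 11) (.e (nat_lit 24659) (nat_lit 13) (.e (nat_lit 393292) (nat_lit 26) .nil)))) (.g (nat_lit 0) (.e (nat_lit 444996) (nat_lit 0) .nil) .nil))))) (.nd (nat_lit 7) (.nd (nat_lit 8) (.nd (nat_lit 9) 
(.lf (nat_lit 609357) (.g (nat_lit 3656) (.e (nat_lit 712742) (nat_lit 27) (.e (nat_lit 426338) (nat_lit 14) (.e (nat_lit 491571) (nat_lit 13) (.e (nat_lit 393291) (nat_lit 26) (.e (nat_lit 475210) (nat_lit 41) .nil))))) (.g (nat_lit 1) (.e (nat_lit 444435) (nat_lit 0) .nil) .nil))) 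
(.lf (nat_lit 609869) (.g (nat_lit 1961) (.e (nat_lit 720944) (nat_lit 23) (.e (nat_lit 98333) (nat_lit 18) (.e (nat_lit 164325) (nat_lit 230) (.e (nat_lit 163875) (nat_lit 3) .nil)))) (.g (nat_lit 0) (.e (nat_lit 445954) (nat_lit 0) .nil) .nil)))) 
(.lf (nat_lit 609613) (.g (nat_lit 3401) (.e (nat_lit 712755) (nat_lit 30) (.e (nat_lit 450563) (nat_lit 0) (.e (nat_lit 5537) (nat_lit 306) (.e (nat_lit 2629) (nat_lit 164) (.e (nat_lit 172119) (nat_lit 12) (.e (nat_lit 475211) (nat_lit 41) .nil)))))) (.g (nat_lit 1) (.e (nat_lit 444795) (nat_lit 0) .nil) .nil)))) (.nd (nat_lit 8) (.nd (nat_lit 9) 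
(.lf (nat_lit 609485) (.g (nat_lit 1297) (.e (nat_lit 712752) (nat_lit 29) (.e (nat_lit 442421) (nat_lit 21) (.e (nat_lit 164347) (nat_lit 240) (.e (nat_lit 2618) (nat_lit 164) .nil)))) (.g (nat_lit 0) (.e (nat_lit 444639) (nat_lit 0) .nil) .nil))) 
(.lf (nat_lit 609997) (.g (nat_lit 1769) (.e (nat_lit 745475) (nat_lit 0) (.e (nat_lit 1598) (nat_lit 111) (.e (nat_lit 360477) (nat_lit 11) (.e (nat_lit 581636) (nat_lit 0) (.e (nat_lit 3015) (nat_lit 187) (.e (nat_lit 450605) (nat_lit 27) .nil)))))) (.g (nat_lit 1) (.e (nat_lit 446936) (nat_lit 0) .nil) .nil)))) 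
(.lf (nat_lit 609741) (.g (nat_lit 2609) (.e (nat_lit 720909) (nat_lit 11) (.e (nat_lit 426121) (nat_lit 2) (.e (nat_lit 196666) (nat_lit 13) (.e (nat_lit 65617) (nat_lit 10) (.e (nat_lit 344130) (nat_lit 26) (.e (nat_lit 557089) (nat_lit 12) (.e (nat_lit 171776) (nat_lit 48) .nil))))))) (.g (nat_lit 1) (.e (nat_lit 445320) (nat_lit 0) .nil) .nil)))))) 
(.nd (nat_lit 6) (.nd (nat_lit 7) (.nd (nat_lit 8) (.nd (nat_lit 9) 
(.lf (nat_lit 609325) (.g (nat_lit 764) (.e (nat_lit 712728) (nat_lit 18) (.e (nat_lit 204863) (nat_lit 27) (.e (nat_lit 344117) (nat_lit 21) .nil))) (.g (nat_lit 0) (.e (nat_lit 444233) (nat_lit 0) .nil) .nil))) 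
(.lf (nat_lit 609837) (.g (nat_lit 2851) (.e (nat_lit 728832) (nat_lit 11) (.e (nat_lit 426123) (nat_lit 2) (.e (nat_lit 196666) (nat_lit 13) (.e (nat_lit 65617) (nat_lit 10) (.e (nat_lit 344133) (nat_lit 26) .nil))))) (.g (nat_lit 0) (.e (nat_lit 445655) (nat_lit 0) .nil) .nil)))) 
(.lf (nat_lit 609581) (.g (nat_lit 2648) (.e (nat_lit 712753) (nat_lit 30) (.e (nat_lit 450586) (nat_lit 10) (.e (nat_lit 573475) (nat_lit 12) (.e (nat_lit 57508) (nat_lit 39) (.e (nat_lit 647199) (nat_lit 11) (.e (nat_lit 16388) (nat_lit 0) (.e (nat_lit 3544) (nat_lit 219) .nil))))))) (.g (nat_lit 1) (.e (nat_lit 444746) (nat_lit 0) .nil) .nil)))) (.nd (nat_lit 8) (.nd (nat_lit 9) 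
(.lf (nat_lit 609453) (.g (nat_lit 2094) (.e (nat_lit 712750) (nat_lit 29) (.e (nat_lit 442430) (nat_lit 24) (.e (nat_lit 229663) (nat_lit 240) (.e (nat_lit 2622) (nat_lit 164) (.e (nat_lit 172118) (nat_lit 12) .nil))))) (.g (nat_lit 0) (.e (nat_lit 444585) (nat_lit 0) .nil) .nil))) 
(.lf (nat_lit 609965) (.g (nat_lit 2006) (.e (nat_lit 737300) (nat_lit 7) (.e (nat_lit 286755) (nat_lit 10) (.e (nat_lit 344138) (nat_lit 29) (.e (nat_lit 581653) (nat_lit 6) (.e (nat_lit 188431) (nat_lit 20) (.e (nat_lit 3571) (nat_lit 222) .nil)))))) (.g (nat_lit 1) (.e (nat_lit 446887) (nat_lit 0) .nil) .nil)))) 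
(.lf (nat_lit 609709) (.g (nat_lit 1831) (.e (nat_lit 720908) (nat_lit 11) (.e (nat_lit 426137) (nat_lit 3) (.e (nat_lit 204868) (nat_lit 29) (.e (nat_lit 360473) (nat_lit 8) (.e (nat_lit 557089) (nat_lit 12) (.e (nat_lit 171776) (nat_lit 48) .nil)))))) (.g (nat_lit 1) (.e (nat_lit 445209) (nat_lit 0) .nil) .nil))))) (.nd (nat_lit 7) (.nd (nat_lit 8) (.nd (nat_lit 9) 
(.lf (nat_lit 609389) (.g (nat_lit 2839) (.e (nat_lit 712745) (nat_lit 27) (.e (nat_lit 426347) (nat_lit 14) (.e (nat_lit 491570) (nat_lit 13) (.e (nat_lit 393271) (nat_lit 23) (.e (nat_lit 426374) (nat_lit 15) .nil))))) (.g (nat_lit 0) (.e (nat_lit 444493) (nat_lit 0) .nil) .nil))) 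
(.lf (nat_lit 609901) (.g (nat_lit 1099) (.e (nat_lit 720956) (nat_lit 25) (.e (nat_lit 114698) (nat_lit 11) (.e (nat_lit 426182) (nat_lit 8) .nil))) (.g (nat_lit 0) (.e (nat_lit 446017) (nat_lit 0) .nil) .nil)))) 
(.lf (nat_lit 609645) (.g (nat_lit 2854) (.e (nat_lit 712755) (nat_lit 30) (.e (nat_lit 450588) (nat_lit 10) (.e (nat_lit 573475) (nat_lit 12) (.e (nat_lit 57503) (nat_lit 38) (.e (nat_lit 638999) (nat_lit 8) (.e (nat_lit 172035) (nat_lit 0) (.e (nat_lit 3543) (nat_lit 219) .nil))))))) (.g (nat_lit 1) (.e (nat_lit 444832) (nat_lit 0) .nil) .nil)))) (.nd (nat_lit 8) (.nd (nat_lit 9) 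
(.lf (nat_lit 609517) (.g (nat_lit 3218) (.e (nat_lit 712753) (nat_lit 30) (.e (nat_lit 450569) (nat_lit 0) (.e (nat_lit 5448) (nat_lit 306) (.e (nat_lit 2630) (nat_lit 164) (.e (nat_lit 172120) (nat_lit 12) (.e (nat_lit 475211) (nat_lit 41) .nil)))))) (.g (nat_lit 1) (.e (nat_lit 444682) (nat_lit 0) .nil) .nil))) 
(.lf (nat_lit 610029) (.g (nat_lit 2980) (.e (nat_lit 745491) (nat_lit 4) (.e (nat_lit 65617) (nat_lit 10) (.e (nat_lit 344138) (nat_lit 29) (.e (nat_lit 581653) (nat_lit 6) (.e (nat_lit 188434) (nat_lit 20) (.e (nat_lit 3579) (nat_lit 223) .nil)))))) (.g (nat_lit 1) (.e (nat_lit 446978) (nat_lit 0) .nil) .nil)))) 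
(.lf (nat_lit 609773) (.g (nat_lit 1775) (.e (nat_lit 720909) (nat_lit 11) (.e (nat_lit 426124) (nat_lit 2) (.e (nat_lit 196674) (nat_lit 15) (.e (nat_lit 81947) (nat_lit 20) (.e (nat_lit 1855) (nat_lit 124) (.e (nat_lit 557093) (nat_lit 12) (.e (nat_lit 171776) (nat_lit 48) .nil))))))) (.g (nat_lit 1) (.e (nat_lit 445367) (nat_lit 0) .nil) .nil))))))) 
(.nd (nat_lit 5) (.nd (nat_lit 6) (.nd (nat_lit 7) (.nd (nat_lit 8) (.nd (nat_lit 9) 
(.lf (nat_lit 609309) (.g (nat_lit 1363) (.e (nat_lit 704754) (nat_lit 12) (.e (nat_lit 57479) (nat_lit 28) (.e (nat_lit 557089) (nat_lit 12) .nil))) (.g (nat_lit 0) (.e (nat_lit 444059) (nat_lit 0) .nil) .nil))) 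
(.lf (nat_lit 609821) (.g (nat_lit 1414) (.e (nat_lit 720909) (nat_lit 11) (.e (nat_lit 426196) (nat_lit 9) (.e (nat_lit 426550) (nat_lit 31) (.e (nat_lit 368656) (nat_lit 14) (.e (nat_lit 57809) (nat_lit 246) (.e (nat_lit 57610) (nat_lit 109) .nil)))))) (.g (nat_lit 1) (.e (nat_lit 445450) (nat_lit 0) .nil) .nil)))) 
(.lf (nat_lit 609565) (.g (nat_lit 3614) (.e (nat_lit 712753) (nat_lit 30) (.e (nat_lit 450586) (nat_lit 10) (.e (nat_lit 573473) (nat_lit 12) (.e (nat_lit 57508) (nat_lit 39) (.e (nat_lit 647195) (nat_lit 9) (.e (nat_lit 426) (nat_lit 32) (.e (nat_lit 426011) (nat_lit 0) (.e (nat_lit 3546) (nat_lit 219) .nil)))))))) (.g (nat_lit 1) (.e (nat_lit 444730) (nat_lit 0) .nil) .nil)))) 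
(.nd (nat_lit 8) (.nd (nat_lit 9) 
(.lf (nat_lit 609437) (.g (nat_lit 1928) (.e (nat_lit 712750) (nat_lit 29) (.e (nat_lit 442382) (nat_lit 8) (.e (nat_lit 155652) (nat_lit 0) (.e (nat_lit 3003) (nat_lit 186) (.e (nat_lit 442374) (nat_lit 0) (.e (nat_lit 2175) (nat_lit 143) .nil)))))) (.g (nat_lit 1) (.e (nat_lit 444560) (nat_lit 0) .nil) .nil))) 
(.lf (nat_lit 609949) (.g (nat_lit 4025) (.e (nat_lit 737302) (nat_lit 10) (.e (nat_lit 311324) (nat_lit 9) (.e (nat_lit 426436) (nat_lit 18) (.e (nat_lit 98335) (nat_lit 18) (.e (nat_lit 164305) (nat_lit 226) (.e (nat_lit 2630) (nat_lit 164) (.e (nat_lit 172039) (nat_lit 0) (.e (nat_lit 3571) (nat_lit 222) .nil)))))))) (.g (nat_lit 1) (.e (nat_lit 446842) (nat_lit 0) .nil) .nil)))) 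
(.lf (nat_lit 609693) (.g (nat_lit 507) (.e (nat_lit 720907) (nat_lit 11) (.e (nat_lit 426234) (nat_lit 9) (.e (nat_lit 426547) (nat_lit 31) (.e (nat_lit 376576) (nat_lit 5) .nil)))) (.g (nat_lit 0) (.e (nat_lit 445147) (nat_lit 0) .nil) .nil))))) (.nd (nat_lit 7) (.nd (nat_lit 8) (.nd (nat_lit 9) 
(.lf (nat_lit 609373) (.g (nat_lit 1843) (.e (nat_lit 712745) (nat_lit 27) (.e (nat_lit 426347) (nat_lit 14) (.e (nat_lit 491569) (nat_lit 13) (.e (nat_lit 393271) (nat_lit 23) .nil)))) (.g (nat_lit 0) (.e (nat_lit 444476) (nat_lit 0) .nil) .nil))) 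
(.lf (nat_lit 609885) (.g (nat_lit 2528) (.e (nat_lit 720946) (nat_lit 24) (.e (nat_lit 106534) (nat_lit 11) (.e (nat_lit 16425) (nat_lit 7) (.e (nat_lit 409644) (nat_lit 18) (.e (nat_lit 303143) (nat_lit 12) .nil))))) (.g (nat_lit 0) (.e (nat_lit 445983) (nat_lit 0) .nil) .nil)))) 
(.lf (nat_lit 609629) (.g (nat_lit 3944) (.e (nat_lit 712755) (nat_lit 30) (.e (nat_lit 450587) (nat_lit 10) (.e (nat_lit 573475) (nat_lit 12) (.e (nat_lit 57503) (nat_lit 38) (.e (nat_lit 638999) (nat_lit 8) (.e (nat_lit 172036) (nat_lit 0) (.e (nat_lit 3543) (nat_lit 219) .nil))))))) (.g (nat_lit 1) (.e (nat_lit 444816) (nat_lit 0) .nil) .nil)))) (.nd (nat_lit 8) (.nd (nat_lit 9) 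
(.lf (nat_lit 609501) (.g (nat_lit 2217) (.e (nat_lit 712753) (nat_lit 30) (.e (nat_lit 450564) (nat_lit 0) (.e (nat_lit 5546) (nat_lit 306) (.e (nat_lit 2648) (nat_lit 166) (.e (nat_lit 188418) (nat_lit 0) (.e (nat_lit 2175) (nat_lit 143) .nil)))))) (.g (nat_lit 1) (.e (nat_lit 444662) (nat_lit 0) .nil) .nil))) 
(.lf (nat_lit 610013) (.g (nat_lit 1643) (.e (nat_lit 745491) (nat_lit 4) (.e (nat_lit 65610) (nat_lit 10) (.e (nat_lit 344138) (nat_lit 29) (.e (nat_lit 581653) (nat_lit 6) (.e (nat_lit 188438) (nat_lit 20) (.e (nat_lit 3578) (nat_lit 223) .nil)))))) (.g (nat_lit 1) (.e (nat_lit 446958) (nat_lit 0) .nil) .nil)))) 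
(.lf (nat_lit 609757) (.g (nat_lit 734) (.e (nat_lit 720909) (nat_lit 11) (.e (nat_lit 426124) (nat_lit 2) (.e (nat_lit 196663) (nat_lit 13) .nil))) (.g (nat_lit 0) (.e (nat_lit 445338) (nat_lit 0) .nil) .nil)))))) (.nd (nat_lit 6) (.nd (nat_lit 7) (.nd (nat_lit 8) (.nd (nat_lit 9) 
(.lf (nat_lit 609341) (.g (nat_lit 3398) (.e (nat_lit 712740) (nat_lit 27) (.e (nat_lit 426544) (nat_lit 30) (.e (nat_lit 360475) (nat_lit 8) (.e (nat_lit 557090) (nat_lit 12) .nil)))) (.g (nat_lit 0) (.e (nat_lit 444377) (nat_lit 0) .nil) .nil))) 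
(.lf (nat_lit 609853) (.g (nat_lit 3306) (.e (nat_lit 720937) (nat_lit 22) (.e (nat_lit 90159) (nat_lit 11) (.e (nat_lit 24665) (nat_lit 14) (.e (nat_lit 401414) (nat_lit 0) (.e (nat_lit 3272) (nat_lit 199) (.e (nat_lit 548898) (nat_lit 14) (.e (nat_lit 3063) (nat_lit 190) (.e (nat_lit 475214) (nat_lit 42) .nil)))))))) (.g (nat_lit 1) (.e (nat_lit 445935) (nat_lit 0) .nil) .nil)))) 
(.lf (nat_lit 609597) (.g (nat_lit 2207) (.e (nat_lit 712754) (nat_lit 30) (.e (nat_lit 450588) (nat_lit 10) (.e (nat_lit 573475) (nat_lit 12) (.e (nat_lit 57503) (nat_lit 38) .nil)))) (.g (nat_lit 0) (.e (nat_lit 444771) (nat_lit 0) .nil) .nil)))) (.nd (nat_lit 8) (.nd (nat_lit 9) 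
(.lf (nat_lit 609469) (.g (nat_lit 2215) (.e (nat_lit 712750) (nat_lit 29) (.e (nat_lit 442430) (nat_lit 24) (.e (nat_lit 229681) (nat_lit 244) (.e (nat_lit 163920) (nat_lit 14) (.e (nat_lit 442374) (nat_lit 0) (.e (nat_lit 2175) (nat_lit 143) .nil)))))) (.g (nat_lit 1) (.e (nat_lit 444603) (nat_lit 0) .nil) .nil))) 
(.lf (nat_lit 609981) (.g (nat_lit 2760) (.e (nat_lit 737318) (nat_lit 15) (.e (nat_lit 49188) (nat_lit 11) (.e (nat_lit 16425) (nat_lit 7) (.e (nat_lit 409645) (nat_lit 18) (.e (nat_lit 303143) (nat_lit 12) (.e (nat_lit 475219) (nat_lit 44) .nil)))))) (.g (nat_lit 1) (.e (nat_lit 446920) (nat_lit 0) .nil) .nil)))) 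
(.lf (nat_lit 609725) (.g (nat_lit 2831) (.e (nat_lit 720908) (nat_lit 11) (.e (nat_lit 426139) (nat_lit 3) (.e (nat_lit 204868) (nat_lit 29) (.e (nat_lit 360473) (nat_lit 8) (.e (nat_lit 557091) (nat_lit 12) (.e (nat_lit 171776) (nat_lit 48) .nil)))))) (.g (nat_lit 1) (.e (nat_lit 445225) (nat_lit 0) .nil) .nil))))) (.nd (nat_lit 7) (.nd (nat_lit 8) (.nd (nat_lit 9) 
(.lf (nat_lit 609405) (.g (nat_lit 2578) (.e (nat_lit 712745) (nat_lit 27) (.e (nat_lit 426347) (nat_lit 14) (.e (nat_lit 491570) (nat_lit 13) (.e (nat_lit 393294) (nat_lit 26) (.e (nat_lit 475208) (nat_lit 41) .nil))))) (.g (nat_lit 0) (.e (nat_lit 444510) (nat_lit 0) .nil) .nil))) 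
(.lf (nat_lit 609917) (.g (nat_lit 2343) (.e (nat_lit 729098) (nat_lit 11) (.e (nat_lit 426122) (nat_lit 2) (.e (nat_lit 196666) (nat_lit 13) (.e (nat_lit 65617) (nat_lit 10) (.e (nat_lit 344132) (nat_lit 26) (.e (nat_lit 557094) (nat_lit 12) (.e (nat_lit 171776) (nat_lit 49) .nil))))))) (.g (nat_lit 1) (.e (nat_lit 446155) (nat_lit 0) .nil) .nil)))) 
(.lf (nat_lit 609661) (.g (nat_lit 2575) (.e (nat_lit 712755) (nat_lit 30) (.e (nat_lit 450593) (nat_lit 16) (.e (nat_lit 655378) (nat_lit 4) (.e (nat_lit 172120) (nat_lit 12) (.e (nat_lit 475209) (nat_lit 41) .nil))))) (.g (nat_lit 1) (.e (nat_lit 444849) (nat_lit 0) .nil) .nil)))) (.nd (nat_lit 8) (.nd (nat_lit 9) 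
(.lf (nat_lit 609533) (.g (nat_lit 1645) (.e (nat_lit 712753) (nat_lit 30) (.e (nat_lit 450579) (nat_lit 5) (.e (nat_lit 532501) (nat_lit 1) (.e (nat_lit 57670) (nat_lit 152) (.e (nat_lit 2637) (nat_lit 165) (.e (nat_lit 188160) (nat_lit 27) .nil)))))) (.g (nat_lit 1) (.e (nat_lit 444698) (nat_lit 0) .nil) .nil))) 
(.lf (nat_lit 610045) (.g (nat_lit 1828) (.e (nat_lit 745491) (nat_lit 4) (.e (nat_lit 65620) (nat_lit 10) (.e (nat_lit 344138) (nat_lit 29) (.e (nat_lit 581653) (nat_lit 6) (.e (nat_lit 188434) (nat_lit 20) (.e (nat_lit 3578) (nat_lit 223) .nil)))))) (.g (nat_lit 1) (.e (nat_lit 446999) (nat_lit 0) .nil) .nil)))) 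
(.lf (nat_lit 609789) (.g (nat_lit 2434) (.e (nat_lit 720909) (nat_lit 11) (.e (nat_lit 426137) (nat_lit 3) (.e (nat_lit 204868) (nat_lit 29) (.e (nat_lit 360473) (nat_lit 8) (.e (nat_lit 557091) (nat_lit 12) (.e (nat_lit 171776) (nat_lit 48) .nil)))))) (.g (nat_lit 1) (.e (nat_lit 445401) (nat_lit 0) .nil) .nil)))))))))) 
(.nd (nat_lit 2) (.nd (nat_lit 3) (.nd (nat_lit 4) (.nd (nat_lit 5) (.nd (nat_lit 6) 
(.nd (nat_lit 7) (.nd (nat_lit 8) (.nd (nat_lit 9) 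
(.lf (nat_lit 609283) (.g (nat_lit 975) (.e (nat_lit 704738) (nat_lit 11) (.e (nat_lit 16466) (nat_lit 13) (.e (nat_lit 483342) (nat_lit 17) (.e (nat_lit 6722) (nat_lit 362) .nil)))) (.g (nat_lit 0) (.e (nat_lit 443973) (nat_lit 0) .nil) .nil))) 
(.lf (nat_lit 609795) (.g (nat_lit 3323) (.e (nat_lit 720909) (nat_lit 11) (.e (nat_lit 426137) (nat_lit 3) (.e (nat_lit 204869) (nat_lit 29) (.e (nat_lit 360475) (nat_lit 8) (.e (nat_lit 557089) (nat_lit 12) (.e (nat_lit 171776) (nat_lit 48) .nil)))))) (.g (nat_lit 1) (.e (nat_lit 445407) (nat_lit 0) .nil) .nil)))) (.nd (nat_lit 9) 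
(.lf (nat_lit 609539) (.g (nat_lit 1881) (.e (nat_lit 712753) (nat_lit 30) (.e (nat_lit 450579) (nat_lit 5) (.e (nat_lit 532504) (nat_lit 1) (.e (nat_lit 57651) (nat_lit 152) (.e (nat_lit 2639) (nat_lit 165) (.e (nat_lit 188160) (nat_lit 27) .nil)))))) (.g (nat_lit 1) (.e (nat_lit 444704) (nat_lit 0) .nil) .nil))) 
(.lf (nat_lit 610051) (.g (nat_lit 2306) (.e (nat_lit 745492) (nat_lit 5) (.e (nat_lit 73791) (nat_lit 45) (.e (nat_lit 1117) (nat_lit 82) (.e (nat_lit 8399) (nat_lit 120) (.e (nat_lit 2649) (nat_lit 166) (.e (nat_lit 188434) (nat_lit 20) (.e (nat_lit 3578) (nat_lit 223) .nil))))))) (.g (nat_lit 1) (.e (nat_lit 447008) (nat_lit 0) .nil) .nil))))) (.nd (nat_lit 8) (.nd (nat_lit 9) 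
(.lf (nat_lit 609411) (.g (nat_lit 1983) (.e (nat_lit 712745) (nat_lit 27) (.e (nat_lit 426347) (nat_lit 14) (.e (nat_lit 491571) (nat_lit 13) (.e (nat_lit 393267) (nat_lit 23) (.e (nat_lit 426377) (nat_lit 15) .nil))))) (.g (nat_lit 0) (.e (nat_lit 444517) (nat_lit 0) .nil) .nil))) 
(.lf (nat_lit 609923) (.g (nat_lit 3347) (.e (nat_lit 729098) (nat_lit 11) (.e (nat_lit 426137) (nat_lit 3) (.e (nat_lit 204869) (nat_lit 29) (.e (nat_lit 360475) (nat_lit 8) (.e (nat_lit 557091) (nat_lit 12) (.e (nat_lit 171776) (nat_lit 49) .nil)))))) (.g (nat_lit 1) (.e (nat_lit 446165) (nat_lit 0) .nil) .nil)))) 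
(.lf (nat_lit 609667) (.g (nat_lit 1482) (.e (nat_lit 712761) (nat_lit 34) (.e (nat_lit 483411) (nat_lit 27) (.e (nat_lit 401426) (nat_lit 3) (.e (nat_lit 204838) (nat_lit 20) .nil)))) (.g (nat_lit 0) (.e (nat_lit 444947) (nat_lit 0) .nil) .nil))))) (.nd (nat_lit 7) (.nd (nat_lit 8) (.nd (nat_lit 9) 
(.lf (nat_lit 609347) (.g (nat_lit 3119) (.e (nat_lit 712742) (nat_lit 27) (.e (nat_lit 426338) (nat_lit 14) (.e (nat_lit 491569) (nat_lit 13) (.e (nat_lit 393294) (nat_lit 26) (.e (nat_lit 475209) (nat_lit 41) .nil))))) (.g (nat_lit 1) (.e (nat_lit 444415) (nat_lit 0) .nil) .nil))) 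
(.lf (nat_lit 609859) (.g (nat_lit 4721) (.e (nat_lit 720941) (nat_lit 22) (.e (nat_lit 90160) (nat_lit 11) (.e (nat_lit 24662) (nat_lit 14) (.e (nat_lit 401428) (nat_lit 3) (.e (nat_lit 204882) (nat_lit 32) (.e (nat_lit 392960) (nat_lit 42) .nil)))))) (.g (nat_lit 1) (.e (nat_lit 445943) (nat_lit 0) .nil) .nil)))) 
(.lf (nat_lit 609603) (.g (nat_lit 2696) (.e (nat_lit 712754) (nat_lit 30) (.e (nat_lit 450588) (nat_lit 10) (.e (nat_lit 573475) (nat_lit 12) (.e (nat_lit 57507) (nat_lit 39) (.e (nat_lit 647195) (nat_lit 9) .nil))))) (.g (nat_lit 0) (.e (nat_lit 444780) (nat_lit 0) .nil) .nil)))) (.nd (nat_lit 8) (.nd (nat_lit 9) 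
(.lf (nat_lit 609475) (.g (nat_lit 1195) (.e (nat_lit 712751) (nat_lit 29) (.e (nat_lit 442421) (nat_lit 21) (.e (nat_lit 164347) (nat_lit 240) (.e (nat_lit 2650) (nat_lit 166) .nil)))) (.g (nat_lit 0) (.e (nat_lit 444614) (nat_lit 0) .nil) .nil))) 
(.lf (nat_lit 609987) (.g (nat_lit 1717) (.e (nat_lit 737318) (nat_lit 15) (.e (nat_lit 49189) (nat_lit 11) (.e (nat_lit 16425) (nat_lit 7) (.e (nat_lit 409646) (nat_lit 18) (.e (nat_lit 303133) (nat_lit 9) .nil))))) (.g (nat_lit 0) (.e (nat_lit 446926) (nat_lit 0) .nil) .nil)))) 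
(.lf (nat_lit 609731) (.g (nat_lit 966) (.e (nat_lit 720908) (nat_lit 11) (.e (nat_lit 426188) (nat_lit 9) (.e (nat_lit 426550) (nat_lit 31) (.e (nat_lit 376576) (nat_lit 5) .nil)))) (.g (nat_lit 0) (.e (nat_lit 445234) (nat_lit 0) .nil) .nil)))))) (.nd (nat_lit 6) (.nd (nat_lit 7) (.nd (nat_lit 8) (.nd (nat_lit 9) 
(.lf (nat_lit 609315) (.g (nat_lit 1321) (.e (nat_lit 712706) (nat_lit 0) (.e (nat_lit 1788) (nat_lit 119) (.e (nat_lit 516106) (nat_lit 0) (.e (nat_lit 7936) (nat_lit 407) .nil)))) (.g (nat_lit 0) (.e (nat_lit 444091) (nat_lit 0) .nil) .nil))) 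
(.lf (nat_lit 609827) (.g (nat_lit 2661) (.e (nat_lit 720909) (nat_lit 11) (.e (nat_lit 426200) (nat_lit 9) (.e (nat_lit 425986) (nat_lit 0) (.e (nat_lit 3471) (nat_lit 217) (.e (nat_lit 696343) (nat_lit 8) (.e (nat_lit 172094) (nat_lit 9) (.e (nat_lit 426007) (nat_lit 0) (.e (nat_lit 3550) (nat_lit 220) .nil)))))))) (.g (nat_lit 1) (.e (nat_lit 445467) (nat_lit 0) .nil) .nil)))) 
(.lf (nat_lit 609571) (.g (nat_lit 3459) (.e (nat_lit 712753) (nat_lit 30) (.e (nat_lit 450586) (nat_lit 10) (.e (nat_lit 573473) (nat_lit 12) (.e (nat_lit 57511) (nat_lit 39) (.e (nat_lit 647199) (nat_lit 11) (.e (nat_lit 16388) (nat_lit 0) (.e (nat_lit 3544) (nat_lit 219) .nil))))))) (.g (nat_lit 1) (.e (nat_lit 444736) (nat_lit 0) .nil) .nil)))) (.nd (nat_lit 8) (.nd (nat_lit 9) 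
(.lf (nat_lit 609443) (.g (nat_lit 2408) (.e (nat_lit 712750) (nat_lit 29) (.e (nat_lit 442421) (nat_lit 21) (.e (nat_lit 164347) (nat_lit 240) (.e (nat_lit 2650) (nat_lit 166) (.e (nat_lit 188418) (nat_lit 0) .nil))))) (.g (nat_lit 0) (.e (nat_lit 444571) (nat_lit 0) .nil) .nil))) 
(.lf (nat_lit 609955) (.g (nat_lit 1068) (.e (nat_lit 737300) (nat_lit 7) (.e (nat_lit 286753) (nat_lit 10) (.e (nat_lit 344138) (nat_lit 29) (.e (nat_lit 581653) (nat_lit 6) (.e (nat_lit 188430) (nat_lit 20) .nil))))) (.g (nat_lit 0) (.e (nat_lit 446867) (nat_lit 0) .nil) .nil)))) 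
(.lf (nat_lit 609699) (.g (nat_lit 3287) (.e (nat_lit 720908) (nat_lit 11) (.e (nat_lit 426122) (nat_lit 2) (.e (nat_lit 196666) (nat_lit 13) (.e (nat_lit 65617) (nat_lit 10) (.e (nat_lit 344133) (nat_lit 26) (.e (nat_lit 557091) (nat_lit 12) (.e (nat_lit 171776) (nat_lit 48) .nil))))))) (.g (nat_lit 1) (.e (nat_lit 445194) (nat_lit 0) .nil) .nil))))) 
(.nd (nat_lit 7) (.nd (nat_lit 8) (.nd (nat_lit 9) 
(.lf (nat_lit 609379) (.g (nat_lit 2183) (.e (nat_lit 712745) (nat_lit 27) (.e (nat_lit 426347) (nat_lit 14) (.e (nat_lit 491569) (nat_lit 13) (.e (nat_lit 393279) (nat_lit 23) (.e (nat_lit 426387) (nat_lit 15) .nil))))) (.g (nat_lit 0) (.e (nat_lit 444483) (nat_lit 0) .nil) .nil))) 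
(.lf (nat_lit 609891) (.g (nat_lit 1595) (.e (nat_lit 720951) (nat_lit 24) (.e (nat_lit 106536) (nat_lit 11) (.e (nat_lit 16425) (nat_lit 7) (.e (nat_lit 409644) (nat_lit 18) .nil)))) (.g (nat_lit 0) (.e (nat_lit 445994) (nat_lit 0) .nil) .nil)))) 
(.lf (nat_lit 609635) (.g (nat_lit 4856) (.e (nat_lit 712755) (nat_lit 30) (.e (nat_lit 450588) (nat_lit 10) (.e (nat_lit 573473) (nat_lit 12) (.e (nat_lit 57508) (nat_lit 39) (.e (nat_lit 647201) (nat_lit 12) (.e (nat_lit 57574) (nat_lit 55) (.e (nat_lit 778455) (nat_lit 10) (.e (nat_lit 8356) (nat_lit 88) .nil)))))))) (.g (nat_lit 1) (.e (nat_lit 444822) (nat_lit 0) .nil) .nil)))) 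
(.nd (nat_lit 8) (.nd (nat_lit 9) 
(.lf (nat_lit 609507) (.g (nat_lit 1542) (.e (nat_lit 712753) (nat_lit 30) (.e (nat_lit 450565) (nat_lit 0) (.e (nat_lit 5547) (nat_lit 306) (.e (nat_lit 2619) (nat_lit 164) (.e (nat_lit 172120) (nat_lit 12) .nil))))) (.g (nat_lit 0) (.e (nat_lit 444671) (nat_lit 0) .nil) .nil))) 
(.lf (nat_lit 610019) (.g (nat_lit 1281) (.e (nat_lit 745491) (nat_lit 4) (.e (nat_lit 65611) (nat_lit 10) (.e (nat_lit 344138) (nat_lit 29) (.e (nat_lit 581653) (nat_lit 6) (.e (nat_lit 188435) (nat_lit 20) (.e (nat_lit 3578) (nat_lit 223) .nil)))))) (.g (nat_lit 1) (.e (nat_lit 446966) (nat_lit 0) .nil) .nil)))) 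
(.lf (nat_lit 609763) (.g (nat_lit 3140) (.e (nat_lit 720909) (nat_lit 11) (.e (nat_lit 426124) (nat_lit 2) (.e (nat_lit 196666) (nat_lit 13) (.e (nat_lit 65617) (nat_lit 10) (.e (nat_lit 344132) (nat_lit 26) (.e (nat_lit 557094) (nat_lit 12) (.e (nat_lit 171776) (nat_lit 48) .nil))))))) (.g (nat_lit 1) (.e (nat_lit 445347) (nat_lit 0) .nil) .nil))))))) 
(.nd (nat_lit 5) (.nd (nat_lit 6) (.nd (nat_lit 7) (.nd (nat_lit 8) (.nd (nat_lit 9) 
(.lf (nat_lit 609299) (.g (nat_lit 2827) (.e (nat_lit 704741) (nat_lit 11) (.e (nat_lit 16473) (nat_lit 14) (.e (nat_lit 491526) (nat_lit 0) (.e (nat_lit 2270) (nat_lit 149) .nil)))) (.g (nat_lit 0) (.e (nat_lit 444022) (nat_lit 0) .nil) .nil))) 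
(.lf (nat_lit 609811) (.g (nat_lit 3569) (.e (nat_lit 720909) (nat_lit 11) (.e (nat_lit 426139) (nat_lit 3) (.e (nat_lit 204869) (nat_lit 29) (.e (nat_lit 360474) (nat_lit 8) (.e (nat_lit 557089) (nat_lit 12) (.e (nat_lit 171776) (nat_lit 48) .nil)))))) (.g (nat_lit 1) (.e (nat_lit 445430) (nat_lit 0) .nil) .nil)))) 
(.lf (nat_lit 609555) (.g (nat_lit 1995) (.e (nat_lit 712753) (nat_lit 30) (.e (nat_lit 450586) (nat_lit 10) (.e (nat_lit 573473) (nat_lit 12) (.e (nat_lit 57503) (nat_lit 38) (.e (nat_lit 638998) (nat_lit 8) (.e (nat_lit 172034) (nat_lit 0) (.e (nat_lit 3549) (nat_lit 219) .nil))))))) (.g (nat_lit 1) (.e (nat_lit 444720) (nat_lit 0) .nil) .nil)))) (.nd (nat_lit 8) (.nd (nat_lit 9) 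
(.lf (nat_lit 609427) (.g (nat_lit 2323) (.e (nat_lit 712745) (nat_lit 27) (.e (nat_lit 426347) (nat_lit 14) (.e (nat_lit 491571) (nat_lit 13) (.e (nat_lit 393275) (nat_lit 23) (.e (nat_lit 426396) (nat_lit 15) .nil))))) (.g (nat_lit 0) (.e (nat_lit 444534) (nat_lit 0) .nil) .nil))) 
(.lf (nat_lit 609939) (.g (nat_lit 926) (.e (nat_lit 737283) (nat_lit 0) (.e (nat_lit 5413) (nat_lit 303) (.e (nat_lit 73750) (nat_lit 6) (.e (nat_lit 540724) (nat_lit 28) (.e (nat_lit 442399) (nat_lit 20) (.e (nat_lit 3571) (nat_lit 222) .nil)))))) (.g (nat_lit 1) (.e (nat_lit 446751) (nat_lit 0) .nil) .nil)))) 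
(.lf (nat_lit 609683) (.g (nat_lit 3391) (.e (nat_lit 720907) (nat_lit 11) (.e (nat_lit 426072) (nat_lit 0) (.e (nat_lit 3249) (nat_lit 197) (.e (nat_lit 532550) (nat_lit 12) (.e (nat_lit 360475) (nat_lit 8) (.e (nat_lit 557091) (nat_lit 12) (.e (nat_lit 171776) (nat_lit 48) .nil))))))) (.g (nat_lit 1) (.e (nat_lit 445135) (nat_lit 0) .nil) .nil))))) 
(.nd (nat_lit 7) (.nd (nat_lit 8) (.nd (nat_lit 9) 
(.lf (nat_lit 609363) (.g (nat_lit 814) (.e (nat_lit 712745) (nat_lit 27) (.e (nat_lit 426347) (nat_lit 14) (.e (nat_lit 491548) (nat_lit 9) (.e (nat_lit 336430) (nat_lit 29) .nil)))) (.g (nat_lit 0) (.e (nat_lit 444464) (nat_lit 0) .nil) .nil))) 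
(.lf (nat_lit 609875) (.g (nat_lit 2364) (.e (nat_lit 720945) (nat_lit 23) (.e (nat_lit 98334) (nat_lit 18) (.e (nat_lit 164399) (nat_lit 256) (.e (nat_lit 57378) (nat_lit 3) (.e (nat_lit 98376) (nat_lit 30) .nil))))) (.g (nat_lit 0) (.e (nat_lit 445969) (nat_lit 0) .nil) .nil)))) 
(.lf (nat_lit 609619) (.g (nat_lit 1906) (.e (nat_lit 712755) (nat_lit 30) (.e (nat_lit 450564) (nat_lit 0) (.e (nat_lit 5548) (nat_lit 306) (.e (nat_lit 2629) (nat_lit 164) (.e (nat_lit 172119) (nat_lit 12) .nil))))) (.g (nat_lit 0) (.e (nat_lit 444803) (nat_lit 0) .nil) .nil)))) (.nd (nat_lit 8) (.nd (nat_lit 9) 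
(.lf (nat_lit 609491) (.g (nat_lit 1406) (.e (nat_lit 712752) (nat_lit 29) (.e (nat_lit 442430) (nat_lit 24) (.e (nat_lit 229666) (nat_lit 240) (.e (nat_lit 2725) (nat_lit 172) (.e (nat_lit 237615) (nat_lit 12) .nil))))) (.g (nat_lit 0) (.e (nat_lit 444649) (nat_lit 0) .nil) .nil))) 
(.lf (nat_lit 610003) (.g (nat_lit 908) (.e (nat_lit 745489) (nat_lit 4) (.e (nat_lit 65619) (nat_lit 10) (.e (nat_lit 344138) (nat_lit 29) (.e (nat_lit 581653) (nat_lit 6) .nil)))) (.g (nat_lit 0) (.e (nat_lit 446945) (nat_lit 0) .nil) .nil)))) 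
(.lf (nat_lit 609747) (.g (nat_lit 3079) (.e (nat_lit 720909) (nat_lit 11) (.e (nat_lit 426122) (nat_lit 2) (.e (nat_lit 196666) (nat_lit 13) (.e (nat_lit 65617) (nat_lit 10) (.e (nat_lit 344132) (nat_lit 26) (.e (nat_lit 557093) (nat_lit 12) (.e (nat_lit 171776) (nat_lit 48) .nil))))))) (.g (nat_lit 1) (.e (nat_lit 445326) (nat_lit 0) .nil) .nil)))))) 
(.nd (nat_lit 6) (.nd (nat_lit 7) (.nd (nat_lit 8) (.nd (nat_lit 9) 
(.lf (nat_lit 609331) (.g (nat_lit 1036) (.e (nat_lit 712728) (nat_lit 18) (.e (nat_lit 204863) (nat_lit 27) (.e (nat_lit 344131) (nat_lit 26) .nil))) (.g (nat_lit 0) (.e (nat_lit 444239) (nat_lit 0) .nil) .nil))) 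
(.lf (nat_lit 609843) (.g (nat_lit 1583) (.e (nat_lit 720931) (nat_lit 21) (.e (nat_lit 57926) (nat_lit 282) (.e (nat_lit 163933) (nat_lit 17) (.e (nat_lit 466976) (nat_lit 22) .nil)))) (.g (nat_lit 0) (.e (nat_lit 445917) (nat_lit 0) .nil) .nil)))) 
(.lf (nat_lit 609587) (.g (nat_lit 865) (.e (nat_lit 712753) (nat_lit 30) (.e (nat_lit 450588) (nat_lit 10) (.e (nat_lit 573473) (nat_lit 12) .nil))) (.g (nat_lit 0) (.e (nat_lit 444752) (nat_lit 0) .nil) .nil)))) (.nd (nat_lit 8) (.nd (nat_lit 9) 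
(.lf (nat_lit 609459) (.g (nat_lit 1849) (.e (nat_lit 712750) (nat_lit 29) (.e (nat_lit 442430) (nat_lit 24) (.e (nat_lit 229666) (nat_lit 240) (.e (nat_lit 2651) (nat_lit 166) (.e (nat_lit 188420) (nat_lit 0) (.e (nat_lit 2175) (nat_lit 143) .nil)))))) (.g (nat_lit 1) (.e (nat_lit 444593) (nat_lit 0) .nil) .nil))) 
(.lf (nat_lit 609971) (.g (nat_lit 2161) (.e (nat_lit 737303) (nat_lit 11) (.e (nat_lit 754) (nat_lit 66) (.e (nat_lit 704738) (nat_lit 11) (.e (nat_lit 16425) (nat_lit 7) (.e (nat_lit 409643) (nat_lit 18) .nil))))) (.g (nat_lit 0) (.e (nat_lit 446904) (nat_lit 0) .nil) .nil)))) 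
(.lf (nat_lit 609715) (.g (nat_lit 3313) (.e (nat_lit 720908) (nat_lit 11) (.e (nat_lit 426137) (nat_lit 3) (.e (nat_lit 204869) (nat_lit 29) (.e (nat_lit 360475) (nat_lit 8) (.e (nat_lit 557091) (nat_lit 12) (.e (nat_lit 171776) (nat_lit 48) .nil)))))) (.g (nat_lit 1) (.e (nat_lit 445215) (nat_lit 0) .nil) .nil))))) (.nd (nat_lit 7) (.nd (nat_lit 8) (.nd (nat_lit 9) 
(.lf (nat_lit 609395) (.g (nat_lit 2999) (.e (nat_lit 712745) (nat_lit 27) (.e (nat_lit 426347) (nat_lit 14) (.e (nat_lit 491570) (nat_lit 13) (.e (nat_lit 393271) (nat_lit 23) (.e (nat_lit 426405) (nat_lit 15) (.e (nat_lit 2175) (nat_lit 143) .nil)))))) (.g (nat_lit 1) (.e (nat_lit 444499) (nat_lit 0) .nil) .nil))) 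
(.lf (nat_lit 609907) (.g (nat_lit 2503) (.e (nat_lit 729095) (nat_lit 11) (.e (nat_lit 426125) (nat_lit 2) (.e (nat_lit 196666) (nat_lit 13) (.e (nat_lit 65617) (nat_lit 10) (.e (nat_lit 344133) (nat_lit 26) (.e (nat_lit 557089) (nat_lit 12) (.e (nat_lit 171776) (nat_lit 49) .nil))))))) (.g (nat_lit 1) (.e (nat_lit 446123) (nat_lit 0) .nil) .nil)))) 
(.lf (nat_lit 609651) (.g (nat_lit 4552) (.e (nat_lit 712755) (nat_lit 30) (.e (nat_lit 450588) (nat_lit 10) (.e (nat_lit 573475) (nat_lit 12) (.e (nat_lit 57508) (nat_lit 39) (.e (nat_lit 647201) (nat_lit 12) (.e (nat_lit 57574) (nat_lit 55) (.e (nat_lit 778455) (nat_lit 10) (.e (nat_lit 8356) (nat_lit 88) .nil)))))))) (.g (nat_lit 1) (.e (nat_lit 444838) (nat_lit 0) .nil) .nil)))) 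
(.nd (nat_lit 8) (.nd (nat_lit 9) 
(.lf (nat_lit 609523) (.g (nat_lit 1784) (.e (nat_lit 712753) (nat_lit 30) (.e (nat_lit 450579) (nat_lit 5) (.e (nat_lit 532501) (nat_lit 1) (.e (nat_lit 57651) (nat_lit 152) (.e (nat_lit 2639) (nat_lit 165) (.e (nat_lit 188160) (nat_lit 27) .nil)))))) (.g (nat_lit 1) (.e (nat_lit 444688) (nat_lit 0) .nil) .nil))) 
(.lf (nat_lit 610035) (.g (nat_lit 2519) (.e (nat_lit 745491) (nat_lit 4) (.e (nat_lit 65617) (nat_lit 10) (.e (nat_lit 344133) (nat_lit 26) (.e (nat_lit 557119) (nat_lit 18) (.e (nat_lit 2449) (nat_lit 157) .nil))))) (.g (nat_lit 0) (.e (nat_lit 446984) (nat_lit 0) .nil) .nil)))) 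
(.lf (nat_lit 609779) (.g (nat_lit 2379) (.e (nat_lit 720909) (nat_lit 11) (.e (nat_lit 426133) (nat_lit 3) (.e (nat_lit 204868) (nat_lit 29) (.e (nat_lit 360473) (nat_lit 8) (.e (nat_lit 557094) (nat_lit 12) (.e (nat_lit 171776) (nat_lit 48) .nil)))))) (.g (nat_lit 1) (.e (nat_lit 445385) (nat_lit 0) .nil) .nil)))))))) 
(.nd (nat_lit 4) (.nd (nat_lit 5) (.nd (nat_lit 6) (.nd (nat_lit 7) (.nd (nat_lit 8) 
(.nd (nat_lit 9) 
(.lf (nat_lit 609291) (.g (nat_lit 1529) (.e (nat_lit 704740) (nat_lit 11) (.e (nat_lit 16416) (nat_lit 3) (.e (nat_lit 204869) (nat_lit 29) .nil))) (.g (nat_lit 0) (.e (nat_lit 443995) (nat_lit 0) .nil) .nil))) 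
(.lf (nat_lit 609803) (.g (nat_lit 2828) (.e (nat_lit 720909) (nat_lit 11) (.e (nat_lit 426138) (nat_lit 3) (.e (nat_lit 204869) (nat_lit 29) (.e (nat_lit 360474) (nat_lit 8) (.e (nat_lit 557094) (nat_lit 12) (.e (nat_lit 171776) (nat_lit 48) .nil)))))) (.g (nat_lit 1) (.e (nat_lit 445415) (nat_lit 0) .nil) .nil)))) 
(.lf (nat_lit 609547) (.g (nat_lit 2733) (.e (nat_lit 712753) (nat_lit 30) (.e (nat_lit 450580) (nat_lit 5) (.e (nat_lit 532499) (nat_lit 1) (.e (nat_lit 57655) (nat_lit 152) (.e (nat_lit 2635) (nat_lit 165) (.e (nat_lit 188160) (nat_lit 27) .nil)))))) (.g (nat_lit 1) (.e (nat_lit 444712) (nat_lit 0) .nil) .nil)))) (.nd (nat_lit 8) (.nd (nat_lit 9) 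
(.lf (nat_lit 609419) (.g (nat_lit 1828) (.e (nat_lit 712745) (nat_lit 27) (.e (nat_lit 426347) (nat_lit 14) (.e (nat_lit 491571) (nat_lit 13) (.e (nat_lit 393269) (nat_lit 23) .nil)))) (.g (nat_lit 0) (.e (nat_lit 444526) (nat_lit 0) .nil) .nil))) 
(.lf (nat_lit 609931) (.g (nat_lit 2654) (.e (nat_lit 729099) (nat_lit 12) (.e (nat_lit 434233) (nat_lit 23) (.e (nat_lit 532550) (nat_lit 12) (.e (nat_lit 360474) (nat_lit 8) (.e (nat_lit 557094) (nat_lit 12) .nil))))) (.g (nat_lit 0) (.e (nat_lit 446227) (nat_lit 0) .nil) .nil)))) 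
(.lf (nat_lit 609675) (.g (nat_lit 1894) (.e (nat_lit 728832) (nat_lit 4) (.e (nat_lit 213030) (nat_lit 11) (.e (nat_lit 24655) (nat_lit 13) (.e (nat_lit 393296) (nat_lit 26) (.e (nat_lit 475214) (nat_lit 42) .nil))))) (.g (nat_lit 0) (.e (nat_lit 444994) (nat_lit 0) .nil) .nil))))) (.nd (nat_lit 7) (.nd (nat_lit 8) (.nd (nat_lit 9) 
(.lf (nat_lit 609355) (.g (nat_lit 3236) (.e (nat_lit 712742) (nat_lit 27) (.e (nat_lit 426338) (nat_lit 14) (.e (nat_lit 491571) (nat_lit 13) (.e (nat_lit 393291) (nat_lit 26) (.e (nat_lit 475208) (nat_lit 41) .nil))))) (.g (nat_lit 0) (.e (nat_lit 444433) (nat_lit 0) .nil) .nil))) 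
(.lf (nat_lit 609867) (.g (nat_lit 3189) (.e (nat_lit 720943) (nat_lit 23) (.e (nat_lit 98333) (nat_lit 18) (.e (nat_lit 164325) (nat_lit 230) (.e (nat_lit 163873) (nat_lit 3) .nil)))) (.g (nat_lit 0) (.e (nat_lit 445951) (nat_lit 0) .nil) .nil)))) 
(.lf (nat_lit 609611) (.g (nat_lit 409) (.e (nat_lit 712755) (nat_lit 30) (.e (nat_lit 450563) (nat_lit 0) (.e (nat_lit 5537) (nat_lit 306) .nil))) (.g (nat_lit 0) (.e (nat_lit 444793) (nat_lit 0) .nil) .nil)))) (.nd (nat_lit 8) (.nd (nat_lit 9) 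
(.lf (nat_lit 609483) (.g (nat_lit 2339) (.e (nat_lit 712752) (nat_lit 29) (.e (nat_lit 442419) (nat_lit 21) (.e (nat_lit 164348) (nat_lit 240) (.e (nat_lit 2619) (nat_lit 164) (.e (nat_lit 172120) (nat_lit 12) .nil))))) (.g (nat_lit 0) (.e (nat_lit 444636) (nat_lit 0) .nil) .nil))) 
(.lf (nat_lit 609995) (.g (nat_lit 942) (.e (nat_lit 745475) (nat_lit 0) (.e (nat_lit 1598) (nat_lit 111) (.e (nat_lit 360477) (nat_lit 11) (.e (nat_lit 581635) (nat_lit 0) .nil)))) (.g (nat_lit 0) (.e (nat_lit 446934) (nat_lit 0) .nil) .nil)))) 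
(.lf (nat_lit 609739) (.g (nat_lit 1747) (.e (nat_lit 720909) (nat_lit 11) (.e (nat_lit 426116) (nat_lit 2) (.e (nat_lit 196674) (nat_lit 15) (.e (nat_lit 81946) (nat_lit 20) .nil)))) (.g (nat_lit 0) (.e (nat_lit 445318) (nat_lit 0) .nil) .nil)))))) (.nd (nat_lit 6) (.nd (nat_lit 7) (.nd (nat_lit 8) (.nd (nat_lit 9) 
(.lf (nat_lit 609323) (.g (nat_lit 1617) (.e (nat_lit 712719) (nat_lit 15) (.e (nat_lit 3304) (nat_lit 202) (.e (nat_lit 573493) (nat_lit 15) (.e (nat_lit 81954) (nat_lit 23) .nil)))) (.g (nat_lit 0) (.e (nat_lit 444131) (nat_lit 0) .nil) .nil))) 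
(.lf (nat_lit 609835) (.g (nat_lit 2902) (.e (nat_lit 728832) (nat_lit 11) (.e (nat_lit 426123) (nat_lit 2) (.e (nat_lit 196666) (nat_lit 13) (.e (nat_lit 65617) (nat_lit 10) (.e (nat_lit 344130) (nat_lit 26) .nil))))) (.g (nat_lit 0) (.e (nat_lit 445653) (nat_lit 0) .nil) .nil)))) 
(.lf (nat_lit 609579) (.g (nat_lit 2919) (.e (nat_lit 712753) (nat_lit 30) (.e (nat_lit 450586) (nat_lit 10) (.e (nat_lit 573475) (nat_lit 12) (.e (nat_lit 57504) (nat_lit 38) (.e (nat_lit 638999) (nat_lit 8) (.e (nat_lit 172035) (nat_lit 0) (.e (nat_lit 3547) (nat_lit 219) .nil))))))) (.g (nat_lit 1) (.e (nat_lit 444744) (nat_lit 0) .nil) .nil)))) (.nd (nat_lit 8) (.nd (nat_lit 9) 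
(.lf (nat_lit 609451) (.g (nat_lit 617) (.e (nat_lit 712750) (nat_lit 29) (.e (nat_lit 442428) (nat_lit 24) (.e (nat_lit 229681) (nat_lit 244) .nil))) (.g (nat_lit 0) (.e (nat_lit 444581) (nat_lit 0) .nil) .nil))) 
(.lf (nat_lit 609963) (.g (nat_lit 1047) (.e (nat_lit 737300) (nat_lit 7) (.e (nat_lit 286755) (nat_lit 10) (.e (nat_lit 344138) (nat_lit 29) (.e (nat_lit 581653) (nat_lit 6) (.e (nat_lit 188430) (nat_lit 20) (.e (nat_lit 3571) (nat_lit 222) .nil)))))) (.g (nat_lit 1) (.e (nat_lit 446885) (nat_lit 0) .nil) .nil)))) 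
(.lf (nat_lit 609707) (.g (nat_lit 2281) (.e (nat_lit 720908) (nat_lit 11) (.e (nat_lit 426124) (nat_lit 2) (.e (nat_lit 196674) (nat_lit 15) (.e (nat_lit 81946) (nat_lit 20) (.e (nat_lit 1858) (nat_lit 124) .nil))))) (.g (nat_lit 0) (.e (nat_lit 445204) (nat_lit 0) .nil) .nil))))) (.nd (nat_lit 7) (.nd (nat_lit 8) (.nd (nat_lit 9) 
(.lf (nat_lit 609387) (.g (nat_lit 2262) (.e (nat_lit 712745) (nat_lit 27) (.e (nat_lit 426347) (nat_lit 14) (.e (nat_lit 491570) (nat_lit 13) (.e (nat_lit 393267) (nat_lit 23) (.e (nat_lit 426376) (nat_lit 15) .nil))))) (.g (nat_lit 0) (.e (nat_lit 444491) (nat_lit 0) .nil) .nil))) 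
(.lf (nat_lit 609899) (.g (nat_lit 2275) (.e (nat_lit 720956) (nat_lit 25) (.e (nat_lit 114698) (nat_lit 11) (.e (nat_lit 426172) (nat_lit 7) (.e (nat_lit 409646) (nat_lit 18) (.e (nat_lit 303143) (nat_lit 12) .nil))))) (.g (nat_lit 0) (.e (nat_lit 446015) (nat_lit 0) .nil) .nil)))) 
(.lf (nat_lit 609643) (.g (nat_lit 3112) (.e (nat_lit 712755) (nat_lit 30) (.e (nat_lit 450588) (nat_lit 10) (.e (nat_lit 573475) (nat_lit 12) (.e (nat_lit 57503) (nat_lit 38) (.e (nat_lit 638998) (nat_lit 8) (.e (nat_lit 172036) (nat_lit 0) (.e (nat_lit 3543) (nat_lit 219) .nil))))))) (.g (nat_lit 1) (.e (nat_lit 444830) (nat_lit 0) .nil) .nil)))) (.nd (nat_lit 8) (.nd (nat_lit 9) 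
(.lf (nat_lit 609515) (.g (nat_lit 1767) (.e (nat_lit 712753) (nat_lit 30) (.e (nat_lit 450568) (nat_lit 0) (.e (nat_lit 5448) (nat_lit 306) (.e (nat_lit 2653) (nat_lit 166) (.e (nat_lit 188418) (nat_lit 0) (.e (nat_lit 2175) (nat_lit 143) .nil)))))) (.g (nat_lit 1) (.e (nat_lit 444680) (nat_lit 0) .nil) .nil))) 
(.lf (nat_lit 610027) (.g (nat_lit 542) (.e (nat_lit 745491) (nat_lit 4) (.e (nat_lit 65617) (nat_lit 10) (.e (nat_lit 344136) (nat_lit 29) .nil))) (.g (nat_lit 0) (.e (nat_lit 446976) (nat_lit 0) .nil) .nil)))) 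
(.lf (nat_lit 609771) (.g (nat_lit 5053) (.e (nat_lit 720909) (nat_lit 11) (.e (nat_lit 426124) (nat_lit 2) (.e (nat_lit 196674) (nat_lit 15) (.e (nat_lit 81946) (nat_lit 20) (.e (nat_lit 1858) (nat_lit 124) (.e (nat_lit 557093) (nat_lit 12) (.e (nat_lit 171776) (nat_lit 48) .nil))))))) (.g (nat_lit 1) (.e (nat_lit 445364) (nat_lit 0) .nil) .nil))))))) 
(.nd (nat_lit 5) (.nd (nat_lit 6) (.nd (nat_lit 7) (.nd (nat_lit 8) (.nd (nat_lit 9) 
(.lf (nat_lit 609307) (.g (nat_lit 1681) (.e (nat_lit 712448) (nat_lit 11) (.e (nat_lit 16425) (nat_lit 7) (.e (nat_lit 409648) (nat_lit 18) (.e (nat_lit 303137) (nat_lit 10) .nil)))) (.g (nat_lit 0) (.e (nat_lit 444039) (nat_lit 0) .nil) .nil))) 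
(.lf (nat_lit 609819) (.g (nat_lit 1835) (.e (nat_lit 720909) (nat_lit 11) (.e (nat_lit 426188) (nat_lit 9) (.e (nat_lit 426550) (nat_lit 31) (.e (nat_lit 368656) (nat_lit 14) (.e (nat_lit 57814) (nat_lit 246) (.e (nat_lit 57610) (nat_lit 109) .nil)))))) (.g (nat_lit 1) (.e (nat_lit 445444) (nat_lit 0) .nil) .nil)))) 
(.lf (nat_lit 609563) (.g (nat_lit 2455) (.e (nat_lit 712753) (nat_lit 30) (.e (nat_lit 450586) (nat_lit 10) (.e (nat_lit 573473) (nat_lit 12) (.e (nat_lit 57508) (nat_lit 39) (.e (nat_lit 647195) (nat_lit 9) (.e (nat_lit 426) (nat_lit 32) (.e (nat_lit 426010) (nat_lit 0) (.e (nat_lit 3544) (nat_lit 219) .nil)))))))) (.g (nat_lit 1) (.e (nat_lit 444728) (nat_lit 0) .nil) .nil)))) 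
(.nd (nat_lit 8) (.nd (nat_lit 9) 
(.lf (nat_lit 609435) (.g (nat_lit 1144) (.e (nat_lit 712750) (nat_lit 29) (.e (nat_lit 442374) (nat_lit 0) (.e (nat_lit 2175) (nat_lit 143) (.e (nat_lit 712739) (nat_lit 27) .nil)))) (.g (nat_lit 0) (.e (nat_lit 444554) (nat_lit 0) .nil) .nil))) 
(.lf (nat_lit 609947) (.g (nat_lit 4305) (.e (nat_lit 737302) (nat_lit 10) (.e (nat_lit 311322) (nat_lit 9) (.e (nat_lit 426436) (nat_lit 18) (.e (nat_lit 98335) (nat_lit 18) (.e (nat_lit 164305) (nat_lit 226) (.e (nat_lit 2630) (nat_lit 164) (.e (nat_lit 172035) (nat_lit 0) (.e (nat_lit 3571) (nat_lit 222) .nil)))))))) (.g (nat_lit 1) (.e (nat_lit 446840) (nat_lit 0) .nil) .nil)))) 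
(.lf (nat_lit 609691) (.g (nat_lit 1022) (.e (nat_lit 720907) (nat_lit 11) (.e (nat_lit 426230) (nat_lit 9) (.e (nat_lit 426549) (nat_lit 31) (.e (nat_lit 368656) (nat_lit 14) (.e (nat_lit 57814) (nat_lit 246) (.e (nat_lit 57610) (nat_lit 109) .nil)))))) (.g (nat_lit 1) (.e (nat_lit 445145) (nat_lit 0) .nil) .nil))))) (.nd (nat_lit 7) (.nd (nat_lit 8) (.nd (nat_lit 9) 
(.lf (nat_lit 609371) (.g (nat_lit 334) (.e (nat_lit 712745) (nat_lit 27) (.e (nat_lit 426347) (nat_lit 14) (.e (nat_lit 491550) (nat_lit 9) .nil))) (.g (nat_lit 0) (.e (nat_lit 444472) (nat_lit 0) .nil) .nil))) 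
(.lf (nat_lit 609883) (.g (nat_lit 2871) (.e (nat_lit 720945) (nat_lit 23) (.e (nat_lit 98367) (nat_lit 27) (.e (nat_lit 434231) (nat_lit 23) (.e (nat_lit 532499) (nat_lit 1) (.e (nat_lit 57654) (nat_lit 152) .nil))))) (.g (nat_lit 0) (.e (nat_lit 445980) (nat_lit 0) .nil) .nil)))) 
(.lf (nat_lit 609627) (.g (nat_lit 4127) (.e (nat_lit 712755) (nat_lit 30) (.e (nat_lit 450587) (nat_lit 10) (.e (nat_lit 573475) (nat_lit 12) (.e (nat_lit 57503) (nat_lit 38) (.e (nat_lit 638998) (nat_lit 8) (.e (nat_lit 172039) (nat_lit 0) (.e (nat_lit 3543) (nat_lit 219) .nil))))))) (.g (nat_lit 1) (.e (nat_lit 444814) (nat_lit 0) .nil) .nil)))) (.nd (nat_lit 8) (.nd (nat_lit 9) 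
(.lf (nat_lit 609499) (.g (nat_lit 402) (.e (nat_lit 712753) (nat_lit 30) (.e (nat_lit 450564) (nat_lit 0) (.e (nat_lit 5546) (nat_lit 306) .nil))) (.g (nat_lit 0) (.e (nat_lit 444660) (nat_lit 0) .nil) .nil))) 
(.lf (nat_lit 610011) (.g (nat_lit 2228) (.e (nat_lit 745491) (nat_lit 4) (.e (nat_lit 65610) (nat_lit 10) (.e (nat_lit 344138) (nat_lit 29) (.e (nat_lit 581653) (nat_lit 6) (.e (nat_lit 188434) (nat_lit 20) (.e (nat_lit 3578) (nat_lit 223) .nil)))))) (.g (nat_lit 1) (.e (nat_lit 446956) (nat_lit 0) .nil) .nil)))) 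
(.lf (nat_lit 609755) (.g (nat_lit 2586) (.e (nat_lit 720909) (nat_lit 11) (.e (nat_lit 426123) (nat_lit 2) (.e (nat_lit 196666) (nat_lit 13) (.e (nat_lit 65617) (nat_lit 10) (.e (nat_lit 344133) (nat_lit 26) (.e (nat_lit 557089) (nat_lit 12) (.e (nat_lit 171776) (nat_lit 48) .nil))))))) (.g (nat_lit 1) (.e (nat_lit 445336) (nat_lit 0) .nil) .nil)))))) 
(.nd (nat_lit 6) (.nd (nat_lit 7) (.nd (nat_lit 8) (.nd (nat_lit 9) 
(.lf (nat_lit 609339) (.g (nat_lit 1581) (.e (nat_lit 712739) (nat_lit 27) (.e (nat_lit 426340) (nat_lit 14) (.e (nat_lit 491571) (nat_lit 13) (.e (nat_lit 393292) (nat_lit 26) .nil)))) (.g (nat_lit 0) (.e (nat_lit 444354) (nat_lit 0) .nil) .nil))) 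
(.lf (nat_lit 609851) (.g (nat_lit 3154) (.e (nat_lit 720934) (nat_lit 21) (.e (nat_lit 57692) (nat_lit 156) (.e (nat_lit 163869) (nat_lit 2) (.e (nat_lit 196654) (nat_lit 11) (.e (nat_lit 16473) (nat_lit 14) .nil))))) (.g (nat_lit 0) (.e (nat_lit 445932) (nat_lit 0) .nil) .nil)))) 
(.lf (nat_lit 609595) (.g (nat_lit 2446) (.e (nat_lit 712754) (nat_lit 30) (.e (nat_lit 450588) (nat_lit 10) (.e (nat_lit 573473) (nat_lit 12) (.e (nat_lit 57508) (nat_lit 39) (.e (nat_lit 647199) (nat_lit 11) (.e (nat_lit 16388) (nat_lit 0) (.e (nat_lit 3546) (nat_lit 219) .nil))))))) (.g (nat_lit 1) (.e (nat_lit 444767) (nat_lit 0) .nil) .nil)))) (.nd (nat_lit 8) (.nd (nat_lit 9) 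
(.lf (nat_lit 609467) (.g (nat_lit 426) (.e (nat_lit 712750) (nat_lit 29) (.e (nat_lit 442430) (nat_lit 24) (.e (nat_lit 229681) (nat_lit 244) .nil))) (.g (nat_lit 0) (.e (nat_lit 444601) (nat_lit 0) .nil) .nil))) 
(.lf (nat_lit 609979) (.g (nat_lit 2939) (.e (nat_lit 737318) (nat_lit 15) (.e (nat_lit 49188) (nat_lit 11) (.e (nat_lit 16425) (nat_lit 7) (.e (nat_lit 409644) (nat_lit 18) (.e (nat_lit 303143) (nat_lit 12) (.e (nat_lit 475220) (nat_lit 44) .nil)))))) (.g (nat_lit 1) (.e (nat_lit 446918) (nat_lit 0) .nil) .nil)))) 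
(.lf (nat_lit 609723) (.g (nat_lit 3457) (.e (nat_lit 720908) (nat_lit 11) (.e (nat_lit 426138) (nat_lit 3) (.e (nat_lit 204869) (nat_lit 29) (.e (nat_lit 360475) (nat_lit 8) (.e (nat_lit 557091) (nat_lit 12) (.e (nat_lit 171776) (nat_lit 48) .nil)))))) (.g (nat_lit 1) (.e (nat_lit 445223) (nat_lit 0) .nil) .nil))))) (.nd (nat_lit 7) (.nd (nat_lit 8) (.nd (nat_lit 9) 
(.lf (nat_lit 609403) (.g (nat_lit 2380) (.e (nat_lit 712745) (nat_lit 27) (.e (nat_lit 426347) (nat_lit 14) (.e (nat_lit 491570) (nat_lit 13) (.e (nat_lit 393292) (nat_lit 26) (.e (nat_lit 475210) (nat_lit 41) .nil))))) (.g (nat_lit 0) (.e (nat_lit 444508) (nat_lit 0) .nil) .nil))) 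
(.lf (nat_lit 609915) (.g (nat_lit 3733) (.e (nat_lit 729097) (nat_lit 11) (.e (nat_lit 426129) (nat_lit 3) (.e (nat_lit 204869) (nat_lit 29) (.e (nat_lit 360475) (nat_lit 8) (.e (nat_lit 557089) (nat_lit 12) (.e (nat_lit 171776) (nat_lit 49) .nil)))))) (.g (nat_lit 1) (.e (nat_lit 446151) (nat_lit 0) .nil) .nil)))) 
(.lf (nat_lit 609659) (.g (nat_lit 3327) (.e (nat_lit 712755) (nat_lit 30) (.e (nat_lit 450593) (nat_lit 16) (.e (nat_lit 655364) (nat_lit 0) (.e (nat_lit 2988) (nat_lit 186) (.e (nat_lit 442374) (nat_lit 0) (.e (nat_lit 2175) (nat_lit 143) .nil)))))) (.g (nat_lit 1) (.e (nat_lit 444847) (nat_lit 0) .nil) .nil)))) (.nd (nat_lit 8) (.nd (nat_lit 9) 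
(.lf (nat_lit 609531) (.g (nat_lit 2047) (.e (nat_lit 712753) (nat_lit 30) (.e (nat_lit 450579) (nat_lit 5) (.e (nat_lit 532501) (nat_lit 1) (.e (nat_lit 57665) (nat_lit 152) (.e (nat_lit 7936) (nat_lit 165) (.e (nat_lit 188160) (nat_lit 27) .nil)))))) (.g (nat_lit 1) (.e (nat_lit 444696) (nat_lit 0) .nil) .nil))) 
(.lf (nat_lit 610043) (.g (nat_lit 3165) (.e (nat_lit 745491) (nat_lit 4) (.e (nat_lit 65619) (nat_lit 10) (.e (nat_lit 344129) (nat_lit 26) (.e (nat_lit 557119) (nat_lit 18) (.e (nat_lit 2449) (nat_lit 157) .nil))))) (.g (nat_lit 0) (.e (nat_lit 446996) (nat_lit 0) .nil) .nil)))) 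
(.lf (nat_lit 609787) (.g (nat_lit 4604) (.e (nat_lit 720909) (nat_lit 11) (.e (nat_lit 426133) (nat_lit 3) (.e (nat_lit 204869) (nat_lit 29) (.e (nat_lit 360475) (nat_lit 8) (.e (nat_lit 557091) (nat_lit 12) (.e (nat_lit 171776) (nat_lit 48) .nil)))))) (.g (nat_lit 1) (.e (nat_lit 445393) (nat_lit 0) .nil) .nil))))))))) 
(.nd (nat_lit 3) (.nd (nat_lit 4) (.nd (nat_lit 5) (.nd (nat_lit 6) (.nd (nat_lit 7) 
(.nd (nat_lit 8) (.nd (nat_lit 9) 
(.lf (nat_lit 609287) (.g (nat_lit 2090) (.e (nat_lit 704738) (nat_lit 11) (.e (nat_lit 16466) (nat_lit 13) (.e (nat_lit 483410) (nat_lit 27) (.e (nat_lit 401448) (nat_lit 10) (.e (nat_lit 434291) (nat_lit 44) .nil))))) (.g (nat_lit 0) (.e (nat_lit 443977) (nat_lit 0) .nil) .nil))) 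
(.lf (nat_lit 609799) (.g (nat_lit 1779) (.e (nat_lit 720909) (nat_lit 11) (.e (nat_lit 426138) (nat_lit 3) (.e (nat_lit 204868) (nat_lit 29) (.e (nat_lit 360473) (nat_lit 8) (.e (nat_lit 557094) (nat_lit 12) (.e (nat_lit 171776) (nat_lit 48) .nil)))))) (.g (nat_lit 1) (.e (nat_lit 445411) (nat_lit 0) .nil) .nil)))) (.nd (nat_lit 9) 
(.lf (nat_lit 609543) (.g (nat_lit 2472) (.e (nat_lit 712753) (nat_lit 30) (.e (nat_lit 450579) (nat_lit 5) (.e (nat_lit 532504) (nat_lit 1) (.e (nat_lit 57665) (nat_lit 152) (.e (nat_lit 7936) (nat_lit 165) (.e (nat_lit 188160) (nat_lit 27) .nil)))))) (.g (nat_lit 1) (.e (nat_lit 444708) (nat_lit 0) .nil) .nil))) 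
(.lf (nat_lit 610055) (.g (nat_lit 3495) (.e (nat_lit 745509) (nat_lit 11) (.e (nat_lit 24660) (nat_lit 13) (.e (nat_lit 393260) (nat_lit 21) (.e (nat_lit 409648) (nat_lit 18) (.e (nat_lit 303108) (nat_lit 0) (.e (nat_lit 3579) (nat_lit 223) .nil)))))) (.g (nat_lit 1) (.e (nat_lit 447045) (nat_lit 0) .nil) .nil))))) (.nd (nat_lit 8) (.nd (nat_lit 9) 
(.lf (nat_lit 609415) (.g (nat_lit 2913) (.e (nat_lit 712745) (nat_lit 27) (.e (nat_lit 426347) (nat_lit 14) (.e (nat_lit 491571) (nat_lit 13) (.e (nat_lit 393268) (nat_lit 23) (.e (nat_lit 426375) (nat_lit 15) .nil))))) (.g (nat_lit 0) (.e (nat_lit 444522) (nat_lit 0) .nil) .nil))) 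
(.lf (nat_lit 609927) (.g (nat_lit 847) (.e (nat_lit 729098) (nat_lit 11) (.e (nat_lit 426188) (nat_lit 9) (.e (nat_lit 426550) (nat_lit 31) (.e (nat_lit 376576) (nat_lit 5) .nil)))) (.g (nat_lit 0) (.e (nat_lit 446174) (nat_lit 0) .nil) .nil)))) 
(.lf (nat_lit 609671) (.g (nat_lit 1409) (.e (nat_lit 712761) (nat_lit 34) (.e (nat_lit 483413) (nat_lit 27) (.e (nat_lit 401426) (nat_lit 3) (.e (nat_lit 204838) (nat_lit 20) .nil)))) (.g (nat_lit 0) (.e (nat_lit 444959) (nat_lit 0) .nil) .nil))))) (.nd (nat_lit 7) (.nd (nat_lit 8) (.nd (nat_lit 9) 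
(.lf (nat_lit 609351) (.g (nat_lit 2204) (.e (nat_lit 712742) (nat_lit 27) (.e (nat_lit 426338) (nat_lit 14) (.e (nat_lit 491570) (nat_lit 13) (.e (nat_lit 393291) (nat_lit 26) (.e (nat_lit 475209) (nat_lit 41) .nil))))) (.g (nat_lit 0) (.e (nat_lit 444419) (nat_lit 0) .nil) .nil))) 
(.lf (nat_lit 609863) (.g (nat_lit 3824) (.e (nat_lit 720941) (nat_lit 22) (.e (nat_lit 90160) (nat_lit 11) (.e (nat_lit 24665) (nat_lit 14) (.e (nat_lit 401427) (nat_lit 3) (.e (nat_lit 204882) (nat_lit 32) (.e (nat_lit 392960) (nat_lit 42) .nil)))))) (.g (nat_lit 1) (.e (nat_lit 445947) (nat_lit 0) .nil) .nil)))) 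
(.lf (nat_lit 609607) (.g (nat_lit 2699) (.e (nat_lit 712754) (nat_lit 30) (.e (nat_lit 450588) (nat_lit 10) (.e (nat_lit 573475) (nat_lit 12) (.e (nat_lit 57511) (nat_lit 39) .nil)))) (.g (nat_lit 0) (.e (nat_lit 444784) (nat_lit 0) .nil) .nil)))) (.nd (nat_lit 8) (.nd (nat_lit 9) 
(.lf (nat_lit 609479) (.g (nat_lit 1789) (.e (nat_lit 712751) (nat_lit 29) (.e (nat_lit 442430) (nat_lit 24) (.e (nat_lit 229680) (nat_lit 244) (.e (nat_lit 163919) (nat_lit 14) (.e (nat_lit 442374) (nat_lit 0) .nil))))) (.g (nat_lit 0) (.e (nat_lit 444626) (nat_lit 0) .nil) .nil))) 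
(.lf (nat_lit 609991) (.g (nat_lit 1090) (.e (nat_lit 745216) (nat_lit 15) (.e (nat_lit 49189) (nat_lit 11) (.e (nat_lit 16425) (nat_lit 7) (.e (nat_lit 409647) (nat_lit 18) .nil)))) (.g (nat_lit 0) (.e (nat_lit 446930) (nat_lit 0) .nil) .nil)))) 
(.lf (nat_lit 609735) (.g (nat_lit 3442) (.e (nat_lit 720909) (nat_lit 11) (.e (nat_lit 426114) (nat_lit 2) (.e (nat_lit 196666) (nat_lit 13) (.e (nat_lit 65617) (nat_lit 10) (.e (nat_lit 344133) (nat_lit 26) (.e (nat_lit 557091) (nat_lit 12) (.e (nat_lit 171776) (nat_lit 48) .nil))))))) (.g (nat_lit 1) (.e (nat_lit 445310) (nat_lit 0) .nil) .nil)))))) 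
(.nd (nat_lit 6) (.nd (nat_lit 7) (.nd (nat_lit 8) (.nd (nat_lit 9) 
(.lf (nat_lit 609319) (.g (nat_lit 3109) (.e (nat_lit 712719) (nat_lit 15) (.e (nat_lit 3238) (nat_lit 197) (.e (nat_lit 532543) (nat_lit 10) (.e (nat_lit 344129) (nat_lit 26) (.e (nat_lit 557104) (nat_lit 14) (.e (nat_lit 188160) (nat_lit 3) (.e (nat_lit 516106) (nat_lit 0) (.e (nat_lit 7936) (nat_lit 219) .nil)))))))) (.g (nat_lit 1) (.e (nat_lit 444114) (nat_lit 0) .nil) .nil))) 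
(.lf (nat_lit 609831) (.g (nat_lit 1968) (.e (nat_lit 720909) (nat_lit 11) (.e (nat_lit 426200) (nat_lit 9) (.e (nat_lit 426550) (nat_lit 31) (.e (nat_lit 368656) (nat_lit 14) (.e (nat_lit 57811) (nat_lit 246) (.e (nat_lit 57610) (nat_lit 109) .nil)))))) (.g (nat_lit 1) (.e (nat_lit 445483) (nat_lit 0) .nil) .nil)))) 
(.lf (nat_lit 609575) (.g (nat_lit 2548) (.e (nat_lit 712753) (nat_lit 30) (.e (nat_lit 450586) (nat_lit 10) (.e (nat_lit 573475) (nat_lit 12) (.e (nat_lit 57503) (nat_lit 38) (.e (nat_lit 638998) (nat_lit 8) (.e (nat_lit 172035) (nat_lit 0) (.e (nat_lit 3545) (nat_lit 219) .nil))))))) (.g (nat_lit 1) (.e (nat_lit 444740) (nat_lit 0) .nil) .nil)))) (.nd (nat_lit 8) (.nd (nat_lit 9) 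
(.lf (nat_lit 609447) (.g (nat_lit 2063) (.e (nat_lit 712750) (nat_lit 29) (.e (nat_lit 442421) (nat_lit 21) (.e (nat_lit 164348) (nat_lit 240) (.e (nat_lit 2618) (nat_lit 164) .nil)))) (.g (nat_lit 0) (.e (nat_lit 444575) (nat_lit 0) .nil) .nil))) 
(.lf (nat_lit 609959) (.g (nat_lit 1150) (.e (nat_lit 737300) (nat_lit 7) (.e (nat_lit 286754) (nat_lit 10) (.e (nat_lit 344138) (nat_lit 29) (.e (nat_lit 581653) (nat_lit 6) (.e (nat_lit 188430) (nat_lit 20) (.e (nat_lit 3571) (nat_lit 222) .nil)))))) (.g (nat_lit 1) (.e (nat_lit 446876) (nat_lit 0) .nil) .nil)))) 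
(.lf (nat_lit 609703) (.g (nat_lit 1952) (.e (nat_lit 720908) (nat_lit 11) (.e (nat_lit 426124) (nat_lit 2) (.e (nat_lit 196666) (nat_lit 13) (.e (nat_lit 65610) (nat_lit 10) .nil)))) (.g (nat_lit 0) (.e (nat_lit 445198) (nat_lit 0) .nil) .nil))))) (.nd (nat_lit 7) (.nd (nat_lit 8) (.nd (nat_lit 9) 
(.lf (nat_lit 609383) (.g (nat_lit 2188) (.e (nat_lit 712745) (nat_lit 27) (.e (nat_lit 426347) (nat_lit 14) (.e (nat_lit 491569) (nat_lit 13) (.e (nat_lit 393296) (nat_lit 26) (.e (nat_lit 475208) (nat_lit 41) .nil))))) (.g (nat_lit 0) (.e (nat_lit 444487) (nat_lit 0) .nil) .nil))) 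
(.lf (nat_lit 609895) (.g (nat_lit 1055) (.e (nat_lit 720954) (nat_lit 25) (.e (nat_lit 114698) (nat_lit 11) (.e (nat_lit 426172) (nat_lit 7) .nil))) (.g (nat_lit 0) (.e (nat_lit 446003) (nat_lit 0) .nil) .nil)))) 
(.lf (nat_lit 609639) (.g (nat_lit 3269) (.e (nat_lit 712755) (nat_lit 30) (.e (nat_lit 450588) (nat_lit 10) (.e (nat_lit 573474) (nat_lit 12) (.e (nat_lit 57503) (nat_lit 38) (.e (nat_lit 638998) (nat_lit 8) (.e (nat_lit 172035) (nat_lit 0) (.e (nat_lit 3543) (nat_lit 219) .nil))))))) (.g (nat_lit 1) (.e (nat_lit 444826) (nat_lit 0) .nil) .nil)))) (.nd (nat_lit 8) (.nd (nat_lit 9) 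
(.lf (nat_lit 609511) (.g (nat_lit 2821) (.e (nat_lit 712753) (nat_lit 30) (.e (nat_lit 450565) (nat_lit 0) (.e (nat_lit 5548) (nat_lit 306) (.e (nat_lit 2648) (nat_lit 166) (.e (nat_lit 188420) (nat_lit 0) (.e (nat_lit 2174) (nat_lit 143) .nil)))))) (.g (nat_lit 1) (.e (nat_lit 444676) (nat_lit 0) .nil) .nil))) 
(.lf (nat_lit 610023) (.g (nat_lit 1214) (.e (nat_lit 745491) (nat_lit 4) (.e (nat_lit 65616) (nat_lit 10) (.e (nat_lit 344138) (nat_lit 29) (.e (nat_lit 581653) (nat_lit 6) (.e (nat_lit 188435) (nat_lit 20) (.e (nat_lit 3578) (nat_lit 223) .nil)))))) (.g (nat_lit 1) (.e (nat_lit 446971) (nat_lit 0) .nil) .nil)))) 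
(.lf (nat_lit 609767) (.g (nat_lit 3334) (.e (nat_lit 720909) (nat_lit 11) (.e (nat_lit 426124) (nat_lit 2) (.e (nat_lit 196674) (nat_lit 15) (.e (nat_lit 81946) (nat_lit 20) (.e (nat_lit 1858) (nat_lit 124) (.e (nat_lit 557088) (nat_lit 12) (.e (nat_lit 171776) (nat_lit 48) .nil))))))) (.g (nat_lit 1) (.e (nat_lit 445360) (nat_lit 0) .nil) .nil))))))) 
(.nd (nat_lit 5) (.nd (nat_lit 6) (.nd (nat_lit 7) (.nd (nat_lit 8) (.nd (nat_lit 9) 
(.lf (nat_lit 609303) (.g (nat_lit 1926) (.e (nat_lit 704742) (nat_lit 11) (.e (nat_lit 16466) (nat_lit 13) (.e (nat_lit 483393) (nat_lit 23) (.e (nat_lit 335988) (nat_lit 1) (.e (nat_lit 57854) (nat_lit 252) .nil))))) (.g (nat_lit 0) (.e (nat_lit 444029) (nat_lit 0) .nil) .nil))) 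
(.lf (nat_lit 609815) (.g (nat_lit 2106) (.e (nat_lit 720909) (nat_lit 11) (.e (nat_lit 426187) (nat_lit 9) (.e (nat_lit 426550) (nat_lit 31) (.e (nat_lit 368656) (nat_lit 14) (.e (nat_lit 57809) (nat_lit 246) (.e (nat_lit 57610) (nat_lit 109) .nil)))))) (.g (nat_lit 1) (.e (nat_lit 445438) (nat_lit 0) .nil) .nil)))) 
(.lf (nat_lit 609559) (.g (nat_lit 2041) (.e (nat_lit 712753) (nat_lit 30) (.e (nat_lit 450586) (nat_lit 10) (.e (nat_lit 573473) (nat_lit 12) (.e (nat_lit 57507) (nat_lit 39) (.e (nat_lit 647199) (nat_lit 11) (.e (nat_lit 16388) (nat_lit 0) (.e (nat_lit 3548) (nat_lit 219) .nil))))))) (.g (nat_lit 1) (.e (nat_lit 444724) (nat_lit 0) .nil) .nil)))) (.nd (nat_lit 8) (.nd (nat_lit 9) 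
(.lf (nat_lit 609431) (.g (nat_lit 524) (.e (nat_lit 712747) (nat_lit 28) (.e (nat_lit 434289) (nat_lit 43) (.e (nat_lit 696344) (nat_lit 8) .nil))) (.g (nat_lit 0) (.e (nat_lit 444542) (nat_lit 0) .nil) .nil))) 
(.lf (nat_lit 609943) (.g (nat_lit 494) (.e (nat_lit 737284) (nat_lit 0) (.e (nat_lit 5412) (nat_lit 303) (.e (nat_lit 73750) (nat_lit 6) (.e (nat_lit 540724) (nat_lit 28) (.e (nat_lit 442398) (nat_lit 20) (.e (nat_lit 3571) (nat_lit 222) .nil)))))) (.g (nat_lit 1) (.e (nat_lit 446789) (nat_lit 0) .nil) .nil)))) 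
(.lf (nat_lit 609687) (.g (nat_lit 3400) (.e (nat_lit 720907) (nat_lit 11) (.e (nat_lit 426129) (nat_lit 3) (.e (nat_lit 204869) (nat_lit 29) (.e (nat_lit 360474) (nat_lit 8) (.e (nat_lit 557093) (nat_lit 12) (.e (nat_lit 171776) (nat_lit 48) .nil)))))) (.g (nat_lit 1) (.e (nat_lit 445140) (nat_lit 0) .nil) .nil))))) (.nd (nat_lit 7) (.nd (nat_lit 8) (.nd (nat_lit 9) 
(.lf (nat_lit 609367) (.g (nat_lit 2524) (.e (nat_lit 712745) (nat_lit 27) (.e (nat_lit 426347) (nat_lit 14) (.e (nat_lit 491549) (nat_lit 9) (.e (nat_lit 336430) (nat_lit 29) (.e (nat_lit 442378) (nat_lit 0) .nil))))) (.g (nat_lit 0) (.e (nat_lit 444468) (nat_lit 0) .nil) .nil))) 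
(.lf (nat_lit 609879) (.g (nat_lit 2066) (.e (nat_lit 720945) (nat_lit 23) (.e (nat_lit 98356) (nat_lit 26) (.e (nat_lit 426438) (nat_lit 18) (.e (nat_lit 98335) (nat_lit 18) (.e (nat_lit 164305) (nat_lit 226) .nil))))) (.g (nat_lit 0) (.e (nat_lit 445973) (nat_lit 0) .nil) .nil)))) 
(.lf (nat_lit 609623) (.g (nat_lit 201) (.e (nat_lit 712755) (nat_lit 30) (.e (nat_lit 450566) (nat_lit 0) (.e (nat_lit 5548) (nat_lit 306) .nil))) (.g (nat_lit 0) (.e (nat_lit 444809) (nat_lit 0) .nil) .nil)))) (.nd (nat_lit 8) (.nd (nat_lit 9) 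
(.lf (nat_lit 609495) (.g (nat_lit 386) (.e (nat_lit 712752) (nat_lit 29) (.e (nat_lit 442430) (nat_lit 24) (.e (nat_lit 229680) (nat_lit 244) .nil))) (.g (nat_lit 0) (.e (nat_lit 444655) (nat_lit 0) .nil) .nil))) 
(.lf (nat_lit 610007) (.g (nat_lit 1099) (.e (nat_lit 745490) (nat_lit 4) (.e (nat_lit 65619) (nat_lit 10) (.e (nat_lit 344138) (nat_lit 29) (.e (nat_lit 581653) (nat_lit 6) .nil)))) (.g (nat_lit 0) (.e (nat_lit 446949) (nat_lit 0) .nil) .nil)))) 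
(.lf (nat_lit 609751) (.g (nat_lit 4840) (.e (nat_lit 720909) (nat_lit 11) (.e (nat_lit 426123) (nat_lit 2) (.e (nat_lit 196666) (nat_lit 13) (.e (nat_lit 65610) (nat_lit 10) (.e (nat_lit 344129) (nat_lit 26) (.e (nat_lit 557090) (nat_lit 12) (.e (nat_lit 171776) (nat_lit 48) .nil))))))) (.g (nat_lit 1) (.e (nat_lit 445332) (nat_lit 0) .nil) .nil)))))) 
(.nd (nat_lit 6) (.nd (nat_lit 7) (.nd (nat_lit 8) (.nd (nat_lit 9) 
(.lf (nat_lit 609335) (.g (nat_lit 2815) (.e (nat_lit 712728) (nat_lit 18) (.e (nat_lit 204863) (nat_lit 27) (.e (nat_lit 344133) (nat_lit 26) (.e (nat_lit 557105) (nat_lit 14) (.e (nat_lit 188160) (nat_lit 3) .nil))))) (.g (nat_lit 0) (.e (nat_lit 444243) (nat_lit 0) .nil) .nil))) 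
(.lf (nat_lit 609847) (.g (nat_lit 1345) (.e (nat_lit 720931) (nat_lit 21) (.e (nat_lit 57927) (nat_lit 282) (.e (nat_lit 163933) (nat_lit 17) (.e (nat_lit 466981) (nat_lit 23) .nil)))) (.g (nat_lit 0) (.e (nat_lit 445921) (nat_lit 0) .nil) .nil)))) 
(.lf (nat_lit 609591) (.g (nat_lit 337) (.e (nat_lit 712754) (nat_lit 30) (.e (nat_lit 450569) (nat_lit 0) (.e (nat_lit 5448) (nat_lit 306) .nil))) (.g (nat_lit 0) (.e (nat_lit 444758) (nat_lit 0) .nil) .nil)))) (.nd (nat_lit 8) (.nd (nat_lit 9) 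
(.lf (nat_lit 609463) (.g (nat_lit 900) (.e (nat_lit 712750) (nat_lit 29) (.e (nat_lit 442430) (nat_lit 24) (.e (nat_lit 229679) (nat_lit 244) (.e (nat_lit 163913) (nat_lit 12) .nil)))) (.g (nat_lit 0) (.e (nat_lit 444597) (nat_lit 0) .nil) .nil))) 
(.lf (nat_lit 609975) (.g (nat_lit 2638) (.e (nat_lit 737318) (nat_lit 15) (.e (nat_lit 49187) (nat_lit 11) (.e (nat_lit 16425) (nat_lit 7) (.e (nat_lit 409643) (nat_lit 18) (.e (nat_lit 303143) (nat_lit 12) (.e (nat_lit 475220) (nat_lit 44) .nil)))))) (.g (nat_lit 1) (.e (nat_lit 446913) (nat_lit 0) .nil) .nil)))) 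
(.lf (nat_lit 609719) (.g (nat_lit 3101) (.e (nat_lit 720908) (nat_lit 11) (.e (nat_lit 426138) (nat_lit 3) (.e (nat_lit 204869) (nat_lit 29) (.e (nat_lit 360474) (nat_lit 8) (.e (nat_lit 557089) (nat_lit 12) (.e (nat_lit 171776) (nat_lit 48) .nil)))))) (.g (nat_lit 1) (.e (nat_lit 445219) (nat_lit 0) .nil) .nil))))) (.nd (nat_lit 7) (.nd (nat_lit 8) (.nd (nat_lit 9) 
(.lf (nat_lit 609399) (.g (nat_lit 1921) (.e (nat_lit 712745) (nat_lit 27) (.e (nat_lit 426347) (nat_lit 14) (.e (nat_lit 491570) (nat_lit 13) (.e (nat_lit 393275) (nat_lit 23) .nil)))) (.g (nat_lit 0) (.e (nat_lit 444504) (nat_lit 0) .nil) .nil))) 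
(.lf (nat_lit 609911) (.g (nat_lit 3273) (.e (nat_lit 729095) (nat_lit 11) (.e (nat_lit 426140) (nat_lit 3) (.e (nat_lit 204869) (nat_lit 29) (.e (nat_lit 360475) (nat_lit 8) (.e (nat_lit 557091) (nat_lit 12) (.e (nat_lit 171776) (nat_lit 49) .nil)))))) (.g (nat_lit 1) (.e (nat_lit 446127) (nat_lit 0) .nil) .nil)))) 
(.lf (nat_lit 609655) (.g (nat_lit 1432) (.e (nat_lit 712755) (nat_lit 30) (.e (nat_lit 450597) (nat_lit 17) (.e (nat_lit 663589) (nat_lit 14) (.e (nat_lit 2817) (nat_lit 181) (.e (nat_lit 311338) (nat_lit 12) .nil))))) (.g (nat_lit 0) (.e (nat_lit 444842) (nat_lit 0) .nil) .nil)))) (.nd (nat_lit 8) (.nd (nat_lit 9) 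
(.lf (nat_lit 609527) (.g (nat_lit 2016) (.e (nat_lit 712753) (nat_lit 30) (.e (nat_lit 450579) (nat_lit 5) (.e (nat_lit 532501) (nat_lit 1) (.e (nat_lit 57663) (nat_lit 152) (.e (nat_lit 2637) (nat_lit 165) (.e (nat_lit 188160) (nat_lit 27) .nil)))))) (.g (nat_lit 1) (.e (nat_lit 444692) (nat_lit 0) .nil) .nil))) 
(.lf (nat_lit 610039) (.g (nat_lit 1481) (.e (nat_lit 745491) (nat_lit 4) (.e (nat_lit 65619) (nat_lit 10) (.e (nat_lit 344138) (nat_lit 29) (.e (nat_lit 581653) (nat_lit 6) (.e (nat_lit 188438) (nat_lit 20) (.e (nat_lit 3578) (nat_lit 223) .nil)))))) (.g (nat_lit 1) (.e (nat_lit 446991) (nat_lit 0) .nil) .nil)))) 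
(.lf (nat_lit 609783) (.g (nat_lit 3828) (.e (nat_lit 720909) (nat_lit 11) (.e (nat_lit 426133) (nat_lit 3) (.e (nat_lit 204869) (nat_lit 29) (.e (nat_lit 360474) (nat_lit 8) (.e (nat_lit 557091) (nat_lit 12) .nil))))) (.g (nat_lit 0) (.e (nat_lit 445389) (nat_lit 0) .nil) .nil)))))))) (.nd (nat_lit 4) (.nd (nat_lit 5) (.nd (nat_lit 6) (.nd (nat_lit 7) (.nd (nat_lit 8) (.nd (nat_lit 9) 
(.lf (nat_lit 609295) (.g (nat_lit 2929) (.e (nat_lit 704740) (nat_lit 11) (.e (nat_lit 16473) (nat_lit 14) (.e (nat_lit 491526) (nat_lit 0) (.e (nat_lit 2270) (nat_lit 149) .nil)))) (.g (nat_lit 0) (.e (nat_lit 444005) (nat_lit 0) .nil) .nil))) 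
(.lf (nat_lit 609807) (.g (nat_lit 3091) (.e (nat_lit 720909) (nat_lit 11) (.e (nat_lit 426139) (nat_lit 3) (.e (nat_lit 204868) (nat_lit 29) (.e (nat_lit 360473) (nat_lit 8) (.e (nat_lit 557091) (nat_lit 12) (.e (nat_lit 171776) (nat_lit 48) .nil)))))) (.g (nat_lit 1) (.e (nat_lit 445426) (nat_lit 0) .nil) .nil)))) 
(.lf (nat_lit 609551) (.g (nat_lit 1301) (.e (nat_lit 712753) (nat_lit 30) (.e (nat_lit 450580) (nat_lit 5) (.e (nat_lit 532501) (nat_lit 1) (.e (nat_lit 57651) (nat_lit 152) .nil)))) (.g (nat_lit 0) (.e (nat_lit 444716) (nat_lit 0) .nil) .nil)))) (.nd (nat_lit 8) (.nd (nat_lit 9) 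
(.lf (nat_lit 609423) (.g (nat_lit 3252) (.e (nat_lit 712745) (nat_lit 27) (.e (nat_lit 426347) (nat_lit 14) (.e (nat_lit 491571) (nat_lit 13) (.e (nat_lit 393271) (nat_lit 23) (.e (nat_lit 426375) (nat_lit 15) .nil))))) (.g (nat_lit 0) (.e (nat_lit 444530) (nat_lit 0) .nil) .nil))) 
(.lf (nat_lit 609935) (.g (nat_lit 895) (.e (nat_lit 737281) (nat_lit 0) (.e (nat_lit 5410) (nat_lit 303) (.e (nat_lit 73750) (nat_lit 6) (.e (nat_lit 540724) (nat_lit 28) (.e (nat_lit 442395) (nat_lit 20) (.e (nat_lit 3572) (nat_lit 222) .nil)))))) (.g (nat_lit 1) (.e (nat_lit 446689) (nat_lit 0) .nil) .nil)))) 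
(.lf (nat_lit 609679) (.g (nat_lit 1912) (.e (nat_lit 728832) (nat_lit 4) (.e (nat_lit 213032) (nat_lit 11) (.e (nat_lit 24658) (nat_lit 13) (.e (nat_lit 393290) (nat_lit 26) .nil)))) (.g (nat_lit 0) (.e (nat_lit 445002) (nat_lit 0) .nil) .nil))))) (.nd (nat_lit 7) (.nd (nat_lit 8) (.nd (nat_lit 9) 
(.lf (nat_lit 609359) (.g (nat_lit 2223) (.e (nat_lit 712742) (nat_lit 27) (.e (nat_lit 426338) (nat_lit 14) (.e (nat_lit 491571) (nat_lit 13) (.e (nat_lit 393292) (nat_lit 26) (.e (nat_lit 475208) (nat_lit 41) .nil))))) (.g (nat_lit 0) (.e (nat_lit 444437) (nat_lit 0) .nil) .nil))) 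
(.lf (nat_lit 609871) (.g (nat_lit 1757) (.e (nat_lit 720944) (nat_lit 23) (.e (nat_lit 98334) (nat_lit 18) (.e (nat_lit 164330) (nat_lit 230) (.e (nat_lit 163874) (nat_lit 3) .nil)))) (.g (nat_lit 0) (.e (nat_lit 445957) (nat_lit 0) .nil) .nil)))) 
(.lf (nat_lit 609615) (.g (nat_lit 1795) (.e (nat_lit 712755) (nat_lit 30) (.e (nat_lit 450564) (nat_lit 0) (.e (nat_lit 5546) (nat_lit 306) (.e (nat_lit 2625) (nat_lit 164) (.e (nat_lit 172120) (nat_lit 12) .nil))))) (.g (nat_lit 0) (.e (nat_lit 444797) (nat_lit 0) .nil) .nil)))) (.nd (nat_lit 8) (.nd (nat_lit 9) 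
(.lf (nat_lit 609487) (.g (nat_lit 2464) (.e (nat_lit 712752) (nat_lit 29) (.e (nat_lit 442424) (nat_lit 22) (.e (nat_lit 204544) (nat_lit 2) (.e (nat_lit 24665) (nat_lit 14) (.e (nat_lit 401414) (nat_lit 0) (.e (nat_lit 7936) (nat_lit 219) .nil)))))) (.g (nat_lit 1) (.e (nat_lit 444642) (nat_lit 0) .nil) .nil))) 
(.lf (nat_lit 609999) (.g (nat_lit 1410) (.e (nat_lit 745476) (nat_lit 0) (.e (nat_lit 1586) (nat_lit 111) (.e (nat_lit 360450) (nat_lit 0) (.e (nat_lit 4132) (nat_lit 246) .nil)))) (.g (nat_lit 0) (.e (nat_lit 446938) (nat_lit 0) .nil) .nil)))) 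
(.lf (nat_lit 609743) (.g (nat_lit 3151) (.e (nat_lit 720909) (nat_lit 11) (.e (nat_lit 426121) (nat_lit 2) (.e (nat_lit 196666) (nat_lit 13) (.e (nat_lit 65617) (nat_lit 10) (.e (nat_lit 344132) (nat_lit 26) (.e (nat_lit 557094) (nat_lit 12) (.e (nat_lit 171776) (nat_lit 48) .nil))))))) (.g (nat_lit 1) (.e (nat_lit 445322) (nat_lit 0) .nil) .nil)))))) 
(.nd (nat_lit 6) (.nd (nat_lit 7) (.nd (nat_lit 8) (.nd (nat_lit 9) 
(.lf (nat_lit 609327) (.g (nat_lit 873) (.e (nat_lit 712728) (nat_lit 18) (.e (nat_lit 204863) (nat_lit 27) (.e (nat_lit 344129) (nat_lit 26) .nil))) (.g (nat_lit 0) (.e (nat_lit 444235) (nat_lit 0) .nil) .nil))) 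
(.lf (nat_lit 609839) (.g (nat_lit 1799) (.e (nat_lit 720929) (nat_lit 21) (.e (nat_lit 57927) (nat_lit 282) (.e (nat_lit 163933) (nat_lit 17) (.e (nat_lit 466976) (nat_lit 22) (.e (nat_lit 196628) (nat_lit 9) .nil))))) (.g (nat_lit 0) (.e (nat_lit 445907) (nat_lit 0) .nil) .nil)))) 
(.lf (nat_lit 609583) (.g (nat_lit 3045) (.e (nat_lit 712753) (nat_lit 30) (.e (nat_lit 450586) (nat_lit 10) (.e (nat_lit 573475) (nat_lit 12) (.e (nat_lit 57509) (nat_lit 39) (.e (nat_lit 647199) (nat_lit 11) (.e (nat_lit 16388) (nat_lit 0) (.e (nat_lit 3544) (nat_lit 219) .nil))))))) (.g (nat_lit 1) (.e (nat_lit 444748) (nat_lit 0) .nil) .nil)))) (.nd (nat_lit 8) (.nd (nat_lit 9) 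
(.lf (nat_lit 609455) (.g (nat_lit 1434) (.e (nat_lit 712750) (nat_lit 29) (.e (nat_lit 442430) (nat_lit 24) (.e (nat_lit 229663) (nat_lit 240) (.e (nat_lit 2725) (nat_lit 172) .nil)))) (.g (nat_lit 0) (.e (nat_lit 444588) (nat_lit 0) .nil) .nil))) 
(.lf (nat_lit 609967) (.g (nat_lit 1328) (.e (nat_lit 737300) (nat_lit 7) (.e (nat_lit 286756) (nat_lit 10) (.e (nat_lit 344138) (nat_lit 29) (.e (nat_lit 581653) (nat_lit 6) (.e (nat_lit 188430) (nat_lit 20) .nil))))) (.g (nat_lit 0) (.e (nat_lit 446894) (nat_lit 0) .nil) .nil)))) 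
(.lf (nat_lit 609711) (.g (nat_lit 1722) (.e (nat_lit 720908) (nat_lit 11) (.e (nat_lit 426137) (nat_lit 3) (.e (nat_lit 204868) (nat_lit 29) (.e (nat_lit 360473) (nat_lit 8) (.e (nat_lit 557094) (nat_lit 12) (.e (nat_lit 171776) (nat_lit 48) .nil)))))) (.g (nat_lit 1) (.e (nat_lit 445211) (nat_lit 0) .nil) .nil))))) (.nd (nat_lit 7) (.nd (nat_lit 8) (.nd (nat_lit 9) 
(.lf (nat_lit 609391) (.g (nat_lit 2839) (.e (nat_lit 712745) (nat_lit 27) (.e (nat_lit 426347) (nat_lit 14) (.e (nat_lit 491570) (nat_lit 13) (.e (nat_lit 393271) (nat_lit 23) (.e (nat_lit 426378) (nat_lit 15) .nil))))) (.g (nat_lit 0) (.e (nat_lit 444495) (nat_lit 0) .nil) .nil))) 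
(.lf (nat_lit 609903) (.g (nat_lit 1148) (.e (nat_lit 720956) (nat_lit 25) (.e (nat_lit 114719) (nat_lit 23) (.e (nat_lit 98388) (nat_lit 33) (.e (nat_lit 491571) (nat_lit 13) .nil)))) (.g (nat_lit 0) (.e (nat_lit 446023) (nat_lit 0) .nil) .nil)))) 
(.lf (nat_lit 609647) (.g (nat_lit 2968) (.e (nat_lit 712755) (nat_lit 30) (.e (nat_lit 450588) (nat_lit 10) (.e (nat_lit 573475) (nat_lit 12) (.e (nat_lit 57503) (nat_lit 38) (.e (nat_lit 638999) (nat_lit 8) (.e (nat_lit 172039) (nat_lit 0) (.e (nat_lit 3543) (nat_lit 219) .nil))))))) (.g (nat_lit 1) (.e (nat_lit 444834) (nat_lit 0) .nil) .nil)))) (.nd (nat_lit 8) (.nd (nat_lit 9) 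
(.lf (nat_lit 609519) (.g (nat_lit 2036) (.e (nat_lit 712753) (nat_lit 30) (.e (nat_lit 450579) (nat_lit 5) (.e (nat_lit 532499) (nat_lit 1) (.e (nat_lit 57655) (nat_lit 152) (.e (nat_lit 2635) (nat_lit 165) (.e (nat_lit 188160) (nat_lit 27) .nil)))))) (.g (nat_lit 1) (.e (nat_lit 444684) (nat_lit 0) .nil) .nil))) 
(.lf (nat_lit 610031) (.g (nat_lit 1574) (.e (nat_lit 745491) (nat_lit 4) (.e (nat_lit 65617) (nat_lit 10) (.e (nat_lit 344138) (nat_lit 29) (.e (nat_lit 581653) (nat_lit 6) (.e (nat_lit 188438) (nat_lit 20) (.e (nat_lit 3578) (nat_lit 223) .nil)))))) (.g (nat_lit 1) (.e (nat_lit 446980) (nat_lit 0) .nil) .nil)))) 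
(.lf (nat_lit 609775) (.g (nat_lit 2150) (.e (nat_lit 720909) (nat_lit 11) (.e (nat_lit 426124) (nat_lit 2) (.e (nat_lit 196674) (nat_lit 15) (.e (nat_lit 81947) (nat_lit 20) (.e (nat_lit 1859) (nat_lit 124) (.e (nat_lit 557091) (nat_lit 12) (.e (nat_lit 171776) (nat_lit 48) .nil))))))) (.g (nat_lit 1) (.e (nat_lit 445369) (nat_lit 0) .nil) .nil))))))) 
(.nd (nat_lit 5) (.nd (nat_lit 6) (.nd (nat_lit 7) (.nd (nat_lit 8) (.nd (nat_lit 9) 
(.lf (nat_lit 609311) (.g (nat_lit 1048) (.e (nat_lit 704754) (nat_lit 12) (.e (nat_lit 57479) (nat_lit 28) (.e (nat_lit 557093) (nat_lit 12) .nil))) (.g (nat_lit 0) (.e (nat_lit 444070) (nat_lit 0) .nil) .nil))) 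
(.lf (nat_lit 609823) (.g (nat_lit 1768) (.e (nat_lit 720909) (nat_lit 11) (.e (nat_lit 426198) (nat_lit 9) (.e (nat_lit 426550) (nat_lit 31) (.e (nat_lit 368656) (nat_lit 14) (.e (nat_lit 57811) (nat_lit 246) (.e (nat_lit 57610) (nat_lit 109) .nil)))))) (.g (nat_lit 1) (.e (nat_lit 445456) (nat_lit 0) .nil) .nil)))) 
(.lf (nat_lit 609567) (.g (nat_lit 1596) (.e (nat_lit 712753) (nat_lit 30) (.e (nat_lit 450586) (nat_lit 10) (.e (nat_lit 573473) (nat_lit 12) (.e (nat_lit 57508) (nat_lit 39) (.e (nat_lit 647199) (nat_lit 11) (.e (nat_lit 16385) (nat_lit 0) (.e (nat_lit 3544) (nat_lit 219) .nil))))))) (.g (nat_lit 1) (.e (nat_lit 444732) (nat_lit 0) .nil) .nil)))) (.nd (nat_lit 8) (.nd (nat_lit 9) 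
(.lf (nat_lit 609439) (.g (nat_lit 1490) (.e (nat_lit 712750) (nat_lit 29) (.e (nat_lit 442421) (nat_lit 21) (.e (nat_lit 164345) (nat_lit 240) (.e (nat_lit 2648) (nat_lit 166) (.e (nat_lit 188418) (nat_lit 0) .nil))))) (.g (nat_lit 0) (.e (nat_lit 444564) (nat_lit 0) .nil) .nil))) 
(.lf (nat_lit 609951) (.g (nat_lit 446) (.e (nat_lit 737300) (nat_lit 7) (.e (nat_lit 286749) (nat_lit 9) (.e (nat_lit 336013) (nat_lit 2) .nil))) (.g (nat_lit 0) (.e (nat_lit 446854) (nat_lit 0) .nil) .nil)))) 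
(.lf (nat_lit 609695) (.g (nat_lit 3275) (.e (nat_lit 720908) (nat_lit 11) (.e (nat_lit 426121) (nat_lit 2) (.e (nat_lit 196666) (nat_lit 13) (.e (nat_lit 65617) (nat_lit 10) (.e (nat_lit 344133) (nat_lit 26) (.e (nat_lit 557091) (nat_lit 12) (.e (nat_lit 171776) (nat_lit 48) .nil))))))) (.g (nat_lit 1) (.e (nat_lit 445190) (nat_lit 0) .nil) .nil))))) 
(.nd (nat_lit 7) (.nd (nat_lit 8) (.nd (nat_lit 9) 
(.lf (nat_lit 609375) (.g (nat_lit 3266) (.e (nat_lit 712745) (nat_lit 27) (.e (nat_lit 426347) (nat_lit 14) (.e (nat_lit 491569) (nat_lit 13) (.e (nat_lit 393271) (nat_lit 23) (.e (nat_lit 426376) (nat_lit 15) .nil))))) (.g (nat_lit 0) (.e (nat_lit 444478) (nat_lit 0) .nil) .nil))) 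
(.lf (nat_lit 609887) (.g (nat_lit 1361) (.e (nat_lit 720949) (nat_lit 24) (.e (nat_lit 106536) (nat_lit 11) (.e (nat_lit 16392) (nat_lit 0) .nil))) (.g (nat_lit 0) (.e (nat_lit 445987) (nat_lit 0) .nil) .nil)))) 
(.lf (nat_lit 609631) (.g (nat_lit 3426) (.e (nat_lit 712755) (nat_lit 30) (.e (nat_lit 450587) (nat_lit 10) (.e (nat_lit 573475) (nat_lit 12) (.e (nat_lit 57508) (nat_lit 39) (.e (nat_lit 647201) (nat_lit 12) .nil))))) (.g (nat_lit 0) (.e (nat_lit 444818) (nat_lit 0) .nil) .nil)))) (.nd (nat_lit 8) (.nd (nat_lit 9) 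
(.lf (nat_lit 609503) (.g (nat_lit 2903) (.e (nat_lit 712753) (nat_lit 30) (.e (nat_lit 450564) (nat_lit 0) (.e (nat_lit 5548) (nat_lit 306) (.e (nat_lit 2648) (nat_lit 166) (.e (nat_lit 188418) (nat_lit 0) (.e (nat_lit 2174) (nat_lit 143) .nil)))))) (.g (nat_lit 1) (.e (nat_lit 444667) (nat_lit 0) .nil) .nil))) 
(.lf (nat_lit 610015) (.g (nat_lit 2128) (.e (nat_lit 745491) (nat_lit 4) (.e (nat_lit 65610) (nat_lit 10) (.e (nat_lit 344138) (nat_lit 29) (.e (nat_lit 581653) (nat_lit 6) (.e (nat_lit 188440) (nat_lit 20) (.e (nat_lit 3578) (nat_lit 223) .nil)))))) (.g (nat_lit 1) (.e (nat_lit 446960) (nat_lit 0) .nil) .nil)))) 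
(.lf (nat_lit 609759) (.g (nat_lit 3695) (.e (nat_lit 720909) (nat_lit 11) (.e (nat_lit 426124) (nat_lit 2) (.e (nat_lit 196666) (nat_lit 13) (.e (nat_lit 65610) (nat_lit 10) (.e (nat_lit 344129) (nat_lit 26) (.e (nat_lit 557090) (nat_lit 12) (.e (nat_lit 171776) (nat_lit 48) .nil))))))) (.g (nat_lit 1) (.e (nat_lit 445343) (nat_lit 0) .nil) .nil)))))) 
(.nd (nat_lit 6) (.nd (nat_lit 7) (.nd (nat_lit 8) (.nd (nat_lit 9) 
(.lf (nat_lit 609343) (.g (nat_lit 1761) (.e (nat_lit 712740) (nat_lit 27) (.e (nat_lit 426545) (nat_lit 30) (.e (nat_lit 360474) (nat_lit 8) (.e (nat_lit 557091) (nat_lit 12) .nil)))) (.g (nat_lit 0) (.e (nat_lit 444379) (nat_lit 0) .nil) .nil))) 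
(.lf (nat_lit 609855) (.g (nat_lit 3984) (.e (nat_lit 720937) (nat_lit 22) (.e (nat_lit 90160) (nat_lit 11) (.e (nat_lit 24665) (nat_lit 14) (.e (nat_lit 401414) (nat_lit 0) (.e (nat_lit 3272) (nat_lit 199) (.e (nat_lit 548898) (nat_lit 14) (.e (nat_lit 3063) (nat_lit 190) (.e (nat_lit 475212) (nat_lit 42) .nil)))))))) (.g (nat_lit 1) (.e (nat_lit 445937) (nat_lit 0) .nil) .nil)))) 
(.lf (nat_lit 609599) (.g (nat_lit 2232) (.e (nat_lit 712754) (nat_lit 30) (.e (nat_lit 450588) (nat_lit 10) (.e (nat_lit 573475) (nat_lit 12) (.e (nat_lit 57504) (nat_lit 38) .nil)))) (.g (nat_lit 0) (.e (nat_lit 444775) (nat_lit 0) .nil) .nil)))) (.nd (nat_lit 8) (.nd (nat_lit 9) 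
(.lf (nat_lit 609471) (.g (nat_lit 1345) (.e (nat_lit 712751) (nat_lit 29) (.e (nat_lit 442421) (nat_lit 21) (.e (nat_lit 164345) (nat_lit 240) (.e (nat_lit 2648) (nat_lit 166) (.e (nat_lit 188420) (nat_lit 0) .nil))))) (.g (nat_lit 0) (.e (nat_lit 444608) (nat_lit 0) .nil) .nil))) 
(.lf (nat_lit 609983) (.g (nat_lit 3267) (.e (nat_lit 737318) (nat_lit 15) (.e (nat_lit 49188) (nat_lit 11) (.e (nat_lit 16425) (nat_lit 7) (.e (nat_lit 409648) (nat_lit 18) (.e (nat_lit 303143) (nat_lit 12) (.e (nat_lit 475220) (nat_lit 44) .nil)))))) (.g (nat_lit 1) (.e (nat_lit 446922) (nat_lit 0) .nil) .nil)))) 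
(.lf (nat_lit 609727) (.g (nat_lit 2291) (.e (nat_lit 720908) (nat_lit 11) (.e (nat_lit 426139) (nat_lit 3) (.e (nat_lit 204868) (nat_lit 29) (.e (nat_lit 360473) (nat_lit 8) (.e (nat_lit 557094) (nat_lit 12) (.e (nat_lit 171776) (nat_lit 48) .nil)))))) (.g (nat_lit 1) (.e (nat_lit 445227) (nat_lit 0) .nil) .nil))))) (.nd (nat_lit 7) (.nd (nat_lit 8) (.nd (nat_lit 9) 
(.lf (nat_lit 609407) (.g (nat_lit 880) (.e (nat_lit 712745) (nat_lit 27) (.e (nat_lit 426347) (nat_lit 14) (.e (nat_lit 491571) (nat_lit 13) (.e (nat_lit 393266) (nat_lit 23) .nil)))) (.g (nat_lit 0) (.e (nat_lit 444513) (nat_lit 0) .nil) .nil))) 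
(.lf (nat_lit 609919) (.g (nat_lit 2581) (.e (nat_lit 729098) (nat_lit 11) (.e (nat_lit 426123) (nat_lit 2) (.e (nat_lit 196666) (nat_lit 13) (.e (nat_lit 65617) (nat_lit 10) (.e (nat_lit 344130) (nat_lit 26) (.e (nat_lit 557090) (nat_lit 12) (.e (nat_lit 171776) (nat_lit 49) .nil))))))) (.g (nat_lit 1) (.e (nat_lit 446157) (nat_lit 0) .nil) .nil)))) 
(.lf (nat_lit 609663) (.g (nat_lit 1604) (.e (nat_lit 712757) (nat_lit 32) (.e (nat_lit 466972) (nat_lit 21) (.e (nat_lit 164403) (nat_lit 256) (.e (nat_lit 57450) (nat_lit 20) .nil)))) (.g (nat_lit 0) (.e (nat_lit 444851) (nat_lit 0) .nil) .nil)))) (.nd (nat_lit 8) (.nd (nat_lit 9) 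
(.lf (nat_lit 609535) (.g (nat_lit 2200) (.e (nat_lit 712753) (nat_lit 30) (.e (nat_lit 450579) (nat_lit 5) (.e (nat_lit 532503) (nat_lit 1) (.e (nat_lit 57653) (nat_lit 152) (.e (nat_lit 2636) (nat_lit 165) (.e (nat_lit 188160) (nat_lit 27) .nil)))))) (.g (nat_lit 1) (.e (nat_lit 444700) (nat_lit 0) .nil) .nil))) 
(.lf (nat_lit 610047) (.g (nat_lit 1268) (.e (nat_lit 745491) (nat_lit 4) (.e (nat_lit 65620) (nat_lit 10) (.e (nat_lit 344138) (nat_lit 29) (.e (nat_lit 581653) (nat_lit 6) (.e (nat_lit 188438) (nat_lit 20) (.e (nat_lit 3578) (nat_lit 223) .nil)))))) (.g (nat_lit 1) (.e (nat_lit 447001) (nat_lit 0) .nil) .nil)))) 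
(.lf (nat_lit 609791) (.g (nat_lit 1896) (.e (nat_lit 720909) (nat_lit 11) (.e (nat_lit 426137) (nat_lit 3) (.e (nat_lit 204868) (nat_lit 29) (.e (nat_lit 360473) (nat_lit 8) (.e (nat_lit 557094) (nat_lit 12) (.e (nat_lit 171776) (nat_lit 48) .nil)))))) (.g (nat_lit 1) (.e (nat_lit 445403) (nat_lit 0) .nil) .nil))))))))))))


end

end Pool.Agent.Lib.MP_5854e1_co.Cz
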