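import Pool.Agent.Lib.MP_5854e1_co.DtD

/-!
# Windows and cells of the rings
-/

set_option autoImplicit false
set_option maxRecDepth 100000
set_option deprecated.oldSectionVars true

namespace Pool.Agent.Lib.MP_5854e1_co.Cz

open Pool.Agent.Lib.MP_5854e1_co

noncomputable section

noncomputable def tv901 : DT := (.nd (nat_lit 0) (.nd (nat_lit 1) (.nd (nat_lit 2) (.nd (nat_lit 3) (.nd (nat_lit 4) (.nd (nat_lit 5) 
(.lf (nat_lit 65472) (.g (nat_lit 1337) (.e (nat_lit 1597) (nat_lit 111) (.e (nat_lit 368384) (nat_lit 0) (.e (nat_lit 5906) (nat_lit 320) (.e (nat_lit 1221) (nat_lit 90) (.e (nat_lit 89856) (nat_lit 8) (.e (nat_lit 262145) (nat_lit 0) .nil)))))) (.g (nat_lit 4) .nil .nil))) 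
(.lf (nat_lit 65504) (.g (nat_lit 728) (.e (nat_lit 1597) (nat_lit 111) (.e (nat_lit 360466) (nat_lit 3) (.e (nat_lit 516118) (nat_lit 1) .nil))) .nil))) (.nd (nat_lit 5) 
(.lf (nat_lit 65488) (.g (nat_lit 1213) (.e (nat_lit 1597) (nat_lit 111) (.e (nat_lit 360466) (nat_lit 3) (.e (nat_lit 516117) (nat_lit 1) (.e (nat_lit 164147) (nat_lit 152) (.e (nat_lit 1211) (nat_lit 89) .nil))))) .nil)) 
(.lf (nat_lit 65520) (.g (nat_lit 1690) (.e (nat_lit 1597) (nat_lit 111) (.e (nat_lit 360466) (nat_lit 3) (.e (nat_lit 516120) (nat_lit 1) (.e (nat_lit 164166) (nat_lit 152) (.e (nat_lit 1196) (nat_lit 88) (.e (nat_lit 65578) (nat_lit 6) (.e (nat_lit 147458) (nat_lit 0) .nil))))))) (.g (nat_lit 4) .nil .nil))))) (.nd (nat_lit 4) (.nd (nat_lit 5) 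
(.lf (nat_lit 65480) (.g (nat_lit 1562) (.e (nat_lit 1597) (nat_lit 111) (.e (nat_lit 368384) (nat_lit 0) (.e (nat_lit 7685) (nat_lit 410) (.e (nat_lit 2649) (nat_lit 166) (.e (nat_lit 188427) (nat_lit 20) (.e (nat_lit 3281) (nat_lit 200) (.e (nat_lit 557061) (nat_lit 0) .nil))))))) (.g (nat_lit 6) .nil .nil))) 
(.lf (nat_lit 65512) (.g (nat_lit 1294) (.e (nat_lit 1597) (nat_lit 111) (.e (nat_lit 360466) (nat_lit 3) (.e (nat_lit 516119) (nat_lit 1) (.e (nat_lit 164184) (nat_lit 155) .nil)))) .nil))) (.nd (nat_lit 5) 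
(.lf (nat_lit 65496) (.g (nat_lit 1625) (.e (nat_lit 1597) (nat_lit 111) (.e (nat_lit 360466) (nat_lit 3) (.e (nat_lit 516117) (nat_lit 1) (.e (nat_lit 164166) (nat_lit 152) (.e (nat_lit 1199) (nat_lit 88) (.e (nat_lit 65578) (nat_lit 6) (.e (nat_lit 147458) (nat_lit 0) .nil))))))) (.g (nat_lit 4) .nil .nil))) 
(.lf (nat_lit 65528) (.g (nat_lit 3240) (.e (nat_lit 1597) (nat_lit 111) (.e (nat_lit 360466) (nat_lit 3) (.e (nat_lit 516146) (nat_lit 9) (.e (nat_lit 426448) (nat_lit 20) (.e (nat_lit 114711) (nat_lit 21) .nil))))) .nil))))) (.nd (nat_lit 3) (.nd (nat_lit 4) (.nd (nat_lit 5) 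
(.lf (nat_lit 65476) (.g (nat_lit 1495) (.e (nat_lit 1597) (nat_lit 111) (.e (nat_lit 368384) (nat_lit 0) (.e (nat_lit 5907) (nat_lit 320) (.e (nat_lit 1221) (nat_lit 90) (.e (nat_lit 89856) (nat_lit 8) (.e (nat_lit 262148) (nat_lit 0) .nil)))))) (.g (nat_lit 4) .nil .nil))) 
(.lf (nat_lit 65508) (.g (nat_lit 1519) (.e (nat_lit 1597) (nat_lit 111) (.e (nat_lit 360466) (nat_lit 3) (.e (nat_lit 516119) (nat_lit 1) (.e (nat_lit 164173) (nat_lit 153) .nil)))) .nil))) (.nd (nat_lit 5) 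
(.lf (nat_lit 65492) (.g (nat_lit 2970) (.e (nat_lit 1597) (nat_lit 111) (.e (nat_lit 360466) (nat_lit 3) (.e (nat_lit 516117) (nat_lit 1) (.e (nat_lit 164159) (nat_lit 152) (.e (nat_lit 1296) (nat_lit 96) (.e (nat_lit 131077) (nat_lit 0) (.e (nat_lit 2350) (nat_lit 151) (.e (nat_lit 778282) (nat_lit 0) .nil)))))))) (.g (nat_lit 5) .nil .nil))) 
(.lf (nat_lit 65524) (.g (nat_lit 1321) (.e (nat_lit 1597) (nat_lit 111) (.e (nat_lit 360466) (nat_lit 3) (.e (nat_lit 516120) (nat_lit 1) (.e (nat_lit 164176) (nat_lit 154) .nil)))) .nil)))) (.nd (nat_lit 4) (.nd (nat_lit 5) 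
(.lf (nat_lit 65484) (.g (nat_lit 1986) (.e (nat_lit 1597) (nat_lit 111) (.e (nat_lit 360466) (nat_lit 3) (.e (nat_lit 516100) (nat_lit 0) (.e (nat_lit 7936) (nat_lit 216) (.e (nat_lit 688177) (nat_lit 16) (.e (nat_lit 65578) (nat_lit 6) (.e (nat_lit 147460) (nat_lit 0) .nil))))))) (.g (nat_lit 6) .nil .nil))) 
(.lf (nat_lit 65516) (.g (nat_lit 2946) (.e (nat_lit 1597) (nat_lit 111) (.e (nat_lit 360466) (nat_lit 3) (.e (nat_lit 516120) (nat_lit 1) (.e (nat_lit 164159) (nat_lit 152) (.e (nat_lit 1201) (nat_lit 88) (.e (nat_lit 65578) (nat_lit 6) (.e (nat_lit 147458) (nat_lit 0) .nil))))))) (.g (nat_lit 5) .nil .nil)))) (.nd (nat_lit 5) 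
(.lf (nat_lit 65500) (.g (nat_lit 1560) (.e (nat_lit 1597) (nat_lit 111) (.e (nat_lit 360466) (nat_lit 3) (.e (nat_lit 516117) (nat_lit 1) (.e (nat_lit 164166) (nat_lit 152) (.e (nat_lit 1200) (nat_lit 88) (.e (nat_lit 65578) (nat_lit 6) (.e (nat_lit 147459) (nat_lit 0) .nil))))))) (.g (nat_lit 4) .nil .nil))) 
(.lf (nat_lit 65532) (.g (nat_lit 1619) (.e (nat_lit 1597) (nat_lit 111) (.e (nat_lit 360466) (nat_lit 3) (.e (nat_lit 516146) (nat_lit 9) (.e (nat_lit 426467) (nat_lit 24) (.e (nat_lit 155674) (nat_lit 12) (.e (nat_lit 57480) (nat_lit 28) (.e (nat_lit 557058) (nat_lit 0) .nil))))))) (.g (nat_lit 4) .nil .nil))))))) (.nd (nat_lit 2) (.nd (nat_lit 3) (.nd (nat_lit 4) (.nd (nat_lit 5) 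
(.lf (nat_lit 65474) (.g (nat_lit 1014) (.e (nat_lit 1597) (nat_lit 111) (.e (nat_lit 368384) (nat_lit 0) (.e (nat_lit 5907) (nat_lit 320) (.e (nat_lit 1219) (nat_lit 90) (.e (nat_lit 89856) (nat_lit 8) (.e (nat_lit 262145) (nat_lit 0) .nil)))))) (.g (nat_lit 4) .nil .nil))) 
(.lf (nat_lit 65506) (.g (nat_lit 1322) (.e (nat_lit 1597) (nat_lit 111) (.e (nat_lit 360466) (nat_lit 3) (.e (nat_lit 516119) (nat_lit 1) (.e (nat_lit 164147) (nat_lit 152) .nil)))) .nil))) (.nd (nat_lit 5) 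
(.lf (nat_lit 65490) (.g (nat_lit 2000) (.e (nat_lit 1597) (nat_lit 111) (.e (nat_lit 360466) (nat_lit 3) (.e (nat_lit 516117) (nat_lit 1) (.e (nat_lit 164159) (nat_lit 152) (.e (nat_lit 1201) (nat_lit 88) (.e (nat_lit 65578) (nat_lit 6) (.e (nat_lit 147459) (nat_lit 0) .nil))))))) (.g (nat_lit 4) .nil .nil))) 
(.lf (nat_lit 65522) (.g (nat_lit 1712) (.e (nat_lit 1597) (nat_lit 111) (.e (nat_lit 360466) (nat_lit 3) (.e (nat_lit 516120) (nat_lit 1) (.e (nat_lit 164166) (nat_lit 152) (.e (nat_lit 1200) (nat_lit 88) (.e (nat_lit 65545) (nat_lit 0) (.e (nat_lit 2350) (nat_lit 151) (.e (nat_lit 778282) (nat_lit 0) .nil)))))))) (.g (nat_lit 4) .nil .nil))))) (.nd (nat_lit 4) (.nd (nat_lit 5) 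
(.lf (nat_lit 65482) (.g (nat_lit 1403) (.e (nat_lit 1597) (nat_lit 111) (.e (nat_lit 368384) (nat_lit 0) (.e (nat_lit 7685) (nat_lit 410) (.e (nat_lit 2650) (nat_lit 166) (.e (nat_lit 188427) (nat_lit 20) (.e (nat_lit 3282) (nat_lit 200) (.e (nat_lit 557060) (nat_lit 0) .nil))))))) (.g (nat_lit 6) .nil .nil))) 
(.lf (nat_lit 65514) (.g (nat_lit 1315) (.e (nat_lit 1597) (nat_lit 111) (.e (nat_lit 360466) (nat_lit 3) (.e (nat_lit 516120) (nat_lit 1) (.e (nat_lit 164147) (nat_lit 152) (.e (nat_lit 1211) (nat_lit 89) .nil))))) .nil))) (.nd (nat_lit 5) 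
(.lf (nat_lit 65498) (.g (nat_lit 1531) (.e (nat_lit 1597) (nat_lit 111) (.e (nat_lit 360466) (nat_lit 3) (.e (nat_lit 516117) (nat_lit 1) (.e (nat_lit 164166) (nat_lit 152) (.e (nat_lit 1200) (nat_lit 88) (.e (nat_lit 65544) (nat_lit 0) (.e (nat_lit 2316) (nat_lit 151) (.e (nat_lit 778282) (nat_lit 0) .nil)))))))) (.g (nat_lit 4) .nil .nil))) 
(.lf (nat_lit 65530) (.g (nat_lit 3496) (.e (nat_lit 1597) (nat_lit 111) (.e (nat_lit 360466) (nat_lit 3) (.e (nat_lit 516146) (nat_lit 9) (.e (nat_lit 426467) (nat_lit 24) (.e (nat_lit 155674) (nat_lit 12) (.e (nat_lit 57479) (nat_lit 28) (.e (nat_lit 557058) (nat_lit 0) .nil))))))) (.g (nat_lit 6) .nil .nil)))))) (.nd (nat_lit 3) (.nd (nat_lit 4) (.nd (nat_lit 5) 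
(.lf (nat_lit 65478) (.g (nat_lit 1650) (.e (nat_lit 1597) (nat_lit 111) (.e (nat_lit 368384) (nat_lit 0) (.e (nat_lit 5944) (nat_lit 322) (.e (nat_lit 57424) (nat_lit 14) (.e (nat_lit 352270) (nat_lit 8) (.e (nat_lit 262148) (nat_lit 0) .nil)))))) (.g (nat_lit 5) .nil .nil))) 
(.lf (nat_lit 65510) (.g (nat_lit 2590) (.e (nat_lit 1597) (nat_lit 111) (.e (nat_lit 360466) (nat_lit 3) (.e (nat_lit 516119) (nat_lit 1) (.e (nat_lit 164179) (nat_lit 154) (.e (nat_lit 57403) (nat_lit 11) .nil))))) .nil))) (.nd (nat_lit 5) 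
(.lf (nat_lit 65494) (.g (nat_lit 929) (.e (nat_lit 1597) (nat_lit 111) (.e (nat_lit 360466) (nat_lit 3) (.e (nat_lit 516117) (nat_lit 1) (.e (nat_lit 164166) (nat_lit 152) .nil)))) .nil)) 
(.lf (nat_lit 65526) (.g (nat_lit 1061) (.e (nat_lit 1597) (nat_lit 111) (.e (nat_lit 360466) (nat_lit 3) (.e (nat_lit 516146) (nat_lit 9) (.e (nat_lit 426361) (nat_lit 15) .nil)))) .nil)))) (.nd (nat_lit 4) (.nd (nat_lit 5) 
(.lf (nat_lit 65486) (.g (nat_lit 2576) (.e (nat_lit 1597) (nat_lit 111) (.e (nat_lit 360466) (nat_lit 3) (.e (nat_lit 516115) (nat_lit 1) (.e (nat_lit 164179) (nat_lit 154) (.e (nat_lit 57412) (nat_lit 12) .nil))))) .nil)) 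
(.lf (nat_lit 65518) (.g (nat_lit 1971) (.e (nat_lit 1597) (nat_lit 111) (.e (nat_lit 360466) (nat_lit 3) (.e (nat_lit 516120) (nat_lit 1) (.e (nat_lit 164159) (nat_lit 152) (.e (nat_lit 1296) (nat_lit 96) (.e (nat_lit 131077) (nat_lit 0) (.e (nat_lit 2316) (nat_lit 151) (.e (nat_lit 778282) (nat_lit 0) .nil)))))))) (.g (nat_lit 4) .nil .nil)))) (.nd (nat_lit 5) 
(.lf (nat_lit 65502) (.g (nat_lit 1335) (.e (nat_lit 1597) (nat_lit 111) (.e (nat_lit 360466) (nat_lit 3) (.e (nat_lit 516117) (nat_lit 1) (.e (nat_lit 164176) (nat_lit 154) .nil)))) .nil)) 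
(.lf (nat_lit 65534) (.g (nat_lit 1369) (.e (nat_lit 1597) (nat_lit 111) (.e (nat_lit 360466) (nat_lit 3) (.e (nat_lit 516179) (nat_lit 15) (.e (nat_lit 483072) (nat_lit 40) .nil)))) .nil))))))) (.nd (nat_lit 1) (.nd (nat_lit 2) (.nd (nat_lit 3) (.nd (nat_lit 4) (.nd (nat_lit 5) 
(.lf (nat_lit 65473) (.g (nat_lit 1419) (.e (nat_lit 1597) (nat_lit 111) (.e (nat_lit 368384) (nat_lit 0) (.e (nat_lit 5906) (nat_lit 320) (.e (nat_lit 1221) (nat_lit 90) (.e (nat_lit 89856) (nat_lit 8) (.e (nat_lit 262148) (nat_lit 0) .nil)))))) (.g (nat_lit 4) .nil .nil))) 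
(.lf (nat_lit 65505) (.g (nat_lit 365) (.e (nat_lit 1597) (nat_lit 111) (.e (nat_lit 360466) (nat_lit 3) (.e (nat_lit 516119) (nat_lit 1) .nil))) .nil))) (.nd (nat_lit 5) 
(.lf (nat_lit 65489) (.g (nat_lit 3107) (.e (nat_lit 1597) (nat_lit 111) (.e (nat_lit 360466) (nat_lit 3) (.e (nat_lit 516117) (nat_lit 1) (.e (nat_lit 164159) (nat_lit 152) (.e (nat_lit 1201) (nat_lit 88) (.e (nat_lit 65578) (nat_lit 6) (.e (nat_lit 147458) (nat_lit 0) .nil))))))) (.g (nat_lit 6) .nil .nil))) 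
(.lf (nat_lit 65521) (.g (nat_lit 1625) (.e (nat_lit 1597) (nat_lit 111) (.e (nat_lit 360466) (nat_lit 3) (.e (nat_lit 516120) (nat_lit 1) (.e (nat_lit 164166) (nat_lit 152) (.e (nat_lit 1199) (nat_lit 88) (.e (nat_lit 65578) (nat_lit 6) (.e (nat_lit 147458) (nat_lit 0) .nil))))))) (.g (nat_lit 4) .nil .nil))))) (.nd (nat_lit 4) (.nd (nat_lit 5) 
(.lf (nat_lit 65481) (.g (nat_lit 1361) (.e (nat_lit 1597) (nat_lit 111) (.e (nat_lit 368384) (nat_lit 0) (.e (nat_lit 7685) (nat_lit 410) (.e (nat_lit 2650) (nat_lit 166) (.e (nat_lit 188427) (nat_lit 20) (.e (nat_lit 3281) (nat_lit 200) (.e (nat_lit 557061) (nat_lit 0) .nil))))))) (.g (nat_lit 6) .nil .nil))) 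
(.lf (nat_lit 65513) (.g (nat_lit 1162) (.e (nat_lit 1597) (nat_lit 111) (.e (nat_lit 360466) (nat_lit 3) (.e (nat_lit 516120) (nat_lit 1) (.e (nat_lit 164147) (nat_lit 152) .nil)))) .nil))) (.nd (nat_lit 5) 
(.lf (nat_lit 65497) (.g (nat_lit 1360) (.e (nat_lit 1597) (nat_lit 111) (.e (nat_lit 360466) (nat_lit 3) (.e (nat_lit 516117) (nat_lit 1) (.e (nat_lit 164166) (nat_lit 152) (.e (nat_lit 1200) (nat_lit 88) .nil))))) .nil)) 
(.lf (nat_lit 65529) (.g (nat_lit 1121) (.e (nat_lit 1597) (nat_lit 111) (.e (nat_lit 360466) (nat_lit 3) (.e (nat_lit 516146) (nat_lit 9) (.e (nat_lit 426467) (nat_lit 24) .nil)))) .nil))))) (.nd (nat_lit 3) (.nd (nat_lit 4) (.nd (nat_lit 5) 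
(.lf (nat_lit 65477) (.g (nat_lit 1409) (.e (nat_lit 1597) (nat_lit 111) (.e (nat_lit 368384) (nat_lit 0) (.e (nat_lit 5937) (nat_lit 322) (.e (nat_lit 57423) (nat_lit 14) (.e (nat_lit 352270) (nat_lit 8) (.e (nat_lit 262148) (nat_lit 0) .nil)))))) (.g (nat_lit 4) .nil .nil))) 
(.lf (nat_lit 65509) (.g (nat_lit 1568) (.e (nat_lit 1597) (nat_lit 111) (.e (nat_lit 360466) (nat_lit 3) (.e (nat_lit 516119) (nat_lit 1) (.e (nat_lit 164179) (nat_lit 154) .nil)))) .nil))) (.nd (nat_lit 5) 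
(.lf (nat_lit 65493) (.g (nat_lit 2236) (.e (nat_lit 1597) (nat_lit 111) (.e (nat_lit 360466) (nat_lit 3) (.e (nat_lit 516117) (nat_lit 1) (.e (nat_lit 164159) (nat_lit 152) (.e (nat_lit 1296) (nat_lit 96) (.e (nat_lit 131101) (nat_lit 6) (.e (nat_lit 147458) (nat_lit 0) .nil))))))) (.g (nat_lit 5) .nil .nil))) 
(.lf (nat_lit 65525) (.g (nat_lit 1194) (.e (nat_lit 1597) (nat_lit 111) (.e (nat_lit 360466) (nat_lit 3) (.e (nat_lit 516120) (nat_lit 1) (.e (nat_lit 164184) (nat_lit 155) .nil)))) .nil)))) (.nd (nat_lit 4) (.nd (nat_lit 5) 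
(.lf (nat_lit 65485) (.g (nat_lit 2643) (.e (nat_lit 1597) (nat_lit 111) (.e (nat_lit 360466) (nat_lit 3) (.e (nat_lit 516115) (nat_lit 1) (.e (nat_lit 164179) (nat_lit 154) (.e (nat_lit 57402) (nat_lit 11) .nil))))) .nil)) 
(.lf (nat_lit 65517) (.g (nat_lit 2629) (.e (nat_lit 1597) (nat_lit 111) (.e (nat_lit 360466) (nat_lit 3) (.e (nat_lit 516120) (nat_lit 1) (.e (nat_lit 164159) (nat_lit 152) (.e (nat_lit 1201) (nat_lit 88) (.e (nat_lit 65578) (nat_lit 6) (.e (nat_lit 147460) (nat_lit 0) .nil))))))) (.g (nat_lit 5) .nil .nil)))) (.nd (nat_lit 5) 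
(.lf (nat_lit 65501) (.g (nat_lit 1495) (.e (nat_lit 1597) (nat_lit 111) (.e (nat_lit 360466) (nat_lit 3) (.e (nat_lit 516117) (nat_lit 1) (.e (nat_lit 164170) (nat_lit 152) .nil)))) .nil)) 
(.lf (nat_lit 65533) (.g (nat_lit 463) (.e (nat_lit 1597) (nat_lit 111) (.e (nat_lit 360466) (nat_lit 3) (.e (nat_lit 516178) (nat_lit 15) .nil))) .nil)))))) (.nd (nat_lit 2) (.nd (nat_lit 3) (.nd (nat_lit 4) (.nd (nat_lit 5) 
(.lf (nat_lit 65475) (.g (nat_lit 1413) (.e (nat_lit 1597) (nat_lit 111) (.e (nat_lit 368384) (nat_lit 0) (.e (nat_lit 5907) (nat_lit 320) (.e (nat_lit 1221) (nat_lit 90) (.e (nat_lit 89856) (nat_lit 8) (.e (nat_lit 262145) (nat_lit 0) .nil)))))) (.g (nat_lit 4) .nil .nil))) 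
(.lf (nat_lit 65507) (.g (nat_lit 1323) (.e (nat_lit 1597) (nat_lit 111) (.e (nat_lit 360466) (nat_lit 3) (.e (nat_lit 516119) (nat_lit 1) (.e (nat_lit 164171) (nat_lit 153) .nil)))) .nil))) (.nd (nat_lit 5) 
(.lf (nat_lit 65491) (.g (nat_lit 2783) (.e (nat_lit 1597) (nat_lit 111) (.e (nat_lit 360466) (nat_lit 3) (.e (nat_lit 516117) (nat_lit 1) (.e (nat_lit 164159) (nat_lit 152) (.e (nat_lit 1201) (nat_lit 88) (.e (nat_lit 65578) (nat_lit 6) (.e (nat_lit 147460) (nat_lit 0) .nil))))))) (.g (nat_lit 5) .nil .nil))) 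
(.lf (nat_lit 65523) (.g (nat_lit 1114) (.e (nat_lit 1597) (nat_lit 111) (.e (nat_lit 360466) (nat_lit 3) (.e (nat_lit 516120) (nat_lit 1) (.e (nat_lit 164171) (nat_lit 153) .nil)))) .nil)))) (.nd (nat_lit 4) (.nd (nat_lit 5) 
(.lf (nat_lit 65483) (.g (nat_lit 784) (.e (nat_lit 1597) (nat_lit 111) (.e (nat_lit 360466) (nat_lit 3) (.e (nat_lit 516100) (nat_lit 0) (.e (nat_lit 7936) (nat_lit 216) .nil)))) .nil)) 
(.lf (nat_lit 65515) (.g (nat_lit 1362) (.e (nat_lit 1597) (nat_lit 111) (.e (nat_lit 360466) (nat_lit 3) (.e (nat_lit 516120) (nat_lit 1) (.e (nat_lit 164159) (nat_lit 152) .nil)))) .nil))) (.nd (nat_lit 5) 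
(.lf (nat_lit 65499) (.g (nat_lit 1738) (.e (nat_lit 1597) (nat_lit 111) (.e (nat_lit 360466) (nat_lit 3) (.e (nat_lit 516117) (nat_lit 1) (.e (nat_lit 164166) (nat_lit 152) (.e (nat_lit 1200) (nat_lit 88) (.e (nat_lit 65545) (nat_lit 0) (.e (nat_lit 2350) (nat_lit 151) (.e (nat_lit 778282) (nat_lit 0) .nil)))))))) (.g (nat_lit 4) .nil .nil))) 
(.lf (nat_lit 65531) (.g (nat_lit 3808) (.e (nat_lit 1597) (nat_lit 111) (.e (nat_lit 360466) (nat_lit 3) (.e (nat_lit 516146) (nat_lit 9) (.e (nat_lit 426467) (nat_lit 24) (.e (nat_lit 155674) (nat_lit 12) (.e (nat_lit 57479) (nat_lit 28) (.e (nat_lit 557060) (nat_lit 0) .nil))))))) (.g (nat_lit 0) .nil .nil)))))) (.nd (nat_lit 3) (.nd (nat_lit 4) (.nd (nat_lit 5) 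
(.lf (nat_lit 65479) (.g (nat_lit 1819) (.e (nat_lit 1597) (nat_lit 111) (.e (nat_lit 368384) (nat_lit 0) (.e (nat_lit 5954) (nat_lit 322) (.e (nat_lit 57424) (nat_lit 14) (.e (nat_lit 352270) (nat_lit 8) (.e (nat_lit 262148) (nat_lit 0) .nil)))))) (.g (nat_lit 4) .nil .nil))) 
(.lf (nat_lit 65511) (.g (nat_lit 2670) (.e (nat_lit 1597) (nat_lit 111) (.e (nat_lit 360466) (nat_lit 3) (.e (nat_lit 516119) (nat_lit 1) (.e (nat_lit 164179) (nat_lit 154) (.e (nat_lit 57403) (nat_lit 11) (.e (nat_lit 327694) (nat_lit 3) (.e (nat_lit 40965) (nat_lit 0) .nil))))))) (.g (nat_lit 4) .nil .nil)))) (.nd (nat_lit 5) 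
(.lf (nat_lit 65495) (.g (nat_lit 1691) (.e (nat_lit 1597) (nat_lit 111) (.e (nat_lit 360466) (nat_lit 3) (.e (nat_lit 516117) (nat_lit 1) (.e (nat_lit 164166) (nat_lit 152) (.e (nat_lit 1196) (nat_lit 88) (.e (nat_lit 65578) (nat_lit 6) (.e (nat_lit 147458) (nat_lit 0) .nil))))))) (.g (nat_lit 4) .nil .nil))) 
(.lf (nat_lit 65527) (.g (nat_lit 979) (.e (nat_lit 1597) (nat_lit 111) (.e (nat_lit 360466) (nat_lit 3) (.e (nat_lit 516146) (nat_lit 9) (.e (nat_lit 426448) (nat_lit 20) .nil)))) .nil)))) (.nd (nat_lit 4) (.nd (nat_lit 5) 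
(.lf (nat_lit 65487) (.g (nat_lit 1092) (.e (nat_lit 1597) (nat_lit 111) (.e (nat_lit 360466) (nat_lit 3) (.e (nat_lit 516117) (nat_lit 1) (.e (nat_lit 164147) (nat_lit 152) .nil)))) .nil)) 
(.lf (nat_lit 65519) (.g (nat_lit 1014) (.e (nat_lit 1597) (nat_lit 111) (.e (nat_lit 360466) (nat_lit 3) (.e (nat_lit 516120) (nat_lit 1) (.e (nat_lit 164166) (nat_lit 152) .nil)))) .nil))) (.nd (nat_lit 5) 
(.lf (nat_lit 65503) (.g (nat_lit 1222) (.e (nat_lit 1597) (nat_lit 111) (.e (nat_lit 360466) (nat_lit 3) (.e (nat_lit 516117) (nat_lit 1) (.e (nat_lit 164184) (nat_lit 155) .nil)))) .nil)) 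
(.lf (nat_lit 65535) (.g (nat_lit 3622) (.e (nat_lit 1597) (nat_lit 111) (.e (nat_lit 360466) (nat_lit 3) (.e (nat_lit 516179) (nat_lit 15) (.e (nat_lit 475214) (nat_lit 42) (.e (nat_lit 720912) (nat_lit 20) (.e (nat_lit 1863) (nat_lit 124) (.e (nat_lit 557061) (nat_lit 0) .nil))))))) (.g (nat_lit 0) .nil .nil)))))))))

noncomputable def tv902 : DT := (.nd (nat_lit 0) (.nd (nat_lit 1) (.nd (nat_lit 2) (.nd (nat_lit 3) (.nd (nat_lit 4) (.nd (nat_lit 5) 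
(.lf (nat_lit 65536) (.g (nat_lit 3081) (.e (nat_lit 1597) (nat_lit 111) (.e (nat_lit 360466) (nat_lit 3) (.e (nat_lit 516179) (nat_lit 15) (.e (nat_lit 475214) (nat_lit 42) (.e (nat_lit 720914) (nat_lit 20) (.e (nat_lit 1852) (nat_lit 124) (.e (nat_lit 557061) (nat_lit 0) .nil))))))) (.g (nat_lit 6) .nil .nil))) 
(.lf (nat_lit 65568) (.g (nat_lit 1935) (.e (nat_lit 1597) (nat_lit 111) (.e (nat_lit 360473) (nat_lit 8) (.e (nat_lit 557119) (nat_lit 18) (.e (nat_lit 2798) (nat_lit 180) (.e (nat_lit 303112) (nat_lit 0) .nil))))) .nil))) (.nd (nat_lit 5) 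
(.lf (nat_lit 65552) (.g (nat_lit 1225) (.e (nat_lit 1597) (nat_lit 111) (.e (nat_lit 360470) (nat_lit 6) (.e (nat_lit 540723) (nat_lit 27) (.e (nat_lit 434193) (nat_lit 13) (.e (nat_lit 2579) (nat_lit 161) (.e (nat_lit 40965) (nat_lit 0) .nil)))))) (.g (nat_lit 0) .nil .nil))) 
(.lf (nat_lit 65584) (.g (nat_lit 2339) (.e (nat_lit 1597) (nat_lit 111) (.e (nat_lit 360480) (nat_lit 14) (.e (nat_lit 638986) (nat_lit 5) (.e (nat_lit 3015) (nat_lit 187) (.e (nat_lit 450562) (nat_lit 0) (.e (nat_lit 5170) (nat_lit 292) (.e (nat_lit 1079) (nat_lit 81) .nil))))))) (.g (nat_lit 5) .nil .nil))))) (.nd (nat_lit 4) (.nd (nat_lit 5) 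
(.lf (nat_lit 65544) (.g (nat_lit 843) (.e (nat_lit 1597) (nat_lit 111) (.e (nat_lit 360466) (nat_lit 3) (.e (nat_lit 516191) (nat_lit 17) (.e (nat_lit 6216) (nat_lit 333) .nil)))) .nil)) 
(.lf (nat_lit 65576) (.g (nat_lit 2050) (.e (nat_lit 1597) (nat_lit 111) (.e (nat_lit 360477) (nat_lit 11) (.e (nat_lit 581651) (nat_lit 4) (.e (nat_lit 172079) (nat_lit 7) (.e (nat_lit 409634) (nat_lit 13) (.e (nat_lit 40962) (nat_lit 0) .nil)))))) (.g (nat_lit 6) .nil .nil)))) (.nd (nat_lit 5) 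
(.lf (nat_lit 65560) (.g (nat_lit 2888) (.e (nat_lit 1597) (nat_lit 111) (.e (nat_lit 360473) (nat_lit 8) (.e (nat_lit 557090) (nat_lit 12) (.e (nat_lit 164020) (nat_lit 45) .nil)))) .nil)) 
(.lf (nat_lit 65592) (.g (nat_lit 1533) (.e (nat_lit 1597) (nat_lit 111) (.e (nat_lit 360488) (nat_lit 20) (.e (nat_lit 761866) (nat_lit 5) (.e (nat_lit 1454) (nat_lit 108) (.e (nat_lit 336179) (nat_lit 10) (.e (nat_lit 344174) (nat_lit 42) (.e (nat_lit 761869) (nat_lit 5) .nil))))))) (.g (nat_lit 4) .nil .nil)))))) (.nd (nat_lit 3) (.nd (nat_lit 4) (.nd (nat_lit 5) 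
(.lf (nat_lit 65540) (.g (nat_lit 390) (.e (nat_lit 1597) (nat_lit 111) (.e (nat_lit 360466) (nat_lit 3) (.e (nat_lit 516182) (nat_lit 15) .nil))) .nil)) 
(.lf (nat_lit 65572) (.g (nat_lit 916) (.e (nat_lit 1597) (nat_lit 111) (.e (nat_lit 360475) (nat_lit 8) (.e (nat_lit 557091) (nat_lit 12) .nil))) .nil))) (.nd (nat_lit 5) 
(.lf (nat_lit 65556) (.g (nat_lit 1923) (.e (nat_lit 1597) (nat_lit 111) (.e (nat_lit 360473) (nat_lit 8) (.e (nat_lit 557089) (nat_lit 12) (.e (nat_lit 163999) (nat_lit 38) (.e (nat_lit 639020) (nat_lit 16) (.e (nat_lit 65580) (nat_lit 6) (.e (nat_lit 147458) (nat_lit 0) .nil))))))) (.g (nat_lit 4) .nil .nil))) 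
(.lf (nat_lit 65588) (.g (nat_lit 831) (.e (nat_lit 1597) (nat_lit 111) (.e (nat_lit 360486) (nat_lit 18) (.e (nat_lit 671748) (nat_lit 0) (.e (nat_lit 1592) (nat_lit 111) .nil)))) .nil)))) (.nd (nat_lit 4) (.nd (nat_lit 5) 
(.lf (nat_lit 65548) (.g (nat_lit 1503) (.e (nat_lit 1597) (nat_lit 111) (.e (nat_lit 368384) (nat_lit 5) (.e (nat_lit 532583) (nat_lit 26) (.e (nat_lit 426182) (nat_lit 8) (.e (nat_lit 417824) (nat_lit 13) (.e (nat_lit 40965) (nat_lit 0) .nil)))))) (.g (nat_lit 5) .nil .nil))) 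
(.lf (nat_lit 65580) (.g (nat_lit 1974) (.e (nat_lit 1597) (nat_lit 111) (.e (nat_lit 360477) (nat_lit 11) (.e (nat_lit 581651) (nat_lit 4) (.e (nat_lit 172082) (nat_lit 7) (.e (nat_lit 409634) (nat_lit 13) (.e (nat_lit 40962) (nat_lit 0) .nil)))))) (.g (nat_lit 5) .nil .nil)))) (.nd (nat_lit 5) 
(.lf (nat_lit 65564) (.g (nat_lit 3296) (.e (nat_lit 1597) (nat_lit 111) (.e (nat_lit 360473) (nat_lit 8) (.e (nat_lit 557091) (nat_lit 12) (.e (nat_lit 163999) (nat_lit 38) (.e (nat_lit 639020) (nat_lit 16) (.e (nat_lit 65580) (nat_lit 6) (.e (nat_lit 155392) (nat_lit 0) .nil))))))) (.g (nat_lit 5) .nil .nil))) 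
(.lf (nat_lit 65596) (.g (nat_lit 1784) (.e (nat_lit 1597) (nat_lit 111) (.e (nat_lit 360488) (nat_lit 20) (.e (nat_lit 761867) (nat_lit 5) (.e (nat_lit 1597) (nat_lit 111) (.e (nat_lit 360488) (nat_lit 20) (.e (nat_lit 761867) (nat_lit 5) .nil)))))) (.g (nat_lit 0) .nil .nil))))))) (.nd (nat_lit 2) (.nd (nat_lit 3) (.nd (nat_lit 4) (.nd (nat_lit 5) 
(.lf (nat_lit 65538) (.g (nat_lit 2147) (.e (nat_lit 1597) (nat_lit 111) (.e (nat_lit 360466) (nat_lit 3) (.e (nat_lit 516179) (nat_lit 15) (.e (nat_lit 475219) (nat_lit 44) (.e (nat_lit 737315) (nat_lit 12) (.e (nat_lit 8399) (nat_lit 120) (.e (nat_lit 1078) (nat_lit 81) .nil))))))) (.g (nat_lit 4) .nil .nil))) 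
(.lf (nat_lit 65570) (.g (nat_lit 2484) (.e (nat_lit 1597) (nat_lit 111) (.e (nat_lit 360473) (nat_lit 8) (.e (nat_lit 557119) (nat_lit 18) (.e (nat_lit 2798) (nat_lit 180) (.e (nat_lit 303133) (nat_lit 9) (.e (nat_lit 426412) (nat_lit 15) (.e (nat_lit 1915) (nat_lit 130) (.e (nat_lit 606217) (nat_lit 0) .nil)))))))) (.g (nat_lit 4) .nil .nil)))) (.nd (nat_lit 5) 
(.lf (nat_lit 65554) (.g (nat_lit 1169) (.e (nat_lit 1597) (nat_lit 111) (.e (nat_lit 360470) (nat_lit 6) (.e (nat_lit 540723) (nat_lit 27) (.e (nat_lit 434193) (nat_lit 13) (.e (nat_lit 2580) (nat_lit 161) (.e (nat_lit 40965) (nat_lit 0) .nil)))))) (.g (nat_lit 0) .nil .nil))) 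
(.lf (nat_lit 65586) (.g (nat_lit 966) (.e (nat_lit 1597) (nat_lit 111) (.e (nat_lit 360486) (nat_lit 18) (.e (nat_lit 671748) (nat_lit 0) (.e (nat_lit 1576) (nat_lit 110) .nil)))) .nil)))) (.nd (nat_lit 4) (.nd (nat_lit 5) 
(.lf (nat_lit 65546) (.g (nat_lit 1360) (.e (nat_lit 1597) (nat_lit 111) (.e (nat_lit 368384) (nat_lit 5) (.e (nat_lit 532579) (nat_lit 26) (.e (nat_lit 426172) (nat_lit 7) (.e (nat_lit 409632) (nat_lit 13) (.e (nat_lit 40964) (nat_lit 0) .nil)))))) (.g (nat_lit 5) .nil .nil))) 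
(.lf (nat_lit 65578) (.g (nat_lit 1645) (.e (nat_lit 1597) (nat_lit 111) (.e (nat_lit 360477) (nat_lit 11) (.e (nat_lit 581651) (nat_lit 4) (.e (nat_lit 172081) (nat_lit 7) (.e (nat_lit 409634) (nat_lit 13) (.e (nat_lit 40962) (nat_lit 0) .nil)))))) (.g (nat_lit 5) .nil .nil)))) (.nd (nat_lit 5) 
(.lf (nat_lit 65562) (.g (nat_lit 2600) (.e (nat_lit 1597) (nat_lit 111) (.e (nat_lit 360473) (nat_lit 8) (.e (nat_lit 557091) (nat_lit 12) (.e (nat_lit 163999) (nat_lit 38) (.e (nat_lit 639020) (nat_lit 16) .nil))))) .nil)) 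
(.lf (nat_lit 65594) (.g (nat_lit 2028) (.e (nat_lit 1597) (nat_lit 111) (.e (nat_lit 360488) (nat_lit 20) (.e (nat_lit 761866) (nat_lit 5) (.e (nat_lit 1597) (nat_lit 111) (.e (nat_lit 360488) (nat_lit 20) (.e (nat_lit 761869) (nat_lit 5) .nil)))))) (.g (nat_lit 0) .nil .nil)))))) (.nd (nat_lit 3) (.nd (nat_lit 4) (.nd (nat_lit 5) 
(.lf (nat_lit 65542) (.g (nat_lit 448) (.e (nat_lit 1597) (nat_lit 111) (.e (nat_lit 360466) (nat_lit 3) (.e (nat_lit 516191) (nat_lit 17) .nil))) .nil)) 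
(.lf (nat_lit 65574) (.g (nat_lit 392) (.e (nat_lit 1597) (nat_lit 111) (.e (nat_lit 360477) (nat_lit 11) (.e (nat_lit 581636) (nat_lit 0) .nil))) .nil))) (.nd (nat_lit 5) 
(.lf (nat_lit 65558) (.g (nat_lit 1501) (.e (nat_lit 1597) (nat_lit 111) (.e (nat_lit 360473) (nat_lit 8) (.e (nat_lit 557089) (nat_lit 12) (.e (nat_lit 164010) (nat_lit 41) .nil)))) .nil)) 
(.lf (nat_lit 65590) (.g (nat_lit 1160) (.e (nat_lit 1597) (nat_lit 111) (.e (nat_lit 360486) (nat_lit 18) (.e (nat_lit 671753) (nat_lit 0) (.e (nat_lit 1555) (nat_lit 110) (.e (nat_lit 352270) (nat_lit 8) (.e (nat_lit 262148) (nat_lit 0) .nil)))))) (.g (nat_lit 4) .nil .nil))))) (.nd (nat_lit 4) (.nd (nat_lit 5) 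
(.lf (nat_lit 65550) (.g (nat_lit 833) (.e (nat_lit 1597) (nat_lit 111) (.e (nat_lit 360470) (nat_lit 6) (.e (nat_lit 540723) (nat_lit 27) (.e (nat_lit 434189) (nat_lit 13) (.e (nat_lit 2580) (nat_lit 161) (.e (nat_lit 40964) (nat_lit 0) .nil)))))) (.g (nat_lit 0) .nil .nil))) 
(.lf (nat_lit 65582) (.g (nat_lit 2070) (.e (nat_lit 1597) (nat_lit 111) (.e (nat_lit 360480) (nat_lit 14) (.e (nat_lit 638986) (nat_lit 5) (.e (nat_lit 3015) (nat_lit 187) (.e (nat_lit 450562) (nat_lit 0) (.e (nat_lit 5122) (nat_lit 292) (.e (nat_lit 1078) (nat_lit 81) .nil))))))) (.g (nat_lit 5) .nil .nil)))) (.nd (nat_lit 5) 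
(.lf (nat_lit 65566) (.g (nat_lit 1492) (.e (nat_lit 1597) (nat_lit 111) (.e (nat_lit 360473) (nat_lit 8) (.e (nat_lit 557091) (nat_lit 12) (.e (nat_lit 164008) (nat_lit 41) .nil)))) .nil)) 
(.lf (nat_lit 65598) (.g (nat_lit 1614) (.e (nat_lit 1597) (nat_lit 111) (.e (nat_lit 360488) (nat_lit 20) (.e (nat_lit 761868) (nat_lit 5) (.e (nat_lit 1585) (nat_lit 111) (.e (nat_lit 360488) (nat_lit 20) (.e (nat_lit 761869) (nat_lit 5) .nil)))))) (.g (nat_lit 0) .nil .nil)))))))) (.nd (nat_lit 1) (.nd (nat_lit 2) (.nd (nat_lit 3) (.nd (nat_lit 4) (.nd (nat_lit 5) 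
(.lf (nat_lit 65537) (.g (nat_lit 1435) (.e (nat_lit 1597) (nat_lit 111) (.e (nat_lit 360466) (nat_lit 3) (.e (nat_lit 516179) (nat_lit 15) (.e (nat_lit 475218) (nat_lit 44) .nil)))) .nil)) 
(.lf (nat_lit 65569) (.g (nat_lit 2506) (.e (nat_lit 1597) (nat_lit 111) (.e (nat_lit 360473) (nat_lit 8) (.e (nat_lit 557119) (nat_lit 18) (.e (nat_lit 2798) (nat_lit 180) (.e (nat_lit 303124) (nat_lit 7) .nil))))) .nil))) (.nd (nat_lit 5) 
(.lf (nat_lit 65553) (.g (nat_lit 845) (.e (nat_lit 1597) (nat_lit 111) (.e (nat_lit 360470) (nat_lit 6) (.e (nat_lit 540723) (nat_lit 27) (.e (nat_lit 434193) (nat_lit 13) (.e (nat_lit 2580) (nat_lit 161) (.e (nat_lit 40964) (nat_lit 0) .nil)))))) (.g (nat_lit 0) .nil .nil))) 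
(.lf (nat_lit 65585) (.g (nat_lit 1125) (.e (nat_lit 1597) (nat_lit 111) (.e (nat_lit 360486) (nat_lit 18) (.e (nat_lit 671747) (nat_lit 0) (.e (nat_lit 1559) (nat_lit 110) (.e (nat_lit 352270) (nat_lit 8) .nil))))) .nil)))) (.nd (nat_lit 4) (.nd (nat_lit 5) 
(.lf (nat_lit 65545) (.g (nat_lit 504) (.e (nat_lit 1597) (nat_lit 111) (.e (nat_lit 360466) (nat_lit 3) (.e (nat_lit 524032) (nat_lit 24) .nil))) .nil)) 
(.lf (nat_lit 65577) (.g (nat_lit 1732) (.e (nat_lit 1597) (nat_lit 111) (.e (nat_lit 360477) (nat_lit 11) (.e (nat_lit 581651) (nat_lit 4) (.e (nat_lit 172080) (nat_lit 7) (.e (nat_lit 409634) (nat_lit 13) (.e (nat_lit 40962) (nat_lit 0) .nil)))))) (.g (nat_lit 5) .nil .nil)))) (.nd (nat_lit 5) 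
(.lf (nat_lit 65561) (.g (nat_lit 4220) (.e (nat_lit 1597) (nat_lit 111) (.e (nat_lit 360473) (nat_lit 8) (.e (nat_lit 557090) (nat_lit 12) (.e (nat_lit 164020) (nat_lit 45) (.e (nat_lit 696344) (nat_lit 8) (.e (nat_lit 172064) (nat_lit 2) (.e (nat_lit 204544) (nat_lit 9) .nil))))))) (.g (nat_lit 4) .nil .nil))) 
(.lf (nat_lit 65593) (.g (nat_lit 1889) (.e (nat_lit 1597) (nat_lit 111) (.e (nat_lit 360488) (nat_lit 20) (.e (nat_lit 761866) (nat_lit 5) (.e (nat_lit 1597) (nat_lit 111) (.e (nat_lit 360488) (nat_lit 20) (.e (nat_lit 761867) (nat_lit 5) .nil)))))) (.g (nat_lit 0) .nil .nil)))))) (.nd (nat_lit 3) (.nd (nat_lit 4) (.nd (nat_lit 5) 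
(.lf (nat_lit 65541) (.g (nat_lit 3333) (.e (nat_lit 1597) (nat_lit 111) (.e (nat_lit 360466) (nat_lit 3) (.e (nat_lit 516183) (nat_lit 16) (.e (nat_lit 491566) (nat_lit 12) (.e (nat_lit 385075) (nat_lit 32) .nil))))) .nil)) 
(.lf (nat_lit 65573) (.g (nat_lit 844) (.e (nat_lit 1597) (nat_lit 111) (.e (nat_lit 360475) (nat_lit 8) (.e (nat_lit 557119) (nat_lit 18) .nil))) .nil))) (.nd (nat_lit 5) 
(.lf (nat_lit 65557) (.g (nat_lit 1934) (.e (nat_lit 1597) (nat_lit 111) (.e (nat_lit 360473) (nat_lit 8) (.e (nat_lit 557089) (nat_lit 12) (.e (nat_lit 163999) (nat_lit 38) (.e (nat_lit 639020) (nat_lit 16) (.e (nat_lit 65580) (nat_lit 6) (.e (nat_lit 155392) (nat_lit 0) .nil))))))) (.g (nat_lit 4) .nil .nil))) 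
(.lf (nat_lit 65589) (.g (nat_lit 1500) (.e (nat_lit 1597) (nat_lit 111) (.e (nat_lit 360486) (nat_lit 18) (.e (nat_lit 671748) (nat_lit 0) (.e (nat_lit 1595) (nat_lit 111) (.e (nat_lit 360486) (nat_lit 18) (.e (nat_lit 671753) (nat_lit 0) .nil)))))) (.g (nat_lit 4) .nil .nil))))) (.nd (nat_lit 4) (.nd (nat_lit 5) 
(.lf (nat_lit 65549) (.g (nat_lit 1198) (.e (nat_lit 1597) (nat_lit 111) (.e (nat_lit 360470) (nat_lit 6) (.e (nat_lit 540723) (nat_lit 27) (.e (nat_lit 434189) (nat_lit 13) (.e (nat_lit 2579) (nat_lit 161) (.e (nat_lit 40965) (nat_lit 0) .nil)))))) (.g (nat_lit 0) .nil .nil))) 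
(.lf (nat_lit 65581) (.g (nat_lit 1793) (.e (nat_lit 1597) (nat_lit 111) (.e (nat_lit 360480) (nat_lit 14) (.e (nat_lit 638986) (nat_lit 5) (.e (nat_lit 3015) (nat_lit 187) (.e (nat_lit 450562) (nat_lit 0) (.e (nat_lit 5120) (nat_lit 292) (.e (nat_lit 1079) (nat_lit 81) .nil))))))) (.g (nat_lit 5) .nil .nil)))) (.nd (nat_lit 5) 
(.lf (nat_lit 65565) (.g (nat_lit 1826) (.e (nat_lit 1597) (nat_lit 111) (.e (nat_lit 360473) (nat_lit 8) (.e (nat_lit 557091) (nat_lit 12) (.e (nat_lit 164000) (nat_lit 38) .nil)))) .nil)) 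
(.lf (nat_lit 65597) (.g (nat_lit 1922) (.e (nat_lit 1597) (nat_lit 111) (.e (nat_lit 360488) (nat_lit 20) (.e (nat_lit 761867) (nat_lit 5) (.e (nat_lit 1597) (nat_lit 111) (.e (nat_lit 360488) (nat_lit 20) (.e (nat_lit 761869) (nat_lit 5) .nil)))))) (.g (nat_lit 0) .nil .nil))))))) (.nd (nat_lit 2) (.nd (nat_lit 3) (.nd (nat_lit 4) (.nd (nat_lit 5) 
(.lf (nat_lit 65539) (.g (nat_lit 1607) (.e (nat_lit 1597) (nat_lit 111) (.e (nat_lit 360466) (nat_lit 3) (.e (nat_lit 516179) (nat_lit 15) (.e (nat_lit 475220) (nat_lit 44) (.e (nat_lit 737303) (nat_lit 11) .nil))))) .nil)) 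
(.lf (nat_lit 65571) (.g (nat_lit 1938) (.e (nat_lit 1597) (nat_lit 111) (.e (nat_lit 360474) (nat_lit 8) (.e (nat_lit 557091) (nat_lit 12) (.e (nat_lit 163999) (nat_lit 38) .nil)))) .nil))) (.nd (nat_lit 5) 
(.lf (nat_lit 65555) (.g (nat_lit 1408) (.e (nat_lit 1597) (nat_lit 111) (.e (nat_lit 360473) (nat_lit 8) (.e (nat_lit 557089) (nat_lit 12) (.e (nat_lit 163999) (nat_lit 38) .nil)))) .nil)) 
(.lf (nat_lit 65587) (.g (nat_lit 1542) (.e (nat_lit 1597) (nat_lit 111) (.e (nat_lit 360486) (nat_lit 18) (.e (nat_lit 671748) (nat_lit 0) (.e (nat_lit 1586) (nat_lit 111) (.e (nat_lit 360486) (nat_lit 18) (.e (nat_lit 671753) (nat_lit 0) .nil)))))) (.g (nat_lit 4) .nil .nil))))) (.nd (nat_lit 4) (.nd (nat_lit 5) 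
(.lf (nat_lit 65547) (.g (nat_lit 1166) (.e (nat_lit 1597) (nat_lit 111) (.e (nat_lit 368384) (nat_lit 5) (.e (nat_lit 532579) (nat_lit 26) (.e (nat_lit 426181) (nat_lit 8) (.e (nat_lit 417824) (nat_lit 13) (.e (nat_lit 40964) (nat_lit 0) .nil)))))) (.g (nat_lit 5) .nil .nil))) 
(.lf (nat_lit 65579) (.g (nat_lit 1528) (.e (nat_lit 1597) (nat_lit 111) (.e (nat_lit 360477) (nat_lit 11) (.e (nat_lit 581651) (nat_lit 4) (.e (nat_lit 172082) (nat_lit 7) (.e (nat_lit 409633) (nat_lit 13) (.e (nat_lit 40965) (nat_lit 0) .nil)))))) (.g (nat_lit 4) .nil .nil)))) (.nd (nat_lit 5) 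
(.lf (nat_lit 65563) (.g (nat_lit 3284) (.e (nat_lit 1597) (nat_lit 111) (.e (nat_lit 360473) (nat_lit 8) (.e (nat_lit 557091) (nat_lit 12) (.e (nat_lit 163999) (nat_lit 38) (.e (nat_lit 639020) (nat_lit 16) (.e (nat_lit 65580) (nat_lit 6) (.e (nat_lit 147458) (nat_lit 0) .nil))))))) (.g (nat_lit 5) .nil .nil))) 
(.lf (nat_lit 65595) (.g (nat_lit 1402) (.e (nat_lit 1597) (nat_lit 111) (.e (nat_lit 360488) (nat_lit 20) (.e (nat_lit 761867) (nat_lit 5) (.e (nat_lit 1454) (nat_lit 108) (.e (nat_lit 336179) (nat_lit 10) (.e (nat_lit 344174) (nat_lit 42) (.e (nat_lit 761868) (nat_lit 5) .nil))))))) (.g (nat_lit 4) .nil .nil)))))) (.nd (nat_lit 3) (.nd (nat_lit 4) (.nd (nat_lit 5) 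
(.lf (nat_lit 65543) (.g (nat_lit 886) (.e (nat_lit 1597) (nat_lit 111) (.e (nat_lit 360466) (nat_lit 3) (.e (nat_lit 516191) (nat_lit 17) (.e (nat_lit 6207) (nat_lit 333) .nil)))) .nil)) 
(.lf (nat_lit 65575) (.g (nat_lit 323) (.e (nat_lit 1597) (nat_lit 111) (.e (nat_lit 360477) (nat_lit 11) (.e (nat_lit 581651) (nat_lit 4) .nil))) .nil))) (.nd (nat_lit 5) 
(.lf (nat_lit 65559) (.g (nat_lit 1427) (.e (nat_lit 1597) (nat_lit 111) (.e (nat_lit 360473) (nat_lit 8) (.e (nat_lit 557090) (nat_lit 12) .nil))) .nil)) 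
(.lf (nat_lit 65591) (.g (nat_lit 1513) (.e (nat_lit 1597) (nat_lit 111) (.e (nat_lit 360488) (nat_lit 20) (.e (nat_lit 761866) (nat_lit 5) (.e (nat_lit 1454) (nat_lit 108) (.e (nat_lit 336179) (nat_lit 10) (.e (nat_lit 344174) (nat_lit 42) (.e (nat_lit 761868) (nat_lit 5) .nil))))))) (.g (nat_lit 4) .nil .nil))))) (.nd (nat_lit 4) (.nd (nat_lit 5) 
(.lf (nat_lit 65551) (.g (nat_lit 1159) (.e (nat_lit 1597) (nat_lit 111) (.e (nat_lit 360470) (nat_lit 6) (.e (nat_lit 540723) (nat_lit 27) (.e (nat_lit 434189) (nat_lit 13) (.e (nat_lit 2580) (nat_lit 161) (.e (nat_lit 40965) (nat_lit 0) .nil)))))) (.g (nat_lit 0) .nil .nil))) 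
(.lf (nat_lit 65583) (.g (nat_lit 2166) (.e (nat_lit 1597) (nat_lit 111) (.e (nat_lit 360480) (nat_lit 14) (.e (nat_lit 638986) (nat_lit 5) (.e (nat_lit 3015) (nat_lit 187) (.e (nat_lit 450562) (nat_lit 0) (.e (nat_lit 5122) (nat_lit 292) (.e (nat_lit 1079) (nat_lit 81) .nil))))))) (.g (nat_lit 5) .nil .nil)))) (.nd (nat_lit 5) 
(.lf (nat_lit 65567) (.g (nat_lit 535) (.e (nat_lit 1597) (nat_lit 111) (.e (nat_lit 360473) (nat_lit 8) (.e (nat_lit 557119) (nat_lit 18) .nil))) .nil)) 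
(.lf (nat_lit 65599) (.g (nat_lit 2063) (.e (nat_lit 1597) (nat_lit 111) (.e (nat_lit 360488) (nat_lit 20) (.e (nat_lit 761868) (nat_lit 5) (.e (nat_lit 1597) (nat_lit 111) (.e (nat_lit 360488) (nat_lit 20) (.e (nat_lit 761869) (nat_lit 5) .nil)))))) (.g (nat_lit 0) .nil .nil)))))))))

noncomputable def tv903 : DT := (.nd (nat_lit 0) (.nd (nat_lit 1) (.nd (nat_lit 2) (.nd (nat_lit 3) (.nd (nat_lit 4) (.nd (nat_lit 5) 
(.lf (nat_lit 65600) (.g (nat_lit 1705) (.e (nat_lit 1597) (nat_lit 111) (.e (nat_lit 360488) (nat_lit 20) (.e (nat_lit 761869) (nat_lit 5) (.e (nat_lit 1585) (nat_lit 111) (.e (nat_lit 360488) (nat_lit 20) (.e (nat_lit 761869) (nat_lit 5) .nil)))))) (.g (nat_lit 0) .nil .nil))) 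
(.lf (nat_lit 65632) (.g (nat_lit 2396) (.e (nat_lit 1597) (nat_lit 111) (.e (nat_lit 360489) (nat_lit 21) (.e (nat_lit 770071) (nat_lit 8) (.e (nat_lit 65617) (nat_lit 10) (.e (nat_lit 344174) (nat_lit 42) (.e (nat_lit 761869) (nat_lit 5) .nil)))))) (.g (nat_lit 6) .nil .nil)))) (.nd (nat_lit 5) 
(.lf (nat_lit 65616) (.g (nat_lit 1356) (.e (nat_lit 1597) (nat_lit 111) (.e (nat_lit 360489) (nat_lit 21) (.e (nat_lit 770071) (nat_lit 8) (.e (nat_lit 65610) (nat_lit 10) (.e (nat_lit 344173) (nat_lit 42) (.e (nat_lit 761867) (nat_lit 5) .nil)))))) (.g (nat_lit 4) .nil .nil))) 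
(.lf (nat_lit 65648) (.g (nat_lit 2237) (.e (nat_lit 1597) (nat_lit 111) (.e (nat_lit 360489) (nat_lit 21) (.e (nat_lit 770072) (nat_lit 8) (.e (nat_lit 65611) (nat_lit 10) (.e (nat_lit 344174) (nat_lit 42) (.e (nat_lit 761866) (nat_lit 5) .nil)))))) (.g (nat_lit 0) .nil .nil))))) (.nd (nat_lit 4) (.nd (nat_lit 5) 
(.lf (nat_lit 65608) (.g (nat_lit 1469) (.e (nat_lit 1597) (nat_lit 111) (.e (nat_lit 360489) (nat_lit 21) (.e (nat_lit 770057) (nat_lit 5) (.e (nat_lit 1599) (nat_lit 111) (.e (nat_lit 360488) (nat_lit 20) (.e (nat_lit 761867) (nat_lit 5) .nil)))))) (.g (nat_lit 6) .nil .nil))) 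
(.lf (nat_lit 65640) (.g (nat_lit 1943) (.e (nat_lit 1597) (nat_lit 111) (.e (nat_lit 360489) (nat_lit 21) (.e (nat_lit 770072) (nat_lit 8) (.e (nat_lit 65598) (nat_lit 9) (.e (nat_lit 335886) (nat_lit 0) (.e (nat_lit 2270) (nat_lit 149) (.e (nat_lit 761868) (nat_lit 5) .nil))))))) (.g (nat_lit 5) .nil .nil)))) (.nd (nat_lit 5) 
(.lf (nat_lit 65624) (.g (nat_lit 1958) (.e (nat_lit 1597) (nat_lit 111) (.e (nat_lit 360489) (nat_lit 21) (.e (nat_lit 770071) (nat_lit 8) (.e (nat_lit 65611) (nat_lit 10) (.e (nat_lit 344174) (nat_lit 42) (.e (nat_lit 761867) (nat_lit 5) .nil)))))) (.g (nat_lit 5) .nil .nil))) 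
(.lf (nat_lit 65656) (.g (nat_lit 2345) (.e (nat_lit 1597) (nat_lit 111) (.e (nat_lit 360489) (nat_lit 21) (.e (nat_lit 770072) (nat_lit 8) (.e (nat_lit 65617) (nat_lit 10) (.e (nat_lit 344174) (nat_lit 42) (.e (nat_lit 761869) (nat_lit 5) .nil)))))) (.g (nat_lit 6) .nil .nil)))))) (.nd (nat_lit 3) (.nd (nat_lit 4) (.nd (nat_lit 5) 
(.lf (nat_lit 65604) (.g (nat_lit 1587) (.e (nat_lit 1597) (nat_lit 111) (.e (nat_lit 360489) (nat_lit 21) (.e (nat_lit 770056) (nat_lit 5) (.e (nat_lit 1598) (nat_lit 111) (.e (nat_lit 360488) (nat_lit 20) (.e (nat_lit 761867) (nat_lit 5) .nil)))))) (.g (nat_lit 0) .nil .nil))) 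
(.lf (nat_lit 65636) (.g (nat_lit 2337) (.e (nat_lit 1597) (nat_lit 111) (.e (nat_lit 360489) (nat_lit 21) (.e (nat_lit 770071) (nat_lit 8) (.e (nat_lit 65620) (nat_lit 10) (.e (nat_lit 344174) (nat_lit 42) (.e (nat_lit 761866) (nat_lit 5) .nil)))))) (.g (nat_lit 0) .nil .nil)))) (.nd (nat_lit 5) 
(.lf (nat_lit 65620) (.g (nat_lit 2266) (.e (nat_lit 1597) (nat_lit 111) (.e (nat_lit 360489) (nat_lit 21) (.e (nat_lit 770071) (nat_lit 8) (.e (nat_lit 65610) (nat_lit 10) (.e (nat_lit 344174) (nat_lit 42) (.e (nat_lit 761867) (nat_lit 5) .nil)))))) (.g (nat_lit 0) .nil .nil))) 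
(.lf (nat_lit 65652) (.g (nat_lit 2018) (.e (nat_lit 1597) (nat_lit 111) (.e (nat_lit 360489) (nat_lit 21) (.e (nat_lit 770072) (nat_lit 8) (.e (nat_lit 65616) (nat_lit 10) (.e (nat_lit 344174) (nat_lit 42) (.e (nat_lit 761867) (nat_lit 5) .nil)))))) (.g (nat_lit 0) .nil .nil))))) (.nd (nat_lit 4) (.nd (nat_lit 5) 
(.lf (nat_lit 65612) (.g (nat_lit 834) (.e (nat_lit 1597) (nat_lit 111) (.e (nat_lit 360489) (nat_lit 21) (.e (nat_lit 770070) (nat_lit 8) (.e (nat_lit 65619) (nat_lit 10) (.e (nat_lit 344174) (nat_lit 42) .nil))))) .nil)) 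
(.lf (nat_lit 65644) (.g (nat_lit 1805) (.e (nat_lit 1597) (nat_lit 111) (.e (nat_lit 360489) (nat_lit 21) (.e (nat_lit 770072) (nat_lit 8) (.e (nat_lit 65610) (nat_lit 10) (.e (nat_lit 344173) (nat_lit 42) (.e (nat_lit 761867) (nat_lit 5) .nil)))))) (.g (nat_lit 5) .nil .nil)))) (.nd (nat_lit 5) 
(.lf (nat_lit 65628) (.g (nat_lit 1946) (.e (nat_lit 1597) (nat_lit 111) (.e (nat_lit 360489) (nat_lit 21) (.e (nat_lit 770071) (nat_lit 8) (.e (nat_lit 65616) (nat_lit 10) (.e (nat_lit 344174) (nat_lit 42) (.e (nat_lit 761867) (nat_lit 5) .nil)))))) (.g (nat_lit 6) .nil .nil))) 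
(.lf (nat_lit 65660) (.g (nat_lit 2107) (.e (nat_lit 1597) (nat_lit 111) (.e (nat_lit 360489) (nat_lit 21) (.e (nat_lit 770072) (nat_lit 8) (.e (nat_lit 65620) (nat_lit 10) (.e (nat_lit 344174) (nat_lit 42) (.e (nat_lit 761867) (nat_lit 5) .nil)))))) (.g (nat_lit 0) .nil .nil))))))) (.nd (nat_lit 2) (.nd (nat_lit 3) (.nd (nat_lit 4) (.nd (nat_lit 5) 
(.lf (nat_lit 65602) (.g (nat_lit 1057) (.e (nat_lit 1597) (nat_lit 111) (.e (nat_lit 360489) (nat_lit 21) (.e (nat_lit 770055) (nat_lit 5) (.e (nat_lit 1595) (nat_lit 111) (.e (nat_lit 360488) (nat_lit 20) .nil))))) .nil)) 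
(.lf (nat_lit 65634) (.g (nat_lit 2427) (.e (nat_lit 1597) (nat_lit 111) (.e (nat_lit 360489) (nat_lit 21) (.e (nat_lit 770071) (nat_lit 8) (.e (nat_lit 65619) (nat_lit 10) (.e (nat_lit 344174) (nat_lit 42) (.e (nat_lit 761867) (nat_lit 5) .nil)))))) (.g (nat_lit 6) .nil .nil)))) (.nd (nat_lit 5) 
(.lf (nat_lit 65618) (.g (nat_lit 1688) (.e (nat_lit 1597) (nat_lit 111) (.e (nat_lit 360489) (nat_lit 21) (.e (nat_lit 770071) (nat_lit 8) (.e (nat_lit 65610) (nat_lit 10) (.e (nat_lit 344173) (nat_lit 42) (.e (nat_lit 761869) (nat_lit 5) .nil)))))) (.g (nat_lit 4) .nil .nil))) 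
(.lf (nat_lit 65650) (.g (nat_lit 2066) (.e (nat_lit 1597) (nat_lit 111) (.e (nat_lit 360489) (nat_lit 21) (.e (nat_lit 770072) (nat_lit 8) (.e (nat_lit 65611) (nat_lit 10) (.e (nat_lit 344174) (nat_lit 42) (.e (nat_lit 761868) (nat_lit 5) .nil)))))) (.g (nat_lit 0) .nil .nil))))) (.nd (nat_lit 4) (.nd (nat_lit 5) 
(.lf (nat_lit 65610) (.g (nat_lit 1684) (.e (nat_lit 1597) (nat_lit 111) (.e (nat_lit 360489) (nat_lit 21) (.e (nat_lit 770058) (nat_lit 5) (.e (nat_lit 1598) (nat_lit 111) (.e (nat_lit 360488) (nat_lit 20) (.e (nat_lit 761867) (nat_lit 5) .nil)))))) (.g (nat_lit 0) .nil .nil))) 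
(.lf (nat_lit 65642) (.g (nat_lit 1606) (.e (nat_lit 1597) (nat_lit 111) (.e (nat_lit 360489) (nat_lit 21) (.e (nat_lit 770072) (nat_lit 8) (.e (nat_lit 65598) (nat_lit 9) (.e (nat_lit 335938) (nat_lit 0) (.e (nat_lit 2270) (nat_lit 149) (.e (nat_lit 761868) (nat_lit 5) .nil))))))) (.g (nat_lit 4) .nil .nil)))) (.nd (nat_lit 5) 
(.lf (nat_lit 65626) (.g (nat_lit 2149) (.e (nat_lit 1597) (nat_lit 111) (.e (nat_lit 360489) (nat_lit 21) (.e (nat_lit 770071) (nat_lit 8) (.e (nat_lit 65611) (nat_lit 10) (.e (nat_lit 344174) (nat_lit 42) (.e (nat_lit 761869) (nat_lit 5) .nil)))))) (.g (nat_lit 6) .nil .nil))) 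
(.lf (nat_lit 65658) (.g (nat_lit 2650) (.e (nat_lit 1597) (nat_lit 111) (.e (nat_lit 360489) (nat_lit 21) (.e (nat_lit 770072) (nat_lit 8) (.e (nat_lit 65619) (nat_lit 10) (.e (nat_lit 344174) (nat_lit 42) (.e (nat_lit 761866) (nat_lit 5) .nil)))))) (.g (nat_lit 0) .nil .nil)))))) (.nd (nat_lit 3) (.nd (nat_lit 4) (.nd (nat_lit 5) 
(.lf (nat_lit 65606) (.g (nat_lit 1759) (.e (nat_lit 1597) (nat_lit 111) (.e (nat_lit 360489) (nat_lit 21) (.e (nat_lit 770057) (nat_lit 5) (.e (nat_lit 1598) (nat_lit 111) (.e (nat_lit 360488) (nat_lit 20) (.e (nat_lit 761866) (nat_lit 5) .nil)))))) (.g (nat_lit 0) .nil .nil))) 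
(.lf (nat_lit 65638) (.g (nat_lit 2110) (.e (nat_lit 1597) (nat_lit 111) (.e (nat_lit 360489) (nat_lit 21) (.e (nat_lit 770071) (nat_lit 8) (.e (nat_lit 65620) (nat_lit 10) (.e (nat_lit 344174) (nat_lit 42) (.e (nat_lit 761869) (nat_lit 5) .nil)))))) (.g (nat_lit 6) .nil .nil)))) (.nd (nat_lit 5) 
(.lf (nat_lit 65622) (.g (nat_lit 2417) (.e (nat_lit 1597) (nat_lit 111) (.e (nat_lit 360489) (nat_lit 21) (.e (nat_lit 770071) (nat_lit 8) (.e (nat_lit 65610) (nat_lit 10) (.e (nat_lit 344174) (nat_lit 42) (.e (nat_lit 761869) (nat_lit 5) .nil)))))) (.g (nat_lit 0) .nil .nil))) 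
(.lf (nat_lit 65654) (.g (nat_lit 2325) (.e (nat_lit 1597) (nat_lit 111) (.e (nat_lit 360489) (nat_lit 21) (.e (nat_lit 770072) (nat_lit 8) (.e (nat_lit 65617) (nat_lit 10) (.e (nat_lit 344174) (nat_lit 42) (.e (nat_lit 761867) (nat_lit 5) .nil)))))) (.g (nat_lit 0) .nil .nil))))) (.nd (nat_lit 4) (.nd (nat_lit 5) 
(.lf (nat_lit 65614) (.g (nat_lit 755) (.e (nat_lit 1597) (nat_lit 111) (.e (nat_lit 360489) (nat_lit 21) (.e (nat_lit 770071) (nat_lit 8) (.e (nat_lit 65609) (nat_lit 10) .nil)))) .nil)) 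
(.lf (nat_lit 65646) (.g (nat_lit 2543) (.e (nat_lit 1597) (nat_lit 111) (.e (nat_lit 360489) (nat_lit 21) (.e (nat_lit 770072) (nat_lit 8) (.e (nat_lit 65610) (nat_lit 10) (.e (nat_lit 344174) (nat_lit 42) (.e (nat_lit 761866) (nat_lit 5) .nil)))))) (.g (nat_lit 0) .nil .nil)))) (.nd (nat_lit 5) 
(.lf (nat_lit 65630) (.g (nat_lit 2082) (.e (nat_lit 1597) (nat_lit 111) (.e (nat_lit 360489) (nat_lit 21) (.e (nat_lit 770071) (nat_lit 8) (.e (nat_lit 65616) (nat_lit 10) (.e (nat_lit 344174) (nat_lit 42) (.e (nat_lit 761869) (nat_lit 5) .nil)))))) (.g (nat_lit 6) .nil .nil))) 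
(.lf (nat_lit 65662) (.g (nat_lit 2156) (.e (nat_lit 1597) (nat_lit 111) (.e (nat_lit 360489) (nat_lit 21) (.e (nat_lit 770072) (nat_lit 8) (.e (nat_lit 65620) (nat_lit 10) (.e (nat_lit 344174) (nat_lit 42) (.e (nat_lit 761869) (nat_lit 5) .nil)))))) (.g (nat_lit 6) .nil .nil)))))))) (.nd (nat_lit 1) (.nd (nat_lit 2) (.nd (nat_lit 3) (.nd (nat_lit 4) (.nd (nat_lit 5) 
(.lf (nat_lit 65601) (.g (nat_lit 2072) (.e (nat_lit 1597) (nat_lit 111) (.e (nat_lit 360488) (nat_lit 20) (.e (nat_lit 761869) (nat_lit 5) (.e (nat_lit 1597) (nat_lit 111) (.e (nat_lit 360488) (nat_lit 20) (.e (nat_lit 761869) (nat_lit 5) .nil)))))) (.g (nat_lit 0) .nil .nil))) 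
(.lf (nat_lit 65633) (.g (nat_lit 2638) (.e (nat_lit 1597) (nat_lit 111) (.e (nat_lit 360489) (nat_lit 21) (.e (nat_lit 770071) (nat_lit 8) (.e (nat_lit 65619) (nat_lit 10) (.e (nat_lit 344174) (nat_lit 42) (.e (nat_lit 761866) (nat_lit 5) .nil)))))) (.g (nat_lit 6) .nil .nil)))) (.nd (nat_lit 5) 
(.lf (nat_lit 65617) (.g (nat_lit 1563) (.e (nat_lit 1597) (nat_lit 111) (.e (nat_lit 360489) (nat_lit 21) (.e (nat_lit 770071) (nat_lit 8) (.e (nat_lit 65610) (nat_lit 10) (.e (nat_lit 344173) (nat_lit 42) (.e (nat_lit 761868) (nat_lit 5) .nil)))))) (.g (nat_lit 4) .nil .nil))) 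
(.lf (nat_lit 65649) (.g (nat_lit 1987) (.e (nat_lit 1597) (nat_lit 111) (.e (nat_lit 360489) (nat_lit 21) (.e (nat_lit 770072) (nat_lit 8) (.e (nat_lit 65611) (nat_lit 10) (.e (nat_lit 344174) (nat_lit 42) (.e (nat_lit 761867) (nat_lit 5) .nil)))))) (.g (nat_lit 6) .nil .nil))))) (.nd (nat_lit 4) (.nd (nat_lit 5) 
(.lf (nat_lit 65609) (.g (nat_lit 1804) (.e (nat_lit 1597) (nat_lit 111) (.e (nat_lit 360489) (nat_lit 21) (.e (nat_lit 770058) (nat_lit 5) (.e (nat_lit 1595) (nat_lit 111) (.e (nat_lit 360488) (nat_lit 20) (.e (nat_lit 761867) (nat_lit 5) .nil)))))) (.g (nat_lit 6) .nil .nil))) 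
(.lf (nat_lit 65641) (.g (nat_lit 2275) (.e (nat_lit 1597) (nat_lit 111) (.e (nat_lit 360489) (nat_lit 21) (.e (nat_lit 770072) (nat_lit 8) (.e (nat_lit 65598) (nat_lit 9) (.e (nat_lit 335921) (nat_lit 0) (.e (nat_lit 2270) (nat_lit 149) (.e (nat_lit 761868) (nat_lit 5) .nil))))))) (.g (nat_lit 6) .nil .nil)))) (.nd (nat_lit 5) 
(.lf (nat_lit 65625) (.g (nat_lit 2037) (.e (nat_lit 1597) (nat_lit 111) (.e (nat_lit 360489) (nat_lit 21) (.e (nat_lit 770071) (nat_lit 8) (.e (nat_lit 65611) (nat_lit 10) (.e (nat_lit 344174) (nat_lit 42) (.e (nat_lit 761868) (nat_lit 5) .nil)))))) (.g (nat_lit 6) .nil .nil))) 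
(.lf (nat_lit 65657) (.g (nat_lit 1353) (.e (nat_lit 1597) (nat_lit 111) (.e (nat_lit 360489) (nat_lit 21) (.e (nat_lit 770072) (nat_lit 8) (.e (nat_lit 65619) (nat_lit 10) (.e (nat_lit 344173) (nat_lit 42) .nil))))) .nil))))) (.nd (nat_lit 3) (.nd (nat_lit 4) (.nd (nat_lit 5) 
(.lf (nat_lit 65605) (.g (nat_lit 1839) (.e (nat_lit 1597) (nat_lit 111) (.e (nat_lit 360489) (nat_lit 21) (.e (nat_lit 770057) (nat_lit 5) (.e (nat_lit 1595) (nat_lit 111) (.e (nat_lit 360488) (nat_lit 20) (.e (nat_lit 761867) (nat_lit 5) .nil)))))) (.g (nat_lit 6) .nil .nil))) 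
(.lf (nat_lit 65637) (.g (nat_lit 2068) (.e (nat_lit 1597) (nat_lit 111) (.e (nat_lit 360489) (nat_lit 21) (.e (nat_lit 770071) (nat_lit 8) (.e (nat_lit 65620) (nat_lit 10) (.e (nat_lit 344174) (nat_lit 42) (.e (nat_lit 761867) (nat_lit 5) .nil)))))) (.g (nat_lit 0) .nil .nil)))) (.nd (nat_lit 5) 
(.lf (nat_lit 65621) (.g (nat_lit 2301) (.e (nat_lit 1597) (nat_lit 111) (.e (nat_lit 360489) (nat_lit 21) (.e (nat_lit 770071) (nat_lit 8) (.e (nat_lit 65610) (nat_lit 10) (.e (nat_lit 344174) (nat_lit 42) (.e (nat_lit 761868) (nat_lit 5) .nil)))))) (.g (nat_lit 0) .nil .nil))) 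
(.lf (nat_lit 65653) (.g (nat_lit 2043) (.e (nat_lit 1597) (nat_lit 111) (.e (nat_lit 360489) (nat_lit 21) (.e (nat_lit 770072) (nat_lit 8) (.e (nat_lit 65616) (nat_lit 10) (.e (nat_lit 344174) (nat_lit 42) (.e (nat_lit 761868) (nat_lit 5) .nil)))))) (.g (nat_lit 0) .nil .nil))))) (.nd (nat_lit 4) (.nd (nat_lit 5) 
(.lf (nat_lit 65613) (.g (nat_lit 1430) (.e (nat_lit 1597) (nat_lit 111) (.e (nat_lit 360489) (nat_lit 21) (.e (nat_lit 770071) (nat_lit 8) (.e (nat_lit 65598) (nat_lit 9) (.e (nat_lit 335921) (nat_lit 0) (.e (nat_lit 2270) (nat_lit 149) (.e (nat_lit 761868) (nat_lit 5) .nil))))))) (.g (nat_lit 4) .nil .nil))) 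
(.lf (nat_lit 65645) (.g (nat_lit 2145) (.e (nat_lit 1597) (nat_lit 111) (.e (nat_lit 360489) (nat_lit 21) (.e (nat_lit 770072) (nat_lit 8) (.e (nat_lit 65610) (nat_lit 10) (.e (nat_lit 344173) (nat_lit 42) (.e (nat_lit 761869) (nat_lit 5) .nil)))))) (.g (nat_lit 0) .nil .nil)))) (.nd (nat_lit 5) 
(.lf (nat_lit 65629) (.g (nat_lit 1993) (.e (nat_lit 1597) (nat_lit 111) (.e (nat_lit 360489) (nat_lit 21) (.e (nat_lit 770071) (nat_lit 8) (.e (nat_lit 65616) (nat_lit 10) (.e (nat_lit 344174) (nat_lit 42) (.e (nat_lit 761868) (nat_lit 5) .nil)))))) (.g (nat_lit 6) .nil .nil))) 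
(.lf (nat_lit 65661) (.g (nat_lit 2170) (.e (nat_lit 1597) (nat_lit 111) (.e (nat_lit 360489) (nat_lit 21) (.e (nat_lit 770072) (nat_lit 8) (.e (nat_lit 65620) (nat_lit 10) (.e (nat_lit 344174) (nat_lit 42) (.e (nat_lit 761868) (nat_lit 5) .nil)))))) (.g (nat_lit 0) .nil .nil))))))) (.nd (nat_lit 2) (.nd (nat_lit 3) (.nd (nat_lit 4) (.nd (nat_lit 5) 
(.lf (nat_lit 65603) (.g (nat_lit 1632) (.e (nat_lit 1597) (nat_lit 111) (.e (nat_lit 360489) (nat_lit 21) (.e (nat_lit 770055) (nat_lit 5) (.e (nat_lit 1598) (nat_lit 111) (.e (nat_lit 360488) (nat_lit 20) (.e (nat_lit 761867) (nat_lit 5) .nil)))))) (.g (nat_lit 0) .nil .nil))) 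
(.lf (nat_lit 65635) (.g (nat_lit 2545) (.e (nat_lit 1597) (nat_lit 111) (.e (nat_lit 360489) (nat_lit 21) (.e (nat_lit 770071) (nat_lit 8) (.e (nat_lit 65619) (nat_lit 10) (.e (nat_lit 344174) (nat_lit 42) (.e (nat_lit 761869) (nat_lit 5) .nil)))))) (.g (nat_lit 6) .nil .nil)))) (.nd (nat_lit 5) 
(.lf (nat_lit 65619) (.g (nat_lit 2504) (.e (nat_lit 1597) (nat_lit 111) (.e (nat_lit 360489) (nat_lit 21) (.e (nat_lit 770071) (nat_lit 8) (.e (nat_lit 65610) (nat_lit 10) (.e (nat_lit 344174) (nat_lit 42) (.e (nat_lit 761866) (nat_lit 5) .nil)))))) (.g (nat_lit 0) .nil .nil))) 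
(.lf (nat_lit 65651) (.g (nat_lit 2219) (.e (nat_lit 1597) (nat_lit 111) (.e (nat_lit 360489) (nat_lit 21) (.e (nat_lit 770072) (nat_lit 8) (.e (nat_lit 65616) (nat_lit 10) (.e (nat_lit 344174) (nat_lit 42) (.e (nat_lit 761866) (nat_lit 5) .nil)))))) (.g (nat_lit 0) .nil .nil))))) (.nd (nat_lit 4) (.nd (nat_lit 5) 
(.lf (nat_lit 65611) (.g (nat_lit 1482) (.e (nat_lit 1597) (nat_lit 111) (.e (nat_lit 360489) (nat_lit 21) (.e (nat_lit 770058) (nat_lit 5) (.e (nat_lit 1599) (nat_lit 111) (.e (nat_lit 360488) (nat_lit 20) (.e (nat_lit 761867) (nat_lit 5) .nil)))))) (.g (nat_lit 6) .nil .nil))) 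
(.lf (nat_lit 65643) (.g (nat_lit 1324) (.e (nat_lit 1597) (nat_lit 111) (.e (nat_lit 360489) (nat_lit 21) (.e (nat_lit 770072) (nat_lit 8) (.e (nat_lit 65609) (nat_lit 10) (.e (nat_lit 344174) (nat_lit 42) (.e (nat_lit 761868) (nat_lit 5) .nil)))))) (.g (nat_lit 4) .nil .nil)))) (.nd (nat_lit 5) 
(.lf (nat_lit 65627) (.g (nat_lit 2147) (.e (nat_lit 1597) (nat_lit 111) (.e (nat_lit 360489) (nat_lit 21) (.e (nat_lit 770071) (nat_lit 8) (.e (nat_lit 65616) (nat_lit 10) (.e (nat_lit 344174) (nat_lit 42) (.e (nat_lit 761866) (nat_lit 5) .nil)))))) (.g (nat_lit 6) .nil .nil))) 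
(.lf (nat_lit 65659) (.g (nat_lit 2450) (.e (nat_lit 1597) (nat_lit 111) (.e (nat_lit 360489) (nat_lit 21) (.e (nat_lit 770072) (nat_lit 8) (.e (nat_lit 65619) (nat_lit 10) (.e (nat_lit 344174) (nat_lit 42) (.e (nat_lit 761867) (nat_lit 5) .nil)))))) (.g (nat_lit 0) .nil .nil)))))) (.nd (nat_lit 3) (.nd (nat_lit 4) (.nd (nat_lit 5) 
(.lf (nat_lit 65607) (.g (nat_lit 1629) (.e (nat_lit 1597) (nat_lit 111) (.e (nat_lit 360489) (nat_lit 21) (.e (nat_lit 770057) (nat_lit 5) (.e (nat_lit 1598) (nat_lit 111) (.e (nat_lit 360488) (nat_lit 20) (.e (nat_lit 761867) (nat_lit 5) .nil)))))) (.g (nat_lit 0) .nil .nil))) 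
(.lf (nat_lit 65639) (.g (nat_lit 728) (.e (nat_lit 1597) (nat_lit 111) (.e (nat_lit 360489) (nat_lit 21) (.e (nat_lit 770072) (nat_lit 8) (.e (nat_lit 65598) (nat_lit 9) .nil)))) .nil))) (.nd (nat_lit 5) 
(.lf (nat_lit 65623) (.g (nat_lit 2212) (.e (nat_lit 1597) (nat_lit 111) (.e (nat_lit 360489) (nat_lit 21) (.e (nat_lit 770071) (nat_lit 8) (.e (nat_lit 65611) (nat_lit 10) (.e (nat_lit 344174) (nat_lit 42) (.e (nat_lit 761866) (nat_lit 5) .nil)))))) (.g (nat_lit 6) .nil .nil))) 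
(.lf (nat_lit 65655) (.g (nat_lit 2375) (.e (nat_lit 1597) (nat_lit 111) (.e (nat_lit 360489) (nat_lit 21) (.e (nat_lit 770072) (nat_lit 8) (.e (nat_lit 65617) (nat_lit 10) (.e (nat_lit 344174) (nat_lit 42) (.e (nat_lit 761868) (nat_lit 5) .nil)))))) (.g (nat_lit 0) .nil .nil))))) (.nd (nat_lit 4) (.nd (nat_lit 5) 
(.lf (nat_lit 65615) (.g (nat_lit 1561) (.e (nat_lit 1597) (nat_lit 111) (.e (nat_lit 360489) (nat_lit 21) (.e (nat_lit 770071) (nat_lit 8) (.e (nat_lit 65610) (nat_lit 10) (.e (nat_lit 344173) (nat_lit 42) (.e (nat_lit 761866) (nat_lit 5) .nil)))))) (.g (nat_lit 4) .nil .nil))) 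
(.lf (nat_lit 65647) (.g (nat_lit 2289) (.e (nat_lit 1597) (nat_lit 111) (.e (nat_lit 360489) (nat_lit 21) (.e (nat_lit 770072) (nat_lit 8) (.e (nat_lit 65610) (nat_lit 10) (.e (nat_lit 344174) (nat_lit 42) (.e (nat_lit 761867) (nat_lit 5) .nil)))))) (.g (nat_lit 0) .nil .nil)))) (.nd (nat_lit 5) 
(.lf (nat_lit 65631) (.g (nat_lit 2390) (.e (nat_lit 1597) (nat_lit 111) (.e (nat_lit 360489) (nat_lit 21) (.e (nat_lit 770071) (nat_lit 8) (.e (nat_lit 65617) (nat_lit 10) (.e (nat_lit 344174) (nat_lit 42) (.e (nat_lit 761867) (nat_lit 5) .nil)))))) (.g (nat_lit 0) .nil .nil))) 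
(.lf (nat_lit 65663) (.g (nat_lit 1775) (.e (nat_lit 1597) (nat_lit 111) (.e (nat_lit 360489) (nat_lit 21) (.e (nat_lit 770074) (nat_lit 10) (.e (nat_lit 81928) (nat_lit 20) (.e (nat_lit 2270) (nat_lit 149) (.e (nat_lit 761868) (nat_lit 5) .nil)))))) (.g (nat_lit 5) .nil .nil)))))))))

noncomputable def tv904 : DT := (.nd (nat_lit 0) (.nd (nat_lit 1) (.nd (nat_lit 2) (.nd (nat_lit 3) (.nd (nat_lit 4) (.nd (nat_lit 5) 
(.lf (nat_lit 65664) (.g (nat_lit 2683) (.e (nat_lit 1597) (nat_lit 111) (.e (nat_lit 360489) (nat_lit 21) (.e (nat_lit 770074) (nat_lit 10) (.e (nat_lit 81938) (nat_lit 20) (.e (nat_lit 2270) (nat_lit 149) (.e (nat_lit 761868) (nat_lit 5) .nil)))))) (.g (nat_lit 0) .nil .nil))) 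
(.lf (nat_lit 65696) (.g (nat_lit 2033) (.e (nat_lit 1597) (nat_lit 111) (.e (nat_lit 368384) (nat_lit 22) (.e (nat_lit 778465) (nat_lit 11) (.e (nat_lit 24639) (nat_lit 10) (.e (nat_lit 344174) (nat_lit 42) (.e (nat_lit 761867) (nat_lit 5) .nil)))))) (.g (nat_lit 5) .nil .nil)))) (.nd (nat_lit 5) 
(.lf (nat_lit 65680) (.g (nat_lit 2171) (.e (nat_lit 1597) (nat_lit 111) (.e (nat_lit 360491) (nat_lit 22) (.e (nat_lit 778464) (nat_lit 11) (.e (nat_lit 24640) (nat_lit 10) (.e (nat_lit 344174) (nat_lit 42) (.e (nat_lit 761866) (nat_lit 5) .nil)))))) (.g (nat_lit 6) .nil .nil))) 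
(.lf (nat_lit 65712) (.g (nat_lit 951) (.e (nat_lit 1598) (nat_lit 111) (.e (nat_lit 360449) (nat_lit 0) (.e (nat_lit 7122) (nat_lit 382) (.e (nat_lit 7936) (nat_lit 90) .nil)))) .nil)))) (.nd (nat_lit 4) (.nd (nat_lit 5) 
(.lf (nat_lit 65672) (.g (nat_lit 1115) (.e (nat_lit 1597) (nat_lit 111) (.e (nat_lit 360491) (nat_lit 22) (.e (nat_lit 778359) (nat_lit 9) (.e (nat_lit 324) (nat_lit 24) (.e (nat_lit 360488) (nat_lit 20) (.e (nat_lit 761867) (nat_lit 5) .nil)))))) (.g (nat_lit 0) .nil .nil))) 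
(.lf (nat_lit 65704) (.g (nat_lit 700) (.e (nat_lit 1597) (nat_lit 111) (.e (nat_lit 360493) (nat_lit 27) (.e (nat_lit 819221) (nat_lit 6) (.e (nat_lit 188427) (nat_lit 20) (.e (nat_lit 3279) (nat_lit 200) (.e (nat_lit 557061) (nat_lit 0) .nil)))))) (.g (nat_lit 4) .nil .nil)))) (.nd (nat_lit 5) 
(.lf (nat_lit 65688) (.g (nat_lit 1757) (.e (nat_lit 1597) (nat_lit 111) (.e (nat_lit 360491) (nat_lit 22) (.e (nat_lit 778466) (nat_lit 11) (.e (nat_lit 24640) (nat_lit 10) (.e (nat_lit 344173) (nat_lit 42) (.e (nat_lit 761868) (nat_lit 5) .nil)))))) (.g (nat_lit 4) .nil .nil))) 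
(.lf (nat_lit 65720) (.g (nat_lit 2998) (.e (nat_lit 1598) (nat_lit 111) (.e (nat_lit 360449) (nat_lit 0) (.e (nat_lit 7125) (nat_lit 382) (.e (nat_lit 1224) (nat_lit 90) (.e (nat_lit 81947) (nat_lit 20) (.e (nat_lit 2281) (nat_lit 150) (.e (nat_lit 770057) (nat_lit 5) .nil))))))) (.g (nat_lit 7) .nil .nil)))))) (.nd (nat_lit 3) (.nd (nat_lit 4) (.nd (nat_lit 5) 
(.lf (nat_lit 65668) (.g (nat_lit 1756) (.e (nat_lit 1597) (nat_lit 111) (.e (nat_lit 360489) (nat_lit 21) (.e (nat_lit 770074) (nat_lit 10) (.e (nat_lit 81946) (nat_lit 20) (.e (nat_lit 2270) (nat_lit 149) (.e (nat_lit 761867) (nat_lit 5) .nil)))))) (.g (nat_lit 4) .nil .nil))) 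
(.lf (nat_lit 65700) (.g (nat_lit 513) (.e (nat_lit 1597) (nat_lit 111) (.e (nat_lit 368384) (nat_lit 26) (.e (nat_lit 811011) (nat_lit 0) (.e (nat_lit 5776) (nat_lit 317) (.e (nat_lit 188160) (nat_lit 8) (.e (nat_lit 557060) (nat_lit 0) .nil)))))) (.g (nat_lit 4) .nil .nil)))) (.nd (nat_lit 5) 
(.lf (nat_lit 65684) (.g (nat_lit 2282) (.e (nat_lit 1597) (nat_lit 111) (.e (nat_lit 360491) (nat_lit 22) (.e (nat_lit 778465) (nat_lit 11) (.e (nat_lit 24640) (nat_lit 10) (.e (nat_lit 344174) (nat_lit 42) (.e (nat_lit 761868) (nat_lit 5) .nil)))))) (.g (nat_lit 0) .nil .nil))) 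
(.lf (nat_lit 65716) (.g (nat_lit 2472) (.e (nat_lit 1598) (nat_lit 111) (.e (nat_lit 360449) (nat_lit 0) (.e (nat_lit 7125) (nat_lit 382) (.e (nat_lit 1222) (nat_lit 90) (.e (nat_lit 81943) (nat_lit 20) (.e (nat_lit 2280) (nat_lit 150) (.e (nat_lit 770055) (nat_lit 5) .nil))))))) (.g (nat_lit 5) .nil .nil))))) (.nd (nat_lit 4) (.nd (nat_lit 5) 
(.lf (nat_lit 65676) (.g (nat_lit 1749) (.e (nat_lit 1597) (nat_lit 111) (.e (nat_lit 360491) (nat_lit 22) (.e (nat_lit 778361) (nat_lit 9) (.e (nat_lit 324) (nat_lit 24) (.e (nat_lit 360488) (nat_lit 20) (.e (nat_lit 761868) (nat_lit 5) .nil)))))) (.g (nat_lit 0) .nil .nil))) 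
(.lf (nat_lit 65708) (.g (nat_lit 1143) (.e (nat_lit 1597) (nat_lit 111) (.e (nat_lit 360493) (nat_lit 27) (.e (nat_lit 819221) (nat_lit 6) (.e (nat_lit 188431) (nat_lit 20) (.e (nat_lit 3282) (nat_lit 200) (.e (nat_lit 557060) (nat_lit 0) .nil)))))) (.g (nat_lit 0) .nil .nil)))) (.nd (nat_lit 5) 
(.lf (nat_lit 65692) (.g (nat_lit 2190) (.e (nat_lit 1597) (nat_lit 111) (.e (nat_lit 360491) (nat_lit 22) (.e (nat_lit 778466) (nat_lit 11) (.e (nat_lit 24641) (nat_lit 10) (.e (nat_lit 344174) (nat_lit 42) (.e (nat_lit 761869) (nat_lit 5) .nil)))))) (.g (nat_lit 6) .nil .nil))) 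
(.lf (nat_lit 65724) (.g (nat_lit 1650) (.e (nat_lit 1598) (nat_lit 111) (.e (nat_lit 360449) (nat_lit 0) (.e (nat_lit 7261) (nat_lit 384) (.e (nat_lit 57426) (nat_lit 15) (.e (nat_lit 360489) (nat_lit 21) (.e (nat_lit 770057) (nat_lit 5) .nil)))))) (.g (nat_lit 0) .nil .nil))))))) (.nd (nat_lit 2) (.nd (nat_lit 3) (.nd (nat_lit 4) (.nd (nat_lit 5) 
(.lf (nat_lit 65666) (.g (nat_lit 2110) (.e (nat_lit 1597) (nat_lit 111) (.e (nat_lit 360489) (nat_lit 21) (.e (nat_lit 770074) (nat_lit 10) (.e (nat_lit 81942) (nat_lit 20) (.e (nat_lit 2270) (nat_lit 149) (.e (nat_lit 761868) (nat_lit 5) .nil)))))) (.g (nat_lit 0) .nil .nil))) 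
(.lf (nat_lit 65698) (.g (nat_lit 478) (.e (nat_lit 1597) (nat_lit 111) (.e (nat_lit 368384) (nat_lit 26) (.e (nat_lit 811010) (nat_lit 0) (.e (nat_lit 5779) (nat_lit 317) (.e (nat_lit 188160) (nat_lit 8) (.e (nat_lit 557060) (nat_lit 0) .nil)))))) (.g (nat_lit 4) .nil .nil)))) (.nd (nat_lit 5) 
(.lf (nat_lit 65682) (.g (nat_lit 2279) (.e (nat_lit 1597) (nat_lit 111) (.e (nat_lit 360491) (nat_lit 22) (.e (nat_lit 778465) (nat_lit 11) (.e (nat_lit 24639) (nat_lit 10) (.e (nat_lit 344174) (nat_lit 42) (.e (nat_lit 761867) (nat_lit 5) .nil)))))) (.g (nat_lit 0) .nil .nil))) 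
(.lf (nat_lit 65714) (.g (nat_lit 2487) (.e (nat_lit 1598) (nat_lit 111) (.e (nat_lit 360449) (nat_lit 0) (.e (nat_lit 7125) (nat_lit 382) (.e (nat_lit 1201) (nat_lit 88) (.e (nat_lit 65617) (nat_lit 10) (.e (nat_lit 344175) (nat_lit 43) (.e (nat_lit 770058) (nat_lit 5) .nil))))))) (.g (nat_lit 5) .nil .nil))))) (.nd (nat_lit 4) (.nd (nat_lit 5) 
(.lf (nat_lit 65674) (.g (nat_lit 1716) (.e (nat_lit 1597) (nat_lit 111) (.e (nat_lit 360491) (nat_lit 22) (.e (nat_lit 778361) (nat_lit 9) (.e (nat_lit 324) (nat_lit 24) (.e (nat_lit 360488) (nat_lit 20) (.e (nat_lit 761866) (nat_lit 5) .nil)))))) (.g (nat_lit 0) .nil .nil))) 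
(.lf (nat_lit 65706) (.g (nat_lit 781) (.e (nat_lit 1597) (nat_lit 111) (.e (nat_lit 360493) (nat_lit 27) (.e (nat_lit 819221) (nat_lit 6) (.e (nat_lit 188430) (nat_lit 20) (.e (nat_lit 3282) (nat_lit 200) (.e (nat_lit 557060) (nat_lit 0) .nil)))))) (.g (nat_lit 6) .nil .nil)))) (.nd (nat_lit 5) 
(.lf (nat_lit 65690) (.g (nat_lit 2385) (.e (nat_lit 1597) (nat_lit 111) (.e (nat_lit 360491) (nat_lit 22) (.e (nat_lit 778466) (nat_lit 11) (.e (nat_lit 24641) (nat_lit 10) (.e (nat_lit 344174) (nat_lit 42) (.e (nat_lit 761866) (nat_lit 5) .nil)))))) (.g (nat_lit 0) .nil .nil))) 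
(.lf (nat_lit 65722) (.g (nat_lit 2532) (.e (nat_lit 1598) (nat_lit 111) (.e (nat_lit 360449) (nat_lit 0) (.e (nat_lit 7261) (nat_lit 384) (.e (nat_lit 57412) (nat_lit 12) (.e (nat_lit 336173) (nat_lit 10) (.e (nat_lit 344177) (nat_lit 43) (.e (nat_lit 770055) (nat_lit 5) .nil))))))) (.g (nat_lit 6) .nil .nil)))))) (.nd (nat_lit 3) (.nd (nat_lit 4) (.nd (nat_lit 5) 
(.lf (nat_lit 65670) (.g (nat_lit 2915) (.e (nat_lit 1597) (nat_lit 111) (.e (nat_lit 360489) (nat_lit 21) (.e (nat_lit 770074) (nat_lit 10) (.e (nat_lit 81947) (nat_lit 20) (.e (nat_lit 2270) (nat_lit 149) (.e (nat_lit 761868) (nat_lit 5) .nil)))))) (.g (nat_lit 0) .nil .nil))) 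
(.lf (nat_lit 65702) (.g (nat_lit 741) (.e (nat_lit 1597) (nat_lit 111) (.e (nat_lit 360493) (nat_lit 27) (.e (nat_lit 819203) (nat_lit 0) (.e (nat_lit 3021) (nat_lit 187) (.e (nat_lit 458496) (nat_lit 8) (.e (nat_lit 557060) (nat_lit 0) .nil)))))) (.g (nat_lit 4) .nil .nil)))) (.nd (nat_lit 5) 
(.lf (nat_lit 65686) (.g (nat_lit 1714) (.e (nat_lit 1597) (nat_lit 111) (.e (nat_lit 360491) (nat_lit 22) (.e (nat_lit 778466) (nat_lit 11) (.e (nat_lit 24640) (nat_lit 10) (.e (nat_lit 344173) (nat_lit 42) .nil))))) .nil)) 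
(.lf (nat_lit 65718) (.g (nat_lit 3152) (.e (nat_lit 1598) (nat_lit 111) (.e (nat_lit 360449) (nat_lit 0) (.e (nat_lit 7125) (nat_lit 382) (.e (nat_lit 1224) (nat_lit 90) (.e (nat_lit 81946) (nat_lit 20) (.e (nat_lit 2281) (nat_lit 150) (.e (nat_lit 770056) (nat_lit 5) .nil))))))) (.g (nat_lit 7) .nil .nil))))) (.nd (nat_lit 4) (.nd (nat_lit 5) 
(.lf (nat_lit 65678) (.g (nat_lit 1728) (.e (nat_lit 1597) (nat_lit 111) (.e (nat_lit 360491) (nat_lit 22) (.e (nat_lit 778362) (nat_lit 9) (.e (nat_lit 324) (nat_lit 24) (.e (nat_lit 360488) (nat_lit 20) (.e (nat_lit 761867) (nat_lit 5) .nil)))))) (.g (nat_lit 0) .nil .nil))) 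
(.lf (nat_lit 65710) (.g (nat_lit 610) (.e (nat_lit 1598) (nat_lit 111) (.e (nat_lit 360449) (nat_lit 0) (.e (nat_lit 7119) (nat_lit 382) (.e (nat_lit 7936) (nat_lit 90) .nil)))) .nil))) (.nd (nat_lit 5) 
(.lf (nat_lit 65694) (.g (nat_lit 1744) (.e (nat_lit 1597) (nat_lit 111) (.e (nat_lit 368384) (nat_lit 22) (.e (nat_lit 778464) (nat_lit 11) (.e (nat_lit 24640) (nat_lit 10) (.e (nat_lit 344174) (nat_lit 42) (.e (nat_lit 761867) (nat_lit 5) .nil)))))) (.g (nat_lit 5) .nil .nil))) 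
(.lf (nat_lit 65726) (.g (nat_lit 2040) (.e (nat_lit 1598) (nat_lit 111) (.e (nat_lit 360449) (nat_lit 0) (.e (nat_lit 7261) (nat_lit 384) (.e (nat_lit 57428) (nat_lit 15) (.e (nat_lit 360489) (nat_lit 21) (.e (nat_lit 770055) (nat_lit 5) .nil)))))) (.g (nat_lit 6) .nil .nil)))))))) (.nd (nat_lit 1) (.nd (nat_lit 2) (.nd (nat_lit 3) (.nd (nat_lit 4) (.nd (nat_lit 5) 
(.lf (nat_lit 65665) (.g (nat_lit 948) (.e (nat_lit 1597) (nat_lit 111) (.e (nat_lit 360489) (nat_lit 21) (.e (nat_lit 770074) (nat_lit 10) (.e (nat_lit 81941) (nat_lit 20) .nil)))) .nil)) 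
(.lf (nat_lit 65697) (.g (nat_lit 2075) (.e (nat_lit 1597) (nat_lit 111) (.e (nat_lit 368384) (nat_lit 22) (.e (nat_lit 778465) (nat_lit 11) (.e (nat_lit 24640) (nat_lit 10) (.e (nat_lit 344174) (nat_lit 42) (.e (nat_lit 761868) (nat_lit 5) .nil)))))) (.g (nat_lit 5) .nil .nil)))) (.nd (nat_lit 5) 
(.lf (nat_lit 65681) (.g (nat_lit 2012) (.e (nat_lit 1597) (nat_lit 111) (.e (nat_lit 360491) (nat_lit 22) (.e (nat_lit 778464) (nat_lit 11) (.e (nat_lit 24640) (nat_lit 10) (.e (nat_lit 344174) (nat_lit 42) (.e (nat_lit 761867) (nat_lit 5) .nil)))))) (.g (nat_lit 6) .nil .nil))) 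
(.lf (nat_lit 65713) (.g (nat_lit 1960) (.e (nat_lit 1598) (nat_lit 111) (.e (nat_lit 360449) (nat_lit 0) (.e (nat_lit 7125) (nat_lit 382) (.e (nat_lit 1201) (nat_lit 88) (.e (nat_lit 65611) (nat_lit 10) .nil))))) .nil)))) (.nd (nat_lit 4) (.nd (nat_lit 5) 
(.lf (nat_lit 65673) (.g (nat_lit 1149) (.e (nat_lit 1597) (nat_lit 111) (.e (nat_lit 360491) (nat_lit 22) (.e (nat_lit 778360) (nat_lit 9) (.e (nat_lit 324) (nat_lit 24) (.e (nat_lit 360488) (nat_lit 20) (.e (nat_lit 761867) (nat_lit 5) .nil)))))) (.g (nat_lit 0) .nil .nil))) 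
(.lf (nat_lit 65705) (.g (nat_lit 1068) (.e (nat_lit 1597) (nat_lit 111) (.e (nat_lit 360493) (nat_lit 27) (.e (nat_lit 819221) (nat_lit 6) (.e (nat_lit 188427) (nat_lit 20) (.e (nat_lit 3281) (nat_lit 200) (.e (nat_lit 557061) (nat_lit 0) .nil)))))) (.g (nat_lit 0) .nil .nil)))) (.nd (nat_lit 5) 
(.lf (nat_lit 65689) (.g (nat_lit 1974) (.e (nat_lit 1597) (nat_lit 111) (.e (nat_lit 360491) (nat_lit 22) (.e (nat_lit 778466) (nat_lit 11) (.e (nat_lit 24640) (nat_lit 10) (.e (nat_lit 344173) (nat_lit 42) (.e (nat_lit 761869) (nat_lit 5) .nil)))))) (.g (nat_lit 4) .nil .nil))) 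
(.lf (nat_lit 65721) (.g (nat_lit 1116) (.e (nat_lit 1598) (nat_lit 111) (.e (nat_lit 360449) (nat_lit 0) (.e (nat_lit 7125) (nat_lit 382) (.e (nat_lit 7936) (nat_lit 90) .nil)))) .nil))))) (.nd (nat_lit 3) (.nd (nat_lit 4) (.nd (nat_lit 5) 
(.lf (nat_lit 65669) (.g (nat_lit 2778) (.e (nat_lit 1597) (nat_lit 111) (.e (nat_lit 360489) (nat_lit 21) (.e (nat_lit 770074) (nat_lit 10) (.e (nat_lit 81946) (nat_lit 20) (.e (nat_lit 2270) (nat_lit 149) (.e (nat_lit 761868) (nat_lit 5) .nil)))))) (.g (nat_lit 0) .nil .nil))) 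
(.lf (nat_lit 65701) (.g (nat_lit 455) (.e (nat_lit 1597) (nat_lit 111) (.e (nat_lit 368384) (nat_lit 26) (.e (nat_lit 811012) (nat_lit 0) (.e (nat_lit 5776) (nat_lit 317) (.e (nat_lit 188160) (nat_lit 8) (.e (nat_lit 557060) (nat_lit 0) .nil)))))) (.g (nat_lit 4) .nil .nil)))) (.nd (nat_lit 5) 
(.lf (nat_lit 65685) (.g (nat_lit 1648) (.e (nat_lit 1597) (nat_lit 111) (.e (nat_lit 360491) (nat_lit 22) (.e (nat_lit 778465) (nat_lit 11) (.e (nat_lit 24641) (nat_lit 10) (.e (nat_lit 344174) (nat_lit 42) (.e (nat_lit 761868) (nat_lit 5) .nil)))))) (.g (nat_lit 5) .nil .nil))) 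
(.lf (nat_lit 65717) (.g (nat_lit 3278) (.e (nat_lit 1598) (nat_lit 111) (.e (nat_lit 360449) (nat_lit 0) (.e (nat_lit 7125) (nat_lit 382) (.e (nat_lit 1222) (nat_lit 90) (.e (nat_lit 81943) (nat_lit 20) (.e (nat_lit 2281) (nat_lit 150) (.e (nat_lit 770057) (nat_lit 5) .nil))))))) (.g (nat_lit 0) .nil .nil))))) (.nd (nat_lit 4) (.nd (nat_lit 5) 
(.lf (nat_lit 65677) (.g (nat_lit 1730) (.e (nat_lit 1597) (nat_lit 111) (.e (nat_lit 360491) (nat_lit 22) (.e (nat_lit 778362) (nat_lit 9) (.e (nat_lit 321) (nat_lit 24) (.e (nat_lit 360488) (nat_lit 20) (.e (nat_lit 761867) (nat_lit 5) .nil)))))) (.g (nat_lit 6) .nil .nil))) 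
(.lf (nat_lit 65709) (.g (nat_lit 1568) (.e (nat_lit 1598) (nat_lit 111) (.e (nat_lit 360449) (nat_lit 0) (.e (nat_lit 5236) (nat_lit 297) (.e (nat_lit 229415) (nat_lit 15) (.e (nat_lit 450592) (nat_lit 14) (.e (nat_lit 639008) (nat_lit 13) .nil)))))) (.g (nat_lit 4) .nil .nil)))) (.nd (nat_lit 5) 
(.lf (nat_lit 65693) (.g (nat_lit 1464) (.e (nat_lit 1597) (nat_lit 111) (.e (nat_lit 368384) (nat_lit 22) (.e (nat_lit 778361) (nat_lit 9) (.e (nat_lit 321) (nat_lit 24) (.e (nat_lit 360488) (nat_lit 20) (.e (nat_lit 761868) (nat_lit 5) .nil)))))) (.g (nat_lit 5) .nil .nil))) 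
(.lf (nat_lit 65725) (.g (nat_lit 1770) (.e (nat_lit 1598) (nat_lit 111) (.e (nat_lit 360449) (nat_lit 0) (.e (nat_lit 7261) (nat_lit 384) (.e (nat_lit 57427) (nat_lit 15) (.e (nat_lit 360489) (nat_lit 21) (.e (nat_lit 770057) (nat_lit 5) .nil)))))) (.g (nat_lit 0) .nil .nil))))))) (.nd (nat_lit 2) (.nd (nat_lit 3) (.nd (nat_lit 4) (.nd (nat_lit 5) 
(.lf (nat_lit 65667) (.g (nat_lit 1955) (.e (nat_lit 1597) (nat_lit 111) (.e (nat_lit 360489) (nat_lit 21) (.e (nat_lit 770074) (nat_lit 10) (.e (nat_lit 81943) (nat_lit 20) (.e (nat_lit 2270) (nat_lit 149) (.e (nat_lit 761868) (nat_lit 5) .nil)))))) (.g (nat_lit 5) .nil .nil))) 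
(.lf (nat_lit 65699) (.g (nat_lit 457) (.e (nat_lit 1597) (nat_lit 111) (.e (nat_lit 368384) (nat_lit 26) (.e (nat_lit 811010) (nat_lit 0) (.e (nat_lit 5779) (nat_lit 317) (.e (nat_lit 188160) (nat_lit 8) (.e (nat_lit 557061) (nat_lit 0) .nil)))))) (.g (nat_lit 4) .nil .nil)))) (.nd (nat_lit 5) 
(.lf (nat_lit 65683) (.g (nat_lit 2312) (.e (nat_lit 1597) (nat_lit 111) (.e (nat_lit 360491) (nat_lit 22) (.e (nat_lit 778465) (nat_lit 11) (.e (nat_lit 24639) (nat_lit 10) (.e (nat_lit 344174) (nat_lit 42) (.e (nat_lit 761868) (nat_lit 5) .nil)))))) (.g (nat_lit 0) .nil .nil))) 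
(.lf (nat_lit 65715) (.g (nat_lit 2235) (.e (nat_lit 1598) (nat_lit 111) (.e (nat_lit 360449) (nat_lit 0) (.e (nat_lit 7125) (nat_lit 382) (.e (nat_lit 1222) (nat_lit 90) (.e (nat_lit 81938) (nat_lit 20) (.e (nat_lit 2281) (nat_lit 150) (.e (nat_lit 770058) (nat_lit 5) .nil))))))) (.g (nat_lit 4) .nil .nil))))) (.nd (nat_lit 4) (.nd (nat_lit 5) 
(.lf (nat_lit 65675) (.g (nat_lit 1607) (.e (nat_lit 1597) (nat_lit 111) (.e (nat_lit 360491) (nat_lit 22) (.e (nat_lit 778361) (nat_lit 9) (.e (nat_lit 324) (nat_lit 24) (.e (nat_lit 360488) (nat_lit 20) (.e (nat_lit 761867) (nat_lit 5) .nil)))))) (.g (nat_lit 0) .nil .nil))) 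
(.lf (nat_lit 65707) (.g (nat_lit 1143) (.e (nat_lit 1597) (nat_lit 111) (.e (nat_lit 360493) (nat_lit 27) (.e (nat_lit 819221) (nat_lit 6) (.e (nat_lit 188431) (nat_lit 20) (.e (nat_lit 3281) (nat_lit 200) (.e (nat_lit 557061) (nat_lit 0) .nil)))))) (.g (nat_lit 0) .nil .nil)))) (.nd (nat_lit 5) 
(.lf (nat_lit 65691) (.g (nat_lit 2174) (.e (nat_lit 1597) (nat_lit 111) (.e (nat_lit 360491) (nat_lit 22) (.e (nat_lit 778466) (nat_lit 11) (.e (nat_lit 24641) (nat_lit 10) (.e (nat_lit 344174) (nat_lit 42) (.e (nat_lit 761867) (nat_lit 5) .nil)))))) (.g (nat_lit 0) .nil .nil))) 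
(.lf (nat_lit 65723) (.g (nat_lit 2593) (.e (nat_lit 1598) (nat_lit 111) (.e (nat_lit 360449) (nat_lit 0) (.e (nat_lit 7261) (nat_lit 384) (.e (nat_lit 57412) (nat_lit 12) (.e (nat_lit 336173) (nat_lit 10) (.e (nat_lit 344177) (nat_lit 43) (.e (nat_lit 770056) (nat_lit 5) .nil))))))) (.g (nat_lit 6) .nil .nil)))))) (.nd (nat_lit 3) (.nd (nat_lit 4) (.nd (nat_lit 5) 
(.lf (nat_lit 65671) (.g (nat_lit 1783) (.e (nat_lit 1597) (nat_lit 111) (.e (nat_lit 360489) (nat_lit 21) (.e (nat_lit 770074) (nat_lit 10) (.e (nat_lit 81950) (nat_lit 21) (.e (nat_lit 57666) (nat_lit 152) (.e (nat_lit 1077) (nat_lit 81) .nil)))))) (.g (nat_lit 4) .nil .nil))) 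
(.lf (nat_lit 65703) (.g (nat_lit 1062) (.e (nat_lit 1597) (nat_lit 111) (.e (nat_lit 360493) (nat_lit 27) (.e (nat_lit 819203) (nat_lit 0) (.e (nat_lit 3022) (nat_lit 187) (.e (nat_lit 458496) (nat_lit 8) (.e (nat_lit 557060) (nat_lit 0) .nil)))))) (.g (nat_lit 4) .nil .nil)))) (.nd (nat_lit 5) 
(.lf (nat_lit 65687) (.g (nat_lit 1773) (.e (nat_lit 1597) (nat_lit 111) (.e (nat_lit 360491) (nat_lit 22) (.e (nat_lit 778466) (nat_lit 11) (.e (nat_lit 24640) (nat_lit 10) (.e (nat_lit 344173) (nat_lit 42) (.e (nat_lit 761866) (nat_lit 5) .nil)))))) (.g (nat_lit 4) .nil .nil))) 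
(.lf (nat_lit 65719) (.g (nat_lit 3109) (.e (nat_lit 1598) (nat_lit 111) (.e (nat_lit 360449) (nat_lit 0) (.e (nat_lit 7125) (nat_lit 382) (.e (nat_lit 1224) (nat_lit 90) (.e (nat_lit 81946) (nat_lit 20) (.e (nat_lit 2281) (nat_lit 150) (.e (nat_lit 770057) (nat_lit 5) .nil))))))) (.g (nat_lit 0) .nil .nil))))) (.nd (nat_lit 4) (.nd (nat_lit 5) 
(.lf (nat_lit 65679) (.g (nat_lit 1889) (.e (nat_lit 1597) (nat_lit 111) (.e (nat_lit 360491) (nat_lit 22) (.e (nat_lit 778362) (nat_lit 9) (.e (nat_lit 324) (nat_lit 24) (.e (nat_lit 360488) (nat_lit 20) (.e (nat_lit 761868) (nat_lit 5) .nil)))))) (.g (nat_lit 0) .nil .nil))) 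
(.lf (nat_lit 65711) (.g (nat_lit 1561) (.e (nat_lit 1598) (nat_lit 111) (.e (nat_lit 360449) (nat_lit 0) (.e (nat_lit 7122) (nat_lit 382) (.e (nat_lit 1224) (nat_lit 90) (.e (nat_lit 81947) (nat_lit 20) .nil))))) .nil))) (.nd (nat_lit 5) 
(.lf (nat_lit 65695) (.g (nat_lit 1795) (.e (nat_lit 1597) (nat_lit 111) (.e (nat_lit 368384) (nat_lit 22) (.e (nat_lit 778464) (nat_lit 11) (.e (nat_lit 24640) (nat_lit 10) (.e (nat_lit 344174) (nat_lit 42) (.e (nat_lit 761868) (nat_lit 5) .nil)))))) (.g (nat_lit 5) .nil .nil))) 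
(.lf (nat_lit 65727) (.g (nat_lit 1997) (.e (nat_lit 1598) (nat_lit 111) (.e (nat_lit 360449) (nat_lit 0) (.e (nat_lit 7261) (nat_lit 384) (.e (nat_lit 57428) (nat_lit 15) (.e (nat_lit 360489) (nat_lit 21) (.e (nat_lit 770056) (nat_lit 5) .nil)))))) (.g (nat_lit 6) .nil .nil)))))))))

noncomputable def tv905 : DT := (.nd (nat_lit 0) (.nd (nat_lit 1) (.nd (nat_lit 2) (.nd (nat_lit 3) (.nd (nat_lit 4) (.nd (nat_lit 5) 
(.lf (nat_lit 65728) (.g (nat_lit 1510) (.e (nat_lit 1598) (nat_lit 111) (.e (nat_lit 360449) (nat_lit 0) (.e (nat_lit 7261) (nat_lit 384) (.e (nat_lit 57436) (nat_lit 17) (.e (nat_lit 376855) (nat_lit 20) (.e (nat_lit 2276) (nat_lit 150) (.e (nat_lit 770057) (nat_lit 5) .nil))))))) (.g (nat_lit 5) .nil .nil))) 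
(.lf (nat_lit 65760) (.g (nat_lit 845) (.e (nat_lit 1598) (nat_lit 111) (.e (nat_lit 360452) (nat_lit 0) (.e (nat_lit 5055) (nat_lit 292) (.e (nat_lit 2645) (nat_lit 166) .nil)))) .nil))) (.nd (nat_lit 5) 
(.lf (nat_lit 65744) (.g (nat_lit 1828) (.e (nat_lit 1598) (nat_lit 111) (.e (nat_lit 360449) (nat_lit 0) (.e (nat_lit 7265) (nat_lit 384) (.e (nat_lit 57428) (nat_lit 15) (.e (nat_lit 360489) (nat_lit 21) (.e (nat_lit 770057) (nat_lit 5) .nil)))))) (.g (nat_lit 5) .nil .nil))) 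
(.lf (nat_lit 65776) (.g (nat_lit 1855) (.e (nat_lit 1598) (nat_lit 111) (.e (nat_lit 360452) (nat_lit 0) (.e (nat_lit 5905) (nat_lit 320) (.e (nat_lit 1219) (nat_lit 90) (.e (nat_lit 81933) (nat_lit 20) .nil))))) .nil)))) (.nd (nat_lit 4) (.nd (nat_lit 5) 
(.lf (nat_lit 65736) (.g (nat_lit 3073) (.e (nat_lit 1598) (nat_lit 111) (.e (nat_lit 360449) (nat_lit 0) (.e (nat_lit 7265) (nat_lit 384) (.e (nat_lit 57412) (nat_lit 12) (.e (nat_lit 336173) (nat_lit 10) (.e (nat_lit 344177) (nat_lit 43) (.e (nat_lit 770056) (nat_lit 5) .nil))))))) (.g (nat_lit 6) .nil .nil))) 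
(.lf (nat_lit 65768) (.g (nat_lit 1170) (.e (nat_lit 1598) (nat_lit 111) (.e (nat_lit 360452) (nat_lit 0) (.e (nat_lit 5905) (nat_lit 320) (.e (nat_lit 1190) (nat_lit 88) .nil)))) .nil))) (.nd (nat_lit 5) 
(.lf (nat_lit 65752) (.g (nat_lit 1963) (.e (nat_lit 1598) (nat_lit 111) (.e (nat_lit 360449) (nat_lit 0) (.e (nat_lit 7266) (nat_lit 384) (.e (nat_lit 57428) (nat_lit 15) (.e (nat_lit 360489) (nat_lit 21) (.e (nat_lit 770057) (nat_lit 5) .nil)))))) (.g (nat_lit 4) .nil .nil))) 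
(.lf (nat_lit 65784) (.g (nat_lit 2477) (.e (nat_lit 1598) (nat_lit 111) (.e (nat_lit 360452) (nat_lit 0) (.e (nat_lit 5905) (nat_lit 320) (.e (nat_lit 1221) (nat_lit 90) (.e (nat_lit 81938) (nat_lit 20) (.e (nat_lit 2005) (nat_lit 138) (.e (nat_lit 671747) (nat_lit 0) .nil))))))) (.g (nat_lit 5) .nil .nil)))))) (.nd (nat_lit 3) (.nd (nat_lit 4) (.nd (nat_lit 5) 
(.lf (nat_lit 65732) (.g (nat_lit 1197) (.e (nat_lit 1598) (nat_lit 111) (.e (nat_lit 360449) (nat_lit 0) (.e (nat_lit 7263) (nat_lit 384) (.e (nat_lit 57428) (nat_lit 15) (.e (nat_lit 360489) (nat_lit 21) .nil))))) .nil)) 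
(.lf (nat_lit 65764) (.g (nat_lit 1336) (.e (nat_lit 1598) (nat_lit 111) (.e (nat_lit 360452) (nat_lit 0) (.e (nat_lit 5243) (nat_lit 297) (.e (nat_lit 229415) (nat_lit 15) (.e (nat_lit 450592) (nat_lit 14) (.e (nat_lit 639007) (nat_lit 13) .nil)))))) (.g (nat_lit 4) .nil .nil)))) (.nd (nat_lit 5) 
(.lf (nat_lit 65748) (.g (nat_lit 2162) (.e (nat_lit 1598) (nat_lit 111) (.e (nat_lit 360449) (nat_lit 0) (.e (nat_lit 7266) (nat_lit 384) (.e (nat_lit 57426) (nat_lit 15) (.e (nat_lit 360489) (nat_lit 21) (.e (nat_lit 770057) (nat_lit 5) .nil)))))) (.g (nat_lit 0) .nil .nil))) 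
(.lf (nat_lit 65780) (.g (nat_lit 2089) (.e (nat_lit 1598) (nat_lit 111) (.e (nat_lit 360452) (nat_lit 0) (.e (nat_lit 5905) (nat_lit 320) (.e (nat_lit 1220) (nat_lit 90) (.e (nat_lit 81931) (nat_lit 20) .nil))))) .nil)))) (.nd (nat_lit 4) (.nd (nat_lit 5) 
(.lf (nat_lit 65740) (.g (nat_lit 2258) (.e (nat_lit 1598) (nat_lit 111) (.e (nat_lit 360449) (nat_lit 0) (.e (nat_lit 7265) (nat_lit 384) (.e (nat_lit 57424) (nat_lit 14) (.e (nat_lit 352303) (nat_lit 20) (.e (nat_lit 2281) (nat_lit 150) (.e (nat_lit 770057) (nat_lit 5) .nil))))))) (.g (nat_lit 6) .nil .nil))) 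
(.lf (nat_lit 65772) (.g (nat_lit 1952) (.e (nat_lit 1598) (nat_lit 111) (.e (nat_lit 360452) (nat_lit 0) (.e (nat_lit 5905) (nat_lit 320) (.e (nat_lit 1199) (nat_lit 88) (.e (nat_lit 65610) (nat_lit 10) (.e (nat_lit 344168) (nat_lit 40) (.e (nat_lit 671746) (nat_lit 0) .nil))))))) (.g (nat_lit 4) .nil .nil)))) (.nd (nat_lit 5) 
(.lf (nat_lit 65756) (.g (nat_lit 1072) (.e (nat_lit 1598) (nat_lit 111) (.e (nat_lit 360449) (nat_lit 0) (.e (nat_lit 7710) (nat_lit 414) (.e (nat_lit 163908) (nat_lit 12) .nil)))) .nil)) 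
(.lf (nat_lit 65788) (.g (nat_lit 1411) (.e (nat_lit 1598) (nat_lit 111) (.e (nat_lit 360452) (nat_lit 0) (.e (nat_lit 5906) (nat_lit 320) (.e (nat_lit 1219) (nat_lit 90) (.e (nat_lit 81935) (nat_lit 20) .nil))))) .nil)))))) (.nd (nat_lit 2) (.nd (nat_lit 3) (.nd (nat_lit 4) (.nd (nat_lit 5) 
(.lf (nat_lit 65730) (.g (nat_lit 2458) (.e (nat_lit 1598) (nat_lit 111) (.e (nat_lit 360449) (nat_lit 0) (.e (nat_lit 7263) (nat_lit 384) (.e (nat_lit 57412) (nat_lit 12) (.e (nat_lit 336173) (nat_lit 10) (.e (nat_lit 344177) (nat_lit 43) (.e (nat_lit 770055) (nat_lit 5) .nil))))))) (.g (nat_lit 6) .nil .nil))) 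
(.lf (nat_lit 65762) (.g (nat_lit 2263) (.e (nat_lit 1598) (nat_lit 111) (.e (nat_lit 360452) (nat_lit 0) (.e (nat_lit 5219) (nat_lit 296) (.e (nat_lit 163908) (nat_lit 12) (.e (nat_lit 426286) (nat_lit 10) (.e (nat_lit 434269) (nat_lit 36) (.e (nat_lit 639007) (nat_lit 13) .nil))))))) (.g (nat_lit 5) .nil .nil)))) (.nd (nat_lit 5) 
(.lf (nat_lit 65746) (.g (nat_lit 1607) (.e (nat_lit 1598) (nat_lit 111) (.e (nat_lit 360449) (nat_lit 0) (.e (nat_lit 7265) (nat_lit 384) (.e (nat_lit 57436) (nat_lit 17) (.e (nat_lit 376855) (nat_lit 20) .nil))))) .nil)) 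
(.lf (nat_lit 65778) (.g (nat_lit 2163) (.e (nat_lit 1598) (nat_lit 111) (.e (nat_lit 360452) (nat_lit 0) (.e (nat_lit 5905) (nat_lit 320) (.e (nat_lit 1219) (nat_lit 90) (.e (nat_lit 81946) (nat_lit 20) (.e (nat_lit 2005) (nat_lit 138) (.e (nat_lit 671747) (nat_lit 0) .nil))))))) (.g (nat_lit 4) .nil .nil))))) (.nd (nat_lit 4) (.nd (nat_lit 5) 
(.lf (nat_lit 65738) (.g (nat_lit 1916) (.e (nat_lit 1598) (nat_lit 111) (.e (nat_lit 360449) (nat_lit 0) (.e (nat_lit 7265) (nat_lit 384) (.e (nat_lit 57424) (nat_lit 14) (.e (nat_lit 352302) (nat_lit 20) .nil))))) .nil)) 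
(.lf (nat_lit 65770) (.g (nat_lit 3071) (.e (nat_lit 1598) (nat_lit 111) (.e (nat_lit 360452) (nat_lit 0) (.e (nat_lit 5905) (nat_lit 320) (.e (nat_lit 1190) (nat_lit 88) (.e (nat_lit 65619) (nat_lit 10) (.e (nat_lit 344168) (nat_lit 40) (.e (nat_lit 671746) (nat_lit 0) .nil))))))) (.g (nat_lit 5) .nil .nil)))) (.nd (nat_lit 5) 
(.lf (nat_lit 65754) (.g (nat_lit 1724) (.e (nat_lit 1598) (nat_lit 111) (.e (nat_lit 360449) (nat_lit 0) (.e (nat_lit 7266) (nat_lit 384) (.e (nat_lit 57436) (nat_lit 17) (.e (nat_lit 376855) (nat_lit 20) .nil))))) .nil)) 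
(.lf (nat_lit 65786) (.g (nat_lit 1175) (.e (nat_lit 1598) (nat_lit 111) (.e (nat_lit 360452) (nat_lit 0) (.e (nat_lit 5906) (nat_lit 320) (.e (nat_lit 1190) (nat_lit 88) (.e (nat_lit 65619) (nat_lit 10) .nil))))) .nil))))) (.nd (nat_lit 3) (.nd (nat_lit 4) (.nd (nat_lit 5) 
(.lf (nat_lit 65734) (.g (nat_lit 265) (.e (nat_lit 1598) (nat_lit 111) (.e (nat_lit 360449) (nat_lit 0) (.e (nat_lit 7265) (nat_lit 384) .nil))) .nil)) 
(.lf (nat_lit 65766) (.g (nat_lit 384) (.e (nat_lit 1598) (nat_lit 111) (.e (nat_lit 360452) (nat_lit 0) (.e (nat_lit 5905) (nat_lit 320) .nil))) .nil))) (.nd (nat_lit 5) 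
(.lf (nat_lit 65750) (.g (nat_lit 2005) (.e (nat_lit 1598) (nat_lit 111) (.e (nat_lit 360449) (nat_lit 0) (.e (nat_lit 7266) (nat_lit 384) (.e (nat_lit 57428) (nat_lit 15) (.e (nat_lit 360489) (nat_lit 21) (.e (nat_lit 770055) (nat_lit 5) .nil)))))) (.g (nat_lit 4) .nil .nil))) 
(.lf (nat_lit 65782) (.g (nat_lit 1501) (.e (nat_lit 1598) (nat_lit 111) (.e (nat_lit 360452) (nat_lit 0) (.e (nat_lit 5905) (nat_lit 320) (.e (nat_lit 1221) (nat_lit 90) (.e (nat_lit 81933) (nat_lit 20) .nil))))) .nil)))) (.nd (nat_lit 4) (.nd (nat_lit 5) 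
(.lf (nat_lit 65742) (.g (nat_lit 1875) (.e (nat_lit 1598) (nat_lit 111) (.e (nat_lit 360449) (nat_lit 0) (.e (nat_lit 7265) (nat_lit 384) (.e (nat_lit 57428) (nat_lit 15) (.e (nat_lit 360489) (nat_lit 21) (.e (nat_lit 770055) (nat_lit 5) .nil)))))) (.g (nat_lit 5) .nil .nil))) 
(.lf (nat_lit 65774) (.g (nat_lit 2704) (.e (nat_lit 1598) (nat_lit 111) (.e (nat_lit 360452) (nat_lit 0) (.e (nat_lit 5905) (nat_lit 320) (.e (nat_lit 1200) (nat_lit 88) (.e (nat_lit 65619) (nat_lit 10) (.e (nat_lit 344169) (nat_lit 40) (.e (nat_lit 671746) (nat_lit 0) .nil))))))) (.g (nat_lit 5) .nil .nil)))) (.nd (nat_lit 5) 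
(.lf (nat_lit 65758) (.g (nat_lit 1424) (.e (nat_lit 1598) (nat_lit 111) (.e (nat_lit 360451) (nat_lit 0) (.e (nat_lit 7125) (nat_lit 382) (.e (nat_lit 1224) (nat_lit 90) .nil)))) .nil)) 
(.lf (nat_lit 65790) (.g (nat_lit 1466) (.e (nat_lit 1598) (nat_lit 111) (.e (nat_lit 360452) (nat_lit 0) (.e (nat_lit 5906) (nat_lit 320) (.e (nat_lit 1221) (nat_lit 90) (.e (nat_lit 81931) (nat_lit 20) .nil))))) .nil))))))) (.nd (nat_lit 1) (.nd (nat_lit 2) (.nd (nat_lit 3) (.nd (nat_lit 4) (.nd (nat_lit 5) 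
(.lf (nat_lit 65729) (.g (nat_lit 1433) (.e (nat_lit 1598) (nat_lit 111) (.e (nat_lit 360449) (nat_lit 0) (.e (nat_lit 7261) (nat_lit 384) (.e (nat_lit 57437) (nat_lit 17) (.e (nat_lit 376855) (nat_lit 20) .nil))))) .nil)) 
(.lf (nat_lit 65761) (.g (nat_lit 428) (.e (nat_lit 1598) (nat_lit 111) (.e (nat_lit 360452) (nat_lit 0) (.e (nat_lit 5219) (nat_lit 296) .nil))) .nil))) (.nd (nat_lit 5) 
(.lf (nat_lit 65745) (.g (nat_lit 1427) (.e (nat_lit 1598) (nat_lit 111) (.e (nat_lit 360449) (nat_lit 0) (.e (nat_lit 7265) (nat_lit 384) (.e (nat_lit 57436) (nat_lit 17) (.e (nat_lit 376848) (nat_lit 20) .nil))))) .nil)) 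
(.lf (nat_lit 65777) (.g (nat_lit 1874) (.e (nat_lit 1598) (nat_lit 111) (.e (nat_lit 360452) (nat_lit 0) (.e (nat_lit 5905) (nat_lit 320) (.e (nat_lit 1219) (nat_lit 90) (.e (nat_lit 81942) (nat_lit 20) .nil))))) .nil)))) (.nd (nat_lit 4) (.nd (nat_lit 5) 
(.lf (nat_lit 65737) (.g (nat_lit 3371) (.e (nat_lit 1598) (nat_lit 111) (.e (nat_lit 360449) (nat_lit 0) (.e (nat_lit 7265) (nat_lit 384) (.e (nat_lit 57412) (nat_lit 12) (.e (nat_lit 336173) (nat_lit 10) (.e (nat_lit 344177) (nat_lit 43) (.e (nat_lit 770058) (nat_lit 5) .nil))))))) (.g (nat_lit 7) .nil .nil))) 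
(.lf (nat_lit 65769) (.g (nat_lit 2069) (.e (nat_lit 1598) (nat_lit 111) (.e (nat_lit 360452) (nat_lit 0) (.e (nat_lit 5905) (nat_lit 320) (.e (nat_lit 1190) (nat_lit 88) (.e (nat_lit 65616) (nat_lit 10) .nil))))) .nil))) (.nd (nat_lit 5) 
(.lf (nat_lit 65753) (.g (nat_lit 2161) (.e (nat_lit 1598) (nat_lit 111) (.e (nat_lit 360449) (nat_lit 0) (.e (nat_lit 7266) (nat_lit 384) (.e (nat_lit 57428) (nat_lit 15) (.e (nat_lit 360489) (nat_lit 21) (.e (nat_lit 770058) (nat_lit 5) .nil)))))) (.g (nat_lit 5) .nil .nil))) 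
(.lf (nat_lit 65785) (.g (nat_lit 1496) (.e (nat_lit 1598) (nat_lit 111) (.e (nat_lit 360452) (nat_lit 0) (.e (nat_lit 5905) (nat_lit 320) (.e (nat_lit 1221) (nat_lit 90) (.e (nat_lit 81939) (nat_lit 20) .nil))))) .nil))))) (.nd (nat_lit 3) (.nd (nat_lit 4) (.nd (nat_lit 5) 
(.lf (nat_lit 65733) (.g (nat_lit 1280) (.e (nat_lit 1598) (nat_lit 111) (.e (nat_lit 360449) (nat_lit 0) (.e (nat_lit 7263) (nat_lit 384) (.e (nat_lit 57428) (nat_lit 15) (.e (nat_lit 360489) (nat_lit 21) (.e (nat_lit 770058) (nat_lit 5) .nil)))))) (.g (nat_lit 4) .nil .nil))) 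
(.lf (nat_lit 65765) (.g (nat_lit 2284) (.e (nat_lit 1598) (nat_lit 111) (.e (nat_lit 360452) (nat_lit 0) (.e (nat_lit 5243) (nat_lit 297) (.e (nat_lit 229415) (nat_lit 15) (.e (nat_lit 450592) (nat_lit 14) (.e (nat_lit 639008) (nat_lit 13) .nil)))))) (.g (nat_lit 0) .nil .nil)))) (.nd (nat_lit 5) 
(.lf (nat_lit 65749) (.g (nat_lit 2295) (.e (nat_lit 1598) (nat_lit 111) (.e (nat_lit 360449) (nat_lit 0) (.e (nat_lit 7266) (nat_lit 384) (.e (nat_lit 57427) (nat_lit 15) (.e (nat_lit 360489) (nat_lit 21) (.e (nat_lit 770057) (nat_lit 5) .nil)))))) (.g (nat_lit 0) .nil .nil))) 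
(.lf (nat_lit 65781) (.g (nat_lit 2276) (.e (nat_lit 1598) (nat_lit 111) (.e (nat_lit 360452) (nat_lit 0) (.e (nat_lit 5905) (nat_lit 320) (.e (nat_lit 1220) (nat_lit 90) (.e (nat_lit 81938) (nat_lit 20) (.e (nat_lit 2005) (nat_lit 138) (.e (nat_lit 671747) (nat_lit 0) .nil))))))) (.g (nat_lit 4) .nil .nil))))) (.nd (nat_lit 4) (.nd (nat_lit 5) 
(.lf (nat_lit 65741) (.g (nat_lit 2439) (.e (nat_lit 1598) (nat_lit 111) (.e (nat_lit 360449) (nat_lit 0) (.e (nat_lit 7265) (nat_lit 384) (.e (nat_lit 57426) (nat_lit 15) (.e (nat_lit 360489) (nat_lit 21) (.e (nat_lit 770057) (nat_lit 5) .nil)))))) (.g (nat_lit 0) .nil .nil))) 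
(.lf (nat_lit 65773) (.g (nat_lit 2620) (.e (nat_lit 1598) (nat_lit 111) (.e (nat_lit 360452) (nat_lit 0) (.e (nat_lit 5905) (nat_lit 320) (.e (nat_lit 1200) (nat_lit 88) (.e (nat_lit 65619) (nat_lit 10) (.e (nat_lit 344168) (nat_lit 40) (.e (nat_lit 671746) (nat_lit 0) .nil))))))) (.g (nat_lit 5) .nil .nil)))) (.nd (nat_lit 5) 
(.lf (nat_lit 65757) (.g (nat_lit 1426) (.e (nat_lit 1598) (nat_lit 111) (.e (nat_lit 360451) (nat_lit 0) (.e (nat_lit 7125) (nat_lit 382) (.e (nat_lit 1222) (nat_lit 90) .nil)))) .nil)) 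
(.lf (nat_lit 65789) (.g (nat_lit 1697) (.e (nat_lit 1598) (nat_lit 111) (.e (nat_lit 360452) (nat_lit 0) (.e (nat_lit 5906) (nat_lit 320) (.e (nat_lit 1219) (nat_lit 90) (.e (nat_lit 81946) (nat_lit 20) (.e (nat_lit 2005) (nat_lit 138) (.e (nat_lit 671748) (nat_lit 0) .nil))))))) (.g (nat_lit 4) .nil .nil))))))) (.nd (nat_lit 2) (.nd (nat_lit 3) (.nd (nat_lit 4) (.nd (nat_lit 5) 
(.lf (nat_lit 65731) (.g (nat_lit 2519) (.e (nat_lit 1598) (nat_lit 111) (.e (nat_lit 360449) (nat_lit 0) (.e (nat_lit 7263) (nat_lit 384) (.e (nat_lit 57412) (nat_lit 12) (.e (nat_lit 336173) (nat_lit 10) (.e (nat_lit 344177) (nat_lit 43) (.e (nat_lit 770056) (nat_lit 5) .nil))))))) (.g (nat_lit 6) .nil .nil))) 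
(.lf (nat_lit 65763) (.g (nat_lit 2180) (.e (nat_lit 1598) (nat_lit 111) (.e (nat_lit 360452) (nat_lit 0) (.e (nat_lit 5219) (nat_lit 296) (.e (nat_lit 163908) (nat_lit 12) (.e (nat_lit 426286) (nat_lit 10) (.e (nat_lit 434269) (nat_lit 36) (.e (nat_lit 639008) (nat_lit 13) .nil))))))) (.g (nat_lit 5) .nil .nil)))) (.nd (nat_lit 5) 
(.lf (nat_lit 65747) (.g (nat_lit 2392) (.e (nat_lit 1598) (nat_lit 111) (.e (nat_lit 360449) (nat_lit 0) (.e (nat_lit 7265) (nat_lit 384) (.e (nat_lit 57436) (nat_lit 17) (.e (nat_lit 376855) (nat_lit 20) (.e (nat_lit 2276) (nat_lit 150) (.e (nat_lit 770057) (nat_lit 5) .nil))))))) (.g (nat_lit 7) .nil .nil))) 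
(.lf (nat_lit 65779) (.g (nat_lit 2251) (.e (nat_lit 1598) (nat_lit 111) (.e (nat_lit 360452) (nat_lit 0) (.e (nat_lit 5905) (nat_lit 320) (.e (nat_lit 1219) (nat_lit 90) (.e (nat_lit 81947) (nat_lit 20) (.e (nat_lit 2005) (nat_lit 138) (.e (nat_lit 671747) (nat_lit 0) .nil))))))) (.g (nat_lit 4) .nil .nil))))) (.nd (nat_lit 4) (.nd (nat_lit 5) 
(.lf (nat_lit 65739) (.g (nat_lit 1923) (.e (nat_lit 1598) (nat_lit 111) (.e (nat_lit 360449) (nat_lit 0) (.e (nat_lit 7265) (nat_lit 384) (.e (nat_lit 57424) (nat_lit 14) (.e (nat_lit 352302) (nat_lit 20) (.e (nat_lit 2281) (nat_lit 150) (.e (nat_lit 770058) (nat_lit 5) .nil))))))) (.g (nat_lit 4) .nil .nil))) 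
(.lf (nat_lit 65771) (.g (nat_lit 3076) (.e (nat_lit 1598) (nat_lit 111) (.e (nat_lit 360452) (nat_lit 0) (.e (nat_lit 5905) (nat_lit 320) (.e (nat_lit 1190) (nat_lit 88) (.e (nat_lit 65619) (nat_lit 10) (.e (nat_lit 344169) (nat_lit 40) (.e (nat_lit 671746) (nat_lit 0) .nil))))))) (.g (nat_lit 5) .nil .nil)))) (.nd (nat_lit 5) 
(.lf (nat_lit 65755) (.g (nat_lit 1310) (.e (nat_lit 1598) (nat_lit 111) (.e (nat_lit 360449) (nat_lit 0) (.e (nat_lit 7607) (nat_lit 410) (.e (nat_lit 2630) (nat_lit 164) (.e (nat_lit 172113) (nat_lit 10) .nil))))) .nil)) 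
(.lf (nat_lit 65787) (.g (nat_lit 1904) (.e (nat_lit 1598) (nat_lit 111) (.e (nat_lit 360452) (nat_lit 0) (.e (nat_lit 5906) (nat_lit 320) (.e (nat_lit 1199) (nat_lit 88) (.e (nat_lit 65610) (nat_lit 10) (.e (nat_lit 344168) (nat_lit 40) (.e (nat_lit 671747) (nat_lit 0) .nil))))))) (.g (nat_lit 4) .nil .nil)))))) (.nd (nat_lit 3) (.nd (nat_lit 4) (.nd (nat_lit 5) 
(.lf (nat_lit 65735) (.g (nat_lit 3012) (.e (nat_lit 1598) (nat_lit 111) (.e (nat_lit 360449) (nat_lit 0) (.e (nat_lit 7265) (nat_lit 384) (.e (nat_lit 57412) (nat_lit 12) (.e (nat_lit 336173) (nat_lit 10) (.e (nat_lit 344177) (nat_lit 43) (.e (nat_lit 770055) (nat_lit 5) .nil))))))) (.g (nat_lit 6) .nil .nil))) 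
(.lf (nat_lit 65767) (.g (nat_lit 1118) (.e (nat_lit 1598) (nat_lit 111) (.e (nat_lit 360452) (nat_lit 0) (.e (nat_lit 5905) (nat_lit 320) (.e (nat_lit 992) (nat_lit 81) .nil)))) .nil))) (.nd (nat_lit 5) 
(.lf (nat_lit 65751) (.g (nat_lit 1962) (.e (nat_lit 1598) (nat_lit 111) (.e (nat_lit 360449) (nat_lit 0) (.e (nat_lit 7266) (nat_lit 384) (.e (nat_lit 57428) (nat_lit 15) (.e (nat_lit 360489) (nat_lit 21) (.e (nat_lit 770056) (nat_lit 5) .nil)))))) (.g (nat_lit 4) .nil .nil))) 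
(.lf (nat_lit 65783) (.g (nat_lit 2751) (.e (nat_lit 1598) (nat_lit 111) (.e (nat_lit 360452) (nat_lit 0) (.e (nat_lit 5905) (nat_lit 320) (.e (nat_lit 1221) (nat_lit 90) (.e (nat_lit 81938) (nat_lit 20) (.e (nat_lit 2003) (nat_lit 138) (.e (nat_lit 671747) (nat_lit 0) .nil))))))) (.g (nat_lit 5) .nil .nil))))) (.nd (nat_lit 4) (.nd (nat_lit 5) 
(.lf (nat_lit 65743) (.g (nat_lit 1832) (.e (nat_lit 1598) (nat_lit 111) (.e (nat_lit 360449) (nat_lit 0) (.e (nat_lit 7265) (nat_lit 384) (.e (nat_lit 57428) (nat_lit 15) (.e (nat_lit 360489) (nat_lit 21) (.e (nat_lit 770056) (nat_lit 5) .nil)))))) (.g (nat_lit 5) .nil .nil))) 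
(.lf (nat_lit 65775) (.g (nat_lit 1096) (.e (nat_lit 1598) (nat_lit 111) (.e (nat_lit 360452) (nat_lit 0) (.e (nat_lit 5905) (nat_lit 320) (.e (nat_lit 1219) (nat_lit 90) .nil)))) .nil))) (.nd (nat_lit 5) 
(.lf (nat_lit 65759) (.g (nat_lit 542) (.e (nat_lit 1598) (nat_lit 111) (.e (nat_lit 360451) (nat_lit 0) (.e (nat_lit 7265) (nat_lit 384) .nil))) .nil)) 
(.lf (nat_lit 65791) (.g (nat_lit 1776) (.e (nat_lit 1598) (nat_lit 111) (.e (nat_lit 360452) (nat_lit 0) (.e (nat_lit 5906) (nat_lit 320) (.e (nat_lit 1221) (nat_lit 90) (.e (nat_lit 81938) (nat_lit 20) (.e (nat_lit 2005) (nat_lit 138) (.e (nat_lit 671747) (nat_lit 0) .nil))))))) (.g (nat_lit 4) .nil .nil)))))))))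

noncomputable def tv906 : DT := (.nd (nat_lit 0) (.nd (nat_lit 1) (.nd (nat_lit 2) (.nd (nat_lit 3) (.nd (nat_lit 4) (.nd (nat_lit 5) 
(.lf (nat_lit 65792) (.g (nat_lit 1658) (.e (nat_lit 1598) (nat_lit 111) (.e (nat_lit 360452) (nat_lit 0) (.e (nat_lit 5906) (nat_lit 320) (.e (nat_lit 1221) (nat_lit 90) (.e (nat_lit 81939) (nat_lit 20) .nil))))) .nil)) 
(.lf (nat_lit 65824) (.g (nat_lit 4161) (.e (nat_lit 1598) (nat_lit 111) (.e (nat_lit 360452) (nat_lit 0) (.e (nat_lit 5907) (nat_lit 320) (.e (nat_lit 1221) (nat_lit 90) (.e (nat_lit 81947) (nat_lit 20) (.e (nat_lit 2006) (nat_lit 138) (.e (nat_lit 671748) (nat_lit 0) .nil))))))) (.g (nat_lit 0) .nil .nil)))) (.nd (nat_lit 5) 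
(.lf (nat_lit 65808) (.g (nat_lit 1972) (.e (nat_lit 1598) (nat_lit 111) (.e (nat_lit 360452) (nat_lit 0) (.e (nat_lit 5907) (nat_lit 320) (.e (nat_lit 1219) (nat_lit 90) (.e (nat_lit 81939) (nat_lit 20) .nil))))) .nil)) 
(.lf (nat_lit 65840) (.g (nat_lit 2371) (.e (nat_lit 1598) (nat_lit 111) (.e (nat_lit 360452) (nat_lit 0) (.e (nat_lit 7270) (nat_lit 385) (.e (nat_lit 122916) (nat_lit 14) (.e (nat_lit 352302) (nat_lit 20) (.e (nat_lit 2280) (nat_lit 150) (.e (nat_lit 770056) (nat_lit 5) .nil))))))) (.g (nat_lit 5) .nil .nil))))) (.nd (nat_lit 4) (.nd (nat_lit 5) 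
(.lf (nat_lit 65800) (.g (nat_lit 2565) (.e (nat_lit 1598) (nat_lit 111) (.e (nat_lit 360452) (nat_lit 0) (.e (nat_lit 5907) (nat_lit 320) (.e (nat_lit 1199) (nat_lit 88) (.e (nat_lit 65610) (nat_lit 10) (.e (nat_lit 344168) (nat_lit 40) (.e (nat_lit 671746) (nat_lit 0) .nil))))))) (.g (nat_lit 5) .nil .nil))) 
(.lf (nat_lit 65832) (.g (nat_lit 349) (.e (nat_lit 1598) (nat_lit 111) (.e (nat_lit 360452) (nat_lit 0) (.e (nat_lit 7270) (nat_lit 385) .nil))) .nil))) (.nd (nat_lit 5) 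
(.lf (nat_lit 65816) (.g (nat_lit 2238) (.e (nat_lit 1598) (nat_lit 111) (.e (nat_lit 360452) (nat_lit 0) (.e (nat_lit 5907) (nat_lit 320) (.e (nat_lit 1221) (nat_lit 90) (.e (nat_lit 81933) (nat_lit 20) (.e (nat_lit 1998) (nat_lit 137) (.e (nat_lit 663554) (nat_lit 0) .nil))))))) (.g (nat_lit 4) .nil .nil))) 
(.lf (nat_lit 65848) (.g (nat_lit 3835) (.e (nat_lit 1598) (nat_lit 111) (.e (nat_lit 360452) (nat_lit 0) (.e (nat_lit 7270) (nat_lit 385) (.e (nat_lit 122917) (nat_lit 15) (.e (nat_lit 360489) (nat_lit 21) (.e (nat_lit 770058) (nat_lit 5) .nil)))))) (.g (nat_lit 0) .nil .nil)))))) (.nd (nat_lit 3) (.nd (nat_lit 4) (.nd (nat_lit 5) 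
(.lf (nat_lit 65796) (.g (nat_lit 3015) (.e (nat_lit 1598) (nat_lit 111) (.e (nat_lit 360452) (nat_lit 0) (.e (nat_lit 5907) (nat_lit 320) (.e (nat_lit 1190) (nat_lit 88) (.e (nat_lit 65619) (nat_lit 10) (.e (nat_lit 344168) (nat_lit 40) (.e (nat_lit 671746) (nat_lit 0) .nil))))))) (.g (nat_lit 5) .nil .nil))) 
(.lf (nat_lit 65828) (.g (nat_lit 2316) (.e (nat_lit 1598) (nat_lit 111) (.e (nat_lit 360452) (nat_lit 0) (.e (nat_lit 7147) (nat_lit 382) (.e (nat_lit 1216) (nat_lit 90) (.e (nat_lit 81938) (nat_lit 20) (.e (nat_lit 2280) (nat_lit 150) (.e (nat_lit 770056) (nat_lit 5) .nil))))))) (.g (nat_lit 6) .nil .nil)))) (.nd (nat_lit 5) 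
(.lf (nat_lit 65812) (.g (nat_lit 1737) (.e (nat_lit 1598) (nat_lit 111) (.e (nat_lit 360452) (nat_lit 0) (.e (nat_lit 5907) (nat_lit 320) (.e (nat_lit 1219) (nat_lit 90) (.e (nat_lit 81946) (nat_lit 20) .nil))))) .nil)) 
(.lf (nat_lit 65844) (.g (nat_lit 3592) (.e (nat_lit 1598) (nat_lit 111) (.e (nat_lit 360452) (nat_lit 0) (.e (nat_lit 7270) (nat_lit 385) (.e (nat_lit 122916) (nat_lit 14) (.e (nat_lit 352302) (nat_lit 20) (.e (nat_lit 2281) (nat_lit 150) (.e (nat_lit 770058) (nat_lit 5) .nil))))))) (.g (nat_lit 7) .nil .nil))))) (.nd (nat_lit 4) (.nd (nat_lit 5) 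
(.lf (nat_lit 65804) (.g (nat_lit 2767) (.e (nat_lit 1598) (nat_lit 111) (.e (nat_lit 360452) (nat_lit 0) (.e (nat_lit 5907) (nat_lit 320) (.e (nat_lit 1200) (nat_lit 88) (.e (nat_lit 65619) (nat_lit 10) (.e (nat_lit 344168) (nat_lit 40) (.e (nat_lit 671746) (nat_lit 0) .nil))))))) (.g (nat_lit 5) .nil .nil))) 
(.lf (nat_lit 65836) (.g (nat_lit 2103) (.e (nat_lit 1598) (nat_lit 111) (.e (nat_lit 360452) (nat_lit 0) (.e (nat_lit 7270) (nat_lit 385) (.e (nat_lit 122906) (nat_lit 12) (.e (nat_lit 336173) (nat_lit 10) (.e (nat_lit 344177) (nat_lit 43) (.e (nat_lit 770058) (nat_lit 5) .nil))))))) (.g (nat_lit 5) .nil .nil)))) (.nd (nat_lit 5) 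
(.lf (nat_lit 65820) (.g (nat_lit 3041) (.e (nat_lit 1598) (nat_lit 111) (.e (nat_lit 360452) (nat_lit 0) (.e (nat_lit 5907) (nat_lit 320) (.e (nat_lit 1221) (nat_lit 90) (.e (nat_lit 81938) (nat_lit 20) (.e (nat_lit 2005) (nat_lit 138) (.e (nat_lit 671747) (nat_lit 0) .nil))))))) (.g (nat_lit 5) .nil .nil))) 
(.lf (nat_lit 65852) (.g (nat_lit 3170) (.e (nat_lit 1598) (nat_lit 111) (.e (nat_lit 360452) (nat_lit 0) (.e (nat_lit 7270) (nat_lit 385) (.e (nat_lit 122919) (nat_lit 15) (.e (nat_lit 360489) (nat_lit 21) (.e (nat_lit 770057) (nat_lit 5) .nil)))))) (.g (nat_lit 0) .nil .nil))))))) (.nd (nat_lit 2) (.nd (nat_lit 3) (.nd (nat_lit 4) (.nd (nat_lit 5) 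
(.lf (nat_lit 65794) (.g (nat_lit 1195) (.e (nat_lit 1598) (nat_lit 111) (.e (nat_lit 360452) (nat_lit 0) (.e (nat_lit 5907) (nat_lit 320) (.e (nat_lit 1190) (nat_lit 88) .nil)))) .nil)) 
(.lf (nat_lit 65826) (.g (nat_lit 435) (.e (nat_lit 1598) (nat_lit 111) (.e (nat_lit 360452) (nat_lit 0) (.e (nat_lit 7147) (nat_lit 382) .nil))) .nil))) (.nd (nat_lit 5) 
(.lf (nat_lit 65810) (.g (nat_lit 2288) (.e (nat_lit 1598) (nat_lit 111) (.e (nat_lit 360452) (nat_lit 0) (.e (nat_lit 5907) (nat_lit 320) (.e (nat_lit 1219) (nat_lit 90) (.e (nat_lit 81943) (nat_lit 20) (.e (nat_lit 2005) (nat_lit 138) (.e (nat_lit 671747) (nat_lit 0) .nil))))))) (.g (nat_lit 4) .nil .nil))) 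
(.lf (nat_lit 65842) (.g (nat_lit 3372) (.e (nat_lit 1598) (nat_lit 111) (.e (nat_lit 360452) (nat_lit 0) (.e (nat_lit 7270) (nat_lit 385) (.e (nat_lit 122916) (nat_lit 14) (.e (nat_lit 352302) (nat_lit 20) (.e (nat_lit 2281) (nat_lit 150) (.e (nat_lit 770056) (nat_lit 5) .nil))))))) (.g (nat_lit 7) .nil .nil))))) (.nd (nat_lit 4) (.nd (nat_lit 5) 
(.lf (nat_lit 65802) (.g (nat_lit 2684) (.e (nat_lit 1598) (nat_lit 111) (.e (nat_lit 360452) (nat_lit 0) (.e (nat_lit 5907) (nat_lit 320) (.e (nat_lit 1199) (nat_lit 88) (.e (nat_lit 65617) (nat_lit 10) (.e (nat_lit 344169) (nat_lit 40) (.e (nat_lit 671746) (nat_lit 0) .nil))))))) (.g (nat_lit 5) .nil .nil))) 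
(.lf (nat_lit 65834) (.g (nat_lit 1866) (.e (nat_lit 1598) (nat_lit 111) (.e (nat_lit 360452) (nat_lit 0) (.e (nat_lit 7270) (nat_lit 385) (.e (nat_lit 122906) (nat_lit 12) (.e (nat_lit 336173) (nat_lit 10) (.e (nat_lit 344177) (nat_lit 43) (.e (nat_lit 770055) (nat_lit 5) .nil))))))) (.g (nat_lit 4) .nil .nil)))) (.nd (nat_lit 5) 
(.lf (nat_lit 65818) (.g (nat_lit 3300) (.e (nat_lit 1598) (nat_lit 111) (.e (nat_lit 360452) (nat_lit 0) (.e (nat_lit 5907) (nat_lit 320) (.e (nat_lit 1221) (nat_lit 90) (.e (nat_lit 81938) (nat_lit 20) (.e (nat_lit 2003) (nat_lit 138) (.e (nat_lit 671747) (nat_lit 0) .nil))))))) (.g (nat_lit 5) .nil .nil))) 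
(.lf (nat_lit 65850) (.g (nat_lit 3256) (.e (nat_lit 1598) (nat_lit 111) (.e (nat_lit 360452) (nat_lit 0) (.e (nat_lit 7270) (nat_lit 385) (.e (nat_lit 122919) (nat_lit 15) (.e (nat_lit 360489) (nat_lit 21) (.e (nat_lit 770055) (nat_lit 5) .nil)))))) (.g (nat_lit 0) .nil .nil)))))) (.nd (nat_lit 3) (.nd (nat_lit 4) (.nd (nat_lit 5) 
(.lf (nat_lit 65798) (.g (nat_lit 1310) (.e (nat_lit 1598) (nat_lit 111) (.e (nat_lit 360452) (nat_lit 0) (.e (nat_lit 5907) (nat_lit 320) (.e (nat_lit 1196) (nat_lit 88) .nil)))) .nil)) 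
(.lf (nat_lit 65830) (.g (nat_lit 2731) (.e (nat_lit 1598) (nat_lit 111) (.e (nat_lit 360452) (nat_lit 0) (.e (nat_lit 7147) (nat_lit 382) (.e (nat_lit 1216) (nat_lit 90) (.e (nat_lit 81943) (nat_lit 20) (.e (nat_lit 2281) (nat_lit 150) (.e (nat_lit 770058) (nat_lit 5) .nil))))))) (.g (nat_lit 0) .nil .nil)))) (.nd (nat_lit 5) 
(.lf (nat_lit 65814) (.g (nat_lit 2972) (.e (nat_lit 1598) (nat_lit 111) (.e (nat_lit 360452) (nat_lit 0) (.e (nat_lit 5907) (nat_lit 320) (.e (nat_lit 1220) (nat_lit 90) (.e (nat_lit 81938) (nat_lit 20) (.e (nat_lit 2005) (nat_lit 138) (.e (nat_lit 671748) (nat_lit 0) .nil))))))) (.g (nat_lit 5) .nil .nil))) 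
(.lf (nat_lit 65846) (.g (nat_lit 3453) (.e (nat_lit 1598) (nat_lit 111) (.e (nat_lit 360452) (nat_lit 0) (.e (nat_lit 7270) (nat_lit 385) (.e (nat_lit 122917) (nat_lit 15) (.e (nat_lit 360489) (nat_lit 21) (.e (nat_lit 770056) (nat_lit 5) .nil)))))) (.g (nat_lit 0) .nil .nil))))) (.nd (nat_lit 4) (.nd (nat_lit 5) 
(.lf (nat_lit 65806) (.g (nat_lit 1082) (.e (nat_lit 1598) (nat_lit 111) (.e (nat_lit 360452) (nat_lit 0) (.e (nat_lit 5907) (nat_lit 320) (.e (nat_lit 1219) (nat_lit 90) .nil)))) .nil)) 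
(.lf (nat_lit 65838) (.g (nat_lit 1894) (.e (nat_lit 1598) (nat_lit 111) (.e (nat_lit 360452) (nat_lit 0) (.e (nat_lit 7270) (nat_lit 385) (.e (nat_lit 122916) (nat_lit 14) (.e (nat_lit 352296) (nat_lit 20) .nil))))) .nil))) (.nd (nat_lit 5) 
(.lf (nat_lit 65822) (.g (nat_lit 2190) (.e (nat_lit 1598) (nat_lit 111) (.e (nat_lit 360452) (nat_lit 0) (.e (nat_lit 5907) (nat_lit 320) (.e (nat_lit 1221) (nat_lit 90) (.e (nat_lit 81939) (nat_lit 20) .nil))))) .nil)) 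
(.lf (nat_lit 65854) (.g (nat_lit 930) (.e (nat_lit 1598) (nat_lit 111) (.e (nat_lit 360452) (nat_lit 0) (.e (nat_lit 7271) (nat_lit 385) (.e (nat_lit 122906) (nat_lit 12) (.e (nat_lit 336167) (nat_lit 10) .nil))))) .nil))))))) (.nd (nat_lit 1) (.nd (nat_lit 2) (.nd (nat_lit 3) (.nd (nat_lit 4) (.nd (nat_lit 5) 
(.lf (nat_lit 65793) (.g (nat_lit 403) (.e (nat_lit 1598) (nat_lit 111) (.e (nat_lit 360452) (nat_lit 0) (.e (nat_lit 5907) (nat_lit 320) .nil))) .nil)) 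
(.lf (nat_lit 65825) (.g (nat_lit 1144) (.e (nat_lit 1598) (nat_lit 111) (.e (nat_lit 360452) (nat_lit 0) (.e (nat_lit 5907) (nat_lit 320) (.e (nat_lit 7936) (nat_lit 90) .nil)))) .nil))) (.nd (nat_lit 5) 
(.lf (nat_lit 65809) (.g (nat_lit 1775) (.e (nat_lit 1598) (nat_lit 111) (.e (nat_lit 360452) (nat_lit 0) (.e (nat_lit 5907) (nat_lit 320) (.e (nat_lit 1219) (nat_lit 90) (.e (nat_lit 81942) (nat_lit 20) .nil))))) .nil)) 
(.lf (nat_lit 65841) (.g (nat_lit 2702) (.e (nat_lit 1598) (nat_lit 111) (.e (nat_lit 360452) (nat_lit 0) (.e (nat_lit 7270) (nat_lit 385) (.e (nat_lit 122916) (nat_lit 14) (.e (nat_lit 352302) (nat_lit 20) (.e (nat_lit 2280) (nat_lit 150) (.e (nat_lit 770057) (nat_lit 5) .nil))))))) (.g (nat_lit 6) .nil .nil))))) (.nd (nat_lit 4) (.nd (nat_lit 5) 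
(.lf (nat_lit 65801) (.g (nat_lit 4216) (.e (nat_lit 1598) (nat_lit 111) (.e (nat_lit 360452) (nat_lit 0) (.e (nat_lit 5907) (nat_lit 320) (.e (nat_lit 1199) (nat_lit 88) (.e (nat_lit 65610) (nat_lit 10) (.e (nat_lit 344169) (nat_lit 40) (.e (nat_lit 671748) (nat_lit 0) .nil))))))) (.g (nat_lit 0) .nil .nil))) 
(.lf (nat_lit 65833) (.g (nat_lit 1266) (.e (nat_lit 1598) (nat_lit 111) (.e (nat_lit 360452) (nat_lit 0) (.e (nat_lit 7270) (nat_lit 385) (.e (nat_lit 122906) (nat_lit 12) .nil)))) .nil))) (.nd (nat_lit 5) 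
(.lf (nat_lit 65817) (.g (nat_lit 1965) (.e (nat_lit 1598) (nat_lit 111) (.e (nat_lit 360452) (nat_lit 0) (.e (nat_lit 5907) (nat_lit 320) (.e (nat_lit 1221) (nat_lit 90) (.e (nat_lit 81938) (nat_lit 20) .nil))))) .nil)) 
(.lf (nat_lit 65849) (.g (nat_lit 1536) (.e (nat_lit 1598) (nat_lit 111) (.e (nat_lit 360452) (nat_lit 0) (.e (nat_lit 7270) (nat_lit 385) (.e (nat_lit 122918) (nat_lit 15) (.e (nat_lit 360489) (nat_lit 21) .nil))))) .nil))))) (.nd (nat_lit 3) (.nd (nat_lit 4) (.nd (nat_lit 5) 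
(.lf (nat_lit 65797) (.g (nat_lit 3111) (.e (nat_lit 1598) (nat_lit 111) (.e (nat_lit 360452) (nat_lit 0) (.e (nat_lit 5907) (nat_lit 320) (.e (nat_lit 1190) (nat_lit 88) (.e (nat_lit 65619) (nat_lit 10) (.e (nat_lit 344169) (nat_lit 40) (.e (nat_lit 671746) (nat_lit 0) .nil))))))) (.g (nat_lit 5) .nil .nil))) 
(.lf (nat_lit 65829) (.g (nat_lit 3030) (.e (nat_lit 1598) (nat_lit 111) (.e (nat_lit 360452) (nat_lit 0) (.e (nat_lit 7147) (nat_lit 382) (.e (nat_lit 1216) (nat_lit 90) (.e (nat_lit 81938) (nat_lit 20) (.e (nat_lit 2281) (nat_lit 150) (.e (nat_lit 770058) (nat_lit 5) .nil))))))) (.g (nat_lit 0) .nil .nil)))) (.nd (nat_lit 5) 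
(.lf (nat_lit 65813) (.g (nat_lit 3746) (.e (nat_lit 1598) (nat_lit 111) (.e (nat_lit 360452) (nat_lit 0) (.e (nat_lit 5907) (nat_lit 320) (.e (nat_lit 1219) (nat_lit 90) (.e (nat_lit 81946) (nat_lit 20) (.e (nat_lit 2006) (nat_lit 138) (.e (nat_lit 671748) (nat_lit 0) .nil))))))) (.g (nat_lit 0) .nil .nil))) 
(.lf (nat_lit 65845) (.g (nat_lit 3113) (.e (nat_lit 1598) (nat_lit 111) (.e (nat_lit 360452) (nat_lit 0) (.e (nat_lit 7270) (nat_lit 385) (.e (nat_lit 122916) (nat_lit 14) (.e (nat_lit 352303) (nat_lit 20) (.e (nat_lit 2281) (nat_lit 150) (.e (nat_lit 770056) (nat_lit 5) .nil))))))) (.g (nat_lit 6) .nil .nil))))) (.nd (nat_lit 4) (.nd (nat_lit 5) 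
(.lf (nat_lit 65805) (.g (nat_lit 2842) (.e (nat_lit 1598) (nat_lit 111) (.e (nat_lit 360452) (nat_lit 0) (.e (nat_lit 5907) (nat_lit 320) (.e (nat_lit 1200) (nat_lit 88) (.e (nat_lit 65619) (nat_lit 10) (.e (nat_lit 344169) (nat_lit 40) (.e (nat_lit 671746) (nat_lit 0) .nil))))))) (.g (nat_lit 5) .nil .nil))) 
(.lf (nat_lit 65837) (.g (nat_lit 1150) (.e (nat_lit 1598) (nat_lit 111) (.e (nat_lit 360452) (nat_lit 0) (.e (nat_lit 7270) (nat_lit 385) (.e (nat_lit 122916) (nat_lit 14) .nil)))) .nil))) (.nd (nat_lit 5) 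
(.lf (nat_lit 65821) (.g (nat_lit 4261) (.e (nat_lit 1598) (nat_lit 111) (.e (nat_lit 360452) (nat_lit 0) (.e (nat_lit 5907) (nat_lit 320) (.e (nat_lit 1221) (nat_lit 90) (.e (nat_lit 81938) (nat_lit 20) (.e (nat_lit 2006) (nat_lit 138) (.e (nat_lit 671748) (nat_lit 0) .nil))))))) (.g (nat_lit 0) .nil .nil))) 
(.lf (nat_lit 65853) (.g (nat_lit 3486) (.e (nat_lit 1598) (nat_lit 111) (.e (nat_lit 360452) (nat_lit 0) (.e (nat_lit 7270) (nat_lit 385) (.e (nat_lit 122919) (nat_lit 15) (.e (nat_lit 360489) (nat_lit 21) (.e (nat_lit 770058) (nat_lit 5) .nil)))))) (.g (nat_lit 0) .nil .nil))))))) (.nd (nat_lit 2) (.nd (nat_lit 3) (.nd (nat_lit 4) (.nd (nat_lit 5) 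
(.lf (nat_lit 65795) (.g (nat_lit 2241) (.e (nat_lit 1598) (nat_lit 111) (.e (nat_lit 360452) (nat_lit 0) (.e (nat_lit 5907) (nat_lit 320) (.e (nat_lit 1190) (nat_lit 88) (.e (nat_lit 65616) (nat_lit 10) (.e (nat_lit 344169) (nat_lit 40) (.e (nat_lit 671748) (nat_lit 0) .nil))))))) (.g (nat_lit 4) .nil .nil))) 
(.lf (nat_lit 65827) (.g (nat_lit 700) (.e (nat_lit 1598) (nat_lit 111) (.e (nat_lit 360452) (nat_lit 0) (.e (nat_lit 7147) (nat_lit 382) (.e (nat_lit 1216) (nat_lit 90) .nil)))) .nil))) (.nd (nat_lit 5) 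
(.lf (nat_lit 65811) (.g (nat_lit 3502) (.e (nat_lit 1598) (nat_lit 111) (.e (nat_lit 360452) (nat_lit 0) (.e (nat_lit 5907) (nat_lit 320) (.e (nat_lit 1219) (nat_lit 90) (.e (nat_lit 81943) (nat_lit 20) (.e (nat_lit 2006) (nat_lit 138) (.e (nat_lit 671748) (nat_lit 0) .nil))))))) (.g (nat_lit 0) .nil .nil))) 
(.lf (nat_lit 65843) (.g (nat_lit 3496) (.e (nat_lit 1598) (nat_lit 111) (.e (nat_lit 360452) (nat_lit 0) (.e (nat_lit 7270) (nat_lit 385) (.e (nat_lit 122916) (nat_lit 14) (.e (nat_lit 352302) (nat_lit 20) (.e (nat_lit 2281) (nat_lit 150) (.e (nat_lit 770057) (nat_lit 5) .nil))))))) (.g (nat_lit 7) .nil .nil))))) (.nd (nat_lit 4) (.nd (nat_lit 5) 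
(.lf (nat_lit 65803) (.g (nat_lit 4123) (.e (nat_lit 1598) (nat_lit 111) (.e (nat_lit 360452) (nat_lit 0) (.e (nat_lit 5907) (nat_lit 320) (.e (nat_lit 1199) (nat_lit 88) (.e (nat_lit 65617) (nat_lit 10) (.e (nat_lit 344169) (nat_lit 40) (.e (nat_lit 671748) (nat_lit 0) .nil))))))) (.g (nat_lit 0) .nil .nil))) 
(.lf (nat_lit 65835) (.g (nat_lit 1934) (.e (nat_lit 1598) (nat_lit 111) (.e (nat_lit 360452) (nat_lit 0) (.e (nat_lit 7270) (nat_lit 385) (.e (nat_lit 122906) (nat_lit 12) (.e (nat_lit 336173) (nat_lit 10) (.e (nat_lit 344177) (nat_lit 43) (.e (nat_lit 770056) (nat_lit 5) .nil))))))) (.g (nat_lit 4) .nil .nil)))) (.nd (nat_lit 5) 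
(.lf (nat_lit 65819) (.g (nat_lit 2011) (.e (nat_lit 1598) (nat_lit 111) (.e (nat_lit 360452) (nat_lit 0) (.e (nat_lit 5907) (nat_lit 320) (.e (nat_lit 1221) (nat_lit 90) (.e (nat_lit 81938) (nat_lit 20) (.e (nat_lit 2005) (nat_lit 138) (.e (nat_lit 671746) (nat_lit 0) .nil))))))) (.g (nat_lit 4) .nil .nil))) 
(.lf (nat_lit 65851) (.g (nat_lit 3157) (.e (nat_lit 1598) (nat_lit 111) (.e (nat_lit 360452) (nat_lit 0) (.e (nat_lit 7270) (nat_lit 385) (.e (nat_lit 122919) (nat_lit 15) (.e (nat_lit 360489) (nat_lit 21) (.e (nat_lit 770056) (nat_lit 5) .nil)))))) (.g (nat_lit 0) .nil .nil)))))) (.nd (nat_lit 3) (.nd (nat_lit 4) (.nd (nat_lit 5) 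
(.lf (nat_lit 65799) (.g (nat_lit 1189) (.e (nat_lit 1598) (nat_lit 111) (.e (nat_lit 360452) (nat_lit 0) (.e (nat_lit 5907) (nat_lit 320) (.e (nat_lit 1199) (nat_lit 88) .nil)))) .nil)) 
(.lf (nat_lit 65831) (.g (nat_lit 2198) (.e (nat_lit 1598) (nat_lit 111) (.e (nat_lit 360452) (nat_lit 0) (.e (nat_lit 7147) (nat_lit 382) (.e (nat_lit 1217) (nat_lit 90) (.e (nat_lit 81946) (nat_lit 20) (.e (nat_lit 2280) (nat_lit 150) (.e (nat_lit 770056) (nat_lit 5) .nil))))))) (.g (nat_lit 5) .nil .nil)))) (.nd (nat_lit 5) 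
(.lf (nat_lit 65815) (.g (nat_lit 3036) (.e (nat_lit 1598) (nat_lit 111) (.e (nat_lit 360452) (nat_lit 0) (.e (nat_lit 5907) (nat_lit 320) (.e (nat_lit 1220) (nat_lit 90) (.e (nat_lit 81938) (nat_lit 20) (.e (nat_lit 2006) (nat_lit 138) (.e (nat_lit 671748) (nat_lit 0) .nil))))))) (.g (nat_lit 5) .nil .nil))) 
(.lf (nat_lit 65847) (.g (nat_lit 3537) (.e (nat_lit 1598) (nat_lit 111) (.e (nat_lit 360452) (nat_lit 0) (.e (nat_lit 7270) (nat_lit 385) (.e (nat_lit 122917) (nat_lit 15) (.e (nat_lit 360489) (nat_lit 21) (.e (nat_lit 770057) (nat_lit 5) .nil)))))) (.g (nat_lit 0) .nil .nil))))) (.nd (nat_lit 4) (.nd (nat_lit 5) 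
(.lf (nat_lit 65807) (.g (nat_lit 1901) (.e (nat_lit 1598) (nat_lit 111) (.e (nat_lit 360452) (nat_lit 0) (.e (nat_lit 5907) (nat_lit 320) (.e (nat_lit 1219) (nat_lit 90) (.e (nat_lit 81938) (nat_lit 20) .nil))))) .nil)) 
(.lf (nat_lit 65839) (.g (nat_lit 2850) (.e (nat_lit 1598) (nat_lit 111) (.e (nat_lit 360452) (nat_lit 0) (.e (nat_lit 7270) (nat_lit 385) (.e (nat_lit 122916) (nat_lit 14) (.e (nat_lit 352302) (nat_lit 20) (.e (nat_lit 2280) (nat_lit 150) (.e (nat_lit 770055) (nat_lit 5) .nil))))))) (.g (nat_lit 6) .nil .nil)))) (.nd (nat_lit 5) 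
(.lf (nat_lit 65823) (.g (nat_lit 2902) (.e (nat_lit 1598) (nat_lit 111) (.e (nat_lit 360452) (nat_lit 0) (.e (nat_lit 5907) (nat_lit 320) (.e (nat_lit 1221) (nat_lit 90) (.e (nat_lit 81947) (nat_lit 20) (.e (nat_lit 2005) (nat_lit 138) (.e (nat_lit 671747) (nat_lit 0) .nil))))))) (.g (nat_lit 5) .nil .nil))) 
(.lf (nat_lit 65855) (.g (nat_lit 1428) (.e (nat_lit 1598) (nat_lit 111) (.e (nat_lit 360452) (nat_lit 0) (.e (nat_lit 7271) (nat_lit 385) (.e (nat_lit 122916) (nat_lit 14) (.e (nat_lit 352296) (nat_lit 20) .nil))))) .nil))))))))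

noncomputable def tv907 : DT := (.nd (nat_lit 0) (.nd (nat_lit 1) (.nd (nat_lit 2) (.nd (nat_lit 3) (.nd (nat_lit 4) 
(.lf (nat_lit 65856) (.g (nat_lit 2440) (.e (nat_lit 1598) (nat_lit 111) (.e (nat_lit 360452) (nat_lit 0) (.e (nat_lit 7271) (nat_lit 385) (.e (nat_lit 122916) (nat_lit 14) (.e (nat_lit 352302) (nat_lit 20) (.e (nat_lit 2280) (nat_lit 150) (.e (nat_lit 770055) (nat_lit 5) .nil))))))) (.g (nat_lit 6) .nil .nil))) 
(.lf (nat_lit 65872) (.g (nat_lit 1684) (.e (nat_lit 1598) (nat_lit 111) (.e (nat_lit 360452) (nat_lit 0) (.e (nat_lit 7272) (nat_lit 385) (.e (nat_lit 122906) (nat_lit 12) (.e (nat_lit 336167) (nat_lit 10) (.e (nat_lit 344177) (nat_lit 43) (.e (nat_lit 770055) (nat_lit 5) .nil))))))) (.g (nat_lit 4) .nil .nil)))) (.nd (nat_lit 4) 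
(.lf (nat_lit 65864) (.g (nat_lit 1624) (.e (nat_lit 1598) (nat_lit 111) (.e (nat_lit 360452) (nat_lit 0) (.e (nat_lit 7271) (nat_lit 385) (.e (nat_lit 122918) (nat_lit 15) (.e (nat_lit 360489) (nat_lit 21) (.e (nat_lit 770056) (nat_lit 5) .nil)))))) (.g (nat_lit 5) .nil .nil))) 
(.lf (nat_lit 65880) (.g (nat_lit 2919) (.e (nat_lit 1598) (nat_lit 111) (.e (nat_lit 360452) (nat_lit 0) (.e (nat_lit 7272) (nat_lit 385) (.e (nat_lit 122916) (nat_lit 14) (.e (nat_lit 352302) (nat_lit 20) (.e (nat_lit 2280) (nat_lit 150) (.e (nat_lit 770055) (nat_lit 5) .nil))))))) (.g (nat_lit 6) .nil .nil))))) (.nd (nat_lit 3) (.nd (nat_lit 4) 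
(.lf (nat_lit 65860) (.g (nat_lit 3087) (.e (nat_lit 1598) (nat_lit 111) (.e (nat_lit 360452) (nat_lit 0) (.e (nat_lit 7271) (nat_lit 385) (.e (nat_lit 122916) (nat_lit 14) (.e (nat_lit 352302) (nat_lit 20) (.e (nat_lit 2281) (nat_lit 150) (.e (nat_lit 770057) (nat_lit 5) .nil))))))) (.g (nat_lit 7) .nil .nil))) 
(.lf (nat_lit 65876) (.g (nat_lit 2826) (.e (nat_lit 1598) (nat_lit 111) (.e (nat_lit 360452) (nat_lit 0) (.e (nat_lit 7272) (nat_lit 385) (.e (nat_lit 122906) (nat_lit 12) (.e (nat_lit 336173) (nat_lit 10) (.e (nat_lit 344177) (nat_lit 43) (.e (nat_lit 770056) (nat_lit 5) .nil))))))) (.g (nat_lit 6) .nil .nil)))) (.nd (nat_lit 4) 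
(.lf (nat_lit 65868) (.g (nat_lit 2609) (.e (nat_lit 1598) (nat_lit 111) (.e (nat_lit 360452) (nat_lit 0) (.e (nat_lit 7271) (nat_lit 385) (.e (nat_lit 122919) (nat_lit 15) (.e (nat_lit 360489) (nat_lit 21) (.e (nat_lit 770056) (nat_lit 5) .nil)))))) (.g (nat_lit 0) .nil .nil))) 
(.lf (nat_lit 65884) (.g (nat_lit 3554) (.e (nat_lit 1598) (nat_lit 111) (.e (nat_lit 360452) (nat_lit 0) (.e (nat_lit 7272) (nat_lit 385) (.e (nat_lit 122916) (nat_lit 14) (.e (nat_lit 352302) (nat_lit 20) (.e (nat_lit 2281) (nat_lit 150) (.e (nat_lit 770057) (nat_lit 5) .nil))))))) (.g (nat_lit 0) .nil .nil)))))) (.nd (nat_lit 2) (.nd (nat_lit 3) (.nd (nat_lit 4) 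
(.lf (nat_lit 65858) (.g (nat_lit 2293) (.e (nat_lit 1598) (nat_lit 111) (.e (nat_lit 360452) (nat_lit 0) (.e (nat_lit 7271) (nat_lit 385) (.e (nat_lit 122916) (nat_lit 14) (.e (nat_lit 352302) (nat_lit 20) (.e (nat_lit 2280) (nat_lit 150) (.e (nat_lit 770057) (nat_lit 5) .nil))))))) (.g (nat_lit 6) .nil .nil))) 
(.lf (nat_lit 65874) (.g (nat_lit 1238) (.e (nat_lit 1598) (nat_lit 111) (.e (nat_lit 360452) (nat_lit 0) (.e (nat_lit 7272) (nat_lit 385) (.e (nat_lit 122906) (nat_lit 12) (.e (nat_lit 336172) (nat_lit 10) .nil))))) .nil))) (.nd (nat_lit 4) 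
(.lf (nat_lit 65866) (.g (nat_lit 1708) (.e (nat_lit 1598) (nat_lit 111) (.e (nat_lit 360452) (nat_lit 0) (.e (nat_lit 7271) (nat_lit 385) (.e (nat_lit 122918) (nat_lit 15) (.e (nat_lit 360489) (nat_lit 21) (.e (nat_lit 770058) (nat_lit 5) .nil)))))) (.g (nat_lit 5) .nil .nil))) 
(.lf (nat_lit 65882) (.g (nat_lit 2760) (.e (nat_lit 1598) (nat_lit 111) (.e (nat_lit 360452) (nat_lit 0) (.e (nat_lit 7272) (nat_lit 385) (.e (nat_lit 122916) (nat_lit 14) (.e (nat_lit 352302) (nat_lit 20) (.e (nat_lit 2280) (nat_lit 150) (.e (nat_lit 770057) (nat_lit 5) .nil))))))) (.g (nat_lit 6) .nil .nil))))) (.nd (nat_lit 3) (.nd (nat_lit 4) 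
(.lf (nat_lit 65862) (.g (nat_lit 2584) (.e (nat_lit 1598) (nat_lit 111) (.e (nat_lit 360452) (nat_lit 0) (.e (nat_lit 7271) (nat_lit 385) (.e (nat_lit 122916) (nat_lit 14) (.e (nat_lit 352303) (nat_lit 20) (.e (nat_lit 2281) (nat_lit 150) (.e (nat_lit 770056) (nat_lit 5) .nil))))))) (.g (nat_lit 6) .nil .nil))) 
(.lf (nat_lit 65878) (.g (nat_lit 2984) (.e (nat_lit 1598) (nat_lit 111) (.e (nat_lit 360452) (nat_lit 0) (.e (nat_lit 7272) (nat_lit 385) (.e (nat_lit 122906) (nat_lit 12) (.e (nat_lit 336173) (nat_lit 10) (.e (nat_lit 344177) (nat_lit 43) (.e (nat_lit 770058) (nat_lit 5) .nil))))))) (.g (nat_lit 6) .nil .nil)))) (.nd (nat_lit 4) 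
(.lf (nat_lit 65870) (.g (nat_lit 354) (.e (nat_lit 1598) (nat_lit 111) (.e (nat_lit 360452) (nat_lit 0) (.e (nat_lit 7272) (nat_lit 385) .nil))) .nil)) 
(.lf (nat_lit 65886) (.g (nat_lit 2914) (.e (nat_lit 1598) (nat_lit 111) (.e (nat_lit 360452) (nat_lit 0) (.e (nat_lit 7272) (nat_lit 385) (.e (nat_lit 122916) (nat_lit 14) (.e (nat_lit 352303) (nat_lit 20) (.e (nat_lit 2281) (nat_lit 150) (.e (nat_lit 770057) (nat_lit 5) .nil))))))) (.g (nat_lit 6) .nil .nil))))))) (.nd (nat_lit 1) (.nd (nat_lit 2) (.nd (nat_lit 3) (.nd (nat_lit 4) 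
(.lf (nat_lit 65857) (.g (nat_lit 1961) (.e (nat_lit 1598) (nat_lit 111) (.e (nat_lit 360452) (nat_lit 0) (.e (nat_lit 7271) (nat_lit 385) (.e (nat_lit 122916) (nat_lit 14) (.e (nat_lit 352302) (nat_lit 20) (.e (nat_lit 2280) (nat_lit 150) (.e (nat_lit 770056) (nat_lit 5) .nil))))))) (.g (nat_lit 5) .nil .nil))) 
(.lf (nat_lit 65873) (.g (nat_lit 1695) (.e (nat_lit 1598) (nat_lit 111) (.e (nat_lit 360452) (nat_lit 0) (.e (nat_lit 7272) (nat_lit 385) (.e (nat_lit 122906) (nat_lit 12) (.e (nat_lit 336167) (nat_lit 10) (.e (nat_lit 344177) (nat_lit 43) (.e (nat_lit 770056) (nat_lit 5) .nil))))))) (.g (nat_lit 4) .nil .nil)))) (.nd (nat_lit 4) 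
(.lf (nat_lit 65865) (.g (nat_lit 1729) (.e (nat_lit 1598) (nat_lit 111) (.e (nat_lit 360452) (nat_lit 0) (.e (nat_lit 7271) (nat_lit 385) (.e (nat_lit 122918) (nat_lit 15) (.e (nat_lit 360489) (nat_lit 21) (.e (nat_lit 770057) (nat_lit 5) .nil)))))) (.g (nat_lit 5) .nil .nil))) 
(.lf (nat_lit 65881) (.g (nat_lit 2440) (.e (nat_lit 1598) (nat_lit 111) (.e (nat_lit 360452) (nat_lit 0) (.e (nat_lit 7272) (nat_lit 385) (.e (nat_lit 122916) (nat_lit 14) (.e (nat_lit 352302) (nat_lit 20) (.e (nat_lit 2280) (nat_lit 150) (.e (nat_lit 770056) (nat_lit 5) .nil))))))) (.g (nat_lit 5) .nil .nil))))) (.nd (nat_lit 3) (.nd (nat_lit 4) 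
(.lf (nat_lit 65861) (.g (nat_lit 3182) (.e (nat_lit 1598) (nat_lit 111) (.e (nat_lit 360452) (nat_lit 0) (.e (nat_lit 7271) (nat_lit 385) (.e (nat_lit 122916) (nat_lit 14) (.e (nat_lit 352302) (nat_lit 20) (.e (nat_lit 2281) (nat_lit 150) (.e (nat_lit 770058) (nat_lit 5) .nil))))))) (.g (nat_lit 7) .nil .nil))) 
(.lf (nat_lit 65877) (.g (nat_lit 2983) (.e (nat_lit 1598) (nat_lit 111) (.e (nat_lit 360452) (nat_lit 0) (.e (nat_lit 7272) (nat_lit 385) (.e (nat_lit 122906) (nat_lit 12) (.e (nat_lit 336173) (nat_lit 10) (.e (nat_lit 344177) (nat_lit 43) (.e (nat_lit 770057) (nat_lit 5) .nil))))))) (.g (nat_lit 6) .nil .nil)))) (.nd (nat_lit 4) 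
(.lf (nat_lit 65869) (.g (nat_lit 2607) (.e (nat_lit 1598) (nat_lit 111) (.e (nat_lit 360452) (nat_lit 0) (.e (nat_lit 7271) (nat_lit 385) (.e (nat_lit 122919) (nat_lit 15) (.e (nat_lit 360489) (nat_lit 21) (.e (nat_lit 770057) (nat_lit 5) .nil)))))) (.g (nat_lit 0) .nil .nil))) 
(.lf (nat_lit 65885) (.g (nat_lit 2929) (.e (nat_lit 1598) (nat_lit 111) (.e (nat_lit 360452) (nat_lit 0) (.e (nat_lit 7272) (nat_lit 385) (.e (nat_lit 122916) (nat_lit 14) (.e (nat_lit 352303) (nat_lit 20) (.e (nat_lit 2281) (nat_lit 150) (.e (nat_lit 770056) (nat_lit 5) .nil))))))) (.g (nat_lit 6) .nil .nil)))))) (.nd (nat_lit 2) (.nd (nat_lit 3) (.nd (nat_lit 4) 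
(.lf (nat_lit 65859) (.g (nat_lit 2962) (.e (nat_lit 1598) (nat_lit 111) (.e (nat_lit 360452) (nat_lit 0) (.e (nat_lit 7271) (nat_lit 385) (.e (nat_lit 122916) (nat_lit 14) (.e (nat_lit 352302) (nat_lit 20) (.e (nat_lit 2281) (nat_lit 150) (.e (nat_lit 770056) (nat_lit 5) .nil))))))) (.g (nat_lit 7) .nil .nil))) 
(.lf (nat_lit 65875) (.g (nat_lit 2758) (.e (nat_lit 1598) (nat_lit 111) (.e (nat_lit 360452) (nat_lit 0) (.e (nat_lit 7272) (nat_lit 385) (.e (nat_lit 122906) (nat_lit 12) (.e (nat_lit 336173) (nat_lit 10) (.e (nat_lit 344177) (nat_lit 43) (.e (nat_lit 770055) (nat_lit 5) .nil))))))) (.g (nat_lit 6) .nil .nil)))) (.nd (nat_lit 4) 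
(.lf (nat_lit 65867) (.g (nat_lit 2653) (.e (nat_lit 1598) (nat_lit 111) (.e (nat_lit 360452) (nat_lit 0) (.e (nat_lit 7271) (nat_lit 385) (.e (nat_lit 122919) (nat_lit 15) (.e (nat_lit 360489) (nat_lit 21) (.e (nat_lit 770055) (nat_lit 5) .nil)))))) (.g (nat_lit 0) .nil .nil))) 
(.lf (nat_lit 65883) (.g (nat_lit 3441) (.e (nat_lit 1598) (nat_lit 111) (.e (nat_lit 360452) (nat_lit 0) (.e (nat_lit 7272) (nat_lit 385) (.e (nat_lit 122916) (nat_lit 14) (.e (nat_lit 352302) (nat_lit 20) (.e (nat_lit 2281) (nat_lit 150) (.e (nat_lit 770056) (nat_lit 5) .nil))))))) (.g (nat_lit 7) .nil .nil))))) (.nd (nat_lit 3) (.nd (nat_lit 4) 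
(.lf (nat_lit 65863) (.g (nat_lit 2581) (.e (nat_lit 1598) (nat_lit 111) (.e (nat_lit 360452) (nat_lit 0) (.e (nat_lit 7271) (nat_lit 385) (.e (nat_lit 122916) (nat_lit 14) (.e (nat_lit 352303) (nat_lit 20) (.e (nat_lit 2281) (nat_lit 150) (.e (nat_lit 770057) (nat_lit 5) .nil))))))) (.g (nat_lit 6) .nil .nil))) 
(.lf (nat_lit 65879) (.g (nat_lit 1091) (.e (nat_lit 1598) (nat_lit 111) (.e (nat_lit 360452) (nat_lit 0) (.e (nat_lit 7272) (nat_lit 385) (.e (nat_lit 122916) (nat_lit 14) .nil)))) .nil))) (.nd (nat_lit 4) 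
(.lf (nat_lit 65871) (.g (nat_lit 1068) (.e (nat_lit 1598) (nat_lit 111) (.e (nat_lit 360452) (nat_lit 0) (.e (nat_lit 7272) (nat_lit 385) (.e (nat_lit 122906) (nat_lit 12) .nil)))) .nil)) 
(.lf (nat_lit 65887) (.g (nat_lit 3251) (.e (nat_lit 1598) (nat_lit 111) (.e (nat_lit 360452) (nat_lit 0) (.e (nat_lit 7272) (nat_lit 385) (.e (nat_lit 122917) (nat_lit 15) (.e (nat_lit 360489) (nat_lit 21) (.e (nat_lit 770057) (nat_lit 5) .nil)))))) (.g (nat_lit 0) .nil .nil))))))))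

noncomputable def tv908 : DT := (.nd (nat_lit 0) (.nd (nat_lit 1) (.nd (nat_lit 2) (.nd (nat_lit 3) (.nd (nat_lit 4) 
(.lf (nat_lit 65888) (.g (nat_lit 3567) (.e (nat_lit 1598) (nat_lit 111) (.e (nat_lit 360452) (nat_lit 0) (.e (nat_lit 7272) (nat_lit 385) (.e (nat_lit 122917) (nat_lit 15) (.e (nat_lit 360489) (nat_lit 21) (.e (nat_lit 770058) (nat_lit 5) .nil)))))) (.g (nat_lit 0) .nil .nil))) 
(.lf (nat_lit 65904) (.g (nat_lit 2806) (.e (nat_lit 1598) (nat_lit 111) (.e (nat_lit 360452) (nat_lit 0) (.e (nat_lit 7273) (nat_lit 385) (.e (nat_lit 122917) (nat_lit 15) (.e (nat_lit 360489) (nat_lit 21) (.e (nat_lit 770058) (nat_lit 5) .nil)))))) (.g (nat_lit 0) .nil .nil)))) (.nd (nat_lit 4) 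
(.lf (nat_lit 65896) (.g (nat_lit 1623) (.e (nat_lit 1598) (nat_lit 111) (.e (nat_lit 360452) (nat_lit 0) (.e (nat_lit 7273) (nat_lit 385) (.e (nat_lit 122916) (nat_lit 14) (.e (nat_lit 352302) (nat_lit 20) (.e (nat_lit 2280) (nat_lit 150) (.e (nat_lit 770056) (nat_lit 5) .nil))))))) (.g (nat_lit 4) .nil .nil))) 
(.lf (nat_lit 65912) (.g (nat_lit 2522) (.e (nat_lit 1598) (nat_lit 111) (.e (nat_lit 360456) (nat_lit 0) (.e (nat_lit 5818) (nat_lit 320) (.e (nat_lit 1224) (nat_lit 90) (.e (nat_lit 81947) (nat_lit 20) (.e (nat_lit 2005) (nat_lit 138) (.e (nat_lit 671748) (nat_lit 0) .nil))))))) (.g (nat_lit 7) .nil .nil))))) (.nd (nat_lit 3) (.nd (nat_lit 4) 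
(.lf (nat_lit 65892) (.g (nat_lit 3137) (.e (nat_lit 1598) (nat_lit 111) (.e (nat_lit 360452) (nat_lit 0) (.e (nat_lit 7272) (nat_lit 385) (.e (nat_lit 122919) (nat_lit 15) (.e (nat_lit 360489) (nat_lit 21) (.e (nat_lit 770058) (nat_lit 5) .nil)))))) (.g (nat_lit 0) .nil .nil))) 
(.lf (nat_lit 65908) (.g (nat_lit 3397) (.e (nat_lit 1598) (nat_lit 111) (.e (nat_lit 360456) (nat_lit 0) (.e (nat_lit 5817) (nat_lit 320) (.e (nat_lit 1201) (nat_lit 88) (.e (nat_lit 65610) (nat_lit 10) (.e (nat_lit 344169) (nat_lit 40) (.e (nat_lit 671748) (nat_lit 0) .nil))))))) (.g (nat_lit 7) .nil .nil)))) (.nd (nat_lit 4) 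
(.lf (nat_lit 65900) (.g (nat_lit 2861) (.e (nat_lit 1598) (nat_lit 111) (.e (nat_lit 360452) (nat_lit 0) (.e (nat_lit 7273) (nat_lit 385) (.e (nat_lit 122916) (nat_lit 14) (.e (nat_lit 352302) (nat_lit 20) (.e (nat_lit 2281) (nat_lit 150) (.e (nat_lit 770058) (nat_lit 5) .nil))))))) (.g (nat_lit 6) .nil .nil))) 
(.lf (nat_lit 65916) (.g (nat_lit 1232) (.e (nat_lit 1598) (nat_lit 111) (.e (nat_lit 368384) (nat_lit 0) (.e (nat_lit 5222) (nat_lit 296) (.e (nat_lit 163933) (nat_lit 17) (.e (nat_lit 466967) (nat_lit 20) (.e (nat_lit 3386) (nat_lit 210) (.e (nat_lit 639008) (nat_lit 13) .nil))))))) (.g (nat_lit 5) .nil .nil)))))) (.nd (nat_lit 2) (.nd (nat_lit 3) (.nd (nat_lit 4) 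
(.lf (nat_lit 65890) (.g (nat_lit 2873) (.e (nat_lit 1598) (nat_lit 111) (.e (nat_lit 360452) (nat_lit 0) (.e (nat_lit 7272) (nat_lit 385) (.e (nat_lit 122919) (nat_lit 15) (.e (nat_lit 360489) (nat_lit 21) (.e (nat_lit 770056) (nat_lit 5) .nil)))))) (.g (nat_lit 0) .nil .nil))) 
(.lf (nat_lit 65906) (.g (nat_lit 2382) (.e (nat_lit 1598) (nat_lit 111) (.e (nat_lit 360452) (nat_lit 0) (.e (nat_lit 7273) (nat_lit 385) (.e (nat_lit 122919) (nat_lit 15) (.e (nat_lit 360489) (nat_lit 21) (.e (nat_lit 770057) (nat_lit 5) .nil)))))) (.g (nat_lit 0) .nil .nil)))) (.nd (nat_lit 4) 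
(.lf (nat_lit 65898) (.g (nat_lit 2624) (.e (nat_lit 1598) (nat_lit 111) (.e (nat_lit 360452) (nat_lit 0) (.e (nat_lit 7273) (nat_lit 385) (.e (nat_lit 122916) (nat_lit 14) (.e (nat_lit 352302) (nat_lit 20) (.e (nat_lit 2281) (nat_lit 150) (.e (nat_lit 770056) (nat_lit 5) .nil))))))) (.g (nat_lit 6) .nil .nil))) 
(.lf (nat_lit 65914) (.g (nat_lit 2330) (.e (nat_lit 1598) (nat_lit 111) (.e (nat_lit 360456) (nat_lit 0) (.e (nat_lit 5949) (nat_lit 322) (.e (nat_lit 57426) (nat_lit 15) (.e (nat_lit 360486) (nat_lit 18) (.e (nat_lit 671748) (nat_lit 0) .nil)))))) (.g (nat_lit 0) .nil .nil))))) (.nd (nat_lit 3) (.nd (nat_lit 4) 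
(.lf (nat_lit 65894) (.g (nat_lit 927) (.e (nat_lit 1598) (nat_lit 111) (.e (nat_lit 360452) (nat_lit 0) (.e (nat_lit 7273) (nat_lit 385) (.e (nat_lit 122906) (nat_lit 12) .nil)))) .nil)) 
(.lf (nat_lit 65910) (.g (nat_lit 2378) (.e (nat_lit 1598) (nat_lit 111) (.e (nat_lit 360456) (nat_lit 0) (.e (nat_lit 5818) (nat_lit 320) (.e (nat_lit 1224) (nat_lit 90) (.e (nat_lit 81946) (nat_lit 20) (.e (nat_lit 2005) (nat_lit 138) (.e (nat_lit 671748) (nat_lit 0) .nil))))))) (.g (nat_lit 0) .nil .nil)))) (.nd (nat_lit 4) 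
(.lf (nat_lit 65902) (.g (nat_lit 2419) (.e (nat_lit 1598) (nat_lit 111) (.e (nat_lit 360452) (nat_lit 0) (.e (nat_lit 7273) (nat_lit 385) (.e (nat_lit 122916) (nat_lit 14) (.e (nat_lit 352303) (nat_lit 20) (.e (nat_lit 2281) (nat_lit 150) (.e (nat_lit 770058) (nat_lit 5) .nil))))))) (.g (nat_lit 6) .nil .nil))) 
(.lf (nat_lit 65918) (.g (nat_lit 1955) (.e (nat_lit 1598) (nat_lit 111) (.e (nat_lit 368384) (nat_lit 0) (.e (nat_lit 7685) (nat_lit 410) (.e (nat_lit 2649) (nat_lit 166) (.e (nat_lit 188434) (nat_lit 20) (.e (nat_lit 3289) (nat_lit 201) (.e (nat_lit 565251) (nat_lit 0) .nil))))))) (.g (nat_lit 6) .nil .nil))))))) (.nd (nat_lit 1) (.nd (nat_lit 2) (.nd (nat_lit 3) (.nd (nat_lit 4) 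
(.lf (nat_lit 65889) (.g (nat_lit 2914) (.e (nat_lit 1598) (nat_lit 111) (.e (nat_lit 360452) (nat_lit 0) (.e (nat_lit 7272) (nat_lit 385) (.e (nat_lit 122919) (nat_lit 15) (.e (nat_lit 360489) (nat_lit 21) (.e (nat_lit 770055) (nat_lit 5) .nil)))))) (.g (nat_lit 0) .nil .nil))) 
(.lf (nat_lit 65905) (.g (nat_lit 2380) (.e (nat_lit 1598) (nat_lit 111) (.e (nat_lit 360452) (nat_lit 0) (.e (nat_lit 7273) (nat_lit 385) (.e (nat_lit 122919) (nat_lit 15) (.e (nat_lit 360489) (nat_lit 21) (.e (nat_lit 770056) (nat_lit 5) .nil)))))) (.g (nat_lit 0) .nil .nil)))) (.nd (nat_lit 4) 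
(.lf (nat_lit 65897) (.g (nat_lit 1950) (.e (nat_lit 1598) (nat_lit 111) (.e (nat_lit 360452) (nat_lit 0) (.e (nat_lit 7273) (nat_lit 385) (.e (nat_lit 122916) (nat_lit 14) (.e (nat_lit 352302) (nat_lit 20) (.e (nat_lit 2280) (nat_lit 150) (.e (nat_lit 770057) (nat_lit 5) .nil))))))) (.g (nat_lit 4) .nil .nil))) 
(.lf (nat_lit 65913) (.g (nat_lit 2066) (.e (nat_lit 1598) (nat_lit 111) (.e (nat_lit 360456) (nat_lit 0) (.e (nat_lit 5948) (nat_lit 322) (.e (nat_lit 57427) (nat_lit 15) (.e (nat_lit 360486) (nat_lit 18) (.e (nat_lit 671748) (nat_lit 0) .nil)))))) (.g (nat_lit 5) .nil .nil))))) (.nd (nat_lit 3) (.nd (nat_lit 4) 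
(.lf (nat_lit 65893) (.g (nat_lit 426) (.e (nat_lit 1598) (nat_lit 111) (.e (nat_lit 360452) (nat_lit 0) (.e (nat_lit 7273) (nat_lit 385) .nil))) .nil)) 
(.lf (nat_lit 65909) (.g (nat_lit 2510) (.e (nat_lit 1598) (nat_lit 111) (.e (nat_lit 360456) (nat_lit 0) (.e (nat_lit 5818) (nat_lit 320) (.e (nat_lit 1222) (nat_lit 90) (.e (nat_lit 81943) (nat_lit 20) (.e (nat_lit 2005) (nat_lit 138) (.e (nat_lit 671748) (nat_lit 0) .nil))))))) (.g (nat_lit 0) .nil .nil)))) (.nd (nat_lit 4) 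
(.lf (nat_lit 65901) (.g (nat_lit 2312) (.e (nat_lit 1598) (nat_lit 111) (.e (nat_lit 360452) (nat_lit 0) (.e (nat_lit 7273) (nat_lit 385) (.e (nat_lit 122916) (nat_lit 14) (.e (nat_lit 352303) (nat_lit 20) (.e (nat_lit 2281) (nat_lit 150) (.e (nat_lit 770057) (nat_lit 5) .nil))))))) (.g (nat_lit 5) .nil .nil))) 
(.lf (nat_lit 65917) (.g (nat_lit 2414) (.e (nat_lit 1598) (nat_lit 111) (.e (nat_lit 368384) (nat_lit 0) (.e (nat_lit 5905) (nat_lit 320) (.e (nat_lit 1221) (nat_lit 90) (.e (nat_lit 81938) (nat_lit 20) (.e (nat_lit 2005) (nat_lit 138) (.e (nat_lit 671748) (nat_lit 0) .nil))))))) (.g (nat_lit 5) .nil .nil)))))) (.nd (nat_lit 2) (.nd (nat_lit 3) (.nd (nat_lit 4) 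
(.lf (nat_lit 65891) (.g (nat_lit 2874) (.e (nat_lit 1598) (nat_lit 111) (.e (nat_lit 360452) (nat_lit 0) (.e (nat_lit 7272) (nat_lit 385) (.e (nat_lit 122919) (nat_lit 15) (.e (nat_lit 360489) (nat_lit 21) (.e (nat_lit 770057) (nat_lit 5) .nil)))))) (.g (nat_lit 0) .nil .nil))) 
(.lf (nat_lit 65907) (.g (nat_lit 2660) (.e (nat_lit 1598) (nat_lit 111) (.e (nat_lit 360452) (nat_lit 0) (.e (nat_lit 7273) (nat_lit 385) (.e (nat_lit 122919) (nat_lit 15) (.e (nat_lit 360489) (nat_lit 21) (.e (nat_lit 770058) (nat_lit 5) .nil)))))) (.g (nat_lit 0) .nil .nil)))) (.nd (nat_lit 4) 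
(.lf (nat_lit 65899) (.g (nat_lit 2744) (.e (nat_lit 1598) (nat_lit 111) (.e (nat_lit 360452) (nat_lit 0) (.e (nat_lit 7273) (nat_lit 385) (.e (nat_lit 122916) (nat_lit 14) (.e (nat_lit 352302) (nat_lit 20) (.e (nat_lit 2281) (nat_lit 150) (.e (nat_lit 770057) (nat_lit 5) .nil))))))) (.g (nat_lit 6) .nil .nil))) 
(.lf (nat_lit 65915) (.g (nat_lit 2559) (.e (nat_lit 1598) (nat_lit 111) (.e (nat_lit 360456) (nat_lit 0) (.e (nat_lit 5949) (nat_lit 322) (.e (nat_lit 57427) (nat_lit 15) (.e (nat_lit 360486) (nat_lit 18) (.e (nat_lit 671748) (nat_lit 0) .nil)))))) (.g (nat_lit 0) .nil .nil))))) (.nd (nat_lit 3) (.nd (nat_lit 4) 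
(.lf (nat_lit 65895) (.g (nat_lit 2108) (.e (nat_lit 1598) (nat_lit 111) (.e (nat_lit 360452) (nat_lit 0) (.e (nat_lit 7273) (nat_lit 385) (.e (nat_lit 122916) (nat_lit 14) (.e (nat_lit 352302) (nat_lit 20) (.e (nat_lit 2280) (nat_lit 150) (.e (nat_lit 770055) (nat_lit 5) .nil))))))) (.g (nat_lit 4) .nil .nil))) 
(.lf (nat_lit 65911) (.g (nat_lit 2585) (.e (nat_lit 1598) (nat_lit 111) (.e (nat_lit 360456) (nat_lit 0) (.e (nat_lit 5818) (nat_lit 320) (.e (nat_lit 1224) (nat_lit 90) (.e (nat_lit 81946) (nat_lit 20) (.e (nat_lit 2006) (nat_lit 138) (.e (nat_lit 671748) (nat_lit 0) .nil))))))) (.g (nat_lit 0) .nil .nil)))) (.nd (nat_lit 4) 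
(.lf (nat_lit 65903) (.g (nat_lit 2450) (.e (nat_lit 1598) (nat_lit 111) (.e (nat_lit 360452) (nat_lit 0) (.e (nat_lit 7273) (nat_lit 385) (.e (nat_lit 122917) (nat_lit 15) (.e (nat_lit 360489) (nat_lit 21) (.e (nat_lit 770056) (nat_lit 5) .nil)))))) (.g (nat_lit 0) .nil .nil))) 
(.lf (nat_lit 65919) (.g (nat_lit 1027) (.e (nat_lit 1598) (nat_lit 111) (.e (nat_lit 360464) (nat_lit 2) (.e (nat_lit 507906) (nat_lit 0) (.e (nat_lit 5412) (nat_lit 303) (.e (nat_lit 73751) (nat_lit 7) (.e (nat_lit 548872) (nat_lit 5) .nil)))))) (.g (nat_lit 4) .nil .nil))))))))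

noncomputable def tv909 : DT := (.nd (nat_lit 0) (.nd (nat_lit 1) (.nd (nat_lit 2) (.nd (nat_lit 3) (.nd (nat_lit 4) (.nd (nat_lit 5) 
(.lf (nat_lit 65920) (.g (nat_lit 1160) (.e (nat_lit 1598) (nat_lit 111) (.e (nat_lit 360464) (nat_lit 2) (.e (nat_lit 507907) (nat_lit 0) (.e (nat_lit 5409) (nat_lit 303) (.e (nat_lit 73751) (nat_lit 7) (.e (nat_lit 548872) (nat_lit 5) .nil)))))) (.g (nat_lit 0) .nil .nil))) 
(.lf (nat_lit 65952) (.g (nat_lit 343) (.e (nat_lit 1598) (nat_lit 111) (.e (nat_lit 360466) (nat_lit 3) (.e (nat_lit 516117) (nat_lit 1) .nil))) .nil))) (.nd (nat_lit 5) 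
(.lf (nat_lit 65936) (.g (nat_lit 346) (.e (nat_lit 1598) (nat_lit 111) (.e (nat_lit 360466) (nat_lit 3) (.e (nat_lit 516098) (nat_lit 0) .nil))) .nil)) 
(.lf (nat_lit 65968) (.g (nat_lit 1555) (.e (nat_lit 1598) (nat_lit 111) (.e (nat_lit 360466) (nat_lit 3) (.e (nat_lit 516117) (nat_lit 1) (.e (nat_lit 164415) (nat_lit 260) .nil)))) .nil)))) (.nd (nat_lit 4) (.nd (nat_lit 5) 
(.lf (nat_lit 65928) (.g (nat_lit 1192) (.e (nat_lit 1598) (nat_lit 111) (.e (nat_lit 360466) (nat_lit 3) (.e (nat_lit 516097) (nat_lit 0) (.e (nat_lit 7493) (nat_lit 402) .nil)))) .nil)) 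
(.lf (nat_lit 65960) (.g (nat_lit 2007) (.e (nat_lit 1598) (nat_lit 111) (.e (nat_lit 360466) (nat_lit 3) (.e (nat_lit 516117) (nat_lit 1) (.e (nat_lit 164166) (nat_lit 152) (.e (nat_lit 1200) (nat_lit 88) (.e (nat_lit 65580) (nat_lit 6) (.e (nat_lit 155392) (nat_lit 0) .nil))))))) (.g (nat_lit 6) .nil .nil)))) (.nd (nat_lit 5) 
(.lf (nat_lit 65944) (.g (nat_lit 2992) (.e (nat_lit 1598) (nat_lit 111) (.e (nat_lit 360466) (nat_lit 3) (.e (nat_lit 516100) (nat_lit 0) (.e (nat_lit 7540) (nat_lit 402) (.e (nat_lit 1536) (nat_lit 109) (.e (nat_lit 344126) (nat_lit 25) (.e (nat_lit 548872) (nat_lit 5) .nil))))))) (.g (nat_lit 7) .nil .nil))) 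
(.lf (nat_lit 65976) (.g (nat_lit 1925) (.e (nat_lit 1598) (nat_lit 111) (.e (nat_lit 360466) (nat_lit 3) (.e (nat_lit 516120) (nat_lit 1) (.e (nat_lit 164166) (nat_lit 152) (.e (nat_lit 1200) (nat_lit 88) (.e (nat_lit 65580) (nat_lit 6) (.e (nat_lit 155392) (nat_lit 0) .nil))))))) (.g (nat_lit 6) .nil .nil)))))) (.nd (nat_lit 3) (.nd (nat_lit 4) (.nd (nat_lit 5) 
(.lf (nat_lit 65924) (.g (nat_lit 1475) (.e (nat_lit 1598) (nat_lit 111) (.e (nat_lit 360464) (nat_lit 2) (.e (nat_lit 507921) (nat_lit 6) (.e (nat_lit 286756) (nat_lit 10) (.e (nat_lit 344126) (nat_lit 25) (.e (nat_lit 548872) (nat_lit 5) .nil)))))) (.g (nat_lit 5) .nil .nil))) 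
(.lf (nat_lit 65956) (.g (nat_lit 1555) (.e (nat_lit 1598) (nat_lit 111) (.e (nat_lit 360466) (nat_lit 3) (.e (nat_lit 516117) (nat_lit 1) (.e (nat_lit 164146) (nat_lit 146) .nil)))) .nil))) (.nd (nat_lit 5) 
(.lf (nat_lit 65940) (.g (nat_lit 2008) (.e (nat_lit 1598) (nat_lit 111) (.e (nat_lit 360466) (nat_lit 3) (.e (nat_lit 516098) (nat_lit 0) (.e (nat_lit 7591) (nat_lit 407) (.e (nat_lit 73751) (nat_lit 7) (.e (nat_lit 548872) (nat_lit 5) .nil)))))) (.g (nat_lit 0) .nil .nil))) 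
(.lf (nat_lit 65972) (.g (nat_lit 962) (.e (nat_lit 1598) (nat_lit 111) (.e (nat_lit 360466) (nat_lit 3) (.e (nat_lit 516120) (nat_lit 1) (.e (nat_lit 164147) (nat_lit 152) .nil)))) .nil)))) (.nd (nat_lit 4) (.nd (nat_lit 5) 
(.lf (nat_lit 65932) (.g (nat_lit 2342) (.e (nat_lit 1598) (nat_lit 111) (.e (nat_lit 360466) (nat_lit 3) (.e (nat_lit 516097) (nat_lit 0) (.e (nat_lit 7591) (nat_lit 407) (.e (nat_lit 73751) (nat_lit 7) (.e (nat_lit 548873) (nat_lit 5) .nil)))))) (.g (nat_lit 0) .nil .nil))) 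
(.lf (nat_lit 65964) (.g (nat_lit 1944) (.e (nat_lit 1598) (nat_lit 111) (.e (nat_lit 360466) (nat_lit 3) (.e (nat_lit 516117) (nat_lit 1) (.e (nat_lit 164409) (nat_lit 260) (.e (nat_lit 1208) (nat_lit 89) .nil))))) .nil))) (.nd (nat_lit 5) 
(.lf (nat_lit 65948) (.g (nat_lit 2195) (.e (nat_lit 1598) (nat_lit 111) (.e (nat_lit 360466) (nat_lit 3) (.e (nat_lit 516104) (nat_lit 0) (.e (nat_lit 7540) (nat_lit 402) (.e (nat_lit 1536) (nat_lit 109) (.e (nat_lit 344126) (nat_lit 25) (.e (nat_lit 548873) (nat_lit 5) .nil))))))) (.g (nat_lit 6) .nil .nil))) 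
(.lf (nat_lit 65980) (.g (nat_lit 2019) (.e (nat_lit 1598) (nat_lit 111) (.e (nat_lit 360466) (nat_lit 3) (.e (nat_lit 516138) (nat_lit 7) (.e (nat_lit 409645) (nat_lit 18) (.e (nat_lit 303117) (nat_lit 2) .nil))))) .nil)))))) (.nd (nat_lit 2) (.nd (nat_lit 3) (.nd (nat_lit 4) (.nd (nat_lit 5) 
(.lf (nat_lit 65922) (.g (nat_lit 1216) (.e (nat_lit 1598) (nat_lit 111) (.e (nat_lit 360464) (nat_lit 2) (.e (nat_lit 507908) (nat_lit 0) (.e (nat_lit 5409) (nat_lit 303) (.e (nat_lit 73751) (nat_lit 7) (.e (nat_lit 548872) (nat_lit 5) .nil)))))) (.g (nat_lit 0) .nil .nil))) 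
(.lf (nat_lit 65954) (.g (nat_lit 1354) (.e (nat_lit 1598) (nat_lit 111) (.e (nat_lit 360466) (nat_lit 3) (.e (nat_lit 516117) (nat_lit 1) (.e (nat_lit 164142) (nat_lit 146) .nil)))) .nil))) (.nd (nat_lit 5) 
(.lf (nat_lit 65938) (.g (nat_lit 1001) (.e (nat_lit 1598) (nat_lit 111) (.e (nat_lit 360466) (nat_lit 3) (.e (nat_lit 516098) (nat_lit 0) (.e (nat_lit 7495) (nat_lit 402) .nil)))) .nil)) 
(.lf (nat_lit 65970) (.g (nat_lit 1310) (.e (nat_lit 1598) (nat_lit 111) (.e (nat_lit 360466) (nat_lit 3) (.e (nat_lit 516119) (nat_lit 1) (.e (nat_lit 164427) (nat_lit 278) .nil)))) .nil)))) (.nd (nat_lit 4) (.nd (nat_lit 5) 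
(.lf (nat_lit 65930) (.g (nat_lit 1192) (.e (nat_lit 1598) (nat_lit 111) (.e (nat_lit 360466) (nat_lit 3) (.e (nat_lit 516097) (nat_lit 0) (.e (nat_lit 7497) (nat_lit 402) .nil)))) .nil)) 
(.lf (nat_lit 65962) (.g (nat_lit 1149) (.e (nat_lit 1598) (nat_lit 111) (.e (nat_lit 360466) (nat_lit 3) (.e (nat_lit 516117) (nat_lit 1) (.e (nat_lit 164195) (nat_lit 158) .nil)))) .nil))) (.nd (nat_lit 5) 
(.lf (nat_lit 65946) (.g (nat_lit 726) (.e (nat_lit 1598) (nat_lit 111) (.e (nat_lit 360466) (nat_lit 3) (.e (nat_lit 516101) (nat_lit 0) .nil))) .nil)) 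
(.lf (nat_lit 65978) (.g (nat_lit 1263) (.e (nat_lit 1598) (nat_lit 111) (.e (nat_lit 360466) (nat_lit 3) (.e (nat_lit 516120) (nat_lit 1) (.e (nat_lit 164427) (nat_lit 278) .nil)))) .nil))))) (.nd (nat_lit 3) (.nd (nat_lit 4) (.nd (nat_lit 5) 
(.lf (nat_lit 65926) (.g (nat_lit 1708) (.e (nat_lit 1598) (nat_lit 111) (.e (nat_lit 360464) (nat_lit 2) (.e (nat_lit 507922) (nat_lit 6) (.e (nat_lit 286756) (nat_lit 10) (.e (nat_lit 344126) (nat_lit 25) (.e (nat_lit 548873) (nat_lit 5) .nil)))))) (.g (nat_lit 6) .nil .nil))) 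
(.lf (nat_lit 65958) (.g (nat_lit 2026) (.e (nat_lit 1598) (nat_lit 111) (.e (nat_lit 360466) (nat_lit 3) (.e (nat_lit 516117) (nat_lit 1) (.e (nat_lit 164166) (nat_lit 152) (.e (nat_lit 1196) (nat_lit 88) (.e (nat_lit 65580) (nat_lit 6) (.e (nat_lit 155392) (nat_lit 0) .nil))))))) (.g (nat_lit 6) .nil .nil)))) (.nd (nat_lit 5) 
(.lf (nat_lit 65942) (.g (nat_lit 2106) (.e (nat_lit 1598) (nat_lit 111) (.e (nat_lit 360466) (nat_lit 3) (.e (nat_lit 516098) (nat_lit 0) (.e (nat_lit 7593) (nat_lit 407) (.e (nat_lit 73751) (nat_lit 7) (.e (nat_lit 548873) (nat_lit 5) .nil)))))) (.g (nat_lit 0) .nil .nil))) 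
(.lf (nat_lit 65974) (.g (nat_lit 1978) (.e (nat_lit 1598) (nat_lit 111) (.e (nat_lit 360466) (nat_lit 3) (.e (nat_lit 516120) (nat_lit 1) (.e (nat_lit 164166) (nat_lit 152) (.e (nat_lit 1196) (nat_lit 88) (.e (nat_lit 65580) (nat_lit 6) (.e (nat_lit 155392) (nat_lit 0) .nil))))))) (.g (nat_lit 6) .nil .nil))))) (.nd (nat_lit 4) (.nd (nat_lit 5) 
(.lf (nat_lit 65934) (.g (nat_lit 2521) (.e (nat_lit 1598) (nat_lit 111) (.e (nat_lit 360466) (nat_lit 3) (.e (nat_lit 516097) (nat_lit 0) (.e (nat_lit 7593) (nat_lit 407) (.e (nat_lit 73751) (nat_lit 7) (.e (nat_lit 548873) (nat_lit 5) .nil)))))) (.g (nat_lit 0) .nil .nil))) 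
(.lf (nat_lit 65966) (.g (nat_lit 1555) (.e (nat_lit 1598) (nat_lit 111) (.e (nat_lit 360466) (nat_lit 3) (.e (nat_lit 516117) (nat_lit 1) (.e (nat_lit 164412) (nat_lit 260) .nil)))) .nil))) (.nd (nat_lit 5) 
(.lf (nat_lit 65950) (.g (nat_lit 910) (.e (nat_lit 1598) (nat_lit 111) (.e (nat_lit 360466) (nat_lit 3) (.e (nat_lit 516105) (nat_lit 0) (.e (nat_lit 7562) (nat_lit 402) (.e (nat_lit 1512) (nat_lit 108) .nil))))) .nil)) 
(.lf (nat_lit 65982) (.g (nat_lit 1866) (.e (nat_lit 1598) (nat_lit 111) (.e (nat_lit 360466) (nat_lit 3) (.e (nat_lit 516139) (nat_lit 7) (.e (nat_lit 417536) (nat_lit 16) .nil)))) .nil))))))) (.nd (nat_lit 1) (.nd (nat_lit 2) (.nd (nat_lit 3) (.nd (nat_lit 4) (.nd (nat_lit 5) 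
(.lf (nat_lit 65921) (.g (nat_lit 1015) (.e (nat_lit 1598) (nat_lit 111) (.e (nat_lit 360464) (nat_lit 2) (.e (nat_lit 507907) (nat_lit 0) (.e (nat_lit 5413) (nat_lit 303) (.e (nat_lit 73751) (nat_lit 7) (.e (nat_lit 548872) (nat_lit 5) .nil)))))) (.g (nat_lit 0) .nil .nil))) 
(.lf (nat_lit 65953) (.g (nat_lit 1529) (.e (nat_lit 1598) (nat_lit 111) (.e (nat_lit 360466) (nat_lit 3) (.e (nat_lit 516117) (nat_lit 1) (.e (nat_lit 164140) (nat_lit 146) .nil)))) .nil))) (.nd (nat_lit 5) 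
(.lf (nat_lit 65937) (.g (nat_lit 953) (.e (nat_lit 1598) (nat_lit 111) (.e (nat_lit 360466) (nat_lit 3) (.e (nat_lit 516098) (nat_lit 0) (.e (nat_lit 7486) (nat_lit 402) .nil)))) .nil)) 
(.lf (nat_lit 65969) (.g (nat_lit 1153) (.e (nat_lit 1598) (nat_lit 111) (.e (nat_lit 360466) (nat_lit 3) (.e (nat_lit 516117) (nat_lit 1) (.e (nat_lit 164427) (nat_lit 278) .nil)))) .nil)))) (.nd (nat_lit 4) (.nd (nat_lit 5) 
(.lf (nat_lit 65929) (.g (nat_lit 1192) (.e (nat_lit 1598) (nat_lit 111) (.e (nat_lit 360466) (nat_lit 3) (.e (nat_lit 516097) (nat_lit 0) (.e (nat_lit 7495) (nat_lit 402) .nil)))) .nil)) 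
(.lf (nat_lit 65961) (.g (nat_lit 1349) (.e (nat_lit 1598) (nat_lit 111) (.e (nat_lit 360466) (nat_lit 3) (.e (nat_lit 516117) (nat_lit 1) (.e (nat_lit 164170) (nat_lit 152) .nil)))) .nil))) (.nd (nat_lit 5) 
(.lf (nat_lit 65945) (.g (nat_lit 667) (.e (nat_lit 1598) (nat_lit 111) (.e (nat_lit 360466) (nat_lit 3) (.e (nat_lit 516100) (nat_lit 0) (.e (nat_lit 7562) (nat_lit 402) .nil)))) .nil)) 
(.lf (nat_lit 65977) (.g (nat_lit 784) (.e (nat_lit 1598) (nat_lit 111) (.e (nat_lit 360466) (nat_lit 3) (.e (nat_lit 516120) (nat_lit 1) (.e (nat_lit 164195) (nat_lit 158) .nil)))) .nil))))) (.nd (nat_lit 3) (.nd (nat_lit 4) (.nd (nat_lit 5) 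
(.lf (nat_lit 65925) (.g (nat_lit 1858) (.e (nat_lit 1598) (nat_lit 111) (.e (nat_lit 360464) (nat_lit 2) (.e (nat_lit 507922) (nat_lit 6) (.e (nat_lit 286756) (nat_lit 10) (.e (nat_lit 344126) (nat_lit 25) (.e (nat_lit 548872) (nat_lit 5) .nil)))))) (.g (nat_lit 6) .nil .nil))) 
(.lf (nat_lit 65957) (.g (nat_lit 1200) (.e (nat_lit 1598) (nat_lit 111) (.e (nat_lit 360466) (nat_lit 3) (.e (nat_lit 516117) (nat_lit 1) (.e (nat_lit 164147) (nat_lit 152) (.e (nat_lit 1199) (nat_lit 88) .nil))))) .nil))) (.nd (nat_lit 5) 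
(.lf (nat_lit 65941) (.g (nat_lit 1984) (.e (nat_lit 1598) (nat_lit 111) (.e (nat_lit 360466) (nat_lit 3) (.e (nat_lit 516098) (nat_lit 0) (.e (nat_lit 7593) (nat_lit 407) (.e (nat_lit 73751) (nat_lit 7) (.e (nat_lit 548872) (nat_lit 5) .nil)))))) (.g (nat_lit 6) .nil .nil))) 
(.lf (nat_lit 65973) (.g (nat_lit 1161) (.e (nat_lit 1598) (nat_lit 111) (.e (nat_lit 360466) (nat_lit 3) (.e (nat_lit 516120) (nat_lit 1) (.e (nat_lit 164159) (nat_lit 152) .nil)))) .nil)))) (.nd (nat_lit 4) (.nd (nat_lit 5) 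
(.lf (nat_lit 65933) (.g (nat_lit 2648) (.e (nat_lit 1598) (nat_lit 111) (.e (nat_lit 360466) (nat_lit 3) (.e (nat_lit 516097) (nat_lit 0) (.e (nat_lit 7591) (nat_lit 407) (.e (nat_lit 73751) (nat_lit 7) (.e (nat_lit 548874) (nat_lit 5) .nil)))))) (.g (nat_lit 0) .nil .nil))) 
(.lf (nat_lit 65965) (.g (nat_lit 1322) (.e (nat_lit 1598) (nat_lit 111) (.e (nat_lit 360466) (nat_lit 3) (.e (nat_lit 516117) (nat_lit 1) (.e (nat_lit 164411) (nat_lit 260) .nil)))) .nil))) (.nd (nat_lit 5) 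
(.lf (nat_lit 65949) (.g (nat_lit 2501) (.e (nat_lit 1598) (nat_lit 111) (.e (nat_lit 360466) (nat_lit 3) (.e (nat_lit 516105) (nat_lit 0) (.e (nat_lit 7540) (nat_lit 402) (.e (nat_lit 1536) (nat_lit 109) (.e (nat_lit 344126) (nat_lit 25) (.e (nat_lit 548872) (nat_lit 5) .nil))))))) (.g (nat_lit 6) .nil .nil))) 
(.lf (nat_lit 65981) (.g (nat_lit 437) (.e (nat_lit 1598) (nat_lit 111) (.e (nat_lit 360466) (nat_lit 3) (.e (nat_lit 516139) (nat_lit 7) .nil))) .nil)))))) (.nd (nat_lit 2) (.nd (nat_lit 3) (.nd (nat_lit 4) (.nd (nat_lit 5) 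
(.lf (nat_lit 65923) (.g (nat_lit 1106) (.e (nat_lit 1598) (nat_lit 111) (.e (nat_lit 360464) (nat_lit 2) (.e (nat_lit 507908) (nat_lit 0) (.e (nat_lit 5413) (nat_lit 303) (.e (nat_lit 73751) (nat_lit 7) (.e (nat_lit 548872) (nat_lit 5) .nil)))))) (.g (nat_lit 0) .nil .nil))) 
(.lf (nat_lit 65955) (.g (nat_lit 1504) (.e (nat_lit 1598) (nat_lit 111) (.e (nat_lit 360466) (nat_lit 3) (.e (nat_lit 516117) (nat_lit 1) (.e (nat_lit 164143) (nat_lit 146) (.e (nat_lit 2637) (nat_lit 165) .nil))))) .nil))) (.nd (nat_lit 5) 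
(.lf (nat_lit 65939) (.g (nat_lit 1142) (.e (nat_lit 1598) (nat_lit 111) (.e (nat_lit 360466) (nat_lit 3) (.e (nat_lit 516098) (nat_lit 0) (.e (nat_lit 7495) (nat_lit 402) (.e (nat_lit 1530) (nat_lit 109) .nil))))) .nil)) 
(.lf (nat_lit 65971) (.g (nat_lit 971) (.e (nat_lit 1598) (nat_lit 111) (.e (nat_lit 360466) (nat_lit 3) (.e (nat_lit 516120) (nat_lit 1) (.e (nat_lit 164140) (nat_lit 146) .nil)))) .nil)))) (.nd (nat_lit 4) (.nd (nat_lit 5) 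
(.lf (nat_lit 65931) (.g (nat_lit 1553) (.e (nat_lit 1598) (nat_lit 111) (.e (nat_lit 360466) (nat_lit 3) (.e (nat_lit 516097) (nat_lit 0) (.e (nat_lit 7542) (nat_lit 402) (.e (nat_lit 1532) (nat_lit 109) .nil))))) .nil)) 
(.lf (nat_lit 65963) (.g (nat_lit 1524) (.e (nat_lit 1598) (nat_lit 111) (.e (nat_lit 360466) (nat_lit 3) (.e (nat_lit 516117) (nat_lit 1) (.e (nat_lit 164409) (nat_lit 260) .nil)))) .nil))) (.nd (nat_lit 5) 
(.lf (nat_lit 65947) (.g (nat_lit 333) (.e (nat_lit 1598) (nat_lit 111) (.e (nat_lit 360466) (nat_lit 3) (.e (nat_lit 516104) (nat_lit 0) .nil))) .nil)) 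
(.lf (nat_lit 65979) (.g (nat_lit 1289) (.e (nat_lit 1598) (nat_lit 111) (.e (nat_lit 360466) (nat_lit 3) (.e (nat_lit 516120) (nat_lit 1) (.e (nat_lit 164427) (nat_lit 278) (.e (nat_lit 2554) (nat_lit 159) .nil))))) .nil))))) (.nd (nat_lit 3) (.nd (nat_lit 4) (.nd (nat_lit 5) 
(.lf (nat_lit 65927) (.g (nat_lit 1192) (.e (nat_lit 1598) (nat_lit 111) (.e (nat_lit 360466) (nat_lit 3) (.e (nat_lit 516097) (nat_lit 0) (.e (nat_lit 7486) (nat_lit 402) .nil)))) .nil)) 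
(.lf (nat_lit 65959) (.g (nat_lit 1522) (.e (nat_lit 1598) (nat_lit 111) (.e (nat_lit 360466) (nat_lit 3) (.e (nat_lit 516117) (nat_lit 1) (.e (nat_lit 164166) (nat_lit 152) (.e (nat_lit 1199) (nat_lit 88) (.e (nat_lit 65580) (nat_lit 6) (.e (nat_lit 155392) (nat_lit 0) .nil))))))) (.g (nat_lit 4) .nil .nil)))) (.nd (nat_lit 5) 
(.lf (nat_lit 65943) (.g (nat_lit 330) (.e (nat_lit 1598) (nat_lit 111) (.e (nat_lit 360466) (nat_lit 3) (.e (nat_lit 516100) (nat_lit 0) .nil))) .nil)) 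
(.lf (nat_lit 65975) (.g (nat_lit 1475) (.e (nat_lit 1598) (nat_lit 111) (.e (nat_lit 360466) (nat_lit 3) (.e (nat_lit 516120) (nat_lit 1) (.e (nat_lit 164166) (nat_lit 152) (.e (nat_lit 1199) (nat_lit 88) (.e (nat_lit 65580) (nat_lit 6) (.e (nat_lit 155392) (nat_lit 0) .nil))))))) (.g (nat_lit 4) .nil .nil))))) (.nd (nat_lit 4) (.nd (nat_lit 5) 
(.lf (nat_lit 65935) (.g (nat_lit 902) (.e (nat_lit 1598) (nat_lit 111) (.e (nat_lit 360466) (nat_lit 3) (.e (nat_lit 516097) (nat_lit 0) (.e (nat_lit 7936) (nat_lit 407) .nil)))) .nil)) 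
(.lf (nat_lit 65967) (.g (nat_lit 1555) (.e (nat_lit 1598) (nat_lit 111) (.e (nat_lit 360466) (nat_lit 3) (.e (nat_lit 516117) (nat_lit 1) (.e (nat_lit 164413) (nat_lit 260) .nil)))) .nil))) (.nd (nat_lit 5) 
(.lf (nat_lit 65951) (.g (nat_lit 731) (.e (nat_lit 1598) (nat_lit 111) (.e (nat_lit 360466) (nat_lit 3) (.e (nat_lit 516106) (nat_lit 0) .nil))) .nil)) 
(.lf (nat_lit 65983) (.g (nat_lit 2720) (.e (nat_lit 1598) (nat_lit 111) (.e (nat_lit 360466) (nat_lit 3) (.e (nat_lit 516139) (nat_lit 7) (.e (nat_lit 409643) (nat_lit 18) (.e (nat_lit 303117) (nat_lit 2) (.e (nat_lit 196630) (nat_lit 9) .nil)))))) (.g (nat_lit 4) .nil .nil)))))))))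

noncomputable def tv910 : DT := (.nd (nat_lit 0) (.nd (nat_lit 1) (.nd (nat_lit 2) (.nd (nat_lit 3) (.nd (nat_lit 4) (.nd (nat_lit 5) 
(.lf (nat_lit 65984) (.g (nat_lit 2883) (.e (nat_lit 1598) (nat_lit 111) (.e (nat_lit 360466) (nat_lit 3) (.e (nat_lit 516139) (nat_lit 7) (.e (nat_lit 409644) (nat_lit 18) (.e (nat_lit 303117) (nat_lit 2) (.e (nat_lit 196630) (nat_lit 9) .nil)))))) (.g (nat_lit 4) .nil .nil))) 
(.lf (nat_lit 66016) (.g (nat_lit 2856) (.e (nat_lit 1598) (nat_lit 111) (.e (nat_lit 360466) (nat_lit 3) (.e (nat_lit 516179) (nat_lit 15) (.e (nat_lit 475198) (nat_lit 40) (.e (nat_lit 704590) (nat_lit 3) (.e (nat_lit 163975) (nat_lit 30) (.e (nat_lit 573453) (nat_lit 9) .nil))))))) (.g (nat_lit 5) .nil .nil)))) (.nd (nat_lit 5) 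
(.lf (nat_lit 66000) (.g (nat_lit 1229) (.e (nat_lit 1598) (nat_lit 111) (.e (nat_lit 360466) (nat_lit 3) (.e (nat_lit 516146) (nat_lit 9) (.e (nat_lit 426444) (nat_lit 19) .nil)))) .nil)) 
(.lf (nat_lit 66032) (.g (nat_lit 1167) (.e (nat_lit 1598) (nat_lit 111) (.e (nat_lit 360466) (nat_lit 3) (.e (nat_lit 516179) (nat_lit 15) (.e (nat_lit 483072) (nat_lit 40) .nil)))) .nil)))) (.nd (nat_lit 4) (.nd (nat_lit 5) 
(.lf (nat_lit 65992) (.g (nat_lit 2812) (.e (nat_lit 1598) (nat_lit 111) (.e (nat_lit 360466) (nat_lit 3) (.e (nat_lit 516139) (nat_lit 7) (.e (nat_lit 409649) (nat_lit 18) (.e (nat_lit 303117) (nat_lit 2) .nil))))) .nil)) 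
(.lf (nat_lit 66024) (.g (nat_lit 3260) (.e (nat_lit 1598) (nat_lit 111) (.e (nat_lit 360466) (nat_lit 3) (.e (nat_lit 516179) (nat_lit 15) (.e (nat_lit 475199) (nat_lit 40) (.e (nat_lit 704589) (nat_lit 3) (.e (nat_lit 163976) (nat_lit 30) (.e (nat_lit 573455) (nat_lit 9) .nil))))))) (.g (nat_lit 6) .nil .nil)))) (.nd (nat_lit 5) 
(.lf (nat_lit 66008) (.g (nat_lit 1388) (.e (nat_lit 1598) (nat_lit 111) (.e (nat_lit 360466) (nat_lit 3) (.e (nat_lit 516150) (nat_lit 9) (.e (nat_lit 426467) (nat_lit 24) .nil)))) .nil)) 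
(.lf (nat_lit 66040) (.g (nat_lit 3452) (.e (nat_lit 1598) (nat_lit 111) (.e (nat_lit 360466) (nat_lit 3) (.e (nat_lit 516179) (nat_lit 15) (.e (nat_lit 475214) (nat_lit 42) (.e (nat_lit 720920) (nat_lit 20) (.e (nat_lit 1855) (nat_lit 124) (.e (nat_lit 564992) (nat_lit 0) .nil))))))) (.g (nat_lit 6) .nil .nil)))))) (.nd (nat_lit 3) (.nd (nat_lit 4) (.nd (nat_lit 5) 
(.lf (nat_lit 65988) (.g (nat_lit 5446) (.e (nat_lit 1598) (nat_lit 111) (.e (nat_lit 360466) (nat_lit 3) (.e (nat_lit 516139) (nat_lit 7) (.e (nat_lit 409646) (nat_lit 18) (.e (nat_lit 303117) (nat_lit 2) (.e (nat_lit 196630) (nat_lit 9) .nil)))))) (.g (nat_lit 0) .nil .nil))) 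
(.lf (nat_lit 66020) (.g (nat_lit 4251) (.e (nat_lit 1598) (nat_lit 111) (.e (nat_lit 360466) (nat_lit 3) (.e (nat_lit 516179) (nat_lit 15) (.e (nat_lit 475199) (nat_lit 40) (.e (nat_lit 704589) (nat_lit 3) (.e (nat_lit 163975) (nat_lit 30) (.e (nat_lit 573455) (nat_lit 9) .nil))))))) (.g (nat_lit 6) .nil .nil)))) (.nd (nat_lit 5) 
(.lf (nat_lit 66004) (.g (nat_lit 1812) (.e (nat_lit 1598) (nat_lit 111) (.e (nat_lit 360466) (nat_lit 3) (.e (nat_lit 516146) (nat_lit 9) (.e (nat_lit 426467) (nat_lit 24) (.e (nat_lit 155674) (nat_lit 12) (.e (nat_lit 57478) (nat_lit 28) (.e (nat_lit 564992) (nat_lit 0) .nil))))))) (.g (nat_lit 5) .nil .nil))) 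
(.lf (nat_lit 66036) (.g (nat_lit 3495) (.e (nat_lit 1598) (nat_lit 111) (.e (nat_lit 360466) (nat_lit 3) (.e (nat_lit 516179) (nat_lit 15) (.e (nat_lit 475211) (nat_lit 41) (.e (nat_lit 712722) (nat_lit 15) (.e (nat_lit 3302) (nat_lit 202) (.e (nat_lit 573449) (nat_lit 9) .nil))))))) (.g (nat_lit 6) .nil .nil))))) (.nd (nat_lit 4) (.nd (nat_lit 5) 
(.lf (nat_lit 65996) (.g (nat_lit 2082) (.e (nat_lit 1598) (nat_lit 111) (.e (nat_lit 360466) (nat_lit 3) (.e (nat_lit 516146) (nat_lit 9) (.e (nat_lit 426361) (nat_lit 15) (.e (nat_lit 2206) (nat_lit 144) (.e (nat_lit 720920) (nat_lit 20) (.e (nat_lit 1855) (nat_lit 124) (.e (nat_lit 564992) (nat_lit 0) .nil)))))))) (.g (nat_lit 7) .nil .nil))) 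
(.lf (nat_lit 66028) (.g (nat_lit 2939) (.e (nat_lit 1598) (nat_lit 111) (.e (nat_lit 360466) (nat_lit 3) (.e (nat_lit 516179) (nat_lit 15) (.e (nat_lit 475199) (nat_lit 40) (.e (nat_lit 704590) (nat_lit 3) (.e (nat_lit 163975) (nat_lit 30) (.e (nat_lit 573455) (nat_lit 9) .nil))))))) (.g (nat_lit 5) .nil .nil)))) (.nd (nat_lit 5) 
(.lf (nat_lit 66012) (.g (nat_lit 1549) (.e (nat_lit 1598) (nat_lit 111) (.e (nat_lit 360466) (nat_lit 3) (.e (nat_lit 516179) (nat_lit 15) (.e (nat_lit 475198) (nat_lit 40) (.e (nat_lit 704589) (nat_lit 3) .nil))))) .nil)) 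
(.lf (nat_lit 66044) (.g (nat_lit 1209) (.e (nat_lit 1598) (nat_lit 111) (.e (nat_lit 360466) (nat_lit 3) (.e (nat_lit 516179) (nat_lit 15) (.e (nat_lit 475214) (nat_lit 42) (.e (nat_lit 728832) (nat_lit 20) (.e (nat_lit 1855) (nat_lit 124) (.e (nat_lit 564992) (nat_lit 0) .nil))))))) (.g (nat_lit 4) .nil .nil))))))) (.nd (nat_lit 2) (.nd (nat_lit 3) (.nd (nat_lit 4) (.nd (nat_lit 5) 
(.lf (nat_lit 65986) (.g (nat_lit 2734) (.e (nat_lit 1598) (nat_lit 111) (.e (nat_lit 360466) (nat_lit 3) (.e (nat_lit 516139) (nat_lit 7) (.e (nat_lit 409646) (nat_lit 18) (.e (nat_lit 303117) (nat_lit 2) (.e (nat_lit 196617) (nat_lit 9) .nil)))))) (.g (nat_lit 4) .nil .nil))) 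
(.lf (nat_lit 66018) (.g (nat_lit 1356) (.e (nat_lit 1598) (nat_lit 111) (.e (nat_lit 360466) (nat_lit 3) (.e (nat_lit 516179) (nat_lit 15) (.e (nat_lit 475199) (nat_lit 40) .nil)))) .nil))) (.nd (nat_lit 5) 
(.lf (nat_lit 66002) (.g (nat_lit 3602) (.e (nat_lit 1598) (nat_lit 111) (.e (nat_lit 360466) (nat_lit 3) (.e (nat_lit 516146) (nat_lit 9) (.e (nat_lit 426448) (nat_lit 20) (.e (nat_lit 114703) (nat_lit 20) (.e (nat_lit 1855) (nat_lit 124) (.e (nat_lit 564992) (nat_lit 0) .nil))))))) (.g (nat_lit 4) .nil .nil))) 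
(.lf (nat_lit 66034) (.g (nat_lit 2160) (.e (nat_lit 1598) (nat_lit 111) (.e (nat_lit 360466) (nat_lit 3) (.e (nat_lit 516179) (nat_lit 15) (.e (nat_lit 475210) (nat_lit 41) (.e (nat_lit 712706) (nat_lit 0) .nil))))) .nil)))) (.nd (nat_lit 4) (.nd (nat_lit 5) 
(.lf (nat_lit 65994) (.g (nat_lit 2068) (.e (nat_lit 1598) (nat_lit 111) (.e (nat_lit 360466) (nat_lit 3) (.e (nat_lit 516142) (nat_lit 8) (.e (nat_lit 417828) (nat_lit 18) (.e (nat_lit 303117) (nat_lit 2) (.e (nat_lit 196630) (nat_lit 9) .nil)))))) (.g (nat_lit 4) .nil .nil))) 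
(.lf (nat_lit 66026) (.g (nat_lit 1939) (.e (nat_lit 1598) (nat_lit 111) (.e (nat_lit 360466) (nat_lit 3) (.e (nat_lit 516179) (nat_lit 15) (.e (nat_lit 475199) (nat_lit 40) (.e (nat_lit 704589) (nat_lit 3) (.e (nat_lit 163979) (nat_lit 30) (.e (nat_lit 573453) (nat_lit 9) .nil))))))) (.g (nat_lit 4) .nil .nil)))) (.nd (nat_lit 5) 
(.lf (nat_lit 66010) (.g (nat_lit 276) (.e (nat_lit 1598) (nat_lit 111) (.e (nat_lit 360466) (nat_lit 3) (.e (nat_lit 516179) (nat_lit 15) .nil))) .nil)) 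
(.lf (nat_lit 66042) (.g (nat_lit 3657) (.e (nat_lit 1598) (nat_lit 111) (.e (nat_lit 360466) (nat_lit 3) (.e (nat_lit 516179) (nat_lit 15) (.e (nat_lit 475214) (nat_lit 42) (.e (nat_lit 720922) (nat_lit 20) (.e (nat_lit 1855) (nat_lit 124) (.e (nat_lit 564992) (nat_lit 0) .nil))))))) (.g (nat_lit 6) .nil .nil)))))) (.nd (nat_lit 3) (.nd (nat_lit 4) (.nd (nat_lit 5) 
(.lf (nat_lit 65990) (.g (nat_lit 2641) (.e (nat_lit 1598) (nat_lit 111) (.e (nat_lit 360466) (nat_lit 3) (.e (nat_lit 516139) (nat_lit 7) (.e (nat_lit 409648) (nat_lit 18) (.e (nat_lit 303116) (nat_lit 2) (.e (nat_lit 196630) (nat_lit 9) .nil)))))) (.g (nat_lit 4) .nil .nil))) 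
(.lf (nat_lit 66022) (.g (nat_lit 1841) (.e (nat_lit 1598) (nat_lit 111) (.e (nat_lit 360466) (nat_lit 3) (.e (nat_lit 516179) (nat_lit 15) (.e (nat_lit 475199) (nat_lit 40) (.e (nat_lit 704589) (nat_lit 3) (.e (nat_lit 163976) (nat_lit 30) (.e (nat_lit 573451) (nat_lit 9) .nil))))))) (.g (nat_lit 4) .nil .nil)))) (.nd (nat_lit 5) 
(.lf (nat_lit 66006) (.g (nat_lit 2575) (.e (nat_lit 1598) (nat_lit 111) (.e (nat_lit 360466) (nat_lit 3) (.e (nat_lit 516146) (nat_lit 9) (.e (nat_lit 426467) (nat_lit 24) (.e (nat_lit 155674) (nat_lit 12) (.e (nat_lit 57480) (nat_lit 28) (.e (nat_lit 564992) (nat_lit 0) .nil))))))) (.g (nat_lit 6) .nil .nil))) 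
(.lf (nat_lit 66038) (.g (nat_lit 3348) (.e (nat_lit 1598) (nat_lit 111) (.e (nat_lit 360466) (nat_lit 3) (.e (nat_lit 516179) (nat_lit 15) (.e (nat_lit 475214) (nat_lit 42) (.e (nat_lit 720911) (nat_lit 20) (.e (nat_lit 1860) (nat_lit 124) (.e (nat_lit 564992) (nat_lit 0) .nil))))))) (.g (nat_lit 6) .nil .nil))))) (.nd (nat_lit 4) (.nd (nat_lit 5) 
(.lf (nat_lit 65998) (.g (nat_lit 1201) (.e (nat_lit 1598) (nat_lit 111) (.e (nat_lit 360466) (nat_lit 3) (.e (nat_lit 516146) (nat_lit 9) (.e (nat_lit 426440) (nat_lit 19) .nil)))) .nil)) 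
(.lf (nat_lit 66030) (.g (nat_lit 1166) (.e (nat_lit 1598) (nat_lit 111) (.e (nat_lit 360466) (nat_lit 3) (.e (nat_lit 516179) (nat_lit 15) (.e (nat_lit 475201) (nat_lit 40) (.e (nat_lit 712448) (nat_lit 3) (.e (nat_lit 163974) (nat_lit 30) (.e (nat_lit 573455) (nat_lit 9) .nil))))))) (.g (nat_lit 4) .nil .nil)))) (.nd (nat_lit 5) 
(.lf (nat_lit 66014) (.g (nat_lit 1873) (.e (nat_lit 1598) (nat_lit 111) (.e (nat_lit 360466) (nat_lit 3) (.e (nat_lit 516179) (nat_lit 15) (.e (nat_lit 475198) (nat_lit 40) (.e (nat_lit 704589) (nat_lit 3) (.e (nat_lit 163976) (nat_lit 30) (.e (nat_lit 573455) (nat_lit 9) .nil))))))) (.g (nat_lit 4) .nil .nil))) 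
(.lf (nat_lit 66046) (.g (nat_lit 1216) (.e (nat_lit 1598) (nat_lit 111) (.e (nat_lit 360466) (nat_lit 3) (.e (nat_lit 516182) (nat_lit 15) (.e (nat_lit 475209) (nat_lit 41) (.e (nat_lit 712719) (nat_lit 15) (.e (nat_lit 3297) (nat_lit 202) (.e (nat_lit 573455) (nat_lit 9) .nil))))))) (.g (nat_lit 4) .nil .nil)))))))) 
(.nd (nat_lit 1) (.nd (nat_lit 2) (.nd (nat_lit 3) (.nd (nat_lit 4) (.nd (nat_lit 5) 
(.lf (nat_lit 65985) (.g (nat_lit 2504) (.e (nat_lit 1598) (nat_lit 111) (.e (nat_lit 360466) (nat_lit 3) (.e (nat_lit 516139) (nat_lit 7) (.e (nat_lit 409645) (nat_lit 18) .nil)))) .nil)) 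
(.lf (nat_lit 66017) (.g (nat_lit 3453) (.e (nat_lit 1598) (nat_lit 111) (.e (nat_lit 360466) (nat_lit 3) (.e (nat_lit 516179) (nat_lit 15) (.e (nat_lit 475198) (nat_lit 40) (.e (nat_lit 704590) (nat_lit 3) (.e (nat_lit 163975) (nat_lit 30) (.e (nat_lit 573455) (nat_lit 9) .nil))))))) (.g (nat_lit 6) .nil .nil)))) (.nd (nat_lit 5) 
(.lf (nat_lit 66001) (.g (nat_lit 3439) (.e (nat_lit 1598) (nat_lit 111) (.e (nat_lit 360466) (nat_lit 3) (.e (nat_lit 516146) (nat_lit 9) (.e (nat_lit 426448) (nat_lit 20) (.e (nat_lit 114699) (nat_lit 20) .nil))))) .nil)) 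
(.lf (nat_lit 66033) (.g (nat_lit 2808) (.e (nat_lit 1598) (nat_lit 111) (.e (nat_lit 360466) (nat_lit 3) (.e (nat_lit 516179) (nat_lit 15) (.e (nat_lit 483072) (nat_lit 40) (.e (nat_lit 704754) (nat_lit 12) (.e (nat_lit 57479) (nat_lit 28) (.e (nat_lit 564992) (nat_lit 0) .nil))))))) (.g (nat_lit 6) .nil .nil))))) (.nd (nat_lit 4) (.nd (nat_lit 5) 
(.lf (nat_lit 65993) (.g (nat_lit 1866) (.e (nat_lit 1598) (nat_lit 111) (.e (nat_lit 360466) (nat_lit 3) (.e (nat_lit 516139) (nat_lit 7) (.e (nat_lit 417536) (nat_lit 18) .nil)))) .nil)) 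
(.lf (nat_lit 66025) (.g (nat_lit 4773) (.e (nat_lit 1598) (nat_lit 111) (.e (nat_lit 360466) (nat_lit 3) (.e (nat_lit 516179) (nat_lit 15) (.e (nat_lit 475199) (nat_lit 40) (.e (nat_lit 704589) (nat_lit 3) (.e (nat_lit 163979) (nat_lit 30) (.e (nat_lit 573452) (nat_lit 9) .nil))))))) (.g (nat_lit 7) .nil .nil)))) (.nd (nat_lit 5) 
(.lf (nat_lit 66009) (.g (nat_lit 1840) (.e (nat_lit 1598) (nat_lit 111) (.e (nat_lit 360466) (nat_lit 3) (.e (nat_lit 516169) (nat_lit 13) (.e (nat_lit 458774) (nat_lit 18) (.e (nat_lit 4808) (nat_lit 281) .nil))))) .nil)) 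
(.lf (nat_lit 66041) (.g (nat_lit 2822) (.e (nat_lit 1598) (nat_lit 111) (.e (nat_lit 360466) (nat_lit 3) (.e (nat_lit 516179) (nat_lit 15) (.e (nat_lit 475214) (nat_lit 42) (.e (nat_lit 720921) (nat_lit 20) .nil))))) .nil))))) (.nd (nat_lit 3) (.nd (nat_lit 4) (.nd (nat_lit 5) 
(.lf (nat_lit 65989) (.g (nat_lit 1386) (.e (nat_lit 1598) (nat_lit 111) (.e (nat_lit 360466) (nat_lit 3) (.e (nat_lit 516139) (nat_lit 7) (.e (nat_lit 409648) (nat_lit 18) .nil)))) .nil)) 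
(.lf (nat_lit 66021) (.g (nat_lit 2146) (.e (nat_lit 1598) (nat_lit 111) (.e (nat_lit 360466) (nat_lit 3) (.e (nat_lit 516179) (nat_lit 15) (.e (nat_lit 475199) (nat_lit 40) (.e (nat_lit 704589) (nat_lit 3) (.e (nat_lit 163975) (nat_lit 30) (.e (nat_lit 573456) (nat_lit 9) .nil))))))) (.g (nat_lit 4) .nil .nil)))) (.nd (nat_lit 5) 
(.lf (nat_lit 66005) (.g (nat_lit 2929) (.e (nat_lit 1598) (nat_lit 111) (.e (nat_lit 360466) (nat_lit 3) (.e (nat_lit 516146) (nat_lit 9) (.e (nat_lit 426467) (nat_lit 24) (.e (nat_lit 155674) (nat_lit 12) (.e (nat_lit 57479) (nat_lit 28) (.e (nat_lit 564992) (nat_lit 0) .nil))))))) (.g (nat_lit 6) .nil .nil))) 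
(.lf (nat_lit 66037) (.g (nat_lit 2887) (.e (nat_lit 1598) (nat_lit 111) (.e (nat_lit 360466) (nat_lit 3) (.e (nat_lit 516179) (nat_lit 15) (.e (nat_lit 475214) (nat_lit 42) (.e (nat_lit 720910) (nat_lit 20) (.e (nat_lit 1855) (nat_lit 124) (.e (nat_lit 564992) (nat_lit 0) .nil))))))) (.g (nat_lit 4) .nil .nil))))) (.nd (nat_lit 4) (.nd (nat_lit 5) 
(.lf (nat_lit 65997) (.g (nat_lit 1890) (.e (nat_lit 1598) (nat_lit 111) (.e (nat_lit 360466) (nat_lit 3) (.e (nat_lit 516146) (nat_lit 9) (.e (nat_lit 426363) (nat_lit 15) (.e (nat_lit 2155) (nat_lit 142) (.e (nat_lit 704754) (nat_lit 12) (.e (nat_lit 57479) (nat_lit 28) (.e (nat_lit 564992) (nat_lit 0) .nil)))))))) (.g (nat_lit 4) .nil .nil))) 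
(.lf (nat_lit 66029) (.g (nat_lit 691) (.e (nat_lit 1598) (nat_lit 111) (.e (nat_lit 360466) (nat_lit 3) (.e (nat_lit 516179) (nat_lit 15) (.e (nat_lit 475201) (nat_lit 40) .nil)))) .nil))) (.nd (nat_lit 5) 
(.lf (nat_lit 66013) (.g (nat_lit 3230) (.e (nat_lit 1598) (nat_lit 111) (.e (nat_lit 360466) (nat_lit 3) (.e (nat_lit 516179) (nat_lit 15) (.e (nat_lit 475198) (nat_lit 40) (.e (nat_lit 704589) (nat_lit 3) (.e (nat_lit 163975) (nat_lit 30) (.e (nat_lit 573449) (nat_lit 9) .nil))))))) (.g (nat_lit 6) .nil .nil))) 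
(.lf (nat_lit 66045) (.g (nat_lit 514) (.e (nat_lit 1598) (nat_lit 111) (.e (nat_lit 360466) (nat_lit 3) (.e (nat_lit 516180) (nat_lit 15) .nil))) .nil)))))) (.nd (nat_lit 2) (.nd (nat_lit 3) (.nd (nat_lit 4) (.nd (nat_lit 5) 
(.lf (nat_lit 65987) (.g (nat_lit 2979) (.e (nat_lit 1598) (nat_lit 111) (.e (nat_lit 360466) (nat_lit 3) (.e (nat_lit 516139) (nat_lit 7) (.e (nat_lit 409646) (nat_lit 18) (.e (nat_lit 303117) (nat_lit 2) (.e (nat_lit 196627) (nat_lit 9) .nil)))))) (.g (nat_lit 4) .nil .nil))) 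
(.lf (nat_lit 66019) (.g (nat_lit 5108) (.e (nat_lit 1598) (nat_lit 111) (.e (nat_lit 360466) (nat_lit 3) (.e (nat_lit 516179) (nat_lit 15) (.e (nat_lit 475199) (nat_lit 40) (.e (nat_lit 704589) (nat_lit 3) (.e (nat_lit 163975) (nat_lit 30) (.e (nat_lit 573451) (nat_lit 9) .nil))))))) (.g (nat_lit 0) .nil .nil)))) (.nd (nat_lit 5) 
(.lf (nat_lit 66003) (.g (nat_lit 2053) (.e (nat_lit 1598) (nat_lit 111) (.e (nat_lit 360466) (nat_lit 3) (.e (nat_lit 516146) (nat_lit 9) (.e (nat_lit 426448) (nat_lit 20) (.e (nat_lit 122624) (nat_lit 20) (.e (nat_lit 1860) (nat_lit 124) (.e (nat_lit 564992) (nat_lit 0) .nil))))))) (.g (nat_lit 6) .nil .nil))) 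
(.lf (nat_lit 66035) (.g (nat_lit 2614) (.e (nat_lit 1598) (nat_lit 111) (.e (nat_lit 360466) (nat_lit 3) (.e (nat_lit 516179) (nat_lit 15) (.e (nat_lit 475211) (nat_lit 41) (.e (nat_lit 712706) (nat_lit 0) (.e (nat_lit 1840) (nat_lit 123) (.e (nat_lit 548874) (nat_lit 5) .nil))))))) (.g (nat_lit 5) .nil .nil))))) (.nd (nat_lit 4) (.nd (nat_lit 5) 
(.lf (nat_lit 65995) (.g (nat_lit 1281) (.e (nat_lit 1598) (nat_lit 111) (.e (nat_lit 360466) (nat_lit 3) (.e (nat_lit 516146) (nat_lit 9) (.e (nat_lit 426360) (nat_lit 15) .nil)))) .nil)) 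
(.lf (nat_lit 66027) (.g (nat_lit 2342) (.e (nat_lit 1598) (nat_lit 111) (.e (nat_lit 360466) (nat_lit 3) (.e (nat_lit 516179) (nat_lit 15) (.e (nat_lit 475199) (nat_lit 40) (.e (nat_lit 704590) (nat_lit 3) (.e (nat_lit 163975) (nat_lit 30) (.e (nat_lit 573453) (nat_lit 9) .nil))))))) (.g (nat_lit 4) .nil .nil)))) (.nd (nat_lit 5) 
(.lf (nat_lit 66011) (.g (nat_lit 1232) (.e (nat_lit 1598) (nat_lit 111) (.e (nat_lit 360466) (nat_lit 3) (.e (nat_lit 516179) (nat_lit 15) (.e (nat_lit 475197) (nat_lit 40) .nil)))) .nil)) 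
(.lf (nat_lit 66043) (.g (nat_lit 3169) (.e (nat_lit 1598) (nat_lit 111) (.e (nat_lit 360466) (nat_lit 3) (.e (nat_lit 516179) (nat_lit 15) (.e (nat_lit 475214) (nat_lit 42) (.e (nat_lit 720924) (nat_lit 20) (.e (nat_lit 1855) (nat_lit 124) (.e (nat_lit 564992) (nat_lit 0) .nil))))))) (.g (nat_lit 4) .nil .nil)))))) (.nd (nat_lit 3) (.nd (nat_lit 4) (.nd (nat_lit 5) 
(.lf (nat_lit 65991) (.g (nat_lit 2608) (.e (nat_lit 1598) (nat_lit 111) (.e (nat_lit 360466) (nat_lit 3) (.e (nat_lit 516139) (nat_lit 7) (.e (nat_lit 409648) (nat_lit 18) (.e (nat_lit 303117) (nat_lit 2) .nil))))) .nil)) 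
(.lf (nat_lit 66023) (.g (nat_lit 2007) (.e (nat_lit 1598) (nat_lit 111) (.e (nat_lit 360466) (nat_lit 3) (.e (nat_lit 516179) (nat_lit 15) (.e (nat_lit 475199) (nat_lit 40) (.e (nat_lit 704589) (nat_lit 3) (.e (nat_lit 163976) (nat_lit 30) (.e (nat_lit 573452) (nat_lit 9) .nil))))))) (.g (nat_lit 4) .nil .nil)))) (.nd (nat_lit 5) 
(.lf (nat_lit 66007) (.g (nat_lit 1065) (.e (nat_lit 1598) (nat_lit 111) (.e (nat_lit 360466) (nat_lit 3) (.e (nat_lit 516150) (nat_lit 9) (.e (nat_lit 426360) (nat_lit 15) .nil)))) .nil)) 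
(.lf (nat_lit 66039) (.g (nat_lit 2273) (.e (nat_lit 1598) (nat_lit 111) (.e (nat_lit 360466) (nat_lit 3) (.e (nat_lit 516179) (nat_lit 15) (.e (nat_lit 475214) (nat_lit 42) (.e (nat_lit 720912) (nat_lit 20) .nil))))) .nil)))) (.nd (nat_lit 4) (.nd (nat_lit 5) 
(.lf (nat_lit 65999) (.g (nat_lit 1469) (.e (nat_lit 1598) (nat_lit 111) (.e (nat_lit 360466) (nat_lit 3) (.e (nat_lit 516146) (nat_lit 9) (.e (nat_lit 426442) (nat_lit 19) .nil)))) .nil)) 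
(.lf (nat_lit 66031) (.g (nat_lit 1640) (.e (nat_lit 1598) (nat_lit 111) (.e (nat_lit 360466) (nat_lit 3) (.e (nat_lit 516179) (nat_lit 15) (.e (nat_lit 475201) (nat_lit 40) (.e (nat_lit 704743) (nat_lit 12) (.e (nat_lit 57480) (nat_lit 28) (.e (nat_lit 564992) (nat_lit 0) .nil))))))) (.g (nat_lit 4) .nil .nil)))) (.nd (nat_lit 5) 
(.lf (nat_lit 66015) (.g (nat_lit 4453) (.e (nat_lit 1598) (nat_lit 111) (.e (nat_lit 360466) (nat_lit 3) (.e (nat_lit 516179) (nat_lit 15) (.e (nat_lit 475198) (nat_lit 40) (.e (nat_lit 704590) (nat_lit 3) (.e (nat_lit 163975) (nat_lit 30) (.e (nat_lit 573449) (nat_lit 9) .nil))))))) (.g (nat_lit 0) .nil .nil))) 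
(.lf (nat_lit 66047) (.g (nat_lit 3829) (.e (nat_lit 1598) (nat_lit 111) (.e (nat_lit 360466) (nat_lit 3) (.e (nat_lit 516182) (nat_lit 15) (.e (nat_lit 475211) (nat_lit 41) (.e (nat_lit 712722) (nat_lit 15) (.e (nat_lit 3302) (nat_lit 202) (.e (nat_lit 573449) (nat_lit 9) .nil))))))) (.g (nat_lit 0) .nil .nil)))))))))

noncomputable def tv911 : DT := (.nd (nat_lit 0) (.nd (nat_lit 1) (.nd (nat_lit 2) (.nd (nat_lit 3) (.nd (nat_lit 4) (.nd (nat_lit 5) 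
(.lf (nat_lit 66048) (.g (nat_lit 2901) (.e (nat_lit 1598) (nat_lit 111) (.e (nat_lit 360466) (nat_lit 3) (.e (nat_lit 516182) (nat_lit 15) (.e (nat_lit 475211) (nat_lit 41) (.e (nat_lit 712722) (nat_lit 15) (.e (nat_lit 3302) (nat_lit 202) (.e (nat_lit 573455) (nat_lit 9) .nil))))))) (.g (nat_lit 6) .nil .nil))) 
(.lf (nat_lit 66080) (.g (nat_lit 3801) (.e (nat_lit 1598) (nat_lit 111) (.e (nat_lit 360466) (nat_lit 3) (.e (nat_lit 516184) (nat_lit 16) (.e (nat_lit 491559) (nat_lit 10) (.e (nat_lit 344126) (nat_lit 25) (.e (nat_lit 548874) (nat_lit 5) .nil)))))) (.g (nat_lit 0) .nil .nil)))) (.nd (nat_lit 5) 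
(.lf (nat_lit 66064) (.g (nat_lit 2740) (.e (nat_lit 1598) (nat_lit 111) (.e (nat_lit 360466) (nat_lit 3) (.e (nat_lit 516183) (nat_lit 16) (.e (nat_lit 491566) (nat_lit 12) (.e (nat_lit 385043) (nat_lit 21) (.e (nat_lit 4210) (nat_lit 251) (.e (nat_lit 1008) (nat_lit 81) .nil))))))) (.g (nat_lit 4) .nil .nil))) 
(.lf (nat_lit 66096) (.g (nat_lit 3277) (.e (nat_lit 1598) (nat_lit 111) (.e (nat_lit 360466) (nat_lit 3) (.e (nat_lit 516185) (nat_lit 16) (.e (nat_lit 491560) (nat_lit 10) (.e (nat_lit 344126) (nat_lit 25) (.e (nat_lit 548873) (nat_lit 5) .nil)))))) (.g (nat_lit 0) .nil .nil))))) (.nd (nat_lit 4) (.nd (nat_lit 5) 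
(.lf (nat_lit 66056) (.g (nat_lit 2615) (.e (nat_lit 1598) (nat_lit 111) (.e (nat_lit 360466) (nat_lit 3) (.e (nat_lit 516183) (nat_lit 16) (.e (nat_lit 491566) (nat_lit 12) (.e (nat_lit 385043) (nat_lit 21) (.e (nat_lit 4196) (nat_lit 251) (.e (nat_lit 1008) (nat_lit 81) .nil))))))) (.g (nat_lit 4) .nil .nil))) 
(.lf (nat_lit 66088) (.g (nat_lit 1814) (.e (nat_lit 1598) (nat_lit 111) (.e (nat_lit 360466) (nat_lit 3) (.e (nat_lit 516185) (nat_lit 16) (.e (nat_lit 491552) (nat_lit 9) (.e (nat_lit 335927) (nat_lit 0) .nil))))) .nil))) (.nd (nat_lit 5) 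
(.lf (nat_lit 66072) (.g (nat_lit 4181) (.e (nat_lit 1598) (nat_lit 111) (.e (nat_lit 360466) (nat_lit 3) (.e (nat_lit 516183) (nat_lit 16) (.e (nat_lit 491566) (nat_lit 12) (.e (nat_lit 385074) (nat_lit 31) (.e (nat_lit 573456) (nat_lit 9) .nil)))))) (.g (nat_lit 6) .nil .nil))) 
(.lf (nat_lit 66104) (.g (nat_lit 1250) (.e (nat_lit 1598) (nat_lit 111) (.e (nat_lit 360470) (nat_lit 6) (.e (nat_lit 540724) (nat_lit 28) (.e (nat_lit 442412) (nat_lit 20) (.e (nat_lit 3579) (nat_lit 223) (.e (nat_lit 745475) (nat_lit 0) .nil)))))) (.g (nat_lit 0) .nil .nil)))))) (.nd (nat_lit 3) (.nd (nat_lit 4) (.nd (nat_lit 5) 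
(.lf (nat_lit 66052) (.g (nat_lit 3832) (.e (nat_lit 1598) (nat_lit 111) (.e (nat_lit 360466) (nat_lit 3) (.e (nat_lit 516183) (nat_lit 16) (.e (nat_lit 491560) (nat_lit 10) (.e (nat_lit 344126) (nat_lit 25) (.e (nat_lit 548874) (nat_lit 5) .nil)))))) (.g (nat_lit 0) .nil .nil))) 
(.lf (nat_lit 66084) (.g (nat_lit 1810) (.e (nat_lit 1598) (nat_lit 111) (.e (nat_lit 360466) (nat_lit 3) (.e (nat_lit 516185) (nat_lit 16) (.e (nat_lit 491552) (nat_lit 9) (.e (nat_lit 335886) (nat_lit 0) .nil))))) .nil))) (.nd (nat_lit 5) 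
(.lf (nat_lit 66068) (.g (nat_lit 3369) (.e (nat_lit 1598) (nat_lit 111) (.e (nat_lit 360466) (nat_lit 3) (.e (nat_lit 516183) (nat_lit 16) (.e (nat_lit 491566) (nat_lit 12) (.e (nat_lit 385044) (nat_lit 21) (.e (nat_lit 4212) (nat_lit 251) (.e (nat_lit 1008) (nat_lit 81) .nil))))))) (.g (nat_lit 4) .nil .nil))) 
(.lf (nat_lit 66100) (.g (nat_lit 1350) (.e (nat_lit 1598) (nat_lit 111) (.e (nat_lit 360470) (nat_lit 6) (.e (nat_lit 540724) (nat_lit 28) (.e (nat_lit 442408) (nat_lit 20) (.e (nat_lit 3578) (nat_lit 223) (.e (nat_lit 745476) (nat_lit 0) .nil)))))) (.g (nat_lit 0) .nil .nil))))) (.nd (nat_lit 4) (.nd (nat_lit 5) 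
(.lf (nat_lit 66060) (.g (nat_lit 2648) (.e (nat_lit 1598) (nat_lit 111) (.e (nat_lit 360466) (nat_lit 3) (.e (nat_lit 516183) (nat_lit 16) (.e (nat_lit 491566) (nat_lit 12) (.e (nat_lit 385043) (nat_lit 21) (.e (nat_lit 4202) (nat_lit 251) (.e (nat_lit 1008) (nat_lit 81) .nil))))))) (.g (nat_lit 4) .nil .nil))) 
(.lf (nat_lit 66092) (.g (nat_lit 3801) (.e (nat_lit 1598) (nat_lit 111) (.e (nat_lit 360466) (nat_lit 3) (.e (nat_lit 516185) (nat_lit 16) (.e (nat_lit 491559) (nat_lit 10) (.e (nat_lit 344126) (nat_lit 25) (.e (nat_lit 548873) (nat_lit 5) .nil)))))) (.g (nat_lit 0) .nil .nil)))) (.nd (nat_lit 5) 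
(.lf (nat_lit 66076) (.g (nat_lit 2922) (.e (nat_lit 1598) (nat_lit 111) (.e (nat_lit 360466) (nat_lit 3) (.e (nat_lit 516184) (nat_lit 16) (.e (nat_lit 491558) (nat_lit 10) (.e (nat_lit 344126) (nat_lit 25) (.e (nat_lit 548873) (nat_lit 5) .nil)))))) (.g (nat_lit 5) .nil .nil))) 
(.lf (nat_lit 66108) (.g (nat_lit 1716) (.e (nat_lit 1598) (nat_lit 111) (.e (nat_lit 360471) (nat_lit 7) (.e (nat_lit 548872) (nat_lit 5) (.e (nat_lit 1599) (nat_lit 111) (.e (nat_lit 360471) (nat_lit 7) (.e (nat_lit 548873) (nat_lit 5) .nil)))))) (.g (nat_lit 5) .nil .nil))))))) (.nd (nat_lit 2) (.nd (nat_lit 3) (.nd (nat_lit 4) (.nd (nat_lit 5) 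
(.lf (nat_lit 66050) (.g (nat_lit 2940) (.e (nat_lit 1598) (nat_lit 111) (.e (nat_lit 360466) (nat_lit 3) (.e (nat_lit 516183) (nat_lit 16) (.e (nat_lit 491559) (nat_lit 10) (.e (nat_lit 344126) (nat_lit 25) (.e (nat_lit 548873) (nat_lit 5) .nil)))))) (.g (nat_lit 6) .nil .nil))) 
(.lf (nat_lit 66082) (.g (nat_lit 351) (.e (nat_lit 1598) (nat_lit 111) (.e (nat_lit 360466) (nat_lit 3) (.e (nat_lit 516185) (nat_lit 16) .nil))) .nil))) (.nd (nat_lit 5) 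
(.lf (nat_lit 66066) (.g (nat_lit 2605) (.e (nat_lit 1598) (nat_lit 111) (.e (nat_lit 360466) (nat_lit 3) (.e (nat_lit 516183) (nat_lit 16) (.e (nat_lit 491566) (nat_lit 12) (.e (nat_lit 385043) (nat_lit 21) (.e (nat_lit 4218) (nat_lit 251) (.e (nat_lit 1008) (nat_lit 81) .nil))))))) (.g (nat_lit 4) .nil .nil))) 
(.lf (nat_lit 66098) (.g (nat_lit 1083) (.e (nat_lit 1598) (nat_lit 111) (.e (nat_lit 368384) (nat_lit 5) (.e (nat_lit 532583) (nat_lit 26) (.e (nat_lit 426298) (nat_lit 11) (.e (nat_lit 458814) (nat_lit 49) (.e (nat_lit 745475) (nat_lit 0) .nil)))))) (.g (nat_lit 4) .nil .nil))))) (.nd (nat_lit 4) (.nd (nat_lit 5) 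
(.lf (nat_lit 66058) (.g (nat_lit 2939) (.e (nat_lit 1598) (nat_lit 111) (.e (nat_lit 360466) (nat_lit 3) (.e (nat_lit 516183) (nat_lit 16) (.e (nat_lit 491566) (nat_lit 12) (.e (nat_lit 385043) (nat_lit 21) (.e (nat_lit 4199) (nat_lit 251) (.e (nat_lit 1008) (nat_lit 81) .nil))))))) (.g (nat_lit 4) .nil .nil))) 
(.lf (nat_lit 66090) (.g (nat_lit 3212) (.e (nat_lit 1598) (nat_lit 111) (.e (nat_lit 360466) (nat_lit 3) (.e (nat_lit 516185) (nat_lit 16) (.e (nat_lit 491558) (nat_lit 10) (.e (nat_lit 344126) (nat_lit 25) (.e (nat_lit 548873) (nat_lit 5) .nil)))))) (.g (nat_lit 0) .nil .nil)))) (.nd (nat_lit 5) 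
(.lf (nat_lit 66074) (.g (nat_lit 1600) (.e (nat_lit 1598) (nat_lit 111) (.e (nat_lit 360466) (nat_lit 3) (.e (nat_lit 516184) (nat_lit 16) (.e (nat_lit 491551) (nat_lit 9) (.e (nat_lit 335928) (nat_lit 0) .nil))))) .nil)) 
(.lf (nat_lit 66106) (.g (nat_lit 2124) (.e (nat_lit 1598) (nat_lit 111) (.e (nat_lit 360471) (nat_lit 7) (.e (nat_lit 548872) (nat_lit 5) (.e (nat_lit 1598) (nat_lit 111) (.e (nat_lit 360471) (nat_lit 7) (.e (nat_lit 548873) (nat_lit 5) .nil)))))) (.g (nat_lit 0) .nil .nil)))))) (.nd (nat_lit 3) (.nd (nat_lit 4) (.nd (nat_lit 5) 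
(.lf (nat_lit 66054) (.g (nat_lit 2921) (.e (nat_lit 1598) (nat_lit 111) (.e (nat_lit 360466) (nat_lit 3) (.e (nat_lit 516183) (nat_lit 16) (.e (nat_lit 491566) (nat_lit 12) (.e (nat_lit 385043) (nat_lit 21) (.e (nat_lit 4193) (nat_lit 251) (.e (nat_lit 1008) (nat_lit 81) .nil))))))) (.g (nat_lit 4) .nil .nil))) 
(.lf (nat_lit 66086) (.g (nat_lit 1907) (.e (nat_lit 1598) (nat_lit 111) (.e (nat_lit 360466) (nat_lit 3) (.e (nat_lit 516185) (nat_lit 16) (.e (nat_lit 491552) (nat_lit 9) (.e (nat_lit 335924) (nat_lit 0) (.e (nat_lit 1842) (nat_lit 123) (.e (nat_lit 548874) (nat_lit 5) .nil))))))) (.g (nat_lit 4) .nil .nil)))) (.nd (nat_lit 5) 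
(.lf (nat_lit 66070) (.g (nat_lit 2894) (.e (nat_lit 1598) (nat_lit 111) (.e (nat_lit 360466) (nat_lit 3) (.e (nat_lit 516183) (nat_lit 16) (.e (nat_lit 491566) (nat_lit 12) (.e (nat_lit 385051) (nat_lit 21) .nil))))) .nil)) 
(.lf (nat_lit 66102) (.g (nat_lit 1526) (.e (nat_lit 1598) (nat_lit 111) (.e (nat_lit 360470) (nat_lit 6) (.e (nat_lit 540724) (nat_lit 28) (.e (nat_lit 442409) (nat_lit 20) (.e (nat_lit 3579) (nat_lit 223) (.e (nat_lit 745475) (nat_lit 0) .nil)))))) (.g (nat_lit 0) .nil .nil))))) (.nd (nat_lit 4) (.nd (nat_lit 5) 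
(.lf (nat_lit 66062) (.g (nat_lit 2716) (.e (nat_lit 1598) (nat_lit 111) (.e (nat_lit 360466) (nat_lit 3) (.e (nat_lit 516183) (nat_lit 16) (.e (nat_lit 491566) (nat_lit 12) (.e (nat_lit 385043) (nat_lit 21) (.e (nat_lit 4206) (nat_lit 251) (.e (nat_lit 1008) (nat_lit 81) .nil))))))) (.g (nat_lit 4) .nil .nil))) 
(.lf (nat_lit 66094) (.g (nat_lit 2058) (.e (nat_lit 1598) (nat_lit 111) (.e (nat_lit 360466) (nat_lit 3) (.e (nat_lit 516185) (nat_lit 16) (.e (nat_lit 491560) (nat_lit 10) (.e (nat_lit 344124) (nat_lit 25) (.e (nat_lit 548873) (nat_lit 5) .nil)))))) (.g (nat_lit 4) .nil .nil)))) (.nd (nat_lit 5) 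
(.lf (nat_lit 66078) (.g (nat_lit 3535) (.e (nat_lit 1598) (nat_lit 111) (.e (nat_lit 360466) (nat_lit 3) (.e (nat_lit 516184) (nat_lit 16) (.e (nat_lit 491559) (nat_lit 10) (.e (nat_lit 344126) (nat_lit 25) (.e (nat_lit 548872) (nat_lit 5) .nil)))))) (.g (nat_lit 0) .nil .nil))) 
(.lf (nat_lit 66110) (.g (nat_lit 1904) (.e (nat_lit 1598) (nat_lit 111) (.e (nat_lit 360471) (nat_lit 7) (.e (nat_lit 548873) (nat_lit 5) (.e (nat_lit 1598) (nat_lit 111) (.e (nat_lit 360471) (nat_lit 7) (.e (nat_lit 548873) (nat_lit 5) .nil)))))) (.g (nat_lit 0) .nil .nil)))))))) (.nd (nat_lit 1) (.nd (nat_lit 2) (.nd (nat_lit 3) (.nd (nat_lit 4) (.nd (nat_lit 5) 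
(.lf (nat_lit 66049) (.g (nat_lit 3248) (.e (nat_lit 1598) (nat_lit 111) (.e (nat_lit 360466) (nat_lit 3) (.e (nat_lit 516183) (nat_lit 16) (.e (nat_lit 491559) (nat_lit 10) (.e (nat_lit 344126) (nat_lit 25) (.e (nat_lit 548872) (nat_lit 5) .nil)))))) (.g (nat_lit 6) .nil .nil))) 
(.lf (nat_lit 66081) (.g (nat_lit 3766) (.e (nat_lit 1598) (nat_lit 111) (.e (nat_lit 360466) (nat_lit 3) (.e (nat_lit 516184) (nat_lit 16) (.e (nat_lit 491560) (nat_lit 10) (.e (nat_lit 344126) (nat_lit 25) (.e (nat_lit 548874) (nat_lit 5) .nil)))))) (.g (nat_lit 5) .nil .nil)))) (.nd (nat_lit 5) 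
(.lf (nat_lit 66065) (.g (nat_lit 2751) (.e (nat_lit 1598) (nat_lit 111) (.e (nat_lit 360466) (nat_lit 3) (.e (nat_lit 516183) (nat_lit 16) (.e (nat_lit 491566) (nat_lit 12) (.e (nat_lit 385043) (nat_lit 21) (.e (nat_lit 4212) (nat_lit 251) (.e (nat_lit 1008) (nat_lit 81) .nil))))))) (.g (nat_lit 4) .nil .nil))) 
(.lf (nat_lit 66097) (.g (nat_lit 361) (.e (nat_lit 1598) (nat_lit 111) (.e (nat_lit 360466) (nat_lit 3) (.e (nat_lit 516190) (nat_lit 17) .nil))) .nil)))) (.nd (nat_lit 4) (.nd (nat_lit 5) 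
(.lf (nat_lit 66057) (.g (nat_lit 2849) (.e (nat_lit 1598) (nat_lit 111) (.e (nat_lit 360466) (nat_lit 3) (.e (nat_lit 516183) (nat_lit 16) (.e (nat_lit 491566) (nat_lit 12) (.e (nat_lit 385043) (nat_lit 21) (.e (nat_lit 4198) (nat_lit 251) (.e (nat_lit 1008) (nat_lit 81) .nil))))))) (.g (nat_lit 4) .nil .nil))) 
(.lf (nat_lit 66089) (.g (nat_lit 3392) (.e (nat_lit 1598) (nat_lit 111) (.e (nat_lit 360466) (nat_lit 3) (.e (nat_lit 516185) (nat_lit 16) (.e (nat_lit 491558) (nat_lit 10) (.e (nat_lit 344126) (nat_lit 25) (.e (nat_lit 548872) (nat_lit 5) .nil)))))) (.g (nat_lit 0) .nil .nil)))) (.nd (nat_lit 5) 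
(.lf (nat_lit 66073) (.g (nat_lit 2971) (.e (nat_lit 1598) (nat_lit 111) (.e (nat_lit 360466) (nat_lit 3) (.e (nat_lit 516183) (nat_lit 16) (.e (nat_lit 491566) (nat_lit 12) (.e (nat_lit 385075) (nat_lit 32) .nil))))) .nil)) 
(.lf (nat_lit 66105) (.g (nat_lit 2370) (.e (nat_lit 1598) (nat_lit 111) (.e (nat_lit 360471) (nat_lit 7) (.e (nat_lit 548872) (nat_lit 5) (.e (nat_lit 1598) (nat_lit 111) (.e (nat_lit 360471) (nat_lit 7) (.e (nat_lit 548872) (nat_lit 5) .nil)))))) (.g (nat_lit 6) .nil .nil)))))) (.nd (nat_lit 3) (.nd (nat_lit 4) (.nd (nat_lit 5) 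
(.lf (nat_lit 66053) (.g (nat_lit 2583) (.e (nat_lit 1598) (nat_lit 111) (.e (nat_lit 360466) (nat_lit 3) (.e (nat_lit 516183) (nat_lit 16) (.e (nat_lit 491566) (nat_lit 12) (.e (nat_lit 385043) (nat_lit 21) .nil))))) .nil)) 
(.lf (nat_lit 66085) (.g (nat_lit 1909) (.e (nat_lit 1598) (nat_lit 111) (.e (nat_lit 360466) (nat_lit 3) (.e (nat_lit 516185) (nat_lit 16) (.e (nat_lit 491552) (nat_lit 9) (.e (nat_lit 335886) (nat_lit 0) (.e (nat_lit 1842) (nat_lit 123) (.e (nat_lit 548873) (nat_lit 5) .nil))))))) (.g (nat_lit 4) .nil .nil)))) (.nd (nat_lit 5) 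
(.lf (nat_lit 66069) (.g (nat_lit 2601) (.e (nat_lit 1598) (nat_lit 111) (.e (nat_lit 360466) (nat_lit 3) (.e (nat_lit 516183) (nat_lit 16) (.e (nat_lit 491566) (nat_lit 12) (.e (nat_lit 385045) (nat_lit 21) .nil))))) .nil)) 
(.lf (nat_lit 66101) (.g (nat_lit 1622) (.e (nat_lit 1598) (nat_lit 111) (.e (nat_lit 360470) (nat_lit 6) (.e (nat_lit 540724) (nat_lit 28) (.e (nat_lit 442409) (nat_lit 20) (.e (nat_lit 3578) (nat_lit 223) (.e (nat_lit 745476) (nat_lit 0) .nil)))))) (.g (nat_lit 0) .nil .nil))))) (.nd (nat_lit 4) (.nd (nat_lit 5) 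
(.lf (nat_lit 66061) (.g (nat_lit 2890) (.e (nat_lit 1598) (nat_lit 111) (.e (nat_lit 360466) (nat_lit 3) (.e (nat_lit 516183) (nat_lit 16) (.e (nat_lit 491566) (nat_lit 12) (.e (nat_lit 385043) (nat_lit 21) (.e (nat_lit 4205) (nat_lit 251) (.e (nat_lit 1008) (nat_lit 81) .nil))))))) (.g (nat_lit 4) .nil .nil))) 
(.lf (nat_lit 66093) (.g (nat_lit 4408) (.e (nat_lit 1598) (nat_lit 111) (.e (nat_lit 360466) (nat_lit 3) (.e (nat_lit 516185) (nat_lit 16) (.e (nat_lit 491559) (nat_lit 10) (.e (nat_lit 344126) (nat_lit 25) (.e (nat_lit 548874) (nat_lit 5) .nil)))))) (.g (nat_lit 0) .nil .nil)))) (.nd (nat_lit 5) 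
(.lf (nat_lit 66077) (.g (nat_lit 3588) (.e (nat_lit 1598) (nat_lit 111) (.e (nat_lit 360466) (nat_lit 3) (.e (nat_lit 516184) (nat_lit 16) (.e (nat_lit 491558) (nat_lit 10) (.e (nat_lit 344126) (nat_lit 25) (.e (nat_lit 548874) (nat_lit 5) .nil)))))) (.g (nat_lit 0) .nil .nil))) 
(.lf (nat_lit 66109) (.g (nat_lit 2134) (.e (nat_lit 1598) (nat_lit 111) (.e (nat_lit 360471) (nat_lit 7) (.e (nat_lit 548873) (nat_lit 5) (.e (nat_lit 1589) (nat_lit 111) (.e (nat_lit 360471) (nat_lit 7) (.e (nat_lit 548873) (nat_lit 5) .nil)))))) (.g (nat_lit 0) .nil .nil))))))) (.nd (nat_lit 2) (.nd (nat_lit 3) (.nd (nat_lit 4) (.nd (nat_lit 5) 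
(.lf (nat_lit 66051) (.g (nat_lit 3549) (.e (nat_lit 1598) (nat_lit 111) (.e (nat_lit 360466) (nat_lit 3) (.e (nat_lit 516183) (nat_lit 16) (.e (nat_lit 491559) (nat_lit 10) (.e (nat_lit 344126) (nat_lit 25) (.e (nat_lit 548874) (nat_lit 5) .nil)))))) (.g (nat_lit 6) .nil .nil))) 
(.lf (nat_lit 66083) (.g (nat_lit 973) (.e (nat_lit 1598) (nat_lit 111) (.e (nat_lit 360466) (nat_lit 3) (.e (nat_lit 516185) (nat_lit 16) (.e (nat_lit 491552) (nat_lit 9) .nil)))) .nil))) (.nd (nat_lit 5) 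
(.lf (nat_lit 66067) (.g (nat_lit 3043) (.e (nat_lit 1598) (nat_lit 111) (.e (nat_lit 360466) (nat_lit 3) (.e (nat_lit 516183) (nat_lit 16) (.e (nat_lit 491566) (nat_lit 12) (.e (nat_lit 385044) (nat_lit 21) .nil))))) .nil)) 
(.lf (nat_lit 66099) (.g (nat_lit 1443) (.e (nat_lit 1598) (nat_lit 111) (.e (nat_lit 360470) (nat_lit 6) (.e (nat_lit 540724) (nat_lit 28) (.e (nat_lit 442402) (nat_lit 20) (.e (nat_lit 3578) (nat_lit 223) (.e (nat_lit 745476) (nat_lit 0) .nil)))))) (.g (nat_lit 0) .nil .nil))))) (.nd (nat_lit 4) (.nd (nat_lit 5) 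
(.lf (nat_lit 66059) (.g (nat_lit 2839) (.e (nat_lit 1598) (nat_lit 111) (.e (nat_lit 360466) (nat_lit 3) (.e (nat_lit 516183) (nat_lit 16) (.e (nat_lit 491566) (nat_lit 12) (.e (nat_lit 385043) (nat_lit 21) (.e (nat_lit 4200) (nat_lit 251) (.e (nat_lit 1008) (nat_lit 81) .nil))))))) (.g (nat_lit 4) .nil .nil))) 
(.lf (nat_lit 66091) (.g (nat_lit 4098) (.e (nat_lit 1598) (nat_lit 111) (.e (nat_lit 360466) (nat_lit 3) (.e (nat_lit 516185) (nat_lit 16) (.e (nat_lit 491559) (nat_lit 10) (.e (nat_lit 344126) (nat_lit 25) (.e (nat_lit 548872) (nat_lit 5) .nil)))))) (.g (nat_lit 6) .nil .nil)))) (.nd (nat_lit 5) 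
(.lf (nat_lit 66075) (.g (nat_lit 3188) (.e (nat_lit 1598) (nat_lit 111) (.e (nat_lit 360466) (nat_lit 3) (.e (nat_lit 516184) (nat_lit 16) (.e (nat_lit 491558) (nat_lit 10) (.e (nat_lit 344126) (nat_lit 25) (.e (nat_lit 548872) (nat_lit 5) .nil)))))) (.g (nat_lit 5) .nil .nil))) 
(.lf (nat_lit 66107) (.g (nat_lit 2489) (.e (nat_lit 1598) (nat_lit 111) (.e (nat_lit 360471) (nat_lit 7) (.e (nat_lit 548872) (nat_lit 5) (.e (nat_lit 1598) (nat_lit 111) (.e (nat_lit 360471) (nat_lit 7) (.e (nat_lit 548874) (nat_lit 5) .nil)))))) (.g (nat_lit 0) .nil .nil)))))) (.nd (nat_lit 3) (.nd (nat_lit 4) (.nd (nat_lit 5) 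
(.lf (nat_lit 66055) (.g (nat_lit 2793) (.e (nat_lit 1598) (nat_lit 111) (.e (nat_lit 360466) (nat_lit 3) (.e (nat_lit 516183) (nat_lit 16) (.e (nat_lit 491566) (nat_lit 12) (.e (nat_lit 385043) (nat_lit 21) (.e (nat_lit 4195) (nat_lit 251) (.e (nat_lit 1008) (nat_lit 81) .nil))))))) (.g (nat_lit 4) .nil .nil))) 
(.lf (nat_lit 66087) (.g (nat_lit 1810) (.e (nat_lit 1598) (nat_lit 111) (.e (nat_lit 360466) (nat_lit 3) (.e (nat_lit 516185) (nat_lit 16) (.e (nat_lit 491552) (nat_lit 9) (.e (nat_lit 335925) (nat_lit 0) .nil))))) .nil))) (.nd (nat_lit 5) 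
(.lf (nat_lit 66071) (.g (nat_lit 3203) (.e (nat_lit 1598) (nat_lit 111) (.e (nat_lit 360466) (nat_lit 3) (.e (nat_lit 516183) (nat_lit 16) (.e (nat_lit 491566) (nat_lit 12) (.e (nat_lit 385051) (nat_lit 21) (.e (nat_lit 4213) (nat_lit 251) (.e (nat_lit 1008) (nat_lit 81) .nil))))))) (.g (nat_lit 4) .nil .nil))) 
(.lf (nat_lit 66103) (.g (nat_lit 1441) (.e (nat_lit 1598) (nat_lit 111) (.e (nat_lit 360470) (nat_lit 6) (.e (nat_lit 540724) (nat_lit 28) (.e (nat_lit 442412) (nat_lit 20) (.e (nat_lit 3578) (nat_lit 223) (.e (nat_lit 745476) (nat_lit 0) .nil)))))) (.g (nat_lit 0) .nil .nil))))) (.nd (nat_lit 4) (.nd (nat_lit 5) 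
(.lf (nat_lit 66063) (.g (nat_lit 2910) (.e (nat_lit 1598) (nat_lit 111) (.e (nat_lit 360466) (nat_lit 3) (.e (nat_lit 516183) (nat_lit 16) (.e (nat_lit 491566) (nat_lit 12) (.e (nat_lit 385043) (nat_lit 21) (.e (nat_lit 4209) (nat_lit 251) (.e (nat_lit 1008) (nat_lit 81) .nil))))))) (.g (nat_lit 4) .nil .nil))) 
(.lf (nat_lit 66095) (.g (nat_lit 3389) (.e (nat_lit 1598) (nat_lit 111) (.e (nat_lit 360466) (nat_lit 3) (.e (nat_lit 516185) (nat_lit 16) (.e (nat_lit 491560) (nat_lit 10) (.e (nat_lit 344126) (nat_lit 25) (.e (nat_lit 548872) (nat_lit 5) .nil)))))) (.g (nat_lit 0) .nil .nil)))) (.nd (nat_lit 5) 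
(.lf (nat_lit 66079) (.g (nat_lit 3215) (.e (nat_lit 1598) (nat_lit 111) (.e (nat_lit 360466) (nat_lit 3) (.e (nat_lit 516184) (nat_lit 16) (.e (nat_lit 491559) (nat_lit 10) (.e (nat_lit 344126) (nat_lit 25) (.e (nat_lit 548873) (nat_lit 5) .nil)))))) (.g (nat_lit 0) .nil .nil))) 
(.lf (nat_lit 66111) (.g (nat_lit 1598) (.e (nat_lit 1598) (nat_lit 111) (.e (nat_lit 360471) (nat_lit 7) (.e (nat_lit 548873) (nat_lit 5) (.e (nat_lit 1599) (nat_lit 111) (.e (nat_lit 360471) (nat_lit 7) (.e (nat_lit 548872) (nat_lit 5) .nil)))))) (.g (nat_lit 6) .nil .nil)))))))))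

noncomputable def tv912 : DT := (.nd (nat_lit 0) (.nd (nat_lit 1) (.nd (nat_lit 2) (.nd (nat_lit 3) (.nd (nat_lit 4) (.nd (nat_lit 5) 
(.lf (nat_lit 66112) (.g (nat_lit 2687) (.e (nat_lit 1598) (nat_lit 111) (.e (nat_lit 360471) (nat_lit 7) (.e (nat_lit 548874) (nat_lit 5) (.e (nat_lit 1589) (nat_lit 111) (.e (nat_lit 360471) (nat_lit 7) (.e (nat_lit 548873) (nat_lit 5) .nil)))))) (.g (nat_lit 0) .nil .nil))) 
(.lf (nat_lit 66144) (.g (nat_lit 3060) (.e (nat_lit 1598) (nat_lit 111) (.e (nat_lit 360473) (nat_lit 8) (.e (nat_lit 557066) (nat_lit 9) (.e (nat_lit 232) (nat_lit 21) (.e (nat_lit 336175) (nat_lit 10) .nil))))) .nil))) (.nd (nat_lit 5) 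
(.lf (nat_lit 66128) (.g (nat_lit 2021) (.e (nat_lit 1598) (nat_lit 111) (.e (nat_lit 360471) (nat_lit 7) (.e (nat_lit 548891) (nat_lit 11) (.e (nat_lit 81946) (nat_lit 20) (.e (nat_lit 1842) (nat_lit 123) (.e (nat_lit 548872) (nat_lit 5) .nil)))))) (.g (nat_lit 5) .nil .nil))) 
(.lf (nat_lit 66160) (.g (nat_lit 370) (.e (nat_lit 1598) (nat_lit 111) (.e (nat_lit 360473) (nat_lit 8) (.e (nat_lit 557068) (nat_lit 9) .nil))) .nil)))) (.nd (nat_lit 4) (.nd (nat_lit 5) 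
(.lf (nat_lit 66120) (.g (nat_lit 2940) (.e (nat_lit 1598) (nat_lit 111) (.e (nat_lit 360471) (nat_lit 7) (.e (nat_lit 548889) (nat_lit 9) (.e (nat_lit 65620) (nat_lit 10) (.e (nat_lit 344126) (nat_lit 25) (.e (nat_lit 548872) (nat_lit 5) .nil)))))) (.g (nat_lit 6) .nil .nil))) 
(.lf (nat_lit 66152) (.g (nat_lit 2105) (.e (nat_lit 1598) (nat_lit 111) (.e (nat_lit 360473) (nat_lit 8) (.e (nat_lit 557067) (nat_lit 9) (.e (nat_lit 247) (nat_lit 21) .nil)))) .nil))) (.nd (nat_lit 5) 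
(.lf (nat_lit 66136) (.g (nat_lit 1658) (.e (nat_lit 1598) (nat_lit 111) (.e (nat_lit 360473) (nat_lit 8) (.e (nat_lit 557065) (nat_lit 9) (.e (nat_lit 265) (nat_lit 21) (.e (nat_lit 336178) (nat_lit 10) .nil))))) .nil)) 
(.lf (nat_lit 66168) (.g (nat_lit 1472) (.e (nat_lit 1598) (nat_lit 111) (.e (nat_lit 360473) (nat_lit 8) (.e (nat_lit 557074) (nat_lit 9) (.e (nat_lit 284) (nat_lit 21) .nil)))) .nil))))) (.nd (nat_lit 3) (.nd (nat_lit 4) (.nd (nat_lit 5) 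
(.lf (nat_lit 66116) (.g (nat_lit 2506) (.e (nat_lit 1598) (nat_lit 111) (.e (nat_lit 360471) (nat_lit 7) (.e (nat_lit 548889) (nat_lit 9) (.e (nat_lit 65616) (nat_lit 10) (.e (nat_lit 344126) (nat_lit 25) (.e (nat_lit 548873) (nat_lit 5) .nil)))))) (.g (nat_lit 0) .nil .nil))) 
(.lf (nat_lit 66148) (.g (nat_lit 1354) (.e (nat_lit 1598) (nat_lit 111) (.e (nat_lit 360473) (nat_lit 8) (.e (nat_lit 557066) (nat_lit 9) (.e (nat_lit 312) (nat_lit 23) .nil)))) .nil))) (.nd (nat_lit 5) 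
(.lf (nat_lit 66132) (.g (nat_lit 620) (.e (nat_lit 1598) (nat_lit 111) (.e (nat_lit 360473) (nat_lit 8) (.e (nat_lit 557064) (nat_lit 9) .nil))) .nil)) 
(.lf (nat_lit 66164) (.g (nat_lit 385) (.e (nat_lit 1598) (nat_lit 111) (.e (nat_lit 360473) (nat_lit 8) (.e (nat_lit 557072) (nat_lit 9) .nil))) .nil)))) (.nd (nat_lit 4) (.nd (nat_lit 5) 
(.lf (nat_lit 66124) (.g (nat_lit 2000) (.e (nat_lit 1598) (nat_lit 111) (.e (nat_lit 360471) (nat_lit 7) (.e (nat_lit 548891) (nat_lit 11) (.e (nat_lit 81939) (nat_lit 20) (.e (nat_lit 1842) (nat_lit 123) (.e (nat_lit 548873) (nat_lit 5) .nil)))))) (.g (nat_lit 0) .nil .nil))) 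
(.lf (nat_lit 66156) (.g (nat_lit 2174) (.e (nat_lit 1598) (nat_lit 111) (.e (nat_lit 360473) (nat_lit 8) (.e (nat_lit 557067) (nat_lit 9) (.e (nat_lit 290) (nat_lit 21) .nil)))) .nil))) (.nd (nat_lit 5) 
(.lf (nat_lit 66140) (.g (nat_lit 2606) (.e (nat_lit 1598) (nat_lit 111) (.e (nat_lit 360473) (nat_lit 8) (.e (nat_lit 557065) (nat_lit 9) (.e (nat_lit 324) (nat_lit 24) (.e (nat_lit 360471) (nat_lit 7) (.e (nat_lit 548872) (nat_lit 5) .nil)))))) (.g (nat_lit 5) .nil .nil))) 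
(.lf (nat_lit 66172) (.g (nat_lit 615) (.e (nat_lit 1598) (nat_lit 111) (.e (nat_lit 360473) (nat_lit 8) (.e (nat_lit 564992) (nat_lit 9) .nil))) .nil)))))) (.nd (nat_lit 2) (.nd (nat_lit 3) (.nd (nat_lit 4) (.nd (nat_lit 5) 
(.lf (nat_lit 66114) (.g (nat_lit 2680) (.e (nat_lit 1598) (nat_lit 111) (.e (nat_lit 360471) (nat_lit 7) (.e (nat_lit 548889) (nat_lit 9) (.e (nat_lit 65609) (nat_lit 10) (.e (nat_lit 344126) (nat_lit 25) .nil))))) .nil)) 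
(.lf (nat_lit 66146) (.g (nat_lit 1422) (.e (nat_lit 1598) (nat_lit 111) (.e (nat_lit 360473) (nat_lit 8) (.e (nat_lit 557066) (nat_lit 9) (.e (nat_lit 309) (nat_lit 23) .nil)))) .nil))) (.nd (nat_lit 5) 
(.lf (nat_lit 66130) (.g (nat_lit 1952) (.e (nat_lit 1598) (nat_lit 111) (.e (nat_lit 360471) (nat_lit 7) (.e (nat_lit 548891) (nat_lit 11) (.e (nat_lit 81947) (nat_lit 20) (.e (nat_lit 1841) (nat_lit 123) (.e (nat_lit 548874) (nat_lit 5) .nil)))))) (.g (nat_lit 4) .nil .nil))) 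
(.lf (nat_lit 66162) (.g (nat_lit 1297) (.e (nat_lit 1598) (nat_lit 111) (.e (nat_lit 360473) (nat_lit 8) (.e (nat_lit 557070) (nat_lit 9) (.e (nat_lit 313) (nat_lit 23) .nil)))) .nil)))) (.nd (nat_lit 4) (.nd (nat_lit 5) 
(.lf (nat_lit 66122) (.g (nat_lit 2328) (.e (nat_lit 1598) (nat_lit 111) (.e (nat_lit 360471) (nat_lit 7) (.e (nat_lit 548891) (nat_lit 11) (.e (nat_lit 81938) (nat_lit 20) (.e (nat_lit 1842) (nat_lit 123) (.e (nat_lit 548873) (nat_lit 5) .nil)))))) (.g (nat_lit 0) .nil .nil))) 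
(.lf (nat_lit 66154) (.g (nat_lit 2516) (.e (nat_lit 1598) (nat_lit 111) (.e (nat_lit 360473) (nat_lit 8) (.e (nat_lit 557067) (nat_lit 9) (.e (nat_lit 249) (nat_lit 21) (.e (nat_lit 336165) (nat_lit 10) .nil))))) .nil))) (.nd (nat_lit 5) 
(.lf (nat_lit 66138) (.g (nat_lit 1752) (.e (nat_lit 1598) (nat_lit 111) (.e (nat_lit 360473) (nat_lit 8) (.e (nat_lit 557065) (nat_lit 9) (.e (nat_lit 321) (nat_lit 24) (.e (nat_lit 360471) (nat_lit 7) .nil))))) .nil)) 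
(.lf (nat_lit 66170) (.g (nat_lit 709) (.e (nat_lit 1598) (nat_lit 111) (.e (nat_lit 360473) (nat_lit 8) (.e (nat_lit 557080) (nat_lit 9) .nil))) .nil))))) (.nd (nat_lit 3) (.nd (nat_lit 4) (.nd (nat_lit 5) 
(.lf (nat_lit 66118) (.g (nat_lit 3044) (.e (nat_lit 1598) (nat_lit 111) (.e (nat_lit 360471) (nat_lit 7) (.e (nat_lit 548889) (nat_lit 9) (.e (nat_lit 65617) (nat_lit 10) (.e (nat_lit 344126) (nat_lit 25) (.e (nat_lit 548873) (nat_lit 5) .nil)))))) (.g (nat_lit 6) .nil .nil))) 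
(.lf (nat_lit 66150) (.g (nat_lit 1250) (.e (nat_lit 1598) (nat_lit 111) (.e (nat_lit 360473) (nat_lit 8) (.e (nat_lit 557066) (nat_lit 9) (.e (nat_lit 322) (nat_lit 24) .nil)))) .nil))) (.nd (nat_lit 5) 
(.lf (nat_lit 66134) (.g (nat_lit 518) (.e (nat_lit 1598) (nat_lit 111) (.e (nat_lit 360473) (nat_lit 8) (.e (nat_lit 557065) (nat_lit 9) .nil))) .nil)) 
(.lf (nat_lit 66166) (.g (nat_lit 875) (.e (nat_lit 1598) (nat_lit 111) (.e (nat_lit 360473) (nat_lit 8) (.e (nat_lit 557073) (nat_lit 9) (.e (nat_lit 272) (nat_lit 21) (.e (nat_lit 336165) (nat_lit 10) .nil))))) .nil)))) (.nd (nat_lit 4) (.nd (nat_lit 5) 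
(.lf (nat_lit 66126) (.g (nat_lit 1988) (.e (nat_lit 1598) (nat_lit 111) (.e (nat_lit 360471) (nat_lit 7) (.e (nat_lit 548891) (nat_lit 11) (.e (nat_lit 81942) (nat_lit 20) (.e (nat_lit 1842) (nat_lit 123) (.e (nat_lit 548873) (nat_lit 5) .nil)))))) (.g (nat_lit 0) .nil .nil))) 
(.lf (nat_lit 66158) (.g (nat_lit 1911) (.e (nat_lit 1598) (nat_lit 111) (.e (nat_lit 360473) (nat_lit 8) (.e (nat_lit 557067) (nat_lit 9) (.e (nat_lit 7936) (nat_lit 23) .nil)))) .nil))) (.nd (nat_lit 5) 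
(.lf (nat_lit 66142) (.g (nat_lit 1387) (.e (nat_lit 1598) (nat_lit 111) (.e (nat_lit 360473) (nat_lit 8) (.e (nat_lit 557066) (nat_lit 9) (.e (nat_lit 232) (nat_lit 21) .nil)))) .nil)) 
(.lf (nat_lit 66174) (.g (nat_lit 1487) (.e (nat_lit 1598) (nat_lit 111) (.e (nat_lit 360473) (nat_lit 8) (.e (nat_lit 557085) (nat_lit 11) (.e (nat_lit 24641) (nat_lit 10) .nil)))) .nil))))))) (.nd (nat_lit 1) (.nd (nat_lit 2) (.nd (nat_lit 3) (.nd (nat_lit 4) (.nd (nat_lit 5) 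
(.lf (nat_lit 66113) (.g (nat_lit 1987) (.e (nat_lit 1598) (nat_lit 111) (.e (nat_lit 360471) (nat_lit 7) (.e (nat_lit 548874) (nat_lit 5) (.e (nat_lit 1599) (nat_lit 111) (.e (nat_lit 360471) (nat_lit 7) (.e (nat_lit 548872) (nat_lit 5) .nil)))))) (.g (nat_lit 6) .nil .nil))) 
(.lf (nat_lit 66145) (.g (nat_lit 1800) (.e (nat_lit 1598) (nat_lit 111) (.e (nat_lit 360473) (nat_lit 8) (.e (nat_lit 557066) (nat_lit 9) (.e (nat_lit 268) (nat_lit 21) (.e (nat_lit 336173) (nat_lit 10) .nil))))) .nil))) (.nd (nat_lit 5) 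
(.lf (nat_lit 66129) (.g (nat_lit 2063) (.e (nat_lit 1598) (nat_lit 111) (.e (nat_lit 360471) (nat_lit 7) (.e (nat_lit 548891) (nat_lit 11) (.e (nat_lit 81946) (nat_lit 20) (.e (nat_lit 1842) (nat_lit 123) (.e (nat_lit 548873) (nat_lit 5) .nil)))))) (.g (nat_lit 5) .nil .nil))) 
(.lf (nat_lit 66161) (.g (nat_lit 2246) (.e (nat_lit 1598) (nat_lit 111) (.e (nat_lit 360473) (nat_lit 8) (.e (nat_lit 557068) (nat_lit 9) (.e (nat_lit 251) (nat_lit 21) (.e (nat_lit 336165) (nat_lit 10) (.e (nat_lit 344126) (nat_lit 25) (.e (nat_lit 548873) (nat_lit 5) .nil))))))) (.g (nat_lit 7) .nil .nil))))) (.nd (nat_lit 4) (.nd (nat_lit 5) 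
(.lf (nat_lit 66121) (.g (nat_lit 2800) (.e (nat_lit 1598) (nat_lit 111) (.e (nat_lit 360471) (nat_lit 7) (.e (nat_lit 548889) (nat_lit 9) (.e (nat_lit 65620) (nat_lit 10) (.e (nat_lit 344126) (nat_lit 25) (.e (nat_lit 548873) (nat_lit 5) .nil)))))) (.g (nat_lit 0) .nil .nil))) 
(.lf (nat_lit 66153) (.g (nat_lit 2013) (.e (nat_lit 1598) (nat_lit 111) (.e (nat_lit 360473) (nat_lit 8) (.e (nat_lit 557067) (nat_lit 9) (.e (nat_lit 249) (nat_lit 21) .nil)))) .nil))) (.nd (nat_lit 5) 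
(.lf (nat_lit 66137) (.g (nat_lit 1139) (.e (nat_lit 1598) (nat_lit 111) (.e (nat_lit 360473) (nat_lit 8) (.e (nat_lit 557065) (nat_lit 9) (.e (nat_lit 7936) (nat_lit 23) .nil)))) .nil)) 
(.lf (nat_lit 66169) (.g (nat_lit 709) (.e (nat_lit 1598) (nat_lit 111) (.e (nat_lit 360473) (nat_lit 8) (.e (nat_lit 557077) (nat_lit 9) .nil))) .nil))))) (.nd (nat_lit 3) (.nd (nat_lit 4) (.nd (nat_lit 5) 
(.lf (nat_lit 66117) (.g (nat_lit 3202) (.e (nat_lit 1598) (nat_lit 111) (.e (nat_lit 360471) (nat_lit 7) (.e (nat_lit 548889) (nat_lit 9) (.e (nat_lit 65617) (nat_lit 10) (.e (nat_lit 344126) (nat_lit 25) (.e (nat_lit 548872) (nat_lit 5) .nil)))))) (.g (nat_lit 6) .nil .nil))) 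
(.lf (nat_lit 66149) (.g (nat_lit 1951) (.e (nat_lit 1598) (nat_lit 111) (.e (nat_lit 360473) (nat_lit 8) (.e (nat_lit 557066) (nat_lit 9) (.e (nat_lit 314) (nat_lit 23) (.e (nat_lit 352303) (nat_lit 20) .nil))))) .nil))) (.nd (nat_lit 5) 
(.lf (nat_lit 66133) (.g (nat_lit 1010) (.e (nat_lit 1598) (nat_lit 111) (.e (nat_lit 360473) (nat_lit 8) (.e (nat_lit 557064) (nat_lit 9) (.e (nat_lit 265) (nat_lit 21) .nil)))) .nil)) 
(.lf (nat_lit 66165) (.g (nat_lit 383) (.e (nat_lit 1598) (nat_lit 111) (.e (nat_lit 360473) (nat_lit 8) (.e (nat_lit 557073) (nat_lit 9) .nil))) .nil)))) (.nd (nat_lit 4) (.nd (nat_lit 5) 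
(.lf (nat_lit 66125) (.g (nat_lit 2036) (.e (nat_lit 1598) (nat_lit 111) (.e (nat_lit 360471) (nat_lit 7) (.e (nat_lit 548891) (nat_lit 11) (.e (nat_lit 81942) (nat_lit 20) (.e (nat_lit 1840) (nat_lit 123) (.e (nat_lit 548874) (nat_lit 5) .nil)))))) (.g (nat_lit 0) .nil .nil))) 
(.lf (nat_lit 66157) (.g (nat_lit 1911) (.e (nat_lit 1598) (nat_lit 111) (.e (nat_lit 360473) (nat_lit 8) (.e (nat_lit 557067) (nat_lit 9) (.e (nat_lit 7936) (nat_lit 21) .nil)))) .nil))) (.nd (nat_lit 5) 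
(.lf (nat_lit 66141) (.g (nat_lit 401) (.e (nat_lit 1598) (nat_lit 111) (.e (nat_lit 360473) (nat_lit 8) (.e (nat_lit 557066) (nat_lit 9) .nil))) .nil)) 
(.lf (nat_lit 66173) (.g (nat_lit 1135) (.e (nat_lit 1598) (nat_lit 111) (.e (nat_lit 360473) (nat_lit 8) (.e (nat_lit 557084) (nat_lit 10) (.e (nat_lit 16128) (nat_lit 225) .nil)))) .nil)))))) (.nd (nat_lit 2) (.nd (nat_lit 3) (.nd (nat_lit 4) (.nd (nat_lit 5) 
(.lf (nat_lit 66115) (.g (nat_lit 2801) (.e (nat_lit 1598) (nat_lit 111) (.e (nat_lit 360471) (nat_lit 7) (.e (nat_lit 548889) (nat_lit 9) (.e (nat_lit 65611) (nat_lit 10) (.e (nat_lit 344126) (nat_lit 25) (.e (nat_lit 548872) (nat_lit 5) .nil)))))) (.g (nat_lit 5) .nil .nil))) 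
(.lf (nat_lit 66147) (.g (nat_lit 1416) (.e (nat_lit 1598) (nat_lit 111) (.e (nat_lit 360473) (nat_lit 8) (.e (nat_lit 557066) (nat_lit 9) (.e (nat_lit 310) (nat_lit 23) .nil)))) .nil))) (.nd (nat_lit 5) 
(.lf (nat_lit 66131) (.g (nat_lit 2629) (.e (nat_lit 1598) (nat_lit 111) (.e (nat_lit 360471) (nat_lit 7) (.e (nat_lit 548891) (nat_lit 11) (.e (nat_lit 81947) (nat_lit 20) (.e (nat_lit 1842) (nat_lit 123) (.e (nat_lit 548873) (nat_lit 5) .nil)))))) (.g (nat_lit 0) .nil .nil))) 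
(.lf (nat_lit 66163) (.g (nat_lit 1152) (.e (nat_lit 1598) (nat_lit 111) (.e (nat_lit 360473) (nat_lit 8) (.e (nat_lit 557070) (nat_lit 9) (.e (nat_lit 7936) (nat_lit 23) .nil)))) .nil)))) (.nd (nat_lit 4) (.nd (nat_lit 5) 
(.lf (nat_lit 66123) (.g (nat_lit 1922) (.e (nat_lit 1598) (nat_lit 111) (.e (nat_lit 360471) (nat_lit 7) (.e (nat_lit 548891) (nat_lit 11) (.e (nat_lit 81939) (nat_lit 20) (.e (nat_lit 1842) (nat_lit 123) (.e (nat_lit 548872) (nat_lit 5) .nil)))))) (.g (nat_lit 5) .nil .nil))) 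
(.lf (nat_lit 66155) (.g (nat_lit 2161) (.e (nat_lit 1598) (nat_lit 111) (.e (nat_lit 360473) (nat_lit 8) (.e (nat_lit 557067) (nat_lit 9) (.e (nat_lit 272) (nat_lit 21) .nil)))) .nil))) (.nd (nat_lit 5) 
(.lf (nat_lit 66139) (.g (nat_lit 1696) (.e (nat_lit 1598) (nat_lit 111) (.e (nat_lit 360473) (nat_lit 8) (.e (nat_lit 557065) (nat_lit 9) (.e (nat_lit 322) (nat_lit 24) (.e (nat_lit 360471) (nat_lit 7) .nil))))) .nil)) 
(.lf (nat_lit 66171) (.g (nat_lit 1305) (.e (nat_lit 1598) (nat_lit 111) (.e (nat_lit 360473) (nat_lit 8) (.e (nat_lit 557081) (nat_lit 9) (.e (nat_lit 316) (nat_lit 23) .nil)))) .nil))))) (.nd (nat_lit 3) (.nd (nat_lit 4) (.nd (nat_lit 5) 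
(.lf (nat_lit 66119) (.g (nat_lit 2988) (.e (nat_lit 1598) (nat_lit 111) (.e (nat_lit 360471) (nat_lit 7) (.e (nat_lit 548889) (nat_lit 9) (.e (nat_lit 65619) (nat_lit 10) (.e (nat_lit 344126) (nat_lit 25) (.e (nat_lit 548873) (nat_lit 5) .nil)))))) (.g (nat_lit 0) .nil .nil))) 
(.lf (nat_lit 66151) (.g (nat_lit 605) (.e (nat_lit 1598) (nat_lit 111) (.e (nat_lit 360473) (nat_lit 8) (.e (nat_lit 557067) (nat_lit 9) .nil))) .nil))) (.nd (nat_lit 5) 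
(.lf (nat_lit 66135) (.g (nat_lit 1401) (.e (nat_lit 1598) (nat_lit 111) (.e (nat_lit 360473) (nat_lit 8) (.e (nat_lit 557065) (nat_lit 9) (.e (nat_lit 225) (nat_lit 21) .nil)))) .nil)) 
(.lf (nat_lit 66167) (.g (nat_lit 686) (.e (nat_lit 1598) (nat_lit 111) (.e (nat_lit 360473) (nat_lit 8) (.e (nat_lit 557074) (nat_lit 9) .nil))) .nil)))) (.nd (nat_lit 4) (.nd (nat_lit 5) 
(.lf (nat_lit 66127) (.g (nat_lit 2132) (.e (nat_lit 1598) (nat_lit 111) (.e (nat_lit 360471) (nat_lit 7) (.e (nat_lit 548891) (nat_lit 11) (.e (nat_lit 81943) (nat_lit 20) (.e (nat_lit 1842) (nat_lit 123) (.e (nat_lit 548873) (nat_lit 5) .nil)))))) (.g (nat_lit 0) .nil .nil))) 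
(.lf (nat_lit 66159) (.g (nat_lit 1911) (.e (nat_lit 1598) (nat_lit 111) (.e (nat_lit 360473) (nat_lit 8) (.e (nat_lit 557067) (nat_lit 9) (.e (nat_lit 7936) (nat_lit 24) .nil)))) .nil))) (.nd (nat_lit 5) 
(.lf (nat_lit 66143) (.g (nat_lit 3057) (.e (nat_lit 1598) (nat_lit 111) (.e (nat_lit 360473) (nat_lit 8) (.e (nat_lit 557066) (nat_lit 9) (.e (nat_lit 232) (nat_lit 21) (.e (nat_lit 336164) (nat_lit 10) .nil))))) .nil)) 
(.lf (nat_lit 66175) (.g (nat_lit 710) (.e (nat_lit 1598) (nat_lit 111) (.e (nat_lit 360473) (nat_lit 8) (.e (nat_lit 557086) (nat_lit 11) .nil))) .nil))))))))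

noncomputable def tv913 : DT := (.nd (nat_lit 0) (.nd (nat_lit 1) (.nd (nat_lit 2) (.nd (nat_lit 3) (.nd (nat_lit 4) (.nd (nat_lit 5) 
(.lf (nat_lit 66176) (.g (nat_lit 1119) (.e (nat_lit 1598) (nat_lit 111) (.e (nat_lit 360473) (nat_lit 8) (.e (nat_lit 557086) (nat_lit 11) (.e (nat_lit 24639) (nat_lit 10) .nil)))) .nil)) 
(.lf (nat_lit 66208) (.g (nat_lit 3691) (.e (nat_lit 1598) (nat_lit 111) (.e (nat_lit 360473) (nat_lit 8) (.e (nat_lit 557090) (nat_lit 12) (.e (nat_lit 163841) (nat_lit 0) .nil)))) .nil))) (.nd (nat_lit 5) 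
(.lf (nat_lit 66192) (.g (nat_lit 2363) (.e (nat_lit 1598) (nat_lit 111) (.e (nat_lit 360473) (nat_lit 8) (.e (nat_lit 557087) (nat_lit 11) (.e (nat_lit 24632) (nat_lit 9) .nil)))) .nil)) 
(.lf (nat_lit 66224) (.g (nat_lit 4465) (.e (nat_lit 1598) (nat_lit 111) (.e (nat_lit 360473) (nat_lit 8) (.e (nat_lit 557090) (nat_lit 12) (.e (nat_lit 164020) (nat_lit 45) (.e (nat_lit 696344) (nat_lit 8) (.e (nat_lit 172138) (nat_lit 15) (.e (nat_lit 7936) (nat_lit 126) (.e (nat_lit 573449) (nat_lit 9) .nil)))))))) (.g (nat_lit 4) .nil .nil))))) (.nd (nat_lit 4) (.nd (nat_lit 5) 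
(.lf (nat_lit 66184) (.g (nat_lit 1157) (.e (nat_lit 1598) (nat_lit 111) (.e (nat_lit 360473) (nat_lit 8) (.e (nat_lit 557087) (nat_lit 11) (.e (nat_lit 24625) (nat_lit 9) .nil)))) .nil)) 
(.lf (nat_lit 66216) (.g (nat_lit 5210) (.e (nat_lit 1598) (nat_lit 111) (.e (nat_lit 360473) (nat_lit 8) (.e (nat_lit 557090) (nat_lit 12) (.e (nat_lit 164020) (nat_lit 45) (.e (nat_lit 696344) (nat_lit 8) (.e (nat_lit 172064) (nat_lit 2) (.e (nat_lit 196617) (nat_lit 9) .nil))))))) (.g (nat_lit 5) .nil .nil)))) (.nd (nat_lit 5) 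
(.lf (nat_lit 66200) (.g (nat_lit 1977) (.e (nat_lit 1598) (nat_lit 111) (.e (nat_lit 360473) (nat_lit 8) (.e (nat_lit 557087) (nat_lit 11) (.e (nat_lit 24637) (nat_lit 9) .nil)))) .nil)) 
(.lf (nat_lit 66232) (.g (nat_lit 2475) (.e (nat_lit 1598) (nat_lit 111) (.e (nat_lit 360473) (nat_lit 8) (.e (nat_lit 557091) (nat_lit 12) (.e (nat_lit 163843) (nat_lit 0) (.e (nat_lit 6068) (nat_lit 328) .nil))))) .nil))))) (.nd (nat_lit 3) (.nd (nat_lit 4) (.nd (nat_lit 5) 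
(.lf (nat_lit 66180) (.g (nat_lit 2200) (.e (nat_lit 1598) (nat_lit 111) (.e (nat_lit 360473) (nat_lit 8) (.e (nat_lit 557087) (nat_lit 11) (.e (nat_lit 24617) (nat_lit 7) (.e (nat_lit 319504) (nat_lit 10) (.e (nat_lit 536) (nat_lit 41) (.e (nat_lit 499967) (nat_lit 14) .nil))))))) (.g (nat_lit 5) .nil .nil))) 
(.lf (nat_lit 66212) (.g (nat_lit 3213) (.e (nat_lit 1598) (nat_lit 111) (.e (nat_lit 360473) (nat_lit 8) (.e (nat_lit 557090) (nat_lit 12) (.e (nat_lit 163999) (nat_lit 38) .nil)))) .nil))) (.nd (nat_lit 5) 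
(.lf (nat_lit 66196) (.g (nat_lit 2599) (.e (nat_lit 1598) (nat_lit 111) (.e (nat_lit 360473) (nat_lit 8) (.e (nat_lit 557087) (nat_lit 11) (.e (nat_lit 24634) (nat_lit 9) (.e (nat_lit 335925) (nat_lit 0) .nil))))) .nil)) 
(.lf (nat_lit 66228) (.g (nat_lit 1806) (.e (nat_lit 1598) (nat_lit 111) (.e (nat_lit 360473) (nat_lit 8) (.e (nat_lit 557091) (nat_lit 12) (.e (nat_lit 163841) (nat_lit 0) (.e (nat_lit 6068) (nat_lit 328) (.e (nat_lit 57421) (nat_lit 13) (.e (nat_lit 344126) (nat_lit 25) (.e (nat_lit 548873) (nat_lit 5) .nil)))))))) (.g (nat_lit 5) .nil .nil))))) (.nd (nat_lit 4) (.nd (nat_lit 5) 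
(.lf (nat_lit 66188) (.g (nat_lit 2185) (.e (nat_lit 1598) (nat_lit 111) (.e (nat_lit 360473) (nat_lit 8) (.e (nat_lit 557087) (nat_lit 11) (.e (nat_lit 24631) (nat_lit 9) (.e (nat_lit 335925) (nat_lit 0) (.e (nat_lit 1842) (nat_lit 123) (.e (nat_lit 548872) (nat_lit 5) .nil))))))) (.g (nat_lit 4) .nil .nil))) 
(.lf (nat_lit 66220) (.g (nat_lit 4883) (.e (nat_lit 1598) (nat_lit 111) (.e (nat_lit 360473) (nat_lit 8) (.e (nat_lit 557090) (nat_lit 12) (.e (nat_lit 164020) (nat_lit 45) (.e (nat_lit 696344) (nat_lit 8) (.e (nat_lit 172064) (nat_lit 2) (.e (nat_lit 204544) (nat_lit 9) .nil))))))) (.g (nat_lit 5) .nil .nil)))) (.nd (nat_lit 5) 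
(.lf (nat_lit 66204) (.g (nat_lit 1045) (.e (nat_lit 1598) (nat_lit 111) (.e (nat_lit 360473) (nat_lit 8) (.e (nat_lit 557089) (nat_lit 12) (.e (nat_lit 163844) (nat_lit 0) .nil)))) .nil)) 
(.lf (nat_lit 66236) (.g (nat_lit 3887) (.e (nat_lit 1598) (nat_lit 111) (.e (nat_lit 360473) (nat_lit 8) (.e (nat_lit 557091) (nat_lit 12) (.e (nat_lit 163999) (nat_lit 38) (.e (nat_lit 639020) (nat_lit 16) (.e (nat_lit 65580) (nat_lit 6) (.e (nat_lit 155392) (nat_lit 0) .nil))))))) (.g (nat_lit 6) .nil .nil))))))) (.nd (nat_lit 2) (.nd (nat_lit 3) (.nd (nat_lit 4) (.nd (nat_lit 5) 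
(.lf (nat_lit 66178) (.g (nat_lit 1796) (.e (nat_lit 1598) (nat_lit 111) (.e (nat_lit 360473) (nat_lit 8) (.e (nat_lit 557086) (nat_lit 11) (.e (nat_lit 24641) (nat_lit 10) (.e (nat_lit 344126) (nat_lit 25) .nil))))) .nil)) 
(.lf (nat_lit 66210) (.g (nat_lit 5098) (.e (nat_lit 1598) (nat_lit 111) (.e (nat_lit 360473) (nat_lit 8) (.e (nat_lit 557090) (nat_lit 12) (.e (nat_lit 163844) (nat_lit 0) (.e (nat_lit 6065) (nat_lit 328) (.e (nat_lit 57421) (nat_lit 13) (.e (nat_lit 344126) (nat_lit 25) (.e (nat_lit 548874) (nat_lit 5) .nil)))))))) (.g (nat_lit 4) .nil .nil)))) (.nd (nat_lit 5) 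
(.lf (nat_lit 66194) (.g (nat_lit 1705) (.e (nat_lit 1598) (nat_lit 111) (.e (nat_lit 360473) (nat_lit 8) (.e (nat_lit 557087) (nat_lit 11) (.e (nat_lit 24634) (nat_lit 9) .nil)))) .nil)) 
(.lf (nat_lit 66226) (.g (nat_lit 1468) (.e (nat_lit 1598) (nat_lit 111) (.e (nat_lit 360473) (nat_lit 8) (.e (nat_lit 557091) (nat_lit 12) (.e (nat_lit 163841) (nat_lit 0) .nil)))) .nil)))) (.nd (nat_lit 4) (.nd (nat_lit 5) 
(.lf (nat_lit 66186) (.g (nat_lit 1256) (.e (nat_lit 1598) (nat_lit 111) (.e (nat_lit 360473) (nat_lit 8) (.e (nat_lit 557087) (nat_lit 11) (.e (nat_lit 24631) (nat_lit 9) .nil)))) .nil)) 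
(.lf (nat_lit 66218) (.g (nat_lit 4708) (.e (nat_lit 1598) (nat_lit 111) (.e (nat_lit 360473) (nat_lit 8) (.e (nat_lit 557090) (nat_lit 12) (.e (nat_lit 164020) (nat_lit 45) (.e (nat_lit 696344) (nat_lit 8) (.e (nat_lit 172064) (nat_lit 2) (.e (nat_lit 196627) (nat_lit 9) .nil))))))) (.g (nat_lit 4) .nil .nil)))) (.nd (nat_lit 5) 
(.lf (nat_lit 66202) (.g (nat_lit 1609) (.e (nat_lit 1598) (nat_lit 111) (.e (nat_lit 360473) (nat_lit 8) (.e (nat_lit 557087) (nat_lit 11) (.e (nat_lit 24638) (nat_lit 9) .nil)))) .nil)) 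
(.lf (nat_lit 66234) (.g (nat_lit 1885) (.e (nat_lit 1598) (nat_lit 111) (.e (nat_lit 360473) (nat_lit 8) (.e (nat_lit 557091) (nat_lit 12) (.e (nat_lit 163844) (nat_lit 0) (.e (nat_lit 6065) (nat_lit 328) .nil))))) .nil))))) (.nd (nat_lit 3) (.nd (nat_lit 4) (.nd (nat_lit 5) 
(.lf (nat_lit 66182) (.g (nat_lit 1747) (.e (nat_lit 1598) (nat_lit 111) (.e (nat_lit 360473) (nat_lit 8) (.e (nat_lit 557087) (nat_lit 11) (.e (nat_lit 24617) (nat_lit 7) (.e (nat_lit 319505) (nat_lit 10) .nil))))) .nil)) 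
(.lf (nat_lit 66214) (.g (nat_lit 3949) (.e (nat_lit 1598) (nat_lit 111) (.e (nat_lit 360473) (nat_lit 8) (.e (nat_lit 557090) (nat_lit 12) (.e (nat_lit 164020) (nat_lit 45) (.e (nat_lit 696343) (nat_lit 8) .nil))))) .nil))) (.nd (nat_lit 5) 
(.lf (nat_lit 66198) (.g (nat_lit 2662) (.e (nat_lit 1598) (nat_lit 111) (.e (nat_lit 360473) (nat_lit 8) (.e (nat_lit 557087) (nat_lit 11) (.e (nat_lit 24634) (nat_lit 9) (.e (nat_lit 335927) (nat_lit 0) (.e (nat_lit 1842) (nat_lit 123) (.e (nat_lit 548874) (nat_lit 5) .nil))))))) (.g (nat_lit 4) .nil .nil))) 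
(.lf (nat_lit 66230) (.g (nat_lit 2473) (.e (nat_lit 1598) (nat_lit 111) (.e (nat_lit 360473) (nat_lit 8) (.e (nat_lit 557091) (nat_lit 12) (.e (nat_lit 163843) (nat_lit 0) (.e (nat_lit 6065) (nat_lit 328) .nil))))) .nil)))) (.nd (nat_lit 4) (.nd (nat_lit 5) 
(.lf (nat_lit 66190) (.g (nat_lit 2861) (.e (nat_lit 1598) (nat_lit 111) (.e (nat_lit 360473) (nat_lit 8) (.e (nat_lit 557087) (nat_lit 11) (.e (nat_lit 24631) (nat_lit 9) (.e (nat_lit 335925) (nat_lit 0) (.e (nat_lit 1842) (nat_lit 123) (.e (nat_lit 548874) (nat_lit 5) .nil))))))) (.g (nat_lit 6) .nil .nil))) 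
(.lf (nat_lit 66222) (.g (nat_lit 4624) (.e (nat_lit 1598) (nat_lit 111) (.e (nat_lit 360473) (nat_lit 8) (.e (nat_lit 557090) (nat_lit 12) (.e (nat_lit 164020) (nat_lit 45) (.e (nat_lit 696344) (nat_lit 8) (.e (nat_lit 172072) (nat_lit 5) (.e (nat_lit 245781) (nat_lit 9) .nil))))))) (.g (nat_lit 4) .nil .nil)))) (.nd (nat_lit 5) 
(.lf (nat_lit 66206) (.g (nat_lit 2618) (.e (nat_lit 1598) (nat_lit 111) (.e (nat_lit 360473) (nat_lit 8) (.e (nat_lit 557089) (nat_lit 12) (.e (nat_lit 163999) (nat_lit 38) (.e (nat_lit 639020) (nat_lit 16) (.e (nat_lit 65580) (nat_lit 6) (.e (nat_lit 155392) (nat_lit 0) .nil))))))) (.g (nat_lit 5) .nil .nil))) 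
(.lf (nat_lit 66238) (.g (nat_lit 1075) (.e (nat_lit 1598) (nat_lit 111) (.e (nat_lit 360473) (nat_lit 8) (.e (nat_lit 557091) (nat_lit 12) (.e (nat_lit 164022) (nat_lit 46) .nil)))) .nil))))))) (.nd (nat_lit 1) (.nd (nat_lit 2) (.nd (nat_lit 3) (.nd (nat_lit 4) (.nd (nat_lit 5) 
(.lf (nat_lit 66177) (.g (nat_lit 1959) (.e (nat_lit 1598) (nat_lit 111) (.e (nat_lit 360473) (nat_lit 8) (.e (nat_lit 557086) (nat_lit 11) (.e (nat_lit 24640) (nat_lit 10) (.e (nat_lit 344126) (nat_lit 25) .nil))))) .nil)) 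
(.lf (nat_lit 66209) (.g (nat_lit 3672) (.e (nat_lit 1598) (nat_lit 111) (.e (nat_lit 360473) (nat_lit 8) (.e (nat_lit 557090) (nat_lit 12) (.e (nat_lit 163843) (nat_lit 0) .nil)))) .nil))) (.nd (nat_lit 5) 
(.lf (nat_lit 66193) (.g (nat_lit 2152) (.e (nat_lit 1598) (nat_lit 111) (.e (nat_lit 360473) (nat_lit 8) (.e (nat_lit 557087) (nat_lit 11) (.e (nat_lit 24633) (nat_lit 9) .nil)))) .nil)) 
(.lf (nat_lit 66225) (.g (nat_lit 3771) (.e (nat_lit 1598) (nat_lit 111) (.e (nat_lit 360473) (nat_lit 8) (.e (nat_lit 557090) (nat_lit 12) (.e (nat_lit 164022) (nat_lit 46) .nil)))) .nil)))) (.nd (nat_lit 4) (.nd (nat_lit 5) 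
(.lf (nat_lit 66185) (.g (nat_lit 2774) (.e (nat_lit 1598) (nat_lit 111) (.e (nat_lit 360473) (nat_lit 8) (.e (nat_lit 557087) (nat_lit 11) (.e (nat_lit 24628) (nat_lit 9) (.e (nat_lit 335878) (nat_lit 0) .nil))))) .nil)) 
(.lf (nat_lit 66217) (.g (nat_lit 4539) (.e (nat_lit 1598) (nat_lit 111) (.e (nat_lit 360473) (nat_lit 8) (.e (nat_lit 557090) (nat_lit 12) (.e (nat_lit 164020) (nat_lit 45) (.e (nat_lit 696344) (nat_lit 8) (.e (nat_lit 172064) (nat_lit 2) (.e (nat_lit 196623) (nat_lit 9) .nil))))))) (.g (nat_lit 4) .nil .nil)))) (.nd (nat_lit 5) 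
(.lf (nat_lit 66201) (.g (nat_lit 2711) (.e (nat_lit 1598) (nat_lit 111) (.e (nat_lit 360473) (nat_lit 8) (.e (nat_lit 557087) (nat_lit 11) (.e (nat_lit 24637) (nat_lit 9) (.e (nat_lit 335917) (nat_lit 0) .nil))))) .nil)) 
(.lf (nat_lit 66233) (.g (nat_lit 1407) (.e (nat_lit 1598) (nat_lit 111) (.e (nat_lit 360473) (nat_lit 8) (.e (nat_lit 557091) (nat_lit 12) (.e (nat_lit 163844) (nat_lit 0) .nil)))) .nil))))) (.nd (nat_lit 3) (.nd (nat_lit 4) (.nd (nat_lit 5) 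
(.lf (nat_lit 66181) (.g (nat_lit 2312) (.e (nat_lit 1598) (nat_lit 111) (.e (nat_lit 360473) (nat_lit 8) (.e (nat_lit 557087) (nat_lit 11) (.e (nat_lit 24617) (nat_lit 7) (.e (nat_lit 319504) (nat_lit 10) (.e (nat_lit 559) (nat_lit 41) (.e (nat_lit 499967) (nat_lit 14) .nil))))))) (.g (nat_lit 5) .nil .nil))) 
(.lf (nat_lit 66213) (.g (nat_lit 2761) (.e (nat_lit 1598) (nat_lit 111) (.e (nat_lit 360473) (nat_lit 8) (.e (nat_lit 557090) (nat_lit 12) (.e (nat_lit 164020) (nat_lit 45) .nil)))) .nil))) (.nd (nat_lit 5) 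
(.lf (nat_lit 66197) (.g (nat_lit 2864) (.e (nat_lit 1598) (nat_lit 111) (.e (nat_lit 360473) (nat_lit 8) (.e (nat_lit 557087) (nat_lit 11) (.e (nat_lit 24634) (nat_lit 9) (.e (nat_lit 335925) (nat_lit 0) (.e (nat_lit 1842) (nat_lit 123) (.e (nat_lit 548874) (nat_lit 5) .nil))))))) (.g (nat_lit 5) .nil .nil))) 
(.lf (nat_lit 66229) (.g (nat_lit 2471) (.e (nat_lit 1598) (nat_lit 111) (.e (nat_lit 360473) (nat_lit 8) (.e (nat_lit 557091) (nat_lit 12) (.e (nat_lit 163843) (nat_lit 0) (.e (nat_lit 6047) (nat_lit 326) .nil))))) .nil)))) (.nd (nat_lit 4) (.nd (nat_lit 5) 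
(.lf (nat_lit 66189) (.g (nat_lit 2283) (.e (nat_lit 1598) (nat_lit 111) (.e (nat_lit 360473) (nat_lit 8) (.e (nat_lit 557087) (nat_lit 11) (.e (nat_lit 24631) (nat_lit 9) (.e (nat_lit 335925) (nat_lit 0) (.e (nat_lit 1842) (nat_lit 123) (.e (nat_lit 548873) (nat_lit 5) .nil))))))) (.g (nat_lit 5) .nil .nil))) 
(.lf (nat_lit 66221) (.g (nat_lit 4510) (.e (nat_lit 1598) (nat_lit 111) (.e (nat_lit 360473) (nat_lit 8) (.e (nat_lit 557090) (nat_lit 12) (.e (nat_lit 164020) (nat_lit 45) (.e (nat_lit 696344) (nat_lit 8) (.e (nat_lit 172071) (nat_lit 5) (.e (nat_lit 245781) (nat_lit 9) .nil))))))) (.g (nat_lit 4) .nil .nil)))) (.nd (nat_lit 5) 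
(.lf (nat_lit 66205) (.g (nat_lit 2025) (.e (nat_lit 1598) (nat_lit 111) (.e (nat_lit 360473) (nat_lit 8) (.e (nat_lit 557089) (nat_lit 12) (.e (nat_lit 163844) (nat_lit 0) (.e (nat_lit 6068) (nat_lit 328) (.e (nat_lit 57421) (nat_lit 13) (.e (nat_lit 344126) (nat_lit 25) (.e (nat_lit 548873) (nat_lit 5) .nil)))))))) (.g (nat_lit 6) .nil .nil))) 
(.lf (nat_lit 66237) (.g (nat_lit 2685) (.e (nat_lit 1598) (nat_lit 111) (.e (nat_lit 360473) (nat_lit 8) (.e (nat_lit 557091) (nat_lit 12) (.e (nat_lit 163999) (nat_lit 38) (.e (nat_lit 639021) (nat_lit 16) .nil))))) .nil)))))) (.nd (nat_lit 2) (.nd (nat_lit 3) (.nd (nat_lit 4) (.nd (nat_lit 5) 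
(.lf (nat_lit 66179) (.g (nat_lit 481) (.e (nat_lit 1598) (nat_lit 111) (.e (nat_lit 360473) (nat_lit 8) (.e (nat_lit 557087) (nat_lit 11) .nil))) .nil)) 
(.lf (nat_lit 66211) (.g (nat_lit 5179) (.e (nat_lit 1598) (nat_lit 111) (.e (nat_lit 360473) (nat_lit 8) (.e (nat_lit 557090) (nat_lit 12) (.e (nat_lit 163844) (nat_lit 0) (.e (nat_lit 6068) (nat_lit 328) (.e (nat_lit 57421) (nat_lit 13) (.e (nat_lit 344126) (nat_lit 25) (.e (nat_lit 548874) (nat_lit 5) .nil)))))))) (.g (nat_lit 4) .nil .nil)))) (.nd (nat_lit 5) 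
(.lf (nat_lit 66195) (.g (nat_lit 2599) (.e (nat_lit 1598) (nat_lit 111) (.e (nat_lit 360473) (nat_lit 8) (.e (nat_lit 557087) (nat_lit 11) (.e (nat_lit 24634) (nat_lit 9) (.e (nat_lit 335916) (nat_lit 0) .nil))))) .nil)) 
(.lf (nat_lit 66227) (.g (nat_lit 1741) (.e (nat_lit 1598) (nat_lit 111) (.e (nat_lit 360473) (nat_lit 8) (.e (nat_lit 557091) (nat_lit 12) (.e (nat_lit 163841) (nat_lit 0) (.e (nat_lit 6068) (nat_lit 328) (.e (nat_lit 57421) (nat_lit 13) (.e (nat_lit 344126) (nat_lit 25) (.e (nat_lit 548872) (nat_lit 5) .nil)))))))) (.g (nat_lit 4) .nil .nil))))) (.nd (nat_lit 4) (.nd (nat_lit 5) 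
(.lf (nat_lit 66187) (.g (nat_lit 2100) (.e (nat_lit 1598) (nat_lit 111) (.e (nat_lit 360473) (nat_lit 8) (.e (nat_lit 557087) (nat_lit 11) (.e (nat_lit 24631) (nat_lit 9) (.e (nat_lit 335886) (nat_lit 0) .nil))))) .nil)) 
(.lf (nat_lit 66219) (.g (nat_lit 4810) (.e (nat_lit 1598) (nat_lit 111) (.e (nat_lit 360473) (nat_lit 8) (.e (nat_lit 557090) (nat_lit 12) (.e (nat_lit 164020) (nat_lit 45) (.e (nat_lit 696344) (nat_lit 8) (.e (nat_lit 172064) (nat_lit 2) (.e (nat_lit 196630) (nat_lit 9) .nil))))))) (.g (nat_lit 5) .nil .nil)))) (.nd (nat_lit 5) 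
(.lf (nat_lit 66203) (.g (nat_lit 3206) (.e (nat_lit 1598) (nat_lit 111) (.e (nat_lit 360473) (nat_lit 8) (.e (nat_lit 557087) (nat_lit 11) (.e (nat_lit 24638) (nat_lit 9) (.e (nat_lit 335917) (nat_lit 0) .nil))))) .nil)) 
(.lf (nat_lit 66235) (.g (nat_lit 1884) (.e (nat_lit 1598) (nat_lit 111) (.e (nat_lit 360473) (nat_lit 8) (.e (nat_lit 557091) (nat_lit 12) (.e (nat_lit 163844) (nat_lit 0) (.e (nat_lit 6068) (nat_lit 328) .nil))))) .nil))))) (.nd (nat_lit 3) (.nd (nat_lit 4) (.nd (nat_lit 5) 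
(.lf (nat_lit 66183) (.g (nat_lit 2137) (.e (nat_lit 1598) (nat_lit 111) (.e (nat_lit 360473) (nat_lit 8) (.e (nat_lit 557087) (nat_lit 11) (.e (nat_lit 24623) (nat_lit 9) .nil)))) .nil)) 
(.lf (nat_lit 66215) (.g (nat_lit 4654) (.e (nat_lit 1598) (nat_lit 111) (.e (nat_lit 360473) (nat_lit 8) (.e (nat_lit 557090) (nat_lit 12) (.e (nat_lit 164020) (nat_lit 45) (.e (nat_lit 696343) (nat_lit 8) (.e (nat_lit 172073) (nat_lit 5) (.e (nat_lit 245781) (nat_lit 9) .nil))))))) (.g (nat_lit 4) .nil .nil)))) (.nd (nat_lit 5) 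
(.lf (nat_lit 66199) (.g (nat_lit 2599) (.e (nat_lit 1598) (nat_lit 111) (.e (nat_lit 360473) (nat_lit 8) (.e (nat_lit 557087) (nat_lit 11) (.e (nat_lit 24634) (nat_lit 9) (.e (nat_lit 335938) (nat_lit 0) .nil))))) .nil)) 
(.lf (nat_lit 66231) (.g (nat_lit 2473) (.e (nat_lit 1598) (nat_lit 111) (.e (nat_lit 360473) (nat_lit 8) (.e (nat_lit 557091) (nat_lit 12) (.e (nat_lit 163843) (nat_lit 0) (.e (nat_lit 6067) (nat_lit 328) .nil))))) .nil)))) (.nd (nat_lit 4) (.nd (nat_lit 5) 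
(.lf (nat_lit 66191) (.g (nat_lit 2277) (.e (nat_lit 1598) (nat_lit 111) (.e (nat_lit 360473) (nat_lit 8) (.e (nat_lit 557087) (nat_lit 11) (.e (nat_lit 24631) (nat_lit 9) (.e (nat_lit 335927) (nat_lit 0) .nil))))) .nil)) 
(.lf (nat_lit 66223) (.g (nat_lit 5107) (.e (nat_lit 1598) (nat_lit 111) (.e (nat_lit 360473) (nat_lit 8) (.e (nat_lit 557090) (nat_lit 12) (.e (nat_lit 164020) (nat_lit 45) (.e (nat_lit 696344) (nat_lit 8) (.e (nat_lit 172073) (nat_lit 5) (.e (nat_lit 245781) (nat_lit 9) .nil))))))) (.g (nat_lit 5) .nil .nil)))) (.nd (nat_lit 5) 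
(.lf (nat_lit 66207) (.g (nat_lit 1396) (.e (nat_lit 1598) (nat_lit 111) (.e (nat_lit 360473) (nat_lit 8) (.e (nat_lit 557090) (nat_lit 12) .nil))) .nil)) 
(.lf (nat_lit 66239) (.g (nat_lit 2011) (.e (nat_lit 1598) (nat_lit 111) (.e (nat_lit 360473) (nat_lit 8) (.e (nat_lit 557091) (nat_lit 12) (.e (nat_lit 164022) (nat_lit 46) (.e (nat_lit 704737) (nat_lit 11) (.e (nat_lit 16411) (nat_lit 2) (.e (nat_lit 196623) (nat_lit 9) .nil))))))) (.g (nat_lit 4) .nil .nil)))))))))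

noncomputable def tv914 : DT := (.nd (nat_lit 0) (.nd (nat_lit 1) (.nd (nat_lit 2) (.nd (nat_lit 3) (.nd (nat_lit 4) (.nd (nat_lit 5) 
(.lf (nat_lit 66240) (.g (nat_lit 1743) (.e (nat_lit 1598) (nat_lit 111) (.e (nat_lit 360473) (nat_lit 8) (.e (nat_lit 557091) (nat_lit 12) (.e (nat_lit 164022) (nat_lit 46) (.e (nat_lit 704737) (nat_lit 11) (.e (nat_lit 16411) (nat_lit 2) (.e (nat_lit 196627) (nat_lit 9) .nil))))))) (.g (nat_lit 4) .nil .nil))) 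
(.lf (nat_lit 66272) (.g (nat_lit 844) (.e (nat_lit 1598) (nat_lit 111) (.e (nat_lit 360475) (nat_lit 8) (.e (nat_lit 557119) (nat_lit 18) .nil))) .nil))) (.nd (nat_lit 5) 
(.lf (nat_lit 66256) (.g (nat_lit 2174) (.e (nat_lit 1598) (nat_lit 111) (.e (nat_lit 360473) (nat_lit 8) (.e (nat_lit 557119) (nat_lit 18) (.e (nat_lit 2797) (nat_lit 180) (.e (nat_lit 303140) (nat_lit 10) .nil))))) .nil)) 
(.lf (nat_lit 66288) (.g (nat_lit 1705) (.e (nat_lit 1598) (nat_lit 111) (.e (nat_lit 360477) (nat_lit 11) (.e (nat_lit 581651) (nat_lit 4) (.e (nat_lit 172116) (nat_lit 10) (.e (nat_lit 434295) (nat_lit 49) (.e (nat_lit 745475) (nat_lit 0) .nil)))))) (.g (nat_lit 6) .nil .nil))))) (.nd (nat_lit 4) (.nd (nat_lit 5) 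
(.lf (nat_lit 66248) (.g (nat_lit 2014) (.e (nat_lit 1598) (nat_lit 111) (.e (nat_lit 360473) (nat_lit 8) (.e (nat_lit 557094) (nat_lit 12) (.e (nat_lit 164022) (nat_lit 46) (.e (nat_lit 704738) (nat_lit 11) (.e (nat_lit 16411) (nat_lit 2) (.e (nat_lit 196623) (nat_lit 9) .nil))))))) (.g (nat_lit 5) .nil .nil))) 
(.lf (nat_lit 66280) (.g (nat_lit 2109) (.e (nat_lit 1598) (nat_lit 111) (.e (nat_lit 360477) (nat_lit 11) (.e (nat_lit 581651) (nat_lit 4) (.e (nat_lit 172106) (nat_lit 10) (.e (nat_lit 434295) (nat_lit 49) (.e (nat_lit 745475) (nat_lit 0) .nil)))))) (.g (nat_lit 0) .nil .nil)))) (.nd (nat_lit 5) 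
(.lf (nat_lit 66264) (.g (nat_lit 1349) (.e (nat_lit 1598) (nat_lit 111) (.e (nat_lit 360473) (nat_lit 8) (.e (nat_lit 557119) (nat_lit 18) (.e (nat_lit 2804) (nat_lit 180) .nil)))) .nil)) 
(.lf (nat_lit 66296) (.g (nat_lit 2519) (.e (nat_lit 1598) (nat_lit 111) (.e (nat_lit 360477) (nat_lit 11) (.e (nat_lit 581653) (nat_lit 6) (.e (nat_lit 188441) (nat_lit 20) (.e (nat_lit 3579) (nat_lit 223) (.e (nat_lit 745475) (nat_lit 0) .nil)))))) (.g (nat_lit 0) .nil .nil)))))) (.nd (nat_lit 3) (.nd (nat_lit 4) (.nd (nat_lit 5) 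
(.lf (nat_lit 66244) (.g (nat_lit 2290) (.e (nat_lit 1598) (nat_lit 111) (.e (nat_lit 360473) (nat_lit 8) (.e (nat_lit 557093) (nat_lit 12) (.e (nat_lit 164022) (nat_lit 46) (.e (nat_lit 704738) (nat_lit 11) (.e (nat_lit 16411) (nat_lit 2) (.e (nat_lit 196617) (nat_lit 9) .nil))))))) (.g (nat_lit 5) .nil .nil))) 
(.lf (nat_lit 66276) (.g (nat_lit 498) (.e (nat_lit 1598) (nat_lit 111) (.e (nat_lit 360477) (nat_lit 11) (.e (nat_lit 581635) (nat_lit 0) .nil))) .nil))) (.nd (nat_lit 5) 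
(.lf (nat_lit 66260) (.g (nat_lit 1772) (.e (nat_lit 1598) (nat_lit 111) (.e (nat_lit 360473) (nat_lit 8) (.e (nat_lit 557119) (nat_lit 18) (.e (nat_lit 2798) (nat_lit 180) (.e (nat_lit 303133) (nat_lit 9) (.e (nat_lit 426043) (nat_lit 0) (.e (nat_lit 3577) (nat_lit 223) (.e (nat_lit 745475) (nat_lit 0) .nil)))))))) (.g (nat_lit 4) .nil .nil))) 
(.lf (nat_lit 66292) (.g (nat_lit 1882) (.e (nat_lit 1598) (nat_lit 111) (.e (nat_lit 360477) (nat_lit 11) (.e (nat_lit 581653) (nat_lit 6) (.e (nat_lit 188438) (nat_lit 20) (.e (nat_lit 3578) (nat_lit 223) (.e (nat_lit 745475) (nat_lit 0) .nil)))))) (.g (nat_lit 0) .nil .nil))))) (.nd (nat_lit 4) (.nd (nat_lit 5) 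
(.lf (nat_lit 66252) (.g (nat_lit 1400) (.e (nat_lit 1598) (nat_lit 111) (.e (nat_lit 360473) (nat_lit 8) (.e (nat_lit 557119) (nat_lit 18) (.e (nat_lit 2448) (nat_lit 157) .nil)))) .nil)) 
(.lf (nat_lit 66284) (.g (nat_lit 1686) (.e (nat_lit 1598) (nat_lit 111) (.e (nat_lit 360477) (nat_lit 11) (.e (nat_lit 581651) (nat_lit 4) (.e (nat_lit 172113) (nat_lit 10) (.e (nat_lit 434294) (nat_lit 49) .nil))))) .nil))) (.nd (nat_lit 5) 
(.lf (nat_lit 66268) (.g (nat_lit 2522) (.e (nat_lit 1598) (nat_lit 111) (.e (nat_lit 360473) (nat_lit 8) (.e (nat_lit 557119) (nat_lit 18) (.e (nat_lit 2807) (nat_lit 180) (.e (nat_lit 303137) (nat_lit 10) (.e (nat_lit 434295) (nat_lit 49) (.e (nat_lit 745475) (nat_lit 0) .nil))))))) (.g (nat_lit 6) .nil .nil))) 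
(.lf (nat_lit 66300) (.g (nat_lit 1587) (.e (nat_lit 1598) (nat_lit 111) (.e (nat_lit 360480) (nat_lit 14) (.e (nat_lit 638998) (nat_lit 8) (.e (nat_lit 172106) (nat_lit 10) (.e (nat_lit 434269) (nat_lit 36) (.e (nat_lit 639007) (nat_lit 13) .nil)))))) (.g (nat_lit 5) .nil .nil))))))) (.nd (nat_lit 2) (.nd (nat_lit 3) (.nd (nat_lit 4) (.nd (nat_lit 5) 
(.lf (nat_lit 66242) (.g (nat_lit 2495) (.e (nat_lit 1598) (nat_lit 111) (.e (nat_lit 360473) (nat_lit 8) (.e (nat_lit 557091) (nat_lit 12) (.e (nat_lit 164022) (nat_lit 46) (.e (nat_lit 704738) (nat_lit 11) (.e (nat_lit 16411) (nat_lit 2) (.e (nat_lit 196623) (nat_lit 9) .nil))))))) (.g (nat_lit 5) .nil .nil))) 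
(.lf (nat_lit 66274) (.g (nat_lit 2672) (.e (nat_lit 1598) (nat_lit 111) (.e (nat_lit 360475) (nat_lit 8) (.e (nat_lit 557119) (nat_lit 18) (.e (nat_lit 2807) (nat_lit 180) (.e (nat_lit 303137) (nat_lit 10) .nil))))) .nil))) (.nd (nat_lit 5) 
(.lf (nat_lit 66258) (.g (nat_lit 2616) (.e (nat_lit 1598) (nat_lit 111) (.e (nat_lit 360473) (nat_lit 8) (.e (nat_lit 557119) (nat_lit 18) (.e (nat_lit 2798) (nat_lit 180) (.e (nat_lit 303133) (nat_lit 9) (.e (nat_lit 426034) (nat_lit 0) (.e (nat_lit 3579) (nat_lit 223) (.e (nat_lit 745476) (nat_lit 0) .nil)))))))) (.g (nat_lit 5) .nil .nil))) 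
(.lf (nat_lit 66290) (.g (nat_lit 2545) (.e (nat_lit 1598) (nat_lit 111) (.e (nat_lit 360477) (nat_lit 11) (.e (nat_lit 581653) (nat_lit 6) (.e (nat_lit 188434) (nat_lit 20) (.e (nat_lit 3578) (nat_lit 223) (.e (nat_lit 745475) (nat_lit 0) .nil)))))) (.g (nat_lit 0) .nil .nil))))) (.nd (nat_lit 4) (.nd (nat_lit 5) 
(.lf (nat_lit 66250) (.g (nat_lit 1918) (.e (nat_lit 1598) (nat_lit 111) (.e (nat_lit 360473) (nat_lit 8) (.e (nat_lit 557118) (nat_lit 18) (.e (nat_lit 2808) (nat_lit 180) (.e (nat_lit 303140) (nat_lit 10) (.e (nat_lit 434295) (nat_lit 49) (.e (nat_lit 745475) (nat_lit 0) .nil))))))) (.g (nat_lit 6) .nil .nil))) 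
(.lf (nat_lit 66282) (.g (nat_lit 1637) (.e (nat_lit 1598) (nat_lit 111) (.e (nat_lit 360477) (nat_lit 11) (.e (nat_lit 581651) (nat_lit 4) (.e (nat_lit 172112) (nat_lit 10) (.e (nat_lit 434295) (nat_lit 49) (.e (nat_lit 745475) (nat_lit 0) .nil)))))) (.g (nat_lit 6) .nil .nil)))) (.nd (nat_lit 5) 
(.lf (nat_lit 66266) (.g (nat_lit 1625) (.e (nat_lit 1598) (nat_lit 111) (.e (nat_lit 360473) (nat_lit 8) (.e (nat_lit 557119) (nat_lit 18) (.e (nat_lit 2807) (nat_lit 180) (.e (nat_lit 303137) (nat_lit 10) .nil))))) .nil)) 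
(.lf (nat_lit 66298) (.g (nat_lit 1271) (.e (nat_lit 1598) (nat_lit 111) (.e (nat_lit 360479) (nat_lit 13) (.e (nat_lit 630801) (nat_lit 8) (.e (nat_lit 172113) (nat_lit 10) (.e (nat_lit 434269) (nat_lit 36) (.e (nat_lit 639008) (nat_lit 13) .nil)))))) (.g (nat_lit 6) .nil .nil)))))) (.nd (nat_lit 3) (.nd (nat_lit 4) (.nd (nat_lit 5) 
(.lf (nat_lit 66246) (.g (nat_lit 1308) (.e (nat_lit 1598) (nat_lit 111) (.e (nat_lit 360473) (nat_lit 8) (.e (nat_lit 557094) (nat_lit 12) (.e (nat_lit 164022) (nat_lit 46) (.e (nat_lit 704737) (nat_lit 11) (.e (nat_lit 16411) (nat_lit 2) (.e (nat_lit 196627) (nat_lit 9) .nil))))))) (.g (nat_lit 4) .nil .nil))) 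
(.lf (nat_lit 66278) (.g (nat_lit 325) (.e (nat_lit 1598) (nat_lit 111) (.e (nat_lit 360477) (nat_lit 11) (.e (nat_lit 581651) (nat_lit 4) .nil))) .nil))) (.nd (nat_lit 5) 
(.lf (nat_lit 66262) (.g (nat_lit 1910) (.e (nat_lit 1598) (nat_lit 111) (.e (nat_lit 360473) (nat_lit 8) (.e (nat_lit 557119) (nat_lit 18) (.e (nat_lit 2798) (nat_lit 180) (.e (nat_lit 303139) (nat_lit 10) .nil))))) .nil)) 
(.lf (nat_lit 66294) (.g (nat_lit 2293) (.e (nat_lit 1598) (nat_lit 111) (.e (nat_lit 360477) (nat_lit 11) (.e (nat_lit 581653) (nat_lit 6) (.e (nat_lit 188440) (nat_lit 20) (.e (nat_lit 3578) (nat_lit 223) (.e (nat_lit 745475) (nat_lit 0) .nil)))))) (.g (nat_lit 0) .nil .nil))))) (.nd (nat_lit 4) (.nd (nat_lit 5) 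
(.lf (nat_lit 66254) (.g (nat_lit 1365) (.e (nat_lit 1598) (nat_lit 111) (.e (nat_lit 360473) (nat_lit 8) (.e (nat_lit 557119) (nat_lit 18) (.e (nat_lit 2796) (nat_lit 180) .nil)))) .nil)) 
(.lf (nat_lit 66286) (.g (nat_lit 1908) (.e (nat_lit 1598) (nat_lit 111) (.e (nat_lit 360477) (nat_lit 11) (.e (nat_lit 581651) (nat_lit 4) (.e (nat_lit 172115) (nat_lit 10) (.e (nat_lit 434294) (nat_lit 49) (.e (nat_lit 745476) (nat_lit 0) .nil)))))) (.g (nat_lit 5) .nil .nil)))) (.nd (nat_lit 5) 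
(.lf (nat_lit 66270) (.g (nat_lit 1229) (.e (nat_lit 1598) (nat_lit 111) (.e (nat_lit 360475) (nat_lit 8) (.e (nat_lit 557086) (nat_lit 11) .nil))) .nil)) 
(.lf (nat_lit 66302) (.g (nat_lit 1140) (.e (nat_lit 1598) (nat_lit 111) (.e (nat_lit 360480) (nat_lit 14) (.e (nat_lit 638998) (nat_lit 8) (.e (nat_lit 172112) (nat_lit 10) (.e (nat_lit 434269) (nat_lit 36) (.e (nat_lit 639007) (nat_lit 13) .nil)))))) (.g (nat_lit 5) .nil .nil)))))))) (.nd (nat_lit 1) (.nd (nat_lit 2) (.nd (nat_lit 3) (.nd (nat_lit 4) (.nd (nat_lit 5) 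
(.lf (nat_lit 66241) (.g (nat_lit 2679) (.e (nat_lit 1598) (nat_lit 111) (.e (nat_lit 360473) (nat_lit 8) (.e (nat_lit 557091) (nat_lit 12) (.e (nat_lit 164022) (nat_lit 46) (.e (nat_lit 704738) (nat_lit 11) (.e (nat_lit 16411) (nat_lit 2) (.e (nat_lit 196617) (nat_lit 9) .nil))))))) (.g (nat_lit 5) .nil .nil))) 
(.lf (nat_lit 66273) (.g (nat_lit 2041) (.e (nat_lit 1598) (nat_lit 111) (.e (nat_lit 360475) (nat_lit 8) (.e (nat_lit 557119) (nat_lit 18) (.e (nat_lit 2798) (nat_lit 180) .nil)))) .nil))) (.nd (nat_lit 5) 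
(.lf (nat_lit 66257) (.g (nat_lit 1666) (.e (nat_lit 1598) (nat_lit 111) (.e (nat_lit 360473) (nat_lit 8) (.e (nat_lit 557119) (nat_lit 18) (.e (nat_lit 2798) (nat_lit 180) (.e (nat_lit 303133) (nat_lit 9) .nil))))) .nil)) 
(.lf (nat_lit 66289) (.g (nat_lit 1527) (.e (nat_lit 1598) (nat_lit 111) (.e (nat_lit 360477) (nat_lit 11) (.e (nat_lit 581653) (nat_lit 6) (.e (nat_lit 188434) (nat_lit 20) (.e (nat_lit 3577) (nat_lit 223) .nil))))) .nil)))) (.nd (nat_lit 4) (.nd (nat_lit 5) 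
(.lf (nat_lit 66249) (.g (nat_lit 410) (.e (nat_lit 1598) (nat_lit 111) (.e (nat_lit 360473) (nat_lit 8) (.e (nat_lit 557118) (nat_lit 18) .nil))) .nil)) 
(.lf (nat_lit 66281) (.g (nat_lit 1707) (.e (nat_lit 1598) (nat_lit 111) (.e (nat_lit 360477) (nat_lit 11) (.e (nat_lit 581651) (nat_lit 4) (.e (nat_lit 172107) (nat_lit 10) (.e (nat_lit 434295) (nat_lit 49) (.e (nat_lit 745475) (nat_lit 0) .nil)))))) (.g (nat_lit 6) .nil .nil)))) (.nd (nat_lit 5) 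
(.lf (nat_lit 66265) (.g (nat_lit 1147) (.e (nat_lit 1598) (nat_lit 111) (.e (nat_lit 360473) (nat_lit 8) (.e (nat_lit 557119) (nat_lit 18) (.e (nat_lit 2807) (nat_lit 180) .nil)))) .nil)) 
(.lf (nat_lit 66297) (.g (nat_lit 1224) (.e (nat_lit 1598) (nat_lit 111) (.e (nat_lit 360479) (nat_lit 13) (.e (nat_lit 630801) (nat_lit 8) (.e (nat_lit 172113) (nat_lit 10) (.e (nat_lit 434269) (nat_lit 36) (.e (nat_lit 639007) (nat_lit 13) .nil)))))) (.g (nat_lit 6) .nil .nil)))))) (.nd (nat_lit 3) (.nd (nat_lit 4) (.nd (nat_lit 5) 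
(.lf (nat_lit 66245) (.g (nat_lit 2106) (.e (nat_lit 1598) (nat_lit 111) (.e (nat_lit 360473) (nat_lit 8) (.e (nat_lit 557093) (nat_lit 12) (.e (nat_lit 164022) (nat_lit 46) (.e (nat_lit 704738) (nat_lit 11) (.e (nat_lit 16411) (nat_lit 2) (.e (nat_lit 196623) (nat_lit 9) .nil))))))) (.g (nat_lit 5) .nil .nil))) 
(.lf (nat_lit 66277) (.g (nat_lit 1512) (.e (nat_lit 1598) (nat_lit 111) (.e (nat_lit 360477) (nat_lit 11) (.e (nat_lit 581636) (nat_lit 0) (.e (nat_lit 3027) (nat_lit 187) (.e (nat_lit 450605) (nat_lit 27) (.e (nat_lit 745475) (nat_lit 0) .nil)))))) (.g (nat_lit 0) .nil .nil)))) (.nd (nat_lit 5) 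
(.lf (nat_lit 66261) (.g (nat_lit 2629) (.e (nat_lit 1598) (nat_lit 111) (.e (nat_lit 360473) (nat_lit 8) (.e (nat_lit 557119) (nat_lit 18) (.e (nat_lit 2798) (nat_lit 180) (.e (nat_lit 303133) (nat_lit 9) (.e (nat_lit 426048) (nat_lit 0) (.e (nat_lit 3578) (nat_lit 223) (.e (nat_lit 745476) (nat_lit 0) .nil)))))))) (.g (nat_lit 5) .nil .nil))) 
(.lf (nat_lit 66293) (.g (nat_lit 2674) (.e (nat_lit 1598) (nat_lit 111) (.e (nat_lit 360477) (nat_lit 11) (.e (nat_lit 581653) (nat_lit 6) (.e (nat_lit 188439) (nat_lit 20) (.e (nat_lit 3579) (nat_lit 223) (.e (nat_lit 745475) (nat_lit 0) .nil)))))) (.g (nat_lit 0) .nil .nil))))) (.nd (nat_lit 4) (.nd (nat_lit 5) 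
(.lf (nat_lit 66253) (.g (nat_lit 1357) (.e (nat_lit 1598) (nat_lit 111) (.e (nat_lit 360473) (nat_lit 8) (.e (nat_lit 557119) (nat_lit 18) (.e (nat_lit 2449) (nat_lit 157) .nil)))) .nil)) 
(.lf (nat_lit 66285) (.g (nat_lit 1917) (.e (nat_lit 1598) (nat_lit 111) (.e (nat_lit 360477) (nat_lit 11) (.e (nat_lit 581651) (nat_lit 4) (.e (nat_lit 172113) (nat_lit 10) (.e (nat_lit 434295) (nat_lit 49) (.e (nat_lit 745475) (nat_lit 0) .nil)))))) (.g (nat_lit 5) .nil .nil)))) (.nd (nat_lit 5) 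
(.lf (nat_lit 66269) (.g (nat_lit 1555) (.e (nat_lit 1598) (nat_lit 111) (.e (nat_lit 360473) (nat_lit 8) (.e (nat_lit 557119) (nat_lit 18) (.e (nat_lit 2808) (nat_lit 180) (.e (nat_lit 303140) (nat_lit 10) .nil))))) .nil)) 
(.lf (nat_lit 66301) (.g (nat_lit 1632) (.e (nat_lit 1598) (nat_lit 111) (.e (nat_lit 360480) (nat_lit 14) (.e (nat_lit 638998) (nat_lit 8) (.e (nat_lit 172106) (nat_lit 10) (.e (nat_lit 434269) (nat_lit 36) (.e (nat_lit 639008) (nat_lit 13) .nil)))))) (.g (nat_lit 6) .nil .nil))))))) (.nd (nat_lit 2) (.nd (nat_lit 3) (.nd (nat_lit 4) (.nd (nat_lit 5) 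
(.lf (nat_lit 66243) (.g (nat_lit 1617) (.e (nat_lit 1598) (nat_lit 111) (.e (nat_lit 360473) (nat_lit 8) (.e (nat_lit 557093) (nat_lit 12) (.e (nat_lit 164022) (nat_lit 46) (.e (nat_lit 704737) (nat_lit 11) (.e (nat_lit 16411) (nat_lit 2) (.e (nat_lit 196627) (nat_lit 9) .nil))))))) (.g (nat_lit 4) .nil .nil))) 
(.lf (nat_lit 66275) (.g (nat_lit 2253) (.e (nat_lit 1598) (nat_lit 111) (.e (nat_lit 360475) (nat_lit 8) (.e (nat_lit 557119) (nat_lit 18) (.e (nat_lit 2808) (nat_lit 180) .nil)))) .nil))) (.nd (nat_lit 5) 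
(.lf (nat_lit 66259) (.g (nat_lit 1928) (.e (nat_lit 1598) (nat_lit 111) (.e (nat_lit 360473) (nat_lit 8) (.e (nat_lit 557119) (nat_lit 18) (.e (nat_lit 2798) (nat_lit 180) (.e (nat_lit 303133) (nat_lit 9) (.e (nat_lit 426042) (nat_lit 0) (.e (nat_lit 3578) (nat_lit 223) (.e (nat_lit 745475) (nat_lit 0) .nil)))))))) (.g (nat_lit 4) .nil .nil))) 
(.lf (nat_lit 66291) (.g (nat_lit 2112) (.e (nat_lit 1598) (nat_lit 111) (.e (nat_lit 360477) (nat_lit 11) (.e (nat_lit 581653) (nat_lit 6) (.e (nat_lit 188435) (nat_lit 20) (.e (nat_lit 3579) (nat_lit 223) (.e (nat_lit 745475) (nat_lit 0) .nil)))))) (.g (nat_lit 0) .nil .nil))))) (.nd (nat_lit 4) (.nd (nat_lit 5) 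
(.lf (nat_lit 66251) (.g (nat_lit 374) (.e (nat_lit 1598) (nat_lit 111) (.e (nat_lit 360473) (nat_lit 8) (.e (nat_lit 557119) (nat_lit 18) .nil))) .nil)) 
(.lf (nat_lit 66283) (.g (nat_lit 1496) (.e (nat_lit 1598) (nat_lit 111) (.e (nat_lit 360477) (nat_lit 11) (.e (nat_lit 581651) (nat_lit 4) (.e (nat_lit 172113) (nat_lit 10) (.e (nat_lit 434293) (nat_lit 49) .nil))))) .nil))) (.nd (nat_lit 5) 
(.lf (nat_lit 66267) (.g (nat_lit 1747) (.e (nat_lit 1598) (nat_lit 111) (.e (nat_lit 360473) (nat_lit 8) (.e (nat_lit 557119) (nat_lit 18) (.e (nat_lit 2807) (nat_lit 180) (.e (nat_lit 303137) (nat_lit 10) (.e (nat_lit 434295) (nat_lit 49) (.e (nat_lit 745474) (nat_lit 0) .nil))))))) (.g (nat_lit 4) .nil .nil))) 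
(.lf (nat_lit 66299) (.g (nat_lit 1195) (.e (nat_lit 1598) (nat_lit 111) (.e (nat_lit 360480) (nat_lit 14) (.e (nat_lit 638997) (nat_lit 8) (.e (nat_lit 172115) (nat_lit 10) (.e (nat_lit 434269) (nat_lit 36) (.e (nat_lit 639007) (nat_lit 13) .nil)))))) (.g (nat_lit 5) .nil .nil)))))) (.nd (nat_lit 3) (.nd (nat_lit 4) (.nd (nat_lit 5) 
(.lf (nat_lit 66247) (.g (nat_lit 2198) (.e (nat_lit 1598) (nat_lit 111) (.e (nat_lit 360473) (nat_lit 8) (.e (nat_lit 557094) (nat_lit 12) (.e (nat_lit 164022) (nat_lit 46) (.e (nat_lit 704738) (nat_lit 11) (.e (nat_lit 16411) (nat_lit 2) (.e (nat_lit 196617) (nat_lit 9) .nil))))))) (.g (nat_lit 6) .nil .nil))) 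
(.lf (nat_lit 66279) (.g (nat_lit 1286) (.e (nat_lit 1598) (nat_lit 111) (.e (nat_lit 360477) (nat_lit 11) (.e (nat_lit 581651) (nat_lit 4) (.e (nat_lit 172106) (nat_lit 10) (.e (nat_lit 434295) (nat_lit 49) (.e (nat_lit 745474) (nat_lit 0) .nil)))))) (.g (nat_lit 4) .nil .nil)))) (.nd (nat_lit 5) 
(.lf (nat_lit 66263) (.g (nat_lit 2200) (.e (nat_lit 1598) (nat_lit 111) (.e (nat_lit 360473) (nat_lit 8) (.e (nat_lit 557119) (nat_lit 18) (.e (nat_lit 2798) (nat_lit 180) (.e (nat_lit 303140) (nat_lit 10) (.e (nat_lit 434295) (nat_lit 49) (.e (nat_lit 745474) (nat_lit 0) .nil))))))) (.g (nat_lit 4) .nil .nil))) 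
(.lf (nat_lit 66295) (.g (nat_lit 2626) (.e (nat_lit 1598) (nat_lit 111) (.e (nat_lit 360477) (nat_lit 11) (.e (nat_lit 581653) (nat_lit 6) (.e (nat_lit 188440) (nat_lit 20) (.e (nat_lit 3579) (nat_lit 223) (.e (nat_lit 745475) (nat_lit 0) .nil)))))) (.g (nat_lit 0) .nil .nil))))) (.nd (nat_lit 4) (.nd (nat_lit 5) 
(.lf (nat_lit 66255) (.g (nat_lit 2238) (.e (nat_lit 1598) (nat_lit 111) (.e (nat_lit 360473) (nat_lit 8) (.e (nat_lit 557119) (nat_lit 18) (.e (nat_lit 2797) (nat_lit 180) (.e (nat_lit 303133) (nat_lit 9) .nil))))) .nil)) 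
(.lf (nat_lit 66287) (.g (nat_lit 2043) (.e (nat_lit 1598) (nat_lit 111) (.e (nat_lit 360477) (nat_lit 11) (.e (nat_lit 581651) (nat_lit 4) (.e (nat_lit 172115) (nat_lit 10) (.e (nat_lit 434295) (nat_lit 49) (.e (nat_lit 745475) (nat_lit 0) .nil)))))) (.g (nat_lit 0) .nil .nil)))) (.nd (nat_lit 5) 
(.lf (nat_lit 66271) (.g (nat_lit 1422) (.e (nat_lit 1598) (nat_lit 111) (.e (nat_lit 360475) (nat_lit 8) (.e (nat_lit 557090) (nat_lit 12) .nil))) .nil)) 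
(.lf (nat_lit 66303) (.g (nat_lit 1159) (.e (nat_lit 1598) (nat_lit 111) (.e (nat_lit 360480) (nat_lit 14) (.e (nat_lit 638998) (nat_lit 8) (.e (nat_lit 172112) (nat_lit 10) (.e (nat_lit 434269) (nat_lit 36) (.e (nat_lit 639008) (nat_lit 13) .nil)))))) (.g (nat_lit 5) .nil .nil)))))))))

noncomputable def tv915 : DT := (.nd (nat_lit 0) (.nd (nat_lit 1) (.nd (nat_lit 2) (.nd (nat_lit 3) (.nd (nat_lit 4) 
(.lf (nat_lit 66304) (.g (nat_lit 1242) (.e (nat_lit 1598) (nat_lit 111) (.e (nat_lit 360480) (nat_lit 14) (.e (nat_lit 638998) (nat_lit 8) (.e (nat_lit 172116) (nat_lit 10) (.e (nat_lit 434269) (nat_lit 36) (.e (nat_lit 639007) (nat_lit 13) .nil)))))) (.g (nat_lit 5) .nil .nil))) 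
(.lf (nat_lit 66320) (.g (nat_lit 1763) (.e (nat_lit 1598) (nat_lit 111) (.e (nat_lit 360486) (nat_lit 18) (.e (nat_lit 671762) (nat_lit 4) (.e (nat_lit 65611) (nat_lit 10) (.e (nat_lit 344169) (nat_lit 40) (.e (nat_lit 671746) (nat_lit 0) .nil)))))) (.g (nat_lit 4) .nil .nil)))) (.nd (nat_lit 4) 
(.lf (nat_lit 66312) (.g (nat_lit 2126) (.e (nat_lit 1598) (nat_lit 111) (.e (nat_lit 360482) (nat_lit 15) (.e (nat_lit 647199) (nat_lit 11) (.e (nat_lit 16449) (nat_lit 10) (.e (nat_lit 434269) (nat_lit 36) (.e (nat_lit 639008) (nat_lit 13) .nil)))))) (.g (nat_lit 6) .nil .nil))) 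
(.lf (nat_lit 66328) (.g (nat_lit 2553) (.e (nat_lit 1598) (nat_lit 111) (.e (nat_lit 360486) (nat_lit 18) (.e (nat_lit 671762) (nat_lit 4) (.e (nat_lit 65617) (nat_lit 10) (.e (nat_lit 344169) (nat_lit 40) (.e (nat_lit 671747) (nat_lit 0) .nil)))))) (.g (nat_lit 5) .nil .nil))))) (.nd (nat_lit 3) (.nd (nat_lit 4) 
(.lf (nat_lit 66308) (.g (nat_lit 1089) (.e (nat_lit 1598) (nat_lit 111) (.e (nat_lit 360480) (nat_lit 14) (.e (nat_lit 639001) (nat_lit 10) (.e (nat_lit 188434) (nat_lit 20) (.e (nat_lit 3390) (nat_lit 210) (.e (nat_lit 639007) (nat_lit 13) .nil)))))) (.g (nat_lit 0) .nil .nil))) 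
(.lf (nat_lit 66324) (.g (nat_lit 2173) (.e (nat_lit 1598) (nat_lit 111) (.e (nat_lit 360486) (nat_lit 18) (.e (nat_lit 671762) (nat_lit 4) (.e (nat_lit 65616) (nat_lit 10) (.e (nat_lit 344169) (nat_lit 40) (.e (nat_lit 671747) (nat_lit 0) .nil)))))) (.g (nat_lit 5) .nil .nil)))) (.nd (nat_lit 4) 
(.lf (nat_lit 66316) (.g (nat_lit 2415) (.e (nat_lit 1598) (nat_lit 111) (.e (nat_lit 360486) (nat_lit 18) (.e (nat_lit 671762) (nat_lit 4) (.e (nat_lit 65610) (nat_lit 10) (.e (nat_lit 344168) (nat_lit 40) (.e (nat_lit 671747) (nat_lit 0) .nil)))))) (.g (nat_lit 5) .nil .nil))) 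
(.lf (nat_lit 66332) (.g (nat_lit 1811) (.e (nat_lit 1598) (nat_lit 111) (.e (nat_lit 360486) (nat_lit 18) (.e (nat_lit 671762) (nat_lit 4) (.e (nat_lit 65620) (nat_lit 10) (.e (nat_lit 344169) (nat_lit 40) (.e (nat_lit 671746) (nat_lit 0) .nil)))))) (.g (nat_lit 4) .nil .nil)))))) (.nd (nat_lit 2) (.nd (nat_lit 3) (.nd (nat_lit 4) 
(.lf (nat_lit 66306) (.g (nat_lit 1263) (.e (nat_lit 1598) (nat_lit 111) (.e (nat_lit 360480) (nat_lit 14) (.e (nat_lit 638999) (nat_lit 8) (.e (nat_lit 172106) (nat_lit 10) (.e (nat_lit 434269) (nat_lit 36) (.e (nat_lit 639007) (nat_lit 13) .nil)))))) (.g (nat_lit 0) .nil .nil))) 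
(.lf (nat_lit 66322) (.g (nat_lit 2194) (.e (nat_lit 1598) (nat_lit 111) (.e (nat_lit 360486) (nat_lit 18) (.e (nat_lit 671762) (nat_lit 4) (.e (nat_lit 65616) (nat_lit 10) (.e (nat_lit 344168) (nat_lit 40) (.e (nat_lit 671747) (nat_lit 0) .nil)))))) (.g (nat_lit 5) .nil .nil)))) (.nd (nat_lit 4) 
(.lf (nat_lit 66314) (.g (nat_lit 2683) (.e (nat_lit 1598) (nat_lit 111) (.e (nat_lit 360486) (nat_lit 18) (.e (nat_lit 671761) (nat_lit 4) (.e (nat_lit 65610) (nat_lit 10) (.e (nat_lit 344169) (nat_lit 40) (.e (nat_lit 671748) (nat_lit 0) .nil)))))) (.g (nat_lit 5) .nil .nil))) 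
(.lf (nat_lit 66330) (.g (nat_lit 2494) (.e (nat_lit 1598) (nat_lit 111) (.e (nat_lit 360486) (nat_lit 18) (.e (nat_lit 671762) (nat_lit 4) (.e (nat_lit 65619) (nat_lit 10) (.e (nat_lit 344168) (nat_lit 40) (.e (nat_lit 671747) (nat_lit 0) .nil)))))) (.g (nat_lit 5) .nil .nil))))) (.nd (nat_lit 3) (.nd (nat_lit 4) 
(.lf (nat_lit 66310) (.g (nat_lit 1077) (.e (nat_lit 1598) (nat_lit 111) (.e (nat_lit 360482) (nat_lit 15) (.e (nat_lit 647190) (nat_lit 9) (.e (nat_lit 7936) (nat_lit 35) .nil)))) .nil)) 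
(.lf (nat_lit 66326) (.g (nat_lit 2635) (.e (nat_lit 1598) (nat_lit 111) (.e (nat_lit 360486) (nat_lit 18) (.e (nat_lit 671762) (nat_lit 4) (.e (nat_lit 65617) (nat_lit 10) (.e (nat_lit 344168) (nat_lit 40) (.e (nat_lit 671747) (nat_lit 0) .nil)))))) (.g (nat_lit 5) .nil .nil)))) (.nd (nat_lit 4) 
(.lf (nat_lit 66318) (.g (nat_lit 2585) (.e (nat_lit 1598) (nat_lit 111) (.e (nat_lit 360486) (nat_lit 18) (.e (nat_lit 671762) (nat_lit 4) (.e (nat_lit 65610) (nat_lit 10) (.e (nat_lit 344169) (nat_lit 40) (.e (nat_lit 671747) (nat_lit 0) .nil)))))) (.g (nat_lit 5) .nil .nil))) 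
(.lf (nat_lit 66334) (.g (nat_lit 385) (.e (nat_lit 1598) (nat_lit 111) (.e (nat_lit 360486) (nat_lit 18) (.e (nat_lit 671764) (nat_lit 6) .nil))) .nil)))))) (.nd (nat_lit 1) (.nd (nat_lit 2) (.nd (nat_lit 3) (.nd (nat_lit 4) 
(.lf (nat_lit 66305) (.g (nat_lit 1267) (.e (nat_lit 1598) (nat_lit 111) (.e (nat_lit 360480) (nat_lit 14) (.e (nat_lit 638998) (nat_lit 8) (.e (nat_lit 172116) (nat_lit 10) (.e (nat_lit 434269) (nat_lit 36) (.e (nat_lit 639008) (nat_lit 13) .nil)))))) (.g (nat_lit 5) .nil .nil))) 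
(.lf (nat_lit 66321) (.g (nat_lit 2278) (.e (nat_lit 1598) (nat_lit 111) (.e (nat_lit 360486) (nat_lit 18) (.e (nat_lit 671762) (nat_lit 4) (.e (nat_lit 65611) (nat_lit 10) (.e (nat_lit 344169) (nat_lit 40) (.e (nat_lit 671747) (nat_lit 0) .nil)))))) (.g (nat_lit 5) .nil .nil)))) (.nd (nat_lit 4) 
(.lf (nat_lit 66313) (.g (nat_lit 1389) (.e (nat_lit 1598) (nat_lit 111) (.e (nat_lit 360486) (nat_lit 18) (.e (nat_lit 671747) (nat_lit 0) (.e (nat_lit 1595) (nat_lit 111) (.e (nat_lit 360486) (nat_lit 18) .nil))))) .nil)) 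
(.lf (nat_lit 66329) (.g (nat_lit 2056) (.e (nat_lit 1598) (nat_lit 111) (.e (nat_lit 360486) (nat_lit 18) (.e (nat_lit 671762) (nat_lit 4) (.e (nat_lit 65619) (nat_lit 10) (.e (nat_lit 344168) (nat_lit 40) (.e (nat_lit 671746) (nat_lit 0) .nil)))))) (.g (nat_lit 4) .nil .nil))))) (.nd (nat_lit 3) (.nd (nat_lit 4) 
(.lf (nat_lit 66309) (.g (nat_lit 672) (.e (nat_lit 1598) (nat_lit 111) (.e (nat_lit 360480) (nat_lit 14) (.e (nat_lit 639001) (nat_lit 10) (.e (nat_lit 188438) (nat_lit 20) (.e (nat_lit 3390) (nat_lit 210) (.e (nat_lit 639007) (nat_lit 13) .nil)))))) (.g (nat_lit 0) .nil .nil))) 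
(.lf (nat_lit 66325) (.g (nat_lit 3091) (.e (nat_lit 1598) (nat_lit 111) (.e (nat_lit 360486) (nat_lit 18) (.e (nat_lit 671762) (nat_lit 4) (.e (nat_lit 65616) (nat_lit 10) (.e (nat_lit 344169) (nat_lit 40) (.e (nat_lit 671748) (nat_lit 0) .nil)))))) (.g (nat_lit 0) .nil .nil)))) (.nd (nat_lit 4) 
(.lf (nat_lit 66317) (.g (nat_lit 1886) (.e (nat_lit 1598) (nat_lit 111) (.e (nat_lit 360486) (nat_lit 18) (.e (nat_lit 671762) (nat_lit 4) (.e (nat_lit 65610) (nat_lit 10) (.e (nat_lit 344169) (nat_lit 40) (.e (nat_lit 671746) (nat_lit 0) .nil)))))) (.g (nat_lit 4) .nil .nil))) 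
(.lf (nat_lit 66333) (.g (nat_lit 2252) (.e (nat_lit 1598) (nat_lit 111) (.e (nat_lit 360486) (nat_lit 18) (.e (nat_lit 671762) (nat_lit 4) (.e (nat_lit 65620) (nat_lit 10) (.e (nat_lit 344169) (nat_lit 40) (.e (nat_lit 671747) (nat_lit 0) .nil)))))) (.g (nat_lit 5) .nil .nil)))))) (.nd (nat_lit 2) (.nd (nat_lit 3) (.nd (nat_lit 4) 
(.lf (nat_lit 66307) (.g (nat_lit 1001) (.e (nat_lit 1598) (nat_lit 111) (.e (nat_lit 360480) (nat_lit 14) (.e (nat_lit 638999) (nat_lit 8) (.e (nat_lit 172107) (nat_lit 10) (.e (nat_lit 434269) (nat_lit 36) (.e (nat_lit 639007) (nat_lit 13) .nil)))))) (.g (nat_lit 6) .nil .nil))) 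
(.lf (nat_lit 66323) (.g (nat_lit 1597) (.e (nat_lit 1598) (nat_lit 111) (.e (nat_lit 360486) (nat_lit 18) (.e (nat_lit 671762) (nat_lit 4) (.e (nat_lit 65616) (nat_lit 10) (.e (nat_lit 344169) (nat_lit 40) (.e (nat_lit 671746) (nat_lit 0) .nil)))))) (.g (nat_lit 4) .nil .nil)))) (.nd (nat_lit 4) 
(.lf (nat_lit 66315) (.g (nat_lit 1936) (.e (nat_lit 1598) (nat_lit 111) (.e (nat_lit 360486) (nat_lit 18) (.e (nat_lit 671762) (nat_lit 4) (.e (nat_lit 65610) (nat_lit 10) (.e (nat_lit 344168) (nat_lit 40) (.e (nat_lit 671746) (nat_lit 0) .nil)))))) (.g (nat_lit 4) .nil .nil))) 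
(.lf (nat_lit 66331) (.g (nat_lit 2216) (.e (nat_lit 1598) (nat_lit 111) (.e (nat_lit 360486) (nat_lit 18) (.e (nat_lit 671762) (nat_lit 4) (.e (nat_lit 65620) (nat_lit 10) (.e (nat_lit 344168) (nat_lit 40) (.e (nat_lit 671747) (nat_lit 0) .nil)))))) (.g (nat_lit 5) .nil .nil))))) (.nd (nat_lit 3) (.nd (nat_lit 4) 
(.lf (nat_lit 66311) (.g (nat_lit 2026) (.e (nat_lit 1598) (nat_lit 111) (.e (nat_lit 360482) (nat_lit 15) (.e (nat_lit 647199) (nat_lit 11) (.e (nat_lit 16449) (nat_lit 10) (.e (nat_lit 434269) (nat_lit 36) (.e (nat_lit 639007) (nat_lit 13) .nil)))))) (.g (nat_lit 6) .nil .nil))) 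
(.lf (nat_lit 66327) (.g (nat_lit 2197) (.e (nat_lit 1598) (nat_lit 111) (.e (nat_lit 360486) (nat_lit 18) (.e (nat_lit 671762) (nat_lit 4) (.e (nat_lit 65617) (nat_lit 10) (.e (nat_lit 344169) (nat_lit 40) (.e (nat_lit 671746) (nat_lit 0) .nil)))))) (.g (nat_lit 4) .nil .nil)))) (.nd (nat_lit 4) 
(.lf (nat_lit 66319) (.g (nat_lit 2244) (.e (nat_lit 1598) (nat_lit 111) (.e (nat_lit 360486) (nat_lit 18) (.e (nat_lit 671762) (nat_lit 4) (.e (nat_lit 65611) (nat_lit 10) (.e (nat_lit 344168) (nat_lit 40) (.e (nat_lit 671747) (nat_lit 0) .nil)))))) (.g (nat_lit 5) .nil .nil))) 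
(.lf (nat_lit 66335) (.g (nat_lit 1364) (.e (nat_lit 1598) (nat_lit 111) (.e (nat_lit 360486) (nat_lit 18) (.e (nat_lit 671764) (nat_lit 6) (.e (nat_lit 81938) (nat_lit 20) (.e (nat_lit 2005) (nat_lit 138) (.e (nat_lit 671747) (nat_lit 0) .nil)))))) (.g (nat_lit 4) .nil .nil))))))))

noncomputable def tv916 : DT := (.nd (nat_lit 0) (.nd (nat_lit 1) (.nd (nat_lit 2) (.nd (nat_lit 3) (.nd (nat_lit 4) 
(.lf (nat_lit 66336) (.g (nat_lit 1860) (.e (nat_lit 1598) (nat_lit 111) (.e (nat_lit 360486) (nat_lit 18) (.e (nat_lit 671764) (nat_lit 6) (.e (nat_lit 81939) (nat_lit 20) (.e (nat_lit 2005) (nat_lit 138) (.e (nat_lit 671748) (nat_lit 0) .nil)))))) (.g (nat_lit 0) .nil .nil))) 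
(.lf (nat_lit 66352) (.g (nat_lit 491) (.e (nat_lit 1598) (nat_lit 111) (.e (nat_lit 360489) (nat_lit 21) (.e (nat_lit 770055) (nat_lit 5) (.e (nat_lit 1592) (nat_lit 111) .nil)))) .nil))) (.nd (nat_lit 4) 
(.lf (nat_lit 66344) (.g (nat_lit 2301) (.e (nat_lit 1598) (nat_lit 111) (.e (nat_lit 360486) (nat_lit 18) (.e (nat_lit 671764) (nat_lit 6) (.e (nat_lit 81946) (nat_lit 20) (.e (nat_lit 2006) (nat_lit 138) (.e (nat_lit 671748) (nat_lit 0) .nil)))))) (.g (nat_lit 0) .nil .nil))) 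
(.lf (nat_lit 66360) (.g (nat_lit 1989) (.e (nat_lit 1598) (nat_lit 111) (.e (nat_lit 360489) (nat_lit 21) (.e (nat_lit 770058) (nat_lit 5) (.e (nat_lit 1589) (nat_lit 111) (.e (nat_lit 360489) (nat_lit 21) (.e (nat_lit 770057) (nat_lit 5) .nil)))))) (.g (nat_lit 0) .nil .nil))))) (.nd (nat_lit 3) (.nd (nat_lit 4) 
(.lf (nat_lit 66340) (.g (nat_lit 1869) (.e (nat_lit 1598) (nat_lit 111) (.e (nat_lit 360486) (nat_lit 18) (.e (nat_lit 671764) (nat_lit 6) (.e (nat_lit 81942) (nat_lit 20) (.e (nat_lit 2006) (nat_lit 138) (.e (nat_lit 671748) (nat_lit 0) .nil)))))) (.g (nat_lit 0) .nil .nil))) 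
(.lf (nat_lit 66356) (.g (nat_lit 1256) (.e (nat_lit 1598) (nat_lit 111) (.e (nat_lit 360489) (nat_lit 21) (.e (nat_lit 770057) (nat_lit 5) (.e (nat_lit 1598) (nat_lit 111) (.e (nat_lit 360489) (nat_lit 21) (.e (nat_lit 770057) (nat_lit 5) .nil)))))) (.g (nat_lit 0) .nil .nil)))) (.nd (nat_lit 4) 
(.lf (nat_lit 66348) (.g (nat_lit 1798) (.e (nat_lit 1598) (nat_lit 111) (.e (nat_lit 360488) (nat_lit 20) (.e (nat_lit 761866) (nat_lit 5) (.e (nat_lit 1597) (nat_lit 111) (.e (nat_lit 360489) (nat_lit 21) (.e (nat_lit 770058) (nat_lit 5) .nil)))))) (.g (nat_lit 0) .nil .nil))) 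
(.lf (nat_lit 66364) (.g (nat_lit 1788) (.e (nat_lit 1598) (nat_lit 111) (.e (nat_lit 360489) (nat_lit 21) (.e (nat_lit 770071) (nat_lit 8) (.e (nat_lit 65616) (nat_lit 10) (.e (nat_lit 344177) (nat_lit 43) (.e (nat_lit 770055) (nat_lit 5) .nil)))))) (.g (nat_lit 5) .nil .nil)))))) (.nd (nat_lit 2) (.nd (nat_lit 3) (.nd (nat_lit 4) 
(.lf (nat_lit 66338) (.g (nat_lit 720) (.e (nat_lit 1598) (nat_lit 111) (.e (nat_lit 360486) (nat_lit 18) (.e (nat_lit 671764) (nat_lit 6) (.e (nat_lit 81942) (nat_lit 20) .nil)))) .nil)) 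
(.lf (nat_lit 66354) (.g (nat_lit 1914) (.e (nat_lit 1598) (nat_lit 111) (.e (nat_lit 360489) (nat_lit 21) (.e (nat_lit 770057) (nat_lit 5) (.e (nat_lit 1589) (nat_lit 111) (.e (nat_lit 360489) (nat_lit 21) (.e (nat_lit 770058) (nat_lit 5) .nil)))))) (.g (nat_lit 0) .nil .nil)))) (.nd (nat_lit 4) 
(.lf (nat_lit 66346) (.g (nat_lit 2738) (.e (nat_lit 1598) (nat_lit 111) (.e (nat_lit 360486) (nat_lit 18) (.e (nat_lit 671764) (nat_lit 6) (.e (nat_lit 81947) (nat_lit 20) (.e (nat_lit 2006) (nat_lit 138) (.e (nat_lit 671748) (nat_lit 0) .nil)))))) (.g (nat_lit 0) .nil .nil))) 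
(.lf (nat_lit 66362) (.g (nat_lit 1650) (.e (nat_lit 1598) (nat_lit 111) (.e (nat_lit 360489) (nat_lit 21) (.e (nat_lit 770058) (nat_lit 5) (.e (nat_lit 1598) (nat_lit 111) (.e (nat_lit 360489) (nat_lit 21) (.e (nat_lit 770058) (nat_lit 5) .nil)))))) (.g (nat_lit 0) .nil .nil))))) (.nd (nat_lit 3) (.nd (nat_lit 4) 
(.lf (nat_lit 66342) (.g (nat_lit 2122) (.e (nat_lit 1598) (nat_lit 111) (.e (nat_lit 360486) (nat_lit 18) (.e (nat_lit 671764) (nat_lit 6) (.e (nat_lit 81943) (nat_lit 20) (.e (nat_lit 2006) (nat_lit 138) (.e (nat_lit 671748) (nat_lit 0) .nil)))))) (.g (nat_lit 0) .nil .nil))) 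
(.lf (nat_lit 66358) (.g (nat_lit 1951) (.e (nat_lit 1598) (nat_lit 111) (.e (nat_lit 360489) (nat_lit 21) (.e (nat_lit 770058) (nat_lit 5) (.e (nat_lit 1589) (nat_lit 111) (.e (nat_lit 360489) (nat_lit 21) (.e (nat_lit 770055) (nat_lit 5) .nil)))))) (.g (nat_lit 6) .nil .nil)))) (.nd (nat_lit 4) 
(.lf (nat_lit 66350) (.g (nat_lit 1829) (.e (nat_lit 1598) (nat_lit 111) (.e (nat_lit 360488) (nat_lit 20) (.e (nat_lit 761868) (nat_lit 5) (.e (nat_lit 1597) (nat_lit 111) (.e (nat_lit 360489) (nat_lit 21) (.e (nat_lit 770058) (nat_lit 5) .nil)))))) (.g (nat_lit 0) .nil .nil))) 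
(.lf (nat_lit 66366) (.g (nat_lit 1939) (.e (nat_lit 1598) (nat_lit 111) (.e (nat_lit 360489) (nat_lit 21) (.e (nat_lit 770071) (nat_lit 8) (.e (nat_lit 65616) (nat_lit 10) (.e (nat_lit 344177) (nat_lit 43) (.e (nat_lit 770058) (nat_lit 5) .nil)))))) (.g (nat_lit 6) .nil .nil))))))) (.nd (nat_lit 1) (.nd (nat_lit 2) (.nd (nat_lit 3) (.nd (nat_lit 4) 
(.lf (nat_lit 66337) (.g (nat_lit 1953) (.e (nat_lit 1598) (nat_lit 111) (.e (nat_lit 360486) (nat_lit 18) (.e (nat_lit 671764) (nat_lit 6) (.e (nat_lit 81939) (nat_lit 20) (.e (nat_lit 2006) (nat_lit 138) (.e (nat_lit 671748) (nat_lit 0) .nil)))))) (.g (nat_lit 0) .nil .nil))) 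
(.lf (nat_lit 66353) (.g (nat_lit 1857) (.e (nat_lit 1598) (nat_lit 111) (.e (nat_lit 360489) (nat_lit 21) (.e (nat_lit 770057) (nat_lit 5) (.e (nat_lit 1589) (nat_lit 111) (.e (nat_lit 360489) (nat_lit 21) (.e (nat_lit 770057) (nat_lit 5) .nil)))))) (.g (nat_lit 0) .nil .nil)))) (.nd (nat_lit 4) 
(.lf (nat_lit 66345) (.g (nat_lit 2571) (.e (nat_lit 1598) (nat_lit 111) (.e (nat_lit 360486) (nat_lit 18) (.e (nat_lit 671764) (nat_lit 6) (.e (nat_lit 81947) (nat_lit 20) (.e (nat_lit 2005) (nat_lit 138) (.e (nat_lit 671748) (nat_lit 0) .nil)))))) (.g (nat_lit 0) .nil .nil))) 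
(.lf (nat_lit 66361) (.g (nat_lit 2031) (.e (nat_lit 1598) (nat_lit 111) (.e (nat_lit 360489) (nat_lit 21) (.e (nat_lit 770058) (nat_lit 5) (.e (nat_lit 1589) (nat_lit 111) (.e (nat_lit 360489) (nat_lit 21) (.e (nat_lit 770058) (nat_lit 5) .nil)))))) (.g (nat_lit 0) .nil .nil))))) (.nd (nat_lit 3) (.nd (nat_lit 4) 
(.lf (nat_lit 66341) (.g (nat_lit 1990) (.e (nat_lit 1598) (nat_lit 111) (.e (nat_lit 360486) (nat_lit 18) (.e (nat_lit 671764) (nat_lit 6) (.e (nat_lit 81943) (nat_lit 20) (.e (nat_lit 2005) (nat_lit 138) (.e (nat_lit 671748) (nat_lit 0) .nil)))))) (.g (nat_lit 0) .nil .nil))) 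
(.lf (nat_lit 66357) (.g (nat_lit 1188) (.e (nat_lit 1598) (nat_lit 111) (.e (nat_lit 360489) (nat_lit 21) (.e (nat_lit 770057) (nat_lit 5) (.e (nat_lit 1599) (nat_lit 111) (.e (nat_lit 360489) (nat_lit 21) (.e (nat_lit 770057) (nat_lit 5) .nil)))))) (.g (nat_lit 6) .nil .nil)))) (.nd (nat_lit 4) 
(.lf (nat_lit 66349) (.g (nat_lit 1592) (.e (nat_lit 1598) (nat_lit 111) (.e (nat_lit 360488) (nat_lit 20) (.e (nat_lit 761868) (nat_lit 5) (.e (nat_lit 1582) (nat_lit 111) (.e (nat_lit 360489) (nat_lit 21) (.e (nat_lit 770058) (nat_lit 5) .nil)))))) (.g (nat_lit 0) .nil .nil))) 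
(.lf (nat_lit 66365) (.g (nat_lit 1881) (.e (nat_lit 1598) (nat_lit 111) (.e (nat_lit 360489) (nat_lit 21) (.e (nat_lit 770071) (nat_lit 8) (.e (nat_lit 65616) (nat_lit 10) (.e (nat_lit 344177) (nat_lit 43) (.e (nat_lit 770056) (nat_lit 5) .nil)))))) (.g (nat_lit 5) .nil .nil)))))) (.nd (nat_lit 2) (.nd (nat_lit 3) (.nd (nat_lit 4) 
(.lf (nat_lit 66339) (.g (nat_lit 1756) (.e (nat_lit 1598) (nat_lit 111) (.e (nat_lit 360486) (nat_lit 18) (.e (nat_lit 671764) (nat_lit 6) (.e (nat_lit 81942) (nat_lit 20) (.e (nat_lit 2004) (nat_lit 138) (.e (nat_lit 671748) (nat_lit 0) .nil)))))) (.g (nat_lit 6) .nil .nil))) 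
(.lf (nat_lit 66355) (.g (nat_lit 1451) (.e (nat_lit 1598) (nat_lit 111) (.e (nat_lit 360489) (nat_lit 21) (.e (nat_lit 770057) (nat_lit 5) (.e (nat_lit 1595) (nat_lit 111) (.e (nat_lit 360489) (nat_lit 21) (.e (nat_lit 770056) (nat_lit 5) .nil)))))) (.g (nat_lit 5) .nil .nil)))) (.nd (nat_lit 4) 
(.lf (nat_lit 66347) (.g (nat_lit 486) (.e (nat_lit 1598) (nat_lit 111) (.e (nat_lit 360486) (nat_lit 18) (.e (nat_lit 679680) (nat_lit 6) .nil))) .nil)) 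
(.lf (nat_lit 66363) (.g (nat_lit 1296) (.e (nat_lit 1598) (nat_lit 111) (.e (nat_lit 360489) (nat_lit 21) (.e (nat_lit 770058) (nat_lit 5) (.e (nat_lit 1599) (nat_lit 111) (.e (nat_lit 360489) (nat_lit 21) (.e (nat_lit 770058) (nat_lit 5) .nil)))))) (.g (nat_lit 0) .nil .nil))))) (.nd (nat_lit 3) (.nd (nat_lit 4) 
(.lf (nat_lit 66343) (.g (nat_lit 1370) (.e (nat_lit 1598) (nat_lit 111) (.e (nat_lit 360486) (nat_lit 18) (.e (nat_lit 671764) (nat_lit 6) (.e (nat_lit 81946) (nat_lit 20) (.e (nat_lit 2005) (nat_lit 138) (.e (nat_lit 671747) (nat_lit 0) .nil)))))) (.g (nat_lit 4) .nil .nil))) 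
(.lf (nat_lit 66359) (.g (nat_lit 1896) (.e (nat_lit 1598) (nat_lit 111) (.e (nat_lit 360489) (nat_lit 21) (.e (nat_lit 770058) (nat_lit 5) (.e (nat_lit 1589) (nat_lit 111) (.e (nat_lit 360489) (nat_lit 21) (.e (nat_lit 770056) (nat_lit 5) .nil)))))) (.g (nat_lit 6) .nil .nil)))) (.nd (nat_lit 4) 
(.lf (nat_lit 66351) (.g (nat_lit 460) (.e (nat_lit 1598) (nat_lit 111) (.e (nat_lit 360489) (nat_lit 21) (.e (nat_lit 770055) (nat_lit 5) (.e (nat_lit 1580) (nat_lit 111) .nil)))) .nil)) 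
(.lf (nat_lit 66367) (.g (nat_lit 2026) (.e (nat_lit 1598) (nat_lit 111) (.e (nat_lit 360489) (nat_lit 21) (.e (nat_lit 770071) (nat_lit 8) (.e (nat_lit 65620) (nat_lit 10) (.e (nat_lit 344177) (nat_lit 43) (.e (nat_lit 770058) (nat_lit 5) .nil)))))) (.g (nat_lit 0) .nil .nil))))))))

noncomputable def tv917 : DT := (.nd (nat_lit 0) (.nd (nat_lit 1) (.nd (nat_lit 2) (.nd (nat_lit 3) (.nd (nat_lit 4) 
(.lf (nat_lit 66368) (.g (nat_lit 1769) (.e (nat_lit 1598) (nat_lit 111) (.e (nat_lit 360489) (nat_lit 21) (.e (nat_lit 770072) (nat_lit 8) (.e (nat_lit 65611) (nat_lit 10) (.e (nat_lit 344177) (nat_lit 43) (.e (nat_lit 770055) (nat_lit 5) .nil)))))) (.g (nat_lit 5) .nil .nil))) 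
(.lf (nat_lit 66384) (.g (nat_lit 2122) (.e (nat_lit 1598) (nat_lit 111) (.e (nat_lit 360489) (nat_lit 21) (.e (nat_lit 770074) (nat_lit 10) (.e (nat_lit 81943) (nat_lit 20) (.e (nat_lit 2281) (nat_lit 150) (.e (nat_lit 770058) (nat_lit 5) .nil)))))) (.g (nat_lit 0) .nil .nil)))) (.nd (nat_lit 4) 
(.lf (nat_lit 66376) (.g (nat_lit 2072) (.e (nat_lit 1598) (nat_lit 111) (.e (nat_lit 360489) (nat_lit 21) (.e (nat_lit 770072) (nat_lit 8) (.e (nat_lit 65620) (nat_lit 10) (.e (nat_lit 344177) (nat_lit 43) (.e (nat_lit 770058) (nat_lit 5) .nil)))))) (.g (nat_lit 0) .nil .nil))) 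
(.lf (nat_lit 66392) (.g (nat_lit 2722) (.e (nat_lit 1598) (nat_lit 111) (.e (nat_lit 360491) (nat_lit 22) (.e (nat_lit 778362) (nat_lit 9) (.e (nat_lit 314) (nat_lit 23) (.e (nat_lit 352297) (nat_lit 20) (.e (nat_lit 2281) (nat_lit 150) (.e (nat_lit 770058) (nat_lit 5) .nil))))))) (.g (nat_lit 0) .nil .nil))))) (.nd (nat_lit 3) (.nd (nat_lit 4) 
(.lf (nat_lit 66372) (.g (nat_lit 2014) (.e (nat_lit 1598) (nat_lit 111) (.e (nat_lit 360489) (nat_lit 21) (.e (nat_lit 770072) (nat_lit 8) (.e (nat_lit 65616) (nat_lit 10) (.e (nat_lit 344177) (nat_lit 43) (.e (nat_lit 770057) (nat_lit 5) .nil)))))) (.g (nat_lit 6) .nil .nil))) 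
(.lf (nat_lit 66388) (.g (nat_lit 2265) (.e (nat_lit 1598) (nat_lit 111) (.e (nat_lit 360489) (nat_lit 21) (.e (nat_lit 770074) (nat_lit 10) (.e (nat_lit 81947) (nat_lit 20) (.e (nat_lit 2281) (nat_lit 150) (.e (nat_lit 770056) (nat_lit 5) .nil)))))) (.g (nat_lit 6) .nil .nil)))) (.nd (nat_lit 4) 
(.lf (nat_lit 66380) (.g (nat_lit 740) (.e (nat_lit 1598) (nat_lit 111) (.e (nat_lit 360489) (nat_lit 21) (.e (nat_lit 770074) (nat_lit 10) (.e (nat_lit 81939) (nat_lit 20) .nil)))) .nil)) 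
(.lf (nat_lit 66396) (.g (nat_lit 2260) (.e (nat_lit 1598) (nat_lit 111) (.e (nat_lit 360491) (nat_lit 22) (.e (nat_lit 778464) (nat_lit 11) (.e (nat_lit 24640) (nat_lit 10) (.e (nat_lit 344177) (nat_lit 43) (.e (nat_lit 770056) (nat_lit 5) .nil)))))) (.g (nat_lit 0) .nil .nil)))))) (.nd (nat_lit 2) (.nd (nat_lit 3) (.nd (nat_lit 4) 
(.lf (nat_lit 66370) (.g (nat_lit 1873) (.e (nat_lit 1598) (nat_lit 111) (.e (nat_lit 360489) (nat_lit 21) (.e (nat_lit 770072) (nat_lit 8) (.e (nat_lit 65616) (nat_lit 10) (.e (nat_lit 344177) (nat_lit 43) (.e (nat_lit 770055) (nat_lit 5) .nil)))))) (.g (nat_lit 6) .nil .nil))) 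
(.lf (nat_lit 66386) (.g (nat_lit 2173) (.e (nat_lit 1598) (nat_lit 111) (.e (nat_lit 360489) (nat_lit 21) (.e (nat_lit 770074) (nat_lit 10) (.e (nat_lit 81946) (nat_lit 20) (.e (nat_lit 2281) (nat_lit 150) (.e (nat_lit 770057) (nat_lit 5) .nil)))))) (.g (nat_lit 0) .nil .nil)))) (.nd (nat_lit 4) 
(.lf (nat_lit 66378) (.g (nat_lit 1900) (.e (nat_lit 1598) (nat_lit 111) (.e (nat_lit 360489) (nat_lit 21) (.e (nat_lit 770074) (nat_lit 10) (.e (nat_lit 81938) (nat_lit 20) (.e (nat_lit 2280) (nat_lit 150) (.e (nat_lit 770057) (nat_lit 5) .nil)))))) (.g (nat_lit 6) .nil .nil))) 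
(.lf (nat_lit 66394) (.g (nat_lit 1615) (.e (nat_lit 1598) (nat_lit 111) (.e (nat_lit 360491) (nat_lit 22) (.e (nat_lit 778464) (nat_lit 11) (.e (nat_lit 24640) (nat_lit 10) (.e (nat_lit 344175) (nat_lit 43) (.e (nat_lit 770057) (nat_lit 5) .nil)))))) (.g (nat_lit 5) .nil .nil))))) (.nd (nat_lit 3) (.nd (nat_lit 4) 
(.lf (nat_lit 66374) (.g (nat_lit 2163) (.e (nat_lit 1598) (nat_lit 111) (.e (nat_lit 360489) (nat_lit 21) (.e (nat_lit 770072) (nat_lit 8) (.e (nat_lit 65619) (nat_lit 10) (.e (nat_lit 344177) (nat_lit 43) (.e (nat_lit 770055) (nat_lit 5) .nil)))))) (.g (nat_lit 5) .nil .nil))) 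
(.lf (nat_lit 66390) (.g (nat_lit 1472) (.e (nat_lit 1598) (nat_lit 111) (.e (nat_lit 360490) (nat_lit 22) (.e (nat_lit 778340) (nat_lit 9) (.e (nat_lit 318) (nat_lit 23) (.e (nat_lit 352297) (nat_lit 20) (.e (nat_lit 2281) (nat_lit 150) (.e (nat_lit 770058) (nat_lit 5) .nil))))))) (.g (nat_lit 0) .nil .nil)))) (.nd (nat_lit 4) 
(.lf (nat_lit 66382) (.g (nat_lit 772) (.e (nat_lit 1598) (nat_lit 111) (.e (nat_lit 360489) (nat_lit 21) (.e (nat_lit 770074) (nat_lit 10) (.e (nat_lit 81943) (nat_lit 20) .nil)))) .nil)) 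
(.lf (nat_lit 66398) (.g (nat_lit 2453) (.e (nat_lit 1598) (nat_lit 111) (.e (nat_lit 360491) (nat_lit 22) (.e (nat_lit 778465) (nat_lit 11) (.e (nat_lit 24639) (nat_lit 10) (.e (nat_lit 344177) (nat_lit 43) (.e (nat_lit 770057) (nat_lit 5) .nil)))))) (.g (nat_lit 6) .nil .nil))))))) (.nd (nat_lit 1) (.nd (nat_lit 2) (.nd (nat_lit 3) (.nd (nat_lit 4) 
(.lf (nat_lit 66369) (.g (nat_lit 1819) (.e (nat_lit 1598) (nat_lit 111) (.e (nat_lit 360489) (nat_lit 21) (.e (nat_lit 770072) (nat_lit 8) (.e (nat_lit 65611) (nat_lit 10) (.e (nat_lit 344177) (nat_lit 43) (.e (nat_lit 770056) (nat_lit 5) .nil)))))) (.g (nat_lit 5) .nil .nil))) 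
(.lf (nat_lit 66385) (.g (nat_lit 1353) (.e (nat_lit 1598) (nat_lit 111) (.e (nat_lit 360489) (nat_lit 21) (.e (nat_lit 770074) (nat_lit 10) (.e (nat_lit 81946) (nat_lit 20) (.e (nat_lit 2280) (nat_lit 150) (.e (nat_lit 770056) (nat_lit 5) .nil)))))) (.g (nat_lit 4) .nil .nil)))) (.nd (nat_lit 4) 
(.lf (nat_lit 66377) (.g (nat_lit 1622) (.e (nat_lit 1598) (nat_lit 111) (.e (nat_lit 360489) (nat_lit 21) (.e (nat_lit 770074) (nat_lit 10) (.e (nat_lit 81938) (nat_lit 20) (.e (nat_lit 2280) (nat_lit 150) (.e (nat_lit 770056) (nat_lit 5) .nil)))))) (.g (nat_lit 5) .nil .nil))) 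
(.lf (nat_lit 66393) (.g (nat_lit 1617) (.e (nat_lit 1598) (nat_lit 111) (.e (nat_lit 360491) (nat_lit 22) (.e (nat_lit 778464) (nat_lit 11) (.e (nat_lit 24639) (nat_lit 10) (.e (nat_lit 344177) (nat_lit 43) (.e (nat_lit 770058) (nat_lit 5) .nil)))))) (.g (nat_lit 5) .nil .nil))))) (.nd (nat_lit 3) (.nd (nat_lit 4) 
(.lf (nat_lit 66373) (.g (nat_lit 2023) (.e (nat_lit 1598) (nat_lit 111) (.e (nat_lit 360489) (nat_lit 21) (.e (nat_lit 770072) (nat_lit 8) (.e (nat_lit 65616) (nat_lit 10) (.e (nat_lit 344177) (nat_lit 43) (.e (nat_lit 770058) (nat_lit 5) .nil)))))) (.g (nat_lit 0) .nil .nil))) 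
(.lf (nat_lit 66389) (.g (nat_lit 2349) (.e (nat_lit 1598) (nat_lit 111) (.e (nat_lit 360489) (nat_lit 21) (.e (nat_lit 770074) (nat_lit 10) (.e (nat_lit 81947) (nat_lit 20) (.e (nat_lit 2281) (nat_lit 150) (.e (nat_lit 770058) (nat_lit 5) .nil)))))) (.g (nat_lit 0) .nil .nil)))) (.nd (nat_lit 4) 
(.lf (nat_lit 66381) (.g (nat_lit 1783) (.e (nat_lit 1598) (nat_lit 111) (.e (nat_lit 360489) (nat_lit 21) (.e (nat_lit 770074) (nat_lit 10) (.e (nat_lit 81939) (nat_lit 20) (.e (nat_lit 2281) (nat_lit 150) (.e (nat_lit 770056) (nat_lit 5) .nil)))))) (.g (nat_lit 6) .nil .nil))) 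
(.lf (nat_lit 66397) (.g (nat_lit 2303) (.e (nat_lit 1598) (nat_lit 111) (.e (nat_lit 360491) (nat_lit 22) (.e (nat_lit 778465) (nat_lit 11) (.e (nat_lit 24639) (nat_lit 10) (.e (nat_lit 344177) (nat_lit 43) (.e (nat_lit 770055) (nat_lit 5) .nil)))))) (.g (nat_lit 6) .nil .nil)))))) (.nd (nat_lit 2) (.nd (nat_lit 3) (.nd (nat_lit 4) 
(.lf (nat_lit 66371) (.g (nat_lit 1965) (.e (nat_lit 1598) (nat_lit 111) (.e (nat_lit 360489) (nat_lit 21) (.e (nat_lit 770072) (nat_lit 8) (.e (nat_lit 65616) (nat_lit 10) (.e (nat_lit 344177) (nat_lit 43) (.e (nat_lit 770056) (nat_lit 5) .nil)))))) (.g (nat_lit 6) .nil .nil))) 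
(.lf (nat_lit 66387) (.g (nat_lit 2295) (.e (nat_lit 1598) (nat_lit 111) (.e (nat_lit 360489) (nat_lit 21) (.e (nat_lit 770074) (nat_lit 10) (.e (nat_lit 81946) (nat_lit 20) (.e (nat_lit 2281) (nat_lit 150) (.e (nat_lit 770058) (nat_lit 5) .nil)))))) (.g (nat_lit 0) .nil .nil)))) (.nd (nat_lit 4) 
(.lf (nat_lit 66379) (.g (nat_lit 2414) (.e (nat_lit 1598) (nat_lit 111) (.e (nat_lit 360489) (nat_lit 21) (.e (nat_lit 770074) (nat_lit 10) (.e (nat_lit 81938) (nat_lit 20) (.e (nat_lit 2281) (nat_lit 150) (.e (nat_lit 770058) (nat_lit 5) .nil)))))) (.g (nat_lit 0) .nil .nil))) 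
(.lf (nat_lit 66395) (.g (nat_lit 2276) (.e (nat_lit 1598) (nat_lit 111) (.e (nat_lit 360491) (nat_lit 22) (.e (nat_lit 778464) (nat_lit 11) (.e (nat_lit 24640) (nat_lit 10) (.e (nat_lit 344177) (nat_lit 43) (.e (nat_lit 770055) (nat_lit 5) .nil)))))) (.g (nat_lit 0) .nil .nil))))) (.nd (nat_lit 3) (.nd (nat_lit 4) 
(.lf (nat_lit 66375) (.g (nat_lit 2142) (.e (nat_lit 1598) (nat_lit 111) (.e (nat_lit 360489) (nat_lit 21) (.e (nat_lit 770072) (nat_lit 8) (.e (nat_lit 65619) (nat_lit 10) (.e (nat_lit 344177) (nat_lit 43) (.e (nat_lit 770056) (nat_lit 5) .nil)))))) (.g (nat_lit 5) .nil .nil))) 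
(.lf (nat_lit 66391) (.g (nat_lit 2778) (.e (nat_lit 1598) (nat_lit 111) (.e (nat_lit 360491) (nat_lit 22) (.e (nat_lit 778362) (nat_lit 9) (.e (nat_lit 314) (nat_lit 23) (.e (nat_lit 352290) (nat_lit 20) (.e (nat_lit 2281) (nat_lit 150) (.e (nat_lit 770058) (nat_lit 5) .nil))))))) (.g (nat_lit 0) .nil .nil)))) (.nd (nat_lit 4) 
(.lf (nat_lit 66383) (.g (nat_lit 1990) (.e (nat_lit 1598) (nat_lit 111) (.e (nat_lit 360489) (nat_lit 21) (.e (nat_lit 770074) (nat_lit 10) (.e (nat_lit 81943) (nat_lit 20) (.e (nat_lit 2281) (nat_lit 150) (.e (nat_lit 770057) (nat_lit 5) .nil)))))) (.g (nat_lit 0) .nil .nil))) 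
(.lf (nat_lit 66399) (.g (nat_lit 1445) (.e (nat_lit 1598) (nat_lit 111) (.e (nat_lit 360491) (nat_lit 22) (.e (nat_lit 778465) (nat_lit 11) (.e (nat_lit 24640) (nat_lit 10) (.e (nat_lit 344175) (nat_lit 43) (.e (nat_lit 770056) (nat_lit 5) .nil)))))) (.g (nat_lit 4) .nil .nil))))))))

noncomputable def tv918 : DT := (.nd (nat_lit 0) (.nd (nat_lit 1) (.nd (nat_lit 2) (.nd (nat_lit 3) (.nd (nat_lit 4) 
(.lf (nat_lit 66400) (.g (nat_lit 1590) (.e (nat_lit 1598) (nat_lit 111) (.e (nat_lit 360491) (nat_lit 22) (.e (nat_lit 778465) (nat_lit 11) (.e (nat_lit 24640) (nat_lit 10) (.e (nat_lit 344175) (nat_lit 43) (.e (nat_lit 770057) (nat_lit 5) .nil)))))) (.g (nat_lit 5) .nil .nil))) 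
(.lf (nat_lit 66416) (.g (nat_lit 2248) (.e (nat_lit 1598) (nat_lit 111) (.e (nat_lit 360491) (nat_lit 22) (.e (nat_lit 778466) (nat_lit 11) (.e (nat_lit 24641) (nat_lit 10) (.e (nat_lit 344177) (nat_lit 43) (.e (nat_lit 770056) (nat_lit 5) .nil)))))) (.g (nat_lit 0) .nil .nil)))) (.nd (nat_lit 4) 
(.lf (nat_lit 66408) (.g (nat_lit 2324) (.e (nat_lit 1598) (nat_lit 111) (.e (nat_lit 360491) (nat_lit 22) (.e (nat_lit 778466) (nat_lit 11) (.e (nat_lit 24628) (nat_lit 9) (.e (nat_lit 335878) (nat_lit 0) (.e (nat_lit 2283) (nat_lit 150) (.e (nat_lit 770058) (nat_lit 5) .nil))))))) (.g (nat_lit 6) .nil .nil))) 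
(.lf (nat_lit 66424) (.g (nat_lit 1896) (.e (nat_lit 1599) (nat_lit 111) (.e (nat_lit 360449) (nat_lit 0) (.e (nat_lit 7125) (nat_lit 382) (.e (nat_lit 1201) (nat_lit 88) (.e (nat_lit 65617) (nat_lit 10) .nil))))) .nil)))) (.nd (nat_lit 3) (.nd (nat_lit 4) 
(.lf (nat_lit 66404) (.g (nat_lit 3037) (.e (nat_lit 1598) (nat_lit 111) (.e (nat_lit 360491) (nat_lit 22) (.e (nat_lit 778465) (nat_lit 11) (.e (nat_lit 24665) (nat_lit 14) (.e (nat_lit 401414) (nat_lit 0) (.e (nat_lit 3468) (nat_lit 217) (.e (nat_lit 696350) (nat_lit 13) .nil))))))) (.g (nat_lit 5) .nil .nil))) 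
(.lf (nat_lit 66420) (.g (nat_lit 1311) (.e (nat_lit 1598) (nat_lit 111) (.e (nat_lit 360493) (nat_lit 27) (.e (nat_lit 819219) (nat_lit 4) (.e (nat_lit 172113) (nat_lit 10) (.e (nat_lit 434241) (nat_lit 27) (.e (nat_lit 565251) (nat_lit 0) .nil)))))) (.g (nat_lit 5) .nil .nil)))) (.nd (nat_lit 4) 
(.lf (nat_lit 66412) (.g (nat_lit 2008) (.e (nat_lit 1598) (nat_lit 111) (.e (nat_lit 360491) (nat_lit 22) (.e (nat_lit 778466) (nat_lit 11) (.e (nat_lit 24640) (nat_lit 10) (.e (nat_lit 344175) (nat_lit 43) (.e (nat_lit 770055) (nat_lit 5) .nil)))))) (.g (nat_lit 6) .nil .nil))) 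
(.lf (nat_lit 66428) (.g (nat_lit 1855) (.e (nat_lit 1599) (nat_lit 111) (.e (nat_lit 360449) (nat_lit 0) (.e (nat_lit 7125) (nat_lit 382) (.e (nat_lit 1224) (nat_lit 90) (.e (nat_lit 81946) (nat_lit 20) (.e (nat_lit 2281) (nat_lit 150) (.e (nat_lit 770058) (nat_lit 5) .nil))))))) (.g (nat_lit 4) .nil .nil)))))) (.nd (nat_lit 2) (.nd (nat_lit 3) (.nd (nat_lit 4) 
(.lf (nat_lit 66402) (.g (nat_lit 1385) (.e (nat_lit 1598) (nat_lit 111) (.e (nat_lit 360491) (nat_lit 22) (.e (nat_lit 778465) (nat_lit 11) (.e (nat_lit 24641) (nat_lit 10) (.e (nat_lit 344177) (nat_lit 43) .nil))))) .nil)) 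
(.lf (nat_lit 66418) (.g (nat_lit 1002) (.e (nat_lit 1598) (nat_lit 111) (.e (nat_lit 360493) (nat_lit 27) (.e (nat_lit 819219) (nat_lit 4) (.e (nat_lit 172107) (nat_lit 10) (.e (nat_lit 434241) (nat_lit 27) (.e (nat_lit 565251) (nat_lit 0) .nil)))))) (.g (nat_lit 5) .nil .nil)))) (.nd (nat_lit 4) 
(.lf (nat_lit 66410) (.g (nat_lit 2266) (.e (nat_lit 1598) (nat_lit 111) (.e (nat_lit 360491) (nat_lit 22) (.e (nat_lit 778466) (nat_lit 11) (.e (nat_lit 24639) (nat_lit 10) (.e (nat_lit 344177) (nat_lit 43) (.e (nat_lit 770056) (nat_lit 5) .nil)))))) (.g (nat_lit 6) .nil .nil))) 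
(.lf (nat_lit 66426) (.g (nat_lit 1990) (.e (nat_lit 1599) (nat_lit 111) (.e (nat_lit 360449) (nat_lit 0) (.e (nat_lit 7125) (nat_lit 382) (.e (nat_lit 1222) (nat_lit 90) (.e (nat_lit 81943) (nat_lit 20) (.e (nat_lit 2281) (nat_lit 150) (.e (nat_lit 770058) (nat_lit 5) .nil))))))) (.g (nat_lit 4) .nil .nil))))) (.nd (nat_lit 3) (.nd (nat_lit 4) 
(.lf (nat_lit 66406) (.g (nat_lit 3013) (.e (nat_lit 1598) (nat_lit 111) (.e (nat_lit 360491) (nat_lit 22) (.e (nat_lit 778466) (nat_lit 11) (.e (nat_lit 24617) (nat_lit 7) (.e (nat_lit 319505) (nat_lit 10) (.e (nat_lit 720) (nat_lit 64) (.e (nat_lit 688153) (nat_lit 13) .nil))))))) (.g (nat_lit 6) .nil .nil))) 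
(.lf (nat_lit 66422) (.g (nat_lit 821) (.e (nat_lit 1598) (nat_lit 111) (.e (nat_lit 360493) (nat_lit 27) (.e (nat_lit 819221) (nat_lit 6) (.e (nat_lit 188439) (nat_lit 20) (.e (nat_lit 3288) (nat_lit 201) (.e (nat_lit 565252) (nat_lit 0) .nil)))))) (.g (nat_lit 6) .nil .nil)))) (.nd (nat_lit 4) 
(.lf (nat_lit 66414) (.g (nat_lit 2738) (.e (nat_lit 1598) (nat_lit 111) (.e (nat_lit 360491) (nat_lit 22) (.e (nat_lit 778466) (nat_lit 11) (.e (nat_lit 24640) (nat_lit 10) (.e (nat_lit 344176) (nat_lit 43) (.e (nat_lit 770054) (nat_lit 5) .nil)))))) (.g (nat_lit 0) .nil .nil))) 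
(.lf (nat_lit 66430) (.g (nat_lit 1295) (.e (nat_lit 1599) (nat_lit 111) (.e (nat_lit 360449) (nat_lit 0) (.e (nat_lit 7266) (nat_lit 384) (.e (nat_lit 57426) (nat_lit 15) .nil)))) .nil)))))) (.nd (nat_lit 1) (.nd (nat_lit 2) (.nd (nat_lit 3) (.nd (nat_lit 4) 
(.lf (nat_lit 66401) (.g (nat_lit 2448) (.e (nat_lit 1598) (nat_lit 111) (.e (nat_lit 360491) (nat_lit 22) (.e (nat_lit 778465) (nat_lit 11) (.e (nat_lit 24640) (nat_lit 10) (.e (nat_lit 344177) (nat_lit 43) (.e (nat_lit 770055) (nat_lit 5) .nil)))))) (.g (nat_lit 0) .nil .nil))) 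
(.lf (nat_lit 66417) (.g (nat_lit 1168) (.e (nat_lit 1598) (nat_lit 111) (.e (nat_lit 368384) (nat_lit 26) (.e (nat_lit 811029) (nat_lit 9) (.e (nat_lit 303140) (nat_lit 10) (.e (nat_lit 434241) (nat_lit 27) (.e (nat_lit 565251) (nat_lit 0) .nil)))))) (.g (nat_lit 5) .nil .nil)))) (.nd (nat_lit 4) 
(.lf (nat_lit 66409) (.g (nat_lit 2161) (.e (nat_lit 1598) (nat_lit 111) (.e (nat_lit 360491) (nat_lit 22) (.e (nat_lit 778466) (nat_lit 11) (.e (nat_lit 24639) (nat_lit 10) (.e (nat_lit 344177) (nat_lit 43) (.e (nat_lit 770055) (nat_lit 5) .nil)))))) (.g (nat_lit 6) .nil .nil))) 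
(.lf (nat_lit 66425) (.g (nat_lit 1972) (.e (nat_lit 1599) (nat_lit 111) (.e (nat_lit 360449) (nat_lit 0) (.e (nat_lit 7125) (nat_lit 382) (.e (nat_lit 1222) (nat_lit 90) (.e (nat_lit 81943) (nat_lit 20) .nil))))) .nil)))) (.nd (nat_lit 3) (.nd (nat_lit 4) 
(.lf (nat_lit 66405) (.g (nat_lit 3143) (.e (nat_lit 1598) (nat_lit 111) (.e (nat_lit 360491) (nat_lit 22) (.e (nat_lit 778466) (nat_lit 11) (.e (nat_lit 24617) (nat_lit 7) (.e (nat_lit 319505) (nat_lit 10) (.e (nat_lit 720) (nat_lit 64) (.e (nat_lit 688151) (nat_lit 13) .nil))))))) (.g (nat_lit 6) .nil .nil))) 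
(.lf (nat_lit 66421) (.g (nat_lit 1042) (.e (nat_lit 1598) (nat_lit 111) (.e (nat_lit 360493) (nat_lit 27) (.e (nat_lit 819219) (nat_lit 4) (.e (nat_lit 172116) (nat_lit 10) (.e (nat_lit 434241) (nat_lit 27) (.e (nat_lit 565251) (nat_lit 0) .nil)))))) (.g (nat_lit 5) .nil .nil)))) (.nd (nat_lit 4) 
(.lf (nat_lit 66413) (.g (nat_lit 2479) (.e (nat_lit 1598) (nat_lit 111) (.e (nat_lit 360491) (nat_lit 22) (.e (nat_lit 778466) (nat_lit 11) (.e (nat_lit 24640) (nat_lit 10) (.e (nat_lit 344175) (nat_lit 43) (.e (nat_lit 770058) (nat_lit 5) .nil)))))) (.g (nat_lit 0) .nil .nil))) 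
(.lf (nat_lit 66429) (.g (nat_lit 1801) (.e (nat_lit 1599) (nat_lit 111) (.e (nat_lit 360449) (nat_lit 0) (.e (nat_lit 7125) (nat_lit 382) (.e (nat_lit 1224) (nat_lit 90) (.e (nat_lit 81947) (nat_lit 20) .nil))))) .nil))))) (.nd (nat_lit 2) (.nd (nat_lit 3) (.nd (nat_lit 4) 
(.lf (nat_lit 66403) (.g (nat_lit 3745) (.e (nat_lit 1598) (nat_lit 111) (.e (nat_lit 360491) (nat_lit 22) (.e (nat_lit 778465) (nat_lit 11) (.e (nat_lit 24665) (nat_lit 14) (.e (nat_lit 401414) (nat_lit 0) (.e (nat_lit 3459) (nat_lit 216) (.e (nat_lit 688151) (nat_lit 13) .nil))))))) (.g (nat_lit 6) .nil .nil))) 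
(.lf (nat_lit 66419) (.g (nat_lit 886) (.e (nat_lit 1598) (nat_lit 111) (.e (nat_lit 360493) (nat_lit 27) (.e (nat_lit 819219) (nat_lit 4) (.e (nat_lit 172112) (nat_lit 10) (.e (nat_lit 434241) (nat_lit 27) (.e (nat_lit 565251) (nat_lit 0) .nil)))))) (.g (nat_lit 5) .nil .nil)))) (.nd (nat_lit 4) 
(.lf (nat_lit 66411) (.g (nat_lit 2317) (.e (nat_lit 1598) (nat_lit 111) (.e (nat_lit 360491) (nat_lit 22) (.e (nat_lit 778466) (nat_lit 11) (.e (nat_lit 24639) (nat_lit 10) (.e (nat_lit 344177) (nat_lit 43) (.e (nat_lit 770057) (nat_lit 5) .nil)))))) (.g (nat_lit 6) .nil .nil))) 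
(.lf (nat_lit 66427) (.g (nat_lit 1839) (.e (nat_lit 1599) (nat_lit 111) (.e (nat_lit 360449) (nat_lit 0) (.e (nat_lit 7125) (nat_lit 382) (.e (nat_lit 1224) (nat_lit 90) (.e (nat_lit 81946) (nat_lit 20) .nil))))) .nil)))) (.nd (nat_lit 3) (.nd (nat_lit 4) 
(.lf (nat_lit 66407) (.g (nat_lit 2165) (.e (nat_lit 1598) (nat_lit 111) (.e (nat_lit 360491) (nat_lit 22) (.e (nat_lit 778466) (nat_lit 11) (.e (nat_lit 24628) (nat_lit 9) (.e (nat_lit 335878) (nat_lit 0) (.e (nat_lit 2283) (nat_lit 150) (.e (nat_lit 770055) (nat_lit 5) .nil))))))) (.g (nat_lit 6) .nil .nil))) 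
(.lf (nat_lit 66423) (.g (nat_lit 821) (.e (nat_lit 1598) (nat_lit 111) (.e (nat_lit 360493) (nat_lit 27) (.e (nat_lit 819221) (nat_lit 6) (.e (nat_lit 188439) (nat_lit 20) (.e (nat_lit 3289) (nat_lit 201) (.e (nat_lit 565251) (nat_lit 0) .nil)))))) (.g (nat_lit 6) .nil .nil)))) (.nd (nat_lit 4) 
(.lf (nat_lit 66415) (.g (nat_lit 1679) (.e (nat_lit 1598) (nat_lit 111) (.e (nat_lit 360491) (nat_lit 22) (.e (nat_lit 778466) (nat_lit 11) (.e (nat_lit 24641) (nat_lit 10) (.e (nat_lit 344175) (nat_lit 43) (.e (nat_lit 770058) (nat_lit 5) .nil)))))) (.g (nat_lit 4) .nil .nil))) 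
(.lf (nat_lit 66431) (.g (nat_lit 1261) (.e (nat_lit 1599) (nat_lit 111) (.e (nat_lit 360449) (nat_lit 0) (.e (nat_lit 7266) (nat_lit 384) (.e (nat_lit 57427) (nat_lit 15) .nil)))) .nil)))))))

noncomputable def tv919 : DT := (.nd (nat_lit 0) (.nd (nat_lit 1) (.nd (nat_lit 2) (.nd (nat_lit 3) (.nd (nat_lit 4) (.nd (nat_lit 5) (.nd (nat_lit 6) 
(.lf (nat_lit 66432) (.g (nat_lit 1240) (.e (nat_lit 1599) (nat_lit 111) (.e (nat_lit 360450) (nat_lit 0) (.e (nat_lit 7122) (nat_lit 382) (.e (nat_lit 1201) (nat_lit 88) .nil)))) .nil)) 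
(.lf (nat_lit 66496) (.g (nat_lit 2078) (.e (nat_lit 1599) (nat_lit 111) (.e (nat_lit 360471) (nat_lit 7) (.e (nat_lit 548874) (nat_lit 5) (.e (nat_lit 1598) (nat_lit 111) (.e (nat_lit 360471) (nat_lit 7) (.e (nat_lit 548873) (nat_lit 5) .nil)))))) (.g (nat_lit 0) .nil .nil)))) (.nd (nat_lit 6) 
(.lf (nat_lit 66464) (.g (nat_lit 1083) (.e (nat_lit 1599) (nat_lit 111) (.e (nat_lit 360452) (nat_lit 0) (.e (nat_lit 7147) (nat_lit 382) (.e (nat_lit 1217) (nat_lit 90) .nil)))) .nil)) 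
(.lf (nat_lit 66528) (.g (nat_lit 1035) (.e (nat_lit 1599) (nat_lit 111) (.e (nat_lit 360474) (nat_lit 8) (.e (nat_lit 557081) (nat_lit 9) .nil))) .nil)))) (.nd (nat_lit 5) (.nd (nat_lit 6) 
(.lf (nat_lit 66448) (.g (nat_lit 2151) (.e (nat_lit 1599) (nat_lit 111) (.e (nat_lit 360451) (nat_lit 0) (.e (nat_lit 7265) (nat_lit 384) (.e (nat_lit 57424) (nat_lit 14) (.e (nat_lit 352303) (nat_lit 20) .nil))))) .nil)) 
(.lf (nat_lit 66512) (.g (nat_lit 1792) (.e (nat_lit 1599) (nat_lit 111) (.e (nat_lit 360471) (nat_lit 7) (.e (nat_lit 548891) (nat_lit 11) (.e (nat_lit 81947) (nat_lit 20) (.e (nat_lit 1841) (nat_lit 123) .nil))))) .nil))) (.nd (nat_lit 6) 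
(.lf (nat_lit 66480) (.g (nat_lit 1431) (.e (nat_lit 1599) (nat_lit 111) (.e (nat_lit 360464) (nat_lit 2) (.e (nat_lit 507922) (nat_lit 6) (.e (nat_lit 286756) (nat_lit 10) (.e (nat_lit 344126) (nat_lit 25) (.e (nat_lit 548873) (nat_lit 5) .nil)))))) (.g (nat_lit 5) .nil .nil))) 
(.lf (nat_lit 66544) (.g (nat_lit 916) (.e (nat_lit 1599) (nat_lit 111) (.e (nat_lit 360475) (nat_lit 8) (.e (nat_lit 557066) (nat_lit 9) .nil))) .nil))))) (.nd (nat_lit 4) (.nd (nat_lit 5) (.nd (nat_lit 6) 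
(.lf (nat_lit 66440) (.g (nat_lit 1398) (.e (nat_lit 1599) (nat_lit 111) (.e (nat_lit 360451) (nat_lit 0) (.e (nat_lit 7125) (nat_lit 382) (.e (nat_lit 1222) (nat_lit 90) .nil)))) .nil)) 
(.lf (nat_lit 66504) (.g (nat_lit 2177) (.e (nat_lit 1599) (nat_lit 111) (.e (nat_lit 360471) (nat_lit 7) (.e (nat_lit 548891) (nat_lit 11) (.e (nat_lit 81938) (nat_lit 20) (.e (nat_lit 1841) (nat_lit 123) (.e (nat_lit 548874) (nat_lit 5) .nil)))))) (.g (nat_lit 6) .nil .nil)))) (.nd (nat_lit 6) 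
(.lf (nat_lit 66472) (.g (nat_lit 3401) (.e (nat_lit 1599) (nat_lit 111) (.e (nat_lit 360456) (nat_lit 0) (.e (nat_lit 5818) (nat_lit 320) (.e (nat_lit 1201) (nat_lit 88) (.e (nat_lit 65610) (nat_lit 10) (.e (nat_lit 344169) (nat_lit 40) (.e (nat_lit 671748) (nat_lit 0) .nil))))))) (.g (nat_lit 7) .nil .nil))) 
(.lf (nat_lit 66536) (.g (nat_lit 1693) (.e (nat_lit 1599) (nat_lit 111) (.e (nat_lit 360474) (nat_lit 8) (.e (nat_lit 557094) (nat_lit 12) (.e (nat_lit 164022) (nat_lit 46) .nil)))) .nil)))) (.nd (nat_lit 5) (.nd (nat_lit 6) 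
(.lf (nat_lit 66456) (.g (nat_lit 644) (.e (nat_lit 1599) (nat_lit 111) (.e (nat_lit 360452) (nat_lit 0) (.e (nat_lit 5905) (nat_lit 320) .nil))) .nil)) 
(.lf (nat_lit 66520) (.g (nat_lit 1804) (.e (nat_lit 1599) (nat_lit 111) (.e (nat_lit 360474) (nat_lit 8) (.e (nat_lit 557072) (nat_lit 9) (.e (nat_lit 290) (nat_lit 21) .nil)))) .nil))) (.nd (nat_lit 6) 
(.lf (nat_lit 66488) (.g (nat_lit 2338) (.e (nat_lit 1599) (nat_lit 111) (.e (nat_lit 360471) (nat_lit 7) (.e (nat_lit 548873) (nat_lit 5) (.e (nat_lit 1589) (nat_lit 111) (.e (nat_lit 360471) (nat_lit 7) (.e (nat_lit 548874) (nat_lit 5) .nil)))))) (.g (nat_lit 0) .nil .nil))) 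
(.lf (nat_lit 66552) (.g (nat_lit 2046) (.e (nat_lit 1599) (nat_lit 111) (.e (nat_lit 360475) (nat_lit 8) (.e (nat_lit 557068) (nat_lit 9) (.e (nat_lit 7936) (nat_lit 24) .nil)))) .nil)))))) (.nd (nat_lit 3) (.nd (nat_lit 4) (.nd (nat_lit 5) (.nd (nat_lit 6) 
(.lf (nat_lit 66436) (.g (nat_lit 1401) (.e (nat_lit 1599) (nat_lit 111) (.e (nat_lit 360451) (nat_lit 0) (.e (nat_lit 7124) (nat_lit 382) (.e (nat_lit 7936) (nat_lit 90) .nil)))) .nil)) 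
(.lf (nat_lit 66500) (.g (nat_lit 3335) (.e (nat_lit 1599) (nat_lit 111) (.e (nat_lit 360471) (nat_lit 7) (.e (nat_lit 548889) (nat_lit 9) (.e (nat_lit 65617) (nat_lit 10) (.e (nat_lit 344126) (nat_lit 25) (.e (nat_lit 548874) (nat_lit 5) .nil)))))) (.g (nat_lit 0) .nil .nil)))) (.nd (nat_lit 6) 
(.lf (nat_lit 66468) (.g (nat_lit 636) (.e (nat_lit 1599) (nat_lit 111) (.e (nat_lit 360452) (nat_lit 0) (.e (nat_lit 7273) (nat_lit 385) .nil))) .nil)) 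
(.lf (nat_lit 66532) (.g (nat_lit 2264) (.e (nat_lit 1599) (nat_lit 111) (.e (nat_lit 360474) (nat_lit 8) (.e (nat_lit 557091) (nat_lit 12) (.e (nat_lit 163999) (nat_lit 38) (.e (nat_lit 639021) (nat_lit 16) .nil))))) .nil)))) (.nd (nat_lit 5) (.nd (nat_lit 6) 
(.lf (nat_lit 66452) (.g (nat_lit 1375) (.e (nat_lit 1599) (nat_lit 111) (.e (nat_lit 360451) (nat_lit 0) (.e (nat_lit 7265) (nat_lit 384) (.e (nat_lit 57436) (nat_lit 17) .nil)))) .nil)) 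
(.lf (nat_lit 66516) (.g (nat_lit 633) (.e (nat_lit 1599) (nat_lit 111) (.e (nat_lit 360474) (nat_lit 8) (.e (nat_lit 557070) (nat_lit 9) .nil))) .nil))) (.nd (nat_lit 6) 
(.lf (nat_lit 66484) (.g (nat_lit 2261) (.e (nat_lit 1599) (nat_lit 111) (.e (nat_lit 360466) (nat_lit 3) (.e (nat_lit 516185) (nat_lit 16) (.e (nat_lit 491560) (nat_lit 10) (.e (nat_lit 344126) (nat_lit 25) (.e (nat_lit 548874) (nat_lit 5) .nil)))))) (.g (nat_lit 4) .nil .nil))) 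
(.lf (nat_lit 66548) (.g (nat_lit 2287) (.e (nat_lit 1599) (nat_lit 111) (.e (nat_lit 360475) (nat_lit 8) (.e (nat_lit 557068) (nat_lit 9) (.e (nat_lit 272) (nat_lit 21) .nil)))) .nil))))) (.nd (nat_lit 4) (.nd (nat_lit 5) (.nd (nat_lit 6) 
(.lf (nat_lit 66444) (.g (nat_lit 2166) (.e (nat_lit 1599) (nat_lit 111) (.e (nat_lit 360451) (nat_lit 0) (.e (nat_lit 7125) (nat_lit 382) (.e (nat_lit 1224) (nat_lit 90) (.e (nat_lit 81946) (nat_lit 20) .nil))))) .nil)) 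
(.lf (nat_lit 66508) (.g (nat_lit 1590) (.e (nat_lit 1599) (nat_lit 111) (.e (nat_lit 360471) (nat_lit 7) (.e (nat_lit 548891) (nat_lit 11) (.e (nat_lit 81942) (nat_lit 20) (.e (nat_lit 1842) (nat_lit 123) (.e (nat_lit 548873) (nat_lit 5) .nil)))))) (.g (nat_lit 5) .nil .nil)))) (.nd (nat_lit 6) 
(.lf (nat_lit 66476) (.g (nat_lit 1195) (.e (nat_lit 1599) (nat_lit 111) (.e (nat_lit 360456) (nat_lit 0) (.e (nat_lit 5949) (nat_lit 322) (.e (nat_lit 57436) (nat_lit 17) (.e (nat_lit 376855) (nat_lit 20) .nil))))) .nil)) 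
(.lf (nat_lit 66540) (.g (nat_lit 1396) (.e (nat_lit 1599) (nat_lit 111) (.e (nat_lit 360474) (nat_lit 8) (.e (nat_lit 557118) (nat_lit 18) (.e (nat_lit 2808) (nat_lit 180) .nil)))) .nil)))) (.nd (nat_lit 5) (.nd (nat_lit 6) 
(.lf (nat_lit 66460) (.g (nat_lit 2215) (.e (nat_lit 1599) (nat_lit 111) (.e (nat_lit 360452) (nat_lit 0) (.e (nat_lit 5907) (nat_lit 320) (.e (nat_lit 1219) (nat_lit 90) (.e (nat_lit 81947) (nat_lit 20) .nil))))) .nil)) 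
(.lf (nat_lit 66524) (.g (nat_lit 707) (.e (nat_lit 1599) (nat_lit 111) (.e (nat_lit 360474) (nat_lit 8) (.e (nat_lit 557073) (nat_lit 9) .nil))) .nil))) (.nd (nat_lit 6) 
(.lf (nat_lit 66492) (.g (nat_lit 1947) (.e (nat_lit 1599) (nat_lit 111) (.e (nat_lit 360471) (nat_lit 7) (.e (nat_lit 548873) (nat_lit 5) (.e (nat_lit 1599) (nat_lit 111) (.e (nat_lit 360471) (nat_lit 7) (.e (nat_lit 548874) (nat_lit 5) .nil)))))) (.g (nat_lit 0) .nil .nil))) 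
(.lf (nat_lit 66556) (.g (nat_lit 2185) (.e (nat_lit 1599) (nat_lit 111) (.e (nat_lit 360475) (nat_lit 8) (.e (nat_lit 557087) (nat_lit 11) (.e (nat_lit 24631) (nat_lit 9) .nil)))) .nil))))))) (.nd (nat_lit 2) (.nd (nat_lit 3) (.nd (nat_lit 4) (.nd (nat_lit 5) (.nd (nat_lit 6) 
(.lf (nat_lit 66434) (.g (nat_lit 1496) (.e (nat_lit 1599) (nat_lit 111) (.e (nat_lit 360451) (nat_lit 0) (.e (nat_lit 7122) (nat_lit 382) (.e (nat_lit 1222) (nat_lit 90) (.e (nat_lit 81943) (nat_lit 20) .nil))))) .nil)) 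
(.lf (nat_lit 66498) (.g (nat_lit 2394) (.e (nat_lit 1599) (nat_lit 111) (.e (nat_lit 360471) (nat_lit 7) (.e (nat_lit 548889) (nat_lit 9) (.e (nat_lit 65611) (nat_lit 10) (.e (nat_lit 344126) (nat_lit 25) (.e (nat_lit 548872) (nat_lit 5) .nil)))))) (.g (nat_lit 5) .nil .nil)))) (.nd (nat_lit 6) 
(.lf (nat_lit 66466) (.g (nat_lit 1487) (.e (nat_lit 1599) (nat_lit 111) (.e (nat_lit 360452) (nat_lit 0) (.e (nat_lit 7272) (nat_lit 385) (.e (nat_lit 122916) (nat_lit 14) .nil)))) .nil)) 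
(.lf (nat_lit 66530) (.g (nat_lit 2088) (.e (nat_lit 1599) (nat_lit 111) (.e (nat_lit 360474) (nat_lit 8) (.e (nat_lit 557091) (nat_lit 12) (.e (nat_lit 163841) (nat_lit 0) .nil)))) .nil)))) (.nd (nat_lit 5) (.nd (nat_lit 6) 
(.lf (nat_lit 66450) (.g (nat_lit 2237) (.e (nat_lit 1599) (nat_lit 111) (.e (nat_lit 360451) (nat_lit 0) (.e (nat_lit 7265) (nat_lit 384) (.e (nat_lit 57427) (nat_lit 15) (.e (nat_lit 360489) (nat_lit 21) .nil))))) .nil)) 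
(.lf (nat_lit 66514) (.g (nat_lit 1398) (.e (nat_lit 1599) (nat_lit 111) (.e (nat_lit 360473) (nat_lit 8) (.e (nat_lit 557090) (nat_lit 12) .nil))) .nil))) (.nd (nat_lit 6) 
(.lf (nat_lit 66482) (.g (nat_lit 3842) (.e (nat_lit 1599) (nat_lit 111) (.e (nat_lit 360466) (nat_lit 3) (.e (nat_lit 516139) (nat_lit 7) (.e (nat_lit 409645) (nat_lit 18) (.e (nat_lit 303117) (nat_lit 2) .nil))))) .nil)) 
(.lf (nat_lit 66546) (.g (nat_lit 959) (.e (nat_lit 1599) (nat_lit 111) (.e (nat_lit 360475) (nat_lit 8) (.e (nat_lit 557068) (nat_lit 9) .nil))) .nil))))) (.nd (nat_lit 4) (.nd (nat_lit 5) (.nd (nat_lit 6) 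
(.lf (nat_lit 66442) (.g (nat_lit 2679) (.e (nat_lit 1599) (nat_lit 111) (.e (nat_lit 360451) (nat_lit 0) (.e (nat_lit 7125) (nat_lit 382) (.e (nat_lit 1222) (nat_lit 90) (.e (nat_lit 81943) (nat_lit 20) (.e (nat_lit 2281) (nat_lit 150) (.e (nat_lit 770057) (nat_lit 5) .nil))))))) (.g (nat_lit 5) .nil .nil))) 
(.lf (nat_lit 66506) (.g (nat_lit 1637) (.e (nat_lit 1599) (nat_lit 111) (.e (nat_lit 360471) (nat_lit 7) (.e (nat_lit 548891) (nat_lit 11) (.e (nat_lit 81939) (nat_lit 20) (.e (nat_lit 1842) (nat_lit 123) (.e (nat_lit 548873) (nat_lit 5) .nil)))))) (.g (nat_lit 5) .nil .nil)))) (.nd (nat_lit 6) 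
(.lf (nat_lit 66474) (.g (nat_lit 2369) (.e (nat_lit 1599) (nat_lit 111) (.e (nat_lit 360456) (nat_lit 0) (.e (nat_lit 5818) (nat_lit 320) (.e (nat_lit 1222) (nat_lit 90) (.e (nat_lit 81943) (nat_lit 20) (.e (nat_lit 2005) (nat_lit 138) (.e (nat_lit 671748) (nat_lit 0) .nil))))))) (.g (nat_lit 7) .nil .nil))) 
(.lf (nat_lit 66538) (.g (nat_lit 2266) (.e (nat_lit 1599) (nat_lit 111) (.e (nat_lit 360474) (nat_lit 8) (.e (nat_lit 557094) (nat_lit 12) (.e (nat_lit 164022) (nat_lit 46) (.e (nat_lit 704738) (nat_lit 11) (.e (nat_lit 16412) (nat_lit 2) (.e (nat_lit 196627) (nat_lit 9) .nil))))))) (.g (nat_lit 4) .nil .nil))))) (.nd (nat_lit 5) (.nd (nat_lit 6) 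
(.lf (nat_lit 66458) (.g (nat_lit 2286) (.e (nat_lit 1599) (nat_lit 111) (.e (nat_lit 360452) (nat_lit 0) (.e (nat_lit 5907) (nat_lit 320) (.e (nat_lit 1190) (nat_lit 88) (.e (nat_lit 65619) (nat_lit 10) .nil))))) .nil)) 
(.lf (nat_lit 66522) (.g (nat_lit 1658) (.e (nat_lit 1599) (nat_lit 111) (.e (nat_lit 360474) (nat_lit 8) (.e (nat_lit 557072) (nat_lit 9) (.e (nat_lit 7936) (nat_lit 23) .nil)))) .nil))) (.nd (nat_lit 6) 
(.lf (nat_lit 66490) (.g (nat_lit 2165) (.e (nat_lit 1599) (nat_lit 111) (.e (nat_lit 360471) (nat_lit 7) (.e (nat_lit 548873) (nat_lit 5) (.e (nat_lit 1598) (nat_lit 111) (.e (nat_lit 360471) (nat_lit 7) (.e (nat_lit 548874) (nat_lit 5) .nil)))))) (.g (nat_lit 0) .nil .nil))) 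
(.lf (nat_lit 66554) (.g (nat_lit 951) (.e (nat_lit 1599) (nat_lit 111) (.e (nat_lit 360475) (nat_lit 8) (.e (nat_lit 557086) (nat_lit 11) .nil))) .nil)))))) (.nd (nat_lit 3) (.nd (nat_lit 4) (.nd (nat_lit 5) (.nd (nat_lit 6) 
(.lf (nat_lit 66438) (.g (nat_lit 2797) (.e (nat_lit 1599) (nat_lit 111) (.e (nat_lit 360451) (nat_lit 0) (.e (nat_lit 7125) (nat_lit 382) (.e (nat_lit 1201) (nat_lit 88) (.e (nat_lit 65610) (nat_lit 10) (.e (nat_lit 344177) (nat_lit 43) (.e (nat_lit 770058) (nat_lit 5) .nil))))))) (.g (nat_lit 5) .nil .nil))) 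
(.lf (nat_lit 66502) (.g (nat_lit 2569) (.e (nat_lit 1599) (nat_lit 111) (.e (nat_lit 360471) (nat_lit 7) (.e (nat_lit 548889) (nat_lit 9) (.e (nat_lit 65620) (nat_lit 10) (.e (nat_lit 344126) (nat_lit 25) (.e (nat_lit 548873) (nat_lit 5) .nil)))))) (.g (nat_lit 6) .nil .nil)))) (.nd (nat_lit 6) 
(.lf (nat_lit 66470) (.g (nat_lit 709) (.e (nat_lit 1599) (nat_lit 111) (.e (nat_lit 360454) (nat_lit 0) (.e (nat_lit 5907) (nat_lit 320) (.e (nat_lit 1219) (nat_lit 90) .nil)))) .nil)) 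
(.lf (nat_lit 66534) (.g (nat_lit 2696) (.e (nat_lit 1599) (nat_lit 111) (.e (nat_lit 360474) (nat_lit 8) (.e (nat_lit 557093) (nat_lit 12) (.e (nat_lit 164022) (nat_lit 46) (.e (nat_lit 704737) (nat_lit 11) .nil))))) .nil)))) (.nd (nat_lit 5) (.nd (nat_lit 6) 
(.lf (nat_lit 66454) (.g (nat_lit 1821) (.e (nat_lit 1599) (nat_lit 111) (.e (nat_lit 360451) (nat_lit 0) (.e (nat_lit 7266) (nat_lit 384) (.e (nat_lit 57427) (nat_lit 15) (.e (nat_lit 360489) (nat_lit 21) .nil))))) .nil)) 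
(.lf (nat_lit 66518) (.g (nat_lit 2003) (.e (nat_lit 1599) (nat_lit 111) (.e (nat_lit 360474) (nat_lit 8) (.e (nat_lit 557070) (nat_lit 9) (.e (nat_lit 7936) (nat_lit 23) .nil)))) .nil))) (.nd (nat_lit 6) 
(.lf (nat_lit 66486) (.g (nat_lit 511) (.e (nat_lit 1599) (nat_lit 111) (.e (nat_lit 360471) (nat_lit 7) (.e (nat_lit 548872) (nat_lit 5) .nil))) .nil)) 
(.lf (nat_lit 66550) (.g (nat_lit 2046) (.e (nat_lit 1599) (nat_lit 111) (.e (nat_lit 360475) (nat_lit 8) (.e (nat_lit 557068) (nat_lit 9) (.e (nat_lit 7936) (nat_lit 21) .nil)))) .nil))))) (.nd (nat_lit 4) (.nd (nat_lit 5) (.nd (nat_lit 6) 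
(.lf (nat_lit 66446) (.g (nat_lit 582) (.e (nat_lit 1599) (nat_lit 111) (.e (nat_lit 360451) (nat_lit 0) (.e (nat_lit 7261) (nat_lit 384) .nil))) .nil)) 
(.lf (nat_lit 66510) (.g (nat_lit 1828) (.e (nat_lit 1599) (nat_lit 111) (.e (nat_lit 360471) (nat_lit 7) (.e (nat_lit 548891) (nat_lit 11) (.e (nat_lit 81943) (nat_lit 20) (.e (nat_lit 1842) (nat_lit 123) (.e (nat_lit 548872) (nat_lit 5) .nil)))))) (.g (nat_lit 5) .nil .nil)))) (.nd (nat_lit 6) 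
(.lf (nat_lit 66478) (.g (nat_lit 1144) (.e (nat_lit 1599) (nat_lit 111) (.e (nat_lit 360464) (nat_lit 2) (.e (nat_lit 507906) (nat_lit 0) (.e (nat_lit 5412) (nat_lit 303) (.e (nat_lit 73751) (nat_lit 7) (.e (nat_lit 548873) (nat_lit 5) .nil)))))) (.g (nat_lit 6) .nil .nil))) 
(.lf (nat_lit 66542) (.g (nat_lit 1253) (.e (nat_lit 1599) (nat_lit 111) (.e (nat_lit 360475) (nat_lit 8) (.e (nat_lit 557065) (nat_lit 9) .nil))) .nil)))) (.nd (nat_lit 5) (.nd (nat_lit 6) 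
(.lf (nat_lit 66462) (.g (nat_lit 2326) (.e (nat_lit 1599) (nat_lit 111) (.e (nat_lit 360452) (nat_lit 0) (.e (nat_lit 5907) (nat_lit 320) (.e (nat_lit 1221) (nat_lit 90) (.e (nat_lit 81947) (nat_lit 20) .nil))))) .nil)) 
(.lf (nat_lit 66526) (.g (nat_lit 1565) (.e (nat_lit 1599) (nat_lit 111) (.e (nat_lit 360474) (nat_lit 8) (.e (nat_lit 557073) (nat_lit 9) (.e (nat_lit 7936) (nat_lit 21) .nil)))) .nil))) (.nd (nat_lit 6) 
(.lf (nat_lit 66494) (.g (nat_lit 1633) (.e (nat_lit 1599) (nat_lit 111) (.e (nat_lit 360471) (nat_lit 7) (.e (nat_lit 548874) (nat_lit 5) (.e (nat_lit 1589) (nat_lit 111) (.e (nat_lit 360471) (nat_lit 7) .nil))))) .nil)) 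
(.lf (nat_lit 66558) (.g (nat_lit 2328) (.e (nat_lit 1599) (nat_lit 111) (.e (nat_lit 360475) (nat_lit 8) (.e (nat_lit 557087) (nat_lit 11) (.e (nat_lit 24641) (nat_lit 10) .nil)))) .nil)))))))) (.nd (nat_lit 1) (.nd (nat_lit 2) (.nd (nat_lit 3) (.nd (nat_lit 4) (.nd (nat_lit 5) (.nd (nat_lit 6) 
(.lf (nat_lit 66433) (.g (nat_lit 470) (.e (nat_lit 1599) (nat_lit 111) (.e (nat_lit 360450) (nat_lit 0) (.e (nat_lit 7261) (nat_lit 384) .nil))) .nil)) 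
(.lf (nat_lit 66497) (.g (nat_lit 2142) (.e (nat_lit 1599) (nat_lit 111) (.e (nat_lit 360471) (nat_lit 7) (.e (nat_lit 548889) (nat_lit 9) (.e (nat_lit 65610) (nat_lit 10) (.e (nat_lit 344126) (nat_lit 25) (.e (nat_lit 548872) (nat_lit 5) .nil)))))) (.g (nat_lit 6) .nil .nil)))) (.nd (nat_lit 6) 
(.lf (nat_lit 66465) (.g (nat_lit 632) (.e (nat_lit 1599) (nat_lit 111) (.e (nat_lit 360452) (nat_lit 0) (.e (nat_lit 7271) (nat_lit 385) .nil))) .nil)) 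
(.lf (nat_lit 66529) (.g (nat_lit 2113) (.e (nat_lit 1599) (nat_lit 111) (.e (nat_lit 360474) (nat_lit 8) (.e (nat_lit 557081) (nat_lit 9) (.e (nat_lit 316) (nat_lit 23) (.e (nat_lit 352297) (nat_lit 20) .nil))))) .nil)))) (.nd (nat_lit 5) (.nd (nat_lit 6) 
(.lf (nat_lit 66449) (.g (nat_lit 2109) (.e (nat_lit 1599) (nat_lit 111) (.e (nat_lit 360451) (nat_lit 0) (.e (nat_lit 7265) (nat_lit 384) (.e (nat_lit 57426) (nat_lit 15) (.e (nat_lit 360489) (nat_lit 21) .nil))))) .nil)) 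
(.lf (nat_lit 66513) (.g (nat_lit 1760) (.e (nat_lit 1599) (nat_lit 111) (.e (nat_lit 360471) (nat_lit 7) (.e (nat_lit 548891) (nat_lit 11) (.e (nat_lit 81947) (nat_lit 20) (.e (nat_lit 1842) (nat_lit 123) (.e (nat_lit 548872) (nat_lit 5) .nil)))))) (.g (nat_lit 4) .nil .nil)))) (.nd (nat_lit 6) 
(.lf (nat_lit 66481) (.g (nat_lit 2094) (.e (nat_lit 1599) (nat_lit 111) (.e (nat_lit 360464) (nat_lit 2) (.e (nat_lit 507923) (nat_lit 6) (.e (nat_lit 286755) (nat_lit 10) (.e (nat_lit 344126) (nat_lit 25) (.e (nat_lit 548874) (nat_lit 5) .nil)))))) (.g (nat_lit 0) .nil .nil))) 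
(.lf (nat_lit 66545) (.g (nat_lit 1964) (.e (nat_lit 1599) (nat_lit 111) (.e (nat_lit 360475) (nat_lit 8) (.e (nat_lit 557066) (nat_lit 9) (.e (nat_lit 314) (nat_lit 23) .nil)))) .nil))))) (.nd (nat_lit 4) (.nd (nat_lit 5) (.nd (nat_lit 6) 
(.lf (nat_lit 66441) (.g (nat_lit 2190) (.e (nat_lit 1599) (nat_lit 111) (.e (nat_lit 360451) (nat_lit 0) (.e (nat_lit 7125) (nat_lit 382) (.e (nat_lit 1222) (nat_lit 90) (.e (nat_lit 81943) (nat_lit 20) .nil))))) .nil)) 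
(.lf (nat_lit 66505) (.g (nat_lit 1944) (.e (nat_lit 1599) (nat_lit 111) (.e (nat_lit 360471) (nat_lit 7) (.e (nat_lit 548891) (nat_lit 11) (.e (nat_lit 81938) (nat_lit 20) (.e (nat_lit 1842) (nat_lit 123) (.e (nat_lit 548873) (nat_lit 5) .nil)))))) (.g (nat_lit 5) .nil .nil)))) (.nd (nat_lit 6) 
(.lf (nat_lit 66473) (.g (nat_lit 2828) (.e (nat_lit 1599) (nat_lit 111) (.e (nat_lit 360456) (nat_lit 0) (.e (nat_lit 5818) (nat_lit 320) (.e (nat_lit 1201) (nat_lit 88) (.e (nat_lit 65617) (nat_lit 10) (.e (nat_lit 344169) (nat_lit 40) (.e (nat_lit 671748) (nat_lit 0) .nil))))))) (.g (nat_lit 7) .nil .nil))) 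
(.lf (nat_lit 66537) (.g (nat_lit 2202) (.e (nat_lit 1599) (nat_lit 111) (.e (nat_lit 360474) (nat_lit 8) (.e (nat_lit 557094) (nat_lit 12) (.e (nat_lit 164022) (nat_lit 46) (.e (nat_lit 704738) (nat_lit 11) .nil))))) .nil)))) (.nd (nat_lit 5) (.nd (nat_lit 6) 
(.lf (nat_lit 66457) (.g (nat_lit 2231) (.e (nat_lit 1599) (nat_lit 111) (.e (nat_lit 360452) (nat_lit 0) (.e (nat_lit 5905) (nat_lit 320) (.e (nat_lit 1190) (nat_lit 88) (.e (nat_lit 65619) (nat_lit 10) .nil))))) .nil)) 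
(.lf (nat_lit 66521) (.g (nat_lit 1658) (.e (nat_lit 1599) (nat_lit 111) (.e (nat_lit 360474) (nat_lit 8) (.e (nat_lit 557072) (nat_lit 9) (.e (nat_lit 7936) (nat_lit 21) .nil)))) .nil))) (.nd (nat_lit 6) 
(.lf (nat_lit 66489) (.g (nat_lit 1782) (.e (nat_lit 1599) (nat_lit 111) (.e (nat_lit 360471) (nat_lit 7) (.e (nat_lit 548873) (nat_lit 5) (.e (nat_lit 1598) (nat_lit 111) (.e (nat_lit 360471) (nat_lit 7) (.e (nat_lit 548873) (nat_lit 5) .nil)))))) (.g (nat_lit 0) .nil .nil))) 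
(.lf (nat_lit 66553) (.g (nat_lit 3467) (.e (nat_lit 1599) (nat_lit 111) (.e (nat_lit 360475) (nat_lit 8) (.e (nat_lit 557085) (nat_lit 11) (.e (nat_lit 24640) (nat_lit 10) (.e (nat_lit 344126) (nat_lit 25) (.e (nat_lit 548873) (nat_lit 5) .nil)))))) (.g (nat_lit 4) .nil .nil))))))) (.nd (nat_lit 3) (.nd (nat_lit 4) (.nd (nat_lit 5) (.nd (nat_lit 6) 
(.lf (nat_lit 66437) (.g (nat_lit 1437) (.e (nat_lit 1599) (nat_lit 111) (.e (nat_lit 360451) (nat_lit 0) (.e (nat_lit 7125) (nat_lit 382) (.e (nat_lit 1201) (nat_lit 88) .nil)))) .nil)) 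
(.lf (nat_lit 66501) (.g (nat_lit 2742) (.e (nat_lit 1599) (nat_lit 111) (.e (nat_lit 360471) (nat_lit 7) (.e (nat_lit 548889) (nat_lit 9) (.e (nat_lit 65619) (nat_lit 10) (.e (nat_lit 344126) (nat_lit 25) (.e (nat_lit 548872) (nat_lit 5) .nil)))))) (.g (nat_lit 6) .nil .nil)))) (.nd (nat_lit 6) 
(.lf (nat_lit 66469) (.g (nat_lit 228) (.e (nat_lit 1599) (nat_lit 111) (.e (nat_lit 360454) (nat_lit 0) (.e (nat_lit 5243) (nat_lit 297) .nil))) .nil)) 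
(.lf (nat_lit 66533) (.g (nat_lit 728) (.e (nat_lit 1599) (nat_lit 111) (.e (nat_lit 360474) (nat_lit 8) (.e (nat_lit 557093) (nat_lit 12) .nil))) .nil)))) (.nd (nat_lit 5) (.nd (nat_lit 6) 
(.lf (nat_lit 66453) (.g (nat_lit 1718) (.e (nat_lit 1599) (nat_lit 111) (.e (nat_lit 360451) (nat_lit 0) (.e (nat_lit 7266) (nat_lit 384) (.e (nat_lit 57426) (nat_lit 15) (.e (nat_lit 360489) (nat_lit 21) .nil))))) .nil)) 
(.lf (nat_lit 66517) (.g (nat_lit 1833) (.e (nat_lit 1599) (nat_lit 111) (.e (nat_lit 360474) (nat_lit 8) (.e (nat_lit 557070) (nat_lit 9) (.e (nat_lit 313) (nat_lit 23) .nil)))) .nil))) (.nd (nat_lit 6) 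
(.lf (nat_lit 66485) (.g (nat_lit 1913) (.e (nat_lit 1599) (nat_lit 111) (.e (nat_lit 360468) (nat_lit 3) (.e (nat_lit 516139) (nat_lit 7) (.e (nat_lit 409644) (nat_lit 18) (.e (nat_lit 303117) (nat_lit 2) .nil))))) .nil)) 
(.lf (nat_lit 66549) (.g (nat_lit 2027) (.e (nat_lit 1599) (nat_lit 111) (.e (nat_lit 360475) (nat_lit 8) (.e (nat_lit 557068) (nat_lit 9) (.e (nat_lit 290) (nat_lit 21) .nil)))) .nil))))) (.nd (nat_lit 4) (.nd (nat_lit 5) (.nd (nat_lit 6) 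
(.lf (nat_lit 66445) (.g (nat_lit 2571) (.e (nat_lit 1599) (nat_lit 111) (.e (nat_lit 360451) (nat_lit 0) (.e (nat_lit 7125) (nat_lit 382) (.e (nat_lit 1224) (nat_lit 90) (.e (nat_lit 81947) (nat_lit 20) (.e (nat_lit 2281) (nat_lit 150) (.e (nat_lit 770058) (nat_lit 5) .nil))))))) (.g (nat_lit 5) .nil .nil))) 
(.lf (nat_lit 66509) (.g (nat_lit 2000) (.e (nat_lit 1599) (nat_lit 111) (.e (nat_lit 360471) (nat_lit 7) (.e (nat_lit 548891) (nat_lit 11) (.e (nat_lit 81943) (nat_lit 20) (.e (nat_lit 1841) (nat_lit 123) (.e (nat_lit 548874) (nat_lit 5) .nil)))))) (.g (nat_lit 0) .nil .nil)))) (.nd (nat_lit 6) 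
(.lf (nat_lit 66477) (.g (nat_lit 455) (.e (nat_lit 1599) (nat_lit 111) (.e (nat_lit 360464) (nat_lit 2) (.e (nat_lit 507906) (nat_lit 0) (.e (nat_lit 5412) (nat_lit 303) .nil)))) .nil)) 
(.lf (nat_lit 66541) (.g (nat_lit 1137) (.e (nat_lit 1599) (nat_lit 111) (.e (nat_lit 360474) (nat_lit 8) (.e (nat_lit 557119) (nat_lit 18) .nil))) .nil)))) (.nd (nat_lit 5) (.nd (nat_lit 6) 
(.lf (nat_lit 66461) (.g (nat_lit 2339) (.e (nat_lit 1599) (nat_lit 111) (.e (nat_lit 360452) (nat_lit 0) (.e (nat_lit 5907) (nat_lit 320) (.e (nat_lit 1221) (nat_lit 90) (.e (nat_lit 81938) (nat_lit 20) .nil))))) .nil)) 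
(.lf (nat_lit 66525) (.g (nat_lit 1664) (.e (nat_lit 1599) (nat_lit 111) (.e (nat_lit 360474) (nat_lit 8) (.e (nat_lit 557073) (nat_lit 9) (.e (nat_lit 290) (nat_lit 21) .nil)))) .nil))) (.nd (nat_lit 6) 
(.lf (nat_lit 66493) (.g (nat_lit 1572) (.e (nat_lit 1599) (nat_lit 111) (.e (nat_lit 360471) (nat_lit 7) (.e (nat_lit 548874) (nat_lit 5) (.e (nat_lit 1586) (nat_lit 111) (.e (nat_lit 360471) (nat_lit 7) (.e (nat_lit 548872) (nat_lit 5) .nil)))))) (.g (nat_lit 4) .nil .nil))) 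
(.lf (nat_lit 66557) (.g (nat_lit 2391) (.e (nat_lit 1599) (nat_lit 111) (.e (nat_lit 360475) (nat_lit 8) (.e (nat_lit 557087) (nat_lit 11) (.e (nat_lit 24639) (nat_lit 10) .nil)))) .nil))))))) (.nd (nat_lit 2) (.nd (nat_lit 3) (.nd (nat_lit 4) (.nd (nat_lit 5) (.nd (nat_lit 6) 
(.lf (nat_lit 66435) (.g (nat_lit 1658) (.e (nat_lit 1599) (nat_lit 111) (.e (nat_lit 360451) (nat_lit 0) (.e (nat_lit 7124) (nat_lit 382) (.e (nat_lit 1222) (nat_lit 90) (.e (nat_lit 81943) (nat_lit 20) .nil))))) .nil)) 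
(.lf (nat_lit 66499) (.g (nat_lit 3086) (.e (nat_lit 1599) (nat_lit 111) (.e (nat_lit 360471) (nat_lit 7) (.e (nat_lit 548889) (nat_lit 9) (.e (nat_lit 65611) (nat_lit 10) (.e (nat_lit 344126) (nat_lit 25) (.e (nat_lit 548874) (nat_lit 5) .nil)))))) (.g (nat_lit 0) .nil .nil)))) (.nd (nat_lit 6) 
(.lf (nat_lit 66467) (.g (nat_lit 1495) (.e (nat_lit 1599) (nat_lit 111) (.e (nat_lit 360452) (nat_lit 0) (.e (nat_lit 7272) (nat_lit 385) (.e (nat_lit 122917) (nat_lit 15) .nil)))) .nil)) 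
(.lf (nat_lit 66531) (.g (nat_lit 4014) (.e (nat_lit 1599) (nat_lit 111) (.e (nat_lit 360474) (nat_lit 8) (.e (nat_lit 557091) (nat_lit 12) (.e (nat_lit 163999) (nat_lit 38) (.e (nat_lit 639020) (nat_lit 16) (.e (nat_lit 65580) (nat_lit 6) (.e (nat_lit 155392) (nat_lit 0) .nil))))))) (.g (nat_lit 6) .nil .nil))))) (.nd (nat_lit 5) (.nd (nat_lit 6) 
(.lf (nat_lit 66451) (.g (nat_lit 1460) (.e (nat_lit 1599) (nat_lit 111) (.e (nat_lit 360451) (nat_lit 0) (.e (nat_lit 7265) (nat_lit 384) (.e (nat_lit 57428) (nat_lit 15) .nil)))) .nil)) 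
(.lf (nat_lit 66515) (.g (nat_lit 747) (.e (nat_lit 1599) (nat_lit 111) (.e (nat_lit 360474) (nat_lit 8) (.e (nat_lit 557064) (nat_lit 9) .nil))) .nil))) (.nd (nat_lit 6) 
(.lf (nat_lit 66483) (.g (nat_lit 1635) (.e (nat_lit 1599) (nat_lit 111) (.e (nat_lit 360466) (nat_lit 3) (.e (nat_lit 516185) (nat_lit 16) (.e (nat_lit 491560) (nat_lit 10) .nil)))) .nil)) 
(.lf (nat_lit 66547) (.g (nat_lit 2084) (.e (nat_lit 1599) (nat_lit 111) (.e (nat_lit 360475) (nat_lit 8) (.e (nat_lit 557068) (nat_lit 9) (.e (nat_lit 251) (nat_lit 21) .nil)))) .nil))))) (.nd (nat_lit 4) (.nd (nat_lit 5) (.nd (nat_lit 6) 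
(.lf (nat_lit 66443) (.g (nat_lit 1397) (.e (nat_lit 1599) (nat_lit 111) (.e (nat_lit 360451) (nat_lit 0) (.e (nat_lit 7125) (nat_lit 382) (.e (nat_lit 1224) (nat_lit 90) .nil)))) .nil)) 
(.lf (nat_lit 66507) (.g (nat_lit 1690) (.e (nat_lit 1599) (nat_lit 111) (.e (nat_lit 360471) (nat_lit 7) (.e (nat_lit 548891) (nat_lit 11) (.e (nat_lit 81942) (nat_lit 20) (.e (nat_lit 1841) (nat_lit 123) (.e (nat_lit 548874) (nat_lit 5) .nil)))))) (.g (nat_lit 6) .nil .nil)))) (.nd (nat_lit 6) 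
(.lf (nat_lit 66475) (.g (nat_lit 2391) (.e (nat_lit 1599) (nat_lit 111) (.e (nat_lit 360456) (nat_lit 0) (.e (nat_lit 5818) (nat_lit 320) (.e (nat_lit 1224) (nat_lit 90) (.e (nat_lit 81947) (nat_lit 20) (.e (nat_lit 2006) (nat_lit 138) (.e (nat_lit 671748) (nat_lit 0) .nil))))))) (.g (nat_lit 7) .nil .nil))) 
(.lf (nat_lit 66539) (.g (nat_lit 1460) (.e (nat_lit 1599) (nat_lit 111) (.e (nat_lit 360474) (nat_lit 8) (.e (nat_lit 557118) (nat_lit 18) (.e (nat_lit 2807) (nat_lit 180) .nil)))) .nil)))) (.nd (nat_lit 5) (.nd (nat_lit 6) 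
(.lf (nat_lit 66459) (.g (nat_lit 1613) (.e (nat_lit 1599) (nat_lit 111) (.e (nat_lit 360452) (nat_lit 0) (.e (nat_lit 5907) (nat_lit 320) (.e (nat_lit 1219) (nat_lit 90) .nil)))) .nil)) 
(.lf (nat_lit 66523) (.g (nat_lit 1658) (.e (nat_lit 1599) (nat_lit 111) (.e (nat_lit 360474) (nat_lit 8) (.e (nat_lit 557072) (nat_lit 9) (.e (nat_lit 7936) (nat_lit 24) .nil)))) .nil))) (.nd (nat_lit 6) 
(.lf (nat_lit 66491) (.g (nat_lit 1608) (.e (nat_lit 1599) (nat_lit 111) (.e (nat_lit 360471) (nat_lit 7) (.e (nat_lit 548873) (nat_lit 5) (.e (nat_lit 1599) (nat_lit 111) (.e (nat_lit 360471) (nat_lit 7) (.e (nat_lit 548873) (nat_lit 5) .nil)))))) (.g (nat_lit 0) .nil .nil))) 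
(.lf (nat_lit 66555) (.g (nat_lit 572) (.e (nat_lit 1599) (nat_lit 111) (.e (nat_lit 360475) (nat_lit 8) (.e (nat_lit 557087) (nat_lit 11) .nil))) .nil)))))) (.nd (nat_lit 3) (.nd (nat_lit 4) (.nd (nat_lit 5) (.nd (nat_lit 6) 
(.lf (nat_lit 66439) (.g (nat_lit 2183) (.e (nat_lit 1599) (nat_lit 111) (.e (nat_lit 360451) (nat_lit 0) (.e (nat_lit 7125) (nat_lit 382) (.e (nat_lit 1201) (nat_lit 88) (.e (nat_lit 65617) (nat_lit 10) .nil))))) .nil)) 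
(.lf (nat_lit 66503) (.g (nat_lit 3187) (.e (nat_lit 1599) (nat_lit 111) (.e (nat_lit 360471) (nat_lit 7) (.e (nat_lit 548889) (nat_lit 9) (.e (nat_lit 65624) (nat_lit 12) .nil)))) .nil))) (.nd (nat_lit 6) 
(.lf (nat_lit 66471) (.g (nat_lit 624) (.e (nat_lit 1599) (nat_lit 111) (.e (nat_lit 360454) (nat_lit 0) (.e (nat_lit 7147) (nat_lit 382) (.e (nat_lit 1216) (nat_lit 90) .nil)))) .nil)) 
(.lf (nat_lit 66535) (.g (nat_lit 2436) (.e (nat_lit 1599) (nat_lit 111) (.e (nat_lit 360474) (nat_lit 8) (.e (nat_lit 557093) (nat_lit 12) (.e (nat_lit 164022) (nat_lit 46) (.e (nat_lit 704738) (nat_lit 11) .nil))))) .nil)))) (.nd (nat_lit 5) (.nd (nat_lit 6) 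
(.lf (nat_lit 66455) (.g (nat_lit 1499) (.e (nat_lit 1599) (nat_lit 111) (.e (nat_lit 360451) (nat_lit 0) (.e (nat_lit 7266) (nat_lit 384) (.e (nat_lit 57428) (nat_lit 15) .nil)))) .nil)) 
(.lf (nat_lit 66519) (.g (nat_lit 2003) (.e (nat_lit 1599) (nat_lit 111) (.e (nat_lit 360474) (nat_lit 8) (.e (nat_lit 557070) (nat_lit 9) (.e (nat_lit 7936) (nat_lit 24) .nil)))) .nil))) (.nd (nat_lit 6) 
(.lf (nat_lit 66487) (.g (nat_lit 1004) (.e (nat_lit 1599) (nat_lit 111) (.e (nat_lit 360471) (nat_lit 7) (.e (nat_lit 548872) (nat_lit 5) (.e (nat_lit 1599) (nat_lit 111) (.e (nat_lit 360471) (nat_lit 7) (.e (nat_lit 548873) (nat_lit 5) .nil)))))) (.g (nat_lit 4) .nil .nil))) 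
(.lf (nat_lit 66551) (.g (nat_lit 2046) (.e (nat_lit 1599) (nat_lit 111) (.e (nat_lit 360475) (nat_lit 8) (.e (nat_lit 557068) (nat_lit 9) (.e (nat_lit 7936) (nat_lit 23) .nil)))) .nil))))) (.nd (nat_lit 4) (.nd (nat_lit 5) (.nd (nat_lit 6) 
(.lf (nat_lit 66447) (.g (nat_lit 2358) (.e (nat_lit 1599) (nat_lit 111) (.e (nat_lit 360451) (nat_lit 0) (.e (nat_lit 7265) (nat_lit 384) (.e (nat_lit 57412) (nat_lit 12) (.e (nat_lit 336176) (nat_lit 10) (.e (nat_lit 344177) (nat_lit 43) (.e (nat_lit 770058) (nat_lit 5) .nil))))))) (.g (nat_lit 5) .nil .nil))) 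
(.lf (nat_lit 66511) (.g (nat_lit 1968) (.e (nat_lit 1599) (nat_lit 111) (.e (nat_lit 360471) (nat_lit 7) (.e (nat_lit 548891) (nat_lit 11) (.e (nat_lit 81946) (nat_lit 20) (.e (nat_lit 1842) (nat_lit 123) (.e (nat_lit 548873) (nat_lit 5) .nil)))))) (.g (nat_lit 5) .nil .nil)))) (.nd (nat_lit 6) 
(.lf (nat_lit 66479) (.g (nat_lit 1554) (.e (nat_lit 1599) (nat_lit 111) (.e (nat_lit 360464) (nat_lit 2) (.e (nat_lit 507906) (nat_lit 0) (.e (nat_lit 5412) (nat_lit 303) (.e (nat_lit 73751) (nat_lit 7) (.e (nat_lit 548874) (nat_lit 5) .nil)))))) (.g (nat_lit 6) .nil .nil))) 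
(.lf (nat_lit 66543) (.g (nat_lit 2194) (.e (nat_lit 1599) (nat_lit 111) (.e (nat_lit 360475) (nat_lit 8) (.e (nat_lit 557065) (nat_lit 9) (.e (nat_lit 324) (nat_lit 24) .nil)))) .nil)))) (.nd (nat_lit 5) (.nd (nat_lit 6) 
(.lf (nat_lit 66463) (.g (nat_lit 635) (.e (nat_lit 1599) (nat_lit 111) (.e (nat_lit 360452) (nat_lit 0) (.e (nat_lit 7147) (nat_lit 382) .nil))) .nil)) 
(.lf (nat_lit 66527) (.g (nat_lit 1565) (.e (nat_lit 1599) (nat_lit 111) (.e (nat_lit 360474) (nat_lit 8) (.e (nat_lit 557073) (nat_lit 9) (.e (nat_lit 7936) (nat_lit 23) .nil)))) .nil))) (.nd (nat_lit 6) 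
(.lf (nat_lit 66495) (.g (nat_lit 1966) (.e (nat_lit 1599) (nat_lit 111) (.e (nat_lit 360471) (nat_lit 7) (.e (nat_lit 548874) (nat_lit 5) (.e (nat_lit 1595) (nat_lit 111) (.e (nat_lit 360471) (nat_lit 7) (.e (nat_lit 548872) (nat_lit 5) .nil)))))) (.g (nat_lit 5) .nil .nil))) 
(.lf (nat_lit 66559) (.g (nat_lit 886) (.e (nat_lit 1599) (nat_lit 111) (.e (nat_lit 360475) (nat_lit 8) (.e (nat_lit 557089) (nat_lit 12) .nil))) .nil)))))))))

noncomputable def tv920 : DT := (.nd (nat_lit 0) (.nd (nat_lit 1) (.nd (nat_lit 2) (.nd (nat_lit 3) (.nd (nat_lit 4) (.nd (nat_lit 5) 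
(.lf (nat_lit 66560) (.g (nat_lit 3419) (.e (nat_lit 1599) (nat_lit 111) (.e (nat_lit 360475) (nat_lit 8) (.e (nat_lit 557090) (nat_lit 12) (.e (nat_lit 163843) (nat_lit 0) .nil)))) .nil)) 
(.lf (nat_lit 66592) (.g (nat_lit 1736) (.e (nat_lit 1599) (nat_lit 111) (.e (nat_lit 360477) (nat_lit 11) (.e (nat_lit 581653) (nat_lit 6) (.e (nat_lit 188435) (nat_lit 20) (.e (nat_lit 3579) (nat_lit 223) (.e (nat_lit 745475) (nat_lit 0) .nil)))))) (.g (nat_lit 0) .nil .nil)))) (.nd (nat_lit 5) 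
(.lf (nat_lit 66576) (.g (nat_lit 2235) (.e (nat_lit 1599) (nat_lit 111) (.e (nat_lit 360475) (nat_lit 8) (.e (nat_lit 557119) (nat_lit 18) (.e (nat_lit 2796) (nat_lit 180) .nil)))) .nil)) 
(.lf (nat_lit 66608) (.g (nat_lit 1938) (.e (nat_lit 1599) (nat_lit 111) (.e (nat_lit 360486) (nat_lit 18) (.e (nat_lit 671748) (nat_lit 0) (.e (nat_lit 1599) (nat_lit 111) (.e (nat_lit 360486) (nat_lit 18) (.e (nat_lit 671748) (nat_lit 0) .nil)))))) (.g (nat_lit 0) .nil .nil))))) (.nd (nat_lit 4) (.nd (nat_lit 5) 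
(.lf (nat_lit 66568) (.g (nat_lit 2414) (.e (nat_lit 1599) (nat_lit 111) (.e (nat_lit 360475) (nat_lit 8) (.e (nat_lit 557091) (nat_lit 12) (.e (nat_lit 164022) (nat_lit 46) .nil)))) .nil)) 
(.lf (nat_lit 66600) (.g (nat_lit 1181) (.e (nat_lit 1599) (nat_lit 111) (.e (nat_lit 360480) (nat_lit 14) (.e (nat_lit 638997) (nat_lit 8) (.e (nat_lit 172115) (nat_lit 10) (.e (nat_lit 434269) (nat_lit 36) (.e (nat_lit 639008) (nat_lit 13) .nil)))))) (.g (nat_lit 6) .nil .nil)))) (.nd (nat_lit 5) 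
(.lf (nat_lit 66584) (.g (nat_lit 1899) (.e (nat_lit 1599) (nat_lit 111) (.e (nat_lit 360475) (nat_lit 8) (.e (nat_lit 557119) (nat_lit 18) (.e (nat_lit 2807) (nat_lit 180) .nil)))) .nil)) 
(.lf (nat_lit 66616) (.g (nat_lit 2040) (.e (nat_lit 1599) (nat_lit 111) (.e (nat_lit 360486) (nat_lit 18) (.e (nat_lit 671764) (nat_lit 6) (.e (nat_lit 81938) (nat_lit 20) (.e (nat_lit 2005) (nat_lit 138) (.e (nat_lit 671748) (nat_lit 0) .nil)))))) (.g (nat_lit 0) .nil .nil)))))) (.nd (nat_lit 3) (.nd (nat_lit 4) (.nd (nat_lit 5) 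
(.lf (nat_lit 66564) (.g (nat_lit 4907) (.e (nat_lit 1599) (nat_lit 111) (.e (nat_lit 360475) (nat_lit 8) (.e (nat_lit 557090) (nat_lit 12) (.e (nat_lit 164020) (nat_lit 45) (.e (nat_lit 696344) (nat_lit 8) (.e (nat_lit 172064) (nat_lit 2) (.e (nat_lit 196630) (nat_lit 9) .nil))))))) (.g (nat_lit 4) .nil .nil))) 
(.lf (nat_lit 66596) (.g (nat_lit 766) (.e (nat_lit 1599) (nat_lit 111) (.e (nat_lit 360479) (nat_lit 13) (.e (nat_lit 630801) (nat_lit 8) (.e (nat_lit 172112) (nat_lit 10) (.e (nat_lit 434269) (nat_lit 36) (.e (nat_lit 639007) (nat_lit 13) .nil)))))) (.g (nat_lit 0) .nil .nil)))) (.nd (nat_lit 5) 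
(.lf (nat_lit 66580) (.g (nat_lit 2634) (.e (nat_lit 1599) (nat_lit 111) (.e (nat_lit 360475) (nat_lit 8) (.e (nat_lit 557119) (nat_lit 18) (.e (nat_lit 2798) (nat_lit 180) (.e (nat_lit 303133) (nat_lit 9) (.e (nat_lit 426042) (nat_lit 0) (.e (nat_lit 3579) (nat_lit 223) (.e (nat_lit 745475) (nat_lit 0) .nil)))))))) (.g (nat_lit 4) .nil .nil))) 
(.lf (nat_lit 66612) (.g (nat_lit 1634) (.e (nat_lit 1599) (nat_lit 111) (.e (nat_lit 360486) (nat_lit 18) (.e (nat_lit 671762) (nat_lit 4) (.e (nat_lit 65616) (nat_lit 10) (.e (nat_lit 344168) (nat_lit 40) .nil))))) .nil)))) (.nd (nat_lit 4) (.nd (nat_lit 5) 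
(.lf (nat_lit 66572) (.g (nat_lit 3028) (.e (nat_lit 1599) (nat_lit 111) (.e (nat_lit 360475) (nat_lit 8) (.e (nat_lit 557091) (nat_lit 12) (.e (nat_lit 164022) (nat_lit 46) (.e (nat_lit 704738) (nat_lit 11) (.e (nat_lit 16412) (nat_lit 2) (.e (nat_lit 196627) (nat_lit 9) .nil))))))) (.g (nat_lit 4) .nil .nil))) 
(.lf (nat_lit 66604) (.g (nat_lit 920) (.e (nat_lit 1599) (nat_lit 111) (.e (nat_lit 360480) (nat_lit 14) (.e (nat_lit 638999) (nat_lit 8) (.e (nat_lit 172107) (nat_lit 10) (.e (nat_lit 434269) (nat_lit 36) (.e (nat_lit 639007) (nat_lit 13) .nil)))))) (.g (nat_lit 6) .nil .nil)))) (.nd (nat_lit 5) 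
(.lf (nat_lit 66588) (.g (nat_lit 413) (.e (nat_lit 1599) (nat_lit 111) (.e (nat_lit 360477) (nat_lit 11) (.e (nat_lit 581651) (nat_lit 4) .nil))) .nil)) 
(.lf (nat_lit 66620) (.g (nat_lit 1783) (.e (nat_lit 1599) (nat_lit 111) (.e (nat_lit 360486) (nat_lit 18) (.e (nat_lit 671764) (nat_lit 6) (.e (nat_lit 81943) (nat_lit 20) (.e (nat_lit 2004) (nat_lit 138) (.e (nat_lit 671748) (nat_lit 0) .nil)))))) (.g (nat_lit 6) .nil .nil))))))) (.nd (nat_lit 2) (.nd (nat_lit 3) (.nd (nat_lit 4) (.nd (nat_lit 5) 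
(.lf (nat_lit 66562) (.g (nat_lit 2704) (.e (nat_lit 1599) (nat_lit 111) (.e (nat_lit 360475) (nat_lit 8) (.e (nat_lit 557090) (nat_lit 12) (.e (nat_lit 164020) (nat_lit 45) .nil)))) .nil)) 
(.lf (nat_lit 66594) (.g (nat_lit 2247) (.e (nat_lit 1599) (nat_lit 111) (.e (nat_lit 360477) (nat_lit 11) (.e (nat_lit 581653) (nat_lit 6) (.e (nat_lit 188440) (nat_lit 20) (.e (nat_lit 3579) (nat_lit 223) (.e (nat_lit 745475) (nat_lit 0) .nil)))))) (.g (nat_lit 0) .nil .nil)))) (.nd (nat_lit 5) 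
(.lf (nat_lit 66578) (.g (nat_lit 1854) (.e (nat_lit 1599) (nat_lit 111) (.e (nat_lit 360475) (nat_lit 8) (.e (nat_lit 557119) (nat_lit 18) (.e (nat_lit 2798) (nat_lit 180) .nil)))) .nil)) 
(.lf (nat_lit 66610) (.g (nat_lit 2577) (.e (nat_lit 1599) (nat_lit 111) (.e (nat_lit 360486) (nat_lit 18) (.e (nat_lit 671761) (nat_lit 4) (.e (nat_lit 65610) (nat_lit 10) (.e (nat_lit 344169) (nat_lit 40) (.e (nat_lit 671748) (nat_lit 0) .nil)))))) (.g (nat_lit 5) .nil .nil))))) (.nd (nat_lit 4) (.nd (nat_lit 5) 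
(.lf (nat_lit 66570) (.g (nat_lit 3013) (.e (nat_lit 1599) (nat_lit 111) (.e (nat_lit 360475) (nat_lit 8) (.e (nat_lit 557091) (nat_lit 12) (.e (nat_lit 164022) (nat_lit 46) (.e (nat_lit 704738) (nat_lit 11) (.e (nat_lit 16412) (nat_lit 2) (.e (nat_lit 196617) (nat_lit 9) .nil))))))) (.g (nat_lit 4) .nil .nil))) 
(.lf (nat_lit 66602) (.g (nat_lit 1570) (.e (nat_lit 1599) (nat_lit 111) (.e (nat_lit 360480) (nat_lit 14) (.e (nat_lit 638998) (nat_lit 8) (.e (nat_lit 172106) (nat_lit 10) (.e (nat_lit 434269) (nat_lit 36) (.e (nat_lit 639008) (nat_lit 13) .nil)))))) (.g (nat_lit 6) .nil .nil)))) (.nd (nat_lit 5) 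
(.lf (nat_lit 66586) (.g (nat_lit 2066) (.e (nat_lit 1599) (nat_lit 111) (.e (nat_lit 360475) (nat_lit 8) (.e (nat_lit 557119) (nat_lit 18) (.e (nat_lit 2808) (nat_lit 180) .nil)))) .nil)) 
(.lf (nat_lit 66618) (.g (nat_lit 1599) (.e (nat_lit 1599) (nat_lit 111) (.e (nat_lit 360486) (nat_lit 18) (.e (nat_lit 671764) (nat_lit 6) (.e (nat_lit 81942) (nat_lit 20) (.e (nat_lit 2005) (nat_lit 138) (.e (nat_lit 671748) (nat_lit 0) .nil)))))) (.g (nat_lit 6) .nil .nil)))))) (.nd (nat_lit 3) (.nd (nat_lit 4) (.nd (nat_lit 5) 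
(.lf (nat_lit 66566) (.g (nat_lit 2403) (.e (nat_lit 1599) (nat_lit 111) (.e (nat_lit 360475) (nat_lit 8) (.e (nat_lit 557091) (nat_lit 12) (.e (nat_lit 163843) (nat_lit 0) .nil)))) .nil)) 
(.lf (nat_lit 66598) (.g (nat_lit 1148) (.e (nat_lit 1599) (nat_lit 111) (.e (nat_lit 360479) (nat_lit 13) (.e (nat_lit 630801) (nat_lit 8) (.e (nat_lit 172113) (nat_lit 10) (.e (nat_lit 434269) (nat_lit 36) (.e (nat_lit 639007) (nat_lit 13) .nil)))))) (.g (nat_lit 6) .nil .nil)))) (.nd (nat_lit 5) 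
(.lf (nat_lit 66582) (.g (nat_lit 2764) (.e (nat_lit 1599) (nat_lit 111) (.e (nat_lit 360475) (nat_lit 8) (.e (nat_lit 557119) (nat_lit 18) (.e (nat_lit 2798) (nat_lit 180) (.e (nat_lit 303139) (nat_lit 10) .nil))))) .nil)) 
(.lf (nat_lit 66614) (.g (nat_lit 1864) (.e (nat_lit 1599) (nat_lit 111) (.e (nat_lit 360486) (nat_lit 18) (.e (nat_lit 671764) (nat_lit 6) (.e (nat_lit 81931) (nat_lit 20) (.e (nat_lit 1998) (nat_lit 137) (.e (nat_lit 663554) (nat_lit 0) .nil)))))) (.g (nat_lit 6) .nil .nil))))) (.nd (nat_lit 4) (.nd (nat_lit 5) 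
(.lf (nat_lit 66574) (.g (nat_lit 633) (.e (nat_lit 1599) (nat_lit 111) (.e (nat_lit 360475) (nat_lit 8) (.e (nat_lit 557119) (nat_lit 18) .nil))) .nil)) 
(.lf (nat_lit 66606) (.g (nat_lit 962) (.e (nat_lit 1599) (nat_lit 111) (.e (nat_lit 360480) (nat_lit 14) (.e (nat_lit 639001) (nat_lit 10) (.e (nat_lit 188441) (nat_lit 20) (.e (nat_lit 3390) (nat_lit 210) (.e (nat_lit 639007) (nat_lit 13) .nil)))))) (.g (nat_lit 0) .nil .nil)))) (.nd (nat_lit 5) 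
(.lf (nat_lit 66590) (.g (nat_lit 1524) (.e (nat_lit 1599) (nat_lit 111) (.e (nat_lit 360477) (nat_lit 11) (.e (nat_lit 581653) (nat_lit 6) (.e (nat_lit 188434) (nat_lit 20) (.e (nat_lit 3577) (nat_lit 223) .nil))))) .nil)) 
(.lf (nat_lit 66622) (.g (nat_lit 1194) (.e (nat_lit 1599) (nat_lit 111) (.e (nat_lit 360486) (nat_lit 18) (.e (nat_lit 671764) (nat_lit 6) (.e (nat_lit 81947) (nat_lit 20) (.e (nat_lit 2005) (nat_lit 138) .nil))))) .nil))))))) (.nd (nat_lit 1) (.nd (nat_lit 2) (.nd (nat_lit 3) (.nd (nat_lit 4) (.nd (nat_lit 5) 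
(.lf (nat_lit 66561) (.g (nat_lit 3663) (.e (nat_lit 1599) (nat_lit 111) (.e (nat_lit 360475) (nat_lit 8) (.e (nat_lit 557090) (nat_lit 12) (.e (nat_lit 163844) (nat_lit 0) .nil)))) .nil)) 
(.lf (nat_lit 66593) (.g (nat_lit 2106) (.e (nat_lit 1599) (nat_lit 111) (.e (nat_lit 360477) (nat_lit 11) (.e (nat_lit 581653) (nat_lit 6) (.e (nat_lit 188438) (nat_lit 20) (.e (nat_lit 3579) (nat_lit 223) (.e (nat_lit 745476) (nat_lit 0) .nil)))))) (.g (nat_lit 0) .nil .nil)))) (.nd (nat_lit 5) 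
(.lf (nat_lit 66577) (.g (nat_lit 2209) (.e (nat_lit 1599) (nat_lit 111) (.e (nat_lit 360475) (nat_lit 8) (.e (nat_lit 557119) (nat_lit 18) (.e (nat_lit 2797) (nat_lit 180) .nil)))) .nil)) 
(.lf (nat_lit 66609) (.g (nat_lit 679) (.e (nat_lit 1599) (nat_lit 111) (.e (nat_lit 360486) (nat_lit 18) (.e (nat_lit 671760) (nat_lit 4) (.e (nat_lit 65619) (nat_lit 10) .nil)))) .nil)))) (.nd (nat_lit 4) (.nd (nat_lit 5) 
(.lf (nat_lit 66569) (.g (nat_lit 2943) (.e (nat_lit 1599) (nat_lit 111) (.e (nat_lit 360475) (nat_lit 8) (.e (nat_lit 557091) (nat_lit 12) (.e (nat_lit 164022) (nat_lit 46) (.e (nat_lit 704738) (nat_lit 11) .nil))))) .nil)) 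
(.lf (nat_lit 66601) (.g (nat_lit 1542) (.e (nat_lit 1599) (nat_lit 111) (.e (nat_lit 360480) (nat_lit 14) (.e (nat_lit 638998) (nat_lit 8) (.e (nat_lit 172106) (nat_lit 10) (.e (nat_lit 434269) (nat_lit 36) (.e (nat_lit 639007) (nat_lit 13) .nil)))))) (.g (nat_lit 5) .nil .nil)))) (.nd (nat_lit 5) 
(.lf (nat_lit 66585) (.g (nat_lit 2462) (.e (nat_lit 1599) (nat_lit 111) (.e (nat_lit 360475) (nat_lit 8) (.e (nat_lit 557119) (nat_lit 18) (.e (nat_lit 2807) (nat_lit 180) (.e (nat_lit 303137) (nat_lit 10) (.e (nat_lit 434295) (nat_lit 49) (.e (nat_lit 745475) (nat_lit 0) .nil))))))) (.g (nat_lit 4) .nil .nil))) 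
(.lf (nat_lit 66617) (.g (nat_lit 721) (.e (nat_lit 1599) (nat_lit 111) (.e (nat_lit 360486) (nat_lit 18) (.e (nat_lit 671764) (nat_lit 6) (.e (nat_lit 81939) (nat_lit 20) .nil)))) .nil))))) (.nd (nat_lit 3) (.nd (nat_lit 4) (.nd (nat_lit 5) 
(.lf (nat_lit 66565) (.g (nat_lit 2552) (.e (nat_lit 1599) (nat_lit 111) (.e (nat_lit 360475) (nat_lit 8) (.e (nat_lit 557091) (nat_lit 12) (.e (nat_lit 163841) (nat_lit 0) .nil)))) .nil)) 
(.lf (nat_lit 66597) (.g (nat_lit 788) (.e (nat_lit 1599) (nat_lit 111) (.e (nat_lit 360479) (nat_lit 13) (.e (nat_lit 630801) (nat_lit 8) (.e (nat_lit 172112) (nat_lit 10) (.e (nat_lit 434269) (nat_lit 36) (.e (nat_lit 639008) (nat_lit 13) .nil)))))) (.g (nat_lit 0) .nil .nil)))) (.nd (nat_lit 5) 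
(.lf (nat_lit 66581) (.g (nat_lit 2615) (.e (nat_lit 1599) (nat_lit 111) (.e (nat_lit 360475) (nat_lit 8) (.e (nat_lit 557119) (nat_lit 18) (.e (nat_lit 2798) (nat_lit 180) (.e (nat_lit 303133) (nat_lit 9) (.e (nat_lit 426048) (nat_lit 0) (.e (nat_lit 3579) (nat_lit 223) (.e (nat_lit 745475) (nat_lit 0) .nil)))))))) (.g (nat_lit 4) .nil .nil))) 
(.lf (nat_lit 66613) (.g (nat_lit 388) (.e (nat_lit 1599) (nat_lit 111) (.e (nat_lit 360486) (nat_lit 18) (.e (nat_lit 671764) (nat_lit 6) .nil))) .nil)))) (.nd (nat_lit 4) (.nd (nat_lit 5) 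
(.lf (nat_lit 66573) (.g (nat_lit 1295) (.e (nat_lit 1599) (nat_lit 111) (.e (nat_lit 360475) (nat_lit 8) (.e (nat_lit 557118) (nat_lit 18) .nil))) .nil)) 
(.lf (nat_lit 66605) (.g (nat_lit 1132) (.e (nat_lit 1599) (nat_lit 111) (.e (nat_lit 360480) (nat_lit 14) (.e (nat_lit 638999) (nat_lit 8) (.e (nat_lit 172115) (nat_lit 10) (.e (nat_lit 434269) (nat_lit 36) (.e (nat_lit 639007) (nat_lit 13) .nil)))))) (.g (nat_lit 6) .nil .nil)))) (.nd (nat_lit 5) 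
(.lf (nat_lit 66589) (.g (nat_lit 1488) (.e (nat_lit 1599) (nat_lit 111) (.e (nat_lit 360477) (nat_lit 11) (.e (nat_lit 581651) (nat_lit 4) (.e (nat_lit 172113) (nat_lit 10) (.e (nat_lit 434295) (nat_lit 49) (.e (nat_lit 745475) (nat_lit 0) .nil)))))) (.g (nat_lit 4) .nil .nil))) 
(.lf (nat_lit 66621) (.g (nat_lit 1158) (.e (nat_lit 1599) (nat_lit 111) (.e (nat_lit 360486) (nat_lit 18) (.e (nat_lit 671764) (nat_lit 6) (.e (nat_lit 81946) (nat_lit 20) (.e (nat_lit 2005) (nat_lit 138) .nil))))) .nil)))))) (.nd (nat_lit 2) (.nd (nat_lit 3) (.nd (nat_lit 4) (.nd (nat_lit 5) 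
(.lf (nat_lit 66563) (.g (nat_lit 3366) (.e (nat_lit 1599) (nat_lit 111) (.e (nat_lit 360475) (nat_lit 8) (.e (nat_lit 557090) (nat_lit 12) (.e (nat_lit 164020) (nat_lit 45) (.e (nat_lit 696344) (nat_lit 8) .nil))))) .nil)) 
(.lf (nat_lit 66595) (.g (nat_lit 541) (.e (nat_lit 1599) (nat_lit 111) (.e (nat_lit 360477) (nat_lit 11) (.e (nat_lit 589568) (nat_lit 6) .nil))) .nil))) (.nd (nat_lit 5) 
(.lf (nat_lit 66579) (.g (nat_lit 2493) (.e (nat_lit 1599) (nat_lit 111) (.e (nat_lit 360475) (nat_lit 8) (.e (nat_lit 557119) (nat_lit 18) (.e (nat_lit 2798) (nat_lit 180) (.e (nat_lit 303133) (nat_lit 9) .nil))))) .nil)) 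
(.lf (nat_lit 66611) (.g (nat_lit 1704) (.e (nat_lit 1599) (nat_lit 111) (.e (nat_lit 360486) (nat_lit 18) (.e (nat_lit 671762) (nat_lit 4) (.e (nat_lit 65611) (nat_lit 10) (.e (nat_lit 344168) (nat_lit 40) .nil))))) .nil)))) (.nd (nat_lit 4) (.nd (nat_lit 5) 
(.lf (nat_lit 66571) (.g (nat_lit 3616) (.e (nat_lit 1599) (nat_lit 111) (.e (nat_lit 360475) (nat_lit 8) (.e (nat_lit 557091) (nat_lit 12) (.e (nat_lit 164022) (nat_lit 46) (.e (nat_lit 704738) (nat_lit 11) (.e (nat_lit 16412) (nat_lit 2) (.e (nat_lit 196626) (nat_lit 9) .nil))))))) (.g (nat_lit 5) .nil .nil))) 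
(.lf (nat_lit 66603) (.g (nat_lit 1184) (.e (nat_lit 1599) (nat_lit 111) (.e (nat_lit 360480) (nat_lit 14) (.e (nat_lit 638999) (nat_lit 8) (.e (nat_lit 172106) (nat_lit 10) (.e (nat_lit 434269) (nat_lit 36) (.e (nat_lit 639007) (nat_lit 13) .nil)))))) (.g (nat_lit 0) .nil .nil)))) (.nd (nat_lit 5) 
(.lf (nat_lit 66587) (.g (nat_lit 566) (.e (nat_lit 1599) (nat_lit 111) (.e (nat_lit 360477) (nat_lit 11) (.e (nat_lit 581635) (nat_lit 0) .nil))) .nil)) 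
(.lf (nat_lit 66619) (.g (nat_lit 740) (.e (nat_lit 1599) (nat_lit 111) (.e (nat_lit 360486) (nat_lit 18) (.e (nat_lit 671764) (nat_lit 6) (.e (nat_lit 81943) (nat_lit 20) .nil)))) .nil))))) (.nd (nat_lit 3) (.nd (nat_lit 4) (.nd (nat_lit 5) 
(.lf (nat_lit 66567) (.g (nat_lit 2594) (.e (nat_lit 1599) (nat_lit 111) (.e (nat_lit 360475) (nat_lit 8) (.e (nat_lit 557091) (nat_lit 12) (.e (nat_lit 163844) (nat_lit 0) .nil)))) .nil)) 
(.lf (nat_lit 66599) (.g (nat_lit 1166) (.e (nat_lit 1599) (nat_lit 111) (.e (nat_lit 360479) (nat_lit 13) (.e (nat_lit 630801) (nat_lit 8) (.e (nat_lit 172113) (nat_lit 10) (.e (nat_lit 434269) (nat_lit 36) (.e (nat_lit 639008) (nat_lit 13) .nil)))))) (.g (nat_lit 6) .nil .nil)))) (.nd (nat_lit 5) 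
(.lf (nat_lit 66583) (.g (nat_lit 2643) (.e (nat_lit 1599) (nat_lit 111) (.e (nat_lit 360475) (nat_lit 8) (.e (nat_lit 557119) (nat_lit 18) (.e (nat_lit 2798) (nat_lit 180) (.e (nat_lit 303140) (nat_lit 10) .nil))))) .nil)) 
(.lf (nat_lit 66615) (.g (nat_lit 2078) (.e (nat_lit 1599) (nat_lit 111) (.e (nat_lit 360486) (nat_lit 18) (.e (nat_lit 671764) (nat_lit 6) (.e (nat_lit 81935) (nat_lit 20) (.e (nat_lit 1998) (nat_lit 137) (.e (nat_lit 663554) (nat_lit 0) .nil)))))) (.g (nat_lit 6) .nil .nil))))) (.nd (nat_lit 4) (.nd (nat_lit 5) 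
(.lf (nat_lit 66575) (.g (nat_lit 2228) (.e (nat_lit 1599) (nat_lit 111) (.e (nat_lit 360475) (nat_lit 8) (.e (nat_lit 557119) (nat_lit 18) (.e (nat_lit 2449) (nat_lit 157) .nil)))) .nil)) 
(.lf (nat_lit 66607) (.g (nat_lit 2922) (.e (nat_lit 1599) (nat_lit 111) (.e (nat_lit 360483) (nat_lit 15) (.e (nat_lit 647199) (nat_lit 11) (.e (nat_lit 16448) (nat_lit 10) (.e (nat_lit 434268) (nat_lit 36) (.e (nat_lit 639007) (nat_lit 13) .nil)))))) (.g (nat_lit 6) .nil .nil)))) (.nd (nat_lit 5) 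
(.lf (nat_lit 66591) (.g (nat_lit 2745) (.e (nat_lit 1599) (nat_lit 111) (.e (nat_lit 360477) (nat_lit 11) (.e (nat_lit 581653) (nat_lit 6) (.e (nat_lit 188434) (nat_lit 20) (.e (nat_lit 3579) (nat_lit 223) (.e (nat_lit 745476) (nat_lit 0) .nil)))))) (.g (nat_lit 0) .nil .nil))) 
(.lf (nat_lit 66623) (.g (nat_lit 1635) (.e (nat_lit 1599) (nat_lit 111) (.e (nat_lit 360488) (nat_lit 20) (.e (nat_lit 761866) (nat_lit 5) (.e (nat_lit 1597) (nat_lit 111) (.e (nat_lit 360489) (nat_lit 21) (.e (nat_lit 770057) (nat_lit 5) .nil)))))) (.g (nat_lit 6) .nil .nil)))))))))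

noncomputable def tv921 : DT := (.nd (nat_lit 0) (.nd (nat_lit 1) (.nd (nat_lit 2) (.nd (nat_lit 3) (.nd (nat_lit 4) (.nd (nat_lit 5) 
(.lf (nat_lit 66624) (.g (nat_lit 233) (.e (nat_lit 1599) (nat_lit 111) (.e (nat_lit 360488) (nat_lit 20) (.e (nat_lit 769792) (nat_lit 10) .nil))) .nil)) 
(.lf (nat_lit 66656) (.g (nat_lit 1625) (.e (nat_lit 1599) (nat_lit 111) (.e (nat_lit 360491) (nat_lit 22) (.e (nat_lit 778466) (nat_lit 11) (.e (nat_lit 24641) (nat_lit 10) (.e (nat_lit 344175) (nat_lit 43) .nil))))) .nil))) (.nd (nat_lit 5) 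
(.lf (nat_lit 66640) (.g (nat_lit 733) (.e (nat_lit 1599) (nat_lit 111) (.e (nat_lit 360489) (nat_lit 21) (.e (nat_lit 770074) (nat_lit 10) (.e (nat_lit 81947) (nat_lit 20) .nil)))) .nil)) 
(.lf (nat_lit 66672) (.g (nat_lit 2759) (.e (nat_lit 7936) (nat_lit 111) (.e (nat_lit 360473) (nat_lit 8) (.e (nat_lit 557090) (nat_lit 12) (.e (nat_lit 164022) (nat_lit 46) (.e (nat_lit 704738) (nat_lit 11) .nil))))) .nil)))) (.nd (nat_lit 4) (.nd (nat_lit 5) 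
(.lf (nat_lit 66632) (.g (nat_lit 1894) (.e (nat_lit 1599) (nat_lit 111) (.e (nat_lit 360489) (nat_lit 21) (.e (nat_lit 770072) (nat_lit 8) (.e (nat_lit 65620) (nat_lit 10) (.e (nat_lit 344177) (nat_lit 43) (.e (nat_lit 770057) (nat_lit 5) .nil)))))) (.g (nat_lit 6) .nil .nil))) 
(.lf (nat_lit 66664) (.g (nat_lit 1990) (.e (nat_lit 7936) (nat_lit 111) (.e (nat_lit 360467) (nat_lit 3) (.e (nat_lit 516139) (nat_lit 7) (.e (nat_lit 409645) (nat_lit 18) .nil)))) .nil))) (.nd (nat_lit 5) 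
(.lf (nat_lit 66648) (.g (nat_lit 1421) (.e (nat_lit 1599) (nat_lit 111) (.e (nat_lit 360491) (nat_lit 22) (.e (nat_lit 778465) (nat_lit 11) (.e (nat_lit 24641) (nat_lit 10) (.e (nat_lit 344177) (nat_lit 43) .nil))))) .nil)) 
(.lf (nat_lit 66680) (.g (nat_lit 2446) (.e (nat_lit 7936) (nat_lit 111) (.e (nat_lit 360474) (nat_lit 8) (.e (nat_lit 557093) (nat_lit 12) (.e (nat_lit 164023) (nat_lit 46) (.e (nat_lit 704738) (nat_lit 11) .nil))))) .nil))))) (.nd (nat_lit 3) (.nd (nat_lit 4) (.nd (nat_lit 5) 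
(.lf (nat_lit 66628) (.g (nat_lit 1729) (.e (nat_lit 1599) (nat_lit 111) (.e (nat_lit 360489) (nat_lit 21) (.e (nat_lit 770071) (nat_lit 8) (.e (nat_lit 65616) (nat_lit 10) (.e (nat_lit 344177) (nat_lit 43) (.e (nat_lit 770058) (nat_lit 5) .nil)))))) (.g (nat_lit 5) .nil .nil))) 
(.lf (nat_lit 66660) (.g (nat_lit 192) (.e (nat_lit 1599) (nat_lit 111) (.e (nat_lit 360493) (nat_lit 27) (.e (nat_lit 819221) (nat_lit 6) (.e (nat_lit 188438) (nat_lit 20) .nil)))) .nil))) (.nd (nat_lit 5) 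
(.lf (nat_lit 66644) (.g (nat_lit 2444) (.e (nat_lit 1599) (nat_lit 111) (.e (nat_lit 360491) (nat_lit 22) (.e (nat_lit 778465) (nat_lit 11) (.e (nat_lit 24639) (nat_lit 10) (.e (nat_lit 344177) (nat_lit 43) (.e (nat_lit 770057) (nat_lit 5) .nil)))))) (.g (nat_lit 6) .nil .nil))) 
(.lf (nat_lit 66676) (.g (nat_lit 2579) (.e (nat_lit 7936) (nat_lit 111) (.e (nat_lit 360474) (nat_lit 8) (.e (nat_lit 557091) (nat_lit 12) (.e (nat_lit 164022) (nat_lit 46) (.e (nat_lit 704738) (nat_lit 11) .nil))))) .nil)))) (.nd (nat_lit 4) (.nd (nat_lit 5) 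
(.lf (nat_lit 66636) (.g (nat_lit 746) (.e (nat_lit 1599) (nat_lit 111) (.e (nat_lit 360489) (nat_lit 21) (.e (nat_lit 770074) (nat_lit 10) (.e (nat_lit 81943) (nat_lit 20) .nil)))) .nil)) 
(.lf (nat_lit 66668) (.g (nat_lit 562) (.e (nat_lit 7936) (nat_lit 111) (.e (nat_lit 360467) (nat_lit 3) (.e (nat_lit 516142) (nat_lit 8) .nil))) .nil))) (.nd (nat_lit 5) 
(.lf (nat_lit 66652) (.g (nat_lit 2767) (.e (nat_lit 1599) (nat_lit 111) (.e (nat_lit 360491) (nat_lit 22) (.e (nat_lit 778466) (nat_lit 11) (.e (nat_lit 24640) (nat_lit 10) (.e (nat_lit 344176) (nat_lit 43) (.e (nat_lit 770057) (nat_lit 5) .nil)))))) (.g (nat_lit 6) .nil .nil))) 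
(.lf (nat_lit 66684) (.g (nat_lit 2946) (.e (nat_lit 7936) (nat_lit 111) (.e (nat_lit 360475) (nat_lit 8) (.e (nat_lit 557090) (nat_lit 12) (.e (nat_lit 164022) (nat_lit 46) (.e (nat_lit 704736) (nat_lit 11) .nil))))) .nil)))))) (.nd (nat_lit 2) (.nd (nat_lit 3) (.nd (nat_lit 4) (.nd (nat_lit 5) 
(.lf (nat_lit 66626) (.g (nat_lit 1802) (.e (nat_lit 1599) (nat_lit 111) (.e (nat_lit 360489) (nat_lit 21) (.e (nat_lit 770057) (nat_lit 5) (.e (nat_lit 1589) (nat_lit 111) (.e (nat_lit 360489) (nat_lit 21) (.e (nat_lit 770058) (nat_lit 5) .nil)))))) (.g (nat_lit 6) .nil .nil))) 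
(.lf (nat_lit 66658) (.g (nat_lit 2211) (.e (nat_lit 1599) (nat_lit 111) (.e (nat_lit 360491) (nat_lit 22) (.e (nat_lit 778466) (nat_lit 11) (.e (nat_lit 24641) (nat_lit 10) (.e (nat_lit 344177) (nat_lit 43) (.e (nat_lit 770058) (nat_lit 5) .nil)))))) (.g (nat_lit 6) .nil .nil)))) (.nd (nat_lit 5) 
(.lf (nat_lit 66642) (.g (nat_lit 1483) (.e (nat_lit 1599) (nat_lit 111) (.e (nat_lit 360491) (nat_lit 22) (.e (nat_lit 778464) (nat_lit 11) (.e (nat_lit 24640) (nat_lit 10) (.e (nat_lit 344175) (nat_lit 43) (.e (nat_lit 770057) (nat_lit 5) .nil)))))) (.g (nat_lit 4) .nil .nil))) 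
(.lf (nat_lit 66674) (.g (nat_lit 2013) (.e (nat_lit 7936) (nat_lit 111) (.e (nat_lit 360474) (nat_lit 8) (.e (nat_lit 557091) (nat_lit 12) (.e (nat_lit 164022) (nat_lit 46) .nil)))) .nil)))) (.nd (nat_lit 4) (.nd (nat_lit 5) 
(.lf (nat_lit 66634) (.g (nat_lit 1462) (.e (nat_lit 1599) (nat_lit 111) (.e (nat_lit 360489) (nat_lit 21) (.e (nat_lit 770074) (nat_lit 10) (.e (nat_lit 81942) (nat_lit 20) (.e (nat_lit 2280) (nat_lit 150) (.e (nat_lit 770057) (nat_lit 5) .nil)))))) (.g (nat_lit 6) .nil .nil))) 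
(.lf (nat_lit 66666) (.g (nat_lit 2577) (.e (nat_lit 7936) (nat_lit 111) (.e (nat_lit 360467) (nat_lit 3) (.e (nat_lit 516139) (nat_lit 7) (.e (nat_lit 409647) (nat_lit 18) (.e (nat_lit 303117) (nat_lit 2) .nil))))) .nil))) (.nd (nat_lit 5) 
(.lf (nat_lit 66650) (.g (nat_lit 2029) (.e (nat_lit 1599) (nat_lit 111) (.e (nat_lit 360491) (nat_lit 22) (.e (nat_lit 778466) (nat_lit 11) (.e (nat_lit 24640) (nat_lit 10) (.e (nat_lit 344175) (nat_lit 43) (.e (nat_lit 770057) (nat_lit 5) .nil)))))) (.g (nat_lit 5) .nil .nil))) 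
(.lf (nat_lit 66682) (.g (nat_lit 1980) (.e (nat_lit 7936) (nat_lit 111) (.e (nat_lit 360474) (nat_lit 8) (.e (nat_lit 557094) (nat_lit 12) (.e (nat_lit 164022) (nat_lit 46) (.e (nat_lit 704738) (nat_lit 11) .nil))))) .nil))))) (.nd (nat_lit 3) (.nd (nat_lit 4) (.nd (nat_lit 5) 
(.lf (nat_lit 66630) (.g (nat_lit 700) (.e (nat_lit 1599) (nat_lit 111) (.e (nat_lit 360489) (nat_lit 21) (.e (nat_lit 770072) (nat_lit 8) (.e (nat_lit 65616) (nat_lit 10) .nil)))) .nil)) 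
(.lf (nat_lit 66662) (.g (nat_lit 2097) (.e (nat_lit 7936) (nat_lit 111) (.e (nat_lit 360466) (nat_lit 3) (.e (nat_lit 516139) (nat_lit 7) (.e (nat_lit 409648) (nat_lit 18) (.e (nat_lit 303116) (nat_lit 2) .nil))))) .nil))) (.nd (nat_lit 5) 
(.lf (nat_lit 66646) (.g (nat_lit 1513) (.e (nat_lit 1599) (nat_lit 111) (.e (nat_lit 360491) (nat_lit 22) (.e (nat_lit 778465) (nat_lit 11) (.e (nat_lit 24640) (nat_lit 10) (.e (nat_lit 344175) (nat_lit 43) (.e (nat_lit 770057) (nat_lit 5) .nil)))))) (.g (nat_lit 4) .nil .nil))) 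
(.lf (nat_lit 66678) (.g (nat_lit 2471) (.e (nat_lit 7936) (nat_lit 111) (.e (nat_lit 360474) (nat_lit 8) (.e (nat_lit 557093) (nat_lit 12) (.e (nat_lit 164022) (nat_lit 46) (.e (nat_lit 704737) (nat_lit 11) .nil))))) .nil)))) (.nd (nat_lit 4) (.nd (nat_lit 5) 
(.lf (nat_lit 66638) (.g (nat_lit 746) (.e (nat_lit 1599) (nat_lit 111) (.e (nat_lit 360489) (nat_lit 21) (.e (nat_lit 770074) (nat_lit 10) (.e (nat_lit 81946) (nat_lit 20) .nil)))) .nil)) 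
(.lf (nat_lit 66670) (.g (nat_lit 1731) (.e (nat_lit 7936) (nat_lit 111) (.e (nat_lit 360473) (nat_lit 8) (.e (nat_lit 557090) (nat_lit 12) (.e (nat_lit 164022) (nat_lit 46) .nil)))) .nil))) (.nd (nat_lit 5) 
(.lf (nat_lit 66654) (.g (nat_lit 2729) (.e (nat_lit 1599) (nat_lit 111) (.e (nat_lit 360491) (nat_lit 22) (.e (nat_lit 778466) (nat_lit 11) (.e (nat_lit 24640) (nat_lit 10) (.e (nat_lit 344177) (nat_lit 43) (.e (nat_lit 770057) (nat_lit 5) .nil)))))) (.g (nat_lit 6) .nil .nil))) 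
(.lf (nat_lit 66686) (.g (nat_lit 3010) (.e (nat_lit 7936) (nat_lit 111) (.e (nat_lit 360475) (nat_lit 8) (.e (nat_lit 557090) (nat_lit 12) (.e (nat_lit 164022) (nat_lit 46) (.e (nat_lit 704738) (nat_lit 11) .nil))))) .nil))))))) (.nd (nat_lit 1) (.nd (nat_lit 2) (.nd (nat_lit 3) (.nd (nat_lit 4) (.nd (nat_lit 5) 
(.lf (nat_lit 66625) (.g (nat_lit 1747) (.e (nat_lit 1599) (nat_lit 111) (.e (nat_lit 360489) (nat_lit 21) (.e (nat_lit 770057) (nat_lit 5) (.e (nat_lit 1589) (nat_lit 111) (.e (nat_lit 360489) (nat_lit 21) (.e (nat_lit 770057) (nat_lit 5) .nil)))))) (.g (nat_lit 6) .nil .nil))) 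
(.lf (nat_lit 66657) (.g (nat_lit 2328) (.e (nat_lit 1599) (nat_lit 111) (.e (nat_lit 360491) (nat_lit 22) (.e (nat_lit 778466) (nat_lit 11) (.e (nat_lit 24641) (nat_lit 10) (.e (nat_lit 344177) (nat_lit 43) (.e (nat_lit 770057) (nat_lit 5) .nil)))))) (.g (nat_lit 6) .nil .nil)))) (.nd (nat_lit 5) 
(.lf (nat_lit 66641) (.g (nat_lit 365) (.e (nat_lit 1599) (nat_lit 111) (.e (nat_lit 360490) (nat_lit 22) (.e (nat_lit 778339) (nat_lit 9) (.e (nat_lit 320) (nat_lit 24) .nil)))) .nil)) 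
(.lf (nat_lit 66673) (.g (nat_lit 1932) (.e (nat_lit 7936) (nat_lit 111) (.e (nat_lit 360473) (nat_lit 8) (.e (nat_lit 557091) (nat_lit 12) (.e (nat_lit 164022) (nat_lit 46) (.e (nat_lit 704737) (nat_lit 11) .nil))))) .nil)))) (.nd (nat_lit 4) (.nd (nat_lit 5) 
(.lf (nat_lit 66633) (.g (nat_lit 1740) (.e (nat_lit 1599) (nat_lit 111) (.e (nat_lit 360489) (nat_lit 21) (.e (nat_lit 770074) (nat_lit 10) (.e (nat_lit 81938) (nat_lit 20) (.e (nat_lit 2280) (nat_lit 150) (.e (nat_lit 770057) (nat_lit 5) .nil)))))) (.g (nat_lit 6) .nil .nil))) 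
(.lf (nat_lit 66665) (.g (nat_lit 2853) (.e (nat_lit 7936) (nat_lit 111) (.e (nat_lit 360467) (nat_lit 3) (.e (nat_lit 516139) (nat_lit 7) (.e (nat_lit 409646) (nat_lit 18) (.e (nat_lit 303117) (nat_lit 2) .nil))))) .nil))) (.nd (nat_lit 5) 
(.lf (nat_lit 66649) (.g (nat_lit 3844) (.e (nat_lit 1599) (nat_lit 111) (.e (nat_lit 360491) (nat_lit 22) (.e (nat_lit 778465) (nat_lit 11) (.e (nat_lit 24665) (nat_lit 14) (.e (nat_lit 401414) (nat_lit 0) (.e (nat_lit 3459) (nat_lit 216) (.e (nat_lit 688151) (nat_lit 13) .nil))))))) (.g (nat_lit 0) .nil .nil))) 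
(.lf (nat_lit 66681) (.g (nat_lit 1472) (.e (nat_lit 7936) (nat_lit 111) (.e (nat_lit 360474) (nat_lit 8) (.e (nat_lit 557094) (nat_lit 12) (.e (nat_lit 164022) (nat_lit 46) .nil)))) .nil))))) (.nd (nat_lit 3) (.nd (nat_lit 4) (.nd (nat_lit 5) 
(.lf (nat_lit 66629) (.g (nat_lit 2440) (.e (nat_lit 1599) (nat_lit 111) (.e (nat_lit 360489) (nat_lit 21) (.e (nat_lit 770072) (nat_lit 8) (.e (nat_lit 65610) (nat_lit 10) (.e (nat_lit 344177) (nat_lit 43) (.e (nat_lit 770057) (nat_lit 5) .nil)))))) (.g (nat_lit 0) .nil .nil))) 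
(.lf (nat_lit 66661) (.g (nat_lit 723) (.e (nat_lit 1599) (nat_lit 111) (.e (nat_lit 360493) (nat_lit 27) (.e (nat_lit 819221) (nat_lit 6) (.e (nat_lit 188439) (nat_lit 20) (.e (nat_lit 3288) (nat_lit 201) (.e (nat_lit 565252) (nat_lit 0) .nil)))))) (.g (nat_lit 6) .nil .nil)))) (.nd (nat_lit 5) 
(.lf (nat_lit 66645) (.g (nat_lit 2327) (.e (nat_lit 1599) (nat_lit 111) (.e (nat_lit 360491) (nat_lit 22) (.e (nat_lit 778465) (nat_lit 11) (.e (nat_lit 24639) (nat_lit 10) (.e (nat_lit 344177) (nat_lit 43) (.e (nat_lit 770058) (nat_lit 5) .nil)))))) (.g (nat_lit 0) .nil .nil))) 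
(.lf (nat_lit 66677) (.g (nat_lit 1619) (.e (nat_lit 7936) (nat_lit 111) (.e (nat_lit 360474) (nat_lit 8) (.e (nat_lit 557093) (nat_lit 12) (.e (nat_lit 164022) (nat_lit 46) .nil)))) .nil)))) (.nd (nat_lit 4) (.nd (nat_lit 5) 
(.lf (nat_lit 66637) (.g (nat_lit 1860) (.e (nat_lit 1599) (nat_lit 111) (.e (nat_lit 360489) (nat_lit 21) (.e (nat_lit 770074) (nat_lit 10) (.e (nat_lit 81943) (nat_lit 20) (.e (nat_lit 2281) (nat_lit 150) (.e (nat_lit 770057) (nat_lit 5) .nil)))))) (.g (nat_lit 0) .nil .nil))) 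
(.lf (nat_lit 66669) (.g (nat_lit 785) (.e (nat_lit 7936) (nat_lit 111) (.e (nat_lit 360468) (nat_lit 3) (.e (nat_lit 516139) (nat_lit 7) (.e (nat_lit 409648) (nat_lit 18) .nil)))) .nil))) (.nd (nat_lit 5) 
(.lf (nat_lit 66653) (.g (nat_lit 2707) (.e (nat_lit 1599) (nat_lit 111) (.e (nat_lit 360491) (nat_lit 22) (.e (nat_lit 778466) (nat_lit 11) (.e (nat_lit 24640) (nat_lit 10) (.e (nat_lit 344176) (nat_lit 43) (.e (nat_lit 770058) (nat_lit 5) .nil)))))) (.g (nat_lit 6) .nil .nil))) 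
(.lf (nat_lit 66685) (.g (nat_lit 2958) (.e (nat_lit 7936) (nat_lit 111) (.e (nat_lit 360475) (nat_lit 8) (.e (nat_lit 557090) (nat_lit 12) (.e (nat_lit 164022) (nat_lit 46) (.e (nat_lit 704737) (nat_lit 11) .nil))))) .nil)))))) (.nd (nat_lit 2) (.nd (nat_lit 3) (.nd (nat_lit 4) (.nd (nat_lit 5) 
(.lf (nat_lit 66627) (.g (nat_lit 1104) (.e (nat_lit 1599) (nat_lit 111) (.e (nat_lit 360489) (nat_lit 21) (.e (nat_lit 770057) (nat_lit 5) (.e (nat_lit 1599) (nat_lit 111) (.e (nat_lit 360489) (nat_lit 21) (.e (nat_lit 770057) (nat_lit 5) .nil)))))) (.g (nat_lit 6) .nil .nil))) 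
(.lf (nat_lit 66659) (.g (nat_lit 196) (.e (nat_lit 1599) (nat_lit 111) (.e (nat_lit 360493) (nat_lit 27) (.e (nat_lit 819221) (nat_lit 6) (.e (nat_lit 188435) (nat_lit 20) .nil)))) .nil))) (.nd (nat_lit 5) 
(.lf (nat_lit 66643) (.g (nat_lit 2229) (.e (nat_lit 1599) (nat_lit 111) (.e (nat_lit 360491) (nat_lit 22) (.e (nat_lit 778464) (nat_lit 11) (.e (nat_lit 24640) (nat_lit 10) (.e (nat_lit 344177) (nat_lit 43) (.e (nat_lit 770058) (nat_lit 5) .nil)))))) (.g (nat_lit 6) .nil .nil))) 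
(.lf (nat_lit 66675) (.g (nat_lit 2687) (.e (nat_lit 7936) (nat_lit 111) (.e (nat_lit 360474) (nat_lit 8) (.e (nat_lit 557091) (nat_lit 12) (.e (nat_lit 164022) (nat_lit 46) (.e (nat_lit 704737) (nat_lit 11) .nil))))) .nil)))) (.nd (nat_lit 4) (.nd (nat_lit 5) 
(.lf (nat_lit 66635) (.g (nat_lit 1653) (.e (nat_lit 1599) (nat_lit 111) (.e (nat_lit 360489) (nat_lit 21) (.e (nat_lit 770074) (nat_lit 10) (.e (nat_lit 81942) (nat_lit 20) (.e (nat_lit 2281) (nat_lit 150) (.e (nat_lit 770057) (nat_lit 5) .nil)))))) (.g (nat_lit 6) .nil .nil))) 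
(.lf (nat_lit 66667) (.g (nat_lit 2436) (.e (nat_lit 7936) (nat_lit 111) (.e (nat_lit 360467) (nat_lit 3) (.e (nat_lit 516139) (nat_lit 7) (.e (nat_lit 409649) (nat_lit 18) (.e (nat_lit 303116) (nat_lit 2) .nil))))) .nil))) (.nd (nat_lit 5) 
(.lf (nat_lit 66651) (.g (nat_lit 2333) (.e (nat_lit 1599) (nat_lit 111) (.e (nat_lit 360491) (nat_lit 22) (.e (nat_lit 778466) (nat_lit 11) (.e (nat_lit 24640) (nat_lit 10) (.e (nat_lit 344176) (nat_lit 43) (.e (nat_lit 770054) (nat_lit 5) .nil)))))) (.g (nat_lit 5) .nil .nil))) 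
(.lf (nat_lit 66683) (.g (nat_lit 1557) (.e (nat_lit 7936) (nat_lit 111) (.e (nat_lit 360475) (nat_lit 8) (.e (nat_lit 557090) (nat_lit 12) (.e (nat_lit 164020) (nat_lit 45) (.e (nat_lit 696343) (nat_lit 8) .nil))))) .nil))))) (.nd (nat_lit 3) (.nd (nat_lit 4) (.nd (nat_lit 5) 
(.lf (nat_lit 66631) (.g (nat_lit 1920) (.e (nat_lit 1599) (nat_lit 111) (.e (nat_lit 360489) (nat_lit 21) (.e (nat_lit 770072) (nat_lit 8) (.e (nat_lit 65616) (nat_lit 10) (.e (nat_lit 344177) (nat_lit 43) (.e (nat_lit 770057) (nat_lit 5) .nil)))))) (.g (nat_lit 6) .nil .nil))) 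
(.lf (nat_lit 66663) (.g (nat_lit 1599) (.e (nat_lit 7936) (nat_lit 111) (.e (nat_lit 360467) (nat_lit 3) (.e (nat_lit 516139) (nat_lit 7) (.e (nat_lit 409623) (nat_lit 10) .nil)))) .nil))) (.nd (nat_lit 5) 
(.lf (nat_lit 66647) (.g (nat_lit 2601) (.e (nat_lit 1599) (nat_lit 111) (.e (nat_lit 360491) (nat_lit 22) (.e (nat_lit 778465) (nat_lit 11) (.e (nat_lit 24640) (nat_lit 10) (.e (nat_lit 344177) (nat_lit 43) (.e (nat_lit 770057) (nat_lit 5) .nil)))))) (.g (nat_lit 6) .nil .nil))) 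
(.lf (nat_lit 66679) (.g (nat_lit 1944) (.e (nat_lit 7936) (nat_lit 111) (.e (nat_lit 360474) (nat_lit 8) (.e (nat_lit 557093) (nat_lit 12) (.e (nat_lit 164023) (nat_lit 46) .nil)))) .nil)))) (.nd (nat_lit 4) (.nd (nat_lit 5) 
(.lf (nat_lit 66639) (.g (nat_lit 2030) (.e (nat_lit 1599) (nat_lit 111) (.e (nat_lit 360489) (nat_lit 21) (.e (nat_lit 770074) (nat_lit 10) (.e (nat_lit 81946) (nat_lit 20) (.e (nat_lit 2281) (nat_lit 150) (.e (nat_lit 770057) (nat_lit 5) .nil)))))) (.g (nat_lit 0) .nil .nil))) 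
(.lf (nat_lit 66671) (.g (nat_lit 2614) (.e (nat_lit 7936) (nat_lit 111) (.e (nat_lit 360473) (nat_lit 8) (.e (nat_lit 557090) (nat_lit 12) (.e (nat_lit 164022) (nat_lit 46) (.e (nat_lit 704736) (nat_lit 11) .nil))))) .nil))) (.nd (nat_lit 5) 
(.lf (nat_lit 66655) (.g (nat_lit 2549) (.e (nat_lit 1599) (nat_lit 111) (.e (nat_lit 360491) (nat_lit 22) (.e (nat_lit 778466) (nat_lit 11) (.e (nat_lit 24640) (nat_lit 10) (.e (nat_lit 344177) (nat_lit 43) (.e (nat_lit 770058) (nat_lit 5) .nil)))))) (.g (nat_lit 6) .nil .nil))) 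
(.lf (nat_lit 66687) (.g (nat_lit 1959) (.e (nat_lit 7936) (nat_lit 111) (.e (nat_lit 360475) (nat_lit 8) (.e (nat_lit 557090) (nat_lit 12) (.e (nat_lit 171776) (nat_lit 48) .nil)))) .nil))))))))

noncomputable def tv922 : DT := (.nd (nat_lit 0) (.nd (nat_lit 1) (.nd (nat_lit 2) (.nd (nat_lit 3) (.nd (nat_lit 4) (.nd (nat_lit 5) (.nd (nat_lit 6) 
(.lf (nat_lit 66688) (.g (nat_lit 1635) (.e (nat_lit 7936) (nat_lit 111) (.e (nat_lit 360475) (nat_lit 8) (.e (nat_lit 557091) (nat_lit 12) (.e (nat_lit 164022) (nat_lit 46) .nil)))) .nil)) 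
(.lf (nat_lit 66752) (.g (nat_lit 2300) (.e (nat_lit 1615) (nat_lit 113) (.e (nat_lit 376859) (nat_lit 21) (.e (nat_lit 57872) (nat_lit 264) (.e (nat_lit 1190) (nat_lit 88) (.e (nat_lit 65619) (nat_lit 10) (.e (nat_lit 344168) (nat_lit 40) (.e (nat_lit 671744) (nat_lit 0) .nil))))))) (.g (nat_lit 5) .nil .nil)))) (.nd (nat_lit 6) 
(.lf (nat_lit 66720) (.g (nat_lit 1813) (.e (nat_lit 1606) (nat_lit 112) (.e (nat_lit 368676) (nat_lit 21) (.e (nat_lit 516174) (nat_lit 14) (.e (nat_lit 466974) (nat_lit 22) .nil)))) .nil)) 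
(.lf (nat_lit 66784) (.g (nat_lit 622) (.e (nat_lit 1615) (nat_lit 113) (.e (nat_lit 376862) (nat_lit 22) (.e (nat_lit 90172) (nat_lit 14) .nil))) .nil)))) (.nd (nat_lit 5) (.nd (nat_lit 6) 
(.lf (nat_lit 66704) (.g (nat_lit 2556) (.e (nat_lit 1604) (nat_lit 112) (.e (nat_lit 368676) (nat_lit 21) (.e (nat_lit 516176) (nat_lit 14) (.e (nat_lit 466977) (nat_lit 22) .nil)))) .nil)) 
(.lf (nat_lit 66768) (.g (nat_lit 1262) (.e (nat_lit 1615) (nat_lit 113) (.e (nat_lit 376860) (nat_lit 21) (.e (nat_lit 57830) (nat_lit 250) (.e (nat_lit 7936) (nat_lit 166) .nil)))) .nil))) (.nd (nat_lit 6) 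
(.lf (nat_lit 66736) (.g (nat_lit 2783) (.e (nat_lit 1613) (nat_lit 113) (.e (nat_lit 376867) (nat_lit 23) (.e (nat_lit 98350) (nat_lit 24) (.e (nat_lit 409645) (nat_lit 18) (.e (nat_lit 303117) (nat_lit 2) .nil))))) .nil)) 
(.lf (nat_lit 66800) (.g (nat_lit 1545) (.e (nat_lit 1615) (nat_lit 113) (.e (nat_lit 376862) (nat_lit 22) (.e (nat_lit 90185) (nat_lit 17) (.e (nat_lit 237585) (nat_lit 1) (.e (nat_lit 164307) (nat_lit 226) .nil))))) .nil))))) (.nd (nat_lit 4) (.nd (nat_lit 5) (.nd (nat_lit 6) 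
(.lf (nat_lit 66696) (.g (nat_lit 1809) (.e (nat_lit 1604) (nat_lit 112) (.e (nat_lit 368676) (nat_lit 21) (.e (nat_lit 516097) (nat_lit 0) (.e (nat_lit 7593) (nat_lit 407) .nil)))) .nil)) 
(.lf (nat_lit 66760) (.g (nat_lit 1779) (.e (nat_lit 1615) (nat_lit 113) (.e (nat_lit 376859) (nat_lit 21) (.e (nat_lit 57872) (nat_lit 264) (.e (nat_lit 1221) (nat_lit 90) (.e (nat_lit 81938) (nat_lit 20) (.e (nat_lit 2006) (nat_lit 138) (.e (nat_lit 671744) (nat_lit 0) .nil))))))) (.g (nat_lit 4) .nil .nil)))) (.nd (nat_lit 6) 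
(.lf (nat_lit 66728) (.g (nat_lit 1999) (.e (nat_lit 1606) (nat_lit 112) (.e (nat_lit 368676) (nat_lit 21) (.e (nat_lit 516176) (nat_lit 14) (.e (nat_lit 466977) (nat_lit 22) .nil)))) .nil)) 
(.lf (nat_lit 66792) (.g (nat_lit 571) (.e (nat_lit 1615) (nat_lit 113) (.e (nat_lit 376862) (nat_lit 22) (.e (nat_lit 90181) (nat_lit 16) .nil))) .nil)))) (.nd (nat_lit 5) (.nd (nat_lit 6) 
(.lf (nat_lit 66712) (.g (nat_lit 1809) (.e (nat_lit 1606) (nat_lit 112) (.e (nat_lit 368676) (nat_lit 21) (.e (nat_lit 516097) (nat_lit 0) (.e (nat_lit 7593) (nat_lit 407) .nil)))) .nil)) 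
(.lf (nat_lit 66776) (.g (nat_lit 1858) (.e (nat_lit 1615) (nat_lit 113) (.e (nat_lit 376860) (nat_lit 21) (.e (nat_lit 57870) (nat_lit 264) (.e (nat_lit 1220) (nat_lit 90) (.e (nat_lit 81938) (nat_lit 20) (.e (nat_lit 2005) (nat_lit 138) (.e (nat_lit 671744) (nat_lit 0) .nil))))))) (.g (nat_lit 4) .nil .nil)))) (.nd (nat_lit 6) 
(.lf (nat_lit 66744) (.g (nat_lit 1195) (.e (nat_lit 1615) (nat_lit 113) (.e (nat_lit 376859) (nat_lit 21) (.e (nat_lit 57655) (nat_lit 152) (.e (nat_lit 1216) (nat_lit 90) (.e (nat_lit 81939) (nat_lit 20) .nil))))) .nil)) 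
(.lf (nat_lit 66808) (.g (nat_lit 1332) (.e (nat_lit 1615) (nat_lit 113) (.e (nat_lit 376865) (nat_lit 22) (.e (nat_lit 90130) (nat_lit 9) (.e (nat_lit 2830) (nat_lit 182) (.e (nat_lit 417536) (nat_lit 18) .nil))))) .nil)))))) (.nd (nat_lit 3) (.nd (nat_lit 4) (.nd (nat_lit 5) (.nd (nat_lit 6) 
(.lf (nat_lit 66692) (.g (nat_lit 970) (.e (nat_lit 1603) (nat_lit 112) (.e (nat_lit 368676) (nat_lit 21) (.e (nat_lit 516098) (nat_lit 0) .nil))) .nil)) 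
(.lf (nat_lit 66756) (.g (nat_lit 1798) (.e (nat_lit 1615) (nat_lit 113) (.e (nat_lit 376859) (nat_lit 21) (.e (nat_lit 57872) (nat_lit 264) (.e (nat_lit 1219) (nat_lit 90) (.e (nat_lit 81946) (nat_lit 20) .nil))))) .nil))) (.nd (nat_lit 6) 
(.lf (nat_lit 66724) (.g (nat_lit 1949) (.e (nat_lit 1606) (nat_lit 112) (.e (nat_lit 368676) (nat_lit 21) (.e (nat_lit 516176) (nat_lit 14) (.e (nat_lit 466967) (nat_lit 20) .nil)))) .nil)) 
(.lf (nat_lit 66788) (.g (nat_lit 1256) (.e (nat_lit 1615) (nat_lit 113) (.e (nat_lit 376862) (nat_lit 22) (.e (nat_lit 90172) (nat_lit 14) (.e (nat_lit 188160) (nat_lit 0) .nil)))) .nil)))) (.nd (nat_lit 5) (.nd (nat_lit 6) 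
(.lf (nat_lit 66708) (.g (nat_lit 1148) (.e (nat_lit 1605) (nat_lit 112) (.e (nat_lit 368676) (nat_lit 21) (.e (nat_lit 516174) (nat_lit 14) .nil))) .nil)) 
(.lf (nat_lit 66772) (.g (nat_lit 1433) (.e (nat_lit 1615) (nat_lit 113) (.e (nat_lit 376860) (nat_lit 21) (.e (nat_lit 57870) (nat_lit 264) (.e (nat_lit 1219) (nat_lit 90) (.e (nat_lit 81943) (nat_lit 20) .nil))))) .nil))) (.nd (nat_lit 6) 
(.lf (nat_lit 66740) (.g (nat_lit 937) (.e (nat_lit 1615) (nat_lit 113) (.e (nat_lit 376857) (nat_lit 21) (.e (nat_lit 57872) (nat_lit 264) (.e (nat_lit 1219) (nat_lit 90) .nil)))) .nil)) 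
(.lf (nat_lit 66804) (.g (nat_lit 2570) (.e (nat_lit 1615) (nat_lit 113) (.e (nat_lit 376862) (nat_lit 22) (.e (nat_lit 90185) (nat_lit 17) (.e (nat_lit 237585) (nat_lit 1) (.e (nat_lit 164402) (nat_lit 256) (.e (nat_lit 57354) (nat_lit 0) (.e (nat_lit 7936) (nat_lit 126) (.e (nat_lit 573449) (nat_lit 9) .nil)))))))) (.g (nat_lit 6) .nil .nil)))))) 
(.nd (nat_lit 4) (.nd (nat_lit 5) (.nd (nat_lit 6) 
(.lf (nat_lit 66700) (.g (nat_lit 2397) (.e (nat_lit 1604) (nat_lit 112) (.e (nat_lit 368676) (nat_lit 21) (.e (nat_lit 516174) (nat_lit 14) (.e (nat_lit 466975) (nat_lit 22) .nil)))) .nil)) 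
(.lf (nat_lit 66764) (.g (nat_lit 1724) (.e (nat_lit 1615) (nat_lit 113) (.e (nat_lit 376859) (nat_lit 21) (.e (nat_lit 57873) (nat_lit 264) (.e (nat_lit 1219) (nat_lit 90) (.e (nat_lit 81943) (nat_lit 20) .nil))))) .nil))) (.nd (nat_lit 6) 
(.lf (nat_lit 66732) (.g (nat_lit 3107) (.e (nat_lit 1606) (nat_lit 112) (.e (nat_lit 368676) (nat_lit 21) (.e (nat_lit 516185) (nat_lit 16) (.e (nat_lit 491560) (nat_lit 10) (.e (nat_lit 344118) (nat_lit 21) .nil))))) .nil)) 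
(.lf (nat_lit 66796) (.g (nat_lit 2237) (.e (nat_lit 1615) (nat_lit 113) (.e (nat_lit 376862) (nat_lit 22) (.e (nat_lit 90185) (nat_lit 17) (.e (nat_lit 237582) (nat_lit 1) (.e (nat_lit 164329) (nat_lit 230) (.e (nat_lit 163850) (nat_lit 0) (.e (nat_lit 3272) (nat_lit 199) (.e (nat_lit 548870) (nat_lit 5) .nil)))))))) (.g (nat_lit 5) .nil .nil))))) (.nd (nat_lit 5) (.nd (nat_lit 6) 
(.lf (nat_lit 66716) (.g (nat_lit 1101) (.e (nat_lit 1606) (nat_lit 112) (.e (nat_lit 368676) (nat_lit 21) (.e (nat_lit 516165) (nat_lit 12) .nil))) .nil)) 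
(.lf (nat_lit 66780) (.g (nat_lit 517) (.e (nat_lit 1615) (nat_lit 113) (.e (nat_lit 376860) (nat_lit 21) (.e (nat_lit 57931) (nat_lit 282) .nil))) .nil))) (.nd (nat_lit 6) 
(.lf (nat_lit 66748) (.g (nat_lit 2056) (.e (nat_lit 1615) (nat_lit 113) (.e (nat_lit 376859) (nat_lit 21) (.e (nat_lit 57870) (nat_lit 264) (.e (nat_lit 1220) (nat_lit 90) (.e (nat_lit 81938) (nat_lit 20) (.e (nat_lit 2005) (nat_lit 138) (.e (nat_lit 671744) (nat_lit 0) .nil))))))) (.g (nat_lit 5) .nil .nil))) 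
(.lf (nat_lit 66812) (.g (nat_lit 677) (.e (nat_lit 1615) (nat_lit 113) (.e (nat_lit 376865) (nat_lit 22) (.e (nat_lit 90155) (nat_lit 10) .nil))) .nil))))))) (.nd (nat_lit 2) (.nd (nat_lit 3) (.nd (nat_lit 4) (.nd (nat_lit 5) (.nd (nat_lit 6) 
(.lf (nat_lit 66690) (.g (nat_lit 1455) (.e (nat_lit 1600) (nat_lit 112) (.e (nat_lit 368676) (nat_lit 21) (.e (nat_lit 516176) (nat_lit 14) .nil))) .nil)) 
(.lf (nat_lit 66754) (.g (nat_lit 1607) (.e (nat_lit 1615) (nat_lit 113) (.e (nat_lit 376859) (nat_lit 21) (.e (nat_lit 57872) (nat_lit 264) (.e (nat_lit 1219) (nat_lit 90) (.e (nat_lit 81943) (nat_lit 20) .nil))))) .nil))) (.nd (nat_lit 6) 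
(.lf (nat_lit 66722) (.g (nat_lit 1795) (.e (nat_lit 1606) (nat_lit 112) (.e (nat_lit 368676) (nat_lit 21) (.e (nat_lit 516174) (nat_lit 14) (.e (nat_lit 466977) (nat_lit 22) .nil)))) .nil)) 
(.lf (nat_lit 66786) (.g (nat_lit 2030) (.e (nat_lit 1615) (nat_lit 113) (.e (nat_lit 376862) (nat_lit 22) (.e (nat_lit 90172) (nat_lit 14) (.e (nat_lit 180229) (nat_lit 0) (.e (nat_lit 5546) (nat_lit 306) .nil))))) .nil)))) (.nd (nat_lit 5) (.nd (nat_lit 6) 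
(.lf (nat_lit 66706) (.g (nat_lit 2919) (.e (nat_lit 1604) (nat_lit 112) (.e (nat_lit 368676) (nat_lit 21) (.e (nat_lit 516185) (nat_lit 16) (.e (nat_lit 491558) (nat_lit 10) (.e (nat_lit 344117) (nat_lit 21) .nil))))) .nil)) 
(.lf (nat_lit 66770) (.g (nat_lit 1480) (.e (nat_lit 1615) (nat_lit 113) (.e (nat_lit 376860) (nat_lit 21) (.e (nat_lit 57832) (nat_lit 250) (.e (nat_lit 7936) (nat_lit 166) (.e (nat_lit 188431) (nat_lit 20) (.e (nat_lit 2403) (nat_lit 157) (.e (nat_lit 5153) (nat_lit 292) (.e (nat_lit 989) (nat_lit 81) .nil)))))))) (.g (nat_lit 5) .nil .nil)))) (.nd (nat_lit 6) 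
(.lf (nat_lit 66738) (.g (nat_lit 466) (.e (nat_lit 1615) (nat_lit 113) (.e (nat_lit 376857) (nat_lit 21) (.e (nat_lit 57655) (nat_lit 152) .nil))) .nil)) 
(.lf (nat_lit 66802) (.g (nat_lit 1498) (.e (nat_lit 1615) (nat_lit 113) (.e (nat_lit 376862) (nat_lit 22) (.e (nat_lit 90185) (nat_lit 17) (.e (nat_lit 237585) (nat_lit 1) (.e (nat_lit 164402) (nat_lit 256) (.e (nat_lit 57345) (nat_lit 0) (.e (nat_lit 7936) (nat_lit 126) (.e (nat_lit 573449) (nat_lit 9) .nil)))))))) (.g (nat_lit 4) .nil .nil)))))) 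
(.nd (nat_lit 4) (.nd (nat_lit 5) (.nd (nat_lit 6) 
(.lf (nat_lit 66698) (.g (nat_lit 1277) (.e (nat_lit 1604) (nat_lit 112) (.e (nat_lit 368676) (nat_lit 21) (.e (nat_lit 516165) (nat_lit 12) .nil))) .nil)) 
(.lf (nat_lit 66762) (.g (nat_lit 1735) (.e (nat_lit 1615) (nat_lit 113) (.e (nat_lit 376859) (nat_lit 21) (.e (nat_lit 57873) (nat_lit 264) (.e (nat_lit 1190) (nat_lit 88) (.e (nat_lit 65619) (nat_lit 10) .nil))))) .nil))) (.nd (nat_lit 6) 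
(.lf (nat_lit 66730) (.g (nat_lit 2924) (.e (nat_lit 1606) (nat_lit 112) (.e (nat_lit 368676) (nat_lit 21) (.e (nat_lit 516176) (nat_lit 14) (.e (nat_lit 466977) (nat_lit 22) (.e (nat_lit 196659) (nat_lit 12) .nil))))) .nil)) 
(.lf (nat_lit 66794) (.g (nat_lit 1568) (.e (nat_lit 1615) (nat_lit 113) (.e (nat_lit 376862) (nat_lit 22) (.e (nat_lit 90185) (nat_lit 17) (.e (nat_lit 237582) (nat_lit 1) (.e (nat_lit 164305) (nat_lit 226) (.e (nat_lit 7936) (nat_lit 81) (.e (nat_lit 1239) (nat_lit 91) (.e (nat_lit 98048) (nat_lit 0) .nil)))))))) (.g (nat_lit 4) .nil .nil))))) (.nd (nat_lit 5) (.nd (nat_lit 6) 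
(.lf (nat_lit 66714) (.g (nat_lit 2112) (.e (nat_lit 1606) (nat_lit 112) (.e (nat_lit 368676) (nat_lit 21) (.e (nat_lit 516098) (nat_lit 0) (.e (nat_lit 7593) (nat_lit 407) (.e (nat_lit 73746) (nat_lit 3) .nil))))) .nil)) 
(.lf (nat_lit 66778) (.g (nat_lit 1831) (.e (nat_lit 1615) (nat_lit 113) (.e (nat_lit 376860) (nat_lit 21) (.e (nat_lit 57870) (nat_lit 264) (.e (nat_lit 1221) (nat_lit 90) (.e (nat_lit 81938) (nat_lit 20) (.e (nat_lit 2005) (nat_lit 138) (.e (nat_lit 671744) (nat_lit 0) .nil))))))) (.g (nat_lit 4) .nil .nil)))) (.nd (nat_lit 6) 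
(.lf (nat_lit 66746) (.g (nat_lit 1181) (.e (nat_lit 1615) (nat_lit 113) (.e (nat_lit 376859) (nat_lit 21) (.e (nat_lit 57870) (nat_lit 264) (.e (nat_lit 1219) (nat_lit 90) (.e (nat_lit 81943) (nat_lit 20) .nil))))) .nil)) 
(.lf (nat_lit 66810) (.g (nat_lit 1225) (.e (nat_lit 1615) (nat_lit 113) (.e (nat_lit 376865) (nat_lit 22) (.e (nat_lit 90134) (nat_lit 9) (.e (nat_lit 3098) (nat_lit 192) .nil)))) .nil)))))) (.nd (nat_lit 3) (.nd (nat_lit 4) (.nd (nat_lit 5) (.nd (nat_lit 6) 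
(.lf (nat_lit 66694) (.g (nat_lit 1093) (.e (nat_lit 1603) (nat_lit 112) (.e (nat_lit 368676) (nat_lit 21) (.e (nat_lit 516185) (nat_lit 16) .nil))) .nil)) 
(.lf (nat_lit 66758) (.g (nat_lit 2589) (.e (nat_lit 1615) (nat_lit 113) (.e (nat_lit 376859) (nat_lit 21) (.e (nat_lit 57872) (nat_lit 264) (.e (nat_lit 1219) (nat_lit 90) (.e (nat_lit 81947) (nat_lit 20) (.e (nat_lit 2005) (nat_lit 138) (.e (nat_lit 671744) (nat_lit 0) .nil))))))) (.g (nat_lit 6) .nil .nil)))) (.nd (nat_lit 6) 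
(.lf (nat_lit 66726) (.g (nat_lit 2427) (.e (nat_lit 1606) (nat_lit 112) (.e (nat_lit 368676) (nat_lit 21) (.e (nat_lit 516176) (nat_lit 14) (.e (nat_lit 466975) (nat_lit 22) .nil)))) .nil)) 
(.lf (nat_lit 66790) (.g (nat_lit 1548) (.e (nat_lit 1615) (nat_lit 113) (.e (nat_lit 376862) (nat_lit 22) (.e (nat_lit 90172) (nat_lit 14) (.e (nat_lit 188160) (nat_lit 19) (.e (nat_lit 647201) (nat_lit 12) (.e (nat_lit 57478) (nat_lit 28) (.e (nat_lit 564992) (nat_lit 0) .nil))))))) (.g (nat_lit 5) .nil .nil))))) (.nd (nat_lit 5) (.nd (nat_lit 6) 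
(.lf (nat_lit 66710) (.g (nat_lit 2919) (.e (nat_lit 1605) (nat_lit 112) (.e (nat_lit 368676) (nat_lit 21) (.e (nat_lit 516185) (nat_lit 16) (.e (nat_lit 491558) (nat_lit 10) (.e (nat_lit 344117) (nat_lit 21) .nil))))) .nil)) 
(.lf (nat_lit 66774) (.g (nat_lit 1643) (.e (nat_lit 1615) (nat_lit 113) (.e (nat_lit 376860) (nat_lit 21) (.e (nat_lit 57870) (nat_lit 264) (.e (nat_lit 1219) (nat_lit 90) (.e (nat_lit 81947) (nat_lit 20) .nil))))) .nil))) (.nd (nat_lit 6) 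
(.lf (nat_lit 66742) (.g (nat_lit 1065) (.e (nat_lit 1615) (nat_lit 113) (.e (nat_lit 376857) (nat_lit 21) (.e (nat_lit 57873) (nat_lit 264) (.e (nat_lit 1221) (nat_lit 90) .nil)))) .nil)) 
(.lf (nat_lit 66806) (.g (nat_lit 2737) (.e (nat_lit 1615) (nat_lit 113) (.e (nat_lit 376862) (nat_lit 22) (.e (nat_lit 90185) (nat_lit 17) (.e (nat_lit 237585) (nat_lit 1) (.e (nat_lit 164403) (nat_lit 256) (.e (nat_lit 57347) (nat_lit 0) (.e (nat_lit 7936) (nat_lit 126) (.e (nat_lit 573449) (nat_lit 9) .nil)))))))) (.g (nat_lit 6) .nil .nil)))))) 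
(.nd (nat_lit 4) (.nd (nat_lit 5) (.nd (nat_lit 6) 
(.lf (nat_lit 66702) (.g (nat_lit 2983) (.e (nat_lit 1604) (nat_lit 112) (.e (nat_lit 368676) (nat_lit 21) (.e (nat_lit 516176) (nat_lit 14) (.e (nat_lit 466975) (nat_lit 22) .nil)))) .nil)) 
(.lf (nat_lit 66766) (.g (nat_lit 1079) (.e (nat_lit 1615) (nat_lit 113) (.e (nat_lit 376859) (nat_lit 21) (.e (nat_lit 57873) (nat_lit 264) (.e (nat_lit 1221) (nat_lit 90) .nil)))) .nil))) (.nd (nat_lit 6) 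
(.lf (nat_lit 66734) (.g (nat_lit 3570) (.e (nat_lit 1608) (nat_lit 112) (.e (nat_lit 368662) (nat_lit 18) (.e (nat_lit 7147) (nat_lit 382) (.e (nat_lit 1207) (nat_lit 89) (.e (nat_lit 73754) (nat_lit 8) (.e (nat_lit 557105) (nat_lit 14) (.e (nat_lit 180265) (nat_lit 21) (.e (nat_lit 663555) (nat_lit 0) .nil)))))))) (.g (nat_lit 8) .nil .nil))) 
(.lf (nat_lit 66798) (.g (nat_lit 1202) (.e (nat_lit 1615) (nat_lit 113) (.e (nat_lit 376862) (nat_lit 22) (.e (nat_lit 90185) (nat_lit 17) (.e (nat_lit 237585) (nat_lit 1) .nil)))) .nil)))) (.nd (nat_lit 5) (.nd (nat_lit 6) 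
(.lf (nat_lit 66718) (.g (nat_lit 1081) (.e (nat_lit 1606) (nat_lit 112) (.e (nat_lit 368676) (nat_lit 21) (.e (nat_lit 524032) (nat_lit 12) .nil))) .nil)) 
(.lf (nat_lit 66782) (.g (nat_lit 2631) (.e (nat_lit 1615) (nat_lit 113) (.e (nat_lit 376860) (nat_lit 21) (.e (nat_lit 57931) (nat_lit 282) (.e (nat_lit 163947) (nat_lit 20) (.e (nat_lit 491560) (nat_lit 10) (.e (nat_lit 344169) (nat_lit 40) (.e (nat_lit 671744) (nat_lit 0) .nil))))))) (.g (nat_lit 5) .nil .nil)))) (.nd (nat_lit 6) 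
(.lf (nat_lit 66750) (.g (nat_lit 599) (.e (nat_lit 1615) (nat_lit 113) (.e (nat_lit 376859) (nat_lit 21) (.e (nat_lit 57871) (nat_lit 264) .nil))) .nil)) 
(.lf (nat_lit 66814) (.g (nat_lit 777) (.e (nat_lit 1615) (nat_lit 113) (.e (nat_lit 376865) (nat_lit 22) (.e (nat_lit 90160) (nat_lit 11) .nil))) .nil)))))))) (.nd (nat_lit 1) (.nd (nat_lit 2) (.nd (nat_lit 3) (.nd (nat_lit 4) (.nd (nat_lit 5) (.nd (nat_lit 6) 
(.lf (nat_lit 66689) (.g (nat_lit 2261) (.e (nat_lit 7936) (nat_lit 111) (.e (nat_lit 360475) (nat_lit 8) (.e (nat_lit 557091) (nat_lit 12) (.e (nat_lit 164022) (nat_lit 46) (.e (nat_lit 704737) (nat_lit 11) .nil))))) .nil)) 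
(.lf (nat_lit 66753) (.g (nat_lit 1939) (.e (nat_lit 1615) (nat_lit 113) (.e (nat_lit 376859) (nat_lit 21) (.e (nat_lit 57872) (nat_lit 264) (.e (nat_lit 1199) (nat_lit 88) (.e (nat_lit 65610) (nat_lit 10) (.e (nat_lit 344168) (nat_lit 40) (.e (nat_lit 671744) (nat_lit 0) .nil))))))) (.g (nat_lit 5) .nil .nil)))) (.nd (nat_lit 6) 
(.lf (nat_lit 66721) (.g (nat_lit 1815) (.e (nat_lit 1606) (nat_lit 112) (.e (nat_lit 368676) (nat_lit 21) (.e (nat_lit 516174) (nat_lit 14) (.e (nat_lit 466975) (nat_lit 22) .nil)))) .nil)) 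
(.lf (nat_lit 66785) (.g (nat_lit 1500) (.e (nat_lit 1615) (nat_lit 113) (.e (nat_lit 376862) (nat_lit 22) (.e (nat_lit 90172) (nat_lit 14) (.e (nat_lit 180229) (nat_lit 0) .nil)))) .nil)))) (.nd (nat_lit 5) (.nd (nat_lit 6) 
(.lf (nat_lit 66705) (.g (nat_lit 1093) (.e (nat_lit 1604) (nat_lit 112) (.e (nat_lit 368676) (nat_lit 21) (.e (nat_lit 516185) (nat_lit 16) .nil))) .nil)) 
(.lf (nat_lit 66769) (.g (nat_lit 872) (.e (nat_lit 1615) (nat_lit 113) (.e (nat_lit 376860) (nat_lit 21) (.e (nat_lit 57832) (nat_lit 250) (.e (nat_lit 7936) (nat_lit 166) .nil)))) .nil))) (.nd (nat_lit 6) 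
(.lf (nat_lit 66737) (.g (nat_lit 2190) (.e (nat_lit 1613) (nat_lit 113) (.e (nat_lit 376867) (nat_lit 23) (.e (nat_lit 98350) (nat_lit 24) (.e (nat_lit 409647) (nat_lit 18) (.e (nat_lit 303117) (nat_lit 2) .nil))))) .nil)) 
(.lf (nat_lit 66801) (.g (nat_lit 1632) (.e (nat_lit 1615) (nat_lit 113) (.e (nat_lit 376862) (nat_lit 22) (.e (nat_lit 90185) (nat_lit 17) (.e (nat_lit 237585) (nat_lit 1) (.e (nat_lit 164401) (nat_lit 256) (.e (nat_lit 57354) (nat_lit 0) (.e (nat_lit 7936) (nat_lit 126) (.e (nat_lit 573449) (nat_lit 9) .nil)))))))) (.g (nat_lit 4) .nil .nil)))))) 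
(.nd (nat_lit 4) (.nd (nat_lit 5) (.nd (nat_lit 6) 
(.lf (nat_lit 66697) (.g (nat_lit 1595) (.e (nat_lit 1604) (nat_lit 112) (.e (nat_lit 368676) (nat_lit 21) (.e (nat_lit 516098) (nat_lit 0) (.e (nat_lit 7593) (nat_lit 407) .nil)))) .nil)) 
(.lf (nat_lit 66761) (.g (nat_lit 1660) (.e (nat_lit 1615) (nat_lit 113) (.e (nat_lit 376859) (nat_lit 21) (.e (nat_lit 57872) (nat_lit 264) (.e (nat_lit 1221) (nat_lit 90) (.e (nat_lit 81959) (nat_lit 24) .nil))))) .nil))) (.nd (nat_lit 6) 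
(.lf (nat_lit 66729) (.g (nat_lit 2529) (.e (nat_lit 1606) (nat_lit 112) (.e (nat_lit 368676) (nat_lit 21) (.e (nat_lit 516176) (nat_lit 14) (.e (nat_lit 466977) (nat_lit 22) (.e (nat_lit 196658) (nat_lit 12) .nil))))) .nil)) 
(.lf (nat_lit 66793) (.g (nat_lit 1287) (.e (nat_lit 1615) (nat_lit 113) (.e (nat_lit 376862) (nat_lit 22) (.e (nat_lit 90185) (nat_lit 17) (.e (nat_lit 237582) (nat_lit 1) .nil)))) .nil)))) (.nd (nat_lit 5) (.nd (nat_lit 6) 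
(.lf (nat_lit 66713) (.g (nat_lit 970) (.e (nat_lit 1606) (nat_lit 112) (.e (nat_lit 368676) (nat_lit 21) (.e (nat_lit 516098) (nat_lit 0) .nil))) .nil)) 
(.lf (nat_lit 66777) (.g (nat_lit 1018) (.e (nat_lit 1615) (nat_lit 113) (.e (nat_lit 376860) (nat_lit 21) (.e (nat_lit 57870) (nat_lit 264) (.e (nat_lit 1221) (nat_lit 90) .nil)))) .nil))) (.nd (nat_lit 6) 
(.lf (nat_lit 66745) (.g (nat_lit 1554) (.e (nat_lit 1615) (nat_lit 113) (.e (nat_lit 376859) (nat_lit 21) (.e (nat_lit 57681) (nat_lit 155) (.e (nat_lit 122919) (nat_lit 15) .nil)))) .nil)) 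
(.lf (nat_lit 66809) (.g (nat_lit 679) (.e (nat_lit 1615) (nat_lit 113) (.e (nat_lit 376865) (nat_lit 22) (.e (nat_lit 90133) (nat_lit 9) .nil))) .nil)))))) (.nd (nat_lit 3) (.nd (nat_lit 4) (.nd (nat_lit 5) (.nd (nat_lit 6) 
(.lf (nat_lit 66693) (.g (nat_lit 2074) (.e (nat_lit 1603) (nat_lit 112) (.e (nat_lit 368676) (nat_lit 21) (.e (nat_lit 516165) (nat_lit 12) (.e (nat_lit 450586) (nat_lit 10) .nil)))) .nil)) 
(.lf (nat_lit 66757) (.g (nat_lit 2329) (.e (nat_lit 1615) (nat_lit 113) (.e (nat_lit 376859) (nat_lit 21) (.e (nat_lit 57872) (nat_lit 264) (.e (nat_lit 1219) (nat_lit 90) (.e (nat_lit 81946) (nat_lit 20) (.e (nat_lit 2005) (nat_lit 138) (.e (nat_lit 671744) (nat_lit 0) .nil))))))) (.g (nat_lit 5) .nil .nil)))) (.nd (nat_lit 6) 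
(.lf (nat_lit 66725) (.g (nat_lit 2294) (.e (nat_lit 1606) (nat_lit 112) (.e (nat_lit 368676) (nat_lit 21) (.e (nat_lit 516176) (nat_lit 14) (.e (nat_lit 466974) (nat_lit 22) .nil)))) .nil)) 
(.lf (nat_lit 66789) (.g (nat_lit 1256) (.e (nat_lit 1615) (nat_lit 113) (.e (nat_lit 376862) (nat_lit 22) (.e (nat_lit 90172) (nat_lit 14) (.e (nat_lit 188160) (nat_lit 19) .nil)))) .nil)))) (.nd (nat_lit 5) (.nd (nat_lit 6) 
(.lf (nat_lit 66709) (.g (nat_lit 1155) (.e (nat_lit 1605) (nat_lit 112) (.e (nat_lit 368676) (nat_lit 21) (.e (nat_lit 516176) (nat_lit 14) .nil))) .nil)) 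
(.lf (nat_lit 66773) (.g (nat_lit 1652) (.e (nat_lit 1615) (nat_lit 113) (.e (nat_lit 376860) (nat_lit 21) (.e (nat_lit 57870) (nat_lit 264) (.e (nat_lit 1219) (nat_lit 90) (.e (nat_lit 81946) (nat_lit 20) .nil))))) .nil))) (.nd (nat_lit 6) 
(.lf (nat_lit 66741) (.g (nat_lit 1246) (.e (nat_lit 1615) (nat_lit 113) (.e (nat_lit 376857) (nat_lit 21) (.e (nat_lit 57873) (nat_lit 264) (.e (nat_lit 1219) (nat_lit 90) .nil)))) .nil)) 
(.lf (nat_lit 66805) (.g (nat_lit 1469) (.e (nat_lit 1615) (nat_lit 113) (.e (nat_lit 376862) (nat_lit 22) (.e (nat_lit 90185) (nat_lit 17) (.e (nat_lit 237585) (nat_lit 1) (.e (nat_lit 164402) (nat_lit 256) (.e (nat_lit 57361) (nat_lit 0) (.e (nat_lit 7936) (nat_lit 126) (.e (nat_lit 573449) (nat_lit 9) .nil)))))))) (.g (nat_lit 4) .nil .nil)))))) 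
(.nd (nat_lit 4) (.nd (nat_lit 5) (.nd (nat_lit 6) 
(.lf (nat_lit 66701) (.g (nat_lit 960) (.e (nat_lit 1604) (nat_lit 112) (.e (nat_lit 368676) (nat_lit 21) (.e (nat_lit 516176) (nat_lit 14) .nil))) .nil)) 
(.lf (nat_lit 66765) (.g (nat_lit 1847) (.e (nat_lit 1615) (nat_lit 113) (.e (nat_lit 376859) (nat_lit 21) (.e (nat_lit 57873) (nat_lit 264) (.e (nat_lit 1219) (nat_lit 90) (.e (nat_lit 81947) (nat_lit 20) (.e (nat_lit 2005) (nat_lit 138) (.e (nat_lit 671744) (nat_lit 0) .nil))))))) (.g (nat_lit 4) .nil .nil)))) (.nd (nat_lit 6) 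
(.lf (nat_lit 66733) (.g (nat_lit 3365) (.e (nat_lit 1607) (nat_lit 112) (.e (nat_lit 368662) (nat_lit 18) (.e (nat_lit 7147) (nat_lit 382) (.e (nat_lit 1207) (nat_lit 89) (.e (nat_lit 73754) (nat_lit 8) (.e (nat_lit 557105) (nat_lit 14) (.e (nat_lit 180265) (nat_lit 21) (.e (nat_lit 663555) (nat_lit 0) .nil)))))))) (.g (nat_lit 7) .nil .nil))) 
(.lf (nat_lit 66797) (.g (nat_lit 1153) (.e (nat_lit 1615) (nat_lit 113) (.e (nat_lit 376862) (nat_lit 22) (.e (nat_lit 90185) (nat_lit 17) (.e (nat_lit 237584) (nat_lit 1) .nil)))) .nil)))) (.nd (nat_lit 5) (.nd (nat_lit 6) 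
(.lf (nat_lit 66717) (.g (nat_lit 3953) (.e (nat_lit 1606) (nat_lit 112) (.e (nat_lit 368676) (nat_lit 21) (.e (nat_lit 516167) (nat_lit 12) (.e (nat_lit 450586) (nat_lit 10) (.e (nat_lit 573474) (nat_lit 12) .nil))))) .nil)) 
(.lf (nat_lit 66781) (.g (nat_lit 3115) (.e (nat_lit 1615) (nat_lit 113) (.e (nat_lit 376860) (nat_lit 21) (.e (nat_lit 57931) (nat_lit 282) (.e (nat_lit 163947) (nat_lit 20) (.e (nat_lit 491560) (nat_lit 10) (.e (nat_lit 344168) (nat_lit 40) (.e (nat_lit 671744) (nat_lit 0) .nil))))))) (.g (nat_lit 6) .nil .nil)))) (.nd (nat_lit 6) 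
(.lf (nat_lit 66749) (.g (nat_lit 2245) (.e (nat_lit 1615) (nat_lit 113) (.e (nat_lit 376859) (nat_lit 21) (.e (nat_lit 57870) (nat_lit 264) (.e (nat_lit 1221) (nat_lit 90) (.e (nat_lit 81938) (nat_lit 20) (.e (nat_lit 2005) (nat_lit 138) (.e (nat_lit 671744) (nat_lit 0) .nil))))))) (.g (nat_lit 5) .nil .nil))) 
(.lf (nat_lit 66813) (.g (nat_lit 1430) (.e (nat_lit 1615) (nat_lit 113) (.e (nat_lit 376865) (nat_lit 22) (.e (nat_lit 90155) (nat_lit 10) (.e (nat_lit 16128) (nat_lit 241) (.e (nat_lit 180227) (nat_lit 0) (.e (nat_lit 6806) (nat_lit 365) (.e (nat_lit 989) (nat_lit 81) .nil))))))) (.g (nat_lit 5) .nil .nil)))))))) 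
(.nd (nat_lit 2) (.nd (nat_lit 3) (.nd (nat_lit 4) (.nd (nat_lit 5) (.nd (nat_lit 6) 
(.lf (nat_lit 66691) (.g (nat_lit 1126) (.e (nat_lit 1603) (nat_lit 112) (.e (nat_lit 368676) (nat_lit 21) (.e (nat_lit 516097) (nat_lit 0) .nil))) .nil)) 
(.lf (nat_lit 66755) (.g (nat_lit 1782) (.e (nat_lit 1615) (nat_lit 113) (.e (nat_lit 376859) (nat_lit 21) (.e (nat_lit 57872) (nat_lit 264) (.e (nat_lit 1219) (nat_lit 90) (.e (nat_lit 81943) (nat_lit 20) (.e (nat_lit 2006) (nat_lit 138) (.e (nat_lit 671744) (nat_lit 0) .nil))))))) (.g (nat_lit 4) .nil .nil)))) (.nd (nat_lit 6) 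
(.lf (nat_lit 66723) (.g (nat_lit 644) (.e (nat_lit 1606) (nat_lit 112) (.e (nat_lit 368676) (nat_lit 21) (.e (nat_lit 516176) (nat_lit 14) .nil))) .nil)) 
(.lf (nat_lit 66787) (.g (nat_lit 2040) (.e (nat_lit 1615) (nat_lit 113) (.e (nat_lit 376862) (nat_lit 22) (.e (nat_lit 90172) (nat_lit 14) (.e (nat_lit 180229) (nat_lit 0) (.e (nat_lit 5548) (nat_lit 306) .nil))))) .nil)))) (.nd (nat_lit 5) (.nd (nat_lit 6) 
(.lf (nat_lit 66707) (.g (nat_lit 1126) (.e (nat_lit 1605) (nat_lit 112) (.e (nat_lit 368676) (nat_lit 21) (.e (nat_lit 516097) (nat_lit 0) .nil))) .nil)) 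
(.lf (nat_lit 66771) (.g (nat_lit 979) (.e (nat_lit 1615) (nat_lit 113) (.e (nat_lit 376860) (nat_lit 21) (.e (nat_lit 57857) (nat_lit 254) (.e (nat_lit 163923) (nat_lit 15) .nil)))) .nil))) (.nd (nat_lit 6) 
(.lf (nat_lit 66739) (.g (nat_lit 579) (.e (nat_lit 1615) (nat_lit 113) (.e (nat_lit 376857) (nat_lit 21) (.e (nat_lit 57681) (nat_lit 155) .nil))) .nil)) 
(.lf (nat_lit 66803) (.g (nat_lit 2545) (.e (nat_lit 1615) (nat_lit 113) (.e (nat_lit 376862) (nat_lit 22) (.e (nat_lit 90185) (nat_lit 17) (.e (nat_lit 237585) (nat_lit 1) (.e (nat_lit 164402) (nat_lit 256) (.e (nat_lit 57347) (nat_lit 0) (.e (nat_lit 7936) (nat_lit 126) (.e (nat_lit 573449) (nat_lit 9) .nil)))))))) (.g (nat_lit 6) .nil .nil)))))) 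
(.nd (nat_lit 4) (.nd (nat_lit 5) (.nd (nat_lit 6) 
(.lf (nat_lit 66699) (.g (nat_lit 976) (.e (nat_lit 1604) (nat_lit 112) (.e (nat_lit 368676) (nat_lit 21) (.e (nat_lit 516174) (nat_lit 14) .nil))) .nil)) 
(.lf (nat_lit 66763) (.g (nat_lit 1299) (.e (nat_lit 1615) (nat_lit 113) (.e (nat_lit 376859) (nat_lit 21) (.e (nat_lit 57873) (nat_lit 264) (.e (nat_lit 1199) (nat_lit 88) (.e (nat_lit 65617) (nat_lit 10) .nil))))) .nil))) (.nd (nat_lit 6) 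
(.lf (nat_lit 66731) (.g (nat_lit 4068) (.e (nat_lit 1606) (nat_lit 112) (.e (nat_lit 368676) (nat_lit 21) (.e (nat_lit 516185) (nat_lit 16) (.e (nat_lit 491560) (nat_lit 10) (.e (nat_lit 344117) (nat_lit 21) (.e (nat_lit 516098) (nat_lit 0) (.e (nat_lit 7545) (nat_lit 402) .nil))))))) (.g (nat_lit 0) .nil .nil))) 
(.lf (nat_lit 66795) (.g (nat_lit 1505) (.e (nat_lit 1615) (nat_lit 113) (.e (nat_lit 376862) (nat_lit 22) (.e (nat_lit 90185) (nat_lit 17) (.e (nat_lit 237582) (nat_lit 1) (.e (nat_lit 164307) (nat_lit 226) .nil))))) .nil)))) (.nd (nat_lit 5) (.nd (nat_lit 6) 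
(.lf (nat_lit 66715) (.g (nat_lit 1836) (.e (nat_lit 1606) (nat_lit 112) (.e (nat_lit 368676) (nat_lit 21) (.e (nat_lit 516150) (nat_lit 9) (.e (nat_lit 426294) (nat_lit 11) .nil)))) .nil)) 
(.lf (nat_lit 66779) (.g (nat_lit 2883) (.e (nat_lit 1615) (nat_lit 113) (.e (nat_lit 376860) (nat_lit 21) (.e (nat_lit 57930) (nat_lit 282) (.e (nat_lit 163947) (nat_lit 20) (.e (nat_lit 491560) (nat_lit 10) (.e (nat_lit 344168) (nat_lit 40) (.e (nat_lit 671744) (nat_lit 0) .nil))))))) (.g (nat_lit 6) .nil .nil)))) (.nd (nat_lit 6) 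
(.lf (nat_lit 66747) (.g (nat_lit 1659) (.e (nat_lit 1615) (nat_lit 113) (.e (nat_lit 376859) (nat_lit 21) (.e (nat_lit 57870) (nat_lit 264) (.e (nat_lit 1219) (nat_lit 90) (.e (nat_lit 81947) (nat_lit 20) (.e (nat_lit 2005) (nat_lit 138) (.e (nat_lit 671744) (nat_lit 0) .nil))))))) (.g (nat_lit 4) .nil .nil))) 
(.lf (nat_lit 66811) (.g (nat_lit 1098) (.e (nat_lit 1615) (nat_lit 113) (.e (nat_lit 376865) (nat_lit 22) (.e (nat_lit 90153) (nat_lit 10) (.e (nat_lit 16128) (nat_lit 241) .nil)))) .nil)))))) (.nd (nat_lit 3) (.nd (nat_lit 4) (.nd (nat_lit 5) (.nd (nat_lit 6) 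
(.lf (nat_lit 66695) (.g (nat_lit 3605) (.e (nat_lit 1603) (nat_lit 112) (.e (nat_lit 368676) (nat_lit 21) (.e (nat_lit 516185) (nat_lit 16) (.e (nat_lit 491560) (nat_lit 10) (.e (nat_lit 344118) (nat_lit 21) .nil))))) .nil)) 
(.lf (nat_lit 66759) (.g (nat_lit 2631) (.e (nat_lit 1615) (nat_lit 113) (.e (nat_lit 376859) (nat_lit 21) (.e (nat_lit 57872) (nat_lit 264) (.e (nat_lit 1221) (nat_lit 90) (.e (nat_lit 81938) (nat_lit 20) (.e (nat_lit 2005) (nat_lit 138) (.e (nat_lit 671744) (nat_lit 0) .nil))))))) (.g (nat_lit 5) .nil .nil)))) (.nd (nat_lit 6) 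
(.lf (nat_lit 66727) (.g (nat_lit 2089) (.e (nat_lit 1606) (nat_lit 112) (.e (nat_lit 368676) (nat_lit 21) (.e (nat_lit 516176) (nat_lit 14) (.e (nat_lit 466976) (nat_lit 22) .nil)))) .nil)) 
(.lf (nat_lit 66791) (.g (nat_lit 1584) (.e (nat_lit 1615) (nat_lit 113) (.e (nat_lit 376862) (nat_lit 22) (.e (nat_lit 90172) (nat_lit 14) (.e (nat_lit 180261) (nat_lit 20) .nil)))) .nil)))) (.nd (nat_lit 5) (.nd (nat_lit 6) 
(.lf (nat_lit 66711) (.g (nat_lit 1126) (.e (nat_lit 1606) (nat_lit 112) (.e (nat_lit 368676) (nat_lit 21) (.e (nat_lit 516097) (nat_lit 0) .nil))) .nil)) 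
(.lf (nat_lit 66775) (.g (nat_lit 1023) (.e (nat_lit 1615) (nat_lit 113) (.e (nat_lit 376860) (nat_lit 21) (.e (nat_lit 57870) (nat_lit 264) (.e (nat_lit 1220) (nat_lit 90) .nil)))) .nil))) (.nd (nat_lit 6) 
(.lf (nat_lit 66743) (.g (nat_lit 714) (.e (nat_lit 1615) (nat_lit 113) (.e (nat_lit 376859) (nat_lit 21) (.e (nat_lit 57655) (nat_lit 152) (.e (nat_lit 1216) (nat_lit 90) .nil)))) .nil)) 
(.lf (nat_lit 66807) (.g (nat_lit 2102) (.e (nat_lit 1615) (nat_lit 113) (.e (nat_lit 376862) (nat_lit 22) (.e (nat_lit 90185) (nat_lit 17) (.e (nat_lit 237595) (nat_lit 4) .nil)))) .nil))))) (.nd (nat_lit 4) (.nd (nat_lit 5) (.nd (nat_lit 6) 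
(.lf (nat_lit 66703) (.g (nat_lit 2661) (.e (nat_lit 1604) (nat_lit 112) (.e (nat_lit 368676) (nat_lit 21) (.e (nat_lit 516176) (nat_lit 14) (.e (nat_lit 466976) (nat_lit 22) .nil)))) .nil)) 
(.lf (nat_lit 66767) (.g (nat_lit 1125) (.e (nat_lit 1615) (nat_lit 113) (.e (nat_lit 376860) (nat_lit 21) (.e (nat_lit 57664) (nat_lit 152) (.e (nat_lit 7936) (nat_lit 90) .nil)))) .nil))) (.nd (nat_lit 6) 
(.lf (nat_lit 66735) (.g (nat_lit 858) (.e (nat_lit 1613) (nat_lit 113) (.e (nat_lit 376842) (nat_lit 11) (.e (nat_lit 426011) (nat_lit 0) .nil))) .nil)) 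
(.lf (nat_lit 66799) (.g (nat_lit 1622) (.e (nat_lit 1615) (nat_lit 113) (.e (nat_lit 376862) (nat_lit 22) (.e (nat_lit 90185) (nat_lit 17) (.e (nat_lit 237585) (nat_lit 1) (.e (nat_lit 164305) (nat_lit 226) (.e (nat_lit 7936) (nat_lit 81) (.e (nat_lit 1239) (nat_lit 91) (.e (nat_lit 98048) (nat_lit 0) .nil)))))))) (.g (nat_lit 4) .nil .nil))))) (.nd (nat_lit 5) (.nd (nat_lit 6) 
(.lf (nat_lit 66719) (.g (nat_lit 662) (.e (nat_lit 1606) (nat_lit 112) (.e (nat_lit 368676) (nat_lit 21) (.e (nat_lit 516174) (nat_lit 14) .nil))) .nil)) 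
(.lf (nat_lit 66783) (.g (nat_lit 685) (.e (nat_lit 1615) (nat_lit 113) (.e (nat_lit 376862) (nat_lit 22) (.e (nat_lit 90165) (nat_lit 12) .nil))) .nil))) (.nd (nat_lit 6) 
(.lf (nat_lit 66751) (.g (nat_lit 472) (.e (nat_lit 1615) (nat_lit 113) (.e (nat_lit 376859) (nat_lit 21) (.e (nat_lit 57872) (nat_lit 264) .nil))) .nil)) 
(.lf (nat_lit 66815) (.g (nat_lit 1230) (.e (nat_lit 1615) (nat_lit 113) (.e (nat_lit 376865) (nat_lit 22) (.e (nat_lit 90169) (nat_lit 13) (.e (nat_lit 172133) (nat_lit 15) .nil)))) .nil)))))))))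

noncomputable def tv923 : DT := (.nd (nat_lit 0) (.nd (nat_lit 1) (.nd (nat_lit 2) (.nd (nat_lit 3) (.nd (nat_lit 4) (.nd (nat_lit 5) (.nd (nat_lit 6) 
(.lf (nat_lit 66816) (.g (nat_lit 575) (.e (nat_lit 1615) (nat_lit 113) (.e (nat_lit 376865) (nat_lit 22) (.e (nat_lit 90172) (nat_lit 14) .nil))) .nil)) 
(.lf (nat_lit 66880) (.g (nat_lit 1125) (.e (nat_lit 1615) (nat_lit 113) (.e (nat_lit 376869) (nat_lit 23) (.e (nat_lit 98384) (nat_lit 32) (.e (nat_lit 483072) (nat_lit 40) .nil)))) .nil))) (.nd (nat_lit 6) 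
(.lf (nat_lit 66848) (.g (nat_lit 2558) (.e (nat_lit 1615) (nat_lit 113) (.e (nat_lit 376865) (nat_lit 22) (.e (nat_lit 90185) (nat_lit 17) (.e (nat_lit 237585) (nat_lit 1) (.e (nat_lit 164307) (nat_lit 226) (.e (nat_lit 7936) (nat_lit 81) (.e (nat_lit 1239) (nat_lit 91) (.e (nat_lit 98048) (nat_lit 0) .nil)))))))) (.g (nat_lit 5) .nil .nil))) 
(.lf (nat_lit 66912) (.g (nat_lit 3833) (.e (nat_lit 1616) (nat_lit 113) (.e (nat_lit 376869) (nat_lit 23) (.e (nat_lit 98349) (nat_lit 24) (.e (nat_lit 409645) (nat_lit 18) (.e (nat_lit 303117) (nat_lit 2) (.e (nat_lit 196630) (nat_lit 9) .nil)))))) (.g (nat_lit 6) .nil .nil))))) (.nd (nat_lit 5) (.nd (nat_lit 6) 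
(.lf (nat_lit 66832) (.g (nat_lit 2775) (.e (nat_lit 1615) (nat_lit 113) (.e (nat_lit 376865) (nat_lit 22) (.e (nat_lit 90185) (nat_lit 17) (.e (nat_lit 237581) (nat_lit 1) .nil)))) .nil)) 
(.lf (nat_lit 66896) (.g (nat_lit 2273) (.e (nat_lit 1616) (nat_lit 113) (.e (nat_lit 376842) (nat_lit 11) (.e (nat_lit 426011) (nat_lit 0) (.e (nat_lit 7591) (nat_lit 407) (.e (nat_lit 73772) (nat_lit 24) .nil))))) .nil))) (.nd (nat_lit 6) 
(.lf (nat_lit 66864) (.g (nat_lit 2297) (.e (nat_lit 1615) (nat_lit 113) (.e (nat_lit 376869) (nat_lit 23) (.e (nat_lit 98365) (nat_lit 26) (.e (nat_lit 426100) (nat_lit 1) (.e (nat_lit 164305) (nat_lit 226) (.e (nat_lit 7936) (nat_lit 81) (.e (nat_lit 1239) (nat_lit 91) (.e (nat_lit 98048) (nat_lit 0) .nil)))))))) (.g (nat_lit 4) .nil .nil))) 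
(.lf (nat_lit 66928) (.g (nat_lit 2048) (.e (nat_lit 1617) (nat_lit 113) (.e (nat_lit 376865) (nat_lit 22) (.e (nat_lit 90185) (nat_lit 17) (.e (nat_lit 237585) (nat_lit 1) .nil)))) .nil))))) (.nd (nat_lit 4) (.nd (nat_lit 5) (.nd (nat_lit 6) 
(.lf (nat_lit 66824) (.g (nat_lit 1628) (.e (nat_lit 1615) (nat_lit 113) (.e (nat_lit 376865) (nat_lit 22) (.e (nat_lit 90174) (nat_lit 14) (.e (nat_lit 180225) (nat_lit 0) .nil)))) .nil)) 
(.lf (nat_lit 66888) (.g (nat_lit 1081) (.e (nat_lit 1615) (nat_lit 113) (.e (nat_lit 376869) (nat_lit 23) (.e (nat_lit 98384) (nat_lit 32) (.e (nat_lit 475219) (nat_lit 44) .nil)))) .nil))) (.nd (nat_lit 6) 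
(.lf (nat_lit 66856) (.g (nat_lit 1447) (.e (nat_lit 1615) (nat_lit 113) (.e (nat_lit 376867) (nat_lit 23) (.e (nat_lit 98350) (nat_lit 24) (.e (nat_lit 417536) (nat_lit 18) .nil)))) .nil)) 
(.lf (nat_lit 66920) (.g (nat_lit 2014) (.e (nat_lit 1617) (nat_lit 113) (.e (nat_lit 376842) (nat_lit 11) (.e (nat_lit 426011) (nat_lit 0) (.e (nat_lit 7593) (nat_lit 407) .nil)))) .nil)))) (.nd (nat_lit 5) (.nd (nat_lit 6) 
(.lf (nat_lit 66840) (.g (nat_lit 1561) (.e (nat_lit 1615) (nat_lit 113) (.e (nat_lit 376865) (nat_lit 22) (.e (nat_lit 90185) (nat_lit 17) (.e (nat_lit 237584) (nat_lit 1) (.e (nat_lit 164325) (nat_lit 230) .nil))))) .nil)) 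
(.lf (nat_lit 66904) (.g (nat_lit 1455) (.e (nat_lit 1616) (nat_lit 113) (.e (nat_lit 376842) (nat_lit 11) (.e (nat_lit 426343) (nat_lit 14) (.e (nat_lit 491560) (nat_lit 10) .nil)))) .nil))) (.nd (nat_lit 6) 
(.lf (nat_lit 66872) (.g (nat_lit 2083) (.e (nat_lit 1615) (nat_lit 113) (.e (nat_lit 376869) (nat_lit 23) (.e (nat_lit 98367) (nat_lit 27) (.e (nat_lit 434272) (nat_lit 38) (.e (nat_lit 655373) (nat_lit 3) (.e (nat_lit 163975) (nat_lit 30) (.e (nat_lit 573449) (nat_lit 9) .nil))))))) (.g (nat_lit 4) .nil .nil))) 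
(.lf (nat_lit 66936) (.g (nat_lit 3237) (.e (nat_lit 1619) (nat_lit 113) (.e (nat_lit 376842) (nat_lit 11) (.e (nat_lit 426338) (nat_lit 14) (.e (nat_lit 491566) (nat_lit 12) (.e (nat_lit 385045) (nat_lit 21) .nil))))) .nil)))))) (.nd (nat_lit 3) (.nd (nat_lit 4) (.nd (nat_lit 5) (.nd (nat_lit 6) 
(.lf (nat_lit 66820) (.g (nat_lit 1405) (.e (nat_lit 1615) (nat_lit 113) (.e (nat_lit 376865) (nat_lit 22) (.e (nat_lit 90172) (nat_lit 14) (.e (nat_lit 180233) (nat_lit 0) .nil)))) .nil)) 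
(.lf (nat_lit 66884) (.g (nat_lit 3019) (.e (nat_lit 1615) (nat_lit 113) (.e (nat_lit 376869) (nat_lit 23) (.e (nat_lit 98384) (nat_lit 32) (.e (nat_lit 475214) (nat_lit 42) (.e (nat_lit 720912) (nat_lit 20) .nil))))) .nil))) (.nd (nat_lit 6) 
(.lf (nat_lit 66852) (.g (nat_lit 2749) (.e (nat_lit 1615) (nat_lit 113) (.e (nat_lit 376865) (nat_lit 22) (.e (nat_lit 90185) (nat_lit 17) (.e (nat_lit 237585) (nat_lit 1) (.e (nat_lit 164403) (nat_lit 256) (.e (nat_lit 57345) (nat_lit 0) (.e (nat_lit 7936) (nat_lit 126) (.e (nat_lit 573449) (nat_lit 9) .nil)))))))) (.g (nat_lit 5) .nil .nil))) 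
(.lf (nat_lit 66916) (.g (nat_lit 2798) (.e (nat_lit 1616) (nat_lit 113) (.e (nat_lit 376869) (nat_lit 23) (.e (nat_lit 98350) (nat_lit 24) (.e (nat_lit 409647) (nat_lit 18) (.e (nat_lit 303117) (nat_lit 2) .nil))))) .nil)))) (.nd (nat_lit 5) (.nd (nat_lit 6) 
(.lf (nat_lit 66836) (.g (nat_lit 2610) (.e (nat_lit 1615) (nat_lit 113) (.e (nat_lit 376865) (nat_lit 22) (.e (nat_lit 90185) (nat_lit 17) (.e (nat_lit 237582) (nat_lit 1) (.e (nat_lit 164307) (nat_lit 226) (.e (nat_lit 7936) (nat_lit 81) (.e (nat_lit 1239) (nat_lit 91) (.e (nat_lit 98048) (nat_lit 0) .nil)))))))) (.g (nat_lit 5) .nil .nil))) 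
(.lf (nat_lit 66900) (.g (nat_lit 2184) (.e (nat_lit 1616) (nat_lit 113) (.e (nat_lit 376842) (nat_lit 11) (.e (nat_lit 426342) (nat_lit 14) (.e (nat_lit 491558) (nat_lit 10) (.e (nat_lit 344174) (nat_lit 42) .nil))))) .nil))) (.nd (nat_lit 6) 
(.lf (nat_lit 66868) (.g (nat_lit 3319) (.e (nat_lit 1615) (nat_lit 113) (.e (nat_lit 376869) (nat_lit 23) (.e (nat_lit 98365) (nat_lit 26) (.e (nat_lit 426100) (nat_lit 1) (.e (nat_lit 164399) (nat_lit 256) (.e (nat_lit 57347) (nat_lit 0) (.e (nat_lit 7936) (nat_lit 126) (.e (nat_lit 573449) (nat_lit 9) .nil)))))))) (.g (nat_lit 6) .nil .nil))) 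
(.lf (nat_lit 66932) (.g (nat_lit 3108) (.e (nat_lit 1618) (nat_lit 113) (.e (nat_lit 376842) (nat_lit 11) (.e (nat_lit 426343) (nat_lit 14) (.e (nat_lit 491560) (nat_lit 10) (.e (nat_lit 344176) (nat_lit 43) .nil))))) .nil))))) (.nd (nat_lit 4) (.nd (nat_lit 5) (.nd (nat_lit 6) 
(.lf (nat_lit 66828) (.g (nat_lit 1155) (.e (nat_lit 1615) (nat_lit 113) (.e (nat_lit 376865) (nat_lit 22) (.e (nat_lit 90181) (nat_lit 16) (.e (nat_lit 229577) (nat_lit 179) .nil)))) .nil)) 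
(.lf (nat_lit 66892) (.g (nat_lit 1039) (.e (nat_lit 1616) (nat_lit 113) (.e (nat_lit 376842) (nat_lit 11) (.e (nat_lit 426009) (nat_lit 0) .nil))) .nil))) (.nd (nat_lit 6) 
(.lf (nat_lit 66860) (.g (nat_lit 2867) (.e (nat_lit 1615) (nat_lit 113) (.e (nat_lit 376869) (nat_lit 23) (.e (nat_lit 98350) (nat_lit 24) (.e (nat_lit 409644) (nat_lit 18) (.e (nat_lit 303117) (nat_lit 2) (.e (nat_lit 196624) (nat_lit 9) .nil)))))) (.g (nat_lit 5) .nil .nil))) 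
(.lf (nat_lit 66924) (.g (nat_lit 1805) (.e (nat_lit 1617) (nat_lit 113) (.e (nat_lit 376842) (nat_lit 11) (.e (nat_lit 426343) (nat_lit 14) (.e (nat_lit 491560) (nat_lit 10) .nil)))) .nil)))) (.nd (nat_lit 5) (.nd (nat_lit 6) 
(.lf (nat_lit 66844) (.g (nat_lit 1448) (.e (nat_lit 1615) (nat_lit 113) (.e (nat_lit 376865) (nat_lit 22) (.e (nat_lit 90185) (nat_lit 17) (.e (nat_lit 237585) (nat_lit 1) .nil)))) .nil)) 
(.lf (nat_lit 66908) (.g (nat_lit 2787) (.e (nat_lit 1616) (nat_lit 113) (.e (nat_lit 376842) (nat_lit 11) (.e (nat_lit 426344) (nat_lit 14) (.e (nat_lit 491560) (nat_lit 10) (.e (nat_lit 344174) (nat_lit 42) .nil))))) .nil))) (.nd (nat_lit 6) 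
(.lf (nat_lit 66876) (.g (nat_lit 5719) (.e (nat_lit 1615) (nat_lit 113) (.e (nat_lit 376869) (nat_lit 23) (.e (nat_lit 98384) (nat_lit 32) (.e (nat_lit 475199) (nat_lit 40) (.e (nat_lit 704590) (nat_lit 3) (.e (nat_lit 163975) (nat_lit 30) (.e (nat_lit 573449) (nat_lit 9) .nil))))))) (.g (nat_lit 7) .nil .nil))) 
(.lf (nat_lit 66940) (.g (nat_lit 2576) (.e (nat_lit 1619) (nat_lit 113) (.e (nat_lit 376842) (nat_lit 11) (.e (nat_lit 426343) (nat_lit 14) (.e (nat_lit 491559) (nat_lit 10) (.e (nat_lit 344177) (nat_lit 43) .nil))))) .nil))))))) (.nd (nat_lit 2) (.nd (nat_lit 3) (.nd (nat_lit 4) (.nd (nat_lit 5) (.nd (nat_lit 6) 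
(.lf (nat_lit 66818) (.g (nat_lit 1992) (.e (nat_lit 1615) (nat_lit 113) (.e (nat_lit 376865) (nat_lit 22) (.e (nat_lit 90172) (nat_lit 14) (.e (nat_lit 180229) (nat_lit 0) (.e (nat_lit 5546) (nat_lit 306) .nil))))) .nil)) 
(.lf (nat_lit 66882) (.g (nat_lit 2994) (.e (nat_lit 1615) (nat_lit 113) (.e (nat_lit 376869) (nat_lit 23) (.e (nat_lit 98384) (nat_lit 32) (.e (nat_lit 483072) (nat_lit 40) (.e (nat_lit 704754) (nat_lit 12) (.e (nat_lit 57479) (nat_lit 28) (.e (nat_lit 564992) (nat_lit 0) .nil))))))) (.g (nat_lit 6) .nil .nil)))) (.nd (nat_lit 6) 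
(.lf (nat_lit 66850) (.g (nat_lit 4101) (.e (nat_lit 1615) (nat_lit 113) (.e (nat_lit 376865) (nat_lit 22) (.e (nat_lit 90185) (nat_lit 17) (.e (nat_lit 237585) (nat_lit 1) (.e (nat_lit 164329) (nat_lit 230) (.e (nat_lit 163850) (nat_lit 0) (.e (nat_lit 3272) (nat_lit 199) (.e (nat_lit 548870) (nat_lit 5) .nil)))))))) (.g (nat_lit 8) .nil .nil))) 
(.lf (nat_lit 66914) (.g (nat_lit 2564) (.e (nat_lit 1616) (nat_lit 113) (.e (nat_lit 376869) (nat_lit 23) (.e (nat_lit 98350) (nat_lit 24) (.e (nat_lit 409643) (nat_lit 18) (.e (nat_lit 303117) (nat_lit 2) .nil))))) .nil)))) (.nd (nat_lit 5) (.nd (nat_lit 6) 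
(.lf (nat_lit 66834) (.g (nat_lit 1755) (.e (nat_lit 1615) (nat_lit 113) (.e (nat_lit 376865) (nat_lit 22) (.e (nat_lit 90185) (nat_lit 17) (.e (nat_lit 237582) (nat_lit 1) (.e (nat_lit 164297) (nat_lit 226) .nil))))) .nil)) 
(.lf (nat_lit 66898) (.g (nat_lit 1174) (.e (nat_lit 1616) (nat_lit 113) (.e (nat_lit 376842) (nat_lit 11) (.e (nat_lit 426012) (nat_lit 0) .nil))) .nil))) (.nd (nat_lit 6) 
(.lf (nat_lit 66866) (.g (nat_lit 2920) (.e (nat_lit 1615) (nat_lit 113) (.e (nat_lit 376869) (nat_lit 23) (.e (nat_lit 98365) (nat_lit 26) (.e (nat_lit 426100) (nat_lit 1) (.e (nat_lit 164398) (nat_lit 256) (.e (nat_lit 57348) (nat_lit 0) (.e (nat_lit 7936) (nat_lit 126) (.e (nat_lit 573449) (nat_lit 9) .nil)))))))) (.g (nat_lit 6) .nil .nil))) 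
(.lf (nat_lit 66930) (.g (nat_lit 1936) (.e (nat_lit 1618) (nat_lit 113) (.e (nat_lit 376842) (nat_lit 11) (.e (nat_lit 426343) (nat_lit 14) (.e (nat_lit 491558) (nat_lit 10) .nil)))) .nil))))) (.nd (nat_lit 4) (.nd (nat_lit 5) (.nd (nat_lit 6) 
(.lf (nat_lit 66826) (.g (nat_lit 1465) (.e (nat_lit 1615) (nat_lit 113) (.e (nat_lit 376865) (nat_lit 22) (.e (nat_lit 90174) (nat_lit 14) (.e (nat_lit 188160) (nat_lit 19) .nil)))) .nil)) 
(.lf (nat_lit 66890) (.g (nat_lit 2570) (.e (nat_lit 1615) (nat_lit 113) (.e (nat_lit 376869) (nat_lit 23) (.e (nat_lit 98389) (nat_lit 33) (.e (nat_lit 491558) (nat_lit 10) (.e (nat_lit 344126) (nat_lit 25) (.e (nat_lit 548870) (nat_lit 5) .nil)))))) (.g (nat_lit 5) .nil .nil)))) (.nd (nat_lit 6) 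
(.lf (nat_lit 66858) (.g (nat_lit 3303) (.e (nat_lit 1615) (nat_lit 113) (.e (nat_lit 376868) (nat_lit 23) (.e (nat_lit 98349) (nat_lit 24) (.e (nat_lit 409646) (nat_lit 18) (.e (nat_lit 303117) (nat_lit 2) (.e (nat_lit 196624) (nat_lit 9) .nil)))))) (.g (nat_lit 6) .nil .nil))) 
(.lf (nat_lit 66922) (.g (nat_lit 1171) (.e (nat_lit 1617) (nat_lit 113) (.e (nat_lit 376842) (nat_lit 11) (.e (nat_lit 426341) (nat_lit 14) .nil))) .nil)))) (.nd (nat_lit 5) (.nd (nat_lit 6) 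
(.lf (nat_lit 66842) (.g (nat_lit 2863) (.e (nat_lit 1615) (nat_lit 113) (.e (nat_lit 376865) (nat_lit 22) (.e (nat_lit 90185) (nat_lit 17) (.e (nat_lit 237584) (nat_lit 1) (.e (nat_lit 164325) (nat_lit 230) (.e (nat_lit 163861) (nat_lit 1) (.e (nat_lit 164133) (nat_lit 134) (.e (nat_lit 988) (nat_lit 81) .nil)))))))) (.g (nat_lit 6) .nil .nil))) 
(.lf (nat_lit 66906) (.g (nat_lit 2787) (.e (nat_lit 1616) (nat_lit 113) (.e (nat_lit 376842) (nat_lit 11) (.e (nat_lit 426344) (nat_lit 14) (.e (nat_lit 491558) (nat_lit 10) (.e (nat_lit 344174) (nat_lit 42) .nil))))) .nil))) (.nd (nat_lit 6) 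
(.lf (nat_lit 66874) (.g (nat_lit 2606) (.e (nat_lit 1615) (nat_lit 113) (.e (nat_lit 376869) (nat_lit 23) (.e (nat_lit 98384) (nat_lit 32) (.e (nat_lit 475198) (nat_lit 40) (.e (nat_lit 704589) (nat_lit 3) (.e (nat_lit 163975) (nat_lit 30) (.e (nat_lit 573449) (nat_lit 9) .nil))))))) (.g (nat_lit 4) .nil .nil))) 
(.lf (nat_lit 66938) (.g (nat_lit 2594) (.e (nat_lit 1619) (nat_lit 113) (.e (nat_lit 376842) (nat_lit 11) (.e (nat_lit 426341) (nat_lit 14) (.e (nat_lit 491560) (nat_lit 10) (.e (nat_lit 344176) (nat_lit 43) .nil))))) .nil)))))) (.nd (nat_lit 3) (.nd (nat_lit 4) (.nd (nat_lit 5) (.nd (nat_lit 6) 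
(.lf (nat_lit 66822) (.g (nat_lit 1512) (.e (nat_lit 1615) (nat_lit 113) (.e (nat_lit 376865) (nat_lit 22) (.e (nat_lit 90172) (nat_lit 14) (.e (nat_lit 180261) (nat_lit 20) .nil)))) .nil)) 
(.lf (nat_lit 66886) (.g (nat_lit 3116) (.e (nat_lit 1615) (nat_lit 113) (.e (nat_lit 376869) (nat_lit 23) (.e (nat_lit 98384) (nat_lit 32) (.e (nat_lit 475214) (nat_lit 42) (.e (nat_lit 720922) (nat_lit 20) .nil))))) .nil))) (.nd (nat_lit 6) 
(.lf (nat_lit 66854) (.g (nat_lit 2429) (.e (nat_lit 1615) (nat_lit 113) (.e (nat_lit 376865) (nat_lit 22) (.e (nat_lit 90185) (nat_lit 17) (.e (nat_lit 237595) (nat_lit 4) .nil)))) .nil)) 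
(.lf (nat_lit 66918) (.g (nat_lit 790) (.e (nat_lit 1617) (nat_lit 113) (.e (nat_lit 376835) (nat_lit 0) (.e (nat_lit 3746) (nat_lit 228) (.e (nat_lit 786483) (nat_lit 30) .nil)))) .nil)))) (.nd (nat_lit 5) (.nd (nat_lit 6) 
(.lf (nat_lit 66838) (.g (nat_lit 3062) (.e (nat_lit 1615) (nat_lit 113) (.e (nat_lit 376865) (nat_lit 22) (.e (nat_lit 90185) (nat_lit 17) (.e (nat_lit 237583) (nat_lit 1) .nil)))) .nil)) 
(.lf (nat_lit 66902) (.g (nat_lit 2093) (.e (nat_lit 1616) (nat_lit 113) (.e (nat_lit 376842) (nat_lit 11) (.e (nat_lit 426343) (nat_lit 14) (.e (nat_lit 491558) (nat_lit 10) (.e (nat_lit 344174) (nat_lit 42) .nil))))) .nil))) (.nd (nat_lit 6) 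
(.lf (nat_lit 66870) (.g (nat_lit 1158) (.e (nat_lit 1615) (nat_lit 113) (.e (nat_lit 376869) (nat_lit 23) (.e (nat_lit 98365) (nat_lit 26) (.e (nat_lit 426100) (nat_lit 1) (.e (nat_lit 164403) (nat_lit 256) .nil))))) .nil)) 
(.lf (nat_lit 66934) (.g (nat_lit 572) (.e (nat_lit 1618) (nat_lit 113) (.e (nat_lit 376869) (nat_lit 23) (.e (nat_lit 98350) (nat_lit 24) .nil))) .nil))))) (.nd (nat_lit 4) (.nd (nat_lit 5) (.nd (nat_lit 6) 
(.lf (nat_lit 66830) (.g (nat_lit 514) (.e (nat_lit 1615) (nat_lit 113) (.e (nat_lit 376865) (nat_lit 22) (.e (nat_lit 90185) (nat_lit 17) .nil))) .nil)) 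
(.lf (nat_lit 66894) (.g (nat_lit 1114) (.e (nat_lit 1616) (nat_lit 113) (.e (nat_lit 376842) (nat_lit 11) (.e (nat_lit 426010) (nat_lit 0) .nil))) .nil))) (.nd (nat_lit 6) 
(.lf (nat_lit 66862) (.g (nat_lit 1080) (.e (nat_lit 1615) (nat_lit 113) (.e (nat_lit 376869) (nat_lit 23) (.e (nat_lit 98365) (nat_lit 26) (.e (nat_lit 426099) (nat_lit 1) .nil)))) .nil)) 
(.lf (nat_lit 66926) (.g (nat_lit 1387) (.e (nat_lit 1617) (nat_lit 113) (.e (nat_lit 376862) (nat_lit 22) (.e (nat_lit 90185) (nat_lit 17) (.e (nat_lit 237582) (nat_lit 1) .nil)))) .nil)))) (.nd (nat_lit 5) (.nd (nat_lit 6) 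
(.lf (nat_lit 66846) (.g (nat_lit 2893) (.e (nat_lit 1615) (nat_lit 113) (.e (nat_lit 376865) (nat_lit 22) (.e (nat_lit 90185) (nat_lit 17) (.e (nat_lit 237585) (nat_lit 1) (.e (nat_lit 164305) (nat_lit 226) (.e (nat_lit 7936) (nat_lit 81) (.e (nat_lit 1239) (nat_lit 91) (.e (nat_lit 98048) (nat_lit 0) .nil)))))))) (.g (nat_lit 5) .nil .nil))) 
(.lf (nat_lit 66910) (.g (nat_lit 836) (.e (nat_lit 1616) (nat_lit 113) (.e (nat_lit 376865) (nat_lit 22) (.e (nat_lit 90155) (nat_lit 10) .nil))) .nil))) (.nd (nat_lit 6) 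
(.lf (nat_lit 66878) (.g (nat_lit 1662) (.e (nat_lit 1615) (nat_lit 113) (.e (nat_lit 376869) (nat_lit 23) (.e (nat_lit 98384) (nat_lit 32) (.e (nat_lit 475201) (nat_lit 40) (.e (nat_lit 704743) (nat_lit 12) (.e (nat_lit 57476) (nat_lit 28) (.e (nat_lit 564992) (nat_lit 0) .nil))))))) (.g (nat_lit 5) .nil .nil))) 
(.lf (nat_lit 66942) (.g (nat_lit 866) (.e (nat_lit 1619) (nat_lit 113) (.e (nat_lit 376842) (nat_lit 11) (.e (nat_lit 426408) (nat_lit 15) .nil))) .nil)))))))) (.nd (nat_lit 1) (.nd (nat_lit 2) (.nd (nat_lit 3) (.nd (nat_lit 4) (.nd (nat_lit 5) (.nd (nat_lit 6) 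
(.lf (nat_lit 66817) (.g (nat_lit 1404) (.e (nat_lit 1615) (nat_lit 113) (.e (nat_lit 376865) (nat_lit 22) (.e (nat_lit 90172) (nat_lit 14) (.e (nat_lit 180229) (nat_lit 0) .nil)))) .nil)) 
(.lf (nat_lit 66881) (.g (nat_lit 1586) (.e (nat_lit 1615) (nat_lit 113) (.e (nat_lit 376869) (nat_lit 23) (.e (nat_lit 98384) (nat_lit 32) (.e (nat_lit 483072) (nat_lit 40) (.e (nat_lit 704754) (nat_lit 12) (.e (nat_lit 57478) (nat_lit 28) (.e (nat_lit 564992) (nat_lit 0) .nil))))))) (.g (nat_lit 5) .nil .nil)))) (.nd (nat_lit 6) 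
(.lf (nat_lit 66849) (.g (nat_lit 2244) (.e (nat_lit 1615) (nat_lit 113) (.e (nat_lit 376865) (nat_lit 22) (.e (nat_lit 90185) (nat_lit 17) (.e (nat_lit 237585) (nat_lit 1) (.e (nat_lit 164307) (nat_lit 226) (.e (nat_lit 7936) (nat_lit 87) (.e (nat_lit 57454) (nat_lit 21) (.e (nat_lit 507648) (nat_lit 14) .nil)))))))) (.g (nat_lit 4) .nil .nil))) 
(.lf (nat_lit 66913) (.g (nat_lit 4027) (.e (nat_lit 1616) (nat_lit 113) (.e (nat_lit 376869) (nat_lit 23) (.e (nat_lit 98349) (nat_lit 24) (.e (nat_lit 409646) (nat_lit 18) (.e (nat_lit 303117) (nat_lit 2) (.e (nat_lit 196630) (nat_lit 9) .nil)))))) (.g (nat_lit 0) .nil .nil))))) (.nd (nat_lit 5) (.nd (nat_lit 6) 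
(.lf (nat_lit 66833) (.g (nat_lit 1600) (.e (nat_lit 1615) (nat_lit 113) (.e (nat_lit 376865) (nat_lit 22) (.e (nat_lit 90185) (nat_lit 17) (.e (nat_lit 237582) (nat_lit 1) .nil)))) .nil)) 
(.lf (nat_lit 66897) (.g (nat_lit 2170) (.e (nat_lit 1616) (nat_lit 113) (.e (nat_lit 376842) (nat_lit 11) (.e (nat_lit 426011) (nat_lit 0) (.e (nat_lit 7593) (nat_lit 407) (.e (nat_lit 73772) (nat_lit 24) .nil))))) .nil))) (.nd (nat_lit 6) 
(.lf (nat_lit 66865) (.g (nat_lit 2003) (.e (nat_lit 1615) (nat_lit 113) (.e (nat_lit 376869) (nat_lit 23) (.e (nat_lit 98365) (nat_lit 26) (.e (nat_lit 426100) (nat_lit 1) (.e (nat_lit 164307) (nat_lit 226) .nil))))) .nil)) 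
(.lf (nat_lit 66929) (.g (nat_lit 1173) (.e (nat_lit 1618) (nat_lit 113) (.e (nat_lit 376842) (nat_lit 11) (.e (nat_lit 426338) (nat_lit 14) .nil))) .nil))))) (.nd (nat_lit 4) (.nd (nat_lit 5) (.nd (nat_lit 6) 
(.lf (nat_lit 66825) (.g (nat_lit 1440) (.e (nat_lit 1615) (nat_lit 113) (.e (nat_lit 376865) (nat_lit 22) (.e (nat_lit 90174) (nat_lit 14) (.e (nat_lit 180228) (nat_lit 0) .nil)))) .nil)) 
(.lf (nat_lit 66889) (.g (nat_lit 1714) (.e (nat_lit 1615) (nat_lit 113) (.e (nat_lit 376869) (nat_lit 23) (.e (nat_lit 98387) (nat_lit 33) (.e (nat_lit 491550) (nat_lit 9) (.e (nat_lit 336306) (nat_lit 15) (.e (nat_lit 3297) (nat_lit 202) (.e (nat_lit 573450) (nat_lit 9) .nil))))))) (.g (nat_lit 4) .nil .nil)))) (.nd (nat_lit 6) 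
(.lf (nat_lit 66857) (.g (nat_lit 393) (.e (nat_lit 1615) (nat_lit 113) (.e (nat_lit 376867) (nat_lit 23) (.e (nat_lit 98387) (nat_lit 33) .nil))) .nil)) 
(.lf (nat_lit 66921) (.g (nat_lit 3906) (.e (nat_lit 1617) (nat_lit 113) (.e (nat_lit 376842) (nat_lit 11) (.e (nat_lit 426338) (nat_lit 14) (.e (nat_lit 491566) (nat_lit 12) (.e (nat_lit 385077) (nat_lit 34) .nil))))) .nil)))) (.nd (nat_lit 5) (.nd (nat_lit 6) 
(.lf (nat_lit 66841) (.g (nat_lit 2169) (.e (nat_lit 1615) (nat_lit 113) (.e (nat_lit 376865) (nat_lit 22) (.e (nat_lit 90185) (nat_lit 17) (.e (nat_lit 237584) (nat_lit 1) (.e (nat_lit 164325) (nat_lit 230) (.e (nat_lit 163861) (nat_lit 1) (.e (nat_lit 164130) (nat_lit 134) (.e (nat_lit 982) (nat_lit 81) .nil)))))))) (.g (nat_lit 5) .nil .nil))) 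
(.lf (nat_lit 66905) (.g (nat_lit 2272) (.e (nat_lit 1616) (nat_lit 113) (.e (nat_lit 376842) (nat_lit 11) (.e (nat_lit 426343) (nat_lit 14) (.e (nat_lit 491560) (nat_lit 10) (.e (nat_lit 344174) (nat_lit 42) .nil))))) .nil))) (.nd (nat_lit 6) 
(.lf (nat_lit 66873) (.g (nat_lit 2465) (.e (nat_lit 1615) (nat_lit 113) (.e (nat_lit 376869) (nat_lit 23) (.e (nat_lit 98367) (nat_lit 27) (.e (nat_lit 434272) (nat_lit 38) (.e (nat_lit 655373) (nat_lit 3) (.e (nat_lit 163975) (nat_lit 30) (.e (nat_lit 573450) (nat_lit 9) .nil))))))) (.g (nat_lit 5) .nil .nil))) 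
(.lf (nat_lit 66937) (.g (nat_lit 3625) (.e (nat_lit 1619) (nat_lit 113) (.e (nat_lit 376842) (nat_lit 11) (.e (nat_lit 426338) (nat_lit 14) (.e (nat_lit 491566) (nat_lit 12) (.e (nat_lit 385077) (nat_lit 34) (.e (nat_lit 605952) (nat_lit 5) .nil)))))) (.g (nat_lit 5) .nil .nil))))))) (.nd (nat_lit 3) (.nd (nat_lit 4) (.nd (nat_lit 5) (.nd (nat_lit 6) 
(.lf (nat_lit 66821) (.g (nat_lit 1235) (.e (nat_lit 1615) (nat_lit 113) (.e (nat_lit 376865) (nat_lit 22) (.e (nat_lit 90172) (nat_lit 14) (.e (nat_lit 188160) (nat_lit 19) .nil)))) .nil)) 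
(.lf (nat_lit 66885) (.g (nat_lit 3183) (.e (nat_lit 1615) (nat_lit 113) (.e (nat_lit 376869) (nat_lit 23) (.e (nat_lit 98384) (nat_lit 32) (.e (nat_lit 475214) (nat_lit 42) (.e (nat_lit 720920) (nat_lit 20) (.e (nat_lit 1855) (nat_lit 124) (.e (nat_lit 564992) (nat_lit 0) .nil))))))) (.g (nat_lit 4) .nil .nil)))) (.nd (nat_lit 6) 
(.lf (nat_lit 66853) (.g (nat_lit 2696) (.e (nat_lit 1615) (nat_lit 113) (.e (nat_lit 376865) (nat_lit 22) (.e (nat_lit 90185) (nat_lit 17) (.e (nat_lit 237585) (nat_lit 1) (.e (nat_lit 164403) (nat_lit 256) (.e (nat_lit 57346) (nat_lit 0) (.e (nat_lit 7936) (nat_lit 126) (.e (nat_lit 573449) (nat_lit 9) .nil)))))))) (.g (nat_lit 6) .nil .nil))) 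
(.lf (nat_lit 66917) (.g (nat_lit 979) (.e (nat_lit 1616) (nat_lit 113) (.e (nat_lit 376869) (nat_lit 23) (.e (nat_lit 98389) (nat_lit 33) (.e (nat_lit 491544) (nat_lit 7) .nil)))) .nil)))) (.nd (nat_lit 5) (.nd (nat_lit 6) 
(.lf (nat_lit 66837) (.g (nat_lit 2296) (.e (nat_lit 1615) (nat_lit 113) (.e (nat_lit 376865) (nat_lit 22) (.e (nat_lit 90185) (nat_lit 17) (.e (nat_lit 237582) (nat_lit 1) (.e (nat_lit 164307) (nat_lit 226) (.e (nat_lit 7936) (nat_lit 87) (.e (nat_lit 57454) (nat_lit 21) (.e (nat_lit 507648) (nat_lit 14) .nil)))))))) (.g (nat_lit 4) .nil .nil))) 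
(.lf (nat_lit 66901) (.g (nat_lit 2413) (.e (nat_lit 1616) (nat_lit 113) (.e (nat_lit 376842) (nat_lit 11) (.e (nat_lit 426342) (nat_lit 14) (.e (nat_lit 491560) (nat_lit 10) (.e (nat_lit 344174) (nat_lit 42) .nil))))) .nil))) (.nd (nat_lit 6) 
(.lf (nat_lit 66869) (.g (nat_lit 2497) (.e (nat_lit 1615) (nat_lit 113) (.e (nat_lit 376869) (nat_lit 23) (.e (nat_lit 98365) (nat_lit 26) (.e (nat_lit 426100) (nat_lit 1) (.e (nat_lit 164399) (nat_lit 256) (.e (nat_lit 57353) (nat_lit 0) (.e (nat_lit 7936) (nat_lit 126) (.e (nat_lit 573449) (nat_lit 9) .nil)))))))) (.g (nat_lit 5) .nil .nil))) 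
(.lf (nat_lit 66933) (.g (nat_lit 1832) (.e (nat_lit 1618) (nat_lit 113) (.e (nat_lit 376842) (nat_lit 11) (.e (nat_lit 426344) (nat_lit 14) (.e (nat_lit 491560) (nat_lit 10) .nil)))) .nil))))) (.nd (nat_lit 4) (.nd (nat_lit 5) (.nd (nat_lit 6) 
(.lf (nat_lit 66829) (.g (nat_lit 965) (.e (nat_lit 1615) (nat_lit 113) (.e (nat_lit 376865) (nat_lit 22) (.e (nat_lit 90181) (nat_lit 16) (.e (nat_lit 237312) (nat_lit 192) .nil)))) .nil)) 
(.lf (nat_lit 66893) (.g (nat_lit 1385) (.e (nat_lit 1616) (nat_lit 113) (.e (nat_lit 376842) (nat_lit 11) (.e (nat_lit 426009) (nat_lit 0) (.e (nat_lit 7593) (nat_lit 407) .nil)))) .nil))) (.nd (nat_lit 6) 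
(.lf (nat_lit 66861) (.g (nat_lit 1572) (.e (nat_lit 1615) (nat_lit 113) (.e (nat_lit 376869) (nat_lit 23) (.e (nat_lit 98356) (nat_lit 26) (.e (nat_lit 426467) (nat_lit 24) (.e (nat_lit 155674) (nat_lit 12) .nil))))) .nil)) 
(.lf (nat_lit 66925) (.g (nat_lit 1157) (.e (nat_lit 1617) (nat_lit 113) (.e (nat_lit 376842) (nat_lit 11) (.e (nat_lit 426344) (nat_lit 14) .nil))) .nil)))) (.nd (nat_lit 5) (.nd (nat_lit 6) 
(.lf (nat_lit 66845) (.g (nat_lit 2057) (.e (nat_lit 1615) (nat_lit 113) (.e (nat_lit 376865) (nat_lit 22) (.e (nat_lit 90185) (nat_lit 17) (.e (nat_lit 237585) (nat_lit 1) (.e (nat_lit 164297) (nat_lit 226) (.e (nat_lit 999) (nat_lit 81) (.e (nat_lit 1239) (nat_lit 91) (.e (nat_lit 98048) (nat_lit 0) .nil)))))))) (.g (nat_lit 4) .nil .nil))) 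
(.lf (nat_lit 66909) (.g (nat_lit 1436) (.e (nat_lit 1616) (nat_lit 113) (.e (nat_lit 376859) (nat_lit 21) (.e (nat_lit 57872) (nat_lit 264) (.e (nat_lit 1190) (nat_lit 88) (.e (nat_lit 65619) (nat_lit 10) .nil))))) .nil))) (.nd (nat_lit 6) 
(.lf (nat_lit 66877) (.g (nat_lit 6071) (.e (nat_lit 1615) (nat_lit 113) (.e (nat_lit 376869) (nat_lit 23) (.e (nat_lit 98384) (nat_lit 32) (.e (nat_lit 475199) (nat_lit 40) (.e (nat_lit 704590) (nat_lit 3) (.e (nat_lit 163975) (nat_lit 30) (.e (nat_lit 573450) (nat_lit 9) .nil))))))) (.g (nat_lit 0) .nil .nil))) 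
(.lf (nat_lit 66941) (.g (nat_lit 728) (.e (nat_lit 1619) (nat_lit 113) (.e (nat_lit 376842) (nat_lit 11) (.e (nat_lit 426344) (nat_lit 14) .nil))) .nil))))))) (.nd (nat_lit 2) (.nd (nat_lit 3) (.nd (nat_lit 4) (.nd (nat_lit 5) (.nd (nat_lit 6) 
(.lf (nat_lit 66819) (.g (nat_lit 2001) (.e (nat_lit 1615) (nat_lit 113) (.e (nat_lit 376865) (nat_lit 22) (.e (nat_lit 90172) (nat_lit 14) (.e (nat_lit 180229) (nat_lit 0) (.e (nat_lit 5548) (nat_lit 306) .nil))))) .nil)) 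
(.lf (nat_lit 66883) (.g (nat_lit 4731) (.e (nat_lit 1615) (nat_lit 113) (.e (nat_lit 376869) (nat_lit 23) (.e (nat_lit 98384) (nat_lit 32) (.e (nat_lit 475210) (nat_lit 41) (.e (nat_lit 712722) (nat_lit 15) (.e (nat_lit 3302) (nat_lit 202) (.e (nat_lit 573450) (nat_lit 9) .nil))))))) (.g (nat_lit 0) .nil .nil)))) (.nd (nat_lit 6) 
(.lf (nat_lit 66851) (.g (nat_lit 1803) (.e (nat_lit 1615) (nat_lit 113) (.e (nat_lit 376865) (nat_lit 22) (.e (nat_lit 90185) (nat_lit 17) (.e (nat_lit 237585) (nat_lit 1) (.e (nat_lit 164402) (nat_lit 256) (.e (nat_lit 57349) (nat_lit 0) (.e (nat_lit 7936) (nat_lit 126) (.e (nat_lit 573449) (nat_lit 9) .nil)))))))) (.g (nat_lit 4) .nil .nil))) 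
(.lf (nat_lit 66915) (.g (nat_lit 2730) (.e (nat_lit 1616) (nat_lit 113) (.e (nat_lit 376869) (nat_lit 23) (.e (nat_lit 98350) (nat_lit 24) (.e (nat_lit 409645) (nat_lit 18) (.e (nat_lit 303117) (nat_lit 2) .nil))))) .nil)))) (.nd (nat_lit 5) (.nd (nat_lit 6) 
(.lf (nat_lit 66835) (.g (nat_lit 2877) (.e (nat_lit 1615) (nat_lit 113) (.e (nat_lit 376865) (nat_lit 22) (.e (nat_lit 90185) (nat_lit 17) (.e (nat_lit 237582) (nat_lit 1) (.e (nat_lit 164305) (nat_lit 226) (.e (nat_lit 7936) (nat_lit 81) (.e (nat_lit 1239) (nat_lit 91) (.e (nat_lit 98048) (nat_lit 0) .nil)))))))) (.g (nat_lit 5) .nil .nil))) 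
(.lf (nat_lit 66899) (.g (nat_lit 1171) (.e (nat_lit 1616) (nat_lit 113) (.e (nat_lit 376842) (nat_lit 11) (.e (nat_lit 426341) (nat_lit 14) .nil))) .nil))) (.nd (nat_lit 6) 
(.lf (nat_lit 66867) (.g (nat_lit 2703) (.e (nat_lit 1615) (nat_lit 113) (.e (nat_lit 376869) (nat_lit 23) (.e (nat_lit 98365) (nat_lit 26) (.e (nat_lit 426100) (nat_lit 1) (.e (nat_lit 164398) (nat_lit 256) (.e (nat_lit 65280) (nat_lit 63) (.e (nat_lit 196624) (nat_lit 9) .nil))))))) (.g (nat_lit 5) .nil .nil))) 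
(.lf (nat_lit 66931) (.g (nat_lit 1817) (.e (nat_lit 1618) (nat_lit 113) (.e (nat_lit 376842) (nat_lit 11) (.e (nat_lit 426343) (nat_lit 14) (.e (nat_lit 491560) (nat_lit 10) .nil)))) .nil))))) (.nd (nat_lit 4) (.nd (nat_lit 5) (.nd (nat_lit 6) 
(.lf (nat_lit 66827) (.g (nat_lit 1632) (.e (nat_lit 1615) (nat_lit 113) (.e (nat_lit 376865) (nat_lit 22) (.e (nat_lit 90174) (nat_lit 14) (.e (nat_lit 180261) (nat_lit 20) .nil)))) .nil)) 
(.lf (nat_lit 66891) (.g (nat_lit 2961) (.e (nat_lit 1615) (nat_lit 113) (.e (nat_lit 376869) (nat_lit 23) (.e (nat_lit 98389) (nat_lit 33) (.e (nat_lit 491560) (nat_lit 10) (.e (nat_lit 344126) (nat_lit 25) (.e (nat_lit 548870) (nat_lit 5) .nil)))))) (.g (nat_lit 0) .nil .nil)))) (.nd (nat_lit 6) 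
(.lf (nat_lit 66859) (.g (nat_lit 1591) (.e (nat_lit 1615) (nat_lit 113) (.e (nat_lit 376868) (nat_lit 23) (.e (nat_lit 98350) (nat_lit 24) (.e (nat_lit 409649) (nat_lit 18) (.e (nat_lit 303111) (nat_lit 0) .nil))))) .nil)) 
(.lf (nat_lit 66923) (.g (nat_lit 1827) (.e (nat_lit 1617) (nat_lit 113) (.e (nat_lit 376842) (nat_lit 11) (.e (nat_lit 426343) (nat_lit 14) (.e (nat_lit 491558) (nat_lit 10) .nil)))) .nil)))) (.nd (nat_lit 5) (.nd (nat_lit 6) 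
(.lf (nat_lit 66843) (.g (nat_lit 1732) (.e (nat_lit 1615) (nat_lit 113) (.e (nat_lit 376865) (nat_lit 22) (.e (nat_lit 90185) (nat_lit 17) (.e (nat_lit 237584) (nat_lit 1) (.e (nat_lit 164401) (nat_lit 256) (.e (nat_lit 57354) (nat_lit 0) (.e (nat_lit 7936) (nat_lit 126) (.e (nat_lit 573449) (nat_lit 9) .nil)))))))) (.g (nat_lit 4) .nil .nil))) 
(.lf (nat_lit 66907) (.g (nat_lit 1828) (.e (nat_lit 1616) (nat_lit 113) (.e (nat_lit 376842) (nat_lit 11) (.e (nat_lit 426344) (nat_lit 14) (.e (nat_lit 491560) (nat_lit 10) .nil)))) .nil))) (.nd (nat_lit 6) 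
(.lf (nat_lit 66875) (.g (nat_lit 4650) (.e (nat_lit 1615) (nat_lit 113) (.e (nat_lit 376869) (nat_lit 23) (.e (nat_lit 98384) (nat_lit 32) (.e (nat_lit 475198) (nat_lit 40) (.e (nat_lit 704590) (nat_lit 3) (.e (nat_lit 163975) (nat_lit 30) (.e (nat_lit 573450) (nat_lit 9) .nil))))))) (.g (nat_lit 7) .nil .nil))) 
(.lf (nat_lit 66939) (.g (nat_lit 2668) (.e (nat_lit 1619) (nat_lit 113) (.e (nat_lit 376842) (nat_lit 11) (.e (nat_lit 426343) (nat_lit 14) (.e (nat_lit 491558) (nat_lit 10) (.e (nat_lit 344176) (nat_lit 43) .nil))))) .nil)))))) (.nd (nat_lit 3) (.nd (nat_lit 4) (.nd (nat_lit 5) (.nd (nat_lit 6) 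
(.lf (nat_lit 66823) (.g (nat_lit 586) (.e (nat_lit 1615) (nat_lit 113) (.e (nat_lit 376865) (nat_lit 22) (.e (nat_lit 90174) (nat_lit 14) .nil))) .nil)) 
(.lf (nat_lit 66887) (.g (nat_lit 1880) (.e (nat_lit 1615) (nat_lit 113) (.e (nat_lit 376869) (nat_lit 23) (.e (nat_lit 98384) (nat_lit 32) (.e (nat_lit 475214) (nat_lit 42) (.e (nat_lit 728832) (nat_lit 20) (.e (nat_lit 1855) (nat_lit 124) (.e (nat_lit 564992) (nat_lit 0) .nil))))))) (.g (nat_lit 6) .nil .nil)))) (.nd (nat_lit 6) 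
(.lf (nat_lit 66855) (.g (nat_lit 2861) (.e (nat_lit 1615) (nat_lit 113) (.e (nat_lit 376867) (nat_lit 23) (.e (nat_lit 98349) (nat_lit 24) (.e (nat_lit 409644) (nat_lit 18) (.e (nat_lit 303117) (nat_lit 2) (.e (nat_lit 196624) (nat_lit 9) .nil)))))) (.g (nat_lit 6) .nil .nil))) 
(.lf (nat_lit 66919) (.g (nat_lit 2058) (.e (nat_lit 1617) (nat_lit 113) (.e (nat_lit 376842) (nat_lit 11) (.e (nat_lit 426011) (nat_lit 0) (.e (nat_lit 7591) (nat_lit 407) .nil)))) .nil)))) (.nd (nat_lit 5) (.nd (nat_lit 6) 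
(.lf (nat_lit 66839) (.g (nat_lit 1434) (.e (nat_lit 1615) (nat_lit 113) (.e (nat_lit 376865) (nat_lit 22) (.e (nat_lit 90185) (nat_lit 17) (.e (nat_lit 237584) (nat_lit 1) .nil)))) .nil)) 
(.lf (nat_lit 66903) (.g (nat_lit 2113) (.e (nat_lit 1616) (nat_lit 113) (.e (nat_lit 376842) (nat_lit 11) (.e (nat_lit 426343) (nat_lit 14) (.e (nat_lit 491558) (nat_lit 10) (.e (nat_lit 344174) (nat_lit 42) (.e (nat_lit 761867) (nat_lit 5) .nil)))))) (.g (nat_lit 4) .nil .nil)))) (.nd (nat_lit 6) 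
(.lf (nat_lit 66871) (.g (nat_lit 2038) (.e (nat_lit 1615) (nat_lit 113) (.e (nat_lit 376869) (nat_lit 23) (.e (nat_lit 98366) (nat_lit 27) (.e (nat_lit 434275) (nat_lit 39) (.e (nat_lit 663565) (nat_lit 3) .nil))))) .nil)) 
(.lf (nat_lit 66935) (.g (nat_lit 2728) (.e (nat_lit 1619) (nat_lit 113) (.e (nat_lit 376842) (nat_lit 11) (.e (nat_lit 426338) (nat_lit 14) (.e (nat_lit 491560) (nat_lit 10) (.e (nat_lit 344177) (nat_lit 43) .nil))))) .nil))))) (.nd (nat_lit 4) (.nd (nat_lit 5) (.nd (nat_lit 6) 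
(.lf (nat_lit 66831) (.g (nat_lit 1949) (.e (nat_lit 1615) (nat_lit 113) (.e (nat_lit 376865) (nat_lit 22) (.e (nat_lit 90185) (nat_lit 17) (.e (nat_lit 237573) (nat_lit 0) .nil)))) .nil)) 
(.lf (nat_lit 66895) (.g (nat_lit 1507) (.e (nat_lit 1616) (nat_lit 113) (.e (nat_lit 376842) (nat_lit 11) (.e (nat_lit 426010) (nat_lit 0) (.e (nat_lit 7593) (nat_lit 407) .nil)))) .nil))) (.nd (nat_lit 6) 
(.lf (nat_lit 66863) (.g (nat_lit 1535) (.e (nat_lit 1615) (nat_lit 113) (.e (nat_lit 376869) (nat_lit 23) (.e (nat_lit 98365) (nat_lit 26) (.e (nat_lit 426099) (nat_lit 1) (.e (nat_lit 164399) (nat_lit 256) (.e (nat_lit 57348) (nat_lit 0) (.e (nat_lit 7936) (nat_lit 126) (.e (nat_lit 573449) (nat_lit 9) .nil)))))))) (.g (nat_lit 4) .nil .nil))) 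
(.lf (nat_lit 66927) (.g (nat_lit 1999) (.e (nat_lit 1617) (nat_lit 113) (.e (nat_lit 376865) (nat_lit 22) (.e (nat_lit 90185) (nat_lit 17) (.e (nat_lit 237582) (nat_lit 1) .nil)))) .nil)))) (.nd (nat_lit 5) (.nd (nat_lit 6) 
(.lf (nat_lit 66847) (.g (nat_lit 2057) (.e (nat_lit 1615) (nat_lit 113) (.e (nat_lit 376865) (nat_lit 22) (.e (nat_lit 90185) (nat_lit 17) (.e (nat_lit 237585) (nat_lit 1) (.e (nat_lit 164305) (nat_lit 226) (.e (nat_lit 7936) (nat_lit 87) (.e (nat_lit 57454) (nat_lit 21) (.e (nat_lit 507648) (nat_lit 14) .nil)))))))) (.g (nat_lit 4) .nil .nil))) 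
(.lf (nat_lit 66911) (.g (nat_lit 830) (.e (nat_lit 1616) (nat_lit 113) (.e (nat_lit 376865) (nat_lit 22) (.e (nat_lit 90185) (nat_lit 17) .nil))) .nil))) (.nd (nat_lit 6) 
(.lf (nat_lit 66879) (.g (nat_lit 1413) (.e (nat_lit 1615) (nat_lit 113) (.e (nat_lit 376869) (nat_lit 23) (.e (nat_lit 98384) (nat_lit 32) (.e (nat_lit 475201) (nat_lit 40) (.e (nat_lit 704743) (nat_lit 12) (.e (nat_lit 57480) (nat_lit 28) (.e (nat_lit 564992) (nat_lit 0) .nil))))))) (.g (nat_lit 4) .nil .nil))) 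
(.lf (nat_lit 66943) (.g (nat_lit 1195) (.e (nat_lit 1619) (nat_lit 113) (.e (nat_lit 376859) (nat_lit 21) (.e (nat_lit 57872) (nat_lit 264) (.e (nat_lit 1190) (nat_lit 88) (.e (nat_lit 65619) (nat_lit 10) .nil))))) .nil)))))))))

noncomputable def tv924 : DT := (.nd (nat_lit 0) (.nd (nat_lit 1) (.nd (nat_lit 2) (.nd (nat_lit 3) (.nd (nat_lit 4) (.nd (nat_lit 5) (.nd (nat_lit 6) 
(.lf (nat_lit 66944) (.g (nat_lit 1427) (.e (nat_lit 1619) (nat_lit 113) (.e (nat_lit 376859) (nat_lit 21) (.e (nat_lit 57872) (nat_lit 264) (.e (nat_lit 1219) (nat_lit 90) (.e (nat_lit 81943) (nat_lit 20) .nil))))) .nil)) 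
(.lf (nat_lit 67008) (.g (nat_lit 2165) (.e (nat_lit 1626) (nat_lit 114) (.e (nat_lit 385094) (nat_lit 49) (.e (nat_lit 778320) (nat_lit 4) (.e (nat_lit 65630) (nat_lit 14) (.e (nat_lit 401454) (nat_lit 12) .nil))))) .nil))) (.nd (nat_lit 6) 
(.lf (nat_lit 66976) (.g (nat_lit 911) (.e (nat_lit 1626) (nat_lit 114) (.e (nat_lit 385068) (nat_lit 26) (.e (nat_lit 532504) (nat_lit 1) .nil))) .nil)) 
(.lf (nat_lit 67040) (.g (nat_lit 1873) (.e (nat_lit 1628) (nat_lit 114) (.e (nat_lit 385074) (nat_lit 31) (.e (nat_lit 573493) (nat_lit 15) (.e (nat_lit 81956) (nat_lit 23) .nil)))) .nil)))) (.nd (nat_lit 5) (.nd (nat_lit 6) 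
(.lf (nat_lit 66960) (.g (nat_lit 553) (.e (nat_lit 1624) (nat_lit 113) (.e (nat_lit 376862) (nat_lit 22) (.e (nat_lit 90185) (nat_lit 17) .nil))) .nil)) 
(.lf (nat_lit 67024) (.g (nat_lit 3208) (.e (nat_lit 1627) (nat_lit 114) (.e (nat_lit 385074) (nat_lit 31) (.e (nat_lit 573493) (nat_lit 15) (.e (nat_lit 81956) (nat_lit 23) (.e (nat_lit 98321) (nat_lit 17) (.e (nat_lit 7936) (nat_lit 402) .nil)))))) (.g (nat_lit 4) .nil .nil)))) (.nd (nat_lit 6) 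
(.lf (nat_lit 66992) (.g (nat_lit 2153) (.e (nat_lit 1626) (nat_lit 114) (.e (nat_lit 385074) (nat_lit 31) (.e (nat_lit 573485) (nat_lit 13) (.e (nat_lit 65619) (nat_lit 10) (.e (nat_lit 344117) (nat_lit 21) (.e (nat_lit 516098) (nat_lit 0) (.e (nat_lit 7513) (nat_lit 402) .nil))))))) (.g (nat_lit 4) .nil .nil))) 
(.lf (nat_lit 67056) (.g (nat_lit 2199) (.e (nat_lit 1630) (nat_lit 114) (.e (nat_lit 385068) (nat_lit 26) (.e (nat_lit 532504) (nat_lit 1) (.e (nat_lit 57829) (nat_lit 250) .nil)))) .nil))))) (.nd (nat_lit 4) (.nd (nat_lit 5) (.nd (nat_lit 6) 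
(.lf (nat_lit 66952) (.g (nat_lit 2049) (.e (nat_lit 1619) (nat_lit 113) (.e (nat_lit 376865) (nat_lit 22) (.e (nat_lit 90185) (nat_lit 17) (.e (nat_lit 237585) (nat_lit 1) .nil)))) .nil)) 
(.lf (nat_lit 67016) (.g (nat_lit 1869) (.e (nat_lit 1627) (nat_lit 114) (.e (nat_lit 385066) (nat_lit 26) (.e (nat_lit 532534) (nat_lit 9) (.e (nat_lit 336211) (nat_lit 13) (.e (nat_lit 393253) (nat_lit 18) .nil))))) .nil))) (.nd (nat_lit 6) 
(.lf (nat_lit 66984) (.g (nat_lit 2337) (.e (nat_lit 1626) (nat_lit 114) (.e (nat_lit 385074) (nat_lit 31) (.e (nat_lit 573482) (nat_lit 13) (.e (nat_lit 65604) (nat_lit 9) .nil)))) .nil)) 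
(.lf (nat_lit 67048) (.g (nat_lit 2284) (.e (nat_lit 1629) (nat_lit 114) (.e (nat_lit 385074) (nat_lit 31) (.e (nat_lit 573482) (nat_lit 13) (.e (nat_lit 65604) (nat_lit 9) .nil)))) .nil)))) (.nd (nat_lit 5) (.nd (nat_lit 6) 
(.lf (nat_lit 66968) (.g (nat_lit 1948) (.e (nat_lit 1625) (nat_lit 113) (.e (nat_lit 376865) (nat_lit 22) (.e (nat_lit 90185) (nat_lit 17) (.e (nat_lit 237582) (nat_lit 1) .nil)))) .nil)) 
(.lf (nat_lit 67032) (.g (nat_lit 1353) (.e (nat_lit 1628) (nat_lit 114) (.e (nat_lit 385066) (nat_lit 26) (.e (nat_lit 532533) (nat_lit 9) (.e (nat_lit 336211) (nat_lit 13) (.e (nat_lit 393252) (nat_lit 18) .nil))))) .nil))) (.nd (nat_lit 6) 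
(.lf (nat_lit 67000) (.g (nat_lit 1442) (.e (nat_lit 1626) (nat_lit 114) (.e (nat_lit 385094) (nat_lit 49) (.e (nat_lit 778317) (nat_lit 3) (.e (nat_lit 57477) (nat_lit 28) (.e (nat_lit 557108) (nat_lit 15) .nil))))) .nil)) 
(.lf (nat_lit 67064) (.g (nat_lit 3168) (.e (nat_lit 1630) (nat_lit 114) (.e (nat_lit 385074) (nat_lit 31) (.e (nat_lit 573493) (nat_lit 15) (.e (nat_lit 81956) (nat_lit 23) (.e (nat_lit 98325) (nat_lit 17) .nil))))) .nil)))))) (.nd (nat_lit 3) (.nd (nat_lit 4) (.nd (nat_lit 5) (.nd (nat_lit 6) 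
(.lf (nat_lit 66948) (.g (nat_lit 474) (.e (nat_lit 1619) (nat_lit 113) (.e (nat_lit 376859) (nat_lit 21) (.e (nat_lit 57873) (nat_lit 264) .nil))) .nil)) 
(.lf (nat_lit 67012) (.g (nat_lit 849) (.e (nat_lit 1626) (nat_lit 114) (.e (nat_lit 385105) (nat_lit 50) (.e (nat_lit 786450) (nat_lit 15) .nil))) .nil))) (.nd (nat_lit 6) 
(.lf (nat_lit 66980) (.g (nat_lit 923) (.e (nat_lit 1626) (nat_lit 114) (.e (nat_lit 385068) (nat_lit 26) (.e (nat_lit 532534) (nat_lit 9) .nil))) .nil)) 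
(.lf (nat_lit 67044) (.g (nat_lit 1594) (.e (nat_lit 1629) (nat_lit 114) (.e (nat_lit 385066) (nat_lit 26) (.e (nat_lit 532534) (nat_lit 9) (.e (nat_lit 336211) (nat_lit 13) .nil)))) .nil)))) (.nd (nat_lit 5) (.nd (nat_lit 6) 
(.lf (nat_lit 66964) (.g (nat_lit 1387) (.e (nat_lit 1625) (nat_lit 113) (.e (nat_lit 376862) (nat_lit 22) (.e (nat_lit 90185) (nat_lit 17) (.e (nat_lit 237582) (nat_lit 1) .nil)))) .nil)) 
(.lf (nat_lit 67028) (.g (nat_lit 3543) (.e (nat_lit 1627) (nat_lit 114) (.e (nat_lit 385094) (nat_lit 49) (.e (nat_lit 778317) (nat_lit 3) (.e (nat_lit 57476) (nat_lit 28) (.e (nat_lit 557108) (nat_lit 15) (.e (nat_lit 188458) (nat_lit 25) (.e (nat_lit 245784) (nat_lit 9) .nil))))))) (.g (nat_lit 0) .nil .nil)))) (.nd (nat_lit 6) 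
(.lf (nat_lit 66996) (.g (nat_lit 1426) (.e (nat_lit 1626) (nat_lit 114) (.e (nat_lit 385093) (nat_lit 49) (.e (nat_lit 778323) (nat_lit 5) (.e (nat_lit 73781) (nat_lit 32) .nil)))) .nil)) 
(.lf (nat_lit 67060) (.g (nat_lit 3352) (.e (nat_lit 1630) (nat_lit 114) (.e (nat_lit 385074) (nat_lit 31) (.e (nat_lit 573485) (nat_lit 13) (.e (nat_lit 65604) (nat_lit 9) (.e (nat_lit 336028) (nat_lit 3) (.e (nat_lit 98325) (nat_lit 17) (.e (nat_lit 7936) (nat_lit 402) .nil))))))) (.g (nat_lit 6) .nil .nil)))))) (.nd (nat_lit 4) (.nd (nat_lit 5) (.nd (nat_lit 6) 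
(.lf (nat_lit 66956) (.g (nat_lit 830) (.e (nat_lit 1623) (nat_lit 113) (.e (nat_lit 376865) (nat_lit 22) (.e (nat_lit 90185) (nat_lit 17) .nil))) .nil)) 
(.lf (nat_lit 67020) (.g (nat_lit 2199) (.e (nat_lit 1627) (nat_lit 114) (.e (nat_lit 385068) (nat_lit 26) (.e (nat_lit 532504) (nat_lit 1) (.e (nat_lit 57829) (nat_lit 250) .nil)))) .nil))) (.nd (nat_lit 6) 
(.lf (nat_lit 66988) (.g (nat_lit 2143) (.e (nat_lit 1626) (nat_lit 114) (.e (nat_lit 385074) (nat_lit 31) (.e (nat_lit 573485) (nat_lit 13) (.e (nat_lit 65604) (nat_lit 9) (.e (nat_lit 336013) (nat_lit 2) (.e (nat_lit 90165) (nat_lit 12) (.e (nat_lit 171776) (nat_lit 187) .nil))))))) (.g (nat_lit 4) .nil .nil))) 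
(.lf (nat_lit 67052) (.g (nat_lit 947) (.e (nat_lit 1629) (nat_lit 114) (.e (nat_lit 385109) (nat_lit 51) (.e (nat_lit 794665) (nat_lit 22) .nil))) .nil)))) (.nd (nat_lit 5) (.nd (nat_lit 6) 
(.lf (nat_lit 66972) (.g (nat_lit 1863) (.e (nat_lit 7936) (nat_lit 113) (.e (nat_lit 376867) (nat_lit 23) (.e (nat_lit 98350) (nat_lit 24) (.e (nat_lit 409649) (nat_lit 18) (.e (nat_lit 303117) (nat_lit 2) .nil))))) .nil)) 
(.lf (nat_lit 67036) (.g (nat_lit 2313) (.e (nat_lit 1628) (nat_lit 114) (.e (nat_lit 385068) (nat_lit 26) (.e (nat_lit 532501) (nat_lit 1) (.e (nat_lit 57830) (nat_lit 250) .nil)))) .nil))) (.nd (nat_lit 6) 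
(.lf (nat_lit 67004) (.g (nat_lit 4414) (.e (nat_lit 1626) (nat_lit 114) (.e (nat_lit 385094) (nat_lit 49) (.e (nat_lit 778317) (nat_lit 3) (.e (nat_lit 57480) (nat_lit 28) (.e (nat_lit 557109) (nat_lit 15) (.e (nat_lit 188449) (nat_lit 22) (.e (nat_lit 196630) (nat_lit 9) .nil))))))) (.g (nat_lit 0) .nil .nil))) 
(.lf (nat_lit 67068) (.g (nat_lit 2300) (.e (nat_lit 1631) (nat_lit 114) (.e (nat_lit 385068) (nat_lit 26) (.e (nat_lit 532501) (nat_lit 1) (.e (nat_lit 57830) (nat_lit 250) .nil)))) .nil))))))) (.nd (nat_lit 2) (.nd (nat_lit 3) (.nd (nat_lit 4) (.nd (nat_lit 5) (.nd (nat_lit 6) 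
(.lf (nat_lit 66946) (.g (nat_lit 1405) (.e (nat_lit 1619) (nat_lit 113) (.e (nat_lit 376859) (nat_lit 21) (.e (nat_lit 57872) (nat_lit 264) (.e (nat_lit 1219) (nat_lit 90) (.e (nat_lit 81947) (nat_lit 20) .nil))))) .nil)) 
(.lf (nat_lit 67010) (.g (nat_lit 2918) (.e (nat_lit 1626) (nat_lit 114) (.e (nat_lit 385094) (nat_lit 49) (.e (nat_lit 778320) (nat_lit 4) (.e (nat_lit 65630) (nat_lit 14) (.e (nat_lit 401454) (nat_lit 12) (.e (nat_lit 483072) (nat_lit 8) .nil)))))) (.g (nat_lit 5) .nil .nil)))) (.nd (nat_lit 6) 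
(.lf (nat_lit 66978) (.g (nat_lit 2091) (.e (nat_lit 1626) (nat_lit 114) (.e (nat_lit 385068) (nat_lit 26) (.e (nat_lit 532530) (nat_lit 9) (.e (nat_lit 336324) (nat_lit 18) .nil)))) .nil)) 
(.lf (nat_lit 67042) (.g (nat_lit 2256) (.e (nat_lit 1628) (nat_lit 114) (.e (nat_lit 385105) (nat_lit 50) (.e (nat_lit 786450) (nat_lit 15) (.e (nat_lit 1853) (nat_lit 124) (.e (nat_lit 557108) (nat_lit 15) (.e (nat_lit 188458) (nat_lit 25) (.e (nat_lit 245784) (nat_lit 9) .nil))))))) (.g (nat_lit 4) .nil .nil))))) (.nd (nat_lit 5) (.nd (nat_lit 6) 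
(.lf (nat_lit 66962) (.g (nat_lit 1739) (.e (nat_lit 1624) (nat_lit 113) (.e (nat_lit 376869) (nat_lit 23) (.e (nat_lit 98349) (nat_lit 24) (.e (nat_lit 409646) (nat_lit 18) (.e (nat_lit 303117) (nat_lit 2) .nil))))) .nil)) 
(.lf (nat_lit 67026) (.g (nat_lit 3470) (.e (nat_lit 1627) (nat_lit 114) (.e (nat_lit 385093) (nat_lit 49) (.e (nat_lit 778317) (nat_lit 3) (.e (nat_lit 57476) (nat_lit 28) (.e (nat_lit 557108) (nat_lit 15) (.e (nat_lit 188458) (nat_lit 25) (.e (nat_lit 245784) (nat_lit 9) .nil))))))) (.g (nat_lit 6) .nil .nil)))) (.nd (nat_lit 6) 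
(.lf (nat_lit 66994) (.g (nat_lit 2278) (.e (nat_lit 1626) (nat_lit 114) (.e (nat_lit 385093) (nat_lit 49) (.e (nat_lit 778318) (nat_lit 3) (.e (nat_lit 57476) (nat_lit 28) (.e (nat_lit 557107) (nat_lit 15) .nil))))) .nil)) 
(.lf (nat_lit 67058) (.g (nat_lit 952) (.e (nat_lit 1630) (nat_lit 114) (.e (nat_lit 385068) (nat_lit 26) (.e (nat_lit 532530) (nat_lit 9) .nil))) .nil))))) (.nd (nat_lit 4) (.nd (nat_lit 5) (.nd (nat_lit 6) 
(.lf (nat_lit 66954) (.g (nat_lit 1543) (.e (nat_lit 1619) (nat_lit 113) (.e (nat_lit 376869) (nat_lit 23) (.e (nat_lit 98350) (nat_lit 24) (.e (nat_lit 409648) (nat_lit 18) .nil)))) .nil)) 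
(.lf (nat_lit 67018) (.g (nat_lit 2313) (.e (nat_lit 1627) (nat_lit 114) (.e (nat_lit 385068) (nat_lit 26) (.e (nat_lit 532501) (nat_lit 1) (.e (nat_lit 57829) (nat_lit 250) .nil)))) .nil))) (.nd (nat_lit 6) 
(.lf (nat_lit 66986) (.g (nat_lit 2086) (.e (nat_lit 1626) (nat_lit 114) (.e (nat_lit 385074) (nat_lit 31) (.e (nat_lit 573485) (nat_lit 13) (.e (nat_lit 65604) (nat_lit 9) (.e (nat_lit 336013) (nat_lit 2) .nil))))) .nil)) 
(.lf (nat_lit 67050) (.g (nat_lit 2977) (.e (nat_lit 1629) (nat_lit 114) (.e (nat_lit 385074) (nat_lit 31) (.e (nat_lit 573485) (nat_lit 13) (.e (nat_lit 65604) (nat_lit 9) (.e (nat_lit 336013) (nat_lit 2) .nil))))) .nil)))) (.nd (nat_lit 5) (.nd (nat_lit 6) 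
(.lf (nat_lit 66970) (.g (nat_lit 1997) (.e (nat_lit 1625) (nat_lit 113) (.e (nat_lit 376865) (nat_lit 22) (.e (nat_lit 90185) (nat_lit 17) (.e (nat_lit 237585) (nat_lit 1) .nil)))) .nil)) 
(.lf (nat_lit 67034) (.g (nat_lit 2150) (.e (nat_lit 1628) (nat_lit 114) (.e (nat_lit 385066) (nat_lit 26) (.e (nat_lit 532534) (nat_lit 9) (.e (nat_lit 336211) (nat_lit 13) (.e (nat_lit 393252) (nat_lit 18) .nil))))) .nil))) (.nd (nat_lit 6) 
(.lf (nat_lit 67002) (.g (nat_lit 3234) (.e (nat_lit 1626) (nat_lit 114) (.e (nat_lit 385094) (nat_lit 49) (.e (nat_lit 778317) (nat_lit 3) (.e (nat_lit 57480) (nat_lit 28) (.e (nat_lit 557107) (nat_lit 15) (.e (nat_lit 188447) (nat_lit 22) (.e (nat_lit 196630) (nat_lit 9) .nil))))))) (.g (nat_lit 6) .nil .nil))) 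
(.lf (nat_lit 67066) (.g (nat_lit 2714) (.e (nat_lit 1630) (nat_lit 114) (.e (nat_lit 385094) (nat_lit 49) (.e (nat_lit 778317) (nat_lit 3) (.e (nat_lit 57477) (nat_lit 28) (.e (nat_lit 557108) (nat_lit 15) .nil))))) .nil)))))) (.nd (nat_lit 3) (.nd (nat_lit 4) (.nd (nat_lit 5) (.nd (nat_lit 6) 
(.lf (nat_lit 66950) (.g (nat_lit 442) (.e (nat_lit 1619) (nat_lit 113) (.e (nat_lit 376865) (nat_lit 22) (.e (nat_lit 90181) (nat_lit 16) .nil))) .nil)) 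
(.lf (nat_lit 67014) (.g (nat_lit 1596) (.e (nat_lit 1627) (nat_lit 114) (.e (nat_lit 385066) (nat_lit 26) (.e (nat_lit 532533) (nat_lit 9) (.e (nat_lit 336211) (nat_lit 13) (.e (nat_lit 393252) (nat_lit 18) (.e (nat_lit 164161) (nat_lit 152) (.e (nat_lit 1032) (nat_lit 81) .nil))))))) (.g (nat_lit 5) .nil .nil)))) (.nd (nat_lit 6) 
(.lf (nat_lit 66982) (.g (nat_lit 1809) (.e (nat_lit 1626) (nat_lit 114) (.e (nat_lit 385068) (nat_lit 26) (.e (nat_lit 532563) (nat_lit 15) (.e (nat_lit 385066) (nat_lit 26) .nil)))) .nil)) 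
(.lf (nat_lit 67046) (.g (nat_lit 2313) (.e (nat_lit 1629) (nat_lit 114) (.e (nat_lit 385068) (nat_lit 26) (.e (nat_lit 532501) (nat_lit 1) (.e (nat_lit 57829) (nat_lit 250) .nil)))) .nil)))) (.nd (nat_lit 5) (.nd (nat_lit 6) 
(.lf (nat_lit 66966) (.g (nat_lit 1322) (.e (nat_lit 1625) (nat_lit 113) (.e (nat_lit 376862) (nat_lit 22) (.e (nat_lit 90185) (nat_lit 17) (.e (nat_lit 237585) (nat_lit 1) .nil)))) .nil)) 
(.lf (nat_lit 67030) (.g (nat_lit 4156) (.e (nat_lit 1627) (nat_lit 114) (.e (nat_lit 385094) (nat_lit 49) (.e (nat_lit 778317) (nat_lit 3) (.e (nat_lit 57480) (nat_lit 28) (.e (nat_lit 557109) (nat_lit 15) (.e (nat_lit 188458) (nat_lit 25) (.e (nat_lit 245784) (nat_lit 9) .nil))))))) (.g (nat_lit 7) .nil .nil)))) (.nd (nat_lit 6) 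
(.lf (nat_lit 66998) (.g (nat_lit 1778) (.e (nat_lit 1626) (nat_lit 114) (.e (nat_lit 385094) (nat_lit 49) (.e (nat_lit 778317) (nat_lit 3) (.e (nat_lit 57476) (nat_lit 28) (.e (nat_lit 557108) (nat_lit 15) (.e (nat_lit 188449) (nat_lit 22) (.e (nat_lit 204544) (nat_lit 9) .nil))))))) (.g (nat_lit 4) .nil .nil))) 
(.lf (nat_lit 67062) (.g (nat_lit 2841) (.e (nat_lit 1630) (nat_lit 114) (.e (nat_lit 385074) (nat_lit 31) (.e (nat_lit 573493) (nat_lit 15) (.e (nat_lit 81953) (nat_lit 22) (.e (nat_lit 90165) (nat_lit 12) .nil))))) .nil))))) (.nd (nat_lit 4) (.nd (nat_lit 5) (.nd (nat_lit 6) 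
(.lf (nat_lit 66958) (.g (nat_lit 2048) (.e (nat_lit 1623) (nat_lit 113) (.e (nat_lit 376865) (nat_lit 22) (.e (nat_lit 90185) (nat_lit 17) (.e (nat_lit 237585) (nat_lit 1) .nil)))) .nil)) 
(.lf (nat_lit 67022) (.g (nat_lit 2056) (.e (nat_lit 1627) (nat_lit 114) (.e (nat_lit 385074) (nat_lit 31) (.e (nat_lit 573485) (nat_lit 13) (.e (nat_lit 65619) (nat_lit 10) .nil)))) .nil))) (.nd (nat_lit 6) 
(.lf (nat_lit 66990) (.g (nat_lit 3944) (.e (nat_lit 1626) (nat_lit 114) (.e (nat_lit 385074) (nat_lit 31) (.e (nat_lit 573485) (nat_lit 13) (.e (nat_lit 65619) (nat_lit 10) (.e (nat_lit 344117) (nat_lit 21) (.e (nat_lit 516097) (nat_lit 0) (.e (nat_lit 7540) (nat_lit 402) .nil))))))) (.g (nat_lit 6) .nil .nil))) 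
(.lf (nat_lit 67054) (.g (nat_lit 2313) (.e (nat_lit 1630) (nat_lit 114) (.e (nat_lit 385068) (nat_lit 26) (.e (nat_lit 532501) (nat_lit 1) (.e (nat_lit 57830) (nat_lit 250) .nil)))) .nil)))) (.nd (nat_lit 5) (.nd (nat_lit 6) 
(.lf (nat_lit 66974) (.g (nat_lit 2313) (.e (nat_lit 1626) (nat_lit 114) (.e (nat_lit 385068) (nat_lit 26) (.e (nat_lit 532501) (nat_lit 1) (.e (nat_lit 57830) (nat_lit 250) .nil)))) .nil)) 
(.lf (nat_lit 67038) (.g (nat_lit 2174) (.e (nat_lit 1628) (nat_lit 114) (.e (nat_lit 385074) (nat_lit 31) (.e (nat_lit 573485) (nat_lit 13) (.e (nat_lit 65604) (nat_lit 9) .nil)))) .nil))) (.nd (nat_lit 6) 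
(.lf (nat_lit 67006) (.g (nat_lit 2609) (.e (nat_lit 1626) (nat_lit 114) (.e (nat_lit 385094) (nat_lit 49) (.e (nat_lit 778318) (nat_lit 3) (.e (nat_lit 57476) (nat_lit 28) (.e (nat_lit 557107) (nat_lit 15) (.e (nat_lit 188447) (nat_lit 22) (.e (nat_lit 196630) (nat_lit 9) .nil))))))) (.g (nat_lit 4) .nil .nil))) 
(.lf (nat_lit 67070) (.g (nat_lit 2199) (.e (nat_lit 1631) (nat_lit 114) (.e (nat_lit 385068) (nat_lit 26) (.e (nat_lit 532504) (nat_lit 1) (.e (nat_lit 57829) (nat_lit 250) .nil)))) .nil)))))))) (.nd (nat_lit 1) (.nd (nat_lit 2) (.nd (nat_lit 3) (.nd (nat_lit 4) (.nd (nat_lit 5) (.nd (nat_lit 6) 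
(.lf (nat_lit 66945) (.g (nat_lit 1618) (.e (nat_lit 1619) (nat_lit 113) (.e (nat_lit 376859) (nat_lit 21) (.e (nat_lit 57872) (nat_lit 264) (.e (nat_lit 1219) (nat_lit 90) (.e (nat_lit 81946) (nat_lit 20) .nil))))) .nil)) 
(.lf (nat_lit 67009) (.g (nat_lit 4049) (.e (nat_lit 1626) (nat_lit 114) (.e (nat_lit 385094) (nat_lit 49) (.e (nat_lit 778320) (nat_lit 4) (.e (nat_lit 65630) (nat_lit 14) (.e (nat_lit 401454) (nat_lit 12) (.e (nat_lit 475141) (nat_lit 8) .nil)))))) (.g (nat_lit 5) .nil .nil)))) (.nd (nat_lit 6) 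
(.lf (nat_lit 66977) (.g (nat_lit 2199) (.e (nat_lit 1626) (nat_lit 114) (.e (nat_lit 385068) (nat_lit 26) (.e (nat_lit 532504) (nat_lit 1) (.e (nat_lit 57829) (nat_lit 250) .nil)))) .nil)) 
(.lf (nat_lit 67041) (.g (nat_lit 2892) (.e (nat_lit 1628) (nat_lit 114) (.e (nat_lit 385091) (nat_lit 49) (.e (nat_lit 778318) (nat_lit 3) (.e (nat_lit 57476) (nat_lit 28) (.e (nat_lit 557108) (nat_lit 15) (.e (nat_lit 188458) (nat_lit 25) (.e (nat_lit 245784) (nat_lit 9) .nil))))))) (.g (nat_lit 5) .nil .nil))))) (.nd (nat_lit 5) (.nd (nat_lit 6) 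
(.lf (nat_lit 66961) (.g (nat_lit 1715) (.e (nat_lit 1624) (nat_lit 113) (.e (nat_lit 376868) (nat_lit 23) (.e (nat_lit 98350) (nat_lit 24) (.e (nat_lit 409648) (nat_lit 18) (.e (nat_lit 303117) (nat_lit 2) .nil))))) .nil)) 
(.lf (nat_lit 67025) (.g (nat_lit 3195) (.e (nat_lit 1627) (nat_lit 114) (.e (nat_lit 385074) (nat_lit 31) (.e (nat_lit 573493) (nat_lit 15) (.e (nat_lit 81956) (nat_lit 23) (.e (nat_lit 98325) (nat_lit 17) .nil))))) .nil))) (.nd (nat_lit 6) 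
(.lf (nat_lit 66993) (.g (nat_lit 2659) (.e (nat_lit 1626) (nat_lit 114) (.e (nat_lit 385074) (nat_lit 31) (.e (nat_lit 573485) (nat_lit 13) (.e (nat_lit 65619) (nat_lit 10) (.e (nat_lit 344117) (nat_lit 21) (.e (nat_lit 516098) (nat_lit 0) (.e (nat_lit 7545) (nat_lit 402) .nil))))))) (.g (nat_lit 5) .nil .nil))) 
(.lf (nat_lit 67057) (.g (nat_lit 2652) (.e (nat_lit 1630) (nat_lit 114) (.e (nat_lit 385068) (nat_lit 26) (.e (nat_lit 532504) (nat_lit 1) (.e (nat_lit 57851) (nat_lit 252) .nil)))) .nil))))) (.nd (nat_lit 4) (.nd (nat_lit 5) (.nd (nat_lit 6) 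
(.lf (nat_lit 66953) (.g (nat_lit 509) (.e (nat_lit 1619) (nat_lit 113) (.e (nat_lit 376869) (nat_lit 23) (.e (nat_lit 98350) (nat_lit 24) .nil))) .nil)) 
(.lf (nat_lit 67017) (.g (nat_lit 1876) (.e (nat_lit 1627) (nat_lit 114) (.e (nat_lit 385066) (nat_lit 26) (.e (nat_lit 532534) (nat_lit 9) (.e (nat_lit 336211) (nat_lit 13) (.e (nat_lit 393254) (nat_lit 18) .nil))))) .nil))) (.nd (nat_lit 6) 
(.lf (nat_lit 66985) (.g (nat_lit 1681) (.e (nat_lit 1626) (nat_lit 114) (.e (nat_lit 385074) (nat_lit 31) (.e (nat_lit 573482) (nat_lit 13) (.e (nat_lit 65619) (nat_lit 10) .nil)))) .nil)) 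
(.lf (nat_lit 67049) (.g (nat_lit 2239) (.e (nat_lit 1629) (nat_lit 114) (.e (nat_lit 385074) (nat_lit 31) (.e (nat_lit 573484) (nat_lit 13) (.e (nat_lit 65610) (nat_lit 10) .nil)))) .nil)))) (.nd (nat_lit 5) (.nd (nat_lit 6) 
(.lf (nat_lit 66969) (.g (nat_lit 1824) (.e (nat_lit 1625) (nat_lit 113) (.e (nat_lit 376865) (nat_lit 22) (.e (nat_lit 90185) (nat_lit 17) (.e (nat_lit 237584) (nat_lit 1) .nil)))) .nil)) 
(.lf (nat_lit 67033) (.g (nat_lit 1616) (.e (nat_lit 1628) (nat_lit 114) (.e (nat_lit 385066) (nat_lit 26) (.e (nat_lit 532534) (nat_lit 9) (.e (nat_lit 336211) (nat_lit 13) .nil)))) .nil))) (.nd (nat_lit 6) 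
(.lf (nat_lit 67001) (.g (nat_lit 5288) (.e (nat_lit 1626) (nat_lit 114) (.e (nat_lit 385094) (nat_lit 49) (.e (nat_lit 778317) (nat_lit 3) (.e (nat_lit 57477) (nat_lit 28) (.e (nat_lit 557108) (nat_lit 15) (.e (nat_lit 188449) (nat_lit 22) (.e (nat_lit 196642) (nat_lit 9) .nil))))))) (.g (nat_lit 6) .nil .nil))) 
(.lf (nat_lit 67065) (.g (nat_lit 2888) (.e (nat_lit 1630) (nat_lit 114) (.e (nat_lit 385094) (nat_lit 49) (.e (nat_lit 778317) (nat_lit 3) (.e (nat_lit 57476) (nat_lit 28) (.e (nat_lit 557108) (nat_lit 15) .nil))))) .nil)))))) (.nd (nat_lit 3) (.nd (nat_lit 4) (.nd (nat_lit 5) (.nd (nat_lit 6) 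
(.lf (nat_lit 66949) (.g (nat_lit 780) (.e (nat_lit 1619) (nat_lit 113) (.e (nat_lit 376865) (nat_lit 22) (.e (nat_lit 90172) (nat_lit 14) .nil))) .nil)) 
(.lf (nat_lit 67013) (.g (nat_lit 1210) (.e (nat_lit 1626) (nat_lit 114) (.e (nat_lit 385109) (nat_lit 51) (.e (nat_lit 794683) (nat_lit 25) .nil))) .nil))) (.nd (nat_lit 6) 
(.lf (nat_lit 66981) (.g (nat_lit 2414) (.e (nat_lit 1626) (nat_lit 114) (.e (nat_lit 385068) (nat_lit 26) (.e (nat_lit 532560) (nat_lit 14) (.e (nat_lit 376842) (nat_lit 11) (.e (nat_lit 426100) (nat_lit 1) .nil))))) .nil)) 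
(.lf (nat_lit 67045) (.g (nat_lit 2128) (.e (nat_lit 1629) (nat_lit 114) (.e (nat_lit 385066) (nat_lit 26) (.e (nat_lit 532534) (nat_lit 9) (.e (nat_lit 336211) (nat_lit 13) (.e (nat_lit 393252) (nat_lit 18) .nil))))) .nil)))) (.nd (nat_lit 5) (.nd (nat_lit 6) 
(.lf (nat_lit 66965) (.g (nat_lit 1260) (.e (nat_lit 1625) (nat_lit 113) (.e (nat_lit 376862) (nat_lit 22) (.e (nat_lit 90185) (nat_lit 17) (.e (nat_lit 237584) (nat_lit 1) .nil)))) .nil)) 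
(.lf (nat_lit 67029) (.g (nat_lit 3308) (.e (nat_lit 1627) (nat_lit 114) (.e (nat_lit 385094) (nat_lit 49) (.e (nat_lit 778317) (nat_lit 3) (.e (nat_lit 57477) (nat_lit 28) (.e (nat_lit 557108) (nat_lit 15) (.e (nat_lit 188458) (nat_lit 25) (.e (nat_lit 245784) (nat_lit 9) .nil))))))) (.g (nat_lit 7) .nil .nil)))) (.nd (nat_lit 6) 
(.lf (nat_lit 66997) (.g (nat_lit 1361) (.e (nat_lit 1626) (nat_lit 114) (.e (nat_lit 385093) (nat_lit 49) (.e (nat_lit 778323) (nat_lit 5) (.e (nat_lit 73782) (nat_lit 32) .nil)))) .nil)) 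
(.lf (nat_lit 67061) (.g (nat_lit 3675) (.e (nat_lit 1630) (nat_lit 114) (.e (nat_lit 385074) (nat_lit 31) (.e (nat_lit 573485) (nat_lit 13) (.e (nat_lit 65619) (nat_lit 10) (.e (nat_lit 344117) (nat_lit 21) (.e (nat_lit 516106) (nat_lit 0) (.e (nat_lit 7936) (nat_lit 402) .nil))))))) (.g (nat_lit 6) .nil .nil)))))) (.nd (nat_lit 4) (.nd (nat_lit 5) (.nd (nat_lit 6) 
(.lf (nat_lit 66957) (.g (nat_lit 1999) (.e (nat_lit 1623) (nat_lit 113) (.e (nat_lit 376865) (nat_lit 22) (.e (nat_lit 90185) (nat_lit 17) (.e (nat_lit 237582) (nat_lit 1) .nil)))) .nil)) 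
(.lf (nat_lit 67021) (.g (nat_lit 2121) (.e (nat_lit 1627) (nat_lit 114) (.e (nat_lit 385074) (nat_lit 31) (.e (nat_lit 573485) (nat_lit 13) (.e (nat_lit 65604) (nat_lit 9) .nil)))) .nil))) (.nd (nat_lit 6) 
(.lf (nat_lit 66989) (.g (nat_lit 2717) (.e (nat_lit 1626) (nat_lit 114) (.e (nat_lit 385074) (nat_lit 31) (.e (nat_lit 573485) (nat_lit 13) (.e (nat_lit 65619) (nat_lit 10) (.e (nat_lit 344117) (nat_lit 21) (.e (nat_lit 516097) (nat_lit 0) (.e (nat_lit 7511) (nat_lit 402) .nil))))))) (.g (nat_lit 5) .nil .nil))) 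
(.lf (nat_lit 67053) (.g (nat_lit 2313) (.e (nat_lit 1630) (nat_lit 114) (.e (nat_lit 385068) (nat_lit 26) (.e (nat_lit 532501) (nat_lit 1) (.e (nat_lit 57829) (nat_lit 250) .nil)))) .nil)))) (.nd (nat_lit 5) (.nd (nat_lit 6) 
(.lf (nat_lit 66973) (.g (nat_lit 2313) (.e (nat_lit 1626) (nat_lit 114) (.e (nat_lit 385068) (nat_lit 26) (.e (nat_lit 532501) (nat_lit 1) (.e (nat_lit 57829) (nat_lit 250) .nil)))) .nil)) 
(.lf (nat_lit 67037) (.g (nat_lit 2199) (.e (nat_lit 1628) (nat_lit 114) (.e (nat_lit 385068) (nat_lit 26) (.e (nat_lit 532504) (nat_lit 1) (.e (nat_lit 57829) (nat_lit 250) .nil)))) .nil))) (.nd (nat_lit 6) 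
(.lf (nat_lit 67005) (.g (nat_lit 5721) (.e (nat_lit 1626) (nat_lit 114) (.e (nat_lit 385094) (nat_lit 49) (.e (nat_lit 778317) (nat_lit 3) (.e (nat_lit 57480) (nat_lit 28) (.e (nat_lit 557109) (nat_lit 15) (.e (nat_lit 188449) (nat_lit 22) (.e (nat_lit 196637) (nat_lit 9) .nil))))))) (.g (nat_lit 0) .nil .nil))) 
(.lf (nat_lit 67069) (.g (nat_lit 2789) (.e (nat_lit 1631) (nat_lit 114) (.e (nat_lit 385068) (nat_lit 26) (.e (nat_lit 532501) (nat_lit 1) (.e (nat_lit 57851) (nat_lit 252) .nil)))) .nil))))))) (.nd (nat_lit 2) (.nd (nat_lit 3) (.nd (nat_lit 4) (.nd (nat_lit 5) (.nd (nat_lit 6) 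
(.lf (nat_lit 66947) (.g (nat_lit 1561) (.e (nat_lit 1619) (nat_lit 113) (.e (nat_lit 376859) (nat_lit 21) (.e (nat_lit 57872) (nat_lit 264) (.e (nat_lit 1221) (nat_lit 90) (.e (nat_lit 81938) (nat_lit 20) .nil))))) .nil)) 
(.lf (nat_lit 67011) (.g (nat_lit 664) (.e (nat_lit 1626) (nat_lit 114) (.e (nat_lit 385094) (nat_lit 49) (.e (nat_lit 778324) (nat_lit 5) .nil))) .nil))) (.nd (nat_lit 6) 
(.lf (nat_lit 66979) (.g (nat_lit 2442) (.e (nat_lit 1626) (nat_lit 114) (.e (nat_lit 385068) (nat_lit 26) (.e (nat_lit 532530) (nat_lit 9) (.e (nat_lit 336326) (nat_lit 18) .nil)))) .nil)) 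
(.lf (nat_lit 67043) (.g (nat_lit 1324) (.e (nat_lit 1629) (nat_lit 114) (.e (nat_lit 385066) (nat_lit 26) (.e (nat_lit 532533) (nat_lit 9) (.e (nat_lit 336211) (nat_lit 13) (.e (nat_lit 393252) (nat_lit 18) .nil))))) .nil)))) (.nd (nat_lit 5) (.nd (nat_lit 6) 
(.lf (nat_lit 66963) (.g (nat_lit 2162) (.e (nat_lit 1625) (nat_lit 113) (.e (nat_lit 376859) (nat_lit 21) (.e (nat_lit 57872) (nat_lit 264) (.e (nat_lit 1221) (nat_lit 90) (.e (nat_lit 81959) (nat_lit 24) (.e (nat_lit 123182) (nat_lit 264) (.e (nat_lit 999) (nat_lit 81) .nil))))))) (.g (nat_lit 5) .nil .nil))) 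
(.lf (nat_lit 67027) (.g (nat_lit 3044) (.e (nat_lit 1627) (nat_lit 114) (.e (nat_lit 385093) (nat_lit 49) (.e (nat_lit 778317) (nat_lit 3) (.e (nat_lit 57477) (nat_lit 28) (.e (nat_lit 557108) (nat_lit 15) (.e (nat_lit 188458) (nat_lit 25) (.e (nat_lit 245784) (nat_lit 9) .nil))))))) (.g (nat_lit 6) .nil .nil)))) (.nd (nat_lit 6) 
(.lf (nat_lit 66995) (.g (nat_lit 2481) (.e (nat_lit 1626) (nat_lit 114) (.e (nat_lit 385093) (nat_lit 49) (.e (nat_lit 778318) (nat_lit 3) (.e (nat_lit 57476) (nat_lit 28) (.e (nat_lit 557108) (nat_lit 15) (.e (nat_lit 188458) (nat_lit 25) (.e (nat_lit 245784) (nat_lit 9) .nil))))))) (.g (nat_lit 4) .nil .nil))) 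
(.lf (nat_lit 67059) (.g (nat_lit 2293) (.e (nat_lit 1630) (nat_lit 114) (.e (nat_lit 385074) (nat_lit 31) (.e (nat_lit 573482) (nat_lit 13) (.e (nat_lit 65604) (nat_lit 9) .nil)))) .nil))))) (.nd (nat_lit 4) (.nd (nat_lit 5) (.nd (nat_lit 6) 
(.lf (nat_lit 66955) (.g (nat_lit 830) (.e (nat_lit 1620) (nat_lit 113) (.e (nat_lit 376865) (nat_lit 22) (.e (nat_lit 90185) (nat_lit 17) .nil))) .nil)) 
(.lf (nat_lit 67019) (.g (nat_lit 2313) (.e (nat_lit 1627) (nat_lit 114) (.e (nat_lit 385068) (nat_lit 26) (.e (nat_lit 532501) (nat_lit 1) (.e (nat_lit 57830) (nat_lit 250) .nil)))) .nil))) (.nd (nat_lit 6) 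
(.lf (nat_lit 66987) (.g (nat_lit 2095) (.e (nat_lit 1626) (nat_lit 114) (.e (nat_lit 385074) (nat_lit 31) (.e (nat_lit 573485) (nat_lit 13) (.e (nat_lit 65604) (nat_lit 9) (.e (nat_lit 336013) (nat_lit 2) (.e (nat_lit 90165) (nat_lit 12) (.e (nat_lit 164238) (nat_lit 187) .nil))))))) (.g (nat_lit 4) .nil .nil))) 
(.lf (nat_lit 67051) (.g (nat_lit 2911) (.e (nat_lit 1629) (nat_lit 114) (.e (nat_lit 385074) (nat_lit 31) (.e (nat_lit 573485) (nat_lit 13) (.e (nat_lit 65604) (nat_lit 9) (.e (nat_lit 336028) (nat_lit 3) .nil))))) .nil)))) (.nd (nat_lit 5) (.nd (nat_lit 6) 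
(.lf (nat_lit 66971) (.g (nat_lit 2839) (.e (nat_lit 1625) (nat_lit 113) (.e (nat_lit 376865) (nat_lit 22) (.e (nat_lit 90185) (nat_lit 17) (.e (nat_lit 237595) (nat_lit 4) .nil)))) .nil)) 
(.lf (nat_lit 67035) (.g (nat_lit 2313) (.e (nat_lit 1628) (nat_lit 114) (.e (nat_lit 385068) (nat_lit 26) (.e (nat_lit 532501) (nat_lit 1) (.e (nat_lit 57829) (nat_lit 250) .nil)))) .nil))) (.nd (nat_lit 6) 
(.lf (nat_lit 67003) (.g (nat_lit 1626) (.e (nat_lit 1626) (nat_lit 114) (.e (nat_lit 385094) (nat_lit 49) (.e (nat_lit 778317) (nat_lit 3) (.e (nat_lit 57480) (nat_lit 28) (.e (nat_lit 557109) (nat_lit 15) .nil))))) .nil)) 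
(.lf (nat_lit 67067) (.g (nat_lit 2604) (.e (nat_lit 1631) (nat_lit 114) (.e (nat_lit 385068) (nat_lit 26) (.e (nat_lit 532501) (nat_lit 1) (.e (nat_lit 57829) (nat_lit 250) (.e (nat_lit 1183) (nat_lit 87) .nil))))) .nil)))))) (.nd (nat_lit 3) (.nd (nat_lit 4) (.nd (nat_lit 5) (.nd (nat_lit 6) 
(.lf (nat_lit 66951) (.g (nat_lit 1997) (.e (nat_lit 1619) (nat_lit 113) (.e (nat_lit 376865) (nat_lit 22) (.e (nat_lit 90185) (nat_lit 17) (.e (nat_lit 237582) (nat_lit 1) .nil)))) .nil)) 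
(.lf (nat_lit 67015) (.g (nat_lit 1368) (.e (nat_lit 1627) (nat_lit 114) (.e (nat_lit 385066) (nat_lit 26) (.e (nat_lit 532534) (nat_lit 9) (.e (nat_lit 336211) (nat_lit 13) .nil)))) .nil))) (.nd (nat_lit 6) 
(.lf (nat_lit 66983) (.g (nat_lit 941) (.e (nat_lit 1626) (nat_lit 114) (.e (nat_lit 385068) (nat_lit 26) (.e (nat_lit 532566) (nat_lit 15) .nil))) .nil)) 
(.lf (nat_lit 67047) (.g (nat_lit 2313) (.e (nat_lit 1629) (nat_lit 114) (.e (nat_lit 385068) (nat_lit 26) (.e (nat_lit 532501) (nat_lit 1) (.e (nat_lit 57830) (nat_lit 250) .nil)))) .nil)))) (.nd (nat_lit 5) (.nd (nat_lit 6) 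
(.lf (nat_lit 66967) (.g (nat_lit 1607) (.e (nat_lit 1625) (nat_lit 113) (.e (nat_lit 376865) (nat_lit 22) (.e (nat_lit 90172) (nat_lit 14) (.e (nat_lit 180229) (nat_lit 0) .nil)))) .nil)) 
(.lf (nat_lit 67031) (.g (nat_lit 2846) (.e (nat_lit 1627) (nat_lit 114) (.e (nat_lit 385094) (nat_lit 49) (.e (nat_lit 778318) (nat_lit 3) (.e (nat_lit 57476) (nat_lit 28) (.e (nat_lit 557108) (nat_lit 15) (.e (nat_lit 188458) (nat_lit 25) (.e (nat_lit 245784) (nat_lit 9) .nil))))))) (.g (nat_lit 4) .nil .nil)))) (.nd (nat_lit 6) 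
(.lf (nat_lit 66999) (.g (nat_lit 2673) (.e (nat_lit 1626) (nat_lit 114) (.e (nat_lit 385094) (nat_lit 49) (.e (nat_lit 778317) (nat_lit 3) (.e (nat_lit 57477) (nat_lit 28) (.e (nat_lit 557107) (nat_lit 15) (.e (nat_lit 188447) (nat_lit 22) (.e (nat_lit 196630) (nat_lit 9) .nil))))))) (.g (nat_lit 6) .nil .nil))) 
(.lf (nat_lit 67063) (.g (nat_lit 3059) (.e (nat_lit 1630) (nat_lit 114) (.e (nat_lit 385074) (nat_lit 31) (.e (nat_lit 573493) (nat_lit 15) (.e (nat_lit 81956) (nat_lit 23) (.e (nat_lit 98321) (nat_lit 17) .nil))))) .nil))))) (.nd (nat_lit 4) (.nd (nat_lit 5) (.nd (nat_lit 6) 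
(.lf (nat_lit 66959) (.g (nat_lit 1783) (.e (nat_lit 1624) (nat_lit 113) (.e (nat_lit 376859) (nat_lit 21) (.e (nat_lit 57872) (nat_lit 264) (.e (nat_lit 1221) (nat_lit 90) (.e (nat_lit 81959) (nat_lit 24) .nil))))) .nil)) 
(.lf (nat_lit 67023) (.g (nat_lit 3365) (.e (nat_lit 1627) (nat_lit 114) (.e (nat_lit 385074) (nat_lit 31) (.e (nat_lit 573485) (nat_lit 13) (.e (nat_lit 65619) (nat_lit 10) (.e (nat_lit 344117) (nat_lit 21) (.e (nat_lit 516098) (nat_lit 0) (.e (nat_lit 7545) (nat_lit 402) .nil))))))) (.g (nat_lit 5) .nil .nil)))) (.nd (nat_lit 6) 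
(.lf (nat_lit 66991) (.g (nat_lit 4481) (.e (nat_lit 1626) (nat_lit 114) (.e (nat_lit 385074) (nat_lit 31) (.e (nat_lit 573485) (nat_lit 13) (.e (nat_lit 65619) (nat_lit 10) (.e (nat_lit 344117) (nat_lit 21) (.e (nat_lit 516097) (nat_lit 0) (.e (nat_lit 7542) (nat_lit 402) .nil))))))) (.g (nat_lit 0) .nil .nil))) 
(.lf (nat_lit 67055) (.g (nat_lit 2801) (.e (nat_lit 1630) (nat_lit 114) (.e (nat_lit 385068) (nat_lit 26) (.e (nat_lit 532501) (nat_lit 1) (.e (nat_lit 57851) (nat_lit 252) .nil)))) .nil)))) (.nd (nat_lit 5) (.nd (nat_lit 6) 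
(.lf (nat_lit 66975) (.g (nat_lit 2262) (.e (nat_lit 1626) (nat_lit 114) (.e (nat_lit 385068) (nat_lit 26) (.e (nat_lit 532503) (nat_lit 1) (.e (nat_lit 57870) (nat_lit 264) .nil)))) .nil)) 
(.lf (nat_lit 67039) (.g (nat_lit 2959) (.e (nat_lit 1628) (nat_lit 114) (.e (nat_lit 385074) (nat_lit 31) (.e (nat_lit 573485) (nat_lit 13) (.e (nat_lit 65619) (nat_lit 10) (.e (nat_lit 344117) (nat_lit 21) .nil))))) .nil))) (.nd (nat_lit 6) 
(.lf (nat_lit 67007) (.g (nat_lit 2851) (.e (nat_lit 1626) (nat_lit 114) (.e (nat_lit 385094) (nat_lit 49) (.e (nat_lit 778318) (nat_lit 3) (.e (nat_lit 57476) (nat_lit 28) (.e (nat_lit 557108) (nat_lit 15) (.e (nat_lit 188458) (nat_lit 25) (.e (nat_lit 245784) (nat_lit 9) .nil))))))) (.g (nat_lit 4) .nil .nil))) 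
(.lf (nat_lit 67071) (.g (nat_lit 2652) (.e (nat_lit 1631) (nat_lit 114) (.e (nat_lit 385068) (nat_lit 26) (.e (nat_lit 532504) (nat_lit 1) (.e (nat_lit 57851) (nat_lit 252) .nil)))) .nil)))))))))

noncomputable def tv925 : DT := (.nd (nat_lit 0) (.nd (nat_lit 1) (.nd (nat_lit 2) (.nd (nat_lit 3) (.nd (nat_lit 4) (.nd (nat_lit 5) (.nd (nat_lit 6) 
(.lf (nat_lit 67072) (.g (nat_lit 952) (.e (nat_lit 1631) (nat_lit 114) (.e (nat_lit 385068) (nat_lit 26) (.e (nat_lit 532530) (nat_lit 9) .nil))) .nil)) 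
(.lf (nat_lit 67136) (.g (nat_lit 2389) (.e (nat_lit 1633) (nat_lit 114) (.e (nat_lit 385068) (nat_lit 26) (.e (nat_lit 532523) (nat_lit 7) (.e (nat_lit 319514) (nat_lit 11) .nil)))) .nil))) (.nd (nat_lit 6) 
(.lf (nat_lit 67104) (.g (nat_lit 3349) (.e (nat_lit 1633) (nat_lit 114) (.e (nat_lit 392960) (nat_lit 24) (.e (nat_lit 516160) (nat_lit 10) (.e (nat_lit 434245) (nat_lit 28) (.e (nat_lit 573487) (nat_lit 14) (.e (nat_lit 73753) (nat_lit 8) (.e (nat_lit 557058) (nat_lit 0) .nil))))))) (.g (nat_lit 6) .nil .nil))) 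
(.lf (nat_lit 67168) (.g (nat_lit 3057) (.e (nat_lit 1633) (nat_lit 114) (.e (nat_lit 385068) (nat_lit 26) (.e (nat_lit 532534) (nat_lit 9) (.e (nat_lit 336019) (nat_lit 3) (.e (nat_lit 98342) (nat_lit 20) (.e (nat_lit 221207) (nat_lit 21) (.e (nat_lit 171776) (nat_lit 134) (.e (nat_lit 1078) (nat_lit 81) .nil)))))))) (.g (nat_lit 4) .nil .nil))))) (.nd (nat_lit 5) (.nd (nat_lit 6) 
(.lf (nat_lit 67088) (.g (nat_lit 3200) (.e (nat_lit 1631) (nat_lit 114) (.e (nat_lit 385094) (nat_lit 49) (.e (nat_lit 778317) (nat_lit 3) (.e (nat_lit 57480) (nat_lit 28) (.e (nat_lit 557109) (nat_lit 15) (.e (nat_lit 188458) (nat_lit 25) (.e (nat_lit 245781) (nat_lit 9) .nil))))))) (.g (nat_lit 4) .nil .nil))) 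
(.lf (nat_lit 67152) (.g (nat_lit 2357) (.e (nat_lit 1633) (nat_lit 114) (.e (nat_lit 385068) (nat_lit 26) (.e (nat_lit 532533) (nat_lit 9) (.e (nat_lit 336211) (nat_lit 13) (.e (nat_lit 393251) (nat_lit 18) (.e (nat_lit 164151) (nat_lit 152) (.e (nat_lit 1088) (nat_lit 81) .nil))))))) (.g (nat_lit 5) .nil .nil)))) (.nd (nat_lit 6) 
(.lf (nat_lit 67120) (.g (nat_lit 1929) (.e (nat_lit 1633) (nat_lit 114) (.e (nat_lit 385068) (nat_lit 26) (.e (nat_lit 532501) (nat_lit 1) (.e (nat_lit 57783) (nat_lit 239) .nil)))) .nil)) 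
(.lf (nat_lit 67184) (.g (nat_lit 3064) (.e (nat_lit 1633) (nat_lit 114) (.e (nat_lit 385068) (nat_lit 26) (.e (nat_lit 532535) (nat_lit 9) (.e (nat_lit 335925) (nat_lit 0) (.e (nat_lit 1858) (nat_lit 124) .nil))))) .nil))))) (.nd (nat_lit 4) (.nd (nat_lit 5) (.nd (nat_lit 6) 
(.lf (nat_lit 67080) (.g (nat_lit 2467) (.e (nat_lit 1631) (nat_lit 114) (.e (nat_lit 385093) (nat_lit 49) (.e (nat_lit 778318) (nat_lit 3) (.e (nat_lit 57476) (nat_lit 28) (.e (nat_lit 557108) (nat_lit 15) (.e (nat_lit 188449) (nat_lit 22) (.e (nat_lit 204544) (nat_lit 9) .nil))))))) (.g (nat_lit 4) .nil .nil))) 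
(.lf (nat_lit 67144) (.g (nat_lit 1650) (.e (nat_lit 1633) (nat_lit 114) (.e (nat_lit 385068) (nat_lit 26) (.e (nat_lit 532530) (nat_lit 9) (.e (nat_lit 336211) (nat_lit 13) .nil)))) .nil))) (.nd (nat_lit 6) 
(.lf (nat_lit 67112) (.g (nat_lit 3617) (.e (nat_lit 1633) (nat_lit 114) (.e (nat_lit 392960) (nat_lit 24) (.e (nat_lit 516160) (nat_lit 10) (.e (nat_lit 434248) (nat_lit 28) (.e (nat_lit 573487) (nat_lit 14) (.e (nat_lit 73753) (nat_lit 8) (.e (nat_lit 557058) (nat_lit 0) .nil))))))) (.g (nat_lit 6) .nil .nil))) 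
(.lf (nat_lit 67176) (.g (nat_lit 1584) (.e (nat_lit 1633) (nat_lit 114) (.e (nat_lit 385068) (nat_lit 26) (.e (nat_lit 532534) (nat_lit 9) (.e (nat_lit 336136) (nat_lit 9) .nil)))) .nil)))) (.nd (nat_lit 5) (.nd (nat_lit 6) 
(.lf (nat_lit 67096) (.g (nat_lit 3199) (.e (nat_lit 1632) (nat_lit 114) (.e (nat_lit 385074) (nat_lit 31) (.e (nat_lit 573493) (nat_lit 15) (.e (nat_lit 81956) (nat_lit 23) (.e (nat_lit 98325) (nat_lit 17) .nil))))) .nil)) 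
(.lf (nat_lit 67160) (.g (nat_lit 3712) (.e (nat_lit 1633) (nat_lit 114) (.e (nat_lit 385068) (nat_lit 26) (.e (nat_lit 532534) (nat_lit 9) (.e (nat_lit 336019) (nat_lit 3) (.e (nat_lit 98342) (nat_lit 20) (.e (nat_lit 221206) (nat_lit 21) (.e (nat_lit 164130) (nat_lit 134) (.e (nat_lit 1074) (nat_lit 81) .nil)))))))) (.g (nat_lit 4) .nil .nil)))) (.nd (nat_lit 6) 
(.lf (nat_lit 67128) (.g (nat_lit 714) (.e (nat_lit 1633) (nat_lit 114) (.e (nat_lit 385068) (nat_lit 26) (.e (nat_lit 532513) (nat_lit 3) .nil))) .nil)) 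
(.lf (nat_lit 67192) (.g (nat_lit 4094) (.e (nat_lit 1633) (nat_lit 114) (.e (nat_lit 385068) (nat_lit 26) (.e (nat_lit 532535) (nat_lit 9) (.e (nat_lit 336226) (nat_lit 14) (.e (nat_lit 401472) (nat_lit 28) .nil))))) .nil)))))) (.nd (nat_lit 3) (.nd (nat_lit 4) (.nd (nat_lit 5) (.nd (nat_lit 6) 
(.lf (nat_lit 67076) (.g (nat_lit 3797) (.e (nat_lit 1631) (nat_lit 114) (.e (nat_lit 385074) (nat_lit 31) (.e (nat_lit 573485) (nat_lit 13) (.e (nat_lit 65619) (nat_lit 10) (.e (nat_lit 344117) (nat_lit 21) (.e (nat_lit 516106) (nat_lit 0) (.e (nat_lit 7936) (nat_lit 402) .nil))))))) (.g (nat_lit 6) .nil .nil))) 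
(.lf (nat_lit 67140) (.g (nat_lit 3782) (.e (nat_lit 1633) (nat_lit 114) (.e (nat_lit 385068) (nat_lit 26) (.e (nat_lit 532530) (nat_lit 9) (.e (nat_lit 336019) (nat_lit 3) (.e (nat_lit 98342) (nat_lit 20) (.e (nat_lit 221207) (nat_lit 21) (.e (nat_lit 164131) (nat_lit 134) (.e (nat_lit 1074) (nat_lit 81) .nil)))))))) (.g (nat_lit 5) .nil .nil)))) (.nd (nat_lit 6) 
(.lf (nat_lit 67108) (.g (nat_lit 3092) (.e (nat_lit 1633) (nat_lit 114) (.e (nat_lit 392960) (nat_lit 24) (.e (nat_lit 516160) (nat_lit 10) (.e (nat_lit 434246) (nat_lit 28) (.e (nat_lit 573487) (nat_lit 14) (.e (nat_lit 73753) (nat_lit 8) (.e (nat_lit 557059) (nat_lit 0) .nil))))))) (.g (nat_lit 6) .nil .nil))) 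
(.lf (nat_lit 67172) (.g (nat_lit 3730) (.e (nat_lit 1633) (nat_lit 114) (.e (nat_lit 385068) (nat_lit 26) (.e (nat_lit 532534) (nat_lit 9) (.e (nat_lit 336019) (nat_lit 3) (.e (nat_lit 98342) (nat_lit 20) (.e (nat_lit 221208) (nat_lit 21) (.e (nat_lit 171776) (nat_lit 134) (.e (nat_lit 1077) (nat_lit 81) .nil)))))))) (.g (nat_lit 4) .nil .nil))))) (.nd (nat_lit 5) (.nd (nat_lit 6) 
(.lf (nat_lit 67092) (.g (nat_lit 2313) (.e (nat_lit 1632) (nat_lit 114) (.e (nat_lit 385068) (nat_lit 26) (.e (nat_lit 532501) (nat_lit 1) (.e (nat_lit 57830) (nat_lit 250) .nil)))) .nil)) 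
(.lf (nat_lit 67156) (.g (nat_lit 3726) (.e (nat_lit 1633) (nat_lit 114) (.e (nat_lit 385068) (nat_lit 26) (.e (nat_lit 532534) (nat_lit 9) (.e (nat_lit 336019) (nat_lit 3) (.e (nat_lit 98341) (nat_lit 20) (.e (nat_lit 221206) (nat_lit 21) (.e (nat_lit 164131) (nat_lit 134) (.e (nat_lit 1074) (nat_lit 81) .nil)))))))) (.g (nat_lit 4) .nil .nil)))) (.nd (nat_lit 6) 
(.lf (nat_lit 67124) (.g (nat_lit 1888) (.e (nat_lit 1633) (nat_lit 114) (.e (nat_lit 385068) (nat_lit 26) (.e (nat_lit 532504) (nat_lit 1) (.e (nat_lit 57851) (nat_lit 252) .nil)))) .nil)) 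
(.lf (nat_lit 67188) (.g (nat_lit 4777) (.e (nat_lit 1633) (nat_lit 114) (.e (nat_lit 385068) (nat_lit 26) (.e (nat_lit 532535) (nat_lit 9) (.e (nat_lit 336099) (nat_lit 9) (.e (nat_lit 336457) (nat_lit 35) (.e (nat_lit 491525) (nat_lit 0) (.e (nat_lit 2270) (nat_lit 149) (.e (nat_lit 761868) (nat_lit 5) .nil)))))))) (.g (nat_lit 4) .nil .nil)))))) 
(.nd (nat_lit 4) (.nd (nat_lit 5) (.nd (nat_lit 6) 
(.lf (nat_lit 67084) (.g (nat_lit 4243) (.e (nat_lit 1631) (nat_lit 114) (.e (nat_lit 385094) (nat_lit 49) (.e (nat_lit 778317) (nat_lit 3) (.e (nat_lit 57476) (nat_lit 28) (.e (nat_lit 557108) (nat_lit 15) (.e (nat_lit 188449) (nat_lit 22) (.e (nat_lit 204544) (nat_lit 9) .nil))))))) (.g (nat_lit 6) .nil .nil))) 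
(.lf (nat_lit 67148) (.g (nat_lit 2338) (.e (nat_lit 1633) (nat_lit 114) (.e (nat_lit 385068) (nat_lit 26) (.e (nat_lit 532533) (nat_lit 9) (.e (nat_lit 336019) (nat_lit 3) (.e (nat_lit 98341) (nat_lit 20) (.e (nat_lit 229120) (nat_lit 1) (.e (nat_lit 57623) (nat_lit 128) (.e (nat_lit 1077) (nat_lit 81) .nil)))))))) (.g (nat_lit 4) .nil .nil)))) (.nd (nat_lit 6) 
(.lf (nat_lit 67116) (.g (nat_lit 1770) (.e (nat_lit 1633) (nat_lit 114) (.e (nat_lit 385066) (nat_lit 26) (.e (nat_lit 532534) (nat_lit 9) (.e (nat_lit 336208) (nat_lit 12) .nil)))) .nil)) 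
(.lf (nat_lit 67180) (.g (nat_lit 2920) (.e (nat_lit 1633) (nat_lit 114) (.e (nat_lit 385068) (nat_lit 26) (.e (nat_lit 532534) (nat_lit 9) (.e (nat_lit 336211) (nat_lit 13) (.e (nat_lit 393251) (nat_lit 18) (.e (nat_lit 164151) (nat_lit 152) (.e (nat_lit 1088) (nat_lit 81) .nil))))))) (.g (nat_lit 5) .nil .nil))))) (.nd (nat_lit 5) (.nd (nat_lit 6) 
(.lf (nat_lit 67100) (.g (nat_lit 2001) (.e (nat_lit 1632) (nat_lit 114) (.e (nat_lit 385093) (nat_lit 49) (.e (nat_lit 778317) (nat_lit 3) (.e (nat_lit 57480) (nat_lit 28) (.e (nat_lit 557109) (nat_lit 15) .nil))))) .nil)) 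
(.lf (nat_lit 67164) (.g (nat_lit 5446) (.e (nat_lit 1633) (nat_lit 114) (.e (nat_lit 385068) (nat_lit 26) (.e (nat_lit 532534) (nat_lit 9) (.e (nat_lit 336019) (nat_lit 3) (.e (nat_lit 98342) (nat_lit 20) (.e (nat_lit 221207) (nat_lit 21) (.e (nat_lit 164131) (nat_lit 134) (.e (nat_lit 1074) (nat_lit 81) .nil)))))))) (.g (nat_lit 6) .nil .nil)))) (.nd (nat_lit 6) 
(.lf (nat_lit 67132) (.g (nat_lit 3357) (.e (nat_lit 1633) (nat_lit 114) (.e (nat_lit 385068) (nat_lit 26) (.e (nat_lit 532523) (nat_lit 7) (.e (nat_lit 319490) (nat_lit 0) (.e (nat_lit 5750) (nat_lit 314) .nil))))) .nil)) 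
(.lf (nat_lit 67196) (.g (nat_lit 1418) (.e (nat_lit 1633) (nat_lit 114) (.e (nat_lit 385068) (nat_lit 26) (.e (nat_lit 532542) (nat_lit 9) (.e (nat_lit 336194) (nat_lit 12) .nil)))) .nil))))))) (.nd (nat_lit 2) (.nd (nat_lit 3) (.nd (nat_lit 4) (.nd (nat_lit 5) (.nd (nat_lit 6) 
(.lf (nat_lit 67074) (.g (nat_lit 3693) (.e (nat_lit 1631) (nat_lit 114) (.e (nat_lit 385074) (nat_lit 31) (.e (nat_lit 573485) (nat_lit 13) (.e (nat_lit 65604) (nat_lit 9) (.e (nat_lit 336028) (nat_lit 3) (.e (nat_lit 98325) (nat_lit 17) (.e (nat_lit 7936) (nat_lit 402) .nil))))))) (.g (nat_lit 6) .nil .nil))) 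
(.lf (nat_lit 67138) (.g (nat_lit 2015) (.e (nat_lit 1633) (nat_lit 114) (.e (nat_lit 385068) (nat_lit 26) (.e (nat_lit 532530) (nat_lit 9) (.e (nat_lit 336019) (nat_lit 3) .nil)))) .nil))) (.nd (nat_lit 6) 
(.lf (nat_lit 67106) (.g (nat_lit 2564) (.e (nat_lit 1633) (nat_lit 114) (.e (nat_lit 392960) (nat_lit 24) (.e (nat_lit 516160) (nat_lit 10) (.e (nat_lit 434245) (nat_lit 28) (.e (nat_lit 573488) (nat_lit 14) (.e (nat_lit 73755) (nat_lit 8) (.e (nat_lit 564992) (nat_lit 0) .nil))))))) (.g (nat_lit 6) .nil .nil))) 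
(.lf (nat_lit 67170) (.g (nat_lit 3311) (.e (nat_lit 1633) (nat_lit 114) (.e (nat_lit 385068) (nat_lit 26) (.e (nat_lit 532534) (nat_lit 9) (.e (nat_lit 336019) (nat_lit 3) (.e (nat_lit 98342) (nat_lit 20) (.e (nat_lit 221208) (nat_lit 21) (.e (nat_lit 164132) (nat_lit 134) (.e (nat_lit 1074) (nat_lit 81) .nil)))))))) (.g (nat_lit 4) .nil .nil))))) (.nd (nat_lit 5) (.nd (nat_lit 6) 
(.lf (nat_lit 67090) (.g (nat_lit 849) (.e (nat_lit 1631) (nat_lit 114) (.e (nat_lit 385105) (nat_lit 50) (.e (nat_lit 786450) (nat_lit 15) .nil))) .nil)) 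
(.lf (nat_lit 67154) (.g (nat_lit 2856) (.e (nat_lit 1633) (nat_lit 114) (.e (nat_lit 385068) (nat_lit 26) (.e (nat_lit 532534) (nat_lit 9) (.e (nat_lit 336019) (nat_lit 3) (.e (nat_lit 98338) (nat_lit 19) .nil))))) .nil))) (.nd (nat_lit 6) 
(.lf (nat_lit 67122) (.g (nat_lit 1340) (.e (nat_lit 1633) (nat_lit 114) (.e (nat_lit 385068) (nat_lit 26) (.e (nat_lit 532501) (nat_lit 1) (.e (nat_lit 57854) (nat_lit 252) .nil)))) .nil)) 
(.lf (nat_lit 67186) (.g (nat_lit 5455) (.e (nat_lit 1633) (nat_lit 114) (.e (nat_lit 385068) (nat_lit 26) (.e (nat_lit 532535) (nat_lit 9) (.e (nat_lit 336099) (nat_lit 9) (.e (nat_lit 336457) (nat_lit 35) (.e (nat_lit 491525) (nat_lit 0) (.e (nat_lit 2270) (nat_lit 149) (.e (nat_lit 761866) (nat_lit 5) .nil)))))))) (.g (nat_lit 6) .nil .nil)))))) 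
(.nd (nat_lit 4) (.nd (nat_lit 5) (.nd (nat_lit 6) 
(.lf (nat_lit 67082) (.g (nat_lit 965) (.e (nat_lit 1631) (nat_lit 114) (.e (nat_lit 385093) (nat_lit 49) (.e (nat_lit 778323) (nat_lit 5) .nil))) .nil)) 
(.lf (nat_lit 67146) (.g (nat_lit 2527) (.e (nat_lit 1633) (nat_lit 114) (.e (nat_lit 385068) (nat_lit 26) (.e (nat_lit 532530) (nat_lit 9) (.e (nat_lit 336211) (nat_lit 13) (.e (nat_lit 393251) (nat_lit 18) (.e (nat_lit 164156) (nat_lit 152) (.e (nat_lit 975) (nat_lit 81) .nil))))))) (.g (nat_lit 4) .nil .nil)))) (.nd (nat_lit 6) 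
(.lf (nat_lit 67114) (.g (nat_lit 4086) (.e (nat_lit 1633) (nat_lit 114) (.e (nat_lit 392960) (nat_lit 24) (.e (nat_lit 516160) (nat_lit 10) (.e (nat_lit 434248) (nat_lit 28) (.e (nat_lit 573489) (nat_lit 14) (.e (nat_lit 73754) (nat_lit 8) (.e (nat_lit 557059) (nat_lit 0) .nil))))))) (.g (nat_lit 6) .nil .nil))) 
(.lf (nat_lit 67178) (.g (nat_lit 1782) (.e (nat_lit 1633) (nat_lit 114) (.e (nat_lit 385068) (nat_lit 26) (.e (nat_lit 532534) (nat_lit 9) (.e (nat_lit 336211) (nat_lit 13) (.e (nat_lit 393242) (nat_lit 17) .nil))))) .nil)))) (.nd (nat_lit 5) (.nd (nat_lit 6) 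
(.lf (nat_lit 67098) (.g (nat_lit 1969) (.e (nat_lit 1632) (nat_lit 114) (.e (nat_lit 385093) (nat_lit 49) (.e (nat_lit 778317) (nat_lit 3) (.e (nat_lit 57477) (nat_lit 28) (.e (nat_lit 557108) (nat_lit 15) .nil))))) .nil)) 
(.lf (nat_lit 67162) (.g (nat_lit 3275) (.e (nat_lit 1633) (nat_lit 114) (.e (nat_lit 385068) (nat_lit 26) (.e (nat_lit 532534) (nat_lit 9) (.e (nat_lit 336019) (nat_lit 3) (.e (nat_lit 98342) (nat_lit 20) (.e (nat_lit 221206) (nat_lit 21) (.e (nat_lit 164134) (nat_lit 134) (.e (nat_lit 1074) (nat_lit 81) .nil)))))))) (.g (nat_lit 4) .nil .nil)))) (.nd (nat_lit 6) 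
(.lf (nat_lit 67130) (.g (nat_lit 714) (.e (nat_lit 1633) (nat_lit 114) (.e (nat_lit 385068) (nat_lit 26) (.e (nat_lit 532515) (nat_lit 3) .nil))) .nil)) 
(.lf (nat_lit 67194) (.g (nat_lit 1030) (.e (nat_lit 1633) (nat_lit 114) (.e (nat_lit 385068) (nat_lit 26) (.e (nat_lit 532541) (nat_lit 9) .nil))) .nil)))))) (.nd (nat_lit 3) (.nd (nat_lit 4) (.nd (nat_lit 5) (.nd (nat_lit 6) 
(.lf (nat_lit 67078) (.g (nat_lit 2765) (.e (nat_lit 1631) (nat_lit 114) (.e (nat_lit 385074) (nat_lit 31) (.e (nat_lit 573493) (nat_lit 15) (.e (nat_lit 81953) (nat_lit 22) (.e (nat_lit 90165) (nat_lit 12) .nil))))) .nil)) 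
(.lf (nat_lit 67142) (.g (nat_lit 2886) (.e (nat_lit 1633) (nat_lit 114) (.e (nat_lit 385068) (nat_lit 26) (.e (nat_lit 532530) (nat_lit 9) (.e (nat_lit 336208) (nat_lit 12) (.e (nat_lit 392960) (nat_lit 3) (.e (nat_lit 57569) (nat_lit 53) (.e (nat_lit 761866) (nat_lit 5) .nil))))))) (.g (nat_lit 4) .nil .nil)))) (.nd (nat_lit 6) 
(.lf (nat_lit 67110) (.g (nat_lit 3142) (.e (nat_lit 1633) (nat_lit 114) (.e (nat_lit 392960) (nat_lit 24) (.e (nat_lit 516160) (nat_lit 10) (.e (nat_lit 434247) (nat_lit 28) (.e (nat_lit 573489) (nat_lit 14) (.e (nat_lit 73755) (nat_lit 8) (.e (nat_lit 557058) (nat_lit 0) .nil))))))) (.g (nat_lit 6) .nil .nil))) 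
(.lf (nat_lit 67174) (.g (nat_lit 1850) (.e (nat_lit 1633) (nat_lit 114) (.e (nat_lit 385068) (nat_lit 26) (.e (nat_lit 532534) (nat_lit 9) (.e (nat_lit 336115) (nat_lit 9) (.e (nat_lit 336459) (nat_lit 35) .nil))))) .nil)))) (.nd (nat_lit 5) (.nd (nat_lit 6) 
(.lf (nat_lit 67094) (.g (nat_lit 2189) (.e (nat_lit 1632) (nat_lit 114) (.e (nat_lit 385074) (nat_lit 31) (.e (nat_lit 573485) (nat_lit 13) (.e (nat_lit 65604) (nat_lit 9) .nil)))) .nil)) 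
(.lf (nat_lit 67158) (.g (nat_lit 3843) (.e (nat_lit 1633) (nat_lit 114) (.e (nat_lit 385068) (nat_lit 26) (.e (nat_lit 532534) (nat_lit 9) (.e (nat_lit 336019) (nat_lit 3) (.e (nat_lit 98341) (nat_lit 20) (.e (nat_lit 221207) (nat_lit 21) (.e (nat_lit 164131) (nat_lit 134) (.e (nat_lit 1074) (nat_lit 81) .nil)))))))) (.g (nat_lit 4) .nil .nil)))) (.nd (nat_lit 6) 
(.lf (nat_lit 67126) (.g (nat_lit 791) (.e (nat_lit 1633) (nat_lit 114) (.e (nat_lit 385068) (nat_lit 26) (.e (nat_lit 532510) (nat_lit 2) .nil))) .nil)) 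
(.lf (nat_lit 67190) (.g (nat_lit 6494) (.e (nat_lit 1633) (nat_lit 114) (.e (nat_lit 385068) (nat_lit 26) (.e (nat_lit 532535) (nat_lit 9) (.e (nat_lit 336099) (nat_lit 9) (.e (nat_lit 336457) (nat_lit 35) (.e (nat_lit 491526) (nat_lit 0) (.e (nat_lit 2270) (nat_lit 149) (.e (nat_lit 761867) (nat_lit 5) .nil)))))))) (.g (nat_lit 0) .nil .nil)))))) 
(.nd (nat_lit 4) (.nd (nat_lit 5) (.nd (nat_lit 6) 
(.lf (nat_lit 67086) (.g (nat_lit 3965) (.e (nat_lit 1631) (nat_lit 114) (.e (nat_lit 385094) (nat_lit 49) (.e (nat_lit 778317) (nat_lit 3) (.e (nat_lit 57477) (nat_lit 28) (.e (nat_lit 557108) (nat_lit 15) (.e (nat_lit 188449) (nat_lit 22) (.e (nat_lit 204544) (nat_lit 9) .nil))))))) (.g (nat_lit 6) .nil .nil))) 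
(.lf (nat_lit 67150) (.g (nat_lit 2189) (.e (nat_lit 1633) (nat_lit 114) (.e (nat_lit 385068) (nat_lit 26) (.e (nat_lit 532533) (nat_lit 9) (.e (nat_lit 336019) (nat_lit 3) (.e (nat_lit 98342) (nat_lit 20) (.e (nat_lit 229120) (nat_lit 1) (.e (nat_lit 57623) (nat_lit 128) (.e (nat_lit 1077) (nat_lit 81) .nil)))))))) (.g (nat_lit 4) .nil .nil)))) (.nd (nat_lit 6) 
(.lf (nat_lit 67118) (.g (nat_lit 646) (.e (nat_lit 1633) (nat_lit 114) (.e (nat_lit 385068) (nat_lit 26) (.e (nat_lit 532499) (nat_lit 1) .nil))) .nil)) 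
(.lf (nat_lit 67182) (.g (nat_lit 2210) (.e (nat_lit 1633) (nat_lit 114) (.e (nat_lit 385068) (nat_lit 26) (.e (nat_lit 532534) (nat_lit 9) (.e (nat_lit 336211) (nat_lit 13) (.e (nat_lit 393252) (nat_lit 18) (.e (nat_lit 164164) (nat_lit 152) (.e (nat_lit 1074) (nat_lit 81) .nil))))))) (.g (nat_lit 4) .nil .nil))))) (.nd (nat_lit 5) (.nd (nat_lit 6) 
(.lf (nat_lit 67102) (.g (nat_lit 2871) (.e (nat_lit 1633) (nat_lit 114) (.e (nat_lit 385045) (nat_lit 21) (.e (nat_lit 6828) (nat_lit 367) (.e (nat_lit 57375) (nat_lit 2) (.e (nat_lit 90172) (nat_lit 14) (.e (nat_lit 180285) (nat_lit 45) (.e (nat_lit 2579) (nat_lit 161) (.e (nat_lit 40963) (nat_lit 0) .nil)))))))) (.g (nat_lit 6) .nil .nil))) 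
(.lf (nat_lit 67166) (.g (nat_lit 4311) (.e (nat_lit 1633) (nat_lit 114) (.e (nat_lit 385068) (nat_lit 26) (.e (nat_lit 532534) (nat_lit 9) (.e (nat_lit 336019) (nat_lit 3) (.e (nat_lit 98342) (nat_lit 20) (.e (nat_lit 221207) (nat_lit 21) (.e (nat_lit 164134) (nat_lit 134) (.e (nat_lit 1074) (nat_lit 81) .nil)))))))) (.g (nat_lit 5) .nil .nil)))) (.nd (nat_lit 6) 
(.lf (nat_lit 67134) (.g (nat_lit 3955) (.e (nat_lit 1633) (nat_lit 114) (.e (nat_lit 385068) (nat_lit 26) (.e (nat_lit 532523) (nat_lit 7) (.e (nat_lit 319490) (nat_lit 0) (.e (nat_lit 5750) (nat_lit 314) (.e (nat_lit 24597) (nat_lit 1) (.e (nat_lit 57666) (nat_lit 152) (.e (nat_lit 1077) (nat_lit 81) .nil)))))))) (.g (nat_lit 4) .nil .nil))) 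
(.lf (nat_lit 67198) (.g (nat_lit 947) (.e (nat_lit 1633) (nat_lit 114) (.e (nat_lit 385068) (nat_lit 26) (.e (nat_lit 532543) (nat_lit 10) .nil))) .nil)))))))) (.nd (nat_lit 1) (.nd (nat_lit 2) (.nd (nat_lit 3) (.nd (nat_lit 4) (.nd (nat_lit 5) (.nd (nat_lit 6) 
(.lf (nat_lit 67073) (.g (nat_lit 923) (.e (nat_lit 1631) (nat_lit 114) (.e (nat_lit 385068) (nat_lit 26) (.e (nat_lit 532534) (nat_lit 9) .nil))) .nil)) 
(.lf (nat_lit 67137) (.g (nat_lit 1436) (.e (nat_lit 1633) (nat_lit 114) (.e (nat_lit 385068) (nat_lit 26) (.e (nat_lit 532528) (nat_lit 9) (.e (nat_lit 336019) (nat_lit 3) .nil)))) .nil))) (.nd (nat_lit 6) 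
(.lf (nat_lit 67105) (.g (nat_lit 3298) (.e (nat_lit 1633) (nat_lit 114) (.e (nat_lit 392960) (nat_lit 24) (.e (nat_lit 516160) (nat_lit 10) (.e (nat_lit 434245) (nat_lit 28) (.e (nat_lit 573487) (nat_lit 14) (.e (nat_lit 73753) (nat_lit 8) (.e (nat_lit 557059) (nat_lit 0) .nil))))))) (.g (nat_lit 6) .nil .nil))) 
(.lf (nat_lit 67169) (.g (nat_lit 4273) (.e (nat_lit 1633) (nat_lit 114) (.e (nat_lit 385068) (nat_lit 26) (.e (nat_lit 532534) (nat_lit 9) (.e (nat_lit 336019) (nat_lit 3) (.e (nat_lit 98342) (nat_lit 20) (.e (nat_lit 221208) (nat_lit 21) (.e (nat_lit 164130) (nat_lit 134) (.e (nat_lit 1074) (nat_lit 81) .nil)))))))) (.g (nat_lit 5) .nil .nil))))) (.nd (nat_lit 5) (.nd (nat_lit 6) 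
(.lf (nat_lit 67089) (.g (nat_lit 1519) (.e (nat_lit 1631) (nat_lit 114) (.e (nat_lit 385094) (nat_lit 49) (.e (nat_lit 778320) (nat_lit 4) (.e (nat_lit 65630) (nat_lit 14) .nil)))) .nil)) 
(.lf (nat_lit 67153) (.g (nat_lit 1983) (.e (nat_lit 1633) (nat_lit 114) (.e (nat_lit 385068) (nat_lit 26) (.e (nat_lit 532533) (nat_lit 9) (.e (nat_lit 336211) (nat_lit 13) (.e (nat_lit 393251) (nat_lit 18) (.e (nat_lit 164156) (nat_lit 152) (.e (nat_lit 977) (nat_lit 81) .nil))))))) (.g (nat_lit 5) .nil .nil)))) (.nd (nat_lit 6) 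
(.lf (nat_lit 67121) (.g (nat_lit 2372) (.e (nat_lit 1633) (nat_lit 114) (.e (nat_lit 385068) (nat_lit 26) (.e (nat_lit 532501) (nat_lit 1) (.e (nat_lit 57851) (nat_lit 252) .nil)))) .nil)) 
(.lf (nat_lit 67185) (.g (nat_lit 2419) (.e (nat_lit 1633) (nat_lit 114) (.e (nat_lit 385068) (nat_lit 26) (.e (nat_lit 532535) (nat_lit 9) (.e (nat_lit 336099) (nat_lit 9) .nil)))) .nil))))) (.nd (nat_lit 4) (.nd (nat_lit 5) (.nd (nat_lit 6) 
(.lf (nat_lit 67081) (.g (nat_lit 2254) (.e (nat_lit 1631) (nat_lit 114) (.e (nat_lit 385093) (nat_lit 49) (.e (nat_lit 778320) (nat_lit 4) (.e (nat_lit 65630) (nat_lit 14) (.e (nat_lit 401454) (nat_lit 12) .nil))))) .nil)) 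
(.lf (nat_lit 67145) (.g (nat_lit 2146) (.e (nat_lit 1633) (nat_lit 114) (.e (nat_lit 385068) (nat_lit 26) (.e (nat_lit 532530) (nat_lit 9) (.e (nat_lit 336211) (nat_lit 13) (.e (nat_lit 393251) (nat_lit 18) .nil))))) .nil))) (.nd (nat_lit 6) 
(.lf (nat_lit 67113) (.g (nat_lit 3593) (.e (nat_lit 1633) (nat_lit 114) (.e (nat_lit 392960) (nat_lit 24) (.e (nat_lit 516160) (nat_lit 10) (.e (nat_lit 434248) (nat_lit 28) (.e (nat_lit 573487) (nat_lit 14) (.e (nat_lit 73753) (nat_lit 8) (.e (nat_lit 557059) (nat_lit 0) .nil))))))) (.g (nat_lit 6) .nil .nil))) 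
(.lf (nat_lit 67177) (.g (nat_lit 1151) (.e (nat_lit 1633) (nat_lit 114) (.e (nat_lit 385068) (nat_lit 26) (.e (nat_lit 532534) (nat_lit 9) (.e (nat_lit 336211) (nat_lit 13) .nil)))) .nil)))) (.nd (nat_lit 5) (.nd (nat_lit 6) 
(.lf (nat_lit 67097) (.g (nat_lit 2220) (.e (nat_lit 1632) (nat_lit 114) (.e (nat_lit 385093) (nat_lit 49) (.e (nat_lit 778317) (nat_lit 3) (.e (nat_lit 57476) (nat_lit 28) (.e (nat_lit 557108) (nat_lit 15) .nil))))) .nil)) 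
(.lf (nat_lit 67161) (.g (nat_lit 4461) (.e (nat_lit 1633) (nat_lit 114) (.e (nat_lit 385068) (nat_lit 26) (.e (nat_lit 532534) (nat_lit 9) (.e (nat_lit 336019) (nat_lit 3) (.e (nat_lit 98342) (nat_lit 20) (.e (nat_lit 221206) (nat_lit 21) (.e (nat_lit 164131) (nat_lit 134) (.e (nat_lit 1074) (nat_lit 81) .nil)))))))) (.g (nat_lit 5) .nil .nil)))) (.nd (nat_lit 6) 
(.lf (nat_lit 67129) (.g (nat_lit 1670) (.e (nat_lit 1633) (nat_lit 114) (.e (nat_lit 385068) (nat_lit 26) (.e (nat_lit 532513) (nat_lit 3) (.e (nat_lit 114698) (nat_lit 11) .nil)))) .nil)) 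
(.lf (nat_lit 67193) (.g (nat_lit 1030) (.e (nat_lit 1633) (nat_lit 114) (.e (nat_lit 385068) (nat_lit 26) (.e (nat_lit 532536) (nat_lit 9) .nil))) .nil)))))) (.nd (nat_lit 3) (.nd (nat_lit 4) (.nd (nat_lit 5) (.nd (nat_lit 6) 
(.lf (nat_lit 67077) (.g (nat_lit 2695) (.e (nat_lit 1631) (nat_lit 114) (.e (nat_lit 385074) (nat_lit 31) (.e (nat_lit 573491) (nat_lit 15) (.e (nat_lit 81954) (nat_lit 23) (.e (nat_lit 98325) (nat_lit 17) (.e (nat_lit 7936) (nat_lit 402) .nil)))))) (.g (nat_lit 4) .nil .nil))) 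
(.lf (nat_lit 67141) (.g (nat_lit 2380) (.e (nat_lit 1633) (nat_lit 114) (.e (nat_lit 385068) (nat_lit 26) (.e (nat_lit 532530) (nat_lit 9) (.e (nat_lit 336136) (nat_lit 9) .nil)))) .nil))) (.nd (nat_lit 6) 
(.lf (nat_lit 67109) (.g (nat_lit 2877) (.e (nat_lit 1633) (nat_lit 114) (.e (nat_lit 392960) (nat_lit 24) (.e (nat_lit 516160) (nat_lit 10) (.e (nat_lit 434247) (nat_lit 28) (.e (nat_lit 573489) (nat_lit 14) (.e (nat_lit 73754) (nat_lit 8) (.e (nat_lit 557059) (nat_lit 0) .nil))))))) (.g (nat_lit 6) .nil .nil))) 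
(.lf (nat_lit 67173) (.g (nat_lit 1597) (.e (nat_lit 1633) (nat_lit 114) (.e (nat_lit 385068) (nat_lit 26) (.e (nat_lit 532534) (nat_lit 9) (.e (nat_lit 336115) (nat_lit 9) .nil)))) .nil)))) (.nd (nat_lit 5) (.nd (nat_lit 6) 
(.lf (nat_lit 67093) (.g (nat_lit 2199) (.e (nat_lit 1632) (nat_lit 114) (.e (nat_lit 385068) (nat_lit 26) (.e (nat_lit 532504) (nat_lit 1) (.e (nat_lit 57829) (nat_lit 250) .nil)))) .nil)) 
(.lf (nat_lit 67157) (.g (nat_lit 3105) (.e (nat_lit 1633) (nat_lit 114) (.e (nat_lit 385068) (nat_lit 26) (.e (nat_lit 532534) (nat_lit 9) (.e (nat_lit 336019) (nat_lit 3) (.e (nat_lit 98341) (nat_lit 20) (.e (nat_lit 221207) (nat_lit 21) (.e (nat_lit 164130) (nat_lit 134) (.e (nat_lit 1074) (nat_lit 81) .nil)))))))) (.g (nat_lit 4) .nil .nil)))) (.nd (nat_lit 6) 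
(.lf (nat_lit 67125) (.g (nat_lit 1247) (.e (nat_lit 1633) (nat_lit 114) (.e (nat_lit 385068) (nat_lit 26) (.e (nat_lit 532504) (nat_lit 1) (.e (nat_lit 57853) (nat_lit 252) .nil)))) .nil)) 
(.lf (nat_lit 67189) (.g (nat_lit 5693) (.e (nat_lit 1633) (nat_lit 114) (.e (nat_lit 385068) (nat_lit 26) (.e (nat_lit 532535) (nat_lit 9) (.e (nat_lit 336099) (nat_lit 9) (.e (nat_lit 336457) (nat_lit 35) (.e (nat_lit 491526) (nat_lit 0) (.e (nat_lit 2270) (nat_lit 149) (.e (nat_lit 761866) (nat_lit 5) .nil)))))))) (.g (nat_lit 6) .nil .nil)))))) 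
(.nd (nat_lit 4) (.nd (nat_lit 5) (.nd (nat_lit 6) 
(.lf (nat_lit 67085) (.g (nat_lit 2632) (.e (nat_lit 1631) (nat_lit 114) (.e (nat_lit 385094) (nat_lit 49) (.e (nat_lit 778317) (nat_lit 3) (.e (nat_lit 57477) (nat_lit 28) .nil)))) .nil)) 
(.lf (nat_lit 67149) (.g (nat_lit 1519) (.e (nat_lit 1633) (nat_lit 114) (.e (nat_lit 385068) (nat_lit 26) (.e (nat_lit 532533) (nat_lit 9) (.e (nat_lit 336019) (nat_lit 3) (.e (nat_lit 98342) (nat_lit 20) .nil))))) .nil))) (.nd (nat_lit 6) 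
(.lf (nat_lit 67117) (.g (nat_lit 1362) (.e (nat_lit 1633) (nat_lit 114) (.e (nat_lit 385068) (nat_lit 26) (.e (nat_lit 532486) (nat_lit 0) (.e (nat_lit 7936) (nat_lit 347) .nil)))) .nil)) 
(.lf (nat_lit 67181) (.g (nat_lit 2566) (.e (nat_lit 1633) (nat_lit 114) (.e (nat_lit 385068) (nat_lit 26) (.e (nat_lit 532534) (nat_lit 9) (.e (nat_lit 336211) (nat_lit 13) (.e (nat_lit 393251) (nat_lit 18) (.e (nat_lit 164156) (nat_lit 152) (.e (nat_lit 977) (nat_lit 81) .nil))))))) (.g (nat_lit 5) .nil .nil))))) (.nd (nat_lit 5) (.nd (nat_lit 6) 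
(.lf (nat_lit 67101) (.g (nat_lit 1804) (.e (nat_lit 1633) (nat_lit 114) (.e (nat_lit 385045) (nat_lit 21) (.e (nat_lit 6828) (nat_lit 367) (.e (nat_lit 57372) (nat_lit 2) (.e (nat_lit 90172) (nat_lit 14) (.e (nat_lit 180285) (nat_lit 45) (.e (nat_lit 2580) (nat_lit 161) (.e (nat_lit 40963) (nat_lit 0) .nil)))))))) (.g (nat_lit 4) .nil .nil))) 
(.lf (nat_lit 67165) (.g (nat_lit 3776) (.e (nat_lit 1633) (nat_lit 114) (.e (nat_lit 385068) (nat_lit 26) (.e (nat_lit 532534) (nat_lit 9) (.e (nat_lit 336019) (nat_lit 3) (.e (nat_lit 98342) (nat_lit 20) (.e (nat_lit 221207) (nat_lit 21) (.e (nat_lit 164132) (nat_lit 134) (.e (nat_lit 1074) (nat_lit 81) .nil)))))))) (.g (nat_lit 4) .nil .nil)))) (.nd (nat_lit 6) 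
(.lf (nat_lit 67133) (.g (nat_lit 3597) (.e (nat_lit 1633) (nat_lit 114) (.e (nat_lit 385068) (nat_lit 26) (.e (nat_lit 532523) (nat_lit 7) (.e (nat_lit 319490) (nat_lit 0) (.e (nat_lit 5750) (nat_lit 314) (.e (nat_lit 24588) (nat_lit 0) (.e (nat_lit 2270) (nat_lit 149) (.e (nat_lit 761867) (nat_lit 5) .nil)))))))) (.g (nat_lit 4) .nil .nil))) 
(.lf (nat_lit 67197) (.g (nat_lit 2588) (.e (nat_lit 1633) (nat_lit 114) (.e (nat_lit 385068) (nat_lit 26) (.e (nat_lit 532542) (nat_lit 9) (.e (nat_lit 336231) (nat_lit 14) (.e (nat_lit 401472) (nat_lit 28) .nil))))) .nil))))))) (.nd (nat_lit 2) (.nd (nat_lit 3) (.nd (nat_lit 4) (.nd (nat_lit 5) (.nd (nat_lit 6) 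
(.lf (nat_lit 67075) (.g (nat_lit 2466) (.e (nat_lit 1631) (nat_lit 114) (.e (nat_lit 385074) (nat_lit 31) (.e (nat_lit 573485) (nat_lit 13) (.e (nat_lit 65619) (nat_lit 10) (.e (nat_lit 344115) (nat_lit 20) .nil))))) .nil)) 
(.lf (nat_lit 67139) (.g (nat_lit 3559) (.e (nat_lit 1633) (nat_lit 114) (.e (nat_lit 385068) (nat_lit 26) (.e (nat_lit 532530) (nat_lit 9) (.e (nat_lit 336019) (nat_lit 3) (.e (nat_lit 98341) (nat_lit 20) (.e (nat_lit 229120) (nat_lit 1) (.e (nat_lit 57623) (nat_lit 128) (.e (nat_lit 1077) (nat_lit 81) .nil)))))))) (.g (nat_lit 4) .nil .nil)))) (.nd (nat_lit 6) 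
(.lf (nat_lit 67107) (.g (nat_lit 3143) (.e (nat_lit 1633) (nat_lit 114) (.e (nat_lit 392960) (nat_lit 24) (.e (nat_lit 516160) (nat_lit 10) (.e (nat_lit 434246) (nat_lit 28) (.e (nat_lit 573487) (nat_lit 14) (.e (nat_lit 73753) (nat_lit 8) (.e (nat_lit 557058) (nat_lit 0) .nil))))))) (.g (nat_lit 6) .nil .nil))) 
(.lf (nat_lit 67171) (.g (nat_lit 4514) (.e (nat_lit 1633) (nat_lit 114) (.e (nat_lit 385068) (nat_lit 26) (.e (nat_lit 532534) (nat_lit 9) (.e (nat_lit 336019) (nat_lit 3) (.e (nat_lit 98342) (nat_lit 20) (.e (nat_lit 221208) (nat_lit 21) (.e (nat_lit 164134) (nat_lit 134) (.e (nat_lit 1074) (nat_lit 81) .nil)))))))) (.g (nat_lit 5) .nil .nil))))) (.nd (nat_lit 5) (.nd (nat_lit 6) 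
(.lf (nat_lit 67091) (.g (nat_lit 2313) (.e (nat_lit 1632) (nat_lit 114) (.e (nat_lit 385068) (nat_lit 26) (.e (nat_lit 532501) (nat_lit 1) (.e (nat_lit 57829) (nat_lit 250) .nil)))) .nil)) 
(.lf (nat_lit 67155) (.g (nat_lit 3032) (.e (nat_lit 1633) (nat_lit 114) (.e (nat_lit 385068) (nat_lit 26) (.e (nat_lit 532534) (nat_lit 9) (.e (nat_lit 336019) (nat_lit 3) (.e (nat_lit 98341) (nat_lit 20) .nil))))) .nil))) (.nd (nat_lit 6) 
(.lf (nat_lit 67123) (.g (nat_lit 2487) (.e (nat_lit 1633) (nat_lit 114) (.e (nat_lit 385068) (nat_lit 26) (.e (nat_lit 532503) (nat_lit 1) (.e (nat_lit 57847) (nat_lit 252) (.e (nat_lit 57411) (nat_lit 12) (.e (nat_lit 336446) (nat_lit 33) (.e (nat_lit 483072) (nat_lit 8) .nil))))))) (.g (nat_lit 5) .nil .nil))) 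
(.lf (nat_lit 67187) (.g (nat_lit 6171) (.e (nat_lit 1633) (nat_lit 114) (.e (nat_lit 385068) (nat_lit 26) (.e (nat_lit 532535) (nat_lit 9) (.e (nat_lit 336099) (nat_lit 9) (.e (nat_lit 336457) (nat_lit 35) (.e (nat_lit 491525) (nat_lit 0) (.e (nat_lit 2270) (nat_lit 149) (.e (nat_lit 761867) (nat_lit 5) .nil)))))))) (.g (nat_lit 8) .nil .nil)))))) 
(.nd (nat_lit 4) (.nd (nat_lit 5) (.nd (nat_lit 6) 
(.lf (nat_lit 67083) (.g (nat_lit 2602) (.e (nat_lit 1631) (nat_lit 114) (.e (nat_lit 385094) (nat_lit 49) (.e (nat_lit 778317) (nat_lit 3) (.e (nat_lit 57476) (nat_lit 28) .nil)))) .nil)) 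
(.lf (nat_lit 67147) (.g (nat_lit 404) (.e (nat_lit 1633) (nat_lit 114) (.e (nat_lit 385068) (nat_lit 26) (.e (nat_lit 532533) (nat_lit 9) .nil))) .nil))) (.nd (nat_lit 6) 
(.lf (nat_lit 67115) (.g (nat_lit 3934) (.e (nat_lit 1633) (nat_lit 114) (.e (nat_lit 392960) (nat_lit 24) (.e (nat_lit 516160) (nat_lit 10) (.e (nat_lit 434248) (nat_lit 28) (.e (nat_lit 573489) (nat_lit 14) (.e (nat_lit 73755) (nat_lit 8) (.e (nat_lit 557058) (nat_lit 0) .nil))))))) (.g (nat_lit 6) .nil .nil))) 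
(.lf (nat_lit 67179) (.g (nat_lit 2248) (.e (nat_lit 1633) (nat_lit 114) (.e (nat_lit 385068) (nat_lit 26) (.e (nat_lit 532534) (nat_lit 9) (.e (nat_lit 336211) (nat_lit 13) (.e (nat_lit 393251) (nat_lit 18) (.e (nat_lit 164151) (nat_lit 152) (.e (nat_lit 976) (nat_lit 81) .nil))))))) (.g (nat_lit 4) .nil .nil))))) (.nd (nat_lit 5) (.nd (nat_lit 6) 
(.lf (nat_lit 67099) (.g (nat_lit 1981) (.e (nat_lit 1632) (nat_lit 114) (.e (nat_lit 385093) (nat_lit 49) (.e (nat_lit 778317) (nat_lit 3) (.e (nat_lit 57477) (nat_lit 28) (.e (nat_lit 557108) (nat_lit 15) (.e (nat_lit 188449) (nat_lit 22) (.e (nat_lit 204544) (nat_lit 9) .nil))))))) (.g (nat_lit 4) .nil .nil))) 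
(.lf (nat_lit 67163) (.g (nat_lit 4708) (.e (nat_lit 1633) (nat_lit 114) (.e (nat_lit 385068) (nat_lit 26) (.e (nat_lit 532534) (nat_lit 9) (.e (nat_lit 336019) (nat_lit 3) (.e (nat_lit 98342) (nat_lit 20) (.e (nat_lit 221207) (nat_lit 21) (.e (nat_lit 164130) (nat_lit 134) (.e (nat_lit 1074) (nat_lit 81) .nil)))))))) (.g (nat_lit 5) .nil .nil)))) (.nd (nat_lit 6) 
(.lf (nat_lit 67131) (.g (nat_lit 870) (.e (nat_lit 1633) (nat_lit 114) (.e (nat_lit 385068) (nat_lit 26) (.e (nat_lit 532523) (nat_lit 7) .nil))) .nil)) 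
(.lf (nat_lit 67195) (.g (nat_lit 987) (.e (nat_lit 1633) (nat_lit 114) (.e (nat_lit 385068) (nat_lit 26) (.e (nat_lit 532542) (nat_lit 9) .nil))) .nil)))))) (.nd (nat_lit 3) (.nd (nat_lit 4) (.nd (nat_lit 5) (.nd (nat_lit 6) 
(.lf (nat_lit 67079) (.g (nat_lit 2630) (.e (nat_lit 1631) (nat_lit 114) (.e (nat_lit 385091) (nat_lit 49) (.e (nat_lit 778318) (nat_lit 3) (.e (nat_lit 57476) (nat_lit 28) (.e (nat_lit 557108) (nat_lit 15) (.e (nat_lit 188449) (nat_lit 22) (.e (nat_lit 204544) (nat_lit 9) .nil))))))) (.g (nat_lit 5) .nil .nil))) 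
(.lf (nat_lit 67143) (.g (nat_lit 2628) (.e (nat_lit 1633) (nat_lit 114) (.e (nat_lit 385068) (nat_lit 26) (.e (nat_lit 532530) (nat_lit 9) (.e (nat_lit 336208) (nat_lit 12) (.e (nat_lit 392960) (nat_lit 3) (.e (nat_lit 57569) (nat_lit 53) (.e (nat_lit 761867) (nat_lit 5) .nil))))))) (.g (nat_lit 4) .nil .nil)))) (.nd (nat_lit 6) 
(.lf (nat_lit 67111) (.g (nat_lit 2568) (.e (nat_lit 1633) (nat_lit 114) (.e (nat_lit 392960) (nat_lit 24) (.e (nat_lit 516160) (nat_lit 10) (.e (nat_lit 434247) (nat_lit 28) (.e (nat_lit 573489) (nat_lit 14) (.e (nat_lit 73755) (nat_lit 8) (.e (nat_lit 564992) (nat_lit 0) .nil))))))) (.g (nat_lit 6) .nil .nil))) 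
(.lf (nat_lit 67175) (.g (nat_lit 2610) (.e (nat_lit 1633) (nat_lit 114) (.e (nat_lit 385068) (nat_lit 26) (.e (nat_lit 532534) (nat_lit 9) (.e (nat_lit 336115) (nat_lit 9) (.e (nat_lit 336459) (nat_lit 35) (.e (nat_lit 491526) (nat_lit 0) (.e (nat_lit 2270) (nat_lit 149) (.e (nat_lit 761867) (nat_lit 5) .nil)))))))) (.g (nat_lit 5) .nil .nil))))) (.nd (nat_lit 5) (.nd (nat_lit 6) 
(.lf (nat_lit 67095) (.g (nat_lit 2227) (.e (nat_lit 1632) (nat_lit 114) (.e (nat_lit 385074) (nat_lit 31) (.e (nat_lit 573485) (nat_lit 13) (.e (nat_lit 65619) (nat_lit 10) .nil)))) .nil)) 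
(.lf (nat_lit 67159) (.g (nat_lit 3045) (.e (nat_lit 1633) (nat_lit 114) (.e (nat_lit 385068) (nat_lit 26) (.e (nat_lit 532534) (nat_lit 9) (.e (nat_lit 336019) (nat_lit 3) (.e (nat_lit 98342) (nat_lit 20) .nil))))) .nil))) (.nd (nat_lit 6) 
(.lf (nat_lit 67127) (.g (nat_lit 791) (.e (nat_lit 1633) (nat_lit 114) (.e (nat_lit 385068) (nat_lit 26) (.e (nat_lit 532511) (nat_lit 2) .nil))) .nil)) 
(.lf (nat_lit 67191) (.g (nat_lit 5016) (.e (nat_lit 1633) (nat_lit 114) (.e (nat_lit 385068) (nat_lit 26) (.e (nat_lit 532535) (nat_lit 9) (.e (nat_lit 336099) (nat_lit 9) (.e (nat_lit 336457) (nat_lit 35) (.e (nat_lit 491526) (nat_lit 0) (.e (nat_lit 2270) (nat_lit 149) (.e (nat_lit 761868) (nat_lit 5) .nil)))))))) (.g (nat_lit 4) .nil .nil)))))) 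
(.nd (nat_lit 4) (.nd (nat_lit 5) (.nd (nat_lit 6) 
(.lf (nat_lit 67087) (.g (nat_lit 4026) (.e (nat_lit 1631) (nat_lit 114) (.e (nat_lit 385094) (nat_lit 49) (.e (nat_lit 778317) (nat_lit 3) (.e (nat_lit 57480) (nat_lit 28) (.e (nat_lit 557109) (nat_lit 15) (.e (nat_lit 188449) (nat_lit 22) (.e (nat_lit 204544) (nat_lit 9) .nil))))))) (.g (nat_lit 6) .nil .nil))) 
(.lf (nat_lit 67151) (.g (nat_lit 2533) (.e (nat_lit 1633) (nat_lit 114) (.e (nat_lit 385068) (nat_lit 26) (.e (nat_lit 532533) (nat_lit 9) (.e (nat_lit 336208) (nat_lit 12) (.e (nat_lit 392960) (nat_lit 3) (.e (nat_lit 57569) (nat_lit 53) (.e (nat_lit 761867) (nat_lit 5) .nil))))))) (.g (nat_lit 6) .nil .nil)))) (.nd (nat_lit 6) 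
(.lf (nat_lit 67119) (.g (nat_lit 2328) (.e (nat_lit 1633) (nat_lit 114) (.e (nat_lit 385068) (nat_lit 26) (.e (nat_lit 532499) (nat_lit 1) (.e (nat_lit 57847) (nat_lit 252) (.e (nat_lit 57407) (nat_lit 12) (.e (nat_lit 336446) (nat_lit 33) (.e (nat_lit 483072) (nat_lit 8) .nil))))))) (.g (nat_lit 4) .nil .nil))) 
(.lf (nat_lit 67183) (.g (nat_lit 898) (.e (nat_lit 1633) (nat_lit 114) (.e (nat_lit 385068) (nat_lit 26) (.e (nat_lit 532535) (nat_lit 9) .nil))) .nil)))) (.nd (nat_lit 5) (.nd (nat_lit 6) 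
(.lf (nat_lit 67103) (.g (nat_lit 1490) (.e (nat_lit 1633) (nat_lit 114) (.e (nat_lit 392960) (nat_lit 24) (.e (nat_lit 516151) (nat_lit 9) (.e (nat_lit 426211) (nat_lit 9) (.e (nat_lit 433920) (nat_lit 33) (.e (nat_lit 385025) (nat_lit 0) .nil)))))) (.g (nat_lit 4) .nil .nil))) 
(.lf (nat_lit 67167) (.g (nat_lit 3875) (.e (nat_lit 1633) (nat_lit 114) (.e (nat_lit 385068) (nat_lit 26) (.e (nat_lit 532534) (nat_lit 9) (.e (nat_lit 336019) (nat_lit 3) (.e (nat_lit 98342) (nat_lit 20) (.e (nat_lit 221207) (nat_lit 21) (.e (nat_lit 171776) (nat_lit 134) (.e (nat_lit 1077) (nat_lit 81) .nil)))))))) (.g (nat_lit 4) .nil .nil)))) (.nd (nat_lit 6) 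
(.lf (nat_lit 67135) (.g (nat_lit 4335) (.e (nat_lit 1633) (nat_lit 114) (.e (nat_lit 385068) (nat_lit 26) (.e (nat_lit 532523) (nat_lit 7) (.e (nat_lit 319490) (nat_lit 0) (.e (nat_lit 5750) (nat_lit 314) (.e (nat_lit 24599) (nat_lit 1) (.e (nat_lit 57666) (nat_lit 152) (.e (nat_lit 1077) (nat_lit 81) .nil)))))))) (.g (nat_lit 4) .nil .nil))) 
(.lf (nat_lit 67199) (.g (nat_lit 3666) (.e (nat_lit 1633) (nat_lit 114) (.e (nat_lit 385068) (nat_lit 26) (.e (nat_lit 532543) (nat_lit 10) (.e (nat_lit 344129) (nat_lit 26) (.e (nat_lit 557103) (nat_lit 14) (.e (nat_lit 188160) (nat_lit 8) (.e (nat_lit 557060) (nat_lit 0) .nil))))))) (.g (nat_lit 5) .nil .nil))))))))))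

noncomputable def tv926 : DT := (.nd (nat_lit 0) (.nd (nat_lit 1) (.nd (nat_lit 2) (.nd (nat_lit 3) (.nd (nat_lit 4) (.nd (nat_lit 5) 
(.lf (nat_lit 67200) (.g (nat_lit 3973) (.e (nat_lit 1633) (nat_lit 114) (.e (nat_lit 385068) (nat_lit 26) (.e (nat_lit 532543) (nat_lit 10) (.e (nat_lit 344129) (nat_lit 26) (.e (nat_lit 557104) (nat_lit 14) (.e (nat_lit 188160) (nat_lit 8) (.e (nat_lit 557059) (nat_lit 0) .nil))))))) (.g (nat_lit 5) .nil .nil))) 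
(.lf (nat_lit 67232) (.g (nat_lit 2697) (.e (nat_lit 1633) (nat_lit 114) (.e (nat_lit 385068) (nat_lit 26) (.e (nat_lit 532545) (nat_lit 10) (.e (nat_lit 344133) (nat_lit 26) (.e (nat_lit 557103) (nat_lit 14) (.e (nat_lit 188160) (nat_lit 8) (.e (nat_lit 557059) (nat_lit 0) .nil))))))) (.g (nat_lit 5) .nil .nil)))) (.nd (nat_lit 5) 
(.lf (nat_lit 67216) (.g (nat_lit 3304) (.e (nat_lit 1633) (nat_lit 114) (.e (nat_lit 385068) (nat_lit 26) (.e (nat_lit 532544) (nat_lit 10) (.e (nat_lit 344129) (nat_lit 26) (.e (nat_lit 557104) (nat_lit 14) (.e (nat_lit 188160) (nat_lit 8) (.e (nat_lit 557060) (nat_lit 0) .nil))))))) (.g (nat_lit 5) .nil .nil))) 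
(.lf (nat_lit 67248) (.g (nat_lit 838) (.e (nat_lit 1633) (nat_lit 114) (.e (nat_lit 385068) (nat_lit 26) (.e (nat_lit 532548) (nat_lit 11) .nil))) .nil)))) (.nd (nat_lit 4) (.nd (nat_lit 5) 
(.lf (nat_lit 67208) (.g (nat_lit 2559) (.e (nat_lit 1633) (nat_lit 114) (.e (nat_lit 385068) (nat_lit 26) (.e (nat_lit 532543) (nat_lit 10) (.e (nat_lit 344133) (nat_lit 26) (.e (nat_lit 557098) (nat_lit 13) (.e (nat_lit 172038) (nat_lit 0) (.e (nat_lit 3282) (nat_lit 200) (.e (nat_lit 557059) (nat_lit 0) .nil)))))))) (.g (nat_lit 4) .nil .nil))) 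
(.lf (nat_lit 67240) (.g (nat_lit 2650) (.e (nat_lit 1633) (nat_lit 114) (.e (nat_lit 385068) (nat_lit 26) (.e (nat_lit 532546) (nat_lit 11) (.e (nat_lit 352279) (nat_lit 19) (.e (nat_lit 491526) (nat_lit 0) (.e (nat_lit 2270) (nat_lit 149) (.e (nat_lit 761866) (nat_lit 5) .nil))))))) (.g (nat_lit 5) .nil .nil)))) (.nd (nat_lit 5) 
(.lf (nat_lit 67224) (.g (nat_lit 3210) (.e (nat_lit 1633) (nat_lit 114) (.e (nat_lit 385068) (nat_lit 26) (.e (nat_lit 532544) (nat_lit 10) (.e (nat_lit 344133) (nat_lit 26) (.e (nat_lit 557103) (nat_lit 14) (.e (nat_lit 188160) (nat_lit 8) (.e (nat_lit 557059) (nat_lit 0) .nil))))))) (.g (nat_lit 4) .nil .nil))) 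
(.lf (nat_lit 67256) (.g (nat_lit 1420) (.e (nat_lit 1633) (nat_lit 114) (.e (nat_lit 385068) (nat_lit 26) (.e (nat_lit 532551) (nat_lit 12) (.e (nat_lit 360492) (nat_lit 22) .nil)))) .nil))))) (.nd (nat_lit 3) (.nd (nat_lit 4) (.nd (nat_lit 5) 
(.lf (nat_lit 67204) (.g (nat_lit 2578) (.e (nat_lit 1633) (nat_lit 114) (.e (nat_lit 385068) (nat_lit 26) (.e (nat_lit 532543) (nat_lit 10) (.e (nat_lit 344130) (nat_lit 26) (.e (nat_lit 557104) (nat_lit 14) (.e (nat_lit 188160) (nat_lit 8) (.e (nat_lit 557059) (nat_lit 0) .nil))))))) (.g (nat_lit 5) .nil .nil))) 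
(.lf (nat_lit 67236) (.g (nat_lit 679) (.e (nat_lit 1633) (nat_lit 114) (.e (nat_lit 385068) (nat_lit 26) (.e (nat_lit 540416) (nat_lit 10) .nil))) .nil))) (.nd (nat_lit 5) 
(.lf (nat_lit 67220) (.g (nat_lit 3109) (.e (nat_lit 1633) (nat_lit 114) (.e (nat_lit 385068) (nat_lit 26) (.e (nat_lit 532544) (nat_lit 10) (.e (nat_lit 344132) (nat_lit 26) (.e (nat_lit 557101) (nat_lit 13) (.e (nat_lit 172036) (nat_lit 0) (.e (nat_lit 3282) (nat_lit 200) (.e (nat_lit 557059) (nat_lit 0) .nil)))))))) (.g (nat_lit 5) .nil .nil))) 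
(.lf (nat_lit 67252) (.g (nat_lit 2281) (.e (nat_lit 1633) (nat_lit 114) (.e (nat_lit 385068) (nat_lit 26) (.e (nat_lit 532550) (nat_lit 12) (.e (nat_lit 360488) (nat_lit 20) .nil)))) .nil)))) (.nd (nat_lit 4) (.nd (nat_lit 5) 
(.lf (nat_lit 67212) (.g (nat_lit 3161) (.e (nat_lit 1633) (nat_lit 114) (.e (nat_lit 385068) (nat_lit 26) (.e (nat_lit 532543) (nat_lit 10) (.e (nat_lit 344133) (nat_lit 26) (.e (nat_lit 557105) (nat_lit 14) (.e (nat_lit 188160) (nat_lit 8) (.e (nat_lit 557059) (nat_lit 0) .nil))))))) (.g (nat_lit 5) .nil .nil))) 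
(.lf (nat_lit 67244) (.g (nat_lit 2941) (.e (nat_lit 1633) (nat_lit 114) (.e (nat_lit 385068) (nat_lit 26) (.e (nat_lit 532547) (nat_lit 11) (.e (nat_lit 352279) (nat_lit 19) (.e (nat_lit 491525) (nat_lit 0) (.e (nat_lit 2270) (nat_lit 149) (.e (nat_lit 761866) (nat_lit 5) .nil))))))) (.g (nat_lit 4) .nil .nil)))) (.nd (nat_lit 5) 
(.lf (nat_lit 67228) (.g (nat_lit 2783) (.e (nat_lit 1633) (nat_lit 114) (.e (nat_lit 385068) (nat_lit 26) (.e (nat_lit 532545) (nat_lit 10) (.e (nat_lit 344130) (nat_lit 26) (.e (nat_lit 557104) (nat_lit 14) (.e (nat_lit 188160) (nat_lit 8) (.e (nat_lit 557059) (nat_lit 0) .nil))))))) (.g (nat_lit 5) .nil .nil))) 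
(.lf (nat_lit 67260) (.g (nat_lit 3915) (.e (nat_lit 1633) (nat_lit 114) (.e (nat_lit 385068) (nat_lit 26) (.e (nat_lit 532553) (nat_lit 13) (.e (nat_lit 368676) (nat_lit 21) (.e (nat_lit 516124) (nat_lit 2) (.e (nat_lit 220928) (nat_lit 3) (.e (nat_lit 57454) (nat_lit 21) (.e (nat_lit 500013) (nat_lit 14) .nil)))))))) (.g (nat_lit 5) .nil .nil))))))) 
(.nd (nat_lit 2) (.nd (nat_lit 3) (.nd (nat_lit 4) (.nd (nat_lit 5) 
(.lf (nat_lit 67202) (.g (nat_lit 2001) (.e (nat_lit 1633) (nat_lit 114) (.e (nat_lit 385068) (nat_lit 26) (.e (nat_lit 532543) (nat_lit 10) (.e (nat_lit 344130) (nat_lit 26) (.e (nat_lit 557103) (nat_lit 14) (.e (nat_lit 188160) (nat_lit 8) (.e (nat_lit 557059) (nat_lit 0) .nil))))))) (.g (nat_lit 4) .nil .nil))) 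
(.lf (nat_lit 67234) (.g (nat_lit 3044) (.e (nat_lit 1633) (nat_lit 114) (.e (nat_lit 385068) (nat_lit 26) (.e (nat_lit 532545) (nat_lit 10) (.e (nat_lit 344133) (nat_lit 26) (.e (nat_lit 557105) (nat_lit 14) (.e (nat_lit 188160) (nat_lit 8) (.e (nat_lit 557059) (nat_lit 0) .nil))))))) (.g (nat_lit 5) .nil .nil)))) (.nd (nat_lit 5) 
(.lf (nat_lit 67218) (.g (nat_lit 2960) (.e (nat_lit 1633) (nat_lit 114) (.e (nat_lit 385068) (nat_lit 26) (.e (nat_lit 532544) (nat_lit 10) (.e (nat_lit 344130) (nat_lit 26) (.e (nat_lit 557104) (nat_lit 14) (.e (nat_lit 188160) (nat_lit 8) (.e (nat_lit 557059) (nat_lit 0) .nil))))))) (.g (nat_lit 5) .nil .nil))) 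
(.lf (nat_lit 67250) (.g (nat_lit 2609) (.e (nat_lit 1633) (nat_lit 114) (.e (nat_lit 385068) (nat_lit 26) (.e (nat_lit 532548) (nat_lit 11) (.e (nat_lit 352279) (nat_lit 19) (.e (nat_lit 491526) (nat_lit 0) (.e (nat_lit 2270) (nat_lit 149) (.e (nat_lit 761866) (nat_lit 5) .nil))))))) (.g (nat_lit 5) .nil .nil))))) (.nd (nat_lit 4) (.nd (nat_lit 5) 
(.lf (nat_lit 67210) (.g (nat_lit 2868) (.e (nat_lit 1633) (nat_lit 114) (.e (nat_lit 385068) (nat_lit 26) (.e (nat_lit 532543) (nat_lit 10) (.e (nat_lit 344133) (nat_lit 26) (.e (nat_lit 557103) (nat_lit 14) (.e (nat_lit 188160) (nat_lit 8) (.e (nat_lit 557059) (nat_lit 0) .nil))))))) (.g (nat_lit 5) .nil .nil))) 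
(.lf (nat_lit 67242) (.g (nat_lit 1996) (.e (nat_lit 1633) (nat_lit 114) (.e (nat_lit 385068) (nat_lit 26) (.e (nat_lit 532547) (nat_lit 11) (.e (nat_lit 352257) (nat_lit 0) .nil)))) .nil))) (.nd (nat_lit 5) 
(.lf (nat_lit 67226) (.g (nat_lit 3671) (.e (nat_lit 1633) (nat_lit 114) (.e (nat_lit 385068) (nat_lit 26) (.e (nat_lit 532544) (nat_lit 10) (.e (nat_lit 344133) (nat_lit 26) (.e (nat_lit 557105) (nat_lit 14) (.e (nat_lit 188160) (nat_lit 8) (.e (nat_lit 557060) (nat_lit 0) .nil))))))) (.g (nat_lit 5) .nil .nil))) 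
(.lf (nat_lit 67258) (.g (nat_lit 1633) (.e (nat_lit 1633) (nat_lit 114) (.e (nat_lit 385068) (nat_lit 26) (.e (nat_lit 532553) (nat_lit 13) (.e (nat_lit 368676) (nat_lit 21) .nil)))) .nil))))) (.nd (nat_lit 3) (.nd (nat_lit 4) (.nd (nat_lit 5) 
(.lf (nat_lit 67206) (.g (nat_lit 2407) (.e (nat_lit 1633) (nat_lit 114) (.e (nat_lit 385068) (nat_lit 26) (.e (nat_lit 532543) (nat_lit 10) (.e (nat_lit 344132) (nat_lit 26) (.e (nat_lit 557101) (nat_lit 13) (.e (nat_lit 172036) (nat_lit 0) (.e (nat_lit 3282) (nat_lit 200) (.e (nat_lit 557059) (nat_lit 0) .nil)))))))) (.g (nat_lit 4) .nil .nil))) 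
(.lf (nat_lit 67238) (.g (nat_lit 1182) (.e (nat_lit 1633) (nat_lit 114) (.e (nat_lit 385068) (nat_lit 26) (.e (nat_lit 532546) (nat_lit 11) (.e (nat_lit 352279) (nat_lit 19) .nil)))) .nil))) (.nd (nat_lit 5) 
(.lf (nat_lit 67222) (.g (nat_lit 3095) (.e (nat_lit 1633) (nat_lit 114) (.e (nat_lit 385068) (nat_lit 26) (.e (nat_lit 532544) (nat_lit 10) (.e (nat_lit 344133) (nat_lit 26) (.e (nat_lit 557098) (nat_lit 13) (.e (nat_lit 172038) (nat_lit 0) (.e (nat_lit 3282) (nat_lit 200) (.e (nat_lit 557059) (nat_lit 0) .nil)))))))) (.g (nat_lit 4) .nil .nil))) 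
(.lf (nat_lit 67254) (.g (nat_lit 1420) (.e (nat_lit 1633) (nat_lit 114) (.e (nat_lit 385068) (nat_lit 26) (.e (nat_lit 532551) (nat_lit 12) (.e (nat_lit 360488) (nat_lit 20) .nil)))) .nil)))) (.nd (nat_lit 4) (.nd (nat_lit 5) 
(.lf (nat_lit 67214) (.g (nat_lit 857) (.e (nat_lit 1633) (nat_lit 114) (.e (nat_lit 385068) (nat_lit 26) (.e (nat_lit 532544) (nat_lit 10) .nil))) .nil)) 
(.lf (nat_lit 67246) (.g (nat_lit 3284) (.e (nat_lit 1633) (nat_lit 114) (.e (nat_lit 385068) (nat_lit 26) (.e (nat_lit 532547) (nat_lit 11) (.e (nat_lit 352279) (nat_lit 19) (.e (nat_lit 491526) (nat_lit 0) (.e (nat_lit 2270) (nat_lit 149) (.e (nat_lit 761866) (nat_lit 5) .nil))))))) (.g (nat_lit 5) .nil .nil)))) (.nd (nat_lit 5) 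
(.lf (nat_lit 67230) (.g (nat_lit 2457) (.e (nat_lit 1633) (nat_lit 114) (.e (nat_lit 385068) (nat_lit 26) (.e (nat_lit 532545) (nat_lit 10) (.e (nat_lit 344132) (nat_lit 26) (.e (nat_lit 557101) (nat_lit 13) (.e (nat_lit 172036) (nat_lit 0) (.e (nat_lit 3282) (nat_lit 200) (.e (nat_lit 557059) (nat_lit 0) .nil)))))))) (.g (nat_lit 5) .nil .nil))) 
(.lf (nat_lit 67262) (.g (nat_lit 2754) (.e (nat_lit 1633) (nat_lit 114) (.e (nat_lit 385068) (nat_lit 26) (.e (nat_lit 532553) (nat_lit 13) (.e (nat_lit 368676) (nat_lit 21) (.e (nat_lit 516137) (nat_lit 6) .nil))))) .nil))))))) (.nd (nat_lit 1) (.nd (nat_lit 2) (.nd (nat_lit 3) (.nd (nat_lit 4) (.nd (nat_lit 5) 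
(.lf (nat_lit 67201) (.g (nat_lit 2889) (.e (nat_lit 1633) (nat_lit 114) (.e (nat_lit 385068) (nat_lit 26) (.e (nat_lit 532543) (nat_lit 10) (.e (nat_lit 344129) (nat_lit 26) (.e (nat_lit 557104) (nat_lit 14) (.e (nat_lit 188160) (nat_lit 8) (.e (nat_lit 557061) (nat_lit 0) .nil))))))) (.g (nat_lit 4) .nil .nil))) 
(.lf (nat_lit 67233) (.g (nat_lit 3203) (.e (nat_lit 1633) (nat_lit 114) (.e (nat_lit 385068) (nat_lit 26) (.e (nat_lit 532545) (nat_lit 10) (.e (nat_lit 344133) (nat_lit 26) (.e (nat_lit 557103) (nat_lit 14) (.e (nat_lit 188160) (nat_lit 8) (.e (nat_lit 557060) (nat_lit 0) .nil))))))) (.g (nat_lit 5) .nil .nil)))) (.nd (nat_lit 5) 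
(.lf (nat_lit 67217) (.g (nat_lit 2763) (.e (nat_lit 1633) (nat_lit 114) (.e (nat_lit 385068) (nat_lit 26) (.e (nat_lit 532544) (nat_lit 10) (.e (nat_lit 344130) (nat_lit 26) (.e (nat_lit 557103) (nat_lit 14) (.e (nat_lit 188160) (nat_lit 8) (.e (nat_lit 557060) (nat_lit 0) .nil))))))) (.g (nat_lit 4) .nil .nil))) 
(.lf (nat_lit 67249) (.g (nat_lit 2799) (.e (nat_lit 1633) (nat_lit 114) (.e (nat_lit 385068) (nat_lit 26) (.e (nat_lit 532548) (nat_lit 11) (.e (nat_lit 352279) (nat_lit 19) (.e (nat_lit 491525) (nat_lit 0) (.e (nat_lit 2270) (nat_lit 149) (.e (nat_lit 761867) (nat_lit 5) .nil))))))) (.g (nat_lit 6) .nil .nil))))) (.nd (nat_lit 4) (.nd (nat_lit 5) 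
(.lf (nat_lit 67209) (.g (nat_lit 2711) (.e (nat_lit 1633) (nat_lit 114) (.e (nat_lit 385068) (nat_lit 26) (.e (nat_lit 532543) (nat_lit 10) (.e (nat_lit 344133) (nat_lit 26) (.e (nat_lit 557098) (nat_lit 13) (.e (nat_lit 172038) (nat_lit 0) (.e (nat_lit 3282) (nat_lit 200) (.e (nat_lit 557060) (nat_lit 0) .nil)))))))) (.g (nat_lit 4) .nil .nil))) 
(.lf (nat_lit 67241) (.g (nat_lit 3252) (.e (nat_lit 1633) (nat_lit 114) (.e (nat_lit 385068) (nat_lit 26) (.e (nat_lit 532546) (nat_lit 11) (.e (nat_lit 352279) (nat_lit 19) (.e (nat_lit 491526) (nat_lit 0) (.e (nat_lit 2270) (nat_lit 149) (.e (nat_lit 761867) (nat_lit 5) .nil))))))) (.g (nat_lit 7) .nil .nil)))) (.nd (nat_lit 5) 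
(.lf (nat_lit 67225) (.g (nat_lit 3714) (.e (nat_lit 1633) (nat_lit 114) (.e (nat_lit 385068) (nat_lit 26) (.e (nat_lit 532544) (nat_lit 10) (.e (nat_lit 344133) (nat_lit 26) (.e (nat_lit 557103) (nat_lit 14) (.e (nat_lit 188160) (nat_lit 8) (.e (nat_lit 557060) (nat_lit 0) .nil))))))) (.g (nat_lit 5) .nil .nil))) 
(.lf (nat_lit 67257) (.g (nat_lit 917) (.e (nat_lit 1633) (nat_lit 114) (.e (nat_lit 385068) (nat_lit 26) (.e (nat_lit 532553) (nat_lit 13) .nil))) .nil))))) (.nd (nat_lit 3) (.nd (nat_lit 4) (.nd (nat_lit 5) 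
(.lf (nat_lit 67205) (.g (nat_lit 2936) (.e (nat_lit 1633) (nat_lit 114) (.e (nat_lit 385068) (nat_lit 26) (.e (nat_lit 532543) (nat_lit 10) (.e (nat_lit 344130) (nat_lit 26) (.e (nat_lit 557104) (nat_lit 14) (.e (nat_lit 188160) (nat_lit 8) (.e (nat_lit 557060) (nat_lit 0) .nil))))))) (.g (nat_lit 5) .nil .nil))) 
(.lf (nat_lit 67237) (.g (nat_lit 848) (.e (nat_lit 1633) (nat_lit 114) (.e (nat_lit 385068) (nat_lit 26) (.e (nat_lit 532546) (nat_lit 11) .nil))) .nil))) (.nd (nat_lit 5) 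
(.lf (nat_lit 67221) (.g (nat_lit 3248) (.e (nat_lit 1633) (nat_lit 114) (.e (nat_lit 385068) (nat_lit 26) (.e (nat_lit 532544) (nat_lit 10) (.e (nat_lit 344132) (nat_lit 26) (.e (nat_lit 557101) (nat_lit 13) (.e (nat_lit 172036) (nat_lit 0) (.e (nat_lit 3282) (nat_lit 200) (.e (nat_lit 557060) (nat_lit 0) .nil)))))))) (.g (nat_lit 5) .nil .nil))) 
(.lf (nat_lit 67253) (.g (nat_lit 1032) (.e (nat_lit 1633) (nat_lit 114) (.e (nat_lit 385068) (nat_lit 26) (.e (nat_lit 532551) (nat_lit 12) .nil))) .nil)))) (.nd (nat_lit 4) (.nd (nat_lit 5) 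
(.lf (nat_lit 67213) (.g (nat_lit 3500) (.e (nat_lit 1633) (nat_lit 114) (.e (nat_lit 385068) (nat_lit 26) (.e (nat_lit 532543) (nat_lit 10) (.e (nat_lit 344133) (nat_lit 26) (.e (nat_lit 557105) (nat_lit 14) (.e (nat_lit 188160) (nat_lit 8) (.e (nat_lit 557060) (nat_lit 0) .nil))))))) (.g (nat_lit 5) .nil .nil))) 
(.lf (nat_lit 67245) (.g (nat_lit 3461) (.e (nat_lit 1633) (nat_lit 114) (.e (nat_lit 385068) (nat_lit 26) (.e (nat_lit 532547) (nat_lit 11) (.e (nat_lit 352279) (nat_lit 19) (.e (nat_lit 491525) (nat_lit 0) (.e (nat_lit 2270) (nat_lit 149) (.e (nat_lit 761867) (nat_lit 5) .nil))))))) (.g (nat_lit 6) .nil .nil)))) (.nd (nat_lit 5) 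
(.lf (nat_lit 67229) (.g (nat_lit 2841) (.e (nat_lit 1633) (nat_lit 114) (.e (nat_lit 385068) (nat_lit 26) (.e (nat_lit 532545) (nat_lit 10) (.e (nat_lit 344132) (nat_lit 26) (.e (nat_lit 557100) (nat_lit 13) (.e (nat_lit 172035) (nat_lit 0) (.e (nat_lit 3282) (nat_lit 200) (.e (nat_lit 557060) (nat_lit 0) .nil)))))))) (.g (nat_lit 5) .nil .nil))) 
(.lf (nat_lit 67261) (.g (nat_lit 3997) (.e (nat_lit 1633) (nat_lit 114) (.e (nat_lit 385068) (nat_lit 26) (.e (nat_lit 532553) (nat_lit 13) (.e (nat_lit 368676) (nat_lit 21) (.e (nat_lit 516124) (nat_lit 2) (.e (nat_lit 220928) (nat_lit 3) (.e (nat_lit 57454) (nat_lit 21) (.e (nat_lit 507648) (nat_lit 14) .nil)))))))) (.g (nat_lit 7) .nil .nil))))))) 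
(.nd (nat_lit 2) (.nd (nat_lit 3) (.nd (nat_lit 4) (.nd (nat_lit 5) 
(.lf (nat_lit 67203) (.g (nat_lit 2518) (.e (nat_lit 1633) (nat_lit 114) (.e (nat_lit 385068) (nat_lit 26) (.e (nat_lit 532543) (nat_lit 10) (.e (nat_lit 344130) (nat_lit 26) (.e (nat_lit 557103) (nat_lit 14) (.e (nat_lit 188160) (nat_lit 8) (.e (nat_lit 557060) (nat_lit 0) .nil))))))) (.g (nat_lit 4) .nil .nil))) 
(.lf (nat_lit 67235) (.g (nat_lit 3372) (.e (nat_lit 1633) (nat_lit 114) (.e (nat_lit 385068) (nat_lit 26) (.e (nat_lit 532545) (nat_lit 10) (.e (nat_lit 344133) (nat_lit 26) (.e (nat_lit 557105) (nat_lit 14) (.e (nat_lit 188160) (nat_lit 8) (.e (nat_lit 557060) (nat_lit 0) .nil))))))) (.g (nat_lit 5) .nil .nil)))) (.nd (nat_lit 5) 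
(.lf (nat_lit 67219) (.g (nat_lit 3305) (.e (nat_lit 1633) (nat_lit 114) (.e (nat_lit 385068) (nat_lit 26) (.e (nat_lit 532544) (nat_lit 10) (.e (nat_lit 344130) (nat_lit 26) (.e (nat_lit 557104) (nat_lit 14) (.e (nat_lit 188160) (nat_lit 8) (.e (nat_lit 557060) (nat_lit 0) .nil))))))) (.g (nat_lit 5) .nil .nil))) 
(.lf (nat_lit 67251) (.g (nat_lit 1030) (.e (nat_lit 1633) (nat_lit 114) (.e (nat_lit 385068) (nat_lit 26) (.e (nat_lit 532550) (nat_lit 12) .nil))) .nil)))) (.nd (nat_lit 4) (.nd (nat_lit 5) 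
(.lf (nat_lit 67211) (.g (nat_lit 3385) (.e (nat_lit 1633) (nat_lit 114) (.e (nat_lit 385068) (nat_lit 26) (.e (nat_lit 532543) (nat_lit 10) (.e (nat_lit 344133) (nat_lit 26) (.e (nat_lit 557103) (nat_lit 14) (.e (nat_lit 188160) (nat_lit 8) (.e (nat_lit 557060) (nat_lit 0) .nil))))))) (.g (nat_lit 5) .nil .nil))) 
(.lf (nat_lit 67243) (.g (nat_lit 1918) (.e (nat_lit 1633) (nat_lit 114) (.e (nat_lit 385068) (nat_lit 26) (.e (nat_lit 532547) (nat_lit 11) (.e (nat_lit 352279) (nat_lit 19) .nil)))) .nil))) (.nd (nat_lit 5) 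
(.lf (nat_lit 67227) (.g (nat_lit 2799) (.e (nat_lit 1633) (nat_lit 114) (.e (nat_lit 385068) (nat_lit 26) (.e (nat_lit 532545) (nat_lit 10) (.e (nat_lit 344130) (nat_lit 26) (.e (nat_lit 557103) (nat_lit 14) (.e (nat_lit 188160) (nat_lit 8) (.e (nat_lit 557060) (nat_lit 0) .nil))))))) (.g (nat_lit 5) .nil .nil))) 
(.lf (nat_lit 67259) (.g (nat_lit 3588) (.e (nat_lit 1633) (nat_lit 114) (.e (nat_lit 385068) (nat_lit 26) (.e (nat_lit 532553) (nat_lit 13) (.e (nat_lit 368676) (nat_lit 21) (.e (nat_lit 516124) (nat_lit 2) (.e (nat_lit 220928) (nat_lit 0) (.e (nat_lit 1239) (nat_lit 91) (.e (nat_lit 98048) (nat_lit 0) .nil)))))))) (.g (nat_lit 5) .nil .nil)))))) 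
(.nd (nat_lit 3) (.nd (nat_lit 4) (.nd (nat_lit 5) 
(.lf (nat_lit 67207) (.g (nat_lit 2559) (.e (nat_lit 1633) (nat_lit 114) (.e (nat_lit 385068) (nat_lit 26) (.e (nat_lit 532543) (nat_lit 10) (.e (nat_lit 344132) (nat_lit 26) (.e (nat_lit 557101) (nat_lit 13) (.e (nat_lit 172036) (nat_lit 0) (.e (nat_lit 3282) (nat_lit 200) (.e (nat_lit 557060) (nat_lit 0) .nil)))))))) (.g (nat_lit 4) .nil .nil))) 
(.lf (nat_lit 67239) (.g (nat_lit 2838) (.e (nat_lit 1633) (nat_lit 114) (.e (nat_lit 385068) (nat_lit 26) (.e (nat_lit 532546) (nat_lit 11) (.e (nat_lit 352279) (nat_lit 19) (.e (nat_lit 491525) (nat_lit 0) (.e (nat_lit 2270) (nat_lit 149) (.e (nat_lit 761867) (nat_lit 5) .nil))))))) (.g (nat_lit 6) .nil .nil)))) (.nd (nat_lit 5) 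
(.lf (nat_lit 67223) (.g (nat_lit 3234) (.e (nat_lit 1633) (nat_lit 114) (.e (nat_lit 385068) (nat_lit 26) (.e (nat_lit 532544) (nat_lit 10) (.e (nat_lit 344133) (nat_lit 26) (.e (nat_lit 557098) (nat_lit 13) (.e (nat_lit 172038) (nat_lit 0) (.e (nat_lit 3282) (nat_lit 200) (.e (nat_lit 557060) (nat_lit 0) .nil)))))))) (.g (nat_lit 4) .nil .nil))) 
(.lf (nat_lit 67255) (.g (nat_lit 2130) (.e (nat_lit 1633) (nat_lit 114) (.e (nat_lit 385068) (nat_lit 26) (.e (nat_lit 532551) (nat_lit 12) (.e (nat_lit 360488) (nat_lit 20) (.e (nat_lit 761899) (nat_lit 15) .nil))))) .nil)))) (.nd (nat_lit 4) (.nd (nat_lit 5) 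
(.lf (nat_lit 67215) (.g (nat_lit 2725) (.e (nat_lit 1633) (nat_lit 114) (.e (nat_lit 385068) (nat_lit 26) (.e (nat_lit 532544) (nat_lit 10) (.e (nat_lit 344129) (nat_lit 26) (.e (nat_lit 557103) (nat_lit 14) (.e (nat_lit 188160) (nat_lit 8) (.e (nat_lit 557060) (nat_lit 0) .nil))))))) (.g (nat_lit 4) .nil .nil))) 
(.lf (nat_lit 67247) (.g (nat_lit 3894) (.e (nat_lit 1633) (nat_lit 114) (.e (nat_lit 385068) (nat_lit 26) (.e (nat_lit 532547) (nat_lit 11) (.e (nat_lit 352279) (nat_lit 19) (.e (nat_lit 491526) (nat_lit 0) (.e (nat_lit 2270) (nat_lit 149) (.e (nat_lit 761867) (nat_lit 5) .nil))))))) (.g (nat_lit 6) .nil .nil)))) (.nd (nat_lit 5) 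
(.lf (nat_lit 67231) (.g (nat_lit 2598) (.e (nat_lit 1633) (nat_lit 114) (.e (nat_lit 385068) (nat_lit 26) (.e (nat_lit 532545) (nat_lit 10) (.e (nat_lit 344132) (nat_lit 26) (.e (nat_lit 557101) (nat_lit 13) (.e (nat_lit 172036) (nat_lit 0) (.e (nat_lit 3282) (nat_lit 200) (.e (nat_lit 557060) (nat_lit 0) .nil)))))))) (.g (nat_lit 5) .nil .nil))) 
(.lf (nat_lit 67263) (.g (nat_lit 1030) (.e (nat_lit 1633) (nat_lit 114) (.e (nat_lit 385068) (nat_lit 26) (.e (nat_lit 532554) (nat_lit 13) .nil))) .nil))))))))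

noncomputable def tv927 : DT := (.nd (nat_lit 0) (.nd (nat_lit 1) (.nd (nat_lit 2) (.nd (nat_lit 3) (.nd (nat_lit 4) (.nd (nat_lit 5) 
(.lf (nat_lit 67264) (.g (nat_lit 598) (.e (nat_lit 1633) (nat_lit 114) (.e (nat_lit 385068) (nat_lit 26) (.e (nat_lit 532555) (nat_lit 13) .nil))) .nil)) 
(.lf (nat_lit 67296) (.g (nat_lit 5901) (.e (nat_lit 1633) (nat_lit 114) (.e (nat_lit 385072) (nat_lit 31) (.e (nat_lit 573492) (nat_lit 15) (.e (nat_lit 81956) (nat_lit 23) (.e (nat_lit 98320) (nat_lit 17) .nil))))) .nil))) (.nd (nat_lit 5) 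
(.lf (nat_lit 67280) (.g (nat_lit 1524) (.e (nat_lit 1633) (nat_lit 114) (.e (nat_lit 385068) (nat_lit 26) (.e (nat_lit 532560) (nat_lit 14) (.e (nat_lit 376840) (nat_lit 11) .nil)))) .nil)) 
(.lf (nat_lit 67312) (.g (nat_lit 2010) (.e (nat_lit 1633) (nat_lit 114) (.e (nat_lit 385074) (nat_lit 31) (.e (nat_lit 573484) (nat_lit 13) (.e (nat_lit 65610) (nat_lit 10) (.e (nat_lit 344115) (nat_lit 20) (.e (nat_lit 507904) (nat_lit 0) (.e (nat_lit 5296) (nat_lit 298) .nil))))))) (.g (nat_lit 4) .nil .nil))))) (.nd (nat_lit 4) (.nd (nat_lit 5) 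
(.lf (nat_lit 67272) (.g (nat_lit 2716) (.e (nat_lit 1633) (nat_lit 114) (.e (nat_lit 385068) (nat_lit 26) (.e (nat_lit 532558) (nat_lit 14) (.e (nat_lit 376842) (nat_lit 11) (.e (nat_lit 426014) (nat_lit 0) (.e (nat_lit 3460) (nat_lit 216) (.e (nat_lit 688159) (nat_lit 13) .nil))))))) (.g (nat_lit 4) .nil .nil))) 
(.lf (nat_lit 67304) (.g (nat_lit 2524) (.e (nat_lit 1633) (nat_lit 114) (.e (nat_lit 385074) (nat_lit 31) (.e (nat_lit 573482) (nat_lit 13) (.e (nat_lit 65604) (nat_lit 9) (.e (nat_lit 336013) (nat_lit 2) .nil))))) .nil))) (.nd (nat_lit 5) 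
(.lf (nat_lit 67288) (.g (nat_lit 2131) (.e (nat_lit 1633) (nat_lit 114) (.e (nat_lit 385068) (nat_lit 26) (.e (nat_lit 532560) (nat_lit 14) (.e (nat_lit 376842) (nat_lit 11) (.e (nat_lit 426100) (nat_lit 1) (.e (nat_lit 164161) (nat_lit 152) (.e (nat_lit 7936) (nat_lit 81) .nil))))))) (.g (nat_lit 4) .nil .nil))) 
(.lf (nat_lit 67320) (.g (nat_lit 2629) (.e (nat_lit 1633) (nat_lit 114) (.e (nat_lit 385074) (nat_lit 31) (.e (nat_lit 573484) (nat_lit 13) (.e (nat_lit 65610) (nat_lit 10) (.e (nat_lit 344115) (nat_lit 20) (.e (nat_lit 507906) (nat_lit 0) (.e (nat_lit 5300) (nat_lit 298) .nil))))))) (.g (nat_lit 5) .nil .nil)))))) (.nd (nat_lit 3) (.nd (nat_lit 4) (.nd (nat_lit 5) 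
(.lf (nat_lit 67268) (.g (nat_lit 3530) (.e (nat_lit 1633) (nat_lit 114) (.e (nat_lit 385068) (nat_lit 26) (.e (nat_lit 532555) (nat_lit 13) (.e (nat_lit 368676) (nat_lit 21) (.e (nat_lit 516124) (nat_lit 2) (.e (nat_lit 220928) (nat_lit 3) (.e (nat_lit 57454) (nat_lit 21) (.e (nat_lit 507648) (nat_lit 14) .nil)))))))) (.g (nat_lit 7) .nil .nil))) 
(.lf (nat_lit 67300) (.g (nat_lit 1084) (.e (nat_lit 1633) (nat_lit 114) (.e (nat_lit 385074) (nat_lit 31) (.e (nat_lit 573481) (nat_lit 13) .nil))) .nil))) (.nd (nat_lit 5) 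
(.lf (nat_lit 67284) (.g (nat_lit 3101) (.e (nat_lit 1633) (nat_lit 114) (.e (nat_lit 385068) (nat_lit 26) (.e (nat_lit 532560) (nat_lit 14) (.e (nat_lit 376842) (nat_lit 11) (.e (nat_lit 426098) (nat_lit 1) (.e (nat_lit 164156) (nat_lit 152) (.e (nat_lit 975) (nat_lit 81) .nil))))))) (.g (nat_lit 5) .nil .nil))) 
(.lf (nat_lit 67316) (.g (nat_lit 2276) (.e (nat_lit 1633) (nat_lit 114) (.e (nat_lit 385074) (nat_lit 31) (.e (nat_lit 573484) (nat_lit 13) (.e (nat_lit 65610) (nat_lit 10) (.e (nat_lit 344115) (nat_lit 20) (.e (nat_lit 507906) (nat_lit 0) (.e (nat_lit 5285) (nat_lit 298) .nil))))))) (.g (nat_lit 4) .nil .nil))))) (.nd (nat_lit 4) (.nd (nat_lit 5) 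
(.lf (nat_lit 67276) (.g (nat_lit 2509) (.e (nat_lit 1633) (nat_lit 114) (.e (nat_lit 385068) (nat_lit 26) (.e (nat_lit 532558) (nat_lit 14) (.e (nat_lit 376842) (nat_lit 11) (.e (nat_lit 426107) (nat_lit 1) (.e (nat_lit 164151) (nat_lit 152) (.e (nat_lit 1088) (nat_lit 81) .nil))))))) (.g (nat_lit 4) .nil .nil))) 
(.lf (nat_lit 67308) (.g (nat_lit 2380) (.e (nat_lit 1633) (nat_lit 114) (.e (nat_lit 385074) (nat_lit 31) (.e (nat_lit 573484) (nat_lit 13) (.e (nat_lit 65604) (nat_lit 9) .nil)))) .nil))) (.nd (nat_lit 5) 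
(.lf (nat_lit 67292) (.g (nat_lit 3520) (.e (nat_lit 1633) (nat_lit 114) (.e (nat_lit 385068) (nat_lit 26) (.e (nat_lit 532560) (nat_lit 14) (.e (nat_lit 376842) (nat_lit 11) (.e (nat_lit 426107) (nat_lit 1) (.e (nat_lit 164149) (nat_lit 152) (.e (nat_lit 1088) (nat_lit 81) .nil))))))) (.g (nat_lit 5) .nil .nil))) 
(.lf (nat_lit 67324) (.g (nat_lit 2521) (.e (nat_lit 1633) (nat_lit 114) (.e (nat_lit 385074) (nat_lit 31) (.e (nat_lit 573484) (nat_lit 13) (.e (nat_lit 65610) (nat_lit 10) (.e (nat_lit 344115) (nat_lit 20) (.e (nat_lit 507907) (nat_lit 0) (.e (nat_lit 5294) (nat_lit 298) .nil))))))) (.g (nat_lit 6) .nil .nil))))))) (.nd (nat_lit 2) (.nd (nat_lit 3) (.nd (nat_lit 4) (.nd (nat_lit 5) 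
(.lf (nat_lit 67266) (.g (nat_lit 3121) (.e (nat_lit 1633) (nat_lit 114) (.e (nat_lit 385068) (nat_lit 26) (.e (nat_lit 532555) (nat_lit 13) (.e (nat_lit 368676) (nat_lit 21) (.e (nat_lit 516124) (nat_lit 2) (.e (nat_lit 220928) (nat_lit 0) (.e (nat_lit 1239) (nat_lit 91) (.e (nat_lit 98048) (nat_lit 0) .nil)))))))) (.g (nat_lit 5) .nil .nil))) 
(.lf (nat_lit 67298) (.g (nat_lit 5747) (.e (nat_lit 1633) (nat_lit 114) (.e (nat_lit 385072) (nat_lit 31) (.e (nat_lit 573493) (nat_lit 15) (.e (nat_lit 81956) (nat_lit 23) (.e (nat_lit 98320) (nat_lit 17) .nil))))) .nil))) (.nd (nat_lit 5) 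
(.lf (nat_lit 67282) (.g (nat_lit 2811) (.e (nat_lit 1633) (nat_lit 114) (.e (nat_lit 385068) (nat_lit 26) (.e (nat_lit 532560) (nat_lit 14) (.e (nat_lit 376842) (nat_lit 11) (.e (nat_lit 426014) (nat_lit 0) (.e (nat_lit 3460) (nat_lit 216) (.e (nat_lit 688159) (nat_lit 13) .nil))))))) (.g (nat_lit 4) .nil .nil))) 
(.lf (nat_lit 67314) (.g (nat_lit 2314) (.e (nat_lit 1633) (nat_lit 114) (.e (nat_lit 385074) (nat_lit 31) (.e (nat_lit 573484) (nat_lit 13) (.e (nat_lit 65610) (nat_lit 10) (.e (nat_lit 344115) (nat_lit 20) (.e (nat_lit 507906) (nat_lit 0) (.e (nat_lit 5282) (nat_lit 298) .nil))))))) (.g (nat_lit 4) .nil .nil))))) (.nd (nat_lit 4) (.nd (nat_lit 5) 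
(.lf (nat_lit 67274) (.g (nat_lit 2311) (.e (nat_lit 1633) (nat_lit 114) (.e (nat_lit 385068) (nat_lit 26) (.e (nat_lit 532558) (nat_lit 14) (.e (nat_lit 376842) (nat_lit 11) (.e (nat_lit 426098) (nat_lit 1) (.e (nat_lit 164156) (nat_lit 152) (.e (nat_lit 977) (nat_lit 81) .nil))))))) (.g (nat_lit 4) .nil .nil))) 
(.lf (nat_lit 67306) (.g (nat_lit 1639) (.e (nat_lit 1633) (nat_lit 114) (.e (nat_lit 385074) (nat_lit 31) (.e (nat_lit 573482) (nat_lit 13) (.e (nat_lit 65619) (nat_lit 10) .nil)))) .nil))) (.nd (nat_lit 5) 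
(.lf (nat_lit 67290) (.g (nat_lit 2500) (.e (nat_lit 1633) (nat_lit 114) (.e (nat_lit 385068) (nat_lit 26) (.e (nat_lit 532560) (nat_lit 14) (.e (nat_lit 376842) (nat_lit 11) (.e (nat_lit 426100) (nat_lit 1) (.e (nat_lit 164167) (nat_lit 152) (.e (nat_lit 1074) (nat_lit 81) .nil))))))) (.g (nat_lit 4) .nil .nil))) 
(.lf (nat_lit 67322) (.g (nat_lit 1911) (.e (nat_lit 1633) (nat_lit 114) (.e (nat_lit 385074) (nat_lit 31) (.e (nat_lit 573484) (nat_lit 13) (.e (nat_lit 65610) (nat_lit 10) (.e (nat_lit 344115) (nat_lit 20) (.e (nat_lit 507907) (nat_lit 0) (.e (nat_lit 5281) (nat_lit 298) .nil))))))) (.g (nat_lit 4) .nil .nil)))))) (.nd (nat_lit 3) (.nd (nat_lit 4) (.nd (nat_lit 5) 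
(.lf (nat_lit 67270) (.g (nat_lit 586) (.e (nat_lit 1633) (nat_lit 114) (.e (nat_lit 385068) (nat_lit 26) (.e (nat_lit 532558) (nat_lit 14) .nil))) .nil)) 
(.lf (nat_lit 67302) (.g (nat_lit 2283) (.e (nat_lit 1633) (nat_lit 114) (.e (nat_lit 385074) (nat_lit 31) (.e (nat_lit 573482) (nat_lit 13) (.e (nat_lit 65603) (nat_lit 9) .nil)))) .nil))) (.nd (nat_lit 5) 
(.lf (nat_lit 67286) (.g (nat_lit 2598) (.e (nat_lit 1633) (nat_lit 114) (.e (nat_lit 385068) (nat_lit 26) (.e (nat_lit 532560) (nat_lit 14) (.e (nat_lit 376842) (nat_lit 11) (.e (nat_lit 426098) (nat_lit 1) (.e (nat_lit 164156) (nat_lit 152) (.e (nat_lit 1075) (nat_lit 81) .nil))))))) (.g (nat_lit 4) .nil .nil))) 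
(.lf (nat_lit 67318) (.g (nat_lit 1971) (.e (nat_lit 1633) (nat_lit 114) (.e (nat_lit 385074) (nat_lit 31) (.e (nat_lit 573484) (nat_lit 13) (.e (nat_lit 65610) (nat_lit 10) (.e (nat_lit 344115) (nat_lit 20) (.e (nat_lit 507906) (nat_lit 0) (.e (nat_lit 5292) (nat_lit 298) .nil))))))) (.g (nat_lit 4) .nil .nil))))) (.nd (nat_lit 4) (.nd (nat_lit 5) 
(.lf (nat_lit 67278) (.g (nat_lit 1033) (.e (nat_lit 1633) (nat_lit 114) (.e (nat_lit 385068) (nat_lit 26) (.e (nat_lit 532559) (nat_lit 14) .nil))) .nil)) 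
(.lf (nat_lit 67310) (.g (nat_lit 1525) (.e (nat_lit 1633) (nat_lit 114) (.e (nat_lit 385074) (nat_lit 31) (.e (nat_lit 573484) (nat_lit 13) (.e (nat_lit 65610) (nat_lit 10) (.e (nat_lit 344115) (nat_lit 20) .nil))))) .nil))) (.nd (nat_lit 5) 
(.lf (nat_lit 67294) (.g (nat_lit 2301) (.e (nat_lit 1633) (nat_lit 114) (.e (nat_lit 385068) (nat_lit 26) (.e (nat_lit 532560) (nat_lit 14) (.e (nat_lit 376842) (nat_lit 11) (.e (nat_lit 426107) (nat_lit 1) (.e (nat_lit 164151) (nat_lit 152) (.e (nat_lit 976) (nat_lit 81) .nil))))))) (.g (nat_lit 4) .nil .nil))) 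
(.lf (nat_lit 67326) (.g (nat_lit 2848) (.e (nat_lit 1633) (nat_lit 114) (.e (nat_lit 385074) (nat_lit 31) (.e (nat_lit 573484) (nat_lit 13) (.e (nat_lit 65610) (nat_lit 10) (.e (nat_lit 344115) (nat_lit 20) (.e (nat_lit 507908) (nat_lit 0) (.e (nat_lit 5281) (nat_lit 298) .nil))))))) (.g (nat_lit 5) .nil .nil)))))))) 
(.nd (nat_lit 1) (.nd (nat_lit 2) (.nd (nat_lit 3) (.nd (nat_lit 4) (.nd (nat_lit 5) 
(.lf (nat_lit 67265) (.g (nat_lit 1295) (.e (nat_lit 1633) (nat_lit 114) (.e (nat_lit 385068) (nat_lit 26) (.e (nat_lit 532555) (nat_lit 13) (.e (nat_lit 368676) (nat_lit 21) .nil)))) .nil)) 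
(.lf (nat_lit 67297) (.g (nat_lit 6638) (.e (nat_lit 1633) (nat_lit 114) (.e (nat_lit 385072) (nat_lit 31) (.e (nat_lit 573492) (nat_lit 15) (.e (nat_lit 81956) (nat_lit 23) (.e (nat_lit 98320) (nat_lit 17) (.e (nat_lit 7536) (nat_lit 402) .nil)))))) (.g (nat_lit 4) .nil .nil)))) (.nd (nat_lit 5) 
(.lf (nat_lit 67281) (.g (nat_lit 2160) (.e (nat_lit 1633) (nat_lit 114) (.e (nat_lit 385068) (nat_lit 26) (.e (nat_lit 532560) (nat_lit 14) (.e (nat_lit 376842) (nat_lit 11) (.e (nat_lit 426014) (nat_lit 0) .nil))))) .nil)) 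
(.lf (nat_lit 67313) (.g (nat_lit 2995) (.e (nat_lit 1633) (nat_lit 114) (.e (nat_lit 385074) (nat_lit 31) (.e (nat_lit 573484) (nat_lit 13) (.e (nat_lit 65610) (nat_lit 10) (.e (nat_lit 344115) (nat_lit 20) (.e (nat_lit 507906) (nat_lit 0) (.e (nat_lit 5245) (nat_lit 298) .nil))))))) (.g (nat_lit 6) .nil .nil))))) (.nd (nat_lit 4) (.nd (nat_lit 5) 
(.lf (nat_lit 67273) (.g (nat_lit 3581) (.e (nat_lit 1633) (nat_lit 114) (.e (nat_lit 385068) (nat_lit 26) (.e (nat_lit 532558) (nat_lit 14) (.e (nat_lit 376842) (nat_lit 11) (.e (nat_lit 426098) (nat_lit 1) (.e (nat_lit 164151) (nat_lit 152) (.e (nat_lit 1088) (nat_lit 81) .nil))))))) (.g (nat_lit 5) .nil .nil))) 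
(.lf (nat_lit 67305) (.g (nat_lit 2693) (.e (nat_lit 1633) (nat_lit 114) (.e (nat_lit 385074) (nat_lit 31) (.e (nat_lit 573482) (nat_lit 13) (.e (nat_lit 65607) (nat_lit 9) .nil)))) .nil))) (.nd (nat_lit 5) 
(.lf (nat_lit 67289) (.g (nat_lit 2617) (.e (nat_lit 1633) (nat_lit 114) (.e (nat_lit 385068) (nat_lit 26) (.e (nat_lit 532560) (nat_lit 14) (.e (nat_lit 376842) (nat_lit 11) (.e (nat_lit 426100) (nat_lit 1) (.e (nat_lit 164164) (nat_lit 152) (.e (nat_lit 1074) (nat_lit 81) .nil))))))) (.g (nat_lit 4) .nil .nil))) 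
(.lf (nat_lit 67321) (.g (nat_lit 1787) (.e (nat_lit 1633) (nat_lit 114) (.e (nat_lit 385074) (nat_lit 31) (.e (nat_lit 573484) (nat_lit 13) (.e (nat_lit 65610) (nat_lit 10) (.e (nat_lit 344115) (nat_lit 20) (.e (nat_lit 507907) (nat_lit 0) (.e (nat_lit 5278) (nat_lit 298) .nil))))))) (.g (nat_lit 4) .nil .nil)))))) (.nd (nat_lit 3) (.nd (nat_lit 4) (.nd (nat_lit 5) 
(.lf (nat_lit 67269) (.g (nat_lit 2417) (.e (nat_lit 1633) (nat_lit 114) (.e (nat_lit 385068) (nat_lit 26) (.e (nat_lit 532555) (nat_lit 13) (.e (nat_lit 368676) (nat_lit 21) (.e (nat_lit 516137) (nat_lit 6) .nil))))) .nil)) 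
(.lf (nat_lit 67301) (.g (nat_lit 2175) (.e (nat_lit 1633) (nat_lit 114) (.e (nat_lit 385074) (nat_lit 31) (.e (nat_lit 573482) (nat_lit 13) (.e (nat_lit 65598) (nat_lit 9) .nil)))) .nil))) (.nd (nat_lit 5) 
(.lf (nat_lit 67285) (.g (nat_lit 2494) (.e (nat_lit 1633) (nat_lit 114) (.e (nat_lit 385068) (nat_lit 26) (.e (nat_lit 532560) (nat_lit 14) (.e (nat_lit 376842) (nat_lit 11) (.e (nat_lit 426098) (nat_lit 1) (.e (nat_lit 164156) (nat_lit 152) (.e (nat_lit 977) (nat_lit 81) .nil))))))) (.g (nat_lit 4) .nil .nil))) 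
(.lf (nat_lit 67317) (.g (nat_lit 1933) (.e (nat_lit 1633) (nat_lit 114) (.e (nat_lit 385074) (nat_lit 31) (.e (nat_lit 573484) (nat_lit 13) (.e (nat_lit 65610) (nat_lit 10) (.e (nat_lit 344115) (nat_lit 20) (.e (nat_lit 507906) (nat_lit 0) (.e (nat_lit 5286) (nat_lit 298) .nil))))))) (.g (nat_lit 4) .nil .nil))))) (.nd (nat_lit 4) (.nd (nat_lit 5) 
(.lf (nat_lit 67277) (.g (nat_lit 2479) (.e (nat_lit 1633) (nat_lit 114) (.e (nat_lit 385068) (nat_lit 26) (.e (nat_lit 532558) (nat_lit 14) (.e (nat_lit 376842) (nat_lit 11) (.e (nat_lit 426107) (nat_lit 1) (.e (nat_lit 164162) (nat_lit 152) (.e (nat_lit 1074) (nat_lit 81) .nil))))))) (.g (nat_lit 4) .nil .nil))) 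
(.lf (nat_lit 67309) (.g (nat_lit 1974) (.e (nat_lit 1633) (nat_lit 114) (.e (nat_lit 385074) (nat_lit 31) (.e (nat_lit 573484) (nat_lit 13) (.e (nat_lit 73472) (nat_lit 9) .nil)))) .nil))) (.nd (nat_lit 5) 
(.lf (nat_lit 67293) (.g (nat_lit 2218) (.e (nat_lit 1633) (nat_lit 114) (.e (nat_lit 385068) (nat_lit 26) (.e (nat_lit 532560) (nat_lit 14) (.e (nat_lit 376842) (nat_lit 11) (.e (nat_lit 426107) (nat_lit 1) (.e (nat_lit 164150) (nat_lit 152) (.e (nat_lit 976) (nat_lit 81) .nil))))))) (.g (nat_lit 4) .nil .nil))) 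
(.lf (nat_lit 67325) (.g (nat_lit 2898) (.e (nat_lit 1633) (nat_lit 114) (.e (nat_lit 385074) (nat_lit 31) (.e (nat_lit 573484) (nat_lit 13) (.e (nat_lit 65610) (nat_lit 10) (.e (nat_lit 344115) (nat_lit 20) (.e (nat_lit 507908) (nat_lit 0) (.e (nat_lit 5278) (nat_lit 298) .nil))))))) (.g (nat_lit 5) .nil .nil))))))) (.nd (nat_lit 2) (.nd (nat_lit 3) (.nd (nat_lit 4) (.nd (nat_lit 5) 
(.lf (nat_lit 67267) (.g (nat_lit 3448) (.e (nat_lit 1633) (nat_lit 114) (.e (nat_lit 385068) (nat_lit 26) (.e (nat_lit 532555) (nat_lit 13) (.e (nat_lit 368676) (nat_lit 21) (.e (nat_lit 516124) (nat_lit 2) (.e (nat_lit 220928) (nat_lit 3) (.e (nat_lit 57454) (nat_lit 21) (.e (nat_lit 500013) (nat_lit 14) .nil)))))))) (.g (nat_lit 5) .nil .nil))) 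
(.lf (nat_lit 67299) (.g (nat_lit 2002) (.e (nat_lit 1633) (nat_lit 114) (.e (nat_lit 385074) (nat_lit 31) (.e (nat_lit 573479) (nat_lit 13) (.e (nat_lit 65619) (nat_lit 10) (.e (nat_lit 344117) (nat_lit 21) .nil))))) .nil))) (.nd (nat_lit 5) 
(.lf (nat_lit 67283) (.g (nat_lit 3095) (.e (nat_lit 1633) (nat_lit 114) (.e (nat_lit 385068) (nat_lit 26) (.e (nat_lit 532560) (nat_lit 14) (.e (nat_lit 376842) (nat_lit 11) (.e (nat_lit 426098) (nat_lit 1) (.e (nat_lit 164151) (nat_lit 152) (.e (nat_lit 976) (nat_lit 81) .nil))))))) (.g (nat_lit 5) .nil .nil))) 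
(.lf (nat_lit 67315) (.g (nat_lit 2038) (.e (nat_lit 1633) (nat_lit 114) (.e (nat_lit 385074) (nat_lit 31) (.e (nat_lit 573484) (nat_lit 13) (.e (nat_lit 65610) (nat_lit 10) (.e (nat_lit 344115) (nat_lit 20) (.e (nat_lit 507906) (nat_lit 0) (.e (nat_lit 5283) (nat_lit 298) .nil))))))) (.g (nat_lit 4) .nil .nil))))) (.nd (nat_lit 4) (.nd (nat_lit 5) 
(.lf (nat_lit 67275) (.g (nat_lit 3206) (.e (nat_lit 1633) (nat_lit 114) (.e (nat_lit 385068) (nat_lit 26) (.e (nat_lit 532558) (nat_lit 14) (.e (nat_lit 376842) (nat_lit 11) (.e (nat_lit 426107) (nat_lit 1) (.e (nat_lit 164149) (nat_lit 152) (.e (nat_lit 1088) (nat_lit 81) .nil))))))) (.g (nat_lit 5) .nil .nil))) 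
(.lf (nat_lit 67307) (.g (nat_lit 2160) (.e (nat_lit 1633) (nat_lit 114) (.e (nat_lit 385074) (nat_lit 31) (.e (nat_lit 573484) (nat_lit 13) (.e (nat_lit 65598) (nat_lit 9) .nil)))) .nil))) (.nd (nat_lit 5) 
(.lf (nat_lit 67291) (.g (nat_lit 1882) (.e (nat_lit 1633) (nat_lit 114) (.e (nat_lit 385068) (nat_lit 26) (.e (nat_lit 532560) (nat_lit 14) (.e (nat_lit 376842) (nat_lit 11) (.e (nat_lit 426107) (nat_lit 1) .nil))))) .nil)) 
(.lf (nat_lit 67323) (.g (nat_lit 2540) (.e (nat_lit 1633) (nat_lit 114) (.e (nat_lit 385074) (nat_lit 31) (.e (nat_lit 573484) (nat_lit 13) (.e (nat_lit 65610) (nat_lit 10) (.e (nat_lit 344115) (nat_lit 20) (.e (nat_lit 507907) (nat_lit 0) (.e (nat_lit 5291) (nat_lit 298) .nil))))))) (.g (nat_lit 4) .nil .nil)))))) (.nd (nat_lit 3) (.nd (nat_lit 4) (.nd (nat_lit 5) 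
(.lf (nat_lit 67271) (.g (nat_lit 2134) (.e (nat_lit 1633) (nat_lit 114) (.e (nat_lit 385068) (nat_lit 26) (.e (nat_lit 532558) (nat_lit 14) (.e (nat_lit 376842) (nat_lit 11) (.e (nat_lit 426014) (nat_lit 0) .nil))))) .nil)) 
(.lf (nat_lit 67303) (.g (nat_lit 2071) (.e (nat_lit 1633) (nat_lit 114) (.e (nat_lit 385074) (nat_lit 31) (.e (nat_lit 573482) (nat_lit 13) (.e (nat_lit 65604) (nat_lit 9) .nil)))) .nil))) (.nd (nat_lit 5) 
(.lf (nat_lit 67287) (.g (nat_lit 1902) (.e (nat_lit 1633) (nat_lit 114) (.e (nat_lit 385068) (nat_lit 26) (.e (nat_lit 532560) (nat_lit 14) (.e (nat_lit 376842) (nat_lit 11) (.e (nat_lit 426100) (nat_lit 1) .nil))))) .nil)) 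
(.lf (nat_lit 67319) (.g (nat_lit 1718) (.e (nat_lit 1633) (nat_lit 114) (.e (nat_lit 385074) (nat_lit 31) (.e (nat_lit 573484) (nat_lit 13) (.e (nat_lit 65610) (nat_lit 10) (.e (nat_lit 344115) (nat_lit 20) (.e (nat_lit 507906) (nat_lit 0) (.e (nat_lit 5294) (nat_lit 298) .nil))))))) (.g (nat_lit 4) .nil .nil))))) (.nd (nat_lit 4) (.nd (nat_lit 5) 
(.lf (nat_lit 67279) (.g (nat_lit 1634) (.e (nat_lit 1633) (nat_lit 114) (.e (nat_lit 385068) (nat_lit 26) (.e (nat_lit 532560) (nat_lit 14) (.e (nat_lit 376832) (nat_lit 0) .nil)))) .nil)) 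
(.lf (nat_lit 67311) (.g (nat_lit 2207) (.e (nat_lit 1633) (nat_lit 114) (.e (nat_lit 385074) (nat_lit 31) (.e (nat_lit 573484) (nat_lit 13) (.e (nat_lit 65610) (nat_lit 10) (.e (nat_lit 344115) (nat_lit 20) (.e (nat_lit 507904) (nat_lit 0) (.e (nat_lit 5284) (nat_lit 298) .nil))))))) (.g (nat_lit 4) .nil .nil)))) (.nd (nat_lit 5) 
(.lf (nat_lit 67295) (.g (nat_lit 3004) (.e (nat_lit 1633) (nat_lit 114) (.e (nat_lit 385068) (nat_lit 26) (.e (nat_lit 532560) (nat_lit 14) (.e (nat_lit 376842) (nat_lit 11) (.e (nat_lit 426107) (nat_lit 1) (.e (nat_lit 164162) (nat_lit 152) (.e (nat_lit 1074) (nat_lit 81) .nil))))))) (.g (nat_lit 5) .nil .nil))) 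
(.lf (nat_lit 67327) (.g (nat_lit 2100) (.e (nat_lit 1633) (nat_lit 114) (.e (nat_lit 385074) (nat_lit 31) (.e (nat_lit 573484) (nat_lit 13) (.e (nat_lit 65610) (nat_lit 10) (.e (nat_lit 344115) (nat_lit 20) (.e (nat_lit 507908) (nat_lit 0) (.e (nat_lit 5283) (nat_lit 298) .nil))))))) (.g (nat_lit 4) .nil .nil)))))))))

noncomputable def tv928 : DT := (.nd (nat_lit 0) (.nd (nat_lit 1) (.nd (nat_lit 2) (.nd (nat_lit 3) (.nd (nat_lit 4) (.nd (nat_lit 5) 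
(.lf (nat_lit 67328) (.g (nat_lit 2709) (.e (nat_lit 1633) (nat_lit 114) (.e (nat_lit 385074) (nat_lit 31) (.e (nat_lit 573484) (nat_lit 13) (.e (nat_lit 65610) (nat_lit 10) (.e (nat_lit 344115) (nat_lit 20) (.e (nat_lit 507908) (nat_lit 0) (.e (nat_lit 5285) (nat_lit 298) .nil))))))) (.g (nat_lit 5) .nil .nil))) 
(.lf (nat_lit 67360) (.g (nat_lit 1832) (.e (nat_lit 1633) (nat_lit 114) (.e (nat_lit 385074) (nat_lit 31) (.e (nat_lit 573484) (nat_lit 13) (.e (nat_lit 65617) (nat_lit 10) .nil)))) .nil))) (.nd (nat_lit 5) 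
(.lf (nat_lit 67344) (.g (nat_lit 3760) (.e (nat_lit 1633) (nat_lit 114) (.e (nat_lit 385074) (nat_lit 31) (.e (nat_lit 573484) (nat_lit 13) (.e (nat_lit 65610) (nat_lit 10) (.e (nat_lit 344117) (nat_lit 21) (.e (nat_lit 516098) (nat_lit 0) (.e (nat_lit 7533) (nat_lit 402) .nil))))))) (.g (nat_lit 0) .nil .nil))) 
(.lf (nat_lit 67376) (.g (nat_lit 1522) (.e (nat_lit 1633) (nat_lit 114) (.e (nat_lit 385074) (nat_lit 31) (.e (nat_lit 573484) (nat_lit 13) (.e (nat_lit 65628) (nat_lit 14) .nil)))) .nil)))) (.nd (nat_lit 4) (.nd (nat_lit 5) 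
(.lf (nat_lit 67336) (.g (nat_lit 2692) (.e (nat_lit 1633) (nat_lit 114) (.e (nat_lit 385074) (nat_lit 31) (.e (nat_lit 573484) (nat_lit 13) (.e (nat_lit 65610) (nat_lit 10) (.e (nat_lit 344117) (nat_lit 21) (.e (nat_lit 516096) (nat_lit 0) (.e (nat_lit 7535) (nat_lit 402) .nil))))))) (.g (nat_lit 5) .nil .nil))) 
(.lf (nat_lit 67368) (.g (nat_lit 2575) (.e (nat_lit 1633) (nat_lit 114) (.e (nat_lit 385074) (nat_lit 31) (.e (nat_lit 573484) (nat_lit 13) (.e (nat_lit 65617) (nat_lit 10) (.e (nat_lit 344130) (nat_lit 26) .nil))))) .nil))) (.nd (nat_lit 5) 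
(.lf (nat_lit 67352) (.g (nat_lit 3239) (.e (nat_lit 1633) (nat_lit 114) (.e (nat_lit 385074) (nat_lit 31) (.e (nat_lit 573484) (nat_lit 13) (.e (nat_lit 65610) (nat_lit 10) (.e (nat_lit 344117) (nat_lit 21) (.e (nat_lit 516116) (nat_lit 1) (.e (nat_lit 164411) (nat_lit 260) (.e (nat_lit 1077) (nat_lit 81) .nil)))))))) (.g (nat_lit 6) .nil .nil))) 
(.lf (nat_lit 67384) (.g (nat_lit 2601) (.e (nat_lit 1633) (nat_lit 114) (.e (nat_lit 385074) (nat_lit 31) (.e (nat_lit 573485) (nat_lit 13) (.e (nat_lit 65604) (nat_lit 9) (.e (nat_lit 336028) (nat_lit 3) (.e (nat_lit 106240) (nat_lit 17) (.e (nat_lit 7525) (nat_lit 402) .nil))))))) (.g (nat_lit 4) .nil .nil)))))) (.nd (nat_lit 3) (.nd (nat_lit 4) (.nd (nat_lit 5) 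
(.lf (nat_lit 67332) (.g (nat_lit 3202) (.e (nat_lit 1633) (nat_lit 114) (.e (nat_lit 385074) (nat_lit 31) (.e (nat_lit 573484) (nat_lit 13) (.e (nat_lit 65610) (nat_lit 10) (.e (nat_lit 344115) (nat_lit 20) (.e (nat_lit 507908) (nat_lit 0) (.e (nat_lit 5300) (nat_lit 298) .nil))))))) (.g (nat_lit 7) .nil .nil))) 
(.lf (nat_lit 67364) (.g (nat_lit 3079) (.e (nat_lit 1633) (nat_lit 114) (.e (nat_lit 385074) (nat_lit 31) (.e (nat_lit 573484) (nat_lit 13) (.e (nat_lit 65617) (nat_lit 10) (.e (nat_lit 344115) (nat_lit 20) (.e (nat_lit 507908) (nat_lit 0) (.e (nat_lit 5245) (nat_lit 298) .nil))))))) (.g (nat_lit 4) .nil .nil)))) (.nd (nat_lit 5) 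
(.lf (nat_lit 67348) (.g (nat_lit 3179) (.e (nat_lit 1633) (nat_lit 114) (.e (nat_lit 385074) (nat_lit 31) (.e (nat_lit 573484) (nat_lit 13) (.e (nat_lit 65610) (nat_lit 10) (.e (nat_lit 344117) (nat_lit 21) (.e (nat_lit 516102) (nat_lit 0) (.e (nat_lit 7936) (nat_lit 402) .nil))))))) (.g (nat_lit 6) .nil .nil))) 
(.lf (nat_lit 67380) (.g (nat_lit 3571) (.e (nat_lit 1633) (nat_lit 114) (.e (nat_lit 385074) (nat_lit 31) (.e (nat_lit 573485) (nat_lit 13) (.e (nat_lit 65604) (nat_lit 9) (.e (nat_lit 336013) (nat_lit 2) (.e (nat_lit 90165) (nat_lit 12) (.e (nat_lit 171776) (nat_lit 187) .nil))))))) (.g (nat_lit 6) .nil .nil))))) (.nd (nat_lit 4) (.nd (nat_lit 5) 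
(.lf (nat_lit 67340) (.g (nat_lit 4045) (.e (nat_lit 1633) (nat_lit 114) (.e (nat_lit 385074) (nat_lit 31) (.e (nat_lit 573484) (nat_lit 13) (.e (nat_lit 65610) (nat_lit 10) (.e (nat_lit 344117) (nat_lit 21) (.e (nat_lit 516097) (nat_lit 0) (.e (nat_lit 7936) (nat_lit 402) .nil))))))) (.g (nat_lit 6) .nil .nil))) 
(.lf (nat_lit 67372) (.g (nat_lit 3050) (.e (nat_lit 1633) (nat_lit 114) (.e (nat_lit 385074) (nat_lit 31) (.e (nat_lit 573484) (nat_lit 13) (.e (nat_lit 65617) (nat_lit 10) (.e (nat_lit 344133) (nat_lit 26) (.e (nat_lit 557089) (nat_lit 12) (.e (nat_lit 164015) (nat_lit 43) (.e (nat_lit 679952) (nat_lit 5) .nil)))))))) (.g (nat_lit 4) .nil .nil)))) (.nd (nat_lit 5) 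
(.lf (nat_lit 67356) (.g (nat_lit 3178) (.e (nat_lit 1633) (nat_lit 114) (.e (nat_lit 385074) (nat_lit 31) (.e (nat_lit 573484) (nat_lit 13) (.e (nat_lit 65610) (nat_lit 10) (.e (nat_lit 344117) (nat_lit 21) (.e (nat_lit 516116) (nat_lit 1) (.e (nat_lit 164413) (nat_lit 260) (.e (nat_lit 1077) (nat_lit 81) .nil)))))))) (.g (nat_lit 6) .nil .nil))) 
(.lf (nat_lit 67388) (.g (nat_lit 2195) (.e (nat_lit 1633) (nat_lit 114) (.e (nat_lit 385074) (nat_lit 31) (.e (nat_lit 573485) (nat_lit 13) (.e (nat_lit 65619) (nat_lit 10) (.e (nat_lit 344115) (nat_lit 20) (.e (nat_lit 507904) (nat_lit 0) (.e (nat_lit 5296) (nat_lit 298) .nil))))))) (.g (nat_lit 4) .nil .nil))))))) (.nd (nat_lit 2) (.nd (nat_lit 3) (.nd (nat_lit 4) (.nd (nat_lit 5) 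
(.lf (nat_lit 67330) (.g (nat_lit 2751) (.e (nat_lit 1633) (nat_lit 114) (.e (nat_lit 385074) (nat_lit 31) (.e (nat_lit 573484) (nat_lit 13) (.e (nat_lit 65610) (nat_lit 10) (.e (nat_lit 344115) (nat_lit 20) (.e (nat_lit 507908) (nat_lit 0) (.e (nat_lit 5291) (nat_lit 298) .nil))))))) (.g (nat_lit 5) .nil .nil))) 
(.lf (nat_lit 67362) (.g (nat_lit 2467) (.e (nat_lit 1633) (nat_lit 114) (.e (nat_lit 385074) (nat_lit 31) (.e (nat_lit 573484) (nat_lit 13) (.e (nat_lit 65617) (nat_lit 10) (.e (nat_lit 344115) (nat_lit 20) .nil))))) .nil))) (.nd (nat_lit 5) 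
(.lf (nat_lit 67346) (.g (nat_lit 3349) (.e (nat_lit 1633) (nat_lit 114) (.e (nat_lit 385074) (nat_lit 31) (.e (nat_lit 573484) (nat_lit 13) (.e (nat_lit 65610) (nat_lit 10) (.e (nat_lit 344117) (nat_lit 21) (.e (nat_lit 516099) (nat_lit 0) (.e (nat_lit 7936) (nat_lit 402) .nil))))))) (.g (nat_lit 6) .nil .nil))) 
(.lf (nat_lit 67378) (.g (nat_lit 1974) (.e (nat_lit 1633) (nat_lit 114) (.e (nat_lit 385074) (nat_lit 31) (.e (nat_lit 573484) (nat_lit 13) (.e (nat_lit 73472) (nat_lit 20) .nil)))) .nil)))) (.nd (nat_lit 4) (.nd (nat_lit 5) 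
(.lf (nat_lit 67338) (.g (nat_lit 3556) (.e (nat_lit 1633) (nat_lit 114) (.e (nat_lit 385074) (nat_lit 31) (.e (nat_lit 573484) (nat_lit 13) (.e (nat_lit 65610) (nat_lit 10) (.e (nat_lit 344117) (nat_lit 21) (.e (nat_lit 516097) (nat_lit 0) (.e (nat_lit 7493) (nat_lit 402) .nil))))))) (.g (nat_lit 5) .nil .nil))) 
(.lf (nat_lit 67370) (.g (nat_lit 3028) (.e (nat_lit 1633) (nat_lit 114) (.e (nat_lit 385074) (nat_lit 31) (.e (nat_lit 573484) (nat_lit 13) (.e (nat_lit 65617) (nat_lit 10) (.e (nat_lit 344130) (nat_lit 26) (.e (nat_lit 557089) (nat_lit 12) (.e (nat_lit 164015) (nat_lit 43) (.e (nat_lit 679952) (nat_lit 5) .nil)))))))) (.g (nat_lit 4) .nil .nil)))) (.nd (nat_lit 5) 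
(.lf (nat_lit 67354) (.g (nat_lit 3354) (.e (nat_lit 1633) (nat_lit 114) (.e (nat_lit 385074) (nat_lit 31) (.e (nat_lit 573484) (nat_lit 13) (.e (nat_lit 65610) (nat_lit 10) (.e (nat_lit 344117) (nat_lit 21) (.e (nat_lit 516116) (nat_lit 1) (.e (nat_lit 164412) (nat_lit 260) (.e (nat_lit 1074) (nat_lit 81) .nil)))))))) (.g (nat_lit 6) .nil .nil))) 
(.lf (nat_lit 67386) (.g (nat_lit 1703) (.e (nat_lit 1633) (nat_lit 114) (.e (nat_lit 385074) (nat_lit 31) (.e (nat_lit 573485) (nat_lit 13) (.e (nat_lit 65619) (nat_lit 10) (.e (nat_lit 344115) (nat_lit 20) .nil))))) .nil))))) (.nd (nat_lit 3) (.nd (nat_lit 4) (.nd (nat_lit 5) 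
(.lf (nat_lit 67334) (.g (nat_lit 2334) (.e (nat_lit 1633) (nat_lit 114) (.e (nat_lit 385074) (nat_lit 31) (.e (nat_lit 573484) (nat_lit 13) (.e (nat_lit 65610) (nat_lit 10) (.e (nat_lit 344115) (nat_lit 20) (.e (nat_lit 507914) (nat_lit 0) (.e (nat_lit 5293) (nat_lit 298) .nil))))))) (.g (nat_lit 5) .nil .nil))) 
(.lf (nat_lit 67366) (.g (nat_lit 3469) (.e (nat_lit 1633) (nat_lit 114) (.e (nat_lit 385074) (nat_lit 31) (.e (nat_lit 573484) (nat_lit 13) (.e (nat_lit 65617) (nat_lit 10) (.e (nat_lit 344115) (nat_lit 20) (.e (nat_lit 515840) (nat_lit 0) (.e (nat_lit 5293) (nat_lit 298) .nil))))))) (.g (nat_lit 5) .nil .nil)))) (.nd (nat_lit 5) 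
(.lf (nat_lit 67350) (.g (nat_lit 3486) (.e (nat_lit 1633) (nat_lit 114) (.e (nat_lit 385074) (nat_lit 31) (.e (nat_lit 573484) (nat_lit 13) (.e (nat_lit 65610) (nat_lit 10) (.e (nat_lit 344117) (nat_lit 21) (.e (nat_lit 516115) (nat_lit 1) (.e (nat_lit 164413) (nat_lit 260) (.e (nat_lit 1077) (nat_lit 81) .nil)))))))) (.g (nat_lit 6) .nil .nil))) 
(.lf (nat_lit 67382) (.g (nat_lit 2764) (.e (nat_lit 1633) (nat_lit 114) (.e (nat_lit 385074) (nat_lit 31) (.e (nat_lit 573485) (nat_lit 13) (.e (nat_lit 65604) (nat_lit 9) (.e (nat_lit 336028) (nat_lit 3) (.e (nat_lit 106240) (nat_lit 17) (.e (nat_lit 7492) (nat_lit 402) .nil))))))) (.g (nat_lit 4) .nil .nil))))) (.nd (nat_lit 4) (.nd (nat_lit 5) 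
(.lf (nat_lit 67342) (.g (nat_lit 3887) (.e (nat_lit 1633) (nat_lit 114) (.e (nat_lit 385074) (nat_lit 31) (.e (nat_lit 573484) (nat_lit 13) (.e (nat_lit 65610) (nat_lit 10) (.e (nat_lit 344117) (nat_lit 21) (.e (nat_lit 516098) (nat_lit 0) (.e (nat_lit 7491) (nat_lit 402) .nil))))))) (.g (nat_lit 7) .nil .nil))) 
(.lf (nat_lit 67374) (.g (nat_lit 2430) (.e (nat_lit 1633) (nat_lit 114) (.e (nat_lit 385074) (nat_lit 31) (.e (nat_lit 573484) (nat_lit 13) (.e (nat_lit 65619) (nat_lit 10) .nil)))) .nil))) (.nd (nat_lit 5) 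
(.lf (nat_lit 67358) (.g (nat_lit 3359) (.e (nat_lit 1633) (nat_lit 114) (.e (nat_lit 385074) (nat_lit 31) (.e (nat_lit 573484) (nat_lit 13) (.e (nat_lit 65610) (nat_lit 10) (.e (nat_lit 344117) (nat_lit 21) (.e (nat_lit 516116) (nat_lit 1) (.e (nat_lit 164415) (nat_lit 260) (.e (nat_lit 1074) (nat_lit 81) .nil)))))))) (.g (nat_lit 6) .nil .nil))) 
(.lf (nat_lit 67390) (.g (nat_lit 2525) (.e (nat_lit 1633) (nat_lit 114) (.e (nat_lit 385074) (nat_lit 31) (.e (nat_lit 573485) (nat_lit 13) (.e (nat_lit 65619) (nat_lit 10) (.e (nat_lit 344115) (nat_lit 20) (.e (nat_lit 507906) (nat_lit 0) (.e (nat_lit 5282) (nat_lit 298) .nil))))))) (.g (nat_lit 4) .nil .nil)))))))) 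
(.nd (nat_lit 1) (.nd (nat_lit 2) (.nd (nat_lit 3) (.nd (nat_lit 4) (.nd (nat_lit 5) 
(.lf (nat_lit 67329) (.g (nat_lit 2446) (.e (nat_lit 1633) (nat_lit 114) (.e (nat_lit 385074) (nat_lit 31) (.e (nat_lit 573484) (nat_lit 13) (.e (nat_lit 65610) (nat_lit 10) (.e (nat_lit 344115) (nat_lit 20) (.e (nat_lit 507908) (nat_lit 0) (.e (nat_lit 5288) (nat_lit 298) .nil))))))) (.g (nat_lit 4) .nil .nil))) 
(.lf (nat_lit 67361) (.g (nat_lit 3090) (.e (nat_lit 1633) (nat_lit 114) (.e (nat_lit 385074) (nat_lit 31) (.e (nat_lit 573484) (nat_lit 13) (.e (nat_lit 65617) (nat_lit 10) (.e (nat_lit 352000) (nat_lit 19) (.e (nat_lit 499780) (nat_lit 1) (.e (nat_lit 57887) (nat_lit 270) .nil))))))) (.g (nat_lit 4) .nil .nil)))) (.nd (nat_lit 5) 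
(.lf (nat_lit 67345) (.g (nat_lit 3417) (.e (nat_lit 1633) (nat_lit 114) (.e (nat_lit 385074) (nat_lit 31) (.e (nat_lit 573484) (nat_lit 13) (.e (nat_lit 65610) (nat_lit 10) (.e (nat_lit 344117) (nat_lit 21) (.e (nat_lit 516098) (nat_lit 0) (.e (nat_lit 7936) (nat_lit 402) .nil))))))) (.g (nat_lit 6) .nil .nil))) 
(.lf (nat_lit 67377) (.g (nat_lit 2286) (.e (nat_lit 1633) (nat_lit 114) (.e (nat_lit 385074) (nat_lit 31) (.e (nat_lit 573484) (nat_lit 13) (.e (nat_lit 65630) (nat_lit 14) .nil)))) .nil)))) (.nd (nat_lit 4) (.nd (nat_lit 5) 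
(.lf (nat_lit 67337) (.g (nat_lit 3386) (.e (nat_lit 1633) (nat_lit 114) (.e (nat_lit 385074) (nat_lit 31) (.e (nat_lit 573484) (nat_lit 13) (.e (nat_lit 65610) (nat_lit 10) (.e (nat_lit 344117) (nat_lit 21) (.e (nat_lit 516097) (nat_lit 0) (.e (nat_lit 7486) (nat_lit 402) .nil))))))) (.g (nat_lit 5) .nil .nil))) 
(.lf (nat_lit 67369) (.g (nat_lit 4264) (.e (nat_lit 1633) (nat_lit 114) (.e (nat_lit 385074) (nat_lit 31) (.e (nat_lit 573484) (nat_lit 13) (.e (nat_lit 65617) (nat_lit 10) (.e (nat_lit 344130) (nat_lit 26) (.e (nat_lit 557084) (nat_lit 10) (.e (nat_lit 16128) (nat_lit 250) .nil))))))) (.g (nat_lit 6) .nil .nil)))) (.nd (nat_lit 5) 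
(.lf (nat_lit 67353) (.g (nat_lit 2934) (.e (nat_lit 1633) (nat_lit 114) (.e (nat_lit 385074) (nat_lit 31) (.e (nat_lit 573484) (nat_lit 13) (.e (nat_lit 65610) (nat_lit 10) (.e (nat_lit 344117) (nat_lit 21) (.e (nat_lit 516116) (nat_lit 1) (.e (nat_lit 164411) (nat_lit 260) (.e (nat_lit 1078) (nat_lit 81) .nil)))))))) (.g (nat_lit 5) .nil .nil))) 
(.lf (nat_lit 67385) (.g (nat_lit 2784) (.e (nat_lit 1633) (nat_lit 114) (.e (nat_lit 385074) (nat_lit 31) (.e (nat_lit 573485) (nat_lit 13) (.e (nat_lit 65604) (nat_lit 9) (.e (nat_lit 336028) (nat_lit 3) (.e (nat_lit 106240) (nat_lit 17) (.e (nat_lit 7535) (nat_lit 402) .nil))))))) (.g (nat_lit 5) .nil .nil)))))) (.nd (nat_lit 3) (.nd (nat_lit 4) (.nd (nat_lit 5) 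
(.lf (nat_lit 67333) (.g (nat_lit 2421) (.e (nat_lit 1633) (nat_lit 114) (.e (nat_lit 385074) (nat_lit 31) (.e (nat_lit 573484) (nat_lit 13) (.e (nat_lit 65610) (nat_lit 10) (.e (nat_lit 344115) (nat_lit 20) (.e (nat_lit 507912) (nat_lit 0) (.e (nat_lit 5296) (nat_lit 298) .nil))))))) (.g (nat_lit 4) .nil .nil))) 
(.lf (nat_lit 67365) (.g (nat_lit 2509) (.e (nat_lit 1633) (nat_lit 114) (.e (nat_lit 385074) (nat_lit 31) (.e (nat_lit 573484) (nat_lit 13) (.e (nat_lit 65617) (nat_lit 10) (.e (nat_lit 344115) (nat_lit 20) (.e (nat_lit 507908) (nat_lit 0) (.e (nat_lit 5294) (nat_lit 298) .nil))))))) (.g (nat_lit 4) .nil .nil)))) (.nd (nat_lit 5) 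
(.lf (nat_lit 67349) (.g (nat_lit 4075) (.e (nat_lit 1633) (nat_lit 114) (.e (nat_lit 385074) (nat_lit 31) (.e (nat_lit 573484) (nat_lit 13) (.e (nat_lit 65610) (nat_lit 10) (.e (nat_lit 344117) (nat_lit 21) (.e (nat_lit 516106) (nat_lit 0) (.e (nat_lit 7936) (nat_lit 402) .nil))))))) (.g (nat_lit 6) .nil .nil))) 
(.lf (nat_lit 67381) (.g (nat_lit 3374) (.e (nat_lit 1633) (nat_lit 114) (.e (nat_lit 385074) (nat_lit 31) (.e (nat_lit 573485) (nat_lit 13) (.e (nat_lit 65604) (nat_lit 9) (.e (nat_lit 336028) (nat_lit 3) (.e (nat_lit 98325) (nat_lit 17) (.e (nat_lit 7936) (nat_lit 402) .nil))))))) (.g (nat_lit 6) .nil .nil))))) (.nd (nat_lit 4) (.nd (nat_lit 5) 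
(.lf (nat_lit 67341) (.g (nat_lit 3900) (.e (nat_lit 1633) (nat_lit 114) (.e (nat_lit 385074) (nat_lit 31) (.e (nat_lit 573484) (nat_lit 13) (.e (nat_lit 65610) (nat_lit 10) (.e (nat_lit 344117) (nat_lit 21) (.e (nat_lit 516098) (nat_lit 0) (.e (nat_lit 7486) (nat_lit 402) .nil))))))) (.g (nat_lit 7) .nil .nil))) 
(.lf (nat_lit 67373) (.g (nat_lit 3091) (.e (nat_lit 1633) (nat_lit 114) (.e (nat_lit 385074) (nat_lit 31) (.e (nat_lit 573484) (nat_lit 13) (.e (nat_lit 65617) (nat_lit 10) (.e (nat_lit 344133) (nat_lit 26) (.e (nat_lit 557091) (nat_lit 12) (.e (nat_lit 164015) (nat_lit 43) (.e (nat_lit 679952) (nat_lit 5) .nil)))))))) (.g (nat_lit 4) .nil .nil)))) (.nd (nat_lit 5) 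
(.lf (nat_lit 67357) (.g (nat_lit 3323) (.e (nat_lit 1633) (nat_lit 114) (.e (nat_lit 385074) (nat_lit 31) (.e (nat_lit 573484) (nat_lit 13) (.e (nat_lit 65610) (nat_lit 10) (.e (nat_lit 344117) (nat_lit 21) (.e (nat_lit 516116) (nat_lit 1) (.e (nat_lit 164414) (nat_lit 260) (.e (nat_lit 1074) (nat_lit 81) .nil)))))))) (.g (nat_lit 6) .nil .nil))) 
(.lf (nat_lit 67389) (.g (nat_lit 3215) (.e (nat_lit 1633) (nat_lit 114) (.e (nat_lit 385074) (nat_lit 31) (.e (nat_lit 573485) (nat_lit 13) (.e (nat_lit 65619) (nat_lit 10) (.e (nat_lit 344115) (nat_lit 20) (.e (nat_lit 507906) (nat_lit 0) (.e (nat_lit 5245) (nat_lit 298) .nil))))))) (.g (nat_lit 6) .nil .nil))))))) (.nd (nat_lit 2) (.nd (nat_lit 3) (.nd (nat_lit 4) (.nd (nat_lit 5) 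
(.lf (nat_lit 67331) (.g (nat_lit 2842) (.e (nat_lit 1633) (nat_lit 114) (.e (nat_lit 385074) (nat_lit 31) (.e (nat_lit 573484) (nat_lit 13) (.e (nat_lit 65610) (nat_lit 10) (.e (nat_lit 344115) (nat_lit 20) (.e (nat_lit 507908) (nat_lit 0) (.e (nat_lit 5294) (nat_lit 298) .nil))))))) (.g (nat_lit 7) .nil .nil))) 
(.lf (nat_lit 67363) (.g (nat_lit 2903) (.e (nat_lit 1633) (nat_lit 114) (.e (nat_lit 385074) (nat_lit 31) (.e (nat_lit 573484) (nat_lit 13) (.e (nat_lit 65617) (nat_lit 10) (.e (nat_lit 344115) (nat_lit 20) (.e (nat_lit 507907) (nat_lit 0) (.e (nat_lit 5245) (nat_lit 298) .nil))))))) (.g (nat_lit 4) .nil .nil)))) (.nd (nat_lit 5) 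
(.lf (nat_lit 67347) (.g (nat_lit 3791) (.e (nat_lit 1633) (nat_lit 114) (.e (nat_lit 385074) (nat_lit 31) (.e (nat_lit 573484) (nat_lit 13) (.e (nat_lit 65610) (nat_lit 10) (.e (nat_lit 344117) (nat_lit 21) (.e (nat_lit 516102) (nat_lit 0) (.e (nat_lit 7535) (nat_lit 402) .nil))))))) (.g (nat_lit 0) .nil .nil))) 
(.lf (nat_lit 67379) (.g (nat_lit 609) (.e (nat_lit 1633) (nat_lit 114) (.e (nat_lit 385074) (nat_lit 31) (.e (nat_lit 573485) (nat_lit 13) .nil))) .nil)))) (.nd (nat_lit 4) (.nd (nat_lit 5) 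
(.lf (nat_lit 67339) (.g (nat_lit 4194) (.e (nat_lit 1633) (nat_lit 114) (.e (nat_lit 385074) (nat_lit 31) (.e (nat_lit 573484) (nat_lit 13) (.e (nat_lit 65610) (nat_lit 10) (.e (nat_lit 344117) (nat_lit 21) (.e (nat_lit 516097) (nat_lit 0) (.e (nat_lit 7533) (nat_lit 402) .nil))))))) (.g (nat_lit 7) .nil .nil))) 
(.lf (nat_lit 67371) (.g (nat_lit 3082) (.e (nat_lit 1633) (nat_lit 114) (.e (nat_lit 385074) (nat_lit 31) (.e (nat_lit 573484) (nat_lit 13) (.e (nat_lit 65617) (nat_lit 10) (.e (nat_lit 344130) (nat_lit 26) (.e (nat_lit 557090) (nat_lit 12) (.e (nat_lit 164013) (nat_lit 43) (.e (nat_lit 679952) (nat_lit 5) .nil)))))))) (.g (nat_lit 4) .nil .nil)))) (.nd (nat_lit 5) 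
(.lf (nat_lit 67355) (.g (nat_lit 2737) (.e (nat_lit 1633) (nat_lit 114) (.e (nat_lit 385074) (nat_lit 31) (.e (nat_lit 573484) (nat_lit 13) (.e (nat_lit 65610) (nat_lit 10) (.e (nat_lit 344117) (nat_lit 21) (.e (nat_lit 516116) (nat_lit 1) (.e (nat_lit 164412) (nat_lit 260) (.e (nat_lit 1078) (nat_lit 81) .nil)))))))) (.g (nat_lit 5) .nil .nil))) 
(.lf (nat_lit 67387) (.g (nat_lit 2392) (.e (nat_lit 1633) (nat_lit 114) (.e (nat_lit 385074) (nat_lit 31) (.e (nat_lit 573485) (nat_lit 13) (.e (nat_lit 65619) (nat_lit 10) (.e (nat_lit 344115) (nat_lit 20) (.e (nat_lit 507904) (nat_lit 0) (.e (nat_lit 5284) (nat_lit 298) .nil))))))) (.g (nat_lit 4) .nil .nil)))))) (.nd (nat_lit 3) (.nd (nat_lit 4) (.nd (nat_lit 5) 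
(.lf (nat_lit 67335) (.g (nat_lit 2951) (.e (nat_lit 1633) (nat_lit 114) (.e (nat_lit 385074) (nat_lit 31) (.e (nat_lit 573484) (nat_lit 13) (.e (nat_lit 65610) (nat_lit 10) (.e (nat_lit 344117) (nat_lit 21) (.e (nat_lit 516096) (nat_lit 0) (.e (nat_lit 7533) (nat_lit 402) .nil))))))) (.g (nat_lit 0) .nil .nil))) 
(.lf (nat_lit 67367) (.g (nat_lit 2710) (.e (nat_lit 1633) (nat_lit 114) (.e (nat_lit 385074) (nat_lit 31) (.e (nat_lit 573484) (nat_lit 13) (.e (nat_lit 65617) (nat_lit 10) (.e (nat_lit 344117) (nat_lit 21) .nil))))) .nil))) (.nd (nat_lit 5) 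
(.lf (nat_lit 67351) (.g (nat_lit 3292) (.e (nat_lit 1633) (nat_lit 114) (.e (nat_lit 385074) (nat_lit 31) (.e (nat_lit 573484) (nat_lit 13) (.e (nat_lit 65610) (nat_lit 10) (.e (nat_lit 344117) (nat_lit 21) (.e (nat_lit 516116) (nat_lit 1) (.e (nat_lit 164409) (nat_lit 260) (.e (nat_lit 1074) (nat_lit 81) .nil)))))))) (.g (nat_lit 6) .nil .nil))) 
(.lf (nat_lit 67383) (.g (nat_lit 2599) (.e (nat_lit 1633) (nat_lit 114) (.e (nat_lit 385074) (nat_lit 31) (.e (nat_lit 573485) (nat_lit 13) (.e (nat_lit 65604) (nat_lit 9) (.e (nat_lit 336028) (nat_lit 3) (.e (nat_lit 106240) (nat_lit 17) (.e (nat_lit 7524) (nat_lit 402) .nil))))))) (.g (nat_lit 4) .nil .nil))))) (.nd (nat_lit 4) (.nd (nat_lit 5) 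
(.lf (nat_lit 67343) (.g (nat_lit 2898) (.e (nat_lit 1633) (nat_lit 114) (.e (nat_lit 385074) (nat_lit 31) (.e (nat_lit 573484) (nat_lit 13) (.e (nat_lit 65610) (nat_lit 10) (.e (nat_lit 344117) (nat_lit 21) (.e (nat_lit 516098) (nat_lit 0) (.e (nat_lit 7493) (nat_lit 402) .nil))))))) (.g (nat_lit 5) .nil .nil))) 
(.lf (nat_lit 67375) (.g (nat_lit 3202) (.e (nat_lit 1633) (nat_lit 114) (.e (nat_lit 385074) (nat_lit 31) (.e (nat_lit 573484) (nat_lit 13) (.e (nat_lit 65619) (nat_lit 10) (.e (nat_lit 344117) (nat_lit 21) .nil))))) .nil))) (.nd (nat_lit 5) 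
(.lf (nat_lit 67359) (.g (nat_lit 3193) (.e (nat_lit 1633) (nat_lit 114) (.e (nat_lit 385074) (nat_lit 31) (.e (nat_lit 573484) (nat_lit 13) (.e (nat_lit 65610) (nat_lit 10) (.e (nat_lit 344129) (nat_lit 26) (.e (nat_lit 557084) (nat_lit 10) (.e (nat_lit 16128) (nat_lit 250) .nil))))))) (.g (nat_lit 6) .nil .nil))) 
(.lf (nat_lit 67391) (.g (nat_lit 2249) (.e (nat_lit 1633) (nat_lit 114) (.e (nat_lit 385074) (nat_lit 31) (.e (nat_lit 573485) (nat_lit 13) (.e (nat_lit 65619) (nat_lit 10) (.e (nat_lit 344115) (nat_lit 20) (.e (nat_lit 507906) (nat_lit 0) (.e (nat_lit 5283) (nat_lit 298) .nil))))))) (.g (nat_lit 4) .nil .nil)))))))))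

noncomputable def tv929 : DT := (.nd (nat_lit 0) (.nd (nat_lit 1) (.nd (nat_lit 2) (.nd (nat_lit 3) (.nd (nat_lit 4) (.nd (nat_lit 5) 
(.lf (nat_lit 67392) (.g (nat_lit 2487) (.e (nat_lit 1633) (nat_lit 114) (.e (nat_lit 385074) (nat_lit 31) (.e (nat_lit 573485) (nat_lit 13) (.e (nat_lit 65619) (nat_lit 10) (.e (nat_lit 344115) (nat_lit 20) (.e (nat_lit 507906) (nat_lit 0) (.e (nat_lit 5285) (nat_lit 298) .nil))))))) (.g (nat_lit 4) .nil .nil))) 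
(.lf (nat_lit 67424) (.g (nat_lit 3649) (.e (nat_lit 1633) (nat_lit 114) (.e (nat_lit 385074) (nat_lit 31) (.e (nat_lit 573485) (nat_lit 13) (.e (nat_lit 65619) (nat_lit 10) (.e (nat_lit 344117) (nat_lit 21) (.e (nat_lit 516106) (nat_lit 0) (.e (nat_lit 7936) (nat_lit 402) .nil))))))) (.g (nat_lit 6) .nil .nil)))) (.nd (nat_lit 5) 
(.lf (nat_lit 67408) (.g (nat_lit 1820) (.e (nat_lit 1633) (nat_lit 114) (.e (nat_lit 385074) (nat_lit 31) (.e (nat_lit 573485) (nat_lit 13) (.e (nat_lit 65619) (nat_lit 10) (.e (nat_lit 344117) (nat_lit 21) .nil))))) .nil)) 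
(.lf (nat_lit 67440) (.g (nat_lit 4515) (.e (nat_lit 1633) (nat_lit 114) (.e (nat_lit 385074) (nat_lit 31) (.e (nat_lit 573491) (nat_lit 15) (.e (nat_lit 81956) (nat_lit 23) (.e (nat_lit 98320) (nat_lit 17) (.e (nat_lit 7491) (nat_lit 402) .nil)))))) (.g (nat_lit 4) .nil .nil))))) (.nd (nat_lit 4) (.nd (nat_lit 5) 
(.lf (nat_lit 67400) (.g (nat_lit 2217) (.e (nat_lit 1633) (nat_lit 114) (.e (nat_lit 385074) (nat_lit 31) (.e (nat_lit 573485) (nat_lit 13) (.e (nat_lit 65619) (nat_lit 10) (.e (nat_lit 344115) (nat_lit 20) (.e (nat_lit 507908) (nat_lit 0) (.e (nat_lit 5283) (nat_lit 298) .nil))))))) (.g (nat_lit 4) .nil .nil))) 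
(.lf (nat_lit 67432) (.g (nat_lit 1686) (.e (nat_lit 1633) (nat_lit 114) (.e (nat_lit 385074) (nat_lit 31) (.e (nat_lit 573491) (nat_lit 15) (.e (nat_lit 81951) (nat_lit 22) .nil)))) .nil))) (.nd (nat_lit 5) 
(.lf (nat_lit 67416) (.g (nat_lit 4372) (.e (nat_lit 1633) (nat_lit 114) (.e (nat_lit 385074) (nat_lit 31) (.e (nat_lit 573485) (nat_lit 13) (.e (nat_lit 65619) (nat_lit 10) (.e (nat_lit 344117) (nat_lit 21) (.e (nat_lit 516097) (nat_lit 0) (.e (nat_lit 7936) (nat_lit 402) .nil))))))) (.g (nat_lit 6) .nil .nil))) 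
(.lf (nat_lit 67448) (.g (nat_lit 2823) (.e (nat_lit 1633) (nat_lit 114) (.e (nat_lit 385074) (nat_lit 31) (.e (nat_lit 573493) (nat_lit 15) (.e (nat_lit 81953) (nat_lit 22) (.e (nat_lit 90133) (nat_lit 9) .nil))))) .nil))))) (.nd (nat_lit 3) (.nd (nat_lit 4) (.nd (nat_lit 5) 
(.lf (nat_lit 67396) (.g (nat_lit 2660) (.e (nat_lit 1633) (nat_lit 114) (.e (nat_lit 385074) (nat_lit 31) (.e (nat_lit 573485) (nat_lit 13) (.e (nat_lit 65619) (nat_lit 10) (.e (nat_lit 344115) (nat_lit 20) (.e (nat_lit 507907) (nat_lit 0) (.e (nat_lit 5291) (nat_lit 298) .nil))))))) (.g (nat_lit 4) .nil .nil))) 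
(.lf (nat_lit 67428) (.g (nat_lit 1000) (.e (nat_lit 1633) (nat_lit 114) (.e (nat_lit 385074) (nat_lit 31) (.e (nat_lit 573489) (nat_lit 14) .nil))) .nil))) (.nd (nat_lit 5) 
(.lf (nat_lit 67412) (.g (nat_lit 4134) (.e (nat_lit 1633) (nat_lit 114) (.e (nat_lit 385074) (nat_lit 31) (.e (nat_lit 573485) (nat_lit 13) (.e (nat_lit 65619) (nat_lit 10) (.e (nat_lit 344117) (nat_lit 21) (.e (nat_lit 516097) (nat_lit 0) (.e (nat_lit 7491) (nat_lit 402) .nil))))))) (.g (nat_lit 0) .nil .nil))) 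
(.lf (nat_lit 67444) (.g (nat_lit 5376) (.e (nat_lit 1633) (nat_lit 114) (.e (nat_lit 385074) (nat_lit 31) (.e (nat_lit 573492) (nat_lit 15) (.e (nat_lit 81956) (nat_lit 23) (.e (nat_lit 98320) (nat_lit 17) (.e (nat_lit 7491) (nat_lit 402) .nil)))))) (.g (nat_lit 5) .nil .nil))))) (.nd (nat_lit 4) (.nd (nat_lit 5) 
(.lf (nat_lit 67404) (.g (nat_lit 2916) (.e (nat_lit 1633) (nat_lit 114) (.e (nat_lit 385074) (nat_lit 31) (.e (nat_lit 573485) (nat_lit 13) (.e (nat_lit 65619) (nat_lit 10) (.e (nat_lit 344115) (nat_lit 20) (.e (nat_lit 507908) (nat_lit 0) (.e (nat_lit 5294) (nat_lit 298) .nil))))))) (.g (nat_lit 7) .nil .nil))) 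
(.lf (nat_lit 67436) (.g (nat_lit 2487) (.e (nat_lit 1633) (nat_lit 114) (.e (nat_lit 385074) (nat_lit 31) (.e (nat_lit 573491) (nat_lit 15) (.e (nat_lit 81954) (nat_lit 23) (.e (nat_lit 98321) (nat_lit 17) (.e (nat_lit 7936) (nat_lit 402) .nil)))))) (.g (nat_lit 5) .nil .nil)))) (.nd (nat_lit 5) 
(.lf (nat_lit 67420) (.g (nat_lit 3525) (.e (nat_lit 1633) (nat_lit 114) (.e (nat_lit 385074) (nat_lit 31) (.e (nat_lit 573485) (nat_lit 13) (.e (nat_lit 65619) (nat_lit 10) (.e (nat_lit 344117) (nat_lit 21) (.e (nat_lit 516098) (nat_lit 0) (.e (nat_lit 7533) (nat_lit 402) .nil))))))) (.g (nat_lit 7) .nil .nil))) 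
(.lf (nat_lit 67452) (.g (nat_lit 3735) (.e (nat_lit 1633) (nat_lit 114) (.e (nat_lit 385074) (nat_lit 31) (.e (nat_lit 573493) (nat_lit 15) (.e (nat_lit 81954) (nat_lit 23) (.e (nat_lit 98320) (nat_lit 17) .nil))))) .nil)))))) (.nd (nat_lit 2) (.nd (nat_lit 3) (.nd (nat_lit 4) (.nd (nat_lit 5) 
(.lf (nat_lit 67394) (.g (nat_lit 2840) (.e (nat_lit 1633) (nat_lit 114) (.e (nat_lit 385074) (nat_lit 31) (.e (nat_lit 573485) (nat_lit 13) (.e (nat_lit 65619) (nat_lit 10) (.e (nat_lit 344115) (nat_lit 20) (.e (nat_lit 507906) (nat_lit 0) (.e (nat_lit 5300) (nat_lit 298) .nil))))))) (.g (nat_lit 4) .nil .nil))) 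
(.lf (nat_lit 67426) (.g (nat_lit 990) (.e (nat_lit 1633) (nat_lit 114) (.e (nat_lit 385074) (nat_lit 31) (.e (nat_lit 573487) (nat_lit 14) .nil))) .nil))) (.nd (nat_lit 5) 
(.lf (nat_lit 67410) (.g (nat_lit 2378) (.e (nat_lit 1633) (nat_lit 114) (.e (nat_lit 385074) (nat_lit 31) (.e (nat_lit 573485) (nat_lit 13) (.e (nat_lit 65619) (nat_lit 10) (.e (nat_lit 344117) (nat_lit 21) (.e (nat_lit 516097) (nat_lit 0) (.e (nat_lit 3330) (nat_lit 204) (.e (nat_lit 589861) (nat_lit 13) .nil)))))))) (.g (nat_lit 4) .nil .nil))) 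
(.lf (nat_lit 67442) (.g (nat_lit 1069) (.e (nat_lit 1633) (nat_lit 114) (.e (nat_lit 385074) (nat_lit 31) (.e (nat_lit 573492) (nat_lit 15) .nil))) .nil)))) (.nd (nat_lit 4) (.nd (nat_lit 5) 
(.lf (nat_lit 67402) (.g (nat_lit 2563) (.e (nat_lit 1633) (nat_lit 114) (.e (nat_lit 385074) (nat_lit 31) (.e (nat_lit 573485) (nat_lit 13) (.e (nat_lit 65619) (nat_lit 10) (.e (nat_lit 344115) (nat_lit 20) (.e (nat_lit 507908) (nat_lit 0) (.e (nat_lit 5288) (nat_lit 298) .nil))))))) (.g (nat_lit 4) .nil .nil))) 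
(.lf (nat_lit 67434) (.g (nat_lit 3438) (.e (nat_lit 1633) (nat_lit 114) (.e (nat_lit 385074) (nat_lit 31) (.e (nat_lit 573491) (nat_lit 15) (.e (nat_lit 81954) (nat_lit 23) (.e (nat_lit 98320) (nat_lit 17) (.e (nat_lit 7491) (nat_lit 402) .nil)))))) (.g (nat_lit 5) .nil .nil)))) (.nd (nat_lit 5) 
(.lf (nat_lit 67418) (.g (nat_lit 3503) (.e (nat_lit 1633) (nat_lit 114) (.e (nat_lit 385074) (nat_lit 31) (.e (nat_lit 573485) (nat_lit 13) (.e (nat_lit 65619) (nat_lit 10) (.e (nat_lit 344117) (nat_lit 21) (.e (nat_lit 516098) (nat_lit 0) (.e (nat_lit 7491) (nat_lit 402) .nil))))))) (.g (nat_lit 0) .nil .nil))) 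
(.lf (nat_lit 67450) (.g (nat_lit 1658) (.e (nat_lit 1633) (nat_lit 114) (.e (nat_lit 385074) (nat_lit 31) (.e (nat_lit 573493) (nat_lit 15) (.e (nat_lit 81954) (nat_lit 23) .nil)))) .nil))))) (.nd (nat_lit 3) (.nd (nat_lit 4) (.nd (nat_lit 5) 
(.lf (nat_lit 67398) (.g (nat_lit 3015) (.e (nat_lit 1633) (nat_lit 114) (.e (nat_lit 385074) (nat_lit 31) (.e (nat_lit 573485) (nat_lit 13) (.e (nat_lit 65619) (nat_lit 10) (.e (nat_lit 344115) (nat_lit 20) (.e (nat_lit 507908) (nat_lit 0) (.e (nat_lit 5278) (nat_lit 298) .nil))))))) (.g (nat_lit 6) .nil .nil))) 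
(.lf (nat_lit 67430) (.g (nat_lit 3830) (.e (nat_lit 1633) (nat_lit 114) (.e (nat_lit 385074) (nat_lit 31) (.e (nat_lit 573490) (nat_lit 15) (.e (nat_lit 81956) (nat_lit 23) (.e (nat_lit 98320) (nat_lit 17) .nil))))) .nil))) (.nd (nat_lit 5) 
(.lf (nat_lit 67414) (.g (nat_lit 4679) (.e (nat_lit 1633) (nat_lit 114) (.e (nat_lit 385074) (nat_lit 31) (.e (nat_lit 573485) (nat_lit 13) (.e (nat_lit 65619) (nat_lit 10) (.e (nat_lit 344117) (nat_lit 21) (.e (nat_lit 516097) (nat_lit 0) (.e (nat_lit 7533) (nat_lit 402) .nil))))))) (.g (nat_lit 0) .nil .nil))) 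
(.lf (nat_lit 67446) (.g (nat_lit 416) (.e (nat_lit 1633) (nat_lit 114) (.e (nat_lit 385074) (nat_lit 31) (.e (nat_lit 573493) (nat_lit 15) .nil))) .nil)))) (.nd (nat_lit 4) (.nd (nat_lit 5) 
(.lf (nat_lit 67406) (.g (nat_lit 2652) (.e (nat_lit 1633) (nat_lit 114) (.e (nat_lit 385074) (nat_lit 31) (.e (nat_lit 573485) (nat_lit 13) (.e (nat_lit 65619) (nat_lit 10) (.e (nat_lit 344115) (nat_lit 20) (.e (nat_lit 507912) (nat_lit 0) (.e (nat_lit 5296) (nat_lit 298) .nil))))))) (.g (nat_lit 4) .nil .nil))) 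
(.lf (nat_lit 67438) (.g (nat_lit 1711) (.e (nat_lit 1633) (nat_lit 114) (.e (nat_lit 385074) (nat_lit 31) (.e (nat_lit 573491) (nat_lit 15) (.e (nat_lit 81956) (nat_lit 23) .nil)))) .nil))) (.nd (nat_lit 5) 
(.lf (nat_lit 67422) (.g (nat_lit 3198) (.e (nat_lit 1633) (nat_lit 114) (.e (nat_lit 385074) (nat_lit 31) (.e (nat_lit 573485) (nat_lit 13) (.e (nat_lit 65619) (nat_lit 10) (.e (nat_lit 344117) (nat_lit 21) (.e (nat_lit 516098) (nat_lit 0) (.e (nat_lit 7936) (nat_lit 402) .nil))))))) (.g (nat_lit 6) .nil .nil))) 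
(.lf (nat_lit 67454) (.g (nat_lit 3706) (.e (nat_lit 1633) (nat_lit 114) (.e (nat_lit 385074) (nat_lit 31) (.e (nat_lit 573493) (nat_lit 15) (.e (nat_lit 81954) (nat_lit 23) (.e (nat_lit 98321) (nat_lit 17) .nil))))) .nil))))))) (.nd (nat_lit 1) (.nd (nat_lit 2) (.nd (nat_lit 3) (.nd (nat_lit 4) (.nd (nat_lit 5) 
(.lf (nat_lit 67393) (.g (nat_lit 1886) (.e (nat_lit 1633) (nat_lit 114) (.e (nat_lit 385074) (nat_lit 31) (.e (nat_lit 573485) (nat_lit 13) (.e (nat_lit 65619) (nat_lit 10) (.e (nat_lit 344115) (nat_lit 20) (.e (nat_lit 507906) (nat_lit 0) (.e (nat_lit 5294) (nat_lit 298) .nil))))))) (.g (nat_lit 4) .nil .nil))) 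
(.lf (nat_lit 67425) (.g (nat_lit 3011) (.e (nat_lit 1633) (nat_lit 114) (.e (nat_lit 385074) (nat_lit 31) (.e (nat_lit 573485) (nat_lit 13) (.e (nat_lit 65619) (nat_lit 10) (.e (nat_lit 344129) (nat_lit 26) (.e (nat_lit 557084) (nat_lit 10) (.e (nat_lit 16128) (nat_lit 250) .nil))))))) (.g (nat_lit 5) .nil .nil)))) (.nd (nat_lit 5) 
(.lf (nat_lit 67409) (.g (nat_lit 2864) (.e (nat_lit 1633) (nat_lit 114) (.e (nat_lit 385074) (nat_lit 31) (.e (nat_lit 573485) (nat_lit 13) (.e (nat_lit 65619) (nat_lit 10) (.e (nat_lit 344117) (nat_lit 21) (.e (nat_lit 516097) (nat_lit 0) (.e (nat_lit 3325) (nat_lit 204) (.e (nat_lit 589861) (nat_lit 13) .nil)))))))) (.g (nat_lit 4) .nil .nil))) 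
(.lf (nat_lit 67441) (.g (nat_lit 5041) (.e (nat_lit 1633) (nat_lit 114) (.e (nat_lit 385074) (nat_lit 31) (.e (nat_lit 573491) (nat_lit 15) (.e (nat_lit 81956) (nat_lit 23) (.e (nat_lit 98320) (nat_lit 17) (.e (nat_lit 7536) (nat_lit 402) .nil)))))) (.g (nat_lit 5) .nil .nil))))) (.nd (nat_lit 4) (.nd (nat_lit 5) 
(.lf (nat_lit 67401) (.g (nat_lit 2826) (.e (nat_lit 1633) (nat_lit 114) (.e (nat_lit 385074) (nat_lit 31) (.e (nat_lit 573485) (nat_lit 13) (.e (nat_lit 65619) (nat_lit 10) (.e (nat_lit 344115) (nat_lit 20) (.e (nat_lit 507908) (nat_lit 0) (.e (nat_lit 5285) (nat_lit 298) .nil))))))) (.g (nat_lit 4) .nil .nil))) 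
(.lf (nat_lit 67433) (.g (nat_lit 1120) (.e (nat_lit 1633) (nat_lit 114) (.e (nat_lit 385074) (nat_lit 31) (.e (nat_lit 573491) (nat_lit 15) (.e (nat_lit 81954) (nat_lit 23) .nil)))) .nil))) (.nd (nat_lit 5) 
(.lf (nat_lit 67417) (.g (nat_lit 3925) (.e (nat_lit 1633) (nat_lit 114) (.e (nat_lit 385074) (nat_lit 31) (.e (nat_lit 573485) (nat_lit 13) (.e (nat_lit 65619) (nat_lit 10) (.e (nat_lit 344117) (nat_lit 21) (.e (nat_lit 516098) (nat_lit 0) (.e (nat_lit 7486) (nat_lit 402) .nil))))))) (.g (nat_lit 0) .nil .nil))) 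
(.lf (nat_lit 67449) (.g (nat_lit 6131) (.e (nat_lit 1633) (nat_lit 114) (.e (nat_lit 385074) (nat_lit 31) (.e (nat_lit 573493) (nat_lit 15) (.e (nat_lit 81953) (nat_lit 22) (.e (nat_lit 90201) (nat_lit 20) .nil))))) .nil))))) (.nd (nat_lit 3) (.nd (nat_lit 4) (.nd (nat_lit 5) 
(.lf (nat_lit 67397) (.g (nat_lit 2598) (.e (nat_lit 1633) (nat_lit 114) (.e (nat_lit 385074) (nat_lit 31) (.e (nat_lit 573485) (nat_lit 13) (.e (nat_lit 65619) (nat_lit 10) (.e (nat_lit 344115) (nat_lit 20) (.e (nat_lit 507907) (nat_lit 0) (.e (nat_lit 5294) (nat_lit 298) .nil))))))) (.g (nat_lit 6) .nil .nil))) 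
(.lf (nat_lit 67429) (.g (nat_lit 994) (.e (nat_lit 1633) (nat_lit 114) (.e (nat_lit 385074) (nat_lit 31) (.e (nat_lit 573490) (nat_lit 15) .nil))) .nil))) (.nd (nat_lit 5) 
(.lf (nat_lit 67413) (.g (nat_lit 4406) (.e (nat_lit 1633) (nat_lit 114) (.e (nat_lit 385074) (nat_lit 31) (.e (nat_lit 573485) (nat_lit 13) (.e (nat_lit 65619) (nat_lit 10) (.e (nat_lit 344117) (nat_lit 21) (.e (nat_lit 516097) (nat_lit 0) (.e (nat_lit 7493) (nat_lit 402) .nil))))))) (.g (nat_lit 6) .nil .nil))) 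
(.lf (nat_lit 67445) (.g (nat_lit 6073) (.e (nat_lit 1633) (nat_lit 114) (.e (nat_lit 385074) (nat_lit 31) (.e (nat_lit 573492) (nat_lit 15) (.e (nat_lit 81956) (nat_lit 23) (.e (nat_lit 98320) (nat_lit 17) (.e (nat_lit 7536) (nat_lit 402) .nil)))))) (.g (nat_lit 6) .nil .nil))))) (.nd (nat_lit 4) (.nd (nat_lit 5) 
(.lf (nat_lit 67405) (.g (nat_lit 3319) (.e (nat_lit 1633) (nat_lit 114) (.e (nat_lit 385074) (nat_lit 31) (.e (nat_lit 573485) (nat_lit 13) (.e (nat_lit 65619) (nat_lit 10) (.e (nat_lit 344115) (nat_lit 20) (.e (nat_lit 507908) (nat_lit 0) (.e (nat_lit 5300) (nat_lit 298) .nil))))))) (.g (nat_lit 7) .nil .nil))) 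
(.lf (nat_lit 67437) (.g (nat_lit 4138) (.e (nat_lit 1633) (nat_lit 114) (.e (nat_lit 385074) (nat_lit 31) (.e (nat_lit 573491) (nat_lit 15) (.e (nat_lit 81954) (nat_lit 23) (.e (nat_lit 98323) (nat_lit 17) (.e (nat_lit 7535) (nat_lit 402) .nil)))))) (.g (nat_lit 0) .nil .nil)))) (.nd (nat_lit 5) 
(.lf (nat_lit 67421) (.g (nat_lit 4072) (.e (nat_lit 1633) (nat_lit 114) (.e (nat_lit 385074) (nat_lit 31) (.e (nat_lit 573485) (nat_lit 13) (.e (nat_lit 65619) (nat_lit 10) (.e (nat_lit 344117) (nat_lit 21) (.e (nat_lit 516098) (nat_lit 0) (.e (nat_lit 7536) (nat_lit 402) .nil))))))) (.g (nat_lit 0) .nil .nil))) 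
(.lf (nat_lit 67453) (.g (nat_lit 4156) (.e (nat_lit 1633) (nat_lit 114) (.e (nat_lit 385074) (nat_lit 31) (.e (nat_lit 573493) (nat_lit 15) (.e (nat_lit 81954) (nat_lit 23) (.e (nat_lit 98320) (nat_lit 17) (.e (nat_lit 7536) (nat_lit 402) .nil)))))) (.g (nat_lit 4) .nil .nil))))))) (.nd (nat_lit 2) (.nd (nat_lit 3) (.nd (nat_lit 4) (.nd (nat_lit 5) 
(.lf (nat_lit 67395) (.g (nat_lit 3326) (.e (nat_lit 1633) (nat_lit 114) (.e (nat_lit 385074) (nat_lit 31) (.e (nat_lit 573485) (nat_lit 13) (.e (nat_lit 65619) (nat_lit 10) (.e (nat_lit 344115) (nat_lit 20) (.e (nat_lit 507907) (nat_lit 0) (.e (nat_lit 5245) (nat_lit 298) .nil))))))) (.g (nat_lit 7) .nil .nil))) 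
(.lf (nat_lit 67427) (.g (nat_lit 1962) (.e (nat_lit 1633) (nat_lit 114) (.e (nat_lit 385074) (nat_lit 31) (.e (nat_lit 573487) (nat_lit 14) (.e (nat_lit 81664) (nat_lit 35) .nil)))) .nil))) (.nd (nat_lit 5) 
(.lf (nat_lit 67411) (.g (nat_lit 4291) (.e (nat_lit 1633) (nat_lit 114) (.e (nat_lit 385074) (nat_lit 31) (.e (nat_lit 573485) (nat_lit 13) (.e (nat_lit 65619) (nat_lit 10) (.e (nat_lit 344117) (nat_lit 21) (.e (nat_lit 516097) (nat_lit 0) (.e (nat_lit 7486) (nat_lit 402) .nil))))))) (.g (nat_lit 6) .nil .nil))) 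
(.lf (nat_lit 67443) (.g (nat_lit 4328) (.e (nat_lit 1633) (nat_lit 114) (.e (nat_lit 385074) (nat_lit 31) (.e (nat_lit 573492) (nat_lit 15) (.e (nat_lit 81956) (nat_lit 23) (.e (nat_lit 98320) (nat_lit 17) .nil))))) .nil)))) (.nd (nat_lit 4) (.nd (nat_lit 5) 
(.lf (nat_lit 67403) (.g (nat_lit 2879) (.e (nat_lit 1633) (nat_lit 114) (.e (nat_lit 385074) (nat_lit 31) (.e (nat_lit 573485) (nat_lit 13) (.e (nat_lit 65619) (nat_lit 10) (.e (nat_lit 344115) (nat_lit 20) (.e (nat_lit 507908) (nat_lit 0) (.e (nat_lit 5291) (nat_lit 298) .nil))))))) (.g (nat_lit 5) .nil .nil))) 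
(.lf (nat_lit 67435) (.g (nat_lit 3917) (.e (nat_lit 1633) (nat_lit 114) (.e (nat_lit 385074) (nat_lit 31) (.e (nat_lit 573491) (nat_lit 15) (.e (nat_lit 81954) (nat_lit 23) (.e (nat_lit 98320) (nat_lit 17) (.e (nat_lit 7536) (nat_lit 402) .nil)))))) (.g (nat_lit 6) .nil .nil)))) (.nd (nat_lit 5) 
(.lf (nat_lit 67419) (.g (nat_lit 3026) (.e (nat_lit 1633) (nat_lit 114) (.e (nat_lit 385074) (nat_lit 31) (.e (nat_lit 573485) (nat_lit 13) (.e (nat_lit 65619) (nat_lit 10) (.e (nat_lit 344117) (nat_lit 21) (.e (nat_lit 516098) (nat_lit 0) (.e (nat_lit 7493) (nat_lit 402) .nil))))))) (.g (nat_lit 5) .nil .nil))) 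
(.lf (nat_lit 67451) (.g (nat_lit 3733) (.e (nat_lit 1633) (nat_lit 114) (.e (nat_lit 385074) (nat_lit 31) (.e (nat_lit 573493) (nat_lit 15) (.e (nat_lit 81954) (nat_lit 23) (.e (nat_lit 98319) (nat_lit 17) .nil))))) .nil))))) (.nd (nat_lit 3) (.nd (nat_lit 4) (.nd (nat_lit 5) 
(.lf (nat_lit 67399) (.g (nat_lit 2965) (.e (nat_lit 1633) (nat_lit 114) (.e (nat_lit 385074) (nat_lit 31) (.e (nat_lit 573485) (nat_lit 13) (.e (nat_lit 65619) (nat_lit 10) (.e (nat_lit 344115) (nat_lit 20) (.e (nat_lit 507908) (nat_lit 0) (.e (nat_lit 5281) (nat_lit 298) .nil))))))) (.g (nat_lit 5) .nil .nil))) 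
(.lf (nat_lit 67431) (.g (nat_lit 4352) (.e (nat_lit 1633) (nat_lit 114) (.e (nat_lit 385074) (nat_lit 31) (.e (nat_lit 573490) (nat_lit 15) (.e (nat_lit 81956) (nat_lit 23) (.e (nat_lit 98320) (nat_lit 17) (.e (nat_lit 7536) (nat_lit 402) .nil)))))) (.g (nat_lit 4) .nil .nil)))) (.nd (nat_lit 5) 
(.lf (nat_lit 67415) (.g (nat_lit 4592) (.e (nat_lit 1633) (nat_lit 114) (.e (nat_lit 385074) (nat_lit 31) (.e (nat_lit 573485) (nat_lit 13) (.e (nat_lit 65619) (nat_lit 10) (.e (nat_lit 344117) (nat_lit 21) (.e (nat_lit 516097) (nat_lit 0) (.e (nat_lit 7536) (nat_lit 402) .nil))))))) (.g (nat_lit 0) .nil .nil))) 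
(.lf (nat_lit 67447) (.g (nat_lit 1309) (.e (nat_lit 1633) (nat_lit 114) (.e (nat_lit 385074) (nat_lit 31) (.e (nat_lit 573493) (nat_lit 15) (.e (nat_lit 81953) (nat_lit 22) .nil)))) .nil)))) (.nd (nat_lit 4) (.nd (nat_lit 5) 
(.lf (nat_lit 67407) (.g (nat_lit 2653) (.e (nat_lit 1633) (nat_lit 114) (.e (nat_lit 385074) (nat_lit 31) (.e (nat_lit 573485) (nat_lit 13) (.e (nat_lit 65619) (nat_lit 10) (.e (nat_lit 344115) (nat_lit 20) (.e (nat_lit 507914) (nat_lit 0) (.e (nat_lit 5293) (nat_lit 298) .nil))))))) (.g (nat_lit 5) .nil .nil))) 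
(.lf (nat_lit 67439) (.g (nat_lit 3554) (.e (nat_lit 1633) (nat_lit 114) (.e (nat_lit 385074) (nat_lit 31) (.e (nat_lit 573491) (nat_lit 15) (.e (nat_lit 81956) (nat_lit 23) (.e (nat_lit 98320) (nat_lit 17) .nil))))) .nil))) (.nd (nat_lit 5) 
(.lf (nat_lit 67423) (.g (nat_lit 3486) (.e (nat_lit 1633) (nat_lit 114) (.e (nat_lit 385074) (nat_lit 31) (.e (nat_lit 573485) (nat_lit 13) (.e (nat_lit 65619) (nat_lit 10) (.e (nat_lit 344117) (nat_lit 21) (.e (nat_lit 516102) (nat_lit 0) (.e (nat_lit 7535) (nat_lit 402) .nil))))))) (.g (nat_lit 5) .nil .nil))) 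
(.lf (nat_lit 67455) (.g (nat_lit 3744) (.e (nat_lit 1633) (nat_lit 114) (.e (nat_lit 385074) (nat_lit 31) (.e (nat_lit 573493) (nat_lit 15) (.e (nat_lit 81954) (nat_lit 23) (.e (nat_lit 98323) (nat_lit 17) (.e (nat_lit 7535) (nat_lit 402) .nil)))))) (.g (nat_lit 4) .nil .nil)))))))))

noncomputable def tv930 : DT := (.nd (nat_lit 0) (.nd (nat_lit 1) (.nd (nat_lit 2) (.nd (nat_lit 3) (.nd (nat_lit 4) (.nd (nat_lit 5) 
(.lf (nat_lit 67456) (.g (nat_lit 2597) (.e (nat_lit 1633) (nat_lit 114) (.e (nat_lit 385074) (nat_lit 31) (.e (nat_lit 573493) (nat_lit 15) (.e (nat_lit 81956) (nat_lit 23) (.e (nat_lit 98319) (nat_lit 17) .nil))))) .nil)) 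
(.lf (nat_lit 67488) (.g (nat_lit 2079) (.e (nat_lit 1633) (nat_lit 114) (.e (nat_lit 385094) (nat_lit 49) (.e (nat_lit 778317) (nat_lit 3) (.e (nat_lit 57477) (nat_lit 28) (.e (nat_lit 557108) (nat_lit 15) (.e (nat_lit 188426) (nat_lit 20) (.e (nat_lit 3195) (nat_lit 193) (.e (nat_lit 500013) (nat_lit 14) .nil)))))))) (.g (nat_lit 4) .nil .nil)))) (.nd (nat_lit 5) 
(.lf (nat_lit 67472) (.g (nat_lit 519) (.e (nat_lit 1633) (nat_lit 114) (.e (nat_lit 385093) (nat_lit 49) (.e (nat_lit 778246) (nat_lit 0) .nil))) .nil)) 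
(.lf (nat_lit 67504) (.g (nat_lit 1847) (.e (nat_lit 1633) (nat_lit 114) (.e (nat_lit 385094) (nat_lit 49) (.e (nat_lit 778324) (nat_lit 5) (.e (nat_lit 73781) (nat_lit 32) (.e (nat_lit 3066) (nat_lit 190) (.e (nat_lit 483072) (nat_lit 8) .nil)))))) (.g (nat_lit 5) .nil .nil))))) (.nd (nat_lit 4) (.nd (nat_lit 5) 
(.lf (nat_lit 67464) (.g (nat_lit 2326) (.e (nat_lit 1633) (nat_lit 114) (.e (nat_lit 385074) (nat_lit 31) (.e (nat_lit 573493) (nat_lit 15) (.e (nat_lit 81956) (nat_lit 23) (.e (nat_lit 98323) (nat_lit 17) .nil))))) .nil)) 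
(.lf (nat_lit 67496) (.g (nat_lit 2182) (.e (nat_lit 1633) (nat_lit 114) (.e (nat_lit 385094) (nat_lit 49) (.e (nat_lit 778320) (nat_lit 4) (.e (nat_lit 65624) (nat_lit 12) (.e (nat_lit 385115) (nat_lit 53) .nil))))) .nil))) (.nd (nat_lit 5) 
(.lf (nat_lit 67480) (.g (nat_lit 1555) (.e (nat_lit 1633) (nat_lit 114) (.e (nat_lit 385094) (nat_lit 49) (.e (nat_lit 778291) (nat_lit 0) (.e (nat_lit 1638) (nat_lit 114) (.e (nat_lit 392960) (nat_lit 5) .nil))))) .nil)) 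
(.lf (nat_lit 67512) (.g (nat_lit 708) (.e (nat_lit 1633) (nat_lit 114) (.e (nat_lit 385094) (nat_lit 49) (.e (nat_lit 778510) (nat_lit 14) .nil))) .nil))))) (.nd (nat_lit 3) (.nd (nat_lit 4) (.nd (nat_lit 5) 
(.lf (nat_lit 67460) (.g (nat_lit 5219) (.e (nat_lit 1633) (nat_lit 114) (.e (nat_lit 385074) (nat_lit 31) (.e (nat_lit 573493) (nat_lit 15) (.e (nat_lit 81956) (nat_lit 23) (.e (nat_lit 98320) (nat_lit 17) (.e (nat_lit 7491) (nat_lit 402) .nil)))))) (.g (nat_lit 6) .nil .nil))) 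
(.lf (nat_lit 67492) (.g (nat_lit 3345) (.e (nat_lit 1633) (nat_lit 114) (.e (nat_lit 385094) (nat_lit 49) (.e (nat_lit 778317) (nat_lit 3) (.e (nat_lit 57480) (nat_lit 28) (.e (nat_lit 557109) (nat_lit 15) (.e (nat_lit 188433) (nat_lit 20) (.e (nat_lit 3114) (nat_lit 193) (.e (nat_lit 499949) (nat_lit 14) .nil)))))))) (.g (nat_lit 5) .nil .nil)))) (.nd (nat_lit 5) 
(.lf (nat_lit 67476) (.g (nat_lit 2650) (.e (nat_lit 1633) (nat_lit 114) (.e (nat_lit 385093) (nat_lit 49) (.e (nat_lit 778317) (nat_lit 3) (.e (nat_lit 57480) (nat_lit 28) (.e (nat_lit 557109) (nat_lit 15) (.e (nat_lit 188426) (nat_lit 20) (.e (nat_lit 3195) (nat_lit 193) (.e (nat_lit 500013) (nat_lit 14) .nil)))))))) (.g (nat_lit 4) .nil .nil))) 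
(.lf (nat_lit 67508) (.g (nat_lit 2265) (.e (nat_lit 1633) (nat_lit 114) (.e (nat_lit 385094) (nat_lit 49) (.e (nat_lit 778326) (nat_lit 6) (.e (nat_lit 81957) (nat_lit 24) (.e (nat_lit 123195) (nat_lit 266) (.e (nat_lit 57346) (nat_lit 0) (.e (nat_lit 6437) (nat_lit 343) .nil))))))) (.g (nat_lit 4) .nil .nil))))) (.nd (nat_lit 4) (.nd (nat_lit 5) 
(.lf (nat_lit 67468) (.g (nat_lit 3374) (.e (nat_lit 1633) (nat_lit 114) (.e (nat_lit 385074) (nat_lit 31) (.e (nat_lit 573493) (nat_lit 15) (.e (nat_lit 81956) (nat_lit 23) (.e (nat_lit 98334) (nat_lit 18) (.e (nat_lit 164412) (nat_lit 260) (.e (nat_lit 1077) (nat_lit 81) .nil))))))) (.g (nat_lit 4) .nil .nil))) 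
(.lf (nat_lit 67500) (.g (nat_lit 2470) (.e (nat_lit 1633) (nat_lit 114) (.e (nat_lit 385094) (nat_lit 49) (.e (nat_lit 778323) (nat_lit 5) (.e (nat_lit 73781) (nat_lit 32) (.e (nat_lit 3067) (nat_lit 190) (.e (nat_lit 483072) (nat_lit 8) .nil)))))) (.g (nat_lit 5) .nil .nil)))) (.nd (nat_lit 5) 
(.lf (nat_lit 67484) (.g (nat_lit 2479) (.e (nat_lit 1633) (nat_lit 114) (.e (nat_lit 385094) (nat_lit 49) (.e (nat_lit 778317) (nat_lit 3) (.e (nat_lit 57476) (nat_lit 28) (.e (nat_lit 557108) (nat_lit 15) (.e (nat_lit 188426) (nat_lit 20) (.e (nat_lit 3195) (nat_lit 193) (.e (nat_lit 500013) (nat_lit 14) .nil)))))))) (.g (nat_lit 4) .nil .nil))) 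
(.lf (nat_lit 67516) (.g (nat_lit 579) (.e (nat_lit 1633) (nat_lit 114) (.e (nat_lit 385106) (nat_lit 50) (.e (nat_lit 786455) (nat_lit 17) .nil))) .nil)))))) (.nd (nat_lit 2) (.nd (nat_lit 3) (.nd (nat_lit 4) (.nd (nat_lit 5) 
(.lf (nat_lit 67458) (.g (nat_lit 2953) (.e (nat_lit 1633) (nat_lit 114) (.e (nat_lit 385074) (nat_lit 31) (.e (nat_lit 573493) (nat_lit 15) (.e (nat_lit 81956) (nat_lit 23) (.e (nat_lit 98319) (nat_lit 17) (.e (nat_lit 7533) (nat_lit 402) .nil)))))) (.g (nat_lit 4) .nil .nil))) 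
(.lf (nat_lit 67490) (.g (nat_lit 3099) (.e (nat_lit 1633) (nat_lit 114) (.e (nat_lit 385094) (nat_lit 49) (.e (nat_lit 778317) (nat_lit 3) (.e (nat_lit 57477) (nat_lit 28) (.e (nat_lit 557108) (nat_lit 15) (.e (nat_lit 188449) (nat_lit 22) (.e (nat_lit 204544) (nat_lit 9) .nil))))))) (.g (nat_lit 6) .nil .nil)))) (.nd (nat_lit 5) 
(.lf (nat_lit 67474) (.g (nat_lit 2718) (.e (nat_lit 1633) (nat_lit 114) (.e (nat_lit 385093) (nat_lit 49) (.e (nat_lit 778317) (nat_lit 3) (.e (nat_lit 57476) (nat_lit 28) (.e (nat_lit 557108) (nat_lit 15) (.e (nat_lit 188449) (nat_lit 22) (.e (nat_lit 204544) (nat_lit 9) .nil))))))) (.g (nat_lit 4) .nil .nil))) 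
(.lf (nat_lit 67506) (.g (nat_lit 333) (.e (nat_lit 1633) (nat_lit 114) (.e (nat_lit 385094) (nat_lit 49) (.e (nat_lit 778326) (nat_lit 6) .nil))) .nil)))) (.nd (nat_lit 4) (.nd (nat_lit 5) 
(.lf (nat_lit 67466) (.g (nat_lit 3218) (.e (nat_lit 1633) (nat_lit 114) (.e (nat_lit 385074) (nat_lit 31) (.e (nat_lit 573493) (nat_lit 15) (.e (nat_lit 81956) (nat_lit 23) (.e (nat_lit 106240) (nat_lit 17) .nil))))) .nil)) 
(.lf (nat_lit 67498) (.g (nat_lit 4325) (.e (nat_lit 1633) (nat_lit 114) (.e (nat_lit 385094) (nat_lit 49) (.e (nat_lit 778320) (nat_lit 4) (.e (nat_lit 65630) (nat_lit 14) (.e (nat_lit 401454) (nat_lit 12) (.e (nat_lit 475188) (nat_lit 33) (.e (nat_lit 589861) (nat_lit 13) .nil))))))) (.g (nat_lit 5) .nil .nil)))) (.nd (nat_lit 5) 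
(.lf (nat_lit 67482) (.g (nat_lit 2620) (.e (nat_lit 1633) (nat_lit 114) (.e (nat_lit 385094) (nat_lit 49) (.e (nat_lit 778291) (nat_lit 0) (.e (nat_lit 1638) (nat_lit 114) (.e (nat_lit 392960) (nat_lit 5) (.e (nat_lit 73753) (nat_lit 8) (.e (nat_lit 557059) (nat_lit 0) .nil))))))) (.g (nat_lit 4) .nil .nil))) 
(.lf (nat_lit 67514) (.g (nat_lit 453) (.e (nat_lit 1633) (nat_lit 114) (.e (nat_lit 385094) (nat_lit 49) (.e (nat_lit 778585) (nat_lit 17) .nil))) .nil))))) (.nd (nat_lit 3) (.nd (nat_lit 4) (.nd (nat_lit 5) 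
(.lf (nat_lit 67462) (.g (nat_lit 3907) (.e (nat_lit 1633) (nat_lit 114) (.e (nat_lit 385074) (nat_lit 31) (.e (nat_lit 573493) (nat_lit 15) (.e (nat_lit 81956) (nat_lit 23) (.e (nat_lit 98320) (nat_lit 17) (.e (nat_lit 7533) (nat_lit 402) .nil)))))) (.g (nat_lit 4) .nil .nil))) 
(.lf (nat_lit 67494) (.g (nat_lit 2059) (.e (nat_lit 1633) (nat_lit 114) (.e (nat_lit 385094) (nat_lit 49) (.e (nat_lit 778318) (nat_lit 3) (.e (nat_lit 57454) (nat_lit 21) .nil)))) .nil))) (.nd (nat_lit 5) 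
(.lf (nat_lit 67478) (.g (nat_lit 2517) (.e (nat_lit 1633) (nat_lit 114) (.e (nat_lit 385093) (nat_lit 49) (.e (nat_lit 778320) (nat_lit 4) (.e (nat_lit 65630) (nat_lit 14) (.e (nat_lit 401454) (nat_lit 12) (.e (nat_lit 483072) (nat_lit 8) .nil)))))) (.g (nat_lit 4) .nil .nil))) 
(.lf (nat_lit 67510) (.g (nat_lit 1979) (.e (nat_lit 1633) (nat_lit 114) (.e (nat_lit 385094) (nat_lit 49) (.e (nat_lit 778327) (nat_lit 6) (.e (nat_lit 81922) (nat_lit 0) (.e (nat_lit 3806) (nat_lit 231) (.e (nat_lit 811018) (nat_lit 0) (.e (nat_lit 5277) (nat_lit 298) .nil))))))) (.g (nat_lit 5) .nil .nil))))) (.nd (nat_lit 4) (.nd (nat_lit 5) 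
(.lf (nat_lit 67470) (.g (nat_lit 3410) (.e (nat_lit 1633) (nat_lit 114) (.e (nat_lit 385074) (nat_lit 31) (.e (nat_lit 573493) (nat_lit 15) (.e (nat_lit 81956) (nat_lit 23) (.e (nat_lit 98334) (nat_lit 18) (.e (nat_lit 164413) (nat_lit 260) (.e (nat_lit 1077) (nat_lit 81) .nil))))))) (.g (nat_lit 4) .nil .nil))) 
(.lf (nat_lit 67502) (.g (nat_lit 2442) (.e (nat_lit 1633) (nat_lit 114) (.e (nat_lit 385094) (nat_lit 49) (.e (nat_lit 778323) (nat_lit 5) (.e (nat_lit 73782) (nat_lit 32) (.e (nat_lit 3067) (nat_lit 190) (.e (nat_lit 483072) (nat_lit 8) .nil)))))) (.g (nat_lit 5) .nil .nil)))) (.nd (nat_lit 5) 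
(.lf (nat_lit 67486) (.g (nat_lit 3497) (.e (nat_lit 1633) (nat_lit 114) (.e (nat_lit 385094) (nat_lit 49) (.e (nat_lit 778317) (nat_lit 3) (.e (nat_lit 57476) (nat_lit 28) (.e (nat_lit 557108) (nat_lit 15) (.e (nat_lit 188449) (nat_lit 22) (.e (nat_lit 204544) (nat_lit 9) .nil))))))) (.g (nat_lit 6) .nil .nil))) 
(.lf (nat_lit 67518) (.g (nat_lit 2340) (.e (nat_lit 1633) (nat_lit 114) (.e (nat_lit 385106) (nat_lit 50) (.e (nat_lit 786467) (nat_lit 27) (.e (nat_lit 336205) (nat_lit 12) (.e (nat_lit 385115) (nat_lit 53) (.e (nat_lit 811018) (nat_lit 0) (.e (nat_lit 5293) (nat_lit 298) .nil))))))) (.g (nat_lit 5) .nil .nil)))))))) 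
(.nd (nat_lit 1) (.nd (nat_lit 2) (.nd (nat_lit 3) (.nd (nat_lit 4) (.nd (nat_lit 5) 
(.lf (nat_lit 67457) (.g (nat_lit 3389) (.e (nat_lit 1633) (nat_lit 114) (.e (nat_lit 385074) (nat_lit 31) (.e (nat_lit 573493) (nat_lit 15) (.e (nat_lit 81956) (nat_lit 23) (.e (nat_lit 98319) (nat_lit 17) (.e (nat_lit 7491) (nat_lit 402) .nil)))))) (.g (nat_lit 4) .nil .nil))) 
(.lf (nat_lit 67489) (.g (nat_lit 2548) (.e (nat_lit 1633) (nat_lit 114) (.e (nat_lit 385094) (nat_lit 49) (.e (nat_lit 778317) (nat_lit 3) (.e (nat_lit 57477) (nat_lit 28) (.e (nat_lit 557108) (nat_lit 15) (.e (nat_lit 188433) (nat_lit 20) (.e (nat_lit 3114) (nat_lit 193) (.e (nat_lit 499949) (nat_lit 14) .nil)))))))) (.g (nat_lit 4) .nil .nil)))) (.nd (nat_lit 5) 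
(.lf (nat_lit 67473) (.g (nat_lit 1782) (.e (nat_lit 1633) (nat_lit 114) (.e (nat_lit 385093) (nat_lit 49) (.e (nat_lit 778291) (nat_lit 0) (.e (nat_lit 1638) (nat_lit 114) (.e (nat_lit 392960) (nat_lit 5) (.e (nat_lit 73753) (nat_lit 8) (.e (nat_lit 557059) (nat_lit 0) .nil))))))) (.g (nat_lit 4) .nil .nil))) 
(.lf (nat_lit 67505) (.g (nat_lit 1966) (.e (nat_lit 1633) (nat_lit 114) (.e (nat_lit 385094) (nat_lit 49) (.e (nat_lit 778324) (nat_lit 5) (.e (nat_lit 73781) (nat_lit 32) (.e (nat_lit 3067) (nat_lit 190) (.e (nat_lit 483072) (nat_lit 8) .nil)))))) (.g (nat_lit 5) .nil .nil))))) (.nd (nat_lit 4) (.nd (nat_lit 5) 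
(.lf (nat_lit 67465) (.g (nat_lit 4807) (.e (nat_lit 1633) (nat_lit 114) (.e (nat_lit 385074) (nat_lit 31) (.e (nat_lit 573493) (nat_lit 15) (.e (nat_lit 81956) (nat_lit 23) (.e (nat_lit 98323) (nat_lit 17) (.e (nat_lit 7535) (nat_lit 402) .nil)))))) (.g (nat_lit 0) .nil .nil))) 
(.lf (nat_lit 67497) (.g (nat_lit 2931) (.e (nat_lit 1633) (nat_lit 114) (.e (nat_lit 385094) (nat_lit 49) (.e (nat_lit 778320) (nat_lit 4) (.e (nat_lit 65630) (nat_lit 14) (.e (nat_lit 401454) (nat_lit 12) (.e (nat_lit 483072) (nat_lit 8) .nil)))))) (.g (nat_lit 5) .nil .nil)))) (.nd (nat_lit 5) 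
(.lf (nat_lit 67481) (.g (nat_lit 2477) (.e (nat_lit 1633) (nat_lit 114) (.e (nat_lit 385094) (nat_lit 49) (.e (nat_lit 778291) (nat_lit 0) (.e (nat_lit 1638) (nat_lit 114) (.e (nat_lit 392960) (nat_lit 5) (.e (nat_lit 73753) (nat_lit 8) (.e (nat_lit 557058) (nat_lit 0) .nil))))))) (.g (nat_lit 4) .nil .nil))) 
(.lf (nat_lit 67513) (.g (nat_lit 549) (.e (nat_lit 1633) (nat_lit 114) (.e (nat_lit 385094) (nat_lit 49) (.e (nat_lit 778583) (nat_lit 17) .nil))) .nil))))) (.nd (nat_lit 3) (.nd (nat_lit 4) (.nd (nat_lit 5) 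
(.lf (nat_lit 67461) (.g (nat_lit 3233) (.e (nat_lit 1633) (nat_lit 114) (.e (nat_lit 385074) (nat_lit 31) (.e (nat_lit 573493) (nat_lit 15) (.e (nat_lit 81956) (nat_lit 23) (.e (nat_lit 98320) (nat_lit 17) (.e (nat_lit 7493) (nat_lit 402) .nil)))))) (.g (nat_lit 4) .nil .nil))) 
(.lf (nat_lit 67493) (.g (nat_lit 3198) (.e (nat_lit 1633) (nat_lit 114) (.e (nat_lit 385094) (nat_lit 49) (.e (nat_lit 778317) (nat_lit 3) (.e (nat_lit 57480) (nat_lit 28) (.e (nat_lit 557109) (nat_lit 15) (.e (nat_lit 188449) (nat_lit 22) (.e (nat_lit 204544) (nat_lit 9) .nil))))))) (.g (nat_lit 6) .nil .nil)))) (.nd (nat_lit 5) 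
(.lf (nat_lit 67477) (.g (nat_lit 2372) (.e (nat_lit 1633) (nat_lit 114) (.e (nat_lit 385093) (nat_lit 49) (.e (nat_lit 778317) (nat_lit 3) (.e (nat_lit 57480) (nat_lit 28) (.e (nat_lit 557109) (nat_lit 15) (.e (nat_lit 188449) (nat_lit 22) (.e (nat_lit 204544) (nat_lit 9) .nil))))))) (.g (nat_lit 4) .nil .nil))) 
(.lf (nat_lit 67509) (.g (nat_lit 3342) (.e (nat_lit 1633) (nat_lit 114) (.e (nat_lit 385094) (nat_lit 49) (.e (nat_lit 778326) (nat_lit 6) (.e (nat_lit 81959) (nat_lit 24) (.e (nat_lit 123195) (nat_lit 266) (.e (nat_lit 57346) (nat_lit 0) (.e (nat_lit 6437) (nat_lit 343) .nil))))))) (.g (nat_lit 5) .nil .nil))))) (.nd (nat_lit 4) (.nd (nat_lit 5) 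
(.lf (nat_lit 67469) (.g (nat_lit 3905) (.e (nat_lit 1633) (nat_lit 114) (.e (nat_lit 385074) (nat_lit 31) (.e (nat_lit 573493) (nat_lit 15) (.e (nat_lit 81956) (nat_lit 23) (.e (nat_lit 98334) (nat_lit 18) (.e (nat_lit 164413) (nat_lit 260) (.e (nat_lit 1074) (nat_lit 81) .nil))))))) (.g (nat_lit 4) .nil .nil))) 
(.lf (nat_lit 67501) (.g (nat_lit 2354) (.e (nat_lit 1633) (nat_lit 114) (.e (nat_lit 385094) (nat_lit 49) (.e (nat_lit 778323) (nat_lit 5) (.e (nat_lit 73782) (nat_lit 32) (.e (nat_lit 3066) (nat_lit 190) (.e (nat_lit 483072) (nat_lit 8) .nil)))))) (.g (nat_lit 5) .nil .nil)))) (.nd (nat_lit 5) 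
(.lf (nat_lit 67485) (.g (nat_lit 3019) (.e (nat_lit 1633) (nat_lit 114) (.e (nat_lit 385094) (nat_lit 49) (.e (nat_lit 778317) (nat_lit 3) (.e (nat_lit 57476) (nat_lit 28) (.e (nat_lit 557108) (nat_lit 15) (.e (nat_lit 188433) (nat_lit 20) (.e (nat_lit 3114) (nat_lit 193) (.e (nat_lit 499949) (nat_lit 14) .nil)))))))) (.g (nat_lit 4) .nil .nil))) 
(.lf (nat_lit 67517) (.g (nat_lit 2531) (.e (nat_lit 1633) (nat_lit 114) (.e (nat_lit 385106) (nat_lit 50) (.e (nat_lit 786467) (nat_lit 27) (.e (nat_lit 336205) (nat_lit 12) (.e (nat_lit 385115) (nat_lit 53) (.e (nat_lit 811018) (nat_lit 0) (.e (nat_lit 5277) (nat_lit 298) .nil))))))) (.g (nat_lit 5) .nil .nil))))))) (.nd (nat_lit 2) (.nd (nat_lit 3) (.nd (nat_lit 4) (.nd (nat_lit 5) 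
(.lf (nat_lit 67459) (.g (nat_lit 3781) (.e (nat_lit 1633) (nat_lit 114) (.e (nat_lit 385074) (nat_lit 31) (.e (nat_lit 573493) (nat_lit 15) (.e (nat_lit 81956) (nat_lit 23) (.e (nat_lit 98320) (nat_lit 17) (.e (nat_lit 7486) (nat_lit 402) .nil)))))) (.g (nat_lit 4) .nil .nil))) 
(.lf (nat_lit 67491) (.g (nat_lit 4076) (.e (nat_lit 1633) (nat_lit 114) (.e (nat_lit 385094) (nat_lit 49) (.e (nat_lit 778317) (nat_lit 3) (.e (nat_lit 57480) (nat_lit 28) (.e (nat_lit 557109) (nat_lit 15) (.e (nat_lit 188426) (nat_lit 20) (.e (nat_lit 3195) (nat_lit 193) (.e (nat_lit 500013) (nat_lit 14) .nil)))))))) (.g (nat_lit 6) .nil .nil)))) (.nd (nat_lit 5) 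
(.lf (nat_lit 67475) (.g (nat_lit 2531) (.e (nat_lit 1633) (nat_lit 114) (.e (nat_lit 385093) (nat_lit 49) (.e (nat_lit 778317) (nat_lit 3) (.e (nat_lit 57477) (nat_lit 28) (.e (nat_lit 557108) (nat_lit 15) (.e (nat_lit 188449) (nat_lit 22) (.e (nat_lit 204544) (nat_lit 9) .nil))))))) (.g (nat_lit 4) .nil .nil))) 
(.lf (nat_lit 67507) (.g (nat_lit 2195) (.e (nat_lit 1633) (nat_lit 114) (.e (nat_lit 385094) (nat_lit 49) (.e (nat_lit 778326) (nat_lit 6) (.e (nat_lit 81924) (nat_lit 0) (.e (nat_lit 3806) (nat_lit 231) (.e (nat_lit 811018) (nat_lit 0) (.e (nat_lit 5277) (nat_lit 298) .nil))))))) (.g (nat_lit 6) .nil .nil))))) (.nd (nat_lit 4) (.nd (nat_lit 5) 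
(.lf (nat_lit 67467) (.g (nat_lit 3096) (.e (nat_lit 1633) (nat_lit 114) (.e (nat_lit 385074) (nat_lit 31) (.e (nat_lit 573493) (nat_lit 15) (.e (nat_lit 81956) (nat_lit 23) (.e (nat_lit 98334) (nat_lit 18) .nil))))) .nil)) 
(.lf (nat_lit 67499) (.g (nat_lit 2196) (.e (nat_lit 1633) (nat_lit 114) (.e (nat_lit 385094) (nat_lit 49) (.e (nat_lit 778323) (nat_lit 5) (.e (nat_lit 73781) (nat_lit 32) (.e (nat_lit 3066) (nat_lit 190) (.e (nat_lit 483072) (nat_lit 8) .nil)))))) (.g (nat_lit 5) .nil .nil)))) (.nd (nat_lit 5) 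
(.lf (nat_lit 67483) (.g (nat_lit 2660) (.e (nat_lit 1633) (nat_lit 114) (.e (nat_lit 385094) (nat_lit 49) (.e (nat_lit 778291) (nat_lit 0) (.e (nat_lit 1638) (nat_lit 114) (.e (nat_lit 392960) (nat_lit 5) (.e (nat_lit 73754) (nat_lit 8) (.e (nat_lit 557058) (nat_lit 0) .nil))))))) (.g (nat_lit 4) .nil .nil))) 
(.lf (nat_lit 67515) (.g (nat_lit 1070) (.e (nat_lit 1633) (nat_lit 114) (.e (nat_lit 385105) (nat_lit 50) (.e (nat_lit 786483) (nat_lit 30) (.e (nat_lit 360484) (nat_lit 15) .nil)))) .nil))))) (.nd (nat_lit 3) (.nd (nat_lit 4) (.nd (nat_lit 5) 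
(.lf (nat_lit 67463) (.g (nat_lit 3364) (.e (nat_lit 1633) (nat_lit 114) (.e (nat_lit 385074) (nat_lit 31) (.e (nat_lit 573493) (nat_lit 15) (.e (nat_lit 81956) (nat_lit 23) (.e (nat_lit 98321) (nat_lit 17) (.e (nat_lit 7936) (nat_lit 402) .nil)))))) (.g (nat_lit 5) .nil .nil))) 
(.lf (nat_lit 67495) (.g (nat_lit 1863) (.e (nat_lit 1633) (nat_lit 114) (.e (nat_lit 385094) (nat_lit 49) (.e (nat_lit 778318) (nat_lit 3) (.e (nat_lit 57476) (nat_lit 28) .nil)))) .nil))) (.nd (nat_lit 5) 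
(.lf (nat_lit 67479) (.g (nat_lit 638) (.e (nat_lit 1633) (nat_lit 114) (.e (nat_lit 385094) (nat_lit 49) (.e (nat_lit 778246) (nat_lit 0) .nil))) .nil)) 
(.lf (nat_lit 67511) (.g (nat_lit 3179) (.e (nat_lit 1633) (nat_lit 114) (.e (nat_lit 385094) (nat_lit 49) (.e (nat_lit 778327) (nat_lit 6) (.e (nat_lit 81959) (nat_lit 24) (.e (nat_lit 123195) (nat_lit 266) (.e (nat_lit 57346) (nat_lit 0) (.e (nat_lit 6437) (nat_lit 343) .nil))))))) (.g (nat_lit 5) .nil .nil))))) (.nd (nat_lit 4) (.nd (nat_lit 5) 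
(.lf (nat_lit 67471) (.g (nat_lit 1979) (.e (nat_lit 1633) (nat_lit 114) (.e (nat_lit 385074) (nat_lit 31) (.e (nat_lit 573493) (nat_lit 15) (.e (nat_lit 81962) (nat_lit 25) .nil)))) .nil)) 
(.lf (nat_lit 67503) (.g (nat_lit 1342) (.e (nat_lit 1633) (nat_lit 114) (.e (nat_lit 385094) (nat_lit 49) (.e (nat_lit 778324) (nat_lit 5) (.e (nat_lit 73781) (nat_lit 32) (.e (nat_lit 3064) (nat_lit 190) (.e (nat_lit 483072) (nat_lit 8) .nil)))))) (.g (nat_lit 4) .nil .nil)))) (.nd (nat_lit 5) 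
(.lf (nat_lit 67487) (.g (nat_lit 2103) (.e (nat_lit 1633) (nat_lit 114) (.e (nat_lit 385094) (nat_lit 49) (.e (nat_lit 778317) (nat_lit 3) (.e (nat_lit 57476) (nat_lit 28) (.e (nat_lit 557108) (nat_lit 15) (.e (nat_lit 188458) (nat_lit 25) (.e (nat_lit 253696) (nat_lit 9) .nil))))))) (.g (nat_lit 4) .nil .nil))) 
(.lf (nat_lit 67519) (.g (nat_lit 2235) (.e (nat_lit 1633) (nat_lit 114) (.e (nat_lit 385106) (nat_lit 50) (.e (nat_lit 786470) (nat_lit 27) (.e (nat_lit 336193) (nat_lit 12) (.e (nat_lit 385115) (nat_lit 53) (.e (nat_lit 811018) (nat_lit 0) (.e (nat_lit 5277) (nat_lit 298) .nil))))))) (.g (nat_lit 4) .nil .nil)))))))))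

noncomputable def tv931 : DT := (.nd (nat_lit 0) (.nd (nat_lit 1) (.nd (nat_lit 2) (.nd (nat_lit 3) (.nd (nat_lit 4) (.nd (nat_lit 5) 
(.lf (nat_lit 67520) (.g (nat_lit 2044) (.e (nat_lit 1633) (nat_lit 114) (.e (nat_lit 385106) (nat_lit 50) (.e (nat_lit 786470) (nat_lit 27) (.e (nat_lit 336193) (nat_lit 12) (.e (nat_lit 385115) (nat_lit 53) (.e (nat_lit 811018) (nat_lit 0) (.e (nat_lit 5293) (nat_lit 298) .nil))))))) (.g (nat_lit 4) .nil .nil))) 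
(.lf (nat_lit 67552) (.g (nat_lit 2945) (.e (nat_lit 1633) (nat_lit 114) (.e (nat_lit 385114) (nat_lit 53) (.e (nat_lit 811045) (nat_lit 14) (.e (nat_lit 40997) (nat_lit 11) (.e (nat_lit 24617) (nat_lit 7) (.e (nat_lit 319511) (nat_lit 10) (.e (nat_lit 5293) (nat_lit 298) .nil))))))) (.g (nat_lit 0) .nil .nil)))) (.nd (nat_lit 5) 
(.lf (nat_lit 67536) (.g (nat_lit 2449) (.e (nat_lit 1633) (nat_lit 114) (.e (nat_lit 385106) (nat_lit 50) (.e (nat_lit 786483) (nat_lit 30) (.e (nat_lit 360450) (nat_lit 0) (.e (nat_lit 5557) (nat_lit 307) (.e (nat_lit 8295) (nat_lit 51) (.e (nat_lit 5293) (nat_lit 298) .nil))))))) (.g (nat_lit 4) .nil .nil))) 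
(.lf (nat_lit 67568) (.g (nat_lit 2324) (.e (nat_lit 1634) (nat_lit 114) (.e (nat_lit 385068) (nat_lit 26) (.e (nat_lit 532543) (nat_lit 10) (.e (nat_lit 344130) (nat_lit 26) (.e (nat_lit 557103) (nat_lit 14) .nil))))) .nil)))) (.nd (nat_lit 4) (.nd (nat_lit 5) 
(.lf (nat_lit 67528) (.g (nat_lit 1224) (.e (nat_lit 1633) (nat_lit 114) (.e (nat_lit 385106) (nat_lit 50) (.e (nat_lit 786478) (nat_lit 29) (.e (nat_lit 352270) (nat_lit 8) .nil)))) .nil)) 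
(.lf (nat_lit 67560) (.g (nat_lit 2905) (.e (nat_lit 1634) (nat_lit 114) (.e (nat_lit 385066) (nat_lit 26) (.e (nat_lit 532534) (nat_lit 9) (.e (nat_lit 336019) (nat_lit 3) (.e (nat_lit 98342) (nat_lit 20) .nil))))) .nil))) (.nd (nat_lit 5) 
(.lf (nat_lit 67544) (.g (nat_lit 2403) (.e (nat_lit 1633) (nat_lit 114) (.e (nat_lit 385106) (nat_lit 50) (.e (nat_lit 786483) (nat_lit 30) (.e (nat_lit 360484) (nat_lit 15) (.e (nat_lit 647203) (nat_lit 14) (.e (nat_lit 1086) (nat_lit 81) (.e (nat_lit 5273) (nat_lit 298) .nil))))))) (.g (nat_lit 4) .nil .nil))) 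
(.lf (nat_lit 67576) (.g (nat_lit 2781) (.e (nat_lit 1634) (nat_lit 114) (.e (nat_lit 385068) (nat_lit 26) (.e (nat_lit 532544) (nat_lit 10) (.e (nat_lit 344132) (nat_lit 26) (.e (nat_lit 557100) (nat_lit 13) (.e (nat_lit 172042) (nat_lit 0) (.e (nat_lit 3288) (nat_lit 201) (.e (nat_lit 565252) (nat_lit 0) .nil)))))))) (.g (nat_lit 4) .nil .nil)))))) 
(.nd (nat_lit 3) (.nd (nat_lit 4) (.nd (nat_lit 5) 
(.lf (nat_lit 67524) (.g (nat_lit 407) (.e (nat_lit 1633) (nat_lit 114) (.e (nat_lit 385106) (nat_lit 50) (.e (nat_lit 786475) (nat_lit 28) .nil))) .nil)) 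
(.lf (nat_lit 67556) (.g (nat_lit 1879) (.e (nat_lit 1634) (nat_lit 114) (.e (nat_lit 385065) (nat_lit 26) (.e (nat_lit 532543) (nat_lit 10) (.e (nat_lit 344132) (nat_lit 26) (.e (nat_lit 557101) (nat_lit 13) (.e (nat_lit 172051) (nat_lit 0) (.e (nat_lit 3289) (nat_lit 201) (.e (nat_lit 565252) (nat_lit 0) .nil)))))))) (.g (nat_lit 5) .nil .nil)))) (.nd (nat_lit 5) 
(.lf (nat_lit 67540) (.g (nat_lit 2183) (.e (nat_lit 1633) (nat_lit 114) (.e (nat_lit 385106) (nat_lit 50) (.e (nat_lit 786483) (nat_lit 30) (.e (nat_lit 360483) (nat_lit 15) (.e (nat_lit 655104) (nat_lit 15) (.e (nat_lit 57884) (nat_lit 270) .nil)))))) (.g (nat_lit 4) .nil .nil))) 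
(.lf (nat_lit 67572) (.g (nat_lit 3057) (.e (nat_lit 1634) (nat_lit 114) (.e (nat_lit 385068) (nat_lit 26) (.e (nat_lit 532543) (nat_lit 10) (.e (nat_lit 344133) (nat_lit 26) (.e (nat_lit 557098) (nat_lit 13) (.e (nat_lit 172051) (nat_lit 0) (.e (nat_lit 3289) (nat_lit 201) (.e (nat_lit 565252) (nat_lit 0) .nil)))))))) (.g (nat_lit 4) .nil .nil))))) (.nd (nat_lit 4) (.nd (nat_lit 5) 
(.lf (nat_lit 67532) (.g (nat_lit 1212) (.e (nat_lit 1633) (nat_lit 114) (.e (nat_lit 385106) (nat_lit 50) (.e (nat_lit 786481) (nat_lit 30) (.e (nat_lit 360482) (nat_lit 15) .nil)))) .nil)) 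
(.lf (nat_lit 67564) (.g (nat_lit 952) (.e (nat_lit 1634) (nat_lit 114) (.e (nat_lit 385068) (nat_lit 26) (.e (nat_lit 532530) (nat_lit 9) .nil))) .nil))) (.nd (nat_lit 5) 
(.lf (nat_lit 67548) (.g (nat_lit 1890) (.e (nat_lit 1633) (nat_lit 114) (.e (nat_lit 385107) (nat_lit 51) (.e (nat_lit 794682) (nat_lit 25) (.e (nat_lit 221190) (nat_lit 11) (.e (nat_lit 336059) (nat_lit 7) (.e (nat_lit 319511) (nat_lit 10) (.e (nat_lit 5293) (nat_lit 298) .nil))))))) (.g (nat_lit 5) .nil .nil))) 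
(.lf (nat_lit 67580) (.g (nat_lit 2530) (.e (nat_lit 1634) (nat_lit 114) (.e (nat_lit 385068) (nat_lit 26) (.e (nat_lit 532544) (nat_lit 10) (.e (nat_lit 344132) (nat_lit 26) (.e (nat_lit 557105) (nat_lit 14) .nil))))) .nil)))))) (.nd (nat_lit 2) (.nd (nat_lit 3) (.nd (nat_lit 4) (.nd (nat_lit 5) 
(.lf (nat_lit 67522) (.g (nat_lit 1891) (.e (nat_lit 1633) (nat_lit 114) (.e (nat_lit 385106) (nat_lit 50) (.e (nat_lit 786470) (nat_lit 27) (.e (nat_lit 336200) (nat_lit 12) (.e (nat_lit 385115) (nat_lit 53) (.e (nat_lit 811018) (nat_lit 0) (.e (nat_lit 5293) (nat_lit 298) .nil))))))) (.g (nat_lit 4) .nil .nil))) 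
(.lf (nat_lit 67554) (.g (nat_lit 1574) (.e (nat_lit 1633) (nat_lit 114) (.e (nat_lit 385115) (nat_lit 53) (.e (nat_lit 811018) (nat_lit 0) (.e (nat_lit 5293) (nat_lit 298) (.e (nat_lit 1633) (nat_lit 114) (.e (nat_lit 385115) (nat_lit 53) (.e (nat_lit 811018) (nat_lit 0) (.e (nat_lit 5277) (nat_lit 298) .nil)))))))) (.g (nat_lit 5) .nil .nil)))) (.nd (nat_lit 5) 
(.lf (nat_lit 67538) (.g (nat_lit 1155) (.e (nat_lit 1633) (nat_lit 114) (.e (nat_lit 385106) (nat_lit 50) (.e (nat_lit 786483) (nat_lit 30) (.e (nat_lit 360483) (nat_lit 15) .nil)))) .nil)) 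
(.lf (nat_lit 67570) (.g (nat_lit 2613) (.e (nat_lit 1634) (nat_lit 114) (.e (nat_lit 385068) (nat_lit 26) (.e (nat_lit 532543) (nat_lit 10) (.e (nat_lit 344132) (nat_lit 26) (.e (nat_lit 557101) (nat_lit 13) (.e (nat_lit 172051) (nat_lit 0) (.e (nat_lit 3289) (nat_lit 201) (.e (nat_lit 565252) (nat_lit 0) .nil)))))))) (.g (nat_lit 4) .nil .nil))))) (.nd (nat_lit 4) (.nd (nat_lit 5) 
(.lf (nat_lit 67530) (.g (nat_lit 1230) (.e (nat_lit 1633) (nat_lit 114) (.e (nat_lit 385106) (nat_lit 50) (.e (nat_lit 786481) (nat_lit 30) (.e (nat_lit 360449) (nat_lit 0) .nil)))) .nil)) 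
(.lf (nat_lit 67562) (.g (nat_lit 1441) (.e (nat_lit 1634) (nat_lit 114) (.e (nat_lit 385067) (nat_lit 26) (.e (nat_lit 532543) (nat_lit 10) (.e (nat_lit 344132) (nat_lit 26) (.e (nat_lit 557101) (nat_lit 13) (.e (nat_lit 172051) (nat_lit 0) (.e (nat_lit 3289) (nat_lit 201) (.e (nat_lit 565252) (nat_lit 0) .nil)))))))) (.g (nat_lit 4) .nil .nil)))) (.nd (nat_lit 5) 
(.lf (nat_lit 67546) (.g (nat_lit 2128) (.e (nat_lit 1633) (nat_lit 114) (.e (nat_lit 385106) (nat_lit 50) (.e (nat_lit 786483) (nat_lit 30) (.e (nat_lit 360484) (nat_lit 15) (.e (nat_lit 655104) (nat_lit 14) (.e (nat_lit 1075) (nat_lit 81) (.e (nat_lit 5293) (nat_lit 298) .nil))))))) (.g (nat_lit 4) .nil .nil))) 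
(.lf (nat_lit 67578) (.g (nat_lit 2807) (.e (nat_lit 1634) (nat_lit 114) (.e (nat_lit 385068) (nat_lit 26) (.e (nat_lit 532544) (nat_lit 10) (.e (nat_lit 344132) (nat_lit 26) (.e (nat_lit 557101) (nat_lit 13) .nil))))) .nil))))) (.nd (nat_lit 3) (.nd (nat_lit 4) (.nd (nat_lit 5) 
(.lf (nat_lit 67526) (.g (nat_lit 3024) (.e (nat_lit 1633) (nat_lit 114) (.e (nat_lit 385106) (nat_lit 50) (.e (nat_lit 786478) (nat_lit 29) (.e (nat_lit 352262) (nat_lit 0) (.e (nat_lit 3806) (nat_lit 231) (.e (nat_lit 811018) (nat_lit 0) (.e (nat_lit 5277) (nat_lit 298) .nil))))))) (.g (nat_lit 0) .nil .nil))) 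
(.lf (nat_lit 67558) (.g (nat_lit 1151) (.e (nat_lit 1634) (nat_lit 114) (.e (nat_lit 385065) (nat_lit 26) (.e (nat_lit 532544) (nat_lit 10) (.e (nat_lit 344130) (nat_lit 26) .nil)))) .nil))) (.nd (nat_lit 5) 
(.lf (nat_lit 67542) (.g (nat_lit 2352) (.e (nat_lit 1633) (nat_lit 114) (.e (nat_lit 385106) (nat_lit 50) (.e (nat_lit 786483) (nat_lit 30) (.e (nat_lit 360484) (nat_lit 15) (.e (nat_lit 647203) (nat_lit 14) (.e (nat_lit 1023) (nat_lit 81) (.e (nat_lit 5296) (nat_lit 298) .nil))))))) (.g (nat_lit 4) .nil .nil))) 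
(.lf (nat_lit 67574) (.g (nat_lit 1268) (.e (nat_lit 1634) (nat_lit 114) (.e (nat_lit 385068) (nat_lit 26) (.e (nat_lit 532544) (nat_lit 10) .nil))) .nil)))) (.nd (nat_lit 4) (.nd (nat_lit 5) 
(.lf (nat_lit 67534) (.g (nat_lit 1394) (.e (nat_lit 1633) (nat_lit 114) (.e (nat_lit 385106) (nat_lit 50) (.e (nat_lit 786483) (nat_lit 30) (.e (nat_lit 360448) (nat_lit 0) .nil)))) .nil)) 
(.lf (nat_lit 67566) (.g (nat_lit 3758) (.e (nat_lit 1634) (nat_lit 114) (.e (nat_lit 385068) (nat_lit 26) (.e (nat_lit 532534) (nat_lit 9) (.e (nat_lit 336019) (nat_lit 3) (.e (nat_lit 98342) (nat_lit 20) .nil))))) .nil))) (.nd (nat_lit 5) 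
(.lf (nat_lit 67550) (.g (nat_lit 1069) (.e (nat_lit 1633) (nat_lit 114) (.e (nat_lit 385109) (nat_lit 51) (.e (nat_lit 794682) (nat_lit 25) .nil))) .nil)) 
(.lf (nat_lit 67582) (.g (nat_lit 3318) (.e (nat_lit 1634) (nat_lit 114) (.e (nat_lit 385068) (nat_lit 26) (.e (nat_lit 532544) (nat_lit 10) (.e (nat_lit 344133) (nat_lit 26) (.e (nat_lit 557103) (nat_lit 14) (.e (nat_lit 180248) (nat_lit 9) (.e (nat_lit 565252) (nat_lit 0) .nil))))))) (.g (nat_lit 4) .nil .nil)))))))) 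
(.nd (nat_lit 1) (.nd (nat_lit 2) (.nd (nat_lit 3) (.nd (nat_lit 4) (.nd (nat_lit 5) 
(.lf (nat_lit 67521) (.g (nat_lit 2082) (.e (nat_lit 1633) (nat_lit 114) (.e (nat_lit 385106) (nat_lit 50) (.e (nat_lit 786470) (nat_lit 27) (.e (nat_lit 336200) (nat_lit 12) (.e (nat_lit 385115) (nat_lit 53) (.e (nat_lit 811018) (nat_lit 0) (.e (nat_lit 5277) (nat_lit 298) .nil))))))) (.g (nat_lit 5) .nil .nil))) 
(.lf (nat_lit 67553) (.g (nat_lit 2008) (.e (nat_lit 1633) (nat_lit 114) (.e (nat_lit 385115) (nat_lit 53) (.e (nat_lit 811018) (nat_lit 0) (.e (nat_lit 5277) (nat_lit 298) (.e (nat_lit 1633) (nat_lit 114) (.e (nat_lit 385115) (nat_lit 53) (.e (nat_lit 811018) (nat_lit 0) (.e (nat_lit 5277) (nat_lit 298) .nil)))))))) (.g (nat_lit 0) .nil .nil)))) (.nd (nat_lit 5) 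
(.lf (nat_lit 67537) (.g (nat_lit 2347) (.e (nat_lit 1633) (nat_lit 114) (.e (nat_lit 385106) (nat_lit 50) (.e (nat_lit 786483) (nat_lit 30) (.e (nat_lit 360451) (nat_lit 0) (.e (nat_lit 5560) (nat_lit 307) (.e (nat_lit 8295) (nat_lit 51) (.e (nat_lit 5293) (nat_lit 298) .nil))))))) (.g (nat_lit 4) .nil .nil))) 
(.lf (nat_lit 67569) (.g (nat_lit 2370) (.e (nat_lit 1634) (nat_lit 114) (.e (nat_lit 385068) (nat_lit 26) (.e (nat_lit 532543) (nat_lit 10) (.e (nat_lit 344132) (nat_lit 26) (.e (nat_lit 557100) (nat_lit 13) (.e (nat_lit 172042) (nat_lit 0) (.e (nat_lit 3289) (nat_lit 201) (.e (nat_lit 565252) (nat_lit 0) .nil)))))))) (.g (nat_lit 4) .nil .nil))))) (.nd (nat_lit 4) (.nd (nat_lit 5) 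
(.lf (nat_lit 67529) (.g (nat_lit 2915) (.e (nat_lit 1633) (nat_lit 114) (.e (nat_lit 385106) (nat_lit 50) (.e (nat_lit 786480) (nat_lit 29) (.e (nat_lit 352262) (nat_lit 0) (.e (nat_lit 3806) (nat_lit 231) (.e (nat_lit 811018) (nat_lit 0) (.e (nat_lit 5293) (nat_lit 298) .nil))))))) (.g (nat_lit 5) .nil .nil))) 
(.lf (nat_lit 67561) (.g (nat_lit 1404) (.e (nat_lit 1634) (nat_lit 114) (.e (nat_lit 385066) (nat_lit 26) (.e (nat_lit 532543) (nat_lit 10) (.e (nat_lit 344132) (nat_lit 26) (.e (nat_lit 557101) (nat_lit 13) .nil))))) .nil))) (.nd (nat_lit 5) 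
(.lf (nat_lit 67545) (.g (nat_lit 1915) (.e (nat_lit 1633) (nat_lit 114) (.e (nat_lit 385106) (nat_lit 50) (.e (nat_lit 786483) (nat_lit 30) (.e (nat_lit 360484) (nat_lit 15) (.e (nat_lit 655104) (nat_lit 14) (.e (nat_lit 977) (nat_lit 81) (.e (nat_lit 5277) (nat_lit 298) .nil))))))) (.g (nat_lit 4) .nil .nil))) 
(.lf (nat_lit 67577) (.g (nat_lit 3124) (.e (nat_lit 1634) (nat_lit 114) (.e (nat_lit 385068) (nat_lit 26) (.e (nat_lit 532544) (nat_lit 10) (.e (nat_lit 344132) (nat_lit 26) (.e (nat_lit 557100) (nat_lit 13) (.e (nat_lit 172042) (nat_lit 0) (.e (nat_lit 3289) (nat_lit 201) (.e (nat_lit 565252) (nat_lit 0) .nil)))))))) (.g (nat_lit 4) .nil .nil)))))) 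
(.nd (nat_lit 3) (.nd (nat_lit 4) (.nd (nat_lit 5) 
(.lf (nat_lit 67525) (.g (nat_lit 464) (.e (nat_lit 1633) (nat_lit 114) (.e (nat_lit 385106) (nat_lit 50) (.e (nat_lit 786478) (nat_lit 29) .nil))) .nil)) 
(.lf (nat_lit 67557) (.g (nat_lit 2803) (.e (nat_lit 1634) (nat_lit 114) (.e (nat_lit 385065) (nat_lit 26) (.e (nat_lit 532543) (nat_lit 10) (.e (nat_lit 344133) (nat_lit 26) (.e (nat_lit 557105) (nat_lit 14) (.e (nat_lit 180248) (nat_lit 9) (.e (nat_lit 565252) (nat_lit 0) .nil))))))) (.g (nat_lit 5) .nil .nil)))) (.nd (nat_lit 5) 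
(.lf (nat_lit 67541) (.g (nat_lit 1126) (.e (nat_lit 1633) (nat_lit 114) (.e (nat_lit 385106) (nat_lit 50) (.e (nat_lit 786483) (nat_lit 30) (.e (nat_lit 360484) (nat_lit 15) .nil)))) .nil)) 
(.lf (nat_lit 67573) (.g (nat_lit 2724) (.e (nat_lit 1634) (nat_lit 114) (.e (nat_lit 385068) (nat_lit 26) (.e (nat_lit 532543) (nat_lit 10) (.e (nat_lit 344133) (nat_lit 26) (.e (nat_lit 557103) (nat_lit 14) (.e (nat_lit 180248) (nat_lit 9) (.e (nat_lit 565252) (nat_lit 0) .nil))))))) (.g (nat_lit 4) .nil .nil))))) (.nd (nat_lit 4) (.nd (nat_lit 5) 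
(.lf (nat_lit 67533) (.g (nat_lit 2817) (.e (nat_lit 1633) (nat_lit 114) (.e (nat_lit 385106) (nat_lit 50) (.e (nat_lit 786481) (nat_lit 30) (.e (nat_lit 360482) (nat_lit 15) (.e (nat_lit 647203) (nat_lit 14) (.e (nat_lit 1074) (nat_lit 81) (.e (nat_lit 5293) (nat_lit 298) .nil))))))) (.g (nat_lit 5) .nil .nil))) 
(.lf (nat_lit 67565) (.g (nat_lit 3017) (.e (nat_lit 1634) (nat_lit 114) (.e (nat_lit 385068) (nat_lit 26) (.e (nat_lit 532530) (nat_lit 9) (.e (nat_lit 336019) (nat_lit 3) (.e (nat_lit 98342) (nat_lit 20) .nil))))) .nil))) (.nd (nat_lit 5) 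
(.lf (nat_lit 67549) (.g (nat_lit 2260) (.e (nat_lit 1633) (nat_lit 114) (.e (nat_lit 385107) (nat_lit 51) (.e (nat_lit 794684) (nat_lit 25) (.e (nat_lit 221190) (nat_lit 11) (.e (nat_lit 336059) (nat_lit 7) (.e (nat_lit 319511) (nat_lit 10) (.e (nat_lit 5293) (nat_lit 298) .nil))))))) (.g (nat_lit 0) .nil .nil))) 
(.lf (nat_lit 67581) (.g (nat_lit 3039) (.e (nat_lit 1634) (nat_lit 114) (.e (nat_lit 385068) (nat_lit 26) (.e (nat_lit 532544) (nat_lit 10) (.e (nat_lit 344133) (nat_lit 26) (.e (nat_lit 557098) (nat_lit 13) .nil))))) .nil)))))) (.nd (nat_lit 2) (.nd (nat_lit 3) (.nd (nat_lit 4) (.nd (nat_lit 5) 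
(.lf (nat_lit 67523) (.g (nat_lit 1988) (.e (nat_lit 1633) (nat_lit 114) (.e (nat_lit 385106) (nat_lit 50) (.e (nat_lit 786473) (nat_lit 27) (.e (nat_lit 336235) (nat_lit 14) (.e (nat_lit 401453) (nat_lit 12) .nil))))) .nil)) 
(.lf (nat_lit 67555) (.g (nat_lit 2817) (.e (nat_lit 1634) (nat_lit 114) (.e (nat_lit 385059) (nat_lit 22) (.e (nat_lit 500073) (nat_lit 19) (.e (nat_lit 73754) (nat_lit 8) (.e (nat_lit 557105) (nat_lit 14) (.e (nat_lit 180248) (nat_lit 9) (.e (nat_lit 565252) (nat_lit 0) .nil))))))) (.g (nat_lit 0) .nil .nil)))) (.nd (nat_lit 5) 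
(.lf (nat_lit 67539) (.g (nat_lit 2598) (.e (nat_lit 1633) (nat_lit 114) (.e (nat_lit 385106) (nat_lit 50) (.e (nat_lit 786483) (nat_lit 30) (.e (nat_lit 360483) (nat_lit 15) (.e (nat_lit 647203) (nat_lit 14) (.e (nat_lit 1074) (nat_lit 81) (.e (nat_lit 5293) (nat_lit 298) .nil))))))) (.g (nat_lit 5) .nil .nil))) 
(.lf (nat_lit 67571) (.g (nat_lit 2564) (.e (nat_lit 1634) (nat_lit 114) (.e (nat_lit 385068) (nat_lit 26) (.e (nat_lit 532543) (nat_lit 10) (.e (nat_lit 344133) (nat_lit 26) (.e (nat_lit 557098) (nat_lit 13) .nil))))) .nil)))) (.nd (nat_lit 4) (.nd (nat_lit 5) 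
(.lf (nat_lit 67531) (.g (nat_lit 1783) (.e (nat_lit 1633) (nat_lit 114) (.e (nat_lit 385106) (nat_lit 50) (.e (nat_lit 786481) (nat_lit 30) (.e (nat_lit 360449) (nat_lit 0) (.e (nat_lit 5560) (nat_lit 307) .nil))))) .nil)) 
(.lf (nat_lit 67563) (.g (nat_lit 1305) (.e (nat_lit 1634) (nat_lit 114) (.e (nat_lit 385067) (nat_lit 26) (.e (nat_lit 532545) (nat_lit 10) (.e (nat_lit 344132) (nat_lit 26) (.e (nat_lit 557101) (nat_lit 13) (.e (nat_lit 172051) (nat_lit 0) (.e (nat_lit 3289) (nat_lit 201) (.e (nat_lit 565252) (nat_lit 0) .nil)))))))) (.g (nat_lit 4) .nil .nil)))) (.nd (nat_lit 5) 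
(.lf (nat_lit 67547) (.g (nat_lit 1936) (.e (nat_lit 1633) (nat_lit 114) (.e (nat_lit 385106) (nat_lit 50) (.e (nat_lit 786485) (nat_lit 32) (.e (nat_lit 376835) (nat_lit 0) (.e (nat_lit 3806) (nat_lit 231) (.e (nat_lit 811018) (nat_lit 0) (.e (nat_lit 5277) (nat_lit 298) .nil))))))) (.g (nat_lit 4) .nil .nil))) 
(.lf (nat_lit 67579) (.g (nat_lit 3536) (.e (nat_lit 1634) (nat_lit 114) (.e (nat_lit 385068) (nat_lit 26) (.e (nat_lit 532544) (nat_lit 10) (.e (nat_lit 344132) (nat_lit 26) (.e (nat_lit 557101) (nat_lit 13) (.e (nat_lit 172051) (nat_lit 0) (.e (nat_lit 3289) (nat_lit 201) (.e (nat_lit 565252) (nat_lit 0) .nil)))))))) (.g (nat_lit 5) .nil .nil)))))) 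
(.nd (nat_lit 3) (.nd (nat_lit 4) (.nd (nat_lit 5) 
(.lf (nat_lit 67527) (.g (nat_lit 2710) (.e (nat_lit 1633) (nat_lit 114) (.e (nat_lit 385106) (nat_lit 50) (.e (nat_lit 786478) (nat_lit 29) (.e (nat_lit 352262) (nat_lit 0) (.e (nat_lit 3806) (nat_lit 231) (.e (nat_lit 811018) (nat_lit 0) (.e (nat_lit 5293) (nat_lit 298) .nil))))))) (.g (nat_lit 5) .nil .nil))) 
(.lf (nat_lit 67559) (.g (nat_lit 1152) (.e (nat_lit 1634) (nat_lit 114) (.e (nat_lit 385065) (nat_lit 26) (.e (nat_lit 532544) (nat_lit 10) (.e (nat_lit 344131) (nat_lit 26) .nil)))) .nil))) (.nd (nat_lit 5) 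
(.lf (nat_lit 67543) (.g (nat_lit 1956) (.e (nat_lit 1633) (nat_lit 114) (.e (nat_lit 385106) (nat_lit 50) (.e (nat_lit 786483) (nat_lit 30) (.e (nat_lit 360484) (nat_lit 15) (.e (nat_lit 647203) (nat_lit 14) (.e (nat_lit 1074) (nat_lit 81) (.e (nat_lit 5277) (nat_lit 298) .nil))))))) (.g (nat_lit 4) .nil .nil))) 
(.lf (nat_lit 67575) (.g (nat_lit 2193) (.e (nat_lit 1634) (nat_lit 114) (.e (nat_lit 385068) (nat_lit 26) (.e (nat_lit 532544) (nat_lit 10) (.e (nat_lit 344131) (nat_lit 26) .nil)))) .nil)))) (.nd (nat_lit 4) (.nd (nat_lit 5) 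
(.lf (nat_lit 67535) (.g (nat_lit 1127) (.e (nat_lit 1633) (nat_lit 114) (.e (nat_lit 385106) (nat_lit 50) (.e (nat_lit 786483) (nat_lit 30) (.e (nat_lit 360450) (nat_lit 0) .nil)))) .nil)) 
(.lf (nat_lit 67567) (.g (nat_lit 3594) (.e (nat_lit 1634) (nat_lit 114) (.e (nat_lit 385068) (nat_lit 26) (.e (nat_lit 532535) (nat_lit 9) (.e (nat_lit 335925) (nat_lit 0) (.e (nat_lit 1858) (nat_lit 124) (.e (nat_lit 557105) (nat_lit 14) (.e (nat_lit 180248) (nat_lit 9) (.e (nat_lit 565252) (nat_lit 0) .nil)))))))) (.g (nat_lit 4) .nil .nil)))) (.nd (nat_lit 5) 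
(.lf (nat_lit 67551) (.g (nat_lit 1625) (.e (nat_lit 1633) (nat_lit 114) (.e (nat_lit 385111) (nat_lit 53) (.e (nat_lit 811029) (nat_lit 9) (.e (nat_lit 311040) (nat_lit 30) (.e (nat_lit 360475) (nat_lit 8) (.e (nat_lit 557058) (nat_lit 0) .nil)))))) (.g (nat_lit 5) .nil .nil))) 
(.lf (nat_lit 67583) (.g (nat_lit 3140) (.e (nat_lit 1634) (nat_lit 114) (.e (nat_lit 385068) (nat_lit 26) (.e (nat_lit 532545) (nat_lit 10) (.e (nat_lit 344132) (nat_lit 26) (.e (nat_lit 557100) (nat_lit 13) (.e (nat_lit 172042) (nat_lit 0) (.e (nat_lit 3289) (nat_lit 201) (.e (nat_lit 565252) (nat_lit 0) .nil)))))))) (.g (nat_lit 5) .nil .nil)))))))))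

noncomputable def tv932 : DT := (.nd (nat_lit 0) (.nd (nat_lit 1) (.nd (nat_lit 2) (.nd (nat_lit 3) (.nd (nat_lit 4) (.nd (nat_lit 5) 
(.lf (nat_lit 67584) (.g (nat_lit 3769) (.e (nat_lit 1634) (nat_lit 114) (.e (nat_lit 385068) (nat_lit 26) (.e (nat_lit 532545) (nat_lit 10) (.e (nat_lit 344132) (nat_lit 26) (.e (nat_lit 557100) (nat_lit 13) (.e (nat_lit 172049) (nat_lit 0) (.e (nat_lit 3288) (nat_lit 201) (.e (nat_lit 565252) (nat_lit 0) .nil)))))))) (.g (nat_lit 5) .nil .nil))) 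
(.lf (nat_lit 67616) (.g (nat_lit 2754) (.e (nat_lit 1634) (nat_lit 114) (.e (nat_lit 385074) (nat_lit 31) (.e (nat_lit 573485) (nat_lit 13) (.e (nat_lit 65619) (nat_lit 10) (.e (nat_lit 344115) (nat_lit 20) (.e (nat_lit 507908) (nat_lit 0) (.e (nat_lit 5257) (nat_lit 298) .nil))))))) (.g (nat_lit 6) .nil .nil)))) (.nd (nat_lit 5) 
(.lf (nat_lit 67600) (.g (nat_lit 2306) (.e (nat_lit 1634) (nat_lit 114) (.e (nat_lit 385074) (nat_lit 31) (.e (nat_lit 573484) (nat_lit 13) (.e (nat_lit 65610) (nat_lit 10) (.e (nat_lit 344115) (nat_lit 20) (.e (nat_lit 507908) (nat_lit 0) (.e (nat_lit 5257) (nat_lit 298) .nil))))))) (.g (nat_lit 5) .nil .nil))) 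
(.lf (nat_lit 67632) (.g (nat_lit 2349) (.e (nat_lit 1634) (nat_lit 114) (.e (nat_lit 385093) (nat_lit 49) (.e (nat_lit 778317) (nat_lit 3) (.e (nat_lit 57480) (nat_lit 28) (.e (nat_lit 557109) (nat_lit 15) .nil))))) .nil)))) (.nd (nat_lit 4) (.nd (nat_lit 5) 
(.lf (nat_lit 67592) (.g (nat_lit 1510) (.e (nat_lit 1634) (nat_lit 114) (.e (nat_lit 385068) (nat_lit 26) (.e (nat_lit 532555) (nat_lit 13) (.e (nat_lit 368682) (nat_lit 26) .nil)))) .nil)) 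
(.lf (nat_lit 67624) (.g (nat_lit 2998) (.e (nat_lit 1634) (nat_lit 114) (.e (nat_lit 385074) (nat_lit 31) (.e (nat_lit 573493) (nat_lit 15) (.e (nat_lit 81956) (nat_lit 23) (.e (nat_lit 98325) (nat_lit 17) .nil))))) .nil))) (.nd (nat_lit 5) 
(.lf (nat_lit 67608) (.g (nat_lit 3602) (.e (nat_lit 1634) (nat_lit 114) (.e (nat_lit 385074) (nat_lit 31) (.e (nat_lit 573484) (nat_lit 13) (.e (nat_lit 65617) (nat_lit 10) (.e (nat_lit 344130) (nat_lit 26) (.e (nat_lit 557090) (nat_lit 12) (.e (nat_lit 164014) (nat_lit 43) (.e (nat_lit 679946) (nat_lit 5) .nil)))))))) (.g (nat_lit 5) .nil .nil))) 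
(.lf (nat_lit 67640) (.g (nat_lit 2020) (.e (nat_lit 1634) (nat_lit 114) (.e (nat_lit 385094) (nat_lit 49) (.e (nat_lit 778317) (nat_lit 3) (.e (nat_lit 57476) (nat_lit 28) (.e (nat_lit 557108) (nat_lit 15) (.e (nat_lit 188433) (nat_lit 20) (.e (nat_lit 3127) (nat_lit 193) (.e (nat_lit 499962) (nat_lit 14) .nil)))))))) (.g (nat_lit 4) .nil .nil)))))) 
(.nd (nat_lit 3) (.nd (nat_lit 4) (.nd (nat_lit 5) 
(.lf (nat_lit 67588) (.g (nat_lit 2234) (.e (nat_lit 1634) (nat_lit 114) (.e (nat_lit 385068) (nat_lit 26) (.e (nat_lit 532545) (nat_lit 10) (.e (nat_lit 344132) (nat_lit 26) (.e (nat_lit 557105) (nat_lit 14) (.e (nat_lit 180248) (nat_lit 9) (.e (nat_lit 565252) (nat_lit 0) .nil))))))) (.g (nat_lit 4) .nil .nil))) 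
(.lf (nat_lit 67620) (.g (nat_lit 744) (.e (nat_lit 1634) (nat_lit 114) (.e (nat_lit 385074) (nat_lit 31) (.e (nat_lit 573491) (nat_lit 15) .nil))) .nil))) (.nd (nat_lit 5) 
(.lf (nat_lit 67604) (.g (nat_lit 2760) (.e (nat_lit 1634) (nat_lit 114) (.e (nat_lit 385074) (nat_lit 31) (.e (nat_lit 573484) (nat_lit 13) (.e (nat_lit 65617) (nat_lit 10) (.e (nat_lit 344130) (nat_lit 26) .nil))))) .nil)) 
(.lf (nat_lit 67636) (.g (nat_lit 1899) (.e (nat_lit 1634) (nat_lit 114) (.e (nat_lit 385094) (nat_lit 49) (.e (nat_lit 778317) (nat_lit 3) (.e (nat_lit 57476) (nat_lit 28) (.e (nat_lit 557108) (nat_lit 15) .nil))))) .nil)))) (.nd (nat_lit 4) (.nd (nat_lit 5) 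
(.lf (nat_lit 67596) (.g (nat_lit 2438) (.e (nat_lit 1634) (nat_lit 114) (.e (nat_lit 385074) (nat_lit 31) (.e (nat_lit 573484) (nat_lit 13) (.e (nat_lit 65610) (nat_lit 10) (.e (nat_lit 344115) (nat_lit 20) (.e (nat_lit 507906) (nat_lit 0) (.e (nat_lit 5257) (nat_lit 298) .nil))))))) (.g (nat_lit 5) .nil .nil))) 
(.lf (nat_lit 67628) (.g (nat_lit 3262) (.e (nat_lit 1634) (nat_lit 114) (.e (nat_lit 385093) (nat_lit 49) (.e (nat_lit 778317) (nat_lit 3) (.e (nat_lit 57476) (nat_lit 28) (.e (nat_lit 557108) (nat_lit 15) (.e (nat_lit 188449) (nat_lit 22) (.e (nat_lit 196630) (nat_lit 9) .nil))))))) (.g (nat_lit 5) .nil .nil)))) (.nd (nat_lit 5) 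
(.lf (nat_lit 67612) (.g (nat_lit 3159) (.e (nat_lit 1634) (nat_lit 114) (.e (nat_lit 385074) (nat_lit 31) (.e (nat_lit 573485) (nat_lit 13) (.e (nat_lit 65604) (nat_lit 9) (.e (nat_lit 336013) (nat_lit 2) (.e (nat_lit 90165) (nat_lit 12) (.e (nat_lit 171776) (nat_lit 187) .nil))))))) (.g (nat_lit 6) .nil .nil))) 
(.lf (nat_lit 67644) (.g (nat_lit 2064) (.e (nat_lit 1634) (nat_lit 114) (.e (nat_lit 385094) (nat_lit 49) (.e (nat_lit 778317) (nat_lit 3) (.e (nat_lit 57476) (nat_lit 28) (.e (nat_lit 557108) (nat_lit 15) (.e (nat_lit 188433) (nat_lit 20) (.e (nat_lit 3140) (nat_lit 193) (.e (nat_lit 499962) (nat_lit 14) .nil)))))))) (.g (nat_lit 4) .nil .nil))))))) 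
(.nd (nat_lit 2) (.nd (nat_lit 3) (.nd (nat_lit 4) (.nd (nat_lit 5) 
(.lf (nat_lit 67586) (.g (nat_lit 2472) (.e (nat_lit 1634) (nat_lit 114) (.e (nat_lit 385068) (nat_lit 26) (.e (nat_lit 532545) (nat_lit 10) (.e (nat_lit 344132) (nat_lit 26) (.e (nat_lit 557101) (nat_lit 13) (.e (nat_lit 172051) (nat_lit 0) (.e (nat_lit 3288) (nat_lit 201) (.e (nat_lit 565252) (nat_lit 0) .nil)))))))) (.g (nat_lit 4) .nil .nil))) 
(.lf (nat_lit 67618) (.g (nat_lit 2617) (.e (nat_lit 1634) (nat_lit 114) (.e (nat_lit 385074) (nat_lit 31) (.e (nat_lit 573485) (nat_lit 13) (.e (nat_lit 65619) (nat_lit 10) (.e (nat_lit 344117) (nat_lit 21) (.e (nat_lit 516097) (nat_lit 0) (.e (nat_lit 7486) (nat_lit 402) .nil))))))) (.g (nat_lit 5) .nil .nil)))) (.nd (nat_lit 5) 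
(.lf (nat_lit 67602) (.g (nat_lit 2340) (.e (nat_lit 1634) (nat_lit 114) (.e (nat_lit 385074) (nat_lit 31) (.e (nat_lit 573484) (nat_lit 13) (.e (nat_lit 65617) (nat_lit 10) .nil)))) .nil)) 
(.lf (nat_lit 67634) (.g (nat_lit 1380) (.e (nat_lit 1634) (nat_lit 114) (.e (nat_lit 385094) (nat_lit 49) (.e (nat_lit 778317) (nat_lit 3) (.e (nat_lit 57476) (nat_lit 28) .nil)))) .nil)))) (.nd (nat_lit 4) (.nd (nat_lit 5) 
(.lf (nat_lit 67594) (.g (nat_lit 687) (.e (nat_lit 1634) (nat_lit 114) (.e (nat_lit 385068) (nat_lit 26) (.e (nat_lit 532560) (nat_lit 14) .nil))) .nil)) 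
(.lf (nat_lit 67626) (.g (nat_lit 2348) (.e (nat_lit 1634) (nat_lit 114) (.e (nat_lit 385093) (nat_lit 49) (.e (nat_lit 778317) (nat_lit 3) (.e (nat_lit 57476) (nat_lit 28) (.e (nat_lit 557107) (nat_lit 15) (.e (nat_lit 188447) (nat_lit 22) (.e (nat_lit 196630) (nat_lit 9) .nil))))))) (.g (nat_lit 4) .nil .nil)))) (.nd (nat_lit 5) 
(.lf (nat_lit 67610) (.g (nat_lit 2708) (.e (nat_lit 1634) (nat_lit 114) (.e (nat_lit 385074) (nat_lit 31) (.e (nat_lit 573484) (nat_lit 13) (.e (nat_lit 65617) (nat_lit 10) (.e (nat_lit 344133) (nat_lit 26) .nil))))) .nil)) 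
(.lf (nat_lit 67642) (.g (nat_lit 2051) (.e (nat_lit 1634) (nat_lit 114) (.e (nat_lit 385094) (nat_lit 49) (.e (nat_lit 778317) (nat_lit 3) (.e (nat_lit 57476) (nat_lit 28) (.e (nat_lit 557108) (nat_lit 15) (.e (nat_lit 188433) (nat_lit 20) (.e (nat_lit 3130) (nat_lit 193) (.e (nat_lit 499962) (nat_lit 14) .nil)))))))) (.g (nat_lit 4) .nil .nil)))))) 
(.nd (nat_lit 3) (.nd (nat_lit 4) (.nd (nat_lit 5) 
(.lf (nat_lit 67590) (.g (nat_lit 4121) (.e (nat_lit 1634) (nat_lit 114) (.e (nat_lit 385068) (nat_lit 26) (.e (nat_lit 532545) (nat_lit 10) (.e (nat_lit 344133) (nat_lit 26) (.e (nat_lit 557105) (nat_lit 14) (.e (nat_lit 180248) (nat_lit 9) (.e (nat_lit 565252) (nat_lit 0) .nil))))))) (.g (nat_lit 6) .nil .nil))) 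
(.lf (nat_lit 67622) (.g (nat_lit 2091) (.e (nat_lit 1634) (nat_lit 114) (.e (nat_lit 385074) (nat_lit 31) (.e (nat_lit 573493) (nat_lit 15) (.e (nat_lit 81954) (nat_lit 23) .nil)))) .nil))) (.nd (nat_lit 5) 
(.lf (nat_lit 67606) (.g (nat_lit 3393) (.e (nat_lit 1634) (nat_lit 114) (.e (nat_lit 385074) (nat_lit 31) (.e (nat_lit 573484) (nat_lit 13) (.e (nat_lit 65617) (nat_lit 10) (.e (nat_lit 344130) (nat_lit 26) (.e (nat_lit 557090) (nat_lit 12) (.e (nat_lit 164013) (nat_lit 43) (.e (nat_lit 679946) (nat_lit 5) .nil)))))))) (.g (nat_lit 5) .nil .nil))) 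
(.lf (nat_lit 67638) (.g (nat_lit 2105) (.e (nat_lit 1634) (nat_lit 114) (.e (nat_lit 385094) (nat_lit 49) (.e (nat_lit 778317) (nat_lit 3) (.e (nat_lit 57476) (nat_lit 28) (.e (nat_lit 557108) (nat_lit 15) (.e (nat_lit 188433) (nat_lit 20) (.e (nat_lit 3123) (nat_lit 193) (.e (nat_lit 499962) (nat_lit 14) .nil)))))))) (.g (nat_lit 4) .nil .nil))))) (.nd (nat_lit 4) (.nd (nat_lit 5) 
(.lf (nat_lit 67598) (.g (nat_lit 2475) (.e (nat_lit 1634) (nat_lit 114) (.e (nat_lit 385074) (nat_lit 31) (.e (nat_lit 573484) (nat_lit 13) (.e (nat_lit 65610) (nat_lit 10) (.e (nat_lit 344115) (nat_lit 20) (.e (nat_lit 507907) (nat_lit 0) (.e (nat_lit 5258) (nat_lit 298) .nil))))))) (.g (nat_lit 5) .nil .nil))) 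
(.lf (nat_lit 67630) (.g (nat_lit 2178) (.e (nat_lit 1634) (nat_lit 114) (.e (nat_lit 385093) (nat_lit 49) (.e (nat_lit 778317) (nat_lit 3) (.e (nat_lit 57477) (nat_lit 28) (.e (nat_lit 557108) (nat_lit 15) .nil))))) .nil))) (.nd (nat_lit 5) 
(.lf (nat_lit 67614) (.g (nat_lit 2980) (.e (nat_lit 1634) (nat_lit 114) (.e (nat_lit 385074) (nat_lit 31) (.e (nat_lit 573485) (nat_lit 13) (.e (nat_lit 65619) (nat_lit 10) (.e (nat_lit 344115) (nat_lit 20) (.e (nat_lit 507906) (nat_lit 0) (.e (nat_lit 5257) (nat_lit 298) .nil))))))) (.g (nat_lit 0) .nil .nil))) 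
(.lf (nat_lit 67646) (.g (nat_lit 2050) (.e (nat_lit 1634) (nat_lit 114) (.e (nat_lit 385094) (nat_lit 49) (.e (nat_lit 778317) (nat_lit 3) (.e (nat_lit 57476) (nat_lit 28) (.e (nat_lit 557108) (nat_lit 15) (.e (nat_lit 188433) (nat_lit 20) (.e (nat_lit 3148) (nat_lit 193) (.e (nat_lit 499962) (nat_lit 14) .nil)))))))) (.g (nat_lit 4) .nil .nil)))))))) 
(.nd (nat_lit 1) (.nd (nat_lit 2) (.nd (nat_lit 3) (.nd (nat_lit 4) (.nd (nat_lit 5) 
(.lf (nat_lit 67585) (.g (nat_lit 3754) (.e (nat_lit 1634) (nat_lit 114) (.e (nat_lit 385068) (nat_lit 26) (.e (nat_lit 532545) (nat_lit 10) (.e (nat_lit 344132) (nat_lit 26) (.e (nat_lit 557100) (nat_lit 13) (.e (nat_lit 172049) (nat_lit 0) (.e (nat_lit 3289) (nat_lit 201) (.e (nat_lit 565252) (nat_lit 0) .nil)))))))) (.g (nat_lit 5) .nil .nil))) 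
(.lf (nat_lit 67617) (.g (nat_lit 2021) (.e (nat_lit 1634) (nat_lit 114) (.e (nat_lit 385074) (nat_lit 31) (.e (nat_lit 573485) (nat_lit 13) (.e (nat_lit 65619) (nat_lit 10) (.e (nat_lit 344117) (nat_lit 21) .nil))))) .nil))) (.nd (nat_lit 5) 
(.lf (nat_lit 67601) (.g (nat_lit 2404) (.e (nat_lit 1634) (nat_lit 114) (.e (nat_lit 385074) (nat_lit 31) (.e (nat_lit 573484) (nat_lit 13) (.e (nat_lit 65610) (nat_lit 10) (.e (nat_lit 344115) (nat_lit 20) (.e (nat_lit 507908) (nat_lit 0) (.e (nat_lit 5258) (nat_lit 298) .nil))))))) (.g (nat_lit 5) .nil .nil))) 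
(.lf (nat_lit 67633) (.g (nat_lit 964) (.e (nat_lit 1634) (nat_lit 114) (.e (nat_lit 385093) (nat_lit 49) (.e (nat_lit 778323) (nat_lit 5) .nil))) .nil)))) (.nd (nat_lit 4) (.nd (nat_lit 5) 
(.lf (nat_lit 67593) (.g (nat_lit 2566) (.e (nat_lit 1634) (nat_lit 114) (.e (nat_lit 385068) (nat_lit 26) (.e (nat_lit 532555) (nat_lit 13) (.e (nat_lit 368682) (nat_lit 26) (.e (nat_lit 557105) (nat_lit 14) (.e (nat_lit 180248) (nat_lit 9) (.e (nat_lit 565252) (nat_lit 0) .nil))))))) (.g (nat_lit 5) .nil .nil))) 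
(.lf (nat_lit 67625) (.g (nat_lit 3084) (.e (nat_lit 1634) (nat_lit 114) (.e (nat_lit 385093) (nat_lit 49) (.e (nat_lit 778317) (nat_lit 3) (.e (nat_lit 57476) (nat_lit 28) (.e (nat_lit 557097) (nat_lit 13) (.e (nat_lit 172097) (nat_lit 9) (.e (nat_lit 426125) (nat_lit 2) (.e (nat_lit 196630) (nat_lit 9) .nil)))))))) (.g (nat_lit 5) .nil .nil)))) (.nd (nat_lit 5) 
(.lf (nat_lit 67609) (.g (nat_lit 3052) (.e (nat_lit 1634) (nat_lit 114) (.e (nat_lit 385074) (nat_lit 31) (.e (nat_lit 573484) (nat_lit 13) (.e (nat_lit 65617) (nat_lit 10) (.e (nat_lit 344130) (nat_lit 26) (.e (nat_lit 557090) (nat_lit 12) (.e (nat_lit 164015) (nat_lit 43) (.e (nat_lit 679945) (nat_lit 5) .nil)))))))) (.g (nat_lit 4) .nil .nil))) 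
(.lf (nat_lit 67641) (.g (nat_lit 2063) (.e (nat_lit 1634) (nat_lit 114) (.e (nat_lit 385094) (nat_lit 49) (.e (nat_lit 778317) (nat_lit 3) (.e (nat_lit 57476) (nat_lit 28) (.e (nat_lit 557108) (nat_lit 15) (.e (nat_lit 188433) (nat_lit 20) (.e (nat_lit 3128) (nat_lit 193) (.e (nat_lit 499962) (nat_lit 14) .nil)))))))) (.g (nat_lit 4) .nil .nil)))))) 
(.nd (nat_lit 3) (.nd (nat_lit 4) (.nd (nat_lit 5) 
(.lf (nat_lit 67589) (.g (nat_lit 3664) (.e (nat_lit 1634) (nat_lit 114) (.e (nat_lit 385068) (nat_lit 26) (.e (nat_lit 532545) (nat_lit 10) (.e (nat_lit 344133) (nat_lit 26) (.e (nat_lit 557098) (nat_lit 13) (.e (nat_lit 172051) (nat_lit 0) (.e (nat_lit 3289) (nat_lit 201) (.e (nat_lit 565252) (nat_lit 0) .nil)))))))) (.g (nat_lit 5) .nil .nil))) 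
(.lf (nat_lit 67621) (.g (nat_lit 2636) (.e (nat_lit 1634) (nat_lit 114) (.e (nat_lit 385074) (nat_lit 31) (.e (nat_lit 573493) (nat_lit 15) (.e (nat_lit 81953) (nat_lit 22) (.e (nat_lit 90165) (nat_lit 12) .nil))))) .nil))) (.nd (nat_lit 5) 
(.lf (nat_lit 67605) (.g (nat_lit 2857) (.e (nat_lit 1634) (nat_lit 114) (.e (nat_lit 385074) (nat_lit 31) (.e (nat_lit 573484) (nat_lit 13) (.e (nat_lit 65617) (nat_lit 10) (.e (nat_lit 344130) (nat_lit 26) (.e (nat_lit 557090) (nat_lit 12) (.e (nat_lit 164013) (nat_lit 43) (.e (nat_lit 679944) (nat_lit 5) .nil)))))))) (.g (nat_lit 4) .nil .nil))) 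
(.lf (nat_lit 67637) (.g (nat_lit 2133) (.e (nat_lit 1634) (nat_lit 114) (.e (nat_lit 385094) (nat_lit 49) (.e (nat_lit 778317) (nat_lit 3) (.e (nat_lit 57476) (nat_lit 28) (.e (nat_lit 557108) (nat_lit 15) (.e (nat_lit 188433) (nat_lit 20) (.e (nat_lit 3122) (nat_lit 193) (.e (nat_lit 499962) (nat_lit 14) .nil)))))))) (.g (nat_lit 4) .nil .nil))))) (.nd (nat_lit 4) (.nd (nat_lit 5) 
(.lf (nat_lit 67597) (.g (nat_lit 2122) (.e (nat_lit 1634) (nat_lit 114) (.e (nat_lit 385074) (nat_lit 31) (.e (nat_lit 573484) (nat_lit 13) (.e (nat_lit 65610) (nat_lit 10) (.e (nat_lit 344115) (nat_lit 20) (.e (nat_lit 507907) (nat_lit 0) (.e (nat_lit 5256) (nat_lit 298) .nil))))))) (.g (nat_lit 4) .nil .nil))) 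
(.lf (nat_lit 67629) (.g (nat_lit 2296) (.e (nat_lit 1634) (nat_lit 114) (.e (nat_lit 385093) (nat_lit 49) (.e (nat_lit 778317) (nat_lit 3) (.e (nat_lit 57477) (nat_lit 28) (.e (nat_lit 557107) (nat_lit 15) (.e (nat_lit 188447) (nat_lit 22) (.e (nat_lit 196630) (nat_lit 9) .nil))))))) (.g (nat_lit 4) .nil .nil)))) (.nd (nat_lit 5) 
(.lf (nat_lit 67613) (.g (nat_lit 3202) (.e (nat_lit 1634) (nat_lit 114) (.e (nat_lit 385074) (nat_lit 31) (.e (nat_lit 573485) (nat_lit 13) (.e (nat_lit 65604) (nat_lit 9) (.e (nat_lit 336028) (nat_lit 3) (.e (nat_lit 98325) (nat_lit 17) (.e (nat_lit 7936) (nat_lit 402) .nil))))))) (.g (nat_lit 6) .nil .nil))) 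
(.lf (nat_lit 67645) (.g (nat_lit 2024) (.e (nat_lit 1634) (nat_lit 114) (.e (nat_lit 385094) (nat_lit 49) (.e (nat_lit 778317) (nat_lit 3) (.e (nat_lit 57476) (nat_lit 28) (.e (nat_lit 557108) (nat_lit 15) (.e (nat_lit 188433) (nat_lit 20) (.e (nat_lit 3142) (nat_lit 193) (.e (nat_lit 499962) (nat_lit 14) .nil)))))))) (.g (nat_lit 4) .nil .nil))))))) 
(.nd (nat_lit 2) (.nd (nat_lit 3) (.nd (nat_lit 4) (.nd (nat_lit 5) 
(.lf (nat_lit 67587) (.g (nat_lit 3383) (.e (nat_lit 1634) (nat_lit 114) (.e (nat_lit 385068) (nat_lit 26) (.e (nat_lit 532545) (nat_lit 10) (.e (nat_lit 344132) (nat_lit 26) (.e (nat_lit 557101) (nat_lit 13) (.e (nat_lit 172051) (nat_lit 0) (.e (nat_lit 3289) (nat_lit 201) (.e (nat_lit 565252) (nat_lit 0) .nil)))))))) (.g (nat_lit 7) .nil .nil))) 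
(.lf (nat_lit 67619) (.g (nat_lit 2251) (.e (nat_lit 1634) (nat_lit 114) (.e (nat_lit 385074) (nat_lit 31) (.e (nat_lit 573485) (nat_lit 13) (.e (nat_lit 65619) (nat_lit 10) (.e (nat_lit 344117) (nat_lit 21) (.e (nat_lit 516098) (nat_lit 0) (.e (nat_lit 7486) (nat_lit 402) .nil))))))) (.g (nat_lit 4) .nil .nil)))) (.nd (nat_lit 5) 
(.lf (nat_lit 67603) (.g (nat_lit 2978) (.e (nat_lit 1634) (nat_lit 114) (.e (nat_lit 385074) (nat_lit 31) (.e (nat_lit 573484) (nat_lit 13) (.e (nat_lit 65617) (nat_lit 10) (.e (nat_lit 344115) (nat_lit 20) .nil))))) .nil)) 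
(.lf (nat_lit 67635) (.g (nat_lit 1708) (.e (nat_lit 1634) (nat_lit 114) (.e (nat_lit 385094) (nat_lit 49) (.e (nat_lit 778317) (nat_lit 3) (.e (nat_lit 57476) (nat_lit 28) (.e (nat_lit 557107) (nat_lit 15) .nil))))) .nil)))) (.nd (nat_lit 4) (.nd (nat_lit 5) 
(.lf (nat_lit 67595) (.g (nat_lit 1602) (.e (nat_lit 1634) (nat_lit 114) (.e (nat_lit 385068) (nat_lit 26) (.e (nat_lit 532560) (nat_lit 14) (.e (nat_lit 376842) (nat_lit 11) .nil)))) .nil)) 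
(.lf (nat_lit 67627) (.g (nat_lit 2429) (.e (nat_lit 1634) (nat_lit 114) (.e (nat_lit 385093) (nat_lit 49) (.e (nat_lit 778317) (nat_lit 3) (.e (nat_lit 57476) (nat_lit 28) (.e (nat_lit 557108) (nat_lit 15) .nil))))) .nil))) (.nd (nat_lit 5) 
(.lf (nat_lit 67611) (.g (nat_lit 701) (.e (nat_lit 1634) (nat_lit 114) (.e (nat_lit 385074) (nat_lit 31) (.e (nat_lit 573485) (nat_lit 13) .nil))) .nil)) 
(.lf (nat_lit 67643) (.g (nat_lit 1944) (.e (nat_lit 1634) (nat_lit 114) (.e (nat_lit 385094) (nat_lit 49) (.e (nat_lit 778317) (nat_lit 3) (.e (nat_lit 57476) (nat_lit 28) (.e (nat_lit 557108) (nat_lit 15) (.e (nat_lit 188433) (nat_lit 20) (.e (nat_lit 3133) (nat_lit 193) (.e (nat_lit 499962) (nat_lit 14) .nil)))))))) (.g (nat_lit 4) .nil .nil)))))) 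
(.nd (nat_lit 3) (.nd (nat_lit 4) (.nd (nat_lit 5) 
(.lf (nat_lit 67591) (.g (nat_lit 1581) (.e (nat_lit 1634) (nat_lit 114) (.e (nat_lit 385068) (nat_lit 26) (.e (nat_lit 540416) (nat_lit 10) (.e (nat_lit 344133) (nat_lit 26) (.e (nat_lit 557098) (nat_lit 13) (.e (nat_lit 172051) (nat_lit 0) (.e (nat_lit 3289) (nat_lit 201) (.e (nat_lit 565252) (nat_lit 0) .nil)))))))) (.g (nat_lit 4) .nil .nil))) 
(.lf (nat_lit 67623) (.g (nat_lit 3386) (.e (nat_lit 1634) (nat_lit 114) (.e (nat_lit 385074) (nat_lit 31) (.e (nat_lit 573493) (nat_lit 15) (.e (nat_lit 81956) (nat_lit 23) (.e (nat_lit 98320) (nat_lit 17) .nil))))) .nil))) (.nd (nat_lit 5) 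
(.lf (nat_lit 67607) (.g (nat_lit 3694) (.e (nat_lit 1634) (nat_lit 114) (.e (nat_lit 385074) (nat_lit 31) (.e (nat_lit 573484) (nat_lit 13) (.e (nat_lit 65617) (nat_lit 10) (.e (nat_lit 344130) (nat_lit 26) (.e (nat_lit 557090) (nat_lit 12) (.e (nat_lit 164014) (nat_lit 43) (.e (nat_lit 679944) (nat_lit 5) .nil)))))))) (.g (nat_lit 5) .nil .nil))) 
(.lf (nat_lit 67639) (.g (nat_lit 2056) (.e (nat_lit 1634) (nat_lit 114) (.e (nat_lit 385094) (nat_lit 49) (.e (nat_lit 778317) (nat_lit 3) (.e (nat_lit 57476) (nat_lit 28) (.e (nat_lit 557108) (nat_lit 15) (.e (nat_lit 188433) (nat_lit 20) (.e (nat_lit 3126) (nat_lit 193) (.e (nat_lit 499962) (nat_lit 14) .nil)))))))) (.g (nat_lit 4) .nil .nil))))) (.nd (nat_lit 4) (.nd (nat_lit 5) 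
(.lf (nat_lit 67599) (.g (nat_lit 2514) (.e (nat_lit 1634) (nat_lit 114) (.e (nat_lit 385074) (nat_lit 31) (.e (nat_lit 573484) (nat_lit 13) (.e (nat_lit 65610) (nat_lit 10) (.e (nat_lit 344115) (nat_lit 20) (.e (nat_lit 507908) (nat_lit 0) (.e (nat_lit 5256) (nat_lit 298) .nil))))))) (.g (nat_lit 5) .nil .nil))) 
(.lf (nat_lit 67631) (.g (nat_lit 3031) (.e (nat_lit 1634) (nat_lit 114) (.e (nat_lit 385093) (nat_lit 49) (.e (nat_lit 778317) (nat_lit 3) (.e (nat_lit 57477) (nat_lit 28) (.e (nat_lit 557108) (nat_lit 15) (.e (nat_lit 188449) (nat_lit 22) (.e (nat_lit 196630) (nat_lit 9) .nil))))))) (.g (nat_lit 5) .nil .nil)))) (.nd (nat_lit 5) 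
(.lf (nat_lit 67615) (.g (nat_lit 2573) (.e (nat_lit 1634) (nat_lit 114) (.e (nat_lit 385074) (nat_lit 31) (.e (nat_lit 573485) (nat_lit 13) (.e (nat_lit 65619) (nat_lit 10) (.e (nat_lit 344115) (nat_lit 20) (.e (nat_lit 507907) (nat_lit 0) (.e (nat_lit 5256) (nat_lit 298) .nil))))))) (.g (nat_lit 6) .nil .nil))) 
(.lf (nat_lit 67647) (.g (nat_lit 2210) (.e (nat_lit 1634) (nat_lit 114) (.e (nat_lit 385094) (nat_lit 49) (.e (nat_lit 778317) (nat_lit 3) (.e (nat_lit 57476) (nat_lit 28) (.e (nat_lit 557108) (nat_lit 15) (.e (nat_lit 188434) (nat_lit 20) (.e (nat_lit 3107) (nat_lit 193) (.e (nat_lit 499969) (nat_lit 14) .nil)))))))) (.g (nat_lit 4) .nil .nil)))))))))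

noncomputable def tv933 : DT := (.nd (nat_lit 0) (.nd (nat_lit 1) (.nd (nat_lit 2) (.nd (nat_lit 3) (.nd (nat_lit 4) (.nd (nat_lit 5) 
(.lf (nat_lit 67648) (.g (nat_lit 2074) (.e (nat_lit 1634) (nat_lit 114) (.e (nat_lit 385094) (nat_lit 49) (.e (nat_lit 778317) (nat_lit 3) (.e (nat_lit 57476) (nat_lit 28) (.e (nat_lit 557108) (nat_lit 15) (.e (nat_lit 188434) (nat_lit 20) (.e (nat_lit 3144) (nat_lit 193) (.e (nat_lit 499969) (nat_lit 14) .nil)))))))) (.g (nat_lit 4) .nil .nil))) 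
(.lf (nat_lit 67680) (.g (nat_lit 2309) (.e (nat_lit 1635) (nat_lit 114) (.e (nat_lit 385068) (nat_lit 26) (.e (nat_lit 532501) (nat_lit 1) (.e (nat_lit 57829) (nat_lit 250) .nil)))) .nil))) (.nd (nat_lit 5) 
(.lf (nat_lit 67664) (.g (nat_lit 1754) (.e (nat_lit 1634) (nat_lit 114) (.e (nat_lit 385094) (nat_lit 49) (.e (nat_lit 778317) (nat_lit 3) (.e (nat_lit 57480) (nat_lit 28) (.e (nat_lit 557107) (nat_lit 15) .nil))))) .nil)) 
(.lf (nat_lit 67696) (.g (nat_lit 1844) (.e (nat_lit 1635) (nat_lit 114) (.e (nat_lit 385073) (nat_lit 31) (.e (nat_lit 573493) (nat_lit 15) (.e (nat_lit 81962) (nat_lit 25) (.e (nat_lit 139289) (nat_lit 9) .nil))))) .nil)))) (.nd (nat_lit 4) (.nd (nat_lit 5) 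
(.lf (nat_lit 67656) (.g (nat_lit 1978) (.e (nat_lit 1634) (nat_lit 114) (.e (nat_lit 385094) (nat_lit 49) (.e (nat_lit 778317) (nat_lit 3) (.e (nat_lit 57477) (nat_lit 28) (.e (nat_lit 557108) (nat_lit 15) (.e (nat_lit 188434) (nat_lit 20) (.e (nat_lit 3143) (nat_lit 193) (.e (nat_lit 499969) (nat_lit 14) .nil)))))))) (.g (nat_lit 4) .nil .nil))) 
(.lf (nat_lit 67688) (.g (nat_lit 3564) (.e (nat_lit 1635) (nat_lit 114) (.e (nat_lit 385073) (nat_lit 31) (.e (nat_lit 573485) (nat_lit 13) (.e (nat_lit 65619) (nat_lit 10) (.e (nat_lit 344117) (nat_lit 21) (.e (nat_lit 516097) (nat_lit 0) (.e (nat_lit 7542) (nat_lit 402) .nil))))))) (.g (nat_lit 7) .nil .nil)))) (.nd (nat_lit 5) 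
(.lf (nat_lit 67672) (.g (nat_lit 2762) (.e (nat_lit 1634) (nat_lit 114) (.e (nat_lit 385094) (nat_lit 49) (.e (nat_lit 778318) (nat_lit 3) (.e (nat_lit 57476) (nat_lit 28) (.e (nat_lit 557108) (nat_lit 15) (.e (nat_lit 188449) (nat_lit 22) (.e (nat_lit 196630) (nat_lit 9) .nil))))))) (.g (nat_lit 4) .nil .nil))) 
(.lf (nat_lit 67704) (.g (nat_lit 2295) (.e (nat_lit 1635) (nat_lit 114) (.e (nat_lit 385074) (nat_lit 31) (.e (nat_lit 573485) (nat_lit 13) (.e (nat_lit 65619) (nat_lit 10) (.e (nat_lit 344117) (nat_lit 21) (.e (nat_lit 516097) (nat_lit 0) (.e (nat_lit 7516) (nat_lit 402) .nil))))))) (.g (nat_lit 4) .nil .nil)))))) (.nd (nat_lit 3) (.nd (nat_lit 4) (.nd (nat_lit 5) 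
(.lf (nat_lit 67652) (.g (nat_lit 1377) (.e (nat_lit 1634) (nat_lit 114) (.e (nat_lit 385094) (nat_lit 49) (.e (nat_lit 778317) (nat_lit 3) (.e (nat_lit 57477) (nat_lit 28) .nil)))) .nil)) 
(.lf (nat_lit 67684) (.g (nat_lit 3813) (.e (nat_lit 1635) (nat_lit 114) (.e (nat_lit 385073) (nat_lit 31) (.e (nat_lit 573482) (nat_lit 13) (.e (nat_lit 65619) (nat_lit 10) (.e (nat_lit 344117) (nat_lit 21) (.e (nat_lit 516097) (nat_lit 0) (.e (nat_lit 7542) (nat_lit 402) .nil))))))) (.g (nat_lit 7) .nil .nil)))) (.nd (nat_lit 5) 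
(.lf (nat_lit 67668) (.g (nat_lit 2930) (.e (nat_lit 1634) (nat_lit 114) (.e (nat_lit 385094) (nat_lit 49) (.e (nat_lit 778317) (nat_lit 3) (.e (nat_lit 57480) (nat_lit 28) (.e (nat_lit 557109) (nat_lit 15) (.e (nat_lit 188449) (nat_lit 22) (.e (nat_lit 204544) (nat_lit 9) .nil))))))) (.g (nat_lit 6) .nil .nil))) 
(.lf (nat_lit 67700) (.g (nat_lit 4453) (.e (nat_lit 1635) (nat_lit 114) (.e (nat_lit 385074) (nat_lit 31) (.e (nat_lit 573484) (nat_lit 13) (.e (nat_lit 65610) (nat_lit 10) (.e (nat_lit 344117) (nat_lit 21) (.e (nat_lit 516106) (nat_lit 0) (.e (nat_lit 7556) (nat_lit 402) .nil))))))) (.g (nat_lit 0) .nil .nil))))) (.nd (nat_lit 4) (.nd (nat_lit 5) 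
(.lf (nat_lit 67660) (.g (nat_lit 2884) (.e (nat_lit 1634) (nat_lit 114) (.e (nat_lit 385094) (nat_lit 49) (.e (nat_lit 778317) (nat_lit 3) (.e (nat_lit 57477) (nat_lit 28) (.e (nat_lit 557108) (nat_lit 15) (.e (nat_lit 188449) (nat_lit 22) (.e (nat_lit 204544) (nat_lit 9) .nil))))))) (.g (nat_lit 6) .nil .nil))) 
(.lf (nat_lit 67692) (.g (nat_lit 4128) (.e (nat_lit 1635) (nat_lit 114) (.e (nat_lit 385073) (nat_lit 31) (.e (nat_lit 573493) (nat_lit 15) (.e (nat_lit 81956) (nat_lit 23) (.e (nat_lit 98319) (nat_lit 17) .nil))))) .nil))) (.nd (nat_lit 5) 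
(.lf (nat_lit 67676) (.g (nat_lit 449) (.e (nat_lit 1635) (nat_lit 114) (.e (nat_lit 385066) (nat_lit 26) (.e (nat_lit 532533) (nat_lit 9) .nil))) .nil)) 
(.lf (nat_lit 67708) (.g (nat_lit 4147) (.e (nat_lit 1635) (nat_lit 114) (.e (nat_lit 385074) (nat_lit 31) (.e (nat_lit 573485) (nat_lit 13) (.e (nat_lit 65619) (nat_lit 10) (.e (nat_lit 344117) (nat_lit 21) (.e (nat_lit 516106) (nat_lit 0) (.e (nat_lit 7556) (nat_lit 402) .nil))))))) (.g (nat_lit 0) .nil .nil))))))) (.nd (nat_lit 2) (.nd (nat_lit 3) (.nd (nat_lit 4) (.nd (nat_lit 5) 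
(.lf (nat_lit 67650) (.g (nat_lit 3241) (.e (nat_lit 1634) (nat_lit 114) (.e (nat_lit 385094) (nat_lit 49) (.e (nat_lit 778317) (nat_lit 3) (.e (nat_lit 57476) (nat_lit 28) (.e (nat_lit 557108) (nat_lit 15) (.e (nat_lit 188449) (nat_lit 22) (.e (nat_lit 204544) (nat_lit 9) .nil))))))) (.g (nat_lit 6) .nil .nil))) 
(.lf (nat_lit 67682) (.g (nat_lit 1528) (.e (nat_lit 1635) (nat_lit 114) (.e (nat_lit 385072) (nat_lit 31) (.e (nat_lit 573484) (nat_lit 13) (.e (nat_lit 65610) (nat_lit 10) (.e (nat_lit 344117) (nat_lit 21) .nil))))) .nil))) (.nd (nat_lit 5) 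
(.lf (nat_lit 67666) (.g (nat_lit 6761) (.e (nat_lit 1634) (nat_lit 114) (.e (nat_lit 385094) (nat_lit 49) (.e (nat_lit 778317) (nat_lit 3) (.e (nat_lit 57480) (nat_lit 28) (.e (nat_lit 557109) (nat_lit 15) (.e (nat_lit 188449) (nat_lit 22) (.e (nat_lit 196623) (nat_lit 9) .nil))))))) (.g (nat_lit 6) .nil .nil))) 
(.lf (nat_lit 67698) (.g (nat_lit 3870) (.e (nat_lit 1635) (nat_lit 114) (.e (nat_lit 385074) (nat_lit 31) (.e (nat_lit 573482) (nat_lit 13) (.e (nat_lit 65604) (nat_lit 9) (.e (nat_lit 336013) (nat_lit 2) (.e (nat_lit 90165) (nat_lit 12) (.e (nat_lit 164239) (nat_lit 187) .nil))))))) (.g (nat_lit 4) .nil .nil))))) (.nd (nat_lit 4) (.nd (nat_lit 5) 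
(.lf (nat_lit 67658) (.g (nat_lit 1918) (.e (nat_lit 1634) (nat_lit 114) (.e (nat_lit 385094) (nat_lit 49) (.e (nat_lit 778317) (nat_lit 3) (.e (nat_lit 57477) (nat_lit 28) (.e (nat_lit 557108) (nat_lit 15) (.e (nat_lit 188434) (nat_lit 20) (.e (nat_lit 3146) (nat_lit 193) (.e (nat_lit 499969) (nat_lit 14) .nil)))))))) (.g (nat_lit 4) .nil .nil))) 
(.lf (nat_lit 67690) (.g (nat_lit 2828) (.e (nat_lit 1635) (nat_lit 114) (.e (nat_lit 385073) (nat_lit 31) (.e (nat_lit 573493) (nat_lit 15) (.e (nat_lit 81951) (nat_lit 22) (.e (nat_lit 90165) (nat_lit 12) .nil))))) .nil))) (.nd (nat_lit 5) 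
(.lf (nat_lit 67674) (.g (nat_lit 1207) (.e (nat_lit 1634) (nat_lit 114) (.e (nat_lit 385094) (nat_lit 49) (.e (nat_lit 778323) (nat_lit 5) (.e (nat_lit 81664) (nat_lit 37) .nil)))) .nil)) 
(.lf (nat_lit 67706) (.g (nat_lit 4330) (.e (nat_lit 1635) (nat_lit 114) (.e (nat_lit 385074) (nat_lit 31) (.e (nat_lit 573485) (nat_lit 13) (.e (nat_lit 65619) (nat_lit 10) (.e (nat_lit 344117) (nat_lit 21) (.e (nat_lit 516097) (nat_lit 0) (.e (nat_lit 7542) (nat_lit 402) .nil))))))) (.g (nat_lit 7) .nil .nil)))))) (.nd (nat_lit 3) (.nd (nat_lit 4) (.nd (nat_lit 5) 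
(.lf (nat_lit 67654) (.g (nat_lit 1861) (.e (nat_lit 1634) (nat_lit 114) (.e (nat_lit 385094) (nat_lit 49) (.e (nat_lit 778317) (nat_lit 3) (.e (nat_lit 57477) (nat_lit 28) (.e (nat_lit 557108) (nat_lit 15) (.e (nat_lit 188434) (nat_lit 20) (.e (nat_lit 3107) (nat_lit 193) (.e (nat_lit 499969) (nat_lit 14) .nil)))))))) (.g (nat_lit 4) .nil .nil))) 
(.lf (nat_lit 67686) (.g (nat_lit 3207) (.e (nat_lit 1635) (nat_lit 114) (.e (nat_lit 385073) (nat_lit 31) (.e (nat_lit 573484) (nat_lit 13) (.e (nat_lit 65610) (nat_lit 10) (.e (nat_lit 344117) (nat_lit 21) (.e (nat_lit 516106) (nat_lit 0) (.e (nat_lit 7556) (nat_lit 402) .nil))))))) (.g (nat_lit 0) .nil .nil)))) (.nd (nat_lit 5) 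
(.lf (nat_lit 67670) (.g (nat_lit 1929) (.e (nat_lit 1634) (nat_lit 114) (.e (nat_lit 385094) (nat_lit 49) (.e (nat_lit 778318) (nat_lit 3) (.e (nat_lit 57476) (nat_lit 28) .nil)))) .nil)) 
(.lf (nat_lit 67702) (.g (nat_lit 3026) (.e (nat_lit 1635) (nat_lit 114) (.e (nat_lit 385074) (nat_lit 31) (.e (nat_lit 573485) (nat_lit 13) (.e (nat_lit 65604) (nat_lit 9) (.e (nat_lit 336028) (nat_lit 3) (.e (nat_lit 98325) (nat_lit 17) (.e (nat_lit 7554) (nat_lit 402) .nil))))))) (.g (nat_lit 6) .nil .nil))))) (.nd (nat_lit 4) (.nd (nat_lit 5) 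
(.lf (nat_lit 67662) (.g (nat_lit 1520) (.e (nat_lit 1634) (nat_lit 114) (.e (nat_lit 385094) (nat_lit 49) (.e (nat_lit 778317) (nat_lit 3) (.e (nat_lit 57479) (nat_lit 28) .nil)))) .nil)) 
(.lf (nat_lit 67694) (.g (nat_lit 3411) (.e (nat_lit 1635) (nat_lit 114) (.e (nat_lit 385073) (nat_lit 31) (.e (nat_lit 573493) (nat_lit 15) (.e (nat_lit 81956) (nat_lit 23) (.e (nat_lit 98321) (nat_lit 17) (.e (nat_lit 7936) (nat_lit 402) .nil)))))) (.g (nat_lit 5) .nil .nil)))) (.nd (nat_lit 5) 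
(.lf (nat_lit 67678) (.g (nat_lit 2195) (.e (nat_lit 1635) (nat_lit 114) (.e (nat_lit 385066) (nat_lit 26) (.e (nat_lit 532534) (nat_lit 9) (.e (nat_lit 336211) (nat_lit 13) (.e (nat_lit 393252) (nat_lit 18) (.e (nat_lit 164161) (nat_lit 152) (.e (nat_lit 1032) (nat_lit 81) .nil))))))) (.g (nat_lit 4) .nil .nil))) 
(.lf (nat_lit 67710) (.g (nat_lit 2940) (.e (nat_lit 1635) (nat_lit 114) (.e (nat_lit 385074) (nat_lit 31) (.e (nat_lit 573491) (nat_lit 15) (.e (nat_lit 81954) (nat_lit 23) (.e (nat_lit 98325) (nat_lit 17) (.e (nat_lit 7554) (nat_lit 402) .nil)))))) (.g (nat_lit 6) .nil .nil)))))))) (.nd (nat_lit 1) (.nd (nat_lit 2) (.nd (nat_lit 3) (.nd (nat_lit 4) (.nd (nat_lit 5) 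
(.lf (nat_lit 67649) (.g (nat_lit 5185) (.e (nat_lit 1634) (nat_lit 114) (.e (nat_lit 385094) (nat_lit 49) (.e (nat_lit 778317) (nat_lit 3) (.e (nat_lit 57476) (nat_lit 28) (.e (nat_lit 557108) (nat_lit 15) (.e (nat_lit 188449) (nat_lit 22) (.e (nat_lit 196617) (nat_lit 9) .nil))))))) (.g (nat_lit 6) .nil .nil))) 
(.lf (nat_lit 67681) (.g (nat_lit 1998) (.e (nat_lit 1635) (nat_lit 114) (.e (nat_lit 385072) (nat_lit 31) (.e (nat_lit 573481) (nat_lit 13) (.e (nat_lit 65604) (nat_lit 9) (.e (nat_lit 336013) (nat_lit 2) .nil))))) .nil))) (.nd (nat_lit 5) 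
(.lf (nat_lit 67665) (.g (nat_lit 5399) (.e (nat_lit 1634) (nat_lit 114) (.e (nat_lit 385094) (nat_lit 49) (.e (nat_lit 778317) (nat_lit 3) (.e (nat_lit 57480) (nat_lit 28) (.e (nat_lit 557109) (nat_lit 15) (.e (nat_lit 188449) (nat_lit 22) (.e (nat_lit 196617) (nat_lit 9) .nil))))))) (.g (nat_lit 0) .nil .nil))) 
(.lf (nat_lit 67697) (.g (nat_lit 4144) (.e (nat_lit 1635) (nat_lit 114) (.e (nat_lit 385074) (nat_lit 31) (.e (nat_lit 573482) (nat_lit 13) (.e (nat_lit 65604) (nat_lit 9) (.e (nat_lit 336013) (nat_lit 2) (.e (nat_lit 90165) (nat_lit 12) (.e (nat_lit 164238) (nat_lit 187) .nil))))))) (.g (nat_lit 5) .nil .nil))))) (.nd (nat_lit 4) (.nd (nat_lit 5) 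
(.lf (nat_lit 67657) (.g (nat_lit 1725) (.e (nat_lit 1634) (nat_lit 114) (.e (nat_lit 385094) (nat_lit 49) (.e (nat_lit 778317) (nat_lit 3) (.e (nat_lit 57477) (nat_lit 28) (.e (nat_lit 557108) (nat_lit 15) (.e (nat_lit 188434) (nat_lit 20) (.e (nat_lit 3144) (nat_lit 193) (.e (nat_lit 499969) (nat_lit 14) .nil)))))))) (.g (nat_lit 4) .nil .nil))) 
(.lf (nat_lit 67689) (.g (nat_lit 3535) (.e (nat_lit 1635) (nat_lit 114) (.e (nat_lit 385073) (nat_lit 31) (.e (nat_lit 573485) (nat_lit 13) (.e (nat_lit 65619) (nat_lit 10) (.e (nat_lit 344117) (nat_lit 21) (.e (nat_lit 516106) (nat_lit 0) (.e (nat_lit 7556) (nat_lit 402) .nil))))))) (.g (nat_lit 0) .nil .nil)))) (.nd (nat_lit 5) 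
(.lf (nat_lit 67673) (.g (nat_lit 1759) (.e (nat_lit 1634) (nat_lit 114) (.e (nat_lit 385094) (nat_lit 49) (.e (nat_lit 778320) (nat_lit 4) (.e (nat_lit 65630) (nat_lit 14) (.e (nat_lit 401454) (nat_lit 12) .nil))))) .nil)) 
(.lf (nat_lit 67705) (.g (nat_lit 2848) (.e (nat_lit 1635) (nat_lit 114) (.e (nat_lit 385074) (nat_lit 31) (.e (nat_lit 573485) (nat_lit 13) (.e (nat_lit 65619) (nat_lit 10) (.e (nat_lit 344117) (nat_lit 21) (.e (nat_lit 516097) (nat_lit 0) (.e (nat_lit 7540) (nat_lit 402) .nil))))))) (.g (nat_lit 5) .nil .nil)))))) (.nd (nat_lit 3) (.nd (nat_lit 4) (.nd (nat_lit 5) 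
(.lf (nat_lit 67653) (.g (nat_lit 1906) (.e (nat_lit 1634) (nat_lit 114) (.e (nat_lit 385094) (nat_lit 49) (.e (nat_lit 778317) (nat_lit 3) (.e (nat_lit 57477) (nat_lit 28) (.e (nat_lit 557108) (nat_lit 15) (.e (nat_lit 188433) (nat_lit 20) (.e (nat_lit 3107) (nat_lit 193) (.e (nat_lit 499969) (nat_lit 14) .nil)))))))) (.g (nat_lit 4) .nil .nil))) 
(.lf (nat_lit 67685) (.g (nat_lit 3728) (.e (nat_lit 1635) (nat_lit 114) (.e (nat_lit 385073) (nat_lit 31) (.e (nat_lit 573482) (nat_lit 13) (.e (nat_lit 65619) (nat_lit 10) (.e (nat_lit 344117) (nat_lit 21) (.e (nat_lit 516106) (nat_lit 0) (.e (nat_lit 7556) (nat_lit 402) .nil))))))) (.g (nat_lit 0) .nil .nil)))) (.nd (nat_lit 5) 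
(.lf (nat_lit 67669) (.g (nat_lit 4267) (.e (nat_lit 1634) (nat_lit 114) (.e (nat_lit 385094) (nat_lit 49) (.e (nat_lit 778317) (nat_lit 3) (.e (nat_lit 57480) (nat_lit 28) (.e (nat_lit 557109) (nat_lit 15) (.e (nat_lit 188458) (nat_lit 25) (.e (nat_lit 245781) (nat_lit 9) .nil))))))) (.g (nat_lit 6) .nil .nil))) 
(.lf (nat_lit 67701) (.g (nat_lit 2212) (.e (nat_lit 1635) (nat_lit 114) (.e (nat_lit 385074) (nat_lit 31) (.e (nat_lit 573485) (nat_lit 13) (.e (nat_lit 65604) (nat_lit 9) (.e (nat_lit 336013) (nat_lit 2) (.e (nat_lit 90165) (nat_lit 12) (.e (nat_lit 171776) (nat_lit 187) .nil))))))) (.g (nat_lit 4) .nil .nil))))) (.nd (nat_lit 4) (.nd (nat_lit 5) 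
(.lf (nat_lit 67661) (.g (nat_lit 3202) (.e (nat_lit 1634) (nat_lit 114) (.e (nat_lit 385094) (nat_lit 49) (.e (nat_lit 778317) (nat_lit 3) (.e (nat_lit 57477) (nat_lit 28) (.e (nat_lit 557108) (nat_lit 15) (.e (nat_lit 188458) (nat_lit 25) (.e (nat_lit 245781) (nat_lit 9) .nil))))))) (.g (nat_lit 6) .nil .nil))) 
(.lf (nat_lit 67693) (.g (nat_lit 3982) (.e (nat_lit 1635) (nat_lit 114) (.e (nat_lit 385073) (nat_lit 31) (.e (nat_lit 573493) (nat_lit 15) (.e (nat_lit 81956) (nat_lit 23) (.e (nat_lit 98320) (nat_lit 17) .nil))))) .nil))) (.nd (nat_lit 5) 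
(.lf (nat_lit 67677) (.g (nat_lit 1581) (.e (nat_lit 1635) (nat_lit 114) (.e (nat_lit 385066) (nat_lit 26) (.e (nat_lit 532534) (nat_lit 9) (.e (nat_lit 336211) (nat_lit 13) .nil)))) .nil)) 
(.lf (nat_lit 67709) (.g (nat_lit 1986) (.e (nat_lit 1635) (nat_lit 114) (.e (nat_lit 385074) (nat_lit 31) (.e (nat_lit 573491) (nat_lit 15) (.e (nat_lit 81954) (nat_lit 23) (.e (nat_lit 98321) (nat_lit 17) (.e (nat_lit 7936) (nat_lit 402) .nil)))))) (.g (nat_lit 4) .nil .nil))))))) (.nd (nat_lit 2) (.nd (nat_lit 3) (.nd (nat_lit 4) (.nd (nat_lit 5) 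
(.lf (nat_lit 67651) (.g (nat_lit 3519) (.e (nat_lit 1634) (nat_lit 114) (.e (nat_lit 385094) (nat_lit 49) (.e (nat_lit 778317) (nat_lit 3) (.e (nat_lit 57476) (nat_lit 28) (.e (nat_lit 557108) (nat_lit 15) (.e (nat_lit 188458) (nat_lit 25) (.e (nat_lit 245781) (nat_lit 9) .nil))))))) (.g (nat_lit 6) .nil .nil))) 
(.lf (nat_lit 67683) (.g (nat_lit 2559) (.e (nat_lit 1635) (nat_lit 114) (.e (nat_lit 385073) (nat_lit 31) (.e (nat_lit 573482) (nat_lit 13) (.e (nat_lit 65604) (nat_lit 9) (.e (nat_lit 336028) (nat_lit 3) (.e (nat_lit 98325) (nat_lit 17) (.e (nat_lit 7554) (nat_lit 402) .nil))))))) (.g (nat_lit 6) .nil .nil)))) (.nd (nat_lit 5) 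
(.lf (nat_lit 67667) (.g (nat_lit 4677) (.e (nat_lit 1634) (nat_lit 114) (.e (nat_lit 385094) (nat_lit 49) (.e (nat_lit 778317) (nat_lit 3) (.e (nat_lit 57480) (nat_lit 28) (.e (nat_lit 557109) (nat_lit 15) (.e (nat_lit 188449) (nat_lit 22) (.e (nat_lit 196630) (nat_lit 9) .nil))))))) (.g (nat_lit 7) .nil .nil))) 
(.lf (nat_lit 67699) (.g (nat_lit 3563) (.e (nat_lit 1635) (nat_lit 114) (.e (nat_lit 385074) (nat_lit 31) (.e (nat_lit 573482) (nat_lit 13) (.e (nat_lit 65604) (nat_lit 9) (.e (nat_lit 336028) (nat_lit 3) (.e (nat_lit 98325) (nat_lit 17) (.e (nat_lit 7556) (nat_lit 402) .nil))))))) (.g (nat_lit 4) .nil .nil))))) (.nd (nat_lit 4) (.nd (nat_lit 5) 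
(.lf (nat_lit 67659) (.g (nat_lit 4868) (.e (nat_lit 1634) (nat_lit 114) (.e (nat_lit 385094) (nat_lit 49) (.e (nat_lit 778317) (nat_lit 3) (.e (nat_lit 57477) (nat_lit 28) (.e (nat_lit 557108) (nat_lit 15) (.e (nat_lit 188449) (nat_lit 22) (.e (nat_lit 196617) (nat_lit 9) .nil))))))) (.g (nat_lit 6) .nil .nil))) 
(.lf (nat_lit 67691) (.g (nat_lit 3094) (.e (nat_lit 1635) (nat_lit 114) (.e (nat_lit 385073) (nat_lit 31) (.e (nat_lit 573493) (nat_lit 15) (.e (nat_lit 81954) (nat_lit 23) (.e (nat_lit 98325) (nat_lit 17) .nil))))) .nil))) (.nd (nat_lit 5) 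
(.lf (nat_lit 67675) (.g (nat_lit 525) (.e (nat_lit 1634) (nat_lit 114) (.e (nat_lit 385094) (nat_lit 49) (.e (nat_lit 778324) (nat_lit 5) .nil))) .nil)) 
(.lf (nat_lit 67707) (.g (nat_lit 2006) (.e (nat_lit 1635) (nat_lit 114) (.e (nat_lit 385074) (nat_lit 31) (.e (nat_lit 573485) (nat_lit 13) (.e (nat_lit 65619) (nat_lit 10) (.e (nat_lit 344117) (nat_lit 21) (.e (nat_lit 516098) (nat_lit 0) (.e (nat_lit 7545) (nat_lit 402) .nil))))))) (.g (nat_lit 4) .nil .nil)))))) (.nd (nat_lit 3) (.nd (nat_lit 4) (.nd (nat_lit 5) 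
(.lf (nat_lit 67655) (.g (nat_lit 1992) (.e (nat_lit 1634) (nat_lit 114) (.e (nat_lit 385094) (nat_lit 49) (.e (nat_lit 778317) (nat_lit 3) (.e (nat_lit 57477) (nat_lit 28) (.e (nat_lit 557108) (nat_lit 15) (.e (nat_lit 188434) (nat_lit 20) (.e (nat_lit 3134) (nat_lit 193) (.e (nat_lit 499969) (nat_lit 14) .nil)))))))) (.g (nat_lit 4) .nil .nil))) 
(.lf (nat_lit 67687) (.g (nat_lit 2416) (.e (nat_lit 1635) (nat_lit 114) (.e (nat_lit 385073) (nat_lit 31) (.e (nat_lit 573485) (nat_lit 13) (.e (nat_lit 65604) (nat_lit 9) (.e (nat_lit 336028) (nat_lit 3) (.e (nat_lit 98325) (nat_lit 17) (.e (nat_lit 7554) (nat_lit 402) .nil))))))) (.g (nat_lit 6) .nil .nil)))) (.nd (nat_lit 5) 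
(.lf (nat_lit 67671) (.g (nat_lit 2405) (.e (nat_lit 1634) (nat_lit 114) (.e (nat_lit 385094) (nat_lit 49) (.e (nat_lit 778318) (nat_lit 3) (.e (nat_lit 57476) (nat_lit 28) (.e (nat_lit 557107) (nat_lit 15) .nil))))) .nil)) 
(.lf (nat_lit 67703) (.g (nat_lit 2217) (.e (nat_lit 1635) (nat_lit 114) (.e (nat_lit 385074) (nat_lit 31) (.e (nat_lit 573485) (nat_lit 13) (.e (nat_lit 65604) (nat_lit 9) (.e (nat_lit 336028) (nat_lit 3) (.e (nat_lit 98325) (nat_lit 17) (.e (nat_lit 7936) (nat_lit 402) .nil))))))) (.g (nat_lit 4) .nil .nil))))) (.nd (nat_lit 4) (.nd (nat_lit 5) 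
(.lf (nat_lit 67663) (.g (nat_lit 2243) (.e (nat_lit 1634) (nat_lit 114) (.e (nat_lit 385094) (nat_lit 49) (.e (nat_lit 778317) (nat_lit 3) (.e (nat_lit 57479) (nat_lit 28) (.e (nat_lit 557101) (nat_lit 13) (.e (nat_lit 172115) (nat_lit 10) (.e (nat_lit 434219) (nat_lit 19) (.e (nat_lit 499960) (nat_lit 14) .nil)))))))) (.g (nat_lit 4) .nil .nil))) 
(.lf (nat_lit 67695) (.g (nat_lit 2743) (.e (nat_lit 1635) (nat_lit 114) (.e (nat_lit 385073) (nat_lit 31) (.e (nat_lit 573493) (nat_lit 15) (.e (nat_lit 81956) (nat_lit 23) (.e (nat_lit 98325) (nat_lit 17) (.e (nat_lit 7554) (nat_lit 402) .nil)))))) (.g (nat_lit 5) .nil .nil)))) (.nd (nat_lit 5) 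
(.lf (nat_lit 67679) (.g (nat_lit 875) (.e (nat_lit 1635) (nat_lit 114) (.e (nat_lit 385068) (nat_lit 26) (.e (nat_lit 532501) (nat_lit 1) .nil))) .nil)) 
(.lf (nat_lit 67711) (.g (nat_lit 3478) (.e (nat_lit 1635) (nat_lit 114) (.e (nat_lit 385074) (nat_lit 31) (.e (nat_lit 573493) (nat_lit 15) (.e (nat_lit 81951) (nat_lit 22) (.e (nat_lit 90165) (nat_lit 12) .nil))))) .nil))))))))

noncomputable def tv934 : DT := (.nd (nat_lit 0) (.nd (nat_lit 1) (.nd (nat_lit 2) (.nd (nat_lit 3) (.nd (nat_lit 4) (.nd (nat_lit 5) (.nd (nat_lit 6) 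
(.lf (nat_lit 67712) (.g (nat_lit 5435) (.e (nat_lit 1635) (nat_lit 114) (.e (nat_lit 385092) (nat_lit 49) (.e (nat_lit 778317) (nat_lit 3) (.e (nat_lit 57480) (nat_lit 28) (.e (nat_lit 557109) (nat_lit 15) (.e (nat_lit 188449) (nat_lit 22) (.e (nat_lit 196637) (nat_lit 9) .nil))))))) (.g (nat_lit 6) .nil .nil))) 
(.lf (nat_lit 67776) (.g (nat_lit 3280) (.e (nat_lit 1636) (nat_lit 114) (.e (nat_lit 385074) (nat_lit 31) (.e (nat_lit 573493) (nat_lit 15) (.e (nat_lit 81954) (nat_lit 23) (.e (nat_lit 98325) (nat_lit 17) .nil))))) .nil))) (.nd (nat_lit 6) 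
(.lf (nat_lit 67744) (.g (nat_lit 1116) (.e (nat_lit 1636) (nat_lit 114) (.e (nat_lit 385066) (nat_lit 26) (.e (nat_lit 532558) (nat_lit 14) (.e (nat_lit 384768) (nat_lit 12) .nil)))) .nil)) 
(.lf (nat_lit 67808) (.g (nat_lit 1211) (.e (nat_lit 1636) (nat_lit 114) (.e (nat_lit 385109) (nat_lit 51) (.e (nat_lit 794683) (nat_lit 25) .nil))) .nil)))) (.nd (nat_lit 5) (.nd (nat_lit 6) 
(.lf (nat_lit 67728) (.g (nat_lit 3000) (.e (nat_lit 1636) (nat_lit 114) (.e (nat_lit 385066) (nat_lit 26) (.e (nat_lit 532534) (nat_lit 9) (.e (nat_lit 336019) (nat_lit 3) (.e (nat_lit 98341) (nat_lit 20) (.e (nat_lit 221185) (nat_lit 0) (.e (nat_lit 1846) (nat_lit 124) (.e (nat_lit 557056) (nat_lit 0) .nil)))))))) (.g (nat_lit 4) .nil .nil))) 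
(.lf (nat_lit 67792) (.g (nat_lit 1470) (.e (nat_lit 1636) (nat_lit 114) (.e (nat_lit 385093) (nat_lit 49) (.e (nat_lit 778323) (nat_lit 5) (.e (nat_lit 73782) (nat_lit 32) .nil)))) .nil))) (.nd (nat_lit 6) 
(.lf (nat_lit 67760) (.g (nat_lit 4324) (.e (nat_lit 1636) (nat_lit 114) (.e (nat_lit 385074) (nat_lit 31) (.e (nat_lit 573482) (nat_lit 13) (.e (nat_lit 65604) (nat_lit 9) (.e (nat_lit 336013) (nat_lit 2) (.e (nat_lit 90165) (nat_lit 12) (.e (nat_lit 164238) (nat_lit 187) .nil))))))) (.g (nat_lit 5) .nil .nil))) 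
(.lf (nat_lit 67824) (.g (nat_lit 2137) (.e (nat_lit 1637) (nat_lit 114) (.e (nat_lit 385072) (nat_lit 31) (.e (nat_lit 573491) (nat_lit 15) (.e (nat_lit 81951) (nat_lit 22) (.e (nat_lit 90165) (nat_lit 12) .nil))))) .nil))))) (.nd (nat_lit 4) (.nd (nat_lit 5) (.nd (nat_lit 6) 
(.lf (nat_lit 67720) (.g (nat_lit 2689) (.e (nat_lit 1635) (nat_lit 114) (.e (nat_lit 385094) (nat_lit 49) (.e (nat_lit 778317) (nat_lit 3) (.e (nat_lit 57479) (nat_lit 28) (.e (nat_lit 557101) (nat_lit 13) .nil))))) .nil)) 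
(.lf (nat_lit 67784) (.g (nat_lit 3116) (.e (nat_lit 1636) (nat_lit 114) (.e (nat_lit 385093) (nat_lit 49) (.e (nat_lit 778317) (nat_lit 3) (.e (nat_lit 57476) (nat_lit 28) (.e (nat_lit 557108) (nat_lit 15) (.e (nat_lit 188449) (nat_lit 22) (.e (nat_lit 204544) (nat_lit 9) .nil))))))) (.g (nat_lit 6) .nil .nil)))) (.nd (nat_lit 6) 
(.lf (nat_lit 67752) (.g (nat_lit 2310) (.e (nat_lit 1636) (nat_lit 114) (.e (nat_lit 385073) (nat_lit 31) (.e (nat_lit 573485) (nat_lit 13) (.e (nat_lit 65604) (nat_lit 9) (.e (nat_lit 336013) (nat_lit 2) (.e (nat_lit 90165) (nat_lit 12) (.e (nat_lit 164238) (nat_lit 187) .nil))))))) (.g (nat_lit 5) .nil .nil))) 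
(.lf (nat_lit 67816) (.g (nat_lit 2334) (.e (nat_lit 1637) (nat_lit 114) (.e (nat_lit 385072) (nat_lit 31) (.e (nat_lit 573481) (nat_lit 13) (.e (nat_lit 65604) (nat_lit 9) (.e (nat_lit 336028) (nat_lit 3) (.e (nat_lit 98325) (nat_lit 17) (.e (nat_lit 7554) (nat_lit 402) .nil))))))) (.g (nat_lit 4) .nil .nil))))) (.nd (nat_lit 5) (.nd (nat_lit 6) 
(.lf (nat_lit 67736) (.g (nat_lit 2076) (.e (nat_lit 1636) (nat_lit 114) (.e (nat_lit 385066) (nat_lit 26) (.e (nat_lit 532534) (nat_lit 9) (.e (nat_lit 336211) (nat_lit 13) (.e (nat_lit 393253) (nat_lit 18) (.e (nat_lit 164162) (nat_lit 152) (.e (nat_lit 1086) (nat_lit 81) .nil))))))) (.g (nat_lit 4) .nil .nil))) 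
(.lf (nat_lit 67800) (.g (nat_lit 3719) (.e (nat_lit 1636) (nat_lit 114) (.e (nat_lit 385094) (nat_lit 49) (.e (nat_lit 778320) (nat_lit 4) (.e (nat_lit 65630) (nat_lit 14) (.e (nat_lit 401454) (nat_lit 12) (.e (nat_lit 475142) (nat_lit 8) .nil)))))) (.g (nat_lit 5) .nil .nil)))) (.nd (nat_lit 6) 
(.lf (nat_lit 67768) (.g (nat_lit 1683) (.e (nat_lit 1636) (nat_lit 114) (.e (nat_lit 385074) (nat_lit 31) (.e (nat_lit 573485) (nat_lit 13) (.e (nat_lit 65619) (nat_lit 10) (.e (nat_lit 344117) (nat_lit 21) (.e (nat_lit 516098) (nat_lit 0) (.e (nat_lit 7511) (nat_lit 402) .nil))))))) (.g (nat_lit 4) .nil .nil))) 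
(.lf (nat_lit 67832) (.g (nat_lit 2985) (.e (nat_lit 1637) (nat_lit 114) (.e (nat_lit 385073) (nat_lit 31) (.e (nat_lit 573485) (nat_lit 13) (.e (nat_lit 65604) (nat_lit 9) (.e (nat_lit 336028) (nat_lit 3) (.e (nat_lit 98325) (nat_lit 17) (.e (nat_lit 7554) (nat_lit 402) .nil))))))) (.g (nat_lit 0) .nil .nil))))))) (.nd (nat_lit 3) (.nd (nat_lit 4) (.nd (nat_lit 5) (.nd (nat_lit 6) 
(.lf (nat_lit 67716) (.g (nat_lit 2286) (.e (nat_lit 1635) (nat_lit 114) (.e (nat_lit 385094) (nat_lit 49) (.e (nat_lit 778317) (nat_lit 3) (.e (nat_lit 57476) (nat_lit 28) (.e (nat_lit 557108) (nat_lit 15) (.e (nat_lit 188458) (nat_lit 25) (.e (nat_lit 245781) (nat_lit 9) .nil))))))) (.g (nat_lit 4) .nil .nil))) 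
(.lf (nat_lit 67780) (.g (nat_lit 2405) (.e (nat_lit 1636) (nat_lit 114) (.e (nat_lit 385074) (nat_lit 31) (.e (nat_lit 573493) (nat_lit 15) (.e (nat_lit 81956) (nat_lit 23) (.e (nat_lit 98325) (nat_lit 17) (.e (nat_lit 7936) (nat_lit 402) .nil)))))) (.g (nat_lit 4) .nil .nil)))) (.nd (nat_lit 6) 
(.lf (nat_lit 67748) (.g (nat_lit 2095) (.e (nat_lit 1636) (nat_lit 114) (.e (nat_lit 385066) (nat_lit 26) (.e (nat_lit 532560) (nat_lit 14) (.e (nat_lit 376842) (nat_lit 11) (.e (nat_lit 426100) (nat_lit 1) (.e (nat_lit 164161) (nat_lit 152) (.e (nat_lit 1068) (nat_lit 81) .nil))))))) (.g (nat_lit 4) .nil .nil))) 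
(.lf (nat_lit 67812) (.g (nat_lit 2089) (.e (nat_lit 1637) (nat_lit 114) (.e (nat_lit 385068) (nat_lit 26) (.e (nat_lit 532553) (nat_lit 13) (.e (nat_lit 368676) (nat_lit 21) .nil)))) .nil)))) (.nd (nat_lit 5) (.nd (nat_lit 6) 
(.lf (nat_lit 67732) (.g (nat_lit 1500) (.e (nat_lit 1636) (nat_lit 114) (.e (nat_lit 385066) (nat_lit 26) (.e (nat_lit 532534) (nat_lit 9) (.e (nat_lit 336211) (nat_lit 13) .nil)))) .nil)) 
(.lf (nat_lit 67796) (.g (nat_lit 2346) (.e (nat_lit 1636) (nat_lit 114) (.e (nat_lit 385094) (nat_lit 49) (.e (nat_lit 778317) (nat_lit 3) (.e (nat_lit 57477) (nat_lit 28) .nil)))) .nil))) (.nd (nat_lit 6) 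
(.lf (nat_lit 67764) (.g (nat_lit 2341) (.e (nat_lit 1636) (nat_lit 114) (.e (nat_lit 385074) (nat_lit 31) (.e (nat_lit 573484) (nat_lit 13) (.e (nat_lit 65610) (nat_lit 10) (.e (nat_lit 344117) (nat_lit 21) (.e (nat_lit 516099) (nat_lit 0) (.e (nat_lit 7936) (nat_lit 402) .nil))))))) (.g (nat_lit 4) .nil .nil))) 
(.lf (nat_lit 67828) (.g (nat_lit 3513) (.e (nat_lit 1637) (nat_lit 114) (.e (nat_lit 385072) (nat_lit 31) (.e (nat_lit 573493) (nat_lit 15) (.e (nat_lit 81953) (nat_lit 22) (.e (nat_lit 90165) (nat_lit 12) .nil))))) .nil))))) (.nd (nat_lit 4) (.nd (nat_lit 5) (.nd (nat_lit 6) 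
(.lf (nat_lit 67724) (.g (nat_lit 844) (.e (nat_lit 1636) (nat_lit 114) (.e (nat_lit 385066) (nat_lit 26) (.e (nat_lit 532533) (nat_lit 9) (.e (nat_lit 336211) (nat_lit 13) .nil)))) .nil)) 
(.lf (nat_lit 67788) (.g (nat_lit 3927) (.e (nat_lit 1636) (nat_lit 114) (.e (nat_lit 385093) (nat_lit 49) (.e (nat_lit 778320) (nat_lit 4) (.e (nat_lit 65630) (nat_lit 14) (.e (nat_lit 401454) (nat_lit 12) (.e (nat_lit 475142) (nat_lit 8) .nil)))))) (.g (nat_lit 0) .nil .nil)))) (.nd (nat_lit 6) 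
(.lf (nat_lit 67756) (.g (nat_lit 2734) (.e (nat_lit 1636) (nat_lit 114) (.e (nat_lit 385073) (nat_lit 31) (.e (nat_lit 573493) (nat_lit 15) (.e (nat_lit 81953) (nat_lit 22) (.e (nat_lit 90165) (nat_lit 12) .nil))))) .nil)) 
(.lf (nat_lit 67820) (.g (nat_lit 2645) (.e (nat_lit 1637) (nat_lit 114) (.e (nat_lit 385072) (nat_lit 31) (.e (nat_lit 573484) (nat_lit 13) (.e (nat_lit 65610) (nat_lit 10) (.e (nat_lit 344117) (nat_lit 21) (.e (nat_lit 516106) (nat_lit 0) (.e (nat_lit 7556) (nat_lit 402) .nil))))))) (.g (nat_lit 5) .nil .nil))))) (.nd (nat_lit 5) (.nd (nat_lit 6) 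
(.lf (nat_lit 67740) (.g (nat_lit 2021) (.e (nat_lit 1636) (nat_lit 114) (.e (nat_lit 385066) (nat_lit 26) (.e (nat_lit 532558) (nat_lit 14) (.e (nat_lit 376842) (nat_lit 11) (.e (nat_lit 426014) (nat_lit 0) .nil))))) .nil)) 
(.lf (nat_lit 67804) (.g (nat_lit 2589) (.e (nat_lit 1636) (nat_lit 114) (.e (nat_lit 385105) (nat_lit 50) (.e (nat_lit 786473) (nat_lit 27) (.e (nat_lit 336235) (nat_lit 14) (.e (nat_lit 401454) (nat_lit 12) .nil))))) .nil))) (.nd (nat_lit 6) 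
(.lf (nat_lit 67772) (.g (nat_lit 2216) (.e (nat_lit 1636) (nat_lit 114) (.e (nat_lit 385074) (nat_lit 31) (.e (nat_lit 573491) (nat_lit 15) (.e (nat_lit 81954) (nat_lit 23) (.e (nat_lit 98321) (nat_lit 17) (.e (nat_lit 7936) (nat_lit 402) .nil)))))) (.g (nat_lit 5) .nil .nil))) 
(.lf (nat_lit 67836) (.g (nat_lit 3069) (.e (nat_lit 1637) (nat_lit 114) (.e (nat_lit 385073) (nat_lit 31) (.e (nat_lit 573493) (nat_lit 15) (.e (nat_lit 81954) (nat_lit 23) (.e (nat_lit 98325) (nat_lit 17) .nil))))) .nil))))))) (.nd (nat_lit 2) (.nd (nat_lit 3) (.nd (nat_lit 4) (.nd (nat_lit 5) (.nd (nat_lit 6) 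
(.lf (nat_lit 67714) (.g (nat_lit 4209) (.e (nat_lit 1635) (nat_lit 114) (.e (nat_lit 385093) (nat_lit 49) (.e (nat_lit 778320) (nat_lit 4) (.e (nat_lit 65630) (nat_lit 14) (.e (nat_lit 401454) (nat_lit 12) (.e (nat_lit 475141) (nat_lit 8) .nil)))))) (.g (nat_lit 5) .nil .nil))) 
(.lf (nat_lit 67778) (.g (nat_lit 3097) (.e (nat_lit 1636) (nat_lit 114) (.e (nat_lit 385074) (nat_lit 31) (.e (nat_lit 573493) (nat_lit 15) (.e (nat_lit 81956) (nat_lit 23) (.e (nat_lit 98321) (nat_lit 17) (.e (nat_lit 7936) (nat_lit 402) .nil)))))) (.g (nat_lit 5) .nil .nil)))) (.nd (nat_lit 6) 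
(.lf (nat_lit 67746) (.g (nat_lit 1053) (.e (nat_lit 1636) (nat_lit 114) (.e (nat_lit 385066) (nat_lit 26) (.e (nat_lit 532560) (nat_lit 14) (.e (nat_lit 376842) (nat_lit 11) .nil)))) .nil)) 
(.lf (nat_lit 67810) (.g (nat_lit 1105) (.e (nat_lit 1637) (nat_lit 114) (.e (nat_lit 385065) (nat_lit 26) (.e (nat_lit 532558) (nat_lit 14) (.e (nat_lit 384768) (nat_lit 12) .nil)))) .nil)))) (.nd (nat_lit 5) (.nd (nat_lit 6) 
(.lf (nat_lit 67730) (.g (nat_lit 2909) (.e (nat_lit 1636) (nat_lit 114) (.e (nat_lit 385066) (nat_lit 26) (.e (nat_lit 532534) (nat_lit 9) (.e (nat_lit 336019) (nat_lit 3) (.e (nat_lit 98342) (nat_lit 20) .nil))))) .nil)) 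
(.lf (nat_lit 67794) (.g (nat_lit 2200) (.e (nat_lit 1636) (nat_lit 114) (.e (nat_lit 385094) (nat_lit 49) (.e (nat_lit 778317) (nat_lit 3) (.e (nat_lit 57476) (nat_lit 28) .nil)))) .nil))) (.nd (nat_lit 6) 
(.lf (nat_lit 67762) (.g (nat_lit 3700) (.e (nat_lit 1636) (nat_lit 114) (.e (nat_lit 385074) (nat_lit 31) (.e (nat_lit 573482) (nat_lit 13) (.e (nat_lit 65604) (nat_lit 9) (.e (nat_lit 336028) (nat_lit 3) (.e (nat_lit 98325) (nat_lit 17) (.e (nat_lit 7554) (nat_lit 402) .nil))))))) (.g (nat_lit 4) .nil .nil))) 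
(.lf (nat_lit 67826) (.g (nat_lit 2467) (.e (nat_lit 1637) (nat_lit 114) (.e (nat_lit 385072) (nat_lit 31) (.e (nat_lit 573492) (nat_lit 15) (.e (nat_lit 81953) (nat_lit 22) (.e (nat_lit 90165) (nat_lit 12) .nil))))) .nil))))) (.nd (nat_lit 4) (.nd (nat_lit 5) (.nd (nat_lit 6) 
(.lf (nat_lit 67722) (.g (nat_lit 4343) (.e (nat_lit 1635) (nat_lit 114) (.e (nat_lit 385094) (nat_lit 49) (.e (nat_lit 778320) (nat_lit 4) (.e (nat_lit 65630) (nat_lit 14) (.e (nat_lit 401454) (nat_lit 12) (.e (nat_lit 475141) (nat_lit 8) .nil)))))) (.g (nat_lit 0) .nil .nil))) 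
(.lf (nat_lit 67786) (.g (nat_lit 2732) (.e (nat_lit 1636) (nat_lit 114) (.e (nat_lit 385093) (nat_lit 49) (.e (nat_lit 778317) (nat_lit 3) (.e (nat_lit 57480) (nat_lit 28) (.e (nat_lit 557109) (nat_lit 15) (.e (nat_lit 188449) (nat_lit 22) (.e (nat_lit 204544) (nat_lit 9) .nil))))))) (.g (nat_lit 6) .nil .nil)))) (.nd (nat_lit 6) 
(.lf (nat_lit 67754) (.g (nat_lit 1573) (.e (nat_lit 1636) (nat_lit 114) (.e (nat_lit 385073) (nat_lit 31) (.e (nat_lit 573491) (nat_lit 15) (.e (nat_lit 81954) (nat_lit 23) (.e (nat_lit 98325) (nat_lit 17) .nil))))) .nil)) 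
(.lf (nat_lit 67818) (.g (nat_lit 3327) (.e (nat_lit 1637) (nat_lit 114) (.e (nat_lit 385072) (nat_lit 31) (.e (nat_lit 573481) (nat_lit 13) (.e (nat_lit 65619) (nat_lit 10) (.e (nat_lit 344117) (nat_lit 21) (.e (nat_lit 516106) (nat_lit 0) (.e (nat_lit 7556) (nat_lit 402) .nil))))))) (.g (nat_lit 5) .nil .nil))))) (.nd (nat_lit 5) (.nd (nat_lit 6) 
(.lf (nat_lit 67738) (.g (nat_lit 1793) (.e (nat_lit 1636) (nat_lit 114) (.e (nat_lit 385066) (nat_lit 26) (.e (nat_lit 532555) (nat_lit 13) (.e (nat_lit 368676) (nat_lit 21) (.e (nat_lit 516124) (nat_lit 2) .nil))))) .nil)) 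
(.lf (nat_lit 67802) (.g (nat_lit 1536) (.e (nat_lit 1636) (nat_lit 114) (.e (nat_lit 385094) (nat_lit 49) (.e (nat_lit 778323) (nat_lit 5) (.e (nat_lit 73781) (nat_lit 32) .nil)))) .nil))) (.nd (nat_lit 6) 
(.lf (nat_lit 67770) (.g (nat_lit 2485) (.e (nat_lit 1636) (nat_lit 114) (.e (nat_lit 385074) (nat_lit 31) (.e (nat_lit 573485) (nat_lit 13) (.e (nat_lit 65619) (nat_lit 10) (.e (nat_lit 344117) (nat_lit 21) (.e (nat_lit 516106) (nat_lit 0) (.e (nat_lit 7936) (nat_lit 402) .nil))))))) (.g (nat_lit 5) .nil .nil))) 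
(.lf (nat_lit 67834) (.g (nat_lit 3259) (.e (nat_lit 1637) (nat_lit 114) (.e (nat_lit 385073) (nat_lit 31) (.e (nat_lit 573493) (nat_lit 15) (.e (nat_lit 81951) (nat_lit 22) (.e (nat_lit 90165) (nat_lit 12) (.e (nat_lit 164238) (nat_lit 187) .nil)))))) (.g (nat_lit 5) .nil .nil))))))) (.nd (nat_lit 3) (.nd (nat_lit 4) (.nd (nat_lit 5) (.nd (nat_lit 6) 
(.lf (nat_lit 67718) (.g (nat_lit 3200) (.e (nat_lit 1635) (nat_lit 114) (.e (nat_lit 385094) (nat_lit 49) (.e (nat_lit 778317) (nat_lit 3) (.e (nat_lit 57476) (nat_lit 28) (.e (nat_lit 557108) (nat_lit 15) (.e (nat_lit 188458) (nat_lit 25) (.e (nat_lit 245783) (nat_lit 9) .nil))))))) (.g (nat_lit 5) .nil .nil))) 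
(.lf (nat_lit 67782) (.g (nat_lit 1741) (.e (nat_lit 1636) (nat_lit 114) (.e (nat_lit 385092) (nat_lit 49) (.e (nat_lit 778317) (nat_lit 3) (.e (nat_lit 57480) (nat_lit 28) (.e (nat_lit 557109) (nat_lit 15) (.e (nat_lit 188449) (nat_lit 22) (.e (nat_lit 204544) (nat_lit 9) .nil))))))) (.g (nat_lit 4) .nil .nil)))) (.nd (nat_lit 6) 
(.lf (nat_lit 67750) (.g (nat_lit 1159) (.e (nat_lit 1636) (nat_lit 114) (.e (nat_lit 385066) (nat_lit 26) (.e (nat_lit 532560) (nat_lit 14) (.e (nat_lit 384768) (nat_lit 12) .nil)))) .nil)) 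
(.lf (nat_lit 67814) (.g (nat_lit 1546) (.e (nat_lit 1637) (nat_lit 114) (.e (nat_lit 385068) (nat_lit 26) (.e (nat_lit 532560) (nat_lit 14) (.e (nat_lit 384768) (nat_lit 12) .nil)))) .nil)))) (.nd (nat_lit 5) (.nd (nat_lit 6) 
(.lf (nat_lit 67734) (.g (nat_lit 2035) (.e (nat_lit 1636) (nat_lit 114) (.e (nat_lit 385066) (nat_lit 26) (.e (nat_lit 532534) (nat_lit 9) (.e (nat_lit 336211) (nat_lit 13) (.e (nat_lit 393252) (nat_lit 18) .nil))))) .nil)) 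
(.lf (nat_lit 67798) (.g (nat_lit 2135) (.e (nat_lit 1636) (nat_lit 114) (.e (nat_lit 385094) (nat_lit 49) (.e (nat_lit 778317) (nat_lit 3) (.e (nat_lit 57480) (nat_lit 28) .nil)))) .nil))) (.nd (nat_lit 6) 
(.lf (nat_lit 67766) (.g (nat_lit 2239) (.e (nat_lit 1636) (nat_lit 114) (.e (nat_lit 385074) (nat_lit 31) (.e (nat_lit 573485) (nat_lit 13) (.e (nat_lit 65604) (nat_lit 9) (.e (nat_lit 336028) (nat_lit 3) (.e (nat_lit 98325) (nat_lit 17) (.e (nat_lit 7936) (nat_lit 402) .nil))))))) (.g (nat_lit 4) .nil .nil))) 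
(.lf (nat_lit 67830) (.g (nat_lit 3040) (.e (nat_lit 1637) (nat_lit 114) (.e (nat_lit 385072) (nat_lit 31) (.e (nat_lit 573493) (nat_lit 15) (.e (nat_lit 81956) (nat_lit 23) (.e (nat_lit 98325) (nat_lit 17) .nil))))) .nil))))) (.nd (nat_lit 4) (.nd (nat_lit 5) (.nd (nat_lit 6) 
(.lf (nat_lit 67726) (.g (nat_lit 2195) (.e (nat_lit 1636) (nat_lit 114) (.e (nat_lit 385066) (nat_lit 26) (.e (nat_lit 532534) (nat_lit 9) (.e (nat_lit 336019) (nat_lit 3) .nil)))) .nil)) 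
(.lf (nat_lit 67790) (.g (nat_lit 1491) (.e (nat_lit 1636) (nat_lit 114) (.e (nat_lit 385093) (nat_lit 49) (.e (nat_lit 778323) (nat_lit 5) (.e (nat_lit 73781) (nat_lit 32) .nil)))) .nil))) (.nd (nat_lit 6) 
(.lf (nat_lit 67758) (.g (nat_lit 2600) (.e (nat_lit 1636) (nat_lit 114) (.e (nat_lit 385073) (nat_lit 31) (.e (nat_lit 573493) (nat_lit 15) (.e (nat_lit 81956) (nat_lit 23) (.e (nat_lit 98325) (nat_lit 17) .nil))))) .nil)) 
(.lf (nat_lit 67822) (.g (nat_lit 2292) (.e (nat_lit 1637) (nat_lit 114) (.e (nat_lit 385072) (nat_lit 31) (.e (nat_lit 573485) (nat_lit 13) (.e (nat_lit 65604) (nat_lit 9) (.e (nat_lit 336028) (nat_lit 3) (.e (nat_lit 98325) (nat_lit 17) (.e (nat_lit 7554) (nat_lit 402) .nil))))))) (.g (nat_lit 4) .nil .nil))))) (.nd (nat_lit 5) (.nd (nat_lit 6) 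
(.lf (nat_lit 67742) (.g (nat_lit 1775) (.e (nat_lit 1636) (nat_lit 114) (.e (nat_lit 385066) (nat_lit 26) (.e (nat_lit 532558) (nat_lit 14) (.e (nat_lit 376842) (nat_lit 11) (.e (nat_lit 426100) (nat_lit 1) .nil))))) .nil)) 
(.lf (nat_lit 67806) (.g (nat_lit 880) (.e (nat_lit 1636) (nat_lit 114) (.e (nat_lit 385109) (nat_lit 51) (.e (nat_lit 794659) (nat_lit 21) .nil))) .nil))) (.nd (nat_lit 6) 
(.lf (nat_lit 67774) (.g (nat_lit 2506) (.e (nat_lit 1636) (nat_lit 114) (.e (nat_lit 385074) (nat_lit 31) (.e (nat_lit 573491) (nat_lit 15) (.e (nat_lit 81954) (nat_lit 23) (.e (nat_lit 98325) (nat_lit 17) (.e (nat_lit 7554) (nat_lit 402) .nil)))))) (.g (nat_lit 6) .nil .nil))) 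
(.lf (nat_lit 67838) (.g (nat_lit 3318) (.e (nat_lit 1637) (nat_lit 114) (.e (nat_lit 385073) (nat_lit 31) (.e (nat_lit 573493) (nat_lit 15) (.e (nat_lit 81956) (nat_lit 23) (.e (nat_lit 98325) (nat_lit 17) (.e (nat_lit 7554) (nat_lit 402) .nil)))))) (.g (nat_lit 6) .nil .nil))))))))) (.nd (nat_lit 1) (.nd (nat_lit 2) (.nd (nat_lit 3) (.nd (nat_lit 4) (.nd (nat_lit 5) (.nd (nat_lit 6) 
(.lf (nat_lit 67713) (.g (nat_lit 2362) (.e (nat_lit 1635) (nat_lit 114) (.e (nat_lit 385093) (nat_lit 49) (.e (nat_lit 778317) (nat_lit 3) (.e (nat_lit 57476) (nat_lit 28) (.e (nat_lit 557108) (nat_lit 15) (.e (nat_lit 188458) (nat_lit 25) (.e (nat_lit 245783) (nat_lit 9) .nil))))))) (.g (nat_lit 4) .nil .nil))) 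
(.lf (nat_lit 67777) (.g (nat_lit 2121) (.e (nat_lit 1636) (nat_lit 114) (.e (nat_lit 385074) (nat_lit 31) (.e (nat_lit 573493) (nat_lit 15) (.e (nat_lit 81956) (nat_lit 23) (.e (nat_lit 98321) (nat_lit 17) .nil))))) .nil))) (.nd (nat_lit 6) 
(.lf (nat_lit 67745) (.g (nat_lit 1808) (.e (nat_lit 1636) (nat_lit 114) (.e (nat_lit 385066) (nat_lit 26) (.e (nat_lit 532558) (nat_lit 14) (.e (nat_lit 384768) (nat_lit 12) (.e (nat_lit 434286) (nat_lit 42) (.e (nat_lit 688161) (nat_lit 13) .nil)))))) (.g (nat_lit 5) .nil .nil))) 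
(.lf (nat_lit 67809) (.g (nat_lit 2255) (.e (nat_lit 1636) (nat_lit 114) (.e (nat_lit 385109) (nat_lit 51) (.e (nat_lit 794684) (nat_lit 25) (.e (nat_lit 221208) (nat_lit 21) (.e (nat_lit 164186) (nat_lit 157) (.e (nat_lit 229409) (nat_lit 13) (.e (nat_lit 434180) (nat_lit 0) .nil))))))) (.g (nat_lit 5) .nil .nil))))) (.nd (nat_lit 5) (.nd (nat_lit 6) 
(.lf (nat_lit 67729) (.g (nat_lit 2985) (.e (nat_lit 1636) (nat_lit 114) (.e (nat_lit 385066) (nat_lit 26) (.e (nat_lit 532534) (nat_lit 9) (.e (nat_lit 336019) (nat_lit 3) (.e (nat_lit 98341) (nat_lit 20) (.e (nat_lit 221185) (nat_lit 0) (.e (nat_lit 1853) (nat_lit 124) (.e (nat_lit 557056) (nat_lit 0) .nil)))))))) (.g (nat_lit 4) .nil .nil))) 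
(.lf (nat_lit 67793) (.g (nat_lit 1930) (.e (nat_lit 1636) (nat_lit 114) (.e (nat_lit 385093) (nat_lit 49) (.e (nat_lit 778323) (nat_lit 5) (.e (nat_lit 73782) (nat_lit 32) (.e (nat_lit 3067) (nat_lit 190) .nil))))) .nil))) (.nd (nat_lit 6) 
(.lf (nat_lit 67761) (.g (nat_lit 4050) (.e (nat_lit 1636) (nat_lit 114) (.e (nat_lit 385074) (nat_lit 31) (.e (nat_lit 573482) (nat_lit 13) (.e (nat_lit 65604) (nat_lit 9) (.e (nat_lit 336013) (nat_lit 2) (.e (nat_lit 90165) (nat_lit 12) (.e (nat_lit 164239) (nat_lit 187) .nil))))))) (.g (nat_lit 4) .nil .nil))) 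
(.lf (nat_lit 67825) (.g (nat_lit 1938) (.e (nat_lit 1637) (nat_lit 114) (.e (nat_lit 385072) (nat_lit 31) (.e (nat_lit 573491) (nat_lit 15) (.e (nat_lit 81954) (nat_lit 23) (.e (nat_lit 98325) (nat_lit 17) .nil))))) .nil))))) (.nd (nat_lit 4) (.nd (nat_lit 5) (.nd (nat_lit 6) 
(.lf (nat_lit 67721) (.g (nat_lit 1549) (.e (nat_lit 1635) (nat_lit 114) (.e (nat_lit 385094) (nat_lit 49) (.e (nat_lit 778317) (nat_lit 3) (.e (nat_lit 57480) (nat_lit 28) .nil)))) .nil)) 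
(.lf (nat_lit 67785) (.g (nat_lit 2921) (.e (nat_lit 1636) (nat_lit 114) (.e (nat_lit 385093) (nat_lit 49) (.e (nat_lit 778317) (nat_lit 3) (.e (nat_lit 57477) (nat_lit 28) (.e (nat_lit 557108) (nat_lit 15) (.e (nat_lit 188449) (nat_lit 22) (.e (nat_lit 204544) (nat_lit 9) .nil))))))) (.g (nat_lit 6) .nil .nil)))) (.nd (nat_lit 6) 
(.lf (nat_lit 67753) (.g (nat_lit 1780) (.e (nat_lit 1636) (nat_lit 114) (.e (nat_lit 385073) (nat_lit 31) (.e (nat_lit 573491) (nat_lit 15) (.e (nat_lit 81951) (nat_lit 22) (.e (nat_lit 90165) (nat_lit 12) .nil))))) .nil)) 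
(.lf (nat_lit 67817) (.g (nat_lit 2315) (.e (nat_lit 1637) (nat_lit 114) (.e (nat_lit 385072) (nat_lit 31) (.e (nat_lit 573481) (nat_lit 13) (.e (nat_lit 65604) (nat_lit 9) (.e (nat_lit 336028) (nat_lit 3) (.e (nat_lit 98325) (nat_lit 17) (.e (nat_lit 7556) (nat_lit 402) .nil))))))) (.g (nat_lit 4) .nil .nil))))) (.nd (nat_lit 5) (.nd (nat_lit 6) 
(.lf (nat_lit 67737) (.g (nat_lit 1952) (.e (nat_lit 1636) (nat_lit 114) (.e (nat_lit 385066) (nat_lit 26) (.e (nat_lit 532553) (nat_lit 13) (.e (nat_lit 368676) (nat_lit 21) (.e (nat_lit 516124) (nat_lit 2) .nil))))) .nil)) 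
(.lf (nat_lit 67801) (.g (nat_lit 2236) (.e (nat_lit 1636) (nat_lit 114) (.e (nat_lit 385094) (nat_lit 49) (.e (nat_lit 778320) (nat_lit 4) (.e (nat_lit 65630) (nat_lit 14) (.e (nat_lit 401454) (nat_lit 12) (.e (nat_lit 483072) (nat_lit 8) .nil)))))) (.g (nat_lit 4) .nil .nil)))) (.nd (nat_lit 6) 
(.lf (nat_lit 67769) (.g (nat_lit 2047) (.e (nat_lit 1636) (nat_lit 114) (.e (nat_lit 385074) (nat_lit 31) (.e (nat_lit 573485) (nat_lit 13) (.e (nat_lit 65619) (nat_lit 10) (.e (nat_lit 344117) (nat_lit 21) (.e (nat_lit 516098) (nat_lit 0) (.e (nat_lit 7523) (nat_lit 402) .nil))))))) (.g (nat_lit 4) .nil .nil))) 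
(.lf (nat_lit 67833) (.g (nat_lit 2259) (.e (nat_lit 1637) (nat_lit 114) (.e (nat_lit 385073) (nat_lit 31) (.e (nat_lit 573491) (nat_lit 15) (.e (nat_lit 81954) (nat_lit 23) (.e (nat_lit 98325) (nat_lit 17) (.e (nat_lit 7554) (nat_lit 402) .nil)))))) (.g (nat_lit 6) .nil .nil))))))) (.nd (nat_lit 3) (.nd (nat_lit 4) (.nd (nat_lit 5) (.nd (nat_lit 6) 
(.lf (nat_lit 67717) (.g (nat_lit 3260) (.e (nat_lit 1635) (nat_lit 114) (.e (nat_lit 385094) (nat_lit 49) (.e (nat_lit 778317) (nat_lit 3) (.e (nat_lit 57476) (nat_lit 28) (.e (nat_lit 557108) (nat_lit 15) (.e (nat_lit 188458) (nat_lit 25) (.e (nat_lit 245782) (nat_lit 9) .nil))))))) (.g (nat_lit 5) .nil .nil))) 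
(.lf (nat_lit 67781) (.g (nat_lit 3012) (.e (nat_lit 1636) (nat_lit 114) (.e (nat_lit 385074) (nat_lit 31) (.e (nat_lit 573493) (nat_lit 15) (.e (nat_lit 81956) (nat_lit 23) (.e (nat_lit 106240) (nat_lit 17) .nil))))) .nil))) (.nd (nat_lit 6) 
(.lf (nat_lit 67749) (.g (nat_lit 1832) (.e (nat_lit 1636) (nat_lit 114) (.e (nat_lit 385066) (nat_lit 26) (.e (nat_lit 532560) (nat_lit 14) (.e (nat_lit 376842) (nat_lit 11) (.e (nat_lit 426107) (nat_lit 1) .nil))))) .nil)) 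
(.lf (nat_lit 67813) (.g (nat_lit 2221) (.e (nat_lit 1637) (nat_lit 114) (.e (nat_lit 385068) (nat_lit 26) (.e (nat_lit 532555) (nat_lit 13) (.e (nat_lit 368676) (nat_lit 21) (.e (nat_lit 516124) (nat_lit 2) .nil))))) .nil)))) (.nd (nat_lit 5) (.nd (nat_lit 6) 
(.lf (nat_lit 67733) (.g (nat_lit 1948) (.e (nat_lit 1636) (nat_lit 114) (.e (nat_lit 385066) (nat_lit 26) (.e (nat_lit 532534) (nat_lit 9) (.e (nat_lit 336211) (nat_lit 13) (.e (nat_lit 393251) (nat_lit 18) .nil))))) .nil)) 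
(.lf (nat_lit 67797) (.g (nat_lit 3629) (.e (nat_lit 1636) (nat_lit 114) (.e (nat_lit 385094) (nat_lit 49) (.e (nat_lit 778317) (nat_lit 3) (.e (nat_lit 57477) (nat_lit 28) (.e (nat_lit 557108) (nat_lit 15) (.e (nat_lit 188449) (nat_lit 22) (.e (nat_lit 204544) (nat_lit 9) .nil))))))) (.g (nat_lit 6) .nil .nil)))) (.nd (nat_lit 6) 
(.lf (nat_lit 67765) (.g (nat_lit 3488) (.e (nat_lit 1636) (nat_lit 114) (.e (nat_lit 385074) (nat_lit 31) (.e (nat_lit 573485) (nat_lit 13) (.e (nat_lit 65604) (nat_lit 9) (.e (nat_lit 336028) (nat_lit 3) (.e (nat_lit 98325) (nat_lit 17) (.e (nat_lit 7554) (nat_lit 402) .nil))))))) (.g (nat_lit 0) .nil .nil))) 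
(.lf (nat_lit 67829) (.g (nat_lit 3704) (.e (nat_lit 1637) (nat_lit 114) (.e (nat_lit 385072) (nat_lit 31) (.e (nat_lit 573493) (nat_lit 15) (.e (nat_lit 81953) (nat_lit 22) (.e (nat_lit 90165) (nat_lit 12) (.e (nat_lit 164238) (nat_lit 187) .nil)))))) (.g (nat_lit 4) .nil .nil)))))) (.nd (nat_lit 4) (.nd (nat_lit 5) (.nd (nat_lit 6) 
(.lf (nat_lit 67725) (.g (nat_lit 1187) (.e (nat_lit 1636) (nat_lit 114) (.e (nat_lit 385066) (nat_lit 26) (.e (nat_lit 532533) (nat_lit 9) (.e (nat_lit 336211) (nat_lit 13) (.e (nat_lit 393251) (nat_lit 18) .nil))))) .nil)) 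
(.lf (nat_lit 67789) (.g (nat_lit 2512) (.e (nat_lit 1636) (nat_lit 114) (.e (nat_lit 385093) (nat_lit 49) (.e (nat_lit 778320) (nat_lit 4) (.e (nat_lit 65630) (nat_lit 14) (.e (nat_lit 401454) (nat_lit 12) (.e (nat_lit 483072) (nat_lit 8) .nil)))))) (.g (nat_lit 5) .nil .nil)))) (.nd (nat_lit 6) 
(.lf (nat_lit 67757) (.g (nat_lit 3370) (.e (nat_lit 1636) (nat_lit 114) (.e (nat_lit 385073) (nat_lit 31) (.e (nat_lit 573493) (nat_lit 15) (.e (nat_lit 81956) (nat_lit 23) (.e (nat_lit 98321) (nat_lit 17) .nil))))) .nil)) 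
(.lf (nat_lit 67821) (.g (nat_lit 2767) (.e (nat_lit 1637) (nat_lit 114) (.e (nat_lit 385072) (nat_lit 31) (.e (nat_lit 573485) (nat_lit 13) (.e (nat_lit 65604) (nat_lit 9) (.e (nat_lit 336013) (nat_lit 2) (.e (nat_lit 90165) (nat_lit 12) (.e (nat_lit 164238) (nat_lit 187) .nil))))))) (.g (nat_lit 5) .nil .nil))))) (.nd (nat_lit 5) (.nd (nat_lit 6) 
(.lf (nat_lit 67741) (.g (nat_lit 1639) (.e (nat_lit 1636) (nat_lit 114) (.e (nat_lit 385066) (nat_lit 26) (.e (nat_lit 532558) (nat_lit 14) (.e (nat_lit 376842) (nat_lit 11) (.e (nat_lit 426098) (nat_lit 1) .nil))))) .nil)) 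
(.lf (nat_lit 67805) (.g (nat_lit 760) (.e (nat_lit 1636) (nat_lit 114) (.e (nat_lit 385106) (nat_lit 50) (.e (nat_lit 786489) (nat_lit 34) .nil))) .nil))) (.nd (nat_lit 6) 
(.lf (nat_lit 67773) (.g (nat_lit 1388) (.e (nat_lit 1636) (nat_lit 114) (.e (nat_lit 385074) (nat_lit 31) (.e (nat_lit 573491) (nat_lit 15) (.e (nat_lit 81954) (nat_lit 23) (.e (nat_lit 98325) (nat_lit 17) .nil))))) .nil)) 
(.lf (nat_lit 67837) (.g (nat_lit 2897) (.e (nat_lit 1637) (nat_lit 114) (.e (nat_lit 385073) (nat_lit 31) (.e (nat_lit 573493) (nat_lit 15) (.e (nat_lit 81956) (nat_lit 23) (.e (nat_lit 98321) (nat_lit 17) .nil))))) .nil))))))) (.nd (nat_lit 2) (.nd (nat_lit 3) (.nd (nat_lit 4) (.nd (nat_lit 5) (.nd (nat_lit 6) 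
(.lf (nat_lit 67715) (.g (nat_lit 2243) (.e (nat_lit 1635) (nat_lit 114) (.e (nat_lit 385094) (nat_lit 49) (.e (nat_lit 778317) (nat_lit 3) (.e (nat_lit 57476) (nat_lit 28) (.e (nat_lit 557108) (nat_lit 15) .nil))))) .nil)) 
(.lf (nat_lit 67779) (.g (nat_lit 3453) (.e (nat_lit 1636) (nat_lit 114) (.e (nat_lit 385074) (nat_lit 31) (.e (nat_lit 573493) (nat_lit 15) (.e (nat_lit 81956) (nat_lit 23) (.e (nat_lit 98325) (nat_lit 17) (.e (nat_lit 7554) (nat_lit 402) .nil)))))) (.g (nat_lit 6) .nil .nil)))) (.nd (nat_lit 6) 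
(.lf (nat_lit 67747) (.g (nat_lit 1764) (.e (nat_lit 1636) (nat_lit 114) (.e (nat_lit 385066) (nat_lit 26) (.e (nat_lit 532560) (nat_lit 14) (.e (nat_lit 376842) (nat_lit 11) (.e (nat_lit 426098) (nat_lit 1) .nil))))) .nil)) 
(.lf (nat_lit 67811) (.g (nat_lit 973) (.e (nat_lit 1637) (nat_lit 114) (.e (nat_lit 385065) (nat_lit 26) (.e (nat_lit 532560) (nat_lit 14) (.e (nat_lit 384768) (nat_lit 12) .nil)))) .nil)))) (.nd (nat_lit 5) (.nd (nat_lit 6) 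
(.lf (nat_lit 67731) (.g (nat_lit 1703) (.e (nat_lit 1636) (nat_lit 114) (.e (nat_lit 385066) (nat_lit 26) (.e (nat_lit 532534) (nat_lit 9) (.e (nat_lit 336115) (nat_lit 9) .nil)))) .nil)) 
(.lf (nat_lit 67795) (.g (nat_lit 3723) (.e (nat_lit 1636) (nat_lit 114) (.e (nat_lit 385094) (nat_lit 49) (.e (nat_lit 778317) (nat_lit 3) (.e (nat_lit 57476) (nat_lit 28) (.e (nat_lit 557108) (nat_lit 15) (.e (nat_lit 188449) (nat_lit 22) (.e (nat_lit 204544) (nat_lit 9) .nil))))))) (.g (nat_lit 6) .nil .nil)))) (.nd (nat_lit 6) 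
(.lf (nat_lit 67763) (.g (nat_lit 3803) (.e (nat_lit 1636) (nat_lit 114) (.e (nat_lit 385074) (nat_lit 31) (.e (nat_lit 573482) (nat_lit 13) (.e (nat_lit 65604) (nat_lit 9) (.e (nat_lit 336028) (nat_lit 3) (.e (nat_lit 98325) (nat_lit 17) (.e (nat_lit 7556) (nat_lit 402) .nil))))))) (.g (nat_lit 4) .nil .nil))) 
(.lf (nat_lit 67827) (.g (nat_lit 3035) (.e (nat_lit 1637) (nat_lit 114) (.e (nat_lit 385072) (nat_lit 31) (.e (nat_lit 573492) (nat_lit 15) (.e (nat_lit 81956) (nat_lit 23) (.e (nat_lit 98325) (nat_lit 17) .nil))))) .nil))))) (.nd (nat_lit 4) (.nd (nat_lit 5) (.nd (nat_lit 6) 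
(.lf (nat_lit 67723) (.g (nat_lit 2737) (.e (nat_lit 1635) (nat_lit 114) (.e (nat_lit 385105) (nat_lit 50) (.e (nat_lit 786473) (nat_lit 27) (.e (nat_lit 336235) (nat_lit 14) (.e (nat_lit 401454) (nat_lit 12) .nil))))) .nil)) 
(.lf (nat_lit 67787) (.g (nat_lit 2690) (.e (nat_lit 1636) (nat_lit 114) (.e (nat_lit 385093) (nat_lit 49) (.e (nat_lit 778318) (nat_lit 3) (.e (nat_lit 57476) (nat_lit 28) (.e (nat_lit 557108) (nat_lit 15) (.e (nat_lit 188449) (nat_lit 22) (.e (nat_lit 204544) (nat_lit 9) .nil))))))) (.g (nat_lit 4) .nil .nil)))) (.nd (nat_lit 6) 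
(.lf (nat_lit 67755) (.g (nat_lit 3108) (.e (nat_lit 1636) (nat_lit 114) (.e (nat_lit 385073) (nat_lit 31) (.e (nat_lit 573493) (nat_lit 15) (.e (nat_lit 81951) (nat_lit 22) (.e (nat_lit 90165) (nat_lit 12) .nil))))) .nil)) 
(.lf (nat_lit 67819) (.g (nat_lit 2896) (.e (nat_lit 1637) (nat_lit 114) (.e (nat_lit 385072) (nat_lit 31) (.e (nat_lit 573482) (nat_lit 13) (.e (nat_lit 65604) (nat_lit 9) (.e (nat_lit 336013) (nat_lit 2) (.e (nat_lit 90165) (nat_lit 12) (.e (nat_lit 164239) (nat_lit 187) .nil))))))) (.g (nat_lit 5) .nil .nil))))) (.nd (nat_lit 5) (.nd (nat_lit 6) 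
(.lf (nat_lit 67739) (.g (nat_lit 1016) (.e (nat_lit 1636) (nat_lit 114) (.e (nat_lit 385066) (nat_lit 26) (.e (nat_lit 532558) (nat_lit 14) (.e (nat_lit 376842) (nat_lit 11) .nil)))) .nil)) 
(.lf (nat_lit 67803) (.g (nat_lit 1562) (.e (nat_lit 1636) (nat_lit 114) (.e (nat_lit 385094) (nat_lit 49) (.e (nat_lit 778323) (nat_lit 5) (.e (nat_lit 73782) (nat_lit 32) .nil)))) .nil))) (.nd (nat_lit 6) 
(.lf (nat_lit 67771) (.g (nat_lit 840) (.e (nat_lit 1636) (nat_lit 114) (.e (nat_lit 385074) (nat_lit 31) (.e (nat_lit 573491) (nat_lit 15) (.e (nat_lit 81954) (nat_lit 23) .nil)))) .nil)) 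
(.lf (nat_lit 67835) (.g (nat_lit 2870) (.e (nat_lit 1637) (nat_lit 114) (.e (nat_lit 385073) (nat_lit 31) (.e (nat_lit 573493) (nat_lit 15) (.e (nat_lit 81951) (nat_lit 22) (.e (nat_lit 90165) (nat_lit 12) (.e (nat_lit 164239) (nat_lit 187) .nil)))))) (.g (nat_lit 4) .nil .nil))))))) (.nd (nat_lit 3) (.nd (nat_lit 4) (.nd (nat_lit 5) (.nd (nat_lit 6) 
(.lf (nat_lit 67719) (.g (nat_lit 1909) (.e (nat_lit 1635) (nat_lit 114) (.e (nat_lit 385094) (nat_lit 49) (.e (nat_lit 778317) (nat_lit 3) (.e (nat_lit 57477) (nat_lit 28) (.e (nat_lit 557108) (nat_lit 15) .nil))))) .nil)) 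
(.lf (nat_lit 67783) (.g (nat_lit 703) (.e (nat_lit 1636) (nat_lit 114) (.e (nat_lit 385093) (nat_lit 49) (.e (nat_lit 778317) (nat_lit 3) .nil))) .nil))) (.nd (nat_lit 6) 
(.lf (nat_lit 67751) (.g (nat_lit 2545) (.e (nat_lit 1636) (nat_lit 114) (.e (nat_lit 385073) (nat_lit 31) (.e (nat_lit 573482) (nat_lit 13) (.e (nat_lit 65604) (nat_lit 9) (.e (nat_lit 336013) (nat_lit 2) (.e (nat_lit 90165) (nat_lit 12) (.e (nat_lit 164238) (nat_lit 187) .nil))))))) (.g (nat_lit 5) .nil .nil))) 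
(.lf (nat_lit 67815) (.g (nat_lit 2850) (.e (nat_lit 1637) (nat_lit 114) (.e (nat_lit 385072) (nat_lit 31) (.e (nat_lit 573481) (nat_lit 13) (.e (nat_lit 65604) (nat_lit 9) (.e (nat_lit 336013) (nat_lit 2) (.e (nat_lit 90165) (nat_lit 12) (.e (nat_lit 164238) (nat_lit 187) .nil))))))) (.g (nat_lit 5) .nil .nil))))) (.nd (nat_lit 5) (.nd (nat_lit 6) 
(.lf (nat_lit 67735) (.g (nat_lit 2001) (.e (nat_lit 1636) (nat_lit 114) (.e (nat_lit 385066) (nat_lit 26) (.e (nat_lit 532534) (nat_lit 9) (.e (nat_lit 336211) (nat_lit 13) (.e (nat_lit 393253) (nat_lit 18) .nil))))) .nil)) 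
(.lf (nat_lit 67799) (.g (nat_lit 2838) (.e (nat_lit 1636) (nat_lit 114) (.e (nat_lit 385094) (nat_lit 49) (.e (nat_lit 778317) (nat_lit 3) (.e (nat_lit 57480) (nat_lit 28) (.e (nat_lit 557109) (nat_lit 15) (.e (nat_lit 188458) (nat_lit 25) (.e (nat_lit 245786) (nat_lit 9) .nil))))))) (.g (nat_lit 4) .nil .nil)))) (.nd (nat_lit 6) 
(.lf (nat_lit 67767) (.g (nat_lit 2575) (.e (nat_lit 1636) (nat_lit 114) (.e (nat_lit 385074) (nat_lit 31) (.e (nat_lit 573485) (nat_lit 13) (.e (nat_lit 65619) (nat_lit 10) (.e (nat_lit 344117) (nat_lit 21) (.e (nat_lit 516097) (nat_lit 0) (.e (nat_lit 7523) (nat_lit 402) .nil))))))) (.g (nat_lit 5) .nil .nil))) 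
(.lf (nat_lit 67831) (.g (nat_lit 3123) (.e (nat_lit 1637) (nat_lit 114) (.e (nat_lit 385073) (nat_lit 31) (.e (nat_lit 573482) (nat_lit 13) (.e (nat_lit 65604) (nat_lit 9) (.e (nat_lit 336028) (nat_lit 3) (.e (nat_lit 98325) (nat_lit 17) (.e (nat_lit 7554) (nat_lit 402) .nil))))))) (.g (nat_lit 0) .nil .nil)))))) (.nd (nat_lit 4) (.nd (nat_lit 5) (.nd (nat_lit 6) 
(.lf (nat_lit 67727) (.g (nat_lit 2864) (.e (nat_lit 1636) (nat_lit 114) (.e (nat_lit 385066) (nat_lit 26) (.e (nat_lit 532534) (nat_lit 9) (.e (nat_lit 336019) (nat_lit 3) (.e (nat_lit 98341) (nat_lit 20) .nil))))) .nil)) 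
(.lf (nat_lit 67791) (.g (nat_lit 2023) (.e (nat_lit 1636) (nat_lit 114) (.e (nat_lit 385093) (nat_lit 49) (.e (nat_lit 778323) (nat_lit 5) (.e (nat_lit 73781) (nat_lit 32) (.e (nat_lit 3067) (nat_lit 190) (.e (nat_lit 475142) (nat_lit 8) .nil)))))) (.g (nat_lit 4) .nil .nil)))) (.nd (nat_lit 6) 
(.lf (nat_lit 67759) (.g (nat_lit 2621) (.e (nat_lit 1636) (nat_lit 114) (.e (nat_lit 385073) (nat_lit 31) (.e (nat_lit 573493) (nat_lit 15) (.e (nat_lit 81956) (nat_lit 23) (.e (nat_lit 98325) (nat_lit 17) (.e (nat_lit 7556) (nat_lit 402) .nil)))))) (.g (nat_lit 4) .nil .nil))) 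
(.lf (nat_lit 67823) (.g (nat_lit 2273) (.e (nat_lit 1637) (nat_lit 114) (.e (nat_lit 385072) (nat_lit 31) (.e (nat_lit 573485) (nat_lit 13) (.e (nat_lit 65604) (nat_lit 9) (.e (nat_lit 336028) (nat_lit 3) (.e (nat_lit 98325) (nat_lit 17) (.e (nat_lit 7556) (nat_lit 402) .nil))))))) (.g (nat_lit 4) .nil .nil))))) (.nd (nat_lit 5) (.nd (nat_lit 6) 
(.lf (nat_lit 67743) (.g (nat_lit 1736) (.e (nat_lit 1636) (nat_lit 114) (.e (nat_lit 385066) (nat_lit 26) (.e (nat_lit 532558) (nat_lit 14) (.e (nat_lit 376842) (nat_lit 11) (.e (nat_lit 426107) (nat_lit 1) .nil))))) .nil)) 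
(.lf (nat_lit 67807) (.g (nat_lit 1069) (.e (nat_lit 1636) (nat_lit 114) (.e (nat_lit 385109) (nat_lit 51) (.e (nat_lit 794682) (nat_lit 25) .nil))) .nil))) (.nd (nat_lit 6) 
(.lf (nat_lit 67775) (.g (nat_lit 3471) (.e (nat_lit 1636) (nat_lit 114) (.e (nat_lit 385074) (nat_lit 31) (.e (nat_lit 573493) (nat_lit 15) (.e (nat_lit 81951) (nat_lit 22) (.e (nat_lit 90165) (nat_lit 12) .nil))))) .nil)) 
(.lf (nat_lit 67839) (.g (nat_lit 771) (.e (nat_lit 1637) (nat_lit 114) (.e (nat_lit 385074) (nat_lit 31) (.e (nat_lit 573456) (nat_lit 9) .nil))) .nil)))))))))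

noncomputable def tv935 : DT := (.nd (nat_lit 0) (.nd (nat_lit 1) (.nd (nat_lit 2) (.nd (nat_lit 3) (.nd (nat_lit 4) (.nd (nat_lit 5) 
(.lf (nat_lit 67840) (.g (nat_lit 2046) (.e (nat_lit 1637) (nat_lit 114) (.e (nat_lit 385074) (nat_lit 31) (.e (nat_lit 573479) (nat_lit 13) (.e (nat_lit 65619) (nat_lit 10) (.e (nat_lit 344117) (nat_lit 21) (.e (nat_lit 516106) (nat_lit 0) (.e (nat_lit 7556) (nat_lit 402) .nil))))))) (.g (nat_lit 4) .nil .nil))) 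
(.lf (nat_lit 67872) (.g (nat_lit 943) (.e (nat_lit 1637) (nat_lit 114) (.e (nat_lit 385093) (nat_lit 49) (.e (nat_lit 778323) (nat_lit 5) .nil))) .nil))) (.nd (nat_lit 5) 
(.lf (nat_lit 67856) (.g (nat_lit 2772) (.e (nat_lit 1637) (nat_lit 114) (.e (nat_lit 385074) (nat_lit 31) (.e (nat_lit 573491) (nat_lit 15) (.e (nat_lit 81951) (nat_lit 22) (.e (nat_lit 90165) (nat_lit 12) (.e (nat_lit 164238) (nat_lit 187) .nil)))))) (.g (nat_lit 0) .nil .nil))) 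
(.lf (nat_lit 67888) (.g (nat_lit 3618) (.e (nat_lit 1638) (nat_lit 114) (.e (nat_lit 392960) (nat_lit 24) (.e (nat_lit 516160) (nat_lit 10) (.e (nat_lit 434231) (nat_lit 23) (.e (nat_lit 532513) (nat_lit 3) (.e (nat_lit 114714) (nat_lit 22) (.e (nat_lit 90120) (nat_lit 0) .nil))))))) (.g (nat_lit 6) .nil .nil))))) (.nd (nat_lit 4) (.nd (nat_lit 5) 
(.lf (nat_lit 67848) (.g (nat_lit 3217) (.e (nat_lit 1637) (nat_lit 114) (.e (nat_lit 385074) (nat_lit 31) (.e (nat_lit 573484) (nat_lit 13) (.e (nat_lit 65610) (nat_lit 10) (.e (nat_lit 344117) (nat_lit 21) (.e (nat_lit 516099) (nat_lit 0) (.e (nat_lit 7562) (nat_lit 402) .nil))))))) (.g (nat_lit 5) .nil .nil))) 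
(.lf (nat_lit 67880) (.g (nat_lit 2953) (.e (nat_lit 1637) (nat_lit 114) (.e (nat_lit 385109) (nat_lit 51) (.e (nat_lit 794684) (nat_lit 25) (.e (nat_lit 221207) (nat_lit 21) (.e (nat_lit 164187) (nat_lit 157) (.e (nat_lit 229409) (nat_lit 13) (.e (nat_lit 434180) (nat_lit 0) .nil))))))) (.g (nat_lit 5) .nil .nil)))) (.nd (nat_lit 5) 
(.lf (nat_lit 67864) (.g (nat_lit 2891) (.e (nat_lit 1637) (nat_lit 114) (.e (nat_lit 385074) (nat_lit 31) (.e (nat_lit 573493) (nat_lit 15) (.e (nat_lit 81954) (nat_lit 23) (.e (nat_lit 98325) (nat_lit 17) (.e (nat_lit 7556) (nat_lit 402) .nil)))))) (.g (nat_lit 4) .nil .nil))) 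
(.lf (nat_lit 67896) (.g (nat_lit 2696) (.e (nat_lit 1638) (nat_lit 114) (.e (nat_lit 392960) (nat_lit 24) (.e (nat_lit 516160) (nat_lit 10) (.e (nat_lit 434245) (nat_lit 28) (.e (nat_lit 573481) (nat_lit 13) (.e (nat_lit 65549) (nat_lit 0) (.e (nat_lit 1859) (nat_lit 124) (.e (nat_lit 557062) (nat_lit 0) .nil)))))))) (.g (nat_lit 7) .nil .nil)))))) 
(.nd (nat_lit 3) (.nd (nat_lit 4) (.nd (nat_lit 5) 
(.lf (nat_lit 67844) (.g (nat_lit 4513) (.e (nat_lit 1637) (nat_lit 114) (.e (nat_lit 385074) (nat_lit 31) (.e (nat_lit 573482) (nat_lit 13) (.e (nat_lit 65604) (nat_lit 9) (.e (nat_lit 336013) (nat_lit 2) (.e (nat_lit 90165) (nat_lit 12) (.e (nat_lit 164238) (nat_lit 187) .nil))))))) (.g (nat_lit 7) .nil .nil))) 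
(.lf (nat_lit 67876) (.g (nat_lit 1048) (.e (nat_lit 1637) (nat_lit 114) (.e (nat_lit 385109) (nat_lit 51) (.e (nat_lit 802560) (nat_lit 5) .nil))) .nil))) (.nd (nat_lit 5) 
(.lf (nat_lit 67860) (.g (nat_lit 3298) (.e (nat_lit 1637) (nat_lit 114) (.e (nat_lit 385074) (nat_lit 31) (.e (nat_lit 573493) (nat_lit 15) (.e (nat_lit 81951) (nat_lit 22) (.e (nat_lit 90165) (nat_lit 12) (.e (nat_lit 164238) (nat_lit 187) .nil)))))) (.g (nat_lit 5) .nil .nil))) 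
(.lf (nat_lit 67892) (.g (nat_lit 2903) (.e (nat_lit 1638) (nat_lit 114) (.e (nat_lit 392960) (nat_lit 24) (.e (nat_lit 516160) (nat_lit 10) (.e (nat_lit 434232) (nat_lit 23) (.e (nat_lit 532513) (nat_lit 3) (.e (nat_lit 114714) (nat_lit 22) (.e (nat_lit 90120) (nat_lit 0) .nil))))))) (.g (nat_lit 6) .nil .nil))))) (.nd (nat_lit 4) (.nd (nat_lit 5) 
(.lf (nat_lit 67852) (.g (nat_lit 3379) (.e (nat_lit 1637) (nat_lit 114) (.e (nat_lit 385074) (nat_lit 31) (.e (nat_lit 573485) (nat_lit 13) (.e (nat_lit 65604) (nat_lit 9) (.e (nat_lit 336028) (nat_lit 3) (.e (nat_lit 98325) (nat_lit 17) (.e (nat_lit 7554) (nat_lit 402) .nil))))))) (.g (nat_lit 5) .nil .nil))) 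
(.lf (nat_lit 67884) (.g (nat_lit 2095) (.e (nat_lit 1638) (nat_lit 114) (.e (nat_lit 392960) (nat_lit 5) (.e (nat_lit 73754) (nat_lit 8) (.e (nat_lit 557059) (nat_lit 0) (.e (nat_lit 1633) (nat_lit 114) (.e (nat_lit 385092) (nat_lit 49) (.e (nat_lit 778291) (nat_lit 0) .nil))))))) (.g (nat_lit 5) .nil .nil)))) (.nd (nat_lit 5) 
(.lf (nat_lit 67868) (.g (nat_lit 3523) (.e (nat_lit 1637) (nat_lit 114) (.e (nat_lit 385092) (nat_lit 49) (.e (nat_lit 778320) (nat_lit 4) (.e (nat_lit 65630) (nat_lit 14) (.e (nat_lit 401454) (nat_lit 12) (.e (nat_lit 475141) (nat_lit 8) .nil)))))) (.g (nat_lit 5) .nil .nil))) 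
(.lf (nat_lit 67900) (.g (nat_lit 3124) (.e (nat_lit 1638) (nat_lit 114) (.e (nat_lit 392960) (nat_lit 24) (.e (nat_lit 516160) (nat_lit 10) (.e (nat_lit 434247) (nat_lit 28) (.e (nat_lit 573489) (nat_lit 14) (.e (nat_lit 73754) (nat_lit 8) (.e (nat_lit 557056) (nat_lit 0) .nil))))))) (.g (nat_lit 6) .nil .nil))))))) (.nd (nat_lit 2) (.nd (nat_lit 3) (.nd (nat_lit 4) (.nd (nat_lit 5) 
(.lf (nat_lit 67842) (.g (nat_lit 2074) (.e (nat_lit 1637) (nat_lit 114) (.e (nat_lit 385074) (nat_lit 31) (.e (nat_lit 573482) (nat_lit 13) (.e (nat_lit 65595) (nat_lit 9) .nil)))) .nil)) 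
(.lf (nat_lit 67874) (.g (nat_lit 2621) (.e (nat_lit 1637) (nat_lit 114) (.e (nat_lit 385105) (nat_lit 50) (.e (nat_lit 786473) (nat_lit 27) (.e (nat_lit 336235) (nat_lit 14) (.e (nat_lit 401454) (nat_lit 12) .nil))))) .nil))) (.nd (nat_lit 5) 
(.lf (nat_lit 67858) (.g (nat_lit 2179) (.e (nat_lit 1637) (nat_lit 114) (.e (nat_lit 385074) (nat_lit 31) (.e (nat_lit 573491) (nat_lit 15) (.e (nat_lit 81954) (nat_lit 23) (.e (nat_lit 98321) (nat_lit 17) (.e (nat_lit 7936) (nat_lit 402) .nil)))))) (.g (nat_lit 4) .nil .nil))) 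
(.lf (nat_lit 67890) (.g (nat_lit 2714) (.e (nat_lit 1638) (nat_lit 114) (.e (nat_lit 392960) (nat_lit 24) (.e (nat_lit 516160) (nat_lit 10) (.e (nat_lit 434232) (nat_lit 23) (.e (nat_lit 532513) (nat_lit 3) (.e (nat_lit 114714) (nat_lit 22) (.e (nat_lit 90113) (nat_lit 0) .nil))))))) (.g (nat_lit 6) .nil .nil))))) (.nd (nat_lit 4) (.nd (nat_lit 5) 
(.lf (nat_lit 67850) (.g (nat_lit 3786) (.e (nat_lit 1637) (nat_lit 114) (.e (nat_lit 385074) (nat_lit 31) (.e (nat_lit 573485) (nat_lit 13) (.e (nat_lit 65604) (nat_lit 9) (.e (nat_lit 336013) (nat_lit 2) (.e (nat_lit 90165) (nat_lit 12) (.e (nat_lit 164238) (nat_lit 187) .nil))))))) (.g (nat_lit 6) .nil .nil))) 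
(.lf (nat_lit 67882) (.g (nat_lit 1263) (.e (nat_lit 1638) (nat_lit 114) (.e (nat_lit 392960) (nat_lit 5) (.e (nat_lit 73746) (nat_lit 3) (.e (nat_lit 524032) (nat_lit 32) (.e (nat_lit 385092) (nat_lit 49) (.e (nat_lit 778291) (nat_lit 0) .nil)))))) (.g (nat_lit 5) .nil .nil)))) (.nd (nat_lit 5) 
(.lf (nat_lit 67866) (.g (nat_lit 3493) (.e (nat_lit 1637) (nat_lit 114) (.e (nat_lit 385074) (nat_lit 31) (.e (nat_lit 573493) (nat_lit 15) (.e (nat_lit 81956) (nat_lit 23) (.e (nat_lit 98325) (nat_lit 17) (.e (nat_lit 7554) (nat_lit 402) .nil)))))) (.g (nat_lit 6) .nil .nil))) 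
(.lf (nat_lit 67898) (.g (nat_lit 2117) (.e (nat_lit 1638) (nat_lit 114) (.e (nat_lit 392960) (nat_lit 24) (.e (nat_lit 516160) (nat_lit 10) (.e (nat_lit 434247) (nat_lit 28) (.e (nat_lit 573485) (nat_lit 13) (.e (nat_lit 65549) (nat_lit 0) (.e (nat_lit 1859) (nat_lit 124) (.e (nat_lit 557056) (nat_lit 0) .nil)))))))) (.g (nat_lit 5) .nil .nil)))))) 
(.nd (nat_lit 3) (.nd (nat_lit 4) (.nd (nat_lit 5) 
(.lf (nat_lit 67846) (.g (nat_lit 4114) (.e (nat_lit 1637) (nat_lit 114) (.e (nat_lit 385074) (nat_lit 31) (.e (nat_lit 573482) (nat_lit 13) (.e (nat_lit 65604) (nat_lit 9) (.e (nat_lit 336028) (nat_lit 3) (.e (nat_lit 98325) (nat_lit 17) (.e (nat_lit 7554) (nat_lit 402) .nil))))))) (.g (nat_lit 6) .nil .nil))) 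
(.lf (nat_lit 67878) (.g (nat_lit 1070) (.e (nat_lit 1637) (nat_lit 114) (.e (nat_lit 385109) (nat_lit 51) (.e (nat_lit 794682) (nat_lit 25) .nil))) .nil))) (.nd (nat_lit 5) 
(.lf (nat_lit 67862) (.g (nat_lit 3500) (.e (nat_lit 1637) (nat_lit 114) (.e (nat_lit 385074) (nat_lit 31) (.e (nat_lit 573493) (nat_lit 15) (.e (nat_lit 81953) (nat_lit 22) (.e (nat_lit 90165) (nat_lit 12) (.e (nat_lit 164238) (nat_lit 187) .nil)))))) (.g (nat_lit 0) .nil .nil))) 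
(.lf (nat_lit 67894) (.g (nat_lit 2029) (.e (nat_lit 1638) (nat_lit 114) (.e (nat_lit 392960) (nat_lit 24) (.e (nat_lit 516160) (nat_lit 10) (.e (nat_lit 434234) (nat_lit 23) (.e (nat_lit 532515) (nat_lit 3) (.e (nat_lit 114716) (nat_lit 22) (.e (nat_lit 90112) (nat_lit 0) .nil))))))) (.g (nat_lit 6) .nil .nil))))) (.nd (nat_lit 4) (.nd (nat_lit 5) 
(.lf (nat_lit 67854) (.g (nat_lit 2797) (.e (nat_lit 1637) (nat_lit 114) (.e (nat_lit 385074) (nat_lit 31) (.e (nat_lit 573485) (nat_lit 13) (.e (nat_lit 65619) (nat_lit 10) (.e (nat_lit 344117) (nat_lit 21) (.e (nat_lit 516106) (nat_lit 0) (.e (nat_lit 7554) (nat_lit 402) .nil))))))) (.g (nat_lit 4) .nil .nil))) 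
(.lf (nat_lit 67886) (.g (nat_lit 3287) (.e (nat_lit 1638) (nat_lit 114) (.e (nat_lit 392960) (nat_lit 24) (.e (nat_lit 516160) (nat_lit 10) (.e (nat_lit 434231) (nat_lit 23) (.e (nat_lit 532513) (nat_lit 3) (.e (nat_lit 114714) (nat_lit 22) (.e (nat_lit 90112) (nat_lit 0) .nil))))))) (.g (nat_lit 6) .nil .nil)))) (.nd (nat_lit 5) 
(.lf (nat_lit 67870) (.g (nat_lit 2103) (.e (nat_lit 1637) (nat_lit 114) (.e (nat_lit 385093) (nat_lit 49) (.e (nat_lit 778317) (nat_lit 3) (.e (nat_lit 57480) (nat_lit 28) (.e (nat_lit 557109) (nat_lit 15) (.e (nat_lit 188449) (nat_lit 22) (.e (nat_lit 204544) (nat_lit 9) .nil))))))) (.g (nat_lit 4) .nil .nil))) 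
(.lf (nat_lit 67902) (.g (nat_lit 3663) (.e (nat_lit 1638) (nat_lit 114) (.e (nat_lit 392960) (nat_lit 24) (.e (nat_lit 516160) (nat_lit 10) (.e (nat_lit 434247) (nat_lit 28) (.e (nat_lit 573489) (nat_lit 14) (.e (nat_lit 73755) (nat_lit 8) (.e (nat_lit 557062) (nat_lit 0) .nil))))))) (.g (nat_lit 6) .nil .nil)))))))) 
(.nd (nat_lit 1) (.nd (nat_lit 2) (.nd (nat_lit 3) (.nd (nat_lit 4) (.nd (nat_lit 5) 
(.lf (nat_lit 67841) (.g (nat_lit 1993) (.e (nat_lit 1637) (nat_lit 114) (.e (nat_lit 385074) (nat_lit 31) (.e (nat_lit 573482) (nat_lit 13) (.e (nat_lit 65589) (nat_lit 9) .nil)))) .nil)) 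
(.lf (nat_lit 67873) (.g (nat_lit 790) (.e (nat_lit 1637) (nat_lit 114) (.e (nat_lit 385102) (nat_lit 50) (.e (nat_lit 786483) (nat_lit 30) (.e (nat_lit 360484) (nat_lit 15) .nil)))) .nil))) (.nd (nat_lit 5) 
(.lf (nat_lit 67857) (.g (nat_lit 2442) (.e (nat_lit 1637) (nat_lit 114) (.e (nat_lit 385074) (nat_lit 31) (.e (nat_lit 573491) (nat_lit 15) (.e (nat_lit 81951) (nat_lit 22) (.e (nat_lit 90165) (nat_lit 12) (.e (nat_lit 164239) (nat_lit 187) .nil)))))) (.g (nat_lit 0) .nil .nil))) 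
(.lf (nat_lit 67889) (.g (nat_lit 2429) (.e (nat_lit 1638) (nat_lit 114) (.e (nat_lit 392960) (nat_lit 24) (.e (nat_lit 516160) (nat_lit 10) (.e (nat_lit 434231) (nat_lit 23) (.e (nat_lit 532514) (nat_lit 3) (.e (nat_lit 114715) (nat_lit 22) (.e (nat_lit 90113) (nat_lit 0) .nil))))))) (.g (nat_lit 6) .nil .nil))))) (.nd (nat_lit 4) (.nd (nat_lit 5) 
(.lf (nat_lit 67849) (.g (nat_lit 4247) (.e (nat_lit 1637) (nat_lit 114) (.e (nat_lit 385074) (nat_lit 31) (.e (nat_lit 573484) (nat_lit 13) (.e (nat_lit 65610) (nat_lit 10) (.e (nat_lit 344117) (nat_lit 21) (.e (nat_lit 516106) (nat_lit 0) (.e (nat_lit 7556) (nat_lit 402) .nil))))))) (.g (nat_lit 7) .nil .nil))) 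
(.lf (nat_lit 67881) (.g (nat_lit 2101) (.e (nat_lit 1637) (nat_lit 114) (.e (nat_lit 385109) (nat_lit 51) (.e (nat_lit 794684) (nat_lit 25) (.e (nat_lit 221207) (nat_lit 21) (.e (nat_lit 164188) (nat_lit 157) .nil))))) .nil))) (.nd (nat_lit 5) 
(.lf (nat_lit 67865) (.g (nat_lit 2483) (.e (nat_lit 1637) (nat_lit 114) (.e (nat_lit 385074) (nat_lit 31) (.e (nat_lit 573493) (nat_lit 15) (.e (nat_lit 81956) (nat_lit 23) (.e (nat_lit 98321) (nat_lit 17) .nil))))) .nil)) 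
(.lf (nat_lit 67897) (.g (nat_lit 2739) (.e (nat_lit 1638) (nat_lit 114) (.e (nat_lit 392960) (nat_lit 24) (.e (nat_lit 516160) (nat_lit 10) (.e (nat_lit 434245) (nat_lit 28) (.e (nat_lit 573488) (nat_lit 14) (.e (nat_lit 73755) (nat_lit 8) (.e (nat_lit 557057) (nat_lit 0) .nil))))))) (.g (nat_lit 6) .nil .nil)))))) (.nd (nat_lit 3) (.nd (nat_lit 4) (.nd (nat_lit 5) 
(.lf (nat_lit 67845) (.g (nat_lit 4185) (.e (nat_lit 1637) (nat_lit 114) (.e (nat_lit 385074) (nat_lit 31) (.e (nat_lit 573482) (nat_lit 13) (.e (nat_lit 65604) (nat_lit 9) (.e (nat_lit 336013) (nat_lit 2) (.e (nat_lit 90165) (nat_lit 12) (.e (nat_lit 164239) (nat_lit 187) .nil))))))) (.g (nat_lit 6) .nil .nil))) 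
(.lf (nat_lit 67877) (.g (nat_lit 2841) (.e (nat_lit 1637) (nat_lit 114) (.e (nat_lit 385109) (nat_lit 51) (.e (nat_lit 794659) (nat_lit 21) (.e (nat_lit 164398) (nat_lit 256) (.e (nat_lit 57427) (nat_lit 15) (.e (nat_lit 360475) (nat_lit 8) (.e (nat_lit 557057) (nat_lit 0) .nil))))))) (.g (nat_lit 5) .nil .nil)))) (.nd (nat_lit 5) 
(.lf (nat_lit 67861) (.g (nat_lit 2881) (.e (nat_lit 1637) (nat_lit 114) (.e (nat_lit 385074) (nat_lit 31) (.e (nat_lit 573493) (nat_lit 15) (.e (nat_lit 81951) (nat_lit 22) (.e (nat_lit 90165) (nat_lit 12) (.e (nat_lit 164239) (nat_lit 187) .nil)))))) (.g (nat_lit 4) .nil .nil))) 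
(.lf (nat_lit 67893) (.g (nat_lit 2393) (.e (nat_lit 1638) (nat_lit 114) (.e (nat_lit 392960) (nat_lit 24) (.e (nat_lit 516160) (nat_lit 10) (.e (nat_lit 434232) (nat_lit 23) (.e (nat_lit 532515) (nat_lit 3) (.e (nat_lit 114716) (nat_lit 22) (.e (nat_lit 90113) (nat_lit 0) .nil))))))) (.g (nat_lit 6) .nil .nil))))) (.nd (nat_lit 4) (.nd (nat_lit 5) 
(.lf (nat_lit 67853) (.g (nat_lit 3101) (.e (nat_lit 1637) (nat_lit 114) (.e (nat_lit 385074) (nat_lit 31) (.e (nat_lit 573485) (nat_lit 13) (.e (nat_lit 65604) (nat_lit 9) (.e (nat_lit 336028) (nat_lit 3) (.e (nat_lit 98325) (nat_lit 17) (.e (nat_lit 7556) (nat_lit 402) .nil))))))) (.g (nat_lit 5) .nil .nil))) 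
(.lf (nat_lit 67885) (.g (nat_lit 2710) (.e (nat_lit 1638) (nat_lit 114) (.e (nat_lit 392960) (nat_lit 24) (.e (nat_lit 516151) (nat_lit 9) (.e (nat_lit 426132) (nat_lit 3) (.e (nat_lit 204838) (nat_lit 20) (.e (nat_lit 114716) (nat_lit 22) (.e (nat_lit 90112) (nat_lit 0) .nil))))))) (.g (nat_lit 6) .nil .nil)))) (.nd (nat_lit 5) 
(.lf (nat_lit 67869) (.g (nat_lit 2449) (.e (nat_lit 1637) (nat_lit 114) (.e (nat_lit 385093) (nat_lit 49) (.e (nat_lit 778317) (nat_lit 3) (.e (nat_lit 57476) (nat_lit 28) (.e (nat_lit 557108) (nat_lit 15) (.e (nat_lit 188449) (nat_lit 22) (.e (nat_lit 204544) (nat_lit 9) .nil))))))) (.g (nat_lit 4) .nil .nil))) 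
(.lf (nat_lit 67901) (.g (nat_lit 3000) (.e (nat_lit 1638) (nat_lit 114) (.e (nat_lit 392960) (nat_lit 24) (.e (nat_lit 516160) (nat_lit 10) (.e (nat_lit 434247) (nat_lit 28) (.e (nat_lit 573489) (nat_lit 14) (.e (nat_lit 73754) (nat_lit 8) (.e (nat_lit 557063) (nat_lit 0) .nil))))))) (.g (nat_lit 6) .nil .nil))))))) (.nd (nat_lit 2) (.nd (nat_lit 3) (.nd (nat_lit 4) (.nd (nat_lit 5) 
(.lf (nat_lit 67843) (.g (nat_lit 2248) (.e (nat_lit 1637) (nat_lit 114) (.e (nat_lit 385074) (nat_lit 31) (.e (nat_lit 573482) (nat_lit 13) (.e (nat_lit 65597) (nat_lit 9) .nil)))) .nil)) 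
(.lf (nat_lit 67875) (.g (nat_lit 1048) (.e (nat_lit 1637) (nat_lit 114) (.e (nat_lit 385109) (nat_lit 51) (.e (nat_lit 802560) (nat_lit 4) .nil))) .nil))) (.nd (nat_lit 5) 
(.lf (nat_lit 67859) (.g (nat_lit 2543) (.e (nat_lit 1637) (nat_lit 114) (.e (nat_lit 385074) (nat_lit 31) (.e (nat_lit 573491) (nat_lit 15) (.e (nat_lit 81954) (nat_lit 23) (.e (nat_lit 98325) (nat_lit 17) (.e (nat_lit 7554) (nat_lit 402) .nil)))))) (.g (nat_lit 6) .nil .nil))) 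
(.lf (nat_lit 67891) (.g (nat_lit 2883) (.e (nat_lit 1638) (nat_lit 114) (.e (nat_lit 392960) (nat_lit 24) (.e (nat_lit 516160) (nat_lit 10) (.e (nat_lit 434232) (nat_lit 23) (.e (nat_lit 532513) (nat_lit 3) (.e (nat_lit 114714) (nat_lit 22) (.e (nat_lit 90118) (nat_lit 0) .nil))))))) (.g (nat_lit 6) .nil .nil))))) (.nd (nat_lit 4) (.nd (nat_lit 5) 
(.lf (nat_lit 67851) (.g (nat_lit 3458) (.e (nat_lit 1637) (nat_lit 114) (.e (nat_lit 385074) (nat_lit 31) (.e (nat_lit 573485) (nat_lit 13) (.e (nat_lit 65604) (nat_lit 9) (.e (nat_lit 336013) (nat_lit 2) (.e (nat_lit 90165) (nat_lit 12) (.e (nat_lit 164239) (nat_lit 187) .nil))))))) (.g (nat_lit 6) .nil .nil))) 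
(.lf (nat_lit 67883) (.g (nat_lit 1762) (.e (nat_lit 1638) (nat_lit 114) (.e (nat_lit 392960) (nat_lit 5) (.e (nat_lit 73746) (nat_lit 3) (.e (nat_lit 524032) (nat_lit 32) (.e (nat_lit 385093) (nat_lit 49) (.e (nat_lit 778291) (nat_lit 0) .nil)))))) (.g (nat_lit 5) .nil .nil)))) (.nd (nat_lit 5) 
(.lf (nat_lit 67867) (.g (nat_lit 1261) (.e (nat_lit 1637) (nat_lit 114) (.e (nat_lit 385091) (nat_lit 49) (.e (nat_lit 778317) (nat_lit 3) (.e (nat_lit 57476) (nat_lit 28) (.e (nat_lit 557108) (nat_lit 15) .nil))))) .nil)) 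
(.lf (nat_lit 67899) (.g (nat_lit 2090) (.e (nat_lit 1638) (nat_lit 114) (.e (nat_lit 392960) (nat_lit 24) (.e (nat_lit 516160) (nat_lit 10) (.e (nat_lit 434247) (nat_lit 28) (.e (nat_lit 573485) (nat_lit 13) (.e (nat_lit 65549) (nat_lit 0) (.e (nat_lit 1859) (nat_lit 124) (.e (nat_lit 557062) (nat_lit 0) .nil)))))))) (.g (nat_lit 5) .nil .nil)))))) 
(.nd (nat_lit 3) (.nd (nat_lit 4) (.nd (nat_lit 5) 
(.lf (nat_lit 67847) (.g (nat_lit 4007) (.e (nat_lit 1637) (nat_lit 114) (.e (nat_lit 385074) (nat_lit 31) (.e (nat_lit 573482) (nat_lit 13) (.e (nat_lit 65604) (nat_lit 9) (.e (nat_lit 336028) (nat_lit 3) (.e (nat_lit 98325) (nat_lit 17) (.e (nat_lit 7556) (nat_lit 402) .nil))))))) (.g (nat_lit 6) .nil .nil))) 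
(.lf (nat_lit 67879) (.g (nat_lit 1207) (.e (nat_lit 1637) (nat_lit 114) (.e (nat_lit 385109) (nat_lit 51) (.e (nat_lit 794683) (nat_lit 25) .nil))) .nil))) (.nd (nat_lit 5) 
(.lf (nat_lit 67863) (.g (nat_lit 2876) (.e (nat_lit 1637) (nat_lit 114) (.e (nat_lit 385074) (nat_lit 31) (.e (nat_lit 573493) (nat_lit 15) (.e (nat_lit 81954) (nat_lit 23) (.e (nat_lit 98325) (nat_lit 17) (.e (nat_lit 7554) (nat_lit 402) .nil)))))) (.g (nat_lit 4) .nil .nil))) 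
(.lf (nat_lit 67895) (.g (nat_lit 2105) (.e (nat_lit 1638) (nat_lit 114) (.e (nat_lit 392960) (nat_lit 24) (.e (nat_lit 516160) (nat_lit 10) (.e (nat_lit 434234) (nat_lit 23) (.e (nat_lit 532515) (nat_lit 3) (.e (nat_lit 114716) (nat_lit 22) (.e (nat_lit 90113) (nat_lit 0) .nil))))))) (.g (nat_lit 6) .nil .nil))))) (.nd (nat_lit 4) (.nd (nat_lit 5) 
(.lf (nat_lit 67855) (.g (nat_lit 4241) (.e (nat_lit 1637) (nat_lit 114) (.e (nat_lit 385074) (nat_lit 31) (.e (nat_lit 573485) (nat_lit 13) (.e (nat_lit 65619) (nat_lit 10) (.e (nat_lit 344117) (nat_lit 21) (.e (nat_lit 516106) (nat_lit 0) (.e (nat_lit 7556) (nat_lit 402) .nil))))))) (.g (nat_lit 6) .nil .nil))) 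
(.lf (nat_lit 67887) (.g (nat_lit 3418) (.e (nat_lit 1638) (nat_lit 114) (.e (nat_lit 392960) (nat_lit 24) (.e (nat_lit 516160) (nat_lit 10) (.e (nat_lit 434231) (nat_lit 23) (.e (nat_lit 532513) (nat_lit 3) (.e (nat_lit 114714) (nat_lit 22) (.e (nat_lit 90113) (nat_lit 0) .nil))))))) (.g (nat_lit 6) .nil .nil)))) (.nd (nat_lit 5) 
(.lf (nat_lit 67871) (.g (nat_lit 4157) (.e (nat_lit 1637) (nat_lit 114) (.e (nat_lit 385093) (nat_lit 49) (.e (nat_lit 778320) (nat_lit 4) (.e (nat_lit 65630) (nat_lit 14) (.e (nat_lit 401454) (nat_lit 12) (.e (nat_lit 475141) (nat_lit 8) .nil)))))) (.g (nat_lit 6) .nil .nil))) 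
(.lf (nat_lit 67903) (.g (nat_lit 4275) (.e (nat_lit 1638) (nat_lit 114) (.e (nat_lit 392960) (nat_lit 24) (.e (nat_lit 516160) (nat_lit 10) (.e (nat_lit 434248) (nat_lit 28) (.e (nat_lit 573482) (nat_lit 13) (.e (nat_lit 65549) (nat_lit 0) (.e (nat_lit 1858) (nat_lit 124) (.e (nat_lit 557062) (nat_lit 0) .nil)))))))) (.g (nat_lit 7) .nil .nil)))))))))

noncomputable def tv936 : DT := (.nd (nat_lit 0) (.nd (nat_lit 1) (.nd (nat_lit 2) (.nd (nat_lit 3) (.nd (nat_lit 4) (.nd (nat_lit 5) 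
(.lf (nat_lit 67904) (.g (nat_lit 3373) (.e (nat_lit 1638) (nat_lit 114) (.e (nat_lit 392960) (nat_lit 24) (.e (nat_lit 516160) (nat_lit 10) (.e (nat_lit 434248) (nat_lit 28) (.e (nat_lit 573482) (nat_lit 13) (.e (nat_lit 65549) (nat_lit 0) (.e (nat_lit 1859) (nat_lit 124) (.e (nat_lit 557062) (nat_lit 0) .nil)))))))) (.g (nat_lit 7) .nil .nil))) 
(.lf (nat_lit 67936) (.g (nat_lit 2426) (.e (nat_lit 1638) (nat_lit 114) (.e (nat_lit 385067) (nat_lit 26) (.e (nat_lit 532501) (nat_lit 1) (.e (nat_lit 57851) (nat_lit 252) (.e (nat_lit 57406) (nat_lit 12) (.e (nat_lit 336450) (nat_lit 33) (.e (nat_lit 475142) (nat_lit 8) .nil))))))) (.g (nat_lit 5) .nil .nil)))) (.nd (nat_lit 5) 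
(.lf (nat_lit 67920) (.g (nat_lit 1689) (.e (nat_lit 1638) (nat_lit 114) (.e (nat_lit 385066) (nat_lit 26) (.e (nat_lit 532534) (nat_lit 9) (.e (nat_lit 336115) (nat_lit 9) .nil)))) .nil)) 
(.lf (nat_lit 67952) (.g (nat_lit 2170) (.e (nat_lit 1638) (nat_lit 114) (.e (nat_lit 385067) (nat_lit 26) (.e (nat_lit 532513) (nat_lit 3) (.e (nat_lit 114698) (nat_lit 11) (.e (nat_lit 426122) (nat_lit 2) (.e (nat_lit 196661) (nat_lit 12) (.e (nat_lit 57740) (nat_lit 187) .nil))))))) (.g (nat_lit 4) .nil .nil))))) (.nd (nat_lit 4) (.nd (nat_lit 5) 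
(.lf (nat_lit 67912) (.g (nat_lit 1877) (.e (nat_lit 1638) (nat_lit 114) (.e (nat_lit 385065) (nat_lit 26) (.e (nat_lit 532560) (nat_lit 14) (.e (nat_lit 376842) (nat_lit 11) (.e (nat_lit 426100) (nat_lit 1) .nil))))) .nil)) 
(.lf (nat_lit 67944) (.g (nat_lit 3695) (.e (nat_lit 1638) (nat_lit 114) (.e (nat_lit 385067) (nat_lit 26) (.e (nat_lit 532504) (nat_lit 1) (.e (nat_lit 57851) (nat_lit 252) (.e (nat_lit 57445) (nat_lit 19) (.e (nat_lit 393221) (nat_lit 0) (.e (nat_lit 6466) (nat_lit 343) .nil))))))) (.g (nat_lit 0) .nil .nil)))) (.nd (nat_lit 5) 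
(.lf (nat_lit 67928) (.g (nat_lit 1999) (.e (nat_lit 1638) (nat_lit 114) (.e (nat_lit 385066) (nat_lit 26) (.e (nat_lit 532558) (nat_lit 14) (.e (nat_lit 376842) (nat_lit 11) (.e (nat_lit 426098) (nat_lit 1) (.e (nat_lit 164153) (nat_lit 152) (.e (nat_lit 1068) (nat_lit 81) .nil))))))) (.g (nat_lit 4) .nil .nil))) 
(.lf (nat_lit 67960) (.g (nat_lit 2236) (.e (nat_lit 1638) (nat_lit 114) (.e (nat_lit 385068) (nat_lit 26) (.e (nat_lit 532499) (nat_lit 1) (.e (nat_lit 57847) (nat_lit 252) (.e (nat_lit 57407) (nat_lit 12) .nil))))) .nil))))) (.nd (nat_lit 3) (.nd (nat_lit 4) (.nd (nat_lit 5) 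
(.lf (nat_lit 67908) (.g (nat_lit 846) (.e (nat_lit 1638) (nat_lit 114) (.e (nat_lit 385065) (nat_lit 26) (.e (nat_lit 532555) (nat_lit 13) (.e (nat_lit 368676) (nat_lit 21) .nil)))) .nil)) 
(.lf (nat_lit 67940) (.g (nat_lit 2973) (.e (nat_lit 1638) (nat_lit 114) (.e (nat_lit 385067) (nat_lit 26) (.e (nat_lit 532504) (nat_lit 1) (.e (nat_lit 57851) (nat_lit 252) (.e (nat_lit 57406) (nat_lit 12) (.e (nat_lit 336446) (nat_lit 33) (.e (nat_lit 475142) (nat_lit 8) .nil))))))) (.g (nat_lit 0) .nil .nil)))) (.nd (nat_lit 5) 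
(.lf (nat_lit 67924) (.g (nat_lit 1958) (.e (nat_lit 1638) (nat_lit 114) (.e (nat_lit 385066) (nat_lit 26) (.e (nat_lit 532553) (nat_lit 13) (.e (nat_lit 368676) (nat_lit 21) (.e (nat_lit 516124) (nat_lit 2) .nil))))) .nil)) 
(.lf (nat_lit 67956) (.g (nat_lit 1192) (.e (nat_lit 1638) (nat_lit 114) (.e (nat_lit 385067) (nat_lit 26) (.e (nat_lit 532560) (nat_lit 14) (.e (nat_lit 376842) (nat_lit 11) .nil)))) .nil)))) (.nd (nat_lit 4) (.nd (nat_lit 5) 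
(.lf (nat_lit 67916) (.g (nat_lit 3059) (.e (nat_lit 1638) (nat_lit 114) (.e (nat_lit 385066) (nat_lit 26) (.e (nat_lit 532534) (nat_lit 9) (.e (nat_lit 336019) (nat_lit 3) (.e (nat_lit 98341) (nat_lit 20) (.e (nat_lit 221185) (nat_lit 0) (.e (nat_lit 1846) (nat_lit 124) (.e (nat_lit 557056) (nat_lit 0) .nil)))))))) (.g (nat_lit 4) .nil .nil))) 
(.lf (nat_lit 67948) (.g (nat_lit 1995) (.e (nat_lit 1638) (nat_lit 114) (.e (nat_lit 385067) (nat_lit 26) (.e (nat_lit 532510) (nat_lit 2) (.e (nat_lit 106536) (nat_lit 11) (.e (nat_lit 16413) (nat_lit 2) (.e (nat_lit 196661) (nat_lit 12) (.e (nat_lit 57740) (nat_lit 187) .nil))))))) (.g (nat_lit 4) .nil .nil)))) (.nd (nat_lit 5) 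
(.lf (nat_lit 67932) (.g (nat_lit 2109) (.e (nat_lit 1638) (nat_lit 114) (.e (nat_lit 385066) (nat_lit 26) (.e (nat_lit 532560) (nat_lit 14) (.e (nat_lit 376842) (nat_lit 11) (.e (nat_lit 426100) (nat_lit 1) (.e (nat_lit 164161) (nat_lit 152) (.e (nat_lit 1068) (nat_lit 81) .nil))))))) (.g (nat_lit 4) .nil .nil))) 
(.lf (nat_lit 67964) (.g (nat_lit 3419) (.e (nat_lit 1638) (nat_lit 114) (.e (nat_lit 385068) (nat_lit 26) (.e (nat_lit 532499) (nat_lit 1) (.e (nat_lit 57847) (nat_lit 252) (.e (nat_lit 57411) (nat_lit 12) (.e (nat_lit 336446) (nat_lit 33) (.e (nat_lit 475142) (nat_lit 8) .nil))))))) (.g (nat_lit 5) .nil .nil))))))) (.nd (nat_lit 2) (.nd (nat_lit 3) (.nd (nat_lit 4) (.nd (nat_lit 5) 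
(.lf (nat_lit 67906) (.g (nat_lit 4305) (.e (nat_lit 1638) (nat_lit 114) (.e (nat_lit 392960) (nat_lit 24) (.e (nat_lit 516160) (nat_lit 10) (.e (nat_lit 434248) (nat_lit 28) (.e (nat_lit 573489) (nat_lit 14) (.e (nat_lit 73754) (nat_lit 8) (.e (nat_lit 557056) (nat_lit 0) .nil))))))) (.g (nat_lit 6) .nil .nil))) 
(.lf (nat_lit 67938) (.g (nat_lit 3547) (.e (nat_lit 1638) (nat_lit 114) (.e (nat_lit 385067) (nat_lit 26) (.e (nat_lit 532501) (nat_lit 1) (.e (nat_lit 57851) (nat_lit 252) (.e (nat_lit 57445) (nat_lit 19) (.e (nat_lit 393221) (nat_lit 0) (.e (nat_lit 6466) (nat_lit 343) .nil))))))) (.g (nat_lit 0) .nil .nil)))) (.nd (nat_lit 5) 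
(.lf (nat_lit 67922) (.g (nat_lit 1908) (.e (nat_lit 1638) (nat_lit 114) (.e (nat_lit 385066) (nat_lit 26) (.e (nat_lit 532534) (nat_lit 9) (.e (nat_lit 336211) (nat_lit 13) (.e (nat_lit 393251) (nat_lit 18) .nil))))) .nil)) 
(.lf (nat_lit 67954) (.g (nat_lit 1171) (.e (nat_lit 1638) (nat_lit 114) (.e (nat_lit 385067) (nat_lit 26) (.e (nat_lit 532544) (nat_lit 10) (.e (nat_lit 344133) (nat_lit 26) .nil)))) .nil)))) (.nd (nat_lit 4) (.nd (nat_lit 5) 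
(.lf (nat_lit 67914) (.g (nat_lit 2181) (.e (nat_lit 1638) (nat_lit 114) (.e (nat_lit 385066) (nat_lit 26) (.e (nat_lit 532534) (nat_lit 9) (.e (nat_lit 336019) (nat_lit 3) .nil)))) .nil)) 
(.lf (nat_lit 67946) (.g (nat_lit 3213) (.e (nat_lit 1638) (nat_lit 114) (.e (nat_lit 385067) (nat_lit 26) (.e (nat_lit 532504) (nat_lit 1) (.e (nat_lit 57851) (nat_lit 252) (.e (nat_lit 57445) (nat_lit 19) (.e (nat_lit 393221) (nat_lit 0) (.e (nat_lit 6489) (nat_lit 343) .nil))))))) (.g (nat_lit 6) .nil .nil)))) (.nd (nat_lit 5) 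
(.lf (nat_lit 67930) (.g (nat_lit 2172) (.e (nat_lit 1638) (nat_lit 114) (.e (nat_lit 385066) (nat_lit 26) (.e (nat_lit 532560) (nat_lit 14) (.e (nat_lit 376842) (nat_lit 11) (.e (nat_lit 426014) (nat_lit 0) .nil))))) .nil)) 
(.lf (nat_lit 67962) (.g (nat_lit 2153) (.e (nat_lit 1638) (nat_lit 114) (.e (nat_lit 385068) (nat_lit 26) (.e (nat_lit 532499) (nat_lit 1) (.e (nat_lit 57847) (nat_lit 252) (.e (nat_lit 57411) (nat_lit 12) .nil))))) .nil))))) (.nd (nat_lit 3) (.nd (nat_lit 4) (.nd (nat_lit 5) 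
(.lf (nat_lit 67910) (.g (nat_lit 2319) (.e (nat_lit 1638) (nat_lit 114) (.e (nat_lit 385065) (nat_lit 26) (.e (nat_lit 532558) (nat_lit 14) (.e (nat_lit 376842) (nat_lit 11) (.e (nat_lit 426098) (nat_lit 1) (.e (nat_lit 164151) (nat_lit 152) (.e (nat_lit 1089) (nat_lit 81) .nil))))))) (.g (nat_lit 4) .nil .nil))) 
(.lf (nat_lit 67942) (.g (nat_lit 2586) (.e (nat_lit 1638) (nat_lit 114) (.e (nat_lit 385067) (nat_lit 26) (.e (nat_lit 532504) (nat_lit 1) (.e (nat_lit 57851) (nat_lit 252) (.e (nat_lit 57406) (nat_lit 12) (.e (nat_lit 336450) (nat_lit 33) (.e (nat_lit 475142) (nat_lit 8) .nil))))))) (.g (nat_lit 5) .nil .nil)))) (.nd (nat_lit 5) 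
(.lf (nat_lit 67926) (.g (nat_lit 1022) (.e (nat_lit 1638) (nat_lit 114) (.e (nat_lit 385066) (nat_lit 26) (.e (nat_lit 532558) (nat_lit 14) (.e (nat_lit 376842) (nat_lit 11) .nil)))) .nil)) 
(.lf (nat_lit 67958) (.g (nat_lit 1298) (.e (nat_lit 1638) (nat_lit 114) (.e (nat_lit 385067) (nat_lit 26) (.e (nat_lit 532560) (nat_lit 14) (.e (nat_lit 384768) (nat_lit 12) .nil)))) .nil)))) (.nd (nat_lit 4) (.nd (nat_lit 5) 
(.lf (nat_lit 67918) (.g (nat_lit 3074) (.e (nat_lit 1638) (nat_lit 114) (.e (nat_lit 385066) (nat_lit 26) (.e (nat_lit 532534) (nat_lit 9) (.e (nat_lit 336019) (nat_lit 3) (.e (nat_lit 98341) (nat_lit 20) (.e (nat_lit 221185) (nat_lit 0) (.e (nat_lit 1853) (nat_lit 124) (.e (nat_lit 557062) (nat_lit 0) .nil)))))))) (.g (nat_lit 4) .nil .nil))) 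
(.lf (nat_lit 67950) (.g (nat_lit 1954) (.e (nat_lit 1638) (nat_lit 114) (.e (nat_lit 385067) (nat_lit 26) (.e (nat_lit 532511) (nat_lit 2) (.e (nat_lit 106536) (nat_lit 11) (.e (nat_lit 16413) (nat_lit 2) (.e (nat_lit 196661) (nat_lit 12) (.e (nat_lit 57740) (nat_lit 187) .nil))))))) (.g (nat_lit 4) .nil .nil)))) (.nd (nat_lit 5) 
(.lf (nat_lit 67934) (.g (nat_lit 2376) (.e (nat_lit 1638) (nat_lit 114) (.e (nat_lit 385067) (nat_lit 26) (.e (nat_lit 532501) (nat_lit 1) (.e (nat_lit 57851) (nat_lit 252) (.e (nat_lit 57406) (nat_lit 12) (.e (nat_lit 336445) (nat_lit 33) (.e (nat_lit 475142) (nat_lit 8) .nil))))))) (.g (nat_lit 5) .nil .nil))) 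
(.lf (nat_lit 67966) (.g (nat_lit 2583) (.e (nat_lit 1638) (nat_lit 114) (.e (nat_lit 385068) (nat_lit 26) (.e (nat_lit 532499) (nat_lit 1) (.e (nat_lit 57847) (nat_lit 252) (.e (nat_lit 57411) (nat_lit 12) (.e (nat_lit 336450) (nat_lit 33) (.e (nat_lit 475142) (nat_lit 8) .nil))))))) (.g (nat_lit 4) .nil .nil)))))))) 
(.nd (nat_lit 1) (.nd (nat_lit 2) (.nd (nat_lit 3) (.nd (nat_lit 4) (.nd (nat_lit 5) 
(.lf (nat_lit 67905) (.g (nat_lit 2886) (.e (nat_lit 1638) (nat_lit 114) (.e (nat_lit 392960) (nat_lit 24) (.e (nat_lit 516160) (nat_lit 10) (.e (nat_lit 434248) (nat_lit 28) (.e (nat_lit 573489) (nat_lit 14) (.e (nat_lit 73752) (nat_lit 8) (.e (nat_lit 557063) (nat_lit 0) .nil))))))) (.g (nat_lit 5) .nil .nil))) 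
(.lf (nat_lit 67937) (.g (nat_lit 3006) (.e (nat_lit 1638) (nat_lit 114) (.e (nat_lit 385067) (nat_lit 26) (.e (nat_lit 532501) (nat_lit 1) (.e (nat_lit 57851) (nat_lit 252) (.e (nat_lit 57445) (nat_lit 19) (.e (nat_lit 393217) (nat_lit 0) (.e (nat_lit 6466) (nat_lit 343) .nil))))))) (.g (nat_lit 0) .nil .nil)))) (.nd (nat_lit 5) 
(.lf (nat_lit 67921) (.g (nat_lit 1460) (.e (nat_lit 1638) (nat_lit 114) (.e (nat_lit 385066) (nat_lit 26) (.e (nat_lit 532534) (nat_lit 9) (.e (nat_lit 336211) (nat_lit 13) .nil)))) .nil)) 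
(.lf (nat_lit 67953) (.g (nat_lit 848) (.e (nat_lit 1638) (nat_lit 114) (.e (nat_lit 385067) (nat_lit 26) (.e (nat_lit 532543) (nat_lit 10) (.e (nat_lit 344130) (nat_lit 26) .nil)))) .nil)))) (.nd (nat_lit 4) (.nd (nat_lit 5) 
(.lf (nat_lit 67913) (.g (nat_lit 861) (.e (nat_lit 1638) (nat_lit 114) (.e (nat_lit 385066) (nat_lit 26) (.e (nat_lit 532533) (nat_lit 9) (.e (nat_lit 336211) (nat_lit 13) .nil)))) .nil)) 
(.lf (nat_lit 67945) (.g (nat_lit 3394) (.e (nat_lit 1638) (nat_lit 114) (.e (nat_lit 385067) (nat_lit 26) (.e (nat_lit 532504) (nat_lit 1) (.e (nat_lit 57851) (nat_lit 252) (.e (nat_lit 57445) (nat_lit 19) (.e (nat_lit 393221) (nat_lit 0) (.e (nat_lit 6469) (nat_lit 343) .nil))))))) (.g (nat_lit 0) .nil .nil)))) (.nd (nat_lit 5) 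
(.lf (nat_lit 67929) (.g (nat_lit 2043) (.e (nat_lit 1638) (nat_lit 114) (.e (nat_lit 385066) (nat_lit 26) (.e (nat_lit 532558) (nat_lit 14) (.e (nat_lit 376842) (nat_lit 11) (.e (nat_lit 426100) (nat_lit 1) (.e (nat_lit 164161) (nat_lit 152) (.e (nat_lit 1068) (nat_lit 81) .nil))))))) (.g (nat_lit 4) .nil .nil))) 
(.lf (nat_lit 67961) (.g (nat_lit 2974) (.e (nat_lit 1638) (nat_lit 114) (.e (nat_lit 385068) (nat_lit 26) (.e (nat_lit 532499) (nat_lit 1) (.e (nat_lit 57847) (nat_lit 252) (.e (nat_lit 57407) (nat_lit 12) (.e (nat_lit 336446) (nat_lit 33) (.e (nat_lit 475142) (nat_lit 8) .nil))))))) (.g (nat_lit 4) .nil .nil)))))) (.nd (nat_lit 3) (.nd (nat_lit 4) (.nd (nat_lit 5) 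
(.lf (nat_lit 67909) (.g (nat_lit 1037) (.e (nat_lit 1638) (nat_lit 114) (.e (nat_lit 385065) (nat_lit 26) (.e (nat_lit 532558) (nat_lit 14) (.e (nat_lit 376842) (nat_lit 11) .nil)))) .nil)) 
(.lf (nat_lit 67941) (.g (nat_lit 2277) (.e (nat_lit 1638) (nat_lit 114) (.e (nat_lit 385067) (nat_lit 26) (.e (nat_lit 532504) (nat_lit 1) (.e (nat_lit 57851) (nat_lit 252) (.e (nat_lit 57406) (nat_lit 12) (.e (nat_lit 336446) (nat_lit 33) (.e (nat_lit 475143) (nat_lit 8) .nil))))))) (.g (nat_lit 5) .nil .nil)))) (.nd (nat_lit 5) 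
(.lf (nat_lit 67925) (.g (nat_lit 1798) (.e (nat_lit 1638) (nat_lit 114) (.e (nat_lit 385066) (nat_lit 26) (.e (nat_lit 532555) (nat_lit 13) (.e (nat_lit 368676) (nat_lit 21) (.e (nat_lit 516124) (nat_lit 2) .nil))))) .nil)) 
(.lf (nat_lit 67957) (.g (nat_lit 2105) (.e (nat_lit 1638) (nat_lit 114) (.e (nat_lit 385067) (nat_lit 26) (.e (nat_lit 532560) (nat_lit 14) (.e (nat_lit 376842) (nat_lit 11) (.e (nat_lit 426100) (nat_lit 1) .nil))))) .nil)))) (.nd (nat_lit 4) (.nd (nat_lit 5) 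
(.lf (nat_lit 67917) (.g (nat_lit 3044) (.e (nat_lit 1638) (nat_lit 114) (.e (nat_lit 385066) (nat_lit 26) (.e (nat_lit 532534) (nat_lit 9) (.e (nat_lit 336019) (nat_lit 3) (.e (nat_lit 98341) (nat_lit 20) (.e (nat_lit 221185) (nat_lit 0) (.e (nat_lit 1853) (nat_lit 124) (.e (nat_lit 557056) (nat_lit 0) .nil)))))))) (.g (nat_lit 4) .nil .nil))) 
(.lf (nat_lit 67949) (.g (nat_lit 1841) (.e (nat_lit 1638) (nat_lit 114) (.e (nat_lit 385067) (nat_lit 26) (.e (nat_lit 532511) (nat_lit 2) (.e (nat_lit 106534) (nat_lit 11) (.e (nat_lit 16413) (nat_lit 2) (.e (nat_lit 196661) (nat_lit 12) (.e (nat_lit 57740) (nat_lit 187) .nil))))))) (.g (nat_lit 5) .nil .nil)))) (.nd (nat_lit 5) 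
(.lf (nat_lit 67933) (.g (nat_lit 1044) (.e (nat_lit 1638) (nat_lit 114) (.e (nat_lit 385067) (nat_lit 26) (.e (nat_lit 532499) (nat_lit 1) (.e (nat_lit 57847) (nat_lit 252) .nil)))) .nil)) 
(.lf (nat_lit 67965) (.g (nat_lit 2520) (.e (nat_lit 1638) (nat_lit 114) (.e (nat_lit 385068) (nat_lit 26) (.e (nat_lit 532499) (nat_lit 1) (.e (nat_lit 57847) (nat_lit 252) (.e (nat_lit 57411) (nat_lit 12) (.e (nat_lit 336446) (nat_lit 33) (.e (nat_lit 475143) (nat_lit 8) .nil))))))) (.g (nat_lit 4) .nil .nil))))))) (.nd (nat_lit 2) (.nd (nat_lit 3) (.nd (nat_lit 4) (.nd (nat_lit 5) 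
(.lf (nat_lit 67907) (.g (nat_lit 4805) (.e (nat_lit 1638) (nat_lit 114) (.e (nat_lit 392960) (nat_lit 24) (.e (nat_lit 516160) (nat_lit 10) (.e (nat_lit 434248) (nat_lit 28) (.e (nat_lit 573489) (nat_lit 14) (.e (nat_lit 73755) (nat_lit 8) (.e (nat_lit 557056) (nat_lit 0) .nil))))))) (.g (nat_lit 6) .nil .nil))) 
(.lf (nat_lit 67939) (.g (nat_lit 2536) (.e (nat_lit 1638) (nat_lit 114) (.e (nat_lit 385067) (nat_lit 26) (.e (nat_lit 532504) (nat_lit 1) (.e (nat_lit 57851) (nat_lit 252) (.e (nat_lit 57406) (nat_lit 12) (.e (nat_lit 336445) (nat_lit 33) (.e (nat_lit 475142) (nat_lit 8) .nil))))))) (.g (nat_lit 5) .nil .nil)))) (.nd (nat_lit 5) 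
(.lf (nat_lit 67923) (.g (nat_lit 1994) (.e (nat_lit 1638) (nat_lit 114) (.e (nat_lit 385066) (nat_lit 26) (.e (nat_lit 532534) (nat_lit 9) (.e (nat_lit 336211) (nat_lit 13) (.e (nat_lit 393252) (nat_lit 18) .nil))))) .nil)) 
(.lf (nat_lit 67955) (.g (nat_lit 1731) (.e (nat_lit 1638) (nat_lit 114) (.e (nat_lit 385067) (nat_lit 26) (.e (nat_lit 532555) (nat_lit 13) (.e (nat_lit 368676) (nat_lit 21) (.e (nat_lit 516124) (nat_lit 2) .nil))))) .nil)))) (.nd (nat_lit 4) (.nd (nat_lit 5) 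
(.lf (nat_lit 67915) (.g (nat_lit 2850) (.e (nat_lit 1638) (nat_lit 114) (.e (nat_lit 385066) (nat_lit 26) (.e (nat_lit 532534) (nat_lit 9) (.e (nat_lit 336019) (nat_lit 3) (.e (nat_lit 98341) (nat_lit 20) .nil))))) .nil)) 
(.lf (nat_lit 67947) (.g (nat_lit 1844) (.e (nat_lit 1638) (nat_lit 114) (.e (nat_lit 385067) (nat_lit 26) (.e (nat_lit 532508) (nat_lit 2) (.e (nat_lit 106534) (nat_lit 11) (.e (nat_lit 16413) (nat_lit 2) (.e (nat_lit 196661) (nat_lit 12) (.e (nat_lit 57740) (nat_lit 187) .nil))))))) (.g (nat_lit 5) .nil .nil)))) (.nd (nat_lit 5) 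
(.lf (nat_lit 67931) (.g (nat_lit 2042) (.e (nat_lit 1638) (nat_lit 114) (.e (nat_lit 385066) (nat_lit 26) (.e (nat_lit 532560) (nat_lit 14) (.e (nat_lit 376842) (nat_lit 11) (.e (nat_lit 426098) (nat_lit 1) (.e (nat_lit 164153) (nat_lit 152) (.e (nat_lit 1068) (nat_lit 81) .nil))))))) (.g (nat_lit 4) .nil .nil))) 
(.lf (nat_lit 67963) (.g (nat_lit 2547) (.e (nat_lit 1638) (nat_lit 114) (.e (nat_lit 385068) (nat_lit 26) (.e (nat_lit 532499) (nat_lit 1) (.e (nat_lit 57847) (nat_lit 252) (.e (nat_lit 57411) (nat_lit 12) (.e (nat_lit 336445) (nat_lit 33) (.e (nat_lit 475142) (nat_lit 8) .nil))))))) (.g (nat_lit 4) .nil .nil)))))) (.nd (nat_lit 3) (.nd (nat_lit 4) (.nd (nat_lit 5) 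
(.lf (nat_lit 67911) (.g (nat_lit 2304) (.e (nat_lit 1638) (nat_lit 114) (.e (nat_lit 385065) (nat_lit 26) (.e (nat_lit 532560) (nat_lit 14) (.e (nat_lit 376842) (nat_lit 11) (.e (nat_lit 426098) (nat_lit 1) (.e (nat_lit 164151) (nat_lit 152) (.e (nat_lit 1089) (nat_lit 81) .nil))))))) (.g (nat_lit 4) .nil .nil))) 
(.lf (nat_lit 67943) (.g (nat_lit 3153) (.e (nat_lit 1638) (nat_lit 114) (.e (nat_lit 385067) (nat_lit 26) (.e (nat_lit 532504) (nat_lit 1) (.e (nat_lit 57851) (nat_lit 252) (.e (nat_lit 57445) (nat_lit 19) (.e (nat_lit 393217) (nat_lit 0) (.e (nat_lit 6466) (nat_lit 343) .nil))))))) (.g (nat_lit 0) .nil .nil)))) (.nd (nat_lit 5) 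
(.lf (nat_lit 67927) (.g (nat_lit 2027) (.e (nat_lit 1638) (nat_lit 114) (.e (nat_lit 385066) (nat_lit 26) (.e (nat_lit 532558) (nat_lit 14) (.e (nat_lit 376842) (nat_lit 11) (.e (nat_lit 426014) (nat_lit 0) .nil))))) .nil)) 
(.lf (nat_lit 67959) (.g (nat_lit 1499) (.e (nat_lit 1638) (nat_lit 114) (.e (nat_lit 385068) (nat_lit 26) (.e (nat_lit 532499) (nat_lit 1) (.e (nat_lit 57847) (nat_lit 252) .nil)))) .nil)))) (.nd (nat_lit 4) (.nd (nat_lit 5) 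
(.lf (nat_lit 67919) (.g (nat_lit 2896) (.e (nat_lit 1638) (nat_lit 114) (.e (nat_lit 385066) (nat_lit 26) (.e (nat_lit 532534) (nat_lit 9) (.e (nat_lit 336019) (nat_lit 3) (.e (nat_lit 98342) (nat_lit 20) .nil))))) .nil)) 
(.lf (nat_lit 67951) (.g (nat_lit 1580) (.e (nat_lit 1638) (nat_lit 114) (.e (nat_lit 385067) (nat_lit 26) (.e (nat_lit 532513) (nat_lit 3) (.e (nat_lit 114698) (nat_lit 11) (.e (nat_lit 426122) (nat_lit 2) .nil))))) .nil))) (.nd (nat_lit 5) 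
(.lf (nat_lit 67935) (.g (nat_lit 2111) (.e (nat_lit 1638) (nat_lit 114) (.e (nat_lit 385067) (nat_lit 26) (.e (nat_lit 532501) (nat_lit 1) (.e (nat_lit 57851) (nat_lit 252) (.e (nat_lit 57406) (nat_lit 12) (.e (nat_lit 336446) (nat_lit 33) (.e (nat_lit 475143) (nat_lit 8) .nil))))))) (.g (nat_lit 5) .nil .nil))) 
(.lf (nat_lit 67967) (.g (nat_lit 2961) (.e (nat_lit 1638) (nat_lit 114) (.e (nat_lit 385068) (nat_lit 26) (.e (nat_lit 532499) (nat_lit 1) (.e (nat_lit 57847) (nat_lit 252) (.e (nat_lit 57445) (nat_lit 19) (.e (nat_lit 393217) (nat_lit 0) (.e (nat_lit 6466) (nat_lit 343) .nil))))))) (.g (nat_lit 4) .nil .nil)))))))))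

noncomputable def tv937 : DT := (.nd (nat_lit 0) (.nd (nat_lit 1) (.nd (nat_lit 2) (.nd (nat_lit 3) (.nd (nat_lit 4) (.nd (nat_lit 5) (.nd (nat_lit 6) 
(.lf (nat_lit 67968) (.g (nat_lit 3505) (.e (nat_lit 1638) (nat_lit 114) (.e (nat_lit 385068) (nat_lit 26) (.e (nat_lit 532499) (nat_lit 1) (.e (nat_lit 57847) (nat_lit 252) (.e (nat_lit 57445) (nat_lit 19) (.e (nat_lit 393221) (nat_lit 0) (.e (nat_lit 6466) (nat_lit 343) .nil))))))) (.g (nat_lit 5) .nil .nil))) 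
(.lf (nat_lit 68032) (.g (nat_lit 3143) (.e (nat_lit 1638) (nat_lit 114) (.e (nat_lit 385068) (nat_lit 26) (.e (nat_lit 532504) (nat_lit 1) (.e (nat_lit 57852) (nat_lit 252) (.e (nat_lit 57409) (nat_lit 12) (.e (nat_lit 336446) (nat_lit 33) (.e (nat_lit 475142) (nat_lit 8) .nil))))))) (.g (nat_lit 4) .nil .nil)))) (.nd (nat_lit 6) 
(.lf (nat_lit 68000) (.g (nat_lit 2077) (.e (nat_lit 1638) (nat_lit 114) (.e (nat_lit 385068) (nat_lit 26) (.e (nat_lit 532503) (nat_lit 1) (.e (nat_lit 57844) (nat_lit 252) .nil)))) .nil)) 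
(.lf (nat_lit 68064) (.g (nat_lit 2339) (.e (nat_lit 1638) (nat_lit 114) (.e (nat_lit 385068) (nat_lit 26) (.e (nat_lit 532534) (nat_lit 9) (.e (nat_lit 336211) (nat_lit 13) (.e (nat_lit 393251) (nat_lit 18) .nil))))) .nil)))) (.nd (nat_lit 5) (.nd (nat_lit 6) 
(.lf (nat_lit 67984) (.g (nat_lit 2582) (.e (nat_lit 1638) (nat_lit 114) (.e (nat_lit 385068) (nat_lit 26) (.e (nat_lit 532501) (nat_lit 1) (.e (nat_lit 57851) (nat_lit 252) .nil)))) .nil)) 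
(.lf (nat_lit 68048) (.g (nat_lit 2404) (.e (nat_lit 1638) (nat_lit 114) (.e (nat_lit 385068) (nat_lit 26) (.e (nat_lit 532504) (nat_lit 1) (.e (nat_lit 57854) (nat_lit 252) (.e (nat_lit 57447) (nat_lit 19) (.e (nat_lit 393220) (nat_lit 0) (.e (nat_lit 6466) (nat_lit 343) .nil))))))) (.g (nat_lit 4) .nil .nil)))) (.nd (nat_lit 6) 
(.lf (nat_lit 68016) (.g (nat_lit 2612) (.e (nat_lit 1638) (nat_lit 114) (.e (nat_lit 385068) (nat_lit 26) (.e (nat_lit 532503) (nat_lit 1) (.e (nat_lit 57848) (nat_lit 252) (.e (nat_lit 57407) (nat_lit 12) (.e (nat_lit 336446) (nat_lit 33) (.e (nat_lit 475143) (nat_lit 8) .nil))))))) (.g (nat_lit 4) .nil .nil))) 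
(.lf (nat_lit 68080) (.g (nat_lit 2625) (.e (nat_lit 1638) (nat_lit 114) (.e (nat_lit 385068) (nat_lit 26) (.e (nat_lit 532555) (nat_lit 13) (.e (nat_lit 368676) (nat_lit 21) (.e (nat_lit 516137) (nat_lit 6) .nil))))) .nil))))) (.nd (nat_lit 4) (.nd (nat_lit 5) (.nd (nat_lit 6) 
(.lf (nat_lit 67976) (.g (nat_lit 3199) (.e (nat_lit 1638) (nat_lit 114) (.e (nat_lit 385068) (nat_lit 26) (.e (nat_lit 532499) (nat_lit 1) (.e (nat_lit 57847) (nat_lit 252) (.e (nat_lit 57448) (nat_lit 19) (.e (nat_lit 393221) (nat_lit 0) (.e (nat_lit 6469) (nat_lit 343) .nil))))))) (.g (nat_lit 5) .nil .nil))) 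
(.lf (nat_lit 68040) (.g (nat_lit 3422) (.e (nat_lit 1638) (nat_lit 114) (.e (nat_lit 385068) (nat_lit 26) (.e (nat_lit 532504) (nat_lit 1) (.e (nat_lit 57853) (nat_lit 252) (.e (nat_lit 57445) (nat_lit 19) (.e (nat_lit 393221) (nat_lit 0) (.e (nat_lit 6466) (nat_lit 343) .nil))))))) (.g (nat_lit 5) .nil .nil)))) (.nd (nat_lit 6) 
(.lf (nat_lit 68008) (.g (nat_lit 2367) (.e (nat_lit 1638) (nat_lit 114) (.e (nat_lit 385068) (nat_lit 26) (.e (nat_lit 532503) (nat_lit 1) (.e (nat_lit 57847) (nat_lit 252) (.e (nat_lit 57447) (nat_lit 19) (.e (nat_lit 393221) (nat_lit 0) (.e (nat_lit 6469) (nat_lit 343) .nil))))))) (.g (nat_lit 4) .nil .nil))) 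
(.lf (nat_lit 68072) (.g (nat_lit 3810) (.e (nat_lit 1638) (nat_lit 114) (.e (nat_lit 385068) (nat_lit 26) (.e (nat_lit 532553) (nat_lit 13) (.e (nat_lit 368676) (nat_lit 21) (.e (nat_lit 516124) (nat_lit 2) (.e (nat_lit 220928) (nat_lit 0) (.e (nat_lit 1239) (nat_lit 91) (.e (nat_lit 90120) (nat_lit 0) .nil)))))))) (.g (nat_lit 5) .nil .nil))))) (.nd (nat_lit 5) (.nd (nat_lit 6) 
(.lf (nat_lit 67992) (.g (nat_lit 2260) (.e (nat_lit 1638) (nat_lit 114) (.e (nat_lit 385068) (nat_lit 26) (.e (nat_lit 532501) (nat_lit 1) (.e (nat_lit 57853) (nat_lit 252) .nil)))) .nil)) 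
(.lf (nat_lit 68056) (.g (nat_lit 3123) (.e (nat_lit 1638) (nat_lit 114) (.e (nat_lit 385068) (nat_lit 26) (.e (nat_lit 532530) (nat_lit 9) (.e (nat_lit 336324) (nat_lit 18) (.e (nat_lit 204880) (nat_lit 32) (.e (nat_lit 385057) (nat_lit 22) (.e (nat_lit 500011) (nat_lit 14) .nil))))))) (.g (nat_lit 4) .nil .nil)))) (.nd (nat_lit 6) 
(.lf (nat_lit 68024) (.g (nat_lit 2839) (.e (nat_lit 1638) (nat_lit 114) (.e (nat_lit 385068) (nat_lit 26) (.e (nat_lit 532503) (nat_lit 1) (.e (nat_lit 57849) (nat_lit 252) (.e (nat_lit 57448) (nat_lit 19) .nil))))) .nil)) 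
(.lf (nat_lit 68088) (.g (nat_lit 1309) (.e (nat_lit 1638) (nat_lit 114) (.e (nat_lit 385068) (nat_lit 26) (.e (nat_lit 532560) (nat_lit 14) (.e (nat_lit 376842) (nat_lit 11) .nil)))) .nil)))))) (.nd (nat_lit 3) (.nd (nat_lit 4) (.nd (nat_lit 5) (.nd (nat_lit 6) 
(.lf (nat_lit 67972) (.g (nat_lit 3178) (.e (nat_lit 1638) (nat_lit 114) (.e (nat_lit 385068) (nat_lit 26) (.e (nat_lit 532499) (nat_lit 1) (.e (nat_lit 57847) (nat_lit 252) (.e (nat_lit 57448) (nat_lit 19) (.e (nat_lit 393216) (nat_lit 0) (.e (nat_lit 6466) (nat_lit 343) .nil))))))) (.g (nat_lit 5) .nil .nil))) 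
(.lf (nat_lit 68036) (.g (nat_lit 2894) (.e (nat_lit 1638) (nat_lit 114) (.e (nat_lit 385068) (nat_lit 26) (.e (nat_lit 532504) (nat_lit 1) (.e (nat_lit 57852) (nat_lit 252) (.e (nat_lit 57447) (nat_lit 19) .nil))))) .nil))) (.nd (nat_lit 6) 
(.lf (nat_lit 68004) (.g (nat_lit 2360) (.e (nat_lit 1638) (nat_lit 114) (.e (nat_lit 385068) (nat_lit 26) (.e (nat_lit 532503) (nat_lit 1) (.e (nat_lit 57847) (nat_lit 252) (.e (nat_lit 57411) (nat_lit 12) (.e (nat_lit 336445) (nat_lit 33) (.e (nat_lit 475142) (nat_lit 8) .nil))))))) (.g (nat_lit 4) .nil .nil))) 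
(.lf (nat_lit 68068) (.g (nat_lit 897) (.e (nat_lit 1638) (nat_lit 114) (.e (nat_lit 385068) (nat_lit 26) (.e (nat_lit 540416) (nat_lit 10) .nil))) .nil)))) (.nd (nat_lit 5) (.nd (nat_lit 6) 
(.lf (nat_lit 67988) (.g (nat_lit 2909) (.e (nat_lit 1638) (nat_lit 114) (.e (nat_lit 385068) (nat_lit 26) (.e (nat_lit 532501) (nat_lit 1) (.e (nat_lit 57852) (nat_lit 252) (.e (nat_lit 57445) (nat_lit 19) .nil))))) .nil)) 
(.lf (nat_lit 68052) (.g (nat_lit 690) (.e (nat_lit 1638) (nat_lit 114) (.e (nat_lit 385068) (nat_lit 26) (.e (nat_lit 532515) (nat_lit 3) .nil))) .nil))) (.nd (nat_lit 6) 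
(.lf (nat_lit 68020) (.g (nat_lit 2610) (.e (nat_lit 1638) (nat_lit 114) (.e (nat_lit 385068) (nat_lit 26) (.e (nat_lit 532503) (nat_lit 1) (.e (nat_lit 57848) (nat_lit 252) (.e (nat_lit 57445) (nat_lit 19) (.e (nat_lit 393221) (nat_lit 0) (.e (nat_lit 6489) (nat_lit 343) .nil))))))) (.g (nat_lit 4) .nil .nil))) 
(.lf (nat_lit 68084) (.g (nat_lit 2925) (.e (nat_lit 1638) (nat_lit 114) (.e (nat_lit 385068) (nat_lit 26) (.e (nat_lit 532558) (nat_lit 14) (.e (nat_lit 376842) (nat_lit 11) (.e (nat_lit 426098) (nat_lit 1) (.e (nat_lit 164151) (nat_lit 152) (.e (nat_lit 1089) (nat_lit 81) .nil))))))) (.g (nat_lit 4) .nil .nil)))))) (.nd (nat_lit 4) (.nd (nat_lit 5) (.nd (nat_lit 6) 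
(.lf (nat_lit 67980) (.g (nat_lit 3066) (.e (nat_lit 1638) (nat_lit 114) (.e (nat_lit 385068) (nat_lit 26) (.e (nat_lit 532499) (nat_lit 1) (.e (nat_lit 57849) (nat_lit 252) (.e (nat_lit 57407) (nat_lit 12) (.e (nat_lit 336446) (nat_lit 33) (.e (nat_lit 475142) (nat_lit 8) .nil))))))) (.g (nat_lit 4) .nil .nil))) 
(.lf (nat_lit 68044) (.g (nat_lit 2464) (.e (nat_lit 1638) (nat_lit 114) (.e (nat_lit 385068) (nat_lit 26) (.e (nat_lit 532504) (nat_lit 1) (.e (nat_lit 57854) (nat_lit 252) (.e (nat_lit 57409) (nat_lit 12) (.e (nat_lit 336450) (nat_lit 33) (.e (nat_lit 475142) (nat_lit 8) .nil))))))) (.g (nat_lit 4) .nil .nil)))) (.nd (nat_lit 6) 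
(.lf (nat_lit 68012) (.g (nat_lit 3294) (.e (nat_lit 1638) (nat_lit 114) (.e (nat_lit 385068) (nat_lit 26) (.e (nat_lit 532503) (nat_lit 1) (.e (nat_lit 57847) (nat_lit 252) (.e (nat_lit 57448) (nat_lit 19) (.e (nat_lit 393221) (nat_lit 0) (.e (nat_lit 6466) (nat_lit 343) .nil))))))) (.g (nat_lit 5) .nil .nil))) 
(.lf (nat_lit 68076) (.g (nat_lit 1503) (.e (nat_lit 1638) (nat_lit 114) (.e (nat_lit 385068) (nat_lit 26) (.e (nat_lit 532555) (nat_lit 13) (.e (nat_lit 368676) (nat_lit 21) .nil)))) .nil)))) (.nd (nat_lit 5) (.nd (nat_lit 6) 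
(.lf (nat_lit 67996) (.g (nat_lit 2652) (.e (nat_lit 1638) (nat_lit 114) (.e (nat_lit 385068) (nat_lit 26) (.e (nat_lit 532501) (nat_lit 1) (.e (nat_lit 57854) (nat_lit 252) (.e (nat_lit 57447) (nat_lit 19) (.e (nat_lit 393216) (nat_lit 0) (.e (nat_lit 6466) (nat_lit 343) .nil))))))) (.g (nat_lit 4) .nil .nil))) 
(.lf (nat_lit 68060) (.g (nat_lit 2259) (.e (nat_lit 1638) (nat_lit 114) (.e (nat_lit 385068) (nat_lit 26) (.e (nat_lit 532534) (nat_lit 9) (.e (nat_lit 336019) (nat_lit 3) .nil)))) .nil))) (.nd (nat_lit 6) 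
(.lf (nat_lit 68028) (.g (nat_lit 2286) (.e (nat_lit 1638) (nat_lit 114) (.e (nat_lit 385068) (nat_lit 26) (.e (nat_lit 532504) (nat_lit 1) (.e (nat_lit 57852) (nat_lit 252) (.e (nat_lit 57406) (nat_lit 12) .nil))))) .nil)) 
(.lf (nat_lit 68092) (.g (nat_lit 2360) (.e (nat_lit 1638) (nat_lit 114) (.e (nat_lit 385068) (nat_lit 26) (.e (nat_lit 532560) (nat_lit 14) (.e (nat_lit 376842) (nat_lit 11) (.e (nat_lit 426098) (nat_lit 1) (.e (nat_lit 164153) (nat_lit 152) (.e (nat_lit 1097) (nat_lit 81) .nil))))))) (.g (nat_lit 4) .nil .nil)))))))) 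
(.nd (nat_lit 2) (.nd (nat_lit 3) (.nd (nat_lit 4) (.nd (nat_lit 5) (.nd (nat_lit 6) 
(.lf (nat_lit 67970) (.g (nat_lit 2747) (.e (nat_lit 1638) (nat_lit 114) (.e (nat_lit 385068) (nat_lit 26) (.e (nat_lit 532499) (nat_lit 1) (.e (nat_lit 57847) (nat_lit 252) (.e (nat_lit 57447) (nat_lit 19) (.e (nat_lit 393221) (nat_lit 0) (.e (nat_lit 6469) (nat_lit 343) .nil))))))) (.g (nat_lit 4) .nil .nil))) 
(.lf (nat_lit 68034) (.g (nat_lit 3356) (.e (nat_lit 1638) (nat_lit 114) (.e (nat_lit 385068) (nat_lit 26) (.e (nat_lit 532504) (nat_lit 1) (.e (nat_lit 57852) (nat_lit 252) (.e (nat_lit 57409) (nat_lit 12) (.e (nat_lit 336450) (nat_lit 33) (.e (nat_lit 475142) (nat_lit 8) .nil))))))) (.g (nat_lit 4) .nil .nil)))) (.nd (nat_lit 6) 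
(.lf (nat_lit 68002) (.g (nat_lit 1607) (.e (nat_lit 1638) (nat_lit 114) (.e (nat_lit 385068) (nat_lit 26) (.e (nat_lit 532503) (nat_lit 1) (.e (nat_lit 57847) (nat_lit 252) .nil)))) .nil)) 
(.lf (nat_lit 68066) (.g (nat_lit 1931) (.e (nat_lit 1638) (nat_lit 114) (.e (nat_lit 385068) (nat_lit 26) (.e (nat_lit 532534) (nat_lit 9) (.e (nat_lit 336326) (nat_lit 18) .nil)))) .nil)))) (.nd (nat_lit 5) (.nd (nat_lit 6) 
(.lf (nat_lit 67986) (.g (nat_lit 2153) (.e (nat_lit 1638) (nat_lit 114) (.e (nat_lit 385068) (nat_lit 26) (.e (nat_lit 532501) (nat_lit 1) (.e (nat_lit 57852) (nat_lit 252) .nil)))) .nil)) 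
(.lf (nat_lit 68050) (.g (nat_lit 987) (.e (nat_lit 1638) (nat_lit 114) (.e (nat_lit 385068) (nat_lit 26) (.e (nat_lit 532511) (nat_lit 2) .nil))) .nil))) (.nd (nat_lit 6) 
(.lf (nat_lit 68018) (.g (nat_lit 3053) (.e (nat_lit 1638) (nat_lit 114) (.e (nat_lit 385068) (nat_lit 26) (.e (nat_lit 532503) (nat_lit 1) (.e (nat_lit 57848) (nat_lit 252) (.e (nat_lit 57445) (nat_lit 19) (.e (nat_lit 393221) (nat_lit 0) (.e (nat_lit 6466) (nat_lit 343) .nil))))))) (.g (nat_lit 4) .nil .nil))) 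
(.lf (nat_lit 68082) (.g (nat_lit 2632) (.e (nat_lit 1638) (nat_lit 114) (.e (nat_lit 385068) (nat_lit 26) (.e (nat_lit 532558) (nat_lit 14) (.e (nat_lit 376842) (nat_lit 11) (.e (nat_lit 426014) (nat_lit 0) .nil))))) .nil))))) (.nd (nat_lit 4) (.nd (nat_lit 5) (.nd (nat_lit 6) 
(.lf (nat_lit 67978) (.g (nat_lit 1910) (.e (nat_lit 1638) (nat_lit 114) (.e (nat_lit 385068) (nat_lit 26) (.e (nat_lit 532499) (nat_lit 1) (.e (nat_lit 57849) (nat_lit 252) .nil)))) .nil)) 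
(.lf (nat_lit 68042) (.g (nat_lit 2979) (.e (nat_lit 1638) (nat_lit 114) (.e (nat_lit 385068) (nat_lit 26) (.e (nat_lit 532504) (nat_lit 1) (.e (nat_lit 57853) (nat_lit 252) (.e (nat_lit 57445) (nat_lit 19) (.e (nat_lit 393221) (nat_lit 0) (.e (nat_lit 6489) (nat_lit 343) .nil))))))) (.g (nat_lit 4) .nil .nil)))) (.nd (nat_lit 6) 
(.lf (nat_lit 68010) (.g (nat_lit 3096) (.e (nat_lit 1638) (nat_lit 114) (.e (nat_lit 385068) (nat_lit 26) (.e (nat_lit 532503) (nat_lit 1) (.e (nat_lit 57847) (nat_lit 252) (.e (nat_lit 57448) (nat_lit 19) (.e (nat_lit 393217) (nat_lit 0) (.e (nat_lit 6466) (nat_lit 343) .nil))))))) (.g (nat_lit 5) .nil .nil))) 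
(.lf (nat_lit 68074) (.g (nat_lit 3662) (.e (nat_lit 1638) (nat_lit 114) (.e (nat_lit 385068) (nat_lit 26) (.e (nat_lit 532553) (nat_lit 13) (.e (nat_lit 368676) (nat_lit 21) (.e (nat_lit 516124) (nat_lit 2) (.e (nat_lit 220928) (nat_lit 3) (.e (nat_lit 57454) (nat_lit 21) (.e (nat_lit 500030) (nat_lit 14) .nil)))))))) (.g (nat_lit 5) .nil .nil))))) (.nd (nat_lit 5) (.nd (nat_lit 6) 
(.lf (nat_lit 67994) (.g (nat_lit 2611) (.e (nat_lit 1638) (nat_lit 114) (.e (nat_lit 385068) (nat_lit 26) (.e (nat_lit 532501) (nat_lit 1) (.e (nat_lit 57854) (nat_lit 252) (.e (nat_lit 57445) (nat_lit 19) (.e (nat_lit 393221) (nat_lit 0) (.e (nat_lit 6469) (nat_lit 343) .nil))))))) (.g (nat_lit 4) .nil .nil))) 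
(.lf (nat_lit 68058) (.g (nat_lit 1732) (.e (nat_lit 1638) (nat_lit 114) (.e (nat_lit 385068) (nat_lit 26) (.e (nat_lit 532533) (nat_lit 9) (.e (nat_lit 336211) (nat_lit 13) (.e (nat_lit 393251) (nat_lit 18) .nil))))) .nil))) (.nd (nat_lit 6) 
(.lf (nat_lit 68026) (.g (nat_lit 2251) (.e (nat_lit 1638) (nat_lit 114) (.e (nat_lit 385068) (nat_lit 26) (.e (nat_lit 532504) (nat_lit 1) (.e (nat_lit 57851) (nat_lit 252) .nil)))) .nil)) 
(.lf (nat_lit 68090) (.g (nat_lit 3041) (.e (nat_lit 1638) (nat_lit 114) (.e (nat_lit 385068) (nat_lit 26) (.e (nat_lit 532560) (nat_lit 14) (.e (nat_lit 376842) (nat_lit 11) (.e (nat_lit 426098) (nat_lit 1) (.e (nat_lit 164151) (nat_lit 152) (.e (nat_lit 1056) (nat_lit 81) .nil))))))) (.g (nat_lit 5) .nil .nil))))))) (.nd (nat_lit 3) (.nd (nat_lit 4) (.nd (nat_lit 5) (.nd (nat_lit 6) 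
(.lf (nat_lit 67974) (.g (nat_lit 2635) (.e (nat_lit 1638) (nat_lit 114) (.e (nat_lit 385068) (nat_lit 26) (.e (nat_lit 532499) (nat_lit 1) (.e (nat_lit 57847) (nat_lit 252) (.e (nat_lit 57448) (nat_lit 19) (.e (nat_lit 393220) (nat_lit 0) (.e (nat_lit 6466) (nat_lit 343) .nil))))))) (.g (nat_lit 4) .nil .nil))) 
(.lf (nat_lit 68038) (.g (nat_lit 3007) (.e (nat_lit 1638) (nat_lit 114) (.e (nat_lit 385068) (nat_lit 26) (.e (nat_lit 532504) (nat_lit 1) (.e (nat_lit 57852) (nat_lit 252) (.e (nat_lit 57447) (nat_lit 19) (.e (nat_lit 393221) (nat_lit 0) (.e (nat_lit 6466) (nat_lit 343) .nil))))))) (.g (nat_lit 4) .nil .nil)))) (.nd (nat_lit 6) 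
(.lf (nat_lit 68006) (.g (nat_lit 2632) (.e (nat_lit 1638) (nat_lit 114) (.e (nat_lit 385068) (nat_lit 26) (.e (nat_lit 532503) (nat_lit 1) (.e (nat_lit 57847) (nat_lit 252) (.e (nat_lit 57445) (nat_lit 19) (.e (nat_lit 393217) (nat_lit 0) (.e (nat_lit 6466) (nat_lit 343) .nil))))))) (.g (nat_lit 4) .nil .nil))) 
(.lf (nat_lit 68070) (.g (nat_lit 1015) (.e (nat_lit 1638) (nat_lit 114) (.e (nat_lit 385068) (nat_lit 26) (.e (nat_lit 532551) (nat_lit 12) .nil))) .nil)))) (.nd (nat_lit 5) (.nd (nat_lit 6) 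
(.lf (nat_lit 67990) (.g (nat_lit 3003) (.e (nat_lit 1638) (nat_lit 114) (.e (nat_lit 385068) (nat_lit 26) (.e (nat_lit 532501) (nat_lit 1) (.e (nat_lit 57852) (nat_lit 252) (.e (nat_lit 57445) (nat_lit 19) (.e (nat_lit 393221) (nat_lit 0) (.e (nat_lit 6469) (nat_lit 343) .nil))))))) (.g (nat_lit 4) .nil .nil))) 
(.lf (nat_lit 68054) (.g (nat_lit 2942) (.e (nat_lit 1638) (nat_lit 114) (.e (nat_lit 385068) (nat_lit 26) (.e (nat_lit 532530) (nat_lit 9) (.e (nat_lit 336019) (nat_lit 3) (.e (nat_lit 98341) (nat_lit 20) .nil))))) .nil))) (.nd (nat_lit 6) 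
(.lf (nat_lit 68022) (.g (nat_lit 2744) (.e (nat_lit 1638) (nat_lit 114) (.e (nat_lit 385068) (nat_lit 26) (.e (nat_lit 532503) (nat_lit 1) (.e (nat_lit 57849) (nat_lit 252) (.e (nat_lit 57407) (nat_lit 12) .nil))))) .nil)) 
(.lf (nat_lit 68086) (.g (nat_lit 597) (.e (nat_lit 1638) (nat_lit 114) (.e (nat_lit 385068) (nat_lit 26) (.e (nat_lit 532560) (nat_lit 14) .nil))) .nil))))) (.nd (nat_lit 4) (.nd (nat_lit 5) (.nd (nat_lit 6) 
(.lf (nat_lit 67982) (.g (nat_lit 2045) (.e (nat_lit 1638) (nat_lit 114) (.e (nat_lit 385068) (nat_lit 26) (.e (nat_lit 532499) (nat_lit 1) (.e (nat_lit 57854) (nat_lit 252) .nil)))) .nil)) 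
(.lf (nat_lit 68046) (.g (nat_lit 2747) (.e (nat_lit 1638) (nat_lit 114) (.e (nat_lit 385068) (nat_lit 26) (.e (nat_lit 532504) (nat_lit 1) (.e (nat_lit 57854) (nat_lit 252) (.e (nat_lit 57445) (nat_lit 19) (.e (nat_lit 393221) (nat_lit 0) (.e (nat_lit 6469) (nat_lit 343) .nil))))))) (.g (nat_lit 4) .nil .nil)))) (.nd (nat_lit 6) 
(.lf (nat_lit 68014) (.g (nat_lit 1734) (.e (nat_lit 1638) (nat_lit 114) (.e (nat_lit 385068) (nat_lit 26) (.e (nat_lit 532503) (nat_lit 1) (.e (nat_lit 57848) (nat_lit 252) .nil)))) .nil)) 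
(.lf (nat_lit 68078) (.g (nat_lit 2940) (.e (nat_lit 1638) (nat_lit 114) (.e (nat_lit 385068) (nat_lit 26) (.e (nat_lit 532555) (nat_lit 13) (.e (nat_lit 368676) (nat_lit 21) (.e (nat_lit 516124) (nat_lit 2) (.e (nat_lit 220928) (nat_lit 3) (.e (nat_lit 57454) (nat_lit 21) (.e (nat_lit 500015) (nat_lit 14) .nil)))))))) (.g (nat_lit 4) .nil .nil))))) (.nd (nat_lit 5) (.nd (nat_lit 6) 
(.lf (nat_lit 67998) (.g (nat_lit 3195) (.e (nat_lit 1638) (nat_lit 114) (.e (nat_lit 385068) (nat_lit 26) (.e (nat_lit 532501) (nat_lit 1) (.e (nat_lit 57854) (nat_lit 252) (.e (nat_lit 57447) (nat_lit 19) (.e (nat_lit 393221) (nat_lit 0) (.e (nat_lit 6466) (nat_lit 343) .nil))))))) (.g (nat_lit 5) .nil .nil))) 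
(.lf (nat_lit 68062) (.g (nat_lit 3545) (.e (nat_lit 1638) (nat_lit 114) (.e (nat_lit 385068) (nat_lit 26) (.e (nat_lit 532534) (nat_lit 9) (.e (nat_lit 336019) (nat_lit 3) (.e (nat_lit 98342) (nat_lit 20) .nil))))) .nil))) (.nd (nat_lit 6) 
(.lf (nat_lit 68030) (.g (nat_lit 2801) (.e (nat_lit 1638) (nat_lit 114) (.e (nat_lit 385068) (nat_lit 26) (.e (nat_lit 532504) (nat_lit 1) (.e (nat_lit 57852) (nat_lit 252) (.e (nat_lit 57409) (nat_lit 12) .nil))))) .nil)) 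
(.lf (nat_lit 68094) (.g (nat_lit 2295) (.e (nat_lit 1638) (nat_lit 114) (.e (nat_lit 385068) (nat_lit 26) (.e (nat_lit 532560) (nat_lit 14) (.e (nat_lit 376842) (nat_lit 11) (.e (nat_lit 426107) (nat_lit 1) (.e (nat_lit 164149) (nat_lit 152) (.e (nat_lit 1089) (nat_lit 81) .nil))))))) (.g (nat_lit 4) .nil .nil))))))))) 
(.nd (nat_lit 1) (.nd (nat_lit 2) (.nd (nat_lit 3) (.nd (nat_lit 4) (.nd (nat_lit 5) 
(.nd (nat_lit 6) 
(.lf (nat_lit 67969) (.g (nat_lit 3079) (.e (nat_lit 1638) (nat_lit 114) (.e (nat_lit 385068) (nat_lit 26) (.e (nat_lit 532499) (nat_lit 1) (.e (nat_lit 57847) (nat_lit 252) (.e (nat_lit 57447) (nat_lit 19) (.e (nat_lit 393221) (nat_lit 0) (.e (nat_lit 6466) (nat_lit 343) .nil))))))) (.g (nat_lit 4) .nil .nil))) 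
(.lf (nat_lit 68033) (.g (nat_lit 2963) (.e (nat_lit 1638) (nat_lit 114) (.e (nat_lit 385068) (nat_lit 26) (.e (nat_lit 532504) (nat_lit 1) (.e (nat_lit 57852) (nat_lit 252) (.e (nat_lit 57409) (nat_lit 12) (.e (nat_lit 336448) (nat_lit 33) (.e (nat_lit 475142) (nat_lit 8) .nil))))))) (.g (nat_lit 4) .nil .nil)))) (.nd (nat_lit 6) 
(.lf (nat_lit 68001) (.g (nat_lit 1961) (.e (nat_lit 1638) (nat_lit 114) (.e (nat_lit 385068) (nat_lit 26) (.e (nat_lit 532503) (nat_lit 1) (.e (nat_lit 57846) (nat_lit 252) .nil)))) .nil)) 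
(.lf (nat_lit 68065) (.g (nat_lit 2416) (.e (nat_lit 1638) (nat_lit 114) (.e (nat_lit 385068) (nat_lit 26) (.e (nat_lit 532534) (nat_lit 9) (.e (nat_lit 336324) (nat_lit 18) (.e (nat_lit 204880) (nat_lit 32) (.e (nat_lit 385057) (nat_lit 22) (.e (nat_lit 500011) (nat_lit 14) .nil))))))) (.g (nat_lit 4) .nil .nil))))) (.nd (nat_lit 5) (.nd (nat_lit 6) 
(.lf (nat_lit 67985) (.g (nat_lit 3016) (.e (nat_lit 1638) (nat_lit 114) (.e (nat_lit 385068) (nat_lit 26) (.e (nat_lit 532501) (nat_lit 1) (.e (nat_lit 57851) (nat_lit 252) (.e (nat_lit 57445) (nat_lit 19) .nil))))) .nil)) 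
(.lf (nat_lit 68049) (.g (nat_lit 3419) (.e (nat_lit 1638) (nat_lit 114) (.e (nat_lit 385068) (nat_lit 26) (.e (nat_lit 532504) (nat_lit 1) (.e (nat_lit 57854) (nat_lit 252) (.e (nat_lit 57447) (nat_lit 19) (.e (nat_lit 393221) (nat_lit 0) (.e (nat_lit 6466) (nat_lit 343) .nil))))))) (.g (nat_lit 5) .nil .nil)))) (.nd (nat_lit 6) 
(.lf (nat_lit 68017) (.g (nat_lit 2572) (.e (nat_lit 1638) (nat_lit 114) (.e (nat_lit 385068) (nat_lit 26) (.e (nat_lit 532503) (nat_lit 1) (.e (nat_lit 57848) (nat_lit 252) (.e (nat_lit 57407) (nat_lit 12) (.e (nat_lit 336450) (nat_lit 33) (.e (nat_lit 475142) (nat_lit 8) .nil))))))) (.g (nat_lit 4) .nil .nil))) 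
(.lf (nat_lit 68081) (.g (nat_lit 1628) (.e (nat_lit 1638) (nat_lit 114) (.e (nat_lit 385068) (nat_lit 26) (.e (nat_lit 532558) (nat_lit 14) (.e (nat_lit 376842) (nat_lit 11) .nil)))) .nil))))) (.nd (nat_lit 4) (.nd (nat_lit 5) (.nd (nat_lit 6) 
(.lf (nat_lit 67977) (.g (nat_lit 2985) (.e (nat_lit 1638) (nat_lit 114) (.e (nat_lit 385068) (nat_lit 26) (.e (nat_lit 532499) (nat_lit 1) (.e (nat_lit 57847) (nat_lit 252) (.e (nat_lit 57448) (nat_lit 19) (.e (nat_lit 393221) (nat_lit 0) (.e (nat_lit 6489) (nat_lit 343) .nil))))))) (.g (nat_lit 4) .nil .nil))) 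
(.lf (nat_lit 68041) (.g (nat_lit 3113) (.e (nat_lit 1638) (nat_lit 114) (.e (nat_lit 385068) (nat_lit 26) (.e (nat_lit 532504) (nat_lit 1) (.e (nat_lit 57853) (nat_lit 252) (.e (nat_lit 57445) (nat_lit 19) (.e (nat_lit 393221) (nat_lit 0) (.e (nat_lit 6469) (nat_lit 343) .nil))))))) (.g (nat_lit 4) .nil .nil)))) (.nd (nat_lit 6) 
(.lf (nat_lit 68009) (.g (nat_lit 3001) (.e (nat_lit 1638) (nat_lit 114) (.e (nat_lit 385068) (nat_lit 26) (.e (nat_lit 532503) (nat_lit 1) (.e (nat_lit 57847) (nat_lit 252) (.e (nat_lit 57448) (nat_lit 19) (.e (nat_lit 393216) (nat_lit 0) (.e (nat_lit 6466) (nat_lit 343) .nil))))))) (.g (nat_lit 5) .nil .nil))) 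
(.lf (nat_lit 68073) (.g (nat_lit 2885) (.e (nat_lit 1638) (nat_lit 114) (.e (nat_lit 385068) (nat_lit 26) (.e (nat_lit 532553) (nat_lit 13) (.e (nat_lit 368676) (nat_lit 21) (.e (nat_lit 516124) (nat_lit 2) (.e (nat_lit 220928) (nat_lit 3) (.e (nat_lit 57454) (nat_lit 21) (.e (nat_lit 500015) (nat_lit 14) .nil)))))))) (.g (nat_lit 4) .nil .nil))))) (.nd (nat_lit 5) (.nd (nat_lit 6) 
(.lf (nat_lit 67993) (.g (nat_lit 1603) (.e (nat_lit 1638) (nat_lit 114) (.e (nat_lit 385068) (nat_lit 26) (.e (nat_lit 532501) (nat_lit 1) (.e (nat_lit 57854) (nat_lit 252) .nil)))) .nil)) 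
(.lf (nat_lit 68057) (.g (nat_lit 957) (.e (nat_lit 1638) (nat_lit 114) (.e (nat_lit 385068) (nat_lit 26) (.e (nat_lit 532533) (nat_lit 9) .nil))) .nil))) (.nd (nat_lit 6) 
(.lf (nat_lit 68025) (.g (nat_lit 2372) (.e (nat_lit 1638) (nat_lit 114) (.e (nat_lit 385068) (nat_lit 26) (.e (nat_lit 532503) (nat_lit 1) (.e (nat_lit 57853) (nat_lit 252) .nil)))) .nil)) 
(.lf (nat_lit 68089) (.g (nat_lit 2379) (.e (nat_lit 1638) (nat_lit 114) (.e (nat_lit 385068) (nat_lit 26) (.e (nat_lit 532560) (nat_lit 14) (.e (nat_lit 376842) (nat_lit 11) (.e (nat_lit 426014) (nat_lit 0) .nil))))) .nil)))))) (.nd (nat_lit 3) (.nd (nat_lit 4) (.nd (nat_lit 5) (.nd (nat_lit 6) 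
(.lf (nat_lit 67973) (.g (nat_lit 3273) (.e (nat_lit 1638) (nat_lit 114) (.e (nat_lit 385068) (nat_lit 26) (.e (nat_lit 532499) (nat_lit 1) (.e (nat_lit 57847) (nat_lit 252) (.e (nat_lit 57448) (nat_lit 19) (.e (nat_lit 393217) (nat_lit 0) (.e (nat_lit 6466) (nat_lit 343) .nil))))))) (.g (nat_lit 5) .nil .nil))) 
(.lf (nat_lit 68037) (.g (nat_lit 3173) (.e (nat_lit 1638) (nat_lit 114) (.e (nat_lit 385068) (nat_lit 26) (.e (nat_lit 532504) (nat_lit 1) (.e (nat_lit 57852) (nat_lit 252) (.e (nat_lit 57447) (nat_lit 19) (.e (nat_lit 393217) (nat_lit 0) (.e (nat_lit 6466) (nat_lit 343) .nil))))))) (.g (nat_lit 4) .nil .nil)))) (.nd (nat_lit 6) 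
(.lf (nat_lit 68005) (.g (nat_lit 3232) (.e (nat_lit 1638) (nat_lit 114) (.e (nat_lit 385068) (nat_lit 26) (.e (nat_lit 532503) (nat_lit 1) (.e (nat_lit 57847) (nat_lit 252) (.e (nat_lit 57411) (nat_lit 12) (.e (nat_lit 336446) (nat_lit 33) (.e (nat_lit 475142) (nat_lit 8) .nil))))))) (.g (nat_lit 5) .nil .nil))) 
(.lf (nat_lit 68069) (.g (nat_lit 1013) (.e (nat_lit 1638) (nat_lit 114) (.e (nat_lit 385068) (nat_lit 26) (.e (nat_lit 532550) (nat_lit 12) .nil))) .nil)))) (.nd (nat_lit 5) (.nd (nat_lit 6) 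
(.lf (nat_lit 67989) (.g (nat_lit 3312) (.e (nat_lit 1638) (nat_lit 114) (.e (nat_lit 385068) (nat_lit 26) (.e (nat_lit 532501) (nat_lit 1) (.e (nat_lit 57852) (nat_lit 252) (.e (nat_lit 57445) (nat_lit 19) (.e (nat_lit 393221) (nat_lit 0) (.e (nat_lit 6466) (nat_lit 343) .nil))))))) (.g (nat_lit 4) .nil .nil))) 
(.lf (nat_lit 68053) (.g (nat_lit 2408) (.e (nat_lit 1638) (nat_lit 114) (.e (nat_lit 385068) (nat_lit 26) (.e (nat_lit 532530) (nat_lit 9) (.e (nat_lit 336019) (nat_lit 3) .nil)))) .nil))) (.nd (nat_lit 6) 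
(.lf (nat_lit 68021) (.g (nat_lit 2042) (.e (nat_lit 1638) (nat_lit 114) (.e (nat_lit 385068) (nat_lit 26) (.e (nat_lit 532503) (nat_lit 1) (.e (nat_lit 57849) (nat_lit 252) .nil)))) .nil)) 
(.lf (nat_lit 68085) (.g (nat_lit 1738) (.e (nat_lit 1638) (nat_lit 114) (.e (nat_lit 385068) (nat_lit 26) (.e (nat_lit 532558) (nat_lit 14) (.e (nat_lit 384768) (nat_lit 12) .nil)))) .nil))))) (.nd (nat_lit 4) (.nd (nat_lit 5) (.nd (nat_lit 6) 
(.lf (nat_lit 67981) (.g (nat_lit 2618) (.e (nat_lit 1638) (nat_lit 114) (.e (nat_lit 385068) (nat_lit 26) (.e (nat_lit 532499) (nat_lit 1) (.e (nat_lit 57849) (nat_lit 252) (.e (nat_lit 57448) (nat_lit 19) .nil))))) .nil)) 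
(.lf (nat_lit 68045) (.g (nat_lit 2329) (.e (nat_lit 1638) (nat_lit 114) (.e (nat_lit 385068) (nat_lit 26) (.e (nat_lit 532504) (nat_lit 1) (.e (nat_lit 57854) (nat_lit 252) (.e (nat_lit 57445) (nat_lit 19) (.e (nat_lit 393217) (nat_lit 0) (.e (nat_lit 6466) (nat_lit 343) .nil))))))) (.g (nat_lit 4) .nil .nil)))) (.nd (nat_lit 6) 
(.lf (nat_lit 68013) (.g (nat_lit 3022) (.e (nat_lit 1638) (nat_lit 114) (.e (nat_lit 385068) (nat_lit 26) (.e (nat_lit 532503) (nat_lit 1) (.e (nat_lit 57847) (nat_lit 252) (.e (nat_lit 57448) (nat_lit 19) (.e (nat_lit 393221) (nat_lit 0) (.e (nat_lit 6469) (nat_lit 343) .nil))))))) (.g (nat_lit 5) .nil .nil))) 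
(.lf (nat_lit 68077) (.g (nat_lit 2872) (.e (nat_lit 1638) (nat_lit 114) (.e (nat_lit 385068) (nat_lit 26) (.e (nat_lit 532555) (nat_lit 13) (.e (nat_lit 368676) (nat_lit 21) (.e (nat_lit 516124) (nat_lit 2) (.e (nat_lit 220928) (nat_lit 0) (.e (nat_lit 1239) (nat_lit 91) (.e (nat_lit 90118) (nat_lit 0) .nil)))))))) (.g (nat_lit 4) .nil .nil))))) (.nd (nat_lit 5) (.nd (nat_lit 6) 
(.lf (nat_lit 67997) (.g (nat_lit 2796) (.e (nat_lit 1638) (nat_lit 114) (.e (nat_lit 385068) (nat_lit 26) (.e (nat_lit 532501) (nat_lit 1) (.e (nat_lit 57854) (nat_lit 252) (.e (nat_lit 57447) (nat_lit 19) (.e (nat_lit 393217) (nat_lit 0) (.e (nat_lit 6466) (nat_lit 343) .nil))))))) (.g (nat_lit 4) .nil .nil))) 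
(.lf (nat_lit 68061) (.g (nat_lit 3532) (.e (nat_lit 1638) (nat_lit 114) (.e (nat_lit 385068) (nat_lit 26) (.e (nat_lit 532534) (nat_lit 9) (.e (nat_lit 336019) (nat_lit 3) (.e (nat_lit 98341) (nat_lit 20) .nil))))) .nil))) (.nd (nat_lit 6) 
(.lf (nat_lit 68029) (.g (nat_lit 2994) (.e (nat_lit 1638) (nat_lit 114) (.e (nat_lit 385068) (nat_lit 26) (.e (nat_lit 532504) (nat_lit 1) (.e (nat_lit 57852) (nat_lit 252) (.e (nat_lit 57406) (nat_lit 12) (.e (nat_lit 336446) (nat_lit 33) (.e (nat_lit 475143) (nat_lit 8) .nil))))))) (.g (nat_lit 4) .nil .nil))) 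
(.lf (nat_lit 68093) (.g (nat_lit 2722) (.e (nat_lit 1638) (nat_lit 114) (.e (nat_lit 385068) (nat_lit 26) (.e (nat_lit 532560) (nat_lit 14) (.e (nat_lit 376842) (nat_lit 11) (.e (nat_lit 426100) (nat_lit 1) (.e (nat_lit 164161) (nat_lit 152) (.e (nat_lit 1068) (nat_lit 81) .nil))))))) (.g (nat_lit 4) .nil .nil)))))))) 
(.nd (nat_lit 2) (.nd (nat_lit 3) (.nd (nat_lit 4) (.nd (nat_lit 5) (.nd (nat_lit 6) 
(.lf (nat_lit 67971) (.g (nat_lit 2593) (.e (nat_lit 1638) (nat_lit 114) (.e (nat_lit 385068) (nat_lit 26) (.e (nat_lit 532499) (nat_lit 1) (.e (nat_lit 57847) (nat_lit 252) (.e (nat_lit 57447) (nat_lit 19) (.e (nat_lit 393221) (nat_lit 0) (.e (nat_lit 6489) (nat_lit 343) .nil))))))) (.g (nat_lit 4) .nil .nil))) 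
(.lf (nat_lit 68035) (.g (nat_lit 2778) (.e (nat_lit 1638) (nat_lit 114) (.e (nat_lit 385068) (nat_lit 26) (.e (nat_lit 532504) (nat_lit 1) (.e (nat_lit 57852) (nat_lit 252) (.e (nat_lit 57417) (nat_lit 12) .nil))))) .nil))) (.nd (nat_lit 6) 
(.lf (nat_lit 68003) (.g (nat_lit 2661) (.e (nat_lit 1638) (nat_lit 114) (.e (nat_lit 385068) (nat_lit 26) (.e (nat_lit 532503) (nat_lit 1) (.e (nat_lit 57847) (nat_lit 252) (.e (nat_lit 57407) (nat_lit 12) (.e (nat_lit 336446) (nat_lit 33) (.e (nat_lit 475142) (nat_lit 8) .nil))))))) (.g (nat_lit 4) .nil .nil))) 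
(.lf (nat_lit 68067) (.g (nat_lit 2453) (.e (nat_lit 1638) (nat_lit 114) (.e (nat_lit 385068) (nat_lit 26) (.e (nat_lit 532535) (nat_lit 9) (.e (nat_lit 336083) (nat_lit 9) .nil)))) .nil)))) (.nd (nat_lit 5) (.nd (nat_lit 6) 
(.lf (nat_lit 67987) (.g (nat_lit 3264) (.e (nat_lit 1638) (nat_lit 114) (.e (nat_lit 385068) (nat_lit 26) (.e (nat_lit 532501) (nat_lit 1) (.e (nat_lit 57852) (nat_lit 252) (.e (nat_lit 57409) (nat_lit 12) .nil))))) .nil)) 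
(.lf (nat_lit 68051) (.g (nat_lit 690) (.e (nat_lit 1638) (nat_lit 114) (.e (nat_lit 385068) (nat_lit 26) (.e (nat_lit 532513) (nat_lit 3) .nil))) .nil))) (.nd (nat_lit 6) 
(.lf (nat_lit 68019) (.g (nat_lit 2744) (.e (nat_lit 1638) (nat_lit 114) (.e (nat_lit 385068) (nat_lit 26) (.e (nat_lit 532503) (nat_lit 1) (.e (nat_lit 57848) (nat_lit 252) (.e (nat_lit 57445) (nat_lit 19) (.e (nat_lit 393221) (nat_lit 0) (.e (nat_lit 6469) (nat_lit 343) .nil))))))) (.g (nat_lit 4) .nil .nil))) 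
(.lf (nat_lit 68083) (.g (nat_lit 2808) (.e (nat_lit 1638) (nat_lit 114) (.e (nat_lit 385068) (nat_lit 26) (.e (nat_lit 532558) (nat_lit 14) (.e (nat_lit 376842) (nat_lit 11) (.e (nat_lit 426098) (nat_lit 1) (.e (nat_lit 164151) (nat_lit 152) (.e (nat_lit 1056) (nat_lit 81) .nil))))))) (.g (nat_lit 4) .nil .nil)))))) (.nd (nat_lit 4) (.nd (nat_lit 5) (.nd (nat_lit 6) 
(.lf (nat_lit 67979) (.g (nat_lit 2643) (.e (nat_lit 1638) (nat_lit 114) (.e (nat_lit 385068) (nat_lit 26) (.e (nat_lit 532499) (nat_lit 1) (.e (nat_lit 57849) (nat_lit 252) (.e (nat_lit 57407) (nat_lit 12) .nil))))) .nil)) 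
(.lf (nat_lit 68043) (.g (nat_lit 1619) (.e (nat_lit 1638) (nat_lit 114) (.e (nat_lit 385068) (nat_lit 26) (.e (nat_lit 532504) (nat_lit 1) (.e (nat_lit 57854) (nat_lit 252) .nil)))) .nil))) (.nd (nat_lit 6) 
(.lf (nat_lit 68011) (.g (nat_lit 2458) (.e (nat_lit 1638) (nat_lit 114) (.e (nat_lit 385068) (nat_lit 26) (.e (nat_lit 532503) (nat_lit 1) (.e (nat_lit 57847) (nat_lit 252) (.e (nat_lit 57448) (nat_lit 19) (.e (nat_lit 393220) (nat_lit 0) (.e (nat_lit 6466) (nat_lit 343) .nil))))))) (.g (nat_lit 4) .nil .nil))) 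
(.lf (nat_lit 68075) (.g (nat_lit 2879) (.e (nat_lit 1638) (nat_lit 114) (.e (nat_lit 385068) (nat_lit 26) (.e (nat_lit 532553) (nat_lit 13) (.e (nat_lit 368676) (nat_lit 21) (.e (nat_lit 516137) (nat_lit 6) .nil))))) .nil)))) (.nd (nat_lit 5) (.nd (nat_lit 6) 
(.lf (nat_lit 67995) (.g (nat_lit 2477) (.e (nat_lit 1638) (nat_lit 114) (.e (nat_lit 385068) (nat_lit 26) (.e (nat_lit 532501) (nat_lit 1) (.e (nat_lit 57854) (nat_lit 252) (.e (nat_lit 57445) (nat_lit 19) (.e (nat_lit 393221) (nat_lit 0) (.e (nat_lit 6489) (nat_lit 343) .nil))))))) (.g (nat_lit 4) .nil .nil))) 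
(.lf (nat_lit 68059) (.g (nat_lit 855) (.e (nat_lit 1638) (nat_lit 114) (.e (nat_lit 385068) (nat_lit 26) (.e (nat_lit 532534) (nat_lit 9) .nil))) .nil))) (.nd (nat_lit 6) 
(.lf (nat_lit 68027) (.g (nat_lit 3321) (.e (nat_lit 1638) (nat_lit 114) (.e (nat_lit 385068) (nat_lit 26) (.e (nat_lit 532504) (nat_lit 1) (.e (nat_lit 57851) (nat_lit 252) (.e (nat_lit 57445) (nat_lit 19) (.e (nat_lit 393221) (nat_lit 0) (.e (nat_lit 6466) (nat_lit 343) .nil))))))) (.g (nat_lit 4) .nil .nil))) 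
(.lf (nat_lit 68091) (.g (nat_lit 3158) (.e (nat_lit 1638) (nat_lit 114) (.e (nat_lit 385068) (nat_lit 26) (.e (nat_lit 532560) (nat_lit 14) (.e (nat_lit 376842) (nat_lit 11) (.e (nat_lit 426098) (nat_lit 1) (.e (nat_lit 164151) (nat_lit 152) (.e (nat_lit 1089) (nat_lit 81) .nil))))))) (.g (nat_lit 5) .nil .nil))))))) (.nd (nat_lit 3) (.nd (nat_lit 4) (.nd (nat_lit 5) (.nd (nat_lit 6) 
(.lf (nat_lit 67975) (.g (nat_lit 3471) (.e (nat_lit 1638) (nat_lit 114) (.e (nat_lit 385068) (nat_lit 26) (.e (nat_lit 532499) (nat_lit 1) (.e (nat_lit 57847) (nat_lit 252) (.e (nat_lit 57448) (nat_lit 19) (.e (nat_lit 393221) (nat_lit 0) (.e (nat_lit 6466) (nat_lit 343) .nil))))))) (.g (nat_lit 5) .nil .nil))) 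
(.lf (nat_lit 68039) (.g (nat_lit 2695) (.e (nat_lit 1638) (nat_lit 114) (.e (nat_lit 385068) (nat_lit 26) (.e (nat_lit 532504) (nat_lit 1) (.e (nat_lit 57853) (nat_lit 252) (.e (nat_lit 57445) (nat_lit 19) (.e (nat_lit 393217) (nat_lit 0) (.e (nat_lit 6466) (nat_lit 343) .nil))))))) (.g (nat_lit 4) .nil .nil)))) (.nd (nat_lit 6) 
(.lf (nat_lit 68007) (.g (nat_lit 2699) (.e (nat_lit 1638) (nat_lit 114) (.e (nat_lit 385068) (nat_lit 26) (.e (nat_lit 532503) (nat_lit 1) (.e (nat_lit 57847) (nat_lit 252) (.e (nat_lit 57447) (nat_lit 19) (.e (nat_lit 393221) (nat_lit 0) (.e (nat_lit 6466) (nat_lit 343) .nil))))))) (.g (nat_lit 4) .nil .nil))) 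
(.lf (nat_lit 68071) (.g (nat_lit 1758) (.e (nat_lit 1638) (nat_lit 114) (.e (nat_lit 385068) (nat_lit 26) (.e (nat_lit 532553) (nat_lit 13) (.e (nat_lit 368676) (nat_lit 21) .nil)))) .nil)))) (.nd (nat_lit 5) (.nd (nat_lit 6) 
(.lf (nat_lit 67991) (.g (nat_lit 3334) (.e (nat_lit 1638) (nat_lit 114) (.e (nat_lit 385068) (nat_lit 26) (.e (nat_lit 532501) (nat_lit 1) (.e (nat_lit 57852) (nat_lit 252) (.e (nat_lit 57447) (nat_lit 19) .nil))))) .nil)) 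
(.lf (nat_lit 68055) (.g (nat_lit 2043) (.e (nat_lit 1638) (nat_lit 114) (.e (nat_lit 385068) (nat_lit 26) (.e (nat_lit 532530) (nat_lit 9) (.e (nat_lit 336211) (nat_lit 13) .nil)))) .nil))) (.nd (nat_lit 6) 
(.lf (nat_lit 68023) (.g (nat_lit 3060) (.e (nat_lit 1638) (nat_lit 114) (.e (nat_lit 385068) (nat_lit 26) (.e (nat_lit 532503) (nat_lit 1) (.e (nat_lit 57849) (nat_lit 252) (.e (nat_lit 57407) (nat_lit 12) (.e (nat_lit 336446) (nat_lit 33) (.e (nat_lit 475142) (nat_lit 8) .nil))))))) (.g (nat_lit 4) .nil .nil))) 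
(.lf (nat_lit 68087) (.g (nat_lit 1730) (.e (nat_lit 1638) (nat_lit 114) (.e (nat_lit 385068) (nat_lit 26) (.e (nat_lit 532560) (nat_lit 14) (.e (nat_lit 376840) (nat_lit 11) .nil)))) .nil))))) (.nd (nat_lit 4) (.nd (nat_lit 5) (.nd (nat_lit 6) 
(.lf (nat_lit 67983) (.g (nat_lit 730) (.e (nat_lit 1638) (nat_lit 114) (.e (nat_lit 385068) (nat_lit 26) (.e (nat_lit 532501) (nat_lit 1) .nil))) .nil)) 
(.lf (nat_lit 68047) (.g (nat_lit 2613) (.e (nat_lit 1638) (nat_lit 114) (.e (nat_lit 385068) (nat_lit 26) (.e (nat_lit 532504) (nat_lit 1) (.e (nat_lit 57854) (nat_lit 252) (.e (nat_lit 57445) (nat_lit 19) (.e (nat_lit 393221) (nat_lit 0) (.e (nat_lit 6489) (nat_lit 343) .nil))))))) (.g (nat_lit 4) .nil .nil)))) (.nd (nat_lit 6) 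
(.lf (nat_lit 68015) (.g (nat_lit 3499) (.e (nat_lit 1638) (nat_lit 114) (.e (nat_lit 385068) (nat_lit 26) (.e (nat_lit 532503) (nat_lit 1) (.e (nat_lit 57848) (nat_lit 252) (.e (nat_lit 57407) (nat_lit 12) (.e (nat_lit 336446) (nat_lit 33) (.e (nat_lit 475142) (nat_lit 8) .nil))))))) (.g (nat_lit 5) .nil .nil))) 
(.lf (nat_lit 68079) (.g (nat_lit 3717) (.e (nat_lit 1638) (nat_lit 114) (.e (nat_lit 385068) (nat_lit 26) (.e (nat_lit 532555) (nat_lit 13) (.e (nat_lit 368676) (nat_lit 21) (.e (nat_lit 516124) (nat_lit 2) (.e (nat_lit 220928) (nat_lit 3) (.e (nat_lit 57454) (nat_lit 21) (.e (nat_lit 500030) (nat_lit 14) .nil)))))))) (.g (nat_lit 7) .nil .nil))))) (.nd (nat_lit 5) (.nd (nat_lit 6) 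
(.lf (nat_lit 67999) (.g (nat_lit 2709) (.e (nat_lit 1638) (nat_lit 114) (.e (nat_lit 385068) (nat_lit 26) (.e (nat_lit 532501) (nat_lit 1) (.e (nat_lit 57854) (nat_lit 252) (.e (nat_lit 57447) (nat_lit 19) (.e (nat_lit 393221) (nat_lit 0) (.e (nat_lit 6489) (nat_lit 343) .nil))))))) (.g (nat_lit 4) .nil .nil))) 
(.lf (nat_lit 68063) (.g (nat_lit 1814) (.e (nat_lit 1638) (nat_lit 114) (.e (nat_lit 385068) (nat_lit 26) (.e (nat_lit 532534) (nat_lit 9) (.e (nat_lit 336211) (nat_lit 13) .nil)))) .nil))) (.nd (nat_lit 6) 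
(.lf (nat_lit 68031) (.g (nat_lit 3400) (.e (nat_lit 1638) (nat_lit 114) (.e (nat_lit 385068) (nat_lit 26) (.e (nat_lit 532504) (nat_lit 1) (.e (nat_lit 57852) (nat_lit 252) (.e (nat_lit 57409) (nat_lit 12) (.e (nat_lit 336445) (nat_lit 33) (.e (nat_lit 475142) (nat_lit 8) .nil))))))) (.g (nat_lit 4) .nil .nil))) 
(.lf (nat_lit 68095) (.g (nat_lit 2328) (.e (nat_lit 1638) (nat_lit 114) (.e (nat_lit 385068) (nat_lit 26) (.e (nat_lit 532560) (nat_lit 14) (.e (nat_lit 376842) (nat_lit 11) (.e (nat_lit 426107) (nat_lit 1) (.e (nat_lit 164151) (nat_lit 152) (.e (nat_lit 1056) (nat_lit 81) .nil))))))) (.g (nat_lit 4) .nil .nil))))))))))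

noncomputable def tv938 : DT := (.nd (nat_lit 0) (.nd (nat_lit 1) (.nd (nat_lit 2) (.nd (nat_lit 3) (.nd (nat_lit 4) (.nd (nat_lit 5) 
(.lf (nat_lit 68096) (.g (nat_lit 2445) (.e (nat_lit 1638) (nat_lit 114) (.e (nat_lit 385068) (nat_lit 26) (.e (nat_lit 532560) (nat_lit 14) (.e (nat_lit 376842) (nat_lit 11) (.e (nat_lit 426107) (nat_lit 1) (.e (nat_lit 164151) (nat_lit 152) (.e (nat_lit 1089) (nat_lit 81) .nil))))))) (.g (nat_lit 4) .nil .nil))) 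
(.lf (nat_lit 68128) (.g (nat_lit 4029) (.e (nat_lit 1638) (nat_lit 114) (.e (nat_lit 385072) (nat_lit 31) (.e (nat_lit 573492) (nat_lit 15) (.e (nat_lit 81956) (nat_lit 23) (.e (nat_lit 98325) (nat_lit 17) (.e (nat_lit 7554) (nat_lit 402) .nil)))))) (.g (nat_lit 0) .nil .nil)))) (.nd (nat_lit 5) 
(.lf (nat_lit 68112) (.g (nat_lit 4435) (.e (nat_lit 1638) (nat_lit 114) (.e (nat_lit 385072) (nat_lit 31) (.e (nat_lit 573485) (nat_lit 13) (.e (nat_lit 65604) (nat_lit 9) (.e (nat_lit 336013) (nat_lit 2) (.e (nat_lit 90165) (nat_lit 12) (.e (nat_lit 164238) (nat_lit 187) .nil))))))) (.g (nat_lit 7) .nil .nil))) 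
(.lf (nat_lit 68144) (.g (nat_lit 1823) (.e (nat_lit 1638) (nat_lit 114) (.e (nat_lit 385073) (nat_lit 31) (.e (nat_lit 573491) (nat_lit 15) (.e (nat_lit 81956) (nat_lit 23) (.e (nat_lit 98325) (nat_lit 17) .nil))))) .nil)))) (.nd (nat_lit 4) (.nd (nat_lit 5) 
(.lf (nat_lit 68104) (.g (nat_lit 2439) (.e (nat_lit 1638) (nat_lit 114) (.e (nat_lit 385072) (nat_lit 31) (.e (nat_lit 573481) (nat_lit 13) (.e (nat_lit 65604) (nat_lit 9) (.e (nat_lit 336028) (nat_lit 3) (.e (nat_lit 106240) (nat_lit 17) (.e (nat_lit 7537) (nat_lit 402) .nil))))))) (.g (nat_lit 5) .nil .nil))) 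
(.lf (nat_lit 68136) (.g (nat_lit 4418) (.e (nat_lit 1638) (nat_lit 114) (.e (nat_lit 385072) (nat_lit 31) (.e (nat_lit 573493) (nat_lit 15) (.e (nat_lit 81956) (nat_lit 23) (.e (nat_lit 98325) (nat_lit 17) (.e (nat_lit 7554) (nat_lit 402) .nil)))))) (.g (nat_lit 6) .nil .nil)))) (.nd (nat_lit 5) 
(.lf (nat_lit 68120) (.g (nat_lit 1882) (.e (nat_lit 1638) (nat_lit 114) (.e (nat_lit 385072) (nat_lit 31) (.e (nat_lit 573491) (nat_lit 15) (.e (nat_lit 81954) (nat_lit 23) (.e (nat_lit 106240) (nat_lit 17) (.e (nat_lit 7537) (nat_lit 402) .nil)))))) (.g (nat_lit 4) .nil .nil))) 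
(.lf (nat_lit 68152) (.g (nat_lit 4637) (.e (nat_lit 1638) (nat_lit 114) (.e (nat_lit 385073) (nat_lit 31) (.e (nat_lit 573493) (nat_lit 15) (.e (nat_lit 81956) (nat_lit 23) (.e (nat_lit 98323) (nat_lit 17) (.e (nat_lit 7537) (nat_lit 402) .nil)))))) (.g (nat_lit 5) .nil .nil)))))) (.nd (nat_lit 3) (.nd (nat_lit 4) (.nd (nat_lit 5) 
(.lf (nat_lit 68100) (.g (nat_lit 2088) (.e (nat_lit 1638) (nat_lit 114) (.e (nat_lit 385072) (nat_lit 31) (.e (nat_lit 573451) (nat_lit 9) (.e (nat_lit 1595) (nat_lit 111) (.e (nat_lit 360467) (nat_lit 3) (.e (nat_lit 516100) (nat_lit 0) (.e (nat_lit 7562) (nat_lit 402) .nil))))))) (.g (nat_lit 4) .nil .nil))) 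
(.lf (nat_lit 68132) (.g (nat_lit 1994) (.e (nat_lit 1638) (nat_lit 114) (.e (nat_lit 385072) (nat_lit 31) (.e (nat_lit 573493) (nat_lit 15) (.e (nat_lit 81954) (nat_lit 23) .nil)))) .nil))) (.nd (nat_lit 5) 
(.lf (nat_lit 68116) (.g (nat_lit 2616) (.e (nat_lit 1638) (nat_lit 114) (.e (nat_lit 385072) (nat_lit 31) (.e (nat_lit 573485) (nat_lit 13) (.e (nat_lit 65619) (nat_lit 10) (.e (nat_lit 344117) (nat_lit 21) (.e (nat_lit 516097) (nat_lit 0) (.e (nat_lit 7562) (nat_lit 402) .nil))))))) (.g (nat_lit 5) .nil .nil))) 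
(.lf (nat_lit 68148) (.g (nat_lit 3185) (.e (nat_lit 1638) (nat_lit 114) (.e (nat_lit 385073) (nat_lit 31) (.e (nat_lit 573493) (nat_lit 15) (.e (nat_lit 81954) (nat_lit 23) (.e (nat_lit 106240) (nat_lit 17) .nil))))) .nil)))) (.nd (nat_lit 4) (.nd (nat_lit 5) 
(.lf (nat_lit 68108) (.g (nat_lit 4138) (.e (nat_lit 1638) (nat_lit 114) (.e (nat_lit 385072) (nat_lit 31) (.e (nat_lit 573482) (nat_lit 13) (.e (nat_lit 65604) (nat_lit 9) (.e (nat_lit 336028) (nat_lit 3) (.e (nat_lit 98325) (nat_lit 17) (.e (nat_lit 7554) (nat_lit 402) .nil))))))) (.g (nat_lit 7) .nil .nil))) 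
(.lf (nat_lit 68140) (.g (nat_lit 3380) (.e (nat_lit 1638) (nat_lit 114) (.e (nat_lit 385073) (nat_lit 31) (.e (nat_lit 573484) (nat_lit 13) (.e (nat_lit 65610) (nat_lit 10) (.e (nat_lit 344117) (nat_lit 21) (.e (nat_lit 516099) (nat_lit 0) (.e (nat_lit 7562) (nat_lit 402) .nil))))))) (.g (nat_lit 6) .nil .nil)))) (.nd (nat_lit 5) 
(.lf (nat_lit 68124) (.g (nat_lit 3597) (.e (nat_lit 1638) (nat_lit 114) (.e (nat_lit 385072) (nat_lit 31) (.e (nat_lit 573492) (nat_lit 15) (.e (nat_lit 81956) (nat_lit 23) (.e (nat_lit 98318) (nat_lit 17) (.e (nat_lit 7557) (nat_lit 402) .nil)))))) (.g (nat_lit 4) .nil .nil))) 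
(.lf (nat_lit 68156) (.g (nat_lit 3004) (.e (nat_lit 1638) (nat_lit 114) (.e (nat_lit 385074) (nat_lit 31) (.e (nat_lit 573481) (nat_lit 13) (.e (nat_lit 65604) (nat_lit 9) (.e (nat_lit 336013) (nat_lit 2) (.e (nat_lit 90165) (nat_lit 12) (.e (nat_lit 164238) (nat_lit 187) .nil))))))) (.g (nat_lit 4) .nil .nil))))))) (.nd (nat_lit 2) (.nd (nat_lit 3) (.nd (nat_lit 4) (.nd (nat_lit 5) 
(.lf (nat_lit 68098) (.g (nat_lit 1277) (.e (nat_lit 1638) (nat_lit 114) (.e (nat_lit 385068) (nat_lit 26) (.e (nat_lit 532560) (nat_lit 14) (.e (nat_lit 384768) (nat_lit 12) .nil)))) .nil)) 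
(.lf (nat_lit 68130) (.g (nat_lit 3785) (.e (nat_lit 1638) (nat_lit 114) (.e (nat_lit 385072) (nat_lit 31) (.e (nat_lit 573493) (nat_lit 15) (.e (nat_lit 81951) (nat_lit 22) (.e (nat_lit 90165) (nat_lit 12) .nil))))) .nil))) (.nd (nat_lit 5) 
(.lf (nat_lit 68114) (.g (nat_lit 3870) (.e (nat_lit 1638) (nat_lit 114) (.e (nat_lit 385072) (nat_lit 31) (.e (nat_lit 573485) (nat_lit 13) (.e (nat_lit 65604) (nat_lit 9) (.e (nat_lit 336028) (nat_lit 3) (.e (nat_lit 98325) (nat_lit 17) (.e (nat_lit 7554) (nat_lit 402) .nil))))))) (.g (nat_lit 7) .nil .nil))) 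
(.lf (nat_lit 68146) (.g (nat_lit 3488) (.e (nat_lit 1638) (nat_lit 114) (.e (nat_lit 385073) (nat_lit 31) (.e (nat_lit 573493) (nat_lit 15) (.e (nat_lit 81954) (nat_lit 23) (.e (nat_lit 98325) (nat_lit 17) (.e (nat_lit 7554) (nat_lit 402) .nil)))))) (.g (nat_lit 4) .nil .nil))))) (.nd (nat_lit 4) (.nd (nat_lit 5) 
(.lf (nat_lit 68106) (.g (nat_lit 3378) (.e (nat_lit 1638) (nat_lit 114) (.e (nat_lit 385072) (nat_lit 31) (.e (nat_lit 573481) (nat_lit 13) (.e (nat_lit 65619) (nat_lit 10) (.e (nat_lit 344129) (nat_lit 26) (.e (nat_lit 557084) (nat_lit 10) (.e (nat_lit 8567) (nat_lit 250) .nil))))))) (.g (nat_lit 5) .nil .nil))) 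
(.lf (nat_lit 68138) (.g (nat_lit 4308) (.e (nat_lit 1638) (nat_lit 114) (.e (nat_lit 385072) (nat_lit 31) (.e (nat_lit 573493) (nat_lit 15) (.e (nat_lit 81956) (nat_lit 23) (.e (nat_lit 106240) (nat_lit 17) (.e (nat_lit 7537) (nat_lit 402) .nil)))))) (.g (nat_lit 4) .nil .nil)))) (.nd (nat_lit 5) 
(.lf (nat_lit 68122) (.g (nat_lit 3823) (.e (nat_lit 1638) (nat_lit 114) (.e (nat_lit 385072) (nat_lit 31) (.e (nat_lit 573492) (nat_lit 15) (.e (nat_lit 81953) (nat_lit 22) (.e (nat_lit 90165) (nat_lit 12) (.e (nat_lit 164238) (nat_lit 187) .nil)))))) (.g (nat_lit 0) .nil .nil))) 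
(.lf (nat_lit 68154) (.g (nat_lit 2373) (.e (nat_lit 1638) (nat_lit 114) (.e (nat_lit 385074) (nat_lit 31) (.e (nat_lit 573479) (nat_lit 13) (.e (nat_lit 65604) (nat_lit 9) (.e (nat_lit 336013) (nat_lit 2) (.e (nat_lit 90165) (nat_lit 12) (.e (nat_lit 164239) (nat_lit 187) .nil))))))) (.g (nat_lit 4) .nil .nil)))))) (.nd (nat_lit 3) (.nd (nat_lit 4) (.nd (nat_lit 5) 
(.lf (nat_lit 68102) (.g (nat_lit 3837) (.e (nat_lit 1638) (nat_lit 114) (.e (nat_lit 385072) (nat_lit 31) (.e (nat_lit 573481) (nat_lit 13) (.e (nat_lit 65604) (nat_lit 9) (.e (nat_lit 336028) (nat_lit 3) (.e (nat_lit 98325) (nat_lit 17) (.e (nat_lit 7554) (nat_lit 402) .nil))))))) (.g (nat_lit 0) .nil .nil))) 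
(.lf (nat_lit 68134) (.g (nat_lit 3979) (.e (nat_lit 1638) (nat_lit 114) (.e (nat_lit 385072) (nat_lit 31) (.e (nat_lit 573493) (nat_lit 15) (.e (nat_lit 81956) (nat_lit 23) (.e (nat_lit 98318) (nat_lit 17) .nil))))) .nil))) (.nd (nat_lit 5) 
(.lf (nat_lit 68118) (.g (nat_lit 3129) (.e (nat_lit 1638) (nat_lit 114) (.e (nat_lit 385072) (nat_lit 31) (.e (nat_lit 573491) (nat_lit 15) (.e (nat_lit 81954) (nat_lit 23) (.e (nat_lit 98325) (nat_lit 17) (.e (nat_lit 7554) (nat_lit 402) .nil)))))) (.g (nat_lit 6) .nil .nil))) 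
(.lf (nat_lit 68150) (.g (nat_lit 3151) (.e (nat_lit 1638) (nat_lit 114) (.e (nat_lit 385073) (nat_lit 31) (.e (nat_lit 573493) (nat_lit 15) (.e (nat_lit 81956) (nat_lit 23) (.e (nat_lit 98321) (nat_lit 17) (.e (nat_lit 7562) (nat_lit 402) .nil)))))) (.g (nat_lit 4) .nil .nil))))) (.nd (nat_lit 4) (.nd (nat_lit 5) 
(.lf (nat_lit 68110) (.g (nat_lit 2554) (.e (nat_lit 1638) (nat_lit 114) (.e (nat_lit 385072) (nat_lit 31) (.e (nat_lit 573482) (nat_lit 13) (.e (nat_lit 65619) (nat_lit 10) (.e (nat_lit 344117) (nat_lit 21) (.e (nat_lit 516097) (nat_lit 0) (.e (nat_lit 7562) (nat_lit 402) .nil))))))) (.g (nat_lit 5) .nil .nil))) 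
(.lf (nat_lit 68142) (.g (nat_lit 2763) (.e (nat_lit 1638) (nat_lit 114) (.e (nat_lit 385073) (nat_lit 31) (.e (nat_lit 573491) (nat_lit 15) (.e (nat_lit 81954) (nat_lit 23) (.e (nat_lit 98325) (nat_lit 17) (.e (nat_lit 7554) (nat_lit 402) .nil)))))) (.g (nat_lit 0) .nil .nil)))) (.nd (nat_lit 5) 
(.lf (nat_lit 68126) (.g (nat_lit 3035) (.e (nat_lit 1638) (nat_lit 114) (.e (nat_lit 385072) (nat_lit 31) (.e (nat_lit 573492) (nat_lit 15) (.e (nat_lit 81956) (nat_lit 23) (.e (nat_lit 98321) (nat_lit 17) .nil))))) .nil)) 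
(.lf (nat_lit 68158) (.g (nat_lit 3061) (.e (nat_lit 1638) (nat_lit 114) (.e (nat_lit 385074) (nat_lit 31) (.e (nat_lit 573482) (nat_lit 13) (.e (nat_lit 65589) (nat_lit 9) (.e (nat_lit 336013) (nat_lit 2) (.e (nat_lit 90165) (nat_lit 12) (.e (nat_lit 164238) (nat_lit 187) .nil))))))) (.g (nat_lit 4) .nil .nil)))))))) 
(.nd (nat_lit 1) (.nd (nat_lit 2) (.nd (nat_lit 3) (.nd (nat_lit 4) (.nd (nat_lit 5) 
(.lf (nat_lit 68097) (.g (nat_lit 2721) (.e (nat_lit 1638) (nat_lit 114) (.e (nat_lit 385068) (nat_lit 26) (.e (nat_lit 532560) (nat_lit 14) (.e (nat_lit 376842) (nat_lit 11) (.e (nat_lit 426145) (nat_lit 4) .nil))))) .nil)) 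
(.lf (nat_lit 68129) (.g (nat_lit 3971) (.e (nat_lit 1638) (nat_lit 114) (.e (nat_lit 385072) (nat_lit 31) (.e (nat_lit 573492) (nat_lit 15) (.e (nat_lit 81956) (nat_lit 23) (.e (nat_lit 98325) (nat_lit 17) (.e (nat_lit 7556) (nat_lit 402) .nil)))))) (.g (nat_lit 0) .nil .nil)))) (.nd (nat_lit 5) 
(.lf (nat_lit 68113) (.g (nat_lit 4006) (.e (nat_lit 1638) (nat_lit 114) (.e (nat_lit 385072) (nat_lit 31) (.e (nat_lit 573485) (nat_lit 13) (.e (nat_lit 65604) (nat_lit 9) (.e (nat_lit 336013) (nat_lit 2) (.e (nat_lit 90165) (nat_lit 12) (.e (nat_lit 164239) (nat_lit 187) .nil))))))) (.g (nat_lit 7) .nil .nil))) 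
(.lf (nat_lit 68145) (.g (nat_lit 3327) (.e (nat_lit 1638) (nat_lit 114) (.e (nat_lit 385073) (nat_lit 31) (.e (nat_lit 573493) (nat_lit 15) (.e (nat_lit 81951) (nat_lit 22) (.e (nat_lit 90165) (nat_lit 12) (.e (nat_lit 164239) (nat_lit 187) .nil)))))) (.g (nat_lit 5) .nil .nil))))) (.nd (nat_lit 4) (.nd (nat_lit 5) 
(.lf (nat_lit 68105) (.g (nat_lit 4756) (.e (nat_lit 1638) (nat_lit 114) (.e (nat_lit 385072) (nat_lit 31) (.e (nat_lit 573481) (nat_lit 13) (.e (nat_lit 65619) (nat_lit 10) (.e (nat_lit 344117) (nat_lit 21) (.e (nat_lit 516106) (nat_lit 0) (.e (nat_lit 7556) (nat_lit 402) .nil))))))) (.g (nat_lit 0) .nil .nil))) 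
(.lf (nat_lit 68137) (.g (nat_lit 4446) (.e (nat_lit 1638) (nat_lit 114) (.e (nat_lit 385072) (nat_lit 31) (.e (nat_lit 573493) (nat_lit 15) (.e (nat_lit 81956) (nat_lit 23) (.e (nat_lit 98325) (nat_lit 17) (.e (nat_lit 7556) (nat_lit 402) .nil)))))) (.g (nat_lit 6) .nil .nil)))) (.nd (nat_lit 5) 
(.lf (nat_lit 68121) (.g (nat_lit 2060) (.e (nat_lit 1638) (nat_lit 114) (.e (nat_lit 385072) (nat_lit 31) (.e (nat_lit 573492) (nat_lit 15) (.e (nat_lit 81951) (nat_lit 22) (.e (nat_lit 90165) (nat_lit 12) (.e (nat_lit 164238) (nat_lit 187) .nil)))))) (.g (nat_lit 4) .nil .nil))) 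
(.lf (nat_lit 68153) (.g (nat_lit 1062) (.e (nat_lit 1638) (nat_lit 114) (.e (nat_lit 385074) (nat_lit 31) (.e (nat_lit 573457) (nat_lit 9) (.e (nat_lit 1598) (nat_lit 111) .nil)))) .nil))))) (.nd (nat_lit 3) (.nd (nat_lit 4) (.nd (nat_lit 5) 
(.lf (nat_lit 68101) (.g (nat_lit 2718) (.e (nat_lit 1638) (nat_lit 114) (.e (nat_lit 385072) (nat_lit 31) (.e (nat_lit 573479) (nat_lit 13) (.e (nat_lit 65619) (nat_lit 10) (.e (nat_lit 344117) (nat_lit 21) (.e (nat_lit 516106) (nat_lit 0) (.e (nat_lit 7556) (nat_lit 402) .nil))))))) (.g (nat_lit 5) .nil .nil))) 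
(.lf (nat_lit 68133) (.g (nat_lit 3820) (.e (nat_lit 1638) (nat_lit 114) (.e (nat_lit 385072) (nat_lit 31) (.e (nat_lit 573493) (nat_lit 15) (.e (nat_lit 81954) (nat_lit 23) (.e (nat_lit 98325) (nat_lit 17) .nil))))) .nil))) (.nd (nat_lit 5) 
(.lf (nat_lit 68117) (.g (nat_lit 1614) (.e (nat_lit 1638) (nat_lit 114) (.e (nat_lit 385072) (nat_lit 31) (.e (nat_lit 573491) (nat_lit 15) (.e (nat_lit 81954) (nat_lit 23) (.e (nat_lit 98321) (nat_lit 17) .nil))))) .nil)) 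
(.lf (nat_lit 68149) (.g (nat_lit 4460) (.e (nat_lit 1638) (nat_lit 114) (.e (nat_lit 385073) (nat_lit 31) (.e (nat_lit 573493) (nat_lit 15) (.e (nat_lit 81956) (nat_lit 23) (.e (nat_lit 98318) (nat_lit 17) (.e (nat_lit 7557) (nat_lit 402) .nil)))))) (.g (nat_lit 5) .nil .nil))))) (.nd (nat_lit 4) (.nd (nat_lit 5) 
(.lf (nat_lit 68109) (.g (nat_lit 2756) (.e (nat_lit 1638) (nat_lit 114) (.e (nat_lit 385072) (nat_lit 31) (.e (nat_lit 573482) (nat_lit 13) (.e (nat_lit 65604) (nat_lit 9) (.e (nat_lit 336028) (nat_lit 3) (.e (nat_lit 106240) (nat_lit 17) (.e (nat_lit 7537) (nat_lit 402) .nil))))))) (.g (nat_lit 4) .nil .nil))) 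
(.lf (nat_lit 68141) (.g (nat_lit 2319) (.e (nat_lit 1638) (nat_lit 114) (.e (nat_lit 385073) (nat_lit 31) (.e (nat_lit 573485) (nat_lit 13) (.e (nat_lit 65604) (nat_lit 9) (.e (nat_lit 336028) (nat_lit 3) (.e (nat_lit 106240) (nat_lit 17) (.e (nat_lit 7537) (nat_lit 402) .nil))))))) (.g (nat_lit 5) .nil .nil)))) (.nd (nat_lit 5) 
(.lf (nat_lit 68125) (.g (nat_lit 5117) (.e (nat_lit 1638) (nat_lit 114) (.e (nat_lit 385072) (nat_lit 31) (.e (nat_lit 573492) (nat_lit 15) (.e (nat_lit 81956) (nat_lit 23) (.e (nat_lit 98320) (nat_lit 17) .nil))))) .nil)) 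
(.lf (nat_lit 68157) (.g (nat_lit 2673) (.e (nat_lit 1638) (nat_lit 114) (.e (nat_lit 385074) (nat_lit 31) (.e (nat_lit 573481) (nat_lit 13) (.e (nat_lit 65619) (nat_lit 10) (.e (nat_lit 344117) (nat_lit 21) (.e (nat_lit 516106) (nat_lit 0) (.e (nat_lit 7556) (nat_lit 402) .nil))))))) (.g (nat_lit 4) .nil .nil))))))) (.nd (nat_lit 2) (.nd (nat_lit 3) (.nd (nat_lit 4) (.nd (nat_lit 5) 
(.lf (nat_lit 68099) (.g (nat_lit 776) (.e (nat_lit 1638) (nat_lit 114) (.e (nat_lit 385068) (nat_lit 26) (.e (nat_lit 532563) (nat_lit 15) .nil))) .nil)) 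
(.lf (nat_lit 68131) (.g (nat_lit 4059) (.e (nat_lit 1638) (nat_lit 114) (.e (nat_lit 385072) (nat_lit 31) (.e (nat_lit 573493) (nat_lit 15) (.e (nat_lit 81951) (nat_lit 22) (.e (nat_lit 90165) (nat_lit 12) (.e (nat_lit 164238) (nat_lit 187) .nil)))))) (.g (nat_lit 4) .nil .nil)))) (.nd (nat_lit 5) 
(.lf (nat_lit 68115) (.g (nat_lit 2431) (.e (nat_lit 1638) (nat_lit 114) (.e (nat_lit 385072) (nat_lit 31) (.e (nat_lit 573485) (nat_lit 13) (.e (nat_lit 65604) (nat_lit 9) (.e (nat_lit 336028) (nat_lit 3) (.e (nat_lit 106240) (nat_lit 17) (.e (nat_lit 7537) (nat_lit 402) .nil))))))) (.g (nat_lit 4) .nil .nil))) 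
(.lf (nat_lit 68147) (.g (nat_lit 3583) (.e (nat_lit 1638) (nat_lit 114) (.e (nat_lit 385073) (nat_lit 31) (.e (nat_lit 573493) (nat_lit 15) (.e (nat_lit 81954) (nat_lit 23) (.e (nat_lit 98325) (nat_lit 17) (.e (nat_lit 7556) (nat_lit 402) .nil)))))) (.g (nat_lit 5) .nil .nil))))) (.nd (nat_lit 4) (.nd (nat_lit 5) 
(.lf (nat_lit 68107) (.g (nat_lit 4740) (.e (nat_lit 1638) (nat_lit 114) (.e (nat_lit 385072) (nat_lit 31) (.e (nat_lit 573482) (nat_lit 13) (.e (nat_lit 65604) (nat_lit 9) (.e (nat_lit 336013) (nat_lit 2) (.e (nat_lit 90165) (nat_lit 12) (.e (nat_lit 164238) (nat_lit 187) .nil))))))) (.g (nat_lit 0) .nil .nil))) 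
(.lf (nat_lit 68139) (.g (nat_lit 2487) (.e (nat_lit 1638) (nat_lit 114) (.e (nat_lit 385073) (nat_lit 31) (.e (nat_lit 573482) (nat_lit 13) (.e (nat_lit 65604) (nat_lit 9) (.e (nat_lit 336028) (nat_lit 3) (.e (nat_lit 106240) (nat_lit 17) (.e (nat_lit 7537) (nat_lit 402) .nil))))))) (.g (nat_lit 5) .nil .nil)))) (.nd (nat_lit 5) 
(.lf (nat_lit 68123) (.g (nat_lit 3390) (.e (nat_lit 1638) (nat_lit 114) (.e (nat_lit 385072) (nat_lit 31) (.e (nat_lit 573492) (nat_lit 15) (.e (nat_lit 81953) (nat_lit 22) (.e (nat_lit 90165) (nat_lit 12) (.e (nat_lit 164239) (nat_lit 187) .nil)))))) (.g (nat_lit 0) .nil .nil))) 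
(.lf (nat_lit 68155) (.g (nat_lit 3978) (.e (nat_lit 1638) (nat_lit 114) (.e (nat_lit 385074) (nat_lit 31) (.e (nat_lit 573479) (nat_lit 13) (.e (nat_lit 65619) (nat_lit 10) (.e (nat_lit 344117) (nat_lit 21) (.e (nat_lit 516106) (nat_lit 0) (.e (nat_lit 7556) (nat_lit 402) .nil))))))) (.g (nat_lit 6) .nil .nil)))))) (.nd (nat_lit 3) (.nd (nat_lit 4) (.nd (nat_lit 5) 
(.lf (nat_lit 68103) (.g (nat_lit 3730) (.e (nat_lit 1638) (nat_lit 114) (.e (nat_lit 385072) (nat_lit 31) (.e (nat_lit 573481) (nat_lit 13) (.e (nat_lit 65604) (nat_lit 9) (.e (nat_lit 336028) (nat_lit 3) (.e (nat_lit 98325) (nat_lit 17) (.e (nat_lit 7556) (nat_lit 402) .nil))))))) (.g (nat_lit 0) .nil .nil))) 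
(.lf (nat_lit 68135) (.g (nat_lit 4678) (.e (nat_lit 1638) (nat_lit 114) (.e (nat_lit 385072) (nat_lit 31) (.e (nat_lit 573493) (nat_lit 15) (.e (nat_lit 81956) (nat_lit 23) (.e (nat_lit 98321) (nat_lit 17) .nil))))) .nil))) (.nd (nat_lit 5) 
(.lf (nat_lit 68119) (.g (nat_lit 3018) (.e (nat_lit 1638) (nat_lit 114) (.e (nat_lit 385072) (nat_lit 31) (.e (nat_lit 573491) (nat_lit 15) (.e (nat_lit 81954) (nat_lit 23) (.e (nat_lit 98325) (nat_lit 17) (.e (nat_lit 7556) (nat_lit 402) .nil)))))) (.g (nat_lit 0) .nil .nil))) 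
(.lf (nat_lit 68151) (.g (nat_lit 2988) (.e (nat_lit 1638) (nat_lit 114) (.e (nat_lit 385073) (nat_lit 31) (.e (nat_lit 573493) (nat_lit 15) (.e (nat_lit 81956) (nat_lit 23) (.e (nat_lit 98321) (nat_lit 17) (.e (nat_lit 7936) (nat_lit 402) .nil)))))) (.g (nat_lit 4) .nil .nil))))) (.nd (nat_lit 4) (.nd (nat_lit 5) 
(.lf (nat_lit 68111) (.g (nat_lit 3268) (.e (nat_lit 1638) (nat_lit 114) (.e (nat_lit 385072) (nat_lit 31) (.e (nat_lit 573484) (nat_lit 13) (.e (nat_lit 65610) (nat_lit 10) (.e (nat_lit 344117) (nat_lit 21) (.e (nat_lit 516099) (nat_lit 0) (.e (nat_lit 7562) (nat_lit 402) .nil))))))) (.g (nat_lit 5) .nil .nil))) 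
(.lf (nat_lit 68143) (.g (nat_lit 1756) (.e (nat_lit 1638) (nat_lit 114) (.e (nat_lit 385073) (nat_lit 31) (.e (nat_lit 573491) (nat_lit 15) (.e (nat_lit 81954) (nat_lit 23) (.e (nat_lit 106240) (nat_lit 17) (.e (nat_lit 7537) (nat_lit 402) .nil)))))) (.g (nat_lit 4) .nil .nil)))) (.nd (nat_lit 5) 
(.lf (nat_lit 68127) (.g (nat_lit 3202) (.e (nat_lit 1638) (nat_lit 114) (.e (nat_lit 385072) (nat_lit 31) (.e (nat_lit 573492) (nat_lit 15) (.e (nat_lit 81956) (nat_lit 23) (.e (nat_lit 98323) (nat_lit 17) (.e (nat_lit 7537) (nat_lit 402) .nil)))))) (.g (nat_lit 4) .nil .nil))) 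
(.lf (nat_lit 68159) (.g (nat_lit 2372) (.e (nat_lit 1638) (nat_lit 114) (.e (nat_lit 385074) (nat_lit 31) (.e (nat_lit 573482) (nat_lit 13) (.e (nat_lit 65595) (nat_lit 9) (.e (nat_lit 336013) (nat_lit 2) .nil))))) .nil))))))))

noncomputable def tv939 : DT := (.nd (nat_lit 0) (.nd (nat_lit 1) (.nd (nat_lit 2) (.nd (nat_lit 3) (.nd (nat_lit 4) (.nd (nat_lit 5) 
(.lf (nat_lit 68160) (.g (nat_lit 2132) (.e (nat_lit 1638) (nat_lit 114) (.e (nat_lit 385074) (nat_lit 31) (.e (nat_lit 573482) (nat_lit 13) (.e (nat_lit 65604) (nat_lit 9) (.e (nat_lit 336013) (nat_lit 2) .nil))))) .nil)) 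
(.lf (nat_lit 68192) (.g (nat_lit 556) (.e (nat_lit 1638) (nat_lit 114) (.e (nat_lit 385074) (nat_lit 31) (.e (nat_lit 573492) (nat_lit 15) .nil))) .nil))) (.nd (nat_lit 5) 
(.lf (nat_lit 68176) (.g (nat_lit 4492) (.e (nat_lit 1638) (nat_lit 114) (.e (nat_lit 385074) (nat_lit 31) (.e (nat_lit 573485) (nat_lit 13) (.e (nat_lit 65619) (nat_lit 10) (.e (nat_lit 344117) (nat_lit 21) (.e (nat_lit 516099) (nat_lit 0) (.e (nat_lit 7562) (nat_lit 402) .nil))))))) (.g (nat_lit 5) .nil .nil))) 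
(.lf (nat_lit 68208) (.g (nat_lit 3819) (.e (nat_lit 1638) (nat_lit 114) (.e (nat_lit 385074) (nat_lit 31) (.e (nat_lit 573493) (nat_lit 15) (.e (nat_lit 81956) (nat_lit 23) (.e (nat_lit 98325) (nat_lit 17) (.e (nat_lit 7554) (nat_lit 402) .nil)))))) (.g (nat_lit 6) .nil .nil))))) (.nd (nat_lit 4) (.nd (nat_lit 5) 
(.lf (nat_lit 68168) (.g (nat_lit 2950) (.e (nat_lit 1638) (nat_lit 114) (.e (nat_lit 385074) (nat_lit 31) (.e (nat_lit 573482) (nat_lit 13) (.e (nat_lit 65619) (nat_lit 10) (.e (nat_lit 344129) (nat_lit 26) (.e (nat_lit 557084) (nat_lit 10) (.e (nat_lit 8567) (nat_lit 250) .nil))))))) (.g (nat_lit 4) .nil .nil))) 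
(.lf (nat_lit 68200) (.g (nat_lit 3526) (.e (nat_lit 1638) (nat_lit 114) (.e (nat_lit 385074) (nat_lit 31) (.e (nat_lit 573493) (nat_lit 15) (.e (nat_lit 81954) (nat_lit 23) (.e (nat_lit 106240) (nat_lit 17) (.e (nat_lit 7537) (nat_lit 402) .nil)))))) (.g (nat_lit 4) .nil .nil)))) (.nd (nat_lit 5) 
(.lf (nat_lit 68184) (.g (nat_lit 3756) (.e (nat_lit 1638) (nat_lit 114) (.e (nat_lit 385074) (nat_lit 31) (.e (nat_lit 573491) (nat_lit 15) (.e (nat_lit 81954) (nat_lit 23) (.e (nat_lit 98321) (nat_lit 17) (.e (nat_lit 7562) (nat_lit 402) .nil)))))) (.g (nat_lit 5) .nil .nil))) 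
(.lf (nat_lit 68216) (.g (nat_lit 2865) (.e (nat_lit 1638) (nat_lit 114) (.e (nat_lit 385092) (nat_lit 49) (.e (nat_lit 778317) (nat_lit 3) (.e (nat_lit 57480) (nat_lit 28) (.e (nat_lit 557109) (nat_lit 15) (.e (nat_lit 188449) (nat_lit 22) (.e (nat_lit 204544) (nat_lit 9) .nil))))))) (.g (nat_lit 6) .nil .nil)))))) (.nd (nat_lit 3) (.nd (nat_lit 4) (.nd (nat_lit 5) 
(.lf (nat_lit 68164) (.g (nat_lit 4705) (.e (nat_lit 1638) (nat_lit 114) (.e (nat_lit 385074) (nat_lit 31) (.e (nat_lit 573482) (nat_lit 13) (.e (nat_lit 65604) (nat_lit 9) (.e (nat_lit 336028) (nat_lit 3) (.e (nat_lit 98325) (nat_lit 17) (.e (nat_lit 7556) (nat_lit 402) .nil))))))) (.g (nat_lit 0) .nil .nil))) 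
(.lf (nat_lit 68196) (.g (nat_lit 2440) (.e (nat_lit 1638) (nat_lit 114) (.e (nat_lit 385074) (nat_lit 31) (.e (nat_lit 573493) (nat_lit 15) (.e (nat_lit 81954) (nat_lit 23) (.e (nat_lit 98321) (nat_lit 17) .nil))))) .nil))) (.nd (nat_lit 5) 
(.lf (nat_lit 68180) (.g (nat_lit 2161) (.e (nat_lit 1638) (nat_lit 114) (.e (nat_lit 385074) (nat_lit 31) (.e (nat_lit 573485) (nat_lit 13) (.e (nat_lit 65619) (nat_lit 10) (.e (nat_lit 344117) (nat_lit 21) (.e (nat_lit 516106) (nat_lit 0) (.e (nat_lit 7936) (nat_lit 402) .nil))))))) (.g (nat_lit 4) .nil .nil))) 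
(.lf (nat_lit 68212) (.g (nat_lit 2438) (.e (nat_lit 1638) (nat_lit 114) (.e (nat_lit 385091) (nat_lit 49) (.e (nat_lit 778317) (nat_lit 3) (.e (nat_lit 57480) (nat_lit 28) (.e (nat_lit 557109) (nat_lit 15) (.e (nat_lit 188449) (nat_lit 22) (.e (nat_lit 204544) (nat_lit 9) .nil))))))) (.g (nat_lit 6) .nil .nil))))) (.nd (nat_lit 4) (.nd (nat_lit 5) 
(.lf (nat_lit 68172) (.g (nat_lit 1893) (.e (nat_lit 1638) (nat_lit 114) (.e (nat_lit 385074) (nat_lit 31) (.e (nat_lit 573485) (nat_lit 13) (.e (nat_lit 65604) (nat_lit 9) (.e (nat_lit 336028) (nat_lit 3) (.e (nat_lit 98325) (nat_lit 17) (.e (nat_lit 7936) (nat_lit 402) .nil))))))) (.g (nat_lit 4) .nil .nil))) 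
(.lf (nat_lit 68204) (.g (nat_lit 2862) (.e (nat_lit 1638) (nat_lit 114) (.e (nat_lit 385074) (nat_lit 31) (.e (nat_lit 573493) (nat_lit 15) (.e (nat_lit 81956) (nat_lit 23) (.e (nat_lit 98321) (nat_lit 17) (.e (nat_lit 7562) (nat_lit 402) .nil)))))) (.g (nat_lit 4) .nil .nil)))) (.nd (nat_lit 5) 
(.lf (nat_lit 68188) (.g (nat_lit 3072) (.e (nat_lit 1638) (nat_lit 114) (.e (nat_lit 385074) (nat_lit 31) (.e (nat_lit 573491) (nat_lit 15) (.e (nat_lit 81954) (nat_lit 23) (.e (nat_lit 98325) (nat_lit 17) (.e (nat_lit 7556) (nat_lit 402) .nil)))))) (.g (nat_lit 0) .nil .nil))) 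
(.lf (nat_lit 68220) (.g (nat_lit 1292) (.e (nat_lit 1638) (nat_lit 114) (.e (nat_lit 385093) (nat_lit 49) (.e (nat_lit 778317) (nat_lit 3) (.e (nat_lit 57476) (nat_lit 28) .nil)))) .nil)))))) (.nd (nat_lit 2) (.nd (nat_lit 3) (.nd (nat_lit 4) (.nd (nat_lit 5) 
(.lf (nat_lit 68162) (.g (nat_lit 5004) (.e (nat_lit 1638) (nat_lit 114) (.e (nat_lit 385074) (nat_lit 31) (.e (nat_lit 573482) (nat_lit 13) (.e (nat_lit 65604) (nat_lit 9) (.e (nat_lit 336013) (nat_lit 2) (.e (nat_lit 90165) (nat_lit 12) (.e (nat_lit 164239) (nat_lit 187) .nil))))))) (.g (nat_lit 0) .nil .nil))) 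
(.lf (nat_lit 68194) (.g (nat_lit 3801) (.e (nat_lit 1638) (nat_lit 114) (.e (nat_lit 385074) (nat_lit 31) (.e (nat_lit 573493) (nat_lit 15) (.e (nat_lit 81951) (nat_lit 22) (.e (nat_lit 90165) (nat_lit 12) (.e (nat_lit 164239) (nat_lit 187) .nil)))))) (.g (nat_lit 0) .nil .nil)))) (.nd (nat_lit 5) 
(.lf (nat_lit 68178) (.g (nat_lit 3449) (.e (nat_lit 1638) (nat_lit 114) (.e (nat_lit 385074) (nat_lit 31) (.e (nat_lit 573485) (nat_lit 13) (.e (nat_lit 65619) (nat_lit 10) (.e (nat_lit 344117) (nat_lit 21) (.e (nat_lit 516106) (nat_lit 0) (.e (nat_lit 7554) (nat_lit 402) .nil))))))) (.g (nat_lit 5) .nil .nil))) 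
(.lf (nat_lit 68210) (.g (nat_lit 2699) (.e (nat_lit 1638) (nat_lit 114) (.e (nat_lit 385091) (nat_lit 49) (.e (nat_lit 778317) (nat_lit 3) (.e (nat_lit 57476) (nat_lit 28) (.e (nat_lit 557108) (nat_lit 15) (.e (nat_lit 188449) (nat_lit 22) (.e (nat_lit 204544) (nat_lit 9) .nil))))))) (.g (nat_lit 6) .nil .nil))))) (.nd (nat_lit 4) (.nd (nat_lit 5) 
(.lf (nat_lit 68170) (.g (nat_lit 4675) (.e (nat_lit 1638) (nat_lit 114) (.e (nat_lit 385074) (nat_lit 31) (.e (nat_lit 573484) (nat_lit 13) (.e (nat_lit 65610) (nat_lit 10) (.e (nat_lit 344117) (nat_lit 21) (.e (nat_lit 516099) (nat_lit 0) (.e (nat_lit 7562) (nat_lit 402) .nil))))))) (.g (nat_lit 0) .nil .nil))) 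
(.lf (nat_lit 68202) (.g (nat_lit 4033) (.e (nat_lit 1638) (nat_lit 114) (.e (nat_lit 385074) (nat_lit 31) (.e (nat_lit 573493) (nat_lit 15) (.e (nat_lit 81956) (nat_lit 23) (.e (nat_lit 98318) (nat_lit 17) (.e (nat_lit 7557) (nat_lit 402) .nil)))))) (.g (nat_lit 5) .nil .nil)))) (.nd (nat_lit 5) 
(.lf (nat_lit 68186) (.g (nat_lit 3700) (.e (nat_lit 1638) (nat_lit 114) (.e (nat_lit 385074) (nat_lit 31) (.e (nat_lit 573491) (nat_lit 15) (.e (nat_lit 81954) (nat_lit 23) (.e (nat_lit 98323) (nat_lit 17) (.e (nat_lit 7537) (nat_lit 402) .nil)))))) (.g (nat_lit 5) .nil .nil))) 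
(.lf (nat_lit 68218) (.g (nat_lit 2831) (.e (nat_lit 1638) (nat_lit 114) (.e (nat_lit 385092) (nat_lit 49) (.e (nat_lit 778320) (nat_lit 4) (.e (nat_lit 65630) (nat_lit 14) (.e (nat_lit 401454) (nat_lit 12) (.e (nat_lit 475143) (nat_lit 8) .nil)))))) (.g (nat_lit 5) .nil .nil)))))) (.nd (nat_lit 3) (.nd (nat_lit 4) (.nd (nat_lit 5) 
(.lf (nat_lit 68166) (.g (nat_lit 2936) (.e (nat_lit 1638) (nat_lit 114) (.e (nat_lit 385074) (nat_lit 31) (.e (nat_lit 573482) (nat_lit 13) (.e (nat_lit 65619) (nat_lit 10) (.e (nat_lit 344117) (nat_lit 21) (.e (nat_lit 516097) (nat_lit 0) (.e (nat_lit 7562) (nat_lit 402) .nil))))))) (.g (nat_lit 5) .nil .nil))) 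
(.lf (nat_lit 68198) (.g (nat_lit 3296) (.e (nat_lit 1638) (nat_lit 114) (.e (nat_lit 385074) (nat_lit 31) (.e (nat_lit 573493) (nat_lit 15) (.e (nat_lit 81954) (nat_lit 23) (.e (nat_lit 98325) (nat_lit 17) (.e (nat_lit 7554) (nat_lit 402) .nil)))))) (.g (nat_lit 5) .nil .nil)))) (.nd (nat_lit 5) 
(.lf (nat_lit 68182) (.g (nat_lit 660) (.e (nat_lit 1638) (nat_lit 114) (.e (nat_lit 385074) (nat_lit 31) (.e (nat_lit 573490) (nat_lit 15) .nil))) .nil)) 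
(.lf (nat_lit 68214) (.g (nat_lit 3040) (.e (nat_lit 1638) (nat_lit 114) (.e (nat_lit 385092) (nat_lit 49) (.e (nat_lit 778317) (nat_lit 3) (.e (nat_lit 57476) (nat_lit 28) (.e (nat_lit 557108) (nat_lit 15) (.e (nat_lit 188449) (nat_lit 22) (.e (nat_lit 204544) (nat_lit 9) .nil))))))) (.g (nat_lit 6) .nil .nil))))) (.nd (nat_lit 4) (.nd (nat_lit 5) 
(.lf (nat_lit 68174) (.g (nat_lit 3406) (.e (nat_lit 1638) (nat_lit 114) (.e (nat_lit 385074) (nat_lit 31) (.e (nat_lit 573485) (nat_lit 13) (.e (nat_lit 65619) (nat_lit 10) (.e (nat_lit 344117) (nat_lit 21) (.e (nat_lit 516096) (nat_lit 0) (.e (nat_lit 7557) (nat_lit 402) .nil))))))) (.g (nat_lit 5) .nil .nil))) 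
(.lf (nat_lit 68206) (.g (nat_lit 3246) (.e (nat_lit 1638) (nat_lit 114) (.e (nat_lit 385074) (nat_lit 31) (.e (nat_lit 573493) (nat_lit 15) (.e (nat_lit 81956) (nat_lit 23) (.e (nat_lit 98323) (nat_lit 17) (.e (nat_lit 7537) (nat_lit 402) .nil)))))) (.g (nat_lit 4) .nil .nil)))) (.nd (nat_lit 5) 
(.lf (nat_lit 68190) (.g (nat_lit 2147) (.e (nat_lit 1638) (nat_lit 114) (.e (nat_lit 385074) (nat_lit 31) (.e (nat_lit 573491) (nat_lit 15) (.e (nat_lit 81956) (nat_lit 23) (.e (nat_lit 98325) (nat_lit 17) .nil))))) .nil)) 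
(.lf (nat_lit 68222) (.g (nat_lit 6009) (.e (nat_lit 1638) (nat_lit 114) (.e (nat_lit 385093) (nat_lit 49) (.e (nat_lit 778317) (nat_lit 3) (.e (nat_lit 57476) (nat_lit 28) (.e (nat_lit 557108) (nat_lit 15) (.e (nat_lit 188449) (nat_lit 22) (.e (nat_lit 196645) (nat_lit 9) .nil))))))) (.g (nat_lit 6) .nil .nil)))))))) 
(.nd (nat_lit 1) (.nd (nat_lit 2) (.nd (nat_lit 3) (.nd (nat_lit 4) (.nd (nat_lit 5) 
(.lf (nat_lit 68161) (.g (nat_lit 5387) (.e (nat_lit 1638) (nat_lit 114) (.e (nat_lit 385074) (nat_lit 31) (.e (nat_lit 573482) (nat_lit 13) (.e (nat_lit 65604) (nat_lit 9) (.e (nat_lit 336013) (nat_lit 2) (.e (nat_lit 90165) (nat_lit 12) (.e (nat_lit 164238) (nat_lit 187) .nil))))))) (.g (nat_lit 0) .nil .nil))) 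
(.lf (nat_lit 68193) (.g (nat_lit 4297) (.e (nat_lit 1638) (nat_lit 114) (.e (nat_lit 385074) (nat_lit 31) (.e (nat_lit 573493) (nat_lit 15) (.e (nat_lit 81951) (nat_lit 22) (.e (nat_lit 90165) (nat_lit 12) (.e (nat_lit 164238) (nat_lit 187) .nil)))))) (.g (nat_lit 0) .nil .nil)))) (.nd (nat_lit 5) 
(.lf (nat_lit 68177) (.g (nat_lit 2696) (.e (nat_lit 1638) (nat_lit 114) (.e (nat_lit 385074) (nat_lit 31) (.e (nat_lit 573485) (nat_lit 13) (.e (nat_lit 65619) (nat_lit 10) (.e (nat_lit 344117) (nat_lit 21) (.e (nat_lit 516100) (nat_lit 0) (.e (nat_lit 7562) (nat_lit 402) .nil))))))) (.g (nat_lit 4) .nil .nil))) 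
(.lf (nat_lit 68209) (.g (nat_lit 4166) (.e (nat_lit 1638) (nat_lit 114) (.e (nat_lit 385074) (nat_lit 31) (.e (nat_lit 573493) (nat_lit 15) (.e (nat_lit 81956) (nat_lit 23) (.e (nat_lit 98325) (nat_lit 17) (.e (nat_lit 7556) (nat_lit 402) .nil)))))) (.g (nat_lit 0) .nil .nil))))) (.nd (nat_lit 4) (.nd (nat_lit 5) 
(.lf (nat_lit 68169) (.g (nat_lit 1348) (.e (nat_lit 1638) (nat_lit 114) (.e (nat_lit 385074) (nat_lit 31) (.e (nat_lit 573482) (nat_lit 13) (.e (nat_lit 65630) (nat_lit 14) .nil)))) .nil)) 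
(.lf (nat_lit 68201) (.g (nat_lit 2557) (.e (nat_lit 1638) (nat_lit 114) (.e (nat_lit 385074) (nat_lit 31) (.e (nat_lit 573493) (nat_lit 15) (.e (nat_lit 81956) (nat_lit 23) (.e (nat_lit 98318) (nat_lit 17) .nil))))) .nil))) (.nd (nat_lit 5) 
(.lf (nat_lit 68185) (.g (nat_lit 2385) (.e (nat_lit 1638) (nat_lit 114) (.e (nat_lit 385074) (nat_lit 31) (.e (nat_lit 573491) (nat_lit 15) (.e (nat_lit 81954) (nat_lit 23) (.e (nat_lit 98321) (nat_lit 17) (.e (nat_lit 7936) (nat_lit 402) .nil)))))) (.g (nat_lit 4) .nil .nil))) 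
(.lf (nat_lit 68217) (.g (nat_lit 3166) (.e (nat_lit 1638) (nat_lit 114) (.e (nat_lit 385092) (nat_lit 49) (.e (nat_lit 778320) (nat_lit 4) (.e (nat_lit 65630) (nat_lit 14) (.e (nat_lit 401454) (nat_lit 12) (.e (nat_lit 475142) (nat_lit 8) .nil)))))) (.g (nat_lit 5) .nil .nil)))))) (.nd (nat_lit 3) (.nd (nat_lit 4) (.nd (nat_lit 5) 
(.lf (nat_lit 68165) (.g (nat_lit 3561) (.e (nat_lit 1638) (nat_lit 114) (.e (nat_lit 385074) (nat_lit 31) (.e (nat_lit 573482) (nat_lit 13) (.e (nat_lit 65604) (nat_lit 9) (.e (nat_lit 336028) (nat_lit 3) (.e (nat_lit 106240) (nat_lit 17) (.e (nat_lit 7537) (nat_lit 402) .nil))))))) (.g (nat_lit 5) .nil .nil))) 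
(.lf (nat_lit 68197) (.g (nat_lit 2367) (.e (nat_lit 1638) (nat_lit 114) (.e (nat_lit 385074) (nat_lit 31) (.e (nat_lit 573493) (nat_lit 15) (.e (nat_lit 81954) (nat_lit 23) (.e (nat_lit 98323) (nat_lit 17) (.e (nat_lit 7537) (nat_lit 402) .nil)))))) (.g (nat_lit 4) .nil .nil)))) (.nd (nat_lit 5) 
(.lf (nat_lit 68181) (.g (nat_lit 3950) (.e (nat_lit 1638) (nat_lit 114) (.e (nat_lit 385074) (nat_lit 31) (.e (nat_lit 573485) (nat_lit 13) (.e (nat_lit 65619) (nat_lit 10) (.e (nat_lit 344129) (nat_lit 26) (.e (nat_lit 557084) (nat_lit 10) (.e (nat_lit 8568) (nat_lit 250) .nil))))))) (.g (nat_lit 5) .nil .nil))) 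
(.lf (nat_lit 68213) (.g (nat_lit 3312) (.e (nat_lit 1638) (nat_lit 114) (.e (nat_lit 385091) (nat_lit 49) (.e (nat_lit 778318) (nat_lit 3) (.e (nat_lit 57476) (nat_lit 28) (.e (nat_lit 557108) (nat_lit 15) (.e (nat_lit 188449) (nat_lit 22) (.e (nat_lit 204544) (nat_lit 9) .nil))))))) (.g (nat_lit 6) .nil .nil))))) (.nd (nat_lit 4) (.nd (nat_lit 5) 
(.lf (nat_lit 68173) (.g (nat_lit 3641) (.e (nat_lit 1638) (nat_lit 114) (.e (nat_lit 385074) (nat_lit 31) (.e (nat_lit 573485) (nat_lit 13) (.e (nat_lit 65604) (nat_lit 9) (.e (nat_lit 336028) (nat_lit 3) (.e (nat_lit 106240) (nat_lit 17) (.e (nat_lit 7537) (nat_lit 402) .nil))))))) (.g (nat_lit 5) .nil .nil))) 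
(.lf (nat_lit 68205) (.g (nat_lit 3056) (.e (nat_lit 1638) (nat_lit 114) (.e (nat_lit 385074) (nat_lit 31) (.e (nat_lit 573493) (nat_lit 15) (.e (nat_lit 81956) (nat_lit 23) (.e (nat_lit 98321) (nat_lit 17) (.e (nat_lit 7936) (nat_lit 402) .nil)))))) (.g (nat_lit 5) .nil .nil)))) (.nd (nat_lit 5) 
(.lf (nat_lit 68189) (.g (nat_lit 1581) (.e (nat_lit 1638) (nat_lit 114) (.e (nat_lit 385074) (nat_lit 31) (.e (nat_lit 573491) (nat_lit 15) (.e (nat_lit 81954) (nat_lit 23) (.e (nat_lit 106240) (nat_lit 17) .nil))))) .nil)) 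
(.lf (nat_lit 68221) (.g (nat_lit 2603) (.e (nat_lit 1638) (nat_lit 114) (.e (nat_lit 385093) (nat_lit 49) (.e (nat_lit 778317) (nat_lit 3) (.e (nat_lit 57476) (nat_lit 28) (.e (nat_lit 557107) (nat_lit 15) (.e (nat_lit 188456) (nat_lit 25) (.e (nat_lit 245786) (nat_lit 9) .nil))))))) (.g (nat_lit 4) .nil .nil))))))) (.nd (nat_lit 2) (.nd (nat_lit 3) (.nd (nat_lit 4) (.nd (nat_lit 5) 
(.lf (nat_lit 68163) (.g (nat_lit 4665) (.e (nat_lit 1638) (nat_lit 114) (.e (nat_lit 385074) (nat_lit 31) (.e (nat_lit 573482) (nat_lit 13) (.e (nat_lit 65604) (nat_lit 9) (.e (nat_lit 336028) (nat_lit 3) (.e (nat_lit 98325) (nat_lit 17) (.e (nat_lit 7554) (nat_lit 402) .nil))))))) (.g (nat_lit 7) .nil .nil))) 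
(.lf (nat_lit 68195) (.g (nat_lit 2705) (.e (nat_lit 1638) (nat_lit 114) (.e (nat_lit 385074) (nat_lit 31) (.e (nat_lit 573493) (nat_lit 15) (.e (nat_lit 81954) (nat_lit 23) (.e (nat_lit 98318) (nat_lit 17) (.e (nat_lit 7557) (nat_lit 402) .nil)))))) (.g (nat_lit 4) .nil .nil)))) (.nd (nat_lit 5) 
(.lf (nat_lit 68179) (.g (nat_lit 4871) (.e (nat_lit 1638) (nat_lit 114) (.e (nat_lit 385074) (nat_lit 31) (.e (nat_lit 573485) (nat_lit 13) (.e (nat_lit 65619) (nat_lit 10) (.e (nat_lit 344117) (nat_lit 21) (.e (nat_lit 516106) (nat_lit 0) (.e (nat_lit 7556) (nat_lit 402) .nil))))))) (.g (nat_lit 0) .nil .nil))) 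
(.lf (nat_lit 68211) (.g (nat_lit 2371) (.e (nat_lit 1638) (nat_lit 114) (.e (nat_lit 385091) (nat_lit 49) (.e (nat_lit 778317) (nat_lit 3) (.e (nat_lit 57477) (nat_lit 28) (.e (nat_lit 557108) (nat_lit 15) (.e (nat_lit 188449) (nat_lit 22) (.e (nat_lit 204544) (nat_lit 9) .nil))))))) (.g (nat_lit 6) .nil .nil))))) (.nd (nat_lit 4) (.nd (nat_lit 5) 
(.lf (nat_lit 68171) (.g (nat_lit 3186) (.e (nat_lit 1638) (nat_lit 114) (.e (nat_lit 385074) (nat_lit 31) (.e (nat_lit 573484) (nat_lit 13) (.e (nat_lit 65617) (nat_lit 10) (.e (nat_lit 344117) (nat_lit 21) .nil))))) .nil)) 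
(.lf (nat_lit 68203) (.g (nat_lit 2706) (.e (nat_lit 1638) (nat_lit 114) (.e (nat_lit 385074) (nat_lit 31) (.e (nat_lit 573493) (nat_lit 15) (.e (nat_lit 81956) (nat_lit 23) (.e (nat_lit 98320) (nat_lit 17) .nil))))) .nil))) (.nd (nat_lit 5) 
(.lf (nat_lit 68187) (.g (nat_lit 2870) (.e (nat_lit 1638) (nat_lit 114) (.e (nat_lit 385074) (nat_lit 31) (.e (nat_lit 573491) (nat_lit 15) (.e (nat_lit 81954) (nat_lit 23) (.e (nat_lit 98325) (nat_lit 17) (.e (nat_lit 7554) (nat_lit 402) .nil)))))) (.g (nat_lit 6) .nil .nil))) 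
(.lf (nat_lit 68219) (.g (nat_lit 658) (.e (nat_lit 1638) (nat_lit 114) (.e (nat_lit 385093) (nat_lit 49) (.e (nat_lit 778291) (nat_lit 0) .nil))) .nil))))) (.nd (nat_lit 3) (.nd (nat_lit 4) (.nd (nat_lit 5) 
(.lf (nat_lit 68167) (.g (nat_lit 4183) (.e (nat_lit 1638) (nat_lit 114) (.e (nat_lit 385074) (nat_lit 31) (.e (nat_lit 573482) (nat_lit 13) (.e (nat_lit 65619) (nat_lit 10) (.e (nat_lit 344117) (nat_lit 21) (.e (nat_lit 516106) (nat_lit 0) (.e (nat_lit 7556) (nat_lit 402) .nil))))))) (.g (nat_lit 0) .nil .nil))) 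
(.lf (nat_lit 68199) (.g (nat_lit 3684) (.e (nat_lit 1638) (nat_lit 114) (.e (nat_lit 385074) (nat_lit 31) (.e (nat_lit 573493) (nat_lit 15) (.e (nat_lit 81954) (nat_lit 23) (.e (nat_lit 98325) (nat_lit 17) (.e (nat_lit 7556) (nat_lit 402) .nil)))))) (.g (nat_lit 0) .nil .nil)))) (.nd (nat_lit 5) 
(.lf (nat_lit 68183) (.g (nat_lit 2865) (.e (nat_lit 1638) (nat_lit 114) (.e (nat_lit 385074) (nat_lit 31) (.e (nat_lit 573491) (nat_lit 15) (.e (nat_lit 81954) (nat_lit 23) (.e (nat_lit 98318) (nat_lit 17) (.e (nat_lit 7557) (nat_lit 402) .nil)))))) (.g (nat_lit 4) .nil .nil))) 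
(.lf (nat_lit 68215) (.g (nat_lit 2831) (.e (nat_lit 1638) (nat_lit 114) (.e (nat_lit 385092) (nat_lit 49) (.e (nat_lit 778317) (nat_lit 3) (.e (nat_lit 57477) (nat_lit 28) (.e (nat_lit 557108) (nat_lit 15) (.e (nat_lit 188449) (nat_lit 22) (.e (nat_lit 204544) (nat_lit 9) .nil))))))) (.g (nat_lit 6) .nil .nil))))) (.nd (nat_lit 4) (.nd (nat_lit 5) 
(.lf (nat_lit 68175) (.g (nat_lit 4201) (.e (nat_lit 1638) (nat_lit 114) (.e (nat_lit 385074) (nat_lit 31) (.e (nat_lit 573485) (nat_lit 13) (.e (nat_lit 65619) (nat_lit 10) (.e (nat_lit 344117) (nat_lit 21) (.e (nat_lit 516097) (nat_lit 0) (.e (nat_lit 7562) (nat_lit 402) .nil))))))) (.g (nat_lit 6) .nil .nil))) 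
(.lf (nat_lit 68207) (.g (nat_lit 2318) (.e (nat_lit 1638) (nat_lit 114) (.e (nat_lit 385074) (nat_lit 31) (.e (nat_lit 573493) (nat_lit 15) (.e (nat_lit 81956) (nat_lit 23) (.e (nat_lit 98325) (nat_lit 17) .nil))))) .nil))) (.nd (nat_lit 5) 
(.lf (nat_lit 68191) (.g (nat_lit 3337) (.e (nat_lit 1638) (nat_lit 114) (.e (nat_lit 385074) (nat_lit 31) (.e (nat_lit 573491) (nat_lit 15) (.e (nat_lit 81956) (nat_lit 23) (.e (nat_lit 106240) (nat_lit 17) (.e (nat_lit 7537) (nat_lit 402) .nil)))))) (.g (nat_lit 4) .nil .nil))) 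
(.lf (nat_lit 68223) (.g (nat_lit 4915) (.e (nat_lit 1638) (nat_lit 114) (.e (nat_lit 385093) (nat_lit 49) (.e (nat_lit 778317) (nat_lit 3) (.e (nat_lit 57476) (nat_lit 28) (.e (nat_lit 557108) (nat_lit 15) (.e (nat_lit 188449) (nat_lit 22) (.e (nat_lit 196646) (nat_lit 9) .nil))))))) (.g (nat_lit 6) .nil .nil)))))))))

noncomputable def tv940 : DT := (.nd (nat_lit 0) (.nd (nat_lit 1) (.nd (nat_lit 2) (.nd (nat_lit 3) (.nd (nat_lit 4) (.nd (nat_lit 5) (.nd (nat_lit 6) 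
(.lf (nat_lit 68224) (.g (nat_lit 3669) (.e (nat_lit 1638) (nat_lit 114) (.e (nat_lit 385093) (nat_lit 49) (.e (nat_lit 778317) (nat_lit 3) (.e (nat_lit 57476) (nat_lit 28) (.e (nat_lit 557108) (nat_lit 15) (.e (nat_lit 188449) (nat_lit 22) (.e (nat_lit 204544) (nat_lit 9) .nil))))))) (.g (nat_lit 6) .nil .nil))) 
(.lf (nat_lit 68288) (.g (nat_lit 2199) (.e (nat_lit 1640) (nat_lit 114) (.e (nat_lit 385068) (nat_lit 26) (.e (nat_lit 532504) (nat_lit 1) (.e (nat_lit 57829) (nat_lit 250) .nil)))) .nil))) (.nd (nat_lit 6) 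
(.lf (nat_lit 68256) (.g (nat_lit 2908) (.e (nat_lit 1638) (nat_lit 114) (.e (nat_lit 385105) (nat_lit 50) (.e (nat_lit 786450) (nat_lit 15) (.e (nat_lit 2160) (nat_lit 143) (.e (nat_lit 712755) (nat_lit 30) (.e (nat_lit 450597) (nat_lit 17) (.e (nat_lit 663561) (nat_lit 0) .nil))))))) (.g (nat_lit 5) .nil .nil))) 
(.lf (nat_lit 68320) (.g (nat_lit 3325) (.e (nat_lit 1641) (nat_lit 114) (.e (nat_lit 385074) (nat_lit 31) (.e (nat_lit 573484) (nat_lit 13) (.e (nat_lit 65617) (nat_lit 10) (.e (nat_lit 344130) (nat_lit 26) (.e (nat_lit 557090) (nat_lit 12) (.e (nat_lit 164015) (nat_lit 43) (.e (nat_lit 679949) (nat_lit 5) .nil)))))))) (.g (nat_lit 4) .nil .nil))))) (.nd (nat_lit 5) (.nd (nat_lit 6) 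
(.lf (nat_lit 68240) (.g (nat_lit 2913) (.e (nat_lit 1638) (nat_lit 114) (.e (nat_lit 385093) (nat_lit 49) (.e (nat_lit 778318) (nat_lit 3) (.e (nat_lit 57543) (nat_lit 47) (.e (nat_lit 712755) (nat_lit 30) (.e (nat_lit 450597) (nat_lit 17) (.e (nat_lit 663561) (nat_lit 0) .nil))))))) (.g (nat_lit 5) .nil .nil))) 
(.lf (nat_lit 68304) (.g (nat_lit 1210) (.e (nat_lit 1640) (nat_lit 114) (.e (nat_lit 385109) (nat_lit 51) (.e (nat_lit 794683) (nat_lit 25) .nil))) .nil))) (.nd (nat_lit 6) 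
(.lf (nat_lit 68272) (.g (nat_lit 875) (.e (nat_lit 1639) (nat_lit 114) (.e (nat_lit 385068) (nat_lit 26) (.e (nat_lit 532501) (nat_lit 1) .nil))) .nil)) 
(.lf (nat_lit 68336) (.g (nat_lit 2975) (.e (nat_lit 1641) (nat_lit 114) (.e (nat_lit 385074) (nat_lit 31) (.e (nat_lit 573493) (nat_lit 15) (.e (nat_lit 81956) (nat_lit 23) (.e (nat_lit 98320) (nat_lit 17) (.e (nat_lit 7545) (nat_lit 402) .nil)))))) (.g (nat_lit 4) .nil .nil)))))) (.nd (nat_lit 4) (.nd (nat_lit 5) (.nd (nat_lit 6) 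
(.lf (nat_lit 68232) (.g (nat_lit 6272) (.e (nat_lit 1638) (nat_lit 114) (.e (nat_lit 385093) (nat_lit 49) (.e (nat_lit 778317) (nat_lit 3) (.e (nat_lit 57480) (nat_lit 28) (.e (nat_lit 557109) (nat_lit 15) (.e (nat_lit 188449) (nat_lit 22) (.e (nat_lit 196645) (nat_lit 9) .nil))))))) (.g (nat_lit 7) .nil .nil))) 
(.lf (nat_lit 68296) (.g (nat_lit 3939) (.e (nat_lit 1640) (nat_lit 114) (.e (nat_lit 385074) (nat_lit 31) (.e (nat_lit 573485) (nat_lit 13) (.e (nat_lit 65619) (nat_lit 10) (.e (nat_lit 344117) (nat_lit 21) (.e (nat_lit 516106) (nat_lit 0) (.e (nat_lit 7936) (nat_lit 402) .nil))))))) (.g (nat_lit 5) .nil .nil)))) (.nd (nat_lit 6) 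
(.lf (nat_lit 68264) (.g (nat_lit 1214) (.e (nat_lit 1638) (nat_lit 114) (.e (nat_lit 385105) (nat_lit 50) (.e (nat_lit 786478) (nat_lit 29) (.e (nat_lit 352262) (nat_lit 0) .nil)))) .nil)) 
(.lf (nat_lit 68328) (.g (nat_lit 2174) (.e (nat_lit 1641) (nat_lit 114) (.e (nat_lit 385074) (nat_lit 31) (.e (nat_lit 573491) (nat_lit 15) (.e (nat_lit 81954) (nat_lit 23) (.e (nat_lit 98321) (nat_lit 17) (.e (nat_lit 7936) (nat_lit 402) .nil)))))) (.g (nat_lit 5) .nil .nil))))) (.nd (nat_lit 5) (.nd (nat_lit 6) 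
(.lf (nat_lit 68248) (.g (nat_lit 1772) (.e (nat_lit 1638) (nat_lit 114) (.e (nat_lit 385102) (nat_lit 50) (.e (nat_lit 786483) (nat_lit 30) (.e (nat_lit 360486) (nat_lit 18) (.e (nat_lit 671788) (nat_lit 14) .nil))))) .nil)) 
(.lf (nat_lit 68312) (.g (nat_lit 687) (.e (nat_lit 1641) (nat_lit 114) (.e (nat_lit 385068) (nat_lit 26) (.e (nat_lit 532560) (nat_lit 14) .nil))) .nil))) (.nd (nat_lit 6) 
(.lf (nat_lit 68280) (.g (nat_lit 1346) (.e (nat_lit 1640) (nat_lit 114) (.e (nat_lit 385066) (nat_lit 26) (.e (nat_lit 532533) (nat_lit 9) (.e (nat_lit 336211) (nat_lit 13) (.e (nat_lit 393252) (nat_lit 18) .nil))))) .nil)) 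
(.lf (nat_lit 68344) (.g (nat_lit 849) (.e (nat_lit 1641) (nat_lit 114) (.e (nat_lit 385105) (nat_lit 50) (.e (nat_lit 786450) (nat_lit 15) .nil))) .nil)))))) (.nd (nat_lit 3) (.nd (nat_lit 4) (.nd (nat_lit 5) (.nd (nat_lit 6) 
(.lf (nat_lit 68228) (.g (nat_lit 5068) (.e (nat_lit 1638) (nat_lit 114) (.e (nat_lit 385093) (nat_lit 49) (.e (nat_lit 778317) (nat_lit 3) (.e (nat_lit 57477) (nat_lit 28) (.e (nat_lit 557108) (nat_lit 15) (.e (nat_lit 188449) (nat_lit 22) (.e (nat_lit 196646) (nat_lit 9) .nil))))))) (.g (nat_lit 6) .nil .nil))) 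
(.lf (nat_lit 68292) (.g (nat_lit 2786) (.e (nat_lit 1640) (nat_lit 114) (.e (nat_lit 385073) (nat_lit 31) (.e (nat_lit 573493) (nat_lit 15) (.e (nat_lit 81956) (nat_lit 23) (.e (nat_lit 98325) (nat_lit 17) .nil))))) .nil))) (.nd (nat_lit 6) 
(.lf (nat_lit 68260) (.g (nat_lit 3584) (.e (nat_lit 1638) (nat_lit 114) (.e (nat_lit 385105) (nat_lit 50) (.e (nat_lit 786473) (nat_lit 27) (.e (nat_lit 336235) (nat_lit 14) (.e (nat_lit 401453) (nat_lit 12) (.e (nat_lit 475142) (nat_lit 8) .nil)))))) (.g (nat_lit 5) .nil .nil))) 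
(.lf (nat_lit 68324) (.g (nat_lit 3532) (.e (nat_lit 1641) (nat_lit 114) (.e (nat_lit 385074) (nat_lit 31) (.e (nat_lit 573485) (nat_lit 13) (.e (nat_lit 65619) (nat_lit 10) (.e (nat_lit 344117) (nat_lit 21) (.e (nat_lit 516098) (nat_lit 0) (.e (nat_lit 7545) (nat_lit 402) .nil))))))) (.g (nat_lit 6) .nil .nil))))) (.nd (nat_lit 5) (.nd (nat_lit 6) 
(.lf (nat_lit 68244) (.g (nat_lit 2160) (.e (nat_lit 1638) (nat_lit 114) (.e (nat_lit 385093) (nat_lit 49) (.e (nat_lit 778323) (nat_lit 5) (.e (nat_lit 73782) (nat_lit 32) (.e (nat_lit 3067) (nat_lit 190) (.e (nat_lit 475143) (nat_lit 8) .nil)))))) (.g (nat_lit 4) .nil .nil))) 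
(.lf (nat_lit 68308) (.g (nat_lit 1878) (.e (nat_lit 1641) (nat_lit 114) (.e (nat_lit 385066) (nat_lit 26) (.e (nat_lit 532558) (nat_lit 14) (.e (nat_lit 376842) (nat_lit 11) (.e (nat_lit 426100) (nat_lit 1) (.e (nat_lit 164161) (nat_lit 152) (.e (nat_lit 1032) (nat_lit 81) .nil))))))) (.g (nat_lit 4) .nil .nil)))) (.nd (nat_lit 6) 
(.lf (nat_lit 68276) (.g (nat_lit 3563) (.e (nat_lit 1639) (nat_lit 114) (.e (nat_lit 385074) (nat_lit 31) (.e (nat_lit 573485) (nat_lit 13) (.e (nat_lit 65619) (nat_lit 10) (.e (nat_lit 344117) (nat_lit 21) (.e (nat_lit 516106) (nat_lit 0) (.e (nat_lit 7936) (nat_lit 402) .nil))))))) (.g (nat_lit 6) .nil .nil))) 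
(.lf (nat_lit 68340) (.g (nat_lit 5381) (.e (nat_lit 1641) (nat_lit 114) (.e (nat_lit 385092) (nat_lit 49) (.e (nat_lit 778317) (nat_lit 3) (.e (nat_lit 57480) (nat_lit 28) (.e (nat_lit 557109) (nat_lit 15) (.e (nat_lit 188449) (nat_lit 22) (.e (nat_lit 196637) (nat_lit 9) .nil))))))) (.g (nat_lit 6) .nil .nil)))))) (.nd (nat_lit 4) (.nd (nat_lit 5) (.nd (nat_lit 6) 
(.lf (nat_lit 68236) (.g (nat_lit 1976) (.e (nat_lit 1638) (nat_lit 114) (.e (nat_lit 385093) (nat_lit 49) (.e (nat_lit 778318) (nat_lit 3) (.e (nat_lit 57476) (nat_lit 28) (.e (nat_lit 557097) (nat_lit 13) .nil))))) .nil)) 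
(.lf (nat_lit 68300) (.g (nat_lit 3430) (.e (nat_lit 1640) (nat_lit 114) (.e (nat_lit 385093) (nat_lit 49) (.e (nat_lit 778317) (nat_lit 3) (.e (nat_lit 57476) (nat_lit 28) (.e (nat_lit 557108) (nat_lit 15) (.e (nat_lit 188458) (nat_lit 25) (.e (nat_lit 245784) (nat_lit 9) .nil))))))) (.g (nat_lit 6) .nil .nil)))) (.nd (nat_lit 6) 
(.lf (nat_lit 68268) (.g (nat_lit 1605) (.e (nat_lit 1638) (nat_lit 114) (.e (nat_lit 385105) (nat_lit 50) (.e (nat_lit 786483) (nat_lit 30) (.e (nat_lit 360484) (nat_lit 15) (.e (nat_lit 655104) (nat_lit 15) .nil))))) .nil)) 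
(.lf (nat_lit 68332) (.g (nat_lit 2821) (.e (nat_lit 1641) (nat_lit 114) (.e (nat_lit 385074) (nat_lit 31) (.e (nat_lit 573493) (nat_lit 15) (.e (nat_lit 81953) (nat_lit 22) (.e (nat_lit 90133) (nat_lit 9) .nil))))) .nil)))) (.nd (nat_lit 5) (.nd (nat_lit 6) 
(.lf (nat_lit 68252) (.g (nat_lit 1522) (.e (nat_lit 1638) (nat_lit 114) (.e (nat_lit 385104) (nat_lit 50) (.e (nat_lit 786483) (nat_lit 30) (.e (nat_lit 360485) (nat_lit 16) .nil)))) .nil)) 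
(.lf (nat_lit 68316) (.g (nat_lit 2806) (.e (nat_lit 1641) (nat_lit 114) (.e (nat_lit 385074) (nat_lit 31) (.e (nat_lit 573482) (nat_lit 13) (.e (nat_lit 65619) (nat_lit 10) (.e (nat_lit 344117) (nat_lit 21) (.e (nat_lit 516098) (nat_lit 0) (.e (nat_lit 7545) (nat_lit 402) .nil))))))) (.g (nat_lit 5) .nil .nil)))) (.nd (nat_lit 6) 
(.lf (nat_lit 68284) (.g (nat_lit 1925) (.e (nat_lit 1640) (nat_lit 114) (.e (nat_lit 385066) (nat_lit 26) (.e (nat_lit 532560) (nat_lit 14) (.e (nat_lit 376842) (nat_lit 11) (.e (nat_lit 426100) (nat_lit 1) .nil))))) .nil)) 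
(.lf (nat_lit 68348) (.g (nat_lit 1565) (.e (nat_lit 1642) (nat_lit 114) (.e (nat_lit 385066) (nat_lit 26) (.e (nat_lit 532534) (nat_lit 9) (.e (nat_lit 336316) (nat_lit 17) .nil)))) .nil))))))) (.nd (nat_lit 2) (.nd (nat_lit 3) (.nd (nat_lit 4) (.nd (nat_lit 5) (.nd (nat_lit 6) 
(.lf (nat_lit 68226) (.g (nat_lit 2348) (.e (nat_lit 1638) (nat_lit 114) (.e (nat_lit 385093) (nat_lit 49) (.e (nat_lit 778317) (nat_lit 3) (.e (nat_lit 57477) (nat_lit 28) (.e (nat_lit 557107) (nat_lit 15) (.e (nat_lit 188456) (nat_lit 25) (.e (nat_lit 245786) (nat_lit 9) .nil))))))) (.g (nat_lit 5) .nil .nil))) 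
(.lf (nat_lit 68290) (.g (nat_lit 4551) (.e (nat_lit 1640) (nat_lit 114) (.e (nat_lit 385073) (nat_lit 31) (.e (nat_lit 573493) (nat_lit 15) (.e (nat_lit 81956) (nat_lit 23) (.e (nat_lit 98320) (nat_lit 17) .nil))))) .nil))) (.nd (nat_lit 6) 
(.lf (nat_lit 68258) (.g (nat_lit 454) (.e (nat_lit 1638) (nat_lit 114) (.e (nat_lit 385105) (nat_lit 50) (.e (nat_lit 786473) (nat_lit 27) .nil))) .nil)) 
(.lf (nat_lit 68322) (.g (nat_lit 2925) (.e (nat_lit 1641) (nat_lit 114) (.e (nat_lit 385074) (nat_lit 31) (.e (nat_lit 573485) (nat_lit 13) (.e (nat_lit 65619) (nat_lit 10) (.e (nat_lit 344117) (nat_lit 21) (.e (nat_lit 516097) (nat_lit 0) (.e (nat_lit 7500) (nat_lit 402) .nil))))))) (.g (nat_lit 5) .nil .nil))))) (.nd (nat_lit 5) (.nd (nat_lit 6) 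
(.lf (nat_lit 68242) (.g (nat_lit 1841) (.e (nat_lit 1638) (nat_lit 114) (.e (nat_lit 385093) (nat_lit 49) (.e (nat_lit 778320) (nat_lit 4) (.e (nat_lit 65630) (nat_lit 14) (.e (nat_lit 401454) (nat_lit 12) (.e (nat_lit 483072) (nat_lit 8) .nil)))))) (.g (nat_lit 4) .nil .nil))) 
(.lf (nat_lit 68306) (.g (nat_lit 1606) (.e (nat_lit 1641) (nat_lit 114) (.e (nat_lit 385066) (nat_lit 26) (.e (nat_lit 532534) (nat_lit 9) (.e (nat_lit 336211) (nat_lit 13) .nil)))) .nil))) (.nd (nat_lit 6) 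
(.lf (nat_lit 68274) (.g (nat_lit 3278) (.e (nat_lit 1639) (nat_lit 114) (.e (nat_lit 385074) (nat_lit 31) (.e (nat_lit 573485) (nat_lit 13) (.e (nat_lit 65604) (nat_lit 9) (.e (nat_lit 336013) (nat_lit 2) (.e (nat_lit 90165) (nat_lit 12) (.e (nat_lit 171776) (nat_lit 187) .nil))))))) (.g (nat_lit 6) .nil .nil))) 
(.lf (nat_lit 68338) (.g (nat_lit 3091) (.e (nat_lit 1641) (nat_lit 114) (.e (nat_lit 385074) (nat_lit 31) (.e (nat_lit 573493) (nat_lit 15) (.e (nat_lit 81956) (nat_lit 23) (.e (nat_lit 98323) (nat_lit 17) (.e (nat_lit 7936) (nat_lit 402) .nil)))))) (.g (nat_lit 5) .nil .nil)))))) (.nd (nat_lit 4) (.nd (nat_lit 5) (.nd (nat_lit 6) 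
(.lf (nat_lit 68234) (.g (nat_lit 3341) (.e (nat_lit 1638) (nat_lit 114) (.e (nat_lit 385093) (nat_lit 49) (.e (nat_lit 778317) (nat_lit 3) (.e (nat_lit 57480) (nat_lit 28) (.e (nat_lit 557109) (nat_lit 15) (.e (nat_lit 188449) (nat_lit 22) (.e (nat_lit 204544) (nat_lit 9) .nil))))))) (.g (nat_lit 6) .nil .nil))) 
(.lf (nat_lit 68298) (.g (nat_lit 2987) (.e (nat_lit 1640) (nat_lit 114) (.e (nat_lit 385092) (nat_lit 49) (.e (nat_lit 778317) (nat_lit 3) (.e (nat_lit 57477) (nat_lit 28) (.e (nat_lit 557108) (nat_lit 15) (.e (nat_lit 188458) (nat_lit 25) (.e (nat_lit 245784) (nat_lit 9) .nil))))))) (.g (nat_lit 7) .nil .nil)))) (.nd (nat_lit 6) 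
(.lf (nat_lit 68266) (.g (nat_lit 426) (.e (nat_lit 1638) (nat_lit 114) (.e (nat_lit 385105) (nat_lit 50) (.e (nat_lit 786483) (nat_lit 30) .nil))) .nil)) 
(.lf (nat_lit 68330) (.g (nat_lit 1628) (.e (nat_lit 1641) (nat_lit 114) (.e (nat_lit 385074) (nat_lit 31) (.e (nat_lit 573491) (nat_lit 15) (.e (nat_lit 81954) (nat_lit 23) (.e (nat_lit 98325) (nat_lit 17) .nil))))) .nil)))) (.nd (nat_lit 5) (.nd (nat_lit 6) 
(.lf (nat_lit 68250) (.g (nat_lit 1198) (.e (nat_lit 1638) (nat_lit 114) (.e (nat_lit 385104) (nat_lit 50) (.e (nat_lit 786480) (nat_lit 29) (.e (nat_lit 352256) (nat_lit 0) .nil)))) .nil)) 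
(.lf (nat_lit 68314) (.g (nat_lit 1768) (.e (nat_lit 1641) (nat_lit 114) (.e (nat_lit 385074) (nat_lit 31) (.e (nat_lit 573482) (nat_lit 13) (.e (nat_lit 65604) (nat_lit 9) .nil)))) .nil))) (.nd (nat_lit 6) 
(.lf (nat_lit 68282) (.g (nat_lit 2148) (.e (nat_lit 1640) (nat_lit 114) (.e (nat_lit 385066) (nat_lit 26) (.e (nat_lit 532534) (nat_lit 9) (.e (nat_lit 336211) (nat_lit 13) (.e (nat_lit 393252) (nat_lit 18) .nil))))) .nil)) 
(.lf (nat_lit 68346) (.g (nat_lit 3025) (.e (nat_lit 1642) (nat_lit 114) (.e (nat_lit 385066) (nat_lit 26) (.e (nat_lit 532534) (nat_lit 9) (.e (nat_lit 336019) (nat_lit 3) (.e (nat_lit 98342) (nat_lit 20) (.e (nat_lit 221198) (nat_lit 20) (.e (nat_lit 3266) (nat_lit 199) (.e (nat_lit 548874) (nat_lit 5) .nil)))))))) (.g (nat_lit 4) .nil .nil))))))) 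
(.nd (nat_lit 3) (.nd (nat_lit 4) (.nd (nat_lit 5) (.nd (nat_lit 6) 
(.lf (nat_lit 68230) (.g (nat_lit 2687) (.e (nat_lit 1638) (nat_lit 114) (.e (nat_lit 385093) (nat_lit 49) (.e (nat_lit 778317) (nat_lit 3) (.e (nat_lit 57477) (nat_lit 28) (.e (nat_lit 557108) (nat_lit 15) (.e (nat_lit 188458) (nat_lit 25) (.e (nat_lit 245786) (nat_lit 9) .nil))))))) (.g (nat_lit 5) .nil .nil))) 
(.lf (nat_lit 68294) (.g (nat_lit 2284) (.e (nat_lit 1640) (nat_lit 114) (.e (nat_lit 385074) (nat_lit 31) (.e (nat_lit 573482) (nat_lit 13) (.e (nat_lit 65604) (nat_lit 9) .nil)))) .nil))) (.nd (nat_lit 6) 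
(.lf (nat_lit 68262) (.g (nat_lit 3941) (.e (nat_lit 1638) (nat_lit 114) (.e (nat_lit 385105) (nat_lit 50) (.e (nat_lit 786473) (nat_lit 27) (.e (nat_lit 336235) (nat_lit 14) (.e (nat_lit 401454) (nat_lit 12) (.e (nat_lit 475143) (nat_lit 8) .nil)))))) (.g (nat_lit 5) .nil .nil))) 
(.lf (nat_lit 68326) (.g (nat_lit 1081) (.e (nat_lit 1641) (nat_lit 114) (.e (nat_lit 385074) (nat_lit 31) (.e (nat_lit 573491) (nat_lit 15) (.e (nat_lit 81954) (nat_lit 23) .nil)))) .nil)))) (.nd (nat_lit 5) (.nd (nat_lit 6) 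
(.lf (nat_lit 68246) (.g (nat_lit 951) (.e (nat_lit 1638) (nat_lit 114) (.e (nat_lit 385093) (nat_lit 49) (.e (nat_lit 778324) (nat_lit 5) (.e (nat_lit 81664) (nat_lit 36) .nil)))) .nil)) 
(.lf (nat_lit 68310) (.g (nat_lit 1355) (.e (nat_lit 1641) (nat_lit 114) (.e (nat_lit 385068) (nat_lit 26) (.e (nat_lit 532543) (nat_lit 10) .nil))) .nil))) (.nd (nat_lit 6) 
(.lf (nat_lit 68278) (.g (nat_lit 2179) (.e (nat_lit 1639) (nat_lit 114) (.e (nat_lit 385093) (nat_lit 49) (.e (nat_lit 778317) (nat_lit 3) (.e (nat_lit 57476) (nat_lit 28) (.e (nat_lit 557108) (nat_lit 15) (.e (nat_lit 188458) (nat_lit 25) (.e (nat_lit 245782) (nat_lit 9) .nil))))))) (.g (nat_lit 4) .nil .nil))) 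
(.lf (nat_lit 68342) (.g (nat_lit 1485) (.e (nat_lit 1641) (nat_lit 114) (.e (nat_lit 385094) (nat_lit 49) (.e (nat_lit 778317) (nat_lit 3) (.e (nat_lit 57477) (nat_lit 28) .nil)))) .nil))))) (.nd (nat_lit 4) (.nd (nat_lit 5) (.nd (nat_lit 6) 
(.lf (nat_lit 68238) (.g (nat_lit 3773) (.e (nat_lit 1638) (nat_lit 114) (.e (nat_lit 385093) (nat_lit 49) (.e (nat_lit 778318) (nat_lit 3) (.e (nat_lit 57476) (nat_lit 28) (.e (nat_lit 557108) (nat_lit 15) (.e (nat_lit 188449) (nat_lit 22) (.e (nat_lit 204544) (nat_lit 9) .nil))))))) (.g (nat_lit 5) .nil .nil))) 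
(.lf (nat_lit 68302) (.g (nat_lit 3801) (.e (nat_lit 1640) (nat_lit 114) (.e (nat_lit 385105) (nat_lit 50) (.e (nat_lit 786450) (nat_lit 15) (.e (nat_lit 1853) (nat_lit 124) (.e (nat_lit 557108) (nat_lit 15) (.e (nat_lit 188458) (nat_lit 25) (.e (nat_lit 245784) (nat_lit 9) .nil))))))) (.g (nat_lit 5) .nil .nil)))) (.nd (nat_lit 6) 
(.lf (nat_lit 68270) (.g (nat_lit 617) (.e (nat_lit 1638) (nat_lit 114) (.e (nat_lit 385105) (nat_lit 50) (.e (nat_lit 786489) (nat_lit 34) .nil))) .nil)) 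
(.lf (nat_lit 68334) (.g (nat_lit 2663) (.e (nat_lit 1641) (nat_lit 114) (.e (nat_lit 385074) (nat_lit 31) (.e (nat_lit 573493) (nat_lit 15) (.e (nat_lit 81956) (nat_lit 23) (.e (nat_lit 98319) (nat_lit 17) .nil))))) .nil)))) (.nd (nat_lit 5) (.nd (nat_lit 6) 
(.lf (nat_lit 68254) (.g (nat_lit 359) (.e (nat_lit 1638) (nat_lit 114) (.e (nat_lit 385104) (nat_lit 50) (.e (nat_lit 786489) (nat_lit 34) .nil))) .nil)) 
(.lf (nat_lit 68318) (.g (nat_lit 2728) (.e (nat_lit 1641) (nat_lit 114) (.e (nat_lit 385074) (nat_lit 31) (.e (nat_lit 573484) (nat_lit 13) (.e (nat_lit 65617) (nat_lit 10) .nil)))) .nil))) (.nd (nat_lit 6) 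
(.lf (nat_lit 68286) (.g (nat_lit 2313) (.e (nat_lit 1640) (nat_lit 114) (.e (nat_lit 385068) (nat_lit 26) (.e (nat_lit 532501) (nat_lit 1) (.e (nat_lit 57829) (nat_lit 250) .nil)))) .nil)) 
(.lf (nat_lit 68350) (.g (nat_lit 1664) (.e (nat_lit 1642) (nat_lit 114) (.e (nat_lit 385066) (nat_lit 26) (.e (nat_lit 532534) (nat_lit 9) (.e (nat_lit 336326) (nat_lit 18) .nil)))) .nil)))))))) (.nd (nat_lit 1) (.nd (nat_lit 2) (.nd (nat_lit 3) (.nd (nat_lit 4) (.nd (nat_lit 5) (.nd (nat_lit 6) 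
(.lf (nat_lit 68225) (.g (nat_lit 3033) (.e (nat_lit 1638) (nat_lit 114) (.e (nat_lit 385093) (nat_lit 49) (.e (nat_lit 778317) (nat_lit 3) (.e (nat_lit 57476) (nat_lit 28) (.e (nat_lit 557108) (nat_lit 15) (.e (nat_lit 188458) (nat_lit 25) (.e (nat_lit 245786) (nat_lit 9) .nil))))))) (.g (nat_lit 5) .nil .nil))) 
(.lf (nat_lit 68289) (.g (nat_lit 2755) (.e (nat_lit 1640) (nat_lit 114) (.e (nat_lit 385073) (nat_lit 31) (.e (nat_lit 573493) (nat_lit 15) (.e (nat_lit 81953) (nat_lit 22) (.e (nat_lit 90165) (nat_lit 12) .nil))))) .nil))) (.nd (nat_lit 6) 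
(.lf (nat_lit 68257) (.g (nat_lit 2555) (.e (nat_lit 1638) (nat_lit 114) (.e (nat_lit 385105) (nat_lit 50) (.e (nat_lit 786456) (nat_lit 18) (.e (nat_lit 98342) (nat_lit 20) (.e (nat_lit 221207) (nat_lit 21) (.e (nat_lit 164179) (nat_lit 154) (.e (nat_lit 57371) (nat_lit 2) (.e (nat_lit 90114) (nat_lit 0) .nil)))))))) (.g (nat_lit 4) .nil .nil))) 
(.lf (nat_lit 68321) (.g (nat_lit 3565) (.e (nat_lit 1641) (nat_lit 114) (.e (nat_lit 385074) (nat_lit 31) (.e (nat_lit 573484) (nat_lit 13) (.e (nat_lit 65617) (nat_lit 10) (.e (nat_lit 344130) (nat_lit 26) (.e (nat_lit 557090) (nat_lit 12) (.e (nat_lit 164015) (nat_lit 43) (.e (nat_lit 679950) (nat_lit 5) .nil)))))))) (.g (nat_lit 4) .nil .nil))))) (.nd (nat_lit 5) (.nd (nat_lit 6) 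
(.lf (nat_lit 68241) (.g (nat_lit 4005) (.e (nat_lit 1638) (nat_lit 114) (.e (nat_lit 385093) (nat_lit 49) (.e (nat_lit 778320) (nat_lit 4) (.e (nat_lit 65630) (nat_lit 14) (.e (nat_lit 401454) (nat_lit 12) (.e (nat_lit 475142) (nat_lit 8) .nil)))))) (.g (nat_lit 0) .nil .nil))) 
(.lf (nat_lit 68305) (.g (nat_lit 1348) (.e (nat_lit 1641) (nat_lit 114) (.e (nat_lit 385066) (nat_lit 26) (.e (nat_lit 532533) (nat_lit 9) (.e (nat_lit 336211) (nat_lit 13) (.e (nat_lit 393252) (nat_lit 18) .nil))))) .nil))) (.nd (nat_lit 6) 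
(.lf (nat_lit 68273) (.g (nat_lit 2284) (.e (nat_lit 1639) (nat_lit 114) (.e (nat_lit 385074) (nat_lit 31) (.e (nat_lit 573482) (nat_lit 13) (.e (nat_lit 65604) (nat_lit 9) .nil)))) .nil)) 
(.lf (nat_lit 68337) (.g (nat_lit 3174) (.e (nat_lit 1641) (nat_lit 114) (.e (nat_lit 385074) (nat_lit 31) (.e (nat_lit 573493) (nat_lit 15) (.e (nat_lit 81956) (nat_lit 23) (.e (nat_lit 98321) (nat_lit 17) (.e (nat_lit 7936) (nat_lit 402) .nil)))))) (.g (nat_lit 5) .nil .nil)))))) (.nd (nat_lit 4) (.nd (nat_lit 5) (.nd (nat_lit 6) 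
(.lf (nat_lit 68233) (.g (nat_lit 5494) (.e (nat_lit 1638) (nat_lit 114) (.e (nat_lit 385093) (nat_lit 49) (.e (nat_lit 778317) (nat_lit 3) (.e (nat_lit 57480) (nat_lit 28) (.e (nat_lit 557109) (nat_lit 15) (.e (nat_lit 188449) (nat_lit 22) (.e (nat_lit 196646) (nat_lit 9) .nil))))))) (.g (nat_lit 6) .nil .nil))) 
(.lf (nat_lit 68297) (.g (nat_lit 3159) (.e (nat_lit 1640) (nat_lit 114) (.e (nat_lit 385092) (nat_lit 49) (.e (nat_lit 778317) (nat_lit 3) (.e (nat_lit 57476) (nat_lit 28) (.e (nat_lit 557108) (nat_lit 15) (.e (nat_lit 188458) (nat_lit 25) (.e (nat_lit 245784) (nat_lit 9) .nil))))))) (.g (nat_lit 7) .nil .nil)))) (.nd (nat_lit 6) 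
(.lf (nat_lit 68265) (.g (nat_lit 1714) (.e (nat_lit 1638) (nat_lit 114) (.e (nat_lit 385105) (nat_lit 50) (.e (nat_lit 786480) (nat_lit 29) (.e (nat_lit 352256) (nat_lit 0) .nil)))) .nil)) 
(.lf (nat_lit 68329) (.g (nat_lit 1897) (.e (nat_lit 1641) (nat_lit 114) (.e (nat_lit 385074) (nat_lit 31) (.e (nat_lit 573491) (nat_lit 15) (.e (nat_lit 81954) (nat_lit 23) (.e (nat_lit 98323) (nat_lit 17) (.e (nat_lit 7936) (nat_lit 402) .nil)))))) (.g (nat_lit 4) .nil .nil))))) (.nd (nat_lit 5) (.nd (nat_lit 6) 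
(.lf (nat_lit 68249) (.g (nat_lit 1381) (.e (nat_lit 1638) (nat_lit 114) (.e (nat_lit 385104) (nat_lit 50) (.e (nat_lit 786447) (nat_lit 15) (.e (nat_lit 2160) (nat_lit 143) (.e (nat_lit 712755) (nat_lit 30) (.e (nat_lit 450597) (nat_lit 17) (.e (nat_lit 663561) (nat_lit 0) .nil))))))) (.g (nat_lit 4) .nil .nil))) 
(.lf (nat_lit 68313) (.g (nat_lit 1909) (.e (nat_lit 1641) (nat_lit 114) (.e (nat_lit 385074) (nat_lit 31) (.e (nat_lit 573479) (nat_lit 13) (.e (nat_lit 65619) (nat_lit 10) .nil)))) .nil))) (.nd (nat_lit 6) 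
(.lf (nat_lit 68281) (.g (nat_lit 1613) (.e (nat_lit 1640) (nat_lit 114) (.e (nat_lit 385066) (nat_lit 26) (.e (nat_lit 532534) (nat_lit 9) (.e (nat_lit 336211) (nat_lit 13) .nil)))) .nil)) 
(.lf (nat_lit 68345) (.g (nat_lit 2192) (.e (nat_lit 1642) (nat_lit 114) (.e (nat_lit 385066) (nat_lit 26) (.e (nat_lit 532534) (nat_lit 9) (.e (nat_lit 336019) (nat_lit 3) .nil)))) .nil)))))) (.nd (nat_lit 3) (.nd (nat_lit 4) (.nd (nat_lit 5) (.nd (nat_lit 6) 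
(.lf (nat_lit 68229) (.g (nat_lit 3283) (.e (nat_lit 1638) (nat_lit 114) (.e (nat_lit 385093) (nat_lit 49) (.e (nat_lit 778317) (nat_lit 3) (.e (nat_lit 57477) (nat_lit 28) (.e (nat_lit 557108) (nat_lit 15) (.e (nat_lit 188449) (nat_lit 22) (.e (nat_lit 204544) (nat_lit 9) .nil))))))) (.g (nat_lit 6) .nil .nil))) 
(.lf (nat_lit 68293) (.g (nat_lit 2070) (.e (nat_lit 1640) (nat_lit 114) (.e (nat_lit 385073) (nat_lit 31) (.e (nat_lit 573493) (nat_lit 15) (.e (nat_lit 81962) (nat_lit 25) (.e (nat_lit 139289) (nat_lit 9) .nil))))) .nil))) (.nd (nat_lit 6) 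
(.lf (nat_lit 68261) (.g (nat_lit 4261) (.e (nat_lit 1638) (nat_lit 114) (.e (nat_lit 385105) (nat_lit 50) (.e (nat_lit 786473) (nat_lit 27) (.e (nat_lit 336235) (nat_lit 14) (.e (nat_lit 401454) (nat_lit 12) (.e (nat_lit 475142) (nat_lit 8) .nil)))))) (.g (nat_lit 6) .nil .nil))) 
(.lf (nat_lit 68325) (.g (nat_lit 2463) (.e (nat_lit 1641) (nat_lit 114) (.e (nat_lit 385074) (nat_lit 31) (.e (nat_lit 573485) (nat_lit 13) (.e (nat_lit 65619) (nat_lit 10) (.e (nat_lit 344117) (nat_lit 21) (.e (nat_lit 516106) (nat_lit 0) (.e (nat_lit 7936) (nat_lit 402) .nil))))))) (.g (nat_lit 4) .nil .nil))))) (.nd (nat_lit 5) (.nd (nat_lit 6) 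
(.lf (nat_lit 68245) (.g (nat_lit 973) (.e (nat_lit 1638) (nat_lit 114) (.e (nat_lit 385093) (nat_lit 49) (.e (nat_lit 778323) (nat_lit 5) (.e (nat_lit 81664) (nat_lit 36) .nil)))) .nil)) 
(.lf (nat_lit 68309) (.g (nat_lit 1944) (.e (nat_lit 1641) (nat_lit 114) (.e (nat_lit 385066) (nat_lit 26) (.e (nat_lit 532560) (nat_lit 14) (.e (nat_lit 376842) (nat_lit 11) (.e (nat_lit 426100) (nat_lit 1) (.e (nat_lit 164161) (nat_lit 152) (.e (nat_lit 1032) (nat_lit 81) .nil))))))) (.g (nat_lit 4) .nil .nil)))) (.nd (nat_lit 6) 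
(.lf (nat_lit 68277) (.g (nat_lit 2877) (.e (nat_lit 1639) (nat_lit 114) (.e (nat_lit 385091) (nat_lit 49) (.e (nat_lit 778318) (nat_lit 3) (.e (nat_lit 57476) (nat_lit 28) (.e (nat_lit 557108) (nat_lit 15) (.e (nat_lit 188458) (nat_lit 25) (.e (nat_lit 245784) (nat_lit 9) .nil))))))) (.g (nat_lit 5) .nil .nil))) 
(.lf (nat_lit 68341) (.g (nat_lit 2416) (.e (nat_lit 1641) (nat_lit 114) (.e (nat_lit 385094) (nat_lit 49) (.e (nat_lit 778317) (nat_lit 3) (.e (nat_lit 57476) (nat_lit 28) (.e (nat_lit 557107) (nat_lit 15) .nil))))) .nil))))) (.nd (nat_lit 4) (.nd (nat_lit 5) (.nd (nat_lit 6) 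
(.lf (nat_lit 68237) (.g (nat_lit 3071) (.e (nat_lit 1638) (nat_lit 114) (.e (nat_lit 385093) (nat_lit 49) (.e (nat_lit 778318) (nat_lit 3) (.e (nat_lit 57476) (nat_lit 28) (.e (nat_lit 557107) (nat_lit 15) (.e (nat_lit 188456) (nat_lit 25) (.e (nat_lit 245786) (nat_lit 9) .nil))))))) (.g (nat_lit 5) .nil .nil))) 
(.lf (nat_lit 68301) (.g (nat_lit 4023) (.e (nat_lit 1640) (nat_lit 114) (.e (nat_lit 385093) (nat_lit 49) (.e (nat_lit 778317) (nat_lit 3) (.e (nat_lit 57480) (nat_lit 28) (.e (nat_lit 557109) (nat_lit 15) (.e (nat_lit 188458) (nat_lit 25) (.e (nat_lit 245784) (nat_lit 9) .nil))))))) (.g (nat_lit 6) .nil .nil)))) (.nd (nat_lit 6) 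
(.lf (nat_lit 68269) (.g (nat_lit 610) (.e (nat_lit 1638) (nat_lit 114) (.e (nat_lit 385105) (nat_lit 50) (.e (nat_lit 786488) (nat_lit 34) .nil))) .nil)) 
(.lf (nat_lit 68333) (.g (nat_lit 3263) (.e (nat_lit 1641) (nat_lit 114) (.e (nat_lit 385074) (nat_lit 31) (.e (nat_lit 573493) (nat_lit 15) (.e (nat_lit 81954) (nat_lit 23) (.e (nat_lit 98323) (nat_lit 17) .nil))))) .nil)))) (.nd (nat_lit 5) (.nd (nat_lit 6) 
(.lf (nat_lit 68253) (.g (nat_lit 343) (.e (nat_lit 1638) (nat_lit 114) (.e (nat_lit 385104) (nat_lit 50) (.e (nat_lit 786488) (nat_lit 34) .nil))) .nil)) 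
(.lf (nat_lit 68317) (.g (nat_lit 3716) (.e (nat_lit 1641) (nat_lit 114) (.e (nat_lit 385074) (nat_lit 31) (.e (nat_lit 573484) (nat_lit 13) (.e (nat_lit 65610) (nat_lit 10) (.e (nat_lit 344117) (nat_lit 21) (.e (nat_lit 516099) (nat_lit 0) (.e (nat_lit 7936) (nat_lit 402) .nil))))))) (.g (nat_lit 6) .nil .nil)))) (.nd (nat_lit 6) 
(.lf (nat_lit 68285) (.g (nat_lit 2284) (.e (nat_lit 1640) (nat_lit 114) (.e (nat_lit 385067) (nat_lit 26) (.e (nat_lit 532501) (nat_lit 1) (.e (nat_lit 57851) (nat_lit 252) (.e (nat_lit 57354) (nat_lit 0) (.e (nat_lit 1799) (nat_lit 119) (.e (nat_lit 516131) (nat_lit 3) (.e (nat_lit 221212) (nat_lit 22) (.e (nat_lit 196632) (nat_lit 9) .nil))))))))) (.g (nat_lit 6) .nil .nil))) 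
(.lf (nat_lit 68349) (.g (nat_lit 1881) (.e (nat_lit 1642) (nat_lit 114) (.e (nat_lit 385066) (nat_lit 26) (.e (nat_lit 532534) (nat_lit 9) (.e (nat_lit 336324) (nat_lit 18) .nil)))) .nil))))))) (.nd (nat_lit 2) (.nd (nat_lit 3) (.nd (nat_lit 4) (.nd (nat_lit 5) (.nd (nat_lit 6) 
(.lf (nat_lit 68227) (.g (nat_lit 5421) (.e (nat_lit 1638) (nat_lit 114) (.e (nat_lit 385093) (nat_lit 49) (.e (nat_lit 778317) (nat_lit 3) (.e (nat_lit 57477) (nat_lit 28) (.e (nat_lit 557108) (nat_lit 15) (.e (nat_lit 188449) (nat_lit 22) (.e (nat_lit 196645) (nat_lit 9) .nil))))))) (.g (nat_lit 6) .nil .nil))) 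
(.lf (nat_lit 68291) (.g (nat_lit 3557) (.e (nat_lit 1640) (nat_lit 114) (.e (nat_lit 385073) (nat_lit 31) (.e (nat_lit 573493) (nat_lit 15) (.e (nat_lit 81956) (nat_lit 23) (.e (nat_lit 98321) (nat_lit 17) .nil))))) .nil))) (.nd (nat_lit 6) 
(.lf (nat_lit 68259) (.g (nat_lit 1812) (.e (nat_lit 1638) (nat_lit 114) (.e (nat_lit 385105) (nat_lit 50) (.e (nat_lit 786473) (nat_lit 27) (.e (nat_lit 335872) (nat_lit 0) .nil)))) .nil)) 
(.lf (nat_lit 68323) (.g (nat_lit 2583) (.e (nat_lit 1641) (nat_lit 114) (.e (nat_lit 385074) (nat_lit 31) (.e (nat_lit 573485) (nat_lit 13) (.e (nat_lit 65619) (nat_lit 10) (.e (nat_lit 344117) (nat_lit 21) (.e (nat_lit 516097) (nat_lit 0) (.e (nat_lit 7540) (nat_lit 402) .nil))))))) (.g (nat_lit 4) .nil .nil))))) (.nd (nat_lit 5) (.nd (nat_lit 6) 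
(.lf (nat_lit 68243) (.g (nat_lit 2045) (.e (nat_lit 1638) (nat_lit 114) (.e (nat_lit 385093) (nat_lit 49) (.e (nat_lit 778323) (nat_lit 5) (.e (nat_lit 73781) (nat_lit 32) (.e (nat_lit 3067) (nat_lit 190) (.e (nat_lit 475142) (nat_lit 8) .nil)))))) (.g (nat_lit 4) .nil .nil))) 
(.lf (nat_lit 68307) (.g (nat_lit 2140) (.e (nat_lit 1641) (nat_lit 114) (.e (nat_lit 385066) (nat_lit 26) (.e (nat_lit 532534) (nat_lit 9) (.e (nat_lit 336211) (nat_lit 13) (.e (nat_lit 393252) (nat_lit 18) .nil))))) .nil))) (.nd (nat_lit 6) 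
(.lf (nat_lit 68275) (.g (nat_lit 2278) (.e (nat_lit 1639) (nat_lit 114) (.e (nat_lit 385074) (nat_lit 31) (.e (nat_lit 573485) (nat_lit 13) (.e (nat_lit 65619) (nat_lit 10) (.e (nat_lit 344117) (nat_lit 21) (.e (nat_lit 516097) (nat_lit 0) (.e (nat_lit 7500) (nat_lit 402) .nil))))))) (.g (nat_lit 4) .nil .nil))) 
(.lf (nat_lit 68339) (.g (nat_lit 2822) (.e (nat_lit 1641) (nat_lit 114) (.e (nat_lit 385074) (nat_lit 31) (.e (nat_lit 573493) (nat_lit 15) (.e (nat_lit 81956) (nat_lit 23) (.e (nat_lit 98325) (nat_lit 17) (.e (nat_lit 7936) (nat_lit 402) .nil)))))) (.g (nat_lit 4) .nil .nil)))))) (.nd (nat_lit 4) (.nd (nat_lit 5) (.nd (nat_lit 6) 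
(.lf (nat_lit 68235) (.g (nat_lit 3889) (.e (nat_lit 1638) (nat_lit 114) (.e (nat_lit 385093) (nat_lit 49) (.e (nat_lit 778317) (nat_lit 3) (.e (nat_lit 57480) (nat_lit 28) (.e (nat_lit 557109) (nat_lit 15) (.e (nat_lit 188457) (nat_lit 25) (.e (nat_lit 245786) (nat_lit 9) .nil))))))) (.g (nat_lit 5) .nil .nil))) 
(.lf (nat_lit 68299) (.g (nat_lit 3791) (.e (nat_lit 1640) (nat_lit 114) (.e (nat_lit 385092) (nat_lit 49) (.e (nat_lit 778317) (nat_lit 3) (.e (nat_lit 57480) (nat_lit 28) (.e (nat_lit 557109) (nat_lit 15) (.e (nat_lit 188458) (nat_lit 25) (.e (nat_lit 245784) (nat_lit 9) .nil))))))) (.g (nat_lit 7) .nil .nil)))) (.nd (nat_lit 6) 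
(.lf (nat_lit 68267) (.g (nat_lit 1736) (.e (nat_lit 1638) (nat_lit 114) (.e (nat_lit 385105) (nat_lit 50) (.e (nat_lit 786483) (nat_lit 30) (.e (nat_lit 360484) (nat_lit 15) (.e (nat_lit 647180) (nat_lit 3) (.e (nat_lit 164239) (nat_lit 187) .nil)))))) (.g (nat_lit 4) .nil .nil))) 
(.lf (nat_lit 68331) (.g (nat_lit 3419) (.e (nat_lit 1641) (nat_lit 114) (.e (nat_lit 385074) (nat_lit 31) (.e (nat_lit 573491) (nat_lit 15) (.e (nat_lit 81956) (nat_lit 23) (.e (nat_lit 98320) (nat_lit 17) .nil))))) .nil)))) (.nd (nat_lit 5) (.nd (nat_lit 6) 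
(.lf (nat_lit 68251) (.g (nat_lit 1331) (.e (nat_lit 1638) (nat_lit 114) (.e (nat_lit 385104) (nat_lit 50) (.e (nat_lit 786483) (nat_lit 30) (.e (nat_lit 360484) (nat_lit 15) .nil)))) .nil)) 
(.lf (nat_lit 68315) (.g (nat_lit 1676) (.e (nat_lit 1641) (nat_lit 114) (.e (nat_lit 385074) (nat_lit 31) (.e (nat_lit 573482) (nat_lit 13) (.e (nat_lit 65619) (nat_lit 10) .nil)))) .nil))) (.nd (nat_lit 6) 
(.lf (nat_lit 68283) (.g (nat_lit 1807) (.e (nat_lit 1640) (nat_lit 114) (.e (nat_lit 385066) (nat_lit 26) (.e (nat_lit 532558) (nat_lit 14) (.e (nat_lit 376842) (nat_lit 11) (.e (nat_lit 426100) (nat_lit 1) .nil))))) .nil)) 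
(.lf (nat_lit 68347) (.g (nat_lit 1600) (.e (nat_lit 1642) (nat_lit 114) (.e (nat_lit 385066) (nat_lit 26) (.e (nat_lit 532534) (nat_lit 9) (.e (nat_lit 336211) (nat_lit 13) .nil)))) .nil)))))) (.nd (nat_lit 3) (.nd (nat_lit 4) (.nd (nat_lit 5) (.nd (nat_lit 6) 
(.lf (nat_lit 68231) (.g (nat_lit 2991) (.e (nat_lit 1638) (nat_lit 114) (.e (nat_lit 385093) (nat_lit 49) (.e (nat_lit 778317) (nat_lit 3) (.e (nat_lit 57480) (nat_lit 28) (.e (nat_lit 557107) (nat_lit 15) (.e (nat_lit 188456) (nat_lit 25) (.e (nat_lit 245786) (nat_lit 9) .nil))))))) (.g (nat_lit 6) .nil .nil))) 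
(.lf (nat_lit 68295) (.g (nat_lit 3598) (.e (nat_lit 1640) (nat_lit 114) (.e (nat_lit 385074) (nat_lit 31) (.e (nat_lit 573485) (nat_lit 13) (.e (nat_lit 65604) (nat_lit 9) (.e (nat_lit 336013) (nat_lit 2) (.e (nat_lit 90165) (nat_lit 12) (.e (nat_lit 171776) (nat_lit 187) .nil))))))) (.g (nat_lit 5) .nil .nil)))) (.nd (nat_lit 6) 
(.lf (nat_lit 68263) (.g (nat_lit 1743) (.e (nat_lit 1638) (nat_lit 114) (.e (nat_lit 385105) (nat_lit 50) (.e (nat_lit 786473) (nat_lit 27) (.e (nat_lit 336449) (nat_lit 33) .nil)))) .nil)) 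
(.lf (nat_lit 68327) (.g (nat_lit 1639) (.e (nat_lit 1641) (nat_lit 114) (.e (nat_lit 385074) (nat_lit 31) (.e (nat_lit 573491) (nat_lit 15) (.e (nat_lit 81954) (nat_lit 23) (.e (nat_lit 98320) (nat_lit 17) .nil))))) .nil)))) (.nd (nat_lit 5) (.nd (nat_lit 6) 
(.lf (nat_lit 68247) (.g (nat_lit 1170) (.e (nat_lit 1638) (nat_lit 114) (.e (nat_lit 385102) (nat_lit 50) (.e (nat_lit 786483) (nat_lit 30) (.e (nat_lit 360484) (nat_lit 15) (.e (nat_lit 647171) (nat_lit 0) .nil))))) .nil)) 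
(.lf (nat_lit 68311) (.g (nat_lit 1215) (.e (nat_lit 1641) (nat_lit 114) (.e (nat_lit 385068) (nat_lit 26) (.e (nat_lit 532545) (nat_lit 10) .nil))) .nil))) (.nd (nat_lit 6) 
(.lf (nat_lit 68279) (.g (nat_lit 1903) (.e (nat_lit 1639) (nat_lit 114) (.e (nat_lit 385093) (nat_lit 49) (.e (nat_lit 778317) (nat_lit 3) (.e (nat_lit 57477) (nat_lit 28) (.e (nat_lit 557108) (nat_lit 15) .nil))))) .nil)) 
(.lf (nat_lit 68343) (.g (nat_lit 1444) (.e (nat_lit 1641) (nat_lit 114) (.e (nat_lit 385094) (nat_lit 49) (.e (nat_lit 778317) (nat_lit 3) (.e (nat_lit 57480) (nat_lit 28) .nil)))) .nil))))) (.nd (nat_lit 4) (.nd (nat_lit 5) (.nd (nat_lit 6) 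
(.lf (nat_lit 68239) (.g (nat_lit 1992) (.e (nat_lit 1638) (nat_lit 114) (.e (nat_lit 385093) (nat_lit 49) (.e (nat_lit 778318) (nat_lit 3) (.e (nat_lit 57476) (nat_lit 28) (.e (nat_lit 557109) (nat_lit 15) .nil))))) .nil)) 
(.lf (nat_lit 68303) (.g (nat_lit 1069) (.e (nat_lit 1640) (nat_lit 114) (.e (nat_lit 385109) (nat_lit 51) (.e (nat_lit 794682) (nat_lit 25) .nil))) .nil))) (.nd (nat_lit 6) 
(.lf (nat_lit 68271) (.g (nat_lit 1791) (.e (nat_lit 1638) (nat_lit 114) (.e (nat_lit 385105) (nat_lit 50) (.e (nat_lit 786489) (nat_lit 34) (.e (nat_lit 401152) (nat_lit 3) (.e (nat_lit 114715) (nat_lit 22) (.e (nat_lit 90120) (nat_lit 0) .nil)))))) (.g (nat_lit 5) .nil .nil))) 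
(.lf (nat_lit 68335) (.g (nat_lit 2929) (.e (nat_lit 1641) (nat_lit 114) (.e (nat_lit 385074) (nat_lit 31) (.e (nat_lit 573493) (nat_lit 15) (.e (nat_lit 81956) (nat_lit 23) (.e (nat_lit 98320) (nat_lit 17) .nil))))) .nil)))) (.nd (nat_lit 5) (.nd (nat_lit 6) 
(.lf (nat_lit 68255) (.g (nat_lit 2770) (.e (nat_lit 1638) (nat_lit 114) (.e (nat_lit 385105) (nat_lit 50) (.e (nat_lit 786450) (nat_lit 15) (.e (nat_lit 1853) (nat_lit 124) (.e (nat_lit 557108) (nat_lit 15) (.e (nat_lit 188449) (nat_lit 22) (.e (nat_lit 204544) (nat_lit 9) .nil))))))) (.g (nat_lit 4) .nil .nil))) 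
(.lf (nat_lit 68319) (.g (nat_lit 3241) (.e (nat_lit 1641) (nat_lit 114) (.e (nat_lit 385074) (nat_lit 31) (.e (nat_lit 573484) (nat_lit 13) (.e (nat_lit 65617) (nat_lit 10) (.e (nat_lit 344130) (nat_lit 26) .nil))))) .nil))) (.nd (nat_lit 6) 
(.lf (nat_lit 68287) (.g (nat_lit 2313) (.e (nat_lit 1640) (nat_lit 114) (.e (nat_lit 385068) (nat_lit 26) (.e (nat_lit 532501) (nat_lit 1) (.e (nat_lit 57830) (nat_lit 250) .nil)))) .nil)) 
(.lf (nat_lit 68351) (.g (nat_lit 1848) (.e (nat_lit 1642) (nat_lit 114) (.e (nat_lit 385066) (nat_lit 26) (.e (nat_lit 532558) (nat_lit 14) (.e (nat_lit 376842) (nat_lit 11) (.e (nat_lit 426107) (nat_lit 1) (.e (nat_lit 164150) (nat_lit 152) (.e (nat_lit 974) (nat_lit 81) .nil))))))) (.g (nat_lit 4) .nil .nil))))))))))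

noncomputable def tv941 : DT := (.nd (nat_lit 0) (.nd (nat_lit 1) (.nd (nat_lit 2) (.nd (nat_lit 3) (.nd (nat_lit 4) (.nd (nat_lit 5) 
(.lf (nat_lit 68352) (.g (nat_lit 1915) (.e (nat_lit 1642) (nat_lit 114) (.e (nat_lit 385066) (nat_lit 26) (.e (nat_lit 532560) (nat_lit 14) (.e (nat_lit 376842) (nat_lit 11) (.e (nat_lit 426107) (nat_lit 1) (.e (nat_lit 164150) (nat_lit 152) (.e (nat_lit 974) (nat_lit 81) .nil))))))) (.g (nat_lit 4) .nil .nil))) 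
(.lf (nat_lit 68384) (.g (nat_lit 1639) (.e (nat_lit 1642) (nat_lit 114) (.e (nat_lit 385068) (nat_lit 26) (.e (nat_lit 532558) (nat_lit 14) (.e (nat_lit 376842) (nat_lit 11) .nil)))) .nil))) (.nd (nat_lit 5) 
(.lf (nat_lit 68368) (.g (nat_lit 745) (.e (nat_lit 1642) (nat_lit 114) (.e (nat_lit 385068) (nat_lit 26) (.e (nat_lit 532534) (nat_lit 9) .nil))) .nil)) 
(.lf (nat_lit 68400) (.g (nat_lit 3406) (.e (nat_lit 1642) (nat_lit 114) (.e (nat_lit 385074) (nat_lit 31) (.e (nat_lit 573482) (nat_lit 13) (.e (nat_lit 65604) (nat_lit 9) (.e (nat_lit 336028) (nat_lit 3) (.e (nat_lit 98325) (nat_lit 17) (.e (nat_lit 7936) (nat_lit 402) .nil))))))) (.g (nat_lit 4) .nil .nil))))) (.nd (nat_lit 4) (.nd (nat_lit 5) 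
(.lf (nat_lit 68360) (.g (nat_lit 1958) (.e (nat_lit 1642) (nat_lit 114) (.e (nat_lit 385068) (nat_lit 26) (.e (nat_lit 532530) (nat_lit 9) (.e (nat_lit 336324) (nat_lit 18) .nil)))) .nil)) 
(.lf (nat_lit 68392) (.g (nat_lit 4220) (.e (nat_lit 1642) (nat_lit 114) (.e (nat_lit 385073) (nat_lit 31) (.e (nat_lit 573493) (nat_lit 15) (.e (nat_lit 81956) (nat_lit 23) (.e (nat_lit 98320) (nat_lit 17) .nil))))) .nil))) (.nd (nat_lit 5) 
(.lf (nat_lit 68376) (.g (nat_lit 1268) (.e (nat_lit 1642) (nat_lit 114) (.e (nat_lit 385068) (nat_lit 26) (.e (nat_lit 532544) (nat_lit 10) .nil))) .nil)) 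
(.lf (nat_lit 68408) (.g (nat_lit 2808) (.e (nat_lit 1642) (nat_lit 114) (.e (nat_lit 385074) (nat_lit 31) (.e (nat_lit 573484) (nat_lit 13) (.e (nat_lit 65610) (nat_lit 10) (.e (nat_lit 344115) (nat_lit 20) (.e (nat_lit 507908) (nat_lit 0) (.e (nat_lit 5258) (nat_lit 298) .nil))))))) (.g (nat_lit 6) .nil .nil)))))) (.nd (nat_lit 3) (.nd (nat_lit 4) (.nd (nat_lit 5) 
(.lf (nat_lit 68356) (.g (nat_lit 2465) (.e (nat_lit 1642) (nat_lit 114) (.e (nat_lit 385068) (nat_lit 26) (.e (nat_lit 532530) (nat_lit 9) (.e (nat_lit 336019) (nat_lit 3) .nil)))) .nil)) 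
(.lf (nat_lit 68388) (.g (nat_lit 897) (.e (nat_lit 1642) (nat_lit 114) (.e (nat_lit 385068) (nat_lit 26) (.e (nat_lit 532563) (nat_lit 15) .nil))) .nil))) (.nd (nat_lit 5) 
(.lf (nat_lit 68372) (.g (nat_lit 2716) (.e (nat_lit 1642) (nat_lit 114) (.e (nat_lit 385068) (nat_lit 26) (.e (nat_lit 532534) (nat_lit 9) (.e (nat_lit 336324) (nat_lit 18) (.e (nat_lit 204852) (nat_lit 26) (.e (nat_lit 336316) (nat_lit 17) (.e (nat_lit 196626) (nat_lit 9) .nil))))))) (.g (nat_lit 5) .nil .nil))) 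
(.lf (nat_lit 68404) (.g (nat_lit 2830) (.e (nat_lit 1642) (nat_lit 114) (.e (nat_lit 385074) (nat_lit 31) (.e (nat_lit 573484) (nat_lit 13) (.e (nat_lit 65610) (nat_lit 10) (.e (nat_lit 344115) (nat_lit 20) (.e (nat_lit 507907) (nat_lit 0) (.e (nat_lit 5245) (nat_lit 298) .nil))))))) (.g (nat_lit 6) .nil .nil))))) (.nd (nat_lit 4) (.nd (nat_lit 5) 
(.lf (nat_lit 68364) (.g (nat_lit 2309) (.e (nat_lit 1642) (nat_lit 114) (.e (nat_lit 385068) (nat_lit 26) (.e (nat_lit 532530) (nat_lit 9) (.e (nat_lit 336326) (nat_lit 18) .nil)))) .nil)) 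
(.lf (nat_lit 68396) (.g (nat_lit 1761) (.e (nat_lit 1642) (nat_lit 114) (.e (nat_lit 385074) (nat_lit 31) (.e (nat_lit 573477) (nat_lit 12) (.e (nat_lit 65280) (nat_lit 206) .nil)))) .nil))) (.nd (nat_lit 5) 
(.lf (nat_lit 68380) (.g (nat_lit 895) (.e (nat_lit 1642) (nat_lit 114) (.e (nat_lit 385068) (nat_lit 26) (.e (nat_lit 540416) (nat_lit 10) .nil))) .nil)) 
(.lf (nat_lit 68412) (.g (nat_lit 4133) (.e (nat_lit 1642) (nat_lit 114) (.e (nat_lit 385074) (nat_lit 31) (.e (nat_lit 573484) (nat_lit 13) (.e (nat_lit 65610) (nat_lit 10) (.e (nat_lit 344117) (nat_lit 21) (.e (nat_lit 516106) (nat_lit 0) (.e (nat_lit 7936) (nat_lit 402) .nil))))))) (.g (nat_lit 6) .nil .nil))))))) (.nd (nat_lit 2) (.nd (nat_lit 3) (.nd (nat_lit 4) (.nd (nat_lit 5) 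
(.lf (nat_lit 68354) (.g (nat_lit 743) (.e (nat_lit 1642) (nat_lit 114) (.e (nat_lit 385068) (nat_lit 26) (.e (nat_lit 532503) (nat_lit 1) .nil))) .nil)) 
(.lf (nat_lit 68386) (.g (nat_lit 2568) (.e (nat_lit 1642) (nat_lit 114) (.e (nat_lit 385068) (nat_lit 26) (.e (nat_lit 532560) (nat_lit 14) (.e (nat_lit 376842) (nat_lit 11) (.e (nat_lit 426098) (nat_lit 1) (.e (nat_lit 164153) (nat_lit 152) (.e (nat_lit 999) (nat_lit 81) .nil))))))) (.g (nat_lit 4) .nil .nil)))) (.nd (nat_lit 5) 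
(.lf (nat_lit 68370) (.g (nat_lit 1817) (.e (nat_lit 1642) (nat_lit 114) (.e (nat_lit 385068) (nat_lit 26) (.e (nat_lit 532534) (nat_lit 9) (.e (nat_lit 336211) (nat_lit 13) .nil)))) .nil)) 
(.lf (nat_lit 68402) (.g (nat_lit 2628) (.e (nat_lit 1642) (nat_lit 114) (.e (nat_lit 385074) (nat_lit 31) (.e (nat_lit 573484) (nat_lit 13) (.e (nat_lit 65610) (nat_lit 10) (.e (nat_lit 344115) (nat_lit 20) (.e (nat_lit 507906) (nat_lit 0) (.e (nat_lit 5245) (nat_lit 298) .nil))))))) (.g (nat_lit 5) .nil .nil))))) (.nd (nat_lit 4) (.nd (nat_lit 5) 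
(.lf (nat_lit 68362) (.g (nat_lit 3292) (.e (nat_lit 1642) (nat_lit 114) (.e (nat_lit 385068) (nat_lit 26) (.e (nat_lit 532530) (nat_lit 9) (.e (nat_lit 336324) (nat_lit 18) (.e (nat_lit 204854) (nat_lit 26) (.e (nat_lit 336316) (nat_lit 17) (.e (nat_lit 196626) (nat_lit 9) .nil))))))) (.g (nat_lit 5) .nil .nil))) 
(.lf (nat_lit 68394) (.g (nat_lit 2115) (.e (nat_lit 1642) (nat_lit 114) (.e (nat_lit 385073) (nat_lit 31) (.e (nat_lit 573493) (nat_lit 15) (.e (nat_lit 81962) (nat_lit 25) (.e (nat_lit 139289) (nat_lit 9) .nil))))) .nil))) (.nd (nat_lit 5) 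
(.lf (nat_lit 68378) (.g (nat_lit 2595) (.e (nat_lit 1642) (nat_lit 114) (.e (nat_lit 385068) (nat_lit 26) (.e (nat_lit 532545) (nat_lit 10) (.e (nat_lit 344133) (nat_lit 26) (.e (nat_lit 557098) (nat_lit 13) (.e (nat_lit 172140) (nat_lit 22) (.e (nat_lit 139266) (nat_lit 0) .nil))))))) (.g (nat_lit 4) .nil .nil))) 
(.lf (nat_lit 68410) (.g (nat_lit 3924) (.e (nat_lit 1642) (nat_lit 114) (.e (nat_lit 385074) (nat_lit 31) (.e (nat_lit 573484) (nat_lit 13) (.e (nat_lit 65610) (nat_lit 10) (.e (nat_lit 344117) (nat_lit 21) (.e (nat_lit 516098) (nat_lit 0) (.e (nat_lit 7486) (nat_lit 402) .nil))))))) (.g (nat_lit 0) .nil .nil)))))) (.nd (nat_lit 3) (.nd (nat_lit 4) (.nd (nat_lit 5) 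
(.lf (nat_lit 68358) (.g (nat_lit 2429) (.e (nat_lit 1642) (nat_lit 114) (.e (nat_lit 385068) (nat_lit 26) (.e (nat_lit 532530) (nat_lit 9) (.e (nat_lit 336316) (nat_lit 17) .nil)))) .nil)) 
(.lf (nat_lit 68390) (.g (nat_lit 1764) (.e (nat_lit 1642) (nat_lit 114) (.e (nat_lit 385068) (nat_lit 26) (.e (nat_lit 532566) (nat_lit 15) (.e (nat_lit 385066) (nat_lit 26) (.e (nat_lit 532530) (nat_lit 9) (.e (nat_lit 336316) (nat_lit 17) (.e (nat_lit 196626) (nat_lit 9) .nil))))))) (.g (nat_lit 4) .nil .nil)))) (.nd (nat_lit 5) 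
(.lf (nat_lit 68374) (.g (nat_lit 2477) (.e (nat_lit 1642) (nat_lit 114) (.e (nat_lit 385068) (nat_lit 26) (.e (nat_lit 532534) (nat_lit 9) (.e (nat_lit 336326) (nat_lit 18) (.e (nat_lit 204854) (nat_lit 26) .nil))))) .nil)) 
(.lf (nat_lit 68406) (.g (nat_lit 3045) (.e (nat_lit 1642) (nat_lit 114) (.e (nat_lit 385074) (nat_lit 31) (.e (nat_lit 573484) (nat_lit 13) (.e (nat_lit 65610) (nat_lit 10) (.e (nat_lit 344115) (nat_lit 20) (.e (nat_lit 507908) (nat_lit 0) (.e (nat_lit 5245) (nat_lit 298) .nil))))))) (.g (nat_lit 7) .nil .nil))))) (.nd (nat_lit 4) (.nd (nat_lit 5) 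
(.lf (nat_lit 68366) (.g (nat_lit 3758) (.e (nat_lit 1642) (nat_lit 114) (.e (nat_lit 385068) (nat_lit 26) (.e (nat_lit 532530) (nat_lit 9) (.e (nat_lit 336326) (nat_lit 18) (.e (nat_lit 204854) (nat_lit 26) (.e (nat_lit 336316) (nat_lit 17) (.e (nat_lit 196626) (nat_lit 9) .nil))))))) (.g (nat_lit 5) .nil .nil))) 
(.lf (nat_lit 68398) (.g (nat_lit 581) (.e (nat_lit 1642) (nat_lit 114) (.e (nat_lit 385074) (nat_lit 31) (.e (nat_lit 573482) (nat_lit 13) .nil))) .nil))) (.nd (nat_lit 5) 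
(.lf (nat_lit 68382) (.g (nat_lit 1252) (.e (nat_lit 1642) (nat_lit 114) (.e (nat_lit 385068) (nat_lit 26) (.e (nat_lit 532553) (nat_lit 13) .nil))) .nil)) 
(.lf (nat_lit 68414) (.g (nat_lit 1591) (.e (nat_lit 1642) (nat_lit 114) (.e (nat_lit 385074) (nat_lit 31) (.e (nat_lit 573484) (nat_lit 13) (.e (nat_lit 65617) (nat_lit 10) .nil)))) .nil))))))) (.nd (nat_lit 1) (.nd (nat_lit 2) (.nd (nat_lit 3) (.nd (nat_lit 4) (.nd (nat_lit 5) 
(.lf (nat_lit 68353) (.g (nat_lit 1293) (.e (nat_lit 1642) (nat_lit 114) (.e (nat_lit 385066) (nat_lit 26) (.e (nat_lit 532563) (nat_lit 15) (.e (nat_lit 385066) (nat_lit 26) .nil)))) .nil)) 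
(.lf (nat_lit 68385) (.g (nat_lit 2565) (.e (nat_lit 1642) (nat_lit 114) (.e (nat_lit 385068) (nat_lit 26) (.e (nat_lit 532558) (nat_lit 14) (.e (nat_lit 376842) (nat_lit 11) (.e (nat_lit 426107) (nat_lit 1) (.e (nat_lit 164150) (nat_lit 152) (.e (nat_lit 974) (nat_lit 81) .nil))))))) (.g (nat_lit 4) .nil .nil)))) (.nd (nat_lit 5) 
(.lf (nat_lit 68369) (.g (nat_lit 3547) (.e (nat_lit 1642) (nat_lit 114) (.e (nat_lit 385068) (nat_lit 26) (.e (nat_lit 532534) (nat_lit 9) (.e (nat_lit 336019) (nat_lit 3) (.e (nat_lit 98342) (nat_lit 20) .nil))))) .nil)) 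
(.lf (nat_lit 68401) (.g (nat_lit 2003) (.e (nat_lit 1642) (nat_lit 114) (.e (nat_lit 385074) (nat_lit 31) (.e (nat_lit 573482) (nat_lit 13) (.e (nat_lit 65619) (nat_lit 10) (.e (nat_lit 344117) (nat_lit 21) .nil))))) .nil)))) (.nd (nat_lit 4) (.nd (nat_lit 5) 
(.lf (nat_lit 68361) (.g (nat_lit 3042) (.e (nat_lit 1642) (nat_lit 114) (.e (nat_lit 385068) (nat_lit 26) (.e (nat_lit 532530) (nat_lit 9) (.e (nat_lit 336324) (nat_lit 18) (.e (nat_lit 204852) (nat_lit 26) (.e (nat_lit 336316) (nat_lit 17) (.e (nat_lit 196626) (nat_lit 9) .nil))))))) (.g (nat_lit 4) .nil .nil))) 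
(.lf (nat_lit 68393) (.g (nat_lit 4523) (.e (nat_lit 1642) (nat_lit 114) (.e (nat_lit 385073) (nat_lit 31) (.e (nat_lit 573493) (nat_lit 15) (.e (nat_lit 81956) (nat_lit 23) (.e (nat_lit 98320) (nat_lit 17) (.e (nat_lit 7490) (nat_lit 402) .nil)))))) (.g (nat_lit 4) .nil .nil)))) (.nd (nat_lit 5) 
(.lf (nat_lit 68377) (.g (nat_lit 1215) (.e (nat_lit 1642) (nat_lit 114) (.e (nat_lit 385068) (nat_lit 26) (.e (nat_lit 532545) (nat_lit 10) .nil))) .nil)) 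
(.lf (nat_lit 68409) (.g (nat_lit 3378) (.e (nat_lit 1642) (nat_lit 114) (.e (nat_lit 385074) (nat_lit 31) (.e (nat_lit 573484) (nat_lit 13) (.e (nat_lit 65610) (nat_lit 10) (.e (nat_lit 344117) (nat_lit 21) (.e (nat_lit 516097) (nat_lit 0) (.e (nat_lit 7486) (nat_lit 402) .nil))))))) (.g (nat_lit 5) .nil .nil)))))) (.nd (nat_lit 3) (.nd (nat_lit 4) (.nd (nat_lit 5) 
(.lf (nat_lit 68357) (.g (nat_lit 2100) (.e (nat_lit 1642) (nat_lit 114) (.e (nat_lit 385068) (nat_lit 26) (.e (nat_lit 532530) (nat_lit 9) (.e (nat_lit 336211) (nat_lit 13) .nil)))) .nil)) 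
(.lf (nat_lit 68389) (.g (nat_lit 2747) (.e (nat_lit 1642) (nat_lit 114) (.e (nat_lit 385068) (nat_lit 26) (.e (nat_lit 532563) (nat_lit 15) (.e (nat_lit 385066) (nat_lit 26) (.e (nat_lit 532534) (nat_lit 9) (.e (nat_lit 336316) (nat_lit 17) (.e (nat_lit 196626) (nat_lit 9) .nil))))))) (.g (nat_lit 5) .nil .nil)))) (.nd (nat_lit 5) 
(.lf (nat_lit 68373) (.g (nat_lit 3546) (.e (nat_lit 1642) (nat_lit 114) (.e (nat_lit 385068) (nat_lit 26) (.e (nat_lit 532534) (nat_lit 9) (.e (nat_lit 336324) (nat_lit 18) (.e (nat_lit 204854) (nat_lit 26) (.e (nat_lit 336316) (nat_lit 17) (.e (nat_lit 196626) (nat_lit 9) .nil))))))) (.g (nat_lit 5) .nil .nil))) 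
(.lf (nat_lit 68405) (.g (nat_lit 2879) (.e (nat_lit 1642) (nat_lit 114) (.e (nat_lit 385074) (nat_lit 31) (.e (nat_lit 573484) (nat_lit 13) (.e (nat_lit 65610) (nat_lit 10) (.e (nat_lit 344115) (nat_lit 20) (.e (nat_lit 507907) (nat_lit 0) (.e (nat_lit 5258) (nat_lit 298) .nil))))))) (.g (nat_lit 6) .nil .nil))))) (.nd (nat_lit 4) (.nd (nat_lit 5) 
(.lf (nat_lit 68365) (.g (nat_lit 2808) (.e (nat_lit 1642) (nat_lit 114) (.e (nat_lit 385068) (nat_lit 26) (.e (nat_lit 532530) (nat_lit 9) (.e (nat_lit 336326) (nat_lit 18) (.e (nat_lit 204854) (nat_lit 26) .nil))))) .nil)) 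
(.lf (nat_lit 68397) (.g (nat_lit 1511) (.e (nat_lit 1642) (nat_lit 114) (.e (nat_lit 385074) (nat_lit 31) (.e (nat_lit 573479) (nat_lit 13) (.e (nat_lit 65619) (nat_lit 10) .nil)))) .nil))) (.nd (nat_lit 5) 
(.lf (nat_lit 68381) (.g (nat_lit 1241) (.e (nat_lit 1642) (nat_lit 114) (.e (nat_lit 385068) (nat_lit 26) (.e (nat_lit 532551) (nat_lit 12) .nil))) .nil)) 
(.lf (nat_lit 68413) (.g (nat_lit 2958) (.e (nat_lit 1642) (nat_lit 114) (.e (nat_lit 385074) (nat_lit 31) (.e (nat_lit 573484) (nat_lit 13) (.e (nat_lit 65610) (nat_lit 10) (.e (nat_lit 344129) (nat_lit 26) (.e (nat_lit 557084) (nat_lit 10) (.e (nat_lit 16128) (nat_lit 250) .nil))))))) (.g (nat_lit 5) .nil .nil))))))) (.nd (nat_lit 2) (.nd (nat_lit 3) (.nd (nat_lit 4) (.nd (nat_lit 5) 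
(.lf (nat_lit 68355) (.g (nat_lit 901) (.e (nat_lit 1642) (nat_lit 114) (.e (nat_lit 385068) (nat_lit 26) (.e (nat_lit 532530) (nat_lit 9) .nil))) .nil)) 
(.lf (nat_lit 68387) (.g (nat_lit 3313) (.e (nat_lit 1642) (nat_lit 114) (.e (nat_lit 385068) (nat_lit 26) (.e (nat_lit 532560) (nat_lit 14) (.e (nat_lit 376842) (nat_lit 11) (.e (nat_lit 426107) (nat_lit 1) (.e (nat_lit 164150) (nat_lit 152) (.e (nat_lit 974) (nat_lit 81) .nil))))))) (.g (nat_lit 5) .nil .nil)))) (.nd (nat_lit 5) 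
(.lf (nat_lit 68371) (.g (nat_lit 2348) (.e (nat_lit 1642) (nat_lit 114) (.e (nat_lit 385068) (nat_lit 26) (.e (nat_lit 532534) (nat_lit 9) (.e (nat_lit 336211) (nat_lit 13) (.e (nat_lit 393253) (nat_lit 18) .nil))))) .nil)) 
(.lf (nat_lit 68403) (.g (nat_lit 2949) (.e (nat_lit 1642) (nat_lit 114) (.e (nat_lit 385074) (nat_lit 31) (.e (nat_lit 573484) (nat_lit 13) (.e (nat_lit 65610) (nat_lit 10) (.e (nat_lit 344115) (nat_lit 20) (.e (nat_lit 507906) (nat_lit 0) (.e (nat_lit 5257) (nat_lit 298) .nil))))))) (.g (nat_lit 6) .nil .nil))))) (.nd (nat_lit 4) (.nd (nat_lit 5) 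
(.lf (nat_lit 68363) (.g (nat_lit 2501) (.e (nat_lit 1642) (nat_lit 114) (.e (nat_lit 385068) (nat_lit 26) (.e (nat_lit 532530) (nat_lit 9) (.e (nat_lit 336325) (nat_lit 18) .nil)))) .nil)) 
(.lf (nat_lit 68395) (.g (nat_lit 1888) (.e (nat_lit 1642) (nat_lit 114) (.e (nat_lit 385073) (nat_lit 31) (.e (nat_lit 573493) (nat_lit 15) (.e (nat_lit 81962) (nat_lit 25) (.e (nat_lit 147200) (nat_lit 19) .nil))))) .nil))) (.nd (nat_lit 5) 
(.lf (nat_lit 68379) (.g (nat_lit 2671) (.e (nat_lit 1642) (nat_lit 114) (.e (nat_lit 385068) (nat_lit 26) (.e (nat_lit 532545) (nat_lit 10) (.e (nat_lit 344133) (nat_lit 26) (.e (nat_lit 557105) (nat_lit 14) (.e (nat_lit 180248) (nat_lit 9) (.e (nat_lit 565252) (nat_lit 0) .nil))))))) (.g (nat_lit 4) .nil .nil))) 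
(.lf (nat_lit 68411) (.g (nat_lit 2976) (.e (nat_lit 1642) (nat_lit 114) (.e (nat_lit 385074) (nat_lit 31) (.e (nat_lit 573484) (nat_lit 13) (.e (nat_lit 65610) (nat_lit 10) (.e (nat_lit 344117) (nat_lit 21) (.e (nat_lit 516099) (nat_lit 0) (.e (nat_lit 7936) (nat_lit 402) .nil))))))) (.g (nat_lit 5) .nil .nil)))))) (.nd (nat_lit 3) (.nd (nat_lit 4) (.nd (nat_lit 5) 
(.lf (nat_lit 68359) (.g (nat_lit 3608) (.e (nat_lit 1642) (nat_lit 114) (.e (nat_lit 385068) (nat_lit 26) (.e (nat_lit 532530) (nat_lit 9) (.e (nat_lit 336316) (nat_lit 17) (.e (nat_lit 196668) (nat_lit 14) .nil))))) .nil)) 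
(.lf (nat_lit 68391) (.g (nat_lit 2273) (.e (nat_lit 1642) (nat_lit 114) (.e (nat_lit 385068) (nat_lit 26) (.e (nat_lit 532566) (nat_lit 15) (.e (nat_lit 385066) (nat_lit 26) (.e (nat_lit 532534) (nat_lit 9) (.e (nat_lit 336316) (nat_lit 17) (.e (nat_lit 196626) (nat_lit 9) .nil))))))) (.g (nat_lit 5) .nil .nil)))) (.nd (nat_lit 5) 
(.lf (nat_lit 68375) (.g (nat_lit 1355) (.e (nat_lit 1642) (nat_lit 114) (.e (nat_lit 385068) (nat_lit 26) (.e (nat_lit 532543) (nat_lit 10) .nil))) .nil)) 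
(.lf (nat_lit 68407) (.g (nat_lit 2817) (.e (nat_lit 1642) (nat_lit 114) (.e (nat_lit 385074) (nat_lit 31) (.e (nat_lit 573484) (nat_lit 13) (.e (nat_lit 65610) (nat_lit 10) (.e (nat_lit 344115) (nat_lit 20) (.e (nat_lit 507908) (nat_lit 0) (.e (nat_lit 5257) (nat_lit 298) .nil))))))) (.g (nat_lit 6) .nil .nil))))) (.nd (nat_lit 4) (.nd (nat_lit 5) 
(.lf (nat_lit 68367) (.g (nat_lit 1799) (.e (nat_lit 1642) (nat_lit 114) (.e (nat_lit 385068) (nat_lit 26) (.e (nat_lit 532533) (nat_lit 9) (.e (nat_lit 336211) (nat_lit 13) (.e (nat_lit 393253) (nat_lit 18) .nil))))) .nil)) 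
(.lf (nat_lit 68399) (.g (nat_lit 3595) (.e (nat_lit 1642) (nat_lit 114) (.e (nat_lit 385074) (nat_lit 31) (.e (nat_lit 573482) (nat_lit 13) (.e (nat_lit 65604) (nat_lit 9) (.e (nat_lit 336013) (nat_lit 2) (.e (nat_lit 90165) (nat_lit 12) (.e (nat_lit 171776) (nat_lit 187) .nil))))))) (.g (nat_lit 4) .nil .nil)))) (.nd (nat_lit 5) 
(.lf (nat_lit 68383) (.g (nat_lit 813) (.e (nat_lit 1642) (nat_lit 114) (.e (nat_lit 385068) (nat_lit 26) (.e (nat_lit 532555) (nat_lit 13) .nil))) .nil)) 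
(.lf (nat_lit 68415) (.g (nat_lit 2281) (.e (nat_lit 1642) (nat_lit 114) (.e (nat_lit 385074) (nat_lit 31) (.e (nat_lit 573484) (nat_lit 13) (.e (nat_lit 65617) (nat_lit 10) (.e (nat_lit 344115) (nat_lit 20) .nil))))) .nil))))))))

noncomputable def tv942 : DT := (.nd (nat_lit 0) (.nd (nat_lit 1) (.nd (nat_lit 2) (.nd (nat_lit 3) (.nd (nat_lit 4) (.nd (nat_lit 5) 
(.lf (nat_lit 68416) (.g (nat_lit 2011) (.e (nat_lit 1642) (nat_lit 114) (.e (nat_lit 385074) (nat_lit 31) (.e (nat_lit 573484) (nat_lit 13) (.e (nat_lit 65617) (nat_lit 10) (.e (nat_lit 344130) (nat_lit 26) .nil))))) .nil)) 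
(.lf (nat_lit 68448) (.g (nat_lit 4081) (.e (nat_lit 1642) (nat_lit 114) (.e (nat_lit 385074) (nat_lit 31) (.e (nat_lit 573492) (nat_lit 15) (.e (nat_lit 81956) (nat_lit 23) (.e (nat_lit 98320) (nat_lit 17) (.e (nat_lit 7486) (nat_lit 402) .nil)))))) (.g (nat_lit 4) .nil .nil)))) (.nd (nat_lit 5) 
(.lf (nat_lit 68432) (.g (nat_lit 2416) (.e (nat_lit 1642) (nat_lit 114) (.e (nat_lit 385074) (nat_lit 31) (.e (nat_lit 573485) (nat_lit 13) (.e (nat_lit 65619) (nat_lit 10) (.e (nat_lit 344115) (nat_lit 20) (.e (nat_lit 507908) (nat_lit 0) (.e (nat_lit 5257) (nat_lit 298) .nil))))))) (.g (nat_lit 6) .nil .nil))) 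
(.lf (nat_lit 68464) (.g (nat_lit 1962) (.e (nat_lit 1642) (nat_lit 114) (.e (nat_lit 385091) (nat_lit 49) (.e (nat_lit 778317) (nat_lit 3) (.e (nat_lit 57480) (nat_lit 28) (.e (nat_lit 557109) (nat_lit 15) (.e (nat_lit 188449) (nat_lit 22) (.e (nat_lit 204544) (nat_lit 9) .nil))))))) (.g (nat_lit 5) .nil .nil))))) (.nd (nat_lit 4) (.nd (nat_lit 5) 
(.lf (nat_lit 68424) (.g (nat_lit 3414) (.e (nat_lit 1642) (nat_lit 114) (.e (nat_lit 385074) (nat_lit 31) (.e (nat_lit 573485) (nat_lit 13) (.e (nat_lit 65604) (nat_lit 9) (.e (nat_lit 336013) (nat_lit 2) (.e (nat_lit 90165) (nat_lit 12) (.e (nat_lit 171776) (nat_lit 187) .nil))))))) (.g (nat_lit 6) .nil .nil))) 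
(.lf (nat_lit 68456) (.g (nat_lit 2823) (.e (nat_lit 1642) (nat_lit 114) (.e (nat_lit 385074) (nat_lit 31) (.e (nat_lit 573493) (nat_lit 15) (.e (nat_lit 81956) (nat_lit 23) (.e (nat_lit 98320) (nat_lit 17) .nil))))) .nil))) (.nd (nat_lit 5) 
(.lf (nat_lit 68440) (.g (nat_lit 1595) (.e (nat_lit 1642) (nat_lit 114) (.e (nat_lit 385074) (nat_lit 31) (.e (nat_lit 573491) (nat_lit 15) (.e (nat_lit 81954) (nat_lit 23) (.e (nat_lit 98319) (nat_lit 17) .nil))))) .nil)) 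
(.lf (nat_lit 68472) (.g (nat_lit 2618) (.e (nat_lit 1642) (nat_lit 114) (.e (nat_lit 385092) (nat_lit 49) (.e (nat_lit 778317) (nat_lit 3) (.e (nat_lit 57480) (nat_lit 28) (.e (nat_lit 557109) (nat_lit 15) (.e (nat_lit 188449) (nat_lit 22) (.e (nat_lit 204544) (nat_lit 9) .nil))))))) (.g (nat_lit 6) .nil .nil)))))) (.nd (nat_lit 3) (.nd (nat_lit 4) (.nd (nat_lit 5) 
(.lf (nat_lit 68420) (.g (nat_lit 2324) (.e (nat_lit 1642) (nat_lit 114) (.e (nat_lit 385074) (nat_lit 31) (.e (nat_lit 573484) (nat_lit 13) (.e (nat_lit 65617) (nat_lit 10) (.e (nat_lit 344130) (nat_lit 26) (.e (nat_lit 557090) (nat_lit 12) (.e (nat_lit 164013) (nat_lit 43) (.e (nat_lit 679946) (nat_lit 5) .nil)))))))) (.g (nat_lit 4) .nil .nil))) 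
(.lf (nat_lit 68452) (.g (nat_lit 2867) (.e (nat_lit 1642) (nat_lit 114) (.e (nat_lit 385074) (nat_lit 31) (.e (nat_lit 573493) (nat_lit 15) (.e (nat_lit 81953) (nat_lit 22) (.e (nat_lit 90165) (nat_lit 12) (.e (nat_lit 171776) (nat_lit 187) .nil)))))) (.g (nat_lit 5) .nil .nil)))) (.nd (nat_lit 5) 
(.lf (nat_lit 68436) (.g (nat_lit 3186) (.e (nat_lit 1642) (nat_lit 114) (.e (nat_lit 385074) (nat_lit 31) (.e (nat_lit 573485) (nat_lit 13) (.e (nat_lit 65619) (nat_lit 10) (.e (nat_lit 344117) (nat_lit 21) (.e (nat_lit 516098) (nat_lit 0) (.e (nat_lit 7486) (nat_lit 402) .nil))))))) (.g (nat_lit 0) .nil .nil))) 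
(.lf (nat_lit 68468) (.g (nat_lit 4852) (.e (nat_lit 1642) (nat_lit 114) (.e (nat_lit 385092) (nat_lit 49) (.e (nat_lit 778317) (nat_lit 3) (.e (nat_lit 57477) (nat_lit 28) (.e (nat_lit 557108) (nat_lit 15) (.e (nat_lit 188449) (nat_lit 22) (.e (nat_lit 196626) (nat_lit 9) .nil))))))) (.g (nat_lit 7) .nil .nil))))) (.nd (nat_lit 4) (.nd (nat_lit 5) 
(.lf (nat_lit 68428) (.g (nat_lit 2966) (.e (nat_lit 1642) (nat_lit 114) (.e (nat_lit 385074) (nat_lit 31) (.e (nat_lit 573485) (nat_lit 13) (.e (nat_lit 65619) (nat_lit 10) (.e (nat_lit 344115) (nat_lit 20) (.e (nat_lit 507906) (nat_lit 0) (.e (nat_lit 5271) (nat_lit 298) .nil))))))) (.g (nat_lit 0) .nil .nil))) 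
(.lf (nat_lit 68460) (.g (nat_lit 3415) (.e (nat_lit 1642) (nat_lit 114) (.e (nat_lit 385074) (nat_lit 31) (.e (nat_lit 573493) (nat_lit 15) (.e (nat_lit 81956) (nat_lit 23) (.e (nat_lit 98325) (nat_lit 17) (.e (nat_lit 7936) (nat_lit 402) .nil)))))) (.g (nat_lit 5) .nil .nil)))) (.nd (nat_lit 5) 
(.lf (nat_lit 68444) (.g (nat_lit 2387) (.e (nat_lit 1642) (nat_lit 114) (.e (nat_lit 385074) (nat_lit 31) (.e (nat_lit 573491) (nat_lit 15) (.e (nat_lit 81954) (nat_lit 23) (.e (nat_lit 98325) (nat_lit 17) (.e (nat_lit 7936) (nat_lit 402) .nil)))))) (.g (nat_lit 5) .nil .nil))) 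
(.lf (nat_lit 68476) (.g (nat_lit 5829) (.e (nat_lit 1642) (nat_lit 114) (.e (nat_lit 385093) (nat_lit 49) (.e (nat_lit 778317) (nat_lit 3) (.e (nat_lit 57476) (nat_lit 28) (.e (nat_lit 557108) (nat_lit 15) (.e (nat_lit 188449) (nat_lit 22) (.e (nat_lit 196626) (nat_lit 9) .nil))))))) (.g (nat_lit 7) .nil .nil))))))) (.nd (nat_lit 2) (.nd (nat_lit 3) (.nd (nat_lit 4) (.nd (nat_lit 5) 
(.lf (nat_lit 68418) (.g (nat_lit 2176) (.e (nat_lit 1642) (nat_lit 114) (.e (nat_lit 385074) (nat_lit 31) (.e (nat_lit 573484) (nat_lit 13) (.e (nat_lit 65617) (nat_lit 10) (.e (nat_lit 344130) (nat_lit 26) (.e (nat_lit 557090) (nat_lit 12) (.e (nat_lit 164013) (nat_lit 43) (.e (nat_lit 679944) (nat_lit 5) .nil)))))))) (.g (nat_lit 4) .nil .nil))) 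
(.lf (nat_lit 68450) (.g (nat_lit 3402) (.e (nat_lit 1642) (nat_lit 114) (.e (nat_lit 385074) (nat_lit 31) (.e (nat_lit 573493) (nat_lit 15) (.e (nat_lit 81951) (nat_lit 22) (.e (nat_lit 90165) (nat_lit 12) .nil))))) .nil))) (.nd (nat_lit 5) 
(.lf (nat_lit 68434) (.g (nat_lit 1841) (.e (nat_lit 1642) (nat_lit 114) (.e (nat_lit 385074) (nat_lit 31) (.e (nat_lit 573485) (nat_lit 13) (.e (nat_lit 65619) (nat_lit 10) (.e (nat_lit 344117) (nat_lit 21) .nil))))) .nil)) 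
(.lf (nat_lit 68466) (.g (nat_lit 5199) (.e (nat_lit 1642) (nat_lit 114) (.e (nat_lit 385092) (nat_lit 49) (.e (nat_lit 778317) (nat_lit 3) (.e (nat_lit 57476) (nat_lit 28) (.e (nat_lit 557108) (nat_lit 15) (.e (nat_lit 188449) (nat_lit 22) (.e (nat_lit 196626) (nat_lit 9) .nil))))))) (.g (nat_lit 7) .nil .nil))))) (.nd (nat_lit 4) (.nd (nat_lit 5) 
(.lf (nat_lit 68426) (.g (nat_lit 2532) (.e (nat_lit 1642) (nat_lit 114) (.e (nat_lit 385074) (nat_lit 31) (.e (nat_lit 573485) (nat_lit 13) (.e (nat_lit 65619) (nat_lit 10) (.e (nat_lit 344115) (nat_lit 20) (.e (nat_lit 507906) (nat_lit 0) (.e (nat_lit 5245) (nat_lit 298) .nil))))))) (.g (nat_lit 5) .nil .nil))) 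
(.lf (nat_lit 68458) (.g (nat_lit 2452) (.e (nat_lit 1642) (nat_lit 114) (.e (nat_lit 385074) (nat_lit 31) (.e (nat_lit 573493) (nat_lit 15) (.e (nat_lit 81956) (nat_lit 23) (.e (nat_lit 98321) (nat_lit 17) (.e (nat_lit 7936) (nat_lit 402) .nil)))))) (.g (nat_lit 4) .nil .nil)))) (.nd (nat_lit 5) 
(.lf (nat_lit 68442) (.g (nat_lit 1630) (.e (nat_lit 1642) (nat_lit 114) (.e (nat_lit 385074) (nat_lit 31) (.e (nat_lit 573491) (nat_lit 15) (.e (nat_lit 81954) (nat_lit 23) (.e (nat_lit 98321) (nat_lit 17) (.e (nat_lit 7936) (nat_lit 402) .nil)))))) (.g (nat_lit 4) .nil .nil))) 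
(.lf (nat_lit 68474) (.g (nat_lit 2399) (.e (nat_lit 1642) (nat_lit 114) (.e (nat_lit 385093) (nat_lit 49) (.e (nat_lit 778317) (nat_lit 3) (.e (nat_lit 57476) (nat_lit 28) (.e (nat_lit 557108) (nat_lit 15) (.e (nat_lit 188447) (nat_lit 22) (.e (nat_lit 196630) (nat_lit 9) .nil))))))) (.g (nat_lit 4) .nil .nil)))))) (.nd (nat_lit 3) (.nd (nat_lit 4) (.nd (nat_lit 5) 
(.lf (nat_lit 68422) (.g (nat_lit 3117) (.e (nat_lit 1642) (nat_lit 114) (.e (nat_lit 385074) (nat_lit 31) (.e (nat_lit 573484) (nat_lit 13) (.e (nat_lit 65617) (nat_lit 10) (.e (nat_lit 344130) (nat_lit 26) (.e (nat_lit 557090) (nat_lit 12) (.e (nat_lit 164015) (nat_lit 43) (.e (nat_lit 679946) (nat_lit 5) .nil)))))))) (.g (nat_lit 5) .nil .nil))) 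
(.lf (nat_lit 68454) (.g (nat_lit 3210) (.e (nat_lit 1642) (nat_lit 114) (.e (nat_lit 385074) (nat_lit 31) (.e (nat_lit 573493) (nat_lit 15) (.e (nat_lit 81954) (nat_lit 23) (.e (nat_lit 98325) (nat_lit 17) .nil))))) .nil))) (.nd (nat_lit 5) 
(.lf (nat_lit 68438) (.g (nat_lit 451) (.e (nat_lit 1642) (nat_lit 114) (.e (nat_lit 385074) (nat_lit 31) (.e (nat_lit 573491) (nat_lit 15) .nil))) .nil)) 
(.lf (nat_lit 68470) (.g (nat_lit 4556) (.e (nat_lit 1642) (nat_lit 114) (.e (nat_lit 385092) (nat_lit 49) (.e (nat_lit 778317) (nat_lit 3) (.e (nat_lit 57480) (nat_lit 28) (.e (nat_lit 557109) (nat_lit 15) (.e (nat_lit 188449) (nat_lit 22) (.e (nat_lit 196617) (nat_lit 9) .nil))))))) (.g (nat_lit 6) .nil .nil))))) (.nd (nat_lit 4) (.nd (nat_lit 5) 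
(.lf (nat_lit 68430) (.g (nat_lit 2476) (.e (nat_lit 1642) (nat_lit 114) (.e (nat_lit 385074) (nat_lit 31) (.e (nat_lit 573485) (nat_lit 13) (.e (nat_lit 65619) (nat_lit 10) (.e (nat_lit 344115) (nat_lit 20) (.e (nat_lit 507907) (nat_lit 0) (.e (nat_lit 5258) (nat_lit 298) .nil))))))) (.g (nat_lit 6) .nil .nil))) 
(.lf (nat_lit 68462) (.g (nat_lit 2223) (.e (nat_lit 1642) (nat_lit 114) (.e (nat_lit 385091) (nat_lit 49) (.e (nat_lit 778317) (nat_lit 3) (.e (nat_lit 57476) (nat_lit 28) (.e (nat_lit 557108) (nat_lit 15) (.e (nat_lit 188449) (nat_lit 22) (.e (nat_lit 204544) (nat_lit 9) .nil))))))) (.g (nat_lit 5) .nil .nil)))) (.nd (nat_lit 5) 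
(.lf (nat_lit 68446) (.g (nat_lit 3645) (.e (nat_lit 1642) (nat_lit 114) (.e (nat_lit 385074) (nat_lit 31) (.e (nat_lit 573491) (nat_lit 15) (.e (nat_lit 81956) (nat_lit 23) (.e (nat_lit 98320) (nat_lit 17) (.e (nat_lit 7486) (nat_lit 402) .nil)))))) (.g (nat_lit 4) .nil .nil))) 
(.lf (nat_lit 68478) (.g (nat_lit 2433) (.e (nat_lit 1642) (nat_lit 114) (.e (nat_lit 385093) (nat_lit 49) (.e (nat_lit 778317) (nat_lit 3) (.e (nat_lit 57476) (nat_lit 28) (.e (nat_lit 557108) (nat_lit 15) (.e (nat_lit 188458) (nat_lit 25) (.e (nat_lit 245781) (nat_lit 9) .nil))))))) (.g (nat_lit 4) .nil .nil)))))))) 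
(.nd (nat_lit 1) (.nd (nat_lit 2) (.nd (nat_lit 3) (.nd (nat_lit 4) (.nd (nat_lit 5) 
(.lf (nat_lit 68417) (.g (nat_lit 3221) (.e (nat_lit 1642) (nat_lit 114) (.e (nat_lit 385074) (nat_lit 31) (.e (nat_lit 573484) (nat_lit 13) (.e (nat_lit 65617) (nat_lit 10) (.e (nat_lit 344130) (nat_lit 26) (.e (nat_lit 557084) (nat_lit 10) (.e (nat_lit 16128) (nat_lit 250) .nil))))))) (.g (nat_lit 6) .nil .nil))) 
(.lf (nat_lit 68449) (.g (nat_lit 4236) (.e (nat_lit 1642) (nat_lit 114) (.e (nat_lit 385074) (nat_lit 31) (.e (nat_lit 573492) (nat_lit 15) (.e (nat_lit 81956) (nat_lit 23) (.e (nat_lit 98320) (nat_lit 17) (.e (nat_lit 7490) (nat_lit 402) .nil)))))) (.g (nat_lit 4) .nil .nil)))) (.nd (nat_lit 5) 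
(.lf (nat_lit 68433) (.g (nat_lit 2402) (.e (nat_lit 1642) (nat_lit 114) (.e (nat_lit 385074) (nat_lit 31) (.e (nat_lit 573485) (nat_lit 13) (.e (nat_lit 65619) (nat_lit 10) (.e (nat_lit 344115) (nat_lit 20) (.e (nat_lit 507908) (nat_lit 0) (.e (nat_lit 5258) (nat_lit 298) .nil))))))) (.g (nat_lit 6) .nil .nil))) 
(.lf (nat_lit 68465) (.g (nat_lit 2816) (.e (nat_lit 1642) (nat_lit 114) (.e (nat_lit 385091) (nat_lit 49) (.e (nat_lit 778318) (nat_lit 3) (.e (nat_lit 57476) (nat_lit 28) (.e (nat_lit 557108) (nat_lit 15) (.e (nat_lit 188449) (nat_lit 22) (.e (nat_lit 204544) (nat_lit 9) .nil))))))) (.g (nat_lit 5) .nil .nil))))) (.nd (nat_lit 4) (.nd (nat_lit 5) 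
(.lf (nat_lit 68425) (.g (nat_lit 3217) (.e (nat_lit 1642) (nat_lit 114) (.e (nat_lit 385074) (nat_lit 31) (.e (nat_lit 573485) (nat_lit 13) (.e (nat_lit 65604) (nat_lit 9) (.e (nat_lit 336028) (nat_lit 3) (.e (nat_lit 98325) (nat_lit 17) (.e (nat_lit 7936) (nat_lit 402) .nil))))))) (.g (nat_lit 6) .nil .nil))) 
(.lf (nat_lit 68457) (.g (nat_lit 4204) (.e (nat_lit 1642) (nat_lit 114) (.e (nat_lit 385074) (nat_lit 31) (.e (nat_lit 573493) (nat_lit 15) (.e (nat_lit 81956) (nat_lit 23) (.e (nat_lit 98320) (nat_lit 17) (.e (nat_lit 7486) (nat_lit 402) .nil)))))) (.g (nat_lit 0) .nil .nil)))) (.nd (nat_lit 5) 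
(.lf (nat_lit 68441) (.g (nat_lit 2636) (.e (nat_lit 1642) (nat_lit 114) (.e (nat_lit 385074) (nat_lit 31) (.e (nat_lit 573491) (nat_lit 15) (.e (nat_lit 81954) (nat_lit 23) (.e (nat_lit 98320) (nat_lit 17) (.e (nat_lit 7486) (nat_lit 402) .nil)))))) (.g (nat_lit 0) .nil .nil))) 
(.lf (nat_lit 68473) (.g (nat_lit 3398) (.e (nat_lit 1642) (nat_lit 114) (.e (nat_lit 385093) (nat_lit 49) (.e (nat_lit 778317) (nat_lit 3) (.e (nat_lit 57476) (nat_lit 28) (.e (nat_lit 557107) (nat_lit 15) (.e (nat_lit 188447) (nat_lit 22) (.e (nat_lit 196630) (nat_lit 9) .nil))))))) (.g (nat_lit 6) .nil .nil)))))) (.nd (nat_lit 3) (.nd (nat_lit 4) (.nd (nat_lit 5) 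
(.lf (nat_lit 68421) (.g (nat_lit 3119) (.e (nat_lit 1642) (nat_lit 114) (.e (nat_lit 385074) (nat_lit 31) (.e (nat_lit 573484) (nat_lit 13) (.e (nat_lit 65617) (nat_lit 10) (.e (nat_lit 344130) (nat_lit 26) (.e (nat_lit 557090) (nat_lit 12) (.e (nat_lit 164015) (nat_lit 43) (.e (nat_lit 679943) (nat_lit 5) .nil)))))))) (.g (nat_lit 5) .nil .nil))) 
(.lf (nat_lit 68453) (.g (nat_lit 3538) (.e (nat_lit 1642) (nat_lit 114) (.e (nat_lit 385074) (nat_lit 31) (.e (nat_lit 573493) (nat_lit 15) (.e (nat_lit 81954) (nat_lit 23) (.e (nat_lit 98320) (nat_lit 17) .nil))))) .nil))) (.nd (nat_lit 5) 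
(.lf (nat_lit 68437) (.g (nat_lit 3426) (.e (nat_lit 1642) (nat_lit 114) (.e (nat_lit 385074) (nat_lit 31) (.e (nat_lit 573485) (nat_lit 13) (.e (nat_lit 65619) (nat_lit 10) (.e (nat_lit 344117) (nat_lit 21) (.e (nat_lit 516106) (nat_lit 0) (.e (nat_lit 7936) (nat_lit 402) .nil))))))) (.g (nat_lit 6) .nil .nil))) 
(.lf (nat_lit 68469) (.g (nat_lit 2578) (.e (nat_lit 1642) (nat_lit 114) (.e (nat_lit 385092) (nat_lit 49) (.e (nat_lit 778317) (nat_lit 3) (.e (nat_lit 57477) (nat_lit 28) (.e (nat_lit 557108) (nat_lit 15) (.e (nat_lit 188449) (nat_lit 22) (.e (nat_lit 204544) (nat_lit 9) .nil))))))) (.g (nat_lit 6) .nil .nil))))) (.nd (nat_lit 4) (.nd (nat_lit 5) 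
(.lf (nat_lit 68429) (.g (nat_lit 2643) (.e (nat_lit 1642) (nat_lit 114) (.e (nat_lit 385074) (nat_lit 31) (.e (nat_lit 573485) (nat_lit 13) (.e (nat_lit 65619) (nat_lit 10) (.e (nat_lit 344115) (nat_lit 20) (.e (nat_lit 507907) (nat_lit 0) (.e (nat_lit 5245) (nat_lit 298) .nil))))))) (.g (nat_lit 6) .nil .nil))) 
(.lf (nat_lit 68461) (.g (nat_lit 1556) (.e (nat_lit 1642) (nat_lit 114) (.e (nat_lit 385074) (nat_lit 31) (.e (nat_lit 573493) (nat_lit 15) (.e (nat_lit 81962) (nat_lit 25) .nil)))) .nil))) (.nd (nat_lit 5) 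
(.lf (nat_lit 68445) (.g (nat_lit 1671) (.e (nat_lit 1642) (nat_lit 114) (.e (nat_lit 385074) (nat_lit 31) (.e (nat_lit 573491) (nat_lit 15) (.e (nat_lit 81956) (nat_lit 23) .nil)))) .nil)) 
(.lf (nat_lit 68477) (.g (nat_lit 3466) (.e (nat_lit 1642) (nat_lit 114) (.e (nat_lit 385093) (nat_lit 49) (.e (nat_lit 778317) (nat_lit 3) (.e (nat_lit 57476) (nat_lit 28) (.e (nat_lit 557108) (nat_lit 15) (.e (nat_lit 188449) (nat_lit 22) (.e (nat_lit 204544) (nat_lit 9) .nil))))))) (.g (nat_lit 6) .nil .nil))))))) (.nd (nat_lit 2) (.nd (nat_lit 3) (.nd (nat_lit 4) (.nd (nat_lit 5) 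
(.lf (nat_lit 68419) (.g (nat_lit 2201) (.e (nat_lit 1642) (nat_lit 114) (.e (nat_lit 385074) (nat_lit 31) (.e (nat_lit 573484) (nat_lit 13) (.e (nat_lit 65617) (nat_lit 10) (.e (nat_lit 344130) (nat_lit 26) (.e (nat_lit 557090) (nat_lit 12) (.e (nat_lit 164013) (nat_lit 43) (.e (nat_lit 679945) (nat_lit 5) .nil)))))))) (.g (nat_lit 4) .nil .nil))) 
(.lf (nat_lit 68451) (.g (nat_lit 2759) (.e (nat_lit 1642) (nat_lit 114) (.e (nat_lit 385074) (nat_lit 31) (.e (nat_lit 573493) (nat_lit 15) (.e (nat_lit 81953) (nat_lit 22) (.e (nat_lit 90133) (nat_lit 9) .nil))))) .nil))) (.nd (nat_lit 5) 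
(.lf (nat_lit 68435) (.g (nat_lit 3520) (.e (nat_lit 1642) (nat_lit 114) (.e (nat_lit 385074) (nat_lit 31) (.e (nat_lit 573485) (nat_lit 13) (.e (nat_lit 65619) (nat_lit 10) (.e (nat_lit 344117) (nat_lit 21) (.e (nat_lit 516097) (nat_lit 0) (.e (nat_lit 7486) (nat_lit 402) .nil))))))) (.g (nat_lit 6) .nil .nil))) 
(.lf (nat_lit 68467) (.g (nat_lit 2922) (.e (nat_lit 1642) (nat_lit 114) (.e (nat_lit 385092) (nat_lit 49) (.e (nat_lit 778317) (nat_lit 3) (.e (nat_lit 57476) (nat_lit 28) (.e (nat_lit 557108) (nat_lit 15) (.e (nat_lit 188449) (nat_lit 22) (.e (nat_lit 204544) (nat_lit 9) .nil))))))) (.g (nat_lit 6) .nil .nil))))) (.nd (nat_lit 4) (.nd (nat_lit 5) 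
(.lf (nat_lit 68427) (.g (nat_lit 2642) (.e (nat_lit 1642) (nat_lit 114) (.e (nat_lit 385074) (nat_lit 31) (.e (nat_lit 573485) (nat_lit 13) (.e (nat_lit 65619) (nat_lit 10) (.e (nat_lit 344115) (nat_lit 20) (.e (nat_lit 507906) (nat_lit 0) (.e (nat_lit 5257) (nat_lit 298) .nil))))))) (.g (nat_lit 6) .nil .nil))) 
(.lf (nat_lit 68459) (.g (nat_lit 2650) (.e (nat_lit 1642) (nat_lit 114) (.e (nat_lit 385074) (nat_lit 31) (.e (nat_lit 573493) (nat_lit 15) (.e (nat_lit 81956) (nat_lit 23) (.e (nat_lit 98323) (nat_lit 17) (.e (nat_lit 7936) (nat_lit 402) .nil)))))) (.g (nat_lit 4) .nil .nil)))) (.nd (nat_lit 5) 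
(.lf (nat_lit 68443) (.g (nat_lit 1721) (.e (nat_lit 1642) (nat_lit 114) (.e (nat_lit 385074) (nat_lit 31) (.e (nat_lit 573491) (nat_lit 15) (.e (nat_lit 81954) (nat_lit 23) (.e (nat_lit 98323) (nat_lit 17) .nil))))) .nil)) 
(.lf (nat_lit 68475) (.g (nat_lit 5154) (.e (nat_lit 1642) (nat_lit 114) (.e (nat_lit 385093) (nat_lit 49) (.e (nat_lit 778317) (nat_lit 3) (.e (nat_lit 57476) (nat_lit 28) (.e (nat_lit 557108) (nat_lit 15) (.e (nat_lit 188449) (nat_lit 22) (.e (nat_lit 196617) (nat_lit 9) .nil))))))) (.g (nat_lit 6) .nil .nil)))))) (.nd (nat_lit 3) (.nd (nat_lit 4) (.nd (nat_lit 5) 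
(.lf (nat_lit 68423) (.g (nat_lit 611) (.e (nat_lit 1642) (nat_lit 114) (.e (nat_lit 385074) (nat_lit 31) (.e (nat_lit 573485) (nat_lit 13) .nil))) .nil)) 
(.lf (nat_lit 68455) (.g (nat_lit 2665) (.e (nat_lit 1642) (nat_lit 114) (.e (nat_lit 385074) (nat_lit 31) (.e (nat_lit 573493) (nat_lit 15) (.e (nat_lit 81956) (nat_lit 23) (.e (nat_lit 98319) (nat_lit 17) (.e (nat_lit 7486) (nat_lit 402) .nil)))))) (.g (nat_lit 4) .nil .nil)))) (.nd (nat_lit 5) 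
(.lf (nat_lit 68439) (.g (nat_lit 2432) (.e (nat_lit 1642) (nat_lit 114) (.e (nat_lit 385074) (nat_lit 31) (.e (nat_lit 573491) (nat_lit 15) (.e (nat_lit 81951) (nat_lit 22) (.e (nat_lit 90165) (nat_lit 12) (.e (nat_lit 171776) (nat_lit 187) .nil)))))) (.g (nat_lit 5) .nil .nil))) 
(.lf (nat_lit 68471) (.g (nat_lit 5399) (.e (nat_lit 1642) (nat_lit 114) (.e (nat_lit 385092) (nat_lit 49) (.e (nat_lit 778317) (nat_lit 3) (.e (nat_lit 57480) (nat_lit 28) (.e (nat_lit 557109) (nat_lit 15) (.e (nat_lit 188449) (nat_lit 22) (.e (nat_lit 196626) (nat_lit 9) .nil))))))) (.g (nat_lit 6) .nil .nil))))) (.nd (nat_lit 4) (.nd (nat_lit 5) 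
(.lf (nat_lit 68431) (.g (nat_lit 2855) (.e (nat_lit 1642) (nat_lit 114) (.e (nat_lit 385074) (nat_lit 31) (.e (nat_lit 573485) (nat_lit 13) (.e (nat_lit 65619) (nat_lit 10) (.e (nat_lit 344115) (nat_lit 20) (.e (nat_lit 507908) (nat_lit 0) (.e (nat_lit 5245) (nat_lit 298) .nil))))))) (.g (nat_lit 7) .nil .nil))) 
(.lf (nat_lit 68463) (.g (nat_lit 1895) (.e (nat_lit 1642) (nat_lit 114) (.e (nat_lit 385091) (nat_lit 49) (.e (nat_lit 778317) (nat_lit 3) (.e (nat_lit 57477) (nat_lit 28) (.e (nat_lit 557108) (nat_lit 15) (.e (nat_lit 188449) (nat_lit 22) (.e (nat_lit 204544) (nat_lit 9) .nil))))))) (.g (nat_lit 5) .nil .nil)))) (.nd (nat_lit 5) 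
(.lf (nat_lit 68447) (.g (nat_lit 3745) (.e (nat_lit 1642) (nat_lit 114) (.e (nat_lit 385074) (nat_lit 31) (.e (nat_lit 573491) (nat_lit 15) (.e (nat_lit 81956) (nat_lit 23) (.e (nat_lit 98320) (nat_lit 17) (.e (nat_lit 7490) (nat_lit 402) .nil)))))) (.g (nat_lit 4) .nil .nil))) 
(.lf (nat_lit 68479) (.g (nat_lit 3243) (.e (nat_lit 1642) (nat_lit 114) (.e (nat_lit 385093) (nat_lit 49) (.e (nat_lit 778317) (nat_lit 3) (.e (nat_lit 57477) (nat_lit 28) (.e (nat_lit 557107) (nat_lit 15) (.e (nat_lit 188447) (nat_lit 22) (.e (nat_lit 196630) (nat_lit 9) .nil))))))) (.g (nat_lit 6) .nil .nil)))))))))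

noncomputable def tv943 : DT := (.nd (nat_lit 0) (.nd (nat_lit 1) (.nd (nat_lit 2) (.nd (nat_lit 3) (.nd (nat_lit 4) (.nd (nat_lit 5) (.nd (nat_lit 6) 
(.lf (nat_lit 68480) (.g (nat_lit 4904) (.e (nat_lit 1642) (nat_lit 114) (.e (nat_lit 385093) (nat_lit 49) (.e (nat_lit 778317) (nat_lit 3) (.e (nat_lit 57477) (nat_lit 28) (.e (nat_lit 557108) (nat_lit 15) (.e (nat_lit 188449) (nat_lit 22) (.e (nat_lit 196617) (nat_lit 9) .nil))))))) (.g (nat_lit 6) .nil .nil))) 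
(.lf (nat_lit 68544) (.g (nat_lit 2429) (.e (nat_lit 1644) (nat_lit 114) (.e (nat_lit 385093) (nat_lit 49) (.e (nat_lit 778317) (nat_lit 3) (.e (nat_lit 57476) (nat_lit 28) (.e (nat_lit 557108) (nat_lit 15) .nil))))) .nil))) (.nd (nat_lit 6) 
(.lf (nat_lit 68512) (.g (nat_lit 5799) (.e (nat_lit 1642) (nat_lit 114) (.e (nat_lit 385094) (nat_lit 49) (.e (nat_lit 778317) (nat_lit 3) (.e (nat_lit 57480) (nat_lit 28) (.e (nat_lit 557109) (nat_lit 15) (.e (nat_lit 188449) (nat_lit 22) (.e (nat_lit 196617) (nat_lit 9) .nil))))))) (.g (nat_lit 6) .nil .nil))) 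
(.lf (nat_lit 68576) (.g (nat_lit 2058) (.e (nat_lit 1646) (nat_lit 115) (.e (nat_lit 393229) (nat_lit 9) (.e (nat_lit 336087) (nat_lit 9) (.e (nat_lit 336019) (nat_lit 3) (.e (nat_lit 98334) (nat_lit 18) .nil))))) .nil)))) (.nd (nat_lit 5) (.nd (nat_lit 6) 
(.lf (nat_lit 68496) (.g (nat_lit 900) (.e (nat_lit 1642) (nat_lit 114) (.e (nat_lit 385093) (nat_lit 49) (.e (nat_lit 778323) (nat_lit 5) .nil))) .nil)) 
(.lf (nat_lit 68560) (.g (nat_lit 2395) (.e (nat_lit 1645) (nat_lit 114) (.e (nat_lit 385094) (nat_lit 49) (.e (nat_lit 778317) (nat_lit 3) (.e (nat_lit 57476) (nat_lit 28) (.e (nat_lit 557108) (nat_lit 15) .nil))))) .nil))) (.nd (nat_lit 6) 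
(.lf (nat_lit 68528) (.g (nat_lit 3739) (.e (nat_lit 1643) (nat_lit 114) (.e (nat_lit 385074) (nat_lit 31) (.e (nat_lit 573485) (nat_lit 13) (.e (nat_lit 65604) (nat_lit 9) (.e (nat_lit 336028) (nat_lit 3) (.e (nat_lit 98325) (nat_lit 17) (.e (nat_lit 7936) (nat_lit 402) .nil))))))) (.g (nat_lit 6) .nil .nil))) 
(.lf (nat_lit 68592) (.g (nat_lit 1493) (.e (nat_lit 1646) (nat_lit 115) (.e (nat_lit 393296) (nat_lit 26) (.e (nat_lit 475207) (nat_lit 41) (.e (nat_lit 712747) (nat_lit 28) .nil)))) .nil))))) (.nd (nat_lit 4) (.nd (nat_lit 5) (.nd (nat_lit 6) 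
(.lf (nat_lit 68488) (.g (nat_lit 4714) (.e (nat_lit 1642) (nat_lit 114) (.e (nat_lit 385093) (nat_lit 49) (.e (nat_lit 778317) (nat_lit 3) (.e (nat_lit 57480) (nat_lit 28) (.e (nat_lit 557109) (nat_lit 15) (.e (nat_lit 188449) (nat_lit 22) (.e (nat_lit 196630) (nat_lit 9) .nil))))))) (.g (nat_lit 7) .nil .nil))) 
(.lf (nat_lit 68552) (.g (nat_lit 2936) (.e (nat_lit 1645) (nat_lit 114) (.e (nat_lit 385074) (nat_lit 31) (.e (nat_lit 573482) (nat_lit 13) (.e (nat_lit 65604) (nat_lit 9) (.e (nat_lit 336028) (nat_lit 3) .nil))))) .nil))) (.nd (nat_lit 6) 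
(.lf (nat_lit 68520) (.g (nat_lit 3233) (.e (nat_lit 1642) (nat_lit 114) (.e (nat_lit 385094) (nat_lit 49) (.e (nat_lit 778318) (nat_lit 3) (.e (nat_lit 57476) (nat_lit 28) (.e (nat_lit 557108) (nat_lit 15) (.e (nat_lit 188449) (nat_lit 22) (.e (nat_lit 204544) (nat_lit 9) .nil))))))) (.g (nat_lit 4) .nil .nil))) 
(.lf (nat_lit 68584) (.g (nat_lit 2151) (.e (nat_lit 1646) (nat_lit 115) (.e (nat_lit 393291) (nat_lit 26) (.e (nat_lit 475199) (nat_lit 40) (.e (nat_lit 704595) (nat_lit 5) (.e (nat_lit 188160) (nat_lit 32) .nil))))) .nil)))) (.nd (nat_lit 5) (.nd (nat_lit 6) 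
(.lf (nat_lit 68504) (.g (nat_lit 5850) (.e (nat_lit 1642) (nat_lit 114) (.e (nat_lit 385094) (nat_lit 49) (.e (nat_lit 778317) (nat_lit 3) (.e (nat_lit 57477) (nat_lit 28) (.e (nat_lit 557108) (nat_lit 15) (.e (nat_lit 188449) (nat_lit 22) (.e (nat_lit 196626) (nat_lit 9) .nil))))))) (.g (nat_lit 0) .nil .nil))) 
(.lf (nat_lit 68568) (.g (nat_lit 2041) (.e (nat_lit 7936) (nat_lit 114) (.e (nat_lit 385094) (nat_lit 49) (.e (nat_lit 778317) (nat_lit 3) (.e (nat_lit 57479) (nat_lit 28) (.e (nat_lit 557101) (nat_lit 13) .nil))))) .nil))) (.nd (nat_lit 6) 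
(.lf (nat_lit 68536) (.g (nat_lit 2286) (.e (nat_lit 1644) (nat_lit 114) (.e (nat_lit 385074) (nat_lit 31) (.e (nat_lit 573482) (nat_lit 13) (.e (nat_lit 65604) (nat_lit 9) .nil)))) .nil)) 
(.lf (nat_lit 68600) (.g (nat_lit 844) (.e (nat_lit 1646) (nat_lit 115) (.e (nat_lit 393300) (nat_lit 27) (.e (nat_lit 491548) (nat_lit 9) .nil))) .nil)))))) (.nd (nat_lit 3) (.nd (nat_lit 4) (.nd (nat_lit 5) (.nd (nat_lit 6) 
(.lf (nat_lit 68484) (.g (nat_lit 4540) (.e (nat_lit 1642) (nat_lit 114) (.e (nat_lit 385093) (nat_lit 49) (.e (nat_lit 778317) (nat_lit 3) (.e (nat_lit 57480) (nat_lit 28) (.e (nat_lit 557098) (nat_lit 13) (.e (nat_lit 172097) (nat_lit 9) (.e (nat_lit 426125) (nat_lit 2) (.e (nat_lit 196630) (nat_lit 9) .nil)))))))) (.g (nat_lit 7) .nil .nil))) 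
(.lf (nat_lit 68548) (.g (nat_lit 2242) (.e (nat_lit 1644) (nat_lit 114) (.e (nat_lit 385094) (nat_lit 49) (.e (nat_lit 778320) (nat_lit 4) (.e (nat_lit 65630) (nat_lit 14) (.e (nat_lit 401454) (nat_lit 12) (.e (nat_lit 483072) (nat_lit 8) .nil)))))) (.g (nat_lit 4) .nil .nil)))) (.nd (nat_lit 6) 
(.lf (nat_lit 68516) (.g (nat_lit 3704) (.e (nat_lit 1642) (nat_lit 114) (.e (nat_lit 385094) (nat_lit 49) (.e (nat_lit 778317) (nat_lit 3) (.e (nat_lit 57480) (nat_lit 28) (.e (nat_lit 557109) (nat_lit 15) (.e (nat_lit 188458) (nat_lit 25) (.e (nat_lit 245781) (nat_lit 9) .nil))))))) (.g (nat_lit 5) .nil .nil))) 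
(.lf (nat_lit 68580) (.g (nat_lit 1164) (.e (nat_lit 1646) (nat_lit 115) (.e (nat_lit 393268) (nat_lit 23) (.e (nat_lit 426444) (nat_lit 19) .nil))) .nil)))) (.nd (nat_lit 5) (.nd (nat_lit 6) 
(.lf (nat_lit 68500) (.g (nat_lit 6183) (.e (nat_lit 1642) (nat_lit 114) (.e (nat_lit 385094) (nat_lit 49) (.e (nat_lit 778317) (nat_lit 3) (.e (nat_lit 57476) (nat_lit 28) (.e (nat_lit 557108) (nat_lit 15) (.e (nat_lit 188449) (nat_lit 22) (.e (nat_lit 196626) (nat_lit 9) .nil))))))) (.g (nat_lit 0) .nil .nil))) 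
(.lf (nat_lit 68564) (.g (nat_lit 2142) (.e (nat_lit 1645) (nat_lit 114) (.e (nat_lit 385094) (nat_lit 49) (.e (nat_lit 778320) (nat_lit 4) (.e (nat_lit 65630) (nat_lit 14) (.e (nat_lit 401454) (nat_lit 12) .nil))))) .nil))) (.nd (nat_lit 6) 
(.lf (nat_lit 68532) (.g (nat_lit 5983) (.e (nat_lit 1643) (nat_lit 114) (.e (nat_lit 385093) (nat_lit 49) (.e (nat_lit 778317) (nat_lit 3) (.e (nat_lit 57480) (nat_lit 28) (.e (nat_lit 557109) (nat_lit 15) (.e (nat_lit 188449) (nat_lit 22) (.e (nat_lit 196622) (nat_lit 9) .nil))))))) (.g (nat_lit 6) .nil .nil))) 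
(.lf (nat_lit 68596) (.g (nat_lit 2516) (.e (nat_lit 1646) (nat_lit 115) (.e (nat_lit 393298) (nat_lit 27) (.e (nat_lit 491570) (nat_lit 13) (.e (nat_lit 393238) (nat_lit 17) (.e (nat_lit 7501) (nat_lit 402) .nil))))) .nil))))) (.nd (nat_lit 4) (.nd (nat_lit 5) (.nd (nat_lit 6) 
(.lf (nat_lit 68492) (.g (nat_lit 2423) (.e (nat_lit 1642) (nat_lit 114) (.e (nat_lit 385093) (nat_lit 49) (.e (nat_lit 778318) (nat_lit 3) (.e (nat_lit 57476) (nat_lit 28) (.e (nat_lit 557108) (nat_lit 15) .nil))))) .nil)) 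
(.lf (nat_lit 68556) (.g (nat_lit 3744) (.e (nat_lit 1645) (nat_lit 114) (.e (nat_lit 385074) (nat_lit 31) (.e (nat_lit 573485) (nat_lit 13) (.e (nat_lit 65619) (nat_lit 10) (.e (nat_lit 344117) (nat_lit 21) (.e (nat_lit 516106) (nat_lit 0) (.e (nat_lit 7936) (nat_lit 402) .nil))))))) (.g (nat_lit 6) .nil .nil)))) (.nd (nat_lit 6) 
(.lf (nat_lit 68524) (.g (nat_lit 952) (.e (nat_lit 1643) (nat_lit 114) (.e (nat_lit 385068) (nat_lit 26) (.e (nat_lit 532530) (nat_lit 9) .nil))) .nil)) 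
(.lf (nat_lit 68588) (.g (nat_lit 1524) (.e (nat_lit 1646) (nat_lit 115) (.e (nat_lit 393295) (nat_lit 26) (.e (nat_lit 475199) (nat_lit 40) (.e (nat_lit 704595) (nat_lit 5) (.e (nat_lit 188160) (nat_lit 32) .nil))))) (.g (nat_lit 4) .nil .nil))))) (.nd (nat_lit 5) (.nd (nat_lit 6) 
(.lf (nat_lit 68508) (.g (nat_lit 6286) (.e (nat_lit 1642) (nat_lit 114) (.e (nat_lit 385094) (nat_lit 49) (.e (nat_lit 778317) (nat_lit 3) (.e (nat_lit 57479) (nat_lit 28) (.e (nat_lit 557101) (nat_lit 13) (.e (nat_lit 172097) (nat_lit 9) (.e (nat_lit 426125) (nat_lit 2) (.e (nat_lit 196630) (nat_lit 9) .nil)))))))) (.g (nat_lit 8) .nil .nil))) 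
(.lf (nat_lit 68572) (.g (nat_lit 2455) (.e (nat_lit 1646) (nat_lit 115) (.e (nat_lit 393225) (nat_lit 9) (.e (nat_lit 336088) (nat_lit 9) (.e (nat_lit 336019) (nat_lit 3) (.e (nat_lit 98334) (nat_lit 18) .nil))))) .nil))) (.nd (nat_lit 6) 
(.lf (nat_lit 68540) (.g (nat_lit 2779) (.e (nat_lit 1644) (nat_lit 114) (.e (nat_lit 385074) (nat_lit 31) (.e (nat_lit 573493) (nat_lit 15) (.e (nat_lit 81953) (nat_lit 22) (.e (nat_lit 90165) (nat_lit 12) .nil))))) .nil)) 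
(.lf (nat_lit 68604) (.g (nat_lit 1028) (.e (nat_lit 1646) (nat_lit 115) (.e (nat_lit 393301) (nat_lit 27) (.e (nat_lit 491568) (nat_lit 13) .nil))) .nil))))))) (.nd (nat_lit 2) (.nd (nat_lit 3) (.nd (nat_lit 4) (.nd (nat_lit 5) (.nd (nat_lit 6) 
(.lf (nat_lit 68482) (.g (nat_lit 3176) (.e (nat_lit 1642) (nat_lit 114) (.e (nat_lit 385093) (nat_lit 49) (.e (nat_lit 778317) (nat_lit 3) (.e (nat_lit 57477) (nat_lit 28) (.e (nat_lit 557108) (nat_lit 15) (.e (nat_lit 188449) (nat_lit 22) (.e (nat_lit 204544) (nat_lit 9) .nil))))))) (.g (nat_lit 6) .nil .nil))) 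
(.lf (nat_lit 68546) (.g (nat_lit 2349) (.e (nat_lit 1644) (nat_lit 114) (.e (nat_lit 385093) (nat_lit 49) (.e (nat_lit 778317) (nat_lit 3) (.e (nat_lit 57480) (nat_lit 28) (.e (nat_lit 557109) (nat_lit 15) .nil))))) .nil))) (.nd (nat_lit 6) 
(.lf (nat_lit 68514) (.g (nat_lit 5068) (.e (nat_lit 1642) (nat_lit 114) (.e (nat_lit 385094) (nat_lit 49) (.e (nat_lit 778317) (nat_lit 3) (.e (nat_lit 57480) (nat_lit 28) (.e (nat_lit 557109) (nat_lit 15) (.e (nat_lit 188449) (nat_lit 22) (.e (nat_lit 196630) (nat_lit 9) .nil))))))) (.g (nat_lit 7) .nil .nil))) 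
(.lf (nat_lit 68578) (.g (nat_lit 1509) (.e (nat_lit 1646) (nat_lit 115) (.e (nat_lit 393229) (nat_lit 9) (.e (nat_lit 336184) (nat_lit 11) (.e (nat_lit 368676) (nat_lit 21) (.e (nat_lit 516117) (nat_lit 1) .nil))))) .nil)))) (.nd (nat_lit 5) (.nd (nat_lit 6) 
(.lf (nat_lit 68498) (.g (nat_lit 2779) (.e (nat_lit 1642) (nat_lit 114) (.e (nat_lit 385094) (nat_lit 49) (.e (nat_lit 778317) (nat_lit 3) (.e (nat_lit 57476) (nat_lit 28) (.e (nat_lit 557108) (nat_lit 15) (.e (nat_lit 188447) (nat_lit 22) (.e (nat_lit 196630) (nat_lit 9) .nil))))))) (.g (nat_lit 4) .nil .nil))) 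
(.lf (nat_lit 68562) (.g (nat_lit 6088) (.e (nat_lit 1645) (nat_lit 114) (.e (nat_lit 385094) (nat_lit 49) (.e (nat_lit 778317) (nat_lit 3) (.e (nat_lit 57477) (nat_lit 28) (.e (nat_lit 557108) (nat_lit 15) (.e (nat_lit 188449) (nat_lit 22) (.e (nat_lit 196624) (nat_lit 9) .nil))))))) (.g (nat_lit 7) .nil .nil)))) (.nd (nat_lit 6) 
(.lf (nat_lit 68530) (.g (nat_lit 4017) (.e (nat_lit 1643) (nat_lit 114) (.e (nat_lit 385074) (nat_lit 31) (.e (nat_lit 573485) (nat_lit 13) (.e (nat_lit 65619) (nat_lit 10) (.e (nat_lit 344117) (nat_lit 21) (.e (nat_lit 516106) (nat_lit 0) (.e (nat_lit 7936) (nat_lit 402) .nil))))))) (.g (nat_lit 6) .nil .nil))) 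
(.lf (nat_lit 68594) (.g (nat_lit 851) (.e (nat_lit 1646) (nat_lit 115) (.e (nat_lit 393296) (nat_lit 26) (.e (nat_lit 475208) (nat_lit 41) .nil))) .nil))))) (.nd (nat_lit 4) (.nd (nat_lit 5) (.nd (nat_lit 6) 
(.lf (nat_lit 68490) (.g (nat_lit 3276) (.e (nat_lit 1642) (nat_lit 114) (.e (nat_lit 385093) (nat_lit 49) (.e (nat_lit 778317) (nat_lit 3) (.e (nat_lit 57480) (nat_lit 28) (.e (nat_lit 557109) (nat_lit 15) (.e (nat_lit 188458) (nat_lit 25) (.e (nat_lit 245781) (nat_lit 9) .nil))))))) (.g (nat_lit 5) .nil .nil))) 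
(.lf (nat_lit 68554) (.g (nat_lit 3099) (.e (nat_lit 1645) (nat_lit 114) (.e (nat_lit 385074) (nat_lit 31) (.e (nat_lit 573485) (nat_lit 13) (.e (nat_lit 65604) (nat_lit 9) (.e (nat_lit 336013) (nat_lit 2) (.e (nat_lit 90165) (nat_lit 12) (.e (nat_lit 171776) (nat_lit 187) .nil))))))) (.g (nat_lit 5) .nil .nil)))) (.nd (nat_lit 6) 
(.lf (nat_lit 68522) (.g (nat_lit 849) (.e (nat_lit 1642) (nat_lit 114) (.e (nat_lit 385105) (nat_lit 50) (.e (nat_lit 786450) (nat_lit 15) .nil))) .nil)) 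
(.lf (nat_lit 68586) (.g (nat_lit 1290) (.e (nat_lit 1646) (nat_lit 115) (.e (nat_lit 393293) (nat_lit 26) (.e (nat_lit 475198) (nat_lit 40) (.e (nat_lit 704595) (nat_lit 5) .nil)))) .nil)))) (.nd (nat_lit 5) (.nd (nat_lit 6) 
(.lf (nat_lit 68506) (.g (nat_lit 2597) (.e (nat_lit 1642) (nat_lit 114) (.e (nat_lit 385094) (nat_lit 49) (.e (nat_lit 778317) (nat_lit 3) (.e (nat_lit 57477) (nat_lit 28) (.e (nat_lit 557108) (nat_lit 15) (.e (nat_lit 188458) (nat_lit 25) (.e (nat_lit 245781) (nat_lit 9) .nil))))))) (.g (nat_lit 4) .nil .nil))) 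
(.lf (nat_lit 68570) (.g (nat_lit 749) (.e (nat_lit 7936) (nat_lit 114) (.e (nat_lit 385105) (nat_lit 50) (.e (nat_lit 786450) (nat_lit 15) .nil))) .nil))) (.nd (nat_lit 6) 
(.lf (nat_lit 68538) (.g (nat_lit 3614) (.e (nat_lit 1644) (nat_lit 114) (.e (nat_lit 385074) (nat_lit 31) (.e (nat_lit 573485) (nat_lit 13) (.e (nat_lit 65604) (nat_lit 9) (.e (nat_lit 336028) (nat_lit 3) (.e (nat_lit 98325) (nat_lit 17) (.e (nat_lit 7936) (nat_lit 402) .nil))))))) (.g (nat_lit 6) .nil .nil))) 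
(.lf (nat_lit 68602) (.g (nat_lit 1529) (.e (nat_lit 1646) (nat_lit 115) (.e (nat_lit 393300) (nat_lit 27) (.e (nat_lit 491568) (nat_lit 13) (.e (nat_lit 393238) (nat_lit 17) .nil)))) .nil)))))) (.nd (nat_lit 3) (.nd (nat_lit 4) (.nd (nat_lit 5) (.nd (nat_lit 6) 
(.lf (nat_lit 68486) (.g (nat_lit 5371) (.e (nat_lit 1642) (nat_lit 114) (.e (nat_lit 385093) (nat_lit 49) (.e (nat_lit 778317) (nat_lit 3) (.e (nat_lit 57480) (nat_lit 28) (.e (nat_lit 557109) (nat_lit 15) (.e (nat_lit 188449) (nat_lit 22) (.e (nat_lit 196617) (nat_lit 9) .nil))))))) (.g (nat_lit 7) .nil .nil))) 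
(.lf (nat_lit 68550) (.g (nat_lit 2282) (.e (nat_lit 1645) (nat_lit 114) (.e (nat_lit 385068) (nat_lit 26) (.e (nat_lit 532530) (nat_lit 9) (.e (nat_lit 336326) (nat_lit 18) .nil)))) .nil))) (.nd (nat_lit 6) 
(.lf (nat_lit 68518) (.g (nat_lit 4131) (.e (nat_lit 1642) (nat_lit 114) (.e (nat_lit 385094) (nat_lit 49) (.e (nat_lit 778318) (nat_lit 3) (.e (nat_lit 57476) (nat_lit 28) (.e (nat_lit 557097) (nat_lit 13) (.e (nat_lit 172097) (nat_lit 9) (.e (nat_lit 426125) (nat_lit 2) (.e (nat_lit 196630) (nat_lit 9) .nil)))))))) (.g (nat_lit 5) .nil .nil))) 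
(.lf (nat_lit 68582) (.g (nat_lit 621) (.e (nat_lit 1646) (nat_lit 115) (.e (nat_lit 393273) (nat_lit 23) (.e (nat_lit 426364) (nat_lit 15) .nil))) .nil)))) (.nd (nat_lit 5) (.nd (nat_lit 6) 
(.lf (nat_lit 68502) (.g (nat_lit 2887) (.e (nat_lit 1642) (nat_lit 114) (.e (nat_lit 385094) (nat_lit 49) (.e (nat_lit 778317) (nat_lit 3) (.e (nat_lit 57476) (nat_lit 28) (.e (nat_lit 557108) (nat_lit 15) (.e (nat_lit 188458) (nat_lit 25) (.e (nat_lit 245781) (nat_lit 9) .nil))))))) (.g (nat_lit 4) .nil .nil))) 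
(.lf (nat_lit 68566) (.g (nat_lit 2229) (.e (nat_lit 1645) (nat_lit 114) (.e (nat_lit 385105) (nat_lit 50) (.e (nat_lit 786473) (nat_lit 27) (.e (nat_lit 336420) (nat_lit 28) .nil)))) .nil))) (.nd (nat_lit 6) 
(.lf (nat_lit 68534) (.g (nat_lit 2700) (.e (nat_lit 1643) (nat_lit 114) (.e (nat_lit 385094) (nat_lit 49) (.e (nat_lit 778318) (nat_lit 3) (.e (nat_lit 57476) (nat_lit 28) (.e (nat_lit 557107) (nat_lit 15) (.e (nat_lit 188447) (nat_lit 22) (.e (nat_lit 196628) (nat_lit 9) .nil))))))) (.g (nat_lit 4) .nil .nil))) 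
(.lf (nat_lit 68598) (.g (nat_lit 2334) (.e (nat_lit 1646) (nat_lit 115) (.e (nat_lit 393299) (nat_lit 27) (.e (nat_lit 491570) (nat_lit 13) (.e (nat_lit 393238) (nat_lit 17) (.e (nat_lit 7501) (nat_lit 402) .nil))))) .nil))))) (.nd (nat_lit 4) (.nd (nat_lit 5) (.nd (nat_lit 6) 
(.lf (nat_lit 68494) (.g (nat_lit 4324) (.e (nat_lit 1642) (nat_lit 114) (.e (nat_lit 385093) (nat_lit 49) (.e (nat_lit 778318) (nat_lit 3) (.e (nat_lit 57476) (nat_lit 28) (.e (nat_lit 557108) (nat_lit 15) (.e (nat_lit 188449) (nat_lit 22) (.e (nat_lit 196630) (nat_lit 9) .nil))))))) (.g (nat_lit 6) .nil .nil))) 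
(.lf (nat_lit 68558) (.g (nat_lit 2249) (.e (nat_lit 1645) (nat_lit 114) (.e (nat_lit 385093) (nat_lit 49) (.e (nat_lit 778320) (nat_lit 4) (.e (nat_lit 65630) (nat_lit 14) (.e (nat_lit 401454) (nat_lit 12) .nil))))) .nil))) (.nd (nat_lit 6) 
(.lf (nat_lit 68526) (.g (nat_lit 914) (.e (nat_lit 1643) (nat_lit 114) (.e (nat_lit 385068) (nat_lit 26) (.e (nat_lit 532534) (nat_lit 9) .nil))) .nil)) 
(.lf (nat_lit 68590) (.g (nat_lit 808) (.e (nat_lit 1646) (nat_lit 115) (.e (nat_lit 393296) (nat_lit 26) (.e (nat_lit 475198) (nat_lit 40) .nil))) .nil)))) (.nd (nat_lit 5) (.nd (nat_lit 6) 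
(.lf (nat_lit 68510) (.g (nat_lit 4160) (.e (nat_lit 1642) (nat_lit 114) (.e (nat_lit 385094) (nat_lit 49) (.e (nat_lit 778317) (nat_lit 3) (.e (nat_lit 57480) (nat_lit 28) (.e (nat_lit 557107) (nat_lit 15) (.e (nat_lit 188447) (nat_lit 22) (.e (nat_lit 196630) (nat_lit 9) .nil))))))) (.g (nat_lit 6) .nil .nil))) 
(.lf (nat_lit 68574) (.g (nat_lit 1693) (.e (nat_lit 1646) (nat_lit 115) (.e (nat_lit 393225) (nat_lit 9) (.e (nat_lit 336204) (nat_lit 12) (.e (nat_lit 385066) (nat_lit 26) .nil)))) .nil))) (.nd (nat_lit 6) 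
(.lf (nat_lit 68542) (.g (nat_lit 3029) (.e (nat_lit 1644) (nat_lit 114) (.e (nat_lit 385074) (nat_lit 31) (.e (nat_lit 573493) (nat_lit 15) (.e (nat_lit 81956) (nat_lit 23) (.e (nat_lit 98321) (nat_lit 17) .nil))))) .nil)) 
(.lf (nat_lit 68606) (.g (nat_lit 1547) (.e (nat_lit 1647) (nat_lit 115) (.e (nat_lit 393273) (nat_lit 23) (.e (nat_lit 426364) (nat_lit 15) (.e (nat_lit 2160) (nat_lit 143) (.e (nat_lit 712747) (nat_lit 28) .nil))))) .nil)))))))) (.nd (nat_lit 1) (.nd (nat_lit 2) (.nd (nat_lit 3) (.nd (nat_lit 4) (.nd (nat_lit 5) (.nd (nat_lit 6) 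
(.lf (nat_lit 68481) (.g (nat_lit 5536) (.e (nat_lit 1642) (nat_lit 114) (.e (nat_lit 385093) (nat_lit 49) (.e (nat_lit 778317) (nat_lit 3) (.e (nat_lit 57477) (nat_lit 28) (.e (nat_lit 557108) (nat_lit 15) (.e (nat_lit 188449) (nat_lit 22) (.e (nat_lit 196626) (nat_lit 9) .nil))))))) (.g (nat_lit 0) .nil .nil))) 
(.lf (nat_lit 68545) (.g (nat_lit 2178) (.e (nat_lit 1644) (nat_lit 114) (.e (nat_lit 385093) (nat_lit 49) (.e (nat_lit 778317) (nat_lit 3) (.e (nat_lit 57477) (nat_lit 28) (.e (nat_lit 557108) (nat_lit 15) .nil))))) .nil))) (.nd (nat_lit 6) 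
(.lf (nat_lit 68513) (.g (nat_lit 6405) (.e (nat_lit 1642) (nat_lit 114) (.e (nat_lit 385094) (nat_lit 49) (.e (nat_lit 778317) (nat_lit 3) (.e (nat_lit 57480) (nat_lit 28) (.e (nat_lit 557109) (nat_lit 15) (.e (nat_lit 188449) (nat_lit 22) (.e (nat_lit 196626) (nat_lit 9) .nil))))))) (.g (nat_lit 7) .nil .nil))) 
(.lf (nat_lit 68577) (.g (nat_lit 2175) (.e (nat_lit 1646) (nat_lit 115) (.e (nat_lit 393229) (nat_lit 9) (.e (nat_lit 336088) (nat_lit 9) (.e (nat_lit 336019) (nat_lit 3) (.e (nat_lit 98334) (nat_lit 18) .nil))))) .nil)))) (.nd (nat_lit 5) (.nd (nat_lit 6) 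
(.lf (nat_lit 68497) (.g (nat_lit 3790) (.e (nat_lit 1642) (nat_lit 114) (.e (nat_lit 385094) (nat_lit 49) (.e (nat_lit 778317) (nat_lit 3) (.e (nat_lit 57476) (nat_lit 28) (.e (nat_lit 557107) (nat_lit 15) (.e (nat_lit 188447) (nat_lit 22) (.e (nat_lit 196630) (nat_lit 9) .nil))))))) (.g (nat_lit 6) .nil .nil))) 
(.lf (nat_lit 68561) (.g (nat_lit 2127) (.e (nat_lit 1645) (nat_lit 114) (.e (nat_lit 385094) (nat_lit 49) (.e (nat_lit 778317) (nat_lit 3) (.e (nat_lit 57477) (nat_lit 28) .nil)))) .nil))) (.nd (nat_lit 6) 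
(.lf (nat_lit 68529) (.g (nat_lit 2764) (.e (nat_lit 1643) (nat_lit 114) (.e (nat_lit 385074) (nat_lit 31) (.e (nat_lit 573485) (nat_lit 13) (.e (nat_lit 65619) (nat_lit 10) (.e (nat_lit 344117) (nat_lit 21) (.e (nat_lit 516097) (nat_lit 0) (.e (nat_lit 7502) (nat_lit 402) .nil))))))) (.g (nat_lit 4) .nil .nil))) 
(.lf (nat_lit 68593) (.g (nat_lit 1396) (.e (nat_lit 1646) (nat_lit 115) (.e (nat_lit 393296) (nat_lit 26) (.e (nat_lit 475207) (nat_lit 41) (.e (nat_lit 712749) (nat_lit 28) .nil)))) .nil))))) (.nd (nat_lit 4) (.nd (nat_lit 5) (.nd (nat_lit 6) 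
(.lf (nat_lit 68489) (.g (nat_lit 3210) (.e (nat_lit 1642) (nat_lit 114) (.e (nat_lit 385093) (nat_lit 49) (.e (nat_lit 778317) (nat_lit 3) (.e (nat_lit 57480) (nat_lit 28) (.e (nat_lit 557109) (nat_lit 15) (.e (nat_lit 188449) (nat_lit 22) (.e (nat_lit 204544) (nat_lit 9) .nil))))))) (.g (nat_lit 6) .nil .nil))) 
(.lf (nat_lit 68553) (.g (nat_lit 1452) (.e (nat_lit 1645) (nat_lit 114) (.e (nat_lit 385074) (nat_lit 31) (.e (nat_lit 573482) (nat_lit 13) (.e (nat_lit 65619) (nat_lit 10) .nil)))) .nil))) (.nd (nat_lit 6) 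
(.lf (nat_lit 68521) (.g (nat_lit 737) (.e (nat_lit 1642) (nat_lit 114) (.e (nat_lit 385094) (nat_lit 49) (.e (nat_lit 778323) (nat_lit 5) .nil))) .nil)) 
(.lf (nat_lit 68585) (.g (nat_lit 898) (.e (nat_lit 1646) (nat_lit 115) (.e (nat_lit 393291) (nat_lit 26) (.e (nat_lit 475211) (nat_lit 41) .nil))) .nil)))) (.nd (nat_lit 5) (.nd (nat_lit 6) 
(.lf (nat_lit 68505) (.g (nat_lit 3744) (.e (nat_lit 1642) (nat_lit 114) (.e (nat_lit 385094) (nat_lit 49) (.e (nat_lit 778317) (nat_lit 3) (.e (nat_lit 57477) (nat_lit 28) (.e (nat_lit 557108) (nat_lit 15) (.e (nat_lit 188449) (nat_lit 22) (.e (nat_lit 204544) (nat_lit 9) .nil))))))) (.g (nat_lit 6) .nil .nil))) 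
(.lf (nat_lit 68569) (.g (nat_lit 1862) (.e (nat_lit 7936) (nat_lit 114) (.e (nat_lit 385094) (nat_lit 49) (.e (nat_lit 778318) (nat_lit 3) (.e (nat_lit 57476) (nat_lit 28) .nil)))) .nil))) (.nd (nat_lit 6) 
(.lf (nat_lit 68537) (.g (nat_lit 3614) (.e (nat_lit 1644) (nat_lit 114) (.e (nat_lit 385074) (nat_lit 31) (.e (nat_lit 573485) (nat_lit 13) (.e (nat_lit 65604) (nat_lit 9) (.e (nat_lit 336013) (nat_lit 2) (.e (nat_lit 90165) (nat_lit 12) (.e (nat_lit 171776) (nat_lit 187) .nil))))))) (.g (nat_lit 6) .nil .nil))) 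
(.lf (nat_lit 68601) (.g (nat_lit 1923) (.e (nat_lit 1646) (nat_lit 115) (.e (nat_lit 393300) (nat_lit 27) (.e (nat_lit 491549) (nat_lit 9) (.e (nat_lit 336421) (nat_lit 28) .nil)))) .nil)))))) (.nd (nat_lit 3) (.nd (nat_lit 4) (.nd (nat_lit 5) (.nd (nat_lit 6) 
(.lf (nat_lit 68485) (.g (nat_lit 3797) (.e (nat_lit 1642) (nat_lit 114) (.e (nat_lit 385093) (nat_lit 49) (.e (nat_lit 778317) (nat_lit 3) (.e (nat_lit 57480) (nat_lit 28) (.e (nat_lit 557107) (nat_lit 15) (.e (nat_lit 188447) (nat_lit 22) (.e (nat_lit 196630) (nat_lit 9) .nil))))))) (.g (nat_lit 6) .nil .nil))) 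
(.lf (nat_lit 68549) (.g (nat_lit 843) (.e (nat_lit 1645) (nat_lit 114) (.e (nat_lit 385068) (nat_lit 26) (.e (nat_lit 532530) (nat_lit 9) .nil))) .nil))) (.nd (nat_lit 6) 
(.lf (nat_lit 68517) (.g (nat_lit 730) (.e (nat_lit 1642) (nat_lit 114) (.e (nat_lit 385094) (nat_lit 49) (.e (nat_lit 778318) (nat_lit 3) .nil))) .nil)) 
(.lf (nat_lit 68581) (.g (nat_lit 995) (.e (nat_lit 1646) (nat_lit 115) (.e (nat_lit 393270) (nat_lit 23) (.e (nat_lit 426444) (nat_lit 19) (.e (nat_lit 114432) (nat_lit 5) .nil)))) .nil)))) (.nd (nat_lit 5) (.nd (nat_lit 6) 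
(.lf (nat_lit 68501) (.g (nat_lit 4074) (.e (nat_lit 1642) (nat_lit 114) (.e (nat_lit 385094) (nat_lit 49) (.e (nat_lit 778317) (nat_lit 3) (.e (nat_lit 57476) (nat_lit 28) (.e (nat_lit 557108) (nat_lit 15) (.e (nat_lit 188449) (nat_lit 22) (.e (nat_lit 204544) (nat_lit 9) .nil))))))) (.g (nat_lit 6) .nil .nil))) 
(.lf (nat_lit 68565) (.g (nat_lit 649) (.e (nat_lit 1645) (nat_lit 114) (.e (nat_lit 385094) (nat_lit 49) (.e (nat_lit 778323) (nat_lit 5) .nil))) .nil))) (.nd (nat_lit 6) 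
(.lf (nat_lit 68533) (.g (nat_lit 3660) (.e (nat_lit 1643) (nat_lit 114) (.e (nat_lit 385094) (nat_lit 49) (.e (nat_lit 778317) (nat_lit 3) (.e (nat_lit 57477) (nat_lit 28) (.e (nat_lit 557108) (nat_lit 15) (.e (nat_lit 188449) (nat_lit 22) (.e (nat_lit 196628) (nat_lit 9) .nil))))))) (.g (nat_lit 6) .nil .nil))) 
(.lf (nat_lit 68597) (.g (nat_lit 780) (.e (nat_lit 1646) (nat_lit 115) (.e (nat_lit 393298) (nat_lit 27) (.e (nat_lit 491571) (nat_lit 13) .nil))) .nil))))) (.nd (nat_lit 4) (.nd (nat_lit 5) (.nd (nat_lit 6) 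
(.lf (nat_lit 68493) (.g (nat_lit 5730) (.e (nat_lit 1642) (nat_lit 114) (.e (nat_lit 385093) (nat_lit 49) (.e (nat_lit 778318) (nat_lit 3) (.e (nat_lit 57476) (nat_lit 28) (.e (nat_lit 557108) (nat_lit 15) (.e (nat_lit 188449) (nat_lit 22) (.e (nat_lit 196626) (nat_lit 9) .nil))))))) (.g (nat_lit 6) .nil .nil))) 
(.lf (nat_lit 68557) (.g (nat_lit 2073) (.e (nat_lit 1645) (nat_lit 114) (.e (nat_lit 385093) (nat_lit 49) (.e (nat_lit 778317) (nat_lit 3) (.e (nat_lit 57480) (nat_lit 28) (.e (nat_lit 557109) (nat_lit 15) (.e (nat_lit 188449) (nat_lit 22) (.e (nat_lit 204544) (nat_lit 9) .nil))))))) (.g (nat_lit 4) .nil .nil)))) (.nd (nat_lit 6) 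
(.lf (nat_lit 68525) (.g (nat_lit 3004) (.e (nat_lit 1643) (nat_lit 114) (.e (nat_lit 385068) (nat_lit 26) (.e (nat_lit 532530) (nat_lit 9) (.e (nat_lit 336326) (nat_lit 18) (.e (nat_lit 204880) (nat_lit 32) .nil))))) .nil)) 
(.lf (nat_lit 68589) (.g (nat_lit 851) (.e (nat_lit 1646) (nat_lit 115) (.e (nat_lit 393296) (nat_lit 26) (.e (nat_lit 475197) (nat_lit 40) .nil))) .nil)))) (.nd (nat_lit 5) (.nd (nat_lit 6) 
(.lf (nat_lit 68509) (.g (nat_lit 4907) (.e (nat_lit 1642) (nat_lit 114) (.e (nat_lit 385094) (nat_lit 49) (.e (nat_lit 778317) (nat_lit 3) (.e (nat_lit 57480) (nat_lit 28) (.e (nat_lit 557098) (nat_lit 13) (.e (nat_lit 172097) (nat_lit 9) (.e (nat_lit 426125) (nat_lit 2) (.e (nat_lit 196630) (nat_lit 9) .nil)))))))) (.g (nat_lit 7) .nil .nil))) 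
(.lf (nat_lit 68573) (.g (nat_lit 1575) (.e (nat_lit 1646) (nat_lit 115) (.e (nat_lit 393225) (nat_lit 9) (.e (nat_lit 336194) (nat_lit 12) (.e (nat_lit 385066) (nat_lit 26) .nil)))) .nil))) (.nd (nat_lit 6) 
(.lf (nat_lit 68541) (.g (nat_lit 2157) (.e (nat_lit 1644) (nat_lit 114) (.e (nat_lit 385074) (nat_lit 31) (.e (nat_lit 573493) (nat_lit 15) (.e (nat_lit 81954) (nat_lit 23) .nil)))) .nil)) 
(.lf (nat_lit 68605) (.g (nat_lit 1209) (.e (nat_lit 1647) (nat_lit 115) (.e (nat_lit 393268) (nat_lit 23) (.e (nat_lit 426444) (nat_lit 19) .nil))) .nil))))))) (.nd (nat_lit 2) (.nd (nat_lit 3) (.nd (nat_lit 4) (.nd (nat_lit 5) (.nd (nat_lit 6) 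
(.lf (nat_lit 68483) (.g (nat_lit 2183) (.e (nat_lit 1642) (nat_lit 114) (.e (nat_lit 385093) (nat_lit 49) (.e (nat_lit 778317) (nat_lit 3) (.e (nat_lit 57477) (nat_lit 28) (.e (nat_lit 557108) (nat_lit 15) (.e (nat_lit 188458) (nat_lit 25) (.e (nat_lit 245781) (nat_lit 9) .nil))))))) (.g (nat_lit 4) .nil .nil))) 
(.lf (nat_lit 68547) (.g (nat_lit 2249) (.e (nat_lit 1644) (nat_lit 114) (.e (nat_lit 385093) (nat_lit 49) (.e (nat_lit 778320) (nat_lit 4) (.e (nat_lit 65630) (nat_lit 14) (.e (nat_lit 401454) (nat_lit 12) .nil))))) .nil))) (.nd (nat_lit 6) 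
(.lf (nat_lit 68515) (.g (nat_lit 3792) (.e (nat_lit 1642) (nat_lit 114) (.e (nat_lit 385094) (nat_lit 49) (.e (nat_lit 778317) (nat_lit 3) (.e (nat_lit 57480) (nat_lit 28) (.e (nat_lit 557109) (nat_lit 15) (.e (nat_lit 188449) (nat_lit 22) (.e (nat_lit 204544) (nat_lit 9) .nil))))))) (.g (nat_lit 6) .nil .nil))) 
(.lf (nat_lit 68579) (.g (nat_lit 1638) (.e (nat_lit 1646) (nat_lit 115) (.e (nat_lit 393229) (nat_lit 9) (.e (nat_lit 336186) (nat_lit 11) (.e (nat_lit 368676) (nat_lit 21) (.e (nat_lit 516117) (nat_lit 1) .nil))))) .nil)))) (.nd (nat_lit 5) (.nd (nat_lit 6) 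
(.lf (nat_lit 68499) (.g (nat_lit 5608) (.e (nat_lit 1642) (nat_lit 114) (.e (nat_lit 385094) (nat_lit 49) (.e (nat_lit 778317) (nat_lit 3) (.e (nat_lit 57476) (nat_lit 28) (.e (nat_lit 557108) (nat_lit 15) (.e (nat_lit 188449) (nat_lit 22) (.e (nat_lit 196617) (nat_lit 9) .nil))))))) (.g (nat_lit 6) .nil .nil))) 
(.lf (nat_lit 68563) (.g (nat_lit 2307) (.e (nat_lit 1645) (nat_lit 114) (.e (nat_lit 385094) (nat_lit 49) (.e (nat_lit 778317) (nat_lit 3) (.e (nat_lit 57479) (nat_lit 28) .nil)))) .nil))) (.nd (nat_lit 6) 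
(.lf (nat_lit 68531) (.g (nat_lit 2052) (.e (nat_lit 1643) (nat_lit 114) (.e (nat_lit 385093) (nat_lit 49) (.e (nat_lit 778317) (nat_lit 3) (.e (nat_lit 57479) (nat_lit 28) (.e (nat_lit 557101) (nat_lit 13) (.e (nat_lit 172115) (nat_lit 10) (.e (nat_lit 434219) (nat_lit 19) (.e (nat_lit 499965) (nat_lit 14) .nil)))))))) (.g (nat_lit 4) .nil .nil))) 
(.lf (nat_lit 68595) (.g (nat_lit 851) (.e (nat_lit 1646) (nat_lit 115) (.e (nat_lit 393296) (nat_lit 26) (.e (nat_lit 475209) (nat_lit 41) .nil))) .nil))))) (.nd (nat_lit 4) (.nd (nat_lit 5) (.nd (nat_lit 6) 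
(.lf (nat_lit 68491) (.g (nat_lit 3671) (.e (nat_lit 1642) (nat_lit 114) (.e (nat_lit 385093) (nat_lit 49) (.e (nat_lit 778318) (nat_lit 3) (.e (nat_lit 57476) (nat_lit 28) (.e (nat_lit 557107) (nat_lit 15) (.e (nat_lit 188447) (nat_lit 22) (.e (nat_lit 196630) (nat_lit 9) .nil))))))) (.g (nat_lit 5) .nil .nil))) 
(.lf (nat_lit 68555) (.g (nat_lit 3414) (.e (nat_lit 1645) (nat_lit 114) (.e (nat_lit 385074) (nat_lit 31) (.e (nat_lit 573485) (nat_lit 13) (.e (nat_lit 65604) (nat_lit 9) (.e (nat_lit 336028) (nat_lit 3) (.e (nat_lit 98325) (nat_lit 17) (.e (nat_lit 7936) (nat_lit 402) .nil))))))) (.g (nat_lit 5) .nil .nil)))) (.nd (nat_lit 6) 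
(.lf (nat_lit 68523) (.g (nat_lit 1841) (.e (nat_lit 1642) (nat_lit 114) (.e (nat_lit 385105) (nat_lit 50) (.e (nat_lit 786483) (nat_lit 30) (.e (nat_lit 360484) (nat_lit 15) (.e (nat_lit 655104) (nat_lit 15) (.e (nat_lit 57876) (nat_lit 270) .nil)))))) (.g (nat_lit 4) .nil .nil))) 
(.lf (nat_lit 68587) (.g (nat_lit 1445) (.e (nat_lit 1646) (nat_lit 115) (.e (nat_lit 393294) (nat_lit 26) (.e (nat_lit 475199) (nat_lit 40) (.e (nat_lit 704595) (nat_lit 5) .nil)))) .nil)))) (.nd (nat_lit 5) (.nd (nat_lit 6) 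
(.lf (nat_lit 68507) (.g (nat_lit 3714) (.e (nat_lit 1642) (nat_lit 114) (.e (nat_lit 385094) (nat_lit 49) (.e (nat_lit 778317) (nat_lit 3) (.e (nat_lit 57479) (nat_lit 28) (.e (nat_lit 557095) (nat_lit 13) .nil))))) .nil)) 
(.lf (nat_lit 68571) (.g (nat_lit 1517) (.e (nat_lit 1646) (nat_lit 115) (.e (nat_lit 393225) (nat_lit 9) (.e (nat_lit 336087) (nat_lit 9) (.e (nat_lit 336019) (nat_lit 3) .nil)))) .nil))) (.nd (nat_lit 6) 
(.lf (nat_lit 68539) (.g (nat_lit 3903) (.e (nat_lit 1644) (nat_lit 114) (.e (nat_lit 385074) (nat_lit 31) (.e (nat_lit 573485) (nat_lit 13) (.e (nat_lit 65619) (nat_lit 10) (.e (nat_lit 344117) (nat_lit 21) (.e (nat_lit 516106) (nat_lit 0) (.e (nat_lit 7936) (nat_lit 402) .nil))))))) (.g (nat_lit 6) .nil .nil))) 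
(.lf (nat_lit 68603) (.g (nat_lit 2865) (.e (nat_lit 1646) (nat_lit 115) (.e (nat_lit 393300) (nat_lit 27) (.e (nat_lit 491570) (nat_lit 13) (.e (nat_lit 393238) (nat_lit 17) (.e (nat_lit 7501) (nat_lit 402) .nil))))) .nil)))))) (.nd (nat_lit 3) (.nd (nat_lit 4) (.nd (nat_lit 5) (.nd (nat_lit 6) 
(.lf (nat_lit 68487) (.g (nat_lit 6077) (.e (nat_lit 1642) (nat_lit 114) (.e (nat_lit 385093) (nat_lit 49) (.e (nat_lit 778317) (nat_lit 3) (.e (nat_lit 57480) (nat_lit 28) (.e (nat_lit 557109) (nat_lit 15) (.e (nat_lit 188449) (nat_lit 22) (.e (nat_lit 196626) (nat_lit 9) .nil))))))) (.g (nat_lit 7) .nil .nil))) 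
(.lf (nat_lit 68551) (.g (nat_lit 1599) (.e (nat_lit 1645) (nat_lit 114) (.e (nat_lit 385068) (nat_lit 26) (.e (nat_lit 532560) (nat_lit 14) (.e (nat_lit 376842) (nat_lit 11) .nil)))) .nil))) (.nd (nat_lit 6) 
(.lf (nat_lit 68519) (.g (nat_lit 4010) (.e (nat_lit 1642) (nat_lit 114) (.e (nat_lit 385094) (nat_lit 49) (.e (nat_lit 778318) (nat_lit 3) (.e (nat_lit 57476) (nat_lit 28) (.e (nat_lit 557108) (nat_lit 15) (.e (nat_lit 188449) (nat_lit 22) (.e (nat_lit 196630) (nat_lit 9) .nil))))))) (.g (nat_lit 5) .nil .nil))) 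
(.lf (nat_lit 68583) (.g (nat_lit 623) (.e (nat_lit 1646) (nat_lit 115) (.e (nat_lit 393273) (nat_lit 23) (.e (nat_lit 426444) (nat_lit 19) .nil))) .nil)))) (.nd (nat_lit 5) (.nd (nat_lit 6) 
(.lf (nat_lit 68503) (.g (nat_lit 5318) (.e (nat_lit 1642) (nat_lit 114) (.e (nat_lit 385094) (nat_lit 49) (.e (nat_lit 778317) (nat_lit 3) (.e (nat_lit 57477) (nat_lit 28) (.e (nat_lit 557108) (nat_lit 15) (.e (nat_lit 188449) (nat_lit 22) (.e (nat_lit 196617) (nat_lit 9) .nil))))))) (.g (nat_lit 6) .nil .nil))) 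
(.lf (nat_lit 68567) (.g (nat_lit 1451) (.e (nat_lit 7936) (nat_lit 114) (.e (nat_lit 385094) (nat_lit 49) (.e (nat_lit 778317) (nat_lit 3) (.e (nat_lit 57477) (nat_lit 28) .nil)))) .nil))) (.nd (nat_lit 6) 
(.lf (nat_lit 68535) (.g (nat_lit 3811) (.e (nat_lit 1643) (nat_lit 114) (.e (nat_lit 385094) (nat_lit 49) (.e (nat_lit 778318) (nat_lit 3) (.e (nat_lit 57476) (nat_lit 28) (.e (nat_lit 557108) (nat_lit 15) (.e (nat_lit 188449) (nat_lit 22) (.e (nat_lit 196628) (nat_lit 9) .nil))))))) (.g (nat_lit 5) .nil .nil))) 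
(.lf (nat_lit 68599) (.g (nat_lit 778) (.e (nat_lit 1646) (nat_lit 115) (.e (nat_lit 393300) (nat_lit 27) (.e (nat_lit 491547) (nat_lit 9) .nil))) .nil))))) (.nd (nat_lit 4) (.nd (nat_lit 5) (.nd (nat_lit 6) 
(.lf (nat_lit 68495) (.g (nat_lit 3412) (.e (nat_lit 1642) (nat_lit 114) (.e (nat_lit 385093) (nat_lit 49) (.e (nat_lit 778318) (nat_lit 3) (.e (nat_lit 57476) (nat_lit 28) (.e (nat_lit 557108) (nat_lit 15) (.e (nat_lit 188449) (nat_lit 22) (.e (nat_lit 204544) (nat_lit 9) .nil))))))) (.g (nat_lit 5) .nil .nil))) 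
(.lf (nat_lit 68559) (.g (nat_lit 1876) (.e (nat_lit 1645) (nat_lit 114) (.e (nat_lit 385094) (nat_lit 49) (.e (nat_lit 778317) (nat_lit 3) (.e (nat_lit 57476) (nat_lit 28) .nil)))) .nil))) (.nd (nat_lit 6) 
(.lf (nat_lit 68527) (.g (nat_lit 2146) (.e (nat_lit 1643) (nat_lit 114) (.e (nat_lit 385068) (nat_lit 26) (.e (nat_lit 532534) (nat_lit 9) (.e (nat_lit 336324) (nat_lit 18) (.e (nat_lit 204880) (nat_lit 32) (.e (nat_lit 385057) (nat_lit 22) (.e (nat_lit 499966) (nat_lit 14) .nil))))))) (.g (nat_lit 4) .nil .nil))) 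
(.lf (nat_lit 68591) (.g (nat_lit 1585) (.e (nat_lit 1646) (nat_lit 115) (.e (nat_lit 393296) (nat_lit 26) (.e (nat_lit 475198) (nat_lit 40) (.e (nat_lit 704595) (nat_lit 5) .nil)))) .nil)))) (.nd (nat_lit 5) (.nd (nat_lit 6) 
(.lf (nat_lit 68511) (.g (nat_lit 4138) (.e (nat_lit 1642) (nat_lit 114) (.e (nat_lit 385094) (nat_lit 49) (.e (nat_lit 778317) (nat_lit 3) (.e (nat_lit 57480) (nat_lit 28) (.e (nat_lit 557109) (nat_lit 15) (.e (nat_lit 188447) (nat_lit 22) (.e (nat_lit 196630) (nat_lit 9) .nil))))))) (.g (nat_lit 5) .nil .nil))) 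
(.lf (nat_lit 68575) (.g (nat_lit 2347) (.e (nat_lit 1646) (nat_lit 115) (.e (nat_lit 393225) (nat_lit 9) (.e (nat_lit 336204) (nat_lit 12) (.e (nat_lit 385074) (nat_lit 31) (.e (nat_lit 573473) (nat_lit 12) .nil))))) .nil))) (.nd (nat_lit 6) 
(.lf (nat_lit 68543) (.g (nat_lit 3205) (.e (nat_lit 1644) (nat_lit 114) (.e (nat_lit 385074) (nat_lit 31) (.e (nat_lit 573493) (nat_lit 15) (.e (nat_lit 81956) (nat_lit 23) (.e (nat_lit 98325) (nat_lit 17) (.e (nat_lit 7936) (nat_lit 402) .nil)))))) (.g (nat_lit 4) .nil .nil))) 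
(.lf (nat_lit 68607) (.g (nat_lit 1451) (.e (nat_lit 1647) (nat_lit 115) (.e (nat_lit 393273) (nat_lit 23) (.e (nat_lit 426364) (nat_lit 15) (.e (nat_lit 2160) (nat_lit 143) (.e (nat_lit 712749) (nat_lit 28) .nil))))) .nil)))))))))

noncomputable def tv944 : DT := (.nd (nat_lit 0) (.nd (nat_lit 1) (.nd (nat_lit 2) (.nd (nat_lit 3) (.nd (nat_lit 4) (.nd (nat_lit 5) (.nd (nat_lit 6) 
(.lf (nat_lit 68608) (.g (nat_lit 642) (.e (nat_lit 1647) (nat_lit 115) (.e (nat_lit 393273) (nat_lit 23) (.e (nat_lit 426444) (nat_lit 19) .nil))) .nil)) 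
(.lf (nat_lit 68672) (.g (nat_lit 805) (.e (nat_lit 1648) (nat_lit 115) (.e (nat_lit 393296) (nat_lit 26) (.e (nat_lit 475196) (nat_lit 40) .nil))) .nil))) (.nd (nat_lit 6) 
(.lf (nat_lit 68640) (.g (nat_lit 1970) (.e (nat_lit 1648) (nat_lit 115) (.e (nat_lit 393273) (nat_lit 23) (.e (nat_lit 426364) (nat_lit 15) (.e (nat_lit 2160) (nat_lit 143) (.e (nat_lit 712749) (nat_lit 28) (.e (nat_lit 442112) (nat_lit 0) .nil)))))) (.g (nat_lit 5) .nil .nil))) 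
(.lf (nat_lit 68704) (.g (nat_lit 1599) (.e (nat_lit 1649) (nat_lit 115) (.e (nat_lit 393238) (nat_lit 17) (.e (nat_lit 6989) (nat_lit 377) (.e (nat_lit 2779) (nat_lit 178) .nil)))) .nil)))) (.nd (nat_lit 5) (.nd (nat_lit 6) 
(.lf (nat_lit 68624) (.g (nat_lit 2327) (.e (nat_lit 1647) (nat_lit 115) (.e (nat_lit 393298) (nat_lit 27) (.e (nat_lit 491571) (nat_lit 13) (.e (nat_lit 393242) (nat_lit 17) .nil)))) .nil)) 
(.lf (nat_lit 68688) (.g (nat_lit 1010) (.e (nat_lit 1648) (nat_lit 115) (.e (nat_lit 393299) (nat_lit 27) (.e (nat_lit 491568) (nat_lit 13) .nil))) .nil))) (.nd (nat_lit 6) 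
(.lf (nat_lit 68656) (.g (nat_lit 2052) (.e (nat_lit 1648) (nat_lit 115) (.e (nat_lit 393294) (nat_lit 26) (.e (nat_lit 475198) (nat_lit 40) (.e (nat_lit 704596) (nat_lit 5) (.e (nat_lit 188160) (nat_lit 32) .nil))))) (.g (nat_lit 4) .nil .nil))) 
(.lf (nat_lit 68720) (.g (nat_lit 1143) (.e (nat_lit 1649) (nat_lit 115) (.e (nat_lit 393293) (nat_lit 26) (.e (nat_lit 475198) (nat_lit 40) (.e (nat_lit 704596) (nat_lit 5) .nil)))) .nil))))) (.nd (nat_lit 4) (.nd (nat_lit 5) (.nd (nat_lit 6) 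
(.lf (nat_lit 68616) (.g (nat_lit 1577) (.e (nat_lit 1647) (nat_lit 115) (.e (nat_lit 393296) (nat_lit 26) (.e (nat_lit 475198) (nat_lit 40) (.e (nat_lit 704596) (nat_lit 5) .nil)))) .nil)) 
(.lf (nat_lit 68680) (.g (nat_lit 2531) (.e (nat_lit 1648) (nat_lit 115) (.e (nat_lit 393297) (nat_lit 27) (.e (nat_lit 491571) (nat_lit 13) (.e (nat_lit 393231) (nat_lit 17) (.e (nat_lit 7496) (nat_lit 402) .nil))))) (.g (nat_lit 0) .nil .nil)))) (.nd (nat_lit 6) 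
(.lf (nat_lit 68648) (.g (nat_lit 2431) (.e (nat_lit 1648) (nat_lit 115) (.e (nat_lit 393291) (nat_lit 26) (.e (nat_lit 475210) (nat_lit 41) (.e (nat_lit 712747) (nat_lit 28) (.e (nat_lit 442112) (nat_lit 0) .nil))))) (.g (nat_lit 4) .nil .nil))) 
(.lf (nat_lit 68712) (.g (nat_lit 1181) (.e (nat_lit 1649) (nat_lit 115) (.e (nat_lit 393268) (nat_lit 23) (.e (nat_lit 426444) (nat_lit 19) .nil))) .nil)))) (.nd (nat_lit 5) (.nd (nat_lit 6) 
(.lf (nat_lit 68632) (.g (nat_lit 3372) (.e (nat_lit 1648) (nat_lit 115) (.e (nat_lit 393253) (nat_lit 18) (.e (nat_lit 164189) (nat_lit 157) (.e (nat_lit 229409) (nat_lit 13) (.e (nat_lit 434232) (nat_lit 23) (.e (nat_lit 532501) (nat_lit 1) (.e (nat_lit 57730) (nat_lit 181) (.e (nat_lit 990) (nat_lit 81) .nil)))))))) (.g (nat_lit 8) .nil .nil))) 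
(.lf (nat_lit 68696) (.g (nat_lit 982) (.e (nat_lit 1648) (nat_lit 115) (.e (nat_lit 393301) (nat_lit 27) (.e (nat_lit 491568) (nat_lit 13) .nil))) .nil))) (.nd (nat_lit 6) 
(.lf (nat_lit 68664) (.g (nat_lit 1654) (.e (nat_lit 1648) (nat_lit 115) (.e (nat_lit 393294) (nat_lit 26) (.e (nat_lit 475210) (nat_lit 41) (.e (nat_lit 712749) (nat_lit 28) (.e (nat_lit 442112) (nat_lit 0) .nil))))) (.g (nat_lit 4) .nil .nil))) 
(.lf (nat_lit 68728) (.g (nat_lit 851) (.e (nat_lit 1649) (nat_lit 115) (.e (nat_lit 393296) (nat_lit 26) (.e (nat_lit 475208) (nat_lit 41) .nil))) .nil)))))) (.nd (nat_lit 3) (.nd (nat_lit 4) (.nd (nat_lit 5) (.nd (nat_lit 6) 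
(.lf (nat_lit 68612) (.g (nat_lit 1525) (.e (nat_lit 1647) (nat_lit 115) (.e (nat_lit 393295) (nat_lit 26) (.e (nat_lit 475199) (nat_lit 40) (.e (nat_lit 704595) (nat_lit 5) (.e (nat_lit 188160) (nat_lit 32) .nil))))) (.g (nat_lit 4) .nil .nil))) 
(.lf (nat_lit 68676) (.g (nat_lit 1129) (.e (nat_lit 1648) (nat_lit 115) (.e (nat_lit 393296) (nat_lit 26) (.e (nat_lit 475209) (nat_lit 41) (.e (nat_lit 712747) (nat_lit 28) (.e (nat_lit 442112) (nat_lit 0) .nil))))) (.g (nat_lit 4) .nil .nil)))) (.nd (nat_lit 6) 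
(.lf (nat_lit 68644) (.g (nat_lit 1003) (.e (nat_lit 1648) (nat_lit 115) (.e (nat_lit 393290) (nat_lit 26) (.e (nat_lit 475210) (nat_lit 41) (.e (nat_lit 712749) (nat_lit 28) .nil)))) .nil)) 
(.lf (nat_lit 68708) (.g (nat_lit 2073) (.e (nat_lit 1649) (nat_lit 115) (.e (nat_lit 393251) (nat_lit 18) (.e (nat_lit 164179) (nat_lit 154) (.e (nat_lit 57422) (nat_lit 13) .nil)))) .nil)))) (.nd (nat_lit 5) (.nd (nat_lit 6) 
(.lf (nat_lit 68628) (.g (nat_lit 1248) (.e (nat_lit 1648) (nat_lit 115) (.e (nat_lit 393251) (nat_lit 18) (.e (nat_lit 164190) (nat_lit 157) .nil))) .nil)) 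
(.lf (nat_lit 68692) (.g (nat_lit 1880) (.e (nat_lit 1648) (nat_lit 115) (.e (nat_lit 393300) (nat_lit 27) (.e (nat_lit 491549) (nat_lit 9) (.e (nat_lit 336421) (nat_lit 28) .nil)))) .nil))) (.nd (nat_lit 6) 
(.lf (nat_lit 68660) (.g (nat_lit 1274) (.e (nat_lit 1648) (nat_lit 115) (.e (nat_lit 393294) (nat_lit 26) (.e (nat_lit 475208) (nat_lit 41) (.e (nat_lit 712749) (nat_lit 28) (.e (nat_lit 442112) (nat_lit 0) .nil))))) (.g (nat_lit 4) .nil .nil))) 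
(.lf (nat_lit 68724) (.g (nat_lit 713) (.e (nat_lit 1649) (nat_lit 115) (.e (nat_lit 393295) (nat_lit 26) (.e (nat_lit 475199) (nat_lit 40) (.e (nat_lit 704596) (nat_lit 5) .nil)))) .nil))))) (.nd (nat_lit 4) (.nd (nat_lit 5) (.nd (nat_lit 6) 
(.lf (nat_lit 68620) (.g (nat_lit 758) (.e (nat_lit 1647) (nat_lit 115) (.e (nat_lit 393296) (nat_lit 26) (.e (nat_lit 475209) (nat_lit 41) .nil))) .nil)) 
(.lf (nat_lit 68684) (.g (nat_lit 611) (.e (nat_lit 1648) (nat_lit 115) (.e (nat_lit 393298) (nat_lit 27) (.e (nat_lit 491571) (nat_lit 13) .nil))) .nil))) (.nd (nat_lit 6) 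
(.lf (nat_lit 68652) (.g (nat_lit 1105) (.e (nat_lit 1648) (nat_lit 115) (.e (nat_lit 393293) (nat_lit 26) (.e (nat_lit 475198) (nat_lit 40) (.e (nat_lit 704596) (nat_lit 5) .nil)))) .nil)) 
(.lf (nat_lit 68716) (.g (nat_lit 876) (.e (nat_lit 1649) (nat_lit 115) (.e (nat_lit 393291) (nat_lit 26) (.e (nat_lit 475199) (nat_lit 40) .nil))) .nil)))) (.nd (nat_lit 5) (.nd (nat_lit 6) 
(.lf (nat_lit 68636) (.g (nat_lit 1276) (.e (nat_lit 1648) (nat_lit 115) (.e (nat_lit 393271) (nat_lit 23) (.e (nat_lit 426131) (nat_lit 3) .nil))) .nil)) 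
(.lf (nat_lit 68700) (.g (nat_lit 1576) (.e (nat_lit 1649) (nat_lit 115) (.e (nat_lit 393229) (nat_lit 9) (.e (nat_lit 336184) (nat_lit 11) (.e (nat_lit 368676) (nat_lit 21) (.e (nat_lit 516117) (nat_lit 1) .nil))))) .nil))) (.nd (nat_lit 6) 
(.lf (nat_lit 68668) (.g (nat_lit 1588) (.e (nat_lit 1648) (nat_lit 115) (.e (nat_lit 393295) (nat_lit 26) (.e (nat_lit 475199) (nat_lit 40) (.e (nat_lit 704595) (nat_lit 5) (.e (nat_lit 188160) (nat_lit 32) .nil))))) (.g (nat_lit 4) .nil .nil))) 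
(.lf (nat_lit 68732) (.g (nat_lit 770) (.e (nat_lit 1649) (nat_lit 115) (.e (nat_lit 393298) (nat_lit 27) (.e (nat_lit 491550) (nat_lit 9) .nil))) .nil))))))) (.nd (nat_lit 2) (.nd (nat_lit 3) (.nd (nat_lit 4) (.nd (nat_lit 5) (.nd (nat_lit 6) 
(.lf (nat_lit 68610) (.g (nat_lit 867) (.e (nat_lit 1647) (nat_lit 115) (.e (nat_lit 393294) (nat_lit 26) (.e (nat_lit 475198) (nat_lit 40) .nil))) .nil)) 
(.lf (nat_lit 68674) (.g (nat_lit 1243) (.e (nat_lit 1648) (nat_lit 115) (.e (nat_lit 393296) (nat_lit 26) (.e (nat_lit 475207) (nat_lit 41) (.e (nat_lit 712749) (nat_lit 28) (.e (nat_lit 442112) (nat_lit 0) .nil))))) (.g (nat_lit 4) .nil .nil)))) (.nd (nat_lit 6) 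
(.lf (nat_lit 68642) (.g (nat_lit 770) (.e (nat_lit 1648) (nat_lit 115) (.e (nat_lit 393287) (nat_lit 25) (.e (nat_lit 458774) (nat_lit 18) (.e (nat_lit 5548) (nat_lit 306) .nil)))) .nil)) 
(.lf (nat_lit 68706) (.g (nat_lit 2063) (.e (nat_lit 1649) (nat_lit 115) (.e (nat_lit 393251) (nat_lit 18) (.e (nat_lit 164179) (nat_lit 154) (.e (nat_lit 57420) (nat_lit 13) .nil)))) .nil)))) (.nd (nat_lit 5) (.nd (nat_lit 6) 
(.lf (nat_lit 68626) (.g (nat_lit 1897) (.e (nat_lit 1647) (nat_lit 115) (.e (nat_lit 393300) (nat_lit 27) (.e (nat_lit 491549) (nat_lit 9) (.e (nat_lit 336421) (nat_lit 28) .nil)))) .nil)) 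
(.lf (nat_lit 68690) (.g (nat_lit 2475) (.e (nat_lit 1648) (nat_lit 115) (.e (nat_lit 393299) (nat_lit 27) (.e (nat_lit 491570) (nat_lit 13) (.e (nat_lit 393238) (nat_lit 17) (.e (nat_lit 7501) (nat_lit 402) .nil))))) (.g (nat_lit 5) .nil .nil)))) (.nd (nat_lit 6) 
(.lf (nat_lit 68658) (.g (nat_lit 1945) (.e (nat_lit 1648) (nat_lit 115) (.e (nat_lit 393294) (nat_lit 26) (.e (nat_lit 475199) (nat_lit 40) (.e (nat_lit 704596) (nat_lit 5) (.e (nat_lit 188160) (nat_lit 32) .nil))))) (.g (nat_lit 4) .nil .nil))) 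
(.lf (nat_lit 68722) (.g (nat_lit 523) (.e (nat_lit 1649) (nat_lit 115) (.e (nat_lit 393293) (nat_lit 26) (.e (nat_lit 475209) (nat_lit 41) .nil))) .nil))))) (.nd (nat_lit 4) (.nd (nat_lit 5) (.nd (nat_lit 6) 
(.lf (nat_lit 68618) (.g (nat_lit 1310) (.e (nat_lit 1647) (nat_lit 115) (.e (nat_lit 393296) (nat_lit 26) (.e (nat_lit 475207) (nat_lit 41) (.e (nat_lit 712749) (nat_lit 28) .nil)))) .nil)) 
(.lf (nat_lit 68682) (.g (nat_lit 1465) (.e (nat_lit 1648) (nat_lit 115) (.e (nat_lit 393298) (nat_lit 27) (.e (nat_lit 491570) (nat_lit 13) (.e (nat_lit 393238) (nat_lit 17) .nil)))) .nil))) (.nd (nat_lit 6) 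
(.lf (nat_lit 68650) (.g (nat_lit 1637) (.e (nat_lit 1648) (nat_lit 115) (.e (nat_lit 393291) (nat_lit 26) (.e (nat_lit 475211) (nat_lit 41) (.e (nat_lit 712747) (nat_lit 28) (.e (nat_lit 442112) (nat_lit 0) .nil))))) (.g (nat_lit 4) .nil .nil))) 
(.lf (nat_lit 68714) (.g (nat_lit 1871) (.e (nat_lit 1649) (nat_lit 115) (.e (nat_lit 393271) (nat_lit 23) (.e (nat_lit 426444) (nat_lit 19) (.e (nat_lit 106556) (nat_lit 15) .nil)))) .nil)))) (.nd (nat_lit 5) (.nd (nat_lit 6) 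
(.lf (nat_lit 68634) (.g (nat_lit 328) (.e (nat_lit 1648) (nat_lit 115) (.e (nat_lit 393263) (nat_lit 22) (.e (nat_lit 417817) (nat_lit 10) .nil))) .nil)) 
(.lf (nat_lit 68698) (.g (nat_lit 2196) (.e (nat_lit 1649) (nat_lit 115) (.e (nat_lit 393229) (nat_lit 9) (.e (nat_lit 336087) (nat_lit 9) (.e (nat_lit 336019) (nat_lit 3) (.e (nat_lit 98334) (nat_lit 18) .nil))))) .nil))) (.nd (nat_lit 6) 
(.lf (nat_lit 68666) (.g (nat_lit 2039) (.e (nat_lit 1648) (nat_lit 115) (.e (nat_lit 393294) (nat_lit 26) (.e (nat_lit 475211) (nat_lit 41) (.e (nat_lit 712749) (nat_lit 28) (.e (nat_lit 442112) (nat_lit 0) .nil))))) (.g (nat_lit 4) .nil .nil))) 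
(.lf (nat_lit 68730) (.g (nat_lit 1848) (.e (nat_lit 1649) (nat_lit 115) (.e (nat_lit 393298) (nat_lit 27) (.e (nat_lit 491549) (nat_lit 9) (.e (nat_lit 336421) (nat_lit 28) (.e (nat_lit 434180) (nat_lit 0) .nil))))) .nil)))))) (.nd (nat_lit 3) (.nd (nat_lit 4) (.nd (nat_lit 5) (.nd (nat_lit 6) 
(.lf (nat_lit 68614) (.g (nat_lit 1340) (.e (nat_lit 1647) (nat_lit 115) (.e (nat_lit 393296) (nat_lit 26) (.e (nat_lit 475197) (nat_lit 40) (.e (nat_lit 704595) (nat_lit 5) .nil)))) .nil)) 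
(.lf (nat_lit 68678) (.g (nat_lit 1515) (.e (nat_lit 1648) (nat_lit 115) (.e (nat_lit 393296) (nat_lit 26) (.e (nat_lit 475210) (nat_lit 41) (.e (nat_lit 712747) (nat_lit 28) .nil)))) .nil))) (.nd (nat_lit 6) 
(.lf (nat_lit 68646) (.g (nat_lit 1908) (.e (nat_lit 1648) (nat_lit 115) (.e (nat_lit 393291) (nat_lit 26) (.e (nat_lit 475199) (nat_lit 40) (.e (nat_lit 704595) (nat_lit 5) (.e (nat_lit 188160) (nat_lit 32) .nil))))) (.g (nat_lit 4) .nil .nil))) 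
(.lf (nat_lit 68710) (.g (nat_lit 578) (.e (nat_lit 1649) (nat_lit 115) (.e (nat_lit 393253) (nat_lit 18) (.e (nat_lit 164150) (nat_lit 152) .nil))) .nil)))) (.nd (nat_lit 5) (.nd (nat_lit 6) 
(.lf (nat_lit 68630) (.g (nat_lit 1707) (.e (nat_lit 1648) (nat_lit 115) (.e (nat_lit 393253) (nat_lit 18) (.e (nat_lit 164189) (nat_lit 157) (.e (nat_lit 229409) (nat_lit 13) (.e (nat_lit 434232) (nat_lit 23) .nil))))) .nil)) 
(.lf (nat_lit 68694) (.g (nat_lit 634) (.e (nat_lit 1648) (nat_lit 115) (.e (nat_lit 393300) (nat_lit 27) (.e (nat_lit 491570) (nat_lit 13) .nil))) .nil))) (.nd (nat_lit 6) 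
(.lf (nat_lit 68662) (.g (nat_lit 1624) (.e (nat_lit 1648) (nat_lit 115) (.e (nat_lit 393294) (nat_lit 26) (.e (nat_lit 475209) (nat_lit 41) (.e (nat_lit 712749) (nat_lit 28) (.e (nat_lit 442112) (nat_lit 0) .nil))))) (.g (nat_lit 4) .nil .nil))) 
(.lf (nat_lit 68726) (.g (nat_lit 799) (.e (nat_lit 1649) (nat_lit 115) (.e (nat_lit 393296) (nat_lit 26) (.e (nat_lit 475207) (nat_lit 41) .nil))) .nil))))) (.nd (nat_lit 4) (.nd (nat_lit 5) (.nd (nat_lit 6) 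
(.lf (nat_lit 68622) (.g (nat_lit 776) (.e (nat_lit 1647) (nat_lit 115) (.e (nat_lit 393298) (nat_lit 27) (.e (nat_lit 491550) (nat_lit 9) .nil))) .nil)) 
(.lf (nat_lit 68686) (.g (nat_lit 2787) (.e (nat_lit 1648) (nat_lit 115) (.e (nat_lit 393298) (nat_lit 27) (.e (nat_lit 491571) (nat_lit 13) (.e (nat_lit 393238) (nat_lit 17) (.e (nat_lit 7501) (nat_lit 402) .nil))))) .nil))) (.nd (nat_lit 6) 
(.lf (nat_lit 68654) (.g (nat_lit 1046) (.e (nat_lit 1648) (nat_lit 115) (.e (nat_lit 393293) (nat_lit 26) (.e (nat_lit 475210) (nat_lit 41) (.e (nat_lit 712747) (nat_lit 28) .nil)))) .nil)) 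
(.lf (nat_lit 68718) (.g (nat_lit 691) (.e (nat_lit 1649) (nat_lit 115) (.e (nat_lit 393293) (nat_lit 26) (.e (nat_lit 475196) (nat_lit 40) (.e (nat_lit 704595) (nat_lit 5) .nil)))) .nil)))) (.nd (nat_lit 5) (.nd (nat_lit 6) 
(.lf (nat_lit 68638) (.g (nat_lit 1354) (.e (nat_lit 1648) (nat_lit 115) (.e (nat_lit 393271) (nat_lit 23) (.e (nat_lit 426354) (nat_lit 15) (.e (nat_lit 2167) (nat_lit 143) .nil)))) .nil)) 
(.lf (nat_lit 68702) (.g (nat_lit 1429) (.e (nat_lit 1649) (nat_lit 115) (.e (nat_lit 393234) (nat_lit 17) (.e (nat_lit 7581) (nat_lit 405) (.e (nat_lit 57477) (nat_lit 28) .nil)))) .nil))) (.nd (nat_lit 6) 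
(.lf (nat_lit 68670) (.g (nat_lit 1423) (.e (nat_lit 1648) (nat_lit 115) (.e (nat_lit 393295) (nat_lit 26) (.e (nat_lit 475211) (nat_lit 41) (.e (nat_lit 712747) (nat_lit 28) (.e (nat_lit 442112) (nat_lit 0) .nil))))) (.g (nat_lit 4) .nil .nil))) 
(.lf (nat_lit 68734) (.g (nat_lit 1006) (.e (nat_lit 1649) (nat_lit 115) (.e (nat_lit 393298) (nat_lit 27) (.e (nat_lit 491552) (nat_lit 9) .nil))) .nil)))))))) (.nd (nat_lit 1) (.nd (nat_lit 2) (.nd (nat_lit 3) (.nd (nat_lit 4) (.nd (nat_lit 5) (.nd (nat_lit 6) 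
(.lf (nat_lit 68609) (.g (nat_lit 1773) (.e (nat_lit 1647) (nat_lit 115) (.e (nat_lit 393291) (nat_lit 26) (.e (nat_lit 475199) (nat_lit 40) (.e (nat_lit 704595) (nat_lit 5) .nil)))) .nil)) 
(.lf (nat_lit 68673) (.g (nat_lit 1189) (.e (nat_lit 1648) (nat_lit 115) (.e (nat_lit 393296) (nat_lit 26) (.e (nat_lit 475207) (nat_lit 41) (.e (nat_lit 712747) (nat_lit 28) (.e (nat_lit 442112) (nat_lit 0) .nil))))) .nil))) (.nd (nat_lit 6) 
(.lf (nat_lit 68641) (.g (nat_lit 627) (.e (nat_lit 1648) (nat_lit 115) (.e (nat_lit 393273) (nat_lit 23) (.e (nat_lit 426402) (nat_lit 15) .nil))) .nil)) 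
(.lf (nat_lit 68705) (.g (nat_lit 1051) (.e (nat_lit 1649) (nat_lit 115) (.e (nat_lit 393251) (nat_lit 18) (.e (nat_lit 164177) (nat_lit 154) .nil))) .nil)))) (.nd (nat_lit 5) (.nd (nat_lit 6) 
(.lf (nat_lit 68625) (.g (nat_lit 764) (.e (nat_lit 1647) (nat_lit 115) (.e (nat_lit 393300) (nat_lit 27) (.e (nat_lit 491547) (nat_lit 9) .nil))) .nil)) 
(.lf (nat_lit 68689) (.g (nat_lit 1341) (.e (nat_lit 1648) (nat_lit 115) (.e (nat_lit 393299) (nat_lit 27) (.e (nat_lit 491570) (nat_lit 13) (.e (nat_lit 393238) (nat_lit 17) .nil)))) .nil))) (.nd (nat_lit 6) 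
(.lf (nat_lit 68657) (.g (nat_lit 2015) (.e (nat_lit 1648) (nat_lit 115) (.e (nat_lit 393294) (nat_lit 26) (.e (nat_lit 475199) (nat_lit 40) (.e (nat_lit 704595) (nat_lit 5) (.e (nat_lit 188160) (nat_lit 32) .nil))))) (.g (nat_lit 4) .nil .nil))) 
(.lf (nat_lit 68721) (.g (nat_lit 743) (.e (nat_lit 1649) (nat_lit 115) (.e (nat_lit 393293) (nat_lit 26) (.e (nat_lit 475208) (nat_lit 41) (.e (nat_lit 712749) (nat_lit 28) .nil)))) .nil))))) (.nd (nat_lit 4) (.nd (nat_lit 5) (.nd (nat_lit 6) 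
(.lf (nat_lit 68617) (.g (nat_lit 1392) (.e (nat_lit 1647) (nat_lit 115) (.e (nat_lit 393296) (nat_lit 26) (.e (nat_lit 475207) (nat_lit 41) (.e (nat_lit 712747) (nat_lit 28) .nil)))) .nil)) 
(.lf (nat_lit 68681) (.g (nat_lit 2074) (.e (nat_lit 1648) (nat_lit 115) (.e (nat_lit 393298) (nat_lit 27) (.e (nat_lit 491550) (nat_lit 9) (.e (nat_lit 336421) (nat_lit 28) .nil)))) .nil))) (.nd (nat_lit 6) 
(.lf (nat_lit 68649) (.g (nat_lit 1976) (.e (nat_lit 1648) (nat_lit 115) (.e (nat_lit 393291) (nat_lit 26) (.e (nat_lit 475210) (nat_lit 41) (.e (nat_lit 712749) (nat_lit 28) (.e (nat_lit 442112) (nat_lit 0) .nil))))) (.g (nat_lit 4) .nil .nil))) 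
(.lf (nat_lit 68713) (.g (nat_lit 808) (.e (nat_lit 1649) (nat_lit 115) (.e (nat_lit 393270) (nat_lit 23) (.e (nat_lit 426444) (nat_lit 19) (.e (nat_lit 106556) (nat_lit 15) .nil)))) .nil)))) (.nd (nat_lit 5) (.nd (nat_lit 6) 
(.lf (nat_lit 68633) (.g (nat_lit 1517) (.e (nat_lit 1648) (nat_lit 115) (.e (nat_lit 393253) (nat_lit 18) (.e (nat_lit 164190) (nat_lit 157) (.e (nat_lit 229409) (nat_lit 13) .nil)))) .nil)) 
(.lf (nat_lit 68697) (.g (nat_lit 2467) (.e (nat_lit 1649) (nat_lit 115) (.e (nat_lit 393225) (nat_lit 9) (.e (nat_lit 336204) (nat_lit 12) (.e (nat_lit 385074) (nat_lit 31) (.e (nat_lit 573473) (nat_lit 12) .nil))))) .nil))) (.nd (nat_lit 6) 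
(.lf (nat_lit 68665) (.g (nat_lit 1896) (.e (nat_lit 1648) (nat_lit 115) (.e (nat_lit 393294) (nat_lit 26) (.e (nat_lit 475211) (nat_lit 41) (.e (nat_lit 712747) (nat_lit 28) (.e (nat_lit 442112) (nat_lit 0) .nil))))) (.g (nat_lit 4) .nil .nil))) 
(.lf (nat_lit 68729) (.g (nat_lit 1348) (.e (nat_lit 1649) (nat_lit 115) (.e (nat_lit 393296) (nat_lit 26) (.e (nat_lit 475209) (nat_lit 41) (.e (nat_lit 712749) (nat_lit 28) .nil)))) .nil)))))) (.nd (nat_lit 3) (.nd (nat_lit 4) (.nd (nat_lit 5) (.nd (nat_lit 6) 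
(.lf (nat_lit 68613) (.g (nat_lit 805) (.e (nat_lit 1647) (nat_lit 115) (.e (nat_lit 393296) (nat_lit 26) (.e (nat_lit 475196) (nat_lit 40) .nil))) .nil)) 
(.lf (nat_lit 68677) (.g (nat_lit 1254) (.e (nat_lit 1648) (nat_lit 115) (.e (nat_lit 393296) (nat_lit 26) (.e (nat_lit 475209) (nat_lit 41) (.e (nat_lit 712749) (nat_lit 28) (.e (nat_lit 442112) (nat_lit 0) .nil))))) (.g (nat_lit 4) .nil .nil)))) (.nd (nat_lit 6) 
(.lf (nat_lit 68645) (.g (nat_lit 1728) (.e (nat_lit 1648) (nat_lit 115) (.e (nat_lit 393291) (nat_lit 26) (.e (nat_lit 475198) (nat_lit 40) (.e (nat_lit 704596) (nat_lit 5) (.e (nat_lit 188160) (nat_lit 32) .nil))))) (.g (nat_lit 4) .nil .nil))) 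
(.lf (nat_lit 68709) (.g (nat_lit 1100) (.e (nat_lit 1649) (nat_lit 115) (.e (nat_lit 393251) (nat_lit 18) (.e (nat_lit 164183) (nat_lit 154) .nil))) .nil)))) (.nd (nat_lit 5) (.nd (nat_lit 6) 
(.lf (nat_lit 68629) (.g (nat_lit 1345) (.e (nat_lit 1648) (nat_lit 115) (.e (nat_lit 393253) (nat_lit 18) (.e (nat_lit 164189) (nat_lit 157) (.e (nat_lit 229409) (nat_lit 13) .nil)))) .nil)) 
(.lf (nat_lit 68693) (.g (nat_lit 1466) (.e (nat_lit 1648) (nat_lit 115) (.e (nat_lit 393300) (nat_lit 27) (.e (nat_lit 491568) (nat_lit 13) (.e (nat_lit 393238) (nat_lit 17) .nil)))) .nil))) (.nd (nat_lit 6) 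
(.lf (nat_lit 68661) (.g (nat_lit 1639) (.e (nat_lit 1648) (nat_lit 115) (.e (nat_lit 393294) (nat_lit 26) (.e (nat_lit 475209) (nat_lit 41) (.e (nat_lit 712747) (nat_lit 28) (.e (nat_lit 442112) (nat_lit 0) .nil))))) (.g (nat_lit 4) .nil .nil))) 
(.lf (nat_lit 68725) (.g (nat_lit 808) (.e (nat_lit 1649) (nat_lit 115) (.e (nat_lit 393296) (nat_lit 26) (.e (nat_lit 475198) (nat_lit 40) .nil))) .nil))))) (.nd (nat_lit 4) (.nd (nat_lit 5) (.nd (nat_lit 6) 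
(.lf (nat_lit 68621) (.g (nat_lit 1331) (.e (nat_lit 1647) (nat_lit 115) (.e (nat_lit 393296) (nat_lit 26) (.e (nat_lit 475209) (nat_lit 41) (.e (nat_lit 712747) (nat_lit 28) .nil)))) .nil)) 
(.lf (nat_lit 68685) (.g (nat_lit 2166) (.e (nat_lit 1648) (nat_lit 115) (.e (nat_lit 393298) (nat_lit 27) (.e (nat_lit 491571) (nat_lit 13) (.e (nat_lit 393231) (nat_lit 17) .nil)))) .nil))) (.nd (nat_lit 6) 
(.lf (nat_lit 68653) (.g (nat_lit 398) (.e (nat_lit 1648) (nat_lit 115) (.e (nat_lit 393293) (nat_lit 26) (.e (nat_lit 475205) (nat_lit 40) .nil))) .nil)) 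
(.lf (nat_lit 68717) (.g (nat_lit 648) (.e (nat_lit 1649) (nat_lit 115) (.e (nat_lit 393291) (nat_lit 26) (.e (nat_lit 475201) (nat_lit 40) .nil))) .nil)))) (.nd (nat_lit 5) (.nd (nat_lit 6) 
(.lf (nat_lit 68637) (.g (nat_lit 672) (.e (nat_lit 1648) (nat_lit 115) (.e (nat_lit 393271) (nat_lit 23) (.e (nat_lit 426354) (nat_lit 15) .nil))) .nil)) 
(.lf (nat_lit 68701) (.g (nat_lit 1724) (.e (nat_lit 1649) (nat_lit 115) (.e (nat_lit 393229) (nat_lit 9) (.e (nat_lit 336186) (nat_lit 11) (.e (nat_lit 368676) (nat_lit 21) (.e (nat_lit 516117) (nat_lit 1) .nil))))) .nil))) (.nd (nat_lit 6) 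
(.lf (nat_lit 68669) (.g (nat_lit 1575) (.e (nat_lit 1648) (nat_lit 115) (.e (nat_lit 393295) (nat_lit 26) (.e (nat_lit 475199) (nat_lit 40) (.e (nat_lit 704596) (nat_lit 5) (.e (nat_lit 188160) (nat_lit 32) .nil))))) (.g (nat_lit 4) .nil .nil))) 
(.lf (nat_lit 68733) (.g (nat_lit 2642) (.e (nat_lit 1649) (nat_lit 115) (.e (nat_lit 393298) (nat_lit 27) (.e (nat_lit 491550) (nat_lit 9) (.e (nat_lit 336421) (nat_lit 28) (.e (nat_lit 434181) (nat_lit 0) .nil))))) .nil))))))) (.nd (nat_lit 2) (.nd (nat_lit 3) (.nd (nat_lit 4) (.nd (nat_lit 5) (.nd (nat_lit 6) 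
(.lf (nat_lit 68611) (.g (nat_lit 1445) (.e (nat_lit 1647) (nat_lit 115) (.e (nat_lit 393294) (nat_lit 26) (.e (nat_lit 475199) (nat_lit 40) (.e (nat_lit 704595) (nat_lit 5) .nil)))) .nil)) 
(.lf (nat_lit 68675) (.g (nat_lit 1367) (.e (nat_lit 1648) (nat_lit 115) (.e (nat_lit 393296) (nat_lit 26) (.e (nat_lit 475208) (nat_lit 41) (.e (nat_lit 712749) (nat_lit 28) (.e (nat_lit 442112) (nat_lit 0) .nil))))) (.g (nat_lit 4) .nil .nil)))) (.nd (nat_lit 6) 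
(.lf (nat_lit 68643) (.g (nat_lit 1459) (.e (nat_lit 1648) (nat_lit 115) (.e (nat_lit 393290) (nat_lit 26) (.e (nat_lit 475210) (nat_lit 41) (.e (nat_lit 712747) (nat_lit 28) (.e (nat_lit 442112) (nat_lit 0) .nil))))) .nil)) 
(.lf (nat_lit 68707) (.g (nat_lit 2094) (.e (nat_lit 1649) (nat_lit 115) (.e (nat_lit 393251) (nat_lit 18) (.e (nat_lit 164179) (nat_lit 154) (.e (nat_lit 57421) (nat_lit 13) .nil)))) .nil)))) (.nd (nat_lit 5) (.nd (nat_lit 6) 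
(.lf (nat_lit 68627) (.g (nat_lit 1657) (.e (nat_lit 1647) (nat_lit 115) (.e (nat_lit 393300) (nat_lit 27) (.e (nat_lit 491570) (nat_lit 13) (.e (nat_lit 393238) (nat_lit 17) .nil)))) .nil)) 
(.lf (nat_lit 68691) (.g (nat_lit 857) (.e (nat_lit 1648) (nat_lit 115) (.e (nat_lit 393300) (nat_lit 27) (.e (nat_lit 491548) (nat_lit 9) .nil))) .nil))) (.nd (nat_lit 6) 
(.lf (nat_lit 68659) (.g (nat_lit 702) (.e (nat_lit 1648) (nat_lit 115) (.e (nat_lit 393294) (nat_lit 26) (.e (nat_lit 475205) (nat_lit 40) .nil))) .nil)) 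
(.lf (nat_lit 68723) (.g (nat_lit 809) (.e (nat_lit 1649) (nat_lit 115) (.e (nat_lit 393294) (nat_lit 26) (.e (nat_lit 475199) (nat_lit 40) .nil))) .nil))))) (.nd (nat_lit 4) (.nd (nat_lit 5) (.nd (nat_lit 6) 
(.lf (nat_lit 68619) (.g (nat_lit 851) (.e (nat_lit 1647) (nat_lit 115) (.e (nat_lit 393296) (nat_lit 26) (.e (nat_lit 475208) (nat_lit 41) .nil))) .nil)) 
(.lf (nat_lit 68683) (.g (nat_lit 2682) (.e (nat_lit 1648) (nat_lit 115) (.e (nat_lit 393298) (nat_lit 27) (.e (nat_lit 491570) (nat_lit 13) (.e (nat_lit 393238) (nat_lit 17) (.e (nat_lit 7501) (nat_lit 402) .nil))))) (.g (nat_lit 5) .nil .nil)))) (.nd (nat_lit 6) 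
(.lf (nat_lit 68651) (.g (nat_lit 1784) (.e (nat_lit 1648) (nat_lit 115) (.e (nat_lit 393291) (nat_lit 26) (.e (nat_lit 475211) (nat_lit 41) (.e (nat_lit 712749) (nat_lit 28) (.e (nat_lit 442112) (nat_lit 0) .nil))))) (.g (nat_lit 4) .nil .nil))) 
(.lf (nat_lit 68715) (.g (nat_lit 1045) (.e (nat_lit 1649) (nat_lit 115) (.e (nat_lit 393273) (nat_lit 23) (.e (nat_lit 426364) (nat_lit 15) (.e (nat_lit 2160) (nat_lit 143) .nil)))) .nil)))) (.nd (nat_lit 5) (.nd (nat_lit 6) 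
(.lf (nat_lit 68635) (.g (nat_lit 900) (.e (nat_lit 1648) (nat_lit 115) (.e (nat_lit 393271) (nat_lit 23) (.e (nat_lit 426112) (nat_lit 1) .nil))) .nil)) 
(.lf (nat_lit 68699) (.g (nat_lit 2295) (.e (nat_lit 1649) (nat_lit 115) (.e (nat_lit 393229) (nat_lit 9) (.e (nat_lit 336088) (nat_lit 9) (.e (nat_lit 336019) (nat_lit 3) (.e (nat_lit 98334) (nat_lit 18) .nil))))) .nil))) (.nd (nat_lit 6) 
(.lf (nat_lit 68667) (.g (nat_lit 1741) (.e (nat_lit 1648) (nat_lit 115) (.e (nat_lit 393295) (nat_lit 26) (.e (nat_lit 475198) (nat_lit 40) (.e (nat_lit 704596) (nat_lit 5) (.e (nat_lit 188160) (nat_lit 32) .nil))))) (.g (nat_lit 4) .nil .nil))) 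
(.lf (nat_lit 68731) (.g (nat_lit 1881) (.e (nat_lit 1649) (nat_lit 115) (.e (nat_lit 393298) (nat_lit 27) (.e (nat_lit 491549) (nat_lit 9) (.e (nat_lit 336421) (nat_lit 28) (.e (nat_lit 434181) (nat_lit 0) .nil))))) (.g (nat_lit 4) .nil .nil))))))) (.nd (nat_lit 3) (.nd (nat_lit 4) (.nd (nat_lit 5) (.nd (nat_lit 6) 
(.lf (nat_lit 68615) (.g (nat_lit 2158) (.e (nat_lit 1647) (nat_lit 115) (.e (nat_lit 393296) (nat_lit 26) (.e (nat_lit 475198) (nat_lit 40) (.e (nat_lit 704595) (nat_lit 5) (.e (nat_lit 188160) (nat_lit 32) .nil))))) .nil)) 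
(.lf (nat_lit 68679) (.g (nat_lit 1631) (.e (nat_lit 1648) (nat_lit 115) (.e (nat_lit 393296) (nat_lit 26) (.e (nat_lit 475210) (nat_lit 41) (.e (nat_lit 712749) (nat_lit 28) .nil)))) .nil))) (.nd (nat_lit 6) 
(.lf (nat_lit 68647) (.g (nat_lit 1832) (.e (nat_lit 1648) (nat_lit 115) (.e (nat_lit 393291) (nat_lit 26) (.e (nat_lit 475199) (nat_lit 40) (.e (nat_lit 704596) (nat_lit 5) (.e (nat_lit 188160) (nat_lit 32) .nil))))) (.g (nat_lit 4) .nil .nil))) 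
(.lf (nat_lit 68711) (.g (nat_lit 1718) (.e (nat_lit 1649) (nat_lit 115) (.e (nat_lit 393260) (nat_lit 21) (.e (nat_lit 409616) (nat_lit 10) (.e (nat_lit 7936) (nat_lit 300) .nil)))) .nil)))) (.nd (nat_lit 5) (.nd (nat_lit 6) 
(.lf (nat_lit 68631) (.g (nat_lit 1944) (.e (nat_lit 1648) (nat_lit 115) (.e (nat_lit 393253) (nat_lit 18) (.e (nat_lit 164189) (nat_lit 157) (.e (nat_lit 229409) (nat_lit 13) (.e (nat_lit 434232) (nat_lit 23) (.e (nat_lit 532501) (nat_lit 1) (.e (nat_lit 57730) (nat_lit 181) (.e (nat_lit 988) (nat_lit 81) .nil)))))))) (.g (nat_lit 4) .nil .nil))) 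
(.lf (nat_lit 68695) (.g (nat_lit 2789) (.e (nat_lit 1648) (nat_lit 115) (.e (nat_lit 393300) (nat_lit 27) (.e (nat_lit 491570) (nat_lit 13) (.e (nat_lit 393238) (nat_lit 17) (.e (nat_lit 7501) (nat_lit 402) .nil))))) .nil))) (.nd (nat_lit 6) 
(.lf (nat_lit 68663) (.g (nat_lit 1837) (.e (nat_lit 1648) (nat_lit 115) (.e (nat_lit 393294) (nat_lit 26) (.e (nat_lit 475210) (nat_lit 41) (.e (nat_lit 712747) (nat_lit 28) (.e (nat_lit 442112) (nat_lit 0) .nil))))) (.g (nat_lit 4) .nil .nil))) 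
(.lf (nat_lit 68727) (.g (nat_lit 1622) (.e (nat_lit 1649) (nat_lit 115) (.e (nat_lit 393296) (nat_lit 26) (.e (nat_lit 475207) (nat_lit 41) (.e (nat_lit 712749) (nat_lit 28) (.e (nat_lit 434180) (nat_lit 0) .nil))))) (.g (nat_lit 4) .nil .nil)))))) (.nd (nat_lit 4) (.nd (nat_lit 5) (.nd (nat_lit 6) 
(.lf (nat_lit 68623) (.g (nat_lit 2026) (.e (nat_lit 1647) (nat_lit 115) (.e (nat_lit 393298) (nat_lit 27) (.e (nat_lit 491571) (nat_lit 13) (.e (nat_lit 393238) (nat_lit 17) .nil)))) .nil)) 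
(.lf (nat_lit 68687) (.g (nat_lit 2180) (.e (nat_lit 1648) (nat_lit 115) (.e (nat_lit 393298) (nat_lit 27) (.e (nat_lit 491571) (nat_lit 13) (.e (nat_lit 393242) (nat_lit 17) .nil)))) .nil))) (.nd (nat_lit 6) 
(.lf (nat_lit 68655) (.g (nat_lit 1563) (.e (nat_lit 1648) (nat_lit 115) (.e (nat_lit 393294) (nat_lit 26) (.e (nat_lit 475198) (nat_lit 40) (.e (nat_lit 704595) (nat_lit 5) (.e (nat_lit 188160) (nat_lit 32) .nil))))) (.g (nat_lit 4) .nil .nil))) 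
(.lf (nat_lit 68719) (.g (nat_lit 1172) (.e (nat_lit 1649) (nat_lit 115) (.e (nat_lit 393293) (nat_lit 26) (.e (nat_lit 475198) (nat_lit 40) (.e (nat_lit 704595) (nat_lit 5) .nil)))) .nil)))) (.nd (nat_lit 5) (.nd (nat_lit 6) 
(.lf (nat_lit 68639) (.g (nat_lit 1733) (.e (nat_lit 1648) (nat_lit 115) (.e (nat_lit 393273) (nat_lit 23) (.e (nat_lit 426364) (nat_lit 15) (.e (nat_lit 2160) (nat_lit 143) (.e (nat_lit 712747) (nat_lit 28) (.e (nat_lit 442112) (nat_lit 0) .nil)))))) (.g (nat_lit 4) .nil .nil))) 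
(.lf (nat_lit 68703) (.g (nat_lit 1137) (.e (nat_lit 1649) (nat_lit 115) (.e (nat_lit 393234) (nat_lit 17) (.e (nat_lit 7589) (nat_lit 406) (.e (nat_lit 65632) (nat_lit 15) .nil)))) .nil))) (.nd (nat_lit 6) 
(.lf (nat_lit 68671) (.g (nat_lit 1538) (.e (nat_lit 1648) (nat_lit 115) (.e (nat_lit 393295) (nat_lit 26) (.e (nat_lit 475211) (nat_lit 41) (.e (nat_lit 712749) (nat_lit 28) (.e (nat_lit 442112) (nat_lit 0) .nil))))) .nil)) 
(.lf (nat_lit 68735) (.g (nat_lit 531) (.e (nat_lit 1649) (nat_lit 115) (.e (nat_lit 393298) (nat_lit 27) (.e (nat_lit 491569) (nat_lit 13) .nil))) .nil)))))))))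

noncomputable def tv945 : DT := (.nd (nat_lit 0) (.nd (nat_lit 1) (.nd (nat_lit 2) (.nd (nat_lit 3) (.nd (nat_lit 4) (.nd (nat_lit 5) (.nd (nat_lit 6) 
(.lf (nat_lit 68736) (.g (nat_lit 2732) (.e (nat_lit 1649) (nat_lit 115) (.e (nat_lit 393298) (nat_lit 27) (.e (nat_lit 491569) (nat_lit 13) (.e (nat_lit 393234) (nat_lit 17) (.e (nat_lit 7495) (nat_lit 402) .nil))))) (.g (nat_lit 5) .nil .nil))) 
(.lf (nat_lit 68800) (.g (nat_lit 2122) (.e (nat_lit 1650) (nat_lit 115) (.e (nat_lit 393229) (nat_lit 9) (.e (nat_lit 336184) (nat_lit 11) (.e (nat_lit 368676) (nat_lit 21) (.e (nat_lit 516117) (nat_lit 1) (.e (nat_lit 164159) (nat_lit 152) (.e (nat_lit 1022) (nat_lit 81) .nil))))))) (.g (nat_lit 5) .nil .nil)))) (.nd (nat_lit 6) 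
(.lf (nat_lit 68768) (.g (nat_lit 649) (.e (nat_lit 1649) (nat_lit 115) (.e (nat_lit 393300) (nat_lit 27) (.e (nat_lit 491570) (nat_lit 13) .nil))) .nil)) 
(.lf (nat_lit 68832) (.g (nat_lit 1824) (.e (nat_lit 1650) (nat_lit 115) (.e (nat_lit 393299) (nat_lit 27) (.e (nat_lit 491570) (nat_lit 13) (.e (nat_lit 393238) (nat_lit 17) .nil)))) .nil)))) (.nd (nat_lit 5) (.nd (nat_lit 6) 
(.lf (nat_lit 68752) (.g (nat_lit 2063) (.e (nat_lit 1649) (nat_lit 115) (.e (nat_lit 393298) (nat_lit 27) (.e (nat_lit 491571) (nat_lit 13) (.e (nat_lit 393242) (nat_lit 17) .nil)))) .nil)) 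
(.lf (nat_lit 68816) (.g (nat_lit 1538) (.e (nat_lit 1650) (nat_lit 115) (.e (nat_lit 393295) (nat_lit 26) (.e (nat_lit 475199) (nat_lit 40) (.e (nat_lit 704595) (nat_lit 5) (.e (nat_lit 188160) (nat_lit 32) .nil))))) (.g (nat_lit 4) .nil .nil)))) (.nd (nat_lit 6) 
(.lf (nat_lit 68784) (.g (nat_lit 2669) (.e (nat_lit 1649) (nat_lit 115) (.e (nat_lit 393301) (nat_lit 27) (.e (nat_lit 491560) (nat_lit 10) (.e (nat_lit 344097) (nat_lit 18) .nil)))) .nil)) 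
(.lf (nat_lit 68848) (.g (nat_lit 1367) (.e (nat_lit 1651) (nat_lit 115) (.e (nat_lit 393229) (nat_lit 9) (.e (nat_lit 336184) (nat_lit 11) (.e (nat_lit 368676) (nat_lit 21) (.e (nat_lit 516117) (nat_lit 1) (.e (nat_lit 164159) (nat_lit 152) (.e (nat_lit 1022) (nat_lit 81) .nil))))))) (.g (nat_lit 4) .nil .nil)))))) (.nd (nat_lit 4) (.nd (nat_lit 5) (.nd (nat_lit 6) 
(.lf (nat_lit 68744) (.g (nat_lit 2526) (.e (nat_lit 1649) (nat_lit 115) (.e (nat_lit 393298) (nat_lit 27) (.e (nat_lit 491571) (nat_lit 13) (.e (nat_lit 393231) (nat_lit 17) (.e (nat_lit 7500) (nat_lit 402) .nil))))) .nil)) 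
(.lf (nat_lit 68808) (.g (nat_lit 1622) (.e (nat_lit 1650) (nat_lit 115) (.e (nat_lit 393229) (nat_lit 9) (.e (nat_lit 336186) (nat_lit 11) (.e (nat_lit 368676) (nat_lit 21) (.e (nat_lit 516117) (nat_lit 1) (.e (nat_lit 164159) (nat_lit 152) (.e (nat_lit 1027) (nat_lit 81) .nil))))))) (.g (nat_lit 4) .nil .nil)))) (.nd (nat_lit 6) 
(.lf (nat_lit 68776) (.g (nat_lit 1305) (.e (nat_lit 1649) (nat_lit 115) (.e (nat_lit 393301) (nat_lit 27) (.e (nat_lit 491552) (nat_lit 9) (.e (nat_lit 336250) (nat_lit 15) .nil)))) .nil)) 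
(.lf (nat_lit 68840) (.g (nat_lit 3105) (.e (nat_lit 1650) (nat_lit 115) (.e (nat_lit 393301) (nat_lit 27) (.e (nat_lit 491560) (nat_lit 10) (.e (nat_lit 344090) (nat_lit 18) .nil)))) .nil)))) (.nd (nat_lit 5) (.nd (nat_lit 6) 
(.lf (nat_lit 68760) (.g (nat_lit 2088) (.e (nat_lit 1649) (nat_lit 115) (.e (nat_lit 393300) (nat_lit 27) (.e (nat_lit 491549) (nat_lit 9) (.e (nat_lit 336425) (nat_lit 28) .nil)))) .nil)) 
(.lf (nat_lit 68824) (.g (nat_lit 1344) (.e (nat_lit 1650) (nat_lit 115) (.e (nat_lit 393296) (nat_lit 26) (.e (nat_lit 475209) (nat_lit 41) (.e (nat_lit 712747) (nat_lit 28) .nil)))) .nil))) (.nd (nat_lit 6) 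
(.lf (nat_lit 68792) (.g (nat_lit 1971) (.e (nat_lit 1650) (nat_lit 115) (.e (nat_lit 393229) (nat_lit 9) (.e (nat_lit 336087) (nat_lit 9) (.e (nat_lit 336019) (nat_lit 3) (.e (nat_lit 98334) (nat_lit 18) .nil))))) .nil)) 
(.lf (nat_lit 68856) (.g (nat_lit 1117) (.e (nat_lit 1651) (nat_lit 115) (.e (nat_lit 393274) (nat_lit 23) (.e (nat_lit 426412) (nat_lit 15) (.e (nat_lit 2059) (nat_lit 142) .nil)))) .nil)))))) (.nd (nat_lit 3) (.nd (nat_lit 4) (.nd (nat_lit 5) (.nd (nat_lit 6) 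
(.lf (nat_lit 68740) (.g (nat_lit 2153) (.e (nat_lit 1649) (nat_lit 115) (.e (nat_lit 393298) (nat_lit 27) (.e (nat_lit 491570) (nat_lit 13) (.e (nat_lit 393238) (nat_lit 17) (.e (nat_lit 7521) (nat_lit 402) .nil))))) .nil)) 
(.lf (nat_lit 68804) (.g (nat_lit 1561) (.e (nat_lit 1650) (nat_lit 115) (.e (nat_lit 393229) (nat_lit 9) (.e (nat_lit 336184) (nat_lit 11) (.e (nat_lit 368676) (nat_lit 21) (.e (nat_lit 516117) (nat_lit 1) (.e (nat_lit 164159) (nat_lit 152) (.e (nat_lit 1047) (nat_lit 81) .nil))))))) (.g (nat_lit 4) .nil .nil)))) (.nd (nat_lit 6) 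
(.lf (nat_lit 68772) (.g (nat_lit 3041) (.e (nat_lit 1649) (nat_lit 115) (.e (nat_lit 393300) (nat_lit 27) (.e (nat_lit 491570) (nat_lit 13) (.e (nat_lit 393238) (nat_lit 17) (.e (nat_lit 7555) (nat_lit 402) .nil))))) .nil)) 
(.lf (nat_lit 68836) (.g (nat_lit 3214) (.e (nat_lit 1650) (nat_lit 115) (.e (nat_lit 393300) (nat_lit 27) (.e (nat_lit 491569) (nat_lit 13) (.e (nat_lit 393234) (nat_lit 17) (.e (nat_lit 7545) (nat_lit 402) .nil))))) .nil)))) (.nd (nat_lit 5) (.nd (nat_lit 6) 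
(.lf (nat_lit 68756) (.g (nat_lit 1780) (.e (nat_lit 1649) (nat_lit 115) (.e (nat_lit 393300) (nat_lit 27) (.e (nat_lit 491547) (nat_lit 9) (.e (nat_lit 336421) (nat_lit 28) (.e (nat_lit 434181) (nat_lit 0) .nil))))) .nil)) 
(.lf (nat_lit 68820) (.g (nat_lit 1989) (.e (nat_lit 1650) (nat_lit 115) (.e (nat_lit 393296) (nat_lit 26) (.e (nat_lit 475198) (nat_lit 40) (.e (nat_lit 704595) (nat_lit 5) (.e (nat_lit 188160) (nat_lit 32) .nil))))) (.g (nat_lit 4) .nil .nil)))) (.nd (nat_lit 6) 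
(.lf (nat_lit 68788) (.g (nat_lit 2176) (.e (nat_lit 1649) (nat_lit 115) (.e (nat_lit 393301) (nat_lit 27) (.e (nat_lit 491567) (nat_lit 13) (.e (nat_lit 393234) (nat_lit 17) (.e (nat_lit 7536) (nat_lit 402) .nil))))) .nil)) 
(.lf (nat_lit 68852) (.g (nat_lit 577) (.e (nat_lit 1651) (nat_lit 115) (.e (nat_lit 393253) (nat_lit 18) (.e (nat_lit 164150) (nat_lit 152) .nil))) .nil))))) (.nd (nat_lit 4) (.nd (nat_lit 5) (.nd (nat_lit 6) 
(.lf (nat_lit 68748) (.g (nat_lit 3202) (.e (nat_lit 1649) (nat_lit 115) (.e (nat_lit 393298) (nat_lit 27) (.e (nat_lit 491571) (nat_lit 13) (.e (nat_lit 393232) (nat_lit 17) (.e (nat_lit 7536) (nat_lit 402) .nil))))) .nil)) 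
(.lf (nat_lit 68812) (.g (nat_lit 1209) (.e (nat_lit 1650) (nat_lit 115) (.e (nat_lit 393268) (nat_lit 23) (.e (nat_lit 426444) (nat_lit 19) .nil))) .nil))) (.nd (nat_lit 6) 
(.lf (nat_lit 68780) (.g (nat_lit 3320) (.e (nat_lit 1649) (nat_lit 115) (.e (nat_lit 393301) (nat_lit 27) (.e (nat_lit 491560) (nat_lit 10) (.e (nat_lit 344090) (nat_lit 18) (.e (nat_lit 7265) (nat_lit 384) .nil))))) .nil)) 
(.lf (nat_lit 68844) (.g (nat_lit 2607) (.e (nat_lit 1650) (nat_lit 115) (.e (nat_lit 393301) (nat_lit 27) (.e (nat_lit 491568) (nat_lit 13) (.e (nat_lit 393233) (nat_lit 17) .nil)))) .nil)))) (.nd (nat_lit 5) (.nd (nat_lit 6) 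
(.lf (nat_lit 68764) (.g (nat_lit 2489) (.e (nat_lit 1649) (nat_lit 115) (.e (nat_lit 393300) (nat_lit 27) (.e (nat_lit 491568) (nat_lit 13) (.e (nat_lit 393234) (nat_lit 17) (.e (nat_lit 7495) (nat_lit 402) .nil))))) .nil)) 
(.lf (nat_lit 68828) (.g (nat_lit 787) (.e (nat_lit 1650) (nat_lit 115) (.e (nat_lit 393298) (nat_lit 27) (.e (nat_lit 491571) (nat_lit 13) .nil))) .nil))) (.nd (nat_lit 6) 
(.lf (nat_lit 68796) (.g (nat_lit 2227) (.e (nat_lit 1650) (nat_lit 115) (.e (nat_lit 393229) (nat_lit 9) (.e (nat_lit 336088) (nat_lit 9) (.e (nat_lit 336019) (nat_lit 3) (.e (nat_lit 98334) (nat_lit 18) (.e (nat_lit 164161) (nat_lit 152) (.e (nat_lit 1032) (nat_lit 81) .nil))))))) (.g (nat_lit 4) .nil .nil))) 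
(.lf (nat_lit 68860) (.g (nat_lit 648) (.e (nat_lit 1651) (nat_lit 115) (.e (nat_lit 393291) (nat_lit 26) (.e (nat_lit 475201) (nat_lit 40) .nil))) .nil))))))) (.nd (nat_lit 2) (.nd (nat_lit 3) (.nd (nat_lit 4) (.nd (nat_lit 5) (.nd (nat_lit 6) 
(.lf (nat_lit 68738) (.g (nat_lit 1493) (.e (nat_lit 1649) (nat_lit 115) (.e (nat_lit 393298) (nat_lit 27) (.e (nat_lit 491570) (nat_lit 13) (.e (nat_lit 393231) (nat_lit 17) .nil)))) .nil)) 
(.lf (nat_lit 68802) (.g (nat_lit 1638) (.e (nat_lit 1650) (nat_lit 115) (.e (nat_lit 393229) (nat_lit 9) (.e (nat_lit 336184) (nat_lit 11) (.e (nat_lit 368676) (nat_lit 21) (.e (nat_lit 516117) (nat_lit 1) (.e (nat_lit 164159) (nat_lit 152) (.e (nat_lit 1032) (nat_lit 81) .nil))))))) (.g (nat_lit 4) .nil .nil)))) (.nd (nat_lit 6) 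
(.lf (nat_lit 68770) (.g (nat_lit 2085) (.e (nat_lit 1649) (nat_lit 115) (.e (nat_lit 393300) (nat_lit 27) (.e (nat_lit 491570) (nat_lit 13) (.e (nat_lit 393232) (nat_lit 17) .nil)))) .nil)) 
(.lf (nat_lit 68834) (.g (nat_lit 2944) (.e (nat_lit 1650) (nat_lit 115) (.e (nat_lit 393300) (nat_lit 27) (.e (nat_lit 491568) (nat_lit 13) (.e (nat_lit 393234) (nat_lit 17) (.e (nat_lit 7545) (nat_lit 402) .nil))))) .nil)))) (.nd (nat_lit 5) (.nd (nat_lit 6) 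
(.lf (nat_lit 68754) (.g (nat_lit 1032) (.e (nat_lit 1649) (nat_lit 115) (.e (nat_lit 393299) (nat_lit 27) (.e (nat_lit 491568) (nat_lit 13) .nil))) .nil)) 
(.lf (nat_lit 68818) (.g (nat_lit 901) (.e (nat_lit 1650) (nat_lit 115) (.e (nat_lit 393296) (nat_lit 26) (.e (nat_lit 475196) (nat_lit 40) (.e (nat_lit 704596) (nat_lit 5) .nil)))) .nil))) (.nd (nat_lit 6) 
(.lf (nat_lit 68786) (.g (nat_lit 872) (.e (nat_lit 1649) (nat_lit 115) (.e (nat_lit 393301) (nat_lit 27) (.e (nat_lit 491567) (nat_lit 13) .nil))) .nil)) 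
(.lf (nat_lit 68850) (.g (nat_lit 1493) (.e (nat_lit 1651) (nat_lit 115) (.e (nat_lit 393229) (nat_lit 9) (.e (nat_lit 336186) (nat_lit 11) (.e (nat_lit 368676) (nat_lit 21) (.e (nat_lit 516117) (nat_lit 1) .nil))))) .nil))))) (.nd (nat_lit 4) (.nd (nat_lit 5) (.nd (nat_lit 6) 
(.lf (nat_lit 68746) (.g (nat_lit 3221) (.e (nat_lit 1649) (nat_lit 115) (.e (nat_lit 393298) (nat_lit 27) (.e (nat_lit 491571) (nat_lit 13) (.e (nat_lit 393232) (nat_lit 17) (.e (nat_lit 7495) (nat_lit 402) .nil))))) .nil)) 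
(.lf (nat_lit 68810) (.g (nat_lit 1454) (.e (nat_lit 1650) (nat_lit 115) (.e (nat_lit 393233) (nat_lit 17) (.e (nat_lit 7581) (nat_lit 405) (.e (nat_lit 57480) (nat_lit 28) (.e (nat_lit 557105) (nat_lit 14) .nil))))) .nil))) (.nd (nat_lit 6) 
(.lf (nat_lit 68778) (.g (nat_lit 760) (.e (nat_lit 1649) (nat_lit 115) (.e (nat_lit 393301) (nat_lit 27) (.e (nat_lit 491559) (nat_lit 10) .nil))) .nil)) 
(.lf (nat_lit 68842) (.g (nat_lit 3159) (.e (nat_lit 1650) (nat_lit 115) (.e (nat_lit 393301) (nat_lit 27) (.e (nat_lit 491560) (nat_lit 10) (.e (nat_lit 344096) (nat_lit 18) .nil)))) .nil)))) (.nd (nat_lit 5) (.nd (nat_lit 6) 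
(.lf (nat_lit 68762) (.g (nat_lit 1270) (.e (nat_lit 1649) (nat_lit 115) (.e (nat_lit 393300) (nat_lit 27) (.e (nat_lit 491556) (nat_lit 9) (.e (nat_lit 336420) (nat_lit 28) .nil)))) .nil)) 
(.lf (nat_lit 68826) (.g (nat_lit 2932) (.e (nat_lit 1650) (nat_lit 115) (.e (nat_lit 393298) (nat_lit 27) (.e (nat_lit 491569) (nat_lit 13) (.e (nat_lit 393234) (nat_lit 17) (.e (nat_lit 7545) (nat_lit 402) .nil))))) .nil))) (.nd (nat_lit 6) 
(.lf (nat_lit 68794) (.g (nat_lit 1890) (.e (nat_lit 1650) (nat_lit 115) (.e (nat_lit 393229) (nat_lit 9) (.e (nat_lit 336087) (nat_lit 9) (.e (nat_lit 336019) (nat_lit 3) (.e (nat_lit 98335) (nat_lit 18) .nil))))) .nil)) 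
(.lf (nat_lit 68858) (.g (nat_lit 1557) (.e (nat_lit 1651) (nat_lit 115) (.e (nat_lit 393291) (nat_lit 26) (.e (nat_lit 475198) (nat_lit 40) (.e (nat_lit 704595) (nat_lit 5) .nil)))) .nil)))))) (.nd (nat_lit 3) (.nd (nat_lit 4) (.nd (nat_lit 5) (.nd (nat_lit 6) 
(.lf (nat_lit 68742) (.g (nat_lit 2213) (.e (nat_lit 1649) (nat_lit 115) (.e (nat_lit 393298) (nat_lit 27) (.e (nat_lit 491570) (nat_lit 13) (.e (nat_lit 393238) (nat_lit 17) (.e (nat_lit 7559) (nat_lit 402) .nil))))) .nil)) 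
(.lf (nat_lit 68806) (.g (nat_lit 2193) (.e (nat_lit 1650) (nat_lit 115) (.e (nat_lit 393229) (nat_lit 9) (.e (nat_lit 336186) (nat_lit 11) (.e (nat_lit 368676) (nat_lit 21) (.e (nat_lit 516117) (nat_lit 1) (.e (nat_lit 164159) (nat_lit 152) (.e (nat_lit 982) (nat_lit 81) .nil))))))) (.g (nat_lit 5) .nil .nil)))) (.nd (nat_lit 6) 
(.lf (nat_lit 68774) (.g (nat_lit 1593) (.e (nat_lit 1649) (nat_lit 115) (.e (nat_lit 393301) (nat_lit 27) (.e (nat_lit 491546) (nat_lit 9) (.e (nat_lit 343808) (nat_lit 25) .nil)))) .nil)) 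
(.lf (nat_lit 68838) (.g (nat_lit 2129) (.e (nat_lit 1650) (nat_lit 115) (.e (nat_lit 393300) (nat_lit 27) (.e (nat_lit 491570) (nat_lit 13) (.e (nat_lit 393232) (nat_lit 17) .nil)))) .nil)))) (.nd (nat_lit 5) (.nd (nat_lit 6) 
(.lf (nat_lit 68758) (.g (nat_lit 2720) (.e (nat_lit 1649) (nat_lit 115) (.e (nat_lit 393300) (nat_lit 27) (.e (nat_lit 491549) (nat_lit 9) (.e (nat_lit 336421) (nat_lit 28) (.e (nat_lit 434180) (nat_lit 0) .nil))))) .nil)) 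
(.lf (nat_lit 68822) (.g (nat_lit 1573) (.e (nat_lit 1650) (nat_lit 115) (.e (nat_lit 393296) (nat_lit 26) (.e (nat_lit 475207) (nat_lit 41) (.e (nat_lit 712749) (nat_lit 28) (.e (nat_lit 442112) (nat_lit 0) .nil))))) (.g (nat_lit 4) .nil .nil)))) (.nd (nat_lit 6) 
(.lf (nat_lit 68790) (.g (nat_lit 1917) (.e (nat_lit 1649) (nat_lit 115) (.e (nat_lit 393301) (nat_lit 27) (.e (nat_lit 491568) (nat_lit 13) (.e (nat_lit 393234) (nat_lit 17) .nil)))) .nil)) 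
(.lf (nat_lit 68854) (.g (nat_lit 932) (.e (nat_lit 1651) (nat_lit 115) (.e (nat_lit 393271) (nat_lit 23) (.e (nat_lit 426444) (nat_lit 19) .nil))) .nil))))) (.nd (nat_lit 4) (.nd (nat_lit 5) (.nd (nat_lit 6) 
(.lf (nat_lit 68750) (.g (nat_lit 2583) (.e (nat_lit 1649) (nat_lit 115) (.e (nat_lit 393298) (nat_lit 27) (.e (nat_lit 491571) (nat_lit 13) (.e (nat_lit 393238) (nat_lit 17) (.e (nat_lit 7555) (nat_lit 402) .nil))))) (.g (nat_lit 4) .nil .nil))) 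
(.lf (nat_lit 68814) (.g (nat_lit 1066) (.e (nat_lit 1650) (nat_lit 115) (.e (nat_lit 393273) (nat_lit 23) (.e (nat_lit 426444) (nat_lit 19) (.e (nat_lit 114432) (nat_lit 5) .nil)))) .nil))) (.nd (nat_lit 6) 
(.lf (nat_lit 68782) (.g (nat_lit 2359) (.e (nat_lit 1649) (nat_lit 115) (.e (nat_lit 393301) (nat_lit 27) (.e (nat_lit 491560) (nat_lit 10) (.e (nat_lit 344094) (nat_lit 18) .nil)))) .nil)) 
(.lf (nat_lit 68846) (.g (nat_lit 1479) (.e (nat_lit 1651) (nat_lit 115) (.e (nat_lit 393229) (nat_lit 9) (.e (nat_lit 336087) (nat_lit 9) (.e (nat_lit 336019) (nat_lit 3) (.e (nat_lit 98334) (nat_lit 18) .nil))))) .nil)))) (.nd (nat_lit 5) (.nd (nat_lit 6) 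
(.lf (nat_lit 68766) (.g (nat_lit 1750) (.e (nat_lit 1649) (nat_lit 115) (.e (nat_lit 393300) (nat_lit 27) (.e (nat_lit 491569) (nat_lit 13) (.e (nat_lit 393234) (nat_lit 17) .nil)))) .nil)) 
(.lf (nat_lit 68830) (.g (nat_lit 2936) (.e (nat_lit 1650) (nat_lit 115) (.e (nat_lit 393298) (nat_lit 27) (.e (nat_lit 491571) (nat_lit 13) (.e (nat_lit 393238) (nat_lit 17) (.e (nat_lit 7936) (nat_lit 402) .nil))))) .nil))) (.nd (nat_lit 6) 
(.lf (nat_lit 68798) (.g (nat_lit 1483) (.e (nat_lit 1650) (nat_lit 115) (.e (nat_lit 393229) (nat_lit 9) (.e (nat_lit 336184) (nat_lit 11) (.e (nat_lit 368676) (nat_lit 21) (.e (nat_lit 516117) (nat_lit 1) .nil))))) .nil)) 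
(.lf (nat_lit 68862) (.g (nat_lit 1695) (.e (nat_lit 1651) (nat_lit 115) (.e (nat_lit 393291) (nat_lit 26) (.e (nat_lit 475210) (nat_lit 41) (.e (nat_lit 712749) (nat_lit 28) .nil)))) .nil)))))))) (.nd (nat_lit 1) (.nd (nat_lit 2) (.nd (nat_lit 3) (.nd (nat_lit 4) (.nd (nat_lit 5) (.nd (nat_lit 6) 
(.lf (nat_lit 68737) (.g (nat_lit 367) (.e (nat_lit 1649) (nat_lit 115) (.e (nat_lit 393298) (nat_lit 27) (.e (nat_lit 491570) (nat_lit 13) .nil))) .nil)) 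
(.lf (nat_lit 68801) (.g (nat_lit 1497) (.e (nat_lit 1650) (nat_lit 115) (.e (nat_lit 393229) (nat_lit 9) (.e (nat_lit 336184) (nat_lit 11) (.e (nat_lit 368676) (nat_lit 21) (.e (nat_lit 516117) (nat_lit 1) (.e (nat_lit 164159) (nat_lit 152) (.e (nat_lit 1027) (nat_lit 81) .nil))))))) (.g (nat_lit 4) .nil .nil)))) (.nd (nat_lit 6) 
(.lf (nat_lit 68769) (.g (nat_lit 2135) (.e (nat_lit 1649) (nat_lit 115) (.e (nat_lit 393300) (nat_lit 27) (.e (nat_lit 491570) (nat_lit 13) (.e (nat_lit 393231) (nat_lit 17) .nil)))) .nil)) 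
(.lf (nat_lit 68833) (.g (nat_lit 939) (.e (nat_lit 1650) (nat_lit 115) (.e (nat_lit 393300) (nat_lit 27) (.e (nat_lit 491538) (nat_lit 3) .nil))) .nil)))) (.nd (nat_lit 5) (.nd (nat_lit 6) 
(.lf (nat_lit 68753) (.g (nat_lit 1483) (.e (nat_lit 1649) (nat_lit 115) (.e (nat_lit 393299) (nat_lit 27) (.e (nat_lit 491552) (nat_lit 9) (.e (nat_lit 336358) (nat_lit 25) .nil)))) .nil)) 
(.lf (nat_lit 68817) (.g (nat_lit 1176) (.e (nat_lit 1650) (nat_lit 115) (.e (nat_lit 393296) (nat_lit 26) (.e (nat_lit 475196) (nat_lit 40) (.e (nat_lit 704595) (nat_lit 5) (.e (nat_lit 188160) (nat_lit 32) .nil))))) .nil))) (.nd (nat_lit 6) 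
(.lf (nat_lit 68785) (.g (nat_lit 2457) (.e (nat_lit 1649) (nat_lit 115) (.e (nat_lit 393301) (nat_lit 27) (.e (nat_lit 491560) (nat_lit 10) (.e (nat_lit 344179) (nat_lit 44) .nil)))) .nil)) 
(.lf (nat_lit 68849) (.g (nat_lit 1891) (.e (nat_lit 1651) (nat_lit 115) (.e (nat_lit 393229) (nat_lit 9) (.e (nat_lit 336184) (nat_lit 11) (.e (nat_lit 368676) (nat_lit 21) (.e (nat_lit 516117) (nat_lit 1) (.e (nat_lit 164159) (nat_lit 152) (.e (nat_lit 1035) (nat_lit 81) .nil))))))) (.g (nat_lit 5) .nil .nil)))))) (.nd (nat_lit 4) (.nd (nat_lit 5) (.nd (nat_lit 6) 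
(.lf (nat_lit 68745) (.g (nat_lit 2231) (.e (nat_lit 1649) (nat_lit 115) (.e (nat_lit 393298) (nat_lit 27) (.e (nat_lit 491571) (nat_lit 13) (.e (nat_lit 393232) (nat_lit 17) .nil)))) .nil)) 
(.lf (nat_lit 68809) (.g (nat_lit 1686) (.e (nat_lit 1650) (nat_lit 115) (.e (nat_lit 393229) (nat_lit 9) (.e (nat_lit 336186) (nat_lit 11) (.e (nat_lit 368676) (nat_lit 21) (.e (nat_lit 516117) (nat_lit 1) (.e (nat_lit 164159) (nat_lit 152) (.e (nat_lit 1047) (nat_lit 81) .nil))))))) (.g (nat_lit 4) .nil .nil)))) (.nd (nat_lit 6) 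
(.lf (nat_lit 68777) (.g (nat_lit 3139) (.e (nat_lit 1649) (nat_lit 115) (.e (nat_lit 393301) (nat_lit 27) (.e (nat_lit 491552) (nat_lit 9) (.e (nat_lit 336358) (nat_lit 25) (.e (nat_lit 409602) (nat_lit 0) (.e (nat_lit 5293) (nat_lit 298) .nil)))))) (.g (nat_lit 6) .nil .nil))) 
(.lf (nat_lit 68841) (.g (nat_lit 2771) (.e (nat_lit 1650) (nat_lit 115) (.e (nat_lit 393301) (nat_lit 27) (.e (nat_lit 491560) (nat_lit 10) (.e (nat_lit 344094) (nat_lit 18) .nil)))) .nil)))) (.nd (nat_lit 5) (.nd (nat_lit 6) 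
(.lf (nat_lit 68761) (.g (nat_lit 1150) (.e (nat_lit 1649) (nat_lit 115) (.e (nat_lit 393300) (nat_lit 27) (.e (nat_lit 491552) (nat_lit 9) (.e (nat_lit 336358) (nat_lit 25) .nil)))) .nil)) 
(.lf (nat_lit 68825) (.g (nat_lit 1197) (.e (nat_lit 1650) (nat_lit 115) (.e (nat_lit 393296) (nat_lit 26) (.e (nat_lit 475209) (nat_lit 41) (.e (nat_lit 712749) (nat_lit 28) .nil)))) .nil))) (.nd (nat_lit 6) 
(.lf (nat_lit 68793) (.g (nat_lit 2050) (.e (nat_lit 1650) (nat_lit 115) (.e (nat_lit 393229) (nat_lit 9) (.e (nat_lit 336087) (nat_lit 9) (.e (nat_lit 336019) (nat_lit 3) (.e (nat_lit 98334) (nat_lit 18) (.e (nat_lit 164161) (nat_lit 152) (.e (nat_lit 1032) (nat_lit 81) .nil))))))) (.g (nat_lit 4) .nil .nil))) 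
(.lf (nat_lit 68857) (.g (nat_lit 682) (.e (nat_lit 1651) (nat_lit 115) (.e (nat_lit 393291) (nat_lit 26) (.e (nat_lit 475198) (nat_lit 40) .nil))) .nil)))))) (.nd (nat_lit 3) (.nd (nat_lit 4) (.nd (nat_lit 5) (.nd (nat_lit 6) 
(.lf (nat_lit 68741) (.g (nat_lit 2381) (.e (nat_lit 1649) (nat_lit 115) (.e (nat_lit 393298) (nat_lit 27) (.e (nat_lit 491570) (nat_lit 13) (.e (nat_lit 393238) (nat_lit 17) (.e (nat_lit 7555) (nat_lit 402) .nil))))) (.g (nat_lit 5) .nil .nil))) 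
(.lf (nat_lit 68805) (.g (nat_lit 1605) (.e (nat_lit 1650) (nat_lit 115) (.e (nat_lit 393229) (nat_lit 9) (.e (nat_lit 336186) (nat_lit 11) (.e (nat_lit 368676) (nat_lit 21) (.e (nat_lit 516117) (nat_lit 1) .nil))))) .nil))) (.nd (nat_lit 6) 
(.lf (nat_lit 68773) (.g (nat_lit 2156) (.e (nat_lit 1649) (nat_lit 115) (.e (nat_lit 393300) (nat_lit 27) (.e (nat_lit 491570) (nat_lit 13) (.e (nat_lit 393239) (nat_lit 17) .nil)))) .nil)) 
(.lf (nat_lit 68837) (.g (nat_lit 2156) (.e (nat_lit 1650) (nat_lit 115) (.e (nat_lit 393300) (nat_lit 27) (.e (nat_lit 491570) (nat_lit 13) (.e (nat_lit 393230) (nat_lit 17) .nil)))) .nil)))) (.nd (nat_lit 5) (.nd (nat_lit 6) 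
(.lf (nat_lit 68757) (.g (nat_lit 1433) (.e (nat_lit 1649) (nat_lit 115) (.e (nat_lit 393300) (nat_lit 27) (.e (nat_lit 491548) (nat_lit 9) (.e (nat_lit 336421) (nat_lit 28) .nil)))) .nil)) 
(.lf (nat_lit 68821) (.g (nat_lit 1392) (.e (nat_lit 1650) (nat_lit 115) (.e (nat_lit 393296) (nat_lit 26) (.e (nat_lit 475207) (nat_lit 41) (.e (nat_lit 712747) (nat_lit 28) (.e (nat_lit 442112) (nat_lit 0) .nil))))) (.g (nat_lit 4) .nil .nil)))) (.nd (nat_lit 6) 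
(.lf (nat_lit 68789) (.g (nat_lit 796) (.e (nat_lit 1649) (nat_lit 115) (.e (nat_lit 393301) (nat_lit 27) (.e (nat_lit 491568) (nat_lit 13) .nil))) .nil)) 
(.lf (nat_lit 68853) (.g (nat_lit 2205) (.e (nat_lit 1651) (nat_lit 115) (.e (nat_lit 393268) (nat_lit 23) (.e (nat_lit 426444) (nat_lit 19) (.e (nat_lit 114432) (nat_lit 5) .nil)))) .nil))))) (.nd (nat_lit 4) (.nd (nat_lit 5) (.nd (nat_lit 6) 
(.lf (nat_lit 68749) (.g (nat_lit 2168) (.e (nat_lit 1649) (nat_lit 115) (.e (nat_lit 393298) (nat_lit 27) (.e (nat_lit 491571) (nat_lit 13) (.e (nat_lit 393235) (nat_lit 17) .nil)))) .nil)) 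
(.lf (nat_lit 68813) (.g (nat_lit 607) (.e (nat_lit 1650) (nat_lit 115) (.e (nat_lit 393273) (nat_lit 23) (.e (nat_lit 426364) (nat_lit 15) .nil))) .nil))) (.nd (nat_lit 6) 
(.lf (nat_lit 68781) (.g (nat_lit 2814) (.e (nat_lit 1649) (nat_lit 115) (.e (nat_lit 393301) (nat_lit 27) (.e (nat_lit 491560) (nat_lit 10) (.e (nat_lit 344091) (nat_lit 18) .nil)))) .nil)) 
(.lf (nat_lit 68845) (.g (nat_lit 2643) (.e (nat_lit 1650) (nat_lit 115) (.e (nat_lit 393301) (nat_lit 27) (.e (nat_lit 491568) (nat_lit 13) (.e (nat_lit 393234) (nat_lit 17) .nil)))) .nil)))) (.nd (nat_lit 5) (.nd (nat_lit 6) 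
(.lf (nat_lit 68765) (.g (nat_lit 2379) (.e (nat_lit 1649) (nat_lit 115) (.e (nat_lit 393300) (nat_lit 27) (.e (nat_lit 491568) (nat_lit 13) (.e (nat_lit 393234) (nat_lit 17) (.e (nat_lit 7536) (nat_lit 402) .nil))))) .nil)) 
(.lf (nat_lit 68829) (.g (nat_lit 2329) (.e (nat_lit 1650) (nat_lit 115) (.e (nat_lit 393298) (nat_lit 27) (.e (nat_lit 491571) (nat_lit 13) (.e (nat_lit 393235) (nat_lit 17) .nil)))) .nil))) (.nd (nat_lit 6) 
(.lf (nat_lit 68797) (.g (nat_lit 2098) (.e (nat_lit 1650) (nat_lit 115) (.e (nat_lit 393229) (nat_lit 9) (.e (nat_lit 336088) (nat_lit 9) (.e (nat_lit 336019) (nat_lit 3) (.e (nat_lit 98335) (nat_lit 18) .nil))))) .nil)) 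
(.lf (nat_lit 68861) (.g (nat_lit 1795) (.e (nat_lit 1651) (nat_lit 115) (.e (nat_lit 393291) (nat_lit 26) (.e (nat_lit 475210) (nat_lit 41) (.e (nat_lit 712747) (nat_lit 28) .nil)))) .nil))))))) (.nd (nat_lit 2) (.nd (nat_lit 3) (.nd (nat_lit 4) (.nd (nat_lit 5) (.nd (nat_lit 6) 
(.lf (nat_lit 68739) (.g (nat_lit 1344) (.e (nat_lit 1649) (nat_lit 115) (.e (nat_lit 393298) (nat_lit 27) (.e (nat_lit 491570) (nat_lit 13) (.e (nat_lit 393232) (nat_lit 17) .nil)))) .nil)) 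
(.lf (nat_lit 68803) (.g (nat_lit 2469) (.e (nat_lit 1650) (nat_lit 115) (.e (nat_lit 393229) (nat_lit 9) (.e (nat_lit 336184) (nat_lit 11) (.e (nat_lit 368676) (nat_lit 21) (.e (nat_lit 516117) (nat_lit 1) (.e (nat_lit 164159) (nat_lit 152) (.e (nat_lit 1035) (nat_lit 81) .nil))))))) (.g (nat_lit 6) .nil .nil)))) (.nd (nat_lit 6) 
(.lf (nat_lit 68771) (.g (nat_lit 1623) (.e (nat_lit 1649) (nat_lit 115) (.e (nat_lit 393300) (nat_lit 27) (.e (nat_lit 491570) (nat_lit 13) (.e (nat_lit 393238) (nat_lit 17) .nil)))) .nil)) 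
(.lf (nat_lit 68835) (.g (nat_lit 1921) (.e (nat_lit 1650) (nat_lit 115) (.e (nat_lit 393300) (nat_lit 27) (.e (nat_lit 491569) (nat_lit 13) (.e (nat_lit 393233) (nat_lit 17) .nil)))) .nil)))) (.nd (nat_lit 5) (.nd (nat_lit 6) 
(.lf (nat_lit 68755) (.g (nat_lit 804) (.e (nat_lit 1649) (nat_lit 115) (.e (nat_lit 393299) (nat_lit 27) (.e (nat_lit 491570) (nat_lit 13) .nil))) .nil)) 
(.lf (nat_lit 68819) (.g (nat_lit 1718) (.e (nat_lit 1650) (nat_lit 115) (.e (nat_lit 393296) (nat_lit 26) (.e (nat_lit 475197) (nat_lit 40) (.e (nat_lit 704595) (nat_lit 5) (.e (nat_lit 188160) (nat_lit 32) .nil))))) .nil))) (.nd (nat_lit 6) 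
(.lf (nat_lit 68787) (.g (nat_lit 1723) (.e (nat_lit 1649) (nat_lit 115) (.e (nat_lit 393301) (nat_lit 27) (.e (nat_lit 491567) (nat_lit 13) (.e (nat_lit 393234) (nat_lit 17) .nil)))) .nil)) 
(.lf (nat_lit 68851) (.g (nat_lit 1142) (.e (nat_lit 1651) (nat_lit 115) (.e (nat_lit 393251) (nat_lit 18) (.e (nat_lit 164179) (nat_lit 154) .nil))) .nil))))) (.nd (nat_lit 4) (.nd (nat_lit 5) (.nd (nat_lit 6) 
(.lf (nat_lit 68747) (.g (nat_lit 3224) (.e (nat_lit 1649) (nat_lit 115) (.e (nat_lit 393298) (nat_lit 27) (.e (nat_lit 491571) (nat_lit 13) (.e (nat_lit 393232) (nat_lit 17) (.e (nat_lit 7500) (nat_lit 402) .nil))))) .nil)) 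
(.lf (nat_lit 68811) (.g (nat_lit 1956) (.e (nat_lit 1650) (nat_lit 115) (.e (nat_lit 393234) (nat_lit 17) (.e (nat_lit 7581) (nat_lit 405) (.e (nat_lit 57480) (nat_lit 28) (.e (nat_lit 557105) (nat_lit 14) .nil))))) .nil))) (.nd (nat_lit 6) 
(.lf (nat_lit 68779) (.g (nat_lit 2724) (.e (nat_lit 1649) (nat_lit 115) (.e (nat_lit 393301) (nat_lit 27) (.e (nat_lit 491560) (nat_lit 10) (.e (nat_lit 344090) (nat_lit 18) .nil)))) .nil)) 
(.lf (nat_lit 68843) (.g (nat_lit 971) (.e (nat_lit 1650) (nat_lit 115) (.e (nat_lit 393301) (nat_lit 27) (.e (nat_lit 491567) (nat_lit 13) .nil))) .nil)))) (.nd (nat_lit 5) (.nd (nat_lit 6) 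
(.lf (nat_lit 68763) (.g (nat_lit 723) (.e (nat_lit 1649) (nat_lit 115) (.e (nat_lit 393300) (nat_lit 27) (.e (nat_lit 491567) (nat_lit 13) .nil))) .nil)) 
(.lf (nat_lit 68827) (.g (nat_lit 2378) (.e (nat_lit 1650) (nat_lit 115) (.e (nat_lit 393298) (nat_lit 27) (.e (nat_lit 491570) (nat_lit 13) (.e (nat_lit 393238) (nat_lit 17) (.e (nat_lit 7936) (nat_lit 402) .nil))))) (.g (nat_lit 4) .nil .nil)))) (.nd (nat_lit 6) 
(.lf (nat_lit 68795) (.g (nat_lit 2153) (.e (nat_lit 1650) (nat_lit 115) (.e (nat_lit 393229) (nat_lit 9) (.e (nat_lit 336088) (nat_lit 9) (.e (nat_lit 336019) (nat_lit 3) (.e (nat_lit 98334) (nat_lit 18) .nil))))) .nil)) 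
(.lf (nat_lit 68859) (.g (nat_lit 2040) (.e (nat_lit 1651) (nat_lit 115) (.e (nat_lit 393291) (nat_lit 26) (.e (nat_lit 475199) (nat_lit 40) (.e (nat_lit 704595) (nat_lit 5) (.e (nat_lit 188160) (nat_lit 32) .nil))))) (.g (nat_lit 4) .nil .nil))))))) (.nd (nat_lit 3) (.nd (nat_lit 4) (.nd (nat_lit 5) (.nd (nat_lit 6) 
(.lf (nat_lit 68743) (.g (nat_lit 1948) (.e (nat_lit 1649) (nat_lit 115) (.e (nat_lit 393298) (nat_lit 27) (.e (nat_lit 491570) (nat_lit 13) (.e (nat_lit 393238) (nat_lit 17) (.e (nat_lit 7936) (nat_lit 402) .nil))))) (.g (nat_lit 4) .nil .nil))) 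
(.lf (nat_lit 68807) (.g (nat_lit 2247) (.e (nat_lit 1650) (nat_lit 115) (.e (nat_lit 393229) (nat_lit 9) (.e (nat_lit 336186) (nat_lit 11) (.e (nat_lit 368676) (nat_lit 21) (.e (nat_lit 516117) (nat_lit 1) (.e (nat_lit 164159) (nat_lit 152) (.e (nat_lit 1022) (nat_lit 81) .nil))))))) (.g (nat_lit 5) .nil .nil)))) (.nd (nat_lit 6) 
(.lf (nat_lit 68775) (.g (nat_lit 1317) (.e (nat_lit 1649) (nat_lit 115) (.e (nat_lit 393301) (nat_lit 27) (.e (nat_lit 491552) (nat_lit 9) (.e (nat_lit 336248) (nat_lit 15) .nil)))) .nil)) 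
(.lf (nat_lit 68839) (.g (nat_lit 2620) (.e (nat_lit 1650) (nat_lit 115) (.e (nat_lit 393300) (nat_lit 27) (.e (nat_lit 491570) (nat_lit 13) (.e (nat_lit 393238) (nat_lit 17) (.e (nat_lit 7936) (nat_lit 402) .nil))))) .nil)))) (.nd (nat_lit 5) (.nd (nat_lit 6) 
(.lf (nat_lit 68759) (.g (nat_lit 2508) (.e (nat_lit 1649) (nat_lit 115) (.e (nat_lit 393300) (nat_lit 27) (.e (nat_lit 491549) (nat_lit 9) (.e (nat_lit 336421) (nat_lit 28) (.e (nat_lit 434181) (nat_lit 0) .nil))))) .nil)) 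
(.lf (nat_lit 68823) (.g (nat_lit 866) (.e (nat_lit 1650) (nat_lit 115) (.e (nat_lit 393296) (nat_lit 26) (.e (nat_lit 475208) (nat_lit 41) .nil))) .nil))) (.nd (nat_lit 6) 
(.lf (nat_lit 68791) (.g (nat_lit 2456) (.e (nat_lit 1650) (nat_lit 115) (.e (nat_lit 393225) (nat_lit 9) (.e (nat_lit 336204) (nat_lit 12) (.e (nat_lit 385074) (nat_lit 31) (.e (nat_lit 573473) (nat_lit 12) .nil))))) .nil)) 
(.lf (nat_lit 68855) (.g (nat_lit 495) (.e (nat_lit 1651) (nat_lit 115) (.e (nat_lit 393274) (nat_lit 23) (.e (nat_lit 426412) (nat_lit 15) .nil))) .nil))))) (.nd (nat_lit 4) (.nd (nat_lit 5) (.nd (nat_lit 6) 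
(.lf (nat_lit 68751) (.g (nat_lit 2476) (.e (nat_lit 1649) (nat_lit 115) (.e (nat_lit 393298) (nat_lit 27) (.e (nat_lit 491571) (nat_lit 13) (.e (nat_lit 393238) (nat_lit 17) (.e (nat_lit 7936) (nat_lit 402) .nil))))) .nil)) 
(.lf (nat_lit 68815) (.g (nat_lit 1271) (.e (nat_lit 1650) (nat_lit 115) (.e (nat_lit 393281) (nat_lit 23) (.e (nat_lit 426133) (nat_lit 3) (.e (nat_lit 212736) (nat_lit 10) .nil)))) .nil))) (.nd (nat_lit 6) 
(.lf (nat_lit 68783) (.g (nat_lit 2747) (.e (nat_lit 1649) (nat_lit 115) (.e (nat_lit 393301) (nat_lit 27) (.e (nat_lit 491560) (nat_lit 10) (.e (nat_lit 344096) (nat_lit 18) .nil)))) .nil)) 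
(.lf (nat_lit 68847) (.g (nat_lit 1366) (.e (nat_lit 1651) (nat_lit 115) (.e (nat_lit 393229) (nat_lit 9) (.e (nat_lit 336184) (nat_lit 11) (.e (nat_lit 368676) (nat_lit 21) (.e (nat_lit 516117) (nat_lit 1) .nil))))) .nil)))) (.nd (nat_lit 5) (.nd (nat_lit 6) 
(.lf (nat_lit 68767) (.g (nat_lit 2927) (.e (nat_lit 1649) (nat_lit 115) (.e (nat_lit 393300) (nat_lit 27) (.e (nat_lit 491569) (nat_lit 13) (.e (nat_lit 393234) (nat_lit 17) (.e (nat_lit 7495) (nat_lit 402) .nil))))) .nil)) 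
(.lf (nat_lit 68831) (.g (nat_lit 1032) (.e (nat_lit 1650) (nat_lit 115) (.e (nat_lit 393299) (nat_lit 27) (.e (nat_lit 491568) (nat_lit 13) .nil))) .nil))) (.nd (nat_lit 6) 
(.lf (nat_lit 68799) (.g (nat_lit 2068) (.e (nat_lit 1650) (nat_lit 115) (.e (nat_lit 393229) (nat_lit 9) (.e (nat_lit 336184) (nat_lit 11) (.e (nat_lit 368676) (nat_lit 21) (.e (nat_lit 516117) (nat_lit 1) (.e (nat_lit 164159) (nat_lit 152) (.e (nat_lit 982) (nat_lit 81) .nil))))))) (.g (nat_lit 5) .nil .nil))) 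
(.lf (nat_lit 68863) (.g (nat_lit 898) (.e (nat_lit 1651) (nat_lit 115) (.e (nat_lit 393291) (nat_lit 26) (.e (nat_lit 475211) (nat_lit 41) .nil))) .nil)))))))))

noncomputable def tv946 : DT := (.nd (nat_lit 0) (.nd (nat_lit 1) (.nd (nat_lit 2) (.nd (nat_lit 3) (.nd (nat_lit 4) (.nd (nat_lit 5) (.nd (nat_lit 6) 
(.lf (nat_lit 68864) (.g (nat_lit 867) (.e (nat_lit 1651) (nat_lit 115) (.e (nat_lit 393294) (nat_lit 26) (.e (nat_lit 475198) (nat_lit 40) .nil))) .nil)) 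
(.lf (nat_lit 68928) (.g (nat_lit 403) (.e (nat_lit 1654) (nat_lit 115) (.e (nat_lit 393293) (nat_lit 26) (.e (nat_lit 475205) (nat_lit 40) .nil))) .nil))) (.nd (nat_lit 6) 
(.lf (nat_lit 68896) (.g (nat_lit 1258) (.e (nat_lit 1653) (nat_lit 115) (.e (nat_lit 393296) (nat_lit 26) (.e (nat_lit 475207) (nat_lit 41) (.e (nat_lit 712747) (nat_lit 28) (.e (nat_lit 442112) (nat_lit 0) .nil))))) (.g (nat_lit 4) .nil .nil))) 
(.lf (nat_lit 68960) (.g (nat_lit 1669) (.e (nat_lit 1655) (nat_lit 115) (.e (nat_lit 393297) (nat_lit 27) (.e (nat_lit 491571) (nat_lit 13) (.e (nat_lit 393231) (nat_lit 17) .nil)))) .nil)))) (.nd (nat_lit 5) (.nd (nat_lit 6) 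
(.lf (nat_lit 68880) (.g (nat_lit 621) (.e (nat_lit 1652) (nat_lit 115) (.e (nat_lit 393294) (nat_lit 26) (.e (nat_lit 475209) (nat_lit 41) .nil))) .nil)) 
(.lf (nat_lit 68944) (.g (nat_lit 1821) (.e (nat_lit 1654) (nat_lit 115) (.e (nat_lit 393300) (nat_lit 27) (.e (nat_lit 491568) (nat_lit 13) (.e (nat_lit 393234) (nat_lit 17) .nil)))) .nil))) (.nd (nat_lit 6) 
(.lf (nat_lit 68912) (.g (nat_lit 1644) (.e (nat_lit 1654) (nat_lit 115) (.e (nat_lit 393225) (nat_lit 9) (.e (nat_lit 336076) (nat_lit 9) (.e (nat_lit 336324) (nat_lit 18) .nil)))) .nil)) 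
(.lf (nat_lit 68976) (.g (nat_lit 1820) (.e (nat_lit 1656) (nat_lit 115) (.e (nat_lit 393225) (nat_lit 9) (.e (nat_lit 336088) (nat_lit 9) (.e (nat_lit 335878) (nat_lit 0) (.e (nat_lit 1831) (nat_lit 122) .nil))))) .nil))))) (.nd (nat_lit 4) (.nd (nat_lit 5) (.nd (nat_lit 6) 
(.lf (nat_lit 68872) (.g (nat_lit 1141) (.e (nat_lit 1652) (nat_lit 115) (.e (nat_lit 393251) (nat_lit 18) (.e (nat_lit 164179) (nat_lit 154) .nil))) .nil)) 
(.lf (nat_lit 68936) (.g (nat_lit 789) (.e (nat_lit 1654) (nat_lit 115) (.e (nat_lit 393298) (nat_lit 27) (.e (nat_lit 491549) (nat_lit 9) .nil))) .nil))) (.nd (nat_lit 6) 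
(.lf (nat_lit 68904) (.g (nat_lit 2362) (.e (nat_lit 1653) (nat_lit 115) (.e (nat_lit 393298) (nat_lit 27) (.e (nat_lit 491571) (nat_lit 13) (.e (nat_lit 393232) (nat_lit 17) .nil)))) .nil)) 
(.lf (nat_lit 68968) (.g (nat_lit 884) (.e (nat_lit 1656) (nat_lit 115) (.e (nat_lit 393225) (nat_lit 9) (.e (nat_lit 336067) (nat_lit 8) .nil))) .nil)))) (.nd (nat_lit 5) (.nd (nat_lit 6) 
(.lf (nat_lit 68888) (.g (nat_lit 1209) (.e (nat_lit 1653) (nat_lit 115) (.e (nat_lit 393268) (nat_lit 23) (.e (nat_lit 426444) (nat_lit 19) .nil))) .nil)) 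
(.lf (nat_lit 68952) (.g (nat_lit 2632) (.e (nat_lit 1654) (nat_lit 115) (.e (nat_lit 393301) (nat_lit 27) (.e (nat_lit 491568) (nat_lit 13) (.e (nat_lit 393233) (nat_lit 17) .nil)))) .nil))) (.nd (nat_lit 6) 
(.lf (nat_lit 68920) (.g (nat_lit 1209) (.e (nat_lit 1654) (nat_lit 115) (.e (nat_lit 393268) (nat_lit 23) (.e (nat_lit 426444) (nat_lit 19) .nil))) .nil)) 
(.lf (nat_lit 68984) (.g (nat_lit 1948) (.e (nat_lit 1656) (nat_lit 115) (.e (nat_lit 393225) (nat_lit 9) (.e (nat_lit 336100) (nat_lit 9) (.e (nat_lit 336013) (nat_lit 2) (.e (nat_lit 98048) (nat_lit 3) (.e (nat_lit 57569) (nat_lit 53) (.e (nat_lit 761868) (nat_lit 5) .nil))))))) (.g (nat_lit 4) .nil .nil))))))) (.nd (nat_lit 3) (.nd (nat_lit 4) (.nd (nat_lit 5) (.nd (nat_lit 6) 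
(.lf (nat_lit 68868) (.g (nat_lit 1655) (.e (nat_lit 1652) (nat_lit 115) (.e (nat_lit 393229) (nat_lit 9) (.e (nat_lit 336087) (nat_lit 9) (.e (nat_lit 336019) (nat_lit 3) (.e (nat_lit 98334) (nat_lit 18) .nil))))) .nil)) 
(.lf (nat_lit 68932) (.g (nat_lit 993) (.e (nat_lit 1654) (nat_lit 115) (.e (nat_lit 393296) (nat_lit 26) (.e (nat_lit 475207) (nat_lit 41) .nil))) .nil))) (.nd (nat_lit 6) 
(.lf (nat_lit 68900) (.g (nat_lit 1278) (.e (nat_lit 1653) (nat_lit 115) (.e (nat_lit 393296) (nat_lit 26) (.e (nat_lit 475209) (nat_lit 41) (.e (nat_lit 712747) (nat_lit 28) .nil)))) .nil)) 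
(.lf (nat_lit 68964) (.g (nat_lit 751) (.e (nat_lit 1656) (nat_lit 115) (.e (nat_lit 393225) (nat_lit 9) (.e (nat_lit 335988) (nat_lit 1) .nil))) .nil)))) (.nd (nat_lit 5) (.nd (nat_lit 6) 
(.lf (nat_lit 68884) (.g (nat_lit 720) (.e (nat_lit 1653) (nat_lit 115) (.e (nat_lit 393229) (nat_lit 9) (.e (nat_lit 336087) (nat_lit 9) .nil))) .nil)) 
(.lf (nat_lit 68948) (.g (nat_lit 1685) (.e (nat_lit 1654) (nat_lit 115) (.e (nat_lit 393301) (nat_lit 27) (.e (nat_lit 491552) (nat_lit 9) (.e (nat_lit 336363) (nat_lit 26) .nil)))) .nil))) (.nd (nat_lit 6) 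
(.lf (nat_lit 68916) (.g (nat_lit 594) (.e (nat_lit 1654) (nat_lit 115) (.e (nat_lit 393225) (nat_lit 9) (.e (nat_lit 336196) (nat_lit 12) .nil))) .nil)) 
(.lf (nat_lit 68980) (.g (nat_lit 1866) (.e (nat_lit 1656) (nat_lit 115) (.e (nat_lit 393225) (nat_lit 9) (.e (nat_lit 336088) (nat_lit 9) (.e (nat_lit 336019) (nat_lit 3) (.e (nat_lit 98333) (nat_lit 18) .nil))))) .nil))))) (.nd (nat_lit 4) (.nd (nat_lit 5) (.nd (nat_lit 6) 
(.lf (nat_lit 68876) (.g (nat_lit 1738) (.e (nat_lit 1652) (nat_lit 115) (.e (nat_lit 393291) (nat_lit 26) (.e (nat_lit 475199) (nat_lit 40) (.e (nat_lit 704595) (nat_lit 5) (.e (nat_lit 188160) (nat_lit 32) .nil))))) (.g (nat_lit 4) .nil .nil))) 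
(.lf (nat_lit 68940) (.g (nat_lit 2323) (.e (nat_lit 1654) (nat_lit 115) (.e (nat_lit 393298) (nat_lit 27) (.e (nat_lit 491571) (nat_lit 13) (.e (nat_lit 393231) (nat_lit 17) .nil)))) .nil))) (.nd (nat_lit 6) 
(.lf (nat_lit 68908) (.g (nat_lit 1028) (.e (nat_lit 1653) (nat_lit 115) (.e (nat_lit 393301) (nat_lit 27) (.e (nat_lit 491568) (nat_lit 13) .nil))) .nil)) 
(.lf (nat_lit 68972) (.g (nat_lit 900) (.e (nat_lit 1656) (nat_lit 115) (.e (nat_lit 393225) (nat_lit 9) (.e (nat_lit 336087) (nat_lit 9) (.e (nat_lit 336019) (nat_lit 3) .nil)))) .nil)))) (.nd (nat_lit 5) (.nd (nat_lit 6) 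
(.lf (nat_lit 68892) (.g (nat_lit 974) (.e (nat_lit 1653) (nat_lit 115) (.e (nat_lit 393296) (nat_lit 26) (.e (nat_lit 475196) (nat_lit 40) (.e (nat_lit 704595) (nat_lit 5) .nil)))) .nil)) 
(.lf (nat_lit 68956) (.g (nat_lit 1714) (.e (nat_lit 1655) (nat_lit 115) (.e (nat_lit 393251) (nat_lit 18) (.e (nat_lit 164190) (nat_lit 157) (.e (nat_lit 229409) (nat_lit 13) .nil)))) .nil))) (.nd (nat_lit 6) 
(.lf (nat_lit 68924) (.g (nat_lit 393) (.e (nat_lit 1654) (nat_lit 115) (.e (nat_lit 393274) (nat_lit 23) (.e (nat_lit 426132) (nat_lit 3) .nil))) .nil)) 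
(.lf (nat_lit 68988) (.g (nat_lit 1798) (.e (nat_lit 1656) (nat_lit 115) (.e (nat_lit 393225) (nat_lit 9) (.e (nat_lit 336165) (nat_lit 10) (.e (nat_lit 344123) (nat_lit 24) (.e (nat_lit 540675) (nat_lit 0) (.e (nat_lit 2270) (nat_lit 149) (.e (nat_lit 761867) (nat_lit 5) .nil))))))) (.g (nat_lit 4) .nil .nil)))))))) 
(.nd (nat_lit 2) (.nd (nat_lit 3) (.nd (nat_lit 4) (.nd (nat_lit 5) (.nd (nat_lit 6) 
(.lf (nat_lit 68866) (.g (nat_lit 778) (.e (nat_lit 1651) (nat_lit 115) (.e (nat_lit 393298) (nat_lit 27) (.e (nat_lit 491571) (nat_lit 13) .nil))) .nil)) 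
(.lf (nat_lit 68930) (.g (nat_lit 809) (.e (nat_lit 1654) (nat_lit 115) (.e (nat_lit 393294) (nat_lit 26) (.e (nat_lit 475199) (nat_lit 40) .nil))) .nil))) (.nd (nat_lit 6) 
(.lf (nat_lit 68898) (.g (nat_lit 856) (.e (nat_lit 1653) (nat_lit 115) (.e (nat_lit 393296) (nat_lit 26) (.e (nat_lit 475208) (nat_lit 41) .nil))) .nil)) 
(.lf (nat_lit 68962) (.g (nat_lit 2296) (.e (nat_lit 1655) (nat_lit 115) (.e (nat_lit 393298) (nat_lit 27) (.e (nat_lit 491571) (nat_lit 13) (.e (nat_lit 393231) (nat_lit 17) .nil)))) .nil)))) (.nd (nat_lit 5) (.nd (nat_lit 6) 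
(.lf (nat_lit 68882) (.g (nat_lit 1488) (.e (nat_lit 1652) (nat_lit 115) (.e (nat_lit 393294) (nat_lit 26) (.e (nat_lit 475211) (nat_lit 41) (.e (nat_lit 712749) (nat_lit 28) .nil)))) .nil)) 
(.lf (nat_lit 68946) (.g (nat_lit 2107) (.e (nat_lit 1654) (nat_lit 115) (.e (nat_lit 393300) (nat_lit 27) (.e (nat_lit 491570) (nat_lit 13) (.e (nat_lit 393232) (nat_lit 17) .nil)))) .nil))) (.nd (nat_lit 6) 
(.lf (nat_lit 68914) (.g (nat_lit 2222) (.e (nat_lit 1654) (nat_lit 115) (.e (nat_lit 393225) (nat_lit 9) (.e (nat_lit 336088) (nat_lit 9) (.e (nat_lit 336324) (nat_lit 18) (.e (nat_lit 204830) (nat_lit 18) .nil))))) .nil)) 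
(.lf (nat_lit 68978) (.g (nat_lit 2305) (.e (nat_lit 1656) (nat_lit 115) (.e (nat_lit 393225) (nat_lit 9) (.e (nat_lit 336088) (nat_lit 9) (.e (nat_lit 336016) (nat_lit 2) (.e (nat_lit 98048) (nat_lit 3) (.e (nat_lit 57569) (nat_lit 53) (.e (nat_lit 761866) (nat_lit 5) .nil))))))) (.g (nat_lit 4) .nil .nil)))))) (.nd (nat_lit 4) (.nd (nat_lit 5) (.nd (nat_lit 6) 
(.lf (nat_lit 68874) (.g (nat_lit 1265) (.e (nat_lit 1652) (nat_lit 115) (.e (nat_lit 393271) (nat_lit 23) (.e (nat_lit 426131) (nat_lit 3) .nil))) .nil)) 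
(.lf (nat_lit 68938) (.g (nat_lit 1866) (.e (nat_lit 1654) (nat_lit 115) (.e (nat_lit 393298) (nat_lit 27) (.e (nat_lit 491569) (nat_lit 13) (.e (nat_lit 393234) (nat_lit 17) .nil)))) .nil))) (.nd (nat_lit 6) 
(.lf (nat_lit 68906) (.g (nat_lit 971) (.e (nat_lit 1653) (nat_lit 115) (.e (nat_lit 393301) (nat_lit 27) (.e (nat_lit 491567) (nat_lit 13) .nil))) .nil)) 
(.lf (nat_lit 68970) (.g (nat_lit 2709) (.e (nat_lit 1656) (nat_lit 115) (.e (nat_lit 393225) (nat_lit 9) (.e (nat_lit 336073) (nat_lit 9) (.e (nat_lit 336013) (nat_lit 2) (.e (nat_lit 98048) (nat_lit 3) (.e (nat_lit 57569) (nat_lit 53) (.e (nat_lit 761867) (nat_lit 5) .nil))))))) (.g (nat_lit 6) .nil .nil))))) (.nd (nat_lit 5) (.nd (nat_lit 6) 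
(.lf (nat_lit 68890) (.g (nat_lit 1449) (.e (nat_lit 1653) (nat_lit 115) (.e (nat_lit 393295) (nat_lit 26) (.e (nat_lit 475199) (nat_lit 40) (.e (nat_lit 704595) (nat_lit 5) (.e (nat_lit 188160) (nat_lit 32) .nil))))) .nil)) 
(.lf (nat_lit 68954) (.g (nat_lit 768) (.e (nat_lit 1655) (nat_lit 115) (.e (nat_lit 393229) (nat_lit 9) (.e (nat_lit 336184) (nat_lit 11) .nil))) .nil))) (.nd (nat_lit 6) 
(.lf (nat_lit 68922) (.g (nat_lit 1568) (.e (nat_lit 1654) (nat_lit 115) (.e (nat_lit 393273) (nat_lit 23) (.e (nat_lit 426364) (nat_lit 15) (.e (nat_lit 2160) (nat_lit 143) (.e (nat_lit 712749) (nat_lit 28) (.e (nat_lit 442112) (nat_lit 0) .nil)))))) (.g (nat_lit 4) .nil .nil))) 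
(.lf (nat_lit 68986) (.g (nat_lit 1318) (.e (nat_lit 1656) (nat_lit 115) (.e (nat_lit 393225) (nat_lit 9) (.e (nat_lit 336163) (nat_lit 10) (.e (nat_lit 344122) (nat_lit 24) .nil)))) .nil)))))) (.nd (nat_lit 3) (.nd (nat_lit 4) (.nd (nat_lit 5) (.nd (nat_lit 6) 
(.lf (nat_lit 68870) (.g (nat_lit 1461) (.e (nat_lit 1652) (nat_lit 115) (.e (nat_lit 393229) (nat_lit 9) (.e (nat_lit 336184) (nat_lit 11) (.e (nat_lit 368676) (nat_lit 21) (.e (nat_lit 516117) (nat_lit 1) (.e (nat_lit 164159) (nat_lit 152) (.e (nat_lit 1035) (nat_lit 81) .nil))))))) (.g (nat_lit 4) .nil .nil))) 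
(.lf (nat_lit 68934) (.g (nat_lit 1945) (.e (nat_lit 1654) (nat_lit 115) (.e (nat_lit 393297) (nat_lit 27) (.e (nat_lit 491571) (nat_lit 13) (.e (nat_lit 393231) (nat_lit 17) (.e (nat_lit 7490) (nat_lit 402) .nil))))) .nil))) (.nd (nat_lit 6) 
(.lf (nat_lit 68902) (.g (nat_lit 764) (.e (nat_lit 1653) (nat_lit 115) (.e (nat_lit 393298) (nat_lit 27) (.e (nat_lit 491569) (nat_lit 13) .nil))) .nil)) 
(.lf (nat_lit 68966) (.g (nat_lit 1944) (.e (nat_lit 1656) (nat_lit 115) (.e (nat_lit 393225) (nat_lit 9) (.e (nat_lit 335995) (nat_lit 1) (.e (nat_lit 57847) (nat_lit 252) (.e (nat_lit 57379) (nat_lit 3) .nil))))) .nil)))) (.nd (nat_lit 5) (.nd (nat_lit 6) 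
(.lf (nat_lit 68886) (.g (nat_lit 766) (.e (nat_lit 1653) (nat_lit 115) (.e (nat_lit 393229) (nat_lit 9) (.e (nat_lit 336186) (nat_lit 11) .nil))) .nil)) 
(.lf (nat_lit 68950) (.g (nat_lit 971) (.e (nat_lit 1654) (nat_lit 115) (.e (nat_lit 393301) (nat_lit 27) (.e (nat_lit 491567) (nat_lit 13) .nil))) .nil))) (.nd (nat_lit 6) 
(.lf (nat_lit 68918) (.g (nat_lit 2471) (.e (nat_lit 1654) (nat_lit 115) (.e (nat_lit 393225) (nat_lit 9) (.e (nat_lit 336204) (nat_lit 12) (.e (nat_lit 385074) (nat_lit 31) (.e (nat_lit 573473) (nat_lit 12) .nil))))) .nil)) 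
(.lf (nat_lit 68982) (.g (nat_lit 2222) (.e (nat_lit 1656) (nat_lit 115) (.e (nat_lit 393225) (nat_lit 9) (.e (nat_lit 336088) (nat_lit 9) (.e (nat_lit 336019) (nat_lit 3) (.e (nat_lit 98334) (nat_lit 18) (.e (nat_lit 164159) (nat_lit 152) (.e (nat_lit 7936) (nat_lit 81) .nil))))))) (.g (nat_lit 4) .nil .nil)))))) (.nd (nat_lit 4) (.nd (nat_lit 5) (.nd (nat_lit 6) 
(.lf (nat_lit 68878) (.g (nat_lit 1540) (.e (nat_lit 1652) (nat_lit 115) (.e (nat_lit 393294) (nat_lit 26) (.e (nat_lit 475198) (nat_lit 40) (.e (nat_lit 704596) (nat_lit 5) .nil)))) .nil)) 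
(.lf (nat_lit 68942) (.g (nat_lit 2336) (.e (nat_lit 1654) (nat_lit 115) (.e (nat_lit 393298) (nat_lit 27) (.e (nat_lit 491571) (nat_lit 13) (.e (nat_lit 393242) (nat_lit 17) .nil)))) .nil))) (.nd (nat_lit 6) 
(.lf (nat_lit 68910) (.g (nat_lit 2651) (.e (nat_lit 1653) (nat_lit 115) (.e (nat_lit 393301) (nat_lit 27) (.e (nat_lit 491568) (nat_lit 13) (.e (nat_lit 393233) (nat_lit 17) .nil)))) .nil)) 
(.lf (nat_lit 68974) (.g (nat_lit 1855) (.e (nat_lit 1656) (nat_lit 115) (.e (nat_lit 393225) (nat_lit 9) (.e (nat_lit 336087) (nat_lit 9) (.e (nat_lit 336019) (nat_lit 3) (.e (nat_lit 98334) (nat_lit 18) (.e (nat_lit 164159) (nat_lit 152) (.e (nat_lit 7936) (nat_lit 81) .nil))))))) (.g (nat_lit 4) .nil .nil))))) (.nd (nat_lit 5) (.nd (nat_lit 6) 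
(.lf (nat_lit 68894) (.g (nat_lit 2098) (.e (nat_lit 1653) (nat_lit 115) (.e (nat_lit 393296) (nat_lit 26) (.e (nat_lit 475198) (nat_lit 40) (.e (nat_lit 704595) (nat_lit 5) (.e (nat_lit 188160) (nat_lit 32) .nil))))) .nil)) 
(.lf (nat_lit 68958) (.g (nat_lit 2289) (.e (nat_lit 1655) (nat_lit 115) (.e (nat_lit 393291) (nat_lit 26) (.e (nat_lit 475199) (nat_lit 40) (.e (nat_lit 704595) (nat_lit 5) (.e (nat_lit 188160) (nat_lit 32) .nil))))) .nil))) (.nd (nat_lit 6) 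
(.lf (nat_lit 68926) (.g (nat_lit 1804) (.e (nat_lit 1654) (nat_lit 115) (.e (nat_lit 393293) (nat_lit 26) (.e (nat_lit 475198) (nat_lit 40) (.e (nat_lit 704595) (nat_lit 5) (.e (nat_lit 188160) (nat_lit 32) .nil))))) .nil)) 
(.lf (nat_lit 68990) (.g (nat_lit 2174) (.e (nat_lit 1656) (nat_lit 115) (.e (nat_lit 393225) (nat_lit 9) (.e (nat_lit 336186) (nat_lit 11) (.e (nat_lit 368676) (nat_lit 21) (.e (nat_lit 516115) (nat_lit 1) (.e (nat_lit 164151) (nat_lit 152) (.e (nat_lit 976) (nat_lit 81) .nil))))))) (.g (nat_lit 4) .nil .nil))))))))) 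
(.nd (nat_lit 1) (.nd (nat_lit 2) (.nd (nat_lit 3) (.nd (nat_lit 4) (.nd (nat_lit 5) 
(.nd (nat_lit 6) 
(.lf (nat_lit 68865) (.g (nat_lit 1445) (.e (nat_lit 1651) (nat_lit 115) (.e (nat_lit 393294) (nat_lit 26) (.e (nat_lit 475199) (nat_lit 40) (.e (nat_lit 704595) (nat_lit 5) .nil)))) .nil)) 
(.lf (nat_lit 68929) (.g (nat_lit 1016) (.e (nat_lit 1654) (nat_lit 115) (.e (nat_lit 393293) (nat_lit 26) (.e (nat_lit 475210) (nat_lit 41) (.e (nat_lit 712747) (nat_lit 28) .nil)))) .nil))) (.nd (nat_lit 6) 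
(.lf (nat_lit 68897) (.g (nat_lit 1303) (.e (nat_lit 1653) (nat_lit 115) (.e (nat_lit 393296) (nat_lit 26) (.e (nat_lit 475207) (nat_lit 41) (.e (nat_lit 712749) (nat_lit 28) (.e (nat_lit 442112) (nat_lit 0) .nil))))) .nil)) 
(.lf (nat_lit 68961) (.g (nat_lit 1837) (.e (nat_lit 1655) (nat_lit 115) (.e (nat_lit 393298) (nat_lit 27) (.e (nat_lit 491569) (nat_lit 13) (.e (nat_lit 393234) (nat_lit 17) .nil)))) .nil)))) (.nd (nat_lit 5) (.nd (nat_lit 6) 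
(.lf (nat_lit 68881) (.g (nat_lit 1501) (.e (nat_lit 1652) (nat_lit 115) (.e (nat_lit 393294) (nat_lit 26) (.e (nat_lit 475211) (nat_lit 41) (.e (nat_lit 712747) (nat_lit 28) .nil)))) .nil)) 
(.lf (nat_lit 68945) (.g (nat_lit 1733) (.e (nat_lit 1654) (nat_lit 115) (.e (nat_lit 393300) (nat_lit 27) (.e (nat_lit 491569) (nat_lit 13) (.e (nat_lit 393234) (nat_lit 17) .nil)))) .nil))) (.nd (nat_lit 6) 
(.lf (nat_lit 68913) (.g (nat_lit 2155) (.e (nat_lit 1654) (nat_lit 115) (.e (nat_lit 393225) (nat_lit 9) (.e (nat_lit 336076) (nat_lit 9) (.e (nat_lit 336324) (nat_lit 18) (.e (nat_lit 204831) (nat_lit 18) .nil))))) .nil)) 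
(.lf (nat_lit 68977) (.g (nat_lit 2389) (.e (nat_lit 1656) (nat_lit 115) (.e (nat_lit 393225) (nat_lit 9) (.e (nat_lit 336088) (nat_lit 9) (.e (nat_lit 335878) (nat_lit 0) (.e (nat_lit 1831) (nat_lit 122) (.e (nat_lit 540675) (nat_lit 0) (.e (nat_lit 2270) (nat_lit 149) (.e (nat_lit 761867) (nat_lit 5) .nil)))))))) (.g (nat_lit 6) .nil .nil)))))) (.nd (nat_lit 4) (.nd (nat_lit 5) (.nd (nat_lit 6) 
(.lf (nat_lit 68873) (.g (nat_lit 1209) (.e (nat_lit 1652) (nat_lit 115) (.e (nat_lit 393268) (nat_lit 23) (.e (nat_lit 426444) (nat_lit 19) .nil))) .nil)) 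
(.lf (nat_lit 68937) (.g (nat_lit 2129) (.e (nat_lit 1654) (nat_lit 115) (.e (nat_lit 393298) (nat_lit 27) (.e (nat_lit 491550) (nat_lit 9) (.e (nat_lit 336421) (nat_lit 28) .nil)))) .nil))) (.nd (nat_lit 6) 
(.lf (nat_lit 68905) (.g (nat_lit 1733) (.e (nat_lit 1653) (nat_lit 115) (.e (nat_lit 393300) (nat_lit 27) (.e (nat_lit 491569) (nat_lit 13) (.e (nat_lit 393234) (nat_lit 17) .nil)))) .nil)) 
(.lf (nat_lit 68969) (.g (nat_lit 884) (.e (nat_lit 1656) (nat_lit 115) (.e (nat_lit 393225) (nat_lit 9) (.e (nat_lit 336069) (nat_lit 8) .nil))) .nil)))) (.nd (nat_lit 5) (.nd (nat_lit 6) 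
(.lf (nat_lit 68889) (.g (nat_lit 698) (.e (nat_lit 1653) (nat_lit 115) (.e (nat_lit 393273) (nat_lit 23) (.e (nat_lit 426444) (nat_lit 19) .nil))) .nil)) 
(.lf (nat_lit 68953) (.g (nat_lit 2393) (.e (nat_lit 1654) (nat_lit 115) (.e (nat_lit 393301) (nat_lit 27) (.e (nat_lit 491568) (nat_lit 13) (.e (nat_lit 393234) (nat_lit 17) .nil)))) .nil))) (.nd (nat_lit 6) 
(.lf (nat_lit 68921) (.g (nat_lit 1547) (.e (nat_lit 1654) (nat_lit 115) (.e (nat_lit 393273) (nat_lit 23) (.e (nat_lit 426364) (nat_lit 15) (.e (nat_lit 2160) (nat_lit 143) (.e (nat_lit 712747) (nat_lit 28) .nil))))) .nil)) 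
(.lf (nat_lit 68985) (.g (nat_lit 775) (.e (nat_lit 1656) (nat_lit 115) (.e (nat_lit 393225) (nat_lit 9) (.e (nat_lit 336163) (nat_lit 10) .nil))) .nil)))))) (.nd (nat_lit 3) (.nd (nat_lit 4) (.nd (nat_lit 5) (.nd (nat_lit 6) 
(.lf (nat_lit 68869) (.g (nat_lit 1401) (.e (nat_lit 1652) (nat_lit 115) (.e (nat_lit 393229) (nat_lit 9) (.e (nat_lit 336184) (nat_lit 11) (.e (nat_lit 368676) (nat_lit 21) (.e (nat_lit 516117) (nat_lit 1) .nil))))) .nil)) 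
(.lf (nat_lit 68933) (.g (nat_lit 853) (.e (nat_lit 1654) (nat_lit 115) (.e (nat_lit 393296) (nat_lit 26) (.e (nat_lit 475209) (nat_lit 41) .nil))) .nil))) (.nd (nat_lit 6) 
(.lf (nat_lit 68901) (.g (nat_lit 989) (.e (nat_lit 1653) (nat_lit 115) (.e (nat_lit 393296) (nat_lit 26) (.e (nat_lit 475210) (nat_lit 41) .nil))) .nil)) 
(.lf (nat_lit 68965) (.g (nat_lit 424) (.e (nat_lit 1656) (nat_lit 115) (.e (nat_lit 393225) (nat_lit 9) (.e (nat_lit 335995) (nat_lit 1) .nil))) .nil)))) (.nd (nat_lit 5) (.nd (nat_lit 6) 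
(.lf (nat_lit 68885) (.g (nat_lit 768) (.e (nat_lit 1653) (nat_lit 115) (.e (nat_lit 393229) (nat_lit 9) (.e (nat_lit 336184) (nat_lit 11) .nil))) .nil)) 
(.lf (nat_lit 68949) (.g (nat_lit 3105) (.e (nat_lit 1654) (nat_lit 115) (.e (nat_lit 393301) (nat_lit 27) (.e (nat_lit 491560) (nat_lit 10) (.e (nat_lit 344090) (nat_lit 18) .nil)))) .nil))) (.nd (nat_lit 6) 
(.lf (nat_lit 68917) (.g (nat_lit 1760) (.e (nat_lit 1654) (nat_lit 115) (.e (nat_lit 393225) (nat_lit 9) (.e (nat_lit 336204) (nat_lit 12) (.e (nat_lit 385066) (nat_lit 26) .nil)))) .nil)) 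
(.lf (nat_lit 68981) (.g (nat_lit 2894) (.e (nat_lit 1656) (nat_lit 115) (.e (nat_lit 393225) (nat_lit 9) (.e (nat_lit 336088) (nat_lit 9) (.e (nat_lit 336019) (nat_lit 3) (.e (nat_lit 98333) (nat_lit 18) (.e (nat_lit 164156) (nat_lit 152) (.e (nat_lit 975) (nat_lit 81) .nil))))))) (.g (nat_lit 5) .nil .nil)))))) (.nd (nat_lit 4) (.nd (nat_lit 5) (.nd (nat_lit 6) 
(.lf (nat_lit 68877) (.g (nat_lit 1988) (.e (nat_lit 1652) (nat_lit 115) (.e (nat_lit 393294) (nat_lit 26) (.e (nat_lit 475198) (nat_lit 40) (.e (nat_lit 704595) (nat_lit 5) (.e (nat_lit 188160) (nat_lit 32) .nil))))) .nil)) 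
(.lf (nat_lit 68941) (.g (nat_lit 2017) (.e (nat_lit 1654) (nat_lit 115) (.e (nat_lit 393298) (nat_lit 27) (.e (nat_lit 491571) (nat_lit 13) (.e (nat_lit 393238) (nat_lit 17) .nil)))) .nil))) (.nd (nat_lit 6) 
(.lf (nat_lit 68909) (.g (nat_lit 2633) (.e (nat_lit 1653) (nat_lit 115) (.e (nat_lit 393301) (nat_lit 27) (.e (nat_lit 491568) (nat_lit 13) (.e (nat_lit 393232) (nat_lit 17) .nil)))) .nil)) 
(.lf (nat_lit 68973) (.g (nat_lit 2520) (.e (nat_lit 1656) (nat_lit 115) (.e (nat_lit 393225) (nat_lit 9) (.e (nat_lit 336087) (nat_lit 9) (.e (nat_lit 336019) (nat_lit 3) (.e (nat_lit 98333) (nat_lit 18) (.e (nat_lit 164156) (nat_lit 152) (.e (nat_lit 975) (nat_lit 81) .nil))))))) (.g (nat_lit 5) .nil .nil))))) (.nd (nat_lit 5) (.nd (nat_lit 6) 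
(.lf (nat_lit 68893) (.g (nat_lit 1844) (.e (nat_lit 1653) (nat_lit 115) (.e (nat_lit 393296) (nat_lit 26) (.e (nat_lit 475197) (nat_lit 40) (.e (nat_lit 704595) (nat_lit 5) (.e (nat_lit 188160) (nat_lit 32) .nil))))) .nil)) 
(.lf (nat_lit 68957) (.g (nat_lit 1810) (.e (nat_lit 1655) (nat_lit 115) (.e (nat_lit 393260) (nat_lit 21) (.e (nat_lit 409617) (nat_lit 10) (.e (nat_lit 7936) (nat_lit 300) .nil)))) .nil))) (.nd (nat_lit 6) 
(.lf (nat_lit 68925) (.g (nat_lit 478) (.e (nat_lit 1654) (nat_lit 115) (.e (nat_lit 393293) (nat_lit 26) (.e (nat_lit 475196) (nat_lit 40) .nil))) .nil)) 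
(.lf (nat_lit 68989) (.g (nat_lit 1994) (.e (nat_lit 1656) (nat_lit 115) (.e (nat_lit 393225) (nat_lit 9) (.e (nat_lit 336184) (nat_lit 11) (.e (nat_lit 368676) (nat_lit 21) (.e (nat_lit 516115) (nat_lit 1) (.e (nat_lit 164151) (nat_lit 152) (.e (nat_lit 976) (nat_lit 81) .nil))))))) (.g (nat_lit 4) .nil .nil)))))))) 
(.nd (nat_lit 2) (.nd (nat_lit 3) (.nd (nat_lit 4) (.nd (nat_lit 5) (.nd (nat_lit 6) 
(.lf (nat_lit 68867) (.g (nat_lit 882) (.e (nat_lit 1651) (nat_lit 115) (.e (nat_lit 393299) (nat_lit 27) (.e (nat_lit 491570) (nat_lit 13) .nil))) .nil)) 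
(.lf (nat_lit 68931) (.g (nat_lit 1593) (.e (nat_lit 1654) (nat_lit 115) (.e (nat_lit 393295) (nat_lit 26) (.e (nat_lit 475199) (nat_lit 40) (.e (nat_lit 704595) (nat_lit 5) (.e (nat_lit 188160) (nat_lit 32) .nil))))) (.g (nat_lit 4) .nil .nil)))) (.nd (nat_lit 6) 
(.lf (nat_lit 68899) (.g (nat_lit 705) (.e (nat_lit 1653) (nat_lit 115) (.e (nat_lit 393296) (nat_lit 26) (.e (nat_lit 475209) (nat_lit 41) .nil))) .nil)) 
(.lf (nat_lit 68963) (.g (nat_lit 865) (.e (nat_lit 1655) (nat_lit 115) (.e (nat_lit 393299) (nat_lit 27) (.e (nat_lit 491569) (nat_lit 13) .nil))) .nil)))) (.nd (nat_lit 5) (.nd (nat_lit 6) 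
(.lf (nat_lit 68883) (.g (nat_lit 778) (.e (nat_lit 1652) (nat_lit 115) (.e (nat_lit 393298) (nat_lit 27) (.e (nat_lit 491571) (nat_lit 13) .nil))) .nil)) 
(.lf (nat_lit 68947) (.g (nat_lit 811) (.e (nat_lit 1654) (nat_lit 115) (.e (nat_lit 393301) (nat_lit 27) (.e (nat_lit 491552) (nat_lit 9) .nil))) .nil))) (.nd (nat_lit 6) 
(.lf (nat_lit 68915) (.g (nat_lit 1516) (.e (nat_lit 1654) (nat_lit 115) (.e (nat_lit 393225) (nat_lit 9) (.e (nat_lit 336194) (nat_lit 12) (.e (nat_lit 385066) (nat_lit 26) .nil)))) .nil)) 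
(.lf (nat_lit 68979) (.g (nat_lit 1918) (.e (nat_lit 1656) (nat_lit 115) (.e (nat_lit 393225) (nat_lit 9) (.e (nat_lit 336088) (nat_lit 9) (.e (nat_lit 336016) (nat_lit 2) (.e (nat_lit 98048) (nat_lit 3) (.e (nat_lit 57569) (nat_lit 53) (.e (nat_lit 761867) (nat_lit 5) .nil))))))) (.g (nat_lit 4) .nil .nil)))))) (.nd (nat_lit 4) (.nd (nat_lit 5) (.nd (nat_lit 6) 
(.lf (nat_lit 68875) (.g (nat_lit 2681) (.e (nat_lit 1652) (nat_lit 115) (.e (nat_lit 393271) (nat_lit 23) (.e (nat_lit 426131) (nat_lit 3) (.e (nat_lit 212736) (nat_lit 10) (.e (nat_lit 434279) (nat_lit 39) (.e (nat_lit 663555) (nat_lit 0) .nil)))))) (.g (nat_lit 5) .nil .nil))) 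
(.lf (nat_lit 68939) (.g (nat_lit 790) (.e (nat_lit 1654) (nat_lit 115) (.e (nat_lit 393298) (nat_lit 27) (.e (nat_lit 491571) (nat_lit 13) .nil))) .nil))) (.nd (nat_lit 6) 
(.lf (nat_lit 68907) (.g (nat_lit 1848) (.e (nat_lit 1653) (nat_lit 115) (.e (nat_lit 393301) (nat_lit 27) (.e (nat_lit 491567) (nat_lit 13) (.e (nat_lit 393234) (nat_lit 17) .nil)))) .nil)) 
(.lf (nat_lit 68971) (.g (nat_lit 1632) (.e (nat_lit 1656) (nat_lit 115) (.e (nat_lit 393225) (nat_lit 9) (.e (nat_lit 336087) (nat_lit 9) (.e (nat_lit 336016) (nat_lit 2) (.e (nat_lit 98048) (nat_lit 3) (.e (nat_lit 57569) (nat_lit 53) (.e (nat_lit 761866) (nat_lit 5) .nil))))))) (.g (nat_lit 4) .nil .nil))))) (.nd (nat_lit 5) (.nd (nat_lit 6) 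
(.lf (nat_lit 68891) (.g (nat_lit 788) (.e (nat_lit 1653) (nat_lit 115) (.e (nat_lit 393296) (nat_lit 26) (.e (nat_lit 475196) (nat_lit 40) .nil))) .nil)) 
(.lf (nat_lit 68955) (.g (nat_lit 1141) (.e (nat_lit 1655) (nat_lit 115) (.e (nat_lit 393251) (nat_lit 18) (.e (nat_lit 164151) (nat_lit 152) .nil))) .nil))) (.nd (nat_lit 6) 
(.lf (nat_lit 68923) (.g (nat_lit 566) (.e (nat_lit 1654) (nat_lit 115) (.e (nat_lit 393273) (nat_lit 23) (.e (nat_lit 426444) (nat_lit 19) .nil))) .nil)) 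
(.lf (nat_lit 68987) (.g (nat_lit 774) (.e (nat_lit 1656) (nat_lit 115) (.e (nat_lit 393225) (nat_lit 9) (.e (nat_lit 336165) (nat_lit 10) .nil))) .nil)))))) (.nd (nat_lit 3) (.nd (nat_lit 4) (.nd (nat_lit 5) (.nd (nat_lit 6) 
(.lf (nat_lit 68871) (.g (nat_lit 1552) (.e (nat_lit 1652) (nat_lit 115) (.e (nat_lit 393229) (nat_lit 9) (.e (nat_lit 336186) (nat_lit 11) (.e (nat_lit 368676) (nat_lit 21) (.e (nat_lit 516117) (nat_lit 1) .nil))))) .nil)) 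
(.lf (nat_lit 68935) (.g (nat_lit 1872) (.e (nat_lit 1654) (nat_lit 115) (.e (nat_lit 393297) (nat_lit 27) (.e (nat_lit 491571) (nat_lit 13) (.e (nat_lit 393232) (nat_lit 17) (.e (nat_lit 7490) (nat_lit 402) .nil))))) .nil))) (.nd (nat_lit 6) 
(.lf (nat_lit 68903) (.g (nat_lit 778) (.e (nat_lit 1653) (nat_lit 115) (.e (nat_lit 393298) (nat_lit 27) (.e (nat_lit 491571) (nat_lit 13) .nil))) .nil)) 
(.lf (nat_lit 68967) (.g (nat_lit 2652) (.e (nat_lit 1656) (nat_lit 115) (.e (nat_lit 393225) (nat_lit 9) (.e (nat_lit 336059) (nat_lit 7) (.e (nat_lit 319490) (nat_lit 0) (.e (nat_lit 595) (nat_lit 45) .nil))))) .nil)))) (.nd (nat_lit 5) (.nd (nat_lit 6) 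
(.lf (nat_lit 68887) (.g (nat_lit 564) (.e (nat_lit 1653) (nat_lit 115) (.e (nat_lit 393234) (nat_lit 17) (.e (nat_lit 7589) (nat_lit 406) .nil))) .nil)) 
(.lf (nat_lit 68951) (.g (nat_lit 1009) (.e (nat_lit 1654) (nat_lit 115) (.e (nat_lit 393301) (nat_lit 27) (.e (nat_lit 491568) (nat_lit 13) .nil))) .nil))) (.nd (nat_lit 6) 
(.lf (nat_lit 68919) (.g (nat_lit 2354) (.e (nat_lit 1654) (nat_lit 115) (.e (nat_lit 393225) (nat_lit 9) (.e (nat_lit 336204) (nat_lit 12) (.e (nat_lit 385074) (nat_lit 31) (.e (nat_lit 573475) (nat_lit 12) .nil))))) .nil)) 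
(.lf (nat_lit 68983) (.g (nat_lit 1829) (.e (nat_lit 1656) (nat_lit 115) (.e (nat_lit 393225) (nat_lit 9) (.e (nat_lit 336088) (nat_lit 9) (.e (nat_lit 336019) (nat_lit 3) (.e (nat_lit 98335) (nat_lit 18) .nil))))) .nil))))) (.nd (nat_lit 4) (.nd (nat_lit 5) (.nd (nat_lit 6) 
(.lf (nat_lit 68879) (.g (nat_lit 1808) (.e (nat_lit 1652) (nat_lit 115) (.e (nat_lit 393294) (nat_lit 26) (.e (nat_lit 475199) (nat_lit 40) (.e (nat_lit 704595) (nat_lit 5) (.e (nat_lit 188160) (nat_lit 32) .nil))))) (.g (nat_lit 4) .nil .nil))) 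
(.lf (nat_lit 68943) (.g (nat_lit 627) (.e (nat_lit 1654) (nat_lit 115) (.e (nat_lit 393300) (nat_lit 27) (.e (nat_lit 491568) (nat_lit 13) .nil))) .nil))) (.nd (nat_lit 6) 
(.lf (nat_lit 68911) (.g (nat_lit 2402) (.e (nat_lit 1653) (nat_lit 115) (.e (nat_lit 393301) (nat_lit 27) (.e (nat_lit 491568) (nat_lit 13) (.e (nat_lit 393234) (nat_lit 17) .nil)))) .nil)) 
(.lf (nat_lit 68975) (.g (nat_lit 1265) (.e (nat_lit 1656) (nat_lit 115) (.e (nat_lit 393225) (nat_lit 9) (.e (nat_lit 336088) (nat_lit 9) (.e (nat_lit 335878) (nat_lit 0) .nil)))) .nil)))) (.nd (nat_lit 5) (.nd (nat_lit 6) 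
(.lf (nat_lit 68895) (.g (nat_lit 1518) (.e (nat_lit 1653) (nat_lit 115) (.e (nat_lit 393296) (nat_lit 26) (.e (nat_lit 475198) (nat_lit 40) (.e (nat_lit 704596) (nat_lit 5) .nil)))) .nil)) 
(.lf (nat_lit 68959) (.g (nat_lit 867) (.e (nat_lit 1655) (nat_lit 115) (.e (nat_lit 393294) (nat_lit 26) (.e (nat_lit 475198) (nat_lit 40) .nil))) .nil))) (.nd (nat_lit 6) 
(.lf (nat_lit 68927) (.g (nat_lit 1090) (.e (nat_lit 1654) (nat_lit 115) (.e (nat_lit 393293) (nat_lit 26) (.e (nat_lit 475198) (nat_lit 40) (.e (nat_lit 704596) (nat_lit 5) .nil)))) .nil)) 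
(.lf (nat_lit 68991) (.g (nat_lit 3050) (.e (nat_lit 1656) (nat_lit 115) (.e (nat_lit 393225) (nat_lit 9) (.e (nat_lit 336204) (nat_lit 12) (.e (nat_lit 385074) (nat_lit 31) (.e (nat_lit 573473) (nat_lit 12) (.e (nat_lit 57521) (nat_lit 44) (.e (nat_lit 688159) (nat_lit 13) .nil))))))) (.g (nat_lit 5) .nil .nil))))))))))

noncomputable def tv947 : DT := (.nd (nat_lit 0) (.nd (nat_lit 1) (.nd (nat_lit 2) (.nd (nat_lit 3) (.nd (nat_lit 4) (.nd (nat_lit 5) 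
(.lf (nat_lit 68992) (.g (nat_lit 2397) (.e (nat_lit 1656) (nat_lit 115) (.e (nat_lit 393225) (nat_lit 9) (.e (nat_lit 336204) (nat_lit 12) (.e (nat_lit 385074) (nat_lit 31) (.e (nat_lit 573475) (nat_lit 12) (.e (nat_lit 57521) (nat_lit 44) (.e (nat_lit 688159) (nat_lit 13) .nil))))))) (.g (nat_lit 4) .nil .nil))) 
(.lf (nat_lit 69024) (.g (nat_lit 3440) (.e (nat_lit 1656) (nat_lit 115) (.e (nat_lit 393234) (nat_lit 17) (.e (nat_lit 7581) (nat_lit 405) (.e (nat_lit 57480) (nat_lit 28) (.e (nat_lit 557103) (nat_lit 14) (.e (nat_lit 180263) (nat_lit 21) (.e (nat_lit 671488) (nat_lit 0) .nil))))))) (.g (nat_lit 6) .nil .nil)))) (.nd (nat_lit 5) 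
(.lf (nat_lit 69008) (.g (nat_lit 717) (.e (nat_lit 1656) (nat_lit 115) (.e (nat_lit 393234) (nat_lit 17) (.e (nat_lit 7309) (nat_lit 388) (.e (nat_lit 120) (nat_lit 4) .nil)))) .nil)) 
(.lf (nat_lit 69040) (.g (nat_lit 2662) (.e (nat_lit 1656) (nat_lit 115) (.e (nat_lit 393234) (nat_lit 17) (.e (nat_lit 7587) (nat_lit 406) (.e (nat_lit 65648) (nat_lit 26) (.e (nat_lit 417802) (nat_lit 0) (.e (nat_lit 5293) (nat_lit 298) .nil)))))) (.g (nat_lit 0) .nil .nil))))) (.nd (nat_lit 4) (.nd (nat_lit 5) 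
(.lf (nat_lit 69000) (.g (nat_lit 506) (.e (nat_lit 1656) (nat_lit 115) (.e (nat_lit 393234) (nat_lit 17) (.e (nat_lit 3555) (nat_lit 220) .nil))) .nil)) 
(.lf (nat_lit 69032) (.g (nat_lit 298) (.e (nat_lit 1656) (nat_lit 115) (.e (nat_lit 393234) (nat_lit 17) (.e (nat_lit 7587) (nat_lit 406) .nil))) .nil))) (.nd (nat_lit 5) 
(.lf (nat_lit 69016) (.g (nat_lit 2612) (.e (nat_lit 1656) (nat_lit 115) (.e (nat_lit 393234) (nat_lit 17) (.e (nat_lit 7581) (nat_lit 405) (.e (nat_lit 57464) (nat_lit 23) (.e (nat_lit 516130) (nat_lit 3) (.e (nat_lit 221219) (nat_lit 24) (.e (nat_lit 220928) (nat_lit 0) .nil))))))) (.g (nat_lit 6) .nil .nil))) 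
(.lf (nat_lit 69048) (.g (nat_lit 2046) (.e (nat_lit 1656) (nat_lit 115) (.e (nat_lit 393234) (nat_lit 17) (.e (nat_lit 7589) (nat_lit 406) (.e (nat_lit 65632) (nat_lit 15) (.e (nat_lit 7081) (nat_lit 378) (.e (nat_lit 57887) (nat_lit 270) .nil)))))) (.g (nat_lit 4) .nil .nil)))))) (.nd (nat_lit 3) (.nd (nat_lit 4) (.nd (nat_lit 5) 
(.lf (nat_lit 68996) (.g (nat_lit 216) (.e (nat_lit 1656) (nat_lit 115) (.e (nat_lit 393233) (nat_lit 17) (.e (nat_lit 7589) (nat_lit 406) .nil))) .nil)) 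
(.lf (nat_lit 69028) (.g (nat_lit 2005) (.e (nat_lit 1656) (nat_lit 115) (.e (nat_lit 393234) (nat_lit 17) (.e (nat_lit 7583) (nat_lit 405) (.e (nat_lit 57464) (nat_lit 23) (.e (nat_lit 516129) (nat_lit 3) (.e (nat_lit 221217) (nat_lit 24) (.e (nat_lit 220928) (nat_lit 0) .nil))))))) (.g (nat_lit 4) .nil .nil)))) (.nd (nat_lit 5) 
(.lf (nat_lit 69012) (.g (nat_lit 2906) (.e (nat_lit 1656) (nat_lit 115) (.e (nat_lit 393234) (nat_lit 17) (.e (nat_lit 7538) (nat_lit 402) (.e (nat_lit 1661) (nat_lit 115) (.e (nat_lit 393238) (nat_lit 17) (.e (nat_lit 7535) (nat_lit 402) .nil)))))) (.g (nat_lit 5) .nil .nil))) 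
(.lf (nat_lit 69044) (.g (nat_lit 2021) (.e (nat_lit 1656) (nat_lit 115) (.e (nat_lit 393234) (nat_lit 17) (.e (nat_lit 7587) (nat_lit 406) (.e (nat_lit 65653) (nat_lit 27) (.e (nat_lit 426011) (nat_lit 0) (.e (nat_lit 7493) (nat_lit 402) .nil)))))) (.g (nat_lit 4) .nil .nil))))) (.nd (nat_lit 4) (.nd (nat_lit 5) 
(.lf (nat_lit 69004) (.g (nat_lit 475) (.e (nat_lit 1656) (nat_lit 115) (.e (nat_lit 393234) (nat_lit 17) (.e (nat_lit 7110) (nat_lit 380) .nil))) .nil)) 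
(.lf (nat_lit 69036) (.g (nat_lit 2073) (.e (nat_lit 1656) (nat_lit 115) (.e (nat_lit 393234) (nat_lit 17) (.e (nat_lit 7587) (nat_lit 406) (.e (nat_lit 65648) (nat_lit 26) (.e (nat_lit 417796) (nat_lit 0) (.e (nat_lit 5288) (nat_lit 298) .nil)))))) (.g (nat_lit 5) .nil .nil)))) (.nd (nat_lit 5) 
(.lf (nat_lit 69020) (.g (nat_lit 1890) (.e (nat_lit 1656) (nat_lit 115) (.e (nat_lit 393234) (nat_lit 17) (.e (nat_lit 7581) (nat_lit 405) (.e (nat_lit 57477) (nat_lit 28) (.e (nat_lit 557104) (nat_lit 14) (.e (nat_lit 180264) (nat_lit 21) (.e (nat_lit 671488) (nat_lit 0) .nil))))))) (.g (nat_lit 4) .nil .nil))) 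
(.lf (nat_lit 69052) (.g (nat_lit 2262) (.e (nat_lit 1656) (nat_lit 115) (.e (nat_lit 393234) (nat_lit 17) (.e (nat_lit 7589) (nat_lit 406) (.e (nat_lit 65648) (nat_lit 26) (.e (nat_lit 417796) (nat_lit 0) (.e (nat_lit 5278) (nat_lit 298) .nil)))))) (.g (nat_lit 5) .nil .nil))))))) (.nd (nat_lit 2) (.nd (nat_lit 3) (.nd (nat_lit 4) (.nd (nat_lit 5) 
(.lf (nat_lit 68994) (.g (nat_lit 1797) (.e (nat_lit 1656) (nat_lit 115) (.e (nat_lit 401152) (nat_lit 11) (.e (nat_lit 352313) (nat_lit 23) (.e (nat_lit 98334) (nat_lit 18) (.e (nat_lit 164159) (nat_lit 152) (.e (nat_lit 7936) (nat_lit 81) .nil)))))) (.g (nat_lit 5) .nil .nil))) 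
(.lf (nat_lit 69026) (.g (nat_lit 3961) (.e (nat_lit 1656) (nat_lit 115) (.e (nat_lit 393234) (nat_lit 17) (.e (nat_lit 7581) (nat_lit 405) (.e (nat_lit 57480) (nat_lit 28) (.e (nat_lit 557105) (nat_lit 14) (.e (nat_lit 180265) (nat_lit 21) (.e (nat_lit 671488) (nat_lit 0) .nil))))))) (.g (nat_lit 6) .nil .nil)))) (.nd (nat_lit 5) 
(.lf (nat_lit 69010) (.g (nat_lit 1911) (.e (nat_lit 1656) (nat_lit 115) (.e (nat_lit 393234) (nat_lit 17) (.e (nat_lit 7536) (nat_lit 402) (.e (nat_lit 1656) (nat_lit 115) (.e (nat_lit 393234) (nat_lit 17) (.e (nat_lit 7936) (nat_lit 402) .nil)))))) (.g (nat_lit 4) .nil .nil))) 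
(.lf (nat_lit 69042) (.g (nat_lit 2361) (.e (nat_lit 1656) (nat_lit 115) (.e (nat_lit 393234) (nat_lit 17) (.e (nat_lit 7587) (nat_lit 406) (.e (nat_lit 65653) (nat_lit 27) (.e (nat_lit 426010) (nat_lit 0) (.e (nat_lit 7491) (nat_lit 402) .nil)))))) (.g (nat_lit 6) .nil .nil))))) (.nd (nat_lit 4) (.nd (nat_lit 5) 
(.lf (nat_lit 69002) (.g (nat_lit 509) (.e (nat_lit 1656) (nat_lit 115) (.e (nat_lit 393234) (nat_lit 17) (.e (nat_lit 3557) (nat_lit 220) .nil))) .nil)) 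
(.lf (nat_lit 69034) (.g (nat_lit 2367) (.e (nat_lit 1656) (nat_lit 115) (.e (nat_lit 393234) (nat_lit 17) (.e (nat_lit 7587) (nat_lit 406) (.e (nat_lit 65648) (nat_lit 26) (.e (nat_lit 417796) (nat_lit 0) (.e (nat_lit 5278) (nat_lit 298) .nil)))))) (.g (nat_lit 5) .nil .nil)))) (.nd (nat_lit 5) 
(.lf (nat_lit 69018) (.g (nat_lit 3050) (.e (nat_lit 1656) (nat_lit 115) (.e (nat_lit 393234) (nat_lit 17) (.e (nat_lit 7581) (nat_lit 405) (.e (nat_lit 57476) (nat_lit 28) (.e (nat_lit 557103) (nat_lit 14) (.e (nat_lit 180263) (nat_lit 21) (.e (nat_lit 671488) (nat_lit 0) .nil))))))) (.g (nat_lit 5) .nil .nil))) 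
(.lf (nat_lit 69050) (.g (nat_lit 2321) (.e (nat_lit 1656) (nat_lit 115) (.e (nat_lit 393234) (nat_lit 17) (.e (nat_lit 7589) (nat_lit 406) (.e (nat_lit 65647) (nat_lit 25) (.e (nat_lit 409602) (nat_lit 0) (.e (nat_lit 5277) (nat_lit 298) .nil)))))) (.g (nat_lit 5) .nil .nil)))))) (.nd (nat_lit 3) (.nd (nat_lit 4) (.nd (nat_lit 5) 
(.lf (nat_lit 68998) (.g (nat_lit 511) (.e (nat_lit 1656) (nat_lit 115) (.e (nat_lit 393234) (nat_lit 17) (.e (nat_lit 3355) (nat_lit 207) .nil))) .nil)) 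
(.lf (nat_lit 69030) (.g (nat_lit 2000) (.e (nat_lit 1656) (nat_lit 115) (.e (nat_lit 393234) (nat_lit 17) (.e (nat_lit 7583) (nat_lit 405) (.e (nat_lit 57464) (nat_lit 23) (.e (nat_lit 516130) (nat_lit 3) (.e (nat_lit 221219) (nat_lit 24) (.e (nat_lit 220928) (nat_lit 0) .nil))))))) (.g (nat_lit 4) .nil .nil)))) (.nd (nat_lit 5) 
(.lf (nat_lit 69014) (.g (nat_lit 2578) (.e (nat_lit 1656) (nat_lit 115) (.e (nat_lit 393234) (nat_lit 17) (.e (nat_lit 7581) (nat_lit 405) (.e (nat_lit 57464) (nat_lit 23) (.e (nat_lit 516129) (nat_lit 3) (.e (nat_lit 221217) (nat_lit 24) (.e (nat_lit 220928) (nat_lit 0) .nil))))))) (.g (nat_lit 5) .nil .nil))) 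
(.lf (nat_lit 69046) (.g (nat_lit 2792) (.e (nat_lit 1656) (nat_lit 115) (.e (nat_lit 393234) (nat_lit 17) (.e (nat_lit 7587) (nat_lit 406) (.e (nat_lit 65653) (nat_lit 27) (.e (nat_lit 426012) (nat_lit 0) (.e (nat_lit 7491) (nat_lit 402) .nil)))))) (.g (nat_lit 5) .nil .nil))))) (.nd (nat_lit 4) (.nd (nat_lit 5) 
(.lf (nat_lit 69006) (.g (nat_lit 511) (.e (nat_lit 1656) (nat_lit 115) (.e (nat_lit 393234) (nat_lit 17) (.e (nat_lit 7111) (nat_lit 381) .nil))) .nil)) 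
(.lf (nat_lit 69038) (.g (nat_lit 2299) (.e (nat_lit 1656) (nat_lit 115) (.e (nat_lit 393234) (nat_lit 17) (.e (nat_lit 7587) (nat_lit 406) (.e (nat_lit 65648) (nat_lit 26) (.e (nat_lit 417796) (nat_lit 0) (.e (nat_lit 5294) (nat_lit 298) .nil)))))) (.g (nat_lit 5) .nil .nil)))) (.nd (nat_lit 5) 
(.lf (nat_lit 69022) (.g (nat_lit 2583) (.e (nat_lit 1656) (nat_lit 115) (.e (nat_lit 393234) (nat_lit 17) (.e (nat_lit 7581) (nat_lit 405) (.e (nat_lit 57479) (nat_lit 28) (.e (nat_lit 557105) (nat_lit 14) (.e (nat_lit 180264) (nat_lit 21) (.e (nat_lit 671488) (nat_lit 0) .nil))))))) (.g (nat_lit 4) .nil .nil))) 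
(.lf (nat_lit 69054) (.g (nat_lit 2097) (.e (nat_lit 1656) (nat_lit 115) (.e (nat_lit 393234) (nat_lit 17) (.e (nat_lit 7589) (nat_lit 406) (.e (nat_lit 65648) (nat_lit 26) (.e (nat_lit 417796) (nat_lit 0) (.e (nat_lit 5291) (nat_lit 298) .nil)))))) (.g (nat_lit 5) .nil .nil)))))))) (.nd (nat_lit 1) (.nd (nat_lit 2) (.nd (nat_lit 3) (.nd (nat_lit 4) (.nd (nat_lit 5) 
(.lf (nat_lit 68993) (.g (nat_lit 1341) (.e (nat_lit 1656) (nat_lit 115) (.e (nat_lit 401152) (nat_lit 9) (.e (nat_lit 336099) (nat_lit 9) (.e (nat_lit 336013) (nat_lit 2) (.e (nat_lit 98048) (nat_lit 3) (.e (nat_lit 57569) (nat_lit 53) (.e (nat_lit 761868) (nat_lit 5) .nil))))))) (.g (nat_lit 4) .nil .nil))) 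
(.lf (nat_lit 69025) (.g (nat_lit 3471) (.e (nat_lit 1656) (nat_lit 115) (.e (nat_lit 393234) (nat_lit 17) (.e (nat_lit 7581) (nat_lit 405) (.e (nat_lit 57480) (nat_lit 28) (.e (nat_lit 557105) (nat_lit 14) (.e (nat_lit 180264) (nat_lit 21) (.e (nat_lit 671488) (nat_lit 0) .nil))))))) (.g (nat_lit 6) .nil .nil)))) (.nd (nat_lit 5) 
(.lf (nat_lit 69009) (.g (nat_lit 492) (.e (nat_lit 1656) (nat_lit 115) (.e (nat_lit 393234) (nat_lit 17) (.e (nat_lit 7495) (nat_lit 402) .nil))) .nil)) 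
(.lf (nat_lit 69041) (.g (nat_lit 2150) (.e (nat_lit 1656) (nat_lit 115) (.e (nat_lit 393234) (nat_lit 17) (.e (nat_lit 7587) (nat_lit 406) (.e (nat_lit 65653) (nat_lit 27) (.e (nat_lit 426009) (nat_lit 0) (.e (nat_lit 7491) (nat_lit 402) .nil)))))) (.g (nat_lit 6) .nil .nil))))) (.nd (nat_lit 4) (.nd (nat_lit 5) 
(.lf (nat_lit 69001) (.g (nat_lit 2234) (.e (nat_lit 1656) (nat_lit 115) (.e (nat_lit 393234) (nat_lit 17) (.e (nat_lit 3555) (nat_lit 220) (.e (nat_lit 720956) (nat_lit 25) (.e (nat_lit 114716) (nat_lit 22) (.e (nat_lit 90181) (nat_lit 16) (.e (nat_lit 229592) (nat_lit 187) .nil))))))) (.g (nat_lit 5) .nil .nil))) 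
(.lf (nat_lit 69033) (.g (nat_lit 673) (.e (nat_lit 1656) (nat_lit 115) (.e (nat_lit 393234) (nat_lit 17) (.e (nat_lit 7587) (nat_lit 406) (.e (nat_lit 65648) (nat_lit 26) .nil)))) .nil))) (.nd (nat_lit 5) 
(.lf (nat_lit 69017) (.g (nat_lit 1670) (.e (nat_lit 1656) (nat_lit 115) (.e (nat_lit 393234) (nat_lit 17) (.e (nat_lit 7581) (nat_lit 405) (.e (nat_lit 57464) (nat_lit 23) (.e (nat_lit 516131) (nat_lit 3) (.e (nat_lit 221219) (nat_lit 24) (.e (nat_lit 220928) (nat_lit 0) .nil))))))) (.g (nat_lit 4) .nil .nil))) 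
(.lf (nat_lit 69049) (.g (nat_lit 1160) (.e (nat_lit 1656) (nat_lit 115) (.e (nat_lit 393234) (nat_lit 17) (.e (nat_lit 7589) (nat_lit 406) (.e (nat_lit 65634) (nat_lit 15) .nil)))) .nil))))) (.nd (nat_lit 3) (.nd (nat_lit 4) (.nd (nat_lit 5) 
(.lf (nat_lit 68997) (.g (nat_lit 1728) (.e (nat_lit 1656) (nat_lit 115) (.e (nat_lit 393233) (nat_lit 17) (.e (nat_lit 7589) (nat_lit 406) (.e (nat_lit 65633) (nat_lit 15) (.e (nat_lit 7088) (nat_lit 379) (.e (nat_lit 123205) (nat_lit 270) .nil)))))) (.g (nat_lit 0) .nil .nil))) 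
(.lf (nat_lit 69029) (.g (nat_lit 2024) (.e (nat_lit 1656) (nat_lit 115) (.e (nat_lit 393234) (nat_lit 17) (.e (nat_lit 7583) (nat_lit 405) (.e (nat_lit 57464) (nat_lit 23) (.e (nat_lit 516130) (nat_lit 3) (.e (nat_lit 221218) (nat_lit 24) (.e (nat_lit 220928) (nat_lit 0) .nil))))))) (.g (nat_lit 5) .nil .nil)))) (.nd (nat_lit 5) 
(.lf (nat_lit 69013) (.g (nat_lit 723) (.e (nat_lit 1656) (nat_lit 115) (.e (nat_lit 393234) (nat_lit 17) (.e (nat_lit 7581) (nat_lit 405) (.e (nat_lit 57464) (nat_lit 23) .nil)))) .nil)) 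
(.lf (nat_lit 69045) (.g (nat_lit 1652) (.e (nat_lit 1656) (nat_lit 115) (.e (nat_lit 393234) (nat_lit 17) (.e (nat_lit 7587) (nat_lit 406) (.e (nat_lit 65653) (nat_lit 27) (.e (nat_lit 426011) (nat_lit 0) (.e (nat_lit 7936) (nat_lit 402) .nil)))))) (.g (nat_lit 4) .nil .nil))))) (.nd (nat_lit 4) (.nd (nat_lit 5) 
(.lf (nat_lit 69005) (.g (nat_lit 3241) (.e (nat_lit 1656) (nat_lit 115) (.e (nat_lit 393234) (nat_lit 17) (.e (nat_lit 7110) (nat_lit 380) (.e (nat_lit 164368) (nat_lit 247) (.e (nat_lit 8541) (nat_lit 226) (.e (nat_lit 57887) (nat_lit 270) .nil)))))) (.g (nat_lit 0) .nil .nil))) 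
(.lf (nat_lit 69037) (.g (nat_lit 2238) (.e (nat_lit 1656) (nat_lit 115) (.e (nat_lit 393234) (nat_lit 17) (.e (nat_lit 7587) (nat_lit 406) (.e (nat_lit 65648) (nat_lit 26) (.e (nat_lit 417796) (nat_lit 0) (.e (nat_lit 5291) (nat_lit 298) .nil)))))) (.g (nat_lit 5) .nil .nil)))) (.nd (nat_lit 5) 
(.lf (nat_lit 69021) (.g (nat_lit 2153) (.e (nat_lit 1656) (nat_lit 115) (.e (nat_lit 393234) (nat_lit 17) (.e (nat_lit 7581) (nat_lit 405) (.e (nat_lit 57477) (nat_lit 28) (.e (nat_lit 557104) (nat_lit 14) (.e (nat_lit 180265) (nat_lit 21) (.e (nat_lit 671488) (nat_lit 0) .nil))))))) (.g (nat_lit 4) .nil .nil))) 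
(.lf (nat_lit 69053) (.g (nat_lit 1832) (.e (nat_lit 1656) (nat_lit 115) (.e (nat_lit 393234) (nat_lit 17) (.e (nat_lit 7589) (nat_lit 406) (.e (nat_lit 65648) (nat_lit 26) (.e (nat_lit 417796) (nat_lit 0) (.e (nat_lit 5281) (nat_lit 298) .nil)))))) (.g (nat_lit 4) .nil .nil))))))) (.nd (nat_lit 2) (.nd (nat_lit 3) (.nd (nat_lit 4) (.nd (nat_lit 5) 
(.lf (nat_lit 68995) (.g (nat_lit 1584) (.e (nat_lit 1656) (nat_lit 115) (.e (nat_lit 401152) (nat_lit 12) (.e (nat_lit 360466) (nat_lit 3) (.e (nat_lit 516120) (nat_lit 1) (.e (nat_lit 164166) (nat_lit 152) (.e (nat_lit 1074) (nat_lit 81) .nil)))))) (.g (nat_lit 4) .nil .nil))) 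
(.lf (nat_lit 69027) (.g (nat_lit 441) (.e (nat_lit 1656) (nat_lit 115) (.e (nat_lit 393234) (nat_lit 17) (.e (nat_lit 7583) (nat_lit 405) .nil))) .nil))) (.nd (nat_lit 5) 
(.lf (nat_lit 69011) (.g (nat_lit 1619) (.e (nat_lit 1656) (nat_lit 115) (.e (nat_lit 393234) (nat_lit 17) (.e (nat_lit 7538) (nat_lit 402) (.e (nat_lit 1661) (nat_lit 115) (.e (nat_lit 393238) (nat_lit 17) .nil))))) .nil)) 
(.lf (nat_lit 69043) (.g (nat_lit 3419) (.e (nat_lit 1656) (nat_lit 115) (.e (nat_lit 393234) (nat_lit 17) (.e (nat_lit 7587) (nat_lit 406) (.e (nat_lit 65653) (nat_lit 27) (.e (nat_lit 426011) (nat_lit 0) (.e (nat_lit 7491) (nat_lit 402) .nil)))))) (.g (nat_lit 6) .nil .nil))))) (.nd (nat_lit 4) (.nd (nat_lit 5) 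
(.lf (nat_lit 69003) (.g (nat_lit 1024) (.e (nat_lit 1656) (nat_lit 115) (.e (nat_lit 393234) (nat_lit 17) (.e (nat_lit 7065) (nat_lit 377) (.e (nat_lit 1112) (nat_lit 82) .nil)))) .nil)) 
(.lf (nat_lit 69035) (.g (nat_lit 1989) (.e (nat_lit 1656) (nat_lit 115) (.e (nat_lit 393234) (nat_lit 17) (.e (nat_lit 7587) (nat_lit 406) (.e (nat_lit 65648) (nat_lit 26) (.e (nat_lit 417796) (nat_lit 0) (.e (nat_lit 5281) (nat_lit 298) .nil)))))) (.g (nat_lit 4) .nil .nil)))) (.nd (nat_lit 5) 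
(.lf (nat_lit 69019) (.g (nat_lit 3078) (.e (nat_lit 1656) (nat_lit 115) (.e (nat_lit 393234) (nat_lit 17) (.e (nat_lit 7581) (nat_lit 405) (.e (nat_lit 57477) (nat_lit 28) (.e (nat_lit 557103) (nat_lit 14) (.e (nat_lit 180263) (nat_lit 21) (.e (nat_lit 671488) (nat_lit 0) .nil))))))) (.g (nat_lit 5) .nil .nil))) 
(.lf (nat_lit 69051) (.g (nat_lit 2327) (.e (nat_lit 1656) (nat_lit 115) (.e (nat_lit 393234) (nat_lit 17) (.e (nat_lit 7589) (nat_lit 406) (.e (nat_lit 65647) (nat_lit 25) (.e (nat_lit 409604) (nat_lit 0) (.e (nat_lit 5277) (nat_lit 298) .nil)))))) (.g (nat_lit 5) .nil .nil)))))) (.nd (nat_lit 3) (.nd (nat_lit 4) (.nd (nat_lit 5) 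
(.lf (nat_lit 68999) (.g (nat_lit 2627) (.e (nat_lit 1656) (nat_lit 115) (.e (nat_lit 393234) (nat_lit 17) (.e (nat_lit 3461) (nat_lit 216) (.e (nat_lit 688182) (nat_lit 17) (.e (nat_lit 73755) (nat_lit 8) (.e (nat_lit 557089) (nat_lit 12) (.e (nat_lit 171776) (nat_lit 187) .nil))))))) (.g (nat_lit 5) .nil .nil))) 
(.lf (nat_lit 69031) (.g (nat_lit 1968) (.e (nat_lit 1656) (nat_lit 115) (.e (nat_lit 393234) (nat_lit 17) (.e (nat_lit 7583) (nat_lit 405) (.e (nat_lit 57476) (nat_lit 28) (.e (nat_lit 557103) (nat_lit 14) (.e (nat_lit 180263) (nat_lit 21) (.e (nat_lit 671488) (nat_lit 0) .nil))))))) (.g (nat_lit 4) .nil .nil)))) (.nd (nat_lit 5) 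
(.lf (nat_lit 69015) (.g (nat_lit 2634) (.e (nat_lit 1656) (nat_lit 115) (.e (nat_lit 393234) (nat_lit 17) (.e (nat_lit 7581) (nat_lit 405) (.e (nat_lit 57464) (nat_lit 23) (.e (nat_lit 516130) (nat_lit 3) (.e (nat_lit 221218) (nat_lit 24) (.e (nat_lit 220928) (nat_lit 0) .nil))))))) (.g (nat_lit 6) .nil .nil))) 
(.lf (nat_lit 69047) (.g (nat_lit 336) (.e (nat_lit 1656) (nat_lit 115) (.e (nat_lit 393234) (nat_lit 17) (.e (nat_lit 7589) (nat_lit 406) .nil))) .nil)))) (.nd (nat_lit 4) (.nd (nat_lit 5) 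
(.lf (nat_lit 69007) (.g (nat_lit 514) (.e (nat_lit 1656) (nat_lit 115) (.e (nat_lit 393234) (nat_lit 17) (.e (nat_lit 7118) (nat_lit 381) .nil))) .nil)) 
(.lf (nat_lit 69039) (.g (nat_lit 2306) (.e (nat_lit 1656) (nat_lit 115) (.e (nat_lit 393234) (nat_lit 17) (.e (nat_lit 7587) (nat_lit 406) (.e (nat_lit 65648) (nat_lit 26) (.e (nat_lit 417796) (nat_lit 0) (.e (nat_lit 5300) (nat_lit 298) .nil)))))) (.g (nat_lit 5) .nil .nil)))) (.nd (nat_lit 5) 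
(.lf (nat_lit 69023) (.g (nat_lit 3747) (.e (nat_lit 1656) (nat_lit 115) (.e (nat_lit 393234) (nat_lit 17) (.e (nat_lit 7581) (nat_lit 405) (.e (nat_lit 57479) (nat_lit 28) (.e (nat_lit 557105) (nat_lit 14) (.e (nat_lit 180265) (nat_lit 21) (.e (nat_lit 671488) (nat_lit 0) .nil))))))) (.g (nat_lit 5) .nil .nil))) 
(.lf (nat_lit 69055) (.g (nat_lit 2160) (.e (nat_lit 1656) (nat_lit 115) (.e (nat_lit 393234) (nat_lit 17) (.e (nat_lit 7589) (nat_lit 406) (.e (nat_lit 65648) (nat_lit 26) (.e (nat_lit 417796) (nat_lit 0) (.e (nat_lit 5294) (nat_lit 298) .nil)))))) (.g (nat_lit 5) .nil .nil)))))))))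

noncomputable def tv948 : DT := (.nd (nat_lit 0) (.nd (nat_lit 1) (.nd (nat_lit 2) (.nd (nat_lit 3) (.nd (nat_lit 4) (.nd (nat_lit 5) 
(.lf (nat_lit 69056) (.g (nat_lit 2212) (.e (nat_lit 1656) (nat_lit 115) (.e (nat_lit 393234) (nat_lit 17) (.e (nat_lit 7589) (nat_lit 406) (.e (nat_lit 65648) (nat_lit 26) (.e (nat_lit 417796) (nat_lit 0) (.e (nat_lit 5300) (nat_lit 298) .nil)))))) (.g (nat_lit 5) .nil .nil))) 
(.lf (nat_lit 69088) (.g (nat_lit 3627) (.e (nat_lit 1656) (nat_lit 115) (.e (nat_lit 393251) (nat_lit 18) (.e (nat_lit 164179) (nat_lit 154) (.e (nat_lit 57411) (nat_lit 12) (.e (nat_lit 336324) (nat_lit 18) (.e (nat_lit 204816) (nat_lit 17) (.e (nat_lit 6437) (nat_lit 343) .nil))))))) (.g (nat_lit 4) .nil .nil)))) (.nd (nat_lit 5) 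
(.lf (nat_lit 69072) (.g (nat_lit 2053) (.e (nat_lit 1656) (nat_lit 115) (.e (nat_lit 393234) (nat_lit 17) (.e (nat_lit 7591) (nat_lit 407) (.e (nat_lit 73774) (nat_lit 26) (.e (nat_lit 778310) (nat_lit 1) (.e (nat_lit 8514) (nat_lit 191) .nil)))))) (.g (nat_lit 5) .nil .nil))) 
(.lf (nat_lit 69104) (.g (nat_lit 1490) (.e (nat_lit 1656) (nat_lit 115) (.e (nat_lit 393251) (nat_lit 18) (.e (nat_lit 164325) (nat_lit 230) (.e (nat_lit 163875) (nat_lit 3) .nil)))) .nil)))) (.nd (nat_lit 4) (.nd (nat_lit 5) 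
(.lf (nat_lit 69064) (.g (nat_lit 3228) (.e (nat_lit 1656) (nat_lit 115) (.e (nat_lit 393234) (nat_lit 17) (.e (nat_lit 7591) (nat_lit 407) (.e (nat_lit 73729) (nat_lit 0) (.e (nat_lit 7265) (nat_lit 384) (.e (nat_lit 57354) (nat_lit 0) (.e (nat_lit 7936) (nat_lit 343) .nil))))))) (.g (nat_lit 6) .nil .nil))) 
(.lf (nat_lit 69096) (.g (nat_lit 2744) (.e (nat_lit 1656) (nat_lit 115) (.e (nat_lit 393251) (nat_lit 18) (.e (nat_lit 164183) (nat_lit 154) (.e (nat_lit 57409) (nat_lit 12) (.e (nat_lit 336324) (nat_lit 18) (.e (nat_lit 204816) (nat_lit 17) (.e (nat_lit 6437) (nat_lit 343) .nil))))))) (.g (nat_lit 5) .nil .nil)))) (.nd (nat_lit 5) 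
(.lf (nat_lit 69080) (.g (nat_lit 2539) (.e (nat_lit 1656) (nat_lit 115) (.e (nat_lit 393237) (nat_lit 17) (.e (nat_lit 3453) (nat_lit 216) (.e (nat_lit 688182) (nat_lit 17) (.e (nat_lit 73755) (nat_lit 8) (.e (nat_lit 557089) (nat_lit 12) (.e (nat_lit 171776) (nat_lit 187) .nil))))))) (.g (nat_lit 6) .nil .nil))) 
(.lf (nat_lit 69112) (.g (nat_lit 2436) (.e (nat_lit 1656) (nat_lit 115) (.e (nat_lit 393259) (nat_lit 21) (.e (nat_lit 409646) (nat_lit 18) (.e (nat_lit 303149) (nat_lit 15) (.e (nat_lit 6216) (nat_lit 333) (.e (nat_lit 57887) (nat_lit 270) .nil)))))) (.g (nat_lit 4) .nil .nil)))))) (.nd (nat_lit 3) (.nd (nat_lit 4) (.nd (nat_lit 5) 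
(.lf (nat_lit 69060) (.g (nat_lit 2642) (.e (nat_lit 1656) (nat_lit 115) (.e (nat_lit 393234) (nat_lit 17) (.e (nat_lit 7589) (nat_lit 406) (.e (nat_lit 65653) (nat_lit 27) (.e (nat_lit 426012) (nat_lit 0) (.e (nat_lit 7491) (nat_lit 402) .nil)))))) (.g (nat_lit 5) .nil .nil))) 
(.lf (nat_lit 69092) (.g (nat_lit 2842) (.e (nat_lit 1656) (nat_lit 115) (.e (nat_lit 393251) (nat_lit 18) (.e (nat_lit 164182) (nat_lit 154) (.e (nat_lit 57409) (nat_lit 12) (.e (nat_lit 336324) (nat_lit 18) .nil))))) .nil))) (.nd (nat_lit 5) 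
(.lf (nat_lit 69076) (.g (nat_lit 2018) (.e (nat_lit 1656) (nat_lit 115) (.e (nat_lit 393234) (nat_lit 17) (.e (nat_lit 7593) (nat_lit 407) (.e (nat_lit 73729) (nat_lit 0) (.e (nat_lit 7265) (nat_lit 384) (.e (nat_lit 57347) (nat_lit 0) (.e (nat_lit 7936) (nat_lit 343) .nil))))))) (.g (nat_lit 4) .nil .nil))) 
(.lf (nat_lit 69108) (.g (nat_lit 851) (.e (nat_lit 1656) (nat_lit 115) (.e (nat_lit 393251) (nat_lit 18) (.e (nat_lit 164398) (nat_lit 256) .nil))) .nil)))) (.nd (nat_lit 4) (.nd (nat_lit 5) 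
(.lf (nat_lit 69068) (.g (nat_lit 2233) (.e (nat_lit 1656) (nat_lit 115) (.e (nat_lit 393234) (nat_lit 17) (.e (nat_lit 7591) (nat_lit 407) (.e (nat_lit 73731) (nat_lit 0) (.e (nat_lit 7265) (nat_lit 384) (.e (nat_lit 57346) (nat_lit 0) (.e (nat_lit 6437) (nat_lit 343) .nil))))))) (.g (nat_lit 6) .nil .nil))) 
(.lf (nat_lit 69100) (.g (nat_lit 3868) (.e (nat_lit 1656) (nat_lit 115) (.e (nat_lit 393251) (nat_lit 18) (.e (nat_lit 164325) (nat_lit 230) (.e (nat_lit 163861) (nat_lit 1) (.e (nat_lit 164332) (nat_lit 230) (.e (nat_lit 163885) (nat_lit 5) (.e (nat_lit 221207) (nat_lit 21) (.e (nat_lit 164227) (nat_lit 181) (.e (nat_lit 1077) (nat_lit 81) .nil))))))))) (.g (nat_lit 5) .nil .nil)))) 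
(.nd (nat_lit 5) 
(.lf (nat_lit 69084) (.g (nat_lit 3262) (.e (nat_lit 1656) (nat_lit 115) (.e (nat_lit 393251) (nat_lit 18) (.e (nat_lit 164177) (nat_lit 154) (.e (nat_lit 57407) (nat_lit 12) (.e (nat_lit 336324) (nat_lit 18) (.e (nat_lit 204816) (nat_lit 17) (.e (nat_lit 6437) (nat_lit 343) .nil))))))) (.g (nat_lit 4) .nil .nil))) 
(.lf (nat_lit 69116) (.g (nat_lit 2035) (.e (nat_lit 1656) (nat_lit 115) (.e (nat_lit 393265) (nat_lit 22) (.e (nat_lit 417804) (nat_lit 1) (.e (nat_lit 8446) (nat_lit 140) (.e (nat_lit 57400) (nat_lit 10) (.e (nat_lit 319511) (nat_lit 10) (.e (nat_lit 5293) (nat_lit 298) .nil))))))) (.g (nat_lit 0) .nil .nil))))))) (.nd (nat_lit 2) (.nd (nat_lit 3) (.nd (nat_lit 4) (.nd (nat_lit 5) 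
(.lf (nat_lit 69058) (.g (nat_lit 2212) (.e (nat_lit 1656) (nat_lit 115) (.e (nat_lit 393234) (nat_lit 17) (.e (nat_lit 7589) (nat_lit 406) (.e (nat_lit 65653) (nat_lit 27) (.e (nat_lit 426010) (nat_lit 0) (.e (nat_lit 7491) (nat_lit 402) .nil)))))) (.g (nat_lit 6) .nil .nil))) 
(.lf (nat_lit 69090) (.g (nat_lit 2931) (.e (nat_lit 1656) (nat_lit 115) (.e (nat_lit 393251) (nat_lit 18) (.e (nat_lit 164179) (nat_lit 154) (.e (nat_lit 57432) (nat_lit 16) (.e (nat_lit 368676) (nat_lit 21) (.e (nat_lit 516117) (nat_lit 1) (.e (nat_lit 164206) (nat_lit 170) (.e (nat_lit 1074) (nat_lit 81) .nil)))))))) (.g (nat_lit 5) .nil .nil)))) (.nd (nat_lit 5) 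
(.lf (nat_lit 69074) (.g (nat_lit 2522) (.e (nat_lit 1656) (nat_lit 115) (.e (nat_lit 393234) (nat_lit 17) (.e (nat_lit 7593) (nat_lit 407) (.e (nat_lit 73729) (nat_lit 0) (.e (nat_lit 7263) (nat_lit 384) (.e (nat_lit 57354) (nat_lit 0) (.e (nat_lit 7936) (nat_lit 343) .nil))))))) (.g (nat_lit 5) .nil .nil))) 
(.lf (nat_lit 69106) (.g (nat_lit 1174) (.e (nat_lit 1656) (nat_lit 115) (.e (nat_lit 393251) (nat_lit 18) (.e (nat_lit 164332) (nat_lit 230) .nil))) .nil)))) (.nd (nat_lit 4) (.nd (nat_lit 5) 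
(.lf (nat_lit 69066) (.g (nat_lit 2563) (.e (nat_lit 1656) (nat_lit 115) (.e (nat_lit 393234) (nat_lit 17) (.e (nat_lit 7591) (nat_lit 407) (.e (nat_lit 73730) (nat_lit 0) (.e (nat_lit 7263) (nat_lit 384) (.e (nat_lit 57354) (nat_lit 0) (.e (nat_lit 7936) (nat_lit 343) .nil))))))) (.g (nat_lit 6) .nil .nil))) 
(.lf (nat_lit 69098) (.g (nat_lit 786) (.e (nat_lit 1656) (nat_lit 115) (.e (nat_lit 393251) (nat_lit 18) (.e (nat_lit 164325) (nat_lit 230) .nil))) .nil))) (.nd (nat_lit 5) 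
(.lf (nat_lit 69082) (.g (nat_lit 1559) (.e (nat_lit 1656) (nat_lit 115) (.e (nat_lit 393251) (nat_lit 18) (.e (nat_lit 164177) (nat_lit 154) (.e (nat_lit 57367) (nat_lit 1) .nil)))) .nil)) 
(.lf (nat_lit 69114) (.g (nat_lit 2875) (.e (nat_lit 1656) (nat_lit 115) (.e (nat_lit 393260) (nat_lit 21) (.e (nat_lit 409645) (nat_lit 18) (.e (nat_lit 303149) (nat_lit 15) (.e (nat_lit 6216) (nat_lit 333) (.e (nat_lit 57887) (nat_lit 270) .nil)))))) (.g (nat_lit 4) .nil .nil)))))) (.nd (nat_lit 3) (.nd (nat_lit 4) (.nd (nat_lit 5) 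
(.lf (nat_lit 69062) (.g (nat_lit 2855) (.e (nat_lit 1656) (nat_lit 115) (.e (nat_lit 393234) (nat_lit 17) (.e (nat_lit 7591) (nat_lit 407) (.e (nat_lit 73729) (nat_lit 0) (.e (nat_lit 7263) (nat_lit 384) (.e (nat_lit 57354) (nat_lit 0) (.e (nat_lit 7936) (nat_lit 343) .nil))))))) (.g (nat_lit 6) .nil .nil))) 
(.lf (nat_lit 69094) (.g (nat_lit 819) (.e (nat_lit 1656) (nat_lit 115) (.e (nat_lit 393251) (nat_lit 18) (.e (nat_lit 164183) (nat_lit 154) .nil))) .nil))) (.nd (nat_lit 5) 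
(.lf (nat_lit 69078) (.g (nat_lit 1860) (.e (nat_lit 1656) (nat_lit 115) (.e (nat_lit 393234) (nat_lit 17) (.e (nat_lit 7593) (nat_lit 407) (.e (nat_lit 73730) (nat_lit 0) (.e (nat_lit 7263) (nat_lit 384) (.e (nat_lit 57354) (nat_lit 0) (.e (nat_lit 7936) (nat_lit 343) .nil))))))) (.g (nat_lit 4) .nil .nil))) 
(.lf (nat_lit 69110) (.g (nat_lit 1663) (.e (nat_lit 1656) (nat_lit 115) (.e (nat_lit 393251) (nat_lit 18) (.e (nat_lit 164399) (nat_lit 256) (.e (nat_lit 57379) (nat_lit 3) .nil)))) .nil)))) (.nd (nat_lit 4) (.nd (nat_lit 5) 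
(.lf (nat_lit 69070) (.g (nat_lit 2584) (.e (nat_lit 1656) (nat_lit 115) (.e (nat_lit 393234) (nat_lit 17) (.e (nat_lit 7591) (nat_lit 407) (.e (nat_lit 73733) (nat_lit 0) (.e (nat_lit 7255) (nat_lit 383) (.e (nat_lit 8202) (nat_lit 0) (.e (nat_lit 5277) (nat_lit 298) .nil))))))) (.g (nat_lit 7) .nil .nil))) 
(.lf (nat_lit 69102) (.g (nat_lit 3755) (.e (nat_lit 1656) (nat_lit 115) (.e (nat_lit 393251) (nat_lit 18) (.e (nat_lit 164325) (nat_lit 230) (.e (nat_lit 163864) (nat_lit 1) (.e (nat_lit 164332) (nat_lit 230) (.e (nat_lit 163885) (nat_lit 5) (.e (nat_lit 221207) (nat_lit 21) (.e (nat_lit 164227) (nat_lit 181) (.e (nat_lit 1077) (nat_lit 81) .nil))))))))) (.g (nat_lit 6) .nil .nil)))) 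
(.nd (nat_lit 5) 
(.lf (nat_lit 69086) (.g (nat_lit 3214) (.e (nat_lit 1656) (nat_lit 115) (.e (nat_lit 393251) (nat_lit 18) (.e (nat_lit 164179) (nat_lit 154) (.e (nat_lit 57406) (nat_lit 12) (.e (nat_lit 336324) (nat_lit 18) (.e (nat_lit 204816) (nat_lit 17) (.e (nat_lit 6437) (nat_lit 343) .nil))))))) (.g (nat_lit 5) .nil .nil))) 
(.lf (nat_lit 69118) (.g (nat_lit 687) (.e (nat_lit 1656) (nat_lit 115) (.e (nat_lit 393265) (nat_lit 22) (.e (nat_lit 417817) (nat_lit 10) (.e (nat_lit 5364) (nat_lit 298) .nil)))) .nil))))))) (.nd (nat_lit 1) (.nd (nat_lit 2) (.nd (nat_lit 3) (.nd (nat_lit 4) (.nd (nat_lit 5) 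
(.lf (nat_lit 69057) (.g (nat_lit 1989) (.e (nat_lit 1656) (nat_lit 115) (.e (nat_lit 393234) (nat_lit 17) (.e (nat_lit 7589) (nat_lit 406) (.e (nat_lit 65653) (nat_lit 27) (.e (nat_lit 426009) (nat_lit 0) (.e (nat_lit 7491) (nat_lit 402) .nil)))))) (.g (nat_lit 6) .nil .nil))) 
(.lf (nat_lit 69089) (.g (nat_lit 3315) (.e (nat_lit 1656) (nat_lit 115) (.e (nat_lit 393251) (nat_lit 18) (.e (nat_lit 164179) (nat_lit 154) (.e (nat_lit 57432) (nat_lit 16) (.e (nat_lit 368676) (nat_lit 21) (.e (nat_lit 516117) (nat_lit 1) (.e (nat_lit 164203) (nat_lit 170) (.e (nat_lit 1074) (nat_lit 81) .nil)))))))) (.g (nat_lit 5) .nil .nil)))) (.nd (nat_lit 5) 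
(.lf (nat_lit 69073) (.g (nat_lit 2073) (.e (nat_lit 1656) (nat_lit 115) (.e (nat_lit 393234) (nat_lit 17) (.e (nat_lit 7593) (nat_lit 407) (.e (nat_lit 73729) (nat_lit 0) (.e (nat_lit 7261) (nat_lit 384) (.e (nat_lit 57346) (nat_lit 0) (.e (nat_lit 6437) (nat_lit 343) .nil))))))) (.g (nat_lit 5) .nil .nil))) 
(.lf (nat_lit 69105) (.g (nat_lit 869) (.e (nat_lit 1656) (nat_lit 115) (.e (nat_lit 393251) (nat_lit 18) (.e (nat_lit 164327) (nat_lit 230) .nil))) .nil)))) (.nd (nat_lit 4) (.nd (nat_lit 5) 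
(.lf (nat_lit 69065) (.g (nat_lit 2143) (.e (nat_lit 1656) (nat_lit 115) (.e (nat_lit 393234) (nat_lit 17) (.e (nat_lit 7591) (nat_lit 407) (.e (nat_lit 73730) (nat_lit 0) (.e (nat_lit 7261) (nat_lit 384) (.e (nat_lit 57346) (nat_lit 0) (.e (nat_lit 6437) (nat_lit 343) .nil))))))) (.g (nat_lit 6) .nil .nil))) 
(.lf (nat_lit 69097) (.g (nat_lit 3035) (.e (nat_lit 1656) (nat_lit 115) (.e (nat_lit 393251) (nat_lit 18) (.e (nat_lit 164183) (nat_lit 154) (.e (nat_lit 57411) (nat_lit 12) (.e (nat_lit 336324) (nat_lit 18) (.e (nat_lit 204816) (nat_lit 17) (.e (nat_lit 6437) (nat_lit 343) .nil))))))) (.g (nat_lit 5) .nil .nil)))) (.nd (nat_lit 5) 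
(.lf (nat_lit 69081) (.g (nat_lit 1051) (.e (nat_lit 1656) (nat_lit 115) (.e (nat_lit 393251) (nat_lit 18) (.e (nat_lit 164177) (nat_lit 154) .nil))) .nil)) 
(.lf (nat_lit 69113) (.g (nat_lit 1947) (.e (nat_lit 1656) (nat_lit 115) (.e (nat_lit 393260) (nat_lit 21) (.e (nat_lit 409617) (nat_lit 10) (.e (nat_lit 5630) (nat_lit 312) .nil)))) .nil))))) (.nd (nat_lit 3) (.nd (nat_lit 4) (.nd (nat_lit 5) 
(.lf (nat_lit 69061) (.g (nat_lit 2467) (.e (nat_lit 1656) (nat_lit 115) (.e (nat_lit 393234) (nat_lit 17) (.e (nat_lit 7591) (nat_lit 407) (.e (nat_lit 73729) (nat_lit 0) (.e (nat_lit 7261) (nat_lit 384) (.e (nat_lit 57346) (nat_lit 0) (.e (nat_lit 6437) (nat_lit 343) .nil))))))) (.g (nat_lit 5) .nil .nil))) 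
(.lf (nat_lit 69093) (.g (nat_lit 3595) (.e (nat_lit 1656) (nat_lit 115) (.e (nat_lit 393251) (nat_lit 18) (.e (nat_lit 164182) (nat_lit 154) (.e (nat_lit 57411) (nat_lit 12) (.e (nat_lit 336324) (nat_lit 18) (.e (nat_lit 204816) (nat_lit 17) (.e (nat_lit 6437) (nat_lit 343) .nil))))))) (.g (nat_lit 5) .nil .nil)))) (.nd (nat_lit 5) 
(.lf (nat_lit 69077) (.g (nat_lit 2814) (.e (nat_lit 1656) (nat_lit 115) (.e (nat_lit 393234) (nat_lit 17) (.e (nat_lit 7593) (nat_lit 407) (.e (nat_lit 73729) (nat_lit 0) (.e (nat_lit 7265) (nat_lit 384) (.e (nat_lit 57354) (nat_lit 0) (.e (nat_lit 7936) (nat_lit 343) .nil))))))) (.g (nat_lit 5) .nil .nil))) 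
(.lf (nat_lit 69109) (.g (nat_lit 1068) (.e (nat_lit 1656) (nat_lit 115) (.e (nat_lit 393251) (nat_lit 18) (.e (nat_lit 164399) (nat_lit 256) .nil))) .nil)))) (.nd (nat_lit 4) (.nd (nat_lit 5) 
(.lf (nat_lit 69069) (.g (nat_lit 2680) (.e (nat_lit 1656) (nat_lit 115) (.e (nat_lit 393234) (nat_lit 17) (.e (nat_lit 7591) (nat_lit 407) (.e (nat_lit 73731) (nat_lit 0) (.e (nat_lit 7265) (nat_lit 384) (.e (nat_lit 57354) (nat_lit 0) (.e (nat_lit 7936) (nat_lit 343) .nil))))))) (.g (nat_lit 6) .nil .nil))) 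
(.lf (nat_lit 69101) (.g (nat_lit 3860) (.e (nat_lit 1656) (nat_lit 115) (.e (nat_lit 393251) (nat_lit 18) (.e (nat_lit 164325) (nat_lit 230) (.e (nat_lit 163861) (nat_lit 1) (.e (nat_lit 164332) (nat_lit 230) (.e (nat_lit 163885) (nat_lit 5) (.e (nat_lit 221208) (nat_lit 21) (.e (nat_lit 164226) (nat_lit 181) (.e (nat_lit 1077) (nat_lit 81) .nil))))))))) (.g (nat_lit 5) .nil .nil)))) 
(.nd (nat_lit 5) 
(.lf (nat_lit 69085) (.g (nat_lit 947) (.e (nat_lit 1656) (nat_lit 115) (.e (nat_lit 393251) (nat_lit 18) (.e (nat_lit 164179) (nat_lit 154) .nil))) .nil)) 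
(.lf (nat_lit 69117) (.g (nat_lit 1608) (.e (nat_lit 1656) (nat_lit 115) (.e (nat_lit 393265) (nat_lit 22) (.e (nat_lit 417817) (nat_lit 10) (.e (nat_lit 5363) (nat_lit 298) (.e (nat_lit 446) (nat_lit 33) (.e (nat_lit 442112) (nat_lit 0) .nil)))))) (.g (nat_lit 5) .nil .nil))))))) (.nd (nat_lit 2) (.nd (nat_lit 3) (.nd (nat_lit 4) (.nd (nat_lit 5) 
(.lf (nat_lit 69059) (.g (nat_lit 3280) (.e (nat_lit 1656) (nat_lit 115) (.e (nat_lit 393234) (nat_lit 17) (.e (nat_lit 7589) (nat_lit 406) (.e (nat_lit 65653) (nat_lit 27) (.e (nat_lit 426011) (nat_lit 0) (.e (nat_lit 7491) (nat_lit 402) .nil)))))) (.g (nat_lit 6) .nil .nil))) 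
(.lf (nat_lit 69091) (.g (nat_lit 1054) (.e (nat_lit 1656) (nat_lit 115) (.e (nat_lit 393251) (nat_lit 18) (.e (nat_lit 164182) (nat_lit 154) .nil))) .nil))) (.nd (nat_lit 5) 
(.lf (nat_lit 69075) (.g (nat_lit 2398) (.e (nat_lit 1656) (nat_lit 115) (.e (nat_lit 393234) (nat_lit 17) (.e (nat_lit 7593) (nat_lit 407) (.e (nat_lit 73729) (nat_lit 0) (.e (nat_lit 7265) (nat_lit 384) (.e (nat_lit 57346) (nat_lit 0) (.e (nat_lit 6437) (nat_lit 343) .nil))))))) (.g (nat_lit 5) .nil .nil))) 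
(.lf (nat_lit 69107) (.g (nat_lit 1871) (.e (nat_lit 1656) (nat_lit 115) (.e (nat_lit 393251) (nat_lit 18) (.e (nat_lit 164332) (nat_lit 230) (.e (nat_lit 163874) (nat_lit 3) .nil)))) .nil)))) (.nd (nat_lit 4) (.nd (nat_lit 5) 
(.lf (nat_lit 69067) (.g (nat_lit 2172) (.e (nat_lit 1656) (nat_lit 115) (.e (nat_lit 393234) (nat_lit 17) (.e (nat_lit 7591) (nat_lit 407) (.e (nat_lit 73731) (nat_lit 0) (.e (nat_lit 7261) (nat_lit 384) (.e (nat_lit 57346) (nat_lit 0) (.e (nat_lit 6437) (nat_lit 343) .nil))))))) (.g (nat_lit 6) .nil .nil))) 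
(.lf (nat_lit 69099) (.g (nat_lit 2990) (.e (nat_lit 1656) (nat_lit 115) (.e (nat_lit 393251) (nat_lit 18) (.e (nat_lit 164325) (nat_lit 230) (.e (nat_lit 163861) (nat_lit 1) (.e (nat_lit 164332) (nat_lit 230) (.e (nat_lit 163885) (nat_lit 5) (.e (nat_lit 221207) (nat_lit 21) (.e (nat_lit 164222) (nat_lit 181) (.e (nat_lit 1077) (nat_lit 81) .nil))))))))) (.g (nat_lit 4) .nil .nil)))) 
(.nd (nat_lit 5) 
(.lf (nat_lit 69083) (.g (nat_lit 2513) (.e (nat_lit 1656) (nat_lit 115) (.e (nat_lit 393251) (nat_lit 18) (.e (nat_lit 164177) (nat_lit 154) (.e (nat_lit 57406) (nat_lit 12) (.e (nat_lit 336324) (nat_lit 18) .nil))))) .nil)) 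
(.lf (nat_lit 69115) (.g (nat_lit 444) (.e (nat_lit 1656) (nat_lit 115) (.e (nat_lit 393260) (nat_lit 21) (.e (nat_lit 409648) (nat_lit 18) .nil))) .nil))))) (.nd (nat_lit 3) (.nd (nat_lit 4) (.nd (nat_lit 5) 
(.lf (nat_lit 69063) (.g (nat_lit 2797) (.e (nat_lit 1656) (nat_lit 115) (.e (nat_lit 393234) (nat_lit 17) (.e (nat_lit 7591) (nat_lit 407) (.e (nat_lit 73729) (nat_lit 0) (.e (nat_lit 7265) (nat_lit 384) (.e (nat_lit 57346) (nat_lit 0) (.e (nat_lit 6437) (nat_lit 343) .nil))))))) (.g (nat_lit 5) .nil .nil))) 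
(.lf (nat_lit 69095) (.g (nat_lit 1616) (.e (nat_lit 1656) (nat_lit 115) (.e (nat_lit 393251) (nat_lit 18) (.e (nat_lit 164183) (nat_lit 154) (.e (nat_lit 57367) (nat_lit 1) .nil)))) .nil))) (.nd (nat_lit 5) 
(.lf (nat_lit 69079) (.g (nat_lit 1870) (.e (nat_lit 1656) (nat_lit 115) (.e (nat_lit 393234) (nat_lit 17) (.e (nat_lit 7593) (nat_lit 407) (.e (nat_lit 73732) (nat_lit 0) (.e (nat_lit 7255) (nat_lit 383) (.e (nat_lit 8202) (nat_lit 0) (.e (nat_lit 5277) (nat_lit 298) .nil))))))) (.g (nat_lit 4) .nil .nil))) 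
(.lf (nat_lit 69111) (.g (nat_lit 1174) (.e (nat_lit 1656) (nat_lit 115) (.e (nat_lit 393251) (nat_lit 18) (.e (nat_lit 164406) (nat_lit 258) .nil))) .nil)))) (.nd (nat_lit 4) (.nd (nat_lit 5) 
(.lf (nat_lit 69071) (.g (nat_lit 2270) (.e (nat_lit 1656) (nat_lit 115) (.e (nat_lit 393234) (nat_lit 17) (.e (nat_lit 7591) (nat_lit 407) (.e (nat_lit 73733) (nat_lit 0) (.e (nat_lit 7255) (nat_lit 383) (.e (nat_lit 8202) (nat_lit 0) (.e (nat_lit 5293) (nat_lit 298) .nil))))))) (.g (nat_lit 4) .nil .nil))) 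
(.lf (nat_lit 69103) (.g (nat_lit 3747) (.e (nat_lit 1656) (nat_lit 115) (.e (nat_lit 393251) (nat_lit 18) (.e (nat_lit 164325) (nat_lit 230) (.e (nat_lit 163864) (nat_lit 1) (.e (nat_lit 164332) (nat_lit 230) (.e (nat_lit 163885) (nat_lit 5) (.e (nat_lit 221208) (nat_lit 21) (.e (nat_lit 164226) (nat_lit 181) (.e (nat_lit 1077) (nat_lit 81) .nil))))))))) (.g (nat_lit 6) .nil .nil)))) 
(.nd (nat_lit 5) 
(.lf (nat_lit 69087) (.g (nat_lit 3262) (.e (nat_lit 1656) (nat_lit 115) (.e (nat_lit 393251) (nat_lit 18) (.e (nat_lit 164179) (nat_lit 154) (.e (nat_lit 57407) (nat_lit 12) (.e (nat_lit 336324) (nat_lit 18) (.e (nat_lit 204816) (nat_lit 17) (.e (nat_lit 6437) (nat_lit 343) .nil))))))) (.g (nat_lit 5) .nil .nil))) 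
(.lf (nat_lit 69119) (.g (nat_lit 1596) (.e (nat_lit 1656) (nat_lit 115) (.e (nat_lit 393265) (nat_lit 22) (.e (nat_lit 417817) (nat_lit 10) (.e (nat_lit 5364) (nat_lit 298) (.e (nat_lit 446) (nat_lit 33) (.e (nat_lit 442112) (nat_lit 0) .nil)))))) (.g (nat_lit 5) .nil .nil)))))))))

noncomputable def tv949 : DT := (.nd (nat_lit 0) (.nd (nat_lit 1) (.nd (nat_lit 2) (.nd (nat_lit 3) (.nd (nat_lit 4) (.nd (nat_lit 5) (.nd (nat_lit 6) 
(.lf (nat_lit 69120) (.g (nat_lit 316) (.e (nat_lit 1656) (nat_lit 115) (.e (nat_lit 393265) (nat_lit 22) (.e (nat_lit 417820) (nat_lit 10) .nil))) .nil)) 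
(.lf (nat_lit 69184) (.g (nat_lit 1852) (.e (nat_lit 1656) (nat_lit 115) (.e (nat_lit 393298) (nat_lit 27) (.e (nat_lit 491571) (nat_lit 13) (.e (nat_lit 393231) (nat_lit 17) .nil)))) .nil))) (.nd (nat_lit 6) 
(.lf (nat_lit 69152) (.g (nat_lit 1315) (.e (nat_lit 1656) (nat_lit 115) (.e (nat_lit 393293) (nat_lit 26) (.e (nat_lit 475197) (nat_lit 40) (.e (nat_lit 704595) (nat_lit 5) (.e (nat_lit 188160) (nat_lit 32) .nil))))) (.g (nat_lit 4) .nil .nil))) 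
(.lf (nat_lit 69216) (.g (nat_lit 1262) (.e (nat_lit 1656) (nat_lit 115) (.e (nat_lit 393300) (nat_lit 27) (.e (nat_lit 491546) (nat_lit 9) (.e (nat_lit 336289) (nat_lit 15) .nil)))) .nil)))) (.nd (nat_lit 5) (.nd (nat_lit 6) 
(.lf (nat_lit 69136) (.g (nat_lit 1480) (.e (nat_lit 1656) (nat_lit 115) (.e (nat_lit 393275) (nat_lit 23) (.e (nat_lit 426140) (nat_lit 3) (.e (nat_lit 204821) (nat_lit 17) (.e (nat_lit 7936) (nat_lit 155) (.e (nat_lit 811045) (nat_lit 14) (.e (nat_lit 48896) (nat_lit 0) .nil))))))) (.g (nat_lit 4) .nil .nil))) 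
(.lf (nat_lit 69200) (.g (nat_lit 1945) (.e (nat_lit 1656) (nat_lit 115) (.e (nat_lit 393300) (nat_lit 27) (.e (nat_lit 491530) (nat_lit 0) (.e (nat_lit 1796) (nat_lit 119) (.e (nat_lit 516131) (nat_lit 3) (.e (nat_lit 221219) (nat_lit 24) (.e (nat_lit 220928) (nat_lit 0) .nil))))))) (.g (nat_lit 4) .nil .nil)))) (.nd (nat_lit 6) 
(.lf (nat_lit 69168) (.g (nat_lit 2159) (.e (nat_lit 1656) (nat_lit 115) (.e (nat_lit 393297) (nat_lit 27) (.e (nat_lit 491571) (nat_lit 13) (.e (nat_lit 393232) (nat_lit 17) (.e (nat_lit 7536) (nat_lit 402) .nil))))) .nil)) 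
(.lf (nat_lit 69232) (.g (nat_lit 3034) (.e (nat_lit 1656) (nat_lit 115) (.e (nat_lit 393300) (nat_lit 27) (.e (nat_lit 491549) (nat_lit 9) (.e (nat_lit 336414) (nat_lit 27) (.e (nat_lit 425987) (nat_lit 0) (.e (nat_lit 7526) (nat_lit 402) .nil)))))) (.g (nat_lit 4) .nil .nil)))))) (.nd (nat_lit 4) (.nd (nat_lit 5) (.nd (nat_lit 6) 
(.lf (nat_lit 69128) (.g (nat_lit 1503) (.e (nat_lit 1656) (nat_lit 115) (.e (nat_lit 393270) (nat_lit 23) (.e (nat_lit 426402) (nat_lit 15) (.e (nat_lit 2162) (nat_lit 143) (.e (nat_lit 712748) (nat_lit 28) (.e (nat_lit 442112) (nat_lit 0) .nil)))))) (.g (nat_lit 4) .nil .nil))) 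
(.lf (nat_lit 69192) (.g (nat_lit 823) (.e (nat_lit 1656) (nat_lit 115) (.e (nat_lit 393299) (nat_lit 27) (.e (nat_lit 491538) (nat_lit 3) .nil))) .nil))) (.nd (nat_lit 6) 
(.lf (nat_lit 69160) (.g (nat_lit 1314) (.e (nat_lit 1656) (nat_lit 115) (.e (nat_lit 393296) (nat_lit 26) (.e (nat_lit 475207) (nat_lit 41) (.e (nat_lit 712749) (nat_lit 28) .nil)))) .nil)) 
(.lf (nat_lit 69224) (.g (nat_lit 1594) (.e (nat_lit 1656) (nat_lit 115) (.e (nat_lit 393300) (nat_lit 27) (.e (nat_lit 491549) (nat_lit 9) (.e (nat_lit 336365) (nat_lit 26) .nil)))) .nil)))) (.nd (nat_lit 5) (.nd (nat_lit 6) 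
(.lf (nat_lit 69144) (.g (nat_lit 3054) (.e (nat_lit 1656) (nat_lit 115) (.e (nat_lit 393289) (nat_lit 25) (.e (nat_lit 458776) (nat_lit 18) (.e (nat_lit 5598) (nat_lit 310) (.e (nat_lit 163896) (nat_lit 10) (.e (nat_lit 409602) (nat_lit 0) (.e (nat_lit 5293) (nat_lit 298) .nil))))))) (.g (nat_lit 0) .nil .nil))) 
(.lf (nat_lit 69208) (.g (nat_lit 2250) (.e (nat_lit 1656) (nat_lit 115) (.e (nat_lit 393300) (nat_lit 27) (.e (nat_lit 491538) (nat_lit 3) (.e (nat_lit 98342) (nat_lit 20) (.e (nat_lit 221224) (nat_lit 29) (.e (nat_lit 262145) (nat_lit 0) .nil)))))) (.g (nat_lit 4) .nil .nil)))) (.nd (nat_lit 6) 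
(.lf (nat_lit 69176) (.g (nat_lit 2346) (.e (nat_lit 1656) (nat_lit 115) (.e (nat_lit 393298) (nat_lit 27) (.e (nat_lit 491566) (nat_lit 12) (.e (nat_lit 385039) (nat_lit 18) .nil)))) .nil)) 
(.lf (nat_lit 69240) (.g (nat_lit 3790) (.e (nat_lit 1656) (nat_lit 115) (.e (nat_lit 393300) (nat_lit 27) (.e (nat_lit 491551) (nat_lit 9) (.e (nat_lit 336358) (nat_lit 25) (.e (nat_lit 409602) (nat_lit 0) (.e (nat_lit 5293) (nat_lit 298) .nil)))))) (.g (nat_lit 0) .nil .nil))))))) (.nd (nat_lit 3) (.nd (nat_lit 4) (.nd (nat_lit 5) (.nd (nat_lit 6) 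
(.lf (nat_lit 69124) (.g (nat_lit 2445) (.e (nat_lit 1656) (nat_lit 115) (.e (nat_lit 393265) (nat_lit 22) (.e (nat_lit 417820) (nat_lit 10) (.e (nat_lit 5740) (nat_lit 313) (.e (nat_lit 8541) (nat_lit 226) (.e (nat_lit 57887) (nat_lit 270) .nil)))))) (.g (nat_lit 6) .nil .nil))) 
(.lf (nat_lit 69188) (.g (nat_lit 3183) (.e (nat_lit 1656) (nat_lit 115) (.e (nat_lit 393298) (nat_lit 27) (.e (nat_lit 491571) (nat_lit 13) (.e (nat_lit 393232) (nat_lit 17) (.e (nat_lit 7536) (nat_lit 402) .nil))))) (.g (nat_lit 4) .nil .nil)))) (.nd (nat_lit 6) 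
(.lf (nat_lit 69156) (.g (nat_lit 1519) (.e (nat_lit 1656) (nat_lit 115) (.e (nat_lit 393293) (nat_lit 26) (.e (nat_lit 475209) (nat_lit 41) (.e (nat_lit 712749) (nat_lit 28) (.e (nat_lit 442112) (nat_lit 0) .nil))))) (.g (nat_lit 4) .nil .nil))) 
(.lf (nat_lit 69220) (.g (nat_lit 1836) (.e (nat_lit 1656) (nat_lit 115) (.e (nat_lit 393300) (nat_lit 27) (.e (nat_lit 491548) (nat_lit 9) (.e (nat_lit 336421) (nat_lit 28) (.e (nat_lit 442112) (nat_lit 0) .nil))))) (.g (nat_lit 4) .nil .nil))))) (.nd (nat_lit 5) (.nd (nat_lit 6) 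
(.lf (nat_lit 69140) (.g (nat_lit 1816) (.e (nat_lit 1656) (nat_lit 115) (.e (nat_lit 393281) (nat_lit 23) (.e (nat_lit 426100) (nat_lit 1) (.e (nat_lit 164399) (nat_lit 256) (.e (nat_lit 57400) (nat_lit 10) (.e (nat_lit 319511) (nat_lit 10) (.e (nat_lit 5293) (nat_lit 298) .nil))))))) (.g (nat_lit 4) .nil .nil))) 
(.lf (nat_lit 69204) (.g (nat_lit 2257) (.e (nat_lit 1656) (nat_lit 115) (.e (nat_lit 393300) (nat_lit 27) (.e (nat_lit 491538) (nat_lit 3) (.e (nat_lit 98341) (nat_lit 20) (.e (nat_lit 221218) (nat_lit 24) (.e (nat_lit 220928) (nat_lit 0) .nil)))))) (.g (nat_lit 4) .nil .nil)))) (.nd (nat_lit 6) 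
(.lf (nat_lit 69172) (.g (nat_lit 542) (.e (nat_lit 1656) (nat_lit 115) (.e (nat_lit 393298) (nat_lit 27) (.e (nat_lit 491566) (nat_lit 12) .nil))) .nil)) 
(.lf (nat_lit 69236) (.g (nat_lit 2121) (.e (nat_lit 1656) (nat_lit 115) (.e (nat_lit 393300) (nat_lit 27) (.e (nat_lit 491549) (nat_lit 9) (.e (nat_lit 336425) (nat_lit 28) (.e (nat_lit 442112) (nat_lit 0) .nil))))) (.g (nat_lit 4) .nil .nil)))))) (.nd (nat_lit 4) (.nd (nat_lit 5) (.nd (nat_lit 6) 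
(.lf (nat_lit 69132) (.g (nat_lit 2754) (.e (nat_lit 1656) (nat_lit 115) (.e (nat_lit 393270) (nat_lit 23) (.e (nat_lit 426448) (nat_lit 20) (.e (nat_lit 114711) (nat_lit 21) (.e (nat_lit 57847) (nat_lit 252) (.e (nat_lit 57346) (nat_lit 0) (.e (nat_lit 6437) (nat_lit 343) .nil))))))) (.g (nat_lit 5) .nil .nil))) 
(.lf (nat_lit 69196) (.g (nat_lit 1679) (.e (nat_lit 1656) (nat_lit 115) (.e (nat_lit 393299) (nat_lit 27) (.e (nat_lit 491563) (nat_lit 12) (.e (nat_lit 392960) (nat_lit 17) .nil)))) .nil))) (.nd (nat_lit 6) 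
(.lf (nat_lit 69164) (.g (nat_lit 2459) (.e (nat_lit 1656) (nat_lit 115) (.e (nat_lit 393297) (nat_lit 27) (.e (nat_lit 491566) (nat_lit 12) (.e (nat_lit 385035) (nat_lit 16) .nil)))) .nil)) 
(.lf (nat_lit 69228) (.g (nat_lit 1960) (.e (nat_lit 1656) (nat_lit 115) (.e (nat_lit 393300) (nat_lit 27) (.e (nat_lit 491549) (nat_lit 9) (.e (nat_lit 336414) (nat_lit 27) (.e (nat_lit 425984) (nat_lit 0) .nil))))) .nil)))) (.nd (nat_lit 5) (.nd (nat_lit 6) 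
(.lf (nat_lit 69148) (.g (nat_lit 615) (.e (nat_lit 1656) (nat_lit 115) (.e (nat_lit 393291) (nat_lit 26) (.e (nat_lit 475210) (nat_lit 41) .nil))) .nil)) 
(.lf (nat_lit 69212) (.g (nat_lit 569) (.e (nat_lit 1656) (nat_lit 115) (.e (nat_lit 393300) (nat_lit 27) (.e (nat_lit 491540) (nat_lit 3) .nil))) .nil))) (.nd (nat_lit 6) 
(.lf (nat_lit 69180) (.g (nat_lit 2684) (.e (nat_lit 1656) (nat_lit 115) (.e (nat_lit 393298) (nat_lit 27) (.e (nat_lit 491570) (nat_lit 13) (.e (nat_lit 393238) (nat_lit 17) (.e (nat_lit 7936) (nat_lit 402) .nil))))) (.g (nat_lit 4) .nil .nil))) 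
(.lf (nat_lit 69244) (.g (nat_lit 416) (.e (nat_lit 1656) (nat_lit 115) (.e (nat_lit 393300) (nat_lit 27) (.e (nat_lit 491553) (nat_lit 9) .nil))) .nil))))))) (.nd (nat_lit 2) (.nd (nat_lit 3) (.nd (nat_lit 4) (.nd (nat_lit 5) (.nd (nat_lit 6) 
(.lf (nat_lit 69122) (.g (nat_lit 1587) (.e (nat_lit 1656) (nat_lit 115) (.e (nat_lit 393265) (nat_lit 22) (.e (nat_lit 417820) (nat_lit 10) (.e (nat_lit 5626) (nat_lit 312) (.e (nat_lit 20) (nat_lit 0) (.e (nat_lit 6217) (nat_lit 333) (.e (nat_lit 57886) (nat_lit 270) .nil))))))) (.g (nat_lit 4) .nil .nil))) 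
(.lf (nat_lit 69186) (.g (nat_lit 3680) (.e (nat_lit 1656) (nat_lit 115) (.e (nat_lit 393298) (nat_lit 27) (.e (nat_lit 491571) (nat_lit 13) (.e (nat_lit 393232) (nat_lit 17) (.e (nat_lit 7491) (nat_lit 402) .nil))))) (.g (nat_lit 0) .nil .nil)))) (.nd (nat_lit 6) 
(.lf (nat_lit 69154) (.g (nat_lit 1977) (.e (nat_lit 1656) (nat_lit 115) (.e (nat_lit 393293) (nat_lit 26) (.e (nat_lit 475198) (nat_lit 40) (.e (nat_lit 704596) (nat_lit 5) (.e (nat_lit 188160) (nat_lit 32) .nil))))) (.g (nat_lit 4) .nil .nil))) 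
(.lf (nat_lit 69218) (.g (nat_lit 1263) (.e (nat_lit 1656) (nat_lit 115) (.e (nat_lit 393300) (nat_lit 27) (.e (nat_lit 491547) (nat_lit 9) (.e (nat_lit 336423) (nat_lit 28) .nil)))) .nil)))) (.nd (nat_lit 5) (.nd (nat_lit 6) 
(.lf (nat_lit 69138) (.g (nat_lit 3516) (.e (nat_lit 1656) (nat_lit 115) (.e (nat_lit 393275) (nat_lit 23) (.e (nat_lit 426144) (nat_lit 4) (.e (nat_lit 229678) (nat_lit 244) (.e (nat_lit 163896) (nat_lit 10) (.e (nat_lit 409602) (nat_lit 0) (.e (nat_lit 5293) (nat_lit 298) .nil))))))) (.g (nat_lit 0) .nil .nil))) 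
(.lf (nat_lit 69202) (.g (nat_lit 536) (.e (nat_lit 1656) (nat_lit 115) (.e (nat_lit 393300) (nat_lit 27) (.e (nat_lit 491538) (nat_lit 3) .nil))) .nil))) (.nd (nat_lit 6) 
(.lf (nat_lit 69170) (.g (nat_lit 1459) (.e (nat_lit 1656) (nat_lit 115) (.e (nat_lit 393298) (nat_lit 27) (.e (nat_lit 491549) (nat_lit 9) (.e (nat_lit 336438) (nat_lit 31) .nil)))) .nil)) 
(.lf (nat_lit 69234) (.g (nat_lit 2149) (.e (nat_lit 1656) (nat_lit 115) (.e (nat_lit 393300) (nat_lit 27) (.e (nat_lit 491549) (nat_lit 9) (.e (nat_lit 336423) (nat_lit 28) (.e (nat_lit 442112) (nat_lit 0) .nil))))) (.g (nat_lit 4) .nil .nil)))))) (.nd (nat_lit 4) (.nd (nat_lit 5) (.nd (nat_lit 6) 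
(.lf (nat_lit 69130) (.g (nat_lit 1583) (.e (nat_lit 1656) (nat_lit 115) (.e (nat_lit 393270) (nat_lit 23) (.e (nat_lit 426446) (nat_lit 20) (.e (nat_lit 114710) (nat_lit 21) (.e (nat_lit 57847) (nat_lit 252) (.e (nat_lit 57346) (nat_lit 0) (.e (nat_lit 6437) (nat_lit 343) .nil))))))) (.g (nat_lit 4) .nil .nil))) 
(.lf (nat_lit 69194) (.g (nat_lit 2153) (.e (nat_lit 1656) (nat_lit 115) (.e (nat_lit 393299) (nat_lit 27) (.e (nat_lit 491556) (nat_lit 9) (.e (nat_lit 343808) (nat_lit 25) .nil)))) .nil))) (.nd (nat_lit 6) 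
(.lf (nat_lit 69162) (.g (nat_lit 1971) (.e (nat_lit 1656) (nat_lit 115) (.e (nat_lit 393297) (nat_lit 27) (.e (nat_lit 491566) (nat_lit 12) (.e (nat_lit 385032) (nat_lit 16) .nil)))) .nil)) 
(.lf (nat_lit 69226) (.g (nat_lit 2959) (.e (nat_lit 1656) (nat_lit 115) (.e (nat_lit 393300) (nat_lit 27) (.e (nat_lit 491549) (nat_lit 9) (.e (nat_lit 336369) (nat_lit 27) (.e (nat_lit 426032) (nat_lit 0) (.e (nat_lit 7936) (nat_lit 402) .nil)))))) (.g (nat_lit 5) .nil .nil))))) (.nd (nat_lit 5) (.nd (nat_lit 6) 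
(.lf (nat_lit 69146) (.g (nat_lit 1503) (.e (nat_lit 1656) (nat_lit 115) (.e (nat_lit 393289) (nat_lit 25) (.e (nat_lit 458804) (nat_lit 38) (.e (nat_lit 655379) (nat_lit 5) (.e (nat_lit 188160) (nat_lit 32) .nil))))) (.g (nat_lit 4) .nil .nil))) 
(.lf (nat_lit 69210) (.g (nat_lit 567) (.e (nat_lit 1656) (nat_lit 115) (.e (nat_lit 393300) (nat_lit 27) (.e (nat_lit 491539) (nat_lit 3) .nil))) .nil))) (.nd (nat_lit 6) 
(.lf (nat_lit 69178) (.g (nat_lit 1504) (.e (nat_lit 1656) (nat_lit 115) (.e (nat_lit 393298) (nat_lit 27) (.e (nat_lit 491570) (nat_lit 13) (.e (nat_lit 393231) (nat_lit 17) .nil)))) .nil)) 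
(.lf (nat_lit 69242) (.g (nat_lit 1851) (.e (nat_lit 1656) (nat_lit 115) (.e (nat_lit 393300) (nat_lit 27) (.e (nat_lit 491552) (nat_lit 9) (.e (nat_lit 336253) (nat_lit 15) (.e (nat_lit 7086) (nat_lit 379) (.e (nat_lit 123205) (nat_lit 270) .nil)))))) (.g (nat_lit 4) .nil .nil))))))) (.nd (nat_lit 3) (.nd (nat_lit 4) (.nd (nat_lit 5) (.nd (nat_lit 6) 
(.lf (nat_lit 69126) (.g (nat_lit 1685) (.e (nat_lit 1656) (nat_lit 115) (.e (nat_lit 393265) (nat_lit 22) (.e (nat_lit 417828) (nat_lit 18) (.e (nat_lit 303149) (nat_lit 15) (.e (nat_lit 6216) (nat_lit 333) (.e (nat_lit 57887) (nat_lit 270) .nil)))))) (.g (nat_lit 4) .nil .nil))) 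
(.lf (nat_lit 69190) (.g (nat_lit 2621) (.e (nat_lit 1656) (nat_lit 115) (.e (nat_lit 393298) (nat_lit 27) (.e (nat_lit 491571) (nat_lit 13) (.e (nat_lit 393238) (nat_lit 17) (.e (nat_lit 7936) (nat_lit 402) .nil))))) (.g (nat_lit 4) .nil .nil)))) (.nd (nat_lit 6) 
(.lf (nat_lit 69158) (.g (nat_lit 1801) (.e (nat_lit 1656) (nat_lit 115) (.e (nat_lit 393293) (nat_lit 26) (.e (nat_lit 475210) (nat_lit 41) (.e (nat_lit 712747) (nat_lit 28) (.e (nat_lit 442112) (nat_lit 0) .nil))))) (.g (nat_lit 4) .nil .nil))) 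
(.lf (nat_lit 69222) (.g (nat_lit 1767) (.e (nat_lit 1656) (nat_lit 115) (.e (nat_lit 393300) (nat_lit 27) (.e (nat_lit 491549) (nat_lit 9) (.e (nat_lit 336299) (nat_lit 15) .nil)))) .nil)))) (.nd (nat_lit 5) (.nd (nat_lit 6) 
(.lf (nat_lit 69142) (.g (nat_lit 2143) (.e (nat_lit 1656) (nat_lit 115) (.e (nat_lit 393289) (nat_lit 25) (.e (nat_lit 458774) (nat_lit 18) (.e (nat_lit 5548) (nat_lit 306) (.e (nat_lit 2640) (nat_lit 165) (.e (nat_lit 188160) (nat_lit 32) .nil)))))) (.g (nat_lit 5) .nil .nil))) 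
(.lf (nat_lit 69206) (.g (nat_lit 1972) (.e (nat_lit 1656) (nat_lit 115) (.e (nat_lit 393300) (nat_lit 27) (.e (nat_lit 491538) (nat_lit 3) (.e (nat_lit 98342) (nat_lit 20) (.e (nat_lit 221218) (nat_lit 24) (.e (nat_lit 220928) (nat_lit 0) .nil)))))) (.g (nat_lit 4) .nil .nil)))) (.nd (nat_lit 6) 
(.lf (nat_lit 69174) (.g (nat_lit 3051) (.e (nat_lit 1656) (nat_lit 115) (.e (nat_lit 393298) (nat_lit 27) (.e (nat_lit 491566) (nat_lit 12) (.e (nat_lit 385035) (nat_lit 16) .nil)))) .nil)) 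
(.lf (nat_lit 69238) (.g (nat_lit 2895) (.e (nat_lit 1656) (nat_lit 115) (.e (nat_lit 393300) (nat_lit 27) (.e (nat_lit 491549) (nat_lit 9) (.e (nat_lit 336438) (nat_lit 31) (.e (nat_lit 466688) (nat_lit 0) .nil))))) (.g (nat_lit 4) .nil .nil)))))) (.nd (nat_lit 4) (.nd (nat_lit 5) (.nd (nat_lit 6) 
(.lf (nat_lit 69134) (.g (nat_lit 695) (.e (nat_lit 1656) (nat_lit 115) (.e (nat_lit 393273) (nat_lit 23) (.e (nat_lit 426444) (nat_lit 19) .nil))) .nil)) 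
(.lf (nat_lit 69198) (.g (nat_lit 2316) (.e (nat_lit 1656) (nat_lit 115) (.e (nat_lit 393299) (nat_lit 27) (.e (nat_lit 491568) (nat_lit 13) (.e (nat_lit 393234) (nat_lit 17) .nil)))) .nil))) (.nd (nat_lit 6) 
(.lf (nat_lit 69166) (.g (nat_lit 2083) (.e (nat_lit 1656) (nat_lit 115) (.e (nat_lit 393297) (nat_lit 27) (.e (nat_lit 491566) (nat_lit 12) (.e (nat_lit 385039) (nat_lit 18) .nil)))) .nil)) 
(.lf (nat_lit 69230) (.g (nat_lit 1968) (.e (nat_lit 1656) (nat_lit 115) (.e (nat_lit 393300) (nat_lit 27) (.e (nat_lit 491549) (nat_lit 9) (.e (nat_lit 336414) (nat_lit 27) (.e (nat_lit 425987) (nat_lit 0) .nil))))) .nil)))) (.nd (nat_lit 5) (.nd (nat_lit 6) 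
(.lf (nat_lit 69150) (.g (nat_lit 1504) (.e (nat_lit 1656) (nat_lit 115) (.e (nat_lit 393293) (nat_lit 26) (.e (nat_lit 475196) (nat_lit 40) (.e (nat_lit 704595) (nat_lit 5) (.e (nat_lit 188160) (nat_lit 32) .nil))))) (.g (nat_lit 4) .nil .nil))) 
(.lf (nat_lit 69214) (.g (nat_lit 1985) (.e (nat_lit 1656) (nat_lit 115) (.e (nat_lit 393300) (nat_lit 27) (.e (nat_lit 491540) (nat_lit 3) (.e (nat_lit 98342) (nat_lit 20) (.e (nat_lit 221219) (nat_lit 24) .nil))))) .nil))) (.nd (nat_lit 6) 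
(.lf (nat_lit 69182) (.g (nat_lit 1466) (.e (nat_lit 1656) (nat_lit 115) (.e (nat_lit 393298) (nat_lit 27) (.e (nat_lit 491570) (nat_lit 13) (.e (nat_lit 393249) (nat_lit 17) .nil)))) .nil)) 
(.lf (nat_lit 69246) (.g (nat_lit 430) (.e (nat_lit 1656) (nat_lit 115) (.e (nat_lit 393300) (nat_lit 27) (.e (nat_lit 491556) (nat_lit 9) .nil))) .nil)))))))) (.nd (nat_lit 1) (.nd (nat_lit 2) (.nd (nat_lit 3) (.nd (nat_lit 4) (.nd (nat_lit 5) (.nd (nat_lit 6) 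
(.lf (nat_lit 69121) (.g (nat_lit 1581) (.e (nat_lit 1656) (nat_lit 115) (.e (nat_lit 393265) (nat_lit 22) (.e (nat_lit 417820) (nat_lit 10) (.e (nat_lit 5270) (nat_lit 298) (.e (nat_lit 359) (nat_lit 30) (.e (nat_lit 409604) (nat_lit 0) (.e (nat_lit 5277) (nat_lit 298) .nil))))))) (.g (nat_lit 4) .nil .nil))) 
(.lf (nat_lit 69185) (.g (nat_lit 1727) (.e (nat_lit 1656) (nat_lit 115) (.e (nat_lit 393298) (nat_lit 27) (.e (nat_lit 491571) (nat_lit 13) (.e (nat_lit 393232) (nat_lit 17) .nil)))) .nil))) (.nd (nat_lit 6) 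
(.lf (nat_lit 69153) (.g (nat_lit 2100) (.e (nat_lit 1656) (nat_lit 115) (.e (nat_lit 393293) (nat_lit 26) (.e (nat_lit 475198) (nat_lit 40) (.e (nat_lit 704595) (nat_lit 5) (.e (nat_lit 188160) (nat_lit 32) .nil))))) (.g (nat_lit 4) .nil .nil))) 
(.lf (nat_lit 69217) (.g (nat_lit 2009) (.e (nat_lit 1656) (nat_lit 115) (.e (nat_lit 393300) (nat_lit 27) (.e (nat_lit 491547) (nat_lit 9) (.e (nat_lit 336421) (nat_lit 28) (.e (nat_lit 442112) (nat_lit 0) .nil))))) (.g (nat_lit 4) .nil .nil))))) (.nd (nat_lit 5) (.nd (nat_lit 6) 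
(.lf (nat_lit 69137) (.g (nat_lit 2238) (.e (nat_lit 1656) (nat_lit 115) (.e (nat_lit 393275) (nat_lit 23) (.e (nat_lit 426143) (nat_lit 4) (.e (nat_lit 229678) (nat_lit 244) (.e (nat_lit 163896) (nat_lit 10) (.e (nat_lit 409602) (nat_lit 0) (.e (nat_lit 5293) (nat_lit 298) .nil))))))) (.g (nat_lit 5) .nil .nil))) 
(.lf (nat_lit 69201) (.g (nat_lit 1831) (.e (nat_lit 1656) (nat_lit 115) (.e (nat_lit 393300) (nat_lit 27) (.e (nat_lit 491537) (nat_lit 2) (.e (nat_lit 90165) (nat_lit 12) .nil)))) .nil))) (.nd (nat_lit 6) 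
(.lf (nat_lit 69169) (.g (nat_lit 772) (.e (nat_lit 1656) (nat_lit 115) (.e (nat_lit 393298) (nat_lit 27) (.e (nat_lit 491537) (nat_lit 2) .nil))) .nil)) 
(.lf (nat_lit 69233) (.g (nat_lit 2866) (.e (nat_lit 1656) (nat_lit 115) (.e (nat_lit 393300) (nat_lit 27) (.e (nat_lit 491549) (nat_lit 9) (.e (nat_lit 336421) (nat_lit 28) (.e (nat_lit 442112) (nat_lit 0) .nil))))) (.g (nat_lit 4) .nil .nil)))))) (.nd (nat_lit 4) (.nd (nat_lit 5) (.nd (nat_lit 6) 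
(.lf (nat_lit 69129) (.g (nat_lit 1852) (.e (nat_lit 1656) (nat_lit 115) (.e (nat_lit 393270) (nat_lit 23) (.e (nat_lit 426402) (nat_lit 15) (.e (nat_lit 2162) (nat_lit 143) (.e (nat_lit 712749) (nat_lit 28) (.e (nat_lit 442112) (nat_lit 0) .nil)))))) (.g (nat_lit 5) .nil .nil))) 
(.lf (nat_lit 69193) (.g (nat_lit 760) (.e (nat_lit 1656) (nat_lit 115) (.e (nat_lit 393299) (nat_lit 27) (.e (nat_lit 491552) (nat_lit 9) .nil))) .nil))) (.nd (nat_lit 6) 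
(.lf (nat_lit 69161) (.g (nat_lit 822) (.e (nat_lit 1656) (nat_lit 115) (.e (nat_lit 393296) (nat_lit 26) (.e (nat_lit 475216) (nat_lit 44) .nil))) .nil)) 
(.lf (nat_lit 69225) (.g (nat_lit 3418) (.e (nat_lit 1656) (nat_lit 115) (.e (nat_lit 393300) (nat_lit 27) (.e (nat_lit 491549) (nat_lit 9) (.e (nat_lit 336369) (nat_lit 27) (.e (nat_lit 426025) (nat_lit 0) (.e (nat_lit 7936) (nat_lit 402) .nil)))))) (.g (nat_lit 5) .nil .nil))))) (.nd (nat_lit 5) (.nd (nat_lit 6) 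
(.lf (nat_lit 69145) (.g (nat_lit 1381) (.e (nat_lit 1656) (nat_lit 115) (.e (nat_lit 393289) (nat_lit 25) (.e (nat_lit 466688) (nat_lit 18) (.e (nat_lit 5547) (nat_lit 306) (.e (nat_lit 2640) (nat_lit 165) (.e (nat_lit 188160) (nat_lit 32) .nil)))))) (.g (nat_lit 5) .nil .nil))) 
(.lf (nat_lit 69209) (.g (nat_lit 2520) (.e (nat_lit 1656) (nat_lit 115) (.e (nat_lit 393300) (nat_lit 27) (.e (nat_lit 491538) (nat_lit 3) (.e (nat_lit 98342) (nat_lit 20) (.e (nat_lit 221224) (nat_lit 29) (.e (nat_lit 262147) (nat_lit 0) .nil)))))) (.g (nat_lit 4) .nil .nil)))) (.nd (nat_lit 6) 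
(.lf (nat_lit 69177) (.g (nat_lit 610) (.e (nat_lit 1656) (nat_lit 115) (.e (nat_lit 393298) (nat_lit 27) (.e (nat_lit 491569) (nat_lit 13) .nil))) .nil)) 
(.lf (nat_lit 69241) (.g (nat_lit 448) (.e (nat_lit 1656) (nat_lit 115) (.e (nat_lit 393300) (nat_lit 27) (.e (nat_lit 491552) (nat_lit 9) .nil))) .nil)))))) (.nd (nat_lit 3) (.nd (nat_lit 4) (.nd (nat_lit 5) (.nd (nat_lit 6) 
(.lf (nat_lit 69125) (.g (nat_lit 1130) (.e (nat_lit 1656) (nat_lit 115) (.e (nat_lit 393265) (nat_lit 22) (.e (nat_lit 417821) (nat_lit 10) (.e (nat_lit 5264) (nat_lit 298) (.e (nat_lit 447) (nat_lit 33) (.e (nat_lit 442112) (nat_lit 0) .nil)))))) (.g (nat_lit 5) .nil .nil))) 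
(.lf (nat_lit 69189) (.g (nat_lit 2643) (.e (nat_lit 1656) (nat_lit 115) (.e (nat_lit 393298) (nat_lit 27) (.e (nat_lit 491571) (nat_lit 13) (.e (nat_lit 393235) (nat_lit 17) (.e (nat_lit 7936) (nat_lit 402) .nil))))) (.g (nat_lit 4) .nil .nil)))) (.nd (nat_lit 6) 
(.lf (nat_lit 69157) (.g (nat_lit 1928) (.e (nat_lit 1656) (nat_lit 115) (.e (nat_lit 393293) (nat_lit 26) (.e (nat_lit 475210) (nat_lit 41) (.e (nat_lit 712745) (nat_lit 27) (.e (nat_lit 425984) (nat_lit 0) (.e (nat_lit 7491) (nat_lit 402) .nil)))))) (.g (nat_lit 4) .nil .nil))) 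
(.lf (nat_lit 69221) (.g (nat_lit 1486) (.e (nat_lit 1656) (nat_lit 115) (.e (nat_lit 393300) (nat_lit 27) (.e (nat_lit 491549) (nat_lit 9) (.e (nat_lit 336257) (nat_lit 15) .nil)))) .nil)))) (.nd (nat_lit 5) (.nd (nat_lit 6) 
(.lf (nat_lit 69141) (.g (nat_lit 2052) (.e (nat_lit 1656) (nat_lit 115) (.e (nat_lit 393289) (nat_lit 25) (.e (nat_lit 458774) (nat_lit 18) (.e (nat_lit 5547) (nat_lit 306) (.e (nat_lit 2640) (nat_lit 165) (.e (nat_lit 188160) (nat_lit 32) .nil)))))) (.g (nat_lit 5) .nil .nil))) 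
(.lf (nat_lit 69205) (.g (nat_lit 2232) (.e (nat_lit 1656) (nat_lit 115) (.e (nat_lit 393300) (nat_lit 27) (.e (nat_lit 491538) (nat_lit 3) (.e (nat_lit 98341) (nat_lit 20) (.e (nat_lit 221224) (nat_lit 29) (.e (nat_lit 262147) (nat_lit 0) .nil)))))) (.g (nat_lit 4) .nil .nil)))) (.nd (nat_lit 6) 
(.lf (nat_lit 69173) (.g (nat_lit 2145) (.e (nat_lit 1656) (nat_lit 115) (.e (nat_lit 393298) (nat_lit 27) (.e (nat_lit 491566) (nat_lit 12) (.e (nat_lit 385032) (nat_lit 16) .nil)))) .nil)) 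
(.lf (nat_lit 69237) (.g (nat_lit 1767) (.e (nat_lit 1656) (nat_lit 115) (.e (nat_lit 393300) (nat_lit 27) (.e (nat_lit 491549) (nat_lit 9) (.e (nat_lit 336436) (nat_lit 31) .nil)))) .nil))))) (.nd (nat_lit 4) (.nd (nat_lit 5) (.nd (nat_lit 6) 
(.lf (nat_lit 69133) (.g (nat_lit 864) (.e (nat_lit 1656) (nat_lit 115) (.e (nat_lit 393271) (nat_lit 23) (.e (nat_lit 426444) (nat_lit 19) .nil))) .nil)) 
(.lf (nat_lit 69197) (.g (nat_lit 752) (.e (nat_lit 1656) (nat_lit 115) (.e (nat_lit 393299) (nat_lit 27) (.e (nat_lit 491568) (nat_lit 13) .nil))) .nil))) (.nd (nat_lit 6) 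
(.lf (nat_lit 69165) (.g (nat_lit 2485) (.e (nat_lit 1656) (nat_lit 115) (.e (nat_lit 393297) (nat_lit 27) (.e (nat_lit 491566) (nat_lit 12) (.e (nat_lit 385037) (nat_lit 16) .nil)))) .nil)) 
(.lf (nat_lit 69229) (.g (nat_lit 2502) (.e (nat_lit 1656) (nat_lit 115) (.e (nat_lit 393300) (nat_lit 27) (.e (nat_lit 491549) (nat_lit 9) (.e (nat_lit 336414) (nat_lit 27) (.e (nat_lit 425984) (nat_lit 0) (.e (nat_lit 7491) (nat_lit 402) .nil)))))) (.g (nat_lit 4) .nil .nil))))) (.nd (nat_lit 5) (.nd (nat_lit 6) 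
(.lf (nat_lit 69149) (.g (nat_lit 757) (.e (nat_lit 1656) (nat_lit 115) (.e (nat_lit 393291) (nat_lit 26) (.e (nat_lit 475219) (nat_lit 44) .nil))) .nil)) 
(.lf (nat_lit 69213) (.g (nat_lit 1226) (.e (nat_lit 1656) (nat_lit 115) (.e (nat_lit 393300) (nat_lit 27) (.e (nat_lit 491540) (nat_lit 3) (.e (nat_lit 98342) (nat_lit 20) .nil)))) .nil))) (.nd (nat_lit 6) 
(.lf (nat_lit 69181) (.g (nat_lit 1529) (.e (nat_lit 1656) (nat_lit 115) (.e (nat_lit 393298) (nat_lit 27) (.e (nat_lit 491570) (nat_lit 13) (.e (nat_lit 393247) (nat_lit 17) .nil)))) .nil)) 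
(.lf (nat_lit 69245) (.g (nat_lit 2092) (.e (nat_lit 1656) (nat_lit 115) (.e (nat_lit 393300) (nat_lit 27) (.e (nat_lit 491555) (nat_lit 9) (.e (nat_lit 336288) (nat_lit 15) (.e (nat_lit 6988) (nat_lit 377) (.e (nat_lit 1075) (nat_lit 81) (.e (nat_lit 5293) (nat_lit 298) .nil))))))) (.g (nat_lit 4) .nil .nil)))))))) 
(.nd (nat_lit 2) (.nd (nat_lit 3) (.nd (nat_lit 4) (.nd (nat_lit 5) (.nd (nat_lit 6) 
(.lf (nat_lit 69123) (.g (nat_lit 1447) (.e (nat_lit 1656) (nat_lit 115) (.e (nat_lit 393265) (nat_lit 22) (.e (nat_lit 417820) (nat_lit 10) (.e (nat_lit 5626) (nat_lit 312) (.e (nat_lit 7936) (nat_lit 19) .nil))))) .nil)) 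
(.lf (nat_lit 69187) (.g (nat_lit 3001) (.e (nat_lit 1656) (nat_lit 115) (.e (nat_lit 393298) (nat_lit 27) (.e (nat_lit 491571) (nat_lit 13) (.e (nat_lit 393232) (nat_lit 17) (.e (nat_lit 7533) (nat_lit 402) .nil))))) (.g (nat_lit 4) .nil .nil)))) (.nd (nat_lit 6) 
(.lf (nat_lit 69155) (.g (nat_lit 1385) (.e (nat_lit 1656) (nat_lit 115) (.e (nat_lit 393293) (nat_lit 26) (.e (nat_lit 475208) (nat_lit 41) (.e (nat_lit 712749) (nat_lit 28) (.e (nat_lit 442112) (nat_lit 0) .nil))))) (.g (nat_lit 4) .nil .nil))) 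
(.lf (nat_lit 69219) (.g (nat_lit 2350) (.e (nat_lit 1656) (nat_lit 115) (.e (nat_lit 393300) (nat_lit 27) (.e (nat_lit 491547) (nat_lit 9) (.e (nat_lit 336438) (nat_lit 31) (.e (nat_lit 466688) (nat_lit 0) .nil))))) (.g (nat_lit 4) .nil .nil))))) (.nd (nat_lit 5) (.nd (nat_lit 6) 
(.lf (nat_lit 69139) (.g (nat_lit 1872) (.e (nat_lit 1656) (nat_lit 115) (.e (nat_lit 393281) (nat_lit 23) (.e (nat_lit 426099) (nat_lit 1) (.e (nat_lit 164398) (nat_lit 256) (.e (nat_lit 57400) (nat_lit 10) (.e (nat_lit 319511) (nat_lit 10) (.e (nat_lit 5293) (nat_lit 298) .nil))))))) (.g (nat_lit 4) .nil .nil))) 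
(.lf (nat_lit 69203) (.g (nat_lit 856) (.e (nat_lit 1656) (nat_lit 115) (.e (nat_lit 393300) (nat_lit 27) (.e (nat_lit 491538) (nat_lit 3) (.e (nat_lit 98338) (nat_lit 19) .nil)))) .nil))) (.nd (nat_lit 6) 
(.lf (nat_lit 69171) (.g (nat_lit 673) (.e (nat_lit 1656) (nat_lit 115) (.e (nat_lit 393298) (nat_lit 27) (.e (nat_lit 491552) (nat_lit 9) .nil))) .nil)) 
(.lf (nat_lit 69235) (.g (nat_lit 1141) (.e (nat_lit 1656) (nat_lit 115) (.e (nat_lit 393300) (nat_lit 27) (.e (nat_lit 491549) (nat_lit 9) (.e (nat_lit 336425) (nat_lit 28) .nil)))) .nil))))) (.nd (nat_lit 4) (.nd (nat_lit 5) (.nd (nat_lit 6) 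
(.lf (nat_lit 69131) (.g (nat_lit 2440) (.e (nat_lit 1656) (nat_lit 115) (.e (nat_lit 393270) (nat_lit 23) (.e (nat_lit 426448) (nat_lit 20) (.e (nat_lit 114710) (nat_lit 21) (.e (nat_lit 57847) (nat_lit 252) (.e (nat_lit 57346) (nat_lit 0) (.e (nat_lit 6437) (nat_lit 343) .nil))))))) (.g (nat_lit 5) .nil .nil))) 
(.lf (nat_lit 69195) (.g (nat_lit 682) (.e (nat_lit 1656) (nat_lit 115) (.e (nat_lit 393299) (nat_lit 27) (.e (nat_lit 491563) (nat_lit 12) .nil))) .nil))) (.nd (nat_lit 6) 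
(.lf (nat_lit 69163) (.g (nat_lit 2503) (.e (nat_lit 1656) (nat_lit 115) (.e (nat_lit 393297) (nat_lit 27) (.e (nat_lit 491566) (nat_lit 12) (.e (nat_lit 385033) (nat_lit 16) .nil)))) .nil)) 
(.lf (nat_lit 69227) (.g (nat_lit 1109) (.e (nat_lit 1656) (nat_lit 115) (.e (nat_lit 393300) (nat_lit 27) (.e (nat_lit 491549) (nat_lit 9) (.e (nat_lit 336414) (nat_lit 27) .nil)))) .nil)))) (.nd (nat_lit 5) (.nd (nat_lit 6) 
(.lf (nat_lit 69147) (.g (nat_lit 1041) (.e (nat_lit 1656) (nat_lit 115) (.e (nat_lit 393290) (nat_lit 26) (.e (nat_lit 475210) (nat_lit 41) (.e (nat_lit 712747) (nat_lit 28) .nil)))) .nil)) 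
(.lf (nat_lit 69211) (.g (nat_lit 1532) (.e (nat_lit 1656) (nat_lit 115) (.e (nat_lit 393300) (nat_lit 27) (.e (nat_lit 491539) (nat_lit 3) (.e (nat_lit 98339) (nat_lit 19) (.e (nat_lit 213035) (nat_lit 12) .nil))))) .nil))) (.nd (nat_lit 6) 
(.lf (nat_lit 69179) (.g (nat_lit 1335) (.e (nat_lit 1656) (nat_lit 115) (.e (nat_lit 393298) (nat_lit 27) (.e (nat_lit 491570) (nat_lit 13) (.e (nat_lit 393232) (nat_lit 17) .nil)))) .nil)) 
(.lf (nat_lit 69243) (.g (nat_lit 1879) (.e (nat_lit 1656) (nat_lit 115) (.e (nat_lit 393300) (nat_lit 27) (.e (nat_lit 491552) (nat_lit 9) (.e (nat_lit 336253) (nat_lit 15) (.e (nat_lit 7088) (nat_lit 379) (.e (nat_lit 123205) (nat_lit 270) .nil)))))) (.g (nat_lit 4) .nil .nil))))))) (.nd (nat_lit 3) (.nd (nat_lit 4) (.nd (nat_lit 5) (.nd (nat_lit 6) 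
(.lf (nat_lit 69127) (.g (nat_lit 1072) (.e (nat_lit 1656) (nat_lit 115) (.e (nat_lit 393268) (nat_lit 23) (.e (nat_lit 426444) (nat_lit 19) .nil))) .nil)) 
(.lf (nat_lit 69191) (.g (nat_lit 2138) (.e (nat_lit 1656) (nat_lit 115) (.e (nat_lit 393298) (nat_lit 27) (.e (nat_lit 491571) (nat_lit 13) (.e (nat_lit 393252) (nat_lit 18) .nil)))) .nil))) (.nd (nat_lit 6) 
(.lf (nat_lit 69159) (.g (nat_lit 1703) (.e (nat_lit 1656) (nat_lit 115) (.e (nat_lit 393293) (nat_lit 26) (.e (nat_lit 475210) (nat_lit 41) (.e (nat_lit 712749) (nat_lit 28) (.e (nat_lit 442112) (nat_lit 0) .nil))))) (.g (nat_lit 4) .nil .nil))) 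
(.lf (nat_lit 69223) (.g (nat_lit 1498) (.e (nat_lit 1656) (nat_lit 115) (.e (nat_lit 393300) (nat_lit 27) (.e (nat_lit 491549) (nat_lit 9) (.e (nat_lit 343808) (nat_lit 25) .nil)))) .nil)))) (.nd (nat_lit 5) (.nd (nat_lit 6) 
(.lf (nat_lit 69143) (.g (nat_lit 2255) (.e (nat_lit 1656) (nat_lit 115) (.e (nat_lit 393289) (nat_lit 25) (.e (nat_lit 458774) (nat_lit 18) (.e (nat_lit 5939) (nat_lit 322) (.e (nat_lit 57400) (nat_lit 10) (.e (nat_lit 319511) (nat_lit 10) (.e (nat_lit 5293) (nat_lit 298) .nil))))))) (.g (nat_lit 0) .nil .nil))) 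
(.lf (nat_lit 69207) (.g (nat_lit 2562) (.e (nat_lit 1656) (nat_lit 115) (.e (nat_lit 393300) (nat_lit 27) (.e (nat_lit 491538) (nat_lit 3) (.e (nat_lit 98342) (nat_lit 20) (.e (nat_lit 221219) (nat_lit 24) (.e (nat_lit 220928) (nat_lit 0) .nil)))))) (.g (nat_lit 5) .nil .nil)))) (.nd (nat_lit 6) 
(.lf (nat_lit 69175) (.g (nat_lit 2207) (.e (nat_lit 1656) (nat_lit 115) (.e (nat_lit 393298) (nat_lit 27) (.e (nat_lit 491566) (nat_lit 12) (.e (nat_lit 385036) (nat_lit 16) .nil)))) .nil)) 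
(.lf (nat_lit 69239) (.g (nat_lit 452) (.e (nat_lit 1656) (nat_lit 115) (.e (nat_lit 393300) (nat_lit 27) (.e (nat_lit 491551) (nat_lit 9) .nil))) .nil))))) (.nd (nat_lit 4) (.nd (nat_lit 5) (.nd (nat_lit 6) 
(.lf (nat_lit 69135) (.g (nat_lit 1082) (.e (nat_lit 1656) (nat_lit 115) (.e (nat_lit 393275) (nat_lit 23) (.e (nat_lit 426140) (nat_lit 3) (.e (nat_lit 204821) (nat_lit 17) (.e (nat_lit 7936) (nat_lit 155) .nil))))) .nil)) 
(.lf (nat_lit 69199) (.g (nat_lit 638) (.e (nat_lit 1656) (nat_lit 115) (.e (nat_lit 393300) (nat_lit 27) (.e (nat_lit 491526) (nat_lit 0) .nil))) .nil))) (.nd (nat_lit 6) 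
(.lf (nat_lit 69167) (.g (nat_lit 2314) (.e (nat_lit 1656) (nat_lit 115) (.e (nat_lit 393297) (nat_lit 27) (.e (nat_lit 491571) (nat_lit 13) (.e (nat_lit 393232) (nat_lit 17) (.e (nat_lit 7491) (nat_lit 402) .nil))))) (.g (nat_lit 4) .nil .nil))) 
(.lf (nat_lit 69231) (.g (nat_lit 2340) (.e (nat_lit 1656) (nat_lit 115) (.e (nat_lit 393300) (nat_lit 27) (.e (nat_lit 491549) (nat_lit 9) (.e (nat_lit 336414) (nat_lit 27) (.e (nat_lit 425987) (nat_lit 0) (.e (nat_lit 7485) (nat_lit 402) .nil)))))) (.g (nat_lit 4) .nil .nil))))) (.nd (nat_lit 5) (.nd (nat_lit 6) 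
(.lf (nat_lit 69151) (.g (nat_lit 1165) (.e (nat_lit 1656) (nat_lit 115) (.e (nat_lit 393293) (nat_lit 26) (.e (nat_lit 475196) (nat_lit 40) (.e (nat_lit 704596) (nat_lit 5) (.e (nat_lit 188160) (nat_lit 32) .nil))))) (.g (nat_lit 4) .nil .nil))) 
(.lf (nat_lit 69215) (.g (nat_lit 450) (.e (nat_lit 1656) (nat_lit 115) (.e (nat_lit 393300) (nat_lit 27) (.e (nat_lit 491546) (nat_lit 9) .nil))) .nil))) (.nd (nat_lit 6) 
(.lf (nat_lit 69183) (.g (nat_lit 429) (.e (nat_lit 1656) (nat_lit 115) (.e (nat_lit 393298) (nat_lit 27) (.e (nat_lit 491571) (nat_lit 13) .nil))) .nil)) 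
(.lf (nat_lit 69247) (.g (nat_lit 1555) (.e (nat_lit 1656) (nat_lit 115) (.e (nat_lit 393300) (nat_lit 27) (.e (nat_lit 491556) (nat_lit 9) (.e (nat_lit 336298) (nat_lit 15) .nil)))) .nil)))))))))

noncomputable def tv950 : DT := (.nd (nat_lit 0) (.nd (nat_lit 1) (.nd (nat_lit 2) (.nd (nat_lit 3) (.nd (nat_lit 4) (.nd (nat_lit 5) (.nd (nat_lit 6) 
(.lf (nat_lit 69248) (.g (nat_lit 1510) (.e (nat_lit 1656) (nat_lit 115) (.e (nat_lit 393300) (nat_lit 27) (.e (nat_lit 491556) (nat_lit 9) (.e (nat_lit 336390) (nat_lit 27) .nil)))) .nil)) 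
(.lf (nat_lit 69312) (.g (nat_lit 1807) (.e (nat_lit 1656) (nat_lit 115) (.e (nat_lit 393301) (nat_lit 27) (.e (nat_lit 491535) (nat_lit 2) (.e (nat_lit 90133) (nat_lit 9) .nil)))) .nil))) (.nd (nat_lit 6) 
(.lf (nat_lit 69280) (.g (nat_lit 2049) (.e (nat_lit 1656) (nat_lit 115) (.e (nat_lit 393300) (nat_lit 27) (.e (nat_lit 491568) (nat_lit 13) (.e (nat_lit 393242) (nat_lit 17) (.e (nat_lit 7936) (nat_lit 402) .nil))))) (.g (nat_lit 4) .nil .nil))) 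
(.lf (nat_lit 69344) (.g (nat_lit 1594) (.e (nat_lit 1656) (nat_lit 115) (.e (nat_lit 393301) (nat_lit 27) (.e (nat_lit 491552) (nat_lit 9) (.e (nat_lit 336410) (nat_lit 27) .nil)))) .nil)))) (.nd (nat_lit 5) (.nd (nat_lit 6) 
(.lf (nat_lit 69264) (.g (nat_lit 1948) (.e (nat_lit 1656) (nat_lit 115) (.e (nat_lit 393300) (nat_lit 27) (.e (nat_lit 491568) (nat_lit 13) (.e (nat_lit 393230) (nat_lit 17) (.e (nat_lit 7936) (nat_lit 402) .nil))))) (.g (nat_lit 4) .nil .nil))) 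
(.lf (nat_lit 69328) (.g (nat_lit 1481) (.e (nat_lit 1656) (nat_lit 115) (.e (nat_lit 393301) (nat_lit 27) (.e (nat_lit 491547) (nat_lit 9) (.e (nat_lit 336414) (nat_lit 27) .nil)))) .nil))) (.nd (nat_lit 6) 
(.lf (nat_lit 69296) (.g (nat_lit 1142) (.e (nat_lit 1656) (nat_lit 115) (.e (nat_lit 393300) (nat_lit 27) (.e (nat_lit 491569) (nat_lit 13) (.e (nat_lit 401152) (nat_lit 17) .nil)))) .nil)) 
(.lf (nat_lit 69360) (.g (nat_lit 3310) (.e (nat_lit 1656) (nat_lit 115) (.e (nat_lit 393301) (nat_lit 27) (.e (nat_lit 491558) (nat_lit 10) (.e (nat_lit 344090) (nat_lit 18) (.e (nat_lit 7265) (nat_lit 384) (.e (nat_lit 57347) (nat_lit 0) (.e (nat_lit 7936) (nat_lit 343) .nil))))))) (.g (nat_lit 4) .nil .nil)))))) (.nd (nat_lit 4) (.nd (nat_lit 5) (.nd (nat_lit 6) 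
(.lf (nat_lit 69256) (.g (nat_lit 3304) (.e (nat_lit 1656) (nat_lit 115) (.e (nat_lit 393300) (nat_lit 27) (.e (nat_lit 491563) (nat_lit 12) (.e (nat_lit 385032) (nat_lit 16) .nil)))) .nil)) 
(.lf (nat_lit 69320) (.g (nat_lit 953) (.e (nat_lit 1656) (nat_lit 115) (.e (nat_lit 393301) (nat_lit 27) (.e (nat_lit 491539) (nat_lit 3) .nil))) .nil))) (.nd (nat_lit 6) 
(.lf (nat_lit 69288) (.g (nat_lit 1280) (.e (nat_lit 1656) (nat_lit 115) (.e (nat_lit 393300) (nat_lit 27) (.e (nat_lit 491569) (nat_lit 13) (.e (nat_lit 393233) (nat_lit 17) .nil)))) .nil)) 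
(.lf (nat_lit 69352) (.g (nat_lit 1567) (.e (nat_lit 1656) (nat_lit 115) (.e (nat_lit 393301) (nat_lit 27) (.e (nat_lit 491556) (nat_lit 9) (.e (nat_lit 336390) (nat_lit 27) .nil)))) .nil)))) (.nd (nat_lit 5) (.nd (nat_lit 6) 
(.lf (nat_lit 69272) (.g (nat_lit 2317) (.e (nat_lit 1656) (nat_lit 115) (.e (nat_lit 393300) (nat_lit 27) (.e (nat_lit 491568) (nat_lit 13) (.e (nat_lit 393233) (nat_lit 17) (.e (nat_lit 7493) (nat_lit 402) .nil))))) (.g (nat_lit 4) .nil .nil))) 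
(.lf (nat_lit 69336) (.g (nat_lit 2260) (.e (nat_lit 1656) (nat_lit 115) (.e (nat_lit 393301) (nat_lit 27) (.e (nat_lit 491552) (nat_lit 9) (.e (nat_lit 336253) (nat_lit 15) (.e (nat_lit 7086) (nat_lit 379) (.e (nat_lit 123205) (nat_lit 270) .nil)))))) (.g (nat_lit 4) .nil .nil)))) (.nd (nat_lit 6) 
(.lf (nat_lit 69304) (.g (nat_lit 1585) (.e (nat_lit 1656) (nat_lit 115) (.e (nat_lit 393300) (nat_lit 27) (.e (nat_lit 499456) (nat_lit 13) (.e (nat_lit 393232) (nat_lit 17) (.e (nat_lit 7491) (nat_lit 402) .nil))))) (.g (nat_lit 4) .nil .nil))) 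
(.lf (nat_lit 69368) (.g (nat_lit 4302) (.e (nat_lit 1656) (nat_lit 115) (.e (nat_lit 393301) (nat_lit 27) (.e (nat_lit 491558) (nat_lit 10) (.e (nat_lit 344091) (nat_lit 18) (.e (nat_lit 7263) (nat_lit 384) (.e (nat_lit 57354) (nat_lit 0) (.e (nat_lit 7936) (nat_lit 343) .nil))))))) (.g (nat_lit 6) .nil .nil))))))) (.nd (nat_lit 3) (.nd (nat_lit 4) (.nd (nat_lit 5) (.nd (nat_lit 6) 
(.lf (nat_lit 69252) (.g (nat_lit 2022) (.e (nat_lit 1656) (nat_lit 115) (.e (nat_lit 393300) (nat_lit 27) (.e (nat_lit 491558) (nat_lit 10) (.e (nat_lit 344096) (nat_lit 18) (.e (nat_lit 7265) (nat_lit 384) .nil))))) .nil)) 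
(.lf (nat_lit 69316) (.g (nat_lit 2467) (.e (nat_lit 1656) (nat_lit 115) (.e (nat_lit 393301) (nat_lit 27) (.e (nat_lit 491538) (nat_lit 3) (.e (nat_lit 98341) (nat_lit 20) (.e (nat_lit 221218) (nat_lit 24) (.e (nat_lit 220928) (nat_lit 0) .nil)))))) (.g (nat_lit 4) .nil .nil)))) (.nd (nat_lit 6) 
(.lf (nat_lit 69284) (.g (nat_lit 2463) (.e (nat_lit 1656) (nat_lit 115) (.e (nat_lit 393300) (nat_lit 27) (.e (nat_lit 491568) (nat_lit 13) (.e (nat_lit 393252) (nat_lit 18) (.e (nat_lit 164412) (nat_lit 260) .nil))))) .nil)) 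
(.lf (nat_lit 69348) (.g (nat_lit 425) (.e (nat_lit 1656) (nat_lit 115) (.e (nat_lit 393301) (nat_lit 27) (.e (nat_lit 491556) (nat_lit 9) .nil))) .nil)))) (.nd (nat_lit 5) (.nd (nat_lit 6) 
(.lf (nat_lit 69268) (.g (nat_lit 2810) (.e (nat_lit 1656) (nat_lit 115) (.e (nat_lit 393300) (nat_lit 27) (.e (nat_lit 491568) (nat_lit 13) (.e (nat_lit 393232) (nat_lit 17) (.e (nat_lit 7533) (nat_lit 402) .nil))))) (.g (nat_lit 4) .nil .nil))) 
(.lf (nat_lit 69332) (.g (nat_lit 537) (.e (nat_lit 1656) (nat_lit 115) (.e (nat_lit 393301) (nat_lit 27) (.e (nat_lit 491551) (nat_lit 9) .nil))) .nil))) (.nd (nat_lit 6) 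
(.lf (nat_lit 69300) (.g (nat_lit 2713) (.e (nat_lit 1656) (nat_lit 115) (.e (nat_lit 393300) (nat_lit 27) (.e (nat_lit 491570) (nat_lit 13) (.e (nat_lit 393238) (nat_lit 17) (.e (nat_lit 7936) (nat_lit 402) .nil))))) (.g (nat_lit 4) .nil .nil))) 
(.lf (nat_lit 69364) (.g (nat_lit 2758) (.e (nat_lit 1656) (nat_lit 115) (.e (nat_lit 393301) (nat_lit 27) (.e (nat_lit 491558) (nat_lit 10) (.e (nat_lit 344091) (nat_lit 18) (.e (nat_lit 7247) (nat_lit 383) (.e (nat_lit 8202) (nat_lit 0) (.e (nat_lit 5293) (nat_lit 298) .nil))))))) (.g (nat_lit 4) .nil .nil)))))) (.nd (nat_lit 4) (.nd (nat_lit 5) (.nd (nat_lit 6) 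
(.lf (nat_lit 69260) (.g (nat_lit 1905) (.e (nat_lit 1656) (nat_lit 115) (.e (nat_lit 393300) (nat_lit 27) (.e (nat_lit 491567) (nat_lit 13) (.e (nat_lit 393233) (nat_lit 17) (.e (nat_lit 7491) (nat_lit 402) .nil))))) (.g (nat_lit 4) .nil .nil))) 
(.lf (nat_lit 69324) (.g (nat_lit 1421) (.e (nat_lit 1656) (nat_lit 115) (.e (nat_lit 393301) (nat_lit 27) (.e (nat_lit 491546) (nat_lit 9) (.e (nat_lit 336358) (nat_lit 25) .nil)))) .nil))) (.nd (nat_lit 6) 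
(.lf (nat_lit 69292) (.g (nat_lit 1581) (.e (nat_lit 1656) (nat_lit 115) (.e (nat_lit 393300) (nat_lit 27) (.e (nat_lit 491569) (nat_lit 13) (.e (nat_lit 393237) (nat_lit 17) .nil)))) .nil)) 
(.lf (nat_lit 69356) (.g (nat_lit 2795) (.e (nat_lit 1656) (nat_lit 115) (.e (nat_lit 393301) (nat_lit 27) (.e (nat_lit 491558) (nat_lit 10) (.e (nat_lit 344090) (nat_lit 18) (.e (nat_lit 7247) (nat_lit 383) (.e (nat_lit 16128) (nat_lit 0) (.e (nat_lit 5293) (nat_lit 298) .nil))))))) (.g (nat_lit 4) .nil .nil))))) (.nd (nat_lit 5) (.nd (nat_lit 6) 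
(.lf (nat_lit 69276) (.g (nat_lit 2136) (.e (nat_lit 1656) (nat_lit 115) (.e (nat_lit 393300) (nat_lit 27) (.e (nat_lit 491568) (nat_lit 13) (.e (nat_lit 393234) (nat_lit 17) (.e (nat_lit 7936) (nat_lit 402) .nil))))) (.g (nat_lit 4) .nil .nil))) 
(.lf (nat_lit 69340) (.g (nat_lit 983) (.e (nat_lit 1656) (nat_lit 115) (.e (nat_lit 393301) (nat_lit 27) (.e (nat_lit 491552) (nat_lit 9) (.e (nat_lit 336358) (nat_lit 25) .nil)))) .nil))) (.nd (nat_lit 6) 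
(.lf (nat_lit 69308) (.g (nat_lit 1366) (.e (nat_lit 1656) (nat_lit 115) (.e (nat_lit 393301) (nat_lit 27) (.e (nat_lit 491526) (nat_lit 0) (.e (nat_lit 1788) (nat_lit 119) .nil)))) .nil)) 
(.lf (nat_lit 69372) (.g (nat_lit 2129) (.e (nat_lit 1656) (nat_lit 115) (.e (nat_lit 393301) (nat_lit 27) (.e (nat_lit 491558) (nat_lit 10) (.e (nat_lit 344093) (nat_lit 18) .nil)))) .nil))))))) (.nd (nat_lit 2) (.nd (nat_lit 3) (.nd (nat_lit 4) (.nd (nat_lit 5) (.nd (nat_lit 6) 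
(.lf (nat_lit 69250) (.g (nat_lit 1334) (.e (nat_lit 1656) (nat_lit 115) (.e (nat_lit 393300) (nat_lit 27) (.e (nat_lit 491556) (nat_lit 9) (.e (nat_lit 336437) (nat_lit 31) .nil)))) .nil)) 
(.lf (nat_lit 69314) (.g (nat_lit 507) (.e (nat_lit 1656) (nat_lit 115) (.e (nat_lit 393301) (nat_lit 27) (.e (nat_lit 491538) (nat_lit 3) .nil))) .nil))) (.nd (nat_lit 6) 
(.lf (nat_lit 69282) (.g (nat_lit 1465) (.e (nat_lit 1656) (nat_lit 115) (.e (nat_lit 393300) (nat_lit 27) (.e (nat_lit 491568) (nat_lit 13) (.e (nat_lit 393249) (nat_lit 17) .nil)))) .nil)) 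
(.lf (nat_lit 69346) (.g (nat_lit 1113) (.e (nat_lit 1656) (nat_lit 115) (.e (nat_lit 393301) (nat_lit 27) (.e (nat_lit 491555) (nat_lit 9) .nil))) .nil)))) (.nd (nat_lit 5) (.nd (nat_lit 6) 
(.lf (nat_lit 69266) (.g (nat_lit 2819) (.e (nat_lit 1656) (nat_lit 115) (.e (nat_lit 393300) (nat_lit 27) (.e (nat_lit 491568) (nat_lit 13) (.e (nat_lit 393231) (nat_lit 17) (.e (nat_lit 7491) (nat_lit 402) .nil))))) (.g (nat_lit 4) .nil .nil))) 
(.lf (nat_lit 69330) (.g (nat_lit 2469) (.e (nat_lit 1656) (nat_lit 115) (.e (nat_lit 393301) (nat_lit 27) (.e (nat_lit 491547) (nat_lit 9) (.e (nat_lit 336438) (nat_lit 31) (.e (nat_lit 458753) (nat_lit 0) .nil))))) (.g (nat_lit 4) .nil .nil)))) (.nd (nat_lit 6) 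
(.lf (nat_lit 69298) (.g (nat_lit 1525) (.e (nat_lit 1656) (nat_lit 115) (.e (nat_lit 393300) (nat_lit 27) (.e (nat_lit 491570) (nat_lit 13) (.e (nat_lit 393232) (nat_lit 17) .nil)))) .nil)) 
(.lf (nat_lit 69362) (.g (nat_lit 2836) (.e (nat_lit 1656) (nat_lit 115) (.e (nat_lit 393301) (nat_lit 27) (.e (nat_lit 491558) (nat_lit 10) (.e (nat_lit 344091) (nat_lit 18) (.e (nat_lit 7122) (nat_lit 382) (.e (nat_lit 1183) (nat_lit 87) (.e (nat_lit 65280) (nat_lit 187) .nil))))))) (.g (nat_lit 4) .nil .nil)))))) (.nd (nat_lit 4) (.nd (nat_lit 5) (.nd (nat_lit 6) 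
(.lf (nat_lit 69258) (.g (nat_lit 3319) (.e (nat_lit 1656) (nat_lit 115) (.e (nat_lit 393300) (nat_lit 27) (.e (nat_lit 491563) (nat_lit 12) (.e (nat_lit 385035) (nat_lit 16) .nil)))) .nil)) 
(.lf (nat_lit 69322) (.g (nat_lit 3292) (.e (nat_lit 1656) (nat_lit 115) (.e (nat_lit 393301) (nat_lit 27) (.e (nat_lit 491546) (nat_lit 9) (.e (nat_lit 335997) (nat_lit 1) (.e (nat_lit 57679) (nat_lit 153) (.e (nat_lit 8202) (nat_lit 0) (.e (nat_lit 5293) (nat_lit 298) .nil))))))) (.g (nat_lit 4) .nil .nil)))) (.nd (nat_lit 6) 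
(.lf (nat_lit 69290) (.g (nat_lit 3373) (.e (nat_lit 1656) (nat_lit 115) (.e (nat_lit 393300) (nat_lit 27) (.e (nat_lit 491569) (nat_lit 13) (.e (nat_lit 393234) (nat_lit 17) (.e (nat_lit 7491) (nat_lit 402) .nil))))) (.g (nat_lit 4) .nil .nil))) 
(.lf (nat_lit 69354) (.g (nat_lit 2137) (.e (nat_lit 1656) (nat_lit 115) (.e (nat_lit 393301) (nat_lit 27) (.e (nat_lit 491558) (nat_lit 10) (.e (nat_lit 344088) (nat_lit 18) .nil)))) .nil)))) (.nd (nat_lit 5) (.nd (nat_lit 6) 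
(.lf (nat_lit 69274) (.g (nat_lit 2233) (.e (nat_lit 1656) (nat_lit 115) (.e (nat_lit 393300) (nat_lit 27) (.e (nat_lit 491568) (nat_lit 13) (.e (nat_lit 393233) (nat_lit 17) (.e (nat_lit 7536) (nat_lit 402) .nil))))) (.g (nat_lit 4) .nil .nil))) 
(.lf (nat_lit 69338) (.g (nat_lit 2297) (.e (nat_lit 1656) (nat_lit 115) (.e (nat_lit 393301) (nat_lit 27) (.e (nat_lit 491552) (nat_lit 9) (.e (nat_lit 336253) (nat_lit 15) (.e (nat_lit 7088) (nat_lit 379) (.e (nat_lit 123205) (nat_lit 270) .nil)))))) (.g (nat_lit 4) .nil .nil)))) (.nd (nat_lit 6) 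
(.lf (nat_lit 69306) (.g (nat_lit 1200) (.e (nat_lit 1656) (nat_lit 115) (.e (nat_lit 393301) (nat_lit 27) (.e (nat_lit 491525) (nat_lit 0) .nil))) .nil)) 
(.lf (nat_lit 69370) (.g (nat_lit 3939) (.e (nat_lit 1656) (nat_lit 115) (.e (nat_lit 393301) (nat_lit 27) (.e (nat_lit 491558) (nat_lit 10) (.e (nat_lit 344091) (nat_lit 18) (.e (nat_lit 7265) (nat_lit 384) (.e (nat_lit 57347) (nat_lit 0) (.e (nat_lit 7936) (nat_lit 343) .nil))))))) (.g (nat_lit 6) .nil .nil))))))) (.nd (nat_lit 3) (.nd (nat_lit 4) (.nd (nat_lit 5) (.nd (nat_lit 6) 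
(.lf (nat_lit 69254) (.g (nat_lit 2079) (.e (nat_lit 1656) (nat_lit 115) (.e (nat_lit 393300) (nat_lit 27) (.e (nat_lit 491560) (nat_lit 10) (.e (nat_lit 344090) (nat_lit 18) (.e (nat_lit 7265) (nat_lit 384) .nil))))) .nil)) 
(.lf (nat_lit 69318) (.g (nat_lit 2824) (.e (nat_lit 1656) (nat_lit 115) (.e (nat_lit 393301) (nat_lit 27) (.e (nat_lit 491538) (nat_lit 3) (.e (nat_lit 98342) (nat_lit 20) (.e (nat_lit 221219) (nat_lit 24) (.e (nat_lit 220928) (nat_lit 0) .nil)))))) (.g (nat_lit 5) .nil .nil)))) (.nd (nat_lit 6) 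
(.lf (nat_lit 69286) (.g (nat_lit 1804) (.e (nat_lit 1656) (nat_lit 115) (.e (nat_lit 393300) (nat_lit 27) (.e (nat_lit 491569) (nat_lit 13) (.e (nat_lit 393231) (nat_lit 17) .nil)))) .nil)) 
(.lf (nat_lit 69350) (.g (nat_lit 1425) (.e (nat_lit 1656) (nat_lit 115) (.e (nat_lit 393301) (nat_lit 27) (.e (nat_lit 491556) (nat_lit 9) (.e (nat_lit 343808) (nat_lit 25) .nil)))) .nil)))) (.nd (nat_lit 5) (.nd (nat_lit 6) 
(.lf (nat_lit 69270) (.g (nat_lit 2462) (.e (nat_lit 1656) (nat_lit 115) (.e (nat_lit 393300) (nat_lit 27) (.e (nat_lit 491568) (nat_lit 13) (.e (nat_lit 393232) (nat_lit 17) (.e (nat_lit 7936) (nat_lit 402) .nil))))) (.g (nat_lit 4) .nil .nil))) 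
(.lf (nat_lit 69334) (.g (nat_lit 3036) (.e (nat_lit 1656) (nat_lit 115) (.e (nat_lit 393301) (nat_lit 27) (.e (nat_lit 491552) (nat_lit 9) (.e (nat_lit 336250) (nat_lit 15) (.e (nat_lit 7077) (nat_lit 378) (.e (nat_lit 57884) (nat_lit 270) .nil)))))) (.g (nat_lit 0) .nil .nil)))) (.nd (nat_lit 6) 
(.lf (nat_lit 69302) (.g (nat_lit 1483) (.e (nat_lit 1656) (nat_lit 115) (.e (nat_lit 393300) (nat_lit 27) (.e (nat_lit 491570) (nat_lit 13) (.e (nat_lit 393243) (nat_lit 17) .nil)))) .nil)) 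
(.lf (nat_lit 69366) (.g (nat_lit 3987) (.e (nat_lit 1656) (nat_lit 115) (.e (nat_lit 393301) (nat_lit 27) (.e (nat_lit 491558) (nat_lit 10) (.e (nat_lit 344091) (nat_lit 18) (.e (nat_lit 7261) (nat_lit 384) (.e (nat_lit 57346) (nat_lit 0) (.e (nat_lit 6437) (nat_lit 343) .nil))))))) (.g (nat_lit 7) .nil .nil)))))) (.nd (nat_lit 4) (.nd (nat_lit 5) (.nd (nat_lit 6) 
(.lf (nat_lit 69262) (.g (nat_lit 374) (.e (nat_lit 1656) (nat_lit 115) (.e (nat_lit 393300) (nat_lit 27) (.e (nat_lit 491568) (nat_lit 13) .nil))) .nil)) 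
(.lf (nat_lit 69326) (.g (nat_lit 3798) (.e (nat_lit 1656) (nat_lit 115) (.e (nat_lit 393301) (nat_lit 27) (.e (nat_lit 491546) (nat_lit 9) (.e (nat_lit 336358) (nat_lit 25) (.e (nat_lit 409603) (nat_lit 0) (.e (nat_lit 5293) (nat_lit 298) .nil)))))) (.g (nat_lit 0) .nil .nil)))) (.nd (nat_lit 6) 
(.lf (nat_lit 69294) (.g (nat_lit 1493) (.e (nat_lit 1656) (nat_lit 115) (.e (nat_lit 393300) (nat_lit 27) (.e (nat_lit 491569) (nat_lit 13) (.e (nat_lit 393242) (nat_lit 17) .nil)))) .nil)) 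
(.lf (nat_lit 69358) (.g (nat_lit 3675) (.e (nat_lit 1656) (nat_lit 115) (.e (nat_lit 393301) (nat_lit 27) (.e (nat_lit 491558) (nat_lit 10) (.e (nat_lit 344090) (nat_lit 18) (.e (nat_lit 7263) (nat_lit 384) (.e (nat_lit 57354) (nat_lit 0) (.e (nat_lit 7936) (nat_lit 343) .nil))))))) (.g (nat_lit 5) .nil .nil))))) (.nd (nat_lit 5) (.nd (nat_lit 6) 
(.lf (nat_lit 69278) (.g (nat_lit 2684) (.e (nat_lit 1656) (nat_lit 115) (.e (nat_lit 393300) (nat_lit 27) (.e (nat_lit 491568) (nat_lit 13) (.e (nat_lit 393238) (nat_lit 17) (.e (nat_lit 7936) (nat_lit 402) .nil))))) (.g (nat_lit 4) .nil .nil))) 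
(.lf (nat_lit 69342) (.g (nat_lit 877) (.e (nat_lit 1656) (nat_lit 115) (.e (nat_lit 393301) (nat_lit 27) (.e (nat_lit 491552) (nat_lit 9) (.e (nat_lit 336363) (nat_lit 26) .nil)))) .nil))) (.nd (nat_lit 6) 
(.lf (nat_lit 69310) (.g (nat_lit 2454) (.e (nat_lit 1656) (nat_lit 115) (.e (nat_lit 393301) (nat_lit 27) (.e (nat_lit 491526) (nat_lit 0) (.e (nat_lit 1788) (nat_lit 119) (.e (nat_lit 516130) (nat_lit 3) (.e (nat_lit 221219) (nat_lit 24) (.e (nat_lit 220928) (nat_lit 0) .nil))))))) (.g (nat_lit 4) .nil .nil))) 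
(.lf (nat_lit 69374) (.g (nat_lit 3999) (.e (nat_lit 1656) (nat_lit 115) (.e (nat_lit 393301) (nat_lit 27) (.e (nat_lit 491558) (nat_lit 10) (.e (nat_lit 344095) (nat_lit 18) (.e (nat_lit 7263) (nat_lit 384) (.e (nat_lit 57354) (nat_lit 0) (.e (nat_lit 7936) (nat_lit 343) .nil))))))) (.g (nat_lit 6) .nil .nil))))))))) 
(.nd (nat_lit 1) (.nd (nat_lit 2) (.nd (nat_lit 3) (.nd (nat_lit 4) (.nd (nat_lit 5) 
(.nd (nat_lit 6) 
(.lf (nat_lit 69249) (.g (nat_lit 2026) (.e (nat_lit 1656) (nat_lit 115) (.e (nat_lit 393300) (nat_lit 27) (.e (nat_lit 491556) (nat_lit 9) (.e (nat_lit 336420) (nat_lit 28) (.e (nat_lit 442112) (nat_lit 0) .nil))))) (.g (nat_lit 4) .nil .nil))) 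
(.lf (nat_lit 69313) (.g (nat_lit 1692) (.e (nat_lit 1656) (nat_lit 115) (.e (nat_lit 393301) (nat_lit 27) (.e (nat_lit 491535) (nat_lit 2) (.e (nat_lit 90165) (nat_lit 12) .nil)))) .nil))) (.nd (nat_lit 6) 
(.lf (nat_lit 69281) (.g (nat_lit 1561) (.e (nat_lit 1656) (nat_lit 115) (.e (nat_lit 393300) (nat_lit 27) (.e (nat_lit 491568) (nat_lit 13) (.e (nat_lit 393243) (nat_lit 17) .nil)))) .nil)) 
(.lf (nat_lit 69345) (.g (nat_lit 1200) (.e (nat_lit 1656) (nat_lit 115) (.e (nat_lit 393301) (nat_lit 27) (.e (nat_lit 491553) (nat_lit 9) .nil))) .nil)))) (.nd (nat_lit 5) (.nd (nat_lit 6) 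
(.lf (nat_lit 69265) (.g (nat_lit 1590) (.e (nat_lit 1656) (nat_lit 115) (.e (nat_lit 393300) (nat_lit 27) (.e (nat_lit 491568) (nat_lit 13) (.e (nat_lit 393231) (nat_lit 17) .nil)))) .nil)) 
(.lf (nat_lit 69329) (.g (nat_lit 1802) (.e (nat_lit 1656) (nat_lit 115) (.e (nat_lit 393301) (nat_lit 27) (.e (nat_lit 491547) (nat_lit 9) (.e (nat_lit 336421) (nat_lit 28) (.e (nat_lit 442112) (nat_lit 0) .nil))))) (.g (nat_lit 4) .nil .nil)))) (.nd (nat_lit 6) 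
(.lf (nat_lit 69297) (.g (nat_lit 1623) (.e (nat_lit 1656) (nat_lit 115) (.e (nat_lit 393300) (nat_lit 27) (.e (nat_lit 491570) (nat_lit 13) (.e (nat_lit 393230) (nat_lit 17) .nil)))) .nil)) 
(.lf (nat_lit 69361) (.g (nat_lit 4099) (.e (nat_lit 1656) (nat_lit 115) (.e (nat_lit 393301) (nat_lit 27) (.e (nat_lit 491558) (nat_lit 10) (.e (nat_lit 344090) (nat_lit 18) (.e (nat_lit 7265) (nat_lit 384) (.e (nat_lit 57354) (nat_lit 0) (.e (nat_lit 7936) (nat_lit 343) .nil))))))) (.g (nat_lit 6) .nil .nil)))))) (.nd (nat_lit 4) (.nd (nat_lit 5) (.nd (nat_lit 6) 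
(.lf (nat_lit 69257) (.g (nat_lit 3331) (.e (nat_lit 1656) (nat_lit 115) (.e (nat_lit 393300) (nat_lit 27) (.e (nat_lit 491563) (nat_lit 12) (.e (nat_lit 385033) (nat_lit 16) .nil)))) .nil)) 
(.lf (nat_lit 69321) (.g (nat_lit 576) (.e (nat_lit 1656) (nat_lit 115) (.e (nat_lit 393301) (nat_lit 27) (.e (nat_lit 491546) (nat_lit 9) .nil))) .nil))) (.nd (nat_lit 6) 
(.lf (nat_lit 69289) (.g (nat_lit 2759) (.e (nat_lit 1656) (nat_lit 115) (.e (nat_lit 393300) (nat_lit 27) (.e (nat_lit 491569) (nat_lit 13) (.e (nat_lit 393234) (nat_lit 17) (.e (nat_lit 7486) (nat_lit 402) .nil))))) (.g (nat_lit 4) .nil .nil))) 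
(.lf (nat_lit 69353) (.g (nat_lit 616) (.e (nat_lit 1656) (nat_lit 115) (.e (nat_lit 393301) (nat_lit 27) (.e (nat_lit 491558) (nat_lit 10) .nil))) .nil)))) (.nd (nat_lit 5) (.nd (nat_lit 6) 
(.lf (nat_lit 69273) (.g (nat_lit 2979) (.e (nat_lit 1656) (nat_lit 115) (.e (nat_lit 393300) (nat_lit 27) (.e (nat_lit 491568) (nat_lit 13) (.e (nat_lit 393233) (nat_lit 17) (.e (nat_lit 7533) (nat_lit 402) .nil))))) (.g (nat_lit 0) .nil .nil))) 
(.lf (nat_lit 69337) (.g (nat_lit 2192) (.e (nat_lit 1656) (nat_lit 115) (.e (nat_lit 393301) (nat_lit 27) (.e (nat_lit 491552) (nat_lit 9) (.e (nat_lit 336253) (nat_lit 15) (.e (nat_lit 7087) (nat_lit 379) (.e (nat_lit 123205) (nat_lit 270) .nil)))))) (.g (nat_lit 4) .nil .nil)))) (.nd (nat_lit 6) 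
(.lf (nat_lit 69305) (.g (nat_lit 1271) (.e (nat_lit 1656) (nat_lit 115) (.e (nat_lit 393301) (nat_lit 27) (.e (nat_lit 491520) (nat_lit 0) .nil))) .nil)) 
(.lf (nat_lit 69369) (.g (nat_lit 4059) (.e (nat_lit 1656) (nat_lit 115) (.e (nat_lit 393301) (nat_lit 27) (.e (nat_lit 491558) (nat_lit 10) (.e (nat_lit 344091) (nat_lit 18) (.e (nat_lit 7265) (nat_lit 384) (.e (nat_lit 57346) (nat_lit 0) (.e (nat_lit 6437) (nat_lit 343) .nil))))))) (.g (nat_lit 0) .nil .nil))))))) (.nd (nat_lit 3) (.nd (nat_lit 4) (.nd (nat_lit 5) (.nd (nat_lit 6) 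
(.lf (nat_lit 69253) (.g (nat_lit 1390) (.e (nat_lit 1656) (nat_lit 115) (.e (nat_lit 393300) (nat_lit 27) (.e (nat_lit 491558) (nat_lit 10) (.e (nat_lit 344097) (nat_lit 18) .nil)))) .nil)) 
(.lf (nat_lit 69317) (.g (nat_lit 2257) (.e (nat_lit 1656) (nat_lit 115) (.e (nat_lit 393301) (nat_lit 27) (.e (nat_lit 491538) (nat_lit 3) (.e (nat_lit 98342) (nat_lit 20) (.e (nat_lit 221218) (nat_lit 24) (.e (nat_lit 220928) (nat_lit 0) .nil)))))) (.g (nat_lit 4) .nil .nil)))) (.nd (nat_lit 6) 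
(.lf (nat_lit 69285) (.g (nat_lit 1685) (.e (nat_lit 1656) (nat_lit 115) (.e (nat_lit 393300) (nat_lit 27) (.e (nat_lit 491568) (nat_lit 13) (.e (nat_lit 393253) (nat_lit 18) .nil)))) .nil)) 
(.lf (nat_lit 69349) (.g (nat_lit 1425) (.e (nat_lit 1656) (nat_lit 115) (.e (nat_lit 393301) (nat_lit 27) (.e (nat_lit 491556) (nat_lit 9) (.e (nat_lit 343808) (nat_lit 15) .nil)))) .nil)))) (.nd (nat_lit 5) (.nd (nat_lit 6) 
(.lf (nat_lit 69269) (.g (nat_lit 2846) (.e (nat_lit 1656) (nat_lit 115) (.e (nat_lit 393300) (nat_lit 27) (.e (nat_lit 491568) (nat_lit 13) (.e (nat_lit 393232) (nat_lit 17) (.e (nat_lit 7536) (nat_lit 402) .nil))))) (.g (nat_lit 5) .nil .nil))) 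
(.lf (nat_lit 69333) (.g (nat_lit 390) (.e (nat_lit 1656) (nat_lit 115) (.e (nat_lit 393301) (nat_lit 27) (.e (nat_lit 491552) (nat_lit 9) .nil))) .nil))) (.nd (nat_lit 6) 
(.lf (nat_lit 69301) (.g (nat_lit 2258) (.e (nat_lit 1656) (nat_lit 115) (.e (nat_lit 393300) (nat_lit 27) (.e (nat_lit 491570) (nat_lit 13) (.e (nat_lit 393242) (nat_lit 17) (.e (nat_lit 7936) (nat_lit 402) .nil))))) (.g (nat_lit 4) .nil .nil))) 
(.lf (nat_lit 69365) (.g (nat_lit 2810) (.e (nat_lit 1656) (nat_lit 115) (.e (nat_lit 393301) (nat_lit 27) (.e (nat_lit 491558) (nat_lit 10) (.e (nat_lit 344091) (nat_lit 18) (.e (nat_lit 7247) (nat_lit 383) (.e (nat_lit 16128) (nat_lit 0) (.e (nat_lit 5293) (nat_lit 298) .nil))))))) (.g (nat_lit 4) .nil .nil)))))) (.nd (nat_lit 4) (.nd (nat_lit 5) (.nd (nat_lit 6) 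
(.lf (nat_lit 69261) (.g (nat_lit 1866) (.e (nat_lit 1656) (nat_lit 115) (.e (nat_lit 393300) (nat_lit 27) (.e (nat_lit 491567) (nat_lit 13) (.e (nat_lit 393233) (nat_lit 17) (.e (nat_lit 7533) (nat_lit 402) .nil))))) (.g (nat_lit 4) .nil .nil))) 
(.lf (nat_lit 69325) (.g (nat_lit 4517) (.e (nat_lit 1656) (nat_lit 115) (.e (nat_lit 393301) (nat_lit 27) (.e (nat_lit 491546) (nat_lit 9) (.e (nat_lit 336358) (nat_lit 25) (.e (nat_lit 409602) (nat_lit 0) (.e (nat_lit 5293) (nat_lit 298) .nil)))))) (.g (nat_lit 0) .nil .nil)))) (.nd (nat_lit 6) 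
(.lf (nat_lit 69293) (.g (nat_lit 1824) (.e (nat_lit 1656) (nat_lit 115) (.e (nat_lit 393300) (nat_lit 27) (.e (nat_lit 491569) (nat_lit 13) (.e (nat_lit 393239) (nat_lit 17) .nil)))) .nil)) 
(.lf (nat_lit 69357) (.g (nat_lit 3840) (.e (nat_lit 1656) (nat_lit 115) (.e (nat_lit 393301) (nat_lit 27) (.e (nat_lit 491558) (nat_lit 10) (.e (nat_lit 344090) (nat_lit 18) (.e (nat_lit 7261) (nat_lit 384) (.e (nat_lit 57346) (nat_lit 0) (.e (nat_lit 6437) (nat_lit 343) .nil))))))) (.g (nat_lit 7) .nil .nil))))) (.nd (nat_lit 5) (.nd (nat_lit 6) 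
(.lf (nat_lit 69277) (.g (nat_lit 2203) (.e (nat_lit 1656) (nat_lit 115) (.e (nat_lit 393300) (nat_lit 27) (.e (nat_lit 491568) (nat_lit 13) (.e (nat_lit 393235) (nat_lit 17) (.e (nat_lit 7936) (nat_lit 402) .nil))))) (.g (nat_lit 4) .nil .nil))) 
(.lf (nat_lit 69341) (.g (nat_lit 4024) (.e (nat_lit 1656) (nat_lit 115) (.e (nat_lit 393301) (nat_lit 27) (.e (nat_lit 491552) (nat_lit 9) (.e (nat_lit 336358) (nat_lit 25) (.e (nat_lit 409602) (nat_lit 0) (.e (nat_lit 5293) (nat_lit 298) .nil)))))) (.g (nat_lit 0) .nil .nil)))) (.nd (nat_lit 6) 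
(.lf (nat_lit 69309) (.g (nat_lit 2390) (.e (nat_lit 1656) (nat_lit 115) (.e (nat_lit 393301) (nat_lit 27) (.e (nat_lit 491526) (nat_lit 0) (.e (nat_lit 1788) (nat_lit 119) (.e (nat_lit 516130) (nat_lit 3) (.e (nat_lit 221218) (nat_lit 24) (.e (nat_lit 220928) (nat_lit 0) .nil))))))) (.g (nat_lit 4) .nil .nil))) 
(.lf (nat_lit 69373) (.g (nat_lit 3775) (.e (nat_lit 1656) (nat_lit 115) (.e (nat_lit 393301) (nat_lit 27) (.e (nat_lit 491558) (nat_lit 10) (.e (nat_lit 344095) (nat_lit 18) (.e (nat_lit 7261) (nat_lit 384) (.e (nat_lit 57346) (nat_lit 0) (.e (nat_lit 6437) (nat_lit 343) .nil))))))) (.g (nat_lit 7) .nil .nil)))))))) 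
(.nd (nat_lit 2) (.nd (nat_lit 3) (.nd (nat_lit 4) (.nd (nat_lit 5) (.nd (nat_lit 6) 
(.lf (nat_lit 69251) (.g (nat_lit 2026) (.e (nat_lit 1656) (nat_lit 115) (.e (nat_lit 393300) (nat_lit 27) (.e (nat_lit 491558) (nat_lit 10) (.e (nat_lit 344091) (nat_lit 18) (.e (nat_lit 7265) (nat_lit 384) .nil))))) .nil)) 
(.lf (nat_lit 69315) (.g (nat_lit 985) (.e (nat_lit 1656) (nat_lit 115) (.e (nat_lit 393301) (nat_lit 27) (.e (nat_lit 491538) (nat_lit 3) (.e (nat_lit 98338) (nat_lit 19) .nil)))) .nil))) (.nd (nat_lit 6) 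
(.lf (nat_lit 69283) (.g (nat_lit 1667) (.e (nat_lit 1656) (nat_lit 115) (.e (nat_lit 393300) (nat_lit 27) (.e (nat_lit 491568) (nat_lit 13) (.e (nat_lit 393252) (nat_lit 18) .nil)))) .nil)) 
(.lf (nat_lit 69347) (.g (nat_lit 1615) (.e (nat_lit 1656) (nat_lit 115) (.e (nat_lit 393301) (nat_lit 27) (.e (nat_lit 491555) (nat_lit 9) (.e (nat_lit 343808) (nat_lit 25) .nil)))) .nil)))) (.nd (nat_lit 5) (.nd (nat_lit 6) 
(.lf (nat_lit 69267) (.g (nat_lit 3240) (.e (nat_lit 1656) (nat_lit 115) (.e (nat_lit 393300) (nat_lit 27) (.e (nat_lit 491568) (nat_lit 13) (.e (nat_lit 393232) (nat_lit 17) (.e (nat_lit 7491) (nat_lit 402) .nil))))) (.g (nat_lit 0) .nil .nil))) 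
(.lf (nat_lit 69331) (.g (nat_lit 2596) (.e (nat_lit 1656) (nat_lit 115) (.e (nat_lit 393301) (nat_lit 27) (.e (nat_lit 491547) (nat_lit 9) (.e (nat_lit 336438) (nat_lit 31) (.e (nat_lit 466688) (nat_lit 0) .nil))))) (.g (nat_lit 4) .nil .nil)))) (.nd (nat_lit 6) 
(.lf (nat_lit 69299) (.g (nat_lit 3175) (.e (nat_lit 1656) (nat_lit 115) (.e (nat_lit 393300) (nat_lit 27) (.e (nat_lit 491570) (nat_lit 13) (.e (nat_lit 393232) (nat_lit 17) (.e (nat_lit 7491) (nat_lit 402) .nil))))) (.g (nat_lit 4) .nil .nil))) 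
(.lf (nat_lit 69363) (.g (nat_lit 2800) (.e (nat_lit 1656) (nat_lit 115) (.e (nat_lit 393301) (nat_lit 27) (.e (nat_lit 491558) (nat_lit 10) (.e (nat_lit 344091) (nat_lit 18) (.e (nat_lit 7124) (nat_lit 382) (.e (nat_lit 1183) (nat_lit 87) (.e (nat_lit 65280) (nat_lit 187) .nil))))))) (.g (nat_lit 4) .nil .nil)))))) (.nd (nat_lit 4) (.nd (nat_lit 5) (.nd (nat_lit 6) 
(.lf (nat_lit 69259) (.g (nat_lit 1511) (.e (nat_lit 1656) (nat_lit 115) (.e (nat_lit 393300) (nat_lit 27) (.e (nat_lit 491565) (nat_lit 12) (.e (nat_lit 385033) (nat_lit 16) .nil)))) .nil)) 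
(.lf (nat_lit 69323) (.g (nat_lit 1663) (.e (nat_lit 1656) (nat_lit 115) (.e (nat_lit 393301) (nat_lit 27) (.e (nat_lit 491546) (nat_lit 9) (.e (nat_lit 336248) (nat_lit 15) .nil)))) .nil))) (.nd (nat_lit 6) 
(.lf (nat_lit 69291) (.g (nat_lit 2210) (.e (nat_lit 1656) (nat_lit 115) (.e (nat_lit 393300) (nat_lit 27) (.e (nat_lit 491569) (nat_lit 13) (.e (nat_lit 393234) (nat_lit 17) (.e (nat_lit 7936) (nat_lit 402) .nil))))) (.g (nat_lit 4) .nil .nil))) 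
(.lf (nat_lit 69355) (.g (nat_lit 2745) (.e (nat_lit 1656) (nat_lit 115) (.e (nat_lit 393301) (nat_lit 27) (.e (nat_lit 491558) (nat_lit 10) (.e (nat_lit 344090) (nat_lit 18) (.e (nat_lit 7247) (nat_lit 383) (.e (nat_lit 8202) (nat_lit 0) (.e (nat_lit 5293) (nat_lit 298) .nil))))))) (.g (nat_lit 4) .nil .nil))))) (.nd (nat_lit 5) (.nd (nat_lit 6) 
(.lf (nat_lit 69275) (.g (nat_lit 2696) (.e (nat_lit 1656) (nat_lit 115) (.e (nat_lit 393300) (nat_lit 27) (.e (nat_lit 491568) (nat_lit 13) (.e (nat_lit 393234) (nat_lit 17) (.e (nat_lit 7491) (nat_lit 402) .nil))))) (.g (nat_lit 4) .nil .nil))) 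
(.lf (nat_lit 69339) (.g (nat_lit 1701) (.e (nat_lit 1656) (nat_lit 115) (.e (nat_lit 393301) (nat_lit 27) (.e (nat_lit 491552) (nat_lit 9) (.e (nat_lit 336289) (nat_lit 15) .nil)))) .nil))) (.nd (nat_lit 6) 
(.lf (nat_lit 69307) (.g (nat_lit 1743) (.e (nat_lit 1656) (nat_lit 115) (.e (nat_lit 393301) (nat_lit 27) (.e (nat_lit 491525) (nat_lit 0) (.e (nat_lit 1799) (nat_lit 119) .nil)))) .nil)) 
(.lf (nat_lit 69371) (.g (nat_lit 4393) (.e (nat_lit 1656) (nat_lit 115) (.e (nat_lit 393301) (nat_lit 27) (.e (nat_lit 491558) (nat_lit 10) (.e (nat_lit 344091) (nat_lit 18) (.e (nat_lit 7265) (nat_lit 384) (.e (nat_lit 57354) (nat_lit 0) (.e (nat_lit 7936) (nat_lit 343) .nil))))))) (.g (nat_lit 6) .nil .nil))))))) (.nd (nat_lit 3) (.nd (nat_lit 4) (.nd (nat_lit 5) (.nd (nat_lit 6) 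
(.lf (nat_lit 69255) (.g (nat_lit 2360) (.e (nat_lit 1656) (nat_lit 115) (.e (nat_lit 393300) (nat_lit 27) (.e (nat_lit 491560) (nat_lit 10) (.e (nat_lit 344097) (nat_lit 18) (.e (nat_lit 7255) (nat_lit 383) .nil))))) .nil)) 
(.lf (nat_lit 69319) (.g (nat_lit 2468) (.e (nat_lit 1656) (nat_lit 115) (.e (nat_lit 393301) (nat_lit 27) (.e (nat_lit 491538) (nat_lit 3) (.e (nat_lit 98342) (nat_lit 20) (.e (nat_lit 221224) (nat_lit 29) (.e (nat_lit 262147) (nat_lit 0) .nil)))))) (.g (nat_lit 4) .nil .nil)))) (.nd (nat_lit 6) 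
(.lf (nat_lit 69287) (.g (nat_lit 2464) (.e (nat_lit 1656) (nat_lit 115) (.e (nat_lit 393300) (nat_lit 27) (.e (nat_lit 491569) (nat_lit 13) (.e (nat_lit 393232) (nat_lit 17) (.e (nat_lit 7491) (nat_lit 402) .nil))))) (.g (nat_lit 4) .nil .nil))) 
(.lf (nat_lit 69351) (.g (nat_lit 1937) (.e (nat_lit 1656) (nat_lit 115) (.e (nat_lit 393301) (nat_lit 27) (.e (nat_lit 491556) (nat_lit 9) (.e (nat_lit 336361) (nat_lit 26) .nil)))) .nil)))) (.nd (nat_lit 5) (.nd (nat_lit 6) 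
(.lf (nat_lit 69271) (.g (nat_lit 3116) (.e (nat_lit 1656) (nat_lit 115) (.e (nat_lit 393300) (nat_lit 27) (.e (nat_lit 491568) (nat_lit 13) (.e (nat_lit 393233) (nat_lit 17) (.e (nat_lit 7491) (nat_lit 402) .nil))))) (.g (nat_lit 0) .nil .nil))) 
(.lf (nat_lit 69335) (.g (nat_lit 2918) (.e (nat_lit 1656) (nat_lit 115) (.e (nat_lit 393301) (nat_lit 27) (.e (nat_lit 491552) (nat_lit 9) (.e (nat_lit 336250) (nat_lit 15) (.e (nat_lit 7081) (nat_lit 378) (.e (nat_lit 57884) (nat_lit 270) .nil)))))) (.g (nat_lit 0) .nil .nil)))) (.nd (nat_lit 6) 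
(.lf (nat_lit 69303) (.g (nat_lit 1657) (.e (nat_lit 1656) (nat_lit 115) (.e (nat_lit 393300) (nat_lit 27) (.e (nat_lit 491570) (nat_lit 13) (.e (nat_lit 393248) (nat_lit 17) .nil)))) .nil)) 
(.lf (nat_lit 69367) (.g (nat_lit 2901) (.e (nat_lit 1656) (nat_lit 115) (.e (nat_lit 393301) (nat_lit 27) (.e (nat_lit 491558) (nat_lit 10) (.e (nat_lit 344091) (nat_lit 18) (.e (nat_lit 7261) (nat_lit 384) (.e (nat_lit 57354) (nat_lit 0) (.e (nat_lit 7936) (nat_lit 343) .nil))))))) (.g (nat_lit 4) .nil .nil)))))) (.nd (nat_lit 4) (.nd (nat_lit 5) (.nd (nat_lit 6) 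
(.lf (nat_lit 69263) (.g (nat_lit 2381) (.e (nat_lit 1656) (nat_lit 115) (.e (nat_lit 393300) (nat_lit 27) (.e (nat_lit 491568) (nat_lit 13) (.e (nat_lit 393230) (nat_lit 17) (.e (nat_lit 7491) (nat_lit 402) .nil))))) (.g (nat_lit 5) .nil .nil))) 
(.lf (nat_lit 69327) (.g (nat_lit 1397) (.e (nat_lit 1656) (nat_lit 115) (.e (nat_lit 393301) (nat_lit 27) (.e (nat_lit 491547) (nat_lit 9) (.e (nat_lit 336362) (nat_lit 26) .nil)))) .nil))) (.nd (nat_lit 6) 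
(.lf (nat_lit 69295) (.g (nat_lit 1341) (.e (nat_lit 1656) (nat_lit 115) (.e (nat_lit 393300) (nat_lit 27) (.e (nat_lit 491569) (nat_lit 13) (.e (nat_lit 393249) (nat_lit 17) .nil)))) .nil)) 
(.lf (nat_lit 69359) (.g (nat_lit 3654) (.e (nat_lit 1656) (nat_lit 115) (.e (nat_lit 393301) (nat_lit 27) (.e (nat_lit 491558) (nat_lit 10) (.e (nat_lit 344090) (nat_lit 18) (.e (nat_lit 7265) (nat_lit 384) (.e (nat_lit 57346) (nat_lit 0) (.e (nat_lit 6437) (nat_lit 343) .nil))))))) (.g (nat_lit 5) .nil .nil))))) (.nd (nat_lit 5) (.nd (nat_lit 6) 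
(.lf (nat_lit 69279) (.g (nat_lit 2378) (.e (nat_lit 1656) (nat_lit 115) (.e (nat_lit 393300) (nat_lit 27) (.e (nat_lit 491568) (nat_lit 13) (.e (nat_lit 393239) (nat_lit 17) (.e (nat_lit 7936) (nat_lit 402) .nil))))) (.g (nat_lit 4) .nil .nil))) 
(.lf (nat_lit 69343) (.g (nat_lit 1003) (.e (nat_lit 1656) (nat_lit 115) (.e (nat_lit 393301) (nat_lit 27) (.e (nat_lit 491552) (nat_lit 9) (.e (nat_lit 336363) (nat_lit 26) (.e (nat_lit 417796) (nat_lit 0) .nil))))) .nil))) (.nd (nat_lit 6) 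
(.lf (nat_lit 69311) (.g (nat_lit 1210) (.e (nat_lit 1656) (nat_lit 115) (.e (nat_lit 393301) (nat_lit 27) (.e (nat_lit 491527) (nat_lit 0) .nil))) .nil)) 
(.lf (nat_lit 69375) (.g (nat_lit 3201) (.e (nat_lit 1656) (nat_lit 115) (.e (nat_lit 393301) (nat_lit 27) (.e (nat_lit 491558) (nat_lit 10) (.e (nat_lit 344096) (nat_lit 18) (.e (nat_lit 7122) (nat_lit 382) (.e (nat_lit 1183) (nat_lit 87) (.e (nat_lit 65280) (nat_lit 187) .nil))))))) (.g (nat_lit 4) .nil .nil))))))))))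

noncomputable def tv951 : DT := (.nd (nat_lit 0) (.nd (nat_lit 1) (.nd (nat_lit 2) (.nd (nat_lit 3) (.nd (nat_lit 4) (.nd (nat_lit 5) 
(.lf (nat_lit 69376) (.g (nat_lit 2921) (.e (nat_lit 1656) (nat_lit 115) (.e (nat_lit 393301) (nat_lit 27) (.e (nat_lit 491558) (nat_lit 10) (.e (nat_lit 344096) (nat_lit 18) (.e (nat_lit 7124) (nat_lit 382) (.e (nat_lit 1183) (nat_lit 87) (.e (nat_lit 65280) (nat_lit 187) .nil))))))) (.g (nat_lit 4) .nil .nil))) 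
(.lf (nat_lit 69408) (.g (nat_lit 5512) (.e (nat_lit 1656) (nat_lit 115) (.e (nat_lit 393301) (nat_lit 27) (.e (nat_lit 491559) (nat_lit 10) (.e (nat_lit 344091) (nat_lit 18) (.e (nat_lit 7265) (nat_lit 384) (.e (nat_lit 57346) (nat_lit 0) (.e (nat_lit 6437) (nat_lit 343) .nil))))))) (.g (nat_lit 6) .nil .nil)))) (.nd (nat_lit 5) 
(.lf (nat_lit 69392) (.g (nat_lit 829) (.e (nat_lit 1656) (nat_lit 115) (.e (nat_lit 393301) (nat_lit 27) (.e (nat_lit 491559) (nat_lit 10) .nil))) .nil)) 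
(.lf (nat_lit 69424) (.g (nat_lit 3220) (.e (nat_lit 1656) (nat_lit 115) (.e (nat_lit 393301) (nat_lit 27) (.e (nat_lit 491559) (nat_lit 10) (.e (nat_lit 344098) (nat_lit 18) (.e (nat_lit 7249) (nat_lit 383) .nil))))) .nil)))) (.nd (nat_lit 4) (.nd (nat_lit 5) 
(.lf (nat_lit 69384) (.g (nat_lit 4590) (.e (nat_lit 1656) (nat_lit 115) (.e (nat_lit 393301) (nat_lit 27) (.e (nat_lit 491558) (nat_lit 10) (.e (nat_lit 344096) (nat_lit 18) (.e (nat_lit 7265) (nat_lit 384) (.e (nat_lit 57354) (nat_lit 0) (.e (nat_lit 7936) (nat_lit 343) .nil))))))) (.g (nat_lit 6) .nil .nil))) 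
(.lf (nat_lit 69416) (.g (nat_lit 2902) (.e (nat_lit 1656) (nat_lit 115) (.e (nat_lit 393301) (nat_lit 27) (.e (nat_lit 491559) (nat_lit 10) (.e (nat_lit 344096) (nat_lit 18) .nil)))) .nil))) (.nd (nat_lit 5) 
(.lf (nat_lit 69400) (.g (nat_lit 2875) (.e (nat_lit 1656) (nat_lit 115) (.e (nat_lit 393301) (nat_lit 27) (.e (nat_lit 491559) (nat_lit 10) (.e (nat_lit 344091) (nat_lit 18) .nil)))) .nil)) 
(.lf (nat_lit 69432) (.g (nat_lit 2574) (.e (nat_lit 1656) (nat_lit 115) (.e (nat_lit 393301) (nat_lit 27) (.e (nat_lit 491560) (nat_lit 10) (.e (nat_lit 344087) (nat_lit 18) .nil)))) .nil))))) (.nd (nat_lit 3) (.nd (nat_lit 4) (.nd (nat_lit 5) 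
(.lf (nat_lit 69380) (.g (nat_lit 2973) (.e (nat_lit 1656) (nat_lit 115) (.e (nat_lit 393301) (nat_lit 27) (.e (nat_lit 491558) (nat_lit 10) (.e (nat_lit 344096) (nat_lit 18) (.e (nat_lit 7261) (nat_lit 384) (.e (nat_lit 57354) (nat_lit 0) (.e (nat_lit 7936) (nat_lit 343) .nil))))))) (.g (nat_lit 4) .nil .nil))) 
(.lf (nat_lit 69412) (.g (nat_lit 2902) (.e (nat_lit 1656) (nat_lit 115) (.e (nat_lit 393301) (nat_lit 27) (.e (nat_lit 491559) (nat_lit 10) (.e (nat_lit 344094) (nat_lit 18) .nil)))) .nil))) (.nd (nat_lit 5) 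
(.lf (nat_lit 69396) (.g (nat_lit 4777) (.e (nat_lit 1656) (nat_lit 115) (.e (nat_lit 393301) (nat_lit 27) (.e (nat_lit 491559) (nat_lit 10) (.e (nat_lit 344090) (nat_lit 18) (.e (nat_lit 7261) (nat_lit 384) (.e (nat_lit 57346) (nat_lit 0) (.e (nat_lit 6437) (nat_lit 343) .nil))))))) (.g (nat_lit 5) .nil .nil))) 
(.lf (nat_lit 69428) (.g (nat_lit 2915) (.e (nat_lit 1656) (nat_lit 115) (.e (nat_lit 393301) (nat_lit 27) (.e (nat_lit 491559) (nat_lit 10) (.e (nat_lit 344175) (nat_lit 43) .nil)))) .nil)))) (.nd (nat_lit 4) (.nd (nat_lit 5) 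
(.lf (nat_lit 69388) (.g (nat_lit 3135) (.e (nat_lit 1656) (nat_lit 115) (.e (nat_lit 393301) (nat_lit 27) (.e (nat_lit 491558) (nat_lit 10) (.e (nat_lit 344097) (nat_lit 18) (.e (nat_lit 7254) (nat_lit 383) (.e (nat_lit 8202) (nat_lit 0) (.e (nat_lit 5293) (nat_lit 298) .nil))))))) (.g (nat_lit 4) .nil .nil))) 
(.lf (nat_lit 69420) (.g (nat_lit 4168) (.e (nat_lit 1656) (nat_lit 115) (.e (nat_lit 393301) (nat_lit 27) (.e (nat_lit 491559) (nat_lit 10) (.e (nat_lit 344097) (nat_lit 18) (.e (nat_lit 7254) (nat_lit 383) (.e (nat_lit 8202) (nat_lit 0) (.e (nat_lit 5293) (nat_lit 298) .nil))))))) (.g (nat_lit 4) .nil .nil)))) (.nd (nat_lit 5) 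
(.lf (nat_lit 69404) (.g (nat_lit 4312) (.e (nat_lit 1656) (nat_lit 115) (.e (nat_lit 393301) (nat_lit 27) (.e (nat_lit 491559) (nat_lit 10) (.e (nat_lit 344091) (nat_lit 18) (.e (nat_lit 7247) (nat_lit 383) (.e (nat_lit 16128) (nat_lit 0) (.e (nat_lit 5293) (nat_lit 298) .nil))))))) (.g (nat_lit 4) .nil .nil))) 
(.lf (nat_lit 69436) (.g (nat_lit 1919) (.e (nat_lit 1656) (nat_lit 115) (.e (nat_lit 393301) (nat_lit 27) (.e (nat_lit 491560) (nat_lit 10) (.e (nat_lit 344090) (nat_lit 18) .nil)))) .nil)))))) (.nd (nat_lit 2) (.nd (nat_lit 3) (.nd (nat_lit 4) (.nd (nat_lit 5) 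
(.lf (nat_lit 69378) (.g (nat_lit 2792) (.e (nat_lit 1656) (nat_lit 115) (.e (nat_lit 393301) (nat_lit 27) (.e (nat_lit 491558) (nat_lit 10) (.e (nat_lit 344096) (nat_lit 18) (.e (nat_lit 7247) (nat_lit 383) (.e (nat_lit 16128) (nat_lit 0) (.e (nat_lit 5293) (nat_lit 298) .nil))))))) (.g (nat_lit 4) .nil .nil))) 
(.lf (nat_lit 69410) (.g (nat_lit 5769) (.e (nat_lit 1656) (nat_lit 115) (.e (nat_lit 393301) (nat_lit 27) (.e (nat_lit 491559) (nat_lit 10) (.e (nat_lit 344091) (nat_lit 18) (.e (nat_lit 7265) (nat_lit 384) (.e (nat_lit 57354) (nat_lit 0) (.e (nat_lit 7936) (nat_lit 343) .nil))))))) (.g (nat_lit 6) .nil .nil)))) (.nd (nat_lit 5) 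
(.lf (nat_lit 69394) (.g (nat_lit 2942) (.e (nat_lit 1656) (nat_lit 115) (.e (nat_lit 393301) (nat_lit 27) (.e (nat_lit 491559) (nat_lit 10) (.e (nat_lit 344090) (nat_lit 18) .nil)))) .nil)) 
(.lf (nat_lit 69426) (.g (nat_lit 2915) (.e (nat_lit 1656) (nat_lit 115) (.e (nat_lit 393301) (nat_lit 27) (.e (nat_lit 491559) (nat_lit 10) (.e (nat_lit 344101) (nat_lit 18) .nil)))) .nil)))) (.nd (nat_lit 4) (.nd (nat_lit 5) 
(.lf (nat_lit 69386) (.g (nat_lit 2978) (.e (nat_lit 1656) (nat_lit 115) (.e (nat_lit 393301) (nat_lit 27) (.e (nat_lit 491558) (nat_lit 10) (.e (nat_lit 344097) (nat_lit 18) (.e (nat_lit 7252) (nat_lit 383) (.e (nat_lit 8202) (nat_lit 0) (.e (nat_lit 5293) (nat_lit 298) .nil))))))) (.g (nat_lit 4) .nil .nil))) 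
(.lf (nat_lit 69418) (.g (nat_lit 2931) (.e (nat_lit 1656) (nat_lit 115) (.e (nat_lit 393301) (nat_lit 27) (.e (nat_lit 491559) (nat_lit 10) (.e (nat_lit 344097) (nat_lit 18) .nil)))) .nil))) (.nd (nat_lit 5) 
(.lf (nat_lit 69402) (.g (nat_lit 4286) (.e (nat_lit 1656) (nat_lit 115) (.e (nat_lit 393301) (nat_lit 27) (.e (nat_lit 491559) (nat_lit 10) (.e (nat_lit 344091) (nat_lit 18) (.e (nat_lit 7124) (nat_lit 382) (.e (nat_lit 1183) (nat_lit 87) (.e (nat_lit 65280) (nat_lit 187) .nil))))))) (.g (nat_lit 4) .nil .nil))) 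
(.lf (nat_lit 69434) (.g (nat_lit 2076) (.e (nat_lit 1656) (nat_lit 115) (.e (nat_lit 393301) (nat_lit 27) (.e (nat_lit 491560) (nat_lit 10) (.e (nat_lit 344089) (nat_lit 18) .nil)))) .nil))))) (.nd (nat_lit 3) (.nd (nat_lit 4) (.nd (nat_lit 5) 
(.lf (nat_lit 69382) (.g (nat_lit 4140) (.e (nat_lit 1656) (nat_lit 115) (.e (nat_lit 393301) (nat_lit 27) (.e (nat_lit 491558) (nat_lit 10) (.e (nat_lit 344096) (nat_lit 18) (.e (nat_lit 7265) (nat_lit 384) (.e (nat_lit 57346) (nat_lit 0) (.e (nat_lit 6437) (nat_lit 343) .nil))))))) (.g (nat_lit 0) .nil .nil))) 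
(.lf (nat_lit 69414) (.g (nat_lit 5100) (.e (nat_lit 1656) (nat_lit 115) (.e (nat_lit 393301) (nat_lit 27) (.e (nat_lit 491559) (nat_lit 10) (.e (nat_lit 344095) (nat_lit 18) (.e (nat_lit 7261) (nat_lit 384) (.e (nat_lit 57346) (nat_lit 0) (.e (nat_lit 6437) (nat_lit 343) .nil))))))) (.g (nat_lit 6) .nil .nil)))) (.nd (nat_lit 5) 
(.lf (nat_lit 69398) (.g (nat_lit 4684) (.e (nat_lit 1656) (nat_lit 115) (.e (nat_lit 393301) (nat_lit 27) (.e (nat_lit 491559) (nat_lit 10) (.e (nat_lit 344090) (nat_lit 18) (.e (nat_lit 7265) (nat_lit 384) (.e (nat_lit 57346) (nat_lit 0) (.e (nat_lit 6437) (nat_lit 343) .nil))))))) (.g (nat_lit 4) .nil .nil))) 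
(.lf (nat_lit 69430) (.g (nat_lit 4700) (.e (nat_lit 1656) (nat_lit 115) (.e (nat_lit 393301) (nat_lit 27) (.e (nat_lit 491559) (nat_lit 10) (.e (nat_lit 344177) (nat_lit 43) (.e (nat_lit 770069) (nat_lit 7) (.e (nat_lit 65280) (nat_lit 187) .nil)))))) (.g (nat_lit 4) .nil .nil))))) (.nd (nat_lit 4) (.nd (nat_lit 5) 
(.lf (nat_lit 69390) (.g (nat_lit 2650) (.e (nat_lit 1656) (nat_lit 115) (.e (nat_lit 393301) (nat_lit 27) (.e (nat_lit 491558) (nat_lit 10) (.e (nat_lit 344097) (nat_lit 18) (.e (nat_lit 7255) (nat_lit 383) (.e (nat_lit 16128) (nat_lit 0) (.e (nat_lit 5293) (nat_lit 298) .nil))))))) (.g (nat_lit 4) .nil .nil))) 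
(.lf (nat_lit 69422) (.g (nat_lit 4854) (.e (nat_lit 1656) (nat_lit 115) (.e (nat_lit 393301) (nat_lit 27) (.e (nat_lit 491559) (nat_lit 10) (.e (nat_lit 344097) (nat_lit 18) (.e (nat_lit 7255) (nat_lit 383) (.e (nat_lit 8202) (nat_lit 0) (.e (nat_lit 5293) (nat_lit 298) .nil))))))) (.g (nat_lit 4) .nil .nil)))) (.nd (nat_lit 5) 
(.lf (nat_lit 69406) (.g (nat_lit 4288) (.e (nat_lit 1656) (nat_lit 115) (.e (nat_lit 393301) (nat_lit 27) (.e (nat_lit 491559) (nat_lit 10) (.e (nat_lit 344091) (nat_lit 18) (.e (nat_lit 7261) (nat_lit 384) (.e (nat_lit 57354) (nat_lit 0) (.e (nat_lit 7936) (nat_lit 343) .nil))))))) (.g (nat_lit 4) .nil .nil))) 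
(.lf (nat_lit 69438) (.g (nat_lit 4214) (.e (nat_lit 1656) (nat_lit 115) (.e (nat_lit 393301) (nat_lit 27) (.e (nat_lit 491560) (nat_lit 10) (.e (nat_lit 344090) (nat_lit 18) (.e (nat_lit 7261) (nat_lit 384) (.e (nat_lit 57346) (nat_lit 0) (.e (nat_lit 6437) (nat_lit 343) .nil))))))) (.g (nat_lit 6) .nil .nil)))))))) 
(.nd (nat_lit 1) (.nd (nat_lit 2) (.nd (nat_lit 3) (.nd (nat_lit 4) (.nd (nat_lit 5) 
(.lf (nat_lit 69377) (.g (nat_lit 2764) (.e (nat_lit 1656) (nat_lit 115) (.e (nat_lit 393301) (nat_lit 27) (.e (nat_lit 491558) (nat_lit 10) (.e (nat_lit 344096) (nat_lit 18) (.e (nat_lit 7247) (nat_lit 383) (.e (nat_lit 8202) (nat_lit 0) (.e (nat_lit 5293) (nat_lit 298) .nil))))))) (.g (nat_lit 4) .nil .nil))) 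
(.lf (nat_lit 69409) (.g (nat_lit 5340) (.e (nat_lit 1656) (nat_lit 115) (.e (nat_lit 393301) (nat_lit 27) (.e (nat_lit 491559) (nat_lit 10) (.e (nat_lit 344091) (nat_lit 18) (.e (nat_lit 7265) (nat_lit 384) (.e (nat_lit 57347) (nat_lit 0) (.e (nat_lit 7936) (nat_lit 343) .nil))))))) (.g (nat_lit 6) .nil .nil)))) (.nd (nat_lit 5) 
(.lf (nat_lit 69393) (.g (nat_lit 2915) (.e (nat_lit 1656) (nat_lit 115) (.e (nat_lit 393301) (nat_lit 27) (.e (nat_lit 491559) (nat_lit 10) (.e (nat_lit 344087) (nat_lit 18) .nil)))) .nil)) 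
(.lf (nat_lit 69425) (.g (nat_lit 2915) (.e (nat_lit 1656) (nat_lit 115) (.e (nat_lit 393301) (nat_lit 27) (.e (nat_lit 491559) (nat_lit 10) (.e (nat_lit 344099) (nat_lit 18) .nil)))) .nil)))) (.nd (nat_lit 4) (.nd (nat_lit 5) 
(.lf (nat_lit 69385) (.g (nat_lit 1552) (.e (nat_lit 1656) (nat_lit 115) (.e (nat_lit 393301) (nat_lit 27) (.e (nat_lit 491558) (nat_lit 10) (.e (nat_lit 344097) (nat_lit 18) .nil)))) .nil)) 
(.lf (nat_lit 69417) (.g (nat_lit 4525) (.e (nat_lit 1656) (nat_lit 115) (.e (nat_lit 393301) (nat_lit 27) (.e (nat_lit 491559) (nat_lit 10) (.e (nat_lit 344096) (nat_lit 18) (.e (nat_lit 7265) (nat_lit 384) (.e (nat_lit 57354) (nat_lit 0) (.e (nat_lit 7936) (nat_lit 343) .nil))))))) (.g (nat_lit 4) .nil .nil)))) (.nd (nat_lit 5) 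
(.lf (nat_lit 69401) (.g (nat_lit 4245) (.e (nat_lit 1656) (nat_lit 115) (.e (nat_lit 393301) (nat_lit 27) (.e (nat_lit 491559) (nat_lit 10) (.e (nat_lit 344091) (nat_lit 18) (.e (nat_lit 7122) (nat_lit 382) (.e (nat_lit 1183) (nat_lit 87) (.e (nat_lit 65280) (nat_lit 187) .nil))))))) (.g (nat_lit 4) .nil .nil))) 
(.lf (nat_lit 69433) (.g (nat_lit 2063) (.e (nat_lit 1656) (nat_lit 115) (.e (nat_lit 393301) (nat_lit 27) (.e (nat_lit 491560) (nat_lit 10) (.e (nat_lit 344088) (nat_lit 18) .nil)))) .nil))))) (.nd (nat_lit 3) (.nd (nat_lit 4) (.nd (nat_lit 5) 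
(.lf (nat_lit 69381) (.g (nat_lit 4134) (.e (nat_lit 1656) (nat_lit 115) (.e (nat_lit 393301) (nat_lit 27) (.e (nat_lit 491558) (nat_lit 10) (.e (nat_lit 344096) (nat_lit 18) (.e (nat_lit 7263) (nat_lit 384) (.e (nat_lit 57354) (nat_lit 0) (.e (nat_lit 7936) (nat_lit 343) .nil))))))) (.g (nat_lit 6) .nil .nil))) 
(.lf (nat_lit 69413) (.g (nat_lit 2949) (.e (nat_lit 1656) (nat_lit 115) (.e (nat_lit 393301) (nat_lit 27) (.e (nat_lit 491559) (nat_lit 10) (.e (nat_lit 344095) (nat_lit 18) .nil)))) .nil))) (.nd (nat_lit 5) 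
(.lf (nat_lit 69397) (.g (nat_lit 4497) (.e (nat_lit 1656) (nat_lit 115) (.e (nat_lit 393301) (nat_lit 27) (.e (nat_lit 491559) (nat_lit 10) (.e (nat_lit 344090) (nat_lit 18) (.e (nat_lit 7263) (nat_lit 384) (.e (nat_lit 57354) (nat_lit 0) (.e (nat_lit 7936) (nat_lit 343) .nil))))))) (.g (nat_lit 4) .nil .nil))) 
(.lf (nat_lit 69429) (.g (nat_lit 3104) (.e (nat_lit 1656) (nat_lit 115) (.e (nat_lit 393301) (nat_lit 27) (.e (nat_lit 491559) (nat_lit 10) (.e (nat_lit 344177) (nat_lit 43) .nil)))) .nil)))) (.nd (nat_lit 4) (.nd (nat_lit 5) 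
(.lf (nat_lit 69389) (.g (nat_lit 3316) (.e (nat_lit 1656) (nat_lit 115) (.e (nat_lit 393301) (nat_lit 27) (.e (nat_lit 491558) (nat_lit 10) (.e (nat_lit 344097) (nat_lit 18) (.e (nat_lit 7255) (nat_lit 383) (.e (nat_lit 8202) (nat_lit 0) (.e (nat_lit 5277) (nat_lit 298) .nil))))))) (.g (nat_lit 4) .nil .nil))) 
(.lf (nat_lit 69421) (.g (nat_lit 4425) (.e (nat_lit 1656) (nat_lit 115) (.e (nat_lit 393301) (nat_lit 27) (.e (nat_lit 491559) (nat_lit 10) (.e (nat_lit 344097) (nat_lit 18) (.e (nat_lit 7255) (nat_lit 383) (.e (nat_lit 8202) (nat_lit 0) (.e (nat_lit 5277) (nat_lit 298) .nil))))))) (.g (nat_lit 4) .nil .nil)))) (.nd (nat_lit 5) 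
(.lf (nat_lit 69405) (.g (nat_lit 5436) (.e (nat_lit 1656) (nat_lit 115) (.e (nat_lit 393301) (nat_lit 27) (.e (nat_lit 491559) (nat_lit 10) (.e (nat_lit 344091) (nat_lit 18) (.e (nat_lit 7261) (nat_lit 384) (.e (nat_lit 57346) (nat_lit 0) (.e (nat_lit 6437) (nat_lit 343) .nil))))))) (.g (nat_lit 7) .nil .nil))) 
(.lf (nat_lit 69437) (.g (nat_lit 3188) (.e (nat_lit 1656) (nat_lit 115) (.e (nat_lit 393301) (nat_lit 27) (.e (nat_lit 491560) (nat_lit 10) (.e (nat_lit 344090) (nat_lit 18) (.e (nat_lit 7247) (nat_lit 383) (.e (nat_lit 8202) (nat_lit 0) (.e (nat_lit 5277) (nat_lit 298) .nil))))))) (.g (nat_lit 4) .nil .nil))))))) (.nd (nat_lit 2) (.nd (nat_lit 3) (.nd (nat_lit 4) (.nd (nat_lit 5) 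
(.lf (nat_lit 69379) (.g (nat_lit 4063) (.e (nat_lit 1656) (nat_lit 115) (.e (nat_lit 393301) (nat_lit 27) (.e (nat_lit 491558) (nat_lit 10) (.e (nat_lit 344096) (nat_lit 18) (.e (nat_lit 7261) (nat_lit 384) (.e (nat_lit 57346) (nat_lit 0) (.e (nat_lit 6437) (nat_lit 343) .nil))))))) (.g (nat_lit 7) .nil .nil))) 
(.lf (nat_lit 69411) (.g (nat_lit 2948) (.e (nat_lit 1656) (nat_lit 115) (.e (nat_lit 393301) (nat_lit 27) (.e (nat_lit 491559) (nat_lit 10) (.e (nat_lit 344093) (nat_lit 18) .nil)))) .nil))) (.nd (nat_lit 5) 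
(.lf (nat_lit 69395) (.g (nat_lit 3476) (.e (nat_lit 1656) (nat_lit 115) (.e (nat_lit 393301) (nat_lit 27) (.e (nat_lit 491559) (nat_lit 10) (.e (nat_lit 344090) (nat_lit 18) (.e (nat_lit 7247) (nat_lit 383) .nil))))) .nil)) 
(.lf (nat_lit 69427) (.g (nat_lit 2915) (.e (nat_lit 1656) (nat_lit 115) (.e (nat_lit 393301) (nat_lit 27) (.e (nat_lit 491559) (nat_lit 10) (.e (nat_lit 344174) (nat_lit 42) .nil)))) .nil)))) (.nd (nat_lit 4) (.nd (nat_lit 5) 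
(.lf (nat_lit 69387) (.g (nat_lit 3007) (.e (nat_lit 1656) (nat_lit 115) (.e (nat_lit 393301) (nat_lit 27) (.e (nat_lit 491558) (nat_lit 10) (.e (nat_lit 344097) (nat_lit 18) (.e (nat_lit 7253) (nat_lit 383) (.e (nat_lit 8202) (nat_lit 0) (.e (nat_lit 5277) (nat_lit 298) .nil))))))) (.g (nat_lit 4) .nil .nil))) 
(.lf (nat_lit 69419) (.g (nat_lit 4460) (.e (nat_lit 1656) (nat_lit 115) (.e (nat_lit 393301) (nat_lit 27) (.e (nat_lit 491559) (nat_lit 10) (.e (nat_lit 344097) (nat_lit 18) (.e (nat_lit 7253) (nat_lit 383) (.e (nat_lit 8202) (nat_lit 0) (.e (nat_lit 5293) (nat_lit 298) .nil))))))) (.g (nat_lit 4) .nil .nil)))) (.nd (nat_lit 5) 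
(.lf (nat_lit 69403) (.g (nat_lit 4258) (.e (nat_lit 1656) (nat_lit 115) (.e (nat_lit 393301) (nat_lit 27) (.e (nat_lit 491559) (nat_lit 10) (.e (nat_lit 344091) (nat_lit 18) (.e (nat_lit 7247) (nat_lit 383) (.e (nat_lit 8202) (nat_lit 0) (.e (nat_lit 5293) (nat_lit 298) .nil))))))) (.g (nat_lit 4) .nil .nil))) 
(.lf (nat_lit 69435) (.g (nat_lit 2974) (.e (nat_lit 1656) (nat_lit 115) (.e (nat_lit 393301) (nat_lit 27) (.e (nat_lit 491560) (nat_lit 10) (.e (nat_lit 344089) (nat_lit 18) (.e (nat_lit 6929) (nat_lit 372) (.e (nat_lit 8295) (nat_lit 51) (.e (nat_lit 5293) (nat_lit 298) .nil))))))) (.g (nat_lit 4) .nil .nil)))))) (.nd (nat_lit 3) (.nd (nat_lit 4) (.nd (nat_lit 5) 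
(.lf (nat_lit 69383) (.g (nat_lit 4024) (.e (nat_lit 1656) (nat_lit 115) (.e (nat_lit 393301) (nat_lit 27) (.e (nat_lit 491558) (nat_lit 10) (.e (nat_lit 344096) (nat_lit 18) (.e (nat_lit 7265) (nat_lit 384) (.e (nat_lit 57347) (nat_lit 0) (.e (nat_lit 7936) (nat_lit 343) .nil))))))) (.g (nat_lit 6) .nil .nil))) 
(.lf (nat_lit 69415) (.g (nat_lit 5127) (.e (nat_lit 1656) (nat_lit 115) (.e (nat_lit 393301) (nat_lit 27) (.e (nat_lit 491559) (nat_lit 10) (.e (nat_lit 344095) (nat_lit 18) (.e (nat_lit 7263) (nat_lit 384) (.e (nat_lit 57354) (nat_lit 0) (.e (nat_lit 7936) (nat_lit 343) .nil))))))) (.g (nat_lit 6) .nil .nil)))) (.nd (nat_lit 5) 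
(.lf (nat_lit 69399) (.g (nat_lit 5070) (.e (nat_lit 1656) (nat_lit 115) (.e (nat_lit 393301) (nat_lit 27) (.e (nat_lit 491559) (nat_lit 10) (.e (nat_lit 344090) (nat_lit 18) (.e (nat_lit 7265) (nat_lit 384) (.e (nat_lit 57354) (nat_lit 0) (.e (nat_lit 7936) (nat_lit 343) .nil))))))) (.g (nat_lit 5) .nil .nil))) 
(.lf (nat_lit 69431) (.g (nat_lit 404) (.e (nat_lit 1656) (nat_lit 115) (.e (nat_lit 393301) (nat_lit 27) (.e (nat_lit 491560) (nat_lit 10) .nil))) .nil)))) (.nd (nat_lit 4) (.nd (nat_lit 5) 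
(.lf (nat_lit 69391) (.g (nat_lit 2124) (.e (nat_lit 1656) (nat_lit 115) (.e (nat_lit 393301) (nat_lit 27) (.e (nat_lit 491558) (nat_lit 10) (.e (nat_lit 344100) (nat_lit 18) .nil)))) .nil)) 
(.lf (nat_lit 69423) (.g (nat_lit 2933) (.e (nat_lit 1656) (nat_lit 115) (.e (nat_lit 393301) (nat_lit 27) (.e (nat_lit 491559) (nat_lit 10) (.e (nat_lit 344098) (nat_lit 18) .nil)))) .nil))) (.nd (nat_lit 5) 
(.lf (nat_lit 69407) (.g (nat_lit 5805) (.e (nat_lit 1656) (nat_lit 115) (.e (nat_lit 393301) (nat_lit 27) (.e (nat_lit 491559) (nat_lit 10) (.e (nat_lit 344091) (nat_lit 18) (.e (nat_lit 7263) (nat_lit 384) (.e (nat_lit 57354) (nat_lit 0) (.e (nat_lit 7936) (nat_lit 343) .nil))))))) (.g (nat_lit 6) .nil .nil))) 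
(.lf (nat_lit 69439) (.g (nat_lit 3140) (.e (nat_lit 1656) (nat_lit 115) (.e (nat_lit 393301) (nat_lit 27) (.e (nat_lit 491560) (nat_lit 10) (.e (nat_lit 344090) (nat_lit 18) (.e (nat_lit 7261) (nat_lit 384) (.e (nat_lit 57354) (nat_lit 0) (.e (nat_lit 7936) (nat_lit 343) .nil))))))) (.g (nat_lit 4) .nil .nil)))))))))

noncomputable def tv952 : DT := (.nd (nat_lit 0) (.nd (nat_lit 1) (.nd (nat_lit 2) (.nd (nat_lit 3) (.nd (nat_lit 4) (.nd (nat_lit 5) 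
(.lf (nat_lit 69440) (.g (nat_lit 4171) (.e (nat_lit 1656) (nat_lit 115) (.e (nat_lit 393301) (nat_lit 27) (.e (nat_lit 491560) (nat_lit 10) (.e (nat_lit 344090) (nat_lit 18) (.e (nat_lit 7263) (nat_lit 384) (.e (nat_lit 57354) (nat_lit 0) (.e (nat_lit 7936) (nat_lit 343) .nil))))))) (.g (nat_lit 6) .nil .nil))) 
(.lf (nat_lit 69472) (.g (nat_lit 1641) (.e (nat_lit 1656) (nat_lit 115) (.e (nat_lit 393301) (nat_lit 27) (.e (nat_lit 491560) (nat_lit 10) (.e (nat_lit 344097) (nat_lit 18) .nil)))) .nil))) (.nd (nat_lit 5) 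
(.lf (nat_lit 69456) (.g (nat_lit 4399) (.e (nat_lit 1656) (nat_lit 115) (.e (nat_lit 393301) (nat_lit 27) (.e (nat_lit 491560) (nat_lit 10) (.e (nat_lit 344094) (nat_lit 18) (.e (nat_lit 7263) (nat_lit 384) (.e (nat_lit 57354) (nat_lit 0) (.e (nat_lit 7936) (nat_lit 343) .nil))))))) (.g (nat_lit 6) .nil .nil))) 
(.lf (nat_lit 69488) (.g (nat_lit 2009) (.e (nat_lit 1656) (nat_lit 115) (.e (nat_lit 393301) (nat_lit 27) (.e (nat_lit 491560) (nat_lit 10) (.e (nat_lit 352000) (nat_lit 18) .nil)))) .nil)))) (.nd (nat_lit 4) (.nd (nat_lit 5) 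
(.lf (nat_lit 69448) (.g (nat_lit 3962) (.e (nat_lit 1656) (nat_lit 115) (.e (nat_lit 393301) (nat_lit 27) (.e (nat_lit 491560) (nat_lit 10) (.e (nat_lit 344091) (nat_lit 18) (.e (nat_lit 7263) (nat_lit 384) (.e (nat_lit 57354) (nat_lit 0) (.e (nat_lit 7936) (nat_lit 343) .nil))))))) (.g (nat_lit 6) .nil .nil))) 
(.lf (nat_lit 69480) (.g (nat_lit 3214) (.e (nat_lit 1656) (nat_lit 115) (.e (nat_lit 393301) (nat_lit 27) (.e (nat_lit 491560) (nat_lit 10) (.e (nat_lit 344097) (nat_lit 18) (.e (nat_lit 7254) (nat_lit 383) (.e (nat_lit 16128) (nat_lit 0) (.e (nat_lit 5293) (nat_lit 298) .nil))))))) (.g (nat_lit 4) .nil .nil)))) (.nd (nat_lit 5) 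
(.lf (nat_lit 69464) (.g (nat_lit 3317) (.e (nat_lit 1656) (nat_lit 115) (.e (nat_lit 393301) (nat_lit 27) (.e (nat_lit 491560) (nat_lit 10) (.e (nat_lit 344096) (nat_lit 18) (.e (nat_lit 7122) (nat_lit 382) (.e (nat_lit 1183) (nat_lit 87) (.e (nat_lit 65280) (nat_lit 187) .nil))))))) (.g (nat_lit 4) .nil .nil))) 
(.lf (nat_lit 69496) (.g (nat_lit 975) (.e (nat_lit 1656) (nat_lit 115) (.e (nat_lit 393301) (nat_lit 27) (.e (nat_lit 491562) (nat_lit 12) .nil))) .nil))))) (.nd (nat_lit 3) (.nd (nat_lit 4) (.nd (nat_lit 5) 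
(.lf (nat_lit 69444) (.g (nat_lit 4681) (.e (nat_lit 1656) (nat_lit 115) (.e (nat_lit 393301) (nat_lit 27) (.e (nat_lit 491560) (nat_lit 10) (.e (nat_lit 344090) (nat_lit 18) (.e (nat_lit 7265) (nat_lit 384) (.e (nat_lit 57354) (nat_lit 0) (.e (nat_lit 7936) (nat_lit 343) .nil))))))) (.g (nat_lit 6) .nil .nil))) 
(.lf (nat_lit 69476) (.g (nat_lit 2828) (.e (nat_lit 1656) (nat_lit 115) (.e (nat_lit 393301) (nat_lit 27) (.e (nat_lit 491560) (nat_lit 10) (.e (nat_lit 344097) (nat_lit 18) (.e (nat_lit 7252) (nat_lit 383) (.e (nat_lit 16128) (nat_lit 0) (.e (nat_lit 5293) (nat_lit 298) .nil))))))) (.g (nat_lit 4) .nil .nil)))) (.nd (nat_lit 5) 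
(.lf (nat_lit 69460) (.g (nat_lit 2537) (.e (nat_lit 1656) (nat_lit 115) (.e (nat_lit 393301) (nat_lit 27) (.e (nat_lit 491560) (nat_lit 10) (.e (nat_lit 344095) (nat_lit 18) .nil)))) .nil)) 
(.lf (nat_lit 69492) (.g (nat_lit 3091) (.e (nat_lit 1656) (nat_lit 115) (.e (nat_lit 393301) (nat_lit 27) (.e (nat_lit 491560) (nat_lit 10) (.e (nat_lit 344177) (nat_lit 43) (.e (nat_lit 777984) (nat_lit 0) .nil))))) .nil)))) (.nd (nat_lit 4) (.nd (nat_lit 5) 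
(.lf (nat_lit 69452) (.g (nat_lit 2789) (.e (nat_lit 1656) (nat_lit 115) (.e (nat_lit 393301) (nat_lit 27) (.e (nat_lit 491560) (nat_lit 10) (.e (nat_lit 344093) (nat_lit 18) .nil)))) .nil)) 
(.lf (nat_lit 69484) (.g (nat_lit 2569) (.e (nat_lit 1656) (nat_lit 115) (.e (nat_lit 393301) (nat_lit 27) (.e (nat_lit 491560) (nat_lit 10) (.e (nat_lit 344097) (nat_lit 18) (.e (nat_lit 7272) (nat_lit 385) .nil))))) .nil))) (.nd (nat_lit 5) 
(.lf (nat_lit 69468) (.g (nat_lit 4194) (.e (nat_lit 1656) (nat_lit 115) (.e (nat_lit 393301) (nat_lit 27) (.e (nat_lit 491560) (nat_lit 10) (.e (nat_lit 344096) (nat_lit 18) (.e (nat_lit 7263) (nat_lit 384) (.e (nat_lit 57354) (nat_lit 0) (.e (nat_lit 7936) (nat_lit 343) .nil))))))) (.g (nat_lit 5) .nil .nil))) 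
(.lf (nat_lit 69500) (.g (nat_lit 2170) (.e (nat_lit 1656) (nat_lit 115) (.e (nat_lit 393301) (nat_lit 27) (.e (nat_lit 491563) (nat_lit 12) (.e (nat_lit 385033) (nat_lit 16) .nil)))) .nil)))))) (.nd (nat_lit 2) (.nd (nat_lit 3) (.nd (nat_lit 4) (.nd (nat_lit 5) 
(.lf (nat_lit 69442) (.g (nat_lit 4211) (.e (nat_lit 1656) (nat_lit 115) (.e (nat_lit 393301) (nat_lit 27) (.e (nat_lit 491560) (nat_lit 10) (.e (nat_lit 344090) (nat_lit 18) (.e (nat_lit 7265) (nat_lit 384) (.e (nat_lit 57346) (nat_lit 0) (.e (nat_lit 6437) (nat_lit 343) .nil))))))) (.g (nat_lit 6) .nil .nil))) 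
(.lf (nat_lit 69474) (.g (nat_lit 3085) (.e (nat_lit 1656) (nat_lit 115) (.e (nat_lit 393301) (nat_lit 27) (.e (nat_lit 491560) (nat_lit 10) (.e (nat_lit 344097) (nat_lit 18) (.e (nat_lit 7249) (nat_lit 383) (.e (nat_lit 8202) (nat_lit 0) (.e (nat_lit 5293) (nat_lit 298) .nil))))))) (.g (nat_lit 4) .nil .nil)))) (.nd (nat_lit 5) 
(.lf (nat_lit 69458) (.g (nat_lit 3994) (.e (nat_lit 1656) (nat_lit 115) (.e (nat_lit 393301) (nat_lit 27) (.e (nat_lit 491560) (nat_lit 10) (.e (nat_lit 344094) (nat_lit 18) (.e (nat_lit 7265) (nat_lit 384) (.e (nat_lit 57347) (nat_lit 0) (.e (nat_lit 7936) (nat_lit 343) .nil))))))) (.g (nat_lit 6) .nil .nil))) 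
(.lf (nat_lit 69490) (.g (nat_lit 2379) (.e (nat_lit 1656) (nat_lit 115) (.e (nat_lit 393301) (nat_lit 27) (.e (nat_lit 491560) (nat_lit 10) (.e (nat_lit 344175) (nat_lit 43) .nil)))) .nil)))) (.nd (nat_lit 4) (.nd (nat_lit 5) 
(.lf (nat_lit 69450) (.g (nat_lit 3584) (.e (nat_lit 1656) (nat_lit 115) (.e (nat_lit 393301) (nat_lit 27) (.e (nat_lit 491560) (nat_lit 10) (.e (nat_lit 344091) (nat_lit 18) (.e (nat_lit 7265) (nat_lit 384) (.e (nat_lit 57347) (nat_lit 0) (.e (nat_lit 7936) (nat_lit 343) .nil))))))) (.g (nat_lit 5) .nil .nil))) 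
(.lf (nat_lit 69482) (.g (nat_lit 3523) (.e (nat_lit 1656) (nat_lit 115) (.e (nat_lit 393301) (nat_lit 27) (.e (nat_lit 491560) (nat_lit 10) (.e (nat_lit 344097) (nat_lit 18) (.e (nat_lit 7255) (nat_lit 383) (.e (nat_lit 16128) (nat_lit 0) (.e (nat_lit 5293) (nat_lit 298) .nil))))))) (.g (nat_lit 5) .nil .nil)))) (.nd (nat_lit 5) 
(.lf (nat_lit 69466) (.g (nat_lit 2974) (.e (nat_lit 1656) (nat_lit 115) (.e (nat_lit 393301) (nat_lit 27) (.e (nat_lit 491560) (nat_lit 10) (.e (nat_lit 344096) (nat_lit 18) (.e (nat_lit 7247) (nat_lit 383) (.e (nat_lit 16128) (nat_lit 0) (.e (nat_lit 5293) (nat_lit 298) .nil))))))) (.g (nat_lit 4) .nil .nil))) 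
(.lf (nat_lit 69498) (.g (nat_lit 2507) (.e (nat_lit 1656) (nat_lit 115) (.e (nat_lit 393301) (nat_lit 27) (.e (nat_lit 491562) (nat_lit 12) (.e (nat_lit 385039) (nat_lit 18) .nil)))) .nil))))) (.nd (nat_lit 3) (.nd (nat_lit 4) (.nd (nat_lit 5) 
(.lf (nat_lit 69446) (.g (nat_lit 2561) (.e (nat_lit 1656) (nat_lit 115) (.e (nat_lit 393301) (nat_lit 27) (.e (nat_lit 491560) (nat_lit 10) (.e (nat_lit 344091) (nat_lit 18) (.e (nat_lit 7247) (nat_lit 383) .nil))))) .nil)) 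
(.lf (nat_lit 69478) (.g (nat_lit 3061) (.e (nat_lit 1656) (nat_lit 115) (.e (nat_lit 393301) (nat_lit 27) (.e (nat_lit 491560) (nat_lit 10) (.e (nat_lit 344097) (nat_lit 18) (.e (nat_lit 7253) (nat_lit 383) (.e (nat_lit 16128) (nat_lit 0) (.e (nat_lit 5293) (nat_lit 298) .nil))))))) (.g (nat_lit 4) .nil .nil)))) (.nd (nat_lit 5) 
(.lf (nat_lit 69462) (.g (nat_lit 3988) (.e (nat_lit 1656) (nat_lit 115) (.e (nat_lit 393301) (nat_lit 27) (.e (nat_lit 491560) (nat_lit 10) (.e (nat_lit 344095) (nat_lit 18) (.e (nat_lit 7263) (nat_lit 384) (.e (nat_lit 57354) (nat_lit 0) (.e (nat_lit 7936) (nat_lit 343) .nil))))))) (.g (nat_lit 5) .nil .nil))) 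
(.lf (nat_lit 69494) (.g (nat_lit 2009) (.e (nat_lit 1656) (nat_lit 115) (.e (nat_lit 393301) (nat_lit 27) (.e (nat_lit 491560) (nat_lit 10) (.e (nat_lit 352000) (nat_lit 46) .nil)))) .nil)))) (.nd (nat_lit 4) (.nd (nat_lit 5) 
(.lf (nat_lit 69454) (.g (nat_lit 3911) (.e (nat_lit 1656) (nat_lit 115) (.e (nat_lit 393301) (nat_lit 27) (.e (nat_lit 491560) (nat_lit 10) (.e (nat_lit 344094) (nat_lit 18) (.e (nat_lit 7261) (nat_lit 384) (.e (nat_lit 57346) (nat_lit 0) (.e (nat_lit 6437) (nat_lit 343) .nil))))))) (.g (nat_lit 6) .nil .nil))) 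
(.lf (nat_lit 69486) (.g (nat_lit 1909) (.e (nat_lit 1656) (nat_lit 115) (.e (nat_lit 393301) (nat_lit 27) (.e (nat_lit 491560) (nat_lit 10) (.e (nat_lit 344099) (nat_lit 18) .nil)))) .nil))) (.nd (nat_lit 5) 
(.lf (nat_lit 69470) (.g (nat_lit 4045) (.e (nat_lit 1656) (nat_lit 115) (.e (nat_lit 393301) (nat_lit 27) (.e (nat_lit 491560) (nat_lit 10) (.e (nat_lit 344096) (nat_lit 18) (.e (nat_lit 7265) (nat_lit 384) (.e (nat_lit 57347) (nat_lit 0) (.e (nat_lit 7936) (nat_lit 343) .nil))))))) (.g (nat_lit 5) .nil .nil))) 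
(.lf (nat_lit 69502) (.g (nat_lit 2815) (.e (nat_lit 1656) (nat_lit 115) (.e (nat_lit 393301) (nat_lit 27) (.e (nat_lit 491563) (nat_lit 12) (.e (nat_lit 385037) (nat_lit 16) .nil)))) .nil))))))) (.nd (nat_lit 1) (.nd (nat_lit 2) (.nd (nat_lit 3) (.nd (nat_lit 4) (.nd (nat_lit 5) 
(.lf (nat_lit 69441) (.g (nat_lit 2516) (.e (nat_lit 1656) (nat_lit 115) (.e (nat_lit 393301) (nat_lit 27) (.e (nat_lit 491560) (nat_lit 10) (.e (nat_lit 344090) (nat_lit 18) (.e (nat_lit 7265) (nat_lit 384) .nil))))) .nil)) 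
(.lf (nat_lit 69473) (.g (nat_lit 2728) (.e (nat_lit 1656) (nat_lit 115) (.e (nat_lit 393301) (nat_lit 27) (.e (nat_lit 491560) (nat_lit 10) (.e (nat_lit 344097) (nat_lit 18) (.e (nat_lit 7249) (nat_lit 383) .nil))))) .nil))) (.nd (nat_lit 5) 
(.lf (nat_lit 69457) (.g (nat_lit 4063) (.e (nat_lit 1656) (nat_lit 115) (.e (nat_lit 393301) (nat_lit 27) (.e (nat_lit 491560) (nat_lit 10) (.e (nat_lit 344094) (nat_lit 18) (.e (nat_lit 7265) (nat_lit 384) (.e (nat_lit 57346) (nat_lit 0) (.e (nat_lit 6437) (nat_lit 343) .nil))))))) (.g (nat_lit 7) .nil .nil))) 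
(.lf (nat_lit 69489) (.g (nat_lit 2043) (.e (nat_lit 1656) (nat_lit 115) (.e (nat_lit 393301) (nat_lit 27) (.e (nat_lit 491560) (nat_lit 10) (.e (nat_lit 344174) (nat_lit 42) .nil)))) .nil)))) (.nd (nat_lit 4) (.nd (nat_lit 5) 
(.lf (nat_lit 69449) (.g (nat_lit 3671) (.e (nat_lit 1656) (nat_lit 115) (.e (nat_lit 393301) (nat_lit 27) (.e (nat_lit 491560) (nat_lit 10) (.e (nat_lit 344091) (nat_lit 18) (.e (nat_lit 7265) (nat_lit 384) (.e (nat_lit 57346) (nat_lit 0) (.e (nat_lit 6437) (nat_lit 343) .nil))))))) (.g (nat_lit 5) .nil .nil))) 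
(.lf (nat_lit 69481) (.g (nat_lit 4319) (.e (nat_lit 1656) (nat_lit 115) (.e (nat_lit 393301) (nat_lit 27) (.e (nat_lit 491560) (nat_lit 10) (.e (nat_lit 344097) (nat_lit 18) (.e (nat_lit 7255) (nat_lit 383) (.e (nat_lit 8202) (nat_lit 0) (.e (nat_lit 5277) (nat_lit 298) .nil))))))) (.g (nat_lit 6) .nil .nil)))) (.nd (nat_lit 5) 
(.lf (nat_lit 69465) (.g (nat_lit 2936) (.e (nat_lit 1656) (nat_lit 115) (.e (nat_lit 393301) (nat_lit 27) (.e (nat_lit 491560) (nat_lit 10) (.e (nat_lit 344096) (nat_lit 18) (.e (nat_lit 7247) (nat_lit 383) (.e (nat_lit 8202) (nat_lit 0) (.e (nat_lit 5293) (nat_lit 298) .nil))))))) (.g (nat_lit 4) .nil .nil))) 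
(.lf (nat_lit 69497) (.g (nat_lit 2556) (.e (nat_lit 1656) (nat_lit 115) (.e (nat_lit 393301) (nat_lit 27) (.e (nat_lit 491562) (nat_lit 12) (.e (nat_lit 385032) (nat_lit 16) .nil)))) .nil))))) (.nd (nat_lit 3) (.nd (nat_lit 4) (.nd (nat_lit 5) 
(.lf (nat_lit 69445) (.g (nat_lit 1964) (.e (nat_lit 1656) (nat_lit 115) (.e (nat_lit 393301) (nat_lit 27) (.e (nat_lit 491560) (nat_lit 10) (.e (nat_lit 344091) (nat_lit 18) .nil)))) .nil)) 
(.lf (nat_lit 69477) (.g (nat_lit 4171) (.e (nat_lit 1656) (nat_lit 115) (.e (nat_lit 393301) (nat_lit 27) (.e (nat_lit 491560) (nat_lit 10) (.e (nat_lit 344097) (nat_lit 18) (.e (nat_lit 7253) (nat_lit 383) (.e (nat_lit 8202) (nat_lit 0) (.e (nat_lit 5277) (nat_lit 298) .nil))))))) (.g (nat_lit 6) .nil .nil)))) (.nd (nat_lit 5) 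
(.lf (nat_lit 69461) (.g (nat_lit 3882) (.e (nat_lit 1656) (nat_lit 115) (.e (nat_lit 393301) (nat_lit 27) (.e (nat_lit 491560) (nat_lit 10) (.e (nat_lit 344095) (nat_lit 18) (.e (nat_lit 7261) (nat_lit 384) (.e (nat_lit 57346) (nat_lit 0) (.e (nat_lit 6437) (nat_lit 343) .nil))))))) (.g (nat_lit 5) .nil .nil))) 
(.lf (nat_lit 69493) (.g (nat_lit 2497) (.e (nat_lit 1656) (nat_lit 115) (.e (nat_lit 393301) (nat_lit 27) (.e (nat_lit 491560) (nat_lit 10) (.e (nat_lit 344179) (nat_lit 44) .nil)))) .nil)))) (.nd (nat_lit 4) (.nd (nat_lit 5) 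
(.lf (nat_lit 69453) (.g (nat_lit 1977) (.e (nat_lit 1656) (nat_lit 115) (.e (nat_lit 393301) (nat_lit 27) (.e (nat_lit 491560) (nat_lit 10) (.e (nat_lit 344094) (nat_lit 18) .nil)))) .nil)) 
(.lf (nat_lit 69485) (.g (nat_lit 2818) (.e (nat_lit 1656) (nat_lit 115) (.e (nat_lit 393301) (nat_lit 27) (.e (nat_lit 491560) (nat_lit 10) (.e (nat_lit 344098) (nat_lit 18) .nil)))) .nil))) (.nd (nat_lit 5) 
(.lf (nat_lit 69469) (.g (nat_lit 4133) (.e (nat_lit 1656) (nat_lit 115) (.e (nat_lit 393301) (nat_lit 27) (.e (nat_lit 491560) (nat_lit 10) (.e (nat_lit 344096) (nat_lit 18) (.e (nat_lit 7265) (nat_lit 384) (.e (nat_lit 57346) (nat_lit 0) (.e (nat_lit 6437) (nat_lit 343) .nil))))))) (.g (nat_lit 5) .nil .nil))) 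
(.lf (nat_lit 69501) (.g (nat_lit 2190) (.e (nat_lit 1656) (nat_lit 115) (.e (nat_lit 393301) (nat_lit 27) (.e (nat_lit 491563) (nat_lit 12) (.e (nat_lit 385034) (nat_lit 16) .nil)))) .nil)))))) (.nd (nat_lit 2) (.nd (nat_lit 3) (.nd (nat_lit 4) (.nd (nat_lit 5) 
(.lf (nat_lit 69443) (.g (nat_lit 3890) (.e (nat_lit 1656) (nat_lit 115) (.e (nat_lit 393301) (nat_lit 27) (.e (nat_lit 491560) (nat_lit 10) (.e (nat_lit 344090) (nat_lit 18) (.e (nat_lit 7265) (nat_lit 384) (.e (nat_lit 57347) (nat_lit 0) (.e (nat_lit 7936) (nat_lit 343) .nil))))))) (.g (nat_lit 5) .nil .nil))) 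
(.lf (nat_lit 69475) (.g (nat_lit 3688) (.e (nat_lit 1656) (nat_lit 115) (.e (nat_lit 393301) (nat_lit 27) (.e (nat_lit 491560) (nat_lit 10) (.e (nat_lit 344097) (nat_lit 18) (.e (nat_lit 7252) (nat_lit 383) (.e (nat_lit 8202) (nat_lit 0) (.e (nat_lit 5277) (nat_lit 298) .nil))))))) (.g (nat_lit 4) .nil .nil)))) (.nd (nat_lit 5) 
(.lf (nat_lit 69459) (.g (nat_lit 4565) (.e (nat_lit 1656) (nat_lit 115) (.e (nat_lit 393301) (nat_lit 27) (.e (nat_lit 491560) (nat_lit 10) (.e (nat_lit 344094) (nat_lit 18) (.e (nat_lit 7265) (nat_lit 384) (.e (nat_lit 57354) (nat_lit 0) (.e (nat_lit 7936) (nat_lit 343) .nil))))))) (.g (nat_lit 6) .nil .nil))) 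
(.lf (nat_lit 69491) (.g (nat_lit 1865) (.e (nat_lit 1656) (nat_lit 115) (.e (nat_lit 393301) (nat_lit 27) (.e (nat_lit 491560) (nat_lit 10) (.e (nat_lit 344177) (nat_lit 43) .nil)))) .nil)))) (.nd (nat_lit 4) (.nd (nat_lit 5) 
(.lf (nat_lit 69451) (.g (nat_lit 4035) (.e (nat_lit 1656) (nat_lit 115) (.e (nat_lit 393301) (nat_lit 27) (.e (nat_lit 491560) (nat_lit 10) (.e (nat_lit 344091) (nat_lit 18) (.e (nat_lit 7265) (nat_lit 384) (.e (nat_lit 57354) (nat_lit 0) (.e (nat_lit 7936) (nat_lit 343) .nil))))))) (.g (nat_lit 6) .nil .nil))) 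
(.lf (nat_lit 69483) (.g (nat_lit 2870) (.e (nat_lit 1656) (nat_lit 115) (.e (nat_lit 393301) (nat_lit 27) (.e (nat_lit 491560) (nat_lit 10) (.e (nat_lit 344097) (nat_lit 18) (.e (nat_lit 7270) (nat_lit 385) (.e (nat_lit 122883) (nat_lit 0) (.e (nat_lit 7936) (nat_lit 343) .nil))))))) (.g (nat_lit 4) .nil .nil)))) (.nd (nat_lit 5) 
(.lf (nat_lit 69467) (.g (nat_lit 4121) (.e (nat_lit 1656) (nat_lit 115) (.e (nat_lit 393301) (nat_lit 27) (.e (nat_lit 491560) (nat_lit 10) (.e (nat_lit 344096) (nat_lit 18) (.e (nat_lit 7261) (nat_lit 384) (.e (nat_lit 57346) (nat_lit 0) (.e (nat_lit 6437) (nat_lit 343) .nil))))))) (.g (nat_lit 5) .nil .nil))) 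
(.lf (nat_lit 69499) (.g (nat_lit 2076) (.e (nat_lit 1656) (nat_lit 115) (.e (nat_lit 393301) (nat_lit 27) (.e (nat_lit 491563) (nat_lit 12) (.e (nat_lit 385032) (nat_lit 16) .nil)))) .nil))))) (.nd (nat_lit 3) (.nd (nat_lit 4) (.nd (nat_lit 5) 
(.lf (nat_lit 69447) (.g (nat_lit 3692) (.e (nat_lit 1656) (nat_lit 115) (.e (nat_lit 393301) (nat_lit 27) (.e (nat_lit 491560) (nat_lit 10) (.e (nat_lit 344091) (nat_lit 18) (.e (nat_lit 7261) (nat_lit 384) (.e (nat_lit 57346) (nat_lit 0) (.e (nat_lit 6437) (nat_lit 343) .nil))))))) (.g (nat_lit 5) .nil .nil))) 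
(.lf (nat_lit 69479) (.g (nat_lit 3682) (.e (nat_lit 1656) (nat_lit 115) (.e (nat_lit 393301) (nat_lit 27) (.e (nat_lit 491560) (nat_lit 10) (.e (nat_lit 344097) (nat_lit 18) (.e (nat_lit 7254) (nat_lit 383) (.e (nat_lit 8202) (nat_lit 0) (.e (nat_lit 5277) (nat_lit 298) .nil))))))) (.g (nat_lit 4) .nil .nil)))) (.nd (nat_lit 5) 
(.lf (nat_lit 69463) (.g (nat_lit 2176) (.e (nat_lit 1656) (nat_lit 115) (.e (nat_lit 393301) (nat_lit 27) (.e (nat_lit 491560) (nat_lit 10) (.e (nat_lit 344096) (nat_lit 18) .nil)))) .nil)) 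
(.lf (nat_lit 69495) (.g (nat_lit 2009) (.e (nat_lit 1656) (nat_lit 115) (.e (nat_lit 393301) (nat_lit 27) (.e (nat_lit 491560) (nat_lit 10) (.e (nat_lit 352000) (nat_lit 47) .nil)))) .nil)))) (.nd (nat_lit 4) (.nd (nat_lit 5) 
(.lf (nat_lit 69455) (.g (nat_lit 2293) (.e (nat_lit 1656) (nat_lit 115) (.e (nat_lit 393301) (nat_lit 27) (.e (nat_lit 491560) (nat_lit 10) (.e (nat_lit 344094) (nat_lit 18) (.e (nat_lit 7263) (nat_lit 384) .nil))))) .nil)) 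
(.lf (nat_lit 69487) (.g (nat_lit 2818) (.e (nat_lit 1656) (nat_lit 115) (.e (nat_lit 393301) (nat_lit 27) (.e (nat_lit 491560) (nat_lit 10) (.e (nat_lit 344101) (nat_lit 18) .nil)))) .nil))) (.nd (nat_lit 5) 
(.lf (nat_lit 69471) (.g (nat_lit 4612) (.e (nat_lit 1656) (nat_lit 115) (.e (nat_lit 393301) (nat_lit 27) (.e (nat_lit 491560) (nat_lit 10) (.e (nat_lit 344096) (nat_lit 18) (.e (nat_lit 7265) (nat_lit 384) (.e (nat_lit 57354) (nat_lit 0) (.e (nat_lit 7936) (nat_lit 343) .nil))))))) (.g (nat_lit 6) .nil .nil))) 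
(.lf (nat_lit 69503) (.g (nat_lit 2458) (.e (nat_lit 1656) (nat_lit 115) (.e (nat_lit 393301) (nat_lit 27) (.e (nat_lit 491563) (nat_lit 12) (.e (nat_lit 385038) (nat_lit 16) .nil)))) .nil))))))))

noncomputable def tv953 : DT := (.nd (nat_lit 0) (.nd (nat_lit 1) (.nd (nat_lit 2) (.nd (nat_lit 3) (.nd (nat_lit 4) (.nd (nat_lit 5) (.nd (nat_lit 6) 
(.lf (nat_lit 69504) (.g (nat_lit 2136) (.e (nat_lit 1656) (nat_lit 115) (.e (nat_lit 393301) (nat_lit 27) (.e (nat_lit 491563) (nat_lit 12) (.e (nat_lit 385039) (nat_lit 18) .nil)))) .nil)) 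
(.lf (nat_lit 69568) (.g (nat_lit 1758) (.e (nat_lit 1658) (nat_lit 115) (.e (nat_lit 393229) (nat_lit 9) (.e (nat_lit 336087) (nat_lit 9) (.e (nat_lit 336019) (nat_lit 3) (.e (nat_lit 98334) (nat_lit 18) (.e (nat_lit 164159) (nat_lit 152) (.e (nat_lit 982) (nat_lit 81) .nil))))))) (.g (nat_lit 4) .nil .nil)))) (.nd (nat_lit 6) 
(.lf (nat_lit 69536) (.g (nat_lit 1257) (.e (nat_lit 1657) (nat_lit 115) (.e (nat_lit 393271) (nat_lit 23) (.e (nat_lit 426131) (nat_lit 3) .nil))) .nil)) 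
(.lf (nat_lit 69600) (.g (nat_lit 602) (.e (nat_lit 1658) (nat_lit 115) (.e (nat_lit 393234) (nat_lit 17) (.e (nat_lit 7581) (nat_lit 405) .nil))) .nil)))) (.nd (nat_lit 5) (.nd (nat_lit 6) 
(.lf (nat_lit 69520) (.g (nat_lit 2017) (.e (nat_lit 1656) (nat_lit 115) (.e (nat_lit 393301) (nat_lit 27) (.e (nat_lit 491568) (nat_lit 13) (.e (nat_lit 393245) (nat_lit 17) .nil)))) .nil)) 
(.lf (nat_lit 69584) (.g (nat_lit 2053) (.e (nat_lit 1658) (nat_lit 115) (.e (nat_lit 393229) (nat_lit 9) (.e (nat_lit 336184) (nat_lit 11) (.e (nat_lit 368676) (nat_lit 21) (.e (nat_lit 516117) (nat_lit 1) (.e (nat_lit 164159) (nat_lit 152) (.e (nat_lit 1025) (nat_lit 81) .nil))))))) (.g (nat_lit 5) .nil .nil)))) (.nd (nat_lit 6) 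
(.lf (nat_lit 69552) (.g (nat_lit 2341) (.e (nat_lit 1657) (nat_lit 115) (.e (nat_lit 393298) (nat_lit 27) (.e (nat_lit 491571) (nat_lit 13) (.e (nat_lit 393242) (nat_lit 17) .nil)))) .nil)) 
(.lf (nat_lit 69616) (.g (nat_lit 512) (.e (nat_lit 1658) (nat_lit 115) (.e (nat_lit 393238) (nat_lit 17) (.e (nat_lit 7107) (nat_lit 380) .nil))) .nil))))) (.nd (nat_lit 4) (.nd (nat_lit 5) (.nd (nat_lit 6) 
(.lf (nat_lit 69512) (.g (nat_lit 2947) (.e (nat_lit 1656) (nat_lit 115) (.e (nat_lit 393301) (nat_lit 27) (.e (nat_lit 491568) (nat_lit 13) (.e (nat_lit 393233) (nat_lit 17) (.e (nat_lit 7491) (nat_lit 402) .nil))))) (.g (nat_lit 4) .nil .nil))) 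
(.lf (nat_lit 69576) (.g (nat_lit 2051) (.e (nat_lit 1658) (nat_lit 115) (.e (nat_lit 393229) (nat_lit 9) (.e (nat_lit 336088) (nat_lit 9) (.e (nat_lit 336019) (nat_lit 3) (.e (nat_lit 98334) (nat_lit 18) (.e (nat_lit 164159) (nat_lit 152) (.e (nat_lit 1038) (nat_lit 81) .nil))))))) (.g (nat_lit 4) .nil .nil)))) (.nd (nat_lit 6) 
(.lf (nat_lit 69544) (.g (nat_lit 1445) (.e (nat_lit 1657) (nat_lit 115) (.e (nat_lit 393294) (nat_lit 26) (.e (nat_lit 475199) (nat_lit 40) (.e (nat_lit 704595) (nat_lit 5) .nil)))) .nil)) 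
(.lf (nat_lit 69608) (.g (nat_lit 2128) (.e (nat_lit 1658) (nat_lit 115) (.e (nat_lit 393234) (nat_lit 17) (.e (nat_lit 7581) (nat_lit 405) (.e (nat_lit 57480) (nat_lit 28) (.e (nat_lit 557105) (nat_lit 14) (.e (nat_lit 180264) (nat_lit 21) (.e (nat_lit 663561) (nat_lit 0) .nil))))))) (.g (nat_lit 4) .nil .nil))))) (.nd (nat_lit 5) (.nd (nat_lit 6) 
(.lf (nat_lit 69528) (.g (nat_lit 659) (.e (nat_lit 1657) (nat_lit 115) (.e (nat_lit 393234) (nat_lit 17) (.e (nat_lit 7581) (nat_lit 405) .nil))) .nil)) 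
(.lf (nat_lit 69592) (.g (nat_lit 2181) (.e (nat_lit 1658) (nat_lit 115) (.e (nat_lit 393229) (nat_lit 9) (.e (nat_lit 336186) (nat_lit 11) (.e (nat_lit 368676) (nat_lit 21) (.e (nat_lit 516117) (nat_lit 1) (.e (nat_lit 164159) (nat_lit 152) (.e (nat_lit 1022) (nat_lit 81) .nil))))))) (.g (nat_lit 5) .nil .nil)))) (.nd (nat_lit 6) 
(.lf (nat_lit 69560) (.g (nat_lit 741) (.e (nat_lit 1657) (nat_lit 115) (.e (nat_lit 393301) (nat_lit 27) (.e (nat_lit 491552) (nat_lit 9) .nil))) .nil)) 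
(.lf (nat_lit 69624) (.g (nat_lit 2748) (.e (nat_lit 1658) (nat_lit 115) (.e (nat_lit 393251) (nat_lit 18) (.e (nat_lit 164179) (nat_lit 154) (.e (nat_lit 57421) (nat_lit 13) (.e (nat_lit 344132) (nat_lit 26) (.e (nat_lit 557094) (nat_lit 12) (.e (nat_lit 164238) (nat_lit 187) .nil))))))) (.g (nat_lit 4) .nil .nil))))))) (.nd (nat_lit 3) (.nd (nat_lit 4) (.nd (nat_lit 5) (.nd (nat_lit 6) 
(.lf (nat_lit 69508) (.g (nat_lit 2583) (.e (nat_lit 1656) (nat_lit 115) (.e (nat_lit 393301) (nat_lit 27) (.e (nat_lit 491568) (nat_lit 13) (.e (nat_lit 393230) (nat_lit 17) (.e (nat_lit 7491) (nat_lit 402) .nil))))) (.g (nat_lit 4) .nil .nil))) 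
(.lf (nat_lit 69572) (.g (nat_lit 1822) (.e (nat_lit 1658) (nat_lit 115) (.e (nat_lit 393229) (nat_lit 9) (.e (nat_lit 336087) (nat_lit 9) (.e (nat_lit 336019) (nat_lit 3) (.e (nat_lit 98335) (nat_lit 18) (.e (nat_lit 164161) (nat_lit 152) (.e (nat_lit 1032) (nat_lit 81) .nil))))))) (.g (nat_lit 4) .nil .nil)))) (.nd (nat_lit 6) 
(.lf (nat_lit 69540) (.g (nat_lit 1878) (.e (nat_lit 1657) (nat_lit 115) (.e (nat_lit 393293) (nat_lit 26) (.e (nat_lit 475198) (nat_lit 40) (.e (nat_lit 704595) (nat_lit 5) (.e (nat_lit 188160) (nat_lit 32) .nil))))) (.g (nat_lit 4) .nil .nil))) 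
(.lf (nat_lit 69604) (.g (nat_lit 2512) (.e (nat_lit 1658) (nat_lit 115) (.e (nat_lit 393234) (nat_lit 17) (.e (nat_lit 7581) (nat_lit 405) (.e (nat_lit 57477) (nat_lit 28) (.e (nat_lit 557104) (nat_lit 14) (.e (nat_lit 180265) (nat_lit 21) (.e (nat_lit 663555) (nat_lit 0) .nil))))))) (.g (nat_lit 5) .nil .nil))))) (.nd (nat_lit 5) (.nd (nat_lit 6) 
(.lf (nat_lit 69524) (.g (nat_lit 801) (.e (nat_lit 1657) (nat_lit 115) (.e (nat_lit 393225) (nat_lit 9) (.e (nat_lit 336194) (nat_lit 12) .nil))) .nil)) 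
(.lf (nat_lit 69588) (.g (nat_lit 1480) (.e (nat_lit 1658) (nat_lit 115) (.e (nat_lit 393229) (nat_lit 9) (.e (nat_lit 336186) (nat_lit 11) (.e (nat_lit 368676) (nat_lit 21) (.e (nat_lit 516115) (nat_lit 1) (.e (nat_lit 164151) (nat_lit 152) (.e (nat_lit 1062) (nat_lit 81) .nil))))))) (.g (nat_lit 4) .nil .nil)))) (.nd (nat_lit 6) 
(.lf (nat_lit 69556) (.g (nat_lit 452) (.e (nat_lit 1657) (nat_lit 115) (.e (nat_lit 393300) (nat_lit 27) (.e (nat_lit 491568) (nat_lit 13) .nil))) .nil)) 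
(.lf (nat_lit 69620) (.g (nat_lit 2301) (.e (nat_lit 1658) (nat_lit 115) (.e (nat_lit 393251) (nat_lit 18) (.e (nat_lit 164179) (nat_lit 154) (.e (nat_lit 57420) (nat_lit 13) (.e (nat_lit 344132) (nat_lit 26) .nil))))) .nil))))) (.nd (nat_lit 4) (.nd (nat_lit 5) (.nd (nat_lit 6) 
(.lf (nat_lit 69516) (.g (nat_lit 2008) (.e (nat_lit 1656) (nat_lit 115) (.e (nat_lit 393301) (nat_lit 27) (.e (nat_lit 491568) (nat_lit 13) (.e (nat_lit 393237) (nat_lit 17) .nil)))) .nil)) 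
(.lf (nat_lit 69580) (.g (nat_lit 1829) (.e (nat_lit 1658) (nat_lit 115) (.e (nat_lit 393229) (nat_lit 9) (.e (nat_lit 336184) (nat_lit 11) (.e (nat_lit 368676) (nat_lit 21) (.e (nat_lit 516115) (nat_lit 1) (.e (nat_lit 164151) (nat_lit 152) (.e (nat_lit 1073) (nat_lit 81) .nil))))))) (.g (nat_lit 5) .nil .nil)))) (.nd (nat_lit 6) 
(.lf (nat_lit 69548) (.g (nat_lit 2134) (.e (nat_lit 1657) (nat_lit 115) (.e (nat_lit 393298) (nat_lit 27) (.e (nat_lit 491550) (nat_lit 9) (.e (nat_lit 336421) (nat_lit 28) .nil)))) .nil)) 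
(.lf (nat_lit 69612) (.g (nat_lit 1579) (.e (nat_lit 1658) (nat_lit 115) (.e (nat_lit 393234) (nat_lit 17) (.e (nat_lit 7583) (nat_lit 405) (.e (nat_lit 57476) (nat_lit 28) (.e (nat_lit 557104) (nat_lit 14) (.e (nat_lit 180265) (nat_lit 21) (.e (nat_lit 663555) (nat_lit 0) .nil))))))) (.g (nat_lit 4) .nil .nil))))) (.nd (nat_lit 5) (.nd (nat_lit 6) 
(.lf (nat_lit 69532) (.g (nat_lit 1440) (.e (nat_lit 1657) (nat_lit 115) (.e (nat_lit 393260) (nat_lit 21) (.e (nat_lit 409646) (nat_lit 18) (.e (nat_lit 303154) (nat_lit 28) .nil)))) .nil)) 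
(.lf (nat_lit 69596) (.g (nat_lit 1751) (.e (nat_lit 1658) (nat_lit 115) (.e (nat_lit 393229) (nat_lit 9) (.e (nat_lit 336186) (nat_lit 11) (.e (nat_lit 368676) (nat_lit 21) (.e (nat_lit 516117) (nat_lit 1) (.e (nat_lit 164159) (nat_lit 152) (.e (nat_lit 1047) (nat_lit 81) .nil))))))) (.g (nat_lit 4) .nil .nil)))) (.nd (nat_lit 6) 
(.lf (nat_lit 69564) (.g (nat_lit 2351) (.e (nat_lit 1658) (nat_lit 115) (.e (nat_lit 393225) (nat_lit 9) (.e (nat_lit 336204) (nat_lit 12) (.e (nat_lit 385074) (nat_lit 31) (.e (nat_lit 573475) (nat_lit 12) .nil))))) .nil)) 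
(.lf (nat_lit 69628) (.g (nat_lit 626) (.e (nat_lit 1658) (nat_lit 115) (.e (nat_lit 393252) (nat_lit 18) (.e (nat_lit 164161) (nat_lit 152) .nil))) .nil))))))) (.nd (nat_lit 2) (.nd (nat_lit 3) (.nd (nat_lit 4) (.nd (nat_lit 5) (.nd (nat_lit 6) 
(.lf (nat_lit 69506) (.g (nat_lit 2758) (.e (nat_lit 1656) (nat_lit 115) (.e (nat_lit 393301) (nat_lit 27) (.e (nat_lit 491567) (nat_lit 13) (.e (nat_lit 393233) (nat_lit 17) (.e (nat_lit 7491) (nat_lit 402) .nil))))) (.g (nat_lit 4) .nil .nil))) 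
(.lf (nat_lit 69570) (.g (nat_lit 1741) (.e (nat_lit 1658) (nat_lit 115) (.e (nat_lit 393229) (nat_lit 9) (.e (nat_lit 336087) (nat_lit 9) (.e (nat_lit 336019) (nat_lit 3) (.e (nat_lit 98334) (nat_lit 18) (.e (nat_lit 164159) (nat_lit 152) (.e (nat_lit 1032) (nat_lit 81) .nil))))))) (.g (nat_lit 4) .nil .nil)))) (.nd (nat_lit 6) 
(.lf (nat_lit 69538) (.g (nat_lit 1451) (.e (nat_lit 1657) (nat_lit 115) (.e (nat_lit 393273) (nat_lit 23) (.e (nat_lit 426364) (nat_lit 15) (.e (nat_lit 2160) (nat_lit 143) (.e (nat_lit 712749) (nat_lit 28) .nil))))) .nil)) 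
(.lf (nat_lit 69602) (.g (nat_lit 2348) (.e (nat_lit 1658) (nat_lit 115) (.e (nat_lit 393234) (nat_lit 17) (.e (nat_lit 7581) (nat_lit 405) (.e (nat_lit 57476) (nat_lit 28) (.e (nat_lit 557104) (nat_lit 14) (.e (nat_lit 180265) (nat_lit 21) (.e (nat_lit 663555) (nat_lit 0) .nil))))))) (.g (nat_lit 4) .nil .nil))))) (.nd (nat_lit 5) (.nd (nat_lit 6) 
(.lf (nat_lit 69522) (.g (nat_lit 1994) (.e (nat_lit 1656) (nat_lit 115) (.e (nat_lit 393301) (nat_lit 27) (.e (nat_lit 491568) (nat_lit 13) (.e (nat_lit 393252) (nat_lit 18) .nil)))) .nil)) 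
(.lf (nat_lit 69586) (.g (nat_lit 1450) (.e (nat_lit 1658) (nat_lit 115) (.e (nat_lit 393229) (nat_lit 9) (.e (nat_lit 336184) (nat_lit 11) (.e (nat_lit 368676) (nat_lit 21) (.e (nat_lit 516117) (nat_lit 1) (.e (nat_lit 164159) (nat_lit 152) (.e (nat_lit 1032) (nat_lit 81) .nil))))))) (.g (nat_lit 4) .nil .nil)))) (.nd (nat_lit 6) 
(.lf (nat_lit 69554) (.g (nat_lit 1606) (.e (nat_lit 1657) (nat_lit 115) (.e (nat_lit 393300) (nat_lit 27) (.e (nat_lit 491549) (nat_lit 9) (.e (nat_lit 336414) (nat_lit 27) .nil)))) .nil)) 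
(.lf (nat_lit 69618) (.g (nat_lit 1141) (.e (nat_lit 1658) (nat_lit 115) (.e (nat_lit 393251) (nat_lit 18) (.e (nat_lit 164151) (nat_lit 152) .nil))) .nil))))) (.nd (nat_lit 4) (.nd (nat_lit 5) (.nd (nat_lit 6) 
(.lf (nat_lit 69514) (.g (nat_lit 4196) (.e (nat_lit 1656) (nat_lit 115) (.e (nat_lit 393301) (nat_lit 27) (.e (nat_lit 491568) (nat_lit 13) (.e (nat_lit 393234) (nat_lit 17) (.e (nat_lit 7536) (nat_lit 402) .nil))))) (.g (nat_lit 0) .nil .nil))) 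
(.lf (nat_lit 69578) (.g (nat_lit 2010) (.e (nat_lit 1658) (nat_lit 115) (.e (nat_lit 393229) (nat_lit 9) (.e (nat_lit 336088) (nat_lit 9) (.e (nat_lit 336019) (nat_lit 3) (.e (nat_lit 98334) (nat_lit 18) (.e (nat_lit 164159) (nat_lit 152) (.e (nat_lit 1048) (nat_lit 81) .nil))))))) (.g (nat_lit 4) .nil .nil)))) (.nd (nat_lit 6) 
(.lf (nat_lit 69546) (.g (nat_lit 1011) (.e (nat_lit 1657) (nat_lit 115) (.e (nat_lit 393296) (nat_lit 26) (.e (nat_lit 475207) (nat_lit 41) .nil))) .nil)) 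
(.lf (nat_lit 69610) (.g (nat_lit 4400) (.e (nat_lit 1658) (nat_lit 115) (.e (nat_lit 393234) (nat_lit 17) (.e (nat_lit 7581) (nat_lit 405) (.e (nat_lit 57480) (nat_lit 28) (.e (nat_lit 557105) (nat_lit 14) (.e (nat_lit 180265) (nat_lit 21) (.e (nat_lit 663555) (nat_lit 0) .nil))))))) (.g (nat_lit 0) .nil .nil))))) (.nd (nat_lit 5) (.nd (nat_lit 6) 
(.lf (nat_lit 69530) (.g (nat_lit 631) (.e (nat_lit 1657) (nat_lit 115) (.e (nat_lit 393234) (nat_lit 17) (.e (nat_lit 7587) (nat_lit 406) .nil))) .nil)) 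
(.lf (nat_lit 69594) (.g (nat_lit 1617) (.e (nat_lit 1658) (nat_lit 115) (.e (nat_lit 393229) (nat_lit 9) (.e (nat_lit 336186) (nat_lit 11) (.e (nat_lit 368676) (nat_lit 21) (.e (nat_lit 516117) (nat_lit 1) (.e (nat_lit 164159) (nat_lit 152) (.e (nat_lit 1027) (nat_lit 81) .nil))))))) (.g (nat_lit 4) .nil .nil)))) (.nd (nat_lit 6) 
(.lf (nat_lit 69562) (.g (nat_lit 1028) (.e (nat_lit 1657) (nat_lit 115) (.e (nat_lit 393301) (nat_lit 27) (.e (nat_lit 491568) (nat_lit 13) .nil))) .nil)) 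
(.lf (nat_lit 69626) (.g (nat_lit 1893) (.e (nat_lit 1658) (nat_lit 115) (.e (nat_lit 393251) (nat_lit 18) (.e (nat_lit 164183) (nat_lit 154) (.e (nat_lit 57420) (nat_lit 13) .nil)))) .nil)))))) (.nd (nat_lit 3) (.nd (nat_lit 4) (.nd (nat_lit 5) (.nd (nat_lit 6) 
(.lf (nat_lit 69510) (.g (nat_lit 2939) (.e (nat_lit 1656) (nat_lit 115) (.e (nat_lit 393301) (nat_lit 27) (.e (nat_lit 491568) (nat_lit 13) (.e (nat_lit 393232) (nat_lit 17) (.e (nat_lit 7491) (nat_lit 402) .nil))))) (.g (nat_lit 4) .nil .nil))) 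
(.lf (nat_lit 69574) (.g (nat_lit 1790) (.e (nat_lit 1658) (nat_lit 115) (.e (nat_lit 393229) (nat_lit 9) (.e (nat_lit 336088) (nat_lit 9) (.e (nat_lit 336019) (nat_lit 3) (.e (nat_lit 98334) (nat_lit 18) .nil))))) .nil))) (.nd (nat_lit 6) 
(.lf (nat_lit 69542) (.g (nat_lit 405) (.e (nat_lit 1657) (nat_lit 115) (.e (nat_lit 393293) (nat_lit 26) (.e (nat_lit 475205) (nat_lit 40) .nil))) .nil)) 
(.lf (nat_lit 69606) (.g (nat_lit 2198) (.e (nat_lit 1658) (nat_lit 115) (.e (nat_lit 393234) (nat_lit 17) (.e (nat_lit 7581) (nat_lit 405) (.e (nat_lit 57480) (nat_lit 28) (.e (nat_lit 557103) (nat_lit 14) (.e (nat_lit 180263) (nat_lit 21) (.e (nat_lit 663556) (nat_lit 0) .nil))))))) (.g (nat_lit 4) .nil .nil))))) (.nd (nat_lit 5) (.nd (nat_lit 6) 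
(.lf (nat_lit 69526) (.g (nat_lit 2467) (.e (nat_lit 1657) (nat_lit 115) (.e (nat_lit 393225) (nat_lit 9) (.e (nat_lit 336204) (nat_lit 12) (.e (nat_lit 385074) (nat_lit 31) (.e (nat_lit 573473) (nat_lit 12) .nil))))) .nil)) 
(.lf (nat_lit 69590) (.g (nat_lit 1562) (.e (nat_lit 1658) (nat_lit 115) (.e (nat_lit 393229) (nat_lit 9) (.e (nat_lit 336186) (nat_lit 11) (.e (nat_lit 368676) (nat_lit 21) (.e (nat_lit 516115) (nat_lit 1) (.e (nat_lit 164151) (nat_lit 152) (.e (nat_lit 1089) (nat_lit 81) .nil))))))) (.g (nat_lit 4) .nil .nil)))) (.nd (nat_lit 6) 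
(.lf (nat_lit 69558) (.g (nat_lit 1483) (.e (nat_lit 1657) (nat_lit 115) (.e (nat_lit 393300) (nat_lit 27) (.e (nat_lit 491570) (nat_lit 13) (.e (nat_lit 393238) (nat_lit 17) .nil)))) .nil)) 
(.lf (nat_lit 69622) (.g (nat_lit 2094) (.e (nat_lit 1658) (nat_lit 115) (.e (nat_lit 393251) (nat_lit 18) (.e (nat_lit 164179) (nat_lit 154) (.e (nat_lit 57421) (nat_lit 13) .nil)))) .nil))))) (.nd (nat_lit 4) (.nd (nat_lit 5) (.nd (nat_lit 6) 
(.lf (nat_lit 69518) (.g (nat_lit 2621) (.e (nat_lit 1656) (nat_lit 115) (.e (nat_lit 393301) (nat_lit 27) (.e (nat_lit 491568) (nat_lit 13) (.e (nat_lit 393238) (nat_lit 17) (.e (nat_lit 7936) (nat_lit 402) .nil))))) (.g (nat_lit 4) .nil .nil))) 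
(.lf (nat_lit 69582) (.g (nat_lit 1411) (.e (nat_lit 1658) (nat_lit 115) (.e (nat_lit 393229) (nat_lit 9) (.e (nat_lit 336184) (nat_lit 11) (.e (nat_lit 368676) (nat_lit 21) (.e (nat_lit 516117) (nat_lit 1) (.e (nat_lit 164159) (nat_lit 152) (.e (nat_lit 982) (nat_lit 81) .nil))))))) (.g (nat_lit 4) .nil .nil)))) (.nd (nat_lit 6) 
(.lf (nat_lit 69550) (.g (nat_lit 2341) (.e (nat_lit 1657) (nat_lit 115) (.e (nat_lit 393298) (nat_lit 27) (.e (nat_lit 491571) (nat_lit 13) (.e (nat_lit 393235) (nat_lit 17) .nil)))) .nil)) 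
(.lf (nat_lit 69614) (.g (nat_lit 1662) (.e (nat_lit 1658) (nat_lit 115) (.e (nat_lit 393238) (nat_lit 17) (.e (nat_lit 6989) (nat_lit 377) (.e (nat_lit 2777) (nat_lit 178) .nil)))) .nil)))) (.nd (nat_lit 5) (.nd (nat_lit 6) 
(.lf (nat_lit 69534) (.g (nat_lit 2028) (.e (nat_lit 1657) (nat_lit 115) (.e (nat_lit 393260) (nat_lit 21) (.e (nat_lit 409648) (nat_lit 18) (.e (nat_lit 303152) (nat_lit 27) .nil)))) .nil)) 
(.lf (nat_lit 69598) (.g (nat_lit 625) (.e (nat_lit 1658) (nat_lit 115) (.e (nat_lit 393234) (nat_lit 17) (.e (nat_lit 3555) (nat_lit 220) .nil))) .nil))) (.nd (nat_lit 6) 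
(.lf (nat_lit 69566) (.g (nat_lit 2580) (.e (nat_lit 1658) (nat_lit 115) (.e (nat_lit 393229) (nat_lit 9) (.e (nat_lit 336087) (nat_lit 9) (.e (nat_lit 336019) (nat_lit 3) (.e (nat_lit 98333) (nat_lit 18) (.e (nat_lit 164151) (nat_lit 152) (.e (nat_lit 1073) (nat_lit 81) .nil))))))) (.g (nat_lit 5) .nil .nil))) 
(.lf (nat_lit 69630) (.g (nat_lit 1192) (.e (nat_lit 1658) (nat_lit 115) (.e (nat_lit 393253) (nat_lit 18) (.e (nat_lit 164150) (nat_lit 152) (.e (nat_lit 1206) (nat_lit 89) .nil)))) .nil)))))))) (.nd (nat_lit 1) (.nd (nat_lit 2) (.nd (nat_lit 3) (.nd (nat_lit 4) (.nd (nat_lit 5) (.nd (nat_lit 6) 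
(.lf (nat_lit 69505) (.g (nat_lit 2613) (.e (nat_lit 1656) (nat_lit 115) (.e (nat_lit 393301) (nat_lit 27) (.e (nat_lit 491567) (nat_lit 13) (.e (nat_lit 393231) (nat_lit 17) (.e (nat_lit 7491) (nat_lit 402) .nil))))) (.g (nat_lit 4) .nil .nil))) 
(.lf (nat_lit 69569) (.g (nat_lit 1736) (.e (nat_lit 1658) (nat_lit 115) (.e (nat_lit 393229) (nat_lit 9) (.e (nat_lit 336087) (nat_lit 9) (.e (nat_lit 336019) (nat_lit 3) (.e (nat_lit 98334) (nat_lit 18) (.e (nat_lit 164159) (nat_lit 152) (.e (nat_lit 1027) (nat_lit 81) .nil))))))) (.g (nat_lit 4) .nil .nil)))) (.nd (nat_lit 6) 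
(.lf (nat_lit 69537) (.g (nat_lit 1547) (.e (nat_lit 1657) (nat_lit 115) (.e (nat_lit 393273) (nat_lit 23) (.e (nat_lit 426364) (nat_lit 15) (.e (nat_lit 2160) (nat_lit 143) (.e (nat_lit 712747) (nat_lit 28) .nil))))) .nil)) 
(.lf (nat_lit 69601) (.g (nat_lit 1589) (.e (nat_lit 1658) (nat_lit 115) (.e (nat_lit 393234) (nat_lit 17) (.e (nat_lit 7581) (nat_lit 405) (.e (nat_lit 57476) (nat_lit 28) .nil)))) .nil)))) (.nd (nat_lit 5) (.nd (nat_lit 6) 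
(.lf (nat_lit 69521) (.g (nat_lit 2026) (.e (nat_lit 1656) (nat_lit 115) (.e (nat_lit 393301) (nat_lit 27) (.e (nat_lit 491568) (nat_lit 13) (.e (nat_lit 393248) (nat_lit 17) .nil)))) .nil)) 
(.lf (nat_lit 69585) (.g (nat_lit 1421) (.e (nat_lit 1658) (nat_lit 115) (.e (nat_lit 393229) (nat_lit 9) (.e (nat_lit 336184) (nat_lit 11) (.e (nat_lit 368676) (nat_lit 21) (.e (nat_lit 516117) (nat_lit 1) (.e (nat_lit 164159) (nat_lit 152) (.e (nat_lit 1027) (nat_lit 81) .nil))))))) (.g (nat_lit 4) .nil .nil)))) (.nd (nat_lit 6) 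
(.lf (nat_lit 69553) (.g (nat_lit 1351) (.e (nat_lit 1657) (nat_lit 115) (.e (nat_lit 393300) (nat_lit 27) (.e (nat_lit 491547) (nat_lit 9) (.e (nat_lit 336421) (nat_lit 28) .nil)))) .nil)) 
(.lf (nat_lit 69617) (.g (nat_lit 1255) (.e (nat_lit 1658) (nat_lit 115) (.e (nat_lit 393251) (nat_lit 18) (.e (nat_lit 164148) (nat_lit 152) .nil))) .nil))))) (.nd (nat_lit 4) (.nd (nat_lit 5) (.nd (nat_lit 6) 
(.lf (nat_lit 69513) (.g (nat_lit 3394) (.e (nat_lit 1656) (nat_lit 115) (.e (nat_lit 393301) (nat_lit 27) (.e (nat_lit 491568) (nat_lit 13) (.e (nat_lit 393234) (nat_lit 17) (.e (nat_lit 7491) (nat_lit 402) .nil))))) (.g (nat_lit 4) .nil .nil))) 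
(.lf (nat_lit 69577) (.g (nat_lit 2022) (.e (nat_lit 1658) (nat_lit 115) (.e (nat_lit 393229) (nat_lit 9) (.e (nat_lit 336088) (nat_lit 9) (.e (nat_lit 336019) (nat_lit 3) (.e (nat_lit 98334) (nat_lit 18) (.e (nat_lit 164159) (nat_lit 152) (.e (nat_lit 1044) (nat_lit 81) .nil))))))) (.g (nat_lit 4) .nil .nil)))) (.nd (nat_lit 6) 
(.lf (nat_lit 69545) (.g (nat_lit 1480) (.e (nat_lit 1657) (nat_lit 115) (.e (nat_lit 393295) (nat_lit 26) (.e (nat_lit 475199) (nat_lit 40) (.e (nat_lit 704595) (nat_lit 5) (.e (nat_lit 188160) (nat_lit 32) .nil))))) (.g (nat_lit 4) .nil .nil))) 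
(.lf (nat_lit 69609) (.g (nat_lit 2051) (.e (nat_lit 1658) (nat_lit 115) (.e (nat_lit 393234) (nat_lit 17) (.e (nat_lit 7581) (nat_lit 405) (.e (nat_lit 57480) (nat_lit 28) (.e (nat_lit 557105) (nat_lit 14) (.e (nat_lit 180265) (nat_lit 21) (.e (nat_lit 663552) (nat_lit 0) .nil))))))) (.g (nat_lit 4) .nil .nil))))) (.nd (nat_lit 5) (.nd (nat_lit 6) 
(.lf (nat_lit 69529) (.g (nat_lit 2308) (.e (nat_lit 1657) (nat_lit 115) (.e (nat_lit 393234) (nat_lit 17) (.e (nat_lit 7581) (nat_lit 405) (.e (nat_lit 57479) (nat_lit 28) (.e (nat_lit 557105) (nat_lit 14) .nil))))) .nil)) 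
(.lf (nat_lit 69593) (.g (nat_lit 2249) (.e (nat_lit 1658) (nat_lit 115) (.e (nat_lit 393229) (nat_lit 9) (.e (nat_lit 336186) (nat_lit 11) (.e (nat_lit 368676) (nat_lit 21) (.e (nat_lit 516117) (nat_lit 1) (.e (nat_lit 164159) (nat_lit 152) (.e (nat_lit 1025) (nat_lit 81) .nil))))))) (.g (nat_lit 5) .nil .nil)))) (.nd (nat_lit 6) 
(.lf (nat_lit 69561) (.g (nat_lit 3105) (.e (nat_lit 1657) (nat_lit 115) (.e (nat_lit 393301) (nat_lit 27) (.e (nat_lit 491560) (nat_lit 10) (.e (nat_lit 344090) (nat_lit 18) .nil)))) .nil)) 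
(.lf (nat_lit 69625) (.g (nat_lit 1931) (.e (nat_lit 1658) (nat_lit 115) (.e (nat_lit 393251) (nat_lit 18) (.e (nat_lit 164182) (nat_lit 154) (.e (nat_lit 57420) (nat_lit 13) .nil)))) .nil)))))) (.nd (nat_lit 3) (.nd (nat_lit 4) (.nd (nat_lit 5) (.nd (nat_lit 6) 
(.lf (nat_lit 69509) (.g (nat_lit 1771) (.e (nat_lit 1656) (nat_lit 115) (.e (nat_lit 393301) (nat_lit 27) (.e (nat_lit 491568) (nat_lit 13) (.e (nat_lit 393231) (nat_lit 17) .nil)))) .nil)) 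
(.lf (nat_lit 69573) (.g (nat_lit 2582) (.e (nat_lit 1658) (nat_lit 115) (.e (nat_lit 393229) (nat_lit 9) (.e (nat_lit 336088) (nat_lit 9) (.e (nat_lit 336019) (nat_lit 3) (.e (nat_lit 98333) (nat_lit 18) (.e (nat_lit 164151) (nat_lit 152) (.e (nat_lit 1073) (nat_lit 81) .nil))))))) (.g (nat_lit 5) .nil .nil)))) (.nd (nat_lit 6) 
(.lf (nat_lit 69541) (.g (nat_lit 1577) (.e (nat_lit 1657) (nat_lit 115) (.e (nat_lit 393293) (nat_lit 26) (.e (nat_lit 475198) (nat_lit 40) (.e (nat_lit 704596) (nat_lit 5) (.e (nat_lit 188160) (nat_lit 32) .nil))))) .nil)) 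
(.lf (nat_lit 69605) (.g (nat_lit 2552) (.e (nat_lit 1658) (nat_lit 115) (.e (nat_lit 393234) (nat_lit 17) (.e (nat_lit 7581) (nat_lit 405) (.e (nat_lit 57479) (nat_lit 28) (.e (nat_lit 557105) (nat_lit 14) (.e (nat_lit 180265) (nat_lit 21) (.e (nat_lit 663561) (nat_lit 0) .nil))))))) (.g (nat_lit 4) .nil .nil))))) (.nd (nat_lit 5) (.nd (nat_lit 6) 
(.lf (nat_lit 69525) (.g (nat_lit 801) (.e (nat_lit 1657) (nat_lit 115) (.e (nat_lit 393225) (nat_lit 9) (.e (nat_lit 336204) (nat_lit 12) .nil))) .nil)) 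
(.lf (nat_lit 69589) (.g (nat_lit 1928) (.e (nat_lit 1658) (nat_lit 115) (.e (nat_lit 393229) (nat_lit 9) (.e (nat_lit 336186) (nat_lit 11) (.e (nat_lit 368676) (nat_lit 21) (.e (nat_lit 516115) (nat_lit 1) (.e (nat_lit 164151) (nat_lit 152) (.e (nat_lit 1073) (nat_lit 81) .nil))))))) (.g (nat_lit 5) .nil .nil)))) (.nd (nat_lit 6) 
(.lf (nat_lit 69557) (.g (nat_lit 1517) (.e (nat_lit 1657) (nat_lit 115) (.e (nat_lit 393300) (nat_lit 27) (.e (nat_lit 491568) (nat_lit 13) (.e (nat_lit 393233) (nat_lit 17) .nil)))) .nil)) 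
(.lf (nat_lit 69621) (.g (nat_lit 2359) (.e (nat_lit 1658) (nat_lit 115) (.e (nat_lit 393251) (nat_lit 18) (.e (nat_lit 164179) (nat_lit 154) (.e (nat_lit 57420) (nat_lit 13) (.e (nat_lit 344132) (nat_lit 26) (.e (nat_lit 557094) (nat_lit 12) (.e (nat_lit 164238) (nat_lit 187) .nil))))))) (.g (nat_lit 4) .nil .nil)))))) (.nd (nat_lit 4) (.nd (nat_lit 5) (.nd (nat_lit 6) 
(.lf (nat_lit 69517) (.g (nat_lit 3586) (.e (nat_lit 1656) (nat_lit 115) (.e (nat_lit 393301) (nat_lit 27) (.e (nat_lit 491568) (nat_lit 13) (.e (nat_lit 393238) (nat_lit 17) (.e (nat_lit 7535) (nat_lit 402) .nil))))) (.g (nat_lit 0) .nil .nil))) 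
(.lf (nat_lit 69581) (.g (nat_lit 1463) (.e (nat_lit 1658) (nat_lit 115) (.e (nat_lit 393229) (nat_lit 9) (.e (nat_lit 336184) (nat_lit 11) (.e (nat_lit 368676) (nat_lit 21) (.e (nat_lit 516115) (nat_lit 1) (.e (nat_lit 164151) (nat_lit 152) (.e (nat_lit 1089) (nat_lit 81) .nil))))))) (.g (nat_lit 4) .nil .nil)))) (.nd (nat_lit 6) 
(.lf (nat_lit 69549) (.g (nat_lit 1561) (.e (nat_lit 1657) (nat_lit 115) (.e (nat_lit 393298) (nat_lit 27) (.e (nat_lit 491570) (nat_lit 13) (.e (nat_lit 393238) (nat_lit 17) .nil)))) .nil)) 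
(.lf (nat_lit 69613) (.g (nat_lit 476) (.e (nat_lit 1658) (nat_lit 115) (.e (nat_lit 393234) (nat_lit 17) (.e (nat_lit 7591) (nat_lit 407) .nil))) .nil)))) (.nd (nat_lit 5) (.nd (nat_lit 6) 
(.lf (nat_lit 69533) (.g (nat_lit 694) (.e (nat_lit 1657) (nat_lit 115) (.e (nat_lit 393260) (nat_lit 21) (.e (nat_lit 409648) (nat_lit 18) .nil))) .nil)) 
(.lf (nat_lit 69597) (.g (nat_lit 1735) (.e (nat_lit 1658) (nat_lit 115) (.e (nat_lit 393229) (nat_lit 9) (.e (nat_lit 336186) (nat_lit 11) (.e (nat_lit 368676) (nat_lit 21) (.e (nat_lit 516117) (nat_lit 1) (.e (nat_lit 164161) (nat_lit 152) (.e (nat_lit 1032) (nat_lit 81) .nil))))))) (.g (nat_lit 4) .nil .nil)))) (.nd (nat_lit 6) 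
(.lf (nat_lit 69565) (.g (nat_lit 1151) (.e (nat_lit 1658) (nat_lit 115) (.e (nat_lit 393229) (nat_lit 9) (.e (nat_lit 336087) (nat_lit 9) (.e (nat_lit 336019) (nat_lit 3) .nil)))) .nil)) 
(.lf (nat_lit 69629) (.g (nat_lit 1401) (.e (nat_lit 1658) (nat_lit 115) (.e (nat_lit 393253) (nat_lit 18) (.e (nat_lit 164147) (nat_lit 152) (.e (nat_lit 1211) (nat_lit 89) .nil)))) .nil))))))) (.nd (nat_lit 2) (.nd (nat_lit 3) (.nd (nat_lit 4) (.nd (nat_lit 5) (.nd (nat_lit 6) 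
(.lf (nat_lit 69507) (.g (nat_lit 3689) (.e (nat_lit 1656) (nat_lit 115) (.e (nat_lit 393301) (nat_lit 27) (.e (nat_lit 491567) (nat_lit 13) (.e (nat_lit 393234) (nat_lit 17) (.e (nat_lit 7536) (nat_lit 402) .nil))))) (.g (nat_lit 0) .nil .nil))) 
(.lf (nat_lit 69571) (.g (nat_lit 1734) (.e (nat_lit 1658) (nat_lit 115) (.e (nat_lit 393229) (nat_lit 9) (.e (nat_lit 336087) (nat_lit 9) (.e (nat_lit 336019) (nat_lit 3) (.e (nat_lit 98334) (nat_lit 18) (.e (nat_lit 164159) (nat_lit 152) (.e (nat_lit 1047) (nat_lit 81) .nil))))))) (.g (nat_lit 4) .nil .nil)))) (.nd (nat_lit 6) 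
(.lf (nat_lit 69539) (.g (nat_lit 1086) (.e (nat_lit 1657) (nat_lit 115) (.e (nat_lit 393273) (nat_lit 23) (.e (nat_lit 426444) (nat_lit 19) (.e (nat_lit 114432) (nat_lit 5) .nil)))) .nil)) 
(.lf (nat_lit 69603) (.g (nat_lit 1853) (.e (nat_lit 1658) (nat_lit 115) (.e (nat_lit 393234) (nat_lit 17) (.e (nat_lit 7581) (nat_lit 405) (.e (nat_lit 57477) (nat_lit 28) (.e (nat_lit 557104) (nat_lit 14) .nil))))) .nil)))) (.nd (nat_lit 5) (.nd (nat_lit 6) 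
(.lf (nat_lit 69523) (.g (nat_lit 502) (.e (nat_lit 1656) (nat_lit 115) (.e (nat_lit 393301) (nat_lit 27) (.e (nat_lit 499456) (nat_lit 13) .nil))) .nil)) 
(.lf (nat_lit 69587) (.g (nat_lit 1555) (.e (nat_lit 1658) (nat_lit 115) (.e (nat_lit 393229) (nat_lit 9) (.e (nat_lit 336184) (nat_lit 11) (.e (nat_lit 368676) (nat_lit 21) (.e (nat_lit 516117) (nat_lit 1) (.e (nat_lit 164159) (nat_lit 152) (.e (nat_lit 1047) (nat_lit 81) .nil))))))) (.g (nat_lit 4) .nil .nil)))) (.nd (nat_lit 6) 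
(.lf (nat_lit 69555) (.g (nat_lit 2565) (.e (nat_lit 1657) (nat_lit 115) (.e (nat_lit 393300) (nat_lit 27) (.e (nat_lit 491549) (nat_lit 9) (.e (nat_lit 336421) (nat_lit 28) (.e (nat_lit 442112) (nat_lit 0) .nil))))) .nil)) 
(.lf (nat_lit 69619) (.g (nat_lit 1051) (.e (nat_lit 1658) (nat_lit 115) (.e (nat_lit 393251) (nat_lit 18) (.e (nat_lit 164177) (nat_lit 154) .nil))) .nil))))) (.nd (nat_lit 4) (.nd (nat_lit 5) (.nd (nat_lit 6) 
(.lf (nat_lit 69515) (.g (nat_lit 2895) (.e (nat_lit 1656) (nat_lit 115) (.e (nat_lit 393301) (nat_lit 27) (.e (nat_lit 491568) (nat_lit 13) (.e (nat_lit 393234) (nat_lit 17) (.e (nat_lit 7936) (nat_lit 402) .nil))))) (.g (nat_lit 4) .nil .nil))) 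
(.lf (nat_lit 69579) (.g (nat_lit 1381) (.e (nat_lit 1658) (nat_lit 115) (.e (nat_lit 393229) (nat_lit 9) (.e (nat_lit 336184) (nat_lit 11) (.e (nat_lit 368676) (nat_lit 21) (.e (nat_lit 516115) (nat_lit 1) (.e (nat_lit 164151) (nat_lit 152) (.e (nat_lit 1062) (nat_lit 81) .nil))))))) (.g (nat_lit 4) .nil .nil)))) (.nd (nat_lit 6) 
(.lf (nat_lit 69547) (.g (nat_lit 779) (.e (nat_lit 1657) (nat_lit 115) (.e (nat_lit 393298) (nat_lit 27) (.e (nat_lit 491549) (nat_lit 9) .nil))) .nil)) 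
(.lf (nat_lit 69611) (.g (nat_lit 2228) (.e (nat_lit 1658) (nat_lit 115) (.e (nat_lit 393234) (nat_lit 17) (.e (nat_lit 7581) (nat_lit 405) (.e (nat_lit 57480) (nat_lit 28) (.e (nat_lit 557105) (nat_lit 14) (.e (nat_lit 180265) (nat_lit 21) (.e (nat_lit 671488) (nat_lit 0) .nil))))))) (.g (nat_lit 4) .nil .nil))))) (.nd (nat_lit 5) (.nd (nat_lit 6) 
(.lf (nat_lit 69531) (.g (nat_lit 1319) (.e (nat_lit 1657) (nat_lit 115) (.e (nat_lit 393234) (nat_lit 17) (.e (nat_lit 7589) (nat_lit 406) (.e (nat_lit 65648) (nat_lit 26) .nil)))) .nil)) 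
(.lf (nat_lit 69595) (.g (nat_lit 1646) (.e (nat_lit 1658) (nat_lit 115) (.e (nat_lit 393229) (nat_lit 9) (.e (nat_lit 336186) (nat_lit 11) (.e (nat_lit 368676) (nat_lit 21) (.e (nat_lit 516117) (nat_lit 1) (.e (nat_lit 164159) (nat_lit 152) (.e (nat_lit 1032) (nat_lit 81) .nil))))))) (.g (nat_lit 4) .nil .nil)))) (.nd (nat_lit 6) 
(.lf (nat_lit 69563) (.g (nat_lit 2560) (.e (nat_lit 1658) (nat_lit 115) (.e (nat_lit 393225) (nat_lit 9) (.e (nat_lit 336204) (nat_lit 12) (.e (nat_lit 385074) (nat_lit 31) (.e (nat_lit 573473) (nat_lit 12) (.e (nat_lit 57521) (nat_lit 44) (.e (nat_lit 688154) (nat_lit 13) .nil))))))) (.g (nat_lit 4) .nil .nil))) 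
(.lf (nat_lit 69627) (.g (nat_lit 2252) (.e (nat_lit 1658) (nat_lit 115) (.e (nat_lit 393251) (nat_lit 18) (.e (nat_lit 164183) (nat_lit 154) (.e (nat_lit 57420) (nat_lit 13) (.e (nat_lit 344133) (nat_lit 26) (.e (nat_lit 557091) (nat_lit 12) (.e (nat_lit 164238) (nat_lit 187) .nil))))))) (.g (nat_lit 4) .nil .nil))))))) (.nd (nat_lit 3) (.nd (nat_lit 4) (.nd (nat_lit 5) (.nd (nat_lit 6) 
(.lf (nat_lit 69511) (.g (nat_lit 1509) (.e (nat_lit 1656) (nat_lit 115) (.e (nat_lit 393301) (nat_lit 27) (.e (nat_lit 491568) (nat_lit 13) (.e (nat_lit 393233) (nat_lit 17) .nil)))) .nil)) 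
(.lf (nat_lit 69575) (.g (nat_lit 2078) (.e (nat_lit 1658) (nat_lit 115) (.e (nat_lit 393229) (nat_lit 9) (.e (nat_lit 336088) (nat_lit 9) (.e (nat_lit 336019) (nat_lit 3) (.e (nat_lit 98334) (nat_lit 18) (.e (nat_lit 164159) (nat_lit 152) (.e (nat_lit 1029) (nat_lit 81) .nil))))))) (.g (nat_lit 4) .nil .nil)))) (.nd (nat_lit 6) 
(.lf (nat_lit 69543) (.g (nat_lit 1047) (.e (nat_lit 1657) (nat_lit 115) (.e (nat_lit 393293) (nat_lit 26) (.e (nat_lit 475210) (nat_lit 41) (.e (nat_lit 712747) (nat_lit 28) .nil)))) .nil)) 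
(.lf (nat_lit 69607) (.g (nat_lit 3085) (.e (nat_lit 1658) (nat_lit 115) (.e (nat_lit 393234) (nat_lit 17) (.e (nat_lit 7581) (nat_lit 405) (.e (nat_lit 57480) (nat_lit 28) (.e (nat_lit 557105) (nat_lit 14) (.e (nat_lit 180264) (nat_lit 21) (.e (nat_lit 663557) (nat_lit 0) .nil))))))) (.g (nat_lit 5) .nil .nil))))) (.nd (nat_lit 5) (.nd (nat_lit 6) 
(.lf (nat_lit 69527) (.g (nat_lit 2351) (.e (nat_lit 1657) (nat_lit 115) (.e (nat_lit 393225) (nat_lit 9) (.e (nat_lit 336204) (nat_lit 12) (.e (nat_lit 385074) (nat_lit 31) (.e (nat_lit 573475) (nat_lit 12) .nil))))) .nil)) 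
(.lf (nat_lit 69591) (.g (nat_lit 1607) (.e (nat_lit 1658) (nat_lit 115) (.e (nat_lit 393229) (nat_lit 9) (.e (nat_lit 336186) (nat_lit 11) (.e (nat_lit 368676) (nat_lit 21) (.e (nat_lit 516117) (nat_lit 1) (.e (nat_lit 164159) (nat_lit 152) (.e (nat_lit 982) (nat_lit 81) .nil))))))) (.g (nat_lit 4) .nil .nil)))) (.nd (nat_lit 6) 
(.lf (nat_lit 69559) (.g (nat_lit 1570) (.e (nat_lit 1657) (nat_lit 115) (.e (nat_lit 393300) (nat_lit 27) (.e (nat_lit 491570) (nat_lit 13) (.e (nat_lit 393242) (nat_lit 17) .nil)))) .nil)) 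
(.lf (nat_lit 69623) (.g (nat_lit 2573) (.e (nat_lit 1658) (nat_lit 115) (.e (nat_lit 393251) (nat_lit 18) (.e (nat_lit 164179) (nat_lit 154) (.e (nat_lit 57421) (nat_lit 13) (.e (nat_lit 344132) (nat_lit 26) (.e (nat_lit 557093) (nat_lit 12) (.e (nat_lit 164238) (nat_lit 187) .nil))))))) (.g (nat_lit 4) .nil .nil)))))) (.nd (nat_lit 4) (.nd (nat_lit 5) (.nd (nat_lit 6) 
(.lf (nat_lit 69519) (.g (nat_lit 1958) (.e (nat_lit 1656) (nat_lit 115) (.e (nat_lit 393301) (nat_lit 27) (.e (nat_lit 491568) (nat_lit 13) (.e (nat_lit 393243) (nat_lit 17) .nil)))) .nil)) 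
(.lf (nat_lit 69583) (.g (nat_lit 1985) (.e (nat_lit 1658) (nat_lit 115) (.e (nat_lit 393229) (nat_lit 9) (.e (nat_lit 336184) (nat_lit 11) (.e (nat_lit 368676) (nat_lit 21) (.e (nat_lit 516117) (nat_lit 1) (.e (nat_lit 164159) (nat_lit 152) (.e (nat_lit 1022) (nat_lit 81) .nil))))))) (.g (nat_lit 5) .nil .nil)))) (.nd (nat_lit 6) 
(.lf (nat_lit 69551) (.g (nat_lit 1958) (.e (nat_lit 1657) (nat_lit 115) (.e (nat_lit 393298) (nat_lit 27) (.e (nat_lit 491571) (nat_lit 13) (.e (nat_lit 393238) (nat_lit 17) .nil)))) .nil)) 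
(.lf (nat_lit 69615) (.g (nat_lit 1599) (.e (nat_lit 1658) (nat_lit 115) (.e (nat_lit 393238) (nat_lit 17) (.e (nat_lit 6989) (nat_lit 377) (.e (nat_lit 2779) (nat_lit 178) .nil)))) .nil)))) (.nd (nat_lit 5) (.nd (nat_lit 6) 
(.lf (nat_lit 69535) (.g (nat_lit 1209) (.e (nat_lit 1657) (nat_lit 115) (.e (nat_lit 393268) (nat_lit 23) (.e (nat_lit 426444) (nat_lit 19) .nil))) .nil)) 
(.lf (nat_lit 69599) (.g (nat_lit 678) (.e (nat_lit 1658) (nat_lit 115) (.e (nat_lit 393234) (nat_lit 17) (.e (nat_lit 3557) (nat_lit 220) .nil))) .nil))) (.nd (nat_lit 6) 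
(.lf (nat_lit 69567) (.g (nat_lit 1769) (.e (nat_lit 1658) (nat_lit 115) (.e (nat_lit 393229) (nat_lit 9) (.e (nat_lit 336087) (nat_lit 9) (.e (nat_lit 336019) (nat_lit 3) (.e (nat_lit 98333) (nat_lit 18) (.e (nat_lit 164151) (nat_lit 152) (.e (nat_lit 1102) (nat_lit 81) .nil))))))) (.g (nat_lit 4) .nil .nil))) 
(.lf (nat_lit 69631) (.g (nat_lit 1584) (.e (nat_lit 1658) (nat_lit 115) (.e (nat_lit 393253) (nat_lit 18) (.e (nat_lit 164151) (nat_lit 152) (.e (nat_lit 1207) (nat_lit 89) .nil)))) .nil)))))))))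

noncomputable def tv954 : DT := (.nd (nat_lit 0) (.nd (nat_lit 1) (.nd (nat_lit 2) (.nd (nat_lit 3) (.nd (nat_lit 4) (.nd (nat_lit 5) (.nd (nat_lit 6) 
(.lf (nat_lit 69632) (.g (nat_lit 1441) (.e (nat_lit 1658) (nat_lit 115) (.e (nat_lit 393253) (nat_lit 18) (.e (nat_lit 164153) (nat_lit 152) (.e (nat_lit 1214) (nat_lit 89) .nil)))) .nil)) 
(.lf (nat_lit 69696) (.g (nat_lit 1658) (.e (nat_lit 1658) (nat_lit 115) (.e (nat_lit 393293) (nat_lit 26) (.e (nat_lit 475196) (nat_lit 40) (.e (nat_lit 704595) (nat_lit 5) (.e (nat_lit 180278) (nat_lit 32) .nil))))) (.g (nat_lit 5) .nil .nil)))) (.nd (nat_lit 6) 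
(.lf (nat_lit 69664) (.g (nat_lit 2040) (.e (nat_lit 1658) (nat_lit 115) (.e (nat_lit 393274) (nat_lit 23) (.e (nat_lit 426396) (nat_lit 15) (.e (nat_lit 2059) (nat_lit 142) (.e (nat_lit 704595) (nat_lit 5) (.e (nat_lit 180278) (nat_lit 32) .nil)))))) (.g (nat_lit 4) .nil .nil))) 
(.lf (nat_lit 69728) (.g (nat_lit 1465) (.e (nat_lit 1658) (nat_lit 115) (.e (nat_lit 393297) (nat_lit 27) (.e (nat_lit 491571) (nat_lit 13) (.e (nat_lit 393242) (nat_lit 17) (.e (nat_lit 7554) (nat_lit 402) .nil))))) .nil)))) (.nd (nat_lit 5) (.nd (nat_lit 6) 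
(.lf (nat_lit 69648) (.g (nat_lit 1492) (.e (nat_lit 1658) (nat_lit 115) (.e (nat_lit 393271) (nat_lit 23) (.e (nat_lit 426112) (nat_lit 1) (.e (nat_lit 164346) (nat_lit 240) .nil)))) .nil)) 
(.lf (nat_lit 69712) (.g (nat_lit 2052) (.e (nat_lit 1658) (nat_lit 115) (.e (nat_lit 393295) (nat_lit 26) (.e (nat_lit 475199) (nat_lit 40) (.e (nat_lit 704595) (nat_lit 5) (.e (nat_lit 180277) (nat_lit 32) .nil))))) (.g (nat_lit 0) .nil .nil)))) (.nd (nat_lit 6) 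
(.lf (nat_lit 69680) (.g (nat_lit 447) (.e (nat_lit 1658) (nat_lit 115) (.e (nat_lit 393283) (nat_lit 24) (.e (nat_lit 434270) (nat_lit 38) .nil))) .nil)) 
(.lf (nat_lit 69744) (.g (nat_lit 2087) (.e (nat_lit 1658) (nat_lit 115) (.e (nat_lit 393300) (nat_lit 27) (.e (nat_lit 491549) (nat_lit 9) (.e (nat_lit 336425) (nat_lit 28) .nil)))) .nil))))) (.nd (nat_lit 4) (.nd (nat_lit 5) (.nd (nat_lit 6) 
(.lf (nat_lit 69640) (.g (nat_lit 594) (.e (nat_lit 1658) (nat_lit 115) (.e (nat_lit 393253) (nat_lit 18) (.e (nat_lit 164178) (nat_lit 154) .nil))) .nil)) 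
(.lf (nat_lit 69704) (.g (nat_lit 866) (.e (nat_lit 1658) (nat_lit 115) (.e (nat_lit 393294) (nat_lit 26) (.e (nat_lit 475197) (nat_lit 40) .nil))) .nil))) (.nd (nat_lit 6) 
(.lf (nat_lit 69672) (.g (nat_lit 987) (.e (nat_lit 1658) (nat_lit 115) (.e (nat_lit 393281) (nat_lit 23) (.e (nat_lit 426099) (nat_lit 1) (.e (nat_lit 164345) (nat_lit 240) (.e (nat_lit 2639) (nat_lit 165) .nil))))) .nil)) 
(.lf (nat_lit 69736) (.g (nat_lit 388) (.e (nat_lit 1658) (nat_lit 115) (.e (nat_lit 393298) (nat_lit 27) (.e (nat_lit 491571) (nat_lit 13) .nil))) .nil)))) (.nd (nat_lit 5) (.nd (nat_lit 6) 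
(.lf (nat_lit 69656) (.g (nat_lit 1151) (.e (nat_lit 1658) (nat_lit 115) (.e (nat_lit 393271) (nat_lit 23) (.e (nat_lit 426375) (nat_lit 15) .nil))) .nil)) 
(.lf (nat_lit 69720) (.g (nat_lit 1778) (.e (nat_lit 1658) (nat_lit 115) (.e (nat_lit 393296) (nat_lit 26) (.e (nat_lit 475208) (nat_lit 41) (.e (nat_lit 712749) (nat_lit 28) (.e (nat_lit 434180) (nat_lit 0) .nil))))) (.g (nat_lit 5) .nil .nil)))) (.nd (nat_lit 6) 
(.lf (nat_lit 69688) (.g (nat_lit 2055) (.e (nat_lit 1658) (nat_lit 115) (.e (nat_lit 393291) (nat_lit 26) (.e (nat_lit 475198) (nat_lit 40) (.e (nat_lit 704595) (nat_lit 5) (.e (nat_lit 180277) (nat_lit 32) .nil))))) (.g (nat_lit 4) .nil .nil))) 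
(.lf (nat_lit 69752) (.g (nat_lit 842) (.e (nat_lit 1658) (nat_lit 115) (.e (nat_lit 393301) (nat_lit 27) (.e (nat_lit 491520) (nat_lit 0) .nil))) .nil)))))) (.nd (nat_lit 3) (.nd (nat_lit 4) (.nd (nat_lit 5) (.nd (nat_lit 6) 
(.lf (nat_lit 69636) (.g (nat_lit 2898) (.e (nat_lit 1658) (nat_lit 115) (.e (nat_lit 393253) (nat_lit 18) (.e (nat_lit 164162) (nat_lit 152) (.e (nat_lit 1209) (nat_lit 89) (.e (nat_lit 73753) (nat_lit 8) (.e (nat_lit 557094) (nat_lit 12) (.e (nat_lit 164238) (nat_lit 187) .nil))))))) (.g (nat_lit 4) .nil .nil))) 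
(.lf (nat_lit 69700) (.g (nat_lit 2304) (.e (nat_lit 1658) (nat_lit 115) (.e (nat_lit 393293) (nat_lit 26) (.e (nat_lit 475198) (nat_lit 40) (.e (nat_lit 704595) (nat_lit 5) (.e (nat_lit 180278) (nat_lit 32) .nil))))) (.g (nat_lit 0) .nil .nil)))) (.nd (nat_lit 6) 
(.lf (nat_lit 69668) (.g (nat_lit 1599) (.e (nat_lit 1658) (nat_lit 115) (.e (nat_lit 393274) (nat_lit 23) (.e (nat_lit 426412) (nat_lit 15) (.e (nat_lit 2059) (nat_lit 142) (.e (nat_lit 704596) (nat_lit 5) (.e (nat_lit 180277) (nat_lit 32) .nil)))))) (.g (nat_lit 4) .nil .nil))) 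
(.lf (nat_lit 69732) (.g (nat_lit 2350) (.e (nat_lit 1658) (nat_lit 115) (.e (nat_lit 393298) (nat_lit 27) (.e (nat_lit 491550) (nat_lit 9) (.e (nat_lit 336421) (nat_lit 28) (.e (nat_lit 434181) (nat_lit 0) .nil))))) (.g (nat_lit 0) .nil .nil))))) (.nd (nat_lit 5) (.nd (nat_lit 6) 
(.lf (nat_lit 69652) (.g (nat_lit 903) (.e (nat_lit 1658) (nat_lit 115) (.e (nat_lit 393271) (nat_lit 23) (.e (nat_lit 426131) (nat_lit 3) .nil))) .nil)) 
(.lf (nat_lit 69716) (.g (nat_lit 1131) (.e (nat_lit 1658) (nat_lit 115) (.e (nat_lit 393296) (nat_lit 26) (.e (nat_lit 475197) (nat_lit 40) (.e (nat_lit 704596) (nat_lit 5) .nil)))) .nil))) (.nd (nat_lit 6) 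
(.lf (nat_lit 69684) (.g (nat_lit 1841) (.e (nat_lit 1658) (nat_lit 115) (.e (nat_lit 393290) (nat_lit 26) (.e (nat_lit 475199) (nat_lit 40) (.e (nat_lit 704595) (nat_lit 5) (.e (nat_lit 180277) (nat_lit 32) .nil))))) (.g (nat_lit 5) .nil .nil))) 
(.lf (nat_lit 69748) (.g (nat_lit 695) (.e (nat_lit 1658) (nat_lit 115) (.e (nat_lit 393300) (nat_lit 27) (.e (nat_lit 491570) (nat_lit 13) .nil))) .nil))))) (.nd (nat_lit 4) (.nd (nat_lit 5) (.nd (nat_lit 6) 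
(.lf (nat_lit 69644) (.g (nat_lit 764) (.e (nat_lit 1658) (nat_lit 115) (.e (nat_lit 393267) (nat_lit 23) (.e (nat_lit 426444) (nat_lit 19) (.e (nat_lit 114432) (nat_lit 5) .nil)))) .nil)) 
(.lf (nat_lit 69708) (.g (nat_lit 2266) (.e (nat_lit 1658) (nat_lit 115) (.e (nat_lit 393294) (nat_lit 26) (.e (nat_lit 475199) (nat_lit 40) (.e (nat_lit 704595) (nat_lit 5) (.e (nat_lit 180277) (nat_lit 32) .nil))))) (.g (nat_lit 5) .nil .nil)))) (.nd (nat_lit 6) 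
(.lf (nat_lit 69676) (.g (nat_lit 1718) (.e (nat_lit 1658) (nat_lit 115) (.e (nat_lit 393281) (nat_lit 23) (.e (nat_lit 426108) (nat_lit 1) (.e (nat_lit 164345) (nat_lit 240) (.e (nat_lit 2639) (nat_lit 165) .nil))))) .nil)) 
(.lf (nat_lit 69740) (.g (nat_lit 837) (.e (nat_lit 1658) (nat_lit 115) (.e (nat_lit 393299) (nat_lit 27) (.e (nat_lit 491549) (nat_lit 9) .nil))) .nil)))) (.nd (nat_lit 5) (.nd (nat_lit 6) 
(.lf (nat_lit 69660) (.g (nat_lit 659) (.e (nat_lit 1658) (nat_lit 115) (.e (nat_lit 393272) (nat_lit 23) (.e (nat_lit 426444) (nat_lit 19) (.e (nat_lit 114432) (nat_lit 5) .nil)))) .nil)) 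
(.lf (nat_lit 69724) (.g (nat_lit 2164) (.e (nat_lit 1658) (nat_lit 115) (.e (nat_lit 393297) (nat_lit 27) (.e (nat_lit 491571) (nat_lit 13) (.e (nat_lit 393231) (nat_lit 17) (.e (nat_lit 7517) (nat_lit 402) .nil))))) (.g (nat_lit 5) .nil .nil)))) (.nd (nat_lit 6) 
(.lf (nat_lit 69692) (.g (nat_lit 2474) (.e (nat_lit 1658) (nat_lit 115) (.e (nat_lit 393291) (nat_lit 26) (.e (nat_lit 475199) (nat_lit 40) (.e (nat_lit 704595) (nat_lit 5) (.e (nat_lit 180278) (nat_lit 32) .nil))))) (.g (nat_lit 0) .nil .nil))) 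
(.lf (nat_lit 69756) (.g (nat_lit 1259) (.e (nat_lit 1658) (nat_lit 115) (.e (nat_lit 393301) (nat_lit 27) (.e (nat_lit 491526) (nat_lit 0) (.e (nat_lit 1788) (nat_lit 119) .nil)))) .nil))))))) (.nd (nat_lit 2) (.nd (nat_lit 3) (.nd (nat_lit 4) (.nd (nat_lit 5) (.nd (nat_lit 6) 
(.lf (nat_lit 69634) (.g (nat_lit 806) (.e (nat_lit 1658) (nat_lit 115) (.e (nat_lit 393253) (nat_lit 18) (.e (nat_lit 164161) (nat_lit 152) .nil))) .nil)) 
(.lf (nat_lit 69698) (.g (nat_lit 1514) (.e (nat_lit 1658) (nat_lit 115) (.e (nat_lit 393293) (nat_lit 26) (.e (nat_lit 475197) (nat_lit 40) (.e (nat_lit 704595) (nat_lit 5) (.e (nat_lit 180278) (nat_lit 32) .nil))))) (.g (nat_lit 4) .nil .nil)))) (.nd (nat_lit 6) 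
(.lf (nat_lit 69666) (.g (nat_lit 1500) (.e (nat_lit 1658) (nat_lit 115) (.e (nat_lit 393274) (nat_lit 23) (.e (nat_lit 426412) (nat_lit 15) (.e (nat_lit 2058) (nat_lit 142) (.e (nat_lit 704595) (nat_lit 5) (.e (nat_lit 180277) (nat_lit 32) .nil)))))) (.g (nat_lit 4) .nil .nil))) 
(.lf (nat_lit 69730) (.g (nat_lit 2232) (.e (nat_lit 1658) (nat_lit 115) (.e (nat_lit 393298) (nat_lit 27) (.e (nat_lit 491549) (nat_lit 9) (.e (nat_lit 336421) (nat_lit 28) (.e (nat_lit 434180) (nat_lit 0) .nil))))) (.g (nat_lit 4) .nil .nil))))) (.nd (nat_lit 5) (.nd (nat_lit 6) 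
(.lf (nat_lit 69650) (.g (nat_lit 1456) (.e (nat_lit 1658) (nat_lit 115) (.e (nat_lit 393271) (nat_lit 23) (.e (nat_lit 426112) (nat_lit 1) (.e (nat_lit 164348) (nat_lit 240) .nil)))) .nil)) 
(.lf (nat_lit 69714) (.g (nat_lit 1756) (.e (nat_lit 1658) (nat_lit 115) (.e (nat_lit 393296) (nat_lit 26) (.e (nat_lit 475197) (nat_lit 40) (.e (nat_lit 704595) (nat_lit 5) (.e (nat_lit 180277) (nat_lit 32) .nil))))) (.g (nat_lit 4) .nil .nil)))) (.nd (nat_lit 6) 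
(.lf (nat_lit 69682) (.g (nat_lit 1064) (.e (nat_lit 1658) (nat_lit 115) (.e (nat_lit 393284) (nat_lit 24) (.e (nat_lit 434272) (nat_lit 38) (.e (nat_lit 655379) (nat_lit 5) .nil)))) .nil)) 
(.lf (nat_lit 69746) (.g (nat_lit 1493) (.e (nat_lit 1658) (nat_lit 115) (.e (nat_lit 393300) (nat_lit 27) (.e (nat_lit 491568) (nat_lit 13) (.e (nat_lit 393230) (nat_lit 17) .nil)))) .nil))))) (.nd (nat_lit 4) (.nd (nat_lit 5) (.nd (nat_lit 6) 
(.lf (nat_lit 69642) (.g (nat_lit 1423) (.e (nat_lit 1658) (nat_lit 115) (.e (nat_lit 393260) (nat_lit 21) (.e (nat_lit 409616) (nat_lit 10) (.e (nat_lit 7936) (nat_lit 300) .nil)))) .nil)) 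
(.lf (nat_lit 69706) (.g (nat_lit 2206) (.e (nat_lit 1658) (nat_lit 115) (.e (nat_lit 393294) (nat_lit 26) (.e (nat_lit 475198) (nat_lit 40) (.e (nat_lit 704595) (nat_lit 5) (.e (nat_lit 180277) (nat_lit 32) .nil))))) (.g (nat_lit 4) .nil .nil)))) (.nd (nat_lit 6) 
(.lf (nat_lit 69674) (.g (nat_lit 1863) (.e (nat_lit 1658) (nat_lit 115) (.e (nat_lit 393281) (nat_lit 23) (.e (nat_lit 426107) (nat_lit 1) (.e (nat_lit 164345) (nat_lit 240) (.e (nat_lit 2639) (nat_lit 165) .nil))))) .nil)) 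
(.lf (nat_lit 69738) (.g (nat_lit 1771) (.e (nat_lit 1658) (nat_lit 115) (.e (nat_lit 393298) (nat_lit 27) (.e (nat_lit 491571) (nat_lit 13) (.e (nat_lit 393238) (nat_lit 17) .nil)))) .nil)))) (.nd (nat_lit 5) (.nd (nat_lit 6) 
(.lf (nat_lit 69658) (.g (nat_lit 1151) (.e (nat_lit 1658) (nat_lit 115) (.e (nat_lit 393271) (nat_lit 23) (.e (nat_lit 426405) (nat_lit 15) .nil))) .nil)) 
(.lf (nat_lit 69722) (.g (nat_lit 1859) (.e (nat_lit 1658) (nat_lit 115) (.e (nat_lit 393297) (nat_lit 27) (.e (nat_lit 491570) (nat_lit 13) (.e (nat_lit 393238) (nat_lit 17) (.e (nat_lit 7555) (nat_lit 402) .nil))))) .nil))) (.nd (nat_lit 6) 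
(.lf (nat_lit 69690) (.g (nat_lit 1876) (.e (nat_lit 1658) (nat_lit 115) (.e (nat_lit 393291) (nat_lit 26) (.e (nat_lit 475198) (nat_lit 40) (.e (nat_lit 704596) (nat_lit 5) (.e (nat_lit 180277) (nat_lit 32) .nil))))) (.g (nat_lit 4) .nil .nil))) 
(.lf (nat_lit 69754) (.g (nat_lit 973) (.e (nat_lit 1658) (nat_lit 115) (.e (nat_lit 393301) (nat_lit 27) (.e (nat_lit 491525) (nat_lit 0) .nil))) .nil)))))) (.nd (nat_lit 3) (.nd (nat_lit 4) (.nd (nat_lit 5) (.nd (nat_lit 6) 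
(.lf (nat_lit 69638) (.g (nat_lit 822) (.e (nat_lit 1658) (nat_lit 115) (.e (nat_lit 393253) (nat_lit 18) (.e (nat_lit 164163) (nat_lit 152) .nil))) .nil)) 
(.lf (nat_lit 69702) (.g (nat_lit 523) (.e (nat_lit 1658) (nat_lit 115) (.e (nat_lit 393293) (nat_lit 26) (.e (nat_lit 475209) (nat_lit 41) .nil))) .nil))) (.nd (nat_lit 6) 
(.lf (nat_lit 69670) (.g (nat_lit 1264) (.e (nat_lit 1658) (nat_lit 115) (.e (nat_lit 393279) (nat_lit 23) (.e (nat_lit 426419) (nat_lit 15) (.e (nat_lit 2058) (nat_lit 142) (.e (nat_lit 704595) (nat_lit 5) .nil))))) .nil)) 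
(.lf (nat_lit 69734) (.g (nat_lit 1590) (.e (nat_lit 1658) (nat_lit 115) (.e (nat_lit 393298) (nat_lit 27) (.e (nat_lit 491570) (nat_lit 13) (.e (nat_lit 393238) (nat_lit 17) .nil)))) .nil)))) (.nd (nat_lit 5) (.nd (nat_lit 6) 
(.lf (nat_lit 69654) (.g (nat_lit 1983) (.e (nat_lit 1658) (nat_lit 115) (.e (nat_lit 393271) (nat_lit 23) (.e (nat_lit 426354) (nat_lit 15) (.e (nat_lit 2053) (nat_lit 142) .nil)))) .nil)) 
(.lf (nat_lit 69718) (.g (nat_lit 1911) (.e (nat_lit 1658) (nat_lit 115) (.e (nat_lit 393296) (nat_lit 26) (.e (nat_lit 475198) (nat_lit 40) (.e (nat_lit 704596) (nat_lit 5) (.e (nat_lit 180277) (nat_lit 32) .nil))))) (.g (nat_lit 4) .nil .nil)))) (.nd (nat_lit 6) 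
(.lf (nat_lit 69686) (.g (nat_lit 894) (.e (nat_lit 1658) (nat_lit 115) (.e (nat_lit 393290) (nat_lit 26) (.e (nat_lit 475211) (nat_lit 41) (.e (nat_lit 712749) (nat_lit 28) .nil)))) .nil)) 
(.lf (nat_lit 69750) (.g (nat_lit 3075) (.e (nat_lit 1658) (nat_lit 115) (.e (nat_lit 393300) (nat_lit 27) (.e (nat_lit 491570) (nat_lit 13) (.e (nat_lit 393238) (nat_lit 17) (.e (nat_lit 7555) (nat_lit 402) .nil))))) .nil))))) (.nd (nat_lit 4) (.nd (nat_lit 5) (.nd (nat_lit 6) 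
(.lf (nat_lit 69646) (.g (nat_lit 859) (.e (nat_lit 1658) (nat_lit 115) (.e (nat_lit 393270) (nat_lit 23) (.e (nat_lit 426444) (nat_lit 19) (.e (nat_lit 114432) (nat_lit 5) .nil)))) .nil)) 
(.lf (nat_lit 69710) (.g (nat_lit 1767) (.e (nat_lit 1658) (nat_lit 115) (.e (nat_lit 393294) (nat_lit 26) (.e (nat_lit 475199) (nat_lit 40) (.e (nat_lit 704596) (nat_lit 5) (.e (nat_lit 180277) (nat_lit 32) .nil))))) (.g (nat_lit 4) .nil .nil)))) (.nd (nat_lit 6) 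
(.lf (nat_lit 69678) (.g (nat_lit 1170) (.e (nat_lit 1658) (nat_lit 115) (.e (nat_lit 393282) (nat_lit 24) (.e (nat_lit 434209) (nat_lit 18) (.e (nat_lit 5547) (nat_lit 306) .nil)))) .nil)) 
(.lf (nat_lit 69742) (.g (nat_lit 1811) (.e (nat_lit 1658) (nat_lit 115) (.e (nat_lit 393300) (nat_lit 27) (.e (nat_lit 491548) (nat_lit 9) (.e (nat_lit 336421) (nat_lit 28) (.e (nat_lit 434180) (nat_lit 0) .nil))))) (.g (nat_lit 4) .nil .nil))))) (.nd (nat_lit 5) (.nd (nat_lit 6) 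
(.lf (nat_lit 69662) (.g (nat_lit 2332) (.e (nat_lit 1658) (nat_lit 115) (.e (nat_lit 393273) (nat_lit 23) (.e (nat_lit 426364) (nat_lit 15) (.e (nat_lit 2160) (nat_lit 143) (.e (nat_lit 712749) (nat_lit 28) (.e (nat_lit 434180) (nat_lit 0) .nil)))))) (.g (nat_lit 6) .nil .nil))) 
(.lf (nat_lit 69726) (.g (nat_lit 1134) (.e (nat_lit 1658) (nat_lit 115) (.e (nat_lit 393297) (nat_lit 27) (.e (nat_lit 491571) (nat_lit 13) (.e (nat_lit 393235) (nat_lit 17) .nil)))) .nil))) (.nd (nat_lit 6) 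
(.lf (nat_lit 69694) (.g (nat_lit 1724) (.e (nat_lit 1658) (nat_lit 115) (.e (nat_lit 393291) (nat_lit 26) (.e (nat_lit 475210) (nat_lit 41) (.e (nat_lit 712749) (nat_lit 28) .nil)))) .nil)) 
(.lf (nat_lit 69758) (.g (nat_lit 2110) (.e (nat_lit 1658) (nat_lit 115) (.e (nat_lit 393301) (nat_lit 27) (.e (nat_lit 491526) (nat_lit 0) (.e (nat_lit 1788) (nat_lit 119) (.e (nat_lit 516129) (nat_lit 3) (.e (nat_lit 221217) (nat_lit 24) (.e (nat_lit 212994) (nat_lit 0) .nil))))))) (.g (nat_lit 4) .nil .nil))))))))) 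
(.nd (nat_lit 1) (.nd (nat_lit 2) (.nd (nat_lit 3) (.nd (nat_lit 4) (.nd (nat_lit 5) 
(.nd (nat_lit 6) 
(.lf (nat_lit 69633) (.g (nat_lit 633) (.e (nat_lit 1658) (nat_lit 115) (.e (nat_lit 393253) (nat_lit 18) (.e (nat_lit 164155) (nat_lit 152) .nil))) .nil)) 
(.lf (nat_lit 69697) (.g (nat_lit 1424) (.e (nat_lit 1658) (nat_lit 115) (.e (nat_lit 393293) (nat_lit 26) (.e (nat_lit 475197) (nat_lit 40) (.e (nat_lit 704595) (nat_lit 5) (.e (nat_lit 180277) (nat_lit 32) .nil))))) .nil))) (.nd (nat_lit 6) 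
(.lf (nat_lit 69665) (.g (nat_lit 469) (.e (nat_lit 1658) (nat_lit 115) (.e (nat_lit 393274) (nat_lit 23) (.e (nat_lit 426410) (nat_lit 15) .nil))) .nil)) 
(.lf (nat_lit 69729) (.g (nat_lit 799) (.e (nat_lit 1658) (nat_lit 115) (.e (nat_lit 393298) (nat_lit 27) (.e (nat_lit 491548) (nat_lit 9) .nil))) .nil)))) (.nd (nat_lit 5) (.nd (nat_lit 6) 
(.lf (nat_lit 69649) (.g (nat_lit 1529) (.e (nat_lit 1658) (nat_lit 115) (.e (nat_lit 393271) (nat_lit 23) (.e (nat_lit 426112) (nat_lit 1) (.e (nat_lit 164347) (nat_lit 240) .nil)))) .nil)) 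
(.lf (nat_lit 69713) (.g (nat_lit 1698) (.e (nat_lit 1658) (nat_lit 115) (.e (nat_lit 393296) (nat_lit 26) (.e (nat_lit 475196) (nat_lit 40) (.e (nat_lit 704595) (nat_lit 5) (.e (nat_lit 180278) (nat_lit 32) .nil))))) (.g (nat_lit 5) .nil .nil)))) (.nd (nat_lit 6) 
(.lf (nat_lit 69681) (.g (nat_lit 2219) (.e (nat_lit 1658) (nat_lit 115) (.e (nat_lit 393283) (nat_lit 24) (.e (nat_lit 434272) (nat_lit 38) (.e (nat_lit 655379) (nat_lit 5) (.e (nat_lit 180278) (nat_lit 32) .nil))))) (.g (nat_lit 0) .nil .nil))) 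
(.lf (nat_lit 69745) (.g (nat_lit 633) (.e (nat_lit 1658) (nat_lit 115) (.e (nat_lit 393300) (nat_lit 27) (.e (nat_lit 491568) (nat_lit 13) .nil))) .nil))))) (.nd (nat_lit 4) (.nd (nat_lit 5) (.nd (nat_lit 6) 
(.lf (nat_lit 69641) (.g (nat_lit 1718) (.e (nat_lit 1658) (nat_lit 115) (.e (nat_lit 393253) (nat_lit 18) (.e (nat_lit 164179) (nat_lit 154) (.e (nat_lit 57421) (nat_lit 13) .nil)))) .nil)) 
(.lf (nat_lit 69705) (.g (nat_lit 1833) (.e (nat_lit 1658) (nat_lit 115) (.e (nat_lit 393294) (nat_lit 26) (.e (nat_lit 475197) (nat_lit 40) (.e (nat_lit 704595) (nat_lit 5) (.e (nat_lit 180278) (nat_lit 32) .nil))))) (.g (nat_lit 4) .nil .nil)))) (.nd (nat_lit 6) 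
(.lf (nat_lit 69673) (.g (nat_lit 1446) (.e (nat_lit 1658) (nat_lit 115) (.e (nat_lit 393281) (nat_lit 23) (.e (nat_lit 426100) (nat_lit 1) (.e (nat_lit 164345) (nat_lit 240) (.e (nat_lit 2639) (nat_lit 165) .nil))))) .nil)) 
(.lf (nat_lit 69737) (.g (nat_lit 1533) (.e (nat_lit 1658) (nat_lit 115) (.e (nat_lit 393298) (nat_lit 27) (.e (nat_lit 491571) (nat_lit 13) (.e (nat_lit 393235) (nat_lit 17) .nil)))) .nil)))) (.nd (nat_lit 5) (.nd (nat_lit 6) 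
(.lf (nat_lit 69657) (.g (nat_lit 959) (.e (nat_lit 1658) (nat_lit 115) (.e (nat_lit 393271) (nat_lit 23) (.e (nat_lit 426402) (nat_lit 15) .nil))) .nil)) 
(.lf (nat_lit 69721) (.g (nat_lit 1454) (.e (nat_lit 1658) (nat_lit 115) (.e (nat_lit 393296) (nat_lit 26) (.e (nat_lit 475209) (nat_lit 41) (.e (nat_lit 712749) (nat_lit 28) (.e (nat_lit 434180) (nat_lit 0) .nil))))) (.g (nat_lit 4) .nil .nil)))) (.nd (nat_lit 6) 
(.lf (nat_lit 69689) (.g (nat_lit 2109) (.e (nat_lit 1658) (nat_lit 115) (.e (nat_lit 393291) (nat_lit 26) (.e (nat_lit 475198) (nat_lit 40) (.e (nat_lit 704595) (nat_lit 5) (.e (nat_lit 180278) (nat_lit 32) .nil))))) (.g (nat_lit 4) .nil .nil))) 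
(.lf (nat_lit 69753) (.g (nat_lit 3335) (.e (nat_lit 1658) (nat_lit 115) (.e (nat_lit 393301) (nat_lit 27) (.e (nat_lit 491520) (nat_lit 0) (.e (nat_lit 1858) (nat_lit 124) (.e (nat_lit 557105) (nat_lit 14) (.e (nat_lit 180265) (nat_lit 21) (.e (nat_lit 663555) (nat_lit 0) .nil))))))) (.g (nat_lit 5) .nil .nil))))))) (.nd (nat_lit 3) (.nd (nat_lit 4) (.nd (nat_lit 5) (.nd (nat_lit 6) 
(.lf (nat_lit 69637) (.g (nat_lit 1584) (.e (nat_lit 1658) (nat_lit 115) (.e (nat_lit 393253) (nat_lit 18) (.e (nat_lit 164162) (nat_lit 152) (.e (nat_lit 1210) (nat_lit 89) .nil)))) .nil)) 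
(.lf (nat_lit 69701) (.g (nat_lit 2280) (.e (nat_lit 1658) (nat_lit 115) (.e (nat_lit 393293) (nat_lit 26) (.e (nat_lit 475198) (nat_lit 40) (.e (nat_lit 704596) (nat_lit 5) (.e (nat_lit 180277) (nat_lit 32) .nil))))) (.g (nat_lit 5) .nil .nil)))) (.nd (nat_lit 6) 
(.lf (nat_lit 69669) (.g (nat_lit 1053) (.e (nat_lit 1658) (nat_lit 115) (.e (nat_lit 393275) (nat_lit 23) (.e (nat_lit 426109) (nat_lit 1) (.e (nat_lit 164347) (nat_lit 240) (.e (nat_lit 2640) (nat_lit 165) .nil))))) .nil)) 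
(.lf (nat_lit 69733) (.g (nat_lit 658) (.e (nat_lit 1658) (nat_lit 115) (.e (nat_lit 393298) (nat_lit 27) (.e (nat_lit 491570) (nat_lit 13) .nil))) .nil)))) (.nd (nat_lit 5) (.nd (nat_lit 6) 
(.lf (nat_lit 69653) (.g (nat_lit 1176) (.e (nat_lit 1658) (nat_lit 115) (.e (nat_lit 393271) (nat_lit 23) (.e (nat_lit 426354) (nat_lit 15) .nil))) .nil)) 
(.lf (nat_lit 69717) (.g (nat_lit 2298) (.e (nat_lit 1658) (nat_lit 115) (.e (nat_lit 393296) (nat_lit 26) (.e (nat_lit 475198) (nat_lit 40) (.e (nat_lit 704595) (nat_lit 5) (.e (nat_lit 180277) (nat_lit 32) .nil))))) (.g (nat_lit 5) .nil .nil)))) (.nd (nat_lit 6) 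
(.lf (nat_lit 69685) (.g (nat_lit 2011) (.e (nat_lit 1658) (nat_lit 115) (.e (nat_lit 393290) (nat_lit 26) (.e (nat_lit 475199) (nat_lit 40) (.e (nat_lit 704595) (nat_lit 5) (.e (nat_lit 180278) (nat_lit 32) .nil))))) (.g (nat_lit 0) .nil .nil))) 
(.lf (nat_lit 69749) (.g (nat_lit 2135) (.e (nat_lit 1658) (nat_lit 115) (.e (nat_lit 393300) (nat_lit 27) (.e (nat_lit 491570) (nat_lit 13) (.e (nat_lit 393230) (nat_lit 17) .nil)))) .nil))))) (.nd (nat_lit 4) (.nd (nat_lit 5) (.nd (nat_lit 6) 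
(.lf (nat_lit 69645) (.g (nat_lit 1079) (.e (nat_lit 1658) (nat_lit 115) (.e (nat_lit 393268) (nat_lit 23) (.e (nat_lit 426444) (nat_lit 19) (.e (nat_lit 114432) (nat_lit 5) .nil)))) .nil)) 
(.lf (nat_lit 69709) (.g (nat_lit 2431) (.e (nat_lit 1658) (nat_lit 115) (.e (nat_lit 393294) (nat_lit 26) (.e (nat_lit 475199) (nat_lit 40) (.e (nat_lit 704595) (nat_lit 5) (.e (nat_lit 180278) (nat_lit 32) .nil))))) (.g (nat_lit 0) .nil .nil)))) (.nd (nat_lit 6) 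
(.lf (nat_lit 69677) (.g (nat_lit 580) (.e (nat_lit 1658) (nat_lit 115) (.e (nat_lit 393281) (nat_lit 23) (.e (nat_lit 426387) (nat_lit 15) .nil))) .nil)) 
(.lf (nat_lit 69741) (.g (nat_lit 1804) (.e (nat_lit 1658) (nat_lit 115) (.e (nat_lit 393299) (nat_lit 27) (.e (nat_lit 491570) (nat_lit 13) (.e (nat_lit 393238) (nat_lit 17) .nil)))) .nil)))) (.nd (nat_lit 5) (.nd (nat_lit 6) 
(.lf (nat_lit 69661) (.g (nat_lit 622) (.e (nat_lit 1658) (nat_lit 115) (.e (nat_lit 393273) (nat_lit 23) (.e (nat_lit 426364) (nat_lit 15) .nil))) .nil)) 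
(.lf (nat_lit 69725) (.g (nat_lit 1100) (.e (nat_lit 1658) (nat_lit 115) (.e (nat_lit 393297) (nat_lit 27) (.e (nat_lit 491571) (nat_lit 13) (.e (nat_lit 393232) (nat_lit 17) .nil)))) .nil))) (.nd (nat_lit 6) 
(.lf (nat_lit 69693) (.g (nat_lit 753) (.e (nat_lit 1658) (nat_lit 115) (.e (nat_lit 393291) (nat_lit 26) (.e (nat_lit 475210) (nat_lit 41) .nil))) .nil)) 
(.lf (nat_lit 69757) (.g (nat_lit 1905) (.e (nat_lit 1658) (nat_lit 115) (.e (nat_lit 393301) (nat_lit 27) (.e (nat_lit 491526) (nat_lit 0) (.e (nat_lit 1788) (nat_lit 119) (.e (nat_lit 516129) (nat_lit 3) .nil))))) .nil))))))) (.nd (nat_lit 2) (.nd (nat_lit 3) (.nd (nat_lit 4) (.nd (nat_lit 5) (.nd (nat_lit 6) 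
(.lf (nat_lit 69635) (.g (nat_lit 2631) (.e (nat_lit 1658) (nat_lit 115) (.e (nat_lit 393253) (nat_lit 18) (.e (nat_lit 164162) (nat_lit 152) (.e (nat_lit 1209) (nat_lit 89) (.e (nat_lit 73753) (nat_lit 8) .nil))))) .nil)) 
(.lf (nat_lit 69699) (.g (nat_lit 2255) (.e (nat_lit 1658) (nat_lit 115) (.e (nat_lit 393293) (nat_lit 26) (.e (nat_lit 475198) (nat_lit 40) (.e (nat_lit 704595) (nat_lit 5) (.e (nat_lit 180277) (nat_lit 32) .nil))))) (.g (nat_lit 5) .nil .nil)))) (.nd (nat_lit 6) 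
(.lf (nat_lit 69667) (.g (nat_lit 1682) (.e (nat_lit 1658) (nat_lit 115) (.e (nat_lit 393274) (nat_lit 23) (.e (nat_lit 426412) (nat_lit 15) (.e (nat_lit 2058) (nat_lit 142) (.e (nat_lit 704595) (nat_lit 5) (.e (nat_lit 180278) (nat_lit 32) .nil)))))) (.g (nat_lit 4) .nil .nil))) 
(.lf (nat_lit 69731) (.g (nat_lit 2129) (.e (nat_lit 1658) (nat_lit 115) (.e (nat_lit 393298) (nat_lit 27) (.e (nat_lit 491549) (nat_lit 9) (.e (nat_lit 336421) (nat_lit 28) (.e (nat_lit 434181) (nat_lit 0) .nil))))) (.g (nat_lit 4) .nil .nil))))) (.nd (nat_lit 5) (.nd (nat_lit 6) 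
(.lf (nat_lit 69651) (.g (nat_lit 1850) (.e (nat_lit 1658) (nat_lit 115) (.e (nat_lit 393271) (nat_lit 23) (.e (nat_lit 426112) (nat_lit 1) (.e (nat_lit 164348) (nat_lit 240) (.e (nat_lit 2638) (nat_lit 165) .nil))))) .nil)) 
(.lf (nat_lit 69715) (.g (nat_lit 2010) (.e (nat_lit 1658) (nat_lit 115) (.e (nat_lit 393296) (nat_lit 26) (.e (nat_lit 475197) (nat_lit 40) (.e (nat_lit 704595) (nat_lit 5) (.e (nat_lit 180278) (nat_lit 32) .nil))))) (.g (nat_lit 5) .nil .nil)))) (.nd (nat_lit 6) 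
(.lf (nat_lit 69683) (.g (nat_lit 1587) (.e (nat_lit 1658) (nat_lit 115) (.e (nat_lit 393290) (nat_lit 26) (.e (nat_lit 475198) (nat_lit 40) (.e (nat_lit 704596) (nat_lit 5) (.e (nat_lit 180277) (nat_lit 32) .nil))))) (.g (nat_lit 4) .nil .nil))) 
(.lf (nat_lit 69747) (.g (nat_lit 1504) (.e (nat_lit 1658) (nat_lit 115) (.e (nat_lit 393300) (nat_lit 27) (.e (nat_lit 491568) (nat_lit 13) (.e (nat_lit 393238) (nat_lit 17) .nil)))) .nil))))) (.nd (nat_lit 4) (.nd (nat_lit 5) (.nd (nat_lit 6) 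
(.lf (nat_lit 69643) (.g (nat_lit 1795) (.e (nat_lit 1658) (nat_lit 115) (.e (nat_lit 393260) (nat_lit 21) (.e (nat_lit 409641) (nat_lit 17) (.e (nat_lit 294973) (nat_lit 28) .nil)))) .nil)) 
(.lf (nat_lit 69707) (.g (nat_lit 1696) (.e (nat_lit 1658) (nat_lit 115) (.e (nat_lit 393294) (nat_lit 26) (.e (nat_lit 475198) (nat_lit 40) (.e (nat_lit 704596) (nat_lit 5) .nil)))) .nil))) (.nd (nat_lit 6) 
(.lf (nat_lit 69675) (.g (nat_lit 1944) (.e (nat_lit 1658) (nat_lit 115) (.e (nat_lit 393281) (nat_lit 23) (.e (nat_lit 426107) (nat_lit 1) (.e (nat_lit 164347) (nat_lit 240) (.e (nat_lit 2640) (nat_lit 165) .nil))))) .nil)) 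
(.lf (nat_lit 69739) (.g (nat_lit 2749) (.e (nat_lit 1658) (nat_lit 115) (.e (nat_lit 393298) (nat_lit 27) (.e (nat_lit 491571) (nat_lit 13) (.e (nat_lit 393238) (nat_lit 17) (.e (nat_lit 7555) (nat_lit 402) .nil))))) .nil)))) (.nd (nat_lit 5) (.nd (nat_lit 6) 
(.lf (nat_lit 69659) (.g (nat_lit 1151) (.e (nat_lit 1658) (nat_lit 115) (.e (nat_lit 393271) (nat_lit 23) (.e (nat_lit 426442) (nat_lit 19) .nil))) .nil)) 
(.lf (nat_lit 69723) (.g (nat_lit 1562) (.e (nat_lit 1658) (nat_lit 115) (.e (nat_lit 393297) (nat_lit 27) (.e (nat_lit 491571) (nat_lit 13) (.e (nat_lit 393231) (nat_lit 17) .nil)))) .nil))) (.nd (nat_lit 6) 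
(.lf (nat_lit 69691) (.g (nat_lit 2299) (.e (nat_lit 1658) (nat_lit 115) (.e (nat_lit 393291) (nat_lit 26) (.e (nat_lit 475199) (nat_lit 40) (.e (nat_lit 704595) (nat_lit 5) (.e (nat_lit 180277) (nat_lit 32) .nil))))) (.g (nat_lit 5) .nil .nil))) 
(.lf (nat_lit 69755) (.g (nat_lit 511) (.e (nat_lit 1658) (nat_lit 115) (.e (nat_lit 393301) (nat_lit 27) (.e (nat_lit 491526) (nat_lit 0) .nil))) .nil)))))) (.nd (nat_lit 3) (.nd (nat_lit 4) (.nd (nat_lit 5) (.nd (nat_lit 6) 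
(.lf (nat_lit 69639) (.g (nat_lit 1692) (.e (nat_lit 1658) (nat_lit 115) (.e (nat_lit 393253) (nat_lit 18) (.e (nat_lit 164163) (nat_lit 152) (.e (nat_lit 1211) (nat_lit 89) (.e (nat_lit 73754) (nat_lit 8) .nil))))) .nil)) 
(.lf (nat_lit 69703) (.g (nat_lit 965) (.e (nat_lit 1658) (nat_lit 115) (.e (nat_lit 393294) (nat_lit 26) (.e (nat_lit 475196) (nat_lit 40) .nil))) .nil))) (.nd (nat_lit 6) 
(.lf (nat_lit 69671) (.g (nat_lit 1763) (.e (nat_lit 1658) (nat_lit 115) (.e (nat_lit 393281) (nat_lit 23) (.e (nat_lit 426098) (nat_lit 1) (.e (nat_lit 164348) (nat_lit 240) (.e (nat_lit 2639) (nat_lit 165) .nil))))) .nil)) 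
(.lf (nat_lit 69735) (.g (nat_lit 2819) (.e (nat_lit 1658) (nat_lit 115) (.e (nat_lit 393298) (nat_lit 27) (.e (nat_lit 491570) (nat_lit 13) (.e (nat_lit 393238) (nat_lit 17) (.e (nat_lit 7555) (nat_lit 402) .nil))))) (.g (nat_lit 4) .nil .nil))))) (.nd (nat_lit 5) (.nd (nat_lit 6) 
(.lf (nat_lit 69655) (.g (nat_lit 2444) (.e (nat_lit 1658) (nat_lit 115) (.e (nat_lit 393271) (nat_lit 23) (.e (nat_lit 426354) (nat_lit 15) (.e (nat_lit 2064) (nat_lit 142) (.e (nat_lit 704595) (nat_lit 5) (.e (nat_lit 180278) (nat_lit 32) .nil)))))) (.g (nat_lit 4) .nil .nil))) 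
(.lf (nat_lit 69719) (.g (nat_lit 1944) (.e (nat_lit 1658) (nat_lit 115) (.e (nat_lit 393296) (nat_lit 26) (.e (nat_lit 475207) (nat_lit 41) (.e (nat_lit 712749) (nat_lit 28) (.e (nat_lit 434180) (nat_lit 0) .nil))))) (.g (nat_lit 0) .nil .nil)))) (.nd (nat_lit 6) 
(.lf (nat_lit 69687) (.g (nat_lit 945) (.e (nat_lit 1658) (nat_lit 115) (.e (nat_lit 393291) (nat_lit 26) (.e (nat_lit 475197) (nat_lit 40) .nil))) .nil)) 
(.lf (nat_lit 69751) (.g (nat_lit 1846) (.e (nat_lit 1658) (nat_lit 115) (.e (nat_lit 393300) (nat_lit 27) (.e (nat_lit 491570) (nat_lit 13) (.e (nat_lit 393242) (nat_lit 17) .nil)))) .nil))))) (.nd (nat_lit 4) (.nd (nat_lit 5) (.nd (nat_lit 6) 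
(.lf (nat_lit 69647) (.g (nat_lit 873) (.e (nat_lit 1658) (nat_lit 115) (.e (nat_lit 393271) (nat_lit 23) (.e (nat_lit 426112) (nat_lit 1) .nil))) .nil)) 
(.lf (nat_lit 69711) (.g (nat_lit 1692) (.e (nat_lit 1658) (nat_lit 115) (.e (nat_lit 393294) (nat_lit 26) (.e (nat_lit 475211) (nat_lit 41) (.e (nat_lit 712749) (nat_lit 28) .nil)))) .nil))) (.nd (nat_lit 6) 
(.lf (nat_lit 69679) (.g (nat_lit 2083) (.e (nat_lit 1658) (nat_lit 115) (.e (nat_lit 393282) (nat_lit 24) (.e (nat_lit 434209) (nat_lit 18) (.e (nat_lit 5548) (nat_lit 306) (.e (nat_lit 2639) (nat_lit 165) .nil))))) .nil)) 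
(.lf (nat_lit 69743) (.g (nat_lit 2709) (.e (nat_lit 1658) (nat_lit 115) (.e (nat_lit 393300) (nat_lit 27) (.e (nat_lit 491549) (nat_lit 9) (.e (nat_lit 336421) (nat_lit 28) (.e (nat_lit 434181) (nat_lit 0) .nil))))) (.g (nat_lit 4) .nil .nil))))) (.nd (nat_lit 5) (.nd (nat_lit 6) 
(.lf (nat_lit 69663) (.g (nat_lit 1946) (.e (nat_lit 1658) (nat_lit 115) (.e (nat_lit 393274) (nat_lit 23) (.e (nat_lit 426396) (nat_lit 15) (.e (nat_lit 2059) (nat_lit 142) (.e (nat_lit 704595) (nat_lit 5) .nil))))) .nil)) 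
(.lf (nat_lit 69727) (.g (nat_lit 2613) (.e (nat_lit 1658) (nat_lit 115) (.e (nat_lit 393297) (nat_lit 27) (.e (nat_lit 491571) (nat_lit 13) (.e (nat_lit 393238) (nat_lit 17) (.e (nat_lit 7555) (nat_lit 402) .nil))))) (.g (nat_lit 4) .nil .nil)))) (.nd (nat_lit 6) 
(.lf (nat_lit 69695) (.g (nat_lit 1478) (.e (nat_lit 1658) (nat_lit 115) (.e (nat_lit 393293) (nat_lit 26) (.e (nat_lit 475196) (nat_lit 40) (.e (nat_lit 704595) (nat_lit 5) (.e (nat_lit 180277) (nat_lit 32) .nil))))) (.g (nat_lit 5) .nil .nil))) 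
(.lf (nat_lit 69759) (.g (nat_lit 1835) (.e (nat_lit 1658) (nat_lit 115) (.e (nat_lit 393301) (nat_lit 27) (.e (nat_lit 491526) (nat_lit 0) (.e (nat_lit 1788) (nat_lit 119) (.e (nat_lit 516130) (nat_lit 3) (.e (nat_lit 221218) (nat_lit 24) (.e (nat_lit 220928) (nat_lit 0) .nil))))))) (.g (nat_lit 4) .nil .nil))))))))))

noncomputable def tv955 : DT := (.nd (nat_lit 0) (.nd (nat_lit 1) (.nd (nat_lit 2) (.nd (nat_lit 3) (.nd (nat_lit 4) (.nd (nat_lit 5) (.nd (nat_lit 6) 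
(.lf (nat_lit 69760) (.g (nat_lit 3019) (.e (nat_lit 1658) (nat_lit 115) (.e (nat_lit 393301) (nat_lit 27) (.e (nat_lit 491526) (nat_lit 0) (.e (nat_lit 1788) (nat_lit 119) (.e (nat_lit 516130) (nat_lit 3) (.e (nat_lit 221219) (nat_lit 24) (.e (nat_lit 212992) (nat_lit 0) .nil))))))) (.g (nat_lit 7) .nil .nil))) 
(.lf (nat_lit 69824) (.g (nat_lit 3204) (.e (nat_lit 1658) (nat_lit 115) (.e (nat_lit 393301) (nat_lit 27) (.e (nat_lit 491559) (nat_lit 10) (.e (nat_lit 344090) (nat_lit 18) (.e (nat_lit 7265) (nat_lit 384) (.e (nat_lit 57354) (nat_lit 0) (.e (nat_lit 6493) (nat_lit 343) .nil))))))) (.g (nat_lit 5) .nil .nil)))) (.nd (nat_lit 6) 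
(.lf (nat_lit 69792) (.g (nat_lit 555) (.e (nat_lit 1658) (nat_lit 115) (.e (nat_lit 393301) (nat_lit 27) (.e (nat_lit 491558) (nat_lit 10) .nil))) .nil)) 
(.lf (nat_lit 69856) (.g (nat_lit 2848) (.e (nat_lit 1658) (nat_lit 115) (.e (nat_lit 393301) (nat_lit 27) (.e (nat_lit 491560) (nat_lit 10) (.e (nat_lit 344090) (nat_lit 18) (.e (nat_lit 7124) (nat_lit 382) .nil))))) .nil)))) (.nd (nat_lit 5) (.nd (nat_lit 6) 
(.lf (nat_lit 69776) (.g (nat_lit 1649) (.e (nat_lit 1658) (nat_lit 115) (.e (nat_lit 393301) (nat_lit 27) (.e (nat_lit 491538) (nat_lit 3) (.e (nat_lit 98342) (nat_lit 20) (.e (nat_lit 221219) (nat_lit 24) (.e (nat_lit 212993) (nat_lit 0) .nil)))))) (.g (nat_lit 4) .nil .nil))) 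
(.lf (nat_lit 69840) (.g (nat_lit 2675) (.e (nat_lit 1658) (nat_lit 115) (.e (nat_lit 393301) (nat_lit 27) (.e (nat_lit 491559) (nat_lit 10) (.e (nat_lit 344096) (nat_lit 18) (.e (nat_lit 7263) (nat_lit 384) .nil))))) .nil))) (.nd (nat_lit 6) 
(.lf (nat_lit 69808) (.g (nat_lit 1932) (.e (nat_lit 1658) (nat_lit 115) (.e (nat_lit 393301) (nat_lit 27) (.e (nat_lit 491558) (nat_lit 10) (.e (nat_lit 344095) (nat_lit 18) (.e (nat_lit 7261) (nat_lit 384) (.e (nat_lit 57354) (nat_lit 0) (.e (nat_lit 6493) (nat_lit 343) .nil))))))) (.g (nat_lit 4) .nil .nil))) 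
(.lf (nat_lit 69872) (.g (nat_lit 3962) (.e (nat_lit 1658) (nat_lit 115) (.e (nat_lit 393301) (nat_lit 27) (.e (nat_lit 491560) (nat_lit 10) (.e (nat_lit 344094) (nat_lit 18) (.e (nat_lit 7263) (nat_lit 384) (.e (nat_lit 57354) (nat_lit 0) (.e (nat_lit 6493) (nat_lit 343) .nil))))))) (.g (nat_lit 7) .nil .nil)))))) (.nd (nat_lit 4) (.nd (nat_lit 5) (.nd (nat_lit 6) 
(.lf (nat_lit 69768) (.g (nat_lit 3143) (.e (nat_lit 1658) (nat_lit 115) (.e (nat_lit 393301) (nat_lit 27) (.e (nat_lit 491526) (nat_lit 0) (.e (nat_lit 1855) (nat_lit 124) (.e (nat_lit 557105) (nat_lit 14) (.e (nat_lit 180265) (nat_lit 21) (.e (nat_lit 663555) (nat_lit 0) .nil))))))) (.g (nat_lit 5) .nil .nil))) 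
(.lf (nat_lit 69832) (.g (nat_lit 2516) (.e (nat_lit 1658) (nat_lit 115) (.e (nat_lit 393301) (nat_lit 27) (.e (nat_lit 491559) (nat_lit 10) (.e (nat_lit 344091) (nat_lit 18) (.e (nat_lit 7265) (nat_lit 384) .nil))))) .nil))) (.nd (nat_lit 6) 
(.lf (nat_lit 69800) (.g (nat_lit 3383) (.e (nat_lit 1658) (nat_lit 115) (.e (nat_lit 393301) (nat_lit 27) (.e (nat_lit 491558) (nat_lit 10) (.e (nat_lit 344091) (nat_lit 18) (.e (nat_lit 7122) (nat_lit 382) (.e (nat_lit 1183) (nat_lit 87) (.e (nat_lit 57741) (nat_lit 187) .nil))))))) (.g (nat_lit 5) .nil .nil))) 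
(.lf (nat_lit 69864) (.g (nat_lit 2894) (.e (nat_lit 1658) (nat_lit 115) (.e (nat_lit 393301) (nat_lit 27) (.e (nat_lit 491560) (nat_lit 10) (.e (nat_lit 344091) (nat_lit 18) (.e (nat_lit 6923) (nat_lit 371) .nil))))) .nil)))) (.nd (nat_lit 5) (.nd (nat_lit 6) 
(.lf (nat_lit 69784) (.g (nat_lit 1223) (.e (nat_lit 1658) (nat_lit 115) (.e (nat_lit 393301) (nat_lit 27) (.e (nat_lit 491546) (nat_lit 9) (.e (nat_lit 343808) (nat_lit 28) .nil)))) .nil)) 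
(.lf (nat_lit 69848) (.g (nat_lit 3468) (.e (nat_lit 1658) (nat_lit 115) (.e (nat_lit 393301) (nat_lit 27) (.e (nat_lit 491559) (nat_lit 10) (.e (nat_lit 344177) (nat_lit 43) (.e (nat_lit 770069) (nat_lit 7) (.e (nat_lit 57741) (nat_lit 187) .nil)))))) (.g (nat_lit 5) .nil .nil)))) (.nd (nat_lit 6) 
(.lf (nat_lit 69816) (.g (nat_lit 1616) (.e (nat_lit 1658) (nat_lit 115) (.e (nat_lit 393301) (nat_lit 27) (.e (nat_lit 491558) (nat_lit 10) (.e (nat_lit 344097) (nat_lit 18) .nil)))) .nil)) 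
(.lf (nat_lit 69880) (.g (nat_lit 2921) (.e (nat_lit 1658) (nat_lit 115) (.e (nat_lit 393301) (nat_lit 27) (.e (nat_lit 491560) (nat_lit 10) (.e (nat_lit 344096) (nat_lit 18) (.e (nat_lit 7265) (nat_lit 384) .nil))))) .nil)))))) (.nd (nat_lit 3) (.nd (nat_lit 4) (.nd (nat_lit 5) (.nd (nat_lit 6) 
(.lf (nat_lit 69764) (.g (nat_lit 2405) (.e (nat_lit 1658) (nat_lit 115) (.e (nat_lit 393301) (nat_lit 27) (.e (nat_lit 491526) (nat_lit 0) (.e (nat_lit 1788) (nat_lit 119) (.e (nat_lit 516131) (nat_lit 3) (.e (nat_lit 221219) (nat_lit 24) (.e (nat_lit 212992) (nat_lit 0) .nil))))))) (.g (nat_lit 4) .nil .nil))) 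
(.lf (nat_lit 69828) (.g (nat_lit 2515) (.e (nat_lit 1658) (nat_lit 115) (.e (nat_lit 393301) (nat_lit 27) (.e (nat_lit 491559) (nat_lit 10) (.e (nat_lit 344091) (nat_lit 18) (.e (nat_lit 7124) (nat_lit 382) .nil))))) .nil))) (.nd (nat_lit 6) 
(.lf (nat_lit 69796) (.g (nat_lit 2901) (.e (nat_lit 1658) (nat_lit 115) (.e (nat_lit 393301) (nat_lit 27) (.e (nat_lit 491558) (nat_lit 10) (.e (nat_lit 344090) (nat_lit 18) (.e (nat_lit 7124) (nat_lit 382) (.e (nat_lit 1183) (nat_lit 87) (.e (nat_lit 57741) (nat_lit 187) .nil))))))) (.g (nat_lit 5) .nil .nil))) 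
(.lf (nat_lit 69860) (.g (nat_lit 2869) (.e (nat_lit 1658) (nat_lit 115) (.e (nat_lit 393301) (nat_lit 27) (.e (nat_lit 491560) (nat_lit 10) (.e (nat_lit 344090) (nat_lit 18) (.e (nat_lit 7265) (nat_lit 384) .nil))))) .nil)))) (.nd (nat_lit 5) (.nd (nat_lit 6) 
(.lf (nat_lit 69780) (.g (nat_lit 2157) (.e (nat_lit 1658) (nat_lit 115) (.e (nat_lit 393301) (nat_lit 27) (.e (nat_lit 491539) (nat_lit 3) (.e (nat_lit 98342) (nat_lit 20) (.e (nat_lit 221219) (nat_lit 24) .nil))))) .nil)) 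
(.lf (nat_lit 69844) (.g (nat_lit 2058) (.e (nat_lit 1658) (nat_lit 115) (.e (nat_lit 393301) (nat_lit 27) (.e (nat_lit 491559) (nat_lit 10) (.e (nat_lit 344175) (nat_lit 43) .nil)))) .nil))) (.nd (nat_lit 6) 
(.lf (nat_lit 69812) (.g (nat_lit 3593) (.e (nat_lit 1658) (nat_lit 115) (.e (nat_lit 393301) (nat_lit 27) (.e (nat_lit 491558) (nat_lit 10) (.e (nat_lit 344096) (nat_lit 18) (.e (nat_lit 7263) (nat_lit 384) (.e (nat_lit 57354) (nat_lit 0) (.e (nat_lit 6493) (nat_lit 343) .nil))))))) (.g (nat_lit 6) .nil .nil))) 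
(.lf (nat_lit 69876) (.g (nat_lit 2545) (.e (nat_lit 1658) (nat_lit 115) (.e (nat_lit 393301) (nat_lit 27) (.e (nat_lit 491560) (nat_lit 10) (.e (nat_lit 344095) (nat_lit 18) .nil)))) .nil))))) (.nd (nat_lit 4) (.nd (nat_lit 5) (.nd (nat_lit 6) 
(.lf (nat_lit 69772) (.g (nat_lit 1918) (.e (nat_lit 1658) (nat_lit 115) (.e (nat_lit 393301) (nat_lit 27) (.e (nat_lit 491538) (nat_lit 3) (.e (nat_lit 98341) (nat_lit 20) (.e (nat_lit 221218) (nat_lit 24) .nil))))) .nil)) 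
(.lf (nat_lit 69836) (.g (nat_lit 2258) (.e (nat_lit 1658) (nat_lit 115) (.e (nat_lit 393301) (nat_lit 27) (.e (nat_lit 491559) (nat_lit 10) (.e (nat_lit 344094) (nat_lit 18) (.e (nat_lit 7263) (nat_lit 384) .nil))))) .nil))) (.nd (nat_lit 6) 
(.lf (nat_lit 69804) (.g (nat_lit 2172) (.e (nat_lit 1658) (nat_lit 115) (.e (nat_lit 393301) (nat_lit 27) (.e (nat_lit 491558) (nat_lit 10) (.e (nat_lit 344091) (nat_lit 18) (.e (nat_lit 7265) (nat_lit 384) .nil))))) .nil)) 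
(.lf (nat_lit 69868) (.g (nat_lit 3370) (.e (nat_lit 1658) (nat_lit 115) (.e (nat_lit 393301) (nat_lit 27) (.e (nat_lit 491560) (nat_lit 10) (.e (nat_lit 344091) (nat_lit 18) (.e (nat_lit 7263) (nat_lit 384) (.e (nat_lit 57354) (nat_lit 0) (.e (nat_lit 6493) (nat_lit 343) .nil))))))) (.g (nat_lit 5) .nil .nil))))) (.nd (nat_lit 5) (.nd (nat_lit 6) 
(.lf (nat_lit 69788) (.g (nat_lit 1549) (.e (nat_lit 1658) (nat_lit 115) (.e (nat_lit 393301) (nat_lit 27) (.e (nat_lit 491547) (nat_lit 9) (.e (nat_lit 336425) (nat_lit 28) .nil)))) .nil)) 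
(.lf (nat_lit 69852) (.g (nat_lit 2378) (.e (nat_lit 1658) (nat_lit 115) (.e (nat_lit 393301) (nat_lit 27) (.e (nat_lit 491560) (nat_lit 10) (.e (nat_lit 344088) (nat_lit 18) .nil)))) .nil))) (.nd (nat_lit 6) 
(.lf (nat_lit 69820) (.g (nat_lit 2690) (.e (nat_lit 1658) (nat_lit 115) (.e (nat_lit 393301) (nat_lit 27) (.e (nat_lit 491559) (nat_lit 10) (.e (nat_lit 344090) (nat_lit 18) (.e (nat_lit 7124) (nat_lit 382) (.e (nat_lit 1183) (nat_lit 87) (.e (nat_lit 57741) (nat_lit 187) .nil))))))) (.g (nat_lit 4) .nil .nil))) 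
(.lf (nat_lit 69884) (.g (nat_lit 2858) (.e (nat_lit 1658) (nat_lit 115) (.e (nat_lit 393301) (nat_lit 27) (.e (nat_lit 491560) (nat_lit 10) (.e (nat_lit 344097) (nat_lit 18) (.e (nat_lit 7270) (nat_lit 385) .nil))))) .nil))))))) (.nd (nat_lit 2) (.nd (nat_lit 3) (.nd (nat_lit 4) (.nd (nat_lit 5) (.nd (nat_lit 6) 
(.lf (nat_lit 69762) (.g (nat_lit 2127) (.e (nat_lit 1658) (nat_lit 115) (.e (nat_lit 393301) (nat_lit 27) (.e (nat_lit 491526) (nat_lit 0) (.e (nat_lit 1788) (nat_lit 119) (.e (nat_lit 516130) (nat_lit 3) (.e (nat_lit 221219) (nat_lit 24) (.e (nat_lit 220928) (nat_lit 0) .nil))))))) (.g (nat_lit 4) .nil .nil))) 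
(.lf (nat_lit 69826) (.g (nat_lit 2550) (.e (nat_lit 1658) (nat_lit 115) (.e (nat_lit 393301) (nat_lit 27) (.e (nat_lit 491559) (nat_lit 10) (.e (nat_lit 344091) (nat_lit 18) (.e (nat_lit 6923) (nat_lit 371) .nil))))) .nil))) (.nd (nat_lit 6) 
(.lf (nat_lit 69794) (.g (nat_lit 1683) (.e (nat_lit 1658) (nat_lit 115) (.e (nat_lit 393301) (nat_lit 27) (.e (nat_lit 491558) (nat_lit 10) (.e (nat_lit 344090) (nat_lit 18) .nil)))) .nil)) 
(.lf (nat_lit 69858) (.g (nat_lit 2919) (.e (nat_lit 1658) (nat_lit 115) (.e (nat_lit 393301) (nat_lit 27) (.e (nat_lit 491560) (nat_lit 10) (.e (nat_lit 344090) (nat_lit 18) (.e (nat_lit 7261) (nat_lit 384) (.e (nat_lit 57354) (nat_lit 0) (.e (nat_lit 6493) (nat_lit 343) .nil))))))) (.g (nat_lit 4) .nil .nil))))) (.nd (nat_lit 5) (.nd (nat_lit 6) 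
(.lf (nat_lit 69778) (.g (nat_lit 974) (.e (nat_lit 1658) (nat_lit 115) (.e (nat_lit 393301) (nat_lit 27) (.e (nat_lit 491539) (nat_lit 3) .nil))) .nil)) 
(.lf (nat_lit 69842) (.g (nat_lit 2652) (.e (nat_lit 1658) (nat_lit 115) (.e (nat_lit 393301) (nat_lit 27) (.e (nat_lit 491559) (nat_lit 10) (.e (nat_lit 344096) (nat_lit 18) (.e (nat_lit 7265) (nat_lit 384) (.e (nat_lit 57354) (nat_lit 0) (.e (nat_lit 6493) (nat_lit 343) .nil))))))) (.g (nat_lit 4) .nil .nil)))) (.nd (nat_lit 6) 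
(.lf (nat_lit 69810) (.g (nat_lit 1583) (.e (nat_lit 1658) (nat_lit 115) (.e (nat_lit 393301) (nat_lit 27) (.e (nat_lit 491558) (nat_lit 10) (.e (nat_lit 344096) (nat_lit 18) .nil)))) .nil)) 
(.lf (nat_lit 69874) (.g (nat_lit 2214) (.e (nat_lit 1658) (nat_lit 115) (.e (nat_lit 393301) (nat_lit 27) (.e (nat_lit 491560) (nat_lit 10) (.e (nat_lit 344094) (nat_lit 18) (.e (nat_lit 7265) (nat_lit 384) (.e (nat_lit 57347) (nat_lit 0) (.e (nat_lit 6461) (nat_lit 343) .nil))))))) (.g (nat_lit 4) .nil .nil)))))) (.nd (nat_lit 4) (.nd (nat_lit 5) (.nd (nat_lit 6) 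
(.lf (nat_lit 69770) (.g (nat_lit 2142) (.e (nat_lit 1658) (nat_lit 115) (.e (nat_lit 393301) (nat_lit 27) (.e (nat_lit 491530) (nat_lit 0) (.e (nat_lit 1796) (nat_lit 119) (.e (nat_lit 516131) (nat_lit 3) (.e (nat_lit 221219) (nat_lit 24) (.e (nat_lit 212992) (nat_lit 0) .nil))))))) (.g (nat_lit 5) .nil .nil))) 
(.lf (nat_lit 69834) (.g (nat_lit 3984) (.e (nat_lit 1658) (nat_lit 115) (.e (nat_lit 393301) (nat_lit 27) (.e (nat_lit 491559) (nat_lit 10) (.e (nat_lit 344091) (nat_lit 18) (.e (nat_lit 7265) (nat_lit 384) (.e (nat_lit 57354) (nat_lit 0) (.e (nat_lit 6493) (nat_lit 343) .nil))))))) (.g (nat_lit 6) .nil .nil)))) (.nd (nat_lit 6) 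
(.lf (nat_lit 69802) (.g (nat_lit 2185) (.e (nat_lit 1658) (nat_lit 115) (.e (nat_lit 393301) (nat_lit 27) (.e (nat_lit 491558) (nat_lit 10) (.e (nat_lit 344091) (nat_lit 18) (.e (nat_lit 7261) (nat_lit 384) .nil))))) .nil)) 
(.lf (nat_lit 69866) (.g (nat_lit 2991) (.e (nat_lit 1658) (nat_lit 115) (.e (nat_lit 393301) (nat_lit 27) (.e (nat_lit 491560) (nat_lit 10) (.e (nat_lit 344091) (nat_lit 18) (.e (nat_lit 7124) (nat_lit 382) (.e (nat_lit 1183) (nat_lit 87) (.e (nat_lit 57741) (nat_lit 187) .nil))))))) (.g (nat_lit 4) .nil .nil))))) (.nd (nat_lit 5) (.nd (nat_lit 6) 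
(.lf (nat_lit 69786) (.g (nat_lit 2374) (.e (nat_lit 1658) (nat_lit 115) (.e (nat_lit 393301) (nat_lit 27) (.e (nat_lit 491547) (nat_lit 9) (.e (nat_lit 336421) (nat_lit 28) (.e (nat_lit 434180) (nat_lit 0) .nil))))) (.g (nat_lit 0) .nil .nil))) 
(.lf (nat_lit 69850) (.g (nat_lit 2612) (.e (nat_lit 1658) (nat_lit 115) (.e (nat_lit 393301) (nat_lit 27) (.e (nat_lit 491560) (nat_lit 10) (.e (nat_lit 344087) (nat_lit 18) (.e (nat_lit 7124) (nat_lit 382) (.e (nat_lit 1183) (nat_lit 87) (.e (nat_lit 57741) (nat_lit 187) .nil))))))) (.g (nat_lit 4) .nil .nil)))) (.nd (nat_lit 6) 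
(.lf (nat_lit 69818) (.g (nat_lit 2059) (.e (nat_lit 1658) (nat_lit 115) (.e (nat_lit 393301) (nat_lit 27) (.e (nat_lit 491559) (nat_lit 10) (.e (nat_lit 344087) (nat_lit 18) .nil)))) .nil)) 
(.lf (nat_lit 69882) (.g (nat_lit 2184) (.e (nat_lit 1658) (nat_lit 115) (.e (nat_lit 393301) (nat_lit 27) (.e (nat_lit 491560) (nat_lit 10) (.e (nat_lit 344097) (nat_lit 18) .nil)))) .nil)))))) (.nd (nat_lit 3) (.nd (nat_lit 4) (.nd (nat_lit 5) (.nd (nat_lit 6) 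
(.lf (nat_lit 69766) (.g (nat_lit 1481) (.e (nat_lit 1658) (nat_lit 115) (.e (nat_lit 393301) (nat_lit 27) (.e (nat_lit 491526) (nat_lit 0) (.e (nat_lit 1799) (nat_lit 119) .nil)))) .nil)) 
(.lf (nat_lit 69830) (.g (nat_lit 2507) (.e (nat_lit 1658) (nat_lit 115) (.e (nat_lit 393301) (nat_lit 27) (.e (nat_lit 491559) (nat_lit 10) (.e (nat_lit 344091) (nat_lit 18) (.e (nat_lit 7261) (nat_lit 384) .nil))))) .nil))) (.nd (nat_lit 6) 
(.lf (nat_lit 69798) (.g (nat_lit 1543) (.e (nat_lit 1658) (nat_lit 115) (.e (nat_lit 393301) (nat_lit 27) (.e (nat_lit 491558) (nat_lit 10) (.e (nat_lit 344091) (nat_lit 18) .nil)))) .nil)) 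
(.lf (nat_lit 69862) (.g (nat_lit 4538) (.e (nat_lit 1658) (nat_lit 115) (.e (nat_lit 393301) (nat_lit 27) (.e (nat_lit 491560) (nat_lit 10) (.e (nat_lit 344090) (nat_lit 18) (.e (nat_lit 7265) (nat_lit 384) (.e (nat_lit 57354) (nat_lit 0) (.e (nat_lit 6493) (nat_lit 343) .nil))))))) (.g (nat_lit 7) .nil .nil))))) (.nd (nat_lit 5) (.nd (nat_lit 6) 
(.lf (nat_lit 69782) (.g (nat_lit 2183) (.e (nat_lit 1658) (nat_lit 115) (.e (nat_lit 393301) (nat_lit 27) (.e (nat_lit 491546) (nat_lit 9) (.e (nat_lit 336421) (nat_lit 28) (.e (nat_lit 434181) (nat_lit 0) .nil))))) (.g (nat_lit 5) .nil .nil))) 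
(.lf (nat_lit 69846) (.g (nat_lit 2817) (.e (nat_lit 1658) (nat_lit 115) (.e (nat_lit 393301) (nat_lit 27) (.e (nat_lit 491559) (nat_lit 10) (.e (nat_lit 344177) (nat_lit 43) (.e (nat_lit 770068) (nat_lit 7) (.e (nat_lit 57738) (nat_lit 187) .nil)))))) (.g (nat_lit 4) .nil .nil)))) (.nd (nat_lit 6) 
(.lf (nat_lit 69814) (.g (nat_lit 2786) (.e (nat_lit 1658) (nat_lit 115) (.e (nat_lit 393301) (nat_lit 27) (.e (nat_lit 491558) (nat_lit 10) (.e (nat_lit 344096) (nat_lit 18) (.e (nat_lit 7265) (nat_lit 384) (.e (nat_lit 57347) (nat_lit 0) (.e (nat_lit 6499) (nat_lit 343) .nil))))))) (.g (nat_lit 5) .nil .nil))) 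
(.lf (nat_lit 69878) (.g (nat_lit 2261) (.e (nat_lit 1658) (nat_lit 115) (.e (nat_lit 393301) (nat_lit 27) (.e (nat_lit 491560) (nat_lit 10) (.e (nat_lit 344096) (nat_lit 18) .nil)))) .nil))))) (.nd (nat_lit 4) (.nd (nat_lit 5) (.nd (nat_lit 6) 
(.lf (nat_lit 69774) (.g (nat_lit 1611) (.e (nat_lit 1658) (nat_lit 115) (.e (nat_lit 393301) (nat_lit 27) (.e (nat_lit 491538) (nat_lit 3) (.e (nat_lit 98342) (nat_lit 20) (.e (nat_lit 221218) (nat_lit 24) .nil))))) .nil)) 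
(.lf (nat_lit 69838) (.g (nat_lit 2045) (.e (nat_lit 1658) (nat_lit 115) (.e (nat_lit 393301) (nat_lit 27) (.e (nat_lit 491559) (nat_lit 10) (.e (nat_lit 344096) (nat_lit 18) .nil)))) .nil))) (.nd (nat_lit 6) 
(.lf (nat_lit 69806) (.g (nat_lit 3769) (.e (nat_lit 1658) (nat_lit 115) (.e (nat_lit 393301) (nat_lit 27) (.e (nat_lit 491558) (nat_lit 10) (.e (nat_lit 344091) (nat_lit 18) (.e (nat_lit 7265) (nat_lit 384) (.e (nat_lit 57354) (nat_lit 0) (.e (nat_lit 6493) (nat_lit 343) .nil))))))) (.g (nat_lit 7) .nil .nil))) 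
(.lf (nat_lit 69870) (.g (nat_lit 1876) (.e (nat_lit 1658) (nat_lit 115) (.e (nat_lit 393301) (nat_lit 27) (.e (nat_lit 491560) (nat_lit 10) (.e (nat_lit 344094) (nat_lit 18) .nil)))) .nil)))) (.nd (nat_lit 5) (.nd (nat_lit 6) 
(.lf (nat_lit 69790) (.g (nat_lit 1301) (.e (nat_lit 1658) (nat_lit 115) (.e (nat_lit 393301) (nat_lit 27) (.e (nat_lit 491552) (nat_lit 9) (.e (nat_lit 336248) (nat_lit 15) (.e (nat_lit 7381) (nat_lit 391) .nil))))) .nil)) 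
(.lf (nat_lit 69854) (.g (nat_lit 2273) (.e (nat_lit 1658) (nat_lit 115) (.e (nat_lit 393301) (nat_lit 27) (.e (nat_lit 491560) (nat_lit 10) (.e (nat_lit 344090) (nat_lit 18) .nil)))) .nil))) (.nd (nat_lit 6) 
(.lf (nat_lit 69822) (.g (nat_lit 2761) (.e (nat_lit 1658) (nat_lit 115) (.e (nat_lit 393301) (nat_lit 27) (.e (nat_lit 491559) (nat_lit 10) (.e (nat_lit 344090) (nat_lit 18) (.e (nat_lit 7263) (nat_lit 384) (.e (nat_lit 57354) (nat_lit 0) (.e (nat_lit 6493) (nat_lit 343) .nil))))))) (.g (nat_lit 4) .nil .nil))) 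
(.lf (nat_lit 69886) (.g (nat_lit 2165) (.e (nat_lit 1658) (nat_lit 115) (.e (nat_lit 393301) (nat_lit 27) (.e (nat_lit 491560) (nat_lit 10) (.e (nat_lit 344174) (nat_lit 42) .nil)))) .nil)))))))) (.nd (nat_lit 1) (.nd (nat_lit 2) (.nd (nat_lit 3) (.nd (nat_lit 4) (.nd (nat_lit 5) (.nd (nat_lit 6) 
(.lf (nat_lit 69761) (.g (nat_lit 1955) (.e (nat_lit 1658) (nat_lit 115) (.e (nat_lit 393301) (nat_lit 27) (.e (nat_lit 491526) (nat_lit 0) (.e (nat_lit 1788) (nat_lit 119) (.e (nat_lit 516130) (nat_lit 3) (.e (nat_lit 221219) (nat_lit 24) (.e (nat_lit 212993) (nat_lit 0) .nil))))))) (.g (nat_lit 4) .nil .nil))) 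
(.lf (nat_lit 69825) (.g (nat_lit 1978) (.e (nat_lit 1658) (nat_lit 115) (.e (nat_lit 393301) (nat_lit 27) (.e (nat_lit 491559) (nat_lit 10) (.e (nat_lit 344091) (nat_lit 18) .nil)))) .nil))) (.nd (nat_lit 6) 
(.lf (nat_lit 69793) (.g (nat_lit 1972) (.e (nat_lit 1658) (nat_lit 115) (.e (nat_lit 393301) (nat_lit 27) (.e (nat_lit 491558) (nat_lit 10) (.e (nat_lit 344088) (nat_lit 18) .nil)))) .nil)) 
(.lf (nat_lit 69857) (.g (nat_lit 2901) (.e (nat_lit 1658) (nat_lit 115) (.e (nat_lit 393301) (nat_lit 27) (.e (nat_lit 491560) (nat_lit 10) (.e (nat_lit 344090) (nat_lit 18) (.e (nat_lit 7247) (nat_lit 383) .nil))))) .nil)))) (.nd (nat_lit 5) (.nd (nat_lit 6) 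
(.lf (nat_lit 69777) (.g (nat_lit 1825) (.e (nat_lit 1658) (nat_lit 115) (.e (nat_lit 393301) (nat_lit 27) (.e (nat_lit 491538) (nat_lit 3) (.e (nat_lit 98342) (nat_lit 20) (.e (nat_lit 221219) (nat_lit 24) (.e (nat_lit 220928) (nat_lit 0) .nil)))))) (.g (nat_lit 4) .nil .nil))) 
(.lf (nat_lit 69841) (.g (nat_lit 2649) (.e (nat_lit 1658) (nat_lit 115) (.e (nat_lit 393301) (nat_lit 27) (.e (nat_lit 491559) (nat_lit 10) (.e (nat_lit 344096) (nat_lit 18) (.e (nat_lit 7265) (nat_lit 384) .nil))))) .nil))) (.nd (nat_lit 6) 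
(.lf (nat_lit 69809) (.g (nat_lit 3454) (.e (nat_lit 1658) (nat_lit 115) (.e (nat_lit 393301) (nat_lit 27) (.e (nat_lit 491558) (nat_lit 10) (.e (nat_lit 344095) (nat_lit 18) (.e (nat_lit 7263) (nat_lit 384) (.e (nat_lit 57354) (nat_lit 0) (.e (nat_lit 6493) (nat_lit 343) .nil))))))) (.g (nat_lit 7) .nil .nil))) 
(.lf (nat_lit 69873) (.g (nat_lit 2145) (.e (nat_lit 1658) (nat_lit 115) (.e (nat_lit 393301) (nat_lit 27) (.e (nat_lit 491560) (nat_lit 10) (.e (nat_lit 344094) (nat_lit 18) (.e (nat_lit 7265) (nat_lit 384) .nil))))) .nil))))) (.nd (nat_lit 4) (.nd (nat_lit 5) (.nd (nat_lit 6) 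
(.lf (nat_lit 69769) (.g (nat_lit 1110) (.e (nat_lit 1658) (nat_lit 115) (.e (nat_lit 393301) (nat_lit 27) (.e (nat_lit 491530) (nat_lit 0) (.e (nat_lit 1796) (nat_lit 119) .nil)))) .nil)) 
(.lf (nat_lit 69833) (.g (nat_lit 2924) (.e (nat_lit 1658) (nat_lit 115) (.e (nat_lit 393301) (nat_lit 27) (.e (nat_lit 491559) (nat_lit 10) (.e (nat_lit 344091) (nat_lit 18) (.e (nat_lit 7265) (nat_lit 384) (.e (nat_lit 57347) (nat_lit 0) (.e (nat_lit 6499) (nat_lit 343) .nil))))))) (.g (nat_lit 5) .nil .nil)))) (.nd (nat_lit 6) 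
(.lf (nat_lit 69801) (.g (nat_lit 2970) (.e (nat_lit 1658) (nat_lit 115) (.e (nat_lit 393301) (nat_lit 27) (.e (nat_lit 491558) (nat_lit 10) (.e (nat_lit 344091) (nat_lit 18) (.e (nat_lit 7125) (nat_lit 382) (.e (nat_lit 1183) (nat_lit 87) (.e (nat_lit 57741) (nat_lit 187) .nil))))))) (.g (nat_lit 5) .nil .nil))) 
(.lf (nat_lit 69865) (.g (nat_lit 3023) (.e (nat_lit 1658) (nat_lit 115) (.e (nat_lit 393301) (nat_lit 27) (.e (nat_lit 491560) (nat_lit 10) (.e (nat_lit 344091) (nat_lit 18) (.e (nat_lit 7122) (nat_lit 382) (.e (nat_lit 1183) (nat_lit 87) (.e (nat_lit 57741) (nat_lit 187) .nil))))))) (.g (nat_lit 4) .nil .nil))))) (.nd (nat_lit 5) (.nd (nat_lit 6) 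
(.lf (nat_lit 69785) (.g (nat_lit 407) (.e (nat_lit 1658) (nat_lit 115) (.e (nat_lit 393301) (nat_lit 27) (.e (nat_lit 491547) (nat_lit 9) .nil))) .nil)) 
(.lf (nat_lit 69849) (.g (nat_lit 2176) (.e (nat_lit 1658) (nat_lit 115) (.e (nat_lit 393301) (nat_lit 27) (.e (nat_lit 491560) (nat_lit 10) (.e (nat_lit 344087) (nat_lit 18) .nil)))) .nil))) (.nd (nat_lit 6) 
(.lf (nat_lit 69817) (.g (nat_lit 1813) (.e (nat_lit 1658) (nat_lit 115) (.e (nat_lit 393301) (nat_lit 27) (.e (nat_lit 491558) (nat_lit 10) (.e (nat_lit 344180) (nat_lit 44) .nil)))) .nil)) 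
(.lf (nat_lit 69881) (.g (nat_lit 3488) (.e (nat_lit 1658) (nat_lit 115) (.e (nat_lit 393301) (nat_lit 27) (.e (nat_lit 491560) (nat_lit 10) (.e (nat_lit 344096) (nat_lit 18) (.e (nat_lit 7265) (nat_lit 384) (.e (nat_lit 57347) (nat_lit 0) (.e (nat_lit 6450) (nat_lit 343) .nil))))))) (.g (nat_lit 5) .nil .nil))))))) (.nd (nat_lit 3) (.nd (nat_lit 4) (.nd (nat_lit 5) (.nd (nat_lit 6) 
(.lf (nat_lit 69765) (.g (nat_lit 1520) (.e (nat_lit 1658) (nat_lit 115) (.e (nat_lit 393301) (nat_lit 27) (.e (nat_lit 491526) (nat_lit 0) (.e (nat_lit 1798) (nat_lit 119) .nil)))) .nil)) 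
(.lf (nat_lit 69829) (.g (nat_lit 3294) (.e (nat_lit 1658) (nat_lit 115) (.e (nat_lit 393301) (nat_lit 27) (.e (nat_lit 491559) (nat_lit 10) (.e (nat_lit 344091) (nat_lit 18) (.e (nat_lit 7125) (nat_lit 382) (.e (nat_lit 1183) (nat_lit 87) (.e (nat_lit 57741) (nat_lit 187) .nil))))))) (.g (nat_lit 5) .nil .nil)))) (.nd (nat_lit 6) 
(.lf (nat_lit 69797) (.g (nat_lit 2226) (.e (nat_lit 1658) (nat_lit 115) (.e (nat_lit 393301) (nat_lit 27) (.e (nat_lit 491558) (nat_lit 10) (.e (nat_lit 344090) (nat_lit 18) (.e (nat_lit 7265) (nat_lit 384) .nil))))) .nil)) 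
(.lf (nat_lit 69861) (.g (nat_lit 3400) (.e (nat_lit 1658) (nat_lit 115) (.e (nat_lit 393301) (nat_lit 27) (.e (nat_lit 491560) (nat_lit 10) (.e (nat_lit 344090) (nat_lit 18) (.e (nat_lit 7265) (nat_lit 384) (.e (nat_lit 57347) (nat_lit 0) (.e (nat_lit 6499) (nat_lit 343) .nil))))))) (.g (nat_lit 5) .nil .nil))))) (.nd (nat_lit 5) (.nd (nat_lit 6) 
(.lf (nat_lit 69781) (.g (nat_lit 2295) (.e (nat_lit 1658) (nat_lit 115) (.e (nat_lit 393301) (nat_lit 27) (.e (nat_lit 491546) (nat_lit 9) (.e (nat_lit 336421) (nat_lit 28) (.e (nat_lit 434180) (nat_lit 0) .nil))))) (.g (nat_lit 5) .nil .nil))) 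
(.lf (nat_lit 69845) (.g (nat_lit 1840) (.e (nat_lit 1658) (nat_lit 115) (.e (nat_lit 393301) (nat_lit 27) (.e (nat_lit 491559) (nat_lit 10) (.e (nat_lit 344177) (nat_lit 43) .nil)))) .nil))) (.nd (nat_lit 6) 
(.lf (nat_lit 69813) (.g (nat_lit 2187) (.e (nat_lit 1658) (nat_lit 115) (.e (nat_lit 393301) (nat_lit 27) (.e (nat_lit 491558) (nat_lit 10) (.e (nat_lit 344096) (nat_lit 18) (.e (nat_lit 7265) (nat_lit 384) .nil))))) .nil)) 
(.lf (nat_lit 69877) (.g (nat_lit 3071) (.e (nat_lit 1658) (nat_lit 115) (.e (nat_lit 393301) (nat_lit 27) (.e (nat_lit 491560) (nat_lit 10) (.e (nat_lit 344095) (nat_lit 18) (.e (nat_lit 7263) (nat_lit 384) (.e (nat_lit 57354) (nat_lit 0) (.e (nat_lit 6493) (nat_lit 343) .nil))))))) (.g (nat_lit 5) .nil .nil)))))) (.nd (nat_lit 4) (.nd (nat_lit 5) (.nd (nat_lit 6) 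
(.lf (nat_lit 69773) (.g (nat_lit 1934) (.e (nat_lit 1658) (nat_lit 115) (.e (nat_lit 393301) (nat_lit 27) (.e (nat_lit 491538) (nat_lit 3) (.e (nat_lit 98341) (nat_lit 20) (.e (nat_lit 221219) (nat_lit 24) .nil))))) .nil)) 
(.lf (nat_lit 69837) (.g (nat_lit 2093) (.e (nat_lit 1658) (nat_lit 115) (.e (nat_lit 393301) (nat_lit 27) (.e (nat_lit 491559) (nat_lit 10) (.e (nat_lit 344095) (nat_lit 18) .nil)))) .nil))) (.nd (nat_lit 6) 
(.lf (nat_lit 69805) (.g (nat_lit 2684) (.e (nat_lit 1658) (nat_lit 115) (.e (nat_lit 393301) (nat_lit 27) (.e (nat_lit 491558) (nat_lit 10) (.e (nat_lit 344091) (nat_lit 18) (.e (nat_lit 7265) (nat_lit 384) (.e (nat_lit 57347) (nat_lit 0) (.e (nat_lit 6499) (nat_lit 343) .nil))))))) (.g (nat_lit 5) .nil .nil))) 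
(.lf (nat_lit 69869) (.g (nat_lit 3371) (.e (nat_lit 1658) (nat_lit 115) (.e (nat_lit 393301) (nat_lit 27) (.e (nat_lit 491560) (nat_lit 10) (.e (nat_lit 344091) (nat_lit 18) (.e (nat_lit 7265) (nat_lit 384) (.e (nat_lit 57354) (nat_lit 0) (.e (nat_lit 6493) (nat_lit 343) .nil))))))) (.g (nat_lit 5) .nil .nil))))) (.nd (nat_lit 5) (.nd (nat_lit 6) 
(.lf (nat_lit 69789) (.g (nat_lit 333) (.e (nat_lit 1658) (nat_lit 115) (.e (nat_lit 393301) (nat_lit 27) (.e (nat_lit 491552) (nat_lit 9) .nil))) .nil)) 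
(.lf (nat_lit 69853) (.g (nat_lit 2522) (.e (nat_lit 1658) (nat_lit 115) (.e (nat_lit 393301) (nat_lit 27) (.e (nat_lit 491560) (nat_lit 10) (.e (nat_lit 344089) (nat_lit 18) .nil)))) .nil))) (.nd (nat_lit 6) 
(.lf (nat_lit 69821) (.g (nat_lit 2500) (.e (nat_lit 1658) (nat_lit 115) (.e (nat_lit 393301) (nat_lit 27) (.e (nat_lit 491559) (nat_lit 10) (.e (nat_lit 344090) (nat_lit 18) (.e (nat_lit 7125) (nat_lit 382) (.e (nat_lit 1183) (nat_lit 87) (.e (nat_lit 57741) (nat_lit 187) .nil))))))) (.g (nat_lit 4) .nil .nil))) 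
(.lf (nat_lit 69885) (.g (nat_lit 1906) (.e (nat_lit 1658) (nat_lit 115) (.e (nat_lit 393301) (nat_lit 27) (.e (nat_lit 491560) (nat_lit 10) (.e (nat_lit 344099) (nat_lit 18) .nil)))) .nil))))))) (.nd (nat_lit 2) (.nd (nat_lit 3) (.nd (nat_lit 4) (.nd (nat_lit 5) (.nd (nat_lit 6) 
(.lf (nat_lit 69763) (.g (nat_lit 1932) (.e (nat_lit 1658) (nat_lit 115) (.e (nat_lit 393301) (nat_lit 27) (.e (nat_lit 491526) (nat_lit 0) (.e (nat_lit 1788) (nat_lit 119) (.e (nat_lit 516131) (nat_lit 3) .nil))))) .nil)) 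
(.lf (nat_lit 69827) (.g (nat_lit 3631) (.e (nat_lit 1658) (nat_lit 115) (.e (nat_lit 393301) (nat_lit 27) (.e (nat_lit 491559) (nat_lit 10) (.e (nat_lit 344091) (nat_lit 18) (.e (nat_lit 7122) (nat_lit 382) (.e (nat_lit 1183) (nat_lit 87) (.e (nat_lit 57741) (nat_lit 187) .nil))))))) (.g (nat_lit 5) .nil .nil)))) (.nd (nat_lit 6) 
(.lf (nat_lit 69795) (.g (nat_lit 2391) (.e (nat_lit 1658) (nat_lit 115) (.e (nat_lit 393301) (nat_lit 27) (.e (nat_lit 491558) (nat_lit 10) (.e (nat_lit 344090) (nat_lit 18) (.e (nat_lit 7122) (nat_lit 382) (.e (nat_lit 1183) (nat_lit 87) (.e (nat_lit 57741) (nat_lit 187) .nil))))))) (.g (nat_lit 4) .nil .nil))) 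
(.lf (nat_lit 69859) (.g (nat_lit 4158) (.e (nat_lit 1658) (nat_lit 115) (.e (nat_lit 393301) (nat_lit 27) (.e (nat_lit 491560) (nat_lit 10) (.e (nat_lit 344090) (nat_lit 18) (.e (nat_lit 7263) (nat_lit 384) (.e (nat_lit 57354) (nat_lit 0) (.e (nat_lit 6493) (nat_lit 343) .nil))))))) (.g (nat_lit 6) .nil .nil))))) (.nd (nat_lit 5) (.nd (nat_lit 6) 
(.lf (nat_lit 69779) (.g (nat_lit 1422) (.e (nat_lit 1658) (nat_lit 115) (.e (nat_lit 393301) (nat_lit 27) (.e (nat_lit 491539) (nat_lit 3) (.e (nat_lit 98341) (nat_lit 20) .nil)))) .nil)) 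
(.lf (nat_lit 69843) (.g (nat_lit 2074) (.e (nat_lit 1658) (nat_lit 115) (.e (nat_lit 393301) (nat_lit 27) (.e (nat_lit 491559) (nat_lit 10) (.e (nat_lit 344097) (nat_lit 18) .nil)))) .nil))) (.nd (nat_lit 6) 
(.lf (nat_lit 69811) (.g (nat_lit 2224) (.e (nat_lit 1658) (nat_lit 115) (.e (nat_lit 393301) (nat_lit 27) (.e (nat_lit 491558) (nat_lit 10) (.e (nat_lit 344096) (nat_lit 18) (.e (nat_lit 7261) (nat_lit 384) (.e (nat_lit 57354) (nat_lit 0) (.e (nat_lit 6493) (nat_lit 343) .nil))))))) (.g (nat_lit 4) .nil .nil))) 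
(.lf (nat_lit 69875) (.g (nat_lit 3947) (.e (nat_lit 1658) (nat_lit 115) (.e (nat_lit 393301) (nat_lit 27) (.e (nat_lit 491560) (nat_lit 10) (.e (nat_lit 344094) (nat_lit 18) (.e (nat_lit 7265) (nat_lit 384) (.e (nat_lit 57354) (nat_lit 0) (.e (nat_lit 6493) (nat_lit 343) .nil))))))) (.g (nat_lit 7) .nil .nil)))))) (.nd (nat_lit 4) (.nd (nat_lit 5) (.nd (nat_lit 6) 
(.lf (nat_lit 69771) (.g (nat_lit 654) (.e (nat_lit 1658) (nat_lit 115) (.e (nat_lit 393301) (nat_lit 27) (.e (nat_lit 491538) (nat_lit 3) .nil))) .nil)) 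
(.lf (nat_lit 69835) (.g (nat_lit 2045) (.e (nat_lit 1658) (nat_lit 115) (.e (nat_lit 393301) (nat_lit 27) (.e (nat_lit 491559) (nat_lit 10) (.e (nat_lit 344094) (nat_lit 18) .nil)))) .nil))) (.nd (nat_lit 6) 
(.lf (nat_lit 69803) (.g (nat_lit 3750) (.e (nat_lit 1658) (nat_lit 115) (.e (nat_lit 393301) (nat_lit 27) (.e (nat_lit 491558) (nat_lit 10) (.e (nat_lit 344091) (nat_lit 18) (.e (nat_lit 7263) (nat_lit 384) (.e (nat_lit 57354) (nat_lit 0) (.e (nat_lit 6493) (nat_lit 343) .nil))))))) (.g (nat_lit 6) .nil .nil))) 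
(.lf (nat_lit 69867) (.g (nat_lit 2776) (.e (nat_lit 1658) (nat_lit 115) (.e (nat_lit 393301) (nat_lit 27) (.e (nat_lit 491560) (nat_lit 10) (.e (nat_lit 344091) (nat_lit 18) (.e (nat_lit 7125) (nat_lit 382) .nil))))) .nil)))) (.nd (nat_lit 5) (.nd (nat_lit 6) 
(.lf (nat_lit 69787) (.g (nat_lit 2245) (.e (nat_lit 1658) (nat_lit 115) (.e (nat_lit 393301) (nat_lit 27) (.e (nat_lit 491547) (nat_lit 9) (.e (nat_lit 336421) (nat_lit 28) (.e (nat_lit 434181) (nat_lit 0) .nil))))) (.g (nat_lit 0) .nil .nil))) 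
(.lf (nat_lit 69851) (.g (nat_lit 2422) (.e (nat_lit 1658) (nat_lit 115) (.e (nat_lit 393301) (nat_lit 27) (.e (nat_lit 491560) (nat_lit 10) (.e (nat_lit 344087) (nat_lit 18) (.e (nat_lit 7265) (nat_lit 384) .nil))))) .nil))) (.nd (nat_lit 6) 
(.lf (nat_lit 69819) (.g (nat_lit 2086) (.e (nat_lit 1658) (nat_lit 115) (.e (nat_lit 393301) (nat_lit 27) (.e (nat_lit 491559) (nat_lit 10) (.e (nat_lit 344090) (nat_lit 18) .nil)))) .nil)) 
(.lf (nat_lit 69883) (.g (nat_lit 3077) (.e (nat_lit 1658) (nat_lit 115) (.e (nat_lit 393301) (nat_lit 27) (.e (nat_lit 491560) (nat_lit 10) (.e (nat_lit 344097) (nat_lit 18) (.e (nat_lit 7254) (nat_lit 383) .nil))))) .nil)))))) (.nd (nat_lit 3) (.nd (nat_lit 4) (.nd (nat_lit 5) (.nd (nat_lit 6) 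
(.lf (nat_lit 69767) (.g (nat_lit 1344) (.e (nat_lit 1658) (nat_lit 115) (.e (nat_lit 393301) (nat_lit 27) (.e (nat_lit 491526) (nat_lit 0) (.e (nat_lit 1848) (nat_lit 124) .nil)))) .nil)) 
(.lf (nat_lit 69831) (.g (nat_lit 4092) (.e (nat_lit 1658) (nat_lit 115) (.e (nat_lit 393301) (nat_lit 27) (.e (nat_lit 491559) (nat_lit 10) (.e (nat_lit 344091) (nat_lit 18) (.e (nat_lit 7263) (nat_lit 384) (.e (nat_lit 57354) (nat_lit 0) (.e (nat_lit 6493) (nat_lit 343) .nil))))))) (.g (nat_lit 6) .nil .nil)))) (.nd (nat_lit 6) 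
(.lf (nat_lit 69799) (.g (nat_lit 2190) (.e (nat_lit 1658) (nat_lit 115) (.e (nat_lit 393301) (nat_lit 27) (.e (nat_lit 491558) (nat_lit 10) (.e (nat_lit 344091) (nat_lit 18) (.e (nat_lit 6923) (nat_lit 371) .nil))))) .nil)) 
(.lf (nat_lit 69863) (.g (nat_lit 2328) (.e (nat_lit 1658) (nat_lit 115) (.e (nat_lit 393301) (nat_lit 27) (.e (nat_lit 491560) (nat_lit 10) (.e (nat_lit 344091) (nat_lit 18) .nil)))) .nil)))) (.nd (nat_lit 5) (.nd (nat_lit 6) 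
(.lf (nat_lit 69783) (.g (nat_lit 1320) (.e (nat_lit 1658) (nat_lit 115) (.e (nat_lit 393301) (nat_lit 27) (.e (nat_lit 491546) (nat_lit 9) (.e (nat_lit 336423) (nat_lit 28) .nil)))) .nil)) 
(.lf (nat_lit 69847) (.g (nat_lit 3082) (.e (nat_lit 1658) (nat_lit 115) (.e (nat_lit 393301) (nat_lit 27) (.e (nat_lit 491559) (nat_lit 10) (.e (nat_lit 344177) (nat_lit 43) (.e (nat_lit 770068) (nat_lit 7) (.e (nat_lit 57741) (nat_lit 187) .nil)))))) (.g (nat_lit 5) .nil .nil)))) (.nd (nat_lit 6) 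
(.lf (nat_lit 69815) (.g (nat_lit 3912) (.e (nat_lit 1658) (nat_lit 115) (.e (nat_lit 393301) (nat_lit 27) (.e (nat_lit 491558) (nat_lit 10) (.e (nat_lit 344096) (nat_lit 18) (.e (nat_lit 7265) (nat_lit 384) (.e (nat_lit 57354) (nat_lit 0) (.e (nat_lit 6493) (nat_lit 343) .nil))))))) (.g (nat_lit 7) .nil .nil))) 
(.lf (nat_lit 69879) (.g (nat_lit 3500) (.e (nat_lit 1658) (nat_lit 115) (.e (nat_lit 393301) (nat_lit 27) (.e (nat_lit 491560) (nat_lit 10) (.e (nat_lit 344096) (nat_lit 18) (.e (nat_lit 7263) (nat_lit 384) (.e (nat_lit 57354) (nat_lit 0) (.e (nat_lit 6493) (nat_lit 343) .nil))))))) (.g (nat_lit 5) .nil .nil)))))) (.nd (nat_lit 4) (.nd (nat_lit 5) (.nd (nat_lit 6) 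
(.lf (nat_lit 69775) (.g (nat_lit 2569) (.e (nat_lit 1658) (nat_lit 115) (.e (nat_lit 393301) (nat_lit 27) (.e (nat_lit 491538) (nat_lit 3) (.e (nat_lit 98342) (nat_lit 20) (.e (nat_lit 221219) (nat_lit 24) (.e (nat_lit 212992) (nat_lit 0) .nil)))))) (.g (nat_lit 6) .nil .nil))) 
(.lf (nat_lit 69839) (.g (nat_lit 2724) (.e (nat_lit 1658) (nat_lit 115) (.e (nat_lit 393301) (nat_lit 27) (.e (nat_lit 491559) (nat_lit 10) (.e (nat_lit 344096) (nat_lit 18) (.e (nat_lit 7122) (nat_lit 382) .nil))))) .nil))) (.nd (nat_lit 6) 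
(.lf (nat_lit 69807) (.g (nat_lit 1584) (.e (nat_lit 1658) (nat_lit 115) (.e (nat_lit 393301) (nat_lit 27) (.e (nat_lit 491558) (nat_lit 10) (.e (nat_lit 344095) (nat_lit 18) .nil)))) .nil)) 
(.lf (nat_lit 69871) (.g (nat_lit 2211) (.e (nat_lit 1658) (nat_lit 115) (.e (nat_lit 393301) (nat_lit 27) (.e (nat_lit 491560) (nat_lit 10) (.e (nat_lit 344094) (nat_lit 18) (.e (nat_lit 7261) (nat_lit 384) (.e (nat_lit 57354) (nat_lit 0) (.e (nat_lit 6493) (nat_lit 343) .nil))))))) (.g (nat_lit 4) .nil .nil))))) (.nd (nat_lit 5) (.nd (nat_lit 6) 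
(.lf (nat_lit 69791) (.g (nat_lit 2421) (.e (nat_lit 1658) (nat_lit 115) (.e (nat_lit 393301) (nat_lit 27) (.e (nat_lit 491556) (nat_lit 9) (.e (nat_lit 336420) (nat_lit 28) (.e (nat_lit 434181) (nat_lit 0) .nil))))) (.g (nat_lit 0) .nil .nil))) 
(.lf (nat_lit 69855) (.g (nat_lit 2931) (.e (nat_lit 1658) (nat_lit 115) (.e (nat_lit 393301) (nat_lit 27) (.e (nat_lit 491560) (nat_lit 10) (.e (nat_lit 344090) (nat_lit 18) (.e (nat_lit 6923) (nat_lit 371) .nil))))) .nil))) (.nd (nat_lit 6) 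
(.lf (nat_lit 69823) (.g (nat_lit 2880) (.e (nat_lit 1658) (nat_lit 115) (.e (nat_lit 393301) (nat_lit 27) (.e (nat_lit 491559) (nat_lit 10) (.e (nat_lit 344090) (nat_lit 18) (.e (nat_lit 7265) (nat_lit 384) (.e (nat_lit 57347) (nat_lit 0) (.e (nat_lit 6450) (nat_lit 343) .nil))))))) (.g (nat_lit 4) .nil .nil))) 
(.lf (nat_lit 69887) (.g (nat_lit 1815) (.e (nat_lit 1658) (nat_lit 115) (.e (nat_lit 393301) (nat_lit 27) (.e (nat_lit 491560) (nat_lit 10) (.e (nat_lit 344175) (nat_lit 43) .nil)))) .nil)))))))))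

noncomputable def tv956 : DT := (.nd (nat_lit 0) (.nd (nat_lit 1) (.nd (nat_lit 2) (.nd (nat_lit 3) (.nd (nat_lit 4) (.nd (nat_lit 5) (.nd (nat_lit 6) 
(.lf (nat_lit 69888) (.g (nat_lit 2237) (.e (nat_lit 1658) (nat_lit 115) (.e (nat_lit 393301) (nat_lit 27) (.e (nat_lit 491560) (nat_lit 10) (.e (nat_lit 344177) (nat_lit 43) .nil)))) .nil)) 
(.lf (nat_lit 69952) (.g (nat_lit 2053) (.e (nat_lit 1659) (nat_lit 115) (.e (nat_lit 393229) (nat_lit 9) (.e (nat_lit 336186) (nat_lit 11) (.e (nat_lit 368676) (nat_lit 21) (.e (nat_lit 516117) (nat_lit 1) (.e (nat_lit 164147) (nat_lit 152) (.e (nat_lit 1086) (nat_lit 81) .nil))))))) (.g (nat_lit 4) .nil .nil)))) (.nd (nat_lit 6) 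
(.lf (nat_lit 69920) (.g (nat_lit 1768) (.e (nat_lit 1659) (nat_lit 115) (.e (nat_lit 393227) (nat_lit 9) (.e (nat_lit 336151) (nat_lit 9) (.e (nat_lit 336017) (nat_lit 3) (.e (nat_lit 98334) (nat_lit 18) (.e (nat_lit 164164) (nat_lit 152) (.e (nat_lit 1086) (nat_lit 81) .nil))))))) (.g (nat_lit 5) .nil .nil))) 
(.lf (nat_lit 69984) (.g (nat_lit 3593) (.e (nat_lit 1659) (nat_lit 115) (.e (nat_lit 393251) (nat_lit 18) (.e (nat_lit 164179) (nat_lit 154) (.e (nat_lit 57421) (nat_lit 13) (.e (nat_lit 344132) (nat_lit 26) (.e (nat_lit 557094) (nat_lit 12) (.e (nat_lit 164238) (nat_lit 187) .nil))))))) (.g (nat_lit 5) .nil .nil))))) (.nd (nat_lit 5) (.nd (nat_lit 6) 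
(.lf (nat_lit 69904) (.g (nat_lit 1578) (.e (nat_lit 1658) (nat_lit 115) (.e (nat_lit 393301) (nat_lit 27) (.e (nat_lit 491567) (nat_lit 13) (.e (nat_lit 393233) (nat_lit 17) .nil)))) .nil)) 
(.lf (nat_lit 69968) (.g (nat_lit 2537) (.e (nat_lit 1659) (nat_lit 115) (.e (nat_lit 393234) (nat_lit 17) (.e (nat_lit 7581) (nat_lit 405) (.e (nat_lit 57479) (nat_lit 28) (.e (nat_lit 557105) (nat_lit 14) (.e (nat_lit 180265) (nat_lit 21) (.e (nat_lit 663561) (nat_lit 0) .nil))))))) (.g (nat_lit 4) .nil .nil)))) (.nd (nat_lit 6) 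
(.lf (nat_lit 69936) (.g (nat_lit 2848) (.e (nat_lit 1659) (nat_lit 115) (.e (nat_lit 393229) (nat_lit 9) (.e (nat_lit 336088) (nat_lit 9) (.e (nat_lit 336019) (nat_lit 3) (.e (nat_lit 98333) (nat_lit 18) (.e (nat_lit 164151) (nat_lit 152) (.e (nat_lit 1073) (nat_lit 81) .nil))))))) (.g (nat_lit 4) .nil .nil))) 
(.lf (nat_lit 70000) (.g (nat_lit 1629) (.e (nat_lit 1659) (nat_lit 115) (.e (nat_lit 393271) (nat_lit 23) (.e (nat_lit 426112) (nat_lit 1) (.e (nat_lit 164346) (nat_lit 240) (.e (nat_lit 2638) (nat_lit 165) .nil))))) .nil))))) (.nd (nat_lit 4) (.nd (nat_lit 5) (.nd (nat_lit 6) 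
(.lf (nat_lit 69896) (.g (nat_lit 2812) (.e (nat_lit 1658) (nat_lit 115) (.e (nat_lit 393301) (nat_lit 27) (.e (nat_lit 491560) (nat_lit 10) (.e (nat_lit 344179) (nat_lit 44) (.e (nat_lit 778455) (nat_lit 10) (.e (nat_lit 8568) (nat_lit 250) .nil)))))) (.g (nat_lit 5) .nil .nil))) 
(.lf (nat_lit 69960) (.g (nat_lit 2758) (.e (nat_lit 1659) (nat_lit 115) (.e (nat_lit 401152) (nat_lit 12) (.e (nat_lit 360475) (nat_lit 8) (.e (nat_lit 557090) (nat_lit 12) (.e (nat_lit 163844) (nat_lit 0) (.e (nat_lit 5123) (nat_lit 292) (.e (nat_lit 1060) (nat_lit 81) .nil))))))) (.g (nat_lit 5) .nil .nil)))) (.nd (nat_lit 6) 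
(.lf (nat_lit 69928) (.g (nat_lit 3857) (.e (nat_lit 1659) (nat_lit 115) (.e (nat_lit 393229) (nat_lit 9) (.e (nat_lit 336087) (nat_lit 9) (.e (nat_lit 336019) (nat_lit 3) (.e (nat_lit 98333) (nat_lit 18) (.e (nat_lit 164151) (nat_lit 152) (.e (nat_lit 1089) (nat_lit 81) .nil))))))) (.g (nat_lit 6) .nil .nil))) 
(.lf (nat_lit 69992) (.g (nat_lit 2080) (.e (nat_lit 1659) (nat_lit 115) (.e (nat_lit 393253) (nat_lit 18) (.e (nat_lit 164179) (nat_lit 154) (.e (nat_lit 57421) (nat_lit 13) (.e (nat_lit 344132) (nat_lit 26) .nil))))) .nil)))) (.nd (nat_lit 5) (.nd (nat_lit 6) 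
(.lf (nat_lit 69912) (.g (nat_lit 379) (.e (nat_lit 1658) (nat_lit 115) (.e (nat_lit 393301) (nat_lit 27) (.e (nat_lit 491568) (nat_lit 13) .nil))) .nil)) 
(.lf (nat_lit 69976) (.g (nat_lit 1271) (.e (nat_lit 1659) (nat_lit 115) (.e (nat_lit 393251) (nat_lit 18) (.e (nat_lit 164156) (nat_lit 152) .nil))) .nil))) (.nd (nat_lit 6) 
(.lf (nat_lit 69944) (.g (nat_lit 2454) (.e (nat_lit 1659) (nat_lit 115) (.e (nat_lit 393229) (nat_lit 9) (.e (nat_lit 336184) (nat_lit 11) (.e (nat_lit 368676) (nat_lit 21) (.e (nat_lit 516115) (nat_lit 1) (.e (nat_lit 164151) (nat_lit 152) (.e (nat_lit 1102) (nat_lit 81) .nil))))))) (.g (nat_lit 5) .nil .nil))) 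
(.lf (nat_lit 70008) (.g (nat_lit 1823) (.e (nat_lit 1659) (nat_lit 115) (.e (nat_lit 393271) (nat_lit 23) (.e (nat_lit 426402) (nat_lit 15) (.e (nat_lit 2046) (nat_lit 142) .nil)))) .nil)))))) (.nd (nat_lit 3) (.nd (nat_lit 4) (.nd (nat_lit 5) (.nd (nat_lit 6) 
(.lf (nat_lit 69892) (.g (nat_lit 2465) (.e (nat_lit 1658) (nat_lit 115) (.e (nat_lit 393301) (nat_lit 27) (.e (nat_lit 491560) (nat_lit 10) (.e (nat_lit 344179) (nat_lit 44) (.e (nat_lit 778453) (nat_lit 10) .nil))))) .nil)) 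
(.lf (nat_lit 69956) (.g (nat_lit 1639) (.e (nat_lit 1659) (nat_lit 115) (.e (nat_lit 401152) (nat_lit 12) (.e (nat_lit 360466) (nat_lit 3) (.e (nat_lit 516120) (nat_lit 1) (.e (nat_lit 164147) (nat_lit 152) (.e (nat_lit 1086) (nat_lit 81) .nil)))))) (.g (nat_lit 4) .nil .nil)))) (.nd (nat_lit 6) 
(.lf (nat_lit 69924) (.g (nat_lit 1531) (.e (nat_lit 1659) (nat_lit 115) (.e (nat_lit 393229) (nat_lit 9) (.e (nat_lit 336087) (nat_lit 9) (.e (nat_lit 336019) (nat_lit 3) .nil)))) .nil)) 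
(.lf (nat_lit 69988) (.g (nat_lit 1852) (.e (nat_lit 1659) (nat_lit 115) (.e (nat_lit 393253) (nat_lit 18) (.e (nat_lit 164151) (nat_lit 152) (.e (nat_lit 1207) (nat_lit 89) (.e (nat_lit 73753) (nat_lit 8) .nil))))) .nil)))) (.nd (nat_lit 5) (.nd (nat_lit 6) 
(.lf (nat_lit 69908) (.g (nat_lit 2318) (.e (nat_lit 1658) (nat_lit 115) (.e (nat_lit 393301) (nat_lit 27) (.e (nat_lit 491567) (nat_lit 13) (.e (nat_lit 393234) (nat_lit 17) (.e (nat_lit 7548) (nat_lit 402) .nil))))) .nil)) 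
(.lf (nat_lit 69972) (.g (nat_lit 1598) (.e (nat_lit 1659) (nat_lit 115) (.e (nat_lit 393238) (nat_lit 17) (.e (nat_lit 6989) (nat_lit 377) (.e (nat_lit 2779) (nat_lit 178) .nil)))) .nil))) (.nd (nat_lit 6) 
(.lf (nat_lit 69940) (.g (nat_lit 2689) (.e (nat_lit 1659) (nat_lit 115) (.e (nat_lit 393229) (nat_lit 9) (.e (nat_lit 336088) (nat_lit 9) (.e (nat_lit 336019) (nat_lit 3) (.e (nat_lit 98334) (nat_lit 18) (.e (nat_lit 164166) (nat_lit 152) (.e (nat_lit 1086) (nat_lit 81) .nil))))))) (.g (nat_lit 4) .nil .nil))) 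
(.lf (nat_lit 70004) (.g (nat_lit 2662) (.e (nat_lit 1659) (nat_lit 115) (.e (nat_lit 393271) (nat_lit 23) (.e (nat_lit 426354) (nat_lit 15) (.e (nat_lit 2064) (nat_lit 142) (.e (nat_lit 704595) (nat_lit 5) (.e (nat_lit 180277) (nat_lit 32) .nil)))))) (.g (nat_lit 4) .nil .nil)))))) (.nd (nat_lit 4) (.nd (nat_lit 5) (.nd (nat_lit 6) 
(.lf (nat_lit 69900) (.g (nat_lit 2457) (.e (nat_lit 1658) (nat_lit 115) (.e (nat_lit 393301) (nat_lit 27) (.e (nat_lit 491563) (nat_lit 12) (.e (nat_lit 385039) (nat_lit 18) .nil)))) .nil)) 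
(.lf (nat_lit 69964) (.g (nat_lit 604) (.e (nat_lit 1659) (nat_lit 115) (.e (nat_lit 393234) (nat_lit 17) (.e (nat_lit 3557) (nat_lit 220) .nil))) .nil))) (.nd (nat_lit 6) 
(.lf (nat_lit 69932) (.g (nat_lit 2570) (.e (nat_lit 1659) (nat_lit 115) (.e (nat_lit 393229) (nat_lit 9) (.e (nat_lit 336087) (nat_lit 9) (.e (nat_lit 336019) (nat_lit 3) (.e (nat_lit 98334) (nat_lit 18) (.e (nat_lit 164166) (nat_lit 152) (.e (nat_lit 1086) (nat_lit 81) .nil))))))) (.g (nat_lit 4) .nil .nil))) 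
(.lf (nat_lit 69996) (.g (nat_lit 2965) (.e (nat_lit 1659) (nat_lit 115) (.e (nat_lit 393260) (nat_lit 21) (.e (nat_lit 409642) (nat_lit 17) (.e (nat_lit 294973) (nat_lit 28) (.e (nat_lit 434181) (nat_lit 0) .nil))))) (.g (nat_lit 4) .nil .nil))))) (.nd (nat_lit 5) (.nd (nat_lit 6) 
(.lf (nat_lit 69916) (.g (nat_lit 2155) (.e (nat_lit 1658) (nat_lit 115) (.e (nat_lit 393301) (nat_lit 27) (.e (nat_lit 491568) (nat_lit 13) (.e (nat_lit 393242) (nat_lit 17) (.e (nat_lit 7556) (nat_lit 402) .nil))))) (.g (nat_lit 0) .nil .nil))) 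
(.lf (nat_lit 69980) (.g (nat_lit 2324) (.e (nat_lit 1659) (nat_lit 115) (.e (nat_lit 393251) (nat_lit 18) (.e (nat_lit 164179) (nat_lit 154) (.e (nat_lit 57420) (nat_lit 13) (.e (nat_lit 344130) (nat_lit 26) .nil))))) .nil))) (.nd (nat_lit 6) 
(.lf (nat_lit 69948) (.g (nat_lit 1549) (.e (nat_lit 1659) (nat_lit 115) (.e (nat_lit 393229) (nat_lit 9) (.e (nat_lit 336186) (nat_lit 11) (.e (nat_lit 368676) (nat_lit 21) (.e (nat_lit 516115) (nat_lit 1) .nil))))) .nil)) 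
(.lf (nat_lit 70012) (.g (nat_lit 1625) (.e (nat_lit 1659) (nat_lit 115) (.e (nat_lit 393274) (nat_lit 23) (.e (nat_lit 426412) (nat_lit 15) (.e (nat_lit 2058) (nat_lit 142) (.e (nat_lit 704595) (nat_lit 5) .nil))))) .nil))))))) (.nd (nat_lit 2) (.nd (nat_lit 3) (.nd (nat_lit 4) (.nd (nat_lit 5) (.nd (nat_lit 6) 
(.lf (nat_lit 69890) (.g (nat_lit 1867) (.e (nat_lit 1658) (nat_lit 115) (.e (nat_lit 393301) (nat_lit 27) (.e (nat_lit 491560) (nat_lit 10) (.e (nat_lit 344179) (nat_lit 44) .nil)))) .nil)) 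
(.lf (nat_lit 69954) (.g (nat_lit 670) (.e (nat_lit 1659) (nat_lit 115) (.e (nat_lit 401152) (nat_lit 11) (.e (nat_lit 352310) (nat_lit 22) (.e (nat_lit 90165) (nat_lit 12) (.e (nat_lit 164016) (nat_lit 44) (.e (nat_lit 688161) (nat_lit 13) .nil)))))) (.g (nat_lit 4) .nil .nil)))) (.nd (nat_lit 6) 
(.lf (nat_lit 69922) (.g (nat_lit 1878) (.e (nat_lit 1659) (nat_lit 115) (.e (nat_lit 393227) (nat_lit 9) (.e (nat_lit 336152) (nat_lit 9) (.e (nat_lit 336017) (nat_lit 3) (.e (nat_lit 98334) (nat_lit 18) (.e (nat_lit 164164) (nat_lit 152) (.e (nat_lit 1086) (nat_lit 81) .nil))))))) (.g (nat_lit 5) .nil .nil))) 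
(.lf (nat_lit 69986) (.g (nat_lit 1100) (.e (nat_lit 1659) (nat_lit 115) (.e (nat_lit 393251) (nat_lit 18) (.e (nat_lit 164183) (nat_lit 154) .nil))) .nil)))) (.nd (nat_lit 5) (.nd (nat_lit 6) 
(.lf (nat_lit 69906) (.g (nat_lit 1468) (.e (nat_lit 1658) (nat_lit 115) (.e (nat_lit 393301) (nat_lit 27) (.e (nat_lit 491567) (nat_lit 13) (.e (nat_lit 393234) (nat_lit 17) .nil)))) .nil)) 
(.lf (nat_lit 69970) (.g (nat_lit 2020) (.e (nat_lit 1659) (nat_lit 115) (.e (nat_lit 393234) (nat_lit 17) (.e (nat_lit 7581) (nat_lit 405) (.e (nat_lit 57480) (nat_lit 28) (.e (nat_lit 557105) (nat_lit 14) (.e (nat_lit 180265) (nat_lit 21) (.e (nat_lit 671488) (nat_lit 0) .nil))))))) (.g (nat_lit 4) .nil .nil)))) (.nd (nat_lit 6) 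
(.lf (nat_lit 69938) (.g (nat_lit 3327) (.e (nat_lit 1659) (nat_lit 115) (.e (nat_lit 393229) (nat_lit 9) (.e (nat_lit 336088) (nat_lit 9) (.e (nat_lit 336019) (nat_lit 3) (.e (nat_lit 98333) (nat_lit 18) (.e (nat_lit 164151) (nat_lit 152) (.e (nat_lit 1102) (nat_lit 81) .nil))))))) (.g (nat_lit 5) .nil .nil))) 
(.lf (nat_lit 70002) (.g (nat_lit 2478) (.e (nat_lit 1659) (nat_lit 115) (.e (nat_lit 393271) (nat_lit 23) (.e (nat_lit 426354) (nat_lit 15) (.e (nat_lit 2050) (nat_lit 142) (.e (nat_lit 704595) (nat_lit 5) (.e (nat_lit 180278) (nat_lit 32) .nil)))))) (.g (nat_lit 4) .nil .nil)))))) (.nd (nat_lit 4) (.nd (nat_lit 5) (.nd (nat_lit 6) 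
(.lf (nat_lit 69898) (.g (nat_lit 1310) (.e (nat_lit 1658) (nat_lit 115) (.e (nat_lit 393301) (nat_lit 27) (.e (nat_lit 491563) (nat_lit 12) (.e (nat_lit 392960) (nat_lit 11) .nil)))) .nil)) 
(.lf (nat_lit 69962) (.g (nat_lit 3573) (.e (nat_lit 1659) (nat_lit 115) (.e (nat_lit 393234) (nat_lit 17) (.e (nat_lit 3461) (nat_lit 216) (.e (nat_lit 688182) (nat_lit 17) (.e (nat_lit 73755) (nat_lit 8) (.e (nat_lit 557091) (nat_lit 12) (.e (nat_lit 164238) (nat_lit 187) .nil))))))) (.g (nat_lit 6) .nil .nil)))) (.nd (nat_lit 6) 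
(.lf (nat_lit 69930) (.g (nat_lit 2414) (.e (nat_lit 1659) (nat_lit 115) (.e (nat_lit 393229) (nat_lit 9) (.e (nat_lit 336087) (nat_lit 9) (.e (nat_lit 336019) (nat_lit 3) (.e (nat_lit 98333) (nat_lit 18) (.e (nat_lit 164165) (nat_lit 152) (.e (nat_lit 1086) (nat_lit 81) .nil))))))) (.g (nat_lit 4) .nil .nil))) 
(.lf (nat_lit 69994) (.g (nat_lit 831) (.e (nat_lit 1659) (nat_lit 115) (.e (nat_lit 393260) (nat_lit 21) (.e (nat_lit 409618) (nat_lit 10) .nil))) .nil)))) (.nd (nat_lit 5) (.nd (nat_lit 6) 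
(.lf (nat_lit 69914) (.g (nat_lit 1852) (.e (nat_lit 1658) (nat_lit 115) (.e (nat_lit 393301) (nat_lit 27) (.e (nat_lit 491568) (nat_lit 13) (.e (nat_lit 393238) (nat_lit 17) .nil)))) .nil)) 
(.lf (nat_lit 69978) (.g (nat_lit 1051) (.e (nat_lit 1659) (nat_lit 115) (.e (nat_lit 393251) (nat_lit 18) (.e (nat_lit 164177) (nat_lit 154) .nil))) .nil))) (.nd (nat_lit 6) 
(.lf (nat_lit 69946) (.g (nat_lit 2576) (.e (nat_lit 1659) (nat_lit 115) (.e (nat_lit 393229) (nat_lit 9) (.e (nat_lit 336184) (nat_lit 11) (.e (nat_lit 368676) (nat_lit 21) (.e (nat_lit 516117) (nat_lit 1) (.e (nat_lit 164165) (nat_lit 152) (.e (nat_lit 1086) (nat_lit 81) .nil))))))) (.g (nat_lit 5) .nil .nil))) 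
(.lf (nat_lit 70010) (.g (nat_lit 3153) (.e (nat_lit 1659) (nat_lit 115) (.e (nat_lit 393273) (nat_lit 23) (.e (nat_lit 426364) (nat_lit 15) (.e (nat_lit 2160) (nat_lit 143) (.e (nat_lit 712749) (nat_lit 28) (.e (nat_lit 434180) (nat_lit 0) .nil)))))) (.g (nat_lit 0) .nil .nil))))))) (.nd (nat_lit 3) (.nd (nat_lit 4) (.nd (nat_lit 5) (.nd (nat_lit 6) 
(.lf (nat_lit 69894) (.g (nat_lit 2959) (.e (nat_lit 1658) (nat_lit 115) (.e (nat_lit 393301) (nat_lit 27) (.e (nat_lit 491560) (nat_lit 10) (.e (nat_lit 344179) (nat_lit 44) (.e (nat_lit 778454) (nat_lit 10) (.e (nat_lit 8568) (nat_lit 250) .nil)))))) (.g (nat_lit 5) .nil .nil))) 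
(.lf (nat_lit 69958) (.g (nat_lit 1583) (.e (nat_lit 1659) (nat_lit 115) (.e (nat_lit 401152) (nat_lit 12) (.e (nat_lit 360467) (nat_lit 3) (.e (nat_lit 516117) (nat_lit 1) (.e (nat_lit 164165) (nat_lit 152) (.e (nat_lit 1086) (nat_lit 81) .nil)))))) (.g (nat_lit 4) .nil .nil)))) (.nd (nat_lit 6) 
(.lf (nat_lit 69926) (.g (nat_lit 3892) (.e (nat_lit 1659) (nat_lit 115) (.e (nat_lit 393229) (nat_lit 9) (.e (nat_lit 336087) (nat_lit 9) (.e (nat_lit 336019) (nat_lit 3) (.e (nat_lit 98333) (nat_lit 18) (.e (nat_lit 164151) (nat_lit 152) (.e (nat_lit 1056) (nat_lit 81) .nil))))))) (.g (nat_lit 6) .nil .nil))) 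
(.lf (nat_lit 69990) (.g (nat_lit 1717) (.e (nat_lit 1659) (nat_lit 115) (.e (nat_lit 393253) (nat_lit 18) (.e (nat_lit 164179) (nat_lit 154) (.e (nat_lit 57420) (nat_lit 13) .nil)))) .nil)))) (.nd (nat_lit 5) (.nd (nat_lit 6) 
(.lf (nat_lit 69910) (.g (nat_lit 1669) (.e (nat_lit 1658) (nat_lit 115) (.e (nat_lit 393301) (nat_lit 27) (.e (nat_lit 491567) (nat_lit 13) (.e (nat_lit 393246) (nat_lit 17) .nil)))) .nil)) 
(.lf (nat_lit 69974) (.g (nat_lit 1248) (.e (nat_lit 1659) (nat_lit 115) (.e (nat_lit 393251) (nat_lit 18) (.e (nat_lit 164150) (nat_lit 152) .nil))) .nil))) (.nd (nat_lit 6) 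
(.lf (nat_lit 69942) (.g (nat_lit 1766) (.e (nat_lit 1659) (nat_lit 115) (.e (nat_lit 393229) (nat_lit 9) (.e (nat_lit 336184) (nat_lit 11) (.e (nat_lit 368676) (nat_lit 21) (.e (nat_lit 516097) (nat_lit 0) (.e (nat_lit 3460) (nat_lit 216) (.e (nat_lit 688160) (nat_lit 13) .nil))))))) (.g (nat_lit 4) .nil .nil))) 
(.lf (nat_lit 70006) (.g (nat_lit 1176) (.e (nat_lit 1659) (nat_lit 115) (.e (nat_lit 393271) (nat_lit 23) (.e (nat_lit 426375) (nat_lit 15) .nil))) .nil))))) (.nd (nat_lit 4) (.nd (nat_lit 5) (.nd (nat_lit 6) 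
(.lf (nat_lit 69902) (.g (nat_lit 1562) (.e (nat_lit 1658) (nat_lit 115) (.e (nat_lit 393301) (nat_lit 27) (.e (nat_lit 491567) (nat_lit 13) (.e (nat_lit 393231) (nat_lit 17) .nil)))) .nil)) 
(.lf (nat_lit 69966) (.g (nat_lit 1178) (.e (nat_lit 1659) (nat_lit 115) (.e (nat_lit 393234) (nat_lit 17) (.e (nat_lit 7538) (nat_lit 402) (.e (nat_lit 1661) (nat_lit 115) .nil)))) .nil))) (.nd (nat_lit 6) 
(.lf (nat_lit 69934) (.g (nat_lit 3990) (.e (nat_lit 1659) (nat_lit 115) (.e (nat_lit 393229) (nat_lit 9) (.e (nat_lit 336088) (nat_lit 9) (.e (nat_lit 336019) (nat_lit 3) (.e (nat_lit 98333) (nat_lit 18) (.e (nat_lit 164151) (nat_lit 152) (.e (nat_lit 1056) (nat_lit 81) .nil))))))) (.g (nat_lit 6) .nil .nil))) 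
(.lf (nat_lit 69998) (.g (nat_lit 1631) (.e (nat_lit 1659) (nat_lit 115) (.e (nat_lit 393270) (nat_lit 23) (.e (nat_lit 426402) (nat_lit 15) (.e (nat_lit 2162) (nat_lit 143) (.e (nat_lit 712749) (nat_lit 28) (.e (nat_lit 434180) (nat_lit 0) .nil)))))) (.g (nat_lit 4) .nil .nil))))) (.nd (nat_lit 5) (.nd (nat_lit 6) 
(.lf (nat_lit 69918) (.g (nat_lit 2296) (.e (nat_lit 1658) (nat_lit 115) (.e (nat_lit 393301) (nat_lit 27) (.e (nat_lit 491568) (nat_lit 13) (.e (nat_lit 393246) (nat_lit 17) .nil)))) .nil)) 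
(.lf (nat_lit 69982) (.g (nat_lit 3141) (.e (nat_lit 1659) (nat_lit 115) (.e (nat_lit 393251) (nat_lit 18) (.e (nat_lit 164179) (nat_lit 154) (.e (nat_lit 57421) (nat_lit 13) (.e (nat_lit 344129) (nat_lit 26) (.e (nat_lit 557090) (nat_lit 12) (.e (nat_lit 164238) (nat_lit 187) .nil))))))) (.g (nat_lit 4) .nil .nil)))) (.nd (nat_lit 6) 
(.lf (nat_lit 69950) (.g (nat_lit 2117) (.e (nat_lit 1659) (nat_lit 115) (.e (nat_lit 393229) (nat_lit 9) (.e (nat_lit 336186) (nat_lit 11) (.e (nat_lit 368676) (nat_lit 21) (.e (nat_lit 516115) (nat_lit 1) (.e (nat_lit 164151) (nat_lit 152) (.e (nat_lit 1073) (nat_lit 81) .nil))))))) (.g (nat_lit 4) .nil .nil))) 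
(.lf (nat_lit 70014) (.g (nat_lit 2183) (.e (nat_lit 1659) (nat_lit 115) (.e (nat_lit 393274) (nat_lit 23) (.e (nat_lit 426412) (nat_lit 15) (.e (nat_lit 2059) (nat_lit 142) (.e (nat_lit 704595) (nat_lit 5) (.e (nat_lit 180278) (nat_lit 32) .nil)))))) (.g (nat_lit 4) .nil .nil))))))))) (.nd (nat_lit 1) (.nd (nat_lit 2) (.nd (nat_lit 3) (.nd (nat_lit 4) (.nd (nat_lit 5) (.nd (nat_lit 6) 
(.lf (nat_lit 69889) (.g (nat_lit 1999) (.e (nat_lit 1658) (nat_lit 115) (.e (nat_lit 393301) (nat_lit 27) (.e (nat_lit 491560) (nat_lit 10) (.e (nat_lit 344178) (nat_lit 44) (.e (nat_lit 778447) (nat_lit 10) .nil))))) .nil)) 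
(.lf (nat_lit 69953) (.g (nat_lit 2193) (.e (nat_lit 1659) (nat_lit 115) (.e (nat_lit 393229) (nat_lit 9) (.e (nat_lit 336186) (nat_lit 11) (.e (nat_lit 368676) (nat_lit 21) (.e (nat_lit 516117) (nat_lit 1) (.e (nat_lit 164166) (nat_lit 152) (.e (nat_lit 1086) (nat_lit 81) .nil))))))) (.g (nat_lit 4) .nil .nil)))) (.nd (nat_lit 6) 
(.lf (nat_lit 69921) (.g (nat_lit 2374) (.e (nat_lit 1659) (nat_lit 115) (.e (nat_lit 393227) (nat_lit 9) (.e (nat_lit 336152) (nat_lit 9) (.e (nat_lit 336017) (nat_lit 3) (.e (nat_lit 98333) (nat_lit 18) (.e (nat_lit 164151) (nat_lit 152) (.e (nat_lit 1056) (nat_lit 81) .nil))))))) (.g (nat_lit 6) .nil .nil))) 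
(.lf (nat_lit 69985) (.g (nat_lit 4694) (.e (nat_lit 1659) (nat_lit 115) (.e (nat_lit 393251) (nat_lit 18) (.e (nat_lit 164179) (nat_lit 154) (.e (nat_lit 57421) (nat_lit 13) (.e (nat_lit 344133) (nat_lit 26) (.e (nat_lit 557091) (nat_lit 12) (.e (nat_lit 164238) (nat_lit 187) .nil))))))) (.g (nat_lit 6) .nil .nil))))) (.nd (nat_lit 5) (.nd (nat_lit 6) 
(.lf (nat_lit 69905) (.g (nat_lit 2005) (.e (nat_lit 1658) (nat_lit 115) (.e (nat_lit 393301) (nat_lit 27) (.e (nat_lit 491567) (nat_lit 13) (.e (nat_lit 393233) (nat_lit 17) (.e (nat_lit 7545) (nat_lit 402) .nil))))) (.g (nat_lit 4) .nil .nil))) 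
(.lf (nat_lit 69969) (.g (nat_lit 2184) (.e (nat_lit 1659) (nat_lit 115) (.e (nat_lit 393234) (nat_lit 17) (.e (nat_lit 7581) (nat_lit 405) (.e (nat_lit 57480) (nat_lit 28) (.e (nat_lit 557105) (nat_lit 14) (.e (nat_lit 180264) (nat_lit 21) (.e (nat_lit 663561) (nat_lit 0) .nil))))))) (.g (nat_lit 4) .nil .nil)))) (.nd (nat_lit 6) 
(.lf (nat_lit 69937) (.g (nat_lit 3955) (.e (nat_lit 1659) (nat_lit 115) (.e (nat_lit 393229) (nat_lit 9) (.e (nat_lit 336088) (nat_lit 9) (.e (nat_lit 336019) (nat_lit 3) (.e (nat_lit 98333) (nat_lit 18) (.e (nat_lit 164151) (nat_lit 152) (.e (nat_lit 1089) (nat_lit 81) .nil))))))) (.g (nat_lit 6) .nil .nil))) 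
(.lf (nat_lit 70001) (.g (nat_lit 1138) (.e (nat_lit 1659) (nat_lit 115) (.e (nat_lit 393271) (nat_lit 23) (.e (nat_lit 426354) (nat_lit 15) .nil))) .nil))))) (.nd (nat_lit 4) (.nd (nat_lit 5) (.nd (nat_lit 6) 
(.lf (nat_lit 69897) (.g (nat_lit 2088) (.e (nat_lit 1658) (nat_lit 115) (.e (nat_lit 393301) (nat_lit 27) (.e (nat_lit 491560) (nat_lit 10) (.e (nat_lit 352000) (nat_lit 44) .nil)))) .nil)) 
(.lf (nat_lit 69961) (.g (nat_lit 1714) (.e (nat_lit 1659) (nat_lit 115) (.e (nat_lit 401152) (nat_lit 14) (.e (nat_lit 376865) (nat_lit 22) (.e (nat_lit 90164) (nat_lit 12) (.e (nat_lit 164017) (nat_lit 44) (.e (nat_lit 688161) (nat_lit 13) .nil)))))) (.g (nat_lit 5) .nil .nil)))) (.nd (nat_lit 6) 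
(.lf (nat_lit 69929) (.g (nat_lit 3229) (.e (nat_lit 1659) (nat_lit 115) (.e (nat_lit 393229) (nat_lit 9) (.e (nat_lit 336087) (nat_lit 9) (.e (nat_lit 336019) (nat_lit 3) (.e (nat_lit 98333) (nat_lit 18) (.e (nat_lit 164151) (nat_lit 152) (.e (nat_lit 1102) (nat_lit 81) .nil))))))) (.g (nat_lit 5) .nil .nil))) 
(.lf (nat_lit 69993) (.g (nat_lit 1815) (.e (nat_lit 1659) (nat_lit 115) (.e (nat_lit 393253) (nat_lit 18) (.e (nat_lit 164189) (nat_lit 157) (.e (nat_lit 229409) (nat_lit 13) (.e (nat_lit 434232) (nat_lit 23) .nil))))) .nil)))) (.nd (nat_lit 5) (.nd (nat_lit 6) 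
(.lf (nat_lit 69913) (.g (nat_lit 1365) (.e (nat_lit 1658) (nat_lit 115) (.e (nat_lit 393301) (nat_lit 27) (.e (nat_lit 491568) (nat_lit 13) (.e (nat_lit 393235) (nat_lit 17) .nil)))) .nil)) 
(.lf (nat_lit 69977) (.g (nat_lit 1254) (.e (nat_lit 1659) (nat_lit 115) (.e (nat_lit 393251) (nat_lit 18) (.e (nat_lit 164161) (nat_lit 152) .nil))) .nil))) (.nd (nat_lit 6) 
(.lf (nat_lit 69945) (.g (nat_lit 1987) (.e (nat_lit 1659) (nat_lit 115) (.e (nat_lit 393229) (nat_lit 9) (.e (nat_lit 336184) (nat_lit 11) (.e (nat_lit 368676) (nat_lit 21) (.e (nat_lit 516117) (nat_lit 1) (.e (nat_lit 164147) (nat_lit 152) (.e (nat_lit 1086) (nat_lit 81) .nil))))))) (.g (nat_lit 4) .nil .nil))) 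
(.lf (nat_lit 70009) (.g (nat_lit 1637) (.e (nat_lit 1659) (nat_lit 115) (.e (nat_lit 393271) (nat_lit 23) (.e (nat_lit 426405) (nat_lit 15) (.e (nat_lit 2059) (nat_lit 142) .nil)))) .nil)))))) (.nd (nat_lit 3) (.nd (nat_lit 4) (.nd (nat_lit 5) (.nd (nat_lit 6) 
(.lf (nat_lit 69893) (.g (nat_lit 2565) (.e (nat_lit 1658) (nat_lit 115) (.e (nat_lit 393301) (nat_lit 27) (.e (nat_lit 491560) (nat_lit 10) (.e (nat_lit 344179) (nat_lit 44) (.e (nat_lit 778454) (nat_lit 10) (.e (nat_lit 8567) (nat_lit 250) .nil)))))) (.g (nat_lit 4) .nil .nil))) 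
(.lf (nat_lit 69957) (.g (nat_lit 1312) (.e (nat_lit 1659) (nat_lit 115) (.e (nat_lit 401152) (nat_lit 12) (.e (nat_lit 360467) (nat_lit 3) (.e (nat_lit 516115) (nat_lit 1) (.e (nat_lit 164153) (nat_lit 152) (.e (nat_lit 1068) (nat_lit 81) .nil)))))) (.g (nat_lit 4) .nil .nil)))) (.nd (nat_lit 6) 
(.lf (nat_lit 69925) (.g (nat_lit 2035) (.e (nat_lit 1659) (nat_lit 115) (.e (nat_lit 393229) (nat_lit 9) (.e (nat_lit 336087) (nat_lit 9) (.e (nat_lit 336019) (nat_lit 3) (.e (nat_lit 98333) (nat_lit 18) .nil))))) .nil)) 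
(.lf (nat_lit 69989) (.g (nat_lit 1960) (.e (nat_lit 1659) (nat_lit 115) (.e (nat_lit 393253) (nat_lit 18) (.e (nat_lit 164152) (nat_lit 152) (.e (nat_lit 1214) (nat_lit 89) (.e (nat_lit 73754) (nat_lit 8) .nil))))) .nil)))) (.nd (nat_lit 5) (.nd (nat_lit 6) 
(.lf (nat_lit 69909) (.g (nat_lit 2064) (.e (nat_lit 1658) (nat_lit 115) (.e (nat_lit 393301) (nat_lit 27) (.e (nat_lit 491567) (nat_lit 13) (.e (nat_lit 393242) (nat_lit 17) (.e (nat_lit 7556) (nat_lit 402) .nil))))) (.g (nat_lit 4) .nil .nil))) 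
(.lf (nat_lit 69973) (.g (nat_lit 512) (.e (nat_lit 1659) (nat_lit 115) (.e (nat_lit 393238) (nat_lit 17) (.e (nat_lit 7107) (nat_lit 380) .nil))) .nil))) (.nd (nat_lit 6) 
(.lf (nat_lit 69941) (.g (nat_lit 976) (.e (nat_lit 1659) (nat_lit 115) (.e (nat_lit 393229) (nat_lit 9) (.e (nat_lit 336184) (nat_lit 11) (.e (nat_lit 368676) (nat_lit 21) .nil)))) .nil)) 
(.lf (nat_lit 70005) (.g (nat_lit 2765) (.e (nat_lit 1659) (nat_lit 115) (.e (nat_lit 393271) (nat_lit 23) (.e (nat_lit 426354) (nat_lit 15) (.e (nat_lit 2064) (nat_lit 142) (.e (nat_lit 704595) (nat_lit 5) (.e (nat_lit 180278) (nat_lit 32) .nil)))))) (.g (nat_lit 4) .nil .nil)))))) (.nd (nat_lit 4) (.nd (nat_lit 5) (.nd (nat_lit 6) 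
(.lf (nat_lit 69901) (.g (nat_lit 831) (.e (nat_lit 1658) (nat_lit 115) (.e (nat_lit 393301) (nat_lit 27) (.e (nat_lit 491567) (nat_lit 13) .nil))) .nil)) 
(.lf (nat_lit 69965) (.g (nat_lit 1256) (.e (nat_lit 1659) (nat_lit 115) (.e (nat_lit 393234) (nat_lit 17) (.e (nat_lit 7538) (nat_lit 402) (.e (nat_lit 1428) (nat_lit 108) .nil)))) .nil))) (.nd (nat_lit 6) 
(.lf (nat_lit 69933) (.g (nat_lit 2201) (.e (nat_lit 1659) (nat_lit 115) (.e (nat_lit 393229) (nat_lit 9) (.e (nat_lit 336088) (nat_lit 9) (.e (nat_lit 336019) (nat_lit 3) (.e (nat_lit 98333) (nat_lit 18) .nil))))) .nil)) 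
(.lf (nat_lit 69997) (.g (nat_lit 372) (.e (nat_lit 1659) (nat_lit 115) (.e (nat_lit 393270) (nat_lit 23) (.e (nat_lit 426402) (nat_lit 15) .nil))) .nil)))) (.nd (nat_lit 5) (.nd (nat_lit 6) 
(.lf (nat_lit 69917) (.g (nat_lit 2323) (.e (nat_lit 1658) (nat_lit 115) (.e (nat_lit 393301) (nat_lit 27) (.e (nat_lit 491568) (nat_lit 13) (.e (nat_lit 393245) (nat_lit 17) .nil)))) .nil)) 
(.lf (nat_lit 69981) (.g (nat_lit 3774) (.e (nat_lit 1659) (nat_lit 115) (.e (nat_lit 393251) (nat_lit 18) (.e (nat_lit 164179) (nat_lit 154) (.e (nat_lit 57420) (nat_lit 13) (.e (nat_lit 344133) (nat_lit 26) (.e (nat_lit 557091) (nat_lit 12) (.e (nat_lit 164238) (nat_lit 187) .nil))))))) (.g (nat_lit 5) .nil .nil)))) (.nd (nat_lit 6) 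
(.lf (nat_lit 69949) (.g (nat_lit 2264) (.e (nat_lit 1659) (nat_lit 115) (.e (nat_lit 393229) (nat_lit 9) (.e (nat_lit 336186) (nat_lit 11) (.e (nat_lit 368676) (nat_lit 21) (.e (nat_lit 516115) (nat_lit 1) (.e (nat_lit 164151) (nat_lit 152) (.e (nat_lit 1062) (nat_lit 81) .nil))))))) (.g (nat_lit 4) .nil .nil))) 
(.lf (nat_lit 70013) (.g (nat_lit 2112) (.e (nat_lit 1659) (nat_lit 115) (.e (nat_lit 393274) (nat_lit 23) (.e (nat_lit 426412) (nat_lit 15) (.e (nat_lit 2059) (nat_lit 142) (.e (nat_lit 704595) (nat_lit 5) (.e (nat_lit 180277) (nat_lit 32) .nil)))))) (.g (nat_lit 4) .nil .nil)))))))) (.nd (nat_lit 2) (.nd (nat_lit 3) (.nd (nat_lit 4) (.nd (nat_lit 5) (.nd (nat_lit 6) 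
(.lf (nat_lit 69891) (.g (nat_lit 2972) (.e (nat_lit 1658) (nat_lit 115) (.e (nat_lit 393301) (nat_lit 27) (.e (nat_lit 491560) (nat_lit 10) (.e (nat_lit 344179) (nat_lit 44) (.e (nat_lit 778452) (nat_lit 10) (.e (nat_lit 8568) (nat_lit 250) .nil)))))) (.g (nat_lit 5) .nil .nil))) 
(.lf (nat_lit 69955) (.g (nat_lit 1449) (.e (nat_lit 1659) (nat_lit 115) (.e (nat_lit 401152) (nat_lit 12) (.e (nat_lit 360466) (nat_lit 3) (.e (nat_lit 516117) (nat_lit 1) (.e (nat_lit 164147) (nat_lit 152) (.e (nat_lit 1086) (nat_lit 81) .nil)))))) (.g (nat_lit 4) .nil .nil)))) (.nd (nat_lit 6) 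
(.lf (nat_lit 69923) (.g (nat_lit 1745) (.e (nat_lit 1659) (nat_lit 115) (.e (nat_lit 393229) (nat_lit 9) (.e (nat_lit 336086) (nat_lit 9) (.e (nat_lit 336324) (nat_lit 18) .nil)))) .nil)) 
(.lf (nat_lit 69987) (.g (nat_lit 738) (.e (nat_lit 1659) (nat_lit 115) (.e (nat_lit 393252) (nat_lit 18) (.e (nat_lit 164183) (nat_lit 154) .nil))) .nil)))) (.nd (nat_lit 5) (.nd (nat_lit 6) 
(.lf (nat_lit 69907) (.g (nat_lit 2316) (.e (nat_lit 1658) (nat_lit 115) (.e (nat_lit 393301) (nat_lit 27) (.e (nat_lit 491567) (nat_lit 13) (.e (nat_lit 393234) (nat_lit 17) (.e (nat_lit 7538) (nat_lit 402) .nil))))) .nil)) 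
(.lf (nat_lit 69971) (.g (nat_lit 2477) (.e (nat_lit 1659) (nat_lit 115) (.e (nat_lit 393238) (nat_lit 17) (.e (nat_lit 6989) (nat_lit 377) (.e (nat_lit 2777) (nat_lit 178) (.e (nat_lit 286770) (nat_lit 28) .nil))))) .nil))) (.nd (nat_lit 6) 
(.lf (nat_lit 69939) (.g (nat_lit 2706) (.e (nat_lit 1659) (nat_lit 115) (.e (nat_lit 393229) (nat_lit 9) (.e (nat_lit 336088) (nat_lit 9) (.e (nat_lit 336019) (nat_lit 3) (.e (nat_lit 98334) (nat_lit 18) (.e (nat_lit 164164) (nat_lit 152) (.e (nat_lit 1086) (nat_lit 81) .nil))))))) (.g (nat_lit 4) .nil .nil))) 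
(.lf (nat_lit 70003) (.g (nat_lit 1904) (.e (nat_lit 1659) (nat_lit 115) (.e (nat_lit 393271) (nat_lit 23) (.e (nat_lit 426354) (nat_lit 15) (.e (nat_lit 2051) (nat_lit 142) .nil)))) .nil))))) (.nd (nat_lit 4) (.nd (nat_lit 5) (.nd (nat_lit 6) 
(.lf (nat_lit 69899) (.g (nat_lit 1310) (.e (nat_lit 1658) (nat_lit 115) (.e (nat_lit 393301) (nat_lit 27) (.e (nat_lit 491563) (nat_lit 12) (.e (nat_lit 392960) (nat_lit 16) .nil)))) .nil)) 
(.lf (nat_lit 69963) (.g (nat_lit 604) (.e (nat_lit 1659) (nat_lit 115) (.e (nat_lit 393234) (nat_lit 17) (.e (nat_lit 3556) (nat_lit 220) .nil))) .nil))) (.nd (nat_lit 6) 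
(.lf (nat_lit 69931) (.g (nat_lit 2071) (.e (nat_lit 1659) (nat_lit 115) (.e (nat_lit 393229) (nat_lit 9) (.e (nat_lit 336087) (nat_lit 9) (.e (nat_lit 336019) (nat_lit 3) (.e (nat_lit 98334) (nat_lit 18) .nil))))) .nil)) 
(.lf (nat_lit 69995) (.g (nat_lit 599) (.e (nat_lit 1659) (nat_lit 115) (.e (nat_lit 393260) (nat_lit 21) (.e (nat_lit 409642) (nat_lit 17) .nil))) .nil)))) (.nd (nat_lit 5) (.nd (nat_lit 6) 
(.lf (nat_lit 69915) (.g (nat_lit 2792) (.e (nat_lit 1658) (nat_lit 115) (.e (nat_lit 393301) (nat_lit 27) (.e (nat_lit 491568) (nat_lit 13) (.e (nat_lit 393238) (nat_lit 17) (.e (nat_lit 7555) (nat_lit 402) .nil))))) .nil)) 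
(.lf (nat_lit 69979) (.g (nat_lit 2443) (.e (nat_lit 1659) (nat_lit 115) (.e (nat_lit 393251) (nat_lit 18) (.e (nat_lit 164177) (nat_lit 154) (.e (nat_lit 57421) (nat_lit 13) (.e (nat_lit 344133) (nat_lit 26) (.e (nat_lit 557091) (nat_lit 12) (.e (nat_lit 164238) (nat_lit 187) .nil))))))) (.g (nat_lit 4) .nil .nil)))) (.nd (nat_lit 6) 
(.lf (nat_lit 69947) (.g (nat_lit 1852) (.e (nat_lit 1659) (nat_lit 115) (.e (nat_lit 393229) (nat_lit 9) (.e (nat_lit 336186) (nat_lit 11) (.e (nat_lit 368676) (nat_lit 21) (.e (nat_lit 516097) (nat_lit 0) (.e (nat_lit 3460) (nat_lit 216) (.e (nat_lit 688161) (nat_lit 13) .nil))))))) (.g (nat_lit 4) .nil .nil))) 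
(.lf (nat_lit 70011) (.g (nat_lit 627) (.e (nat_lit 1659) (nat_lit 115) (.e (nat_lit 393273) (nat_lit 23) (.e (nat_lit 426402) (nat_lit 15) .nil))) .nil)))))) (.nd (nat_lit 3) (.nd (nat_lit 4) (.nd (nat_lit 5) (.nd (nat_lit 6) 
(.lf (nat_lit 69895) (.g (nat_lit 2461) (.e (nat_lit 1658) (nat_lit 115) (.e (nat_lit 393301) (nat_lit 27) (.e (nat_lit 491560) (nat_lit 10) (.e (nat_lit 344179) (nat_lit 44) (.e (nat_lit 778455) (nat_lit 10) (.e (nat_lit 8567) (nat_lit 250) .nil)))))) (.g (nat_lit 4) .nil .nil))) 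
(.lf (nat_lit 69959) (.g (nat_lit 3136) (.e (nat_lit 1659) (nat_lit 115) (.e (nat_lit 401152) (nat_lit 12) (.e (nat_lit 360475) (nat_lit 8) (.e (nat_lit 557090) (nat_lit 12) (.e (nat_lit 163844) (nat_lit 0) (.e (nat_lit 5120) (nat_lit 292) (.e (nat_lit 1084) (nat_lit 81) .nil))))))) (.g (nat_lit 5) .nil .nil)))) (.nd (nat_lit 6) 
(.lf (nat_lit 69927) (.g (nat_lit 2750) (.e (nat_lit 1659) (nat_lit 115) (.e (nat_lit 393229) (nat_lit 9) (.e (nat_lit 336087) (nat_lit 9) (.e (nat_lit 336019) (nat_lit 3) (.e (nat_lit 98333) (nat_lit 18) (.e (nat_lit 164151) (nat_lit 152) (.e (nat_lit 1073) (nat_lit 81) .nil))))))) (.g (nat_lit 4) .nil .nil))) 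
(.lf (nat_lit 69991) (.g (nat_lit 1720) (.e (nat_lit 1659) (nat_lit 115) (.e (nat_lit 393253) (nat_lit 18) (.e (nat_lit 164179) (nat_lit 154) (.e (nat_lit 57421) (nat_lit 13) .nil)))) .nil)))) (.nd (nat_lit 5) (.nd (nat_lit 6) 
(.lf (nat_lit 69911) (.g (nat_lit 2531) (.e (nat_lit 1658) (nat_lit 115) (.e (nat_lit 393301) (nat_lit 27) (.e (nat_lit 491567) (nat_lit 13) (.e (nat_lit 393249) (nat_lit 17) (.e (nat_lit 7515) (nat_lit 402) .nil))))) (.g (nat_lit 0) .nil .nil))) 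
(.lf (nat_lit 69975) (.g (nat_lit 1693) (.e (nat_lit 1659) (nat_lit 115) (.e (nat_lit 393251) (nat_lit 18) (.e (nat_lit 164151) (nat_lit 152) (.e (nat_lit 1207) (nat_lit 89) .nil)))) .nil))) (.nd (nat_lit 6) 
(.lf (nat_lit 69943) (.g (nat_lit 2228) (.e (nat_lit 1659) (nat_lit 115) (.e (nat_lit 393229) (nat_lit 9) (.e (nat_lit 336184) (nat_lit 11) (.e (nat_lit 368676) (nat_lit 21) (.e (nat_lit 516097) (nat_lit 0) (.e (nat_lit 3460) (nat_lit 216) (.e (nat_lit 688161) (nat_lit 13) .nil))))))) (.g (nat_lit 4) .nil .nil))) 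
(.lf (nat_lit 70007) (.g (nat_lit 986) (.e (nat_lit 1659) (nat_lit 115) (.e (nat_lit 393271) (nat_lit 23) (.e (nat_lit 426402) (nat_lit 15) .nil))) .nil))))) (.nd (nat_lit 4) (.nd (nat_lit 5) (.nd (nat_lit 6) 
(.lf (nat_lit 69903) (.g (nat_lit 2164) (.e (nat_lit 1658) (nat_lit 115) (.e (nat_lit 393301) (nat_lit 27) (.e (nat_lit 491567) (nat_lit 13) (.e (nat_lit 393231) (nat_lit 17) (.e (nat_lit 7517) (nat_lit 402) .nil))))) (.g (nat_lit 5) .nil .nil))) 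
(.lf (nat_lit 69967) (.g (nat_lit 549) (.e (nat_lit 1659) (nat_lit 115) (.e (nat_lit 393234) (nat_lit 17) (.e (nat_lit 7581) (nat_lit 405) .nil))) .nil))) (.nd (nat_lit 6) 
(.lf (nat_lit 69935) (.g (nat_lit 2959) (.e (nat_lit 1659) (nat_lit 115) (.e (nat_lit 393229) (nat_lit 9) (.e (nat_lit 336088) (nat_lit 9) (.e (nat_lit 336019) (nat_lit 3) (.e (nat_lit 98333) (nat_lit 18) (.e (nat_lit 164151) (nat_lit 152) (.e (nat_lit 1062) (nat_lit 81) .nil))))))) (.g (nat_lit 4) .nil .nil))) 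
(.lf (nat_lit 69999) (.g (nat_lit 1176) (.e (nat_lit 1659) (nat_lit 115) (.e (nat_lit 393271) (nat_lit 23) (.e (nat_lit 426111) (nat_lit 1) .nil))) .nil)))) (.nd (nat_lit 5) (.nd (nat_lit 6) 
(.lf (nat_lit 69919) (.g (nat_lit 2166) (.e (nat_lit 1658) (nat_lit 115) (.e (nat_lit 393301) (nat_lit 27) (.e (nat_lit 491568) (nat_lit 13) (.e (nat_lit 393249) (nat_lit 17) .nil)))) .nil)) 
(.lf (nat_lit 69983) (.g (nat_lit 3190) (.e (nat_lit 1659) (nat_lit 115) (.e (nat_lit 393251) (nat_lit 18) (.e (nat_lit 164179) (nat_lit 154) (.e (nat_lit 57421) (nat_lit 13) (.e (nat_lit 344130) (nat_lit 26) (.e (nat_lit 557090) (nat_lit 12) (.e (nat_lit 164238) (nat_lit 187) .nil))))))) (.g (nat_lit 4) .nil .nil)))) (.nd (nat_lit 6) 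
(.lf (nat_lit 69951) (.g (nat_lit 2571) (.e (nat_lit 1659) (nat_lit 115) (.e (nat_lit 393229) (nat_lit 9) (.e (nat_lit 336186) (nat_lit 11) (.e (nat_lit 368676) (nat_lit 21) (.e (nat_lit 516115) (nat_lit 1) (.e (nat_lit 164151) (nat_lit 152) (.e (nat_lit 1102) (nat_lit 81) .nil))))))) (.g (nat_lit 5) .nil .nil))) 
(.lf (nat_lit 70015) (.g (nat_lit 1692) (.e (nat_lit 1659) (nat_lit 115) (.e (nat_lit 393279) (nat_lit 23) (.e (nat_lit 426419) (nat_lit 15) (.e (nat_lit 2058) (nat_lit 142) (.e (nat_lit 704595) (nat_lit 5) (.e (nat_lit 180278) (nat_lit 32) .nil)))))) (.g (nat_lit 4) .nil .nil))))))))))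

noncomputable def tv957 : DT := (.nd (nat_lit 0) (.nd (nat_lit 1) (.nd (nat_lit 2) (.nd (nat_lit 3) (.nd (nat_lit 4) (.nd (nat_lit 5) (.nd (nat_lit 6) 
(.lf (nat_lit 70016) (.g (nat_lit 2758) (.e (nat_lit 1659) (nat_lit 115) (.e (nat_lit 393279) (nat_lit 23) (.e (nat_lit 426419) (nat_lit 15) (.e (nat_lit 2059) (nat_lit 142) (.e (nat_lit 704595) (nat_lit 5) (.e (nat_lit 180277) (nat_lit 32) .nil)))))) (.g (nat_lit 6) .nil .nil))) 
(.lf (nat_lit 70080) (.g (nat_lit 2442) (.e (nat_lit 1659) (nat_lit 115) (.e (nat_lit 393298) (nat_lit 27) (.e (nat_lit 491549) (nat_lit 9) (.e (nat_lit 336421) (nat_lit 28) (.e (nat_lit 434181) (nat_lit 0) .nil))))) (.g (nat_lit 4) .nil .nil)))) (.nd (nat_lit 6) 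
(.lf (nat_lit 70048) (.g (nat_lit 2079) (.e (nat_lit 1659) (nat_lit 115) (.e (nat_lit 393293) (nat_lit 26) (.e (nat_lit 475196) (nat_lit 40) (.e (nat_lit 704596) (nat_lit 5) (.e (nat_lit 180277) (nat_lit 32) .nil))))) (.g (nat_lit 0) .nil .nil))) 
(.lf (nat_lit 70112) (.g (nat_lit 1525) (.e (nat_lit 1659) (nat_lit 115) (.e (nat_lit 393300) (nat_lit 27) (.e (nat_lit 491570) (nat_lit 13) (.e (nat_lit 393238) (nat_lit 17) .nil)))) .nil)))) (.nd (nat_lit 5) (.nd (nat_lit 6) 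
(.lf (nat_lit 70032) (.g (nat_lit 2150) (.e (nat_lit 1659) (nat_lit 115) (.e (nat_lit 393283) (nat_lit 24) (.e (nat_lit 434272) (nat_lit 38) (.e (nat_lit 655378) (nat_lit 4) (.e (nat_lit 172037) (nat_lit 0) .nil))))) .nil)) 
(.lf (nat_lit 70096) (.g (nat_lit 2464) (.e (nat_lit 1659) (nat_lit 115) (.e (nat_lit 393299) (nat_lit 27) (.e (nat_lit 491570) (nat_lit 13) (.e (nat_lit 393238) (nat_lit 17) (.e (nat_lit 7555) (nat_lit 402) .nil))))) (.g (nat_lit 4) .nil .nil)))) (.nd (nat_lit 6) 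
(.lf (nat_lit 70064) (.g (nat_lit 2841) (.e (nat_lit 1659) (nat_lit 115) (.e (nat_lit 393294) (nat_lit 26) (.e (nat_lit 475211) (nat_lit 41) (.e (nat_lit 712749) (nat_lit 28) (.e (nat_lit 434180) (nat_lit 0) .nil))))) (.g (nat_lit 4) .nil .nil))) 
(.lf (nat_lit 70128) (.g (nat_lit 483) (.e (nat_lit 1659) (nat_lit 115) (.e (nat_lit 393301) (nat_lit 27) (.e (nat_lit 491526) (nat_lit 0) .nil))) .nil))))) (.nd (nat_lit 4) (.nd (nat_lit 5) (.nd (nat_lit 6) 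
(.lf (nat_lit 70024) (.g (nat_lit 2416) (.e (nat_lit 1659) (nat_lit 115) (.e (nat_lit 393281) (nat_lit 23) (.e (nat_lit 426413) (nat_lit 15) (.e (nat_lit 2059) (nat_lit 142) (.e (nat_lit 704595) (nat_lit 5) (.e (nat_lit 180277) (nat_lit 32) .nil)))))) (.g (nat_lit 5) .nil .nil))) 
(.lf (nat_lit 70088) (.g (nat_lit 2602) (.e (nat_lit 1659) (nat_lit 115) (.e (nat_lit 393298) (nat_lit 27) (.e (nat_lit 491571) (nat_lit 13) (.e (nat_lit 393238) (nat_lit 17) (.e (nat_lit 7521) (nat_lit 402) .nil))))) .nil))) (.nd (nat_lit 6) 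
(.lf (nat_lit 70056) (.g (nat_lit 3163) (.e (nat_lit 1659) (nat_lit 115) (.e (nat_lit 393294) (nat_lit 26) (.e (nat_lit 475198) (nat_lit 40) (.e (nat_lit 704595) (nat_lit 5) (.e (nat_lit 180278) (nat_lit 32) .nil))))) (.g (nat_lit 5) .nil .nil))) 
(.lf (nat_lit 70120) (.g (nat_lit 1949) (.e (nat_lit 1659) (nat_lit 115) (.e (nat_lit 393300) (nat_lit 27) (.e (nat_lit 491570) (nat_lit 13) (.e (nat_lit 401152) (nat_lit 17) .nil)))) .nil)))) (.nd (nat_lit 5) (.nd (nat_lit 6) 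
(.lf (nat_lit 70040) (.g (nat_lit 2584) (.e (nat_lit 1659) (nat_lit 115) (.e (nat_lit 393290) (nat_lit 26) (.e (nat_lit 475210) (nat_lit 41) (.e (nat_lit 712749) (nat_lit 28) (.e (nat_lit 434180) (nat_lit 0) .nil))))) (.g (nat_lit 5) .nil .nil))) 
(.lf (nat_lit 70104) (.g (nat_lit 2068) (.e (nat_lit 1659) (nat_lit 115) (.e (nat_lit 393300) (nat_lit 27) (.e (nat_lit 491549) (nat_lit 9) (.e (nat_lit 336425) (nat_lit 28) .nil)))) .nil))) (.nd (nat_lit 6) 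
(.lf (nat_lit 70072) (.g (nat_lit 985) (.e (nat_lit 1659) (nat_lit 115) (.e (nat_lit 393296) (nat_lit 26) (.e (nat_lit 475207) (nat_lit 41) (.e (nat_lit 712747) (nat_lit 28) .nil)))) .nil)) 
(.lf (nat_lit 70136) (.g (nat_lit 2700) (.e (nat_lit 1659) (nat_lit 115) (.e (nat_lit 393301) (nat_lit 27) (.e (nat_lit 491526) (nat_lit 0) (.e (nat_lit 1788) (nat_lit 119) (.e (nat_lit 516130) (nat_lit 3) (.e (nat_lit 221219) (nat_lit 24) (.e (nat_lit 220928) (nat_lit 0) .nil))))))) (.g (nat_lit 4) .nil .nil))))))) (.nd (nat_lit 3) (.nd (nat_lit 4) (.nd (nat_lit 5) (.nd (nat_lit 6) 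
(.lf (nat_lit 70020) (.g (nat_lit 1719) (.e (nat_lit 1659) (nat_lit 115) (.e (nat_lit 393281) (nat_lit 23) (.e (nat_lit 426387) (nat_lit 15) (.e (nat_lit 2058) (nat_lit 142) (.e (nat_lit 704595) (nat_lit 5) (.e (nat_lit 180278) (nat_lit 32) .nil)))))) (.g (nat_lit 4) .nil .nil))) 
(.lf (nat_lit 70084) (.g (nat_lit 3240) (.e (nat_lit 1659) (nat_lit 115) (.e (nat_lit 393298) (nat_lit 27) (.e (nat_lit 491570) (nat_lit 13) (.e (nat_lit 393238) (nat_lit 17) (.e (nat_lit 7555) (nat_lit 402) .nil))))) (.g (nat_lit 0) .nil .nil)))) (.nd (nat_lit 6) 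
(.lf (nat_lit 70052) (.g (nat_lit 2733) (.e (nat_lit 1659) (nat_lit 115) (.e (nat_lit 393293) (nat_lit 26) (.e (nat_lit 475198) (nat_lit 40) (.e (nat_lit 704596) (nat_lit 5) (.e (nat_lit 180277) (nat_lit 32) .nil))))) (.g (nat_lit 0) .nil .nil))) 
(.lf (nat_lit 70116) (.g (nat_lit 2552) (.e (nat_lit 1659) (nat_lit 115) (.e (nat_lit 393300) (nat_lit 27) (.e (nat_lit 491570) (nat_lit 13) (.e (nat_lit 393238) (nat_lit 17) (.e (nat_lit 7936) (nat_lit 402) .nil))))) .nil)))) (.nd (nat_lit 5) (.nd (nat_lit 6) 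
(.lf (nat_lit 70036) (.g (nat_lit 2648) (.e (nat_lit 1659) (nat_lit 115) (.e (nat_lit 393290) (nat_lit 26) (.e (nat_lit 475198) (nat_lit 40) (.e (nat_lit 704595) (nat_lit 5) (.e (nat_lit 180278) (nat_lit 32) .nil))))) (.g (nat_lit 0) .nil .nil))) 
(.lf (nat_lit 70100) (.g (nat_lit 1630) (.e (nat_lit 1659) (nat_lit 115) (.e (nat_lit 393300) (nat_lit 27) (.e (nat_lit 491549) (nat_lit 9) (.e (nat_lit 336369) (nat_lit 27) .nil)))) .nil))) (.nd (nat_lit 6) 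
(.lf (nat_lit 70068) (.g (nat_lit 2228) (.e (nat_lit 1659) (nat_lit 115) (.e (nat_lit 393296) (nat_lit 26) (.e (nat_lit 475197) (nat_lit 40) (.e (nat_lit 704595) (nat_lit 5) (.e (nat_lit 180277) (nat_lit 32) .nil))))) (.g (nat_lit 5) .nil .nil))) 
(.lf (nat_lit 70132) (.g (nat_lit 2670) (.e (nat_lit 1659) (nat_lit 115) (.e (nat_lit 393301) (nat_lit 27) (.e (nat_lit 491526) (nat_lit 0) (.e (nat_lit 1788) (nat_lit 119) (.e (nat_lit 516130) (nat_lit 3) (.e (nat_lit 221218) (nat_lit 24) (.e (nat_lit 212994) (nat_lit 0) .nil))))))) (.g (nat_lit 4) .nil .nil)))))) (.nd (nat_lit 4) (.nd (nat_lit 5) (.nd (nat_lit 6) 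
(.lf (nat_lit 70028) (.g (nat_lit 1507) (.e (nat_lit 1659) (nat_lit 115) (.e (nat_lit 393283) (nat_lit 24) (.e (nat_lit 434209) (nat_lit 18) (.e (nat_lit 5547) (nat_lit 306) (.e (nat_lit 2639) (nat_lit 165) .nil))))) .nil)) 
(.lf (nat_lit 70092) (.g (nat_lit 2633) (.e (nat_lit 1659) (nat_lit 115) (.e (nat_lit 393298) (nat_lit 27) (.e (nat_lit 491571) (nat_lit 13) (.e (nat_lit 393244) (nat_lit 17) .nil)))) .nil))) (.nd (nat_lit 6) 
(.lf (nat_lit 70060) (.g (nat_lit 2748) (.e (nat_lit 1659) (nat_lit 115) (.e (nat_lit 393294) (nat_lit 26) (.e (nat_lit 475209) (nat_lit 41) (.e (nat_lit 712749) (nat_lit 28) (.e (nat_lit 434180) (nat_lit 0) .nil))))) (.g (nat_lit 4) .nil .nil))) 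
(.lf (nat_lit 70124) (.g (nat_lit 2388) (.e (nat_lit 1659) (nat_lit 115) (.e (nat_lit 393301) (nat_lit 27) (.e (nat_lit 491520) (nat_lit 0) (.e (nat_lit 1858) (nat_lit 124) (.e (nat_lit 557105) (nat_lit 14) (.e (nat_lit 180265) (nat_lit 21) (.e (nat_lit 671488) (nat_lit 0) .nil))))))) (.g (nat_lit 4) .nil .nil))))) (.nd (nat_lit 5) (.nd (nat_lit 6) 
(.lf (nat_lit 70044) (.g (nat_lit 1972) (.e (nat_lit 1659) (nat_lit 115) (.e (nat_lit 393291) (nat_lit 26) (.e (nat_lit 475198) (nat_lit 40) (.e (nat_lit 704596) (nat_lit 5) (.e (nat_lit 180277) (nat_lit 32) .nil))))) (.g (nat_lit 4) .nil .nil))) 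
(.lf (nat_lit 70108) (.g (nat_lit 1490) (.e (nat_lit 1659) (nat_lit 115) (.e (nat_lit 393300) (nat_lit 27) (.e (nat_lit 491568) (nat_lit 13) (.e (nat_lit 393242) (nat_lit 17) .nil)))) .nil))) (.nd (nat_lit 6) 
(.lf (nat_lit 70076) (.g (nat_lit 1255) (.e (nat_lit 1659) (nat_lit 115) (.e (nat_lit 393297) (nat_lit 27) (.e (nat_lit 491571) (nat_lit 13) (.e (nat_lit 393235) (nat_lit 17) .nil)))) .nil)) 
(.lf (nat_lit 70140) (.g (nat_lit 2584) (.e (nat_lit 1659) (nat_lit 115) (.e (nat_lit 393301) (nat_lit 27) (.e (nat_lit 491526) (nat_lit 0) (.e (nat_lit 1855) (nat_lit 124) (.e (nat_lit 557105) (nat_lit 14) (.e (nat_lit 180265) (nat_lit 21) (.e (nat_lit 663561) (nat_lit 0) .nil))))))) (.g (nat_lit 4) .nil .nil)))))))) 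
(.nd (nat_lit 2) (.nd (nat_lit 3) (.nd (nat_lit 4) (.nd (nat_lit 5) (.nd (nat_lit 6) 
(.lf (nat_lit 70018) (.g (nat_lit 1191) (.e (nat_lit 1659) (nat_lit 115) (.e (nat_lit 393281) (nat_lit 23) (.e (nat_lit 426098) (nat_lit 1) (.e (nat_lit 164346) (nat_lit 240) (.e (nat_lit 2640) (nat_lit 165) .nil))))) .nil)) 
(.lf (nat_lit 70082) (.g (nat_lit 2810) (.e (nat_lit 1659) (nat_lit 115) (.e (nat_lit 393298) (nat_lit 27) (.e (nat_lit 491570) (nat_lit 13) (.e (nat_lit 393238) (nat_lit 17) (.e (nat_lit 7521) (nat_lit 402) .nil))))) (.g (nat_lit 4) .nil .nil)))) (.nd (nat_lit 6) 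
(.lf (nat_lit 70050) (.g (nat_lit 956) (.e (nat_lit 1659) (nat_lit 115) (.e (nat_lit 393293) (nat_lit 26) (.e (nat_lit 475197) (nat_lit 40) (.e (nat_lit 704596) (nat_lit 5) .nil)))) .nil)) 
(.lf (nat_lit 70114) (.g (nat_lit 2711) (.e (nat_lit 1659) (nat_lit 115) (.e (nat_lit 393300) (nat_lit 27) (.e (nat_lit 491570) (nat_lit 13) (.e (nat_lit 393238) (nat_lit 17) (.e (nat_lit 7537) (nat_lit 402) .nil))))) .nil)))) (.nd (nat_lit 5) (.nd (nat_lit 6) 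
(.lf (nat_lit 70034) (.g (nat_lit 2785) (.e (nat_lit 1659) (nat_lit 115) (.e (nat_lit 393283) (nat_lit 24) (.e (nat_lit 434272) (nat_lit 38) (.e (nat_lit 655379) (nat_lit 5) (.e (nat_lit 180278) (nat_lit 32) .nil))))) (.g (nat_lit 0) .nil .nil))) 
(.lf (nat_lit 70098) (.g (nat_lit 2720) (.e (nat_lit 1659) (nat_lit 115) (.e (nat_lit 393300) (nat_lit 27) (.e (nat_lit 491548) (nat_lit 9) (.e (nat_lit 336421) (nat_lit 28) (.e (nat_lit 434180) (nat_lit 0) .nil))))) (.g (nat_lit 5) .nil .nil)))) (.nd (nat_lit 6) 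
(.lf (nat_lit 70066) (.g (nat_lit 1828) (.e (nat_lit 1659) (nat_lit 115) (.e (nat_lit 393295) (nat_lit 26) (.e (nat_lit 475198) (nat_lit 40) (.e (nat_lit 704595) (nat_lit 5) (.e (nat_lit 180278) (nat_lit 32) .nil))))) (.g (nat_lit 4) .nil .nil))) 
(.lf (nat_lit 70130) (.g (nat_lit 2542) (.e (nat_lit 1659) (nat_lit 115) (.e (nat_lit 393301) (nat_lit 27) (.e (nat_lit 491526) (nat_lit 0) (.e (nat_lit 1788) (nat_lit 119) (.e (nat_lit 516129) (nat_lit 3) (.e (nat_lit 221217) (nat_lit 24) (.e (nat_lit 212994) (nat_lit 0) .nil))))))) (.g (nat_lit 4) .nil .nil)))))) (.nd (nat_lit 4) (.nd (nat_lit 5) (.nd (nat_lit 6) 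
(.lf (nat_lit 70026) (.g (nat_lit 2518) (.e (nat_lit 1659) (nat_lit 115) (.e (nat_lit 393282) (nat_lit 24) (.e (nat_lit 434272) (nat_lit 38) (.e (nat_lit 655379) (nat_lit 5) (.e (nat_lit 180278) (nat_lit 32) .nil))))) (.g (nat_lit 0) .nil .nil))) 
(.lf (nat_lit 70090) (.g (nat_lit 2299) (.e (nat_lit 1659) (nat_lit 115) (.e (nat_lit 393298) (nat_lit 27) (.e (nat_lit 491571) (nat_lit 13) (.e (nat_lit 393238) (nat_lit 17) (.e (nat_lit 7936) (nat_lit 402) .nil))))) .nil))) (.nd (nat_lit 6) 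
(.lf (nat_lit 70058) (.g (nat_lit 824) (.e (nat_lit 1659) (nat_lit 115) (.e (nat_lit 393294) (nat_lit 26) (.e (nat_lit 475209) (nat_lit 41) .nil))) .nil)) 
(.lf (nat_lit 70122) (.g (nat_lit 2398) (.e (nat_lit 1659) (nat_lit 115) (.e (nat_lit 393301) (nat_lit 27) (.e (nat_lit 491520) (nat_lit 0) (.e (nat_lit 1802) (nat_lit 119) (.e (nat_lit 516131) (nat_lit 3) (.e (nat_lit 221219) (nat_lit 24) (.e (nat_lit 212992) (nat_lit 0) .nil))))))) (.g (nat_lit 4) .nil .nil))))) (.nd (nat_lit 5) (.nd (nat_lit 6) 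
(.lf (nat_lit 70042) (.g (nat_lit 2087) (.e (nat_lit 1659) (nat_lit 115) (.e (nat_lit 393290) (nat_lit 26) (.e (nat_lit 475211) (nat_lit 41) (.e (nat_lit 712749) (nat_lit 28) (.e (nat_lit 434180) (nat_lit 0) .nil))))) (.g (nat_lit 4) .nil .nil))) 
(.lf (nat_lit 70106) (.g (nat_lit 1344) (.e (nat_lit 1659) (nat_lit 115) (.e (nat_lit 393300) (nat_lit 27) (.e (nat_lit 491568) (nat_lit 13) (.e (nat_lit 393230) (nat_lit 17) .nil)))) .nil))) (.nd (nat_lit 6) 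
(.lf (nat_lit 70074) (.g (nat_lit 630) (.e (nat_lit 1659) (nat_lit 115) (.e (nat_lit 393297) (nat_lit 27) (.e (nat_lit 491548) (nat_lit 9) (.e (nat_lit 336421) (nat_lit 28) .nil)))) .nil)) 
(.lf (nat_lit 70138) (.g (nat_lit 3005) (.e (nat_lit 1659) (nat_lit 115) (.e (nat_lit 393301) (nat_lit 27) (.e (nat_lit 491526) (nat_lit 0) (.e (nat_lit 1788) (nat_lit 119) (.e (nat_lit 516131) (nat_lit 3) (.e (nat_lit 221219) (nat_lit 24) (.e (nat_lit 212992) (nat_lit 0) .nil))))))) (.g (nat_lit 5) .nil .nil))))))) (.nd (nat_lit 3) (.nd (nat_lit 4) (.nd (nat_lit 5) (.nd (nat_lit 6) 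
(.lf (nat_lit 70022) (.g (nat_lit 1835) (.e (nat_lit 1659) (nat_lit 115) (.e (nat_lit 393281) (nat_lit 23) (.e (nat_lit 426387) (nat_lit 15) (.e (nat_lit 2059) (nat_lit 142) (.e (nat_lit 704595) (nat_lit 5) (.e (nat_lit 180278) (nat_lit 32) .nil)))))) (.g (nat_lit 4) .nil .nil))) 
(.lf (nat_lit 70086) (.g (nat_lit 1361) (.e (nat_lit 1659) (nat_lit 115) (.e (nat_lit 393298) (nat_lit 27) (.e (nat_lit 491571) (nat_lit 13) (.e (nat_lit 393235) (nat_lit 17) .nil)))) .nil))) (.nd (nat_lit 6) 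
(.lf (nat_lit 70054) (.g (nat_lit 2626) (.e (nat_lit 1659) (nat_lit 115) (.e (nat_lit 393294) (nat_lit 26) (.e (nat_lit 475197) (nat_lit 40) (.e (nat_lit 704595) (nat_lit 5) (.e (nat_lit 180278) (nat_lit 32) .nil))))) (.g (nat_lit 5) .nil .nil))) 
(.lf (nat_lit 70118) (.g (nat_lit 1783) (.e (nat_lit 1659) (nat_lit 115) (.e (nat_lit 393300) (nat_lit 27) (.e (nat_lit 491570) (nat_lit 13) (.e (nat_lit 393242) (nat_lit 17) .nil)))) .nil)))) (.nd (nat_lit 5) (.nd (nat_lit 6) 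
(.lf (nat_lit 70038) (.g (nat_lit 2432) (.e (nat_lit 1659) (nat_lit 115) (.e (nat_lit 393290) (nat_lit 26) (.e (nat_lit 475199) (nat_lit 40) (.e (nat_lit 704595) (nat_lit 5) (.e (nat_lit 180278) (nat_lit 32) .nil))))) (.g (nat_lit 0) .nil .nil))) 
(.lf (nat_lit 70102) (.g (nat_lit 3870) (.e (nat_lit 1659) (nat_lit 115) (.e (nat_lit 393300) (nat_lit 27) (.e (nat_lit 491549) (nat_lit 9) (.e (nat_lit 336421) (nat_lit 28) (.e (nat_lit 434180) (nat_lit 0) .nil))))) (.g (nat_lit 0) .nil .nil)))) (.nd (nat_lit 6) 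
(.lf (nat_lit 70070) (.g (nat_lit 2785) (.e (nat_lit 1659) (nat_lit 115) (.e (nat_lit 393296) (nat_lit 26) (.e (nat_lit 475198) (nat_lit 40) (.e (nat_lit 704595) (nat_lit 5) (.e (nat_lit 180277) (nat_lit 32) .nil))))) (.g (nat_lit 0) .nil .nil))) 
(.lf (nat_lit 70134) (.g (nat_lit 3619) (.e (nat_lit 1659) (nat_lit 115) (.e (nat_lit 393301) (nat_lit 27) (.e (nat_lit 491526) (nat_lit 0) (.e (nat_lit 1788) (nat_lit 119) (.e (nat_lit 516130) (nat_lit 3) (.e (nat_lit 221219) (nat_lit 24) (.e (nat_lit 212992) (nat_lit 0) .nil))))))) (.g (nat_lit 7) .nil .nil)))))) (.nd (nat_lit 4) (.nd (nat_lit 5) (.nd (nat_lit 6) 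
(.lf (nat_lit 70030) (.g (nat_lit 2546) (.e (nat_lit 1659) (nat_lit 115) (.e (nat_lit 393283) (nat_lit 24) (.e (nat_lit 434271) (nat_lit 38) (.e (nat_lit 655379) (nat_lit 5) (.e (nat_lit 180277) (nat_lit 32) .nil))))) (.g (nat_lit 0) .nil .nil))) 
(.lf (nat_lit 70094) (.g (nat_lit 985) (.e (nat_lit 1659) (nat_lit 115) (.e (nat_lit 393299) (nat_lit 27) (.e (nat_lit 491548) (nat_lit 9) .nil))) .nil))) (.nd (nat_lit 6) 
(.lf (nat_lit 70062) (.g (nat_lit 1489) (.e (nat_lit 1659) (nat_lit 115) (.e (nat_lit 393294) (nat_lit 26) (.e (nat_lit 475211) (nat_lit 41) (.e (nat_lit 712747) (nat_lit 28) .nil)))) .nil)) 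
(.lf (nat_lit 70126) (.g (nat_lit 1014) (.e (nat_lit 1659) (nat_lit 115) (.e (nat_lit 393301) (nat_lit 27) (.e (nat_lit 491521) (nat_lit 0) .nil))) .nil)))) (.nd (nat_lit 5) (.nd (nat_lit 6) 
(.lf (nat_lit 70046) (.g (nat_lit 2461) (.e (nat_lit 1659) (nat_lit 115) (.e (nat_lit 393291) (nat_lit 26) (.e (nat_lit 475199) (nat_lit 40) (.e (nat_lit 704595) (nat_lit 5) (.e (nat_lit 180278) (nat_lit 32) .nil))))) (.g (nat_lit 5) .nil .nil))) 
(.lf (nat_lit 70110) (.g (nat_lit 583) (.e (nat_lit 1659) (nat_lit 115) (.e (nat_lit 393300) (nat_lit 27) (.e (nat_lit 491570) (nat_lit 13) .nil))) .nil))) (.nd (nat_lit 6) 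
(.lf (nat_lit 70078) (.g (nat_lit 1128) (.e (nat_lit 1659) (nat_lit 115) (.e (nat_lit 393298) (nat_lit 27) (.e (nat_lit 491548) (nat_lit 9) (.e (nat_lit 336421) (nat_lit 28) .nil)))) .nil)) 
(.lf (nat_lit 70142) (.g (nat_lit 980) (.e (nat_lit 1659) (nat_lit 115) (.e (nat_lit 393301) (nat_lit 27) (.e (nat_lit 491530) (nat_lit 0) .nil))) .nil)))))))) (.nd (nat_lit 1) (.nd (nat_lit 2) (.nd (nat_lit 3) (.nd (nat_lit 4) (.nd (nat_lit 5) (.nd (nat_lit 6) 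
(.lf (nat_lit 70017) (.g (nat_lit 2735) (.e (nat_lit 1659) (nat_lit 115) (.e (nat_lit 393279) (nat_lit 23) (.e (nat_lit 426419) (nat_lit 15) (.e (nat_lit 2059) (nat_lit 142) (.e (nat_lit 704595) (nat_lit 5) (.e (nat_lit 180278) (nat_lit 32) .nil)))))) (.g (nat_lit 6) .nil .nil))) 
(.lf (nat_lit 70081) (.g (nat_lit 496) (.e (nat_lit 1659) (nat_lit 115) (.e (nat_lit 393298) (nat_lit 27) (.e (nat_lit 491570) (nat_lit 13) .nil))) .nil))) (.nd (nat_lit 6) 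
(.lf (nat_lit 70049) (.g (nat_lit 1812) (.e (nat_lit 1659) (nat_lit 115) (.e (nat_lit 393293) (nat_lit 26) (.e (nat_lit 475197) (nat_lit 40) (.e (nat_lit 704595) (nat_lit 5) (.e (nat_lit 180278) (nat_lit 32) .nil))))) (.g (nat_lit 4) .nil .nil))) 
(.lf (nat_lit 70113) (.g (nat_lit 2916) (.e (nat_lit 1659) (nat_lit 115) (.e (nat_lit 393300) (nat_lit 27) (.e (nat_lit 491570) (nat_lit 13) (.e (nat_lit 393238) (nat_lit 17) (.e (nat_lit 7521) (nat_lit 402) .nil))))) .nil)))) (.nd (nat_lit 5) (.nd (nat_lit 6) 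
(.lf (nat_lit 70033) (.g (nat_lit 2709) (.e (nat_lit 1659) (nat_lit 115) (.e (nat_lit 393283) (nat_lit 24) (.e (nat_lit 434272) (nat_lit 38) (.e (nat_lit 655379) (nat_lit 5) (.e (nat_lit 180277) (nat_lit 32) .nil))))) (.g (nat_lit 0) .nil .nil))) 
(.lf (nat_lit 70097) (.g (nat_lit 761) (.e (nat_lit 1659) (nat_lit 115) (.e (nat_lit 393300) (nat_lit 27) (.e (nat_lit 491548) (nat_lit 9) .nil))) .nil))) (.nd (nat_lit 6) 
(.lf (nat_lit 70065) (.g (nat_lit 1839) (.e (nat_lit 1659) (nat_lit 115) (.e (nat_lit 393295) (nat_lit 26) (.e (nat_lit 475198) (nat_lit 40) (.e (nat_lit 704595) (nat_lit 5) (.e (nat_lit 180277) (nat_lit 32) .nil))))) (.g (nat_lit 4) .nil .nil))) 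
(.lf (nat_lit 70129) (.g (nat_lit 1193) (.e (nat_lit 1659) (nat_lit 115) (.e (nat_lit 393301) (nat_lit 27) (.e (nat_lit 491526) (nat_lit 0) (.e (nat_lit 1788) (nat_lit 119) .nil)))) .nil))))) (.nd (nat_lit 4) (.nd (nat_lit 5) (.nd (nat_lit 6) 
(.lf (nat_lit 70025) (.g (nat_lit 2458) (.e (nat_lit 1659) (nat_lit 115) (.e (nat_lit 393281) (nat_lit 23) (.e (nat_lit 426413) (nat_lit 15) (.e (nat_lit 2059) (nat_lit 142) (.e (nat_lit 704595) (nat_lit 5) (.e (nat_lit 180278) (nat_lit 32) .nil)))))) (.g (nat_lit 5) .nil .nil))) 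
(.lf (nat_lit 70089) (.g (nat_lit 2939) (.e (nat_lit 1659) (nat_lit 115) (.e (nat_lit 393298) (nat_lit 27) (.e (nat_lit 491571) (nat_lit 13) (.e (nat_lit 393238) (nat_lit 17) (.e (nat_lit 7555) (nat_lit 402) .nil))))) (.g (nat_lit 4) .nil .nil)))) (.nd (nat_lit 6) 
(.lf (nat_lit 70057) (.g (nat_lit 2673) (.e (nat_lit 1659) (nat_lit 115) (.e (nat_lit 393294) (nat_lit 26) (.e (nat_lit 475198) (nat_lit 40) (.e (nat_lit 704596) (nat_lit 5) (.e (nat_lit 180277) (nat_lit 32) .nil))))) (.g (nat_lit 4) .nil .nil))) 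
(.lf (nat_lit 70121) (.g (nat_lit 838) (.e (nat_lit 1659) (nat_lit 115) (.e (nat_lit 393301) (nat_lit 27) (.e (nat_lit 491520) (nat_lit 0) .nil))) .nil)))) (.nd (nat_lit 5) (.nd (nat_lit 6) 
(.lf (nat_lit 70041) (.g (nat_lit 1405) (.e (nat_lit 1659) (nat_lit 115) (.e (nat_lit 393290) (nat_lit 26) (.e (nat_lit 475210) (nat_lit 41) (.e (nat_lit 712749) (nat_lit 28) (.e (nat_lit 442112) (nat_lit 0) .nil))))) .nil)) 
(.lf (nat_lit 70105) (.g (nat_lit 482) (.e (nat_lit 1659) (nat_lit 115) (.e (nat_lit 393300) (nat_lit 27) (.e (nat_lit 491568) (nat_lit 13) .nil))) .nil))) (.nd (nat_lit 6) 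
(.lf (nat_lit 70073) (.g (nat_lit 2540) (.e (nat_lit 1659) (nat_lit 115) (.e (nat_lit 393296) (nat_lit 26) (.e (nat_lit 475207) (nat_lit 41) (.e (nat_lit 712749) (nat_lit 28) (.e (nat_lit 434180) (nat_lit 0) .nil))))) (.g (nat_lit 0) .nil .nil))) 
(.lf (nat_lit 70137) (.g (nat_lit 1866) (.e (nat_lit 1659) (nat_lit 115) (.e (nat_lit 393301) (nat_lit 27) (.e (nat_lit 491526) (nat_lit 0) (.e (nat_lit 1788) (nat_lit 119) (.e (nat_lit 516131) (nat_lit 3) .nil))))) .nil)))))) (.nd (nat_lit 3) (.nd (nat_lit 4) (.nd (nat_lit 5) (.nd (nat_lit 6) 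
(.lf (nat_lit 70021) (.g (nat_lit 1792) (.e (nat_lit 1659) (nat_lit 115) (.e (nat_lit 393281) (nat_lit 23) (.e (nat_lit 426387) (nat_lit 15) (.e (nat_lit 2059) (nat_lit 142) (.e (nat_lit 704595) (nat_lit 5) (.e (nat_lit 180277) (nat_lit 32) .nil)))))) (.g (nat_lit 4) .nil .nil))) 
(.lf (nat_lit 70085) (.g (nat_lit 2462) (.e (nat_lit 1659) (nat_lit 115) (.e (nat_lit 393298) (nat_lit 27) (.e (nat_lit 491570) (nat_lit 13) (.e (nat_lit 393238) (nat_lit 17) (.e (nat_lit 7936) (nat_lit 402) .nil))))) (.g (nat_lit 4) .nil .nil)))) (.nd (nat_lit 6) 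
(.lf (nat_lit 70053) (.g (nat_lit 2422) (.e (nat_lit 1659) (nat_lit 115) (.e (nat_lit 393294) (nat_lit 26) (.e (nat_lit 475197) (nat_lit 40) (.e (nat_lit 704595) (nat_lit 5) (.e (nat_lit 180277) (nat_lit 32) .nil))))) (.g (nat_lit 4) .nil .nil))) 
(.lf (nat_lit 70117) (.g (nat_lit 2129) (.e (nat_lit 1659) (nat_lit 115) (.e (nat_lit 393300) (nat_lit 27) (.e (nat_lit 491570) (nat_lit 13) (.e (nat_lit 393239) (nat_lit 17) .nil)))) .nil)))) (.nd (nat_lit 5) (.nd (nat_lit 6) 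
(.lf (nat_lit 70037) (.g (nat_lit 2375) (.e (nat_lit 1659) (nat_lit 115) (.e (nat_lit 393290) (nat_lit 26) (.e (nat_lit 475199) (nat_lit 40) (.e (nat_lit 704595) (nat_lit 5) (.e (nat_lit 180277) (nat_lit 32) .nil))))) (.g (nat_lit 0) .nil .nil))) 
(.lf (nat_lit 70101) (.g (nat_lit 2641) (.e (nat_lit 1659) (nat_lit 115) (.e (nat_lit 393300) (nat_lit 27) (.e (nat_lit 491549) (nat_lit 9) (.e (nat_lit 336369) (nat_lit 27) (.e (nat_lit 426025) (nat_lit 0) (.e (nat_lit 7537) (nat_lit 402) .nil)))))) (.g (nat_lit 4) .nil .nil)))) (.nd (nat_lit 6) 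
(.lf (nat_lit 70069) (.g (nat_lit 1661) (.e (nat_lit 1659) (nat_lit 115) (.e (nat_lit 393296) (nat_lit 26) (.e (nat_lit 475197) (nat_lit 40) (.e (nat_lit 704596) (nat_lit 5) (.e (nat_lit 180277) (nat_lit 32) .nil))))) (.g (nat_lit 4) .nil .nil))) 
(.lf (nat_lit 70133) (.g (nat_lit 2408) (.e (nat_lit 1659) (nat_lit 115) (.e (nat_lit 393301) (nat_lit 27) (.e (nat_lit 491526) (nat_lit 0) (.e (nat_lit 1788) (nat_lit 119) (.e (nat_lit 516130) (nat_lit 3) (.e (nat_lit 221218) (nat_lit 24) (.e (nat_lit 220928) (nat_lit 0) .nil))))))) (.g (nat_lit 4) .nil .nil)))))) (.nd (nat_lit 4) (.nd (nat_lit 5) (.nd (nat_lit 6) 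
(.lf (nat_lit 70029) (.g (nat_lit 653) (.e (nat_lit 1659) (nat_lit 115) (.e (nat_lit 393283) (nat_lit 24) (.e (nat_lit 434270) (nat_lit 38) (.e (nat_lit 655379) (nat_lit 5) .nil)))) .nil)) 
(.lf (nat_lit 70093) (.g (nat_lit 1038) (.e (nat_lit 1659) (nat_lit 115) (.e (nat_lit 393299) (nat_lit 27) (.e (nat_lit 491547) (nat_lit 9) .nil))) .nil))) (.nd (nat_lit 6) 
(.lf (nat_lit 70061) (.g (nat_lit 1737) (.e (nat_lit 1659) (nat_lit 115) (.e (nat_lit 393294) (nat_lit 26) (.e (nat_lit 475210) (nat_lit 41) (.e (nat_lit 712749) (nat_lit 28) .nil)))) .nil)) 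
(.lf (nat_lit 70125) (.g (nat_lit 1327) (.e (nat_lit 1659) (nat_lit 115) (.e (nat_lit 393301) (nat_lit 27) (.e (nat_lit 491520) (nat_lit 0) (.e (nat_lit 1859) (nat_lit 124) (.e (nat_lit 557105) (nat_lit 14) .nil))))) .nil)))) (.nd (nat_lit 5) (.nd (nat_lit 6) 
(.lf (nat_lit 70045) (.g (nat_lit 2405) (.e (nat_lit 1659) (nat_lit 115) (.e (nat_lit 393291) (nat_lit 26) (.e (nat_lit 475199) (nat_lit 40) (.e (nat_lit 704595) (nat_lit 5) (.e (nat_lit 180277) (nat_lit 32) .nil))))) (.g (nat_lit 4) .nil .nil))) 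
(.lf (nat_lit 70109) (.g (nat_lit 609) (.e (nat_lit 1659) (nat_lit 115) (.e (nat_lit 393300) (nat_lit 27) (.e (nat_lit 491569) (nat_lit 13) .nil))) .nil))) (.nd (nat_lit 6) 
(.lf (nat_lit 70077) (.g (nat_lit 1380) (.e (nat_lit 1659) (nat_lit 115) (.e (nat_lit 393297) (nat_lit 27) (.e (nat_lit 491571) (nat_lit 13) (.e (nat_lit 393242) (nat_lit 17) .nil)))) .nil)) 
(.lf (nat_lit 70141) (.g (nat_lit 1011) (.e (nat_lit 1659) (nat_lit 115) (.e (nat_lit 393301) (nat_lit 27) (.e (nat_lit 491527) (nat_lit 0) .nil))) .nil))))))) (.nd (nat_lit 2) (.nd (nat_lit 3) (.nd (nat_lit 4) (.nd (nat_lit 5) (.nd (nat_lit 6) 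
(.lf (nat_lit 70019) (.g (nat_lit 2096) (.e (nat_lit 1659) (nat_lit 115) (.e (nat_lit 393281) (nat_lit 23) (.e (nat_lit 426107) (nat_lit 1) (.e (nat_lit 164347) (nat_lit 240) (.e (nat_lit 2639) (nat_lit 165) .nil))))) .nil)) 
(.lf (nat_lit 70083) (.g (nat_lit 2846) (.e (nat_lit 1659) (nat_lit 115) (.e (nat_lit 393298) (nat_lit 27) (.e (nat_lit 491570) (nat_lit 13) (.e (nat_lit 393238) (nat_lit 17) (.e (nat_lit 7537) (nat_lit 402) .nil))))) (.g (nat_lit 5) .nil .nil)))) (.nd (nat_lit 6) 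
(.lf (nat_lit 70051) (.g (nat_lit 2449) (.e (nat_lit 1659) (nat_lit 115) (.e (nat_lit 393293) (nat_lit 26) (.e (nat_lit 475198) (nat_lit 40) (.e (nat_lit 704595) (nat_lit 5) (.e (nat_lit 180277) (nat_lit 32) .nil))))) (.g (nat_lit 5) .nil .nil))) 
(.lf (nat_lit 70115) (.g (nat_lit 3175) (.e (nat_lit 1659) (nat_lit 115) (.e (nat_lit 393300) (nat_lit 27) (.e (nat_lit 491570) (nat_lit 13) (.e (nat_lit 393238) (nat_lit 17) (.e (nat_lit 7555) (nat_lit 402) .nil))))) (.g (nat_lit 4) .nil .nil))))) (.nd (nat_lit 5) (.nd (nat_lit 6) 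
(.lf (nat_lit 70035) (.g (nat_lit 1974) (.e (nat_lit 1659) (nat_lit 115) (.e (nat_lit 393290) (nat_lit 26) (.e (nat_lit 475197) (nat_lit 40) (.e (nat_lit 704595) (nat_lit 5) (.e (nat_lit 180278) (nat_lit 32) .nil))))) (.g (nat_lit 5) .nil .nil))) 
(.lf (nat_lit 70099) (.g (nat_lit 2539) (.e (nat_lit 1659) (nat_lit 115) (.e (nat_lit 393300) (nat_lit 27) (.e (nat_lit 491548) (nat_lit 9) (.e (nat_lit 336421) (nat_lit 28) (.e (nat_lit 434181) (nat_lit 0) .nil))))) (.g (nat_lit 5) .nil .nil)))) (.nd (nat_lit 6) 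
(.lf (nat_lit 70067) (.g (nat_lit 2372) (.e (nat_lit 1659) (nat_lit 115) (.e (nat_lit 393295) (nat_lit 26) (.e (nat_lit 475199) (nat_lit 40) (.e (nat_lit 704595) (nat_lit 5) (.e (nat_lit 180277) (nat_lit 32) .nil))))) (.g (nat_lit 0) .nil .nil))) 
(.lf (nat_lit 70131) (.g (nat_lit 2321) (.e (nat_lit 1659) (nat_lit 115) (.e (nat_lit 393301) (nat_lit 27) (.e (nat_lit 491526) (nat_lit 0) (.e (nat_lit 1788) (nat_lit 119) (.e (nat_lit 516130) (nat_lit 3) (.e (nat_lit 221218) (nat_lit 24) (.e (nat_lit 212993) (nat_lit 0) .nil))))))) (.g (nat_lit 4) .nil .nil)))))) (.nd (nat_lit 4) (.nd (nat_lit 5) (.nd (nat_lit 6) 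
(.lf (nat_lit 70027) (.g (nat_lit 277) (.e (nat_lit 1659) (nat_lit 115) (.e (nat_lit 393283) (nat_lit 24) (.e (nat_lit 434209) (nat_lit 18) .nil))) .nil)) 
(.lf (nat_lit 70091) (.g (nat_lit 2554) (.e (nat_lit 1659) (nat_lit 115) (.e (nat_lit 393298) (nat_lit 27) (.e (nat_lit 491571) (nat_lit 13) (.e (nat_lit 393242) (nat_lit 17) (.e (nat_lit 7554) (nat_lit 402) .nil))))) (.g (nat_lit 0) .nil .nil)))) (.nd (nat_lit 6) 
(.lf (nat_lit 70059) (.g (nat_lit 1563) (.e (nat_lit 1659) (nat_lit 115) (.e (nat_lit 393294) (nat_lit 26) (.e (nat_lit 475209) (nat_lit 41) (.e (nat_lit 712749) (nat_lit 28) .nil)))) .nil)) 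
(.lf (nat_lit 70123) (.g (nat_lit 3626) (.e (nat_lit 1659) (nat_lit 115) (.e (nat_lit 393301) (nat_lit 27) (.e (nat_lit 491520) (nat_lit 0) (.e (nat_lit 1858) (nat_lit 124) (.e (nat_lit 557105) (nat_lit 14) (.e (nat_lit 180265) (nat_lit 21) (.e (nat_lit 663561) (nat_lit 0) .nil))))))) (.g (nat_lit 5) .nil .nil))))) (.nd (nat_lit 5) (.nd (nat_lit 6) 
(.lf (nat_lit 70043) (.g (nat_lit 943) (.e (nat_lit 1659) (nat_lit 115) (.e (nat_lit 393291) (nat_lit 26) (.e (nat_lit 475197) (nat_lit 40) .nil))) .nil)) 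
(.lf (nat_lit 70107) (.g (nat_lit 1335) (.e (nat_lit 1659) (nat_lit 115) (.e (nat_lit 393300) (nat_lit 27) (.e (nat_lit 491568) (nat_lit 13) (.e (nat_lit 393238) (nat_lit 17) .nil)))) .nil))) (.nd (nat_lit 6) 
(.lf (nat_lit 70075) (.g (nat_lit 917) (.e (nat_lit 1659) (nat_lit 115) (.e (nat_lit 393297) (nat_lit 27) (.e (nat_lit 491570) (nat_lit 13) (.e (nat_lit 393238) (nat_lit 17) .nil)))) .nil)) 
(.lf (nat_lit 70139) (.g (nat_lit 2473) (.e (nat_lit 1659) (nat_lit 115) (.e (nat_lit 393301) (nat_lit 27) (.e (nat_lit 491526) (nat_lit 0) (.e (nat_lit 1788) (nat_lit 119) (.e (nat_lit 516131) (nat_lit 3) (.e (nat_lit 221219) (nat_lit 24) (.e (nat_lit 212993) (nat_lit 0) .nil))))))) (.g (nat_lit 4) .nil .nil))))))) (.nd (nat_lit 3) (.nd (nat_lit 4) (.nd (nat_lit 5) (.nd (nat_lit 6) 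
(.lf (nat_lit 70023) (.g (nat_lit 1776) (.e (nat_lit 1659) (nat_lit 115) (.e (nat_lit 393281) (nat_lit 23) (.e (nat_lit 426413) (nat_lit 15) (.e (nat_lit 2058) (nat_lit 142) (.e (nat_lit 704595) (nat_lit 5) (.e (nat_lit 180278) (nat_lit 32) .nil)))))) (.g (nat_lit 4) .nil .nil))) 
(.lf (nat_lit 70087) (.g (nat_lit 2263) (.e (nat_lit 1659) (nat_lit 115) (.e (nat_lit 393298) (nat_lit 27) (.e (nat_lit 491571) (nat_lit 13) (.e (nat_lit 393235) (nat_lit 17) (.e (nat_lit 7936) (nat_lit 402) .nil))))) (.g (nat_lit 4) .nil .nil)))) (.nd (nat_lit 6) 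
(.lf (nat_lit 70055) (.g (nat_lit 3164) (.e (nat_lit 1659) (nat_lit 115) (.e (nat_lit 393294) (nat_lit 26) (.e (nat_lit 475198) (nat_lit 40) (.e (nat_lit 704595) (nat_lit 5) (.e (nat_lit 180277) (nat_lit 32) .nil))))) (.g (nat_lit 5) .nil .nil))) 
(.lf (nat_lit 70119) (.g (nat_lit 2107) (.e (nat_lit 1659) (nat_lit 115) (.e (nat_lit 393300) (nat_lit 27) (.e (nat_lit 491570) (nat_lit 13) (.e (nat_lit 393245) (nat_lit 17) .nil)))) .nil)))) (.nd (nat_lit 5) (.nd (nat_lit 6) 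
(.lf (nat_lit 70039) (.g (nat_lit 1757) (.e (nat_lit 1659) (nat_lit 115) (.e (nat_lit 393290) (nat_lit 26) (.e (nat_lit 475210) (nat_lit 41) (.e (nat_lit 712747) (nat_lit 28) (.e (nat_lit 442112) (nat_lit 0) .nil))))) (.g (nat_lit 4) .nil .nil))) 
(.lf (nat_lit 70103) (.g (nat_lit 2081) (.e (nat_lit 1659) (nat_lit 115) (.e (nat_lit 393300) (nat_lit 27) (.e (nat_lit 491549) (nat_lit 9) (.e (nat_lit 336423) (nat_lit 28) .nil)))) .nil))) (.nd (nat_lit 6) 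
(.lf (nat_lit 70071) (.g (nat_lit 2736) (.e (nat_lit 1659) (nat_lit 115) (.e (nat_lit 393296) (nat_lit 26) (.e (nat_lit 475198) (nat_lit 40) (.e (nat_lit 704596) (nat_lit 5) (.e (nat_lit 180277) (nat_lit 32) .nil))))) (.g (nat_lit 0) .nil .nil))) 
(.lf (nat_lit 70135) (.g (nat_lit 3062) (.e (nat_lit 1659) (nat_lit 115) (.e (nat_lit 393301) (nat_lit 27) (.e (nat_lit 491526) (nat_lit 0) (.e (nat_lit 1788) (nat_lit 119) (.e (nat_lit 516130) (nat_lit 3) (.e (nat_lit 221219) (nat_lit 24) (.e (nat_lit 212993) (nat_lit 0) .nil))))))) (.g (nat_lit 5) .nil .nil)))))) (.nd (nat_lit 4) (.nd (nat_lit 5) (.nd (nat_lit 6) 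
(.lf (nat_lit 70031) (.g (nat_lit 2045) (.e (nat_lit 1659) (nat_lit 115) (.e (nat_lit 393283) (nat_lit 24) (.e (nat_lit 434272) (nat_lit 38) (.e (nat_lit 655376) (nat_lit 4) (.e (nat_lit 172037) (nat_lit 0) (.e (nat_lit 7557) (nat_lit 402) .nil)))))) (.g (nat_lit 4) .nil .nil))) 
(.lf (nat_lit 70095) (.g (nat_lit 1513) (.e (nat_lit 1659) (nat_lit 115) (.e (nat_lit 393299) (nat_lit 27) (.e (nat_lit 491549) (nat_lit 9) (.e (nat_lit 336421) (nat_lit 28) .nil)))) .nil))) (.nd (nat_lit 6) 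
(.lf (nat_lit 70063) (.g (nat_lit 1482) (.e (nat_lit 1659) (nat_lit 115) (.e (nat_lit 393294) (nat_lit 26) (.e (nat_lit 475211) (nat_lit 41) (.e (nat_lit 712749) (nat_lit 28) .nil)))) .nil)) 
(.lf (nat_lit 70127) (.g (nat_lit 975) (.e (nat_lit 1659) (nat_lit 115) (.e (nat_lit 393301) (nat_lit 27) (.e (nat_lit 491525) (nat_lit 0) .nil))) .nil)))) (.nd (nat_lit 5) (.nd (nat_lit 6) 
(.lf (nat_lit 70047) (.g (nat_lit 1695) (.e (nat_lit 1659) (nat_lit 115) (.e (nat_lit 393291) (nat_lit 26) (.e (nat_lit 475210) (nat_lit 41) (.e (nat_lit 712749) (nat_lit 28) .nil)))) .nil)) 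
(.lf (nat_lit 70111) (.g (nat_lit 2085) (.e (nat_lit 1659) (nat_lit 115) (.e (nat_lit 393300) (nat_lit 27) (.e (nat_lit 491570) (nat_lit 13) (.e (nat_lit 393230) (nat_lit 17) .nil)))) .nil))) (.nd (nat_lit 6) 
(.lf (nat_lit 70079) (.g (nat_lit 2528) (.e (nat_lit 1659) (nat_lit 115) (.e (nat_lit 393298) (nat_lit 27) (.e (nat_lit 491549) (nat_lit 9) (.e (nat_lit 336421) (nat_lit 28) (.e (nat_lit 434180) (nat_lit 0) .nil))))) (.g (nat_lit 4) .nil .nil))) 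
(.lf (nat_lit 70143) (.g (nat_lit 2302) (.e (nat_lit 1659) (nat_lit 115) (.e (nat_lit 393301) (nat_lit 27) (.e (nat_lit 491530) (nat_lit 0) (.e (nat_lit 1796) (nat_lit 119) (.e (nat_lit 516131) (nat_lit 3) (.e (nat_lit 221218) (nat_lit 24) (.e (nat_lit 212994) (nat_lit 0) .nil))))))) (.g (nat_lit 4) .nil .nil))))))))))

noncomputable def tv958 : DT := (.nd (nat_lit 0) (.nd (nat_lit 1) (.nd (nat_lit 2) (.nd (nat_lit 3) (.nd (nat_lit 4) (.nd (nat_lit 5) 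
(.lf (nat_lit 70144) (.g (nat_lit 3526) (.e (nat_lit 1659) (nat_lit 115) (.e (nat_lit 393301) (nat_lit 27) (.e (nat_lit 491530) (nat_lit 0) (.e (nat_lit 1796) (nat_lit 119) (.e (nat_lit 516131) (nat_lit 3) (.e (nat_lit 221219) (nat_lit 24) (.e (nat_lit 212992) (nat_lit 0) .nil))))))) (.g (nat_lit 7) .nil .nil))) 
(.lf (nat_lit 70176) (.g (nat_lit 1464) (.e (nat_lit 1659) (nat_lit 115) (.e (nat_lit 393301) (nat_lit 27) (.e (nat_lit 491558) (nat_lit 10) (.e (nat_lit 344087) (nat_lit 18) .nil)))) .nil))) (.nd (nat_lit 5) 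
(.lf (nat_lit 70160) (.g (nat_lit 2507) (.e (nat_lit 1659) (nat_lit 115) (.e (nat_lit 393301) (nat_lit 27) (.e (nat_lit 491539) (nat_lit 3) (.e (nat_lit 98342) (nat_lit 20) (.e (nat_lit 221219) (nat_lit 24) (.e (nat_lit 212993) (nat_lit 0) .nil)))))) (.g (nat_lit 4) .nil .nil))) 
(.lf (nat_lit 70192) (.g (nat_lit 2771) (.e (nat_lit 1659) (nat_lit 115) (.e (nat_lit 393301) (nat_lit 27) (.e (nat_lit 491558) (nat_lit 10) (.e (nat_lit 344090) (nat_lit 18) (.e (nat_lit 7247) (nat_lit 383) (.e (nat_lit 8194) (nat_lit 0) (.e (nat_lit 5321) (nat_lit 298) .nil))))))) (.g (nat_lit 5) .nil .nil))))) (.nd (nat_lit 4) (.nd (nat_lit 5) 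
(.lf (nat_lit 70152) (.g (nat_lit 1493) (.e (nat_lit 1659) (nat_lit 115) (.e (nat_lit 393301) (nat_lit 27) (.e (nat_lit 491538) (nat_lit 3) (.e (nat_lit 98342) (nat_lit 20) (.e (nat_lit 221198) (nat_lit 20) .nil))))) .nil)) 
(.lf (nat_lit 70184) (.g (nat_lit 3163) (.e (nat_lit 1659) (nat_lit 115) (.e (nat_lit 393301) (nat_lit 27) (.e (nat_lit 491558) (nat_lit 10) (.e (nat_lit 344090) (nat_lit 18) (.e (nat_lit 7124) (nat_lit 382) (.e (nat_lit 1183) (nat_lit 87) (.e (nat_lit 57740) (nat_lit 187) .nil))))))) (.g (nat_lit 5) .nil .nil)))) (.nd (nat_lit 5) 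
(.lf (nat_lit 70168) (.g (nat_lit 1799) (.e (nat_lit 1659) (nat_lit 115) (.e (nat_lit 393301) (nat_lit 27) (.e (nat_lit 491547) (nat_lit 9) (.e (nat_lit 336425) (nat_lit 28) .nil)))) .nil)) 
(.lf (nat_lit 70200) (.g (nat_lit 4255) (.e (nat_lit 1659) (nat_lit 115) (.e (nat_lit 393301) (nat_lit 27) (.e (nat_lit 491558) (nat_lit 10) (.e (nat_lit 344090) (nat_lit 18) (.e (nat_lit 7265) (nat_lit 384) (.e (nat_lit 57347) (nat_lit 0) (.e (nat_lit 6450) (nat_lit 343) .nil))))))) (.g (nat_lit 6) .nil .nil)))))) (.nd (nat_lit 3) (.nd (nat_lit 4) (.nd (nat_lit 5) 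
(.lf (nat_lit 70148) (.g (nat_lit 503) (.e (nat_lit 1659) (nat_lit 115) (.e (nat_lit 393301) (nat_lit 27) (.e (nat_lit 491538) (nat_lit 3) .nil))) .nil)) 
(.lf (nat_lit 70180) (.g (nat_lit 1051) (.e (nat_lit 1659) (nat_lit 115) (.e (nat_lit 393301) (nat_lit 27) (.e (nat_lit 491558) (nat_lit 10) (.e (nat_lit 344090) (nat_lit 18) .nil)))) .nil))) (.nd (nat_lit 5) 
(.lf (nat_lit 70164) (.g (nat_lit 2791) (.e (nat_lit 1659) (nat_lit 115) (.e (nat_lit 393301) (nat_lit 27) (.e (nat_lit 491546) (nat_lit 9) (.e (nat_lit 336422) (nat_lit 28) (.e (nat_lit 434180) (nat_lit 0) .nil))))) (.g (nat_lit 0) .nil .nil))) 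
(.lf (nat_lit 70196) (.g (nat_lit 2393) (.e (nat_lit 1659) (nat_lit 115) (.e (nat_lit 393301) (nat_lit 27) (.e (nat_lit 491558) (nat_lit 10) (.e (nat_lit 344090) (nat_lit 18) (.e (nat_lit 7247) (nat_lit 383) (.e (nat_lit 8196) (nat_lit 0) (.e (nat_lit 5323) (nat_lit 298) .nil))))))) (.g (nat_lit 4) .nil .nil))))) (.nd (nat_lit 4) (.nd (nat_lit 5) 
(.lf (nat_lit 70156) (.g (nat_lit 2294) (.e (nat_lit 1659) (nat_lit 115) (.e (nat_lit 393301) (nat_lit 27) (.e (nat_lit 491538) (nat_lit 3) (.e (nat_lit 98342) (nat_lit 20) (.e (nat_lit 221219) (nat_lit 24) (.e (nat_lit 220928) (nat_lit 0) .nil)))))) (.g (nat_lit 4) .nil .nil))) 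
(.lf (nat_lit 70188) (.g (nat_lit 3589) (.e (nat_lit 1659) (nat_lit 115) (.e (nat_lit 393301) (nat_lit 27) (.e (nat_lit 491558) (nat_lit 10) (.e (nat_lit 344090) (nat_lit 18) (.e (nat_lit 7125) (nat_lit 382) (.e (nat_lit 1183) (nat_lit 87) (.e (nat_lit 57741) (nat_lit 187) .nil))))))) (.g (nat_lit 6) .nil .nil)))) (.nd (nat_lit 5) 
(.lf (nat_lit 70172) (.g (nat_lit 698) (.e (nat_lit 1659) (nat_lit 115) (.e (nat_lit 393301) (nat_lit 27) (.e (nat_lit 491553) (nat_lit 9) .nil))) .nil)) 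
(.lf (nat_lit 70204) (.g (nat_lit 2559) (.e (nat_lit 1659) (nat_lit 115) (.e (nat_lit 393301) (nat_lit 27) (.e (nat_lit 491558) (nat_lit 10) (.e (nat_lit 344090) (nat_lit 18) (.e (nat_lit 7265) (nat_lit 384) (.e (nat_lit 57354) (nat_lit 0) (.e (nat_lit 6489) (nat_lit 343) .nil))))))) (.g (nat_lit 4) .nil .nil))))))) (.nd (nat_lit 2) (.nd (nat_lit 3) (.nd (nat_lit 4) (.nd (nat_lit 5) 
(.lf (nat_lit 70146) (.g (nat_lit 2661) (.e (nat_lit 1659) (nat_lit 115) (.e (nat_lit 393301) (nat_lit 27) (.e (nat_lit 491530) (nat_lit 0) (.e (nat_lit 1796) (nat_lit 119) (.e (nat_lit 516131) (nat_lit 3) (.e (nat_lit 221219) (nat_lit 24) (.e (nat_lit 220928) (nat_lit 0) .nil))))))) (.g (nat_lit 5) .nil .nil))) 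
(.lf (nat_lit 70178) (.g (nat_lit 2179) (.e (nat_lit 1659) (nat_lit 115) (.e (nat_lit 393301) (nat_lit 27) (.e (nat_lit 491558) (nat_lit 10) (.e (nat_lit 344088) (nat_lit 18) (.e (nat_lit 6940) (nat_lit 375) (.e (nat_lit 163850) (nat_lit 0) (.e (nat_lit 7556) (nat_lit 402) .nil))))))) (.g (nat_lit 5) .nil .nil)))) (.nd (nat_lit 5) 
(.lf (nat_lit 70162) (.g (nat_lit 2883) (.e (nat_lit 1659) (nat_lit 115) (.e (nat_lit 393301) (nat_lit 27) (.e (nat_lit 491546) (nat_lit 9) (.e (nat_lit 336421) (nat_lit 28) (.e (nat_lit 434180) (nat_lit 0) .nil))))) (.g (nat_lit 5) .nil .nil))) 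
(.lf (nat_lit 70194) (.g (nat_lit 2510) (.e (nat_lit 1659) (nat_lit 115) (.e (nat_lit 393301) (nat_lit 27) (.e (nat_lit 491558) (nat_lit 10) (.e (nat_lit 344090) (nat_lit 18) (.e (nat_lit 7247) (nat_lit 383) (.e (nat_lit 8194) (nat_lit 0) (.e (nat_lit 5323) (nat_lit 298) .nil))))))) (.g (nat_lit 4) .nil .nil))))) (.nd (nat_lit 4) (.nd (nat_lit 5) 
(.lf (nat_lit 70154) (.g (nat_lit 3054) (.e (nat_lit 1659) (nat_lit 115) (.e (nat_lit 393301) (nat_lit 27) (.e (nat_lit 491538) (nat_lit 3) (.e (nat_lit 98342) (nat_lit 20) (.e (nat_lit 221219) (nat_lit 24) (.e (nat_lit 212992) (nat_lit 0) .nil)))))) (.g (nat_lit 0) .nil .nil))) 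
(.lf (nat_lit 70186) (.g (nat_lit 2646) (.e (nat_lit 1659) (nat_lit 115) (.e (nat_lit 393301) (nat_lit 27) (.e (nat_lit 491558) (nat_lit 10) (.e (nat_lit 344090) (nat_lit 18) (.e (nat_lit 7124) (nat_lit 382) (.e (nat_lit 1183) (nat_lit 87) (.e (nat_lit 65280) (nat_lit 187) .nil))))))) (.g (nat_lit 5) .nil .nil)))) (.nd (nat_lit 5) 
(.lf (nat_lit 70170) (.g (nat_lit 591) (.e (nat_lit 1659) (nat_lit 115) (.e (nat_lit 393301) (nat_lit 27) (.e (nat_lit 491552) (nat_lit 9) .nil))) .nil)) 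
(.lf (nat_lit 70202) (.g (nat_lit 3569) (.e (nat_lit 1659) (nat_lit 115) (.e (nat_lit 393301) (nat_lit 27) (.e (nat_lit 491558) (nat_lit 10) (.e (nat_lit 344090) (nat_lit 18) (.e (nat_lit 7265) (nat_lit 384) (.e (nat_lit 57347) (nat_lit 0) (.e (nat_lit 6499) (nat_lit 343) .nil))))))) (.g (nat_lit 6) .nil .nil)))))) (.nd (nat_lit 3) (.nd (nat_lit 4) (.nd (nat_lit 5) 
(.lf (nat_lit 70150) (.g (nat_lit 2020) (.e (nat_lit 1659) (nat_lit 115) (.e (nat_lit 393301) (nat_lit 27) (.e (nat_lit 491538) (nat_lit 3) (.e (nat_lit 98341) (nat_lit 20) (.e (nat_lit 221219) (nat_lit 24) (.e (nat_lit 212992) (nat_lit 0) .nil)))))) (.g (nat_lit 4) .nil .nil))) 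
(.lf (nat_lit 70182) (.g (nat_lit 3259) (.e (nat_lit 1659) (nat_lit 115) (.e (nat_lit 393301) (nat_lit 27) (.e (nat_lit 491558) (nat_lit 10) (.e (nat_lit 344090) (nat_lit 18) (.e (nat_lit 7122) (nat_lit 382) (.e (nat_lit 1183) (nat_lit 87) (.e (nat_lit 57741) (nat_lit 187) .nil))))))) (.g (nat_lit 5) .nil .nil)))) (.nd (nat_lit 5) 
(.lf (nat_lit 70166) (.g (nat_lit 3167) (.e (nat_lit 1659) (nat_lit 115) (.e (nat_lit 393301) (nat_lit 27) (.e (nat_lit 491547) (nat_lit 9) (.e (nat_lit 336421) (nat_lit 28) (.e (nat_lit 434181) (nat_lit 0) .nil))))) (.g (nat_lit 0) .nil .nil))) 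
(.lf (nat_lit 70198) (.g (nat_lit 3259) (.e (nat_lit 1659) (nat_lit 115) (.e (nat_lit 393301) (nat_lit 27) (.e (nat_lit 491558) (nat_lit 10) (.e (nat_lit 344090) (nat_lit 18) (.e (nat_lit 7263) (nat_lit 384) (.e (nat_lit 57354) (nat_lit 0) (.e (nat_lit 6493) (nat_lit 343) .nil))))))) (.g (nat_lit 6) .nil .nil))))) (.nd (nat_lit 4) (.nd (nat_lit 5) 
(.lf (nat_lit 70158) (.g (nat_lit 2366) (.e (nat_lit 1659) (nat_lit 115) (.e (nat_lit 393301) (nat_lit 27) (.e (nat_lit 491539) (nat_lit 3) (.e (nat_lit 98341) (nat_lit 20) (.e (nat_lit 221219) (nat_lit 24) .nil))))) .nil)) 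
(.lf (nat_lit 70190) (.g (nat_lit 2287) (.e (nat_lit 1659) (nat_lit 115) (.e (nat_lit 393301) (nat_lit 27) (.e (nat_lit 491558) (nat_lit 10) (.e (nat_lit 344090) (nat_lit 18) (.e (nat_lit 7125) (nat_lit 382) (.e (nat_lit 1288) (nat_lit 95) (.e (nat_lit 123096) (nat_lit 187) .nil))))))) (.g (nat_lit 4) .nil .nil)))) (.nd (nat_lit 5) 
(.lf (nat_lit 70174) (.g (nat_lit 508) (.e (nat_lit 1659) (nat_lit 115) (.e (nat_lit 393301) (nat_lit 27) (.e (nat_lit 491556) (nat_lit 9) .nil))) .nil)) 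
(.lf (nat_lit 70206) (.g (nat_lit 2874) (.e (nat_lit 1659) (nat_lit 115) (.e (nat_lit 393301) (nat_lit 27) (.e (nat_lit 491558) (nat_lit 10) (.e (nat_lit 344090) (nat_lit 18) (.e (nat_lit 7265) (nat_lit 384) (.e (nat_lit 57354) (nat_lit 0) (.e (nat_lit 7936) (nat_lit 343) .nil))))))) (.g (nat_lit 5) .nil .nil)))))))) 
(.nd (nat_lit 1) (.nd (nat_lit 2) (.nd (nat_lit 3) (.nd (nat_lit 4) (.nd (nat_lit 5) 
(.lf (nat_lit 70145) (.g (nat_lit 2994) (.e (nat_lit 1659) (nat_lit 115) (.e (nat_lit 393301) (nat_lit 27) (.e (nat_lit 491530) (nat_lit 0) (.e (nat_lit 1796) (nat_lit 119) (.e (nat_lit 516131) (nat_lit 3) (.e (nat_lit 221219) (nat_lit 24) (.e (nat_lit 212993) (nat_lit 0) .nil))))))) (.g (nat_lit 5) .nil .nil))) 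
(.lf (nat_lit 70177) (.g (nat_lit 1441) (.e (nat_lit 1659) (nat_lit 115) (.e (nat_lit 393301) (nat_lit 27) (.e (nat_lit 491558) (nat_lit 10) (.e (nat_lit 344088) (nat_lit 18) .nil)))) .nil))) (.nd (nat_lit 5) 
(.lf (nat_lit 70161) (.g (nat_lit 400) (.e (nat_lit 1659) (nat_lit 115) (.e (nat_lit 393301) (nat_lit 27) (.e (nat_lit 491546) (nat_lit 9) .nil))) .nil)) 
(.lf (nat_lit 70193) (.g (nat_lit 2589) (.e (nat_lit 1659) (nat_lit 115) (.e (nat_lit 393301) (nat_lit 27) (.e (nat_lit 491558) (nat_lit 10) (.e (nat_lit 344090) (nat_lit 18) (.e (nat_lit 7247) (nat_lit 383) (.e (nat_lit 8194) (nat_lit 0) (.e (nat_lit 5322) (nat_lit 298) .nil))))))) (.g (nat_lit 5) .nil .nil))))) (.nd (nat_lit 4) (.nd (nat_lit 5) 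
(.lf (nat_lit 70153) (.g (nat_lit 1900) (.e (nat_lit 1659) (nat_lit 115) (.e (nat_lit 393301) (nat_lit 27) (.e (nat_lit 491538) (nat_lit 3) (.e (nat_lit 98342) (nat_lit 20) (.e (nat_lit 221218) (nat_lit 24) (.e (nat_lit 212994) (nat_lit 0) .nil)))))) (.g (nat_lit 4) .nil .nil))) 
(.lf (nat_lit 70185) (.g (nat_lit 3760) (.e (nat_lit 1659) (nat_lit 115) (.e (nat_lit 393301) (nat_lit 27) (.e (nat_lit 491558) (nat_lit 10) (.e (nat_lit 344090) (nat_lit 18) (.e (nat_lit 7124) (nat_lit 382) (.e (nat_lit 1183) (nat_lit 87) (.e (nat_lit 57741) (nat_lit 187) .nil))))))) (.g (nat_lit 6) .nil .nil)))) (.nd (nat_lit 5) 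
(.lf (nat_lit 70169) (.g (nat_lit 1025) (.e (nat_lit 1659) (nat_lit 115) (.e (nat_lit 393301) (nat_lit 27) (.e (nat_lit 491551) (nat_lit 9) (.e (nat_lit 336417) (nat_lit 27) .nil)))) .nil)) 
(.lf (nat_lit 70201) (.g (nat_lit 3316) (.e (nat_lit 1659) (nat_lit 115) (.e (nat_lit 393301) (nat_lit 27) (.e (nat_lit 491558) (nat_lit 10) (.e (nat_lit 344090) (nat_lit 18) (.e (nat_lit 7265) (nat_lit 384) (.e (nat_lit 57347) (nat_lit 0) (.e (nat_lit 6461) (nat_lit 343) .nil))))))) (.g (nat_lit 6) .nil .nil)))))) (.nd (nat_lit 3) (.nd (nat_lit 4) (.nd (nat_lit 5) 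
(.lf (nat_lit 70149) (.g (nat_lit 1761) (.e (nat_lit 1659) (nat_lit 115) (.e (nat_lit 393301) (nat_lit 27) (.e (nat_lit 491538) (nat_lit 3) (.e (nat_lit 98341) (nat_lit 20) (.e (nat_lit 221218) (nat_lit 24) .nil))))) .nil)) 
(.lf (nat_lit 70181) (.g (nat_lit 2282) (.e (nat_lit 1659) (nat_lit 115) (.e (nat_lit 393301) (nat_lit 27) (.e (nat_lit 491558) (nat_lit 10) (.e (nat_lit 344090) (nat_lit 18) (.e (nat_lit 6923) (nat_lit 371) (.e (nat_lit 2607) (nat_lit 163) (.e (nat_lit 164239) (nat_lit 187) .nil))))))) (.g (nat_lit 4) .nil .nil)))) (.nd (nat_lit 5) 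
(.lf (nat_lit 70165) (.g (nat_lit 3297) (.e (nat_lit 1659) (nat_lit 115) (.e (nat_lit 393301) (nat_lit 27) (.e (nat_lit 491547) (nat_lit 9) (.e (nat_lit 336421) (nat_lit 28) (.e (nat_lit 434180) (nat_lit 0) .nil))))) (.g (nat_lit 0) .nil .nil))) 
(.lf (nat_lit 70197) (.g (nat_lit 2381) (.e (nat_lit 1659) (nat_lit 115) (.e (nat_lit 393301) (nat_lit 27) (.e (nat_lit 491558) (nat_lit 10) (.e (nat_lit 344090) (nat_lit 18) (.e (nat_lit 7261) (nat_lit 384) (.e (nat_lit 57347) (nat_lit 0) (.e (nat_lit 6450) (nat_lit 343) .nil))))))) (.g (nat_lit 4) .nil .nil))))) (.nd (nat_lit 4) (.nd (nat_lit 5) 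
(.lf (nat_lit 70157) (.g (nat_lit 916) (.e (nat_lit 1659) (nat_lit 115) (.e (nat_lit 393301) (nat_lit 27) (.e (nat_lit 491539) (nat_lit 3) .nil))) .nil)) 
(.lf (nat_lit 70189) (.g (nat_lit 2318) (.e (nat_lit 1659) (nat_lit 115) (.e (nat_lit 393301) (nat_lit 27) (.e (nat_lit 491558) (nat_lit 10) (.e (nat_lit 344090) (nat_lit 18) (.e (nat_lit 7125) (nat_lit 382) (.e (nat_lit 1183) (nat_lit 87) (.e (nat_lit 65280) (nat_lit 187) .nil))))))) (.g (nat_lit 4) .nil .nil)))) (.nd (nat_lit 5) 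
(.lf (nat_lit 70173) (.g (nat_lit 585) (.e (nat_lit 1659) (nat_lit 115) (.e (nat_lit 393301) (nat_lit 27) (.e (nat_lit 491555) (nat_lit 9) .nil))) .nil)) 
(.lf (nat_lit 70205) (.g (nat_lit 3560) (.e (nat_lit 1659) (nat_lit 115) (.e (nat_lit 393301) (nat_lit 27) (.e (nat_lit 491558) (nat_lit 10) (.e (nat_lit 344090) (nat_lit 18) (.e (nat_lit 7265) (nat_lit 384) (.e (nat_lit 57354) (nat_lit 0) (.e (nat_lit 6493) (nat_lit 343) .nil))))))) (.g (nat_lit 6) .nil .nil))))))) (.nd (nat_lit 2) (.nd (nat_lit 3) (.nd (nat_lit 4) (.nd (nat_lit 5) 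
(.lf (nat_lit 70147) (.g (nat_lit 1002) (.e (nat_lit 1659) (nat_lit 115) (.e (nat_lit 393301) (nat_lit 27) (.e (nat_lit 491535) (nat_lit 2) .nil))) .nil)) 
(.lf (nat_lit 70179) (.g (nat_lit 1434) (.e (nat_lit 1659) (nat_lit 115) (.e (nat_lit 393301) (nat_lit 27) (.e (nat_lit 491558) (nat_lit 10) (.e (nat_lit 344089) (nat_lit 18) .nil)))) .nil))) (.nd (nat_lit 5) 
(.lf (nat_lit 70163) (.g (nat_lit 2742) (.e (nat_lit 1659) (nat_lit 115) (.e (nat_lit 393301) (nat_lit 27) (.e (nat_lit 491546) (nat_lit 9) (.e (nat_lit 336421) (nat_lit 28) (.e (nat_lit 434181) (nat_lit 0) .nil))))) (.g (nat_lit 0) .nil .nil))) 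
(.lf (nat_lit 70195) (.g (nat_lit 2694) (.e (nat_lit 1659) (nat_lit 115) (.e (nat_lit 393301) (nat_lit 27) (.e (nat_lit 491558) (nat_lit 10) (.e (nat_lit 344090) (nat_lit 18) (.e (nat_lit 7247) (nat_lit 383) (.e (nat_lit 8196) (nat_lit 0) (.e (nat_lit 5321) (nat_lit 298) .nil))))))) (.g (nat_lit 5) .nil .nil))))) (.nd (nat_lit 4) (.nd (nat_lit 5) 
(.lf (nat_lit 70155) (.g (nat_lit 2652) (.e (nat_lit 1659) (nat_lit 115) (.e (nat_lit 393301) (nat_lit 27) (.e (nat_lit 491538) (nat_lit 3) (.e (nat_lit 98342) (nat_lit 20) (.e (nat_lit 221219) (nat_lit 24) (.e (nat_lit 212993) (nat_lit 0) .nil)))))) (.g (nat_lit 5) .nil .nil))) 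
(.lf (nat_lit 70187) (.g (nat_lit 2837) (.e (nat_lit 1659) (nat_lit 115) (.e (nat_lit 393301) (nat_lit 27) (.e (nat_lit 491558) (nat_lit 10) (.e (nat_lit 344090) (nat_lit 18) (.e (nat_lit 7125) (nat_lit 382) (.e (nat_lit 1183) (nat_lit 87) (.e (nat_lit 57740) (nat_lit 187) .nil))))))) (.g (nat_lit 5) .nil .nil)))) (.nd (nat_lit 5) 
(.lf (nat_lit 70171) (.g (nat_lit 2682) (.e (nat_lit 1659) (nat_lit 115) (.e (nat_lit 393301) (nat_lit 27) (.e (nat_lit 491552) (nat_lit 9) (.e (nat_lit 336412) (nat_lit 27) (.e (nat_lit 426030) (nat_lit 0) (.e (nat_lit 7562) (nat_lit 402) .nil)))))) (.g (nat_lit 4) .nil .nil))) 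
(.lf (nat_lit 70203) (.g (nat_lit 2443) (.e (nat_lit 1659) (nat_lit 115) (.e (nat_lit 393301) (nat_lit 27) (.e (nat_lit 491558) (nat_lit 10) (.e (nat_lit 344090) (nat_lit 18) (.e (nat_lit 7265) (nat_lit 384) (.e (nat_lit 57347) (nat_lit 0) (.e (nat_lit 7936) (nat_lit 343) .nil))))))) (.g (nat_lit 4) .nil .nil)))))) (.nd (nat_lit 3) (.nd (nat_lit 4) (.nd (nat_lit 5) 
(.lf (nat_lit 70151) (.g (nat_lit 867) (.e (nat_lit 1659) (nat_lit 115) (.e (nat_lit 393301) (nat_lit 27) (.e (nat_lit 491538) (nat_lit 3) (.e (nat_lit 98342) (nat_lit 20) .nil)))) .nil)) 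
(.lf (nat_lit 70183) (.g (nat_lit 2093) (.e (nat_lit 1659) (nat_lit 115) (.e (nat_lit 393301) (nat_lit 27) (.e (nat_lit 491558) (nat_lit 10) (.e (nat_lit 344090) (nat_lit 18) (.e (nat_lit 7122) (nat_lit 382) (.e (nat_lit 1183) (nat_lit 87) (.e (nat_lit 65280) (nat_lit 187) .nil))))))) (.g (nat_lit 4) .nil .nil)))) (.nd (nat_lit 5) 
(.lf (nat_lit 70167) (.g (nat_lit 1805) (.e (nat_lit 1659) (nat_lit 115) (.e (nat_lit 393301) (nat_lit 27) (.e (nat_lit 491547) (nat_lit 9) (.e (nat_lit 336423) (nat_lit 28) .nil)))) .nil)) 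
(.lf (nat_lit 70199) (.g (nat_lit 2450) (.e (nat_lit 1659) (nat_lit 115) (.e (nat_lit 393301) (nat_lit 27) (.e (nat_lit 491558) (nat_lit 10) (.e (nat_lit 344090) (nat_lit 18) (.e (nat_lit 7263) (nat_lit 384) (.e (nat_lit 57354) (nat_lit 0) (.e (nat_lit 7936) (nat_lit 343) .nil))))))) (.g (nat_lit 4) .nil .nil))))) (.nd (nat_lit 4) (.nd (nat_lit 5) 
(.lf (nat_lit 70159) (.g (nat_lit 2944) (.e (nat_lit 1659) (nat_lit 115) (.e (nat_lit 393301) (nat_lit 27) (.e (nat_lit 491539) (nat_lit 3) (.e (nat_lit 98342) (nat_lit 20) (.e (nat_lit 221219) (nat_lit 24) (.e (nat_lit 212992) (nat_lit 0) .nil)))))) (.g (nat_lit 4) .nil .nil))) 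
(.lf (nat_lit 70191) (.g (nat_lit 1584) (.e (nat_lit 1659) (nat_lit 115) (.e (nat_lit 393301) (nat_lit 27) (.e (nat_lit 491558) (nat_lit 10) (.e (nat_lit 344090) (nat_lit 18) (.e (nat_lit 7247) (nat_lit 383) .nil))))) .nil))) (.nd (nat_lit 5) 
(.lf (nat_lit 70175) (.g (nat_lit 3064) (.e (nat_lit 1659) (nat_lit 115) (.e (nat_lit 393301) (nat_lit 27) (.e (nat_lit 491556) (nat_lit 9) (.e (nat_lit 336420) (nat_lit 28) (.e (nat_lit 434181) (nat_lit 0) .nil))))) (.g (nat_lit 0) .nil .nil))) 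
(.lf (nat_lit 70207) (.g (nat_lit 1278) (.e (nat_lit 1659) (nat_lit 115) (.e (nat_lit 393301) (nat_lit 27) (.e (nat_lit 491558) (nat_lit 10) (.e (nat_lit 344091) (nat_lit 18) .nil)))) .nil))))))))

noncomputable def tv959 : DT := (.nd (nat_lit 0) (.nd (nat_lit 1) (.nd (nat_lit 2) (.nd (nat_lit 3) (.nd (nat_lit 4) (.nd (nat_lit 5) 
(.lf (nat_lit 70208) (.g (nat_lit 2104) (.e (nat_lit 1659) (nat_lit 115) (.e (nat_lit 393301) (nat_lit 27) (.e (nat_lit 491558) (nat_lit 10) (.e (nat_lit 344091) (nat_lit 18) (.e (nat_lit 6853) (nat_lit 371) .nil))))) .nil)) 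
(.lf (nat_lit 70240) (.g (nat_lit 3904) (.e (nat_lit 1659) (nat_lit 115) (.e (nat_lit 393301) (nat_lit 27) (.e (nat_lit 491558) (nat_lit 10) (.e (nat_lit 344091) (nat_lit 18) (.e (nat_lit 7265) (nat_lit 384) (.e (nat_lit 57354) (nat_lit 0) (.e (nat_lit 6493) (nat_lit 343) .nil))))))) (.g (nat_lit 6) .nil .nil)))) (.nd (nat_lit 5) 
(.lf (nat_lit 70224) (.g (nat_lit 2827) (.e (nat_lit 1659) (nat_lit 115) (.e (nat_lit 393301) (nat_lit 27) (.e (nat_lit 491558) (nat_lit 10) (.e (nat_lit 344091) (nat_lit 18) (.e (nat_lit 7247) (nat_lit 383) (.e (nat_lit 8194) (nat_lit 0) (.e (nat_lit 5321) (nat_lit 298) .nil))))))) (.g (nat_lit 4) .nil .nil))) 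
(.lf (nat_lit 70256) (.g (nat_lit 3968) (.e (nat_lit 1659) (nat_lit 115) (.e (nat_lit 393301) (nat_lit 27) (.e (nat_lit 491558) (nat_lit 10) (.e (nat_lit 344096) (nat_lit 18) (.e (nat_lit 7122) (nat_lit 382) (.e (nat_lit 1183) (nat_lit 87) (.e (nat_lit 57740) (nat_lit 187) .nil))))))) (.g (nat_lit 6) .nil .nil))))) (.nd (nat_lit 4) (.nd (nat_lit 5) 
(.lf (nat_lit 70216) (.g (nat_lit 4172) (.e (nat_lit 1659) (nat_lit 115) (.e (nat_lit 393301) (nat_lit 27) (.e (nat_lit 491558) (nat_lit 10) (.e (nat_lit 344091) (nat_lit 18) (.e (nat_lit 7122) (nat_lit 382) (.e (nat_lit 1183) (nat_lit 87) (.e (nat_lit 57741) (nat_lit 187) .nil))))))) (.g (nat_lit 6) .nil .nil))) 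
(.lf (nat_lit 70248) (.g (nat_lit 2404) (.e (nat_lit 1659) (nat_lit 115) (.e (nat_lit 393301) (nat_lit 27) (.e (nat_lit 491558) (nat_lit 10) (.e (nat_lit 344095) (nat_lit 18) (.e (nat_lit 7261) (nat_lit 384) (.e (nat_lit 57347) (nat_lit 0) (.e (nat_lit 6450) (nat_lit 343) .nil))))))) (.g (nat_lit 4) .nil .nil)))) (.nd (nat_lit 5) 
(.lf (nat_lit 70232) (.g (nat_lit 3878) (.e (nat_lit 1659) (nat_lit 115) (.e (nat_lit 393301) (nat_lit 27) (.e (nat_lit 491558) (nat_lit 10) (.e (nat_lit 344091) (nat_lit 18) (.e (nat_lit 7263) (nat_lit 384) (.e (nat_lit 57354) (nat_lit 0) (.e (nat_lit 6493) (nat_lit 343) .nil))))))) (.g (nat_lit 6) .nil .nil))) 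
(.lf (nat_lit 70264) (.g (nat_lit 2492) (.e (nat_lit 1659) (nat_lit 115) (.e (nat_lit 393301) (nat_lit 27) (.e (nat_lit 491558) (nat_lit 10) (.e (nat_lit 344096) (nat_lit 18) (.e (nat_lit 7125) (nat_lit 382) (.e (nat_lit 1288) (nat_lit 95) (.e (nat_lit 123096) (nat_lit 187) .nil))))))) (.g (nat_lit 4) .nil .nil)))))) (.nd (nat_lit 3) (.nd (nat_lit 4) (.nd (nat_lit 5) 
(.lf (nat_lit 70212) (.g (nat_lit 2740) (.e (nat_lit 1659) (nat_lit 115) (.e (nat_lit 393301) (nat_lit 27) (.e (nat_lit 491558) (nat_lit 10) (.e (nat_lit 344091) (nat_lit 18) (.e (nat_lit 6942) (nat_lit 375) (.e (nat_lit 163843) (nat_lit 0) (.e (nat_lit 7562) (nat_lit 402) .nil))))))) (.g (nat_lit 4) .nil .nil))) 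
(.lf (nat_lit 70244) (.g (nat_lit 1127) (.e (nat_lit 1659) (nat_lit 115) (.e (nat_lit 393301) (nat_lit 27) (.e (nat_lit 491558) (nat_lit 10) (.e (nat_lit 344095) (nat_lit 18) .nil)))) .nil))) (.nd (nat_lit 5) 
(.lf (nat_lit 70228) (.g (nat_lit 2736) (.e (nat_lit 1659) (nat_lit 115) (.e (nat_lit 393301) (nat_lit 27) (.e (nat_lit 491558) (nat_lit 10) (.e (nat_lit 344091) (nat_lit 18) (.e (nat_lit 7247) (nat_lit 383) (.e (nat_lit 8196) (nat_lit 0) (.e (nat_lit 5321) (nat_lit 298) .nil))))))) (.g (nat_lit 4) .nil .nil))) 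
(.lf (nat_lit 70260) (.g (nat_lit 3169) (.e (nat_lit 1659) (nat_lit 115) (.e (nat_lit 393301) (nat_lit 27) (.e (nat_lit 491558) (nat_lit 10) (.e (nat_lit 344096) (nat_lit 18) (.e (nat_lit 7124) (nat_lit 382) (.e (nat_lit 1183) (nat_lit 87) (.e (nat_lit 65280) (nat_lit 187) .nil))))))) (.g (nat_lit 5) .nil .nil))))) (.nd (nat_lit 4) (.nd (nat_lit 5) 
(.lf (nat_lit 70220) (.g (nat_lit 2970) (.e (nat_lit 1659) (nat_lit 115) (.e (nat_lit 393301) (nat_lit 27) (.e (nat_lit 491558) (nat_lit 10) (.e (nat_lit 344091) (nat_lit 18) (.e (nat_lit 7124) (nat_lit 382) (.e (nat_lit 1183) (nat_lit 87) (.e (nat_lit 65280) (nat_lit 187) .nil))))))) (.g (nat_lit 5) .nil .nil))) 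
(.lf (nat_lit 70252) (.g (nat_lit 1158) (.e (nat_lit 1659) (nat_lit 115) (.e (nat_lit 393301) (nat_lit 27) (.e (nat_lit 491558) (nat_lit 10) (.e (nat_lit 344096) (nat_lit 18) .nil)))) .nil))) (.nd (nat_lit 5) 
(.lf (nat_lit 70236) (.g (nat_lit 3717) (.e (nat_lit 1659) (nat_lit 115) (.e (nat_lit 393301) (nat_lit 27) (.e (nat_lit 491558) (nat_lit 10) (.e (nat_lit 344091) (nat_lit 18) (.e (nat_lit 7265) (nat_lit 384) (.e (nat_lit 57347) (nat_lit 0) (.e (nat_lit 6461) (nat_lit 343) .nil))))))) (.g (nat_lit 6) .nil .nil))) 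
(.lf (nat_lit 70268) (.g (nat_lit 2626) (.e (nat_lit 1659) (nat_lit 115) (.e (nat_lit 393301) (nat_lit 27) (.e (nat_lit 491558) (nat_lit 10) (.e (nat_lit 344096) (nat_lit 18) (.e (nat_lit 7247) (nat_lit 383) (.e (nat_lit 8194) (nat_lit 0) (.e (nat_lit 5323) (nat_lit 298) .nil))))))) (.g (nat_lit 4) .nil .nil))))))) (.nd (nat_lit 2) (.nd (nat_lit 3) (.nd (nat_lit 4) (.nd (nat_lit 5) 
(.lf (nat_lit 70210) (.g (nat_lit 2620) (.e (nat_lit 1659) (nat_lit 115) (.e (nat_lit 393301) (nat_lit 27) (.e (nat_lit 491558) (nat_lit 10) (.e (nat_lit 344091) (nat_lit 18) (.e (nat_lit 6869) (nat_lit 371) (.e (nat_lit 2608) (nat_lit 163) (.e (nat_lit 164239) (nat_lit 187) .nil))))))) (.g (nat_lit 4) .nil .nil))) 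
(.lf (nat_lit 70242) (.g (nat_lit 1420) (.e (nat_lit 1659) (nat_lit 115) (.e (nat_lit 393301) (nat_lit 27) (.e (nat_lit 491558) (nat_lit 10) (.e (nat_lit 344093) (nat_lit 18) .nil)))) .nil))) (.nd (nat_lit 5) 
(.lf (nat_lit 70226) (.g (nat_lit 2542) (.e (nat_lit 1659) (nat_lit 115) (.e (nat_lit 393301) (nat_lit 27) (.e (nat_lit 491558) (nat_lit 10) (.e (nat_lit 344091) (nat_lit 18) (.e (nat_lit 7247) (nat_lit 383) (.e (nat_lit 8194) (nat_lit 0) (.e (nat_lit 5323) (nat_lit 298) .nil))))))) (.g (nat_lit 4) .nil .nil))) 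
(.lf (nat_lit 70258) (.g (nat_lit 3686) (.e (nat_lit 1659) (nat_lit 115) (.e (nat_lit 393301) (nat_lit 27) (.e (nat_lit 491558) (nat_lit 10) (.e (nat_lit 344096) (nat_lit 18) (.e (nat_lit 7124) (nat_lit 382) (.e (nat_lit 1183) (nat_lit 87) (.e (nat_lit 57740) (nat_lit 187) .nil))))))) (.g (nat_lit 6) .nil .nil))))) (.nd (nat_lit 4) (.nd (nat_lit 5) 
(.lf (nat_lit 70218) (.g (nat_lit 3487) (.e (nat_lit 1659) (nat_lit 115) (.e (nat_lit 393301) (nat_lit 27) (.e (nat_lit 491558) (nat_lit 10) (.e (nat_lit 344091) (nat_lit 18) (.e (nat_lit 7124) (nat_lit 382) (.e (nat_lit 1183) (nat_lit 87) (.e (nat_lit 57740) (nat_lit 187) .nil))))))) (.g (nat_lit 5) .nil .nil))) 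
(.lf (nat_lit 70250) (.g (nat_lit 3661) (.e (nat_lit 1659) (nat_lit 115) (.e (nat_lit 393301) (nat_lit 27) (.e (nat_lit 491558) (nat_lit 10) (.e (nat_lit 344095) (nat_lit 18) (.e (nat_lit 7263) (nat_lit 384) (.e (nat_lit 57354) (nat_lit 0) (.e (nat_lit 6493) (nat_lit 343) .nil))))))) (.g (nat_lit 6) .nil .nil)))) (.nd (nat_lit 5) 
(.lf (nat_lit 70234) (.g (nat_lit 4666) (.e (nat_lit 1659) (nat_lit 115) (.e (nat_lit 393301) (nat_lit 27) (.e (nat_lit 491558) (nat_lit 10) (.e (nat_lit 344091) (nat_lit 18) (.e (nat_lit 7265) (nat_lit 384) (.e (nat_lit 57347) (nat_lit 0) (.e (nat_lit 6450) (nat_lit 343) .nil))))))) (.g (nat_lit 6) .nil .nil))) 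
(.lf (nat_lit 70266) (.g (nat_lit 2911) (.e (nat_lit 1659) (nat_lit 115) (.e (nat_lit 393301) (nat_lit 27) (.e (nat_lit 491558) (nat_lit 10) (.e (nat_lit 344096) (nat_lit 18) (.e (nat_lit 7247) (nat_lit 383) (.e (nat_lit 8194) (nat_lit 0) (.e (nat_lit 5321) (nat_lit 298) .nil))))))) (.g (nat_lit 5) .nil .nil)))))) (.nd (nat_lit 3) (.nd (nat_lit 4) (.nd (nat_lit 5) 
(.lf (nat_lit 70214) (.g (nat_lit 2043) (.e (nat_lit 1659) (nat_lit 115) (.e (nat_lit 393301) (nat_lit 27) (.e (nat_lit 491558) (nat_lit 10) (.e (nat_lit 344091) (nat_lit 18) (.e (nat_lit 6943) (nat_lit 375) .nil))))) .nil)) 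
(.lf (nat_lit 70246) (.g (nat_lit 4022) (.e (nat_lit 1659) (nat_lit 115) (.e (nat_lit 393301) (nat_lit 27) (.e (nat_lit 491558) (nat_lit 10) (.e (nat_lit 344095) (nat_lit 18) (.e (nat_lit 7122) (nat_lit 382) (.e (nat_lit 1183) (nat_lit 87) (.e (nat_lit 57741) (nat_lit 187) .nil))))))) (.g (nat_lit 6) .nil .nil)))) (.nd (nat_lit 5) 
(.lf (nat_lit 70230) (.g (nat_lit 1917) (.e (nat_lit 1659) (nat_lit 115) (.e (nat_lit 393301) (nat_lit 27) (.e (nat_lit 491558) (nat_lit 10) (.e (nat_lit 344091) (nat_lit 18) (.e (nat_lit 7261) (nat_lit 384) .nil))))) .nil)) 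
(.lf (nat_lit 70262) (.g (nat_lit 3794) (.e (nat_lit 1659) (nat_lit 115) (.e (nat_lit 393301) (nat_lit 27) (.e (nat_lit 491558) (nat_lit 10) (.e (nat_lit 344096) (nat_lit 18) (.e (nat_lit 7125) (nat_lit 382) (.e (nat_lit 1183) (nat_lit 87) (.e (nat_lit 57741) (nat_lit 187) .nil))))))) (.g (nat_lit 6) .nil .nil))))) (.nd (nat_lit 4) (.nd (nat_lit 5) 
(.lf (nat_lit 70222) (.g (nat_lit 2457) (.e (nat_lit 1659) (nat_lit 115) (.e (nat_lit 393301) (nat_lit 27) (.e (nat_lit 491558) (nat_lit 10) (.e (nat_lit 344091) (nat_lit 18) (.e (nat_lit 7125) (nat_lit 382) (.e (nat_lit 1288) (nat_lit 95) (.e (nat_lit 123096) (nat_lit 187) .nil))))))) (.g (nat_lit 4) .nil .nil))) 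
(.lf (nat_lit 70254) (.g (nat_lit 1779) (.e (nat_lit 1659) (nat_lit 115) (.e (nat_lit 393301) (nat_lit 27) (.e (nat_lit 491558) (nat_lit 10) (.e (nat_lit 344096) (nat_lit 18) (.e (nat_lit 6940) (nat_lit 375) .nil))))) .nil))) (.nd (nat_lit 5) 
(.lf (nat_lit 70238) (.g (nat_lit 3064) (.e (nat_lit 1659) (nat_lit 115) (.e (nat_lit 393301) (nat_lit 27) (.e (nat_lit 491558) (nat_lit 10) (.e (nat_lit 344091) (nat_lit 18) (.e (nat_lit 7265) (nat_lit 384) (.e (nat_lit 57347) (nat_lit 0) (.e (nat_lit 7936) (nat_lit 343) .nil))))))) (.g (nat_lit 5) .nil .nil))) 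
(.lf (nat_lit 70270) (.g (nat_lit 2535) (.e (nat_lit 1659) (nat_lit 115) (.e (nat_lit 393301) (nat_lit 27) (.e (nat_lit 491558) (nat_lit 10) (.e (nat_lit 344096) (nat_lit 18) (.e (nat_lit 7247) (nat_lit 383) (.e (nat_lit 8196) (nat_lit 0) (.e (nat_lit 5323) (nat_lit 298) .nil))))))) (.g (nat_lit 4) .nil .nil)))))))) 
(.nd (nat_lit 1) (.nd (nat_lit 2) (.nd (nat_lit 3) (.nd (nat_lit 4) (.nd (nat_lit 5) 
(.lf (nat_lit 70209) (.g (nat_lit 2105) (.e (nat_lit 1659) (nat_lit 115) (.e (nat_lit 393301) (nat_lit 27) (.e (nat_lit 491558) (nat_lit 10) (.e (nat_lit 344091) (nat_lit 18) (.e (nat_lit 6869) (nat_lit 371) .nil))))) .nil)) 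
(.lf (nat_lit 70241) (.g (nat_lit 3160) (.e (nat_lit 1659) (nat_lit 115) (.e (nat_lit 393301) (nat_lit 27) (.e (nat_lit 491558) (nat_lit 10) (.e (nat_lit 344091) (nat_lit 18) (.e (nat_lit 7265) (nat_lit 384) (.e (nat_lit 57354) (nat_lit 0) (.e (nat_lit 7936) (nat_lit 343) .nil))))))) (.g (nat_lit 5) .nil .nil)))) (.nd (nat_lit 5) 
(.lf (nat_lit 70225) (.g (nat_lit 2641) (.e (nat_lit 1659) (nat_lit 115) (.e (nat_lit 393301) (nat_lit 27) (.e (nat_lit 491558) (nat_lit 10) (.e (nat_lit 344091) (nat_lit 18) (.e (nat_lit 7247) (nat_lit 383) (.e (nat_lit 8194) (nat_lit 0) (.e (nat_lit 5322) (nat_lit 298) .nil))))))) (.g (nat_lit 4) .nil .nil))) 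
(.lf (nat_lit 70257) (.g (nat_lit 3449) (.e (nat_lit 1659) (nat_lit 115) (.e (nat_lit 393301) (nat_lit 27) (.e (nat_lit 491558) (nat_lit 10) (.e (nat_lit 344096) (nat_lit 18) (.e (nat_lit 7122) (nat_lit 382) (.e (nat_lit 1183) (nat_lit 87) (.e (nat_lit 65280) (nat_lit 187) .nil))))))) (.g (nat_lit 5) .nil .nil))))) (.nd (nat_lit 4) (.nd (nat_lit 5) 
(.lf (nat_lit 70217) (.g (nat_lit 3006) (.e (nat_lit 1659) (nat_lit 115) (.e (nat_lit 393301) (nat_lit 27) (.e (nat_lit 491558) (nat_lit 10) (.e (nat_lit 344091) (nat_lit 18) (.e (nat_lit 7122) (nat_lit 382) (.e (nat_lit 1183) (nat_lit 87) (.e (nat_lit 65280) (nat_lit 187) .nil))))))) (.g (nat_lit 4) .nil .nil))) 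
(.lf (nat_lit 70249) (.g (nat_lit 2308) (.e (nat_lit 1659) (nat_lit 115) (.e (nat_lit 393301) (nat_lit 27) (.e (nat_lit 491558) (nat_lit 10) (.e (nat_lit 344095) (nat_lit 18) (.e (nat_lit 7263) (nat_lit 384) (.e (nat_lit 57354) (nat_lit 0) (.e (nat_lit 6489) (nat_lit 343) .nil))))))) (.g (nat_lit 4) .nil .nil)))) (.nd (nat_lit 5) 
(.lf (nat_lit 70233) (.g (nat_lit 3069) (.e (nat_lit 1659) (nat_lit 115) (.e (nat_lit 393301) (nat_lit 27) (.e (nat_lit 491558) (nat_lit 10) (.e (nat_lit 344091) (nat_lit 18) (.e (nat_lit 7263) (nat_lit 384) (.e (nat_lit 57354) (nat_lit 0) (.e (nat_lit 7936) (nat_lit 343) .nil))))))) (.g (nat_lit 4) .nil .nil))) 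
(.lf (nat_lit 70265) (.g (nat_lit 1842) (.e (nat_lit 1659) (nat_lit 115) (.e (nat_lit 393301) (nat_lit 27) (.e (nat_lit 491558) (nat_lit 10) (.e (nat_lit 344096) (nat_lit 18) (.e (nat_lit 7247) (nat_lit 383) .nil))))) .nil))))) (.nd (nat_lit 3) (.nd (nat_lit 4) (.nd (nat_lit 5) 
(.lf (nat_lit 70213) (.g (nat_lit 3109) (.e (nat_lit 1659) (nat_lit 115) (.e (nat_lit 393301) (nat_lit 27) (.e (nat_lit 491558) (nat_lit 10) (.e (nat_lit 344091) (nat_lit 18) (.e (nat_lit 6942) (nat_lit 375) (.e (nat_lit 163850) (nat_lit 0) (.e (nat_lit 7556) (nat_lit 402) .nil))))))) (.g (nat_lit 6) .nil .nil))) 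
(.lf (nat_lit 70245) (.g (nat_lit 3375) (.e (nat_lit 1659) (nat_lit 115) (.e (nat_lit 393301) (nat_lit 27) (.e (nat_lit 491558) (nat_lit 10) (.e (nat_lit 344095) (nat_lit 18) (.e (nat_lit 7122) (nat_lit 382) (.e (nat_lit 1183) (nat_lit 87) (.e (nat_lit 57740) (nat_lit 187) .nil))))))) (.g (nat_lit 6) .nil .nil)))) (.nd (nat_lit 5) 
(.lf (nat_lit 70229) (.g (nat_lit 2451) (.e (nat_lit 1659) (nat_lit 115) (.e (nat_lit 393301) (nat_lit 27) (.e (nat_lit 491558) (nat_lit 10) (.e (nat_lit 344091) (nat_lit 18) (.e (nat_lit 7247) (nat_lit 383) (.e (nat_lit 8196) (nat_lit 0) (.e (nat_lit 5323) (nat_lit 298) .nil))))))) (.g (nat_lit 4) .nil .nil))) 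
(.lf (nat_lit 70261) (.g (nat_lit 3042) (.e (nat_lit 1659) (nat_lit 115) (.e (nat_lit 393301) (nat_lit 27) (.e (nat_lit 491558) (nat_lit 10) (.e (nat_lit 344096) (nat_lit 18) (.e (nat_lit 7125) (nat_lit 382) (.e (nat_lit 1183) (nat_lit 87) (.e (nat_lit 57740) (nat_lit 187) .nil))))))) (.g (nat_lit 5) .nil .nil))))) (.nd (nat_lit 4) (.nd (nat_lit 5) 
(.lf (nat_lit 70221) (.g (nat_lit 2483) (.e (nat_lit 1659) (nat_lit 115) (.e (nat_lit 393301) (nat_lit 27) (.e (nat_lit 491558) (nat_lit 10) (.e (nat_lit 344091) (nat_lit 18) (.e (nat_lit 7125) (nat_lit 382) (.e (nat_lit 1183) (nat_lit 87) (.e (nat_lit 65280) (nat_lit 187) .nil))))))) (.g (nat_lit 4) .nil .nil))) 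
(.lf (nat_lit 70253) (.g (nat_lit 1843) (.e (nat_lit 1659) (nat_lit 115) (.e (nat_lit 393301) (nat_lit 27) (.e (nat_lit 491558) (nat_lit 10) (.e (nat_lit 344096) (nat_lit 18) (.e (nat_lit 6923) (nat_lit 371) .nil))))) .nil))) (.nd (nat_lit 5) 
(.lf (nat_lit 70237) (.g (nat_lit 3970) (.e (nat_lit 1659) (nat_lit 115) (.e (nat_lit 393301) (nat_lit 27) (.e (nat_lit 491558) (nat_lit 10) (.e (nat_lit 344091) (nat_lit 18) (.e (nat_lit 7265) (nat_lit 384) (.e (nat_lit 57347) (nat_lit 0) (.e (nat_lit 6499) (nat_lit 343) .nil))))))) (.g (nat_lit 6) .nil .nil))) 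
(.lf (nat_lit 70269) (.g (nat_lit 2820) (.e (nat_lit 1659) (nat_lit 115) (.e (nat_lit 393301) (nat_lit 27) (.e (nat_lit 491558) (nat_lit 10) (.e (nat_lit 344096) (nat_lit 18) (.e (nat_lit 7247) (nat_lit 383) (.e (nat_lit 8196) (nat_lit 0) (.e (nat_lit 5321) (nat_lit 298) .nil))))))) (.g (nat_lit 4) .nil .nil))))))) (.nd (nat_lit 2) (.nd (nat_lit 3) (.nd (nat_lit 4) (.nd (nat_lit 5) 
(.lf (nat_lit 70211) (.g (nat_lit 2080) (.e (nat_lit 1659) (nat_lit 115) (.e (nat_lit 393301) (nat_lit 27) (.e (nat_lit 491558) (nat_lit 10) (.e (nat_lit 344091) (nat_lit 18) (.e (nat_lit 6940) (nat_lit 375) .nil))))) .nil)) 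
(.lf (nat_lit 70243) (.g (nat_lit 1464) (.e (nat_lit 1659) (nat_lit 115) (.e (nat_lit 393301) (nat_lit 27) (.e (nat_lit 491558) (nat_lit 10) (.e (nat_lit 344094) (nat_lit 18) .nil)))) .nil))) (.nd (nat_lit 5) 
(.lf (nat_lit 70227) (.g (nat_lit 3270) (.e (nat_lit 1659) (nat_lit 115) (.e (nat_lit 393301) (nat_lit 27) (.e (nat_lit 491558) (nat_lit 10) (.e (nat_lit 344091) (nat_lit 18) (.e (nat_lit 7247) (nat_lit 383) (.e (nat_lit 8194) (nat_lit 0) (.e (nat_lit 5355) (nat_lit 298) .nil))))))) (.g (nat_lit 5) .nil .nil))) 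
(.lf (nat_lit 70259) (.g (nat_lit 4283) (.e (nat_lit 1659) (nat_lit 115) (.e (nat_lit 393301) (nat_lit 27) (.e (nat_lit 491558) (nat_lit 10) (.e (nat_lit 344096) (nat_lit 18) (.e (nat_lit 7124) (nat_lit 382) (.e (nat_lit 1183) (nat_lit 87) (.e (nat_lit 57741) (nat_lit 187) .nil))))))) (.g (nat_lit 6) .nil .nil))))) (.nd (nat_lit 4) (.nd (nat_lit 5) 
(.lf (nat_lit 70219) (.g (nat_lit 4084) (.e (nat_lit 1659) (nat_lit 115) (.e (nat_lit 393301) (nat_lit 27) (.e (nat_lit 491558) (nat_lit 10) (.e (nat_lit 344091) (nat_lit 18) (.e (nat_lit 7124) (nat_lit 382) (.e (nat_lit 1183) (nat_lit 87) (.e (nat_lit 57741) (nat_lit 187) .nil))))))) (.g (nat_lit 6) .nil .nil))) 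
(.lf (nat_lit 70251) (.g (nat_lit 2851) (.e (nat_lit 1659) (nat_lit 115) (.e (nat_lit 393301) (nat_lit 27) (.e (nat_lit 491558) (nat_lit 10) (.e (nat_lit 344095) (nat_lit 18) (.e (nat_lit 7263) (nat_lit 384) (.e (nat_lit 57354) (nat_lit 0) (.e (nat_lit 7936) (nat_lit 343) .nil))))))) (.g (nat_lit 6) .nil .nil)))) (.nd (nat_lit 5) 
(.lf (nat_lit 70235) (.g (nat_lit 2305) (.e (nat_lit 1659) (nat_lit 115) (.e (nat_lit 393301) (nat_lit 27) (.e (nat_lit 491558) (nat_lit 10) (.e (nat_lit 344091) (nat_lit 18) (.e (nat_lit 7265) (nat_lit 384) (.e (nat_lit 57347) (nat_lit 0) (.e (nat_lit 6457) (nat_lit 343) .nil))))))) (.g (nat_lit 4) .nil .nil))) 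
(.lf (nat_lit 70267) (.g (nat_lit 2725) (.e (nat_lit 1659) (nat_lit 115) (.e (nat_lit 393301) (nat_lit 27) (.e (nat_lit 491558) (nat_lit 10) (.e (nat_lit 344096) (nat_lit 18) (.e (nat_lit 7247) (nat_lit 383) (.e (nat_lit 8194) (nat_lit 0) (.e (nat_lit 5322) (nat_lit 298) .nil))))))) (.g (nat_lit 4) .nil .nil)))))) (.nd (nat_lit 3) (.nd (nat_lit 4) (.nd (nat_lit 5) 
(.lf (nat_lit 70215) (.g (nat_lit 3525) (.e (nat_lit 1659) (nat_lit 115) (.e (nat_lit 393301) (nat_lit 27) (.e (nat_lit 491558) (nat_lit 10) (.e (nat_lit 344091) (nat_lit 18) (.e (nat_lit 7122) (nat_lit 382) (.e (nat_lit 1183) (nat_lit 87) (.e (nat_lit 57740) (nat_lit 187) .nil))))))) (.g (nat_lit 5) .nil .nil))) 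
(.lf (nat_lit 70247) (.g (nat_lit 2856) (.e (nat_lit 1659) (nat_lit 115) (.e (nat_lit 393301) (nat_lit 27) (.e (nat_lit 491558) (nat_lit 10) (.e (nat_lit 344095) (nat_lit 18) (.e (nat_lit 7122) (nat_lit 382) (.e (nat_lit 1183) (nat_lit 87) (.e (nat_lit 65280) (nat_lit 187) .nil))))))) (.g (nat_lit 5) .nil .nil)))) (.nd (nat_lit 5) 
(.lf (nat_lit 70231) (.g (nat_lit 2525) (.e (nat_lit 1659) (nat_lit 115) (.e (nat_lit 393301) (nat_lit 27) (.e (nat_lit 491558) (nat_lit 10) (.e (nat_lit 344091) (nat_lit 18) (.e (nat_lit 7263) (nat_lit 384) (.e (nat_lit 57354) (nat_lit 0) (.e (nat_lit 6489) (nat_lit 343) .nil))))))) (.g (nat_lit 4) .nil .nil))) 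
(.lf (nat_lit 70263) (.g (nat_lit 2523) (.e (nat_lit 1659) (nat_lit 115) (.e (nat_lit 393301) (nat_lit 27) (.e (nat_lit 491558) (nat_lit 10) (.e (nat_lit 344096) (nat_lit 18) (.e (nat_lit 7125) (nat_lit 382) (.e (nat_lit 1183) (nat_lit 87) (.e (nat_lit 65280) (nat_lit 187) .nil))))))) (.g (nat_lit 4) .nil .nil))))) (.nd (nat_lit 4) (.nd (nat_lit 5) 
(.lf (nat_lit 70223) (.g (nat_lit 2080) (.e (nat_lit 1659) (nat_lit 115) (.e (nat_lit 393301) (nat_lit 27) (.e (nat_lit 491558) (nat_lit 10) (.e (nat_lit 344091) (nat_lit 18) (.e (nat_lit 7247) (nat_lit 383) .nil))))) .nil)) 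
(.lf (nat_lit 70255) (.g (nat_lit 3380) (.e (nat_lit 1659) (nat_lit 115) (.e (nat_lit 393301) (nat_lit 27) (.e (nat_lit 491558) (nat_lit 10) (.e (nat_lit 344096) (nat_lit 18) (.e (nat_lit 6940) (nat_lit 375) (.e (nat_lit 163850) (nat_lit 0) (.e (nat_lit 7556) (nat_lit 402) .nil))))))) (.g (nat_lit 0) .nil .nil)))) (.nd (nat_lit 5) 
(.lf (nat_lit 70239) (.g (nat_lit 2903) (.e (nat_lit 1659) (nat_lit 115) (.e (nat_lit 393301) (nat_lit 27) (.e (nat_lit 491558) (nat_lit 10) (.e (nat_lit 344091) (nat_lit 18) (.e (nat_lit 7265) (nat_lit 384) (.e (nat_lit 57354) (nat_lit 0) (.e (nat_lit 6489) (nat_lit 343) .nil))))))) (.g (nat_lit 5) .nil .nil))) 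
(.lf (nat_lit 70271) (.g (nat_lit 1774) (.e (nat_lit 1659) (nat_lit 115) (.e (nat_lit 393301) (nat_lit 27) (.e (nat_lit 491558) (nat_lit 10) (.e (nat_lit 344096) (nat_lit 18) (.e (nat_lit 7261) (nat_lit 384) .nil))))) .nil))))))))

noncomputable def tv960 : DT := (.nd (nat_lit 0) (.nd (nat_lit 1) (.nd (nat_lit 2) (.nd (nat_lit 3) (.nd (nat_lit 4) (.nd (nat_lit 5) 
(.lf (nat_lit 70272) (.g (nat_lit 2684) (.e (nat_lit 1659) (nat_lit 115) (.e (nat_lit 393301) (nat_lit 27) (.e (nat_lit 491558) (nat_lit 10) (.e (nat_lit 344096) (nat_lit 18) (.e (nat_lit 7261) (nat_lit 384) (.e (nat_lit 57347) (nat_lit 0) (.e (nat_lit 6450) (nat_lit 343) .nil))))))) (.g (nat_lit 4) .nil .nil))) 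
(.lf (nat_lit 70304) (.g (nat_lit 2185) (.e (nat_lit 1659) (nat_lit 115) (.e (nat_lit 393301) (nat_lit 27) (.e (nat_lit 491558) (nat_lit 10) (.e (nat_lit 344097) (nat_lit 18) (.e (nat_lit 7272) (nat_lit 385) (.e (nat_lit 122883) (nat_lit 0) (.e (nat_lit 6489) (nat_lit 343) .nil))))))) (.g (nat_lit 4) .nil .nil)))) (.nd (nat_lit 5) 
(.lf (nat_lit 70288) (.g (nat_lit 3055) (.e (nat_lit 1659) (nat_lit 115) (.e (nat_lit 393301) (nat_lit 27) (.e (nat_lit 491558) (nat_lit 10) (.e (nat_lit 344097) (nat_lit 18) (.e (nat_lit 7252) (nat_lit 383) (.e (nat_lit 8200) (nat_lit 0) (.e (nat_lit 5369) (nat_lit 298) .nil))))))) (.g (nat_lit 5) .nil .nil))) 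
(.lf (nat_lit 70320) (.g (nat_lit 3367) (.e (nat_lit 1659) (nat_lit 115) (.e (nat_lit 393301) (nat_lit 27) (.e (nat_lit 491559) (nat_lit 10) (.e (nat_lit 344090) (nat_lit 18) (.e (nat_lit 7247) (nat_lit 383) (.e (nat_lit 8194) (nat_lit 0) (.e (nat_lit 5355) (nat_lit 298) .nil))))))) (.g (nat_lit 4) .nil .nil))))) (.nd (nat_lit 4) (.nd (nat_lit 5) 
(.lf (nat_lit 70280) (.g (nat_lit 4139) (.e (nat_lit 1659) (nat_lit 115) (.e (nat_lit 393301) (nat_lit 27) (.e (nat_lit 491558) (nat_lit 10) (.e (nat_lit 344096) (nat_lit 18) (.e (nat_lit 7265) (nat_lit 384) (.e (nat_lit 57347) (nat_lit 0) (.e (nat_lit 6499) (nat_lit 343) .nil))))))) (.g (nat_lit 6) .nil .nil))) 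
(.lf (nat_lit 70312) (.g (nat_lit 1806) (.e (nat_lit 1659) (nat_lit 115) (.e (nat_lit 393301) (nat_lit 27) (.e (nat_lit 491559) (nat_lit 10) (.e (nat_lit 344087) (nat_lit 18) .nil)))) .nil))) (.nd (nat_lit 5) 
(.lf (nat_lit 70296) (.g (nat_lit 2512) (.e (nat_lit 1659) (nat_lit 115) (.e (nat_lit 393301) (nat_lit 27) (.e (nat_lit 491558) (nat_lit 10) (.e (nat_lit 344097) (nat_lit 18) (.e (nat_lit 7254) (nat_lit 383) (.e (nat_lit 8198) (nat_lit 0) (.e (nat_lit 5324) (nat_lit 298) .nil))))))) (.g (nat_lit 4) .nil .nil))) 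
(.lf (nat_lit 70328) (.g (nat_lit 2462) (.e (nat_lit 1659) (nat_lit 115) (.e (nat_lit 393301) (nat_lit 27) (.e (nat_lit 491559) (nat_lit 10) (.e (nat_lit 344091) (nat_lit 18) (.e (nat_lit 6853) (nat_lit 371) .nil))))) .nil))))) (.nd (nat_lit 3) (.nd (nat_lit 4) (.nd (nat_lit 5) 
(.lf (nat_lit 70276) (.g (nat_lit 2979) (.e (nat_lit 1659) (nat_lit 115) (.e (nat_lit 393301) (nat_lit 27) (.e (nat_lit 491558) (nat_lit 10) (.e (nat_lit 344096) (nat_lit 18) (.e (nat_lit 7263) (nat_lit 384) (.e (nat_lit 57354) (nat_lit 0) (.e (nat_lit 7936) (nat_lit 343) .nil))))))) (.g (nat_lit 5) .nil .nil))) 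
(.lf (nat_lit 70308) (.g (nat_lit 1153) (.e (nat_lit 1659) (nat_lit 115) (.e (nat_lit 393301) (nat_lit 27) (.e (nat_lit 491558) (nat_lit 10) (.e (nat_lit 344174) (nat_lit 42) .nil)))) .nil))) (.nd (nat_lit 5) 
(.lf (nat_lit 70292) (.g (nat_lit 2009) (.e (nat_lit 1659) (nat_lit 115) (.e (nat_lit 393301) (nat_lit 27) (.e (nat_lit 491558) (nat_lit 10) (.e (nat_lit 344097) (nat_lit 18) (.e (nat_lit 7254) (nat_lit 383) (.e (nat_lit 8192) (nat_lit 0) (.e (nat_lit 5325) (nat_lit 298) .nil))))))) (.g (nat_lit 4) .nil .nil))) 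
(.lf (nat_lit 70324) (.g (nat_lit 3170) (.e (nat_lit 1659) (nat_lit 115) (.e (nat_lit 393301) (nat_lit 27) (.e (nat_lit 491559) (nat_lit 10) (.e (nat_lit 344090) (nat_lit 18) (.e (nat_lit 7265) (nat_lit 384) (.e (nat_lit 57347) (nat_lit 0) (.e (nat_lit 6461) (nat_lit 343) .nil))))))) (.g (nat_lit 4) .nil .nil))))) (.nd (nat_lit 4) (.nd (nat_lit 5) 
(.lf (nat_lit 70284) (.g (nat_lit 3435) (.e (nat_lit 1659) (nat_lit 115) (.e (nat_lit 393301) (nat_lit 27) (.e (nat_lit 491558) (nat_lit 10) (.e (nat_lit 344096) (nat_lit 18) (.e (nat_lit 7265) (nat_lit 384) (.e (nat_lit 57354) (nat_lit 0) (.e (nat_lit 7936) (nat_lit 343) .nil))))))) (.g (nat_lit 6) .nil .nil))) 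
(.lf (nat_lit 70316) (.g (nat_lit 2378) (.e (nat_lit 1659) (nat_lit 115) (.e (nat_lit 393301) (nat_lit 27) (.e (nat_lit 491559) (nat_lit 10) (.e (nat_lit 344090) (nat_lit 18) (.e (nat_lit 6942) (nat_lit 375) .nil))))) .nil))) (.nd (nat_lit 5) 
(.lf (nat_lit 70300) (.g (nat_lit 2115) (.e (nat_lit 1659) (nat_lit 115) (.e (nat_lit 393301) (nat_lit 27) (.e (nat_lit 491558) (nat_lit 10) (.e (nat_lit 344097) (nat_lit 18) (.e (nat_lit 7255) (nat_lit 383) (.e (nat_lit 8192) (nat_lit 0) (.e (nat_lit 5323) (nat_lit 298) .nil))))))) (.g (nat_lit 4) .nil .nil))) 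
(.lf (nat_lit 70332) (.g (nat_lit 2457) (.e (nat_lit 1659) (nat_lit 115) (.e (nat_lit 393301) (nat_lit 27) (.e (nat_lit 491559) (nat_lit 10) (.e (nat_lit 344091) (nat_lit 18) (.e (nat_lit 6943) (nat_lit 375) .nil))))) .nil)))))) (.nd (nat_lit 2) (.nd (nat_lit 3) (.nd (nat_lit 4) (.nd (nat_lit 5) 
(.lf (nat_lit 70274) (.g (nat_lit 2435) (.e (nat_lit 1659) (nat_lit 115) (.e (nat_lit 393301) (nat_lit 27) (.e (nat_lit 491558) (nat_lit 10) (.e (nat_lit 344096) (nat_lit 18) (.e (nat_lit 7263) (nat_lit 384) (.e (nat_lit 57354) (nat_lit 0) (.e (nat_lit 6489) (nat_lit 343) .nil))))))) (.g (nat_lit 4) .nil .nil))) 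
(.lf (nat_lit 70306) (.g (nat_lit 1633) (.e (nat_lit 1659) (nat_lit 115) (.e (nat_lit 393301) (nat_lit 27) (.e (nat_lit 491558) (nat_lit 10) (.e (nat_lit 344100) (nat_lit 18) (.e (nat_lit 7255) (nat_lit 383) .nil))))) .nil))) (.nd (nat_lit 5) 
(.lf (nat_lit 70290) (.g (nat_lit 2214) (.e (nat_lit 1659) (nat_lit 115) (.e (nat_lit 393301) (nat_lit 27) (.e (nat_lit 491558) (nat_lit 10) (.e (nat_lit 344097) (nat_lit 18) (.e (nat_lit 7254) (nat_lit 383) (.e (nat_lit 8192) (nat_lit 0) (.e (nat_lit 5321) (nat_lit 298) .nil))))))) (.g (nat_lit 4) .nil .nil))) 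
(.lf (nat_lit 70322) (.g (nat_lit 2266) (.e (nat_lit 1659) (nat_lit 115) (.e (nat_lit 393301) (nat_lit 27) (.e (nat_lit 491559) (nat_lit 10) (.e (nat_lit 344090) (nat_lit 18) (.e (nat_lit 7261) (nat_lit 384) .nil))))) .nil)))) (.nd (nat_lit 4) (.nd (nat_lit 5) 
(.lf (nat_lit 70282) (.g (nat_lit 3113) (.e (nat_lit 1659) (nat_lit 115) (.e (nat_lit 393301) (nat_lit 27) (.e (nat_lit 491558) (nat_lit 10) (.e (nat_lit 344096) (nat_lit 18) (.e (nat_lit 7265) (nat_lit 384) (.e (nat_lit 57354) (nat_lit 0) (.e (nat_lit 6489) (nat_lit 343) .nil))))))) (.g (nat_lit 5) .nil .nil))) 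
(.lf (nat_lit 70314) (.g (nat_lit 1793) (.e (nat_lit 1659) (nat_lit 115) (.e (nat_lit 393301) (nat_lit 27) (.e (nat_lit 491559) (nat_lit 10) (.e (nat_lit 344089) (nat_lit 18) .nil)))) .nil))) (.nd (nat_lit 5) 
(.lf (nat_lit 70298) (.g (nat_lit 2793) (.e (nat_lit 1659) (nat_lit 115) (.e (nat_lit 393301) (nat_lit 27) (.e (nat_lit 491558) (nat_lit 10) (.e (nat_lit 344097) (nat_lit 18) (.e (nat_lit 7254) (nat_lit 383) (.e (nat_lit 8198) (nat_lit 0) (.e (nat_lit 5369) (nat_lit 298) .nil))))))) (.g (nat_lit 4) .nil .nil))) 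
(.lf (nat_lit 70330) (.g (nat_lit 2457) (.e (nat_lit 1659) (nat_lit 115) (.e (nat_lit 393301) (nat_lit 27) (.e (nat_lit 491559) (nat_lit 10) (.e (nat_lit 344091) (nat_lit 18) (.e (nat_lit 6940) (nat_lit 375) .nil))))) .nil))))) (.nd (nat_lit 3) (.nd (nat_lit 4) (.nd (nat_lit 5) 
(.lf (nat_lit 70278) (.g (nat_lit 2474) (.e (nat_lit 1659) (nat_lit 115) (.e (nat_lit 393301) (nat_lit 27) (.e (nat_lit 491558) (nat_lit 10) (.e (nat_lit 344096) (nat_lit 18) (.e (nat_lit 7265) (nat_lit 384) (.e (nat_lit 57347) (nat_lit 0) (.e (nat_lit 6457) (nat_lit 343) .nil))))))) (.g (nat_lit 4) .nil .nil))) 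
(.lf (nat_lit 70310) (.g (nat_lit 1282) (.e (nat_lit 1659) (nat_lit 115) (.e (nat_lit 393301) (nat_lit 27) (.e (nat_lit 491558) (nat_lit 10) (.e (nat_lit 344180) (nat_lit 44) .nil)))) .nil))) (.nd (nat_lit 5) 
(.lf (nat_lit 70294) (.g (nat_lit 2102) (.e (nat_lit 1659) (nat_lit 115) (.e (nat_lit 393301) (nat_lit 27) (.e (nat_lit 491558) (nat_lit 10) (.e (nat_lit 344097) (nat_lit 18) (.e (nat_lit 7254) (nat_lit 383) (.e (nat_lit 8197) (nat_lit 0) (.e (nat_lit 5321) (nat_lit 298) .nil))))))) (.g (nat_lit 4) .nil .nil))) 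
(.lf (nat_lit 70326) (.g (nat_lit 3414) (.e (nat_lit 1659) (nat_lit 115) (.e (nat_lit 393301) (nat_lit 27) (.e (nat_lit 491559) (nat_lit 10) (.e (nat_lit 344090) (nat_lit 18) (.e (nat_lit 7265) (nat_lit 384) (.e (nat_lit 57354) (nat_lit 0) (.e (nat_lit 6493) (nat_lit 343) .nil))))))) (.g (nat_lit 5) .nil .nil))))) (.nd (nat_lit 4) (.nd (nat_lit 5) 
(.lf (nat_lit 70286) (.g (nat_lit 1879) (.e (nat_lit 1659) (nat_lit 115) (.e (nat_lit 393301) (nat_lit 27) (.e (nat_lit 491558) (nat_lit 10) (.e (nat_lit 344097) (nat_lit 18) (.e (nat_lit 7252) (nat_lit 383) .nil))))) .nil)) 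
(.lf (nat_lit 70318) (.g (nat_lit 2232) (.e (nat_lit 1659) (nat_lit 115) (.e (nat_lit 393301) (nat_lit 27) (.e (nat_lit 491559) (nat_lit 10) (.e (nat_lit 344090) (nat_lit 18) (.e (nat_lit 7125) (nat_lit 382) .nil))))) .nil))) (.nd (nat_lit 5) 
(.lf (nat_lit 70302) (.g (nat_lit 3811) (.e (nat_lit 1659) (nat_lit 115) (.e (nat_lit 393301) (nat_lit 27) (.e (nat_lit 491558) (nat_lit 10) (.e (nat_lit 344097) (nat_lit 18) (.e (nat_lit 7270) (nat_lit 385) (.e (nat_lit 122883) (nat_lit 0) (.e (nat_lit 6489) (nat_lit 343) .nil))))))) (.g (nat_lit 5) .nil .nil))) 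
(.lf (nat_lit 70334) (.g (nat_lit 3818) (.e (nat_lit 1659) (nat_lit 115) (.e (nat_lit 393301) (nat_lit 27) (.e (nat_lit 491559) (nat_lit 10) (.e (nat_lit 344091) (nat_lit 18) (.e (nat_lit 7122) (nat_lit 382) (.e (nat_lit 1183) (nat_lit 87) (.e (nat_lit 57740) (nat_lit 187) .nil))))))) (.g (nat_lit 5) .nil .nil)))))))) 
(.nd (nat_lit 1) (.nd (nat_lit 2) (.nd (nat_lit 3) (.nd (nat_lit 4) (.nd (nat_lit 5) 
(.lf (nat_lit 70273) (.g (nat_lit 2449) (.e (nat_lit 1659) (nat_lit 115) (.e (nat_lit 393301) (nat_lit 27) (.e (nat_lit 491558) (nat_lit 10) (.e (nat_lit 344096) (nat_lit 18) (.e (nat_lit 7261) (nat_lit 384) (.e (nat_lit 57354) (nat_lit 0) (.e (nat_lit 6493) (nat_lit 343) .nil))))))) (.g (nat_lit 4) .nil .nil))) 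
(.lf (nat_lit 70305) (.g (nat_lit 1368) (.e (nat_lit 1659) (nat_lit 115) (.e (nat_lit 393301) (nat_lit 27) (.e (nat_lit 491558) (nat_lit 10) (.e (nat_lit 344100) (nat_lit 18) .nil)))) .nil))) (.nd (nat_lit 5) 
(.lf (nat_lit 70289) (.g (nat_lit 1759) (.e (nat_lit 1659) (nat_lit 115) (.e (nat_lit 393301) (nat_lit 27) (.e (nat_lit 491558) (nat_lit 10) (.e (nat_lit 344097) (nat_lit 18) (.e (nat_lit 7254) (nat_lit 383) .nil))))) .nil)) 
(.lf (nat_lit 70321) (.g (nat_lit 2823) (.e (nat_lit 1659) (nat_lit 115) (.e (nat_lit 393301) (nat_lit 27) (.e (nat_lit 491559) (nat_lit 10) (.e (nat_lit 344090) (nat_lit 18) (.e (nat_lit 7247) (nat_lit 383) (.e (nat_lit 8196) (nat_lit 0) (.e (nat_lit 5321) (nat_lit 298) .nil))))))) (.g (nat_lit 4) .nil .nil))))) (.nd (nat_lit 4) (.nd (nat_lit 5) 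
(.lf (nat_lit 70281) (.g (nat_lit 3227) (.e (nat_lit 1659) (nat_lit 115) (.e (nat_lit 393301) (nat_lit 27) (.e (nat_lit 491558) (nat_lit 10) (.e (nat_lit 344096) (nat_lit 18) (.e (nat_lit 7265) (nat_lit 384) (.e (nat_lit 57347) (nat_lit 0) (.e (nat_lit 7936) (nat_lit 343) .nil))))))) (.g (nat_lit 6) .nil .nil))) 
(.lf (nat_lit 70313) (.g (nat_lit 1805) (.e (nat_lit 1659) (nat_lit 115) (.e (nat_lit 393301) (nat_lit 27) (.e (nat_lit 491559) (nat_lit 10) (.e (nat_lit 344088) (nat_lit 18) .nil)))) .nil))) (.nd (nat_lit 5) 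
(.lf (nat_lit 70297) (.g (nat_lit 2468) (.e (nat_lit 1659) (nat_lit 115) (.e (nat_lit 393301) (nat_lit 27) (.e (nat_lit 491558) (nat_lit 10) (.e (nat_lit 344097) (nat_lit 18) (.e (nat_lit 7254) (nat_lit 383) (.e (nat_lit 8198) (nat_lit 0) (.e (nat_lit 5367) (nat_lit 298) .nil))))))) (.g (nat_lit 4) .nil .nil))) 
(.lf (nat_lit 70329) (.g (nat_lit 2448) (.e (nat_lit 1659) (nat_lit 115) (.e (nat_lit 393301) (nat_lit 27) (.e (nat_lit 491559) (nat_lit 10) (.e (nat_lit 344091) (nat_lit 18) (.e (nat_lit 6869) (nat_lit 371) .nil))))) .nil))))) (.nd (nat_lit 3) (.nd (nat_lit 4) (.nd (nat_lit 5) 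
(.lf (nat_lit 70277) (.g (nat_lit 4835) (.e (nat_lit 1659) (nat_lit 115) (.e (nat_lit 393301) (nat_lit 27) (.e (nat_lit 491558) (nat_lit 10) (.e (nat_lit 344096) (nat_lit 18) (.e (nat_lit 7265) (nat_lit 384) (.e (nat_lit 57347) (nat_lit 0) (.e (nat_lit 6450) (nat_lit 343) .nil))))))) (.g (nat_lit 7) .nil .nil))) 
(.lf (nat_lit 70309) (.g (nat_lit 1465) (.e (nat_lit 1659) (nat_lit 115) (.e (nat_lit 393301) (nat_lit 27) (.e (nat_lit 491558) (nat_lit 10) (.e (nat_lit 344175) (nat_lit 43) .nil)))) .nil))) (.nd (nat_lit 5) 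
(.lf (nat_lit 70293) (.g (nat_lit 2338) (.e (nat_lit 1659) (nat_lit 115) (.e (nat_lit 393301) (nat_lit 27) (.e (nat_lit 491558) (nat_lit 10) (.e (nat_lit 344097) (nat_lit 18) (.e (nat_lit 7254) (nat_lit 383) (.e (nat_lit 8192) (nat_lit 0) (.e (nat_lit 5355) (nat_lit 298) .nil))))))) (.g (nat_lit 4) .nil .nil))) 
(.lf (nat_lit 70325) (.g (nat_lit 3423) (.e (nat_lit 1659) (nat_lit 115) (.e (nat_lit 393301) (nat_lit 27) (.e (nat_lit 491559) (nat_lit 10) (.e (nat_lit 344090) (nat_lit 18) (.e (nat_lit 7265) (nat_lit 384) (.e (nat_lit 57347) (nat_lit 0) (.e (nat_lit 6499) (nat_lit 343) .nil))))))) (.g (nat_lit 5) .nil .nil))))) (.nd (nat_lit 4) (.nd (nat_lit 5) 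
(.lf (nat_lit 70285) (.g (nat_lit 993) (.e (nat_lit 1659) (nat_lit 115) (.e (nat_lit 393301) (nat_lit 27) (.e (nat_lit 491558) (nat_lit 10) (.e (nat_lit 344097) (nat_lit 18) .nil)))) .nil)) 
(.lf (nat_lit 70317) (.g (nat_lit 2360) (.e (nat_lit 1659) (nat_lit 115) (.e (nat_lit 393301) (nat_lit 27) (.e (nat_lit 491559) (nat_lit 10) (.e (nat_lit 344090) (nat_lit 18) (.e (nat_lit 7124) (nat_lit 382) .nil))))) .nil))) (.nd (nat_lit 5) 
(.lf (nat_lit 70301) (.g (nat_lit 3173) (.e (nat_lit 1659) (nat_lit 115) (.e (nat_lit 393301) (nat_lit 27) (.e (nat_lit 491558) (nat_lit 10) (.e (nat_lit 344097) (nat_lit 18) (.e (nat_lit 7270) (nat_lit 385) (.e (nat_lit 122883) (nat_lit 0) (.e (nat_lit 6457) (nat_lit 343) .nil))))))) (.g (nat_lit 5) .nil .nil))) 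
(.lf (nat_lit 70333) (.g (nat_lit 2556) (.e (nat_lit 1659) (nat_lit 115) (.e (nat_lit 393301) (nat_lit 27) (.e (nat_lit 491559) (nat_lit 10) (.e (nat_lit 344091) (nat_lit 18) (.e (nat_lit 6943) (nat_lit 375) (.e (nat_lit 163850) (nat_lit 0) (.e (nat_lit 7556) (nat_lit 402) .nil))))))) (.g (nat_lit 4) .nil .nil))))))) (.nd (nat_lit 2) (.nd (nat_lit 3) (.nd (nat_lit 4) (.nd (nat_lit 5) 
(.lf (nat_lit 70275) (.g (nat_lit 3788) (.e (nat_lit 1659) (nat_lit 115) (.e (nat_lit 393301) (nat_lit 27) (.e (nat_lit 491558) (nat_lit 10) (.e (nat_lit 344096) (nat_lit 18) (.e (nat_lit 7263) (nat_lit 384) (.e (nat_lit 57354) (nat_lit 0) (.e (nat_lit 6493) (nat_lit 343) .nil))))))) (.g (nat_lit 6) .nil .nil))) 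
(.lf (nat_lit 70307) (.g (nat_lit 2797) (.e (nat_lit 1659) (nat_lit 115) (.e (nat_lit 393301) (nat_lit 27) (.e (nat_lit 491558) (nat_lit 10) (.e (nat_lit 344100) (nat_lit 18) (.e (nat_lit 7270) (nat_lit 385) (.e (nat_lit 122883) (nat_lit 0) (.e (nat_lit 6489) (nat_lit 343) .nil))))))) (.g (nat_lit 5) .nil .nil)))) (.nd (nat_lit 5) 
(.lf (nat_lit 70291) (.g (nat_lit 2454) (.e (nat_lit 1659) (nat_lit 115) (.e (nat_lit 393301) (nat_lit 27) (.e (nat_lit 491558) (nat_lit 10) (.e (nat_lit 344097) (nat_lit 18) (.e (nat_lit 7254) (nat_lit 383) (.e (nat_lit 8192) (nat_lit 0) (.e (nat_lit 5323) (nat_lit 298) .nil))))))) (.g (nat_lit 4) .nil .nil))) 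
(.lf (nat_lit 70323) (.g (nat_lit 2964) (.e (nat_lit 1659) (nat_lit 115) (.e (nat_lit 393301) (nat_lit 27) (.e (nat_lit 491559) (nat_lit 10) (.e (nat_lit 344090) (nat_lit 18) (.e (nat_lit 7263) (nat_lit 384) (.e (nat_lit 57354) (nat_lit 0) (.e (nat_lit 6493) (nat_lit 343) .nil))))))) (.g (nat_lit 4) .nil .nil))))) (.nd (nat_lit 4) (.nd (nat_lit 5) 
(.lf (nat_lit 70283) (.g (nat_lit 4114) (.e (nat_lit 1659) (nat_lit 115) (.e (nat_lit 393301) (nat_lit 27) (.e (nat_lit 491558) (nat_lit 10) (.e (nat_lit 344096) (nat_lit 18) (.e (nat_lit 7265) (nat_lit 384) (.e (nat_lit 57354) (nat_lit 0) (.e (nat_lit 6493) (nat_lit 343) .nil))))))) (.g (nat_lit 6) .nil .nil))) 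
(.lf (nat_lit 70315) (.g (nat_lit 1839) (.e (nat_lit 1659) (nat_lit 115) (.e (nat_lit 393301) (nat_lit 27) (.e (nat_lit 491559) (nat_lit 10) (.e (nat_lit 344090) (nat_lit 18) .nil)))) .nil))) (.nd (nat_lit 5) 
(.lf (nat_lit 70299) (.g (nat_lit 1730) (.e (nat_lit 1659) (nat_lit 115) (.e (nat_lit 393301) (nat_lit 27) (.e (nat_lit 491558) (nat_lit 10) (.e (nat_lit 344097) (nat_lit 18) (.e (nat_lit 7255) (nat_lit 383) .nil))))) .nil)) 
(.lf (nat_lit 70331) (.g (nat_lit 3017) (.e (nat_lit 1659) (nat_lit 115) (.e (nat_lit 393301) (nat_lit 27) (.e (nat_lit 491559) (nat_lit 10) (.e (nat_lit 344091) (nat_lit 18) (.e (nat_lit 6942) (nat_lit 375) (.e (nat_lit 163843) (nat_lit 0) (.e (nat_lit 7562) (nat_lit 402) .nil))))))) (.g (nat_lit 4) .nil .nil)))))) (.nd (nat_lit 3) (.nd (nat_lit 4) (.nd (nat_lit 5) 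
(.lf (nat_lit 70279) (.g (nat_lit 3886) (.e (nat_lit 1659) (nat_lit 115) (.e (nat_lit 393301) (nat_lit 27) (.e (nat_lit 491558) (nat_lit 10) (.e (nat_lit 344096) (nat_lit 18) (.e (nat_lit 7265) (nat_lit 384) (.e (nat_lit 57347) (nat_lit 0) (.e (nat_lit 6461) (nat_lit 343) .nil))))))) (.g (nat_lit 6) .nil .nil))) 
(.lf (nat_lit 70311) (.g (nat_lit 1113) (.e (nat_lit 1659) (nat_lit 115) (.e (nat_lit 393301) (nat_lit 27) (.e (nat_lit 491558) (nat_lit 10) (.e (nat_lit 352000) (nat_lit 44) .nil)))) .nil))) (.nd (nat_lit 5) 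
(.lf (nat_lit 70295) (.g (nat_lit 2459) (.e (nat_lit 1659) (nat_lit 115) (.e (nat_lit 393301) (nat_lit 27) (.e (nat_lit 491558) (nat_lit 10) (.e (nat_lit 344097) (nat_lit 18) (.e (nat_lit 7254) (nat_lit 383) (.e (nat_lit 8198) (nat_lit 0) (.e (nat_lit 5321) (nat_lit 298) .nil))))))) (.g (nat_lit 4) .nil .nil))) 
(.lf (nat_lit 70327) (.g (nat_lit 1774) (.e (nat_lit 1659) (nat_lit 115) (.e (nat_lit 393301) (nat_lit 27) (.e (nat_lit 491559) (nat_lit 10) (.e (nat_lit 344091) (nat_lit 18) .nil)))) .nil)))) (.nd (nat_lit 4) (.nd (nat_lit 5) 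
(.lf (nat_lit 70287) (.g (nat_lit 2108) (.e (nat_lit 1659) (nat_lit 115) (.e (nat_lit 393301) (nat_lit 27) (.e (nat_lit 491558) (nat_lit 10) (.e (nat_lit 344097) (nat_lit 18) (.e (nat_lit 7252) (nat_lit 383) (.e (nat_lit 8192) (nat_lit 0) (.e (nat_lit 5323) (nat_lit 298) .nil))))))) (.g (nat_lit 4) .nil .nil))) 
(.lf (nat_lit 70319) (.g (nat_lit 2900) (.e (nat_lit 1659) (nat_lit 115) (.e (nat_lit 393301) (nat_lit 27) (.e (nat_lit 491559) (nat_lit 10) (.e (nat_lit 344090) (nat_lit 18) (.e (nat_lit 7247) (nat_lit 383) (.e (nat_lit 8194) (nat_lit 0) (.e (nat_lit 5321) (nat_lit 298) .nil))))))) (.g (nat_lit 4) .nil .nil)))) (.nd (nat_lit 5) 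
(.lf (nat_lit 70303) (.g (nat_lit 1801) (.e (nat_lit 1659) (nat_lit 115) (.e (nat_lit 393301) (nat_lit 27) (.e (nat_lit 491558) (nat_lit 10) (.e (nat_lit 344097) (nat_lit 18) (.e (nat_lit 7272) (nat_lit 385) .nil))))) .nil)) 
(.lf (nat_lit 70335) (.g (nat_lit 4474) (.e (nat_lit 1659) (nat_lit 115) (.e (nat_lit 393301) (nat_lit 27) (.e (nat_lit 491559) (nat_lit 10) (.e (nat_lit 344091) (nat_lit 18) (.e (nat_lit 7122) (nat_lit 382) (.e (nat_lit 1183) (nat_lit 87) (.e (nat_lit 57741) (nat_lit 187) .nil))))))) (.g (nat_lit 6) .nil .nil)))))))))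

noncomputable def tv961 : DT := (.nd (nat_lit 0) (.nd (nat_lit 1) (.nd (nat_lit 2) (.nd (nat_lit 3) (.nd (nat_lit 4) (.nd (nat_lit 5) 
(.lf (nat_lit 70336) (.g (nat_lit 3220) (.e (nat_lit 1659) (nat_lit 115) (.e (nat_lit 393301) (nat_lit 27) (.e (nat_lit 491559) (nat_lit 10) (.e (nat_lit 344091) (nat_lit 18) (.e (nat_lit 7122) (nat_lit 382) (.e (nat_lit 1183) (nat_lit 87) (.e (nat_lit 65280) (nat_lit 187) .nil))))))) (.g (nat_lit 4) .nil .nil))) 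
(.lf (nat_lit 70368) (.g (nat_lit 3008) (.e (nat_lit 1659) (nat_lit 115) (.e (nat_lit 393301) (nat_lit 27) (.e (nat_lit 491559) (nat_lit 10) (.e (nat_lit 344096) (nat_lit 18) (.e (nat_lit 7124) (nat_lit 382) (.e (nat_lit 1183) (nat_lit 87) (.e (nat_lit 57741) (nat_lit 187) .nil))))))) (.g (nat_lit 4) .nil .nil)))) (.nd (nat_lit 5) 
(.lf (nat_lit 70352) (.g (nat_lit 3377) (.e (nat_lit 1659) (nat_lit 115) (.e (nat_lit 393301) (nat_lit 27) (.e (nat_lit 491559) (nat_lit 10) (.e (nat_lit 344091) (nat_lit 18) (.e (nat_lit 7263) (nat_lit 384) (.e (nat_lit 57354) (nat_lit 0) (.e (nat_lit 7936) (nat_lit 343) .nil))))))) (.g (nat_lit 4) .nil .nil))) 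
(.lf (nat_lit 70384) (.g (nat_lit 1805) (.e (nat_lit 1659) (nat_lit 115) (.e (nat_lit 393301) (nat_lit 27) (.e (nat_lit 491559) (nat_lit 10) (.e (nat_lit 344174) (nat_lit 42) .nil)))) .nil)))) (.nd (nat_lit 4) (.nd (nat_lit 5) 
(.lf (nat_lit 70344) (.g (nat_lit 3008) (.e (nat_lit 1659) (nat_lit 115) (.e (nat_lit 393301) (nat_lit 27) (.e (nat_lit 491559) (nat_lit 10) (.e (nat_lit 344091) (nat_lit 18) (.e (nat_lit 7247) (nat_lit 383) (.e (nat_lit 8194) (nat_lit 0) (.e (nat_lit 5322) (nat_lit 298) .nil))))))) (.g (nat_lit 4) .nil .nil))) 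
(.lf (nat_lit 70376) (.g (nat_lit 2721) (.e (nat_lit 1659) (nat_lit 115) (.e (nat_lit 393301) (nat_lit 27) (.e (nat_lit 491559) (nat_lit 10) (.e (nat_lit 344097) (nat_lit 18) (.e (nat_lit 7255) (nat_lit 383) .nil))))) .nil))) (.nd (nat_lit 5) 
(.lf (nat_lit 70360) (.g (nat_lit 1836) (.e (nat_lit 1659) (nat_lit 115) (.e (nat_lit 393301) (nat_lit 27) (.e (nat_lit 491559) (nat_lit 10) (.e (nat_lit 344093) (nat_lit 18) .nil)))) .nil)) 
(.lf (nat_lit 70392) (.g (nat_lit 3798) (.e (nat_lit 1659) (nat_lit 115) (.e (nat_lit 393301) (nat_lit 27) (.e (nat_lit 491559) (nat_lit 10) (.e (nat_lit 344177) (nat_lit 43) (.e (nat_lit 770067) (nat_lit 7) (.e (nat_lit 57740) (nat_lit 187) .nil)))))) (.g (nat_lit 0) .nil .nil)))))) (.nd (nat_lit 3) (.nd (nat_lit 4) (.nd (nat_lit 5) 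
(.lf (nat_lit 70340) (.g (nat_lit 2773) (.e (nat_lit 1659) (nat_lit 115) (.e (nat_lit 393301) (nat_lit 27) (.e (nat_lit 491559) (nat_lit 10) (.e (nat_lit 344091) (nat_lit 18) (.e (nat_lit 7125) (nat_lit 382) (.e (nat_lit 1183) (nat_lit 87) (.e (nat_lit 65280) (nat_lit 187) .nil))))))) (.g (nat_lit 4) .nil .nil))) 
(.lf (nat_lit 70372) (.g (nat_lit 2886) (.e (nat_lit 1659) (nat_lit 115) (.e (nat_lit 393301) (nat_lit 27) (.e (nat_lit 491559) (nat_lit 10) (.e (nat_lit 344096) (nat_lit 18) (.e (nat_lit 7265) (nat_lit 384) (.e (nat_lit 57347) (nat_lit 0) (.e (nat_lit 6499) (nat_lit 343) .nil))))))) (.g (nat_lit 4) .nil .nil)))) (.nd (nat_lit 5) 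
(.lf (nat_lit 70356) (.g (nat_lit 3270) (.e (nat_lit 1659) (nat_lit 115) (.e (nat_lit 393301) (nat_lit 27) (.e (nat_lit 491559) (nat_lit 10) (.e (nat_lit 344091) (nat_lit 18) (.e (nat_lit 7265) (nat_lit 384) (.e (nat_lit 57347) (nat_lit 0) (.e (nat_lit 7936) (nat_lit 343) .nil))))))) (.g (nat_lit 5) .nil .nil))) 
(.lf (nat_lit 70388) (.g (nat_lit 3104) (.e (nat_lit 1659) (nat_lit 115) (.e (nat_lit 393301) (nat_lit 27) (.e (nat_lit 491559) (nat_lit 10) (.e (nat_lit 344177) (nat_lit 43) (.e (nat_lit 777984) (nat_lit 3) (.e (nat_lit 164335) (nat_lit 232) .nil)))))) (.g (nat_lit 4) .nil .nil))))) (.nd (nat_lit 4) (.nd (nat_lit 5) 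
(.lf (nat_lit 70348) (.g (nat_lit 2818) (.e (nat_lit 1659) (nat_lit 115) (.e (nat_lit 393301) (nat_lit 27) (.e (nat_lit 491559) (nat_lit 10) (.e (nat_lit 344091) (nat_lit 18) (.e (nat_lit 7247) (nat_lit 383) (.e (nat_lit 8196) (nat_lit 0) (.e (nat_lit 5323) (nat_lit 298) .nil))))))) (.g (nat_lit 4) .nil .nil))) 
(.lf (nat_lit 70380) (.g (nat_lit 1822) (.e (nat_lit 1659) (nat_lit 115) (.e (nat_lit 393301) (nat_lit 27) (.e (nat_lit 491559) (nat_lit 10) (.e (nat_lit 344098) (nat_lit 18) .nil)))) .nil))) (.nd (nat_lit 5) 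
(.lf (nat_lit 70364) (.g (nat_lit 2058) (.e (nat_lit 1659) (nat_lit 115) (.e (nat_lit 393301) (nat_lit 27) (.e (nat_lit 491559) (nat_lit 10) (.e (nat_lit 344095) (nat_lit 18) (.e (nat_lit 6923) (nat_lit 371) .nil))))) .nil)) 
(.lf (nat_lit 70396) (.g (nat_lit 3551) (.e (nat_lit 1659) (nat_lit 115) (.e (nat_lit 393301) (nat_lit 27) (.e (nat_lit 491559) (nat_lit 10) (.e (nat_lit 344177) (nat_lit 43) (.e (nat_lit 770068) (nat_lit 7) (.e (nat_lit 57740) (nat_lit 187) .nil)))))) (.g (nat_lit 5) .nil .nil))))))) (.nd (nat_lit 2) (.nd (nat_lit 3) (.nd (nat_lit 4) (.nd (nat_lit 5) 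
(.lf (nat_lit 70338) (.g (nat_lit 4463) (.e (nat_lit 1659) (nat_lit 115) (.e (nat_lit 393301) (nat_lit 27) (.e (nat_lit 491559) (nat_lit 10) (.e (nat_lit 344091) (nat_lit 18) (.e (nat_lit 7124) (nat_lit 382) (.e (nat_lit 1183) (nat_lit 87) (.e (nat_lit 57741) (nat_lit 187) .nil))))))) (.g (nat_lit 6) .nil .nil))) 
(.lf (nat_lit 70370) (.g (nat_lit 2397) (.e (nat_lit 1659) (nat_lit 115) (.e (nat_lit 393301) (nat_lit 27) (.e (nat_lit 491559) (nat_lit 10) (.e (nat_lit 344096) (nat_lit 18) (.e (nat_lit 7265) (nat_lit 384) .nil))))) .nil))) (.nd (nat_lit 5) 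
(.lf (nat_lit 70354) (.g (nat_lit 4031) (.e (nat_lit 1659) (nat_lit 115) (.e (nat_lit 393301) (nat_lit 27) (.e (nat_lit 491559) (nat_lit 10) (.e (nat_lit 344091) (nat_lit 18) (.e (nat_lit 7265) (nat_lit 384) (.e (nat_lit 57347) (nat_lit 0) (.e (nat_lit 6461) (nat_lit 343) .nil))))))) (.g (nat_lit 6) .nil .nil))) 
(.lf (nat_lit 70386) (.g (nat_lit 1521) (.e (nat_lit 1659) (nat_lit 115) (.e (nat_lit 393301) (nat_lit 27) (.e (nat_lit 491559) (nat_lit 10) (.e (nat_lit 344177) (nat_lit 43) .nil)))) .nil)))) (.nd (nat_lit 4) (.nd (nat_lit 5) 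
(.lf (nat_lit 70346) (.g (nat_lit 3637) (.e (nat_lit 1659) (nat_lit 115) (.e (nat_lit 393301) (nat_lit 27) (.e (nat_lit 491559) (nat_lit 10) (.e (nat_lit 344091) (nat_lit 18) (.e (nat_lit 7247) (nat_lit 383) (.e (nat_lit 8194) (nat_lit 0) (.e (nat_lit 5355) (nat_lit 298) .nil))))))) (.g (nat_lit 5) .nil .nil))) 
(.lf (nat_lit 70378) (.g (nat_lit 3193) (.e (nat_lit 1659) (nat_lit 115) (.e (nat_lit 393301) (nat_lit 27) (.e (nat_lit 491559) (nat_lit 10) (.e (nat_lit 344097) (nat_lit 18) (.e (nat_lit 7270) (nat_lit 385) (.e (nat_lit 122883) (nat_lit 0) (.e (nat_lit 6457) (nat_lit 343) .nil))))))) (.g (nat_lit 4) .nil .nil)))) (.nd (nat_lit 5) 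
(.lf (nat_lit 70362) (.g (nat_lit 2961) (.e (nat_lit 1659) (nat_lit 115) (.e (nat_lit 393301) (nat_lit 27) (.e (nat_lit 491559) (nat_lit 10) (.e (nat_lit 344094) (nat_lit 18) (.e (nat_lit 7265) (nat_lit 384) (.e (nat_lit 57347) (nat_lit 0) (.e (nat_lit 6450) (nat_lit 343) .nil))))))) (.g (nat_lit 4) .nil .nil))) 
(.lf (nat_lit 70394) (.g (nat_lit 3387) (.e (nat_lit 1659) (nat_lit 115) (.e (nat_lit 393301) (nat_lit 27) (.e (nat_lit 491559) (nat_lit 10) (.e (nat_lit 344177) (nat_lit 43) (.e (nat_lit 770067) (nat_lit 7) (.e (nat_lit 65280) (nat_lit 187) .nil)))))) (.g (nat_lit 4) .nil .nil)))))) (.nd (nat_lit 3) (.nd (nat_lit 4) (.nd (nat_lit 5) 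
(.lf (nat_lit 70342) (.g (nat_lit 2441) (.e (nat_lit 1659) (nat_lit 115) (.e (nat_lit 393301) (nat_lit 27) (.e (nat_lit 491559) (nat_lit 10) (.e (nat_lit 344091) (nat_lit 18) (.e (nat_lit 7247) (nat_lit 383) .nil))))) .nil)) 
(.lf (nat_lit 70374) (.g (nat_lit 1820) (.e (nat_lit 1659) (nat_lit 115) (.e (nat_lit 393301) (nat_lit 27) (.e (nat_lit 491559) (nat_lit 10) (.e (nat_lit 344097) (nat_lit 18) .nil)))) .nil))) (.nd (nat_lit 5) 
(.lf (nat_lit 70358) (.g (nat_lit 4193) (.e (nat_lit 1659) (nat_lit 115) (.e (nat_lit 393301) (nat_lit 27) (.e (nat_lit 491559) (nat_lit 10) (.e (nat_lit 344091) (nat_lit 18) (.e (nat_lit 7265) (nat_lit 384) (.e (nat_lit 57354) (nat_lit 0) (.e (nat_lit 6493) (nat_lit 343) .nil))))))) (.g (nat_lit 6) .nil .nil))) 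
(.lf (nat_lit 70390) (.g (nat_lit 2981) (.e (nat_lit 1659) (nat_lit 115) (.e (nat_lit 393301) (nat_lit 27) (.e (nat_lit 491559) (nat_lit 10) (.e (nat_lit 344177) (nat_lit 43) (.e (nat_lit 770058) (nat_lit 5) (.e (nat_lit 985) (nat_lit 81) (.e (nat_lit 6489) (nat_lit 343) .nil))))))) (.g (nat_lit 4) .nil .nil))))) (.nd (nat_lit 4) (.nd (nat_lit 5) 
(.lf (nat_lit 70350) (.g (nat_lit 2941) (.e (nat_lit 1659) (nat_lit 115) (.e (nat_lit 393301) (nat_lit 27) (.e (nat_lit 491559) (nat_lit 10) (.e (nat_lit 344091) (nat_lit 18) (.e (nat_lit 7263) (nat_lit 384) (.e (nat_lit 57354) (nat_lit 0) (.e (nat_lit 6489) (nat_lit 343) .nil))))))) (.g (nat_lit 4) .nil .nil))) 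
(.lf (nat_lit 70382) (.g (nat_lit 2026) (.e (nat_lit 1659) (nat_lit 115) (.e (nat_lit 393301) (nat_lit 27) (.e (nat_lit 491559) (nat_lit 10) (.e (nat_lit 344170) (nat_lit 41) (.e (nat_lit 753685) (nat_lit 8) .nil))))) .nil))) (.nd (nat_lit 5) 
(.lf (nat_lit 70366) (.g (nat_lit 2410) (.e (nat_lit 1659) (nat_lit 115) (.e (nat_lit 393301) (nat_lit 27) (.e (nat_lit 491559) (nat_lit 10) (.e (nat_lit 344096) (nat_lit 18) (.e (nat_lit 6850) (nat_lit 371) .nil))))) .nil)) 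
(.lf (nat_lit 70398) (.g (nat_lit 3441) (.e (nat_lit 1659) (nat_lit 115) (.e (nat_lit 393301) (nat_lit 27) (.e (nat_lit 491559) (nat_lit 10) (.e (nat_lit 344177) (nat_lit 43) (.e (nat_lit 770068) (nat_lit 7) (.e (nat_lit 65280) (nat_lit 187) .nil)))))) (.g (nat_lit 5) .nil .nil)))))))) (.nd (nat_lit 1) (.nd (nat_lit 2) (.nd (nat_lit 3) (.nd (nat_lit 4) (.nd (nat_lit 5) 
(.lf (nat_lit 70337) (.g (nat_lit 3857) (.e (nat_lit 1659) (nat_lit 115) (.e (nat_lit 393301) (nat_lit 27) (.e (nat_lit 491559) (nat_lit 10) (.e (nat_lit 344091) (nat_lit 18) (.e (nat_lit 7124) (nat_lit 382) (.e (nat_lit 1183) (nat_lit 87) (.e (nat_lit 57740) (nat_lit 187) .nil))))))) (.g (nat_lit 5) .nil .nil))) 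
(.lf (nat_lit 70369) (.g (nat_lit 2423) (.e (nat_lit 1659) (nat_lit 115) (.e (nat_lit 393301) (nat_lit 27) (.e (nat_lit 491559) (nat_lit 10) (.e (nat_lit 344096) (nat_lit 18) (.e (nat_lit 7263) (nat_lit 384) .nil))))) .nil))) (.nd (nat_lit 5) 
(.lf (nat_lit 70353) (.g (nat_lit 4980) (.e (nat_lit 1659) (nat_lit 115) (.e (nat_lit 393301) (nat_lit 27) (.e (nat_lit 491559) (nat_lit 10) (.e (nat_lit 344091) (nat_lit 18) (.e (nat_lit 7265) (nat_lit 384) (.e (nat_lit 57347) (nat_lit 0) (.e (nat_lit 6450) (nat_lit 343) .nil))))))) (.g (nat_lit 6) .nil .nil))) 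
(.lf (nat_lit 70385) (.g (nat_lit 1806) (.e (nat_lit 1659) (nat_lit 115) (.e (nat_lit 393301) (nat_lit 27) (.e (nat_lit 491559) (nat_lit 10) (.e (nat_lit 344175) (nat_lit 43) .nil)))) .nil)))) (.nd (nat_lit 4) (.nd (nat_lit 5) 
(.lf (nat_lit 70345) (.g (nat_lit 2909) (.e (nat_lit 1659) (nat_lit 115) (.e (nat_lit 393301) (nat_lit 27) (.e (nat_lit 491559) (nat_lit 10) (.e (nat_lit 344091) (nat_lit 18) (.e (nat_lit 7247) (nat_lit 383) (.e (nat_lit 8194) (nat_lit 0) (.e (nat_lit 5323) (nat_lit 298) .nil))))))) (.g (nat_lit 4) .nil .nil))) 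
(.lf (nat_lit 70377) (.g (nat_lit 2437) (.e (nat_lit 1659) (nat_lit 115) (.e (nat_lit 393301) (nat_lit 27) (.e (nat_lit 491559) (nat_lit 10) (.e (nat_lit 344097) (nat_lit 18) (.e (nat_lit 7270) (nat_lit 385) .nil))))) .nil))) (.nd (nat_lit 5) 
(.lf (nat_lit 70361) (.g (nat_lit 1793) (.e (nat_lit 1659) (nat_lit 115) (.e (nat_lit 393301) (nat_lit 27) (.e (nat_lit 491559) (nat_lit 10) (.e (nat_lit 344094) (nat_lit 18) .nil)))) .nil)) 
(.lf (nat_lit 70393) (.g (nat_lit 2604) (.e (nat_lit 1659) (nat_lit 115) (.e (nat_lit 393301) (nat_lit 27) (.e (nat_lit 491559) (nat_lit 10) (.e (nat_lit 344177) (nat_lit 43) (.e (nat_lit 770067) (nat_lit 7) (.e (nat_lit 57741) (nat_lit 187) .nil)))))) (.g (nat_lit 4) .nil .nil)))))) (.nd (nat_lit 3) (.nd (nat_lit 4) (.nd (nat_lit 5) 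
(.lf (nat_lit 70341) (.g (nat_lit 2830) (.e (nat_lit 1659) (nat_lit 115) (.e (nat_lit 393301) (nat_lit 27) (.e (nat_lit 491559) (nat_lit 10) (.e (nat_lit 344091) (nat_lit 18) (.e (nat_lit 7125) (nat_lit 382) (.e (nat_lit 1288) (nat_lit 95) (.e (nat_lit 123096) (nat_lit 187) .nil))))))) (.g (nat_lit 4) .nil .nil))) 
(.lf (nat_lit 70373) (.g (nat_lit 2862) (.e (nat_lit 1659) (nat_lit 115) (.e (nat_lit 393301) (nat_lit 27) (.e (nat_lit 491559) (nat_lit 10) (.e (nat_lit 344096) (nat_lit 18) (.e (nat_lit 7265) (nat_lit 384) (.e (nat_lit 57354) (nat_lit 0) (.e (nat_lit 6493) (nat_lit 343) .nil))))))) (.g (nat_lit 4) .nil .nil)))) (.nd (nat_lit 5) 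
(.lf (nat_lit 70357) (.g (nat_lit 3192) (.e (nat_lit 1659) (nat_lit 115) (.e (nat_lit 393301) (nat_lit 27) (.e (nat_lit 491559) (nat_lit 10) (.e (nat_lit 344091) (nat_lit 18) (.e (nat_lit 7265) (nat_lit 384) (.e (nat_lit 57354) (nat_lit 0) (.e (nat_lit 6489) (nat_lit 343) .nil))))))) (.g (nat_lit 4) .nil .nil))) 
(.lf (nat_lit 70389) (.g (nat_lit 1777) (.e (nat_lit 1659) (nat_lit 115) (.e (nat_lit 393301) (nat_lit 27) (.e (nat_lit 491559) (nat_lit 10) (.e (nat_lit 344177) (nat_lit 43) (.e (nat_lit 770056) (nat_lit 5) .nil))))) .nil)))) (.nd (nat_lit 4) (.nd (nat_lit 5) 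
(.lf (nat_lit 70349) (.g (nat_lit 2303) (.e (nat_lit 1659) (nat_lit 115) (.e (nat_lit 393301) (nat_lit 27) (.e (nat_lit 491559) (nat_lit 10) (.e (nat_lit 344091) (nat_lit 18) (.e (nat_lit 7261) (nat_lit 384) .nil))))) .nil)) 
(.lf (nat_lit 70381) (.g (nat_lit 1895) (.e (nat_lit 1659) (nat_lit 115) (.e (nat_lit 393301) (nat_lit 27) (.e (nat_lit 491559) (nat_lit 10) (.e (nat_lit 344170) (nat_lit 41) .nil)))) .nil))) (.nd (nat_lit 5) 
(.lf (nat_lit 70365) (.g (nat_lit 1793) (.e (nat_lit 1659) (nat_lit 115) (.e (nat_lit 393301) (nat_lit 27) (.e (nat_lit 491559) (nat_lit 10) (.e (nat_lit 344096) (nat_lit 18) .nil)))) .nil)) 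
(.lf (nat_lit 70397) (.g (nat_lit 3797) (.e (nat_lit 1659) (nat_lit 115) (.e (nat_lit 393301) (nat_lit 27) (.e (nat_lit 491559) (nat_lit 10) (.e (nat_lit 344177) (nat_lit 43) (.e (nat_lit 770068) (nat_lit 7) (.e (nat_lit 57741) (nat_lit 187) .nil)))))) (.g (nat_lit 6) .nil .nil))))))) (.nd (nat_lit 2) (.nd (nat_lit 3) (.nd (nat_lit 4) (.nd (nat_lit 5) 
(.lf (nat_lit 70339) (.g (nat_lit 3261) (.e (nat_lit 1659) (nat_lit 115) (.e (nat_lit 393301) (nat_lit 27) (.e (nat_lit 491559) (nat_lit 10) (.e (nat_lit 344091) (nat_lit 18) (.e (nat_lit 7124) (nat_lit 382) (.e (nat_lit 1183) (nat_lit 87) (.e (nat_lit 65280) (nat_lit 187) .nil))))))) (.g (nat_lit 5) .nil .nil))) 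
(.lf (nat_lit 70371) (.g (nat_lit 3582) (.e (nat_lit 1659) (nat_lit 115) (.e (nat_lit 393301) (nat_lit 27) (.e (nat_lit 491559) (nat_lit 10) (.e (nat_lit 344096) (nat_lit 18) (.e (nat_lit 7265) (nat_lit 384) (.e (nat_lit 57347) (nat_lit 0) (.e (nat_lit 6450) (nat_lit 343) .nil))))))) (.g (nat_lit 5) .nil .nil)))) (.nd (nat_lit 5) 
(.lf (nat_lit 70355) (.g (nat_lit 4284) (.e (nat_lit 1659) (nat_lit 115) (.e (nat_lit 393301) (nat_lit 27) (.e (nat_lit 491559) (nat_lit 10) (.e (nat_lit 344091) (nat_lit 18) (.e (nat_lit 7265) (nat_lit 384) (.e (nat_lit 57347) (nat_lit 0) (.e (nat_lit 6499) (nat_lit 343) .nil))))))) (.g (nat_lit 6) .nil .nil))) 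
(.lf (nat_lit 70387) (.g (nat_lit 2392) (.e (nat_lit 1659) (nat_lit 115) (.e (nat_lit 393301) (nat_lit 27) (.e (nat_lit 491559) (nat_lit 10) (.e (nat_lit 344177) (nat_lit 43) (.e (nat_lit 777984) (nat_lit 3) .nil))))) .nil)))) (.nd (nat_lit 4) (.nd (nat_lit 5) 
(.lf (nat_lit 70347) (.g (nat_lit 3103) (.e (nat_lit 1659) (nat_lit 115) (.e (nat_lit 393301) (nat_lit 27) (.e (nat_lit 491559) (nat_lit 10) (.e (nat_lit 344091) (nat_lit 18) (.e (nat_lit 7247) (nat_lit 383) (.e (nat_lit 8196) (nat_lit 0) (.e (nat_lit 5321) (nat_lit 298) .nil))))))) (.g (nat_lit 4) .nil .nil))) 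
(.lf (nat_lit 70379) (.g (nat_lit 2734) (.e (nat_lit 1659) (nat_lit 115) (.e (nat_lit 393301) (nat_lit 27) (.e (nat_lit 491559) (nat_lit 10) (.e (nat_lit 344097) (nat_lit 18) (.e (nat_lit 7272) (nat_lit 385) .nil))))) .nil))) (.nd (nat_lit 5) 
(.lf (nat_lit 70363) (.g (nat_lit 1848) (.e (nat_lit 1659) (nat_lit 115) (.e (nat_lit 393301) (nat_lit 27) (.e (nat_lit 491559) (nat_lit 10) (.e (nat_lit 344095) (nat_lit 18) .nil)))) .nil)) 
(.lf (nat_lit 70395) (.g (nat_lit 3226) (.e (nat_lit 1659) (nat_lit 115) (.e (nat_lit 393301) (nat_lit 27) (.e (nat_lit 491559) (nat_lit 10) (.e (nat_lit 344177) (nat_lit 43) (.e (nat_lit 770068) (nat_lit 7) (.e (nat_lit 57738) (nat_lit 187) .nil)))))) (.g (nat_lit 4) .nil .nil)))))) (.nd (nat_lit 3) (.nd (nat_lit 4) (.nd (nat_lit 5) 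
(.lf (nat_lit 70343) (.g (nat_lit 3194) (.e (nat_lit 1659) (nat_lit 115) (.e (nat_lit 393301) (nat_lit 27) (.e (nat_lit 491559) (nat_lit 10) (.e (nat_lit 344091) (nat_lit 18) (.e (nat_lit 7247) (nat_lit 383) (.e (nat_lit 8194) (nat_lit 0) (.e (nat_lit 5321) (nat_lit 298) .nil))))))) (.g (nat_lit 4) .nil .nil))) 
(.lf (nat_lit 70375) (.g (nat_lit 2736) (.e (nat_lit 1659) (nat_lit 115) (.e (nat_lit 393301) (nat_lit 27) (.e (nat_lit 491559) (nat_lit 10) (.e (nat_lit 344097) (nat_lit 18) (.e (nat_lit 7254) (nat_lit 383) .nil))))) .nil))) (.nd (nat_lit 5) 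
(.lf (nat_lit 70359) (.g (nat_lit 3341) (.e (nat_lit 1659) (nat_lit 115) (.e (nat_lit 393301) (nat_lit 27) (.e (nat_lit 491559) (nat_lit 10) (.e (nat_lit 344091) (nat_lit 18) (.e (nat_lit 7265) (nat_lit 384) (.e (nat_lit 57354) (nat_lit 0) (.e (nat_lit 7936) (nat_lit 343) .nil))))))) (.g (nat_lit 5) .nil .nil))) 
(.lf (nat_lit 70391) (.g (nat_lit 2521) (.e (nat_lit 1659) (nat_lit 115) (.e (nat_lit 393301) (nat_lit 27) (.e (nat_lit 491559) (nat_lit 10) (.e (nat_lit 344177) (nat_lit 43) (.e (nat_lit 770058) (nat_lit 5) (.e (nat_lit 985) (nat_lit 81) (.e (nat_lit 6492) (nat_lit 343) .nil))))))) (.g (nat_lit 4) .nil .nil))))) (.nd (nat_lit 4) (.nd (nat_lit 5) 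
(.lf (nat_lit 70351) (.g (nat_lit 4294) (.e (nat_lit 1659) (nat_lit 115) (.e (nat_lit 393301) (nat_lit 27) (.e (nat_lit 491559) (nat_lit 10) (.e (nat_lit 344091) (nat_lit 18) (.e (nat_lit 7263) (nat_lit 384) (.e (nat_lit 57354) (nat_lit 0) (.e (nat_lit 6493) (nat_lit 343) .nil))))))) (.g (nat_lit 6) .nil .nil))) 
(.lf (nat_lit 70383) (.g (nat_lit 2863) (.e (nat_lit 1659) (nat_lit 115) (.e (nat_lit 393301) (nat_lit 27) (.e (nat_lit 491559) (nat_lit 10) (.e (nat_lit 344170) (nat_lit 41) (.e (nat_lit 753686) (nat_lit 8) (.e (nat_lit 164238) (nat_lit 187) .nil)))))) (.g (nat_lit 4) .nil .nil)))) (.nd (nat_lit 5) 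
(.lf (nat_lit 70367) (.g (nat_lit 3227) (.e (nat_lit 1659) (nat_lit 115) (.e (nat_lit 393301) (nat_lit 27) (.e (nat_lit 491559) (nat_lit 10) (.e (nat_lit 344096) (nat_lit 18) (.e (nat_lit 7122) (nat_lit 382) (.e (nat_lit 1183) (nat_lit 87) (.e (nat_lit 57741) (nat_lit 187) .nil))))))) (.g (nat_lit 4) .nil .nil))) 
(.lf (nat_lit 70399) (.g (nat_lit 3655) (.e (nat_lit 1659) (nat_lit 115) (.e (nat_lit 393301) (nat_lit 27) (.e (nat_lit 491559) (nat_lit 10) (.e (nat_lit 344177) (nat_lit 43) (.e (nat_lit 770069) (nat_lit 7) (.e (nat_lit 57738) (nat_lit 187) .nil)))))) (.g (nat_lit 5) .nil .nil)))))))))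

noncomputable def tv962 : DT := (.nd (nat_lit 0) (.nd (nat_lit 1) (.nd (nat_lit 2) (.nd (nat_lit 3) (.nd (nat_lit 4) (.nd (nat_lit 5) 
(.lf (nat_lit 70400) (.g (nat_lit 3217) (.e (nat_lit 1659) (nat_lit 115) (.e (nat_lit 393301) (nat_lit 27) (.e (nat_lit 491559) (nat_lit 10) (.e (nat_lit 344177) (nat_lit 43) (.e (nat_lit 770069) (nat_lit 7) (.e (nat_lit 57740) (nat_lit 187) .nil)))))) (.g (nat_lit 4) .nil .nil))) 
(.lf (nat_lit 70432) (.g (nat_lit 2291) (.e (nat_lit 1659) (nat_lit 115) (.e (nat_lit 393301) (nat_lit 27) (.e (nat_lit 491560) (nat_lit 10) (.e (nat_lit 344090) (nat_lit 18) (.e (nat_lit 6853) (nat_lit 371) .nil))))) .nil))) (.nd (nat_lit 5) 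
(.lf (nat_lit 70416) (.g (nat_lit 4037) (.e (nat_lit 1659) (nat_lit 115) (.e (nat_lit 393301) (nat_lit 27) (.e (nat_lit 491560) (nat_lit 10) (.e (nat_lit 344087) (nat_lit 18) (.e (nat_lit 7265) (nat_lit 384) (.e (nat_lit 57347) (nat_lit 0) (.e (nat_lit 6499) (nat_lit 343) .nil))))))) (.g (nat_lit 6) .nil .nil))) 
(.lf (nat_lit 70448) (.g (nat_lit 3103) (.e (nat_lit 1659) (nat_lit 115) (.e (nat_lit 393301) (nat_lit 27) (.e (nat_lit 491560) (nat_lit 10) (.e (nat_lit 344090) (nat_lit 18) (.e (nat_lit 7247) (nat_lit 383) (.e (nat_lit 8192) (nat_lit 0) (.e (nat_lit 5323) (nat_lit 298) .nil))))))) (.g (nat_lit 4) .nil .nil))))) (.nd (nat_lit 4) (.nd (nat_lit 5) 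
(.lf (nat_lit 70408) (.g (nat_lit 4186) (.e (nat_lit 1659) (nat_lit 115) (.e (nat_lit 393301) (nat_lit 27) (.e (nat_lit 491560) (nat_lit 10) (.e (nat_lit 344087) (nat_lit 18) (.e (nat_lit 7122) (nat_lit 382) (.e (nat_lit 1183) (nat_lit 87) (.e (nat_lit 57741) (nat_lit 187) .nil))))))) (.g (nat_lit 6) .nil .nil))) 
(.lf (nat_lit 70440) (.g (nat_lit 4554) (.e (nat_lit 1659) (nat_lit 115) (.e (nat_lit 393301) (nat_lit 27) (.e (nat_lit 491560) (nat_lit 10) (.e (nat_lit 344090) (nat_lit 18) (.e (nat_lit 7124) (nat_lit 382) (.e (nat_lit 1183) (nat_lit 87) (.e (nat_lit 57740) (nat_lit 187) .nil))))))) (.g (nat_lit 6) .nil .nil)))) (.nd (nat_lit 5) 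
(.lf (nat_lit 70424) (.g (nat_lit 2700) (.e (nat_lit 1659) (nat_lit 115) (.e (nat_lit 393301) (nat_lit 27) (.e (nat_lit 491560) (nat_lit 10) (.e (nat_lit 344088) (nat_lit 18) (.e (nat_lit 6943) (nat_lit 375) .nil))))) .nil)) 
(.lf (nat_lit 70456) (.g (nat_lit 3555) (.e (nat_lit 1659) (nat_lit 115) (.e (nat_lit 393301) (nat_lit 27) (.e (nat_lit 491560) (nat_lit 10) (.e (nat_lit 344090) (nat_lit 18) (.e (nat_lit 7247) (nat_lit 383) (.e (nat_lit 8195) (nat_lit 0) (.e (nat_lit 5321) (nat_lit 298) .nil))))))) (.g (nat_lit 5) .nil .nil)))))) (.nd (nat_lit 3) (.nd (nat_lit 4) (.nd (nat_lit 5) 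
(.lf (nat_lit 70404) (.g (nat_lit 2877) (.e (nat_lit 1659) (nat_lit 115) (.e (nat_lit 393301) (nat_lit 27) (.e (nat_lit 491559) (nat_lit 10) (.e (nat_lit 344177) (nat_lit 43) (.e (nat_lit 770075) (nat_lit 11) (.e (nat_lit 123097) (nat_lit 187) .nil)))))) (.g (nat_lit 4) .nil .nil))) 
(.lf (nat_lit 70436) (.g (nat_lit 3312) (.e (nat_lit 1659) (nat_lit 115) (.e (nat_lit 393301) (nat_lit 27) (.e (nat_lit 491560) (nat_lit 10) (.e (nat_lit 344090) (nat_lit 18) (.e (nat_lit 6942) (nat_lit 375) (.e (nat_lit 163843) (nat_lit 0) (.e (nat_lit 7562) (nat_lit 402) .nil))))))) (.g (nat_lit 5) .nil .nil)))) (.nd (nat_lit 5) 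
(.lf (nat_lit 70420) (.g (nat_lit 5201) (.e (nat_lit 1659) (nat_lit 115) (.e (nat_lit 393301) (nat_lit 27) (.e (nat_lit 491560) (nat_lit 10) (.e (nat_lit 344088) (nat_lit 18) (.e (nat_lit 6923) (nat_lit 371) (.e (nat_lit 2610) (nat_lit 163) (.e (nat_lit 164239) (nat_lit 187) .nil))))))) (.g (nat_lit 7) .nil .nil))) 
(.lf (nat_lit 70452) (.g (nat_lit 4427) (.e (nat_lit 1659) (nat_lit 115) (.e (nat_lit 393301) (nat_lit 27) (.e (nat_lit 491560) (nat_lit 10) (.e (nat_lit 344090) (nat_lit 18) (.e (nat_lit 7247) (nat_lit 383) (.e (nat_lit 8194) (nat_lit 0) (.e (nat_lit 5321) (nat_lit 298) .nil))))))) (.g (nat_lit 0) .nil .nil))))) (.nd (nat_lit 4) (.nd (nat_lit 5) 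
(.lf (nat_lit 70412) (.g (nat_lit 3146) (.e (nat_lit 1659) (nat_lit 115) (.e (nat_lit 393301) (nat_lit 27) (.e (nat_lit 491560) (nat_lit 10) (.e (nat_lit 344087) (nat_lit 18) (.e (nat_lit 7247) (nat_lit 383) (.e (nat_lit 8194) (nat_lit 0) (.e (nat_lit 5355) (nat_lit 298) .nil))))))) (.g (nat_lit 4) .nil .nil))) 
(.lf (nat_lit 70444) (.g (nat_lit 3297) (.e (nat_lit 1659) (nat_lit 115) (.e (nat_lit 393301) (nat_lit 27) (.e (nat_lit 491560) (nat_lit 10) (.e (nat_lit 344090) (nat_lit 18) (.e (nat_lit 7125) (nat_lit 382) (.e (nat_lit 1183) (nat_lit 87) (.e (nat_lit 65280) (nat_lit 187) .nil))))))) (.g (nat_lit 5) .nil .nil)))) (.nd (nat_lit 5) 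
(.lf (nat_lit 70428) (.g (nat_lit 2700) (.e (nat_lit 1659) (nat_lit 115) (.e (nat_lit 393301) (nat_lit 27) (.e (nat_lit 491560) (nat_lit 10) (.e (nat_lit 344088) (nat_lit 18) (.e (nat_lit 7263) (nat_lit 384) .nil))))) .nil)) 
(.lf (nat_lit 70460) (.g (nat_lit 3492) (.e (nat_lit 1659) (nat_lit 115) (.e (nat_lit 393301) (nat_lit 27) (.e (nat_lit 491560) (nat_lit 10) (.e (nat_lit 344090) (nat_lit 18) (.e (nat_lit 7247) (nat_lit 383) (.e (nat_lit 8196) (nat_lit 0) (.e (nat_lit 5322) (nat_lit 298) .nil))))))) (.g (nat_lit 5) .nil .nil))))))) (.nd (nat_lit 2) (.nd (nat_lit 3) (.nd (nat_lit 4) (.nd (nat_lit 5) 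
(.lf (nat_lit 70402) (.g (nat_lit 3719) (.e (nat_lit 1659) (nat_lit 115) (.e (nat_lit 393301) (nat_lit 27) (.e (nat_lit 491559) (nat_lit 10) (.e (nat_lit 344177) (nat_lit 43) (.e (nat_lit 770069) (nat_lit 7) (.e (nat_lit 65280) (nat_lit 187) .nil)))))) (.g (nat_lit 5) .nil .nil))) 
(.lf (nat_lit 70434) (.g (nat_lit 5043) (.e (nat_lit 1659) (nat_lit 115) (.e (nat_lit 393301) (nat_lit 27) (.e (nat_lit 491560) (nat_lit 10) (.e (nat_lit 344090) (nat_lit 18) (.e (nat_lit 6923) (nat_lit 371) (.e (nat_lit 2610) (nat_lit 163) (.e (nat_lit 164239) (nat_lit 187) .nil))))))) (.g (nat_lit 7) .nil .nil)))) (.nd (nat_lit 5) 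
(.lf (nat_lit 70418) (.g (nat_lit 3073) (.e (nat_lit 1659) (nat_lit 115) (.e (nat_lit 393301) (nat_lit 27) (.e (nat_lit 491560) (nat_lit 10) (.e (nat_lit 344087) (nat_lit 18) (.e (nat_lit 7265) (nat_lit 384) (.e (nat_lit 57354) (nat_lit 0) (.e (nat_lit 7936) (nat_lit 343) .nil))))))) (.g (nat_lit 4) .nil .nil))) 
(.lf (nat_lit 70450) (.g (nat_lit 2981) (.e (nat_lit 1659) (nat_lit 115) (.e (nat_lit 393301) (nat_lit 27) (.e (nat_lit 491560) (nat_lit 10) (.e (nat_lit 344090) (nat_lit 18) (.e (nat_lit 7247) (nat_lit 383) (.e (nat_lit 8192) (nat_lit 0) (.e (nat_lit 5355) (nat_lit 298) .nil))))))) (.g (nat_lit 4) .nil .nil))))) (.nd (nat_lit 4) (.nd (nat_lit 5) 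
(.lf (nat_lit 70410) (.g (nat_lit 3509) (.e (nat_lit 1659) (nat_lit 115) (.e (nat_lit 393301) (nat_lit 27) (.e (nat_lit 491560) (nat_lit 10) (.e (nat_lit 344087) (nat_lit 18) (.e (nat_lit 7124) (nat_lit 382) (.e (nat_lit 1183) (nat_lit 87) (.e (nat_lit 65280) (nat_lit 187) .nil))))))) (.g (nat_lit 5) .nil .nil))) 
(.lf (nat_lit 70442) (.g (nat_lit 3813) (.e (nat_lit 1659) (nat_lit 115) (.e (nat_lit 393301) (nat_lit 27) (.e (nat_lit 491560) (nat_lit 10) (.e (nat_lit 344090) (nat_lit 18) (.e (nat_lit 7124) (nat_lit 382) (.e (nat_lit 1183) (nat_lit 87) (.e (nat_lit 65280) (nat_lit 187) .nil))))))) (.g (nat_lit 5) .nil .nil)))) (.nd (nat_lit 5) 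
(.lf (nat_lit 70426) (.g (nat_lit 2700) (.e (nat_lit 1659) (nat_lit 115) (.e (nat_lit 393301) (nat_lit 27) (.e (nat_lit 491560) (nat_lit 10) (.e (nat_lit 344088) (nat_lit 18) (.e (nat_lit 7125) (nat_lit 382) .nil))))) .nil)) 
(.lf (nat_lit 70458) (.g (nat_lit 3213) (.e (nat_lit 1659) (nat_lit 115) (.e (nat_lit 393301) (nat_lit 27) (.e (nat_lit 491560) (nat_lit 10) (.e (nat_lit 344090) (nat_lit 18) (.e (nat_lit 7247) (nat_lit 383) (.e (nat_lit 8195) (nat_lit 0) (.e (nat_lit 5323) (nat_lit 298) .nil))))))) (.g (nat_lit 4) .nil .nil)))))) (.nd (nat_lit 3) (.nd (nat_lit 4) (.nd (nat_lit 5) 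
(.lf (nat_lit 70406) (.g (nat_lit 2008) (.e (nat_lit 1659) (nat_lit 115) (.e (nat_lit 393301) (nat_lit 27) (.e (nat_lit 491560) (nat_lit 10) (.e (nat_lit 344087) (nat_lit 18) .nil)))) .nil)) 
(.lf (nat_lit 70438) (.g (nat_lit 4530) (.e (nat_lit 1659) (nat_lit 115) (.e (nat_lit 393301) (nat_lit 27) (.e (nat_lit 491560) (nat_lit 10) (.e (nat_lit 344090) (nat_lit 18) (.e (nat_lit 7122) (nat_lit 382) (.e (nat_lit 1183) (nat_lit 87) (.e (nat_lit 57741) (nat_lit 187) .nil))))))) (.g (nat_lit 6) .nil .nil)))) (.nd (nat_lit 5) 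
(.lf (nat_lit 70422) (.g (nat_lit 2696) (.e (nat_lit 1659) (nat_lit 115) (.e (nat_lit 393301) (nat_lit 27) (.e (nat_lit 491560) (nat_lit 10) (.e (nat_lit 344088) (nat_lit 18) (.e (nat_lit 6940) (nat_lit 375) .nil))))) .nil)) 
(.lf (nat_lit 70454) (.g (nat_lit 3138) (.e (nat_lit 1659) (nat_lit 115) (.e (nat_lit 393301) (nat_lit 27) (.e (nat_lit 491560) (nat_lit 10) (.e (nat_lit 344090) (nat_lit 18) (.e (nat_lit 7247) (nat_lit 383) (.e (nat_lit 8194) (nat_lit 0) (.e (nat_lit 5331) (nat_lit 298) .nil))))))) (.g (nat_lit 4) .nil .nil))))) (.nd (nat_lit 4) (.nd (nat_lit 5) 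
(.lf (nat_lit 70414) (.g (nat_lit 2246) (.e (nat_lit 1659) (nat_lit 115) (.e (nat_lit 393301) (nat_lit 27) (.e (nat_lit 491560) (nat_lit 10) (.e (nat_lit 344087) (nat_lit 18) (.e (nat_lit 7257) (nat_lit 383) .nil))))) .nil)) 
(.lf (nat_lit 70446) (.g (nat_lit 2395) (.e (nat_lit 1659) (nat_lit 115) (.e (nat_lit 393301) (nat_lit 27) (.e (nat_lit 491560) (nat_lit 10) (.e (nat_lit 344090) (nat_lit 18) (.e (nat_lit 7247) (nat_lit 383) .nil))))) .nil))) (.nd (nat_lit 5) 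
(.lf (nat_lit 70430) (.g (nat_lit 2433) (.e (nat_lit 1659) (nat_lit 115) (.e (nat_lit 393301) (nat_lit 27) (.e (nat_lit 491560) (nat_lit 10) (.e (nat_lit 344089) (nat_lit 18) .nil)))) .nil)) 
(.lf (nat_lit 70462) (.g (nat_lit 3139) (.e (nat_lit 1659) (nat_lit 115) (.e (nat_lit 393301) (nat_lit 27) (.e (nat_lit 491560) (nat_lit 10) (.e (nat_lit 344090) (nat_lit 18) (.e (nat_lit 7247) (nat_lit 383) (.e (nat_lit 8197) (nat_lit 0) (.e (nat_lit 5321) (nat_lit 298) .nil))))))) (.g (nat_lit 4) .nil .nil)))))))) 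
(.nd (nat_lit 1) (.nd (nat_lit 2) (.nd (nat_lit 3) (.nd (nat_lit 4) (.nd (nat_lit 5) 
(.lf (nat_lit 70401) (.g (nat_lit 4130) (.e (nat_lit 1659) (nat_lit 115) (.e (nat_lit 393301) (nat_lit 27) (.e (nat_lit 491559) (nat_lit 10) (.e (nat_lit 344177) (nat_lit 43) (.e (nat_lit 770069) (nat_lit 7) (.e (nat_lit 57741) (nat_lit 187) .nil)))))) (.g (nat_lit 6) .nil .nil))) 
(.lf (nat_lit 70433) (.g (nat_lit 2270) (.e (nat_lit 1659) (nat_lit 115) (.e (nat_lit 393301) (nat_lit 27) (.e (nat_lit 491560) (nat_lit 10) (.e (nat_lit 344090) (nat_lit 18) (.e (nat_lit 6869) (nat_lit 371) .nil))))) .nil))) (.nd (nat_lit 5) 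
(.lf (nat_lit 70417) (.g (nat_lit 3004) (.e (nat_lit 1659) (nat_lit 115) (.e (nat_lit 393301) (nat_lit 27) (.e (nat_lit 491560) (nat_lit 10) (.e (nat_lit 344087) (nat_lit 18) (.e (nat_lit 7265) (nat_lit 384) (.e (nat_lit 57354) (nat_lit 0) (.e (nat_lit 6489) (nat_lit 343) .nil))))))) (.g (nat_lit 4) .nil .nil))) 
(.lf (nat_lit 70449) (.g (nat_lit 2852) (.e (nat_lit 1659) (nat_lit 115) (.e (nat_lit 393301) (nat_lit 27) (.e (nat_lit 491560) (nat_lit 10) (.e (nat_lit 344090) (nat_lit 18) (.e (nat_lit 7247) (nat_lit 383) (.e (nat_lit 8192) (nat_lit 0) (.e (nat_lit 5325) (nat_lit 298) .nil))))))) (.g (nat_lit 4) .nil .nil))))) (.nd (nat_lit 4) (.nd (nat_lit 5) 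
(.lf (nat_lit 70409) (.g (nat_lit 4250) (.e (nat_lit 1659) (nat_lit 115) (.e (nat_lit 393301) (nat_lit 27) (.e (nat_lit 491560) (nat_lit 10) (.e (nat_lit 344087) (nat_lit 18) (.e (nat_lit 7124) (nat_lit 382) (.e (nat_lit 1183) (nat_lit 87) (.e (nat_lit 57740) (nat_lit 187) .nil))))))) (.g (nat_lit 6) .nil .nil))) 
(.lf (nat_lit 70441) (.g (nat_lit 5050) (.e (nat_lit 1659) (nat_lit 115) (.e (nat_lit 393301) (nat_lit 27) (.e (nat_lit 491560) (nat_lit 10) (.e (nat_lit 344090) (nat_lit 18) (.e (nat_lit 7124) (nat_lit 382) (.e (nat_lit 1183) (nat_lit 87) (.e (nat_lit 57741) (nat_lit 187) .nil))))))) (.g (nat_lit 7) .nil .nil)))) (.nd (nat_lit 5) 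
(.lf (nat_lit 70425) (.g (nat_lit 3536) (.e (nat_lit 1659) (nat_lit 115) (.e (nat_lit 393301) (nat_lit 27) (.e (nat_lit 491560) (nat_lit 10) (.e (nat_lit 344088) (nat_lit 18) (.e (nat_lit 7122) (nat_lit 382) (.e (nat_lit 1183) (nat_lit 87) (.e (nat_lit 57741) (nat_lit 187) .nil))))))) (.g (nat_lit 4) .nil .nil))) 
(.lf (nat_lit 70457) (.g (nat_lit 3257) (.e (nat_lit 1659) (nat_lit 115) (.e (nat_lit 393301) (nat_lit 27) (.e (nat_lit 491560) (nat_lit 10) (.e (nat_lit 344090) (nat_lit 18) (.e (nat_lit 7247) (nat_lit 383) (.e (nat_lit 8195) (nat_lit 0) (.e (nat_lit 5322) (nat_lit 298) .nil))))))) (.g (nat_lit 4) .nil .nil)))))) (.nd (nat_lit 3) (.nd (nat_lit 4) (.nd (nat_lit 5) 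
(.lf (nat_lit 70405) (.g (nat_lit 1824) (.e (nat_lit 1659) (nat_lit 115) (.e (nat_lit 393301) (nat_lit 27) (.e (nat_lit 491559) (nat_lit 10) (.e (nat_lit 352000) (nat_lit 46) .nil)))) .nil)) 
(.lf (nat_lit 70437) (.g (nat_lit 3689) (.e (nat_lit 1659) (nat_lit 115) (.e (nat_lit 393301) (nat_lit 27) (.e (nat_lit 491560) (nat_lit 10) (.e (nat_lit 344090) (nat_lit 18) (.e (nat_lit 6942) (nat_lit 375) (.e (nat_lit 163850) (nat_lit 0) (.e (nat_lit 7556) (nat_lit 402) .nil))))))) (.g (nat_lit 7) .nil .nil)))) (.nd (nat_lit 5) 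
(.lf (nat_lit 70421) (.g (nat_lit 3365) (.e (nat_lit 1659) (nat_lit 115) (.e (nat_lit 393301) (nat_lit 27) (.e (nat_lit 491560) (nat_lit 10) (.e (nat_lit 344088) (nat_lit 18) (.e (nat_lit 6924) (nat_lit 371) (.e (nat_lit 2610) (nat_lit 163) (.e (nat_lit 164239) (nat_lit 187) .nil))))))) (.g (nat_lit 4) .nil .nil))) 
(.lf (nat_lit 70453) (.g (nat_lit 4398) (.e (nat_lit 1659) (nat_lit 115) (.e (nat_lit 393301) (nat_lit 27) (.e (nat_lit 491560) (nat_lit 10) (.e (nat_lit 344090) (nat_lit 18) (.e (nat_lit 7247) (nat_lit 383) (.e (nat_lit 8194) (nat_lit 0) (.e (nat_lit 5322) (nat_lit 298) .nil))))))) (.g (nat_lit 0) .nil .nil))))) (.nd (nat_lit 4) (.nd (nat_lit 5) 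
(.lf (nat_lit 70413) (.g (nat_lit 3429) (.e (nat_lit 1659) (nat_lit 115) (.e (nat_lit 393301) (nat_lit 27) (.e (nat_lit 491560) (nat_lit 10) (.e (nat_lit 344087) (nat_lit 18) (.e (nat_lit 7251) (nat_lit 383) (.e (nat_lit 8195) (nat_lit 0) (.e (nat_lit 5323) (nat_lit 298) .nil))))))) (.g (nat_lit 7) .nil .nil))) 
(.lf (nat_lit 70445) (.g (nat_lit 3557) (.e (nat_lit 1659) (nat_lit 115) (.e (nat_lit 393301) (nat_lit 27) (.e (nat_lit 491560) (nat_lit 10) (.e (nat_lit 344090) (nat_lit 18) (.e (nat_lit 7125) (nat_lit 382) (.e (nat_lit 1288) (nat_lit 95) (.e (nat_lit 123096) (nat_lit 187) .nil))))))) (.g (nat_lit 5) .nil .nil)))) (.nd (nat_lit 5) 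
(.lf (nat_lit 70429) (.g (nat_lit 2700) (.e (nat_lit 1659) (nat_lit 115) (.e (nat_lit 393301) (nat_lit 27) (.e (nat_lit 491560) (nat_lit 10) (.e (nat_lit 344088) (nat_lit 18) (.e (nat_lit 7265) (nat_lit 384) .nil))))) .nil)) 
(.lf (nat_lit 70461) (.g (nat_lit 4053) (.e (nat_lit 1659) (nat_lit 115) (.e (nat_lit 393301) (nat_lit 27) (.e (nat_lit 491560) (nat_lit 10) (.e (nat_lit 344090) (nat_lit 18) (.e (nat_lit 7247) (nat_lit 383) (.e (nat_lit 8196) (nat_lit 0) (.e (nat_lit 5323) (nat_lit 298) .nil))))))) (.g (nat_lit 0) .nil .nil))))))) (.nd (nat_lit 2) (.nd (nat_lit 3) (.nd (nat_lit 4) (.nd (nat_lit 5) 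
(.lf (nat_lit 70403) (.g (nat_lit 3584) (.e (nat_lit 1659) (nat_lit 115) (.e (nat_lit 393301) (nat_lit 27) (.e (nat_lit 491559) (nat_lit 10) (.e (nat_lit 344177) (nat_lit 43) (.e (nat_lit 770075) (nat_lit 11) (.e (nat_lit 123096) (nat_lit 187) .nil)))))) (.g (nat_lit 0) .nil .nil))) 
(.lf (nat_lit 70435) (.g (nat_lit 2416) (.e (nat_lit 1659) (nat_lit 115) (.e (nat_lit 393301) (nat_lit 27) (.e (nat_lit 491560) (nat_lit 10) (.e (nat_lit 344090) (nat_lit 18) (.e (nat_lit 6940) (nat_lit 375) (.e (nat_lit 163850) (nat_lit 0) (.e (nat_lit 7556) (nat_lit 402) .nil))))))) (.g (nat_lit 4) .nil .nil)))) (.nd (nat_lit 5) 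
(.lf (nat_lit 70419) (.g (nat_lit 2153) (.e (nat_lit 1659) (nat_lit 115) (.e (nat_lit 393301) (nat_lit 27) (.e (nat_lit 491560) (nat_lit 10) (.e (nat_lit 344088) (nat_lit 18) .nil)))) .nil)) 
(.lf (nat_lit 70451) (.g (nat_lit 2983) (.e (nat_lit 1659) (nat_lit 115) (.e (nat_lit 393301) (nat_lit 27) (.e (nat_lit 491560) (nat_lit 10) (.e (nat_lit 344090) (nat_lit 18) (.e (nat_lit 7247) (nat_lit 383) (.e (nat_lit 8193) (nat_lit 0) (.e (nat_lit 5355) (nat_lit 298) .nil))))))) (.g (nat_lit 4) .nil .nil))))) (.nd (nat_lit 4) (.nd (nat_lit 5) 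
(.lf (nat_lit 70411) (.g (nat_lit 2246) (.e (nat_lit 1659) (nat_lit 115) (.e (nat_lit 393301) (nat_lit 27) (.e (nat_lit 491560) (nat_lit 10) (.e (nat_lit 344087) (nat_lit 18) (.e (nat_lit 7167) (nat_lit 382) .nil))))) .nil)) 
(.lf (nat_lit 70443) (.g (nat_lit 4040) (.e (nat_lit 1659) (nat_lit 115) (.e (nat_lit 393301) (nat_lit 27) (.e (nat_lit 491560) (nat_lit 10) (.e (nat_lit 344090) (nat_lit 18) (.e (nat_lit 7125) (nat_lit 382) (.e (nat_lit 1183) (nat_lit 87) (.e (nat_lit 57740) (nat_lit 187) .nil))))))) (.g (nat_lit 6) .nil .nil)))) (.nd (nat_lit 5) 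
(.lf (nat_lit 70427) (.g (nat_lit 2698) (.e (nat_lit 1659) (nat_lit 115) (.e (nat_lit 393301) (nat_lit 27) (.e (nat_lit 491560) (nat_lit 10) (.e (nat_lit 344088) (nat_lit 18) (.e (nat_lit 7247) (nat_lit 383) .nil))))) .nil)) 
(.lf (nat_lit 70459) (.g (nat_lit 4348) (.e (nat_lit 1659) (nat_lit 115) (.e (nat_lit 393301) (nat_lit 27) (.e (nat_lit 491560) (nat_lit 10) (.e (nat_lit 344090) (nat_lit 18) (.e (nat_lit 7247) (nat_lit 383) (.e (nat_lit 8196) (nat_lit 0) (.e (nat_lit 5321) (nat_lit 298) .nil))))))) (.g (nat_lit 0) .nil .nil)))))) (.nd (nat_lit 3) (.nd (nat_lit 4) (.nd (nat_lit 5) 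
(.lf (nat_lit 70407) (.g (nat_lit 4361) (.e (nat_lit 1659) (nat_lit 115) (.e (nat_lit 393301) (nat_lit 27) (.e (nat_lit 491560) (nat_lit 10) (.e (nat_lit 344087) (nat_lit 18) (.e (nat_lit 6850) (nat_lit 371) (.e (nat_lit 2612) (nat_lit 163) (.e (nat_lit 164239) (nat_lit 187) .nil))))))) (.g (nat_lit 7) .nil .nil))) 
(.lf (nat_lit 70439) (.g (nat_lit 3241) (.e (nat_lit 1659) (nat_lit 115) (.e (nat_lit 393301) (nat_lit 27) (.e (nat_lit 491560) (nat_lit 10) (.e (nat_lit 344090) (nat_lit 18) (.e (nat_lit 7122) (nat_lit 382) (.e (nat_lit 1183) (nat_lit 87) (.e (nat_lit 65280) (nat_lit 187) .nil))))))) (.g (nat_lit 5) .nil .nil)))) (.nd (nat_lit 5) 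
(.lf (nat_lit 70423) (.g (nat_lit 4078) (.e (nat_lit 1659) (nat_lit 115) (.e (nat_lit 393301) (nat_lit 27) (.e (nat_lit 491560) (nat_lit 10) (.e (nat_lit 344088) (nat_lit 18) (.e (nat_lit 6940) (nat_lit 375) (.e (nat_lit 163850) (nat_lit 0) (.e (nat_lit 7556) (nat_lit 402) .nil))))))) (.g (nat_lit 7) .nil .nil))) 
(.lf (nat_lit 70455) (.g (nat_lit 4901) (.e (nat_lit 1659) (nat_lit 115) (.e (nat_lit 393301) (nat_lit 27) (.e (nat_lit 491560) (nat_lit 10) (.e (nat_lit 344090) (nat_lit 18) (.e (nat_lit 7247) (nat_lit 383) (.e (nat_lit 8194) (nat_lit 0) (.e (nat_lit 5355) (nat_lit 298) .nil))))))) (.g (nat_lit 0) .nil .nil))))) (.nd (nat_lit 4) (.nd (nat_lit 5) 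
(.lf (nat_lit 70415) (.g (nat_lit 4719) (.e (nat_lit 1659) (nat_lit 115) (.e (nat_lit 393301) (nat_lit 27) (.e (nat_lit 491560) (nat_lit 10) (.e (nat_lit 344087) (nat_lit 18) (.e (nat_lit 7265) (nat_lit 384) (.e (nat_lit 57347) (nat_lit 0) (.e (nat_lit 6450) (nat_lit 343) .nil))))))) (.g (nat_lit 6) .nil .nil))) 
(.lf (nat_lit 70447) (.g (nat_lit 2850) (.e (nat_lit 1659) (nat_lit 115) (.e (nat_lit 393301) (nat_lit 27) (.e (nat_lit 491560) (nat_lit 10) (.e (nat_lit 344090) (nat_lit 18) (.e (nat_lit 7247) (nat_lit 383) (.e (nat_lit 8192) (nat_lit 0) (.e (nat_lit 5321) (nat_lit 298) .nil))))))) (.g (nat_lit 4) .nil .nil)))) (.nd (nat_lit 5) 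
(.lf (nat_lit 70431) (.g (nat_lit 1703) (.e (nat_lit 1659) (nat_lit 115) (.e (nat_lit 393301) (nat_lit 27) (.e (nat_lit 491560) (nat_lit 10) (.e (nat_lit 344090) (nat_lit 18) .nil)))) .nil)) 
(.lf (nat_lit 70463) (.g (nat_lit 2771) (.e (nat_lit 1659) (nat_lit 115) (.e (nat_lit 393301) (nat_lit 27) (.e (nat_lit 491560) (nat_lit 10) (.e (nat_lit 344090) (nat_lit 18) (.e (nat_lit 7247) (nat_lit 383) (.e (nat_lit 8200) (nat_lit 0) (.e (nat_lit 5369) (nat_lit 298) .nil))))))) (.g (nat_lit 4) .nil .nil)))))))))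

noncomputable def tv963 : DT := (.nd (nat_lit 0) (.nd (nat_lit 1) (.nd (nat_lit 2) (.nd (nat_lit 3) (.nd (nat_lit 4) (.nd (nat_lit 5) 
(.lf (nat_lit 70464) (.g (nat_lit 2290) (.e (nat_lit 1659) (nat_lit 115) (.e (nat_lit 393301) (nat_lit 27) (.e (nat_lit 491560) (nat_lit 10) (.e (nat_lit 344090) (nat_lit 18) (.e (nat_lit 7261) (nat_lit 384) .nil))))) .nil)) 
(.lf (nat_lit 70496) (.g (nat_lit 2833) (.e (nat_lit 1659) (nat_lit 115) (.e (nat_lit 393301) (nat_lit 27) (.e (nat_lit 491560) (nat_lit 10) (.e (nat_lit 344091) (nat_lit 18) (.e (nat_lit 7247) (nat_lit 383) (.e (nat_lit 8194) (nat_lit 0) (.e (nat_lit 5322) (nat_lit 298) .nil))))))) (.g (nat_lit 4) .nil .nil)))) (.nd (nat_lit 5) 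
(.lf (nat_lit 70480) (.g (nat_lit 1739) (.e (nat_lit 1659) (nat_lit 115) (.e (nat_lit 393301) (nat_lit 27) (.e (nat_lit 491560) (nat_lit 10) (.e (nat_lit 344091) (nat_lit 18) .nil)))) .nil)) 
(.lf (nat_lit 70512) (.g (nat_lit 2506) (.e (nat_lit 1659) (nat_lit 115) (.e (nat_lit 393301) (nat_lit 27) (.e (nat_lit 491560) (nat_lit 10) (.e (nat_lit 344093) (nat_lit 18) (.e (nat_lit 6915) (nat_lit 371) .nil))))) .nil)))) (.nd (nat_lit 4) (.nd (nat_lit 5) 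
(.lf (nat_lit 70472) (.g (nat_lit 2299) (.e (nat_lit 1659) (nat_lit 115) (.e (nat_lit 393301) (nat_lit 27) (.e (nat_lit 491560) (nat_lit 10) (.e (nat_lit 344090) (nat_lit 18) (.e (nat_lit 7265) (nat_lit 384) .nil))))) .nil)) 
(.lf (nat_lit 70504) (.g (nat_lit 3927) (.e (nat_lit 1659) (nat_lit 115) (.e (nat_lit 393301) (nat_lit 27) (.e (nat_lit 491560) (nat_lit 10) (.e (nat_lit 344091) (nat_lit 18) (.e (nat_lit 7265) (nat_lit 384) (.e (nat_lit 57347) (nat_lit 0) (.e (nat_lit 6461) (nat_lit 343) .nil))))))) (.g (nat_lit 6) .nil .nil)))) (.nd (nat_lit 5) 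
(.lf (nat_lit 70488) (.g (nat_lit 3714) (.e (nat_lit 1659) (nat_lit 115) (.e (nat_lit 393301) (nat_lit 27) (.e (nat_lit 491560) (nat_lit 10) (.e (nat_lit 344091) (nat_lit 18) (.e (nat_lit 7122) (nat_lit 382) (.e (nat_lit 1183) (nat_lit 87) (.e (nat_lit 57740) (nat_lit 187) .nil))))))) (.g (nat_lit 5) .nil .nil))) 
(.lf (nat_lit 70520) (.g (nat_lit 4812) (.e (nat_lit 1659) (nat_lit 115) (.e (nat_lit 393301) (nat_lit 27) (.e (nat_lit 491560) (nat_lit 10) (.e (nat_lit 344094) (nat_lit 18) (.e (nat_lit 7124) (nat_lit 382) (.e (nat_lit 1183) (nat_lit 87) (.e (nat_lit 57741) (nat_lit 187) .nil))))))) (.g (nat_lit 7) .nil .nil)))))) (.nd (nat_lit 3) (.nd (nat_lit 4) (.nd (nat_lit 5) 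
(.lf (nat_lit 70468) (.g (nat_lit 3461) (.e (nat_lit 1659) (nat_lit 115) (.e (nat_lit 393301) (nat_lit 27) (.e (nat_lit 491560) (nat_lit 10) (.e (nat_lit 344090) (nat_lit 18) (.e (nat_lit 7261) (nat_lit 384) (.e (nat_lit 57354) (nat_lit 0) (.e (nat_lit 6493) (nat_lit 343) .nil))))))) (.g (nat_lit 5) .nil .nil))) 
(.lf (nat_lit 70500) (.g (nat_lit 2744) (.e (nat_lit 1659) (nat_lit 115) (.e (nat_lit 393301) (nat_lit 27) (.e (nat_lit 491560) (nat_lit 10) (.e (nat_lit 344091) (nat_lit 18) (.e (nat_lit 7263) (nat_lit 384) (.e (nat_lit 57354) (nat_lit 0) (.e (nat_lit 6489) (nat_lit 343) .nil))))))) (.g (nat_lit 4) .nil .nil)))) (.nd (nat_lit 5) 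
(.lf (nat_lit 70484) (.g (nat_lit 2970) (.e (nat_lit 1659) (nat_lit 115) (.e (nat_lit 393301) (nat_lit 27) (.e (nat_lit 491560) (nat_lit 10) (.e (nat_lit 344091) (nat_lit 18) (.e (nat_lit 6942) (nat_lit 375) (.e (nat_lit 163843) (nat_lit 0) (.e (nat_lit 7562) (nat_lit 402) .nil))))))) (.g (nat_lit 4) .nil .nil))) 
(.lf (nat_lit 70516) (.g (nat_lit 4509) (.e (nat_lit 1659) (nat_lit 115) (.e (nat_lit 393301) (nat_lit 27) (.e (nat_lit 491560) (nat_lit 10) (.e (nat_lit 344094) (nat_lit 18) (.e (nat_lit 7122) (nat_lit 382) (.e (nat_lit 1183) (nat_lit 87) (.e (nat_lit 57740) (nat_lit 187) .nil))))))) (.g (nat_lit 6) .nil .nil))))) (.nd (nat_lit 4) (.nd (nat_lit 5) 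
(.lf (nat_lit 70476) (.g (nat_lit 3669) (.e (nat_lit 1659) (nat_lit 115) (.e (nat_lit 393301) (nat_lit 27) (.e (nat_lit 491560) (nat_lit 10) (.e (nat_lit 344090) (nat_lit 18) (.e (nat_lit 7265) (nat_lit 384) (.e (nat_lit 57347) (nat_lit 0) (.e (nat_lit 7936) (nat_lit 343) .nil))))))) (.g (nat_lit 6) .nil .nil))) 
(.lf (nat_lit 70508) (.g (nat_lit 4106) (.e (nat_lit 1659) (nat_lit 115) (.e (nat_lit 393301) (nat_lit 27) (.e (nat_lit 491560) (nat_lit 10) (.e (nat_lit 344091) (nat_lit 18) (.e (nat_lit 7265) (nat_lit 384) (.e (nat_lit 57354) (nat_lit 0) (.e (nat_lit 6493) (nat_lit 343) .nil))))))) (.g (nat_lit 6) .nil .nil)))) (.nd (nat_lit 5) 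
(.lf (nat_lit 70492) (.g (nat_lit 2982) (.e (nat_lit 1659) (nat_lit 115) (.e (nat_lit 393301) (nat_lit 27) (.e (nat_lit 491560) (nat_lit 10) (.e (nat_lit 344091) (nat_lit 18) (.e (nat_lit 7124) (nat_lit 382) (.e (nat_lit 1183) (nat_lit 87) (.e (nat_lit 65280) (nat_lit 187) .nil))))))) (.g (nat_lit 4) .nil .nil))) 
(.lf (nat_lit 70524) (.g (nat_lit 3434) (.e (nat_lit 1659) (nat_lit 115) (.e (nat_lit 393301) (nat_lit 27) (.e (nat_lit 491560) (nat_lit 10) (.e (nat_lit 344094) (nat_lit 18) (.e (nat_lit 7125) (nat_lit 382) (.e (nat_lit 1288) (nat_lit 95) (.e (nat_lit 123096) (nat_lit 187) .nil))))))) (.g (nat_lit 5) .nil .nil))))))) (.nd (nat_lit 2) (.nd (nat_lit 3) (.nd (nat_lit 4) (.nd (nat_lit 5) 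
(.lf (nat_lit 70466) (.g (nat_lit 2648) (.e (nat_lit 1659) (nat_lit 115) (.e (nat_lit 393301) (nat_lit 27) (.e (nat_lit 491560) (nat_lit 10) (.e (nat_lit 344090) (nat_lit 18) (.e (nat_lit 7261) (nat_lit 384) (.e (nat_lit 57347) (nat_lit 0) (.e (nat_lit 6461) (nat_lit 343) .nil))))))) (.g (nat_lit 4) .nil .nil))) 
(.lf (nat_lit 70498) (.g (nat_lit 2775) (.e (nat_lit 1659) (nat_lit 115) (.e (nat_lit 393301) (nat_lit 27) (.e (nat_lit 491560) (nat_lit 10) (.e (nat_lit 344091) (nat_lit 18) (.e (nat_lit 7247) (nat_lit 383) (.e (nat_lit 8196) (nat_lit 0) (.e (nat_lit 5321) (nat_lit 298) .nil))))))) (.g (nat_lit 4) .nil .nil)))) (.nd (nat_lit 5) 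
(.lf (nat_lit 70482) (.g (nat_lit 2371) (.e (nat_lit 1659) (nat_lit 115) (.e (nat_lit 393301) (nat_lit 27) (.e (nat_lit 491560) (nat_lit 10) (.e (nat_lit 344091) (nat_lit 18) (.e (nat_lit 6869) (nat_lit 371) .nil))))) .nil)) 
(.lf (nat_lit 70514) (.g (nat_lit 1664) (.e (nat_lit 1659) (nat_lit 115) (.e (nat_lit 393301) (nat_lit 27) (.e (nat_lit 491560) (nat_lit 10) (.e (nat_lit 344094) (nat_lit 18) .nil)))) .nil)))) (.nd (nat_lit 4) (.nd (nat_lit 5) 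
(.lf (nat_lit 70474) (.g (nat_lit 4816) (.e (nat_lit 1659) (nat_lit 115) (.e (nat_lit 393301) (nat_lit 27) (.e (nat_lit 491560) (nat_lit 10) (.e (nat_lit 344090) (nat_lit 18) (.e (nat_lit 7265) (nat_lit 384) (.e (nat_lit 57347) (nat_lit 0) (.e (nat_lit 6461) (nat_lit 343) .nil))))))) (.g (nat_lit 7) .nil .nil))) 
(.lf (nat_lit 70506) (.g (nat_lit 3000) (.e (nat_lit 1659) (nat_lit 115) (.e (nat_lit 393301) (nat_lit 27) (.e (nat_lit 491560) (nat_lit 10) (.e (nat_lit 344091) (nat_lit 18) (.e (nat_lit 7265) (nat_lit 384) (.e (nat_lit 57347) (nat_lit 0) (.e (nat_lit 7936) (nat_lit 343) .nil))))))) (.g (nat_lit 4) .nil .nil)))) (.nd (nat_lit 5) 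
(.lf (nat_lit 70490) (.g (nat_lit 3723) (.e (nat_lit 1659) (nat_lit 115) (.e (nat_lit 393301) (nat_lit 27) (.e (nat_lit 491560) (nat_lit 10) (.e (nat_lit 344091) (nat_lit 18) (.e (nat_lit 7124) (nat_lit 382) (.e (nat_lit 1183) (nat_lit 87) (.e (nat_lit 57740) (nat_lit 187) .nil))))))) (.g (nat_lit 5) .nil .nil))) 
(.lf (nat_lit 70522) (.g (nat_lit 3917) (.e (nat_lit 1659) (nat_lit 115) (.e (nat_lit 393301) (nat_lit 27) (.e (nat_lit 491560) (nat_lit 10) (.e (nat_lit 344094) (nat_lit 18) (.e (nat_lit 7125) (nat_lit 382) (.e (nat_lit 1183) (nat_lit 87) (.e (nat_lit 57740) (nat_lit 187) .nil))))))) (.g (nat_lit 6) .nil .nil)))))) (.nd (nat_lit 3) (.nd (nat_lit 4) (.nd (nat_lit 5) 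
(.lf (nat_lit 70470) (.g (nat_lit 4670) (.e (nat_lit 1659) (nat_lit 115) (.e (nat_lit 393301) (nat_lit 27) (.e (nat_lit 491560) (nat_lit 10) (.e (nat_lit 344090) (nat_lit 18) (.e (nat_lit 7263) (nat_lit 384) (.e (nat_lit 57354) (nat_lit 0) (.e (nat_lit 6493) (nat_lit 343) .nil))))))) (.g (nat_lit 7) .nil .nil))) 
(.lf (nat_lit 70502) (.g (nat_lit 3020) (.e (nat_lit 1659) (nat_lit 115) (.e (nat_lit 393301) (nat_lit 27) (.e (nat_lit 491560) (nat_lit 10) (.e (nat_lit 344091) (nat_lit 18) (.e (nat_lit 7263) (nat_lit 384) (.e (nat_lit 57354) (nat_lit 0) (.e (nat_lit 7936) (nat_lit 343) .nil))))))) (.g (nat_lit 4) .nil .nil)))) (.nd (nat_lit 5) 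
(.lf (nat_lit 70486) (.g (nat_lit 2297) (.e (nat_lit 1659) (nat_lit 115) (.e (nat_lit 393301) (nat_lit 27) (.e (nat_lit 491560) (nat_lit 10) (.e (nat_lit 344091) (nat_lit 18) (.e (nat_lit 6943) (nat_lit 375) .nil))))) .nil)) 
(.lf (nat_lit 70518) (.g (nat_lit 3766) (.e (nat_lit 1659) (nat_lit 115) (.e (nat_lit 393301) (nat_lit 27) (.e (nat_lit 491560) (nat_lit 10) (.e (nat_lit 344094) (nat_lit 18) (.e (nat_lit 7122) (nat_lit 382) (.e (nat_lit 1183) (nat_lit 87) (.e (nat_lit 65280) (nat_lit 187) .nil))))))) (.g (nat_lit 5) .nil .nil))))) (.nd (nat_lit 4) (.nd (nat_lit 5) 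
(.lf (nat_lit 70478) (.g (nat_lit 5057) (.e (nat_lit 1659) (nat_lit 115) (.e (nat_lit 393301) (nat_lit 27) (.e (nat_lit 491560) (nat_lit 10) (.e (nat_lit 344090) (nat_lit 18) (.e (nat_lit 7265) (nat_lit 384) (.e (nat_lit 57354) (nat_lit 0) (.e (nat_lit 6493) (nat_lit 343) .nil))))))) (.g (nat_lit 0) .nil .nil))) 
(.lf (nat_lit 70510) (.g (nat_lit 2585) (.e (nat_lit 1659) (nat_lit 115) (.e (nat_lit 393301) (nat_lit 27) (.e (nat_lit 491560) (nat_lit 10) (.e (nat_lit 344092) (nat_lit 18) .nil)))) .nil))) (.nd (nat_lit 5) 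
(.lf (nat_lit 70494) (.g (nat_lit 2344) (.e (nat_lit 1659) (nat_lit 115) (.e (nat_lit 393301) (nat_lit 27) (.e (nat_lit 491560) (nat_lit 10) (.e (nat_lit 344091) (nat_lit 18) (.e (nat_lit 7247) (nat_lit 383) .nil))))) .nil)) 
(.lf (nat_lit 70526) (.g (nat_lit 3399) (.e (nat_lit 1659) (nat_lit 115) (.e (nat_lit 393301) (nat_lit 27) (.e (nat_lit 491560) (nat_lit 10) (.e (nat_lit 344094) (nat_lit 18) (.e (nat_lit 7247) (nat_lit 383) (.e (nat_lit 8194) (nat_lit 0) (.e (nat_lit 5321) (nat_lit 298) .nil))))))) (.g (nat_lit 6) .nil .nil)))))))) 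
(.nd (nat_lit 1) (.nd (nat_lit 2) (.nd (nat_lit 3) (.nd (nat_lit 4) (.nd (nat_lit 5) 
(.lf (nat_lit 70465) (.g (nat_lit 3704) (.e (nat_lit 1659) (nat_lit 115) (.e (nat_lit 393301) (nat_lit 27) (.e (nat_lit 491560) (nat_lit 10) (.e (nat_lit 344090) (nat_lit 18) (.e (nat_lit 7261) (nat_lit 384) (.e (nat_lit 57347) (nat_lit 0) (.e (nat_lit 6450) (nat_lit 343) .nil))))))) (.g (nat_lit 5) .nil .nil))) 
(.lf (nat_lit 70497) (.g (nat_lit 3316) (.e (nat_lit 1659) (nat_lit 115) (.e (nat_lit 393301) (nat_lit 27) (.e (nat_lit 491560) (nat_lit 10) (.e (nat_lit 344091) (nat_lit 18) (.e (nat_lit 7247) (nat_lit 383) (.e (nat_lit 8194) (nat_lit 0) (.e (nat_lit 5355) (nat_lit 298) .nil))))))) (.g (nat_lit 5) .nil .nil)))) (.nd (nat_lit 5) 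
(.lf (nat_lit 70481) (.g (nat_lit 2350) (.e (nat_lit 1659) (nat_lit 115) (.e (nat_lit 393301) (nat_lit 27) (.e (nat_lit 491560) (nat_lit 10) (.e (nat_lit 344091) (nat_lit 18) (.e (nat_lit 6853) (nat_lit 371) .nil))))) .nil)) 
(.lf (nat_lit 70513) (.g (nat_lit 3625) (.e (nat_lit 1659) (nat_lit 115) (.e (nat_lit 393301) (nat_lit 27) (.e (nat_lit 491560) (nat_lit 10) (.e (nat_lit 344093) (nat_lit 18) (.e (nat_lit 7251) (nat_lit 383) (.e (nat_lit 8195) (nat_lit 0) (.e (nat_lit 5323) (nat_lit 298) .nil))))))) (.g (nat_lit 6) .nil .nil))))) (.nd (nat_lit 4) (.nd (nat_lit 5) 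
(.lf (nat_lit 70473) (.g (nat_lit 3415) (.e (nat_lit 1659) (nat_lit 115) (.e (nat_lit 393301) (nat_lit 27) (.e (nat_lit 491560) (nat_lit 10) (.e (nat_lit 344090) (nat_lit 18) (.e (nat_lit 7265) (nat_lit 384) (.e (nat_lit 57347) (nat_lit 0) (.e (nat_lit 6457) (nat_lit 343) .nil))))))) (.g (nat_lit 5) .nil .nil))) 
(.lf (nat_lit 70505) (.g (nat_lit 4197) (.e (nat_lit 1659) (nat_lit 115) (.e (nat_lit 393301) (nat_lit 27) (.e (nat_lit 491560) (nat_lit 10) (.e (nat_lit 344091) (nat_lit 18) (.e (nat_lit 7265) (nat_lit 384) (.e (nat_lit 57347) (nat_lit 0) (.e (nat_lit 6499) (nat_lit 343) .nil))))))) (.g (nat_lit 6) .nil .nil)))) (.nd (nat_lit 5) 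
(.lf (nat_lit 70489) (.g (nat_lit 2971) (.e (nat_lit 1659) (nat_lit 115) (.e (nat_lit 393301) (nat_lit 27) (.e (nat_lit 491560) (nat_lit 10) (.e (nat_lit 344091) (nat_lit 18) (.e (nat_lit 7122) (nat_lit 382) (.e (nat_lit 1183) (nat_lit 87) (.e (nat_lit 65280) (nat_lit 187) .nil))))))) (.g (nat_lit 4) .nil .nil))) 
(.lf (nat_lit 70521) (.g (nat_lit 3580) (.e (nat_lit 1659) (nat_lit 115) (.e (nat_lit 393301) (nat_lit 27) (.e (nat_lit 491560) (nat_lit 10) (.e (nat_lit 344094) (nat_lit 18) (.e (nat_lit 7124) (nat_lit 382) (.e (nat_lit 1183) (nat_lit 87) (.e (nat_lit 65280) (nat_lit 187) .nil))))))) (.g (nat_lit 5) .nil .nil)))))) (.nd (nat_lit 3) (.nd (nat_lit 4) (.nd (nat_lit 5) 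
(.lf (nat_lit 70469) (.g (nat_lit 3316) (.e (nat_lit 1659) (nat_lit 115) (.e (nat_lit 393301) (nat_lit 27) (.e (nat_lit 491560) (nat_lit 10) (.e (nat_lit 344090) (nat_lit 18) (.e (nat_lit 7263) (nat_lit 384) (.e (nat_lit 57354) (nat_lit 0) (.e (nat_lit 6489) (nat_lit 343) .nil))))))) (.g (nat_lit 4) .nil .nil))) 
(.lf (nat_lit 70501) (.g (nat_lit 4098) (.e (nat_lit 1659) (nat_lit 115) (.e (nat_lit 393301) (nat_lit 27) (.e (nat_lit 491560) (nat_lit 10) (.e (nat_lit 344091) (nat_lit 18) (.e (nat_lit 7263) (nat_lit 384) (.e (nat_lit 57354) (nat_lit 0) (.e (nat_lit 6493) (nat_lit 343) .nil))))))) (.g (nat_lit 6) .nil .nil)))) (.nd (nat_lit 5) 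
(.lf (nat_lit 70485) (.g (nat_lit 3347) (.e (nat_lit 1659) (nat_lit 115) (.e (nat_lit 393301) (nat_lit 27) (.e (nat_lit 491560) (nat_lit 10) (.e (nat_lit 344091) (nat_lit 18) (.e (nat_lit 6942) (nat_lit 375) (.e (nat_lit 163850) (nat_lit 0) (.e (nat_lit 7556) (nat_lit 402) .nil))))))) (.g (nat_lit 6) .nil .nil))) 
(.lf (nat_lit 70517) (.g (nat_lit 5048) (.e (nat_lit 1659) (nat_lit 115) (.e (nat_lit 393301) (nat_lit 27) (.e (nat_lit 491560) (nat_lit 10) (.e (nat_lit 344094) (nat_lit 18) (.e (nat_lit 7122) (nat_lit 382) (.e (nat_lit 1183) (nat_lit 87) (.e (nat_lit 57741) (nat_lit 187) .nil))))))) (.g (nat_lit 7) .nil .nil))))) (.nd (nat_lit 4) (.nd (nat_lit 5) 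
(.lf (nat_lit 70477) (.g (nat_lit 4055) (.e (nat_lit 1659) (nat_lit 115) (.e (nat_lit 393301) (nat_lit 27) (.e (nat_lit 491560) (nat_lit 10) (.e (nat_lit 344090) (nat_lit 18) (.e (nat_lit 7265) (nat_lit 384) (.e (nat_lit 57354) (nat_lit 0) (.e (nat_lit 6489) (nat_lit 343) .nil))))))) (.g (nat_lit 6) .nil .nil))) 
(.lf (nat_lit 70509) (.g (nat_lit 3093) (.e (nat_lit 1659) (nat_lit 115) (.e (nat_lit 393301) (nat_lit 27) (.e (nat_lit 491560) (nat_lit 10) (.e (nat_lit 344091) (nat_lit 18) (.e (nat_lit 7265) (nat_lit 384) (.e (nat_lit 57354) (nat_lit 0) (.e (nat_lit 7936) (nat_lit 343) .nil))))))) (.g (nat_lit 4) .nil .nil)))) (.nd (nat_lit 5) 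
(.lf (nat_lit 70493) (.g (nat_lit 2833) (.e (nat_lit 1659) (nat_lit 115) (.e (nat_lit 393301) (nat_lit 27) (.e (nat_lit 491560) (nat_lit 10) (.e (nat_lit 344091) (nat_lit 18) (.e (nat_lit 7125) (nat_lit 382) (.e (nat_lit 1288) (nat_lit 95) (.e (nat_lit 123096) (nat_lit 187) .nil))))))) (.g (nat_lit 4) .nil .nil))) 
(.lf (nat_lit 70525) (.g (nat_lit 1993) (.e (nat_lit 1659) (nat_lit 115) (.e (nat_lit 393301) (nat_lit 27) (.e (nat_lit 491560) (nat_lit 10) (.e (nat_lit 344094) (nat_lit 18) (.e (nat_lit 7247) (nat_lit 383) .nil))))) .nil)))))) (.nd (nat_lit 2) (.nd (nat_lit 3) (.nd (nat_lit 4) (.nd (nat_lit 5) 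
(.lf (nat_lit 70467) (.g (nat_lit 2841) (.e (nat_lit 1659) (nat_lit 115) (.e (nat_lit 393301) (nat_lit 27) (.e (nat_lit 491560) (nat_lit 10) (.e (nat_lit 344090) (nat_lit 18) (.e (nat_lit 7261) (nat_lit 384) (.e (nat_lit 57347) (nat_lit 0) (.e (nat_lit 6499) (nat_lit 343) .nil))))))) (.g (nat_lit 4) .nil .nil))) 
(.lf (nat_lit 70499) (.g (nat_lit 2254) (.e (nat_lit 1659) (nat_lit 115) (.e (nat_lit 393301) (nat_lit 27) (.e (nat_lit 491560) (nat_lit 10) (.e (nat_lit 344091) (nat_lit 18) (.e (nat_lit 7261) (nat_lit 384) .nil))))) .nil))) (.nd (nat_lit 5) 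
(.lf (nat_lit 70483) (.g (nat_lit 2342) (.e (nat_lit 1659) (nat_lit 115) (.e (nat_lit 393301) (nat_lit 27) (.e (nat_lit 491560) (nat_lit 10) (.e (nat_lit 344091) (nat_lit 18) (.e (nat_lit 6940) (nat_lit 375) .nil))))) .nil)) 
(.lf (nat_lit 70515) (.g (nat_lit 1996) (.e (nat_lit 1659) (nat_lit 115) (.e (nat_lit 393301) (nat_lit 27) (.e (nat_lit 491560) (nat_lit 10) (.e (nat_lit 344094) (nat_lit 18) (.e (nat_lit 7122) (nat_lit 382) .nil))))) .nil)))) (.nd (nat_lit 4) (.nd (nat_lit 5) 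
(.lf (nat_lit 70475) (.g (nat_lit 5086) (.e (nat_lit 1659) (nat_lit 115) (.e (nat_lit 393301) (nat_lit 27) (.e (nat_lit 491560) (nat_lit 10) (.e (nat_lit 344090) (nat_lit 18) (.e (nat_lit 7265) (nat_lit 384) (.e (nat_lit 57347) (nat_lit 0) (.e (nat_lit 6499) (nat_lit 343) .nil))))))) (.g (nat_lit 7) .nil .nil))) 
(.lf (nat_lit 70507) (.g (nat_lit 3104) (.e (nat_lit 1659) (nat_lit 115) (.e (nat_lit 393301) (nat_lit 27) (.e (nat_lit 491560) (nat_lit 10) (.e (nat_lit 344091) (nat_lit 18) (.e (nat_lit 7265) (nat_lit 384) (.e (nat_lit 57354) (nat_lit 0) (.e (nat_lit 6489) (nat_lit 343) .nil))))))) (.g (nat_lit 4) .nil .nil)))) (.nd (nat_lit 5) 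
(.lf (nat_lit 70491) (.g (nat_lit 4219) (.e (nat_lit 1659) (nat_lit 115) (.e (nat_lit 393301) (nat_lit 27) (.e (nat_lit 491560) (nat_lit 10) (.e (nat_lit 344091) (nat_lit 18) (.e (nat_lit 7124) (nat_lit 382) (.e (nat_lit 1183) (nat_lit 87) (.e (nat_lit 57741) (nat_lit 187) .nil))))))) (.g (nat_lit 6) .nil .nil))) 
(.lf (nat_lit 70523) (.g (nat_lit 3174) (.e (nat_lit 1659) (nat_lit 115) (.e (nat_lit 393301) (nat_lit 27) (.e (nat_lit 491560) (nat_lit 10) (.e (nat_lit 344094) (nat_lit 18) (.e (nat_lit 7125) (nat_lit 382) (.e (nat_lit 1183) (nat_lit 87) (.e (nat_lit 65280) (nat_lit 187) .nil))))))) (.g (nat_lit 5) .nil .nil)))))) (.nd (nat_lit 3) (.nd (nat_lit 4) (.nd (nat_lit 5) 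
(.lf (nat_lit 70471) (.g (nat_lit 3592) (.e (nat_lit 1659) (nat_lit 115) (.e (nat_lit 393301) (nat_lit 27) (.e (nat_lit 491560) (nat_lit 10) (.e (nat_lit 344090) (nat_lit 18) (.e (nat_lit 7263) (nat_lit 384) (.e (nat_lit 57354) (nat_lit 0) (.e (nat_lit 7936) (nat_lit 343) .nil))))))) (.g (nat_lit 5) .nil .nil))) 
(.lf (nat_lit 70503) (.g (nat_lit 4879) (.e (nat_lit 1659) (nat_lit 115) (.e (nat_lit 393301) (nat_lit 27) (.e (nat_lit 491560) (nat_lit 10) (.e (nat_lit 344091) (nat_lit 18) (.e (nat_lit 7265) (nat_lit 384) (.e (nat_lit 57347) (nat_lit 0) (.e (nat_lit 6450) (nat_lit 343) .nil))))))) (.g (nat_lit 6) .nil .nil)))) (.nd (nat_lit 5) 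
(.lf (nat_lit 70487) (.g (nat_lit 2344) (.e (nat_lit 1659) (nat_lit 115) (.e (nat_lit 393301) (nat_lit 27) (.e (nat_lit 491560) (nat_lit 10) (.e (nat_lit 344091) (nat_lit 18) (.e (nat_lit 6943) (nat_lit 375) (.e (nat_lit 163850) (nat_lit 0) (.e (nat_lit 7556) (nat_lit 402) .nil))))))) (.g (nat_lit 4) .nil .nil))) 
(.lf (nat_lit 70519) (.g (nat_lit 4321) (.e (nat_lit 1659) (nat_lit 115) (.e (nat_lit 393301) (nat_lit 27) (.e (nat_lit 491560) (nat_lit 10) (.e (nat_lit 344094) (nat_lit 18) (.e (nat_lit 7124) (nat_lit 382) (.e (nat_lit 1183) (nat_lit 87) (.e (nat_lit 57740) (nat_lit 187) .nil))))))) (.g (nat_lit 6) .nil .nil))))) (.nd (nat_lit 4) (.nd (nat_lit 5) 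
(.lf (nat_lit 70479) (.g (nat_lit 4102) (.e (nat_lit 1659) (nat_lit 115) (.e (nat_lit 393301) (nat_lit 27) (.e (nat_lit 491560) (nat_lit 10) (.e (nat_lit 344090) (nat_lit 18) (.e (nat_lit 7265) (nat_lit 384) (.e (nat_lit 57354) (nat_lit 0) (.e (nat_lit 7936) (nat_lit 343) .nil))))))) (.g (nat_lit 6) .nil .nil))) 
(.lf (nat_lit 70511) (.g (nat_lit 2398) (.e (nat_lit 1659) (nat_lit 115) (.e (nat_lit 393301) (nat_lit 27) (.e (nat_lit 491560) (nat_lit 10) (.e (nat_lit 344093) (nat_lit 18) .nil)))) .nil))) (.nd (nat_lit 5) 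
(.lf (nat_lit 70495) (.g (nat_lit 2866) (.e (nat_lit 1659) (nat_lit 115) (.e (nat_lit 393301) (nat_lit 27) (.e (nat_lit 491560) (nat_lit 10) (.e (nat_lit 344091) (nat_lit 18) (.e (nat_lit 7247) (nat_lit 383) (.e (nat_lit 8194) (nat_lit 0) (.e (nat_lit 5321) (nat_lit 298) .nil))))))) (.g (nat_lit 4) .nil .nil))) 
(.lf (nat_lit 70527) (.g (nat_lit 3366) (.e (nat_lit 1659) (nat_lit 115) (.e (nat_lit 393301) (nat_lit 27) (.e (nat_lit 491560) (nat_lit 10) (.e (nat_lit 344094) (nat_lit 18) (.e (nat_lit 7247) (nat_lit 383) (.e (nat_lit 8194) (nat_lit 0) (.e (nat_lit 5322) (nat_lit 298) .nil))))))) (.g (nat_lit 6) .nil .nil)))))))))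

noncomputable def tv964 : DT := (.nd (nat_lit 0) (.nd (nat_lit 1) (.nd (nat_lit 2) (.nd (nat_lit 3) (.nd (nat_lit 4) (.nd (nat_lit 5) 
(.lf (nat_lit 70528) (.g (nat_lit 3120) (.e (nat_lit 1659) (nat_lit 115) (.e (nat_lit 393301) (nat_lit 27) (.e (nat_lit 491560) (nat_lit 10) (.e (nat_lit 344094) (nat_lit 18) (.e (nat_lit 7247) (nat_lit 383) (.e (nat_lit 8194) (nat_lit 0) (.e (nat_lit 5323) (nat_lit 298) .nil))))))) (.g (nat_lit 5) .nil .nil))) 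
(.lf (nat_lit 70560) (.g (nat_lit 3985) (.e (nat_lit 1659) (nat_lit 115) (.e (nat_lit 393301) (nat_lit 27) (.e (nat_lit 491560) (nat_lit 10) (.e (nat_lit 344096) (nat_lit 18) (.e (nat_lit 7125) (nat_lit 382) (.e (nat_lit 1288) (nat_lit 95) (.e (nat_lit 123096) (nat_lit 187) .nil))))))) (.g (nat_lit 5) .nil .nil)))) (.nd (nat_lit 5) 
(.lf (nat_lit 70544) (.g (nat_lit 4595) (.e (nat_lit 1659) (nat_lit 115) (.e (nat_lit 393301) (nat_lit 27) (.e (nat_lit 491560) (nat_lit 10) (.e (nat_lit 344095) (nat_lit 18) (.e (nat_lit 7122) (nat_lit 382) (.e (nat_lit 1183) (nat_lit 87) (.e (nat_lit 57740) (nat_lit 187) .nil))))))) (.g (nat_lit 6) .nil .nil))) 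
(.lf (nat_lit 70576) (.g (nat_lit 5904) (.e (nat_lit 1659) (nat_lit 115) (.e (nat_lit 393301) (nat_lit 27) (.e (nat_lit 491560) (nat_lit 10) (.e (nat_lit 344096) (nat_lit 18) (.e (nat_lit 7265) (nat_lit 384) (.e (nat_lit 57347) (nat_lit 0) (.e (nat_lit 6450) (nat_lit 343) .nil))))))) (.g (nat_lit 7) .nil .nil))))) (.nd (nat_lit 4) (.nd (nat_lit 5) 
(.lf (nat_lit 70536) (.g (nat_lit 5666) (.e (nat_lit 1659) (nat_lit 115) (.e (nat_lit 393301) (nat_lit 27) (.e (nat_lit 491560) (nat_lit 10) (.e (nat_lit 344094) (nat_lit 18) (.e (nat_lit 7265) (nat_lit 384) (.e (nat_lit 57347) (nat_lit 0) (.e (nat_lit 6450) (nat_lit 343) .nil))))))) (.g (nat_lit 0) .nil .nil))) 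
(.lf (nat_lit 70568) (.g (nat_lit 3596) (.e (nat_lit 1659) (nat_lit 115) (.e (nat_lit 393301) (nat_lit 27) (.e (nat_lit 491560) (nat_lit 10) (.e (nat_lit 344096) (nat_lit 18) (.e (nat_lit 7247) (nat_lit 383) (.e (nat_lit 8196) (nat_lit 0) (.e (nat_lit 5323) (nat_lit 298) .nil))))))) (.g (nat_lit 4) .nil .nil)))) (.nd (nat_lit 5) 
(.lf (nat_lit 70552) (.g (nat_lit 5079) (.e (nat_lit 1659) (nat_lit 115) (.e (nat_lit 393301) (nat_lit 27) (.e (nat_lit 491560) (nat_lit 10) (.e (nat_lit 344096) (nat_lit 18) (.e (nat_lit 7122) (nat_lit 382) (.e (nat_lit 1183) (nat_lit 87) (.e (nat_lit 57740) (nat_lit 187) .nil))))))) (.g (nat_lit 6) .nil .nil))) 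
(.lf (nat_lit 70584) (.g (nat_lit 1595) (.e (nat_lit 1659) (nat_lit 115) (.e (nat_lit 393301) (nat_lit 27) (.e (nat_lit 491560) (nat_lit 10) (.e (nat_lit 344097) (nat_lit 18) .nil)))) .nil))))) (.nd (nat_lit 3) (.nd (nat_lit 4) (.nd (nat_lit 5) 
(.lf (nat_lit 70532) (.g (nat_lit 3219) (.e (nat_lit 1659) (nat_lit 115) (.e (nat_lit 393301) (nat_lit 27) (.e (nat_lit 491560) (nat_lit 10) (.e (nat_lit 344094) (nat_lit 18) (.e (nat_lit 7261) (nat_lit 384) (.e (nat_lit 57354) (nat_lit 0) (.e (nat_lit 6493) (nat_lit 343) .nil))))))) (.g (nat_lit 5) .nil .nil))) 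
(.lf (nat_lit 70564) (.g (nat_lit 3687) (.e (nat_lit 1659) (nat_lit 115) (.e (nat_lit 393301) (nat_lit 27) (.e (nat_lit 491560) (nat_lit 10) (.e (nat_lit 344096) (nat_lit 18) (.e (nat_lit 7247) (nat_lit 383) (.e (nat_lit 8194) (nat_lit 0) (.e (nat_lit 5323) (nat_lit 298) .nil))))))) (.g (nat_lit 5) .nil .nil)))) (.nd (nat_lit 5) 
(.lf (nat_lit 70548) (.g (nat_lit 3852) (.e (nat_lit 1659) (nat_lit 115) (.e (nat_lit 393301) (nat_lit 27) (.e (nat_lit 491560) (nat_lit 10) (.e (nat_lit 344095) (nat_lit 18) (.e (nat_lit 7263) (nat_lit 384) (.e (nat_lit 57354) (nat_lit 0) (.e (nat_lit 7936) (nat_lit 343) .nil))))))) (.g (nat_lit 6) .nil .nil))) 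
(.lf (nat_lit 70580) (.g (nat_lit 4174) (.e (nat_lit 1659) (nat_lit 115) (.e (nat_lit 393301) (nat_lit 27) (.e (nat_lit 491560) (nat_lit 10) (.e (nat_lit 344096) (nat_lit 18) (.e (nat_lit 7265) (nat_lit 384) (.e (nat_lit 57354) (nat_lit 0) (.e (nat_lit 6489) (nat_lit 343) .nil))))))) (.g (nat_lit 6) .nil .nil))))) (.nd (nat_lit 4) (.nd (nat_lit 5) 
(.lf (nat_lit 70540) (.g (nat_lit 3979) (.e (nat_lit 1659) (nat_lit 115) (.e (nat_lit 393301) (nat_lit 27) (.e (nat_lit 491560) (nat_lit 10) (.e (nat_lit 344094) (nat_lit 18) (.e (nat_lit 7265) (nat_lit 384) (.e (nat_lit 57354) (nat_lit 0) (.e (nat_lit 6489) (nat_lit 343) .nil))))))) (.g (nat_lit 6) .nil .nil))) 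
(.lf (nat_lit 70572) (.g (nat_lit 3534) (.e (nat_lit 1659) (nat_lit 115) (.e (nat_lit 393301) (nat_lit 27) (.e (nat_lit 491560) (nat_lit 10) (.e (nat_lit 344096) (nat_lit 18) (.e (nat_lit 7263) (nat_lit 384) (.e (nat_lit 57354) (nat_lit 0) (.e (nat_lit 6489) (nat_lit 343) .nil))))))) (.g (nat_lit 4) .nil .nil)))) (.nd (nat_lit 5) 
(.lf (nat_lit 70556) (.g (nat_lit 4149) (.e (nat_lit 1659) (nat_lit 115) (.e (nat_lit 393301) (nat_lit 27) (.e (nat_lit 491560) (nat_lit 10) (.e (nat_lit 344096) (nat_lit 18) (.e (nat_lit 7124) (nat_lit 382) (.e (nat_lit 1183) (nat_lit 87) (.e (nat_lit 65280) (nat_lit 187) .nil))))))) (.g (nat_lit 5) .nil .nil))) 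
(.lf (nat_lit 70588) (.g (nat_lit 3614) (.e (nat_lit 1659) (nat_lit 115) (.e (nat_lit 393301) (nat_lit 27) (.e (nat_lit 491560) (nat_lit 10) (.e (nat_lit 344097) (nat_lit 18) (.e (nat_lit 7252) (nat_lit 383) (.e (nat_lit 8192) (nat_lit 0) (.e (nat_lit 5321) (nat_lit 298) .nil))))))) (.g (nat_lit 5) .nil .nil))))))) (.nd (nat_lit 2) (.nd (nat_lit 3) (.nd (nat_lit 4) (.nd (nat_lit 5) 
(.lf (nat_lit 70530) (.g (nat_lit 3029) (.e (nat_lit 1659) (nat_lit 115) (.e (nat_lit 393301) (nat_lit 27) (.e (nat_lit 491560) (nat_lit 10) (.e (nat_lit 344094) (nat_lit 18) (.e (nat_lit 7247) (nat_lit 383) (.e (nat_lit 8196) (nat_lit 0) (.e (nat_lit 5323) (nat_lit 298) .nil))))))) (.g (nat_lit 5) .nil .nil))) 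
(.lf (nat_lit 70562) (.g (nat_lit 3966) (.e (nat_lit 1659) (nat_lit 115) (.e (nat_lit 393301) (nat_lit 27) (.e (nat_lit 491560) (nat_lit 10) (.e (nat_lit 344096) (nat_lit 18) (.e (nat_lit 7247) (nat_lit 383) (.e (nat_lit 8194) (nat_lit 0) (.e (nat_lit 5321) (nat_lit 298) .nil))))))) (.g (nat_lit 5) .nil .nil)))) (.nd (nat_lit 5) 
(.lf (nat_lit 70546) (.g (nat_lit 3852) (.e (nat_lit 1659) (nat_lit 115) (.e (nat_lit 393301) (nat_lit 27) (.e (nat_lit 491560) (nat_lit 10) (.e (nat_lit 344095) (nat_lit 18) (.e (nat_lit 7122) (nat_lit 382) (.e (nat_lit 1183) (nat_lit 87) (.e (nat_lit 65280) (nat_lit 187) .nil))))))) (.g (nat_lit 5) .nil .nil))) 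
(.lf (nat_lit 70578) (.g (nat_lit 4952) (.e (nat_lit 1659) (nat_lit 115) (.e (nat_lit 393301) (nat_lit 27) (.e (nat_lit 491560) (nat_lit 10) (.e (nat_lit 344096) (nat_lit 18) (.e (nat_lit 7265) (nat_lit 384) (.e (nat_lit 57347) (nat_lit 0) (.e (nat_lit 6461) (nat_lit 343) .nil))))))) (.g (nat_lit 6) .nil .nil))))) (.nd (nat_lit 4) (.nd (nat_lit 5) 
(.lf (nat_lit 70538) (.g (nat_lit 5015) (.e (nat_lit 1659) (nat_lit 115) (.e (nat_lit 393301) (nat_lit 27) (.e (nat_lit 491560) (nat_lit 10) (.e (nat_lit 344094) (nat_lit 18) (.e (nat_lit 7265) (nat_lit 384) (.e (nat_lit 57347) (nat_lit 0) (.e (nat_lit 6499) (nat_lit 343) .nil))))))) (.g (nat_lit 7) .nil .nil))) 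
(.lf (nat_lit 70570) (.g (nat_lit 3816) (.e (nat_lit 1659) (nat_lit 115) (.e (nat_lit 393301) (nat_lit 27) (.e (nat_lit 491560) (nat_lit 10) (.e (nat_lit 344096) (nat_lit 18) (.e (nat_lit 7261) (nat_lit 384) (.e (nat_lit 57347) (nat_lit 0) (.e (nat_lit 6450) (nat_lit 343) .nil))))))) (.g (nat_lit 4) .nil .nil)))) (.nd (nat_lit 5) 
(.lf (nat_lit 70554) (.g (nat_lit 4890) (.e (nat_lit 1659) (nat_lit 115) (.e (nat_lit 393301) (nat_lit 27) (.e (nat_lit 491560) (nat_lit 10) (.e (nat_lit 344096) (nat_lit 18) (.e (nat_lit 7124) (nat_lit 382) (.e (nat_lit 1183) (nat_lit 87) (.e (nat_lit 57740) (nat_lit 187) .nil))))))) (.g (nat_lit 6) .nil .nil))) 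
(.lf (nat_lit 70586) (.g (nat_lit 2671) (.e (nat_lit 1659) (nat_lit 115) (.e (nat_lit 393301) (nat_lit 27) (.e (nat_lit 491560) (nat_lit 10) (.e (nat_lit 344097) (nat_lit 18) (.e (nat_lit 7249) (nat_lit 383) (.e (nat_lit 8196) (nat_lit 0) (.e (nat_lit 5321) (nat_lit 298) .nil))))))) (.g (nat_lit 4) .nil .nil)))))) (.nd (nat_lit 3) (.nd (nat_lit 4) (.nd (nat_lit 5) 
(.lf (nat_lit 70534) (.g (nat_lit 3866) (.e (nat_lit 1659) (nat_lit 115) (.e (nat_lit 393301) (nat_lit 27) (.e (nat_lit 491560) (nat_lit 10) (.e (nat_lit 344094) (nat_lit 18) (.e (nat_lit 7263) (nat_lit 384) (.e (nat_lit 57354) (nat_lit 0) (.e (nat_lit 7936) (nat_lit 343) .nil))))))) (.g (nat_lit 6) .nil .nil))) 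
(.lf (nat_lit 70566) (.g (nat_lit 3875) (.e (nat_lit 1659) (nat_lit 115) (.e (nat_lit 393301) (nat_lit 27) (.e (nat_lit 491560) (nat_lit 10) (.e (nat_lit 344096) (nat_lit 18) (.e (nat_lit 7247) (nat_lit 383) (.e (nat_lit 8196) (nat_lit 0) (.e (nat_lit 5321) (nat_lit 298) .nil))))))) (.g (nat_lit 5) .nil .nil)))) (.nd (nat_lit 5) 
(.lf (nat_lit 70550) (.g (nat_lit 2779) (.e (nat_lit 1659) (nat_lit 115) (.e (nat_lit 393301) (nat_lit 27) (.e (nat_lit 491560) (nat_lit 10) (.e (nat_lit 344096) (nat_lit 18) (.e (nat_lit 6923) (nat_lit 371) .nil))))) .nil)) 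
(.lf (nat_lit 70582) (.g (nat_lit 4228) (.e (nat_lit 1659) (nat_lit 115) (.e (nat_lit 393301) (nat_lit 27) (.e (nat_lit 491560) (nat_lit 10) (.e (nat_lit 344096) (nat_lit 18) (.e (nat_lit 7265) (nat_lit 384) (.e (nat_lit 57354) (nat_lit 0) (.e (nat_lit 7936) (nat_lit 343) .nil))))))) (.g (nat_lit 6) .nil .nil))))) (.nd (nat_lit 4) (.nd (nat_lit 5) 
(.lf (nat_lit 70542) (.g (nat_lit 4032) (.e (nat_lit 1659) (nat_lit 115) (.e (nat_lit 393301) (nat_lit 27) (.e (nat_lit 491560) (nat_lit 10) (.e (nat_lit 344094) (nat_lit 18) (.e (nat_lit 7265) (nat_lit 384) (.e (nat_lit 57354) (nat_lit 0) (.e (nat_lit 7936) (nat_lit 343) .nil))))))) (.g (nat_lit 6) .nil .nil))) 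
(.lf (nat_lit 70574) (.g (nat_lit 3810) (.e (nat_lit 1659) (nat_lit 115) (.e (nat_lit 393301) (nat_lit 27) (.e (nat_lit 491560) (nat_lit 10) (.e (nat_lit 344096) (nat_lit 18) (.e (nat_lit 7263) (nat_lit 384) (.e (nat_lit 57354) (nat_lit 0) (.e (nat_lit 7936) (nat_lit 343) .nil))))))) (.g (nat_lit 5) .nil .nil)))) (.nd (nat_lit 5) 
(.lf (nat_lit 70558) (.g (nat_lit 5119) (.e (nat_lit 1659) (nat_lit 115) (.e (nat_lit 393301) (nat_lit 27) (.e (nat_lit 491560) (nat_lit 10) (.e (nat_lit 344096) (nat_lit 18) (.e (nat_lit 7125) (nat_lit 382) (.e (nat_lit 1183) (nat_lit 87) (.e (nat_lit 57741) (nat_lit 187) .nil))))))) (.g (nat_lit 6) .nil .nil))) 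
(.lf (nat_lit 70590) (.g (nat_lit 3867) (.e (nat_lit 1659) (nat_lit 115) (.e (nat_lit 393301) (nat_lit 27) (.e (nat_lit 491560) (nat_lit 10) (.e (nat_lit 344097) (nat_lit 18) (.e (nat_lit 7252) (nat_lit 383) (.e (nat_lit 8192) (nat_lit 0) (.e (nat_lit 5323) (nat_lit 298) .nil))))))) (.g (nat_lit 5) .nil .nil)))))))) 
(.nd (nat_lit 1) (.nd (nat_lit 2) (.nd (nat_lit 3) (.nd (nat_lit 4) (.nd (nat_lit 5) 
(.lf (nat_lit 70529) (.g (nat_lit 3308) (.e (nat_lit 1659) (nat_lit 115) (.e (nat_lit 393301) (nat_lit 27) (.e (nat_lit 491560) (nat_lit 10) (.e (nat_lit 344094) (nat_lit 18) (.e (nat_lit 7247) (nat_lit 383) (.e (nat_lit 8196) (nat_lit 0) (.e (nat_lit 5321) (nat_lit 298) .nil))))))) (.g (nat_lit 6) .nil .nil))) 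
(.lf (nat_lit 70561) (.g (nat_lit 2759) (.e (nat_lit 1659) (nat_lit 115) (.e (nat_lit 393301) (nat_lit 27) (.e (nat_lit 491560) (nat_lit 10) (.e (nat_lit 344096) (nat_lit 18) (.e (nat_lit 7247) (nat_lit 383) .nil))))) .nil))) (.nd (nat_lit 5) 
(.lf (nat_lit 70545) (.g (nat_lit 5141) (.e (nat_lit 1659) (nat_lit 115) (.e (nat_lit 393301) (nat_lit 27) (.e (nat_lit 491560) (nat_lit 10) (.e (nat_lit 344095) (nat_lit 18) (.e (nat_lit 7122) (nat_lit 382) (.e (nat_lit 1183) (nat_lit 87) (.e (nat_lit 57741) (nat_lit 187) .nil))))))) (.g (nat_lit 6) .nil .nil))) 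
(.lf (nat_lit 70577) (.g (nat_lit 3551) (.e (nat_lit 1659) (nat_lit 115) (.e (nat_lit 393301) (nat_lit 27) (.e (nat_lit 491560) (nat_lit 10) (.e (nat_lit 344096) (nat_lit 18) (.e (nat_lit 7265) (nat_lit 384) (.e (nat_lit 57347) (nat_lit 0) (.e (nat_lit 6457) (nat_lit 343) .nil))))))) (.g (nat_lit 5) .nil .nil))))) (.nd (nat_lit 4) (.nd (nat_lit 5) 
(.lf (nat_lit 70537) (.g (nat_lit 4735) (.e (nat_lit 1659) (nat_lit 115) (.e (nat_lit 393301) (nat_lit 27) (.e (nat_lit 491560) (nat_lit 10) (.e (nat_lit 344094) (nat_lit 18) (.e (nat_lit 7265) (nat_lit 384) (.e (nat_lit 57347) (nat_lit 0) (.e (nat_lit 6461) (nat_lit 343) .nil))))))) (.g (nat_lit 7) .nil .nil))) 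
(.lf (nat_lit 70569) (.g (nat_lit 2696) (.e (nat_lit 1659) (nat_lit 115) (.e (nat_lit 393301) (nat_lit 27) (.e (nat_lit 491560) (nat_lit 10) (.e (nat_lit 344096) (nat_lit 18) (.e (nat_lit 7261) (nat_lit 384) .nil))))) .nil))) (.nd (nat_lit 5) 
(.lf (nat_lit 70553) (.g (nat_lit 4336) (.e (nat_lit 1659) (nat_lit 115) (.e (nat_lit 393301) (nat_lit 27) (.e (nat_lit 491560) (nat_lit 10) (.e (nat_lit 344096) (nat_lit 18) (.e (nat_lit 7122) (nat_lit 382) (.e (nat_lit 1183) (nat_lit 87) (.e (nat_lit 65280) (nat_lit 187) .nil))))))) (.g (nat_lit 5) .nil .nil))) 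
(.lf (nat_lit 70585) (.g (nat_lit 2573) (.e (nat_lit 1659) (nat_lit 115) (.e (nat_lit 393301) (nat_lit 27) (.e (nat_lit 491560) (nat_lit 10) (.e (nat_lit 344097) (nat_lit 18) (.e (nat_lit 7249) (nat_lit 383) .nil))))) .nil))))) (.nd (nat_lit 3) (.nd (nat_lit 4) (.nd (nat_lit 5) 
(.lf (nat_lit 70533) (.g (nat_lit 4940) (.e (nat_lit 1659) (nat_lit 115) (.e (nat_lit 393301) (nat_lit 27) (.e (nat_lit 491560) (nat_lit 10) (.e (nat_lit 344094) (nat_lit 18) (.e (nat_lit 7263) (nat_lit 384) (.e (nat_lit 57354) (nat_lit 0) (.e (nat_lit 6493) (nat_lit 343) .nil))))))) (.g (nat_lit 0) .nil .nil))) 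
(.lf (nat_lit 70565) (.g (nat_lit 3043) (.e (nat_lit 1659) (nat_lit 115) (.e (nat_lit 393301) (nat_lit 27) (.e (nat_lit 491560) (nat_lit 10) (.e (nat_lit 344096) (nat_lit 18) (.e (nat_lit 7247) (nat_lit 383) (.e (nat_lit 8195) (nat_lit 0) (.e (nat_lit 5321) (nat_lit 298) .nil))))))) (.g (nat_lit 4) .nil .nil)))) (.nd (nat_lit 5) 
(.lf (nat_lit 70549) (.g (nat_lit 2027) (.e (nat_lit 1659) (nat_lit 115) (.e (nat_lit 393301) (nat_lit 27) (.e (nat_lit 491560) (nat_lit 10) (.e (nat_lit 344096) (nat_lit 18) .nil)))) .nil)) 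
(.lf (nat_lit 70581) (.g (nat_lit 5176) (.e (nat_lit 1659) (nat_lit 115) (.e (nat_lit 393301) (nat_lit 27) (.e (nat_lit 491560) (nat_lit 10) (.e (nat_lit 344096) (nat_lit 18) (.e (nat_lit 7265) (nat_lit 384) (.e (nat_lit 57354) (nat_lit 0) (.e (nat_lit 6493) (nat_lit 343) .nil))))))) (.g (nat_lit 7) .nil .nil))))) (.nd (nat_lit 4) (.nd (nat_lit 5) 
(.lf (nat_lit 70541) (.g (nat_lit 4932) (.e (nat_lit 1659) (nat_lit 115) (.e (nat_lit 393301) (nat_lit 27) (.e (nat_lit 491560) (nat_lit 10) (.e (nat_lit 344094) (nat_lit 18) (.e (nat_lit 7265) (nat_lit 384) (.e (nat_lit 57354) (nat_lit 0) (.e (nat_lit 6493) (nat_lit 343) .nil))))))) (.g (nat_lit 0) .nil .nil))) 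
(.lf (nat_lit 70573) (.g (nat_lit 4888) (.e (nat_lit 1659) (nat_lit 115) (.e (nat_lit 393301) (nat_lit 27) (.e (nat_lit 491560) (nat_lit 10) (.e (nat_lit 344096) (nat_lit 18) (.e (nat_lit 7263) (nat_lit 384) (.e (nat_lit 57354) (nat_lit 0) (.e (nat_lit 6493) (nat_lit 343) .nil))))))) (.g (nat_lit 6) .nil .nil)))) (.nd (nat_lit 5) 
(.lf (nat_lit 70557) (.g (nat_lit 4468) (.e (nat_lit 1659) (nat_lit 115) (.e (nat_lit 393301) (nat_lit 27) (.e (nat_lit 491560) (nat_lit 10) (.e (nat_lit 344096) (nat_lit 18) (.e (nat_lit 7125) (nat_lit 382) (.e (nat_lit 1183) (nat_lit 87) (.e (nat_lit 57740) (nat_lit 187) .nil))))))) (.g (nat_lit 6) .nil .nil))) 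
(.lf (nat_lit 70589) (.g (nat_lit 2926) (.e (nat_lit 1659) (nat_lit 115) (.e (nat_lit 393301) (nat_lit 27) (.e (nat_lit 491560) (nat_lit 10) (.e (nat_lit 344097) (nat_lit 18) (.e (nat_lit 7252) (nat_lit 383) (.e (nat_lit 8192) (nat_lit 0) (.e (nat_lit 5322) (nat_lit 298) .nil))))))) (.g (nat_lit 4) .nil .nil))))))) (.nd (nat_lit 2) (.nd (nat_lit 3) (.nd (nat_lit 4) (.nd (nat_lit 5) 
(.lf (nat_lit 70531) (.g (nat_lit 3462) (.e (nat_lit 1659) (nat_lit 115) (.e (nat_lit 393301) (nat_lit 27) (.e (nat_lit 491560) (nat_lit 10) (.e (nat_lit 344094) (nat_lit 18) (.e (nat_lit 7261) (nat_lit 384) (.e (nat_lit 57347) (nat_lit 0) (.e (nat_lit 6450) (nat_lit 343) .nil))))))) (.g (nat_lit 5) .nil .nil))) 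
(.lf (nat_lit 70563) (.g (nat_lit 3933) (.e (nat_lit 1659) (nat_lit 115) (.e (nat_lit 393301) (nat_lit 27) (.e (nat_lit 491560) (nat_lit 10) (.e (nat_lit 344096) (nat_lit 18) (.e (nat_lit 7247) (nat_lit 383) (.e (nat_lit 8194) (nat_lit 0) (.e (nat_lit 5322) (nat_lit 298) .nil))))))) (.g (nat_lit 5) .nil .nil)))) (.nd (nat_lit 5) 
(.lf (nat_lit 70547) (.g (nat_lit 3826) (.e (nat_lit 1659) (nat_lit 115) (.e (nat_lit 393301) (nat_lit 27) (.e (nat_lit 491560) (nat_lit 10) (.e (nat_lit 344095) (nat_lit 18) (.e (nat_lit 7261) (nat_lit 384) (.e (nat_lit 57347) (nat_lit 0) (.e (nat_lit 6450) (nat_lit 343) .nil))))))) (.g (nat_lit 4) .nil .nil))) 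
(.lf (nat_lit 70579) (.g (nat_lit 5222) (.e (nat_lit 1659) (nat_lit 115) (.e (nat_lit 393301) (nat_lit 27) (.e (nat_lit 491560) (nat_lit 10) (.e (nat_lit 344096) (nat_lit 18) (.e (nat_lit 7265) (nat_lit 384) (.e (nat_lit 57347) (nat_lit 0) (.e (nat_lit 6499) (nat_lit 343) .nil))))))) (.g (nat_lit 6) .nil .nil))))) (.nd (nat_lit 4) (.nd (nat_lit 5) 
(.lf (nat_lit 70539) (.g (nat_lit 3819) (.e (nat_lit 1659) (nat_lit 115) (.e (nat_lit 393301) (nat_lit 27) (.e (nat_lit 491560) (nat_lit 10) (.e (nat_lit 344094) (nat_lit 18) (.e (nat_lit 7265) (nat_lit 384) (.e (nat_lit 57347) (nat_lit 0) (.e (nat_lit 7936) (nat_lit 343) .nil))))))) (.g (nat_lit 6) .nil .nil))) 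
(.lf (nat_lit 70571) (.g (nat_lit 3573) (.e (nat_lit 1659) (nat_lit 115) (.e (nat_lit 393301) (nat_lit 27) (.e (nat_lit 491560) (nat_lit 10) (.e (nat_lit 344096) (nat_lit 18) (.e (nat_lit 7261) (nat_lit 384) (.e (nat_lit 57354) (nat_lit 0) (.e (nat_lit 6493) (nat_lit 343) .nil))))))) (.g (nat_lit 4) .nil .nil)))) (.nd (nat_lit 5) 
(.lf (nat_lit 70555) (.g (nat_lit 5386) (.e (nat_lit 1659) (nat_lit 115) (.e (nat_lit 393301) (nat_lit 27) (.e (nat_lit 491560) (nat_lit 10) (.e (nat_lit 344096) (nat_lit 18) (.e (nat_lit 7124) (nat_lit 382) (.e (nat_lit 1183) (nat_lit 87) (.e (nat_lit 57741) (nat_lit 187) .nil))))))) (.g (nat_lit 7) .nil .nil))) 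
(.lf (nat_lit 70587) (.g (nat_lit 2677) (.e (nat_lit 1659) (nat_lit 115) (.e (nat_lit 393301) (nat_lit 27) (.e (nat_lit 491560) (nat_lit 10) (.e (nat_lit 344097) (nat_lit 18) (.e (nat_lit 7252) (nat_lit 383) .nil))))) .nil))))) (.nd (nat_lit 3) (.nd (nat_lit 4) (.nd (nat_lit 5) 
(.lf (nat_lit 70535) (.g (nat_lit 1932) (.e (nat_lit 1659) (nat_lit 115) (.e (nat_lit 393301) (nat_lit 27) (.e (nat_lit 491560) (nat_lit 10) (.e (nat_lit 344094) (nat_lit 18) (.e (nat_lit 7265) (nat_lit 384) .nil))))) .nil)) 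
(.lf (nat_lit 70567) (.g (nat_lit 3017) (.e (nat_lit 1659) (nat_lit 115) (.e (nat_lit 393301) (nat_lit 27) (.e (nat_lit 491560) (nat_lit 10) (.e (nat_lit 344096) (nat_lit 18) (.e (nat_lit 7247) (nat_lit 383) (.e (nat_lit 8196) (nat_lit 0) (.e (nat_lit 5322) (nat_lit 298) .nil))))))) (.g (nat_lit 4) .nil .nil)))) (.nd (nat_lit 5) 
(.lf (nat_lit 70551) (.g (nat_lit 2768) (.e (nat_lit 1659) (nat_lit 115) (.e (nat_lit 393301) (nat_lit 27) (.e (nat_lit 491560) (nat_lit 10) (.e (nat_lit 344096) (nat_lit 18) (.e (nat_lit 6940) (nat_lit 375) .nil))))) .nil)) 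
(.lf (nat_lit 70583) (.g (nat_lit 2554) (.e (nat_lit 1659) (nat_lit 115) (.e (nat_lit 393301) (nat_lit 27) (.e (nat_lit 491560) (nat_lit 10) (.e (nat_lit 344096) (nat_lit 18) (.e (nat_lit 7266) (nat_lit 384) .nil))))) .nil)))) (.nd (nat_lit 4) (.nd (nat_lit 5) 
(.lf (nat_lit 70543) (.g (nat_lit 2463) (.e (nat_lit 1659) (nat_lit 115) (.e (nat_lit 393301) (nat_lit 27) (.e (nat_lit 491560) (nat_lit 10) (.e (nat_lit 344095) (nat_lit 18) .nil)))) .nil)) 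
(.lf (nat_lit 70575) (.g (nat_lit 2687) (.e (nat_lit 1659) (nat_lit 115) (.e (nat_lit 393301) (nat_lit 27) (.e (nat_lit 491560) (nat_lit 10) (.e (nat_lit 344096) (nat_lit 18) (.e (nat_lit 7265) (nat_lit 384) .nil))))) .nil))) (.nd (nat_lit 5) 
(.lf (nat_lit 70559) (.g (nat_lit 3725) (.e (nat_lit 1659) (nat_lit 115) (.e (nat_lit 393301) (nat_lit 27) (.e (nat_lit 491560) (nat_lit 10) (.e (nat_lit 344096) (nat_lit 18) (.e (nat_lit 7125) (nat_lit 382) (.e (nat_lit 1183) (nat_lit 87) (.e (nat_lit 65280) (nat_lit 187) .nil))))))) (.g (nat_lit 5) .nil .nil))) 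
(.lf (nat_lit 70591) (.g (nat_lit 3616) (.e (nat_lit 1659) (nat_lit 115) (.e (nat_lit 393301) (nat_lit 27) (.e (nat_lit 491560) (nat_lit 10) (.e (nat_lit 344097) (nat_lit 18) (.e (nat_lit 7252) (nat_lit 383) (.e (nat_lit 8192) (nat_lit 0) (.e (nat_lit 5325) (nat_lit 298) .nil))))))) (.g (nat_lit 5) .nil .nil)))))))))

noncomputable def tv965 : DT := (.nd (nat_lit 0) (.nd (nat_lit 1) (.nd (nat_lit 2) (.nd (nat_lit 3) (.nd (nat_lit 4) (.nd (nat_lit 5) 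
(.lf (nat_lit 70592) (.g (nat_lit 3745) (.e (nat_lit 1659) (nat_lit 115) (.e (nat_lit 393301) (nat_lit 27) (.e (nat_lit 491560) (nat_lit 10) (.e (nat_lit 344097) (nat_lit 18) (.e (nat_lit 7252) (nat_lit 383) (.e (nat_lit 8192) (nat_lit 0) (.e (nat_lit 5355) (nat_lit 298) .nil))))))) (.g (nat_lit 5) .nil .nil))) 
(.lf (nat_lit 70624) (.g (nat_lit 2753) (.e (nat_lit 1659) (nat_lit 115) (.e (nat_lit 393301) (nat_lit 27) (.e (nat_lit 491560) (nat_lit 10) (.e (nat_lit 344097) (nat_lit 18) (.e (nat_lit 7254) (nat_lit 383) (.e (nat_lit 8199) (nat_lit 0) (.e (nat_lit 5367) (nat_lit 298) .nil))))))) (.g (nat_lit 4) .nil .nil)))) (.nd (nat_lit 5) 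
(.lf (nat_lit 70608) (.g (nat_lit 2552) (.e (nat_lit 1659) (nat_lit 115) (.e (nat_lit 393301) (nat_lit 27) (.e (nat_lit 491560) (nat_lit 10) (.e (nat_lit 344097) (nat_lit 18) (.e (nat_lit 7253) (nat_lit 383) .nil))))) .nil)) 
(.lf (nat_lit 70640) (.g (nat_lit 3121) (.e (nat_lit 1659) (nat_lit 115) (.e (nat_lit 393301) (nat_lit 27) (.e (nat_lit 491560) (nat_lit 10) (.e (nat_lit 344097) (nat_lit 18) (.e (nat_lit 7270) (nat_lit 385) (.e (nat_lit 122880) (nat_lit 0) (.e (nat_lit 6494) (nat_lit 343) .nil))))))) (.g (nat_lit 4) .nil .nil))))) (.nd (nat_lit 4) (.nd (nat_lit 5) 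
(.lf (nat_lit 70600) (.g (nat_lit 3427) (.e (nat_lit 1659) (nat_lit 115) (.e (nat_lit 393301) (nat_lit 27) (.e (nat_lit 491560) (nat_lit 10) (.e (nat_lit 344097) (nat_lit 18) (.e (nat_lit 7252) (nat_lit 383) (.e (nat_lit 8197) (nat_lit 0) (.e (nat_lit 5321) (nat_lit 298) .nil))))))) (.g (nat_lit 4) .nil .nil))) 
(.lf (nat_lit 70632) (.g (nat_lit 2530) (.e (nat_lit 1659) (nat_lit 115) (.e (nat_lit 393301) (nat_lit 27) (.e (nat_lit 491560) (nat_lit 10) (.e (nat_lit 344097) (nat_lit 18) (.e (nat_lit 7255) (nat_lit 383) (.e (nat_lit 8192) (nat_lit 0) (.e (nat_lit 5372) (nat_lit 298) .nil))))))) (.g (nat_lit 4) .nil .nil)))) (.nd (nat_lit 5) 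
(.lf (nat_lit 70616) (.g (nat_lit 2955) (.e (nat_lit 1659) (nat_lit 115) (.e (nat_lit 393301) (nat_lit 27) (.e (nat_lit 491560) (nat_lit 10) (.e (nat_lit 344097) (nat_lit 18) (.e (nat_lit 7254) (nat_lit 383) (.e (nat_lit 8192) (nat_lit 0) (.e (nat_lit 5372) (nat_lit 298) .nil))))))) (.g (nat_lit 4) .nil .nil))) 
(.lf (nat_lit 70648) (.g (nat_lit 2569) (.e (nat_lit 1659) (nat_lit 115) (.e (nat_lit 393301) (nat_lit 27) (.e (nat_lit 491560) (nat_lit 10) (.e (nat_lit 344098) (nat_lit 18) .nil)))) .nil))))) (.nd (nat_lit 3) (.nd (nat_lit 4) (.nd (nat_lit 5) 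
(.lf (nat_lit 70596) (.g (nat_lit 3434) (.e (nat_lit 1659) (nat_lit 115) (.e (nat_lit 393301) (nat_lit 27) (.e (nat_lit 491560) (nat_lit 10) (.e (nat_lit 344097) (nat_lit 18) (.e (nat_lit 7252) (nat_lit 383) (.e (nat_lit 8193) (nat_lit 0) (.e (nat_lit 5355) (nat_lit 298) .nil))))))) (.g (nat_lit 4) .nil .nil))) 
(.lf (nat_lit 70628) (.g (nat_lit 2689) (.e (nat_lit 1659) (nat_lit 115) (.e (nat_lit 393301) (nat_lit 27) (.e (nat_lit 491560) (nat_lit 10) (.e (nat_lit 344097) (nat_lit 18) (.e (nat_lit 7255) (nat_lit 383) (.e (nat_lit 8192) (nat_lit 0) (.e (nat_lit 5322) (nat_lit 298) .nil))))))) (.g (nat_lit 4) .nil .nil)))) (.nd (nat_lit 5) 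
(.lf (nat_lit 70612) (.g (nat_lit 3114) (.e (nat_lit 1659) (nat_lit 115) (.e (nat_lit 393301) (nat_lit 27) (.e (nat_lit 491560) (nat_lit 10) (.e (nat_lit 344097) (nat_lit 18) (.e (nat_lit 7254) (nat_lit 383) (.e (nat_lit 8192) (nat_lit 0) (.e (nat_lit 5322) (nat_lit 298) .nil))))))) (.g (nat_lit 4) .nil .nil))) 
(.lf (nat_lit 70644) (.g (nat_lit 2436) (.e (nat_lit 1659) (nat_lit 115) (.e (nat_lit 393301) (nat_lit 27) (.e (nat_lit 491560) (nat_lit 10) (.e (nat_lit 344097) (nat_lit 18) (.e (nat_lit 7271) (nat_lit 385) .nil))))) .nil)))) (.nd (nat_lit 4) (.nd (nat_lit 5) 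
(.lf (nat_lit 70604) (.g (nat_lit 2744) (.e (nat_lit 1659) (nat_lit 115) (.e (nat_lit 393301) (nat_lit 27) (.e (nat_lit 491560) (nat_lit 10) (.e (nat_lit 344097) (nat_lit 18) (.e (nat_lit 7252) (nat_lit 383) (.e (nat_lit 8199) (nat_lit 0) (.e (nat_lit 5369) (nat_lit 298) .nil))))))) (.g (nat_lit 4) .nil .nil))) 
(.lf (nat_lit 70636) (.g (nat_lit 3272) (.e (nat_lit 1659) (nat_lit 115) (.e (nat_lit 393301) (nat_lit 27) (.e (nat_lit 491560) (nat_lit 10) (.e (nat_lit 344097) (nat_lit 18) (.e (nat_lit 7255) (nat_lit 383) (.e (nat_lit 8198) (nat_lit 0) (.e (nat_lit 5324) (nat_lit 298) .nil))))))) (.g (nat_lit 4) .nil .nil)))) (.nd (nat_lit 5) 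
(.lf (nat_lit 70620) (.g (nat_lit 3027) (.e (nat_lit 1659) (nat_lit 115) (.e (nat_lit 393301) (nat_lit 27) (.e (nat_lit 491560) (nat_lit 10) (.e (nat_lit 344097) (nat_lit 18) (.e (nat_lit 7254) (nat_lit 383) (.e (nat_lit 8197) (nat_lit 0) (.e (nat_lit 5324) (nat_lit 298) .nil))))))) (.g (nat_lit 4) .nil .nil))) 
(.lf (nat_lit 70652) (.g (nat_lit 3012) (.e (nat_lit 1659) (nat_lit 115) (.e (nat_lit 393301) (nat_lit 27) (.e (nat_lit 491560) (nat_lit 10) (.e (nat_lit 344099) (nat_lit 18) (.e (nat_lit 7255) (nat_lit 383) (.e (nat_lit 8192) (nat_lit 0) (.e (nat_lit 5321) (nat_lit 298) .nil))))))) (.g (nat_lit 5) .nil .nil))))))) (.nd (nat_lit 2) (.nd (nat_lit 3) (.nd (nat_lit 4) (.nd (nat_lit 5) 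
(.lf (nat_lit 70594) (.g (nat_lit 2767) (.e (nat_lit 1659) (nat_lit 115) (.e (nat_lit 393301) (nat_lit 27) (.e (nat_lit 491560) (nat_lit 10) (.e (nat_lit 344097) (nat_lit 18) (.e (nat_lit 7252) (nat_lit 383) (.e (nat_lit 8192) (nat_lit 0) (.e (nat_lit 5372) (nat_lit 298) .nil))))))) (.g (nat_lit 4) .nil .nil))) 
(.lf (nat_lit 70626) (.g (nat_lit 2509) (.e (nat_lit 1659) (nat_lit 115) (.e (nat_lit 393301) (nat_lit 27) (.e (nat_lit 491560) (nat_lit 10) (.e (nat_lit 344097) (nat_lit 18) (.e (nat_lit 7255) (nat_lit 383) .nil))))) .nil))) (.nd (nat_lit 5) 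
(.lf (nat_lit 70610) (.g (nat_lit 2522) (.e (nat_lit 1659) (nat_lit 115) (.e (nat_lit 393301) (nat_lit 27) (.e (nat_lit 491560) (nat_lit 10) (.e (nat_lit 344097) (nat_lit 18) (.e (nat_lit 7254) (nat_lit 383) .nil))))) .nil)) 
(.lf (nat_lit 70642) (.g (nat_lit 5013) (.e (nat_lit 1659) (nat_lit 115) (.e (nat_lit 393301) (nat_lit 27) (.e (nat_lit 491560) (nat_lit 10) (.e (nat_lit 344097) (nat_lit 18) (.e (nat_lit 7270) (nat_lit 385) (.e (nat_lit 122883) (nat_lit 0) (.e (nat_lit 6489) (nat_lit 343) .nil))))))) (.g (nat_lit 6) .nil .nil))))) (.nd (nat_lit 4) (.nd (nat_lit 5) 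
(.lf (nat_lit 70602) (.g (nat_lit 2734) (.e (nat_lit 1659) (nat_lit 115) (.e (nat_lit 393301) (nat_lit 27) (.e (nat_lit 491560) (nat_lit 10) (.e (nat_lit 344097) (nat_lit 18) (.e (nat_lit 7252) (nat_lit 383) (.e (nat_lit 8197) (nat_lit 0) (.e (nat_lit 5369) (nat_lit 298) .nil))))))) (.g (nat_lit 4) .nil .nil))) 
(.lf (nat_lit 70634) (.g (nat_lit 2895) (.e (nat_lit 1659) (nat_lit 115) (.e (nat_lit 393301) (nat_lit 27) (.e (nat_lit 491560) (nat_lit 10) (.e (nat_lit 344097) (nat_lit 18) (.e (nat_lit 7255) (nat_lit 383) (.e (nat_lit 8197) (nat_lit 0) (.e (nat_lit 5321) (nat_lit 298) .nil))))))) (.g (nat_lit 4) .nil .nil)))) (.nd (nat_lit 5) 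
(.lf (nat_lit 70618) (.g (nat_lit 3274) (.e (nat_lit 1659) (nat_lit 115) (.e (nat_lit 393301) (nat_lit 27) (.e (nat_lit 491560) (nat_lit 10) (.e (nat_lit 344097) (nat_lit 18) (.e (nat_lit 7254) (nat_lit 383) (.e (nat_lit 8193) (nat_lit 0) (.e (nat_lit 5355) (nat_lit 298) .nil))))))) (.g (nat_lit 4) .nil .nil))) 
(.lf (nat_lit 70650) (.g (nat_lit 2666) (.e (nat_lit 1659) (nat_lit 115) (.e (nat_lit 393301) (nat_lit 27) (.e (nat_lit 491560) (nat_lit 10) (.e (nat_lit 344099) (nat_lit 18) (.e (nat_lit 7254) (nat_lit 383) (.e (nat_lit 8192) (nat_lit 0) (.e (nat_lit 5323) (nat_lit 298) .nil))))))) (.g (nat_lit 4) .nil .nil)))))) (.nd (nat_lit 3) (.nd (nat_lit 4) (.nd (nat_lit 5) 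
(.lf (nat_lit 70598) (.g (nat_lit 3311) (.e (nat_lit 1659) (nat_lit 115) (.e (nat_lit 393301) (nat_lit 27) (.e (nat_lit 491560) (nat_lit 10) (.e (nat_lit 344097) (nat_lit 18) (.e (nat_lit 7252) (nat_lit 383) (.e (nat_lit 8196) (nat_lit 0) (.e (nat_lit 5321) (nat_lit 298) .nil))))))) (.g (nat_lit 4) .nil .nil))) 
(.lf (nat_lit 70630) (.g (nat_lit 3379) (.e (nat_lit 1659) (nat_lit 115) (.e (nat_lit 393301) (nat_lit 27) (.e (nat_lit 491560) (nat_lit 10) (.e (nat_lit 344097) (nat_lit 18) (.e (nat_lit 7255) (nat_lit 383) (.e (nat_lit 8192) (nat_lit 0) (.e (nat_lit 5325) (nat_lit 298) .nil))))))) (.g (nat_lit 5) .nil .nil)))) (.nd (nat_lit 5) 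
(.lf (nat_lit 70614) (.g (nat_lit 3804) (.e (nat_lit 1659) (nat_lit 115) (.e (nat_lit 393301) (nat_lit 27) (.e (nat_lit 491560) (nat_lit 10) (.e (nat_lit 344097) (nat_lit 18) (.e (nat_lit 7254) (nat_lit 383) (.e (nat_lit 8192) (nat_lit 0) (.e (nat_lit 5325) (nat_lit 298) .nil))))))) (.g (nat_lit 6) .nil .nil))) 
(.lf (nat_lit 70646) (.g (nat_lit 3464) (.e (nat_lit 1659) (nat_lit 115) (.e (nat_lit 393301) (nat_lit 27) (.e (nat_lit 491560) (nat_lit 10) (.e (nat_lit 344097) (nat_lit 18) (.e (nat_lit 7272) (nat_lit 385) (.e (nat_lit 122883) (nat_lit 0) (.e (nat_lit 6457) (nat_lit 343) .nil))))))) (.g (nat_lit 5) .nil .nil))))) (.nd (nat_lit 4) (.nd (nat_lit 5) 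
(.lf (nat_lit 70606) (.g (nat_lit 2849) (.e (nat_lit 1659) (nat_lit 115) (.e (nat_lit 393301) (nat_lit 27) (.e (nat_lit 491560) (nat_lit 10) (.e (nat_lit 344097) (nat_lit 18) (.e (nat_lit 7252) (nat_lit 383) (.e (nat_lit 8200) (nat_lit 0) (.e (nat_lit 5367) (nat_lit 298) .nil))))))) (.g (nat_lit 4) .nil .nil))) 
(.lf (nat_lit 70638) (.g (nat_lit 3376) (.e (nat_lit 1659) (nat_lit 115) (.e (nat_lit 393301) (nat_lit 27) (.e (nat_lit 491560) (nat_lit 10) (.e (nat_lit 344097) (nat_lit 18) (.e (nat_lit 7255) (nat_lit 383) (.e (nat_lit 8198) (nat_lit 0) (.e (nat_lit 5369) (nat_lit 298) .nil))))))) (.g (nat_lit 4) .nil .nil)))) (.nd (nat_lit 5) 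
(.lf (nat_lit 70622) (.g (nat_lit 2999) (.e (nat_lit 1659) (nat_lit 115) (.e (nat_lit 393301) (nat_lit 27) (.e (nat_lit 491560) (nat_lit 10) (.e (nat_lit 344097) (nat_lit 18) (.e (nat_lit 7254) (nat_lit 383) (.e (nat_lit 8197) (nat_lit 0) (.e (nat_lit 5369) (nat_lit 298) .nil))))))) (.g (nat_lit 4) .nil .nil))) 
(.lf (nat_lit 70654) (.g (nat_lit 3014) (.e (nat_lit 1659) (nat_lit 115) (.e (nat_lit 393301) (nat_lit 27) (.e (nat_lit 491560) (nat_lit 10) (.e (nat_lit 344099) (nat_lit 18) (.e (nat_lit 7255) (nat_lit 383) (.e (nat_lit 8192) (nat_lit 0) (.e (nat_lit 5325) (nat_lit 298) .nil))))))) (.g (nat_lit 6) .nil .nil)))))))) 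
(.nd (nat_lit 1) (.nd (nat_lit 2) (.nd (nat_lit 3) (.nd (nat_lit 4) (.nd (nat_lit 5) 
(.lf (nat_lit 70593) (.g (nat_lit 2721) (.e (nat_lit 1659) (nat_lit 115) (.e (nat_lit 393301) (nat_lit 27) (.e (nat_lit 491560) (nat_lit 10) (.e (nat_lit 344097) (nat_lit 18) (.e (nat_lit 7252) (nat_lit 383) (.e (nat_lit 8192) (nat_lit 0) (.e (nat_lit 5367) (nat_lit 298) .nil))))))) (.g (nat_lit 4) .nil .nil))) 
(.lf (nat_lit 70625) (.g (nat_lit 2945) (.e (nat_lit 1659) (nat_lit 115) (.e (nat_lit 393301) (nat_lit 27) (.e (nat_lit 491560) (nat_lit 10) (.e (nat_lit 344097) (nat_lit 18) (.e (nat_lit 7254) (nat_lit 383) (.e (nat_lit 8199) (nat_lit 0) (.e (nat_lit 5369) (nat_lit 298) .nil))))))) (.g (nat_lit 4) .nil .nil)))) (.nd (nat_lit 5) 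
(.lf (nat_lit 70609) (.g (nat_lit 3039) (.e (nat_lit 1659) (nat_lit 115) (.e (nat_lit 393301) (nat_lit 27) (.e (nat_lit 491560) (nat_lit 10) (.e (nat_lit 344097) (nat_lit 18) (.e (nat_lit 7253) (nat_lit 383) (.e (nat_lit 8193) (nat_lit 0) (.e (nat_lit 5355) (nat_lit 298) .nil))))))) (.g (nat_lit 4) .nil .nil))) 
(.lf (nat_lit 70641) (.g (nat_lit 4392) (.e (nat_lit 1659) (nat_lit 115) (.e (nat_lit 393301) (nat_lit 27) (.e (nat_lit 491560) (nat_lit 10) (.e (nat_lit 344097) (nat_lit 18) (.e (nat_lit 7270) (nat_lit 385) (.e (nat_lit 122883) (nat_lit 0) (.e (nat_lit 6457) (nat_lit 343) .nil))))))) (.g (nat_lit 5) .nil .nil))))) (.nd (nat_lit 4) (.nd (nat_lit 5) 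
(.lf (nat_lit 70601) (.g (nat_lit 2762) (.e (nat_lit 1659) (nat_lit 115) (.e (nat_lit 393301) (nat_lit 27) (.e (nat_lit 491560) (nat_lit 10) (.e (nat_lit 344097) (nat_lit 18) (.e (nat_lit 7252) (nat_lit 383) (.e (nat_lit 8197) (nat_lit 0) (.e (nat_lit 5324) (nat_lit 298) .nil))))))) (.g (nat_lit 4) .nil .nil))) 
(.lf (nat_lit 70633) (.g (nat_lit 2938) (.e (nat_lit 1659) (nat_lit 115) (.e (nat_lit 393301) (nat_lit 27) (.e (nat_lit 491560) (nat_lit 10) (.e (nat_lit 344097) (nat_lit 18) (.e (nat_lit 7255) (nat_lit 383) (.e (nat_lit 8193) (nat_lit 0) (.e (nat_lit 5355) (nat_lit 298) .nil))))))) (.g (nat_lit 4) .nil .nil)))) (.nd (nat_lit 5) 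
(.lf (nat_lit 70617) (.g (nat_lit 2677) (.e (nat_lit 1659) (nat_lit 115) (.e (nat_lit 393301) (nat_lit 27) (.e (nat_lit 491560) (nat_lit 10) (.e (nat_lit 344097) (nat_lit 18) (.e (nat_lit 7254) (nat_lit 383) (.e (nat_lit 8193) (nat_lit 0) (.e (nat_lit 5321) (nat_lit 298) .nil))))))) (.g (nat_lit 4) .nil .nil))) 
(.lf (nat_lit 70649) (.g (nat_lit 1764) (.e (nat_lit 1659) (nat_lit 115) (.e (nat_lit 393301) (nat_lit 27) (.e (nat_lit 491560) (nat_lit 10) (.e (nat_lit 344099) (nat_lit 18) .nil)))) .nil))))) (.nd (nat_lit 3) (.nd (nat_lit 4) (.nd (nat_lit 5) 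
(.lf (nat_lit 70597) (.g (nat_lit 2901) (.e (nat_lit 1659) (nat_lit 115) (.e (nat_lit 393301) (nat_lit 27) (.e (nat_lit 491560) (nat_lit 10) (.e (nat_lit 344097) (nat_lit 18) (.e (nat_lit 7252) (nat_lit 383) (.e (nat_lit 8195) (nat_lit 0) (.e (nat_lit 5321) (nat_lit 298) .nil))))))) (.g (nat_lit 4) .nil .nil))) 
(.lf (nat_lit 70629) (.g (nat_lit 3630) (.e (nat_lit 1659) (nat_lit 115) (.e (nat_lit 393301) (nat_lit 27) (.e (nat_lit 491560) (nat_lit 10) (.e (nat_lit 344097) (nat_lit 18) (.e (nat_lit 7255) (nat_lit 383) (.e (nat_lit 8192) (nat_lit 0) (.e (nat_lit 5323) (nat_lit 298) .nil))))))) (.g (nat_lit 5) .nil .nil)))) (.nd (nat_lit 5) 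
(.lf (nat_lit 70613) (.g (nat_lit 4048) (.e (nat_lit 1659) (nat_lit 115) (.e (nat_lit 393301) (nat_lit 27) (.e (nat_lit 491560) (nat_lit 10) (.e (nat_lit 344097) (nat_lit 18) (.e (nat_lit 7254) (nat_lit 383) (.e (nat_lit 8192) (nat_lit 0) (.e (nat_lit 5323) (nat_lit 298) .nil))))))) (.g (nat_lit 7) .nil .nil))) 
(.lf (nat_lit 70645) (.g (nat_lit 2438) (.e (nat_lit 1659) (nat_lit 115) (.e (nat_lit 393301) (nat_lit 27) (.e (nat_lit 491560) (nat_lit 10) (.e (nat_lit 344097) (nat_lit 18) (.e (nat_lit 7272) (nat_lit 385) .nil))))) .nil)))) (.nd (nat_lit 4) (.nd (nat_lit 5) 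
(.lf (nat_lit 70605) (.g (nat_lit 3466) (.e (nat_lit 1659) (nat_lit 115) (.e (nat_lit 393301) (nat_lit 27) (.e (nat_lit 491560) (nat_lit 10) (.e (nat_lit 344097) (nat_lit 18) (.e (nat_lit 7252) (nat_lit 383) (.e (nat_lit 8200) (nat_lit 0) (.e (nat_lit 5321) (nat_lit 298) .nil))))))) (.g (nat_lit 4) .nil .nil))) 
(.lf (nat_lit 70637) (.g (nat_lit 3229) (.e (nat_lit 1659) (nat_lit 115) (.e (nat_lit 393301) (nat_lit 27) (.e (nat_lit 491560) (nat_lit 10) (.e (nat_lit 344097) (nat_lit 18) (.e (nat_lit 7255) (nat_lit 383) (.e (nat_lit 8198) (nat_lit 0) (.e (nat_lit 5367) (nat_lit 298) .nil))))))) (.g (nat_lit 4) .nil .nil)))) (.nd (nat_lit 5) 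
(.lf (nat_lit 70621) (.g (nat_lit 2812) (.e (nat_lit 1659) (nat_lit 115) (.e (nat_lit 393301) (nat_lit 27) (.e (nat_lit 491560) (nat_lit 10) (.e (nat_lit 344097) (nat_lit 18) (.e (nat_lit 7254) (nat_lit 383) (.e (nat_lit 8197) (nat_lit 0) (.e (nat_lit 5367) (nat_lit 298) .nil))))))) (.g (nat_lit 4) .nil .nil))) 
(.lf (nat_lit 70653) (.g (nat_lit 3265) (.e (nat_lit 1659) (nat_lit 115) (.e (nat_lit 393301) (nat_lit 27) (.e (nat_lit 491560) (nat_lit 10) (.e (nat_lit 344099) (nat_lit 18) (.e (nat_lit 7255) (nat_lit 383) (.e (nat_lit 8192) (nat_lit 0) (.e (nat_lit 5323) (nat_lit 298) .nil))))))) (.g (nat_lit 7) .nil .nil))))))) (.nd (nat_lit 2) (.nd (nat_lit 3) (.nd (nat_lit 4) (.nd (nat_lit 5) 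
(.lf (nat_lit 70595) (.g (nat_lit 2837) (.e (nat_lit 1659) (nat_lit 115) (.e (nat_lit 393301) (nat_lit 27) (.e (nat_lit 491560) (nat_lit 10) (.e (nat_lit 344097) (nat_lit 18) (.e (nat_lit 7252) (nat_lit 383) (.e (nat_lit 8193) (nat_lit 0) (.e (nat_lit 5321) (nat_lit 298) .nil))))))) (.g (nat_lit 4) .nil .nil))) 
(.lf (nat_lit 70627) (.g (nat_lit 3377) (.e (nat_lit 1659) (nat_lit 115) (.e (nat_lit 393301) (nat_lit 27) (.e (nat_lit 491560) (nat_lit 10) (.e (nat_lit 344097) (nat_lit 18) (.e (nat_lit 7255) (nat_lit 383) (.e (nat_lit 8192) (nat_lit 0) (.e (nat_lit 5321) (nat_lit 298) .nil))))))) (.g (nat_lit 4) .nil .nil)))) (.nd (nat_lit 5) 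
(.lf (nat_lit 70611) (.g (nat_lit 3802) (.e (nat_lit 1659) (nat_lit 115) (.e (nat_lit 393301) (nat_lit 27) (.e (nat_lit 491560) (nat_lit 10) (.e (nat_lit 344097) (nat_lit 18) (.e (nat_lit 7254) (nat_lit 383) (.e (nat_lit 8192) (nat_lit 0) (.e (nat_lit 5321) (nat_lit 298) .nil))))))) (.g (nat_lit 5) .nil .nil))) 
(.lf (nat_lit 70643) (.g (nat_lit 3127) (.e (nat_lit 1659) (nat_lit 115) (.e (nat_lit 393301) (nat_lit 27) (.e (nat_lit 491560) (nat_lit 10) (.e (nat_lit 344097) (nat_lit 18) (.e (nat_lit 7270) (nat_lit 385) (.e (nat_lit 122883) (nat_lit 0) (.e (nat_lit 6493) (nat_lit 343) .nil))))))) (.g (nat_lit 4) .nil .nil))))) (.nd (nat_lit 4) (.nd (nat_lit 5) 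
(.lf (nat_lit 70603) (.g (nat_lit 2714) (.e (nat_lit 1659) (nat_lit 115) (.e (nat_lit 393301) (nat_lit 27) (.e (nat_lit 491560) (nat_lit 10) (.e (nat_lit 344097) (nat_lit 18) (.e (nat_lit 7252) (nat_lit 383) (.e (nat_lit 8198) (nat_lit 0) (.e (nat_lit 5369) (nat_lit 298) .nil))))))) (.g (nat_lit 4) .nil .nil))) 
(.lf (nat_lit 70635) (.g (nat_lit 3021) (.e (nat_lit 1659) (nat_lit 115) (.e (nat_lit 393301) (nat_lit 27) (.e (nat_lit 491560) (nat_lit 10) (.e (nat_lit 344097) (nat_lit 18) (.e (nat_lit 7255) (nat_lit 383) (.e (nat_lit 8198) (nat_lit 0) (.e (nat_lit 5321) (nat_lit 298) .nil))))))) (.g (nat_lit 4) .nil .nil)))) (.nd (nat_lit 5) 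
(.lf (nat_lit 70619) (.g (nat_lit 3692) (.e (nat_lit 1659) (nat_lit 115) (.e (nat_lit 393301) (nat_lit 27) (.e (nat_lit 491560) (nat_lit 10) (.e (nat_lit 344097) (nat_lit 18) (.e (nat_lit 7254) (nat_lit 383) (.e (nat_lit 8197) (nat_lit 0) (.e (nat_lit 5321) (nat_lit 298) .nil))))))) (.g (nat_lit 5) .nil .nil))) 
(.lf (nat_lit 70651) (.g (nat_lit 1847) (.e (nat_lit 1659) (nat_lit 115) (.e (nat_lit 393301) (nat_lit 27) (.e (nat_lit 491560) (nat_lit 10) (.e (nat_lit 344099) (nat_lit 18) (.e (nat_lit 7255) (nat_lit 383) .nil))))) .nil))))) (.nd (nat_lit 3) (.nd (nat_lit 4) (.nd (nat_lit 5) 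
(.lf (nat_lit 70599) (.g (nat_lit 3061) (.e (nat_lit 1659) (nat_lit 115) (.e (nat_lit 393301) (nat_lit 27) (.e (nat_lit 491560) (nat_lit 10) (.e (nat_lit 344097) (nat_lit 18) (.e (nat_lit 7252) (nat_lit 383) (.e (nat_lit 8196) (nat_lit 0) (.e (nat_lit 5323) (nat_lit 298) .nil))))))) (.g (nat_lit 4) .nil .nil))) 
(.lf (nat_lit 70631) (.g (nat_lit 3508) (.e (nat_lit 1659) (nat_lit 115) (.e (nat_lit 393301) (nat_lit 27) (.e (nat_lit 491560) (nat_lit 10) (.e (nat_lit 344097) (nat_lit 18) (.e (nat_lit 7255) (nat_lit 383) (.e (nat_lit 8192) (nat_lit 0) (.e (nat_lit 5355) (nat_lit 298) .nil))))))) (.g (nat_lit 5) .nil .nil)))) (.nd (nat_lit 5) 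
(.lf (nat_lit 70615) (.g (nat_lit 2909) (.e (nat_lit 1659) (nat_lit 115) (.e (nat_lit 393301) (nat_lit 27) (.e (nat_lit 491560) (nat_lit 10) (.e (nat_lit 344097) (nat_lit 18) (.e (nat_lit 7254) (nat_lit 383) (.e (nat_lit 8192) (nat_lit 0) (.e (nat_lit 5367) (nat_lit 298) .nil))))))) (.g (nat_lit 4) .nil .nil))) 
(.lf (nat_lit 70647) (.g (nat_lit 3960) (.e (nat_lit 1659) (nat_lit 115) (.e (nat_lit 393301) (nat_lit 27) (.e (nat_lit 491560) (nat_lit 10) (.e (nat_lit 344097) (nat_lit 18) (.e (nat_lit 7272) (nat_lit 385) (.e (nat_lit 122883) (nat_lit 0) (.e (nat_lit 6489) (nat_lit 343) .nil))))))) (.g (nat_lit 6) .nil .nil))))) (.nd (nat_lit 4) (.nd (nat_lit 5) 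
(.lf (nat_lit 70607) (.g (nat_lit 4823) (.e (nat_lit 1659) (nat_lit 115) (.e (nat_lit 393301) (nat_lit 27) (.e (nat_lit 491560) (nat_lit 10) (.e (nat_lit 344097) (nat_lit 18) (.e (nat_lit 7252) (nat_lit 383) (.e (nat_lit 8200) (nat_lit 0) (.e (nat_lit 5369) (nat_lit 298) .nil))))))) (.g (nat_lit 0) .nil .nil))) 
(.lf (nat_lit 70639) (.g (nat_lit 3038) (.e (nat_lit 1659) (nat_lit 115) (.e (nat_lit 393301) (nat_lit 27) (.e (nat_lit 491560) (nat_lit 10) (.e (nat_lit 344097) (nat_lit 18) (.e (nat_lit 7270) (nat_lit 385) (.e (nat_lit 122880) (nat_lit 0) (.e (nat_lit 6489) (nat_lit 343) .nil))))))) (.g (nat_lit 4) .nil .nil)))) (.nd (nat_lit 5) 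
(.lf (nat_lit 70623) (.g (nat_lit 2695) (.e (nat_lit 1659) (nat_lit 115) (.e (nat_lit 393301) (nat_lit 27) (.e (nat_lit 491560) (nat_lit 10) (.e (nat_lit 344097) (nat_lit 18) (.e (nat_lit 7254) (nat_lit 383) (.e (nat_lit 8199) (nat_lit 0) (.e (nat_lit 5321) (nat_lit 298) .nil))))))) (.g (nat_lit 4) .nil .nil))) 
(.lf (nat_lit 70655) (.g (nat_lit 2844) (.e (nat_lit 1659) (nat_lit 115) (.e (nat_lit 393301) (nat_lit 27) (.e (nat_lit 491560) (nat_lit 10) (.e (nat_lit 344099) (nat_lit 18) (.e (nat_lit 7270) (nat_lit 385) (.e (nat_lit 122880) (nat_lit 0) (.e (nat_lit 6490) (nat_lit 343) .nil))))))) (.g (nat_lit 5) .nil .nil)))))))))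

noncomputable def tv966 : DT := (.nd (nat_lit 0) (.nd (nat_lit 1) (.nd (nat_lit 2) (.nd (nat_lit 3) (.nd (nat_lit 4) (.nd (nat_lit 5) 
(.lf (nat_lit 70656) (.g (nat_lit 3638) (.e (nat_lit 1659) (nat_lit 115) (.e (nat_lit 393301) (nat_lit 27) (.e (nat_lit 491560) (nat_lit 10) (.e (nat_lit 344099) (nat_lit 18) (.e (nat_lit 7270) (nat_lit 385) (.e (nat_lit 122883) (nat_lit 0) (.e (nat_lit 6457) (nat_lit 343) .nil))))))) (.g (nat_lit 6) .nil .nil))) 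
(.lf (nat_lit 70688) (.g (nat_lit 2781) (.e (nat_lit 1659) (nat_lit 115) (.e (nat_lit 393301) (nat_lit 27) (.e (nat_lit 491560) (nat_lit 10) (.e (nat_lit 344177) (nat_lit 43) (.e (nat_lit 770068) (nat_lit 7) (.e (nat_lit 57738) (nat_lit 187) .nil)))))) (.g (nat_lit 5) .nil .nil)))) (.nd (nat_lit 5) 
(.lf (nat_lit 70672) (.g (nat_lit 3814) (.e (nat_lit 1659) (nat_lit 115) (.e (nat_lit 393301) (nat_lit 27) (.e (nat_lit 491560) (nat_lit 10) (.e (nat_lit 344174) (nat_lit 42) (.e (nat_lit 761866) (nat_lit 5) (.e (nat_lit 1037) (nat_lit 81) (.e (nat_lit 6489) (nat_lit 343) .nil))))))) (.g (nat_lit 5) .nil .nil))) 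
(.lf (nat_lit 70704) (.g (nat_lit 1748) (.e (nat_lit 1659) (nat_lit 115) (.e (nat_lit 393301) (nat_lit 27) (.e (nat_lit 491560) (nat_lit 10) (.e (nat_lit 344179) (nat_lit 44) .nil)))) .nil)))) (.nd (nat_lit 4) (.nd (nat_lit 5) 
(.lf (nat_lit 70664) (.g (nat_lit 4402) (.e (nat_lit 1659) (nat_lit 115) (.e (nat_lit 393301) (nat_lit 27) (.e (nat_lit 491560) (nat_lit 10) (.e (nat_lit 344170) (nat_lit 41) (.e (nat_lit 753686) (nat_lit 8) (.e (nat_lit 164238) (nat_lit 187) .nil)))))) (.g (nat_lit 0) .nil .nil))) 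
(.lf (nat_lit 70696) (.g (nat_lit 2556) (.e (nat_lit 1659) (nat_lit 115) (.e (nat_lit 393301) (nat_lit 27) (.e (nat_lit 491560) (nat_lit 10) (.e (nat_lit 344177) (nat_lit 43) (.e (nat_lit 770075) (nat_lit 11) (.e (nat_lit 123096) (nat_lit 187) .nil)))))) (.g (nat_lit 5) .nil .nil)))) (.nd (nat_lit 5) 
(.lf (nat_lit 70680) (.g (nat_lit 2026) (.e (nat_lit 1659) (nat_lit 115) (.e (nat_lit 393301) (nat_lit 27) (.e (nat_lit 491560) (nat_lit 10) (.e (nat_lit 344176) (nat_lit 43) .nil)))) .nil)) 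
(.lf (nat_lit 70712) (.g (nat_lit 3108) (.e (nat_lit 1659) (nat_lit 115) (.e (nat_lit 393301) (nat_lit 27) (.e (nat_lit 491560) (nat_lit 10) (.e (nat_lit 344179) (nat_lit 44) (.e (nat_lit 778452) (nat_lit 10) (.e (nat_lit 16128) (nat_lit 250) .nil)))))) (.g (nat_lit 4) .nil .nil)))))) (.nd (nat_lit 3) (.nd (nat_lit 4) (.nd (nat_lit 5) 
(.lf (nat_lit 70660) (.g (nat_lit 3618) (.e (nat_lit 1659) (nat_lit 115) (.e (nat_lit 393301) (nat_lit 27) (.e (nat_lit 491560) (nat_lit 10) (.e (nat_lit 344099) (nat_lit 18) (.e (nat_lit 7272) (nat_lit 385) (.e (nat_lit 122883) (nat_lit 0) (.e (nat_lit 6457) (nat_lit 343) .nil))))))) (.g (nat_lit 7) .nil .nil))) 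
(.lf (nat_lit 70692) (.g (nat_lit 2930) (.e (nat_lit 1659) (nat_lit 115) (.e (nat_lit 393301) (nat_lit 27) (.e (nat_lit 491560) (nat_lit 10) (.e (nat_lit 344177) (nat_lit 43) (.e (nat_lit 770069) (nat_lit 7) (.e (nat_lit 57738) (nat_lit 187) .nil)))))) (.g (nat_lit 6) .nil .nil)))) (.nd (nat_lit 5) 
(.lf (nat_lit 70676) (.g (nat_lit 3121) (.e (nat_lit 1659) (nat_lit 115) (.e (nat_lit 393301) (nat_lit 27) (.e (nat_lit 491560) (nat_lit 10) (.e (nat_lit 344175) (nat_lit 43) (.e (nat_lit 770069) (nat_lit 7) (.e (nat_lit 57738) (nat_lit 187) .nil)))))) (.g (nat_lit 5) .nil .nil))) 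
(.lf (nat_lit 70708) (.g (nat_lit 3097) (.e (nat_lit 1659) (nat_lit 115) (.e (nat_lit 393301) (nat_lit 27) (.e (nat_lit 491560) (nat_lit 10) (.e (nat_lit 344179) (nat_lit 44) (.e (nat_lit 778449) (nat_lit 10) (.e (nat_lit 16128) (nat_lit 250) .nil)))))) (.g (nat_lit 4) .nil .nil))))) (.nd (nat_lit 4) (.nd (nat_lit 5) 
(.lf (nat_lit 70668) (.g (nat_lit 3787) (.e (nat_lit 1659) (nat_lit 115) (.e (nat_lit 393301) (nat_lit 27) (.e (nat_lit 491560) (nat_lit 10) (.e (nat_lit 344172) (nat_lit 41) (.e (nat_lit 753686) (nat_lit 8) (.e (nat_lit 164239) (nat_lit 187) .nil)))))) (.g (nat_lit 0) .nil .nil))) 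
(.lf (nat_lit 70700) (.g (nat_lit 3662) (.e (nat_lit 1659) (nat_lit 115) (.e (nat_lit 393301) (nat_lit 27) (.e (nat_lit 491560) (nat_lit 10) (.e (nat_lit 344178) (nat_lit 44) (.e (nat_lit 778310) (nat_lit 1) (.e (nat_lit 8517) (nat_lit 191) .nil)))))) (.g (nat_lit 0) .nil .nil)))) (.nd (nat_lit 5) 
(.lf (nat_lit 70684) (.g (nat_lit 1997) (.e (nat_lit 1659) (nat_lit 115) (.e (nat_lit 393301) (nat_lit 27) (.e (nat_lit 491560) (nat_lit 10) (.e (nat_lit 344177) (nat_lit 43) (.e (nat_lit 770058) (nat_lit 5) (.e (nat_lit 985) (nat_lit 81) (.e (nat_lit 6492) (nat_lit 343) .nil))))))) (.g (nat_lit 4) .nil .nil))) 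
(.lf (nat_lit 70716) (.g (nat_lit 3671) (.e (nat_lit 1659) (nat_lit 115) (.e (nat_lit 393301) (nat_lit 27) (.e (nat_lit 491560) (nat_lit 10) (.e (nat_lit 344179) (nat_lit 44) (.e (nat_lit 778454) (nat_lit 10) (.e (nat_lit 8568) (nat_lit 250) .nil)))))) (.g (nat_lit 6) .nil .nil))))))) (.nd (nat_lit 2) (.nd (nat_lit 3) (.nd (nat_lit 4) (.nd (nat_lit 5) 
(.lf (nat_lit 70658) (.g (nat_lit 2742) (.e (nat_lit 1659) (nat_lit 115) (.e (nat_lit 393301) (nat_lit 27) (.e (nat_lit 491560) (nat_lit 10) (.e (nat_lit 344099) (nat_lit 18) (.e (nat_lit 7271) (nat_lit 385) (.e (nat_lit 122883) (nat_lit 0) (.e (nat_lit 6489) (nat_lit 343) .nil))))))) (.g (nat_lit 4) .nil .nil))) 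
(.lf (nat_lit 70690) (.g (nat_lit 3202) (.e (nat_lit 1659) (nat_lit 115) (.e (nat_lit 393301) (nat_lit 27) (.e (nat_lit 491560) (nat_lit 10) (.e (nat_lit 344177) (nat_lit 43) (.e (nat_lit 770068) (nat_lit 7) (.e (nat_lit 57741) (nat_lit 187) .nil)))))) (.g (nat_lit 6) .nil .nil)))) (.nd (nat_lit 5) 
(.lf (nat_lit 70674) (.g (nat_lit 3160) (.e (nat_lit 1659) (nat_lit 115) (.e (nat_lit 393301) (nat_lit 27) (.e (nat_lit 491560) (nat_lit 10) (.e (nat_lit 344174) (nat_lit 42) (.e (nat_lit 761867) (nat_lit 5) (.e (nat_lit 1037) (nat_lit 81) (.e (nat_lit 6457) (nat_lit 343) .nil))))))) (.g (nat_lit 4) .nil .nil))) 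
(.lf (nat_lit 70706) (.g (nat_lit 2315) (.e (nat_lit 1659) (nat_lit 115) (.e (nat_lit 393301) (nat_lit 27) (.e (nat_lit 491560) (nat_lit 10) (.e (nat_lit 344179) (nat_lit 44) (.e (nat_lit 778362) (nat_lit 9) .nil))))) .nil)))) (.nd (nat_lit 4) (.nd (nat_lit 5) 
(.lf (nat_lit 70666) (.g (nat_lit 4389) (.e (nat_lit 1659) (nat_lit 115) (.e (nat_lit 393301) (nat_lit 27) (.e (nat_lit 491560) (nat_lit 10) (.e (nat_lit 344171) (nat_lit 41) (.e (nat_lit 753686) (nat_lit 8) (.e (nat_lit 164238) (nat_lit 187) .nil)))))) (.g (nat_lit 0) .nil .nil))) 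
(.lf (nat_lit 70698) (.g (nat_lit 1877) (.e (nat_lit 1659) (nat_lit 115) (.e (nat_lit 393301) (nat_lit 27) (.e (nat_lit 491560) (nat_lit 10) (.e (nat_lit 344178) (nat_lit 44) .nil)))) .nil))) (.nd (nat_lit 5) 
(.lf (nat_lit 70682) (.g (nat_lit 2266) (.e (nat_lit 1659) (nat_lit 115) (.e (nat_lit 393301) (nat_lit 27) (.e (nat_lit 491560) (nat_lit 10) (.e (nat_lit 344177) (nat_lit 43) (.e (nat_lit 777984) (nat_lit 3) (.e (nat_lit 164335) (nat_lit 232) .nil)))))) (.g (nat_lit 4) .nil .nil))) 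
(.lf (nat_lit 70714) (.g (nat_lit 3117) (.e (nat_lit 1659) (nat_lit 115) (.e (nat_lit 393301) (nat_lit 27) (.e (nat_lit 491560) (nat_lit 10) (.e (nat_lit 344179) (nat_lit 44) (.e (nat_lit 778453) (nat_lit 10) (.e (nat_lit 16128) (nat_lit 250) .nil)))))) (.g (nat_lit 4) .nil .nil)))))) (.nd (nat_lit 3) (.nd (nat_lit 4) (.nd (nat_lit 5) 
(.lf (nat_lit 70662) (.g (nat_lit 2569) (.e (nat_lit 1659) (nat_lit 115) (.e (nat_lit 393301) (nat_lit 27) (.e (nat_lit 491560) (nat_lit 10) (.e (nat_lit 344101) (nat_lit 18) .nil)))) .nil)) 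
(.lf (nat_lit 70694) (.g (nat_lit 3258) (.e (nat_lit 1659) (nat_lit 115) (.e (nat_lit 393301) (nat_lit 27) (.e (nat_lit 491560) (nat_lit 10) (.e (nat_lit 344177) (nat_lit 43) (.e (nat_lit 770069) (nat_lit 7) (.e (nat_lit 57741) (nat_lit 187) .nil)))))) (.g (nat_lit 6) .nil .nil)))) (.nd (nat_lit 5) 
(.lf (nat_lit 70678) (.g (nat_lit 3458) (.e (nat_lit 1659) (nat_lit 115) (.e (nat_lit 393301) (nat_lit 27) (.e (nat_lit 491560) (nat_lit 10) (.e (nat_lit 344175) (nat_lit 43) (.e (nat_lit 770069) (nat_lit 7) (.e (nat_lit 57741) (nat_lit 187) .nil)))))) (.g (nat_lit 6) .nil .nil))) 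
(.lf (nat_lit 70710) (.g (nat_lit 3316) (.e (nat_lit 1659) (nat_lit 115) (.e (nat_lit 393301) (nat_lit 27) (.e (nat_lit 491560) (nat_lit 10) (.e (nat_lit 344179) (nat_lit 44) (.e (nat_lit 778452) (nat_lit 10) (.e (nat_lit 8567) (nat_lit 250) .nil)))))) (.g (nat_lit 4) .nil .nil))))) (.nd (nat_lit 4) (.nd (nat_lit 5) 
(.lf (nat_lit 70670) (.g (nat_lit 1772) (.e (nat_lit 1659) (nat_lit 115) (.e (nat_lit 393301) (nat_lit 27) (.e (nat_lit 491560) (nat_lit 10) (.e (nat_lit 344173) (nat_lit 42) (.e (nat_lit 761867) (nat_lit 5) .nil))))) .nil)) 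
(.lf (nat_lit 70702) (.g (nat_lit 3287) (.e (nat_lit 1659) (nat_lit 115) (.e (nat_lit 393301) (nat_lit 27) (.e (nat_lit 491560) (nat_lit 10) (.e (nat_lit 344178) (nat_lit 44) (.e (nat_lit 778447) (nat_lit 10) (.e (nat_lit 8568) (nat_lit 250) .nil)))))) (.g (nat_lit 0) .nil .nil)))) (.nd (nat_lit 5) 
(.lf (nat_lit 70686) (.g (nat_lit 1698) (.e (nat_lit 1659) (nat_lit 115) (.e (nat_lit 393301) (nat_lit 27) (.e (nat_lit 491560) (nat_lit 10) (.e (nat_lit 344177) (nat_lit 43) (.e (nat_lit 770067) (nat_lit 7) .nil))))) .nil)) 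
(.lf (nat_lit 70718) (.g (nat_lit 3475) (.e (nat_lit 1659) (nat_lit 115) (.e (nat_lit 393301) (nat_lit 27) (.e (nat_lit 491560) (nat_lit 10) (.e (nat_lit 344179) (nat_lit 44) (.e (nat_lit 778455) (nat_lit 10) (.e (nat_lit 8566) (nat_lit 250) .nil)))))) (.g (nat_lit 5) .nil .nil)))))))) (.nd (nat_lit 1) (.nd (nat_lit 2) (.nd (nat_lit 3) (.nd (nat_lit 4) (.nd (nat_lit 5) 
(.lf (nat_lit 70657) (.g (nat_lit 4257) (.e (nat_lit 1659) (nat_lit 115) (.e (nat_lit 393301) (nat_lit 27) (.e (nat_lit 491560) (nat_lit 10) (.e (nat_lit 344099) (nat_lit 18) (.e (nat_lit 7270) (nat_lit 385) (.e (nat_lit 122883) (nat_lit 0) (.e (nat_lit 6489) (nat_lit 343) .nil))))))) (.g (nat_lit 7) .nil .nil))) 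
(.lf (nat_lit 70689) (.g (nat_lit 3066) (.e (nat_lit 1659) (nat_lit 115) (.e (nat_lit 393301) (nat_lit 27) (.e (nat_lit 491560) (nat_lit 10) (.e (nat_lit 344177) (nat_lit 43) (.e (nat_lit 770068) (nat_lit 7) (.e (nat_lit 57740) (nat_lit 187) .nil)))))) (.g (nat_lit 0) .nil .nil)))) (.nd (nat_lit 5) 
(.lf (nat_lit 70673) (.g (nat_lit 2615) (.e (nat_lit 1659) (nat_lit 115) (.e (nat_lit 393301) (nat_lit 27) (.e (nat_lit 491560) (nat_lit 10) (.e (nat_lit 344174) (nat_lit 42) (.e (nat_lit 761867) (nat_lit 5) .nil))))) .nil)) 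
(.lf (nat_lit 70705) (.g (nat_lit 3552) (.e (nat_lit 1659) (nat_lit 115) (.e (nat_lit 393301) (nat_lit 27) (.e (nat_lit 491560) (nat_lit 10) (.e (nat_lit 344179) (nat_lit 44) (.e (nat_lit 778361) (nat_lit 9) (.e (nat_lit 3) (nat_lit 0) (.e (nat_lit 6468) (nat_lit 343) .nil))))))) (.g (nat_lit 5) .nil .nil))))) (.nd (nat_lit 4) (.nd (nat_lit 5) 
(.lf (nat_lit 70665) (.g (nat_lit 2407) (.e (nat_lit 1659) (nat_lit 115) (.e (nat_lit 393301) (nat_lit 27) (.e (nat_lit 491560) (nat_lit 10) (.e (nat_lit 344171) (nat_lit 41) .nil)))) .nil)) 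
(.lf (nat_lit 70697) (.g (nat_lit 1821) (.e (nat_lit 1659) (nat_lit 115) (.e (nat_lit 393301) (nat_lit 27) (.e (nat_lit 491560) (nat_lit 10) (.e (nat_lit 344177) (nat_lit 43) (.e (nat_lit 770075) (nat_lit 11) (.e (nat_lit 123097) (nat_lit 187) .nil)))))) (.g (nat_lit 4) .nil .nil)))) (.nd (nat_lit 5) 
(.lf (nat_lit 70681) (.g (nat_lit 1701) (.e (nat_lit 1659) (nat_lit 115) (.e (nat_lit 393301) (nat_lit 27) (.e (nat_lit 491560) (nat_lit 10) (.e (nat_lit 344177) (nat_lit 43) (.e (nat_lit 777984) (nat_lit 3) .nil))))) .nil)) 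
(.lf (nat_lit 70713) (.g (nat_lit 2970) (.e (nat_lit 1659) (nat_lit 115) (.e (nat_lit 393301) (nat_lit 27) (.e (nat_lit 491560) (nat_lit 10) (.e (nat_lit 344179) (nat_lit 44) (.e (nat_lit 778453) (nat_lit 10) (.e (nat_lit 8568) (nat_lit 250) .nil)))))) (.g (nat_lit 4) .nil .nil)))))) (.nd (nat_lit 3) (.nd (nat_lit 4) (.nd (nat_lit 5) 
(.lf (nat_lit 70661) (.g (nat_lit 4073) (.e (nat_lit 1659) (nat_lit 115) (.e (nat_lit 393301) (nat_lit 27) (.e (nat_lit 491560) (nat_lit 10) (.e (nat_lit 344099) (nat_lit 18) (.e (nat_lit 7272) (nat_lit 385) (.e (nat_lit 122883) (nat_lit 0) (.e (nat_lit 6489) (nat_lit 343) .nil))))))) (.g (nat_lit 7) .nil .nil))) 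
(.lf (nat_lit 70693) (.g (nat_lit 2455) (.e (nat_lit 1659) (nat_lit 115) (.e (nat_lit 393301) (nat_lit 27) (.e (nat_lit 491560) (nat_lit 10) (.e (nat_lit 344177) (nat_lit 43) (.e (nat_lit 770069) (nat_lit 7) (.e (nat_lit 57740) (nat_lit 187) .nil)))))) (.g (nat_lit 4) .nil .nil)))) (.nd (nat_lit 5) 
(.lf (nat_lit 70677) (.g (nat_lit 2653) (.e (nat_lit 1659) (nat_lit 115) (.e (nat_lit 393301) (nat_lit 27) (.e (nat_lit 491560) (nat_lit 10) (.e (nat_lit 344175) (nat_lit 43) (.e (nat_lit 770069) (nat_lit 7) (.e (nat_lit 57740) (nat_lit 187) .nil)))))) (.g (nat_lit 4) .nil .nil))) 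
(.lf (nat_lit 70709) (.g (nat_lit 3146) (.e (nat_lit 1659) (nat_lit 115) (.e (nat_lit 393301) (nat_lit 27) (.e (nat_lit 491560) (nat_lit 10) (.e (nat_lit 344179) (nat_lit 44) (.e (nat_lit 778452) (nat_lit 10) (.e (nat_lit 8566) (nat_lit 250) .nil)))))) (.g (nat_lit 4) .nil .nil))))) (.nd (nat_lit 4) (.nd (nat_lit 5) 
(.lf (nat_lit 70669) (.g (nat_lit 1710) (.e (nat_lit 1659) (nat_lit 115) (.e (nat_lit 393301) (nat_lit 27) (.e (nat_lit 491560) (nat_lit 10) (.e (nat_lit 344173) (nat_lit 42) .nil)))) .nil)) 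
(.lf (nat_lit 70701) (.g (nat_lit 3590) (.e (nat_lit 1659) (nat_lit 115) (.e (nat_lit 393301) (nat_lit 27) (.e (nat_lit 491560) (nat_lit 10) (.e (nat_lit 344178) (nat_lit 44) (.e (nat_lit 778447) (nat_lit 10) (.e (nat_lit 8567) (nat_lit 250) .nil)))))) (.g (nat_lit 0) .nil .nil)))) (.nd (nat_lit 5) 
(.lf (nat_lit 70685) (.g (nat_lit 2604) (.e (nat_lit 1659) (nat_lit 115) (.e (nat_lit 393301) (nat_lit 27) (.e (nat_lit 491560) (nat_lit 10) (.e (nat_lit 344177) (nat_lit 43) (.e (nat_lit 770058) (nat_lit 5) (.e (nat_lit 985) (nat_lit 81) (.e (nat_lit 6494) (nat_lit 343) .nil))))))) (.g (nat_lit 5) .nil .nil))) 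
(.lf (nat_lit 70717) (.g (nat_lit 3369) (.e (nat_lit 1659) (nat_lit 115) (.e (nat_lit 393301) (nat_lit 27) (.e (nat_lit 491560) (nat_lit 10) (.e (nat_lit 344179) (nat_lit 44) (.e (nat_lit 778454) (nat_lit 10) (.e (nat_lit 16128) (nat_lit 250) .nil)))))) (.g (nat_lit 5) .nil .nil))))))) (.nd (nat_lit 2) (.nd (nat_lit 3) (.nd (nat_lit 4) (.nd (nat_lit 5) 
(.lf (nat_lit 70659) (.g (nat_lit 2647) (.e (nat_lit 1659) (nat_lit 115) (.e (nat_lit 393301) (nat_lit 27) (.e (nat_lit 491560) (nat_lit 10) (.e (nat_lit 344099) (nat_lit 18) (.e (nat_lit 7272) (nat_lit 385) (.e (nat_lit 122880) (nat_lit 0) (.e (nat_lit 6490) (nat_lit 343) .nil))))))) (.g (nat_lit 4) .nil .nil))) 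
(.lf (nat_lit 70691) (.g (nat_lit 2831) (.e (nat_lit 1659) (nat_lit 115) (.e (nat_lit 393301) (nat_lit 27) (.e (nat_lit 491560) (nat_lit 10) (.e (nat_lit 344177) (nat_lit 43) (.e (nat_lit 770068) (nat_lit 7) (.e (nat_lit 65280) (nat_lit 187) .nil)))))) (.g (nat_lit 5) .nil .nil)))) (.nd (nat_lit 5) 
(.lf (nat_lit 70675) (.g (nat_lit 1712) (.e (nat_lit 1659) (nat_lit 115) (.e (nat_lit 393301) (nat_lit 27) (.e (nat_lit 491560) (nat_lit 10) (.e (nat_lit 344175) (nat_lit 43) .nil)))) .nil)) 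
(.lf (nat_lit 70707) (.g (nat_lit 3898) (.e (nat_lit 1659) (nat_lit 115) (.e (nat_lit 393301) (nat_lit 27) (.e (nat_lit 491560) (nat_lit 10) (.e (nat_lit 344179) (nat_lit 44) (.e (nat_lit 778362) (nat_lit 9) (.e (nat_lit 3) (nat_lit 0) (.e (nat_lit 6470) (nat_lit 343) .nil))))))) (.g (nat_lit 5) .nil .nil))))) (.nd (nat_lit 4) (.nd (nat_lit 5) 
(.lf (nat_lit 70667) (.g (nat_lit 3855) (.e (nat_lit 1659) (nat_lit 115) (.e (nat_lit 393301) (nat_lit 27) (.e (nat_lit 491560) (nat_lit 10) (.e (nat_lit 344171) (nat_lit 41) (.e (nat_lit 753686) (nat_lit 8) (.e (nat_lit 164239) (nat_lit 187) .nil)))))) (.g (nat_lit 0) .nil .nil))) 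
(.lf (nat_lit 70699) (.g (nat_lit 3708) (.e (nat_lit 1659) (nat_lit 115) (.e (nat_lit 393301) (nat_lit 27) (.e (nat_lit 491560) (nat_lit 10) (.e (nat_lit 344178) (nat_lit 44) (.e (nat_lit 778310) (nat_lit 1) (.e (nat_lit 8515) (nat_lit 191) .nil)))))) (.g (nat_lit 0) .nil .nil)))) (.nd (nat_lit 5) 
(.lf (nat_lit 70683) (.g (nat_lit 2434) (.e (nat_lit 1659) (nat_lit 115) (.e (nat_lit 393301) (nat_lit 27) (.e (nat_lit 491560) (nat_lit 10) (.e (nat_lit 344177) (nat_lit 43) (.e (nat_lit 770058) (nat_lit 5) (.e (nat_lit 985) (nat_lit 81) (.e (nat_lit 6489) (nat_lit 343) .nil))))))) (.g (nat_lit 4) .nil .nil))) 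
(.lf (nat_lit 70715) (.g (nat_lit 3456) (.e (nat_lit 1659) (nat_lit 115) (.e (nat_lit 393301) (nat_lit 27) (.e (nat_lit 491560) (nat_lit 10) (.e (nat_lit 344179) (nat_lit 44) (.e (nat_lit 778454) (nat_lit 10) (.e (nat_lit 8566) (nat_lit 250) .nil)))))) (.g (nat_lit 5) .nil .nil)))))) (.nd (nat_lit 3) (.nd (nat_lit 4) (.nd (nat_lit 5) 
(.lf (nat_lit 70663) (.g (nat_lit 1798) (.e (nat_lit 1659) (nat_lit 115) (.e (nat_lit 393301) (nat_lit 27) (.e (nat_lit 491560) (nat_lit 10) (.e (nat_lit 352000) (nat_lit 18) .nil)))) .nil)) 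
(.lf (nat_lit 70695) (.g (nat_lit 2844) (.e (nat_lit 1659) (nat_lit 115) (.e (nat_lit 393301) (nat_lit 27) (.e (nat_lit 491560) (nat_lit 10) (.e (nat_lit 344177) (nat_lit 43) (.e (nat_lit 770069) (nat_lit 7) (.e (nat_lit 65280) (nat_lit 187) .nil)))))) (.g (nat_lit 5) .nil .nil)))) (.nd (nat_lit 5) 
(.lf (nat_lit 70679) (.g (nat_lit 3010) (.e (nat_lit 1659) (nat_lit 115) (.e (nat_lit 393301) (nat_lit 27) (.e (nat_lit 491560) (nat_lit 10) (.e (nat_lit 344175) (nat_lit 43) (.e (nat_lit 770069) (nat_lit 7) (.e (nat_lit 65280) (nat_lit 187) .nil)))))) (.g (nat_lit 5) .nil .nil))) 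
(.lf (nat_lit 70711) (.g (nat_lit 3694) (.e (nat_lit 1659) (nat_lit 115) (.e (nat_lit 393301) (nat_lit 27) (.e (nat_lit 491560) (nat_lit 10) (.e (nat_lit 344179) (nat_lit 44) (.e (nat_lit 778452) (nat_lit 10) (.e (nat_lit 8568) (nat_lit 250) .nil)))))) (.g (nat_lit 5) .nil .nil))))) (.nd (nat_lit 4) (.nd (nat_lit 5) 
(.lf (nat_lit 70671) (.g (nat_lit 2082) (.e (nat_lit 1659) (nat_lit 115) (.e (nat_lit 393301) (nat_lit 27) (.e (nat_lit 491560) (nat_lit 10) (.e (nat_lit 344174) (nat_lit 42) .nil)))) .nil)) 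
(.lf (nat_lit 70703) (.g (nat_lit 2806) (.e (nat_lit 1659) (nat_lit 115) (.e (nat_lit 393301) (nat_lit 27) (.e (nat_lit 491560) (nat_lit 10) (.e (nat_lit 344178) (nat_lit 44) (.e (nat_lit 778447) (nat_lit 10) (.e (nat_lit 16128) (nat_lit 250) .nil)))))) (.g (nat_lit 4) .nil .nil)))) (.nd (nat_lit 5) 
(.lf (nat_lit 70687) (.g (nat_lit 2355) (.e (nat_lit 1659) (nat_lit 115) (.e (nat_lit 393301) (nat_lit 27) (.e (nat_lit 491560) (nat_lit 10) (.e (nat_lit 344177) (nat_lit 43) (.e (nat_lit 770067) (nat_lit 7) (.e (nat_lit 65280) (nat_lit 187) .nil)))))) (.g (nat_lit 4) .nil .nil))) 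
(.lf (nat_lit 70719) (.g (nat_lit 3533) (.e (nat_lit 1659) (nat_lit 115) (.e (nat_lit 393301) (nat_lit 27) (.e (nat_lit 491560) (nat_lit 10) (.e (nat_lit 344179) (nat_lit 44) (.e (nat_lit 778455) (nat_lit 10) (.e (nat_lit 8568) (nat_lit 250) .nil)))))) (.g (nat_lit 5) .nil .nil)))))))))

noncomputable def tv967 : DT := (.nd (nat_lit 0) (.nd (nat_lit 1) (.nd (nat_lit 2) (.nd (nat_lit 3) (.nd (nat_lit 4) (.nd (nat_lit 5) 
(.lf (nat_lit 70720) (.g (nat_lit 3429) (.e (nat_lit 1659) (nat_lit 115) (.e (nat_lit 393301) (nat_lit 27) (.e (nat_lit 491560) (nat_lit 10) (.e (nat_lit 344179) (nat_lit 44) (.e (nat_lit 778455) (nat_lit 10) (.e (nat_lit 16128) (nat_lit 250) .nil)))))) (.g (nat_lit 5) .nil .nil))) 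
(.lf (nat_lit 70752) (.g (nat_lit 1434) (.e (nat_lit 1660) (nat_lit 115) (.e (nat_lit 393229) (nat_lit 9) (.e (nat_lit 336087) (nat_lit 9) (.e (nat_lit 336019) (nat_lit 3) (.e (nat_lit 98321) (nat_lit 17) .nil))))) .nil))) (.nd (nat_lit 5) 
(.lf (nat_lit 70736) (.g (nat_lit 1910) (.e (nat_lit 1659) (nat_lit 115) (.e (nat_lit 393301) (nat_lit 27) (.e (nat_lit 491568) (nat_lit 13) (.e (nat_lit 393234) (nat_lit 17) .nil)))) .nil)) 
(.lf (nat_lit 70768) (.g (nat_lit 3151) (.e (nat_lit 1660) (nat_lit 115) (.e (nat_lit 393229) (nat_lit 9) (.e (nat_lit 336088) (nat_lit 9) (.e (nat_lit 336019) (nat_lit 3) (.e (nat_lit 98333) (nat_lit 18) (.e (nat_lit 164151) (nat_lit 152) (.e (nat_lit 1073) (nat_lit 81) .nil))))))) (.g (nat_lit 6) .nil .nil))))) (.nd (nat_lit 4) (.nd (nat_lit 5) 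
(.lf (nat_lit 70728) (.g (nat_lit 365) (.e (nat_lit 1659) (nat_lit 115) (.e (nat_lit 393301) (nat_lit 27) (.e (nat_lit 491567) (nat_lit 13) .nil))) .nil)) 
(.lf (nat_lit 70760) (.g (nat_lit 1437) (.e (nat_lit 1660) (nat_lit 115) (.e (nat_lit 393229) (nat_lit 9) (.e (nat_lit 336087) (nat_lit 9) (.e (nat_lit 336019) (nat_lit 3) (.e (nat_lit 98334) (nat_lit 18) .nil))))) .nil))) (.nd (nat_lit 5) 
(.lf (nat_lit 70744) (.g (nat_lit 2362) (.e (nat_lit 1659) (nat_lit 115) (.e (nat_lit 393301) (nat_lit 27) (.e (nat_lit 491568) (nat_lit 13) (.e (nat_lit 393244) (nat_lit 17) .nil)))) .nil)) 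
(.lf (nat_lit 70776) (.g (nat_lit 1493) (.e (nat_lit 1660) (nat_lit 115) (.e (nat_lit 393229) (nat_lit 9) (.e (nat_lit 336184) (nat_lit 11) (.e (nat_lit 368676) (nat_lit 21) (.e (nat_lit 516115) (nat_lit 1) (.e (nat_lit 164151) (nat_lit 152) (.e (nat_lit 1056) (nat_lit 81) .nil))))))) (.g (nat_lit 5) .nil .nil)))))) (.nd (nat_lit 3) (.nd (nat_lit 4) (.nd (nat_lit 5) 
(.lf (nat_lit 70724) (.g (nat_lit 1798) (.e (nat_lit 1659) (nat_lit 115) (.e (nat_lit 393301) (nat_lit 27) (.e (nat_lit 491560) (nat_lit 10) (.e (nat_lit 352000) (nat_lit 47) .nil)))) .nil)) 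
(.lf (nat_lit 70756) (.g (nat_lit 3055) (.e (nat_lit 1660) (nat_lit 115) (.e (nat_lit 393229) (nat_lit 9) (.e (nat_lit 336087) (nat_lit 9) (.e (nat_lit 336019) (nat_lit 3) (.e (nat_lit 98333) (nat_lit 18) (.e (nat_lit 164151) (nat_lit 152) (.e (nat_lit 1073) (nat_lit 81) .nil))))))) (.g (nat_lit 6) .nil .nil)))) (.nd (nat_lit 5) 
(.lf (nat_lit 70740) (.g (nat_lit 3183) (.e (nat_lit 1659) (nat_lit 115) (.e (nat_lit 393301) (nat_lit 27) (.e (nat_lit 491568) (nat_lit 13) (.e (nat_lit 393238) (nat_lit 17) (.e (nat_lit 7537) (nat_lit 402) .nil))))) (.g (nat_lit 4) .nil .nil))) 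
(.lf (nat_lit 70772) (.g (nat_lit 630) (.e (nat_lit 1660) (nat_lit 115) (.e (nat_lit 393229) (nat_lit 9) (.e (nat_lit 336184) (nat_lit 11) (.e (nat_lit 368676) (nat_lit 21) .nil)))) .nil)))) (.nd (nat_lit 4) (.nd (nat_lit 5) 
(.lf (nat_lit 70732) (.g (nat_lit 1233) (.e (nat_lit 1659) (nat_lit 115) (.e (nat_lit 393301) (nat_lit 27) (.e (nat_lit 491567) (nat_lit 13) (.e (nat_lit 393237) (nat_lit 17) .nil)))) .nil)) 
(.lf (nat_lit 70764) (.g (nat_lit 1571) (.e (nat_lit 1660) (nat_lit 115) (.e (nat_lit 393229) (nat_lit 9) (.e (nat_lit 336088) (nat_lit 9) (.e (nat_lit 336019) (nat_lit 3) (.e (nat_lit 98333) (nat_lit 18) .nil))))) .nil))) (.nd (nat_lit 5) 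
(.lf (nat_lit 70748) (.g (nat_lit 2467) (.e (nat_lit 1660) (nat_lit 115) (.e (nat_lit 393225) (nat_lit 9) (.e (nat_lit 335995) (nat_lit 1) (.e (nat_lit 57848) (nat_lit 252) (.e (nat_lit 57372) (nat_lit 2) (.e (nat_lit 90154) (nat_lit 10) (.e (nat_lit 8567) (nat_lit 250) .nil))))))) (.g (nat_lit 4) .nil .nil))) 
(.lf (nat_lit 70780) (.g (nat_lit 2605) (.e (nat_lit 1660) (nat_lit 115) (.e (nat_lit 393229) (nat_lit 9) (.e (nat_lit 336184) (nat_lit 11) (.e (nat_lit 368676) (nat_lit 21) (.e (nat_lit 516117) (nat_lit 1) (.e (nat_lit 164164) (nat_lit 152) (.e (nat_lit 1086) (nat_lit 81) .nil))))))) (.g (nat_lit 6) .nil .nil))))))) (.nd (nat_lit 2) (.nd (nat_lit 3) (.nd (nat_lit 4) (.nd (nat_lit 5) 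
(.lf (nat_lit 70722) (.g (nat_lit 1798) (.e (nat_lit 1659) (nat_lit 115) (.e (nat_lit 393301) (nat_lit 27) (.e (nat_lit 491560) (nat_lit 10) (.e (nat_lit 352000) (nat_lit 45) .nil)))) .nil)) 
(.lf (nat_lit 70754) (.g (nat_lit 2596) (.e (nat_lit 1660) (nat_lit 115) (.e (nat_lit 393229) (nat_lit 9) (.e (nat_lit 336087) (nat_lit 9) (.e (nat_lit 336019) (nat_lit 3) (.e (nat_lit 98333) (nat_lit 18) (.e (nat_lit 164151) (nat_lit 152) (.e (nat_lit 1056) (nat_lit 81) .nil))))))) (.g (nat_lit 5) .nil .nil)))) (.nd (nat_lit 5) 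
(.lf (nat_lit 70738) (.g (nat_lit 1727) (.e (nat_lit 1659) (nat_lit 115) (.e (nat_lit 393301) (nat_lit 27) (.e (nat_lit 491568) (nat_lit 13) (.e (nat_lit 393238) (nat_lit 17) .nil)))) .nil)) 
(.lf (nat_lit 70770) (.g (nat_lit 2452) (.e (nat_lit 1660) (nat_lit 115) (.e (nat_lit 393229) (nat_lit 9) (.e (nat_lit 336088) (nat_lit 9) (.e (nat_lit 336019) (nat_lit 3) (.e (nat_lit 98333) (nat_lit 18) (.e (nat_lit 164151) (nat_lit 152) (.e (nat_lit 1102) (nat_lit 81) .nil))))))) (.g (nat_lit 5) .nil .nil))))) (.nd (nat_lit 4) (.nd (nat_lit 5) 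
(.lf (nat_lit 70730) (.g (nat_lit 3004) (.e (nat_lit 1659) (nat_lit 115) (.e (nat_lit 393301) (nat_lit 27) (.e (nat_lit 491567) (nat_lit 13) (.e (nat_lit 393233) (nat_lit 17) (.e (nat_lit 7523) (nat_lit 402) .nil))))) (.g (nat_lit 0) .nil .nil))) 
(.lf (nat_lit 70762) (.g (nat_lit 2337) (.e (nat_lit 1660) (nat_lit 115) (.e (nat_lit 393229) (nat_lit 9) (.e (nat_lit 336087) (nat_lit 9) (.e (nat_lit 336019) (nat_lit 3) (.e (nat_lit 98335) (nat_lit 18) (.e (nat_lit 164162) (nat_lit 152) (.e (nat_lit 1086) (nat_lit 81) .nil))))))) (.g (nat_lit 5) .nil .nil)))) (.nd (nat_lit 5) 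
(.lf (nat_lit 70746) (.g (nat_lit 1181) (.e (nat_lit 1659) (nat_lit 115) (.e (nat_lit 401152) (nat_lit 27) (.e (nat_lit 491571) (nat_lit 13) (.e (nat_lit 393242) (nat_lit 17) (.e (nat_lit 7554) (nat_lit 402) .nil))))) (.g (nat_lit 4) .nil .nil))) 
(.lf (nat_lit 70778) (.g (nat_lit 2039) (.e (nat_lit 1660) (nat_lit 115) (.e (nat_lit 393229) (nat_lit 9) (.e (nat_lit 336184) (nat_lit 11) (.e (nat_lit 368676) (nat_lit 21) (.e (nat_lit 516115) (nat_lit 1) (.e (nat_lit 164151) (nat_lit 152) (.e (nat_lit 1089) (nat_lit 81) .nil))))))) (.g (nat_lit 6) .nil .nil)))))) (.nd (nat_lit 3) (.nd (nat_lit 4) (.nd (nat_lit 5) 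
(.lf (nat_lit 70726) (.g (nat_lit 2508) (.e (nat_lit 1659) (nat_lit 115) (.e (nat_lit 393301) (nat_lit 27) (.e (nat_lit 491563) (nat_lit 12) (.e (nat_lit 385032) (nat_lit 16) .nil)))) .nil)) 
(.lf (nat_lit 70758) (.g (nat_lit 2356) (.e (nat_lit 1660) (nat_lit 115) (.e (nat_lit 393229) (nat_lit 9) (.e (nat_lit 336087) (nat_lit 9) (.e (nat_lit 336019) (nat_lit 3) (.e (nat_lit 98333) (nat_lit 18) (.e (nat_lit 164151) (nat_lit 152) (.e (nat_lit 1102) (nat_lit 81) .nil))))))) (.g (nat_lit 5) .nil .nil)))) (.nd (nat_lit 5) 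
(.lf (nat_lit 70742) (.g (nat_lit 1532) (.e (nat_lit 1659) (nat_lit 115) (.e (nat_lit 393301) (nat_lit 27) (.e (nat_lit 491568) (nat_lit 13) (.e (nat_lit 393242) (nat_lit 17) .nil)))) .nil)) 
(.lf (nat_lit 70774) (.g (nat_lit 2419) (.e (nat_lit 1660) (nat_lit 115) (.e (nat_lit 393229) (nat_lit 9) (.e (nat_lit 336184) (nat_lit 11) (.e (nat_lit 368676) (nat_lit 21) (.e (nat_lit 516097) (nat_lit 0) (.e (nat_lit 3460) (nat_lit 216) (.e (nat_lit 688160) (nat_lit 13) .nil))))))) (.g (nat_lit 5) .nil .nil))))) (.nd (nat_lit 4) (.nd (nat_lit 5) 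
(.lf (nat_lit 70734) (.g (nat_lit 462) (.e (nat_lit 1659) (nat_lit 115) (.e (nat_lit 393301) (nat_lit 27) (.e (nat_lit 491568) (nat_lit 13) .nil))) .nil)) 
(.lf (nat_lit 70766) (.g (nat_lit 3240) (.e (nat_lit 1660) (nat_lit 115) (.e (nat_lit 393229) (nat_lit 9) (.e (nat_lit 336088) (nat_lit 9) (.e (nat_lit 336019) (nat_lit 3) (.e (nat_lit 98333) (nat_lit 18) (.e (nat_lit 164151) (nat_lit 152) (.e (nat_lit 1062) (nat_lit 81) .nil))))))) (.g (nat_lit 6) .nil .nil)))) (.nd (nat_lit 5) 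
(.lf (nat_lit 70750) (.g (nat_lit 2257) (.e (nat_lit 1660) (nat_lit 115) (.e (nat_lit 393228) (nat_lit 9) (.e (nat_lit 336088) (nat_lit 9) (.e (nat_lit 336019) (nat_lit 3) (.e (nat_lit 98334) (nat_lit 18) (.e (nat_lit 164164) (nat_lit 152) (.e (nat_lit 1086) (nat_lit 81) .nil))))))) (.g (nat_lit 4) .nil .nil))) 
(.lf (nat_lit 70782) (.g (nat_lit 2427) (.e (nat_lit 1660) (nat_lit 115) (.e (nat_lit 393229) (nat_lit 9) (.e (nat_lit 336186) (nat_lit 11) (.e (nat_lit 368676) (nat_lit 21) (.e (nat_lit 516097) (nat_lit 0) (.e (nat_lit 3460) (nat_lit 216) (.e (nat_lit 688161) (nat_lit 13) .nil))))))) (.g (nat_lit 5) .nil .nil)))))))) 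
(.nd (nat_lit 1) (.nd (nat_lit 2) (.nd (nat_lit 3) (.nd (nat_lit 4) (.nd (nat_lit 5) 
(.lf (nat_lit 70721) (.g (nat_lit 1798) (.e (nat_lit 1659) (nat_lit 115) (.e (nat_lit 393301) (nat_lit 27) (.e (nat_lit 491560) (nat_lit 10) (.e (nat_lit 352000) (nat_lit 44) .nil)))) .nil)) 
(.lf (nat_lit 70753) (.g (nat_lit 1401) (.e (nat_lit 1660) (nat_lit 115) (.e (nat_lit 393229) (nat_lit 9) (.e (nat_lit 336087) (nat_lit 9) (.e (nat_lit 336019) (nat_lit 3) (.e (nat_lit 98333) (nat_lit 18) .nil))))) .nil))) (.nd (nat_lit 5) 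
(.lf (nat_lit 70737) (.g (nat_lit 1350) (.e (nat_lit 1659) (nat_lit 115) (.e (nat_lit 393301) (nat_lit 27) (.e (nat_lit 491568) (nat_lit 13) (.e (nat_lit 393235) (nat_lit 17) .nil)))) .nil)) 
(.lf (nat_lit 70769) (.g (nat_lit 3197) (.e (nat_lit 1660) (nat_lit 115) (.e (nat_lit 393229) (nat_lit 9) (.e (nat_lit 336088) (nat_lit 9) (.e (nat_lit 336019) (nat_lit 3) (.e (nat_lit 98333) (nat_lit 18) (.e (nat_lit 164151) (nat_lit 152) (.e (nat_lit 1089) (nat_lit 81) .nil))))))) (.g (nat_lit 7) .nil .nil))))) (.nd (nat_lit 4) (.nd (nat_lit 5) 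
(.lf (nat_lit 70729) (.g (nat_lit 1100) (.e (nat_lit 1659) (nat_lit 115) (.e (nat_lit 393301) (nat_lit 27) (.e (nat_lit 491567) (nat_lit 13) (.e (nat_lit 393231) (nat_lit 17) .nil)))) .nil)) 
(.lf (nat_lit 70761) (.g (nat_lit 1357) (.e (nat_lit 1660) (nat_lit 115) (.e (nat_lit 393229) (nat_lit 9) (.e (nat_lit 336087) (nat_lit 9) (.e (nat_lit 336019) (nat_lit 3) (.e (nat_lit 98335) (nat_lit 18) .nil))))) .nil))) (.nd (nat_lit 5) 
(.lf (nat_lit 70745) (.g (nat_lit 1585) (.e (nat_lit 1659) (nat_lit 115) (.e (nat_lit 401152) (nat_lit 27) (.e (nat_lit 491570) (nat_lit 13) (.e (nat_lit 393238) (nat_lit 17) (.e (nat_lit 7555) (nat_lit 402) .nil))))) (.g (nat_lit 4) .nil .nil))) 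
(.lf (nat_lit 70777) (.g (nat_lit 2156) (.e (nat_lit 1660) (nat_lit 115) (.e (nat_lit 393229) (nat_lit 9) (.e (nat_lit 336184) (nat_lit 11) (.e (nat_lit 368676) (nat_lit 21) (.e (nat_lit 516115) (nat_lit 1) (.e (nat_lit 164151) (nat_lit 152) (.e (nat_lit 1062) (nat_lit 81) .nil))))))) (.g (nat_lit 6) .nil .nil)))))) (.nd (nat_lit 3) (.nd (nat_lit 4) (.nd (nat_lit 5) 
(.lf (nat_lit 70725) (.g (nat_lit 1435) (.e (nat_lit 1659) (nat_lit 115) (.e (nat_lit 393301) (nat_lit 27) (.e (nat_lit 491563) (nat_lit 12) (.e (nat_lit 392960) (nat_lit 11) .nil)))) .nil)) 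
(.lf (nat_lit 70757) (.g (nat_lit 3101) (.e (nat_lit 1660) (nat_lit 115) (.e (nat_lit 393229) (nat_lit 9) (.e (nat_lit 336087) (nat_lit 9) (.e (nat_lit 336019) (nat_lit 3) (.e (nat_lit 98333) (nat_lit 18) (.e (nat_lit 164151) (nat_lit 152) (.e (nat_lit 1089) (nat_lit 81) .nil))))))) (.g (nat_lit 7) .nil .nil)))) (.nd (nat_lit 5) 
(.lf (nat_lit 70741) (.g (nat_lit 3680) (.e (nat_lit 1659) (nat_lit 115) (.e (nat_lit 393301) (nat_lit 27) (.e (nat_lit 491568) (nat_lit 13) (.e (nat_lit 393238) (nat_lit 17) (.e (nat_lit 7555) (nat_lit 402) .nil))))) (.g (nat_lit 0) .nil .nil))) 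
(.lf (nat_lit 70773) (.g (nat_lit 1213) (.e (nat_lit 1660) (nat_lit 115) (.e (nat_lit 393229) (nat_lit 9) (.e (nat_lit 336184) (nat_lit 11) (.e (nat_lit 368676) (nat_lit 21) (.e (nat_lit 516097) (nat_lit 0) .nil))))) .nil)))) (.nd (nat_lit 4) (.nd (nat_lit 5) 
(.lf (nat_lit 70733) (.g (nat_lit 2314) (.e (nat_lit 1659) (nat_lit 115) (.e (nat_lit 393301) (nat_lit 27) (.e (nat_lit 491567) (nat_lit 13) (.e (nat_lit 393238) (nat_lit 17) (.e (nat_lit 7555) (nat_lit 402) .nil))))) (.g (nat_lit 4) .nil .nil))) 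
(.lf (nat_lit 70765) (.g (nat_lit 2692) (.e (nat_lit 1660) (nat_lit 115) (.e (nat_lit 393229) (nat_lit 9) (.e (nat_lit 336088) (nat_lit 9) (.e (nat_lit 336019) (nat_lit 3) (.e (nat_lit 98333) (nat_lit 18) (.e (nat_lit 164151) (nat_lit 152) (.e (nat_lit 1056) (nat_lit 81) .nil))))))) (.g (nat_lit 5) .nil .nil)))) (.nd (nat_lit 5) 
(.lf (nat_lit 70749) (.g (nat_lit 2446) (.e (nat_lit 1660) (nat_lit 115) (.e (nat_lit 393225) (nat_lit 9) (.e (nat_lit 335995) (nat_lit 1) (.e (nat_lit 57848) (nat_lit 252) (.e (nat_lit 57375) (nat_lit 2) (.e (nat_lit 90155) (nat_lit 10) (.e (nat_lit 8567) (nat_lit 250) .nil))))))) (.g (nat_lit 4) .nil .nil))) 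
(.lf (nat_lit 70781) (.g (nat_lit 2274) (.e (nat_lit 1660) (nat_lit 115) (.e (nat_lit 393229) (nat_lit 9) (.e (nat_lit 336184) (nat_lit 11) (.e (nat_lit 368676) (nat_lit 21) (.e (nat_lit 516117) (nat_lit 1) (.e (nat_lit 164166) (nat_lit 152) (.e (nat_lit 1086) (nat_lit 81) .nil))))))) (.g (nat_lit 5) .nil .nil))))))) (.nd (nat_lit 2) (.nd (nat_lit 3) (.nd (nat_lit 4) (.nd (nat_lit 5) 
(.lf (nat_lit 70723) (.g (nat_lit 1798) (.e (nat_lit 1659) (nat_lit 115) (.e (nat_lit 393301) (nat_lit 27) (.e (nat_lit 491560) (nat_lit 10) (.e (nat_lit 352000) (nat_lit 46) .nil)))) .nil)) 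
(.lf (nat_lit 70755) (.g (nat_lit 2543) (.e (nat_lit 1660) (nat_lit 115) (.e (nat_lit 393229) (nat_lit 9) (.e (nat_lit 336087) (nat_lit 9) (.e (nat_lit 336019) (nat_lit 3) (.e (nat_lit 98333) (nat_lit 18) (.e (nat_lit 164151) (nat_lit 152) (.e (nat_lit 1067) (nat_lit 81) .nil))))))) (.g (nat_lit 5) .nil .nil)))) (.nd (nat_lit 5) 
(.lf (nat_lit 70739) (.g (nat_lit 3001) (.e (nat_lit 1659) (nat_lit 115) (.e (nat_lit 393301) (nat_lit 27) (.e (nat_lit 491568) (nat_lit 13) (.e (nat_lit 393238) (nat_lit 17) (.e (nat_lit 7521) (nat_lit 402) .nil))))) (.g (nat_lit 4) .nil .nil))) 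
(.lf (nat_lit 70771) (.g (nat_lit 3388) (.e (nat_lit 1660) (nat_lit 115) (.e (nat_lit 393229) (nat_lit 9) (.e (nat_lit 336088) (nat_lit 9) (.e (nat_lit 336019) (nat_lit 3) (.e (nat_lit 98333) (nat_lit 18) (.e (nat_lit 164162) (nat_lit 152) (.e (nat_lit 1086) (nat_lit 81) .nil))))))) (.g (nat_lit 5) .nil .nil))))) (.nd (nat_lit 4) (.nd (nat_lit 5) 
(.lf (nat_lit 70731) (.g (nat_lit 2248) (.e (nat_lit 1659) (nat_lit 115) (.e (nat_lit 393301) (nat_lit 27) (.e (nat_lit 491567) (nat_lit 13) (.e (nat_lit 393234) (nat_lit 17) (.e (nat_lit 7523) (nat_lit 402) .nil))))) (.g (nat_lit 4) .nil .nil))) 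
(.lf (nat_lit 70763) (.g (nat_lit 1630) (.e (nat_lit 1660) (nat_lit 115) (.e (nat_lit 393229) (nat_lit 9) (.e (nat_lit 336088) (nat_lit 9) (.e (nat_lit 336019) (nat_lit 3) (.e (nat_lit 98321) (nat_lit 17) .nil))))) .nil))) (.nd (nat_lit 5) 
(.lf (nat_lit 70747) (.g (nat_lit 1957) (.e (nat_lit 1660) (nat_lit 115) (.e (nat_lit 393225) (nat_lit 9) (.e (nat_lit 335995) (nat_lit 1) (.e (nat_lit 57844) (nat_lit 252) .nil)))) .nil)) 
(.lf (nat_lit 70779) (.g (nat_lit 1285) (.e (nat_lit 1660) (nat_lit 115) (.e (nat_lit 393229) (nat_lit 9) (.e (nat_lit 336184) (nat_lit 11) (.e (nat_lit 368676) (nat_lit 21) (.e (nat_lit 516115) (nat_lit 1) (.e (nat_lit 164151) (nat_lit 152) (.e (nat_lit 1102) (nat_lit 81) .nil))))))) (.g (nat_lit 4) .nil .nil)))))) (.nd (nat_lit 3) (.nd (nat_lit 4) (.nd (nat_lit 5) 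
(.lf (nat_lit 70727) (.g (nat_lit 2494) (.e (nat_lit 1659) (nat_lit 115) (.e (nat_lit 393301) (nat_lit 27) (.e (nat_lit 491563) (nat_lit 12) (.e (nat_lit 385039) (nat_lit 18) .nil)))) .nil)) 
(.lf (nat_lit 70759) (.g (nat_lit 3250) (.e (nat_lit 1660) (nat_lit 115) (.e (nat_lit 393229) (nat_lit 9) (.e (nat_lit 336087) (nat_lit 9) (.e (nat_lit 336019) (nat_lit 3) (.e (nat_lit 98333) (nat_lit 18) (.e (nat_lit 164162) (nat_lit 152) (.e (nat_lit 1086) (nat_lit 81) .nil))))))) (.g (nat_lit 5) .nil .nil)))) (.nd (nat_lit 5) 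
(.lf (nat_lit 70743) (.g (nat_lit 2908) (.e (nat_lit 1659) (nat_lit 115) (.e (nat_lit 393301) (nat_lit 27) (.e (nat_lit 491568) (nat_lit 13) (.e (nat_lit 393242) (nat_lit 17) (.e (nat_lit 7554) (nat_lit 402) .nil))))) (.g (nat_lit 0) .nil .nil))) 
(.lf (nat_lit 70775) (.g (nat_lit 1228) (.e (nat_lit 1660) (nat_lit 115) (.e (nat_lit 393229) (nat_lit 9) (.e (nat_lit 336184) (nat_lit 11) (.e (nat_lit 368676) (nat_lit 21) (.e (nat_lit 516100) (nat_lit 0) .nil))))) .nil)))) (.nd (nat_lit 4) (.nd (nat_lit 5) 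
(.lf (nat_lit 70735) (.g (nat_lit 2231) (.e (nat_lit 1659) (nat_lit 115) (.e (nat_lit 393301) (nat_lit 27) (.e (nat_lit 491568) (nat_lit 13) (.e (nat_lit 393230) (nat_lit 17) .nil)))) .nil)) 
(.lf (nat_lit 70767) (.g (nat_lit 2658) (.e (nat_lit 1660) (nat_lit 115) (.e (nat_lit 393229) (nat_lit 9) (.e (nat_lit 336088) (nat_lit 9) (.e (nat_lit 336019) (nat_lit 3) (.e (nat_lit 98333) (nat_lit 18) (.e (nat_lit 164151) (nat_lit 152) (.e (nat_lit 1067) (nat_lit 81) .nil))))))) (.g (nat_lit 5) .nil .nil)))) (.nd (nat_lit 5) 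
(.lf (nat_lit 70751) (.g (nat_lit 1944) (.e (nat_lit 1660) (nat_lit 115) (.e (nat_lit 393229) (nat_lit 9) (.e (nat_lit 335995) (nat_lit 1) (.e (nat_lit 57931) (nat_lit 282) .nil)))) .nil)) 
(.lf (nat_lit 70783) (.g (nat_lit 2285) (.e (nat_lit 1660) (nat_lit 115) (.e (nat_lit 393229) (nat_lit 9) (.e (nat_lit 336186) (nat_lit 11) (.e (nat_lit 368676) (nat_lit 21) (.e (nat_lit 516115) (nat_lit 1) (.e (nat_lit 164151) (nat_lit 152) (.e (nat_lit 1062) (nat_lit 81) .nil))))))) (.g (nat_lit 6) .nil .nil)))))))))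

noncomputable def tv968 : DT := (.nd (nat_lit 0) (.nd (nat_lit 1) (.nd (nat_lit 2) (.nd (nat_lit 3) (.nd (nat_lit 4) (.nd (nat_lit 5) (.nd (nat_lit 6) 
(.lf (nat_lit 70784) (.g (nat_lit 1597) (.e (nat_lit 1660) (nat_lit 115) (.e (nat_lit 393229) (nat_lit 9) (.e (nat_lit 336186) (nat_lit 11) (.e (nat_lit 368676) (nat_lit 21) (.e (nat_lit 516115) (nat_lit 1) (.e (nat_lit 164151) (nat_lit 152) (.e (nat_lit 1067) (nat_lit 81) .nil))))))) (.g (nat_lit 4) .nil .nil))) 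
(.lf (nat_lit 70848) (.g (nat_lit 1191) (.e (nat_lit 1660) (nat_lit 115) (.e (nat_lit 393260) (nat_lit 21) (.e (nat_lit 409640) (nat_lit 17) (.e (nat_lit 302848) (nat_lit 28) .nil)))) .nil))) (.nd (nat_lit 6) 
(.lf (nat_lit 70816) (.g (nat_lit 1100) (.e (nat_lit 1660) (nat_lit 115) (.e (nat_lit 393251) (nat_lit 18) (.e (nat_lit 164183) (nat_lit 154) .nil))) .nil)) 
(.lf (nat_lit 70880) (.g (nat_lit 2384) (.e (nat_lit 1660) (nat_lit 115) (.e (nat_lit 393271) (nat_lit 23) (.e (nat_lit 426375) (nat_lit 15) (.e (nat_lit 2058) (nat_lit 142) (.e (nat_lit 704595) (nat_lit 5) (.e (nat_lit 180278) (nat_lit 32) .nil)))))) (.g (nat_lit 5) .nil .nil))))) (.nd (nat_lit 5) (.nd (nat_lit 6) 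
(.lf (nat_lit 70800) (.g (nat_lit 1524) (.e (nat_lit 1660) (nat_lit 115) (.e (nat_lit 393238) (nat_lit 17) (.e (nat_lit 6989) (nat_lit 377) (.e (nat_lit 2779) (nat_lit 178) (.e (nat_lit 286770) (nat_lit 28) .nil))))) .nil)) 
(.lf (nat_lit 70864) (.g (nat_lit 1239) (.e (nat_lit 1660) (nat_lit 115) (.e (nat_lit 393268) (nat_lit 23) (.e (nat_lit 426364) (nat_lit 15) .nil))) .nil))) (.nd (nat_lit 6) 
(.lf (nat_lit 70832) (.g (nat_lit 2634) (.e (nat_lit 1660) (nat_lit 115) (.e (nat_lit 393253) (nat_lit 18) (.e (nat_lit 164189) (nat_lit 157) (.e (nat_lit 229409) (nat_lit 13) (.e (nat_lit 434232) (nat_lit 23) (.e (nat_lit 532504) (nat_lit 1) (.e (nat_lit 57730) (nat_lit 181) (.e (nat_lit 1086) (nat_lit 81) .nil)))))))) (.g (nat_lit 6) .nil .nil))) 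
(.lf (nat_lit 70896) (.g (nat_lit 871) (.e (nat_lit 1660) (nat_lit 115) (.e (nat_lit 393271) (nat_lit 23) (.e (nat_lit 426405) (nat_lit 15) .nil))) .nil))))) (.nd (nat_lit 4) (.nd (nat_lit 5) (.nd (nat_lit 6) 
(.lf (nat_lit 70792) (.g (nat_lit 1810) (.e (nat_lit 1660) (nat_lit 115) (.e (nat_lit 401152) (nat_lit 12) (.e (nat_lit 360467) (nat_lit 3) (.e (nat_lit 516117) (nat_lit 1) (.e (nat_lit 164147) (nat_lit 152) (.e (nat_lit 1086) (nat_lit 81) .nil)))))) (.g (nat_lit 5) .nil .nil))) 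
(.lf (nat_lit 70856) (.g (nat_lit 1195) (.e (nat_lit 1660) (nat_lit 115) (.e (nat_lit 393260) (nat_lit 21) (.e (nat_lit 409646) (nat_lit 18) (.e (nat_lit 311040) (nat_lit 25) .nil)))) .nil))) (.nd (nat_lit 6) 
(.lf (nat_lit 70824) (.g (nat_lit 1190) (.e (nat_lit 1660) (nat_lit 115) (.e (nat_lit 393253) (nat_lit 18) (.e (nat_lit 164162) (nat_lit 152) (.e (nat_lit 1210) (nat_lit 89) .nil)))) .nil)) 
(.lf (nat_lit 70888) (.g (nat_lit 871) (.e (nat_lit 1660) (nat_lit 115) (.e (nat_lit 393271) (nat_lit 23) (.e (nat_lit 426382) (nat_lit 15) .nil))) .nil)))) (.nd (nat_lit 5) (.nd (nat_lit 6) 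
(.lf (nat_lit 70808) (.g (nat_lit 874) (.e (nat_lit 1660) (nat_lit 115) (.e (nat_lit 393251) (nat_lit 18) (.e (nat_lit 164153) (nat_lit 152) .nil))) .nil)) 
(.lf (nat_lit 70872) (.g (nat_lit 2082) (.e (nat_lit 1660) (nat_lit 115) (.e (nat_lit 393271) (nat_lit 23) (.e (nat_lit 426354) (nat_lit 15) (.e (nat_lit 2051) (nat_lit 142) (.e (nat_lit 704596) (nat_lit 5) (.e (nat_lit 180277) (nat_lit 32) .nil)))))) (.g (nat_lit 4) .nil .nil)))) (.nd (nat_lit 6) 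
(.lf (nat_lit 70840) (.g (nat_lit 700) (.e (nat_lit 1660) (nat_lit 115) (.e (nat_lit 393260) (nat_lit 21) (.e (nat_lit 409621) (nat_lit 10) .nil))) .nil)) 
(.lf (nat_lit 70904) (.g (nat_lit 2230) (.e (nat_lit 1660) (nat_lit 115) (.e (nat_lit 393274) (nat_lit 23) (.e (nat_lit 426412) (nat_lit 15) (.e (nat_lit 2059) (nat_lit 142) (.e (nat_lit 704596) (nat_lit 5) (.e (nat_lit 180277) (nat_lit 32) .nil)))))) (.g (nat_lit 5) .nil .nil))))))) (.nd (nat_lit 3) (.nd (nat_lit 4) (.nd (nat_lit 5) (.nd (nat_lit 6) 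
(.lf (nat_lit 70788) (.g (nat_lit 655) (.e (nat_lit 1660) (nat_lit 115) (.e (nat_lit 401152) (nat_lit 11) (.e (nat_lit 352310) (nat_lit 22) (.e (nat_lit 90165) (nat_lit 12) (.e (nat_lit 164016) (nat_lit 44) (.e (nat_lit 688161) (nat_lit 13) .nil)))))) (.g (nat_lit 4) .nil .nil))) 
(.lf (nat_lit 70852) (.g (nat_lit 482) (.e (nat_lit 1660) (nat_lit 115) (.e (nat_lit 393260) (nat_lit 21) (.e (nat_lit 417536) (nat_lit 17) .nil))) .nil))) (.nd (nat_lit 6) 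
(.lf (nat_lit 70820) (.g (nat_lit 3286) (.e (nat_lit 1660) (nat_lit 115) (.e (nat_lit 393251) (nat_lit 18) (.e (nat_lit 164183) (nat_lit 154) (.e (nat_lit 57420) (nat_lit 13) (.e (nat_lit 344133) (nat_lit 26) (.e (nat_lit 557091) (nat_lit 12) (.e (nat_lit 164238) (nat_lit 187) .nil))))))) (.g (nat_lit 5) .nil .nil))) 
(.lf (nat_lit 70884) (.g (nat_lit 871) (.e (nat_lit 1660) (nat_lit 115) (.e (nat_lit 393271) (nat_lit 23) (.e (nat_lit 426376) (nat_lit 15) .nil))) .nil)))) (.nd (nat_lit 5) (.nd (nat_lit 6) 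
(.lf (nat_lit 70804) (.g (nat_lit 1623) (.e (nat_lit 1660) (nat_lit 115) (.e (nat_lit 393238) (nat_lit 17) (.e (nat_lit 7107) (nat_lit 380) (.e (nat_lit 164340) (nat_lit 232) .nil)))) .nil)) 
(.lf (nat_lit 70868) (.g (nat_lit 1201) (.e (nat_lit 1660) (nat_lit 115) (.e (nat_lit 393271) (nat_lit 23) (.e (nat_lit 426131) (nat_lit 3) (.e (nat_lit 204817) (nat_lit 17) (.e (nat_lit 7936) (nat_lit 153) .nil))))) .nil))) (.nd (nat_lit 6) 
(.lf (nat_lit 70836) (.g (nat_lit 2747) (.e (nat_lit 1660) (nat_lit 115) (.e (nat_lit 393260) (nat_lit 21) (.e (nat_lit 409616) (nat_lit 10) (.e (nat_lit 7936) (nat_lit 300) (.e (nat_lit 16388) (nat_lit 0) (.e (nat_lit 7548) (nat_lit 402) .nil)))))) (.g (nat_lit 5) .nil .nil))) 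
(.lf (nat_lit 70900) (.g (nat_lit 2108) (.e (nat_lit 1660) (nat_lit 115) (.e (nat_lit 393274) (nat_lit 23) (.e (nat_lit 426396) (nat_lit 15) (.e (nat_lit 2059) (nat_lit 142) (.e (nat_lit 704596) (nat_lit 5) (.e (nat_lit 180277) (nat_lit 32) .nil)))))) (.g (nat_lit 4) .nil .nil)))))) (.nd (nat_lit 4) (.nd (nat_lit 5) (.nd (nat_lit 6) 
(.lf (nat_lit 70796) (.g (nat_lit 1419) (.e (nat_lit 1660) (nat_lit 115) (.e (nat_lit 393230) (nat_lit 17) (.e (nat_lit 6989) (nat_lit 377) (.e (nat_lit 2777) (nat_lit 178) (.e (nat_lit 286770) (nat_lit 28) .nil))))) .nil)) 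
(.lf (nat_lit 70860) (.g (nat_lit 1276) (.e (nat_lit 1660) (nat_lit 115) (.e (nat_lit 393260) (nat_lit 21) (.e (nat_lit 409649) (nat_lit 18) (.e (nat_lit 311040) (nat_lit 26) .nil)))) .nil))) (.nd (nat_lit 6) 
(.lf (nat_lit 70828) (.g (nat_lit 1262) (.e (nat_lit 1660) (nat_lit 115) (.e (nat_lit 393253) (nat_lit 18) (.e (nat_lit 164182) (nat_lit 154) (.e (nat_lit 57420) (nat_lit 13) .nil)))) .nil)) 
(.lf (nat_lit 70892) (.g (nat_lit 897) (.e (nat_lit 1660) (nat_lit 115) (.e (nat_lit 393271) (nat_lit 23) (.e (nat_lit 426402) (nat_lit 15) .nil))) .nil)))) (.nd (nat_lit 5) (.nd (nat_lit 6) 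
(.lf (nat_lit 70812) (.g (nat_lit 848) (.e (nat_lit 1660) (nat_lit 115) (.e (nat_lit 393251) (nat_lit 18) (.e (nat_lit 164179) (nat_lit 154) .nil))) .nil)) 
(.lf (nat_lit 70876) (.g (nat_lit 2642) (.e (nat_lit 1660) (nat_lit 115) (.e (nat_lit 393271) (nat_lit 23) (.e (nat_lit 426364) (nat_lit 15) (.e (nat_lit 2160) (nat_lit 143) (.e (nat_lit 712749) (nat_lit 28) (.e (nat_lit 434180) (nat_lit 0) .nil)))))) (.g (nat_lit 6) .nil .nil)))) (.nd (nat_lit 6) 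
(.lf (nat_lit 70844) (.g (nat_lit 2183) (.e (nat_lit 1660) (nat_lit 115) (.e (nat_lit 393260) (nat_lit 21) (.e (nat_lit 409623) (nat_lit 10) (.e (nat_lit 5293) (nat_lit 298) (.e (nat_lit 7936) (nat_lit 36) (.e (nat_lit 458756) (nat_lit 0) .nil)))))) (.g (nat_lit 4) .nil .nil))) 
(.lf (nat_lit 70908) (.g (nat_lit 1625) (.e (nat_lit 1660) (nat_lit 115) (.e (nat_lit 393281) (nat_lit 23) (.e (nat_lit 426387) (nat_lit 15) (.e (nat_lit 2059) (nat_lit 142) (.e (nat_lit 704596) (nat_lit 5) (.e (nat_lit 180277) (nat_lit 32) .nil)))))) (.g (nat_lit 4) .nil .nil)))))))) (.nd (nat_lit 2) (.nd (nat_lit 3) (.nd (nat_lit 4) (.nd (nat_lit 5) (.nd (nat_lit 6) 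
(.lf (nat_lit 70786) (.g (nat_lit 1384) (.e (nat_lit 1660) (nat_lit 115) (.e (nat_lit 393229) (nat_lit 9) (.e (nat_lit 336186) (nat_lit 11) (.e (nat_lit 368676) (nat_lit 21) (.e (nat_lit 516115) (nat_lit 1) (.e (nat_lit 164151) (nat_lit 152) (.e (nat_lit 1102) (nat_lit 81) .nil))))))) (.g (nat_lit 4) .nil .nil))) 
(.lf (nat_lit 70850) (.g (nat_lit 2099) (.e (nat_lit 1660) (nat_lit 115) (.e (nat_lit 393260) (nat_lit 21) (.e (nat_lit 409642) (nat_lit 17) (.e (nat_lit 294973) (nat_lit 28) (.e (nat_lit 434180) (nat_lit 0) .nil))))) (.g (nat_lit 5) .nil .nil)))) (.nd (nat_lit 6) 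
(.lf (nat_lit 70818) (.g (nat_lit 2747) (.e (nat_lit 1660) (nat_lit 115) (.e (nat_lit 393251) (nat_lit 18) (.e (nat_lit 164183) (nat_lit 154) (.e (nat_lit 57420) (nat_lit 13) (.e (nat_lit 344132) (nat_lit 26) (.e (nat_lit 557093) (nat_lit 12) (.e (nat_lit 164239) (nat_lit 187) .nil))))))) (.g (nat_lit 5) .nil .nil))) 
(.lf (nat_lit 70882) (.g (nat_lit 2216) (.e (nat_lit 1660) (nat_lit 115) (.e (nat_lit 393271) (nat_lit 23) (.e (nat_lit 426375) (nat_lit 15) (.e (nat_lit 2059) (nat_lit 142) (.e (nat_lit 704595) (nat_lit 5) (.e (nat_lit 180278) (nat_lit 32) .nil)))))) (.g (nat_lit 4) .nil .nil))))) (.nd (nat_lit 5) (.nd (nat_lit 6) 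
(.lf (nat_lit 70802) (.g (nat_lit 1219) (.e (nat_lit 1660) (nat_lit 115) (.e (nat_lit 393238) (nat_lit 17) (.e (nat_lit 6989) (nat_lit 377) (.e (nat_lit 2793) (nat_lit 179) .nil)))) .nil)) 
(.lf (nat_lit 70866) (.g (nat_lit 937) (.e (nat_lit 1660) (nat_lit 115) (.e (nat_lit 393271) (nat_lit 23) (.e (nat_lit 426112) (nat_lit 1) (.e (nat_lit 164346) (nat_lit 240) .nil)))) .nil))) (.nd (nat_lit 6) 
(.lf (nat_lit 70834) (.g (nat_lit 1242) (.e (nat_lit 1660) (nat_lit 115) (.e (nat_lit 393260) (nat_lit 21) (.e (nat_lit 409616) (nat_lit 10) (.e (nat_lit 7936) (nat_lit 300) .nil)))) .nil)) 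
(.lf (nat_lit 70898) (.g (nat_lit 2122) (.e (nat_lit 1660) (nat_lit 115) (.e (nat_lit 393274) (nat_lit 23) (.e (nat_lit 426396) (nat_lit 15) (.e (nat_lit 2059) (nat_lit 142) (.e (nat_lit 704595) (nat_lit 5) (.e (nat_lit 180277) (nat_lit 32) .nil)))))) (.g (nat_lit 4) .nil .nil)))))) (.nd (nat_lit 4) (.nd (nat_lit 5) (.nd (nat_lit 6) 
(.lf (nat_lit 70794) (.g (nat_lit 1924) (.e (nat_lit 1660) (nat_lit 115) (.e (nat_lit 401152) (nat_lit 12) (.e (nat_lit 360474) (nat_lit 8) (.e (nat_lit 557091) (nat_lit 12) (.e (nat_lit 163999) (nat_lit 38) (.e (nat_lit 639014) (nat_lit 13) .nil)))))) (.g (nat_lit 5) .nil .nil))) 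
(.lf (nat_lit 70858) (.g (nat_lit 1350) (.e (nat_lit 1660) (nat_lit 115) (.e (nat_lit 393260) (nat_lit 21) (.e (nat_lit 409648) (nat_lit 18) (.e (nat_lit 303151) (nat_lit 27) .nil)))) .nil))) (.nd (nat_lit 6) 
(.lf (nat_lit 70826) (.g (nat_lit 579) (.e (nat_lit 1660) (nat_lit 115) (.e (nat_lit 393253) (nat_lit 18) (.e (nat_lit 164179) (nat_lit 154) .nil))) .nil)) 
(.lf (nat_lit 70890) (.g (nat_lit 871) (.e (nat_lit 1660) (nat_lit 115) (.e (nat_lit 393271) (nat_lit 23) (.e (nat_lit 426393) (nat_lit 15) .nil))) .nil)))) (.nd (nat_lit 5) (.nd (nat_lit 6) 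
(.lf (nat_lit 70810) (.g (nat_lit 875) (.e (nat_lit 1660) (nat_lit 115) (.e (nat_lit 393251) (nat_lit 18) (.e (nat_lit 164161) (nat_lit 152) .nil))) .nil)) 
(.lf (nat_lit 70874) (.g (nat_lit 2914) (.e (nat_lit 1660) (nat_lit 115) (.e (nat_lit 393271) (nat_lit 23) (.e (nat_lit 426354) (nat_lit 15) (.e (nat_lit 2064) (nat_lit 142) (.e (nat_lit 704596) (nat_lit 5) (.e (nat_lit 180277) (nat_lit 32) .nil)))))) (.g (nat_lit 0) .nil .nil)))) (.nd (nat_lit 6) 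
(.lf (nat_lit 70842) (.g (nat_lit 1085) (.e (nat_lit 1660) (nat_lit 115) (.e (nat_lit 393260) (nat_lit 21) (.e (nat_lit 409623) (nat_lit 10) (.e (nat_lit 5259) (nat_lit 298) .nil)))) .nil)) 
(.lf (nat_lit 70906) (.g (nat_lit 2731) (.e (nat_lit 1660) (nat_lit 115) (.e (nat_lit 393275) (nat_lit 23) (.e (nat_lit 426396) (nat_lit 15) (.e (nat_lit 2059) (nat_lit 142) (.e (nat_lit 704595) (nat_lit 5) (.e (nat_lit 180278) (nat_lit 32) .nil)))))) (.g (nat_lit 5) .nil .nil))))))) (.nd (nat_lit 3) (.nd (nat_lit 4) (.nd (nat_lit 5) (.nd (nat_lit 6) 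
(.lf (nat_lit 70790) (.g (nat_lit 1253) (.e (nat_lit 1660) (nat_lit 115) (.e (nat_lit 401152) (nat_lit 12) (.e (nat_lit 360466) (nat_lit 3) (.e (nat_lit 516117) (nat_lit 1) (.e (nat_lit 164147) (nat_lit 152) (.e (nat_lit 1086) (nat_lit 81) .nil)))))) (.g (nat_lit 4) .nil .nil))) 
(.lf (nat_lit 70854) (.g (nat_lit 613) (.e (nat_lit 1660) (nat_lit 115) (.e (nat_lit 393260) (nat_lit 21) (.e (nat_lit 409644) (nat_lit 18) .nil))) .nil))) (.nd (nat_lit 6) 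
(.lf (nat_lit 70822) (.g (nat_lit 1214) (.e (nat_lit 1660) (nat_lit 115) (.e (nat_lit 393253) (nat_lit 18) (.e (nat_lit 164151) (nat_lit 152) (.e (nat_lit 2635) (nat_lit 165) .nil)))) .nil)) 
(.lf (nat_lit 70886) (.g (nat_lit 1187) (.e (nat_lit 1660) (nat_lit 115) (.e (nat_lit 393271) (nat_lit 23) (.e (nat_lit 426378) (nat_lit 15) (.e (nat_lit 2058) (nat_lit 142) .nil)))) .nil)))) (.nd (nat_lit 5) (.nd (nat_lit 6) 
(.lf (nat_lit 70806) (.g (nat_lit 876) (.e (nat_lit 1660) (nat_lit 115) (.e (nat_lit 393251) (nat_lit 18) (.e (nat_lit 164148) (nat_lit 152) .nil))) .nil)) 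
(.lf (nat_lit 70870) (.g (nat_lit 2830) (.e (nat_lit 1660) (nat_lit 115) (.e (nat_lit 393271) (nat_lit 23) (.e (nat_lit 426354) (nat_lit 15) (.e (nat_lit 2050) (nat_lit 142) (.e (nat_lit 704596) (nat_lit 5) (.e (nat_lit 180277) (nat_lit 32) .nil)))))) (.g (nat_lit 0) .nil .nil)))) (.nd (nat_lit 6) 
(.lf (nat_lit 70838) (.g (nat_lit 1356) (.e (nat_lit 1660) (nat_lit 115) (.e (nat_lit 393260) (nat_lit 21) (.e (nat_lit 409617) (nat_lit 10) (.e (nat_lit 7936) (nat_lit 300) .nil)))) .nil)) 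
(.lf (nat_lit 70902) (.g (nat_lit 1600) (.e (nat_lit 1660) (nat_lit 115) (.e (nat_lit 393274) (nat_lit 23) (.e (nat_lit 426412) (nat_lit 15) (.e (nat_lit 2058) (nat_lit 142) (.e (nat_lit 704595) (nat_lit 5) (.e (nat_lit 180277) (nat_lit 32) .nil)))))) (.g (nat_lit 4) .nil .nil)))))) (.nd (nat_lit 4) (.nd (nat_lit 5) (.nd (nat_lit 6) 
(.lf (nat_lit 70798) (.g (nat_lit 2008) (.e (nat_lit 1660) (nat_lit 115) (.e (nat_lit 393238) (nat_lit 17) (.e (nat_lit 6989) (nat_lit 377) (.e (nat_lit 2777) (nat_lit 178) (.e (nat_lit 286770) (nat_lit 28) .nil))))) .nil)) 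
(.lf (nat_lit 70862) (.g (nat_lit 328) (.e (nat_lit 1660) (nat_lit 115) (.e (nat_lit 393263) (nat_lit 22) (.e (nat_lit 417817) (nat_lit 10) .nil))) .nil))) (.nd (nat_lit 6) 
(.lf (nat_lit 70830) (.g (nat_lit 1503) (.e (nat_lit 1660) (nat_lit 115) (.e (nat_lit 393253) (nat_lit 18) (.e (nat_lit 164189) (nat_lit 157) (.e (nat_lit 229409) (nat_lit 13) (.e (nat_lit 434232) (nat_lit 23) .nil))))) .nil)) 
(.lf (nat_lit 70894) (.g (nat_lit 1510) (.e (nat_lit 1660) (nat_lit 115) (.e (nat_lit 393271) (nat_lit 23) (.e (nat_lit 426402) (nat_lit 15) (.e (nat_lit 2162) (nat_lit 143) .nil)))) .nil)))) (.nd (nat_lit 5) (.nd (nat_lit 6) 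
(.lf (nat_lit 70814) (.g (nat_lit 2395) (.e (nat_lit 1660) (nat_lit 115) (.e (nat_lit 393251) (nat_lit 18) (.e (nat_lit 164179) (nat_lit 154) (.e (nat_lit 57421) (nat_lit 13) (.e (nat_lit 344132) (nat_lit 26) (.e (nat_lit 557093) (nat_lit 12) (.e (nat_lit 164239) (nat_lit 187) .nil))))))) (.g (nat_lit 4) .nil .nil))) 
(.lf (nat_lit 70878) (.g (nat_lit 871) (.e (nat_lit 1660) (nat_lit 115) (.e (nat_lit 393271) (nat_lit 23) (.e (nat_lit 426375) (nat_lit 15) .nil))) .nil))) (.nd (nat_lit 6) 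
(.lf (nat_lit 70846) (.g (nat_lit 482) (.e (nat_lit 1660) (nat_lit 115) (.e (nat_lit 393260) (nat_lit 21) (.e (nat_lit 417536) (nat_lit 10) .nil))) .nil)) 
(.lf (nat_lit 70910) (.g (nat_lit 442) (.e (nat_lit 1660) (nat_lit 115) (.e (nat_lit 393283) (nat_lit 24) (.e (nat_lit 434213) (nat_lit 18) .nil))) .nil)))))))) (.nd (nat_lit 1) (.nd (nat_lit 2) (.nd (nat_lit 3) (.nd (nat_lit 4) (.nd (nat_lit 5) (.nd (nat_lit 6) 
(.lf (nat_lit 70785) (.g (nat_lit 2163) (.e (nat_lit 1660) (nat_lit 115) (.e (nat_lit 393229) (nat_lit 9) (.e (nat_lit 336186) (nat_lit 11) (.e (nat_lit 368676) (nat_lit 21) (.e (nat_lit 516115) (nat_lit 1) (.e (nat_lit 164151) (nat_lit 152) (.e (nat_lit 1089) (nat_lit 81) .nil))))))) (.g (nat_lit 6) .nil .nil))) 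
(.lf (nat_lit 70849) (.g (nat_lit 1401) (.e (nat_lit 1660) (nat_lit 115) (.e (nat_lit 393260) (nat_lit 21) (.e (nat_lit 409641) (nat_lit 17) (.e (nat_lit 302848) (nat_lit 28) .nil)))) .nil))) (.nd (nat_lit 6) 
(.lf (nat_lit 70817) (.g (nat_lit 1893) (.e (nat_lit 1660) (nat_lit 115) (.e (nat_lit 393251) (nat_lit 18) (.e (nat_lit 164183) (nat_lit 154) (.e (nat_lit 57420) (nat_lit 13) .nil)))) .nil)) 
(.lf (nat_lit 70881) (.g (nat_lit 2183) (.e (nat_lit 1660) (nat_lit 115) (.e (nat_lit 393271) (nat_lit 23) (.e (nat_lit 426375) (nat_lit 15) (.e (nat_lit 2059) (nat_lit 142) (.e (nat_lit 704595) (nat_lit 5) (.e (nat_lit 180277) (nat_lit 32) .nil)))))) (.g (nat_lit 4) .nil .nil))))) (.nd (nat_lit 5) (.nd (nat_lit 6) 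
(.lf (nat_lit 70801) (.g (nat_lit 1474) (.e (nat_lit 1660) (nat_lit 115) (.e (nat_lit 393238) (nat_lit 17) (.e (nat_lit 6989) (nat_lit 377) (.e (nat_lit 2781) (nat_lit 178) .nil)))) .nil)) 
(.lf (nat_lit 70865) (.g (nat_lit 1238) (.e (nat_lit 1660) (nat_lit 115) (.e (nat_lit 393268) (nat_lit 23) (.e (nat_lit 426392) (nat_lit 15) .nil))) .nil))) (.nd (nat_lit 6) 
(.lf (nat_lit 70833) (.g (nat_lit 937) (.e (nat_lit 1660) (nat_lit 115) (.e (nat_lit 393260) (nat_lit 21) (.e (nat_lit 409614) (nat_lit 10) .nil))) .nil)) 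
(.lf (nat_lit 70897) (.g (nat_lit 2006) (.e (nat_lit 1660) (nat_lit 115) (.e (nat_lit 393271) (nat_lit 23) (.e (nat_lit 426405) (nat_lit 15) (.e (nat_lit 2058) (nat_lit 142) (.e (nat_lit 704595) (nat_lit 5) (.e (nat_lit 180278) (nat_lit 32) .nil)))))) (.g (nat_lit 4) .nil .nil)))))) (.nd (nat_lit 4) (.nd (nat_lit 5) (.nd (nat_lit 6) 
(.lf (nat_lit 70793) (.g (nat_lit 1533) (.e (nat_lit 1660) (nat_lit 115) (.e (nat_lit 401152) (nat_lit 12) (.e (nat_lit 360467) (nat_lit 3) (.e (nat_lit 516117) (nat_lit 1) (.e (nat_lit 164165) (nat_lit 152) (.e (nat_lit 1086) (nat_lit 81) .nil)))))) (.g (nat_lit 4) .nil .nil))) 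
(.lf (nat_lit 70857) (.g (nat_lit 1690) (.e (nat_lit 1660) (nat_lit 115) (.e (nat_lit 393260) (nat_lit 21) (.e (nat_lit 409648) (nat_lit 18) (.e (nat_lit 303149) (nat_lit 15) (.e (nat_lit 6216) (nat_lit 333) .nil))))) .nil))) (.nd (nat_lit 6) 
(.lf (nat_lit 70825) (.g (nat_lit 562) (.e (nat_lit 1660) (nat_lit 115) (.e (nat_lit 393253) (nat_lit 18) (.e (nat_lit 164163) (nat_lit 152) .nil))) .nil)) 
(.lf (nat_lit 70889) (.g (nat_lit 872) (.e (nat_lit 1660) (nat_lit 115) (.e (nat_lit 393271) (nat_lit 23) (.e (nat_lit 426392) (nat_lit 15) .nil))) .nil)))) (.nd (nat_lit 5) (.nd (nat_lit 6) 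
(.lf (nat_lit 70809) (.g (nat_lit 1930) (.e (nat_lit 1660) (nat_lit 115) (.e (nat_lit 393251) (nat_lit 18) (.e (nat_lit 164153) (nat_lit 152) (.e (nat_lit 1214) (nat_lit 89) (.e (nat_lit 73754) (nat_lit 8) .nil))))) .nil)) 
(.lf (nat_lit 70873) (.g (nat_lit 1884) (.e (nat_lit 1660) (nat_lit 115) (.e (nat_lit 393271) (nat_lit 23) (.e (nat_lit 426354) (nat_lit 15) (.e (nat_lit 2053) (nat_lit 142) (.e (nat_lit 704595) (nat_lit 5) (.e (nat_lit 180277) (nat_lit 32) .nil)))))) (.g (nat_lit 4) .nil .nil)))) (.nd (nat_lit 6) 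
(.lf (nat_lit 70841) (.g (nat_lit 480) (.e (nat_lit 1660) (nat_lit 115) (.e (nat_lit 393260) (nat_lit 21) (.e (nat_lit 409623) (nat_lit 10) .nil))) .nil)) 
(.lf (nat_lit 70905) (.g (nat_lit 2624) (.e (nat_lit 1660) (nat_lit 115) (.e (nat_lit 393275) (nat_lit 23) (.e (nat_lit 426396) (nat_lit 15) (.e (nat_lit 2059) (nat_lit 142) (.e (nat_lit 704595) (nat_lit 5) (.e (nat_lit 180277) (nat_lit 32) .nil)))))) (.g (nat_lit 5) .nil .nil))))))) (.nd (nat_lit 3) (.nd (nat_lit 4) (.nd (nat_lit 5) (.nd (nat_lit 6) 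
(.lf (nat_lit 70789) (.g (nat_lit 1147) (.e (nat_lit 1660) (nat_lit 115) (.e (nat_lit 401152) (nat_lit 11) (.e (nat_lit 352313) (nat_lit 23) (.e (nat_lit 98334) (nat_lit 18) (.e (nat_lit 164166) (nat_lit 152) (.e (nat_lit 1086) (nat_lit 81) .nil)))))) (.g (nat_lit 4) .nil .nil))) 
(.lf (nat_lit 70853) (.g (nat_lit 390) (.e (nat_lit 1660) (nat_lit 115) (.e (nat_lit 393260) (nat_lit 21) (.e (nat_lit 409643) (nat_lit 18) .nil))) .nil))) (.nd (nat_lit 6) 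
(.lf (nat_lit 70821) (.g (nat_lit 626) (.e (nat_lit 1660) (nat_lit 115) (.e (nat_lit 393252) (nat_lit 18) (.e (nat_lit 164161) (nat_lit 152) .nil))) .nil)) 
(.lf (nat_lit 70885) (.g (nat_lit 1761) (.e (nat_lit 1660) (nat_lit 115) (.e (nat_lit 393271) (nat_lit 23) (.e (nat_lit 426376) (nat_lit 15) (.e (nat_lit 2058) (nat_lit 142) (.e (nat_lit 704595) (nat_lit 5) .nil))))) .nil)))) (.nd (nat_lit 5) (.nd (nat_lit 6) 
(.lf (nat_lit 70805) (.g (nat_lit 1219) (.e (nat_lit 1660) (nat_lit 115) (.e (nat_lit 393238) (nat_lit 17) (.e (nat_lit 7537) (nat_lit 402) (.e (nat_lit 1661) (nat_lit 115) .nil)))) .nil)) 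
(.lf (nat_lit 70869) (.g (nat_lit 553) (.e (nat_lit 1660) (nat_lit 115) (.e (nat_lit 393271) (nat_lit 23) (.e (nat_lit 426354) (nat_lit 15) .nil))) .nil))) (.nd (nat_lit 6) 
(.lf (nat_lit 70837) (.g (nat_lit 1389) (.e (nat_lit 1660) (nat_lit 115) (.e (nat_lit 393260) (nat_lit 21) (.e (nat_lit 409617) (nat_lit 10) (.e (nat_lit 5353) (nat_lit 298) .nil)))) .nil)) 
(.lf (nat_lit 70901) (.g (nat_lit 964) (.e (nat_lit 1660) (nat_lit 115) (.e (nat_lit 393274) (nat_lit 23) (.e (nat_lit 426412) (nat_lit 15) (.e (nat_lit 2057) (nat_lit 142) .nil)))) .nil))))) (.nd (nat_lit 4) (.nd (nat_lit 5) (.nd (nat_lit 6) 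
(.lf (nat_lit 70797) (.g (nat_lit 399) (.e (nat_lit 1660) (nat_lit 115) (.e (nat_lit 393238) (nat_lit 17) (.e (nat_lit 6989) (nat_lit 377) .nil))) .nil)) 
(.lf (nat_lit 70861) (.g (nat_lit 1709) (.e (nat_lit 1660) (nat_lit 115) (.e (nat_lit 393260) (nat_lit 21) (.e (nat_lit 409649) (nat_lit 18) (.e (nat_lit 303151) (nat_lit 27) .nil)))) .nil))) (.nd (nat_lit 6) 
(.lf (nat_lit 70829) (.g (nat_lit 1408) (.e (nat_lit 1660) (nat_lit 115) (.e (nat_lit 393253) (nat_lit 18) (.e (nat_lit 164183) (nat_lit 154) (.e (nat_lit 57420) (nat_lit 13) (.e (nat_lit 344132) (nat_lit 26) .nil))))) .nil)) 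
(.lf (nat_lit 70893) (.g (nat_lit 1543) (.e (nat_lit 1660) (nat_lit 115) (.e (nat_lit 393271) (nat_lit 23) (.e (nat_lit 426402) (nat_lit 15) (.e (nat_lit 2045) (nat_lit 142) .nil)))) .nil)))) (.nd (nat_lit 5) (.nd (nat_lit 6) 
(.lf (nat_lit 70813) (.g (nat_lit 2317) (.e (nat_lit 1660) (nat_lit 115) (.e (nat_lit 393251) (nat_lit 18) (.e (nat_lit 164179) (nat_lit 154) (.e (nat_lit 57421) (nat_lit 13) (.e (nat_lit 344132) (nat_lit 26) (.e (nat_lit 557093) (nat_lit 12) (.e (nat_lit 164238) (nat_lit 187) .nil))))))) (.g (nat_lit 4) .nil .nil))) 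
(.lf (nat_lit 70877) (.g (nat_lit 871) (.e (nat_lit 1660) (nat_lit 115) (.e (nat_lit 393271) (nat_lit 23) (.e (nat_lit 426374) (nat_lit 15) .nil))) .nil))) (.nd (nat_lit 6) 
(.lf (nat_lit 70845) (.g (nat_lit 725) (.e (nat_lit 1660) (nat_lit 115) (.e (nat_lit 393260) (nat_lit 21) (.e (nat_lit 409625) (nat_lit 10) .nil))) .nil)) 
(.lf (nat_lit 70909) (.g (nat_lit 1146) (.e (nat_lit 1660) (nat_lit 115) (.e (nat_lit 393282) (nat_lit 24) (.e (nat_lit 434209) (nat_lit 18) (.e (nat_lit 5547) (nat_lit 306) .nil)))) .nil))))))) (.nd (nat_lit 2) (.nd (nat_lit 3) (.nd (nat_lit 4) (.nd (nat_lit 5) (.nd (nat_lit 6) 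
(.lf (nat_lit 70787) (.g (nat_lit 2351) (.e (nat_lit 1660) (nat_lit 115) (.e (nat_lit 393229) (nat_lit 9) (.e (nat_lit 336186) (nat_lit 11) (.e (nat_lit 368676) (nat_lit 21) (.e (nat_lit 516117) (nat_lit 1) (.e (nat_lit 164166) (nat_lit 152) (.e (nat_lit 1086) (nat_lit 81) .nil))))))) (.g (nat_lit 5) .nil .nil))) 
(.lf (nat_lit 70851) (.g (nat_lit 2141) (.e (nat_lit 1660) (nat_lit 115) (.e (nat_lit 393260) (nat_lit 21) (.e (nat_lit 409642) (nat_lit 17) (.e (nat_lit 294973) (nat_lit 28) (.e (nat_lit 434181) (nat_lit 0) .nil))))) (.g (nat_lit 0) .nil .nil)))) (.nd (nat_lit 6) 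
(.lf (nat_lit 70819) (.g (nat_lit 2592) (.e (nat_lit 1660) (nat_lit 115) (.e (nat_lit 393251) (nat_lit 18) (.e (nat_lit 164183) (nat_lit 154) (.e (nat_lit 57420) (nat_lit 13) (.e (nat_lit 344132) (nat_lit 26) (.e (nat_lit 557094) (nat_lit 12) (.e (nat_lit 164238) (nat_lit 187) .nil))))))) (.g (nat_lit 4) .nil .nil))) 
(.lf (nat_lit 70883) (.g (nat_lit 2124) (.e (nat_lit 1660) (nat_lit 115) (.e (nat_lit 393271) (nat_lit 23) (.e (nat_lit 426375) (nat_lit 15) (.e (nat_lit 2059) (nat_lit 142) (.e (nat_lit 704596) (nat_lit 5) (.e (nat_lit 180277) (nat_lit 32) .nil)))))) (.g (nat_lit 4) .nil .nil))))) (.nd (nat_lit 5) (.nd (nat_lit 6) 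
(.lf (nat_lit 70803) (.g (nat_lit 494) (.e (nat_lit 1660) (nat_lit 115) (.e (nat_lit 393238) (nat_lit 17) (.e (nat_lit 7101) (nat_lit 380) .nil))) .nil)) 
(.lf (nat_lit 70867) (.g (nat_lit 1482) (.e (nat_lit 1660) (nat_lit 115) (.e (nat_lit 393271) (nat_lit 23) (.e (nat_lit 426131) (nat_lit 3) (.e (nat_lit 212736) (nat_lit 10) (.e (nat_lit 434279) (nat_lit 39) (.e (nat_lit 663561) (nat_lit 0) .nil)))))) (.g (nat_lit 5) .nil .nil)))) (.nd (nat_lit 6) 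
(.lf (nat_lit 70835) (.g (nat_lit 2739) (.e (nat_lit 1660) (nat_lit 115) (.e (nat_lit 393260) (nat_lit 21) (.e (nat_lit 409616) (nat_lit 10) (.e (nat_lit 7936) (nat_lit 300) (.e (nat_lit 16388) (nat_lit 0) (.e (nat_lit 7522) (nat_lit 402) .nil)))))) (.g (nat_lit 5) .nil .nil))) 
(.lf (nat_lit 70899) (.g (nat_lit 2160) (.e (nat_lit 1660) (nat_lit 115) (.e (nat_lit 393274) (nat_lit 23) (.e (nat_lit 426396) (nat_lit 15) (.e (nat_lit 2059) (nat_lit 142) (.e (nat_lit 704595) (nat_lit 5) (.e (nat_lit 180278) (nat_lit 32) .nil)))))) (.g (nat_lit 4) .nil .nil)))))) (.nd (nat_lit 4) (.nd (nat_lit 5) (.nd (nat_lit 6) 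
(.lf (nat_lit 70795) (.g (nat_lit 1615) (.e (nat_lit 1660) (nat_lit 115) (.e (nat_lit 401152) (nat_lit 14) (.e (nat_lit 376865) (nat_lit 22) (.e (nat_lit 90164) (nat_lit 12) (.e (nat_lit 164017) (nat_lit 44) (.e (nat_lit 688161) (nat_lit 13) .nil)))))) (.g (nat_lit 5) .nil .nil))) 
(.lf (nat_lit 70859) (.g (nat_lit 1375) (.e (nat_lit 1660) (nat_lit 115) (.e (nat_lit 393260) (nat_lit 21) (.e (nat_lit 409649) (nat_lit 18) (.e (nat_lit 303149) (nat_lit 15) .nil)))) .nil))) (.nd (nat_lit 6) 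
(.lf (nat_lit 70827) (.g (nat_lit 2208) (.e (nat_lit 1660) (nat_lit 115) (.e (nat_lit 393253) (nat_lit 18) (.e (nat_lit 164179) (nat_lit 154) (.e (nat_lit 57421) (nat_lit 13) (.e (nat_lit 344132) (nat_lit 26) (.e (nat_lit 557093) (nat_lit 12) (.e (nat_lit 164239) (nat_lit 187) .nil))))))) (.g (nat_lit 4) .nil .nil))) 
(.lf (nat_lit 70891) (.g (nat_lit 1192) (.e (nat_lit 1660) (nat_lit 115) (.e (nat_lit 393271) (nat_lit 23) (.e (nat_lit 426393) (nat_lit 15) (.e (nat_lit 2058) (nat_lit 142) .nil)))) .nil)))) (.nd (nat_lit 5) (.nd (nat_lit 6) 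
(.lf (nat_lit 70811) (.g (nat_lit 2461) (.e (nat_lit 1660) (nat_lit 115) (.e (nat_lit 393251) (nat_lit 18) (.e (nat_lit 164162) (nat_lit 152) (.e (nat_lit 1209) (nat_lit 89) (.e (nat_lit 73753) (nat_lit 8) .nil))))) .nil)) 
(.lf (nat_lit 70875) (.g (nat_lit 744) (.e (nat_lit 1660) (nat_lit 115) (.e (nat_lit 393271) (nat_lit 23) (.e (nat_lit 426364) (nat_lit 15) .nil))) .nil))) (.nd (nat_lit 6) 
(.lf (nat_lit 70843) (.g (nat_lit 1579) (.e (nat_lit 1660) (nat_lit 115) (.e (nat_lit 393260) (nat_lit 21) (.e (nat_lit 409623) (nat_lit 10) (.e (nat_lit 5293) (nat_lit 298) (.e (nat_lit 7936) (nat_lit 33) .nil))))) .nil)) 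
(.lf (nat_lit 70907) (.g (nat_lit 2633) (.e (nat_lit 1660) (nat_lit 115) (.e (nat_lit 393275) (nat_lit 23) (.e (nat_lit 426396) (nat_lit 15) (.e (nat_lit 2059) (nat_lit 142) (.e (nat_lit 704596) (nat_lit 5) (.e (nat_lit 180277) (nat_lit 32) .nil)))))) (.g (nat_lit 5) .nil .nil))))))) (.nd (nat_lit 3) (.nd (nat_lit 4) (.nd (nat_lit 5) (.nd (nat_lit 6) 
(.lf (nat_lit 70791) (.g (nat_lit 1443) (.e (nat_lit 1660) (nat_lit 115) (.e (nat_lit 401152) (nat_lit 12) (.e (nat_lit 360466) (nat_lit 3) (.e (nat_lit 516120) (nat_lit 1) (.e (nat_lit 164147) (nat_lit 152) (.e (nat_lit 1086) (nat_lit 81) .nil)))))) (.g (nat_lit 4) .nil .nil))) 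
(.lf (nat_lit 70855) (.g (nat_lit 538) (.e (nat_lit 1660) (nat_lit 115) (.e (nat_lit 393260) (nat_lit 21) (.e (nat_lit 409646) (nat_lit 18) .nil))) .nil))) (.nd (nat_lit 6) 
(.lf (nat_lit 70823) (.g (nat_lit 3351) (.e (nat_lit 1660) (nat_lit 115) (.e (nat_lit 393253) (nat_lit 18) (.e (nat_lit 164162) (nat_lit 152) (.e (nat_lit 1209) (nat_lit 89) (.e (nat_lit 73753) (nat_lit 8) (.e (nat_lit 557093) (nat_lit 12) (.e (nat_lit 164239) (nat_lit 187) .nil))))))) (.g (nat_lit 5) .nil .nil))) 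
(.lf (nat_lit 70887) (.g (nat_lit 871) (.e (nat_lit 1660) (nat_lit 115) (.e (nat_lit 393271) (nat_lit 23) (.e (nat_lit 426379) (nat_lit 15) .nil))) .nil)))) (.nd (nat_lit 5) (.nd (nat_lit 6) 
(.lf (nat_lit 70807) (.g (nat_lit 1201) (.e (nat_lit 1660) (nat_lit 115) (.e (nat_lit 393251) (nat_lit 18) (.e (nat_lit 164150) (nat_lit 152) (.e (nat_lit 1207) (nat_lit 89) .nil)))) .nil)) 
(.lf (nat_lit 70871) (.g (nat_lit 1763) (.e (nat_lit 1660) (nat_lit 115) (.e (nat_lit 393271) (nat_lit 23) (.e (nat_lit 426354) (nat_lit 15) (.e (nat_lit 2051) (nat_lit 142) (.e (nat_lit 704595) (nat_lit 5) .nil))))) .nil))) (.nd (nat_lit 6) 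
(.lf (nat_lit 70839) (.g (nat_lit 1702) (.e (nat_lit 1660) (nat_lit 115) (.e (nat_lit 393260) (nat_lit 21) (.e (nat_lit 409617) (nat_lit 10) (.e (nat_lit 5630) (nat_lit 312) .nil)))) .nil)) 
(.lf (nat_lit 70903) (.g (nat_lit 1631) (.e (nat_lit 1660) (nat_lit 115) (.e (nat_lit 393274) (nat_lit 23) (.e (nat_lit 426412) (nat_lit 15) (.e (nat_lit 2058) (nat_lit 142) (.e (nat_lit 704595) (nat_lit 5) (.e (nat_lit 180278) (nat_lit 32) .nil)))))) (.g (nat_lit 4) .nil .nil)))))) (.nd (nat_lit 4) (.nd (nat_lit 5) (.nd (nat_lit 6) 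
(.lf (nat_lit 70799) (.g (nat_lit 1885) (.e (nat_lit 1660) (nat_lit 115) (.e (nat_lit 393238) (nat_lit 17) (.e (nat_lit 6989) (nat_lit 377) (.e (nat_lit 2777) (nat_lit 178) (.e (nat_lit 294656) (nat_lit 31) .nil))))) .nil)) 
(.lf (nat_lit 70863) (.g (nat_lit 699) (.e (nat_lit 1660) (nat_lit 115) (.e (nat_lit 393263) (nat_lit 22) (.e (nat_lit 417817) (nat_lit 10) (.e (nat_lit 5364) (nat_lit 298) .nil)))) .nil))) (.nd (nat_lit 6) 
(.lf (nat_lit 70831) (.g (nat_lit 2910) (.e (nat_lit 1660) (nat_lit 115) (.e (nat_lit 393253) (nat_lit 18) (.e (nat_lit 164189) (nat_lit 157) (.e (nat_lit 229409) (nat_lit 13) (.e (nat_lit 434232) (nat_lit 23) (.e (nat_lit 532501) (nat_lit 1) (.e (nat_lit 57730) (nat_lit 181) (.e (nat_lit 1086) (nat_lit 81) .nil)))))))) (.g (nat_lit 6) .nil .nil))) 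
(.lf (nat_lit 70895) (.g (nat_lit 3126) (.e (nat_lit 1660) (nat_lit 115) (.e (nat_lit 393271) (nat_lit 23) (.e (nat_lit 426402) (nat_lit 15) (.e (nat_lit 2162) (nat_lit 143) (.e (nat_lit 712749) (nat_lit 28) (.e (nat_lit 434180) (nat_lit 0) .nil)))))) (.g (nat_lit 6) .nil .nil))))) (.nd (nat_lit 5) (.nd (nat_lit 6) 
(.lf (nat_lit 70815) (.g (nat_lit 2322) (.e (nat_lit 1660) (nat_lit 115) (.e (nat_lit 393251) (nat_lit 18) (.e (nat_lit 164179) (nat_lit 154) (.e (nat_lit 57421) (nat_lit 13) (.e (nat_lit 344132) (nat_lit 26) (.e (nat_lit 557094) (nat_lit 12) (.e (nat_lit 164238) (nat_lit 187) .nil))))))) (.g (nat_lit 4) .nil .nil))) 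
(.lf (nat_lit 70879) (.g (nat_lit 2215) (.e (nat_lit 1660) (nat_lit 115) (.e (nat_lit 393271) (nat_lit 23) (.e (nat_lit 426375) (nat_lit 15) (.e (nat_lit 2058) (nat_lit 142) (.e (nat_lit 704595) (nat_lit 5) (.e (nat_lit 180277) (nat_lit 32) .nil)))))) (.g (nat_lit 4) .nil .nil)))) (.nd (nat_lit 6) 
(.lf (nat_lit 70847) (.g (nat_lit 482) (.e (nat_lit 1660) (nat_lit 115) (.e (nat_lit 393260) (nat_lit 21) (.e (nat_lit 417536) (nat_lit 16) .nil))) .nil)) 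
(.lf (nat_lit 70911) (.g (nat_lit 1995) (.e (nat_lit 1660) (nat_lit 115) (.e (nat_lit 393283) (nat_lit 24) (.e (nat_lit 434231) (nat_lit 23) (.e (nat_lit 532483) (nat_lit 0) .nil)))) .nil)))))))))

noncomputable def tv969 : DT := (.nd (nat_lit 0) (.nd (nat_lit 1) (.nd (nat_lit 2) (.nd (nat_lit 3) (.nd (nat_lit 4) (.nd (nat_lit 5) (.nd (nat_lit 6) 
(.lf (nat_lit 70912) (.g (nat_lit 425) (.e (nat_lit 1660) (nat_lit 115) (.e (nat_lit 393283) (nat_lit 24) (.e (nat_lit 434238) (nat_lit 25) .nil))) .nil)) 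
(.lf (nat_lit 70976) (.g (nat_lit 1509) (.e (nat_lit 1660) (nat_lit 115) (.e (nat_lit 393298) (nat_lit 27) (.e (nat_lit 491571) (nat_lit 13) (.e (nat_lit 393238) (nat_lit 17) .nil)))) .nil))) (.nd (nat_lit 6) 
(.lf (nat_lit 70944) (.g (nat_lit 1195) (.e (nat_lit 1660) (nat_lit 115) (.e (nat_lit 393294) (nat_lit 26) (.e (nat_lit 475207) (nat_lit 41) (.e (nat_lit 712749) (nat_lit 28) .nil)))) .nil)) 
(.lf (nat_lit 71008) (.g (nat_lit 3347) (.e (nat_lit 1661) (nat_lit 115) (.e (nat_lit 393225) (nat_lit 9) (.e (nat_lit 335995) (nat_lit 1) (.e (nat_lit 57847) (nat_lit 252) (.e (nat_lit 57379) (nat_lit 3) (.e (nat_lit 98308) (nat_lit 0) (.e (nat_lit 6466) (nat_lit 343) .nil))))))) (.g (nat_lit 5) .nil .nil))))) (.nd (nat_lit 5) (.nd (nat_lit 6) 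
(.lf (nat_lit 70928) (.g (nat_lit 1847) (.e (nat_lit 1660) (nat_lit 115) (.e (nat_lit 393291) (nat_lit 26) (.e (nat_lit 475197) (nat_lit 40) (.e (nat_lit 704595) (nat_lit 5) (.e (nat_lit 180278) (nat_lit 32) .nil))))) (.g (nat_lit 4) .nil .nil))) 
(.lf (nat_lit 70992) (.g (nat_lit 2295) (.e (nat_lit 1661) (nat_lit 115) (.e (nat_lit 393224) (nat_lit 9) (.e (nat_lit 336087) (nat_lit 9) (.e (nat_lit 336019) (nat_lit 3) (.e (nat_lit 98333) (nat_lit 18) (.e (nat_lit 164151) (nat_lit 152) (.e (nat_lit 1056) (nat_lit 81) .nil))))))) (.g (nat_lit 4) .nil .nil)))) (.nd (nat_lit 6) 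
(.lf (nat_lit 70960) (.g (nat_lit 2758) (.e (nat_lit 1660) (nat_lit 115) (.e (nat_lit 393297) (nat_lit 27) (.e (nat_lit 491571) (nat_lit 13) (.e (nat_lit 393238) (nat_lit 17) (.e (nat_lit 7555) (nat_lit 402) .nil))))) (.g (nat_lit 4) .nil .nil))) 
(.lf (nat_lit 71024) (.g (nat_lit 3263) (.e (nat_lit 1661) (nat_lit 115) (.e (nat_lit 393225) (nat_lit 9) (.e (nat_lit 335996) (nat_lit 1) (.e (nat_lit 57851) (nat_lit 252) (.e (nat_lit 57371) (nat_lit 2) (.e (nat_lit 90155) (nat_lit 10) (.e (nat_lit 8568) (nat_lit 250) .nil))))))) (.g (nat_lit 5) .nil .nil)))))) (.nd (nat_lit 4) (.nd (nat_lit 5) (.nd (nat_lit 6) 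
(.lf (nat_lit 70920) (.g (nat_lit 1232) (.e (nat_lit 1660) (nat_lit 115) (.e (nat_lit 393287) (nat_lit 25) (.e (nat_lit 458789) (nat_lit 23) (.e (nat_lit 532484) (nat_lit 0) (.e (nat_lit 7936) (nat_lit 153) .nil))))) .nil)) 
(.lf (nat_lit 70984) (.g (nat_lit 988) (.e (nat_lit 1660) (nat_lit 115) (.e (nat_lit 393299) (nat_lit 27) (.e (nat_lit 491548) (nat_lit 9) .nil))) .nil))) (.nd (nat_lit 6) 
(.lf (nat_lit 70952) (.g (nat_lit 1866) (.e (nat_lit 1660) (nat_lit 115) (.e (nat_lit 393297) (nat_lit 27) (.e (nat_lit 491570) (nat_lit 13) (.e (nat_lit 393238) (nat_lit 17) (.e (nat_lit 7521) (nat_lit 402) .nil))))) (.g (nat_lit 4) .nil .nil))) 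
(.lf (nat_lit 71016) (.g (nat_lit 3817) (.e (nat_lit 1661) (nat_lit 115) (.e (nat_lit 393225) (nat_lit 9) (.e (nat_lit 335995) (nat_lit 1) (.e (nat_lit 57848) (nat_lit 252) (.e (nat_lit 57375) (nat_lit 2) (.e (nat_lit 90153) (nat_lit 10) (.e (nat_lit 8567) (nat_lit 250) .nil))))))) (.g (nat_lit 5) .nil .nil))))) (.nd (nat_lit 5) (.nd (nat_lit 6) 
(.lf (nat_lit 70936) (.g (nat_lit 2522) (.e (nat_lit 1660) (nat_lit 115) (.e (nat_lit 393291) (nat_lit 26) (.e (nat_lit 475210) (nat_lit 41) (.e (nat_lit 712749) (nat_lit 28) (.e (nat_lit 434180) (nat_lit 0) .nil))))) (.g (nat_lit 0) .nil .nil))) 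
(.lf (nat_lit 71000) (.g (nat_lit 3592) (.e (nat_lit 1661) (nat_lit 115) (.e (nat_lit 393225) (nat_lit 9) (.e (nat_lit 335988) (nat_lit 1) (.e (nat_lit 57854) (nat_lit 252) (.e (nat_lit 57373) (nat_lit 2) (.e (nat_lit 90153) (nat_lit 10) (.e (nat_lit 8567) (nat_lit 250) .nil))))))) (.g (nat_lit 5) .nil .nil)))) (.nd (nat_lit 6) 
(.lf (nat_lit 70968) (.g (nat_lit 2979) (.e (nat_lit 1660) (nat_lit 115) (.e (nat_lit 393298) (nat_lit 27) (.e (nat_lit 491570) (nat_lit 13) (.e (nat_lit 393238) (nat_lit 17) (.e (nat_lit 7521) (nat_lit 402) .nil))))) (.g (nat_lit 0) .nil .nil))) 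
(.lf (nat_lit 71032) (.g (nat_lit 3546) (.e (nat_lit 1661) (nat_lit 115) (.e (nat_lit 393225) (nat_lit 9) (.e (nat_lit 335996) (nat_lit 1) (.e (nat_lit 57854) (nat_lit 252) (.e (nat_lit 57378) (nat_lit 3) (.e (nat_lit 98309) (nat_lit 0) (.e (nat_lit 6469) (nat_lit 343) .nil))))))) (.g (nat_lit 5) .nil .nil))))))) (.nd (nat_lit 3) (.nd (nat_lit 4) (.nd (nat_lit 5) (.nd (nat_lit 6) 
(.lf (nat_lit 70916) (.g (nat_lit 2312) (.e (nat_lit 1660) (nat_lit 115) (.e (nat_lit 393284) (nat_lit 24) (.e (nat_lit 434272) (nat_lit 38) (.e (nat_lit 655379) (nat_lit 5) (.e (nat_lit 180277) (nat_lit 32) .nil))))) (.g (nat_lit 0) .nil .nil))) 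
(.lf (nat_lit 70980) (.g (nat_lit 2651) (.e (nat_lit 1660) (nat_lit 115) (.e (nat_lit 393298) (nat_lit 27) (.e (nat_lit 491571) (nat_lit 13) (.e (nat_lit 393244) (nat_lit 17) .nil)))) .nil))) (.nd (nat_lit 6) 
(.lf (nat_lit 70948) (.g (nat_lit 1531) (.e (nat_lit 1660) (nat_lit 115) (.e (nat_lit 393294) (nat_lit 26) (.e (nat_lit 475210) (nat_lit 41) (.e (nat_lit 712747) (nat_lit 28) .nil)))) .nil)) 
(.lf (nat_lit 71012) (.g (nat_lit 4443) (.e (nat_lit 1661) (nat_lit 115) (.e (nat_lit 393225) (nat_lit 9) (.e (nat_lit 335995) (nat_lit 1) (.e (nat_lit 57848) (nat_lit 252) (.e (nat_lit 57372) (nat_lit 2) (.e (nat_lit 90154) (nat_lit 10) (.e (nat_lit 8567) (nat_lit 250) .nil))))))) (.g (nat_lit 0) .nil .nil))))) (.nd (nat_lit 5) (.nd (nat_lit 6) 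
(.lf (nat_lit 70932) (.g (nat_lit 1241) (.e (nat_lit 1660) (nat_lit 115) (.e (nat_lit 393291) (nat_lit 26) (.e (nat_lit 475210) (nat_lit 41) (.e (nat_lit 712747) (nat_lit 28) .nil)))) .nil)) 
(.lf (nat_lit 70996) (.g (nat_lit 2719) (.e (nat_lit 1661) (nat_lit 115) (.e (nat_lit 393225) (nat_lit 9) (.e (nat_lit 335986) (nat_lit 1) (.e (nat_lit 57847) (nat_lit 252) (.e (nat_lit 57379) (nat_lit 3) (.e (nat_lit 98308) (nat_lit 0) (.e (nat_lit 6466) (nat_lit 343) .nil))))))) (.g (nat_lit 4) .nil .nil)))) (.nd (nat_lit 6) 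
(.lf (nat_lit 70964) (.g (nat_lit 2735) (.e (nat_lit 1660) (nat_lit 115) (.e (nat_lit 393298) (nat_lit 27) (.e (nat_lit 491549) (nat_lit 9) (.e (nat_lit 336421) (nat_lit 28) (.e (nat_lit 434180) (nat_lit 0) .nil))))) (.g (nat_lit 0) .nil .nil))) 
(.lf (nat_lit 71028) (.g (nat_lit 2360) (.e (nat_lit 1661) (nat_lit 115) (.e (nat_lit 393225) (nat_lit 9) (.e (nat_lit 335996) (nat_lit 1) (.e (nat_lit 57854) (nat_lit 252) (.e (nat_lit 57371) (nat_lit 2) (.e (nat_lit 90155) (nat_lit 10) (.e (nat_lit 8567) (nat_lit 250) .nil))))))) (.g (nat_lit 4) .nil .nil)))))) (.nd (nat_lit 4) (.nd (nat_lit 5) (.nd (nat_lit 6) 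
(.lf (nat_lit 70924) (.g (nat_lit 1016) (.e (nat_lit 1660) (nat_lit 115) (.e (nat_lit 393290) (nat_lit 26) (.e (nat_lit 475210) (nat_lit 41) (.e (nat_lit 712747) (nat_lit 28) .nil)))) .nil)) 
(.lf (nat_lit 70988) (.g (nat_lit 1280) (.e (nat_lit 1660) (nat_lit 115) (.e (nat_lit 393299) (nat_lit 27) (.e (nat_lit 491570) (nat_lit 13) (.e (nat_lit 393238) (nat_lit 17) .nil)))) .nil))) (.nd (nat_lit 6) 
(.lf (nat_lit 70956) (.g (nat_lit 3004) (.e (nat_lit 1660) (nat_lit 115) (.e (nat_lit 393297) (nat_lit 27) (.e (nat_lit 491571) (nat_lit 13) (.e (nat_lit 393232) (nat_lit 17) (.e (nat_lit 7513) (nat_lit 402) .nil))))) (.g (nat_lit 0) .nil .nil))) 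
(.lf (nat_lit 71020) (.g (nat_lit 1899) (.e (nat_lit 1661) (nat_lit 115) (.e (nat_lit 393225) (nat_lit 9) (.e (nat_lit 335995) (nat_lit 1) (.e (nat_lit 57849) (nat_lit 252) .nil)))) .nil)))) (.nd (nat_lit 5) (.nd (nat_lit 6) 
(.lf (nat_lit 70940) (.g (nat_lit 872) (.e (nat_lit 1660) (nat_lit 115) (.e (nat_lit 393294) (nat_lit 26) (.e (nat_lit 475195) (nat_lit 40) .nil))) .nil)) 
(.lf (nat_lit 71004) (.g (nat_lit 3034) (.e (nat_lit 1661) (nat_lit 115) (.e (nat_lit 393225) (nat_lit 9) (.e (nat_lit 335995) (nat_lit 1) (.e (nat_lit 57844) (nat_lit 252) (.e (nat_lit 57371) (nat_lit 2) (.e (nat_lit 90153) (nat_lit 10) (.e (nat_lit 8567) (nat_lit 250) .nil))))))) (.g (nat_lit 4) .nil .nil)))) (.nd (nat_lit 6) 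
(.lf (nat_lit 70972) (.g (nat_lit 1941) (.e (nat_lit 1660) (nat_lit 115) (.e (nat_lit 393298) (nat_lit 27) (.e (nat_lit 491570) (nat_lit 13) (.e (nat_lit 393238) (nat_lit 17) (.e (nat_lit 7936) (nat_lit 402) .nil))))) .nil)) 
(.lf (nat_lit 71036) (.g (nat_lit 3586) (.e (nat_lit 1661) (nat_lit 115) (.e (nat_lit 393225) (nat_lit 9) (.e (nat_lit 336088) (nat_lit 9) (.e (nat_lit 336019) (nat_lit 3) (.e (nat_lit 98333) (nat_lit 18) (.e (nat_lit 164151) (nat_lit 152) (.e (nat_lit 1102) (nat_lit 81) .nil))))))) (.g (nat_lit 5) .nil .nil)))))))) 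
(.nd (nat_lit 2) (.nd (nat_lit 3) (.nd (nat_lit 4) (.nd (nat_lit 5) (.nd (nat_lit 6) 
(.lf (nat_lit 70914) (.g (nat_lit 1173) (.e (nat_lit 1660) (nat_lit 115) (.e (nat_lit 393284) (nat_lit 24) (.e (nat_lit 434209) (nat_lit 18) (.e (nat_lit 5546) (nat_lit 306) .nil)))) .nil)) 
(.lf (nat_lit 70978) (.g (nat_lit 2947) (.e (nat_lit 1660) (nat_lit 115) (.e (nat_lit 393298) (nat_lit 27) (.e (nat_lit 491571) (nat_lit 13) (.e (nat_lit 393238) (nat_lit 17) (.e (nat_lit 7555) (nat_lit 402) .nil))))) (.g (nat_lit 4) .nil .nil)))) (.nd (nat_lit 6) 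
(.lf (nat_lit 70946) (.g (nat_lit 2058) (.e (nat_lit 1660) (nat_lit 115) (.e (nat_lit 393294) (nat_lit 26) (.e (nat_lit 475209) (nat_lit 41) (.e (nat_lit 712749) (nat_lit 28) (.e (nat_lit 434180) (nat_lit 0) .nil))))) (.g (nat_lit 5) .nil .nil))) 
(.lf (nat_lit 71010) (.g (nat_lit 3582) (.e (nat_lit 1661) (nat_lit 115) (.e (nat_lit 393225) (nat_lit 9) (.e (nat_lit 335995) (nat_lit 1) (.e (nat_lit 57847) (nat_lit 252) (.e (nat_lit 57379) (nat_lit 3) (.e (nat_lit 98309) (nat_lit 0) (.e (nat_lit 6469) (nat_lit 343) .nil))))))) (.g (nat_lit 5) .nil .nil))))) (.nd (nat_lit 5) (.nd (nat_lit 6) 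
(.lf (nat_lit 70930) (.g (nat_lit 2632) (.e (nat_lit 1660) (nat_lit 115) (.e (nat_lit 393291) (nat_lit 26) (.e (nat_lit 475199) (nat_lit 40) (.e (nat_lit 704595) (nat_lit 5) (.e (nat_lit 180277) (nat_lit 32) .nil))))) (.g (nat_lit 0) .nil .nil))) 
(.lf (nat_lit 70994) (.g (nat_lit 1283) (.e (nat_lit 1661) (nat_lit 115) (.e (nat_lit 393225) (nat_lit 9) (.e (nat_lit 335986) (nat_lit 1) (.e (nat_lit 57847) (nat_lit 252) .nil)))) .nil))) (.nd (nat_lit 6) 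
(.lf (nat_lit 70962) (.g (nat_lit 1982) (.e (nat_lit 1660) (nat_lit 115) (.e (nat_lit 393298) (nat_lit 27) (.e (nat_lit 491548) (nat_lit 9) (.e (nat_lit 336421) (nat_lit 28) (.e (nat_lit 434180) (nat_lit 0) .nil))))) (.g (nat_lit 5) .nil .nil))) 
(.lf (nat_lit 71026) (.g (nat_lit 2727) (.e (nat_lit 1661) (nat_lit 115) (.e (nat_lit 393225) (nat_lit 9) (.e (nat_lit 335996) (nat_lit 1) (.e (nat_lit 57852) (nat_lit 252) (.e (nat_lit 57377) (nat_lit 3) (.e (nat_lit 98305) (nat_lit 0) (.e (nat_lit 6466) (nat_lit 343) .nil))))))) (.g (nat_lit 4) .nil .nil)))))) (.nd (nat_lit 4) (.nd (nat_lit 5) (.nd (nat_lit 6) 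
(.lf (nat_lit 70922) (.g (nat_lit 2171) (.e (nat_lit 1660) (nat_lit 115) (.e (nat_lit 393290) (nat_lit 26) (.e (nat_lit 475198) (nat_lit 40) (.e (nat_lit 704595) (nat_lit 5) (.e (nat_lit 180277) (nat_lit 32) .nil))))) (.g (nat_lit 5) .nil .nil))) 
(.lf (nat_lit 70986) (.g (nat_lit 893) (.e (nat_lit 1660) (nat_lit 115) (.e (nat_lit 393299) (nat_lit 27) (.e (nat_lit 491568) (nat_lit 13) .nil))) .nil))) (.nd (nat_lit 6) 
(.lf (nat_lit 70954) (.g (nat_lit 1578) (.e (nat_lit 1660) (nat_lit 115) (.e (nat_lit 393297) (nat_lit 27) (.e (nat_lit 491571) (nat_lit 13) (.e (nat_lit 393231) (nat_lit 17) .nil)))) .nil)) 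
(.lf (nat_lit 71018) (.g (nat_lit 4009) (.e (nat_lit 1661) (nat_lit 115) (.e (nat_lit 393225) (nat_lit 9) (.e (nat_lit 335995) (nat_lit 1) (.e (nat_lit 57848) (nat_lit 252) (.e (nat_lit 57375) (nat_lit 2) (.e (nat_lit 90155) (nat_lit 10) (.e (nat_lit 8568) (nat_lit 250) .nil))))))) (.g (nat_lit 5) .nil .nil))))) (.nd (nat_lit 5) (.nd (nat_lit 6) 
(.lf (nat_lit 70938) (.g (nat_lit 1139) (.e (nat_lit 1660) (nat_lit 115) (.e (nat_lit 393291) (nat_lit 26) (.e (nat_lit 475211) (nat_lit 41) (.e (nat_lit 712747) (nat_lit 28) .nil)))) .nil)) 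
(.lf (nat_lit 71002) (.g (nat_lit 3080) (.e (nat_lit 1661) (nat_lit 115) (.e (nat_lit 393225) (nat_lit 9) (.e (nat_lit 335988) (nat_lit 1) (.e (nat_lit 57854) (nat_lit 252) (.e (nat_lit 57378) (nat_lit 3) (.e (nat_lit 98309) (nat_lit 0) (.e (nat_lit 6466) (nat_lit 343) .nil))))))) (.g (nat_lit 5) .nil .nil)))) (.nd (nat_lit 6) 
(.lf (nat_lit 70970) (.g (nat_lit 3116) (.e (nat_lit 1660) (nat_lit 115) (.e (nat_lit 393298) (nat_lit 27) (.e (nat_lit 491570) (nat_lit 13) (.e (nat_lit 393238) (nat_lit 17) (.e (nat_lit 7555) (nat_lit 402) .nil))))) (.g (nat_lit 0) .nil .nil))) 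
(.lf (nat_lit 71034) (.g (nat_lit 1958) (.e (nat_lit 1661) (nat_lit 115) (.e (nat_lit 393225) (nat_lit 9) (.e (nat_lit 336088) (nat_lit 9) (.e (nat_lit 336019) (nat_lit 3) (.e (nat_lit 98333) (nat_lit 18) .nil))))) .nil)))))) (.nd (nat_lit 3) (.nd (nat_lit 4) (.nd (nat_lit 5) (.nd (nat_lit 6) 
(.lf (nat_lit 70918) (.g (nat_lit 902) (.e (nat_lit 1660) (nat_lit 115) (.e (nat_lit 393286) (nat_lit 25) (.e (nat_lit 458789) (nat_lit 23) (.e (nat_lit 532484) (nat_lit 0) .nil)))) .nil)) 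
(.lf (nat_lit 70982) (.g (nat_lit 1014) (.e (nat_lit 1660) (nat_lit 115) (.e (nat_lit 393299) (nat_lit 27) (.e (nat_lit 491538) (nat_lit 3) .nil))) .nil))) (.nd (nat_lit 6) 
(.lf (nat_lit 70950) (.g (nat_lit 1081) (.e (nat_lit 1660) (nat_lit 115) (.e (nat_lit 393294) (nat_lit 26) (.e (nat_lit 475211) (nat_lit 41) (.e (nat_lit 712747) (nat_lit 28) .nil)))) .nil)) 
(.lf (nat_lit 71014) (.g (nat_lit 3909) (.e (nat_lit 1661) (nat_lit 115) (.e (nat_lit 393225) (nat_lit 9) (.e (nat_lit 335995) (nat_lit 1) (.e (nat_lit 57848) (nat_lit 252) (.e (nat_lit 57372) (nat_lit 2) (.e (nat_lit 90155) (nat_lit 10) (.e (nat_lit 8567) (nat_lit 250) .nil))))))) (.g (nat_lit 0) .nil .nil))))) (.nd (nat_lit 5) (.nd (nat_lit 6) 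
(.lf (nat_lit 70934) (.g (nat_lit 1799) (.e (nat_lit 1660) (nat_lit 115) (.e (nat_lit 393291) (nat_lit 26) (.e (nat_lit 475210) (nat_lit 41) (.e (nat_lit 712747) (nat_lit 28) (.e (nat_lit 434180) (nat_lit 0) .nil))))) .nil)) 
(.lf (nat_lit 70998) (.g (nat_lit 2930) (.e (nat_lit 1661) (nat_lit 115) (.e (nat_lit 393225) (nat_lit 9) (.e (nat_lit 335986) (nat_lit 1) (.e (nat_lit 57847) (nat_lit 252) (.e (nat_lit 57379) (nat_lit 3) (.e (nat_lit 98309) (nat_lit 0) (.e (nat_lit 6469) (nat_lit 343) .nil))))))) (.g (nat_lit 5) .nil .nil)))) (.nd (nat_lit 6) 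
(.lf (nat_lit 70966) (.g (nat_lit 652) (.e (nat_lit 1660) (nat_lit 115) (.e (nat_lit 393298) (nat_lit 27) (.e (nat_lit 491569) (nat_lit 13) .nil))) .nil)) 
(.lf (nat_lit 71030) (.g (nat_lit 3882) (.e (nat_lit 1661) (nat_lit 115) (.e (nat_lit 393225) (nat_lit 9) (.e (nat_lit 335996) (nat_lit 1) (.e (nat_lit 57854) (nat_lit 252) (.e (nat_lit 57378) (nat_lit 3) (.e (nat_lit 98305) (nat_lit 0) (.e (nat_lit 6466) (nat_lit 343) .nil))))))) (.g (nat_lit 5) .nil .nil)))))) (.nd (nat_lit 4) (.nd (nat_lit 5) (.nd (nat_lit 6) 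
(.lf (nat_lit 70926) (.g (nat_lit 1610) (.e (nat_lit 1660) (nat_lit 115) (.e (nat_lit 393290) (nat_lit 26) (.e (nat_lit 475211) (nat_lit 41) (.e (nat_lit 712749) (nat_lit 28) (.e (nat_lit 434180) (nat_lit 0) .nil))))) (.g (nat_lit 4) .nil .nil))) 
(.lf (nat_lit 70990) (.g (nat_lit 2295) (.e (nat_lit 1660) (nat_lit 115) (.e (nat_lit 393299) (nat_lit 27) (.e (nat_lit 491570) (nat_lit 13) (.e (nat_lit 393238) (nat_lit 17) (.e (nat_lit 7555) (nat_lit 402) .nil))))) .nil))) (.nd (nat_lit 6) 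
(.lf (nat_lit 70958) (.g (nat_lit 2298) (.e (nat_lit 1660) (nat_lit 115) (.e (nat_lit 393297) (nat_lit 27) (.e (nat_lit 491571) (nat_lit 13) (.e (nat_lit 393235) (nat_lit 17) (.e (nat_lit 7562) (nat_lit 402) .nil))))) (.g (nat_lit 0) .nil .nil))) 
(.lf (nat_lit 71022) (.g (nat_lit 3449) (.e (nat_lit 1661) (nat_lit 115) (.e (nat_lit 393225) (nat_lit 9) (.e (nat_lit 335996) (nat_lit 1) (.e (nat_lit 57851) (nat_lit 252) (.e (nat_lit 57371) (nat_lit 2) (.e (nat_lit 90153) (nat_lit 10) (.e (nat_lit 8567) (nat_lit 250) .nil))))))) (.g (nat_lit 5) .nil .nil))))) (.nd (nat_lit 5) (.nd (nat_lit 6) 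
(.lf (nat_lit 70942) (.g (nat_lit 798) (.e (nat_lit 1660) (nat_lit 115) (.e (nat_lit 393294) (nat_lit 26) (.e (nat_lit 475205) (nat_lit 40) .nil))) .nil)) 
(.lf (nat_lit 71006) (.g (nat_lit 3153) (.e (nat_lit 1661) (nat_lit 115) (.e (nat_lit 393225) (nat_lit 9) (.e (nat_lit 335995) (nat_lit 1) (.e (nat_lit 57844) (nat_lit 252) (.e (nat_lit 57371) (nat_lit 2) (.e (nat_lit 90155) (nat_lit 10) (.e (nat_lit 8568) (nat_lit 250) .nil))))))) (.g (nat_lit 4) .nil .nil)))) (.nd (nat_lit 6) 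
(.lf (nat_lit 70974) (.g (nat_lit 1517) (.e (nat_lit 1660) (nat_lit 115) (.e (nat_lit 393298) (nat_lit 27) (.e (nat_lit 491570) (nat_lit 13) (.e (nat_lit 393243) (nat_lit 17) .nil)))) .nil)) 
(.lf (nat_lit 71038) (.g (nat_lit 659) (.e (nat_lit 1661) (nat_lit 115) (.e (nat_lit 393225) (nat_lit 9) (.e (nat_lit 336165) (nat_lit 10) .nil))) .nil)))))))) (.nd (nat_lit 1) (.nd (nat_lit 2) (.nd (nat_lit 3) (.nd (nat_lit 4) (.nd (nat_lit 5) (.nd (nat_lit 6) 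
(.lf (nat_lit 70913) (.g (nat_lit 680) (.e (nat_lit 1660) (nat_lit 115) (.e (nat_lit 393283) (nat_lit 24) (.e (nat_lit 434270) (nat_lit 38) (.e (nat_lit 655379) (nat_lit 5) .nil)))) .nil)) 
(.lf (nat_lit 70977) (.g (nat_lit 2719) (.e (nat_lit 1660) (nat_lit 115) (.e (nat_lit 393298) (nat_lit 27) (.e (nat_lit 491571) (nat_lit 13) (.e (nat_lit 393238) (nat_lit 17) (.e (nat_lit 7521) (nat_lit 402) .nil))))) .nil))) (.nd (nat_lit 6) 
(.lf (nat_lit 70945) (.g (nat_lit 2270) (.e (nat_lit 1660) (nat_lit 115) (.e (nat_lit 393294) (nat_lit 26) (.e (nat_lit 475208) (nat_lit 41) (.e (nat_lit 712749) (nat_lit 28) (.e (nat_lit 434180) (nat_lit 0) .nil))))) (.g (nat_lit 5) .nil .nil))) 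
(.lf (nat_lit 71009) (.g (nat_lit 3699) (.e (nat_lit 1661) (nat_lit 115) (.e (nat_lit 393225) (nat_lit 9) (.e (nat_lit 335995) (nat_lit 1) (.e (nat_lit 57847) (nat_lit 252) (.e (nat_lit 57379) (nat_lit 3) (.e (nat_lit 98309) (nat_lit 0) (.e (nat_lit 6466) (nat_lit 343) .nil))))))) (.g (nat_lit 6) .nil .nil))))) (.nd (nat_lit 5) (.nd (nat_lit 6) 
(.lf (nat_lit 70929) (.g (nat_lit 1100) (.e (nat_lit 1660) (nat_lit 115) (.e (nat_lit 393291) (nat_lit 26) (.e (nat_lit 475197) (nat_lit 40) (.e (nat_lit 704596) (nat_lit 5) .nil)))) .nil)) 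
(.lf (nat_lit 70993) (.g (nat_lit 2777) (.e (nat_lit 1661) (nat_lit 115) (.e (nat_lit 393224) (nat_lit 9) (.e (nat_lit 336088) (nat_lit 9) (.e (nat_lit 336019) (nat_lit 3) (.e (nat_lit 98333) (nat_lit 18) (.e (nat_lit 164151) (nat_lit 152) (.e (nat_lit 1056) (nat_lit 81) .nil))))))) (.g (nat_lit 4) .nil .nil)))) (.nd (nat_lit 6) 
(.lf (nat_lit 70961) (.g (nat_lit 1420) (.e (nat_lit 1660) (nat_lit 115) (.e (nat_lit 393298) (nat_lit 27) (.e (nat_lit 491547) (nat_lit 9) (.e (nat_lit 336421) (nat_lit 28) .nil)))) .nil)) 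
(.lf (nat_lit 71025) (.g (nat_lit 2671) (.e (nat_lit 1661) (nat_lit 115) (.e (nat_lit 393225) (nat_lit 9) (.e (nat_lit 335996) (nat_lit 1) (.e (nat_lit 57852) (nat_lit 252) (.e (nat_lit 57373) (nat_lit 2) .nil))))) .nil))))) (.nd (nat_lit 4) (.nd (nat_lit 5) (.nd (nat_lit 6) 
(.lf (nat_lit 70921) (.g (nat_lit 1329) (.e (nat_lit 1660) (nat_lit 115) (.e (nat_lit 393290) (nat_lit 26) (.e (nat_lit 475197) (nat_lit 40) (.e (nat_lit 704595) (nat_lit 5) (.e (nat_lit 180278) (nat_lit 32) .nil))))) (.g (nat_lit 4) .nil .nil))) 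
(.lf (nat_lit 70985) (.g (nat_lit 1300) (.e (nat_lit 1660) (nat_lit 115) (.e (nat_lit 393299) (nat_lit 27) (.e (nat_lit 491549) (nat_lit 9) (.e (nat_lit 336421) (nat_lit 28) .nil)))) .nil))) (.nd (nat_lit 6) 
(.lf (nat_lit 70953) (.g (nat_lit 1905) (.e (nat_lit 1660) (nat_lit 115) (.e (nat_lit 393297) (nat_lit 27) (.e (nat_lit 491570) (nat_lit 13) (.e (nat_lit 393238) (nat_lit 17) (.e (nat_lit 7555) (nat_lit 402) .nil))))) (.g (nat_lit 4) .nil .nil))) 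
(.lf (nat_lit 71017) (.g (nat_lit 3554) (.e (nat_lit 1661) (nat_lit 115) (.e (nat_lit 393225) (nat_lit 9) (.e (nat_lit 335995) (nat_lit 1) (.e (nat_lit 57848) (nat_lit 252) (.e (nat_lit 57375) (nat_lit 2) (.e (nat_lit 90154) (nat_lit 10) (.e (nat_lit 8567) (nat_lit 250) .nil))))))) (.g (nat_lit 5) .nil .nil))))) (.nd (nat_lit 5) (.nd (nat_lit 6) 
(.lf (nat_lit 70937) (.g (nat_lit 507) (.e (nat_lit 1660) (nat_lit 115) (.e (nat_lit 393291) (nat_lit 26) (.e (nat_lit 475211) (nat_lit 41) .nil))) .nil)) 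
(.lf (nat_lit 71001) (.g (nat_lit 2640) (.e (nat_lit 1661) (nat_lit 115) (.e (nat_lit 393225) (nat_lit 9) (.e (nat_lit 335988) (nat_lit 1) (.e (nat_lit 57854) (nat_lit 252) (.e (nat_lit 57373) (nat_lit 2) (.e (nat_lit 90155) (nat_lit 10) (.e (nat_lit 8567) (nat_lit 250) .nil))))))) (.g (nat_lit 4) .nil .nil)))) (.nd (nat_lit 6) 
(.lf (nat_lit 70969) (.g (nat_lit 2233) (.e (nat_lit 1660) (nat_lit 115) (.e (nat_lit 393298) (nat_lit 27) (.e (nat_lit 491570) (nat_lit 13) (.e (nat_lit 393238) (nat_lit 17) (.e (nat_lit 7537) (nat_lit 402) .nil))))) (.g (nat_lit 4) .nil .nil))) 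
(.lf (nat_lit 71033) (.g (nat_lit 3223) (.e (nat_lit 1661) (nat_lit 115) (.e (nat_lit 393225) (nat_lit 9) (.e (nat_lit 336087) (nat_lit 9) (.e (nat_lit 336019) (nat_lit 3) (.e (nat_lit 98333) (nat_lit 18) (.e (nat_lit 164151) (nat_lit 152) (.e (nat_lit 1102) (nat_lit 81) .nil))))))) (.g (nat_lit 5) .nil .nil))))))) (.nd (nat_lit 3) (.nd (nat_lit 4) (.nd (nat_lit 5) (.nd (nat_lit 6) 
(.lf (nat_lit 70917) (.g (nat_lit 2246) (.e (nat_lit 1660) (nat_lit 115) (.e (nat_lit 393284) (nat_lit 24) (.e (nat_lit 434272) (nat_lit 38) (.e (nat_lit 655379) (nat_lit 5) (.e (nat_lit 180278) (nat_lit 32) .nil))))) (.g (nat_lit 0) .nil .nil))) 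
(.lf (nat_lit 70981) (.g (nat_lit 2632) (.e (nat_lit 1660) (nat_lit 115) (.e (nat_lit 393298) (nat_lit 27) (.e (nat_lit 491571) (nat_lit 13) (.e (nat_lit 393245) (nat_lit 17) .nil)))) .nil))) (.nd (nat_lit 6) 
(.lf (nat_lit 70949) (.g (nat_lit 2658) (.e (nat_lit 1660) (nat_lit 115) (.e (nat_lit 393294) (nat_lit 26) (.e (nat_lit 475210) (nat_lit 41) (.e (nat_lit 712749) (nat_lit 28) (.e (nat_lit 434180) (nat_lit 0) .nil))))) (.g (nat_lit 4) .nil .nil))) 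
(.lf (nat_lit 71013) (.g (nat_lit 4071) (.e (nat_lit 1661) (nat_lit 115) (.e (nat_lit 393225) (nat_lit 9) (.e (nat_lit 335995) (nat_lit 1) (.e (nat_lit 57848) (nat_lit 252) (.e (nat_lit 57372) (nat_lit 2) (.e (nat_lit 90154) (nat_lit 10) (.e (nat_lit 8568) (nat_lit 250) .nil))))))) (.g (nat_lit 6) .nil .nil))))) (.nd (nat_lit 5) (.nd (nat_lit 6) 
(.lf (nat_lit 70933) (.g (nat_lit 1890) (.e (nat_lit 1660) (nat_lit 115) (.e (nat_lit 393291) (nat_lit 26) (.e (nat_lit 475210) (nat_lit 41) (.e (nat_lit 712747) (nat_lit 28) (.e (nat_lit 434177) (nat_lit 0) .nil))))) (.g (nat_lit 4) .nil .nil))) 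
(.lf (nat_lit 70997) (.g (nat_lit 3047) (.e (nat_lit 1661) (nat_lit 115) (.e (nat_lit 393225) (nat_lit 9) (.e (nat_lit 335986) (nat_lit 1) (.e (nat_lit 57847) (nat_lit 252) (.e (nat_lit 57379) (nat_lit 3) (.e (nat_lit 98309) (nat_lit 0) (.e (nat_lit 6466) (nat_lit 343) .nil))))))) (.g (nat_lit 5) .nil .nil)))) (.nd (nat_lit 6) 
(.lf (nat_lit 70965) (.g (nat_lit 2647) (.e (nat_lit 1660) (nat_lit 115) (.e (nat_lit 393298) (nat_lit 27) (.e (nat_lit 491549) (nat_lit 9) (.e (nat_lit 336421) (nat_lit 28) (.e (nat_lit 434181) (nat_lit 0) .nil))))) (.g (nat_lit 0) .nil .nil))) 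
(.lf (nat_lit 71029) (.g (nat_lit 4286) (.e (nat_lit 1661) (nat_lit 115) (.e (nat_lit 393225) (nat_lit 9) (.e (nat_lit 335996) (nat_lit 1) (.e (nat_lit 57854) (nat_lit 252) (.e (nat_lit 57373) (nat_lit 2) (.e (nat_lit 90153) (nat_lit 10) (.e (nat_lit 8567) (nat_lit 250) .nil))))))) (.g (nat_lit 5) .nil .nil)))))) (.nd (nat_lit 4) (.nd (nat_lit 5) (.nd (nat_lit 6) 
(.lf (nat_lit 70925) (.g (nat_lit 1768) (.e (nat_lit 1660) (nat_lit 115) (.e (nat_lit 393290) (nat_lit 26) (.e (nat_lit 475210) (nat_lit 41) (.e (nat_lit 712749) (nat_lit 28) (.e (nat_lit 434180) (nat_lit 0) .nil))))) (.g (nat_lit 4) .nil .nil))) 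
(.lf (nat_lit 70989) (.g (nat_lit 2269) (.e (nat_lit 1660) (nat_lit 115) (.e (nat_lit 393299) (nat_lit 27) (.e (nat_lit 491570) (nat_lit 13) (.e (nat_lit 393238) (nat_lit 17) (.e (nat_lit 7521) (nat_lit 402) .nil))))) .nil))) (.nd (nat_lit 6) 
(.lf (nat_lit 70957) (.g (nat_lit 1205) (.e (nat_lit 1660) (nat_lit 115) (.e (nat_lit 393297) (nat_lit 27) (.e (nat_lit 491571) (nat_lit 13) (.e (nat_lit 393235) (nat_lit 17) .nil)))) .nil)) 
(.lf (nat_lit 71021) (.g (nat_lit 3120) (.e (nat_lit 1661) (nat_lit 115) (.e (nat_lit 393225) (nat_lit 9) (.e (nat_lit 335995) (nat_lit 1) (.e (nat_lit 57849) (nat_lit 252) (.e (nat_lit 57379) (nat_lit 3) (.e (nat_lit 98309) (nat_lit 0) (.e (nat_lit 6466) (nat_lit 343) .nil))))))) (.g (nat_lit 4) .nil .nil))))) (.nd (nat_lit 5) (.nd (nat_lit 6) 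
(.lf (nat_lit 70941) (.g (nat_lit 2612) (.e (nat_lit 1660) (nat_lit 115) (.e (nat_lit 393294) (nat_lit 26) (.e (nat_lit 475198) (nat_lit 40) (.e (nat_lit 704596) (nat_lit 5) (.e (nat_lit 180277) (nat_lit 32) .nil))))) (.g (nat_lit 5) .nil .nil))) 
(.lf (nat_lit 71005) (.g (nat_lit 3879) (.e (nat_lit 1661) (nat_lit 115) (.e (nat_lit 393225) (nat_lit 9) (.e (nat_lit 335995) (nat_lit 1) (.e (nat_lit 57844) (nat_lit 252) (.e (nat_lit 57371) (nat_lit 2) (.e (nat_lit 90155) (nat_lit 10) (.e (nat_lit 8567) (nat_lit 250) .nil))))))) (.g (nat_lit 5) .nil .nil)))) (.nd (nat_lit 6) 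
(.lf (nat_lit 70973) (.g (nat_lit 1669) (.e (nat_lit 1660) (nat_lit 115) (.e (nat_lit 393298) (nat_lit 27) (.e (nat_lit 491570) (nat_lit 13) (.e (nat_lit 393242) (nat_lit 17) .nil)))) .nil)) 
(.lf (nat_lit 71037) (.g (nat_lit 1926) (.e (nat_lit 1661) (nat_lit 115) (.e (nat_lit 393225) (nat_lit 9) (.e (nat_lit 336088) (nat_lit 9) (.e (nat_lit 336019) (nat_lit 3) (.e (nat_lit 98335) (nat_lit 18) .nil))))) .nil))))))) (.nd (nat_lit 2) (.nd (nat_lit 3) (.nd (nat_lit 4) (.nd (nat_lit 5) (.nd (nat_lit 6) 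
(.lf (nat_lit 70915) (.g (nat_lit 1238) (.e (nat_lit 1660) (nat_lit 115) (.e (nat_lit 393284) (nat_lit 24) (.e (nat_lit 434209) (nat_lit 18) (.e (nat_lit 5547) (nat_lit 306) .nil)))) .nil)) 
(.lf (nat_lit 70979) (.g (nat_lit 2607) (.e (nat_lit 1660) (nat_lit 115) (.e (nat_lit 393298) (nat_lit 27) (.e (nat_lit 491571) (nat_lit 13) (.e (nat_lit 393239) (nat_lit 17) .nil)))) .nil))) (.nd (nat_lit 6) 
(.lf (nat_lit 70947) (.g (nat_lit 890) (.e (nat_lit 1660) (nat_lit 115) (.e (nat_lit 393294) (nat_lit 26) (.e (nat_lit 475210) (nat_lit 41) .nil))) .nil)) 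
(.lf (nat_lit 71011) (.g (nat_lit 4056) (.e (nat_lit 1661) (nat_lit 115) (.e (nat_lit 393225) (nat_lit 9) (.e (nat_lit 335995) (nat_lit 1) (.e (nat_lit 57848) (nat_lit 252) (.e (nat_lit 57372) (nat_lit 2) (.e (nat_lit 90153) (nat_lit 10) (.e (nat_lit 8567) (nat_lit 250) .nil))))))) (.g (nat_lit 5) .nil .nil))))) (.nd (nat_lit 5) (.nd (nat_lit 6) 
(.lf (nat_lit 70931) (.g (nat_lit 664) (.e (nat_lit 1660) (nat_lit 115) (.e (nat_lit 393291) (nat_lit 26) (.e (nat_lit 475209) (nat_lit 41) .nil))) .nil)) 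
(.lf (nat_lit 70995) (.g (nat_lit 1791) (.e (nat_lit 1661) (nat_lit 115) (.e (nat_lit 393225) (nat_lit 9) (.e (nat_lit 335986) (nat_lit 1) (.e (nat_lit 57847) (nat_lit 252) (.e (nat_lit 57379) (nat_lit 3) .nil))))) .nil))) (.nd (nat_lit 6) 
(.lf (nat_lit 70963) (.g (nat_lit 1903) (.e (nat_lit 1660) (nat_lit 115) (.e (nat_lit 393298) (nat_lit 27) (.e (nat_lit 491548) (nat_lit 9) (.e (nat_lit 336421) (nat_lit 28) (.e (nat_lit 434181) (nat_lit 0) .nil))))) (.g (nat_lit 5) .nil .nil))) 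
(.lf (nat_lit 71027) (.g (nat_lit 2670) (.e (nat_lit 1661) (nat_lit 115) (.e (nat_lit 393225) (nat_lit 9) (.e (nat_lit 335996) (nat_lit 1) (.e (nat_lit 57852) (nat_lit 252) (.e (nat_lit 57378) (nat_lit 3) .nil))))) .nil))))) (.nd (nat_lit 4) (.nd (nat_lit 5) (.nd (nat_lit 6) 
(.lf (nat_lit 70923) (.g (nat_lit 2112) (.e (nat_lit 1660) (nat_lit 115) (.e (nat_lit 393290) (nat_lit 26) (.e (nat_lit 475198) (nat_lit 40) (.e (nat_lit 704595) (nat_lit 5) (.e (nat_lit 180278) (nat_lit 32) .nil))))) (.g (nat_lit 5) .nil .nil))) 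
(.lf (nat_lit 70987) (.g (nat_lit 2797) (.e (nat_lit 1660) (nat_lit 115) (.e (nat_lit 393299) (nat_lit 27) (.e (nat_lit 491568) (nat_lit 13) (.e (nat_lit 393239) (nat_lit 17) .nil)))) .nil))) (.nd (nat_lit 6) 
(.lf (nat_lit 70955) (.g (nat_lit 2005) (.e (nat_lit 1660) (nat_lit 115) (.e (nat_lit 393297) (nat_lit 27) (.e (nat_lit 491571) (nat_lit 13) (.e (nat_lit 393231) (nat_lit 17) (.e (nat_lit 7562) (nat_lit 402) .nil))))) (.g (nat_lit 4) .nil .nil))) 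
(.lf (nat_lit 71019) (.g (nat_lit 2574) (.e (nat_lit 1661) (nat_lit 115) (.e (nat_lit 393225) (nat_lit 9) (.e (nat_lit 335995) (nat_lit 1) (.e (nat_lit 57848) (nat_lit 252) (.e (nat_lit 57377) (nat_lit 3) (.e (nat_lit 98305) (nat_lit 0) (.e (nat_lit 6466) (nat_lit 343) .nil))))))) (.g (nat_lit 4) .nil .nil))))) (.nd (nat_lit 5) (.nd (nat_lit 6) 
(.lf (nat_lit 70939) (.g (nat_lit 2549) (.e (nat_lit 1660) (nat_lit 115) (.e (nat_lit 393291) (nat_lit 26) (.e (nat_lit 475211) (nat_lit 41) (.e (nat_lit 712749) (nat_lit 28) (.e (nat_lit 434180) (nat_lit 0) .nil))))) (.g (nat_lit 5) .nil .nil))) 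
(.lf (nat_lit 71003) (.g (nat_lit 2963) (.e (nat_lit 1661) (nat_lit 115) (.e (nat_lit 393225) (nat_lit 9) (.e (nat_lit 335988) (nat_lit 1) (.e (nat_lit 57854) (nat_lit 252) (.e (nat_lit 57378) (nat_lit 3) (.e (nat_lit 98309) (nat_lit 0) (.e (nat_lit 6469) (nat_lit 343) .nil))))))) (.g (nat_lit 5) .nil .nil)))) (.nd (nat_lit 6) 
(.lf (nat_lit 70971) (.g (nat_lit 2317) (.e (nat_lit 1660) (nat_lit 115) (.e (nat_lit 393298) (nat_lit 27) (.e (nat_lit 491570) (nat_lit 13) (.e (nat_lit 393238) (nat_lit 17) (.e (nat_lit 7559) (nat_lit 402) .nil))))) (.g (nat_lit 4) .nil .nil))) 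
(.lf (nat_lit 71035) (.g (nat_lit 2439) (.e (nat_lit 1661) (nat_lit 115) (.e (nat_lit 393225) (nat_lit 9) (.e (nat_lit 336088) (nat_lit 9) (.e (nat_lit 336019) (nat_lit 3) (.e (nat_lit 98333) (nat_lit 18) (.e (nat_lit 164151) (nat_lit 152) (.e (nat_lit 1062) (nat_lit 81) .nil))))))) (.g (nat_lit 4) .nil .nil))))))) (.nd (nat_lit 3) (.nd (nat_lit 4) (.nd (nat_lit 5) (.nd (nat_lit 6) 
(.lf (nat_lit 70919) (.g (nat_lit 960) (.e (nat_lit 1660) (nat_lit 115) (.e (nat_lit 393287) (nat_lit 25) (.e (nat_lit 458775) (nat_lit 18) (.e (nat_lit 5547) (nat_lit 306) (.e (nat_lit 2638) (nat_lit 165) .nil))))) .nil)) 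
(.lf (nat_lit 70983) (.g (nat_lit 944) (.e (nat_lit 1660) (nat_lit 115) (.e (nat_lit 393299) (nat_lit 27) (.e (nat_lit 491547) (nat_lit 9) .nil))) .nil))) (.nd (nat_lit 6) 
(.lf (nat_lit 70951) (.g (nat_lit 2464) (.e (nat_lit 1660) (nat_lit 115) (.e (nat_lit 393294) (nat_lit 26) (.e (nat_lit 475211) (nat_lit 41) (.e (nat_lit 712749) (nat_lit 28) (.e (nat_lit 434180) (nat_lit 0) .nil))))) (.g (nat_lit 5) .nil .nil))) 
(.lf (nat_lit 71015) (.g (nat_lit 3198) (.e (nat_lit 1661) (nat_lit 115) (.e (nat_lit 393225) (nat_lit 9) (.e (nat_lit 335995) (nat_lit 1) (.e (nat_lit 57848) (nat_lit 252) (.e (nat_lit 57372) (nat_lit 2) (.e (nat_lit 90155) (nat_lit 10) (.e (nat_lit 8568) (nat_lit 250) .nil))))))) (.g (nat_lit 5) .nil .nil))))) (.nd (nat_lit 5) (.nd (nat_lit 6) 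
(.lf (nat_lit 70935) (.g (nat_lit 1141) (.e (nat_lit 1660) (nat_lit 115) (.e (nat_lit 393291) (nat_lit 26) (.e (nat_lit 475210) (nat_lit 41) (.e (nat_lit 712749) (nat_lit 28) .nil)))) .nil)) 
(.lf (nat_lit 70999) (.g (nat_lit 1317) (.e (nat_lit 1661) (nat_lit 115) (.e (nat_lit 393225) (nat_lit 9) (.e (nat_lit 335988) (nat_lit 1) (.e (nat_lit 57854) (nat_lit 252) .nil)))) .nil))) (.nd (nat_lit 6) 
(.lf (nat_lit 70967) (.g (nat_lit 413) (.e (nat_lit 1660) (nat_lit 115) (.e (nat_lit 393298) (nat_lit 27) (.e (nat_lit 491570) (nat_lit 13) .nil))) .nil)) 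
(.lf (nat_lit 71031) (.g (nat_lit 3663) (.e (nat_lit 1661) (nat_lit 115) (.e (nat_lit 393225) (nat_lit 9) (.e (nat_lit 335996) (nat_lit 1) (.e (nat_lit 57854) (nat_lit 252) (.e (nat_lit 57378) (nat_lit 3) (.e (nat_lit 98309) (nat_lit 0) (.e (nat_lit 6466) (nat_lit 343) .nil))))))) (.g (nat_lit 5) .nil .nil)))))) (.nd (nat_lit 4) (.nd (nat_lit 5) (.nd (nat_lit 6) 
(.lf (nat_lit 70927) (.g (nat_lit 664) (.e (nat_lit 1660) (nat_lit 115) (.e (nat_lit 393291) (nat_lit 26) (.e (nat_lit 475196) (nat_lit 40) .nil))) .nil)) 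
(.lf (nat_lit 70991) (.g (nat_lit 1921) (.e (nat_lit 1660) (nat_lit 115) (.e (nat_lit 393299) (nat_lit 27) (.e (nat_lit 491570) (nat_lit 13) (.e (nat_lit 393239) (nat_lit 17) .nil)))) .nil))) (.nd (nat_lit 6) 
(.lf (nat_lit 70959) (.g (nat_lit 2719) (.e (nat_lit 1660) (nat_lit 115) (.e (nat_lit 393297) (nat_lit 27) (.e (nat_lit 491571) (nat_lit 13) (.e (nat_lit 393238) (nat_lit 17) (.e (nat_lit 7521) (nat_lit 402) .nil))))) .nil)) 
(.lf (nat_lit 71023) (.g (nat_lit 3996) (.e (nat_lit 1661) (nat_lit 115) (.e (nat_lit 393225) (nat_lit 9) (.e (nat_lit 335996) (nat_lit 1) (.e (nat_lit 57851) (nat_lit 252) (.e (nat_lit 57371) (nat_lit 2) (.e (nat_lit 90155) (nat_lit 10) (.e (nat_lit 8567) (nat_lit 250) .nil))))))) (.g (nat_lit 0) .nil .nil))))) (.nd (nat_lit 5) (.nd (nat_lit 6) 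
(.lf (nat_lit 70943) (.g (nat_lit 873) (.e (nat_lit 1660) (nat_lit 115) (.e (nat_lit 393294) (nat_lit 26) (.e (nat_lit 475207) (nat_lit 41) .nil))) .nil)) 
(.lf (nat_lit 71007) (.g (nat_lit 2857) (.e (nat_lit 1661) (nat_lit 115) (.e (nat_lit 393225) (nat_lit 9) (.e (nat_lit 335995) (nat_lit 1) (.e (nat_lit 57847) (nat_lit 252) (.e (nat_lit 57379) (nat_lit 3) (.e (nat_lit 98305) (nat_lit 0) (.e (nat_lit 6466) (nat_lit 343) .nil))))))) (.g (nat_lit 4) .nil .nil)))) (.nd (nat_lit 6) 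
(.lf (nat_lit 70975) (.g (nat_lit 1506) (.e (nat_lit 1660) (nat_lit 115) (.e (nat_lit 393298) (nat_lit 27) (.e (nat_lit 491571) (nat_lit 13) (.e (nat_lit 393235) (nat_lit 17) .nil)))) .nil)) 
(.lf (nat_lit 71039) (.g (nat_lit 3048) (.e (nat_lit 1661) (nat_lit 115) (.e (nat_lit 393225) (nat_lit 9) (.e (nat_lit 336184) (nat_lit 11) (.e (nat_lit 368676) (nat_lit 21) (.e (nat_lit 516115) (nat_lit 1) (.e (nat_lit 164151) (nat_lit 152) (.e (nat_lit 1056) (nat_lit 81) .nil))))))) (.g (nat_lit 6) .nil .nil))))))))))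

noncomputable def tv970 : DT := (.nd (nat_lit 0) (.nd (nat_lit 1) (.nd (nat_lit 2) (.nd (nat_lit 3) (.nd (nat_lit 4) (.nd (nat_lit 5) 
(.lf (nat_lit 71040) (.g (nat_lit 3060) (.e (nat_lit 1661) (nat_lit 115) (.e (nat_lit 393225) (nat_lit 9) (.e (nat_lit 336184) (nat_lit 11) (.e (nat_lit 368676) (nat_lit 21) (.e (nat_lit 516115) (nat_lit 1) (.e (nat_lit 164151) (nat_lit 152) (.e (nat_lit 1089) (nat_lit 81) .nil))))))) (.g (nat_lit 6) .nil .nil))) 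
(.lf (nat_lit 71072) (.g (nat_lit 1457) (.e (nat_lit 1661) (nat_lit 115) (.e (nat_lit 401152) (nat_lit 11) (.e (nat_lit 352312) (nat_lit 22) (.e (nat_lit 90165) (nat_lit 12) (.e (nat_lit 164016) (nat_lit 44) (.e (nat_lit 688161) (nat_lit 13) .nil)))))) (.g (nat_lit 4) .nil .nil)))) (.nd (nat_lit 5) 
(.lf (nat_lit 71056) (.g (nat_lit 3576) (.e (nat_lit 1661) (nat_lit 115) (.e (nat_lit 393228) (nat_lit 9) (.e (nat_lit 336088) (nat_lit 9) (.e (nat_lit 336019) (nat_lit 3) (.e (nat_lit 98333) (nat_lit 18) (.e (nat_lit 164151) (nat_lit 152) (.e (nat_lit 1056) (nat_lit 81) .nil))))))) (.g (nat_lit 6) .nil .nil))) 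
(.lf (nat_lit 71088) (.g (nat_lit 2917) (.e (nat_lit 1661) (nat_lit 115) (.e (nat_lit 401152) (nat_lit 12) (.e (nat_lit 360475) (nat_lit 8) (.e (nat_lit 557090) (nat_lit 12) (.e (nat_lit 163844) (nat_lit 0) (.e (nat_lit 5123) (nat_lit 292) (.e (nat_lit 1082) (nat_lit 81) .nil))))))) (.g (nat_lit 5) .nil .nil))))) (.nd (nat_lit 4) (.nd (nat_lit 5) 
(.lf (nat_lit 71048) (.g (nat_lit 3707) (.e (nat_lit 1661) (nat_lit 115) (.e (nat_lit 393225) (nat_lit 9) (.e (nat_lit 336204) (nat_lit 12) (.e (nat_lit 385074) (nat_lit 31) (.e (nat_lit 573473) (nat_lit 12) (.e (nat_lit 57521) (nat_lit 44) (.e (nat_lit 688161) (nat_lit 13) .nil))))))) (.g (nat_lit 5) .nil .nil))) 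
(.lf (nat_lit 71080) (.g (nat_lit 1374) (.e (nat_lit 1661) (nat_lit 115) (.e (nat_lit 401152) (nat_lit 12) (.e (nat_lit 360466) (nat_lit 3) (.e (nat_lit 516117) (nat_lit 1) (.e (nat_lit 164157) (nat_lit 152) (.e (nat_lit 1068) (nat_lit 81) .nil)))))) (.g (nat_lit 4) .nil .nil)))) (.nd (nat_lit 5) 
(.lf (nat_lit 71064) (.g (nat_lit 2651) (.e (nat_lit 1661) (nat_lit 115) (.e (nat_lit 393229) (nat_lit 9) (.e (nat_lit 336087) (nat_lit 9) (.e (nat_lit 336019) (nat_lit 3) (.e (nat_lit 98333) (nat_lit 18) (.e (nat_lit 164151) (nat_lit 152) (.e (nat_lit 1102) (nat_lit 81) .nil))))))) (.g (nat_lit 4) .nil .nil))) 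
(.lf (nat_lit 71096) (.g (nat_lit 2607) (.e (nat_lit 1661) (nat_lit 115) (.e (nat_lit 393231) (nat_lit 17) (.e (nat_lit 7581) (nat_lit 405) (.e (nat_lit 57479) (nat_lit 28) (.e (nat_lit 557105) (nat_lit 14) (.e (nat_lit 180265) (nat_lit 21) (.e (nat_lit 663561) (nat_lit 0) .nil))))))) (.g (nat_lit 4) .nil .nil)))))) (.nd (nat_lit 3) (.nd (nat_lit 4) (.nd (nat_lit 5) 
(.lf (nat_lit 71044) (.g (nat_lit 3165) (.e (nat_lit 1661) (nat_lit 115) (.e (nat_lit 393225) (nat_lit 9) (.e (nat_lit 336186) (nat_lit 11) (.e (nat_lit 368676) (nat_lit 21) (.e (nat_lit 516115) (nat_lit 1) (.e (nat_lit 164151) (nat_lit 152) (.e (nat_lit 1056) (nat_lit 81) .nil))))))) (.g (nat_lit 6) .nil .nil))) 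
(.lf (nat_lit 71076) (.g (nat_lit 1272) (.e (nat_lit 1661) (nat_lit 115) (.e (nat_lit 401152) (nat_lit 11) (.e (nat_lit 352313) (nat_lit 23) (.e (nat_lit 98334) (nat_lit 18) (.e (nat_lit 164164) (nat_lit 152) (.e (nat_lit 1086) (nat_lit 81) .nil)))))) (.g (nat_lit 4) .nil .nil)))) (.nd (nat_lit 5) 
(.lf (nat_lit 71060) (.g (nat_lit 2005) (.e (nat_lit 1661) (nat_lit 115) (.e (nat_lit 393228) (nat_lit 9) (.e (nat_lit 336186) (nat_lit 11) (.e (nat_lit 368676) (nat_lit 21) (.e (nat_lit 516115) (nat_lit 1) (.e (nat_lit 164151) (nat_lit 152) (.e (nat_lit 1089) (nat_lit 81) .nil))))))) (.g (nat_lit 4) .nil .nil))) 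
(.lf (nat_lit 71092) (.g (nat_lit 1714) (.e (nat_lit 1661) (nat_lit 115) (.e (nat_lit 401152) (nat_lit 14) (.e (nat_lit 376865) (nat_lit 22) (.e (nat_lit 90164) (nat_lit 12) (.e (nat_lit 164017) (nat_lit 44) (.e (nat_lit 688161) (nat_lit 13) .nil)))))) (.g (nat_lit 5) .nil .nil))))) (.nd (nat_lit 4) (.nd (nat_lit 5) 
(.lf (nat_lit 71052) (.g (nat_lit 2960) (.e (nat_lit 1661) (nat_lit 115) (.e (nat_lit 393225) (nat_lit 9) (.e (nat_lit 336204) (nat_lit 12) (.e (nat_lit 385074) (nat_lit 31) (.e (nat_lit 573475) (nat_lit 12) (.e (nat_lit 57521) (nat_lit 44) (.e (nat_lit 688161) (nat_lit 13) .nil))))))) (.g (nat_lit 4) .nil .nil))) 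
(.lf (nat_lit 71084) (.g (nat_lit 2078) (.e (nat_lit 1661) (nat_lit 115) (.e (nat_lit 401152) (nat_lit 12) (.e (nat_lit 360467) (nat_lit 3) (.e (nat_lit 516115) (nat_lit 1) (.e (nat_lit 164151) (nat_lit 152) (.e (nat_lit 1056) (nat_lit 81) .nil)))))) (.g (nat_lit 5) .nil .nil)))) (.nd (nat_lit 5) 
(.lf (nat_lit 71068) (.g (nat_lit 2741) (.e (nat_lit 1661) (nat_lit 115) (.e (nat_lit 393229) (nat_lit 9) (.e (nat_lit 336184) (nat_lit 11) (.e (nat_lit 368676) (nat_lit 21) (.e (nat_lit 516115) (nat_lit 1) (.e (nat_lit 164151) (nat_lit 152) (.e (nat_lit 1056) (nat_lit 81) .nil))))))) (.g (nat_lit 5) .nil .nil))) 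
(.lf (nat_lit 71100) (.g (nat_lit 3286) (.e (nat_lit 1661) (nat_lit 115) (.e (nat_lit 393232) (nat_lit 17) (.e (nat_lit 7581) (nat_lit 405) (.e (nat_lit 57479) (nat_lit 28) (.e (nat_lit 557105) (nat_lit 14) (.e (nat_lit 180265) (nat_lit 21) (.e (nat_lit 663561) (nat_lit 0) .nil))))))) (.g (nat_lit 5) .nil .nil))))))) (.nd (nat_lit 2) (.nd (nat_lit 3) (.nd (nat_lit 4) (.nd (nat_lit 5) 
(.lf (nat_lit 71042) (.g (nat_lit 647) (.e (nat_lit 1661) (nat_lit 115) (.e (nat_lit 393225) (nat_lit 9) (.e (nat_lit 336186) (nat_lit 11) .nil))) .nil)) 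
(.lf (nat_lit 71074) (.g (nat_lit 1045) (.e (nat_lit 1661) (nat_lit 115) (.e (nat_lit 401152) (nat_lit 11) (.e (nat_lit 352313) (nat_lit 23) (.e (nat_lit 98321) (nat_lit 17) (.e (nat_lit 3458) (nat_lit 216) (.e (nat_lit 688161) (nat_lit 13) .nil)))))) (.g (nat_lit 4) .nil .nil)))) (.nd (nat_lit 5) 
(.lf (nat_lit 71058) (.g (nat_lit 2589) (.e (nat_lit 1661) (nat_lit 115) (.e (nat_lit 393228) (nat_lit 9) (.e (nat_lit 336088) (nat_lit 9) (.e (nat_lit 336019) (nat_lit 3) (.e (nat_lit 98333) (nat_lit 18) (.e (nat_lit 164151) (nat_lit 152) (.e (nat_lit 1102) (nat_lit 81) .nil))))))) (.g (nat_lit 4) .nil .nil))) 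
(.lf (nat_lit 71090) (.g (nat_lit 2868) (.e (nat_lit 1661) (nat_lit 115) (.e (nat_lit 401152) (nat_lit 12) (.e (nat_lit 360475) (nat_lit 8) (.e (nat_lit 557090) (nat_lit 12) (.e (nat_lit 163844) (nat_lit 0) (.e (nat_lit 5172) (nat_lit 292) (.e (nat_lit 1057) (nat_lit 81) .nil))))))) (.g (nat_lit 5) .nil .nil))))) (.nd (nat_lit 4) (.nd (nat_lit 5) 
(.lf (nat_lit 71050) (.g (nat_lit 3563) (.e (nat_lit 1661) (nat_lit 115) (.e (nat_lit 393225) (nat_lit 9) (.e (nat_lit 336204) (nat_lit 12) (.e (nat_lit 385074) (nat_lit 31) (.e (nat_lit 573475) (nat_lit 12) (.e (nat_lit 57520) (nat_lit 44) (.e (nat_lit 688161) (nat_lit 13) .nil))))))) (.g (nat_lit 5) .nil .nil))) 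
(.lf (nat_lit 71082) (.g (nat_lit 1664) (.e (nat_lit 1661) (nat_lit 115) (.e (nat_lit 401152) (nat_lit 12) (.e (nat_lit 360466) (nat_lit 3) (.e (nat_lit 516120) (nat_lit 1) (.e (nat_lit 164158) (nat_lit 152) (.e (nat_lit 1068) (nat_lit 81) .nil)))))) (.g (nat_lit 4) .nil .nil)))) (.nd (nat_lit 5) 
(.lf (nat_lit 71066) (.g (nat_lit 3831) (.e (nat_lit 1661) (nat_lit 115) (.e (nat_lit 393229) (nat_lit 9) (.e (nat_lit 336088) (nat_lit 9) (.e (nat_lit 336019) (nat_lit 3) (.e (nat_lit 98333) (nat_lit 18) (.e (nat_lit 164151) (nat_lit 152) (.e (nat_lit 1056) (nat_lit 81) .nil))))))) (.g (nat_lit 5) .nil .nil))) 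
(.lf (nat_lit 71098) (.g (nat_lit 458) (.e (nat_lit 1661) (nat_lit 115) (.e (nat_lit 393232) (nat_lit 17) (.e (nat_lit 7513) (nat_lit 402) .nil))) .nil))))) (.nd (nat_lit 3) (.nd (nat_lit 4) (.nd (nat_lit 5) 
(.lf (nat_lit 71046) (.g (nat_lit 2467) (.e (nat_lit 1661) (nat_lit 115) (.e (nat_lit 393225) (nat_lit 9) (.e (nat_lit 336186) (nat_lit 11) (.e (nat_lit 368676) (nat_lit 21) (.e (nat_lit 516115) (nat_lit 1) (.e (nat_lit 164151) (nat_lit 152) (.e (nat_lit 1102) (nat_lit 81) .nil))))))) (.g (nat_lit 4) .nil .nil))) 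
(.lf (nat_lit 71078) (.g (nat_lit 1829) (.e (nat_lit 1661) (nat_lit 115) (.e (nat_lit 401152) (nat_lit 11) (.e (nat_lit 352315) (nat_lit 23) (.e (nat_lit 98325) (nat_lit 17) (.e (nat_lit 3459) (nat_lit 216) (.e (nat_lit 688161) (nat_lit 13) .nil)))))) (.g (nat_lit 5) .nil .nil)))) (.nd (nat_lit 5) 
(.lf (nat_lit 71062) (.g (nat_lit 1489) (.e (nat_lit 1661) (nat_lit 115) (.e (nat_lit 393229) (nat_lit 9) (.e (nat_lit 336087) (nat_lit 9) (.e (nat_lit 336019) (nat_lit 3) .nil)))) .nil)) 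
(.lf (nat_lit 71094) (.g (nat_lit 2239) (.e (nat_lit 1661) (nat_lit 115) (.e (nat_lit 401152) (nat_lit 14) (.e (nat_lit 376869) (nat_lit 23) (.e (nat_lit 98333) (nat_lit 18) (.e (nat_lit 164151) (nat_lit 152) (.e (nat_lit 1056) (nat_lit 81) .nil)))))) (.g (nat_lit 5) .nil .nil))))) (.nd (nat_lit 4) (.nd (nat_lit 5) 
(.lf (nat_lit 71054) (.g (nat_lit 1853) (.e (nat_lit 1661) (nat_lit 115) (.e (nat_lit 393227) (nat_lit 9) (.e (nat_lit 336152) (nat_lit 9) (.e (nat_lit 336017) (nat_lit 3) (.e (nat_lit 98333) (nat_lit 18) (.e (nat_lit 164151) (nat_lit 152) (.e (nat_lit 1089) (nat_lit 81) .nil))))))) (.g (nat_lit 5) .nil .nil))) 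
(.lf (nat_lit 71086) (.g (nat_lit 3127) (.e (nat_lit 1661) (nat_lit 115) (.e (nat_lit 401152) (nat_lit 12) (.e (nat_lit 360475) (nat_lit 8) (.e (nat_lit 557090) (nat_lit 12) (.e (nat_lit 163844) (nat_lit 0) (.e (nat_lit 5117) (nat_lit 292) (.e (nat_lit 1083) (nat_lit 81) .nil))))))) (.g (nat_lit 5) .nil .nil)))) (.nd (nat_lit 5) 
(.lf (nat_lit 71070) (.g (nat_lit 3007) (.e (nat_lit 1661) (nat_lit 115) (.e (nat_lit 393229) (nat_lit 9) (.e (nat_lit 336186) (nat_lit 11) (.e (nat_lit 368676) (nat_lit 21) (.e (nat_lit 516115) (nat_lit 1) (.e (nat_lit 164151) (nat_lit 152) (.e (nat_lit 1089) (nat_lit 81) .nil))))))) (.g (nat_lit 6) .nil .nil))) 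
(.lf (nat_lit 71102) (.g (nat_lit 2850) (.e (nat_lit 1661) (nat_lit 115) (.e (nat_lit 393232) (nat_lit 17) (.e (nat_lit 7581) (nat_lit 405) (.e (nat_lit 57480) (nat_lit 28) (.e (nat_lit 557105) (nat_lit 14) (.e (nat_lit 180264) (nat_lit 21) (.e (nat_lit 663561) (nat_lit 0) .nil))))))) (.g (nat_lit 5) .nil .nil)))))))) 
(.nd (nat_lit 1) (.nd (nat_lit 2) (.nd (nat_lit 3) (.nd (nat_lit 4) (.nd (nat_lit 5) 
(.lf (nat_lit 71041) (.g (nat_lit 2350) (.e (nat_lit 1661) (nat_lit 115) (.e (nat_lit 393225) (nat_lit 9) (.e (nat_lit 336184) (nat_lit 11) (.e (nat_lit 368676) (nat_lit 21) (.e (nat_lit 516115) (nat_lit 1) (.e (nat_lit 164151) (nat_lit 152) (.e (nat_lit 1102) (nat_lit 81) .nil))))))) (.g (nat_lit 4) .nil .nil))) 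
(.lf (nat_lit 71073) (.g (nat_lit 921) (.e (nat_lit 1661) (nat_lit 115) (.e (nat_lit 401152) (nat_lit 11) (.e (nat_lit 352313) (nat_lit 23) (.e (nat_lit 98321) (nat_lit 17) (.e (nat_lit 3452) (nat_lit 216) (.e (nat_lit 688161) (nat_lit 13) .nil)))))) (.g (nat_lit 4) .nil .nil)))) (.nd (nat_lit 5) 
(.lf (nat_lit 71057) (.g (nat_lit 3740) (.e (nat_lit 1661) (nat_lit 115) (.e (nat_lit 393228) (nat_lit 9) (.e (nat_lit 336088) (nat_lit 9) (.e (nat_lit 336019) (nat_lit 3) (.e (nat_lit 98333) (nat_lit 18) (.e (nat_lit 164151) (nat_lit 152) (.e (nat_lit 1089) (nat_lit 81) .nil))))))) (.g (nat_lit 6) .nil .nil))) 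
(.lf (nat_lit 71089) (.g (nat_lit 2751) (.e (nat_lit 1661) (nat_lit 115) (.e (nat_lit 401152) (nat_lit 12) (.e (nat_lit 360475) (nat_lit 8) (.e (nat_lit 557090) (nat_lit 12) (.e (nat_lit 163844) (nat_lit 0) (.e (nat_lit 5125) (nat_lit 292) (.e (nat_lit 1057) (nat_lit 81) .nil))))))) (.g (nat_lit 5) .nil .nil))))) (.nd (nat_lit 4) (.nd (nat_lit 5) 
(.lf (nat_lit 71049) (.g (nat_lit 3538) (.e (nat_lit 1661) (nat_lit 115) (.e (nat_lit 393225) (nat_lit 9) (.e (nat_lit 336204) (nat_lit 12) (.e (nat_lit 385074) (nat_lit 31) (.e (nat_lit 573475) (nat_lit 12) (.e (nat_lit 57520) (nat_lit 44) (.e (nat_lit 688160) (nat_lit 13) .nil))))))) (.g (nat_lit 5) .nil .nil))) 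
(.lf (nat_lit 71081) (.g (nat_lit 1523) (.e (nat_lit 1661) (nat_lit 115) (.e (nat_lit 401152) (nat_lit 12) (.e (nat_lit 360466) (nat_lit 3) (.e (nat_lit 516117) (nat_lit 1) (.e (nat_lit 164166) (nat_lit 152) (.e (nat_lit 1082) (nat_lit 81) .nil)))))) (.g (nat_lit 4) .nil .nil)))) (.nd (nat_lit 5) 
(.lf (nat_lit 71065) (.g (nat_lit 1487) (.e (nat_lit 1661) (nat_lit 115) (.e (nat_lit 393229) (nat_lit 9) (.e (nat_lit 336088) (nat_lit 9) (.e (nat_lit 336019) (nat_lit 3) .nil)))) .nil)) 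
(.lf (nat_lit 71097) (.g (nat_lit 2886) (.e (nat_lit 1661) (nat_lit 115) (.e (nat_lit 393231) (nat_lit 17) (.e (nat_lit 7581) (nat_lit 405) (.e (nat_lit 57480) (nat_lit 28) (.e (nat_lit 557105) (nat_lit 14) (.e (nat_lit 180265) (nat_lit 21) (.e (nat_lit 663561) (nat_lit 0) .nil))))))) (.g (nat_lit 5) .nil .nil)))))) (.nd (nat_lit 3) (.nd (nat_lit 4) (.nd (nat_lit 5) 
(.lf (nat_lit 71045) (.g (nat_lit 3177) (.e (nat_lit 1661) (nat_lit 115) (.e (nat_lit 393225) (nat_lit 9) (.e (nat_lit 336186) (nat_lit 11) (.e (nat_lit 368676) (nat_lit 21) (.e (nat_lit 516115) (nat_lit 1) (.e (nat_lit 164151) (nat_lit 152) (.e (nat_lit 1089) (nat_lit 81) .nil))))))) (.g (nat_lit 6) .nil .nil))) 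
(.lf (nat_lit 71077) (.g (nat_lit 1792) (.e (nat_lit 1661) (nat_lit 115) (.e (nat_lit 401152) (nat_lit 11) (.e (nat_lit 352315) (nat_lit 23) (.e (nat_lit 98325) (nat_lit 17) (.e (nat_lit 2478) (nat_lit 157) (.e (nat_lit 6273) (nat_lit 337) (.e (nat_lit 1089) (nat_lit 81) .nil))))))) (.g (nat_lit 6) .nil .nil)))) (.nd (nat_lit 5) 
(.lf (nat_lit 71061) (.g (nat_lit 998) (.e (nat_lit 1661) (nat_lit 115) (.e (nat_lit 393229) (nat_lit 9) (.e (nat_lit 336086) (nat_lit 9) .nil))) .nil)) 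
(.lf (nat_lit 71093) (.g (nat_lit 2091) (.e (nat_lit 1661) (nat_lit 115) (.e (nat_lit 401152) (nat_lit 14) (.e (nat_lit 376867) (nat_lit 23) (.e (nat_lit 98333) (nat_lit 18) (.e (nat_lit 164151) (nat_lit 152) (.e (nat_lit 1089) (nat_lit 81) .nil)))))) (.g (nat_lit 5) .nil .nil))))) (.nd (nat_lit 4) (.nd (nat_lit 5) 
(.lf (nat_lit 71053) (.g (nat_lit 2439) (.e (nat_lit 1661) (nat_lit 115) (.e (nat_lit 393225) (nat_lit 9) (.e (nat_lit 336204) (nat_lit 12) (.e (nat_lit 385074) (nat_lit 31) (.e (nat_lit 573475) (nat_lit 12) (.e (nat_lit 57524) (nat_lit 45) (.e (nat_lit 696354) (nat_lit 13) .nil))))))) (.g (nat_lit 4) .nil .nil))) 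
(.lf (nat_lit 71085) (.g (nat_lit 2010) (.e (nat_lit 1661) (nat_lit 115) (.e (nat_lit 401152) (nat_lit 12) (.e (nat_lit 360467) (nat_lit 3) (.e (nat_lit 516115) (nat_lit 1) (.e (nat_lit 164151) (nat_lit 152) (.e (nat_lit 1089) (nat_lit 81) .nil)))))) (.g (nat_lit 5) .nil .nil)))) (.nd (nat_lit 5) 
(.lf (nat_lit 71069) (.g (nat_lit 2905) (.e (nat_lit 1661) (nat_lit 115) (.e (nat_lit 393229) (nat_lit 9) (.e (nat_lit 336186) (nat_lit 11) (.e (nat_lit 368676) (nat_lit 21) (.e (nat_lit 516115) (nat_lit 1) (.e (nat_lit 164151) (nat_lit 152) (.e (nat_lit 1056) (nat_lit 81) .nil))))))) (.g (nat_lit 5) .nil .nil))) 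
(.lf (nat_lit 71101) (.g (nat_lit 2259) (.e (nat_lit 1661) (nat_lit 115) (.e (nat_lit 393232) (nat_lit 17) (.e (nat_lit 7581) (nat_lit 405) (.e (nat_lit 57480) (nat_lit 28) (.e (nat_lit 557103) (nat_lit 14) (.e (nat_lit 180263) (nat_lit 21) (.e (nat_lit 663561) (nat_lit 0) .nil))))))) (.g (nat_lit 4) .nil .nil))))))) (.nd (nat_lit 2) (.nd (nat_lit 3) (.nd (nat_lit 4) (.nd (nat_lit 5) 
(.lf (nat_lit 71043) (.g (nat_lit 1580) (.e (nat_lit 1661) (nat_lit 115) (.e (nat_lit 393225) (nat_lit 9) (.e (nat_lit 336186) (nat_lit 11) (.e (nat_lit 368676) (nat_lit 21) (.e (nat_lit 516115) (nat_lit 1) .nil))))) .nil)) 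
(.lf (nat_lit 71075) (.g (nat_lit 1531) (.e (nat_lit 1661) (nat_lit 115) (.e (nat_lit 401152) (nat_lit 11) (.e (nat_lit 352313) (nat_lit 23) (.e (nat_lit 98334) (nat_lit 18) (.e (nat_lit 164161) (nat_lit 152) (.e (nat_lit 1068) (nat_lit 81) .nil)))))) (.g (nat_lit 4) .nil .nil)))) (.nd (nat_lit 5) 
(.lf (nat_lit 71059) (.g (nat_lit 1798) (.e (nat_lit 1661) (nat_lit 115) (.e (nat_lit 393228) (nat_lit 9) (.e (nat_lit 336186) (nat_lit 11) (.e (nat_lit 368676) (nat_lit 21) (.e (nat_lit 516115) (nat_lit 1) (.e (nat_lit 164151) (nat_lit 152) (.e (nat_lit 1056) (nat_lit 81) .nil))))))) (.g (nat_lit 4) .nil .nil))) 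
(.lf (nat_lit 71091) (.g (nat_lit 1807) (.e (nat_lit 1661) (nat_lit 115) (.e (nat_lit 401152) (nat_lit 14) (.e (nat_lit 376862) (nat_lit 22) (.e (nat_lit 90164) (nat_lit 12) (.e (nat_lit 164017) (nat_lit 44) (.e (nat_lit 688161) (nat_lit 13) .nil)))))) (.g (nat_lit 5) .nil .nil))))) (.nd (nat_lit 4) (.nd (nat_lit 5) 
(.lf (nat_lit 71051) (.g (nat_lit 2820) (.e (nat_lit 1661) (nat_lit 115) (.e (nat_lit 393225) (nat_lit 9) (.e (nat_lit 336204) (nat_lit 12) (.e (nat_lit 385074) (nat_lit 31) (.e (nat_lit 573475) (nat_lit 12) (.e (nat_lit 57521) (nat_lit 44) (.e (nat_lit 688160) (nat_lit 13) .nil))))))) (.g (nat_lit 4) .nil .nil))) 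
(.lf (nat_lit 71083) (.g (nat_lit 1461) (.e (nat_lit 1661) (nat_lit 115) (.e (nat_lit 401152) (nat_lit 12) (.e (nat_lit 360466) (nat_lit 3) (.e (nat_lit 516120) (nat_lit 1) (.e (nat_lit 164166) (nat_lit 152) (.e (nat_lit 1082) (nat_lit 81) .nil)))))) (.g (nat_lit 4) .nil .nil)))) (.nd (nat_lit 5) 
(.lf (nat_lit 71067) (.g (nat_lit 2844) (.e (nat_lit 1661) (nat_lit 115) (.e (nat_lit 393229) (nat_lit 9) (.e (nat_lit 336088) (nat_lit 9) (.e (nat_lit 336019) (nat_lit 3) (.e (nat_lit 98333) (nat_lit 18) (.e (nat_lit 164151) (nat_lit 152) (.e (nat_lit 1102) (nat_lit 81) .nil))))))) (.g (nat_lit 4) .nil .nil))) 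
(.lf (nat_lit 71099) (.g (nat_lit 2065) (.e (nat_lit 1661) (nat_lit 115) (.e (nat_lit 393232) (nat_lit 17) (.e (nat_lit 7513) (nat_lit 402) (.e (nat_lit 1427) (nat_lit 108) (.e (nat_lit 336421) (nat_lit 28) .nil))))) .nil))))) (.nd (nat_lit 3) (.nd (nat_lit 4) (.nd (nat_lit 5) 
(.lf (nat_lit 71047) (.g (nat_lit 3533) (.e (nat_lit 1661) (nat_lit 115) (.e (nat_lit 393225) (nat_lit 9) (.e (nat_lit 336204) (nat_lit 12) (.e (nat_lit 385074) (nat_lit 31) (.e (nat_lit 573473) (nat_lit 12) (.e (nat_lit 57521) (nat_lit 44) (.e (nat_lit 688160) (nat_lit 13) .nil))))))) (.g (nat_lit 5) .nil .nil))) 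
(.lf (nat_lit 71079) (.g (nat_lit 1927) (.e (nat_lit 1661) (nat_lit 115) (.e (nat_lit 401152) (nat_lit 11) (.e (nat_lit 352321) (nat_lit 25) (.e (nat_lit 139271) (nat_lit 0) (.e (nat_lit 1181) (nat_lit 87) (.e (nat_lit 57653) (nat_lit 152) (.e (nat_lit 1089) (nat_lit 81) .nil))))))) (.g (nat_lit 6) .nil .nil)))) (.nd (nat_lit 5) 
(.lf (nat_lit 71063) (.g (nat_lit 3638) (.e (nat_lit 1661) (nat_lit 115) (.e (nat_lit 393229) (nat_lit 9) (.e (nat_lit 336087) (nat_lit 9) (.e (nat_lit 336019) (nat_lit 3) (.e (nat_lit 98333) (nat_lit 18) (.e (nat_lit 164151) (nat_lit 152) (.e (nat_lit 1056) (nat_lit 81) .nil))))))) (.g (nat_lit 5) .nil .nil))) 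
(.lf (nat_lit 71095) (.g (nat_lit 2128) (.e (nat_lit 1661) (nat_lit 115) (.e (nat_lit 401152) (nat_lit 14) (.e (nat_lit 376869) (nat_lit 23) (.e (nat_lit 98333) (nat_lit 18) (.e (nat_lit 164151) (nat_lit 152) (.e (nat_lit 1089) (nat_lit 81) .nil)))))) (.g (nat_lit 5) .nil .nil))))) (.nd (nat_lit 4) (.nd (nat_lit 5) 
(.lf (nat_lit 71055) (.g (nat_lit 2579) (.e (nat_lit 1661) (nat_lit 115) (.e (nat_lit 393228) (nat_lit 9) (.e (nat_lit 336087) (nat_lit 9) (.e (nat_lit 336019) (nat_lit 3) (.e (nat_lit 98333) (nat_lit 18) (.e (nat_lit 164151) (nat_lit 152) (.e (nat_lit 1089) (nat_lit 81) .nil))))))) (.g (nat_lit 5) .nil .nil))) 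
(.lf (nat_lit 71087) (.g (nat_lit 3070) (.e (nat_lit 1661) (nat_lit 115) (.e (nat_lit 401152) (nat_lit 12) (.e (nat_lit 360475) (nat_lit 8) (.e (nat_lit 557090) (nat_lit 12) (.e (nat_lit 163844) (nat_lit 0) (.e (nat_lit 5120) (nat_lit 292) (.e (nat_lit 1057) (nat_lit 81) .nil))))))) (.g (nat_lit 5) .nil .nil)))) (.nd (nat_lit 5) 
(.lf (nat_lit 71071) (.g (nat_lit 1051) (.e (nat_lit 1661) (nat_lit 115) (.e (nat_lit 401152) (nat_lit 11) (.e (nat_lit 352310) (nat_lit 22) (.e (nat_lit 90165) (nat_lit 12) (.e (nat_lit 164016) (nat_lit 44) (.e (nat_lit 688161) (nat_lit 13) .nil)))))) (.g (nat_lit 5) .nil .nil))) 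
(.lf (nat_lit 71103) (.g (nat_lit 3573) (.e (nat_lit 1661) (nat_lit 115) (.e (nat_lit 393232) (nat_lit 17) (.e (nat_lit 7581) (nat_lit 405) (.e (nat_lit 57480) (nat_lit 28) (.e (nat_lit 557105) (nat_lit 14) (.e (nat_lit 180265) (nat_lit 21) (.e (nat_lit 663561) (nat_lit 0) .nil))))))) (.g (nat_lit 6) .nil .nil)))))))))

noncomputable def tv971 : DT := (.nd (nat_lit 0) (.nd (nat_lit 1) (.nd (nat_lit 2) (.nd (nat_lit 3) (.nd (nat_lit 4) (.nd (nat_lit 5) 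
(.lf (nat_lit 71104) (.g (nat_lit 2020) (.e (nat_lit 1661) (nat_lit 115) (.e (nat_lit 393235) (nat_lit 17) (.e (nat_lit 7936) (nat_lit 220) (.e (nat_lit 720954) (nat_lit 25) (.e (nat_lit 114714) (nat_lit 22) (.e (nat_lit 90165) (nat_lit 12) (.e (nat_lit 164238) (nat_lit 187) .nil))))))) (.g (nat_lit 6) .nil .nil))) 
(.lf (nat_lit 71136) (.g (nat_lit 1861) (.e (nat_lit 1661) (nat_lit 115) (.e (nat_lit 393242) (nat_lit 17) (.e (nat_lit 7008) (nat_lit 377) (.e (nat_lit 2788) (nat_lit 179) (.e (nat_lit 294973) (nat_lit 28) (.e (nat_lit 434181) (nat_lit 0) .nil)))))) (.g (nat_lit 0) .nil .nil)))) (.nd (nat_lit 5) 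
(.lf (nat_lit 71120) (.g (nat_lit 795) (.e (nat_lit 1661) (nat_lit 115) (.e (nat_lit 393238) (nat_lit 17) (.e (nat_lit 7537) (nat_lit 402) (.e (nat_lit 1661) (nat_lit 115) .nil)))) .nil)) 
(.lf (nat_lit 71152) (.g (nat_lit 2012) (.e (nat_lit 1661) (nat_lit 115) (.e (nat_lit 393242) (nat_lit 17) (.e (nat_lit 7556) (nat_lit 402) (.e (nat_lit 1661) (nat_lit 115) (.e (nat_lit 393242) (nat_lit 17) (.e (nat_lit 7556) (nat_lit 402) .nil)))))) (.g (nat_lit 0) .nil .nil))))) (.nd (nat_lit 4) (.nd (nat_lit 5) 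
(.lf (nat_lit 71112) (.g (nat_lit 2297) (.e (nat_lit 1661) (nat_lit 115) (.e (nat_lit 393238) (nat_lit 17) (.e (nat_lit 7101) (nat_lit 380) (.e (nat_lit 164368) (nat_lit 247) (.e (nat_lit 8541) (nat_lit 226) (.e (nat_lit 57890) (nat_lit 270) .nil)))))) (.g (nat_lit 4) .nil .nil))) 
(.lf (nat_lit 71144) (.g (nat_lit 1670) (.e (nat_lit 1661) (nat_lit 115) (.e (nat_lit 393242) (nat_lit 17) (.e (nat_lit 7112) (nat_lit 381) (.e (nat_lit 229647) (nat_lit 232) (.e (nat_lit 447) (nat_lit 33) (.e (nat_lit 434181) (nat_lit 0) .nil)))))) (.g (nat_lit 0) .nil .nil)))) (.nd (nat_lit 5) 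
(.lf (nat_lit 71128) (.g (nat_lit 1717) (.e (nat_lit 1661) (nat_lit 115) (.e (nat_lit 393238) (nat_lit 17) (.e (nat_lit 7936) (nat_lit 405) (.e (nat_lit 57478) (nat_lit 28) (.e (nat_lit 557105) (nat_lit 14) (.e (nat_lit 180265) (nat_lit 21) (.e (nat_lit 671488) (nat_lit 0) .nil))))))) (.g (nat_lit 4) .nil .nil))) 
(.lf (nat_lit 71160) (.g (nat_lit 2450) (.e (nat_lit 1661) (nat_lit 115) (.e (nat_lit 393251) (nat_lit 18) (.e (nat_lit 164300) (nat_lit 226) (.e (nat_lit 1059) (nat_lit 81) (.e (nat_lit 1661) (nat_lit 115) (.e (nat_lit 393251) (nat_lit 18) (.e (nat_lit 164300) (nat_lit 226) (.e (nat_lit 1059) (nat_lit 81) .nil)))))))) (.g (nat_lit 5) .nil .nil)))))) 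
(.nd (nat_lit 3) (.nd (nat_lit 4) (.nd (nat_lit 5) 
(.lf (nat_lit 71108) (.g (nat_lit 2627) (.e (nat_lit 1661) (nat_lit 115) (.e (nat_lit 393238) (nat_lit 17) (.e (nat_lit 6989) (nat_lit 377) (.e (nat_lit 2777) (nat_lit 178) (.e (nat_lit 286731) (nat_lit 1) (.e (nat_lit 57681) (nat_lit 155) (.e (nat_lit 122883) (nat_lit 0) (.e (nat_lit 6489) (nat_lit 343) .nil)))))))) (.g (nat_lit 4) .nil .nil))) 
(.lf (nat_lit 71140) (.g (nat_lit 1343) (.e (nat_lit 1661) (nat_lit 115) (.e (nat_lit 393242) (nat_lit 17) (.e (nat_lit 7095) (nat_lit 380) (.e (nat_lit 164340) (nat_lit 232) (.e (nat_lit 446) (nat_lit 33) (.e (nat_lit 434181) (nat_lit 0) .nil)))))) (.g (nat_lit 0) .nil .nil)))) (.nd (nat_lit 5) 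
(.lf (nat_lit 71124) (.g (nat_lit 2904) (.e (nat_lit 1661) (nat_lit 115) (.e (nat_lit 393238) (nat_lit 17) (.e (nat_lit 7537) (nat_lit 402) (.e (nat_lit 1661) (nat_lit 115) (.e (nat_lit 393242) (nat_lit 17) (.e (nat_lit 7554) (nat_lit 402) .nil)))))) (.g (nat_lit 5) .nil .nil))) 
(.lf (nat_lit 71156) (.g (nat_lit 3484) (.e (nat_lit 1661) (nat_lit 115) (.e (nat_lit 393251) (nat_lit 18) (.e (nat_lit 164182) (nat_lit 154) (.e (nat_lit 57420) (nat_lit 13) (.e (nat_lit 344132) (nat_lit 26) (.e (nat_lit 557093) (nat_lit 12) (.e (nat_lit 164239) (nat_lit 187) .nil))))))) (.g (nat_lit 6) .nil .nil))))) (.nd (nat_lit 4) (.nd (nat_lit 5) 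
(.lf (nat_lit 71116) (.g (nat_lit 2356) (.e (nat_lit 1661) (nat_lit 115) (.e (nat_lit 393238) (nat_lit 17) (.e (nat_lit 7107) (nat_lit 380) (.e (nat_lit 164339) (nat_lit 232) (.e (nat_lit 446) (nat_lit 33) (.e (nat_lit 442112) (nat_lit 0) .nil)))))) (.g (nat_lit 5) .nil .nil))) 
(.lf (nat_lit 71148) (.g (nat_lit 1918) (.e (nat_lit 1661) (nat_lit 115) (.e (nat_lit 393242) (nat_lit 17) (.e (nat_lit 7556) (nat_lit 402) (.e (nat_lit 1425) (nat_lit 108) (.e (nat_lit 336421) (nat_lit 28) (.e (nat_lit 434181) (nat_lit 0) .nil)))))) (.g (nat_lit 0) .nil .nil)))) (.nd (nat_lit 5) 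
(.lf (nat_lit 71132) (.g (nat_lit 1798) (.e (nat_lit 1661) (nat_lit 115) (.e (nat_lit 393242) (nat_lit 17) (.e (nat_lit 6986) (nat_lit 377) (.e (nat_lit 2781) (nat_lit 178) (.e (nat_lit 286770) (nat_lit 28) (.e (nat_lit 434181) (nat_lit 0) .nil)))))) (.g (nat_lit 0) .nil .nil))) 
(.lf (nat_lit 71164) (.g (nat_lit 2438) (.e (nat_lit 1661) (nat_lit 115) (.e (nat_lit 393251) (nat_lit 18) (.e (nat_lit 164300) (nat_lit 226) (.e (nat_lit 1059) (nat_lit 81) (.e (nat_lit 1661) (nat_lit 115) (.e (nat_lit 393252) (nat_lit 18) (.e (nat_lit 164307) (nat_lit 226) (.e (nat_lit 1059) (nat_lit 81) .nil)))))))) (.g (nat_lit 5) .nil .nil))))))) 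
(.nd (nat_lit 2) (.nd (nat_lit 3) (.nd (nat_lit 4) (.nd (nat_lit 5) 
(.lf (nat_lit 71106) (.g (nat_lit 414) (.e (nat_lit 1661) (nat_lit 115) (.e (nat_lit 393238) (nat_lit 17) (.e (nat_lit 6989) (nat_lit 377) .nil))) .nil)) 
(.lf (nat_lit 71138) (.g (nat_lit 1401) (.e (nat_lit 1661) (nat_lit 115) (.e (nat_lit 393242) (nat_lit 17) (.e (nat_lit 7095) (nat_lit 380) (.e (nat_lit 164337) (nat_lit 232) (.e (nat_lit 446) (nat_lit 33) (.e (nat_lit 434181) (nat_lit 0) .nil)))))) (.g (nat_lit 0) .nil .nil)))) (.nd (nat_lit 5) 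
(.lf (nat_lit 71122) (.g (nat_lit 2600) (.e (nat_lit 1661) (nat_lit 115) (.e (nat_lit 393238) (nat_lit 17) (.e (nat_lit 7537) (nat_lit 402) (.e (nat_lit 1661) (nat_lit 115) (.e (nat_lit 393238) (nat_lit 17) (.e (nat_lit 7555) (nat_lit 402) .nil)))))) (.g (nat_lit 4) .nil .nil))) 
(.lf (nat_lit 71154) (.g (nat_lit 1584) (.e (nat_lit 1661) (nat_lit 115) (.e (nat_lit 393251) (nat_lit 18) (.e (nat_lit 164177) (nat_lit 154) (.e (nat_lit 57421) (nat_lit 13) (.e (nat_lit 344131) (nat_lit 26) .nil))))) .nil)))) (.nd (nat_lit 4) (.nd (nat_lit 5) 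
(.lf (nat_lit 71114) (.g (nat_lit 2422) (.e (nat_lit 1661) (nat_lit 115) (.e (nat_lit 393238) (nat_lit 17) (.e (nat_lit 7107) (nat_lit 380) (.e (nat_lit 164337) (nat_lit 232) (.e (nat_lit 446) (nat_lit 33) (.e (nat_lit 442112) (nat_lit 0) .nil)))))) (.g (nat_lit 5) .nil .nil))) 
(.lf (nat_lit 71146) (.g (nat_lit 2098) (.e (nat_lit 1661) (nat_lit 115) (.e (nat_lit 393242) (nat_lit 17) (.e (nat_lit 7554) (nat_lit 402) (.e (nat_lit 1661) (nat_lit 115) (.e (nat_lit 393242) (nat_lit 17) (.e (nat_lit 7554) (nat_lit 402) .nil)))))) (.g (nat_lit 5) .nil .nil)))) (.nd (nat_lit 5) 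
(.lf (nat_lit 71130) (.g (nat_lit 2236) (.e (nat_lit 1661) (nat_lit 115) (.e (nat_lit 393242) (nat_lit 17) (.e (nat_lit 6986) (nat_lit 377) (.e (nat_lit 2777) (nat_lit 178) (.e (nat_lit 286770) (nat_lit 28) (.e (nat_lit 434181) (nat_lit 0) .nil)))))) (.g (nat_lit 0) .nil .nil))) 
(.lf (nat_lit 71162) (.g (nat_lit 2357) (.e (nat_lit 1661) (nat_lit 115) (.e (nat_lit 393251) (nat_lit 18) (.e (nat_lit 164300) (nat_lit 226) (.e (nat_lit 1059) (nat_lit 81) (.e (nat_lit 1661) (nat_lit 115) (.e (nat_lit 393252) (nat_lit 18) (.e (nat_lit 164305) (nat_lit 226) (.e (nat_lit 1058) (nat_lit 81) .nil)))))))) (.g (nat_lit 5) .nil .nil)))))) 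
(.nd (nat_lit 3) (.nd (nat_lit 4) (.nd (nat_lit 5) 
(.lf (nat_lit 71110) (.g (nat_lit 1916) (.e (nat_lit 1661) (nat_lit 115) (.e (nat_lit 393238) (nat_lit 17) (.e (nat_lit 7007) (nat_lit 377) (.e (nat_lit 2789) (nat_lit 179) (.e (nat_lit 294973) (nat_lit 28) (.e (nat_lit 434181) (nat_lit 0) .nil)))))) (.g (nat_lit 4) .nil .nil))) 
(.lf (nat_lit 71142) (.g (nat_lit 1628) (.e (nat_lit 1661) (nat_lit 115) (.e (nat_lit 393242) (nat_lit 17) (.e (nat_lit 7112) (nat_lit 381) (.e (nat_lit 229645) (nat_lit 232) (.e (nat_lit 447) (nat_lit 33) (.e (nat_lit 434181) (nat_lit 0) .nil)))))) (.g (nat_lit 0) .nil .nil)))) (.nd (nat_lit 5) 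
(.lf (nat_lit 71126) (.g (nat_lit 368) (.e (nat_lit 1661) (nat_lit 115) (.e (nat_lit 393238) (nat_lit 17) (.e (nat_lit 7555) (nat_lit 402) .nil))) .nil)) 
(.lf (nat_lit 71158) (.g (nat_lit 493) (.e (nat_lit 1661) (nat_lit 115) (.e (nat_lit 393251) (nat_lit 18) (.e (nat_lit 164190) (nat_lit 157) .nil))) .nil)))) (.nd (nat_lit 4) (.nd (nat_lit 5) 
(.lf (nat_lit 71118) (.g (nat_lit 2341) (.e (nat_lit 1661) (nat_lit 115) (.e (nat_lit 393238) (nat_lit 17) (.e (nat_lit 7521) (nat_lit 402) (.e (nat_lit 1427) (nat_lit 108) (.e (nat_lit 336421) (nat_lit 28) (.e (nat_lit 434180) (nat_lit 0) .nil)))))) (.g (nat_lit 4) .nil .nil))) 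
(.lf (nat_lit 71150) (.g (nat_lit 2742) (.e (nat_lit 1661) (nat_lit 115) (.e (nat_lit 393242) (nat_lit 17) (.e (nat_lit 7556) (nat_lit 402) (.e (nat_lit 1427) (nat_lit 108) (.e (nat_lit 336421) (nat_lit 28) (.e (nat_lit 434181) (nat_lit 0) .nil)))))) (.g (nat_lit 0) .nil .nil)))) (.nd (nat_lit 5) 
(.lf (nat_lit 71134) (.g (nat_lit 1724) (.e (nat_lit 1661) (nat_lit 115) (.e (nat_lit 393242) (nat_lit 17) (.e (nat_lit 7008) (nat_lit 377) (.e (nat_lit 2786) (nat_lit 179) (.e (nat_lit 294973) (nat_lit 28) (.e (nat_lit 434181) (nat_lit 0) .nil)))))) (.g (nat_lit 0) .nil .nil))) 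
(.lf (nat_lit 71166) (.g (nat_lit 3797) (.e (nat_lit 1661) (nat_lit 115) (.e (nat_lit 393251) (nat_lit 18) (.e (nat_lit 164325) (nat_lit 230) (.e (nat_lit 163861) (nat_lit 1) (.e (nat_lit 164332) (nat_lit 230) (.e (nat_lit 163885) (nat_lit 5) (.e (nat_lit 221207) (nat_lit 21) (.e (nat_lit 164220) (nat_lit 181) (.e (nat_lit 1083) (nat_lit 81) .nil))))))))) (.g (nat_lit 5) .nil .nil)))))))) 
(.nd (nat_lit 1) (.nd (nat_lit 2) (.nd (nat_lit 3) (.nd (nat_lit 4) (.nd (nat_lit 5) 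
(.lf (nat_lit 71105) (.g (nat_lit 440) (.e (nat_lit 1661) (nat_lit 115) (.e (nat_lit 393238) (nat_lit 17) (.e (nat_lit 6982) (nat_lit 377) .nil))) .nil)) 
(.lf (nat_lit 71137) (.g (nat_lit 2171) (.e (nat_lit 1661) (nat_lit 115) (.e (nat_lit 393242) (nat_lit 17) (.e (nat_lit 7008) (nat_lit 377) (.e (nat_lit 2789) (nat_lit 179) (.e (nat_lit 294973) (nat_lit 28) (.e (nat_lit 434181) (nat_lit 0) .nil)))))) (.g (nat_lit 0) .nil .nil)))) (.nd (nat_lit 5) 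
(.lf (nat_lit 71121) (.g (nat_lit 4540) (.e (nat_lit 1661) (nat_lit 115) (.e (nat_lit 393238) (nat_lit 17) (.e (nat_lit 7537) (nat_lit 402) (.e (nat_lit 1661) (nat_lit 115) (.e (nat_lit 393238) (nat_lit 17) (.e (nat_lit 7537) (nat_lit 402) .nil)))))) (.g (nat_lit 0) .nil .nil))) 
(.lf (nat_lit 71153) (.g (nat_lit 1427) (.e (nat_lit 1661) (nat_lit 115) (.e (nat_lit 393242) (nat_lit 17) (.e (nat_lit 7936) (nat_lit 405) (.e (nat_lit 57478) (nat_lit 28) (.e (nat_lit 557105) (nat_lit 14) (.e (nat_lit 180265) (nat_lit 21) (.e (nat_lit 671488) (nat_lit 0) .nil))))))) (.g (nat_lit 5) .nil .nil))))) (.nd (nat_lit 4) (.nd (nat_lit 5) 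
(.lf (nat_lit 71113) (.g (nat_lit 3241) (.e (nat_lit 1661) (nat_lit 115) (.e (nat_lit 393238) (nat_lit 17) (.e (nat_lit 7101) (nat_lit 380) (.e (nat_lit 164368) (nat_lit 247) (.e (nat_lit 8541) (nat_lit 226) (.e (nat_lit 57891) (nat_lit 270) .nil)))))) (.g (nat_lit 0) .nil .nil))) 
(.lf (nat_lit 71145) (.g (nat_lit 1581) (.e (nat_lit 1661) (nat_lit 115) (.e (nat_lit 393242) (nat_lit 17) (.e (nat_lit 7550) (nat_lit 402) (.e (nat_lit 1516) (nat_lit 108) (.e (nat_lit 336420) (nat_lit 28) (.e (nat_lit 434181) (nat_lit 0) .nil)))))) (.g (nat_lit 0) .nil .nil)))) (.nd (nat_lit 5) 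
(.lf (nat_lit 71129) (.g (nat_lit 2234) (.e (nat_lit 1661) (nat_lit 115) (.e (nat_lit 393238) (nat_lit 17) (.e (nat_lit 7595) (nat_lit 408) (.e (nat_lit 122936) (nat_lit 23) (.e (nat_lit 516131) (nat_lit 3) (.e (nat_lit 221219) (nat_lit 24) (.e (nat_lit 212992) (nat_lit 0) .nil))))))) (.g (nat_lit 5) .nil .nil))) 
(.lf (nat_lit 71161) (.g (nat_lit 2499) (.e (nat_lit 1661) (nat_lit 115) (.e (nat_lit 393251) (nat_lit 18) (.e (nat_lit 164300) (nat_lit 226) (.e (nat_lit 1059) (nat_lit 81) (.e (nat_lit 1661) (nat_lit 115) (.e (nat_lit 393252) (nat_lit 18) (.e (nat_lit 164305) (nat_lit 226) (.e (nat_lit 1057) (nat_lit 81) .nil)))))))) (.g (nat_lit 5) .nil .nil)))))) 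
(.nd (nat_lit 3) (.nd (nat_lit 4) (.nd (nat_lit 5) 
(.lf (nat_lit 71109) (.g (nat_lit 2541) (.e (nat_lit 1661) (nat_lit 115) (.e (nat_lit 393238) (nat_lit 17) (.e (nat_lit 6989) (nat_lit 377) (.e (nat_lit 2777) (nat_lit 178) (.e (nat_lit 294656) (nat_lit 28) (.e (nat_lit 434180) (nat_lit 0) .nil)))))) (.g (nat_lit 4) .nil .nil))) 
(.lf (nat_lit 71141) (.g (nat_lit 1623) (.e (nat_lit 1661) (nat_lit 115) (.e (nat_lit 393242) (nat_lit 17) (.e (nat_lit 7112) (nat_lit 381) (.e (nat_lit 229644) (nat_lit 232) (.e (nat_lit 447) (nat_lit 33) (.e (nat_lit 434181) (nat_lit 0) .nil)))))) (.g (nat_lit 0) .nil .nil)))) (.nd (nat_lit 5) 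
(.lf (nat_lit 71125) (.g (nat_lit 1751) (.e (nat_lit 1661) (nat_lit 115) (.e (nat_lit 393238) (nat_lit 17) (.e (nat_lit 7554) (nat_lit 402) (.e (nat_lit 1427) (nat_lit 108) (.e (nat_lit 336421) (nat_lit 28) .nil))))) .nil)) 
(.lf (nat_lit 71157) (.g (nat_lit 3372) (.e (nat_lit 1661) (nat_lit 115) (.e (nat_lit 393251) (nat_lit 18) (.e (nat_lit 164183) (nat_lit 154) (.e (nat_lit 57420) (nat_lit 13) (.e (nat_lit 344132) (nat_lit 26) (.e (nat_lit 557093) (nat_lit 12) (.e (nat_lit 164239) (nat_lit 187) .nil))))))) (.g (nat_lit 6) .nil .nil))))) (.nd (nat_lit 4) (.nd (nat_lit 5) 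
(.lf (nat_lit 71117) (.g (nat_lit 2011) (.e (nat_lit 1661) (nat_lit 115) (.e (nat_lit 393238) (nat_lit 17) (.e (nat_lit 7114) (nat_lit 381) (.e (nat_lit 229646) (nat_lit 232) (.e (nat_lit 447) (nat_lit 33) (.e (nat_lit 442112) (nat_lit 0) .nil)))))) (.g (nat_lit 5) .nil .nil))) 
(.lf (nat_lit 71149) (.g (nat_lit 2008) (.e (nat_lit 1661) (nat_lit 115) (.e (nat_lit 393242) (nat_lit 17) (.e (nat_lit 7556) (nat_lit 402) (.e (nat_lit 1426) (nat_lit 108) (.e (nat_lit 336421) (nat_lit 28) (.e (nat_lit 434181) (nat_lit 0) .nil)))))) (.g (nat_lit 0) .nil .nil)))) (.nd (nat_lit 5) 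
(.lf (nat_lit 71133) (.g (nat_lit 1638) (.e (nat_lit 1661) (nat_lit 115) (.e (nat_lit 393242) (nat_lit 17) (.e (nat_lit 6986) (nat_lit 377) (.e (nat_lit 2782) (nat_lit 178) (.e (nat_lit 286770) (nat_lit 28) (.e (nat_lit 434181) (nat_lit 0) .nil)))))) (.g (nat_lit 0) .nil .nil))) 
(.lf (nat_lit 71165) (.g (nat_lit 1990) (.e (nat_lit 1661) (nat_lit 115) (.e (nat_lit 393251) (nat_lit 18) (.e (nat_lit 164325) (nat_lit 230) (.e (nat_lit 163861) (nat_lit 1) (.e (nat_lit 164332) (nat_lit 230) .nil))))) .nil)))))) (.nd (nat_lit 2) (.nd (nat_lit 3) (.nd (nat_lit 4) (.nd (nat_lit 5) 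
(.lf (nat_lit 71107) (.g (nat_lit 1003) (.e (nat_lit 1661) (nat_lit 115) (.e (nat_lit 393238) (nat_lit 17) (.e (nat_lit 6989) (nat_lit 377) (.e (nat_lit 2777) (nat_lit 178) .nil)))) .nil)) 
(.lf (nat_lit 71139) (.g (nat_lit 1398) (.e (nat_lit 1661) (nat_lit 115) (.e (nat_lit 393242) (nat_lit 17) (.e (nat_lit 7095) (nat_lit 380) (.e (nat_lit 164339) (nat_lit 232) (.e (nat_lit 446) (nat_lit 33) (.e (nat_lit 434181) (nat_lit 0) .nil)))))) (.g (nat_lit 0) .nil .nil)))) (.nd (nat_lit 5) 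
(.lf (nat_lit 71123) (.g (nat_lit 1911) (.e (nat_lit 1661) (nat_lit 115) (.e (nat_lit 393238) (nat_lit 17) (.e (nat_lit 7537) (nat_lit 402) (.e (nat_lit 1661) (nat_lit 115) (.e (nat_lit 393238) (nat_lit 17) (.e (nat_lit 7936) (nat_lit 402) .nil)))))) (.g (nat_lit 4) .nil .nil))) 
(.lf (nat_lit 71155) (.g (nat_lit 4057) (.e (nat_lit 1661) (nat_lit 115) (.e (nat_lit 393251) (nat_lit 18) (.e (nat_lit 164179) (nat_lit 154) (.e (nat_lit 57421) (nat_lit 13) (.e (nat_lit 344132) (nat_lit 26) (.e (nat_lit 557093) (nat_lit 12) (.e (nat_lit 164239) (nat_lit 187) .nil))))))) (.g (nat_lit 7) .nil .nil))))) (.nd (nat_lit 4) (.nd (nat_lit 5) 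
(.lf (nat_lit 71115) (.g (nat_lit 2417) (.e (nat_lit 1661) (nat_lit 115) (.e (nat_lit 393238) (nat_lit 17) (.e (nat_lit 7107) (nat_lit 380) (.e (nat_lit 164338) (nat_lit 232) (.e (nat_lit 446) (nat_lit 33) (.e (nat_lit 442112) (nat_lit 0) .nil)))))) (.g (nat_lit 4) .nil .nil))) 
(.lf (nat_lit 71147) (.g (nat_lit 2057) (.e (nat_lit 1661) (nat_lit 115) (.e (nat_lit 393242) (nat_lit 17) (.e (nat_lit 7554) (nat_lit 402) (.e (nat_lit 1661) (nat_lit 115) (.e (nat_lit 393242) (nat_lit 17) (.e (nat_lit 7556) (nat_lit 402) .nil)))))) (.g (nat_lit 6) .nil .nil)))) (.nd (nat_lit 5) 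
(.lf (nat_lit 71131) (.g (nat_lit 1766) (.e (nat_lit 1661) (nat_lit 115) (.e (nat_lit 393242) (nat_lit 17) (.e (nat_lit 6986) (nat_lit 377) (.e (nat_lit 2779) (nat_lit 178) (.e (nat_lit 286770) (nat_lit 28) (.e (nat_lit 434181) (nat_lit 0) .nil)))))) (.g (nat_lit 0) .nil .nil))) 
(.lf (nat_lit 71163) (.g (nat_lit 2442) (.e (nat_lit 1661) (nat_lit 115) (.e (nat_lit 393251) (nat_lit 18) (.e (nat_lit 164300) (nat_lit 226) (.e (nat_lit 1059) (nat_lit 81) (.e (nat_lit 1661) (nat_lit 115) (.e (nat_lit 393252) (nat_lit 18) (.e (nat_lit 164307) (nat_lit 226) (.e (nat_lit 1057) (nat_lit 81) .nil)))))))) (.g (nat_lit 5) .nil .nil)))))) 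
(.nd (nat_lit 3) (.nd (nat_lit 4) (.nd (nat_lit 5) 
(.lf (nat_lit 71111) (.g (nat_lit 250) (.e (nat_lit 1661) (nat_lit 115) (.e (nat_lit 393238) (nat_lit 17) (.e (nat_lit 7101) (nat_lit 380) .nil))) .nil)) 
(.lf (nat_lit 71143) (.g (nat_lit 1680) (.e (nat_lit 1661) (nat_lit 115) (.e (nat_lit 393242) (nat_lit 17) (.e (nat_lit 7112) (nat_lit 381) (.e (nat_lit 229646) (nat_lit 232) (.e (nat_lit 447) (nat_lit 33) (.e (nat_lit 434181) (nat_lit 0) .nil)))))) (.g (nat_lit 0) .nil .nil)))) (.nd (nat_lit 5) 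
(.lf (nat_lit 71127) (.g (nat_lit 2627) (.e (nat_lit 1661) (nat_lit 115) (.e (nat_lit 393238) (nat_lit 17) (.e (nat_lit 7936) (nat_lit 405) (.e (nat_lit 57478) (nat_lit 28) (.e (nat_lit 557105) (nat_lit 14) (.e (nat_lit 180265) (nat_lit 21) (.e (nat_lit 663561) (nat_lit 0) .nil))))))) (.g (nat_lit 5) .nil .nil))) 
(.lf (nat_lit 71159) (.g (nat_lit 2180) (.e (nat_lit 1661) (nat_lit 115) (.e (nat_lit 393251) (nat_lit 18) (.e (nat_lit 164190) (nat_lit 157) (.e (nat_lit 229409) (nat_lit 13) (.e (nat_lit 434232) (nat_lit 23) (.e (nat_lit 532504) (nat_lit 1) (.e (nat_lit 57730) (nat_lit 181) (.e (nat_lit 1082) (nat_lit 81) .nil)))))))) (.g (nat_lit 4) .nil .nil))))) (.nd (nat_lit 4) (.nd (nat_lit 5) 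
(.lf (nat_lit 71119) (.g (nat_lit 2113) (.e (nat_lit 1661) (nat_lit 115) (.e (nat_lit 393238) (nat_lit 17) (.e (nat_lit 7521) (nat_lit 402) (.e (nat_lit 1427) (nat_lit 108) (.e (nat_lit 336421) (nat_lit 28) (.e (nat_lit 434181) (nat_lit 0) .nil)))))) (.g (nat_lit 4) .nil .nil))) 
(.lf (nat_lit 71151) (.g (nat_lit 2578) (.e (nat_lit 1661) (nat_lit 115) (.e (nat_lit 393242) (nat_lit 17) (.e (nat_lit 7556) (nat_lit 402) (.e (nat_lit 1428) (nat_lit 108) (.e (nat_lit 336421) (nat_lit 28) (.e (nat_lit 434181) (nat_lit 0) .nil)))))) (.g (nat_lit 0) .nil .nil)))) (.nd (nat_lit 5) 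
(.lf (nat_lit 71135) (.g (nat_lit 1766) (.e (nat_lit 1661) (nat_lit 115) (.e (nat_lit 393242) (nat_lit 17) (.e (nat_lit 7008) (nat_lit 377) (.e (nat_lit 2787) (nat_lit 179) (.e (nat_lit 294973) (nat_lit 28) (.e (nat_lit 434181) (nat_lit 0) .nil)))))) (.g (nat_lit 0) .nil .nil))) 
(.lf (nat_lit 71167) (.g (nat_lit 3437) (.e (nat_lit 1661) (nat_lit 115) (.e (nat_lit 393251) (nat_lit 18) (.e (nat_lit 164325) (nat_lit 230) (.e (nat_lit 163861) (nat_lit 1) (.e (nat_lit 164332) (nat_lit 230) (.e (nat_lit 163885) (nat_lit 5) (.e (nat_lit 221207) (nat_lit 21) (.e (nat_lit 164221) (nat_lit 181) (.e (nat_lit 1083) (nat_lit 81) .nil))))))))) (.g (nat_lit 5) .nil .nil)))))))))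

noncomputable def tv972 : DT := (.nd (nat_lit 0) (.nd (nat_lit 1) (.nd (nat_lit 2) (.nd (nat_lit 3) (.nd (nat_lit 4) (.nd (nat_lit 5) 
(.lf (nat_lit 71168) (.g (nat_lit 3170) (.e (nat_lit 1661) (nat_lit 115) (.e (nat_lit 393251) (nat_lit 18) (.e (nat_lit 164325) (nat_lit 230) (.e (nat_lit 163861) (nat_lit 1) (.e (nat_lit 164332) (nat_lit 230) (.e (nat_lit 163885) (nat_lit 5) (.e (nat_lit 221208) (nat_lit 21) (.e (nat_lit 164220) (nat_lit 181) (.e (nat_lit 1083) (nat_lit 81) .nil))))))))) (.g (nat_lit 4) .nil .nil))) 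
(.lf (nat_lit 71200) (.g (nat_lit 2717) (.e (nat_lit 1661) (nat_lit 115) (.e (nat_lit 393252) (nat_lit 18) (.e (nat_lit 164305) (nat_lit 226) (.e (nat_lit 1101) (nat_lit 81) (.e (nat_lit 1661) (nat_lit 115) (.e (nat_lit 393252) (nat_lit 18) (.e (nat_lit 164305) (nat_lit 226) (.e (nat_lit 1057) (nat_lit 81) .nil)))))))) (.g (nat_lit 6) .nil .nil)))) (.nd (nat_lit 5) 
(.lf (nat_lit 71184) (.g (nat_lit 2280) (.e (nat_lit 1661) (nat_lit 115) (.e (nat_lit 393252) (nat_lit 18) (.e (nat_lit 164305) (nat_lit 226) (.e (nat_lit 1058) (nat_lit 81) (.e (nat_lit 1661) (nat_lit 115) (.e (nat_lit 393252) (nat_lit 18) (.e (nat_lit 164307) (nat_lit 226) (.e (nat_lit 1057) (nat_lit 81) .nil)))))))) (.g (nat_lit 5) .nil .nil))) 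
(.lf (nat_lit 71216) (.g (nat_lit 2090) (.e (nat_lit 1661) (nat_lit 115) (.e (nat_lit 393252) (nat_lit 18) (.e (nat_lit 164306) (nat_lit 226) (.e (nat_lit 1101) (nat_lit 81) (.e (nat_lit 1661) (nat_lit 115) (.e (nat_lit 393252) (nat_lit 18) (.e (nat_lit 164305) (nat_lit 226) (.e (nat_lit 1057) (nat_lit 81) .nil)))))))) (.g (nat_lit 5) .nil .nil))))) (.nd (nat_lit 4) (.nd (nat_lit 5) 
(.lf (nat_lit 71176) (.g (nat_lit 2244) (.e (nat_lit 1661) (nat_lit 115) (.e (nat_lit 393252) (nat_lit 18) (.e (nat_lit 164182) (nat_lit 154) (.e (nat_lit 57420) (nat_lit 13) (.e (nat_lit 344130) (nat_lit 26) (.e (nat_lit 557090) (nat_lit 12) (.e (nat_lit 164238) (nat_lit 187) .nil))))))) (.g (nat_lit 4) .nil .nil))) 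
(.lf (nat_lit 71208) (.g (nat_lit 2501) (.e (nat_lit 1661) (nat_lit 115) (.e (nat_lit 393252) (nat_lit 18) (.e (nat_lit 164305) (nat_lit 226) (.e (nat_lit 1101) (nat_lit 81) (.e (nat_lit 1661) (nat_lit 115) (.e (nat_lit 393252) (nat_lit 18) (.e (nat_lit 164307) (nat_lit 226) (.e (nat_lit 1101) (nat_lit 81) .nil)))))))) (.g (nat_lit 5) .nil .nil)))) (.nd (nat_lit 5) 
(.lf (nat_lit 71192) (.g (nat_lit 2218) (.e (nat_lit 1661) (nat_lit 115) (.e (nat_lit 393252) (nat_lit 18) (.e (nat_lit 164305) (nat_lit 226) (.e (nat_lit 1072) (nat_lit 81) (.e (nat_lit 1661) (nat_lit 115) (.e (nat_lit 393252) (nat_lit 18) (.e (nat_lit 164305) (nat_lit 226) (.e (nat_lit 1061) (nat_lit 81) .nil)))))))) (.g (nat_lit 5) .nil .nil))) 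
(.lf (nat_lit 71224) (.g (nat_lit 2253) (.e (nat_lit 1661) (nat_lit 115) (.e (nat_lit 393252) (nat_lit 18) (.e (nat_lit 164307) (nat_lit 226) (.e (nat_lit 1059) (nat_lit 81) (.e (nat_lit 1661) (nat_lit 115) (.e (nat_lit 393252) (nat_lit 18) (.e (nat_lit 164305) (nat_lit 226) (.e (nat_lit 1058) (nat_lit 81) .nil)))))))) (.g (nat_lit 5) .nil .nil)))))) 
(.nd (nat_lit 3) (.nd (nat_lit 4) (.nd (nat_lit 5) 
(.lf (nat_lit 71172) (.g (nat_lit 3007) (.e (nat_lit 1661) (nat_lit 115) (.e (nat_lit 393251) (nat_lit 18) (.e (nat_lit 164325) (nat_lit 230) (.e (nat_lit 163864) (nat_lit 1) (.e (nat_lit 164332) (nat_lit 230) (.e (nat_lit 163885) (nat_lit 5) (.e (nat_lit 221207) (nat_lit 21) (.e (nat_lit 164224) (nat_lit 181) (.e (nat_lit 1057) (nat_lit 81) .nil))))))))) (.g (nat_lit 5) .nil .nil))) 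
(.lf (nat_lit 71204) (.g (nat_lit 2310) (.e (nat_lit 1661) (nat_lit 115) (.e (nat_lit 393252) (nat_lit 18) (.e (nat_lit 164305) (nat_lit 226) (.e (nat_lit 1101) (nat_lit 81) (.e (nat_lit 1661) (nat_lit 115) (.e (nat_lit 393252) (nat_lit 18) (.e (nat_lit 164306) (nat_lit 226) (.e (nat_lit 1072) (nat_lit 81) .nil)))))))) (.g (nat_lit 5) .nil .nil)))) (.nd (nat_lit 5) 
(.lf (nat_lit 71188) (.g (nat_lit 2217) (.e (nat_lit 1661) (nat_lit 115) (.e (nat_lit 393252) (nat_lit 18) (.e (nat_lit 164305) (nat_lit 226) (.e (nat_lit 1072) (nat_lit 81) (.e (nat_lit 1661) (nat_lit 115) (.e (nat_lit 393252) (nat_lit 18) (.e (nat_lit 164297) (nat_lit 226) (.e (nat_lit 1057) (nat_lit 81) .nil)))))))) (.g (nat_lit 5) .nil .nil))) 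
(.lf (nat_lit 71220) (.g (nat_lit 1886) (.e (nat_lit 1661) (nat_lit 115) (.e (nat_lit 393252) (nat_lit 18) (.e (nat_lit 164306) (nat_lit 226) (.e (nat_lit 1101) (nat_lit 81) (.e (nat_lit 1661) (nat_lit 115) (.e (nat_lit 393252) (nat_lit 18) (.e (nat_lit 164307) (nat_lit 226) (.e (nat_lit 1101) (nat_lit 81) .nil)))))))) (.g (nat_lit 5) .nil .nil))))) (.nd (nat_lit 4) (.nd (nat_lit 5) 
(.lf (nat_lit 71180) (.g (nat_lit 2498) (.e (nat_lit 1661) (nat_lit 115) (.e (nat_lit 393252) (nat_lit 18) (.e (nat_lit 164305) (nat_lit 226) (.e (nat_lit 1057) (nat_lit 81) (.e (nat_lit 1661) (nat_lit 115) (.e (nat_lit 393252) (nat_lit 18) (.e (nat_lit 164305) (nat_lit 226) (.e (nat_lit 1057) (nat_lit 81) .nil)))))))) (.g (nat_lit 5) .nil .nil))) 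
(.lf (nat_lit 71212) (.g (nat_lit 2028) (.e (nat_lit 1661) (nat_lit 115) (.e (nat_lit 393252) (nat_lit 18) (.e (nat_lit 164306) (nat_lit 226) (.e (nat_lit 1072) (nat_lit 81) (.e (nat_lit 1661) (nat_lit 115) (.e (nat_lit 393252) (nat_lit 18) (.e (nat_lit 164307) (nat_lit 226) (.e (nat_lit 1057) (nat_lit 81) .nil)))))))) (.g (nat_lit 5) .nil .nil)))) (.nd (nat_lit 5) 
(.lf (nat_lit 71196) (.g (nat_lit 2497) (.e (nat_lit 1661) (nat_lit 115) (.e (nat_lit 393252) (nat_lit 18) (.e (nat_lit 164305) (nat_lit 226) (.e (nat_lit 1072) (nat_lit 81) (.e (nat_lit 1661) (nat_lit 115) (.e (nat_lit 393252) (nat_lit 18) (.e (nat_lit 164306) (nat_lit 226) (.e (nat_lit 1101) (nat_lit 81) .nil)))))))) (.g (nat_lit 5) .nil .nil))) 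
(.lf (nat_lit 71228) (.g (nat_lit 2342) (.e (nat_lit 1661) (nat_lit 115) (.e (nat_lit 393252) (nat_lit 18) (.e (nat_lit 164307) (nat_lit 226) (.e (nat_lit 1072) (nat_lit 81) (.e (nat_lit 1661) (nat_lit 115) (.e (nat_lit 393252) (nat_lit 18) (.e (nat_lit 164305) (nat_lit 226) (.e (nat_lit 1057) (nat_lit 81) .nil)))))))) (.g (nat_lit 5) .nil .nil))))))) 
(.nd (nat_lit 2) (.nd (nat_lit 3) (.nd (nat_lit 4) (.nd (nat_lit 5) 
(.lf (nat_lit 71170) (.g (nat_lit 3684) (.e (nat_lit 1661) (nat_lit 115) (.e (nat_lit 393251) (nat_lit 18) (.e (nat_lit 164325) (nat_lit 230) (.e (nat_lit 163864) (nat_lit 1) (.e (nat_lit 164332) (nat_lit 230) (.e (nat_lit 163885) (nat_lit 5) (.e (nat_lit 221207) (nat_lit 21) (.e (nat_lit 164220) (nat_lit 181) (.e (nat_lit 1083) (nat_lit 81) .nil))))))))) (.g (nat_lit 6) .nil .nil))) 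
(.lf (nat_lit 71202) (.g (nat_lit 3079) (.e (nat_lit 1661) (nat_lit 115) (.e (nat_lit 393252) (nat_lit 18) (.e (nat_lit 164305) (nat_lit 226) (.e (nat_lit 1101) (nat_lit 81) (.e (nat_lit 1661) (nat_lit 115) (.e (nat_lit 393252) (nat_lit 18) (.e (nat_lit 164305) (nat_lit 226) (.e (nat_lit 1072) (nat_lit 81) .nil)))))))) (.g (nat_lit 6) .nil .nil)))) (.nd (nat_lit 5) 
(.lf (nat_lit 71186) (.g (nat_lit 2310) (.e (nat_lit 1661) (nat_lit 115) (.e (nat_lit 393252) (nat_lit 18) (.e (nat_lit 164305) (nat_lit 226) (.e (nat_lit 1072) (nat_lit 81) (.e (nat_lit 1661) (nat_lit 115) (.e (nat_lit 393251) (nat_lit 18) (.e (nat_lit 164300) (nat_lit 226) (.e (nat_lit 1057) (nat_lit 81) .nil)))))))) (.g (nat_lit 5) .nil .nil))) 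
(.lf (nat_lit 71218) (.g (nat_lit 2080) (.e (nat_lit 1661) (nat_lit 115) (.e (nat_lit 393252) (nat_lit 18) (.e (nat_lit 164306) (nat_lit 226) (.e (nat_lit 1101) (nat_lit 81) (.e (nat_lit 1661) (nat_lit 115) (.e (nat_lit 393252) (nat_lit 18) (.e (nat_lit 164307) (nat_lit 226) (.e (nat_lit 1059) (nat_lit 81) .nil)))))))) (.g (nat_lit 5) .nil .nil))))) (.nd (nat_lit 4) (.nd (nat_lit 5) 
(.lf (nat_lit 71178) (.g (nat_lit 3047) (.e (nat_lit 1661) (nat_lit 115) (.e (nat_lit 393252) (nat_lit 18) (.e (nat_lit 164182) (nat_lit 154) (.e (nat_lit 57420) (nat_lit 13) (.e (nat_lit 344132) (nat_lit 26) (.e (nat_lit 557093) (nat_lit 12) (.e (nat_lit 164239) (nat_lit 187) .nil))))))) (.g (nat_lit 6) .nil .nil))) 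
(.lf (nat_lit 71210) (.g (nat_lit 2138) (.e (nat_lit 1661) (nat_lit 115) (.e (nat_lit 393252) (nat_lit 18) (.e (nat_lit 164306) (nat_lit 226) (.e (nat_lit 1072) (nat_lit 81) (.e (nat_lit 1661) (nat_lit 115) (.e (nat_lit 393251) (nat_lit 18) (.e (nat_lit 164300) (nat_lit 226) (.e (nat_lit 1059) (nat_lit 81) .nil)))))))) (.g (nat_lit 5) .nil .nil)))) (.nd (nat_lit 5) 
(.lf (nat_lit 71194) (.g (nat_lit 2073) (.e (nat_lit 1661) (nat_lit 115) (.e (nat_lit 393252) (nat_lit 18) (.e (nat_lit 164305) (nat_lit 226) (.e (nat_lit 1072) (nat_lit 81) (.e (nat_lit 1661) (nat_lit 115) (.e (nat_lit 393252) (nat_lit 18) (.e (nat_lit 164306) (nat_lit 226) (.e (nat_lit 1059) (nat_lit 81) .nil)))))))) (.g (nat_lit 5) .nil .nil))) 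
(.lf (nat_lit 71226) (.g (nat_lit 2464) (.e (nat_lit 1661) (nat_lit 115) (.e (nat_lit 393252) (nat_lit 18) (.e (nat_lit 164307) (nat_lit 226) (.e (nat_lit 1059) (nat_lit 81) (.e (nat_lit 1661) (nat_lit 115) (.e (nat_lit 393252) (nat_lit 18) (.e (nat_lit 164307) (nat_lit 226) (.e (nat_lit 1059) (nat_lit 81) .nil)))))))) (.g (nat_lit 5) .nil .nil)))))) 
(.nd (nat_lit 3) (.nd (nat_lit 4) (.nd (nat_lit 5) 
(.lf (nat_lit 71174) (.g (nat_lit 3127) (.e (nat_lit 1661) (nat_lit 115) (.e (nat_lit 393251) (nat_lit 18) (.e (nat_lit 164325) (nat_lit 230) (.e (nat_lit 163864) (nat_lit 1) (.e (nat_lit 164332) (nat_lit 230) (.e (nat_lit 163885) (nat_lit 5) (.e (nat_lit 221208) (nat_lit 21) (.e (nat_lit 164226) (nat_lit 181) (.e (nat_lit 1057) (nat_lit 81) .nil))))))))) (.g (nat_lit 5) .nil .nil))) 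
(.lf (nat_lit 71206) (.g (nat_lit 2678) (.e (nat_lit 1661) (nat_lit 115) (.e (nat_lit 393252) (nat_lit 18) (.e (nat_lit 164305) (nat_lit 226) (.e (nat_lit 1101) (nat_lit 81) (.e (nat_lit 1661) (nat_lit 115) (.e (nat_lit 393252) (nat_lit 18) (.e (nat_lit 164307) (nat_lit 226) (.e (nat_lit 1057) (nat_lit 81) .nil)))))))) (.g (nat_lit 6) .nil .nil)))) (.nd (nat_lit 5) 
(.lf (nat_lit 71190) (.g (nat_lit 2860) (.e (nat_lit 1661) (nat_lit 115) (.e (nat_lit 393252) (nat_lit 18) (.e (nat_lit 164305) (nat_lit 226) (.e (nat_lit 1072) (nat_lit 81) (.e (nat_lit 1661) (nat_lit 115) (.e (nat_lit 393252) (nat_lit 18) (.e (nat_lit 164305) (nat_lit 226) (.e (nat_lit 1057) (nat_lit 81) .nil)))))))) (.g (nat_lit 6) .nil .nil))) 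
(.lf (nat_lit 71222) (.g (nat_lit 2406) (.e (nat_lit 1661) (nat_lit 115) (.e (nat_lit 393252) (nat_lit 18) (.e (nat_lit 164307) (nat_lit 226) (.e (nat_lit 1057) (nat_lit 81) (.e (nat_lit 1661) (nat_lit 115) (.e (nat_lit 393252) (nat_lit 18) (.e (nat_lit 164307) (nat_lit 226) (.e (nat_lit 1057) (nat_lit 81) .nil)))))))) (.g (nat_lit 5) .nil .nil))))) (.nd (nat_lit 4) (.nd (nat_lit 5) 
(.lf (nat_lit 71182) (.g (nat_lit 2283) (.e (nat_lit 1661) (nat_lit 115) (.e (nat_lit 393252) (nat_lit 18) (.e (nat_lit 164305) (nat_lit 226) (.e (nat_lit 1058) (nat_lit 81) (.e (nat_lit 1661) (nat_lit 115) (.e (nat_lit 393252) (nat_lit 18) (.e (nat_lit 164305) (nat_lit 226) (.e (nat_lit 1057) (nat_lit 81) .nil)))))))) (.g (nat_lit 5) .nil .nil))) 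
(.lf (nat_lit 71214) (.g (nat_lit 1963) (.e (nat_lit 1661) (nat_lit 115) (.e (nat_lit 393252) (nat_lit 18) (.e (nat_lit 164306) (nat_lit 226) (.e (nat_lit 1072) (nat_lit 81) (.e (nat_lit 1661) (nat_lit 115) (.e (nat_lit 393252) (nat_lit 18) (.e (nat_lit 164307) (nat_lit 226) (.e (nat_lit 1072) (nat_lit 81) .nil)))))))) (.g (nat_lit 5) .nil .nil)))) (.nd (nat_lit 5) 
(.lf (nat_lit 71198) (.g (nat_lit 2782) (.e (nat_lit 1661) (nat_lit 115) (.e (nat_lit 393252) (nat_lit 18) (.e (nat_lit 164305) (nat_lit 226) (.e (nat_lit 1072) (nat_lit 81) (.e (nat_lit 1661) (nat_lit 115) (.e (nat_lit 393252) (nat_lit 18) (.e (nat_lit 164307) (nat_lit 226) (.e (nat_lit 1059) (nat_lit 81) .nil)))))))) (.g (nat_lit 6) .nil .nil))) 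
(.lf (nat_lit 71230) (.g (nat_lit 2291) (.e (nat_lit 1661) (nat_lit 115) (.e (nat_lit 393252) (nat_lit 18) (.e (nat_lit 164307) (nat_lit 226) (.e (nat_lit 1072) (nat_lit 81) (.e (nat_lit 1661) (nat_lit 115) (.e (nat_lit 393252) (nat_lit 18) (.e (nat_lit 164307) (nat_lit 226) (.e (nat_lit 1057) (nat_lit 81) .nil)))))))) (.g (nat_lit 5) .nil .nil)))))))) 
(.nd (nat_lit 1) (.nd (nat_lit 2) (.nd (nat_lit 3) (.nd (nat_lit 4) (.nd (nat_lit 5) 
(.lf (nat_lit 71169) (.g (nat_lit 3240) (.e (nat_lit 1661) (nat_lit 115) (.e (nat_lit 393251) (nat_lit 18) (.e (nat_lit 164325) (nat_lit 230) (.e (nat_lit 163861) (nat_lit 1) (.e (nat_lit 164332) (nat_lit 230) (.e (nat_lit 163885) (nat_lit 5) (.e (nat_lit 221208) (nat_lit 21) (.e (nat_lit 164226) (nat_lit 181) (.e (nat_lit 1057) (nat_lit 81) .nil))))))))) (.g (nat_lit 5) .nil .nil))) 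
(.lf (nat_lit 71201) (.g (nat_lit 2502) (.e (nat_lit 1661) (nat_lit 115) (.e (nat_lit 393252) (nat_lit 18) (.e (nat_lit 164305) (nat_lit 226) (.e (nat_lit 1101) (nat_lit 81) (.e (nat_lit 1661) (nat_lit 115) (.e (nat_lit 393252) (nat_lit 18) (.e (nat_lit 164305) (nat_lit 226) (.e (nat_lit 1058) (nat_lit 81) .nil)))))))) (.g (nat_lit 5) .nil .nil)))) (.nd (nat_lit 5) 
(.lf (nat_lit 71185) (.g (nat_lit 2289) (.e (nat_lit 1661) (nat_lit 115) (.e (nat_lit 393252) (nat_lit 18) (.e (nat_lit 164305) (nat_lit 226) (.e (nat_lit 1072) (nat_lit 81) (.e (nat_lit 1661) (nat_lit 115) (.e (nat_lit 393251) (nat_lit 18) (.e (nat_lit 164298) (nat_lit 226) (.e (nat_lit 1059) (nat_lit 81) .nil)))))))) (.g (nat_lit 5) .nil .nil))) 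
(.lf (nat_lit 71217) (.g (nat_lit 2051) (.e (nat_lit 1661) (nat_lit 115) (.e (nat_lit 393252) (nat_lit 18) (.e (nat_lit 164306) (nat_lit 226) (.e (nat_lit 1101) (nat_lit 81) (.e (nat_lit 1661) (nat_lit 115) (.e (nat_lit 393252) (nat_lit 18) (.e (nat_lit 164307) (nat_lit 226) (.e (nat_lit 1057) (nat_lit 81) .nil)))))))) (.g (nat_lit 5) .nil .nil))))) (.nd (nat_lit 4) (.nd (nat_lit 5) 
(.lf (nat_lit 71177) (.g (nat_lit 3181) (.e (nat_lit 1661) (nat_lit 115) (.e (nat_lit 393252) (nat_lit 18) (.e (nat_lit 164182) (nat_lit 154) (.e (nat_lit 57420) (nat_lit 13) (.e (nat_lit 344132) (nat_lit 26) (.e (nat_lit 557093) (nat_lit 12) (.e (nat_lit 164238) (nat_lit 187) .nil))))))) (.g (nat_lit 6) .nil .nil))) 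
(.lf (nat_lit 71209) (.g (nat_lit 589) (.e (nat_lit 1661) (nat_lit 115) (.e (nat_lit 393252) (nat_lit 18) (.e (nat_lit 164306) (nat_lit 226) .nil))) .nil))) (.nd (nat_lit 5) 
(.lf (nat_lit 71193) (.g (nat_lit 3222) (.e (nat_lit 1661) (nat_lit 115) (.e (nat_lit 393252) (nat_lit 18) (.e (nat_lit 164305) (nat_lit 226) (.e (nat_lit 1072) (nat_lit 81) (.e (nat_lit 1661) (nat_lit 115) (.e (nat_lit 393252) (nat_lit 18) (.e (nat_lit 164305) (nat_lit 226) (.e (nat_lit 1072) (nat_lit 81) .nil)))))))) (.g (nat_lit 6) .nil .nil))) 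
(.lf (nat_lit 71225) (.g (nat_lit 2435) (.e (nat_lit 1661) (nat_lit 115) (.e (nat_lit 393252) (nat_lit 18) (.e (nat_lit 164307) (nat_lit 226) (.e (nat_lit 1059) (nat_lit 81) (.e (nat_lit 1661) (nat_lit 115) (.e (nat_lit 393252) (nat_lit 18) (.e (nat_lit 164307) (nat_lit 226) (.e (nat_lit 1057) (nat_lit 81) .nil)))))))) (.g (nat_lit 5) .nil .nil)))))) 
(.nd (nat_lit 3) (.nd (nat_lit 4) (.nd (nat_lit 5) 
(.lf (nat_lit 71173) (.g (nat_lit 3057) (.e (nat_lit 1661) (nat_lit 115) (.e (nat_lit 393251) (nat_lit 18) (.e (nat_lit 164325) (nat_lit 230) (.e (nat_lit 163864) (nat_lit 1) (.e (nat_lit 164332) (nat_lit 230) (.e (nat_lit 163885) (nat_lit 5) (.e (nat_lit 221208) (nat_lit 21) (.e (nat_lit 164220) (nat_lit 181) (.e (nat_lit 1083) (nat_lit 81) .nil))))))))) (.g (nat_lit 5) .nil .nil))) 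
(.lf (nat_lit 71205) (.g (nat_lit 2321) (.e (nat_lit 1661) (nat_lit 115) (.e (nat_lit 393252) (nat_lit 18) (.e (nat_lit 164305) (nat_lit 226) (.e (nat_lit 1101) (nat_lit 81) (.e (nat_lit 1661) (nat_lit 115) (.e (nat_lit 393252) (nat_lit 18) (.e (nat_lit 164306) (nat_lit 226) (.e (nat_lit 1101) (nat_lit 81) .nil)))))))) (.g (nat_lit 5) .nil .nil)))) (.nd (nat_lit 5) 
(.lf (nat_lit 71189) (.g (nat_lit 2325) (.e (nat_lit 1661) (nat_lit 115) (.e (nat_lit 393252) (nat_lit 18) (.e (nat_lit 164305) (nat_lit 226) (.e (nat_lit 1072) (nat_lit 81) (.e (nat_lit 1661) (nat_lit 115) (.e (nat_lit 393252) (nat_lit 18) (.e (nat_lit 164297) (nat_lit 226) (.e (nat_lit 1059) (nat_lit 81) .nil)))))))) (.g (nat_lit 5) .nil .nil))) 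
(.lf (nat_lit 71221) (.g (nat_lit 609) (.e (nat_lit 1661) (nat_lit 115) (.e (nat_lit 393252) (nat_lit 18) (.e (nat_lit 164307) (nat_lit 226) .nil))) .nil)))) (.nd (nat_lit 4) (.nd (nat_lit 5) 
(.lf (nat_lit 71181) (.g (nat_lit 2452) (.e (nat_lit 1661) (nat_lit 115) (.e (nat_lit 393252) (nat_lit 18) (.e (nat_lit 164305) (nat_lit 226) (.e (nat_lit 1057) (nat_lit 81) (.e (nat_lit 1661) (nat_lit 115) (.e (nat_lit 393252) (nat_lit 18) (.e (nat_lit 164307) (nat_lit 226) (.e (nat_lit 1057) (nat_lit 81) .nil)))))))) (.g (nat_lit 5) .nil .nil))) 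
(.lf (nat_lit 71213) (.g (nat_lit 2057) (.e (nat_lit 1661) (nat_lit 115) (.e (nat_lit 393252) (nat_lit 18) (.e (nat_lit 164306) (nat_lit 226) (.e (nat_lit 1072) (nat_lit 81) (.e (nat_lit 1661) (nat_lit 115) (.e (nat_lit 393252) (nat_lit 18) (.e (nat_lit 164307) (nat_lit 226) (.e (nat_lit 1059) (nat_lit 81) .nil)))))))) (.g (nat_lit 5) .nil .nil)))) (.nd (nat_lit 5) 
(.lf (nat_lit 71197) (.g (nat_lit 2809) (.e (nat_lit 1661) (nat_lit 115) (.e (nat_lit 393252) (nat_lit 18) (.e (nat_lit 164305) (nat_lit 226) (.e (nat_lit 1072) (nat_lit 81) (.e (nat_lit 1661) (nat_lit 115) (.e (nat_lit 393252) (nat_lit 18) (.e (nat_lit 164307) (nat_lit 226) (.e (nat_lit 1057) (nat_lit 81) .nil)))))))) (.g (nat_lit 6) .nil .nil))) 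
(.lf (nat_lit 71229) (.g (nat_lit 2170) (.e (nat_lit 1661) (nat_lit 115) (.e (nat_lit 393252) (nat_lit 18) (.e (nat_lit 164307) (nat_lit 226) (.e (nat_lit 1072) (nat_lit 81) (.e (nat_lit 1661) (nat_lit 115) (.e (nat_lit 393252) (nat_lit 18) (.e (nat_lit 164305) (nat_lit 226) (.e (nat_lit 1058) (nat_lit 81) .nil)))))))) (.g (nat_lit 5) .nil .nil))))))) 
(.nd (nat_lit 2) (.nd (nat_lit 3) (.nd (nat_lit 4) (.nd (nat_lit 5) 
(.lf (nat_lit 71171) (.g (nat_lit 3324) (.e (nat_lit 1661) (nat_lit 115) (.e (nat_lit 393251) (nat_lit 18) (.e (nat_lit 164325) (nat_lit 230) (.e (nat_lit 163864) (nat_lit 1) (.e (nat_lit 164332) (nat_lit 230) (.e (nat_lit 163885) (nat_lit 5) (.e (nat_lit 221207) (nat_lit 21) (.e (nat_lit 164221) (nat_lit 181) (.e (nat_lit 1083) (nat_lit 81) .nil))))))))) (.g (nat_lit 5) .nil .nil))) 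
(.lf (nat_lit 71203) (.g (nat_lit 2936) (.e (nat_lit 1661) (nat_lit 115) (.e (nat_lit 393252) (nat_lit 18) (.e (nat_lit 164305) (nat_lit 226) (.e (nat_lit 1101) (nat_lit 81) (.e (nat_lit 1661) (nat_lit 115) (.e (nat_lit 393252) (nat_lit 18) (.e (nat_lit 164305) (nat_lit 226) (.e (nat_lit 1101) (nat_lit 81) .nil)))))))) (.g (nat_lit 6) .nil .nil)))) (.nd (nat_lit 5) 
(.lf (nat_lit 71187) (.g (nat_lit 2998) (.e (nat_lit 1661) (nat_lit 115) (.e (nat_lit 393252) (nat_lit 18) (.e (nat_lit 164305) (nat_lit 226) (.e (nat_lit 1072) (nat_lit 81) (.e (nat_lit 1661) (nat_lit 115) (.e (nat_lit 393251) (nat_lit 18) (.e (nat_lit 164300) (nat_lit 226) (.e (nat_lit 1059) (nat_lit 81) .nil)))))))) (.g (nat_lit 6) .nil .nil))) 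
(.lf (nat_lit 71219) (.g (nat_lit 1986) (.e (nat_lit 1661) (nat_lit 115) (.e (nat_lit 393252) (nat_lit 18) (.e (nat_lit 164306) (nat_lit 226) (.e (nat_lit 1101) (nat_lit 81) (.e (nat_lit 1661) (nat_lit 115) (.e (nat_lit 393252) (nat_lit 18) (.e (nat_lit 164307) (nat_lit 226) (.e (nat_lit 1072) (nat_lit 81) .nil)))))))) (.g (nat_lit 5) .nil .nil))))) (.nd (nat_lit 4) (.nd (nat_lit 5) 
(.lf (nat_lit 71179) (.g (nat_lit 589) (.e (nat_lit 1661) (nat_lit 115) (.e (nat_lit 393252) (nat_lit 18) (.e (nat_lit 164297) (nat_lit 226) .nil))) .nil)) 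
(.lf (nat_lit 71211) (.g (nat_lit 2079) (.e (nat_lit 1661) (nat_lit 115) (.e (nat_lit 393252) (nat_lit 18) (.e (nat_lit 164306) (nat_lit 226) (.e (nat_lit 1072) (nat_lit 81) (.e (nat_lit 1661) (nat_lit 115) (.e (nat_lit 393252) (nat_lit 18) (.e (nat_lit 164305) (nat_lit 226) (.e (nat_lit 1057) (nat_lit 81) .nil)))))))) (.g (nat_lit 5) .nil .nil)))) (.nd (nat_lit 5) 
(.lf (nat_lit 71195) (.g (nat_lit 2486) (.e (nat_lit 1661) (nat_lit 115) (.e (nat_lit 393252) (nat_lit 18) (.e (nat_lit 164305) (nat_lit 226) (.e (nat_lit 1072) (nat_lit 81) (.e (nat_lit 1661) (nat_lit 115) (.e (nat_lit 393252) (nat_lit 18) (.e (nat_lit 164306) (nat_lit 226) (.e (nat_lit 1072) (nat_lit 81) .nil)))))))) (.g (nat_lit 5) .nil .nil))) 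
(.lf (nat_lit 71227) (.g (nat_lit 2392) (.e (nat_lit 1661) (nat_lit 115) (.e (nat_lit 393252) (nat_lit 18) (.e (nat_lit 164307) (nat_lit 226) (.e (nat_lit 1072) (nat_lit 81) (.e (nat_lit 1661) (nat_lit 115) (.e (nat_lit 393251) (nat_lit 18) (.e (nat_lit 164300) (nat_lit 226) (.e (nat_lit 1059) (nat_lit 81) .nil)))))))) (.g (nat_lit 5) .nil .nil)))))) 
(.nd (nat_lit 3) (.nd (nat_lit 4) (.nd (nat_lit 5) 
(.lf (nat_lit 71175) (.g (nat_lit 2212) (.e (nat_lit 1661) (nat_lit 115) (.e (nat_lit 393252) (nat_lit 18) (.e (nat_lit 164176) (nat_lit 154) (.e (nat_lit 57421) (nat_lit 13) (.e (nat_lit 344132) (nat_lit 26) (.e (nat_lit 557093) (nat_lit 12) (.e (nat_lit 164239) (nat_lit 187) .nil))))))) (.g (nat_lit 5) .nil .nil))) 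
(.lf (nat_lit 71207) (.g (nat_lit 2568) (.e (nat_lit 1661) (nat_lit 115) (.e (nat_lit 393252) (nat_lit 18) (.e (nat_lit 164305) (nat_lit 226) (.e (nat_lit 1101) (nat_lit 81) (.e (nat_lit 1661) (nat_lit 115) (.e (nat_lit 393252) (nat_lit 18) (.e (nat_lit 164307) (nat_lit 226) (.e (nat_lit 1072) (nat_lit 81) .nil)))))))) (.g (nat_lit 5) .nil .nil)))) (.nd (nat_lit 5) 
(.lf (nat_lit 71191) (.g (nat_lit 2645) (.e (nat_lit 1661) (nat_lit 115) (.e (nat_lit 393252) (nat_lit 18) (.e (nat_lit 164305) (nat_lit 226) (.e (nat_lit 1072) (nat_lit 81) (.e (nat_lit 1661) (nat_lit 115) (.e (nat_lit 393252) (nat_lit 18) (.e (nat_lit 164305) (nat_lit 226) (.e (nat_lit 1058) (nat_lit 81) .nil)))))))) (.g (nat_lit 6) .nil .nil))) 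
(.lf (nat_lit 71223) (.g (nat_lit 2425) (.e (nat_lit 1661) (nat_lit 115) (.e (nat_lit 393252) (nat_lit 18) (.e (nat_lit 164307) (nat_lit 226) (.e (nat_lit 1059) (nat_lit 81) (.e (nat_lit 1661) (nat_lit 115) (.e (nat_lit 393252) (nat_lit 18) (.e (nat_lit 164305) (nat_lit 226) (.e (nat_lit 1057) (nat_lit 81) .nil)))))))) (.g (nat_lit 5) .nil .nil))))) (.nd (nat_lit 4) (.nd (nat_lit 5) 
(.lf (nat_lit 71183) (.g (nat_lit 2068) (.e (nat_lit 1661) (nat_lit 115) (.e (nat_lit 393252) (nat_lit 18) (.e (nat_lit 164305) (nat_lit 226) (.e (nat_lit 1058) (nat_lit 81) (.e (nat_lit 1661) (nat_lit 115) (.e (nat_lit 393252) (nat_lit 18) (.e (nat_lit 164305) (nat_lit 226) (.e (nat_lit 1058) (nat_lit 81) .nil)))))))) (.g (nat_lit 5) .nil .nil))) 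
(.lf (nat_lit 71215) (.g (nat_lit 2138) (.e (nat_lit 1661) (nat_lit 115) (.e (nat_lit 393252) (nat_lit 18) (.e (nat_lit 164306) (nat_lit 226) (.e (nat_lit 1101) (nat_lit 81) (.e (nat_lit 1661) (nat_lit 115) (.e (nat_lit 393251) (nat_lit 18) (.e (nat_lit 164300) (nat_lit 226) (.e (nat_lit 1059) (nat_lit 81) .nil)))))))) (.g (nat_lit 5) .nil .nil)))) (.nd (nat_lit 5) 
(.lf (nat_lit 71199) (.g (nat_lit 2182) (.e (nat_lit 1661) (nat_lit 115) (.e (nat_lit 393252) (nat_lit 18) (.e (nat_lit 164305) (nat_lit 226) (.e (nat_lit 1101) (nat_lit 81) (.e (nat_lit 1661) (nat_lit 115) (.e (nat_lit 393252) (nat_lit 18) (.e (nat_lit 164297) (nat_lit 226) (.e (nat_lit 1059) (nat_lit 81) .nil)))))))) (.g (nat_lit 5) .nil .nil))) 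
(.lf (nat_lit 71231) (.g (nat_lit 2320) (.e (nat_lit 1661) (nat_lit 115) (.e (nat_lit 393252) (nat_lit 18) (.e (nat_lit 164307) (nat_lit 226) (.e (nat_lit 1072) (nat_lit 81) (.e (nat_lit 1661) (nat_lit 115) (.e (nat_lit 393252) (nat_lit 18) (.e (nat_lit 164307) (nat_lit 226) (.e (nat_lit 1059) (nat_lit 81) .nil)))))))) (.g (nat_lit 5) .nil .nil)))))))))

noncomputable def tv973 : DT := (.nd (nat_lit 0) (.nd (nat_lit 1) (.nd (nat_lit 2) (.nd (nat_lit 3) (.nd (nat_lit 4) (.nd (nat_lit 5) 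
(.lf (nat_lit 71232) (.g (nat_lit 2176) (.e (nat_lit 1661) (nat_lit 115) (.e (nat_lit 393252) (nat_lit 18) (.e (nat_lit 164307) (nat_lit 226) (.e (nat_lit 1072) (nat_lit 81) (.e (nat_lit 1661) (nat_lit 115) (.e (nat_lit 393252) (nat_lit 18) (.e (nat_lit 164307) (nat_lit 226) (.e (nat_lit 1072) (nat_lit 81) .nil)))))))) (.g (nat_lit 5) .nil .nil))) 
(.lf (nat_lit 71264) (.g (nat_lit 3196) (.e (nat_lit 1661) (nat_lit 115) (.e (nat_lit 393260) (nat_lit 21) (.e (nat_lit 409616) (nat_lit 10) (.e (nat_lit 632) (nat_lit 50) (.e (nat_lit 573489) (nat_lit 14) (.e (nat_lit 73728) (nat_lit 0) (.e (nat_lit 4553) (nat_lit 269) (.e (nat_lit 1087) (nat_lit 81) .nil)))))))) (.g (nat_lit 4) .nil .nil)))) (.nd (nat_lit 5) 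
(.lf (nat_lit 71248) (.g (nat_lit 589) (.e (nat_lit 1661) (nat_lit 115) (.e (nat_lit 393252) (nat_lit 18) (.e (nat_lit 164406) (nat_lit 258) .nil))) .nil)) 
(.lf (nat_lit 71280) (.g (nat_lit 1029) (.e (nat_lit 1661) (nat_lit 115) (.e (nat_lit 393260) (nat_lit 21) (.e (nat_lit 409617) (nat_lit 10) (.e (nat_lit 5353) (nat_lit 298) .nil)))) .nil)))) (.nd (nat_lit 4) (.nd (nat_lit 5) 
(.lf (nat_lit 71240) (.g (nat_lit 2066) (.e (nat_lit 1661) (nat_lit 115) (.e (nat_lit 393252) (nat_lit 18) (.e (nat_lit 164307) (nat_lit 226) (.e (nat_lit 1101) (nat_lit 81) (.e (nat_lit 1661) (nat_lit 115) (.e (nat_lit 393252) (nat_lit 18) (.e (nat_lit 164307) (nat_lit 226) (.e (nat_lit 1101) (nat_lit 81) .nil)))))))) (.g (nat_lit 5) .nil .nil))) 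
(.lf (nat_lit 71272) (.g (nat_lit 257) (.e (nat_lit 1661) (nat_lit 115) (.e (nat_lit 393260) (nat_lit 21) (.e (nat_lit 409617) (nat_lit 10) .nil))) .nil))) (.nd (nat_lit 5) 
(.lf (nat_lit 71256) (.g (nat_lit 1259) (.e (nat_lit 1661) (nat_lit 115) (.e (nat_lit 393260) (nat_lit 21) (.e (nat_lit 409609) (nat_lit 10) (.e (nat_lit 583) (nat_lit 43) (.e (nat_lit 516131) (nat_lit 3) .nil))))) .nil)) 
(.lf (nat_lit 71288) (.g (nat_lit 2658) (.e (nat_lit 1661) (nat_lit 115) (.e (nat_lit 393260) (nat_lit 21) (.e (nat_lit 409617) (nat_lit 10) (.e (nat_lit 5353) (nat_lit 298) (.e (nat_lit 424) (nat_lit 32) (.e (nat_lit 426003) (nat_lit 0) (.e (nat_lit 7557) (nat_lit 402) .nil))))))) (.g (nat_lit 4) .nil .nil)))))) (.nd (nat_lit 3) (.nd (nat_lit 4) (.nd (nat_lit 5) 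
(.lf (nat_lit 71236) (.g (nat_lit 2632) (.e (nat_lit 1661) (nat_lit 115) (.e (nat_lit 393252) (nat_lit 18) (.e (nat_lit 164307) (nat_lit 226) (.e (nat_lit 1101) (nat_lit 81) (.e (nat_lit 1661) (nat_lit 115) (.e (nat_lit 393252) (nat_lit 18) (.e (nat_lit 164305) (nat_lit 226) (.e (nat_lit 1072) (nat_lit 81) .nil)))))))) (.g (nat_lit 6) .nil .nil))) 
(.lf (nat_lit 71268) (.g (nat_lit 1234) (.e (nat_lit 1661) (nat_lit 115) (.e (nat_lit 393260) (nat_lit 21) (.e (nat_lit 409616) (nat_lit 10) (.e (nat_lit 5353) (nat_lit 298) .nil)))) .nil))) (.nd (nat_lit 5) 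
(.lf (nat_lit 71252) (.g (nat_lit 1643) (.e (nat_lit 1661) (nat_lit 115) (.e (nat_lit 393253) (nat_lit 18) (.e (nat_lit 164178) (nat_lit 154) (.e (nat_lit 57421) (nat_lit 13) (.e (nat_lit 344132) (nat_lit 26) .nil))))) .nil)) 
(.lf (nat_lit 71284) (.g (nat_lit 3508) (.e (nat_lit 1661) (nat_lit 115) (.e (nat_lit 393260) (nat_lit 21) (.e (nat_lit 409617) (nat_lit 10) (.e (nat_lit 5353) (nat_lit 298) (.e (nat_lit 418) (nat_lit 32) (.e (nat_lit 425987) (nat_lit 0) (.e (nat_lit 7531) (nat_lit 402) .nil))))))) (.g (nat_lit 4) .nil .nil))))) (.nd (nat_lit 4) (.nd (nat_lit 5) 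
(.lf (nat_lit 71244) (.g (nat_lit 1251) (.e (nat_lit 1661) (nat_lit 115) (.e (nat_lit 393252) (nat_lit 18) (.e (nat_lit 164332) (nat_lit 230) (.e (nat_lit 163862) (nat_lit 1) .nil)))) .nil)) 
(.lf (nat_lit 71276) (.g (nat_lit 812) (.e (nat_lit 1661) (nat_lit 115) (.e (nat_lit 393260) (nat_lit 21) (.e (nat_lit 409617) (nat_lit 10) (.e (nat_lit 7936) (nat_lit 48) .nil)))) .nil))) (.nd (nat_lit 5) 
(.lf (nat_lit 71260) (.g (nat_lit 621) (.e (nat_lit 1661) (nat_lit 115) (.e (nat_lit 393260) (nat_lit 21) (.e (nat_lit 409615) (nat_lit 10) .nil))) .nil)) 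
(.lf (nat_lit 71292) (.g (nat_lit 812) (.e (nat_lit 1661) (nat_lit 115) (.e (nat_lit 393260) (nat_lit 21) (.e (nat_lit 409617) (nat_lit 10) (.e (nat_lit 7936) (nat_lit 300) .nil)))) .nil)))))) (.nd (nat_lit 2) (.nd (nat_lit 3) (.nd (nat_lit 4) (.nd (nat_lit 5) 
(.lf (nat_lit 71234) (.g (nat_lit 2275) (.e (nat_lit 1661) (nat_lit 115) (.e (nat_lit 393252) (nat_lit 18) (.e (nat_lit 164307) (nat_lit 226) (.e (nat_lit 1101) (nat_lit 81) (.e (nat_lit 1661) (nat_lit 115) (.e (nat_lit 393252) (nat_lit 18) (.e (nat_lit 164305) (nat_lit 226) (.e (nat_lit 1057) (nat_lit 81) .nil)))))))) (.g (nat_lit 5) .nil .nil))) 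
(.lf (nat_lit 71266) (.g (nat_lit 1577) (.e (nat_lit 1661) (nat_lit 115) (.e (nat_lit 393260) (nat_lit 21) (.e (nat_lit 409616) (nat_lit 10) (.e (nat_lit 5321) (nat_lit 298) (.e (nat_lit 444) (nat_lit 33) .nil))))) .nil))) (.nd (nat_lit 5) 
(.lf (nat_lit 71250) (.g (nat_lit 2791) (.e (nat_lit 1661) (nat_lit 115) (.e (nat_lit 393252) (nat_lit 18) (.e (nat_lit 164406) (nat_lit 258) (.e (nat_lit 163875) (nat_lit 3) (.e (nat_lit 204880) (nat_lit 32) (.e (nat_lit 385096) (nat_lit 49) (.e (nat_lit 778266) (nat_lit 0) .nil))))))) (.g (nat_lit 5) .nil .nil))) 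
(.lf (nat_lit 71282) (.g (nat_lit 3301) (.e (nat_lit 1661) (nat_lit 115) (.e (nat_lit 393260) (nat_lit 21) (.e (nat_lit 409617) (nat_lit 10) (.e (nat_lit 5353) (nat_lit 298) (.e (nat_lit 418) (nat_lit 32) (.e (nat_lit 425984) (nat_lit 0) (.e (nat_lit 7566) (nat_lit 402) .nil))))))) (.g (nat_lit 6) .nil .nil))))) (.nd (nat_lit 4) (.nd (nat_lit 5) 
(.lf (nat_lit 71242) (.g (nat_lit 1188) (.e (nat_lit 1661) (nat_lit 115) (.e (nat_lit 393252) (nat_lit 18) (.e (nat_lit 164330) (nat_lit 230) (.e (nat_lit 163873) (nat_lit 3) .nil)))) .nil)) 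
(.lf (nat_lit 71274) (.g (nat_lit 779) (.e (nat_lit 1661) (nat_lit 115) (.e (nat_lit 393260) (nat_lit 21) (.e (nat_lit 409617) (nat_lit 10) (.e (nat_lit 604) (nat_lit 45) .nil)))) .nil))) (.nd (nat_lit 5) 
(.lf (nat_lit 71258) (.g (nat_lit 922) (.e (nat_lit 1661) (nat_lit 115) (.e (nat_lit 393260) (nat_lit 21) (.e (nat_lit 409612) (nat_lit 10) .nil))) .nil)) 
(.lf (nat_lit 71290) (.g (nat_lit 2368) (.e (nat_lit 1661) (nat_lit 115) (.e (nat_lit 393260) (nat_lit 21) (.e (nat_lit 409617) (nat_lit 10) (.e (nat_lit 5355) (nat_lit 298) (.e (nat_lit 7936) (nat_lit 36) (.e (nat_lit 458756) (nat_lit 0) .nil)))))) (.g (nat_lit 4) .nil .nil)))))) (.nd (nat_lit 3) (.nd (nat_lit 4) (.nd (nat_lit 5) 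
(.lf (nat_lit 71238) (.g (nat_lit 2265) (.e (nat_lit 1661) (nat_lit 115) (.e (nat_lit 393252) (nat_lit 18) (.e (nat_lit 164307) (nat_lit 226) (.e (nat_lit 1101) (nat_lit 81) (.e (nat_lit 1661) (nat_lit 115) (.e (nat_lit 393252) (nat_lit 18) (.e (nat_lit 164307) (nat_lit 226) (.e (nat_lit 1059) (nat_lit 81) .nil)))))))) (.g (nat_lit 5) .nil .nil))) 
(.lf (nat_lit 71270) (.g (nat_lit 1263) (.e (nat_lit 1661) (nat_lit 115) (.e (nat_lit 393260) (nat_lit 21) (.e (nat_lit 409616) (nat_lit 10) (.e (nat_lit 5630) (nat_lit 312) .nil)))) .nil))) (.nd (nat_lit 5) 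
(.lf (nat_lit 71254) (.g (nat_lit 413) (.e (nat_lit 1661) (nat_lit 115) (.e (nat_lit 393260) (nat_lit 21) (.e (nat_lit 409608) (nat_lit 10) .nil))) .nil)) 
(.lf (nat_lit 71286) (.g (nat_lit 3154) (.e (nat_lit 1661) (nat_lit 115) (.e (nat_lit 393260) (nat_lit 21) (.e (nat_lit 409617) (nat_lit 10) (.e (nat_lit 5353) (nat_lit 298) (.e (nat_lit 418) (nat_lit 32) (.e (nat_lit 425987) (nat_lit 0) (.e (nat_lit 7936) (nat_lit 402) .nil))))))) (.g (nat_lit 6) .nil .nil))))) (.nd (nat_lit 4) (.nd (nat_lit 5) 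
(.lf (nat_lit 71246) (.g (nat_lit 1204) (.e (nat_lit 1661) (nat_lit 115) (.e (nat_lit 393252) (nat_lit 18) (.e (nat_lit 164332) (nat_lit 230) (.e (nat_lit 163874) (nat_lit 3) .nil)))) .nil)) 
(.lf (nat_lit 71278) (.g (nat_lit 1380) (.e (nat_lit 1661) (nat_lit 115) (.e (nat_lit 393260) (nat_lit 21) (.e (nat_lit 409617) (nat_lit 10) (.e (nat_lit 5323) (nat_lit 298) .nil)))) .nil))) (.nd (nat_lit 5) 
(.lf (nat_lit 71262) (.g (nat_lit 4227) (.e (nat_lit 1661) (nat_lit 115) (.e (nat_lit 393260) (nat_lit 21) (.e (nat_lit 409616) (nat_lit 10) (.e (nat_lit 632) (nat_lit 50) (.e (nat_lit 573489) (nat_lit 14) (.e (nat_lit 73728) (nat_lit 0) (.e (nat_lit 4553) (nat_lit 269) (.e (nat_lit 1083) (nat_lit 81) .nil)))))))) (.g (nat_lit 5) .nil .nil))) 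
(.lf (nat_lit 71294) (.g (nat_lit 1117) (.e (nat_lit 1661) (nat_lit 115) (.e (nat_lit 393260) (nat_lit 21) (.e (nat_lit 409619) (nat_lit 10) .nil))) .nil))))))) (.nd (nat_lit 1) (.nd (nat_lit 2) (.nd (nat_lit 3) (.nd (nat_lit 4) (.nd (nat_lit 5) 
(.lf (nat_lit 71233) (.g (nat_lit 2313) (.e (nat_lit 1661) (nat_lit 115) (.e (nat_lit 393252) (nat_lit 18) (.e (nat_lit 164307) (nat_lit 226) (.e (nat_lit 1101) (nat_lit 81) (.e (nat_lit 1661) (nat_lit 115) (.e (nat_lit 393251) (nat_lit 18) (.e (nat_lit 164300) (nat_lit 226) (.e (nat_lit 1059) (nat_lit 81) .nil)))))))) (.g (nat_lit 5) .nil .nil))) 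
(.lf (nat_lit 71265) (.g (nat_lit 1322) (.e (nat_lit 1661) (nat_lit 115) (.e (nat_lit 393260) (nat_lit 21) (.e (nat_lit 409616) (nat_lit 10) (.e (nat_lit 4931) (nat_lit 287) .nil)))) .nil))) (.nd (nat_lit 5) 
(.lf (nat_lit 71249) (.g (nat_lit 2862) (.e (nat_lit 1661) (nat_lit 115) (.e (nat_lit 393252) (nat_lit 18) (.e (nat_lit 164406) (nat_lit 258) (.e (nat_lit 163874) (nat_lit 3) (.e (nat_lit 204880) (nat_lit 32) (.e (nat_lit 385096) (nat_lit 49) (.e (nat_lit 778266) (nat_lit 0) .nil))))))) (.g (nat_lit 5) .nil .nil))) 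
(.lf (nat_lit 71281) (.g (nat_lit 3243) (.e (nat_lit 1661) (nat_lit 115) (.e (nat_lit 393260) (nat_lit 21) (.e (nat_lit 409617) (nat_lit 10) (.e (nat_lit 5353) (nat_lit 298) (.e (nat_lit 418) (nat_lit 32) (.e (nat_lit 425984) (nat_lit 0) (.e (nat_lit 7528) (nat_lit 402) .nil))))))) (.g (nat_lit 4) .nil .nil))))) (.nd (nat_lit 4) (.nd (nat_lit 5) 
(.lf (nat_lit 71241) (.g (nat_lit 589) (.e (nat_lit 1661) (nat_lit 115) (.e (nat_lit 393252) (nat_lit 18) (.e (nat_lit 164319) (nat_lit 228) .nil))) .nil)) 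
(.lf (nat_lit 71273) (.g (nat_lit 812) (.e (nat_lit 1661) (nat_lit 115) (.e (nat_lit 393260) (nat_lit 21) (.e (nat_lit 409617) (nat_lit 10) (.e (nat_lit 7936) (nat_lit 43) .nil)))) .nil))) (.nd (nat_lit 5) 
(.lf (nat_lit 71257) (.g (nat_lit 1151) (.e (nat_lit 1661) (nat_lit 115) (.e (nat_lit 393260) (nat_lit 21) (.e (nat_lit 409610) (nat_lit 10) .nil))) .nil)) 
(.lf (nat_lit 71289) (.g (nat_lit 1050) (.e (nat_lit 1661) (nat_lit 115) (.e (nat_lit 393260) (nat_lit 21) (.e (nat_lit 409617) (nat_lit 10) (.e (nat_lit 5355) (nat_lit 298) .nil)))) .nil))))) (.nd (nat_lit 3) (.nd (nat_lit 4) (.nd (nat_lit 5) 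
(.lf (nat_lit 71237) (.g (nat_lit 2236) (.e (nat_lit 1661) (nat_lit 115) (.e (nat_lit 393252) (nat_lit 18) (.e (nat_lit 164307) (nat_lit 226) (.e (nat_lit 1101) (nat_lit 81) (.e (nat_lit 1661) (nat_lit 115) (.e (nat_lit 393252) (nat_lit 18) (.e (nat_lit 164307) (nat_lit 226) (.e (nat_lit 1057) (nat_lit 81) .nil)))))))) (.g (nat_lit 5) .nil .nil))) 
(.lf (nat_lit 71269) (.g (nat_lit 3077) (.e (nat_lit 1661) (nat_lit 115) (.e (nat_lit 393260) (nat_lit 21) (.e (nat_lit 409616) (nat_lit 10) (.e (nat_lit 7936) (nat_lit 300) (.e (nat_lit 16388) (nat_lit 0) (.e (nat_lit 7936) (nat_lit 402) .nil)))))) (.g (nat_lit 5) .nil .nil)))) (.nd (nat_lit 5) 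
(.lf (nat_lit 71253) (.g (nat_lit 270) (.e (nat_lit 1661) (nat_lit 115) (.e (nat_lit 393259) (nat_lit 21) (.e (nat_lit 417536) (nat_lit 16) .nil))) .nil)) 
(.lf (nat_lit 71285) (.g (nat_lit 3130) (.e (nat_lit 1661) (nat_lit 115) (.e (nat_lit 393260) (nat_lit 21) (.e (nat_lit 409617) (nat_lit 10) (.e (nat_lit 5353) (nat_lit 298) (.e (nat_lit 418) (nat_lit 32) (.e (nat_lit 425987) (nat_lit 0) (.e (nat_lit 7566) (nat_lit 402) .nil))))))) (.g (nat_lit 6) .nil .nil))))) (.nd (nat_lit 4) (.nd (nat_lit 5) 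
(.lf (nat_lit 71245) (.g (nat_lit 2775) (.e (nat_lit 1661) (nat_lit 115) (.e (nat_lit 393252) (nat_lit 18) (.e (nat_lit 164332) (nat_lit 230) (.e (nat_lit 163862) (nat_lit 1) (.e (nat_lit 164332) (nat_lit 230) (.e (nat_lit 163885) (nat_lit 5) (.e (nat_lit 221207) (nat_lit 21) (.e (nat_lit 164220) (nat_lit 181) (.e (nat_lit 1083) (nat_lit 81) .nil))))))))) (.g (nat_lit 5) .nil .nil))) 
(.lf (nat_lit 71277) (.g (nat_lit 3601) (.e (nat_lit 1661) (nat_lit 115) (.e (nat_lit 393260) (nat_lit 21) (.e (nat_lit 409617) (nat_lit 10) (.e (nat_lit 632) (nat_lit 50) (.e (nat_lit 573489) (nat_lit 14) (.e (nat_lit 73728) (nat_lit 0) (.e (nat_lit 4553) (nat_lit 269) (.e (nat_lit 1083) (nat_lit 81) .nil)))))))) (.g (nat_lit 4) .nil .nil)))) (.nd (nat_lit 5) 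
(.lf (nat_lit 71261) (.g (nat_lit 967) (.e (nat_lit 1661) (nat_lit 115) (.e (nat_lit 393260) (nat_lit 21) (.e (nat_lit 409616) (nat_lit 10) (.e (nat_lit 604) (nat_lit 45) .nil)))) .nil)) 
(.lf (nat_lit 71293) (.g (nat_lit 1266) (.e (nat_lit 1661) (nat_lit 115) (.e (nat_lit 393260) (nat_lit 21) (.e (nat_lit 409618) (nat_lit 10) (.e (nat_lit 5024) (nat_lit 290) .nil)))) .nil)))))) (.nd (nat_lit 2) (.nd (nat_lit 3) (.nd (nat_lit 4) (.nd (nat_lit 5) 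
(.lf (nat_lit 71235) (.g (nat_lit 2103) (.e (nat_lit 1661) (nat_lit 115) (.e (nat_lit 393252) (nat_lit 18) (.e (nat_lit 164307) (nat_lit 226) (.e (nat_lit 1101) (nat_lit 81) (.e (nat_lit 1661) (nat_lit 115) (.e (nat_lit 393252) (nat_lit 18) (.e (nat_lit 164305) (nat_lit 226) (.e (nat_lit 1058) (nat_lit 81) .nil)))))))) (.g (nat_lit 5) .nil .nil))) 
(.lf (nat_lit 71267) (.g (nat_lit 1187) (.e (nat_lit 1661) (nat_lit 115) (.e (nat_lit 393260) (nat_lit 21) (.e (nat_lit 409616) (nat_lit 10) (.e (nat_lit 5345) (nat_lit 298) .nil)))) .nil))) (.nd (nat_lit 5) 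
(.lf (nat_lit 71251) (.g (nat_lit 1585) (.e (nat_lit 1661) (nat_lit 115) (.e (nat_lit 393253) (nat_lit 18) (.e (nat_lit 164162) (nat_lit 152) (.e (nat_lit 1210) (nat_lit 89) .nil)))) .nil)) 
(.lf (nat_lit 71283) (.g (nat_lit 2663) (.e (nat_lit 1661) (nat_lit 115) (.e (nat_lit 393260) (nat_lit 21) (.e (nat_lit 409617) (nat_lit 10) (.e (nat_lit 5353) (nat_lit 298) (.e (nat_lit 418) (nat_lit 32) (.e (nat_lit 425984) (nat_lit 0) (.e (nat_lit 7936) (nat_lit 402) .nil))))))) (.g (nat_lit 4) .nil .nil))))) (.nd (nat_lit 4) (.nd (nat_lit 5) 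
(.lf (nat_lit 71243) (.g (nat_lit 1263) (.e (nat_lit 1661) (nat_lit 115) (.e (nat_lit 393252) (nat_lit 18) (.e (nat_lit 164332) (nat_lit 230) (.e (nat_lit 163860) (nat_lit 1) .nil)))) .nil)) 
(.lf (nat_lit 71275) (.g (nat_lit 3162) (.e (nat_lit 1661) (nat_lit 115) (.e (nat_lit 393260) (nat_lit 21) (.e (nat_lit 409617) (nat_lit 10) (.e (nat_lit 604) (nat_lit 45) (.e (nat_lit 532508) (nat_lit 2) (.e (nat_lit 106558) (nat_lit 18) (.e (nat_lit 229505) (nat_lit 116) (.e (nat_lit 778285) (nat_lit 0) .nil)))))))) (.g (nat_lit 6) .nil .nil)))) (.nd (nat_lit 5) 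
(.lf (nat_lit 71259) (.g (nat_lit 581) (.e (nat_lit 1661) (nat_lit 115) (.e (nat_lit 393260) (nat_lit 21) (.e (nat_lit 409614) (nat_lit 10) .nil))) .nil)) 
(.lf (nat_lit 71291) (.g (nat_lit 2378) (.e (nat_lit 1661) (nat_lit 115) (.e (nat_lit 393260) (nat_lit 21) (.e (nat_lit 409617) (nat_lit 10) (.e (nat_lit 7936) (nat_lit 298) (.e (nat_lit 411) (nat_lit 32) (.e (nat_lit 426008) (nat_lit 0) (.e (nat_lit 7557) (nat_lit 402) .nil))))))) (.g (nat_lit 5) .nil .nil)))))) (.nd (nat_lit 3) (.nd (nat_lit 4) (.nd (nat_lit 5) 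
(.lf (nat_lit 71239) (.g (nat_lit 2121) (.e (nat_lit 1661) (nat_lit 115) (.e (nat_lit 393252) (nat_lit 18) (.e (nat_lit 164307) (nat_lit 226) (.e (nat_lit 1101) (nat_lit 81) (.e (nat_lit 1661) (nat_lit 115) (.e (nat_lit 393252) (nat_lit 18) (.e (nat_lit 164307) (nat_lit 226) (.e (nat_lit 1072) (nat_lit 81) .nil)))))))) (.g (nat_lit 5) .nil .nil))) 
(.lf (nat_lit 71271) (.g (nat_lit 1429) (.e (nat_lit 1661) (nat_lit 115) (.e (nat_lit 393260) (nat_lit 21) (.e (nat_lit 409616) (nat_lit 10) (.e (nat_lit 5751) (nat_lit 314) .nil)))) .nil))) (.nd (nat_lit 5) 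
(.lf (nat_lit 71255) (.g (nat_lit 1114) (.e (nat_lit 1661) (nat_lit 115) (.e (nat_lit 393260) (nat_lit 21) (.e (nat_lit 409609) (nat_lit 10) .nil))) .nil)) 
(.lf (nat_lit 71287) (.g (nat_lit 2682) (.e (nat_lit 1661) (nat_lit 115) (.e (nat_lit 393260) (nat_lit 21) (.e (nat_lit 409617) (nat_lit 10) (.e (nat_lit 5353) (nat_lit 298) (.e (nat_lit 418) (nat_lit 32) (.e (nat_lit 425990) (nat_lit 0) (.e (nat_lit 7566) (nat_lit 402) .nil))))))) (.g (nat_lit 4) .nil .nil))))) (.nd (nat_lit 4) (.nd (nat_lit 5) 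
(.lf (nat_lit 71247) (.g (nat_lit 2987) (.e (nat_lit 1661) (nat_lit 115) (.e (nat_lit 393252) (nat_lit 18) (.e (nat_lit 164332) (nat_lit 230) (.e (nat_lit 163874) (nat_lit 3) (.e (nat_lit 204819) (nat_lit 17) .nil))))) .nil)) 
(.lf (nat_lit 71279) (.g (nat_lit 1388) (.e (nat_lit 1661) (nat_lit 115) (.e (nat_lit 393260) (nat_lit 21) (.e (nat_lit 409617) (nat_lit 10) (.e (nat_lit 5331) (nat_lit 298) .nil)))) .nil))) (.nd (nat_lit 5) 
(.lf (nat_lit 71263) (.g (nat_lit 3296) (.e (nat_lit 1661) (nat_lit 115) (.e (nat_lit 393260) (nat_lit 21) (.e (nat_lit 409616) (nat_lit 10) (.e (nat_lit 632) (nat_lit 50) (.e (nat_lit 573489) (nat_lit 14) (.e (nat_lit 73728) (nat_lit 0) (.e (nat_lit 4553) (nat_lit 269) (.e (nat_lit 1086) (nat_lit 81) .nil)))))))) (.g (nat_lit 4) .nil .nil))) 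
(.lf (nat_lit 71295) (.g (nat_lit 498) (.e (nat_lit 1661) (nat_lit 115) (.e (nat_lit 393260) (nat_lit 21) (.e (nat_lit 409623) (nat_lit 10) .nil))) .nil))))))))

noncomputable def tv974 : DT := (.nd (nat_lit 0) (.nd (nat_lit 1) (.nd (nat_lit 2) (.nd (nat_lit 3) (.nd (nat_lit 4) (.nd (nat_lit 5) 
(.lf (nat_lit 71296) (.g (nat_lit 661) (.e (nat_lit 1661) (nat_lit 115) (.e (nat_lit 393260) (nat_lit 21) (.e (nat_lit 409625) (nat_lit 10) .nil))) .nil)) 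
(.lf (nat_lit 71328) (.g (nat_lit 1055) (.e (nat_lit 1661) (nat_lit 115) (.e (nat_lit 393260) (nat_lit 21) (.e (nat_lit 409647) (nat_lit 18) (.e (nat_lit 303115) (nat_lit 1) .nil)))) .nil))) (.nd (nat_lit 5) 
(.lf (nat_lit 71312) (.g (nat_lit 3009) (.e (nat_lit 1661) (nat_lit 115) (.e (nat_lit 393260) (nat_lit 21) (.e (nat_lit 409643) (nat_lit 18) (.e (nat_lit 303149) (nat_lit 15) (.e (nat_lit 6209) (nat_lit 333) (.e (nat_lit 57890) (nat_lit 270) .nil)))))) (.g (nat_lit 6) .nil .nil))) 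
(.lf (nat_lit 71344) (.g (nat_lit 2487) (.e (nat_lit 1661) (nat_lit 115) (.e (nat_lit 393260) (nat_lit 21) (.e (nat_lit 409648) (nat_lit 18) (.e (nat_lit 303147) (nat_lit 15) (.e (nat_lit 6206) (nat_lit 333) (.e (nat_lit 57891) (nat_lit 270) .nil)))))) (.g (nat_lit 4) .nil .nil))))) (.nd (nat_lit 4) (.nd (nat_lit 5) 
(.lf (nat_lit 71304) (.g (nat_lit 2984) (.e (nat_lit 1661) (nat_lit 115) (.e (nat_lit 393260) (nat_lit 21) (.e (nat_lit 409641) (nat_lit 17) (.e (nat_lit 294973) (nat_lit 28) (.e (nat_lit 434181) (nat_lit 0) .nil))))) (.g (nat_lit 0) .nil .nil))) 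
(.lf (nat_lit 71336) (.g (nat_lit 2796) (.e (nat_lit 1661) (nat_lit 115) (.e (nat_lit 393260) (nat_lit 21) (.e (nat_lit 409648) (nat_lit 18) (.e (nat_lit 303114) (nat_lit 1) (.e (nat_lit 164179) (nat_lit 154) (.e (nat_lit 57346) (nat_lit 0) (.e (nat_lit 6478) (nat_lit 343) .nil))))))) (.g (nat_lit 4) .nil .nil)))) (.nd (nat_lit 5) 
(.lf (nat_lit 71320) (.g (nat_lit 2508) (.e (nat_lit 1661) (nat_lit 115) (.e (nat_lit 393260) (nat_lit 21) (.e (nat_lit 409645) (nat_lit 18) (.e (nat_lit 303115) (nat_lit 1) (.e (nat_lit 164172) (nat_lit 153) (.e (nat_lit 8193) (nat_lit 0) (.e (nat_lit 5355) (nat_lit 298) .nil))))))) (.g (nat_lit 4) .nil .nil))) 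
(.lf (nat_lit 71352) (.g (nat_lit 886) (.e (nat_lit 1661) (nat_lit 115) (.e (nat_lit 393260) (nat_lit 21) (.e (nat_lit 409648) (nat_lit 18) (.e (nat_lit 311040) (nat_lit 25) .nil)))) .nil))))) (.nd (nat_lit 3) (.nd (nat_lit 4) (.nd (nat_lit 5) 
(.lf (nat_lit 71300) (.g (nat_lit 822) (.e (nat_lit 1661) (nat_lit 115) (.e (nat_lit 393260) (nat_lit 21) (.e (nat_lit 409631) (nat_lit 12) .nil))) .nil)) 
(.lf (nat_lit 71332) (.g (nat_lit 3061) (.e (nat_lit 1661) (nat_lit 115) (.e (nat_lit 393260) (nat_lit 21) (.e (nat_lit 409648) (nat_lit 18) (.e (nat_lit 303114) (nat_lit 1) (.e (nat_lit 164173) (nat_lit 153) (.e (nat_lit 8192) (nat_lit 0) (.e (nat_lit 5355) (nat_lit 298) .nil))))))) (.g (nat_lit 0) .nil .nil)))) (.nd (nat_lit 5) 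
(.lf (nat_lit 71316) (.g (nat_lit 700) (.e (nat_lit 1661) (nat_lit 115) (.e (nat_lit 393260) (nat_lit 21) (.e (nat_lit 409644) (nat_lit 18) .nil))) .nil)) 
(.lf (nat_lit 71348) (.g (nat_lit 3636) (.e (nat_lit 1661) (nat_lit 115) (.e (nat_lit 393260) (nat_lit 21) (.e (nat_lit 409648) (nat_lit 18) (.e (nat_lit 303149) (nat_lit 15) (.e (nat_lit 6207) (nat_lit 333) (.e (nat_lit 65280) (nat_lit 270) .nil)))))) (.g (nat_lit 5) .nil .nil))))) (.nd (nat_lit 4) (.nd (nat_lit 5) 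
(.lf (nat_lit 71308) (.g (nat_lit 3462) (.e (nat_lit 1661) (nat_lit 115) (.e (nat_lit 393260) (nat_lit 21) (.e (nat_lit 409643) (nat_lit 18) (.e (nat_lit 303115) (nat_lit 1) (.e (nat_lit 164179) (nat_lit 154) (.e (nat_lit 57346) (nat_lit 0) (.e (nat_lit 6453) (nat_lit 343) .nil))))))) (.g (nat_lit 5) .nil .nil))) 
(.lf (nat_lit 71340) (.g (nat_lit 2789) (.e (nat_lit 1661) (nat_lit 115) (.e (nat_lit 393260) (nat_lit 21) (.e (nat_lit 409648) (nat_lit 18) (.e (nat_lit 303115) (nat_lit 1) (.e (nat_lit 164179) (nat_lit 154) (.e (nat_lit 57346) (nat_lit 0) (.e (nat_lit 6456) (nat_lit 343) .nil))))))) (.g (nat_lit 4) .nil .nil)))) (.nd (nat_lit 5) 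
(.lf (nat_lit 71324) (.g (nat_lit 2656) (.e (nat_lit 1661) (nat_lit 115) (.e (nat_lit 393260) (nat_lit 21) (.e (nat_lit 409645) (nat_lit 18) (.e (nat_lit 303149) (nat_lit 15) (.e (nat_lit 6209) (nat_lit 333) (.e (nat_lit 57890) (nat_lit 270) .nil)))))) (.g (nat_lit 4) .nil .nil))) 
(.lf (nat_lit 71356) (.g (nat_lit 3136) (.e (nat_lit 1661) (nat_lit 115) (.e (nat_lit 393260) (nat_lit 21) (.e (nat_lit 409648) (nat_lit 18) (.e (nat_lit 303151) (nat_lit 27) (.e (nat_lit 335894) (nat_lit 0) (.e (nat_lit 974) (nat_lit 81) (.e (nat_lit 4761) (nat_lit 281) (.e (nat_lit 1085) (nat_lit 81) .nil)))))))) (.g (nat_lit 5) .nil .nil))))))) 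
(.nd (nat_lit 2) (.nd (nat_lit 3) (.nd (nat_lit 4) (.nd (nat_lit 5) 
(.lf (nat_lit 71298) (.g (nat_lit 1642) (.e (nat_lit 1661) (nat_lit 115) (.e (nat_lit 393260) (nat_lit 21) (.e (nat_lit 417536) (nat_lit 10) (.e (nat_lit 5362) (nat_lit 298) (.e (nat_lit 446) (nat_lit 33) (.e (nat_lit 442112) (nat_lit 0) .nil)))))) (.g (nat_lit 5) .nil .nil))) 
(.lf (nat_lit 71330) (.g (nat_lit 1802) (.e (nat_lit 1661) (nat_lit 115) (.e (nat_lit 393260) (nat_lit 21) (.e (nat_lit 409648) (nat_lit 18) (.e (nat_lit 303114) (nat_lit 1) (.e (nat_lit 164171) (nat_lit 153) (.e (nat_lit 8194) (nat_lit 0) (.e (nat_lit 5355) (nat_lit 298) .nil))))))) (.g (nat_lit 4) .nil .nil)))) (.nd (nat_lit 5) 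
(.lf (nat_lit 71314) (.g (nat_lit 3244) (.e (nat_lit 1661) (nat_lit 115) (.e (nat_lit 393260) (nat_lit 21) (.e (nat_lit 409643) (nat_lit 18) (.e (nat_lit 303149) (nat_lit 15) (.e (nat_lit 6216) (nat_lit 333) (.e (nat_lit 57891) (nat_lit 270) .nil)))))) (.g (nat_lit 0) .nil .nil))) 
(.lf (nat_lit 71346) (.g (nat_lit 2928) (.e (nat_lit 1661) (nat_lit 115) (.e (nat_lit 393260) (nat_lit 21) (.e (nat_lit 409648) (nat_lit 18) (.e (nat_lit 303147) (nat_lit 15) (.e (nat_lit 6223) (nat_lit 334) (.e (nat_lit 123209) (nat_lit 270) .nil)))))) (.g (nat_lit 4) .nil .nil))))) (.nd (nat_lit 4) (.nd (nat_lit 5) 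
(.lf (nat_lit 71306) (.g (nat_lit 2713) (.e (nat_lit 1661) (nat_lit 115) (.e (nat_lit 393260) (nat_lit 21) (.e (nat_lit 409642) (nat_lit 17) (.e (nat_lit 294973) (nat_lit 28) (.e (nat_lit 434181) (nat_lit 0) .nil))))) (.g (nat_lit 0) .nil .nil))) 
(.lf (nat_lit 71338) (.g (nat_lit 2003) (.e (nat_lit 1661) (nat_lit 115) (.e (nat_lit 393260) (nat_lit 21) (.e (nat_lit 409648) (nat_lit 18) (.e (nat_lit 303115) (nat_lit 1) (.e (nat_lit 164171) (nat_lit 153) (.e (nat_lit 8193) (nat_lit 0) (.e (nat_lit 5355) (nat_lit 298) .nil))))))) (.g (nat_lit 4) .nil .nil)))) (.nd (nat_lit 5) 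
(.lf (nat_lit 71322) (.g (nat_lit 3515) (.e (nat_lit 1661) (nat_lit 115) (.e (nat_lit 393260) (nat_lit 21) (.e (nat_lit 409645) (nat_lit 18) (.e (nat_lit 303115) (nat_lit 1) (.e (nat_lit 164179) (nat_lit 154) (.e (nat_lit 57346) (nat_lit 0) (.e (nat_lit 6453) (nat_lit 343) .nil))))))) (.g (nat_lit 4) .nil .nil))) 
(.lf (nat_lit 71354) (.g (nat_lit 3181) (.e (nat_lit 1661) (nat_lit 115) (.e (nat_lit 393260) (nat_lit 21) (.e (nat_lit 409648) (nat_lit 18) (.e (nat_lit 303151) (nat_lit 27) (.e (nat_lit 335894) (nat_lit 0) (.e (nat_lit 974) (nat_lit 81) (.e (nat_lit 4761) (nat_lit 281) (.e (nat_lit 1059) (nat_lit 81) .nil)))))))) (.g (nat_lit 5) .nil .nil)))))) (.nd (nat_lit 3) (.nd (nat_lit 4) (.nd (nat_lit 5) 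
(.lf (nat_lit 71302) (.g (nat_lit 1107) (.e (nat_lit 1661) (nat_lit 115) (.e (nat_lit 393260) (nat_lit 21) (.e (nat_lit 409639) (nat_lit 15) .nil))) .nil)) 
(.lf (nat_lit 71334) (.g (nat_lit 3041) (.e (nat_lit 1661) (nat_lit 115) (.e (nat_lit 393260) (nat_lit 21) (.e (nat_lit 409648) (nat_lit 18) (.e (nat_lit 303114) (nat_lit 1) (.e (nat_lit 164174) (nat_lit 153) (.e (nat_lit 8193) (nat_lit 0) (.e (nat_lit 5355) (nat_lit 298) .nil))))))) (.g (nat_lit 0) .nil .nil)))) (.nd (nat_lit 5) 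
(.lf (nat_lit 71318) (.g (nat_lit 2079) (.e (nat_lit 1661) (nat_lit 115) (.e (nat_lit 393260) (nat_lit 21) (.e (nat_lit 409645) (nat_lit 18) (.e (nat_lit 303112) (nat_lit 0) (.e (nat_lit 2478) (nat_lit 157) .nil))))) .nil)) 
(.lf (nat_lit 71350) (.g (nat_lit 3601) (.e (nat_lit 1661) (nat_lit 115) (.e (nat_lit 393260) (nat_lit 21) (.e (nat_lit 409648) (nat_lit 18) (.e (nat_lit 303149) (nat_lit 15) (.e (nat_lit 6209) (nat_lit 333) (.e (nat_lit 65280) (nat_lit 270) .nil)))))) (.g (nat_lit 5) .nil .nil))))) (.nd (nat_lit 4) (.nd (nat_lit 5) 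
(.lf (nat_lit 71310) (.g (nat_lit 2254) (.e (nat_lit 1661) (nat_lit 115) (.e (nat_lit 393260) (nat_lit 21) (.e (nat_lit 409643) (nat_lit 18) (.e (nat_lit 303115) (nat_lit 1) (.e (nat_lit 164179) (nat_lit 154) (.e (nat_lit 57346) (nat_lit 0) (.e (nat_lit 6496) (nat_lit 343) .nil))))))) (.g (nat_lit 4) .nil .nil))) 
(.lf (nat_lit 71342) (.g (nat_lit 2867) (.e (nat_lit 1661) (nat_lit 115) (.e (nat_lit 393260) (nat_lit 21) (.e (nat_lit 409648) (nat_lit 18) (.e (nat_lit 303115) (nat_lit 1) (.e (nat_lit 164179) (nat_lit 154) (.e (nat_lit 57346) (nat_lit 0) (.e (nat_lit 6496) (nat_lit 343) .nil))))))) (.g (nat_lit 5) .nil .nil)))) (.nd (nat_lit 5) 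
(.lf (nat_lit 71326) (.g (nat_lit 2728) (.e (nat_lit 1661) (nat_lit 115) (.e (nat_lit 393260) (nat_lit 21) (.e (nat_lit 409645) (nat_lit 18) (.e (nat_lit 303149) (nat_lit 15) (.e (nat_lit 6217) (nat_lit 333) (.e (nat_lit 57890) (nat_lit 270) .nil)))))) (.g (nat_lit 4) .nil .nil))) 
(.lf (nat_lit 71358) (.g (nat_lit 2620) (.e (nat_lit 1661) (nat_lit 115) (.e (nat_lit 393260) (nat_lit 21) (.e (nat_lit 409648) (nat_lit 18) (.e (nat_lit 303151) (nat_lit 27) (.e (nat_lit 335894) (nat_lit 0) (.e (nat_lit 974) (nat_lit 81) (.e (nat_lit 4823) (nat_lit 281) (.e (nat_lit 1057) (nat_lit 81) .nil)))))))) (.g (nat_lit 4) .nil .nil)))))))) 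
(.nd (nat_lit 1) (.nd (nat_lit 2) (.nd (nat_lit 3) (.nd (nat_lit 4) (.nd (nat_lit 5) 
(.lf (nat_lit 71297) (.g (nat_lit 2456) (.e (nat_lit 1661) (nat_lit 115) (.e (nat_lit 393260) (nat_lit 21) (.e (nat_lit 409625) (nat_lit 10) (.e (nat_lit 5264) (nat_lit 298) (.e (nat_lit 447) (nat_lit 33) (.e (nat_lit 442112) (nat_lit 0) .nil)))))) (.g (nat_lit 4) .nil .nil))) 
(.lf (nat_lit 71329) (.g (nat_lit 1082) (.e (nat_lit 1661) (nat_lit 115) (.e (nat_lit 393260) (nat_lit 21) (.e (nat_lit 409648) (nat_lit 18) (.e (nat_lit 303108) (nat_lit 0) .nil)))) .nil))) (.nd (nat_lit 5) 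
(.lf (nat_lit 71313) (.g (nat_lit 2724) (.e (nat_lit 1661) (nat_lit 115) (.e (nat_lit 393260) (nat_lit 21) (.e (nat_lit 409643) (nat_lit 18) (.e (nat_lit 303149) (nat_lit 15) (.e (nat_lit 6209) (nat_lit 333) (.e (nat_lit 65280) (nat_lit 270) .nil)))))) (.g (nat_lit 5) .nil .nil))) 
(.lf (nat_lit 71345) (.g (nat_lit 3138) (.e (nat_lit 1661) (nat_lit 115) (.e (nat_lit 393260) (nat_lit 21) (.e (nat_lit 409648) (nat_lit 18) (.e (nat_lit 303147) (nat_lit 15) (.e (nat_lit 6223) (nat_lit 334) (.e (nat_lit 123207) (nat_lit 270) .nil)))))) (.g (nat_lit 4) .nil .nil))))) (.nd (nat_lit 4) (.nd (nat_lit 5) 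
(.lf (nat_lit 71305) (.g (nat_lit 1346) (.e (nat_lit 1661) (nat_lit 115) (.e (nat_lit 393260) (nat_lit 21) (.e (nat_lit 409641) (nat_lit 17) (.e (nat_lit 302848) (nat_lit 28) .nil)))) .nil)) 
(.lf (nat_lit 71337) (.g (nat_lit 1767) (.e (nat_lit 1661) (nat_lit 115) (.e (nat_lit 393260) (nat_lit 21) (.e (nat_lit 409648) (nat_lit 18) (.e (nat_lit 303115) (nat_lit 1) (.e (nat_lit 164171) (nat_lit 153) (.e (nat_lit 8192) (nat_lit 0) (.e (nat_lit 5355) (nat_lit 298) .nil))))))) (.g (nat_lit 4) .nil .nil)))) (.nd (nat_lit 5) 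
(.lf (nat_lit 71321) (.g (nat_lit 2086) (.e (nat_lit 1661) (nat_lit 115) (.e (nat_lit 393260) (nat_lit 21) (.e (nat_lit 409645) (nat_lit 18) (.e (nat_lit 303115) (nat_lit 1) (.e (nat_lit 164179) (nat_lit 154) .nil))))) .nil)) 
(.lf (nat_lit 71353) (.g (nat_lit 850) (.e (nat_lit 1661) (nat_lit 115) (.e (nat_lit 393260) (nat_lit 21) (.e (nat_lit 409648) (nat_lit 18) (.e (nat_lit 303151) (nat_lit 27) .nil)))) .nil))))) (.nd (nat_lit 3) (.nd (nat_lit 4) (.nd (nat_lit 5) 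
(.lf (nat_lit 71301) (.g (nat_lit 1197) (.e (nat_lit 1661) (nat_lit 115) (.e (nat_lit 393260) (nat_lit 21) (.e (nat_lit 409631) (nat_lit 12) (.e (nat_lit 32805) (nat_lit 17) .nil)))) .nil)) 
(.lf (nat_lit 71333) (.g (nat_lit 3140) (.e (nat_lit 1661) (nat_lit 115) (.e (nat_lit 393260) (nat_lit 21) (.e (nat_lit 409648) (nat_lit 18) (.e (nat_lit 303114) (nat_lit 1) (.e (nat_lit 164174) (nat_lit 153) (.e (nat_lit 8192) (nat_lit 0) (.e (nat_lit 5355) (nat_lit 298) .nil))))))) (.g (nat_lit 0) .nil .nil)))) (.nd (nat_lit 5) 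
(.lf (nat_lit 71317) (.g (nat_lit 1341) (.e (nat_lit 1661) (nat_lit 115) (.e (nat_lit 393260) (nat_lit 21) (.e (nat_lit 409644) (nat_lit 18) (.e (nat_lit 303154) (nat_lit 28) .nil)))) .nil)) 
(.lf (nat_lit 71349) (.g (nat_lit 3313) (.e (nat_lit 1661) (nat_lit 115) (.e (nat_lit 393260) (nat_lit 21) (.e (nat_lit 409648) (nat_lit 18) (.e (nat_lit 303149) (nat_lit 15) (.e (nat_lit 6209) (nat_lit 333) (.e (nat_lit 57890) (nat_lit 270) .nil)))))) (.g (nat_lit 0) .nil .nil))))) (.nd (nat_lit 4) (.nd (nat_lit 5) 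
(.lf (nat_lit 71309) (.g (nat_lit 3288) (.e (nat_lit 1661) (nat_lit 115) (.e (nat_lit 393260) (nat_lit 21) (.e (nat_lit 409643) (nat_lit 18) (.e (nat_lit 303115) (nat_lit 1) (.e (nat_lit 164179) (nat_lit 154) (.e (nat_lit 57346) (nat_lit 0) (.e (nat_lit 6478) (nat_lit 343) .nil))))))) (.g (nat_lit 5) .nil .nil))) 
(.lf (nat_lit 71341) (.g (nat_lit 3902) (.e (nat_lit 1661) (nat_lit 115) (.e (nat_lit 393260) (nat_lit 21) (.e (nat_lit 409648) (nat_lit 18) (.e (nat_lit 303115) (nat_lit 1) (.e (nat_lit 164179) (nat_lit 154) (.e (nat_lit 57346) (nat_lit 0) (.e (nat_lit 6478) (nat_lit 343) .nil))))))) (.g (nat_lit 6) .nil .nil)))) (.nd (nat_lit 5) 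
(.lf (nat_lit 71325) (.g (nat_lit 3178) (.e (nat_lit 1661) (nat_lit 115) (.e (nat_lit 393260) (nat_lit 21) (.e (nat_lit 409645) (nat_lit 18) (.e (nat_lit 303149) (nat_lit 15) (.e (nat_lit 6216) (nat_lit 333) (.e (nat_lit 57891) (nat_lit 270) .nil)))))) (.g (nat_lit 5) .nil .nil))) 
(.lf (nat_lit 71357) (.g (nat_lit 3401) (.e (nat_lit 1661) (nat_lit 115) (.e (nat_lit 393260) (nat_lit 21) (.e (nat_lit 409648) (nat_lit 18) (.e (nat_lit 303151) (nat_lit 27) (.e (nat_lit 335894) (nat_lit 0) (.e (nat_lit 974) (nat_lit 81) (.e (nat_lit 4761) (nat_lit 281) (.e (nat_lit 1087) (nat_lit 81) .nil)))))))) (.g (nat_lit 5) .nil .nil))))))) 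
(.nd (nat_lit 2) (.nd (nat_lit 3) (.nd (nat_lit 4) (.nd (nat_lit 5) 
(.lf (nat_lit 71299) (.g (nat_lit 1093) (.e (nat_lit 1661) (nat_lit 115) (.e (nat_lit 393260) (nat_lit 21) (.e (nat_lit 409629) (nat_lit 12) .nil))) .nil)) 
(.lf (nat_lit 71331) (.g (nat_lit 3007) (.e (nat_lit 1661) (nat_lit 115) (.e (nat_lit 393260) (nat_lit 21) (.e (nat_lit 409648) (nat_lit 18) (.e (nat_lit 303114) (nat_lit 1) (.e (nat_lit 164172) (nat_lit 153) (.e (nat_lit 8193) (nat_lit 0) (.e (nat_lit 5355) (nat_lit 298) .nil))))))) (.g (nat_lit 0) .nil .nil)))) (.nd (nat_lit 5) 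
(.lf (nat_lit 71315) (.g (nat_lit 2723) (.e (nat_lit 1661) (nat_lit 115) (.e (nat_lit 393260) (nat_lit 21) (.e (nat_lit 409643) (nat_lit 18) (.e (nat_lit 303149) (nat_lit 15) (.e (nat_lit 6217) (nat_lit 333) (.e (nat_lit 57890) (nat_lit 270) .nil)))))) (.g (nat_lit 6) .nil .nil))) 
(.lf (nat_lit 71347) (.g (nat_lit 2827) (.e (nat_lit 1661) (nat_lit 115) (.e (nat_lit 393260) (nat_lit 21) (.e (nat_lit 409648) (nat_lit 18) (.e (nat_lit 303149) (nat_lit 15) (.e (nat_lit 6207) (nat_lit 333) (.e (nat_lit 57891) (nat_lit 270) .nil)))))) (.g (nat_lit 5) .nil .nil))))) (.nd (nat_lit 4) (.nd (nat_lit 5) 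
(.lf (nat_lit 71307) (.g (nat_lit 166) (.e (nat_lit 1661) (nat_lit 115) (.e (nat_lit 393260) (nat_lit 21) (.e (nat_lit 409643) (nat_lit 18) .nil))) .nil)) 
(.lf (nat_lit 71339) (.g (nat_lit 4036) (.e (nat_lit 1661) (nat_lit 115) (.e (nat_lit 393260) (nat_lit 21) (.e (nat_lit 409648) (nat_lit 18) (.e (nat_lit 303115) (nat_lit 1) (.e (nat_lit 164179) (nat_lit 154) (.e (nat_lit 57346) (nat_lit 0) (.e (nat_lit 6453) (nat_lit 343) .nil))))))) (.g (nat_lit 6) .nil .nil)))) (.nd (nat_lit 5) 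
(.lf (nat_lit 71323) (.g (nat_lit 3360) (.e (nat_lit 1661) (nat_lit 115) (.e (nat_lit 393260) (nat_lit 21) (.e (nat_lit 409645) (nat_lit 18) (.e (nat_lit 303115) (nat_lit 1) (.e (nat_lit 164179) (nat_lit 154) (.e (nat_lit 57346) (nat_lit 0) (.e (nat_lit 6478) (nat_lit 343) .nil))))))) (.g (nat_lit 4) .nil .nil))) 
(.lf (nat_lit 71355) (.g (nat_lit 3620) (.e (nat_lit 1661) (nat_lit 115) (.e (nat_lit 393260) (nat_lit 21) (.e (nat_lit 409648) (nat_lit 18) (.e (nat_lit 303151) (nat_lit 27) (.e (nat_lit 335894) (nat_lit 0) (.e (nat_lit 974) (nat_lit 81) (.e (nat_lit 4761) (nat_lit 281) (.e (nat_lit 1083) (nat_lit 81) .nil)))))))) (.g (nat_lit 5) .nil .nil)))))) (.nd (nat_lit 3) (.nd (nat_lit 4) (.nd (nat_lit 5) 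
(.lf (nat_lit 71303) (.g (nat_lit 2617) (.e (nat_lit 1661) (nat_lit 115) (.e (nat_lit 393260) (nat_lit 21) (.e (nat_lit 409640) (nat_lit 17) (.e (nat_lit 294973) (nat_lit 28) (.e (nat_lit 434181) (nat_lit 0) .nil))))) (.g (nat_lit 0) .nil .nil))) 
(.lf (nat_lit 71335) (.g (nat_lit 2930) (.e (nat_lit 1661) (nat_lit 115) (.e (nat_lit 393260) (nat_lit 21) (.e (nat_lit 409648) (nat_lit 18) (.e (nat_lit 303114) (nat_lit 1) (.e (nat_lit 164179) (nat_lit 154) (.e (nat_lit 57346) (nat_lit 0) (.e (nat_lit 6453) (nat_lit 343) .nil))))))) (.g (nat_lit 5) .nil .nil)))) (.nd (nat_lit 5) 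
(.lf (nat_lit 71319) (.g (nat_lit 1136) (.e (nat_lit 1661) (nat_lit 115) (.e (nat_lit 393260) (nat_lit 21) (.e (nat_lit 409645) (nat_lit 18) (.e (nat_lit 303115) (nat_lit 1) .nil)))) .nil)) 
(.lf (nat_lit 71351) (.g (nat_lit 2700) (.e (nat_lit 1661) (nat_lit 115) (.e (nat_lit 393260) (nat_lit 21) (.e (nat_lit 409648) (nat_lit 18) (.e (nat_lit 303149) (nat_lit 15) (.e (nat_lit 6216) (nat_lit 333) (.e (nat_lit 57890) (nat_lit 270) .nil)))))) (.g (nat_lit 5) .nil .nil))))) (.nd (nat_lit 4) (.nd (nat_lit 5) 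
(.lf (nat_lit 71311) (.g (nat_lit 2875) (.e (nat_lit 1661) (nat_lit 115) (.e (nat_lit 393260) (nat_lit 21) (.e (nat_lit 409643) (nat_lit 18) (.e (nat_lit 303149) (nat_lit 15) (.e (nat_lit 6207) (nat_lit 333) (.e (nat_lit 65280) (nat_lit 270) .nil)))))) (.g (nat_lit 5) .nil .nil))) 
(.lf (nat_lit 71343) (.g (nat_lit 840) (.e (nat_lit 1661) (nat_lit 115) (.e (nat_lit 393260) (nat_lit 21) (.e (nat_lit 409648) (nat_lit 18) (.e (nat_lit 303122) (nat_lit 6) .nil)))) .nil))) (.nd (nat_lit 5) 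
(.lf (nat_lit 71327) (.g (nat_lit 1111) (.e (nat_lit 1661) (nat_lit 115) (.e (nat_lit 393260) (nat_lit 21) (.e (nat_lit 409646) (nat_lit 18) (.e (nat_lit 311040) (nat_lit 25) .nil)))) .nil)) 
(.lf (nat_lit 71359) (.g (nat_lit 3372) (.e (nat_lit 1661) (nat_lit 115) (.e (nat_lit 393260) (nat_lit 21) (.e (nat_lit 409648) (nat_lit 18) (.e (nat_lit 303151) (nat_lit 27) (.e (nat_lit 335894) (nat_lit 0) (.e (nat_lit 974) (nat_lit 81) (.e (nat_lit 4824) (nat_lit 281) (.e (nat_lit 1057) (nat_lit 81) .nil)))))))) (.g (nat_lit 5) .nil .nil)))))))))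

noncomputable def tv975 : DT := (.nd (nat_lit 0) (.nd (nat_lit 1) (.nd (nat_lit 2) (.nd (nat_lit 3) (.nd (nat_lit 4) (.nd (nat_lit 5) 
(.lf (nat_lit 71360) (.g (nat_lit 2692) (.e (nat_lit 1661) (nat_lit 115) (.e (nat_lit 393260) (nat_lit 21) (.e (nat_lit 409648) (nat_lit 18) (.e (nat_lit 303151) (nat_lit 27) (.e (nat_lit 335894) (nat_lit 0) (.e (nat_lit 974) (nat_lit 81) (.e (nat_lit 4824) (nat_lit 281) (.e (nat_lit 1060) (nat_lit 81) .nil)))))))) (.g (nat_lit 4) .nil .nil))) 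
(.lf (nat_lit 71392) (.g (nat_lit 2615) (.e (nat_lit 1661) (nat_lit 115) (.e (nat_lit 393260) (nat_lit 21) (.e (nat_lit 409649) (nat_lit 18) (.e (nat_lit 303115) (nat_lit 1) (.e (nat_lit 164172) (nat_lit 153) (.e (nat_lit 8200) (nat_lit 0) (.e (nat_lit 5369) (nat_lit 298) .nil))))))) (.g (nat_lit 4) .nil .nil)))) (.nd (nat_lit 5) 
(.lf (nat_lit 71376) (.g (nat_lit 3012) (.e (nat_lit 1661) (nat_lit 115) (.e (nat_lit 393260) (nat_lit 21) (.e (nat_lit 409648) (nat_lit 18) (.e (nat_lit 303154) (nat_lit 28) (.e (nat_lit 344096) (nat_lit 18) (.e (nat_lit 4761) (nat_lit 281) (.e (nat_lit 1059) (nat_lit 81) .nil))))))) (.g (nat_lit 4) .nil .nil))) 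
(.lf (nat_lit 71408) (.g (nat_lit 3925) (.e (nat_lit 1661) (nat_lit 115) (.e (nat_lit 393260) (nat_lit 21) (.e (nat_lit 409649) (nat_lit 18) (.e (nat_lit 303151) (nat_lit 27) (.e (nat_lit 335894) (nat_lit 0) (.e (nat_lit 974) (nat_lit 81) (.e (nat_lit 4761) (nat_lit 281) (.e (nat_lit 1059) (nat_lit 81) .nil)))))))) (.g (nat_lit 5) .nil .nil))))) (.nd (nat_lit 4) (.nd (nat_lit 5) 
(.lf (nat_lit 71368) (.g (nat_lit 3360) (.e (nat_lit 1661) (nat_lit 115) (.e (nat_lit 393260) (nat_lit 21) (.e (nat_lit 409648) (nat_lit 18) (.e (nat_lit 303151) (nat_lit 27) (.e (nat_lit 335894) (nat_lit 0) (.e (nat_lit 974) (nat_lit 81) (.e (nat_lit 4830) (nat_lit 281) (.e (nat_lit 1057) (nat_lit 81) .nil)))))))) (.g (nat_lit 5) .nil .nil))) 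
(.lf (nat_lit 71400) (.g (nat_lit 3247) (.e (nat_lit 1661) (nat_lit 115) (.e (nat_lit 393260) (nat_lit 21) (.e (nat_lit 409649) (nat_lit 18) (.e (nat_lit 303115) (nat_lit 1) (.e (nat_lit 164179) (nat_lit 154) (.e (nat_lit 57346) (nat_lit 0) (.e (nat_lit 6496) (nat_lit 343) .nil))))))) (.g (nat_lit 5) .nil .nil)))) (.nd (nat_lit 5) 
(.lf (nat_lit 71384) (.g (nat_lit 911) (.e (nat_lit 1661) (nat_lit 115) (.e (nat_lit 393260) (nat_lit 21) (.e (nat_lit 409649) (nat_lit 18) (.e (nat_lit 303111) (nat_lit 0) .nil)))) .nil)) 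
(.lf (nat_lit 71416) (.g (nat_lit 3576) (.e (nat_lit 1661) (nat_lit 115) (.e (nat_lit 393260) (nat_lit 21) (.e (nat_lit 409649) (nat_lit 18) (.e (nat_lit 303151) (nat_lit 27) (.e (nat_lit 335894) (nat_lit 0) (.e (nat_lit 974) (nat_lit 81) (.e (nat_lit 4824) (nat_lit 281) (.e (nat_lit 1084) (nat_lit 81) .nil)))))))) (.g (nat_lit 5) .nil .nil)))))) (.nd (nat_lit 3) (.nd (nat_lit 4) (.nd (nat_lit 5) 
(.lf (nat_lit 71364) (.g (nat_lit 3125) (.e (nat_lit 1661) (nat_lit 115) (.e (nat_lit 393260) (nat_lit 21) (.e (nat_lit 409648) (nat_lit 18) (.e (nat_lit 303151) (nat_lit 27) (.e (nat_lit 335894) (nat_lit 0) (.e (nat_lit 974) (nat_lit 81) (.e (nat_lit 4825) (nat_lit 281) (.e (nat_lit 1082) (nat_lit 81) .nil)))))))) (.g (nat_lit 5) .nil .nil))) 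
(.lf (nat_lit 71396) (.g (nat_lit 2810) (.e (nat_lit 1661) (nat_lit 115) (.e (nat_lit 393260) (nat_lit 21) (.e (nat_lit 409649) (nat_lit 18) (.e (nat_lit 303115) (nat_lit 1) (.e (nat_lit 164178) (nat_lit 154) (.e (nat_lit 57348) (nat_lit 0) (.e (nat_lit 6450) (nat_lit 343) .nil))))))) (.g (nat_lit 4) .nil .nil)))) (.nd (nat_lit 5) 
(.lf (nat_lit 71380) (.g (nat_lit 3160) (.e (nat_lit 1661) (nat_lit 115) (.e (nat_lit 393260) (nat_lit 21) (.e (nat_lit 409648) (nat_lit 18) (.e (nat_lit 303154) (nat_lit 28) (.e (nat_lit 344096) (nat_lit 18) (.e (nat_lit 4764) (nat_lit 281) (.e (nat_lit 1060) (nat_lit 81) .nil))))))) (.g (nat_lit 5) .nil .nil))) 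
(.lf (nat_lit 71412) (.g (nat_lit 3541) (.e (nat_lit 1661) (nat_lit 115) (.e (nat_lit 393260) (nat_lit 21) (.e (nat_lit 409649) (nat_lit 18) (.e (nat_lit 303151) (nat_lit 27) (.e (nat_lit 335894) (nat_lit 0) (.e (nat_lit 974) (nat_lit 81) (.e (nat_lit 4823) (nat_lit 281) (.e (nat_lit 1057) (nat_lit 81) .nil)))))))) (.g (nat_lit 5) .nil .nil))))) (.nd (nat_lit 4) (.nd (nat_lit 5) 
(.lf (nat_lit 71372) (.g (nat_lit 2925) (.e (nat_lit 1661) (nat_lit 115) (.e (nat_lit 393260) (nat_lit 21) (.e (nat_lit 409648) (nat_lit 18) (.e (nat_lit 303151) (nat_lit 27) (.e (nat_lit 335894) (nat_lit 0) (.e (nat_lit 981) (nat_lit 81) (.e (nat_lit 4803) (nat_lit 281) (.e (nat_lit 1086) (nat_lit 81) .nil)))))))) (.g (nat_lit 5) .nil .nil))) 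
(.lf (nat_lit 71404) (.g (nat_lit 2812) (.e (nat_lit 1661) (nat_lit 115) (.e (nat_lit 393260) (nat_lit 21) (.e (nat_lit 409649) (nat_lit 18) (.e (nat_lit 303149) (nat_lit 15) (.e (nat_lit 6216) (nat_lit 333) (.e (nat_lit 57890) (nat_lit 270) .nil)))))) (.g (nat_lit 5) .nil .nil)))) (.nd (nat_lit 5) 
(.lf (nat_lit 71388) (.g (nat_lit 894) (.e (nat_lit 1661) (nat_lit 115) (.e (nat_lit 393260) (nat_lit 21) (.e (nat_lit 409649) (nat_lit 18) (.e (nat_lit 303114) (nat_lit 1) .nil)))) .nil)) 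
(.lf (nat_lit 71420) (.g (nat_lit 3709) (.e (nat_lit 1661) (nat_lit 115) (.e (nat_lit 393260) (nat_lit 21) (.e (nat_lit 409649) (nat_lit 18) (.e (nat_lit 303151) (nat_lit 27) (.e (nat_lit 335894) (nat_lit 0) (.e (nat_lit 974) (nat_lit 81) (.e (nat_lit 4825) (nat_lit 281) (.e (nat_lit 1084) (nat_lit 81) .nil)))))))) (.g (nat_lit 5) .nil .nil))))))) 
(.nd (nat_lit 2) (.nd (nat_lit 3) (.nd (nat_lit 4) (.nd (nat_lit 5) 
(.lf (nat_lit 71362) (.g (nat_lit 3511) (.e (nat_lit 1661) (nat_lit 115) (.e (nat_lit 393260) (nat_lit 21) (.e (nat_lit 409648) (nat_lit 18) (.e (nat_lit 303151) (nat_lit 27) (.e (nat_lit 335894) (nat_lit 0) (.e (nat_lit 974) (nat_lit 81) (.e (nat_lit 4825) (nat_lit 281) (.e (nat_lit 1057) (nat_lit 81) .nil)))))))) (.g (nat_lit 5) .nil .nil))) 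
(.lf (nat_lit 71394) (.g (nat_lit 3411) (.e (nat_lit 1661) (nat_lit 115) (.e (nat_lit 393260) (nat_lit 21) (.e (nat_lit 409649) (nat_lit 18) (.e (nat_lit 303115) (nat_lit 1) (.e (nat_lit 164175) (nat_lit 153) (.e (nat_lit 8192) (nat_lit 0) (.e (nat_lit 5355) (nat_lit 298) .nil))))))) (.g (nat_lit 0) .nil .nil)))) (.nd (nat_lit 5) 
(.lf (nat_lit 71378) (.g (nat_lit 3232) (.e (nat_lit 1661) (nat_lit 115) (.e (nat_lit 393260) (nat_lit 21) (.e (nat_lit 409648) (nat_lit 18) (.e (nat_lit 303154) (nat_lit 28) (.e (nat_lit 344096) (nat_lit 18) (.e (nat_lit 4761) (nat_lit 281) (.e (nat_lit 1087) (nat_lit 81) .nil))))))) (.g (nat_lit 5) .nil .nil))) 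
(.lf (nat_lit 71410) (.g (nat_lit 3790) (.e (nat_lit 1661) (nat_lit 115) (.e (nat_lit 393260) (nat_lit 21) (.e (nat_lit 409649) (nat_lit 18) (.e (nat_lit 303151) (nat_lit 27) (.e (nat_lit 335894) (nat_lit 0) (.e (nat_lit 974) (nat_lit 81) (.e (nat_lit 4761) (nat_lit 281) (.e (nat_lit 1085) (nat_lit 81) .nil)))))))) (.g (nat_lit 5) .nil .nil))))) (.nd (nat_lit 4) (.nd (nat_lit 5) 
(.lf (nat_lit 71370) (.g (nat_lit 3001) (.e (nat_lit 1661) (nat_lit 115) (.e (nat_lit 393260) (nat_lit 21) (.e (nat_lit 409648) (nat_lit 18) (.e (nat_lit 303151) (nat_lit 27) (.e (nat_lit 335894) (nat_lit 0) (.e (nat_lit 974) (nat_lit 81) (.e (nat_lit 4830) (nat_lit 281) (.e (nat_lit 1082) (nat_lit 81) .nil)))))))) (.g (nat_lit 5) .nil .nil))) 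
(.lf (nat_lit 71402) (.g (nat_lit 3984) (.e (nat_lit 1661) (nat_lit 115) (.e (nat_lit 393260) (nat_lit 21) (.e (nat_lit 409649) (nat_lit 18) (.e (nat_lit 303149) (nat_lit 15) (.e (nat_lit 6207) (nat_lit 333) (.e (nat_lit 65280) (nat_lit 270) .nil)))))) (.g (nat_lit 5) .nil .nil)))) (.nd (nat_lit 5) 
(.lf (nat_lit 71386) (.g (nat_lit 3231) (.e (nat_lit 1661) (nat_lit 115) (.e (nat_lit 393260) (nat_lit 21) (.e (nat_lit 409649) (nat_lit 18) (.e (nat_lit 303111) (nat_lit 0) (.e (nat_lit 3459) (nat_lit 216) (.e (nat_lit 688129) (nat_lit 0) (.e (nat_lit 2416) (nat_lit 157) (.e (nat_lit 5355) (nat_lit 298) .nil)))))))) (.g (nat_lit 5) .nil .nil))) 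
(.lf (nat_lit 71418) (.g (nat_lit 3901) (.e (nat_lit 1661) (nat_lit 115) (.e (nat_lit 393260) (nat_lit 21) (.e (nat_lit 409649) (nat_lit 18) (.e (nat_lit 303151) (nat_lit 27) (.e (nat_lit 335894) (nat_lit 0) (.e (nat_lit 974) (nat_lit 81) (.e (nat_lit 4825) (nat_lit 281) (.e (nat_lit 1060) (nat_lit 81) .nil)))))))) (.g (nat_lit 5) .nil .nil)))))) (.nd (nat_lit 3) (.nd (nat_lit 4) (.nd (nat_lit 5) 
(.lf (nat_lit 71366) (.g (nat_lit 3316) (.e (nat_lit 1661) (nat_lit 115) (.e (nat_lit 393260) (nat_lit 21) (.e (nat_lit 409648) (nat_lit 18) (.e (nat_lit 303151) (nat_lit 27) (.e (nat_lit 335894) (nat_lit 0) (.e (nat_lit 974) (nat_lit 81) (.e (nat_lit 4829) (nat_lit 281) (.e (nat_lit 1057) (nat_lit 81) .nil)))))))) (.g (nat_lit 5) .nil .nil))) 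
(.lf (nat_lit 71398) (.g (nat_lit 3169) (.e (nat_lit 1661) (nat_lit 115) (.e (nat_lit 393260) (nat_lit 21) (.e (nat_lit 409649) (nat_lit 18) (.e (nat_lit 303115) (nat_lit 1) (.e (nat_lit 164179) (nat_lit 154) (.e (nat_lit 57346) (nat_lit 0) (.e (nat_lit 6456) (nat_lit 343) .nil))))))) (.g (nat_lit 4) .nil .nil)))) (.nd (nat_lit 5) 
(.lf (nat_lit 71382) (.g (nat_lit 1392) (.e (nat_lit 1661) (nat_lit 115) (.e (nat_lit 393260) (nat_lit 21) (.e (nat_lit 409649) (nat_lit 18) (.e (nat_lit 303104) (nat_lit 0) .nil)))) .nil)) 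
(.lf (nat_lit 71414) (.g (nat_lit 3606) (.e (nat_lit 1661) (nat_lit 115) (.e (nat_lit 393260) (nat_lit 21) (.e (nat_lit 409649) (nat_lit 18) (.e (nat_lit 303151) (nat_lit 27) (.e (nat_lit 335894) (nat_lit 0) (.e (nat_lit 974) (nat_lit 81) (.e (nat_lit 4824) (nat_lit 281) (.e (nat_lit 1060) (nat_lit 81) .nil)))))))) (.g (nat_lit 5) .nil .nil))))) (.nd (nat_lit 4) (.nd (nat_lit 5) 
(.lf (nat_lit 71374) (.g (nat_lit 2762) (.e (nat_lit 1661) (nat_lit 115) (.e (nat_lit 393260) (nat_lit 21) (.e (nat_lit 409648) (nat_lit 18) (.e (nat_lit 303151) (nat_lit 27) (.e (nat_lit 335894) (nat_lit 0) (.e (nat_lit 1935) (nat_lit 132) (.e (nat_lit 622608) (nat_lit 5) .nil))))))) (.g (nat_lit 5) .nil .nil))) 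
(.lf (nat_lit 71406) (.g (nat_lit 3728) (.e (nat_lit 1661) (nat_lit 115) (.e (nat_lit 393260) (nat_lit 21) (.e (nat_lit 409649) (nat_lit 18) (.e (nat_lit 303151) (nat_lit 27) (.e (nat_lit 335894) (nat_lit 0) (.e (nat_lit 969) (nat_lit 81) (.e (nat_lit 4751) (nat_lit 281) (.e (nat_lit 1083) (nat_lit 81) .nil)))))))) (.g (nat_lit 5) .nil .nil)))) (.nd (nat_lit 5) 
(.lf (nat_lit 71390) (.g (nat_lit 2204) (.e (nat_lit 1661) (nat_lit 115) (.e (nat_lit 393260) (nat_lit 21) (.e (nat_lit 409649) (nat_lit 18) (.e (nat_lit 303115) (nat_lit 1) (.e (nat_lit 164171) (nat_lit 153) (.e (nat_lit 8192) (nat_lit 0) (.e (nat_lit 5355) (nat_lit 298) .nil))))))) (.g (nat_lit 4) .nil .nil))) 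
(.lf (nat_lit 71422) (.g (nat_lit 3666) (.e (nat_lit 1661) (nat_lit 115) (.e (nat_lit 393260) (nat_lit 21) (.e (nat_lit 409649) (nat_lit 18) (.e (nat_lit 303151) (nat_lit 27) (.e (nat_lit 335894) (nat_lit 0) (.e (nat_lit 974) (nat_lit 81) (.e (nat_lit 4829) (nat_lit 281) (.e (nat_lit 1060) (nat_lit 81) .nil)))))))) (.g (nat_lit 5) .nil .nil)))))))) 
(.nd (nat_lit 1) (.nd (nat_lit 2) (.nd (nat_lit 3) (.nd (nat_lit 4) (.nd (nat_lit 5) 
(.lf (nat_lit 71361) (.g (nat_lit 3003) (.e (nat_lit 1661) (nat_lit 115) (.e (nat_lit 393260) (nat_lit 21) (.e (nat_lit 409648) (nat_lit 18) (.e (nat_lit 303151) (nat_lit 27) (.e (nat_lit 335894) (nat_lit 0) (.e (nat_lit 974) (nat_lit 81) (.e (nat_lit 4824) (nat_lit 281) (.e (nat_lit 1082) (nat_lit 81) .nil)))))))) (.g (nat_lit 5) .nil .nil))) 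
(.lf (nat_lit 71393) (.g (nat_lit 1918) (.e (nat_lit 1661) (nat_lit 115) (.e (nat_lit 393260) (nat_lit 21) (.e (nat_lit 409649) (nat_lit 18) (.e (nat_lit 303115) (nat_lit 1) (.e (nat_lit 164173) (nat_lit 153) (.e (nat_lit 8194) (nat_lit 0) (.e (nat_lit 5355) (nat_lit 298) .nil))))))) (.g (nat_lit 4) .nil .nil)))) (.nd (nat_lit 5) 
(.lf (nat_lit 71377) (.g (nat_lit 3451) (.e (nat_lit 1661) (nat_lit 115) (.e (nat_lit 393260) (nat_lit 21) (.e (nat_lit 409648) (nat_lit 18) (.e (nat_lit 303154) (nat_lit 28) (.e (nat_lit 344096) (nat_lit 18) (.e (nat_lit 4761) (nat_lit 281) (.e (nat_lit 1083) (nat_lit 81) .nil))))))) (.g (nat_lit 5) .nil .nil))) 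
(.lf (nat_lit 71409) (.g (nat_lit 4568) (.e (nat_lit 1661) (nat_lit 115) (.e (nat_lit 393260) (nat_lit 21) (.e (nat_lit 409649) (nat_lit 18) (.e (nat_lit 303151) (nat_lit 27) (.e (nat_lit 335894) (nat_lit 0) (.e (nat_lit 974) (nat_lit 81) (.e (nat_lit 4761) (nat_lit 281) (.e (nat_lit 1083) (nat_lit 81) .nil)))))))) (.g (nat_lit 7) .nil .nil))))) (.nd (nat_lit 4) (.nd (nat_lit 5) 
(.lf (nat_lit 71369) (.g (nat_lit 2726) (.e (nat_lit 1661) (nat_lit 115) (.e (nat_lit 393260) (nat_lit 21) (.e (nat_lit 409648) (nat_lit 18) (.e (nat_lit 303151) (nat_lit 27) (.e (nat_lit 335894) (nat_lit 0) (.e (nat_lit 974) (nat_lit 81) (.e (nat_lit 4830) (nat_lit 281) (.e (nat_lit 1060) (nat_lit 81) .nil)))))))) (.g (nat_lit 5) .nil .nil))) 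
(.lf (nat_lit 71401) (.g (nat_lit 1165) (.e (nat_lit 1661) (nat_lit 115) (.e (nat_lit 393260) (nat_lit 21) (.e (nat_lit 409649) (nat_lit 18) (.e (nat_lit 303122) (nat_lit 6) .nil)))) .nil))) (.nd (nat_lit 5) 
(.lf (nat_lit 71385) (.g (nat_lit 1749) (.e (nat_lit 1661) (nat_lit 115) (.e (nat_lit 393260) (nat_lit 21) (.e (nat_lit 409649) (nat_lit 18) (.e (nat_lit 303111) (nat_lit 0) (.e (nat_lit 2425) (nat_lit 157) .nil))))) .nil)) 
(.lf (nat_lit 71417) (.g (nat_lit 4432) (.e (nat_lit 1661) (nat_lit 115) (.e (nat_lit 393260) (nat_lit 21) (.e (nat_lit 409649) (nat_lit 18) (.e (nat_lit 303151) (nat_lit 27) (.e (nat_lit 335894) (nat_lit 0) (.e (nat_lit 974) (nat_lit 81) (.e (nat_lit 4825) (nat_lit 281) (.e (nat_lit 1057) (nat_lit 81) .nil)))))))) (.g (nat_lit 6) .nil .nil)))))) (.nd (nat_lit 3) (.nd (nat_lit 4) (.nd (nat_lit 5) 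
(.lf (nat_lit 71365) (.g (nat_lit 2872) (.e (nat_lit 1661) (nat_lit 115) (.e (nat_lit 393260) (nat_lit 21) (.e (nat_lit 409648) (nat_lit 18) (.e (nat_lit 303151) (nat_lit 27) (.e (nat_lit 335894) (nat_lit 0) (.e (nat_lit 974) (nat_lit 81) (.e (nat_lit 4825) (nat_lit 281) (.e (nat_lit 1084) (nat_lit 81) .nil)))))))) (.g (nat_lit 5) .nil .nil))) 
(.lf (nat_lit 71397) (.g (nat_lit 4282) (.e (nat_lit 1661) (nat_lit 115) (.e (nat_lit 393260) (nat_lit 21) (.e (nat_lit 409649) (nat_lit 18) (.e (nat_lit 303115) (nat_lit 1) (.e (nat_lit 164179) (nat_lit 154) (.e (nat_lit 57346) (nat_lit 0) (.e (nat_lit 6453) (nat_lit 343) .nil))))))) (.g (nat_lit 7) .nil .nil)))) (.nd (nat_lit 5) 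
(.lf (nat_lit 71381) (.g (nat_lit 886) (.e (nat_lit 1661) (nat_lit 115) (.e (nat_lit 393260) (nat_lit 21) (.e (nat_lit 409648) (nat_lit 18) (.e (nat_lit 311040) (nat_lit 35) .nil)))) .nil)) 
(.lf (nat_lit 71413) (.g (nat_lit 4293) (.e (nat_lit 1661) (nat_lit 115) (.e (nat_lit 393260) (nat_lit 21) (.e (nat_lit 409649) (nat_lit 18) (.e (nat_lit 303151) (nat_lit 27) (.e (nat_lit 335894) (nat_lit 0) (.e (nat_lit 974) (nat_lit 81) (.e (nat_lit 4824) (nat_lit 281) (.e (nat_lit 1057) (nat_lit 81) .nil)))))))) (.g (nat_lit 6) .nil .nil))))) (.nd (nat_lit 4) (.nd (nat_lit 5) 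
(.lf (nat_lit 71373) (.g (nat_lit 2637) (.e (nat_lit 1661) (nat_lit 115) (.e (nat_lit 393260) (nat_lit 21) (.e (nat_lit 409648) (nat_lit 18) (.e (nat_lit 303151) (nat_lit 27) (.e (nat_lit 335894) (nat_lit 0) (.e (nat_lit 1935) (nat_lit 132) (.e (nat_lit 622606) (nat_lit 5) .nil))))))) (.g (nat_lit 5) .nil .nil))) 
(.lf (nat_lit 71405) (.g (nat_lit 1219) (.e (nat_lit 1661) (nat_lit 115) (.e (nat_lit 393260) (nat_lit 21) (.e (nat_lit 409649) (nat_lit 18) (.e (nat_lit 303151) (nat_lit 27) .nil)))) .nil))) (.nd (nat_lit 5) 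
(.lf (nat_lit 71389) (.g (nat_lit 2034) (.e (nat_lit 1661) (nat_lit 115) (.e (nat_lit 393260) (nat_lit 21) (.e (nat_lit 409649) (nat_lit 18) (.e (nat_lit 303114) (nat_lit 1) (.e (nat_lit 164174) (nat_lit 153) (.e (nat_lit 8194) (nat_lit 0) (.e (nat_lit 5355) (nat_lit 298) .nil))))))) (.g (nat_lit 4) .nil .nil))) 
(.lf (nat_lit 71421) (.g (nat_lit 4237) (.e (nat_lit 1661) (nat_lit 115) (.e (nat_lit 393260) (nat_lit 21) (.e (nat_lit 409649) (nat_lit 18) (.e (nat_lit 303151) (nat_lit 27) (.e (nat_lit 335894) (nat_lit 0) (.e (nat_lit 974) (nat_lit 81) (.e (nat_lit 4829) (nat_lit 281) (.e (nat_lit 1057) (nat_lit 81) .nil)))))))) (.g (nat_lit 5) .nil .nil))))))) 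
(.nd (nat_lit 2) (.nd (nat_lit 3) (.nd (nat_lit 4) (.nd (nat_lit 5) 
(.lf (nat_lit 71363) (.g (nat_lit 2987) (.e (nat_lit 1661) (nat_lit 115) (.e (nat_lit 393260) (nat_lit 21) (.e (nat_lit 409648) (nat_lit 18) (.e (nat_lit 303151) (nat_lit 27) (.e (nat_lit 335894) (nat_lit 0) (.e (nat_lit 974) (nat_lit 81) (.e (nat_lit 4825) (nat_lit 281) (.e (nat_lit 1060) (nat_lit 81) .nil)))))))) (.g (nat_lit 5) .nil .nil))) 
(.lf (nat_lit 71395) (.g (nat_lit 1848) (.e (nat_lit 1661) (nat_lit 115) (.e (nat_lit 393260) (nat_lit 21) (.e (nat_lit 409649) (nat_lit 18) (.e (nat_lit 303115) (nat_lit 1) (.e (nat_lit 164175) (nat_lit 153) (.e (nat_lit 8194) (nat_lit 0) (.e (nat_lit 5355) (nat_lit 298) .nil))))))) (.g (nat_lit 4) .nil .nil)))) (.nd (nat_lit 5) 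
(.lf (nat_lit 71379) (.g (nat_lit 3073) (.e (nat_lit 1661) (nat_lit 115) (.e (nat_lit 393260) (nat_lit 21) (.e (nat_lit 409648) (nat_lit 18) (.e (nat_lit 303154) (nat_lit 28) (.e (nat_lit 344096) (nat_lit 18) (.e (nat_lit 4764) (nat_lit 281) (.e (nat_lit 1057) (nat_lit 81) .nil))))))) (.g (nat_lit 5) .nil .nil))) 
(.lf (nat_lit 71411) (.g (nat_lit 4069) (.e (nat_lit 1661) (nat_lit 115) (.e (nat_lit 393260) (nat_lit 21) (.e (nat_lit 409649) (nat_lit 18) (.e (nat_lit 303151) (nat_lit 27) (.e (nat_lit 335894) (nat_lit 0) (.e (nat_lit 974) (nat_lit 81) (.e (nat_lit 4761) (nat_lit 281) (.e (nat_lit 1087) (nat_lit 81) .nil)))))))) (.g (nat_lit 5) .nil .nil))))) (.nd (nat_lit 4) (.nd (nat_lit 5) 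
(.lf (nat_lit 71371) (.g (nat_lit 3104) (.e (nat_lit 1661) (nat_lit 115) (.e (nat_lit 393260) (nat_lit 21) (.e (nat_lit 409648) (nat_lit 18) (.e (nat_lit 303151) (nat_lit 27) (.e (nat_lit 335894) (nat_lit 0) (.e (nat_lit 979) (nat_lit 81) (.e (nat_lit 4803) (nat_lit 281) (.e (nat_lit 1086) (nat_lit 81) .nil)))))))) (.g (nat_lit 5) .nil .nil))) 
(.lf (nat_lit 71403) (.g (nat_lit 3777) (.e (nat_lit 1661) (nat_lit 115) (.e (nat_lit 393260) (nat_lit 21) (.e (nat_lit 409649) (nat_lit 18) (.e (nat_lit 303149) (nat_lit 15) (.e (nat_lit 6209) (nat_lit 333) (.e (nat_lit 65280) (nat_lit 270) .nil)))))) (.g (nat_lit 5) .nil .nil)))) (.nd (nat_lit 5) 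
(.lf (nat_lit 71387) (.g (nat_lit 2733) (.e (nat_lit 1661) (nat_lit 115) (.e (nat_lit 393260) (nat_lit 21) (.e (nat_lit 409649) (nat_lit 18) (.e (nat_lit 303111) (nat_lit 0) (.e (nat_lit 3459) (nat_lit 216) (.e (nat_lit 688170) (nat_lit 15) (.e (nat_lit 57741) (nat_lit 187) .nil))))))) (.g (nat_lit 4) .nil .nil))) 
(.lf (nat_lit 71419) (.g (nat_lit 3915) (.e (nat_lit 1661) (nat_lit 115) (.e (nat_lit 393260) (nat_lit 21) (.e (nat_lit 409649) (nat_lit 18) (.e (nat_lit 303151) (nat_lit 27) (.e (nat_lit 335894) (nat_lit 0) (.e (nat_lit 974) (nat_lit 81) (.e (nat_lit 4825) (nat_lit 281) (.e (nat_lit 1082) (nat_lit 81) .nil)))))))) (.g (nat_lit 5) .nil .nil)))))) (.nd (nat_lit 3) (.nd (nat_lit 4) (.nd (nat_lit 5) 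
(.lf (nat_lit 71367) (.g (nat_lit 2969) (.e (nat_lit 1661) (nat_lit 115) (.e (nat_lit 393260) (nat_lit 21) (.e (nat_lit 409648) (nat_lit 18) (.e (nat_lit 303151) (nat_lit 27) (.e (nat_lit 335894) (nat_lit 0) (.e (nat_lit 974) (nat_lit 81) (.e (nat_lit 4829) (nat_lit 281) (.e (nat_lit 1082) (nat_lit 81) .nil)))))))) (.g (nat_lit 5) .nil .nil))) 
(.lf (nat_lit 71399) (.g (nat_lit 4230) (.e (nat_lit 1661) (nat_lit 115) (.e (nat_lit 393260) (nat_lit 21) (.e (nat_lit 409649) (nat_lit 18) (.e (nat_lit 303115) (nat_lit 1) (.e (nat_lit 164179) (nat_lit 154) (.e (nat_lit 57346) (nat_lit 0) (.e (nat_lit 6478) (nat_lit 343) .nil))))))) (.g (nat_lit 6) .nil .nil)))) (.nd (nat_lit 5) 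
(.lf (nat_lit 71383) (.g (nat_lit 1447) (.e (nat_lit 1661) (nat_lit 115) (.e (nat_lit 393260) (nat_lit 21) (.e (nat_lit 409649) (nat_lit 18) (.e (nat_lit 303110) (nat_lit 0) .nil)))) .nil)) 
(.lf (nat_lit 71415) (.g (nat_lit 3793) (.e (nat_lit 1661) (nat_lit 115) (.e (nat_lit 393260) (nat_lit 21) (.e (nat_lit 409649) (nat_lit 18) (.e (nat_lit 303151) (nat_lit 27) (.e (nat_lit 335894) (nat_lit 0) (.e (nat_lit 974) (nat_lit 81) (.e (nat_lit 4824) (nat_lit 281) (.e (nat_lit 1082) (nat_lit 81) .nil)))))))) (.g (nat_lit 5) .nil .nil))))) (.nd (nat_lit 4) (.nd (nat_lit 5) 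
(.lf (nat_lit 71375) (.g (nat_lit 2766) (.e (nat_lit 1661) (nat_lit 115) (.e (nat_lit 393260) (nat_lit 21) (.e (nat_lit 409648) (nat_lit 18) (.e (nat_lit 303151) (nat_lit 27) (.e (nat_lit 335894) (nat_lit 0) (.e (nat_lit 1944) (nat_lit 132) (.e (nat_lit 622606) (nat_lit 5) .nil))))))) (.g (nat_lit 5) .nil .nil))) 
(.lf (nat_lit 71407) (.g (nat_lit 3287) (.e (nat_lit 1661) (nat_lit 115) (.e (nat_lit 393260) (nat_lit 21) (.e (nat_lit 409649) (nat_lit 18) (.e (nat_lit 303151) (nat_lit 27) (.e (nat_lit 335894) (nat_lit 0) (.e (nat_lit 974) (nat_lit 81) (.e (nat_lit 4761) (nat_lit 281) (.e (nat_lit 1058) (nat_lit 81) .nil)))))))) (.g (nat_lit 4) .nil .nil)))) (.nd (nat_lit 5) 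
(.lf (nat_lit 71391) (.g (nat_lit 3415) (.e (nat_lit 1661) (nat_lit 115) (.e (nat_lit 393260) (nat_lit 21) (.e (nat_lit 409649) (nat_lit 18) (.e (nat_lit 303115) (nat_lit 1) (.e (nat_lit 164172) (nat_lit 153) (.e (nat_lit 8193) (nat_lit 0) (.e (nat_lit 5355) (nat_lit 298) .nil))))))) (.g (nat_lit 0) .nil .nil))) 
(.lf (nat_lit 71423) (.g (nat_lit 3759) (.e (nat_lit 1661) (nat_lit 115) (.e (nat_lit 393260) (nat_lit 21) (.e (nat_lit 409649) (nat_lit 18) (.e (nat_lit 303151) (nat_lit 27) (.e (nat_lit 335894) (nat_lit 0) (.e (nat_lit 974) (nat_lit 81) (.e (nat_lit 4829) (nat_lit 281) (.e (nat_lit 1082) (nat_lit 81) .nil)))))))) (.g (nat_lit 5) .nil .nil)))))))))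


end

end Pool.Agent.Lib.MP_5854e1_co.Cz
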