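import Pool.Agent.Lib.MP_5854e1_co.DtD

/-!
# Windows and cells of the rings
-/

set_option autoImplicit false
set_option maxRecDepth 100000
set_option deprecated.oldSectionVars true

namespace Pool.Agent.Lib.MP_5854e1_co.Cz

open Pool.Agent.Lib.MP_5854e1_co

noncomputable section

noncomputable def tv976 : DT := (.nd (nat_lit 0) (.nd (nat_lit 1) (.nd (nat_lit 2) (.nd (nat_lit 3) (.nd (nat_lit 4) (.nd (nat_lit 5) 
(.lf (nat_lit 71424) (.g (nat_lit 3555) (.e (nat_lit 1661) (nat_lit 115) (.e (nat_lit 393260) (nat_lit 21) (.e (nat_lit 409649) (nat_lit 18) (.e (nat_lit 303151) (nat_lit 27) (.e (nat_lit 335894) (nat_lit 0) (.e (nat_lit 974) (nat_lit 81) (.e (nat_lit 4829) (nat_lit 281) (.e (nat_lit 1084) (nat_lit 81) .nil)))))))) (.g (nat_lit 5) .nil .nil))) 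
(.lf (nat_lit 71456) (.g (nat_lit 3189) (.e (nat_lit 1661) (nat_lit 115) (.e (nat_lit 393268) (nat_lit 23) (.e (nat_lit 426393) (nat_lit 15) (.e (nat_lit 2059) (nat_lit 142) (.e (nat_lit 704595) (nat_lit 5) (.e (nat_lit 180278) (nat_lit 32) .nil)))))) (.g (nat_lit 5) .nil .nil)))) (.nd (nat_lit 5) 
(.lf (nat_lit 71440) (.g (nat_lit 2427) (.e (nat_lit 1661) (nat_lit 115) (.e (nat_lit 393266) (nat_lit 23) (.e (nat_lit 426396) (nat_lit 15) (.e (nat_lit 2059) (nat_lit 142) (.e (nat_lit 704595) (nat_lit 5) (.e (nat_lit 180278) (nat_lit 32) .nil)))))) (.g (nat_lit 4) .nil .nil))) 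
(.lf (nat_lit 71472) (.g (nat_lit 2383) (.e (nat_lit 1661) (nat_lit 115) (.e (nat_lit 393268) (nat_lit 23) (.e (nat_lit 426438) (nat_lit 18) (.e (nat_lit 98335) (nat_lit 18) (.e (nat_lit 164406) (nat_lit 258) (.e (nat_lit 163882) (nat_lit 4) (.e (nat_lit 220928) (nat_lit 0) .nil))))))) (.g (nat_lit 6) .nil .nil))))) (.nd (nat_lit 4) (.nd (nat_lit 5) 
(.lf (nat_lit 71432) (.g (nat_lit 3763) (.e (nat_lit 1661) (nat_lit 115) (.e (nat_lit 393260) (nat_lit 21) (.e (nat_lit 409649) (nat_lit 18) (.e (nat_lit 303151) (nat_lit 27) (.e (nat_lit 335894) (nat_lit 0) (.e (nat_lit 1944) (nat_lit 132) (.e (nat_lit 622606) (nat_lit 5) .nil))))))) (.g (nat_lit 5) .nil .nil))) 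
(.lf (nat_lit 71464) (.g (nat_lit 3008) (.e (nat_lit 1661) (nat_lit 115) (.e (nat_lit 393268) (nat_lit 23) (.e (nat_lit 426438) (nat_lit 18) (.e (nat_lit 98323) (nat_lit 17) (.e (nat_lit 3430) (nat_lit 213) (.e (nat_lit 663574) (nat_lit 9) (.e (nat_lit 2748) (nat_lit 175) (.e (nat_lit 262144) (nat_lit 0) .nil)))))))) (.g (nat_lit 6) .nil .nil)))) (.nd (nat_lit 5) 
(.lf (nat_lit 71448) (.g (nat_lit 2565) (.e (nat_lit 1661) (nat_lit 115) (.e (nat_lit 393268) (nat_lit 23) (.e (nat_lit 426374) (nat_lit 15) (.e (nat_lit 2059) (nat_lit 142) (.e (nat_lit 704595) (nat_lit 5) (.e (nat_lit 180277) (nat_lit 32) .nil)))))) (.g (nat_lit 5) .nil .nil))) 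
(.lf (nat_lit 71480) (.g (nat_lit 959) (.e (nat_lit 1661) (nat_lit 115) (.e (nat_lit 393271) (nat_lit 23) (.e (nat_lit 426402) (nat_lit 15) .nil))) .nil))))) (.nd (nat_lit 3) (.nd (nat_lit 4) (.nd (nat_lit 5) 
(.lf (nat_lit 71428) (.g (nat_lit 3921) (.e (nat_lit 1661) (nat_lit 115) (.e (nat_lit 393260) (nat_lit 21) (.e (nat_lit 409649) (nat_lit 18) (.e (nat_lit 303151) (nat_lit 27) (.e (nat_lit 335894) (nat_lit 0) (.e (nat_lit 979) (nat_lit 81) (.e (nat_lit 4803) (nat_lit 281) (.e (nat_lit 1086) (nat_lit 81) .nil)))))))) (.g (nat_lit 5) .nil .nil))) 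
(.lf (nat_lit 71460) (.g (nat_lit 1110) (.e (nat_lit 1661) (nat_lit 115) (.e (nat_lit 393268) (nat_lit 23) (.e (nat_lit 426420) (nat_lit 15) (.e (nat_lit 2175) (nat_lit 143) .nil)))) .nil))) (.nd (nat_lit 5) 
(.lf (nat_lit 71444) (.g (nat_lit 2098) (.e (nat_lit 1661) (nat_lit 115) (.e (nat_lit 393268) (nat_lit 23) (.e (nat_lit 426354) (nat_lit 15) (.e (nat_lit 2051) (nat_lit 142) (.e (nat_lit 704596) (nat_lit 5) (.e (nat_lit 180277) (nat_lit 32) .nil)))))) (.g (nat_lit 4) .nil .nil))) 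
(.lf (nat_lit 71476) (.g (nat_lit 2608) (.e (nat_lit 1661) (nat_lit 115) (.e (nat_lit 393271) (nat_lit 23) (.e (nat_lit 426354) (nat_lit 15) (.e (nat_lit 2053) (nat_lit 142) (.e (nat_lit 704596) (nat_lit 5) (.e (nat_lit 180277) (nat_lit 32) .nil)))))) (.g (nat_lit 4) .nil .nil))))) (.nd (nat_lit 4) (.nd (nat_lit 5) 
(.lf (nat_lit 71436) (.g (nat_lit 3490) (.e (nat_lit 1661) (nat_lit 115) (.e (nat_lit 393260) (nat_lit 21) (.e (nat_lit 409649) (nat_lit 18) (.e (nat_lit 303154) (nat_lit 28) (.e (nat_lit 344096) (nat_lit 18) (.e (nat_lit 4761) (nat_lit 281) (.e (nat_lit 1083) (nat_lit 81) .nil))))))) (.g (nat_lit 5) .nil .nil))) 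
(.lf (nat_lit 71468) (.g (nat_lit 1612) (.e (nat_lit 1661) (nat_lit 115) (.e (nat_lit 393268) (nat_lit 23) (.e (nat_lit 426438) (nat_lit 18) (.e (nat_lit 98334) (nat_lit 18) (.e (nat_lit 164395) (nat_lit 255) (.e (nat_lit 8299) (nat_lit 54) (.e (nat_lit 40960) (nat_lit 0) .nil))))))) (.g (nat_lit 4) .nil .nil)))) (.nd (nat_lit 5) 
(.lf (nat_lit 71452) (.g (nat_lit 2854) (.e (nat_lit 1661) (nat_lit 115) (.e (nat_lit 393268) (nat_lit 23) (.e (nat_lit 426376) (nat_lit 15) (.e (nat_lit 2059) (nat_lit 142) (.e (nat_lit 704596) (nat_lit 5) (.e (nat_lit 180277) (nat_lit 32) .nil)))))) (.g (nat_lit 5) .nil .nil))) 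
(.lf (nat_lit 71484) (.g (nat_lit 1372) (.e (nat_lit 1661) (nat_lit 115) (.e (nat_lit 393274) (nat_lit 23) (.e (nat_lit 426043) (nat_lit 0) (.e (nat_lit 3406) (nat_lit 212) (.e (nat_lit 655376) (nat_lit 4) (.e (nat_lit 172037) (nat_lit 0) (.e (nat_lit 7557) (nat_lit 402) .nil))))))) (.g (nat_lit 5) .nil .nil))))))) (.nd (nat_lit 2) (.nd (nat_lit 3) (.nd (nat_lit 4) (.nd (nat_lit 5) 
(.lf (nat_lit 71426) (.g (nat_lit 3640) (.e (nat_lit 1661) (nat_lit 115) (.e (nat_lit 393260) (nat_lit 21) (.e (nat_lit 409649) (nat_lit 18) (.e (nat_lit 303151) (nat_lit 27) (.e (nat_lit 335894) (nat_lit 0) (.e (nat_lit 974) (nat_lit 81) (.e (nat_lit 4830) (nat_lit 281) (.e (nat_lit 1060) (nat_lit 81) .nil)))))))) (.g (nat_lit 5) .nil .nil))) 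
(.lf (nat_lit 71458) (.g (nat_lit 3478) (.e (nat_lit 1661) (nat_lit 115) (.e (nat_lit 393268) (nat_lit 23) (.e (nat_lit 426420) (nat_lit 15) (.e (nat_lit 2058) (nat_lit 142) (.e (nat_lit 704595) (nat_lit 5) (.e (nat_lit 180278) (nat_lit 32) .nil)))))) (.g (nat_lit 6) .nil .nil)))) (.nd (nat_lit 5) 
(.lf (nat_lit 71442) (.g (nat_lit 2642) (.e (nat_lit 1661) (nat_lit 115) (.e (nat_lit 393266) (nat_lit 23) (.e (nat_lit 426412) (nat_lit 15) (.e (nat_lit 2059) (nat_lit 142) (.e (nat_lit 704595) (nat_lit 5) .nil))))) .nil)) 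
(.lf (nat_lit 71474) (.g (nat_lit 903) (.e (nat_lit 1661) (nat_lit 115) (.e (nat_lit 393268) (nat_lit 23) (.e (nat_lit 426448) (nat_lit 20) (.e (nat_lit 122624) (nat_lit 5) .nil)))) .nil)))) (.nd (nat_lit 4) (.nd (nat_lit 5) 
(.lf (nat_lit 71434) (.g (nat_lit 3435) (.e (nat_lit 1661) (nat_lit 115) (.e (nat_lit 393260) (nat_lit 21) (.e (nat_lit 409649) (nat_lit 18) (.e (nat_lit 303151) (nat_lit 27) (.e (nat_lit 335988) (nat_lit 1) (.e (nat_lit 57783) (nat_lit 239) (.e (nat_lit 1057) (nat_lit 81) .nil))))))) (.g (nat_lit 5) .nil .nil))) 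
(.lf (nat_lit 71466) (.g (nat_lit 2780) (.e (nat_lit 1661) (nat_lit 115) (.e (nat_lit 393268) (nat_lit 23) (.e (nat_lit 426438) (nat_lit 18) (.e (nat_lit 98323) (nat_lit 17) (.e (nat_lit 3430) (nat_lit 213) (.e (nat_lit 663574) (nat_lit 9) (.e (nat_lit 2749) (nat_lit 175) (.e (nat_lit 262149) (nat_lit 0) .nil)))))))) (.g (nat_lit 6) .nil .nil)))) (.nd (nat_lit 5) 
(.lf (nat_lit 71450) (.g (nat_lit 3037) (.e (nat_lit 1661) (nat_lit 115) (.e (nat_lit 393268) (nat_lit 23) (.e (nat_lit 426376) (nat_lit 15) (.e (nat_lit 2059) (nat_lit 142) (.e (nat_lit 704595) (nat_lit 5) (.e (nat_lit 180277) (nat_lit 32) .nil)))))) (.g (nat_lit 5) .nil .nil))) 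
(.lf (nat_lit 71482) (.g (nat_lit 1084) (.e (nat_lit 1661) (nat_lit 115) (.e (nat_lit 393271) (nat_lit 23) (.e (nat_lit 426405) (nat_lit 15) .nil))) .nil))))) (.nd (nat_lit 3) (.nd (nat_lit 4) (.nd (nat_lit 5) 
(.lf (nat_lit 71430) (.g (nat_lit 3642) (.e (nat_lit 1661) (nat_lit 115) (.e (nat_lit 393260) (nat_lit 21) (.e (nat_lit 409649) (nat_lit 18) (.e (nat_lit 303151) (nat_lit 27) (.e (nat_lit 335894) (nat_lit 0) (.e (nat_lit 1935) (nat_lit 132) (.e (nat_lit 622606) (nat_lit 5) .nil))))))) (.g (nat_lit 5) .nil .nil))) 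
(.lf (nat_lit 71462) (.g (nat_lit 1017) (.e (nat_lit 1661) (nat_lit 115) (.e (nat_lit 393268) (nat_lit 23) (.e (nat_lit 426428) (nat_lit 17) (.e (nat_lit 90165) (nat_lit 12) (.e (nat_lit 164010) (nat_lit 41) .nil))))) .nil))) (.nd (nat_lit 5) 
(.lf (nat_lit 71446) (.g (nat_lit 2631) (.e (nat_lit 1661) (nat_lit 115) (.e (nat_lit 393268) (nat_lit 23) (.e (nat_lit 426374) (nat_lit 15) (.e (nat_lit 2058) (nat_lit 142) (.e (nat_lit 704595) (nat_lit 5) (.e (nat_lit 180277) (nat_lit 32) .nil)))))) (.g (nat_lit 5) .nil .nil))) 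
(.lf (nat_lit 71478) (.g (nat_lit 2559) (.e (nat_lit 1661) (nat_lit 115) (.e (nat_lit 393271) (nat_lit 23) (.e (nat_lit 426354) (nat_lit 15) (.e (nat_lit 2064) (nat_lit 142) (.e (nat_lit 704595) (nat_lit 5) (.e (nat_lit 180278) (nat_lit 32) .nil)))))) (.g (nat_lit 4) .nil .nil))))) (.nd (nat_lit 4) (.nd (nat_lit 5) 
(.lf (nat_lit 71438) (.g (nat_lit 1394) (.e (nat_lit 1661) (nat_lit 115) (.e (nat_lit 393260) (nat_lit 21) (.e (nat_lit 409650) (nat_lit 19) (.e (nat_lit 311357) (nat_lit 28) .nil)))) .nil)) 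
(.lf (nat_lit 71470) (.g (nat_lit 2295) (.e (nat_lit 1661) (nat_lit 115) (.e (nat_lit 393268) (nat_lit 23) (.e (nat_lit 426438) (nat_lit 18) (.e (nat_lit 98334) (nat_lit 18) (.e (nat_lit 164406) (nat_lit 258) (.e (nat_lit 163882) (nat_lit 4) (.e (nat_lit 220928) (nat_lit 0) .nil))))))) (.g (nat_lit 5) .nil .nil)))) (.nd (nat_lit 5) 
(.lf (nat_lit 71454) (.g (nat_lit 3301) (.e (nat_lit 1661) (nat_lit 115) (.e (nat_lit 393268) (nat_lit 23) (.e (nat_lit 426379) (nat_lit 15) (.e (nat_lit 2058) (nat_lit 142) (.e (nat_lit 704595) (nat_lit 5) (.e (nat_lit 180278) (nat_lit 32) .nil)))))) (.g (nat_lit 5) .nil .nil))) 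
(.lf (nat_lit 71486) (.g (nat_lit 1434) (.e (nat_lit 1661) (nat_lit 115) (.e (nat_lit 393274) (nat_lit 23) (.e (nat_lit 426043) (nat_lit 0) (.e (nat_lit 3409) (nat_lit 212) (.e (nat_lit 655376) (nat_lit 4) (.e (nat_lit 172037) (nat_lit 0) (.e (nat_lit 7557) (nat_lit 402) .nil))))))) (.g (nat_lit 5) .nil .nil)))))))) 
(.nd (nat_lit 1) (.nd (nat_lit 2) (.nd (nat_lit 3) (.nd (nat_lit 4) (.nd (nat_lit 5) 
(.lf (nat_lit 71425) (.g (nat_lit 4281) (.e (nat_lit 1661) (nat_lit 115) (.e (nat_lit 393260) (nat_lit 21) (.e (nat_lit 409649) (nat_lit 18) (.e (nat_lit 303151) (nat_lit 27) (.e (nat_lit 335894) (nat_lit 0) (.e (nat_lit 974) (nat_lit 81) (.e (nat_lit 4830) (nat_lit 281) (.e (nat_lit 1057) (nat_lit 81) .nil)))))))) (.g (nat_lit 6) .nil .nil))) 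
(.lf (nat_lit 71457) (.g (nat_lit 3088) (.e (nat_lit 1661) (nat_lit 115) (.e (nat_lit 393268) (nat_lit 23) (.e (nat_lit 426393) (nat_lit 15) (.e (nat_lit 2059) (nat_lit 142) (.e (nat_lit 704596) (nat_lit 5) (.e (nat_lit 180277) (nat_lit 32) .nil)))))) (.g (nat_lit 5) .nil .nil)))) (.nd (nat_lit 5) 
(.lf (nat_lit 71441) (.g (nat_lit 2372) (.e (nat_lit 1661) (nat_lit 115) (.e (nat_lit 393266) (nat_lit 23) (.e (nat_lit 426396) (nat_lit 15) (.e (nat_lit 2059) (nat_lit 142) (.e (nat_lit 704596) (nat_lit 5) (.e (nat_lit 180277) (nat_lit 32) .nil)))))) (.g (nat_lit 4) .nil .nil))) 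
(.lf (nat_lit 71473) (.g (nat_lit 1690) (.e (nat_lit 1661) (nat_lit 115) (.e (nat_lit 393268) (nat_lit 23) (.e (nat_lit 426438) (nat_lit 18) (.e (nat_lit 98335) (nat_lit 18) (.e (nat_lit 164407) (nat_lit 259) (.e (nat_lit 229396) (nat_lit 9) (.e (nat_lit 262144) (nat_lit 0) .nil))))))) (.g (nat_lit 4) .nil .nil))))) (.nd (nat_lit 4) (.nd (nat_lit 5) 
(.lf (nat_lit 71433) (.g (nat_lit 3349) (.e (nat_lit 1661) (nat_lit 115) (.e (nat_lit 393260) (nat_lit 21) (.e (nat_lit 409649) (nat_lit 18) (.e (nat_lit 303151) (nat_lit 27) (.e (nat_lit 335894) (nat_lit 0) (.e (nat_lit 1944) (nat_lit 132) (.e (nat_lit 622608) (nat_lit 5) .nil))))))) (.g (nat_lit 5) .nil .nil))) 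
(.lf (nat_lit 71465) (.g (nat_lit 2000) (.e (nat_lit 1661) (nat_lit 115) (.e (nat_lit 393268) (nat_lit 23) (.e (nat_lit 426438) (nat_lit 18) (.e (nat_lit 98323) (nat_lit 17) (.e (nat_lit 3430) (nat_lit 213) (.e (nat_lit 663574) (nat_lit 9) (.e (nat_lit 2748) (nat_lit 175) (.e (nat_lit 262150) (nat_lit 0) .nil)))))))) (.g (nat_lit 4) .nil .nil)))) (.nd (nat_lit 5) 
(.lf (nat_lit 71449) (.g (nat_lit 2488) (.e (nat_lit 1661) (nat_lit 115) (.e (nat_lit 393268) (nat_lit 23) (.e (nat_lit 426374) (nat_lit 15) (.e (nat_lit 2059) (nat_lit 142) (.e (nat_lit 704595) (nat_lit 5) (.e (nat_lit 180278) (nat_lit 32) .nil)))))) (.g (nat_lit 5) .nil .nil))) 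
(.lf (nat_lit 71481) (.g (nat_lit 1793) (.e (nat_lit 1661) (nat_lit 115) (.e (nat_lit 393271) (nat_lit 23) (.e (nat_lit 426402) (nat_lit 15) (.e (nat_lit 2046) (nat_lit 142) .nil)))) .nil))))) (.nd (nat_lit 3) (.nd (nat_lit 4) (.nd (nat_lit 5) 
(.lf (nat_lit 71429) (.g (nat_lit 3742) (.e (nat_lit 1661) (nat_lit 115) (.e (nat_lit 393260) (nat_lit 21) (.e (nat_lit 409649) (nat_lit 18) (.e (nat_lit 303151) (nat_lit 27) (.e (nat_lit 335894) (nat_lit 0) (.e (nat_lit 981) (nat_lit 81) (.e (nat_lit 4803) (nat_lit 281) (.e (nat_lit 1086) (nat_lit 81) .nil)))))))) (.g (nat_lit 5) .nil .nil))) 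
(.lf (nat_lit 71461) (.g (nat_lit 2022) (.e (nat_lit 1661) (nat_lit 115) (.e (nat_lit 393268) (nat_lit 23) (.e (nat_lit 426428) (nat_lit 17) (.e (nat_lit 90153) (nat_lit 10) (.e (nat_lit 8368) (nat_lit 91) (.e (nat_lit 737317) (nat_lit 14) (.e (nat_lit 40966) (nat_lit 0) .nil))))))) (.g (nat_lit 4) .nil .nil)))) (.nd (nat_lit 5) 
(.lf (nat_lit 71445) (.g (nat_lit 2643) (.e (nat_lit 1661) (nat_lit 115) (.e (nat_lit 393268) (nat_lit 23) (.e (nat_lit 426354) (nat_lit 15) (.e (nat_lit 2064) (nat_lit 142) (.e (nat_lit 704595) (nat_lit 5) (.e (nat_lit 180278) (nat_lit 32) .nil)))))) (.g (nat_lit 6) .nil .nil))) 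
(.lf (nat_lit 71477) (.g (nat_lit 2595) (.e (nat_lit 1661) (nat_lit 115) (.e (nat_lit 393271) (nat_lit 23) (.e (nat_lit 426354) (nat_lit 15) (.e (nat_lit 2064) (nat_lit 142) (.e (nat_lit 704595) (nat_lit 5) (.e (nat_lit 180277) (nat_lit 32) .nil)))))) (.g (nat_lit 4) .nil .nil))))) (.nd (nat_lit 4) (.nd (nat_lit 5) 
(.lf (nat_lit 71437) (.g (nat_lit 1394) (.e (nat_lit 1661) (nat_lit 115) (.e (nat_lit 393260) (nat_lit 21) (.e (nat_lit 409650) (nat_lit 19) (.e (nat_lit 311309) (nat_lit 1) .nil)))) .nil)) 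
(.lf (nat_lit 71469) (.g (nat_lit 1690) (.e (nat_lit 1661) (nat_lit 115) (.e (nat_lit 393268) (nat_lit 23) (.e (nat_lit 426438) (nat_lit 18) (.e (nat_lit 98334) (nat_lit 18) (.e (nat_lit 164406) (nat_lit 258) (.e (nat_lit 163880) (nat_lit 4) (.e (nat_lit 220928) (nat_lit 0) .nil))))))) (.g (nat_lit 4) .nil .nil)))) (.nd (nat_lit 5) 
(.lf (nat_lit 71453) (.g (nat_lit 3280) (.e (nat_lit 1661) (nat_lit 115) (.e (nat_lit 393268) (nat_lit 23) (.e (nat_lit 426379) (nat_lit 15) (.e (nat_lit 2058) (nat_lit 142) (.e (nat_lit 704595) (nat_lit 5) (.e (nat_lit 180277) (nat_lit 32) .nil)))))) (.g (nat_lit 5) .nil .nil))) 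
(.lf (nat_lit 71485) (.g (nat_lit 1299) (.e (nat_lit 1661) (nat_lit 115) (.e (nat_lit 393274) (nat_lit 23) (.e (nat_lit 426043) (nat_lit 0) (.e (nat_lit 3408) (nat_lit 212) (.e (nat_lit 655376) (nat_lit 4) (.e (nat_lit 172037) (nat_lit 0) (.e (nat_lit 7557) (nat_lit 402) .nil))))))) (.g (nat_lit 5) .nil .nil))))))) (.nd (nat_lit 2) (.nd (nat_lit 3) (.nd (nat_lit 4) (.nd (nat_lit 5) 
(.lf (nat_lit 71427) (.g (nat_lit 3791) (.e (nat_lit 1661) (nat_lit 115) (.e (nat_lit 393260) (nat_lit 21) (.e (nat_lit 409649) (nat_lit 18) (.e (nat_lit 303151) (nat_lit 27) (.e (nat_lit 335894) (nat_lit 0) (.e (nat_lit 974) (nat_lit 81) (.e (nat_lit 4830) (nat_lit 281) (.e (nat_lit 1082) (nat_lit 81) .nil)))))))) (.g (nat_lit 5) .nil .nil))) 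
(.lf (nat_lit 71459) (.g (nat_lit 3647) (.e (nat_lit 1661) (nat_lit 115) (.e (nat_lit 393268) (nat_lit 23) (.e (nat_lit 426420) (nat_lit 15) (.e (nat_lit 2059) (nat_lit 142) (.e (nat_lit 704595) (nat_lit 5) (.e (nat_lit 180278) (nat_lit 32) .nil)))))) (.g (nat_lit 6) .nil .nil)))) (.nd (nat_lit 5) 
(.lf (nat_lit 71443) (.g (nat_lit 1531) (.e (nat_lit 1661) (nat_lit 115) (.e (nat_lit 393268) (nat_lit 23) (.e (nat_lit 426354) (nat_lit 15) (.e (nat_lit 2051) (nat_lit 142) (.e (nat_lit 704595) (nat_lit 5) .nil))))) .nil)) 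
(.lf (nat_lit 71475) (.g (nat_lit 1648) (.e (nat_lit 1661) (nat_lit 115) (.e (nat_lit 393271) (nat_lit 23) (.e (nat_lit 426112) (nat_lit 1) (.e (nat_lit 164347) (nat_lit 240) (.e (nat_lit 2640) (nat_lit 165) .nil))))) .nil)))) (.nd (nat_lit 4) (.nd (nat_lit 5) 
(.lf (nat_lit 71435) (.g (nat_lit 1289) (.e (nat_lit 1661) (nat_lit 115) (.e (nat_lit 393260) (nat_lit 21) (.e (nat_lit 409649) (nat_lit 18) (.e (nat_lit 303154) (nat_lit 28) .nil)))) .nil)) 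
(.lf (nat_lit 71467) (.g (nat_lit 2046) (.e (nat_lit 1661) (nat_lit 115) (.e (nat_lit 393268) (nat_lit 23) (.e (nat_lit 426438) (nat_lit 18) (.e (nat_lit 98323) (nat_lit 17) (.e (nat_lit 3430) (nat_lit 213) (.e (nat_lit 663580) (nat_lit 9) (.e (nat_lit 2747) (nat_lit 175) (.e (nat_lit 262149) (nat_lit 0) .nil)))))))) (.g (nat_lit 4) .nil .nil)))) (.nd (nat_lit 5) 
(.lf (nat_lit 71451) (.g (nat_lit 2909) (.e (nat_lit 1661) (nat_lit 115) (.e (nat_lit 393268) (nat_lit 23) (.e (nat_lit 426376) (nat_lit 15) (.e (nat_lit 2059) (nat_lit 142) (.e (nat_lit 704595) (nat_lit 5) (.e (nat_lit 180278) (nat_lit 32) .nil)))))) (.g (nat_lit 5) .nil .nil))) 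
(.lf (nat_lit 71483) (.g (nat_lit 1602) (.e (nat_lit 1661) (nat_lit 115) (.e (nat_lit 393271) (nat_lit 23) (.e (nat_lit 426442) (nat_lit 19) (.e (nat_lit 114432) (nat_lit 5) .nil)))) .nil))))) (.nd (nat_lit 3) (.nd (nat_lit 4) (.nd (nat_lit 5) 
(.lf (nat_lit 71431) (.g (nat_lit 3692) (.e (nat_lit 1661) (nat_lit 115) (.e (nat_lit 393260) (nat_lit 21) (.e (nat_lit 409649) (nat_lit 18) (.e (nat_lit 303151) (nat_lit 27) (.e (nat_lit 335894) (nat_lit 0) (.e (nat_lit 1935) (nat_lit 132) (.e (nat_lit 622608) (nat_lit 5) .nil))))))) (.g (nat_lit 5) .nil .nil))) 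
(.lf (nat_lit 71463) (.g (nat_lit 1375) (.e (nat_lit 1661) (nat_lit 115) (.e (nat_lit 393268) (nat_lit 23) (.e (nat_lit 426436) (nat_lit 18) (.e (nat_lit 98335) (nat_lit 18) .nil)))) .nil))) (.nd (nat_lit 5) 
(.lf (nat_lit 71447) (.g (nat_lit 2615) (.e (nat_lit 1661) (nat_lit 115) (.e (nat_lit 393268) (nat_lit 23) (.e (nat_lit 426374) (nat_lit 15) (.e (nat_lit 2058) (nat_lit 142) (.e (nat_lit 704595) (nat_lit 5) (.e (nat_lit 180278) (nat_lit 32) .nil)))))) (.g (nat_lit 5) .nil .nil))) 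
(.lf (nat_lit 71479) (.g (nat_lit 1084) (.e (nat_lit 1661) (nat_lit 115) (.e (nat_lit 393271) (nat_lit 23) (.e (nat_lit 426375) (nat_lit 15) .nil))) .nil)))) (.nd (nat_lit 4) (.nd (nat_lit 5) 
(.lf (nat_lit 71439) (.g (nat_lit 1584) (.e (nat_lit 1661) (nat_lit 115) (.e (nat_lit 393260) (nat_lit 21) (.e (nat_lit 409651) (nat_lit 19) (.e (nat_lit 311357) (nat_lit 28) .nil)))) .nil)) 
(.lf (nat_lit 71471) (.g (nat_lit 1795) (.e (nat_lit 1661) (nat_lit 115) (.e (nat_lit 393268) (nat_lit 23) (.e (nat_lit 426438) (nat_lit 18) (.e (nat_lit 98335) (nat_lit 18) (.e (nat_lit 164406) (nat_lit 258) (.e (nat_lit 163880) (nat_lit 4) (.e (nat_lit 220928) (nat_lit 0) .nil))))))) (.g (nat_lit 4) .nil .nil)))) (.nd (nat_lit 5) 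
(.lf (nat_lit 71455) (.g (nat_lit 3271) (.e (nat_lit 1661) (nat_lit 115) (.e (nat_lit 393268) (nat_lit 23) (.e (nat_lit 426393) (nat_lit 15) (.e (nat_lit 2059) (nat_lit 142) (.e (nat_lit 704595) (nat_lit 5) (.e (nat_lit 180277) (nat_lit 32) .nil)))))) (.g (nat_lit 5) .nil .nil))) 
(.lf (nat_lit 71487) (.g (nat_lit 1901) (.e (nat_lit 1661) (nat_lit 115) (.e (nat_lit 393274) (nat_lit 23) (.e (nat_lit 426396) (nat_lit 15) (.e (nat_lit 2058) (nat_lit 142) (.e (nat_lit 704595) (nat_lit 5) (.e (nat_lit 180277) (nat_lit 32) .nil)))))) (.g (nat_lit 4) .nil .nil)))))))))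

noncomputable def tv977 : DT := (.nd (nat_lit 0) (.nd (nat_lit 1) (.nd (nat_lit 2) (.nd (nat_lit 3) (.nd (nat_lit 4) (.nd (nat_lit 5) 
(.lf (nat_lit 71488) (.g (nat_lit 1876) (.e (nat_lit 1661) (nat_lit 115) (.e (nat_lit 393274) (nat_lit 23) (.e (nat_lit 426396) (nat_lit 15) (.e (nat_lit 2058) (nat_lit 142) (.e (nat_lit 704595) (nat_lit 5) (.e (nat_lit 180278) (nat_lit 32) .nil)))))) (.g (nat_lit 4) .nil .nil))) 
(.lf (nat_lit 71520) (.g (nat_lit 3078) (.e (nat_lit 1661) (nat_lit 115) (.e (nat_lit 393291) (nat_lit 26) (.e (nat_lit 475198) (nat_lit 40) (.e (nat_lit 704595) (nat_lit 5) (.e (nat_lit 180278) (nat_lit 32) .nil))))) (.g (nat_lit 0) .nil .nil)))) (.nd (nat_lit 5) 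
(.lf (nat_lit 71504) (.g (nat_lit 2157) (.e (nat_lit 1661) (nat_lit 115) (.e (nat_lit 393282) (nat_lit 24) (.e (nat_lit 434272) (nat_lit 38) (.e (nat_lit 655378) (nat_lit 4) (.e (nat_lit 172033) (nat_lit 0) (.e (nat_lit 7537) (nat_lit 402) .nil)))))) (.g (nat_lit 4) .nil .nil))) 
(.lf (nat_lit 71536) (.g (nat_lit 2197) (.e (nat_lit 1661) (nat_lit 115) (.e (nat_lit 393292) (nat_lit 26) (.e (nat_lit 475210) (nat_lit 41) (.e (nat_lit 712749) (nat_lit 28) (.e (nat_lit 434180) (nat_lit 0) .nil))))) (.g (nat_lit 4) .nil .nil))))) (.nd (nat_lit 4) (.nd (nat_lit 5) 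
(.lf (nat_lit 71496) (.g (nat_lit 2273) (.e (nat_lit 1661) (nat_lit 115) (.e (nat_lit 393274) (nat_lit 23) (.e (nat_lit 426412) (nat_lit 15) (.e (nat_lit 2175) (nat_lit 143) (.e (nat_lit 712749) (nat_lit 28) (.e (nat_lit 434180) (nat_lit 0) .nil)))))) (.g (nat_lit 4) .nil .nil))) 
(.lf (nat_lit 71528) (.g (nat_lit 2573) (.e (nat_lit 1661) (nat_lit 115) (.e (nat_lit 393291) (nat_lit 26) (.e (nat_lit 475210) (nat_lit 41) (.e (nat_lit 712747) (nat_lit 28) (.e (nat_lit 442112) (nat_lit 0) .nil))))) (.g (nat_lit 4) .nil .nil)))) (.nd (nat_lit 5) 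
(.lf (nat_lit 71512) (.g (nat_lit 1969) (.e (nat_lit 1661) (nat_lit 115) (.e (nat_lit 393290) (nat_lit 26) (.e (nat_lit 475210) (nat_lit 41) (.e (nat_lit 712747) (nat_lit 28) (.e (nat_lit 434180) (nat_lit 0) .nil))))) (.g (nat_lit 4) .nil .nil))) 
(.lf (nat_lit 71544) (.g (nat_lit 2430) (.e (nat_lit 1661) (nat_lit 115) (.e (nat_lit 393294) (nat_lit 26) (.e (nat_lit 475211) (nat_lit 41) (.e (nat_lit 712749) (nat_lit 28) (.e (nat_lit 434180) (nat_lit 0) .nil))))) (.g (nat_lit 4) .nil .nil)))))) (.nd (nat_lit 3) (.nd (nat_lit 4) (.nd (nat_lit 5) 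
(.lf (nat_lit 71492) (.g (nat_lit 2783) (.e (nat_lit 1661) (nat_lit 115) (.e (nat_lit 393274) (nat_lit 23) (.e (nat_lit 426412) (nat_lit 15) (.e (nat_lit 2058) (nat_lit 142) (.e (nat_lit 704595) (nat_lit 5) (.e (nat_lit 180278) (nat_lit 32) .nil)))))) (.g (nat_lit 0) .nil .nil))) 
(.lf (nat_lit 71524) (.g (nat_lit 768) (.e (nat_lit 1661) (nat_lit 115) (.e (nat_lit 393291) (nat_lit 26) (.e (nat_lit 483072) (nat_lit 40) .nil))) .nil))) (.nd (nat_lit 5) 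
(.lf (nat_lit 71508) (.g (nat_lit 2494) (.e (nat_lit 1661) (nat_lit 115) (.e (nat_lit 393283) (nat_lit 24) (.e (nat_lit 434272) (nat_lit 38) (.e (nat_lit 655378) (nat_lit 4) (.e (nat_lit 172033) (nat_lit 0) (.e (nat_lit 7537) (nat_lit 402) .nil)))))) (.g (nat_lit 5) .nil .nil))) 
(.lf (nat_lit 71540) (.g (nat_lit 1228) (.e (nat_lit 1661) (nat_lit 115) (.e (nat_lit 393294) (nat_lit 26) (.e (nat_lit 475200) (nat_lit 40) (.e (nat_lit 712448) (nat_lit 5) .nil)))) .nil)))) (.nd (nat_lit 4) (.nd (nat_lit 5) 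
(.lf (nat_lit 71500) (.g (nat_lit 2856) (.e (nat_lit 1661) (nat_lit 115) (.e (nat_lit 393279) (nat_lit 23) (.e (nat_lit 426419) (nat_lit 15) (.e (nat_lit 2059) (nat_lit 142) (.e (nat_lit 704595) (nat_lit 5) (.e (nat_lit 180278) (nat_lit 32) .nil)))))) (.g (nat_lit 6) .nil .nil))) 
(.lf (nat_lit 71532) (.g (nat_lit 1932) (.e (nat_lit 1661) (nat_lit 115) (.e (nat_lit 393291) (nat_lit 26) (.e (nat_lit 475219) (nat_lit 44) (.e (nat_lit 737286) (nat_lit 0) .nil)))) .nil))) (.nd (nat_lit 5) 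
(.lf (nat_lit 71516) (.g (nat_lit 939) (.e (nat_lit 1661) (nat_lit 115) (.e (nat_lit 393291) (nat_lit 26) (.e (nat_lit 475195) (nat_lit 40) (.e (nat_lit 712448) (nat_lit 5) .nil)))) .nil)) 
(.lf (nat_lit 71548) (.g (nat_lit 2248) (.e (nat_lit 1661) (nat_lit 115) (.e (nat_lit 393297) (nat_lit 27) (.e (nat_lit 491571) (nat_lit 13) (.e (nat_lit 393232) (nat_lit 17) (.e (nat_lit 7513) (nat_lit 402) .nil))))) (.g (nat_lit 4) .nil .nil))))))) (.nd (nat_lit 2) (.nd (nat_lit 3) (.nd (nat_lit 4) (.nd (nat_lit 5) 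
(.lf (nat_lit 71490) (.g (nat_lit 3489) (.e (nat_lit 1661) (nat_lit 115) (.e (nat_lit 393274) (nat_lit 23) (.e (nat_lit 426396) (nat_lit 15) (.e (nat_lit 2059) (nat_lit 142) (.e (nat_lit 704595) (nat_lit 5) (.e (nat_lit 180278) (nat_lit 32) .nil)))))) (.g (nat_lit 0) .nil .nil))) 
(.lf (nat_lit 71522) (.g (nat_lit 1767) (.e (nat_lit 1661) (nat_lit 115) (.e (nat_lit 393291) (nat_lit 26) (.e (nat_lit 475202) (nat_lit 40) (.e (nat_lit 712448) (nat_lit 5) .nil)))) .nil))) (.nd (nat_lit 5) 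
(.lf (nat_lit 71506) (.g (nat_lit 2207) (.e (nat_lit 1661) (nat_lit 115) (.e (nat_lit 393283) (nat_lit 24) (.e (nat_lit 434271) (nat_lit 38) (.e (nat_lit 655378) (nat_lit 4) (.e (nat_lit 172033) (nat_lit 0) (.e (nat_lit 7537) (nat_lit 402) .nil)))))) (.g (nat_lit 4) .nil .nil))) 
(.lf (nat_lit 71538) (.g (nat_lit 2844) (.e (nat_lit 1661) (nat_lit 115) (.e (nat_lit 393294) (nat_lit 26) (.e (nat_lit 475198) (nat_lit 40) (.e (nat_lit 704595) (nat_lit 5) (.e (nat_lit 180278) (nat_lit 32) .nil))))) (.g (nat_lit 5) .nil .nil))))) (.nd (nat_lit 4) (.nd (nat_lit 5) 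
(.lf (nat_lit 71498) (.g (nat_lit 2466) (.e (nat_lit 1661) (nat_lit 115) (.e (nat_lit 393276) (nat_lit 23) (.e (nat_lit 426412) (nat_lit 15) (.e (nat_lit 2059) (nat_lit 142) (.e (nat_lit 704595) (nat_lit 5) .nil))))) .nil)) 
(.lf (nat_lit 71530) (.g (nat_lit 1547) (.e (nat_lit 1661) (nat_lit 115) (.e (nat_lit 393291) (nat_lit 26) (.e (nat_lit 475218) (nat_lit 44) .nil))) .nil))) (.nd (nat_lit 5) 
(.lf (nat_lit 71514) (.g (nat_lit 1547) (.e (nat_lit 1661) (nat_lit 115) (.e (nat_lit 393291) (nat_lit 26) (.e (nat_lit 475185) (nat_lit 29) .nil))) .nil)) 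
(.lf (nat_lit 71546) (.g (nat_lit 2912) (.e (nat_lit 1661) (nat_lit 115) (.e (nat_lit 393297) (nat_lit 27) (.e (nat_lit 491570) (nat_lit 13) (.e (nat_lit 393238) (nat_lit 17) (.e (nat_lit 7537) (nat_lit 402) .nil))))) (.g (nat_lit 0) .nil .nil)))))) (.nd (nat_lit 3) (.nd (nat_lit 4) (.nd (nat_lit 5) 
(.lf (nat_lit 71494) (.g (nat_lit 3462) (.e (nat_lit 1661) (nat_lit 115) (.e (nat_lit 393274) (nat_lit 23) (.e (nat_lit 426412) (nat_lit 15) (.e (nat_lit 2059) (nat_lit 142) (.e (nat_lit 704595) (nat_lit 5) (.e (nat_lit 180277) (nat_lit 32) .nil)))))) (.g (nat_lit 0) .nil .nil))) 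
(.lf (nat_lit 71526) (.g (nat_lit 929) (.e (nat_lit 1661) (nat_lit 115) (.e (nat_lit 393291) (nat_lit 26) (.e (nat_lit 475209) (nat_lit 41) .nil))) .nil))) (.nd (nat_lit 5) 
(.lf (nat_lit 71510) (.g (nat_lit 2081) (.e (nat_lit 1661) (nat_lit 115) (.e (nat_lit 393284) (nat_lit 24) (.e (nat_lit 434209) (nat_lit 18) (.e (nat_lit 5546) (nat_lit 306) (.e (nat_lit 2640) (nat_lit 165) .nil))))) .nil)) 
(.lf (nat_lit 71542) (.g (nat_lit 1756) (.e (nat_lit 1661) (nat_lit 115) (.e (nat_lit 393294) (nat_lit 26) (.e (nat_lit 475210) (nat_lit 41) (.e (nat_lit 712749) (nat_lit 28) .nil)))) .nil)))) (.nd (nat_lit 4) (.nd (nat_lit 5) 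
(.lf (nat_lit 71502) (.g (nat_lit 1974) (.e (nat_lit 1661) (nat_lit 115) (.e (nat_lit 393282) (nat_lit 24) (.e (nat_lit 434271) (nat_lit 38) (.e (nat_lit 655378) (nat_lit 4) (.e (nat_lit 172033) (nat_lit 0) (.e (nat_lit 7537) (nat_lit 402) .nil)))))) (.g (nat_lit 4) .nil .nil))) 
(.lf (nat_lit 71534) (.g (nat_lit 2589) (.e (nat_lit 1661) (nat_lit 115) (.e (nat_lit 393292) (nat_lit 26) (.e (nat_lit 475198) (nat_lit 40) (.e (nat_lit 704595) (nat_lit 5) (.e (nat_lit 180278) (nat_lit 32) .nil))))) (.g (nat_lit 0) .nil .nil)))) (.nd (nat_lit 5) 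
(.lf (nat_lit 71518) (.g (nat_lit 2737) (.e (nat_lit 1661) (nat_lit 115) (.e (nat_lit 393291) (nat_lit 26) (.e (nat_lit 475197) (nat_lit 40) (.e (nat_lit 704595) (nat_lit 5) (.e (nat_lit 180278) (nat_lit 32) .nil))))) (.g (nat_lit 0) .nil .nil))) 
(.lf (nat_lit 71550) (.g (nat_lit 3689) (.e (nat_lit 1661) (nat_lit 115) (.e (nat_lit 393297) (nat_lit 27) (.e (nat_lit 491571) (nat_lit 13) (.e (nat_lit 393238) (nat_lit 17) (.e (nat_lit 7537) (nat_lit 402) .nil))))) (.g (nat_lit 0) .nil .nil)))))))) (.nd (nat_lit 1) (.nd (nat_lit 2) (.nd (nat_lit 3) (.nd (nat_lit 4) (.nd (nat_lit 5) 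
(.lf (nat_lit 71489) (.g (nat_lit 3606) (.e (nat_lit 1661) (nat_lit 115) (.e (nat_lit 393274) (nat_lit 23) (.e (nat_lit 426396) (nat_lit 15) (.e (nat_lit 2059) (nat_lit 142) (.e (nat_lit 704595) (nat_lit 5) (.e (nat_lit 180277) (nat_lit 32) .nil)))))) (.g (nat_lit 0) .nil .nil))) 
(.lf (nat_lit 71521) (.g (nat_lit 3033) (.e (nat_lit 1661) (nat_lit 115) (.e (nat_lit 393291) (nat_lit 26) (.e (nat_lit 475199) (nat_lit 40) (.e (nat_lit 704596) (nat_lit 5) (.e (nat_lit 180277) (nat_lit 32) .nil))))) (.g (nat_lit 0) .nil .nil)))) (.nd (nat_lit 5) 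
(.lf (nat_lit 71505) (.g (nat_lit 2242) (.e (nat_lit 1661) (nat_lit 115) (.e (nat_lit 393282) (nat_lit 24) (.e (nat_lit 434272) (nat_lit 38) (.e (nat_lit 655378) (nat_lit 4) (.e (nat_lit 172037) (nat_lit 0) (.e (nat_lit 7557) (nat_lit 402) .nil)))))) (.g (nat_lit 4) .nil .nil))) 
(.lf (nat_lit 71537) (.g (nat_lit 2340) (.e (nat_lit 1661) (nat_lit 115) (.e (nat_lit 393294) (nat_lit 26) (.e (nat_lit 475197) (nat_lit 40) (.e (nat_lit 704595) (nat_lit 5) (.e (nat_lit 180278) (nat_lit 32) .nil))))) (.g (nat_lit 5) .nil .nil))))) (.nd (nat_lit 4) (.nd (nat_lit 5) 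
(.lf (nat_lit 71497) (.g (nat_lit 3415) (.e (nat_lit 1661) (nat_lit 115) (.e (nat_lit 393275) (nat_lit 23) (.e (nat_lit 426396) (nat_lit 15) (.e (nat_lit 2059) (nat_lit 142) (.e (nat_lit 704596) (nat_lit 5) (.e (nat_lit 180277) (nat_lit 32) .nil)))))) (.g (nat_lit 0) .nil .nil))) 
(.lf (nat_lit 71529) (.g (nat_lit 1619) (.e (nat_lit 1661) (nat_lit 115) (.e (nat_lit 393291) (nat_lit 26) (.e (nat_lit 475210) (nat_lit 41) (.e (nat_lit 712748) (nat_lit 28) .nil)))) .nil))) (.nd (nat_lit 5) 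
(.lf (nat_lit 71513) (.g (nat_lit 2484) (.e (nat_lit 1661) (nat_lit 115) (.e (nat_lit 393290) (nat_lit 26) (.e (nat_lit 475211) (nat_lit 41) (.e (nat_lit 712749) (nat_lit 28) (.e (nat_lit 434180) (nat_lit 0) .nil))))) (.g (nat_lit 5) .nil .nil))) 
(.lf (nat_lit 71545) (.g (nat_lit 889) (.e (nat_lit 1661) (nat_lit 115) (.e (nat_lit 393297) (nat_lit 27) (.e (nat_lit 491547) (nat_lit 9) (.e (nat_lit 336421) (nat_lit 28) .nil)))) .nil))))) (.nd (nat_lit 3) (.nd (nat_lit 4) (.nd (nat_lit 5) 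
(.lf (nat_lit 71493) (.g (nat_lit 2345) (.e (nat_lit 1661) (nat_lit 115) (.e (nat_lit 393274) (nat_lit 23) (.e (nat_lit 426412) (nat_lit 15) (.e (nat_lit 2058) (nat_lit 142) (.e (nat_lit 704596) (nat_lit 5) (.e (nat_lit 180277) (nat_lit 32) .nil)))))) (.g (nat_lit 5) .nil .nil))) 
(.lf (nat_lit 71525) (.g (nat_lit 2661) (.e (nat_lit 1661) (nat_lit 115) (.e (nat_lit 393291) (nat_lit 26) (.e (nat_lit 475207) (nat_lit 41) (.e (nat_lit 712749) (nat_lit 28) (.e (nat_lit 434180) (nat_lit 0) .nil))))) (.g (nat_lit 4) .nil .nil)))) (.nd (nat_lit 5) 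
(.lf (nat_lit 71509) (.g (nat_lit 2110) (.e (nat_lit 1661) (nat_lit 115) (.e (nat_lit 393283) (nat_lit 24) (.e (nat_lit 434272) (nat_lit 38) (.e (nat_lit 655378) (nat_lit 4) (.e (nat_lit 172037) (nat_lit 0) (.e (nat_lit 7557) (nat_lit 402) .nil)))))) (.g (nat_lit 4) .nil .nil))) 
(.lf (nat_lit 71541) (.g (nat_lit 1503) (.e (nat_lit 1661) (nat_lit 115) (.e (nat_lit 393294) (nat_lit 26) (.e (nat_lit 475201) (nat_lit 40) (.e (nat_lit 712448) (nat_lit 5) .nil)))) .nil)))) (.nd (nat_lit 4) (.nd (nat_lit 5) 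
(.lf (nat_lit 71501) (.g (nat_lit 2016) (.e (nat_lit 1661) (nat_lit 115) (.e (nat_lit 393281) (nat_lit 23) (.e (nat_lit 426107) (nat_lit 1) (.e (nat_lit 164348) (nat_lit 240) (.e (nat_lit 2640) (nat_lit 165) .nil))))) .nil)) 
(.lf (nat_lit 71533) (.g (nat_lit 2675) (.e (nat_lit 1661) (nat_lit 115) (.e (nat_lit 393292) (nat_lit 26) (.e (nat_lit 475198) (nat_lit 40) (.e (nat_lit 704595) (nat_lit 5) (.e (nat_lit 180277) (nat_lit 32) .nil))))) (.g (nat_lit 0) .nil .nil)))) (.nd (nat_lit 5) 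
(.lf (nat_lit 71517) (.g (nat_lit 2743) (.e (nat_lit 1661) (nat_lit 115) (.e (nat_lit 393291) (nat_lit 26) (.e (nat_lit 475197) (nat_lit 40) (.e (nat_lit 704595) (nat_lit 5) (.e (nat_lit 180277) (nat_lit 32) .nil))))) (.g (nat_lit 5) .nil .nil))) 
(.lf (nat_lit 71549) (.g (nat_lit 2093) (.e (nat_lit 1661) (nat_lit 115) (.e (nat_lit 393297) (nat_lit 27) (.e (nat_lit 491571) (nat_lit 13) (.e (nat_lit 393235) (nat_lit 17) (.e (nat_lit 7562) (nat_lit 402) .nil))))) (.g (nat_lit 4) .nil .nil))))))) (.nd (nat_lit 2) (.nd (nat_lit 3) (.nd (nat_lit 4) (.nd (nat_lit 5) 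
(.lf (nat_lit 71491) (.g (nat_lit 2909) (.e (nat_lit 1661) (nat_lit 115) (.e (nat_lit 393274) (nat_lit 23) (.e (nat_lit 426412) (nat_lit 15) (.e (nat_lit 2058) (nat_lit 142) (.e (nat_lit 704595) (nat_lit 5) (.e (nat_lit 180277) (nat_lit 32) .nil)))))) (.g (nat_lit 0) .nil .nil))) 
(.lf (nat_lit 71523) (.g (nat_lit 2393) (.e (nat_lit 1661) (nat_lit 115) (.e (nat_lit 393291) (nat_lit 26) (.e (nat_lit 475205) (nat_lit 40) (.e (nat_lit 704594) (nat_lit 5) (.e (nat_lit 180278) (nat_lit 32) .nil))))) (.g (nat_lit 0) .nil .nil)))) (.nd (nat_lit 5) 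
(.lf (nat_lit 71507) (.g (nat_lit 1858) (.e (nat_lit 1661) (nat_lit 115) (.e (nat_lit 393283) (nat_lit 24) (.e (nat_lit 434271) (nat_lit 38) (.e (nat_lit 655378) (nat_lit 4) (.e (nat_lit 172037) (nat_lit 0) (.e (nat_lit 7557) (nat_lit 402) .nil)))))) (.g (nat_lit 4) .nil .nil))) 
(.lf (nat_lit 71539) (.g (nat_lit 2561) (.e (nat_lit 1661) (nat_lit 115) (.e (nat_lit 393294) (nat_lit 26) (.e (nat_lit 475198) (nat_lit 40) (.e (nat_lit 704596) (nat_lit 5) (.e (nat_lit 180277) (nat_lit 32) .nil))))) (.g (nat_lit 4) .nil .nil))))) (.nd (nat_lit 4) (.nd (nat_lit 5) 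
(.lf (nat_lit 71499) (.g (nat_lit 2517) (.e (nat_lit 1661) (nat_lit 115) (.e (nat_lit 393277) (nat_lit 23) (.e (nat_lit 426412) (nat_lit 15) (.e (nat_lit 2059) (nat_lit 142) (.e (nat_lit 704596) (nat_lit 5) (.e (nat_lit 180277) (nat_lit 32) .nil)))))) (.g (nat_lit 4) .nil .nil))) 
(.lf (nat_lit 71531) (.g (nat_lit 1496) (.e (nat_lit 1661) (nat_lit 115) (.e (nat_lit 393291) (nat_lit 26) (.e (nat_lit 475219) (nat_lit 44) .nil))) .nil))) (.nd (nat_lit 5) 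
(.lf (nat_lit 71515) (.g (nat_lit 1788) (.e (nat_lit 1661) (nat_lit 115) (.e (nat_lit 393291) (nat_lit 26) (.e (nat_lit 475195) (nat_lit 40) (.e (nat_lit 704595) (nat_lit 5) (.e (nat_lit 180278) (nat_lit 32) .nil))))) (.g (nat_lit 4) .nil .nil))) 
(.lf (nat_lit 71547) (.g (nat_lit 1723) (.e (nat_lit 1661) (nat_lit 115) (.e (nat_lit 393297) (nat_lit 27) (.e (nat_lit 491571) (nat_lit 13) (.e (nat_lit 393230) (nat_lit 17) .nil)))) .nil))))) (.nd (nat_lit 3) (.nd (nat_lit 4) (.nd (nat_lit 5) 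
(.lf (nat_lit 71495) (.g (nat_lit 3282) (.e (nat_lit 1661) (nat_lit 115) (.e (nat_lit 393274) (nat_lit 23) (.e (nat_lit 426412) (nat_lit 15) (.e (nat_lit 2059) (nat_lit 142) (.e (nat_lit 704595) (nat_lit 5) (.e (nat_lit 180278) (nat_lit 32) .nil)))))) (.g (nat_lit 0) .nil .nil))) 
(.lf (nat_lit 71527) (.g (nat_lit 1589) (.e (nat_lit 1661) (nat_lit 115) (.e (nat_lit 393291) (nat_lit 26) (.e (nat_lit 475209) (nat_lit 41) (.e (nat_lit 712747) (nat_lit 28) .nil)))) .nil))) (.nd (nat_lit 5) 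
(.lf (nat_lit 71511) (.g (nat_lit 1892) (.e (nat_lit 1661) (nat_lit 115) (.e (nat_lit 393284) (nat_lit 24) (.e (nat_lit 434271) (nat_lit 38) (.e (nat_lit 655376) (nat_lit 4) (.e (nat_lit 172037) (nat_lit 0) (.e (nat_lit 7557) (nat_lit 402) .nil)))))) (.g (nat_lit 4) .nil .nil))) 
(.lf (nat_lit 71543) (.g (nat_lit 596) (.e (nat_lit 1661) (nat_lit 115) (.e (nat_lit 393294) (nat_lit 26) (.e (nat_lit 475211) (nat_lit 41) .nil))) .nil)))) (.nd (nat_lit 4) (.nd (nat_lit 5) 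
(.lf (nat_lit 71503) (.g (nat_lit 2075) (.e (nat_lit 1661) (nat_lit 115) (.e (nat_lit 393282) (nat_lit 24) (.e (nat_lit 434271) (nat_lit 38) (.e (nat_lit 655378) (nat_lit 4) (.e (nat_lit 172037) (nat_lit 0) (.e (nat_lit 7557) (nat_lit 402) .nil)))))) (.g (nat_lit 4) .nil .nil))) 
(.lf (nat_lit 71535) (.g (nat_lit 181) (.e (nat_lit 1661) (nat_lit 115) (.e (nat_lit 393292) (nat_lit 26) (.e (nat_lit 475205) (nat_lit 40) .nil))) .nil))) (.nd (nat_lit 5) 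
(.lf (nat_lit 71519) (.g (nat_lit 3160) (.e (nat_lit 1661) (nat_lit 115) (.e (nat_lit 393291) (nat_lit 26) (.e (nat_lit 475198) (nat_lit 40) (.e (nat_lit 704595) (nat_lit 5) (.e (nat_lit 180277) (nat_lit 32) .nil))))) (.g (nat_lit 0) .nil .nil))) 
(.lf (nat_lit 71551) (.g (nat_lit 2456) (.e (nat_lit 1661) (nat_lit 115) (.e (nat_lit 393297) (nat_lit 27) (.e (nat_lit 491571) (nat_lit 13) (.e (nat_lit 393238) (nat_lit 17) (.e (nat_lit 7555) (nat_lit 402) .nil))))) .nil))))))))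

noncomputable def tv978 : DT := (.nd (nat_lit 0) (.nd (nat_lit 1) (.nd (nat_lit 2) (.nd (nat_lit 3) (.nd (nat_lit 4) (.nd (nat_lit 5) (.nd (nat_lit 6) 
(.lf (nat_lit 71552) (.g (nat_lit 2478) (.e (nat_lit 1661) (nat_lit 115) (.e (nat_lit 393297) (nat_lit 27) (.e (nat_lit 491571) (nat_lit 13) (.e (nat_lit 393238) (nat_lit 17) (.e (nat_lit 7936) (nat_lit 402) .nil))))) .nil)) 
(.lf (nat_lit 71616) (.g (nat_lit 2284) (.e (nat_lit 1661) (nat_lit 115) (.e (nat_lit 393299) (nat_lit 27) (.e (nat_lit 491560) (nat_lit 10) (.e (nat_lit 344096) (nat_lit 18) (.e (nat_lit 7247) (nat_lit 383) .nil))))) .nil))) (.nd (nat_lit 6) 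
(.lf (nat_lit 71584) (.g (nat_lit 1056) (.e (nat_lit 1661) (nat_lit 115) (.e (nat_lit 393299) (nat_lit 27) (.e (nat_lit 491528) (nat_lit 0) .nil))) .nil)) 
(.lf (nat_lit 71648) (.g (nat_lit 867) (.e (nat_lit 1662) (nat_lit 115) (.e (nat_lit 393294) (nat_lit 26) (.e (nat_lit 475198) (nat_lit 40) .nil))) .nil)))) (.nd (nat_lit 5) (.nd (nat_lit 6) 
(.lf (nat_lit 71568) (.g (nat_lit 1910) (.e (nat_lit 1661) (nat_lit 115) (.e (nat_lit 393298) (nat_lit 27) (.e (nat_lit 491571) (nat_lit 13) (.e (nat_lit 393232) (nat_lit 17) .nil)))) .nil)) 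
(.lf (nat_lit 71632) (.g (nat_lit 1866) (.e (nat_lit 1661) (nat_lit 115) (.e (nat_lit 393299) (nat_lit 27) (.e (nat_lit 491568) (nat_lit 13) (.e (nat_lit 393245) (nat_lit 17) .nil)))) .nil))) (.nd (nat_lit 6) 
(.lf (nat_lit 71600) (.g (nat_lit 3263) (.e (nat_lit 1661) (nat_lit 115) (.e (nat_lit 393299) (nat_lit 27) (.e (nat_lit 491549) (nat_lit 9) (.e (nat_lit 336421) (nat_lit 28) (.e (nat_lit 434180) (nat_lit 0) .nil))))) (.g (nat_lit 0) .nil .nil))) 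
(.lf (nat_lit 71664) (.g (nat_lit 1597) (.e (nat_lit 1663) (nat_lit 115) (.e (nat_lit 393229) (nat_lit 9) (.e (nat_lit 336186) (nat_lit 11) (.e (nat_lit 368676) (nat_lit 21) (.e (nat_lit 516117) (nat_lit 1) (.e (nat_lit 164159) (nat_lit 152) (.e (nat_lit 1038) (nat_lit 81) .nil))))))) (.g (nat_lit 4) .nil .nil)))))) (.nd (nat_lit 4) (.nd (nat_lit 5) (.nd (nat_lit 6) 
(.lf (nat_lit 71560) (.g (nat_lit 2255) (.e (nat_lit 1661) (nat_lit 115) (.e (nat_lit 393298) (nat_lit 27) (.e (nat_lit 491569) (nat_lit 13) (.e (nat_lit 401152) (nat_lit 17) .nil)))) .nil)) 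
(.lf (nat_lit 71624) (.g (nat_lit 3261) (.e (nat_lit 1661) (nat_lit 115) (.e (nat_lit 393299) (nat_lit 27) (.e (nat_lit 491560) (nat_lit 10) (.e (nat_lit 344097) (nat_lit 18) (.e (nat_lit 7255) (nat_lit 383) (.e (nat_lit 8192) (nat_lit 0) (.e (nat_lit 5355) (nat_lit 298) .nil))))))) (.g (nat_lit 4) .nil .nil)))) (.nd (nat_lit 6) 
(.lf (nat_lit 71592) (.g (nat_lit 1056) (.e (nat_lit 1661) (nat_lit 115) (.e (nat_lit 393299) (nat_lit 27) (.e (nat_lit 491539) (nat_lit 3) .nil))) .nil)) 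
(.lf (nat_lit 71656) (.g (nat_lit 1028) (.e (nat_lit 1662) (nat_lit 115) (.e (nat_lit 393301) (nat_lit 27) (.e (nat_lit 491568) (nat_lit 13) .nil))) .nil)))) (.nd (nat_lit 5) (.nd (nat_lit 6) 
(.lf (nat_lit 71576) (.g (nat_lit 2402) (.e (nat_lit 1661) (nat_lit 115) (.e (nat_lit 393298) (nat_lit 27) (.e (nat_lit 491571) (nat_lit 13) (.e (nat_lit 393244) (nat_lit 17) .nil)))) .nil)) 
(.lf (nat_lit 71640) (.g (nat_lit 2387) (.e (nat_lit 1661) (nat_lit 115) (.e (nat_lit 393299) (nat_lit 27) (.e (nat_lit 491570) (nat_lit 13) (.e (nat_lit 393242) (nat_lit 17) (.e (nat_lit 7556) (nat_lit 402) .nil))))) (.g (nat_lit 4) .nil .nil)))) (.nd (nat_lit 6) 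
(.lf (nat_lit 71608) (.g (nat_lit 4616) (.e (nat_lit 1661) (nat_lit 115) (.e (nat_lit 393299) (nat_lit 27) (.e (nat_lit 491560) (nat_lit 10) (.e (nat_lit 344090) (nat_lit 18) (.e (nat_lit 7247) (nat_lit 383) (.e (nat_lit 8194) (nat_lit 0) (.e (nat_lit 5355) (nat_lit 298) .nil))))))) (.g (nat_lit 0) .nil .nil))) 
(.lf (nat_lit 71672) (.g (nat_lit 1452) (.e (nat_lit 1663) (nat_lit 115) (.e (nat_lit 393238) (nat_lit 17) (.e (nat_lit 6989) (nat_lit 377) (.e (nat_lit 2781) (nat_lit 178) .nil)))) .nil)))))) (.nd (nat_lit 3) (.nd (nat_lit 4) (.nd (nat_lit 5) (.nd (nat_lit 6) 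
(.lf (nat_lit 71556) (.g (nat_lit 1872) (.e (nat_lit 1661) (nat_lit 115) (.e (nat_lit 393298) (nat_lit 27) (.e (nat_lit 491549) (nat_lit 9) (.e (nat_lit 336425) (nat_lit 28) .nil)))) .nil)) 
(.lf (nat_lit 71620) (.g (nat_lit 3444) (.e (nat_lit 1661) (nat_lit 115) (.e (nat_lit 393299) (nat_lit 27) (.e (nat_lit 491560) (nat_lit 10) (.e (nat_lit 344097) (nat_lit 18) (.e (nat_lit 7252) (nat_lit 383) (.e (nat_lit 8192) (nat_lit 0) (.e (nat_lit 5355) (nat_lit 298) .nil))))))) (.g (nat_lit 4) .nil .nil)))) (.nd (nat_lit 6) 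
(.lf (nat_lit 71588) (.g (nat_lit 2435) (.e (nat_lit 1661) (nat_lit 115) (.e (nat_lit 393299) (nat_lit 27) (.e (nat_lit 491538) (nat_lit 3) (.e (nat_lit 98342) (nat_lit 20) (.e (nat_lit 221218) (nat_lit 24) (.e (nat_lit 212994) (nat_lit 0) .nil)))))) (.g (nat_lit 4) .nil .nil))) 
(.lf (nat_lit 71652) (.g (nat_lit 767) (.e (nat_lit 1662) (nat_lit 115) (.e (nat_lit 393298) (nat_lit 27) (.e (nat_lit 491550) (nat_lit 9) .nil))) .nil)))) (.nd (nat_lit 5) (.nd (nat_lit 6) 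
(.lf (nat_lit 71572) (.g (nat_lit 3394) (.e (nat_lit 1661) (nat_lit 115) (.e (nat_lit 393298) (nat_lit 27) (.e (nat_lit 491571) (nat_lit 13) (.e (nat_lit 393238) (nat_lit 17) (.e (nat_lit 7555) (nat_lit 402) .nil))))) (.g (nat_lit 4) .nil .nil))) 
(.lf (nat_lit 71636) (.g (nat_lit 3810) (.e (nat_lit 1661) (nat_lit 115) (.e (nat_lit 393299) (nat_lit 27) (.e (nat_lit 491570) (nat_lit 13) (.e (nat_lit 393238) (nat_lit 17) (.e (nat_lit 7537) (nat_lit 402) .nil))))) (.g (nat_lit 0) .nil .nil)))) (.nd (nat_lit 6) 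
(.lf (nat_lit 71604) (.g (nat_lit 355) (.e (nat_lit 1661) (nat_lit 115) (.e (nat_lit 393299) (nat_lit 27) (.e (nat_lit 491560) (nat_lit 10) .nil))) .nil)) 
(.lf (nat_lit 71668) (.g (nat_lit 3971) (.e (nat_lit 1663) (nat_lit 115) (.e (nat_lit 393232) (nat_lit 17) (.e (nat_lit 7581) (nat_lit 405) (.e (nat_lit 57480) (nat_lit 28) (.e (nat_lit 557105) (nat_lit 14) (.e (nat_lit 180265) (nat_lit 21) (.e (nat_lit 663555) (nat_lit 0) .nil))))))) (.g (nat_lit 0) .nil .nil)))))) (.nd (nat_lit 4) (.nd (nat_lit 5) (.nd (nat_lit 6) 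
(.lf (nat_lit 71564) (.g (nat_lit 1837) (.e (nat_lit 1661) (nat_lit 115) (.e (nat_lit 393298) (nat_lit 27) (.e (nat_lit 491570) (nat_lit 13) (.e (nat_lit 393244) (nat_lit 17) .nil)))) .nil)) 
(.lf (nat_lit 71628) (.g (nat_lit 847) (.e (nat_lit 1661) (nat_lit 115) (.e (nat_lit 393299) (nat_lit 27) (.e (nat_lit 491567) (nat_lit 13) .nil))) .nil))) (.nd (nat_lit 6) 
(.lf (nat_lit 71596) (.g (nat_lit 2833) (.e (nat_lit 1661) (nat_lit 115) (.e (nat_lit 393299) (nat_lit 27) (.e (nat_lit 491547) (nat_lit 9) (.e (nat_lit 336421) (nat_lit 28) (.e (nat_lit 434181) (nat_lit 0) .nil))))) (.g (nat_lit 0) .nil .nil))) 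
(.lf (nat_lit 71660) (.g (nat_lit 1827) (.e (nat_lit 1663) (nat_lit 115) (.e (nat_lit 393229) (nat_lit 9) (.e (nat_lit 336088) (nat_lit 9) (.e (nat_lit 336019) (nat_lit 3) (.e (nat_lit 98334) (nat_lit 18) .nil))))) .nil)))) (.nd (nat_lit 5) (.nd (nat_lit 6) 
(.lf (nat_lit 71580) (.g (nat_lit 715) (.e (nat_lit 1661) (nat_lit 115) (.e (nat_lit 393299) (nat_lit 27) (.e (nat_lit 491526) (nat_lit 0) .nil))) .nil)) 
(.lf (nat_lit 71644) (.g (nat_lit 1209) (.e (nat_lit 1662) (nat_lit 115) (.e (nat_lit 393268) (nat_lit 23) (.e (nat_lit 426444) (nat_lit 19) .nil))) .nil))) (.nd (nat_lit 6) 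
(.lf (nat_lit 71612) (.g (nat_lit 2995) (.e (nat_lit 1661) (nat_lit 115) (.e (nat_lit 393299) (nat_lit 27) (.e (nat_lit 491560) (nat_lit 10) (.e (nat_lit 344091) (nat_lit 18) (.e (nat_lit 7265) (nat_lit 384) (.e (nat_lit 57347) (nat_lit 0) (.e (nat_lit 6450) (nat_lit 343) .nil))))))) (.g (nat_lit 4) .nil .nil))) 
(.lf (nat_lit 71676) (.g (nat_lit 1849) (.e (nat_lit 1663) (nat_lit 115) (.e (nat_lit 393238) (nat_lit 17) (.e (nat_lit 7107) (nat_lit 380) (.e (nat_lit 164339) (nat_lit 232) (.e (nat_lit 446) (nat_lit 33) (.e (nat_lit 442112) (nat_lit 0) .nil)))))) (.g (nat_lit 5) .nil .nil)))))))) (.nd (nat_lit 2) (.nd (nat_lit 3) (.nd (nat_lit 4) (.nd (nat_lit 5) (.nd (nat_lit 6) 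
(.lf (nat_lit 71554) (.g (nat_lit 2938) (.e (nat_lit 1661) (nat_lit 115) (.e (nat_lit 393298) (nat_lit 27) (.e (nat_lit 491549) (nat_lit 9) (.e (nat_lit 336369) (nat_lit 27) (.e (nat_lit 426025) (nat_lit 0) (.e (nat_lit 7537) (nat_lit 402) .nil)))))) (.g (nat_lit 4) .nil .nil))) 
(.lf (nat_lit 71618) (.g (nat_lit 3171) (.e (nat_lit 1661) (nat_lit 115) (.e (nat_lit 393299) (nat_lit 27) (.e (nat_lit 491560) (nat_lit 10) (.e (nat_lit 344096) (nat_lit 18) (.e (nat_lit 7265) (nat_lit 384) (.e (nat_lit 57347) (nat_lit 0) (.e (nat_lit 6450) (nat_lit 343) .nil))))))) (.g (nat_lit 4) .nil .nil)))) (.nd (nat_lit 6) 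
(.lf (nat_lit 71586) (.g (nat_lit 1556) (.e (nat_lit 1661) (nat_lit 115) (.e (nat_lit 393299) (nat_lit 27) (.e (nat_lit 491530) (nat_lit 0) (.e (nat_lit 1796) (nat_lit 119) (.e (nat_lit 516131) (nat_lit 3) .nil))))) .nil)) 
(.lf (nat_lit 71650) (.g (nat_lit 1449) (.e (nat_lit 1662) (nat_lit 115) (.e (nat_lit 393295) (nat_lit 26) (.e (nat_lit 475199) (nat_lit 40) (.e (nat_lit 704595) (nat_lit 5) (.e (nat_lit 188160) (nat_lit 32) .nil))))) .nil)))) (.nd (nat_lit 5) (.nd (nat_lit 6) 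
(.lf (nat_lit 71570) (.g (nat_lit 2100) (.e (nat_lit 1661) (nat_lit 115) (.e (nat_lit 393298) (nat_lit 27) (.e (nat_lit 491571) (nat_lit 13) (.e (nat_lit 393235) (nat_lit 17) (.e (nat_lit 7936) (nat_lit 402) .nil))))) (.g (nat_lit 4) .nil .nil))) 
(.lf (nat_lit 71634) (.g (nat_lit 391) (.e (nat_lit 1661) (nat_lit 115) (.e (nat_lit 393299) (nat_lit 27) (.e (nat_lit 491570) (nat_lit 13) .nil))) .nil))) (.nd (nat_lit 6) 
(.lf (nat_lit 71602) (.g (nat_lit 331) (.e (nat_lit 1661) (nat_lit 115) (.e (nat_lit 393299) (nat_lit 27) (.e (nat_lit 491552) (nat_lit 9) .nil))) .nil)) 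
(.lf (nat_lit 71666) (.g (nat_lit 3687) (.e (nat_lit 1663) (nat_lit 115) (.e (nat_lit 393232) (nat_lit 17) (.e (nat_lit 7581) (nat_lit 405) (.e (nat_lit 57479) (nat_lit 28) (.e (nat_lit 557105) (nat_lit 14) (.e (nat_lit 180265) (nat_lit 21) (.e (nat_lit 663555) (nat_lit 0) .nil))))))) (.g (nat_lit 5) .nil .nil)))))) (.nd (nat_lit 4) (.nd (nat_lit 5) (.nd (nat_lit 6) 
(.lf (nat_lit 71562) (.g (nat_lit 2136) (.e (nat_lit 1661) (nat_lit 115) (.e (nat_lit 393298) (nat_lit 27) (.e (nat_lit 491570) (nat_lit 13) (.e (nat_lit 393238) (nat_lit 17) (.e (nat_lit 7936) (nat_lit 402) .nil))))) (.g (nat_lit 4) .nil .nil))) 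
(.lf (nat_lit 71626) (.g (nat_lit 2761) (.e (nat_lit 1661) (nat_lit 115) (.e (nat_lit 393299) (nat_lit 27) (.e (nat_lit 491560) (nat_lit 10) (.e (nat_lit 344097) (nat_lit 18) (.e (nat_lit 7272) (nat_lit 385) .nil))))) .nil))) (.nd (nat_lit 6) 
(.lf (nat_lit 71594) (.g (nat_lit 2395) (.e (nat_lit 1661) (nat_lit 115) (.e (nat_lit 393299) (nat_lit 27) (.e (nat_lit 491540) (nat_lit 3) (.e (nat_lit 98342) (nat_lit 20) (.e (nat_lit 221219) (nat_lit 24) .nil))))) .nil)) 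
(.lf (nat_lit 71658) (.g (nat_lit 1761) (.e (nat_lit 1663) (nat_lit 115) (.e (nat_lit 393229) (nat_lit 9) (.e (nat_lit 336087) (nat_lit 9) (.e (nat_lit 336019) (nat_lit 3) (.e (nat_lit 98334) (nat_lit 18) (.e (nat_lit 164159) (nat_lit 152) (.e (nat_lit 1022) (nat_lit 81) .nil))))))) (.g (nat_lit 4) .nil .nil))))) (.nd (nat_lit 5) (.nd (nat_lit 6) 
(.lf (nat_lit 71578) (.g (nat_lit 2360) (.e (nat_lit 1661) (nat_lit 115) (.e (nat_lit 393298) (nat_lit 27) (.e (nat_lit 491571) (nat_lit 13) (.e (nat_lit 401152) (nat_lit 17) .nil)))) .nil)) 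
(.lf (nat_lit 71642) (.g (nat_lit 1733) (.e (nat_lit 1661) (nat_lit 115) (.e (nat_lit 393299) (nat_lit 27) (.e (nat_lit 491570) (nat_lit 13) (.e (nat_lit 393245) (nat_lit 17) .nil)))) .nil))) (.nd (nat_lit 6) 
(.lf (nat_lit 71610) (.g (nat_lit 3410) (.e (nat_lit 1661) (nat_lit 115) (.e (nat_lit 393299) (nat_lit 27) (.e (nat_lit 491560) (nat_lit 10) (.e (nat_lit 344090) (nat_lit 18) (.e (nat_lit 7265) (nat_lit 384) (.e (nat_lit 57347) (nat_lit 0) (.e (nat_lit 6450) (nat_lit 343) .nil))))))) (.g (nat_lit 5) .nil .nil))) 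
(.lf (nat_lit 71674) (.g (nat_lit 1865) (.e (nat_lit 1663) (nat_lit 115) (.e (nat_lit 393238) (nat_lit 17) (.e (nat_lit 7107) (nat_lit 380) (.e (nat_lit 164337) (nat_lit 232) (.e (nat_lit 446) (nat_lit 33) (.e (nat_lit 442112) (nat_lit 0) .nil)))))) (.g (nat_lit 4) .nil .nil))))))) (.nd (nat_lit 3) (.nd (nat_lit 4) (.nd (nat_lit 5) (.nd (nat_lit 6) 
(.lf (nat_lit 71558) (.g (nat_lit 3179) (.e (nat_lit 1661) (nat_lit 115) (.e (nat_lit 393298) (nat_lit 27) (.e (nat_lit 491550) (nat_lit 9) (.e (nat_lit 336421) (nat_lit 28) (.e (nat_lit 434180) (nat_lit 0) .nil))))) (.g (nat_lit 0) .nil .nil))) 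
(.lf (nat_lit 71622) (.g (nat_lit 3564) (.e (nat_lit 1661) (nat_lit 115) (.e (nat_lit 393299) (nat_lit 27) (.e (nat_lit 491560) (nat_lit 10) (.e (nat_lit 344097) (nat_lit 18) (.e (nat_lit 7254) (nat_lit 383) (.e (nat_lit 8192) (nat_lit 0) (.e (nat_lit 5355) (nat_lit 298) .nil))))))) (.g (nat_lit 4) .nil .nil)))) (.nd (nat_lit 6) 
(.lf (nat_lit 71590) (.g (nat_lit 2539) (.e (nat_lit 1661) (nat_lit 115) (.e (nat_lit 393299) (nat_lit 27) (.e (nat_lit 491538) (nat_lit 3) (.e (nat_lit 98342) (nat_lit 20) (.e (nat_lit 221219) (nat_lit 24) (.e (nat_lit 212993) (nat_lit 0) .nil)))))) (.g (nat_lit 4) .nil .nil))) 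
(.lf (nat_lit 71654) (.g (nat_lit 1026) (.e (nat_lit 1662) (nat_lit 115) (.e (nat_lit 393301) (nat_lit 27) (.e (nat_lit 491547) (nat_lit 9) .nil))) .nil)))) (.nd (nat_lit 5) (.nd (nat_lit 6) 
(.lf (nat_lit 71574) (.g (nat_lit 2643) (.e (nat_lit 1661) (nat_lit 115) (.e (nat_lit 393298) (nat_lit 27) (.e (nat_lit 491571) (nat_lit 13) (.e (nat_lit 393239) (nat_lit 17) .nil)))) .nil)) 
(.lf (nat_lit 71638) (.g (nat_lit 3373) (.e (nat_lit 1661) (nat_lit 115) (.e (nat_lit 393299) (nat_lit 27) (.e (nat_lit 491570) (nat_lit 13) (.e (nat_lit 393238) (nat_lit 17) (.e (nat_lit 7555) (nat_lit 402) .nil))))) (.g (nat_lit 4) .nil .nil)))) (.nd (nat_lit 6) 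
(.lf (nat_lit 71606) (.g (nat_lit 2058) (.e (nat_lit 1661) (nat_lit 115) (.e (nat_lit 393299) (nat_lit 27) (.e (nat_lit 491560) (nat_lit 10) (.e (nat_lit 344090) (nat_lit 18) (.e (nat_lit 7247) (nat_lit 383) .nil))))) .nil)) 
(.lf (nat_lit 71670) (.g (nat_lit 2196) (.e (nat_lit 1663) (nat_lit 115) (.e (nat_lit 393238) (nat_lit 17) (.e (nat_lit 6989) (nat_lit 377) (.e (nat_lit 2777) (nat_lit 178) (.e (nat_lit 286770) (nat_lit 28) .nil))))) .nil))))) (.nd (nat_lit 4) (.nd (nat_lit 5) (.nd (nat_lit 6) 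
(.lf (nat_lit 71566) (.g (nat_lit 1628) (.e (nat_lit 1661) (nat_lit 115) (.e (nat_lit 393298) (nat_lit 27) (.e (nat_lit 491570) (nat_lit 13) (.e (nat_lit 401152) (nat_lit 17) .nil)))) .nil)) 
(.lf (nat_lit 71630) (.g (nat_lit 2732) (.e (nat_lit 1661) (nat_lit 115) (.e (nat_lit 393299) (nat_lit 27) (.e (nat_lit 491568) (nat_lit 13) (.e (nat_lit 393230) (nat_lit 17) (.e (nat_lit 7557) (nat_lit 402) .nil))))) (.g (nat_lit 5) .nil .nil)))) (.nd (nat_lit 6) 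
(.lf (nat_lit 71598) (.g (nat_lit 2697) (.e (nat_lit 1661) (nat_lit 115) (.e (nat_lit 393299) (nat_lit 27) (.e (nat_lit 491548) (nat_lit 9) (.e (nat_lit 336421) (nat_lit 28) (.e (nat_lit 434180) (nat_lit 0) .nil))))) (.g (nat_lit 0) .nil .nil))) 
(.lf (nat_lit 71662) (.g (nat_lit 1444) (.e (nat_lit 1663) (nat_lit 115) (.e (nat_lit 393229) (nat_lit 9) (.e (nat_lit 336184) (nat_lit 11) (.e (nat_lit 368676) (nat_lit 21) (.e (nat_lit 516117) (nat_lit 1) (.e (nat_lit 164159) (nat_lit 152) (.e (nat_lit 1022) (nat_lit 81) .nil))))))) (.g (nat_lit 4) .nil .nil))))) (.nd (nat_lit 5) (.nd (nat_lit 6) 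
(.lf (nat_lit 71582) (.g (nat_lit 2672) (.e (nat_lit 1661) (nat_lit 115) (.e (nat_lit 393299) (nat_lit 27) (.e (nat_lit 491526) (nat_lit 0) (.e (nat_lit 1788) (nat_lit 119) (.e (nat_lit 516130) (nat_lit 3) (.e (nat_lit 221219) (nat_lit 24) (.e (nat_lit 212992) (nat_lit 0) .nil))))))) (.g (nat_lit 4) .nil .nil))) 
(.lf (nat_lit 71646) (.g (nat_lit 710) (.e (nat_lit 1662) (nat_lit 115) (.e (nat_lit 393273) (nat_lit 23) (.e (nat_lit 426444) (nat_lit 19) .nil))) .nil))) (.nd (nat_lit 6) 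
(.lf (nat_lit 71614) (.g (nat_lit 2560) (.e (nat_lit 1661) (nat_lit 115) (.e (nat_lit 393299) (nat_lit 27) (.e (nat_lit 491560) (nat_lit 10) (.e (nat_lit 344094) (nat_lit 18) (.e (nat_lit 7265) (nat_lit 384) (.e (nat_lit 57347) (nat_lit 0) (.e (nat_lit 6450) (nat_lit 343) .nil))))))) (.g (nat_lit 4) .nil .nil))) 
(.lf (nat_lit 71678) (.g (nat_lit 820) (.e (nat_lit 1663) (nat_lit 115) (.e (nat_lit 393253) (nat_lit 18) (.e (nat_lit 164151) (nat_lit 152) .nil))) .nil)))))))) (.nd (nat_lit 1) (.nd (nat_lit 2) (.nd (nat_lit 3) (.nd (nat_lit 4) (.nd (nat_lit 5) (.nd (nat_lit 6) 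
(.lf (nat_lit 71553) (.g (nat_lit 2428) (.e (nat_lit 1661) (nat_lit 115) (.e (nat_lit 393297) (nat_lit 27) (.e (nat_lit 491571) (nat_lit 13) (.e (nat_lit 393242) (nat_lit 17) (.e (nat_lit 7554) (nat_lit 402) .nil))))) (.g (nat_lit 0) .nil .nil))) 
(.lf (nat_lit 71617) (.g (nat_lit 3714) (.e (nat_lit 1661) (nat_lit 115) (.e (nat_lit 393299) (nat_lit 27) (.e (nat_lit 491560) (nat_lit 10) (.e (nat_lit 344096) (nat_lit 18) (.e (nat_lit 7247) (nat_lit 383) (.e (nat_lit 8194) (nat_lit 0) (.e (nat_lit 5355) (nat_lit 298) .nil))))))) (.g (nat_lit 5) .nil .nil)))) (.nd (nat_lit 6) 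
(.lf (nat_lit 71585) (.g (nat_lit 1334) (.e (nat_lit 1661) (nat_lit 115) (.e (nat_lit 393299) (nat_lit 27) (.e (nat_lit 491528) (nat_lit 0) (.e (nat_lit 1802) (nat_lit 119) (.e (nat_lit 516131) (nat_lit 3) .nil))))) .nil)) 
(.lf (nat_lit 71649) (.g (nat_lit 2006) (.e (nat_lit 1662) (nat_lit 115) (.e (nat_lit 393294) (nat_lit 26) (.e (nat_lit 475199) (nat_lit 40) (.e (nat_lit 704595) (nat_lit 5) (.e (nat_lit 188160) (nat_lit 32) .nil))))) .nil)))) (.nd (nat_lit 5) (.nd (nat_lit 6) 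
(.lf (nat_lit 71569) (.g (nat_lit 2543) (.e (nat_lit 1661) (nat_lit 115) (.e (nat_lit 393298) (nat_lit 27) (.e (nat_lit 491571) (nat_lit 13) (.e (nat_lit 393235) (nat_lit 17) (.e (nat_lit 7562) (nat_lit 402) .nil))))) (.g (nat_lit 4) .nil .nil))) 
(.lf (nat_lit 71633) (.g (nat_lit 1837) (.e (nat_lit 1661) (nat_lit 115) (.e (nat_lit 393299) (nat_lit 27) (.e (nat_lit 491568) (nat_lit 13) (.e (nat_lit 393246) (nat_lit 17) .nil)))) .nil))) (.nd (nat_lit 6) 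
(.lf (nat_lit 71601) (.g (nat_lit 3280) (.e (nat_lit 1661) (nat_lit 115) (.e (nat_lit 393299) (nat_lit 27) (.e (nat_lit 491549) (nat_lit 9) (.e (nat_lit 336421) (nat_lit 28) (.e (nat_lit 434181) (nat_lit 0) .nil))))) (.g (nat_lit 0) .nil .nil))) 
(.lf (nat_lit 71665) (.g (nat_lit 1121) (.e (nat_lit 1663) (nat_lit 115) (.e (nat_lit 393232) (nat_lit 17) (.e (nat_lit 7581) (nat_lit 405) (.e (nat_lit 57477) (nat_lit 28) .nil)))) .nil))))) (.nd (nat_lit 4) (.nd (nat_lit 5) (.nd (nat_lit 6) 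
(.lf (nat_lit 71561) (.g (nat_lit 2696) (.e (nat_lit 1661) (nat_lit 115) (.e (nat_lit 393298) (nat_lit 27) (.e (nat_lit 491570) (nat_lit 13) (.e (nat_lit 393238) (nat_lit 17) (.e (nat_lit 7555) (nat_lit 402) .nil))))) (.g (nat_lit 4) .nil .nil))) 
(.lf (nat_lit 71625) (.g (nat_lit 3240) (.e (nat_lit 1661) (nat_lit 115) (.e (nat_lit 393299) (nat_lit 27) (.e (nat_lit 491560) (nat_lit 10) (.e (nat_lit 344097) (nat_lit 18) (.e (nat_lit 7270) (nat_lit 385) (.e (nat_lit 122883) (nat_lit 0) (.e (nat_lit 6489) (nat_lit 343) .nil))))))) (.g (nat_lit 4) .nil .nil)))) (.nd (nat_lit 6) 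
(.lf (nat_lit 71593) (.g (nat_lit 1041) (.e (nat_lit 1661) (nat_lit 115) (.e (nat_lit 393299) (nat_lit 27) (.e (nat_lit 491540) (nat_lit 3) .nil))) .nil)) 
(.lf (nat_lit 71657) (.g (nat_lit 1705) (.e (nat_lit 1663) (nat_lit 115) (.e (nat_lit 393229) (nat_lit 9) (.e (nat_lit 336087) (nat_lit 9) (.e (nat_lit 336019) (nat_lit 3) (.e (nat_lit 98334) (nat_lit 18) .nil))))) .nil)))) (.nd (nat_lit 5) (.nd (nat_lit 6) 
(.lf (nat_lit 71577) (.g (nat_lit 2393) (.e (nat_lit 1661) (nat_lit 115) (.e (nat_lit 393298) (nat_lit 27) (.e (nat_lit 491571) (nat_lit 13) (.e (nat_lit 393245) (nat_lit 17) .nil)))) .nil)) 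
(.lf (nat_lit 71641) (.g (nat_lit 1733) (.e (nat_lit 1661) (nat_lit 115) (.e (nat_lit 393299) (nat_lit 27) (.e (nat_lit 491570) (nat_lit 13) (.e (nat_lit 393244) (nat_lit 17) .nil)))) .nil))) (.nd (nat_lit 6) 
(.lf (nat_lit 71609) (.g (nat_lit 2092) (.e (nat_lit 1661) (nat_lit 115) (.e (nat_lit 393299) (nat_lit 27) (.e (nat_lit 491560) (nat_lit 10) (.e (nat_lit 344090) (nat_lit 18) (.e (nat_lit 7265) (nat_lit 384) .nil))))) .nil)) 
(.lf (nat_lit 71673) (.g (nat_lit 925) (.e (nat_lit 1663) (nat_lit 115) (.e (nat_lit 393238) (nat_lit 17) (.e (nat_lit 7101) (nat_lit 380) (.e (nat_lit 164353) (nat_lit 246) .nil)))) .nil)))))) (.nd (nat_lit 3) (.nd (nat_lit 4) (.nd (nat_lit 5) (.nd (nat_lit 6) 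
(.lf (nat_lit 71557) (.g (nat_lit 2431) (.e (nat_lit 1661) (nat_lit 115) (.e (nat_lit 393298) (nat_lit 27) (.e (nat_lit 491550) (nat_lit 9) (.e (nat_lit 336369) (nat_lit 27) (.e (nat_lit 426025) (nat_lit 0) .nil))))) .nil)) 
(.lf (nat_lit 71621) (.g (nat_lit 3139) (.e (nat_lit 1661) (nat_lit 115) (.e (nat_lit 393299) (nat_lit 27) (.e (nat_lit 491560) (nat_lit 10) (.e (nat_lit 344097) (nat_lit 18) (.e (nat_lit 7252) (nat_lit 383) (.e (nat_lit 8193) (nat_lit 0) (.e (nat_lit 5355) (nat_lit 298) .nil))))))) (.g (nat_lit 4) .nil .nil)))) (.nd (nat_lit 6) 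
(.lf (nat_lit 71589) (.g (nat_lit 3259) (.e (nat_lit 1661) (nat_lit 115) (.e (nat_lit 393299) (nat_lit 27) (.e (nat_lit 491538) (nat_lit 3) (.e (nat_lit 98342) (nat_lit 20) (.e (nat_lit 221219) (nat_lit 24) (.e (nat_lit 212992) (nat_lit 0) .nil)))))) (.g (nat_lit 6) .nil .nil))) 
(.lf (nat_lit 71653) (.g (nat_lit 2310) (.e (nat_lit 1662) (nat_lit 115) (.e (nat_lit 393298) (nat_lit 27) (.e (nat_lit 491571) (nat_lit 13) (.e (nat_lit 393242) (nat_lit 17) .nil)))) .nil)))) (.nd (nat_lit 5) (.nd (nat_lit 6) 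
(.lf (nat_lit 71573) (.g (nat_lit 2895) (.e (nat_lit 1661) (nat_lit 115) (.e (nat_lit 393298) (nat_lit 27) (.e (nat_lit 491571) (nat_lit 13) (.e (nat_lit 393238) (nat_lit 17) (.e (nat_lit 7936) (nat_lit 402) .nil))))) (.g (nat_lit 4) .nil .nil))) 
(.lf (nat_lit 71637) (.g (nat_lit 2759) (.e (nat_lit 1661) (nat_lit 115) (.e (nat_lit 393299) (nat_lit 27) (.e (nat_lit 491570) (nat_lit 13) (.e (nat_lit 393238) (nat_lit 17) (.e (nat_lit 7554) (nat_lit 402) .nil))))) (.g (nat_lit 4) .nil .nil)))) (.nd (nat_lit 6) 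
(.lf (nat_lit 71605) (.g (nat_lit 1429) (.e (nat_lit 1661) (nat_lit 115) (.e (nat_lit 393299) (nat_lit 27) (.e (nat_lit 491560) (nat_lit 10) (.e (nat_lit 344090) (nat_lit 18) .nil)))) .nil)) 
(.lf (nat_lit 71669) (.g (nat_lit 1354) (.e (nat_lit 1663) (nat_lit 115) (.e (nat_lit 393238) (nat_lit 17) (.e (nat_lit 6989) (nat_lit 377) (.e (nat_lit 2777) (nat_lit 178) .nil)))) .nil))))) (.nd (nat_lit 4) (.nd (nat_lit 5) (.nd (nat_lit 6) 
(.lf (nat_lit 71565) (.g (nat_lit 1821) (.e (nat_lit 1661) (nat_lit 115) (.e (nat_lit 393298) (nat_lit 27) (.e (nat_lit 491570) (nat_lit 13) (.e (nat_lit 393245) (nat_lit 17) .nil)))) .nil)) 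
(.lf (nat_lit 71629) (.g (nat_lit 235) (.e (nat_lit 1661) (nat_lit 115) (.e (nat_lit 393299) (nat_lit 27) (.e (nat_lit 491568) (nat_lit 13) .nil))) .nil))) (.nd (nat_lit 6) 
(.lf (nat_lit 71597) (.g (nat_lit 1232) (.e (nat_lit 1661) (nat_lit 115) (.e (nat_lit 393299) (nat_lit 27) (.e (nat_lit 491547) (nat_lit 9) (.e (nat_lit 336423) (nat_lit 28) .nil)))) .nil)) 
(.lf (nat_lit 71661) (.g (nat_lit 1370) (.e (nat_lit 1663) (nat_lit 115) (.e (nat_lit 393229) (nat_lit 9) (.e (nat_lit 336184) (nat_lit 11) (.e (nat_lit 368676) (nat_lit 21) (.e (nat_lit 516117) (nat_lit 1) .nil))))) .nil)))) (.nd (nat_lit 5) (.nd (nat_lit 6) 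
(.lf (nat_lit 71581) (.g (nat_lit 1371) (.e (nat_lit 1661) (nat_lit 115) (.e (nat_lit 393299) (nat_lit 27) (.e (nat_lit 491526) (nat_lit 0) (.e (nat_lit 1788) (nat_lit 119) .nil)))) .nil)) 
(.lf (nat_lit 71645) (.g (nat_lit 932) (.e (nat_lit 1662) (nat_lit 115) (.e (nat_lit 393271) (nat_lit 23) (.e (nat_lit 426444) (nat_lit 19) .nil))) .nil))) (.nd (nat_lit 6) 
(.lf (nat_lit 71613) (.g (nat_lit 1190) (.e (nat_lit 1661) (nat_lit 115) (.e (nat_lit 393299) (nat_lit 27) (.e (nat_lit 491560) (nat_lit 10) (.e (nat_lit 344094) (nat_lit 18) .nil)))) .nil)) 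
(.lf (nat_lit 71677) (.g (nat_lit 855) (.e (nat_lit 1663) (nat_lit 115) (.e (nat_lit 393238) (nat_lit 17) (.e (nat_lit 7114) (nat_lit 381) (.e (nat_lit 229646) (nat_lit 232) (.e (nat_lit 447) (nat_lit 33) (.e (nat_lit 442112) (nat_lit 0) .nil)))))) (.g (nat_lit 4) .nil .nil)))))))) (.nd (nat_lit 2) (.nd (nat_lit 3) (.nd (nat_lit 4) (.nd (nat_lit 5) (.nd (nat_lit 6) 
(.lf (nat_lit 71555) (.g (nat_lit 3230) (.e (nat_lit 1661) (nat_lit 115) (.e (nat_lit 393298) (nat_lit 27) (.e (nat_lit 491549) (nat_lit 9) (.e (nat_lit 336421) (nat_lit 28) (.e (nat_lit 434180) (nat_lit 0) .nil))))) (.g (nat_lit 0) .nil .nil))) 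
(.lf (nat_lit 71619) (.g (nat_lit 1725) (.e (nat_lit 1661) (nat_lit 115) (.e (nat_lit 393299) (nat_lit 27) (.e (nat_lit 491560) (nat_lit 10) (.e (nat_lit 344097) (nat_lit 18) .nil)))) .nil))) (.nd (nat_lit 6) 
(.lf (nat_lit 71587) (.g (nat_lit 2445) (.e (nat_lit 1661) (nat_lit 115) (.e (nat_lit 393299) (nat_lit 27) (.e (nat_lit 491538) (nat_lit 3) (.e (nat_lit 98341) (nat_lit 20) (.e (nat_lit 221218) (nat_lit 24) (.e (nat_lit 212994) (nat_lit 0) .nil)))))) (.g (nat_lit 4) .nil .nil))) 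
(.lf (nat_lit 71651) (.g (nat_lit 1029) (.e (nat_lit 1662) (nat_lit 115) (.e (nat_lit 393296) (nat_lit 26) (.e (nat_lit 475207) (nat_lit 41) .nil))) .nil)))) (.nd (nat_lit 5) (.nd (nat_lit 6) 
(.lf (nat_lit 71571) (.g (nat_lit 4196) (.e (nat_lit 1661) (nat_lit 115) (.e (nat_lit 393298) (nat_lit 27) (.e (nat_lit 491571) (nat_lit 13) (.e (nat_lit 393238) (nat_lit 17) (.e (nat_lit 7537) (nat_lit 402) .nil))))) (.g (nat_lit 0) .nil .nil))) 
(.lf (nat_lit 71635) (.g (nat_lit 1750) (.e (nat_lit 1661) (nat_lit 115) (.e (nat_lit 393299) (nat_lit 27) (.e (nat_lit 491570) (nat_lit 13) (.e (nat_lit 393230) (nat_lit 17) .nil)))) .nil))) (.nd (nat_lit 6) 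
(.lf (nat_lit 71603) (.g (nat_lit 1906) (.e (nat_lit 1661) (nat_lit 115) (.e (nat_lit 393299) (nat_lit 27) (.e (nat_lit 491552) (nat_lit 9) (.e (nat_lit 336412) (nat_lit 27) (.e (nat_lit 426030) (nat_lit 0) (.e (nat_lit 7562) (nat_lit 402) .nil)))))) (.g (nat_lit 4) .nil .nil))) 
(.lf (nat_lit 71667) (.g (nat_lit 2780) (.e (nat_lit 1663) (nat_lit 115) (.e (nat_lit 393232) (nat_lit 17) (.e (nat_lit 7581) (nat_lit 405) (.e (nat_lit 57480) (nat_lit 28) (.e (nat_lit 557105) (nat_lit 14) (.e (nat_lit 180264) (nat_lit 21) (.e (nat_lit 663557) (nat_lit 0) .nil))))))) (.g (nat_lit 5) .nil .nil)))))) (.nd (nat_lit 4) (.nd (nat_lit 5) (.nd (nat_lit 6) 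
(.lf (nat_lit 71563) (.g (nat_lit 1694) (.e (nat_lit 1661) (nat_lit 115) (.e (nat_lit 393298) (nat_lit 27) (.e (nat_lit 491570) (nat_lit 13) (.e (nat_lit 393242) (nat_lit 17) .nil)))) .nil)) 
(.lf (nat_lit 71627) (.g (nat_lit 1770) (.e (nat_lit 1661) (nat_lit 115) (.e (nat_lit 393299) (nat_lit 27) (.e (nat_lit 491560) (nat_lit 10) (.e (nat_lit 344177) (nat_lit 43) .nil)))) .nil))) (.nd (nat_lit 6) 
(.lf (nat_lit 71595) (.g (nat_lit 2802) (.e (nat_lit 1661) (nat_lit 115) (.e (nat_lit 393299) (nat_lit 27) (.e (nat_lit 491547) (nat_lit 9) (.e (nat_lit 336421) (nat_lit 28) (.e (nat_lit 434180) (nat_lit 0) .nil))))) (.g (nat_lit 0) .nil .nil))) 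
(.lf (nat_lit 71659) (.g (nat_lit 1748) (.e (nat_lit 1663) (nat_lit 115) (.e (nat_lit 393229) (nat_lit 9) (.e (nat_lit 336087) (nat_lit 9) (.e (nat_lit 336019) (nat_lit 3) (.e (nat_lit 98334) (nat_lit 18) (.e (nat_lit 164159) (nat_lit 152) (.e (nat_lit 1038) (nat_lit 81) .nil))))))) (.g (nat_lit 4) .nil .nil))))) (.nd (nat_lit 5) (.nd (nat_lit 6) 
(.lf (nat_lit 71579) (.g (nat_lit 1332) (.e (nat_lit 1661) (nat_lit 115) (.e (nat_lit 393299) (nat_lit 27) (.e (nat_lit 491520) (nat_lit 0) (.e (nat_lit 1802) (nat_lit 119) .nil)))) .nil)) 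
(.lf (nat_lit 71643) (.g (nat_lit 659) (.e (nat_lit 1662) (nat_lit 115) (.e (nat_lit 393234) (nat_lit 17) (.e (nat_lit 7581) (nat_lit 405) .nil))) .nil))) (.nd (nat_lit 6) 
(.lf (nat_lit 71611) (.g (nat_lit 1534) (.e (nat_lit 1661) (nat_lit 115) (.e (nat_lit 393299) (nat_lit 27) (.e (nat_lit 491560) (nat_lit 10) (.e (nat_lit 344091) (nat_lit 18) .nil)))) .nil)) 
(.lf (nat_lit 71675) (.g (nat_lit 1875) (.e (nat_lit 1663) (nat_lit 115) (.e (nat_lit 393238) (nat_lit 17) (.e (nat_lit 7107) (nat_lit 380) (.e (nat_lit 164338) (nat_lit 232) (.e (nat_lit 446) (nat_lit 33) (.e (nat_lit 442112) (nat_lit 0) .nil)))))) (.g (nat_lit 4) .nil .nil))))))) (.nd (nat_lit 3) (.nd (nat_lit 4) (.nd (nat_lit 5) (.nd (nat_lit 6) 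
(.lf (nat_lit 71559) (.g (nat_lit 2316) (.e (nat_lit 1661) (nat_lit 115) (.e (nat_lit 393298) (nat_lit 27) (.e (nat_lit 491569) (nat_lit 13) (.e (nat_lit 393238) (nat_lit 17) .nil)))) .nil)) 
(.lf (nat_lit 71623) (.g (nat_lit 2911) (.e (nat_lit 1661) (nat_lit 115) (.e (nat_lit 393299) (nat_lit 27) (.e (nat_lit 491560) (nat_lit 10) (.e (nat_lit 344097) (nat_lit 18) (.e (nat_lit 7254) (nat_lit 383) (.e (nat_lit 8193) (nat_lit 0) (.e (nat_lit 5355) (nat_lit 298) .nil))))))) (.g (nat_lit 4) .nil .nil)))) (.nd (nat_lit 6) 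
(.lf (nat_lit 71591) (.g (nat_lit 1924) (.e (nat_lit 1661) (nat_lit 115) (.e (nat_lit 393299) (nat_lit 27) (.e (nat_lit 491538) (nat_lit 3) (.e (nat_lit 98342) (nat_lit 20) (.e (nat_lit 221219) (nat_lit 24) (.e (nat_lit 220928) (nat_lit 0) .nil)))))) (.g (nat_lit 4) .nil .nil))) 
(.lf (nat_lit 71655) (.g (nat_lit 2739) (.e (nat_lit 1662) (nat_lit 115) (.e (nat_lit 393301) (nat_lit 27) (.e (nat_lit 491560) (nat_lit 10) (.e (nat_lit 344090) (nat_lit 18) .nil)))) .nil)))) (.nd (nat_lit 5) (.nd (nat_lit 6) 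
(.lf (nat_lit 71575) (.g (nat_lit 2749) (.e (nat_lit 1661) (nat_lit 115) (.e (nat_lit 393298) (nat_lit 27) (.e (nat_lit 491571) (nat_lit 13) (.e (nat_lit 393242) (nat_lit 17) (.e (nat_lit 7554) (nat_lit 402) .nil))))) (.g (nat_lit 0) .nil .nil))) 
(.lf (nat_lit 71639) (.g (nat_lit 2210) (.e (nat_lit 1661) (nat_lit 115) (.e (nat_lit 393299) (nat_lit 27) (.e (nat_lit 491570) (nat_lit 13) (.e (nat_lit 393238) (nat_lit 17) (.e (nat_lit 7936) (nat_lit 402) .nil))))) (.g (nat_lit 4) .nil .nil)))) (.nd (nat_lit 6) 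
(.lf (nat_lit 71607) (.g (nat_lit 2749) (.e (nat_lit 1661) (nat_lit 115) (.e (nat_lit 393299) (nat_lit 27) (.e (nat_lit 491560) (nat_lit 10) (.e (nat_lit 344090) (nat_lit 18) (.e (nat_lit 7247) (nat_lit 383) (.e (nat_lit 8194) (nat_lit 0) (.e (nat_lit 5322) (nat_lit 298) .nil))))))) (.g (nat_lit 4) .nil .nil))) 
(.lf (nat_lit 71671) (.g (nat_lit 1723) (.e (nat_lit 1663) (nat_lit 115) (.e (nat_lit 393238) (nat_lit 17) (.e (nat_lit 6989) (nat_lit 377) (.e (nat_lit 2779) (nat_lit 178) (.e (nat_lit 286770) (nat_lit 28) .nil))))) .nil))))) (.nd (nat_lit 4) (.nd (nat_lit 5) (.nd (nat_lit 6) 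
(.lf (nat_lit 71567) (.g (nat_lit 1917) (.e (nat_lit 1661) (nat_lit 115) (.e (nat_lit 393298) (nat_lit 27) (.e (nat_lit 491571) (nat_lit 13) (.e (nat_lit 393230) (nat_lit 17) .nil)))) .nil)) 
(.lf (nat_lit 71631) (.g (nat_lit 2689) (.e (nat_lit 1661) (nat_lit 115) (.e (nat_lit 393299) (nat_lit 27) (.e (nat_lit 491568) (nat_lit 13) (.e (nat_lit 393242) (nat_lit 17) (.e (nat_lit 7554) (nat_lit 402) .nil))))) (.g (nat_lit 0) .nil .nil)))) (.nd (nat_lit 6) 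
(.lf (nat_lit 71599) (.g (nat_lit 2820) (.e (nat_lit 1661) (nat_lit 115) (.e (nat_lit 393299) (nat_lit 27) (.e (nat_lit 491549) (nat_lit 9) (.e (nat_lit 336369) (nat_lit 27) (.e (nat_lit 426025) (nat_lit 0) (.e (nat_lit 7537) (nat_lit 402) .nil)))))) (.g (nat_lit 4) .nil .nil))) 
(.lf (nat_lit 71663) (.g (nat_lit 1526) (.e (nat_lit 1663) (nat_lit 115) (.e (nat_lit 393229) (nat_lit 9) (.e (nat_lit 336186) (nat_lit 11) (.e (nat_lit 368676) (nat_lit 21) (.e (nat_lit 516117) (nat_lit 1) .nil))))) .nil)))) (.nd (nat_lit 5) (.nd (nat_lit 6) 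
(.lf (nat_lit 71583) (.g (nat_lit 1576) (.e (nat_lit 1661) (nat_lit 115) (.e (nat_lit 393299) (nat_lit 27) (.e (nat_lit 491526) (nat_lit 0) (.e (nat_lit 1799) (nat_lit 119) .nil)))) .nil)) 
(.lf (nat_lit 71647) (.g (nat_lit 2289) (.e (nat_lit 1662) (nat_lit 115) (.e (nat_lit 393291) (nat_lit 26) (.e (nat_lit 475199) (nat_lit 40) (.e (nat_lit 704595) (nat_lit 5) (.e (nat_lit 188160) (nat_lit 32) .nil))))) .nil))) (.nd (nat_lit 6) 
(.lf (nat_lit 71615) (.g (nat_lit 1614) (.e (nat_lit 1661) (nat_lit 115) (.e (nat_lit 393299) (nat_lit 27) (.e (nat_lit 491560) (nat_lit 10) (.e (nat_lit 344096) (nat_lit 18) .nil)))) .nil)) 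
(.lf (nat_lit 71679) (.g (nat_lit 1387) (.e (nat_lit 1663) (nat_lit 115) (.e (nat_lit 393253) (nat_lit 18) (.e (nat_lit 164189) (nat_lit 157) (.e (nat_lit 229407) (nat_lit 13) .nil)))) .nil)))))))))

noncomputable def tv979 : DT := (.nd (nat_lit 0) (.nd (nat_lit 1) (.nd (nat_lit 2) (.nd (nat_lit 3) (.nd (nat_lit 4) (.nd (nat_lit 5) (.nd (nat_lit 6) 
(.lf (nat_lit 71680) (.g (nat_lit 1356) (.e (nat_lit 1663) (nat_lit 115) (.e (nat_lit 393253) (nat_lit 18) (.e (nat_lit 164189) (nat_lit 157) (.e (nat_lit 229409) (nat_lit 13) .nil)))) .nil)) 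
(.lf (nat_lit 71744) (.g (nat_lit 1508) (.e (nat_lit 1663) (nat_lit 115) (.e (nat_lit 393294) (nat_lit 26) (.e (nat_lit 475197) (nat_lit 40) (.e (nat_lit 704595) (nat_lit 5) .nil)))) .nil))) (.nd (nat_lit 6) 
(.lf (nat_lit 71712) (.g (nat_lit 1846) (.e (nat_lit 1663) (nat_lit 115) (.e (nat_lit 393260) (nat_lit 21) (.e (nat_lit 409649) (nat_lit 18) (.e (nat_lit 303154) (nat_lit 28) .nil)))) .nil)) 
(.lf (nat_lit 71776) (.g (nat_lit 1489) (.e (nat_lit 1664) (nat_lit 115) (.e (nat_lit 393229) (nat_lit 9) (.e (nat_lit 336184) (nat_lit 11) (.e (nat_lit 368676) (nat_lit 21) (.e (nat_lit 516117) (nat_lit 1) .nil))))) .nil)))) (.nd (nat_lit 5) (.nd (nat_lit 6) 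
(.lf (nat_lit 71696) (.g (nat_lit 1139) (.e (nat_lit 1663) (nat_lit 115) (.e (nat_lit 393260) (nat_lit 21) (.e (nat_lit 409625) (nat_lit 10) (.e (nat_lit 5264) (nat_lit 298) .nil)))) .nil)) 
(.lf (nat_lit 71760) (.g (nat_lit 2310) (.e (nat_lit 1663) (nat_lit 115) (.e (nat_lit 393298) (nat_lit 27) (.e (nat_lit 491571) (nat_lit 13) (.e (nat_lit 393242) (nat_lit 17) .nil)))) .nil))) (.nd (nat_lit 6) 
(.lf (nat_lit 71728) (.g (nat_lit 1203) (.e (nat_lit 1663) (nat_lit 115) (.e (nat_lit 393283) (nat_lit 24) (.e (nat_lit 434209) (nat_lit 18) (.e (nat_lit 5548) (nat_lit 306) (.e (nat_lit 2638) (nat_lit 165) .nil))))) .nil)) 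
(.lf (nat_lit 71792) (.g (nat_lit 1800) (.e (nat_lit 1664) (nat_lit 115) (.e (nat_lit 393234) (nat_lit 17) (.e (nat_lit 7581) (nat_lit 405) (.e (nat_lit 57476) (nat_lit 28) (.e (nat_lit 557104) (nat_lit 14) (.e (nat_lit 180264) (nat_lit 21) (.e (nat_lit 671488) (nat_lit 0) .nil))))))) (.g (nat_lit 4) .nil .nil)))))) (.nd (nat_lit 4) (.nd (nat_lit 5) (.nd (nat_lit 6) 
(.lf (nat_lit 71688) (.g (nat_lit 1577) (.e (nat_lit 1663) (nat_lit 115) (.e (nat_lit 393260) (nat_lit 21) (.e (nat_lit 409617) (nat_lit 10) (.e (nat_lit 632) (nat_lit 50) .nil)))) .nil)) 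
(.lf (nat_lit 71752) (.g (nat_lit 2103) (.e (nat_lit 1663) (nat_lit 115) (.e (nat_lit 393294) (nat_lit 26) (.e (nat_lit 475211) (nat_lit 41) (.e (nat_lit 712747) (nat_lit 28) (.e (nat_lit 442112) (nat_lit 0) .nil))))) .nil))) (.nd (nat_lit 6) 
(.lf (nat_lit 71720) (.g (nat_lit 2216) (.e (nat_lit 1663) (nat_lit 115) (.e (nat_lit 393271) (nat_lit 23) (.e (nat_lit 426112) (nat_lit 1) (.e (nat_lit 164348) (nat_lit 240) (.e (nat_lit 2638) (nat_lit 165) .nil))))) .nil)) 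
(.lf (nat_lit 71784) (.g (nat_lit 440) (.e (nat_lit 1664) (nat_lit 115) (.e (nat_lit 393234) (nat_lit 17) (.e (nat_lit 7490) (nat_lit 402) .nil))) .nil)))) (.nd (nat_lit 5) (.nd (nat_lit 6) 
(.lf (nat_lit 71704) (.g (nat_lit 2782) (.e (nat_lit 1663) (nat_lit 115) (.e (nat_lit 393260) (nat_lit 21) (.e (nat_lit 409648) (nat_lit 18) (.e (nat_lit 303151) (nat_lit 27) (.e (nat_lit 335995) (nat_lit 1) (.e (nat_lit 57780) (nat_lit 239) (.e (nat_lit 1019) (nat_lit 81) .nil))))))) (.g (nat_lit 5) .nil .nil))) 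
(.lf (nat_lit 71768) (.g (nat_lit 2058) (.e (nat_lit 1664) (nat_lit 115) (.e (nat_lit 393229) (nat_lit 9) (.e (nat_lit 336087) (nat_lit 9) (.e (nat_lit 336019) (nat_lit 3) (.e (nat_lit 98334) (nat_lit 18) (.e (nat_lit 164161) (nat_lit 152) (.e (nat_lit 1032) (nat_lit 81) .nil))))))) (.g (nat_lit 4) .nil .nil)))) (.nd (nat_lit 6) 
(.lf (nat_lit 71736) (.g (nat_lit 1595) (.e (nat_lit 1663) (nat_lit 115) (.e (nat_lit 393291) (nat_lit 26) (.e (nat_lit 475199) (nat_lit 40) (.e (nat_lit 704596) (nat_lit 5) .nil)))) .nil)) 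
(.lf (nat_lit 71800) (.g (nat_lit 3368) (.e (nat_lit 1664) (nat_lit 115) (.e (nat_lit 393234) (nat_lit 17) (.e (nat_lit 7581) (nat_lit 405) (.e (nat_lit 57480) (nat_lit 28) (.e (nat_lit 557103) (nat_lit 14) (.e (nat_lit 180263) (nat_lit 21) (.e (nat_lit 671488) (nat_lit 0) .nil))))))) (.g (nat_lit 6) .nil .nil))))))) (.nd (nat_lit 3) (.nd (nat_lit 4) (.nd (nat_lit 5) (.nd (nat_lit 6) 
(.lf (nat_lit 71684) (.g (nat_lit 911) (.e (nat_lit 1663) (nat_lit 115) (.e (nat_lit 393260) (nat_lit 21) (.e (nat_lit 409614) (nat_lit 10) .nil))) .nil)) 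
(.lf (nat_lit 71748) (.g (nat_lit 1715) (.e (nat_lit 1663) (nat_lit 115) (.e (nat_lit 393294) (nat_lit 26) (.e (nat_lit 475209) (nat_lit 41) (.e (nat_lit 712747) (nat_lit 28) .nil)))) .nil))) (.nd (nat_lit 6) 
(.lf (nat_lit 71716) (.g (nat_lit 1131) (.e (nat_lit 1663) (nat_lit 115) (.e (nat_lit 393266) (nat_lit 23) (.e (nat_lit 426140) (nat_lit 3) (.e (nat_lit 212736) (nat_lit 10) .nil)))) .nil)) 
(.lf (nat_lit 71780) (.g (nat_lit 1605) (.e (nat_lit 1664) (nat_lit 115) (.e (nat_lit 393229) (nat_lit 9) (.e (nat_lit 336186) (nat_lit 11) (.e (nat_lit 368676) (nat_lit 21) (.e (nat_lit 516117) (nat_lit 1) .nil))))) .nil)))) (.nd (nat_lit 5) (.nd (nat_lit 6) 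
(.lf (nat_lit 71700) (.g (nat_lit 735) (.e (nat_lit 1663) (nat_lit 115) (.e (nat_lit 393260) (nat_lit 21) (.e (nat_lit 409644) (nat_lit 18) .nil))) .nil)) 
(.lf (nat_lit 71764) (.g (nat_lit 2463) (.e (nat_lit 1664) (nat_lit 115) (.e (nat_lit 393225) (nat_lit 9) (.e (nat_lit 336204) (nat_lit 12) (.e (nat_lit 385074) (nat_lit 31) (.e (nat_lit 573473) (nat_lit 12) .nil))))) .nil))) (.nd (nat_lit 6) 
(.lf (nat_lit 71732) (.g (nat_lit 1459) (.e (nat_lit 1663) (nat_lit 115) (.e (nat_lit 393290) (nat_lit 26) (.e (nat_lit 475210) (nat_lit 41) (.e (nat_lit 712747) (nat_lit 28) (.e (nat_lit 442112) (nat_lit 0) .nil))))) .nil)) 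
(.lf (nat_lit 71796) (.g (nat_lit 1772) (.e (nat_lit 1664) (nat_lit 115) (.e (nat_lit 393234) (nat_lit 17) (.e (nat_lit 7581) (nat_lit 405) (.e (nat_lit 57477) (nat_lit 28) (.e (nat_lit 557104) (nat_lit 14) (.e (nat_lit 180264) (nat_lit 21) (.e (nat_lit 663552) (nat_lit 0) .nil))))))) (.g (nat_lit 4) .nil .nil)))))) (.nd (nat_lit 4) (.nd (nat_lit 5) (.nd (nat_lit 6) 
(.lf (nat_lit 71692) (.g (nat_lit 795) (.e (nat_lit 1663) (nat_lit 115) (.e (nat_lit 393260) (nat_lit 21) (.e (nat_lit 409621) (nat_lit 10) .nil))) .nil)) 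
(.lf (nat_lit 71756) (.g (nat_lit 1393) (.e (nat_lit 1663) (nat_lit 115) (.e (nat_lit 393297) (nat_lit 27) (.e (nat_lit 491571) (nat_lit 13) (.e (nat_lit 393242) (nat_lit 17) .nil)))) .nil))) (.nd (nat_lit 6) 
(.lf (nat_lit 71724) (.g (nat_lit 961) (.e (nat_lit 1663) (nat_lit 115) (.e (nat_lit 393271) (nat_lit 23) (.e (nat_lit 426402) (nat_lit 15) .nil))) .nil)) 
(.lf (nat_lit 71788) (.g (nat_lit 1439) (.e (nat_lit 1664) (nat_lit 115) (.e (nat_lit 393234) (nat_lit 17) (.e (nat_lit 7581) (nat_lit 405) (.e (nat_lit 57464) (nat_lit 23) (.e (nat_lit 516130) (nat_lit 3) (.e (nat_lit 221218) (nat_lit 24) (.e (nat_lit 220928) (nat_lit 0) .nil))))))) (.g (nat_lit 5) .nil .nil))))) (.nd (nat_lit 5) (.nd (nat_lit 6) 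
(.lf (nat_lit 71708) (.g (nat_lit 1774) (.e (nat_lit 1663) (nat_lit 115) (.e (nat_lit 393260) (nat_lit 21) (.e (nat_lit 409649) (nat_lit 18) (.e (nat_lit 303151) (nat_lit 27) .nil)))) .nil)) 
(.lf (nat_lit 71772) (.g (nat_lit 2272) (.e (nat_lit 1664) (nat_lit 115) (.e (nat_lit 393229) (nat_lit 9) (.e (nat_lit 336088) (nat_lit 9) (.e (nat_lit 336019) (nat_lit 3) (.e (nat_lit 98334) (nat_lit 18) (.e (nat_lit 164157) (nat_lit 152) (.e (nat_lit 1027) (nat_lit 81) .nil))))))) (.g (nat_lit 4) .nil .nil)))) (.nd (nat_lit 6) 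
(.lf (nat_lit 71740) (.g (nat_lit 1596) (.e (nat_lit 1663) (nat_lit 115) (.e (nat_lit 393291) (nat_lit 26) (.e (nat_lit 475211) (nat_lit 41) (.e (nat_lit 712747) (nat_lit 28) .nil)))) .nil)) 
(.lf (nat_lit 71804) (.g (nat_lit 3805) (.e (nat_lit 1664) (nat_lit 115) (.e (nat_lit 393234) (nat_lit 17) (.e (nat_lit 7581) (nat_lit 405) (.e (nat_lit 57480) (nat_lit 28) (.e (nat_lit 557105) (nat_lit 14) (.e (nat_lit 180265) (nat_lit 21) (.e (nat_lit 671488) (nat_lit 0) .nil))))))) (.g (nat_lit 6) .nil .nil)))))))) 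
(.nd (nat_lit 2) (.nd (nat_lit 3) (.nd (nat_lit 4) (.nd (nat_lit 5) (.nd (nat_lit 6) 
(.lf (nat_lit 71682) (.g (nat_lit 1012) (.e (nat_lit 1663) (nat_lit 115) (.e (nat_lit 393259) (nat_lit 21) (.e (nat_lit 409642) (nat_lit 17) (.e (nat_lit 294973) (nat_lit 28) (.e (nat_lit 442112) (nat_lit 0) .nil))))) (.g (nat_lit 4) .nil .nil))) 
(.lf (nat_lit 71746) (.g (nat_lit 1827) (.e (nat_lit 1663) (nat_lit 115) (.e (nat_lit 393294) (nat_lit 26) (.e (nat_lit 475199) (nat_lit 40) (.e (nat_lit 704595) (nat_lit 5) (.e (nat_lit 188160) (nat_lit 32) .nil))))) (.g (nat_lit 4) .nil .nil)))) (.nd (nat_lit 6) 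
(.lf (nat_lit 71714) (.g (nat_lit 778) (.e (nat_lit 1663) (nat_lit 115) (.e (nat_lit 393263) (nat_lit 22) (.e (nat_lit 417817) (nat_lit 10) (.e (nat_lit 5363) (nat_lit 298) .nil)))) .nil)) 
(.lf (nat_lit 71778) (.g (nat_lit 2427) (.e (nat_lit 1664) (nat_lit 115) (.e (nat_lit 393229) (nat_lit 9) (.e (nat_lit 336184) (nat_lit 11) (.e (nat_lit 368676) (nat_lit 21) (.e (nat_lit 516117) (nat_lit 1) (.e (nat_lit 164159) (nat_lit 152) (.e (nat_lit 1027) (nat_lit 81) .nil))))))) (.g (nat_lit 6) .nil .nil))))) (.nd (nat_lit 5) (.nd (nat_lit 6) 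
(.lf (nat_lit 71698) (.g (nat_lit 600) (.e (nat_lit 1663) (nat_lit 115) (.e (nat_lit 393260) (nat_lit 21) (.e (nat_lit 417536) (nat_lit 16) .nil))) .nil)) 
(.lf (nat_lit 71762) (.g (nat_lit 1581) (.e (nat_lit 1663) (nat_lit 115) (.e (nat_lit 393299) (nat_lit 27) (.e (nat_lit 491570) (nat_lit 13) (.e (nat_lit 393238) (nat_lit 17) .nil)))) .nil))) (.nd (nat_lit 6) 
(.lf (nat_lit 71730) (.g (nat_lit 1475) (.e (nat_lit 1663) (nat_lit 115) (.e (nat_lit 393287) (nat_lit 25) (.e (nat_lit 458789) (nat_lit 23) (.e (nat_lit 532580) (nat_lit 26) .nil)))) .nil)) 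
(.lf (nat_lit 71794) (.g (nat_lit 1284) (.e (nat_lit 1664) (nat_lit 115) (.e (nat_lit 393234) (nat_lit 17) (.e (nat_lit 7581) (nat_lit 405) (.e (nat_lit 57477) (nat_lit 28) .nil)))) .nil))))) (.nd (nat_lit 4) (.nd (nat_lit 5) (.nd (nat_lit 6) 
(.lf (nat_lit 71690) (.g (nat_lit 1673) (.e (nat_lit 1663) (nat_lit 115) (.e (nat_lit 393260) (nat_lit 21) (.e (nat_lit 409618) (nat_lit 10) (.e (nat_lit 5363) (nat_lit 298) .nil)))) .nil)) 
(.lf (nat_lit 71754) (.g (nat_lit 1233) (.e (nat_lit 1663) (nat_lit 115) (.e (nat_lit 393297) (nat_lit 27) (.e (nat_lit 491571) (nat_lit 13) (.e (nat_lit 393232) (nat_lit 17) .nil)))) .nil))) (.nd (nat_lit 6) 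
(.lf (nat_lit 71722) (.g (nat_lit 1181) (.e (nat_lit 1663) (nat_lit 115) (.e (nat_lit 393271) (nat_lit 23) (.e (nat_lit 426354) (nat_lit 15) .nil))) .nil)) 
(.lf (nat_lit 71786) (.g (nat_lit 445) (.e (nat_lit 1664) (nat_lit 115) (.e (nat_lit 393234) (nat_lit 17) (.e (nat_lit 7581) (nat_lit 405) .nil))) .nil)))) (.nd (nat_lit 5) (.nd (nat_lit 6) 
(.lf (nat_lit 71706) (.g (nat_lit 1868) (.e (nat_lit 1663) (nat_lit 115) (.e (nat_lit 393260) (nat_lit 21) (.e (nat_lit 409648) (nat_lit 18) (.e (nat_lit 303153) (nat_lit 27) .nil)))) .nil)) 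
(.lf (nat_lit 71770) (.g (nat_lit 2129) (.e (nat_lit 1664) (nat_lit 115) (.e (nat_lit 393229) (nat_lit 9) (.e (nat_lit 336088) (nat_lit 9) (.e (nat_lit 336019) (nat_lit 3) (.e (nat_lit 98333) (nat_lit 18) .nil))))) .nil))) (.nd (nat_lit 6) 
(.lf (nat_lit 71738) (.g (nat_lit 2460) (.e (nat_lit 1663) (nat_lit 115) (.e (nat_lit 393291) (nat_lit 26) (.e (nat_lit 475210) (nat_lit 41) (.e (nat_lit 712747) (nat_lit 28) (.e (nat_lit 442112) (nat_lit 0) .nil))))) (.g (nat_lit 4) .nil .nil))) 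
(.lf (nat_lit 71802) (.g (nat_lit 3399) (.e (nat_lit 1664) (nat_lit 115) (.e (nat_lit 393234) (nat_lit 17) (.e (nat_lit 7581) (nat_lit 405) (.e (nat_lit 57480) (nat_lit 28) (.e (nat_lit 557105) (nat_lit 14) (.e (nat_lit 180264) (nat_lit 21) (.e (nat_lit 671488) (nat_lit 0) .nil))))))) (.g (nat_lit 6) .nil .nil))))))) (.nd (nat_lit 3) (.nd (nat_lit 4) (.nd (nat_lit 5) (.nd (nat_lit 6) 
(.lf (nat_lit 71686) (.g (nat_lit 1484) (.e (nat_lit 1663) (nat_lit 115) (.e (nat_lit 393260) (nat_lit 21) (.e (nat_lit 409616) (nat_lit 10) (.e (nat_lit 7936) (nat_lit 298) .nil)))) .nil)) 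
(.lf (nat_lit 71750) (.g (nat_lit 959) (.e (nat_lit 1663) (nat_lit 115) (.e (nat_lit 393294) (nat_lit 26) (.e (nat_lit 475210) (nat_lit 41) .nil))) .nil))) (.nd (nat_lit 6) 
(.lf (nat_lit 71718) (.g (nat_lit 1133) (.e (nat_lit 1663) (nat_lit 115) (.e (nat_lit 393271) (nat_lit 23) (.e (nat_lit 425986) (nat_lit 0) .nil))) .nil)) 
(.lf (nat_lit 71782) (.g (nat_lit 2505) (.e (nat_lit 1664) (nat_lit 115) (.e (nat_lit 393229) (nat_lit 9) (.e (nat_lit 336186) (nat_lit 11) (.e (nat_lit 368676) (nat_lit 21) (.e (nat_lit 516117) (nat_lit 1) (.e (nat_lit 164159) (nat_lit 152) (.e (nat_lit 1027) (nat_lit 81) .nil))))))) (.g (nat_lit 6) .nil .nil))))) (.nd (nat_lit 5) (.nd (nat_lit 6) 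
(.lf (nat_lit 71702) (.g (nat_lit 1952) (.e (nat_lit 1663) (nat_lit 115) (.e (nat_lit 393260) (nat_lit 21) (.e (nat_lit 409646) (nat_lit 18) (.e (nat_lit 303151) (nat_lit 27) .nil)))) .nil)) 
(.lf (nat_lit 71766) (.g (nat_lit 1946) (.e (nat_lit 1664) (nat_lit 115) (.e (nat_lit 393229) (nat_lit 9) (.e (nat_lit 336087) (nat_lit 9) (.e (nat_lit 336019) (nat_lit 3) (.e (nat_lit 98334) (nat_lit 18) .nil))))) .nil))) (.nd (nat_lit 6) 
(.lf (nat_lit 71734) (.g (nat_lit 1571) (.e (nat_lit 1663) (nat_lit 115) (.e (nat_lit 393291) (nat_lit 26) (.e (nat_lit 475198) (nat_lit 40) (.e (nat_lit 704596) (nat_lit 5) (.e (nat_lit 188160) (nat_lit 32) .nil))))) (.g (nat_lit 4) .nil .nil))) 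
(.lf (nat_lit 71798) (.g (nat_lit 1872) (.e (nat_lit 1664) (nat_lit 115) (.e (nat_lit 393234) (nat_lit 17) (.e (nat_lit 7581) (nat_lit 405) (.e (nat_lit 57477) (nat_lit 28) (.e (nat_lit 557104) (nat_lit 14) (.e (nat_lit 180265) (nat_lit 21) (.e (nat_lit 663552) (nat_lit 0) .nil))))))) (.g (nat_lit 4) .nil .nil)))))) (.nd (nat_lit 4) (.nd (nat_lit 5) (.nd (nat_lit 6) 
(.lf (nat_lit 71694) (.g (nat_lit 1188) (.e (nat_lit 1663) (nat_lit 115) (.e (nat_lit 393260) (nat_lit 21) (.e (nat_lit 409623) (nat_lit 10) (.e (nat_lit 5293) (nat_lit 298) .nil)))) .nil)) 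
(.lf (nat_lit 71758) (.g (nat_lit 2310) (.e (nat_lit 1663) (nat_lit 115) (.e (nat_lit 393298) (nat_lit 27) (.e (nat_lit 491571) (nat_lit 13) (.e (nat_lit 393235) (nat_lit 17) .nil)))) .nil))) (.nd (nat_lit 6) 
(.lf (nat_lit 71726) (.g (nat_lit 1474) (.e (nat_lit 1663) (nat_lit 115) (.e (nat_lit 393275) (nat_lit 23) (.e (nat_lit 426140) (nat_lit 3) (.e (nat_lit 212736) (nat_lit 10) (.e (nat_lit 434279) (nat_lit 39) (.e (nat_lit 663556) (nat_lit 0) .nil)))))) (.g (nat_lit 5) .nil .nil))) 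
(.lf (nat_lit 71790) (.g (nat_lit 3123) (.e (nat_lit 1664) (nat_lit 115) (.e (nat_lit 393234) (nat_lit 17) (.e (nat_lit 7581) (nat_lit 405) (.e (nat_lit 57476) (nat_lit 28) (.e (nat_lit 557103) (nat_lit 14) (.e (nat_lit 180263) (nat_lit 21) (.e (nat_lit 671488) (nat_lit 0) .nil))))))) (.g (nat_lit 6) .nil .nil))))) (.nd (nat_lit 5) (.nd (nat_lit 6) 
(.lf (nat_lit 71710) (.g (nat_lit 2158) (.e (nat_lit 1663) (nat_lit 115) (.e (nat_lit 393260) (nat_lit 21) (.e (nat_lit 409649) (nat_lit 18) (.e (nat_lit 303151) (nat_lit 27) (.e (nat_lit 335894) (nat_lit 0) (.e (nat_lit 1944) (nat_lit 132) (.e (nat_lit 622605) (nat_lit 5) .nil))))))) (.g (nat_lit 4) .nil .nil))) 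
(.lf (nat_lit 71774) (.g (nat_lit 2091) (.e (nat_lit 1664) (nat_lit 115) (.e (nat_lit 393229) (nat_lit 9) (.e (nat_lit 336088) (nat_lit 9) (.e (nat_lit 336019) (nat_lit 3) (.e (nat_lit 98335) (nat_lit 18) .nil))))) .nil))) (.nd (nat_lit 6) 
(.lf (nat_lit 71742) (.g (nat_lit 956) (.e (nat_lit 1663) (nat_lit 115) (.e (nat_lit 393294) (nat_lit 26) (.e (nat_lit 475196) (nat_lit 40) .nil))) .nil)) 
(.lf (nat_lit 71806) (.g (nat_lit 2050) (.e (nat_lit 1664) (nat_lit 115) (.e (nat_lit 393234) (nat_lit 17) (.e (nat_lit 7583) (nat_lit 405) (.e (nat_lit 57464) (nat_lit 23) (.e (nat_lit 516129) (nat_lit 3) (.e (nat_lit 221217) (nat_lit 24) (.e (nat_lit 220928) (nat_lit 0) .nil))))))) (.g (nat_lit 6) .nil .nil))))))))) 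
(.nd (nat_lit 1) (.nd (nat_lit 2) (.nd (nat_lit 3) (.nd (nat_lit 4) (.nd (nat_lit 5) 
(.nd (nat_lit 6) 
(.lf (nat_lit 71681) (.g (nat_lit 1718) (.e (nat_lit 1663) (nat_lit 115) (.e (nat_lit 393253) (nat_lit 18) (.e (nat_lit 164189) (nat_lit 157) (.e (nat_lit 229409) (nat_lit 13) (.e (nat_lit 434232) (nat_lit 23) .nil))))) .nil)) 
(.lf (nat_lit 71745) (.g (nat_lit 2153) (.e (nat_lit 1663) (nat_lit 115) (.e (nat_lit 393294) (nat_lit 26) (.e (nat_lit 475198) (nat_lit 40) (.e (nat_lit 704595) (nat_lit 5) (.e (nat_lit 188160) (nat_lit 32) .nil))))) .nil))) (.nd (nat_lit 6) 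
(.lf (nat_lit 71713) (.g (nat_lit 1341) (.e (nat_lit 1663) (nat_lit 115) (.e (nat_lit 393260) (nat_lit 21) (.e (nat_lit 409649) (nat_lit 18) (.e (nat_lit 311040) (nat_lit 33) .nil)))) .nil)) 
(.lf (nat_lit 71777) (.g (nat_lit 1654) (.e (nat_lit 1664) (nat_lit 115) (.e (nat_lit 393229) (nat_lit 9) (.e (nat_lit 336184) (nat_lit 11) (.e (nat_lit 368676) (nat_lit 21) (.e (nat_lit 516117) (nat_lit 1) (.e (nat_lit 164159) (nat_lit 152) (.e (nat_lit 982) (nat_lit 81) .nil))))))) (.g (nat_lit 4) .nil .nil))))) (.nd (nat_lit 5) (.nd (nat_lit 6) 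
(.lf (nat_lit 71697) (.g (nat_lit 600) (.e (nat_lit 1663) (nat_lit 115) (.e (nat_lit 393260) (nat_lit 21) (.e (nat_lit 417536) (nat_lit 10) .nil))) .nil)) 
(.lf (nat_lit 71761) (.g (nat_lit 1060) (.e (nat_lit 1663) (nat_lit 115) (.e (nat_lit 393299) (nat_lit 27) (.e (nat_lit 491528) (nat_lit 0) .nil))) .nil))) (.nd (nat_lit 6) 
(.lf (nat_lit 71729) (.g (nat_lit 1523) (.e (nat_lit 1663) (nat_lit 115) (.e (nat_lit 393283) (nat_lit 24) (.e (nat_lit 434209) (nat_lit 18) (.e (nat_lit 5548) (nat_lit 306) (.e (nat_lit 2640) (nat_lit 165) .nil))))) .nil)) 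
(.lf (nat_lit 71793) (.g (nat_lit 1770) (.e (nat_lit 1664) (nat_lit 115) (.e (nat_lit 393234) (nat_lit 17) (.e (nat_lit 7581) (nat_lit 405) (.e (nat_lit 57476) (nat_lit 28) (.e (nat_lit 557104) (nat_lit 14) (.e (nat_lit 180265) (nat_lit 21) (.e (nat_lit 663552) (nat_lit 0) .nil))))))) (.g (nat_lit 4) .nil .nil)))))) (.nd (nat_lit 4) (.nd (nat_lit 5) (.nd (nat_lit 6) 
(.lf (nat_lit 71689) (.g (nat_lit 1731) (.e (nat_lit 1663) (nat_lit 115) (.e (nat_lit 393260) (nat_lit 21) (.e (nat_lit 409618) (nat_lit 10) (.e (nat_lit 5362) (nat_lit 298) .nil)))) .nil)) 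
(.lf (nat_lit 71753) (.g (nat_lit 2033) (.e (nat_lit 1663) (nat_lit 115) (.e (nat_lit 393297) (nat_lit 27) (.e (nat_lit 491571) (nat_lit 13) (.e (nat_lit 393231) (nat_lit 17) (.e (nat_lit 7500) (nat_lit 402) .nil))))) .nil))) (.nd (nat_lit 6) 
(.lf (nat_lit 71721) (.g (nat_lit 2239) (.e (nat_lit 1663) (nat_lit 115) (.e (nat_lit 393271) (nat_lit 23) (.e (nat_lit 426112) (nat_lit 1) (.e (nat_lit 164348) (nat_lit 240) (.e (nat_lit 2640) (nat_lit 165) .nil))))) .nil)) 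
(.lf (nat_lit 71785) (.g (nat_lit 614) (.e (nat_lit 1664) (nat_lit 115) (.e (nat_lit 393234) (nat_lit 17) (.e (nat_lit 7538) (nat_lit 402) .nil))) .nil)))) (.nd (nat_lit 5) (.nd (nat_lit 6) 
(.lf (nat_lit 71705) (.g (nat_lit 1553) (.e (nat_lit 1663) (nat_lit 115) (.e (nat_lit 393260) (nat_lit 21) (.e (nat_lit 409648) (nat_lit 18) (.e (nat_lit 303152) (nat_lit 27) .nil)))) .nil)) 
(.lf (nat_lit 71769) (.g (nat_lit 1866) (.e (nat_lit 1664) (nat_lit 115) (.e (nat_lit 393229) (nat_lit 9) (.e (nat_lit 336087) (nat_lit 9) (.e (nat_lit 336019) (nat_lit 3) (.e (nat_lit 98335) (nat_lit 18) .nil))))) .nil))) (.nd (nat_lit 6) 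
(.lf (nat_lit 71737) (.g (nat_lit 652) (.e (nat_lit 1663) (nat_lit 115) (.e (nat_lit 393291) (nat_lit 26) (.e (nat_lit 475201) (nat_lit 40) .nil))) .nil)) 
(.lf (nat_lit 71801) (.g (nat_lit 3270) (.e (nat_lit 1664) (nat_lit 115) (.e (nat_lit 393234) (nat_lit 17) (.e (nat_lit 7581) (nat_lit 405) (.e (nat_lit 57480) (nat_lit 28) (.e (nat_lit 557105) (nat_lit 14) (.e (nat_lit 180264) (nat_lit 21) (.e (nat_lit 663552) (nat_lit 0) .nil))))))) (.g (nat_lit 6) .nil .nil))))))) (.nd (nat_lit 3) (.nd (nat_lit 4) (.nd (nat_lit 5) (.nd (nat_lit 6) 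
(.lf (nat_lit 71685) (.g (nat_lit 585) (.e (nat_lit 1663) (nat_lit 115) (.e (nat_lit 393260) (nat_lit 21) (.e (nat_lit 409616) (nat_lit 10) .nil))) .nil)) 
(.lf (nat_lit 71749) (.g (nat_lit 1590) (.e (nat_lit 1663) (nat_lit 115) (.e (nat_lit 393294) (nat_lit 26) (.e (nat_lit 475209) (nat_lit 41) (.e (nat_lit 712749) (nat_lit 28) .nil)))) .nil))) (.nd (nat_lit 6) 
(.lf (nat_lit 71717) (.g (nat_lit 1795) (.e (nat_lit 1663) (nat_lit 115) (.e (nat_lit 393268) (nat_lit 23) (.e (nat_lit 426444) (nat_lit 19) (.e (nat_lit 114432) (nat_lit 5) .nil)))) .nil)) 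
(.lf (nat_lit 71781) (.g (nat_lit 1730) (.e (nat_lit 1664) (nat_lit 115) (.e (nat_lit 393229) (nat_lit 9) (.e (nat_lit 336186) (nat_lit 11) (.e (nat_lit 368676) (nat_lit 21) (.e (nat_lit 516117) (nat_lit 1) (.e (nat_lit 164159) (nat_lit 152) (.e (nat_lit 982) (nat_lit 81) .nil))))))) (.g (nat_lit 4) .nil .nil))))) (.nd (nat_lit 5) (.nd (nat_lit 6) 
(.lf (nat_lit 71701) (.g (nat_lit 674) (.e (nat_lit 1663) (nat_lit 115) (.e (nat_lit 393260) (nat_lit 21) (.e (nat_lit 409646) (nat_lit 18) .nil))) .nil)) 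
(.lf (nat_lit 71765) (.g (nat_lit 2036) (.e (nat_lit 1664) (nat_lit 115) (.e (nat_lit 393229) (nat_lit 9) (.e (nat_lit 336087) (nat_lit 9) (.e (nat_lit 336019) (nat_lit 3) (.e (nat_lit 98333) (nat_lit 18) (.e (nat_lit 164155) (nat_lit 152) (.e (nat_lit 1027) (nat_lit 81) .nil))))))) (.g (nat_lit 4) .nil .nil)))) (.nd (nat_lit 6) 
(.lf (nat_lit 71733) (.g (nat_lit 1578) (.e (nat_lit 1663) (nat_lit 115) (.e (nat_lit 393291) (nat_lit 26) (.e (nat_lit 475198) (nat_lit 40) (.e (nat_lit 704595) (nat_lit 5) .nil)))) .nil)) 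
(.lf (nat_lit 71797) (.g (nat_lit 1901) (.e (nat_lit 1664) (nat_lit 115) (.e (nat_lit 393234) (nat_lit 17) (.e (nat_lit 7581) (nat_lit 405) (.e (nat_lit 57477) (nat_lit 28) (.e (nat_lit 557104) (nat_lit 14) (.e (nat_lit 180264) (nat_lit 21) (.e (nat_lit 671488) (nat_lit 0) .nil))))))) (.g (nat_lit 4) .nil .nil)))))) (.nd (nat_lit 4) (.nd (nat_lit 5) (.nd (nat_lit 6) 
(.lf (nat_lit 71693) (.g (nat_lit 566) (.e (nat_lit 1663) (nat_lit 115) (.e (nat_lit 393260) (nat_lit 21) (.e (nat_lit 409623) (nat_lit 10) .nil))) .nil)) 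
(.lf (nat_lit 71757) (.g (nat_lit 2101) (.e (nat_lit 1663) (nat_lit 115) (.e (nat_lit 393298) (nat_lit 27) (.e (nat_lit 491550) (nat_lit 9) (.e (nat_lit 336421) (nat_lit 28) .nil)))) .nil))) (.nd (nat_lit 6) 
(.lf (nat_lit 71725) (.g (nat_lit 1214) (.e (nat_lit 1663) (nat_lit 115) (.e (nat_lit 393271) (nat_lit 23) (.e (nat_lit 426444) (nat_lit 19) (.e (nat_lit 114432) (nat_lit 5) .nil)))) .nil)) 
(.lf (nat_lit 71789) (.g (nat_lit 991) (.e (nat_lit 1664) (nat_lit 115) (.e (nat_lit 393234) (nat_lit 17) (.e (nat_lit 7581) (nat_lit 405) (.e (nat_lit 57464) (nat_lit 23) (.e (nat_lit 516130) (nat_lit 3) (.e (nat_lit 221219) (nat_lit 24) (.e (nat_lit 220928) (nat_lit 0) .nil))))))) (.g (nat_lit 4) .nil .nil))))) (.nd (nat_lit 5) (.nd (nat_lit 6) 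
(.lf (nat_lit 71709) (.g (nat_lit 2102) (.e (nat_lit 1663) (nat_lit 115) (.e (nat_lit 393260) (nat_lit 21) (.e (nat_lit 409649) (nat_lit 18) (.e (nat_lit 303151) (nat_lit 27) (.e (nat_lit 335894) (nat_lit 0) (.e (nat_lit 1935) (nat_lit 132) (.e (nat_lit 622603) (nat_lit 5) .nil))))))) (.g (nat_lit 4) .nil .nil))) 
(.lf (nat_lit 71773) (.g (nat_lit 2278) (.e (nat_lit 1664) (nat_lit 115) (.e (nat_lit 393229) (nat_lit 9) (.e (nat_lit 336088) (nat_lit 9) (.e (nat_lit 336019) (nat_lit 3) (.e (nat_lit 98334) (nat_lit 18) (.e (nat_lit 164161) (nat_lit 152) (.e (nat_lit 1032) (nat_lit 81) .nil))))))) (.g (nat_lit 4) .nil .nil)))) (.nd (nat_lit 6) 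
(.lf (nat_lit 71741) (.g (nat_lit 1552) (.e (nat_lit 1663) (nat_lit 115) (.e (nat_lit 393291) (nat_lit 26) (.e (nat_lit 475211) (nat_lit 41) (.e (nat_lit 712749) (nat_lit 28) .nil)))) .nil)) 
(.lf (nat_lit 71805) (.g (nat_lit 455) (.e (nat_lit 1664) (nat_lit 115) (.e (nat_lit 393234) (nat_lit 17) (.e (nat_lit 7583) (nat_lit 405) .nil))) .nil))))))) (.nd (nat_lit 2) (.nd (nat_lit 3) (.nd (nat_lit 4) (.nd (nat_lit 5) (.nd (nat_lit 6) 
(.lf (nat_lit 71683) (.g (nat_lit 1154) (.e (nat_lit 1663) (nat_lit 115) (.e (nat_lit 393260) (nat_lit 21) (.e (nat_lit 409608) (nat_lit 10) (.e (nat_lit 619) (nat_lit 48) .nil)))) .nil)) 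
(.lf (nat_lit 71747) (.g (nat_lit 956) (.e (nat_lit 1663) (nat_lit 115) (.e (nat_lit 393294) (nat_lit 26) (.e (nat_lit 475207) (nat_lit 41) .nil))) .nil))) (.nd (nat_lit 6) 
(.lf (nat_lit 71715) (.g (nat_lit 699) (.e (nat_lit 1663) (nat_lit 115) (.e (nat_lit 393263) (nat_lit 22) (.e (nat_lit 417817) (nat_lit 10) (.e (nat_lit 5364) (nat_lit 298) .nil)))) .nil)) 
(.lf (nat_lit 71779) (.g (nat_lit 1002) (.e (nat_lit 1664) (nat_lit 115) (.e (nat_lit 393229) (nat_lit 9) (.e (nat_lit 336186) (nat_lit 11) (.e (nat_lit 368676) (nat_lit 21) .nil)))) .nil)))) (.nd (nat_lit 5) (.nd (nat_lit 6) 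
(.lf (nat_lit 71699) (.g (nat_lit 579) (.e (nat_lit 1663) (nat_lit 115) (.e (nat_lit 393260) (nat_lit 21) (.e (nat_lit 409641) (nat_lit 17) .nil))) .nil)) 
(.lf (nat_lit 71763) (.g (nat_lit 1669) (.e (nat_lit 1664) (nat_lit 115) (.e (nat_lit 393225) (nat_lit 9) (.e (nat_lit 336088) (nat_lit 9) (.e (nat_lit 336019) (nat_lit 3) .nil)))) .nil))) (.nd (nat_lit 6) 
(.lf (nat_lit 71731) (.g (nat_lit 893) (.e (nat_lit 1663) (nat_lit 115) (.e (nat_lit 393287) (nat_lit 25) (.e (nat_lit 458789) (nat_lit 23) (.e (nat_lit 540416) (nat_lit 27) .nil)))) .nil)) 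
(.lf (nat_lit 71795) (.g (nat_lit 3089) (.e (nat_lit 1664) (nat_lit 115) (.e (nat_lit 393234) (nat_lit 17) (.e (nat_lit 7581) (nat_lit 405) (.e (nat_lit 57477) (nat_lit 28) (.e (nat_lit 557103) (nat_lit 14) (.e (nat_lit 180263) (nat_lit 21) (.e (nat_lit 671488) (nat_lit 0) .nil))))))) (.g (nat_lit 6) .nil .nil)))))) (.nd (nat_lit 4) (.nd (nat_lit 5) (.nd (nat_lit 6) 
(.lf (nat_lit 71691) (.g (nat_lit 1665) (.e (nat_lit 1663) (nat_lit 115) (.e (nat_lit 393260) (nat_lit 21) (.e (nat_lit 409618) (nat_lit 10) (.e (nat_lit 5364) (nat_lit 298) .nil)))) .nil)) 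
(.lf (nat_lit 71755) (.g (nat_lit 1268) (.e (nat_lit 1663) (nat_lit 115) (.e (nat_lit 393297) (nat_lit 27) (.e (nat_lit 491571) (nat_lit 13) (.e (nat_lit 393235) (nat_lit 17) .nil)))) .nil))) (.nd (nat_lit 6) 
(.lf (nat_lit 71723) (.g (nat_lit 879) (.e (nat_lit 1663) (nat_lit 115) (.e (nat_lit 393271) (nat_lit 23) (.e (nat_lit 426364) (nat_lit 15) .nil))) .nil)) 
(.lf (nat_lit 71787) (.g (nat_lit 2020) (.e (nat_lit 1664) (nat_lit 115) (.e (nat_lit 393234) (nat_lit 17) (.e (nat_lit 7581) (nat_lit 405) (.e (nat_lit 57464) (nat_lit 23) (.e (nat_lit 516129) (nat_lit 3) (.e (nat_lit 221217) (nat_lit 24) (.e (nat_lit 220928) (nat_lit 0) .nil))))))) (.g (nat_lit 6) .nil .nil))))) (.nd (nat_lit 5) (.nd (nat_lit 6) 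
(.lf (nat_lit 71707) (.g (nat_lit 1515) (.e (nat_lit 1663) (nat_lit 115) (.e (nat_lit 393260) (nat_lit 21) (.e (nat_lit 409648) (nat_lit 18) (.e (nat_lit 311040) (nat_lit 33) .nil)))) .nil)) 
(.lf (nat_lit 71771) (.g (nat_lit 2147) (.e (nat_lit 1664) (nat_lit 115) (.e (nat_lit 393229) (nat_lit 9) (.e (nat_lit 336088) (nat_lit 9) (.e (nat_lit 336019) (nat_lit 3) (.e (nat_lit 98334) (nat_lit 18) .nil))))) .nil))) (.nd (nat_lit 6) 
(.lf (nat_lit 71739) (.g (nat_lit 1699) (.e (nat_lit 1663) (nat_lit 115) (.e (nat_lit 393291) (nat_lit 26) (.e (nat_lit 475210) (nat_lit 41) (.e (nat_lit 712749) (nat_lit 28) .nil)))) .nil)) 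
(.lf (nat_lit 71803) (.g (nat_lit 3679) (.e (nat_lit 1664) (nat_lit 115) (.e (nat_lit 393234) (nat_lit 17) (.e (nat_lit 7581) (nat_lit 405) (.e (nat_lit 57480) (nat_lit 28) (.e (nat_lit 557105) (nat_lit 14) (.e (nat_lit 180265) (nat_lit 21) (.e (nat_lit 663552) (nat_lit 0) .nil))))))) (.g (nat_lit 6) .nil .nil))))))) (.nd (nat_lit 3) (.nd (nat_lit 4) (.nd (nat_lit 5) (.nd (nat_lit 6) 
(.lf (nat_lit 71687) (.g (nat_lit 616) (.e (nat_lit 1663) (nat_lit 115) (.e (nat_lit 393260) (nat_lit 21) (.e (nat_lit 409617) (nat_lit 10) .nil))) .nil)) 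
(.lf (nat_lit 71751) (.g (nat_lit 1787) (.e (nat_lit 1663) (nat_lit 115) (.e (nat_lit 393294) (nat_lit 26) (.e (nat_lit 475210) (nat_lit 41) (.e (nat_lit 712747) (nat_lit 28) .nil)))) .nil))) (.nd (nat_lit 6) 
(.lf (nat_lit 71719) (.g (nat_lit 1004) (.e (nat_lit 1663) (nat_lit 115) (.e (nat_lit 393271) (nat_lit 23) (.e (nat_lit 426112) (nat_lit 1) .nil))) .nil)) 
(.lf (nat_lit 71783) (.g (nat_lit 686) (.e (nat_lit 1664) (nat_lit 115) (.e (nat_lit 393234) (nat_lit 17) (.e (nat_lit 7486) (nat_lit 402) .nil))) .nil)))) (.nd (nat_lit 5) (.nd (nat_lit 6) 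
(.lf (nat_lit 71703) (.g (nat_lit 1448) (.e (nat_lit 1663) (nat_lit 115) (.e (nat_lit 393260) (nat_lit 21) (.e (nat_lit 409648) (nat_lit 18) (.e (nat_lit 303151) (nat_lit 27) .nil)))) .nil)) 
(.lf (nat_lit 71767) (.g (nat_lit 2021) (.e (nat_lit 1664) (nat_lit 115) (.e (nat_lit 393229) (nat_lit 9) (.e (nat_lit 336087) (nat_lit 9) (.e (nat_lit 336019) (nat_lit 3) (.e (nat_lit 98334) (nat_lit 18) (.e (nat_lit 164157) (nat_lit 152) (.e (nat_lit 1027) (nat_lit 81) .nil))))))) (.g (nat_lit 4) .nil .nil)))) (.nd (nat_lit 6) 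
(.lf (nat_lit 71735) (.g (nat_lit 2104) (.e (nat_lit 1663) (nat_lit 115) (.e (nat_lit 393291) (nat_lit 26) (.e (nat_lit 475199) (nat_lit 40) (.e (nat_lit 704595) (nat_lit 5) (.e (nat_lit 188160) (nat_lit 32) .nil))))) .nil)) 
(.lf (nat_lit 71799) (.g (nat_lit 3755) (.e (nat_lit 1664) (nat_lit 115) (.e (nat_lit 393234) (nat_lit 17) (.e (nat_lit 7581) (nat_lit 405) (.e (nat_lit 57479) (nat_lit 28) (.e (nat_lit 557105) (nat_lit 14) (.e (nat_lit 180265) (nat_lit 21) (.e (nat_lit 671488) (nat_lit 0) .nil))))))) (.g (nat_lit 6) .nil .nil)))))) (.nd (nat_lit 4) (.nd (nat_lit 5) (.nd (nat_lit 6) 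
(.lf (nat_lit 71695) (.g (nat_lit 1900) (.e (nat_lit 1663) (nat_lit 115) (.e (nat_lit 393260) (nat_lit 21) (.e (nat_lit 409623) (nat_lit 10) (.e (nat_lit 5293) (nat_lit 298) (.e (nat_lit 7936) (nat_lit 36) (.e (nat_lit 466688) (nat_lit 0) .nil)))))) (.g (nat_lit 4) .nil .nil))) 
(.lf (nat_lit 71759) (.g (nat_lit 2008) (.e (nat_lit 1663) (nat_lit 115) (.e (nat_lit 393298) (nat_lit 27) (.e (nat_lit 491571) (nat_lit 13) (.e (nat_lit 393238) (nat_lit 17) .nil)))) .nil))) (.nd (nat_lit 6) 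
(.lf (nat_lit 71727) (.g (nat_lit 1614) (.e (nat_lit 1663) (nat_lit 115) (.e (nat_lit 393279) (nat_lit 23) (.e (nat_lit 426110) (nat_lit 1) (.e (nat_lit 164348) (nat_lit 240) (.e (nat_lit 2640) (nat_lit 165) (.e (nat_lit 188160) (nat_lit 32) .nil)))))) (.g (nat_lit 5) .nil .nil))) 
(.lf (nat_lit 71791) (.g (nat_lit 1719) (.e (nat_lit 1664) (nat_lit 115) (.e (nat_lit 393234) (nat_lit 17) (.e (nat_lit 7581) (nat_lit 405) (.e (nat_lit 57476) (nat_lit 28) (.e (nat_lit 557104) (nat_lit 14) .nil))))) .nil)))) (.nd (nat_lit 5) (.nd (nat_lit 6) 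
(.lf (nat_lit 71711) (.g (nat_lit 3537) (.e (nat_lit 1663) (nat_lit 115) (.e (nat_lit 393260) (nat_lit 21) (.e (nat_lit 409649) (nat_lit 18) (.e (nat_lit 303151) (nat_lit 27) (.e (nat_lit 335995) (nat_lit 1) (.e (nat_lit 57780) (nat_lit 239) (.e (nat_lit 1019) (nat_lit 81) .nil))))))) (.g (nat_lit 7) .nil .nil))) 
(.lf (nat_lit 71775) (.g (nat_lit 959) (.e (nat_lit 1664) (nat_lit 115) (.e (nat_lit 393229) (nat_lit 9) (.e (nat_lit 336184) (nat_lit 11) (.e (nat_lit 368676) (nat_lit 21) .nil)))) .nil))) (.nd (nat_lit 6) 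
(.lf (nat_lit 71743) (.g (nat_lit 967) (.e (nat_lit 1663) (nat_lit 115) (.e (nat_lit 393294) (nat_lit 26) (.e (nat_lit 475197) (nat_lit 40) .nil))) .nil)) 
(.lf (nat_lit 71807) (.g (nat_lit 1432) (.e (nat_lit 1664) (nat_lit 115) (.e (nat_lit 393234) (nat_lit 17) (.e (nat_lit 7583) (nat_lit 405) (.e (nat_lit 57464) (nat_lit 23) (.e (nat_lit 516130) (nat_lit 3) (.e (nat_lit 221218) (nat_lit 24) (.e (nat_lit 220928) (nat_lit 0) .nil))))))) (.g (nat_lit 5) .nil .nil))))))))))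

noncomputable def tv980 : DT := (.nd (nat_lit 0) (.nd (nat_lit 1) (.nd (nat_lit 2) (.nd (nat_lit 3) (.nd (nat_lit 4) (.nd (nat_lit 5) (.nd (nat_lit 6) 
(.lf (nat_lit 71808) (.g (nat_lit 982) (.e (nat_lit 1664) (nat_lit 115) (.e (nat_lit 393234) (nat_lit 17) (.e (nat_lit 7583) (nat_lit 405) (.e (nat_lit 57464) (nat_lit 23) (.e (nat_lit 516130) (nat_lit 3) (.e (nat_lit 221219) (nat_lit 24) (.e (nat_lit 220928) (nat_lit 0) .nil))))))) (.g (nat_lit 4) .nil .nil))) 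
(.lf (nat_lit 71872) (.g (nat_lit 388) (.e (nat_lit 1664) (nat_lit 115) (.e (nat_lit 393301) (nat_lit 27) (.e (nat_lit 491552) (nat_lit 9) .nil))) .nil))) (.nd (nat_lit 6) 
(.lf (nat_lit 71840) (.g (nat_lit 2282) (.e (nat_lit 1664) (nat_lit 115) (.e (nat_lit 393298) (nat_lit 27) (.e (nat_lit 491571) (nat_lit 13) (.e (nat_lit 393238) (nat_lit 17) (.e (nat_lit 7936) (nat_lit 402) .nil))))) .nil)) 
(.lf (nat_lit 71904) (.g (nat_lit 2357) (.e (nat_lit 1664) (nat_lit 115) (.e (nat_lit 393301) (nat_lit 27) (.e (nat_lit 491558) (nat_lit 10) (.e (nat_lit 344096) (nat_lit 18) (.e (nat_lit 7261) (nat_lit 384) .nil))))) .nil)))) (.nd (nat_lit 5) (.nd (nat_lit 6) 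
(.lf (nat_lit 71824) (.g (nat_lit 1047) (.e (nat_lit 1664) (nat_lit 115) (.e (nat_lit 393293) (nat_lit 26) (.e (nat_lit 475210) (nat_lit 41) (.e (nat_lit 712749) (nat_lit 28) .nil)))) .nil)) 
(.lf (nat_lit 71888) (.g (nat_lit 2696) (.e (nat_lit 1664) (nat_lit 115) (.e (nat_lit 393301) (nat_lit 27) (.e (nat_lit 491558) (nat_lit 10) (.e (nat_lit 344090) (nat_lit 18) (.e (nat_lit 7265) (nat_lit 384) (.e (nat_lit 57347) (nat_lit 0) (.e (nat_lit 7936) (nat_lit 343) .nil))))))) (.g (nat_lit 4) .nil .nil)))) (.nd (nat_lit 6) 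
(.lf (nat_lit 71856) (.g (nat_lit 2361) (.e (nat_lit 1664) (nat_lit 115) (.e (nat_lit 393301) (nat_lit 27) (.e (nat_lit 491530) (nat_lit 0) (.e (nat_lit 1796) (nat_lit 119) (.e (nat_lit 516131) (nat_lit 3) (.e (nat_lit 221219) (nat_lit 24) (.e (nat_lit 220928) (nat_lit 0) .nil))))))) (.g (nat_lit 5) .nil .nil))) 
(.lf (nat_lit 71920) (.g (nat_lit 3504) (.e (nat_lit 1664) (nat_lit 115) (.e (nat_lit 393301) (nat_lit 27) (.e (nat_lit 491559) (nat_lit 10) (.e (nat_lit 344091) (nat_lit 18) (.e (nat_lit 7265) (nat_lit 384) (.e (nat_lit 57347) (nat_lit 0) (.e (nat_lit 6481) (nat_lit 343) .nil))))))) (.g (nat_lit 5) .nil .nil)))))) (.nd (nat_lit 4) (.nd (nat_lit 5) (.nd (nat_lit 6) 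
(.lf (nat_lit 71816) (.g (nat_lit 1547) (.e (nat_lit 1664) (nat_lit 115) (.e (nat_lit 393273) (nat_lit 23) (.e (nat_lit 426364) (nat_lit 15) (.e (nat_lit 2160) (nat_lit 143) (.e (nat_lit 712747) (nat_lit 28) .nil))))) .nil)) 
(.lf (nat_lit 71880) (.g (nat_lit 2667) (.e (nat_lit 1664) (nat_lit 115) (.e (nat_lit 393301) (nat_lit 27) (.e (nat_lit 491556) (nat_lit 9) (.e (nat_lit 336420) (nat_lit 28) (.e (nat_lit 442112) (nat_lit 0) .nil))))) (.g (nat_lit 4) .nil .nil)))) (.nd (nat_lit 6) 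
(.lf (nat_lit 71848) (.g (nat_lit 2799) (.e (nat_lit 1664) (nat_lit 115) (.e (nat_lit 393301) (nat_lit 27) (.e (nat_lit 491526) (nat_lit 0) (.e (nat_lit 1788) (nat_lit 119) (.e (nat_lit 516130) (nat_lit 3) (.e (nat_lit 221218) (nat_lit 24) (.e (nat_lit 220928) (nat_lit 0) .nil))))))) (.g (nat_lit 6) .nil .nil))) 
(.lf (nat_lit 71912) (.g (nat_lit 3017) (.e (nat_lit 1664) (nat_lit 115) (.e (nat_lit 393301) (nat_lit 27) (.e (nat_lit 491559) (nat_lit 10) (.e (nat_lit 344090) (nat_lit 18) (.e (nat_lit 7265) (nat_lit 384) .nil))))) .nil)))) (.nd (nat_lit 5) (.nd (nat_lit 6) 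
(.lf (nat_lit 71832) (.g (nat_lit 1911) (.e (nat_lit 1664) (nat_lit 115) (.e (nat_lit 393298) (nat_lit 27) (.e (nat_lit 491550) (nat_lit 9) (.e (nat_lit 336421) (nat_lit 28) (.e (nat_lit 442112) (nat_lit 0) .nil))))) (.g (nat_lit 4) .nil .nil))) 
(.lf (nat_lit 71896) (.g (nat_lit 2827) (.e (nat_lit 1664) (nat_lit 115) (.e (nat_lit 393301) (nat_lit 27) (.e (nat_lit 491558) (nat_lit 10) (.e (nat_lit 344091) (nat_lit 18) (.e (nat_lit 7265) (nat_lit 384) (.e (nat_lit 57347) (nat_lit 0) (.e (nat_lit 6481) (nat_lit 343) .nil))))))) (.g (nat_lit 5) .nil .nil)))) (.nd (nat_lit 6) 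
(.lf (nat_lit 71864) (.g (nat_lit 738) (.e (nat_lit 1664) (nat_lit 115) (.e (nat_lit 393301) (nat_lit 27) (.e (nat_lit 491539) (nat_lit 3) .nil))) .nil)) 
(.lf (nat_lit 71928) (.g (nat_lit 2461) (.e (nat_lit 1664) (nat_lit 115) (.e (nat_lit 393301) (nat_lit 27) (.e (nat_lit 491559) (nat_lit 10) (.e (nat_lit 344097) (nat_lit 18) .nil)))) .nil)))))) (.nd (nat_lit 3) (.nd (nat_lit 4) (.nd (nat_lit 5) (.nd (nat_lit 6) 
(.lf (nat_lit 71812) (.g (nat_lit 797) (.e (nat_lit 1664) (nat_lit 115) (.e (nat_lit 393234) (nat_lit 17) (.e (nat_lit 7589) (nat_lit 406) (.e (nat_lit 65653) (nat_lit 27) .nil)))) .nil)) 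
(.lf (nat_lit 71876) (.g (nat_lit 1734) (.e (nat_lit 1664) (nat_lit 115) (.e (nat_lit 393301) (nat_lit 27) (.e (nat_lit 491552) (nat_lit 9) (.e (nat_lit 336412) (nat_lit 27) (.e (nat_lit 426013) (nat_lit 0) (.e (nat_lit 7936) (nat_lit 402) .nil)))))) (.g (nat_lit 4) .nil .nil)))) (.nd (nat_lit 6) 
(.lf (nat_lit 71844) (.g (nat_lit 638) (.e (nat_lit 1664) (nat_lit 115) (.e (nat_lit 393300) (nat_lit 27) (.e (nat_lit 491568) (nat_lit 13) .nil))) .nil)) 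
(.lf (nat_lit 71908) (.g (nat_lit 2556) (.e (nat_lit 1664) (nat_lit 115) (.e (nat_lit 393301) (nat_lit 27) (.e (nat_lit 491558) (nat_lit 10) (.e (nat_lit 344097) (nat_lit 18) (.e (nat_lit 7254) (nat_lit 383) .nil))))) .nil)))) (.nd (nat_lit 5) (.nd (nat_lit 6) 
(.lf (nat_lit 71828) (.g (nat_lit 852) (.e (nat_lit 1664) (nat_lit 115) (.e (nat_lit 393296) (nat_lit 26) (.e (nat_lit 475208) (nat_lit 41) .nil))) .nil)) 
(.lf (nat_lit 71892) (.g (nat_lit 2353) (.e (nat_lit 1664) (nat_lit 115) (.e (nat_lit 393301) (nat_lit 27) (.e (nat_lit 491558) (nat_lit 10) (.e (nat_lit 344091) (nat_lit 18) (.e (nat_lit 7125) (nat_lit 382) .nil))))) .nil))) (.nd (nat_lit 6) 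
(.lf (nat_lit 71860) (.g (nat_lit 1763) (.e (nat_lit 1664) (nat_lit 115) (.e (nat_lit 393301) (nat_lit 27) (.e (nat_lit 491538) (nat_lit 3) (.e (nat_lit 98341) (nat_lit 20) (.e (nat_lit 221219) (nat_lit 24) .nil))))) .nil)) 
(.lf (nat_lit 71924) (.g (nat_lit 2479) (.e (nat_lit 1664) (nat_lit 115) (.e (nat_lit 393301) (nat_lit 27) (.e (nat_lit 491559) (nat_lit 10) (.e (nat_lit 344095) (nat_lit 18) .nil)))) .nil))))) (.nd (nat_lit 4) (.nd (nat_lit 5) (.nd (nat_lit 6) 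
(.lf (nat_lit 71820) (.g (nat_lit 1121) (.e (nat_lit 1664) (nat_lit 115) (.e (nat_lit 393293) (nat_lit 26) (.e (nat_lit 475198) (nat_lit 40) (.e (nat_lit 704596) (nat_lit 5) .nil)))) .nil)) 
(.lf (nat_lit 71884) (.g (nat_lit 1857) (.e (nat_lit 1664) (nat_lit 115) (.e (nat_lit 393301) (nat_lit 27) (.e (nat_lit 491558) (nat_lit 10) (.e (nat_lit 344090) (nat_lit 18) .nil)))) .nil))) (.nd (nat_lit 6) 
(.lf (nat_lit 71852) (.g (nat_lit 1477) (.e (nat_lit 1664) (nat_lit 115) (.e (nat_lit 393301) (nat_lit 27) (.e (nat_lit 491526) (nat_lit 0) (.e (nat_lit 1798) (nat_lit 119) .nil)))) .nil)) 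
(.lf (nat_lit 71916) (.g (nat_lit 2934) (.e (nat_lit 1664) (nat_lit 115) (.e (nat_lit 393301) (nat_lit 27) (.e (nat_lit 491559) (nat_lit 10) (.e (nat_lit 344091) (nat_lit 18) (.e (nat_lit 7125) (nat_lit 382) .nil))))) .nil)))) (.nd (nat_lit 5) (.nd (nat_lit 6) 
(.lf (nat_lit 71836) (.g (nat_lit 1365) (.e (nat_lit 1664) (nat_lit 115) (.e (nat_lit 393298) (nat_lit 27) (.e (nat_lit 491571) (nat_lit 13) (.e (nat_lit 393231) (nat_lit 17) .nil)))) .nil)) 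
(.lf (nat_lit 71900) (.g (nat_lit 1745) (.e (nat_lit 1664) (nat_lit 115) (.e (nat_lit 393301) (nat_lit 27) (.e (nat_lit 491558) (nat_lit 10) (.e (nat_lit 344096) (nat_lit 18) .nil)))) .nil))) (.nd (nat_lit 6) 
(.lf (nat_lit 71868) (.g (nat_lit 1379) (.e (nat_lit 1664) (nat_lit 115) (.e (nat_lit 393301) (nat_lit 27) (.e (nat_lit 491546) (nat_lit 9) (.e (nat_lit 336423) (nat_lit 28) .nil)))) .nil)) 
(.lf (nat_lit 71932) (.g (nat_lit 3646) (.e (nat_lit 1664) (nat_lit 115) (.e (nat_lit 393301) (nat_lit 27) (.e (nat_lit 491559) (nat_lit 10) (.e (nat_lit 344177) (nat_lit 43) (.e (nat_lit 770075) (nat_lit 11) .nil))))) .nil))))))) (.nd (nat_lit 2) (.nd (nat_lit 3) (.nd (nat_lit 4) (.nd (nat_lit 5) (.nd (nat_lit 6) 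
(.lf (nat_lit 71810) (.g (nat_lit 774) (.e (nat_lit 1664) (nat_lit 115) (.e (nat_lit 393234) (nat_lit 17) (.e (nat_lit 7587) (nat_lit 406) (.e (nat_lit 65653) (nat_lit 27) .nil)))) .nil)) 
(.lf (nat_lit 71874) (.g (nat_lit 1254) (.e (nat_lit 1664) (nat_lit 115) (.e (nat_lit 393301) (nat_lit 27) (.e (nat_lit 491552) (nat_lit 9) (.e (nat_lit 336388) (nat_lit 27) .nil)))) .nil))) (.nd (nat_lit 6) 
(.lf (nat_lit 71842) (.g (nat_lit 796) (.e (nat_lit 1664) (nat_lit 115) (.e (nat_lit 393299) (nat_lit 27) (.e (nat_lit 491570) (nat_lit 13) .nil))) .nil)) 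
(.lf (nat_lit 71906) (.g (nat_lit 3948) (.e (nat_lit 1664) (nat_lit 115) (.e (nat_lit 393301) (nat_lit 27) (.e (nat_lit 491558) (nat_lit 10) (.e (nat_lit 344096) (nat_lit 18) (.e (nat_lit 7265) (nat_lit 384) (.e (nat_lit 57354) (nat_lit 0) (.e (nat_lit 7936) (nat_lit 343) .nil))))))) (.g (nat_lit 6) .nil .nil))))) (.nd (nat_lit 5) (.nd (nat_lit 6) 
(.lf (nat_lit 71826) (.g (nat_lit 1645) (.e (nat_lit 1664) (nat_lit 115) (.e (nat_lit 393296) (nat_lit 26) (.e (nat_lit 475207) (nat_lit 41) (.e (nat_lit 712747) (nat_lit 28) (.e (nat_lit 442112) (nat_lit 0) .nil))))) (.g (nat_lit 4) .nil .nil))) 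
(.lf (nat_lit 71890) (.g (nat_lit 2576) (.e (nat_lit 1664) (nat_lit 115) (.e (nat_lit 393301) (nat_lit 27) (.e (nat_lit 491558) (nat_lit 10) (.e (nat_lit 344091) (nat_lit 18) (.e (nat_lit 7122) (nat_lit 382) (.e (nat_lit 1183) (nat_lit 87) (.e (nat_lit 65280) (nat_lit 187) .nil))))))) (.g (nat_lit 4) .nil .nil)))) (.nd (nat_lit 6) 
(.lf (nat_lit 71858) (.g (nat_lit 2151) (.e (nat_lit 1664) (nat_lit 115) (.e (nat_lit 393301) (nat_lit 27) (.e (nat_lit 491538) (nat_lit 3) (.e (nat_lit 98341) (nat_lit 20) (.e (nat_lit 221217) (nat_lit 24) (.e (nat_lit 220928) (nat_lit 0) .nil)))))) (.g (nat_lit 5) .nil .nil))) 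
(.lf (nat_lit 71922) (.g (nat_lit 2432) (.e (nat_lit 1664) (nat_lit 115) (.e (nat_lit 393301) (nat_lit 27) (.e (nat_lit 491559) (nat_lit 10) (.e (nat_lit 344094) (nat_lit 18) .nil)))) .nil))))) (.nd (nat_lit 4) (.nd (nat_lit 5) (.nd (nat_lit 6) 
(.lf (nat_lit 71818) (.g (nat_lit 705) (.e (nat_lit 1664) (nat_lit 115) (.e (nat_lit 393273) (nat_lit 23) (.e (nat_lit 426444) (nat_lit 19) .nil))) .nil)) 
(.lf (nat_lit 71882) (.g (nat_lit 2093) (.e (nat_lit 1664) (nat_lit 115) (.e (nat_lit 393301) (nat_lit 27) (.e (nat_lit 491556) (nat_lit 9) (.e (nat_lit 336437) (nat_lit 31) .nil)))) .nil))) (.nd (nat_lit 6) 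
(.lf (nat_lit 71850) (.g (nat_lit 1994) (.e (nat_lit 1664) (nat_lit 115) (.e (nat_lit 393301) (nat_lit 27) (.e (nat_lit 491526) (nat_lit 0) (.e (nat_lit 1788) (nat_lit 119) (.e (nat_lit 516131) (nat_lit 3) (.e (nat_lit 221218) (nat_lit 24) (.e (nat_lit 220928) (nat_lit 0) .nil))))))) (.g (nat_lit 4) .nil .nil))) 
(.lf (nat_lit 71914) (.g (nat_lit 2437) (.e (nat_lit 1664) (nat_lit 115) (.e (nat_lit 393301) (nat_lit 27) (.e (nat_lit 491559) (nat_lit 10) (.e (nat_lit 344091) (nat_lit 18) .nil)))) .nil)))) (.nd (nat_lit 5) (.nd (nat_lit 6) 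
(.lf (nat_lit 71834) (.g (nat_lit 1447) (.e (nat_lit 1664) (nat_lit 115) (.e (nat_lit 393298) (nat_lit 27) (.e (nat_lit 491569) (nat_lit 13) (.e (nat_lit 393234) (nat_lit 17) (.e (nat_lit 7936) (nat_lit 402) .nil))))) .nil)) 
(.lf (nat_lit 71898) (.g (nat_lit 2347) (.e (nat_lit 1664) (nat_lit 115) (.e (nat_lit 393301) (nat_lit 27) (.e (nat_lit 491558) (nat_lit 10) (.e (nat_lit 344095) (nat_lit 18) (.e (nat_lit 7122) (nat_lit 382) (.e (nat_lit 1183) (nat_lit 87) (.e (nat_lit 65280) (nat_lit 187) .nil))))))) (.g (nat_lit 4) .nil .nil)))) (.nd (nat_lit 6) 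
(.lf (nat_lit 71866) (.g (nat_lit 2193) (.e (nat_lit 1664) (nat_lit 115) (.e (nat_lit 393301) (nat_lit 27) (.e (nat_lit 491539) (nat_lit 3) (.e (nat_lit 98341) (nat_lit 20) (.e (nat_lit 221218) (nat_lit 24) .nil))))) .nil)) 
(.lf (nat_lit 71930) (.g (nat_lit 3617) (.e (nat_lit 1664) (nat_lit 115) (.e (nat_lit 393301) (nat_lit 27) (.e (nat_lit 491559) (nat_lit 10) (.e (nat_lit 344177) (nat_lit 43) (.e (nat_lit 770067) (nat_lit 7) .nil))))) .nil)))))) (.nd (nat_lit 3) (.nd (nat_lit 4) (.nd (nat_lit 5) (.nd (nat_lit 6) 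
(.lf (nat_lit 71814) (.g (nat_lit 1294) (.e (nat_lit 1664) (nat_lit 115) (.e (nat_lit 393234) (nat_lit 17) (.e (nat_lit 7591) (nat_lit 407) (.e (nat_lit 73729) (nat_lit 0) .nil)))) .nil)) 
(.lf (nat_lit 71878) (.g (nat_lit 947) (.e (nat_lit 1664) (nat_lit 115) (.e (nat_lit 393301) (nat_lit 27) (.e (nat_lit 491556) (nat_lit 9) .nil))) .nil))) (.nd (nat_lit 6) 
(.lf (nat_lit 71846) (.g (nat_lit 619) (.e (nat_lit 1664) (nat_lit 115) (.e (nat_lit 393301) (nat_lit 27) (.e (nat_lit 491520) (nat_lit 0) .nil))) .nil)) 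
(.lf (nat_lit 71910) (.g (nat_lit 2472) (.e (nat_lit 1664) (nat_lit 115) (.e (nat_lit 393301) (nat_lit 27) (.e (nat_lit 491559) (nat_lit 10) (.e (nat_lit 344090) (nat_lit 18) .nil)))) .nil)))) (.nd (nat_lit 5) (.nd (nat_lit 6) 
(.lf (nat_lit 71830) (.g (nat_lit 1575) (.e (nat_lit 1664) (nat_lit 115) (.e (nat_lit 393298) (nat_lit 27) (.e (nat_lit 491549) (nat_lit 9) (.e (nat_lit 336421) (nat_lit 28) .nil)))) .nil)) 
(.lf (nat_lit 71894) (.g (nat_lit 2333) (.e (nat_lit 1664) (nat_lit 115) (.e (nat_lit 393301) (nat_lit 27) (.e (nat_lit 491558) (nat_lit 10) (.e (nat_lit 344091) (nat_lit 18) (.e (nat_lit 7261) (nat_lit 384) .nil))))) .nil))) (.nd (nat_lit 6) 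
(.lf (nat_lit 71862) (.g (nat_lit 2007) (.e (nat_lit 1664) (nat_lit 115) (.e (nat_lit 393301) (nat_lit 27) (.e (nat_lit 491538) (nat_lit 3) (.e (nat_lit 98342) (nat_lit 20) (.e (nat_lit 221218) (nat_lit 24) (.e (nat_lit 220928) (nat_lit 0) .nil)))))) (.g (nat_lit 5) .nil .nil))) 
(.lf (nat_lit 71926) (.g (nat_lit 2432) (.e (nat_lit 1664) (nat_lit 115) (.e (nat_lit 393301) (nat_lit 27) (.e (nat_lit 491559) (nat_lit 10) (.e (nat_lit 344096) (nat_lit 18) .nil)))) .nil))))) (.nd (nat_lit 4) (.nd (nat_lit 5) (.nd (nat_lit 6) 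
(.lf (nat_lit 71822) (.g (nat_lit 522) (.e (nat_lit 1664) (nat_lit 115) (.e (nat_lit 393293) (nat_lit 26) (.e (nat_lit 475209) (nat_lit 41) .nil))) .nil)) 
(.lf (nat_lit 71886) (.g (nat_lit 2951) (.e (nat_lit 1664) (nat_lit 115) (.e (nat_lit 393301) (nat_lit 27) (.e (nat_lit 491558) (nat_lit 10) (.e (nat_lit 344090) (nat_lit 18) (.e (nat_lit 7263) (nat_lit 384) (.e (nat_lit 57354) (nat_lit 0) (.e (nat_lit 7936) (nat_lit 343) .nil))))))) (.g (nat_lit 5) .nil .nil)))) (.nd (nat_lit 6) 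
(.lf (nat_lit 71854) (.g (nat_lit 1017) (.e (nat_lit 1664) (nat_lit 115) (.e (nat_lit 393301) (nat_lit 27) (.e (nat_lit 491527) (nat_lit 0) .nil))) .nil)) 
(.lf (nat_lit 71918) (.g (nat_lit 2966) (.e (nat_lit 1664) (nat_lit 115) (.e (nat_lit 393301) (nat_lit 27) (.e (nat_lit 491559) (nat_lit 10) (.e (nat_lit 344091) (nat_lit 18) (.e (nat_lit 7261) (nat_lit 384) .nil))))) .nil)))) (.nd (nat_lit 5) (.nd (nat_lit 6) 
(.lf (nat_lit 71838) (.g (nat_lit 2371) (.e (nat_lit 1664) (nat_lit 115) (.e (nat_lit 393298) (nat_lit 27) (.e (nat_lit 491571) (nat_lit 13) (.e (nat_lit 393232) (nat_lit 17) (.e (nat_lit 7936) (nat_lit 402) .nil))))) .nil)) 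
(.lf (nat_lit 71902) (.g (nat_lit 2443) (.e (nat_lit 1664) (nat_lit 115) (.e (nat_lit 393301) (nat_lit 27) (.e (nat_lit 491558) (nat_lit 10) (.e (nat_lit 344096) (nat_lit 18) (.e (nat_lit 7125) (nat_lit 382) .nil))))) .nil))) (.nd (nat_lit 6) 
(.lf (nat_lit 71870) (.g (nat_lit 1596) (.e (nat_lit 1664) (nat_lit 115) (.e (nat_lit 393301) (nat_lit 27) (.e (nat_lit 491547) (nat_lit 9) (.e (nat_lit 336423) (nat_lit 28) .nil)))) .nil)) 
(.lf (nat_lit 71934) (.g (nat_lit 2258) (.e (nat_lit 1664) (nat_lit 115) (.e (nat_lit 393301) (nat_lit 27) (.e (nat_lit 491560) (nat_lit 10) (.e (nat_lit 344087) (nat_lit 18) .nil)))) .nil)))))))) (.nd (nat_lit 1) (.nd (nat_lit 2) (.nd (nat_lit 3) (.nd (nat_lit 4) (.nd (nat_lit 5) (.nd (nat_lit 6) 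
(.lf (nat_lit 71809) (.g (nat_lit 2755) (.e (nat_lit 1664) (nat_lit 115) (.e (nat_lit 393234) (nat_lit 17) (.e (nat_lit 7583) (nat_lit 405) (.e (nat_lit 57476) (nat_lit 28) (.e (nat_lit 557103) (nat_lit 14) (.e (nat_lit 180263) (nat_lit 21) (.e (nat_lit 671488) (nat_lit 0) .nil))))))) (.g (nat_lit 6) .nil .nil))) 
(.lf (nat_lit 71873) (.g (nat_lit 1869) (.e (nat_lit 1664) (nat_lit 115) (.e (nat_lit 393301) (nat_lit 27) (.e (nat_lit 491552) (nat_lit 9) (.e (nat_lit 336385) (nat_lit 27) (.e (nat_lit 426024) (nat_lit 0) (.e (nat_lit 7936) (nat_lit 402) .nil)))))) (.g (nat_lit 4) .nil .nil)))) (.nd (nat_lit 6) 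
(.lf (nat_lit 71841) (.g (nat_lit 1288) (.e (nat_lit 1664) (nat_lit 115) (.e (nat_lit 393298) (nat_lit 27) (.e (nat_lit 491571) (nat_lit 13) (.e (nat_lit 393242) (nat_lit 17) .nil)))) .nil)) 
(.lf (nat_lit 71905) (.g (nat_lit 2929) (.e (nat_lit 1664) (nat_lit 115) (.e (nat_lit 393301) (nat_lit 27) (.e (nat_lit 491558) (nat_lit 10) (.e (nat_lit 344096) (nat_lit 18) (.e (nat_lit 7265) (nat_lit 384) (.e (nat_lit 57347) (nat_lit 0) (.e (nat_lit 6481) (nat_lit 343) .nil))))))) (.g (nat_lit 5) .nil .nil))))) (.nd (nat_lit 5) (.nd (nat_lit 6) 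
(.lf (nat_lit 71825) (.g (nat_lit 1514) (.e (nat_lit 1664) (nat_lit 115) (.e (nat_lit 393295) (nat_lit 26) (.e (nat_lit 475199) (nat_lit 40) (.e (nat_lit 704595) (nat_lit 5) (.e (nat_lit 188160) (nat_lit 32) .nil))))) (.g (nat_lit 4) .nil .nil))) 
(.lf (nat_lit 71889) (.g (nat_lit 1698) (.e (nat_lit 1664) (nat_lit 115) (.e (nat_lit 393301) (nat_lit 27) (.e (nat_lit 491558) (nat_lit 10) (.e (nat_lit 344091) (nat_lit 18) .nil)))) .nil))) (.nd (nat_lit 6) 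
(.lf (nat_lit 71857) (.g (nat_lit 500) (.e (nat_lit 1664) (nat_lit 115) (.e (nat_lit 393301) (nat_lit 27) (.e (nat_lit 491538) (nat_lit 3) .nil))) .nil)) 
(.lf (nat_lit 71921) (.g (nat_lit 4358) (.e (nat_lit 1664) (nat_lit 115) (.e (nat_lit 393301) (nat_lit 27) (.e (nat_lit 491559) (nat_lit 10) (.e (nat_lit 344091) (nat_lit 18) (.e (nat_lit 7265) (nat_lit 384) (.e (nat_lit 57354) (nat_lit 0) (.e (nat_lit 7936) (nat_lit 343) .nil))))))) (.g (nat_lit 6) .nil .nil)))))) (.nd (nat_lit 4) (.nd (nat_lit 5) (.nd (nat_lit 6) 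
(.lf (nat_lit 71817) (.g (nat_lit 1539) (.e (nat_lit 1664) (nat_lit 115) (.e (nat_lit 393273) (nat_lit 23) (.e (nat_lit 426364) (nat_lit 15) (.e (nat_lit 2160) (nat_lit 143) (.e (nat_lit 712749) (nat_lit 28) (.e (nat_lit 442112) (nat_lit 0) .nil)))))) (.g (nat_lit 4) .nil .nil))) 
(.lf (nat_lit 71881) (.g (nat_lit 2208) (.e (nat_lit 1664) (nat_lit 115) (.e (nat_lit 393301) (nat_lit 27) (.e (nat_lit 491556) (nat_lit 9) (.e (nat_lit 343808) (nat_lit 28) .nil)))) .nil))) (.nd (nat_lit 6) 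
(.lf (nat_lit 71849) (.g (nat_lit 2437) (.e (nat_lit 1664) (nat_lit 115) (.e (nat_lit 393301) (nat_lit 27) (.e (nat_lit 491526) (nat_lit 0) (.e (nat_lit 1788) (nat_lit 119) (.e (nat_lit 516130) (nat_lit 3) (.e (nat_lit 221219) (nat_lit 24) (.e (nat_lit 220928) (nat_lit 0) .nil))))))) (.g (nat_lit 5) .nil .nil))) 
(.lf (nat_lit 71913) (.g (nat_lit 3652) (.e (nat_lit 1664) (nat_lit 115) (.e (nat_lit 393301) (nat_lit 27) (.e (nat_lit 491559) (nat_lit 10) (.e (nat_lit 344090) (nat_lit 18) (.e (nat_lit 7265) (nat_lit 384) (.e (nat_lit 57354) (nat_lit 0) (.e (nat_lit 7936) (nat_lit 343) .nil))))))) (.g (nat_lit 5) .nil .nil))))) (.nd (nat_lit 5) (.nd (nat_lit 6) 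
(.lf (nat_lit 71833) (.g (nat_lit 2130) (.e (nat_lit 1664) (nat_lit 115) (.e (nat_lit 393298) (nat_lit 27) (.e (nat_lit 491569) (nat_lit 13) (.e (nat_lit 393234) (nat_lit 17) (.e (nat_lit 7545) (nat_lit 402) .nil))))) .nil)) 
(.lf (nat_lit 71897) (.g (nat_lit 3740) (.e (nat_lit 1664) (nat_lit 115) (.e (nat_lit 393301) (nat_lit 27) (.e (nat_lit 491558) (nat_lit 10) (.e (nat_lit 344091) (nat_lit 18) (.e (nat_lit 7265) (nat_lit 384) (.e (nat_lit 57354) (nat_lit 0) (.e (nat_lit 7936) (nat_lit 343) .nil))))))) (.g (nat_lit 6) .nil .nil)))) (.nd (nat_lit 6) 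
(.lf (nat_lit 71865) (.g (nat_lit 2195) (.e (nat_lit 1664) (nat_lit 115) (.e (nat_lit 393301) (nat_lit 27) (.e (nat_lit 491539) (nat_lit 3) (.e (nat_lit 98341) (nat_lit 20) (.e (nat_lit 221217) (nat_lit 24) .nil))))) .nil)) 
(.lf (nat_lit 71929) (.g (nat_lit 2445) (.e (nat_lit 1664) (nat_lit 115) (.e (nat_lit 393301) (nat_lit 27) (.e (nat_lit 491559) (nat_lit 10) (.e (nat_lit 344175) (nat_lit 43) .nil)))) .nil)))))) (.nd (nat_lit 3) (.nd (nat_lit 4) (.nd (nat_lit 5) (.nd (nat_lit 6) 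
(.lf (nat_lit 71813) (.g (nat_lit 429) (.e (nat_lit 1664) (nat_lit 115) (.e (nat_lit 393234) (nat_lit 17) (.e (nat_lit 7591) (nat_lit 407) .nil))) .nil)) 
(.lf (nat_lit 71877) (.g (nat_lit 2044) (.e (nat_lit 1664) (nat_lit 115) (.e (nat_lit 393301) (nat_lit 27) (.e (nat_lit 491552) (nat_lit 9) (.e (nat_lit 336412) (nat_lit 27) (.e (nat_lit 426024) (nat_lit 0) (.e (nat_lit 7936) (nat_lit 402) .nil)))))) (.g (nat_lit 5) .nil .nil)))) (.nd (nat_lit 6) 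
(.lf (nat_lit 71845) (.g (nat_lit 700) (.e (nat_lit 1664) (nat_lit 115) (.e (nat_lit 393300) (nat_lit 27) (.e (nat_lit 491570) (nat_lit 13) .nil))) .nil)) 
(.lf (nat_lit 71909) (.g (nat_lit 1628) (.e (nat_lit 1664) (nat_lit 115) (.e (nat_lit 393301) (nat_lit 27) (.e (nat_lit 491558) (nat_lit 10) (.e (nat_lit 352000) (nat_lit 47) .nil)))) .nil)))) (.nd (nat_lit 5) (.nd (nat_lit 6) 
(.lf (nat_lit 71829) (.g (nat_lit 1427) (.e (nat_lit 1664) (nat_lit 115) (.e (nat_lit 393296) (nat_lit 26) (.e (nat_lit 475209) (nat_lit 41) (.e (nat_lit 712747) (nat_lit 28) .nil)))) .nil)) 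
(.lf (nat_lit 71893) (.g (nat_lit 2847) (.e (nat_lit 1664) (nat_lit 115) (.e (nat_lit 393301) (nat_lit 27) (.e (nat_lit 491558) (nat_lit 10) (.e (nat_lit 344091) (nat_lit 18) (.e (nat_lit 7247) (nat_lit 383) (.e (nat_lit 8194) (nat_lit 0) (.e (nat_lit 5345) (nat_lit 298) .nil))))))) (.g (nat_lit 4) .nil .nil)))) (.nd (nat_lit 6) 
(.lf (nat_lit 71861) (.g (nat_lit 2236) (.e (nat_lit 1664) (nat_lit 115) (.e (nat_lit 393301) (nat_lit 27) (.e (nat_lit 491538) (nat_lit 3) (.e (nat_lit 98342) (nat_lit 20) (.e (nat_lit 221217) (nat_lit 24) (.e (nat_lit 220928) (nat_lit 0) .nil)))))) (.g (nat_lit 5) .nil .nil))) 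
(.lf (nat_lit 71925) (.g (nat_lit 3709) (.e (nat_lit 1664) (nat_lit 115) (.e (nat_lit 393301) (nat_lit 27) (.e (nat_lit 491559) (nat_lit 10) (.e (nat_lit 344095) (nat_lit 18) (.e (nat_lit 7263) (nat_lit 384) (.e (nat_lit 57354) (nat_lit 0) (.e (nat_lit 7936) (nat_lit 343) .nil))))))) (.g (nat_lit 6) .nil .nil)))))) (.nd (nat_lit 4) (.nd (nat_lit 5) (.nd (nat_lit 6) 
(.lf (nat_lit 71821) (.g (nat_lit 521) (.e (nat_lit 1664) (nat_lit 115) (.e (nat_lit 393293) (nat_lit 26) (.e (nat_lit 475208) (nat_lit 41) .nil))) .nil)) 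
(.lf (nat_lit 71885) (.g (nat_lit 2345) (.e (nat_lit 1664) (nat_lit 115) (.e (nat_lit 393301) (nat_lit 27) (.e (nat_lit 491558) (nat_lit 10) (.e (nat_lit 344090) (nat_lit 18) (.e (nat_lit 7124) (nat_lit 382) .nil))))) .nil))) (.nd (nat_lit 6) 
(.lf (nat_lit 71853) (.g (nat_lit 2062) (.e (nat_lit 1664) (nat_lit 115) (.e (nat_lit 393301) (nat_lit 27) (.e (nat_lit 491526) (nat_lit 0) (.e (nat_lit 1848) (nat_lit 124) (.e (nat_lit 557103) (nat_lit 14) (.e (nat_lit 180263) (nat_lit 21) (.e (nat_lit 671488) (nat_lit 0) .nil))))))) (.g (nat_lit 4) .nil .nil))) 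
(.lf (nat_lit 71917) (.g (nat_lit 3577) (.e (nat_lit 1664) (nat_lit 115) (.e (nat_lit 393301) (nat_lit 27) (.e (nat_lit 491559) (nat_lit 10) (.e (nat_lit 344091) (nat_lit 18) (.e (nat_lit 7247) (nat_lit 383) (.e (nat_lit 8194) (nat_lit 0) (.e (nat_lit 5345) (nat_lit 298) .nil))))))) (.g (nat_lit 5) .nil .nil))))) (.nd (nat_lit 5) (.nd (nat_lit 6) 
(.lf (nat_lit 71837) (.g (nat_lit 1350) (.e (nat_lit 1664) (nat_lit 115) (.e (nat_lit 393298) (nat_lit 27) (.e (nat_lit 491571) (nat_lit 13) (.e (nat_lit 393232) (nat_lit 17) .nil)))) .nil)) 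
(.lf (nat_lit 71901) (.g (nat_lit 2672) (.e (nat_lit 1664) (nat_lit 115) (.e (nat_lit 393301) (nat_lit 27) (.e (nat_lit 491558) (nat_lit 10) (.e (nat_lit 344096) (nat_lit 18) (.e (nat_lit 7124) (nat_lit 382) (.e (nat_lit 1183) (nat_lit 87) (.e (nat_lit 65280) (nat_lit 187) .nil))))))) (.g (nat_lit 4) .nil .nil)))) (.nd (nat_lit 6) 
(.lf (nat_lit 71869) (.g (nat_lit 1989) (.e (nat_lit 1664) (nat_lit 115) (.e (nat_lit 393301) (nat_lit 27) (.e (nat_lit 491547) (nat_lit 9) (.e (nat_lit 336421) (nat_lit 28) (.e (nat_lit 442112) (nat_lit 0) .nil))))) (.g (nat_lit 4) .nil .nil))) 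
(.lf (nat_lit 71933) (.g (nat_lit 380) (.e (nat_lit 1664) (nat_lit 115) (.e (nat_lit 393301) (nat_lit 27) (.e (nat_lit 491560) (nat_lit 10) .nil))) .nil))))))) (.nd (nat_lit 2) (.nd (nat_lit 3) (.nd (nat_lit 4) (.nd (nat_lit 5) (.nd (nat_lit 6) 
(.lf (nat_lit 71811) (.g (nat_lit 250) (.e (nat_lit 1664) (nat_lit 115) (.e (nat_lit 393234) (nat_lit 17) (.e (nat_lit 7589) (nat_lit 406) .nil))) .nil)) 
(.lf (nat_lit 71875) (.g (nat_lit 1044) (.e (nat_lit 1664) (nat_lit 115) (.e (nat_lit 393301) (nat_lit 27) (.e (nat_lit 491552) (nat_lit 9) (.e (nat_lit 336412) (nat_lit 27) .nil)))) .nil))) (.nd (nat_lit 6) 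
(.lf (nat_lit 71843) (.g (nat_lit 2616) (.e (nat_lit 1664) (nat_lit 115) (.e (nat_lit 393300) (nat_lit 27) (.e (nat_lit 491549) (nat_lit 9) (.e (nat_lit 336369) (nat_lit 27) (.e (nat_lit 426025) (nat_lit 0) (.e (nat_lit 7936) (nat_lit 402) .nil)))))) (.g (nat_lit 4) .nil .nil))) 
(.lf (nat_lit 71907) (.g (nat_lit 1791) (.e (nat_lit 1664) (nat_lit 115) (.e (nat_lit 393301) (nat_lit 27) (.e (nat_lit 491558) (nat_lit 10) (.e (nat_lit 344097) (nat_lit 18) .nil)))) .nil)))) (.nd (nat_lit 5) (.nd (nat_lit 6) 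
(.lf (nat_lit 71827) (.g (nat_lit 1718) (.e (nat_lit 1664) (nat_lit 115) (.e (nat_lit 393296) (nat_lit 26) (.e (nat_lit 475207) (nat_lit 41) (.e (nat_lit 712749) (nat_lit 28) (.e (nat_lit 442112) (nat_lit 0) .nil))))) (.g (nat_lit 4) .nil .nil))) 
(.lf (nat_lit 71891) (.g (nat_lit 2540) (.e (nat_lit 1664) (nat_lit 115) (.e (nat_lit 393301) (nat_lit 27) (.e (nat_lit 491558) (nat_lit 10) (.e (nat_lit 344091) (nat_lit 18) (.e (nat_lit 7124) (nat_lit 382) (.e (nat_lit 1183) (nat_lit 87) (.e (nat_lit 65280) (nat_lit 187) .nil))))))) (.g (nat_lit 4) .nil .nil)))) (.nd (nat_lit 6) 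
(.lf (nat_lit 71859) (.g (nat_lit 2263) (.e (nat_lit 1664) (nat_lit 115) (.e (nat_lit 393301) (nat_lit 27) (.e (nat_lit 491538) (nat_lit 3) (.e (nat_lit 98341) (nat_lit 20) (.e (nat_lit 221218) (nat_lit 24) (.e (nat_lit 220928) (nat_lit 0) .nil)))))) (.g (nat_lit 5) .nil .nil))) 
(.lf (nat_lit 71923) (.g (nat_lit 2649) (.e (nat_lit 1664) (nat_lit 115) (.e (nat_lit 393301) (nat_lit 27) (.e (nat_lit 491559) (nat_lit 10) (.e (nat_lit 344094) (nat_lit 18) (.e (nat_lit 7265) (nat_lit 384) .nil))))) .nil))))) (.nd (nat_lit 4) (.nd (nat_lit 5) (.nd (nat_lit 6) 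
(.lf (nat_lit 71819) (.g (nat_lit 980) (.e (nat_lit 1664) (nat_lit 115) (.e (nat_lit 393291) (nat_lit 26) (.e (nat_lit 475199) (nat_lit 40) .nil))) .nil)) 
(.lf (nat_lit 71883) (.g (nat_lit 743) (.e (nat_lit 1664) (nat_lit 115) (.e (nat_lit 393301) (nat_lit 27) (.e (nat_lit 491558) (nat_lit 10) .nil))) .nil))) (.nd (nat_lit 6) 
(.lf (nat_lit 71851) (.g (nat_lit 1877) (.e (nat_lit 1664) (nat_lit 115) (.e (nat_lit 393301) (nat_lit 27) (.e (nat_lit 491526) (nat_lit 0) (.e (nat_lit 1788) (nat_lit 119) (.e (nat_lit 516131) (nat_lit 3) (.e (nat_lit 221219) (nat_lit 24) (.e (nat_lit 220928) (nat_lit 0) .nil))))))) (.g (nat_lit 4) .nil .nil))) 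
(.lf (nat_lit 71915) (.g (nat_lit 3227) (.e (nat_lit 1664) (nat_lit 115) (.e (nat_lit 393301) (nat_lit 27) (.e (nat_lit 491559) (nat_lit 10) (.e (nat_lit 344091) (nat_lit 18) (.e (nat_lit 7122) (nat_lit 382) (.e (nat_lit 1183) (nat_lit 87) (.e (nat_lit 65280) (nat_lit 187) .nil))))))) (.g (nat_lit 4) .nil .nil))))) (.nd (nat_lit 5) (.nd (nat_lit 6) 
(.lf (nat_lit 71835) (.g (nat_lit 2203) (.e (nat_lit 1664) (nat_lit 115) (.e (nat_lit 393298) (nat_lit 27) (.e (nat_lit 491570) (nat_lit 13) (.e (nat_lit 393238) (nat_lit 17) (.e (nat_lit 7936) (nat_lit 402) .nil))))) (.g (nat_lit 4) .nil .nil))) 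
(.lf (nat_lit 71899) (.g (nat_lit 3352) (.e (nat_lit 1664) (nat_lit 115) (.e (nat_lit 393301) (nat_lit 27) (.e (nat_lit 491558) (nat_lit 10) (.e (nat_lit 344095) (nat_lit 18) (.e (nat_lit 7263) (nat_lit 384) (.e (nat_lit 57354) (nat_lit 0) (.e (nat_lit 7936) (nat_lit 343) .nil))))))) (.g (nat_lit 6) .nil .nil)))) (.nd (nat_lit 6) 
(.lf (nat_lit 71867) (.g (nat_lit 550) (.e (nat_lit 1664) (nat_lit 115) (.e (nat_lit 393301) (nat_lit 27) (.e (nat_lit 491546) (nat_lit 9) .nil))) .nil)) 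
(.lf (nat_lit 71931) (.g (nat_lit 3591) (.e (nat_lit 1664) (nat_lit 115) (.e (nat_lit 393301) (nat_lit 27) (.e (nat_lit 491559) (nat_lit 10) (.e (nat_lit 344177) (nat_lit 43) (.e (nat_lit 770068) (nat_lit 7) (.e (nat_lit 65280) (nat_lit 187) .nil)))))) (.g (nat_lit 4) .nil .nil))))))) (.nd (nat_lit 3) (.nd (nat_lit 4) (.nd (nat_lit 5) (.nd (nat_lit 6) 
(.lf (nat_lit 71815) (.g (nat_lit 678) (.e (nat_lit 1664) (nat_lit 115) (.e (nat_lit 393234) (nat_lit 17) (.e (nat_lit 7599) (nat_lit 408) .nil))) .nil)) 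
(.lf (nat_lit 71879) (.g (nat_lit 1968) (.e (nat_lit 1664) (nat_lit 115) (.e (nat_lit 393301) (nat_lit 27) (.e (nat_lit 491556) (nat_lit 9) (.e (nat_lit 336390) (nat_lit 27) .nil)))) .nil))) (.nd (nat_lit 6) 
(.lf (nat_lit 71847) (.g (nat_lit 3288) (.e (nat_lit 1664) (nat_lit 115) (.e (nat_lit 393301) (nat_lit 27) (.e (nat_lit 491526) (nat_lit 0) (.e (nat_lit 1788) (nat_lit 119) (.e (nat_lit 516129) (nat_lit 3) (.e (nat_lit 221217) (nat_lit 24) (.e (nat_lit 220928) (nat_lit 0) .nil))))))) (.g (nat_lit 6) .nil .nil))) 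
(.lf (nat_lit 71911) (.g (nat_lit 3079) (.e (nat_lit 1664) (nat_lit 115) (.e (nat_lit 393301) (nat_lit 27) (.e (nat_lit 491559) (nat_lit 10) (.e (nat_lit 344090) (nat_lit 18) (.e (nat_lit 7263) (nat_lit 384) (.e (nat_lit 57354) (nat_lit 0) (.e (nat_lit 7936) (nat_lit 343) .nil))))))) (.g (nat_lit 4) .nil .nil))))) (.nd (nat_lit 5) (.nd (nat_lit 6) 
(.lf (nat_lit 71831) (.g (nat_lit 1617) (.e (nat_lit 1664) (nat_lit 115) (.e (nat_lit 393298) (nat_lit 27) (.e (nat_lit 491550) (nat_lit 9) (.e (nat_lit 336369) (nat_lit 27) .nil)))) .nil)) 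
(.lf (nat_lit 71895) (.g (nat_lit 3649) (.e (nat_lit 1664) (nat_lit 115) (.e (nat_lit 393301) (nat_lit 27) (.e (nat_lit 491558) (nat_lit 10) (.e (nat_lit 344091) (nat_lit 18) (.e (nat_lit 7263) (nat_lit 384) (.e (nat_lit 57354) (nat_lit 0) (.e (nat_lit 7936) (nat_lit 343) .nil))))))) (.g (nat_lit 6) .nil .nil)))) (.nd (nat_lit 6) 
(.lf (nat_lit 71863) (.g (nat_lit 2148) (.e (nat_lit 1664) (nat_lit 115) (.e (nat_lit 393301) (nat_lit 27) (.e (nat_lit 491538) (nat_lit 3) (.e (nat_lit 98342) (nat_lit 20) (.e (nat_lit 221219) (nat_lit 24) (.e (nat_lit 220928) (nat_lit 0) .nil)))))) (.g (nat_lit 5) .nil .nil))) 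
(.lf (nat_lit 71927) (.g (nat_lit 3107) (.e (nat_lit 1664) (nat_lit 115) (.e (nat_lit 393301) (nat_lit 27) (.e (nat_lit 491559) (nat_lit 10) (.e (nat_lit 344096) (nat_lit 18) (.e (nat_lit 7265) (nat_lit 384) (.e (nat_lit 57354) (nat_lit 0) (.e (nat_lit 7936) (nat_lit 343) .nil))))))) (.g (nat_lit 4) .nil .nil)))))) (.nd (nat_lit 4) (.nd (nat_lit 5) (.nd (nat_lit 6) 
(.lf (nat_lit 71823) (.g (nat_lit 1494) (.e (nat_lit 1664) (nat_lit 115) (.e (nat_lit 393293) (nat_lit 26) (.e (nat_lit 475210) (nat_lit 41) (.e (nat_lit 712747) (nat_lit 28) (.e (nat_lit 442112) (nat_lit 0) .nil))))) (.g (nat_lit 4) .nil .nil))) 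
(.lf (nat_lit 71887) (.g (nat_lit 2401) (.e (nat_lit 1664) (nat_lit 115) (.e (nat_lit 393301) (nat_lit 27) (.e (nat_lit 491558) (nat_lit 10) (.e (nat_lit 344090) (nat_lit 18) (.e (nat_lit 7265) (nat_lit 384) .nil))))) .nil))) (.nd (nat_lit 6) 
(.lf (nat_lit 71855) (.g (nat_lit 2516) (.e (nat_lit 1664) (nat_lit 115) (.e (nat_lit 393301) (nat_lit 27) (.e (nat_lit 491530) (nat_lit 0) (.e (nat_lit 1796) (nat_lit 119) (.e (nat_lit 516131) (nat_lit 3) (.e (nat_lit 221218) (nat_lit 24) (.e (nat_lit 220928) (nat_lit 0) .nil))))))) (.g (nat_lit 6) .nil .nil))) 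
(.lf (nat_lit 71919) (.g (nat_lit 4394) (.e (nat_lit 1664) (nat_lit 115) (.e (nat_lit 393301) (nat_lit 27) (.e (nat_lit 491559) (nat_lit 10) (.e (nat_lit 344091) (nat_lit 18) (.e (nat_lit 7263) (nat_lit 384) (.e (nat_lit 57354) (nat_lit 0) (.e (nat_lit 7936) (nat_lit 343) .nil))))))) (.g (nat_lit 6) .nil .nil))))) (.nd (nat_lit 5) (.nd (nat_lit 6) 
(.lf (nat_lit 71839) (.g (nat_lit 1737) (.e (nat_lit 1664) (nat_lit 115) (.e (nat_lit 393298) (nat_lit 27) (.e (nat_lit 491571) (nat_lit 13) (.e (nat_lit 393235) (nat_lit 17) (.e (nat_lit 7936) (nat_lit 402) .nil))))) (.g (nat_lit 4) .nil .nil))) 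
(.lf (nat_lit 71903) (.g (nat_lit 2864) (.e (nat_lit 1664) (nat_lit 115) (.e (nat_lit 393301) (nat_lit 27) (.e (nat_lit 491558) (nat_lit 10) (.e (nat_lit 344096) (nat_lit 18) (.e (nat_lit 7247) (nat_lit 383) (.e (nat_lit 8194) (nat_lit 0) (.e (nat_lit 5345) (nat_lit 298) .nil))))))) (.g (nat_lit 5) .nil .nil)))) (.nd (nat_lit 6) 
(.lf (nat_lit 71871) (.g (nat_lit 1422) (.e (nat_lit 1664) (nat_lit 115) (.e (nat_lit 393301) (nat_lit 27) (.e (nat_lit 491547) (nat_lit 9) (.e (nat_lit 336438) (nat_lit 31) .nil)))) .nil)) 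
(.lf (nat_lit 71935) (.g (nat_lit 2460) (.e (nat_lit 1664) (nat_lit 115) (.e (nat_lit 393301) (nat_lit 27) (.e (nat_lit 491560) (nat_lit 10) (.e (nat_lit 344088) (nat_lit 18) .nil)))) .nil)))))))))

noncomputable def tv981 : DT := (.nd (nat_lit 0) (.nd (nat_lit 1) (.nd (nat_lit 2) (.nd (nat_lit 3) (.nd (nat_lit 4) (.nd (nat_lit 5) (.nd (nat_lit 6) 
(.lf (nat_lit 71936) (.g (nat_lit 2242) (.e (nat_lit 1664) (nat_lit 115) (.e (nat_lit 393301) (nat_lit 27) (.e (nat_lit 491560) (nat_lit 10) (.e (nat_lit 344090) (nat_lit 18) .nil)))) .nil)) 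
(.lf (nat_lit 72000) (.g (nat_lit 2341) (.e (nat_lit 1664) (nat_lit 115) (.e (nat_lit 393301) (nat_lit 27) (.e (nat_lit 491568) (nat_lit 13) (.e (nat_lit 393243) (nat_lit 17) .nil)))) .nil))) (.nd (nat_lit 6) 
(.lf (nat_lit 71968) (.g (nat_lit 2940) (.e (nat_lit 1664) (nat_lit 115) (.e (nat_lit 393301) (nat_lit 27) (.e (nat_lit 491560) (nat_lit 10) (.e (nat_lit 344097) (nat_lit 18) (.e (nat_lit 7270) (nat_lit 385) .nil))))) .nil)) 
(.lf (nat_lit 72032) (.g (nat_lit 1227) (.e (nat_lit 1665) (nat_lit 115) (.e (nat_lit 393234) (nat_lit 17) (.e (nat_lit 7587) (nat_lit 406) (.e (nat_lit 65633) (nat_lit 15) .nil)))) .nil)))) (.nd (nat_lit 5) (.nd (nat_lit 6) 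
(.lf (nat_lit 71952) (.g (nat_lit 3755) (.e (nat_lit 1664) (nat_lit 115) (.e (nat_lit 393301) (nat_lit 27) (.e (nat_lit 491560) (nat_lit 10) (.e (nat_lit 344094) (nat_lit 18) (.e (nat_lit 7265) (nat_lit 384) (.e (nat_lit 57354) (nat_lit 0) (.e (nat_lit 7936) (nat_lit 343) .nil))))))) (.g (nat_lit 6) .nil .nil))) 
(.lf (nat_lit 72016) (.g (nat_lit 1221) (.e (nat_lit 1665) (nat_lit 115) (.e (nat_lit 393234) (nat_lit 17) (.e (nat_lit 7110) (nat_lit 380) (.e (nat_lit 164339) (nat_lit 232) .nil)))) .nil))) (.nd (nat_lit 6) 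
(.lf (nat_lit 71984) (.g (nat_lit 1709) (.e (nat_lit 1664) (nat_lit 115) (.e (nat_lit 393301) (nat_lit 27) (.e (nat_lit 491567) (nat_lit 13) (.e (nat_lit 393234) (nat_lit 17) (.e (nat_lit 7936) (nat_lit 402) .nil))))) .nil)) 
(.lf (nat_lit 72048) (.g (nat_lit 1047) (.e (nat_lit 1665) (nat_lit 115) (.e (nat_lit 393234) (nat_lit 17) (.e (nat_lit 7589) (nat_lit 406) (.e (nat_lit 65648) (nat_lit 26) .nil)))) .nil))))) (.nd (nat_lit 4) (.nd (nat_lit 5) (.nd (nat_lit 6) 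
(.lf (nat_lit 71944) (.g (nat_lit 2893) (.e (nat_lit 1664) (nat_lit 115) (.e (nat_lit 393301) (nat_lit 27) (.e (nat_lit 491560) (nat_lit 10) (.e (nat_lit 344091) (nat_lit 18) (.e (nat_lit 7265) (nat_lit 384) .nil))))) .nil)) 
(.lf (nat_lit 72008) (.g (nat_lit 1371) (.e (nat_lit 1665) (nat_lit 115) (.e (nat_lit 393225) (nat_lit 9) (.e (nat_lit 336196) (nat_lit 12) (.e (nat_lit 385066) (nat_lit 26) .nil)))) .nil))) (.nd (nat_lit 6) 
(.lf (nat_lit 71976) (.g (nat_lit 2517) (.e (nat_lit 1664) (nat_lit 115) (.e (nat_lit 393301) (nat_lit 27) (.e (nat_lit 491563) (nat_lit 12) (.e (nat_lit 385034) (nat_lit 16) .nil)))) .nil)) 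
(.lf (nat_lit 72040) (.g (nat_lit 1388) (.e (nat_lit 1665) (nat_lit 115) (.e (nat_lit 393234) (nat_lit 17) (.e (nat_lit 7587) (nat_lit 406) (.e (nat_lit 65652) (nat_lit 27) (.e (nat_lit 425984) (nat_lit 0) (.e (nat_lit 7489) (nat_lit 402) .nil)))))) (.g (nat_lit 5) .nil .nil))))) (.nd (nat_lit 5) (.nd (nat_lit 6) 
(.lf (nat_lit 71960) (.g (nat_lit 3157) (.e (nat_lit 1664) (nat_lit 115) (.e (nat_lit 393301) (nat_lit 27) (.e (nat_lit 491560) (nat_lit 10) (.e (nat_lit 344096) (nat_lit 18) (.e (nat_lit 7265) (nat_lit 384) (.e (nat_lit 57347) (nat_lit 0) (.e (nat_lit 7936) (nat_lit 343) .nil))))))) (.g (nat_lit 4) .nil .nil))) 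
(.lf (nat_lit 72024) (.g (nat_lit 648) (.e (nat_lit 1665) (nat_lit 115) (.e (nat_lit 393234) (nat_lit 17) (.e (nat_lit 7538) (nat_lit 402) .nil))) .nil))) (.nd (nat_lit 6) 
(.lf (nat_lit 71992) (.g (nat_lit 2681) (.e (nat_lit 1664) (nat_lit 115) (.e (nat_lit 393301) (nat_lit 27) (.e (nat_lit 491568) (nat_lit 13) (.e (nat_lit 393233) (nat_lit 17) (.e (nat_lit 7545) (nat_lit 402) .nil))))) (.g (nat_lit 0) .nil .nil))) 
(.lf (nat_lit 72056) (.g (nat_lit 426) (.e (nat_lit 1665) (nat_lit 115) (.e (nat_lit 393234) (nat_lit 17) (.e (nat_lit 7936) (nat_lit 406) .nil))) .nil)))))) (.nd (nat_lit 3) (.nd (nat_lit 4) (.nd (nat_lit 5) (.nd (nat_lit 6) 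
(.lf (nat_lit 71940) (.g (nat_lit 3256) (.e (nat_lit 1664) (nat_lit 115) (.e (nat_lit 393301) (nat_lit 27) (.e (nat_lit 491560) (nat_lit 10) (.e (nat_lit 344090) (nat_lit 18) (.e (nat_lit 7265) (nat_lit 384) (.e (nat_lit 57347) (nat_lit 0) (.e (nat_lit 6481) (nat_lit 343) .nil))))))) (.g (nat_lit 5) .nil .nil))) 
(.lf (nat_lit 72004) (.g (nat_lit 1747) (.e (nat_lit 1665) (nat_lit 115) (.e (nat_lit 393225) (nat_lit 9) (.e (nat_lit 336076) (nat_lit 9) (.e (nat_lit 336326) (nat_lit 18) .nil)))) .nil))) (.nd (nat_lit 6) 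
(.lf (nat_lit 71972) (.g (nat_lit 2057) (.e (nat_lit 1664) (nat_lit 115) (.e (nat_lit 393301) (nat_lit 27) (.e (nat_lit 491560) (nat_lit 10) (.e (nat_lit 344179) (nat_lit 44) .nil)))) .nil)) 
(.lf (nat_lit 72036) (.g (nat_lit 1577) (.e (nat_lit 1665) (nat_lit 115) (.e (nat_lit 393234) (nat_lit 17) (.e (nat_lit 7587) (nat_lit 406) (.e (nat_lit 65648) (nat_lit 26) (.e (nat_lit 417794) (nat_lit 0) (.e (nat_lit 5271) (nat_lit 298) .nil)))))) (.g (nat_lit 0) .nil .nil))))) (.nd (nat_lit 5) (.nd (nat_lit 6) 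
(.lf (nat_lit 71956) (.g (nat_lit 2966) (.e (nat_lit 1664) (nat_lit 115) (.e (nat_lit 393301) (nat_lit 27) (.e (nat_lit 491560) (nat_lit 10) (.e (nat_lit 344096) (nat_lit 18) (.e (nat_lit 7124) (nat_lit 382) .nil))))) .nil)) 
(.lf (nat_lit 72020) (.g (nat_lit 2057) (.e (nat_lit 1665) (nat_lit 115) (.e (nat_lit 393234) (nat_lit 17) (.e (nat_lit 7486) (nat_lit 402) (.e (nat_lit 1665) (nat_lit 115) (.e (nat_lit 393234) (nat_lit 17) (.e (nat_lit 7490) (nat_lit 402) .nil)))))) (.g (nat_lit 6) .nil .nil)))) (.nd (nat_lit 6) 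
(.lf (nat_lit 71988) (.g (nat_lit 1533) (.e (nat_lit 1664) (nat_lit 115) (.e (nat_lit 393301) (nat_lit 27) (.e (nat_lit 491568) (nat_lit 13) (.e (nat_lit 393231) (nat_lit 17) .nil)))) .nil)) 
(.lf (nat_lit 72052) (.g (nat_lit 1053) (.e (nat_lit 1665) (nat_lit 115) (.e (nat_lit 393234) (nat_lit 17) (.e (nat_lit 7589) (nat_lit 406) (.e (nat_lit 65653) (nat_lit 27) .nil)))) .nil))))) (.nd (nat_lit 4) (.nd (nat_lit 5) (.nd (nat_lit 6) 
(.lf (nat_lit 71948) (.g (nat_lit 2293) (.e (nat_lit 1664) (nat_lit 115) (.e (nat_lit 393301) (nat_lit 27) (.e (nat_lit 491560) (nat_lit 10) (.e (nat_lit 344094) (nat_lit 18) (.e (nat_lit 7124) (nat_lit 382) (.e (nat_lit 1183) (nat_lit 87) (.e (nat_lit 65280) (nat_lit 187) .nil))))))) (.g (nat_lit 4) .nil .nil))) 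
(.lf (nat_lit 72012) (.g (nat_lit 650) (.e (nat_lit 1665) (nat_lit 115) (.e (nat_lit 393234) (nat_lit 17) (.e (nat_lit 2399) (nat_lit 157) .nil))) .nil))) (.nd (nat_lit 6) 
(.lf (nat_lit 71980) (.g (nat_lit 1134) (.e (nat_lit 1664) (nat_lit 115) (.e (nat_lit 393301) (nat_lit 27) (.e (nat_lit 491567) (nat_lit 13) (.e (nat_lit 393231) (nat_lit 17) .nil)))) .nil)) 
(.lf (nat_lit 72044) (.g (nat_lit 1375) (.e (nat_lit 1665) (nat_lit 115) (.e (nat_lit 393234) (nat_lit 17) (.e (nat_lit 7587) (nat_lit 406) (.e (nat_lit 65653) (nat_lit 27) (.e (nat_lit 426010) (nat_lit 0) (.e (nat_lit 7486) (nat_lit 402) .nil)))))) (.g (nat_lit 4) .nil .nil))))) (.nd (nat_lit 5) (.nd (nat_lit 6) 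
(.lf (nat_lit 71964) (.g (nat_lit 3189) (.e (nat_lit 1664) (nat_lit 115) (.e (nat_lit 393301) (nat_lit 27) (.e (nat_lit 491560) (nat_lit 10) (.e (nat_lit 344097) (nat_lit 18) (.e (nat_lit 7253) (nat_lit 383) .nil))))) .nil)) 
(.lf (nat_lit 72028) (.g (nat_lit 1335) (.e (nat_lit 1665) (nat_lit 115) (.e (nat_lit 393234) (nat_lit 17) (.e (nat_lit 7581) (nat_lit 405) (.e (nat_lit 57480) (nat_lit 28) .nil)))) .nil))) (.nd (nat_lit 6) 
(.lf (nat_lit 71996) (.g (nat_lit 2310) (.e (nat_lit 1664) (nat_lit 115) (.e (nat_lit 393301) (nat_lit 27) (.e (nat_lit 491568) (nat_lit 13) (.e (nat_lit 393237) (nat_lit 17) .nil)))) .nil)) 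
(.lf (nat_lit 72060) (.g (nat_lit 1212) (.e (nat_lit 1665) (nat_lit 115) (.e (nat_lit 393268) (nat_lit 23) (.e (nat_lit 426444) (nat_lit 19) .nil))) .nil))))))) (.nd (nat_lit 2) (.nd (nat_lit 3) (.nd (nat_lit 4) (.nd (nat_lit 5) (.nd (nat_lit 6) 
(.lf (nat_lit 71938) (.g (nat_lit 3991) (.e (nat_lit 1664) (nat_lit 115) (.e (nat_lit 393301) (nat_lit 27) (.e (nat_lit 491560) (nat_lit 10) (.e (nat_lit 344090) (nat_lit 18) (.e (nat_lit 7247) (nat_lit 383) (.e (nat_lit 8194) (nat_lit 0) (.e (nat_lit 5345) (nat_lit 298) .nil))))))) (.g (nat_lit 0) .nil .nil))) 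
(.lf (nat_lit 72002) (.g (nat_lit 482) (.e (nat_lit 1664) (nat_lit 115) (.e (nat_lit 393301) (nat_lit 27) (.e (nat_lit 499456) (nat_lit 13) .nil))) .nil))) (.nd (nat_lit 6) 
(.lf (nat_lit 71970) (.g (nat_lit 1897) (.e (nat_lit 1664) (nat_lit 115) (.e (nat_lit 393301) (nat_lit 27) (.e (nat_lit 491560) (nat_lit 10) (.e (nat_lit 344175) (nat_lit 43) .nil)))) .nil)) 
(.lf (nat_lit 72034) (.g (nat_lit 876) (.e (nat_lit 1665) (nat_lit 115) (.e (nat_lit 393234) (nat_lit 17) (.e (nat_lit 7587) (nat_lit 406) (.e (nat_lit 65648) (nat_lit 26) .nil)))) .nil)))) (.nd (nat_lit 5) (.nd (nat_lit 6) 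
(.lf (nat_lit 71954) (.g (nat_lit 2343) (.e (nat_lit 1664) (nat_lit 115) (.e (nat_lit 393301) (nat_lit 27) (.e (nat_lit 491560) (nat_lit 10) (.e (nat_lit 344096) (nat_lit 18) .nil)))) .nil)) 
(.lf (nat_lit 72018) (.g (nat_lit 578) (.e (nat_lit 1665) (nat_lit 115) (.e (nat_lit 393234) (nat_lit 17) (.e (nat_lit 7486) (nat_lit 402) .nil))) .nil))) (.nd (nat_lit 6) 
(.lf (nat_lit 71986) (.g (nat_lit 406) (.e (nat_lit 1664) (nat_lit 115) (.e (nat_lit 393301) (nat_lit 27) (.e (nat_lit 491568) (nat_lit 13) .nil))) .nil)) 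
(.lf (nat_lit 72050) (.g (nat_lit 1451) (.e (nat_lit 1665) (nat_lit 115) (.e (nat_lit 393234) (nat_lit 17) (.e (nat_lit 7589) (nat_lit 406) (.e (nat_lit 65648) (nat_lit 26) (.e (nat_lit 417796) (nat_lit 0) (.e (nat_lit 5245) (nat_lit 298) .nil)))))) (.g (nat_lit 4) .nil .nil)))))) (.nd (nat_lit 4) (.nd (nat_lit 5) (.nd (nat_lit 6) 
(.lf (nat_lit 71946) (.g (nat_lit 1956) (.e (nat_lit 1664) (nat_lit 115) (.e (nat_lit 393301) (nat_lit 27) (.e (nat_lit 491560) (nat_lit 10) (.e (nat_lit 344094) (nat_lit 18) .nil)))) .nil)) 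
(.lf (nat_lit 72010) (.g (nat_lit 2309) (.e (nat_lit 1665) (nat_lit 115) (.e (nat_lit 393225) (nat_lit 9) (.e (nat_lit 336204) (nat_lit 12) (.e (nat_lit 385066) (nat_lit 26) (.e (nat_lit 532504) (nat_lit 1) .nil))))) .nil))) (.nd (nat_lit 6) 
(.lf (nat_lit 71978) (.g (nat_lit 2972) (.e (nat_lit 1664) (nat_lit 115) (.e (nat_lit 393301) (nat_lit 27) (.e (nat_lit 491563) (nat_lit 12) (.e (nat_lit 385042) (nat_lit 20) .nil)))) .nil)) 
(.lf (nat_lit 72042) (.g (nat_lit 1307) (.e (nat_lit 1665) (nat_lit 115) (.e (nat_lit 393234) (nat_lit 17) (.e (nat_lit 7587) (nat_lit 406) (.e (nat_lit 65652) (nat_lit 27) (.e (nat_lit 425989) (nat_lit 0) (.e (nat_lit 7489) (nat_lit 402) .nil)))))) (.g (nat_lit 5) .nil .nil))))) (.nd (nat_lit 5) (.nd (nat_lit 6) 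
(.lf (nat_lit 71962) (.g (nat_lit 2266) (.e (nat_lit 1664) (nat_lit 115) (.e (nat_lit 393301) (nat_lit 27) (.e (nat_lit 491560) (nat_lit 10) (.e (nat_lit 344097) (nat_lit 18) .nil)))) .nil)) 
(.lf (nat_lit 72026) (.g (nat_lit 1347) (.e (nat_lit 1665) (nat_lit 115) (.e (nat_lit 393234) (nat_lit 17) (.e (nat_lit 7581) (nat_lit 405) (.e (nat_lit 57477) (nat_lit 28) .nil)))) .nil))) (.nd (nat_lit 6) 
(.lf (nat_lit 71994) (.g (nat_lit 2100) (.e (nat_lit 1664) (nat_lit 115) (.e (nat_lit 393301) (nat_lit 27) (.e (nat_lit 491568) (nat_lit 13) (.e (nat_lit 393234) (nat_lit 17) (.e (nat_lit 7936) (nat_lit 402) .nil))))) (.g (nat_lit 4) .nil .nil))) 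
(.lf (nat_lit 72058) (.g (nat_lit 326) (.e (nat_lit 1665) (nat_lit 115) (.e (nat_lit 393263) (nat_lit 22) (.e (nat_lit 417817) (nat_lit 10) .nil))) .nil)))))) (.nd (nat_lit 3) (.nd (nat_lit 4) (.nd (nat_lit 5) (.nd (nat_lit 6) 
(.lf (nat_lit 71942) (.g (nat_lit 2392) (.e (nat_lit 1664) (nat_lit 115) (.e (nat_lit 393301) (nat_lit 27) (.e (nat_lit 491560) (nat_lit 10) (.e (nat_lit 344091) (nat_lit 18) .nil)))) .nil)) 
(.lf (nat_lit 72006) (.g (nat_lit 2087) (.e (nat_lit 1665) (nat_lit 115) (.e (nat_lit 393225) (nat_lit 9) (.e (nat_lit 336194) (nat_lit 12) (.e (nat_lit 385066) (nat_lit 26) (.e (nat_lit 532501) (nat_lit 1) .nil))))) .nil))) (.nd (nat_lit 6) 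
(.lf (nat_lit 71974) (.g (nat_lit 2170) (.e (nat_lit 1664) (nat_lit 115) (.e (nat_lit 393301) (nat_lit 27) (.e (nat_lit 491560) (nat_lit 10) (.e (nat_lit 352000) (nat_lit 46) .nil)))) .nil)) 
(.lf (nat_lit 72038) (.g (nat_lit 1539) (.e (nat_lit 1665) (nat_lit 115) (.e (nat_lit 393234) (nat_lit 17) (.e (nat_lit 7587) (nat_lit 406) (.e (nat_lit 65648) (nat_lit 26) (.e (nat_lit 417796) (nat_lit 0) (.e (nat_lit 5258) (nat_lit 298) .nil)))))) (.g (nat_lit 5) .nil .nil))))) (.nd (nat_lit 5) (.nd (nat_lit 6) 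
(.lf (nat_lit 71958) (.g (nat_lit 3196) (.e (nat_lit 1664) (nat_lit 115) (.e (nat_lit 393301) (nat_lit 27) (.e (nat_lit 491560) (nat_lit 10) (.e (nat_lit 344096) (nat_lit 18) (.e (nat_lit 7263) (nat_lit 384) (.e (nat_lit 57354) (nat_lit 0) (.e (nat_lit 7936) (nat_lit 343) .nil))))))) (.g (nat_lit 4) .nil .nil))) 
(.lf (nat_lit 72022) (.g (nat_lit 2904) (.e (nat_lit 1665) (nat_lit 115) (.e (nat_lit 393234) (nat_lit 17) (.e (nat_lit 7536) (nat_lit 402) (.e (nat_lit 1656) (nat_lit 115) (.e (nat_lit 393234) (nat_lit 17) (.e (nat_lit 7486) (nat_lit 402) .nil)))))) (.g (nat_lit 5) .nil .nil)))) (.nd (nat_lit 6) 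
(.lf (nat_lit 71990) (.g (nat_lit 2263) (.e (nat_lit 1664) (nat_lit 115) (.e (nat_lit 393301) (nat_lit 27) (.e (nat_lit 491568) (nat_lit 13) (.e (nat_lit 393232) (nat_lit 17) (.e (nat_lit 7936) (nat_lit 402) .nil))))) (.g (nat_lit 4) .nil .nil))) 
(.lf (nat_lit 72054) (.g (nat_lit 2706) (.e (nat_lit 1665) (nat_lit 115) (.e (nat_lit 393234) (nat_lit 17) (.e (nat_lit 7589) (nat_lit 406) (.e (nat_lit 65653) (nat_lit 27) (.e (nat_lit 426012) (nat_lit 0) (.e (nat_lit 7486) (nat_lit 402) .nil)))))) (.g (nat_lit 0) .nil .nil)))))) (.nd (nat_lit 4) (.nd (nat_lit 5) (.nd (nat_lit 6) 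
(.lf (nat_lit 71950) (.g (nat_lit 3589) (.e (nat_lit 1664) (nat_lit 115) (.e (nat_lit 393301) (nat_lit 27) (.e (nat_lit 491560) (nat_lit 10) (.e (nat_lit 344094) (nat_lit 18) (.e (nat_lit 7263) (nat_lit 384) (.e (nat_lit 57354) (nat_lit 0) (.e (nat_lit 7936) (nat_lit 343) .nil))))))) (.g (nat_lit 6) .nil .nil))) 
(.lf (nat_lit 72014) (.g (nat_lit 1952) (.e (nat_lit 1665) (nat_lit 115) (.e (nat_lit 393234) (nat_lit 17) (.e (nat_lit 3461) (nat_lit 216) (.e (nat_lit 688182) (nat_lit 17) (.e (nat_lit 73755) (nat_lit 8) (.e (nat_lit 557089) (nat_lit 12) (.e (nat_lit 171776) (nat_lit 187) .nil))))))) (.g (nat_lit 5) .nil .nil)))) (.nd (nat_lit 6) 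
(.lf (nat_lit 71982) (.g (nat_lit 1205) (.e (nat_lit 1664) (nat_lit 115) (.e (nat_lit 393301) (nat_lit 27) (.e (nat_lit 491567) (nat_lit 13) (.e (nat_lit 393233) (nat_lit 17) .nil)))) .nil)) 
(.lf (nat_lit 72046) (.g (nat_lit 858) (.e (nat_lit 1665) (nat_lit 115) (.e (nat_lit 393234) (nat_lit 17) (.e (nat_lit 7587) (nat_lit 406) (.e (nat_lit 73472) (nat_lit 31) .nil)))) .nil)))) (.nd (nat_lit 5) (.nd (nat_lit 6) 
(.lf (nat_lit 71966) (.g (nat_lit 3163) (.e (nat_lit 1664) (nat_lit 115) (.e (nat_lit 393301) (nat_lit 27) (.e (nat_lit 491560) (nat_lit 10) (.e (nat_lit 344097) (nat_lit 18) (.e (nat_lit 7254) (nat_lit 383) (.e (nat_lit 8192) (nat_lit 0) (.e (nat_lit 5345) (nat_lit 298) .nil))))))) (.g (nat_lit 4) .nil .nil))) 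
(.lf (nat_lit 72030) (.g (nat_lit 2001) (.e (nat_lit 1665) (nat_lit 115) (.e (nat_lit 393234) (nat_lit 17) (.e (nat_lit 7581) (nat_lit 405) (.e (nat_lit 57480) (nat_lit 28) (.e (nat_lit 557105) (nat_lit 14) (.e (nat_lit 180265) (nat_lit 21) (.e (nat_lit 671488) (nat_lit 0) .nil))))))) (.g (nat_lit 4) .nil .nil)))) (.nd (nat_lit 6) 
(.lf (nat_lit 71998) (.g (nat_lit 2329) (.e (nat_lit 1664) (nat_lit 115) (.e (nat_lit 393301) (nat_lit 27) (.e (nat_lit 491568) (nat_lit 13) (.e (nat_lit 393239) (nat_lit 17) .nil)))) .nil)) 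
(.lf (nat_lit 72062) (.g (nat_lit 1257) (.e (nat_lit 1665) (nat_lit 115) (.e (nat_lit 393271) (nat_lit 23) (.e (nat_lit 426131) (nat_lit 3) .nil))) .nil)))))))) (.nd (nat_lit 1) (.nd (nat_lit 2) (.nd (nat_lit 3) (.nd (nat_lit 4) (.nd (nat_lit 5) (.nd (nat_lit 6) 
(.lf (nat_lit 71937) (.g (nat_lit 2986) (.e (nat_lit 1664) (nat_lit 115) (.e (nat_lit 393301) (nat_lit 27) (.e (nat_lit 491560) (nat_lit 10) (.e (nat_lit 344090) (nat_lit 18) (.e (nat_lit 7124) (nat_lit 382) (.e (nat_lit 1183) (nat_lit 87) (.e (nat_lit 65280) (nat_lit 187) .nil))))))) (.g (nat_lit 4) .nil .nil))) 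
(.lf (nat_lit 72001) (.g (nat_lit 2180) (.e (nat_lit 1664) (nat_lit 115) (.e (nat_lit 393301) (nat_lit 27) (.e (nat_lit 491568) (nat_lit 13) (.e (nat_lit 393249) (nat_lit 17) .nil)))) .nil))) (.nd (nat_lit 6) 
(.lf (nat_lit 71969) (.g (nat_lit 1988) (.e (nat_lit 1664) (nat_lit 115) (.e (nat_lit 393301) (nat_lit 27) (.e (nat_lit 491560) (nat_lit 10) (.e (nat_lit 344099) (nat_lit 18) .nil)))) .nil)) 
(.lf (nat_lit 72033) (.g (nat_lit 1237) (.e (nat_lit 1665) (nat_lit 115) (.e (nat_lit 393234) (nat_lit 17) (.e (nat_lit 7587) (nat_lit 406) (.e (nat_lit 65647) (nat_lit 25) .nil)))) .nil)))) (.nd (nat_lit 5) (.nd (nat_lit 6) 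
(.lf (nat_lit 71953) (.g (nat_lit 2558) (.e (nat_lit 1664) (nat_lit 115) (.e (nat_lit 393301) (nat_lit 27) (.e (nat_lit 491560) (nat_lit 10) (.e (nat_lit 344095) (nat_lit 18) .nil)))) .nil)) 
(.lf (nat_lit 72017) (.g (nat_lit 1617) (.e (nat_lit 1665) (nat_lit 115) (.e (nat_lit 393234) (nat_lit 17) (.e (nat_lit 7110) (nat_lit 380) (.e (nat_lit 164340) (nat_lit 232) (.e (nat_lit 446) (nat_lit 33) (.e (nat_lit 442112) (nat_lit 0) .nil)))))) (.g (nat_lit 4) .nil .nil)))) (.nd (nat_lit 6) 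
(.lf (nat_lit 71985) (.g (nat_lit 1268) (.e (nat_lit 1664) (nat_lit 115) (.e (nat_lit 393301) (nat_lit 27) (.e (nat_lit 491567) (nat_lit 13) (.e (nat_lit 393237) (nat_lit 17) .nil)))) .nil)) 
(.lf (nat_lit 72049) (.g (nat_lit 1438) (.e (nat_lit 1665) (nat_lit 115) (.e (nat_lit 393234) (nat_lit 17) (.e (nat_lit 7589) (nat_lit 406) (.e (nat_lit 65648) (nat_lit 26) (.e (nat_lit 417795) (nat_lit 0) (.e (nat_lit 5258) (nat_lit 298) .nil)))))) (.g (nat_lit 5) .nil .nil)))))) (.nd (nat_lit 4) (.nd (nat_lit 5) (.nd (nat_lit 6) 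
(.lf (nat_lit 71945) (.g (nat_lit 3103) (.e (nat_lit 1664) (nat_lit 115) (.e (nat_lit 393301) (nat_lit 27) (.e (nat_lit 491560) (nat_lit 10) (.e (nat_lit 344091) (nat_lit 18) (.e (nat_lit 7265) (nat_lit 384) (.e (nat_lit 57354) (nat_lit 0) (.e (nat_lit 7936) (nat_lit 343) .nil))))))) (.g (nat_lit 4) .nil .nil))) 
(.lf (nat_lit 72009) (.g (nat_lit 2300) (.e (nat_lit 1665) (nat_lit 115) (.e (nat_lit 393225) (nat_lit 9) (.e (nat_lit 336204) (nat_lit 12) (.e (nat_lit 385066) (nat_lit 26) (.e (nat_lit 532501) (nat_lit 1) .nil))))) .nil))) (.nd (nat_lit 6) 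
(.lf (nat_lit 71977) (.g (nat_lit 2628) (.e (nat_lit 1664) (nat_lit 115) (.e (nat_lit 393301) (nat_lit 27) (.e (nat_lit 491563) (nat_lit 12) (.e (nat_lit 385040) (nat_lit 19) .nil)))) .nil)) 
(.lf (nat_lit 72041) (.g (nat_lit 1326) (.e (nat_lit 1665) (nat_lit 115) (.e (nat_lit 393234) (nat_lit 17) (.e (nat_lit 7587) (nat_lit 406) (.e (nat_lit 65652) (nat_lit 27) (.e (nat_lit 425987) (nat_lit 0) (.e (nat_lit 7489) (nat_lit 402) .nil)))))) (.g (nat_lit 5) .nil .nil))))) (.nd (nat_lit 5) (.nd (nat_lit 6) 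
(.lf (nat_lit 71961) (.g (nat_lit 3614) (.e (nat_lit 1664) (nat_lit 115) (.e (nat_lit 393301) (nat_lit 27) (.e (nat_lit 491560) (nat_lit 10) (.e (nat_lit 344096) (nat_lit 18) (.e (nat_lit 7265) (nat_lit 384) (.e (nat_lit 57354) (nat_lit 0) (.e (nat_lit 7936) (nat_lit 343) .nil))))))) (.g (nat_lit 5) .nil .nil))) 
(.lf (nat_lit 72025) (.g (nat_lit 1930) (.e (nat_lit 1665) (nat_lit 115) (.e (nat_lit 393234) (nat_lit 17) (.e (nat_lit 7581) (nat_lit 405) (.e (nat_lit 57476) (nat_lit 28) (.e (nat_lit 557104) (nat_lit 14) .nil))))) .nil))) (.nd (nat_lit 6) 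
(.lf (nat_lit 71993) (.g (nat_lit 2543) (.e (nat_lit 1664) (nat_lit 115) (.e (nat_lit 393301) (nat_lit 27) (.e (nat_lit 491568) (nat_lit 13) (.e (nat_lit 393234) (nat_lit 17) (.e (nat_lit 7545) (nat_lit 402) .nil))))) (.g (nat_lit 4) .nil .nil))) 
(.lf (nat_lit 72057) (.g (nat_lit 1852) (.e (nat_lit 1665) (nat_lit 115) (.e (nat_lit 393251) (nat_lit 18) (.e (nat_lit 164179) (nat_lit 154) (.e (nat_lit 57432) (nat_lit 16) .nil)))) .nil)))))) (.nd (nat_lit 3) (.nd (nat_lit 4) (.nd (nat_lit 5) (.nd (nat_lit 6) 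
(.lf (nat_lit 71941) (.g (nat_lit 4285) (.e (nat_lit 1664) (nat_lit 115) (.e (nat_lit 393301) (nat_lit 27) (.e (nat_lit 491560) (nat_lit 10) (.e (nat_lit 344090) (nat_lit 18) (.e (nat_lit 7265) (nat_lit 384) (.e (nat_lit 57354) (nat_lit 0) (.e (nat_lit 7936) (nat_lit 343) .nil))))))) (.g (nat_lit 6) .nil .nil))) 
(.lf (nat_lit 72005) (.g (nat_lit 796) (.e (nat_lit 1665) (nat_lit 115) (.e (nat_lit 393225) (nat_lit 9) (.e (nat_lit 336088) (nat_lit 9) .nil))) .nil))) (.nd (nat_lit 6) 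
(.lf (nat_lit 71973) (.g (nat_lit 2729) (.e (nat_lit 1664) (nat_lit 115) (.e (nat_lit 393301) (nat_lit 27) (.e (nat_lit 491560) (nat_lit 10) (.e (nat_lit 344179) (nat_lit 44) (.e (nat_lit 778362) (nat_lit 9) (.e (nat_lit 3) (nat_lit 0) (.e (nat_lit 6485) (nat_lit 343) .nil))))))) (.g (nat_lit 4) .nil .nil))) 
(.lf (nat_lit 72037) (.g (nat_lit 1242) (.e (nat_lit 1665) (nat_lit 115) (.e (nat_lit 393234) (nat_lit 17) (.e (nat_lit 7587) (nat_lit 406) (.e (nat_lit 65648) (nat_lit 26) (.e (nat_lit 417795) (nat_lit 0) (.e (nat_lit 5258) (nat_lit 298) .nil)))))) (.g (nat_lit 5) .nil .nil))))) (.nd (nat_lit 5) (.nd (nat_lit 6) 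
(.lf (nat_lit 71957) (.g (nat_lit 3075) (.e (nat_lit 1664) (nat_lit 115) (.e (nat_lit 393301) (nat_lit 27) (.e (nat_lit 491560) (nat_lit 10) (.e (nat_lit 344096) (nat_lit 18) (.e (nat_lit 7247) (nat_lit 383) .nil))))) .nil)) 
(.lf (nat_lit 72021) (.g (nat_lit 520) (.e (nat_lit 1665) (nat_lit 115) (.e (nat_lit 393234) (nat_lit 17) (.e (nat_lit 7536) (nat_lit 402) .nil))) .nil))) (.nd (nat_lit 6) 
(.lf (nat_lit 71989) (.g (nat_lit 1361) (.e (nat_lit 1664) (nat_lit 115) (.e (nat_lit 393301) (nat_lit 27) (.e (nat_lit 491568) (nat_lit 13) (.e (nat_lit 393232) (nat_lit 17) .nil)))) .nil)) 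
(.lf (nat_lit 72053) (.g (nat_lit 2773) (.e (nat_lit 1665) (nat_lit 115) (.e (nat_lit 393234) (nat_lit 17) (.e (nat_lit 7589) (nat_lit 406) (.e (nat_lit 65653) (nat_lit 27) (.e (nat_lit 426011) (nat_lit 0) (.e (nat_lit 7486) (nat_lit 402) .nil)))))) (.g (nat_lit 0) .nil .nil)))))) (.nd (nat_lit 4) (.nd (nat_lit 5) (.nd (nat_lit 6) 
(.lf (nat_lit 71949) (.g (nat_lit 2479) (.e (nat_lit 1664) (nat_lit 115) (.e (nat_lit 393301) (nat_lit 27) (.e (nat_lit 491560) (nat_lit 10) (.e (nat_lit 344094) (nat_lit 18) (.e (nat_lit 7247) (nat_lit 383) (.e (nat_lit 8194) (nat_lit 0) (.e (nat_lit 5345) (nat_lit 298) .nil))))))) (.g (nat_lit 4) .nil .nil))) 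
(.lf (nat_lit 72013) (.g (nat_lit 573) (.e (nat_lit 1665) (nat_lit 115) (.e (nat_lit 393234) (nat_lit 17) (.e (nat_lit 3461) (nat_lit 216) .nil))) .nil))) (.nd (nat_lit 6) 
(.lf (nat_lit 71981) (.g (nat_lit 1255) (.e (nat_lit 1664) (nat_lit 115) (.e (nat_lit 393301) (nat_lit 27) (.e (nat_lit 491567) (nat_lit 13) (.e (nat_lit 393232) (nat_lit 17) .nil)))) .nil)) 
(.lf (nat_lit 72045) (.g (nat_lit 2580) (.e (nat_lit 1665) (nat_lit 115) (.e (nat_lit 393234) (nat_lit 17) (.e (nat_lit 7587) (nat_lit 406) (.e (nat_lit 65653) (nat_lit 27) (.e (nat_lit 426012) (nat_lit 0) (.e (nat_lit 7486) (nat_lit 402) .nil)))))) (.g (nat_lit 0) .nil .nil))))) (.nd (nat_lit 5) (.nd (nat_lit 6) 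
(.lf (nat_lit 71965) (.g (nat_lit 3159) (.e (nat_lit 1664) (nat_lit 115) (.e (nat_lit 393301) (nat_lit 27) (.e (nat_lit 491560) (nat_lit 10) (.e (nat_lit 344097) (nat_lit 18) (.e (nat_lit 7254) (nat_lit 383) .nil))))) .nil)) 
(.lf (nat_lit 72029) (.g (nat_lit 3065) (.e (nat_lit 1665) (nat_lit 115) (.e (nat_lit 393234) (nat_lit 17) (.e (nat_lit 7581) (nat_lit 405) (.e (nat_lit 57480) (nat_lit 28) (.e (nat_lit 557105) (nat_lit 14) (.e (nat_lit 180264) (nat_lit 21) (.e (nat_lit 663552) (nat_lit 0) .nil))))))) (.g (nat_lit 5) .nil .nil)))) (.nd (nat_lit 6) 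
(.lf (nat_lit 71997) (.g (nat_lit 2643) (.e (nat_lit 1664) (nat_lit 115) (.e (nat_lit 393301) (nat_lit 27) (.e (nat_lit 491568) (nat_lit 13) (.e (nat_lit 393238) (nat_lit 17) (.e (nat_lit 7936) (nat_lit 402) .nil))))) (.g (nat_lit 4) .nil .nil))) 
(.lf (nat_lit 72061) (.g (nat_lit 1130) (.e (nat_lit 1665) (nat_lit 115) (.e (nat_lit 393271) (nat_lit 23) (.e (nat_lit 426112) (nat_lit 1) .nil))) .nil))))))) (.nd (nat_lit 2) (.nd (nat_lit 3) (.nd (nat_lit 4) (.nd (nat_lit 5) (.nd (nat_lit 6) 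
(.lf (nat_lit 71939) (.g (nat_lit 2829) (.e (nat_lit 1664) (nat_lit 115) (.e (nat_lit 393301) (nat_lit 27) (.e (nat_lit 491560) (nat_lit 10) (.e (nat_lit 344090) (nat_lit 18) (.e (nat_lit 7261) (nat_lit 384) .nil))))) .nil)) 
(.lf (nat_lit 72003) (.g (nat_lit 2315) (.e (nat_lit 1665) (nat_lit 115) (.e (nat_lit 393225) (nat_lit 9) (.e (nat_lit 336076) (nat_lit 9) (.e (nat_lit 336324) (nat_lit 18) (.e (nat_lit 204830) (nat_lit 18) (.e (nat_lit 57830) (nat_lit 250) (.e (nat_lit 999) (nat_lit 81) .nil))))))) (.g (nat_lit 4) .nil .nil)))) (.nd (nat_lit 6) 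
(.lf (nat_lit 71971) (.g (nat_lit 2203) (.e (nat_lit 1664) (nat_lit 115) (.e (nat_lit 393301) (nat_lit 27) (.e (nat_lit 491560) (nat_lit 10) (.e (nat_lit 344177) (nat_lit 43) .nil)))) .nil)) 
(.lf (nat_lit 72035) (.g (nat_lit 1533) (.e (nat_lit 1665) (nat_lit 115) (.e (nat_lit 393234) (nat_lit 17) (.e (nat_lit 7587) (nat_lit 406) (.e (nat_lit 65648) (nat_lit 26) (.e (nat_lit 417793) (nat_lit 0) (.e (nat_lit 5271) (nat_lit 298) .nil)))))) (.g (nat_lit 0) .nil .nil))))) (.nd (nat_lit 5) (.nd (nat_lit 6) 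
(.lf (nat_lit 71955) (.g (nat_lit 3101) (.e (nat_lit 1664) (nat_lit 115) (.e (nat_lit 393301) (nat_lit 27) (.e (nat_lit 491560) (nat_lit 10) (.e (nat_lit 344096) (nat_lit 18) (.e (nat_lit 7122) (nat_lit 382) .nil))))) .nil)) 
(.lf (nat_lit 72019) (.g (nat_lit 2098) (.e (nat_lit 1665) (nat_lit 115) (.e (nat_lit 393234) (nat_lit 17) (.e (nat_lit 7486) (nat_lit 402) (.e (nat_lit 1665) (nat_lit 115) (.e (nat_lit 393234) (nat_lit 17) (.e (nat_lit 7486) (nat_lit 402) .nil)))))) (.g (nat_lit 5) .nil .nil)))) (.nd (nat_lit 6) 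
(.lf (nat_lit 71987) (.g (nat_lit 2168) (.e (nat_lit 1664) (nat_lit 115) (.e (nat_lit 393301) (nat_lit 27) (.e (nat_lit 491568) (nat_lit 13) (.e (nat_lit 393230) (nat_lit 17) .nil)))) .nil)) 
(.lf (nat_lit 72051) (.g (nat_lit 1747) (.e (nat_lit 1665) (nat_lit 115) (.e (nat_lit 393234) (nat_lit 17) (.e (nat_lit 7589) (nat_lit 406) (.e (nat_lit 65648) (nat_lit 26) (.e (nat_lit 417796) (nat_lit 0) (.e (nat_lit 5258) (nat_lit 298) .nil)))))) (.g (nat_lit 5) .nil .nil)))))) (.nd (nat_lit 4) (.nd (nat_lit 5) (.nd (nat_lit 6) 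
(.lf (nat_lit 71947) (.g (nat_lit 2479) (.e (nat_lit 1664) (nat_lit 115) (.e (nat_lit 393301) (nat_lit 27) (.e (nat_lit 491560) (nat_lit 10) (.e (nat_lit 344094) (nat_lit 18) (.e (nat_lit 7122) (nat_lit 382) (.e (nat_lit 1183) (nat_lit 87) (.e (nat_lit 65280) (nat_lit 187) .nil))))))) (.g (nat_lit 4) .nil .nil))) 
(.lf (nat_lit 72011) (.g (nat_lit 2106) (.e (nat_lit 1665) (nat_lit 115) (.e (nat_lit 393228) (nat_lit 9) (.e (nat_lit 336088) (nat_lit 9) (.e (nat_lit 336324) (nat_lit 18) (.e (nat_lit 204831) (nat_lit 18) .nil))))) .nil))) (.nd (nat_lit 6) 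
(.lf (nat_lit 71979) (.g (nat_lit 404) (.e (nat_lit 1664) (nat_lit 115) (.e (nat_lit 393301) (nat_lit 27) (.e (nat_lit 491567) (nat_lit 13) .nil))) .nil)) 
(.lf (nat_lit 72043) (.g (nat_lit 1285) (.e (nat_lit 1665) (nat_lit 115) (.e (nat_lit 393234) (nat_lit 17) (.e (nat_lit 7587) (nat_lit 406) (.e (nat_lit 65652) (nat_lit 27) (.e (nat_lit 425990) (nat_lit 0) (.e (nat_lit 7489) (nat_lit 402) .nil)))))) (.g (nat_lit 4) .nil .nil))))) (.nd (nat_lit 5) (.nd (nat_lit 6) 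
(.lf (nat_lit 71963) (.g (nat_lit 3314) (.e (nat_lit 1664) (nat_lit 115) (.e (nat_lit 393301) (nat_lit 27) (.e (nat_lit 491560) (nat_lit 10) (.e (nat_lit 344097) (nat_lit 18) (.e (nat_lit 7252) (nat_lit 383) .nil))))) .nil)) 
(.lf (nat_lit 72027) (.g (nat_lit 1749) (.e (nat_lit 1665) (nat_lit 115) (.e (nat_lit 393234) (nat_lit 17) (.e (nat_lit 7581) (nat_lit 405) (.e (nat_lit 57477) (nat_lit 28) (.e (nat_lit 557104) (nat_lit 14) .nil))))) .nil))) (.nd (nat_lit 6) 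
(.lf (nat_lit 71995) (.g (nat_lit 1737) (.e (nat_lit 1664) (nat_lit 115) (.e (nat_lit 393301) (nat_lit 27) (.e (nat_lit 491568) (nat_lit 13) (.e (nat_lit 393235) (nat_lit 17) (.e (nat_lit 7936) (nat_lit 402) .nil))))) (.g (nat_lit 4) .nil .nil))) 
(.lf (nat_lit 72059) (.g (nat_lit 1067) (.e (nat_lit 1665) (nat_lit 115) (.e (nat_lit 393263) (nat_lit 22) (.e (nat_lit 417817) (nat_lit 10) (.e (nat_lit 5364) (nat_lit 298) (.e (nat_lit 446) (nat_lit 33) (.e (nat_lit 442112) (nat_lit 0) .nil)))))) (.g (nat_lit 5) .nil .nil))))))) (.nd (nat_lit 3) (.nd (nat_lit 4) (.nd (nat_lit 5) (.nd (nat_lit 6) 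
(.lf (nat_lit 71943) (.g (nat_lit 3030) (.e (nat_lit 1664) (nat_lit 115) (.e (nat_lit 393301) (nat_lit 27) (.e (nat_lit 491560) (nat_lit 10) (.e (nat_lit 344091) (nat_lit 18) (.e (nat_lit 7263) (nat_lit 384) (.e (nat_lit 57354) (nat_lit 0) (.e (nat_lit 7936) (nat_lit 343) .nil))))))) (.g (nat_lit 4) .nil .nil))) 
(.lf (nat_lit 72007) (.g (nat_lit 2090) (.e (nat_lit 1665) (nat_lit 115) (.e (nat_lit 393225) (nat_lit 9) (.e (nat_lit 336194) (nat_lit 12) (.e (nat_lit 385066) (nat_lit 26) (.e (nat_lit 532504) (nat_lit 1) .nil))))) .nil))) (.nd (nat_lit 6) 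
(.lf (nat_lit 71975) (.g (nat_lit 2170) (.e (nat_lit 1664) (nat_lit 115) (.e (nat_lit 393301) (nat_lit 27) (.e (nat_lit 491560) (nat_lit 10) (.e (nat_lit 352000) (nat_lit 47) .nil)))) .nil)) 
(.lf (nat_lit 72039) (.g (nat_lit 1031) (.e (nat_lit 1665) (nat_lit 115) (.e (nat_lit 393234) (nat_lit 17) (.e (nat_lit 7587) (nat_lit 406) (.e (nat_lit 65652) (nat_lit 27) .nil)))) .nil)))) (.nd (nat_lit 5) (.nd (nat_lit 6) 
(.lf (nat_lit 71959) (.g (nat_lit 3003) (.e (nat_lit 1664) (nat_lit 115) (.e (nat_lit 393301) (nat_lit 27) (.e (nat_lit 491560) (nat_lit 10) (.e (nat_lit 344096) (nat_lit 18) (.e (nat_lit 7265) (nat_lit 384) .nil))))) .nil)) 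
(.lf (nat_lit 72023) (.g (nat_lit 3198) (.e (nat_lit 1665) (nat_lit 115) (.e (nat_lit 393234) (nat_lit 17) (.e (nat_lit 7536) (nat_lit 402) (.e (nat_lit 1656) (nat_lit 115) (.e (nat_lit 393234) (nat_lit 17) (.e (nat_lit 7490) (nat_lit 402) .nil)))))) (.g (nat_lit 6) .nil .nil)))) (.nd (nat_lit 6) 
(.lf (nat_lit 71991) (.g (nat_lit 1506) (.e (nat_lit 1664) (nat_lit 115) (.e (nat_lit 393301) (nat_lit 27) (.e (nat_lit 491568) (nat_lit 13) (.e (nat_lit 393233) (nat_lit 17) .nil)))) .nil)) 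
(.lf (nat_lit 72055) (.g (nat_lit 977) (.e (nat_lit 1665) (nat_lit 115) (.e (nat_lit 393234) (nat_lit 17) (.e (nat_lit 7589) (nat_lit 406) (.e (nat_lit 73472) (nat_lit 27) .nil)))) .nil))))) (.nd (nat_lit 4) (.nd (nat_lit 5) (.nd (nat_lit 6) 
(.lf (nat_lit 71951) (.g (nat_lit 2725) (.e (nat_lit 1664) (nat_lit 115) (.e (nat_lit 393301) (nat_lit 27) (.e (nat_lit 491560) (nat_lit 10) (.e (nat_lit 344094) (nat_lit 18) (.e (nat_lit 7265) (nat_lit 384) (.e (nat_lit 57347) (nat_lit 0) (.e (nat_lit 6481) (nat_lit 343) .nil))))))) (.g (nat_lit 5) .nil .nil))) 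
(.lf (nat_lit 72015) (.g (nat_lit 1406) (.e (nat_lit 1665) (nat_lit 115) (.e (nat_lit 393234) (nat_lit 17) (.e (nat_lit 7065) (nat_lit 377) (.e (nat_lit 1116) (nat_lit 82) .nil)))) .nil))) (.nd (nat_lit 6) 
(.lf (nat_lit 71983) (.g (nat_lit 2093) (.e (nat_lit 1664) (nat_lit 115) (.e (nat_lit 393301) (nat_lit 27) (.e (nat_lit 491567) (nat_lit 13) (.e (nat_lit 393234) (nat_lit 17) (.e (nat_lit 7545) (nat_lit 402) .nil))))) (.g (nat_lit 4) .nil .nil))) 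
(.lf (nat_lit 72047) (.g (nat_lit 977) (.e (nat_lit 1665) (nat_lit 115) (.e (nat_lit 393234) (nat_lit 17) (.e (nat_lit 7589) (nat_lit 406) (.e (nat_lit 73472) (nat_lit 15) .nil)))) .nil)))) (.nd (nat_lit 5) (.nd (nat_lit 6) 
(.lf (nat_lit 71967) (.g (nat_lit 3146) (.e (nat_lit 1664) (nat_lit 115) (.e (nat_lit 393301) (nat_lit 27) (.e (nat_lit 491560) (nat_lit 10) (.e (nat_lit 344097) (nat_lit 18) (.e (nat_lit 7255) (nat_lit 383) .nil))))) .nil)) 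
(.lf (nat_lit 72031) (.g (nat_lit 463) (.e (nat_lit 1665) (nat_lit 115) (.e (nat_lit 393234) (nat_lit 17) (.e (nat_lit 7587) (nat_lit 406) .nil))) .nil))) (.nd (nat_lit 6) 
(.lf (nat_lit 71999) (.g (nat_lit 1520) (.e (nat_lit 1664) (nat_lit 115) (.e (nat_lit 393301) (nat_lit 27) (.e (nat_lit 491568) (nat_lit 13) (.e (nat_lit 393242) (nat_lit 17) .nil)))) .nil)) 
(.lf (nat_lit 72063) (.g (nat_lit 649) (.e (nat_lit 1665) (nat_lit 115) (.e (nat_lit 393273) (nat_lit 23) (.e (nat_lit 426364) (nat_lit 15) .nil))) .nil)))))))))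

noncomputable def tv982 : DT := (.nd (nat_lit 0) (.nd (nat_lit 1) (.nd (nat_lit 2) (.nd (nat_lit 3) (.nd (nat_lit 4) (.nd (nat_lit 5) (.nd (nat_lit 6) 
(.lf (nat_lit 72064) (.g (nat_lit 1879) (.e (nat_lit 1665) (nat_lit 115) (.e (nat_lit 393273) (nat_lit 23) (.e (nat_lit 426364) (nat_lit 15) (.e (nat_lit 2160) (nat_lit 143) (.e (nat_lit 712747) (nat_lit 28) (.e (nat_lit 442112) (nat_lit 0) .nil)))))) (.g (nat_lit 5) .nil .nil))) 
(.lf (nat_lit 72128) (.g (nat_lit 1493) (.e (nat_lit 1665) (nat_lit 115) (.e (nat_lit 393299) (nat_lit 27) (.e (nat_lit 491570) (nat_lit 13) (.e (nat_lit 393238) (nat_lit 17) .nil)))) .nil))) (.nd (nat_lit 6) 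
(.lf (nat_lit 72096) (.g (nat_lit 1266) (.e (nat_lit 1665) (nat_lit 115) (.e (nat_lit 393296) (nat_lit 26) (.e (nat_lit 475196) (nat_lit 40) (.e (nat_lit 704595) (nat_lit 5) (.e (nat_lit 188160) (nat_lit 32) .nil))))) (.g (nat_lit 4) .nil .nil))) 
(.lf (nat_lit 72160) (.g (nat_lit 1465) (.e (nat_lit 1665) (nat_lit 115) (.e (nat_lit 393301) (nat_lit 27) (.e (nat_lit 491526) (nat_lit 0) (.e (nat_lit 1848) (nat_lit 124) .nil)))) .nil)))) (.nd (nat_lit 5) (.nd (nat_lit 6) 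
(.lf (nat_lit 72080) (.g (nat_lit 1917) (.e (nat_lit 1665) (nat_lit 115) (.e (nat_lit 393291) (nat_lit 26) (.e (nat_lit 475210) (nat_lit 41) (.e (nat_lit 712745) (nat_lit 27) .nil)))) .nil)) 
(.lf (nat_lit 72144) (.g (nat_lit 1783) (.e (nat_lit 1665) (nat_lit 115) (.e (nat_lit 393300) (nat_lit 27) (.e (nat_lit 491570) (nat_lit 13) (.e (nat_lit 393232) (nat_lit 17) .nil)))) .nil))) (.nd (nat_lit 6) 
(.lf (nat_lit 72112) (.g (nat_lit 448) (.e (nat_lit 1665) (nat_lit 115) (.e (nat_lit 393298) (nat_lit 27) (.e (nat_lit 491550) (nat_lit 9) .nil))) .nil)) 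
(.lf (nat_lit 72176) (.g (nat_lit 2154) (.e (nat_lit 1665) (nat_lit 115) (.e (nat_lit 393301) (nat_lit 27) (.e (nat_lit 491546) (nat_lit 9) (.e (nat_lit 336438) (nat_lit 31) (.e (nat_lit 466688) (nat_lit 0) .nil))))) (.g (nat_lit 4) .nil .nil)))))) (.nd (nat_lit 4) (.nd (nat_lit 5) (.nd (nat_lit 6) 
(.lf (nat_lit 72072) (.g (nat_lit 1145) (.e (nat_lit 1665) (nat_lit 115) (.e (nat_lit 393289) (nat_lit 25) (.e (nat_lit 458774) (nat_lit 18) (.e (nat_lit 5548) (nat_lit 306) (.e (nat_lit 2640) (nat_lit 165) .nil))))) .nil)) 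
(.lf (nat_lit 72136) (.g (nat_lit 605) (.e (nat_lit 1665) (nat_lit 115) (.e (nat_lit 393300) (nat_lit 27) (.e (nat_lit 491556) (nat_lit 9) .nil))) .nil))) (.nd (nat_lit 6) 
(.lf (nat_lit 72104) (.g (nat_lit 1420) (.e (nat_lit 1665) (nat_lit 115) (.e (nat_lit 393296) (nat_lit 26) (.e (nat_lit 475208) (nat_lit 41) (.e (nat_lit 712745) (nat_lit 27) (.e (nat_lit 425984) (nat_lit 0) (.e (nat_lit 7489) (nat_lit 402) .nil)))))) (.g (nat_lit 4) .nil .nil))) 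
(.lf (nat_lit 72168) (.g (nat_lit 1777) (.e (nat_lit 1665) (nat_lit 115) (.e (nat_lit 393301) (nat_lit 27) (.e (nat_lit 491538) (nat_lit 3) (.e (nat_lit 98341) (nat_lit 20) (.e (nat_lit 221218) (nat_lit 24) .nil))))) .nil)))) (.nd (nat_lit 5) (.nd (nat_lit 6) 
(.lf (nat_lit 72088) (.g (nat_lit 2849) (.e (nat_lit 1665) (nat_lit 115) (.e (nat_lit 393293) (nat_lit 26) (.e (nat_lit 475210) (nat_lit 41) (.e (nat_lit 712745) (nat_lit 27) (.e (nat_lit 425984) (nat_lit 0) (.e (nat_lit 7489) (nat_lit 402) .nil)))))) (.g (nat_lit 0) .nil .nil))) 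
(.lf (nat_lit 72152) (.g (nat_lit 2599) (.e (nat_lit 1665) (nat_lit 115) (.e (nat_lit 393301) (nat_lit 27) (.e (nat_lit 491526) (nat_lit 0) (.e (nat_lit 1788) (nat_lit 119) (.e (nat_lit 516106) (nat_lit 0) (.e (nat_lit 3721) (nat_lit 227) (.e (nat_lit 778474) (nat_lit 12) (.e (nat_lit 164038) (nat_lit 55) (.e (nat_lit 778246) (nat_lit 0) .nil))))))))) (.g (nat_lit 4) .nil .nil)))) 
(.nd (nat_lit 6) 
(.lf (nat_lit 72120) (.g (nat_lit 1532) (.e (nat_lit 1665) (nat_lit 115) (.e (nat_lit 393298) (nat_lit 27) (.e (nat_lit 491571) (nat_lit 13) (.e (nat_lit 393232) (nat_lit 17) .nil)))) .nil)) 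
(.lf (nat_lit 72184) (.g (nat_lit 951) (.e (nat_lit 1665) (nat_lit 115) (.e (nat_lit 393301) (nat_lit 27) (.e (nat_lit 491552) (nat_lit 9) (.e (nat_lit 336248) (nat_lit 15) .nil)))) .nil)))))) (.nd (nat_lit 3) (.nd (nat_lit 4) (.nd (nat_lit 5) (.nd (nat_lit 6) 
(.lf (nat_lit 72068) (.g (nat_lit 2124) (.e (nat_lit 1665) (nat_lit 115) (.e (nat_lit 393281) (nat_lit 23) (.e (nat_lit 426116) (nat_lit 2) (.e (nat_lit 196654) (nat_lit 11) (.e (nat_lit 16386) (nat_lit 0) .nil))))) .nil)) 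
(.lf (nat_lit 72132) (.g (nat_lit 3496) (.e (nat_lit 1665) (nat_lit 115) (.e (nat_lit 393300) (nat_lit 27) (.e (nat_lit 491549) (nat_lit 9) (.e (nat_lit 336414) (nat_lit 27) (.e (nat_lit 425984) (nat_lit 0) (.e (nat_lit 7489) (nat_lit 402) .nil)))))) (.g (nat_lit 0) .nil .nil)))) (.nd (nat_lit 6) 
(.lf (nat_lit 72100) (.g (nat_lit 1250) (.e (nat_lit 1665) (nat_lit 115) (.e (nat_lit 393296) (nat_lit 26) (.e (nat_lit 475207) (nat_lit 41) (.e (nat_lit 712747) (nat_lit 28) (.e (nat_lit 442112) (nat_lit 0) .nil))))) (.g (nat_lit 4) .nil .nil))) 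
(.lf (nat_lit 72164) (.g (nat_lit 1696) (.e (nat_lit 1665) (nat_lit 115) (.e (nat_lit 393301) (nat_lit 27) (.e (nat_lit 491535) (nat_lit 2) (.e (nat_lit 90165) (nat_lit 12) .nil)))) .nil)))) (.nd (nat_lit 5) (.nd (nat_lit 6) 
(.lf (nat_lit 72084) (.g (nat_lit 579) (.e (nat_lit 1665) (nat_lit 115) (.e (nat_lit 393293) (nat_lit 26) (.e (nat_lit 475197) (nat_lit 40) .nil))) .nil)) 
(.lf (nat_lit 72148) (.g (nat_lit 1570) (.e (nat_lit 1665) (nat_lit 115) (.e (nat_lit 393300) (nat_lit 27) (.e (nat_lit 491570) (nat_lit 13) (.e (nat_lit 393243) (nat_lit 17) .nil)))) .nil))) (.nd (nat_lit 6) 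
(.lf (nat_lit 72116) (.g (nat_lit 2689) (.e (nat_lit 1665) (nat_lit 115) (.e (nat_lit 393298) (nat_lit 27) (.e (nat_lit 491569) (nat_lit 13) (.e (nat_lit 393234) (nat_lit 17) (.e (nat_lit 7486) (nat_lit 402) .nil))))) (.g (nat_lit 0) .nil .nil))) 
(.lf (nat_lit 72180) (.g (nat_lit 551) (.e (nat_lit 1665) (nat_lit 115) (.e (nat_lit 393301) (nat_lit 27) (.e (nat_lit 491551) (nat_lit 9) .nil))) .nil))))) (.nd (nat_lit 4) (.nd (nat_lit 5) (.nd (nat_lit 6) 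
(.lf (nat_lit 72076) (.g (nat_lit 2296) (.e (nat_lit 1665) (nat_lit 115) (.e (nat_lit 393290) (nat_lit 26) (.e (nat_lit 475210) (nat_lit 41) (.e (nat_lit 712745) (nat_lit 27) (.e (nat_lit 425984) (nat_lit 0) (.e (nat_lit 7489) (nat_lit 402) .nil)))))) (.g (nat_lit 0) .nil .nil))) 
(.lf (nat_lit 72140) (.g (nat_lit 2678) (.e (nat_lit 1665) (nat_lit 115) (.e (nat_lit 393300) (nat_lit 27) (.e (nat_lit 491568) (nat_lit 13) (.e (nat_lit 393234) (nat_lit 17) (.e (nat_lit 7490) (nat_lit 402) .nil))))) .nil))) (.nd (nat_lit 6) 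
(.lf (nat_lit 72108) (.g (nat_lit 2064) (.e (nat_lit 1665) (nat_lit 115) (.e (nat_lit 393297) (nat_lit 27) (.e (nat_lit 491571) (nat_lit 13) (.e (nat_lit 393231) (nat_lit 17) (.e (nat_lit 7490) (nat_lit 402) .nil))))) (.g (nat_lit 4) .nil .nil))) 
(.lf (nat_lit 72172) (.g (nat_lit 2412) (.e (nat_lit 1665) (nat_lit 115) (.e (nat_lit 393301) (nat_lit 27) (.e (nat_lit 491539) (nat_lit 3) (.e (nat_lit 98339) (nat_lit 19) (.e (nat_lit 213035) (nat_lit 12) (.e (nat_lit 164040) (nat_lit 55) (.e (nat_lit 778246) (nat_lit 0) .nil))))))) (.g (nat_lit 5) .nil .nil))))) (.nd (nat_lit 5) (.nd (nat_lit 6) 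
(.lf (nat_lit 72092) (.g (nat_lit 959) (.e (nat_lit 1665) (nat_lit 115) (.e (nat_lit 393294) (nat_lit 26) (.e (nat_lit 475210) (nat_lit 41) .nil))) .nil)) 
(.lf (nat_lit 72156) (.g (nat_lit 2053) (.e (nat_lit 1665) (nat_lit 115) (.e (nat_lit 393301) (nat_lit 27) (.e (nat_lit 491526) (nat_lit 0) (.e (nat_lit 1788) (nat_lit 119) (.e (nat_lit 516131) (nat_lit 3) .nil))))) .nil))) (.nd (nat_lit 6) 
(.lf (nat_lit 72124) (.g (nat_lit 1901) (.e (nat_lit 1665) (nat_lit 115) (.e (nat_lit 393298) (nat_lit 27) (.e (nat_lit 491571) (nat_lit 13) (.e (nat_lit 393242) (nat_lit 17) (.e (nat_lit 7936) (nat_lit 402) .nil))))) (.g (nat_lit 4) .nil .nil))) 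
(.lf (nat_lit 72188) (.g (nat_lit 1537) (.e (nat_lit 1665) (nat_lit 115) (.e (nat_lit 393301) (nat_lit 27) (.e (nat_lit 491552) (nat_lit 9) (.e (nat_lit 336363) (nat_lit 26) (.e (nat_lit 417795) (nat_lit 0) (.e (nat_lit 5258) (nat_lit 298) .nil)))))) (.g (nat_lit 5) .nil .nil)))))))) (.nd (nat_lit 2) (.nd (nat_lit 3) (.nd (nat_lit 4) (.nd (nat_lit 5) (.nd (nat_lit 6) 
(.lf (nat_lit 72066) (.g (nat_lit 1560) (.e (nat_lit 1665) (nat_lit 115) (.e (nat_lit 393279) (nat_lit 23) (.e (nat_lit 426110) (nat_lit 1) (.e (nat_lit 164348) (nat_lit 240) (.e (nat_lit 2640) (nat_lit 165) (.e (nat_lit 188160) (nat_lit 32) .nil)))))) (.g (nat_lit 5) .nil .nil))) 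
(.lf (nat_lit 72130) (.g (nat_lit 679) (.e (nat_lit 1665) (nat_lit 115) (.e (nat_lit 393300) (nat_lit 27) (.e (nat_lit 491549) (nat_lit 9) .nil))) .nil))) (.nd (nat_lit 6) 
(.lf (nat_lit 72098) (.g (nat_lit 2131) (.e (nat_lit 1665) (nat_lit 115) (.e (nat_lit 393296) (nat_lit 26) (.e (nat_lit 475198) (nat_lit 40) (.e (nat_lit 704595) (nat_lit 5) (.e (nat_lit 188160) (nat_lit 32) .nil))))) (.g (nat_lit 4) .nil .nil))) 
(.lf (nat_lit 72162) (.g (nat_lit 2563) (.e (nat_lit 1665) (nat_lit 115) (.e (nat_lit 393301) (nat_lit 27) (.e (nat_lit 491526) (nat_lit 0) (.e (nat_lit 1855) (nat_lit 124) (.e (nat_lit 557105) (nat_lit 14) (.e (nat_lit 180265) (nat_lit 21) (.e (nat_lit 663552) (nat_lit 0) .nil))))))) (.g (nat_lit 4) .nil .nil))))) (.nd (nat_lit 5) (.nd (nat_lit 6) 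
(.lf (nat_lit 72082) (.g (nat_lit 1128) (.e (nat_lit 1665) (nat_lit 115) (.e (nat_lit 393293) (nat_lit 26) (.e (nat_lit 475196) (nat_lit 40) (.e (nat_lit 704595) (nat_lit 5) (.e (nat_lit 188160) (nat_lit 32) .nil))))) .nil)) 
(.lf (nat_lit 72146) (.g (nat_lit 2258) (.e (nat_lit 1665) (nat_lit 115) (.e (nat_lit 393300) (nat_lit 27) (.e (nat_lit 491570) (nat_lit 13) (.e (nat_lit 393238) (nat_lit 17) (.e (nat_lit 7936) (nat_lit 402) .nil))))) (.g (nat_lit 4) .nil .nil)))) (.nd (nat_lit 6) 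
(.lf (nat_lit 72114) (.g (nat_lit 2231) (.e (nat_lit 1665) (nat_lit 115) (.e (nat_lit 393298) (nat_lit 27) (.e (nat_lit 491550) (nat_lit 9) (.e (nat_lit 336414) (nat_lit 27) (.e (nat_lit 425987) (nat_lit 0) .nil))))) .nil)) 
(.lf (nat_lit 72178) (.g (nat_lit 1546) (.e (nat_lit 1665) (nat_lit 115) (.e (nat_lit 393301) (nat_lit 27) (.e (nat_lit 491547) (nat_lit 9) (.e (nat_lit 336423) (nat_lit 28) .nil)))) .nil))))) (.nd (nat_lit 4) (.nd (nat_lit 5) (.nd (nat_lit 6) 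
(.lf (nat_lit 72074) (.g (nat_lit 955) (.e (nat_lit 1665) (nat_lit 115) (.e (nat_lit 393290) (nat_lit 26) (.e (nat_lit 475198) (nat_lit 40) (.e (nat_lit 704596) (nat_lit 5) .nil)))) .nil)) 
(.lf (nat_lit 72138) (.g (nat_lit 1669) (.e (nat_lit 1665) (nat_lit 115) (.e (nat_lit 393300) (nat_lit 27) (.e (nat_lit 491568) (nat_lit 13) (.e (nat_lit 393233) (nat_lit 17) .nil)))) .nil))) (.nd (nat_lit 6) 
(.lf (nat_lit 72106) (.g (nat_lit 1060) (.e (nat_lit 1665) (nat_lit 115) (.e (nat_lit 393296) (nat_lit 26) (.e (nat_lit 475209) (nat_lit 41) (.e (nat_lit 712745) (nat_lit 27) .nil)))) .nil)) 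
(.lf (nat_lit 72170) (.g (nat_lit 1863) (.e (nat_lit 1665) (nat_lit 115) (.e (nat_lit 393301) (nat_lit 27) (.e (nat_lit 491538) (nat_lit 3) (.e (nat_lit 98342) (nat_lit 20) (.e (nat_lit 221219) (nat_lit 24) (.e (nat_lit 220928) (nat_lit 0) .nil)))))) (.g (nat_lit 4) .nil .nil))))) (.nd (nat_lit 5) (.nd (nat_lit 6) 
(.lf (nat_lit 72090) (.g (nat_lit 2154) (.e (nat_lit 1665) (nat_lit 115) (.e (nat_lit 393294) (nat_lit 26) (.e (nat_lit 475198) (nat_lit 40) (.e (nat_lit 704595) (nat_lit 5) (.e (nat_lit 188160) (nat_lit 32) .nil))))) .nil)) 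
(.lf (nat_lit 72154) (.g (nat_lit 2478) (.e (nat_lit 1665) (nat_lit 115) (.e (nat_lit 393301) (nat_lit 27) (.e (nat_lit 491526) (nat_lit 0) (.e (nat_lit 1788) (nat_lit 119) (.e (nat_lit 516130) (nat_lit 3) (.e (nat_lit 221218) (nat_lit 24) (.e (nat_lit 220928) (nat_lit 0) .nil))))))) (.g (nat_lit 5) .nil .nil)))) (.nd (nat_lit 6) 
(.lf (nat_lit 72122) (.g (nat_lit 1520) (.e (nat_lit 1665) (nat_lit 115) (.e (nat_lit 393298) (nat_lit 27) (.e (nat_lit 491571) (nat_lit 13) (.e (nat_lit 393235) (nat_lit 17) .nil)))) .nil)) 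
(.lf (nat_lit 72186) (.g (nat_lit 1381) (.e (nat_lit 1665) (nat_lit 115) (.e (nat_lit 393301) (nat_lit 27) (.e (nat_lit 491552) (nat_lit 9) (.e (nat_lit 336248) (nat_lit 15) (.e (nat_lit 7089) (nat_lit 379) (.e (nat_lit 123202) (nat_lit 270) .nil)))))) (.g (nat_lit 4) .nil .nil))))))) (.nd (nat_lit 3) (.nd (nat_lit 4) (.nd (nat_lit 5) (.nd (nat_lit 6) 
(.lf (nat_lit 72070) (.g (nat_lit 692) (.e (nat_lit 1665) (nat_lit 115) (.e (nat_lit 393284) (nat_lit 24) (.e (nat_lit 434212) (nat_lit 18) (.e (nat_lit 5548) (nat_lit 306) .nil)))) .nil)) 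
(.lf (nat_lit 72134) (.g (nat_lit 2772) (.e (nat_lit 1665) (nat_lit 115) (.e (nat_lit 393300) (nat_lit 27) (.e (nat_lit 491549) (nat_lit 9) (.e (nat_lit 336421) (nat_lit 28) (.e (nat_lit 442112) (nat_lit 0) .nil))))) .nil))) (.nd (nat_lit 6) 
(.lf (nat_lit 72102) (.g (nat_lit 1239) (.e (nat_lit 1665) (nat_lit 115) (.e (nat_lit 393296) (nat_lit 26) (.e (nat_lit 475207) (nat_lit 41) (.e (nat_lit 712749) (nat_lit 28) (.e (nat_lit 442112) (nat_lit 0) .nil))))) (.g (nat_lit 4) .nil .nil))) 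
(.lf (nat_lit 72166) (.g (nat_lit 2312) (.e (nat_lit 1665) (nat_lit 115) (.e (nat_lit 393301) (nat_lit 27) (.e (nat_lit 491535) (nat_lit 2) (.e (nat_lit 90165) (nat_lit 12) (.e (nat_lit 164070) (nat_lit 59) .nil))))) .nil)))) (.nd (nat_lit 5) (.nd (nat_lit 6) 
(.lf (nat_lit 72086) (.g (nat_lit 1644) (.e (nat_lit 1665) (nat_lit 115) (.e (nat_lit 393293) (nat_lit 26) (.e (nat_lit 475198) (nat_lit 40) (.e (nat_lit 704596) (nat_lit 5) (.e (nat_lit 188160) (nat_lit 32) .nil))))) (.g (nat_lit 4) .nil .nil))) 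
(.lf (nat_lit 72150) (.g (nat_lit 2513) (.e (nat_lit 1665) (nat_lit 115) (.e (nat_lit 393301) (nat_lit 27) (.e (nat_lit 491520) (nat_lit 0) (.e (nat_lit 1858) (nat_lit 124) (.e (nat_lit 557105) (nat_lit 14) (.e (nat_lit 180265) (nat_lit 21) (.e (nat_lit 663552) (nat_lit 0) .nil))))))) (.g (nat_lit 4) .nil .nil)))) (.nd (nat_lit 6) 
(.lf (nat_lit 72118) (.g (nat_lit 1490) (.e (nat_lit 1665) (nat_lit 115) (.e (nat_lit 393298) (nat_lit 27) (.e (nat_lit 491570) (nat_lit 13) (.e (nat_lit 393232) (nat_lit 17) .nil)))) .nil)) 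
(.lf (nat_lit 72182) (.g (nat_lit 2046) (.e (nat_lit 1665) (nat_lit 115) (.e (nat_lit 393301) (nat_lit 27) (.e (nat_lit 491551) (nat_lit 9) (.e (nat_lit 336358) (nat_lit 25) (.e (nat_lit 409605) (nat_lit 0) (.e (nat_lit 5270) (nat_lit 298) .nil)))))) (.g (nat_lit 6) .nil .nil)))))) (.nd (nat_lit 4) (.nd (nat_lit 5) (.nd (nat_lit 6) 
(.lf (nat_lit 72078) (.g (nat_lit 682) (.e (nat_lit 1665) (nat_lit 115) (.e (nat_lit 393291) (nat_lit 26) (.e (nat_lit 475198) (nat_lit 40) .nil))) .nil)) 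
(.lf (nat_lit 72142) (.g (nat_lit 529) (.e (nat_lit 1665) (nat_lit 115) (.e (nat_lit 393300) (nat_lit 27) (.e (nat_lit 491570) (nat_lit 13) .nil))) .nil))) (.nd (nat_lit 6) 
(.lf (nat_lit 72110) (.g (nat_lit 532) (.e (nat_lit 1665) (nat_lit 115) (.e (nat_lit 393298) (nat_lit 27) (.e (nat_lit 491549) (nat_lit 9) .nil))) .nil)) 
(.lf (nat_lit 72174) (.g (nat_lit 522) (.e (nat_lit 1665) (nat_lit 115) (.e (nat_lit 393301) (nat_lit 27) (.e (nat_lit 491546) (nat_lit 9) .nil))) .nil)))) (.nd (nat_lit 5) (.nd (nat_lit 6) 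
(.lf (nat_lit 72094) (.g (nat_lit 2462) (.e (nat_lit 1665) (nat_lit 115) (.e (nat_lit 393294) (nat_lit 26) (.e (nat_lit 475211) (nat_lit 41) (.e (nat_lit 712745) (nat_lit 27) (.e (nat_lit 425984) (nat_lit 0) (.e (nat_lit 7489) (nat_lit 402) .nil)))))) (.g (nat_lit 4) .nil .nil))) 
(.lf (nat_lit 72158) (.g (nat_lit 1641) (.e (nat_lit 1665) (nat_lit 115) (.e (nat_lit 393301) (nat_lit 27) (.e (nat_lit 491526) (nat_lit 0) (.e (nat_lit 1798) (nat_lit 119) .nil)))) .nil))) (.nd (nat_lit 6) 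
(.lf (nat_lit 72126) (.g (nat_lit 1032) (.e (nat_lit 1665) (nat_lit 115) (.e (nat_lit 393299) (nat_lit 27) (.e (nat_lit 491568) (nat_lit 13) .nil))) .nil)) 
(.lf (nat_lit 72190) (.g (nat_lit 1917) (.e (nat_lit 1665) (nat_lit 115) (.e (nat_lit 393301) (nat_lit 27) (.e (nat_lit 491552) (nat_lit 9) (.e (nat_lit 336389) (nat_lit 27) (.e (nat_lit 426012) (nat_lit 0) .nil))))) .nil)))))))) (.nd (nat_lit 1) (.nd (nat_lit 2) (.nd (nat_lit 3) (.nd (nat_lit 4) (.nd (nat_lit 5) (.nd (nat_lit 6) 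
(.lf (nat_lit 72065) (.g (nat_lit 1977) (.e (nat_lit 1665) (nat_lit 115) (.e (nat_lit 393273) (nat_lit 23) (.e (nat_lit 426364) (nat_lit 15) (.e (nat_lit 2160) (nat_lit 143) (.e (nat_lit 712749) (nat_lit 28) (.e (nat_lit 442112) (nat_lit 0) .nil)))))) (.g (nat_lit 5) .nil .nil))) 
(.lf (nat_lit 72129) (.g (nat_lit 1520) (.e (nat_lit 1665) (nat_lit 115) (.e (nat_lit 393300) (nat_lit 27) (.e (nat_lit 491547) (nat_lit 9) (.e (nat_lit 336421) (nat_lit 28) .nil)))) .nil))) (.nd (nat_lit 6) 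
(.lf (nat_lit 72097) (.g (nat_lit 1655) (.e (nat_lit 1665) (nat_lit 115) (.e (nat_lit 393296) (nat_lit 26) (.e (nat_lit 475197) (nat_lit 40) (.e (nat_lit 704595) (nat_lit 5) (.e (nat_lit 188160) (nat_lit 32) .nil))))) (.g (nat_lit 4) .nil .nil))) 
(.lf (nat_lit 72161) (.g (nat_lit 1847) (.e (nat_lit 1665) (nat_lit 115) (.e (nat_lit 393301) (nat_lit 27) (.e (nat_lit 491526) (nat_lit 0) (.e (nat_lit 1848) (nat_lit 124) (.e (nat_lit 557104) (nat_lit 14) .nil))))) .nil)))) (.nd (nat_lit 5) (.nd (nat_lit 6) 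
(.lf (nat_lit 72081) (.g (nat_lit 3749) (.e (nat_lit 1665) (nat_lit 115) (.e (nat_lit 393291) (nat_lit 26) (.e (nat_lit 475210) (nat_lit 41) (.e (nat_lit 712745) (nat_lit 27) (.e (nat_lit 425984) (nat_lit 0) (.e (nat_lit 7489) (nat_lit 402) .nil)))))) (.g (nat_lit 5) .nil .nil))) 
(.lf (nat_lit 72145) (.g (nat_lit 2543) (.e (nat_lit 1665) (nat_lit 115) (.e (nat_lit 393300) (nat_lit 27) (.e (nat_lit 491570) (nat_lit 13) (.e (nat_lit 393232) (nat_lit 17) (.e (nat_lit 7490) (nat_lit 402) .nil))))) .nil))) (.nd (nat_lit 6) 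
(.lf (nat_lit 72113) (.g (nat_lit 2335) (.e (nat_lit 1665) (nat_lit 115) (.e (nat_lit 393298) (nat_lit 27) (.e (nat_lit 491550) (nat_lit 9) (.e (nat_lit 336414) (nat_lit 27) (.e (nat_lit 425984) (nat_lit 0) (.e (nat_lit 7489) (nat_lit 402) .nil)))))) (.g (nat_lit 4) .nil .nil))) 
(.lf (nat_lit 72177) (.g (nat_lit 1947) (.e (nat_lit 1665) (nat_lit 115) (.e (nat_lit 393301) (nat_lit 27) (.e (nat_lit 491547) (nat_lit 9) (.e (nat_lit 336421) (nat_lit 28) (.e (nat_lit 442112) (nat_lit 0) .nil))))) (.g (nat_lit 4) .nil .nil)))))) (.nd (nat_lit 4) (.nd (nat_lit 5) (.nd (nat_lit 6) 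
(.lf (nat_lit 72073) (.g (nat_lit 1655) (.e (nat_lit 1665) (nat_lit 115) (.e (nat_lit 393290) (nat_lit 26) (.e (nat_lit 475198) (nat_lit 40) (.e (nat_lit 704595) (nat_lit 5) (.e (nat_lit 188160) (nat_lit 32) .nil))))) .nil)) 
(.lf (nat_lit 72137) (.g (nat_lit 1870) (.e (nat_lit 1665) (nat_lit 115) (.e (nat_lit 393300) (nat_lit 27) (.e (nat_lit 491568) (nat_lit 13) (.e (nat_lit 393231) (nat_lit 17) .nil)))) .nil))) (.nd (nat_lit 6) 
(.lf (nat_lit 72105) (.g (nat_lit 749) (.e (nat_lit 1665) (nat_lit 115) (.e (nat_lit 393296) (nat_lit 26) (.e (nat_lit 475208) (nat_lit 41) (.e (nat_lit 712749) (nat_lit 28) .nil)))) .nil)) 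
(.lf (nat_lit 72169) (.g (nat_lit 1454) (.e (nat_lit 1665) (nat_lit 115) (.e (nat_lit 393301) (nat_lit 27) (.e (nat_lit 491538) (nat_lit 3) (.e (nat_lit 98342) (nat_lit 20) (.e (nat_lit 221218) (nat_lit 24) .nil))))) .nil)))) (.nd (nat_lit 5) (.nd (nat_lit 6) 
(.lf (nat_lit 72089) (.g (nat_lit 868) (.e (nat_lit 1665) (nat_lit 115) (.e (nat_lit 393294) (nat_lit 26) (.e (nat_lit 475198) (nat_lit 40) .nil))) .nil)) 
(.lf (nat_lit 72153) (.g (nat_lit 2330) (.e (nat_lit 1665) (nat_lit 115) (.e (nat_lit 393301) (nat_lit 27) (.e (nat_lit 491526) (nat_lit 0) (.e (nat_lit 1788) (nat_lit 119) (.e (nat_lit 516129) (nat_lit 3) (.e (nat_lit 221217) (nat_lit 24) (.e (nat_lit 220928) (nat_lit 0) .nil))))))) (.g (nat_lit 4) .nil .nil)))) (.nd (nat_lit 6) 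
(.lf (nat_lit 72121) (.g (nat_lit 2908) (.e (nat_lit 1665) (nat_lit 115) (.e (nat_lit 393298) (nat_lit 27) (.e (nat_lit 491571) (nat_lit 13) (.e (nat_lit 393232) (nat_lit 17) (.e (nat_lit 7486) (nat_lit 402) .nil))))) (.g (nat_lit 0) .nil .nil))) 
(.lf (nat_lit 72185) (.g (nat_lit 1703) (.e (nat_lit 1665) (nat_lit 115) (.e (nat_lit 393301) (nat_lit 27) (.e (nat_lit 491552) (nat_lit 9) (.e (nat_lit 336248) (nat_lit 15) (.e (nat_lit 7077) (nat_lit 378) (.e (nat_lit 57876) (nat_lit 270) .nil)))))) (.g (nat_lit 5) .nil .nil))))))) (.nd (nat_lit 3) (.nd (nat_lit 4) (.nd (nat_lit 5) (.nd (nat_lit 6) 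
(.lf (nat_lit 72069) (.g (nat_lit 1782) (.e (nat_lit 1665) (nat_lit 115) (.e (nat_lit 393281) (nat_lit 23) (.e (nat_lit 426116) (nat_lit 2) (.e (nat_lit 196656) (nat_lit 11) (.e (nat_lit 16392) (nat_lit 0) .nil))))) .nil)) 
(.lf (nat_lit 72133) (.g (nat_lit 3324) (.e (nat_lit 1665) (nat_lit 115) (.e (nat_lit 393300) (nat_lit 27) (.e (nat_lit 491549) (nat_lit 9) (.e (nat_lit 336414) (nat_lit 27) (.e (nat_lit 425987) (nat_lit 0) (.e (nat_lit 7489) (nat_lit 402) .nil)))))) (.g (nat_lit 5) .nil .nil)))) (.nd (nat_lit 6) 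
(.lf (nat_lit 72101) (.g (nat_lit 785) (.e (nat_lit 1665) (nat_lit 115) (.e (nat_lit 393296) (nat_lit 26) (.e (nat_lit 475207) (nat_lit 41) (.e (nat_lit 712748) (nat_lit 28) .nil)))) .nil)) 
(.lf (nat_lit 72165) (.g (nat_lit 2170) (.e (nat_lit 1665) (nat_lit 115) (.e (nat_lit 393301) (nat_lit 27) (.e (nat_lit 491535) (nat_lit 2) (.e (nat_lit 90165) (nat_lit 12) (.e (nat_lit 164050) (nat_lit 55) .nil))))) .nil)))) (.nd (nat_lit 5) (.nd (nat_lit 6) 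
(.lf (nat_lit 72085) (.g (nat_lit 2007) (.e (nat_lit 1665) (nat_lit 115) (.e (nat_lit 393293) (nat_lit 26) (.e (nat_lit 475198) (nat_lit 40) (.e (nat_lit 704595) (nat_lit 5) (.e (nat_lit 188160) (nat_lit 32) .nil))))) (.g (nat_lit 4) .nil .nil))) 
(.lf (nat_lit 72149) (.g (nat_lit 916) (.e (nat_lit 1665) (nat_lit 115) (.e (nat_lit 393301) (nat_lit 27) (.e (nat_lit 491520) (nat_lit 0) .nil))) .nil))) (.nd (nat_lit 6) 
(.lf (nat_lit 72117) (.g (nat_lit 418) (.e (nat_lit 1665) (nat_lit 115) (.e (nat_lit 393298) (nat_lit 27) (.e (nat_lit 491570) (nat_lit 13) .nil))) .nil)) 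
(.lf (nat_lit 72181) (.g (nat_lit 2011) (.e (nat_lit 1665) (nat_lit 115) (.e (nat_lit 393301) (nat_lit 27) (.e (nat_lit 491551) (nat_lit 9) (.e (nat_lit 336358) (nat_lit 25) (.e (nat_lit 409602) (nat_lit 0) (.e (nat_lit 5245) (nat_lit 298) .nil)))))) (.g (nat_lit 5) .nil .nil)))))) (.nd (nat_lit 4) (.nd (nat_lit 5) (.nd (nat_lit 6) 
(.lf (nat_lit 72077) (.g (nat_lit 1874) (.e (nat_lit 1665) (nat_lit 115) (.e (nat_lit 393290) (nat_lit 26) (.e (nat_lit 475211) (nat_lit 41) (.e (nat_lit 712745) (nat_lit 27) (.e (nat_lit 425984) (nat_lit 0) (.e (nat_lit 7489) (nat_lit 402) .nil)))))) (.g (nat_lit 4) .nil .nil))) 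
(.lf (nat_lit 72141) (.g (nat_lit 2387) (.e (nat_lit 1665) (nat_lit 115) (.e (nat_lit 393300) (nat_lit 27) (.e (nat_lit 491569) (nat_lit 13) (.e (nat_lit 393234) (nat_lit 17) (.e (nat_lit 7490) (nat_lit 402) .nil))))) (.g (nat_lit 4) .nil .nil)))) (.nd (nat_lit 6) 
(.lf (nat_lit 72109) (.g (nat_lit 1872) (.e (nat_lit 1665) (nat_lit 115) (.e (nat_lit 393297) (nat_lit 27) (.e (nat_lit 491571) (nat_lit 13) (.e (nat_lit 393232) (nat_lit 17) (.e (nat_lit 7490) (nat_lit 402) .nil))))) .nil)) 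
(.lf (nat_lit 72173) (.g (nat_lit 2228) (.e (nat_lit 1665) (nat_lit 115) (.e (nat_lit 393301) (nat_lit 27) (.e (nat_lit 491539) (nat_lit 3) (.e (nat_lit 98339) (nat_lit 19) (.e (nat_lit 213035) (nat_lit 12) (.e (nat_lit 164042) (nat_lit 55) (.e (nat_lit 778246) (nat_lit 0) .nil))))))) (.g (nat_lit 4) .nil .nil))))) (.nd (nat_lit 5) (.nd (nat_lit 6) 
(.lf (nat_lit 72093) (.g (nat_lit 3258) (.e (nat_lit 1665) (nat_lit 115) (.e (nat_lit 393294) (nat_lit 26) (.e (nat_lit 475210) (nat_lit 41) (.e (nat_lit 712745) (nat_lit 27) (.e (nat_lit 425984) (nat_lit 0) .nil))))) .nil)) 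
(.lf (nat_lit 72157) (.g (nat_lit 2210) (.e (nat_lit 1665) (nat_lit 115) (.e (nat_lit 393301) (nat_lit 27) (.e (nat_lit 491526) (nat_lit 0) (.e (nat_lit 1788) (nat_lit 119) (.e (nat_lit 516131) (nat_lit 3) (.e (nat_lit 221219) (nat_lit 24) (.e (nat_lit 220928) (nat_lit 0) .nil))))))) (.g (nat_lit 4) .nil .nil)))) (.nd (nat_lit 6) 
(.lf (nat_lit 72125) (.g (nat_lit 840) (.e (nat_lit 1665) (nat_lit 115) (.e (nat_lit 393299) (nat_lit 27) (.e (nat_lit 491549) (nat_lit 9) .nil))) .nil)) 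
(.lf (nat_lit 72189) (.g (nat_lit 1753) (.e (nat_lit 1665) (nat_lit 115) (.e (nat_lit 393301) (nat_lit 27) (.e (nat_lit 491552) (nat_lit 9) (.e (nat_lit 336363) (nat_lit 26) (.e (nat_lit 417796) (nat_lit 0) (.e (nat_lit 5258) (nat_lit 298) .nil)))))) (.g (nat_lit 5) .nil .nil)))))))) (.nd (nat_lit 2) (.nd (nat_lit 3) (.nd (nat_lit 4) (.nd (nat_lit 5) (.nd (nat_lit 6) 
(.lf (nat_lit 72067) (.g (nat_lit 596) (.e (nat_lit 1665) (nat_lit 115) (.e (nat_lit 393279) (nat_lit 23) (.e (nat_lit 426419) (nat_lit 15) (.e (nat_lit 2059) (nat_lit 142) .nil)))) .nil)) 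
(.lf (nat_lit 72131) (.g (nat_lit 1804) (.e (nat_lit 1665) (nat_lit 115) (.e (nat_lit 393300) (nat_lit 27) (.e (nat_lit 491549) (nat_lit 9) (.e (nat_lit 336414) (nat_lit 27) .nil)))) .nil))) (.nd (nat_lit 6) 
(.lf (nat_lit 72099) (.g (nat_lit 1697) (.e (nat_lit 1665) (nat_lit 115) (.e (nat_lit 393296) (nat_lit 26) (.e (nat_lit 475198) (nat_lit 40) (.e (nat_lit 704596) (nat_lit 5) (.e (nat_lit 188160) (nat_lit 32) .nil))))) .nil)) 
(.lf (nat_lit 72163) (.g (nat_lit 1755) (.e (nat_lit 1665) (nat_lit 115) (.e (nat_lit 393301) (nat_lit 27) (.e (nat_lit 491530) (nat_lit 0) (.e (nat_lit 1796) (nat_lit 119) (.e (nat_lit 516131) (nat_lit 3) (.e (nat_lit 221219) (nat_lit 24) (.e (nat_lit 220928) (nat_lit 0) .nil))))))) (.g (nat_lit 4) .nil .nil))))) (.nd (nat_lit 5) (.nd (nat_lit 6) 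
(.lf (nat_lit 72083) (.g (nat_lit 708) (.e (nat_lit 1665) (nat_lit 115) (.e (nat_lit 393293) (nat_lit 26) (.e (nat_lit 475196) (nat_lit 40) (.e (nat_lit 704596) (nat_lit 5) .nil)))) .nil)) 
(.lf (nat_lit 72147) (.g (nat_lit 1552) (.e (nat_lit 1665) (nat_lit 115) (.e (nat_lit 393300) (nat_lit 27) (.e (nat_lit 491570) (nat_lit 13) (.e (nat_lit 393242) (nat_lit 17) .nil)))) .nil))) (.nd (nat_lit 6) 
(.lf (nat_lit 72115) (.g (nat_lit 1990) (.e (nat_lit 1665) (nat_lit 115) (.e (nat_lit 393298) (nat_lit 27) (.e (nat_lit 491550) (nat_lit 9) (.e (nat_lit 336421) (nat_lit 28) (.e (nat_lit 442112) (nat_lit 0) .nil))))) (.g (nat_lit 4) .nil .nil))) 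
(.lf (nat_lit 72179) (.g (nat_lit 2064) (.e (nat_lit 1665) (nat_lit 115) (.e (nat_lit 393301) (nat_lit 27) (.e (nat_lit 491547) (nat_lit 9) (.e (nat_lit 336438) (nat_lit 31) (.e (nat_lit 466688) (nat_lit 0) .nil))))) (.g (nat_lit 4) .nil .nil)))))) (.nd (nat_lit 4) (.nd (nat_lit 5) (.nd (nat_lit 6) 
(.lf (nat_lit 72075) (.g (nat_lit 1334) (.e (nat_lit 1665) (nat_lit 115) (.e (nat_lit 393290) (nat_lit 26) (.e (nat_lit 475199) (nat_lit 40) (.e (nat_lit 704595) (nat_lit 5) (.e (nat_lit 188160) (nat_lit 32) .nil))))) .nil)) 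
(.lf (nat_lit 72139) (.g (nat_lit 1694) (.e (nat_lit 1665) (nat_lit 115) (.e (nat_lit 393300) (nat_lit 27) (.e (nat_lit 491568) (nat_lit 13) (.e (nat_lit 393234) (nat_lit 17) .nil)))) .nil))) (.nd (nat_lit 6) 
(.lf (nat_lit 72107) (.g (nat_lit 969) (.e (nat_lit 1665) (nat_lit 115) (.e (nat_lit 393296) (nat_lit 26) (.e (nat_lit 475209) (nat_lit 41) (.e (nat_lit 712747) (nat_lit 28) .nil)))) .nil)) 
(.lf (nat_lit 72171) (.g (nat_lit 999) (.e (nat_lit 1665) (nat_lit 115) (.e (nat_lit 393301) (nat_lit 27) (.e (nat_lit 491539) (nat_lit 3) .nil))) .nil)))) (.nd (nat_lit 5) (.nd (nat_lit 6) 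
(.lf (nat_lit 72091) (.g (nat_lit 1983) (.e (nat_lit 1665) (nat_lit 115) (.e (nat_lit 393294) (nat_lit 26) (.e (nat_lit 475199) (nat_lit 40) (.e (nat_lit 704595) (nat_lit 5) (.e (nat_lit 188160) (nat_lit 32) .nil))))) (.g (nat_lit 4) .nil .nil))) 
(.lf (nat_lit 72155) (.g (nat_lit 2770) (.e (nat_lit 1665) (nat_lit 115) (.e (nat_lit 393301) (nat_lit 27) (.e (nat_lit 491526) (nat_lit 0) (.e (nat_lit 1788) (nat_lit 119) (.e (nat_lit 516130) (nat_lit 3) (.e (nat_lit 221219) (nat_lit 24) (.e (nat_lit 220928) (nat_lit 0) .nil))))))) (.g (nat_lit 5) .nil .nil)))) (.nd (nat_lit 6) 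
(.lf (nat_lit 72123) (.g (nat_lit 2236) (.e (nat_lit 1665) (nat_lit 115) (.e (nat_lit 393298) (nat_lit 27) (.e (nat_lit 491571) (nat_lit 13) (.e (nat_lit 393238) (nat_lit 17) (.e (nat_lit 7936) (nat_lit 402) .nil))))) .nil)) 
(.lf (nat_lit 72187) (.g (nat_lit 2535) (.e (nat_lit 1665) (nat_lit 115) (.e (nat_lit 393301) (nat_lit 27) (.e (nat_lit 491552) (nat_lit 9) (.e (nat_lit 336358) (nat_lit 25) (.e (nat_lit 409602) (nat_lit 0) (.e (nat_lit 5245) (nat_lit 298) .nil)))))) (.g (nat_lit 0) .nil .nil))))))) (.nd (nat_lit 3) (.nd (nat_lit 4) (.nd (nat_lit 5) (.nd (nat_lit 6) 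
(.lf (nat_lit 72071) (.g (nat_lit 1173) (.e (nat_lit 1665) (nat_lit 115) (.e (nat_lit 393289) (nat_lit 25) (.e (nat_lit 458774) (nat_lit 18) (.e (nat_lit 5548) (nat_lit 306) (.e (nat_lit 2638) (nat_lit 165) .nil))))) .nil)) 
(.lf (nat_lit 72135) (.g (nat_lit 1925) (.e (nat_lit 1665) (nat_lit 115) (.e (nat_lit 393300) (nat_lit 27) (.e (nat_lit 491549) (nat_lit 9) (.e (nat_lit 336438) (nat_lit 31) .nil)))) .nil))) (.nd (nat_lit 6) 
(.lf (nat_lit 72103) (.g (nat_lit 605) (.e (nat_lit 1665) (nat_lit 115) (.e (nat_lit 393296) (nat_lit 26) (.e (nat_lit 475208) (nat_lit 41) .nil))) .nil)) 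
(.lf (nat_lit 72167) (.g (nat_lit 564) (.e (nat_lit 1665) (nat_lit 115) (.e (nat_lit 393301) (nat_lit 27) (.e (nat_lit 491538) (nat_lit 3) .nil))) .nil)))) (.nd (nat_lit 5) (.nd (nat_lit 6) 
(.lf (nat_lit 72087) (.g (nat_lit 1128) (.e (nat_lit 1665) (nat_lit 115) (.e (nat_lit 393293) (nat_lit 26) (.e (nat_lit 475205) (nat_lit 40) (.e (nat_lit 704594) (nat_lit 5) (.e (nat_lit 188160) (nat_lit 32) .nil))))) (.g (nat_lit 4) .nil .nil))) 
(.lf (nat_lit 72151) (.g (nat_lit 1380) (.e (nat_lit 1665) (nat_lit 115) (.e (nat_lit 393301) (nat_lit 27) (.e (nat_lit 491526) (nat_lit 0) (.e (nat_lit 1788) (nat_lit 119) .nil)))) .nil))) (.nd (nat_lit 6) 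
(.lf (nat_lit 72119) (.g (nat_lit 2049) (.e (nat_lit 1665) (nat_lit 115) (.e (nat_lit 393298) (nat_lit 27) (.e (nat_lit 491570) (nat_lit 13) (.e (nat_lit 393238) (nat_lit 17) (.e (nat_lit 7936) (nat_lit 402) .nil))))) (.g (nat_lit 4) .nil .nil))) 
(.lf (nat_lit 72183) (.g (nat_lit 410) (.e (nat_lit 1665) (nat_lit 115) (.e (nat_lit 393301) (nat_lit 27) (.e (nat_lit 491552) (nat_lit 9) .nil))) .nil))))) (.nd (nat_lit 4) (.nd (nat_lit 5) (.nd (nat_lit 6) 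
(.lf (nat_lit 72079) (.g (nat_lit 2149) (.e (nat_lit 1665) (nat_lit 115) (.e (nat_lit 393291) (nat_lit 26) (.e (nat_lit 475199) (nat_lit 40) (.e (nat_lit 704595) (nat_lit 5) (.e (nat_lit 188160) (nat_lit 32) .nil))))) .nil)) 
(.lf (nat_lit 72143) (.g (nat_lit 1846) (.e (nat_lit 1665) (nat_lit 115) (.e (nat_lit 393300) (nat_lit 27) (.e (nat_lit 491570) (nat_lit 13) (.e (nat_lit 393231) (nat_lit 17) .nil)))) .nil))) (.nd (nat_lit 6) 
(.lf (nat_lit 72111) (.g (nat_lit 1402) (.e (nat_lit 1665) (nat_lit 115) (.e (nat_lit 393298) (nat_lit 27) (.e (nat_lit 491549) (nat_lit 9) (.e (nat_lit 336421) (nat_lit 28) .nil)))) .nil)) 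
(.lf (nat_lit 72175) (.g (nat_lit 1408) (.e (nat_lit 1665) (nat_lit 115) (.e (nat_lit 393301) (nat_lit 27) (.e (nat_lit 491546) (nat_lit 9) (.e (nat_lit 336412) (nat_lit 27) .nil)))) .nil)))) (.nd (nat_lit 5) (.nd (nat_lit 6) 
(.lf (nat_lit 72095) (.g (nat_lit 1564) (.e (nat_lit 1665) (nat_lit 115) (.e (nat_lit 393295) (nat_lit 26) (.e (nat_lit 475199) (nat_lit 40) (.e (nat_lit 704595) (nat_lit 5) (.e (nat_lit 188160) (nat_lit 32) .nil))))) (.g (nat_lit 4) .nil .nil))) 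
(.lf (nat_lit 72159) (.g (nat_lit 1602) (.e (nat_lit 1665) (nat_lit 115) (.e (nat_lit 393301) (nat_lit 27) (.e (nat_lit 491526) (nat_lit 0) (.e (nat_lit 1799) (nat_lit 119) .nil)))) .nil))) (.nd (nat_lit 6) 
(.lf (nat_lit 72127) (.g (nat_lit 865) (.e (nat_lit 1665) (nat_lit 115) (.e (nat_lit 393299) (nat_lit 27) (.e (nat_lit 491569) (nat_lit 13) .nil))) .nil)) 
(.lf (nat_lit 72191) (.g (nat_lit 1008) (.e (nat_lit 1665) (nat_lit 115) (.e (nat_lit 393301) (nat_lit 27) (.e (nat_lit 491552) (nat_lit 9) (.e (nat_lit 336412) (nat_lit 27) .nil)))) .nil)))))))))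

noncomputable def tv983 : DT := (.nd (nat_lit 0) (.nd (nat_lit 1) (.nd (nat_lit 2) (.nd (nat_lit 3) (.nd (nat_lit 4) (.nd (nat_lit 5) (.nd (nat_lit 6) 
(.lf (nat_lit 72192) (.g (nat_lit 1234) (.e (nat_lit 1665) (nat_lit 115) (.e (nat_lit 393301) (nat_lit 27) (.e (nat_lit 491552) (nat_lit 9) (.e (nat_lit 336412) (nat_lit 27) (.e (nat_lit 426009) (nat_lit 0) .nil))))) .nil)) 
(.lf (nat_lit 72256) (.g (nat_lit 2570) (.e (nat_lit 1665) (nat_lit 115) (.e (nat_lit 393301) (nat_lit 27) (.e (nat_lit 491559) (nat_lit 10) (.e (nat_lit 344175) (nat_lit 43) .nil)))) .nil))) (.nd (nat_lit 6) 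
(.lf (nat_lit 72224) (.g (nat_lit 1972) (.e (nat_lit 1665) (nat_lit 115) (.e (nat_lit 393301) (nat_lit 27) (.e (nat_lit 491558) (nat_lit 10) (.e (nat_lit 344095) (nat_lit 18) (.e (nat_lit 7261) (nat_lit 384) .nil))))) .nil)) 
(.lf (nat_lit 72288) (.g (nat_lit 2984) (.e (nat_lit 1665) (nat_lit 115) (.e (nat_lit 393301) (nat_lit 27) (.e (nat_lit 491560) (nat_lit 10) (.e (nat_lit 344096) (nat_lit 18) (.e (nat_lit 7125) (nat_lit 382) .nil))))) .nil)))) (.nd (nat_lit 5) (.nd (nat_lit 6) 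
(.lf (nat_lit 72208) (.g (nat_lit 2601) (.e (nat_lit 1665) (nat_lit 115) (.e (nat_lit 393301) (nat_lit 27) (.e (nat_lit 491558) (nat_lit 10) (.e (nat_lit 344090) (nat_lit 18) (.e (nat_lit 7124) (nat_lit 382) (.e (nat_lit 1183) (nat_lit 87) (.e (nat_lit 65280) (nat_lit 187) .nil))))))) (.g (nat_lit 4) .nil .nil))) 
(.lf (nat_lit 72272) (.g (nat_lit 2526) (.e (nat_lit 1665) (nat_lit 115) (.e (nat_lit 393301) (nat_lit 27) (.e (nat_lit 491560) (nat_lit 10) (.e (nat_lit 344091) (nat_lit 18) .nil)))) .nil))) (.nd (nat_lit 6) 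
(.lf (nat_lit 72240) (.g (nat_lit 3119) (.e (nat_lit 1665) (nat_lit 115) (.e (nat_lit 393301) (nat_lit 27) (.e (nat_lit 491559) (nat_lit 10) (.e (nat_lit 344090) (nat_lit 18) (.e (nat_lit 7124) (nat_lit 382) .nil))))) .nil)) 
(.lf (nat_lit 72304) (.g (nat_lit 2205) (.e (nat_lit 1665) (nat_lit 115) (.e (nat_lit 393301) (nat_lit 27) (.e (nat_lit 491563) (nat_lit 12) (.e (nat_lit 385035) (nat_lit 16) .nil)))) .nil))))) (.nd (nat_lit 4) (.nd (nat_lit 5) (.nd (nat_lit 6) 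
(.lf (nat_lit 72200) (.g (nat_lit 3887) (.e (nat_lit 1665) (nat_lit 115) (.e (nat_lit 393301) (nat_lit 27) (.e (nat_lit 491556) (nat_lit 9) (.e (nat_lit 336390) (nat_lit 27) (.e (nat_lit 426011) (nat_lit 0) (.e (nat_lit 7490) (nat_lit 402) .nil)))))) (.g (nat_lit 6) .nil .nil))) 
(.lf (nat_lit 72264) (.g (nat_lit 3100) (.e (nat_lit 1665) (nat_lit 115) (.e (nat_lit 393301) (nat_lit 27) (.e (nat_lit 491560) (nat_lit 10) (.e (nat_lit 344090) (nat_lit 18) (.e (nat_lit 7122) (nat_lit 382) (.e (nat_lit 1183) (nat_lit 87) (.e (nat_lit 65280) (nat_lit 187) .nil))))))) (.g (nat_lit 4) .nil .nil)))) (.nd (nat_lit 6) 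
(.lf (nat_lit 72232) (.g (nat_lit 2547) (.e (nat_lit 1665) (nat_lit 115) (.e (nat_lit 393301) (nat_lit 27) (.e (nat_lit 491558) (nat_lit 10) (.e (nat_lit 344096) (nat_lit 18) (.e (nat_lit 7261) (nat_lit 384) (.e (nat_lit 57346) (nat_lit 0) (.e (nat_lit 6436) (nat_lit 343) .nil))))))) (.g (nat_lit 4) .nil .nil))) 
(.lf (nat_lit 72296) (.g (nat_lit 2012) (.e (nat_lit 1665) (nat_lit 115) (.e (nat_lit 393301) (nat_lit 27) (.e (nat_lit 491560) (nat_lit 10) (.e (nat_lit 344175) (nat_lit 43) .nil)))) .nil)))) (.nd (nat_lit 5) (.nd (nat_lit 6) 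
(.lf (nat_lit 72216) (.g (nat_lit 2291) (.e (nat_lit 1665) (nat_lit 115) (.e (nat_lit 393301) (nat_lit 27) (.e (nat_lit 491558) (nat_lit 10) (.e (nat_lit 344091) (nat_lit 18) (.e (nat_lit 7261) (nat_lit 384) .nil))))) .nil)) 
(.lf (nat_lit 72280) (.g (nat_lit 3715) (.e (nat_lit 1665) (nat_lit 115) (.e (nat_lit 393301) (nat_lit 27) (.e (nat_lit 491560) (nat_lit 10) (.e (nat_lit 344094) (nat_lit 18) (.e (nat_lit 7263) (nat_lit 384) (.e (nat_lit 57354) (nat_lit 0) (.e (nat_lit 7936) (nat_lit 343) .nil))))))) (.g (nat_lit 6) .nil .nil)))) (.nd (nat_lit 6) 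
(.lf (nat_lit 72248) (.g (nat_lit 3111) (.e (nat_lit 1665) (nat_lit 115) (.e (nat_lit 393301) (nat_lit 27) (.e (nat_lit 491559) (nat_lit 10) (.e (nat_lit 344091) (nat_lit 18) (.e (nat_lit 7265) (nat_lit 384) (.e (nat_lit 57346) (nat_lit 0) (.e (nat_lit 6436) (nat_lit 343) .nil))))))) (.g (nat_lit 4) .nil .nil))) 
(.lf (nat_lit 72312) (.g (nat_lit 2519) (.e (nat_lit 1665) (nat_lit 115) (.e (nat_lit 393301) (nat_lit 27) (.e (nat_lit 491568) (nat_lit 13) (.e (nat_lit 393233) (nat_lit 17) (.e (nat_lit 7486) (nat_lit 402) .nil))))) (.g (nat_lit 0) .nil .nil))))))) (.nd (nat_lit 3) (.nd (nat_lit 4) (.nd (nat_lit 5) (.nd (nat_lit 6) 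
(.lf (nat_lit 72196) (.g (nat_lit 517) (.e (nat_lit 1665) (nat_lit 115) (.e (nat_lit 393301) (nat_lit 27) (.e (nat_lit 491556) (nat_lit 9) .nil))) .nil)) 
(.lf (nat_lit 72260) (.g (nat_lit 4374) (.e (nat_lit 1665) (nat_lit 115) (.e (nat_lit 393301) (nat_lit 27) (.e (nat_lit 491559) (nat_lit 10) (.e (nat_lit 344177) (nat_lit 43) (.e (nat_lit 770069) (nat_lit 7) (.e (nat_lit 65280) (nat_lit 187) .nil)))))) (.g (nat_lit 5) .nil .nil)))) (.nd (nat_lit 6) 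
(.lf (nat_lit 72228) (.g (nat_lit 3410) (.e (nat_lit 1665) (nat_lit 115) (.e (nat_lit 393301) (nat_lit 27) (.e (nat_lit 491558) (nat_lit 10) (.e (nat_lit 344096) (nat_lit 18) (.e (nat_lit 7122) (nat_lit 382) (.e (nat_lit 1183) (nat_lit 87) (.e (nat_lit 65280) (nat_lit 187) .nil))))))) (.g (nat_lit 5) .nil .nil))) 
(.lf (nat_lit 72292) (.g (nat_lit 2381) (.e (nat_lit 1665) (nat_lit 115) (.e (nat_lit 393301) (nat_lit 27) (.e (nat_lit 491560) (nat_lit 10) (.e (nat_lit 344097) (nat_lit 18) .nil)))) .nil)))) (.nd (nat_lit 5) (.nd (nat_lit 6) 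
(.lf (nat_lit 72212) (.g (nat_lit 2852) (.e (nat_lit 1665) (nat_lit 115) (.e (nat_lit 393301) (nat_lit 27) (.e (nat_lit 491558) (nat_lit 10) (.e (nat_lit 344090) (nat_lit 18) (.e (nat_lit 7265) (nat_lit 384) (.e (nat_lit 57347) (nat_lit 0) (.e (nat_lit 7936) (nat_lit 343) .nil))))))) (.g (nat_lit 5) .nil .nil))) 
(.lf (nat_lit 72276) (.g (nat_lit 2678) (.e (nat_lit 1665) (nat_lit 115) (.e (nat_lit 393301) (nat_lit 27) (.e (nat_lit 491560) (nat_lit 10) (.e (nat_lit 344093) (nat_lit 18) .nil)))) .nil))) (.nd (nat_lit 6) 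
(.lf (nat_lit 72244) (.g (nat_lit 3180) (.e (nat_lit 1665) (nat_lit 115) (.e (nat_lit 393301) (nat_lit 27) (.e (nat_lit 491559) (nat_lit 10) (.e (nat_lit 344091) (nat_lit 18) (.e (nat_lit 7125) (nat_lit 382) (.e (nat_lit 1183) (nat_lit 87) (.e (nat_lit 65280) (nat_lit 187) .nil))))))) (.g (nat_lit 4) .nil .nil))) 
(.lf (nat_lit 72308) (.g (nat_lit 2428) (.e (nat_lit 1665) (nat_lit 115) (.e (nat_lit 393301) (nat_lit 27) (.e (nat_lit 491567) (nat_lit 13) (.e (nat_lit 393234) (nat_lit 17) (.e (nat_lit 7486) (nat_lit 402) .nil))))) (.g (nat_lit 0) .nil .nil)))))) (.nd (nat_lit 4) (.nd (nat_lit 5) (.nd (nat_lit 6) 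
(.lf (nat_lit 72204) (.g (nat_lit 1941) (.e (nat_lit 1665) (nat_lit 115) (.e (nat_lit 393301) (nat_lit 27) (.e (nat_lit 491556) (nat_lit 9) (.e (nat_lit 336435) (nat_lit 31) .nil)))) .nil)) 
(.lf (nat_lit 72268) (.g (nat_lit 3173) (.e (nat_lit 1665) (nat_lit 115) (.e (nat_lit 393301) (nat_lit 27) (.e (nat_lit 491560) (nat_lit 10) (.e (nat_lit 344090) (nat_lit 18) (.e (nat_lit 7261) (nat_lit 384) (.e (nat_lit 57346) (nat_lit 0) (.e (nat_lit 6436) (nat_lit 343) .nil))))))) (.g (nat_lit 4) .nil .nil)))) (.nd (nat_lit 6) 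
(.lf (nat_lit 72236) (.g (nat_lit 1715) (.e (nat_lit 1665) (nat_lit 115) (.e (nat_lit 393301) (nat_lit 27) (.e (nat_lit 491558) (nat_lit 10) (.e (nat_lit 344097) (nat_lit 18) .nil)))) .nil)) 
(.lf (nat_lit 72300) (.g (nat_lit 2267) (.e (nat_lit 1665) (nat_lit 115) (.e (nat_lit 393301) (nat_lit 27) (.e (nat_lit 491560) (nat_lit 10) (.e (nat_lit 352000) (nat_lit 46) .nil)))) .nil)))) (.nd (nat_lit 5) (.nd (nat_lit 6) 
(.lf (nat_lit 72220) (.g (nat_lit 2422) (.e (nat_lit 1665) (nat_lit 115) (.e (nat_lit 393301) (nat_lit 27) (.e (nat_lit 491558) (nat_lit 10) (.e (nat_lit 344091) (nat_lit 18) (.e (nat_lit 7265) (nat_lit 384) (.e (nat_lit 57346) (nat_lit 0) (.e (nat_lit 6436) (nat_lit 343) .nil))))))) (.g (nat_lit 4) .nil .nil))) 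
(.lf (nat_lit 72284) (.g (nat_lit 2651) (.e (nat_lit 1665) (nat_lit 115) (.e (nat_lit 393301) (nat_lit 27) (.e (nat_lit 491560) (nat_lit 10) (.e (nat_lit 344095) (nat_lit 18) .nil)))) .nil))) (.nd (nat_lit 6) 
(.lf (nat_lit 72252) (.g (nat_lit 2557) (.e (nat_lit 1665) (nat_lit 115) (.e (nat_lit 393301) (nat_lit 27) (.e (nat_lit 491559) (nat_lit 10) (.e (nat_lit 344096) (nat_lit 18) .nil)))) .nil)) 
(.lf (nat_lit 72316) (.g (nat_lit 2310) (.e (nat_lit 1665) (nat_lit 115) (.e (nat_lit 393301) (nat_lit 27) (.e (nat_lit 491568) (nat_lit 13) (.e (nat_lit 393236) (nat_lit 17) .nil)))) .nil))))))) (.nd (nat_lit 2) (.nd (nat_lit 3) (.nd (nat_lit 4) (.nd (nat_lit 5) (.nd (nat_lit 6) 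
(.lf (nat_lit 72194) (.g (nat_lit 2333) (.e (nat_lit 1665) (nat_lit 115) (.e (nat_lit 393301) (nat_lit 27) (.e (nat_lit 491552) (nat_lit 9) (.e (nat_lit 336412) (nat_lit 27) (.e (nat_lit 426012) (nat_lit 0) (.e (nat_lit 7486) (nat_lit 402) .nil)))))) (.g (nat_lit 0) .nil .nil))) 
(.lf (nat_lit 72258) (.g (nat_lit 3950) (.e (nat_lit 1665) (nat_lit 115) (.e (nat_lit 393301) (nat_lit 27) (.e (nat_lit 491559) (nat_lit 10) (.e (nat_lit 344177) (nat_lit 43) (.e (nat_lit 770067) (nat_lit 7) (.e (nat_lit 65280) (nat_lit 187) .nil)))))) (.g (nat_lit 4) .nil .nil)))) (.nd (nat_lit 6) 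
(.lf (nat_lit 72226) (.g (nat_lit 3261) (.e (nat_lit 1665) (nat_lit 115) (.e (nat_lit 393301) (nat_lit 27) (.e (nat_lit 491558) (nat_lit 10) (.e (nat_lit 344095) (nat_lit 18) (.e (nat_lit 7263) (nat_lit 384) (.e (nat_lit 57354) (nat_lit 0) (.e (nat_lit 7936) (nat_lit 343) .nil))))))) (.g (nat_lit 6) .nil .nil))) 
(.lf (nat_lit 72290) (.g (nat_lit 3550) (.e (nat_lit 1665) (nat_lit 115) (.e (nat_lit 393301) (nat_lit 27) (.e (nat_lit 491560) (nat_lit 10) (.e (nat_lit 344096) (nat_lit 18) (.e (nat_lit 7265) (nat_lit 384) (.e (nat_lit 57347) (nat_lit 0) (.e (nat_lit 7936) (nat_lit 343) .nil))))))) (.g (nat_lit 5) .nil .nil))))) (.nd (nat_lit 5) (.nd (nat_lit 6) 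
(.lf (nat_lit 72210) (.g (nat_lit 2248) (.e (nat_lit 1665) (nat_lit 115) (.e (nat_lit 393301) (nat_lit 27) (.e (nat_lit 491558) (nat_lit 10) (.e (nat_lit 344090) (nat_lit 18) (.e (nat_lit 7261) (nat_lit 384) (.e (nat_lit 57346) (nat_lit 0) (.e (nat_lit 6436) (nat_lit 343) .nil))))))) (.g (nat_lit 4) .nil .nil))) 
(.lf (nat_lit 72274) (.g (nat_lit 3191) (.e (nat_lit 1665) (nat_lit 115) (.e (nat_lit 393301) (nat_lit 27) (.e (nat_lit 491560) (nat_lit 10) (.e (nat_lit 344091) (nat_lit 18) (.e (nat_lit 7265) (nat_lit 384) (.e (nat_lit 57347) (nat_lit 0) (.e (nat_lit 7936) (nat_lit 343) .nil))))))) (.g (nat_lit 4) .nil .nil)))) (.nd (nat_lit 6) 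
(.lf (nat_lit 72242) (.g (nat_lit 3142) (.e (nat_lit 1665) (nat_lit 115) (.e (nat_lit 393301) (nat_lit 27) (.e (nat_lit 491559) (nat_lit 10) (.e (nat_lit 344090) (nat_lit 18) (.e (nat_lit 7265) (nat_lit 384) .nil))))) .nil)) 
(.lf (nat_lit 72306) (.g (nat_lit 1380) (.e (nat_lit 1665) (nat_lit 115) (.e (nat_lit 393301) (nat_lit 27) (.e (nat_lit 491567) (nat_lit 13) (.e (nat_lit 393232) (nat_lit 17) .nil)))) .nil))))) (.nd (nat_lit 4) (.nd (nat_lit 5) (.nd (nat_lit 6) 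
(.lf (nat_lit 72202) (.g (nat_lit 2761) (.e (nat_lit 1665) (nat_lit 115) (.e (nat_lit 393301) (nat_lit 27) (.e (nat_lit 491556) (nat_lit 9) (.e (nat_lit 336390) (nat_lit 27) (.e (nat_lit 426012) (nat_lit 0) (.e (nat_lit 7490) (nat_lit 402) .nil)))))) (.g (nat_lit 5) .nil .nil))) 
(.lf (nat_lit 72266) (.g (nat_lit 3156) (.e (nat_lit 1665) (nat_lit 115) (.e (nat_lit 393301) (nat_lit 27) (.e (nat_lit 491560) (nat_lit 10) (.e (nat_lit 344090) (nat_lit 18) (.e (nat_lit 7125) (nat_lit 382) (.e (nat_lit 1183) (nat_lit 87) (.e (nat_lit 65280) (nat_lit 187) .nil))))))) (.g (nat_lit 4) .nil .nil)))) (.nd (nat_lit 6) 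
(.lf (nat_lit 72234) (.g (nat_lit 2510) (.e (nat_lit 1665) (nat_lit 115) (.e (nat_lit 393301) (nat_lit 27) (.e (nat_lit 491558) (nat_lit 10) (.e (nat_lit 344096) (nat_lit 18) (.e (nat_lit 7265) (nat_lit 384) (.e (nat_lit 57346) (nat_lit 0) (.e (nat_lit 6436) (nat_lit 343) .nil))))))) (.g (nat_lit 4) .nil .nil))) 
(.lf (nat_lit 72298) (.g (nat_lit 2172) (.e (nat_lit 1665) (nat_lit 115) (.e (nat_lit 393301) (nat_lit 27) (.e (nat_lit 491560) (nat_lit 10) (.e (nat_lit 344179) (nat_lit 44) .nil)))) .nil)))) (.nd (nat_lit 5) (.nd (nat_lit 6) 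
(.lf (nat_lit 72218) (.g (nat_lit 3565) (.e (nat_lit 1665) (nat_lit 115) (.e (nat_lit 393301) (nat_lit 27) (.e (nat_lit 491558) (nat_lit 10) (.e (nat_lit 344091) (nat_lit 18) (.e (nat_lit 7263) (nat_lit 384) (.e (nat_lit 57354) (nat_lit 0) (.e (nat_lit 7936) (nat_lit 343) .nil))))))) (.g (nat_lit 6) .nil .nil))) 
(.lf (nat_lit 72282) (.g (nat_lit 2480) (.e (nat_lit 1665) (nat_lit 115) (.e (nat_lit 393301) (nat_lit 27) (.e (nat_lit 491560) (nat_lit 10) (.e (nat_lit 344094) (nat_lit 18) (.e (nat_lit 7265) (nat_lit 384) (.e (nat_lit 57346) (nat_lit 0) (.e (nat_lit 6436) (nat_lit 343) .nil))))))) (.g (nat_lit 4) .nil .nil)))) (.nd (nat_lit 6) 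
(.lf (nat_lit 72250) (.g (nat_lit 2557) (.e (nat_lit 1665) (nat_lit 115) (.e (nat_lit 393301) (nat_lit 27) (.e (nat_lit 491559) (nat_lit 10) (.e (nat_lit 344094) (nat_lit 18) .nil)))) .nil)) 
(.lf (nat_lit 72314) (.g (nat_lit 2749) (.e (nat_lit 1665) (nat_lit 115) (.e (nat_lit 393301) (nat_lit 27) (.e (nat_lit 491568) (nat_lit 13) (.e (nat_lit 393234) (nat_lit 17) (.e (nat_lit 7486) (nat_lit 402) .nil))))) (.g (nat_lit 0) .nil .nil))))))) (.nd (nat_lit 3) (.nd (nat_lit 4) (.nd (nat_lit 5) (.nd (nat_lit 6) 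
(.lf (nat_lit 72198) (.g (nat_lit 1479) (.e (nat_lit 1665) (nat_lit 115) (.e (nat_lit 393301) (nat_lit 27) (.e (nat_lit 491556) (nat_lit 9) (.e (nat_lit 336390) (nat_lit 27) .nil)))) .nil)) 
(.lf (nat_lit 72262) (.g (nat_lit 2576) (.e (nat_lit 1665) (nat_lit 115) (.e (nat_lit 393301) (nat_lit 27) (.e (nat_lit 491560) (nat_lit 10) (.e (nat_lit 344088) (nat_lit 18) .nil)))) .nil))) (.nd (nat_lit 6) 
(.lf (nat_lit 72230) (.g (nat_lit 2484) (.e (nat_lit 1665) (nat_lit 115) (.e (nat_lit 393301) (nat_lit 27) (.e (nat_lit 491558) (nat_lit 10) (.e (nat_lit 344096) (nat_lit 18) (.e (nat_lit 7125) (nat_lit 382) (.e (nat_lit 1183) (nat_lit 87) (.e (nat_lit 65280) (nat_lit 187) .nil))))))) (.g (nat_lit 4) .nil .nil))) 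
(.lf (nat_lit 72294) (.g (nat_lit 3240) (.e (nat_lit 1665) (nat_lit 115) (.e (nat_lit 393301) (nat_lit 27) (.e (nat_lit 491560) (nat_lit 10) (.e (nat_lit 344097) (nat_lit 18) (.e (nat_lit 7146) (nat_lit 382) .nil))))) .nil)))) (.nd (nat_lit 5) (.nd (nat_lit 6) 
(.lf (nat_lit 72214) (.g (nat_lit 3002) (.e (nat_lit 1665) (nat_lit 115) (.e (nat_lit 393301) (nat_lit 27) (.e (nat_lit 491558) (nat_lit 10) (.e (nat_lit 344091) (nat_lit 18) (.e (nat_lit 7124) (nat_lit 382) (.e (nat_lit 1183) (nat_lit 87) (.e (nat_lit 65280) (nat_lit 187) .nil))))))) (.g (nat_lit 5) .nil .nil))) 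
(.lf (nat_lit 72278) (.g (nat_lit 2559) (.e (nat_lit 1665) (nat_lit 115) (.e (nat_lit 393301) (nat_lit 27) (.e (nat_lit 491560) (nat_lit 10) (.e (nat_lit 344094) (nat_lit 18) (.e (nat_lit 7125) (nat_lit 382) (.e (nat_lit 1183) (nat_lit 87) (.e (nat_lit 65280) (nat_lit 187) .nil))))))) (.g (nat_lit 4) .nil .nil)))) (.nd (nat_lit 6) 
(.lf (nat_lit 72246) (.g (nat_lit 3149) (.e (nat_lit 1665) (nat_lit 115) (.e (nat_lit 393301) (nat_lit 27) (.e (nat_lit 491559) (nat_lit 10) (.e (nat_lit 344091) (nat_lit 18) (.e (nat_lit 7261) (nat_lit 384) (.e (nat_lit 57346) (nat_lit 0) (.e (nat_lit 6436) (nat_lit 343) .nil))))))) (.g (nat_lit 4) .nil .nil))) 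
(.lf (nat_lit 72310) (.g (nat_lit 2063) (.e (nat_lit 1665) (nat_lit 115) (.e (nat_lit 393301) (nat_lit 27) (.e (nat_lit 491568) (nat_lit 13) (.e (nat_lit 393230) (nat_lit 17) .nil)))) .nil))))) (.nd (nat_lit 4) (.nd (nat_lit 5) (.nd (nat_lit 6) 
(.lf (nat_lit 72206) (.g (nat_lit 618) (.e (nat_lit 1665) (nat_lit 115) (.e (nat_lit 393301) (nat_lit 27) (.e (nat_lit 491558) (nat_lit 10) .nil))) .nil)) 
(.lf (nat_lit 72270) (.g (nat_lit 3056) (.e (nat_lit 1665) (nat_lit 115) (.e (nat_lit 393301) (nat_lit 27) (.e (nat_lit 491560) (nat_lit 10) (.e (nat_lit 344090) (nat_lit 18) (.e (nat_lit 7265) (nat_lit 384) (.e (nat_lit 57346) (nat_lit 0) (.e (nat_lit 6436) (nat_lit 343) .nil))))))) (.g (nat_lit 4) .nil .nil)))) (.nd (nat_lit 6) 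
(.lf (nat_lit 72238) (.g (nat_lit 710) (.e (nat_lit 1665) (nat_lit 115) (.e (nat_lit 393301) (nat_lit 27) (.e (nat_lit 491559) (nat_lit 10) .nil))) .nil)) 
(.lf (nat_lit 72302) (.g (nat_lit 2324) (.e (nat_lit 1665) (nat_lit 115) (.e (nat_lit 393301) (nat_lit 27) (.e (nat_lit 491563) (nat_lit 12) (.e (nat_lit 385032) (nat_lit 16) .nil)))) .nil)))) (.nd (nat_lit 5) (.nd (nat_lit 6) 
(.lf (nat_lit 72222) (.g (nat_lit 2050) (.e (nat_lit 1665) (nat_lit 115) (.e (nat_lit 393301) (nat_lit 27) (.e (nat_lit 491558) (nat_lit 10) (.e (nat_lit 344093) (nat_lit 18) .nil)))) .nil)) 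
(.lf (nat_lit 72286) (.g (nat_lit 3413) (.e (nat_lit 1665) (nat_lit 115) (.e (nat_lit 393301) (nat_lit 27) (.e (nat_lit 491560) (nat_lit 10) (.e (nat_lit 344096) (nat_lit 18) (.e (nat_lit 7122) (nat_lit 382) (.e (nat_lit 1183) (nat_lit 87) (.e (nat_lit 65280) (nat_lit 187) .nil))))))) (.g (nat_lit 4) .nil .nil)))) (.nd (nat_lit 6) 
(.lf (nat_lit 72254) (.g (nat_lit 2586) (.e (nat_lit 1665) (nat_lit 115) (.e (nat_lit 393301) (nat_lit 27) (.e (nat_lit 491559) (nat_lit 10) (.e (nat_lit 344097) (nat_lit 18) .nil)))) .nil)) 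
(.lf (nat_lit 72318) (.g (nat_lit 2132) (.e (nat_lit 1665) (nat_lit 115) (.e (nat_lit 393301) (nat_lit 27) (.e (nat_lit 491568) (nat_lit 13) (.e (nat_lit 393238) (nat_lit 17) (.e (nat_lit 7936) (nat_lit 402) .nil))))) .nil)))))))) (.nd (nat_lit 1) (.nd (nat_lit 2) (.nd (nat_lit 3) (.nd (nat_lit 4) (.nd (nat_lit 5) (.nd (nat_lit 6) 
(.lf (nat_lit 72193) (.g (nat_lit 1667) (.e (nat_lit 1665) (nat_lit 115) (.e (nat_lit 393301) (nat_lit 27) (.e (nat_lit 491552) (nat_lit 9) (.e (nat_lit 336412) (nat_lit 27) (.e (nat_lit 426010) (nat_lit 0) (.e (nat_lit 7486) (nat_lit 402) .nil)))))) (.g (nat_lit 5) .nil .nil))) 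
(.lf (nat_lit 72257) (.g (nat_lit 2781) (.e (nat_lit 1665) (nat_lit 115) (.e (nat_lit 393301) (nat_lit 27) (.e (nat_lit 491559) (nat_lit 10) (.e (nat_lit 344177) (nat_lit 43) .nil)))) .nil))) (.nd (nat_lit 6) 
(.lf (nat_lit 72225) (.g (nat_lit 2251) (.e (nat_lit 1665) (nat_lit 115) (.e (nat_lit 393301) (nat_lit 27) (.e (nat_lit 491558) (nat_lit 10) (.e (nat_lit 344095) (nat_lit 18) (.e (nat_lit 7261) (nat_lit 384) (.e (nat_lit 57346) (nat_lit 0) (.e (nat_lit 6436) (nat_lit 343) .nil))))))) (.g (nat_lit 4) .nil .nil))) 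
(.lf (nat_lit 72289) (.g (nat_lit 3351) (.e (nat_lit 1665) (nat_lit 115) (.e (nat_lit 393301) (nat_lit 27) (.e (nat_lit 491560) (nat_lit 10) (.e (nat_lit 344096) (nat_lit 18) (.e (nat_lit 7263) (nat_lit 384) (.e (nat_lit 57354) (nat_lit 0) (.e (nat_lit 7936) (nat_lit 343) .nil))))))) (.g (nat_lit 4) .nil .nil))))) (.nd (nat_lit 5) (.nd (nat_lit 6) 
(.lf (nat_lit 72209) (.g (nat_lit 2273) (.e (nat_lit 1665) (nat_lit 115) (.e (nat_lit 393301) (nat_lit 27) (.e (nat_lit 491558) (nat_lit 10) (.e (nat_lit 344090) (nat_lit 18) (.e (nat_lit 7125) (nat_lit 382) (.e (nat_lit 1183) (nat_lit 87) (.e (nat_lit 65280) (nat_lit 187) .nil))))))) (.g (nat_lit 4) .nil .nil))) 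
(.lf (nat_lit 72273) (.g (nat_lit 3221) (.e (nat_lit 1665) (nat_lit 115) (.e (nat_lit 393301) (nat_lit 27) (.e (nat_lit 491560) (nat_lit 10) (.e (nat_lit 344091) (nat_lit 18) (.e (nat_lit 7263) (nat_lit 384) (.e (nat_lit 57354) (nat_lit 0) (.e (nat_lit 7936) (nat_lit 343) .nil))))))) (.g (nat_lit 4) .nil .nil)))) (.nd (nat_lit 6) 
(.lf (nat_lit 72241) (.g (nat_lit 3151) (.e (nat_lit 1665) (nat_lit 115) (.e (nat_lit 393301) (nat_lit 27) (.e (nat_lit 491559) (nat_lit 10) (.e (nat_lit 344090) (nat_lit 18) (.e (nat_lit 7263) (nat_lit 384) .nil))))) .nil)) 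
(.lf (nat_lit 72305) (.g (nat_lit 516) (.e (nat_lit 1665) (nat_lit 115) (.e (nat_lit 393301) (nat_lit 27) (.e (nat_lit 491567) (nat_lit 13) .nil))) .nil))))) (.nd (nat_lit 4) (.nd (nat_lit 5) (.nd (nat_lit 6) 
(.lf (nat_lit 72201) (.g (nat_lit 2420) (.e (nat_lit 1665) (nat_lit 115) (.e (nat_lit 393301) (nat_lit 27) (.e (nat_lit 491556) (nat_lit 9) (.e (nat_lit 336390) (nat_lit 27) (.e (nat_lit 426012) (nat_lit 0) (.e (nat_lit 7486) (nat_lit 402) .nil)))))) (.g (nat_lit 4) .nil .nil))) 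
(.lf (nat_lit 72265) (.g (nat_lit 3672) (.e (nat_lit 1665) (nat_lit 115) (.e (nat_lit 393301) (nat_lit 27) (.e (nat_lit 491560) (nat_lit 10) (.e (nat_lit 344090) (nat_lit 18) (.e (nat_lit 7124) (nat_lit 382) (.e (nat_lit 1183) (nat_lit 87) (.e (nat_lit 65280) (nat_lit 187) .nil))))))) (.g (nat_lit 5) .nil .nil)))) (.nd (nat_lit 6) 
(.lf (nat_lit 72233) (.g (nat_lit 2635) (.e (nat_lit 1665) (nat_lit 115) (.e (nat_lit 393301) (nat_lit 27) (.e (nat_lit 491558) (nat_lit 10) (.e (nat_lit 344096) (nat_lit 18) (.e (nat_lit 7265) (nat_lit 384) (.e (nat_lit 57345) (nat_lit 0) (.e (nat_lit 6436) (nat_lit 343) .nil))))))) (.g (nat_lit 4) .nil .nil))) 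
(.lf (nat_lit 72297) (.g (nat_lit 2396) (.e (nat_lit 1665) (nat_lit 115) (.e (nat_lit 393301) (nat_lit 27) (.e (nat_lit 491560) (nat_lit 10) (.e (nat_lit 344177) (nat_lit 43) .nil)))) .nil)))) (.nd (nat_lit 5) (.nd (nat_lit 6) 
(.lf (nat_lit 72217) (.g (nat_lit 2464) (.e (nat_lit 1665) (nat_lit 115) (.e (nat_lit 393301) (nat_lit 27) (.e (nat_lit 491558) (nat_lit 10) (.e (nat_lit 344091) (nat_lit 18) (.e (nat_lit 7261) (nat_lit 384) (.e (nat_lit 57346) (nat_lit 0) (.e (nat_lit 6436) (nat_lit 343) .nil))))))) (.g (nat_lit 4) .nil .nil))) 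
(.lf (nat_lit 72281) (.g (nat_lit 2573) (.e (nat_lit 1665) (nat_lit 115) (.e (nat_lit 393301) (nat_lit 27) (.e (nat_lit 491560) (nat_lit 10) (.e (nat_lit 344094) (nat_lit 18) (.e (nat_lit 7265) (nat_lit 384) (.e (nat_lit 57345) (nat_lit 0) (.e (nat_lit 6436) (nat_lit 343) .nil))))))) (.g (nat_lit 4) .nil .nil)))) (.nd (nat_lit 6) 
(.lf (nat_lit 72249) (.g (nat_lit 2603) (.e (nat_lit 1665) (nat_lit 115) (.e (nat_lit 393301) (nat_lit 27) (.e (nat_lit 491559) (nat_lit 10) (.e (nat_lit 344093) (nat_lit 18) .nil)))) .nil)) 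
(.lf (nat_lit 72313) (.g (nat_lit 1046) (.e (nat_lit 1665) (nat_lit 115) (.e (nat_lit 393301) (nat_lit 27) (.e (nat_lit 491568) (nat_lit 13) (.e (nat_lit 393234) (nat_lit 17) .nil)))) .nil)))))) (.nd (nat_lit 3) (.nd (nat_lit 4) (.nd (nat_lit 5) (.nd (nat_lit 6) 
(.lf (nat_lit 72197) (.g (nat_lit 1756) (.e (nat_lit 1665) (nat_lit 115) (.e (nat_lit 393301) (nat_lit 27) (.e (nat_lit 491556) (nat_lit 9) (.e (nat_lit 343808) (nat_lit 25) .nil)))) .nil)) 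
(.lf (nat_lit 72261) (.g (nat_lit 2374) (.e (nat_lit 1665) (nat_lit 115) (.e (nat_lit 393301) (nat_lit 27) (.e (nat_lit 491560) (nat_lit 10) (.e (nat_lit 344087) (nat_lit 18) .nil)))) .nil))) (.nd (nat_lit 6) 
(.lf (nat_lit 72229) (.g (nat_lit 3130) (.e (nat_lit 1665) (nat_lit 115) (.e (nat_lit 393301) (nat_lit 27) (.e (nat_lit 491558) (nat_lit 10) (.e (nat_lit 344096) (nat_lit 18) (.e (nat_lit 7124) (nat_lit 382) (.e (nat_lit 1183) (nat_lit 87) (.e (nat_lit 65280) (nat_lit 187) .nil))))))) (.g (nat_lit 5) .nil .nil))) 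
(.lf (nat_lit 72293) (.g (nat_lit 3212) (.e (nat_lit 1665) (nat_lit 115) (.e (nat_lit 393301) (nat_lit 27) (.e (nat_lit 491560) (nat_lit 10) (.e (nat_lit 344097) (nat_lit 18) (.e (nat_lit 7144) (nat_lit 382) .nil))))) .nil)))) (.nd (nat_lit 5) (.nd (nat_lit 6) 
(.lf (nat_lit 72213) (.g (nat_lit 1649) (.e (nat_lit 1665) (nat_lit 115) (.e (nat_lit 393301) (nat_lit 27) (.e (nat_lit 491558) (nat_lit 10) (.e (nat_lit 344091) (nat_lit 18) .nil)))) .nil)) 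
(.lf (nat_lit 72277) (.g (nat_lit 2035) (.e (nat_lit 1665) (nat_lit 115) (.e (nat_lit 393301) (nat_lit 27) (.e (nat_lit 491560) (nat_lit 10) (.e (nat_lit 344094) (nat_lit 18) .nil)))) .nil))) (.nd (nat_lit 6) 
(.lf (nat_lit 72245) (.g (nat_lit 3100) (.e (nat_lit 1665) (nat_lit 115) (.e (nat_lit 393301) (nat_lit 27) (.e (nat_lit 491559) (nat_lit 10) (.e (nat_lit 344091) (nat_lit 18) (.e (nat_lit 7261) (nat_lit 384) .nil))))) .nil)) 
(.lf (nat_lit 72309) (.g (nat_lit 1393) (.e (nat_lit 1665) (nat_lit 115) (.e (nat_lit 393301) (nat_lit 27) (.e (nat_lit 491567) (nat_lit 13) (.e (nat_lit 393237) (nat_lit 17) .nil)))) .nil))))) (.nd (nat_lit 4) (.nd (nat_lit 5) (.nd (nat_lit 6) 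
(.lf (nat_lit 72205) (.g (nat_lit 1756) (.e (nat_lit 1665) (nat_lit 115) (.e (nat_lit 393301) (nat_lit 27) (.e (nat_lit 491556) (nat_lit 9) (.e (nat_lit 343808) (nat_lit 31) .nil)))) .nil)) 
(.lf (nat_lit 72269) (.g (nat_lit 3199) (.e (nat_lit 1665) (nat_lit 115) (.e (nat_lit 393301) (nat_lit 27) (.e (nat_lit 491560) (nat_lit 10) (.e (nat_lit 344090) (nat_lit 18) (.e (nat_lit 7265) (nat_lit 384) (.e (nat_lit 57345) (nat_lit 0) (.e (nat_lit 6436) (nat_lit 343) .nil))))))) (.g (nat_lit 4) .nil .nil)))) (.nd (nat_lit 6) 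
(.lf (nat_lit 72237) (.g (nat_lit 1585) (.e (nat_lit 1665) (nat_lit 115) (.e (nat_lit 393301) (nat_lit 27) (.e (nat_lit 491558) (nat_lit 10) (.e (nat_lit 352000) (nat_lit 46) .nil)))) .nil)) 
(.lf (nat_lit 72301) (.g (nat_lit 2267) (.e (nat_lit 1665) (nat_lit 115) (.e (nat_lit 393301) (nat_lit 27) (.e (nat_lit 491560) (nat_lit 10) (.e (nat_lit 352000) (nat_lit 47) .nil)))) .nil)))) (.nd (nat_lit 5) (.nd (nat_lit 6) 
(.lf (nat_lit 72221) (.g (nat_lit 3656) (.e (nat_lit 1665) (nat_lit 115) (.e (nat_lit 393301) (nat_lit 27) (.e (nat_lit 491558) (nat_lit 10) (.e (nat_lit 344091) (nat_lit 18) (.e (nat_lit 7265) (nat_lit 384) (.e (nat_lit 57354) (nat_lit 0) (.e (nat_lit 7936) (nat_lit 343) .nil))))))) (.g (nat_lit 6) .nil .nil))) 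
(.lf (nat_lit 72285) (.g (nat_lit 2458) (.e (nat_lit 1665) (nat_lit 115) (.e (nat_lit 393301) (nat_lit 27) (.e (nat_lit 491560) (nat_lit 10) (.e (nat_lit 344096) (nat_lit 18) .nil)))) .nil))) (.nd (nat_lit 6) 
(.lf (nat_lit 72253) (.g (nat_lit 3161) (.e (nat_lit 1665) (nat_lit 115) (.e (nat_lit 393301) (nat_lit 27) (.e (nat_lit 491559) (nat_lit 10) (.e (nat_lit 344096) (nat_lit 18) (.e (nat_lit 7265) (nat_lit 384) .nil))))) .nil)) 
(.lf (nat_lit 72317) (.g (nat_lit 2310) (.e (nat_lit 1665) (nat_lit 115) (.e (nat_lit 393301) (nat_lit 27) (.e (nat_lit 491568) (nat_lit 13) (.e (nat_lit 393237) (nat_lit 17) .nil)))) .nil))))))) (.nd (nat_lit 2) (.nd (nat_lit 3) (.nd (nat_lit 4) (.nd (nat_lit 5) (.nd (nat_lit 6) 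
(.lf (nat_lit 72195) (.g (nat_lit 1039) (.e (nat_lit 1665) (nat_lit 115) (.e (nat_lit 393301) (nat_lit 27) (.e (nat_lit 491552) (nat_lit 9) (.e (nat_lit 343808) (nat_lit 27) .nil)))) .nil)) 
(.lf (nat_lit 72259) (.g (nat_lit 4013) (.e (nat_lit 1665) (nat_lit 115) (.e (nat_lit 393301) (nat_lit 27) (.e (nat_lit 491559) (nat_lit 10) (.e (nat_lit 344177) (nat_lit 43) (.e (nat_lit 770068) (nat_lit 7) (.e (nat_lit 65280) (nat_lit 187) .nil)))))) (.g (nat_lit 5) .nil .nil)))) (.nd (nat_lit 6) 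
(.lf (nat_lit 72227) (.g (nat_lit 1687) (.e (nat_lit 1665) (nat_lit 115) (.e (nat_lit 393301) (nat_lit 27) (.e (nat_lit 491558) (nat_lit 10) (.e (nat_lit 344096) (nat_lit 18) .nil)))) .nil)) 
(.lf (nat_lit 72291) (.g (nat_lit 3769) (.e (nat_lit 1665) (nat_lit 115) (.e (nat_lit 393301) (nat_lit 27) (.e (nat_lit 491560) (nat_lit 10) (.e (nat_lit 344096) (nat_lit 18) (.e (nat_lit 7265) (nat_lit 384) (.e (nat_lit 57354) (nat_lit 0) (.e (nat_lit 7936) (nat_lit 343) .nil))))))) (.g (nat_lit 5) .nil .nil))))) (.nd (nat_lit 5) (.nd (nat_lit 6) 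
(.lf (nat_lit 72211) (.g (nat_lit 2869) (.e (nat_lit 1665) (nat_lit 115) (.e (nat_lit 393301) (nat_lit 27) (.e (nat_lit 491558) (nat_lit 10) (.e (nat_lit 344090) (nat_lit 18) (.e (nat_lit 7263) (nat_lit 384) (.e (nat_lit 57354) (nat_lit 0) (.e (nat_lit 7936) (nat_lit 343) .nil))))))) (.g (nat_lit 5) .nil .nil))) 
(.lf (nat_lit 72275) (.g (nat_lit 3294) (.e (nat_lit 1665) (nat_lit 115) (.e (nat_lit 393301) (nat_lit 27) (.e (nat_lit 491560) (nat_lit 10) (.e (nat_lit 344091) (nat_lit 18) (.e (nat_lit 7265) (nat_lit 384) (.e (nat_lit 57354) (nat_lit 0) (.e (nat_lit 7936) (nat_lit 343) .nil))))))) (.g (nat_lit 4) .nil .nil)))) (.nd (nat_lit 6) 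
(.lf (nat_lit 72243) (.g (nat_lit 2571) (.e (nat_lit 1665) (nat_lit 115) (.e (nat_lit 393301) (nat_lit 27) (.e (nat_lit 491559) (nat_lit 10) (.e (nat_lit 344091) (nat_lit 18) .nil)))) .nil)) 
(.lf (nat_lit 72307) (.g (nat_lit 2231) (.e (nat_lit 1665) (nat_lit 115) (.e (nat_lit 393301) (nat_lit 27) (.e (nat_lit 491567) (nat_lit 13) (.e (nat_lit 393233) (nat_lit 17) (.e (nat_lit 7486) (nat_lit 402) .nil))))) (.g (nat_lit 0) .nil .nil)))))) (.nd (nat_lit 4) (.nd (nat_lit 5) (.nd (nat_lit 6) 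
(.lf (nat_lit 72203) (.g (nat_lit 1756) (.e (nat_lit 1665) (nat_lit 115) (.e (nat_lit 393301) (nat_lit 27) (.e (nat_lit 491556) (nat_lit 9) (.e (nat_lit 343808) (nat_lit 28) .nil)))) .nil)) 
(.lf (nat_lit 72267) (.g (nat_lit 2916) (.e (nat_lit 1665) (nat_lit 115) (.e (nat_lit 393301) (nat_lit 27) (.e (nat_lit 491560) (nat_lit 10) (.e (nat_lit 344090) (nat_lit 18) (.e (nat_lit 7261) (nat_lit 384) .nil))))) .nil))) (.nd (nat_lit 6) 
(.lf (nat_lit 72235) (.g (nat_lit 3860) (.e (nat_lit 1665) (nat_lit 115) (.e (nat_lit 393301) (nat_lit 27) (.e (nat_lit 491558) (nat_lit 10) (.e (nat_lit 344096) (nat_lit 18) (.e (nat_lit 7265) (nat_lit 384) (.e (nat_lit 57354) (nat_lit 0) (.e (nat_lit 7936) (nat_lit 343) .nil))))))) (.g (nat_lit 6) .nil .nil))) 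
(.lf (nat_lit 72299) (.g (nat_lit 2722) (.e (nat_lit 1665) (nat_lit 115) (.e (nat_lit 393301) (nat_lit 27) (.e (nat_lit 491560) (nat_lit 10) (.e (nat_lit 344179) (nat_lit 44) (.e (nat_lit 778455) (nat_lit 10) .nil))))) .nil)))) (.nd (nat_lit 5) (.nd (nat_lit 6) 
(.lf (nat_lit 72219) (.g (nat_lit 2518) (.e (nat_lit 1665) (nat_lit 115) (.e (nat_lit 393301) (nat_lit 27) (.e (nat_lit 491558) (nat_lit 10) (.e (nat_lit 344091) (nat_lit 18) (.e (nat_lit 7265) (nat_lit 384) (.e (nat_lit 57345) (nat_lit 0) (.e (nat_lit 6436) (nat_lit 343) .nil))))))) (.g (nat_lit 4) .nil .nil))) 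
(.lf (nat_lit 72283) (.g (nat_lit 3881) (.e (nat_lit 1665) (nat_lit 115) (.e (nat_lit 393301) (nat_lit 27) (.e (nat_lit 491560) (nat_lit 10) (.e (nat_lit 344094) (nat_lit 18) (.e (nat_lit 7265) (nat_lit 384) (.e (nat_lit 57354) (nat_lit 0) (.e (nat_lit 7936) (nat_lit 343) .nil))))))) (.g (nat_lit 6) .nil .nil)))) (.nd (nat_lit 6) 
(.lf (nat_lit 72251) (.g (nat_lit 2604) (.e (nat_lit 1665) (nat_lit 115) (.e (nat_lit 393301) (nat_lit 27) (.e (nat_lit 491559) (nat_lit 10) (.e (nat_lit 344095) (nat_lit 18) .nil)))) .nil)) 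
(.lf (nat_lit 72315) (.g (nat_lit 1288) (.e (nat_lit 1665) (nat_lit 115) (.e (nat_lit 393301) (nat_lit 27) (.e (nat_lit 491568) (nat_lit 13) (.e (nat_lit 393235) (nat_lit 17) .nil)))) .nil)))))) (.nd (nat_lit 3) (.nd (nat_lit 4) (.nd (nat_lit 5) (.nd (nat_lit 6) 
(.lf (nat_lit 72199) (.g (nat_lit 3931) (.e (nat_lit 1665) (nat_lit 115) (.e (nat_lit 393301) (nat_lit 27) (.e (nat_lit 491556) (nat_lit 9) (.e (nat_lit 336390) (nat_lit 27) (.e (nat_lit 426011) (nat_lit 0) (.e (nat_lit 7486) (nat_lit 402) .nil)))))) (.g (nat_lit 6) .nil .nil))) 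
(.lf (nat_lit 72263) (.g (nat_lit 2329) (.e (nat_lit 1665) (nat_lit 115) (.e (nat_lit 393301) (nat_lit 27) (.e (nat_lit 491560) (nat_lit 10) (.e (nat_lit 344090) (nat_lit 18) .nil)))) .nil))) (.nd (nat_lit 6) 
(.lf (nat_lit 72231) (.g (nat_lit 2298) (.e (nat_lit 1665) (nat_lit 115) (.e (nat_lit 393301) (nat_lit 27) (.e (nat_lit 491558) (nat_lit 10) (.e (nat_lit 344096) (nat_lit 18) (.e (nat_lit 7261) (nat_lit 384) .nil))))) .nil)) 
(.lf (nat_lit 72295) (.g (nat_lit 2104) (.e (nat_lit 1665) (nat_lit 115) (.e (nat_lit 393301) (nat_lit 27) (.e (nat_lit 491560) (nat_lit 10) (.e (nat_lit 344099) (nat_lit 18) .nil)))) .nil)))) (.nd (nat_lit 5) (.nd (nat_lit 6) 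
(.lf (nat_lit 72215) (.g (nat_lit 2515) (.e (nat_lit 1665) (nat_lit 115) (.e (nat_lit 393301) (nat_lit 27) (.e (nat_lit 491558) (nat_lit 10) (.e (nat_lit 344091) (nat_lit 18) (.e (nat_lit 7125) (nat_lit 382) (.e (nat_lit 1183) (nat_lit 87) (.e (nat_lit 65280) (nat_lit 187) .nil))))))) (.g (nat_lit 4) .nil .nil))) 
(.lf (nat_lit 72279) (.g (nat_lit 2442) (.e (nat_lit 1665) (nat_lit 115) (.e (nat_lit 393301) (nat_lit 27) (.e (nat_lit 491560) (nat_lit 10) (.e (nat_lit 344094) (nat_lit 18) (.e (nat_lit 7261) (nat_lit 384) (.e (nat_lit 57346) (nat_lit 0) (.e (nat_lit 6436) (nat_lit 343) .nil))))))) (.g (nat_lit 4) .nil .nil)))) (.nd (nat_lit 6) 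
(.lf (nat_lit 72247) (.g (nat_lit 3215) (.e (nat_lit 1665) (nat_lit 115) (.e (nat_lit 393301) (nat_lit 27) (.e (nat_lit 491559) (nat_lit 10) (.e (nat_lit 344091) (nat_lit 18) (.e (nat_lit 7265) (nat_lit 384) (.e (nat_lit 57345) (nat_lit 0) (.e (nat_lit 6436) (nat_lit 343) .nil))))))) (.g (nat_lit 4) .nil .nil))) 
(.lf (nat_lit 72311) (.g (nat_lit 2554) (.e (nat_lit 1665) (nat_lit 115) (.e (nat_lit 393301) (nat_lit 27) (.e (nat_lit 491568) (nat_lit 13) (.e (nat_lit 393232) (nat_lit 17) (.e (nat_lit 7486) (nat_lit 402) .nil))))) (.g (nat_lit 0) .nil .nil)))))) (.nd (nat_lit 4) (.nd (nat_lit 5) (.nd (nat_lit 6) 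
(.lf (nat_lit 72207) (.g (nat_lit 2354) (.e (nat_lit 1665) (nat_lit 115) (.e (nat_lit 393301) (nat_lit 27) (.e (nat_lit 491558) (nat_lit 10) (.e (nat_lit 344090) (nat_lit 18) (.e (nat_lit 7122) (nat_lit 382) .nil))))) .nil)) 
(.lf (nat_lit 72271) (.g (nat_lit 4425) (.e (nat_lit 1665) (nat_lit 115) (.e (nat_lit 393301) (nat_lit 27) (.e (nat_lit 491560) (nat_lit 10) (.e (nat_lit 344090) (nat_lit 18) (.e (nat_lit 7265) (nat_lit 384) (.e (nat_lit 57354) (nat_lit 0) (.e (nat_lit 7936) (nat_lit 343) .nil))))))) (.g (nat_lit 6) .nil .nil)))) (.nd (nat_lit 6) 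
(.lf (nat_lit 72239) (.g (nat_lit 2597) (.e (nat_lit 1665) (nat_lit 115) (.e (nat_lit 393301) (nat_lit 27) (.e (nat_lit 491559) (nat_lit 10) (.e (nat_lit 344090) (nat_lit 18) .nil)))) .nil)) 
(.lf (nat_lit 72303) (.g (nat_lit 2235) (.e (nat_lit 1665) (nat_lit 115) (.e (nat_lit 393301) (nat_lit 27) (.e (nat_lit 491563) (nat_lit 12) (.e (nat_lit 385034) (nat_lit 16) .nil)))) .nil)))) (.nd (nat_lit 5) (.nd (nat_lit 6) 
(.lf (nat_lit 72223) (.g (nat_lit 2802) (.e (nat_lit 1665) (nat_lit 115) (.e (nat_lit 393301) (nat_lit 27) (.e (nat_lit 491558) (nat_lit 10) (.e (nat_lit 344095) (nat_lit 18) (.e (nat_lit 7122) (nat_lit 382) (.e (nat_lit 1183) (nat_lit 87) (.e (nat_lit 65280) (nat_lit 187) .nil))))))) (.g (nat_lit 5) .nil .nil))) 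
(.lf (nat_lit 72287) (.g (nat_lit 3226) (.e (nat_lit 1665) (nat_lit 115) (.e (nat_lit 393301) (nat_lit 27) (.e (nat_lit 491560) (nat_lit 10) (.e (nat_lit 344096) (nat_lit 18) (.e (nat_lit 7124) (nat_lit 382) (.e (nat_lit 1183) (nat_lit 87) (.e (nat_lit 65280) (nat_lit 187) .nil))))))) (.g (nat_lit 4) .nil .nil)))) (.nd (nat_lit 6) 
(.lf (nat_lit 72255) (.g (nat_lit 2588) (.e (nat_lit 1665) (nat_lit 115) (.e (nat_lit 393301) (nat_lit 27) (.e (nat_lit 491559) (nat_lit 10) (.e (nat_lit 344098) (nat_lit 18) .nil)))) .nil)) 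
(.lf (nat_lit 72319) (.g (nat_lit 1901) (.e (nat_lit 1665) (nat_lit 115) (.e (nat_lit 393301) (nat_lit 27) (.e (nat_lit 491568) (nat_lit 13) (.e (nat_lit 393242) (nat_lit 17) (.e (nat_lit 7936) (nat_lit 402) .nil))))) (.g (nat_lit 4) .nil .nil))))))))))

noncomputable def tv984 : DT := (.nd (nat_lit 0) (.nd (nat_lit 1) (.nd (nat_lit 2) (.nd (nat_lit 3) (.nd (nat_lit 4) (.nd (nat_lit 5) (.nd (nat_lit 6) 
(.lf (nat_lit 72320) (.g (nat_lit 2341) (.e (nat_lit 1665) (nat_lit 115) (.e (nat_lit 393301) (nat_lit 27) (.e (nat_lit 491568) (nat_lit 13) (.e (nat_lit 393243) (nat_lit 17) .nil)))) .nil)) 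
(.lf (nat_lit 72384) (.g (nat_lit 1280) (.e (nat_lit 7936) (nat_lit 115) (.e (nat_lit 393301) (nat_lit 27) (.e (nat_lit 491552) (nat_lit 9) (.e (nat_lit 336248) (nat_lit 15) .nil)))) .nil))) (.nd (nat_lit 6) 
(.lf (nat_lit 72352) (.g (nat_lit 837) (.e (nat_lit 7936) (nat_lit 115) (.e (nat_lit 393296) (nat_lit 26) (.e (nat_lit 475207) (nat_lit 41) (.e (nat_lit 712749) (nat_lit 28) .nil)))) .nil)) 
(.lf (nat_lit 72416) (.g (nat_lit 3590) (.e (nat_lit 1666) (nat_lit 116) (.e (nat_lit 401457) (nat_lit 13) (.e (nat_lit 483413) (nat_lit 27) (.e (nat_lit 401448) (nat_lit 10) (.e (nat_lit 434203) (nat_lit 18) .nil))))) .nil)))) (.nd (nat_lit 5) (.nd (nat_lit 6) 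
(.lf (nat_lit 72336) (.g (nat_lit 673) (.e (nat_lit 7936) (nat_lit 115) (.e (nat_lit 393294) (nat_lit 26) (.e (nat_lit 475218) (nat_lit 44) .nil))) .nil)) 
(.lf (nat_lit 72400) (.g (nat_lit 2287) (.e (nat_lit 1666) (nat_lit 116) (.e (nat_lit 401454) (nat_lit 12) (.e (nat_lit 475185) (nat_lit 29) (.e (nat_lit 557098) (nat_lit 13) .nil)))) .nil))) (.nd (nat_lit 6) 
(.lf (nat_lit 72368) (.g (nat_lit 582) (.e (nat_lit 7936) (nat_lit 115) (.e (nat_lit 393296) (nat_lit 26) (.e (nat_lit 475219) (nat_lit 44) .nil))) .nil)) 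
(.lf (nat_lit 72432) (.g (nat_lit 908) (.e (nat_lit 1667) (nat_lit 116) (.e (nat_lit 401451) (nat_lit 12) (.e (nat_lit 475184) (nat_lit 29) .nil))) .nil))))) (.nd (nat_lit 4) (.nd (nat_lit 5) (.nd (nat_lit 6) 
(.lf (nat_lit 72328) (.g (nat_lit 1391) (.e (nat_lit 7936) (nat_lit 115) (.e (nat_lit 393273) (nat_lit 23) (.e (nat_lit 426364) (nat_lit 15) (.e (nat_lit 2160) (nat_lit 143) (.e (nat_lit 712747) (nat_lit 28) .nil))))) .nil)) 
(.lf (nat_lit 72392) (.g (nat_lit 572) (.e (nat_lit 7936) (nat_lit 115) (.e (nat_lit 393301) (nat_lit 27) (.e (nat_lit 491567) (nat_lit 13) .nil))) .nil))) (.nd (nat_lit 6) 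
(.lf (nat_lit 72360) (.g (nat_lit 1196) (.e (nat_lit 7936) (nat_lit 115) (.e (nat_lit 393296) (nat_lit 26) (.e (nat_lit 475209) (nat_lit 41) (.e (nat_lit 712749) (nat_lit 28) (.e (nat_lit 434177) (nat_lit 0) .nil))))) .nil)) 
(.lf (nat_lit 72424) (.g (nat_lit 5530) (.e (nat_lit 1667) (nat_lit 116) (.e (nat_lit 401425) (nat_lit 2) (.e (nat_lit 196666) (nat_lit 13) (.e (nat_lit 65610) (nat_lit 10) (.e (nat_lit 344117) (nat_lit 21) (.e (nat_lit 516097) (nat_lit 0) (.e (nat_lit 7542) (nat_lit 402) .nil))))))) (.g (nat_lit 5) .nil .nil))))) (.nd (nat_lit 5) (.nd (nat_lit 6) 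
(.lf (nat_lit 72344) (.g (nat_lit 451) (.e (nat_lit 7936) (nat_lit 115) (.e (nat_lit 393296) (nat_lit 26) (.e (nat_lit 475196) (nat_lit 40) .nil))) .nil)) 
(.lf (nat_lit 72408) (.g (nat_lit 1743) (.e (nat_lit 1666) (nat_lit 116) (.e (nat_lit 401456) (nat_lit 13) (.e (nat_lit 483413) (nat_lit 27) (.e (nat_lit 401451) (nat_lit 12) .nil)))) .nil))) (.nd (nat_lit 6) 
(.lf (nat_lit 72376) (.g (nat_lit 1142) (.e (nat_lit 7936) (nat_lit 115) (.e (nat_lit 393299) (nat_lit 27) (.e (nat_lit 491570) (nat_lit 13) (.e (nat_lit 393238) (nat_lit 17) .nil)))) .nil)) 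
(.lf (nat_lit 72440) (.g (nat_lit 1398) (.e (nat_lit 1667) (nat_lit 116) (.e (nat_lit 401453) (nat_lit 12) (.e (nat_lit 475207) (nat_lit 41) (.e (nat_lit 712755) (nat_lit 30) (.e (nat_lit 450596) (nat_lit 17) (.e (nat_lit 663556) (nat_lit 0) .nil)))))) (.g (nat_lit 4) .nil .nil))))))) (.nd (nat_lit 3) (.nd (nat_lit 4) (.nd (nat_lit 5) (.nd (nat_lit 6) 
(.lf (nat_lit 72324) (.g (nat_lit 1181) (.e (nat_lit 1665) (nat_lit 115) (.e (nat_lit 393301) (nat_lit 27) (.e (nat_lit 499456) (nat_lit 13) (.e (nat_lit 393232) (nat_lit 17) (.e (nat_lit 7486) (nat_lit 402) .nil))))) (.g (nat_lit 4) .nil .nil))) 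
(.lf (nat_lit 72388) (.g (nat_lit 1405) (.e (nat_lit 7936) (nat_lit 115) (.e (nat_lit 393301) (nat_lit 27) (.e (nat_lit 491552) (nat_lit 9) (.e (nat_lit 336253) (nat_lit 15) (.e (nat_lit 7088) (nat_lit 379) .nil))))) .nil))) (.nd (nat_lit 6) 
(.lf (nat_lit 72356) (.g (nat_lit 754) (.e (nat_lit 7936) (nat_lit 115) (.e (nat_lit 393296) (nat_lit 26) (.e (nat_lit 475209) (nat_lit 41) (.e (nat_lit 712719) (nat_lit 15) .nil)))) .nil)) 
(.lf (nat_lit 72420) (.g (nat_lit 1183) (.e (nat_lit 1666) (nat_lit 116) (.e (nat_lit 401459) (nat_lit 13) (.e (nat_lit 483411) (nat_lit 27) .nil))) .nil)))) (.nd (nat_lit 5) (.nd (nat_lit 6) 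
(.lf (nat_lit 72340) (.g (nat_lit 1517) (.e (nat_lit 7936) (nat_lit 115) (.e (nat_lit 393295) (nat_lit 26) (.e (nat_lit 475199) (nat_lit 40) (.e (nat_lit 704595) (nat_lit 5) (.e (nat_lit 180275) (nat_lit 32) .nil))))) .nil)) 
(.lf (nat_lit 72404) (.g (nat_lit 2748) (.e (nat_lit 1666) (nat_lit 116) (.e (nat_lit 401454) (nat_lit 12) (.e (nat_lit 475185) (nat_lit 29) (.e (nat_lit 557109) (nat_lit 15) .nil)))) .nil))) (.nd (nat_lit 6) 
(.lf (nat_lit 72372) (.g (nat_lit 754) (.e (nat_lit 7936) (nat_lit 115) (.e (nat_lit 393299) (nat_lit 27) (.e (nat_lit 491552) (nat_lit 9) .nil))) .nil)) 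
(.lf (nat_lit 72436) (.g (nat_lit 2621) (.e (nat_lit 1667) (nat_lit 116) (.e (nat_lit 401452) (nat_lit 12) (.e (nat_lit 475185) (nat_lit 29) (.e (nat_lit 557107) (nat_lit 15) (.e (nat_lit 188447) (nat_lit 22) .nil))))) .nil))))) (.nd (nat_lit 4) (.nd (nat_lit 5) (.nd (nat_lit 6) 
(.lf (nat_lit 72332) (.g (nat_lit 893) (.e (nat_lit 7936) (nat_lit 115) (.e (nat_lit 393273) (nat_lit 23) (.e (nat_lit 426444) (nat_lit 19) (.e (nat_lit 106556) (nat_lit 15) .nil)))) .nil)) 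
(.lf (nat_lit 72396) (.g (nat_lit 1125) (.e (nat_lit 1666) (nat_lit 116) (.e (nat_lit 401454) (nat_lit 12) (.e (nat_lit 475184) (nat_lit 29) .nil))) .nil))) (.nd (nat_lit 6) 
(.lf (nat_lit 72364) (.g (nat_lit 731) (.e (nat_lit 7936) (nat_lit 115) (.e (nat_lit 393296) (nat_lit 26) (.e (nat_lit 475216) (nat_lit 44) (.e (nat_lit 737288) (nat_lit 0) .nil)))) .nil)) 
(.lf (nat_lit 72428) (.g (nat_lit 2037) (.e (nat_lit 1667) (nat_lit 116) (.e (nat_lit 401425) (nat_lit 2) (.e (nat_lit 196666) (nat_lit 13) (.e (nat_lit 65617) (nat_lit 10) .nil)))) .nil)))) (.nd (nat_lit 5) (.nd (nat_lit 6) 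
(.lf (nat_lit 72348) (.g (nat_lit 623) (.e (nat_lit 7936) (nat_lit 115) (.e (nat_lit 393296) (nat_lit 26) (.e (nat_lit 475200) (nat_lit 40) .nil))) .nil)) 
(.lf (nat_lit 72412) (.g (nat_lit 4012) (.e (nat_lit 1666) (nat_lit 116) (.e (nat_lit 401457) (nat_lit 13) (.e (nat_lit 483413) (nat_lit 27) (.e (nat_lit 401447) (nat_lit 10) (.e (nat_lit 434203) (nat_lit 18) .nil))))) .nil))) (.nd (nat_lit 6) 
(.lf (nat_lit 72380) (.g (nat_lit 1628) (.e (nat_lit 7936) (nat_lit 115) (.e (nat_lit 393300) (nat_lit 27) (.e (nat_lit 491568) (nat_lit 13) (.e (nat_lit 393234) (nat_lit 17) .nil)))) .nil)) 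
(.lf (nat_lit 72444) (.g (nat_lit 1336) (.e (nat_lit 1667) (nat_lit 116) (.e (nat_lit 401453) (nat_lit 12) (.e (nat_lit 475207) (nat_lit 41) (.e (nat_lit 712755) (nat_lit 30) (.e (nat_lit 450597) (nat_lit 17) (.e (nat_lit 663561) (nat_lit 0) .nil)))))) (.g (nat_lit 4) .nil .nil)))))))) (.nd (nat_lit 2) (.nd (nat_lit 3) (.nd (nat_lit 4) (.nd (nat_lit 5) (.nd (nat_lit 6) 
(.lf (nat_lit 72322) (.g (nat_lit 2327) (.e (nat_lit 1665) (nat_lit 115) (.e (nat_lit 393301) (nat_lit 27) (.e (nat_lit 491568) (nat_lit 13) (.e (nat_lit 393248) (nat_lit 17) .nil)))) .nil)) 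
(.lf (nat_lit 72386) (.g (nat_lit 1409) (.e (nat_lit 7936) (nat_lit 115) (.e (nat_lit 393301) (nat_lit 27) (.e (nat_lit 491552) (nat_lit 9) (.e (nat_lit 336253) (nat_lit 15) (.e (nat_lit 7086) (nat_lit 379) .nil))))) .nil))) (.nd (nat_lit 6) 
(.lf (nat_lit 72354) (.g (nat_lit 845) (.e (nat_lit 7936) (nat_lit 115) (.e (nat_lit 393296) (nat_lit 26) (.e (nat_lit 475208) (nat_lit 41) (.e (nat_lit 712749) (nat_lit 28) (.e (nat_lit 442112) (nat_lit 0) .nil))))) .nil)) 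
(.lf (nat_lit 72418) (.g (nat_lit 968) (.e (nat_lit 1666) (nat_lit 116) (.e (nat_lit 401459) (nat_lit 13) (.e (nat_lit 483372) (nat_lit 21) .nil))) .nil)))) (.nd (nat_lit 5) (.nd (nat_lit 6) 
(.lf (nat_lit 72338) (.g (nat_lit 1165) (.e (nat_lit 7936) (nat_lit 115) (.e (nat_lit 393295) (nat_lit 26) (.e (nat_lit 475198) (nat_lit 40) (.e (nat_lit 704595) (nat_lit 5) .nil)))) .nil)) 
(.lf (nat_lit 72402) (.g (nat_lit 3132) (.e (nat_lit 1666) (nat_lit 116) (.e (nat_lit 401454) (nat_lit 12) (.e (nat_lit 475185) (nat_lit 29) (.e (nat_lit 557107) (nat_lit 15) .nil)))) .nil))) (.nd (nat_lit 6) 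
(.lf (nat_lit 72370) (.g (nat_lit 976) (.e (nat_lit 7936) (nat_lit 115) (.e (nat_lit 393296) (nat_lit 26) (.e (nat_lit 475219) (nat_lit 44) (.e (nat_lit 737286) (nat_lit 0) (.e (nat_lit 4995) (nat_lit 288) .nil))))) .nil)) 
(.lf (nat_lit 72434) (.g (nat_lit 591) (.e (nat_lit 1667) (nat_lit 116) (.e (nat_lit 401452) (nat_lit 12) (.e (nat_lit 475184) (nat_lit 29) .nil))) .nil))))) (.nd (nat_lit 4) (.nd (nat_lit 5) (.nd (nat_lit 6) 
(.lf (nat_lit 72330) (.g (nat_lit 873) (.e (nat_lit 7936) (nat_lit 115) (.e (nat_lit 393273) (nat_lit 23) (.e (nat_lit 426444) (nat_lit 19) (.e (nat_lit 114432) (nat_lit 4) .nil)))) .nil)) 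
(.lf (nat_lit 72394) (.g (nat_lit 3904) (.e (nat_lit 1666) (nat_lit 116) (.e (nat_lit 401451) (nat_lit 12) (.e (nat_lit 475185) (nat_lit 29) (.e (nat_lit 557107) (nat_lit 15) .nil)))) .nil))) (.nd (nat_lit 6) 
(.lf (nat_lit 72362) (.g (nat_lit 2137) (.e (nat_lit 7936) (nat_lit 115) (.e (nat_lit 393296) (nat_lit 26) (.e (nat_lit 475210) (nat_lit 41) (.e (nat_lit 712745) (nat_lit 27) (.e (nat_lit 425984) (nat_lit 0) .nil))))) .nil)) 
(.lf (nat_lit 72426) (.g (nat_lit 4900) (.e (nat_lit 1667) (nat_lit 116) (.e (nat_lit 401425) (nat_lit 2) (.e (nat_lit 196666) (nat_lit 13) (.e (nat_lit 65610) (nat_lit 10) (.e (nat_lit 344117) (nat_lit 21) (.e (nat_lit 516106) (nat_lit 0) (.e (nat_lit 7556) (nat_lit 402) .nil))))))) (.g (nat_lit 0) .nil .nil))))) (.nd (nat_lit 5) (.nd (nat_lit 6) 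
(.lf (nat_lit 72346) (.g (nat_lit 1225) (.e (nat_lit 7936) (nat_lit 115) (.e (nat_lit 393296) (nat_lit 26) (.e (nat_lit 475197) (nat_lit 40) (.e (nat_lit 704595) (nat_lit 5) (.e (nat_lit 180276) (nat_lit 32) .nil))))) .nil)) 
(.lf (nat_lit 72410) (.g (nat_lit 3088) (.e (nat_lit 1666) (nat_lit 116) (.e (nat_lit 401457) (nat_lit 13) (.e (nat_lit 483413) (nat_lit 27) (.e (nat_lit 401446) (nat_lit 10) (.e (nat_lit 434202) (nat_lit 18) .nil))))) .nil))) (.nd (nat_lit 6) 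
(.lf (nat_lit 72378) (.g (nat_lit 3136) (.e (nat_lit 7936) (nat_lit 115) (.e (nat_lit 393300) (nat_lit 27) (.e (nat_lit 491549) (nat_lit 9) (.e (nat_lit 336421) (nat_lit 28) (.e (nat_lit 434179) (nat_lit 0) .nil))))) .nil)) 
(.lf (nat_lit 72442) (.g (nat_lit 2363) (.e (nat_lit 1667) (nat_lit 116) (.e (nat_lit 401453) (nat_lit 12) (.e (nat_lit 475207) (nat_lit 41) (.e (nat_lit 712755) (nat_lit 30) (.e (nat_lit 450597) (nat_lit 17) (.e (nat_lit 663555) (nat_lit 0) .nil)))))) (.g (nat_lit 0) .nil .nil))))))) (.nd (nat_lit 3) (.nd (nat_lit 4) (.nd (nat_lit 5) (.nd (nat_lit 6) 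
(.lf (nat_lit 72326) (.g (nat_lit 122) (.e (nat_lit 7936) (nat_lit 115) (.e (nat_lit 393268) (nat_lit 23) (.e (nat_lit 426444) (nat_lit 19) .nil))) .nil)) 
(.lf (nat_lit 72390) (.g (nat_lit 1429) (.e (nat_lit 7936) (nat_lit 115) (.e (nat_lit 393301) (nat_lit 27) (.e (nat_lit 491563) (nat_lit 12) (.e (nat_lit 392960) (nat_lit 17) .nil)))) .nil))) (.nd (nat_lit 6) 
(.lf (nat_lit 72358) (.g (nat_lit 1128) (.e (nat_lit 7936) (nat_lit 115) (.e (nat_lit 393296) (nat_lit 26) (.e (nat_lit 475209) (nat_lit 41) (.e (nat_lit 712747) (nat_lit 28) (.e (nat_lit 434177) (nat_lit 0) .nil))))) .nil)) 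
(.lf (nat_lit 72422) (.g (nat_lit 3197) (.e (nat_lit 1667) (nat_lit 116) (.e (nat_lit 401425) (nat_lit 2) (.e (nat_lit 196666) (nat_lit 13) (.e (nat_lit 65610) (nat_lit 10) (.e (nat_lit 344117) (nat_lit 21) .nil))))) .nil)))) (.nd (nat_lit 5) (.nd (nat_lit 6) 
(.lf (nat_lit 72342) (.g (nat_lit 737) (.e (nat_lit 7936) (nat_lit 115) (.e (nat_lit 393295) (nat_lit 26) (.e (nat_lit 475219) (nat_lit 44) (.e (nat_lit 737286) (nat_lit 0) (.e (nat_lit 4995) (nat_lit 288) .nil))))) .nil)) 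
(.lf (nat_lit 72406) (.g (nat_lit 1736) (.e (nat_lit 1666) (nat_lit 116) (.e (nat_lit 401454) (nat_lit 12) (.e (nat_lit 475209) (nat_lit 41) (.e (nat_lit 712755) (nat_lit 30) .nil)))) .nil))) (.nd (nat_lit 6) 
(.lf (nat_lit 72374) (.g (nat_lit 2255) (.e (nat_lit 7936) (nat_lit 115) (.e (nat_lit 393299) (nat_lit 27) (.e (nat_lit 491568) (nat_lit 13) (.e (nat_lit 393234) (nat_lit 17) .nil)))) .nil)) 
(.lf (nat_lit 72438) (.g (nat_lit 2450) (.e (nat_lit 1667) (nat_lit 116) (.e (nat_lit 401453) (nat_lit 12) (.e (nat_lit 475184) (nat_lit 29) (.e (nat_lit 557109) (nat_lit 15) (.e (nat_lit 188458) (nat_lit 25) (.e (nat_lit 245784) (nat_lit 9) .nil)))))) (.g (nat_lit 5) .nil .nil)))))) (.nd (nat_lit 4) (.nd (nat_lit 5) (.nd (nat_lit 6) 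
(.lf (nat_lit 72334) (.g (nat_lit 116) (.e (nat_lit 7936) (nat_lit 115) (.e (nat_lit 393291) (nat_lit 26) (.e (nat_lit 475201) (nat_lit 40) .nil))) .nil)) 
(.lf (nat_lit 72398) (.g (nat_lit 3317) (.e (nat_lit 1666) (nat_lit 116) (.e (nat_lit 401454) (nat_lit 12) (.e (nat_lit 475184) (nat_lit 29) (.e (nat_lit 557109) (nat_lit 15) (.e (nat_lit 188458) (nat_lit 25) (.e (nat_lit 245781) (nat_lit 9) .nil)))))) (.g (nat_lit 6) .nil .nil)))) (.nd (nat_lit 6) 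
(.lf (nat_lit 72366) (.g (nat_lit 498) (.e (nat_lit 7936) (nat_lit 115) (.e (nat_lit 393296) (nat_lit 26) (.e (nat_lit 475218) (nat_lit 44) (.e (nat_lit 737286) (nat_lit 0) .nil)))) .nil)) 
(.lf (nat_lit 72430) (.g (nat_lit 1272) (.e (nat_lit 1667) (nat_lit 116) (.e (nat_lit 401437) (nat_lit 9) (.e (nat_lit 426402) (nat_lit 15) (.e (nat_lit 1849) (nat_lit 124) .nil)))) .nil)))) (.nd (nat_lit 5) (.nd (nat_lit 6) 
(.lf (nat_lit 72350) (.g (nat_lit 449) (.e (nat_lit 7936) (nat_lit 115) (.e (nat_lit 393296) (nat_lit 26) (.e (nat_lit 475207) (nat_lit 41) .nil))) .nil)) 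
(.lf (nat_lit 72414) (.g (nat_lit 3478) (.e (nat_lit 1666) (nat_lit 116) (.e (nat_lit 401457) (nat_lit 13) (.e (nat_lit 483413) (nat_lit 27) (.e (nat_lit 401448) (nat_lit 10) (.e (nat_lit 434200) (nat_lit 18) .nil))))) .nil))) (.nd (nat_lit 6) 
(.lf (nat_lit 72382) (.g (nat_lit 1949) (.e (nat_lit 7936) (nat_lit 115) (.e (nat_lit 393300) (nat_lit 27) (.e (nat_lit 491570) (nat_lit 13) (.e (nat_lit 393232) (nat_lit 17) .nil)))) .nil)) 
(.lf (nat_lit 72446) (.g (nat_lit 3723) (.e (nat_lit 1667) (nat_lit 116) (.e (nat_lit 401454) (nat_lit 12) (.e (nat_lit 475183) (nat_lit 29) (.e (nat_lit 557107) (nat_lit 15) (.e (nat_lit 188447) (nat_lit 22) (.e (nat_lit 196630) (nat_lit 9) .nil)))))) (.g (nat_lit 6) .nil .nil))))))))) (.nd (nat_lit 1) (.nd (nat_lit 2) (.nd (nat_lit 3) (.nd (nat_lit 4) (.nd (nat_lit 5) (.nd (nat_lit 6) 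
(.lf (nat_lit 72321) (.g (nat_lit 2336) (.e (nat_lit 1665) (nat_lit 115) (.e (nat_lit 393301) (nat_lit 27) (.e (nat_lit 491568) (nat_lit 13) (.e (nat_lit 393245) (nat_lit 17) .nil)))) .nil)) 
(.lf (nat_lit 72385) (.g (nat_lit 1300) (.e (nat_lit 7936) (nat_lit 115) (.e (nat_lit 393301) (nat_lit 27) (.e (nat_lit 491552) (nat_lit 9) (.e (nat_lit 336250) (nat_lit 15) .nil)))) .nil))) (.nd (nat_lit 6) 
(.lf (nat_lit 72353) (.g (nat_lit 391) (.e (nat_lit 7936) (nat_lit 115) (.e (nat_lit 393296) (nat_lit 26) (.e (nat_lit 475208) (nat_lit 41) .nil))) .nil)) 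
(.lf (nat_lit 72417) (.g (nat_lit 2388) (.e (nat_lit 1666) (nat_lit 116) (.e (nat_lit 401457) (nat_lit 13) (.e (nat_lit 483413) (nat_lit 27) (.e (nat_lit 401451) (nat_lit 12) .nil)))) .nil)))) (.nd (nat_lit 5) (.nd (nat_lit 6) 
(.lf (nat_lit 72337) (.g (nat_lit 673) (.e (nat_lit 7936) (nat_lit 115) (.e (nat_lit 393294) (nat_lit 26) (.e (nat_lit 475220) (nat_lit 44) .nil))) .nil)) 
(.lf (nat_lit 72401) (.g (nat_lit 2494) (.e (nat_lit 1666) (nat_lit 116) (.e (nat_lit 401454) (nat_lit 12) (.e (nat_lit 475185) (nat_lit 29) (.e (nat_lit 557101) (nat_lit 13) .nil)))) .nil))) (.nd (nat_lit 6) 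
(.lf (nat_lit 72369) (.g (nat_lit 842) (.e (nat_lit 7936) (nat_lit 115) (.e (nat_lit 393296) (nat_lit 26) (.e (nat_lit 475219) (nat_lit 44) (.e (nat_lit 737286) (nat_lit 0) .nil)))) .nil)) 
(.lf (nat_lit 72433) (.g (nat_lit 1364) (.e (nat_lit 1667) (nat_lit 116) (.e (nat_lit 401451) (nat_lit 12) (.e (nat_lit 475207) (nat_lit 41) .nil))) .nil))))) (.nd (nat_lit 4) (.nd (nat_lit 5) (.nd (nat_lit 6) 
(.lf (nat_lit 72329) (.g (nat_lit 1296) (.e (nat_lit 7936) (nat_lit 115) (.e (nat_lit 393273) (nat_lit 23) (.e (nat_lit 426364) (nat_lit 15) (.e (nat_lit 2160) (nat_lit 143) (.e (nat_lit 712749) (nat_lit 28) .nil))))) .nil)) 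
(.lf (nat_lit 72393) (.g (nat_lit 2360) (.e (nat_lit 7936) (nat_lit 115) (.e (nat_lit 393301) (nat_lit 27) (.e (nat_lit 491568) (nat_lit 13) (.e (nat_lit 393234) (nat_lit 17) .nil)))) .nil))) (.nd (nat_lit 6) 
(.lf (nat_lit 72361) (.g (nat_lit 1093) (.e (nat_lit 7936) (nat_lit 115) (.e (nat_lit 393296) (nat_lit 26) (.e (nat_lit 475209) (nat_lit 41) (.e (nat_lit 712749) (nat_lit 28) (.e (nat_lit 442112) (nat_lit 0) .nil))))) .nil)) 
(.lf (nat_lit 72425) (.g (nat_lit 3416) (.e (nat_lit 1667) (nat_lit 116) (.e (nat_lit 401425) (nat_lit 2) (.e (nat_lit 196666) (nat_lit 13) (.e (nat_lit 65610) (nat_lit 10) (.e (nat_lit 344117) (nat_lit 21) (.e (nat_lit 516098) (nat_lit 0) (.e (nat_lit 7545) (nat_lit 402) .nil))))))) (.g (nat_lit 4) .nil .nil))))) (.nd (nat_lit 5) (.nd (nat_lit 6) 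
(.lf (nat_lit 72345) (.g (nat_lit 1274) (.e (nat_lit 7936) (nat_lit 115) (.e (nat_lit 393296) (nat_lit 26) (.e (nat_lit 475197) (nat_lit 40) (.e (nat_lit 704595) (nat_lit 5) (.e (nat_lit 180275) (nat_lit 32) .nil))))) .nil)) 
(.lf (nat_lit 72409) (.g (nat_lit 1928) (.e (nat_lit 1666) (nat_lit 116) (.e (nat_lit 401457) (nat_lit 13) (.e (nat_lit 483413) (nat_lit 27) (.e (nat_lit 401446) (nat_lit 10) .nil)))) .nil))) (.nd (nat_lit 6) 
(.lf (nat_lit 72377) (.g (nat_lit 2133) (.e (nat_lit 7936) (nat_lit 115) (.e (nat_lit 393299) (nat_lit 27) (.e (nat_lit 491570) (nat_lit 13) (.e (nat_lit 393238) (nat_lit 17) (.e (nat_lit 7503) (nat_lit 402) .nil))))) .nil)) 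
(.lf (nat_lit 72441) (.g (nat_lit 2238) (.e (nat_lit 1667) (nat_lit 116) (.e (nat_lit 401453) (nat_lit 12) (.e (nat_lit 475207) (nat_lit 41) (.e (nat_lit 712755) (nat_lit 30) (.e (nat_lit 450596) (nat_lit 17) (.e (nat_lit 663557) (nat_lit 0) .nil)))))) (.g (nat_lit 6) .nil .nil))))))) (.nd (nat_lit 3) (.nd (nat_lit 4) (.nd (nat_lit 5) (.nd (nat_lit 6) 
(.lf (nat_lit 72325) (.g (nat_lit 430) (.e (nat_lit 7936) (nat_lit 115) (.e (nat_lit 393234) (nat_lit 17) (.e (nat_lit 7589) (nat_lit 406) .nil))) .nil)) 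
(.lf (nat_lit 72389) (.g (nat_lit 1409) (.e (nat_lit 7936) (nat_lit 115) (.e (nat_lit 393301) (nat_lit 27) (.e (nat_lit 491552) (nat_lit 9) (.e (nat_lit 336253) (nat_lit 15) (.e (nat_lit 7089) (nat_lit 379) .nil))))) .nil))) (.nd (nat_lit 6) 
(.lf (nat_lit 72357) (.g (nat_lit 815) (.e (nat_lit 7936) (nat_lit 115) (.e (nat_lit 393296) (nat_lit 26) (.e (nat_lit 475209) (nat_lit 41) (.e (nat_lit 720640) (nat_lit 15) .nil)))) .nil)) 
(.lf (nat_lit 72421) (.g (nat_lit 2841) (.e (nat_lit 1666) (nat_lit 116) (.e (nat_lit 401459) (nat_lit 13) (.e (nat_lit 483411) (nat_lit 27) (.e (nat_lit 401451) (nat_lit 12) (.e (nat_lit 483072) (nat_lit 8) .nil))))) (.g (nat_lit 4) .nil .nil))))) (.nd (nat_lit 5) (.nd (nat_lit 6) 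
(.lf (nat_lit 72341) (.g (nat_lit 1508) (.e (nat_lit 7936) (nat_lit 115) (.e (nat_lit 393295) (nat_lit 26) (.e (nat_lit 475199) (nat_lit 40) (.e (nat_lit 704846) (nat_lit 15) (.e (nat_lit 57811) (nat_lit 246) .nil))))) .nil)) 
(.lf (nat_lit 72405) (.g (nat_lit 4249) (.e (nat_lit 1666) (nat_lit 116) (.e (nat_lit 401454) (nat_lit 12) (.e (nat_lit 475185) (nat_lit 29) (.e (nat_lit 557109) (nat_lit 15) (.e (nat_lit 188458) (nat_lit 25) .nil))))) .nil))) (.nd (nat_lit 6) 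
(.lf (nat_lit 72373) (.g (nat_lit 715) (.e (nat_lit 7936) (nat_lit 115) (.e (nat_lit 393299) (nat_lit 27) (.e (nat_lit 491567) (nat_lit 13) .nil))) .nil)) 
(.lf (nat_lit 72437) (.g (nat_lit 3051) (.e (nat_lit 1667) (nat_lit 116) (.e (nat_lit 401452) (nat_lit 12) (.e (nat_lit 475185) (nat_lit 29) (.e (nat_lit 557109) (nat_lit 15) (.e (nat_lit 188449) (nat_lit 22) .nil))))) .nil))))) (.nd (nat_lit 4) (.nd (nat_lit 5) (.nd (nat_lit 6) 
(.lf (nat_lit 72333) (.g (nat_lit 1014) (.e (nat_lit 7936) (nat_lit 115) (.e (nat_lit 393273) (nat_lit 23) (.e (nat_lit 426444) (nat_lit 19) (.e (nat_lit 106556) (nat_lit 15) (.e (nat_lit 57808) (nat_lit 246) .nil))))) .nil)) 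
(.lf (nat_lit 72397) (.g (nat_lit 1513) (.e (nat_lit 1666) (nat_lit 116) (.e (nat_lit 401454) (nat_lit 12) (.e (nat_lit 475184) (nat_lit 29) (.e (nat_lit 557109) (nat_lit 15) .nil)))) .nil))) (.nd (nat_lit 6) 
(.lf (nat_lit 72365) (.g (nat_lit 533) (.e (nat_lit 7936) (nat_lit 115) (.e (nat_lit 393296) (nat_lit 26) (.e (nat_lit 475217) (nat_lit 44) .nil))) .nil)) 
(.lf (nat_lit 72429) (.g (nat_lit 1700) (.e (nat_lit 1667) (nat_lit 116) (.e (nat_lit 401437) (nat_lit 9) (.e (nat_lit 426402) (nat_lit 15) (.e (nat_lit 1848) (nat_lit 124) (.e (nat_lit 557108) (nat_lit 15) .nil))))) .nil)))) (.nd (nat_lit 5) (.nd (nat_lit 6) 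
(.lf (nat_lit 72349) (.g (nat_lit 589) (.e (nat_lit 7936) (nat_lit 115) (.e (nat_lit 393296) (nat_lit 26) (.e (nat_lit 475201) (nat_lit 40) .nil))) .nil)) 
(.lf (nat_lit 72413) (.g (nat_lit 2238) (.e (nat_lit 1666) (nat_lit 116) (.e (nat_lit 401457) (nat_lit 13) (.e (nat_lit 483413) (nat_lit 27) (.e (nat_lit 401448) (nat_lit 10) .nil)))) .nil))) (.nd (nat_lit 6) 
(.lf (nat_lit 72381) (.g (nat_lit 568) (.e (nat_lit 7936) (nat_lit 115) (.e (nat_lit 393300) (nat_lit 27) (.e (nat_lit 491570) (nat_lit 13) .nil))) .nil)) 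
(.lf (nat_lit 72445) (.g (nat_lit 4706) (.e (nat_lit 1667) (nat_lit 116) (.e (nat_lit 401454) (nat_lit 12) (.e (nat_lit 475183) (nat_lit 29) (.e (nat_lit 557097) (nat_lit 13) (.e (nat_lit 172097) (nat_lit 9) (.e (nat_lit 426125) (nat_lit 2) (.e (nat_lit 196630) (nat_lit 9) .nil))))))) (.g (nat_lit 0) .nil .nil)))))))) 
(.nd (nat_lit 2) (.nd (nat_lit 3) (.nd (nat_lit 4) (.nd (nat_lit 5) (.nd (nat_lit 6) 
(.lf (nat_lit 72323) (.g (nat_lit 2180) (.e (nat_lit 1665) (nat_lit 115) (.e (nat_lit 393301) (nat_lit 27) (.e (nat_lit 491568) (nat_lit 13) (.e (nat_lit 393249) (nat_lit 17) .nil)))) .nil)) 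
(.lf (nat_lit 72387) (.g (nat_lit 1411) (.e (nat_lit 7936) (nat_lit 115) (.e (nat_lit 393301) (nat_lit 27) (.e (nat_lit 491552) (nat_lit 9) (.e (nat_lit 336253) (nat_lit 15) (.e (nat_lit 7087) (nat_lit 379) .nil))))) .nil))) (.nd (nat_lit 6) 
(.lf (nat_lit 72355) (.g (nat_lit 438) (.e (nat_lit 7936) (nat_lit 115) (.e (nat_lit 393296) (nat_lit 26) (.e (nat_lit 475209) (nat_lit 41) .nil))) .nil)) 
(.lf (nat_lit 72419) (.g (nat_lit 4007) (.e (nat_lit 1666) (nat_lit 116) (.e (nat_lit 401459) (nat_lit 13) (.e (nat_lit 483372) (nat_lit 21) (.e (nat_lit 319534) (nat_lit 16) .nil)))) .nil)))) (.nd (nat_lit 5) (.nd (nat_lit 6) 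
(.lf (nat_lit 72339) (.g (nat_lit 1023) (.e (nat_lit 7936) (nat_lit 115) (.e (nat_lit 393295) (nat_lit 26) (.e (nat_lit 475198) (nat_lit 40) (.e (nat_lit 704596) (nat_lit 5) .nil)))) .nil)) 
(.lf (nat_lit 72403) (.g (nat_lit 3803) (.e (nat_lit 1666) (nat_lit 116) (.e (nat_lit 401454) (nat_lit 12) (.e (nat_lit 475185) (nat_lit 29) (.e (nat_lit 557107) (nat_lit 15) (.e (nat_lit 188447) (nat_lit 22) .nil))))) .nil))) (.nd (nat_lit 6) 
(.lf (nat_lit 72371) (.g (nat_lit 1876) (.e (nat_lit 7936) (nat_lit 115) (.e (nat_lit 393297) (nat_lit 27) (.e (nat_lit 491566) (nat_lit 12) (.e (nat_lit 385039) (nat_lit 18) .nil)))) .nil)) 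
(.lf (nat_lit 72435) (.g (nat_lit 3983) (.e (nat_lit 1667) (nat_lit 116) (.e (nat_lit 401452) (nat_lit 12) (.e (nat_lit 475185) (nat_lit 29) (.e (nat_lit 557098) (nat_lit 13) (.e (nat_lit 172097) (nat_lit 9) .nil))))) .nil))))) (.nd (nat_lit 4) (.nd (nat_lit 5) (.nd (nat_lit 6) 
(.lf (nat_lit 72331) (.g (nat_lit 873) (.e (nat_lit 7936) (nat_lit 115) (.e (nat_lit 393273) (nat_lit 23) (.e (nat_lit 426444) (nat_lit 19) (.e (nat_lit 114432) (nat_lit 5) .nil)))) .nil)) 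
(.lf (nat_lit 72395) (.g (nat_lit 2731) (.e (nat_lit 1666) (nat_lit 116) (.e (nat_lit 401454) (nat_lit 12) (.e (nat_lit 475183) (nat_lit 29) (.e (nat_lit 557108) (nat_lit 15) (.e (nat_lit 188449) (nat_lit 22) (.e (nat_lit 204544) (nat_lit 9) .nil)))))) (.g (nat_lit 5) .nil .nil)))) (.nd (nat_lit 6) 
(.lf (nat_lit 72363) (.g (nat_lit 471) (.e (nat_lit 7936) (nat_lit 115) (.e (nat_lit 393296) (nat_lit 26) (.e (nat_lit 475216) (nat_lit 44) .nil))) .nil)) 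
(.lf (nat_lit 72427) (.g (nat_lit 3596) (.e (nat_lit 1667) (nat_lit 116) (.e (nat_lit 401425) (nat_lit 2) (.e (nat_lit 196666) (nat_lit 13) (.e (nat_lit 65610) (nat_lit 10) (.e (nat_lit 344117) (nat_lit 21) (.e (nat_lit 516106) (nat_lit 0) (.e (nat_lit 7936) (nat_lit 402) .nil))))))) (.g (nat_lit 4) .nil .nil))))) (.nd (nat_lit 5) (.nd (nat_lit 6) 
(.lf (nat_lit 72347) (.g (nat_lit 1395) (.e (nat_lit 7936) (nat_lit 115) (.e (nat_lit 393296) (nat_lit 26) (.e (nat_lit 475198) (nat_lit 40) (.e (nat_lit 704596) (nat_lit 5) (.e (nat_lit 188160) (nat_lit 32) .nil))))) .nil)) 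
(.lf (nat_lit 72411) (.g (nat_lit 3080) (.e (nat_lit 1666) (nat_lit 116) (.e (nat_lit 401457) (nat_lit 13) (.e (nat_lit 483413) (nat_lit 27) (.e (nat_lit 401446) (nat_lit 10) (.e (nat_lit 434203) (nat_lit 18) .nil))))) .nil))) (.nd (nat_lit 6) 
(.lf (nat_lit 72379) (.g (nat_lit 1731) (.e (nat_lit 7936) (nat_lit 115) (.e (nat_lit 393300) (nat_lit 27) (.e (nat_lit 491549) (nat_lit 9) (.e (nat_lit 336438) (nat_lit 31) .nil)))) .nil)) 
(.lf (nat_lit 72443) (.g (nat_lit 1900) (.e (nat_lit 1667) (nat_lit 116) (.e (nat_lit 401453) (nat_lit 12) (.e (nat_lit 475207) (nat_lit 41) (.e (nat_lit 712755) (nat_lit 30) (.e (nat_lit 450597) (nat_lit 17) (.e (nat_lit 663556) (nat_lit 0) .nil)))))) (.g (nat_lit 5) .nil .nil))))))) (.nd (nat_lit 3) (.nd (nat_lit 4) (.nd (nat_lit 5) (.nd (nat_lit 6) 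
(.lf (nat_lit 72327) (.g (nat_lit 889) (.e (nat_lit 7936) (nat_lit 115) (.e (nat_lit 393273) (nat_lit 23) (.e (nat_lit 426364) (nat_lit 15) (.e (nat_lit 2160) (nat_lit 143) .nil)))) .nil)) 
(.lf (nat_lit 72391) (.g (nat_lit 2533) (.e (nat_lit 7936) (nat_lit 115) (.e (nat_lit 393301) (nat_lit 27) (.e (nat_lit 491563) (nat_lit 12) (.e (nat_lit 385039) (nat_lit 18) .nil)))) .nil))) (.nd (nat_lit 6) 
(.lf (nat_lit 72359) (.g (nat_lit 1123) (.e (nat_lit 7936) (nat_lit 115) (.e (nat_lit 393296) (nat_lit 26) (.e (nat_lit 475209) (nat_lit 41) (.e (nat_lit 712747) (nat_lit 28) (.e (nat_lit 442112) (nat_lit 0) .nil))))) .nil)) 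
(.lf (nat_lit 72423) (.g (nat_lit 3393) (.e (nat_lit 1667) (nat_lit 116) (.e (nat_lit 401425) (nat_lit 2) (.e (nat_lit 196666) (nat_lit 13) (.e (nat_lit 65610) (nat_lit 10) (.e (nat_lit 344117) (nat_lit 21) (.e (nat_lit 516097) (nat_lit 0) (.e (nat_lit 7513) (nat_lit 402) .nil))))))) (.g (nat_lit 4) .nil .nil))))) (.nd (nat_lit 5) (.nd (nat_lit 6) 
(.lf (nat_lit 72343) (.g (nat_lit 681) (.e (nat_lit 7936) (nat_lit 115) (.e (nat_lit 393295) (nat_lit 26) (.e (nat_lit 475220) (nat_lit 44) (.e (nat_lit 737286) (nat_lit 0) (.e (nat_lit 4995) (nat_lit 288) .nil))))) .nil)) 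
(.lf (nat_lit 72407) (.g (nat_lit 2506) (.e (nat_lit 1666) (nat_lit 116) (.e (nat_lit 401454) (nat_lit 12) (.e (nat_lit 475210) (nat_lit 41) (.e (nat_lit 712755) (nat_lit 30) (.e (nat_lit 450597) (nat_lit 17) .nil))))) .nil))) (.nd (nat_lit 6) 
(.lf (nat_lit 72375) (.g (nat_lit 347) (.e (nat_lit 7936) (nat_lit 115) (.e (nat_lit 393299) (nat_lit 27) (.e (nat_lit 491570) (nat_lit 13) .nil))) .nil)) 
(.lf (nat_lit 72439) (.g (nat_lit 1984) (.e (nat_lit 1667) (nat_lit 116) (.e (nat_lit 401453) (nat_lit 12) (.e (nat_lit 475185) (nat_lit 29) (.e (nat_lit 557107) (nat_lit 15) .nil)))) .nil))))) (.nd (nat_lit 4) (.nd (nat_lit 5) (.nd (nat_lit 6) 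
(.lf (nat_lit 72335) (.g (nat_lit 1190) (.e (nat_lit 7936) (nat_lit 115) (.e (nat_lit 393291) (nat_lit 26) (.e (nat_lit 475219) (nat_lit 44) (.e (nat_lit 737286) (nat_lit 0) .nil)))) .nil)) 
(.lf (nat_lit 72399) (.g (nat_lit 1117) (.e (nat_lit 1666) (nat_lit 116) (.e (nat_lit 401454) (nat_lit 12) (.e (nat_lit 475185) (nat_lit 29) .nil))) .nil))) (.nd (nat_lit 6) 
(.lf (nat_lit 72367) (.g (nat_lit 509) (.e (nat_lit 7936) (nat_lit 115) (.e (nat_lit 393296) (nat_lit 26) (.e (nat_lit 475218) (nat_lit 44) (.e (nat_lit 745216) (nat_lit 0) .nil)))) .nil)) 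
(.lf (nat_lit 72431) (.g (nat_lit 675) (.e (nat_lit 1667) (nat_lit 116) (.e (nat_lit 401437) (nat_lit 9) (.e (nat_lit 426482) (nat_lit 27) .nil))) .nil)))) (.nd (nat_lit 5) (.nd (nat_lit 6) 
(.lf (nat_lit 72351) (.g (nat_lit 869) (.e (nat_lit 7936) (nat_lit 115) (.e (nat_lit 393296) (nat_lit 26) (.e (nat_lit 475207) (nat_lit 41) (.e (nat_lit 712747) (nat_lit 28) .nil)))) .nil)) 
(.lf (nat_lit 72415) (.g (nat_lit 3828) (.e (nat_lit 1666) (nat_lit 116) (.e (nat_lit 401457) (nat_lit 13) (.e (nat_lit 483413) (nat_lit 27) (.e (nat_lit 401448) (nat_lit 10) (.e (nat_lit 434202) (nat_lit 18) .nil))))) .nil))) (.nd (nat_lit 6) 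
(.lf (nat_lit 72383) (.g (nat_lit 1009) (.e (nat_lit 7936) (nat_lit 115) (.e (nat_lit 393301) (nat_lit 27) (.e (nat_lit 491547) (nat_lit 9) .nil))) .nil)) 
(.lf (nat_lit 72447) (.g (nat_lit 2285) (.e (nat_lit 1667) (nat_lit 116) (.e (nat_lit 401454) (nat_lit 12) (.e (nat_lit 475183) (nat_lit 29) (.e (nat_lit 557108) (nat_lit 15) (.e (nat_lit 188447) (nat_lit 22) (.e (nat_lit 196630) (nat_lit 9) .nil)))))) (.g (nat_lit 4) .nil .nil))))))))))

noncomputable def tv985 : DT := (.nd (nat_lit 0) (.nd (nat_lit 1) (.nd (nat_lit 2) (.nd (nat_lit 3) (.nd (nat_lit 4) (.nd (nat_lit 5) (.nd (nat_lit 6) 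
(.lf (nat_lit 72448) (.g (nat_lit 2043) (.e (nat_lit 1667) (nat_lit 116) (.e (nat_lit 401454) (nat_lit 12) (.e (nat_lit 475183) (nat_lit 29) (.e (nat_lit 557108) (nat_lit 15) (.e (nat_lit 188449) (nat_lit 22) .nil))))) .nil)) 
(.lf (nat_lit 72512) (.g (nat_lit 2987) (.e (nat_lit 1667) (nat_lit 116) (.e (nat_lit 401457) (nat_lit 13) (.e (nat_lit 483413) (nat_lit 27) (.e (nat_lit 401448) (nat_lit 10) (.e (nat_lit 434199) (nat_lit 18) .nil))))) .nil))) (.nd (nat_lit 6) 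
(.lf (nat_lit 72480) (.g (nat_lit 3192) (.e (nat_lit 1667) (nat_lit 116) (.e (nat_lit 401454) (nat_lit 12) (.e (nat_lit 475210) (nat_lit 41) (.e (nat_lit 712755) (nat_lit 30) (.e (nat_lit 450597) (nat_lit 17) (.e (nat_lit 663555) (nat_lit 0) .nil)))))) (.g (nat_lit 0) .nil .nil))) 
(.lf (nat_lit 72544) (.g (nat_lit 817) (.e (nat_lit 1667) (nat_lit 116) (.e (nat_lit 401459) (nat_lit 13) (.e (nat_lit 483363) (nat_lit 18) .nil))) .nil)))) (.nd (nat_lit 5) (.nd (nat_lit 6) 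
(.lf (nat_lit 72464) (.g (nat_lit 2514) (.e (nat_lit 1667) (nat_lit 116) (.e (nat_lit 401454) (nat_lit 12) (.e (nat_lit 475207) (nat_lit 41) (.e (nat_lit 712755) (nat_lit 30) (.e (nat_lit 450596) (nat_lit 17) (.e (nat_lit 663557) (nat_lit 0) .nil)))))) (.g (nat_lit 6) .nil .nil))) 
(.lf (nat_lit 72528) (.g (nat_lit 2914) (.e (nat_lit 1667) (nat_lit 116) (.e (nat_lit 401457) (nat_lit 13) (.e (nat_lit 483413) (nat_lit 27) (.e (nat_lit 401448) (nat_lit 10) (.e (nat_lit 434284) (nat_lit 41) (.e (nat_lit 679949) (nat_lit 5) .nil)))))) (.g (nat_lit 5) .nil .nil)))) (.nd (nat_lit 6) 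
(.lf (nat_lit 72496) (.g (nat_lit 3058) (.e (nat_lit 1667) (nat_lit 116) (.e (nat_lit 401457) (nat_lit 13) (.e (nat_lit 483413) (nat_lit 27) (.e (nat_lit 401446) (nat_lit 10) (.e (nat_lit 434284) (nat_lit 41) (.e (nat_lit 679947) (nat_lit 5) .nil)))))) (.g (nat_lit 5) .nil .nil))) 
(.lf (nat_lit 72560) (.g (nat_lit 4518) (.e (nat_lit 1667) (nat_lit 116) (.e (nat_lit 401459) (nat_lit 13) (.e (nat_lit 483372) (nat_lit 21) (.e (nat_lit 319530) (nat_lit 16) .nil)))) .nil))))) (.nd (nat_lit 4) (.nd (nat_lit 5) (.nd (nat_lit 6) 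
(.lf (nat_lit 72456) (.g (nat_lit 2585) (.e (nat_lit 1667) (nat_lit 116) (.e (nat_lit 401454) (nat_lit 12) (.e (nat_lit 475185) (nat_lit 29) (.e (nat_lit 557097) (nat_lit 13) (.e (nat_lit 172097) (nat_lit 9) .nil))))) .nil)) 
(.lf (nat_lit 72520) (.g (nat_lit 3244) (.e (nat_lit 1667) (nat_lit 116) (.e (nat_lit 401457) (nat_lit 13) (.e (nat_lit 483413) (nat_lit 27) (.e (nat_lit 401448) (nat_lit 10) (.e (nat_lit 434209) (nat_lit 18) .nil))))) .nil))) (.nd (nat_lit 6) 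
(.lf (nat_lit 72488) (.g (nat_lit 2469) (.e (nat_lit 1667) (nat_lit 116) (.e (nat_lit 401457) (nat_lit 13) (.e (nat_lit 483413) (nat_lit 27) (.e (nat_lit 401446) (nat_lit 10) (.e (nat_lit 434202) (nat_lit 18) (.e (nat_lit 6047) (nat_lit 326) (.e (nat_lit 1015) (nat_lit 81) .nil))))))) (.g (nat_lit 4) .nil .nil))) 
(.lf (nat_lit 72552) (.g (nat_lit 2797) (.e (nat_lit 1667) (nat_lit 116) (.e (nat_lit 401459) (nat_lit 13) (.e (nat_lit 483363) (nat_lit 18) (.e (nat_lit 57691) (nat_lit 156) (.e (nat_lit 163916) (nat_lit 13) .nil))))) .nil)))) (.nd (nat_lit 5) (.nd (nat_lit 6) 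
(.lf (nat_lit 72472) (.g (nat_lit 2472) (.e (nat_lit 1667) (nat_lit 116) (.e (nat_lit 401454) (nat_lit 12) (.e (nat_lit 475208) (nat_lit 41) (.e (nat_lit 712755) (nat_lit 30) (.e (nat_lit 450597) (nat_lit 17) (.e (nat_lit 663556) (nat_lit 0) .nil)))))) (.g (nat_lit 4) .nil .nil))) 
(.lf (nat_lit 72536) (.g (nat_lit 2032) (.e (nat_lit 1667) (nat_lit 116) (.e (nat_lit 401459) (nat_lit 13) (.e (nat_lit 483344) (nat_lit 17) (.e (nat_lit 2367) (nat_lit 153) .nil)))) .nil))) (.nd (nat_lit 6) 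
(.lf (nat_lit 72504) (.g (nat_lit 3257) (.e (nat_lit 1667) (nat_lit 116) (.e (nat_lit 401457) (nat_lit 13) (.e (nat_lit 483413) (nat_lit 27) (.e (nat_lit 401447) (nat_lit 10) (.e (nat_lit 434282) (nat_lit 41) (.e (nat_lit 679946) (nat_lit 5) .nil)))))) (.g (nat_lit 4) .nil .nil))) 
(.lf (nat_lit 72568) (.g (nat_lit 1631) (.e (nat_lit 1667) (nat_lit 116) (.e (nat_lit 401459) (nat_lit 13) (.e (nat_lit 483411) (nat_lit 27) (.e (nat_lit 401448) (nat_lit 10) .nil)))) .nil)))))) (.nd (nat_lit 3) (.nd (nat_lit 4) (.nd (nat_lit 5) (.nd (nat_lit 6) 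
(.lf (nat_lit 72452) (.g (nat_lit 5313) (.e (nat_lit 1667) (nat_lit 116) (.e (nat_lit 401454) (nat_lit 12) (.e (nat_lit 475183) (nat_lit 29) (.e (nat_lit 557109) (nat_lit 15) (.e (nat_lit 188449) (nat_lit 22) (.e (nat_lit 196630) (nat_lit 9) .nil)))))) (.g (nat_lit 6) .nil .nil))) 
(.lf (nat_lit 72516) (.g (nat_lit 2937) (.e (nat_lit 1667) (nat_lit 116) (.e (nat_lit 401457) (nat_lit 13) (.e (nat_lit 483413) (nat_lit 27) (.e (nat_lit 401448) (nat_lit 10) (.e (nat_lit 434202) (nat_lit 18) .nil))))) .nil))) (.nd (nat_lit 6) 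
(.lf (nat_lit 72484) (.g (nat_lit 1009) (.e (nat_lit 1667) (nat_lit 116) (.e (nat_lit 401457) (nat_lit 13) (.e (nat_lit 483365) (nat_lit 18) .nil))) .nil)) 
(.lf (nat_lit 72548) (.g (nat_lit 1971) (.e (nat_lit 1667) (nat_lit 116) (.e (nat_lit 401459) (nat_lit 13) (.e (nat_lit 483363) (nat_lit 18) (.e (nat_lit 57665) (nat_lit 152) .nil)))) .nil)))) (.nd (nat_lit 5) (.nd (nat_lit 6) 
(.lf (nat_lit 72468) (.g (nat_lit 1374) (.e (nat_lit 1667) (nat_lit 116) (.e (nat_lit 401454) (nat_lit 12) (.e (nat_lit 475208) (nat_lit 41) (.e (nat_lit 712755) (nat_lit 30) .nil)))) .nil)) 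
(.lf (nat_lit 72532) (.g (nat_lit 709) (.e (nat_lit 1667) (nat_lit 116) (.e (nat_lit 401458) (nat_lit 13) (.e (nat_lit 483372) (nat_lit 21) .nil))) .nil))) (.nd (nat_lit 6) 
(.lf (nat_lit 72500) (.g (nat_lit 3964) (.e (nat_lit 1667) (nat_lit 116) (.e (nat_lit 401457) (nat_lit 13) (.e (nat_lit 483413) (nat_lit 27) (.e (nat_lit 401447) (nat_lit 10) (.e (nat_lit 434203) (nat_lit 18) (.e (nat_lit 6047) (nat_lit 326) (.e (nat_lit 993) (nat_lit 81) .nil))))))) (.g (nat_lit 5) .nil .nil))) 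
(.lf (nat_lit 72564) (.g (nat_lit 1709) (.e (nat_lit 1667) (nat_lit 116) (.e (nat_lit 401459) (nat_lit 13) (.e (nat_lit 483409) (nat_lit 27) (.e (nat_lit 401454) (nat_lit 12) .nil)))) .nil))))) (.nd (nat_lit 4) (.nd (nat_lit 5) (.nd (nat_lit 6) 
(.lf (nat_lit 72460) (.g (nat_lit 4625) (.e (nat_lit 1667) (nat_lit 116) (.e (nat_lit 401454) (nat_lit 12) (.e (nat_lit 475185) (nat_lit 29) (.e (nat_lit 557109) (nat_lit 15) (.e (nat_lit 188449) (nat_lit 22) (.e (nat_lit 196630) (nat_lit 9) .nil)))))) (.g (nat_lit 6) .nil .nil))) 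
(.lf (nat_lit 72524) (.g (nat_lit 2894) (.e (nat_lit 1667) (nat_lit 116) (.e (nat_lit 401457) (nat_lit 13) (.e (nat_lit 483413) (nat_lit 27) (.e (nat_lit 401448) (nat_lit 10) (.e (nat_lit 434283) (nat_lit 41) (.e (nat_lit 679946) (nat_lit 5) .nil)))))) (.g (nat_lit 5) .nil .nil)))) (.nd (nat_lit 6) 
(.lf (nat_lit 72492) (.g (nat_lit 2858) (.e (nat_lit 1667) (nat_lit 116) (.e (nat_lit 401457) (nat_lit 13) (.e (nat_lit 483413) (nat_lit 27) (.e (nat_lit 401446) (nat_lit 10) (.e (nat_lit 434283) (nat_lit 41) .nil))))) .nil)) 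
(.lf (nat_lit 72556) (.g (nat_lit 545) (.e (nat_lit 1667) (nat_lit 116) (.e (nat_lit 401459) (nat_lit 13) (.e (nat_lit 483372) (nat_lit 21) .nil))) .nil)))) (.nd (nat_lit 5) (.nd (nat_lit 6) 
(.lf (nat_lit 72476) (.g (nat_lit 3158) (.e (nat_lit 1667) (nat_lit 116) (.e (nat_lit 401454) (nat_lit 12) (.e (nat_lit 475209) (nat_lit 41) (.e (nat_lit 712755) (nat_lit 30) (.e (nat_lit 450597) (nat_lit 17) (.e (nat_lit 663555) (nat_lit 0) .nil)))))) (.g (nat_lit 0) .nil .nil))) 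
(.lf (nat_lit 72540) (.g (nat_lit 619) (.e (nat_lit 1667) (nat_lit 116) (.e (nat_lit 401459) (nat_lit 13) (.e (nat_lit 483347) (nat_lit 17) .nil))) .nil))) (.nd (nat_lit 6) 
(.lf (nat_lit 72508) (.g (nat_lit 3523) (.e (nat_lit 1667) (nat_lit 116) (.e (nat_lit 401457) (nat_lit 13) (.e (nat_lit 483413) (nat_lit 27) (.e (nat_lit 401447) (nat_lit 10) (.e (nat_lit 434284) (nat_lit 41) (.e (nat_lit 679946) (nat_lit 5) .nil)))))) (.g (nat_lit 5) .nil .nil))) 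
(.lf (nat_lit 72572) (.g (nat_lit 894) (.e (nat_lit 1668) (nat_lit 116) (.e (nat_lit 401454) (nat_lit 12) (.e (nat_lit 475183) (nat_lit 29) .nil))) .nil))))))) (.nd (nat_lit 2) (.nd (nat_lit 3) (.nd (nat_lit 4) (.nd (nat_lit 5) (.nd (nat_lit 6) 
(.lf (nat_lit 72450) (.g (nat_lit 2534) (.e (nat_lit 1667) (nat_lit 116) (.e (nat_lit 401454) (nat_lit 12) (.e (nat_lit 475183) (nat_lit 29) (.e (nat_lit 557108) (nat_lit 15) (.e (nat_lit 188458) (nat_lit 25) .nil))))) .nil)) 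
(.lf (nat_lit 72514) (.g (nat_lit 2636) (.e (nat_lit 1667) (nat_lit 116) (.e (nat_lit 401457) (nat_lit 13) (.e (nat_lit 483413) (nat_lit 27) (.e (nat_lit 401448) (nat_lit 10) (.e (nat_lit 434200) (nat_lit 18) (.e (nat_lit 6047) (nat_lit 326) (.e (nat_lit 1015) (nat_lit 81) .nil))))))) (.g (nat_lit 4) .nil .nil)))) (.nd (nat_lit 6) 
(.lf (nat_lit 72482) (.g (nat_lit 2168) (.e (nat_lit 1667) (nat_lit 116) (.e (nat_lit 401454) (nat_lit 12) (.e (nat_lit 475210) (nat_lit 41) (.e (nat_lit 712755) (nat_lit 30) (.e (nat_lit 450597) (nat_lit 17) (.e (nat_lit 663561) (nat_lit 0) .nil)))))) (.g (nat_lit 4) .nil .nil))) 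
(.lf (nat_lit 72546) (.g (nat_lit 1953) (.e (nat_lit 1667) (nat_lit 116) (.e (nat_lit 401459) (nat_lit 13) (.e (nat_lit 483363) (nat_lit 18) (.e (nat_lit 57655) (nat_lit 152) .nil)))) .nil)))) (.nd (nat_lit 5) (.nd (nat_lit 6) 
(.lf (nat_lit 72466) (.g (nat_lit 2681) (.e (nat_lit 1667) (nat_lit 116) (.e (nat_lit 401454) (nat_lit 12) (.e (nat_lit 475207) (nat_lit 41) (.e (nat_lit 712755) (nat_lit 30) (.e (nat_lit 450597) (nat_lit 17) (.e (nat_lit 663555) (nat_lit 0) .nil)))))) (.g (nat_lit 0) .nil .nil))) 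
(.lf (nat_lit 72530) (.g (nat_lit 3610) (.e (nat_lit 1667) (nat_lit 116) (.e (nat_lit 401457) (nat_lit 13) (.e (nat_lit 483413) (nat_lit 27) (.e (nat_lit 401451) (nat_lit 12) (.e (nat_lit 475143) (nat_lit 8) .nil))))) .nil))) (.nd (nat_lit 6) 
(.lf (nat_lit 72498) (.g (nat_lit 3147) (.e (nat_lit 1667) (nat_lit 116) (.e (nat_lit 401457) (nat_lit 13) (.e (nat_lit 483413) (nat_lit 27) (.e (nat_lit 401446) (nat_lit 10) (.e (nat_lit 434284) (nat_lit 41) (.e (nat_lit 679950) (nat_lit 5) .nil)))))) (.g (nat_lit 5) .nil .nil))) 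
(.lf (nat_lit 72562) (.g (nat_lit 3483) (.e (nat_lit 1667) (nat_lit 116) (.e (nat_lit 401459) (nat_lit 13) (.e (nat_lit 483372) (nat_lit 21) (.e (nat_lit 319533) (nat_lit 16) .nil)))) .nil))))) (.nd (nat_lit 4) (.nd (nat_lit 5) (.nd (nat_lit 6) 
(.lf (nat_lit 72458) (.g (nat_lit 4212) (.e (nat_lit 1667) (nat_lit 116) (.e (nat_lit 401454) (nat_lit 12) (.e (nat_lit 475185) (nat_lit 29) (.e (nat_lit 557107) (nat_lit 15) (.e (nat_lit 188447) (nat_lit 22) (.e (nat_lit 196630) (nat_lit 9) .nil)))))) (.g (nat_lit 0) .nil .nil))) 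
(.lf (nat_lit 72522) (.g (nat_lit 3055) (.e (nat_lit 1667) (nat_lit 116) (.e (nat_lit 401457) (nat_lit 13) (.e (nat_lit 483413) (nat_lit 27) (.e (nat_lit 401448) (nat_lit 10) (.e (nat_lit 434282) (nat_lit 41) (.e (nat_lit 679946) (nat_lit 5) .nil)))))) (.g (nat_lit 4) .nil .nil)))) (.nd (nat_lit 6) 
(.lf (nat_lit 72490) (.g (nat_lit 3267) (.e (nat_lit 1667) (nat_lit 116) (.e (nat_lit 401457) (nat_lit 13) (.e (nat_lit 483413) (nat_lit 27) (.e (nat_lit 401446) (nat_lit 10) (.e (nat_lit 434203) (nat_lit 18) (.e (nat_lit 6047) (nat_lit 326) (.e (nat_lit 993) (nat_lit 81) .nil))))))) (.g (nat_lit 5) .nil .nil))) 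
(.lf (nat_lit 72554) (.g (nat_lit 1694) (.e (nat_lit 1667) (nat_lit 116) (.e (nat_lit 401459) (nat_lit 13) (.e (nat_lit 483364) (nat_lit 18) (.e (nat_lit 57651) (nat_lit 152) .nil)))) .nil)))) (.nd (nat_lit 5) (.nd (nat_lit 6) 
(.lf (nat_lit 72474) (.g (nat_lit 2999) (.e (nat_lit 1667) (nat_lit 116) (.e (nat_lit 401454) (nat_lit 12) (.e (nat_lit 475209) (nat_lit 41) (.e (nat_lit 712755) (nat_lit 30) (.e (nat_lit 450596) (nat_lit 17) (.e (nat_lit 663557) (nat_lit 0) .nil)))))) (.g (nat_lit 6) .nil .nil))) 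
(.lf (nat_lit 72538) (.g (nat_lit 1994) (.e (nat_lit 1667) (nat_lit 116) (.e (nat_lit 401459) (nat_lit 13) (.e (nat_lit 483344) (nat_lit 17) (.e (nat_lit 2369) (nat_lit 153) .nil)))) .nil))) (.nd (nat_lit 6) 
(.lf (nat_lit 72506) (.g (nat_lit 3196) (.e (nat_lit 1667) (nat_lit 116) (.e (nat_lit 401457) (nat_lit 13) (.e (nat_lit 483413) (nat_lit 27) (.e (nat_lit 401447) (nat_lit 10) (.e (nat_lit 434283) (nat_lit 41) (.e (nat_lit 679946) (nat_lit 5) .nil)))))) (.g (nat_lit 4) .nil .nil))) 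
(.lf (nat_lit 72570) (.g (nat_lit 2380) (.e (nat_lit 1667) (nat_lit 116) (.e (nat_lit 401459) (nat_lit 13) (.e (nat_lit 483411) (nat_lit 27) (.e (nat_lit 401451) (nat_lit 12) (.e (nat_lit 483072) (nat_lit 8) .nil))))) (.g (nat_lit 4) .nil .nil))))))) (.nd (nat_lit 3) (.nd (nat_lit 4) (.nd (nat_lit 5) (.nd (nat_lit 6) 
(.lf (nat_lit 72454) (.g (nat_lit 3373) (.e (nat_lit 1667) (nat_lit 116) (.e (nat_lit 401454) (nat_lit 12) (.e (nat_lit 475184) (nat_lit 29) (.e (nat_lit 557109) (nat_lit 15) (.e (nat_lit 188458) (nat_lit 25) (.e (nat_lit 245782) (nat_lit 9) .nil)))))) (.g (nat_lit 5) .nil .nil))) 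
(.lf (nat_lit 72518) (.g (nat_lit 2699) (.e (nat_lit 1667) (nat_lit 116) (.e (nat_lit 401457) (nat_lit 13) (.e (nat_lit 483413) (nat_lit 27) (.e (nat_lit 401448) (nat_lit 10) (.e (nat_lit 434203) (nat_lit 18) .nil))))) .nil))) (.nd (nat_lit 6) 
(.lf (nat_lit 72486) (.g (nat_lit 2835) (.e (nat_lit 1667) (nat_lit 116) (.e (nat_lit 401457) (nat_lit 13) (.e (nat_lit 483413) (nat_lit 27) (.e (nat_lit 401446) (nat_lit 10) (.e (nat_lit 434200) (nat_lit 18) .nil))))) .nil)) 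
(.lf (nat_lit 72550) (.g (nat_lit 2121) (.e (nat_lit 1667) (nat_lit 116) (.e (nat_lit 401459) (nat_lit 13) (.e (nat_lit 483363) (nat_lit 18) (.e (nat_lit 57686) (nat_lit 156) .nil)))) .nil)))) (.nd (nat_lit 5) (.nd (nat_lit 6) 
(.lf (nat_lit 72470) (.g (nat_lit 2968) (.e (nat_lit 1667) (nat_lit 116) (.e (nat_lit 401454) (nat_lit 12) (.e (nat_lit 475208) (nat_lit 41) (.e (nat_lit 712755) (nat_lit 30) (.e (nat_lit 450596) (nat_lit 17) (.e (nat_lit 663557) (nat_lit 0) .nil)))))) (.g (nat_lit 5) .nil .nil))) 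
(.lf (nat_lit 72534) (.g (nat_lit 842) (.e (nat_lit 1667) (nat_lit 116) (.e (nat_lit 401459) (nat_lit 13) (.e (nat_lit 483343) (nat_lit 17) .nil))) .nil))) (.nd (nat_lit 6) 
(.lf (nat_lit 72502) (.g (nat_lit 4463) (.e (nat_lit 1667) (nat_lit 116) (.e (nat_lit 401457) (nat_lit 13) (.e (nat_lit 483413) (nat_lit 27) (.e (nat_lit 401447) (nat_lit 10) (.e (nat_lit 434203) (nat_lit 18) (.e (nat_lit 6047) (nat_lit 326) (.e (nat_lit 1015) (nat_lit 81) .nil))))))) (.g (nat_lit 6) .nil .nil))) 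
(.lf (nat_lit 72566) (.g (nat_lit 4122) (.e (nat_lit 1667) (nat_lit 116) (.e (nat_lit 401459) (nat_lit 13) (.e (nat_lit 483410) (nat_lit 27) (.e (nat_lit 401454) (nat_lit 12) (.e (nat_lit 475143) (nat_lit 8) .nil))))) .nil))))) (.nd (nat_lit 4) (.nd (nat_lit 5) (.nd (nat_lit 6) 
(.lf (nat_lit 72462) (.g (nat_lit 1073) (.e (nat_lit 1667) (nat_lit 116) (.e (nat_lit 401454) (nat_lit 12) (.e (nat_lit 475193) (nat_lit 38) .nil))) .nil)) 
(.lf (nat_lit 72526) (.g (nat_lit 3185) (.e (nat_lit 1667) (nat_lit 116) (.e (nat_lit 401457) (nat_lit 13) (.e (nat_lit 483413) (nat_lit 27) (.e (nat_lit 401448) (nat_lit 10) (.e (nat_lit 434284) (nat_lit 41) (.e (nat_lit 679946) (nat_lit 5) .nil)))))) (.g (nat_lit 6) .nil .nil)))) (.nd (nat_lit 6) 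
(.lf (nat_lit 72494) (.g (nat_lit 2784) (.e (nat_lit 1667) (nat_lit 116) (.e (nat_lit 401457) (nat_lit 13) (.e (nat_lit 483413) (nat_lit 27) (.e (nat_lit 401446) (nat_lit 10) (.e (nat_lit 434284) (nat_lit 41) (.e (nat_lit 679945) (nat_lit 5) .nil)))))) (.g (nat_lit 4) .nil .nil))) 
(.lf (nat_lit 72558) (.g (nat_lit 3661) (.e (nat_lit 1667) (nat_lit 116) (.e (nat_lit 401459) (nat_lit 13) (.e (nat_lit 483372) (nat_lit 21) (.e (nat_lit 319505) (nat_lit 10) .nil)))) .nil)))) (.nd (nat_lit 5) (.nd (nat_lit 6) 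
(.lf (nat_lit 72478) (.g (nat_lit 2470) (.e (nat_lit 1667) (nat_lit 116) (.e (nat_lit 401454) (nat_lit 12) (.e (nat_lit 475210) (nat_lit 41) (.e (nat_lit 712755) (nat_lit 30) (.e (nat_lit 450596) (nat_lit 17) (.e (nat_lit 663557) (nat_lit 0) .nil)))))) (.g (nat_lit 4) .nil .nil))) 
(.lf (nat_lit 72542) (.g (nat_lit 2557) (.e (nat_lit 1667) (nat_lit 116) (.e (nat_lit 401459) (nat_lit 13) (.e (nat_lit 483350) (nat_lit 17) (.e (nat_lit 7936) (nat_lit 153) .nil)))) .nil))) (.nd (nat_lit 6) 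
(.lf (nat_lit 72510) (.g (nat_lit 3196) (.e (nat_lit 1667) (nat_lit 116) (.e (nat_lit 401457) (nat_lit 13) (.e (nat_lit 483413) (nat_lit 27) (.e (nat_lit 401447) (nat_lit 10) (.e (nat_lit 434284) (nat_lit 41) (.e (nat_lit 679950) (nat_lit 5) .nil)))))) (.g (nat_lit 4) .nil .nil))) 
(.lf (nat_lit 72574) (.g (nat_lit 4516) (.e (nat_lit 1668) (nat_lit 116) (.e (nat_lit 401454) (nat_lit 12) (.e (nat_lit 475183) (nat_lit 29) (.e (nat_lit 557101) (nat_lit 13) (.e (nat_lit 172097) (nat_lit 9) (.e (nat_lit 426125) (nat_lit 2) (.e (nat_lit 196630) (nat_lit 9) .nil))))))) (.g (nat_lit 6) .nil .nil))))))))) 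
(.nd (nat_lit 1) (.nd (nat_lit 2) (.nd (nat_lit 3) (.nd (nat_lit 4) (.nd (nat_lit 5) 
(.nd (nat_lit 6) 
(.lf (nat_lit 72449) (.g (nat_lit 4464) (.e (nat_lit 1667) (nat_lit 116) (.e (nat_lit 401454) (nat_lit 12) (.e (nat_lit 475183) (nat_lit 29) (.e (nat_lit 557108) (nat_lit 15) (.e (nat_lit 188449) (nat_lit 22) (.e (nat_lit 196630) (nat_lit 9) .nil)))))) (.g (nat_lit 0) .nil .nil))) 
(.lf (nat_lit 72513) (.g (nat_lit 2587) (.e (nat_lit 1667) (nat_lit 116) (.e (nat_lit 401457) (nat_lit 13) (.e (nat_lit 483413) (nat_lit 27) (.e (nat_lit 401448) (nat_lit 10) (.e (nat_lit 434200) (nat_lit 18) .nil))))) .nil))) (.nd (nat_lit 6) 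
(.lf (nat_lit 72481) (.g (nat_lit 2732) (.e (nat_lit 1667) (nat_lit 116) (.e (nat_lit 401454) (nat_lit 12) (.e (nat_lit 475210) (nat_lit 41) (.e (nat_lit 712755) (nat_lit 30) (.e (nat_lit 450597) (nat_lit 17) (.e (nat_lit 663556) (nat_lit 0) .nil)))))) (.g (nat_lit 5) .nil .nil))) 
(.lf (nat_lit 72545) (.g (nat_lit 1966) (.e (nat_lit 1667) (nat_lit 116) (.e (nat_lit 401459) (nat_lit 13) (.e (nat_lit 483363) (nat_lit 18) (.e (nat_lit 57652) (nat_lit 152) .nil)))) .nil)))) (.nd (nat_lit 5) (.nd (nat_lit 6) 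
(.lf (nat_lit 72465) (.g (nat_lit 1731) (.e (nat_lit 1667) (nat_lit 116) (.e (nat_lit 401454) (nat_lit 12) (.e (nat_lit 475207) (nat_lit 41) (.e (nat_lit 712755) (nat_lit 30) (.e (nat_lit 450597) (nat_lit 17) .nil))))) .nil)) 
(.lf (nat_lit 72529) (.g (nat_lit 2894) (.e (nat_lit 1667) (nat_lit 116) (.e (nat_lit 401457) (nat_lit 13) (.e (nat_lit 483413) (nat_lit 27) (.e (nat_lit 401448) (nat_lit 10) (.e (nat_lit 434284) (nat_lit 41) (.e (nat_lit 679950) (nat_lit 5) .nil)))))) (.g (nat_lit 4) .nil .nil)))) (.nd (nat_lit 6) 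
(.lf (nat_lit 72497) (.g (nat_lit 3167) (.e (nat_lit 1667) (nat_lit 116) (.e (nat_lit 401457) (nat_lit 13) (.e (nat_lit 483413) (nat_lit 27) (.e (nat_lit 401446) (nat_lit 10) (.e (nat_lit 434284) (nat_lit 41) (.e (nat_lit 679949) (nat_lit 5) .nil)))))) (.g (nat_lit 5) .nil .nil))) 
(.lf (nat_lit 72561) (.g (nat_lit 4069) (.e (nat_lit 1667) (nat_lit 116) (.e (nat_lit 401459) (nat_lit 13) (.e (nat_lit 483372) (nat_lit 21) (.e (nat_lit 319531) (nat_lit 16) .nil)))) .nil))))) (.nd (nat_lit 4) (.nd (nat_lit 5) (.nd (nat_lit 6) 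
(.lf (nat_lit 72457) (.g (nat_lit 4949) (.e (nat_lit 1667) (nat_lit 116) (.e (nat_lit 401454) (nat_lit 12) (.e (nat_lit 475185) (nat_lit 29) (.e (nat_lit 557101) (nat_lit 13) (.e (nat_lit 172097) (nat_lit 9) (.e (nat_lit 426125) (nat_lit 2) (.e (nat_lit 196630) (nat_lit 9) .nil))))))) (.g (nat_lit 0) .nil .nil))) 
(.lf (nat_lit 72521) (.g (nat_lit 2928) (.e (nat_lit 1667) (nat_lit 116) (.e (nat_lit 401457) (nat_lit 13) (.e (nat_lit 483413) (nat_lit 27) (.e (nat_lit 401448) (nat_lit 10) (.e (nat_lit 434282) (nat_lit 41) .nil))))) .nil))) (.nd (nat_lit 6) 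
(.lf (nat_lit 72489) (.g (nat_lit 2436) (.e (nat_lit 1667) (nat_lit 116) (.e (nat_lit 401457) (nat_lit 13) (.e (nat_lit 483413) (nat_lit 27) (.e (nat_lit 401446) (nat_lit 10) (.e (nat_lit 434203) (nat_lit 18) .nil))))) .nil)) 
(.lf (nat_lit 72553) (.g (nat_lit 771) (.e (nat_lit 1667) (nat_lit 116) (.e (nat_lit 401459) (nat_lit 13) (.e (nat_lit 483364) (nat_lit 18) .nil))) .nil)))) (.nd (nat_lit 5) (.nd (nat_lit 6) 
(.lf (nat_lit 72473) (.g (nat_lit 2210) (.e (nat_lit 1667) (nat_lit 116) (.e (nat_lit 401454) (nat_lit 12) (.e (nat_lit 475209) (nat_lit 41) (.e (nat_lit 712755) (nat_lit 30) (.e (nat_lit 450596) (nat_lit 17) .nil))))) .nil)) 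
(.lf (nat_lit 72537) (.g (nat_lit 1994) (.e (nat_lit 1667) (nat_lit 116) (.e (nat_lit 401459) (nat_lit 13) (.e (nat_lit 483344) (nat_lit 17) (.e (nat_lit 2368) (nat_lit 153) .nil)))) .nil))) (.nd (nat_lit 6) 
(.lf (nat_lit 72505) (.g (nat_lit 3161) (.e (nat_lit 1667) (nat_lit 116) (.e (nat_lit 401457) (nat_lit 13) (.e (nat_lit 483413) (nat_lit 27) (.e (nat_lit 401447) (nat_lit 10) (.e (nat_lit 434283) (nat_lit 41) .nil))))) .nil)) 
(.lf (nat_lit 72569) (.g (nat_lit 4213) (.e (nat_lit 1667) (nat_lit 116) (.e (nat_lit 401459) (nat_lit 13) (.e (nat_lit 483411) (nat_lit 27) (.e (nat_lit 401451) (nat_lit 12) (.e (nat_lit 475143) (nat_lit 8) .nil))))) .nil)))))) (.nd (nat_lit 3) (.nd (nat_lit 4) (.nd (nat_lit 5) (.nd (nat_lit 6) 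
(.lf (nat_lit 72453) (.g (nat_lit 1499) (.e (nat_lit 1667) (nat_lit 116) (.e (nat_lit 401454) (nat_lit 12) (.e (nat_lit 475184) (nat_lit 29) (.e (nat_lit 557109) (nat_lit 15) (.e (nat_lit 188458) (nat_lit 25) .nil))))) .nil)) 
(.lf (nat_lit 72517) (.g (nat_lit 3071) (.e (nat_lit 1667) (nat_lit 116) (.e (nat_lit 401457) (nat_lit 13) (.e (nat_lit 483413) (nat_lit 27) (.e (nat_lit 401448) (nat_lit 10) (.e (nat_lit 434202) (nat_lit 18) (.e (nat_lit 6047) (nat_lit 326) (.e (nat_lit 993) (nat_lit 81) .nil))))))) (.g (nat_lit 4) .nil .nil)))) (.nd (nat_lit 6) 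
(.lf (nat_lit 72485) (.g (nat_lit 1284) (.e (nat_lit 1667) (nat_lit 116) (.e (nat_lit 401457) (nat_lit 13) (.e (nat_lit 483413) (nat_lit 27) (.e (nat_lit 401446) (nat_lit 10) .nil)))) .nil)) 
(.lf (nat_lit 72549) (.g (nat_lit 1964) (.e (nat_lit 1667) (nat_lit 116) (.e (nat_lit 401459) (nat_lit 13) (.e (nat_lit 483363) (nat_lit 18) (.e (nat_lit 57667) (nat_lit 152) .nil)))) .nil)))) (.nd (nat_lit 5) (.nd (nat_lit 6) 
(.lf (nat_lit 72469) (.g (nat_lit 2162) (.e (nat_lit 1667) (nat_lit 116) (.e (nat_lit 401454) (nat_lit 12) (.e (nat_lit 475208) (nat_lit 41) (.e (nat_lit 712755) (nat_lit 30) (.e (nat_lit 450596) (nat_lit 17) (.e (nat_lit 663556) (nat_lit 0) .nil)))))) (.g (nat_lit 4) .nil .nil))) 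
(.lf (nat_lit 72533) (.g (nat_lit 1758) (.e (nat_lit 1667) (nat_lit 116) (.e (nat_lit 401458) (nat_lit 13) (.e (nat_lit 483372) (nat_lit 21) (.e (nat_lit 319505) (nat_lit 10) .nil)))) .nil))) (.nd (nat_lit 6) 
(.lf (nat_lit 72501) (.g (nat_lit 3514) (.e (nat_lit 1667) (nat_lit 116) (.e (nat_lit 401457) (nat_lit 13) (.e (nat_lit 483413) (nat_lit 27) (.e (nat_lit 401447) (nat_lit 10) (.e (nat_lit 434203) (nat_lit 18) (.e (nat_lit 6047) (nat_lit 326) (.e (nat_lit 1008) (nat_lit 81) .nil))))))) (.g (nat_lit 4) .nil .nil))) 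
(.lf (nat_lit 72565) (.g (nat_lit 4176) (.e (nat_lit 1667) (nat_lit 116) (.e (nat_lit 401459) (nat_lit 13) (.e (nat_lit 483410) (nat_lit 27) (.e (nat_lit 401454) (nat_lit 12) (.e (nat_lit 475141) (nat_lit 8) .nil))))) .nil))))) (.nd (nat_lit 4) (.nd (nat_lit 5) (.nd (nat_lit 6) 
(.lf (nat_lit 72461) (.g (nat_lit 2837) (.e (nat_lit 1667) (nat_lit 116) (.e (nat_lit 401454) (nat_lit 12) (.e (nat_lit 475185) (nat_lit 29) (.e (nat_lit 557109) (nat_lit 15) (.e (nat_lit 188458) (nat_lit 25) (.e (nat_lit 245784) (nat_lit 9) .nil)))))) (.g (nat_lit 4) .nil .nil))) 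
(.lf (nat_lit 72525) (.g (nat_lit 2651) (.e (nat_lit 1667) (nat_lit 116) (.e (nat_lit 401457) (nat_lit 13) (.e (nat_lit 483413) (nat_lit 27) (.e (nat_lit 401448) (nat_lit 10) (.e (nat_lit 434284) (nat_lit 41) .nil))))) .nil))) (.nd (nat_lit 6) 
(.lf (nat_lit 72493) (.g (nat_lit 2761) (.e (nat_lit 1667) (nat_lit 116) (.e (nat_lit 401457) (nat_lit 13) (.e (nat_lit 483413) (nat_lit 27) (.e (nat_lit 401446) (nat_lit 10) (.e (nat_lit 434284) (nat_lit 41) .nil))))) .nil)) 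
(.lf (nat_lit 72557) (.g (nat_lit 3814) (.e (nat_lit 1667) (nat_lit 116) (.e (nat_lit 401459) (nat_lit 13) (.e (nat_lit 483372) (nat_lit 21) (.e (nat_lit 319504) (nat_lit 10) .nil)))) .nil)))) (.nd (nat_lit 5) (.nd (nat_lit 6) 
(.lf (nat_lit 72477) (.g (nat_lit 1228) (.e (nat_lit 1667) (nat_lit 116) (.e (nat_lit 401454) (nat_lit 12) (.e (nat_lit 475210) (nat_lit 41) (.e (nat_lit 712755) (nat_lit 30) .nil)))) .nil)) 
(.lf (nat_lit 72541) (.g (nat_lit 1271) (.e (nat_lit 1667) (nat_lit 116) (.e (nat_lit 401459) (nat_lit 13) (.e (nat_lit 483350) (nat_lit 17) .nil))) .nil))) (.nd (nat_lit 6) 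
(.lf (nat_lit 72509) (.g (nat_lit 3216) (.e (nat_lit 1667) (nat_lit 116) (.e (nat_lit 401457) (nat_lit 13) (.e (nat_lit 483413) (nat_lit 27) (.e (nat_lit 401447) (nat_lit 10) (.e (nat_lit 434284) (nat_lit 41) (.e (nat_lit 679949) (nat_lit 5) .nil)))))) (.g (nat_lit 4) .nil .nil))) 
(.lf (nat_lit 72573) (.g (nat_lit 4534) (.e (nat_lit 1668) (nat_lit 116) (.e (nat_lit 401454) (nat_lit 12) (.e (nat_lit 475183) (nat_lit 29) (.e (nat_lit 557097) (nat_lit 13) (.e (nat_lit 172097) (nat_lit 9) (.e (nat_lit 426125) (nat_lit 2) (.e (nat_lit 196630) (nat_lit 9) .nil))))))) (.g (nat_lit 7) .nil .nil)))))))) 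
(.nd (nat_lit 2) (.nd (nat_lit 3) (.nd (nat_lit 4) (.nd (nat_lit 5) (.nd (nat_lit 6) 
(.lf (nat_lit 72451) (.g (nat_lit 1741) (.e (nat_lit 1667) (nat_lit 116) (.e (nat_lit 401454) (nat_lit 12) (.e (nat_lit 475183) (nat_lit 29) (.e (nat_lit 557109) (nat_lit 15) .nil)))) .nil)) 
(.lf (nat_lit 72515) (.g (nat_lit 2551) (.e (nat_lit 1667) (nat_lit 116) (.e (nat_lit 401457) (nat_lit 13) (.e (nat_lit 483413) (nat_lit 27) (.e (nat_lit 401448) (nat_lit 10) (.e (nat_lit 434201) (nat_lit 18) .nil))))) .nil))) (.nd (nat_lit 6) 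
(.lf (nat_lit 72483) (.g (nat_lit 558) (.e (nat_lit 1667) (nat_lit 116) (.e (nat_lit 401456) (nat_lit 13) (.e (nat_lit 483413) (nat_lit 27) .nil))) .nil)) 
(.lf (nat_lit 72547) (.g (nat_lit 1947) (.e (nat_lit 1667) (nat_lit 116) (.e (nat_lit 401459) (nat_lit 13) (.e (nat_lit 483363) (nat_lit 18) (.e (nat_lit 57657) (nat_lit 152) .nil)))) .nil)))) (.nd (nat_lit 5) (.nd (nat_lit 6) 
(.lf (nat_lit 72467) (.g (nat_lit 2226) (.e (nat_lit 1667) (nat_lit 116) (.e (nat_lit 401454) (nat_lit 12) (.e (nat_lit 475207) (nat_lit 41) (.e (nat_lit 712755) (nat_lit 30) (.e (nat_lit 450597) (nat_lit 17) (.e (nat_lit 663556) (nat_lit 0) .nil)))))) (.g (nat_lit 5) .nil .nil))) 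
(.lf (nat_lit 72531) (.g (nat_lit 825) (.e (nat_lit 1667) (nat_lit 116) (.e (nat_lit 401458) (nat_lit 13) (.e (nat_lit 483365) (nat_lit 18) .nil))) .nil))) (.nd (nat_lit 6) 
(.lf (nat_lit 72499) (.g (nat_lit 2885) (.e (nat_lit 1667) (nat_lit 116) (.e (nat_lit 401457) (nat_lit 13) (.e (nat_lit 483413) (nat_lit 27) (.e (nat_lit 401446) (nat_lit 10) (.e (nat_lit 434284) (nat_lit 41) (.e (nat_lit 679952) (nat_lit 5) .nil)))))) (.g (nat_lit 4) .nil .nil))) 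
(.lf (nat_lit 72563) (.g (nat_lit 3547) (.e (nat_lit 1667) (nat_lit 116) (.e (nat_lit 401459) (nat_lit 13) (.e (nat_lit 483372) (nat_lit 21) (.e (nat_lit 319534) (nat_lit 16) .nil)))) .nil))))) (.nd (nat_lit 4) (.nd (nat_lit 5) (.nd (nat_lit 6) 
(.lf (nat_lit 72459) (.g (nat_lit 1438) (.e (nat_lit 1667) (nat_lit 116) (.e (nat_lit 401454) (nat_lit 12) (.e (nat_lit 475185) (nat_lit 29) (.e (nat_lit 557109) (nat_lit 15) (.e (nat_lit 188449) (nat_lit 22) .nil))))) .nil)) 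
(.lf (nat_lit 72523) (.g (nat_lit 2552) (.e (nat_lit 1667) (nat_lit 116) (.e (nat_lit 401457) (nat_lit 13) (.e (nat_lit 483413) (nat_lit 27) (.e (nat_lit 401448) (nat_lit 10) (.e (nat_lit 434283) (nat_lit 41) .nil))))) .nil))) (.nd (nat_lit 6) 
(.lf (nat_lit 72491) (.g (nat_lit 2873) (.e (nat_lit 1667) (nat_lit 116) (.e (nat_lit 401457) (nat_lit 13) (.e (nat_lit 483413) (nat_lit 27) (.e (nat_lit 401446) (nat_lit 10) (.e (nat_lit 434282) (nat_lit 41) .nil))))) .nil)) 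
(.lf (nat_lit 72555) (.g (nat_lit 1297) (.e (nat_lit 1667) (nat_lit 116) (.e (nat_lit 401459) (nat_lit 13) (.e (nat_lit 483365) (nat_lit 18) .nil))) .nil)))) (.nd (nat_lit 5) (.nd (nat_lit 6) 
(.lf (nat_lit 72475) (.g (nat_lit 2228) (.e (nat_lit 1667) (nat_lit 116) (.e (nat_lit 401454) (nat_lit 12) (.e (nat_lit 475209) (nat_lit 41) (.e (nat_lit 712755) (nat_lit 30) (.e (nat_lit 450597) (nat_lit 17) .nil))))) .nil)) 
(.lf (nat_lit 72539) (.g (nat_lit 2080) (.e (nat_lit 1667) (nat_lit 116) (.e (nat_lit 401459) (nat_lit 13) (.e (nat_lit 483344) (nat_lit 17) (.e (nat_lit 7936) (nat_lit 153) .nil)))) .nil))) (.nd (nat_lit 6) 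
(.lf (nat_lit 72507) (.g (nat_lit 3162) (.e (nat_lit 1667) (nat_lit 116) (.e (nat_lit 401457) (nat_lit 13) (.e (nat_lit 483413) (nat_lit 27) (.e (nat_lit 401447) (nat_lit 10) (.e (nat_lit 434284) (nat_lit 41) .nil))))) .nil)) 
(.lf (nat_lit 72571) (.g (nat_lit 795) (.e (nat_lit 1668) (nat_lit 116) (.e (nat_lit 401454) (nat_lit 12) (.e (nat_lit 475179) (nat_lit 24) .nil))) .nil)))))) (.nd (nat_lit 3) (.nd (nat_lit 4) (.nd (nat_lit 5) (.nd (nat_lit 6) 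
(.lf (nat_lit 72455) (.g (nat_lit 3260) (.e (nat_lit 1667) (nat_lit 116) (.e (nat_lit 401454) (nat_lit 12) (.e (nat_lit 475184) (nat_lit 29) (.e (nat_lit 557109) (nat_lit 15) (.e (nat_lit 188458) (nat_lit 25) (.e (nat_lit 245783) (nat_lit 9) .nil)))))) (.g (nat_lit 5) .nil .nil))) 
(.lf (nat_lit 72519) (.g (nat_lit 2541) (.e (nat_lit 1667) (nat_lit 116) (.e (nat_lit 401457) (nat_lit 13) (.e (nat_lit 483413) (nat_lit 27) (.e (nat_lit 401448) (nat_lit 10) (.e (nat_lit 434206) (nat_lit 18) .nil))))) .nil))) (.nd (nat_lit 6) 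
(.lf (nat_lit 72487) (.g (nat_lit 2445) (.e (nat_lit 1667) (nat_lit 116) (.e (nat_lit 401457) (nat_lit 13) (.e (nat_lit 483413) (nat_lit 27) (.e (nat_lit 401446) (nat_lit 10) (.e (nat_lit 434202) (nat_lit 18) .nil))))) .nil)) 
(.lf (nat_lit 72551) (.g (nat_lit 2715) (.e (nat_lit 1667) (nat_lit 116) (.e (nat_lit 401459) (nat_lit 13) (.e (nat_lit 483363) (nat_lit 18) (.e (nat_lit 57688) (nat_lit 156) (.e (nat_lit 163916) (nat_lit 13) .nil))))) .nil)))) (.nd (nat_lit 5) (.nd (nat_lit 6) 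
(.lf (nat_lit 72471) (.g (nat_lit 2946) (.e (nat_lit 1667) (nat_lit 116) (.e (nat_lit 401454) (nat_lit 12) (.e (nat_lit 475208) (nat_lit 41) (.e (nat_lit 712755) (nat_lit 30) (.e (nat_lit 450597) (nat_lit 17) (.e (nat_lit 663555) (nat_lit 0) .nil)))))) (.g (nat_lit 5) .nil .nil))) 
(.lf (nat_lit 72535) (.g (nat_lit 838) (.e (nat_lit 1667) (nat_lit 116) (.e (nat_lit 401459) (nat_lit 13) (.e (nat_lit 483344) (nat_lit 17) .nil))) .nil))) (.nd (nat_lit 6) 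
(.lf (nat_lit 72503) (.g (nat_lit 3211) (.e (nat_lit 1667) (nat_lit 116) (.e (nat_lit 401457) (nat_lit 13) (.e (nat_lit 483413) (nat_lit 27) (.e (nat_lit 401447) (nat_lit 10) (.e (nat_lit 434282) (nat_lit 41) .nil))))) .nil)) 
(.lf (nat_lit 72567) (.g (nat_lit 675) (.e (nat_lit 1667) (nat_lit 116) (.e (nat_lit 401459) (nat_lit 13) (.e (nat_lit 483411) (nat_lit 27) .nil))) .nil))))) (.nd (nat_lit 4) (.nd (nat_lit 5) (.nd (nat_lit 6) 
(.lf (nat_lit 72463) (.g (nat_lit 1755) (.e (nat_lit 1667) (nat_lit 116) (.e (nat_lit 401454) (nat_lit 12) (.e (nat_lit 475207) (nat_lit 41) (.e (nat_lit 712755) (nat_lit 30) (.e (nat_lit 450596) (nat_lit 17) .nil))))) .nil)) 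
(.lf (nat_lit 72527) (.g (nat_lit 2805) (.e (nat_lit 1667) (nat_lit 116) (.e (nat_lit 401457) (nat_lit 13) (.e (nat_lit 483413) (nat_lit 27) (.e (nat_lit 401448) (nat_lit 10) (.e (nat_lit 434284) (nat_lit 41) (.e (nat_lit 679947) (nat_lit 5) .nil)))))) (.g (nat_lit 4) .nil .nil)))) (.nd (nat_lit 6) 
(.lf (nat_lit 72495) (.g (nat_lit 3455) (.e (nat_lit 1667) (nat_lit 116) (.e (nat_lit 401457) (nat_lit 13) (.e (nat_lit 483413) (nat_lit 27) (.e (nat_lit 401446) (nat_lit 10) (.e (nat_lit 434284) (nat_lit 41) (.e (nat_lit 679946) (nat_lit 5) .nil)))))) (.g (nat_lit 0) .nil .nil))) 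
(.lf (nat_lit 72559) (.g (nat_lit 3639) (.e (nat_lit 1667) (nat_lit 116) (.e (nat_lit 401459) (nat_lit 13) (.e (nat_lit 483372) (nat_lit 21) (.e (nat_lit 319528) (nat_lit 16) .nil)))) .nil)))) (.nd (nat_lit 5) (.nd (nat_lit 6) 
(.lf (nat_lit 72479) (.g (nat_lit 1983) (.e (nat_lit 1667) (nat_lit 116) (.e (nat_lit 401454) (nat_lit 12) (.e (nat_lit 475210) (nat_lit 41) (.e (nat_lit 712755) (nat_lit 30) (.e (nat_lit 450597) (nat_lit 17) .nil))))) .nil)) 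
(.lf (nat_lit 72543) (.g (nat_lit 916) (.e (nat_lit 1667) (nat_lit 116) (.e (nat_lit 401459) (nat_lit 13) (.e (nat_lit 483354) (nat_lit 17) .nil))) .nil))) (.nd (nat_lit 6) 
(.lf (nat_lit 72511) (.g (nat_lit 1347) (.e (nat_lit 1667) (nat_lit 116) (.e (nat_lit 401457) (nat_lit 13) (.e (nat_lit 483413) (nat_lit 27) (.e (nat_lit 401448) (nat_lit 10) .nil)))) .nil)) 
(.lf (nat_lit 72575) (.g (nat_lit 3699) (.e (nat_lit 1668) (nat_lit 116) (.e (nat_lit 401454) (nat_lit 12) (.e (nat_lit 475183) (nat_lit 29) (.e (nat_lit 557107) (nat_lit 15) (.e (nat_lit 188447) (nat_lit 22) (.e (nat_lit 196630) (nat_lit 9) .nil)))))) (.g (nat_lit 6) .nil .nil))))))))))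

noncomputable def tv986 : DT := (.nd (nat_lit 0) (.nd (nat_lit 1) (.nd (nat_lit 2) (.nd (nat_lit 3) (.nd (nat_lit 4) (.nd (nat_lit 5) 
(.lf (nat_lit 72576) (.g (nat_lit 2348) (.e (nat_lit 1668) (nat_lit 116) (.e (nat_lit 401454) (nat_lit 12) (.e (nat_lit 475183) (nat_lit 29) (.e (nat_lit 557108) (nat_lit 15) (.e (nat_lit 188447) (nat_lit 22) (.e (nat_lit 196630) (nat_lit 9) .nil)))))) (.g (nat_lit 4) .nil .nil))) 
(.lf (nat_lit 72608) (.g (nat_lit 2263) (.e (nat_lit 1668) (nat_lit 116) (.e (nat_lit 401454) (nat_lit 12) (.e (nat_lit 475209) (nat_lit 41) (.e (nat_lit 712752) (nat_lit 29) (.e (nat_lit 442392) (nat_lit 20) (.e (nat_lit 3432) (nat_lit 213) (.e (nat_lit 663554) (nat_lit 0) .nil))))))) (.g (nat_lit 4) .nil .nil)))) (.nd (nat_lit 5) 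
(.lf (nat_lit 72592) (.g (nat_lit 4164) (.e (nat_lit 1668) (nat_lit 116) (.e (nat_lit 401454) (nat_lit 12) (.e (nat_lit 475185) (nat_lit 29) (.e (nat_lit 557109) (nat_lit 15) (.e (nat_lit 188447) (nat_lit 22) (.e (nat_lit 196630) (nat_lit 9) .nil)))))) (.g (nat_lit 6) .nil .nil))) 
(.lf (nat_lit 72624) (.g (nat_lit 3419) (.e (nat_lit 1668) (nat_lit 116) (.e (nat_lit 401457) (nat_lit 13) (.e (nat_lit 483413) (nat_lit 27) (.e (nat_lit 401446) (nat_lit 10) (.e (nat_lit 434284) (nat_lit 41) .nil))))) .nil)))) (.nd (nat_lit 4) (.nd (nat_lit 5) 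
(.lf (nat_lit 72584) (.g (nat_lit 506) (.e (nat_lit 1668) (nat_lit 116) (.e (nat_lit 401454) (nat_lit 12) (.e (nat_lit 475185) (nat_lit 29) .nil))) .nil)) 
(.lf (nat_lit 72616) (.g (nat_lit 3057) (.e (nat_lit 1668) (nat_lit 116) (.e (nat_lit 401454) (nat_lit 12) (.e (nat_lit 475209) (nat_lit 41) (.e (nat_lit 712755) (nat_lit 30) (.e (nat_lit 450597) (nat_lit 17) (.e (nat_lit 663552) (nat_lit 0) .nil)))))) (.g (nat_lit 5) .nil .nil)))) (.nd (nat_lit 5) 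
(.lf (nat_lit 72600) (.g (nat_lit 1882) (.e (nat_lit 1668) (nat_lit 116) (.e (nat_lit 401454) (nat_lit 12) (.e (nat_lit 475207) (nat_lit 41) (.e (nat_lit 712755) (nat_lit 30) (.e (nat_lit 450563) (nat_lit 0) (.e (nat_lit 5839) (nat_lit 320) (.e (nat_lit 1006) (nat_lit 81) .nil))))))) (.g (nat_lit 4) .nil .nil))) 
(.lf (nat_lit 72632) (.g (nat_lit 1102) (.e (nat_lit 1668) (nat_lit 116) (.e (nat_lit 401459) (nat_lit 13) (.e (nat_lit 483363) (nat_lit 18) .nil))) .nil))))) (.nd (nat_lit 3) (.nd (nat_lit 4) (.nd (nat_lit 5) 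
(.lf (nat_lit 72580) (.g (nat_lit 2786) (.e (nat_lit 1668) (nat_lit 116) (.e (nat_lit 401454) (nat_lit 12) (.e (nat_lit 475183) (nat_lit 29) (.e (nat_lit 557108) (nat_lit 15) (.e (nat_lit 188449) (nat_lit 22) (.e (nat_lit 204544) (nat_lit 9) .nil)))))) (.g (nat_lit 5) .nil .nil))) 
(.lf (nat_lit 72612) (.g (nat_lit 1974) (.e (nat_lit 1668) (nat_lit 116) (.e (nat_lit 401454) (nat_lit 12) (.e (nat_lit 475209) (nat_lit 41) (.e (nat_lit 712752) (nat_lit 29) (.e (nat_lit 442411) (nat_lit 20) .nil))))) .nil))) (.nd (nat_lit 5) 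
(.lf (nat_lit 72596) (.g (nat_lit 2110) (.e (nat_lit 1668) (nat_lit 116) (.e (nat_lit 401454) (nat_lit 12) (.e (nat_lit 475207) (nat_lit 41) (.e (nat_lit 712755) (nat_lit 30) (.e (nat_lit 450563) (nat_lit 0) (.e (nat_lit 5796) (nat_lit 320) (.e (nat_lit 1016) (nat_lit 81) .nil))))))) (.g (nat_lit 4) .nil .nil))) 
(.lf (nat_lit 72628) (.g (nat_lit 975) (.e (nat_lit 1668) (nat_lit 116) (.e (nat_lit 401459) (nat_lit 13) (.e (nat_lit 483344) (nat_lit 17) .nil))) .nil)))) (.nd (nat_lit 4) (.nd (nat_lit 5) 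
(.lf (nat_lit 72588) (.g (nat_lit 5054) (.e (nat_lit 1668) (nat_lit 116) (.e (nat_lit 401454) (nat_lit 12) (.e (nat_lit 475185) (nat_lit 29) (.e (nat_lit 557101) (nat_lit 13) (.e (nat_lit 172097) (nat_lit 9) (.e (nat_lit 426125) (nat_lit 2) (.e (nat_lit 196630) (nat_lit 9) .nil))))))) (.g (nat_lit 0) .nil .nil))) 
(.lf (nat_lit 72620) (.g (nat_lit 1942) (.e (nat_lit 1668) (nat_lit 116) (.e (nat_lit 401457) (nat_lit 13) (.e (nat_lit 483413) (nat_lit 27) (.e (nat_lit 401446) (nat_lit 10) .nil)))) .nil))) (.nd (nat_lit 5) 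
(.lf (nat_lit 72604) (.g (nat_lit 731) (.e (nat_lit 1668) (nat_lit 116) (.e (nat_lit 401454) (nat_lit 12) (.e (nat_lit 475209) (nat_lit 41) .nil))) .nil)) 
(.lf (nat_lit 72636) (.g (nat_lit 1023) (.e (nat_lit 1668) (nat_lit 116) (.e (nat_lit 401459) (nat_lit 13) (.e (nat_lit 483364) (nat_lit 18) .nil))) .nil)))))) (.nd (nat_lit 2) (.nd (nat_lit 3) (.nd (nat_lit 4) (.nd (nat_lit 5) 
(.lf (nat_lit 72578) (.g (nat_lit 5027) (.e (nat_lit 1668) (nat_lit 116) (.e (nat_lit 401454) (nat_lit 12) (.e (nat_lit 475183) (nat_lit 29) (.e (nat_lit 557108) (nat_lit 15) (.e (nat_lit 188449) (nat_lit 22) (.e (nat_lit 196626) (nat_lit 9) .nil)))))) (.g (nat_lit 5) .nil .nil))) 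
(.lf (nat_lit 72610) (.g (nat_lit 2055) (.e (nat_lit 1668) (nat_lit 116) (.e (nat_lit 401454) (nat_lit 12) (.e (nat_lit 475209) (nat_lit 41) (.e (nat_lit 712752) (nat_lit 29) (.e (nat_lit 442401) (nat_lit 20) .nil))))) .nil))) (.nd (nat_lit 5) 
(.lf (nat_lit 72594) (.g (nat_lit 752) (.e (nat_lit 1668) (nat_lit 116) (.e (nat_lit 401454) (nat_lit 12) (.e (nat_lit 475198) (nat_lit 40) .nil))) .nil)) 
(.lf (nat_lit 72626) (.g (nat_lit 2285) (.e (nat_lit 1668) (nat_lit 116) (.e (nat_lit 401457) (nat_lit 13) (.e (nat_lit 483413) (nat_lit 27) (.e (nat_lit 401448) (nat_lit 10) .nil)))) .nil)))) (.nd (nat_lit 4) (.nd (nat_lit 5) 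
(.lf (nat_lit 72586) (.g (nat_lit 1659) (.e (nat_lit 1668) (nat_lit 116) (.e (nat_lit 401454) (nat_lit 12) (.e (nat_lit 475185) (nat_lit 29) (.e (nat_lit 557098) (nat_lit 13) .nil)))) .nil)) 
(.lf (nat_lit 72618) (.g (nat_lit 2671) (.e (nat_lit 1668) (nat_lit 116) (.e (nat_lit 401454) (nat_lit 12) (.e (nat_lit 475210) (nat_lit 41) (.e (nat_lit 712755) (nat_lit 30) (.e (nat_lit 450596) (nat_lit 17) (.e (nat_lit 663552) (nat_lit 0) .nil)))))) (.g (nat_lit 4) .nil .nil)))) (.nd (nat_lit 5) 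
(.lf (nat_lit 72602) (.g (nat_lit 2912) (.e (nat_lit 1668) (nat_lit 116) (.e (nat_lit 401454) (nat_lit 12) (.e (nat_lit 475207) (nat_lit 41) (.e (nat_lit 712755) (nat_lit 30) (.e (nat_lit 450597) (nat_lit 17) (.e (nat_lit 663552) (nat_lit 0) .nil)))))) (.g (nat_lit 0) .nil .nil))) 
(.lf (nat_lit 72634) (.g (nat_lit 2848) (.e (nat_lit 1668) (nat_lit 116) (.e (nat_lit 401459) (nat_lit 13) (.e (nat_lit 483363) (nat_lit 18) (.e (nat_lit 57688) (nat_lit 156) (.e (nat_lit 163916) (nat_lit 13) .nil))))) .nil))))) (.nd (nat_lit 3) (.nd (nat_lit 4) (.nd (nat_lit 5) 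
(.lf (nat_lit 72582) (.g (nat_lit 680) (.e (nat_lit 1668) (nat_lit 116) (.e (nat_lit 401454) (nat_lit 12) (.e (nat_lit 475184) (nat_lit 29) .nil))) .nil)) 
(.lf (nat_lit 72614) (.g (nat_lit 2055) (.e (nat_lit 1668) (nat_lit 116) (.e (nat_lit 401454) (nat_lit 12) (.e (nat_lit 475209) (nat_lit 41) (.e (nat_lit 712752) (nat_lit 29) (.e (nat_lit 442412) (nat_lit 20) .nil))))) .nil))) (.nd (nat_lit 5) 
(.lf (nat_lit 72598) (.g (nat_lit 2109) (.e (nat_lit 1668) (nat_lit 116) (.e (nat_lit 401454) (nat_lit 12) (.e (nat_lit 475207) (nat_lit 41) (.e (nat_lit 712755) (nat_lit 30) (.e (nat_lit 450563) (nat_lit 0) (.e (nat_lit 5835) (nat_lit 320) (.e (nat_lit 1006) (nat_lit 81) .nil))))))) (.g (nat_lit 4) .nil .nil))) 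
(.lf (nat_lit 72630) (.g (nat_lit 1832) (.e (nat_lit 1668) (nat_lit 116) (.e (nat_lit 401459) (nat_lit 13) (.e (nat_lit 483344) (nat_lit 17) (.e (nat_lit 2368) (nat_lit 153) .nil)))) .nil)))) (.nd (nat_lit 4) (.nd (nat_lit 5) 
(.lf (nat_lit 72590) (.g (nat_lit 4208) (.e (nat_lit 1668) (nat_lit 116) (.e (nat_lit 401454) (nat_lit 12) (.e (nat_lit 475185) (nat_lit 29) (.e (nat_lit 557107) (nat_lit 15) (.e (nat_lit 188447) (nat_lit 22) (.e (nat_lit 196630) (nat_lit 9) .nil)))))) (.g (nat_lit 0) .nil .nil))) 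
(.lf (nat_lit 72622) (.g (nat_lit 3177) (.e (nat_lit 1668) (nat_lit 116) (.e (nat_lit 401457) (nat_lit 13) (.e (nat_lit 483413) (nat_lit 27) (.e (nat_lit 401446) (nat_lit 10) (.e (nat_lit 434208) (nat_lit 18) .nil))))) .nil))) (.nd (nat_lit 5) 
(.lf (nat_lit 72606) (.g (nat_lit 3440) (.e (nat_lit 1668) (nat_lit 116) (.e (nat_lit 401454) (nat_lit 12) (.e (nat_lit 475209) (nat_lit 41) (.e (nat_lit 712742) (nat_lit 27) (.e (nat_lit 426286) (nat_lit 10) (.e (nat_lit 434276) (nat_lit 39) (.e (nat_lit 663554) (nat_lit 0) .nil))))))) (.g (nat_lit 7) .nil .nil))) 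
(.lf (nat_lit 72638) (.g (nat_lit 4599) (.e (nat_lit 1668) (nat_lit 116) (.e (nat_lit 401459) (nat_lit 13) (.e (nat_lit 483372) (nat_lit 21) (.e (nat_lit 319504) (nat_lit 10) .nil)))) .nil))))))) (.nd (nat_lit 1) (.nd (nat_lit 2) (.nd (nat_lit 3) (.nd (nat_lit 4) (.nd (nat_lit 5) 
(.lf (nat_lit 72577) (.g (nat_lit 5342) (.e (nat_lit 1668) (nat_lit 116) (.e (nat_lit 401454) (nat_lit 12) (.e (nat_lit 475183) (nat_lit 29) (.e (nat_lit 557108) (nat_lit 15) (.e (nat_lit 188449) (nat_lit 22) (.e (nat_lit 196617) (nat_lit 9) .nil)))))) (.g (nat_lit 5) .nil .nil))) 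
(.lf (nat_lit 72609) (.g (nat_lit 2055) (.e (nat_lit 1668) (nat_lit 116) (.e (nat_lit 401454) (nat_lit 12) (.e (nat_lit 475209) (nat_lit 41) (.e (nat_lit 712752) (nat_lit 29) (.e (nat_lit 442400) (nat_lit 20) .nil))))) .nil))) (.nd (nat_lit 5) 
(.lf (nat_lit 72593) (.g (nat_lit 4382) (.e (nat_lit 1668) (nat_lit 116) (.e (nat_lit 401454) (nat_lit 12) (.e (nat_lit 475185) (nat_lit 29) (.e (nat_lit 557109) (nat_lit 15) (.e (nat_lit 188449) (nat_lit 22) (.e (nat_lit 196630) (nat_lit 9) .nil)))))) (.g (nat_lit 6) .nil .nil))) 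
(.lf (nat_lit 72625) (.g (nat_lit 2313) (.e (nat_lit 1668) (nat_lit 116) (.e (nat_lit 401457) (nat_lit 13) (.e (nat_lit 483413) (nat_lit 27) (.e (nat_lit 401447) (nat_lit 10) .nil)))) .nil)))) (.nd (nat_lit 4) (.nd (nat_lit 5) 
(.lf (nat_lit 72585) (.g (nat_lit 2763) (.e (nat_lit 1668) (nat_lit 116) (.e (nat_lit 401454) (nat_lit 12) (.e (nat_lit 475185) (nat_lit 29) (.e (nat_lit 557097) (nat_lit 13) (.e (nat_lit 172097) (nat_lit 9) (.e (nat_lit 426125) (nat_lit 2) (.e (nat_lit 196630) (nat_lit 9) .nil))))))) (.g (nat_lit 4) .nil .nil))) 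
(.lf (nat_lit 72617) (.g (nat_lit 2593) (.e (nat_lit 1668) (nat_lit 116) (.e (nat_lit 401454) (nat_lit 12) (.e (nat_lit 475210) (nat_lit 41) (.e (nat_lit 712752) (nat_lit 29) (.e (nat_lit 442405) (nat_lit 20) .nil))))) .nil))) (.nd (nat_lit 5) 
(.lf (nat_lit 72601) (.g (nat_lit 2763) (.e (nat_lit 1668) (nat_lit 116) (.e (nat_lit 401454) (nat_lit 12) (.e (nat_lit 475207) (nat_lit 41) (.e (nat_lit 712755) (nat_lit 30) (.e (nat_lit 450596) (nat_lit 17) (.e (nat_lit 663552) (nat_lit 0) .nil)))))) (.g (nat_lit 0) .nil .nil))) 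
(.lf (nat_lit 72633) (.g (nat_lit 2127) (.e (nat_lit 1668) (nat_lit 116) (.e (nat_lit 401459) (nat_lit 13) (.e (nat_lit 483363) (nat_lit 18) (.e (nat_lit 57686) (nat_lit 156) .nil)))) .nil))))) (.nd (nat_lit 3) (.nd (nat_lit 4) (.nd (nat_lit 5) 
(.lf (nat_lit 72581) (.g (nat_lit 5396) (.e (nat_lit 1668) (nat_lit 116) (.e (nat_lit 401454) (nat_lit 12) (.e (nat_lit 475183) (nat_lit 29) (.e (nat_lit 557109) (nat_lit 15) (.e (nat_lit 188449) (nat_lit 22) (.e (nat_lit 196630) (nat_lit 9) .nil)))))) (.g (nat_lit 6) .nil .nil))) 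
(.lf (nat_lit 72613) (.g (nat_lit 2578) (.e (nat_lit 1668) (nat_lit 116) (.e (nat_lit 401454) (nat_lit 12) (.e (nat_lit 475209) (nat_lit 41) (.e (nat_lit 712752) (nat_lit 29) (.e (nat_lit 442411) (nat_lit 20) (.e (nat_lit 3415) (nat_lit 213) (.e (nat_lit 663554) (nat_lit 0) .nil))))))) (.g (nat_lit 5) .nil .nil)))) (.nd (nat_lit 5) 
(.lf (nat_lit 72597) (.g (nat_lit 1891) (.e (nat_lit 1668) (nat_lit 116) (.e (nat_lit 401454) (nat_lit 12) (.e (nat_lit 475207) (nat_lit 41) (.e (nat_lit 712755) (nat_lit 30) (.e (nat_lit 450563) (nat_lit 0) (.e (nat_lit 5814) (nat_lit 320) (.e (nat_lit 1016) (nat_lit 81) .nil))))))) (.g (nat_lit 4) .nil .nil))) 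
(.lf (nat_lit 72629) (.g (nat_lit 1869) (.e (nat_lit 1668) (nat_lit 116) (.e (nat_lit 401459) (nat_lit 13) (.e (nat_lit 483344) (nat_lit 17) (.e (nat_lit 2367) (nat_lit 153) .nil)))) .nil)))) (.nd (nat_lit 4) (.nd (nat_lit 5) 
(.lf (nat_lit 72589) (.g (nat_lit 1690) (.e (nat_lit 1668) (nat_lit 116) (.e (nat_lit 401454) (nat_lit 12) (.e (nat_lit 475185) (nat_lit 29) (.e (nat_lit 557107) (nat_lit 15) .nil)))) .nil)) 
(.lf (nat_lit 72621) (.g (nat_lit 3094) (.e (nat_lit 1668) (nat_lit 116) (.e (nat_lit 401457) (nat_lit 13) (.e (nat_lit 483413) (nat_lit 27) (.e (nat_lit 401446) (nat_lit 10) (.e (nat_lit 434203) (nat_lit 18) .nil))))) .nil))) (.nd (nat_lit 5) 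
(.lf (nat_lit 72605) (.g (nat_lit 2605) (.e (nat_lit 1668) (nat_lit 116) (.e (nat_lit 401454) (nat_lit 12) (.e (nat_lit 475209) (nat_lit 41) (.e (nat_lit 712742) (nat_lit 27) (.e (nat_lit 426284) (nat_lit 10) (.e (nat_lit 434274) (nat_lit 39) (.e (nat_lit 663554) (nat_lit 0) .nil))))))) (.g (nat_lit 7) .nil .nil))) 
(.lf (nat_lit 72637) (.g (nat_lit 895) (.e (nat_lit 1668) (nat_lit 116) (.e (nat_lit 401459) (nat_lit 13) (.e (nat_lit 483372) (nat_lit 21) .nil))) .nil)))))) (.nd (nat_lit 2) (.nd (nat_lit 3) (.nd (nat_lit 4) (.nd (nat_lit 5) 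
(.lf (nat_lit 72579) (.g (nat_lit 4583) (.e (nat_lit 1668) (nat_lit 116) (.e (nat_lit 401454) (nat_lit 12) (.e (nat_lit 475183) (nat_lit 29) (.e (nat_lit 557108) (nat_lit 15) (.e (nat_lit 188449) (nat_lit 22) (.e (nat_lit 196630) (nat_lit 9) .nil)))))) (.g (nat_lit 6) .nil .nil))) 
(.lf (nat_lit 72611) (.g (nat_lit 3404) (.e (nat_lit 1668) (nat_lit 116) (.e (nat_lit 401454) (nat_lit 12) (.e (nat_lit 475209) (nat_lit 41) (.e (nat_lit 712752) (nat_lit 29) (.e (nat_lit 442405) (nat_lit 20) (.e (nat_lit 3417) (nat_lit 213) (.e (nat_lit 663554) (nat_lit 0) .nil))))))) (.g (nat_lit 7) .nil .nil)))) (.nd (nat_lit 5) 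
(.lf (nat_lit 72595) (.g (nat_lit 1636) (.e (nat_lit 1668) (nat_lit 116) (.e (nat_lit 401454) (nat_lit 12) (.e (nat_lit 475207) (nat_lit 41) (.e (nat_lit 712755) (nat_lit 30) (.e (nat_lit 450563) (nat_lit 0) .nil))))) .nil)) 
(.lf (nat_lit 72627) (.g (nat_lit 973) (.e (nat_lit 1668) (nat_lit 116) (.e (nat_lit 401459) (nat_lit 13) (.e (nat_lit 483343) (nat_lit 17) .nil))) .nil)))) (.nd (nat_lit 4) (.nd (nat_lit 5) 
(.lf (nat_lit 72587) (.g (nat_lit 5363) (.e (nat_lit 1668) (nat_lit 116) (.e (nat_lit 401454) (nat_lit 12) (.e (nat_lit 475185) (nat_lit 29) (.e (nat_lit 557098) (nat_lit 13) (.e (nat_lit 172097) (nat_lit 9) (.e (nat_lit 426125) (nat_lit 2) (.e (nat_lit 196630) (nat_lit 9) .nil))))))) (.g (nat_lit 7) .nil .nil))) 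
(.lf (nat_lit 72619) (.g (nat_lit 3399) (.e (nat_lit 1668) (nat_lit 116) (.e (nat_lit 401454) (nat_lit 12) (.e (nat_lit 475210) (nat_lit 41) (.e (nat_lit 712755) (nat_lit 30) (.e (nat_lit 450597) (nat_lit 17) (.e (nat_lit 663552) (nat_lit 0) .nil)))))) (.g (nat_lit 6) .nil .nil)))) (.nd (nat_lit 5) 
(.lf (nat_lit 72603) (.g (nat_lit 1090) (.e (nat_lit 1668) (nat_lit 116) (.e (nat_lit 401454) (nat_lit 12) (.e (nat_lit 475208) (nat_lit 41) .nil))) .nil)) 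
(.lf (nat_lit 72635) (.g (nat_lit 2878) (.e (nat_lit 1668) (nat_lit 116) (.e (nat_lit 401459) (nat_lit 13) (.e (nat_lit 483363) (nat_lit 18) (.e (nat_lit 57688) (nat_lit 156) (.e (nat_lit 163917) (nat_lit 13) .nil))))) .nil))))) (.nd (nat_lit 3) (.nd (nat_lit 4) (.nd (nat_lit 5) 
(.lf (nat_lit 72583) (.g (nat_lit 3476) (.e (nat_lit 1668) (nat_lit 116) (.e (nat_lit 401454) (nat_lit 12) (.e (nat_lit 475184) (nat_lit 29) (.e (nat_lit 557109) (nat_lit 15) (.e (nat_lit 188458) (nat_lit 25) (.e (nat_lit 245781) (nat_lit 9) .nil)))))) (.g (nat_lit 0) .nil .nil))) 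
(.lf (nat_lit 72615) (.g (nat_lit 2901) (.e (nat_lit 1668) (nat_lit 116) (.e (nat_lit 401454) (nat_lit 12) (.e (nat_lit 475209) (nat_lit 41) (.e (nat_lit 712755) (nat_lit 30) (.e (nat_lit 450596) (nat_lit 17) (.e (nat_lit 663552) (nat_lit 0) .nil)))))) (.g (nat_lit 5) .nil .nil)))) (.nd (nat_lit 5) 
(.lf (nat_lit 72599) (.g (nat_lit 2078) (.e (nat_lit 1668) (nat_lit 116) (.e (nat_lit 401454) (nat_lit 12) (.e (nat_lit 475207) (nat_lit 41) (.e (nat_lit 712755) (nat_lit 30) (.e (nat_lit 450563) (nat_lit 0) (.e (nat_lit 5837) (nat_lit 320) (.e (nat_lit 1006) (nat_lit 81) .nil))))))) (.g (nat_lit 4) .nil .nil))) 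
(.lf (nat_lit 72631) (.g (nat_lit 1200) (.e (nat_lit 1668) (nat_lit 116) (.e (nat_lit 401459) (nat_lit 13) (.e (nat_lit 483350) (nat_lit 17) .nil))) .nil)))) (.nd (nat_lit 4) (.nd (nat_lit 5) 
(.lf (nat_lit 72591) (.g (nat_lit 1995) (.e (nat_lit 1668) (nat_lit 116) (.e (nat_lit 401454) (nat_lit 12) (.e (nat_lit 475185) (nat_lit 29) (.e (nat_lit 557109) (nat_lit 15) (.e (nat_lit 188447) (nat_lit 22) .nil))))) .nil)) 
(.lf (nat_lit 72623) (.g (nat_lit 3517) (.e (nat_lit 1668) (nat_lit 116) (.e (nat_lit 401457) (nat_lit 13) (.e (nat_lit 483413) (nat_lit 27) (.e (nat_lit 401446) (nat_lit 10) (.e (nat_lit 434283) (nat_lit 41) .nil))))) .nil))) (.nd (nat_lit 5) 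
(.lf (nat_lit 72607) (.g (nat_lit 2446) (.e (nat_lit 1668) (nat_lit 116) (.e (nat_lit 401454) (nat_lit 12) (.e (nat_lit 475209) (nat_lit 41) (.e (nat_lit 712752) (nat_lit 29) (.e (nat_lit 442392) (nat_lit 20) (.e (nat_lit 3421) (nat_lit 213) (.e (nat_lit 663554) (nat_lit 0) .nil))))))) (.g (nat_lit 5) .nil .nil))) 
(.lf (nat_lit 72639) (.g (nat_lit 4092) (.e (nat_lit 1668) (nat_lit 116) (.e (nat_lit 401459) (nat_lit 13) (.e (nat_lit 483372) (nat_lit 21) (.e (nat_lit 319511) (nat_lit 10) .nil)))) .nil))))))))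

noncomputable def tv987 : DT := (.nd (nat_lit 0) (.nd (nat_lit 1) (.nd (nat_lit 2) (.nd (nat_lit 3) (.nd (nat_lit 4) (.nd (nat_lit 5) 
(.lf (nat_lit 72640) (.g (nat_lit 3945) (.e (nat_lit 1668) (nat_lit 116) (.e (nat_lit 401459) (nat_lit 13) (.e (nat_lit 483372) (nat_lit 21) (.e (nat_lit 319528) (nat_lit 16) .nil)))) .nil)) 
(.lf (nat_lit 72672) (.g (nat_lit 3159) (.e (nat_lit 1669) (nat_lit 116) (.e (nat_lit 401425) (nat_lit 2) (.e (nat_lit 196666) (nat_lit 13) (.e (nat_lit 65617) (nat_lit 10) (.e (nat_lit 344115) (nat_lit 20) (.e (nat_lit 507906) (nat_lit 0) (.e (nat_lit 5272) (nat_lit 298) .nil))))))) (.g (nat_lit 4) .nil .nil)))) (.nd (nat_lit 5) 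
(.lf (nat_lit 72656) (.g (nat_lit 3023) (.e (nat_lit 1669) (nat_lit 116) (.e (nat_lit 401425) (nat_lit 2) (.e (nat_lit 196666) (nat_lit 13) (.e (nat_lit 65610) (nat_lit 10) (.e (nat_lit 344115) (nat_lit 20) (.e (nat_lit 507907) (nat_lit 0) (.e (nat_lit 5272) (nat_lit 298) .nil))))))) (.g (nat_lit 4) .nil .nil))) 
(.lf (nat_lit 72688) (.g (nat_lit 2203) (.e (nat_lit 1669) (nat_lit 116) (.e (nat_lit 401428) (nat_lit 3) (.e (nat_lit 204861) (nat_lit 26) (.e (nat_lit 336186) (nat_lit 11) (.e (nat_lit 368676) (nat_lit 21) (.e (nat_lit 516097) (nat_lit 0) (.e (nat_lit 7490) (nat_lit 402) .nil))))))) (.g (nat_lit 5) .nil .nil))))) (.nd (nat_lit 4) (.nd (nat_lit 5) 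
(.lf (nat_lit 72648) (.g (nat_lit 1466) (.e (nat_lit 1668) (nat_lit 116) (.e (nat_lit 401473) (nat_lit 29) (.e (nat_lit 352313) (nat_lit 23) (.e (nat_lit 98313) (nat_lit 9) (.e (nat_lit 335906) (nat_lit 0) (.e (nat_lit 1998) (nat_lit 137) (.e (nat_lit 663554) (nat_lit 0) .nil))))))) (.g (nat_lit 6) .nil .nil))) 
(.lf (nat_lit 72680) (.g (nat_lit 2956) (.e (nat_lit 1669) (nat_lit 116) (.e (nat_lit 401425) (nat_lit 2) (.e (nat_lit 196672) (nat_lit 15) (.e (nat_lit 81954) (nat_lit 23) (.e (nat_lit 98319) (nat_lit 17) (.e (nat_lit 7490) (nat_lit 402) .nil)))))) (.g (nat_lit 0) .nil .nil)))) (.nd (nat_lit 5) 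
(.lf (nat_lit 72664) (.g (nat_lit 4094) (.e (nat_lit 1669) (nat_lit 116) (.e (nat_lit 401425) (nat_lit 2) (.e (nat_lit 196666) (nat_lit 13) (.e (nat_lit 65610) (nat_lit 10) (.e (nat_lit 344117) (nat_lit 21) (.e (nat_lit 516098) (nat_lit 0) (.e (nat_lit 7486) (nat_lit 402) .nil))))))) (.g (nat_lit 5) .nil .nil))) 
(.lf (nat_lit 72696) (.g (nat_lit 3139) (.e (nat_lit 1669) (nat_lit 116) (.e (nat_lit 401434) (nat_lit 9) (.e (nat_lit 426140) (nat_lit 3) (.e (nat_lit 204846) (nat_lit 24) (.e (nat_lit 319533) (nat_lit 16) (.e (nat_lit 286724) (nat_lit 0) (.e (nat_lit 1841) (nat_lit 123) (.e (nat_lit 548874) (nat_lit 5) .nil)))))))) (.g (nat_lit 4) .nil .nil)))))) 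
(.nd (nat_lit 3) (.nd (nat_lit 4) (.nd (nat_lit 5) 
(.lf (nat_lit 72644) (.g (nat_lit 3880) (.e (nat_lit 1668) (nat_lit 116) (.e (nat_lit 401459) (nat_lit 13) (.e (nat_lit 483372) (nat_lit 21) (.e (nat_lit 319534) (nat_lit 16) .nil)))) .nil)) 
(.lf (nat_lit 72676) (.g (nat_lit 2780) (.e (nat_lit 1669) (nat_lit 116) (.e (nat_lit 401425) (nat_lit 2) (.e (nat_lit 196666) (nat_lit 13) (.e (nat_lit 65617) (nat_lit 10) (.e (nat_lit 344130) (nat_lit 26) (.e (nat_lit 557084) (nat_lit 10) (.e (nat_lit 16128) (nat_lit 250) .nil))))))) (.g (nat_lit 5) .nil .nil)))) (.nd (nat_lit 5) 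
(.lf (nat_lit 72660) (.g (nat_lit 3081) (.e (nat_lit 1669) (nat_lit 116) (.e (nat_lit 401425) (nat_lit 2) (.e (nat_lit 196666) (nat_lit 13) (.e (nat_lit 65610) (nat_lit 10) (.e (nat_lit 344115) (nat_lit 20) (.e (nat_lit 507908) (nat_lit 0) (.e (nat_lit 5272) (nat_lit 298) .nil))))))) (.g (nat_lit 4) .nil .nil))) 
(.lf (nat_lit 72692) (.g (nat_lit 2344) (.e (nat_lit 1669) (nat_lit 116) (.e (nat_lit 401434) (nat_lit 9) (.e (nat_lit 426125) (nat_lit 2) (.e (nat_lit 196661) (nat_lit 12) (.e (nat_lit 65280) (nat_lit 206) (.e (nat_lit 180236) (nat_lit 1) (.e (nat_lit 499969) (nat_lit 14) .nil))))))) (.g (nat_lit 4) .nil .nil))))) (.nd (nat_lit 4) (.nd (nat_lit 5) 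
(.lf (nat_lit 72652) (.g (nat_lit 3110) (.e (nat_lit 1669) (nat_lit 116) (.e (nat_lit 401425) (nat_lit 2) (.e (nat_lit 196666) (nat_lit 13) (.e (nat_lit 65610) (nat_lit 10) (.e (nat_lit 344115) (nat_lit 20) (.e (nat_lit 507906) (nat_lit 0) (.e (nat_lit 5271) (nat_lit 298) .nil))))))) (.g (nat_lit 4) .nil .nil))) 
(.lf (nat_lit 72684) (.g (nat_lit 3487) (.e (nat_lit 1669) (nat_lit 116) (.e (nat_lit 401425) (nat_lit 2) (.e (nat_lit 196673) (nat_lit 15) (.e (nat_lit 81956) (nat_lit 23) (.e (nat_lit 98320) (nat_lit 17) .nil))))) .nil))) (.nd (nat_lit 5) 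
(.lf (nat_lit 72668) (.g (nat_lit 3483) (.e (nat_lit 1669) (nat_lit 116) (.e (nat_lit 401425) (nat_lit 2) (.e (nat_lit 196666) (nat_lit 13) (.e (nat_lit 65610) (nat_lit 10) (.e (nat_lit 344129) (nat_lit 26) (.e (nat_lit 557084) (nat_lit 10) (.e (nat_lit 16128) (nat_lit 250) .nil))))))) (.g (nat_lit 5) .nil .nil))) 
(.lf (nat_lit 72700) (.g (nat_lit 3426) (.e (nat_lit 1669) (nat_lit 116) (.e (nat_lit 401436) (nat_lit 9) (.e (nat_lit 426131) (nat_lit 3) (.e (nat_lit 204846) (nat_lit 24) (.e (nat_lit 319533) (nat_lit 16) (.e (nat_lit 286724) (nat_lit 0) (.e (nat_lit 1842) (nat_lit 123) (.e (nat_lit 548874) (nat_lit 5) .nil)))))))) (.g (nat_lit 5) .nil .nil))))))) 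
(.nd (nat_lit 2) (.nd (nat_lit 3) (.nd (nat_lit 4) (.nd (nat_lit 5) 
(.lf (nat_lit 72642) (.g (nat_lit 4380) (.e (nat_lit 1668) (nat_lit 116) (.e (nat_lit 401459) (nat_lit 13) (.e (nat_lit 483372) (nat_lit 21) (.e (nat_lit 319531) (nat_lit 16) .nil)))) .nil)) 
(.lf (nat_lit 72674) (.g (nat_lit 2582) (.e (nat_lit 1669) (nat_lit 116) (.e (nat_lit 401425) (nat_lit 2) (.e (nat_lit 196666) (nat_lit 13) (.e (nat_lit 65617) (nat_lit 10) (.e (nat_lit 344115) (nat_lit 20) (.e (nat_lit 507908) (nat_lit 0) (.e (nat_lit 5257) (nat_lit 298) .nil))))))) (.g (nat_lit 4) .nil .nil)))) (.nd (nat_lit 5) 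
(.lf (nat_lit 72658) (.g (nat_lit 3653) (.e (nat_lit 1669) (nat_lit 116) (.e (nat_lit 401425) (nat_lit 2) (.e (nat_lit 196666) (nat_lit 13) (.e (nat_lit 65610) (nat_lit 10) (.e (nat_lit 344115) (nat_lit 20) (.e (nat_lit 507908) (nat_lit 0) (.e (nat_lit 5258) (nat_lit 298) .nil))))))) (.g (nat_lit 4) .nil .nil))) 
(.lf (nat_lit 72690) (.g (nat_lit 1627) (.e (nat_lit 1669) (nat_lit 116) (.e (nat_lit 401434) (nat_lit 9) (.e (nat_lit 426125) (nat_lit 2) (.e (nat_lit 196661) (nat_lit 12) .nil)))) .nil)))) (.nd (nat_lit 4) (.nd (nat_lit 5) 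
(.lf (nat_lit 72650) (.g (nat_lit 3486) (.e (nat_lit 1669) (nat_lit 116) (.e (nat_lit 401425) (nat_lit 2) (.e (nat_lit 196661) (nat_lit 12) (.e (nat_lit 65280) (nat_lit 206) (.e (nat_lit 180250) (nat_lit 10) (.e (nat_lit 573474) (nat_lit 12) (.e (nat_lit 57572) (nat_lit 54) (.e (nat_lit 770058) (nat_lit 5) .nil)))))))) (.g (nat_lit 5) .nil .nil))) 
(.lf (nat_lit 72682) (.g (nat_lit 1898) (.e (nat_lit 1669) (nat_lit 116) (.e (nat_lit 401425) (nat_lit 2) (.e (nat_lit 196672) (nat_lit 15) (.e (nat_lit 81954) (nat_lit 23) (.e (nat_lit 98325) (nat_lit 17) (.e (nat_lit 7936) (nat_lit 402) .nil)))))) (.g (nat_lit 5) .nil .nil)))) (.nd (nat_lit 5) 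
(.lf (nat_lit 72666) (.g (nat_lit 4662) (.e (nat_lit 1669) (nat_lit 116) (.e (nat_lit 401425) (nat_lit 2) (.e (nat_lit 196666) (nat_lit 13) (.e (nat_lit 65610) (nat_lit 10) (.e (nat_lit 344117) (nat_lit 21) (.e (nat_lit 516099) (nat_lit 0) (.e (nat_lit 7936) (nat_lit 402) .nil))))))) (.g (nat_lit 5) .nil .nil))) 
(.lf (nat_lit 72698) (.g (nat_lit 5081) (.e (nat_lit 1669) (nat_lit 116) (.e (nat_lit 401434) (nat_lit 9) (.e (nat_lit 426140) (nat_lit 3) (.e (nat_lit 204846) (nat_lit 24) (.e (nat_lit 319534) (nat_lit 16) (.e (nat_lit 286728) (nat_lit 0) (.e (nat_lit 1842) (nat_lit 123) (.e (nat_lit 548874) (nat_lit 5) .nil)))))))) (.g (nat_lit 8) .nil .nil)))))) 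
(.nd (nat_lit 3) (.nd (nat_lit 4) (.nd (nat_lit 5) 
(.lf (nat_lit 72646) (.g (nat_lit 2861) (.e (nat_lit 1668) (nat_lit 116) (.e (nat_lit 401459) (nat_lit 13) (.e (nat_lit 483411) (nat_lit 27) (.e (nat_lit 401451) (nat_lit 12) (.e (nat_lit 483072) (nat_lit 8) .nil))))) (.g (nat_lit 4) .nil .nil))) 
(.lf (nat_lit 72678) (.g (nat_lit 2325) (.e (nat_lit 1669) (nat_lit 116) (.e (nat_lit 401425) (nat_lit 2) (.e (nat_lit 196672) (nat_lit 15) (.e (nat_lit 81951) (nat_lit 22) (.e (nat_lit 90133) (nat_lit 9) (.e (nat_lit 2397) (nat_lit 157) (.e (nat_lit 7489) (nat_lit 402) .nil))))))) (.g (nat_lit 4) .nil .nil)))) (.nd (nat_lit 5) 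
(.lf (nat_lit 72662) (.g (nat_lit 5708) (.e (nat_lit 1669) (nat_lit 116) (.e (nat_lit 401425) (nat_lit 2) (.e (nat_lit 196666) (nat_lit 13) (.e (nat_lit 65610) (nat_lit 10) (.e (nat_lit 344117) (nat_lit 21) (.e (nat_lit 516097) (nat_lit 0) (.e (nat_lit 7490) (nat_lit 402) .nil))))))) (.g (nat_lit 6) .nil .nil))) 
(.lf (nat_lit 72694) (.g (nat_lit 2260) (.e (nat_lit 1669) (nat_lit 116) (.e (nat_lit 401434) (nat_lit 9) (.e (nat_lit 426140) (nat_lit 3) (.e (nat_lit 204821) (nat_lit 17) (.e (nat_lit 7936) (nat_lit 362) (.e (nat_lit 180235) (nat_lit 1) (.e (nat_lit 499969) (nat_lit 14) .nil))))))) (.g (nat_lit 4) .nil .nil))))) (.nd (nat_lit 4) (.nd (nat_lit 5) 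
(.lf (nat_lit 72654) (.g (nat_lit 3719) (.e (nat_lit 1669) (nat_lit 116) (.e (nat_lit 401425) (nat_lit 2) (.e (nat_lit 196666) (nat_lit 13) (.e (nat_lit 65610) (nat_lit 10) (.e (nat_lit 344115) (nat_lit 20) (.e (nat_lit 507907) (nat_lit 0) (.e (nat_lit 5258) (nat_lit 298) .nil))))))) (.g (nat_lit 5) .nil .nil))) 
(.lf (nat_lit 72686) (.g (nat_lit 1669) (.e (nat_lit 1669) (nat_lit 116) (.e (nat_lit 401425) (nat_lit 2) (.e (nat_lit 196681) (nat_lit 17) (.e (nat_lit 131109) (nat_lit 9) .nil)))) .nil))) (.nd (nat_lit 5) 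
(.lf (nat_lit 72670) (.g (nat_lit 2073) (.e (nat_lit 1669) (nat_lit 116) (.e (nat_lit 401425) (nat_lit 2) (.e (nat_lit 196666) (nat_lit 13) (.e (nat_lit 65617) (nat_lit 10) (.e (nat_lit 344115) (nat_lit 20) .nil))))) .nil)) 
(.lf (nat_lit 72702) (.g (nat_lit 3026) (.e (nat_lit 1669) (nat_lit 116) (.e (nat_lit 401436) (nat_lit 9) (.e (nat_lit 426131) (nat_lit 3) (.e (nat_lit 204846) (nat_lit 24) (.e (nat_lit 319534) (nat_lit 16) (.e (nat_lit 286728) (nat_lit 0) (.e (nat_lit 1842) (nat_lit 123) (.e (nat_lit 548874) (nat_lit 5) .nil)))))))) (.g (nat_lit 5) .nil .nil)))))))) 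
(.nd (nat_lit 1) (.nd (nat_lit 2) (.nd (nat_lit 3) (.nd (nat_lit 4) (.nd (nat_lit 5) 
(.lf (nat_lit 72641) (.g (nat_lit 4824) (.e (nat_lit 1668) (nat_lit 116) (.e (nat_lit 401459) (nat_lit 13) (.e (nat_lit 483372) (nat_lit 21) (.e (nat_lit 319530) (nat_lit 16) .nil)))) .nil)) 
(.lf (nat_lit 72673) (.g (nat_lit 2641) (.e (nat_lit 1669) (nat_lit 116) (.e (nat_lit 401425) (nat_lit 2) (.e (nat_lit 196666) (nat_lit 13) (.e (nat_lit 65617) (nat_lit 10) (.e (nat_lit 344115) (nat_lit 20) (.e (nat_lit 507907) (nat_lit 0) (.e (nat_lit 5258) (nat_lit 298) .nil))))))) (.g (nat_lit 4) .nil .nil)))) (.nd (nat_lit 5) 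
(.lf (nat_lit 72657) (.g (nat_lit 3704) (.e (nat_lit 1669) (nat_lit 116) (.e (nat_lit 401425) (nat_lit 2) (.e (nat_lit 196666) (nat_lit 13) (.e (nat_lit 65610) (nat_lit 10) (.e (nat_lit 344115) (nat_lit 20) (.e (nat_lit 507908) (nat_lit 0) (.e (nat_lit 5257) (nat_lit 298) .nil))))))) (.g (nat_lit 5) .nil .nil))) 
(.lf (nat_lit 72689) (.g (nat_lit 2045) (.e (nat_lit 1669) (nat_lit 116) (.e (nat_lit 401428) (nat_lit 3) (.e (nat_lit 204861) (nat_lit 26) (.e (nat_lit 336186) (nat_lit 11) (.e (nat_lit 368676) (nat_lit 21) (.e (nat_lit 516098) (nat_lit 0) (.e (nat_lit 7490) (nat_lit 402) .nil))))))) (.g (nat_lit 5) .nil .nil))))) (.nd (nat_lit 4) (.nd (nat_lit 5) 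
(.lf (nat_lit 72649) (.g (nat_lit 1813) (.e (nat_lit 1668) (nat_lit 116) (.e (nat_lit 401473) (nat_lit 29) (.e (nat_lit 352315) (nat_lit 23) (.e (nat_lit 98313) (nat_lit 9) (.e (nat_lit 335906) (nat_lit 0) (.e (nat_lit 1998) (nat_lit 137) (.e (nat_lit 663554) (nat_lit 0) .nil))))))) (.g (nat_lit 6) .nil .nil))) 
(.lf (nat_lit 72681) (.g (nat_lit 3160) (.e (nat_lit 1669) (nat_lit 116) (.e (nat_lit 401425) (nat_lit 2) (.e (nat_lit 196672) (nat_lit 15) (.e (nat_lit 81954) (nat_lit 23) (.e (nat_lit 98320) (nat_lit 17) (.e (nat_lit 7490) (nat_lit 402) .nil)))))) (.g (nat_lit 0) .nil .nil)))) (.nd (nat_lit 5) 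
(.lf (nat_lit 72665) (.g (nat_lit 3515) (.e (nat_lit 1669) (nat_lit 116) (.e (nat_lit 401425) (nat_lit 2) (.e (nat_lit 196666) (nat_lit 13) (.e (nat_lit 65610) (nat_lit 10) (.e (nat_lit 344117) (nat_lit 21) (.e (nat_lit 516098) (nat_lit 0) (.e (nat_lit 7497) (nat_lit 402) .nil))))))) (.g (nat_lit 4) .nil .nil))) 
(.lf (nat_lit 72697) (.g (nat_lit 4606) (.e (nat_lit 1669) (nat_lit 116) (.e (nat_lit 401434) (nat_lit 9) (.e (nat_lit 426140) (nat_lit 3) (.e (nat_lit 204846) (nat_lit 24) (.e (nat_lit 319534) (nat_lit 16) (.e (nat_lit 286728) (nat_lit 0) (.e (nat_lit 1841) (nat_lit 123) (.e (nat_lit 548874) (nat_lit 5) .nil)))))))) (.g (nat_lit 8) .nil .nil)))))) 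
(.nd (nat_lit 3) (.nd (nat_lit 4) (.nd (nat_lit 5) 
(.lf (nat_lit 72645) (.g (nat_lit 1834) (.e (nat_lit 1668) (nat_lit 116) (.e (nat_lit 401459) (nat_lit 13) (.e (nat_lit 483411) (nat_lit 27) (.e (nat_lit 401448) (nat_lit 10) .nil)))) .nil)) 
(.lf (nat_lit 72677) (.g (nat_lit 2120) (.e (nat_lit 1669) (nat_lit 116) (.e (nat_lit 401425) (nat_lit 2) (.e (nat_lit 196666) (nat_lit 13) (.e (nat_lit 65619) (nat_lit 10) .nil)))) .nil))) (.nd (nat_lit 5) 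
(.lf (nat_lit 72661) (.g (nat_lit 2504) (.e (nat_lit 1669) (nat_lit 116) (.e (nat_lit 401425) (nat_lit 2) (.e (nat_lit 196666) (nat_lit 13) (.e (nat_lit 65610) (nat_lit 10) (.e (nat_lit 344117) (nat_lit 21) .nil))))) .nil)) 
(.lf (nat_lit 72693) (.g (nat_lit 1449) (.e (nat_lit 1669) (nat_lit 116) (.e (nat_lit 401434) (nat_lit 9) (.e (nat_lit 426140) (nat_lit 3) (.e (nat_lit 204821) (nat_lit 17) .nil)))) .nil)))) (.nd (nat_lit 4) (.nd (nat_lit 5) 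
(.lf (nat_lit 72653) (.g (nat_lit 4437) (.e (nat_lit 1669) (nat_lit 116) (.e (nat_lit 401425) (nat_lit 2) (.e (nat_lit 196666) (nat_lit 13) (.e (nat_lit 65610) (nat_lit 10) (.e (nat_lit 344115) (nat_lit 20) (.e (nat_lit 507906) (nat_lit 0) (.e (nat_lit 5272) (nat_lit 298) .nil))))))) (.g (nat_lit 6) .nil .nil))) 
(.lf (nat_lit 72685) (.g (nat_lit 600) (.e (nat_lit 1669) (nat_lit 116) (.e (nat_lit 401425) (nat_lit 2) (.e (nat_lit 196681) (nat_lit 17) .nil))) .nil))) (.nd (nat_lit 5) 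
(.lf (nat_lit 72669) (.g (nat_lit 1267) (.e (nat_lit 1669) (nat_lit 116) (.e (nat_lit 401425) (nat_lit 2) (.e (nat_lit 196666) (nat_lit 13) (.e (nat_lit 65617) (nat_lit 10) .nil)))) .nil)) 
(.lf (nat_lit 72701) (.g (nat_lit 2551) (.e (nat_lit 1669) (nat_lit 116) (.e (nat_lit 401436) (nat_lit 9) (.e (nat_lit 426131) (nat_lit 3) (.e (nat_lit 204846) (nat_lit 24) (.e (nat_lit 319534) (nat_lit 16) (.e (nat_lit 286728) (nat_lit 0) (.e (nat_lit 1841) (nat_lit 123) (.e (nat_lit 548874) (nat_lit 5) .nil)))))))) (.g (nat_lit 5) .nil .nil))))))) 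
(.nd (nat_lit 2) (.nd (nat_lit 3) (.nd (nat_lit 4) (.nd (nat_lit 5) 
(.lf (nat_lit 72643) (.g (nat_lit 3798) (.e (nat_lit 1668) (nat_lit 116) (.e (nat_lit 401459) (nat_lit 13) (.e (nat_lit 483372) (nat_lit 21) (.e (nat_lit 319533) (nat_lit 16) .nil)))) .nil)) 
(.lf (nat_lit 72675) (.g (nat_lit 2531) (.e (nat_lit 1669) (nat_lit 116) (.e (nat_lit 401425) (nat_lit 2) (.e (nat_lit 196666) (nat_lit 13) (.e (nat_lit 65617) (nat_lit 10) (.e (nat_lit 344115) (nat_lit 20) (.e (nat_lit 507908) (nat_lit 0) (.e (nat_lit 5258) (nat_lit 298) .nil))))))) (.g (nat_lit 4) .nil .nil)))) (.nd (nat_lit 5) 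
(.lf (nat_lit 72659) (.g (nat_lit 2915) (.e (nat_lit 1669) (nat_lit 116) (.e (nat_lit 401425) (nat_lit 2) (.e (nat_lit 196666) (nat_lit 13) (.e (nat_lit 65610) (nat_lit 10) (.e (nat_lit 344115) (nat_lit 20) (.e (nat_lit 507908) (nat_lit 0) (.e (nat_lit 5271) (nat_lit 298) .nil))))))) (.g (nat_lit 4) .nil .nil))) 
(.lf (nat_lit 72691) (.g (nat_lit 2262) (.e (nat_lit 1669) (nat_lit 116) (.e (nat_lit 401434) (nat_lit 9) (.e (nat_lit 426125) (nat_lit 2) (.e (nat_lit 196661) (nat_lit 12) (.e (nat_lit 65280) (nat_lit 206) .nil))))) .nil)))) (.nd (nat_lit 4) (.nd (nat_lit 5) 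
(.lf (nat_lit 72651) (.g (nat_lit 4058) (.e (nat_lit 1669) (nat_lit 116) (.e (nat_lit 401425) (nat_lit 2) (.e (nat_lit 196666) (nat_lit 13) (.e (nat_lit 65610) (nat_lit 10) (.e (nat_lit 344115) (nat_lit 20) (.e (nat_lit 507906) (nat_lit 0) (.e (nat_lit 5257) (nat_lit 298) .nil))))))) (.g (nat_lit 5) .nil .nil))) 
(.lf (nat_lit 72683) (.g (nat_lit 826) (.e (nat_lit 1669) (nat_lit 116) (.e (nat_lit 401425) (nat_lit 2) (.e (nat_lit 196673) (nat_lit 15) .nil))) .nil))) (.nd (nat_lit 5) 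
(.lf (nat_lit 72667) (.g (nat_lit 4673) (.e (nat_lit 1669) (nat_lit 116) (.e (nat_lit 401425) (nat_lit 2) (.e (nat_lit 196666) (nat_lit 13) (.e (nat_lit 65610) (nat_lit 10) (.e (nat_lit 344117) (nat_lit 21) (.e (nat_lit 516106) (nat_lit 0) (.e (nat_lit 7936) (nat_lit 402) .nil))))))) (.g (nat_lit 6) .nil .nil))) 
(.lf (nat_lit 72699) (.g (nat_lit 2491) (.e (nat_lit 1669) (nat_lit 116) (.e (nat_lit 401434) (nat_lit 9) (.e (nat_lit 426140) (nat_lit 3) (.e (nat_lit 204885) (nat_lit 33) (.e (nat_lit 401448) (nat_lit 10) (.e (nat_lit 434217) (nat_lit 19) (.e (nat_lit 499969) (nat_lit 14) .nil))))))) (.g (nat_lit 4) .nil .nil)))))) (.nd (nat_lit 3) (.nd (nat_lit 4) (.nd (nat_lit 5) 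
(.lf (nat_lit 72647) (.g (nat_lit 5455) (.e (nat_lit 1668) (nat_lit 116) (.e (nat_lit 401468) (nat_lit 27) (.e (nat_lit 336099) (nat_lit 9) (.e (nat_lit 336013) (nat_lit 2) (.e (nat_lit 90160) (nat_lit 11) (.e (nat_lit 24584) (nat_lit 0) (.e (nat_lit 1994) (nat_lit 137) (.e (nat_lit 663554) (nat_lit 0) .nil)))))))) (.g (nat_lit 6) .nil .nil))) 
(.lf (nat_lit 72679) (.g (nat_lit 2116) (.e (nat_lit 1669) (nat_lit 116) (.e (nat_lit 401425) (nat_lit 2) (.e (nat_lit 196672) (nat_lit 15) (.e (nat_lit 81951) (nat_lit 22) (.e (nat_lit 90165) (nat_lit 12) (.e (nat_lit 171776) (nat_lit 187) .nil)))))) (.g (nat_lit 5) .nil .nil)))) (.nd (nat_lit 5) 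
(.lf (nat_lit 72663) (.g (nat_lit 4733) (.e (nat_lit 1669) (nat_lit 116) (.e (nat_lit 401425) (nat_lit 2) (.e (nat_lit 196666) (nat_lit 13) (.e (nat_lit 65610) (nat_lit 10) (.e (nat_lit 344117) (nat_lit 21) (.e (nat_lit 516097) (nat_lit 0) (.e (nat_lit 7497) (nat_lit 402) .nil))))))) (.g (nat_lit 5) .nil .nil))) 
(.lf (nat_lit 72695) (.g (nat_lit 1518) (.e (nat_lit 1669) (nat_lit 116) (.e (nat_lit 401434) (nat_lit 9) (.e (nat_lit 426140) (nat_lit 3) (.e (nat_lit 204845) (nat_lit 24) .nil)))) .nil)))) (.nd (nat_lit 4) (.nd (nat_lit 5) 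
(.lf (nat_lit 72655) (.g (nat_lit 2901) (.e (nat_lit 1669) (nat_lit 116) (.e (nat_lit 401425) (nat_lit 2) (.e (nat_lit 196666) (nat_lit 13) (.e (nat_lit 65610) (nat_lit 10) (.e (nat_lit 344115) (nat_lit 20) (.e (nat_lit 507907) (nat_lit 0) (.e (nat_lit 5271) (nat_lit 298) .nil))))))) (.g (nat_lit 4) .nil .nil))) 
(.lf (nat_lit 72687) (.g (nat_lit 3413) (.e (nat_lit 1669) (nat_lit 116) (.e (nat_lit 401425) (nat_lit 2) (.e (nat_lit 196681) (nat_lit 17) (.e (nat_lit 131109) (nat_lit 9) (.e (nat_lit 336019) (nat_lit 3) (.e (nat_lit 98320) (nat_lit 17) (.e (nat_lit 7490) (nat_lit 402) .nil))))))) (.g (nat_lit 5) .nil .nil)))) (.nd (nat_lit 5) 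
(.lf (nat_lit 72671) (.g (nat_lit 2780) (.e (nat_lit 1669) (nat_lit 116) (.e (nat_lit 401425) (nat_lit 2) (.e (nat_lit 196666) (nat_lit 13) (.e (nat_lit 65617) (nat_lit 10) (.e (nat_lit 344115) (nat_lit 20) (.e (nat_lit 507906) (nat_lit 0) (.e (nat_lit 5257) (nat_lit 298) .nil))))))) (.g (nat_lit 4) .nil .nil))) 
(.lf (nat_lit 72703) (.g (nat_lit 3826) (.e (nat_lit 1669) (nat_lit 116) (.e (nat_lit 401436) (nat_lit 9) (.e (nat_lit 426131) (nat_lit 3) (.e (nat_lit 204885) (nat_lit 33) (.e (nat_lit 401448) (nat_lit 10) (.e (nat_lit 434217) (nat_lit 19) (.e (nat_lit 499969) (nat_lit 14) .nil))))))) (.g (nat_lit 7) .nil .nil)))))))))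

noncomputable def tv988 : DT := (.nd (nat_lit 0) (.nd (nat_lit 1) (.nd (nat_lit 2) (.nd (nat_lit 3) (.nd (nat_lit 4) (.nd (nat_lit 5) 
(.lf (nat_lit 72704) (.g (nat_lit 3139) (.e (nat_lit 1669) (nat_lit 116) (.e (nat_lit 401436) (nat_lit 9) (.e (nat_lit 426131) (nat_lit 3) (.e (nat_lit 204885) (nat_lit 33) (.e (nat_lit 401448) (nat_lit 10) (.e (nat_lit 434221) (nat_lit 19) (.e (nat_lit 499969) (nat_lit 14) .nil))))))) (.g (nat_lit 5) .nil .nil))) 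
(.lf (nat_lit 72736) (.g (nat_lit 2953) (.e (nat_lit 1669) (nat_lit 116) (.e (nat_lit 401452) (nat_lit 12) (.e (nat_lit 475184) (nat_lit 29) (.e (nat_lit 557098) (nat_lit 13) (.e (nat_lit 172097) (nat_lit 9) (.e (nat_lit 426125) (nat_lit 2) (.e (nat_lit 196630) (nat_lit 9) .nil))))))) (.g (nat_lit 5) .nil .nil)))) (.nd (nat_lit 5) 
(.lf (nat_lit 72720) (.g (nat_lit 2508) (.e (nat_lit 1669) (nat_lit 116) (.e (nat_lit 401438) (nat_lit 9) (.e (nat_lit 426402) (nat_lit 15) (.e (nat_lit 1849) (nat_lit 124) (.e (nat_lit 557108) (nat_lit 15) (.e (nat_lit 188449) (nat_lit 22) (.e (nat_lit 204544) (nat_lit 9) .nil))))))) (.g (nat_lit 6) .nil .nil))) 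
(.lf (nat_lit 72752) (.g (nat_lit 4751) (.e (nat_lit 1669) (nat_lit 116) (.e (nat_lit 401453) (nat_lit 12) (.e (nat_lit 475184) (nat_lit 29) (.e (nat_lit 557109) (nat_lit 15) (.e (nat_lit 188447) (nat_lit 22) (.e (nat_lit 196630) (nat_lit 9) .nil)))))) (.g (nat_lit 6) .nil .nil))))) (.nd (nat_lit 4) (.nd (nat_lit 5) 
(.lf (nat_lit 72712) (.g (nat_lit 3872) (.e (nat_lit 1669) (nat_lit 116) (.e (nat_lit 401437) (nat_lit 9) (.e (nat_lit 426402) (nat_lit 15) (.e (nat_lit 1848) (nat_lit 124) (.e (nat_lit 557107) (nat_lit 15) (.e (nat_lit 188447) (nat_lit 22) (.e (nat_lit 196630) (nat_lit 9) .nil))))))) (.g (nat_lit 7) .nil .nil))) 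
(.lf (nat_lit 72744) (.g (nat_lit 2667) (.e (nat_lit 1669) (nat_lit 116) (.e (nat_lit 401453) (nat_lit 12) (.e (nat_lit 475183) (nat_lit 29) (.e (nat_lit 557108) (nat_lit 15) (.e (nat_lit 188447) (nat_lit 22) (.e (nat_lit 196630) (nat_lit 9) .nil)))))) (.g (nat_lit 4) .nil .nil)))) (.nd (nat_lit 5) 
(.lf (nat_lit 72728) (.g (nat_lit 3797) (.e (nat_lit 1669) (nat_lit 116) (.e (nat_lit 401450) (nat_lit 12) (.e (nat_lit 475185) (nat_lit 29) (.e (nat_lit 557107) (nat_lit 15) (.e (nat_lit 188447) (nat_lit 22) (.e (nat_lit 196630) (nat_lit 9) .nil)))))) (.g (nat_lit 4) .nil .nil))) 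
(.lf (nat_lit 72760) (.g (nat_lit 4528) (.e (nat_lit 1669) (nat_lit 116) (.e (nat_lit 401453) (nat_lit 12) (.e (nat_lit 475185) (nat_lit 29) (.e (nat_lit 557109) (nat_lit 15) (.e (nat_lit 188449) (nat_lit 22) (.e (nat_lit 196630) (nat_lit 9) .nil)))))) (.g (nat_lit 0) .nil .nil)))))) (.nd (nat_lit 3) (.nd (nat_lit 4) (.nd (nat_lit 5) 
(.lf (nat_lit 72708) (.g (nat_lit 2923) (.e (nat_lit 1669) (nat_lit 116) (.e (nat_lit 401437) (nat_lit 9) (.e (nat_lit 426131) (nat_lit 3) (.e (nat_lit 204885) (nat_lit 33) (.e (nat_lit 401448) (nat_lit 10) (.e (nat_lit 434217) (nat_lit 19) (.e (nat_lit 499969) (nat_lit 14) .nil))))))) (.g (nat_lit 4) .nil .nil))) 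
(.lf (nat_lit 72740) (.g (nat_lit 4606) (.e (nat_lit 1669) (nat_lit 116) (.e (nat_lit 401453) (nat_lit 12) (.e (nat_lit 475183) (nat_lit 29) (.e (nat_lit 557097) (nat_lit 13) (.e (nat_lit 172097) (nat_lit 9) (.e (nat_lit 426125) (nat_lit 2) (.e (nat_lit 196630) (nat_lit 9) .nil))))))) (.g (nat_lit 7) .nil .nil)))) (.nd (nat_lit 5) 
(.lf (nat_lit 72724) (.g (nat_lit 849) (.e (nat_lit 1669) (nat_lit 116) (.e (nat_lit 401450) (nat_lit 12) (.e (nat_lit 475183) (nat_lit 29) .nil))) .nil)) 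
(.lf (nat_lit 72756) (.g (nat_lit 4352) (.e (nat_lit 1669) (nat_lit 116) (.e (nat_lit 401453) (nat_lit 12) (.e (nat_lit 475185) (nat_lit 29) (.e (nat_lit 557098) (nat_lit 13) (.e (nat_lit 172097) (nat_lit 9) (.e (nat_lit 426125) (nat_lit 2) (.e (nat_lit 196630) (nat_lit 9) .nil))))))) (.g (nat_lit 6) .nil .nil))))) (.nd (nat_lit 4) (.nd (nat_lit 5) 
(.lf (nat_lit 72716) (.g (nat_lit 2750) (.e (nat_lit 1669) (nat_lit 116) (.e (nat_lit 401437) (nat_lit 9) (.e (nat_lit 426402) (nat_lit 15) (.e (nat_lit 1849) (nat_lit 124) (.e (nat_lit 557108) (nat_lit 15) (.e (nat_lit 188449) (nat_lit 22) (.e (nat_lit 204544) (nat_lit 9) .nil))))))) (.g (nat_lit 6) .nil .nil))) 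
(.lf (nat_lit 72748) (.g (nat_lit 4465) (.e (nat_lit 1669) (nat_lit 116) (.e (nat_lit 401453) (nat_lit 12) (.e (nat_lit 475184) (nat_lit 29) (.e (nat_lit 557098) (nat_lit 13) (.e (nat_lit 172097) (nat_lit 9) (.e (nat_lit 426125) (nat_lit 2) (.e (nat_lit 196630) (nat_lit 9) .nil))))))) (.g (nat_lit 7) .nil .nil)))) (.nd (nat_lit 5) 
(.lf (nat_lit 72732) (.g (nat_lit 2667) (.e (nat_lit 1669) (nat_lit 116) (.e (nat_lit 401452) (nat_lit 12) (.e (nat_lit 475183) (nat_lit 29) (.e (nat_lit 557097) (nat_lit 13) (.e (nat_lit 172097) (nat_lit 9) (.e (nat_lit 426125) (nat_lit 2) (.e (nat_lit 196630) (nat_lit 9) .nil))))))) (.g (nat_lit 4) .nil .nil))) 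
(.lf (nat_lit 72764) (.g (nat_lit 1260) (.e (nat_lit 1669) (nat_lit 116) (.e (nat_lit 401454) (nat_lit 12) (.e (nat_lit 475136) (nat_lit 0) .nil))) .nil)))))) (.nd (nat_lit 2) (.nd (nat_lit 3) (.nd (nat_lit 4) (.nd (nat_lit 5) 
(.lf (nat_lit 72706) (.g (nat_lit 1211) (.e (nat_lit 1669) (nat_lit 116) (.e (nat_lit 401436) (nat_lit 9) (.e (nat_lit 426402) (nat_lit 15) (.e (nat_lit 1849) (nat_lit 124) (.e (nat_lit 557108) (nat_lit 15) (.e (nat_lit 188449) (nat_lit 22) (.e (nat_lit 204544) (nat_lit 9) .nil))))))) (.g (nat_lit 5) .nil .nil))) 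
(.lf (nat_lit 72738) (.g (nat_lit 2082) (.e (nat_lit 1669) (nat_lit 116) (.e (nat_lit 401452) (nat_lit 12) (.e (nat_lit 475185) (nat_lit 29) (.e (nat_lit 557098) (nat_lit 13) .nil)))) .nil))) (.nd (nat_lit 5) 
(.lf (nat_lit 72722) (.g (nat_lit 2262) (.e (nat_lit 1669) (nat_lit 116) (.e (nat_lit 401438) (nat_lit 9) (.e (nat_lit 426402) (nat_lit 15) (.e (nat_lit 1859) (nat_lit 124) (.e (nat_lit 557109) (nat_lit 15) (.e (nat_lit 188449) (nat_lit 22) (.e (nat_lit 204544) (nat_lit 9) .nil))))))) (.g (nat_lit 6) .nil .nil))) 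
(.lf (nat_lit 72754) (.g (nat_lit 1947) (.e (nat_lit 1669) (nat_lit 116) (.e (nat_lit 401453) (nat_lit 12) (.e (nat_lit 475184) (nat_lit 29) (.e (nat_lit 557109) (nat_lit 15) (.e (nat_lit 188449) (nat_lit 22) (.e (nat_lit 204544) (nat_lit 9) .nil)))))) (.g (nat_lit 5) .nil .nil))))) (.nd (nat_lit 4) (.nd (nat_lit 5) 
(.lf (nat_lit 72714) (.g (nat_lit 4250) (.e (nat_lit 1669) (nat_lit 116) (.e (nat_lit 401437) (nat_lit 9) (.e (nat_lit 426402) (nat_lit 15) (.e (nat_lit 1848) (nat_lit 124) (.e (nat_lit 557108) (nat_lit 15) (.e (nat_lit 188449) (nat_lit 22) (.e (nat_lit 196630) (nat_lit 9) .nil))))))) (.g (nat_lit 7) .nil .nil))) 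
(.lf (nat_lit 72746) (.g (nat_lit 2545) (.e (nat_lit 1669) (nat_lit 116) (.e (nat_lit 401453) (nat_lit 12) (.e (nat_lit 475183) (nat_lit 29) (.e (nat_lit 557108) (nat_lit 15) (.e (nat_lit 188449) (nat_lit 22) (.e (nat_lit 204544) (nat_lit 9) .nil)))))) (.g (nat_lit 4) .nil .nil)))) (.nd (nat_lit 5) 
(.lf (nat_lit 72730) (.g (nat_lit 851) (.e (nat_lit 1669) (nat_lit 116) (.e (nat_lit 401450) (nat_lit 12) (.e (nat_lit 475211) (nat_lit 41) .nil))) .nil)) 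
(.lf (nat_lit 72762) (.g (nat_lit 2894) (.e (nat_lit 1669) (nat_lit 116) (.e (nat_lit 401453) (nat_lit 12) (.e (nat_lit 475207) (nat_lit 41) (.e (nat_lit 712755) (nat_lit 30) (.e (nat_lit 450597) (nat_lit 17) (.e (nat_lit 663552) (nat_lit 0) .nil)))))) (.g (nat_lit 6) .nil .nil)))))) (.nd (nat_lit 3) (.nd (nat_lit 4) (.nd (nat_lit 5) 
(.lf (nat_lit 72710) (.g (nat_lit 347) (.e (nat_lit 1669) (nat_lit 116) (.e (nat_lit 401437) (nat_lit 9) (.e (nat_lit 426402) (nat_lit 15) .nil))) .nil)) 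
(.lf (nat_lit 72742) (.g (nat_lit 4637) (.e (nat_lit 1669) (nat_lit 116) (.e (nat_lit 401453) (nat_lit 12) (.e (nat_lit 475183) (nat_lit 29) (.e (nat_lit 557101) (nat_lit 13) (.e (nat_lit 172097) (nat_lit 9) (.e (nat_lit 426125) (nat_lit 2) (.e (nat_lit 196630) (nat_lit 9) .nil))))))) (.g (nat_lit 7) .nil .nil)))) (.nd (nat_lit 5) 
(.lf (nat_lit 72726) (.g (nat_lit 4748) (.e (nat_lit 1669) (nat_lit 116) (.e (nat_lit 401450) (nat_lit 12) (.e (nat_lit 475185) (nat_lit 29) (.e (nat_lit 557098) (nat_lit 13) (.e (nat_lit 172097) (nat_lit 9) (.e (nat_lit 426125) (nat_lit 2) (.e (nat_lit 196630) (nat_lit 9) .nil))))))) (.g (nat_lit 5) .nil .nil))) 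
(.lf (nat_lit 72758) (.g (nat_lit 4034) (.e (nat_lit 1669) (nat_lit 116) (.e (nat_lit 401453) (nat_lit 12) (.e (nat_lit 475185) (nat_lit 29) (.e (nat_lit 557107) (nat_lit 15) (.e (nat_lit 188447) (nat_lit 22) (.e (nat_lit 196630) (nat_lit 9) .nil)))))) (.g (nat_lit 6) .nil .nil))))) (.nd (nat_lit 4) (.nd (nat_lit 5) 
(.lf (nat_lit 72718) (.g (nat_lit 789) (.e (nat_lit 1669) (nat_lit 116) (.e (nat_lit 401438) (nat_lit 9) (.e (nat_lit 426364) (nat_lit 15) .nil))) .nil)) 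
(.lf (nat_lit 72750) (.g (nat_lit 3801) (.e (nat_lit 1669) (nat_lit 116) (.e (nat_lit 401453) (nat_lit 12) (.e (nat_lit 475184) (nat_lit 29) (.e (nat_lit 557107) (nat_lit 15) (.e (nat_lit 188447) (nat_lit 22) (.e (nat_lit 196630) (nat_lit 9) .nil)))))) (.g (nat_lit 0) .nil .nil)))) (.nd (nat_lit 5) 
(.lf (nat_lit 72734) (.g (nat_lit 2592) (.e (nat_lit 1669) (nat_lit 116) (.e (nat_lit 401452) (nat_lit 12) (.e (nat_lit 475183) (nat_lit 29) (.e (nat_lit 557101) (nat_lit 13) (.e (nat_lit 172097) (nat_lit 9) (.e (nat_lit 426125) (nat_lit 2) (.e (nat_lit 196630) (nat_lit 9) .nil))))))) (.g (nat_lit 4) .nil .nil))) 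
(.lf (nat_lit 72766) (.g (nat_lit 1245) (.e (nat_lit 1669) (nat_lit 116) (.e (nat_lit 401454) (nat_lit 12) (.e (nat_lit 475139) (nat_lit 0) .nil))) .nil))))))) (.nd (nat_lit 1) (.nd (nat_lit 2) (.nd (nat_lit 3) (.nd (nat_lit 4) (.nd (nat_lit 5) 
(.lf (nat_lit 72705) (.g (nat_lit 1511) (.e (nat_lit 1669) (nat_lit 116) (.e (nat_lit 401436) (nat_lit 9) (.e (nat_lit 426402) (nat_lit 15) (.e (nat_lit 1848) (nat_lit 124) (.e (nat_lit 557108) (nat_lit 15) (.e (nat_lit 188449) (nat_lit 22) (.e (nat_lit 204544) (nat_lit 9) .nil))))))) (.g (nat_lit 5) .nil .nil))) 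
(.lf (nat_lit 72737) (.g (nat_lit 435) (.e (nat_lit 1669) (nat_lit 116) (.e (nat_lit 401452) (nat_lit 12) (.e (nat_lit 475185) (nat_lit 29) .nil))) .nil))) (.nd (nat_lit 5) 
(.lf (nat_lit 72721) (.g (nat_lit 4792) (.e (nat_lit 1669) (nat_lit 116) (.e (nat_lit 401438) (nat_lit 9) (.e (nat_lit 426402) (nat_lit 15) (.e (nat_lit 1849) (nat_lit 124) (.e (nat_lit 557109) (nat_lit 15) (.e (nat_lit 188449) (nat_lit 22) (.e (nat_lit 196630) (nat_lit 9) .nil))))))) (.g (nat_lit 0) .nil .nil))) 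
(.lf (nat_lit 72753) (.g (nat_lit 4436) (.e (nat_lit 1669) (nat_lit 116) (.e (nat_lit 401453) (nat_lit 12) (.e (nat_lit 475184) (nat_lit 29) (.e (nat_lit 557109) (nat_lit 15) (.e (nat_lit 188449) (nat_lit 22) (.e (nat_lit 196630) (nat_lit 9) .nil)))))) (.g (nat_lit 0) .nil .nil))))) (.nd (nat_lit 4) (.nd (nat_lit 5) 
(.lf (nat_lit 72713) (.g (nat_lit 2631) (.e (nat_lit 1669) (nat_lit 116) (.e (nat_lit 401437) (nat_lit 9) (.e (nat_lit 426402) (nat_lit 15) (.e (nat_lit 1848) (nat_lit 124) (.e (nat_lit 557108) (nat_lit 15) (.e (nat_lit 188447) (nat_lit 22) (.e (nat_lit 196630) (nat_lit 9) .nil))))))) (.g (nat_lit 5) .nil .nil))) 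
(.lf (nat_lit 72745) (.g (nat_lit 4335) (.e (nat_lit 1669) (nat_lit 116) (.e (nat_lit 401453) (nat_lit 12) (.e (nat_lit 475183) (nat_lit 29) (.e (nat_lit 557108) (nat_lit 15) (.e (nat_lit 188449) (nat_lit 22) (.e (nat_lit 196630) (nat_lit 9) .nil)))))) (.g (nat_lit 6) .nil .nil)))) (.nd (nat_lit 5) 
(.lf (nat_lit 72729) (.g (nat_lit 848) (.e (nat_lit 1669) (nat_lit 116) (.e (nat_lit 401450) (nat_lit 12) (.e (nat_lit 475199) (nat_lit 40) .nil))) .nil)) 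
(.lf (nat_lit 72761) (.g (nat_lit 2727) (.e (nat_lit 1669) (nat_lit 116) (.e (nat_lit 401453) (nat_lit 12) (.e (nat_lit 475207) (nat_lit 41) (.e (nat_lit 712755) (nat_lit 30) (.e (nat_lit 450596) (nat_lit 17) (.e (nat_lit 663552) (nat_lit 0) .nil)))))) (.g (nat_lit 6) .nil .nil)))))) (.nd (nat_lit 3) (.nd (nat_lit 4) (.nd (nat_lit 5) 
(.lf (nat_lit 72709) (.g (nat_lit 2502) (.e (nat_lit 1669) (nat_lit 116) (.e (nat_lit 401437) (nat_lit 9) (.e (nat_lit 426364) (nat_lit 15) (.e (nat_lit 1858) (nat_lit 124) (.e (nat_lit 557101) (nat_lit 13) (.e (nat_lit 172097) (nat_lit 9) (.e (nat_lit 426125) (nat_lit 2) (.e (nat_lit 196630) (nat_lit 9) .nil)))))))) (.g (nat_lit 4) .nil .nil))) 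
(.lf (nat_lit 72741) (.g (nat_lit 5025) (.e (nat_lit 1669) (nat_lit 116) (.e (nat_lit 401453) (nat_lit 12) (.e (nat_lit 475183) (nat_lit 29) (.e (nat_lit 557098) (nat_lit 13) (.e (nat_lit 172097) (nat_lit 9) (.e (nat_lit 426125) (nat_lit 2) (.e (nat_lit 196630) (nat_lit 9) .nil))))))) (.g (nat_lit 7) .nil .nil)))) (.nd (nat_lit 5) 
(.lf (nat_lit 72725) (.g (nat_lit 2269) (.e (nat_lit 1669) (nat_lit 116) (.e (nat_lit 401450) (nat_lit 12) (.e (nat_lit 475185) (nat_lit 29) (.e (nat_lit 557098) (nat_lit 13) .nil)))) .nil)) 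
(.lf (nat_lit 72757) (.g (nat_lit 4436) (.e (nat_lit 1669) (nat_lit 116) (.e (nat_lit 401453) (nat_lit 12) (.e (nat_lit 475185) (nat_lit 29) (.e (nat_lit 557101) (nat_lit 13) (.e (nat_lit 172097) (nat_lit 9) (.e (nat_lit 426125) (nat_lit 2) (.e (nat_lit 196630) (nat_lit 9) .nil))))))) (.g (nat_lit 6) .nil .nil))))) (.nd (nat_lit 4) (.nd (nat_lit 5) 
(.lf (nat_lit 72717) (.g (nat_lit 2478) (.e (nat_lit 1669) (nat_lit 116) (.e (nat_lit 401437) (nat_lit 9) (.e (nat_lit 426402) (nat_lit 15) (.e (nat_lit 1859) (nat_lit 124) (.e (nat_lit 557109) (nat_lit 15) (.e (nat_lit 188449) (nat_lit 22) (.e (nat_lit 204544) (nat_lit 9) .nil))))))) (.g (nat_lit 6) .nil .nil))) 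
(.lf (nat_lit 72749) (.g (nat_lit 4344) (.e (nat_lit 1669) (nat_lit 116) (.e (nat_lit 401453) (nat_lit 12) (.e (nat_lit 475184) (nat_lit 29) (.e (nat_lit 557101) (nat_lit 13) (.e (nat_lit 172097) (nat_lit 9) (.e (nat_lit 426125) (nat_lit 2) (.e (nat_lit 196630) (nat_lit 9) .nil))))))) (.g (nat_lit 7) .nil .nil)))) (.nd (nat_lit 5) 
(.lf (nat_lit 72733) (.g (nat_lit 2980) (.e (nat_lit 1669) (nat_lit 116) (.e (nat_lit 401452) (nat_lit 12) (.e (nat_lit 475183) (nat_lit 29) (.e (nat_lit 557098) (nat_lit 13) (.e (nat_lit 172097) (nat_lit 9) (.e (nat_lit 426125) (nat_lit 2) (.e (nat_lit 196630) (nat_lit 9) .nil))))))) (.g (nat_lit 4) .nil .nil))) 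
(.lf (nat_lit 72765) (.g (nat_lit 1372) (.e (nat_lit 1669) (nat_lit 116) (.e (nat_lit 401454) (nat_lit 12) (.e (nat_lit 475138) (nat_lit 0) .nil))) .nil)))))) (.nd (nat_lit 2) (.nd (nat_lit 3) (.nd (nat_lit 4) (.nd (nat_lit 5) 
(.lf (nat_lit 72707) (.g (nat_lit 965) (.e (nat_lit 1669) (nat_lit 116) (.e (nat_lit 401436) (nat_lit 9) (.e (nat_lit 426402) (nat_lit 15) (.e (nat_lit 1859) (nat_lit 124) (.e (nat_lit 557109) (nat_lit 15) (.e (nat_lit 188449) (nat_lit 22) (.e (nat_lit 204544) (nat_lit 9) .nil))))))) (.g (nat_lit 5) .nil .nil))) 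
(.lf (nat_lit 72739) (.g (nat_lit 5036) (.e (nat_lit 1669) (nat_lit 116) (.e (nat_lit 401452) (nat_lit 12) (.e (nat_lit 475185) (nat_lit 29) (.e (nat_lit 557098) (nat_lit 13) (.e (nat_lit 172097) (nat_lit 9) (.e (nat_lit 426125) (nat_lit 2) (.e (nat_lit 196630) (nat_lit 9) .nil))))))) (.g (nat_lit 5) .nil .nil)))) (.nd (nat_lit 5) 
(.lf (nat_lit 72723) (.g (nat_lit 2610) (.e (nat_lit 1669) (nat_lit 116) (.e (nat_lit 401444) (nat_lit 9) (.e (nat_lit 426129) (nat_lit 3) (.e (nat_lit 204846) (nat_lit 24) (.e (nat_lit 319533) (nat_lit 16) (.e (nat_lit 286724) (nat_lit 0) (.e (nat_lit 1842) (nat_lit 123) (.e (nat_lit 548874) (nat_lit 5) .nil)))))))) (.g (nat_lit 4) .nil .nil))) 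
(.lf (nat_lit 72755) (.g (nat_lit 2423) (.e (nat_lit 1669) (nat_lit 116) (.e (nat_lit 401453) (nat_lit 12) (.e (nat_lit 475184) (nat_lit 29) (.e (nat_lit 557109) (nat_lit 15) (.e (nat_lit 188458) (nat_lit 25) (.e (nat_lit 245781) (nat_lit 9) .nil)))))) (.g (nat_lit 5) .nil .nil))))) (.nd (nat_lit 4) (.nd (nat_lit 5) 
(.lf (nat_lit 72715) (.g (nat_lit 3028) (.e (nat_lit 1669) (nat_lit 116) (.e (nat_lit 401437) (nat_lit 9) (.e (nat_lit 426402) (nat_lit 15) (.e (nat_lit 1848) (nat_lit 124) (.e (nat_lit 557108) (nat_lit 15) (.e (nat_lit 188449) (nat_lit 22) (.e (nat_lit 204544) (nat_lit 9) .nil))))))) (.g (nat_lit 6) .nil .nil))) 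
(.lf (nat_lit 72747) (.g (nat_lit 5301) (.e (nat_lit 1669) (nat_lit 116) (.e (nat_lit 401453) (nat_lit 12) (.e (nat_lit 475183) (nat_lit 29) (.e (nat_lit 557109) (nat_lit 15) (.e (nat_lit 188449) (nat_lit 22) (.e (nat_lit 196630) (nat_lit 9) .nil)))))) (.g (nat_lit 6) .nil .nil)))) (.nd (nat_lit 5) 
(.lf (nat_lit 72731) (.g (nat_lit 2943) (.e (nat_lit 1669) (nat_lit 116) (.e (nat_lit 401450) (nat_lit 12) (.e (nat_lit 475211) (nat_lit 41) (.e (nat_lit 712755) (nat_lit 30) (.e (nat_lit 450598) (nat_lit 18) .nil))))) .nil)) 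
(.lf (nat_lit 72763) (.g (nat_lit 1848) (.e (nat_lit 1669) (nat_lit 116) (.e (nat_lit 401453) (nat_lit 12) (.e (nat_lit 475207) (nat_lit 41) (.e (nat_lit 712755) (nat_lit 30) (.e (nat_lit 450597) (nat_lit 17) (.e (nat_lit 671488) (nat_lit 0) .nil)))))) (.g (nat_lit 4) .nil .nil)))))) (.nd (nat_lit 3) (.nd (nat_lit 4) (.nd (nat_lit 5) 
(.lf (nat_lit 72711) (.g (nat_lit 4816) (.e (nat_lit 1669) (nat_lit 116) (.e (nat_lit 401437) (nat_lit 9) (.e (nat_lit 426402) (nat_lit 15) (.e (nat_lit 1848) (nat_lit 124) (.e (nat_lit 557097) (nat_lit 13) (.e (nat_lit 172097) (nat_lit 9) (.e (nat_lit 426125) (nat_lit 2) (.e (nat_lit 196630) (nat_lit 9) .nil)))))))) (.g (nat_lit 8) .nil .nil))) 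
(.lf (nat_lit 72743) (.g (nat_lit 3942) (.e (nat_lit 1669) (nat_lit 116) (.e (nat_lit 401453) (nat_lit 12) (.e (nat_lit 475183) (nat_lit 29) (.e (nat_lit 557107) (nat_lit 15) (.e (nat_lit 188447) (nat_lit 22) (.e (nat_lit 196630) (nat_lit 9) .nil)))))) (.g (nat_lit 6) .nil .nil)))) (.nd (nat_lit 5) 
(.lf (nat_lit 72727) (.g (nat_lit 5079) (.e (nat_lit 1669) (nat_lit 116) (.e (nat_lit 401450) (nat_lit 12) (.e (nat_lit 475185) (nat_lit 29) (.e (nat_lit 557101) (nat_lit 13) (.e (nat_lit 172097) (nat_lit 9) (.e (nat_lit 426125) (nat_lit 2) (.e (nat_lit 196630) (nat_lit 9) .nil))))))) (.g (nat_lit 0) .nil .nil))) 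
(.lf (nat_lit 72759) (.g (nat_lit 4310) (.e (nat_lit 1669) (nat_lit 116) (.e (nat_lit 401453) (nat_lit 12) (.e (nat_lit 475185) (nat_lit 29) (.e (nat_lit 557109) (nat_lit 15) (.e (nat_lit 188447) (nat_lit 22) (.e (nat_lit 196630) (nat_lit 9) .nil)))))) (.g (nat_lit 5) .nil .nil))))) (.nd (nat_lit 4) (.nd (nat_lit 5) 
(.lf (nat_lit 72719) (.g (nat_lit 2813) (.e (nat_lit 1669) (nat_lit 116) (.e (nat_lit 401438) (nat_lit 9) (.e (nat_lit 426402) (nat_lit 15) (.e (nat_lit 1848) (nat_lit 124) (.e (nat_lit 557108) (nat_lit 15) (.e (nat_lit 188449) (nat_lit 22) (.e (nat_lit 204544) (nat_lit 9) .nil))))))) (.g (nat_lit 6) .nil .nil))) 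
(.lf (nat_lit 72751) (.g (nat_lit 2732) (.e (nat_lit 1669) (nat_lit 116) (.e (nat_lit 401453) (nat_lit 12) (.e (nat_lit 475184) (nat_lit 29) (.e (nat_lit 557109) (nat_lit 15) (.e (nat_lit 188433) (nat_lit 20) .nil))))) .nil))) (.nd (nat_lit 5) 
(.lf (nat_lit 72735) (.g (nat_lit 1051) (.e (nat_lit 1669) (nat_lit 116) (.e (nat_lit 401452) (nat_lit 12) (.e (nat_lit 475183) (nat_lit 29) (.e (nat_lit 557108) (nat_lit 15) .nil)))) .nil)) 
(.lf (nat_lit 72767) (.g (nat_lit 1373) (.e (nat_lit 1669) (nat_lit 116) (.e (nat_lit 401454) (nat_lit 12) (.e (nat_lit 475168) (nat_lit 22) .nil))) .nil))))))))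

noncomputable def tv989 : DT := (.nd (nat_lit 0) (.nd (nat_lit 1) (.nd (nat_lit 2) (.nd (nat_lit 3) (.nd (nat_lit 4) (.nd (nat_lit 5) 
(.lf (nat_lit 72768) (.g (nat_lit 1373) (.e (nat_lit 1669) (nat_lit 116) (.e (nat_lit 401454) (nat_lit 12) (.e (nat_lit 475170) (nat_lit 22) .nil))) .nil)) 
(.lf (nat_lit 72800) (.g (nat_lit 5974) (.e (nat_lit 1669) (nat_lit 116) (.e (nat_lit 401454) (nat_lit 12) (.e (nat_lit 475179) (nat_lit 24) (.e (nat_lit 516120) (nat_lit 1) (.e (nat_lit 164330) (nat_lit 230) (.e (nat_lit 163917) (nat_lit 13) (.e (nat_lit 434295) (nat_lit 49) (.e (nat_lit 745476) (nat_lit 0) .nil)))))))) (.g (nat_lit 7) .nil .nil)))) (.nd (nat_lit 5) 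
(.lf (nat_lit 72784) (.g (nat_lit 4447) (.e (nat_lit 1669) (nat_lit 116) (.e (nat_lit 401454) (nat_lit 12) (.e (nat_lit 475179) (nat_lit 24) (.e (nat_lit 516117) (nat_lit 1) (.e (nat_lit 164305) (nat_lit 226) (.e (nat_lit 2630) (nat_lit 164) (.e (nat_lit 172042) (nat_lit 0) (.e (nat_lit 3578) (nat_lit 223) (.e (nat_lit 745476) (nat_lit 0) .nil))))))))) (.g (nat_lit 4) .nil .nil))) 
(.lf (nat_lit 72816) (.g (nat_lit 2984) (.e (nat_lit 1669) (nat_lit 116) (.e (nat_lit 401454) (nat_lit 12) (.e (nat_lit 475184) (nat_lit 29) (.e (nat_lit 557109) (nat_lit 15) (.e (nat_lit 188424) (nat_lit 20) (.e (nat_lit 3140) (nat_lit 193) (.e (nat_lit 499969) (nat_lit 14) .nil))))))) (.g (nat_lit 4) .nil .nil))))) (.nd (nat_lit 4) (.nd (nat_lit 5) 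
(.lf (nat_lit 72776) (.g (nat_lit 4481) (.e (nat_lit 1669) (nat_lit 116) (.e (nat_lit 401454) (nat_lit 12) (.e (nat_lit 475177) (nat_lit 24) (.e (nat_lit 516129) (nat_lit 3) (.e (nat_lit 229120) (nat_lit 9) (.e (nat_lit 319519) (nat_lit 12) (.e (nat_lit 32774) (nat_lit 5) .nil))))))) (.g (nat_lit 6) .nil .nil))) 
(.lf (nat_lit 72808) (.g (nat_lit 2820) (.e (nat_lit 1669) (nat_lit 116) (.e (nat_lit 401454) (nat_lit 12) (.e (nat_lit 475183) (nat_lit 29) (.e (nat_lit 557108) (nat_lit 15) (.e (nat_lit 188449) (nat_lit 22) (.e (nat_lit 204544) (nat_lit 9) .nil)))))) (.g (nat_lit 5) .nil .nil)))) (.nd (nat_lit 5) 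
(.lf (nat_lit 72792) (.g (nat_lit 3204) (.e (nat_lit 1669) (nat_lit 116) (.e (nat_lit 401454) (nat_lit 12) (.e (nat_lit 475179) (nat_lit 24) (.e (nat_lit 516120) (nat_lit 1) (.e (nat_lit 164304) (nat_lit 226) .nil))))) .nil)) 
(.lf (nat_lit 72824) (.g (nat_lit 4212) (.e (nat_lit 1669) (nat_lit 116) (.e (nat_lit 401454) (nat_lit 12) (.e (nat_lit 475184) (nat_lit 29) (.e (nat_lit 557109) (nat_lit 15) (.e (nat_lit 188433) (nat_lit 20) (.e (nat_lit 3138) (nat_lit 193) (.e (nat_lit 499969) (nat_lit 14) .nil))))))) (.g (nat_lit 5) .nil .nil)))))) (.nd (nat_lit 3) (.nd (nat_lit 4) (.nd (nat_lit 5) 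
(.lf (nat_lit 72772) (.g (nat_lit 1252) (.e (nat_lit 1669) (nat_lit 116) (.e (nat_lit 401454) (nat_lit 12) (.e (nat_lit 475176) (nat_lit 24) .nil))) .nil)) 
(.lf (nat_lit 72804) (.g (nat_lit 5392) (.e (nat_lit 1669) (nat_lit 116) (.e (nat_lit 401454) (nat_lit 12) (.e (nat_lit 475183) (nat_lit 29) (.e (nat_lit 557098) (nat_lit 13) (.e (nat_lit 172097) (nat_lit 9) (.e (nat_lit 426125) (nat_lit 2) (.e (nat_lit 196630) (nat_lit 9) .nil))))))) (.g (nat_lit 7) .nil .nil)))) (.nd (nat_lit 5) 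
(.lf (nat_lit 72788) (.g (nat_lit 4047) (.e (nat_lit 1669) (nat_lit 116) (.e (nat_lit 401454) (nat_lit 12) (.e (nat_lit 475179) (nat_lit 24) (.e (nat_lit 516117) (nat_lit 1) (.e (nat_lit 164305) (nat_lit 226) (.e (nat_lit 2641) (nat_lit 165) (.e (nat_lit 180273) (nat_lit 31) (.e (nat_lit 745476) (nat_lit 0) .nil)))))))) (.g (nat_lit 4) .nil .nil))) 
(.lf (nat_lit 72820) (.g (nat_lit 4244) (.e (nat_lit 1669) (nat_lit 116) (.e (nat_lit 401454) (nat_lit 12) (.e (nat_lit 475184) (nat_lit 29) (.e (nat_lit 557109) (nat_lit 15) (.e (nat_lit 188433) (nat_lit 20) (.e (nat_lit 3127) (nat_lit 193) (.e (nat_lit 499969) (nat_lit 14) .nil))))))) (.g (nat_lit 5) .nil .nil))))) (.nd (nat_lit 4) (.nd (nat_lit 5) 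
(.lf (nat_lit 72780) (.g (nat_lit 955) (.e (nat_lit 1669) (nat_lit 116) (.e (nat_lit 401454) (nat_lit 12) (.e (nat_lit 475179) (nat_lit 24) .nil))) .nil)) 
(.lf (nat_lit 72812) (.g (nat_lit 2001) (.e (nat_lit 1669) (nat_lit 116) (.e (nat_lit 401454) (nat_lit 12) (.e (nat_lit 475184) (nat_lit 29) (.e (nat_lit 557097) (nat_lit 13) (.e (nat_lit 172097) (nat_lit 9) (.e (nat_lit 426125) (nat_lit 2) (.e (nat_lit 196630) (nat_lit 9) .nil))))))) (.g (nat_lit 4) .nil .nil)))) (.nd (nat_lit 5) 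
(.lf (nat_lit 72796) (.g (nat_lit 3867) (.e (nat_lit 1669) (nat_lit 116) (.e (nat_lit 401454) (nat_lit 12) (.e (nat_lit 475179) (nat_lit 24) (.e (nat_lit 516120) (nat_lit 1) (.e (nat_lit 164305) (nat_lit 226) (.e (nat_lit 2630) (nat_lit 164) (.e (nat_lit 172042) (nat_lit 0) (.e (nat_lit 3578) (nat_lit 223) (.e (nat_lit 745476) (nat_lit 0) .nil))))))))) (.g (nat_lit 4) .nil .nil))) 
(.lf (nat_lit 72828) (.g (nat_lit 3133) (.e (nat_lit 1669) (nat_lit 116) (.e (nat_lit 401454) (nat_lit 12) (.e (nat_lit 475184) (nat_lit 29) (.e (nat_lit 557109) (nat_lit 15) (.e (nat_lit 188443) (nat_lit 20) .nil))))) .nil)))))) (.nd (nat_lit 2) (.nd (nat_lit 3) (.nd (nat_lit 4) (.nd (nat_lit 5) 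
(.lf (nat_lit 72770) (.g (nat_lit 1221) (.e (nat_lit 1669) (nat_lit 116) (.e (nat_lit 401454) (nat_lit 12) (.e (nat_lit 475175) (nat_lit 24) .nil))) .nil)) 
(.lf (nat_lit 72802) (.g (nat_lit 3849) (.e (nat_lit 1669) (nat_lit 116) (.e (nat_lit 401454) (nat_lit 12) (.e (nat_lit 475179) (nat_lit 24) (.e (nat_lit 516127) (nat_lit 2) (.e (nat_lit 213030) (nat_lit 11) (.e (nat_lit 24589) (nat_lit 0) (.e (nat_lit 1842) (nat_lit 123) (.e (nat_lit 548874) (nat_lit 5) .nil)))))))) (.g (nat_lit 4) .nil .nil)))) (.nd (nat_lit 5) 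
(.lf (nat_lit 72786) (.g (nat_lit 3919) (.e (nat_lit 1669) (nat_lit 116) (.e (nat_lit 401454) (nat_lit 12) (.e (nat_lit 475179) (nat_lit 24) (.e (nat_lit 516117) (nat_lit 1) (.e (nat_lit 164305) (nat_lit 226) (.e (nat_lit 2630) (nat_lit 164) (.e (nat_lit 172049) (nat_lit 0) (.e (nat_lit 3578) (nat_lit 223) (.e (nat_lit 745476) (nat_lit 0) .nil))))))))) (.g (nat_lit 4) .nil .nil))) 
(.lf (nat_lit 72818) (.g (nat_lit 3940) (.e (nat_lit 1669) (nat_lit 116) (.e (nat_lit 401454) (nat_lit 12) (.e (nat_lit 475184) (nat_lit 29) (.e (nat_lit 557109) (nat_lit 15) (.e (nat_lit 188433) (nat_lit 20) (.e (nat_lit 3107) (nat_lit 193) (.e (nat_lit 499969) (nat_lit 14) .nil))))))) (.g (nat_lit 4) .nil .nil))))) (.nd (nat_lit 4) (.nd (nat_lit 5) 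
(.lf (nat_lit 72778) (.g (nat_lit 1028) (.e (nat_lit 1669) (nat_lit 116) (.e (nat_lit 401454) (nat_lit 12) (.e (nat_lit 475178) (nat_lit 24) .nil))) .nil)) 
(.lf (nat_lit 72810) (.g (nat_lit 4748) (.e (nat_lit 1669) (nat_lit 116) (.e (nat_lit 401454) (nat_lit 12) (.e (nat_lit 475183) (nat_lit 29) (.e (nat_lit 557109) (nat_lit 15) (.e (nat_lit 188447) (nat_lit 22) (.e (nat_lit 196630) (nat_lit 9) .nil)))))) (.g (nat_lit 5) .nil .nil)))) (.nd (nat_lit 5) 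
(.lf (nat_lit 72794) (.g (nat_lit 3720) (.e (nat_lit 1669) (nat_lit 116) (.e (nat_lit 401454) (nat_lit 12) (.e (nat_lit 475179) (nat_lit 24) (.e (nat_lit 516120) (nat_lit 1) (.e (nat_lit 164304) (nat_lit 226) (.e (nat_lit 2630) (nat_lit 164) (.e (nat_lit 172049) (nat_lit 0) (.e (nat_lit 3579) (nat_lit 223) (.e (nat_lit 745476) (nat_lit 0) .nil))))))))) (.g (nat_lit 4) .nil .nil))) 
(.lf (nat_lit 72826) (.g (nat_lit 4226) (.e (nat_lit 1669) (nat_lit 116) (.e (nat_lit 401454) (nat_lit 12) (.e (nat_lit 475184) (nat_lit 29) (.e (nat_lit 557109) (nat_lit 15) (.e (nat_lit 188433) (nat_lit 20) (.e (nat_lit 3140) (nat_lit 193) (.e (nat_lit 499969) (nat_lit 14) .nil))))))) (.g (nat_lit 5) .nil .nil)))))) (.nd (nat_lit 3) (.nd (nat_lit 4) (.nd (nat_lit 5) 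
(.lf (nat_lit 72774) (.g (nat_lit 3927) (.e (nat_lit 1669) (nat_lit 116) (.e (nat_lit 401454) (nat_lit 12) (.e (nat_lit 475177) (nat_lit 24) (.e (nat_lit 516098) (nat_lit 0) (.e (nat_lit 3783) (nat_lit 230) (.e (nat_lit 810752) (nat_lit 9) (.e (nat_lit 319519) (nat_lit 12) (.e (nat_lit 32774) (nat_lit 5) .nil)))))))) (.g (nat_lit 4) .nil .nil))) 
(.lf (nat_lit 72806) (.g (nat_lit 2800) (.e (nat_lit 1669) (nat_lit 116) (.e (nat_lit 401454) (nat_lit 12) (.e (nat_lit 475183) (nat_lit 29) (.e (nat_lit 557108) (nat_lit 15) (.e (nat_lit 188447) (nat_lit 22) (.e (nat_lit 196630) (nat_lit 9) .nil)))))) (.g (nat_lit 5) .nil .nil)))) (.nd (nat_lit 5) 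
(.lf (nat_lit 72790) (.g (nat_lit 3568) (.e (nat_lit 1669) (nat_lit 116) (.e (nat_lit 401454) (nat_lit 12) (.e (nat_lit 475179) (nat_lit 24) (.e (nat_lit 516117) (nat_lit 1) (.e (nat_lit 164330) (nat_lit 230) (.e (nat_lit 163917) (nat_lit 13) (.e (nat_lit 434295) (nat_lit 49) (.e (nat_lit 745475) (nat_lit 0) .nil)))))))) (.g (nat_lit 4) .nil .nil))) 
(.lf (nat_lit 72822) (.g (nat_lit 4230) (.e (nat_lit 1669) (nat_lit 116) (.e (nat_lit 401454) (nat_lit 12) (.e (nat_lit 475184) (nat_lit 29) (.e (nat_lit 557109) (nat_lit 15) (.e (nat_lit 188433) (nat_lit 20) (.e (nat_lit 3130) (nat_lit 193) (.e (nat_lit 499969) (nat_lit 14) .nil))))))) (.g (nat_lit 5) .nil .nil))))) (.nd (nat_lit 4) (.nd (nat_lit 5) 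
(.lf (nat_lit 72782) (.g (nat_lit 3822) (.e (nat_lit 1669) (nat_lit 116) (.e (nat_lit 401454) (nat_lit 12) (.e (nat_lit 475179) (nat_lit 24) (.e (nat_lit 516117) (nat_lit 1) (.e (nat_lit 164304) (nat_lit 226) (.e (nat_lit 2630) (nat_lit 164) (.e (nat_lit 172049) (nat_lit 0) (.e (nat_lit 3579) (nat_lit 223) (.e (nat_lit 745476) (nat_lit 0) .nil))))))))) (.g (nat_lit 4) .nil .nil))) 
(.lf (nat_lit 72814) (.g (nat_lit 2983) (.e (nat_lit 1669) (nat_lit 116) (.e (nat_lit 401454) (nat_lit 12) (.e (nat_lit 475184) (nat_lit 29) (.e (nat_lit 557109) (nat_lit 15) (.e (nat_lit 188424) (nat_lit 20) (.e (nat_lit 3138) (nat_lit 193) (.e (nat_lit 499969) (nat_lit 14) .nil))))))) (.g (nat_lit 4) .nil .nil)))) (.nd (nat_lit 5) 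
(.lf (nat_lit 72798) (.g (nat_lit 4036) (.e (nat_lit 1669) (nat_lit 116) (.e (nat_lit 401454) (nat_lit 12) (.e (nat_lit 475179) (nat_lit 24) (.e (nat_lit 516120) (nat_lit 1) (.e (nat_lit 164305) (nat_lit 226) (.e (nat_lit 2630) (nat_lit 164) (.e (nat_lit 172049) (nat_lit 0) (.e (nat_lit 3579) (nat_lit 223) (.e (nat_lit 745476) (nat_lit 0) .nil))))))))) (.g (nat_lit 4) .nil .nil))) 
(.lf (nat_lit 72830) (.g (nat_lit 4618) (.e (nat_lit 1669) (nat_lit 116) (.e (nat_lit 401454) (nat_lit 12) (.e (nat_lit 475184) (nat_lit 29) (.e (nat_lit 557109) (nat_lit 15) (.e (nat_lit 188449) (nat_lit 22) (.e (nat_lit 196630) (nat_lit 9) .nil)))))) (.g (nat_lit 0) .nil .nil)))))))) (.nd (nat_lit 1) (.nd (nat_lit 2) (.nd (nat_lit 3) (.nd (nat_lit 4) (.nd (nat_lit 5) 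
(.lf (nat_lit 72769) (.g (nat_lit 1373) (.e (nat_lit 1669) (nat_lit 116) (.e (nat_lit 401454) (nat_lit 12) (.e (nat_lit 475172) (nat_lit 22) .nil))) .nil)) 
(.lf (nat_lit 72801) (.g (nat_lit 3984) (.e (nat_lit 1669) (nat_lit 116) (.e (nat_lit 401454) (nat_lit 12) (.e (nat_lit 475179) (nat_lit 24) (.e (nat_lit 516126) (nat_lit 2) (.e (nat_lit 213030) (nat_lit 11) (.e (nat_lit 24589) (nat_lit 0) (.e (nat_lit 1842) (nat_lit 123) (.e (nat_lit 548874) (nat_lit 5) .nil)))))))) (.g (nat_lit 4) .nil .nil)))) (.nd (nat_lit 5) 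
(.lf (nat_lit 72785) (.g (nat_lit 3480) (.e (nat_lit 1669) (nat_lit 116) (.e (nat_lit 401454) (nat_lit 12) (.e (nat_lit 475179) (nat_lit 24) (.e (nat_lit 516117) (nat_lit 1) (.e (nat_lit 164305) (nat_lit 226) (.e (nat_lit 2630) (nat_lit 164) (.e (nat_lit 172042) (nat_lit 0) (.e (nat_lit 3579) (nat_lit 223) (.e (nat_lit 745475) (nat_lit 0) .nil))))))))) (.g (nat_lit 4) .nil .nil))) 
(.lf (nat_lit 72817) (.g (nat_lit 2033) (.e (nat_lit 1669) (nat_lit 116) (.e (nat_lit 401454) (nat_lit 12) (.e (nat_lit 475184) (nat_lit 29) (.e (nat_lit 557109) (nat_lit 15) (.e (nat_lit 188425) (nat_lit 20) .nil))))) .nil)))) (.nd (nat_lit 4) (.nd (nat_lit 5) 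
(.lf (nat_lit 72777) (.g (nat_lit 4379) (.e (nat_lit 1669) (nat_lit 116) (.e (nat_lit 401454) (nat_lit 12) (.e (nat_lit 475177) (nat_lit 24) (.e (nat_lit 516131) (nat_lit 3) (.e (nat_lit 229120) (nat_lit 9) (.e (nat_lit 319519) (nat_lit 12) (.e (nat_lit 32774) (nat_lit 5) .nil))))))) (.g (nat_lit 6) .nil .nil))) 
(.lf (nat_lit 72809) (.g (nat_lit 2666) (.e (nat_lit 1669) (nat_lit 116) (.e (nat_lit 401454) (nat_lit 12) (.e (nat_lit 475183) (nat_lit 29) (.e (nat_lit 557109) (nat_lit 15) (.e (nat_lit 188434) (nat_lit 20) .nil))))) .nil))) (.nd (nat_lit 5) 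
(.lf (nat_lit 72793) (.g (nat_lit 4018) (.e (nat_lit 1669) (nat_lit 116) (.e (nat_lit 401454) (nat_lit 12) (.e (nat_lit 475179) (nat_lit 24) (.e (nat_lit 516120) (nat_lit 1) (.e (nat_lit 164304) (nat_lit 226) (.e (nat_lit 2630) (nat_lit 164) (.e (nat_lit 172042) (nat_lit 0) (.e (nat_lit 3579) (nat_lit 223) (.e (nat_lit 745476) (nat_lit 0) .nil))))))))) (.g (nat_lit 4) .nil .nil))) 
(.lf (nat_lit 72825) (.g (nat_lit 4209) (.e (nat_lit 1669) (nat_lit 116) (.e (nat_lit 401454) (nat_lit 12) (.e (nat_lit 475184) (nat_lit 29) (.e (nat_lit 557109) (nat_lit 15) (.e (nat_lit 188433) (nat_lit 20) (.e (nat_lit 3139) (nat_lit 193) (.e (nat_lit 499969) (nat_lit 14) .nil))))))) (.g (nat_lit 5) .nil .nil)))))) (.nd (nat_lit 3) (.nd (nat_lit 4) (.nd (nat_lit 5) 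
(.lf (nat_lit 72773) (.g (nat_lit 1374) (.e (nat_lit 1669) (nat_lit 116) (.e (nat_lit 401454) (nat_lit 12) (.e (nat_lit 475177) (nat_lit 24) .nil))) .nil)) 
(.lf (nat_lit 72805) (.g (nat_lit 5058) (.e (nat_lit 1669) (nat_lit 116) (.e (nat_lit 401454) (nat_lit 12) (.e (nat_lit 475183) (nat_lit 29) (.e (nat_lit 557101) (nat_lit 13) (.e (nat_lit 172097) (nat_lit 9) (.e (nat_lit 426125) (nat_lit 2) (.e (nat_lit 196630) (nat_lit 9) .nil))))))) (.g (nat_lit 7) .nil .nil)))) (.nd (nat_lit 5) 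
(.lf (nat_lit 72789) (.g (nat_lit 3975) (.e (nat_lit 1669) (nat_lit 116) (.e (nat_lit 401454) (nat_lit 12) (.e (nat_lit 475179) (nat_lit 24) (.e (nat_lit 516117) (nat_lit 1) (.e (nat_lit 164305) (nat_lit 226) (.e (nat_lit 2643) (nat_lit 165) (.e (nat_lit 180273) (nat_lit 31) (.e (nat_lit 745476) (nat_lit 0) .nil)))))))) (.g (nat_lit 4) .nil .nil))) 
(.lf (nat_lit 72821) (.g (nat_lit 4206) (.e (nat_lit 1669) (nat_lit 116) (.e (nat_lit 401454) (nat_lit 12) (.e (nat_lit 475184) (nat_lit 29) (.e (nat_lit 557109) (nat_lit 15) (.e (nat_lit 188433) (nat_lit 20) (.e (nat_lit 3128) (nat_lit 193) (.e (nat_lit 499969) (nat_lit 14) .nil))))))) (.g (nat_lit 5) .nil .nil))))) (.nd (nat_lit 4) (.nd (nat_lit 5) 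
(.lf (nat_lit 72781) (.g (nat_lit 4120) (.e (nat_lit 1669) (nat_lit 116) (.e (nat_lit 401454) (nat_lit 12) (.e (nat_lit 475179) (nat_lit 24) (.e (nat_lit 516117) (nat_lit 1) (.e (nat_lit 164304) (nat_lit 226) (.e (nat_lit 2630) (nat_lit 164) (.e (nat_lit 172042) (nat_lit 0) (.e (nat_lit 3579) (nat_lit 223) (.e (nat_lit 745476) (nat_lit 0) .nil))))))))) (.g (nat_lit 4) .nil .nil))) 
(.lf (nat_lit 72813) (.g (nat_lit 2975) (.e (nat_lit 1669) (nat_lit 116) (.e (nat_lit 401454) (nat_lit 12) (.e (nat_lit 475184) (nat_lit 29) (.e (nat_lit 557109) (nat_lit 15) (.e (nat_lit 188424) (nat_lit 20) .nil))))) .nil))) (.nd (nat_lit 5) 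
(.lf (nat_lit 72797) (.g (nat_lit 4334) (.e (nat_lit 1669) (nat_lit 116) (.e (nat_lit 401454) (nat_lit 12) (.e (nat_lit 475179) (nat_lit 24) (.e (nat_lit 516120) (nat_lit 1) (.e (nat_lit 164305) (nat_lit 226) (.e (nat_lit 2630) (nat_lit 164) (.e (nat_lit 172042) (nat_lit 0) (.e (nat_lit 3579) (nat_lit 223) (.e (nat_lit 745476) (nat_lit 0) .nil))))))))) (.g (nat_lit 4) .nil .nil))) 
(.lf (nat_lit 72829) (.g (nat_lit 4491) (.e (nat_lit 1669) (nat_lit 116) (.e (nat_lit 401454) (nat_lit 12) (.e (nat_lit 475184) (nat_lit 29) (.e (nat_lit 557109) (nat_lit 15) (.e (nat_lit 188447) (nat_lit 22) (.e (nat_lit 196630) (nat_lit 9) .nil)))))) (.g (nat_lit 6) .nil .nil))))))) (.nd (nat_lit 2) (.nd (nat_lit 3) (.nd (nat_lit 4) (.nd (nat_lit 5) 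
(.lf (nat_lit 72771) (.g (nat_lit 1371) (.e (nat_lit 1669) (nat_lit 116) (.e (nat_lit 401454) (nat_lit 12) (.e (nat_lit 475175) (nat_lit 24) (.e (nat_lit 516130) (nat_lit 3) .nil)))) .nil)) 
(.lf (nat_lit 72803) (.g (nat_lit 713) (.e (nat_lit 1669) (nat_lit 116) (.e (nat_lit 401454) (nat_lit 12) (.e (nat_lit 475181) (nat_lit 27) .nil))) .nil))) (.nd (nat_lit 5) 
(.lf (nat_lit 72787) (.g (nat_lit 4616) (.e (nat_lit 1669) (nat_lit 116) (.e (nat_lit 401454) (nat_lit 12) (.e (nat_lit 475179) (nat_lit 24) (.e (nat_lit 516117) (nat_lit 1) (.e (nat_lit 164305) (nat_lit 226) (.e (nat_lit 2630) (nat_lit 164) (.e (nat_lit 172049) (nat_lit 0) (.e (nat_lit 3579) (nat_lit 223) (.e (nat_lit 745476) (nat_lit 0) .nil))))))))) (.g (nat_lit 4) .nil .nil))) 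
(.lf (nat_lit 72819) (.g (nat_lit 4230) (.e (nat_lit 1669) (nat_lit 116) (.e (nat_lit 401454) (nat_lit 12) (.e (nat_lit 475184) (nat_lit 29) (.e (nat_lit 557109) (nat_lit 15) (.e (nat_lit 188433) (nat_lit 20) (.e (nat_lit 3126) (nat_lit 193) (.e (nat_lit 499969) (nat_lit 14) .nil))))))) (.g (nat_lit 5) .nil .nil))))) (.nd (nat_lit 4) (.nd (nat_lit 5) 
(.lf (nat_lit 72779) (.g (nat_lit 3306) (.e (nat_lit 1669) (nat_lit 116) (.e (nat_lit 401454) (nat_lit 12) (.e (nat_lit 475178) (nat_lit 24) (.e (nat_lit 516126) (nat_lit 2) (.e (nat_lit 213032) (nat_lit 11) (.e (nat_lit 24589) (nat_lit 0) (.e (nat_lit 1842) (nat_lit 123) (.e (nat_lit 548874) (nat_lit 5) .nil)))))))) (.g (nat_lit 4) .nil .nil))) 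
(.lf (nat_lit 72811) (.g (nat_lit 5532) (.e (nat_lit 1669) (nat_lit 116) (.e (nat_lit 401454) (nat_lit 12) (.e (nat_lit 475183) (nat_lit 29) (.e (nat_lit 557109) (nat_lit 15) (.e (nat_lit 188449) (nat_lit 22) (.e (nat_lit 196630) (nat_lit 9) .nil)))))) (.g (nat_lit 0) .nil .nil)))) (.nd (nat_lit 5) 
(.lf (nat_lit 72795) (.g (nat_lit 3354) (.e (nat_lit 1669) (nat_lit 116) (.e (nat_lit 401454) (nat_lit 12) (.e (nat_lit 475179) (nat_lit 24) (.e (nat_lit 516120) (nat_lit 1) (.e (nat_lit 164305) (nat_lit 226) .nil))))) .nil)) 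
(.lf (nat_lit 72827) (.g (nat_lit 4218) (.e (nat_lit 1669) (nat_lit 116) (.e (nat_lit 401454) (nat_lit 12) (.e (nat_lit 475184) (nat_lit 29) (.e (nat_lit 557109) (nat_lit 15) (.e (nat_lit 188433) (nat_lit 20) (.e (nat_lit 3148) (nat_lit 193) (.e (nat_lit 499969) (nat_lit 14) .nil))))))) (.g (nat_lit 5) .nil .nil)))))) (.nd (nat_lit 3) (.nd (nat_lit 4) (.nd (nat_lit 5) 
(.lf (nat_lit 72775) (.g (nat_lit 3973) (.e (nat_lit 1669) (nat_lit 116) (.e (nat_lit 401454) (nat_lit 12) (.e (nat_lit 475177) (nat_lit 24) (.e (nat_lit 516124) (nat_lit 2) (.e (nat_lit 220928) (nat_lit 2) (.e (nat_lit 16410) (nat_lit 2) (.e (nat_lit 196630) (nat_lit 9) .nil))))))) (.g (nat_lit 4) .nil .nil))) 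
(.lf (nat_lit 72807) (.g (nat_lit 4417) (.e (nat_lit 1669) (nat_lit 116) (.e (nat_lit 401454) (nat_lit 12) (.e (nat_lit 475183) (nat_lit 29) (.e (nat_lit 557108) (nat_lit 15) (.e (nat_lit 188449) (nat_lit 22) (.e (nat_lit 196630) (nat_lit 9) .nil)))))) (.g (nat_lit 0) .nil .nil)))) (.nd (nat_lit 5) 
(.lf (nat_lit 72791) (.g (nat_lit 5793) (.e (nat_lit 1669) (nat_lit 116) (.e (nat_lit 401454) (nat_lit 12) (.e (nat_lit 475179) (nat_lit 24) (.e (nat_lit 516117) (nat_lit 1) (.e (nat_lit 164330) (nat_lit 230) (.e (nat_lit 163917) (nat_lit 13) (.e (nat_lit 434295) (nat_lit 49) (.e (nat_lit 745476) (nat_lit 0) .nil)))))))) (.g (nat_lit 5) .nil .nil))) 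
(.lf (nat_lit 72823) (.g (nat_lit 4205) (.e (nat_lit 1669) (nat_lit 116) (.e (nat_lit 401454) (nat_lit 12) (.e (nat_lit 475184) (nat_lit 29) (.e (nat_lit 557109) (nat_lit 15) (.e (nat_lit 188433) (nat_lit 20) (.e (nat_lit 3133) (nat_lit 193) (.e (nat_lit 499969) (nat_lit 14) .nil))))))) (.g (nat_lit 5) .nil .nil))))) (.nd (nat_lit 4) (.nd (nat_lit 5) 
(.lf (nat_lit 72783) (.g (nat_lit 3264) (.e (nat_lit 1669) (nat_lit 116) (.e (nat_lit 401454) (nat_lit 12) (.e (nat_lit 475179) (nat_lit 24) (.e (nat_lit 516117) (nat_lit 1) (.e (nat_lit 164305) (nat_lit 226) .nil))))) .nil)) 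
(.lf (nat_lit 72815) (.g (nat_lit 2984) (.e (nat_lit 1669) (nat_lit 116) (.e (nat_lit 401454) (nat_lit 12) (.e (nat_lit 475184) (nat_lit 29) (.e (nat_lit 557109) (nat_lit 15) (.e (nat_lit 188424) (nat_lit 20) (.e (nat_lit 3139) (nat_lit 193) (.e (nat_lit 499969) (nat_lit 14) .nil))))))) (.g (nat_lit 4) .nil .nil)))) (.nd (nat_lit 5) 
(.lf (nat_lit 72799) (.g (nat_lit 3749) (.e (nat_lit 1669) (nat_lit 116) (.e (nat_lit 401454) (nat_lit 12) (.e (nat_lit 475179) (nat_lit 24) (.e (nat_lit 516120) (nat_lit 1) (.e (nat_lit 164330) (nat_lit 230) (.e (nat_lit 163917) (nat_lit 13) (.e (nat_lit 434295) (nat_lit 49) (.e (nat_lit 745475) (nat_lit 0) .nil)))))))) (.g (nat_lit 4) .nil .nil))) 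
(.lf (nat_lit 72831) (.g (nat_lit 2309) (.e (nat_lit 1669) (nat_lit 116) (.e (nat_lit 401454) (nat_lit 12) (.e (nat_lit 475184) (nat_lit 29) (.e (nat_lit 557109) (nat_lit 15) (.e (nat_lit 188449) (nat_lit 22) (.e (nat_lit 204544) (nat_lit 9) .nil)))))) (.g (nat_lit 5) .nil .nil)))))))))

noncomputable def tv990 : DT := (.nd (nat_lit 0) (.nd (nat_lit 1) (.nd (nat_lit 2) (.nd (nat_lit 3) (.nd (nat_lit 4) (.nd (nat_lit 5) 
(.lf (nat_lit 72832) (.g (nat_lit 3623) (.e (nat_lit 1669) (nat_lit 116) (.e (nat_lit 401454) (nat_lit 12) (.e (nat_lit 475184) (nat_lit 29) (.e (nat_lit 557109) (nat_lit 15) (.e (nat_lit 188458) (nat_lit 25) (.e (nat_lit 245781) (nat_lit 9) .nil)))))) (.g (nat_lit 0) .nil .nil))) 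
(.lf (nat_lit 72864) (.g (nat_lit 3182) (.e (nat_lit 1669) (nat_lit 116) (.e (nat_lit 401454) (nat_lit 12) (.e (nat_lit 475198) (nat_lit 40) (.e (nat_lit 704598) (nat_lit 6) (.e (nat_lit 188434) (nat_lit 20) (.e (nat_lit 3437) (nat_lit 214) (.e (nat_lit 671747) (nat_lit 0) .nil))))))) (.g (nat_lit 5) .nil .nil)))) (.nd (nat_lit 5) 
(.lf (nat_lit 72848) (.g (nat_lit 4859) (.e (nat_lit 1669) (nat_lit 116) (.e (nat_lit 401454) (nat_lit 12) (.e (nat_lit 475185) (nat_lit 29) (.e (nat_lit 557109) (nat_lit 15) (.e (nat_lit 188447) (nat_lit 22) (.e (nat_lit 196630) (nat_lit 9) .nil)))))) (.g (nat_lit 0) .nil .nil))) 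
(.lf (nat_lit 72880) (.g (nat_lit 2977) (.e (nat_lit 1669) (nat_lit 116) (.e (nat_lit 401454) (nat_lit 12) (.e (nat_lit 475207) (nat_lit 41) (.e (nat_lit 712755) (nat_lit 30) (.e (nat_lit 450563) (nat_lit 0) (.e (nat_lit 5796) (nat_lit 320) (.e (nat_lit 1016) (nat_lit 81) .nil))))))) (.g (nat_lit 5) .nil .nil))))) (.nd (nat_lit 4) (.nd (nat_lit 5) 
(.lf (nat_lit 72840) (.g (nat_lit 3473) (.e (nat_lit 1669) (nat_lit 116) (.e (nat_lit 401454) (nat_lit 12) (.e (nat_lit 475185) (nat_lit 29) (.e (nat_lit 557098) (nat_lit 13) (.e (nat_lit 172096) (nat_lit 9) (.e (nat_lit 426125) (nat_lit 2) (.e (nat_lit 196630) (nat_lit 9) .nil))))))) (.g (nat_lit 4) .nil .nil))) 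
(.lf (nat_lit 72872) (.g (nat_lit 1373) (.e (nat_lit 1669) (nat_lit 116) (.e (nat_lit 401454) (nat_lit 12) (.e (nat_lit 475200) (nat_lit 40) .nil))) .nil))) (.nd (nat_lit 5) 
(.lf (nat_lit 72856) (.g (nat_lit 2419) (.e (nat_lit 1669) (nat_lit 116) (.e (nat_lit 401454) (nat_lit 12) (.e (nat_lit 475197) (nat_lit 40) (.e (nat_lit 704598) (nat_lit 6) (.e (nat_lit 188439) (nat_lit 20) (.e (nat_lit 3437) (nat_lit 214) (.e (nat_lit 671747) (nat_lit 0) .nil))))))) (.g (nat_lit 4) .nil .nil))) 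
(.lf (nat_lit 72888) (.g (nat_lit 3546) (.e (nat_lit 1669) (nat_lit 116) (.e (nat_lit 401454) (nat_lit 12) (.e (nat_lit 475208) (nat_lit 41) (.e (nat_lit 712755) (nat_lit 30) (.e (nat_lit 450596) (nat_lit 17) (.e (nat_lit 663552) (nat_lit 0) .nil)))))) (.g (nat_lit 5) .nil .nil)))))) (.nd (nat_lit 3) (.nd (nat_lit 4) (.nd (nat_lit 5) 
(.lf (nat_lit 72836) (.g (nat_lit 3930) (.e (nat_lit 1669) (nat_lit 116) (.e (nat_lit 401454) (nat_lit 12) (.e (nat_lit 475185) (nat_lit 29) (.e (nat_lit 557097) (nat_lit 13) (.e (nat_lit 172097) (nat_lit 9) (.e (nat_lit 426125) (nat_lit 2) (.e (nat_lit 196630) (nat_lit 9) .nil))))))) (.g (nat_lit 5) .nil .nil))) 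
(.lf (nat_lit 72868) (.g (nat_lit 2609) (.e (nat_lit 1669) (nat_lit 116) (.e (nat_lit 401454) (nat_lit 12) (.e (nat_lit 475198) (nat_lit 40) (.e (nat_lit 704599) (nat_lit 6) (.e (nat_lit 188430) (nat_lit 20) (.e (nat_lit 3430) (nat_lit 213) (.e (nat_lit 663554) (nat_lit 0) .nil))))))) (.g (nat_lit 4) .nil .nil)))) (.nd (nat_lit 5) 
(.lf (nat_lit 72852) (.g (nat_lit 3106) (.e (nat_lit 1669) (nat_lit 116) (.e (nat_lit 401454) (nat_lit 12) (.e (nat_lit 475193) (nat_lit 38) (.e (nat_lit 688186) (nat_lit 18) (.e (nat_lit 81937) (nat_lit 20) (.e (nat_lit 1938) (nat_lit 132) (.e (nat_lit 622601) (nat_lit 5) .nil))))))) (.g (nat_lit 4) .nil .nil))) 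
(.lf (nat_lit 72884) (.g (nat_lit 3466) (.e (nat_lit 1669) (nat_lit 116) (.e (nat_lit 401454) (nat_lit 12) (.e (nat_lit 475207) (nat_lit 41) (.e (nat_lit 712755) (nat_lit 30) (.e (nat_lit 450597) (nat_lit 17) (.e (nat_lit 663552) (nat_lit 0) .nil)))))) (.g (nat_lit 0) .nil .nil))))) (.nd (nat_lit 4) (.nd (nat_lit 5) 
(.lf (nat_lit 72844) (.g (nat_lit 2836) (.e (nat_lit 1669) (nat_lit 116) (.e (nat_lit 401454) (nat_lit 12) (.e (nat_lit 475185) (nat_lit 29) (.e (nat_lit 557109) (nat_lit 15) (.e (nat_lit 188434) (nat_lit 20) (.e (nat_lit 3134) (nat_lit 193) (.e (nat_lit 499969) (nat_lit 14) .nil))))))) (.g (nat_lit 4) .nil .nil))) 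
(.lf (nat_lit 72876) (.g (nat_lit 1321) (.e (nat_lit 1669) (nat_lit 116) (.e (nat_lit 401454) (nat_lit 12) (.e (nat_lit 475205) (nat_lit 40) .nil))) .nil))) (.nd (nat_lit 5) 
(.lf (nat_lit 72860) (.g (nat_lit 2971) (.e (nat_lit 1669) (nat_lit 116) (.e (nat_lit 401454) (nat_lit 12) (.e (nat_lit 475198) (nat_lit 40) (.e (nat_lit 704598) (nat_lit 6) (.e (nat_lit 188424) (nat_lit 20) (.e (nat_lit 3432) (nat_lit 213) (.e (nat_lit 663554) (nat_lit 0) .nil))))))) (.g (nat_lit 4) .nil .nil))) 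
(.lf (nat_lit 72892) (.g (nat_lit 4245) (.e (nat_lit 1669) (nat_lit 116) (.e (nat_lit 401454) (nat_lit 12) (.e (nat_lit 475209) (nat_lit 41) (.e (nat_lit 712742) (nat_lit 27) (.e (nat_lit 426286) (nat_lit 10) (.e (nat_lit 434276) (nat_lit 39) (.e (nat_lit 663554) (nat_lit 0) .nil))))))) (.g (nat_lit 0) .nil .nil))))))) (.nd (nat_lit 2) (.nd (nat_lit 3) (.nd (nat_lit 4) (.nd (nat_lit 5) 
(.lf (nat_lit 72834) (.g (nat_lit 3615) (.e (nat_lit 1669) (nat_lit 116) (.e (nat_lit 401454) (nat_lit 12) (.e (nat_lit 475185) (nat_lit 29) (.e (nat_lit 557095) (nat_lit 13) (.e (nat_lit 172097) (nat_lit 9) (.e (nat_lit 426125) (nat_lit 2) (.e (nat_lit 196630) (nat_lit 9) .nil))))))) (.g (nat_lit 5) .nil .nil))) 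
(.lf (nat_lit 72866) (.g (nat_lit 3037) (.e (nat_lit 1669) (nat_lit 116) (.e (nat_lit 401454) (nat_lit 12) (.e (nat_lit 475198) (nat_lit 40) (.e (nat_lit 704598) (nat_lit 6) (.e (nat_lit 188439) (nat_lit 20) (.e (nat_lit 3437) (nat_lit 214) (.e (nat_lit 671747) (nat_lit 0) .nil))))))) (.g (nat_lit 5) .nil .nil)))) (.nd (nat_lit 5) 
(.lf (nat_lit 72850) (.g (nat_lit 955) (.e (nat_lit 1669) (nat_lit 116) (.e (nat_lit 401454) (nat_lit 12) (.e (nat_lit 475193) (nat_lit 38) .nil))) .nil)) 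
(.lf (nat_lit 72882) (.g (nat_lit 2419) (.e (nat_lit 1669) (nat_lit 116) (.e (nat_lit 401454) (nat_lit 12) (.e (nat_lit 475207) (nat_lit 41) (.e (nat_lit 712755) (nat_lit 30) (.e (nat_lit 450563) (nat_lit 0) (.e (nat_lit 5837) (nat_lit 320) (.e (nat_lit 1006) (nat_lit 81) .nil))))))) (.g (nat_lit 4) .nil .nil))))) (.nd (nat_lit 4) (.nd (nat_lit 5) 
(.lf (nat_lit 72842) (.g (nat_lit 2446) (.e (nat_lit 1669) (nat_lit 116) (.e (nat_lit 401454) (nat_lit 12) (.e (nat_lit 475185) (nat_lit 29) (.e (nat_lit 557103) (nat_lit 14) (.e (nat_lit 188160) (nat_lit 45) .nil))))) .nil)) 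
(.lf (nat_lit 72874) (.g (nat_lit 1988) (.e (nat_lit 1669) (nat_lit 116) (.e (nat_lit 401454) (nat_lit 12) (.e (nat_lit 475201) (nat_lit 40) (.e (nat_lit 704545) (nat_lit 0) .nil)))) .nil))) (.nd (nat_lit 5) 
(.lf (nat_lit 72858) (.g (nat_lit 2999) (.e (nat_lit 1669) (nat_lit 116) (.e (nat_lit 401454) (nat_lit 12) (.e (nat_lit 475198) (nat_lit 40) (.e (nat_lit 704598) (nat_lit 6) (.e (nat_lit 188424) (nat_lit 20) (.e (nat_lit 3421) (nat_lit 213) (.e (nat_lit 663554) (nat_lit 0) .nil))))))) (.g (nat_lit 4) .nil .nil))) 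
(.lf (nat_lit 72890) (.g (nat_lit 4107) (.e (nat_lit 1669) (nat_lit 116) (.e (nat_lit 401454) (nat_lit 12) (.e (nat_lit 475208) (nat_lit 41) (.e (nat_lit 712755) (nat_lit 30) (.e (nat_lit 450598) (nat_lit 18) (.e (nat_lit 671748) (nat_lit 0) .nil)))))) (.g (nat_lit 6) .nil .nil)))))) (.nd (nat_lit 3) (.nd (nat_lit 4) (.nd (nat_lit 5) 
(.lf (nat_lit 72838) (.g (nat_lit 2874) (.e (nat_lit 1669) (nat_lit 116) (.e (nat_lit 401454) (nat_lit 12) (.e (nat_lit 475185) (nat_lit 29) (.e (nat_lit 557098) (nat_lit 13) (.e (nat_lit 172091) (nat_lit 9) .nil))))) .nil)) 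
(.lf (nat_lit 72870) (.g (nat_lit 2624) (.e (nat_lit 1669) (nat_lit 116) (.e (nat_lit 401454) (nat_lit 12) (.e (nat_lit 475198) (nat_lit 40) (.e (nat_lit 704599) (nat_lit 6) (.e (nat_lit 188441) (nat_lit 20) (.e (nat_lit 3415) (nat_lit 213) (.e (nat_lit 663554) (nat_lit 0) .nil))))))) (.g (nat_lit 4) .nil .nil)))) (.nd (nat_lit 5) 
(.lf (nat_lit 72854) (.g (nat_lit 3382) (.e (nat_lit 1669) (nat_lit 116) (.e (nat_lit 401454) (nat_lit 12) (.e (nat_lit 475193) (nat_lit 38) (.e (nat_lit 688186) (nat_lit 18) (.e (nat_lit 81959) (nat_lit 24) (.e (nat_lit 123127) (nat_lit 239) (.e (nat_lit 1008) (nat_lit 81) .nil))))))) (.g (nat_lit 4) .nil .nil))) 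
(.lf (nat_lit 72886) (.g (nat_lit 860) (.e (nat_lit 1669) (nat_lit 116) (.e (nat_lit 401454) (nat_lit 12) (.e (nat_lit 475208) (nat_lit 41) .nil))) .nil)))) (.nd (nat_lit 4) (.nd (nat_lit 5) 
(.lf (nat_lit 72846) (.g (nat_lit 2644) (.e (nat_lit 1669) (nat_lit 116) (.e (nat_lit 401454) (nat_lit 12) (.e (nat_lit 475185) (nat_lit 29) (.e (nat_lit 557109) (nat_lit 15) (.e (nat_lit 188434) (nat_lit 20) (.e (nat_lit 3144) (nat_lit 193) (.e (nat_lit 499969) (nat_lit 14) .nil))))))) (.g (nat_lit 4) .nil .nil))) 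
(.lf (nat_lit 72878) (.g (nat_lit 908) (.e (nat_lit 1669) (nat_lit 116) (.e (nat_lit 401454) (nat_lit 12) (.e (nat_lit 475207) (nat_lit 41) (.e (nat_lit 712755) (nat_lit 30) .nil)))) .nil))) (.nd (nat_lit 5) 
(.lf (nat_lit 72862) (.g (nat_lit 3508) (.e (nat_lit 1669) (nat_lit 116) (.e (nat_lit 401454) (nat_lit 12) (.e (nat_lit 475198) (nat_lit 40) (.e (nat_lit 704598) (nat_lit 6) (.e (nat_lit 188434) (nat_lit 20) (.e (nat_lit 3415) (nat_lit 213) (.e (nat_lit 663554) (nat_lit 0) .nil))))))) (.g (nat_lit 5) .nil .nil))) 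
(.lf (nat_lit 72894) (.g (nat_lit 3123) (.e (nat_lit 1669) (nat_lit 116) (.e (nat_lit 401454) (nat_lit 12) (.e (nat_lit 475209) (nat_lit 41) (.e (nat_lit 712752) (nat_lit 29) (.e (nat_lit 442392) (nat_lit 20) (.e (nat_lit 3432) (nat_lit 213) (.e (nat_lit 663554) (nat_lit 0) .nil))))))) (.g (nat_lit 5) .nil .nil)))))))) 
(.nd (nat_lit 1) (.nd (nat_lit 2) (.nd (nat_lit 3) (.nd (nat_lit 4) (.nd (nat_lit 5) 
(.lf (nat_lit 72833) (.g (nat_lit 404) (.e (nat_lit 1669) (nat_lit 116) (.e (nat_lit 401454) (nat_lit 12) (.e (nat_lit 475185) (nat_lit 29) .nil))) .nil)) 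
(.lf (nat_lit 72865) (.g (nat_lit 3844) (.e (nat_lit 1669) (nat_lit 116) (.e (nat_lit 401454) (nat_lit 12) (.e (nat_lit 475198) (nat_lit 40) (.e (nat_lit 704598) (nat_lit 6) (.e (nat_lit 188435) (nat_lit 20) (.e (nat_lit 3416) (nat_lit 213) (.e (nat_lit 663554) (nat_lit 0) .nil))))))) (.g (nat_lit 0) .nil .nil)))) (.nd (nat_lit 5) 
(.lf (nat_lit 72849) (.g (nat_lit 4828) (.e (nat_lit 1669) (nat_lit 116) (.e (nat_lit 401454) (nat_lit 12) (.e (nat_lit 475185) (nat_lit 29) (.e (nat_lit 557109) (nat_lit 15) (.e (nat_lit 188449) (nat_lit 22) (.e (nat_lit 196630) (nat_lit 9) .nil)))))) (.g (nat_lit 0) .nil .nil))) 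
(.lf (nat_lit 72881) (.g (nat_lit 2450) (.e (nat_lit 1669) (nat_lit 116) (.e (nat_lit 401454) (nat_lit 12) (.e (nat_lit 475207) (nat_lit 41) (.e (nat_lit 712755) (nat_lit 30) (.e (nat_lit 450563) (nat_lit 0) (.e (nat_lit 5835) (nat_lit 320) (.e (nat_lit 1006) (nat_lit 81) .nil))))))) (.g (nat_lit 4) .nil .nil))))) (.nd (nat_lit 4) (.nd (nat_lit 5) 
(.lf (nat_lit 72841) (.g (nat_lit 3954) (.e (nat_lit 1669) (nat_lit 116) (.e (nat_lit 401454) (nat_lit 12) (.e (nat_lit 475185) (nat_lit 29) (.e (nat_lit 557100) (nat_lit 13) (.e (nat_lit 172097) (nat_lit 9) .nil))))) .nil)) 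
(.lf (nat_lit 72873) (.g (nat_lit 1373) (.e (nat_lit 1669) (nat_lit 116) (.e (nat_lit 401454) (nat_lit 12) (.e (nat_lit 475201) (nat_lit 40) .nil))) .nil))) (.nd (nat_lit 5) 
(.lf (nat_lit 72857) (.g (nat_lit 684) (.e (nat_lit 1669) (nat_lit 116) (.e (nat_lit 401454) (nat_lit 12) (.e (nat_lit 475198) (nat_lit 40) .nil))) .nil)) 
(.lf (nat_lit 72889) (.g (nat_lit 3538) (.e (nat_lit 1669) (nat_lit 116) (.e (nat_lit 401454) (nat_lit 12) (.e (nat_lit 475208) (nat_lit 41) (.e (nat_lit 712755) (nat_lit 30) (.e (nat_lit 450597) (nat_lit 17) (.e (nat_lit 663552) (nat_lit 0) .nil)))))) (.g (nat_lit 5) .nil .nil)))))) (.nd (nat_lit 3) (.nd (nat_lit 4) (.nd (nat_lit 5) 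
(.lf (nat_lit 72837) (.g (nat_lit 3463) (.e (nat_lit 1669) (nat_lit 116) (.e (nat_lit 401454) (nat_lit 12) (.e (nat_lit 475185) (nat_lit 29) (.e (nat_lit 557098) (nat_lit 13) (.e (nat_lit 172085) (nat_lit 9) (.e (nat_lit 426125) (nat_lit 2) (.e (nat_lit 196630) (nat_lit 9) .nil))))))) (.g (nat_lit 4) .nil .nil))) 
(.lf (nat_lit 72869) (.g (nat_lit 4191) (.e (nat_lit 1669) (nat_lit 116) (.e (nat_lit 401454) (nat_lit 12) (.e (nat_lit 475198) (nat_lit 40) (.e (nat_lit 704599) (nat_lit 6) (.e (nat_lit 188440) (nat_lit 20) (.e (nat_lit 3415) (nat_lit 213) (.e (nat_lit 663554) (nat_lit 0) .nil))))))) (.g (nat_lit 0) .nil .nil)))) (.nd (nat_lit 5) 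
(.lf (nat_lit 72853) (.g (nat_lit 2935) (.e (nat_lit 1669) (nat_lit 116) (.e (nat_lit 401454) (nat_lit 12) (.e (nat_lit 475193) (nat_lit 38) (.e (nat_lit 688186) (nat_lit 18) (.e (nat_lit 81938) (nat_lit 20) (.e (nat_lit 1939) (nat_lit 132) (.e (nat_lit 622601) (nat_lit 5) .nil))))))) (.g (nat_lit 4) .nil .nil))) 
(.lf (nat_lit 72885) (.g (nat_lit 3308) (.e (nat_lit 1669) (nat_lit 116) (.e (nat_lit 401454) (nat_lit 12) (.e (nat_lit 475207) (nat_lit 41) (.e (nat_lit 712755) (nat_lit 30) (.e (nat_lit 450598) (nat_lit 18) (.e (nat_lit 671747) (nat_lit 0) .nil)))))) (.g (nat_lit 0) .nil .nil))))) (.nd (nat_lit 4) (.nd (nat_lit 5) 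
(.lf (nat_lit 72845) (.g (nat_lit 2897) (.e (nat_lit 1669) (nat_lit 116) (.e (nat_lit 401454) (nat_lit 12) (.e (nat_lit 475185) (nat_lit 29) (.e (nat_lit 557109) (nat_lit 15) (.e (nat_lit 188434) (nat_lit 20) (.e (nat_lit 3143) (nat_lit 193) (.e (nat_lit 499969) (nat_lit 14) .nil))))))) (.g (nat_lit 4) .nil .nil))) 
(.lf (nat_lit 72877) (.g (nat_lit 610) (.e (nat_lit 1669) (nat_lit 116) (.e (nat_lit 401454) (nat_lit 12) (.e (nat_lit 475207) (nat_lit 41) .nil))) .nil))) (.nd (nat_lit 5) 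
(.lf (nat_lit 72861) (.g (nat_lit 3010) (.e (nat_lit 1669) (nat_lit 116) (.e (nat_lit 401454) (nat_lit 12) (.e (nat_lit 475198) (nat_lit 40) (.e (nat_lit 704598) (nat_lit 6) (.e (nat_lit 188433) (nat_lit 20) (.e (nat_lit 3415) (nat_lit 213) (.e (nat_lit 663554) (nat_lit 0) .nil))))))) (.g (nat_lit 4) .nil .nil))) 
(.lf (nat_lit 72893) (.g (nat_lit 1892) (.e (nat_lit 1669) (nat_lit 116) (.e (nat_lit 401454) (nat_lit 12) (.e (nat_lit 475209) (nat_lit 41) (.e (nat_lit 712750) (nat_lit 29) (.e (nat_lit 442408) (nat_lit 20) .nil))))) .nil)))))) (.nd (nat_lit 2) (.nd (nat_lit 3) (.nd (nat_lit 4) (.nd (nat_lit 5) 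
(.lf (nat_lit 72835) (.g (nat_lit 1717) (.e (nat_lit 1669) (nat_lit 116) (.e (nat_lit 401454) (nat_lit 12) (.e (nat_lit 475185) (nat_lit 29) (.e (nat_lit 557096) (nat_lit 13) .nil)))) .nil)) 
(.lf (nat_lit 72867) (.g (nat_lit 2847) (.e (nat_lit 1669) (nat_lit 116) (.e (nat_lit 401454) (nat_lit 12) (.e (nat_lit 475198) (nat_lit 40) (.e (nat_lit 704598) (nat_lit 6) (.e (nat_lit 188443) (nat_lit 20) (.e (nat_lit 3415) (nat_lit 213) (.e (nat_lit 663554) (nat_lit 0) .nil))))))) (.g (nat_lit 4) .nil .nil)))) (.nd (nat_lit 5) 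
(.lf (nat_lit 72851) (.g (nat_lit 3138) (.e (nat_lit 1669) (nat_lit 116) (.e (nat_lit 401454) (nat_lit 12) (.e (nat_lit 475193) (nat_lit 38) (.e (nat_lit 688185) (nat_lit 18) (.e (nat_lit 81959) (nat_lit 24) (.e (nat_lit 123127) (nat_lit 239) (.e (nat_lit 1014) (nat_lit 81) .nil))))))) (.g (nat_lit 4) .nil .nil))) 
(.lf (nat_lit 72883) (.g (nat_lit 3296) (.e (nat_lit 1669) (nat_lit 116) (.e (nat_lit 401454) (nat_lit 12) (.e (nat_lit 475207) (nat_lit 41) (.e (nat_lit 712755) (nat_lit 30) (.e (nat_lit 450596) (nat_lit 17) (.e (nat_lit 663552) (nat_lit 0) .nil)))))) (.g (nat_lit 0) .nil .nil))))) (.nd (nat_lit 4) (.nd (nat_lit 5) 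
(.lf (nat_lit 72843) (.g (nat_lit 2760) (.e (nat_lit 1669) (nat_lit 116) (.e (nat_lit 401454) (nat_lit 12) (.e (nat_lit 475185) (nat_lit 29) (.e (nat_lit 557109) (nat_lit 15) (.e (nat_lit 188434) (nat_lit 20) (.e (nat_lit 3107) (nat_lit 193) (.e (nat_lit 499969) (nat_lit 14) .nil))))))) (.g (nat_lit 4) .nil .nil))) 
(.lf (nat_lit 72875) (.g (nat_lit 1373) (.e (nat_lit 1669) (nat_lit 116) (.e (nat_lit 401454) (nat_lit 12) (.e (nat_lit 475204) (nat_lit 40) .nil))) .nil))) (.nd (nat_lit 5) 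
(.lf (nat_lit 72859) (.g (nat_lit 2960) (.e (nat_lit 1669) (nat_lit 116) (.e (nat_lit 401454) (nat_lit 12) (.e (nat_lit 475198) (nat_lit 40) (.e (nat_lit 704598) (nat_lit 6) (.e (nat_lit 188424) (nat_lit 20) (.e (nat_lit 3430) (nat_lit 213) (.e (nat_lit 663554) (nat_lit 0) .nil))))))) (.g (nat_lit 4) .nil .nil))) 
(.lf (nat_lit 72891) (.g (nat_lit 2333) (.e (nat_lit 1669) (nat_lit 116) (.e (nat_lit 401454) (nat_lit 12) (.e (nat_lit 475209) (nat_lit 41) (.e (nat_lit 712739) (nat_lit 27) (.e (nat_lit 426286) (nat_lit 10) (.e (nat_lit 434276) (nat_lit 39) (.e (nat_lit 663554) (nat_lit 0) .nil))))))) (.g (nat_lit 4) .nil .nil)))))) (.nd (nat_lit 3) (.nd (nat_lit 4) (.nd (nat_lit 5) 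
(.lf (nat_lit 72839) (.g (nat_lit 3048) (.e (nat_lit 1669) (nat_lit 116) (.e (nat_lit 401454) (nat_lit 12) (.e (nat_lit 475185) (nat_lit 29) (.e (nat_lit 557098) (nat_lit 13) (.e (nat_lit 172093) (nat_lit 9) .nil))))) .nil)) 
(.lf (nat_lit 72871) (.g (nat_lit 2553) (.e (nat_lit 1669) (nat_lit 116) (.e (nat_lit 401454) (nat_lit 12) (.e (nat_lit 475198) (nat_lit 40) (.e (nat_lit 704599) (nat_lit 6) (.e (nat_lit 188443) (nat_lit 20) (.e (nat_lit 3415) (nat_lit 213) (.e (nat_lit 663554) (nat_lit 0) .nil))))))) (.g (nat_lit 4) .nil .nil)))) (.nd (nat_lit 5) 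
(.lf (nat_lit 72855) (.g (nat_lit 849) (.e (nat_lit 1669) (nat_lit 116) (.e (nat_lit 401454) (nat_lit 12) (.e (nat_lit 475197) (nat_lit 40) .nil))) .nil)) 
(.lf (nat_lit 72887) (.g (nat_lit 3176) (.e (nat_lit 1669) (nat_lit 116) (.e (nat_lit 401454) (nat_lit 12) (.e (nat_lit 475208) (nat_lit 41) (.e (nat_lit 712753) (nat_lit 30) (.e (nat_lit 450594) (nat_lit 17) (.e (nat_lit 663554) (nat_lit 0) .nil)))))) (.g (nat_lit 5) .nil .nil))))) (.nd (nat_lit 4) (.nd (nat_lit 5) 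
(.lf (nat_lit 72847) (.g (nat_lit 2771) (.e (nat_lit 1669) (nat_lit 116) (.e (nat_lit 401454) (nat_lit 12) (.e (nat_lit 475185) (nat_lit 29) (.e (nat_lit 557109) (nat_lit 15) (.e (nat_lit 188434) (nat_lit 20) (.e (nat_lit 3146) (nat_lit 193) (.e (nat_lit 499969) (nat_lit 14) .nil))))))) (.g (nat_lit 4) .nil .nil))) 
(.lf (nat_lit 72879) (.g (nat_lit 2518) (.e (nat_lit 1669) (nat_lit 116) (.e (nat_lit 401454) (nat_lit 12) (.e (nat_lit 475207) (nat_lit 41) (.e (nat_lit 712755) (nat_lit 30) (.e (nat_lit 450563) (nat_lit 0) (.e (nat_lit 5796) (nat_lit 320) (.e (nat_lit 1006) (nat_lit 81) .nil))))))) (.g (nat_lit 4) .nil .nil)))) (.nd (nat_lit 5) 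
(.lf (nat_lit 72863) (.g (nat_lit 3579) (.e (nat_lit 1669) (nat_lit 116) (.e (nat_lit 401454) (nat_lit 12) (.e (nat_lit 475198) (nat_lit 40) (.e (nat_lit 704598) (nat_lit 6) (.e (nat_lit 188434) (nat_lit 20) (.e (nat_lit 3416) (nat_lit 213) (.e (nat_lit 663554) (nat_lit 0) .nil))))))) (.g (nat_lit 5) .nil .nil))) 
(.lf (nat_lit 72895) (.g (nat_lit 2231) (.e (nat_lit 1669) (nat_lit 116) (.e (nat_lit 401454) (nat_lit 12) (.e (nat_lit 475209) (nat_lit 41) (.e (nat_lit 712752) (nat_lit 29) (.e (nat_lit 442393) (nat_lit 20) (.e (nat_lit 3432) (nat_lit 213) (.e (nat_lit 663554) (nat_lit 0) .nil))))))) (.g (nat_lit 4) .nil .nil)))))))))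

noncomputable def tv991 : DT := (.nd (nat_lit 0) (.nd (nat_lit 1) (.nd (nat_lit 2) (.nd (nat_lit 3) (.nd (nat_lit 4) (.nd (nat_lit 5) 
(.lf (nat_lit 72896) (.g (nat_lit 2276) (.e (nat_lit 1669) (nat_lit 116) (.e (nat_lit 401454) (nat_lit 12) (.e (nat_lit 475209) (nat_lit 41) (.e (nat_lit 712752) (nat_lit 29) (.e (nat_lit 442396) (nat_lit 20) (.e (nat_lit 3430) (nat_lit 213) (.e (nat_lit 663554) (nat_lit 0) .nil))))))) (.g (nat_lit 4) .nil .nil))) 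
(.lf (nat_lit 72928) (.g (nat_lit 3209) (.e (nat_lit 1669) (nat_lit 116) (.e (nat_lit 401456) (nat_lit 13) (.e (nat_lit 483413) (nat_lit 27) (.e (nat_lit 401448) (nat_lit 10) (.e (nat_lit 434284) (nat_lit 41) (.e (nat_lit 679946) (nat_lit 5) .nil)))))) (.g (nat_lit 4) .nil .nil)))) (.nd (nat_lit 5) 
(.lf (nat_lit 72912) (.g (nat_lit 2269) (.e (nat_lit 1669) (nat_lit 116) (.e (nat_lit 401456) (nat_lit 13) (.e (nat_lit 483363) (nat_lit 18) (.e (nat_lit 57688) (nat_lit 156) .nil)))) .nil)) 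
(.lf (nat_lit 72944) (.g (nat_lit 2727) (.e (nat_lit 1669) (nat_lit 116) (.e (nat_lit 401457) (nat_lit 13) (.e (nat_lit 483413) (nat_lit 27) (.e (nat_lit 401446) (nat_lit 10) (.e (nat_lit 434201) (nat_lit 18) .nil))))) .nil)))) (.nd (nat_lit 4) (.nd (nat_lit 5) 
(.lf (nat_lit 72904) (.g (nat_lit 3232) (.e (nat_lit 1669) (nat_lit 116) (.e (nat_lit 401454) (nat_lit 12) (.e (nat_lit 475209) (nat_lit 41) (.e (nat_lit 712755) (nat_lit 30) (.e (nat_lit 450596) (nat_lit 17) (.e (nat_lit 663552) (nat_lit 0) .nil)))))) (.g (nat_lit 5) .nil .nil))) 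
(.lf (nat_lit 72936) (.g (nat_lit 2188) (.e (nat_lit 1669) (nat_lit 116) (.e (nat_lit 401457) (nat_lit 13) (.e (nat_lit 483413) (nat_lit 27) (.e (nat_lit 401439) (nat_lit 9) (.e (nat_lit 426365) (nat_lit 15) .nil))))) .nil))) (.nd (nat_lit 5) 
(.lf (nat_lit 72920) (.g (nat_lit 3288) (.e (nat_lit 1669) (nat_lit 116) (.e (nat_lit 401456) (nat_lit 13) (.e (nat_lit 483413) (nat_lit 27) (.e (nat_lit 401448) (nat_lit 10) (.e (nat_lit 434208) (nat_lit 18) (.e (nat_lit 5986) (nat_lit 326) (.e (nat_lit 1006) (nat_lit 81) .nil))))))) (.g (nat_lit 4) .nil .nil))) 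
(.lf (nat_lit 72952) (.g (nat_lit 2747) (.e (nat_lit 1669) (nat_lit 116) (.e (nat_lit 401457) (nat_lit 13) (.e (nat_lit 483413) (nat_lit 27) (.e (nat_lit 401446) (nat_lit 10) (.e (nat_lit 434203) (nat_lit 18) (.e (nat_lit 5985) (nat_lit 326) (.e (nat_lit 996) (nat_lit 81) .nil))))))) (.g (nat_lit 4) .nil .nil)))))) (.nd (nat_lit 3) (.nd (nat_lit 4) (.nd (nat_lit 5) 
(.lf (nat_lit 72900) (.g (nat_lit 3937) (.e (nat_lit 1669) (nat_lit 116) (.e (nat_lit 401454) (nat_lit 12) (.e (nat_lit 475209) (nat_lit 41) (.e (nat_lit 712752) (nat_lit 29) (.e (nat_lit 442408) (nat_lit 20) (.e (nat_lit 3418) (nat_lit 213) (.e (nat_lit 663554) (nat_lit 0) .nil))))))) (.g (nat_lit 0) .nil .nil))) 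
(.lf (nat_lit 72932) (.g (nat_lit 1074) (.e (nat_lit 1669) (nat_lit 116) (.e (nat_lit 401457) (nat_lit 13) (.e (nat_lit 483363) (nat_lit 18) .nil))) .nil))) (.nd (nat_lit 5) 
(.lf (nat_lit 72916) (.g (nat_lit 2832) (.e (nat_lit 1669) (nat_lit 116) (.e (nat_lit 401456) (nat_lit 13) (.e (nat_lit 483413) (nat_lit 27) (.e (nat_lit 401448) (nat_lit 10) (.e (nat_lit 434202) (nat_lit 18) .nil))))) .nil)) 
(.lf (nat_lit 72948) (.g (nat_lit 2334) (.e (nat_lit 1669) (nat_lit 116) (.e (nat_lit 401457) (nat_lit 13) (.e (nat_lit 483413) (nat_lit 27) (.e (nat_lit 401446) (nat_lit 10) (.e (nat_lit 434203) (nat_lit 18) .nil))))) .nil)))) (.nd (nat_lit 4) (.nd (nat_lit 5) 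
(.lf (nat_lit 72908) (.g (nat_lit 2659) (.e (nat_lit 1669) (nat_lit 116) (.e (nat_lit 401454) (nat_lit 12) (.e (nat_lit 475210) (nat_lit 41) (.e (nat_lit 712752) (nat_lit 29) (.e (nat_lit 442405) (nat_lit 20) (.e (nat_lit 3417) (nat_lit 213) (.e (nat_lit 663554) (nat_lit 0) .nil))))))) (.g (nat_lit 4) .nil .nil))) 
(.lf (nat_lit 72940) (.g (nat_lit 3237) (.e (nat_lit 1669) (nat_lit 116) (.e (nat_lit 401457) (nat_lit 13) (.e (nat_lit 483413) (nat_lit 27) (.e (nat_lit 401446) (nat_lit 10) (.e (nat_lit 434200) (nat_lit 18) (.e (nat_lit 5982) (nat_lit 326) (.e (nat_lit 1016) (nat_lit 81) .nil))))))) (.g (nat_lit 4) .nil .nil)))) (.nd (nat_lit 5) 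
(.lf (nat_lit 72924) (.g (nat_lit 3009) (.e (nat_lit 1669) (nat_lit 116) (.e (nat_lit 401456) (nat_lit 13) (.e (nat_lit 483413) (nat_lit 27) (.e (nat_lit 401448) (nat_lit 10) (.e (nat_lit 434282) (nat_lit 41) .nil))))) .nil)) 
(.lf (nat_lit 72956) (.g (nat_lit 3281) (.e (nat_lit 1669) (nat_lit 116) (.e (nat_lit 401457) (nat_lit 13) (.e (nat_lit 483413) (nat_lit 27) (.e (nat_lit 401446) (nat_lit 10) (.e (nat_lit 434203) (nat_lit 18) (.e (nat_lit 6047) (nat_lit 326) (.e (nat_lit 988) (nat_lit 81) .nil))))))) (.g (nat_lit 5) .nil .nil))))))) (.nd (nat_lit 2) (.nd (nat_lit 3) (.nd (nat_lit 4) (.nd (nat_lit 5) 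
(.lf (nat_lit 72898) (.g (nat_lit 2790) (.e (nat_lit 1669) (nat_lit 116) (.e (nat_lit 401454) (nat_lit 12) (.e (nat_lit 475209) (nat_lit 41) (.e (nat_lit 712752) (nat_lit 29) (.e (nat_lit 442401) (nat_lit 20) (.e (nat_lit 3415) (nat_lit 213) (.e (nat_lit 663554) (nat_lit 0) .nil))))))) (.g (nat_lit 4) .nil .nil))) 
(.lf (nat_lit 72930) (.g (nat_lit 2957) (.e (nat_lit 1669) (nat_lit 116) (.e (nat_lit 401457) (nat_lit 13) (.e (nat_lit 491264) (nat_lit 16) (.e (nat_lit 491566) (nat_lit 12) (.e (nat_lit 385070) (nat_lit 28) (.e (nat_lit 548874) (nat_lit 5) .nil)))))) (.g (nat_lit 4) .nil .nil)))) (.nd (nat_lit 5) 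
(.lf (nat_lit 72914) (.g (nat_lit 2730) (.e (nat_lit 1669) (nat_lit 116) (.e (nat_lit 401456) (nat_lit 13) (.e (nat_lit 483413) (nat_lit 27) (.e (nat_lit 401448) (nat_lit 10) (.e (nat_lit 434199) (nat_lit 18) .nil))))) .nil)) 
(.lf (nat_lit 72946) (.g (nat_lit 2492) (.e (nat_lit 1669) (nat_lit 116) (.e (nat_lit 401457) (nat_lit 13) (.e (nat_lit 483413) (nat_lit 27) (.e (nat_lit 401446) (nat_lit 10) (.e (nat_lit 434202) (nat_lit 18) (.e (nat_lit 6047) (nat_lit 326) (.e (nat_lit 1008) (nat_lit 81) .nil))))))) (.g (nat_lit 4) .nil .nil))))) (.nd (nat_lit 4) (.nd (nat_lit 5) 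
(.lf (nat_lit 72906) (.g (nat_lit 3684) (.e (nat_lit 1669) (nat_lit 116) (.e (nat_lit 401454) (nat_lit 12) (.e (nat_lit 475209) (nat_lit 41) (.e (nat_lit 712755) (nat_lit 30) (.e (nat_lit 450598) (nat_lit 18) (.e (nat_lit 671747) (nat_lit 0) .nil)))))) (.g (nat_lit 0) .nil .nil))) 
(.lf (nat_lit 72938) (.g (nat_lit 1182) (.e (nat_lit 1669) (nat_lit 116) (.e (nat_lit 401457) (nat_lit 13) (.e (nat_lit 483413) (nat_lit 27) (.e (nat_lit 401446) (nat_lit 10) .nil)))) .nil))) (.nd (nat_lit 5) 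
(.lf (nat_lit 72922) (.g (nat_lit 3325) (.e (nat_lit 1669) (nat_lit 116) (.e (nat_lit 401456) (nat_lit 13) (.e (nat_lit 483413) (nat_lit 27) (.e (nat_lit 401448) (nat_lit 10) (.e (nat_lit 434208) (nat_lit 18) (.e (nat_lit 6000) (nat_lit 326) (.e (nat_lit 1011) (nat_lit 81) .nil))))))) (.g (nat_lit 4) .nil .nil))) 
(.lf (nat_lit 72954) (.g (nat_lit 2920) (.e (nat_lit 1669) (nat_lit 116) (.e (nat_lit 401457) (nat_lit 13) (.e (nat_lit 483413) (nat_lit 27) (.e (nat_lit 401446) (nat_lit 10) (.e (nat_lit 434203) (nat_lit 18) (.e (nat_lit 6000) (nat_lit 326) (.e (nat_lit 1009) (nat_lit 81) .nil))))))) (.g (nat_lit 4) .nil .nil)))))) (.nd (nat_lit 3) (.nd (nat_lit 4) (.nd (nat_lit 5) 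
(.lf (nat_lit 72902) (.g (nat_lit 2779) (.e (nat_lit 1669) (nat_lit 116) (.e (nat_lit 401454) (nat_lit 12) (.e (nat_lit 475209) (nat_lit 41) (.e (nat_lit 712752) (nat_lit 29) (.e (nat_lit 442411) (nat_lit 20) (.e (nat_lit 3418) (nat_lit 213) (.e (nat_lit 663554) (nat_lit 0) .nil))))))) (.g (nat_lit 4) .nil .nil))) 
(.lf (nat_lit 72934) (.g (nat_lit 2378) (.e (nat_lit 1669) (nat_lit 116) (.e (nat_lit 401457) (nat_lit 13) (.e (nat_lit 483363) (nat_lit 18) (.e (nat_lit 57692) (nat_lit 156) .nil)))) .nil))) (.nd (nat_lit 5) 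
(.lf (nat_lit 72918) (.g (nat_lit 2682) (.e (nat_lit 1669) (nat_lit 116) (.e (nat_lit 401456) (nat_lit 13) (.e (nat_lit 483413) (nat_lit 27) (.e (nat_lit 401448) (nat_lit 10) (.e (nat_lit 434203) (nat_lit 18) .nil))))) .nil)) 
(.lf (nat_lit 72950) (.g (nat_lit 2645) (.e (nat_lit 1669) (nat_lit 116) (.e (nat_lit 401457) (nat_lit 13) (.e (nat_lit 483413) (nat_lit 27) (.e (nat_lit 401446) (nat_lit 10) (.e (nat_lit 434203) (nat_lit 18) (.e (nat_lit 5982) (nat_lit 326) (.e (nat_lit 996) (nat_lit 81) .nil))))))) (.g (nat_lit 4) .nil .nil))))) (.nd (nat_lit 4) (.nd (nat_lit 5) 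
(.lf (nat_lit 72910) (.g (nat_lit 3847) (.e (nat_lit 1669) (nat_lit 116) (.e (nat_lit 401454) (nat_lit 12) (.e (nat_lit 475210) (nat_lit 41) (.e (nat_lit 712755) (nat_lit 30) (.e (nat_lit 450597) (nat_lit 17) (.e (nat_lit 663552) (nat_lit 0) .nil)))))) (.g (nat_lit 0) .nil .nil))) 
(.lf (nat_lit 72942) (.g (nat_lit 3014) (.e (nat_lit 1669) (nat_lit 116) (.e (nat_lit 401457) (nat_lit 13) (.e (nat_lit 483413) (nat_lit 27) (.e (nat_lit 401446) (nat_lit 10) (.e (nat_lit 434200) (nat_lit 18) (.e (nat_lit 5988) (nat_lit 326) (.e (nat_lit 1006) (nat_lit 81) .nil))))))) (.g (nat_lit 4) .nil .nil)))) (.nd (nat_lit 5) 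
(.lf (nat_lit 72926) (.g (nat_lit 3126) (.e (nat_lit 1669) (nat_lit 116) (.e (nat_lit 401456) (nat_lit 13) (.e (nat_lit 483413) (nat_lit 27) (.e (nat_lit 401448) (nat_lit 10) (.e (nat_lit 434284) (nat_lit 41) .nil))))) .nil)) 
(.lf (nat_lit 72958) (.g (nat_lit 3805) (.e (nat_lit 1669) (nat_lit 116) (.e (nat_lit 401457) (nat_lit 13) (.e (nat_lit 483413) (nat_lit 27) (.e (nat_lit 401446) (nat_lit 10) (.e (nat_lit 434203) (nat_lit 18) (.e (nat_lit 6047) (nat_lit 326) (.e (nat_lit 1008) (nat_lit 81) .nil))))))) (.g (nat_lit 6) .nil .nil)))))))) 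
(.nd (nat_lit 1) (.nd (nat_lit 2) (.nd (nat_lit 3) (.nd (nat_lit 4) (.nd (nat_lit 5) 
(.lf (nat_lit 72897) (.g (nat_lit 2852) (.e (nat_lit 1669) (nat_lit 116) (.e (nat_lit 401454) (nat_lit 12) (.e (nat_lit 475209) (nat_lit 41) (.e (nat_lit 712752) (nat_lit 29) (.e (nat_lit 442400) (nat_lit 20) (.e (nat_lit 3415) (nat_lit 213) (.e (nat_lit 663554) (nat_lit 0) .nil))))))) (.g (nat_lit 4) .nil .nil))) 
(.lf (nat_lit 72929) (.g (nat_lit 935) (.e (nat_lit 1669) (nat_lit 116) (.e (nat_lit 401457) (nat_lit 13) (.e (nat_lit 483331) (nat_lit 0) .nil))) .nil))) (.nd (nat_lit 5) 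
(.lf (nat_lit 72913) (.g (nat_lit 1889) (.e (nat_lit 1669) (nat_lit 116) (.e (nat_lit 401456) (nat_lit 13) (.e (nat_lit 483413) (nat_lit 27) (.e (nat_lit 401446) (nat_lit 10) (.e (nat_lit 434203) (nat_lit 18) .nil))))) .nil)) 
(.lf (nat_lit 72945) (.g (nat_lit 2343) (.e (nat_lit 1669) (nat_lit 116) (.e (nat_lit 401457) (nat_lit 13) (.e (nat_lit 483413) (nat_lit 27) (.e (nat_lit 401446) (nat_lit 10) (.e (nat_lit 434202) (nat_lit 18) .nil))))) .nil)))) (.nd (nat_lit 4) (.nd (nat_lit 5) 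
(.lf (nat_lit 72905) (.g (nat_lit 3409) (.e (nat_lit 1669) (nat_lit 116) (.e (nat_lit 401454) (nat_lit 12) (.e (nat_lit 475209) (nat_lit 41) (.e (nat_lit 712755) (nat_lit 30) (.e (nat_lit 450597) (nat_lit 17) (.e (nat_lit 663552) (nat_lit 0) .nil)))))) (.g (nat_lit 5) .nil .nil))) 
(.lf (nat_lit 72937) (.g (nat_lit 1927) (.e (nat_lit 1669) (nat_lit 116) (.e (nat_lit 401457) (nat_lit 13) (.e (nat_lit 483413) (nat_lit 27) (.e (nat_lit 401440) (nat_lit 9) .nil)))) .nil))) (.nd (nat_lit 5) 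
(.lf (nat_lit 72921) (.g (nat_lit 3094) (.e (nat_lit 1669) (nat_lit 116) (.e (nat_lit 401456) (nat_lit 13) (.e (nat_lit 483413) (nat_lit 27) (.e (nat_lit 401448) (nat_lit 10) (.e (nat_lit 434208) (nat_lit 18) (.e (nat_lit 6000) (nat_lit 326) (.e (nat_lit 1010) (nat_lit 81) .nil))))))) (.g (nat_lit 4) .nil .nil))) 
(.lf (nat_lit 72953) (.g (nat_lit 2442) (.e (nat_lit 1669) (nat_lit 116) (.e (nat_lit 401457) (nat_lit 13) (.e (nat_lit 483413) (nat_lit 27) (.e (nat_lit 401446) (nat_lit 10) (.e (nat_lit 434203) (nat_lit 18) (.e (nat_lit 5986) (nat_lit 326) (.e (nat_lit 1006) (nat_lit 81) .nil))))))) (.g (nat_lit 4) .nil .nil)))))) (.nd (nat_lit 3) (.nd (nat_lit 4) (.nd (nat_lit 5) 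
(.lf (nat_lit 72901) (.g (nat_lit 2799) (.e (nat_lit 1669) (nat_lit 116) (.e (nat_lit 401454) (nat_lit 12) (.e (nat_lit 475209) (nat_lit 41) (.e (nat_lit 712752) (nat_lit 29) (.e (nat_lit 442411) (nat_lit 20) (.e (nat_lit 3416) (nat_lit 213) (.e (nat_lit 663554) (nat_lit 0) .nil))))))) (.g (nat_lit 4) .nil .nil))) 
(.lf (nat_lit 72933) (.g (nat_lit 2383) (.e (nat_lit 1669) (nat_lit 116) (.e (nat_lit 401457) (nat_lit 13) (.e (nat_lit 483363) (nat_lit 18) (.e (nat_lit 57688) (nat_lit 156) .nil)))) .nil))) (.nd (nat_lit 5) 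
(.lf (nat_lit 72917) (.g (nat_lit 2958) (.e (nat_lit 1669) (nat_lit 116) (.e (nat_lit 401456) (nat_lit 13) (.e (nat_lit 483413) (nat_lit 27) (.e (nat_lit 401448) (nat_lit 10) (.e (nat_lit 434202) (nat_lit 18) (.e (nat_lit 6047) (nat_lit 326) (.e (nat_lit 1014) (nat_lit 81) .nil))))))) (.g (nat_lit 4) .nil .nil))) 
(.lf (nat_lit 72949) (.g (nat_lit 2452) (.e (nat_lit 1669) (nat_lit 116) (.e (nat_lit 401457) (nat_lit 13) (.e (nat_lit 483413) (nat_lit 27) (.e (nat_lit 401446) (nat_lit 10) (.e (nat_lit 434203) (nat_lit 18) (.e (nat_lit 5979) (nat_lit 326) (.e (nat_lit 1016) (nat_lit 81) .nil))))))) (.g (nat_lit 4) .nil .nil))))) (.nd (nat_lit 4) (.nd (nat_lit 5) 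
(.lf (nat_lit 72909) (.g (nat_lit 3098) (.e (nat_lit 1669) (nat_lit 116) (.e (nat_lit 401454) (nat_lit 12) (.e (nat_lit 475210) (nat_lit 41) (.e (nat_lit 712755) (nat_lit 30) (.e (nat_lit 450596) (nat_lit 17) (.e (nat_lit 663552) (nat_lit 0) .nil)))))) (.g (nat_lit 4) .nil .nil))) 
(.lf (nat_lit 72941) (.g (nat_lit 3263) (.e (nat_lit 1669) (nat_lit 116) (.e (nat_lit 401457) (nat_lit 13) (.e (nat_lit 483413) (nat_lit 27) (.e (nat_lit 401446) (nat_lit 10) (.e (nat_lit 434200) (nat_lit 18) (.e (nat_lit 5984) (nat_lit 326) (.e (nat_lit 1016) (nat_lit 81) .nil))))))) (.g (nat_lit 4) .nil .nil)))) (.nd (nat_lit 5) 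
(.lf (nat_lit 72925) (.g (nat_lit 3073) (.e (nat_lit 1669) (nat_lit 116) (.e (nat_lit 401456) (nat_lit 13) (.e (nat_lit 483413) (nat_lit 27) (.e (nat_lit 401448) (nat_lit 10) (.e (nat_lit 434283) (nat_lit 41) .nil))))) .nil)) 
(.lf (nat_lit 72957) (.g (nat_lit 3092) (.e (nat_lit 1669) (nat_lit 116) (.e (nat_lit 401457) (nat_lit 13) (.e (nat_lit 483413) (nat_lit 27) (.e (nat_lit 401446) (nat_lit 10) (.e (nat_lit 434203) (nat_lit 18) (.e (nat_lit 6047) (nat_lit 326) (.e (nat_lit 994) (nat_lit 81) .nil))))))) (.g (nat_lit 5) .nil .nil))))))) (.nd (nat_lit 2) (.nd (nat_lit 3) (.nd (nat_lit 4) (.nd (nat_lit 5) 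
(.lf (nat_lit 72899) (.g (nat_lit 4257) (.e (nat_lit 1669) (nat_lit 116) (.e (nat_lit 401454) (nat_lit 12) (.e (nat_lit 475209) (nat_lit 41) (.e (nat_lit 712752) (nat_lit 29) (.e (nat_lit 442405) (nat_lit 20) (.e (nat_lit 3417) (nat_lit 213) (.e (nat_lit 663554) (nat_lit 0) .nil))))))) (.g (nat_lit 0) .nil .nil))) 
(.lf (nat_lit 72931) (.g (nat_lit 1988) (.e (nat_lit 1669) (nat_lit 116) (.e (nat_lit 401457) (nat_lit 13) (.e (nat_lit 483346) (nat_lit 17) (.e (nat_lit 2368) (nat_lit 153) .nil)))) .nil))) (.nd (nat_lit 5) 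
(.lf (nat_lit 72915) (.g (nat_lit 2890) (.e (nat_lit 1669) (nat_lit 116) (.e (nat_lit 401456) (nat_lit 13) (.e (nat_lit 483413) (nat_lit 27) (.e (nat_lit 401448) (nat_lit 10) (.e (nat_lit 434200) (nat_lit 18) .nil))))) .nil)) 
(.lf (nat_lit 72947) (.g (nat_lit 2687) (.e (nat_lit 1669) (nat_lit 116) (.e (nat_lit 401457) (nat_lit 13) (.e (nat_lit 483413) (nat_lit 27) (.e (nat_lit 401446) (nat_lit 10) (.e (nat_lit 434202) (nat_lit 18) (.e (nat_lit 6047) (nat_lit 326) (.e (nat_lit 1014) (nat_lit 81) .nil))))))) (.g (nat_lit 4) .nil .nil))))) (.nd (nat_lit 4) (.nd (nat_lit 5) 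
(.lf (nat_lit 72907) (.g (nat_lit 1948) (.e (nat_lit 1669) (nat_lit 116) (.e (nat_lit 401454) (nat_lit 12) (.e (nat_lit 475209) (nat_lit 41) (.e (nat_lit 712755) (nat_lit 30) (.e (nat_lit 458496) (nat_lit 18) .nil))))) .nil)) 
(.lf (nat_lit 72939) (.g (nat_lit 2734) (.e (nat_lit 1669) (nat_lit 116) (.e (nat_lit 401457) (nat_lit 13) (.e (nat_lit 483413) (nat_lit 27) (.e (nat_lit 401446) (nat_lit 10) (.e (nat_lit 434200) (nat_lit 18) .nil))))) .nil))) (.nd (nat_lit 5) 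
(.lf (nat_lit 72923) (.g (nat_lit 3193) (.e (nat_lit 1669) (nat_lit 116) (.e (nat_lit 401456) (nat_lit 13) (.e (nat_lit 483413) (nat_lit 27) (.e (nat_lit 401448) (nat_lit 10) (.e (nat_lit 434209) (nat_lit 18) (.e (nat_lit 6005) (nat_lit 326) (.e (nat_lit 1011) (nat_lit 81) .nil))))))) (.g (nat_lit 4) .nil .nil))) 
(.lf (nat_lit 72955) (.g (nat_lit 2975) (.e (nat_lit 1669) (nat_lit 116) (.e (nat_lit 401457) (nat_lit 13) (.e (nat_lit 483413) (nat_lit 27) (.e (nat_lit 401446) (nat_lit 10) (.e (nat_lit 434203) (nat_lit 18) (.e (nat_lit 6047) (nat_lit 326) (.e (nat_lit 982) (nat_lit 81) .nil))))))) (.g (nat_lit 4) .nil .nil)))))) (.nd (nat_lit 3) (.nd (nat_lit 4) (.nd (nat_lit 5) 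
(.lf (nat_lit 72903) (.g (nat_lit 2640) (.e (nat_lit 1669) (nat_lit 116) (.e (nat_lit 401454) (nat_lit 12) (.e (nat_lit 475209) (nat_lit 41) (.e (nat_lit 712752) (nat_lit 29) (.e (nat_lit 442412) (nat_lit 20) (.e (nat_lit 3417) (nat_lit 213) (.e (nat_lit 663554) (nat_lit 0) .nil))))))) (.g (nat_lit 4) .nil .nil))) 
(.lf (nat_lit 72935) (.g (nat_lit 1018) (.e (nat_lit 1669) (nat_lit 116) (.e (nat_lit 401457) (nat_lit 13) (.e (nat_lit 483365) (nat_lit 18) .nil))) .nil))) (.nd (nat_lit 5) 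
(.lf (nat_lit 72919) (.g (nat_lit 2933) (.e (nat_lit 1669) (nat_lit 116) (.e (nat_lit 401456) (nat_lit 13) (.e (nat_lit 483413) (nat_lit 27) (.e (nat_lit 401448) (nat_lit 10) (.e (nat_lit 434208) (nat_lit 18) (.e (nat_lit 5982) (nat_lit 326) (.e (nat_lit 1016) (nat_lit 81) .nil))))))) (.g (nat_lit 4) .nil .nil))) 
(.lf (nat_lit 72951) (.g (nat_lit 2402) (.e (nat_lit 1669) (nat_lit 116) (.e (nat_lit 401457) (nat_lit 13) (.e (nat_lit 483413) (nat_lit 27) (.e (nat_lit 401446) (nat_lit 10) (.e (nat_lit 434203) (nat_lit 18) (.e (nat_lit 5984) (nat_lit 326) (.e (nat_lit 999) (nat_lit 81) .nil))))))) (.g (nat_lit 4) .nil .nil))))) (.nd (nat_lit 4) (.nd (nat_lit 5) 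
(.lf (nat_lit 72911) (.g (nat_lit 962) (.e (nat_lit 1669) (nat_lit 116) (.e (nat_lit 401454) (nat_lit 12) (.e (nat_lit 475219) (nat_lit 44) .nil))) .nil)) 
(.lf (nat_lit 72943) (.g (nat_lit 3109) (.e (nat_lit 1669) (nat_lit 116) (.e (nat_lit 401457) (nat_lit 13) (.e (nat_lit 483413) (nat_lit 27) (.e (nat_lit 401446) (nat_lit 10) (.e (nat_lit 434200) (nat_lit 18) (.e (nat_lit 6040) (nat_lit 326) (.e (nat_lit 1014) (nat_lit 81) .nil))))))) (.g (nat_lit 4) .nil .nil)))) (.nd (nat_lit 5) 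
(.lf (nat_lit 72927) (.g (nat_lit 3152) (.e (nat_lit 1669) (nat_lit 116) (.e (nat_lit 401456) (nat_lit 13) (.e (nat_lit 483413) (nat_lit 27) (.e (nat_lit 401448) (nat_lit 10) (.e (nat_lit 434284) (nat_lit 41) (.e (nat_lit 679945) (nat_lit 5) .nil)))))) (.g (nat_lit 4) .nil .nil))) 
(.lf (nat_lit 72959) (.g (nat_lit 4017) (.e (nat_lit 1669) (nat_lit 116) (.e (nat_lit 401457) (nat_lit 13) (.e (nat_lit 483413) (nat_lit 27) (.e (nat_lit 401446) (nat_lit 10) (.e (nat_lit 434203) (nat_lit 18) (.e (nat_lit 6047) (nat_lit 326) (.e (nat_lit 1014) (nat_lit 81) .nil))))))) (.g (nat_lit 7) .nil .nil)))))))))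

noncomputable def tv992 : DT := (.nd (nat_lit 0) (.nd (nat_lit 1) (.nd (nat_lit 2) (.nd (nat_lit 3) (.nd (nat_lit 4) (.nd (nat_lit 5) 
(.lf (nat_lit 72960) (.g (nat_lit 2713) (.e (nat_lit 1669) (nat_lit 116) (.e (nat_lit 401457) (nat_lit 13) (.e (nat_lit 483413) (nat_lit 27) (.e (nat_lit 401446) (nat_lit 10) (.e (nat_lit 434205) (nat_lit 18) .nil))))) .nil)) 
(.lf (nat_lit 72992) (.g (nat_lit 3298) (.e (nat_lit 1669) (nat_lit 116) (.e (nat_lit 401457) (nat_lit 13) (.e (nat_lit 483413) (nat_lit 27) (.e (nat_lit 401447) (nat_lit 10) (.e (nat_lit 434207) (nat_lit 18) .nil))))) .nil))) (.nd (nat_lit 5) 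
(.lf (nat_lit 72976) (.g (nat_lit 3277) (.e (nat_lit 1669) (nat_lit 116) (.e (nat_lit 401457) (nat_lit 13) (.e (nat_lit 483413) (nat_lit 27) (.e (nat_lit 401446) (nat_lit 10) (.e (nat_lit 434284) (nat_lit 41) (.e (nat_lit 679942) (nat_lit 5) .nil)))))) (.g (nat_lit 4) .nil .nil))) 
(.lf (nat_lit 73008) (.g (nat_lit 3802) (.e (nat_lit 1669) (nat_lit 116) (.e (nat_lit 401457) (nat_lit 13) (.e (nat_lit 483413) (nat_lit 27) (.e (nat_lit 401447) (nat_lit 10) (.e (nat_lit 434284) (nat_lit 41) (.e (nat_lit 679946) (nat_lit 5) .nil)))))) (.g (nat_lit 5) .nil .nil))))) (.nd (nat_lit 4) (.nd (nat_lit 5) 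
(.lf (nat_lit 72968) (.g (nat_lit 2468) (.e (nat_lit 1669) (nat_lit 116) (.e (nat_lit 401457) (nat_lit 13) (.e (nat_lit 483413) (nat_lit 27) (.e (nat_lit 401446) (nat_lit 10) (.e (nat_lit 434209) (nat_lit 18) (.e (nat_lit 6005) (nat_lit 326) (.e (nat_lit 1010) (nat_lit 81) .nil))))))) (.g (nat_lit 4) .nil .nil))) 
(.lf (nat_lit 73000) (.g (nat_lit 3381) (.e (nat_lit 1669) (nat_lit 116) (.e (nat_lit 401457) (nat_lit 13) (.e (nat_lit 483413) (nat_lit 27) (.e (nat_lit 401447) (nat_lit 10) (.e (nat_lit 434283) (nat_lit 41) (.e (nat_lit 679943) (nat_lit 5) .nil)))))) (.g (nat_lit 4) .nil .nil)))) (.nd (nat_lit 5) 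
(.lf (nat_lit 72984) (.g (nat_lit 3539) (.e (nat_lit 1669) (nat_lit 116) (.e (nat_lit 401457) (nat_lit 13) (.e (nat_lit 483413) (nat_lit 27) (.e (nat_lit 401447) (nat_lit 10) (.e (nat_lit 434203) (nat_lit 18) (.e (nat_lit 6000) (nat_lit 326) (.e (nat_lit 1009) (nat_lit 81) .nil))))))) (.g (nat_lit 4) .nil .nil))) 
(.lf (nat_lit 73016) (.g (nat_lit 3528) (.e (nat_lit 1669) (nat_lit 116) (.e (nat_lit 401457) (nat_lit 13) (.e (nat_lit 483413) (nat_lit 27) (.e (nat_lit 401448) (nat_lit 10) (.e (nat_lit 434199) (nat_lit 18) (.e (nat_lit 6040) (nat_lit 326) (.e (nat_lit 1014) (nat_lit 81) .nil))))))) (.g (nat_lit 4) .nil .nil)))))) (.nd (nat_lit 3) (.nd (nat_lit 4) (.nd (nat_lit 5) 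
(.lf (nat_lit 72964) (.g (nat_lit 2647) (.e (nat_lit 1669) (nat_lit 116) (.e (nat_lit 401457) (nat_lit 13) (.e (nat_lit 483413) (nat_lit 27) (.e (nat_lit 401446) (nat_lit 10) (.e (nat_lit 434208) (nat_lit 18) (.e (nat_lit 5979) (nat_lit 326) (.e (nat_lit 1016) (nat_lit 81) .nil))))))) (.g (nat_lit 4) .nil .nil))) 
(.lf (nat_lit 72996) (.g (nat_lit 3460) (.e (nat_lit 1669) (nat_lit 116) (.e (nat_lit 401457) (nat_lit 13) (.e (nat_lit 483413) (nat_lit 27) (.e (nat_lit 401447) (nat_lit 10) (.e (nat_lit 434282) (nat_lit 41) (.e (nat_lit 679944) (nat_lit 5) .nil)))))) (.g (nat_lit 4) .nil .nil)))) (.nd (nat_lit 5) 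
(.lf (nat_lit 72980) (.g (nat_lit 3253) (.e (nat_lit 1669) (nat_lit 116) (.e (nat_lit 401457) (nat_lit 13) (.e (nat_lit 483413) (nat_lit 27) (.e (nat_lit 401447) (nat_lit 10) (.e (nat_lit 434203) (nat_lit 18) .nil))))) .nil)) 
(.lf (nat_lit 73012) (.g (nat_lit 3385) (.e (nat_lit 1669) (nat_lit 116) (.e (nat_lit 401457) (nat_lit 13) (.e (nat_lit 483413) (nat_lit 27) (.e (nat_lit 401448) (nat_lit 10) (.e (nat_lit 434199) (nat_lit 18) (.e (nat_lit 5985) (nat_lit 326) (.e (nat_lit 999) (nat_lit 81) .nil))))))) (.g (nat_lit 4) .nil .nil))))) (.nd (nat_lit 4) (.nd (nat_lit 5) 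
(.lf (nat_lit 72972) (.g (nat_lit 3045) (.e (nat_lit 1669) (nat_lit 116) (.e (nat_lit 401457) (nat_lit 13) (.e (nat_lit 483413) (nat_lit 27) (.e (nat_lit 401446) (nat_lit 10) (.e (nat_lit 434282) (nat_lit 41) (.e (nat_lit 679945) (nat_lit 5) .nil)))))) (.g (nat_lit 4) .nil .nil))) 
(.lf (nat_lit 73004) (.g (nat_lit 3338) (.e (nat_lit 1669) (nat_lit 116) (.e (nat_lit 401457) (nat_lit 13) (.e (nat_lit 483413) (nat_lit 27) (.e (nat_lit 401447) (nat_lit 10) (.e (nat_lit 434284) (nat_lit 41) (.e (nat_lit 679942) (nat_lit 5) .nil)))))) (.g (nat_lit 4) .nil .nil)))) (.nd (nat_lit 5) 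
(.lf (nat_lit 72988) (.g (nat_lit 4514) (.e (nat_lit 1669) (nat_lit 116) (.e (nat_lit 401457) (nat_lit 13) (.e (nat_lit 483413) (nat_lit 27) (.e (nat_lit 401447) (nat_lit 10) (.e (nat_lit 434203) (nat_lit 18) (.e (nat_lit 6047) (nat_lit 326) (.e (nat_lit 1008) (nat_lit 81) .nil))))))) (.g (nat_lit 5) .nil .nil))) 
(.lf (nat_lit 73020) (.g (nat_lit 3006) (.e (nat_lit 1669) (nat_lit 116) (.e (nat_lit 401457) (nat_lit 13) (.e (nat_lit 483413) (nat_lit 27) (.e (nat_lit 401448) (nat_lit 10) (.e (nat_lit 434200) (nat_lit 18) (.e (nat_lit 5979) (nat_lit 326) (.e (nat_lit 1007) (nat_lit 81) .nil))))))) (.g (nat_lit 4) .nil .nil))))))) (.nd (nat_lit 2) (.nd (nat_lit 3) (.nd (nat_lit 4) (.nd (nat_lit 5) 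
(.lf (nat_lit 72962) (.g (nat_lit 2728) (.e (nat_lit 1669) (nat_lit 116) (.e (nat_lit 401457) (nat_lit 13) (.e (nat_lit 483413) (nat_lit 27) (.e (nat_lit 401446) (nat_lit 10) (.e (nat_lit 434207) (nat_lit 18) (.e (nat_lit 5988) (nat_lit 326) (.e (nat_lit 1006) (nat_lit 81) .nil))))))) (.g (nat_lit 4) .nil .nil))) 
(.lf (nat_lit 72994) (.g (nat_lit 3092) (.e (nat_lit 1669) (nat_lit 116) (.e (nat_lit 401457) (nat_lit 13) (.e (nat_lit 483413) (nat_lit 27) (.e (nat_lit 401447) (nat_lit 10) (.e (nat_lit 434282) (nat_lit 41) .nil))))) .nil))) (.nd (nat_lit 5) 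
(.lf (nat_lit 72978) (.g (nat_lit 3745) (.e (nat_lit 1669) (nat_lit 116) (.e (nat_lit 401457) (nat_lit 13) (.e (nat_lit 483413) (nat_lit 27) (.e (nat_lit 401446) (nat_lit 10) (.e (nat_lit 434284) (nat_lit 41) (.e (nat_lit 679945) (nat_lit 5) .nil)))))) (.g (nat_lit 0) .nil .nil))) 
(.lf (nat_lit 73010) (.g (nat_lit 3046) (.e (nat_lit 1669) (nat_lit 116) (.e (nat_lit 401457) (nat_lit 13) (.e (nat_lit 483413) (nat_lit 27) (.e (nat_lit 401448) (nat_lit 10) (.e (nat_lit 434199) (nat_lit 18) .nil))))) .nil)))) (.nd (nat_lit 4) (.nd (nat_lit 5) 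
(.lf (nat_lit 72970) (.g (nat_lit 2853) (.e (nat_lit 1669) (nat_lit 116) (.e (nat_lit 401457) (nat_lit 13) (.e (nat_lit 483413) (nat_lit 27) (.e (nat_lit 401446) (nat_lit 10) (.e (nat_lit 434282) (nat_lit 41) (.e (nat_lit 679943) (nat_lit 5) .nil)))))) (.g (nat_lit 4) .nil .nil))) 
(.lf (nat_lit 73002) (.g (nat_lit 3533) (.e (nat_lit 1669) (nat_lit 116) (.e (nat_lit 401457) (nat_lit 13) (.e (nat_lit 483413) (nat_lit 27) (.e (nat_lit 401447) (nat_lit 10) (.e (nat_lit 434283) (nat_lit 41) (.e (nat_lit 679945) (nat_lit 5) .nil)))))) (.g (nat_lit 4) .nil .nil)))) (.nd (nat_lit 5) 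
(.lf (nat_lit 72986) (.g (nat_lit 3990) (.e (nat_lit 1669) (nat_lit 116) (.e (nat_lit 401457) (nat_lit 13) (.e (nat_lit 483413) (nat_lit 27) (.e (nat_lit 401447) (nat_lit 10) (.e (nat_lit 434203) (nat_lit 18) (.e (nat_lit 6047) (nat_lit 326) (.e (nat_lit 988) (nat_lit 81) .nil))))))) (.g (nat_lit 4) .nil .nil))) 
(.lf (nat_lit 73018) (.g (nat_lit 2762) (.e (nat_lit 1669) (nat_lit 116) (.e (nat_lit 401457) (nat_lit 13) (.e (nat_lit 483413) (nat_lit 27) (.e (nat_lit 401448) (nat_lit 10) (.e (nat_lit 434200) (nat_lit 18) (.e (nat_lit 5979) (nat_lit 326) (.e (nat_lit 996) (nat_lit 81) .nil))))))) (.g (nat_lit 4) .nil .nil)))))) (.nd (nat_lit 3) (.nd (nat_lit 4) (.nd (nat_lit 5) 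
(.lf (nat_lit 72966) (.g (nat_lit 3004) (.e (nat_lit 1669) (nat_lit 116) (.e (nat_lit 401457) (nat_lit 13) (.e (nat_lit 483413) (nat_lit 27) (.e (nat_lit 401446) (nat_lit 10) (.e (nat_lit 434208) (nat_lit 18) (.e (nat_lit 5982) (nat_lit 326) (.e (nat_lit 999) (nat_lit 81) .nil))))))) (.g (nat_lit 4) .nil .nil))) 
(.lf (nat_lit 72998) (.g (nat_lit 3599) (.e (nat_lit 1669) (nat_lit 116) (.e (nat_lit 401457) (nat_lit 13) (.e (nat_lit 483413) (nat_lit 27) (.e (nat_lit 401447) (nat_lit 10) (.e (nat_lit 434282) (nat_lit 41) (.e (nat_lit 679946) (nat_lit 5) .nil)))))) (.g (nat_lit 4) .nil .nil)))) (.nd (nat_lit 5) 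
(.lf (nat_lit 72982) (.g (nat_lit 3794) (.e (nat_lit 1669) (nat_lit 116) (.e (nat_lit 401457) (nat_lit 13) (.e (nat_lit 483413) (nat_lit 27) (.e (nat_lit 401447) (nat_lit 10) (.e (nat_lit 434203) (nat_lit 18) (.e (nat_lit 5982) (nat_lit 326) (.e (nat_lit 999) (nat_lit 81) .nil))))))) (.g (nat_lit 4) .nil .nil))) 
(.lf (nat_lit 73014) (.g (nat_lit 3394) (.e (nat_lit 1669) (nat_lit 116) (.e (nat_lit 401457) (nat_lit 13) (.e (nat_lit 483413) (nat_lit 27) (.e (nat_lit 401448) (nat_lit 10) (.e (nat_lit 434199) (nat_lit 18) (.e (nat_lit 5988) (nat_lit 326) (.e (nat_lit 1006) (nat_lit 81) .nil))))))) (.g (nat_lit 4) .nil .nil))))) (.nd (nat_lit 4) (.nd (nat_lit 5) 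
(.lf (nat_lit 72974) (.g (nat_lit 3129) (.e (nat_lit 1669) (nat_lit 116) (.e (nat_lit 401457) (nat_lit 13) (.e (nat_lit 483413) (nat_lit 27) (.e (nat_lit 401446) (nat_lit 10) (.e (nat_lit 434283) (nat_lit 41) (.e (nat_lit 679942) (nat_lit 5) .nil)))))) (.g (nat_lit 4) .nil .nil))) 
(.lf (nat_lit 73006) (.g (nat_lit 3465) (.e (nat_lit 1669) (nat_lit 116) (.e (nat_lit 401457) (nat_lit 13) (.e (nat_lit 483413) (nat_lit 27) (.e (nat_lit 401447) (nat_lit 10) (.e (nat_lit 434284) (nat_lit 41) (.e (nat_lit 679944) (nat_lit 5) .nil)))))) (.g (nat_lit 4) .nil .nil)))) (.nd (nat_lit 5) 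
(.lf (nat_lit 72990) (.g (nat_lit 3265) (.e (nat_lit 1669) (nat_lit 116) (.e (nat_lit 401457) (nat_lit 13) (.e (nat_lit 483413) (nat_lit 27) (.e (nat_lit 401447) (nat_lit 10) (.e (nat_lit 434204) (nat_lit 18) .nil))))) .nil)) 
(.lf (nat_lit 73022) (.g (nat_lit 2725) (.e (nat_lit 1669) (nat_lit 116) (.e (nat_lit 401457) (nat_lit 13) (.e (nat_lit 483413) (nat_lit 27) (.e (nat_lit 401448) (nat_lit 10) (.e (nat_lit 434200) (nat_lit 18) (.e (nat_lit 5982) (nat_lit 326) (.e (nat_lit 996) (nat_lit 81) .nil))))))) (.g (nat_lit 4) .nil .nil)))))))) 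
(.nd (nat_lit 1) (.nd (nat_lit 2) (.nd (nat_lit 3) (.nd (nat_lit 4) (.nd (nat_lit 5) 
(.lf (nat_lit 72961) (.g (nat_lit 2346) (.e (nat_lit 1669) (nat_lit 116) (.e (nat_lit 401457) (nat_lit 13) (.e (nat_lit 483413) (nat_lit 27) (.e (nat_lit 401446) (nat_lit 10) (.e (nat_lit 434207) (nat_lit 18) .nil))))) .nil)) 
(.lf (nat_lit 72993) (.g (nat_lit 3252) (.e (nat_lit 1669) (nat_lit 116) (.e (nat_lit 401457) (nat_lit 13) (.e (nat_lit 483413) (nat_lit 27) (.e (nat_lit 401447) (nat_lit 10) (.e (nat_lit 434208) (nat_lit 18) .nil))))) .nil))) (.nd (nat_lit 5) 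
(.lf (nat_lit 72977) (.g (nat_lit 3404) (.e (nat_lit 1669) (nat_lit 116) (.e (nat_lit 401457) (nat_lit 13) (.e (nat_lit 483413) (nat_lit 27) (.e (nat_lit 401446) (nat_lit 10) (.e (nat_lit 434284) (nat_lit 41) (.e (nat_lit 679944) (nat_lit 5) .nil)))))) (.g (nat_lit 5) .nil .nil))) 
(.lf (nat_lit 73009) (.g (nat_lit 1407) (.e (nat_lit 1669) (nat_lit 116) (.e (nat_lit 401457) (nat_lit 13) (.e (nat_lit 483413) (nat_lit 27) (.e (nat_lit 401448) (nat_lit 10) .nil)))) .nil)))) (.nd (nat_lit 4) (.nd (nat_lit 5) 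
(.lf (nat_lit 72969) (.g (nat_lit 2692) (.e (nat_lit 1669) (nat_lit 116) (.e (nat_lit 401457) (nat_lit 13) (.e (nat_lit 483413) (nat_lit 27) (.e (nat_lit 401446) (nat_lit 10) (.e (nat_lit 434209) (nat_lit 18) (.e (nat_lit 6005) (nat_lit 326) (.e (nat_lit 1011) (nat_lit 81) .nil))))))) (.g (nat_lit 4) .nil .nil))) 
(.lf (nat_lit 73001) (.g (nat_lit 3526) (.e (nat_lit 1669) (nat_lit 116) (.e (nat_lit 401457) (nat_lit 13) (.e (nat_lit 483413) (nat_lit 27) (.e (nat_lit 401447) (nat_lit 10) (.e (nat_lit 434283) (nat_lit 41) (.e (nat_lit 679944) (nat_lit 5) .nil)))))) (.g (nat_lit 4) .nil .nil)))) (.nd (nat_lit 5) 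
(.lf (nat_lit 72985) (.g (nat_lit 3684) (.e (nat_lit 1669) (nat_lit 116) (.e (nat_lit 401457) (nat_lit 13) (.e (nat_lit 483413) (nat_lit 27) (.e (nat_lit 401447) (nat_lit 10) (.e (nat_lit 434203) (nat_lit 18) (.e (nat_lit 6047) (nat_lit 326) (.e (nat_lit 982) (nat_lit 81) .nil))))))) (.g (nat_lit 4) .nil .nil))) 
(.lf (nat_lit 73017) (.g (nat_lit 2646) (.e (nat_lit 1669) (nat_lit 116) (.e (nat_lit 401457) (nat_lit 13) (.e (nat_lit 483413) (nat_lit 27) (.e (nat_lit 401448) (nat_lit 10) (.e (nat_lit 434200) (nat_lit 18) .nil))))) .nil))))) (.nd (nat_lit 3) (.nd (nat_lit 4) (.nd (nat_lit 5) 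
(.lf (nat_lit 72965) (.g (nat_lit 2522) (.e (nat_lit 1669) (nat_lit 116) (.e (nat_lit 401457) (nat_lit 13) (.e (nat_lit 483413) (nat_lit 27) (.e (nat_lit 401446) (nat_lit 10) (.e (nat_lit 434208) (nat_lit 18) (.e (nat_lit 5982) (nat_lit 326) (.e (nat_lit 996) (nat_lit 81) .nil))))))) (.g (nat_lit 4) .nil .nil))) 
(.lf (nat_lit 72997) (.g (nat_lit 3622) (.e (nat_lit 1669) (nat_lit 116) (.e (nat_lit 401457) (nat_lit 13) (.e (nat_lit 483413) (nat_lit 27) (.e (nat_lit 401447) (nat_lit 10) (.e (nat_lit 434282) (nat_lit 41) (.e (nat_lit 679945) (nat_lit 5) .nil)))))) (.g (nat_lit 4) .nil .nil)))) (.nd (nat_lit 5) 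
(.lf (nat_lit 72981) (.g (nat_lit 3312) (.e (nat_lit 1669) (nat_lit 116) (.e (nat_lit 401457) (nat_lit 13) (.e (nat_lit 483413) (nat_lit 27) (.e (nat_lit 401447) (nat_lit 10) (.e (nat_lit 434203) (nat_lit 18) (.e (nat_lit 5982) (nat_lit 326) (.e (nat_lit 996) (nat_lit 81) .nil))))))) (.g (nat_lit 4) .nil .nil))) 
(.lf (nat_lit 73013) (.g (nat_lit 3493) (.e (nat_lit 1669) (nat_lit 116) (.e (nat_lit 401457) (nat_lit 13) (.e (nat_lit 483413) (nat_lit 27) (.e (nat_lit 401448) (nat_lit 10) (.e (nat_lit 434199) (nat_lit 18) (.e (nat_lit 5985) (nat_lit 326) (.e (nat_lit 1016) (nat_lit 81) .nil))))))) (.g (nat_lit 4) .nil .nil))))) (.nd (nat_lit 4) (.nd (nat_lit 5) 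
(.lf (nat_lit 72973) (.g (nat_lit 3022) (.e (nat_lit 1669) (nat_lit 116) (.e (nat_lit 401457) (nat_lit 13) (.e (nat_lit 483413) (nat_lit 27) (.e (nat_lit 401446) (nat_lit 10) (.e (nat_lit 434282) (nat_lit 41) (.e (nat_lit 679946) (nat_lit 5) .nil)))))) (.g (nat_lit 4) .nil .nil))) 
(.lf (nat_lit 73005) (.g (nat_lit 3653) (.e (nat_lit 1669) (nat_lit 116) (.e (nat_lit 401457) (nat_lit 13) (.e (nat_lit 483413) (nat_lit 27) (.e (nat_lit 401447) (nat_lit 10) (.e (nat_lit 434284) (nat_lit 41) (.e (nat_lit 679943) (nat_lit 5) .nil)))))) (.g (nat_lit 5) .nil .nil)))) (.nd (nat_lit 5) 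
(.lf (nat_lit 72989) (.g (nat_lit 4726) (.e (nat_lit 1669) (nat_lit 116) (.e (nat_lit 401457) (nat_lit 13) (.e (nat_lit 483413) (nat_lit 27) (.e (nat_lit 401447) (nat_lit 10) (.e (nat_lit 434203) (nat_lit 18) (.e (nat_lit 6047) (nat_lit 326) (.e (nat_lit 1014) (nat_lit 81) .nil))))))) (.g (nat_lit 6) .nil .nil))) 
(.lf (nat_lit 73021) (.g (nat_lit 3536) (.e (nat_lit 1669) (nat_lit 116) (.e (nat_lit 401457) (nat_lit 13) (.e (nat_lit 483413) (nat_lit 27) (.e (nat_lit 401448) (nat_lit 10) (.e (nat_lit 434200) (nat_lit 18) (.e (nat_lit 5979) (nat_lit 326) (.e (nat_lit 1016) (nat_lit 81) .nil))))))) (.g (nat_lit 5) .nil .nil))))))) (.nd (nat_lit 2) (.nd (nat_lit 3) (.nd (nat_lit 4) (.nd (nat_lit 5) 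
(.lf (nat_lit 72963) (.g (nat_lit 2446) (.e (nat_lit 1669) (nat_lit 116) (.e (nat_lit 401457) (nat_lit 13) (.e (nat_lit 483413) (nat_lit 27) (.e (nat_lit 401446) (nat_lit 10) (.e (nat_lit 434208) (nat_lit 18) (.e (nat_lit 5979) (nat_lit 326) (.e (nat_lit 1006) (nat_lit 81) .nil))))))) (.g (nat_lit 4) .nil .nil))) 
(.lf (nat_lit 72995) (.g (nat_lit 3430) (.e (nat_lit 1669) (nat_lit 116) (.e (nat_lit 401457) (nat_lit 13) (.e (nat_lit 483413) (nat_lit 27) (.e (nat_lit 401447) (nat_lit 10) (.e (nat_lit 434282) (nat_lit 41) (.e (nat_lit 679943) (nat_lit 5) .nil)))))) (.g (nat_lit 4) .nil .nil)))) (.nd (nat_lit 5) 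
(.lf (nat_lit 72979) (.g (nat_lit 1540) (.e (nat_lit 1669) (nat_lit 116) (.e (nat_lit 401457) (nat_lit 13) (.e (nat_lit 483413) (nat_lit 27) (.e (nat_lit 401447) (nat_lit 10) .nil)))) .nil)) 
(.lf (nat_lit 73011) (.g (nat_lit 3162) (.e (nat_lit 1669) (nat_lit 116) (.e (nat_lit 401457) (nat_lit 13) (.e (nat_lit 483413) (nat_lit 27) (.e (nat_lit 401448) (nat_lit 10) (.e (nat_lit 434199) (nat_lit 18) (.e (nat_lit 5979) (nat_lit 326) (.e (nat_lit 1016) (nat_lit 81) .nil))))))) (.g (nat_lit 4) .nil .nil))))) (.nd (nat_lit 4) (.nd (nat_lit 5) 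
(.lf (nat_lit 72971) (.g (nat_lit 2883) (.e (nat_lit 1669) (nat_lit 116) (.e (nat_lit 401457) (nat_lit 13) (.e (nat_lit 483413) (nat_lit 27) (.e (nat_lit 401446) (nat_lit 10) (.e (nat_lit 434282) (nat_lit 41) (.e (nat_lit 679944) (nat_lit 5) .nil)))))) (.g (nat_lit 4) .nil .nil))) 
(.lf (nat_lit 73003) (.g (nat_lit 3510) (.e (nat_lit 1669) (nat_lit 116) (.e (nat_lit 401457) (nat_lit 13) (.e (nat_lit 483413) (nat_lit 27) (.e (nat_lit 401447) (nat_lit 10) (.e (nat_lit 434283) (nat_lit 41) (.e (nat_lit 679946) (nat_lit 5) .nil)))))) (.g (nat_lit 4) .nil .nil)))) (.nd (nat_lit 5) 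
(.lf (nat_lit 72987) (.g (nat_lit 3801) (.e (nat_lit 1669) (nat_lit 116) (.e (nat_lit 401457) (nat_lit 13) (.e (nat_lit 483413) (nat_lit 27) (.e (nat_lit 401447) (nat_lit 10) (.e (nat_lit 434203) (nat_lit 18) (.e (nat_lit 6047) (nat_lit 326) (.e (nat_lit 994) (nat_lit 81) .nil))))))) (.g (nat_lit 4) .nil .nil))) 
(.lf (nat_lit 73019) (.g (nat_lit 2882) (.e (nat_lit 1669) (nat_lit 116) (.e (nat_lit 401457) (nat_lit 13) (.e (nat_lit 483413) (nat_lit 27) (.e (nat_lit 401448) (nat_lit 10) (.e (nat_lit 434200) (nat_lit 18) (.e (nat_lit 5979) (nat_lit 326) (.e (nat_lit 999) (nat_lit 81) .nil))))))) (.g (nat_lit 4) .nil .nil)))))) (.nd (nat_lit 3) (.nd (nat_lit 4) (.nd (nat_lit 5) 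
(.lf (nat_lit 72967) (.g (nat_lit 3137) (.e (nat_lit 1669) (nat_lit 116) (.e (nat_lit 401457) (nat_lit 13) (.e (nat_lit 483413) (nat_lit 27) (.e (nat_lit 401446) (nat_lit 10) (.e (nat_lit 434208) (nat_lit 18) (.e (nat_lit 6000) (nat_lit 326) (.e (nat_lit 1009) (nat_lit 81) .nil))))))) (.g (nat_lit 4) .nil .nil))) 
(.lf (nat_lit 72999) (.g (nat_lit 3043) (.e (nat_lit 1669) (nat_lit 116) (.e (nat_lit 401457) (nat_lit 13) (.e (nat_lit 483413) (nat_lit 27) (.e (nat_lit 401447) (nat_lit 10) (.e (nat_lit 434283) (nat_lit 41) .nil))))) .nil))) (.nd (nat_lit 5) 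
(.lf (nat_lit 72983) (.g (nat_lit 3476) (.e (nat_lit 1669) (nat_lit 116) (.e (nat_lit 401457) (nat_lit 13) (.e (nat_lit 483413) (nat_lit 27) (.e (nat_lit 401447) (nat_lit 10) (.e (nat_lit 434203) (nat_lit 18) (.e (nat_lit 5985) (nat_lit 326) (.e (nat_lit 996) (nat_lit 81) .nil))))))) (.g (nat_lit 4) .nil .nil))) 
(.lf (nat_lit 73015) (.g (nat_lit 3413) (.e (nat_lit 1669) (nat_lit 116) (.e (nat_lit 401457) (nat_lit 13) (.e (nat_lit 483413) (nat_lit 27) (.e (nat_lit 401448) (nat_lit 10) (.e (nat_lit 434199) (nat_lit 18) (.e (nat_lit 6027) (nat_lit 326) (.e (nat_lit 1006) (nat_lit 81) .nil))))))) (.g (nat_lit 4) .nil .nil))))) (.nd (nat_lit 4) (.nd (nat_lit 5) 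
(.lf (nat_lit 72975) (.g (nat_lit 3713) (.e (nat_lit 1669) (nat_lit 116) (.e (nat_lit 401457) (nat_lit 13) (.e (nat_lit 483413) (nat_lit 27) (.e (nat_lit 401446) (nat_lit 10) (.e (nat_lit 434283) (nat_lit 41) (.e (nat_lit 679944) (nat_lit 5) .nil)))))) (.g (nat_lit 6) .nil .nil))) 
(.lf (nat_lit 73007) (.g (nat_lit 3806) (.e (nat_lit 1669) (nat_lit 116) (.e (nat_lit 401457) (nat_lit 13) (.e (nat_lit 483413) (nat_lit 27) (.e (nat_lit 401447) (nat_lit 10) (.e (nat_lit 434284) (nat_lit 41) (.e (nat_lit 679945) (nat_lit 5) .nil)))))) (.g (nat_lit 5) .nil .nil)))) (.nd (nat_lit 5) 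
(.lf (nat_lit 72991) (.g (nat_lit 3297) (.e (nat_lit 1669) (nat_lit 116) (.e (nat_lit 401457) (nat_lit 13) (.e (nat_lit 483413) (nat_lit 27) (.e (nat_lit 401447) (nat_lit 10) (.e (nat_lit 434205) (nat_lit 18) .nil))))) .nil)) 
(.lf (nat_lit 73023) (.g (nat_lit 3207) (.e (nat_lit 1669) (nat_lit 116) (.e (nat_lit 401457) (nat_lit 13) (.e (nat_lit 483413) (nat_lit 27) (.e (nat_lit 401448) (nat_lit 10) (.e (nat_lit 434200) (nat_lit 18) (.e (nat_lit 5982) (nat_lit 326) (.e (nat_lit 999) (nat_lit 81) .nil))))))) (.g (nat_lit 4) .nil .nil)))))))))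

noncomputable def tv993 : DT := (.nd (nat_lit 0) (.nd (nat_lit 1) (.nd (nat_lit 2) (.nd (nat_lit 3) (.nd (nat_lit 4) (.nd (nat_lit 5) 
(.lf (nat_lit 73024) (.g (nat_lit 2693) (.e (nat_lit 1669) (nat_lit 116) (.e (nat_lit 401457) (nat_lit 13) (.e (nat_lit 483413) (nat_lit 27) (.e (nat_lit 401448) (nat_lit 10) (.e (nat_lit 434200) (nat_lit 18) (.e (nat_lit 5984) (nat_lit 326) (.e (nat_lit 999) (nat_lit 81) .nil))))))) (.g (nat_lit 4) .nil .nil))) 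
(.lf (nat_lit 73056) (.g (nat_lit 3177) (.e (nat_lit 1669) (nat_lit 116) (.e (nat_lit 401457) (nat_lit 13) (.e (nat_lit 483413) (nat_lit 27) (.e (nat_lit 401448) (nat_lit 10) (.e (nat_lit 434202) (nat_lit 18) (.e (nat_lit 5985) (nat_lit 326) (.e (nat_lit 999) (nat_lit 81) .nil))))))) (.g (nat_lit 4) .nil .nil)))) (.nd (nat_lit 5) 
(.lf (nat_lit 73040) (.g (nat_lit 3243) (.e (nat_lit 1669) (nat_lit 116) (.e (nat_lit 401457) (nat_lit 13) (.e (nat_lit 483413) (nat_lit 27) (.e (nat_lit 401448) (nat_lit 10) (.e (nat_lit 434200) (nat_lit 18) (.e (nat_lit 6047) (nat_lit 326) (.e (nat_lit 1014) (nat_lit 81) .nil))))))) (.g (nat_lit 4) .nil .nil))) 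
(.lf (nat_lit 73072) (.g (nat_lit 2846) (.e (nat_lit 1669) (nat_lit 116) (.e (nat_lit 401457) (nat_lit 13) (.e (nat_lit 483413) (nat_lit 27) (.e (nat_lit 401448) (nat_lit 10) (.e (nat_lit 434203) (nat_lit 18) (.e (nat_lit 6047) (nat_lit 326) (.e (nat_lit 994) (nat_lit 81) .nil))))))) (.g (nat_lit 4) .nil .nil))))) (.nd (nat_lit 4) (.nd (nat_lit 5) 
(.lf (nat_lit 73032) (.g (nat_lit 2805) (.e (nat_lit 1669) (nat_lit 116) (.e (nat_lit 401457) (nat_lit 13) (.e (nat_lit 483413) (nat_lit 27) (.e (nat_lit 401448) (nat_lit 10) (.e (nat_lit 434200) (nat_lit 18) (.e (nat_lit 6034) (nat_lit 326) (.e (nat_lit 1011) (nat_lit 81) .nil))))))) (.g (nat_lit 4) .nil .nil))) 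
(.lf (nat_lit 73064) (.g (nat_lit 2758) (.e (nat_lit 1669) (nat_lit 116) (.e (nat_lit 401457) (nat_lit 13) (.e (nat_lit 483413) (nat_lit 27) (.e (nat_lit 401448) (nat_lit 10) (.e (nat_lit 434203) (nat_lit 18) .nil))))) .nil))) (.nd (nat_lit 5) 
(.lf (nat_lit 73048) (.g (nat_lit 2769) (.e (nat_lit 1669) (nat_lit 116) (.e (nat_lit 401457) (nat_lit 13) (.e (nat_lit 483413) (nat_lit 27) (.e (nat_lit 401448) (nat_lit 10) (.e (nat_lit 434201) (nat_lit 18) (.e (nat_lit 5997) (nat_lit 326) (.e (nat_lit 1013) (nat_lit 81) .nil))))))) (.g (nat_lit 4) .nil .nil))) 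
(.lf (nat_lit 73080) (.g (nat_lit 2723) (.e (nat_lit 1669) (nat_lit 116) (.e (nat_lit 401457) (nat_lit 13) (.e (nat_lit 483413) (nat_lit 27) (.e (nat_lit 401448) (nat_lit 10) (.e (nat_lit 434206) (nat_lit 18) (.e (nat_lit 6047) (nat_lit 326) (.e (nat_lit 1008) (nat_lit 81) .nil))))))) (.g (nat_lit 4) .nil .nil)))))) (.nd (nat_lit 3) (.nd (nat_lit 4) (.nd (nat_lit 5) 
(.lf (nat_lit 73028) (.g (nat_lit 2958) (.e (nat_lit 1669) (nat_lit 116) (.e (nat_lit 401457) (nat_lit 13) (.e (nat_lit 483413) (nat_lit 27) (.e (nat_lit 401448) (nat_lit 10) (.e (nat_lit 434200) (nat_lit 18) (.e (nat_lit 5996) (nat_lit 326) (.e (nat_lit 1014) (nat_lit 81) .nil))))))) (.g (nat_lit 4) .nil .nil))) 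
(.lf (nat_lit 73060) (.g (nat_lit 3457) (.e (nat_lit 1669) (nat_lit 116) (.e (nat_lit 401457) (nat_lit 13) (.e (nat_lit 483413) (nat_lit 27) (.e (nat_lit 401448) (nat_lit 10) (.e (nat_lit 434202) (nat_lit 18) (.e (nat_lit 6047) (nat_lit 326) (.e (nat_lit 988) (nat_lit 81) .nil))))))) (.g (nat_lit 4) .nil .nil)))) (.nd (nat_lit 5) 
(.lf (nat_lit 73044) (.g (nat_lit 2803) (.e (nat_lit 1669) (nat_lit 116) (.e (nat_lit 401457) (nat_lit 13) (.e (nat_lit 483413) (nat_lit 27) (.e (nat_lit 401448) (nat_lit 10) (.e (nat_lit 434201) (nat_lit 18) (.e (nat_lit 5995) (nat_lit 326) (.e (nat_lit 995) (nat_lit 81) .nil))))))) (.g (nat_lit 4) .nil .nil))) 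
(.lf (nat_lit 73076) (.g (nat_lit 3737) (.e (nat_lit 1669) (nat_lit 116) (.e (nat_lit 401457) (nat_lit 13) (.e (nat_lit 483413) (nat_lit 27) (.e (nat_lit 401448) (nat_lit 10) (.e (nat_lit 434205) (nat_lit 18) .nil))))) .nil)))) (.nd (nat_lit 4) (.nd (nat_lit 5) 
(.lf (nat_lit 73036) (.g (nat_lit 2810) (.e (nat_lit 1669) (nat_lit 116) (.e (nat_lit 401457) (nat_lit 13) (.e (nat_lit 483413) (nat_lit 27) (.e (nat_lit 401448) (nat_lit 10) (.e (nat_lit 434200) (nat_lit 18) (.e (nat_lit 6040) (nat_lit 326) (.e (nat_lit 1008) (nat_lit 81) .nil))))))) (.g (nat_lit 4) .nil .nil))) 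
(.lf (nat_lit 73068) (.g (nat_lit 3709) (.e (nat_lit 1669) (nat_lit 116) (.e (nat_lit 401457) (nat_lit 13) (.e (nat_lit 483413) (nat_lit 27) (.e (nat_lit 401448) (nat_lit 10) (.e (nat_lit 434203) (nat_lit 18) (.e (nat_lit 5985) (nat_lit 326) (.e (nat_lit 999) (nat_lit 81) .nil))))))) (.g (nat_lit 5) .nil .nil)))) (.nd (nat_lit 5) 
(.lf (nat_lit 73052) (.g (nat_lit 2996) (.e (nat_lit 1669) (nat_lit 116) (.e (nat_lit 401457) (nat_lit 13) (.e (nat_lit 483413) (nat_lit 27) (.e (nat_lit 401448) (nat_lit 10) (.e (nat_lit 434202) (nat_lit 18) .nil))))) .nil)) 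
(.lf (nat_lit 73084) (.g (nat_lit 3034) (.e (nat_lit 1669) (nat_lit 116) (.e (nat_lit 401457) (nat_lit 13) (.e (nat_lit 483413) (nat_lit 27) (.e (nat_lit 401448) (nat_lit 10) (.e (nat_lit 434208) (nat_lit 18) (.e (nat_lit 5979) (nat_lit 326) (.e (nat_lit 1016) (nat_lit 81) .nil))))))) (.g (nat_lit 4) .nil .nil))))))) (.nd (nat_lit 2) (.nd (nat_lit 3) (.nd (nat_lit 4) (.nd (nat_lit 5) 
(.lf (nat_lit 73026) (.g (nat_lit 3661) (.e (nat_lit 1669) (nat_lit 116) (.e (nat_lit 401457) (nat_lit 13) (.e (nat_lit 483413) (nat_lit 27) (.e (nat_lit 401448) (nat_lit 10) (.e (nat_lit 434200) (nat_lit 18) (.e (nat_lit 5985) (nat_lit 326) (.e (nat_lit 1016) (nat_lit 81) .nil))))))) (.g (nat_lit 5) .nil .nil))) 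
(.lf (nat_lit 73058) (.g (nat_lit 3117) (.e (nat_lit 1669) (nat_lit 116) (.e (nat_lit 401457) (nat_lit 13) (.e (nat_lit 483413) (nat_lit 27) (.e (nat_lit 401448) (nat_lit 10) (.e (nat_lit 434202) (nat_lit 18) (.e (nat_lit 5986) (nat_lit 326) (.e (nat_lit 1006) (nat_lit 81) .nil))))))) (.g (nat_lit 4) .nil .nil)))) (.nd (nat_lit 5) 
(.lf (nat_lit 73042) (.g (nat_lit 2611) (.e (nat_lit 1669) (nat_lit 116) (.e (nat_lit 401457) (nat_lit 13) (.e (nat_lit 483413) (nat_lit 27) (.e (nat_lit 401448) (nat_lit 10) (.e (nat_lit 434201) (nat_lit 18) .nil))))) .nil)) 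
(.lf (nat_lit 73074) (.g (nat_lit 3759) (.e (nat_lit 1669) (nat_lit 116) (.e (nat_lit 401457) (nat_lit 13) (.e (nat_lit 483413) (nat_lit 27) (.e (nat_lit 401448) (nat_lit 10) (.e (nat_lit 434203) (nat_lit 18) (.e (nat_lit 6047) (nat_lit 326) (.e (nat_lit 1014) (nat_lit 81) .nil))))))) (.g (nat_lit 5) .nil .nil))))) (.nd (nat_lit 4) (.nd (nat_lit 5) 
(.lf (nat_lit 73034) (.g (nat_lit 2908) (.e (nat_lit 1669) (nat_lit 116) (.e (nat_lit 401457) (nat_lit 13) (.e (nat_lit 483413) (nat_lit 27) (.e (nat_lit 401448) (nat_lit 10) (.e (nat_lit 434200) (nat_lit 18) (.e (nat_lit 6035) (nat_lit 326) (.e (nat_lit 1011) (nat_lit 81) .nil))))))) (.g (nat_lit 4) .nil .nil))) 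
(.lf (nat_lit 73066) (.g (nat_lit 3833) (.e (nat_lit 1669) (nat_lit 116) (.e (nat_lit 401457) (nat_lit 13) (.e (nat_lit 483413) (nat_lit 27) (.e (nat_lit 401448) (nat_lit 10) (.e (nat_lit 434203) (nat_lit 18) (.e (nat_lit 5982) (nat_lit 326) (.e (nat_lit 1016) (nat_lit 81) .nil))))))) (.g (nat_lit 5) .nil .nil)))) (.nd (nat_lit 5) 
(.lf (nat_lit 73050) (.g (nat_lit 2810) (.e (nat_lit 1669) (nat_lit 116) (.e (nat_lit 401457) (nat_lit 13) (.e (nat_lit 483413) (nat_lit 27) (.e (nat_lit 401448) (nat_lit 10) (.e (nat_lit 434201) (nat_lit 18) (.e (nat_lit 6022) (nat_lit 326) (.e (nat_lit 1011) (nat_lit 81) .nil))))))) (.g (nat_lit 4) .nil .nil))) 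
(.lf (nat_lit 73082) (.g (nat_lit 3800) (.e (nat_lit 1669) (nat_lit 116) (.e (nat_lit 401457) (nat_lit 13) (.e (nat_lit 483413) (nat_lit 27) (.e (nat_lit 401448) (nat_lit 10) (.e (nat_lit 434207) (nat_lit 18) .nil))))) .nil))))) (.nd (nat_lit 3) (.nd (nat_lit 4) (.nd (nat_lit 5) 
(.lf (nat_lit 73030) (.g (nat_lit 2927) (.e (nat_lit 1669) (nat_lit 116) (.e (nat_lit 401457) (nat_lit 13) (.e (nat_lit 483413) (nat_lit 27) (.e (nat_lit 401448) (nat_lit 10) (.e (nat_lit 434200) (nat_lit 18) (.e (nat_lit 6000) (nat_lit 326) (.e (nat_lit 1010) (nat_lit 81) .nil))))))) (.g (nat_lit 4) .nil .nil))) 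
(.lf (nat_lit 73062) (.g (nat_lit 3981) (.e (nat_lit 1669) (nat_lit 116) (.e (nat_lit 401457) (nat_lit 13) (.e (nat_lit 483413) (nat_lit 27) (.e (nat_lit 401448) (nat_lit 10) (.e (nat_lit 434202) (nat_lit 18) (.e (nat_lit 6047) (nat_lit 326) (.e (nat_lit 1008) (nat_lit 81) .nil))))))) (.g (nat_lit 5) .nil .nil)))) (.nd (nat_lit 5) 
(.lf (nat_lit 73046) (.g (nat_lit 2691) (.e (nat_lit 1669) (nat_lit 116) (.e (nat_lit 401457) (nat_lit 13) (.e (nat_lit 483413) (nat_lit 27) (.e (nat_lit 401448) (nat_lit 10) (.e (nat_lit 434201) (nat_lit 18) (.e (nat_lit 5996) (nat_lit 326) (.e (nat_lit 1013) (nat_lit 81) .nil))))))) (.g (nat_lit 4) .nil .nil))) 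
(.lf (nat_lit 73078) (.g (nat_lit 2772) (.e (nat_lit 1669) (nat_lit 116) (.e (nat_lit 401457) (nat_lit 13) (.e (nat_lit 483413) (nat_lit 27) (.e (nat_lit 401448) (nat_lit 10) (.e (nat_lit 434206) (nat_lit 18) (.e (nat_lit 5979) (nat_lit 326) (.e (nat_lit 1016) (nat_lit 81) .nil))))))) (.g (nat_lit 4) .nil .nil))))) (.nd (nat_lit 4) (.nd (nat_lit 5) 
(.lf (nat_lit 73038) (.g (nat_lit 3219) (.e (nat_lit 1669) (nat_lit 116) (.e (nat_lit 401457) (nat_lit 13) (.e (nat_lit 483413) (nat_lit 27) (.e (nat_lit 401448) (nat_lit 10) (.e (nat_lit 434200) (nat_lit 18) (.e (nat_lit 6044) (nat_lit 326) (.e (nat_lit 1014) (nat_lit 81) .nil))))))) (.g (nat_lit 4) .nil .nil))) 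
(.lf (nat_lit 73070) (.g (nat_lit 3673) (.e (nat_lit 1669) (nat_lit 116) (.e (nat_lit 401457) (nat_lit 13) (.e (nat_lit 483413) (nat_lit 27) (.e (nat_lit 401448) (nat_lit 10) (.e (nat_lit 434203) (nat_lit 18) (.e (nat_lit 6000) (nat_lit 326) (.e (nat_lit 1011) (nat_lit 81) .nil))))))) (.g (nat_lit 5) .nil .nil)))) (.nd (nat_lit 5) 
(.lf (nat_lit 73054) (.g (nat_lit 3277) (.e (nat_lit 1669) (nat_lit 116) (.e (nat_lit 401457) (nat_lit 13) (.e (nat_lit 483413) (nat_lit 27) (.e (nat_lit 401448) (nat_lit 10) (.e (nat_lit 434202) (nat_lit 18) (.e (nat_lit 5979) (nat_lit 326) (.e (nat_lit 1016) (nat_lit 81) .nil))))))) (.g (nat_lit 4) .nil .nil))) 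
(.lf (nat_lit 73086) (.g (nat_lit 4235) (.e (nat_lit 1669) (nat_lit 116) (.e (nat_lit 401457) (nat_lit 13) (.e (nat_lit 483413) (nat_lit 27) (.e (nat_lit 401448) (nat_lit 10) (.e (nat_lit 434208) (nat_lit 18) (.e (nat_lit 5982) (nat_lit 326) (.e (nat_lit 1016) (nat_lit 81) .nil))))))) (.g (nat_lit 5) .nil .nil)))))))) 
(.nd (nat_lit 1) (.nd (nat_lit 2) (.nd (nat_lit 3) (.nd (nat_lit 4) (.nd (nat_lit 5) 
(.lf (nat_lit 73025) (.g (nat_lit 4185) (.e (nat_lit 1669) (nat_lit 116) (.e (nat_lit 401457) (nat_lit 13) (.e (nat_lit 483413) (nat_lit 27) (.e (nat_lit 401448) (nat_lit 10) (.e (nat_lit 434200) (nat_lit 18) (.e (nat_lit 5984) (nat_lit 326) (.e (nat_lit 1016) (nat_lit 81) .nil))))))) (.g (nat_lit 7) .nil .nil))) 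
(.lf (nat_lit 73057) (.g (nat_lit 3285) (.e (nat_lit 1669) (nat_lit 116) (.e (nat_lit 401457) (nat_lit 13) (.e (nat_lit 483413) (nat_lit 27) (.e (nat_lit 401448) (nat_lit 10) (.e (nat_lit 434202) (nat_lit 18) (.e (nat_lit 5985) (nat_lit 326) (.e (nat_lit 1016) (nat_lit 81) .nil))))))) (.g (nat_lit 4) .nil .nil)))) (.nd (nat_lit 5) 
(.lf (nat_lit 73041) (.g (nat_lit 3483) (.e (nat_lit 1669) (nat_lit 116) (.e (nat_lit 401457) (nat_lit 13) (.e (nat_lit 483413) (nat_lit 27) (.e (nat_lit 401448) (nat_lit 10) (.e (nat_lit 434200) (nat_lit 18) (.e (nat_lit 6048) (nat_lit 326) (.e (nat_lit 1014) (nat_lit 81) .nil))))))) (.g (nat_lit 5) .nil .nil))) 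
(.lf (nat_lit 73073) (.g (nat_lit 3548) (.e (nat_lit 1669) (nat_lit 116) (.e (nat_lit 401457) (nat_lit 13) (.e (nat_lit 483413) (nat_lit 27) (.e (nat_lit 401448) (nat_lit 10) (.e (nat_lit 434203) (nat_lit 18) (.e (nat_lit 6047) (nat_lit 326) (.e (nat_lit 1008) (nat_lit 81) .nil))))))) (.g (nat_lit 5) .nil .nil))))) (.nd (nat_lit 4) (.nd (nat_lit 5) 
(.lf (nat_lit 73033) (.g (nat_lit 2703) (.e (nat_lit 1669) (nat_lit 116) (.e (nat_lit 401457) (nat_lit 13) (.e (nat_lit 483413) (nat_lit 27) (.e (nat_lit 401448) (nat_lit 10) (.e (nat_lit 434200) (nat_lit 18) (.e (nat_lit 6035) (nat_lit 326) (.e (nat_lit 1010) (nat_lit 81) .nil))))))) (.g (nat_lit 4) .nil .nil))) 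
(.lf (nat_lit 73065) (.g (nat_lit 2873) (.e (nat_lit 1669) (nat_lit 116) (.e (nat_lit 401457) (nat_lit 13) (.e (nat_lit 483413) (nat_lit 27) (.e (nat_lit 401448) (nat_lit 10) (.e (nat_lit 434203) (nat_lit 18) (.e (nat_lit 5982) (nat_lit 326) (.e (nat_lit 999) (nat_lit 81) .nil))))))) (.g (nat_lit 4) .nil .nil)))) (.nd (nat_lit 5) 
(.lf (nat_lit 73049) (.g (nat_lit 3425) (.e (nat_lit 1669) (nat_lit 116) (.e (nat_lit 401457) (nat_lit 13) (.e (nat_lit 483413) (nat_lit 27) (.e (nat_lit 401448) (nat_lit 10) (.e (nat_lit 434201) (nat_lit 18) (.e (nat_lit 5997) (nat_lit 326) (.e (nat_lit 1014) (nat_lit 81) .nil))))))) (.g (nat_lit 5) .nil .nil))) 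
(.lf (nat_lit 73081) (.g (nat_lit 2935) (.e (nat_lit 1669) (nat_lit 116) (.e (nat_lit 401457) (nat_lit 13) (.e (nat_lit 483413) (nat_lit 27) (.e (nat_lit 401448) (nat_lit 10) (.e (nat_lit 434206) (nat_lit 18) (.e (nat_lit 6047) (nat_lit 326) (.e (nat_lit 1014) (nat_lit 81) .nil))))))) (.g (nat_lit 4) .nil .nil)))))) (.nd (nat_lit 3) (.nd (nat_lit 4) (.nd (nat_lit 5) 
(.lf (nat_lit 73029) (.g (nat_lit 3036) (.e (nat_lit 1669) (nat_lit 116) (.e (nat_lit 401457) (nat_lit 13) (.e (nat_lit 483413) (nat_lit 27) (.e (nat_lit 401448) (nat_lit 10) (.e (nat_lit 434200) (nat_lit 18) (.e (nat_lit 5997) (nat_lit 326) (.e (nat_lit 1014) (nat_lit 81) .nil))))))) (.g (nat_lit 4) .nil .nil))) 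
(.lf (nat_lit 73061) (.g (nat_lit 3268) (.e (nat_lit 1669) (nat_lit 116) (.e (nat_lit 401457) (nat_lit 13) (.e (nat_lit 483413) (nat_lit 27) (.e (nat_lit 401448) (nat_lit 10) (.e (nat_lit 434202) (nat_lit 18) (.e (nat_lit 6047) (nat_lit 326) (.e (nat_lit 994) (nat_lit 81) .nil))))))) (.g (nat_lit 4) .nil .nil)))) (.nd (nat_lit 5) 
(.lf (nat_lit 73045) (.g (nat_lit 2763) (.e (nat_lit 1669) (nat_lit 116) (.e (nat_lit 401457) (nat_lit 13) (.e (nat_lit 483413) (nat_lit 27) (.e (nat_lit 401448) (nat_lit 10) (.e (nat_lit 434201) (nat_lit 18) (.e (nat_lit 5995) (nat_lit 326) (.e (nat_lit 1012) (nat_lit 81) .nil))))))) (.g (nat_lit 4) .nil .nil))) 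
(.lf (nat_lit 73077) (.g (nat_lit 2600) (.e (nat_lit 1669) (nat_lit 116) (.e (nat_lit 401457) (nat_lit 13) (.e (nat_lit 483413) (nat_lit 27) (.e (nat_lit 401448) (nat_lit 10) (.e (nat_lit 434206) (nat_lit 18) .nil))))) .nil)))) (.nd (nat_lit 4) (.nd (nat_lit 5) 
(.lf (nat_lit 73037) (.g (nat_lit 4010) (.e (nat_lit 1669) (nat_lit 116) (.e (nat_lit 401457) (nat_lit 13) (.e (nat_lit 483413) (nat_lit 27) (.e (nat_lit 401448) (nat_lit 10) (.e (nat_lit 434200) (nat_lit 18) (.e (nat_lit 6040) (nat_lit 326) (.e (nat_lit 1014) (nat_lit 81) .nil))))))) (.g (nat_lit 7) .nil .nil))) 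
(.lf (nat_lit 73069) (.g (nat_lit 3817) (.e (nat_lit 1669) (nat_lit 116) (.e (nat_lit 401457) (nat_lit 13) (.e (nat_lit 483413) (nat_lit 27) (.e (nat_lit 401448) (nat_lit 10) (.e (nat_lit 434203) (nat_lit 18) (.e (nat_lit 5985) (nat_lit 326) (.e (nat_lit 1016) (nat_lit 81) .nil))))))) (.g (nat_lit 5) .nil .nil)))) (.nd (nat_lit 5) 
(.lf (nat_lit 73053) (.g (nat_lit 3076) (.e (nat_lit 1669) (nat_lit 116) (.e (nat_lit 401457) (nat_lit 13) (.e (nat_lit 483413) (nat_lit 27) (.e (nat_lit 401448) (nat_lit 10) (.e (nat_lit 434202) (nat_lit 18) (.e (nat_lit 5979) (nat_lit 326) (.e (nat_lit 1006) (nat_lit 81) .nil))))))) (.g (nat_lit 4) .nil .nil))) 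
(.lf (nat_lit 73085) (.g (nat_lit 3316) (.e (nat_lit 1669) (nat_lit 116) (.e (nat_lit 401457) (nat_lit 13) (.e (nat_lit 483413) (nat_lit 27) (.e (nat_lit 401448) (nat_lit 10) (.e (nat_lit 434208) (nat_lit 18) (.e (nat_lit 5982) (nat_lit 326) (.e (nat_lit 999) (nat_lit 81) .nil))))))) (.g (nat_lit 4) .nil .nil))))))) (.nd (nat_lit 2) (.nd (nat_lit 3) (.nd (nat_lit 4) (.nd (nat_lit 5) 
(.lf (nat_lit 73027) (.g (nat_lit 3264) (.e (nat_lit 1669) (nat_lit 116) (.e (nat_lit 401457) (nat_lit 13) (.e (nat_lit 483413) (nat_lit 27) (.e (nat_lit 401448) (nat_lit 10) (.e (nat_lit 434200) (nat_lit 18) (.e (nat_lit 5986) (nat_lit 326) (.e (nat_lit 1006) (nat_lit 81) .nil))))))) (.g (nat_lit 4) .nil .nil))) 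
(.lf (nat_lit 73059) (.g (nat_lit 3151) (.e (nat_lit 1669) (nat_lit 116) (.e (nat_lit 401457) (nat_lit 13) (.e (nat_lit 483413) (nat_lit 27) (.e (nat_lit 401448) (nat_lit 10) (.e (nat_lit 434202) (nat_lit 18) (.e (nat_lit 6047) (nat_lit 326) (.e (nat_lit 982) (nat_lit 81) .nil))))))) (.g (nat_lit 4) .nil .nil)))) (.nd (nat_lit 5) 
(.lf (nat_lit 73043) (.g (nat_lit 2776) (.e (nat_lit 1669) (nat_lit 116) (.e (nat_lit 401457) (nat_lit 13) (.e (nat_lit 483413) (nat_lit 27) (.e (nat_lit 401448) (nat_lit 10) (.e (nat_lit 434201) (nat_lit 18) (.e (nat_lit 5994) (nat_lit 326) (.e (nat_lit 1016) (nat_lit 81) .nil))))))) (.g (nat_lit 4) .nil .nil))) 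
(.lf (nat_lit 73075) (.g (nat_lit 3797) (.e (nat_lit 1669) (nat_lit 116) (.e (nat_lit 401457) (nat_lit 13) (.e (nat_lit 483413) (nat_lit 27) (.e (nat_lit 401448) (nat_lit 10) (.e (nat_lit 434204) (nat_lit 18) .nil))))) .nil)))) (.nd (nat_lit 4) (.nd (nat_lit 5) 
(.lf (nat_lit 73035) (.g (nat_lit 2790) (.e (nat_lit 1669) (nat_lit 116) (.e (nat_lit 401457) (nat_lit 13) (.e (nat_lit 483413) (nat_lit 27) (.e (nat_lit 401448) (nat_lit 10) (.e (nat_lit 434200) (nat_lit 18) (.e (nat_lit 6037) (nat_lit 326) (.e (nat_lit 1011) (nat_lit 81) .nil))))))) (.g (nat_lit 4) .nil .nil))) 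
(.lf (nat_lit 73067) (.g (nat_lit 3627) (.e (nat_lit 1669) (nat_lit 116) (.e (nat_lit 401457) (nat_lit 13) (.e (nat_lit 483413) (nat_lit 27) (.e (nat_lit 401448) (nat_lit 10) (.e (nat_lit 434203) (nat_lit 18) (.e (nat_lit 5984) (nat_lit 326) (.e (nat_lit 1016) (nat_lit 81) .nil))))))) (.g (nat_lit 5) .nil .nil)))) (.nd (nat_lit 5) 
(.lf (nat_lit 73051) (.g (nat_lit 3767) (.e (nat_lit 1669) (nat_lit 116) (.e (nat_lit 401457) (nat_lit 13) (.e (nat_lit 483413) (nat_lit 27) (.e (nat_lit 401448) (nat_lit 10) (.e (nat_lit 434201) (nat_lit 18) (.e (nat_lit 6040) (nat_lit 326) (.e (nat_lit 1014) (nat_lit 81) .nil))))))) (.g (nat_lit 7) .nil .nil))) 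
(.lf (nat_lit 73083) (.g (nat_lit 2932) (.e (nat_lit 1669) (nat_lit 116) (.e (nat_lit 401457) (nat_lit 13) (.e (nat_lit 483413) (nat_lit 27) (.e (nat_lit 401448) (nat_lit 10) (.e (nat_lit 434208) (nat_lit 18) .nil))))) .nil))))) (.nd (nat_lit 3) (.nd (nat_lit 4) (.nd (nat_lit 5) 
(.lf (nat_lit 73031) (.g (nat_lit 2941) (.e (nat_lit 1669) (nat_lit 116) (.e (nat_lit 401457) (nat_lit 13) (.e (nat_lit 483413) (nat_lit 27) (.e (nat_lit 401448) (nat_lit 10) (.e (nat_lit 434200) (nat_lit 18) (.e (nat_lit 6000) (nat_lit 326) (.e (nat_lit 1011) (nat_lit 81) .nil))))))) (.g (nat_lit 4) .nil .nil))) 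
(.lf (nat_lit 73063) (.g (nat_lit 4176) (.e (nat_lit 1669) (nat_lit 116) (.e (nat_lit 401457) (nat_lit 13) (.e (nat_lit 483413) (nat_lit 27) (.e (nat_lit 401448) (nat_lit 10) (.e (nat_lit 434202) (nat_lit 18) (.e (nat_lit 6047) (nat_lit 326) (.e (nat_lit 1014) (nat_lit 81) .nil))))))) (.g (nat_lit 5) .nil .nil)))) (.nd (nat_lit 5) 
(.lf (nat_lit 73047) (.g (nat_lit 3347) (.e (nat_lit 1669) (nat_lit 116) (.e (nat_lit 401457) (nat_lit 13) (.e (nat_lit 483413) (nat_lit 27) (.e (nat_lit 401448) (nat_lit 10) (.e (nat_lit 434201) (nat_lit 18) (.e (nat_lit 5996) (nat_lit 326) (.e (nat_lit 1014) (nat_lit 81) .nil))))))) (.g (nat_lit 5) .nil .nil))) 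
(.lf (nat_lit 73079) (.g (nat_lit 2829) (.e (nat_lit 1669) (nat_lit 116) (.e (nat_lit 401457) (nat_lit 13) (.e (nat_lit 483413) (nat_lit 27) (.e (nat_lit 401448) (nat_lit 10) (.e (nat_lit 434206) (nat_lit 18) (.e (nat_lit 5988) (nat_lit 326) (.e (nat_lit 1006) (nat_lit 81) .nil))))))) (.g (nat_lit 4) .nil .nil))))) (.nd (nat_lit 4) (.nd (nat_lit 5) 
(.lf (nat_lit 73039) (.g (nat_lit 3031) (.e (nat_lit 1669) (nat_lit 116) (.e (nat_lit 401457) (nat_lit 13) (.e (nat_lit 483413) (nat_lit 27) (.e (nat_lit 401448) (nat_lit 10) (.e (nat_lit 434200) (nat_lit 18) (.e (nat_lit 6047) (nat_lit 326) (.e (nat_lit 1008) (nat_lit 81) .nil))))))) (.g (nat_lit 4) .nil .nil))) 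
(.lf (nat_lit 73071) (.g (nat_lit 3035) (.e (nat_lit 1669) (nat_lit 116) (.e (nat_lit 401457) (nat_lit 13) (.e (nat_lit 483413) (nat_lit 27) (.e (nat_lit 401448) (nat_lit 10) (.e (nat_lit 434203) (nat_lit 18) (.e (nat_lit 6047) (nat_lit 326) (.e (nat_lit 988) (nat_lit 81) .nil))))))) (.g (nat_lit 4) .nil .nil)))) (.nd (nat_lit 5) 
(.lf (nat_lit 73055) (.g (nat_lit 3876) (.e (nat_lit 1669) (nat_lit 116) (.e (nat_lit 401457) (nat_lit 13) (.e (nat_lit 483413) (nat_lit 27) (.e (nat_lit 401448) (nat_lit 10) (.e (nat_lit 434202) (nat_lit 18) (.e (nat_lit 5984) (nat_lit 326) (.e (nat_lit 1016) (nat_lit 81) .nil))))))) (.g (nat_lit 5) .nil .nil))) 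
(.lf (nat_lit 73087) (.g (nat_lit 3477) (.e (nat_lit 1669) (nat_lit 116) (.e (nat_lit 401457) (nat_lit 13) (.e (nat_lit 483413) (nat_lit 27) (.e (nat_lit 401448) (nat_lit 10) (.e (nat_lit 434208) (nat_lit 18) (.e (nat_lit 6000) (nat_lit 326) (.e (nat_lit 1009) (nat_lit 81) .nil))))))) (.g (nat_lit 4) .nil .nil)))))))))

noncomputable def tv994 : DT := (.nd (nat_lit 0) (.nd (nat_lit 1) (.nd (nat_lit 2) (.nd (nat_lit 3) (.nd (nat_lit 4) (.nd (nat_lit 5) (.nd (nat_lit 6) 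
(.lf (nat_lit 73088) (.g (nat_lit 3304) (.e (nat_lit 1669) (nat_lit 116) (.e (nat_lit 401457) (nat_lit 13) (.e (nat_lit 483413) (nat_lit 27) (.e (nat_lit 401448) (nat_lit 10) (.e (nat_lit 434209) (nat_lit 18) .nil))))) .nil)) 
(.lf (nat_lit 73152) (.g (nat_lit 3367) (.e (nat_lit 1669) (nat_lit 116) (.e (nat_lit 401459) (nat_lit 13) (.e (nat_lit 483372) (nat_lit 21) (.e (nat_lit 319505) (nat_lit 10) .nil)))) .nil))) (.nd (nat_lit 6) 
(.lf (nat_lit 73120) (.g (nat_lit 1698) (.e (nat_lit 1669) (nat_lit 116) (.e (nat_lit 401459) (nat_lit 13) (.e (nat_lit 483337) (nat_lit 9) (.e (nat_lit 433920) (nat_lit 20) .nil)))) .nil)) 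
(.lf (nat_lit 73184) (.g (nat_lit 2380) (.e (nat_lit 1670) (nat_lit 116) (.e (nat_lit 401453) (nat_lit 12) (.e (nat_lit 475207) (nat_lit 41) (.e (nat_lit 712755) (nat_lit 30) (.e (nat_lit 450597) (nat_lit 17) (.e (nat_lit 663555) (nat_lit 0) .nil)))))) (.g (nat_lit 0) .nil .nil))))) (.nd (nat_lit 5) (.nd (nat_lit 6) 
(.lf (nat_lit 73104) (.g (nat_lit 3515) (.e (nat_lit 1669) (nat_lit 116) (.e (nat_lit 401457) (nat_lit 13) (.e (nat_lit 483413) (nat_lit 27) (.e (nat_lit 401448) (nat_lit 10) (.e (nat_lit 434284) (nat_lit 41) (.e (nat_lit 679944) (nat_lit 5) .nil)))))) (.g (nat_lit 5) .nil .nil))) 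
(.lf (nat_lit 73168) (.g (nat_lit 3154) (.e (nat_lit 1669) (nat_lit 116) (.e (nat_lit 401459) (nat_lit 13) (.e (nat_lit 483410) (nat_lit 27) (.e (nat_lit 401454) (nat_lit 12) (.e (nat_lit 483072) (nat_lit 8) .nil))))) .nil))) (.nd (nat_lit 6) 
(.lf (nat_lit 73136) (.g (nat_lit 2865) (.e (nat_lit 1669) (nat_lit 116) (.e (nat_lit 401459) (nat_lit 13) (.e (nat_lit 483363) (nat_lit 18) (.e (nat_lit 57692) (nat_lit 156) (.e (nat_lit 163905) (nat_lit 12) (.e (nat_lit 425986) (nat_lit 0) (.e (nat_lit 3309) (nat_lit 202) (.e (nat_lit 573456) (nat_lit 9) .nil)))))))) (.g (nat_lit 4) .nil .nil))) 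
(.lf (nat_lit 73200) (.g (nat_lit 2865) (.e (nat_lit 1671) (nat_lit 116) (.e (nat_lit 401437) (nat_lit 9) (.e (nat_lit 426402) (nat_lit 15) (.e (nat_lit 1848) (nat_lit 124) (.e (nat_lit 557108) (nat_lit 15) (.e (nat_lit 188458) (nat_lit 25) (.e (nat_lit 245784) (nat_lit 9) .nil))))))) (.g (nat_lit 6) .nil .nil)))))) (.nd (nat_lit 4) (.nd (nat_lit 5) (.nd (nat_lit 6) 
(.lf (nat_lit 73096) (.g (nat_lit 3700) (.e (nat_lit 1669) (nat_lit 116) (.e (nat_lit 401457) (nat_lit 13) (.e (nat_lit 483413) (nat_lit 27) (.e (nat_lit 401448) (nat_lit 10) (.e (nat_lit 434211) (nat_lit 18) (.e (nat_lit 6033) (nat_lit 326) (.e (nat_lit 1011) (nat_lit 81) .nil))))))) (.g (nat_lit 4) .nil .nil))) 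
(.lf (nat_lit 73160) (.g (nat_lit 3110) (.e (nat_lit 1669) (nat_lit 116) (.e (nat_lit 401459) (nat_lit 13) (.e (nat_lit 483372) (nat_lit 21) (.e (nat_lit 319533) (nat_lit 16) .nil)))) .nil))) (.nd (nat_lit 6) 
(.lf (nat_lit 73128) (.g (nat_lit 625) (.e (nat_lit 1669) (nat_lit 116) (.e (nat_lit 401459) (nat_lit 13) (.e (nat_lit 483354) (nat_lit 17) .nil))) .nil)) 
(.lf (nat_lit 73192) (.g (nat_lit 978) (.e (nat_lit 1670) (nat_lit 116) (.e (nat_lit 401459) (nat_lit 13) (.e (nat_lit 483372) (nat_lit 21) .nil))) .nil)))) (.nd (nat_lit 5) (.nd (nat_lit 6) 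
(.lf (nat_lit 73112) (.g (nat_lit 825) (.e (nat_lit 1669) (nat_lit 116) (.e (nat_lit 401458) (nat_lit 13) (.e (nat_lit 483365) (nat_lit 18) .nil))) .nil)) 
(.lf (nat_lit 73176) (.g (nat_lit 2650) (.e (nat_lit 1669) (nat_lit 116) (.e (nat_lit 401473) (nat_lit 29) (.e (nat_lit 352310) (nat_lit 22) (.e (nat_lit 90160) (nat_lit 11) (.e (nat_lit 24584) (nat_lit 0) (.e (nat_lit 1994) (nat_lit 137) (.e (nat_lit 663554) (nat_lit 0) .nil))))))) (.g (nat_lit 5) .nil .nil)))) (.nd (nat_lit 6) 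
(.lf (nat_lit 73144) (.g (nat_lit 4081) (.e (nat_lit 1669) (nat_lit 116) (.e (nat_lit 401459) (nat_lit 13) (.e (nat_lit 483364) (nat_lit 18) (.e (nat_lit 57691) (nat_lit 156) (.e (nat_lit 163916) (nat_lit 13) (.e (nat_lit 434247) (nat_lit 28) (.e (nat_lit 573456) (nat_lit 9) .nil))))))) (.g (nat_lit 6) .nil .nil))) 
(.lf (nat_lit 73208) (.g (nat_lit 7006) (.e (nat_lit 1671) (nat_lit 116) (.e (nat_lit 401451) (nat_lit 12) (.e (nat_lit 475183) (nat_lit 29) (.e (nat_lit 557109) (nat_lit 15) (.e (nat_lit 188458) (nat_lit 25) (.e (nat_lit 245784) (nat_lit 9) .nil)))))) (.g (nat_lit 6) .nil .nil))))))) (.nd (nat_lit 3) (.nd (nat_lit 4) (.nd (nat_lit 5) (.nd (nat_lit 6) 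
(.lf (nat_lit 73092) (.g (nat_lit 3795) (.e (nat_lit 1669) (nat_lit 116) (.e (nat_lit 401457) (nat_lit 13) (.e (nat_lit 483413) (nat_lit 27) (.e (nat_lit 401448) (nat_lit 10) (.e (nat_lit 434209) (nat_lit 18) (.e (nat_lit 6036) (nat_lit 326) (.e (nat_lit 1010) (nat_lit 81) .nil))))))) (.g (nat_lit 4) .nil .nil))) 
(.lf (nat_lit 73156) (.g (nat_lit 3542) (.e (nat_lit 1669) (nat_lit 116) (.e (nat_lit 401459) (nat_lit 13) (.e (nat_lit 483372) (nat_lit 21) (.e (nat_lit 319528) (nat_lit 16) .nil)))) .nil))) (.nd (nat_lit 6) 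
(.lf (nat_lit 73124) (.g (nat_lit 1619) (.e (nat_lit 1669) (nat_lit 116) (.e (nat_lit 401459) (nat_lit 13) (.e (nat_lit 483344) (nat_lit 17) (.e (nat_lit 7936) (nat_lit 153) .nil)))) .nil)) 
(.lf (nat_lit 73188) (.g (nat_lit 2595) (.e (nat_lit 1670) (nat_lit 116) (.e (nat_lit 401454) (nat_lit 12) (.e (nat_lit 475207) (nat_lit 41) (.e (nat_lit 712755) (nat_lit 30) (.e (nat_lit 450597) (nat_lit 17) (.e (nat_lit 663555) (nat_lit 0) .nil)))))) (.g (nat_lit 5) .nil .nil))))) (.nd (nat_lit 5) (.nd (nat_lit 6) 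
(.lf (nat_lit 73108) (.g (nat_lit 638) (.e (nat_lit 1669) (nat_lit 116) (.e (nat_lit 401458) (nat_lit 13) (.e (nat_lit 483350) (nat_lit 17) .nil))) .nil)) 
(.lf (nat_lit 73172) (.g (nat_lit 2682) (.e (nat_lit 1669) (nat_lit 116) (.e (nat_lit 401459) (nat_lit 13) (.e (nat_lit 483411) (nat_lit 27) (.e (nat_lit 401451) (nat_lit 12) (.e (nat_lit 483072) (nat_lit 8) .nil))))) (.g (nat_lit 4) .nil .nil)))) (.nd (nat_lit 6) 
(.lf (nat_lit 73140) (.g (nat_lit 2512) (.e (nat_lit 1669) (nat_lit 116) (.e (nat_lit 401459) (nat_lit 13) (.e (nat_lit 483364) (nat_lit 18) (.e (nat_lit 57685) (nat_lit 156) (.e (nat_lit 163916) (nat_lit 13) (.e (nat_lit 434247) (nat_lit 28) (.e (nat_lit 573456) (nat_lit 9) .nil))))))) (.g (nat_lit 4) .nil .nil))) 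
(.lf (nat_lit 73204) (.g (nat_lit 3085) (.e (nat_lit 1671) (nat_lit 116) (.e (nat_lit 401448) (nat_lit 10) (.e (nat_lit 434231) (nat_lit 23) (.e (nat_lit 532490) (nat_lit 0) (.e (nat_lit 7936) (nat_lit 362) .nil))))) .nil))))) (.nd (nat_lit 4) (.nd (nat_lit 5) (.nd (nat_lit 6) 
(.lf (nat_lit 73100) (.g (nat_lit 3028) (.e (nat_lit 1669) (nat_lit 116) (.e (nat_lit 401457) (nat_lit 13) (.e (nat_lit 483413) (nat_lit 27) (.e (nat_lit 401448) (nat_lit 10) (.e (nat_lit 434283) (nat_lit 41) (.e (nat_lit 679942) (nat_lit 5) .nil)))))) (.g (nat_lit 4) .nil .nil))) 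
(.lf (nat_lit 73164) (.g (nat_lit 2882) (.e (nat_lit 1669) (nat_lit 116) (.e (nat_lit 401459) (nat_lit 13) (.e (nat_lit 483403) (nat_lit 26) (.e (nat_lit 385115) (nat_lit 53) .nil)))) .nil))) (.nd (nat_lit 6) 
(.lf (nat_lit 73132) (.g (nat_lit 2684) (.e (nat_lit 1669) (nat_lit 116) (.e (nat_lit 401459) (nat_lit 13) (.e (nat_lit 483363) (nat_lit 18) (.e (nat_lit 57688) (nat_lit 156) (.e (nat_lit 163917) (nat_lit 13) (.e (nat_lit 434248) (nat_lit 28) (.e (nat_lit 573449) (nat_lit 9) .nil))))))) (.g (nat_lit 4) .nil .nil))) 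
(.lf (nat_lit 73196) (.g (nat_lit 1449) (.e (nat_lit 1671) (nat_lit 116) (.e (nat_lit 401434) (nat_lit 9) (.e (nat_lit 426140) (nat_lit 3) (.e (nat_lit 204821) (nat_lit 17) .nil)))) .nil)))) (.nd (nat_lit 5) (.nd (nat_lit 6) 
(.lf (nat_lit 73116) (.g (nat_lit 669) (.e (nat_lit 1669) (nat_lit 116) (.e (nat_lit 401459) (nat_lit 13) (.e (nat_lit 483333) (nat_lit 0) .nil))) .nil)) 
(.lf (nat_lit 73180) (.g (nat_lit 1576) (.e (nat_lit 1669) (nat_lit 116) (.e (nat_lit 401473) (nat_lit 29) (.e (nat_lit 352315) (nat_lit 23) (.e (nat_lit 98313) (nat_lit 9) (.e (nat_lit 335906) (nat_lit 0) (.e (nat_lit 1994) (nat_lit 137) (.e (nat_lit 663554) (nat_lit 0) .nil))))))) (.g (nat_lit 4) .nil .nil)))) (.nd (nat_lit 6) 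
(.lf (nat_lit 73148) (.g (nat_lit 2494) (.e (nat_lit 1669) (nat_lit 116) (.e (nat_lit 401459) (nat_lit 13) (.e (nat_lit 483364) (nat_lit 18) (.e (nat_lit 57692) (nat_lit 156) (.e (nat_lit 171776) (nat_lit 13) (.e (nat_lit 434247) (nat_lit 28) (.e (nat_lit 573456) (nat_lit 9) .nil))))))) (.g (nat_lit 4) .nil .nil))) 
(.lf (nat_lit 73212) (.g (nat_lit 830) (.e (nat_lit 1671) (nat_lit 116) (.e (nat_lit 401453) (nat_lit 12) (.e (nat_lit 475183) (nat_lit 29) .nil))) .nil))))))) (.nd (nat_lit 2) (.nd (nat_lit 3) (.nd (nat_lit 4) (.nd (nat_lit 5) (.nd (nat_lit 6) 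
(.lf (nat_lit 73090) (.g (nat_lit 3646) (.e (nat_lit 1669) (nat_lit 116) (.e (nat_lit 401457) (nat_lit 13) (.e (nat_lit 483413) (nat_lit 27) (.e (nat_lit 401448) (nat_lit 10) (.e (nat_lit 434209) (nat_lit 18) (.e (nat_lit 6028) (nat_lit 326) (.e (nat_lit 1006) (nat_lit 81) .nil))))))) (.g (nat_lit 4) .nil .nil))) 
(.lf (nat_lit 73154) (.g (nat_lit 3601) (.e (nat_lit 1669) (nat_lit 116) (.e (nat_lit 401459) (nat_lit 13) (.e (nat_lit 483372) (nat_lit 21) (.e (nat_lit 319511) (nat_lit 10) (.e (nat_lit 5629) (nat_lit 312) .nil))))) .nil))) (.nd (nat_lit 6) 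
(.lf (nat_lit 73122) (.g (nat_lit 483) (.e (nat_lit 1669) (nat_lit 116) (.e (nat_lit 401459) (nat_lit 13) (.e (nat_lit 483344) (nat_lit 17) .nil))) .nil)) 
(.lf (nat_lit 73186) (.g (nat_lit 2567) (.e (nat_lit 1670) (nat_lit 116) (.e (nat_lit 401454) (nat_lit 12) (.e (nat_lit 475183) (nat_lit 29) (.e (nat_lit 557108) (nat_lit 15) (.e (nat_lit 188458) (nat_lit 25) .nil))))) .nil)))) (.nd (nat_lit 5) (.nd (nat_lit 6) 
(.lf (nat_lit 73106) (.g (nat_lit 3819) (.e (nat_lit 1669) (nat_lit 116) (.e (nat_lit 401457) (nat_lit 13) (.e (nat_lit 483413) (nat_lit 27) (.e (nat_lit 401448) (nat_lit 10) (.e (nat_lit 434284) (nat_lit 41) (.e (nat_lit 679946) (nat_lit 5) .nil)))))) (.g (nat_lit 0) .nil .nil))) 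
(.lf (nat_lit 73170) (.g (nat_lit 529) (.e (nat_lit 1669) (nat_lit 116) (.e (nat_lit 401459) (nat_lit 13) (.e (nat_lit 483411) (nat_lit 27) .nil))) .nil))) (.nd (nat_lit 6) 
(.lf (nat_lit 73138) (.g (nat_lit 5442) (.e (nat_lit 1669) (nat_lit 116) (.e (nat_lit 401459) (nat_lit 13) (.e (nat_lit 483363) (nat_lit 18) (.e (nat_lit 57692) (nat_lit 156) (.e (nat_lit 163907) (nat_lit 12) (.e (nat_lit 425986) (nat_lit 0) (.e (nat_lit 3309) (nat_lit 202) (.e (nat_lit 573456) (nat_lit 9) .nil)))))))) (.g (nat_lit 8) .nil .nil))) 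
(.lf (nat_lit 73202) (.g (nat_lit 3580) (.e (nat_lit 1671) (nat_lit 116) (.e (nat_lit 401437) (nat_lit 9) (.e (nat_lit 426402) (nat_lit 15) (.e (nat_lit 1849) (nat_lit 124) (.e (nat_lit 557109) (nat_lit 15) (.e (nat_lit 188458) (nat_lit 25) (.e (nat_lit 245784) (nat_lit 9) .nil))))))) (.g (nat_lit 6) .nil .nil)))))) (.nd (nat_lit 4) (.nd (nat_lit 5) (.nd (nat_lit 6) 
(.lf (nat_lit 73098) (.g (nat_lit 3588) (.e (nat_lit 1669) (nat_lit 116) (.e (nat_lit 401457) (nat_lit 13) (.e (nat_lit 483413) (nat_lit 27) (.e (nat_lit 401448) (nat_lit 10) (.e (nat_lit 434282) (nat_lit 41) (.e (nat_lit 679943) (nat_lit 5) .nil)))))) (.g (nat_lit 5) .nil .nil))) 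
(.lf (nat_lit 73162) (.g (nat_lit 4867) (.e (nat_lit 1669) (nat_lit 116) (.e (nat_lit 401459) (nat_lit 13) (.e (nat_lit 483372) (nat_lit 21) (.e (nat_lit 319534) (nat_lit 16) (.e (nat_lit 286764) (nat_lit 15) .nil))))) .nil))) (.nd (nat_lit 6) 
(.lf (nat_lit 73130) (.g (nat_lit 4617) (.e (nat_lit 1669) (nat_lit 116) (.e (nat_lit 401459) (nat_lit 13) (.e (nat_lit 483363) (nat_lit 18) (.e (nat_lit 57688) (nat_lit 156) (.e (nat_lit 163907) (nat_lit 12) (.e (nat_lit 425986) (nat_lit 0) (.e (nat_lit 3309) (nat_lit 202) (.e (nat_lit 573456) (nat_lit 9) .nil)))))))) (.g (nat_lit 5) .nil .nil))) 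
(.lf (nat_lit 73194) (.g (nat_lit 1396) (.e (nat_lit 1670) (nat_lit 116) (.e (nat_lit 401459) (nat_lit 13) (.e (nat_lit 483411) (nat_lit 27) .nil))) .nil)))) (.nd (nat_lit 5) (.nd (nat_lit 6) 
(.lf (nat_lit 73114) (.g (nat_lit 2578) (.e (nat_lit 1669) (nat_lit 116) (.e (nat_lit 401458) (nat_lit 13) (.e (nat_lit 483365) (nat_lit 18) (.e (nat_lit 57666) (nat_lit 152) (.e (nat_lit 2638) (nat_lit 165) .nil))))) .nil)) 
(.lf (nat_lit 73178) (.g (nat_lit 3284) (.e (nat_lit 1669) (nat_lit 116) (.e (nat_lit 401473) (nat_lit 29) (.e (nat_lit 352312) (nat_lit 22) (.e (nat_lit 90160) (nat_lit 11) (.e (nat_lit 24584) (nat_lit 0) (.e (nat_lit 1994) (nat_lit 137) (.e (nat_lit 663554) (nat_lit 0) .nil))))))) (.g (nat_lit 5) .nil .nil)))) (.nd (nat_lit 6) 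
(.lf (nat_lit 73146) (.g (nat_lit 4700) (.e (nat_lit 1669) (nat_lit 116) (.e (nat_lit 401459) (nat_lit 13) (.e (nat_lit 483364) (nat_lit 18) (.e (nat_lit 57692) (nat_lit 156) (.e (nat_lit 163907) (nat_lit 12) (.e (nat_lit 425986) (nat_lit 0) (.e (nat_lit 3309) (nat_lit 202) (.e (nat_lit 573456) (nat_lit 9) .nil)))))))) (.g (nat_lit 7) .nil .nil))) 
(.lf (nat_lit 73210) (.g (nat_lit 606) (.e (nat_lit 1671) (nat_lit 116) (.e (nat_lit 401452) (nat_lit 12) (.e (nat_lit 475183) (nat_lit 29) .nil))) .nil)))))) (.nd (nat_lit 3) (.nd (nat_lit 4) (.nd (nat_lit 5) (.nd (nat_lit 6) 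
(.lf (nat_lit 73094) (.g (nat_lit 3457) (.e (nat_lit 1669) (nat_lit 116) (.e (nat_lit 401457) (nat_lit 13) (.e (nat_lit 483413) (nat_lit 27) (.e (nat_lit 401448) (nat_lit 10) (.e (nat_lit 434211) (nat_lit 18) (.e (nat_lit 6003) (nat_lit 326) (.e (nat_lit 1011) (nat_lit 81) .nil))))))) (.g (nat_lit 4) .nil .nil))) 
(.lf (nat_lit 73158) (.g (nat_lit 4171) (.e (nat_lit 1669) (nat_lit 116) (.e (nat_lit 401459) (nat_lit 13) (.e (nat_lit 483372) (nat_lit 21) (.e (nat_lit 319530) (nat_lit 16) .nil)))) .nil))) (.nd (nat_lit 6) 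
(.lf (nat_lit 73126) (.g (nat_lit 2267) (.e (nat_lit 1669) (nat_lit 116) (.e (nat_lit 401459) (nat_lit 13) (.e (nat_lit 483344) (nat_lit 17) (.e (nat_lit 6724) (nat_lit 362) (.e (nat_lit 180225) (nat_lit 0) (.e (nat_lit 6000) (nat_lit 326) (.e (nat_lit 1011) (nat_lit 81) .nil))))))) (.g (nat_lit 4) .nil .nil))) 
(.lf (nat_lit 73190) (.g (nat_lit 3365) (.e (nat_lit 1670) (nat_lit 116) (.e (nat_lit 401454) (nat_lit 12) (.e (nat_lit 475209) (nat_lit 41) (.e (nat_lit 712755) (nat_lit 30) (.e (nat_lit 450597) (nat_lit 17) (.e (nat_lit 663555) (nat_lit 0) .nil)))))) (.g (nat_lit 6) .nil .nil))))) (.nd (nat_lit 5) (.nd (nat_lit 6) 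
(.lf (nat_lit 73110) (.g (nat_lit 763) (.e (nat_lit 1669) (nat_lit 116) (.e (nat_lit 401458) (nat_lit 13) (.e (nat_lit 483363) (nat_lit 18) .nil))) .nil)) 
(.lf (nat_lit 73174) (.g (nat_lit 5693) (.e (nat_lit 1669) (nat_lit 116) (.e (nat_lit 401468) (nat_lit 27) (.e (nat_lit 336099) (nat_lit 9) (.e (nat_lit 336013) (nat_lit 2) (.e (nat_lit 90160) (nat_lit 11) (.e (nat_lit 24584) (nat_lit 0) (.e (nat_lit 1994) (nat_lit 137) (.e (nat_lit 663554) (nat_lit 0) .nil)))))))) (.g (nat_lit 6) .nil .nil)))) (.nd (nat_lit 6) 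
(.lf (nat_lit 73142) (.g (nat_lit 2554) (.e (nat_lit 1669) (nat_lit 116) (.e (nat_lit 401459) (nat_lit 13) (.e (nat_lit 483364) (nat_lit 18) (.e (nat_lit 57689) (nat_lit 156) (.e (nat_lit 163916) (nat_lit 13) (.e (nat_lit 434247) (nat_lit 28) (.e (nat_lit 573456) (nat_lit 9) .nil))))))) (.g (nat_lit 4) .nil .nil))) 
(.lf (nat_lit 73206) (.g (nat_lit 1967) (.e (nat_lit 1671) (nat_lit 116) (.e (nat_lit 401451) (nat_lit 12) (.e (nat_lit 475183) (nat_lit 29) .nil))) .nil))))) (.nd (nat_lit 4) (.nd (nat_lit 5) (.nd (nat_lit 6) 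
(.lf (nat_lit 73102) (.g (nat_lit 3396) (.e (nat_lit 1669) (nat_lit 116) (.e (nat_lit 401457) (nat_lit 13) (.e (nat_lit 483413) (nat_lit 27) (.e (nat_lit 401448) (nat_lit 10) (.e (nat_lit 434284) (nat_lit 41) (.e (nat_lit 679942) (nat_lit 5) .nil)))))) (.g (nat_lit 4) .nil .nil))) 
(.lf (nat_lit 73166) (.g (nat_lit 3361) (.e (nat_lit 1669) (nat_lit 116) (.e (nat_lit 401459) (nat_lit 13) (.e (nat_lit 483410) (nat_lit 27) (.e (nat_lit 401440) (nat_lit 9) (.e (nat_lit 426365) (nat_lit 15) (.e (nat_lit 6441) (nat_lit 343) .nil)))))) (.g (nat_lit 4) .nil .nil)))) (.nd (nat_lit 6) 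
(.lf (nat_lit 73134) (.g (nat_lit 5289) (.e (nat_lit 1669) (nat_lit 116) (.e (nat_lit 401459) (nat_lit 13) (.e (nat_lit 483363) (nat_lit 18) (.e (nat_lit 57691) (nat_lit 156) (.e (nat_lit 163907) (nat_lit 12) (.e (nat_lit 425986) (nat_lit 0) (.e (nat_lit 3309) (nat_lit 202) (.e (nat_lit 573456) (nat_lit 9) .nil)))))))) (.g (nat_lit 7) .nil .nil))) 
(.lf (nat_lit 73198) (.g (nat_lit 1781) (.e (nat_lit 1671) (nat_lit 116) (.e (nat_lit 401436) (nat_lit 9) (.e (nat_lit 426402) (nat_lit 15) (.e (nat_lit 1849) (nat_lit 124) (.e (nat_lit 557108) (nat_lit 15) (.e (nat_lit 188458) (nat_lit 25) (.e (nat_lit 245784) (nat_lit 9) .nil))))))) (.g (nat_lit 5) .nil .nil))))) (.nd (nat_lit 5) (.nd (nat_lit 6) 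
(.lf (nat_lit 73118) (.g (nat_lit 713) (.e (nat_lit 1669) (nat_lit 116) (.e (nat_lit 401459) (nat_lit 13) (.e (nat_lit 483337) (nat_lit 9) .nil))) .nil)) 
(.lf (nat_lit 73182) (.g (nat_lit 1368) (.e (nat_lit 1670) (nat_lit 116) (.e (nat_lit 401451) (nat_lit 12) (.e (nat_lit 475207) (nat_lit 41) .nil))) .nil))) (.nd (nat_lit 6) 
(.lf (nat_lit 73150) (.g (nat_lit 254) (.e (nat_lit 1669) (nat_lit 116) (.e (nat_lit 401459) (nat_lit 13) (.e (nat_lit 483372) (nat_lit 21) .nil))) .nil)) 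
(.lf (nat_lit 73214) (.g (nat_lit 1364) (.e (nat_lit 1672) (nat_lit 116) (.e (nat_lit 401451) (nat_lit 12) (.e (nat_lit 475207) (nat_lit 41) .nil))) .nil)))))))) (.nd (nat_lit 1) (.nd (nat_lit 2) (.nd (nat_lit 3) (.nd (nat_lit 4) (.nd (nat_lit 5) (.nd (nat_lit 6) 
(.lf (nat_lit 73089) (.g (nat_lit 3593) (.e (nat_lit 1669) (nat_lit 116) (.e (nat_lit 401457) (nat_lit 13) (.e (nat_lit 483413) (nat_lit 27) (.e (nat_lit 401448) (nat_lit 10) (.e (nat_lit 434209) (nat_lit 18) (.e (nat_lit 6005) (nat_lit 326) (.e (nat_lit 1009) (nat_lit 81) .nil))))))) (.g (nat_lit 4) .nil .nil))) 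
(.lf (nat_lit 73153) (.g (nat_lit 3206) (.e (nat_lit 1669) (nat_lit 116) (.e (nat_lit 401459) (nat_lit 13) (.e (nat_lit 483372) (nat_lit 21) (.e (nat_lit 319511) (nat_lit 10) .nil)))) .nil))) (.nd (nat_lit 6) 
(.lf (nat_lit 73121) (.g (nat_lit 511) (.e (nat_lit 1669) (nat_lit 116) (.e (nat_lit 401459) (nat_lit 13) (.e (nat_lit 483343) (nat_lit 17) .nil))) .nil)) 
(.lf (nat_lit 73185) (.g (nat_lit 869) (.e (nat_lit 1670) (nat_lit 116) (.e (nat_lit 401454) (nat_lit 12) (.e (nat_lit 475183) (nat_lit 29) .nil))) .nil)))) (.nd (nat_lit 5) (.nd (nat_lit 6) 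
(.lf (nat_lit 73105) (.g (nat_lit 3791) (.e (nat_lit 1669) (nat_lit 116) (.e (nat_lit 401457) (nat_lit 13) (.e (nat_lit 483413) (nat_lit 27) (.e (nat_lit 401448) (nat_lit 10) (.e (nat_lit 434284) (nat_lit 41) (.e (nat_lit 679945) (nat_lit 5) .nil)))))) (.g (nat_lit 0) .nil .nil))) 
(.lf (nat_lit 73169) (.g (nat_lit 4045) (.e (nat_lit 1669) (nat_lit 116) (.e (nat_lit 401459) (nat_lit 13) (.e (nat_lit 483410) (nat_lit 27) (.e (nat_lit 401454) (nat_lit 12) (.e (nat_lit 475188) (nat_lit 33) .nil))))) .nil))) (.nd (nat_lit 6) 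
(.lf (nat_lit 73137) (.g (nat_lit 3663) (.e (nat_lit 1669) (nat_lit 116) (.e (nat_lit 401459) (nat_lit 13) (.e (nat_lit 483363) (nat_lit 18) (.e (nat_lit 57692) (nat_lit 156) (.e (nat_lit 163907) (nat_lit 12) (.e (nat_lit 425986) (nat_lit 0) (.e (nat_lit 3299) (nat_lit 202) (.e (nat_lit 573456) (nat_lit 9) .nil)))))))) (.g (nat_lit 5) .nil .nil))) 
(.lf (nat_lit 73201) (.g (nat_lit 2370) (.e (nat_lit 1671) (nat_lit 116) (.e (nat_lit 401437) (nat_lit 9) (.e (nat_lit 426402) (nat_lit 15) (.e (nat_lit 1849) (nat_lit 124) (.e (nat_lit 557108) (nat_lit 15) (.e (nat_lit 188458) (nat_lit 25) (.e (nat_lit 245784) (nat_lit 9) .nil))))))) (.g (nat_lit 5) .nil .nil)))))) (.nd (nat_lit 4) (.nd (nat_lit 5) (.nd (nat_lit 6) 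
(.lf (nat_lit 73097) (.g (nat_lit 2988) (.e (nat_lit 1669) (nat_lit 116) (.e (nat_lit 401457) (nat_lit 13) (.e (nat_lit 483413) (nat_lit 27) (.e (nat_lit 401448) (nat_lit 10) (.e (nat_lit 434282) (nat_lit 41) .nil))))) .nil)) 
(.lf (nat_lit 73161) (.g (nat_lit 3313) (.e (nat_lit 1669) (nat_lit 116) (.e (nat_lit 401459) (nat_lit 13) (.e (nat_lit 483372) (nat_lit 21) (.e (nat_lit 319534) (nat_lit 16) .nil)))) .nil))) (.nd (nat_lit 6) 
(.lf (nat_lit 73129) (.g (nat_lit 3296) (.e (nat_lit 1669) (nat_lit 116) (.e (nat_lit 401459) (nat_lit 13) (.e (nat_lit 483363) (nat_lit 18) (.e (nat_lit 57686) (nat_lit 156) (.e (nat_lit 163917) (nat_lit 13) (.e (nat_lit 434244) (nat_lit 28) (.e (nat_lit 573449) (nat_lit 9) .nil))))))) (.g (nat_lit 4) .nil .nil))) 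
(.lf (nat_lit 73193) (.g (nat_lit 4025) (.e (nat_lit 1670) (nat_lit 116) (.e (nat_lit 401459) (nat_lit 13) (.e (nat_lit 483372) (nat_lit 21) (.e (nat_lit 319534) (nat_lit 16) .nil)))) .nil)))) (.nd (nat_lit 5) (.nd (nat_lit 6) 
(.lf (nat_lit 73113) (.g (nat_lit 2107) (.e (nat_lit 1669) (nat_lit 116) (.e (nat_lit 401458) (nat_lit 13) (.e (nat_lit 483365) (nat_lit 18) (.e (nat_lit 57654) (nat_lit 152) (.e (nat_lit 2636) (nat_lit 165) .nil))))) .nil)) 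
(.lf (nat_lit 73177) (.g (nat_lit 2609) (.e (nat_lit 1669) (nat_lit 116) (.e (nat_lit 401473) (nat_lit 29) (.e (nat_lit 352311) (nat_lit 22) (.e (nat_lit 90160) (nat_lit 11) (.e (nat_lit 24584) (nat_lit 0) (.e (nat_lit 1994) (nat_lit 137) (.e (nat_lit 663554) (nat_lit 0) .nil))))))) (.g (nat_lit 5) .nil .nil)))) (.nd (nat_lit 6) 
(.lf (nat_lit 73145) (.g (nat_lit 2921) (.e (nat_lit 1669) (nat_lit 116) (.e (nat_lit 401459) (nat_lit 13) (.e (nat_lit 483364) (nat_lit 18) (.e (nat_lit 57692) (nat_lit 156) (.e (nat_lit 163907) (nat_lit 12) (.e (nat_lit 425986) (nat_lit 0) (.e (nat_lit 3299) (nat_lit 202) (.e (nat_lit 573456) (nat_lit 9) .nil)))))))) (.g (nat_lit 5) .nil .nil))) 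
(.lf (nat_lit 73209) (.g (nat_lit 5372) (.e (nat_lit 1671) (nat_lit 116) (.e (nat_lit 401451) (nat_lit 12) (.e (nat_lit 475207) (nat_lit 41) (.e (nat_lit 712755) (nat_lit 30) (.e (nat_lit 450597) (nat_lit 17) (.e (nat_lit 663555) (nat_lit 0) .nil)))))) (.g (nat_lit 6) .nil .nil))))))) (.nd (nat_lit 3) (.nd (nat_lit 4) (.nd (nat_lit 5) (.nd (nat_lit 6) 
(.lf (nat_lit 73093) (.g (nat_lit 3161) (.e (nat_lit 1669) (nat_lit 116) (.e (nat_lit 401457) (nat_lit 13) (.e (nat_lit 483413) (nat_lit 27) (.e (nat_lit 401448) (nat_lit 10) (.e (nat_lit 434211) (nat_lit 18) .nil))))) .nil)) 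
(.lf (nat_lit 73157) (.g (nat_lit 3707) (.e (nat_lit 1669) (nat_lit 116) (.e (nat_lit 401459) (nat_lit 13) (.e (nat_lit 483372) (nat_lit 21) (.e (nat_lit 319529) (nat_lit 16) .nil)))) .nil))) (.nd (nat_lit 6) 
(.lf (nat_lit 73125) (.g (nat_lit 949) (.e (nat_lit 1669) (nat_lit 116) (.e (nat_lit 401459) (nat_lit 13) (.e (nat_lit 483344) (nat_lit 17) (.e (nat_lit 6724) (nat_lit 362) .nil)))) .nil)) 
(.lf (nat_lit 73189) (.g (nat_lit 2467) (.e (nat_lit 1670) (nat_lit 116) (.e (nat_lit 401454) (nat_lit 12) (.e (nat_lit 475208) (nat_lit 41) (.e (nat_lit 712755) (nat_lit 30) (.e (nat_lit 450597) (nat_lit 17) (.e (nat_lit 663555) (nat_lit 0) .nil)))))) (.g (nat_lit 4) .nil .nil))))) (.nd (nat_lit 5) (.nd (nat_lit 6) 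
(.lf (nat_lit 73109) (.g (nat_lit 1551) (.e (nat_lit 1669) (nat_lit 116) (.e (nat_lit 401458) (nat_lit 13) (.e (nat_lit 483350) (nat_lit 17) (.e (nat_lit 7936) (nat_lit 153) .nil)))) .nil)) 
(.lf (nat_lit 73173) (.g (nat_lit 2610) (.e (nat_lit 1669) (nat_lit 116) (.e (nat_lit 401467) (nat_lit 27) (.e (nat_lit 336158) (nat_lit 9) (.e (nat_lit 336004) (nat_lit 2) (.e (nat_lit 90160) (nat_lit 11) (.e (nat_lit 24584) (nat_lit 0) (.e (nat_lit 1996) (nat_lit 137) (.e (nat_lit 663554) (nat_lit 0) .nil)))))))) (.g (nat_lit 5) .nil .nil)))) (.nd (nat_lit 6) 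
(.lf (nat_lit 73141) (.g (nat_lit 2558) (.e (nat_lit 1669) (nat_lit 116) (.e (nat_lit 401459) (nat_lit 13) (.e (nat_lit 483364) (nat_lit 18) (.e (nat_lit 57685) (nat_lit 156) (.e (nat_lit 163917) (nat_lit 13) (.e (nat_lit 434247) (nat_lit 28) (.e (nat_lit 573456) (nat_lit 9) .nil))))))) (.g (nat_lit 4) .nil .nil))) 
(.lf (nat_lit 73205) (.g (nat_lit 3305) (.e (nat_lit 1671) (nat_lit 116) (.e (nat_lit 401450) (nat_lit 12) (.e (nat_lit 475185) (nat_lit 29) (.e (nat_lit 557109) (nat_lit 15) (.e (nat_lit 188458) (nat_lit 25) (.e (nat_lit 245784) (nat_lit 9) .nil)))))) (.g (nat_lit 5) .nil .nil)))))) (.nd (nat_lit 4) (.nd (nat_lit 5) (.nd (nat_lit 6) 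
(.lf (nat_lit 73101) (.g (nat_lit 3612) (.e (nat_lit 1669) (nat_lit 116) (.e (nat_lit 401457) (nat_lit 13) (.e (nat_lit 483413) (nat_lit 27) (.e (nat_lit 401448) (nat_lit 10) (.e (nat_lit 434283) (nat_lit 41) (.e (nat_lit 679944) (nat_lit 5) .nil)))))) (.g (nat_lit 6) .nil .nil))) 
(.lf (nat_lit 73165) (.g (nat_lit 2184) (.e (nat_lit 1669) (nat_lit 116) (.e (nat_lit 401459) (nat_lit 13) (.e (nat_lit 483409) (nat_lit 27) (.e (nat_lit 401454) (nat_lit 12) (.e (nat_lit 483072) (nat_lit 8) .nil))))) (.g (nat_lit 4) .nil .nil)))) (.nd (nat_lit 6) 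
(.lf (nat_lit 73133) (.g (nat_lit 3391) (.e (nat_lit 1669) (nat_lit 116) (.e (nat_lit 401459) (nat_lit 13) (.e (nat_lit 483363) (nat_lit 18) (.e (nat_lit 57688) (nat_lit 156) (.e (nat_lit 163918) (nat_lit 13) (.e (nat_lit 434247) (nat_lit 28) (.e (nat_lit 573456) (nat_lit 9) .nil))))))) (.g (nat_lit 5) .nil .nil))) 
(.lf (nat_lit 73197) (.g (nat_lit 2004) (.e (nat_lit 1671) (nat_lit 116) (.e (nat_lit 401436) (nat_lit 9) (.e (nat_lit 426402) (nat_lit 15) (.e (nat_lit 1848) (nat_lit 124) (.e (nat_lit 557108) (nat_lit 15) (.e (nat_lit 188458) (nat_lit 25) (.e (nat_lit 245784) (nat_lit 9) .nil))))))) (.g (nat_lit 5) .nil .nil))))) (.nd (nat_lit 5) (.nd (nat_lit 6) 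
(.lf (nat_lit 73117) (.g (nat_lit 960) (.e (nat_lit 1669) (nat_lit 116) (.e (nat_lit 401459) (nat_lit 13) (.e (nat_lit 483336) (nat_lit 9) .nil))) .nil)) 
(.lf (nat_lit 73181) (.g (nat_lit 937) (.e (nat_lit 1670) (nat_lit 116) (.e (nat_lit 401451) (nat_lit 12) (.e (nat_lit 475184) (nat_lit 29) .nil))) .nil))) (.nd (nat_lit 6) 
(.lf (nat_lit 73149) (.g (nat_lit 2521) (.e (nat_lit 1669) (nat_lit 116) (.e (nat_lit 401459) (nat_lit 13) (.e (nat_lit 483365) (nat_lit 18) (.e (nat_lit 57692) (nat_lit 156) (.e (nat_lit 163907) (nat_lit 12) .nil))))) .nil)) 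
(.lf (nat_lit 73213) (.g (nat_lit 3151) (.e (nat_lit 1671) (nat_lit 116) (.e (nat_lit 401453) (nat_lit 12) (.e (nat_lit 475184) (nat_lit 29) (.e (nat_lit 557109) (nat_lit 15) (.e (nat_lit 188458) (nat_lit 25) (.e (nat_lit 245784) (nat_lit 9) .nil)))))) (.g (nat_lit 0) .nil .nil)))))))) (.nd (nat_lit 2) (.nd (nat_lit 3) (.nd (nat_lit 4) (.nd (nat_lit 5) (.nd (nat_lit 6) 
(.lf (nat_lit 73091) (.g (nat_lit 3398) (.e (nat_lit 1669) (nat_lit 116) (.e (nat_lit 401457) (nat_lit 13) (.e (nat_lit 483413) (nat_lit 27) (.e (nat_lit 401448) (nat_lit 10) (.e (nat_lit 434209) (nat_lit 18) (.e (nat_lit 6033) (nat_lit 326) (.e (nat_lit 1011) (nat_lit 81) .nil))))))) (.g (nat_lit 4) .nil .nil))) 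
(.lf (nat_lit 73155) (.g (nat_lit 3027) (.e (nat_lit 1669) (nat_lit 116) (.e (nat_lit 401459) (nat_lit 13) (.e (nat_lit 483372) (nat_lit 21) (.e (nat_lit 327424) (nat_lit 10) .nil)))) .nil))) (.nd (nat_lit 6) 
(.lf (nat_lit 73123) (.g (nat_lit 1557) (.e (nat_lit 1669) (nat_lit 116) (.e (nat_lit 401459) (nat_lit 13) (.e (nat_lit 483344) (nat_lit 17) (.e (nat_lit 2369) (nat_lit 153) .nil)))) .nil)) 
(.lf (nat_lit 73187) (.g (nat_lit 2999) (.e (nat_lit 1670) (nat_lit 116) (.e (nat_lit 401454) (nat_lit 12) (.e (nat_lit 475184) (nat_lit 29) (.e (nat_lit 557109) (nat_lit 15) (.e (nat_lit 188458) (nat_lit 25) (.e (nat_lit 245784) (nat_lit 9) .nil)))))) (.g (nat_lit 0) .nil .nil))))) (.nd (nat_lit 5) (.nd (nat_lit 6) 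
(.lf (nat_lit 73107) (.g (nat_lit 2178) (.e (nat_lit 1669) (nat_lit 116) (.e (nat_lit 401457) (nat_lit 13) (.e (nat_lit 483413) (nat_lit 27) (.e (nat_lit 401451) (nat_lit 12) (.e (nat_lit 483072) (nat_lit 8) .nil))))) (.g (nat_lit 4) .nil .nil))) 
(.lf (nat_lit 73171) (.g (nat_lit 1496) (.e (nat_lit 1669) (nat_lit 116) (.e (nat_lit 401459) (nat_lit 13) (.e (nat_lit 483411) (nat_lit 27) (.e (nat_lit 401448) (nat_lit 10) .nil)))) .nil))) (.nd (nat_lit 6) 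
(.lf (nat_lit 73139) (.g (nat_lit 619) (.e (nat_lit 1669) (nat_lit 116) (.e (nat_lit 401459) (nat_lit 13) (.e (nat_lit 483364) (nat_lit 18) .nil))) .nil)) 
(.lf (nat_lit 73203) (.g (nat_lit 802) (.e (nat_lit 1671) (nat_lit 116) (.e (nat_lit 401448) (nat_lit 10) (.e (nat_lit 434231) (nat_lit 23) .nil))) .nil))))) (.nd (nat_lit 4) (.nd (nat_lit 5) (.nd (nat_lit 6) 
(.lf (nat_lit 73099) (.g (nat_lit 3618) (.e (nat_lit 1669) (nat_lit 116) (.e (nat_lit 401457) (nat_lit 13) (.e (nat_lit 483413) (nat_lit 27) (.e (nat_lit 401448) (nat_lit 10) (.e (nat_lit 434282) (nat_lit 41) (.e (nat_lit 679944) (nat_lit 5) .nil)))))) (.g (nat_lit 4) .nil .nil))) 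
(.lf (nat_lit 73163) (.g (nat_lit 4285) (.e (nat_lit 1669) (nat_lit 116) (.e (nat_lit 401459) (nat_lit 13) (.e (nat_lit 483372) (nat_lit 21) (.e (nat_lit 319535) (nat_lit 17) .nil)))) .nil))) (.nd (nat_lit 6) 
(.lf (nat_lit 73131) (.g (nat_lit 4925) (.e (nat_lit 1669) (nat_lit 116) (.e (nat_lit 401459) (nat_lit 13) (.e (nat_lit 483363) (nat_lit 18) (.e (nat_lit 57688) (nat_lit 156) (.e (nat_lit 163917) (nat_lit 13) (.e (nat_lit 434247) (nat_lit 28) (.e (nat_lit 573456) (nat_lit 9) .nil))))))) (.g (nat_lit 7) .nil .nil))) 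
(.lf (nat_lit 73195) (.g (nat_lit 3272) (.e (nat_lit 1670) (nat_lit 116) (.e (nat_lit 401459) (nat_lit 13) (.e (nat_lit 483411) (nat_lit 27) (.e (nat_lit 401451) (nat_lit 12) (.e (nat_lit 483072) (nat_lit 8) .nil))))) (.g (nat_lit 4) .nil .nil))))) (.nd (nat_lit 5) (.nd (nat_lit 6) 
(.lf (nat_lit 73115) (.g (nat_lit 659) (.e (nat_lit 1669) (nat_lit 116) (.e (nat_lit 401458) (nat_lit 13) (.e (nat_lit 483372) (nat_lit 21) .nil))) .nil)) 
(.lf (nat_lit 73179) (.g (nat_lit 2343) (.e (nat_lit 1669) (nat_lit 116) (.e (nat_lit 401473) (nat_lit 29) (.e (nat_lit 352313) (nat_lit 23) (.e (nat_lit 98313) (nat_lit 9) (.e (nat_lit 335906) (nat_lit 0) (.e (nat_lit 1996) (nat_lit 137) (.e (nat_lit 663554) (nat_lit 0) .nil))))))) (.g (nat_lit 0) .nil .nil)))) (.nd (nat_lit 6) 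
(.lf (nat_lit 73147) (.g (nat_lit 3592) (.e (nat_lit 1669) (nat_lit 116) (.e (nat_lit 401459) (nat_lit 13) (.e (nat_lit 483364) (nat_lit 18) (.e (nat_lit 57692) (nat_lit 156) (.e (nat_lit 163916) (nat_lit 13) (.e (nat_lit 434247) (nat_lit 28) (.e (nat_lit 573456) (nat_lit 9) .nil))))))) (.g (nat_lit 6) .nil .nil))) 
(.lf (nat_lit 73211) (.g (nat_lit 3174) (.e (nat_lit 1671) (nat_lit 116) (.e (nat_lit 401452) (nat_lit 12) (.e (nat_lit 475184) (nat_lit 29) (.e (nat_lit 557109) (nat_lit 15) (.e (nat_lit 188458) (nat_lit 25) (.e (nat_lit 245784) (nat_lit 9) .nil)))))) (.g (nat_lit 0) .nil .nil))))))) (.nd (nat_lit 3) (.nd (nat_lit 4) (.nd (nat_lit 5) (.nd (nat_lit 6) 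
(.lf (nat_lit 73095) (.g (nat_lit 3423) (.e (nat_lit 1669) (nat_lit 116) (.e (nat_lit 401457) (nat_lit 13) (.e (nat_lit 483413) (nat_lit 27) (.e (nat_lit 401448) (nat_lit 10) (.e (nat_lit 434211) (nat_lit 18) (.e (nat_lit 6033) (nat_lit 326) (.e (nat_lit 1010) (nat_lit 81) .nil))))))) (.g (nat_lit 4) .nil .nil))) 
(.lf (nat_lit 73159) (.g (nat_lit 3501) (.e (nat_lit 1669) (nat_lit 116) (.e (nat_lit 401459) (nat_lit 13) (.e (nat_lit 483372) (nat_lit 21) (.e (nat_lit 319531) (nat_lit 16) .nil)))) .nil))) (.nd (nat_lit 6) 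
(.lf (nat_lit 73127) (.g (nat_lit 1549) (.e (nat_lit 1669) (nat_lit 116) (.e (nat_lit 401459) (nat_lit 13) (.e (nat_lit 483350) (nat_lit 17) (.e (nat_lit 7936) (nat_lit 153) .nil)))) .nil)) 
(.lf (nat_lit 73191) (.g (nat_lit 2909) (.e (nat_lit 1670) (nat_lit 116) (.e (nat_lit 401454) (nat_lit 12) (.e (nat_lit 475210) (nat_lit 41) (.e (nat_lit 712755) (nat_lit 30) (.e (nat_lit 450597) (nat_lit 17) (.e (nat_lit 663555) (nat_lit 0) .nil)))))) (.g (nat_lit 5) .nil .nil))))) (.nd (nat_lit 5) (.nd (nat_lit 6) 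
(.lf (nat_lit 73111) (.g (nat_lit 1998) (.e (nat_lit 1669) (nat_lit 116) (.e (nat_lit 401458) (nat_lit 13) (.e (nat_lit 483363) (nat_lit 18) (.e (nat_lit 57688) (nat_lit 156) .nil)))) .nil)) 
(.lf (nat_lit 73175) (.g (nat_lit 6494) (.e (nat_lit 1669) (nat_lit 116) (.e (nat_lit 401468) (nat_lit 27) (.e (nat_lit 336099) (nat_lit 9) (.e (nat_lit 336013) (nat_lit 2) (.e (nat_lit 90160) (nat_lit 11) (.e (nat_lit 24584) (nat_lit 0) (.e (nat_lit 1996) (nat_lit 137) (.e (nat_lit 663554) (nat_lit 0) .nil)))))))) (.g (nat_lit 0) .nil .nil)))) (.nd (nat_lit 6) 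
(.lf (nat_lit 73143) (.g (nat_lit 4968) (.e (nat_lit 1669) (nat_lit 116) (.e (nat_lit 401459) (nat_lit 13) (.e (nat_lit 483364) (nat_lit 18) (.e (nat_lit 57691) (nat_lit 156) (.e (nat_lit 163907) (nat_lit 12) (.e (nat_lit 425986) (nat_lit 0) (.e (nat_lit 3309) (nat_lit 202) (.e (nat_lit 573456) (nat_lit 9) .nil)))))))) (.g (nat_lit 7) .nil .nil))) 
(.lf (nat_lit 73207) (.g (nat_lit 6031) (.e (nat_lit 1671) (nat_lit 116) (.e (nat_lit 401451) (nat_lit 12) (.e (nat_lit 475183) (nat_lit 29) (.e (nat_lit 557108) (nat_lit 15) (.e (nat_lit 188458) (nat_lit 25) (.e (nat_lit 245784) (nat_lit 9) .nil)))))) (.g (nat_lit 6) .nil .nil)))))) (.nd (nat_lit 4) (.nd (nat_lit 5) (.nd (nat_lit 6) 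
(.lf (nat_lit 73103) (.g (nat_lit 3711) (.e (nat_lit 1669) (nat_lit 116) (.e (nat_lit 401457) (nat_lit 13) (.e (nat_lit 483413) (nat_lit 27) (.e (nat_lit 401448) (nat_lit 10) (.e (nat_lit 434284) (nat_lit 41) (.e (nat_lit 679943) (nat_lit 5) .nil)))))) (.g (nat_lit 0) .nil .nil))) 
(.lf (nat_lit 73167) (.g (nat_lit 1502) (.e (nat_lit 1669) (nat_lit 116) (.e (nat_lit 401459) (nat_lit 13) (.e (nat_lit 483410) (nat_lit 27) (.e (nat_lit 401454) (nat_lit 12) .nil)))) .nil))) (.nd (nat_lit 6) 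
(.lf (nat_lit 73135) (.g (nat_lit 4226) (.e (nat_lit 1669) (nat_lit 116) (.e (nat_lit 401459) (nat_lit 13) (.e (nat_lit 483363) (nat_lit 18) (.e (nat_lit 57691) (nat_lit 156) (.e (nat_lit 163916) (nat_lit 13) (.e (nat_lit 434247) (nat_lit 28) (.e (nat_lit 573456) (nat_lit 9) .nil))))))) (.g (nat_lit 6) .nil .nil))) 
(.lf (nat_lit 73199) (.g (nat_lit 3504) (.e (nat_lit 1671) (nat_lit 116) (.e (nat_lit 401437) (nat_lit 9) (.e (nat_lit 426364) (nat_lit 15) (.e (nat_lit 1858) (nat_lit 124) (.e (nat_lit 557109) (nat_lit 15) (.e (nat_lit 188458) (nat_lit 25) (.e (nat_lit 245784) (nat_lit 9) .nil))))))) (.g (nat_lit 5) .nil .nil))))) (.nd (nat_lit 5) (.nd (nat_lit 6) 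
(.lf (nat_lit 73119) (.g (nat_lit 3063) (.e (nat_lit 1669) (nat_lit 116) (.e (nat_lit 401459) (nat_lit 13) (.e (nat_lit 483337) (nat_lit 9) (.e (nat_lit 426108) (nat_lit 1) (.e (nat_lit 164329) (nat_lit 230) (.e (nat_lit 163850) (nat_lit 0) (.e (nat_lit 3289) (nat_lit 201) (.e (nat_lit 565252) (nat_lit 0) .nil)))))))) (.g (nat_lit 4) .nil .nil))) 
(.lf (nat_lit 73183) (.g (nat_lit 3263) (.e (nat_lit 1670) (nat_lit 116) (.e (nat_lit 401451) (nat_lit 12) (.e (nat_lit 475207) (nat_lit 41) (.e (nat_lit 712755) (nat_lit 30) (.e (nat_lit 450597) (nat_lit 17) (.e (nat_lit 663555) (nat_lit 0) .nil)))))) (.g (nat_lit 5) .nil .nil)))) (.nd (nat_lit 6) 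
(.lf (nat_lit 73151) (.g (nat_lit 3792) (.e (nat_lit 1669) (nat_lit 116) (.e (nat_lit 401459) (nat_lit 13) (.e (nat_lit 483372) (nat_lit 21) (.e (nat_lit 319504) (nat_lit 10) .nil)))) .nil)) 
(.lf (nat_lit 73215) (.g (nat_lit 2467) (.e (nat_lit 1672) (nat_lit 116) (.e (nat_lit 401451) (nat_lit 12) (.e (nat_lit 475207) (nat_lit 41) (.e (nat_lit 712755) (nat_lit 30) (.e (nat_lit 450597) (nat_lit 17) (.e (nat_lit 663555) (nat_lit 0) .nil)))))) (.g (nat_lit 4) .nil .nil))))))))))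

noncomputable def tv995 : DT := (.nd (nat_lit 0) (.nd (nat_lit 1) (.nd (nat_lit 2) (.nd (nat_lit 3) (.nd (nat_lit 4) (.nd (nat_lit 5) (.nd (nat_lit 6) 
(.lf (nat_lit 73216) (.g (nat_lit 863) (.e (nat_lit 1672) (nat_lit 116) (.e (nat_lit 401453) (nat_lit 12) (.e (nat_lit 475207) (nat_lit 41) (.e (nat_lit 712755) (nat_lit 30) .nil)))) .nil)) 
(.lf (nat_lit 73280) (.g (nat_lit 1687) (.e (nat_lit 1673) (nat_lit 116) (.e (nat_lit 401448) (nat_lit 10) (.e (nat_lit 434231) (nat_lit 23) (.e (nat_lit 532481) (nat_lit 0) .nil)))) .nil))) (.nd (nat_lit 6) 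
(.lf (nat_lit 73248) (.g (nat_lit 588) (.e (nat_lit 1673) (nat_lit 116) (.e (nat_lit 401446) (nat_lit 10) (.e (nat_lit 434231) (nat_lit 23) .nil))) .nil)) 
(.lf (nat_lit 73312) (.g (nat_lit 2296) (.e (nat_lit 1674) (nat_lit 116) (.e (nat_lit 401425) (nat_lit 2) (.e (nat_lit 196666) (nat_lit 13) (.e (nat_lit 65610) (nat_lit 10) .nil)))) .nil)))) (.nd (nat_lit 5) (.nd (nat_lit 6) 
(.lf (nat_lit 73232) (.g (nat_lit 1751) (.e (nat_lit 1673) (nat_lit 116) (.e (nat_lit 401446) (nat_lit 10) (.e (nat_lit 434227) (nat_lit 20) (.e (nat_lit 507929) (nat_lit 10) (.e (nat_lit 5779) (nat_lit 317) (.e (nat_lit 180235) (nat_lit 1) (.e (nat_lit 499981) (nat_lit 14) .nil))))))) (.g (nat_lit 5) .nil .nil))) 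
(.lf (nat_lit 73296) (.g (nat_lit 2386) (.e (nat_lit 1673) (nat_lit 116) (.e (nat_lit 401448) (nat_lit 10) (.e (nat_lit 434238) (nat_lit 25) (.e (nat_lit 548898) (nat_lit 14) (.e (nat_lit 3028) (nat_lit 187) .nil))))) .nil))) (.nd (nat_lit 6) 
(.lf (nat_lit 73264) (.g (nat_lit 2212) (.e (nat_lit 1673) (nat_lit 116) (.e (nat_lit 401448) (nat_lit 10) (.e (nat_lit 434227) (nat_lit 20) (.e (nat_lit 507928) (nat_lit 10) (.e (nat_lit 5779) (nat_lit 317) (.e (nat_lit 180235) (nat_lit 1) (.e (nat_lit 499990) (nat_lit 14) .nil))))))) (.g (nat_lit 4) .nil .nil))) 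
(.lf (nat_lit 73328) (.g (nat_lit 2920) (.e (nat_lit 1674) (nat_lit 116) (.e (nat_lit 401459) (nat_lit 13) (.e (nat_lit 483411) (nat_lit 27) (.e (nat_lit 401451) (nat_lit 12) (.e (nat_lit 483072) (nat_lit 8) .nil))))) (.g (nat_lit 4) .nil .nil)))))) (.nd (nat_lit 4) (.nd (nat_lit 5) (.nd (nat_lit 6) 
(.lf (nat_lit 73224) (.g (nat_lit 1743) (.e (nat_lit 1673) (nat_lit 116) (.e (nat_lit 401446) (nat_lit 10) (.e (nat_lit 434227) (nat_lit 20) (.e (nat_lit 507928) (nat_lit 10) (.e (nat_lit 5779) (nat_lit 317) (.e (nat_lit 180235) (nat_lit 1) (.e (nat_lit 499981) (nat_lit 14) .nil))))))) (.g (nat_lit 5) .nil .nil))) 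
(.lf (nat_lit 73288) (.g (nat_lit 2442) (.e (nat_lit 1673) (nat_lit 116) (.e (nat_lit 401448) (nat_lit 10) (.e (nat_lit 434231) (nat_lit 23) (.e (nat_lit 532569) (nat_lit 16) (.e (nat_lit 401448) (nat_lit 10) .nil))))) .nil))) (.nd (nat_lit 6) 
(.lf (nat_lit 73256) (.g (nat_lit 1293) (.e (nat_lit 1673) (nat_lit 116) (.e (nat_lit 401447) (nat_lit 10) (.e (nat_lit 434238) (nat_lit 25) (.e (nat_lit 548897) (nat_lit 14) (.e (nat_lit 2989) (nat_lit 186) .nil))))) .nil)) 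
(.lf (nat_lit 73320) (.g (nat_lit 1156) (.e (nat_lit 1674) (nat_lit 116) (.e (nat_lit 401457) (nat_lit 13) (.e (nat_lit 483413) (nat_lit 27) .nil))) .nil)))) (.nd (nat_lit 5) (.nd (nat_lit 6) 
(.lf (nat_lit 73240) (.g (nat_lit 1965) (.e (nat_lit 1673) (nat_lit 116) (.e (nat_lit 401446) (nat_lit 10) (.e (nat_lit 434227) (nat_lit 20) (.e (nat_lit 507930) (nat_lit 10) (.e (nat_lit 5777) (nat_lit 317) (.e (nat_lit 180239) (nat_lit 1) (.e (nat_lit 499991) (nat_lit 14) .nil))))))) (.g (nat_lit 7) .nil .nil))) 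
(.lf (nat_lit 73304) (.g (nat_lit 1003) (.e (nat_lit 1673) (nat_lit 116) (.e (nat_lit 401451) (nat_lit 12) (.e (nat_lit 475207) (nat_lit 41) .nil))) .nil))) (.nd (nat_lit 6) 
(.lf (nat_lit 73272) (.g (nat_lit 2282) (.e (nat_lit 1673) (nat_lit 116) (.e (nat_lit 401448) (nat_lit 10) (.e (nat_lit 434227) (nat_lit 20) (.e (nat_lit 507930) (nat_lit 10) (.e (nat_lit 5779) (nat_lit 317) (.e (nat_lit 180235) (nat_lit 1) (.e (nat_lit 499975) (nat_lit 14) .nil))))))) (.g (nat_lit 4) .nil .nil))) 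
(.lf (nat_lit 73336) (.g (nat_lit 3038) (.e (nat_lit 1675) (nat_lit 116) (.e (nat_lit 401456) (nat_lit 13) (.e (nat_lit 483413) (nat_lit 27) (.e (nat_lit 401448) (nat_lit 10) (.e (nat_lit 434203) (nat_lit 18) .nil))))) .nil)))))) (.nd (nat_lit 3) (.nd (nat_lit 4) (.nd (nat_lit 5) (.nd (nat_lit 6) 
(.lf (nat_lit 73220) (.g (nat_lit 1627) (.e (nat_lit 1673) (nat_lit 116) (.e (nat_lit 401434) (nat_lit 9) (.e (nat_lit 426125) (nat_lit 2) (.e (nat_lit 196661) (nat_lit 12) .nil)))) .nil)) 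
(.lf (nat_lit 73284) (.g (nat_lit 3167) (.e (nat_lit 1673) (nat_lit 116) (.e (nat_lit 401448) (nat_lit 10) (.e (nat_lit 434231) (nat_lit 23) (.e (nat_lit 532490) (nat_lit 0) (.e (nat_lit 7936) (nat_lit 362) (.e (nat_lit 180239) (nat_lit 1) (.e (nat_lit 499991) (nat_lit 14) .nil))))))) (.g (nat_lit 4) .nil .nil)))) (.nd (nat_lit 6) 
(.lf (nat_lit 73252) (.g (nat_lit 1563) (.e (nat_lit 1673) (nat_lit 116) (.e (nat_lit 401446) (nat_lit 10) (.e (nat_lit 434238) (nat_lit 25) (.e (nat_lit 548897) (nat_lit 14) .nil)))) .nil)) 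
(.lf (nat_lit 73316) (.g (nat_lit 2785) (.e (nat_lit 1674) (nat_lit 116) (.e (nat_lit 401454) (nat_lit 12) (.e (nat_lit 475185) (nat_lit 29) (.e (nat_lit 557109) (nat_lit 15) .nil)))) .nil)))) (.nd (nat_lit 5) (.nd (nat_lit 6) 
(.lf (nat_lit 73236) (.g (nat_lit 2267) (.e (nat_lit 1673) (nat_lit 116) (.e (nat_lit 401446) (nat_lit 10) (.e (nat_lit 434227) (nat_lit 20) (.e (nat_lit 507929) (nat_lit 10) (.e (nat_lit 5779) (nat_lit 317) (.e (nat_lit 180235) (nat_lit 1) (.e (nat_lit 499992) (nat_lit 14) .nil))))))) (.g (nat_lit 0) .nil .nil))) 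
(.lf (nat_lit 73300) (.g (nat_lit 908) (.e (nat_lit 1673) (nat_lit 116) (.e (nat_lit 401450) (nat_lit 12) (.e (nat_lit 475183) (nat_lit 29) .nil))) .nil))) (.nd (nat_lit 6) 
(.lf (nat_lit 73268) (.g (nat_lit 2645) (.e (nat_lit 1673) (nat_lit 116) (.e (nat_lit 401448) (nat_lit 10) (.e (nat_lit 434227) (nat_lit 20) (.e (nat_lit 507929) (nat_lit 10) (.e (nat_lit 5779) (nat_lit 317) (.e (nat_lit 180235) (nat_lit 1) (.e (nat_lit 499984) (nat_lit 14) .nil))))))) (.g (nat_lit 5) .nil .nil))) 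
(.lf (nat_lit 73332) (.g (nat_lit 2500) (.e (nat_lit 1675) (nat_lit 116) (.e (nat_lit 401425) (nat_lit 2) (.e (nat_lit 196672) (nat_lit 15) (.e (nat_lit 81954) (nat_lit 23) (.e (nat_lit 98320) (nat_lit 17) (.e (nat_lit 7490) (nat_lit 402) .nil)))))) (.g (nat_lit 4) .nil .nil)))))) (.nd (nat_lit 4) (.nd (nat_lit 5) (.nd (nat_lit 6) 
(.lf (nat_lit 73228) (.g (nat_lit 1204) (.e (nat_lit 1673) (nat_lit 116) (.e (nat_lit 401446) (nat_lit 10) (.e (nat_lit 434227) (nat_lit 20) (.e (nat_lit 507929) (nat_lit 10) (.e (nat_lit 5777) (nat_lit 317) .nil))))) .nil)) 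
(.lf (nat_lit 73292) (.g (nat_lit 3187) (.e (nat_lit 1673) (nat_lit 116) (.e (nat_lit 401448) (nat_lit 10) (.e (nat_lit 434231) (nat_lit 23) (.e (nat_lit 532569) (nat_lit 16) (.e (nat_lit 401448) (nat_lit 10) (.e (nat_lit 434219) (nat_lit 19) (.e (nat_lit 499985) (nat_lit 14) .nil))))))) (.g (nat_lit 4) .nil .nil)))) (.nd (nat_lit 6) 
(.lf (nat_lit 73260) (.g (nat_lit 853) (.e (nat_lit 1673) (nat_lit 116) (.e (nat_lit 401448) (nat_lit 10) (.e (nat_lit 434227) (nat_lit 20) .nil))) .nil)) 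
(.lf (nat_lit 73324) (.g (nat_lit 2282) (.e (nat_lit 1674) (nat_lit 116) (.e (nat_lit 401457) (nat_lit 13) (.e (nat_lit 483413) (nat_lit 27) (.e (nat_lit 401448) (nat_lit 10) .nil)))) .nil)))) (.nd (nat_lit 5) (.nd (nat_lit 6) 
(.lf (nat_lit 73244) (.g (nat_lit 1946) (.e (nat_lit 1673) (nat_lit 116) (.e (nat_lit 401446) (nat_lit 10) (.e (nat_lit 434227) (nat_lit 20) (.e (nat_lit 507930) (nat_lit 10) (.e (nat_lit 5779) (nat_lit 317) (.e (nat_lit 180235) (nat_lit 1) (.e (nat_lit 499984) (nat_lit 14) .nil))))))) (.g (nat_lit 5) .nil .nil))) 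
(.lf (nat_lit 73308) (.g (nat_lit 2938) (.e (nat_lit 1673) (nat_lit 116) (.e (nat_lit 401456) (nat_lit 13) (.e (nat_lit 483413) (nat_lit 27) (.e (nat_lit 401447) (nat_lit 10) (.e (nat_lit 434283) (nat_lit 41) .nil))))) .nil))) (.nd (nat_lit 6) 
(.lf (nat_lit 73276) (.g (nat_lit 5009) (.e (nat_lit 1673) (nat_lit 116) (.e (nat_lit 401448) (nat_lit 10) (.e (nat_lit 434227) (nat_lit 20) (.e (nat_lit 507946) (nat_lit 18) (.e (nat_lit 303131) (nat_lit 9) (.e (nat_lit 426125) (nat_lit 2) (.e (nat_lit 196637) (nat_lit 9) .nil))))))) (.g (nat_lit 7) .nil .nil))) 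
(.lf (nat_lit 73340) (.g (nat_lit 947) (.e (nat_lit 1675) (nat_lit 116) (.e (nat_lit 401457) (nat_lit 13) (.e (nat_lit 483413) (nat_lit 27) .nil))) .nil))))))) (.nd (nat_lit 2) (.nd (nat_lit 3) (.nd (nat_lit 4) (.nd (nat_lit 5) (.nd (nat_lit 6) 
(.lf (nat_lit 73218) (.g (nat_lit 2105) (.e (nat_lit 1672) (nat_lit 116) (.e (nat_lit 401453) (nat_lit 12) (.e (nat_lit 475207) (nat_lit 41) (.e (nat_lit 712755) (nat_lit 30) (.e (nat_lit 450597) (nat_lit 17) (.e (nat_lit 663555) (nat_lit 0) .nil)))))) (.g (nat_lit 6) .nil .nil))) 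
(.lf (nat_lit 73282) (.g (nat_lit 2657) (.e (nat_lit 1673) (nat_lit 116) (.e (nat_lit 401448) (nat_lit 10) (.e (nat_lit 434231) (nat_lit 23) (.e (nat_lit 532483) (nat_lit 0) .nil)))) .nil))) (.nd (nat_lit 6) 
(.lf (nat_lit 73250) (.g (nat_lit 1980) (.e (nat_lit 1673) (nat_lit 116) (.e (nat_lit 401446) (nat_lit 10) (.e (nat_lit 434231) (nat_lit 23) (.e (nat_lit 532569) (nat_lit 16) (.e (nat_lit 401448) (nat_lit 10) .nil))))) .nil)) 
(.lf (nat_lit 73314) (.g (nat_lit 3384) (.e (nat_lit 1674) (nat_lit 116) (.e (nat_lit 401454) (nat_lit 12) (.e (nat_lit 475184) (nat_lit 29) (.e (nat_lit 557109) (nat_lit 15) (.e (nat_lit 188458) (nat_lit 25) (.e (nat_lit 245781) (nat_lit 9) .nil)))))) (.g (nat_lit 0) .nil .nil))))) (.nd (nat_lit 5) (.nd (nat_lit 6) 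
(.lf (nat_lit 73234) (.g (nat_lit 1924) (.e (nat_lit 1673) (nat_lit 116) (.e (nat_lit 401446) (nat_lit 10) (.e (nat_lit 434227) (nat_lit 20) (.e (nat_lit 507929) (nat_lit 10) (.e (nat_lit 5779) (nat_lit 317) (.e (nat_lit 180235) (nat_lit 1) (.e (nat_lit 499984) (nat_lit 14) .nil))))))) (.g (nat_lit 5) .nil .nil))) 
(.lf (nat_lit 73298) (.g (nat_lit 1962) (.e (nat_lit 1673) (nat_lit 116) (.e (nat_lit 401448) (nat_lit 10) (.e (nat_lit 434244) (nat_lit 28) (.e (nat_lit 573471) (nat_lit 11) .nil)))) .nil))) (.nd (nat_lit 6) 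
(.lf (nat_lit 73266) (.g (nat_lit 2690) (.e (nat_lit 1673) (nat_lit 116) (.e (nat_lit 401448) (nat_lit 10) (.e (nat_lit 434227) (nat_lit 20) (.e (nat_lit 507929) (nat_lit 10) (.e (nat_lit 5777) (nat_lit 317) (.e (nat_lit 180239) (nat_lit 1) (.e (nat_lit 499991) (nat_lit 14) .nil))))))) (.g (nat_lit 7) .nil .nil))) 
(.lf (nat_lit 73330) (.g (nat_lit 1946) (.e (nat_lit 1675) (nat_lit 116) (.e (nat_lit 401425) (nat_lit 2) (.e (nat_lit 196666) (nat_lit 13) (.e (nat_lit 65617) (nat_lit 10) .nil)))) .nil))))) (.nd (nat_lit 4) (.nd (nat_lit 5) (.nd (nat_lit 6) 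
(.lf (nat_lit 73226) (.g (nat_lit 1550) (.e (nat_lit 1673) (nat_lit 116) (.e (nat_lit 401446) (nat_lit 10) (.e (nat_lit 434227) (nat_lit 20) (.e (nat_lit 507928) (nat_lit 10) (.e (nat_lit 5779) (nat_lit 317) (.e (nat_lit 180235) (nat_lit 1) (.e (nat_lit 499990) (nat_lit 14) .nil))))))) (.g (nat_lit 4) .nil .nil))) 
(.lf (nat_lit 73290) (.g (nat_lit 3198) (.e (nat_lit 1673) (nat_lit 116) (.e (nat_lit 401448) (nat_lit 10) (.e (nat_lit 434231) (nat_lit 23) (.e (nat_lit 532569) (nat_lit 16) (.e (nat_lit 401448) (nat_lit 10) (.e (nat_lit 434219) (nat_lit 19) (.e (nat_lit 499952) (nat_lit 14) .nil))))))) (.g (nat_lit 4) .nil .nil)))) (.nd (nat_lit 6) 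
(.lf (nat_lit 73258) (.g (nat_lit 3391) (.e (nat_lit 1673) (nat_lit 116) (.e (nat_lit 401447) (nat_lit 10) (.e (nat_lit 434238) (nat_lit 25) (.e (nat_lit 548915) (nat_lit 20) (.e (nat_lit 188458) (nat_lit 25) (.e (nat_lit 245784) (nat_lit 9) .nil)))))) (.g (nat_lit 0) .nil .nil))) 
(.lf (nat_lit 73322) (.g (nat_lit 3096) (.e (nat_lit 1674) (nat_lit 116) (.e (nat_lit 401457) (nat_lit 13) (.e (nat_lit 483413) (nat_lit 27) (.e (nat_lit 401446) (nat_lit 10) (.e (nat_lit 434203) (nat_lit 18) .nil))))) .nil)))) (.nd (nat_lit 5) (.nd (nat_lit 6) 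
(.lf (nat_lit 73242) (.g (nat_lit 1581) (.e (nat_lit 1673) (nat_lit 116) (.e (nat_lit 401446) (nat_lit 10) (.e (nat_lit 434227) (nat_lit 20) (.e (nat_lit 507930) (nat_lit 10) (.e (nat_lit 5779) (nat_lit 317) (.e (nat_lit 180235) (nat_lit 1) (.e (nat_lit 499975) (nat_lit 14) .nil))))))) (.g (nat_lit 5) .nil .nil))) 
(.lf (nat_lit 73306) (.g (nat_lit 721) (.e (nat_lit 1673) (nat_lit 116) (.e (nat_lit 401456) (nat_lit 13) (.e (nat_lit 483413) (nat_lit 27) .nil))) .nil))) (.nd (nat_lit 6) 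
(.lf (nat_lit 73274) (.g (nat_lit 2647) (.e (nat_lit 1673) (nat_lit 116) (.e (nat_lit 401448) (nat_lit 10) (.e (nat_lit 434227) (nat_lit 20) (.e (nat_lit 507930) (nat_lit 10) (.e (nat_lit 5779) (nat_lit 317) (.e (nat_lit 180235) (nat_lit 1) (.e (nat_lit 499984) (nat_lit 14) .nil))))))) (.g (nat_lit 5) .nil .nil))) 
(.lf (nat_lit 73338) (.g (nat_lit 2411) (.e (nat_lit 1675) (nat_lit 116) (.e (nat_lit 401457) (nat_lit 13) (.e (nat_lit 483346) (nat_lit 17) (.e (nat_lit 2367) (nat_lit 153) .nil)))) .nil)))))) (.nd (nat_lit 3) (.nd (nat_lit 4) (.nd (nat_lit 5) (.nd (nat_lit 6) 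
(.lf (nat_lit 73222) (.g (nat_lit 598) (.e (nat_lit 1673) (nat_lit 116) (.e (nat_lit 401446) (nat_lit 10) (.e (nat_lit 434227) (nat_lit 20) .nil))) .nil)) 
(.lf (nat_lit 73286) (.g (nat_lit 2797) (.e (nat_lit 1673) (nat_lit 116) (.e (nat_lit 401448) (nat_lit 10) (.e (nat_lit 434231) (nat_lit 23) (.e (nat_lit 532569) (nat_lit 16) (.e (nat_lit 401446) (nat_lit 10) (.e (nat_lit 434219) (nat_lit 19) (.e (nat_lit 499952) (nat_lit 14) .nil))))))) (.g (nat_lit 4) .nil .nil)))) (.nd (nat_lit 6) 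
(.lf (nat_lit 73254) (.g (nat_lit 2089) (.e (nat_lit 1673) (nat_lit 116) (.e (nat_lit 401446) (nat_lit 10) (.e (nat_lit 434244) (nat_lit 28) (.e (nat_lit 573471) (nat_lit 11) (.e (nat_lit 16440) (nat_lit 9) (.e (nat_lit 426125) (nat_lit 2) (.e (nat_lit 196637) (nat_lit 9) .nil))))))) (.g (nat_lit 4) .nil .nil))) 
(.lf (nat_lit 73318) (.g (nat_lit 2653) (.e (nat_lit 1674) (nat_lit 116) (.e (nat_lit 401454) (nat_lit 12) (.e (nat_lit 475209) (nat_lit 41) (.e (nat_lit 712755) (nat_lit 30) (.e (nat_lit 450597) (nat_lit 17) .nil))))) .nil)))) (.nd (nat_lit 5) (.nd (nat_lit 6) 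
(.lf (nat_lit 73238) (.g (nat_lit 1009) (.e (nat_lit 1673) (nat_lit 116) (.e (nat_lit 401446) (nat_lit 10) (.e (nat_lit 434227) (nat_lit 20) (.e (nat_lit 507930) (nat_lit 10) .nil)))) .nil)) 
(.lf (nat_lit 73302) (.g (nat_lit 864) (.e (nat_lit 1673) (nat_lit 116) (.e (nat_lit 401450) (nat_lit 12) (.e (nat_lit 475211) (nat_lit 41) .nil))) .nil))) (.nd (nat_lit 6) 
(.lf (nat_lit 73270) (.g (nat_lit 3049) (.e (nat_lit 1673) (nat_lit 116) (.e (nat_lit 401448) (nat_lit 10) (.e (nat_lit 434227) (nat_lit 20) (.e (nat_lit 507930) (nat_lit 10) (.e (nat_lit 5770) (nat_lit 316) (.e (nat_lit 172073) (nat_lit 5) (.e (nat_lit 245784) (nat_lit 9) .nil))))))) (.g (nat_lit 0) .nil .nil))) 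
(.lf (nat_lit 73334) (.g (nat_lit 2244) (.e (nat_lit 1675) (nat_lit 116) (.e (nat_lit 401456) (nat_lit 13) (.e (nat_lit 483413) (nat_lit 27) (.e (nat_lit 401446) (nat_lit 10) (.e (nat_lit 434203) (nat_lit 18) .nil))))) .nil))))) (.nd (nat_lit 4) (.nd (nat_lit 5) (.nd (nat_lit 6) 
(.lf (nat_lit 73230) (.g (nat_lit 2230) (.e (nat_lit 1673) (nat_lit 116) (.e (nat_lit 401446) (nat_lit 10) (.e (nat_lit 434227) (nat_lit 20) (.e (nat_lit 507929) (nat_lit 10) (.e (nat_lit 5779) (nat_lit 317) (.e (nat_lit 180235) (nat_lit 1) (.e (nat_lit 499974) (nat_lit 14) .nil))))))) (.g (nat_lit 0) .nil .nil))) 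
(.lf (nat_lit 73294) (.g (nat_lit 2791) (.e (nat_lit 1673) (nat_lit 116) (.e (nat_lit 401448) (nat_lit 10) (.e (nat_lit 434231) (nat_lit 23) (.e (nat_lit 532569) (nat_lit 16) (.e (nat_lit 401448) (nat_lit 10) (.e (nat_lit 434221) (nat_lit 19) (.e (nat_lit 499992) (nat_lit 14) .nil))))))) (.g (nat_lit 4) .nil .nil)))) (.nd (nat_lit 6) 
(.lf (nat_lit 73262) (.g (nat_lit 2405) (.e (nat_lit 1673) (nat_lit 116) (.e (nat_lit 401448) (nat_lit 10) (.e (nat_lit 434227) (nat_lit 20) (.e (nat_lit 507928) (nat_lit 10) (.e (nat_lit 5779) (nat_lit 317) (.e (nat_lit 180235) (nat_lit 1) (.e (nat_lit 499981) (nat_lit 14) .nil))))))) (.g (nat_lit 5) .nil .nil))) 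
(.lf (nat_lit 73326) (.g (nat_lit 1017) (.e (nat_lit 1674) (nat_lit 116) (.e (nat_lit 401459) (nat_lit 13) (.e (nat_lit 483347) (nat_lit 17) .nil))) .nil)))) (.nd (nat_lit 5) (.nd (nat_lit 6) 
(.lf (nat_lit 73246) (.g (nat_lit 2289) (.e (nat_lit 1673) (nat_lit 116) (.e (nat_lit 401446) (nat_lit 10) (.e (nat_lit 434227) (nat_lit 20) (.e (nat_lit 507930) (nat_lit 10) (.e (nat_lit 5779) (nat_lit 317) (.e (nat_lit 180235) (nat_lit 1) (.e (nat_lit 499992) (nat_lit 14) .nil))))))) (.g (nat_lit 0) .nil .nil))) 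
(.lf (nat_lit 73310) (.g (nat_lit 3920) (.e (nat_lit 1673) (nat_lit 116) (.e (nat_lit 401456) (nat_lit 13) (.e (nat_lit 483413) (nat_lit 27) (.e (nat_lit 401448) (nat_lit 10) (.e (nat_lit 434283) (nat_lit 41) (.e (nat_lit 679948) (nat_lit 5) .nil)))))) (.g (nat_lit 4) .nil .nil)))) (.nd (nat_lit 6) 
(.lf (nat_lit 73278) (.g (nat_lit 2248) (.e (nat_lit 1673) (nat_lit 116) (.e (nat_lit 401448) (nat_lit 10) (.e (nat_lit 434229) (nat_lit 22) (.e (nat_lit 524340) (nat_lit 28) (.e (nat_lit 352322) (nat_lit 26) (.e (nat_lit 155392) (nat_lit 0) .nil)))))) (.g (nat_lit 4) .nil .nil))) 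
(.lf (nat_lit 73342) (.g (nat_lit 3286) (.e (nat_lit 1675) (nat_lit 116) (.e (nat_lit 401457) (nat_lit 13) (.e (nat_lit 483413) (nat_lit 27) (.e (nat_lit 401446) (nat_lit 10) (.e (nat_lit 434200) (nat_lit 18) .nil))))) .nil)))))))) (.nd (nat_lit 1) (.nd (nat_lit 2) (.nd (nat_lit 3) (.nd (nat_lit 4) (.nd (nat_lit 5) (.nd (nat_lit 6) 
(.lf (nat_lit 73217) (.g (nat_lit 1392) (.e (nat_lit 1672) (nat_lit 116) (.e (nat_lit 401453) (nat_lit 12) (.e (nat_lit 475207) (nat_lit 41) (.e (nat_lit 712755) (nat_lit 30) (.e (nat_lit 450597) (nat_lit 17) .nil))))) .nil)) 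
(.lf (nat_lit 73281) (.g (nat_lit 1573) (.e (nat_lit 1673) (nat_lit 116) (.e (nat_lit 401448) (nat_lit 10) (.e (nat_lit 434231) (nat_lit 23) (.e (nat_lit 532482) (nat_lit 0) .nil)))) .nil))) (.nd (nat_lit 6) 
(.lf (nat_lit 73249) (.g (nat_lit 2219) (.e (nat_lit 1673) (nat_lit 116) (.e (nat_lit 401446) (nat_lit 10) (.e (nat_lit 434231) (nat_lit 23) (.e (nat_lit 532490) (nat_lit 0) (.e (nat_lit 7936) (nat_lit 362) .nil))))) .nil)) 
(.lf (nat_lit 73313) (.g (nat_lit 1364) (.e (nat_lit 1674) (nat_lit 116) (.e (nat_lit 401451) (nat_lit 12) (.e (nat_lit 475207) (nat_lit 41) .nil))) .nil)))) (.nd (nat_lit 5) (.nd (nat_lit 6) 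
(.lf (nat_lit 73233) (.g (nat_lit 2205) (.e (nat_lit 1673) (nat_lit 116) (.e (nat_lit 401446) (nat_lit 10) (.e (nat_lit 434227) (nat_lit 20) (.e (nat_lit 507929) (nat_lit 10) (.e (nat_lit 5779) (nat_lit 317) (.e (nat_lit 180235) (nat_lit 1) (.e (nat_lit 499983) (nat_lit 14) .nil))))))) (.g (nat_lit 0) .nil .nil))) 
(.lf (nat_lit 73297) (.g (nat_lit 1979) (.e (nat_lit 1673) (nat_lit 116) (.e (nat_lit 401448) (nat_lit 10) (.e (nat_lit 434238) (nat_lit 25) (.e (nat_lit 548913) (nat_lit 18) .nil)))) .nil))) (.nd (nat_lit 6) 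
(.lf (nat_lit 73265) (.g (nat_lit 2872) (.e (nat_lit 1673) (nat_lit 116) (.e (nat_lit 401448) (nat_lit 10) (.e (nat_lit 434227) (nat_lit 20) (.e (nat_lit 507929) (nat_lit 10) (.e (nat_lit 5770) (nat_lit 316) (.e (nat_lit 172073) (nat_lit 5) (.e (nat_lit 245784) (nat_lit 9) .nil))))))) (.g (nat_lit 0) .nil .nil))) 
(.lf (nat_lit 73329) (.g (nat_lit 5139) (.e (nat_lit 1675) (nat_lit 116) (.e (nat_lit 401425) (nat_lit 2) (.e (nat_lit 196666) (nat_lit 13) (.e (nat_lit 65610) (nat_lit 10) (.e (nat_lit 344117) (nat_lit 21) (.e (nat_lit 516098) (nat_lit 0) (.e (nat_lit 7490) (nat_lit 402) .nil))))))) (.g (nat_lit 7) .nil .nil)))))) (.nd (nat_lit 4) (.nd (nat_lit 5) (.nd (nat_lit 6) 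
(.lf (nat_lit 73225) (.g (nat_lit 1916) (.e (nat_lit 1673) (nat_lit 116) (.e (nat_lit 401446) (nat_lit 10) (.e (nat_lit 434227) (nat_lit 20) (.e (nat_lit 507928) (nat_lit 10) (.e (nat_lit 5779) (nat_lit 317) (.e (nat_lit 180235) (nat_lit 1) (.e (nat_lit 499984) (nat_lit 14) .nil))))))) (.g (nat_lit 5) .nil .nil))) 
(.lf (nat_lit 73289) (.g (nat_lit 2863) (.e (nat_lit 1673) (nat_lit 116) (.e (nat_lit 401448) (nat_lit 10) (.e (nat_lit 434231) (nat_lit 23) (.e (nat_lit 532569) (nat_lit 16) (.e (nat_lit 401448) (nat_lit 10) (.e (nat_lit 434217) (nat_lit 19) (.e (nat_lit 499985) (nat_lit 14) .nil))))))) (.g (nat_lit 4) .nil .nil)))) (.nd (nat_lit 6) 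
(.lf (nat_lit 73257) (.g (nat_lit 2840) (.e (nat_lit 1673) (nat_lit 116) (.e (nat_lit 401447) (nat_lit 10) (.e (nat_lit 434238) (nat_lit 25) (.e (nat_lit 548915) (nat_lit 20) (.e (nat_lit 188456) (nat_lit 25) (.e (nat_lit 245784) (nat_lit 9) .nil)))))) (.g (nat_lit 5) .nil .nil))) 
(.lf (nat_lit 73321) (.g (nat_lit 1944) (.e (nat_lit 1674) (nat_lit 116) (.e (nat_lit 401457) (nat_lit 13) (.e (nat_lit 483413) (nat_lit 27) (.e (nat_lit 401446) (nat_lit 10) .nil)))) .nil)))) (.nd (nat_lit 5) (.nd (nat_lit 6) 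
(.lf (nat_lit 73241) (.g (nat_lit 2255) (.e (nat_lit 1673) (nat_lit 116) (.e (nat_lit 401446) (nat_lit 10) (.e (nat_lit 434227) (nat_lit 20) (.e (nat_lit 507930) (nat_lit 10) (.e (nat_lit 5779) (nat_lit 317) (.e (nat_lit 180235) (nat_lit 1) (.e (nat_lit 499974) (nat_lit 14) .nil))))))) (.g (nat_lit 0) .nil .nil))) 
(.lf (nat_lit 73305) (.g (nat_lit 3449) (.e (nat_lit 1673) (nat_lit 116) (.e (nat_lit 401451) (nat_lit 12) (.e (nat_lit 475207) (nat_lit 41) (.e (nat_lit 712755) (nat_lit 30) (.e (nat_lit 450597) (nat_lit 17) (.e (nat_lit 663555) (nat_lit 0) .nil)))))) (.g (nat_lit 5) .nil .nil)))) (.nd (nat_lit 6) 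
(.lf (nat_lit 73273) (.g (nat_lit 2474) (.e (nat_lit 1673) (nat_lit 116) (.e (nat_lit 401448) (nat_lit 10) (.e (nat_lit 434227) (nat_lit 20) (.e (nat_lit 507930) (nat_lit 10) (.e (nat_lit 5779) (nat_lit 317) (.e (nat_lit 180235) (nat_lit 1) (.e (nat_lit 499981) (nat_lit 14) .nil))))))) (.g (nat_lit 5) .nil .nil))) 
(.lf (nat_lit 73337) (.g (nat_lit 2645) (.e (nat_lit 1675) (nat_lit 116) (.e (nat_lit 401456) (nat_lit 13) (.e (nat_lit 483413) (nat_lit 27) (.e (nat_lit 401451) (nat_lit 12) (.e (nat_lit 483072) (nat_lit 8) .nil))))) (.g (nat_lit 4) .nil .nil))))))) (.nd (nat_lit 3) (.nd (nat_lit 4) (.nd (nat_lit 5) (.nd (nat_lit 6) 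
(.lf (nat_lit 73221) (.g (nat_lit 2536) (.e (nat_lit 1673) (nat_lit 116) (.e (nat_lit 401444) (nat_lit 9) (.e (nat_lit 426401) (nat_lit 15) (.e (nat_lit 1859) (nat_lit 124) (.e (nat_lit 557109) (nat_lit 15) (.e (nat_lit 188458) (nat_lit 25) (.e (nat_lit 245784) (nat_lit 9) .nil))))))) (.g (nat_lit 5) .nil .nil))) 
(.lf (nat_lit 73285) (.g (nat_lit 1636) (.e (nat_lit 1673) (nat_lit 116) (.e (nat_lit 401448) (nat_lit 10) (.e (nat_lit 434231) (nat_lit 23) (.e (nat_lit 532569) (nat_lit 16) .nil)))) .nil))) (.nd (nat_lit 6) 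
(.lf (nat_lit 73253) (.g (nat_lit 2795) (.e (nat_lit 1673) (nat_lit 116) (.e (nat_lit 401446) (nat_lit 10) (.e (nat_lit 434238) (nat_lit 25) (.e (nat_lit 548898) (nat_lit 14) (.e (nat_lit 2999) (nat_lit 186) .nil))))) .nil)) 
(.lf (nat_lit 73317) (.g (nat_lit 4286) (.e (nat_lit 1674) (nat_lit 116) (.e (nat_lit 401454) (nat_lit 12) (.e (nat_lit 475185) (nat_lit 29) (.e (nat_lit 557109) (nat_lit 15) (.e (nat_lit 188458) (nat_lit 25) .nil))))) .nil)))) (.nd (nat_lit 5) (.nd (nat_lit 6) 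
(.lf (nat_lit 73237) (.g (nat_lit 2198) (.e (nat_lit 1673) (nat_lit 116) (.e (nat_lit 401446) (nat_lit 10) (.e (nat_lit 434227) (nat_lit 20) (.e (nat_lit 507929) (nat_lit 10) (.e (nat_lit 5779) (nat_lit 317) (.e (nat_lit 180235) (nat_lit 1) (.e (nat_lit 499993) (nat_lit 14) .nil))))))) (.g (nat_lit 0) .nil .nil))) 
(.lf (nat_lit 73301) (.g (nat_lit 3383) (.e (nat_lit 1673) (nat_lit 116) (.e (nat_lit 401450) (nat_lit 12) (.e (nat_lit 475185) (nat_lit 29) (.e (nat_lit 557109) (nat_lit 15) (.e (nat_lit 188458) (nat_lit 25) (.e (nat_lit 245784) (nat_lit 9) .nil)))))) (.g (nat_lit 5) .nil .nil)))) (.nd (nat_lit 6) 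
(.lf (nat_lit 73269) (.g (nat_lit 1497) (.e (nat_lit 1673) (nat_lit 116) (.e (nat_lit 401448) (nat_lit 10) (.e (nat_lit 434227) (nat_lit 20) (.e (nat_lit 507930) (nat_lit 10) .nil)))) .nil)) 
(.lf (nat_lit 73333) (.g (nat_lit 2164) (.e (nat_lit 1675) (nat_lit 116) (.e (nat_lit 401456) (nat_lit 13) (.e (nat_lit 483363) (nat_lit 18) (.e (nat_lit 57688) (nat_lit 156) .nil)))) .nil))))) (.nd (nat_lit 4) (.nd (nat_lit 5) (.nd (nat_lit 6) 
(.lf (nat_lit 73229) (.g (nat_lit 1984) (.e (nat_lit 1673) (nat_lit 116) (.e (nat_lit 401446) (nat_lit 10) (.e (nat_lit 434227) (nat_lit 20) (.e (nat_lit 507929) (nat_lit 10) (.e (nat_lit 5777) (nat_lit 317) (.e (nat_lit 180239) (nat_lit 1) (.e (nat_lit 499991) (nat_lit 14) .nil))))))) (.g (nat_lit 7) .nil .nil))) 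
(.lf (nat_lit 73293) (.g (nat_lit 2698) (.e (nat_lit 1673) (nat_lit 116) (.e (nat_lit 401448) (nat_lit 10) (.e (nat_lit 434231) (nat_lit 23) (.e (nat_lit 532569) (nat_lit 16) (.e (nat_lit 401448) (nat_lit 10) (.e (nat_lit 434221) (nat_lit 19) (.e (nat_lit 499974) (nat_lit 14) .nil))))))) (.g (nat_lit 4) .nil .nil)))) (.nd (nat_lit 6) 
(.lf (nat_lit 73261) (.g (nat_lit 2213) (.e (nat_lit 1673) (nat_lit 116) (.e (nat_lit 401448) (nat_lit 10) (.e (nat_lit 434227) (nat_lit 20) (.e (nat_lit 507928) (nat_lit 10) (.e (nat_lit 5779) (nat_lit 317) (.e (nat_lit 180235) (nat_lit 1) (.e (nat_lit 499975) (nat_lit 14) .nil))))))) (.g (nat_lit 4) .nil .nil))) 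
(.lf (nat_lit 73325) (.g (nat_lit 2404) (.e (nat_lit 1674) (nat_lit 116) (.e (nat_lit 401457) (nat_lit 13) (.e (nat_lit 483413) (nat_lit 27) (.e (nat_lit 401451) (nat_lit 12) .nil)))) .nil)))) (.nd (nat_lit 5) (.nd (nat_lit 6) 
(.lf (nat_lit 73245) (.g (nat_lit 1580) (.e (nat_lit 1673) (nat_lit 116) (.e (nat_lit 401446) (nat_lit 10) (.e (nat_lit 434227) (nat_lit 20) (.e (nat_lit 507930) (nat_lit 10) (.e (nat_lit 5779) (nat_lit 317) (.e (nat_lit 180235) (nat_lit 1) (.e (nat_lit 499990) (nat_lit 14) .nil))))))) (.g (nat_lit 5) .nil .nil))) 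
(.lf (nat_lit 73309) (.g (nat_lit 3365) (.e (nat_lit 1673) (nat_lit 116) (.e (nat_lit 401456) (nat_lit 13) (.e (nat_lit 483413) (nat_lit 27) (.e (nat_lit 401448) (nat_lit 10) (.e (nat_lit 434282) (nat_lit 41) .nil))))) .nil))) (.nd (nat_lit 6) 
(.lf (nat_lit 73277) (.g (nat_lit 616) (.e (nat_lit 1673) (nat_lit 116) (.e (nat_lit 401448) (nat_lit 10) (.e (nat_lit 434228) (nat_lit 22) .nil))) .nil)) 
(.lf (nat_lit 73341) (.g (nat_lit 1735) (.e (nat_lit 1675) (nat_lit 116) (.e (nat_lit 401457) (nat_lit 13) (.e (nat_lit 483413) (nat_lit 27) (.e (nat_lit 401446) (nat_lit 10) .nil)))) .nil))))))) (.nd (nat_lit 2) (.nd (nat_lit 3) (.nd (nat_lit 4) (.nd (nat_lit 5) (.nd (nat_lit 6) 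
(.lf (nat_lit 73219) (.g (nat_lit 2713) (.e (nat_lit 1673) (nat_lit 116) (.e (nat_lit 401424) (nat_lit 2) (.e (nat_lit 196666) (nat_lit 13) (.e (nat_lit 65610) (nat_lit 10) (.e (nat_lit 344117) (nat_lit 21) .nil))))) .nil)) 
(.lf (nat_lit 73283) (.g (nat_lit 1512) (.e (nat_lit 1673) (nat_lit 116) (.e (nat_lit 401448) (nat_lit 10) (.e (nat_lit 434231) (nat_lit 23) (.e (nat_lit 532490) (nat_lit 0) .nil)))) .nil))) (.nd (nat_lit 6) 
(.lf (nat_lit 73251) (.g (nat_lit 2002) (.e (nat_lit 1673) (nat_lit 116) (.e (nat_lit 401446) (nat_lit 10) (.e (nat_lit 434231) (nat_lit 23) (.e (nat_lit 532569) (nat_lit 16) (.e (nat_lit 401448) (nat_lit 10) (.e (nat_lit 434221) (nat_lit 19) (.e (nat_lit 499992) (nat_lit 14) .nil))))))) (.g (nat_lit 4) .nil .nil))) 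
(.lf (nat_lit 73315) (.g (nat_lit 3169) (.e (nat_lit 1674) (nat_lit 116) (.e (nat_lit 401454) (nat_lit 12) (.e (nat_lit 475185) (nat_lit 29) (.e (nat_lit 557107) (nat_lit 15) .nil)))) .nil)))) (.nd (nat_lit 5) (.nd (nat_lit 6) 
(.lf (nat_lit 73235) (.g (nat_lit 1558) (.e (nat_lit 1673) (nat_lit 116) (.e (nat_lit 401446) (nat_lit 10) (.e (nat_lit 434227) (nat_lit 20) (.e (nat_lit 507929) (nat_lit 10) (.e (nat_lit 5779) (nat_lit 317) (.e (nat_lit 180235) (nat_lit 1) (.e (nat_lit 499990) (nat_lit 14) .nil))))))) (.g (nat_lit 5) .nil .nil))) 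
(.lf (nat_lit 73299) (.g (nat_lit 692) (.e (nat_lit 1673) (nat_lit 116) (.e (nat_lit 401448) (nat_lit 10) (.e (nat_lit 434289) (nat_lit 43) .nil))) .nil))) (.nd (nat_lit 6) 
(.lf (nat_lit 73267) (.g (nat_lit 2472) (.e (nat_lit 1673) (nat_lit 116) (.e (nat_lit 401448) (nat_lit 10) (.e (nat_lit 434227) (nat_lit 20) (.e (nat_lit 507929) (nat_lit 10) (.e (nat_lit 5779) (nat_lit 317) (.e (nat_lit 180235) (nat_lit 1) (.e (nat_lit 499981) (nat_lit 14) .nil))))))) (.g (nat_lit 5) .nil .nil))) 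
(.lf (nat_lit 73331) (.g (nat_lit 2268) (.e (nat_lit 1675) (nat_lit 116) (.e (nat_lit 401425) (nat_lit 2) (.e (nat_lit 196672) (nat_lit 15) (.e (nat_lit 81954) (nat_lit 23) (.e (nat_lit 98319) (nat_lit 17) (.e (nat_lit 7490) (nat_lit 402) .nil)))))) (.g (nat_lit 4) .nil .nil)))))) (.nd (nat_lit 4) (.nd (nat_lit 5) (.nd (nat_lit 6) 
(.lf (nat_lit 73227) (.g (nat_lit 1283) (.e (nat_lit 1673) (nat_lit 116) (.e (nat_lit 401446) (nat_lit 10) (.e (nat_lit 434227) (nat_lit 20) (.e (nat_lit 507929) (nat_lit 10) (.e (nat_lit 5776) (nat_lit 317) .nil))))) .nil)) 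
(.lf (nat_lit 73291) (.g (nat_lit 2625) (.e (nat_lit 1673) (nat_lit 116) (.e (nat_lit 401448) (nat_lit 10) (.e (nat_lit 434231) (nat_lit 23) (.e (nat_lit 532569) (nat_lit 16) (.e (nat_lit 401448) (nat_lit 10) (.e (nat_lit 434219) (nat_lit 19) (.e (nat_lit 499976) (nat_lit 14) .nil))))))) (.g (nat_lit 4) .nil .nil)))) (.nd (nat_lit 6) 
(.lf (nat_lit 73259) (.g (nat_lit 696) (.e (nat_lit 1673) (nat_lit 116) (.e (nat_lit 401448) (nat_lit 10) (.e (nat_lit 434226) (nat_lit 20) .nil))) .nil)) 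
(.lf (nat_lit 73323) (.g (nat_lit 4028) (.e (nat_lit 1674) (nat_lit 116) (.e (nat_lit 401457) (nat_lit 13) (.e (nat_lit 483413) (nat_lit 27) (.e (nat_lit 401447) (nat_lit 10) (.e (nat_lit 434203) (nat_lit 18) .nil))))) .nil)))) (.nd (nat_lit 5) (.nd (nat_lit 6) 
(.lf (nat_lit 73243) (.g (nat_lit 1773) (.e (nat_lit 1673) (nat_lit 116) (.e (nat_lit 401446) (nat_lit 10) (.e (nat_lit 434227) (nat_lit 20) (.e (nat_lit 507930) (nat_lit 10) (.e (nat_lit 5779) (nat_lit 317) (.e (nat_lit 180235) (nat_lit 1) (.e (nat_lit 499981) (nat_lit 14) .nil))))))) (.g (nat_lit 5) .nil .nil))) 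
(.lf (nat_lit 73307) (.g (nat_lit 2696) (.e (nat_lit 1673) (nat_lit 116) (.e (nat_lit 401456) (nat_lit 13) (.e (nat_lit 483413) (nat_lit 27) (.e (nat_lit 401446) (nat_lit 10) (.e (nat_lit 434283) (nat_lit 41) .nil))))) .nil))) (.nd (nat_lit 6) 
(.lf (nat_lit 73275) (.g (nat_lit 2281) (.e (nat_lit 1673) (nat_lit 116) (.e (nat_lit 401448) (nat_lit 10) (.e (nat_lit 434227) (nat_lit 20) (.e (nat_lit 507930) (nat_lit 10) (.e (nat_lit 5779) (nat_lit 317) (.e (nat_lit 180235) (nat_lit 1) (.e (nat_lit 499990) (nat_lit 14) .nil))))))) (.g (nat_lit 4) .nil .nil))) 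
(.lf (nat_lit 73339) (.g (nat_lit 2361) (.e (nat_lit 1675) (nat_lit 116) (.e (nat_lit 401457) (nat_lit 13) (.e (nat_lit 483363) (nat_lit 18) (.e (nat_lit 57688) (nat_lit 156) .nil)))) .nil)))))) (.nd (nat_lit 3) (.nd (nat_lit 4) (.nd (nat_lit 5) (.nd (nat_lit 6) 
(.lf (nat_lit 73223) (.g (nat_lit 1551) (.e (nat_lit 1673) (nat_lit 116) (.e (nat_lit 401446) (nat_lit 10) (.e (nat_lit 434227) (nat_lit 20) (.e (nat_lit 507928) (nat_lit 10) (.e (nat_lit 5779) (nat_lit 317) (.e (nat_lit 180235) (nat_lit 1) (.e (nat_lit 499975) (nat_lit 14) .nil))))))) (.g (nat_lit 4) .nil .nil))) 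
(.lf (nat_lit 73287) (.g (nat_lit 2786) (.e (nat_lit 1673) (nat_lit 116) (.e (nat_lit 401448) (nat_lit 10) (.e (nat_lit 434231) (nat_lit 23) (.e (nat_lit 532569) (nat_lit 16) (.e (nat_lit 401446) (nat_lit 10) (.e (nat_lit 434219) (nat_lit 19) (.e (nat_lit 499985) (nat_lit 14) .nil))))))) (.g (nat_lit 4) .nil .nil)))) (.nd (nat_lit 6) 
(.lf (nat_lit 73255) (.g (nat_lit 2519) (.e (nat_lit 1673) (nat_lit 116) (.e (nat_lit 401447) (nat_lit 10) (.e (nat_lit 434231) (nat_lit 23) (.e (nat_lit 532569) (nat_lit 16) (.e (nat_lit 401448) (nat_lit 10) .nil))))) .nil)) 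
(.lf (nat_lit 73319) (.g (nat_lit 2597) (.e (nat_lit 1674) (nat_lit 116) (.e (nat_lit 401454) (nat_lit 12) (.e (nat_lit 475210) (nat_lit 41) (.e (nat_lit 712755) (nat_lit 30) (.e (nat_lit 450597) (nat_lit 17) (.e (nat_lit 663552) (nat_lit 0) .nil)))))) (.g (nat_lit 4) .nil .nil))))) (.nd (nat_lit 5) (.nd (nat_lit 6) 
(.lf (nat_lit 73239) (.g (nat_lit 1274) (.e (nat_lit 1673) (nat_lit 116) (.e (nat_lit 401446) (nat_lit 10) (.e (nat_lit 434227) (nat_lit 20) (.e (nat_lit 507930) (nat_lit 10) (.e (nat_lit 5776) (nat_lit 317) .nil))))) .nil)) 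
(.lf (nat_lit 73303) (.g (nat_lit 3742) (.e (nat_lit 1673) (nat_lit 116) (.e (nat_lit 401451) (nat_lit 12) (.e (nat_lit 475184) (nat_lit 29) (.e (nat_lit 557109) (nat_lit 15) (.e (nat_lit 188458) (nat_lit 25) (.e (nat_lit 245784) (nat_lit 9) .nil)))))) (.g (nat_lit 0) .nil .nil)))) (.nd (nat_lit 6) 
(.lf (nat_lit 73271) (.g (nat_lit 2663) (.e (nat_lit 1673) (nat_lit 116) (.e (nat_lit 401448) (nat_lit 10) (.e (nat_lit 434227) (nat_lit 20) (.e (nat_lit 507930) (nat_lit 10) (.e (nat_lit 5777) (nat_lit 317) (.e (nat_lit 180239) (nat_lit 1) (.e (nat_lit 499991) (nat_lit 14) .nil))))))) (.g (nat_lit 7) .nil .nil))) 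
(.lf (nat_lit 73335) (.g (nat_lit 3188) (.e (nat_lit 1675) (nat_lit 116) (.e (nat_lit 401456) (nat_lit 13) (.e (nat_lit 483413) (nat_lit 27) (.e (nat_lit 401448) (nat_lit 10) (.e (nat_lit 434202) (nat_lit 18) .nil))))) .nil))))) (.nd (nat_lit 4) (.nd (nat_lit 5) (.nd (nat_lit 6) 
(.lf (nat_lit 73231) (.g (nat_lit 1559) (.e (nat_lit 1673) (nat_lit 116) (.e (nat_lit 401446) (nat_lit 10) (.e (nat_lit 434227) (nat_lit 20) (.e (nat_lit 507929) (nat_lit 10) (.e (nat_lit 5779) (nat_lit 317) (.e (nat_lit 180235) (nat_lit 1) (.e (nat_lit 499975) (nat_lit 14) .nil))))))) (.g (nat_lit 5) .nil .nil))) 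
(.lf (nat_lit 73295) (.g (nat_lit 2667) (.e (nat_lit 1673) (nat_lit 116) (.e (nat_lit 401448) (nat_lit 10) (.e (nat_lit 434238) (nat_lit 25) (.e (nat_lit 548898) (nat_lit 14) (.e (nat_lit 2989) (nat_lit 186) .nil))))) .nil))) (.nd (nat_lit 6) 
(.lf (nat_lit 73263) (.g (nat_lit 2578) (.e (nat_lit 1673) (nat_lit 116) (.e (nat_lit 401448) (nat_lit 10) (.e (nat_lit 434227) (nat_lit 20) (.e (nat_lit 507928) (nat_lit 10) (.e (nat_lit 5779) (nat_lit 317) (.e (nat_lit 180235) (nat_lit 1) (.e (nat_lit 499984) (nat_lit 14) .nil))))))) (.g (nat_lit 5) .nil .nil))) 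
(.lf (nat_lit 73327) (.g (nat_lit 1210) (.e (nat_lit 1674) (nat_lit 116) (.e (nat_lit 401459) (nat_lit 13) (.e (nat_lit 483350) (nat_lit 17) .nil))) .nil)))) (.nd (nat_lit 5) (.nd (nat_lit 6) 
(.lf (nat_lit 73247) (.g (nat_lit 4308) (.e (nat_lit 1673) (nat_lit 116) (.e (nat_lit 401446) (nat_lit 10) (.e (nat_lit 434227) (nat_lit 20) (.e (nat_lit 507946) (nat_lit 18) (.e (nat_lit 303131) (nat_lit 9) (.e (nat_lit 426125) (nat_lit 2) (.e (nat_lit 196637) (nat_lit 9) .nil))))))) (.g (nat_lit 0) .nil .nil))) 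
(.lf (nat_lit 73311) (.g (nat_lit 3482) (.e (nat_lit 1673) (nat_lit 116) (.e (nat_lit 401456) (nat_lit 13) (.e (nat_lit 483413) (nat_lit 27) (.e (nat_lit 401448) (nat_lit 10) (.e (nat_lit 434284) (nat_lit 41) .nil))))) .nil))) (.nd (nat_lit 6) 
(.lf (nat_lit 73279) (.g (nat_lit 621) (.e (nat_lit 1673) (nat_lit 116) (.e (nat_lit 401448) (nat_lit 10) (.e (nat_lit 434231) (nat_lit 23) .nil))) .nil)) 
(.lf (nat_lit 73343) (.g (nat_lit 2895) (.e (nat_lit 1675) (nat_lit 116) (.e (nat_lit 401457) (nat_lit 13) (.e (nat_lit 483413) (nat_lit 27) (.e (nat_lit 401446) (nat_lit 10) (.e (nat_lit 434202) (nat_lit 18) .nil))))) .nil)))))))))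

noncomputable def tv996 : DT := (.nd (nat_lit 0) (.nd (nat_lit 1) (.nd (nat_lit 2) (.nd (nat_lit 3) (.nd (nat_lit 4) (.nd (nat_lit 5) (.nd (nat_lit 6) 
(.lf (nat_lit 73344) (.g (nat_lit 2887) (.e (nat_lit 1675) (nat_lit 116) (.e (nat_lit 401457) (nat_lit 13) (.e (nat_lit 483413) (nat_lit 27) (.e (nat_lit 401446) (nat_lit 10) (.e (nat_lit 434203) (nat_lit 18) .nil))))) .nil)) 
(.lf (nat_lit 73408) (.g (nat_lit 3746) (.e (nat_lit 1676) (nat_lit 116) (.e (nat_lit 401457) (nat_lit 13) (.e (nat_lit 483413) (nat_lit 27) (.e (nat_lit 401447) (nat_lit 10) (.e (nat_lit 434203) (nat_lit 18) (.e (nat_lit 5985) (nat_lit 326) (.e (nat_lit 1004) (nat_lit 81) .nil))))))) (.g (nat_lit 4) .nil .nil)))) (.nd (nat_lit 6) 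
(.lf (nat_lit 73376) (.g (nat_lit 3023) (.e (nat_lit 1676) (nat_lit 116) (.e (nat_lit 401454) (nat_lit 12) (.e (nat_lit 475207) (nat_lit 41) (.e (nat_lit 712755) (nat_lit 30) (.e (nat_lit 450596) (nat_lit 17) (.e (nat_lit 663552) (nat_lit 0) .nil)))))) (.g (nat_lit 5) .nil .nil))) 
(.lf (nat_lit 73440) (.g (nat_lit 4282) (.e (nat_lit 1677) (nat_lit 116) (.e (nat_lit 401454) (nat_lit 12) (.e (nat_lit 475185) (nat_lit 29) (.e (nat_lit 557109) (nat_lit 15) (.e (nat_lit 188458) (nat_lit 25) .nil))))) .nil)))) (.nd (nat_lit 5) (.nd (nat_lit 6) 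
(.lf (nat_lit 73360) (.g (nat_lit 2736) (.e (nat_lit 1676) (nat_lit 116) (.e (nat_lit 401438) (nat_lit 9) (.e (nat_lit 426402) (nat_lit 15) (.e (nat_lit 1859) (nat_lit 124) (.e (nat_lit 557107) (nat_lit 15) (.e (nat_lit 188447) (nat_lit 22) (.e (nat_lit 196628) (nat_lit 9) .nil))))))) (.g (nat_lit 7) .nil .nil))) 
(.lf (nat_lit 73424) (.g (nat_lit 2077) (.e (nat_lit 1676) (nat_lit 116) (.e (nat_lit 401459) (nat_lit 13) (.e (nat_lit 483344) (nat_lit 17) (.e (nat_lit 2368) (nat_lit 153) .nil)))) .nil))) (.nd (nat_lit 6) 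
(.lf (nat_lit 73392) (.g (nat_lit 3020) (.e (nat_lit 1676) (nat_lit 116) (.e (nat_lit 401456) (nat_lit 13) (.e (nat_lit 483413) (nat_lit 27) (.e (nat_lit 401448) (nat_lit 10) (.e (nat_lit 434203) (nat_lit 18) .nil))))) .nil)) 
(.lf (nat_lit 73456) (.g (nat_lit 2047) (.e (nat_lit 1691) (nat_lit 117) (.e (nat_lit 499928) (nat_lit 11) (.e (nat_lit 188449) (nat_lit 22) (.e (nat_lit 196626) (nat_lit 9) .nil)))) .nil))))) (.nd (nat_lit 4) (.nd (nat_lit 5) (.nd (nat_lit 6) 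
(.lf (nat_lit 73352) (.g (nat_lit 1551) (.e (nat_lit 1675) (nat_lit 116) (.e (nat_lit 401458) (nat_lit 13) (.e (nat_lit 483350) (nat_lit 17) (.e (nat_lit 7936) (nat_lit 153) .nil)))) .nil)) 
(.lf (nat_lit 73416) (.g (nat_lit 3159) (.e (nat_lit 1676) (nat_lit 116) (.e (nat_lit 401457) (nat_lit 13) (.e (nat_lit 483413) (nat_lit 27) (.e (nat_lit 401448) (nat_lit 10) (.e (nat_lit 434203) (nat_lit 18) .nil))))) .nil))) (.nd (nat_lit 6) 
(.lf (nat_lit 73384) (.g (nat_lit 2342) (.e (nat_lit 1676) (nat_lit 116) (.e (nat_lit 401454) (nat_lit 12) (.e (nat_lit 475210) (nat_lit 41) (.e (nat_lit 712755) (nat_lit 30) (.e (nat_lit 450563) (nat_lit 0) .nil))))) .nil)) 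
(.lf (nat_lit 73448) (.g (nat_lit 1010) (.e (nat_lit 1682) (nat_lit 117) (.e (nat_lit 499919) (nat_lit 9) (.e (nat_lit 179968) (nat_lit 20) (.e (nat_lit 114718) (nat_lit 23) (.e (nat_lit 106240) (nat_lit 11) (.e (nat_lit 352296) (nat_lit 20) .nil)))))) (.g (nat_lit 4) .nil .nil))))) (.nd (nat_lit 5) (.nd (nat_lit 6) 
(.lf (nat_lit 73368) (.g (nat_lit 3274) (.e (nat_lit 1676) (nat_lit 116) (.e (nat_lit 401454) (nat_lit 12) (.e (nat_lit 475183) (nat_lit 29) (.e (nat_lit 557107) (nat_lit 15) (.e (nat_lit 188447) (nat_lit 22) (.e (nat_lit 196628) (nat_lit 9) .nil)))))) (.g (nat_lit 5) .nil .nil))) 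
(.lf (nat_lit 73432) (.g (nat_lit 3849) (.e (nat_lit 1676) (nat_lit 116) (.e (nat_lit 401459) (nat_lit 13) (.e (nat_lit 483372) (nat_lit 21) (.e (nat_lit 319533) (nat_lit 16) .nil)))) .nil))) (.nd (nat_lit 6) 
(.lf (nat_lit 73400) (.g (nat_lit 3177) (.e (nat_lit 1676) (nat_lit 116) (.e (nat_lit 401457) (nat_lit 13) (.e (nat_lit 483413) (nat_lit 27) (.e (nat_lit 401446) (nat_lit 10) (.e (nat_lit 434200) (nat_lit 18) .nil))))) .nil)) 
(.lf (nat_lit 73464) (.g (nat_lit 2645) (.e (nat_lit 1691) (nat_lit 117) (.e (nat_lit 499929) (nat_lit 11) (.e (nat_lit 188450) (nat_lit 23) (.e (nat_lit 204846) (nat_lit 24) (.e (nat_lit 319531) (nat_lit 16) (.e (nat_lit 286722) (nat_lit 0) .nil)))))) (.g (nat_lit 6) .nil .nil))))))) (.nd (nat_lit 3) (.nd (nat_lit 4) (.nd (nat_lit 5) (.nd (nat_lit 6) 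
(.lf (nat_lit 73348) (.g (nat_lit 3152) (.e (nat_lit 1675) (nat_lit 116) (.e (nat_lit 401457) (nat_lit 13) (.e (nat_lit 483413) (nat_lit 27) (.e (nat_lit 401448) (nat_lit 10) (.e (nat_lit 434200) (nat_lit 18) .nil))))) .nil)) 
(.lf (nat_lit 73412) (.g (nat_lit 1807) (.e (nat_lit 1676) (nat_lit 116) (.e (nat_lit 401457) (nat_lit 13) (.e (nat_lit 483413) (nat_lit 27) (.e (nat_lit 401448) (nat_lit 10) .nil)))) .nil))) (.nd (nat_lit 6) 
(.lf (nat_lit 73380) (.g (nat_lit 2524) (.e (nat_lit 1676) (nat_lit 116) (.e (nat_lit 401454) (nat_lit 12) (.e (nat_lit 475209) (nat_lit 41) (.e (nat_lit 712755) (nat_lit 30) (.e (nat_lit 450563) (nat_lit 0) .nil))))) .nil)) 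
(.lf (nat_lit 73444) (.g (nat_lit 1542) (.e (nat_lit 7936) (nat_lit 116) (.e (nat_lit 401451) (nat_lit 12) (.e (nat_lit 475207) (nat_lit 41) (.e (nat_lit 712755) (nat_lit 30) (.e (nat_lit 450597) (nat_lit 17) .nil))))) .nil)))) (.nd (nat_lit 5) (.nd (nat_lit 6) 
(.lf (nat_lit 73364) (.g (nat_lit 3554) (.e (nat_lit 1676) (nat_lit 116) (.e (nat_lit 401452) (nat_lit 12) (.e (nat_lit 475185) (nat_lit 29) (.e (nat_lit 557109) (nat_lit 15) (.e (nat_lit 188449) (nat_lit 22) (.e (nat_lit 196628) (nat_lit 9) .nil)))))) (.g (nat_lit 5) .nil .nil))) 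
(.lf (nat_lit 73428) (.g (nat_lit 2279) (.e (nat_lit 1676) (nat_lit 116) (.e (nat_lit 401459) (nat_lit 13) (.e (nat_lit 483363) (nat_lit 18) (.e (nat_lit 57688) (nat_lit 156) .nil)))) .nil))) (.nd (nat_lit 6) 
(.lf (nat_lit 73396) (.g (nat_lit 3519) (.e (nat_lit 1676) (nat_lit 116) (.e (nat_lit 401456) (nat_lit 13) (.e (nat_lit 483413) (nat_lit 27) (.e (nat_lit 401448) (nat_lit 10) (.e (nat_lit 434284) (nat_lit 41) (.e (nat_lit 679942) (nat_lit 5) .nil)))))) (.g (nat_lit 4) .nil .nil))) 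
(.lf (nat_lit 73460) (.g (nat_lit 3194) (.e (nat_lit 1691) (nat_lit 117) (.e (nat_lit 499928) (nat_lit 11) (.e (nat_lit 188452) (nat_lit 23) (.e (nat_lit 204846) (nat_lit 24) (.e (nat_lit 319531) (nat_lit 16) (.e (nat_lit 286722) (nat_lit 0) .nil)))))) (.g (nat_lit 0) .nil .nil)))))) (.nd (nat_lit 4) (.nd (nat_lit 5) (.nd (nat_lit 6) 
(.lf (nat_lit 73356) (.g (nat_lit 1627) (.e (nat_lit 1676) (nat_lit 116) (.e (nat_lit 401434) (nat_lit 9) (.e (nat_lit 426125) (nat_lit 2) (.e (nat_lit 196661) (nat_lit 12) .nil)))) .nil)) 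
(.lf (nat_lit 73420) (.g (nat_lit 3012) (.e (nat_lit 1676) (nat_lit 116) (.e (nat_lit 401457) (nat_lit 13) (.e (nat_lit 483413) (nat_lit 27) (.e (nat_lit 401448) (nat_lit 10) (.e (nat_lit 434283) (nat_lit 41) .nil))))) .nil))) (.nd (nat_lit 6) 
(.lf (nat_lit 73388) (.g (nat_lit 2226) (.e (nat_lit 1676) (nat_lit 116) (.e (nat_lit 401456) (nat_lit 13) (.e (nat_lit 483413) (nat_lit 27) (.e (nat_lit 401446) (nat_lit 10) (.e (nat_lit 434203) (nat_lit 18) .nil))))) .nil)) 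
(.lf (nat_lit 73452) (.g (nat_lit 3970) (.e (nat_lit 1682) (nat_lit 117) (.e (nat_lit 499929) (nat_lit 11) (.e (nat_lit 188452) (nat_lit 23) (.e (nat_lit 204846) (nat_lit 24) (.e (nat_lit 319534) (nat_lit 16) (.e (nat_lit 286728) (nat_lit 0) .nil)))))) (.g (nat_lit 4) .nil .nil))))) (.nd (nat_lit 5) (.nd (nat_lit 6) 
(.lf (nat_lit 73372) (.g (nat_lit 852) (.e (nat_lit 1676) (nat_lit 116) (.e (nat_lit 401454) (nat_lit 12) (.e (nat_lit 483072) (nat_lit 29) .nil))) .nil)) 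
(.lf (nat_lit 73436) (.g (nat_lit 3386) (.e (nat_lit 1676) (nat_lit 116) (.e (nat_lit 401459) (nat_lit 13) (.e (nat_lit 483411) (nat_lit 27) (.e (nat_lit 401448) (nat_lit 10) (.e (nat_lit 434284) (nat_lit 41) .nil))))) .nil))) (.nd (nat_lit 6) 
(.lf (nat_lit 73404) (.g (nat_lit 3200) (.e (nat_lit 1676) (nat_lit 116) (.e (nat_lit 401457) (nat_lit 13) (.e (nat_lit 483413) (nat_lit 27) (.e (nat_lit 401446) (nat_lit 10) (.e (nat_lit 434283) (nat_lit 41) .nil))))) .nil)) 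
(.lf (nat_lit 73468) (.g (nat_lit 780) (.e (nat_lit 1691) (nat_lit 117) (.e (nat_lit 499929) (nat_lit 11) (.e (nat_lit 188458) (nat_lit 25) (.e (nat_lit 245784) (nat_lit 9) (.e (nat_lit 1399) (nat_lit 106) (.e (nat_lit 327424) (nat_lit 16) (.e (nat_lit 286722) (nat_lit 0) .nil))))))) (.g (nat_lit 5) .nil .nil)))))))) 
(.nd (nat_lit 2) (.nd (nat_lit 3) (.nd (nat_lit 4) (.nd (nat_lit 5) (.nd (nat_lit 6) 
(.lf (nat_lit 73346) (.g (nat_lit 4411) (.e (nat_lit 1675) (nat_lit 116) (.e (nat_lit 401457) (nat_lit 13) (.e (nat_lit 483413) (nat_lit 27) (.e (nat_lit 401447) (nat_lit 10) (.e (nat_lit 434203) (nat_lit 18) (.e (nat_lit 6047) (nat_lit 326) (.e (nat_lit 993) (nat_lit 81) .nil))))))) (.g (nat_lit 5) .nil .nil))) 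
(.lf (nat_lit 73410) (.g (nat_lit 3528) (.e (nat_lit 1676) (nat_lit 116) (.e (nat_lit 401457) (nat_lit 13) (.e (nat_lit 483413) (nat_lit 27) (.e (nat_lit 401447) (nat_lit 10) (.e (nat_lit 434283) (nat_lit 41) .nil))))) .nil))) (.nd (nat_lit 6) 
(.lf (nat_lit 73378) (.g (nat_lit 1077) (.e (nat_lit 1676) (nat_lit 116) (.e (nat_lit 401454) (nat_lit 12) (.e (nat_lit 475208) (nat_lit 41) .nil))) .nil)) 
(.lf (nat_lit 73442) (.g (nat_lit 971) (.e (nat_lit 1677) (nat_lit 116) (.e (nat_lit 401459) (nat_lit 13) (.e (nat_lit 483372) (nat_lit 21) .nil))) .nil)))) (.nd (nat_lit 5) (.nd (nat_lit 6) 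
(.lf (nat_lit 73362) (.g (nat_lit 2426) (.e (nat_lit 1676) (nat_lit 116) (.e (nat_lit 401450) (nat_lit 12) (.e (nat_lit 475185) (nat_lit 29) (.e (nat_lit 557109) (nat_lit 15) .nil)))) .nil)) 
(.lf (nat_lit 73426) (.g (nat_lit 1630) (.e (nat_lit 1676) (nat_lit 116) (.e (nat_lit 401459) (nat_lit 13) (.e (nat_lit 483354) (nat_lit 17) (.e (nat_lit 7936) (nat_lit 153) .nil)))) .nil))) (.nd (nat_lit 6) 
(.lf (nat_lit 73394) (.g (nat_lit 3347) (.e (nat_lit 1676) (nat_lit 116) (.e (nat_lit 401456) (nat_lit 13) (.e (nat_lit 483413) (nat_lit 27) (.e (nat_lit 401448) (nat_lit 10) (.e (nat_lit 434282) (nat_lit 41) .nil))))) .nil)) 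
(.lf (nat_lit 73458) (.g (nat_lit 2368) (.e (nat_lit 1691) (nat_lit 117) (.e (nat_lit 499928) (nat_lit 11) (.e (nat_lit 188449) (nat_lit 22) (.e (nat_lit 196626) (nat_lit 9) (.e (nat_lit 1400) (nat_lit 106) (.e (nat_lit 319534) (nat_lit 16) (.e (nat_lit 286720) (nat_lit 0) .nil))))))) (.g (nat_lit 4) .nil .nil)))))) (.nd (nat_lit 4) (.nd (nat_lit 5) (.nd (nat_lit 6) 
(.lf (nat_lit 73354) (.g (nat_lit 2260) (.e (nat_lit 1676) (nat_lit 116) (.e (nat_lit 401425) (nat_lit 2) (.e (nat_lit 196666) (nat_lit 13) (.e (nat_lit 65610) (nat_lit 10) .nil)))) .nil)) 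
(.lf (nat_lit 73418) (.g (nat_lit 3332) (.e (nat_lit 1676) (nat_lit 116) (.e (nat_lit 401457) (nat_lit 13) (.e (nat_lit 483413) (nat_lit 27) (.e (nat_lit 401448) (nat_lit 10) (.e (nat_lit 434208) (nat_lit 18) .nil))))) .nil))) (.nd (nat_lit 6) 
(.lf (nat_lit 73386) (.g (nat_lit 3848) (.e (nat_lit 1676) (nat_lit 116) (.e (nat_lit 401454) (nat_lit 12) (.e (nat_lit 475210) (nat_lit 41) (.e (nat_lit 712755) (nat_lit 30) (.e (nat_lit 450597) (nat_lit 17) (.e (nat_lit 663552) (nat_lit 0) .nil)))))) (.g (nat_lit 0) .nil .nil))) 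
(.lf (nat_lit 73450) (.g (nat_lit 2554) (.e (nat_lit 1682) (nat_lit 117) (.e (nat_lit 499929) (nat_lit 11) (.e (nat_lit 188451) (nat_lit 23) (.e (nat_lit 204846) (nat_lit 24) (.e (nat_lit 319534) (nat_lit 16) (.e (nat_lit 286728) (nat_lit 0) .nil)))))) (.g (nat_lit 6) .nil .nil))))) (.nd (nat_lit 5) (.nd (nat_lit 6) 
(.lf (nat_lit 73370) (.g (nat_lit 4026) (.e (nat_lit 1676) (nat_lit 116) (.e (nat_lit 401454) (nat_lit 12) (.e (nat_lit 475184) (nat_lit 29) (.e (nat_lit 557109) (nat_lit 15) (.e (nat_lit 188447) (nat_lit 22) (.e (nat_lit 196628) (nat_lit 9) .nil)))))) (.g (nat_lit 5) .nil .nil))) 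
(.lf (nat_lit 73434) (.g (nat_lit 1006) (.e (nat_lit 1676) (nat_lit 116) (.e (nat_lit 401459) (nat_lit 13) (.e (nat_lit 483411) (nat_lit 27) .nil))) .nil))) (.nd (nat_lit 6) 
(.lf (nat_lit 73402) (.g (nat_lit 2861) (.e (nat_lit 1676) (nat_lit 116) (.e (nat_lit 401457) (nat_lit 13) (.e (nat_lit 483413) (nat_lit 27) (.e (nat_lit 401446) (nat_lit 10) (.e (nat_lit 434208) (nat_lit 18) .nil))))) .nil)) 
(.lf (nat_lit 73466) (.g (nat_lit 2200) (.e (nat_lit 1691) (nat_lit 117) (.e (nat_lit 499929) (nat_lit 11) (.e (nat_lit 188451) (nat_lit 23) (.e (nat_lit 204846) (nat_lit 24) (.e (nat_lit 319533) (nat_lit 16) (.e (nat_lit 286720) (nat_lit 0) .nil)))))) (.g (nat_lit 0) .nil .nil))))))) (.nd (nat_lit 3) (.nd (nat_lit 4) (.nd (nat_lit 5) (.nd (nat_lit 6) 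
(.lf (nat_lit 73350) (.g (nat_lit 3106) (.e (nat_lit 1675) (nat_lit 116) (.e (nat_lit 401457) (nat_lit 13) (.e (nat_lit 483413) (nat_lit 27) (.e (nat_lit 401448) (nat_lit 10) (.e (nat_lit 434206) (nat_lit 18) .nil))))) .nil)) 
(.lf (nat_lit 73414) (.g (nat_lit 3046) (.e (nat_lit 1676) (nat_lit 116) (.e (nat_lit 401457) (nat_lit 13) (.e (nat_lit 483413) (nat_lit 27) (.e (nat_lit 401448) (nat_lit 10) (.e (nat_lit 434200) (nat_lit 18) .nil))))) .nil))) (.nd (nat_lit 6) 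
(.lf (nat_lit 73382) (.g (nat_lit 3588) (.e (nat_lit 1676) (nat_lit 116) (.e (nat_lit 401454) (nat_lit 12) (.e (nat_lit 475209) (nat_lit 41) (.e (nat_lit 712755) (nat_lit 30) (.e (nat_lit 450596) (nat_lit 17) (.e (nat_lit 663552) (nat_lit 0) .nil)))))) (.g (nat_lit 6) .nil .nil))) 
(.lf (nat_lit 73446) (.g (nat_lit 500) (.e (nat_lit 1682) (nat_lit 117) (.e (nat_lit 499919) (nat_lit 9) (.e (nat_lit 179968) (nat_lit 20) .nil))) .nil)))) (.nd (nat_lit 5) (.nd (nat_lit 6) 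
(.lf (nat_lit 73366) (.g (nat_lit 1543) (.e (nat_lit 1676) (nat_lit 116) (.e (nat_lit 401453) (nat_lit 12) (.e (nat_lit 475207) (nat_lit 41) (.e (nat_lit 712755) (nat_lit 30) (.e (nat_lit 450596) (nat_lit 17) .nil))))) .nil)) 
(.lf (nat_lit 73430) (.g (nat_lit 945) (.e (nat_lit 1676) (nat_lit 116) (.e (nat_lit 401459) (nat_lit 13) (.e (nat_lit 483372) (nat_lit 21) .nil))) .nil))) (.nd (nat_lit 6) 
(.lf (nat_lit 73398) (.g (nat_lit 856) (.e (nat_lit 1676) (nat_lit 116) (.e (nat_lit 401457) (nat_lit 13) (.e (nat_lit 483413) (nat_lit 27) .nil))) .nil)) 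
(.lf (nat_lit 73462) (.g (nat_lit 1885) (.e (nat_lit 1691) (nat_lit 117) (.e (nat_lit 499929) (nat_lit 11) (.e (nat_lit 188449) (nat_lit 22) (.e (nat_lit 196626) (nat_lit 9) .nil)))) .nil))))) (.nd (nat_lit 4) (.nd (nat_lit 5) (.nd (nat_lit 6) 
(.lf (nat_lit 73358) (.g (nat_lit 2837) (.e (nat_lit 1676) (nat_lit 116) (.e (nat_lit 401438) (nat_lit 9) (.e (nat_lit 426402) (nat_lit 15) (.e (nat_lit 1848) (nat_lit 124) (.e (nat_lit 557107) (nat_lit 15) (.e (nat_lit 188447) (nat_lit 22) (.e (nat_lit 196628) (nat_lit 9) .nil))))))) (.g (nat_lit 7) .nil .nil))) 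
(.lf (nat_lit 73422) (.g (nat_lit 1490) (.e (nat_lit 1676) (nat_lit 116) (.e (nat_lit 401459) (nat_lit 13) (.e (nat_lit 483343) (nat_lit 17) (.e (nat_lit 7936) (nat_lit 153) .nil)))) .nil))) (.nd (nat_lit 6) 
(.lf (nat_lit 73390) (.g (nat_lit 3227) (.e (nat_lit 1676) (nat_lit 116) (.e (nat_lit 401456) (nat_lit 13) (.e (nat_lit 483413) (nat_lit 27) (.e (nat_lit 401448) (nat_lit 10) (.e (nat_lit 434200) (nat_lit 18) .nil))))) .nil)) 
(.lf (nat_lit 73454) (.g (nat_lit 4024) (.e (nat_lit 1691) (nat_lit 117) (.e (nat_lit 499928) (nat_lit 11) (.e (nat_lit 188434) (nat_lit 20) (.e (nat_lit 3272) (nat_lit 199) (.e (nat_lit 548913) (nat_lit 18) (.e (nat_lit 172126) (nat_lit 14) (.e (nat_lit 491524) (nat_lit 0) .nil))))))) (.g (nat_lit 7) .nil .nil))))) (.nd (nat_lit 5) (.nd (nat_lit 6) 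
(.lf (nat_lit 73374) (.g (nat_lit 1978) (.e (nat_lit 1676) (nat_lit 116) (.e (nat_lit 401454) (nat_lit 12) (.e (nat_lit 475207) (nat_lit 41) (.e (nat_lit 712755) (nat_lit 30) (.e (nat_lit 450563) (nat_lit 0) .nil))))) .nil)) 
(.lf (nat_lit 73438) (.g (nat_lit 3165) (.e (nat_lit 1677) (nat_lit 116) (.e (nat_lit 401454) (nat_lit 12) (.e (nat_lit 475185) (nat_lit 29) (.e (nat_lit 557107) (nat_lit 15) .nil)))) .nil))) (.nd (nat_lit 6) 
(.lf (nat_lit 73406) (.g (nat_lit 3738) (.e (nat_lit 1676) (nat_lit 116) (.e (nat_lit 401457) (nat_lit 13) (.e (nat_lit 483413) (nat_lit 27) (.e (nat_lit 401447) (nat_lit 10) (.e (nat_lit 434203) (nat_lit 18) .nil))))) .nil)) 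
(.lf (nat_lit 73470) (.g (nat_lit 2212) (.e (nat_lit 1691) (nat_lit 117) (.e (nat_lit 500068) (nat_lit 19) (.e (nat_lit 73755) (nat_lit 8) (.e (nat_lit 557103) (nat_lit 14) (.e (nat_lit 180250) (nat_lit 10) .nil))))) .nil)))))))) (.nd (nat_lit 1) (.nd (nat_lit 2) (.nd (nat_lit 3) (.nd (nat_lit 4) (.nd (nat_lit 5) (.nd (nat_lit 6) 
(.lf (nat_lit 73345) (.g (nat_lit 3819) (.e (nat_lit 1675) (nat_lit 116) (.e (nat_lit 401457) (nat_lit 13) (.e (nat_lit 483413) (nat_lit 27) (.e (nat_lit 401447) (nat_lit 10) (.e (nat_lit 434203) (nat_lit 18) .nil))))) .nil)) 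
(.lf (nat_lit 73409) (.g (nat_lit 3577) (.e (nat_lit 1676) (nat_lit 116) (.e (nat_lit 401457) (nat_lit 13) (.e (nat_lit 483413) (nat_lit 27) (.e (nat_lit 401447) (nat_lit 10) (.e (nat_lit 434282) (nat_lit 41) .nil))))) .nil))) (.nd (nat_lit 6) 
(.lf (nat_lit 73377) (.g (nat_lit 3167) (.e (nat_lit 1676) (nat_lit 116) (.e (nat_lit 401454) (nat_lit 12) (.e (nat_lit 475207) (nat_lit 41) (.e (nat_lit 712755) (nat_lit 30) (.e (nat_lit 450597) (nat_lit 17) (.e (nat_lit 663552) (nat_lit 0) .nil)))))) (.g (nat_lit 5) .nil .nil))) 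
(.lf (nat_lit 73441) (.g (nat_lit 2579) (.e (nat_lit 1677) (nat_lit 116) (.e (nat_lit 401456) (nat_lit 13) (.e (nat_lit 483413) (nat_lit 27) (.e (nat_lit 401451) (nat_lit 12) (.e (nat_lit 483072) (nat_lit 8) .nil))))) .nil)))) (.nd (nat_lit 5) (.nd (nat_lit 6) 
(.lf (nat_lit 73361) (.g (nat_lit 2405) (.e (nat_lit 1676) (nat_lit 116) (.e (nat_lit 401450) (nat_lit 12) (.e (nat_lit 475185) (nat_lit 29) (.e (nat_lit 557107) (nat_lit 15) .nil)))) .nil)) 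
(.lf (nat_lit 73425) (.g (nat_lit 2162) (.e (nat_lit 1676) (nat_lit 116) (.e (nat_lit 401459) (nat_lit 13) (.e (nat_lit 483344) (nat_lit 17) (.e (nat_lit 7936) (nat_lit 153) .nil)))) .nil))) (.nd (nat_lit 6) 
(.lf (nat_lit 73393) (.g (nat_lit 3166) (.e (nat_lit 1676) (nat_lit 116) (.e (nat_lit 401456) (nat_lit 13) (.e (nat_lit 483413) (nat_lit 27) (.e (nat_lit 401448) (nat_lit 10) (.e (nat_lit 434208) (nat_lit 18) .nil))))) .nil)) 
(.lf (nat_lit 73457) (.g (nat_lit 2279) (.e (nat_lit 1691) (nat_lit 117) (.e (nat_lit 499928) (nat_lit 11) (.e (nat_lit 188449) (nat_lit 22) (.e (nat_lit 196626) (nat_lit 9) (.e (nat_lit 1400) (nat_lit 106) .nil))))) .nil))))) (.nd (nat_lit 4) (.nd (nat_lit 5) (.nd (nat_lit 6) 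
(.lf (nat_lit 73353) (.g (nat_lit 2713) (.e (nat_lit 1676) (nat_lit 116) (.e (nat_lit 401424) (nat_lit 2) (.e (nat_lit 196666) (nat_lit 13) (.e (nat_lit 65610) (nat_lit 10) (.e (nat_lit 344117) (nat_lit 21) .nil))))) .nil)) 
(.lf (nat_lit 73417) (.g (nat_lit 3000) (.e (nat_lit 1676) (nat_lit 116) (.e (nat_lit 401457) (nat_lit 13) (.e (nat_lit 483413) (nat_lit 27) (.e (nat_lit 401448) (nat_lit 10) (.e (nat_lit 434206) (nat_lit 18) .nil))))) .nil))) (.nd (nat_lit 6) 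
(.lf (nat_lit 73385) (.g (nat_lit 3125) (.e (nat_lit 1676) (nat_lit 116) (.e (nat_lit 401454) (nat_lit 12) (.e (nat_lit 475210) (nat_lit 41) (.e (nat_lit 712755) (nat_lit 30) (.e (nat_lit 450596) (nat_lit 17) (.e (nat_lit 663552) (nat_lit 0) .nil)))))) (.g (nat_lit 4) .nil .nil))) 
(.lf (nat_lit 73449) (.g (nat_lit 2355) (.e (nat_lit 1682) (nat_lit 117) (.e (nat_lit 499929) (nat_lit 11) (.e (nat_lit 188451) (nat_lit 23) (.e (nat_lit 204846) (nat_lit 24) (.e (nat_lit 319533) (nat_lit 16) (.e (nat_lit 286724) (nat_lit 0) .nil)))))) (.g (nat_lit 6) .nil .nil))))) (.nd (nat_lit 5) (.nd (nat_lit 6) 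
(.lf (nat_lit 73369) (.g (nat_lit 4358) (.e (nat_lit 1676) (nat_lit 116) (.e (nat_lit 401454) (nat_lit 12) (.e (nat_lit 475183) (nat_lit 29) (.e (nat_lit 557108) (nat_lit 15) (.e (nat_lit 188449) (nat_lit 22) (.e (nat_lit 196628) (nat_lit 9) .nil)))))) (.g (nat_lit 0) .nil .nil))) 
(.lf (nat_lit 73433) (.g (nat_lit 3936) (.e (nat_lit 1676) (nat_lit 116) (.e (nat_lit 401459) (nat_lit 13) (.e (nat_lit 483372) (nat_lit 21) (.e (nat_lit 319534) (nat_lit 16) .nil)))) .nil))) (.nd (nat_lit 6) 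
(.lf (nat_lit 73401) (.g (nat_lit 2778) (.e (nat_lit 1676) (nat_lit 116) (.e (nat_lit 401457) (nat_lit 13) (.e (nat_lit 483413) (nat_lit 27) (.e (nat_lit 401446) (nat_lit 10) (.e (nat_lit 434203) (nat_lit 18) .nil))))) .nil)) 
(.lf (nat_lit 73465) (.g (nat_lit 2018) (.e (nat_lit 1691) (nat_lit 117) (.e (nat_lit 499929) (nat_lit 11) (.e (nat_lit 188451) (nat_lit 23) (.e (nat_lit 204846) (nat_lit 24) (.e (nat_lit 319529) (nat_lit 16) (.e (nat_lit 286722) (nat_lit 0) .nil)))))) (.g (nat_lit 0) .nil .nil))))))) (.nd (nat_lit 3) (.nd (nat_lit 4) (.nd (nat_lit 5) (.nd (nat_lit 6) 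
(.lf (nat_lit 73349) (.g (nat_lit 3264) (.e (nat_lit 1675) (nat_lit 116) (.e (nat_lit 401457) (nat_lit 13) (.e (nat_lit 483413) (nat_lit 27) (.e (nat_lit 401448) (nat_lit 10) (.e (nat_lit 434203) (nat_lit 18) .nil))))) .nil)) 
(.lf (nat_lit 73413) (.g (nat_lit 3447) (.e (nat_lit 1676) (nat_lit 116) (.e (nat_lit 401457) (nat_lit 13) (.e (nat_lit 483413) (nat_lit 27) (.e (nat_lit 401448) (nat_lit 10) (.e (nat_lit 434199) (nat_lit 18) .nil))))) .nil))) (.nd (nat_lit 6) 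
(.lf (nat_lit 73381) (.g (nat_lit 2633) (.e (nat_lit 1676) (nat_lit 116) (.e (nat_lit 401454) (nat_lit 12) (.e (nat_lit 475209) (nat_lit 41) (.e (nat_lit 712755) (nat_lit 30) (.e (nat_lit 450563) (nat_lit 0) (.e (nat_lit 5796) (nat_lit 320) (.e (nat_lit 1005) (nat_lit 81) .nil))))))) (.g (nat_lit 4) .nil .nil))) 
(.lf (nat_lit 73445) (.g (nat_lit 574) (.e (nat_lit 7936) (nat_lit 116) (.e (nat_lit 401454) (nat_lit 12) (.e (nat_lit 475183) (nat_lit 29) .nil))) .nil)))) (.nd (nat_lit 5) (.nd (nat_lit 6) 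
(.lf (nat_lit 73365) (.g (nat_lit 3693) (.e (nat_lit 1676) (nat_lit 116) (.e (nat_lit 401453) (nat_lit 12) (.e (nat_lit 475185) (nat_lit 29) (.e (nat_lit 557109) (nat_lit 15) (.e (nat_lit 188449) (nat_lit 22) (.e (nat_lit 196628) (nat_lit 9) .nil)))))) (.g (nat_lit 0) .nil .nil))) 
(.lf (nat_lit 73429) (.g (nat_lit 1078) (.e (nat_lit 1676) (nat_lit 116) (.e (nat_lit 401459) (nat_lit 13) (.e (nat_lit 483364) (nat_lit 18) .nil))) .nil))) (.nd (nat_lit 6) 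
(.lf (nat_lit 73397) (.g (nat_lit 2401) (.e (nat_lit 1676) (nat_lit 116) (.e (nat_lit 401457) (nat_lit 13) (.e (nat_lit 483346) (nat_lit 17) (.e (nat_lit 2367) (nat_lit 153) .nil)))) .nil)) 
(.lf (nat_lit 73461) (.g (nat_lit 2730) (.e (nat_lit 1691) (nat_lit 117) (.e (nat_lit 499928) (nat_lit 11) (.e (nat_lit 188452) (nat_lit 23) (.e (nat_lit 204849) (nat_lit 25) (.e (nat_lit 327716) (nat_lit 16) (.e (nat_lit 286722) (nat_lit 0) .nil)))))) (.g (nat_lit 4) .nil .nil)))))) (.nd (nat_lit 4) (.nd (nat_lit 5) (.nd (nat_lit 6) 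
(.lf (nat_lit 73357) (.g (nat_lit 1512) (.e (nat_lit 1676) (nat_lit 116) (.e (nat_lit 401437) (nat_lit 9) (.e (nat_lit 426402) (nat_lit 15) (.e (nat_lit 1859) (nat_lit 124) (.e (nat_lit 557107) (nat_lit 15) .nil))))) .nil)) 
(.lf (nat_lit 73421) (.g (nat_lit 3111) (.e (nat_lit 1676) (nat_lit 116) (.e (nat_lit 401457) (nat_lit 13) (.e (nat_lit 483413) (nat_lit 27) (.e (nat_lit 401448) (nat_lit 10) (.e (nat_lit 434284) (nat_lit 41) .nil))))) .nil))) (.nd (nat_lit 6) 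
(.lf (nat_lit 73389) (.g (nat_lit 3068) (.e (nat_lit 1676) (nat_lit 116) (.e (nat_lit 401456) (nat_lit 13) (.e (nat_lit 483413) (nat_lit 27) (.e (nat_lit 401448) (nat_lit 10) (.e (nat_lit 434199) (nat_lit 18) .nil))))) .nil)) 
(.lf (nat_lit 73453) (.g (nat_lit 3582) (.e (nat_lit 1685) (nat_lit 117) (.e (nat_lit 499929) (nat_lit 11) (.e (nat_lit 188452) (nat_lit 23) (.e (nat_lit 204846) (nat_lit 24) (.e (nat_lit 319534) (nat_lit 16) .nil))))) .nil)))) (.nd (nat_lit 5) (.nd (nat_lit 6) 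
(.lf (nat_lit 73373) (.g (nat_lit 1007) (.e (nat_lit 1676) (nat_lit 116) (.e (nat_lit 401454) (nat_lit 12) (.e (nat_lit 475207) (nat_lit 41) .nil))) .nil)) 
(.lf (nat_lit 73437) (.g (nat_lit 2646) (.e (nat_lit 1676) (nat_lit 116) (.e (nat_lit 401459) (nat_lit 13) (.e (nat_lit 483411) (nat_lit 27) (.e (nat_lit 401451) (nat_lit 12) (.e (nat_lit 483072) (nat_lit 8) .nil))))) (.g (nat_lit 4) .nil .nil)))) (.nd (nat_lit 6) 
(.lf (nat_lit 73405) (.g (nat_lit 3171) (.e (nat_lit 1676) (nat_lit 116) (.e (nat_lit 401457) (nat_lit 13) (.e (nat_lit 483413) (nat_lit 27) (.e (nat_lit 401446) (nat_lit 10) (.e (nat_lit 434284) (nat_lit 41) (.e (nat_lit 679942) (nat_lit 5) .nil)))))) (.g (nat_lit 4) .nil .nil))) 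
(.lf (nat_lit 73469) (.g (nat_lit 2125) (.e (nat_lit 1691) (nat_lit 117) (.e (nat_lit 500049) (nat_lit 16) (.e (nat_lit 16473) (nat_lit 14) (.e (nat_lit 499456) (nat_lit 27) (.e (nat_lit 426555) (nat_lit 32) (.e (nat_lit 376844) (nat_lit 20) .nil)))))) (.g (nat_lit 5) .nil .nil)))))))) (.nd (nat_lit 2) (.nd (nat_lit 3) (.nd (nat_lit 4) (.nd (nat_lit 5) (.nd (nat_lit 6) 
(.lf (nat_lit 73347) (.g (nat_lit 3552) (.e (nat_lit 1675) (nat_lit 116) (.e (nat_lit 401457) (nat_lit 13) (.e (nat_lit 483413) (nat_lit 27) (.e (nat_lit 401448) (nat_lit 10) (.e (nat_lit 434199) (nat_lit 18) .nil))))) .nil)) 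
(.lf (nat_lit 73411) (.g (nat_lit 3529) (.e (nat_lit 1676) (nat_lit 116) (.e (nat_lit 401457) (nat_lit 13) (.e (nat_lit 483413) (nat_lit 27) (.e (nat_lit 401447) (nat_lit 10) (.e (nat_lit 434284) (nat_lit 41) .nil))))) .nil))) (.nd (nat_lit 6) 
(.lf (nat_lit 73379) (.g (nat_lit 997) (.e (nat_lit 1676) (nat_lit 116) (.e (nat_lit 401454) (nat_lit 12) (.e (nat_lit 475209) (nat_lit 41) .nil))) .nil)) 
(.lf (nat_lit 73443) (.g (nat_lit 3259) (.e (nat_lit 1677) (nat_lit 116) (.e (nat_lit 401459) (nat_lit 13) (.e (nat_lit 483411) (nat_lit 27) (.e (nat_lit 401451) (nat_lit 12) (.e (nat_lit 483072) (nat_lit 8) .nil))))) (.g (nat_lit 4) .nil .nil))))) (.nd (nat_lit 5) (.nd (nat_lit 6) 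
(.lf (nat_lit 73363) (.g (nat_lit 3352) (.e (nat_lit 1676) (nat_lit 116) (.e (nat_lit 401452) (nat_lit 12) (.e (nat_lit 475185) (nat_lit 29) (.e (nat_lit 557107) (nat_lit 15) (.e (nat_lit 188447) (nat_lit 22) (.e (nat_lit 196628) (nat_lit 9) .nil)))))) (.g (nat_lit 5) .nil .nil))) 
(.lf (nat_lit 73427) (.g (nat_lit 1174) (.e (nat_lit 1676) (nat_lit 116) (.e (nat_lit 401459) (nat_lit 13) (.e (nat_lit 483363) (nat_lit 18) .nil))) .nil))) (.nd (nat_lit 6) 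
(.lf (nat_lit 73395) (.g (nat_lit 3411) (.e (nat_lit 1676) (nat_lit 116) (.e (nat_lit 401456) (nat_lit 13) (.e (nat_lit 483413) (nat_lit 27) (.e (nat_lit 401448) (nat_lit 10) (.e (nat_lit 434283) (nat_lit 41) .nil))))) .nil)) 
(.lf (nat_lit 73459) (.g (nat_lit 3239) (.e (nat_lit 1691) (nat_lit 117) (.e (nat_lit 499928) (nat_lit 11) (.e (nat_lit 188452) (nat_lit 23) (.e (nat_lit 204846) (nat_lit 24) (.e (nat_lit 319530) (nat_lit 16) .nil))))) .nil))))) (.nd (nat_lit 4) (.nd (nat_lit 5) (.nd (nat_lit 6) 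
(.lf (nat_lit 73355) (.g (nat_lit 3377) (.e (nat_lit 1676) (nat_lit 116) (.e (nat_lit 401425) (nat_lit 2) (.e (nat_lit 196666) (nat_lit 13) (.e (nat_lit 65610) (nat_lit 10) (.e (nat_lit 344117) (nat_lit 21) (.e (nat_lit 516106) (nat_lit 0) (.e (nat_lit 7936) (nat_lit 402) .nil))))))) (.g (nat_lit 4) .nil .nil))) 
(.lf (nat_lit 73419) (.g (nat_lit 3388) (.e (nat_lit 1676) (nat_lit 116) (.e (nat_lit 401457) (nat_lit 13) (.e (nat_lit 483413) (nat_lit 27) (.e (nat_lit 401448) (nat_lit 10) (.e (nat_lit 434282) (nat_lit 41) .nil))))) .nil))) (.nd (nat_lit 6) 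
(.lf (nat_lit 73387) (.g (nat_lit 1249) (.e (nat_lit 1676) (nat_lit 116) (.e (nat_lit 401456) (nat_lit 13) (.e (nat_lit 483413) (nat_lit 27) (.e (nat_lit 401446) (nat_lit 10) .nil)))) .nil)) 
(.lf (nat_lit 73451) (.g (nat_lit 4029) (.e (nat_lit 1682) (nat_lit 117) (.e (nat_lit 499929) (nat_lit 11) (.e (nat_lit 188452) (nat_lit 23) (.e (nat_lit 204846) (nat_lit 24) (.e (nat_lit 319533) (nat_lit 16) .nil))))) .nil)))) (.nd (nat_lit 5) (.nd (nat_lit 6) 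
(.lf (nat_lit 73371) (.g (nat_lit 3856) (.e (nat_lit 1676) (nat_lit 116) (.e (nat_lit 401454) (nat_lit 12) (.e (nat_lit 475185) (nat_lit 29) (.e (nat_lit 557107) (nat_lit 15) (.e (nat_lit 188447) (nat_lit 22) (.e (nat_lit 196628) (nat_lit 9) .nil)))))) (.g (nat_lit 5) .nil .nil))) 
(.lf (nat_lit 73435) (.g (nat_lit 1895) (.e (nat_lit 1676) (nat_lit 116) (.e (nat_lit 401459) (nat_lit 13) (.e (nat_lit 483411) (nat_lit 27) (.e (nat_lit 401448) (nat_lit 10) .nil)))) .nil))) (.nd (nat_lit 6) 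
(.lf (nat_lit 73403) (.g (nat_lit 3215) (.e (nat_lit 1676) (nat_lit 116) (.e (nat_lit 401457) (nat_lit 13) (.e (nat_lit 483413) (nat_lit 27) (.e (nat_lit 401446) (nat_lit 10) (.e (nat_lit 434282) (nat_lit 41) .nil))))) .nil)) 
(.lf (nat_lit 73467) (.g (nat_lit 2405) (.e (nat_lit 1691) (nat_lit 117) (.e (nat_lit 499929) (nat_lit 11) (.e (nat_lit 188452) (nat_lit 23) (.e (nat_lit 204845) (nat_lit 24) (.e (nat_lit 319531) (nat_lit 16) .nil))))) .nil)))))) (.nd (nat_lit 3) (.nd (nat_lit 4) (.nd (nat_lit 5) (.nd (nat_lit 6) 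
(.lf (nat_lit 73351) (.g (nat_lit 2195) (.e (nat_lit 1675) (nat_lit 116) (.e (nat_lit 401457) (nat_lit 13) (.e (nat_lit 483413) (nat_lit 27) (.e (nat_lit 401451) (nat_lit 12) .nil)))) .nil)) 
(.lf (nat_lit 73415) (.g (nat_lit 3397) (.e (nat_lit 1676) (nat_lit 116) (.e (nat_lit 401457) (nat_lit 13) (.e (nat_lit 483413) (nat_lit 27) (.e (nat_lit 401448) (nat_lit 10) (.e (nat_lit 434202) (nat_lit 18) .nil))))) .nil))) (.nd (nat_lit 6) 
(.lf (nat_lit 73383) (.g (nat_lit 3739) (.e (nat_lit 1676) (nat_lit 116) (.e (nat_lit 401454) (nat_lit 12) (.e (nat_lit 475209) (nat_lit 41) (.e (nat_lit 712755) (nat_lit 30) (.e (nat_lit 450597) (nat_lit 17) (.e (nat_lit 663552) (nat_lit 0) .nil)))))) (.g (nat_lit 6) .nil .nil))) 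
(.lf (nat_lit 73447) (.g (nat_lit 1023) (.e (nat_lit 1682) (nat_lit 117) (.e (nat_lit 499919) (nat_lit 9) (.e (nat_lit 179968) (nat_lit 20) (.e (nat_lit 114718) (nat_lit 23) (.e (nat_lit 106240) (nat_lit 11) (.e (nat_lit 352290) (nat_lit 20) .nil)))))) (.g (nat_lit 4) .nil .nil))))) (.nd (nat_lit 5) (.nd (nat_lit 6) 
(.lf (nat_lit 73367) (.g (nat_lit 1482) (.e (nat_lit 1676) (nat_lit 116) (.e (nat_lit 401453) (nat_lit 12) (.e (nat_lit 475207) (nat_lit 41) (.e (nat_lit 712755) (nat_lit 30) (.e (nat_lit 450597) (nat_lit 17) .nil))))) .nil)) 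
(.lf (nat_lit 73431) (.g (nat_lit 4409) (.e (nat_lit 1676) (nat_lit 116) (.e (nat_lit 401459) (nat_lit 13) (.e (nat_lit 483372) (nat_lit 21) (.e (nat_lit 319531) (nat_lit 16) .nil)))) .nil))) (.nd (nat_lit 6) 
(.lf (nat_lit 73399) (.g (nat_lit 1626) (.e (nat_lit 1676) (nat_lit 116) (.e (nat_lit 401457) (nat_lit 13) (.e (nat_lit 483413) (nat_lit 27) (.e (nat_lit 401446) (nat_lit 10) .nil)))) .nil)) 
(.lf (nat_lit 73463) (.g (nat_lit 2651) (.e (nat_lit 1691) (nat_lit 117) (.e (nat_lit 499929) (nat_lit 11) (.e (nat_lit 188449) (nat_lit 22) (.e (nat_lit 196626) (nat_lit 9) (.e (nat_lit 1400) (nat_lit 106) (.e (nat_lit 327424) (nat_lit 16) (.e (nat_lit 286722) (nat_lit 0) .nil))))))) (.g (nat_lit 5) .nil .nil)))))) (.nd (nat_lit 4) (.nd (nat_lit 5) (.nd (nat_lit 6) 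
(.lf (nat_lit 73359) (.g (nat_lit 2652) (.e (nat_lit 1676) (nat_lit 116) (.e (nat_lit 401438) (nat_lit 9) (.e (nat_lit 426402) (nat_lit 15) (.e (nat_lit 1849) (nat_lit 124) (.e (nat_lit 557107) (nat_lit 15) (.e (nat_lit 188447) (nat_lit 22) (.e (nat_lit 196628) (nat_lit 9) .nil))))))) (.g (nat_lit 7) .nil .nil))) 
(.lf (nat_lit 73423) (.g (nat_lit 980) (.e (nat_lit 1676) (nat_lit 116) (.e (nat_lit 401459) (nat_lit 13) (.e (nat_lit 483344) (nat_lit 17) .nil))) .nil))) (.nd (nat_lit 6) 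
(.lf (nat_lit 73391) (.g (nat_lit 3170) (.e (nat_lit 1676) (nat_lit 116) (.e (nat_lit 401456) (nat_lit 13) (.e (nat_lit 483413) (nat_lit 27) (.e (nat_lit 401448) (nat_lit 10) (.e (nat_lit 434202) (nat_lit 18) .nil))))) .nil)) 
(.lf (nat_lit 73455) (.g (nat_lit 1291) (.e (nat_lit 1691) (nat_lit 117) (.e (nat_lit 499928) (nat_lit 11) (.e (nat_lit 188447) (nat_lit 22) (.e (nat_lit 196661) (nat_lit 12) (.e (nat_lit 57712) (nat_lit 176) (.e (nat_lit 1361) (nat_lit 102) (.e (nat_lit 286722) (nat_lit 0) .nil))))))) (.g (nat_lit 4) .nil .nil))))) (.nd (nat_lit 5) (.nd (nat_lit 6) 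
(.lf (nat_lit 73375) (.g (nat_lit 2620) (.e (nat_lit 1676) (nat_lit 116) (.e (nat_lit 401454) (nat_lit 12) (.e (nat_lit 475207) (nat_lit 41) (.e (nat_lit 712755) (nat_lit 30) (.e (nat_lit 450563) (nat_lit 0) (.e (nat_lit 5796) (nat_lit 320) (.e (nat_lit 985) (nat_lit 81) .nil))))))) (.g (nat_lit 4) .nil .nil))) 
(.lf (nat_lit 73439) (.g (nat_lit 3850) (.e (nat_lit 1677) (nat_lit 116) (.e (nat_lit 401454) (nat_lit 12) (.e (nat_lit 475185) (nat_lit 29) (.e (nat_lit 557109) (nat_lit 15) (.e (nat_lit 188447) (nat_lit 22) .nil))))) .nil))) (.nd (nat_lit 6) 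
(.lf (nat_lit 73407) (.g (nat_lit 3751) (.e (nat_lit 1676) (nat_lit 116) (.e (nat_lit 401457) (nat_lit 13) (.e (nat_lit 483413) (nat_lit 27) (.e (nat_lit 401447) (nat_lit 10) (.e (nat_lit 434203) (nat_lit 18) (.e (nat_lit 5984) (nat_lit 326) (.e (nat_lit 987) (nat_lit 81) .nil))))))) (.g (nat_lit 4) .nil .nil))) 
(.lf (nat_lit 73471) (.g (nat_lit 1153) (.e (nat_lit 1691) (nat_lit 117) (.e (nat_lit 500069) (nat_lit 19) (.e (nat_lit 73746) (nat_lit 3) (.e (nat_lit 516124) (nat_lit 2) (.e (nat_lit 220928) (nat_lit 3) .nil))))) .nil)))))))))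

noncomputable def tv997 : DT := (.nd (nat_lit 0) (.nd (nat_lit 1) (.nd (nat_lit 2) (.nd (nat_lit 3) (.nd (nat_lit 4) (.nd (nat_lit 5) (.nd (nat_lit 6) 
(.lf (nat_lit 73472) (.g (nat_lit 273) (.e (nat_lit 1691) (nat_lit 117) (.e (nat_lit 500074) (nat_lit 20) (.e (nat_lit 89856) (nat_lit 19) (.e (nat_lit 491585) (nat_lit 29) (.e (nat_lit 450304) (nat_lit 0) .nil))))) (.g (nat_lit 4) .nil .nil))) 
(.lf (nat_lit 73536) (.g (nat_lit 2952) (.e (nat_lit 1774) (nat_lit 118) (.e (nat_lit 507923) (nat_lit 6) (.e (nat_lit 286747) (nat_lit 9) (.e (nat_lit 336013) (nat_lit 2) (.e (nat_lit 90165) (nat_lit 12) (.e (nat_lit 164210) (nat_lit 176) (.e (nat_lit 2788) (nat_lit 179) (.e (nat_lit 294917) (nat_lit 0) .nil)))))))) (.g (nat_lit 5) .nil .nil)))) (.nd (nat_lit 6) 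
(.lf (nat_lit 73504) (.g (nat_lit 3607) (.e (nat_lit 1712) (nat_lit 117) (.e (nat_lit 499919) (nat_lit 9) (.e (nat_lit 172120) (nat_lit 12) (.e (nat_lit 475185) (nat_lit 29) (.e (nat_lit 557105) (nat_lit 14) (.e (nat_lit 180275) (nat_lit 32) (.e (nat_lit 1077) (nat_lit 81) .nil))))))) (.g (nat_lit 5) .nil .nil))) 
(.lf (nat_lit 73568) (.g (nat_lit 1841) (.e (nat_lit 1774) (nat_lit 118) (.e (nat_lit 507923) (nat_lit 6) (.e (nat_lit 286761) (nat_lit 13) (.e (nat_lit 393258) (nat_lit 20) (.e (nat_lit 253996) (nat_lit 12) (.e (nat_lit 57555) (nat_lit 49) (.e (nat_lit 729104) (nat_lit 20) .nil))))))) (.g (nat_lit 7) .nil .nil))))) (.nd (nat_lit 5) (.nd (nat_lit 6) 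
(.lf (nat_lit 73488) (.g (nat_lit 1830) (.e (nat_lit 1712) (nat_lit 117) (.e (nat_lit 499919) (nat_lit 9) (.e (nat_lit 172065) (nat_lit 3) (.e (nat_lit 204838) (nat_lit 20) (.e (nat_lit 122624) (nat_lit 3) .nil))))) .nil)) 
(.lf (nat_lit 73552) (.g (nat_lit 750) (.e (nat_lit 1774) (nat_lit 118) (.e (nat_lit 507923) (nat_lit 6) (.e (nat_lit 286754) (nat_lit 10) (.e (nat_lit 344115) (nat_lit 20) (.e (nat_lit 507908) (nat_lit 0) .nil))))) .nil))) (.nd (nat_lit 6) 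
(.lf (nat_lit 73520) (.g (nat_lit 3006) (.e (nat_lit 1738) (nat_lit 117) (.e (nat_lit 499930) (nat_lit 11) (.e (nat_lit 188452) (nat_lit 23) (.e (nat_lit 204846) (nat_lit 24) (.e (nat_lit 319534) (nat_lit 16) .nil))))) .nil)) 
(.lf (nat_lit 73584) (.g (nat_lit 4810) (.e (nat_lit 1778) (nat_lit 119) (.e (nat_lit 516166) (nat_lit 12) (.e (nat_lit 450588) (nat_lit 10) (.e (nat_lit 573473) (nat_lit 12) .nil)))) .nil))))) (.nd (nat_lit 4) (.nd (nat_lit 5) (.nd (nat_lit 6) 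
(.lf (nat_lit 73480) (.g (nat_lit 485) (.e (nat_lit 1704) (nat_lit 117) (.e (nat_lit 499919) (nat_lit 9) (.e (nat_lit 179968) (nat_lit 20) .nil))) .nil)) 
(.lf (nat_lit 73544) (.g (nat_lit 381) (.e (nat_lit 1774) (nat_lit 118) (.e (nat_lit 507923) (nat_lit 6) (.e (nat_lit 286753) (nat_lit 10) (.e (nat_lit 344115) (nat_lit 20) .nil)))) .nil))) (.nd (nat_lit 6) 
(.lf (nat_lit 73512) (.g (nat_lit 3742) (.e (nat_lit 1712) (nat_lit 117) (.e (nat_lit 499933) (nat_lit 11) (.e (nat_lit 188452) (nat_lit 23) (.e (nat_lit 204846) (nat_lit 24) (.e (nat_lit 319533) (nat_lit 16) .nil))))) .nil)) 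
(.lf (nat_lit 73576) (.g (nat_lit 4633) (.e (nat_lit 1778) (nat_lit 119) (.e (nat_lit 516166) (nat_lit 12) (.e (nat_lit 450587) (nat_lit 10) (.e (nat_lit 573477) (nat_lit 12) (.e (nat_lit 57575) (nat_lit 55) (.e (nat_lit 778465) (nat_lit 11) (.e (nat_lit 24578) (nat_lit 0) .nil))))))) (.g (nat_lit 4) .nil .nil))))) (.nd (nat_lit 5) (.nd (nat_lit 6) 
(.lf (nat_lit 73496) (.g (nat_lit 1953) (.e (nat_lit 1712) (nat_lit 117) (.e (nat_lit 499919) (nat_lit 9) (.e (nat_lit 172113) (nat_lit 10) (.e (nat_lit 434247) (nat_lit 28) (.e (nat_lit 573478) (nat_lit 12) .nil))))) .nil)) 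
(.lf (nat_lit 73560) (.g (nat_lit 576) (.e (nat_lit 1774) (nat_lit 118) (.e (nat_lit 507923) (nat_lit 6) (.e (nat_lit 286756) (nat_lit 10) (.e (nat_lit 344126) (nat_lit 25) .nil)))) .nil))) (.nd (nat_lit 6) 
(.lf (nat_lit 73528) (.g (nat_lit 709) (.e (nat_lit 1773) (nat_lit 118) (.e (nat_lit 507908) (nat_lit 0) (.e (nat_lit 5412) (nat_lit 303) (.e (nat_lit 73753) (nat_lit 8) (.e (nat_lit 557073) (nat_lit 9) (.e (nat_lit 7936) (nat_lit 23) (.e (nat_lit 352288) (nat_lit 20) .nil))))))) (.g (nat_lit 4) .nil .nil))) 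
(.lf (nat_lit 73592) (.g (nat_lit 1076) (.e (nat_lit 1779) (nat_lit 119) (.e (nat_lit 516166) (nat_lit 12) (.e (nat_lit 450588) (nat_lit 10) .nil))) .nil)))))) (.nd (nat_lit 3) (.nd (nat_lit 4) (.nd (nat_lit 5) (.nd (nat_lit 6) 
(.lf (nat_lit 73476) (.g (nat_lit 3671) (.e (nat_lit 1698) (nat_lit 117) (.e (nat_lit 499933) (nat_lit 11) (.e (nat_lit 188452) (nat_lit 23) (.e (nat_lit 204846) (nat_lit 24) (.e (nat_lit 319534) (nat_lit 16) .nil))))) .nil)) 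
(.lf (nat_lit 73540) (.g (nat_lit 2864) (.e (nat_lit 1774) (nat_lit 118) (.e (nat_lit 507923) (nat_lit 6) (.e (nat_lit 286749) (nat_lit 9) (.e (nat_lit 336013) (nat_lit 2) (.e (nat_lit 90165) (nat_lit 12) (.e (nat_lit 171776) (nat_lit 191) (.e (nat_lit 65536) (nat_lit 0) .nil))))))) (.g (nat_lit 5) .nil .nil)))) (.nd (nat_lit 6) 
(.lf (nat_lit 73508) (.g (nat_lit 2100) (.e (nat_lit 1712) (nat_lit 117) (.e (nat_lit 499919) (nat_lit 9) (.e (nat_lit 172126) (nat_lit 14) (.e (nat_lit 491540) (nat_lit 3) (.e (nat_lit 98367) (nat_lit 27) .nil))))) .nil)) 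
(.lf (nat_lit 73572) (.g (nat_lit 816) (.e (nat_lit 1778) (nat_lit 119) (.e (nat_lit 516166) (nat_lit 12) (.e (nat_lit 450587) (nat_lit 10) .nil))) .nil)))) (.nd (nat_lit 5) (.nd (nat_lit 6) 
(.lf (nat_lit 73492) (.g (nat_lit 1231) (.e (nat_lit 1712) (nat_lit 117) (.e (nat_lit 499919) (nat_lit 9) (.e (nat_lit 172085) (nat_lit 9) (.e (nat_lit 426437) (nat_lit 18) (.e (nat_lit 98341) (nat_lit 20) (.e (nat_lit 221192) (nat_lit 11) (.e (nat_lit 335884) (nat_lit 0) .nil))))))) (.g (nat_lit 4) .nil .nil))) 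
(.lf (nat_lit 73556) (.g (nat_lit 1559) (.e (nat_lit 1774) (nat_lit 118) (.e (nat_lit 507923) (nat_lit 6) (.e (nat_lit 286756) (nat_lit 10) (.e (nat_lit 344115) (nat_lit 20) (.e (nat_lit 507907) (nat_lit 0) (.e (nat_lit 5406) (nat_lit 302) (.e (nat_lit 65549) (nat_lit 0) .nil))))))) (.g (nat_lit 0) .nil .nil)))) (.nd (nat_lit 6) 
(.lf (nat_lit 73524) (.g (nat_lit 931) (.e (nat_lit 1759) (nat_lit 117) (.e (nat_lit 500073) (nat_lit 19) (.e (nat_lit 73755) (nat_lit 8) (.e (nat_lit 557105) (nat_lit 14) .nil)))) .nil)) 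
(.lf (nat_lit 73588) (.g (nat_lit 1146) (.e (nat_lit 1779) (nat_lit 119) (.e (nat_lit 516166) (nat_lit 12) (.e (nat_lit 450587) (nat_lit 10) .nil))) .nil))))) (.nd (nat_lit 4) (.nd (nat_lit 5) (.nd (nat_lit 6) 
(.lf (nat_lit 73484) (.g (nat_lit 700) (.e (nat_lit 1705) (nat_lit 117) (.e (nat_lit 499901) (nat_lit 7) (.e (nat_lit 24657) (nat_lit 13) (.e (nat_lit 393229) (nat_lit 9) .nil)))) .nil)) 
(.lf (nat_lit 73548) (.g (nat_lit 1526) (.e (nat_lit 1774) (nat_lit 118) (.e (nat_lit 507923) (nat_lit 6) (.e (nat_lit 286753) (nat_lit 10) (.e (nat_lit 344115) (nat_lit 20) (.e (nat_lit 507908) (nat_lit 0) (.e (nat_lit 5406) (nat_lit 302) (.e (nat_lit 65536) (nat_lit 0) .nil))))))) (.g (nat_lit 0) .nil .nil)))) (.nd (nat_lit 6) 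
(.lf (nat_lit 73516) (.g (nat_lit 485) (.e (nat_lit 1714) (nat_lit 117) (.e (nat_lit 499919) (nat_lit 9) (.e (nat_lit 179968) (nat_lit 24) .nil))) .nil)) 
(.lf (nat_lit 73580) (.g (nat_lit 5046) (.e (nat_lit 1778) (nat_lit 119) (.e (nat_lit 516166) (nat_lit 12) (.e (nat_lit 450588) (nat_lit 10) (.e (nat_lit 573449) (nat_lit 9) .nil)))) .nil)))) (.nd (nat_lit 5) (.nd (nat_lit 6) 
(.lf (nat_lit 73500) (.g (nat_lit 2589) (.e (nat_lit 1712) (nat_lit 117) (.e (nat_lit 499919) (nat_lit 9) (.e (nat_lit 172118) (nat_lit 12) (.e (nat_lit 475179) (nat_lit 24) (.e (nat_lit 516129) (nat_lit 3) (.e (nat_lit 221192) (nat_lit 11) (.e (nat_lit 335960) (nat_lit 0) .nil))))))) (.g (nat_lit 5) .nil .nil))) 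
(.lf (nat_lit 73564) (.g (nat_lit 3077) (.e (nat_lit 1774) (nat_lit 118) (.e (nat_lit 507923) (nat_lit 6) (.e (nat_lit 286758) (nat_lit 12) (.e (nat_lit 385074) (nat_lit 31) (.e (nat_lit 573493) (nat_lit 15) (.e (nat_lit 81947) (nat_lit 20) .nil)))))) (.g (nat_lit 6) .nil .nil)))) (.nd (nat_lit 6) 
(.lf (nat_lit 73532) (.g (nat_lit 2914) (.e (nat_lit 1774) (nat_lit 118) (.e (nat_lit 507923) (nat_lit 6) (.e (nat_lit 286747) (nat_lit 9) (.e (nat_lit 336013) (nat_lit 2) (.e (nat_lit 90165) (nat_lit 12) (.e (nat_lit 164208) (nat_lit 176) (.e (nat_lit 2781) (nat_lit 178) (.e (nat_lit 286723) (nat_lit 0) .nil)))))))) (.g (nat_lit 5) .nil .nil))) 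
(.lf (nat_lit 73596) (.g (nat_lit 5599) (.e (nat_lit 1779) (nat_lit 119) (.e (nat_lit 516166) (nat_lit 12) (.e (nat_lit 450588) (nat_lit 10) (.e (nat_lit 573475) (nat_lit 12) (.e (nat_lit 57574) (nat_lit 55) .nil))))) .nil))))))) (.nd (nat_lit 2) (.nd (nat_lit 3) (.nd (nat_lit 4) (.nd (nat_lit 5) (.nd (nat_lit 6) 
(.lf (nat_lit 73474) (.g (nat_lit 3826) (.e (nat_lit 1698) (nat_lit 117) (.e (nat_lit 499913) (nat_lit 9) (.e (nat_lit 172126) (nat_lit 14) (.e (nat_lit 491540) (nat_lit 3) (.e (nat_lit 98365) (nat_lit 26) (.e (nat_lit 426342) (nat_lit 14) (.e (nat_lit 491526) (nat_lit 0) .nil))))))) (.g (nat_lit 7) .nil .nil))) 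
(.lf (nat_lit 73538) (.g (nat_lit 1547) (.e (nat_lit 1774) (nat_lit 118) (.e (nat_lit 507923) (nat_lit 6) (.e (nat_lit 286747) (nat_lit 9) (.e (nat_lit 336028) (nat_lit 3) (.e (nat_lit 98325) (nat_lit 17) (.e (nat_lit 7936) (nat_lit 406) (.e (nat_lit 65536) (nat_lit 0) .nil))))))) (.g (nat_lit 5) .nil .nil)))) (.nd (nat_lit 6) 
(.lf (nat_lit 73506) (.g (nat_lit 489) (.e (nat_lit 1712) (nat_lit 117) (.e (nat_lit 499919) (nat_lit 9) (.e (nat_lit 172126) (nat_lit 14) .nil))) .nil)) 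
(.lf (nat_lit 73570) (.g (nat_lit 3337) (.e (nat_lit 1776) (nat_lit 118) (.e (nat_lit 507932) (nat_lit 10) (.e (nat_lit 5742) (nat_lit 313) (.e (nat_lit 8318) (nat_lit 64) (.e (nat_lit 516150) (nat_lit 9) (.e (nat_lit 426131) (nat_lit 3) (.e (nat_lit 204838) (nat_lit 20) (.e (nat_lit 114702) (nat_lit 20) .nil)))))))) (.g (nat_lit 8) .nil .nil))))) (.nd (nat_lit 5) (.nd (nat_lit 6) 
(.lf (nat_lit 73490) (.g (nat_lit 504) (.e (nat_lit 1712) (nat_lit 117) (.e (nat_lit 499919) (nat_lit 9) (.e (nat_lit 172085) (nat_lit 9) .nil))) .nil)) 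
(.lf (nat_lit 73554) (.g (nat_lit 216) (.e (nat_lit 1774) (nat_lit 118) (.e (nat_lit 507923) (nat_lit 6) (.e (nat_lit 286755) (nat_lit 10) .nil))) .nil))) (.nd (nat_lit 6) 
(.lf (nat_lit 73522) (.g (nat_lit 1267) (.e (nat_lit 1756) (nat_lit 117) (.e (nat_lit 500046) (nat_lit 16) (.e (nat_lit 16459) (nat_lit 12) (.e (nat_lit 483072) (nat_lit 2) .nil)))) .nil)) 
(.lf (nat_lit 73586) (.g (nat_lit 4240) (.e (nat_lit 1778) (nat_lit 119) (.e (nat_lit 516166) (nat_lit 12) (.e (nat_lit 450588) (nat_lit 10) (.e (nat_lit 573475) (nat_lit 12) (.e (nat_lit 57574) (nat_lit 55) (.e (nat_lit 778464) (nat_lit 11) (.e (nat_lit 24578) (nat_lit 0) .nil))))))) (.g (nat_lit 4) .nil .nil)))))) (.nd (nat_lit 4) (.nd (nat_lit 5) (.nd (nat_lit 6) 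
(.lf (nat_lit 73482) (.g (nat_lit 2385) (.e (nat_lit 1705) (nat_lit 117) (.e (nat_lit 499900) (nat_lit 7) (.e (nat_lit 24655) (nat_lit 13) (.e (nat_lit 393229) (nat_lit 9) (.e (nat_lit 335996) (nat_lit 1) .nil))))) .nil)) 
(.lf (nat_lit 73546) (.g (nat_lit 1435) (.e (nat_lit 1774) (nat_lit 118) (.e (nat_lit 507923) (nat_lit 6) (.e (nat_lit 286753) (nat_lit 10) (.e (nat_lit 344115) (nat_lit 20) (.e (nat_lit 507907) (nat_lit 0) (.e (nat_lit 5406) (nat_lit 302) (.e (nat_lit 65536) (nat_lit 0) .nil))))))) (.g (nat_lit 0) .nil .nil)))) (.nd (nat_lit 6) 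
(.lf (nat_lit 73514) (.g (nat_lit 485) (.e (nat_lit 1713) (nat_lit 117) (.e (nat_lit 499919) (nat_lit 9) (.e (nat_lit 179968) (nat_lit 20) .nil))) .nil)) 
(.lf (nat_lit 73578) (.g (nat_lit 5421) (.e (nat_lit 1778) (nat_lit 119) (.e (nat_lit 516166) (nat_lit 12) (.e (nat_lit 450587) (nat_lit 10) (.e (nat_lit 573478) (nat_lit 12) (.e (nat_lit 57574) (nat_lit 55) (.e (nat_lit 778465) (nat_lit 11) (.e (nat_lit 24580) (nat_lit 0) .nil))))))) (.g (nat_lit 6) .nil .nil))))) (.nd (nat_lit 5) (.nd (nat_lit 6) 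
(.lf (nat_lit 73498) (.g (nat_lit 1759) (.e (nat_lit 1712) (nat_lit 117) (.e (nat_lit 499919) (nat_lit 9) (.e (nat_lit 172118) (nat_lit 12) (.e (nat_lit 475177) (nat_lit 24) (.e (nat_lit 516131) (nat_lit 3) .nil))))) .nil)) 
(.lf (nat_lit 73562) (.g (nat_lit 1708) (.e (nat_lit 1774) (nat_lit 118) (.e (nat_lit 507923) (nat_lit 6) (.e (nat_lit 286756) (nat_lit 10) (.e (nat_lit 344126) (nat_lit 25) (.e (nat_lit 548873) (nat_lit 5) (.e (nat_lit 1562) (nat_lit 110) (.e (nat_lit 352293) (nat_lit 20) .nil))))))) (.g (nat_lit 6) .nil .nil)))) (.nd (nat_lit 6) 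
(.lf (nat_lit 73530) (.g (nat_lit 266) (.e (nat_lit 1774) (nat_lit 118) (.e (nat_lit 507923) (nat_lit 6) (.e (nat_lit 286740) (nat_lit 7) .nil))) .nil)) 
(.lf (nat_lit 73594) (.g (nat_lit 7355) (.e (nat_lit 1779) (nat_lit 119) (.e (nat_lit 516166) (nat_lit 12) (.e (nat_lit 450588) (nat_lit 10) (.e (nat_lit 573474) (nat_lit 12) .nil)))) .nil)))))) (.nd (nat_lit 3) (.nd (nat_lit 4) (.nd (nat_lit 5) (.nd (nat_lit 6) 
(.lf (nat_lit 73478) (.g (nat_lit 900) (.e (nat_lit 1702) (nat_lit 117) (.e (nat_lit 499919) (nat_lit 9) (.e (nat_lit 179968) (nat_lit 20) (.e (nat_lit 114719) (nat_lit 23) (.e (nat_lit 106240) (nat_lit 11) .nil))))) .nil)) 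
(.lf (nat_lit 73542) (.g (nat_lit 1563) (.e (nat_lit 1774) (nat_lit 118) (.e (nat_lit 507923) (nat_lit 6) (.e (nat_lit 286749) (nat_lit 9) (.e (nat_lit 336028) (nat_lit 3) (.e (nat_lit 98325) (nat_lit 17) .nil))))) .nil))) (.nd (nat_lit 6) 
(.lf (nat_lit 73510) (.g (nat_lit 1076) (.e (nat_lit 1712) (nat_lit 117) (.e (nat_lit 499919) (nat_lit 9) (.e (nat_lit 179968) (nat_lit 20) (.e (nat_lit 114718) (nat_lit 23) (.e (nat_lit 98315) (nat_lit 9) .nil))))) .nil)) 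
(.lf (nat_lit 73574) (.g (nat_lit 3758) (.e (nat_lit 1778) (nat_lit 119) (.e (nat_lit 516166) (nat_lit 12) (.e (nat_lit 450587) (nat_lit 10) (.e (nat_lit 573456) (nat_lit 9) .nil)))) .nil)))) (.nd (nat_lit 5) (.nd (nat_lit 6) 
(.lf (nat_lit 73494) (.g (nat_lit 1241) (.e (nat_lit 1712) (nat_lit 117) (.e (nat_lit 499919) (nat_lit 9) (.e (nat_lit 172085) (nat_lit 9) (.e (nat_lit 426437) (nat_lit 18) (.e (nat_lit 98342) (nat_lit 20) .nil))))) .nil)) 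
(.lf (nat_lit 73558) (.g (nat_lit 1669) (.e (nat_lit 1774) (nat_lit 118) (.e (nat_lit 507923) (nat_lit 6) (.e (nat_lit 286756) (nat_lit 10) (.e (nat_lit 344115) (nat_lit 20) (.e (nat_lit 507908) (nat_lit 0) (.e (nat_lit 5406) (nat_lit 302) (.e (nat_lit 65536) (nat_lit 0) .nil))))))) (.g (nat_lit 0) .nil .nil)))) (.nd (nat_lit 6) 
(.lf (nat_lit 73526) (.g (nat_lit 1417) (.e (nat_lit 7936) (nat_lit 117) (.e (nat_lit 500046) (nat_lit 16) (.e (nat_lit 16466) (nat_lit 13) (.e (nat_lit 483331) (nat_lit 0) .nil)))) .nil)) 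
(.lf (nat_lit 73590) (.g (nat_lit 4305) (.e (nat_lit 1779) (nat_lit 119) (.e (nat_lit 516166) (nat_lit 12) (.e (nat_lit 450587) (nat_lit 10) (.e (nat_lit 573477) (nat_lit 12) .nil)))) .nil))))) (.nd (nat_lit 4) (.nd (nat_lit 5) (.nd (nat_lit 6) 
(.lf (nat_lit 73486) (.g (nat_lit 2069) (.e (nat_lit 1709) (nat_lit 117) (.e (nat_lit 499900) (nat_lit 7) (.e (nat_lit 24608) (nat_lit 3) (.e (nat_lit 98317) (nat_lit 9) (.e (nat_lit 336026) (nat_lit 3) .nil))))) .nil)) 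
(.lf (nat_lit 73550) (.g (nat_lit 1492) (.e (nat_lit 1774) (nat_lit 118) (.e (nat_lit 507923) (nat_lit 6) (.e (nat_lit 286753) (nat_lit 10) (.e (nat_lit 344126) (nat_lit 25) (.e (nat_lit 548873) (nat_lit 5) (.e (nat_lit 1562) (nat_lit 110) (.e (nat_lit 352293) (nat_lit 20) .nil))))))) (.g (nat_lit 6) .nil .nil)))) (.nd (nat_lit 6) 
(.lf (nat_lit 73518) (.g (nat_lit 2824) (.e (nat_lit 1718) (nat_lit 117) (.e (nat_lit 499919) (nat_lit 9) (.e (nat_lit 172106) (nat_lit 10) (.e (nat_lit 434231) (nat_lit 23) (.e (nat_lit 532522) (nat_lit 7) .nil))))) .nil)) 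
(.lf (nat_lit 73582) (.g (nat_lit 5034) (.e (nat_lit 1778) (nat_lit 119) (.e (nat_lit 516166) (nat_lit 12) (.e (nat_lit 450588) (nat_lit 10) (.e (nat_lit 573452) (nat_lit 9) .nil)))) .nil)))) (.nd (nat_lit 5) (.nd (nat_lit 6) 
(.lf (nat_lit 73502) (.g (nat_lit 1052) (.e (nat_lit 1712) (nat_lit 117) (.e (nat_lit 499919) (nat_lit 9) (.e (nat_lit 172120) (nat_lit 12) (.e (nat_lit 475185) (nat_lit 29) .nil)))) .nil)) 
(.lf (nat_lit 73566) (.g (nat_lit 1257) (.e (nat_lit 1774) (nat_lit 118) (.e (nat_lit 507923) (nat_lit 6) (.e (nat_lit 286760) (nat_lit 13) (.e (nat_lit 393258) (nat_lit 20) (.e (nat_lit 253996) (nat_lit 12) (.e (nat_lit 57553) (nat_lit 49) (.e (nat_lit 729104) (nat_lit 20) .nil))))))) (.g (nat_lit 6) .nil .nil)))) (.nd (nat_lit 6) 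
(.lf (nat_lit 73534) (.g (nat_lit 3256) (.e (nat_lit 1774) (nat_lit 118) (.e (nat_lit 507923) (nat_lit 6) (.e (nat_lit 286747) (nat_lit 9) (.e (nat_lit 336013) (nat_lit 2) (.e (nat_lit 90165) (nat_lit 12) (.e (nat_lit 164208) (nat_lit 176) (.e (nat_lit 2782) (nat_lit 178) (.e (nat_lit 286725) (nat_lit 0) .nil)))))))) (.g (nat_lit 6) .nil .nil))) 
(.lf (nat_lit 73598) (.g (nat_lit 1071) (.e (nat_lit 1780) (nat_lit 119) (.e (nat_lit 516151) (nat_lit 9) (.e (nat_lit 426285) (nat_lit 10) .nil))) .nil)))))))) (.nd (nat_lit 1) (.nd (nat_lit 2) (.nd (nat_lit 3) (.nd (nat_lit 4) (.nd (nat_lit 5) (.nd (nat_lit 6) 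
(.lf (nat_lit 73473) (.g (nat_lit 1339) (.e (nat_lit 1691) (nat_lit 117) (.e (nat_lit 500074) (nat_lit 20) (.e (nat_lit 81956) (nat_lit 23) (.e (nat_lit 98367) (nat_lit 27) .nil)))) .nil)) 
(.lf (nat_lit 73537) (.g (nat_lit 3448) (.e (nat_lit 1774) (nat_lit 118) (.e (nat_lit 507923) (nat_lit 6) (.e (nat_lit 286747) (nat_lit 9) (.e (nat_lit 336013) (nat_lit 2) (.e (nat_lit 90165) (nat_lit 12) (.e (nat_lit 164219) (nat_lit 180) (.e (nat_lit 229651) (nat_lit 232) (.e (nat_lit 1046) (nat_lit 81) .nil)))))))) (.g (nat_lit 6) .nil .nil)))) (.nd (nat_lit 6) 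
(.lf (nat_lit 73505) (.g (nat_lit 1883) (.e (nat_lit 1712) (nat_lit 117) (.e (nat_lit 499919) (nat_lit 9) (.e (nat_lit 172124) (nat_lit 14) (.e (nat_lit 491540) (nat_lit 3) (.e (nat_lit 98367) (nat_lit 27) .nil))))) .nil)) 
(.lf (nat_lit 73569) (.g (nat_lit 4358) (.e (nat_lit 1774) (nat_lit 118) (.e (nat_lit 507923) (nat_lit 6) (.e (nat_lit 286762) (nat_lit 14) (.e (nat_lit 401425) (nat_lit 2) (.e (nat_lit 196674) (nat_lit 15) (.e (nat_lit 81946) (nat_lit 20) .nil)))))) (.g (nat_lit 0) .nil .nil))))) (.nd (nat_lit 5) (.nd (nat_lit 6) 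
(.lf (nat_lit 73489) (.g (nat_lit 2314) (.e (nat_lit 1712) (nat_lit 117) (.e (nat_lit 499919) (nat_lit 9) (.e (nat_lit 172067) (nat_lit 3) (.e (nat_lit 204837) (nat_lit 20) (.e (nat_lit 122624) (nat_lit 3) .nil))))) .nil)) 
(.lf (nat_lit 73553) (.g (nat_lit 518) (.e (nat_lit 1774) (nat_lit 118) (.e (nat_lit 507923) (nat_lit 6) (.e (nat_lit 286754) (nat_lit 10) (.e (nat_lit 344126) (nat_lit 25) .nil)))) .nil))) (.nd (nat_lit 6) 
(.lf (nat_lit 73521) (.g (nat_lit 4191) (.e (nat_lit 1742) (nat_lit 117) (.e (nat_lit 499930) (nat_lit 11) (.e (nat_lit 188452) (nat_lit 23) (.e (nat_lit 204846) (nat_lit 24) (.e (nat_lit 319534) (nat_lit 16) (.e (nat_lit 286728) (nat_lit 0) .nil)))))) (.g (nat_lit 6) .nil .nil))) 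
(.lf (nat_lit 73585) (.g (nat_lit 3510) (.e (nat_lit 1778) (nat_lit 119) (.e (nat_lit 516166) (nat_lit 12) (.e (nat_lit 450588) (nat_lit 10) (.e (nat_lit 573475) (nat_lit 12) .nil)))) .nil))))) (.nd (nat_lit 4) (.nd (nat_lit 5) (.nd (nat_lit 6) 
(.lf (nat_lit 73481) (.g (nat_lit 485) (.e (nat_lit 1704) (nat_lit 117) (.e (nat_lit 499919) (nat_lit 9) (.e (nat_lit 179968) (nat_lit 24) .nil))) .nil)) 
(.lf (nat_lit 73545) (.g (nat_lit 690) (.e (nat_lit 1774) (nat_lit 118) (.e (nat_lit 507923) (nat_lit 6) (.e (nat_lit 286753) (nat_lit 10) (.e (nat_lit 344115) (nat_lit 20) (.e (nat_lit 507907) (nat_lit 0) .nil))))) .nil))) (.nd (nat_lit 6) 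
(.lf (nat_lit 73513) (.g (nat_lit 3677) (.e (nat_lit 1712) (nat_lit 117) (.e (nat_lit 499933) (nat_lit 11) (.e (nat_lit 188452) (nat_lit 23) (.e (nat_lit 204846) (nat_lit 24) (.e (nat_lit 319534) (nat_lit 16) .nil))))) .nil)) 
(.lf (nat_lit 73577) (.g (nat_lit 4025) (.e (nat_lit 1778) (nat_lit 119) (.e (nat_lit 516166) (nat_lit 12) (.e (nat_lit 450587) (nat_lit 10) (.e (nat_lit 573478) (nat_lit 12) (.e (nat_lit 57574) (nat_lit 55) .nil))))) .nil)))) (.nd (nat_lit 5) (.nd (nat_lit 6) 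
(.lf (nat_lit 73497) (.g (nat_lit 499) (.e (nat_lit 1712) (nat_lit 117) (.e (nat_lit 499919) (nat_lit 9) (.e (nat_lit 172118) (nat_lit 12) .nil))) .nil)) 
(.lf (nat_lit 73561) (.g (nat_lit 1270) (.e (nat_lit 1774) (nat_lit 118) (.e (nat_lit 507923) (nat_lit 6) (.e (nat_lit 286756) (nat_lit 10) (.e (nat_lit 344126) (nat_lit 25) (.e (nat_lit 548872) (nat_lit 5) (.e (nat_lit 1564) (nat_lit 110) (.e (nat_lit 352302) (nat_lit 20) .nil))))))) (.g (nat_lit 4) .nil .nil)))) (.nd (nat_lit 6) 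
(.lf (nat_lit 73529) (.g (nat_lit 1796) (.e (nat_lit 1774) (nat_lit 118) (.e (nat_lit 507917) (nat_lit 2) (.e (nat_lit 40997) (nat_lit 11) (.e (nat_lit 24604) (nat_lit 2) (.e (nat_lit 90176) (nat_lit 15) (.e (nat_lit 196352) (nat_lit 0) .nil)))))) (.g (nat_lit 5) .nil .nil))) 
(.lf (nat_lit 73593) (.g (nat_lit 4800) (.e (nat_lit 1779) (nat_lit 119) (.e (nat_lit 516166) (nat_lit 12) (.e (nat_lit 450588) (nat_lit 10) (.e (nat_lit 573473) (nat_lit 12) .nil)))) .nil)))))) (.nd (nat_lit 3) (.nd (nat_lit 4) (.nd (nat_lit 5) (.nd (nat_lit 6) 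
(.lf (nat_lit 73477) (.g (nat_lit 900) (.e (nat_lit 1702) (nat_lit 117) (.e (nat_lit 499919) (nat_lit 9) (.e (nat_lit 179968) (nat_lit 20) (.e (nat_lit 114718) (nat_lit 23) (.e (nat_lit 106240) (nat_lit 11) .nil))))) .nil)) 
(.lf (nat_lit 73541) (.g (nat_lit 2857) (.e (nat_lit 1774) (nat_lit 118) (.e (nat_lit 507923) (nat_lit 6) (.e (nat_lit 286749) (nat_lit 9) (.e (nat_lit 336013) (nat_lit 2) (.e (nat_lit 90165) (nat_lit 12) (.e (nat_lit 171776) (nat_lit 191) (.e (nat_lit 65558) (nat_lit 0) .nil))))))) (.g (nat_lit 5) .nil .nil)))) (.nd (nat_lit 6) 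
(.lf (nat_lit 73509) (.g (nat_lit 485) (.e (nat_lit 1712) (nat_lit 117) (.e (nat_lit 499919) (nat_lit 9) (.e (nat_lit 179968) (nat_lit 20) .nil))) .nil)) 
(.lf (nat_lit 73573) (.g (nat_lit 3900) (.e (nat_lit 1778) (nat_lit 119) (.e (nat_lit 516166) (nat_lit 12) (.e (nat_lit 450587) (nat_lit 10) (.e (nat_lit 573454) (nat_lit 9) .nil)))) .nil)))) (.nd (nat_lit 5) (.nd (nat_lit 6) 
(.lf (nat_lit 73493) (.g (nat_lit 1245) (.e (nat_lit 1712) (nat_lit 117) (.e (nat_lit 499919) (nat_lit 9) (.e (nat_lit 172085) (nat_lit 9) (.e (nat_lit 426437) (nat_lit 18) (.e (nat_lit 98341) (nat_lit 20) (.e (nat_lit 221192) (nat_lit 11) (.e (nat_lit 335960) (nat_lit 0) .nil))))))) (.g (nat_lit 4) .nil .nil))) 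
(.lf (nat_lit 73557) (.g (nat_lit 966) (.e (nat_lit 1774) (nat_lit 118) (.e (nat_lit 507923) (nat_lit 6) (.e (nat_lit 286756) (nat_lit 10) (.e (nat_lit 344115) (nat_lit 20) (.e (nat_lit 507908) (nat_lit 0) (.e (nat_lit 5403) (nat_lit 302) (.e (nat_lit 65557) (nat_lit 0) .nil))))))) (.g (nat_lit 4) .nil .nil)))) (.nd (nat_lit 6) 
(.lf (nat_lit 73525) (.g (nat_lit 1151) (.e (nat_lit 7936) (nat_lit 117) (.e (nat_lit 500046) (nat_lit 16) (.e (nat_lit 16459) (nat_lit 12) (.e (nat_lit 475137) (nat_lit 0) .nil)))) .nil)) 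
(.lf (nat_lit 73589) (.g (nat_lit 5704) (.e (nat_lit 1779) (nat_lit 119) (.e (nat_lit 516166) (nat_lit 12) (.e (nat_lit 450587) (nat_lit 10) (.e (nat_lit 573475) (nat_lit 12) .nil)))) .nil))))) (.nd (nat_lit 4) (.nd (nat_lit 5) (.nd (nat_lit 6) 
(.lf (nat_lit 73485) (.g (nat_lit 2173) (.e (nat_lit 1708) (nat_lit 117) (.e (nat_lit 499919) (nat_lit 9) (.e (nat_lit 172113) (nat_lit 10) (.e (nat_lit 434247) (nat_lit 28) (.e (nat_lit 573477) (nat_lit 12) .nil))))) .nil)) 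
(.lf (nat_lit 73549) (.g (nat_lit 1483) (.e (nat_lit 1774) (nat_lit 118) (.e (nat_lit 507923) (nat_lit 6) (.e (nat_lit 286753) (nat_lit 10) (.e (nat_lit 344115) (nat_lit 20) (.e (nat_lit 507908) (nat_lit 0) (.e (nat_lit 5406) (nat_lit 302) (.e (nat_lit 65549) (nat_lit 0) .nil))))))) (.g (nat_lit 0) .nil .nil)))) (.nd (nat_lit 6) 
(.lf (nat_lit 73517) (.g (nat_lit 2273) (.e (nat_lit 1715) (nat_lit 117) (.e (nat_lit 499902) (nat_lit 7) (.e (nat_lit 24625) (nat_lit 9) (.e (nat_lit 336456) (nat_lit 34) (.e (nat_lit 483365) (nat_lit 18) .nil))))) .nil)) 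
(.lf (nat_lit 73581) (.g (nat_lit 6407) (.e (nat_lit 1778) (nat_lit 119) (.e (nat_lit 516166) (nat_lit 12) (.e (nat_lit 450588) (nat_lit 10) (.e (nat_lit 573451) (nat_lit 9) .nil)))) .nil)))) (.nd (nat_lit 5) (.nd (nat_lit 6) 
(.lf (nat_lit 73501) (.g (nat_lit 1573) (.e (nat_lit 1712) (nat_lit 117) (.e (nat_lit 499919) (nat_lit 9) (.e (nat_lit 172120) (nat_lit 12) (.e (nat_lit 475179) (nat_lit 24) .nil)))) .nil)) 
(.lf (nat_lit 73565) (.g (nat_lit 3463) (.e (nat_lit 1774) (nat_lit 118) (.e (nat_lit 507923) (nat_lit 6) (.e (nat_lit 286759) (nat_lit 12) (.e (nat_lit 385074) (nat_lit 31) (.e (nat_lit 573491) (nat_lit 15) (.e (nat_lit 81946) (nat_lit 20) .nil)))))) (.g (nat_lit 6) .nil .nil)))) (.nd (nat_lit 6) 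
(.lf (nat_lit 73533) (.g (nat_lit 2970) (.e (nat_lit 1774) (nat_lit 118) (.e (nat_lit 507923) (nat_lit 6) (.e (nat_lit 286747) (nat_lit 9) (.e (nat_lit 336013) (nat_lit 2) (.e (nat_lit 90165) (nat_lit 12) (.e (nat_lit 164208) (nat_lit 176) (.e (nat_lit 2782) (nat_lit 178) (.e (nat_lit 286720) (nat_lit 0) .nil)))))))) (.g (nat_lit 5) .nil .nil))) 
(.lf (nat_lit 73597) (.g (nat_lit 5241) (.e (nat_lit 1780) (nat_lit 119) (.e (nat_lit 516151) (nat_lit 9) (.e (nat_lit 426211) (nat_lit 9) (.e (nat_lit 426125) (nat_lit 2) (.e (nat_lit 196626) (nat_lit 9) .nil))))) .nil))))))) (.nd (nat_lit 2) (.nd (nat_lit 3) (.nd (nat_lit 4) (.nd (nat_lit 5) (.nd (nat_lit 6) 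
(.lf (nat_lit 73475) (.g (nat_lit 2985) (.e (nat_lit 1698) (nat_lit 117) (.e (nat_lit 499930) (nat_lit 11) (.e (nat_lit 188452) (nat_lit 23) (.e (nat_lit 204846) (nat_lit 24) (.e (nat_lit 319533) (nat_lit 16) .nil))))) .nil)) 
(.lf (nat_lit 73539) (.g (nat_lit 1540) (.e (nat_lit 1774) (nat_lit 118) (.e (nat_lit 507923) (nat_lit 6) (.e (nat_lit 286747) (nat_lit 9) (.e (nat_lit 336028) (nat_lit 3) (.e (nat_lit 98325) (nat_lit 17) (.e (nat_lit 7936) (nat_lit 406) (.e (nat_lit 65558) (nat_lit 0) .nil))))))) (.g (nat_lit 5) .nil .nil)))) (.nd (nat_lit 6) 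
(.lf (nat_lit 73507) (.g (nat_lit 1175) (.e (nat_lit 1712) (nat_lit 117) (.e (nat_lit 499919) (nat_lit 9) (.e (nat_lit 172126) (nat_lit 14) (.e (nat_lit 491540) (nat_lit 3) .nil)))) .nil)) 
(.lf (nat_lit 73571) (.g (nat_lit 1679) (.e (nat_lit 1778) (nat_lit 119) (.e (nat_lit 516139) (nat_lit 7) (.e (nat_lit 409649) (nat_lit 18) (.e (nat_lit 303118) (nat_lit 3) .nil)))) .nil)))) (.nd (nat_lit 5) (.nd (nat_lit 6) 
(.lf (nat_lit 73491) (.g (nat_lit 870) (.e (nat_lit 1712) (nat_lit 117) (.e (nat_lit 499919) (nat_lit 9) (.e (nat_lit 172085) (nat_lit 9) (.e (nat_lit 426437) (nat_lit 18) .nil)))) .nil)) 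
(.lf (nat_lit 73555) (.g (nat_lit 740) (.e (nat_lit 1774) (nat_lit 118) (.e (nat_lit 507923) (nat_lit 6) (.e (nat_lit 286755) (nat_lit 10) (.e (nat_lit 344126) (nat_lit 25) (.e (nat_lit 548874) (nat_lit 5) .nil))))) .nil))) (.nd (nat_lit 6) 
(.lf (nat_lit 73523) (.g (nat_lit 1455) (.e (nat_lit 1759) (nat_lit 117) (.e (nat_lit 500046) (nat_lit 16) (.e (nat_lit 16459) (nat_lit 12) (.e (nat_lit 475137) (nat_lit 0) .nil)))) .nil)) 
(.lf (nat_lit 73587) (.g (nat_lit 6272) (.e (nat_lit 1778) (nat_lit 119) (.e (nat_lit 516166) (nat_lit 12) (.e (nat_lit 450588) (nat_lit 10) (.e (nat_lit 573475) (nat_lit 12) (.e (nat_lit 57574) (nat_lit 55) (.e (nat_lit 778465) (nat_lit 11) (.e (nat_lit 24580) (nat_lit 0) .nil))))))) (.g (nat_lit 7) .nil .nil)))))) (.nd (nat_lit 4) (.nd (nat_lit 5) (.nd (nat_lit 6) 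
(.lf (nat_lit 73483) (.g (nat_lit 2017) (.e (nat_lit 1705) (nat_lit 117) (.e (nat_lit 499900) (nat_lit 7) (.e (nat_lit 24658) (nat_lit 13) (.e (nat_lit 393229) (nat_lit 9) (.e (nat_lit 335996) (nat_lit 1) (.e (nat_lit 57851) (nat_lit 252) (.e (nat_lit 57347) (nat_lit 0) .nil))))))) (.g (nat_lit 4) .nil .nil))) 
(.lf (nat_lit 73547) (.g (nat_lit 1392) (.e (nat_lit 1774) (nat_lit 118) (.e (nat_lit 507923) (nat_lit 6) (.e (nat_lit 286753) (nat_lit 10) (.e (nat_lit 344115) (nat_lit 20) (.e (nat_lit 507907) (nat_lit 0) (.e (nat_lit 5406) (nat_lit 302) (.e (nat_lit 65549) (nat_lit 0) .nil))))))) (.g (nat_lit 7) .nil .nil)))) (.nd (nat_lit 6) 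
(.lf (nat_lit 73515) (.g (nat_lit 485) (.e (nat_lit 1713) (nat_lit 117) (.e (nat_lit 499919) (nat_lit 9) (.e (nat_lit 179968) (nat_lit 24) .nil))) .nil)) 
(.lf (nat_lit 73579) (.g (nat_lit 1063) (.e (nat_lit 1778) (nat_lit 119) (.e (nat_lit 516166) (nat_lit 12) (.e (nat_lit 450588) (nat_lit 10) .nil))) .nil)))) (.nd (nat_lit 5) (.nd (nat_lit 6) 
(.lf (nat_lit 73499) (.g (nat_lit 2703) (.e (nat_lit 1712) (nat_lit 117) (.e (nat_lit 499919) (nat_lit 9) (.e (nat_lit 172118) (nat_lit 12) (.e (nat_lit 475179) (nat_lit 24) (.e (nat_lit 516129) (nat_lit 3) (.e (nat_lit 221192) (nat_lit 11) (.e (nat_lit 335957) (nat_lit 0) .nil))))))) (.g (nat_lit 6) .nil .nil))) 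
(.lf (nat_lit 73563) (.g (nat_lit 2037) (.e (nat_lit 1774) (nat_lit 118) (.e (nat_lit 507923) (nat_lit 6) (.e (nat_lit 286756) (nat_lit 10) (.e (nat_lit 344126) (nat_lit 25) (.e (nat_lit 548874) (nat_lit 5) (.e (nat_lit 1575) (nat_lit 110) (.e (nat_lit 352293) (nat_lit 20) .nil))))))) (.g (nat_lit 5) .nil .nil)))) (.nd (nat_lit 6) 
(.lf (nat_lit 73531) (.g (nat_lit 784) (.e (nat_lit 1774) (nat_lit 118) (.e (nat_lit 507923) (nat_lit 6) (.e (nat_lit 286740) (nat_lit 7) (.e (nat_lit 319519) (nat_lit 12) (.e (nat_lit 32789) (nat_lit 11) .nil))))) .nil)) 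
(.lf (nat_lit 73595) (.g (nat_lit 4872) (.e (nat_lit 1779) (nat_lit 119) (.e (nat_lit 516166) (nat_lit 12) (.e (nat_lit 450588) (nat_lit 10) (.e (nat_lit 573475) (nat_lit 12) .nil)))) .nil)))))) (.nd (nat_lit 3) (.nd (nat_lit 4) (.nd (nat_lit 5) (.nd (nat_lit 6) 
(.lf (nat_lit 73479) (.g (nat_lit 926) (.e (nat_lit 1702) (nat_lit 117) (.e (nat_lit 499919) (nat_lit 9) (.e (nat_lit 179968) (nat_lit 20) (.e (nat_lit 114719) (nat_lit 23) (.e (nat_lit 106240) (nat_lit 11) (.e (nat_lit 352289) (nat_lit 20) .nil)))))) (.g (nat_lit 4) .nil .nil))) 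
(.lf (nat_lit 73543) (.g (nat_lit 1746) (.e (nat_lit 1774) (nat_lit 118) (.e (nat_lit 507923) (nat_lit 6) (.e (nat_lit 286749) (nat_lit 9) (.e (nat_lit 336028) (nat_lit 3) (.e (nat_lit 98325) (nat_lit 17) (.e (nat_lit 7936) (nat_lit 406) (.e (nat_lit 65559) (nat_lit 0) .nil))))))) (.g (nat_lit 4) .nil .nil)))) (.nd (nat_lit 6) 
(.lf (nat_lit 73511) (.g (nat_lit 2233) (.e (nat_lit 1712) (nat_lit 117) (.e (nat_lit 499933) (nat_lit 11) (.e (nat_lit 188452) (nat_lit 23) (.e (nat_lit 204816) (nat_lit 17) .nil)))) .nil)) 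
(.lf (nat_lit 73575) (.g (nat_lit 3726) (.e (nat_lit 1778) (nat_lit 119) (.e (nat_lit 516166) (nat_lit 12) (.e (nat_lit 450587) (nat_lit 10) (.e (nat_lit 573477) (nat_lit 12) .nil)))) .nil)))) (.nd (nat_lit 5) (.nd (nat_lit 6) 
(.lf (nat_lit 73495) (.g (nat_lit 504) (.e (nat_lit 1712) (nat_lit 117) (.e (nat_lit 499919) (nat_lit 9) (.e (nat_lit 172097) (nat_lit 9) .nil))) .nil)) 
(.lf (nat_lit 73559) (.g (nat_lit 1625) (.e (nat_lit 1774) (nat_lit 118) (.e (nat_lit 507923) (nat_lit 6) (.e (nat_lit 286756) (nat_lit 10) (.e (nat_lit 344115) (nat_lit 20) (.e (nat_lit 507908) (nat_lit 0) (.e (nat_lit 5406) (nat_lit 302) (.e (nat_lit 65549) (nat_lit 0) .nil))))))) (.g (nat_lit 0) .nil .nil)))) (.nd (nat_lit 6) 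
(.lf (nat_lit 73527) (.g (nat_lit 1722) (.e (nat_lit 1772) (nat_lit 118) (.e (nat_lit 507917) (nat_lit 2) (.e (nat_lit 40997) (nat_lit 11) (.e (nat_lit 24604) (nat_lit 2) (.e (nat_lit 90176) (nat_lit 15) (.e (nat_lit 196352) (nat_lit 0) .nil)))))) (.g (nat_lit 5) .nil .nil))) 
(.lf (nat_lit 73591) (.g (nat_lit 4243) (.e (nat_lit 1779) (nat_lit 119) (.e (nat_lit 516166) (nat_lit 12) (.e (nat_lit 450587) (nat_lit 10) (.e (nat_lit 573478) (nat_lit 12) .nil)))) .nil))))) (.nd (nat_lit 4) (.nd (nat_lit 5) (.nd (nat_lit 6) 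
(.lf (nat_lit 73487) (.g (nat_lit 1092) (.e (nat_lit 1712) (nat_lit 117) (.e (nat_lit 499919) (nat_lit 9) (.e (nat_lit 172065) (nat_lit 3) (.e (nat_lit 204837) (nat_lit 20) .nil)))) .nil)) 
(.lf (nat_lit 73551) (.g (nat_lit 2036) (.e (nat_lit 1774) (nat_lit 118) (.e (nat_lit 507923) (nat_lit 6) (.e (nat_lit 286753) (nat_lit 10) (.e (nat_lit 344126) (nat_lit 25) (.e (nat_lit 548874) (nat_lit 5) (.e (nat_lit 1575) (nat_lit 110) (.e (nat_lit 352293) (nat_lit 20) .nil))))))) (.g (nat_lit 5) .nil .nil)))) (.nd (nat_lit 6) 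
(.lf (nat_lit 73519) (.g (nat_lit 485) (.e (nat_lit 1718) (nat_lit 117) (.e (nat_lit 499919) (nat_lit 9) (.e (nat_lit 179968) (nat_lit 24) .nil))) .nil)) 
(.lf (nat_lit 73583) (.g (nat_lit 6385) (.e (nat_lit 1778) (nat_lit 119) (.e (nat_lit 516166) (nat_lit 12) (.e (nat_lit 450588) (nat_lit 10) (.e (nat_lit 573454) (nat_lit 9) .nil)))) .nil)))) (.nd (nat_lit 5) (.nd (nat_lit 6) 
(.lf (nat_lit 73503) (.g (nat_lit 3565) (.e (nat_lit 1712) (nat_lit 117) (.e (nat_lit 499919) (nat_lit 9) (.e (nat_lit 172120) (nat_lit 12) (.e (nat_lit 475185) (nat_lit 29) (.e (nat_lit 557103) (nat_lit 14) (.e (nat_lit 180276) (nat_lit 32) (.e (nat_lit 1074) (nat_lit 81) .nil))))))) (.g (nat_lit 5) .nil .nil))) 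
(.lf (nat_lit 73567) (.g (nat_lit 1426) (.e (nat_lit 1774) (nat_lit 118) (.e (nat_lit 507923) (nat_lit 6) (.e (nat_lit 286760) (nat_lit 13) (.e (nat_lit 393258) (nat_lit 20) (.e (nat_lit 253996) (nat_lit 12) (.e (nat_lit 57555) (nat_lit 49) (.e (nat_lit 729104) (nat_lit 20) .nil))))))) (.g (nat_lit 7) .nil .nil)))) (.nd (nat_lit 6) 
(.lf (nat_lit 73535) (.g (nat_lit 2940) (.e (nat_lit 1774) (nat_lit 118) (.e (nat_lit 507923) (nat_lit 6) (.e (nat_lit 286747) (nat_lit 9) (.e (nat_lit 336013) (nat_lit 2) (.e (nat_lit 90165) (nat_lit 12) (.e (nat_lit 164208) (nat_lit 176) (.e (nat_lit 2793) (nat_lit 179) (.e (nat_lit 294917) (nat_lit 0) .nil)))))))) (.g (nat_lit 5) .nil .nil))) 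
(.lf (nat_lit 73599) (.g (nat_lit 2655) (.e (nat_lit 1780) (nat_lit 119) (.e (nat_lit 516151) (nat_lit 9) (.e (nat_lit 426285) (nat_lit 10) (.e (nat_lit 434247) (nat_lit 28) .nil)))) .nil)))))))))

noncomputable def tv998 : DT := (.nd (nat_lit 0) (.nd (nat_lit 1) (.nd (nat_lit 2) (.nd (nat_lit 3) (.nd (nat_lit 4) (.nd (nat_lit 5) 
(.lf (nat_lit 73600) (.g (nat_lit 4063) (.e (nat_lit 1780) (nat_lit 119) (.e (nat_lit 516151) (nat_lit 9) (.e (nat_lit 426286) (nat_lit 10) (.e (nat_lit 434245) (nat_lit 28) .nil)))) .nil)) 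
(.lf (nat_lit 73632) (.g (nat_lit 492) (.e (nat_lit 1781) (nat_lit 119) (.e (nat_lit 516119) (nat_lit 1) (.e (nat_lit 164179) (nat_lit 154) .nil))) .nil))) (.nd (nat_lit 5) 
(.lf (nat_lit 73616) (.g (nat_lit 2215) (.e (nat_lit 1781) (nat_lit 119) (.e (nat_lit 516115) (nat_lit 1) (.e (nat_lit 164399) (nat_lit 256) (.e (nat_lit 57373) (nat_lit 2) (.e (nat_lit 90174) (nat_lit 14) (.e (nat_lit 180243) (nat_lit 5) (.e (nat_lit 532515) (nat_lit 3) (.e (nat_lit 114701) (nat_lit 20) .nil)))))))) (.g (nat_lit 4) .nil .nil))) 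
(.lf (nat_lit 73648) (.g (nat_lit 4603) (.e (nat_lit 1781) (nat_lit 119) (.e (nat_lit 516119) (nat_lit 1) (.e (nat_lit 164326) (nat_lit 230) (.e (nat_lit 163903) (nat_lit 12) (.e (nat_lit 426566) (nat_lit 34) (.e (nat_lit 393273) (nat_lit 23) (.e (nat_lit 426364) (nat_lit 15) .nil))))))) (.g (nat_lit 7) .nil .nil))))) (.nd (nat_lit 4) (.nd (nat_lit 5) 
(.lf (nat_lit 73608) (.g (nat_lit 3736) (.e (nat_lit 1780) (nat_lit 119) (.e (nat_lit 516166) (nat_lit 12) (.e (nat_lit 450588) (nat_lit 10) (.e (nat_lit 573452) (nat_lit 9) .nil)))) .nil)) 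
(.lf (nat_lit 73640) (.g (nat_lit 546) (.e (nat_lit 1781) (nat_lit 119) (.e (nat_lit 516119) (nat_lit 1) (.e (nat_lit 164324) (nat_lit 230) .nil))) .nil))) (.nd (nat_lit 5) 
(.lf (nat_lit 73624) (.g (nat_lit 2476) (.e (nat_lit 1781) (nat_lit 119) (.e (nat_lit 516117) (nat_lit 1) (.e (nat_lit 164329) (nat_lit 230) (.e (nat_lit 163902) (nat_lit 12) (.e (nat_lit 426568) (nat_lit 34) (.e (nat_lit 393281) (nat_lit 23) (.e (nat_lit 426410) (nat_lit 15) .nil))))))) (.g (nat_lit 4) .nil .nil))) 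
(.lf (nat_lit 73656) (.g (nat_lit 2261) (.e (nat_lit 1781) (nat_lit 119) (.e (nat_lit 516119) (nat_lit 1) (.e (nat_lit 164402) (nat_lit 256) (.e (nat_lit 57371) (nat_lit 2) (.e (nat_lit 90174) (nat_lit 14) (.e (nat_lit 180243) (nat_lit 5) (.e (nat_lit 532513) (nat_lit 3) (.e (nat_lit 114700) (nat_lit 20) .nil)))))))) (.g (nat_lit 4) .nil .nil)))))) 
(.nd (nat_lit 3) (.nd (nat_lit 4) (.nd (nat_lit 5) 
(.lf (nat_lit 73604) (.g (nat_lit 2835) (.e (nat_lit 1780) (nat_lit 119) (.e (nat_lit 516166) (nat_lit 12) (.e (nat_lit 450587) (nat_lit 10) (.e (nat_lit 573456) (nat_lit 9) .nil)))) .nil)) 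
(.lf (nat_lit 73636) (.g (nat_lit 2016) (.e (nat_lit 1781) (nat_lit 119) (.e (nat_lit 516119) (nat_lit 1) (.e (nat_lit 164179) (nat_lit 154) (.e (nat_lit 57447) (nat_lit 19) (.e (nat_lit 401152) (nat_lit 11) .nil))))) .nil))) (.nd (nat_lit 5) 
(.lf (nat_lit 73620) (.g (nat_lit 3494) (.e (nat_lit 1781) (nat_lit 119) (.e (nat_lit 516116) (nat_lit 1) (.e (nat_lit 164330) (nat_lit 230) (.e (nat_lit 163902) (nat_lit 12) (.e (nat_lit 426566) (nat_lit 34) (.e (nat_lit 393273) (nat_lit 23) (.e (nat_lit 426364) (nat_lit 15) .nil))))))) (.g (nat_lit 5) .nil .nil))) 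
(.lf (nat_lit 73652) (.g (nat_lit 2175) (.e (nat_lit 1781) (nat_lit 119) (.e (nat_lit 516119) (nat_lit 1) (.e (nat_lit 164396) (nat_lit 256) (.e (nat_lit 57371) (nat_lit 2) (.e (nat_lit 90172) (nat_lit 14) (.e (nat_lit 180244) (nat_lit 5) (.e (nat_lit 532515) (nat_lit 3) (.e (nat_lit 114701) (nat_lit 20) .nil)))))))) (.g (nat_lit 4) .nil .nil))))) (.nd (nat_lit 4) (.nd (nat_lit 5) 
(.lf (nat_lit 73612) (.g (nat_lit 2241) (.e (nat_lit 1781) (nat_lit 119) (.e (nat_lit 516115) (nat_lit 1) (.e (nat_lit 164399) (nat_lit 256) (.e (nat_lit 57373) (nat_lit 2) (.e (nat_lit 90172) (nat_lit 14) (.e (nat_lit 180244) (nat_lit 5) (.e (nat_lit 532513) (nat_lit 3) (.e (nat_lit 114700) (nat_lit 20) .nil)))))))) (.g (nat_lit 4) .nil .nil))) 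
(.lf (nat_lit 73644) (.g (nat_lit 3729) (.e (nat_lit 1781) (nat_lit 119) (.e (nat_lit 516119) (nat_lit 1) (.e (nat_lit 164325) (nat_lit 230) (.e (nat_lit 163907) (nat_lit 12) (.e (nat_lit 426566) (nat_lit 34) (.e (nat_lit 393273) (nat_lit 23) (.e (nat_lit 426364) (nat_lit 15) .nil))))))) (.g (nat_lit 7) .nil .nil)))) (.nd (nat_lit 5) 
(.lf (nat_lit 73628) (.g (nat_lit 1868) (.e (nat_lit 1781) (nat_lit 119) (.e (nat_lit 516117) (nat_lit 1) (.e (nat_lit 164332) (nat_lit 230) (.e (nat_lit 163905) (nat_lit 12) (.e (nat_lit 426566) (nat_lit 34) (.e (nat_lit 393273) (nat_lit 23) (.e (nat_lit 426364) (nat_lit 15) .nil))))))) (.g (nat_lit 4) .nil .nil))) 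
(.lf (nat_lit 73660) (.g (nat_lit 2402) (.e (nat_lit 1781) (nat_lit 119) (.e (nat_lit 516119) (nat_lit 1) (.e (nat_lit 164403) (nat_lit 256) (.e (nat_lit 57370) (nat_lit 2) (.e (nat_lit 90174) (nat_lit 14) (.e (nat_lit 180243) (nat_lit 5) (.e (nat_lit 532513) (nat_lit 3) (.e (nat_lit 114706) (nat_lit 20) .nil)))))))) (.g (nat_lit 4) .nil .nil))))))) 
(.nd (nat_lit 2) (.nd (nat_lit 3) (.nd (nat_lit 4) (.nd (nat_lit 5) 
(.lf (nat_lit 73602) (.g (nat_lit 3795) (.e (nat_lit 1780) (nat_lit 119) (.e (nat_lit 516151) (nat_lit 9) (.e (nat_lit 426286) (nat_lit 10) (.e (nat_lit 434248) (nat_lit 28) .nil)))) .nil)) 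
(.lf (nat_lit 73634) (.g (nat_lit 2329) (.e (nat_lit 1781) (nat_lit 119) (.e (nat_lit 516119) (nat_lit 1) (.e (nat_lit 164179) (nat_lit 154) (.e (nat_lit 57445) (nat_lit 19) (.e (nat_lit 401152) (nat_lit 11) (.e (nat_lit 352290) (nat_lit 20) .nil)))))) (.g (nat_lit 4) .nil .nil)))) (.nd (nat_lit 5) 
(.lf (nat_lit 73618) (.g (nat_lit 2941) (.e (nat_lit 1781) (nat_lit 119) (.e (nat_lit 516116) (nat_lit 1) (.e (nat_lit 164329) (nat_lit 230) (.e (nat_lit 163902) (nat_lit 12) (.e (nat_lit 426568) (nat_lit 34) (.e (nat_lit 393271) (nat_lit 23) (.e (nat_lit 426354) (nat_lit 15) .nil))))))) (.g (nat_lit 5) .nil .nil))) 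
(.lf (nat_lit 73650) (.g (nat_lit 602) (.e (nat_lit 1781) (nat_lit 119) (.e (nat_lit 516119) (nat_lit 1) (.e (nat_lit 164327) (nat_lit 230) .nil))) .nil)))) (.nd (nat_lit 4) (.nd (nat_lit 5) 
(.lf (nat_lit 73610) (.g (nat_lit 7092) (.e (nat_lit 1780) (nat_lit 119) (.e (nat_lit 516166) (nat_lit 12) (.e (nat_lit 450588) (nat_lit 10) (.e (nat_lit 573474) (nat_lit 12) .nil)))) .nil)) 
(.lf (nat_lit 73642) (.g (nat_lit 553) (.e (nat_lit 1781) (nat_lit 119) (.e (nat_lit 516119) (nat_lit 1) (.e (nat_lit 164325) (nat_lit 230) .nil))) .nil))) (.nd (nat_lit 5) 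
(.lf (nat_lit 73626) (.g (nat_lit 1377) (.e (nat_lit 1781) (nat_lit 119) (.e (nat_lit 516117) (nat_lit 1) (.e (nat_lit 164330) (nat_lit 230) (.e (nat_lit 163913) (nat_lit 12) .nil)))) .nil)) 
(.lf (nat_lit 73658) (.g (nat_lit 2916) (.e (nat_lit 1781) (nat_lit 119) (.e (nat_lit 516119) (nat_lit 1) (.e (nat_lit 164403) (nat_lit 256) (.e (nat_lit 57370) (nat_lit 2) (.e (nat_lit 90172) (nat_lit 14) (.e (nat_lit 180244) (nat_lit 5) (.e (nat_lit 532515) (nat_lit 3) (.e (nat_lit 114701) (nat_lit 20) .nil)))))))) (.g (nat_lit 5) .nil .nil)))))) 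
(.nd (nat_lit 3) (.nd (nat_lit 4) (.nd (nat_lit 5) 
(.lf (nat_lit 73606) (.g (nat_lit 3431) (.e (nat_lit 1780) (nat_lit 119) (.e (nat_lit 516166) (nat_lit 12) (.e (nat_lit 450587) (nat_lit 10) (.e (nat_lit 573478) (nat_lit 12) (.e (nat_lit 57574) (nat_lit 55) .nil))))) .nil)) 
(.lf (nat_lit 73638) (.g (nat_lit 582) (.e (nat_lit 1781) (nat_lit 119) (.e (nat_lit 516119) (nat_lit 1) (.e (nat_lit 164322) (nat_lit 230) .nil))) .nil))) (.nd (nat_lit 5) 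
(.lf (nat_lit 73622) (.g (nat_lit 2033) (.e (nat_lit 1781) (nat_lit 119) (.e (nat_lit 516117) (nat_lit 1) (.e (nat_lit 164329) (nat_lit 230) (.e (nat_lit 163902) (nat_lit 12) (.e (nat_lit 426568) (nat_lit 34) .nil))))) .nil)) 
(.lf (nat_lit 73654) (.g (nat_lit 1989) (.e (nat_lit 1781) (nat_lit 119) (.e (nat_lit 516119) (nat_lit 1) (.e (nat_lit 164401) (nat_lit 256) (.e (nat_lit 57373) (nat_lit 2) (.e (nat_lit 90174) (nat_lit 14) .nil))))) .nil)))) (.nd (nat_lit 4) (.nd (nat_lit 5) 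
(.lf (nat_lit 73614) (.g (nat_lit 2306) (.e (nat_lit 1781) (nat_lit 119) (.e (nat_lit 516115) (nat_lit 1) (.e (nat_lit 164399) (nat_lit 256) (.e (nat_lit 57373) (nat_lit 2) (.e (nat_lit 90174) (nat_lit 14) (.e (nat_lit 180243) (nat_lit 5) (.e (nat_lit 532513) (nat_lit 3) (.e (nat_lit 114701) (nat_lit 20) .nil)))))))) (.g (nat_lit 4) .nil .nil))) 
(.lf (nat_lit 73646) (.g (nat_lit 588) (.e (nat_lit 1781) (nat_lit 119) (.e (nat_lit 516119) (nat_lit 1) (.e (nat_lit 164326) (nat_lit 230) .nil))) .nil))) (.nd (nat_lit 5) 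
(.lf (nat_lit 73630) (.g (nat_lit 721) (.e (nat_lit 1781) (nat_lit 119) (.e (nat_lit 516119) (nat_lit 1) (.e (nat_lit 164176) (nat_lit 154) .nil))) .nil)) 
(.lf (nat_lit 73662) (.g (nat_lit 2466) (.e (nat_lit 1781) (nat_lit 119) (.e (nat_lit 516119) (nat_lit 1) (.e (nat_lit 164403) (nat_lit 256) (.e (nat_lit 57371) (nat_lit 2) (.e (nat_lit 90167) (nat_lit 13) (.e (nat_lit 172067) (nat_lit 3) (.e (nat_lit 204838) (nat_lit 20) (.e (nat_lit 114701) (nat_lit 20) .nil)))))))) (.g (nat_lit 4) .nil .nil)))))))) 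
(.nd (nat_lit 1) (.nd (nat_lit 2) (.nd (nat_lit 3) (.nd (nat_lit 4) (.nd (nat_lit 5) 
(.lf (nat_lit 73601) (.g (nat_lit 3821) (.e (nat_lit 1780) (nat_lit 119) (.e (nat_lit 516151) (nat_lit 9) (.e (nat_lit 426286) (nat_lit 10) (.e (nat_lit 434247) (nat_lit 28) .nil)))) .nil)) 
(.lf (nat_lit 73633) (.g (nat_lit 1868) (.e (nat_lit 1781) (nat_lit 119) (.e (nat_lit 516119) (nat_lit 1) (.e (nat_lit 164179) (nat_lit 154) (.e (nat_lit 57445) (nat_lit 19) (.e (nat_lit 401152) (nat_lit 11) .nil))))) .nil))) (.nd (nat_lit 5) 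
(.lf (nat_lit 73617) (.g (nat_lit 1968) (.e (nat_lit 1781) (nat_lit 119) (.e (nat_lit 516115) (nat_lit 1) (.e (nat_lit 164399) (nat_lit 256) (.e (nat_lit 57378) (nat_lit 3) (.e (nat_lit 98358) (nat_lit 26) (.e (nat_lit 426131) (nat_lit 3) (.e (nat_lit 204838) (nat_lit 20) (.e (nat_lit 114702) (nat_lit 20) .nil)))))))) (.g (nat_lit 4) .nil .nil))) 
(.lf (nat_lit 73649) (.g (nat_lit 2365) (.e (nat_lit 1781) (nat_lit 119) (.e (nat_lit 516119) (nat_lit 1) (.e (nat_lit 164326) (nat_lit 230) (.e (nat_lit 163907) (nat_lit 12) (.e (nat_lit 426566) (nat_lit 34) .nil))))) .nil)))) (.nd (nat_lit 4) (.nd (nat_lit 5) 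
(.lf (nat_lit 73609) (.g (nat_lit 3513) (.e (nat_lit 1780) (nat_lit 119) (.e (nat_lit 516166) (nat_lit 12) (.e (nat_lit 450588) (nat_lit 10) (.e (nat_lit 573473) (nat_lit 12) .nil)))) .nil)) 
(.lf (nat_lit 73641) (.g (nat_lit 3086) (.e (nat_lit 1781) (nat_lit 119) (.e (nat_lit 516119) (nat_lit 1) (.e (nat_lit 164324) (nat_lit 230) (.e (nat_lit 163903) (nat_lit 12) (.e (nat_lit 426566) (nat_lit 34) (.e (nat_lit 393273) (nat_lit 23) (.e (nat_lit 426364) (nat_lit 15) .nil))))))) (.g (nat_lit 5) .nil .nil)))) (.nd (nat_lit 5) 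
(.lf (nat_lit 73625) (.g (nat_lit 2352) (.e (nat_lit 1781) (nat_lit 119) (.e (nat_lit 516117) (nat_lit 1) (.e (nat_lit 164329) (nat_lit 230) (.e (nat_lit 163902) (nat_lit 12) (.e (nat_lit 426568) (nat_lit 34) (.e (nat_lit 393281) (nat_lit 23) (.e (nat_lit 426413) (nat_lit 15) .nil))))))) (.g (nat_lit 4) .nil .nil))) 
(.lf (nat_lit 73657) (.g (nat_lit 636) (.e (nat_lit 1781) (nat_lit 119) (.e (nat_lit 516119) (nat_lit 1) (.e (nat_lit 164403) (nat_lit 256) .nil))) .nil))))) (.nd (nat_lit 3) (.nd (nat_lit 4) (.nd (nat_lit 5) 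
(.lf (nat_lit 73605) (.g (nat_lit 3282) (.e (nat_lit 1780) (nat_lit 119) (.e (nat_lit 516166) (nat_lit 12) (.e (nat_lit 450587) (nat_lit 10) (.e (nat_lit 573477) (nat_lit 12) (.e (nat_lit 57574) (nat_lit 55) .nil))))) .nil)) 
(.lf (nat_lit 73637) (.g (nat_lit 2243) (.e (nat_lit 1781) (nat_lit 119) (.e (nat_lit 516119) (nat_lit 1) (.e (nat_lit 164179) (nat_lit 154) (.e (nat_lit 57447) (nat_lit 19) (.e (nat_lit 401152) (nat_lit 11) (.e (nat_lit 352290) (nat_lit 20) .nil)))))) (.g (nat_lit 4) .nil .nil)))) (.nd (nat_lit 5) 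
(.lf (nat_lit 73621) (.g (nat_lit 1526) (.e (nat_lit 1781) (nat_lit 119) (.e (nat_lit 516117) (nat_lit 1) (.e (nat_lit 164329) (nat_lit 230) (.e (nat_lit 163902) (nat_lit 12) .nil)))) .nil)) 
(.lf (nat_lit 73653) (.g (nat_lit 2128) (.e (nat_lit 1781) (nat_lit 119) (.e (nat_lit 516119) (nat_lit 1) (.e (nat_lit 164396) (nat_lit 256) (.e (nat_lit 57371) (nat_lit 2) (.e (nat_lit 90172) (nat_lit 14) (.e (nat_lit 180244) (nat_lit 5) (.e (nat_lit 532515) (nat_lit 3) (.e (nat_lit 114702) (nat_lit 20) .nil)))))))) (.g (nat_lit 4) .nil .nil))))) (.nd (nat_lit 4) (.nd (nat_lit 5) 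
(.lf (nat_lit 73613) (.g (nat_lit 2186) (.e (nat_lit 1781) (nat_lit 119) (.e (nat_lit 516115) (nat_lit 1) (.e (nat_lit 164399) (nat_lit 256) (.e (nat_lit 57373) (nat_lit 2) (.e (nat_lit 90172) (nat_lit 14) (.e (nat_lit 180244) (nat_lit 5) (.e (nat_lit 532515) (nat_lit 3) (.e (nat_lit 114701) (nat_lit 20) .nil)))))))) (.g (nat_lit 4) .nil .nil))) 
(.lf (nat_lit 73645) (.g (nat_lit 1779) (.e (nat_lit 1781) (nat_lit 119) (.e (nat_lit 516119) (nat_lit 1) (.e (nat_lit 164325) (nat_lit 230) (.e (nat_lit 163941) (nat_lit 19) (.e (nat_lit 483341) (nat_lit 9) .nil))))) .nil))) (.nd (nat_lit 5) 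
(.lf (nat_lit 73629) (.g (nat_lit 1533) (.e (nat_lit 1781) (nat_lit 119) (.e (nat_lit 516118) (nat_lit 1) (.e (nat_lit 164183) (nat_lit 154) (.e (nat_lit 57447) (nat_lit 19) (.e (nat_lit 401152) (nat_lit 11) .nil))))) .nil)) 
(.lf (nat_lit 73661) (.g (nat_lit 2371) (.e (nat_lit 1781) (nat_lit 119) (.e (nat_lit 516119) (nat_lit 1) (.e (nat_lit 164403) (nat_lit 256) (.e (nat_lit 57370) (nat_lit 2) (.e (nat_lit 90174) (nat_lit 14) (.e (nat_lit 180243) (nat_lit 5) (.e (nat_lit 532515) (nat_lit 3) (.e (nat_lit 114701) (nat_lit 20) .nil)))))))) (.g (nat_lit 4) .nil .nil))))))) 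
(.nd (nat_lit 2) (.nd (nat_lit 3) (.nd (nat_lit 4) (.nd (nat_lit 5) 
(.lf (nat_lit 73603) (.g (nat_lit 4069) (.e (nat_lit 1780) (nat_lit 119) (.e (nat_lit 516166) (nat_lit 12) (.e (nat_lit 450587) (nat_lit 10) (.e (nat_lit 573454) (nat_lit 9) .nil)))) .nil)) 
(.lf (nat_lit 73635) (.g (nat_lit 1717) (.e (nat_lit 1781) (nat_lit 119) (.e (nat_lit 516119) (nat_lit 1) (.e (nat_lit 164179) (nat_lit 154) (.e (nat_lit 57446) (nat_lit 19) (.e (nat_lit 401152) (nat_lit 11) .nil))))) .nil))) (.nd (nat_lit 5) 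
(.lf (nat_lit 73619) (.g (nat_lit 1646) (.e (nat_lit 1781) (nat_lit 119) (.e (nat_lit 516116) (nat_lit 1) (.e (nat_lit 164329) (nat_lit 230) (.e (nat_lit 163904) (nat_lit 12) .nil)))) .nil)) 
(.lf (nat_lit 73651) (.g (nat_lit 2281) (.e (nat_lit 1781) (nat_lit 119) (.e (nat_lit 516119) (nat_lit 1) (.e (nat_lit 164396) (nat_lit 256) (.e (nat_lit 57371) (nat_lit 2) (.e (nat_lit 90172) (nat_lit 14) (.e (nat_lit 180244) (nat_lit 5) (.e (nat_lit 532513) (nat_lit 3) (.e (nat_lit 114700) (nat_lit 20) .nil)))))))) (.g (nat_lit 4) .nil .nil))))) (.nd (nat_lit 4) (.nd (nat_lit 5) 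
(.lf (nat_lit 73611) (.g (nat_lit 3486) (.e (nat_lit 1780) (nat_lit 119) (.e (nat_lit 516166) (nat_lit 12) (.e (nat_lit 450588) (nat_lit 10) (.e (nat_lit 573475) (nat_lit 12) (.e (nat_lit 57574) (nat_lit 55) .nil))))) .nil)) 
(.lf (nat_lit 73643) (.g (nat_lit 4205) (.e (nat_lit 1781) (nat_lit 119) (.e (nat_lit 516119) (nat_lit 1) (.e (nat_lit 164325) (nat_lit 230) (.e (nat_lit 163903) (nat_lit 12) (.e (nat_lit 426566) (nat_lit 34) (.e (nat_lit 393273) (nat_lit 23) (.e (nat_lit 426364) (nat_lit 15) .nil))))))) (.g (nat_lit 7) .nil .nil)))) (.nd (nat_lit 5) 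
(.lf (nat_lit 73627) (.g (nat_lit 1978) (.e (nat_lit 1781) (nat_lit 119) (.e (nat_lit 516117) (nat_lit 1) (.e (nat_lit 164332) (nat_lit 230) (.e (nat_lit 163902) (nat_lit 12) (.e (nat_lit 426566) (nat_lit 34) (.e (nat_lit 393273) (nat_lit 23) (.e (nat_lit 426364) (nat_lit 15) .nil))))))) (.g (nat_lit 4) .nil .nil))) 
(.lf (nat_lit 73659) (.g (nat_lit 2876) (.e (nat_lit 1781) (nat_lit 119) (.e (nat_lit 516119) (nat_lit 1) (.e (nat_lit 164403) (nat_lit 256) (.e (nat_lit 57370) (nat_lit 2) (.e (nat_lit 90172) (nat_lit 14) (.e (nat_lit 180244) (nat_lit 5) (.e (nat_lit 532515) (nat_lit 3) (.e (nat_lit 114702) (nat_lit 20) .nil)))))))) (.g (nat_lit 5) .nil .nil)))))) 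
(.nd (nat_lit 3) (.nd (nat_lit 4) (.nd (nat_lit 5) 
(.lf (nat_lit 73607) (.g (nat_lit 765) (.e (nat_lit 1780) (nat_lit 119) (.e (nat_lit 516166) (nat_lit 12) (.e (nat_lit 450588) (nat_lit 10) .nil))) .nil)) 
(.lf (nat_lit 73639) (.g (nat_lit 2060) (.e (nat_lit 1781) (nat_lit 119) (.e (nat_lit 516119) (nat_lit 1) (.e (nat_lit 164322) (nat_lit 230) (.e (nat_lit 163902) (nat_lit 12) (.e (nat_lit 426479) (nat_lit 27) .nil))))) .nil))) (.nd (nat_lit 5) 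
(.lf (nat_lit 73623) (.g (nat_lit 2090) (.e (nat_lit 1781) (nat_lit 119) (.e (nat_lit 516117) (nat_lit 1) (.e (nat_lit 164329) (nat_lit 230) (.e (nat_lit 163902) (nat_lit 12) (.e (nat_lit 426568) (nat_lit 34) (.e (nat_lit 393279) (nat_lit 23) (.e (nat_lit 426356) (nat_lit 15) .nil))))))) (.g (nat_lit 4) .nil .nil))) 
(.lf (nat_lit 73655) (.g (nat_lit 2006) (.e (nat_lit 1781) (nat_lit 119) (.e (nat_lit 516119) (nat_lit 1) (.e (nat_lit 164401) (nat_lit 256) (.e (nat_lit 57373) (nat_lit 2) (.e (nat_lit 90174) (nat_lit 14) (.e (nat_lit 180243) (nat_lit 5) (.e (nat_lit 532513) (nat_lit 3) (.e (nat_lit 114701) (nat_lit 20) .nil)))))))) (.g (nat_lit 4) .nil .nil))))) (.nd (nat_lit 4) (.nd (nat_lit 5) 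
(.lf (nat_lit 73615) (.g (nat_lit 2161) (.e (nat_lit 1781) (nat_lit 119) (.e (nat_lit 516115) (nat_lit 1) (.e (nat_lit 164399) (nat_lit 256) (.e (nat_lit 57373) (nat_lit 2) (.e (nat_lit 90174) (nat_lit 14) (.e (nat_lit 180243) (nat_lit 5) (.e (nat_lit 532513) (nat_lit 3) (.e (nat_lit 114706) (nat_lit 20) .nil)))))))) (.g (nat_lit 4) .nil .nil))) 
(.lf (nat_lit 73647) (.g (nat_lit 1209) (.e (nat_lit 1781) (nat_lit 119) (.e (nat_lit 516119) (nat_lit 1) (.e (nat_lit 164326) (nat_lit 230) (.e (nat_lit 163903) (nat_lit 12) .nil)))) .nil))) (.nd (nat_lit 5) 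
(.lf (nat_lit 73631) (.g (nat_lit 518) (.e (nat_lit 1781) (nat_lit 119) (.e (nat_lit 516119) (nat_lit 1) (.e (nat_lit 164178) (nat_lit 154) .nil))) .nil)) 
(.lf (nat_lit 73663) (.g (nat_lit 2920) (.e (nat_lit 1781) (nat_lit 119) (.e (nat_lit 516119) (nat_lit 1) (.e (nat_lit 164403) (nat_lit 256) (.e (nat_lit 57371) (nat_lit 2) (.e (nat_lit 90167) (nat_lit 13) (.e (nat_lit 172067) (nat_lit 3) (.e (nat_lit 204838) (nat_lit 20) (.e (nat_lit 114702) (nat_lit 20) .nil)))))))) (.g (nat_lit 5) .nil .nil)))))))))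

noncomputable def tv999 : DT := (.nd (nat_lit 0) (.nd (nat_lit 1) (.nd (nat_lit 2) (.nd (nat_lit 3) (.nd (nat_lit 4) (.nd (nat_lit 5) 
(.lf (nat_lit 73664) (.g (nat_lit 4013) (.e (nat_lit 1781) (nat_lit 119) (.e (nat_lit 516119) (nat_lit 1) (.e (nat_lit 164403) (nat_lit 256) (.e (nat_lit 57371) (nat_lit 2) (.e (nat_lit 90172) (nat_lit 14) (.e (nat_lit 180243) (nat_lit 5) (.e (nat_lit 532513) (nat_lit 3) (.e (nat_lit 114700) (nat_lit 20) .nil)))))))) (.g (nat_lit 6) .nil .nil))) 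
(.lf (nat_lit 73696) (.g (nat_lit 3525) (.e (nat_lit 1781) (nat_lit 119) (.e (nat_lit 516119) (nat_lit 1) (.e (nat_lit 164403) (nat_lit 256) (.e (nat_lit 57378) (nat_lit 3) (.e (nat_lit 98356) (nat_lit 26) (.e (nat_lit 426131) (nat_lit 3) (.e (nat_lit 204838) (nat_lit 20) (.e (nat_lit 114702) (nat_lit 20) .nil)))))))) (.g (nat_lit 5) .nil .nil)))) (.nd (nat_lit 5) 
(.lf (nat_lit 73680) (.g (nat_lit 2622) (.e (nat_lit 1781) (nat_lit 119) (.e (nat_lit 516119) (nat_lit 1) (.e (nat_lit 164403) (nat_lit 256) (.e (nat_lit 57373) (nat_lit 2) (.e (nat_lit 90172) (nat_lit 14) (.e (nat_lit 180244) (nat_lit 5) (.e (nat_lit 532513) (nat_lit 3) (.e (nat_lit 114699) (nat_lit 20) .nil)))))))) (.g (nat_lit 4) .nil .nil))) 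
(.lf (nat_lit 73712) (.g (nat_lit 1482) (.e (nat_lit 1781) (nat_lit 119) (.e (nat_lit 516120) (nat_lit 1) (.e (nat_lit 164329) (nat_lit 230) (.e (nat_lit 163902) (nat_lit 12) (.e (nat_lit 426568) (nat_lit 34) .nil))))) .nil)))) (.nd (nat_lit 4) (.nd (nat_lit 5) 
(.lf (nat_lit 73672) (.g (nat_lit 3228) (.e (nat_lit 1781) (nat_lit 119) (.e (nat_lit 516119) (nat_lit 1) (.e (nat_lit 164403) (nat_lit 256) (.e (nat_lit 57371) (nat_lit 2) (.e (nat_lit 90174) (nat_lit 14) (.e (nat_lit 180243) (nat_lit 5) (.e (nat_lit 532515) (nat_lit 3) (.e (nat_lit 114700) (nat_lit 20) .nil)))))))) (.g (nat_lit 5) .nil .nil))) 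
(.lf (nat_lit 73704) (.g (nat_lit 2625) (.e (nat_lit 1781) (nat_lit 119) (.e (nat_lit 516119) (nat_lit 1) (.e (nat_lit 164403) (nat_lit 256) (.e (nat_lit 57378) (nat_lit 3) (.e (nat_lit 98367) (nat_lit 27) (.e (nat_lit 434231) (nat_lit 23) (.e (nat_lit 532513) (nat_lit 3) (.e (nat_lit 114700) (nat_lit 20) .nil)))))))) (.g (nat_lit 4) .nil .nil)))) (.nd (nat_lit 5) 
(.lf (nat_lit 73688) (.g (nat_lit 5055) (.e (nat_lit 1781) (nat_lit 119) (.e (nat_lit 516119) (nat_lit 1) (.e (nat_lit 164403) (nat_lit 256) (.e (nat_lit 57373) (nat_lit 2) (.e (nat_lit 90174) (nat_lit 14) (.e (nat_lit 180243) (nat_lit 5) (.e (nat_lit 532513) (nat_lit 3) (.e (nat_lit 114700) (nat_lit 20) .nil)))))))) (.g (nat_lit 7) .nil .nil))) 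
(.lf (nat_lit 73720) (.g (nat_lit 1714) (.e (nat_lit 1781) (nat_lit 119) (.e (nat_lit 516120) (nat_lit 1) (.e (nat_lit 164329) (nat_lit 230) (.e (nat_lit 163902) (nat_lit 12) (.e (nat_lit 426568) (nat_lit 34) (.e (nat_lit 393275) (nat_lit 23) (.e (nat_lit 426394) (nat_lit 15) .nil))))))) (.g (nat_lit 4) .nil .nil)))))) (.nd (nat_lit 3) (.nd (nat_lit 4) (.nd (nat_lit 5) 
(.lf (nat_lit 73668) (.g (nat_lit 3267) (.e (nat_lit 1781) (nat_lit 119) (.e (nat_lit 516119) (nat_lit 1) (.e (nat_lit 164403) (nat_lit 256) (.e (nat_lit 57371) (nat_lit 2) (.e (nat_lit 90174) (nat_lit 14) (.e (nat_lit 180243) (nat_lit 5) (.e (nat_lit 532513) (nat_lit 3) (.e (nat_lit 114702) (nat_lit 20) .nil)))))))) (.g (nat_lit 5) .nil .nil))) 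
(.lf (nat_lit 73700) (.g (nat_lit 2981) (.e (nat_lit 1781) (nat_lit 119) (.e (nat_lit 516119) (nat_lit 1) (.e (nat_lit 164403) (nat_lit 256) (.e (nat_lit 57378) (nat_lit 3) (.e (nat_lit 98366) (nat_lit 27) (.e (nat_lit 434231) (nat_lit 23) (.e (nat_lit 532513) (nat_lit 3) (.e (nat_lit 114700) (nat_lit 20) .nil)))))))) (.g (nat_lit 4) .nil .nil)))) (.nd (nat_lit 5) 
(.lf (nat_lit 73684) (.g (nat_lit 4468) (.e (nat_lit 1781) (nat_lit 119) (.e (nat_lit 516119) (nat_lit 1) (.e (nat_lit 164403) (nat_lit 256) (.e (nat_lit 57373) (nat_lit 2) (.e (nat_lit 90172) (nat_lit 14) (.e (nat_lit 180244) (nat_lit 5) (.e (nat_lit 532515) (nat_lit 3) (.e (nat_lit 114701) (nat_lit 20) .nil)))))))) (.g (nat_lit 7) .nil .nil))) 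
(.lf (nat_lit 73716) (.g (nat_lit 2325) (.e (nat_lit 1781) (nat_lit 119) (.e (nat_lit 516120) (nat_lit 1) (.e (nat_lit 164329) (nat_lit 230) (.e (nat_lit 163902) (nat_lit 12) (.e (nat_lit 426568) (nat_lit 34) (.e (nat_lit 393267) (nat_lit 23) (.e (nat_lit 426362) (nat_lit 15) .nil))))))) (.g (nat_lit 5) .nil .nil))))) (.nd (nat_lit 4) (.nd (nat_lit 5) 
(.lf (nat_lit 73676) (.g (nat_lit 2162) (.e (nat_lit 1781) (nat_lit 119) (.e (nat_lit 516119) (nat_lit 1) (.e (nat_lit 164403) (nat_lit 256) (.e (nat_lit 57373) (nat_lit 2) (.e (nat_lit 90170) (nat_lit 13) (.e (nat_lit 172065) (nat_lit 3) (.e (nat_lit 204838) (nat_lit 20) (.e (nat_lit 114700) (nat_lit 20) .nil)))))))) (.g (nat_lit 4) .nil .nil))) 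
(.lf (nat_lit 73708) (.g (nat_lit 3043) (.e (nat_lit 1781) (nat_lit 119) (.e (nat_lit 516119) (nat_lit 1) (.e (nat_lit 164403) (nat_lit 256) (.e (nat_lit 57378) (nat_lit 3) (.e (nat_lit 98377) (nat_lit 30) (.e (nat_lit 458789) (nat_lit 23) (.e (nat_lit 532515) (nat_lit 3) (.e (nat_lit 114702) (nat_lit 20) .nil)))))))) (.g (nat_lit 5) .nil .nil)))) (.nd (nat_lit 5) 
(.lf (nat_lit 73692) (.g (nat_lit 2982) (.e (nat_lit 1781) (nat_lit 119) (.e (nat_lit 516119) (nat_lit 1) (.e (nat_lit 164403) (nat_lit 256) (.e (nat_lit 57377) (nat_lit 3) (.e (nat_lit 98357) (nat_lit 26) (.e (nat_lit 426131) (nat_lit 3) (.e (nat_lit 204838) (nat_lit 20) (.e (nat_lit 114702) (nat_lit 20) .nil)))))))) (.g (nat_lit 5) .nil .nil))) 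
(.lf (nat_lit 73724) (.g (nat_lit 2524) (.e (nat_lit 1781) (nat_lit 119) (.e (nat_lit 516120) (nat_lit 1) (.e (nat_lit 164329) (nat_lit 230) (.e (nat_lit 163902) (nat_lit 12) (.e (nat_lit 426568) (nat_lit 34) (.e (nat_lit 393279) (nat_lit 23) (.e (nat_lit 426356) (nat_lit 15) .nil))))))) (.g (nat_lit 6) .nil .nil))))))) (.nd (nat_lit 2) (.nd (nat_lit 3) (.nd (nat_lit 4) (.nd (nat_lit 5) 
(.lf (nat_lit 73666) (.g (nat_lit 3032) (.e (nat_lit 1781) (nat_lit 119) (.e (nat_lit 516119) (nat_lit 1) (.e (nat_lit 164403) (nat_lit 256) (.e (nat_lit 57371) (nat_lit 2) (.e (nat_lit 90172) (nat_lit 14) (.e (nat_lit 180244) (nat_lit 5) (.e (nat_lit 532513) (nat_lit 3) (.e (nat_lit 114704) (nat_lit 20) .nil)))))))) (.g (nat_lit 5) .nil .nil))) 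
(.lf (nat_lit 73698) (.g (nat_lit 2229) (.e (nat_lit 1781) (nat_lit 119) (.e (nat_lit 516119) (nat_lit 1) (.e (nat_lit 164403) (nat_lit 256) (.e (nat_lit 57378) (nat_lit 3) (.e (nat_lit 98358) (nat_lit 26) (.e (nat_lit 426131) (nat_lit 3) (.e (nat_lit 204837) (nat_lit 20) (.e (nat_lit 114701) (nat_lit 20) .nil)))))))) (.g (nat_lit 4) .nil .nil)))) (.nd (nat_lit 5) 
(.lf (nat_lit 73682) (.g (nat_lit 4016) (.e (nat_lit 1781) (nat_lit 119) (.e (nat_lit 516119) (nat_lit 1) (.e (nat_lit 164403) (nat_lit 256) (.e (nat_lit 57373) (nat_lit 2) (.e (nat_lit 90172) (nat_lit 14) (.e (nat_lit 180244) (nat_lit 5) (.e (nat_lit 532513) (nat_lit 3) (.e (nat_lit 114706) (nat_lit 20) .nil)))))))) (.g (nat_lit 6) .nil .nil))) 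
(.lf (nat_lit 73714) (.g (nat_lit 1826) (.e (nat_lit 1781) (nat_lit 119) (.e (nat_lit 516120) (nat_lit 1) (.e (nat_lit 164329) (nat_lit 230) (.e (nat_lit 163902) (nat_lit 12) (.e (nat_lit 426568) (nat_lit 34) (.e (nat_lit 393267) (nat_lit 23) (.e (nat_lit 426357) (nat_lit 15) .nil))))))) (.g (nat_lit 4) .nil .nil))))) (.nd (nat_lit 4) (.nd (nat_lit 5) 
(.lf (nat_lit 73674) (.g (nat_lit 2485) (.e (nat_lit 1781) (nat_lit 119) (.e (nat_lit 516119) (nat_lit 1) (.e (nat_lit 164403) (nat_lit 256) (.e (nat_lit 57371) (nat_lit 2) (.e (nat_lit 90174) (nat_lit 14) (.e (nat_lit 180243) (nat_lit 5) (.e (nat_lit 532515) (nat_lit 3) (.e (nat_lit 114706) (nat_lit 20) .nil)))))))) (.g (nat_lit 4) .nil .nil))) 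
(.lf (nat_lit 73706) (.g (nat_lit 2425) (.e (nat_lit 1781) (nat_lit 119) (.e (nat_lit 516119) (nat_lit 1) (.e (nat_lit 164403) (nat_lit 256) (.e (nat_lit 57378) (nat_lit 3) (.e (nat_lit 98367) (nat_lit 27) (.e (nat_lit 434231) (nat_lit 23) (.e (nat_lit 532514) (nat_lit 3) (.e (nat_lit 114702) (nat_lit 20) .nil)))))))) (.g (nat_lit 4) .nil .nil)))) (.nd (nat_lit 5) 
(.lf (nat_lit 73690) (.g (nat_lit 4402) (.e (nat_lit 1781) (nat_lit 119) (.e (nat_lit 516119) (nat_lit 1) (.e (nat_lit 164403) (nat_lit 256) (.e (nat_lit 57373) (nat_lit 2) (.e (nat_lit 90174) (nat_lit 14) (.e (nat_lit 180243) (nat_lit 5) (.e (nat_lit 532515) (nat_lit 3) (.e (nat_lit 114701) (nat_lit 20) .nil)))))))) (.g (nat_lit 7) .nil .nil))) 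
(.lf (nat_lit 73722) (.g (nat_lit 2101) (.e (nat_lit 1781) (nat_lit 119) (.e (nat_lit 516120) (nat_lit 1) (.e (nat_lit 164329) (nat_lit 230) (.e (nat_lit 163902) (nat_lit 12) (.e (nat_lit 426568) (nat_lit 34) (.e (nat_lit 393279) (nat_lit 23) (.e (nat_lit 426349) (nat_lit 15) .nil))))))) (.g (nat_lit 5) .nil .nil)))))) (.nd (nat_lit 3) (.nd (nat_lit 4) (.nd (nat_lit 5) 
(.lf (nat_lit 73670) (.g (nat_lit 2366) (.e (nat_lit 1781) (nat_lit 119) (.e (nat_lit 516119) (nat_lit 1) (.e (nat_lit 164403) (nat_lit 256) (.e (nat_lit 57371) (nat_lit 2) (.e (nat_lit 90174) (nat_lit 14) (.e (nat_lit 180243) (nat_lit 5) (.e (nat_lit 532513) (nat_lit 3) (.e (nat_lit 114705) (nat_lit 20) .nil)))))))) (.g (nat_lit 4) .nil .nil))) 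
(.lf (nat_lit 73702) (.g (nat_lit 2898) (.e (nat_lit 1781) (nat_lit 119) (.e (nat_lit 516119) (nat_lit 1) (.e (nat_lit 164403) (nat_lit 256) (.e (nat_lit 57378) (nat_lit 3) (.e (nat_lit 98366) (nat_lit 27) (.e (nat_lit 434231) (nat_lit 23) (.e (nat_lit 532514) (nat_lit 3) (.e (nat_lit 114702) (nat_lit 20) .nil)))))))) (.g (nat_lit 4) .nil .nil)))) (.nd (nat_lit 5) 
(.lf (nat_lit 73686) (.g (nat_lit 2718) (.e (nat_lit 1781) (nat_lit 119) (.e (nat_lit 516119) (nat_lit 1) (.e (nat_lit 164403) (nat_lit 256) (.e (nat_lit 57373) (nat_lit 2) (.e (nat_lit 90172) (nat_lit 14) (.e (nat_lit 180244) (nat_lit 5) (.e (nat_lit 532515) (nat_lit 3) (.e (nat_lit 114706) (nat_lit 20) .nil)))))))) (.g (nat_lit 4) .nil .nil))) 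
(.lf (nat_lit 73718) (.g (nat_lit 3496) (.e (nat_lit 1781) (nat_lit 119) (.e (nat_lit 516120) (nat_lit 1) (.e (nat_lit 164329) (nat_lit 230) (.e (nat_lit 163902) (nat_lit 12) (.e (nat_lit 426568) (nat_lit 34) (.e (nat_lit 393271) (nat_lit 23) (.e (nat_lit 426354) (nat_lit 15) .nil))))))) (.g (nat_lit 7) .nil .nil))))) (.nd (nat_lit 4) (.nd (nat_lit 5) 
(.lf (nat_lit 73678) (.g (nat_lit 2339) (.e (nat_lit 1781) (nat_lit 119) (.e (nat_lit 516119) (nat_lit 1) (.e (nat_lit 164403) (nat_lit 256) (.e (nat_lit 57373) (nat_lit 2) (.e (nat_lit 90170) (nat_lit 13) (.e (nat_lit 172067) (nat_lit 3) (.e (nat_lit 204838) (nat_lit 20) (.e (nat_lit 114706) (nat_lit 20) .nil)))))))) (.g (nat_lit 4) .nil .nil))) 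
(.lf (nat_lit 73710) (.g (nat_lit 1452) (.e (nat_lit 1781) (nat_lit 119) (.e (nat_lit 516120) (nat_lit 1) (.e (nat_lit 164183) (nat_lit 154) (.e (nat_lit 57448) (nat_lit 19) .nil)))) .nil))) (.nd (nat_lit 5) 
(.lf (nat_lit 73694) (.g (nat_lit 3068) (.e (nat_lit 1781) (nat_lit 119) (.e (nat_lit 516119) (nat_lit 1) (.e (nat_lit 164403) (nat_lit 256) (.e (nat_lit 57378) (nat_lit 3) (.e (nat_lit 98355) (nat_lit 26) (.e (nat_lit 426131) (nat_lit 3) (.e (nat_lit 204838) (nat_lit 20) (.e (nat_lit 114702) (nat_lit 20) .nil)))))))) (.g (nat_lit 4) .nil .nil))) 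
(.lf (nat_lit 73726) (.g (nat_lit 2310) (.e (nat_lit 1781) (nat_lit 119) (.e (nat_lit 516120) (nat_lit 1) (.e (nat_lit 164329) (nat_lit 230) (.e (nat_lit 163902) (nat_lit 12) (.e (nat_lit 426568) (nat_lit 34) (.e (nat_lit 393281) (nat_lit 23) (.e (nat_lit 426383) (nat_lit 15) .nil))))))) (.g (nat_lit 5) .nil .nil)))))))) 
(.nd (nat_lit 1) (.nd (nat_lit 2) (.nd (nat_lit 3) (.nd (nat_lit 4) (.nd (nat_lit 5) 
(.lf (nat_lit 73665) (.g (nat_lit 3567) (.e (nat_lit 1781) (nat_lit 119) (.e (nat_lit 516119) (nat_lit 1) (.e (nat_lit 164403) (nat_lit 256) (.e (nat_lit 57371) (nat_lit 2) (.e (nat_lit 90172) (nat_lit 14) (.e (nat_lit 180243) (nat_lit 5) (.e (nat_lit 532513) (nat_lit 3) (.e (nat_lit 114706) (nat_lit 20) .nil)))))))) (.g (nat_lit 5) .nil .nil))) 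
(.lf (nat_lit 73697) (.g (nat_lit 2339) (.e (nat_lit 1781) (nat_lit 119) (.e (nat_lit 516119) (nat_lit 1) (.e (nat_lit 164403) (nat_lit 256) (.e (nat_lit 57378) (nat_lit 3) (.e (nat_lit 98358) (nat_lit 26) (.e (nat_lit 426131) (nat_lit 3) (.e (nat_lit 204837) (nat_lit 20) (.e (nat_lit 114700) (nat_lit 20) .nil)))))))) (.g (nat_lit 5) .nil .nil)))) (.nd (nat_lit 5) 
(.lf (nat_lit 73681) (.g (nat_lit 3526) (.e (nat_lit 1781) (nat_lit 119) (.e (nat_lit 516119) (nat_lit 1) (.e (nat_lit 164403) (nat_lit 256) (.e (nat_lit 57373) (nat_lit 2) (.e (nat_lit 90172) (nat_lit 14) (.e (nat_lit 180244) (nat_lit 5) (.e (nat_lit 532513) (nat_lit 3) (.e (nat_lit 114704) (nat_lit 20) .nil)))))))) (.g (nat_lit 5) .nil .nil))) 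
(.lf (nat_lit 73713) (.g (nat_lit 2439) (.e (nat_lit 1781) (nat_lit 119) (.e (nat_lit 516120) (nat_lit 1) (.e (nat_lit 164329) (nat_lit 230) (.e (nat_lit 163902) (nat_lit 12) (.e (nat_lit 426568) (nat_lit 34) (.e (nat_lit 393267) (nat_lit 23) (.e (nat_lit 426355) (nat_lit 15) .nil))))))) (.g (nat_lit 5) .nil .nil))))) (.nd (nat_lit 4) (.nd (nat_lit 5) 
(.lf (nat_lit 73673) (.g (nat_lit 4029) (.e (nat_lit 1781) (nat_lit 119) (.e (nat_lit 516119) (nat_lit 1) (.e (nat_lit 164403) (nat_lit 256) (.e (nat_lit 57371) (nat_lit 2) (.e (nat_lit 90174) (nat_lit 14) (.e (nat_lit 180243) (nat_lit 5) (.e (nat_lit 532515) (nat_lit 3) (.e (nat_lit 114701) (nat_lit 20) .nil)))))))) (.g (nat_lit 6) .nil .nil))) 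
(.lf (nat_lit 73705) (.g (nat_lit 2416) (.e (nat_lit 1781) (nat_lit 119) (.e (nat_lit 516119) (nat_lit 1) (.e (nat_lit 164403) (nat_lit 256) (.e (nat_lit 57378) (nat_lit 3) (.e (nat_lit 98367) (nat_lit 27) (.e (nat_lit 434231) (nat_lit 23) (.e (nat_lit 532514) (nat_lit 3) (.e (nat_lit 114700) (nat_lit 20) .nil)))))))) (.g (nat_lit 4) .nil .nil)))) (.nd (nat_lit 5) 
(.lf (nat_lit 73689) (.g (nat_lit 3890) (.e (nat_lit 1781) (nat_lit 119) (.e (nat_lit 516119) (nat_lit 1) (.e (nat_lit 164403) (nat_lit 256) (.e (nat_lit 57373) (nat_lit 2) (.e (nat_lit 90174) (nat_lit 14) (.e (nat_lit 180243) (nat_lit 5) (.e (nat_lit 532513) (nat_lit 3) (.e (nat_lit 114704) (nat_lit 20) .nil)))))))) (.g (nat_lit 6) .nil .nil))) 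
(.lf (nat_lit 73721) (.g (nat_lit 1823) (.e (nat_lit 1781) (nat_lit 119) (.e (nat_lit 516120) (nat_lit 1) (.e (nat_lit 164329) (nat_lit 230) (.e (nat_lit 163902) (nat_lit 12) (.e (nat_lit 426568) (nat_lit 34) (.e (nat_lit 393275) (nat_lit 23) (.e (nat_lit 426410) (nat_lit 15) .nil))))))) (.g (nat_lit 4) .nil .nil)))))) (.nd (nat_lit 3) (.nd (nat_lit 4) (.nd (nat_lit 5) 
(.lf (nat_lit 73669) (.g (nat_lit 2504) (.e (nat_lit 1781) (nat_lit 119) (.e (nat_lit 516119) (nat_lit 1) (.e (nat_lit 164403) (nat_lit 256) (.e (nat_lit 57371) (nat_lit 2) (.e (nat_lit 90174) (nat_lit 14) (.e (nat_lit 180243) (nat_lit 5) (.e (nat_lit 532513) (nat_lit 3) (.e (nat_lit 114703) (nat_lit 20) .nil)))))))) (.g (nat_lit 4) .nil .nil))) 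
(.lf (nat_lit 73701) (.g (nat_lit 2889) (.e (nat_lit 1781) (nat_lit 119) (.e (nat_lit 516119) (nat_lit 1) (.e (nat_lit 164403) (nat_lit 256) (.e (nat_lit 57378) (nat_lit 3) (.e (nat_lit 98366) (nat_lit 27) (.e (nat_lit 434231) (nat_lit 23) (.e (nat_lit 532514) (nat_lit 3) (.e (nat_lit 114700) (nat_lit 20) .nil)))))))) (.g (nat_lit 4) .nil .nil)))) (.nd (nat_lit 5) 
(.lf (nat_lit 73685) (.g (nat_lit 4428) (.e (nat_lit 1781) (nat_lit 119) (.e (nat_lit 516119) (nat_lit 1) (.e (nat_lit 164403) (nat_lit 256) (.e (nat_lit 57373) (nat_lit 2) (.e (nat_lit 90172) (nat_lit 14) (.e (nat_lit 180244) (nat_lit 5) (.e (nat_lit 532515) (nat_lit 3) (.e (nat_lit 114702) (nat_lit 20) .nil)))))))) (.g (nat_lit 7) .nil .nil))) 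
(.lf (nat_lit 73717) (.g (nat_lit 2416) (.e (nat_lit 1781) (nat_lit 119) (.e (nat_lit 516120) (nat_lit 1) (.e (nat_lit 164329) (nat_lit 230) (.e (nat_lit 163902) (nat_lit 12) (.e (nat_lit 426568) (nat_lit 34) (.e (nat_lit 393267) (nat_lit 23) (.e (nat_lit 426363) (nat_lit 15) .nil))))))) (.g (nat_lit 5) .nil .nil))))) (.nd (nat_lit 4) (.nd (nat_lit 5) 
(.lf (nat_lit 73677) (.g (nat_lit 3124) (.e (nat_lit 1781) (nat_lit 119) (.e (nat_lit 516119) (nat_lit 1) (.e (nat_lit 164403) (nat_lit 256) (.e (nat_lit 57373) (nat_lit 2) (.e (nat_lit 90170) (nat_lit 13) (.e (nat_lit 172067) (nat_lit 3) (.e (nat_lit 204838) (nat_lit 20) (.e (nat_lit 114701) (nat_lit 20) .nil)))))))) (.g (nat_lit 5) .nil .nil))) 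
(.lf (nat_lit 73709) (.g (nat_lit 1442) (.e (nat_lit 1781) (nat_lit 119) (.e (nat_lit 516120) (nat_lit 1) (.e (nat_lit 164183) (nat_lit 154) (.e (nat_lit 57447) (nat_lit 19) .nil)))) .nil))) (.nd (nat_lit 5) 
(.lf (nat_lit 73693) (.g (nat_lit 1330) (.e (nat_lit 1781) (nat_lit 119) (.e (nat_lit 516119) (nat_lit 1) (.e (nat_lit 164403) (nat_lit 256) (.e (nat_lit 57378) (nat_lit 3) .nil)))) .nil)) 
(.lf (nat_lit 73725) (.g (nat_lit 2439) (.e (nat_lit 1781) (nat_lit 119) (.e (nat_lit 516120) (nat_lit 1) (.e (nat_lit 164329) (nat_lit 230) (.e (nat_lit 163902) (nat_lit 12) (.e (nat_lit 426568) (nat_lit 34) (.e (nat_lit 393279) (nat_lit 23) (.e (nat_lit 426358) (nat_lit 15) .nil))))))) (.g (nat_lit 6) .nil .nil))))))) (.nd (nat_lit 2) (.nd (nat_lit 3) (.nd (nat_lit 4) (.nd (nat_lit 5) 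
(.lf (nat_lit 73667) (.g (nat_lit 3896) (.e (nat_lit 1781) (nat_lit 119) (.e (nat_lit 516119) (nat_lit 1) (.e (nat_lit 164403) (nat_lit 256) (.e (nat_lit 57371) (nat_lit 2) (.e (nat_lit 90172) (nat_lit 14) (.e (nat_lit 180244) (nat_lit 5) (.e (nat_lit 532515) (nat_lit 3) (.e (nat_lit 114702) (nat_lit 20) .nil)))))))) (.g (nat_lit 6) .nil .nil))) 
(.lf (nat_lit 73699) (.g (nat_lit 2245) (.e (nat_lit 1781) (nat_lit 119) (.e (nat_lit 516119) (nat_lit 1) (.e (nat_lit 164403) (nat_lit 256) (.e (nat_lit 57378) (nat_lit 3) (.e (nat_lit 98358) (nat_lit 26) (.e (nat_lit 426131) (nat_lit 3) (.e (nat_lit 204838) (nat_lit 20) (.e (nat_lit 114706) (nat_lit 20) .nil)))))))) (.g (nat_lit 4) .nil .nil)))) (.nd (nat_lit 5) 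
(.lf (nat_lit 73683) (.g (nat_lit 3467) (.e (nat_lit 1781) (nat_lit 119) (.e (nat_lit 516119) (nat_lit 1) (.e (nat_lit 164403) (nat_lit 256) (.e (nat_lit 57373) (nat_lit 2) (.e (nat_lit 90172) (nat_lit 14) (.e (nat_lit 180244) (nat_lit 5) (.e (nat_lit 532515) (nat_lit 3) (.e (nat_lit 114700) (nat_lit 20) .nil)))))))) (.g (nat_lit 5) .nil .nil))) 
(.lf (nat_lit 73715) (.g (nat_lit 2427) (.e (nat_lit 1781) (nat_lit 119) (.e (nat_lit 516120) (nat_lit 1) (.e (nat_lit 164329) (nat_lit 230) (.e (nat_lit 163902) (nat_lit 12) (.e (nat_lit 426568) (nat_lit 34) (.e (nat_lit 393267) (nat_lit 23) (.e (nat_lit 426359) (nat_lit 15) .nil))))))) (.g (nat_lit 5) .nil .nil))))) (.nd (nat_lit 4) (.nd (nat_lit 5) 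
(.lf (nat_lit 73675) (.g (nat_lit 2067) (.e (nat_lit 1781) (nat_lit 119) (.e (nat_lit 516119) (nat_lit 1) (.e (nat_lit 164403) (nat_lit 256) (.e (nat_lit 57373) (nat_lit 2) (.e (nat_lit 90170) (nat_lit 13) .nil))))) .nil)) 
(.lf (nat_lit 73707) (.g (nat_lit 2943) (.e (nat_lit 1781) (nat_lit 119) (.e (nat_lit 516119) (nat_lit 1) (.e (nat_lit 164403) (nat_lit 256) (.e (nat_lit 57378) (nat_lit 3) (.e (nat_lit 98376) (nat_lit 30) (.e (nat_lit 458789) (nat_lit 23) (.e (nat_lit 532515) (nat_lit 3) (.e (nat_lit 114701) (nat_lit 20) .nil)))))))) (.g (nat_lit 5) .nil .nil)))) (.nd (nat_lit 5) 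
(.lf (nat_lit 73691) (.g (nat_lit 2694) (.e (nat_lit 1781) (nat_lit 119) (.e (nat_lit 516119) (nat_lit 1) (.e (nat_lit 164403) (nat_lit 256) (.e (nat_lit 57377) (nat_lit 3) (.e (nat_lit 98357) (nat_lit 26) .nil))))) .nil)) 
(.lf (nat_lit 73723) (.g (nat_lit 1569) (.e (nat_lit 1781) (nat_lit 119) (.e (nat_lit 516120) (nat_lit 1) (.e (nat_lit 164329) (nat_lit 230) (.e (nat_lit 163902) (nat_lit 12) (.e (nat_lit 426568) (nat_lit 34) (.e (nat_lit 393279) (nat_lit 23) (.e (nat_lit 426353) (nat_lit 15) .nil))))))) (.g (nat_lit 4) .nil .nil)))))) (.nd (nat_lit 3) (.nd (nat_lit 4) (.nd (nat_lit 5) 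
(.lf (nat_lit 73671) (.g (nat_lit 4039) (.e (nat_lit 1781) (nat_lit 119) (.e (nat_lit 516119) (nat_lit 1) (.e (nat_lit 164403) (nat_lit 256) (.e (nat_lit 57371) (nat_lit 2) (.e (nat_lit 90174) (nat_lit 14) (.e (nat_lit 180243) (nat_lit 5) (.e (nat_lit 532513) (nat_lit 3) (.e (nat_lit 114706) (nat_lit 20) .nil)))))))) (.g (nat_lit 6) .nil .nil))) 
(.lf (nat_lit 73703) (.g (nat_lit 2792) (.e (nat_lit 1781) (nat_lit 119) (.e (nat_lit 516119) (nat_lit 1) (.e (nat_lit 164403) (nat_lit 256) (.e (nat_lit 57378) (nat_lit 3) (.e (nat_lit 98366) (nat_lit 27) (.e (nat_lit 434231) (nat_lit 23) (.e (nat_lit 532514) (nat_lit 3) (.e (nat_lit 114706) (nat_lit 20) .nil)))))))) (.g (nat_lit 4) .nil .nil)))) (.nd (nat_lit 5) 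
(.lf (nat_lit 73687) (.g (nat_lit 3192) (.e (nat_lit 1781) (nat_lit 119) (.e (nat_lit 516119) (nat_lit 1) (.e (nat_lit 164403) (nat_lit 256) (.e (nat_lit 57373) (nat_lit 2) (.e (nat_lit 90174) (nat_lit 14) (.e (nat_lit 180243) (nat_lit 5) (.e (nat_lit 532513) (nat_lit 3) (.e (nat_lit 114699) (nat_lit 20) .nil)))))))) (.g (nat_lit 5) .nil .nil))) 
(.lf (nat_lit 73719) (.g (nat_lit 1835) (.e (nat_lit 1781) (nat_lit 119) (.e (nat_lit 516120) (nat_lit 1) (.e (nat_lit 164329) (nat_lit 230) (.e (nat_lit 163902) (nat_lit 12) (.e (nat_lit 426568) (nat_lit 34) (.e (nat_lit 393275) (nat_lit 23) (.e (nat_lit 426380) (nat_lit 15) .nil))))))) (.g (nat_lit 4) .nil .nil))))) (.nd (nat_lit 4) (.nd (nat_lit 5) 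
(.lf (nat_lit 73679) (.g (nat_lit 3860) (.e (nat_lit 1781) (nat_lit 119) (.e (nat_lit 516119) (nat_lit 1) (.e (nat_lit 164403) (nat_lit 256) (.e (nat_lit 57373) (nat_lit 2) (.e (nat_lit 90172) (nat_lit 14) (.e (nat_lit 180243) (nat_lit 5) (.e (nat_lit 532513) (nat_lit 3) (.e (nat_lit 114700) (nat_lit 20) .nil)))))))) (.g (nat_lit 5) .nil .nil))) 
(.lf (nat_lit 73711) (.g (nat_lit 3453) (.e (nat_lit 1781) (nat_lit 119) (.e (nat_lit 516120) (nat_lit 1) (.e (nat_lit 164329) (nat_lit 230) (.e (nat_lit 163902) (nat_lit 12) (.e (nat_lit 426479) (nat_lit 27) (.e (nat_lit 336430) (nat_lit 29) (.e (nat_lit 442379) (nat_lit 0) .nil))))))) (.g (nat_lit 0) .nil .nil)))) (.nd (nat_lit 5) 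
(.lf (nat_lit 73695) (.g (nat_lit 2598) (.e (nat_lit 1781) (nat_lit 119) (.e (nat_lit 516119) (nat_lit 1) (.e (nat_lit 164403) (nat_lit 256) (.e (nat_lit 57378) (nat_lit 3) (.e (nat_lit 98356) (nat_lit 26) (.e (nat_lit 426131) (nat_lit 3) (.e (nat_lit 204838) (nat_lit 20) (.e (nat_lit 114701) (nat_lit 20) .nil)))))))) (.g (nat_lit 4) .nil .nil))) 
(.lf (nat_lit 73727) (.g (nat_lit 2910) (.e (nat_lit 1781) (nat_lit 119) (.e (nat_lit 516120) (nat_lit 1) (.e (nat_lit 164329) (nat_lit 230) (.e (nat_lit 163902) (nat_lit 12) (.e (nat_lit 426568) (nat_lit 34) (.e (nat_lit 393281) (nat_lit 23) (.e (nat_lit 426410) (nat_lit 15) .nil))))))) (.g (nat_lit 6) .nil .nil)))))))))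

noncomputable def tv1000 : DT := (.nd (nat_lit 0) (.nd (nat_lit 1) (.nd (nat_lit 2) (.nd (nat_lit 3) (.nd (nat_lit 4) (.nd (nat_lit 5) (.nd (nat_lit 6) 
(.lf (nat_lit 73728) (.g (nat_lit 2786) (.e (nat_lit 1781) (nat_lit 119) (.e (nat_lit 516120) (nat_lit 1) (.e (nat_lit 164329) (nat_lit 230) (.e (nat_lit 163902) (nat_lit 12) (.e (nat_lit 426568) (nat_lit 34) (.e (nat_lit 393281) (nat_lit 23) (.e (nat_lit 426413) (nat_lit 15) .nil))))))) (.g (nat_lit 6) .nil .nil))) 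
(.lf (nat_lit 73792) (.g (nat_lit 4146) (.e (nat_lit 1781) (nat_lit 119) (.e (nat_lit 516151) (nat_lit 9) (.e (nat_lit 426211) (nat_lit 9) (.e (nat_lit 426125) (nat_lit 2) (.e (nat_lit 204544) (nat_lit 21) (.e (nat_lit 164281) (nat_lit 222) (.e (nat_lit 57884) (nat_lit 270) (.e (nat_lit 1031) (nat_lit 81) .nil)))))))) (.g (nat_lit 7) .nil .nil)))) (.nd (nat_lit 6) 
(.lf (nat_lit 73760) (.g (nat_lit 2739) (.e (nat_lit 1781) (nat_lit 119) (.e (nat_lit 516130) (nat_lit 3) (.e (nat_lit 221194) (nat_lit 11) (.e (nat_lit 336012) (nat_lit 2) (.e (nat_lit 90176) (nat_lit 15) (.e (nat_lit 188420) (nat_lit 0) .nil)))))) (.g (nat_lit 6) .nil .nil))) 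
(.lf (nat_lit 73824) (.g (nat_lit 3399) (.e (nat_lit 1781) (nat_lit 119) (.e (nat_lit 516166) (nat_lit 12) (.e (nat_lit 450587) (nat_lit 10) (.e (nat_lit 573477) (nat_lit 12) (.e (nat_lit 57574) (nat_lit 55) .nil))))) .nil)))) (.nd (nat_lit 5) (.nd (nat_lit 6) 
(.lf (nat_lit 73744) (.g (nat_lit 1482) (.e (nat_lit 1781) (nat_lit 119) (.e (nat_lit 516130) (nat_lit 3) (.e (nat_lit 221193) (nat_lit 11) (.e (nat_lit 336010) (nat_lit 2) (.e (nat_lit 90178) (nat_lit 15) (.e (nat_lit 188418) (nat_lit 0) .nil)))))) (.g (nat_lit 5) .nil .nil))) 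
(.lf (nat_lit 73808) (.g (nat_lit 3694) (.e (nat_lit 1781) (nat_lit 119) (.e (nat_lit 516151) (nat_lit 9) (.e (nat_lit 426286) (nat_lit 10) (.e (nat_lit 434245) (nat_lit 28) .nil)))) .nil))) (.nd (nat_lit 6) 
(.lf (nat_lit 73776) (.g (nat_lit 1591) (.e (nat_lit 1781) (nat_lit 119) (.e (nat_lit 516139) (nat_lit 7) (.e (nat_lit 409649) (nat_lit 18) (.e (nat_lit 303116) (nat_lit 2) .nil)))) .nil)) 
(.lf (nat_lit 73840) (.g (nat_lit 3888) (.e (nat_lit 1781) (nat_lit 119) (.e (nat_lit 516166) (nat_lit 12) (.e (nat_lit 450587) (nat_lit 10) (.e (nat_lit 573478) (nat_lit 12) (.e (nat_lit 57574) (nat_lit 55) (.e (nat_lit 778465) (nat_lit 11) (.e (nat_lit 24591) (nat_lit 0) .nil))))))) (.g (nat_lit 5) .nil .nil)))))) (.nd (nat_lit 4) (.nd (nat_lit 5) (.nd (nat_lit 6) 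
(.lf (nat_lit 73736) (.g (nat_lit 1774) (.e (nat_lit 1781) (nat_lit 119) (.e (nat_lit 516129) (nat_lit 3) (.e (nat_lit 221194) (nat_lit 11) (.e (nat_lit 336012) (nat_lit 2) (.e (nat_lit 90176) (nat_lit 15) .nil))))) .nil)) 
(.lf (nat_lit 73800) (.g (nat_lit 3708) (.e (nat_lit 1781) (nat_lit 119) (.e (nat_lit 516151) (nat_lit 9) (.e (nat_lit 426211) (nat_lit 9) (.e (nat_lit 426140) (nat_lit 3) (.e (nat_lit 204846) (nat_lit 24) (.e (nat_lit 319530) (nat_lit 16) (.e (nat_lit 286727) (nat_lit 0) .nil))))))) (.g (nat_lit 4) .nil .nil)))) (.nd (nat_lit 6) 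
(.lf (nat_lit 73768) (.g (nat_lit 3194) (.e (nat_lit 1781) (nat_lit 119) (.e (nat_lit 516131) (nat_lit 3) (.e (nat_lit 221212) (nat_lit 22) (.e (nat_lit 196668) (nat_lit 14) (.e (nat_lit 73747) (nat_lit 3) (.e (nat_lit 516115) (nat_lit 1) (.e (nat_lit 164178) (nat_lit 154) (.e (nat_lit 57348) (nat_lit 0) .nil)))))))) (.g (nat_lit 6) .nil .nil))) 
(.lf (nat_lit 73832) (.g (nat_lit 5185) (.e (nat_lit 1781) (nat_lit 119) (.e (nat_lit 516166) (nat_lit 12) (.e (nat_lit 450587) (nat_lit 10) (.e (nat_lit 573477) (nat_lit 12) (.e (nat_lit 57574) (nat_lit 55) (.e (nat_lit 778466) (nat_lit 11) (.e (nat_lit 24589) (nat_lit 0) .nil))))))) (.g (nat_lit 6) .nil .nil))))) (.nd (nat_lit 5) (.nd (nat_lit 6) 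
(.lf (nat_lit 73752) (.g (nat_lit 1476) (.e (nat_lit 1781) (nat_lit 119) (.e (nat_lit 516130) (nat_lit 3) (.e (nat_lit 221193) (nat_lit 11) (.e (nat_lit 336027) (nat_lit 3) (.e (nat_lit 98381) (nat_lit 31) (.e (nat_lit 466947) (nat_lit 0) .nil)))))) (.g (nat_lit 5) .nil .nil))) 
(.lf (nat_lit 73816) (.g (nat_lit 3884) (.e (nat_lit 1781) (nat_lit 119) (.e (nat_lit 516166) (nat_lit 12) (.e (nat_lit 450579) (nat_lit 5) (.e (nat_lit 532523) (nat_lit 7) .nil)))) .nil))) (.nd (nat_lit 6) 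
(.lf (nat_lit 73784) (.g (nat_lit 4826) (.e (nat_lit 1781) (nat_lit 119) (.e (nat_lit 516151) (nat_lit 9) (.e (nat_lit 426211) (nat_lit 9) (.e (nat_lit 426125) (nat_lit 2) (.e (nat_lit 196615) (nat_lit 0) .nil))))) .nil)) 
(.lf (nat_lit 73848) (.g (nat_lit 5184) (.e (nat_lit 1781) (nat_lit 119) (.e (nat_lit 516166) (nat_lit 12) (.e (nat_lit 450588) (nat_lit 10) (.e (nat_lit 573457) (nat_lit 9) .nil)))) .nil)))))) (.nd (nat_lit 3) (.nd (nat_lit 4) (.nd (nat_lit 5) (.nd (nat_lit 6) 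
(.lf (nat_lit 73732) (.g (nat_lit 2765) (.e (nat_lit 1781) (nat_lit 119) (.e (nat_lit 516120) (nat_lit 1) (.e (nat_lit 164330) (nat_lit 230) (.e (nat_lit 163913) (nat_lit 12) (.e (nat_lit 433920) (nat_lit 34) .nil))))) .nil)) 
(.lf (nat_lit 73796) (.g (nat_lit 5752) (.e (nat_lit 1781) (nat_lit 119) (.e (nat_lit 516151) (nat_lit 9) (.e (nat_lit 426211) (nat_lit 9) (.e (nat_lit 426140) (nat_lit 3) (.e (nat_lit 204845) (nat_lit 24) (.e (nat_lit 319530) (nat_lit 16) (.e (nat_lit 286727) (nat_lit 0) .nil))))))) (.g (nat_lit 6) .nil .nil)))) (.nd (nat_lit 6) 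
(.lf (nat_lit 73764) (.g (nat_lit 3369) (.e (nat_lit 1781) (nat_lit 119) (.e (nat_lit 516130) (nat_lit 3) (.e (nat_lit 229120) (nat_lit 11) (.e (nat_lit 336013) (nat_lit 2) (.e (nat_lit 90170) (nat_lit 13) (.e (nat_lit 172095) (nat_lit 9) (.e (nat_lit 426380) (nat_lit 15) .nil))))))) (.g (nat_lit 6) .nil .nil))) 
(.lf (nat_lit 73828) (.g (nat_lit 4417) (.e (nat_lit 1781) (nat_lit 119) (.e (nat_lit 516166) (nat_lit 12) (.e (nat_lit 450587) (nat_lit 10) (.e (nat_lit 573477) (nat_lit 12) (.e (nat_lit 57574) (nat_lit 55) (.e (nat_lit 778465) (nat_lit 11) (.e (nat_lit 24592) (nat_lit 0) .nil))))))) (.g (nat_lit 5) .nil .nil))))) (.nd (nat_lit 5) (.nd (nat_lit 6) 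
(.lf (nat_lit 73748) (.g (nat_lit 1185) (.e (nat_lit 1781) (nat_lit 119) (.e (nat_lit 516130) (nat_lit 3) (.e (nat_lit 221193) (nat_lit 11) (.e (nat_lit 336025) (nat_lit 3) (.e (nat_lit 98380) (nat_lit 31) (.e (nat_lit 466947) (nat_lit 0) .nil)))))) (.g (nat_lit 4) .nil .nil))) 
(.lf (nat_lit 73812) (.g (nat_lit 1617) (.e (nat_lit 1781) (nat_lit 119) (.e (nat_lit 516163) (nat_lit 11) (.e (nat_lit 442424) (nat_lit 22) (.e (nat_lit 196630) (nat_lit 9) .nil)))) .nil))) (.nd (nat_lit 6) 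
(.lf (nat_lit 73780) (.g (nat_lit 1172) (.e (nat_lit 1781) (nat_lit 119) (.e (nat_lit 516151) (nat_lit 9) (.e (nat_lit 426211) (nat_lit 9) .nil))) .nil)) 
(.lf (nat_lit 73844) (.g (nat_lit 4868) (.e (nat_lit 1781) (nat_lit 119) (.e (nat_lit 516166) (nat_lit 12) (.e (nat_lit 450587) (nat_lit 10) (.e (nat_lit 573478) (nat_lit 12) (.e (nat_lit 57574) (nat_lit 55) (.e (nat_lit 778466) (nat_lit 11) (.e (nat_lit 24589) (nat_lit 0) .nil))))))) (.g (nat_lit 6) .nil .nil)))))) (.nd (nat_lit 4) (.nd (nat_lit 5) (.nd (nat_lit 6) 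
(.lf (nat_lit 73740) (.g (nat_lit 2134) (.e (nat_lit 1781) (nat_lit 119) (.e (nat_lit 516129) (nat_lit 3) (.e (nat_lit 221210) (nat_lit 22) (.e (nat_lit 196670) (nat_lit 14) (.e (nat_lit 73746) (nat_lit 3) .nil))))) .nil)) 
(.lf (nat_lit 73804) (.g (nat_lit 2886) (.e (nat_lit 1781) (nat_lit 119) (.e (nat_lit 516151) (nat_lit 9) (.e (nat_lit 426285) (nat_lit 10) (.e (nat_lit 434231) (nat_lit 23) (.e (nat_lit 532523) (nat_lit 7) .nil))))) .nil))) (.nd (nat_lit 6) 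
(.lf (nat_lit 73772) (.g (nat_lit 975) (.e (nat_lit 1781) (nat_lit 119) (.e (nat_lit 516131) (nat_lit 3) (.e (nat_lit 221212) (nat_lit 22) (.e (nat_lit 196669) (nat_lit 14) .nil)))) .nil)) 
(.lf (nat_lit 73836) (.g (nat_lit 4083) (.e (nat_lit 1781) (nat_lit 119) (.e (nat_lit 516166) (nat_lit 12) (.e (nat_lit 450587) (nat_lit 10) (.e (nat_lit 573478) (nat_lit 12) (.e (nat_lit 57574) (nat_lit 55) (.e (nat_lit 778464) (nat_lit 11) (.e (nat_lit 24588) (nat_lit 0) .nil))))))) (.g (nat_lit 5) .nil .nil))))) (.nd (nat_lit 5) (.nd (nat_lit 6) 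
(.lf (nat_lit 73756) (.g (nat_lit 1209) (.e (nat_lit 1781) (nat_lit 119) (.e (nat_lit 516130) (nat_lit 3) (.e (nat_lit 221194) (nat_lit 11) (.e (nat_lit 336010) (nat_lit 2) (.e (nat_lit 90178) (nat_lit 15) .nil))))) .nil)) 
(.lf (nat_lit 73820) (.g (nat_lit 3946) (.e (nat_lit 1781) (nat_lit 119) (.e (nat_lit 516166) (nat_lit 12) (.e (nat_lit 450587) (nat_lit 10) (.e (nat_lit 573454) (nat_lit 9) .nil)))) .nil))) (.nd (nat_lit 6) 
(.lf (nat_lit 73788) (.g (nat_lit 4466) (.e (nat_lit 1781) (nat_lit 119) (.e (nat_lit 516151) (nat_lit 9) (.e (nat_lit 426211) (nat_lit 9) (.e (nat_lit 426125) (nat_lit 2) (.e (nat_lit 196630) (nat_lit 9) (.e (nat_lit 1396) (nat_lit 106) (.e (nat_lit 319530) (nat_lit 16) (.e (nat_lit 286727) (nat_lit 0) .nil)))))))) (.g (nat_lit 4) .nil .nil))) 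
(.lf (nat_lit 73852) (.g (nat_lit 6535) (.e (nat_lit 1781) (nat_lit 119) (.e (nat_lit 516166) (nat_lit 12) (.e (nat_lit 450588) (nat_lit 10) (.e (nat_lit 573474) (nat_lit 12) .nil)))) .nil))))))) (.nd (nat_lit 2) (.nd (nat_lit 3) (.nd (nat_lit 4) (.nd (nat_lit 5) (.nd (nat_lit 6) 
(.lf (nat_lit 73730) (.g (nat_lit 2521) (.e (nat_lit 1781) (nat_lit 119) (.e (nat_lit 516120) (nat_lit 1) (.e (nat_lit 164330) (nat_lit 230) (.e (nat_lit 163905) (nat_lit 12) (.e (nat_lit 426566) (nat_lit 34) (.e (nat_lit 393273) (nat_lit 23) (.e (nat_lit 426364) (nat_lit 15) .nil))))))) (.g (nat_lit 4) .nil .nil))) 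
(.lf (nat_lit 73794) (.g (nat_lit 4552) (.e (nat_lit 1781) (nat_lit 119) (.e (nat_lit 516151) (nat_lit 9) (.e (nat_lit 426211) (nat_lit 9) (.e (nat_lit 426140) (nat_lit 3) (.e (nat_lit 204845) (nat_lit 24) (.e (nat_lit 319529) (nat_lit 16) (.e (nat_lit 286727) (nat_lit 0) .nil))))))) (.g (nat_lit 5) .nil .nil)))) (.nd (nat_lit 6) 
(.lf (nat_lit 73762) (.g (nat_lit 1794) (.e (nat_lit 1781) (nat_lit 119) (.e (nat_lit 516130) (nat_lit 3) (.e (nat_lit 221194) (nat_lit 11) (.e (nat_lit 336026) (nat_lit 3) (.e (nat_lit 98380) (nat_lit 31) (.e (nat_lit 466947) (nat_lit 0) .nil)))))) (.g (nat_lit 4) .nil .nil))) 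
(.lf (nat_lit 73826) (.g (nat_lit 3569) (.e (nat_lit 1781) (nat_lit 119) (.e (nat_lit 516166) (nat_lit 12) (.e (nat_lit 450587) (nat_lit 10) (.e (nat_lit 573477) (nat_lit 12) (.e (nat_lit 57574) (nat_lit 55) (.e (nat_lit 778465) (nat_lit 11) (.e (nat_lit 24581) (nat_lit 0) .nil))))))) (.g (nat_lit 4) .nil .nil))))) (.nd (nat_lit 5) (.nd (nat_lit 6) 
(.lf (nat_lit 73746) (.g (nat_lit 971) (.e (nat_lit 1781) (nat_lit 119) (.e (nat_lit 516130) (nat_lit 3) (.e (nat_lit 221193) (nat_lit 11) (.e (nat_lit 336012) (nat_lit 2) (.e (nat_lit 90178) (nat_lit 15) .nil))))) .nil)) 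
(.lf (nat_lit 73810) (.g (nat_lit 3640) (.e (nat_lit 1781) (nat_lit 119) (.e (nat_lit 516151) (nat_lit 9) (.e (nat_lit 426286) (nat_lit 10) (.e (nat_lit 434248) (nat_lit 28) .nil)))) .nil))) (.nd (nat_lit 6) 
(.lf (nat_lit 73778) (.g (nat_lit 1939) (.e (nat_lit 1781) (nat_lit 119) (.e (nat_lit 516151) (nat_lit 9) (.e (nat_lit 426170) (nat_lit 7) (.e (nat_lit 409631) (nat_lit 12) .nil)))) .nil)) 
(.lf (nat_lit 73842) (.g (nat_lit 3241) (.e (nat_lit 1781) (nat_lit 119) (.e (nat_lit 516166) (nat_lit 12) (.e (nat_lit 450587) (nat_lit 10) (.e (nat_lit 573478) (nat_lit 12) (.e (nat_lit 57574) (nat_lit 55) (.e (nat_lit 778466) (nat_lit 11) (.e (nat_lit 24581) (nat_lit 0) .nil))))))) (.g (nat_lit 4) .nil .nil)))))) (.nd (nat_lit 4) (.nd (nat_lit 5) (.nd (nat_lit 6) 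
(.lf (nat_lit 73738) (.g (nat_lit 2054) (.e (nat_lit 1781) (nat_lit 119) (.e (nat_lit 516129) (nat_lit 3) (.e (nat_lit 221210) (nat_lit 22) (.e (nat_lit 196668) (nat_lit 14) (.e (nat_lit 73747) (nat_lit 3) (.e (nat_lit 516119) (nat_lit 1) (.e (nat_lit 164176) (nat_lit 154) (.e (nat_lit 57347) (nat_lit 0) .nil)))))))) (.g (nat_lit 4) .nil .nil))) 
(.lf (nat_lit 73802) (.g (nat_lit 939) (.e (nat_lit 1781) (nat_lit 119) (.e (nat_lit 516151) (nat_lit 9) (.e (nat_lit 426285) (nat_lit 10) .nil))) .nil))) (.nd (nat_lit 6) 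
(.lf (nat_lit 73770) (.g (nat_lit 3150) (.e (nat_lit 1781) (nat_lit 119) (.e (nat_lit 516131) (nat_lit 3) (.e (nat_lit 221212) (nat_lit 22) (.e (nat_lit 196668) (nat_lit 14) (.e (nat_lit 73747) (nat_lit 3) (.e (nat_lit 516119) (nat_lit 1) (.e (nat_lit 164176) (nat_lit 154) (.e (nat_lit 57348) (nat_lit 0) .nil)))))))) (.g (nat_lit 6) .nil .nil))) 
(.lf (nat_lit 73834) (.g (nat_lit 3690) (.e (nat_lit 1781) (nat_lit 119) (.e (nat_lit 516166) (nat_lit 12) (.e (nat_lit 450587) (nat_lit 10) (.e (nat_lit 573477) (nat_lit 12) (.e (nat_lit 57575) (nat_lit 55) (.e (nat_lit 778466) (nat_lit 11) (.e (nat_lit 24589) (nat_lit 0) .nil))))))) (.g (nat_lit 4) .nil .nil))))) (.nd (nat_lit 5) (.nd (nat_lit 6) 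
(.lf (nat_lit 73754) (.g (nat_lit 2501) (.e (nat_lit 1781) (nat_lit 119) (.e (nat_lit 516130) (nat_lit 3) (.e (nat_lit 221194) (nat_lit 11) (.e (nat_lit 336004) (nat_lit 2) (.e (nat_lit 90176) (nat_lit 15) (.e (nat_lit 188420) (nat_lit 0) .nil)))))) (.g (nat_lit 6) .nil .nil))) 
(.lf (nat_lit 73818) (.g (nat_lit 4481) (.e (nat_lit 1781) (nat_lit 119) (.e (nat_lit 516166) (nat_lit 12) (.e (nat_lit 450580) (nat_lit 5) (.e (nat_lit 532523) (nat_lit 7) (.e (nat_lit 319534) (nat_lit 16) .nil))))) .nil))) (.nd (nat_lit 6) 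
(.lf (nat_lit 73786) (.g (nat_lit 4331) (.e (nat_lit 1781) (nat_lit 119) (.e (nat_lit 516151) (nat_lit 9) (.e (nat_lit 426211) (nat_lit 9) (.e (nat_lit 426125) (nat_lit 2) (.e (nat_lit 196630) (nat_lit 9) (.e (nat_lit 1393) (nat_lit 106) (.e (nat_lit 319531) (nat_lit 16) (.e (nat_lit 286722) (nat_lit 0) .nil)))))))) (.g (nat_lit 4) .nil .nil))) 
(.lf (nat_lit 73850) (.g (nat_lit 4855) (.e (nat_lit 1781) (nat_lit 119) (.e (nat_lit 516166) (nat_lit 12) (.e (nat_lit 450588) (nat_lit 10) (.e (nat_lit 573471) (nat_lit 11) .nil)))) .nil)))))) (.nd (nat_lit 3) (.nd (nat_lit 4) (.nd (nat_lit 5) (.nd (nat_lit 6) 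
(.lf (nat_lit 73734) (.g (nat_lit 1002) (.e (nat_lit 1781) (nat_lit 119) (.e (nat_lit 516129) (nat_lit 3) (.e (nat_lit 221193) (nat_lit 11) (.e (nat_lit 336012) (nat_lit 2) .nil)))) .nil)) 
(.lf (nat_lit 73798) (.g (nat_lit 3907) (.e (nat_lit 1781) (nat_lit 119) (.e (nat_lit 516151) (nat_lit 9) (.e (nat_lit 426211) (nat_lit 9) (.e (nat_lit 426140) (nat_lit 3) (.e (nat_lit 204845) (nat_lit 24) (.e (nat_lit 319533) (nat_lit 16) (.e (nat_lit 286725) (nat_lit 0) .nil))))))) (.g (nat_lit 5) .nil .nil)))) (.nd (nat_lit 6) 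
(.lf (nat_lit 73766) (.g (nat_lit 652) (.e (nat_lit 1781) (nat_lit 119) (.e (nat_lit 516130) (nat_lit 3) (.e (nat_lit 221212) (nat_lit 22) (.e (nat_lit 196669) (nat_lit 14) .nil)))) .nil)) 
(.lf (nat_lit 73830) (.g (nat_lit 4001) (.e (nat_lit 1781) (nat_lit 119) (.e (nat_lit 516166) (nat_lit 12) (.e (nat_lit 450587) (nat_lit 10) (.e (nat_lit 573477) (nat_lit 12) (.e (nat_lit 57574) (nat_lit 55) (.e (nat_lit 778466) (nat_lit 11) (.e (nat_lit 24577) (nat_lit 0) .nil))))))) (.g (nat_lit 5) .nil .nil))))) (.nd (nat_lit 5) (.nd (nat_lit 6) 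
(.lf (nat_lit 73750) (.g (nat_lit 1040) (.e (nat_lit 1781) (nat_lit 119) (.e (nat_lit 516130) (nat_lit 3) (.e (nat_lit 221193) (nat_lit 11) (.e (nat_lit 336026) (nat_lit 3) (.e (nat_lit 98381) (nat_lit 31) (.e (nat_lit 466947) (nat_lit 0) .nil)))))) (.g (nat_lit 4) .nil .nil))) 
(.lf (nat_lit 73814) (.g (nat_lit 3700) (.e (nat_lit 1781) (nat_lit 119) (.e (nat_lit 516166) (nat_lit 12) (.e (nat_lit 450563) (nat_lit 0) (.e (nat_lit 6420) (nat_lit 341) .nil)))) .nil))) (.nd (nat_lit 6) 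
(.lf (nat_lit 73782) (.g (nat_lit 2712) (.e (nat_lit 1781) (nat_lit 119) (.e (nat_lit 516151) (nat_lit 9) (.e (nat_lit 426211) (nat_lit 9) (.e (nat_lit 426040) (nat_lit 0) .nil)))) .nil)) 
(.lf (nat_lit 73846) (.g (nat_lit 722) (.e (nat_lit 1781) (nat_lit 119) (.e (nat_lit 516166) (nat_lit 12) (.e (nat_lit 450588) (nat_lit 10) .nil))) .nil))))) (.nd (nat_lit 4) (.nd (nat_lit 5) (.nd (nat_lit 6) 
(.lf (nat_lit 73742) (.g (nat_lit 1396) (.e (nat_lit 1781) (nat_lit 119) (.e (nat_lit 516130) (nat_lit 3) (.e (nat_lit 221193) (nat_lit 11) (.e (nat_lit 336009) (nat_lit 2) (.e (nat_lit 90176) (nat_lit 15) (.e (nat_lit 188420) (nat_lit 0) .nil)))))) (.g (nat_lit 5) .nil .nil))) 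
(.lf (nat_lit 73806) (.g (nat_lit 3292) (.e (nat_lit 1781) (nat_lit 119) (.e (nat_lit 516151) (nat_lit 9) (.e (nat_lit 426285) (nat_lit 10) (.e (nat_lit 434233) (nat_lit 23) (.e (nat_lit 532523) (nat_lit 7) (.e (nat_lit 319534) (nat_lit 16) (.e (nat_lit 286728) (nat_lit 0) .nil))))))) (.g (nat_lit 5) .nil .nil)))) (.nd (nat_lit 6) 
(.lf (nat_lit 73774) (.g (nat_lit 3112) (.e (nat_lit 1781) (nat_lit 119) (.e (nat_lit 516131) (nat_lit 3) (.e (nat_lit 221212) (nat_lit 22) (.e (nat_lit 196670) (nat_lit 14) (.e (nat_lit 73746) (nat_lit 3) (.e (nat_lit 516115) (nat_lit 1) (.e (nat_lit 164178) (nat_lit 154) (.e (nat_lit 57348) (nat_lit 0) .nil)))))))) (.g (nat_lit 6) .nil .nil))) 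
(.lf (nat_lit 73838) (.g (nat_lit 4904) (.e (nat_lit 1781) (nat_lit 119) (.e (nat_lit 516166) (nat_lit 12) (.e (nat_lit 450587) (nat_lit 10) (.e (nat_lit 573478) (nat_lit 12) (.e (nat_lit 57574) (nat_lit 55) (.e (nat_lit 778465) (nat_lit 11) (.e (nat_lit 24588) (nat_lit 0) .nil))))))) (.g (nat_lit 6) .nil .nil))))) (.nd (nat_lit 5) (.nd (nat_lit 6) 
(.lf (nat_lit 73758) (.g (nat_lit 2544) (.e (nat_lit 1781) (nat_lit 119) (.e (nat_lit 516130) (nat_lit 3) (.e (nat_lit 221194) (nat_lit 11) (.e (nat_lit 336011) (nat_lit 2) (.e (nat_lit 90170) (nat_lit 13) .nil))))) .nil)) 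
(.lf (nat_lit 73822) (.g (nat_lit 3099) (.e (nat_lit 1781) (nat_lit 119) (.e (nat_lit 516166) (nat_lit 12) (.e (nat_lit 450587) (nat_lit 10) (.e (nat_lit 573457) (nat_lit 9) .nil)))) .nil))) (.nd (nat_lit 6) 
(.lf (nat_lit 73790) (.g (nat_lit 3575) (.e (nat_lit 1781) (nat_lit 119) (.e (nat_lit 516151) (nat_lit 9) (.e (nat_lit 426211) (nat_lit 9) (.e (nat_lit 426125) (nat_lit 2) (.e (nat_lit 196661) (nat_lit 12) (.e (nat_lit 57712) (nat_lit 176) (.e (nat_lit 1370) (nat_lit 103) (.e (nat_lit 294918) (nat_lit 0) .nil)))))))) (.g (nat_lit 4) .nil .nil))) 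
(.lf (nat_lit 73854) (.g (nat_lit 3396) (.e (nat_lit 1781) (nat_lit 119) (.e (nat_lit 516166) (nat_lit 12) (.e (nat_lit 450588) (nat_lit 10) (.e (nat_lit 573475) (nat_lit 12) (.e (nat_lit 57574) (nat_lit 55) (.e (nat_lit 778464) (nat_lit 11) (.e (nat_lit 24581) (nat_lit 0) .nil))))))) (.g (nat_lit 4) .nil .nil))))))))) 
(.nd (nat_lit 1) (.nd (nat_lit 2) (.nd (nat_lit 3) (.nd (nat_lit 4) (.nd (nat_lit 5) 
(.nd (nat_lit 6) 
(.lf (nat_lit 73729) (.g (nat_lit 1000) (.e (nat_lit 1781) (nat_lit 119) (.e (nat_lit 516120) (nat_lit 1) (.e (nat_lit 164329) (nat_lit 230) (.e (nat_lit 163942) (nat_lit 19) .nil)))) .nil)) 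
(.lf (nat_lit 73793) (.g (nat_lit 3466) (.e (nat_lit 1781) (nat_lit 119) (.e (nat_lit 516151) (nat_lit 9) (.e (nat_lit 426211) (nat_lit 9) (.e (nat_lit 426140) (nat_lit 3) (.e (nat_lit 204821) (nat_lit 17) .nil))))) .nil))) (.nd (nat_lit 6) 
(.lf (nat_lit 73761) (.g (nat_lit 2719) (.e (nat_lit 1781) (nat_lit 119) (.e (nat_lit 516130) (nat_lit 3) (.e (nat_lit 221194) (nat_lit 11) (.e (nat_lit 336012) (nat_lit 2) (.e (nat_lit 90178) (nat_lit 15) (.e (nat_lit 188418) (nat_lit 0) .nil)))))) (.g (nat_lit 6) .nil .nil))) 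
(.lf (nat_lit 73825) (.g (nat_lit 3407) (.e (nat_lit 1781) (nat_lit 119) (.e (nat_lit 516166) (nat_lit 12) (.e (nat_lit 450587) (nat_lit 10) (.e (nat_lit 573477) (nat_lit 12) (.e (nat_lit 57574) (nat_lit 55) (.e (nat_lit 778464) (nat_lit 11) (.e (nat_lit 24591) (nat_lit 0) .nil))))))) (.g (nat_lit 4) .nil .nil))))) (.nd (nat_lit 5) (.nd (nat_lit 6) 
(.lf (nat_lit 73745) (.g (nat_lit 2102) (.e (nat_lit 1781) (nat_lit 119) (.e (nat_lit 516130) (nat_lit 3) (.e (nat_lit 221193) (nat_lit 11) (.e (nat_lit 336012) (nat_lit 2) (.e (nat_lit 90176) (nat_lit 15) (.e (nat_lit 188420) (nat_lit 0) .nil)))))) (.g (nat_lit 6) .nil .nil))) 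
(.lf (nat_lit 73809) (.g (nat_lit 3666) (.e (nat_lit 1781) (nat_lit 119) (.e (nat_lit 516151) (nat_lit 9) (.e (nat_lit 426286) (nat_lit 10) (.e (nat_lit 434247) (nat_lit 28) .nil)))) .nil))) (.nd (nat_lit 6) 
(.lf (nat_lit 73777) (.g (nat_lit 1874) (.e (nat_lit 1781) (nat_lit 119) (.e (nat_lit 516150) (nat_lit 9) (.e (nat_lit 426131) (nat_lit 3) (.e (nat_lit 204838) (nat_lit 20) .nil)))) .nil)) 
(.lf (nat_lit 73841) (.g (nat_lit 3209) (.e (nat_lit 1781) (nat_lit 119) (.e (nat_lit 516166) (nat_lit 12) (.e (nat_lit 450587) (nat_lit 10) (.e (nat_lit 573478) (nat_lit 12) (.e (nat_lit 57574) (nat_lit 55) (.e (nat_lit 778465) (nat_lit 11) (.e (nat_lit 24593) (nat_lit 0) .nil))))))) (.g (nat_lit 4) .nil .nil)))))) (.nd (nat_lit 4) (.nd (nat_lit 5) (.nd (nat_lit 6) 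
(.lf (nat_lit 73737) (.g (nat_lit 1822) (.e (nat_lit 1781) (nat_lit 119) (.e (nat_lit 516129) (nat_lit 3) (.e (nat_lit 221194) (nat_lit 11) (.e (nat_lit 336012) (nat_lit 2) (.e (nat_lit 90178) (nat_lit 15) .nil))))) .nil)) 
(.lf (nat_lit 73801) (.g (nat_lit 3555) (.e (nat_lit 1781) (nat_lit 119) (.e (nat_lit 516151) (nat_lit 9) (.e (nat_lit 426211) (nat_lit 9) (.e (nat_lit 426140) (nat_lit 3) (.e (nat_lit 204846) (nat_lit 24) (.e (nat_lit 319534) (nat_lit 16) (.e (nat_lit 286723) (nat_lit 0) .nil))))))) (.g (nat_lit 4) .nil .nil)))) (.nd (nat_lit 6) 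
(.lf (nat_lit 73769) (.g (nat_lit 2584) (.e (nat_lit 1781) (nat_lit 119) (.e (nat_lit 516131) (nat_lit 3) (.e (nat_lit 221212) (nat_lit 22) (.e (nat_lit 196668) (nat_lit 14) (.e (nat_lit 73747) (nat_lit 3) (.e (nat_lit 516119) (nat_lit 1) (.e (nat_lit 164176) (nat_lit 154) (.e (nat_lit 57347) (nat_lit 0) .nil)))))))) (.g (nat_lit 5) .nil .nil))) 
(.lf (nat_lit 73833) (.g (nat_lit 3719) (.e (nat_lit 1781) (nat_lit 119) (.e (nat_lit 516166) (nat_lit 12) (.e (nat_lit 450587) (nat_lit 10) (.e (nat_lit 573477) (nat_lit 12) (.e (nat_lit 57575) (nat_lit 55) (.e (nat_lit 778463) (nat_lit 11) (.e (nat_lit 24592) (nat_lit 0) .nil))))))) (.g (nat_lit 4) .nil .nil))))) (.nd (nat_lit 5) (.nd (nat_lit 6) 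
(.lf (nat_lit 73753) (.g (nat_lit 1187) (.e (nat_lit 1781) (nat_lit 119) (.e (nat_lit 516130) (nat_lit 3) (.e (nat_lit 221194) (nat_lit 11) (.e (nat_lit 336003) (nat_lit 2) .nil)))) .nil)) 
(.lf (nat_lit 73817) (.g (nat_lit 4132) (.e (nat_lit 1781) (nat_lit 119) (.e (nat_lit 516166) (nat_lit 12) (.e (nat_lit 450580) (nat_lit 5) (.e (nat_lit 532523) (nat_lit 7) (.e (nat_lit 319533) (nat_lit 16) .nil))))) .nil))) (.nd (nat_lit 6) 
(.lf (nat_lit 73785) (.g (nat_lit 6766) (.e (nat_lit 1781) (nat_lit 119) (.e (nat_lit 516151) (nat_lit 9) (.e (nat_lit 426211) (nat_lit 9) (.e (nat_lit 426125) (nat_lit 2) (.e (nat_lit 196630) (nat_lit 9) (.e (nat_lit 1393) (nat_lit 106) (.e (nat_lit 319530) (nat_lit 16) (.e (nat_lit 286727) (nat_lit 0) .nil)))))))) (.g (nat_lit 5) .nil .nil))) 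
(.lf (nat_lit 73849) (.g (nat_lit 3719) (.e (nat_lit 1781) (nat_lit 119) (.e (nat_lit 516166) (nat_lit 12) (.e (nat_lit 450588) (nat_lit 10) (.e (nat_lit 573469) (nat_lit 11) .nil)))) .nil)))))) (.nd (nat_lit 3) (.nd (nat_lit 4) (.nd (nat_lit 5) (.nd (nat_lit 6) 
(.lf (nat_lit 73733) (.g (nat_lit 506) (.e (nat_lit 1781) (nat_lit 119) (.e (nat_lit 516129) (nat_lit 3) (.e (nat_lit 221193) (nat_lit 11) .nil))) .nil)) 
(.lf (nat_lit 73797) (.g (nat_lit 3748) (.e (nat_lit 1781) (nat_lit 119) (.e (nat_lit 516151) (nat_lit 9) (.e (nat_lit 426211) (nat_lit 9) (.e (nat_lit 426140) (nat_lit 3) (.e (nat_lit 204845) (nat_lit 24) (.e (nat_lit 319531) (nat_lit 16) (.e (nat_lit 286728) (nat_lit 0) .nil))))))) (.g (nat_lit 4) .nil .nil)))) (.nd (nat_lit 6) 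
(.lf (nat_lit 73765) (.g (nat_lit 1254) (.e (nat_lit 1781) (nat_lit 119) (.e (nat_lit 516130) (nat_lit 3) (.e (nat_lit 221212) (nat_lit 22) (.e (nat_lit 196668) (nat_lit 14) (.e (nat_lit 81664) (nat_lit 5) .nil))))) .nil)) 
(.lf (nat_lit 73829) (.g (nat_lit 3513) (.e (nat_lit 1781) (nat_lit 119) (.e (nat_lit 516166) (nat_lit 12) (.e (nat_lit 450587) (nat_lit 10) (.e (nat_lit 573477) (nat_lit 12) (.e (nat_lit 57574) (nat_lit 55) (.e (nat_lit 778465) (nat_lit 11) (.e (nat_lit 24593) (nat_lit 0) .nil))))))) (.g (nat_lit 4) .nil .nil))))) (.nd (nat_lit 5) (.nd (nat_lit 6) 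
(.lf (nat_lit 73749) (.g (nat_lit 1057) (.e (nat_lit 1781) (nat_lit 119) (.e (nat_lit 516130) (nat_lit 3) (.e (nat_lit 221193) (nat_lit 11) (.e (nat_lit 336026) (nat_lit 3) (.e (nat_lit 98380) (nat_lit 31) (.e (nat_lit 466947) (nat_lit 0) .nil)))))) (.g (nat_lit 4) .nil .nil))) 
(.lf (nat_lit 73813) (.g (nat_lit 2734) (.e (nat_lit 1781) (nat_lit 119) (.e (nat_lit 516163) (nat_lit 11) (.e (nat_lit 442427) (nat_lit 23) (.e (nat_lit 204846) (nat_lit 24) (.e (nat_lit 319534) (nat_lit 16) (.e (nat_lit 286728) (nat_lit 0) .nil)))))) (.g (nat_lit 4) .nil .nil)))) (.nd (nat_lit 6) 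
(.lf (nat_lit 73781) (.g (nat_lit 3288) (.e (nat_lit 1781) (nat_lit 119) (.e (nat_lit 516151) (nat_lit 9) (.e (nat_lit 426211) (nat_lit 9) (.e (nat_lit 426037) (nat_lit 0) (.e (nat_lit 3238) (nat_lit 197) .nil))))) .nil)) 
(.lf (nat_lit 73845) (.g (nat_lit 3388) (.e (nat_lit 1781) (nat_lit 119) (.e (nat_lit 516166) (nat_lit 12) (.e (nat_lit 450587) (nat_lit 10) (.e (nat_lit 573478) (nat_lit 12) (.e (nat_lit 57574) (nat_lit 55) (.e (nat_lit 778466) (nat_lit 11) (.e (nat_lit 24593) (nat_lit 0) .nil))))))) (.g (nat_lit 4) .nil .nil)))))) (.nd (nat_lit 4) (.nd (nat_lit 5) (.nd (nat_lit 6) 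
(.lf (nat_lit 73741) (.g (nat_lit 184) (.e (nat_lit 1781) (nat_lit 119) (.e (nat_lit 516130) (nat_lit 3) (.e (nat_lit 221193) (nat_lit 11) .nil))) .nil)) 
(.lf (nat_lit 73805) (.g (nat_lit 2146) (.e (nat_lit 1781) (nat_lit 119) (.e (nat_lit 516151) (nat_lit 9) (.e (nat_lit 426285) (nat_lit 10) (.e (nat_lit 434233) (nat_lit 23) .nil)))) .nil))) (.nd (nat_lit 6) 
(.lf (nat_lit 73773) (.g (nat_lit 1366) (.e (nat_lit 1781) (nat_lit 119) (.e (nat_lit 516131) (nat_lit 3) (.e (nat_lit 221212) (nat_lit 22) (.e (nat_lit 196669) (nat_lit 14) (.e (nat_lit 81664) (nat_lit 5) (.e (nat_lit 532490) (nat_lit 0) (.e (nat_lit 7936) (nat_lit 154) (.e (nat_lit 802816) (nat_lit 0) .nil)))))))) (.g (nat_lit 4) .nil .nil))) 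
(.lf (nat_lit 73837) (.g (nat_lit 3238) (.e (nat_lit 1781) (nat_lit 119) (.e (nat_lit 516166) (nat_lit 12) (.e (nat_lit 450587) (nat_lit 10) (.e (nat_lit 573478) (nat_lit 12) (.e (nat_lit 57574) (nat_lit 55) (.e (nat_lit 778464) (nat_lit 11) (.e (nat_lit 24591) (nat_lit 0) .nil))))))) (.g (nat_lit 4) .nil .nil))))) (.nd (nat_lit 5) (.nd (nat_lit 6) 
(.lf (nat_lit 73757) (.g (nat_lit 1933) (.e (nat_lit 1781) (nat_lit 119) (.e (nat_lit 516130) (nat_lit 3) (.e (nat_lit 221194) (nat_lit 11) (.e (nat_lit 336010) (nat_lit 2) (.e (nat_lit 90178) (nat_lit 15) (.e (nat_lit 188418) (nat_lit 0) .nil)))))) (.g (nat_lit 5) .nil .nil))) 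
(.lf (nat_lit 73821) (.g (nat_lit 3125) (.e (nat_lit 1781) (nat_lit 119) (.e (nat_lit 516166) (nat_lit 12) (.e (nat_lit 450587) (nat_lit 10) (.e (nat_lit 573456) (nat_lit 9) .nil)))) .nil))) (.nd (nat_lit 6) 
(.lf (nat_lit 73789) (.g (nat_lit 3297) (.e (nat_lit 1781) (nat_lit 119) (.e (nat_lit 516151) (nat_lit 9) (.e (nat_lit 426211) (nat_lit 9) (.e (nat_lit 426125) (nat_lit 2) (.e (nat_lit 196661) (nat_lit 12) .nil))))) .nil)) 
(.lf (nat_lit 73853) (.g (nat_lit 2616) (.e (nat_lit 1781) (nat_lit 119) (.e (nat_lit 516166) (nat_lit 12) (.e (nat_lit 450588) (nat_lit 10) (.e (nat_lit 573475) (nat_lit 12) .nil)))) .nil))))))) (.nd (nat_lit 2) (.nd (nat_lit 3) (.nd (nat_lit 4) (.nd (nat_lit 5) (.nd (nat_lit 6) 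
(.lf (nat_lit 73731) (.g (nat_lit 2803) (.e (nat_lit 1781) (nat_lit 119) (.e (nat_lit 516120) (nat_lit 1) (.e (nat_lit 164330) (nat_lit 230) (.e (nat_lit 163913) (nat_lit 12) (.e (nat_lit 426565) (nat_lit 34) (.e (nat_lit 393273) (nat_lit 23) (.e (nat_lit 426364) (nat_lit 15) .nil))))))) (.g (nat_lit 4) .nil .nil))) 
(.lf (nat_lit 73795) (.g (nat_lit 4465) (.e (nat_lit 1781) (nat_lit 119) (.e (nat_lit 516151) (nat_lit 9) (.e (nat_lit 426211) (nat_lit 9) (.e (nat_lit 426140) (nat_lit 3) (.e (nat_lit 204845) (nat_lit 24) (.e (nat_lit 319530) (nat_lit 16) (.e (nat_lit 286722) (nat_lit 0) .nil))))))) (.g (nat_lit 5) .nil .nil)))) (.nd (nat_lit 6) 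
(.lf (nat_lit 73763) (.g (nat_lit 1778) (.e (nat_lit 1781) (nat_lit 119) (.e (nat_lit 516130) (nat_lit 3) (.e (nat_lit 221194) (nat_lit 11) (.e (nat_lit 336026) (nat_lit 3) (.e (nat_lit 98381) (nat_lit 31) (.e (nat_lit 466947) (nat_lit 0) .nil)))))) (.g (nat_lit 4) .nil .nil))) 
(.lf (nat_lit 73827) (.g (nat_lit 5154) (.e (nat_lit 1781) (nat_lit 119) (.e (nat_lit 516166) (nat_lit 12) (.e (nat_lit 450587) (nat_lit 10) (.e (nat_lit 573477) (nat_lit 12) (.e (nat_lit 57574) (nat_lit 55) (.e (nat_lit 778465) (nat_lit 11) (.e (nat_lit 24588) (nat_lit 0) .nil))))))) (.g (nat_lit 6) .nil .nil))))) (.nd (nat_lit 5) (.nd (nat_lit 6) 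
(.lf (nat_lit 73747) (.g (nat_lit 2029) (.e (nat_lit 1781) (nat_lit 119) (.e (nat_lit 516130) (nat_lit 3) (.e (nat_lit 221193) (nat_lit 11) (.e (nat_lit 336012) (nat_lit 2) (.e (nat_lit 90178) (nat_lit 15) (.e (nat_lit 188418) (nat_lit 0) .nil)))))) (.g (nat_lit 6) .nil .nil))) 
(.lf (nat_lit 73811) (.g (nat_lit 3000) (.e (nat_lit 1781) (nat_lit 119) (.e (nat_lit 516151) (nat_lit 9) (.e (nat_lit 426338) (nat_lit 14) (.e (nat_lit 491537) (nat_lit 2) (.e (nat_lit 90170) (nat_lit 13) .nil))))) .nil))) (.nd (nat_lit 6) 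
(.lf (nat_lit 73779) (.g (nat_lit 2833) (.e (nat_lit 1781) (nat_lit 119) (.e (nat_lit 516151) (nat_lit 9) (.e (nat_lit 426170) (nat_lit 7) (.e (nat_lit 409631) (nat_lit 12) (.e (nat_lit 32807) (nat_lit 18) (.e (nat_lit 172126) (nat_lit 14) (.e (nat_lit 491522) (nat_lit 0) .nil))))))) (.g (nat_lit 5) .nil .nil))) 
(.lf (nat_lit 73843) (.g (nat_lit 5318) (.e (nat_lit 1781) (nat_lit 119) (.e (nat_lit 516166) (nat_lit 12) (.e (nat_lit 450587) (nat_lit 10) (.e (nat_lit 573478) (nat_lit 12) (.e (nat_lit 57574) (nat_lit 55) (.e (nat_lit 778466) (nat_lit 11) (.e (nat_lit 24588) (nat_lit 0) .nil))))))) (.g (nat_lit 6) .nil .nil)))))) (.nd (nat_lit 4) (.nd (nat_lit 5) (.nd (nat_lit 6) 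
(.lf (nat_lit 73739) (.g (nat_lit 2963) (.e (nat_lit 1781) (nat_lit 119) (.e (nat_lit 516129) (nat_lit 3) (.e (nat_lit 221210) (nat_lit 22) (.e (nat_lit 196668) (nat_lit 14) (.e (nat_lit 73747) (nat_lit 3) (.e (nat_lit 516119) (nat_lit 1) (.e (nat_lit 164178) (nat_lit 154) (.e (nat_lit 57348) (nat_lit 0) .nil)))))))) (.g (nat_lit 5) .nil .nil))) 
(.lf (nat_lit 73803) (.g (nat_lit 2384) (.e (nat_lit 1781) (nat_lit 119) (.e (nat_lit 516151) (nat_lit 9) (.e (nat_lit 426285) (nat_lit 10) (.e (nat_lit 434230) (nat_lit 23) .nil)))) .nil))) (.nd (nat_lit 6) 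
(.lf (nat_lit 73771) (.g (nat_lit 1559) (.e (nat_lit 1781) (nat_lit 119) (.e (nat_lit 516131) (nat_lit 3) (.e (nat_lit 221212) (nat_lit 22) (.e (nat_lit 196668) (nat_lit 14) (.e (nat_lit 81664) (nat_lit 5) .nil))))) .nil)) 
(.lf (nat_lit 73835) (.g (nat_lit 3400) (.e (nat_lit 1781) (nat_lit 119) (.e (nat_lit 516166) (nat_lit 12) (.e (nat_lit 450587) (nat_lit 10) (.e (nat_lit 573478) (nat_lit 12) (.e (nat_lit 57574) (nat_lit 55) (.e (nat_lit 778463) (nat_lit 11) (.e (nat_lit 24588) (nat_lit 0) .nil))))))) (.g (nat_lit 4) .nil .nil))))) (.nd (nat_lit 5) (.nd (nat_lit 6) 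
(.lf (nat_lit 73755) (.g (nat_lit 1857) (.e (nat_lit 1781) (nat_lit 119) (.e (nat_lit 516130) (nat_lit 3) (.e (nat_lit 221194) (nat_lit 11) (.e (nat_lit 336010) (nat_lit 2) (.e (nat_lit 90176) (nat_lit 15) (.e (nat_lit 188420) (nat_lit 0) .nil)))))) (.g (nat_lit 5) .nil .nil))) 
(.lf (nat_lit 73819) (.g (nat_lit 3719) (.e (nat_lit 1781) (nat_lit 119) (.e (nat_lit 516166) (nat_lit 12) (.e (nat_lit 450581) (nat_lit 5) (.e (nat_lit 532523) (nat_lit 7) .nil)))) .nil))) (.nd (nat_lit 6) 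
(.lf (nat_lit 73787) (.g (nat_lit 6576) (.e (nat_lit 1781) (nat_lit 119) (.e (nat_lit 516151) (nat_lit 9) (.e (nat_lit 426211) (nat_lit 9) (.e (nat_lit 426125) (nat_lit 2) (.e (nat_lit 196630) (nat_lit 9) (.e (nat_lit 1393) (nat_lit 106) (.e (nat_lit 319531) (nat_lit 16) (.e (nat_lit 286727) (nat_lit 0) .nil)))))))) (.g (nat_lit 5) .nil .nil))) 
(.lf (nat_lit 73851) (.g (nat_lit 3759) (.e (nat_lit 1781) (nat_lit 119) (.e (nat_lit 516166) (nat_lit 12) (.e (nat_lit 450588) (nat_lit 10) (.e (nat_lit 573473) (nat_lit 12) .nil)))) .nil)))))) (.nd (nat_lit 3) (.nd (nat_lit 4) (.nd (nat_lit 5) (.nd (nat_lit 6) 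
(.lf (nat_lit 73735) (.g (nat_lit 1056) (.e (nat_lit 1781) (nat_lit 119) (.e (nat_lit 516129) (nat_lit 3) (.e (nat_lit 221194) (nat_lit 11) (.e (nat_lit 336010) (nat_lit 2) .nil)))) .nil)) 
(.lf (nat_lit 73799) (.g (nat_lit 3525) (.e (nat_lit 1781) (nat_lit 119) (.e (nat_lit 516151) (nat_lit 9) (.e (nat_lit 426211) (nat_lit 9) (.e (nat_lit 426140) (nat_lit 3) (.e (nat_lit 204845) (nat_lit 24) (.e (nat_lit 327424) (nat_lit 16) (.e (nat_lit 286727) (nat_lit 0) .nil))))))) (.g (nat_lit 4) .nil .nil)))) (.nd (nat_lit 6) 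
(.lf (nat_lit 73767) (.g (nat_lit 520) (.e (nat_lit 1781) (nat_lit 119) (.e (nat_lit 516131) (nat_lit 3) (.e (nat_lit 221194) (nat_lit 11) .nil))) .nil)) 
(.lf (nat_lit 73831) (.g (nat_lit 5608) (.e (nat_lit 1781) (nat_lit 119) (.e (nat_lit 516166) (nat_lit 12) (.e (nat_lit 450587) (nat_lit 10) (.e (nat_lit 573477) (nat_lit 12) (.e (nat_lit 57574) (nat_lit 55) (.e (nat_lit 778466) (nat_lit 11) (.e (nat_lit 24588) (nat_lit 0) .nil))))))) (.g (nat_lit 6) .nil .nil))))) (.nd (nat_lit 5) (.nd (nat_lit 6) 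
(.lf (nat_lit 73751) (.g (nat_lit 1486) (.e (nat_lit 1781) (nat_lit 119) (.e (nat_lit 516130) (nat_lit 3) (.e (nat_lit 221193) (nat_lit 11) (.e (nat_lit 336027) (nat_lit 3) (.e (nat_lit 98380) (nat_lit 31) (.e (nat_lit 466947) (nat_lit 0) .nil)))))) (.g (nat_lit 5) .nil .nil))) 
(.lf (nat_lit 73815) (.g (nat_lit 1088) (.e (nat_lit 1781) (nat_lit 119) (.e (nat_lit 516166) (nat_lit 12) (.e (nat_lit 450578) (nat_lit 5) .nil))) .nil))) (.nd (nat_lit 6) 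
(.lf (nat_lit 73783) (.g (nat_lit 2622) (.e (nat_lit 1781) (nat_lit 119) (.e (nat_lit 516151) (nat_lit 9) (.e (nat_lit 426211) (nat_lit 9) (.e (nat_lit 426125) (nat_lit 2) .nil)))) .nil)) 
(.lf (nat_lit 73847) (.g (nat_lit 3983) (.e (nat_lit 1781) (nat_lit 119) (.e (nat_lit 516166) (nat_lit 12) (.e (nat_lit 450588) (nat_lit 10) (.e (nat_lit 573452) (nat_lit 9) .nil)))) .nil))))) (.nd (nat_lit 4) (.nd (nat_lit 5) (.nd (nat_lit 6) 
(.lf (nat_lit 73743) (.g (nat_lit 1408) (.e (nat_lit 1781) (nat_lit 119) (.e (nat_lit 516130) (nat_lit 3) (.e (nat_lit 221193) (nat_lit 11) (.e (nat_lit 336010) (nat_lit 2) (.e (nat_lit 90176) (nat_lit 15) (.e (nat_lit 188420) (nat_lit 0) .nil)))))) (.g (nat_lit 5) .nil .nil))) 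
(.lf (nat_lit 73807) (.g (nat_lit 6185) (.e (nat_lit 1781) (nat_lit 119) (.e (nat_lit 516151) (nat_lit 9) (.e (nat_lit 426285) (nat_lit 10) (.e (nat_lit 434238) (nat_lit 25) (.e (nat_lit 548913) (nat_lit 18) (.e (nat_lit 172126) (nat_lit 14) (.e (nat_lit 491524) (nat_lit 0) .nil))))))) (.g (nat_lit 6) .nil .nil)))) (.nd (nat_lit 6) 
(.lf (nat_lit 73775) (.g (nat_lit 1860) (.e (nat_lit 1781) (nat_lit 119) (.e (nat_lit 516131) (nat_lit 3) (.e (nat_lit 221212) (nat_lit 22) (.e (nat_lit 196681) (nat_lit 17) (.e (nat_lit 131098) (nat_lit 3) .nil))))) .nil)) 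
(.lf (nat_lit 73839) (.g (nat_lit 3963) (.e (nat_lit 1781) (nat_lit 119) (.e (nat_lit 516166) (nat_lit 12) (.e (nat_lit 450587) (nat_lit 10) (.e (nat_lit 573478) (nat_lit 12) (.e (nat_lit 57574) (nat_lit 55) (.e (nat_lit 778465) (nat_lit 11) (.e (nat_lit 24589) (nat_lit 0) .nil))))))) (.g (nat_lit 5) .nil .nil))))) (.nd (nat_lit 5) (.nd (nat_lit 6) 
(.lf (nat_lit 73759) (.g (nat_lit 2735) (.e (nat_lit 1781) (nat_lit 119) (.e (nat_lit 516130) (nat_lit 3) (.e (nat_lit 221194) (nat_lit 11) (.e (nat_lit 336011) (nat_lit 2) (.e (nat_lit 90176) (nat_lit 15) .nil))))) .nil)) 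
(.lf (nat_lit 73823) (.g (nat_lit 3363) (.e (nat_lit 1781) (nat_lit 119) (.e (nat_lit 516166) (nat_lit 12) (.e (nat_lit 450587) (nat_lit 10) (.e (nat_lit 573469) (nat_lit 11) .nil)))) .nil))) (.nd (nat_lit 6) 
(.lf (nat_lit 73791) (.g (nat_lit 3458) (.e (nat_lit 1781) (nat_lit 119) (.e (nat_lit 516151) (nat_lit 9) (.e (nat_lit 426211) (nat_lit 9) (.e (nat_lit 426125) (nat_lit 2) (.e (nat_lit 196661) (nat_lit 12) (.e (nat_lit 57712) (nat_lit 176) (.e (nat_lit 1370) (nat_lit 103) (.e (nat_lit 294919) (nat_lit 0) .nil)))))))) (.g (nat_lit 4) .nil .nil))) 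
(.lf (nat_lit 73855) (.g (nat_lit 4556) (.e (nat_lit 1781) (nat_lit 119) (.e (nat_lit 516166) (nat_lit 12) (.e (nat_lit 450588) (nat_lit 10) (.e (nat_lit 573475) (nat_lit 12) (.e (nat_lit 57574) (nat_lit 55) (.e (nat_lit 778464) (nat_lit 11) (.e (nat_lit 24588) (nat_lit 0) .nil))))))) (.g (nat_lit 6) .nil .nil))))))))))

noncomputable def tv1001 : DT := (.nd (nat_lit 0) (.nd (nat_lit 1) (.nd (nat_lit 2) (.nd (nat_lit 3) (.nd (nat_lit 4) (.nd (nat_lit 5) (.nd (nat_lit 6) 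
(.lf (nat_lit 73856) (.g (nat_lit 4154) (.e (nat_lit 1781) (nat_lit 119) (.e (nat_lit 516166) (nat_lit 12) (.e (nat_lit 450588) (nat_lit 10) (.e (nat_lit 573475) (nat_lit 12) (.e (nat_lit 57574) (nat_lit 55) (.e (nat_lit 778464) (nat_lit 11) (.e (nat_lit 24592) (nat_lit 0) .nil))))))) (.g (nat_lit 5) .nil .nil))) 
(.lf (nat_lit 73920) (.g (nat_lit 1539) (.e (nat_lit 1782) (nat_lit 119) (.e (nat_lit 516146) (nat_lit 9) (.e (nat_lit 426438) (nat_lit 18) (.e (nat_lit 98358) (nat_lit 26) .nil)))) .nil))) (.nd (nat_lit 6) 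
(.lf (nat_lit 73888) (.g (nat_lit 619) (.e (nat_lit 1782) (nat_lit 119) (.e (nat_lit 516129) (nat_lit 3) (.e (nat_lit 221191) (nat_lit 11) .nil))) .nil)) 
(.lf (nat_lit 73952) (.g (nat_lit 2465) (.e (nat_lit 1782) (nat_lit 119) (.e (nat_lit 516179) (nat_lit 15) (.e (nat_lit 475177) (nat_lit 24) (.e (nat_lit 516150) (nat_lit 9) (.e (nat_lit 426438) (nat_lit 18) (.e (nat_lit 98358) (nat_lit 26) (.e (nat_lit 426357) (nat_lit 15) .nil))))))) (.g (nat_lit 4) .nil .nil))))) (.nd (nat_lit 5) (.nd (nat_lit 6) 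
(.lf (nat_lit 73872) (.g (nat_lit 2257) (.e (nat_lit 1782) (nat_lit 119) (.e (nat_lit 516115) (nat_lit 1) (.e (nat_lit 164399) (nat_lit 256) (.e (nat_lit 57373) (nat_lit 2) (.e (nat_lit 90172) (nat_lit 14) (.e (nat_lit 180244) (nat_lit 5) (.e (nat_lit 532513) (nat_lit 3) (.e (nat_lit 114706) (nat_lit 20) .nil)))))))) (.g (nat_lit 4) .nil .nil))) 
(.lf (nat_lit 73936) (.g (nat_lit 5416) (.e (nat_lit 1782) (nat_lit 119) (.e (nat_lit 516166) (nat_lit 12) (.e (nat_lit 450588) (nat_lit 10) (.e (nat_lit 573457) (nat_lit 9) .nil)))) .nil))) (.nd (nat_lit 6) 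
(.lf (nat_lit 73904) (.g (nat_lit 1254) (.e (nat_lit 1782) (nat_lit 119) (.e (nat_lit 516131) (nat_lit 3) (.e (nat_lit 221193) (nat_lit 11) (.e (nat_lit 336025) (nat_lit 3) (.e (nat_lit 98380) (nat_lit 31) .nil))))) .nil)) 
(.lf (nat_lit 73968) (.g (nat_lit 1702) (.e (nat_lit 1783) (nat_lit 119) (.e (nat_lit 516129) (nat_lit 3) (.e (nat_lit 221194) (nat_lit 11) (.e (nat_lit 336026) (nat_lit 3) (.e (nat_lit 98381) (nat_lit 31) (.e (nat_lit 466945) (nat_lit 0) .nil)))))) (.g (nat_lit 0) .nil .nil)))))) (.nd (nat_lit 4) (.nd (nat_lit 5) (.nd (nat_lit 6) 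
(.lf (nat_lit 73864) (.g (nat_lit 3872) (.e (nat_lit 1781) (nat_lit 119) (.e (nat_lit 516166) (nat_lit 12) (.e (nat_lit 450588) (nat_lit 10) (.e (nat_lit 573475) (nat_lit 12) (.e (nat_lit 57574) (nat_lit 55) (.e (nat_lit 778466) (nat_lit 11) (.e (nat_lit 24593) (nat_lit 0) .nil))))))) (.g (nat_lit 5) .nil .nil))) 
(.lf (nat_lit 73928) (.g (nat_lit 3849) (.e (nat_lit 1782) (nat_lit 119) (.e (nat_lit 516166) (nat_lit 12) (.e (nat_lit 450587) (nat_lit 10) (.e (nat_lit 573457) (nat_lit 9) .nil)))) .nil))) (.nd (nat_lit 6) 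
(.lf (nat_lit 73896) (.g (nat_lit 2210) (.e (nat_lit 1782) (nat_lit 119) (.e (nat_lit 516129) (nat_lit 3) (.e (nat_lit 221194) (nat_lit 11) (.e (nat_lit 336027) (nat_lit 3) (.e (nat_lit 98380) (nat_lit 31) (.e (nat_lit 466945) (nat_lit 0) .nil)))))) (.g (nat_lit 5) .nil .nil))) 
(.lf (nat_lit 73960) (.g (nat_lit 1308) (.e (nat_lit 1783) (nat_lit 119) (.e (nat_lit 516129) (nat_lit 3) (.e (nat_lit 221192) (nat_lit 11) (.e (nat_lit 336017) (nat_lit 3) (.e (nat_lit 98381) (nat_lit 31) (.e (nat_lit 466945) (nat_lit 0) .nil)))))) (.g (nat_lit 0) .nil .nil))))) (.nd (nat_lit 5) (.nd (nat_lit 6) 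
(.lf (nat_lit 73880) (.g (nat_lit 1738) (.e (nat_lit 1782) (nat_lit 119) (.e (nat_lit 516120) (nat_lit 1) (.e (nat_lit 164329) (nat_lit 230) (.e (nat_lit 163902) (nat_lit 12) .nil)))) .nil)) 
(.lf (nat_lit 73944) (.g (nat_lit 2733) (.e (nat_lit 1782) (nat_lit 119) (.e (nat_lit 516174) (nat_lit 14) (.e (nat_lit 466977) (nat_lit 22) (.e (nat_lit 196681) (nat_lit 17) (.e (nat_lit 131089) (nat_lit 1) .nil))))) .nil))) (.nd (nat_lit 6) 
(.lf (nat_lit 73912) (.g (nat_lit 1806) (.e (nat_lit 1782) (nat_lit 119) (.e (nat_lit 516131) (nat_lit 3) (.e (nat_lit 221194) (nat_lit 11) (.e (nat_lit 336027) (nat_lit 3) (.e (nat_lit 98380) (nat_lit 31) .nil))))) .nil)) 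
(.lf (nat_lit 73976) (.g (nat_lit 1157) (.e (nat_lit 1783) (nat_lit 119) (.e (nat_lit 516131) (nat_lit 3) (.e (nat_lit 221193) (nat_lit 11) (.e (nat_lit 336026) (nat_lit 3) (.e (nat_lit 98381) (nat_lit 31) (.e (nat_lit 466945) (nat_lit 0) .nil)))))) (.g (nat_lit 0) .nil .nil))))))) (.nd (nat_lit 3) (.nd (nat_lit 4) (.nd (nat_lit 5) (.nd (nat_lit 6) 
(.lf (nat_lit 73860) (.g (nat_lit 5371) (.e (nat_lit 1781) (nat_lit 119) (.e (nat_lit 516166) (nat_lit 12) (.e (nat_lit 450588) (nat_lit 10) (.e (nat_lit 573475) (nat_lit 12) (.e (nat_lit 57574) (nat_lit 55) (.e (nat_lit 778465) (nat_lit 11) (.e (nat_lit 24588) (nat_lit 0) .nil))))))) (.g (nat_lit 7) .nil .nil))) 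
(.lf (nat_lit 73924) (.g (nat_lit 2152) (.e (nat_lit 1782) (nat_lit 119) (.e (nat_lit 516151) (nat_lit 9) (.e (nat_lit 426286) (nat_lit 10) .nil))) .nil))) (.nd (nat_lit 6) 
(.lf (nat_lit 73892) (.g (nat_lit 1549) (.e (nat_lit 1782) (nat_lit 119) (.e (nat_lit 516129) (nat_lit 3) (.e (nat_lit 221193) (nat_lit 11) (.e (nat_lit 336027) (nat_lit 3) (.e (nat_lit 98381) (nat_lit 31) .nil))))) .nil)) 
(.lf (nat_lit 73956) (.g (nat_lit 2424) (.e (nat_lit 1783) (nat_lit 119) (.e (nat_lit 516120) (nat_lit 1) (.e (nat_lit 164329) (nat_lit 230) (.e (nat_lit 163902) (nat_lit 12) (.e (nat_lit 426479) (nat_lit 27) .nil))))) .nil)))) (.nd (nat_lit 5) (.nd (nat_lit 6) 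
(.lf (nat_lit 73876) (.g (nat_lit 4099) (.e (nat_lit 1782) (nat_lit 119) (.e (nat_lit 516117) (nat_lit 1) (.e (nat_lit 164329) (nat_lit 230) (.e (nat_lit 163902) (nat_lit 12) (.e (nat_lit 426479) (nat_lit 27) (.e (nat_lit 336430) (nat_lit 29) (.e (nat_lit 442379) (nat_lit 0) .nil))))))) (.g (nat_lit 7) .nil .nil))) 
(.lf (nat_lit 73940) (.g (nat_lit 4754) (.e (nat_lit 1782) (nat_lit 119) (.e (nat_lit 516166) (nat_lit 12) (.e (nat_lit 450588) (nat_lit 10) (.e (nat_lit 573475) (nat_lit 12) .nil)))) .nil))) (.nd (nat_lit 6) 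
(.lf (nat_lit 73908) (.g (nat_lit 469) (.e (nat_lit 1782) (nat_lit 119) (.e (nat_lit 516131) (nat_lit 3) (.e (nat_lit 221194) (nat_lit 11) .nil))) .nil)) 
(.lf (nat_lit 73972) (.g (nat_lit 1824) (.e (nat_lit 1783) (nat_lit 119) (.e (nat_lit 516131) (nat_lit 3) (.e (nat_lit 221190) (nat_lit 11) (.e (nat_lit 336027) (nat_lit 3) (.e (nat_lit 98381) (nat_lit 31) .nil))))) .nil))))) (.nd (nat_lit 4) (.nd (nat_lit 5) (.nd (nat_lit 6) 
(.lf (nat_lit 73868) (.g (nat_lit 989) (.e (nat_lit 1781) (nat_lit 119) (.e (nat_lit 516179) (nat_lit 15) (.e (nat_lit 475177) (nat_lit 24) .nil))) .nil)) 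
(.lf (nat_lit 73932) (.g (nat_lit 3981) (.e (nat_lit 1782) (nat_lit 119) (.e (nat_lit 516166) (nat_lit 12) (.e (nat_lit 450587) (nat_lit 10) (.e (nat_lit 573478) (nat_lit 12) .nil)))) .nil))) (.nd (nat_lit 6) 
(.lf (nat_lit 73900) (.g (nat_lit 1628) (.e (nat_lit 1782) (nat_lit 119) (.e (nat_lit 516131) (nat_lit 3) (.e (nat_lit 221190) (nat_lit 11) (.e (nat_lit 336012) (nat_lit 2) (.e (nat_lit 90178) (nat_lit 15) (.e (nat_lit 188418) (nat_lit 0) .nil)))))) (.g (nat_lit 4) .nil .nil))) 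
(.lf (nat_lit 73964) (.g (nat_lit 1200) (.e (nat_lit 1783) (nat_lit 119) (.e (nat_lit 516129) (nat_lit 3) (.e (nat_lit 221193) (nat_lit 11) (.e (nat_lit 336026) (nat_lit 3) (.e (nat_lit 98381) (nat_lit 31) (.e (nat_lit 466945) (nat_lit 0) .nil)))))) (.g (nat_lit 4) .nil .nil))))) (.nd (nat_lit 5) (.nd (nat_lit 6) 
(.lf (nat_lit 73884) (.g (nat_lit 1076) (.e (nat_lit 1782) (nat_lit 119) (.e (nat_lit 516120) (nat_lit 1) (.e (nat_lit 164332) (nat_lit 230) .nil))) .nil)) 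
(.lf (nat_lit 73948) (.g (nat_lit 1525) (.e (nat_lit 1782) (nat_lit 119) (.e (nat_lit 516176) (nat_lit 14) (.e (nat_lit 466981) (nat_lit 23) (.e (nat_lit 204861) (nat_lit 26) .nil)))) .nil))) (.nd (nat_lit 6) 
(.lf (nat_lit 73916) (.g (nat_lit 1427) (.e (nat_lit 1782) (nat_lit 119) (.e (nat_lit 516131) (nat_lit 3) (.e (nat_lit 221212) (nat_lit 22) (.e (nat_lit 196668) (nat_lit 14) .nil)))) .nil)) 
(.lf (nat_lit 73980) (.g (nat_lit 1139) (.e (nat_lit 1783) (nat_lit 119) (.e (nat_lit 516131) (nat_lit 3) (.e (nat_lit 221194) (nat_lit 11) (.e (nat_lit 336026) (nat_lit 3) (.e (nat_lit 98381) (nat_lit 31) .nil))))) .nil))))))) (.nd (nat_lit 2) (.nd (nat_lit 3) (.nd (nat_lit 4) (.nd (nat_lit 5) (.nd (nat_lit 6) 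
(.lf (nat_lit 73858) (.g (nat_lit 3390) (.e (nat_lit 1781) (nat_lit 119) (.e (nat_lit 516166) (nat_lit 12) (.e (nat_lit 450588) (nat_lit 10) (.e (nat_lit 573475) (nat_lit 12) (.e (nat_lit 57574) (nat_lit 55) (.e (nat_lit 778465) (nat_lit 11) (.e (nat_lit 24577) (nat_lit 0) .nil))))))) (.g (nat_lit 4) .nil .nil))) 
(.lf (nat_lit 73922) (.g (nat_lit 2513) (.e (nat_lit 1782) (nat_lit 119) (.e (nat_lit 516146) (nat_lit 9) (.e (nat_lit 426438) (nat_lit 18) (.e (nat_lit 98358) (nat_lit 26) (.e (nat_lit 426428) (nat_lit 17) (.e (nat_lit 90170) (nat_lit 13) (.e (nat_lit 172138) (nat_lit 15) .nil))))))) (.g (nat_lit 4) .nil .nil)))) (.nd (nat_lit 6) 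
(.lf (nat_lit 73890) (.g (nat_lit 1426) (.e (nat_lit 1782) (nat_lit 119) (.e (nat_lit 516129) (nat_lit 3) (.e (nat_lit 221192) (nat_lit 11) (.e (nat_lit 336017) (nat_lit 3) (.e (nat_lit 98381) (nat_lit 31) (.e (nat_lit 466945) (nat_lit 0) .nil)))))) (.g (nat_lit 5) .nil .nil))) 
(.lf (nat_lit 73954) (.g (nat_lit 2243) (.e (nat_lit 1783) (nat_lit 119) (.e (nat_lit 516115) (nat_lit 1) (.e (nat_lit 164399) (nat_lit 256) (.e (nat_lit 57375) (nat_lit 2) (.e (nat_lit 90172) (nat_lit 14) (.e (nat_lit 180244) (nat_lit 5) (.e (nat_lit 532513) (nat_lit 3) (.e (nat_lit 114706) (nat_lit 20) .nil)))))))) (.g (nat_lit 4) .nil .nil))))) (.nd (nat_lit 5) (.nd (nat_lit 6) 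
(.lf (nat_lit 73874) (.g (nat_lit 1978) (.e (nat_lit 1782) (nat_lit 119) (.e (nat_lit 516117) (nat_lit 1) (.e (nat_lit 164329) (nat_lit 230) (.e (nat_lit 163902) (nat_lit 12) .nil)))) .nil)) 
(.lf (nat_lit 73938) (.g (nat_lit 4688) (.e (nat_lit 1782) (nat_lit 119) (.e (nat_lit 516166) (nat_lit 12) (.e (nat_lit 450588) (nat_lit 10) (.e (nat_lit 573473) (nat_lit 12) .nil)))) .nil))) (.nd (nat_lit 6) 
(.lf (nat_lit 73906) (.g (nat_lit 915) (.e (nat_lit 1782) (nat_lit 119) (.e (nat_lit 516131) (nat_lit 3) (.e (nat_lit 221193) (nat_lit 11) (.e (nat_lit 336026) (nat_lit 3) .nil)))) .nil)) 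
(.lf (nat_lit 73970) (.g (nat_lit 2107) (.e (nat_lit 1783) (nat_lit 119) (.e (nat_lit 516129) (nat_lit 3) (.e (nat_lit 221194) (nat_lit 11) (.e (nat_lit 336027) (nat_lit 3) (.e (nat_lit 98381) (nat_lit 31) (.e (nat_lit 466945) (nat_lit 0) .nil)))))) (.g (nat_lit 0) .nil .nil)))))) (.nd (nat_lit 4) (.nd (nat_lit 5) (.nd (nat_lit 6) 
(.lf (nat_lit 73866) (.g (nat_lit 2373) (.e (nat_lit 1781) (nat_lit 119) (.e (nat_lit 516176) (nat_lit 14) (.e (nat_lit 466981) (nat_lit 23) (.e (nat_lit 204846) (nat_lit 24) (.e (nat_lit 319533) (nat_lit 16) (.e (nat_lit 286724) (nat_lit 0) .nil)))))) (.g (nat_lit 4) .nil .nil))) 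
(.lf (nat_lit 73930) (.g (nat_lit 3909) (.e (nat_lit 1782) (nat_lit 119) (.e (nat_lit 516166) (nat_lit 12) (.e (nat_lit 450587) (nat_lit 10) (.e (nat_lit 573477) (nat_lit 12) .nil)))) .nil))) (.nd (nat_lit 6) 
(.lf (nat_lit 73898) (.g (nat_lit 932) (.e (nat_lit 1782) (nat_lit 119) (.e (nat_lit 516129) (nat_lit 3) (.e (nat_lit 229120) (nat_lit 11) (.e (nat_lit 336017) (nat_lit 3) (.e (nat_lit 98380) (nat_lit 31) .nil))))) .nil)) 
(.lf (nat_lit 73962) (.g (nat_lit 1393) (.e (nat_lit 1783) (nat_lit 119) (.e (nat_lit 516129) (nat_lit 3) (.e (nat_lit 221193) (nat_lit 11) (.e (nat_lit 336025) (nat_lit 3) (.e (nat_lit 98381) (nat_lit 31) .nil))))) .nil)))) (.nd (nat_lit 5) (.nd (nat_lit 6) 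
(.lf (nat_lit 73882) (.g (nat_lit 2252) (.e (nat_lit 1782) (nat_lit 119) (.e (nat_lit 516120) (nat_lit 1) (.e (nat_lit 164329) (nat_lit 230) (.e (nat_lit 163902) (nat_lit 12) (.e (nat_lit 426568) (nat_lit 34) .nil))))) .nil)) 
(.lf (nat_lit 73946) (.g (nat_lit 2493) (.e (nat_lit 1782) (nat_lit 119) (.e (nat_lit 516176) (nat_lit 14) (.e (nat_lit 466977) (nat_lit 22) (.e (nat_lit 196681) (nat_lit 17) (.e (nat_lit 131086) (nat_lit 1) .nil))))) .nil))) (.nd (nat_lit 6) 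
(.lf (nat_lit 73914) (.g (nat_lit 1004) (.e (nat_lit 1782) (nat_lit 119) (.e (nat_lit 516131) (nat_lit 3) (.e (nat_lit 229120) (nat_lit 11) (.e (nat_lit 336019) (nat_lit 3) (.e (nat_lit 98380) (nat_lit 31) .nil))))) .nil)) 
(.lf (nat_lit 73978) (.g (nat_lit 1470) (.e (nat_lit 1783) (nat_lit 119) (.e (nat_lit 516131) (nat_lit 3) (.e (nat_lit 221193) (nat_lit 11) (.e (nat_lit 336027) (nat_lit 3) (.e (nat_lit 98381) (nat_lit 31) (.e (nat_lit 466945) (nat_lit 0) .nil)))))) (.g (nat_lit 0) .nil .nil))))))) (.nd (nat_lit 3) (.nd (nat_lit 4) (.nd (nat_lit 5) (.nd (nat_lit 6) 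
(.lf (nat_lit 73862) (.g (nat_lit 3926) (.e (nat_lit 1781) (nat_lit 119) (.e (nat_lit 516166) (nat_lit 12) (.e (nat_lit 450588) (nat_lit 10) (.e (nat_lit 573475) (nat_lit 12) (.e (nat_lit 57574) (nat_lit 55) (.e (nat_lit 778466) (nat_lit 11) (.e (nat_lit 24577) (nat_lit 0) .nil))))))) (.g (nat_lit 5) .nil .nil))) 
(.lf (nat_lit 73926) (.g (nat_lit 3690) (.e (nat_lit 1782) (nat_lit 119) (.e (nat_lit 516166) (nat_lit 12) (.e (nat_lit 450587) (nat_lit 10) (.e (nat_lit 573454) (nat_lit 9) .nil)))) .nil))) (.nd (nat_lit 6) 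
(.lf (nat_lit 73894) (.g (nat_lit 1811) (.e (nat_lit 1782) (nat_lit 119) (.e (nat_lit 516129) (nat_lit 3) (.e (nat_lit 221194) (nat_lit 11) (.e (nat_lit 336026) (nat_lit 3) (.e (nat_lit 98380) (nat_lit 31) (.e (nat_lit 466945) (nat_lit 0) .nil)))))) (.g (nat_lit 0) .nil .nil))) 
(.lf (nat_lit 73958) (.g (nat_lit 583) (.e (nat_lit 1783) (nat_lit 119) (.e (nat_lit 516129) (nat_lit 3) (.e (nat_lit 221191) (nat_lit 11) .nil))) .nil)))) (.nd (nat_lit 5) (.nd (nat_lit 6) 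
(.lf (nat_lit 73878) (.g (nat_lit 2166) (.e (nat_lit 1782) (nat_lit 119) (.e (nat_lit 516119) (nat_lit 1) (.e (nat_lit 164322) (nat_lit 230) (.e (nat_lit 163902) (nat_lit 12) (.e (nat_lit 426479) (nat_lit 27) .nil))))) .nil)) 
(.lf (nat_lit 73942) (.g (nat_lit 5481) (.e (nat_lit 1782) (nat_lit 119) (.e (nat_lit 516166) (nat_lit 12) (.e (nat_lit 450588) (nat_lit 10) (.e (nat_lit 573475) (nat_lit 12) (.e (nat_lit 57574) (nat_lit 55) .nil))))) .nil))) (.nd (nat_lit 6) 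
(.lf (nat_lit 73910) (.g (nat_lit 1317) (.e (nat_lit 1782) (nat_lit 119) (.e (nat_lit 516131) (nat_lit 3) (.e (nat_lit 221194) (nat_lit 11) (.e (nat_lit 336026) (nat_lit 3) (.e (nat_lit 98380) (nat_lit 31) .nil))))) .nil)) 
(.lf (nat_lit 73974) (.g (nat_lit 1043) (.e (nat_lit 1783) (nat_lit 119) (.e (nat_lit 516131) (nat_lit 3) (.e (nat_lit 221191) (nat_lit 11) (.e (nat_lit 336017) (nat_lit 3) (.e (nat_lit 98381) (nat_lit 31) (.e (nat_lit 466945) (nat_lit 0) .nil)))))) (.g (nat_lit 0) .nil .nil)))))) (.nd (nat_lit 4) (.nd (nat_lit 5) (.nd (nat_lit 6) 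
(.lf (nat_lit 73870) (.g (nat_lit 4486) (.e (nat_lit 1781) (nat_lit 119) (.e (nat_lit 516185) (nat_lit 16) (.e (nat_lit 491563) (nat_lit 12) (.e (nat_lit 385074) (nat_lit 31) (.e (nat_lit 573493) (nat_lit 15) .nil))))) .nil)) 
(.lf (nat_lit 73934) (.g (nat_lit 667) (.e (nat_lit 1782) (nat_lit 119) (.e (nat_lit 516166) (nat_lit 12) (.e (nat_lit 450588) (nat_lit 10) .nil))) .nil))) (.nd (nat_lit 6) 
(.lf (nat_lit 73902) (.g (nat_lit 968) (.e (nat_lit 1782) (nat_lit 119) (.e (nat_lit 516131) (nat_lit 3) (.e (nat_lit 221191) (nat_lit 11) (.e (nat_lit 336017) (nat_lit 3) (.e (nat_lit 98381) (nat_lit 31) (.e (nat_lit 466945) (nat_lit 0) .nil)))))) (.g (nat_lit 4) .nil .nil))) 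
(.lf (nat_lit 73966) (.g (nat_lit 1564) (.e (nat_lit 1783) (nat_lit 119) (.e (nat_lit 516129) (nat_lit 3) (.e (nat_lit 221193) (nat_lit 11) (.e (nat_lit 336027) (nat_lit 3) (.e (nat_lit 98381) (nat_lit 31) .nil))))) .nil)))) (.nd (nat_lit 5) (.nd (nat_lit 6) 
(.lf (nat_lit 73886) (.g (nat_lit 1912) (.e (nat_lit 1782) (nat_lit 119) (.e (nat_lit 516126) (nat_lit 2) (.e (nat_lit 213032) (nat_lit 11) (.e (nat_lit 24608) (nat_lit 3) (.e (nat_lit 98380) (nat_lit 31) (.e (nat_lit 466945) (nat_lit 0) .nil)))))) (.g (nat_lit 5) .nil .nil))) 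
(.lf (nat_lit 73950) (.g (nat_lit 2384) (.e (nat_lit 1782) (nat_lit 119) (.e (nat_lit 516179) (nat_lit 15) (.e (nat_lit 475177) (nat_lit 24) (.e (nat_lit 516146) (nat_lit 9) (.e (nat_lit 426438) (nat_lit 18) (.e (nat_lit 98358) (nat_lit 26) (.e (nat_lit 426355) (nat_lit 15) .nil))))))) (.g (nat_lit 4) .nil .nil)))) (.nd (nat_lit 6) 
(.lf (nat_lit 73918) (.g (nat_lit 886) (.e (nat_lit 1782) (nat_lit 119) (.e (nat_lit 516146) (nat_lit 9) (.e (nat_lit 426438) (nat_lit 18) .nil))) .nil)) 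
(.lf (nat_lit 73982) (.g (nat_lit 1081) (.e (nat_lit 1783) (nat_lit 119) (.e (nat_lit 516131) (nat_lit 3) (.e (nat_lit 221212) (nat_lit 22) (.e (nat_lit 196669) (nat_lit 14) .nil)))) .nil)))))))) (.nd (nat_lit 1) (.nd (nat_lit 2) (.nd (nat_lit 3) (.nd (nat_lit 4) (.nd (nat_lit 5) (.nd (nat_lit 6) 
(.lf (nat_lit 73857) (.g (nat_lit 4045) (.e (nat_lit 1781) (nat_lit 119) (.e (nat_lit 516166) (nat_lit 12) (.e (nat_lit 450588) (nat_lit 10) (.e (nat_lit 573475) (nat_lit 12) (.e (nat_lit 57574) (nat_lit 55) (.e (nat_lit 778465) (nat_lit 11) (.e (nat_lit 24576) (nat_lit 0) .nil))))))) (.g (nat_lit 5) .nil .nil))) 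
(.lf (nat_lit 73921) (.g (nat_lit 2470) (.e (nat_lit 1782) (nat_lit 119) (.e (nat_lit 516146) (nat_lit 9) (.e (nat_lit 426438) (nat_lit 18) (.e (nat_lit 98358) (nat_lit 26) (.e (nat_lit 426428) (nat_lit 17) .nil))))) .nil))) (.nd (nat_lit 6) 
(.lf (nat_lit 73889) (.g (nat_lit 1437) (.e (nat_lit 1782) (nat_lit 119) (.e (nat_lit 516129) (nat_lit 3) (.e (nat_lit 221192) (nat_lit 11) (.e (nat_lit 336017) (nat_lit 3) (.e (nat_lit 98380) (nat_lit 31) (.e (nat_lit 466945) (nat_lit 0) .nil)))))) (.g (nat_lit 6) .nil .nil))) 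
(.lf (nat_lit 73953) (.g (nat_lit 2117) (.e (nat_lit 1783) (nat_lit 119) (.e (nat_lit 516115) (nat_lit 1) (.e (nat_lit 164398) (nat_lit 256) (.e (nat_lit 57373) (nat_lit 2) (.e (nat_lit 90174) (nat_lit 14) .nil))))) .nil)))) (.nd (nat_lit 5) (.nd (nat_lit 6) 
(.lf (nat_lit 73873) (.g (nat_lit 2474) (.e (nat_lit 1782) (nat_lit 119) (.e (nat_lit 516116) (nat_lit 1) (.e (nat_lit 164329) (nat_lit 230) (.e (nat_lit 163902) (nat_lit 12) (.e (nat_lit 426568) (nat_lit 34) .nil))))) .nil)) 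
(.lf (nat_lit 73937) (.g (nat_lit 5558) (.e (nat_lit 1782) (nat_lit 119) (.e (nat_lit 516166) (nat_lit 12) (.e (nat_lit 450588) (nat_lit 10) (.e (nat_lit 573469) (nat_lit 11) (.e (nat_lit 16473) (nat_lit 14) .nil))))) .nil))) (.nd (nat_lit 6) 
(.lf (nat_lit 73905) (.g (nat_lit 1237) (.e (nat_lit 1782) (nat_lit 119) (.e (nat_lit 516131) (nat_lit 3) (.e (nat_lit 221193) (nat_lit 11) (.e (nat_lit 336025) (nat_lit 3) (.e (nat_lit 98381) (nat_lit 31) .nil))))) .nil)) 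
(.lf (nat_lit 73969) (.g (nat_lit 2093) (.e (nat_lit 1783) (nat_lit 119) (.e (nat_lit 516129) (nat_lit 3) (.e (nat_lit 221194) (nat_lit 11) (.e (nat_lit 336027) (nat_lit 3) (.e (nat_lit 98380) (nat_lit 31) (.e (nat_lit 466945) (nat_lit 0) .nil)))))) (.g (nat_lit 0) .nil .nil)))))) (.nd (nat_lit 4) (.nd (nat_lit 5) (.nd (nat_lit 6) 
(.lf (nat_lit 73865) (.g (nat_lit 705) (.e (nat_lit 1781) (nat_lit 119) (.e (nat_lit 516176) (nat_lit 14) (.e (nat_lit 466981) (nat_lit 23) .nil))) .nil)) 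
(.lf (nat_lit 73929) (.g (nat_lit 4054) (.e (nat_lit 1782) (nat_lit 119) (.e (nat_lit 516166) (nat_lit 12) (.e (nat_lit 450587) (nat_lit 10) (.e (nat_lit 573469) (nat_lit 11) .nil)))) .nil))) (.nd (nat_lit 6) 
(.lf (nat_lit 73897) (.g (nat_lit 2209) (.e (nat_lit 1782) (nat_lit 119) (.e (nat_lit 516129) (nat_lit 3) (.e (nat_lit 221194) (nat_lit 11) (.e (nat_lit 336027) (nat_lit 3) (.e (nat_lit 98381) (nat_lit 31) (.e (nat_lit 466945) (nat_lit 0) .nil)))))) (.g (nat_lit 5) .nil .nil))) 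
(.lf (nat_lit 73961) (.g (nat_lit 1391) (.e (nat_lit 1783) (nat_lit 119) (.e (nat_lit 516129) (nat_lit 3) (.e (nat_lit 221193) (nat_lit 11) (.e (nat_lit 336025) (nat_lit 3) (.e (nat_lit 98380) (nat_lit 31) .nil))))) .nil)))) (.nd (nat_lit 5) (.nd (nat_lit 6) 
(.lf (nat_lit 73881) (.g (nat_lit 3923) (.e (nat_lit 1782) (nat_lit 119) (.e (nat_lit 516120) (nat_lit 1) (.e (nat_lit 164329) (nat_lit 230) (.e (nat_lit 163902) (nat_lit 12) (.e (nat_lit 426479) (nat_lit 27) (.e (nat_lit 336430) (nat_lit 29) (.e (nat_lit 442379) (nat_lit 0) .nil))))))) (.g (nat_lit 0) .nil .nil))) 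
(.lf (nat_lit 73945) (.g (nat_lit 1618) (.e (nat_lit 1782) (nat_lit 119) (.e (nat_lit 516176) (nat_lit 14) (.e (nat_lit 466974) (nat_lit 22) (.e (nat_lit 196681) (nat_lit 17) .nil)))) .nil))) (.nd (nat_lit 6) 
(.lf (nat_lit 73913) (.g (nat_lit 1810) (.e (nat_lit 1782) (nat_lit 119) (.e (nat_lit 516131) (nat_lit 3) (.e (nat_lit 221194) (nat_lit 11) (.e (nat_lit 336027) (nat_lit 3) (.e (nat_lit 98381) (nat_lit 31) .nil))))) .nil)) 
(.lf (nat_lit 73977) (.g (nat_lit 1463) (.e (nat_lit 1783) (nat_lit 119) (.e (nat_lit 516131) (nat_lit 3) (.e (nat_lit 221193) (nat_lit 11) (.e (nat_lit 336027) (nat_lit 3) (.e (nat_lit 98380) (nat_lit 31) (.e (nat_lit 466945) (nat_lit 0) .nil)))))) (.g (nat_lit 0) .nil .nil))))))) (.nd (nat_lit 3) (.nd (nat_lit 4) (.nd (nat_lit 5) (.nd (nat_lit 6) 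
(.lf (nat_lit 73861) (.g (nat_lit 4121) (.e (nat_lit 1781) (nat_lit 119) (.e (nat_lit 516166) (nat_lit 12) (.e (nat_lit 450588) (nat_lit 10) (.e (nat_lit 573475) (nat_lit 12) (.e (nat_lit 57574) (nat_lit 55) (.e (nat_lit 778465) (nat_lit 11) (.e (nat_lit 24591) (nat_lit 0) .nil))))))) (.g (nat_lit 5) .nil .nil))) 
(.lf (nat_lit 73925) (.g (nat_lit 4118) (.e (nat_lit 1782) (nat_lit 119) (.e (nat_lit 516166) (nat_lit 12) (.e (nat_lit 450563) (nat_lit 0) (.e (nat_lit 6420) (nat_lit 341) (.e (nat_lit 163843) (nat_lit 0) .nil))))) .nil))) (.nd (nat_lit 6) 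
(.lf (nat_lit 73893) (.g (nat_lit 466) (.e (nat_lit 1782) (nat_lit 119) (.e (nat_lit 516129) (nat_lit 3) (.e (nat_lit 221194) (nat_lit 11) .nil))) .nil)) 
(.lf (nat_lit 73957) (.g (nat_lit 2531) (.e (nat_lit 1783) (nat_lit 119) (.e (nat_lit 516120) (nat_lit 1) (.e (nat_lit 164329) (nat_lit 230) (.e (nat_lit 163902) (nat_lit 12) (.e (nat_lit 426568) (nat_lit 34) .nil))))) .nil)))) (.nd (nat_lit 5) (.nd (nat_lit 6) 
(.lf (nat_lit 73877) (.g (nat_lit 664) (.e (nat_lit 1782) (nat_lit 119) (.e (nat_lit 516117) (nat_lit 1) (.e (nat_lit 164330) (nat_lit 230) .nil))) .nil)) 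
(.lf (nat_lit 73941) (.g (nat_lit 5391) (.e (nat_lit 1782) (nat_lit 119) (.e (nat_lit 516166) (nat_lit 12) (.e (nat_lit 450588) (nat_lit 10) (.e (nat_lit 573475) (nat_lit 12) (.e (nat_lit 57347) (nat_lit 0) .nil))))) .nil))) (.nd (nat_lit 6) 
(.lf (nat_lit 73909) (.g (nat_lit 1722) (.e (nat_lit 1782) (nat_lit 119) (.e (nat_lit 516131) (nat_lit 3) (.e (nat_lit 221194) (nat_lit 11) (.e (nat_lit 336012) (nat_lit 2) (.e (nat_lit 90178) (nat_lit 15) .nil))))) .nil)) 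
(.lf (nat_lit 73973) (.g (nat_lit 1041) (.e (nat_lit 1783) (nat_lit 119) (.e (nat_lit 516131) (nat_lit 3) (.e (nat_lit 221191) (nat_lit 11) (.e (nat_lit 336017) (nat_lit 3) (.e (nat_lit 98380) (nat_lit 31) (.e (nat_lit 466945) (nat_lit 0) .nil)))))) (.g (nat_lit 0) .nil .nil)))))) (.nd (nat_lit 4) (.nd (nat_lit 5) (.nd (nat_lit 6) 
(.lf (nat_lit 73869) (.g (nat_lit 2417) (.e (nat_lit 1781) (nat_lit 119) (.e (nat_lit 516185) (nat_lit 16) (.e (nat_lit 491563) (nat_lit 12) (.e (nat_lit 385074) (nat_lit 31) .nil)))) .nil)) 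
(.lf (nat_lit 73933) (.g (nat_lit 4421) (.e (nat_lit 1782) (nat_lit 119) (.e (nat_lit 516166) (nat_lit 12) (.e (nat_lit 450587) (nat_lit 10) (.e (nat_lit 573478) (nat_lit 12) (.e (nat_lit 57574) (nat_lit 55) .nil))))) .nil))) (.nd (nat_lit 6) 
(.lf (nat_lit 73901) (.g (nat_lit 977) (.e (nat_lit 1782) (nat_lit 119) (.e (nat_lit 516131) (nat_lit 3) (.e (nat_lit 221191) (nat_lit 11) (.e (nat_lit 336017) (nat_lit 3) (.e (nat_lit 98380) (nat_lit 31) (.e (nat_lit 466945) (nat_lit 0) .nil)))))) (.g (nat_lit 4) .nil .nil))) 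
(.lf (nat_lit 73965) (.g (nat_lit 1561) (.e (nat_lit 1783) (nat_lit 119) (.e (nat_lit 516129) (nat_lit 3) (.e (nat_lit 221193) (nat_lit 11) (.e (nat_lit 336027) (nat_lit 3) (.e (nat_lit 98380) (nat_lit 31) .nil))))) .nil)))) (.nd (nat_lit 5) (.nd (nat_lit 6) 
(.lf (nat_lit 73885) (.g (nat_lit 856) (.e (nat_lit 1782) (nat_lit 119) (.e (nat_lit 516126) (nat_lit 2) (.e (nat_lit 213032) (nat_lit 11) (.e (nat_lit 24608) (nat_lit 3) .nil)))) .nil)) 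
(.lf (nat_lit 73949) (.g (nat_lit 1569) (.e (nat_lit 1782) (nat_lit 119) (.e (nat_lit 516179) (nat_lit 15) (.e (nat_lit 475177) (nat_lit 24) (.e (nat_lit 516146) (nat_lit 9) .nil)))) .nil))) (.nd (nat_lit 6) 
(.lf (nat_lit 73917) (.g (nat_lit 1281) (.e (nat_lit 1782) (nat_lit 119) (.e (nat_lit 516146) (nat_lit 9) (.e (nat_lit 426436) (nat_lit 18) (.e (nat_lit 98356) (nat_lit 26) .nil)))) .nil)) 
(.lf (nat_lit 73981) (.g (nat_lit 1877) (.e (nat_lit 1783) (nat_lit 119) (.e (nat_lit 516131) (nat_lit 3) (.e (nat_lit 221212) (nat_lit 22) (.e (nat_lit 196668) (nat_lit 14) (.e (nat_lit 81664) (nat_lit 5) .nil))))) .nil))))))) (.nd (nat_lit 2) (.nd (nat_lit 3) (.nd (nat_lit 4) (.nd (nat_lit 5) (.nd (nat_lit 6) 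
(.lf (nat_lit 73859) (.g (nat_lit 3409) (.e (nat_lit 1781) (nat_lit 119) (.e (nat_lit 516166) (nat_lit 12) (.e (nat_lit 450588) (nat_lit 10) (.e (nat_lit 573475) (nat_lit 12) (.e (nat_lit 57574) (nat_lit 55) (.e (nat_lit 778465) (nat_lit 11) (.e (nat_lit 24582) (nat_lit 0) .nil))))))) (.g (nat_lit 4) .nil .nil))) 
(.lf (nat_lit 73923) (.g (nat_lit 2721) (.e (nat_lit 1782) (nat_lit 119) (.e (nat_lit 516150) (nat_lit 9) (.e (nat_lit 426131) (nat_lit 3) (.e (nat_lit 204838) (nat_lit 20) (.e (nat_lit 114702) (nat_lit 20) .nil))))) .nil))) (.nd (nat_lit 6) 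
(.lf (nat_lit 73891) (.g (nat_lit 1547) (.e (nat_lit 1782) (nat_lit 119) (.e (nat_lit 516129) (nat_lit 3) (.e (nat_lit 221193) (nat_lit 11) (.e (nat_lit 336027) (nat_lit 3) (.e (nat_lit 98380) (nat_lit 31) .nil))))) .nil)) 
(.lf (nat_lit 73955) (.g (nat_lit 1860) (.e (nat_lit 1783) (nat_lit 119) (.e (nat_lit 516117) (nat_lit 1) (.e (nat_lit 164329) (nat_lit 230) (.e (nat_lit 163902) (nat_lit 12) .nil)))) .nil)))) (.nd (nat_lit 5) (.nd (nat_lit 6) 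
(.lf (nat_lit 73875) (.g (nat_lit 2381) (.e (nat_lit 1782) (nat_lit 119) (.e (nat_lit 516117) (nat_lit 1) (.e (nat_lit 164329) (nat_lit 230) (.e (nat_lit 163902) (nat_lit 12) (.e (nat_lit 426479) (nat_lit 27) .nil))))) .nil)) 
(.lf (nat_lit 73939) (.g (nat_lit 7098) (.e (nat_lit 1782) (nat_lit 119) (.e (nat_lit 516166) (nat_lit 12) (.e (nat_lit 450588) (nat_lit 10) (.e (nat_lit 573474) (nat_lit 12) .nil)))) .nil))) (.nd (nat_lit 6) 
(.lf (nat_lit 73907) (.g (nat_lit 1477) (.e (nat_lit 1782) (nat_lit 119) (.e (nat_lit 516131) (nat_lit 3) (.e (nat_lit 221193) (nat_lit 11) (.e (nat_lit 336027) (nat_lit 3) (.e (nat_lit 98380) (nat_lit 31) .nil))))) .nil)) 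
(.lf (nat_lit 73971) (.g (nat_lit 1826) (.e (nat_lit 1783) (nat_lit 119) (.e (nat_lit 516131) (nat_lit 3) (.e (nat_lit 221190) (nat_lit 11) (.e (nat_lit 336027) (nat_lit 3) (.e (nat_lit 98380) (nat_lit 31) .nil))))) .nil))))) (.nd (nat_lit 4) (.nd (nat_lit 5) (.nd (nat_lit 6) 
(.lf (nat_lit 73867) (.g (nat_lit 2333) (.e (nat_lit 1781) (nat_lit 119) (.e (nat_lit 516176) (nat_lit 14) (.e (nat_lit 466981) (nat_lit 23) (.e (nat_lit 204846) (nat_lit 24) (.e (nat_lit 319534) (nat_lit 16) .nil))))) .nil)) 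
(.lf (nat_lit 73931) (.g (nat_lit 4519) (.e (nat_lit 1782) (nat_lit 119) (.e (nat_lit 516166) (nat_lit 12) (.e (nat_lit 450587) (nat_lit 10) (.e (nat_lit 573477) (nat_lit 12) (.e (nat_lit 57574) (nat_lit 55) .nil))))) .nil))) (.nd (nat_lit 6) 
(.lf (nat_lit 73899) (.g (nat_lit 1153) (.e (nat_lit 1782) (nat_lit 119) (.e (nat_lit 516129) (nat_lit 3) (.e (nat_lit 229120) (nat_lit 11) (.e (nat_lit 336019) (nat_lit 3) (.e (nat_lit 98381) (nat_lit 31) (.e (nat_lit 466945) (nat_lit 0) .nil)))))) (.g (nat_lit 4) .nil .nil))) 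
(.lf (nat_lit 73963) (.g (nat_lit 1199) (.e (nat_lit 1783) (nat_lit 119) (.e (nat_lit 516129) (nat_lit 3) (.e (nat_lit 221193) (nat_lit 11) (.e (nat_lit 336026) (nat_lit 3) (.e (nat_lit 98380) (nat_lit 31) (.e (nat_lit 466945) (nat_lit 0) .nil)))))) (.g (nat_lit 4) .nil .nil))))) (.nd (nat_lit 5) (.nd (nat_lit 6) 
(.lf (nat_lit 73883) (.g (nat_lit 2835) (.e (nat_lit 1782) (nat_lit 119) (.e (nat_lit 516120) (nat_lit 1) (.e (nat_lit 164330) (nat_lit 230) (.e (nat_lit 163902) (nat_lit 12) (.e (nat_lit 426479) (nat_lit 27) .nil))))) .nil)) 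
(.lf (nat_lit 73947) (.g (nat_lit 2229) (.e (nat_lit 1782) (nat_lit 119) (.e (nat_lit 516176) (nat_lit 14) (.e (nat_lit 466977) (nat_lit 22) (.e (nat_lit 196681) (nat_lit 17) (.e (nat_lit 131089) (nat_lit 1) .nil))))) .nil))) (.nd (nat_lit 6) 
(.lf (nat_lit 73915) (.g (nat_lit 516) (.e (nat_lit 1782) (nat_lit 119) (.e (nat_lit 516131) (nat_lit 3) (.e (nat_lit 221212) (nat_lit 22) .nil))) .nil)) 
(.lf (nat_lit 73979) (.g (nat_lit 1139) (.e (nat_lit 1783) (nat_lit 119) (.e (nat_lit 516131) (nat_lit 3) (.e (nat_lit 221194) (nat_lit 11) (.e (nat_lit 336026) (nat_lit 3) (.e (nat_lit 98380) (nat_lit 31) .nil))))) .nil)))))) (.nd (nat_lit 3) (.nd (nat_lit 4) (.nd (nat_lit 5) (.nd (nat_lit 6) 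
(.lf (nat_lit 73863) (.g (nat_lit 5399) (.e (nat_lit 1781) (nat_lit 119) (.e (nat_lit 516166) (nat_lit 12) (.e (nat_lit 450588) (nat_lit 10) (.e (nat_lit 573475) (nat_lit 12) (.e (nat_lit 57574) (nat_lit 55) (.e (nat_lit 778466) (nat_lit 11) (.e (nat_lit 24589) (nat_lit 0) .nil))))))) (.g (nat_lit 0) .nil .nil))) 
(.lf (nat_lit 73927) (.g (nat_lit 3875) (.e (nat_lit 1782) (nat_lit 119) (.e (nat_lit 516166) (nat_lit 12) (.e (nat_lit 450587) (nat_lit 10) (.e (nat_lit 573456) (nat_lit 9) .nil)))) .nil))) (.nd (nat_lit 6) 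
(.lf (nat_lit 73895) (.g (nat_lit 1793) (.e (nat_lit 1782) (nat_lit 119) (.e (nat_lit 516129) (nat_lit 3) (.e (nat_lit 221194) (nat_lit 11) (.e (nat_lit 336026) (nat_lit 3) (.e (nat_lit 98381) (nat_lit 31) (.e (nat_lit 466945) (nat_lit 0) .nil)))))) (.g (nat_lit 0) .nil .nil))) 
(.lf (nat_lit 73959) (.g (nat_lit 1305) (.e (nat_lit 1783) (nat_lit 119) (.e (nat_lit 516129) (nat_lit 3) (.e (nat_lit 221192) (nat_lit 11) (.e (nat_lit 336017) (nat_lit 3) (.e (nat_lit 98380) (nat_lit 31) (.e (nat_lit 466945) (nat_lit 0) .nil)))))) (.g (nat_lit 0) .nil .nil))))) (.nd (nat_lit 5) (.nd (nat_lit 6) 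
(.lf (nat_lit 73879) (.g (nat_lit 2826) (.e (nat_lit 1782) (nat_lit 119) (.e (nat_lit 516119) (nat_lit 1) (.e (nat_lit 164403) (nat_lit 256) (.e (nat_lit 57373) (nat_lit 2) (.e (nat_lit 90172) (nat_lit 14) (.e (nat_lit 180244) (nat_lit 5) (.e (nat_lit 532513) (nat_lit 3) (.e (nat_lit 114706) (nat_lit 20) .nil)))))))) (.g (nat_lit 4) .nil .nil))) 
(.lf (nat_lit 73943) (.g (nat_lit 2127) (.e (nat_lit 1782) (nat_lit 119) (.e (nat_lit 516174) (nat_lit 14) (.e (nat_lit 466974) (nat_lit 22) (.e (nat_lit 196681) (nat_lit 17) (.e (nat_lit 131089) (nat_lit 1) .nil))))) .nil))) (.nd (nat_lit 6) 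
(.lf (nat_lit 73911) (.g (nat_lit 1316) (.e (nat_lit 1782) (nat_lit 119) (.e (nat_lit 516131) (nat_lit 3) (.e (nat_lit 221194) (nat_lit 11) (.e (nat_lit 336026) (nat_lit 3) (.e (nat_lit 98381) (nat_lit 31) .nil))))) .nil)) 
(.lf (nat_lit 73975) (.g (nat_lit 1157) (.e (nat_lit 1783) (nat_lit 119) (.e (nat_lit 516131) (nat_lit 3) (.e (nat_lit 221193) (nat_lit 11) (.e (nat_lit 336026) (nat_lit 3) (.e (nat_lit 98380) (nat_lit 31) (.e (nat_lit 466945) (nat_lit 0) .nil)))))) (.g (nat_lit 0) .nil .nil)))))) (.nd (nat_lit 4) (.nd (nat_lit 5) (.nd (nat_lit 6) 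
(.lf (nat_lit 73871) (.g (nat_lit 2178) (.e (nat_lit 1782) (nat_lit 119) (.e (nat_lit 516115) (nat_lit 1) (.e (nat_lit 164399) (nat_lit 256) (.e (nat_lit 57372) (nat_lit 2) (.e (nat_lit 90172) (nat_lit 14) (.e (nat_lit 180244) (nat_lit 5) (.e (nat_lit 532513) (nat_lit 3) (.e (nat_lit 114706) (nat_lit 20) .nil)))))))) (.g (nat_lit 4) .nil .nil))) 
(.lf (nat_lit 73935) (.g (nat_lit 4912) (.e (nat_lit 1782) (nat_lit 119) (.e (nat_lit 516166) (nat_lit 12) (.e (nat_lit 450588) (nat_lit 10) (.e (nat_lit 573452) (nat_lit 9) .nil)))) .nil))) (.nd (nat_lit 6) 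
(.lf (nat_lit 73903) (.g (nat_lit 711) (.e (nat_lit 1782) (nat_lit 119) (.e (nat_lit 516131) (nat_lit 3) (.e (nat_lit 221192) (nat_lit 11) (.e (nat_lit 336017) (nat_lit 3) .nil)))) .nil)) 
(.lf (nat_lit 73967) (.g (nat_lit 1701) (.e (nat_lit 1783) (nat_lit 119) (.e (nat_lit 516129) (nat_lit 3) (.e (nat_lit 221194) (nat_lit 11) (.e (nat_lit 336026) (nat_lit 3) (.e (nat_lit 98380) (nat_lit 31) (.e (nat_lit 466945) (nat_lit 0) .nil)))))) (.g (nat_lit 0) .nil .nil))))) (.nd (nat_lit 5) (.nd (nat_lit 6) 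
(.lf (nat_lit 73887) (.g (nat_lit 1474) (.e (nat_lit 1782) (nat_lit 119) (.e (nat_lit 516127) (nat_lit 2) (.e (nat_lit 213030) (nat_lit 11) (.e (nat_lit 24608) (nat_lit 3) (.e (nat_lit 98381) (nat_lit 31) (.e (nat_lit 466945) (nat_lit 0) .nil)))))) (.g (nat_lit 4) .nil .nil))) 
(.lf (nat_lit 73951) (.g (nat_lit 2009) (.e (nat_lit 1782) (nat_lit 119) (.e (nat_lit 516179) (nat_lit 15) (.e (nat_lit 475177) (nat_lit 24) (.e (nat_lit 516150) (nat_lit 9) (.e (nat_lit 426428) (nat_lit 17) .nil))))) .nil))) (.nd (nat_lit 6) 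
(.lf (nat_lit 73919) (.g (nat_lit 1597) (.e (nat_lit 1782) (nat_lit 119) (.e (nat_lit 516146) (nat_lit 9) (.e (nat_lit 426438) (nat_lit 18) (.e (nat_lit 98356) (nat_lit 26) .nil)))) .nil)) 
(.lf (nat_lit 73983) (.g (nat_lit 883) (.e (nat_lit 1783) (nat_lit 119) (.e (nat_lit 516146) (nat_lit 9) (.e (nat_lit 426438) (nat_lit 18) .nil))) .nil)))))))))

noncomputable def tv1002 : DT := (.nd (nat_lit 0) (.nd (nat_lit 1) (.nd (nat_lit 2) (.nd (nat_lit 3) (.nd (nat_lit 4) (.nd (nat_lit 5) (.nd (nat_lit 6) 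
(.lf (nat_lit 73984) (.g (nat_lit 2265) (.e (nat_lit 1783) (nat_lit 119) (.e (nat_lit 516146) (nat_lit 9) (.e (nat_lit 426438) (nat_lit 18) (.e (nat_lit 98356) (nat_lit 26) (.e (nat_lit 426438) (nat_lit 18) .nil))))) .nil)) 
(.lf (nat_lit 74048) (.g (nat_lit 1388) (.e (nat_lit 1784) (nat_lit 119) (.e (nat_lit 516131) (nat_lit 3) (.e (nat_lit 221194) (nat_lit 11) (.e (nat_lit 336010) (nat_lit 2) (.e (nat_lit 90176) (nat_lit 15) (.e (nat_lit 188420) (nat_lit 0) .nil)))))) (.g (nat_lit 5) .nil .nil)))) (.nd (nat_lit 6) 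
(.lf (nat_lit 74016) (.g (nat_lit 3257) (.e (nat_lit 1784) (nat_lit 119) (.e (nat_lit 516117) (nat_lit 1) (.e (nat_lit 164329) (nat_lit 230) (.e (nat_lit 163902) (nat_lit 12) (.e (nat_lit 426568) (nat_lit 34) (.e (nat_lit 393267) (nat_lit 23) (.e (nat_lit 426398) (nat_lit 15) .nil))))))) (.g (nat_lit 7) .nil .nil))) 
(.lf (nat_lit 74080) (.g (nat_lit 1536) (.e (nat_lit 1784) (nat_lit 119) (.e (nat_lit 516174) (nat_lit 14) (.e (nat_lit 466980) (nat_lit 23) (.e (nat_lit 204846) (nat_lit 24) (.e (nat_lit 319533) (nat_lit 16) .nil))))) .nil)))) (.nd (nat_lit 5) (.nd (nat_lit 6) 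
(.lf (nat_lit 74000) (.g (nat_lit 4776) (.e (nat_lit 1783) (nat_lit 119) (.e (nat_lit 516166) (nat_lit 12) (.e (nat_lit 450588) (nat_lit 10) (.e (nat_lit 573473) (nat_lit 12) .nil)))) .nil)) 
(.lf (nat_lit 74064) (.g (nat_lit 1892) (.e (nat_lit 1784) (nat_lit 119) (.e (nat_lit 516150) (nat_lit 9) (.e (nat_lit 426131) (nat_lit 3) (.e (nat_lit 204838) (nat_lit 20) .nil)))) .nil))) (.nd (nat_lit 6) 
(.lf (nat_lit 74032) (.g (nat_lit 1847) (.e (nat_lit 1784) (nat_lit 119) (.e (nat_lit 516129) (nat_lit 3) (.e (nat_lit 221194) (nat_lit 11) (.e (nat_lit 336004) (nat_lit 2) (.e (nat_lit 90176) (nat_lit 15) (.e (nat_lit 196352) (nat_lit 0) .nil)))))) (.g (nat_lit 4) .nil .nil))) 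
(.lf (nat_lit 74096) (.g (nat_lit 707) (.e (nat_lit 1784) (nat_lit 119) (.e (nat_lit 516179) (nat_lit 15) (.e (nat_lit 475177) (nat_lit 24) .nil))) .nil))))) (.nd (nat_lit 4) (.nd (nat_lit 5) (.nd (nat_lit 6) 
(.lf (nat_lit 73992) (.g (nat_lit 3834) (.e (nat_lit 1783) (nat_lit 119) (.e (nat_lit 516166) (nat_lit 12) (.e (nat_lit 450587) (nat_lit 10) (.e (nat_lit 573477) (nat_lit 12) .nil)))) .nil)) 
(.lf (nat_lit 74056) (.g (nat_lit 627) (.e (nat_lit 1784) (nat_lit 119) (.e (nat_lit 516146) (nat_lit 9) (.e (nat_lit 426437) (nat_lit 18) .nil))) .nil))) (.nd (nat_lit 6) 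
(.lf (nat_lit 74024) (.g (nat_lit 1248) (.e (nat_lit 1784) (nat_lit 119) (.e (nat_lit 516126) (nat_lit 2) (.e (nat_lit 213032) (nat_lit 11) (.e (nat_lit 24605) (nat_lit 2) (.e (nat_lit 90176) (nat_lit 15) (.e (nat_lit 196352) (nat_lit 0) .nil)))))) (.g (nat_lit 5) .nil .nil))) 
(.lf (nat_lit 74088) (.g (nat_lit 2270) (.e (nat_lit 1784) (nat_lit 119) (.e (nat_lit 516176) (nat_lit 14) (.e (nat_lit 466977) (nat_lit 22) (.e (nat_lit 196681) (nat_lit 17) (.e (nat_lit 131089) (nat_lit 1) (.e (nat_lit 57930) (nat_lit 282) (.e (nat_lit 164081) (nat_lit 61) .nil))))))) (.g (nat_lit 4) .nil .nil))))) (.nd (nat_lit 5) (.nd (nat_lit 6) 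
(.lf (nat_lit 74008) (.g (nat_lit 2229) (.e (nat_lit 1783) (nat_lit 119) (.e (nat_lit 516176) (nat_lit 14) (.e (nat_lit 466977) (nat_lit 22) (.e (nat_lit 196681) (nat_lit 17) (.e (nat_lit 131089) (nat_lit 1) .nil))))) .nil)) 
(.lf (nat_lit 74072) (.g (nat_lit 3222) (.e (nat_lit 1784) (nat_lit 119) (.e (nat_lit 516165) (nat_lit 12) (.e (nat_lit 450588) (nat_lit 10) (.e (nat_lit 573469) (nat_lit 11) .nil)))) .nil))) (.nd (nat_lit 6) 
(.lf (nat_lit 74040) (.g (nat_lit 2252) (.e (nat_lit 1784) (nat_lit 119) (.e (nat_lit 516129) (nat_lit 3) (.e (nat_lit 221194) (nat_lit 11) (.e (nat_lit 336012) (nat_lit 2) (.e (nat_lit 90178) (nat_lit 15) (.e (nat_lit 188418) (nat_lit 0) .nil)))))) (.g (nat_lit 5) .nil .nil))) 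
(.lf (nat_lit 74104) (.g (nat_lit 2500) (.e (nat_lit 1784) (nat_lit 119) (.e (nat_lit 516179) (nat_lit 15) (.e (nat_lit 475177) (nat_lit 24) (.e (nat_lit 516150) (nat_lit 9) (.e (nat_lit 426438) (nat_lit 18) (.e (nat_lit 98358) (nat_lit 26) (.e (nat_lit 426420) (nat_lit 15) .nil))))))) (.g (nat_lit 4) .nil .nil))))))) (.nd (nat_lit 3) (.nd (nat_lit 4) (.nd (nat_lit 5) (.nd (nat_lit 6) 
(.lf (nat_lit 73988) (.g (nat_lit 3493) (.e (nat_lit 1783) (nat_lit 119) (.e (nat_lit 516166) (nat_lit 12) (.e (nat_lit 450587) (nat_lit 10) (.e (nat_lit 573454) (nat_lit 9) .nil)))) .nil)) 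
(.lf (nat_lit 74052) (.g (nat_lit 2371) (.e (nat_lit 1784) (nat_lit 119) (.e (nat_lit 516146) (nat_lit 9) (.e (nat_lit 426131) (nat_lit 3) (.e (nat_lit 204838) (nat_lit 20) (.e (nat_lit 114702) (nat_lit 20) .nil))))) .nil))) (.nd (nat_lit 6) 
(.lf (nat_lit 74020) (.g (nat_lit 2914) (.e (nat_lit 1784) (nat_lit 119) (.e (nat_lit 516117) (nat_lit 1) (.e (nat_lit 164330) (nat_lit 230) (.e (nat_lit 163902) (nat_lit 12) (.e (nat_lit 426479) (nat_lit 27) .nil))))) .nil)) 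
(.lf (nat_lit 74084) (.g (nat_lit 3291) (.e (nat_lit 1784) (nat_lit 119) (.e (nat_lit 516176) (nat_lit 14) (.e (nat_lit 466977) (nat_lit 22) (.e (nat_lit 196677) (nat_lit 16) (.e (nat_lit 123080) (nat_lit 177) (.e (nat_lit 57881) (nat_lit 270) (.e (nat_lit 1065) (nat_lit 81) .nil))))))) (.g (nat_lit 7) .nil .nil))))) (.nd (nat_lit 5) (.nd (nat_lit 6) 
(.lf (nat_lit 74004) (.g (nat_lit 5292) (.e (nat_lit 1783) (nat_lit 119) (.e (nat_lit 516166) (nat_lit 12) (.e (nat_lit 450588) (nat_lit 10) (.e (nat_lit 573475) (nat_lit 12) (.e (nat_lit 57574) (nat_lit 55) (.e (nat_lit 778466) (nat_lit 11) (.e (nat_lit 24593) (nat_lit 0) .nil))))))) (.g (nat_lit 4) .nil .nil))) 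
(.lf (nat_lit 74068) (.g (nat_lit 2823) (.e (nat_lit 1784) (nat_lit 119) (.e (nat_lit 516151) (nat_lit 9) (.e (nat_lit 426285) (nat_lit 10) (.e (nat_lit 434248) (nat_lit 28) .nil)))) .nil))) (.nd (nat_lit 6) 
(.lf (nat_lit 74036) (.g (nat_lit 1615) (.e (nat_lit 1784) (nat_lit 119) (.e (nat_lit 516129) (nat_lit 3) (.e (nat_lit 221194) (nat_lit 11) (.e (nat_lit 336010) (nat_lit 2) (.e (nat_lit 90176) (nat_lit 15) (.e (nat_lit 196352) (nat_lit 0) .nil)))))) (.g (nat_lit 5) .nil .nil))) 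
(.lf (nat_lit 74100) (.g (nat_lit 2568) (.e (nat_lit 1784) (nat_lit 119) (.e (nat_lit 516179) (nat_lit 15) (.e (nat_lit 475177) (nat_lit 24) (.e (nat_lit 516150) (nat_lit 9) (.e (nat_lit 426438) (nat_lit 18) (.e (nat_lit 98358) (nat_lit 26) (.e (nat_lit 426376) (nat_lit 15) .nil))))))) (.g (nat_lit 4) .nil .nil)))))) (.nd (nat_lit 4) (.nd (nat_lit 5) (.nd (nat_lit 6) 
(.lf (nat_lit 73996) (.g (nat_lit 5352) (.e (nat_lit 1783) (nat_lit 119) (.e (nat_lit 516166) (nat_lit 12) (.e (nat_lit 450588) (nat_lit 10) (.e (nat_lit 573457) (nat_lit 9) .nil)))) .nil)) 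
(.lf (nat_lit 74060) (.g (nat_lit 2316) (.e (nat_lit 1784) (nat_lit 119) (.e (nat_lit 516146) (nat_lit 9) (.e (nat_lit 426438) (nat_lit 18) (.e (nat_lit 98358) (nat_lit 26) (.e (nat_lit 426428) (nat_lit 17) .nil))))) .nil))) (.nd (nat_lit 6) 
(.lf (nat_lit 74028) (.g (nat_lit 1441) (.e (nat_lit 1784) (nat_lit 119) (.e (nat_lit 516129) (nat_lit 3) (.e (nat_lit 221193) (nat_lit 11) (.e (nat_lit 336012) (nat_lit 2) (.e (nat_lit 90176) (nat_lit 15) .nil))))) .nil)) 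
(.lf (nat_lit 74092) (.g (nat_lit 705) (.e (nat_lit 1784) (nat_lit 119) (.e (nat_lit 516176) (nat_lit 14) (.e (nat_lit 466981) (nat_lit 23) .nil))) .nil)))) (.nd (nat_lit 5) (.nd (nat_lit 6) 
(.lf (nat_lit 74012) (.g (nat_lit 2417) (.e (nat_lit 1783) (nat_lit 119) (.e (nat_lit 516179) (nat_lit 15) (.e (nat_lit 475177) (nat_lit 24) (.e (nat_lit 516150) (nat_lit 9) (.e (nat_lit 426438) (nat_lit 18) (.e (nat_lit 98358) (nat_lit 26) (.e (nat_lit 426357) (nat_lit 15) .nil))))))) (.g (nat_lit 4) .nil .nil))) 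
(.lf (nat_lit 74076) (.g (nat_lit 4997) (.e (nat_lit 1784) (nat_lit 119) (.e (nat_lit 516166) (nat_lit 12) (.e (nat_lit 450588) (nat_lit 10) (.e (nat_lit 573470) (nat_lit 11) .nil)))) .nil))) (.nd (nat_lit 6) 
(.lf (nat_lit 74044) (.g (nat_lit 1303) (.e (nat_lit 1784) (nat_lit 119) (.e (nat_lit 516131) (nat_lit 3) (.e (nat_lit 221193) (nat_lit 11) (.e (nat_lit 336010) (nat_lit 2) (.e (nat_lit 90176) (nat_lit 15) (.e (nat_lit 196352) (nat_lit 0) .nil)))))) (.g (nat_lit 5) .nil .nil))) 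
(.lf (nat_lit 74108) (.g (nat_lit 2468) (.e (nat_lit 1785) (nat_lit 119) (.e (nat_lit 516120) (nat_lit 1) (.e (nat_lit 164329) (nat_lit 230) (.e (nat_lit 163902) (nat_lit 12) (.e (nat_lit 426568) (nat_lit 34) .nil))))) .nil))))))) (.nd (nat_lit 2) (.nd (nat_lit 3) (.nd (nat_lit 4) (.nd (nat_lit 5) (.nd (nat_lit 6) 
(.lf (nat_lit 73986) (.g (nat_lit 2181) (.e (nat_lit 1783) (nat_lit 119) (.e (nat_lit 516146) (nat_lit 9) (.e (nat_lit 426438) (nat_lit 18) (.e (nat_lit 98358) (nat_lit 26) (.e (nat_lit 426438) (nat_lit 18) .nil))))) .nil)) 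
(.lf (nat_lit 74050) (.g (nat_lit 1534) (.e (nat_lit 1784) (nat_lit 119) (.e (nat_lit 516131) (nat_lit 3) (.e (nat_lit 221194) (nat_lit 11) (.e (nat_lit 336010) (nat_lit 2) (.e (nat_lit 90178) (nat_lit 15) (.e (nat_lit 196352) (nat_lit 0) .nil)))))) (.g (nat_lit 5) .nil .nil)))) (.nd (nat_lit 6) 
(.lf (nat_lit 74018) (.g (nat_lit 1941) (.e (nat_lit 1784) (nat_lit 119) (.e (nat_lit 516117) (nat_lit 1) (.e (nat_lit 164329) (nat_lit 230) (.e (nat_lit 163902) (nat_lit 12) (.e (nat_lit 426568) (nat_lit 34) (.e (nat_lit 393281) (nat_lit 23) (.e (nat_lit 426410) (nat_lit 15) .nil))))))) (.g (nat_lit 4) .nil .nil))) 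
(.lf (nat_lit 74082) (.g (nat_lit 2297) (.e (nat_lit 1784) (nat_lit 119) (.e (nat_lit 516176) (nat_lit 14) (.e (nat_lit 466974) (nat_lit 22) (.e (nat_lit 196681) (nat_lit 17) (.e (nat_lit 131089) (nat_lit 1) .nil))))) .nil)))) (.nd (nat_lit 5) (.nd (nat_lit 6) 
(.lf (nat_lit 74002) (.g (nat_lit 4538) (.e (nat_lit 1783) (nat_lit 119) (.e (nat_lit 516166) (nat_lit 12) (.e (nat_lit 450588) (nat_lit 10) (.e (nat_lit 573475) (nat_lit 12) .nil)))) .nil)) 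
(.lf (nat_lit 74066) (.g (nat_lit 1360) (.e (nat_lit 1784) (nat_lit 119) (.e (nat_lit 516151) (nat_lit 9) (.e (nat_lit 426211) (nat_lit 9) .nil))) .nil))) (.nd (nat_lit 6) 
(.lf (nat_lit 74034) (.g (nat_lit 1054) (.e (nat_lit 1784) (nat_lit 119) (.e (nat_lit 516129) (nat_lit 3) (.e (nat_lit 221194) (nat_lit 11) (.e (nat_lit 336010) (nat_lit 2) .nil)))) .nil)) 
(.lf (nat_lit 74098) (.g (nat_lit 2616) (.e (nat_lit 1784) (nat_lit 119) (.e (nat_lit 516179) (nat_lit 15) (.e (nat_lit 475177) (nat_lit 24) (.e (nat_lit 516146) (nat_lit 9) (.e (nat_lit 426438) (nat_lit 18) (.e (nat_lit 98358) (nat_lit 26) (.e (nat_lit 426420) (nat_lit 15) .nil))))))) (.g (nat_lit 4) .nil .nil)))))) (.nd (nat_lit 4) (.nd (nat_lit 5) (.nd (nat_lit 6) 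
(.lf (nat_lit 73994) (.g (nat_lit 3783) (.e (nat_lit 1783) (nat_lit 119) (.e (nat_lit 516166) (nat_lit 12) (.e (nat_lit 450587) (nat_lit 10) (.e (nat_lit 573478) (nat_lit 12) .nil)))) .nil)) 
(.lf (nat_lit 74058) (.g (nat_lit 2354) (.e (nat_lit 1784) (nat_lit 119) (.e (nat_lit 516146) (nat_lit 9) (.e (nat_lit 426438) (nat_lit 18) (.e (nat_lit 98356) (nat_lit 26) (.e (nat_lit 426428) (nat_lit 17) (.e (nat_lit 90170) (nat_lit 13) (.e (nat_lit 172138) (nat_lit 15) .nil))))))) (.g (nat_lit 4) .nil .nil)))) (.nd (nat_lit 6) 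
(.lf (nat_lit 74026) (.g (nat_lit 500) (.e (nat_lit 1784) (nat_lit 119) (.e (nat_lit 516129) (nat_lit 3) (.e (nat_lit 221192) (nat_lit 11) .nil))) .nil)) 
(.lf (nat_lit 74090) (.g (nat_lit 705) (.e (nat_lit 1784) (nat_lit 119) (.e (nat_lit 516176) (nat_lit 14) (.e (nat_lit 466980) (nat_lit 23) .nil))) .nil)))) (.nd (nat_lit 5) (.nd (nat_lit 6) 
(.lf (nat_lit 74010) (.g (nat_lit 2826) (.e (nat_lit 1783) (nat_lit 119) (.e (nat_lit 516176) (nat_lit 14) (.e (nat_lit 466981) (nat_lit 23) (.e (nat_lit 204861) (nat_lit 26) (.e (nat_lit 335988) (nat_lit 1) (.e (nat_lit 57927) (nat_lit 282) (.e (nat_lit 164075) (nat_lit 61) .nil))))))) (.g (nat_lit 5) .nil .nil))) 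
(.lf (nat_lit 74074) (.g (nat_lit 4982) (.e (nat_lit 1784) (nat_lit 119) (.e (nat_lit 516166) (nat_lit 12) (.e (nat_lit 450588) (nat_lit 10) (.e (nat_lit 573452) (nat_lit 9) .nil)))) .nil))) (.nd (nat_lit 6) 
(.lf (nat_lit 74042) (.g (nat_lit 1390) (.e (nat_lit 1784) (nat_lit 119) (.e (nat_lit 516131) (nat_lit 3) (.e (nat_lit 221190) (nat_lit 11) (.e (nat_lit 336012) (nat_lit 2) (.e (nat_lit 90178) (nat_lit 15) .nil))))) .nil)) 
(.lf (nat_lit 74106) (.g (nat_lit 4396) (.e (nat_lit 1784) (nat_lit 119) (.e (nat_lit 516185) (nat_lit 16) (.e (nat_lit 491563) (nat_lit 12) (.e (nat_lit 385074) (nat_lit 31) (.e (nat_lit 573493) (nat_lit 15) .nil))))) .nil)))))) (.nd (nat_lit 3) (.nd (nat_lit 4) (.nd (nat_lit 5) (.nd (nat_lit 6) 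
(.lf (nat_lit 73990) (.g (nat_lit 3651) (.e (nat_lit 1783) (nat_lit 119) (.e (nat_lit 516166) (nat_lit 12) (.e (nat_lit 450587) (nat_lit 10) (.e (nat_lit 573457) (nat_lit 9) .nil)))) .nil)) 
(.lf (nat_lit 74054) (.g (nat_lit 2399) (.e (nat_lit 1784) (nat_lit 119) (.e (nat_lit 516146) (nat_lit 9) (.e (nat_lit 426436) (nat_lit 18) (.e (nat_lit 98356) (nat_lit 26) (.e (nat_lit 426428) (nat_lit 17) (.e (nat_lit 90170) (nat_lit 13) (.e (nat_lit 172138) (nat_lit 15) .nil))))))) (.g (nat_lit 5) .nil .nil)))) (.nd (nat_lit 6) 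
(.lf (nat_lit 74022) (.g (nat_lit 1691) (.e (nat_lit 1784) (nat_lit 119) (.e (nat_lit 516120) (nat_lit 1) (.e (nat_lit 164329) (nat_lit 230) (.e (nat_lit 163902) (nat_lit 12) .nil)))) .nil)) 
(.lf (nat_lit 74086) (.g (nat_lit 2449) (.e (nat_lit 1784) (nat_lit 119) (.e (nat_lit 516176) (nat_lit 14) (.e (nat_lit 466977) (nat_lit 22) (.e (nat_lit 196681) (nat_lit 17) (.e (nat_lit 131086) (nat_lit 1) .nil))))) .nil)))) (.nd (nat_lit 5) (.nd (nat_lit 6) 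
(.lf (nat_lit 74006) (.g (nat_lit 1618) (.e (nat_lit 1783) (nat_lit 119) (.e (nat_lit 516176) (nat_lit 14) (.e (nat_lit 466974) (nat_lit 22) (.e (nat_lit 196681) (nat_lit 17) .nil)))) .nil)) 
(.lf (nat_lit 74070) (.g (nat_lit 3822) (.e (nat_lit 1784) (nat_lit 119) (.e (nat_lit 516151) (nat_lit 9) (.e (nat_lit 426286) (nat_lit 10) (.e (nat_lit 434248) (nat_lit 28) .nil)))) .nil))) (.nd (nat_lit 6) 
(.lf (nat_lit 74038) (.g (nat_lit 1820) (.e (nat_lit 1784) (nat_lit 119) (.e (nat_lit 516129) (nat_lit 3) (.e (nat_lit 221194) (nat_lit 11) (.e (nat_lit 336010) (nat_lit 2) (.e (nat_lit 90178) (nat_lit 15) (.e (nat_lit 196352) (nat_lit 0) .nil)))))) (.g (nat_lit 5) .nil .nil))) 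
(.lf (nat_lit 74102) (.g (nat_lit 2502) (.e (nat_lit 1784) (nat_lit 119) (.e (nat_lit 516179) (nat_lit 15) (.e (nat_lit 475177) (nat_lit 24) (.e (nat_lit 516150) (nat_lit 9) (.e (nat_lit 426438) (nat_lit 18) (.e (nat_lit 98358) (nat_lit 26) (.e (nat_lit 426404) (nat_lit 15) .nil))))))) (.g (nat_lit 4) .nil .nil)))))) (.nd (nat_lit 4) (.nd (nat_lit 5) (.nd (nat_lit 6) 
(.lf (nat_lit 73998) (.g (nat_lit 4863) (.e (nat_lit 1783) (nat_lit 119) (.e (nat_lit 516166) (nat_lit 12) (.e (nat_lit 450588) (nat_lit 10) (.e (nat_lit 573470) (nat_lit 11) .nil)))) .nil)) 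
(.lf (nat_lit 74062) (.g (nat_lit 1862) (.e (nat_lit 1784) (nat_lit 119) (.e (nat_lit 516150) (nat_lit 9) (.e (nat_lit 426131) (nat_lit 3) (.e (nat_lit 204837) (nat_lit 20) .nil)))) .nil))) (.nd (nat_lit 6) 
(.lf (nat_lit 74030) (.g (nat_lit 1471) (.e (nat_lit 1784) (nat_lit 119) (.e (nat_lit 516129) (nat_lit 3) (.e (nat_lit 221193) (nat_lit 11) (.e (nat_lit 336012) (nat_lit 2) (.e (nat_lit 90178) (nat_lit 15) .nil))))) .nil)) 
(.lf (nat_lit 74094) (.g (nat_lit 2180) (.e (nat_lit 1784) (nat_lit 119) (.e (nat_lit 516176) (nat_lit 14) (.e (nat_lit 466981) (nat_lit 23) (.e (nat_lit 204861) (nat_lit 26) (.e (nat_lit 335988) (nat_lit 1) .nil))))) .nil)))) (.nd (nat_lit 5) (.nd (nat_lit 6) 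
(.lf (nat_lit 74014) (.g (nat_lit 3308) (.e (nat_lit 1784) (nat_lit 119) (.e (nat_lit 516117) (nat_lit 1) (.e (nat_lit 164329) (nat_lit 230) (.e (nat_lit 163902) (nat_lit 12) (.e (nat_lit 426479) (nat_lit 27) (.e (nat_lit 336430) (nat_lit 29) (.e (nat_lit 442379) (nat_lit 0) .nil))))))) (.g (nat_lit 7) .nil .nil))) 
(.lf (nat_lit 74078) (.g (nat_lit 1999) (.e (nat_lit 1784) (nat_lit 119) (.e (nat_lit 516174) (nat_lit 14) (.e (nat_lit 466974) (nat_lit 22) (.e (nat_lit 196681) (nat_lit 17) (.e (nat_lit 131089) (nat_lit 1) .nil))))) .nil))) (.nd (nat_lit 6) 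
(.lf (nat_lit 74046) (.g (nat_lit 1190) (.e (nat_lit 1784) (nat_lit 119) (.e (nat_lit 516131) (nat_lit 3) (.e (nat_lit 221194) (nat_lit 11) (.e (nat_lit 336009) (nat_lit 2) .nil)))) .nil)) 
(.lf (nat_lit 74110) (.g (nat_lit 4304) (.e (nat_lit 1785) (nat_lit 119) (.e (nat_lit 516166) (nat_lit 12) (.e (nat_lit 450587) (nat_lit 10) (.e (nat_lit 573477) (nat_lit 12) .nil)))) .nil)))))))) (.nd (nat_lit 1) (.nd (nat_lit 2) (.nd (nat_lit 3) (.nd (nat_lit 4) (.nd (nat_lit 5) (.nd (nat_lit 6) 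
(.lf (nat_lit 73985) (.g (nat_lit 1531) (.e (nat_lit 1783) (nat_lit 119) (.e (nat_lit 516146) (nat_lit 9) (.e (nat_lit 426438) (nat_lit 18) (.e (nat_lit 98358) (nat_lit 26) .nil)))) .nil)) 
(.lf (nat_lit 74049) (.g (nat_lit 1324) (.e (nat_lit 1784) (nat_lit 119) (.e (nat_lit 516131) (nat_lit 3) (.e (nat_lit 221194) (nat_lit 11) (.e (nat_lit 336010) (nat_lit 2) (.e (nat_lit 90176) (nat_lit 15) (.e (nat_lit 196352) (nat_lit 0) .nil)))))) (.g (nat_lit 5) .nil .nil)))) (.nd (nat_lit 6) 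
(.lf (nat_lit 74017) (.g (nat_lit 1980) (.e (nat_lit 1784) (nat_lit 119) (.e (nat_lit 516117) (nat_lit 1) (.e (nat_lit 164329) (nat_lit 230) (.e (nat_lit 163902) (nat_lit 12) (.e (nat_lit 426568) (nat_lit 34) (.e (nat_lit 393279) (nat_lit 23) (.e (nat_lit 426403) (nat_lit 15) .nil))))))) (.g (nat_lit 4) .nil .nil))) 
(.lf (nat_lit 74081) (.g (nat_lit 920) (.e (nat_lit 1784) (nat_lit 119) (.e (nat_lit 516176) (nat_lit 14) (.e (nat_lit 466972) (nat_lit 21) .nil))) .nil)))) (.nd (nat_lit 5) (.nd (nat_lit 6) 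
(.lf (nat_lit 74001) (.g (nat_lit 7035) (.e (nat_lit 1783) (nat_lit 119) (.e (nat_lit 516166) (nat_lit 12) (.e (nat_lit 450588) (nat_lit 10) (.e (nat_lit 573474) (nat_lit 12) .nil)))) .nil)) 
(.lf (nat_lit 74065) (.g (nat_lit 3321) (.e (nat_lit 1784) (nat_lit 119) (.e (nat_lit 516150) (nat_lit 9) (.e (nat_lit 426131) (nat_lit 3) (.e (nat_lit 204838) (nat_lit 20) (.e (nat_lit 122624) (nat_lit 3) (.e (nat_lit 204813) (nat_lit 9) (.e (nat_lit 426413) (nat_lit 15) .nil))))))) (.g (nat_lit 6) .nil .nil)))) (.nd (nat_lit 6) 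
(.lf (nat_lit 74033) (.g (nat_lit 1407) (.e (nat_lit 1784) (nat_lit 119) (.e (nat_lit 516129) (nat_lit 3) (.e (nat_lit 221194) (nat_lit 11) (.e (nat_lit 336009) (nat_lit 2) .nil)))) .nil)) 
(.lf (nat_lit 74097) (.g (nat_lit 2418) (.e (nat_lit 1784) (nat_lit 119) (.e (nat_lit 516179) (nat_lit 15) (.e (nat_lit 475177) (nat_lit 24) (.e (nat_lit 516146) (nat_lit 9) (.e (nat_lit 426428) (nat_lit 17) (.e (nat_lit 90170) (nat_lit 13) (.e (nat_lit 172138) (nat_lit 15) .nil))))))) (.g (nat_lit 5) .nil .nil)))))) (.nd (nat_lit 4) (.nd (nat_lit 5) (.nd (nat_lit 6) 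
(.lf (nat_lit 73993) (.g (nat_lit 4445) (.e (nat_lit 1783) (nat_lit 119) (.e (nat_lit 516166) (nat_lit 12) (.e (nat_lit 450587) (nat_lit 10) (.e (nat_lit 573477) (nat_lit 12) (.e (nat_lit 57574) (nat_lit 55) .nil))))) .nil)) 
(.lf (nat_lit 74057) (.g (nat_lit 745) (.e (nat_lit 1784) (nat_lit 119) (.e (nat_lit 516146) (nat_lit 9) (.e (nat_lit 426438) (nat_lit 18) .nil))) .nil))) (.nd (nat_lit 6) 
(.lf (nat_lit 74025) (.g (nat_lit 1468) (.e (nat_lit 1784) (nat_lit 119) (.e (nat_lit 516126) (nat_lit 2) (.e (nat_lit 213032) (nat_lit 11) (.e (nat_lit 24605) (nat_lit 2) (.e (nat_lit 90178) (nat_lit 15) (.e (nat_lit 196352) (nat_lit 0) .nil)))))) (.g (nat_lit 5) .nil .nil))) 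
(.lf (nat_lit 74089) (.g (nat_lit 2806) (.e (nat_lit 1784) (nat_lit 119) (.e (nat_lit 516176) (nat_lit 14) (.e (nat_lit 466977) (nat_lit 22) (.e (nat_lit 196681) (nat_lit 17) (.e (nat_lit 131089) (nat_lit 1) (.e (nat_lit 57930) (nat_lit 282) (.e (nat_lit 164082) (nat_lit 61) .nil))))))) (.g (nat_lit 6) .nil .nil))))) (.nd (nat_lit 5) (.nd (nat_lit 6) 
(.lf (nat_lit 74009) (.g (nat_lit 2280) (.e (nat_lit 1783) (nat_lit 119) (.e (nat_lit 516176) (nat_lit 14) (.e (nat_lit 466977) (nat_lit 22) (.e (nat_lit 196681) (nat_lit 17) (.e (nat_lit 131089) (nat_lit 1) (.e (nat_lit 57931) (nat_lit 282) (.e (nat_lit 164075) (nat_lit 61) .nil))))))) (.g (nat_lit 4) .nil .nil))) 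
(.lf (nat_lit 74073) (.g (nat_lit 2482) (.e (nat_lit 1784) (nat_lit 119) (.e (nat_lit 516165) (nat_lit 12) (.e (nat_lit 450588) (nat_lit 10) (.e (nat_lit 573470) (nat_lit 11) .nil)))) .nil))) (.nd (nat_lit 6) 
(.lf (nat_lit 74041) (.g (nat_lit 1411) (.e (nat_lit 1784) (nat_lit 119) (.e (nat_lit 516131) (nat_lit 3) (.e (nat_lit 221190) (nat_lit 11) (.e (nat_lit 336012) (nat_lit 2) (.e (nat_lit 90176) (nat_lit 15) (.e (nat_lit 188420) (nat_lit 0) .nil)))))) (.g (nat_lit 4) .nil .nil))) 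
(.lf (nat_lit 74105) (.g (nat_lit 4032) (.e (nat_lit 1784) (nat_lit 119) (.e (nat_lit 516185) (nat_lit 16) (.e (nat_lit 491563) (nat_lit 12) (.e (nat_lit 385074) (nat_lit 31) (.e (nat_lit 573491) (nat_lit 15) .nil))))) .nil)))))) (.nd (nat_lit 3) (.nd (nat_lit 4) (.nd (nat_lit 5) (.nd (nat_lit 6) 
(.lf (nat_lit 73989) (.g (nat_lit 3677) (.e (nat_lit 1783) (nat_lit 119) (.e (nat_lit 516166) (nat_lit 12) (.e (nat_lit 450587) (nat_lit 10) (.e (nat_lit 573456) (nat_lit 9) .nil)))) .nil)) 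
(.lf (nat_lit 74053) (.g (nat_lit 526) (.e (nat_lit 1784) (nat_lit 119) (.e (nat_lit 516146) (nat_lit 9) (.e (nat_lit 426436) (nat_lit 18) .nil))) .nil))) (.nd (nat_lit 6) 
(.lf (nat_lit 74021) (.g (nat_lit 1682) (.e (nat_lit 1784) (nat_lit 119) (.e (nat_lit 516119) (nat_lit 1) (.e (nat_lit 164326) (nat_lit 230) (.e (nat_lit 163903) (nat_lit 12) (.e (nat_lit 426568) (nat_lit 34) .nil))))) .nil)) 
(.lf (nat_lit 74085) (.g (nat_lit 2998) (.e (nat_lit 1784) (nat_lit 119) (.e (nat_lit 516176) (nat_lit 14) (.e (nat_lit 466977) (nat_lit 22) (.e (nat_lit 196677) (nat_lit 16) (.e (nat_lit 123080) (nat_lit 177) (.e (nat_lit 57883) (nat_lit 270) (.e (nat_lit 1065) (nat_lit 81) .nil))))))) (.g (nat_lit 7) .nil .nil))))) (.nd (nat_lit 5) (.nd (nat_lit 6) 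
(.lf (nat_lit 74005) (.g (nat_lit 2091) (.e (nat_lit 1783) (nat_lit 119) (.e (nat_lit 516174) (nat_lit 14) (.e (nat_lit 466974) (nat_lit 22) (.e (nat_lit 196681) (nat_lit 17) (.e (nat_lit 131089) (nat_lit 1) .nil))))) .nil)) 
(.lf (nat_lit 74069) (.g (nat_lit 4063) (.e (nat_lit 1784) (nat_lit 119) (.e (nat_lit 516151) (nat_lit 9) (.e (nat_lit 426286) (nat_lit 10) (.e (nat_lit 434245) (nat_lit 28) .nil)))) .nil))) (.nd (nat_lit 6) 
(.lf (nat_lit 74037) (.g (nat_lit 1666) (.e (nat_lit 1784) (nat_lit 119) (.e (nat_lit 516129) (nat_lit 3) (.e (nat_lit 221194) (nat_lit 11) (.e (nat_lit 336010) (nat_lit 2) (.e (nat_lit 90178) (nat_lit 15) (.e (nat_lit 188418) (nat_lit 0) .nil)))))) (.g (nat_lit 5) .nil .nil))) 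
(.lf (nat_lit 74101) (.g (nat_lit 2579) (.e (nat_lit 1784) (nat_lit 119) (.e (nat_lit 516179) (nat_lit 15) (.e (nat_lit 475177) (nat_lit 24) (.e (nat_lit 516150) (nat_lit 9) (.e (nat_lit 426438) (nat_lit 18) (.e (nat_lit 98358) (nat_lit 26) (.e (nat_lit 426400) (nat_lit 15) .nil))))))) (.g (nat_lit 4) .nil .nil)))))) (.nd (nat_lit 4) (.nd (nat_lit 5) (.nd (nat_lit 6) 
(.lf (nat_lit 73997) (.g (nat_lit 4736) (.e (nat_lit 1783) (nat_lit 119) (.e (nat_lit 516166) (nat_lit 12) (.e (nat_lit 450588) (nat_lit 10) (.e (nat_lit 573469) (nat_lit 11) .nil)))) .nil)) 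
(.lf (nat_lit 74061) (.g (nat_lit 2034) (.e (nat_lit 1784) (nat_lit 119) (.e (nat_lit 516146) (nat_lit 9) (.e (nat_lit 426438) (nat_lit 18) (.e (nat_lit 98358) (nat_lit 26) (.e (nat_lit 426438) (nat_lit 18) .nil))))) .nil))) (.nd (nat_lit 6) 
(.lf (nat_lit 74029) (.g (nat_lit 1448) (.e (nat_lit 1784) (nat_lit 119) (.e (nat_lit 516129) (nat_lit 3) (.e (nat_lit 221193) (nat_lit 11) (.e (nat_lit 336012) (nat_lit 2) (.e (nat_lit 90176) (nat_lit 15) (.e (nat_lit 188420) (nat_lit 0) .nil)))))) (.g (nat_lit 4) .nil .nil))) 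
(.lf (nat_lit 74093) (.g (nat_lit 1448) (.e (nat_lit 1784) (nat_lit 119) (.e (nat_lit 516176) (nat_lit 14) (.e (nat_lit 466981) (nat_lit 23) (.e (nat_lit 204846) (nat_lit 24) .nil)))) .nil)))) (.nd (nat_lit 5) (.nd (nat_lit 6) 
(.lf (nat_lit 74013) (.g (nat_lit 1278) (.e (nat_lit 1784) (nat_lit 119) (.e (nat_lit 516117) (nat_lit 1) (.e (nat_lit 164329) (nat_lit 230) (.e (nat_lit 163902) (nat_lit 12) .nil)))) .nil)) 
(.lf (nat_lit 74077) (.g (nat_lit 5081) (.e (nat_lit 1784) (nat_lit 119) (.e (nat_lit 516166) (nat_lit 12) (.e (nat_lit 450588) (nat_lit 10) (.e (nat_lit 573471) (nat_lit 11) .nil)))) .nil))) (.nd (nat_lit 6) 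
(.lf (nat_lit 74045) (.g (nat_lit 1516) (.e (nat_lit 1784) (nat_lit 119) (.e (nat_lit 516131) (nat_lit 3) (.e (nat_lit 221193) (nat_lit 11) (.e (nat_lit 336010) (nat_lit 2) (.e (nat_lit 90178) (nat_lit 15) (.e (nat_lit 196352) (nat_lit 0) .nil)))))) (.g (nat_lit 5) .nil .nil))) 
(.lf (nat_lit 74109) (.g (nat_lit 1174) (.e (nat_lit 1785) (nat_lit 119) (.e (nat_lit 516166) (nat_lit 12) (.e (nat_lit 450587) (nat_lit 10) .nil))) .nil))))))) (.nd (nat_lit 2) (.nd (nat_lit 3) (.nd (nat_lit 4) (.nd (nat_lit 5) (.nd (nat_lit 6) 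
(.lf (nat_lit 73987) (.g (nat_lit 2152) (.e (nat_lit 1783) (nat_lit 119) (.e (nat_lit 516151) (nat_lit 9) (.e (nat_lit 426286) (nat_lit 10) .nil))) .nil)) 
(.lf (nat_lit 74051) (.g (nat_lit 2089) (.e (nat_lit 1784) (nat_lit 119) (.e (nat_lit 516146) (nat_lit 9) (.e (nat_lit 426131) (nat_lit 3) (.e (nat_lit 204837) (nat_lit 20) (.e (nat_lit 122624) (nat_lit 3) .nil))))) .nil))) (.nd (nat_lit 6) 
(.lf (nat_lit 74019) (.g (nat_lit 1995) (.e (nat_lit 1784) (nat_lit 119) (.e (nat_lit 516117) (nat_lit 1) (.e (nat_lit 164329) (nat_lit 230) (.e (nat_lit 163902) (nat_lit 12) (.e (nat_lit 426568) (nat_lit 34) (.e (nat_lit 393281) (nat_lit 23) (.e (nat_lit 426413) (nat_lit 15) .nil))))))) (.g (nat_lit 4) .nil .nil))) 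
(.lf (nat_lit 74083) (.g (nat_lit 734) (.e (nat_lit 1784) (nat_lit 119) (.e (nat_lit 516176) (nat_lit 14) (.e (nat_lit 466976) (nat_lit 22) .nil))) .nil)))) (.nd (nat_lit 5) (.nd (nat_lit 6) 
(.lf (nat_lit 74003) (.g (nat_lit 5265) (.e (nat_lit 1783) (nat_lit 119) (.e (nat_lit 516166) (nat_lit 12) (.e (nat_lit 450588) (nat_lit 10) (.e (nat_lit 573475) (nat_lit 12) (.e (nat_lit 57574) (nat_lit 55) .nil))))) .nil)) 
(.lf (nat_lit 74067) (.g (nat_lit 3006) (.e (nat_lit 1784) (nat_lit 119) (.e (nat_lit 516151) (nat_lit 9) (.e (nat_lit 426211) (nat_lit 9) (.e (nat_lit 426125) (nat_lit 2) .nil)))) .nil))) (.nd (nat_lit 6) 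
(.lf (nat_lit 74035) (.g (nat_lit 1716) (.e (nat_lit 1784) (nat_lit 119) (.e (nat_lit 516129) (nat_lit 3) (.e (nat_lit 221194) (nat_lit 11) (.e (nat_lit 336010) (nat_lit 2) (.e (nat_lit 90176) (nat_lit 15) (.e (nat_lit 188420) (nat_lit 0) .nil)))))) (.g (nat_lit 5) .nil .nil))) 
(.lf (nat_lit 74099) (.g (nat_lit 2530) (.e (nat_lit 1784) (nat_lit 119) (.e (nat_lit 516179) (nat_lit 15) (.e (nat_lit 475177) (nat_lit 24) (.e (nat_lit 516150) (nat_lit 9) (.e (nat_lit 426438) (nat_lit 18) (.e (nat_lit 98358) (nat_lit 26) (.e (nat_lit 426375) (nat_lit 15) .nil))))))) (.g (nat_lit 4) .nil .nil)))))) (.nd (nat_lit 4) (.nd (nat_lit 5) (.nd (nat_lit 6) 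
(.lf (nat_lit 73995) (.g (nat_lit 4845) (.e (nat_lit 1783) (nat_lit 119) (.e (nat_lit 516166) (nat_lit 12) (.e (nat_lit 450588) (nat_lit 10) (.e (nat_lit 573452) (nat_lit 9) .nil)))) .nil)) 
(.lf (nat_lit 74059) (.g (nat_lit 2132) (.e (nat_lit 1784) (nat_lit 119) (.e (nat_lit 516146) (nat_lit 9) (.e (nat_lit 426438) (nat_lit 18) (.e (nat_lit 98356) (nat_lit 26) (.e (nat_lit 426438) (nat_lit 18) .nil))))) .nil))) (.nd (nat_lit 6) 
(.lf (nat_lit 74027) (.g (nat_lit 1091) (.e (nat_lit 1784) (nat_lit 119) (.e (nat_lit 516129) (nat_lit 3) (.e (nat_lit 221193) (nat_lit 11) (.e (nat_lit 336009) (nat_lit 2) .nil)))) .nil)) 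
(.lf (nat_lit 74091) (.g (nat_lit 1633) (.e (nat_lit 1784) (nat_lit 119) (.e (nat_lit 516176) (nat_lit 14) (.e (nat_lit 466980) (nat_lit 23) (.e (nat_lit 204846) (nat_lit 24) (.e (nat_lit 319533) (nat_lit 16) .nil))))) .nil)))) (.nd (nat_lit 5) (.nd (nat_lit 6) 
(.lf (nat_lit 74011) (.g (nat_lit 2380) (.e (nat_lit 1783) (nat_lit 119) (.e (nat_lit 516179) (nat_lit 15) (.e (nat_lit 475177) (nat_lit 24) (.e (nat_lit 516146) (nat_lit 9) (.e (nat_lit 426438) (nat_lit 18) (.e (nat_lit 98358) (nat_lit 26) (.e (nat_lit 426357) (nat_lit 15) .nil))))))) (.g (nat_lit 4) .nil .nil))) 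
(.lf (nat_lit 74075) (.g (nat_lit 5676) (.e (nat_lit 1784) (nat_lit 119) (.e (nat_lit 516166) (nat_lit 12) (.e (nat_lit 450588) (nat_lit 10) (.e (nat_lit 573457) (nat_lit 9) .nil)))) .nil))) (.nd (nat_lit 6) 
(.lf (nat_lit 74043) (.g (nat_lit 1382) (.e (nat_lit 1784) (nat_lit 119) (.e (nat_lit 516131) (nat_lit 3) (.e (nat_lit 221193) (nat_lit 11) (.e (nat_lit 336010) (nat_lit 2) (.e (nat_lit 90176) (nat_lit 15) (.e (nat_lit 188420) (nat_lit 0) .nil)))))) (.g (nat_lit 5) .nil .nil))) 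
(.lf (nat_lit 74107) (.g (nat_lit 2372) (.e (nat_lit 1785) (nat_lit 119) (.e (nat_lit 516117) (nat_lit 1) (.e (nat_lit 164329) (nat_lit 230) (.e (nat_lit 163902) (nat_lit 12) .nil)))) .nil)))))) (.nd (nat_lit 3) (.nd (nat_lit 4) (.nd (nat_lit 5) (.nd (nat_lit 6) 
(.lf (nat_lit 73991) (.g (nat_lit 3872) (.e (nat_lit 1783) (nat_lit 119) (.e (nat_lit 516166) (nat_lit 12) (.e (nat_lit 450587) (nat_lit 10) (.e (nat_lit 573469) (nat_lit 11) .nil)))) .nil)) 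
(.lf (nat_lit 74055) (.g (nat_lit 2817) (.e (nat_lit 1784) (nat_lit 119) (.e (nat_lit 516146) (nat_lit 9) (.e (nat_lit 426436) (nat_lit 18) (.e (nat_lit 98358) (nat_lit 26) (.e (nat_lit 426428) (nat_lit 17) (.e (nat_lit 90170) (nat_lit 13) (.e (nat_lit 172138) (nat_lit 15) .nil))))))) (.g (nat_lit 5) .nil .nil)))) (.nd (nat_lit 6) 
(.lf (nat_lit 74023) (.g (nat_lit 2097) (.e (nat_lit 1784) (nat_lit 119) (.e (nat_lit 516120) (nat_lit 1) (.e (nat_lit 164329) (nat_lit 230) (.e (nat_lit 163902) (nat_lit 12) (.e (nat_lit 426479) (nat_lit 27) .nil))))) .nil)) 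
(.lf (nat_lit 74087) (.g (nat_lit 2185) (.e (nat_lit 1784) (nat_lit 119) (.e (nat_lit 516176) (nat_lit 14) (.e (nat_lit 466977) (nat_lit 22) (.e (nat_lit 196681) (nat_lit 17) (.e (nat_lit 131089) (nat_lit 1) .nil))))) .nil)))) (.nd (nat_lit 5) (.nd (nat_lit 6) 
(.lf (nat_lit 74007) (.g (nat_lit 2493) (.e (nat_lit 1783) (nat_lit 119) (.e (nat_lit 516176) (nat_lit 14) (.e (nat_lit 466977) (nat_lit 22) (.e (nat_lit 196681) (nat_lit 17) (.e (nat_lit 131086) (nat_lit 1) .nil))))) .nil)) 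
(.lf (nat_lit 74071) (.g (nat_lit 1688) (.e (nat_lit 1784) (nat_lit 119) (.e (nat_lit 516165) (nat_lit 12) (.e (nat_lit 450586) (nat_lit 10) (.e (nat_lit 573469) (nat_lit 11) .nil)))) .nil))) (.nd (nat_lit 6) 
(.lf (nat_lit 74039) (.g (nat_lit 2215) (.e (nat_lit 1784) (nat_lit 119) (.e (nat_lit 516129) (nat_lit 3) (.e (nat_lit 221194) (nat_lit 11) (.e (nat_lit 336012) (nat_lit 2) (.e (nat_lit 90176) (nat_lit 15) (.e (nat_lit 188420) (nat_lit 0) .nil)))))) (.g (nat_lit 5) .nil .nil))) 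
(.lf (nat_lit 74103) (.g (nat_lit 2512) (.e (nat_lit 1784) (nat_lit 119) (.e (nat_lit 516179) (nat_lit 15) (.e (nat_lit 475177) (nat_lit 24) (.e (nat_lit 516150) (nat_lit 9) (.e (nat_lit 426438) (nat_lit 18) (.e (nat_lit 98358) (nat_lit 26) (.e (nat_lit 426416) (nat_lit 15) .nil))))))) (.g (nat_lit 4) .nil .nil)))))) (.nd (nat_lit 4) (.nd (nat_lit 5) (.nd (nat_lit 6) 
(.lf (nat_lit 73999) (.g (nat_lit 4993) (.e (nat_lit 1783) (nat_lit 119) (.e (nat_lit 516166) (nat_lit 12) (.e (nat_lit 450588) (nat_lit 10) (.e (nat_lit 573471) (nat_lit 11) .nil)))) .nil)) 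
(.lf (nat_lit 74063) (.g (nat_lit 3443) (.e (nat_lit 1784) (nat_lit 119) (.e (nat_lit 516150) (nat_lit 9) (.e (nat_lit 426131) (nat_lit 3) (.e (nat_lit 204837) (nat_lit 20) (.e (nat_lit 122624) (nat_lit 3) (.e (nat_lit 204813) (nat_lit 9) (.e (nat_lit 426413) (nat_lit 15) .nil))))))) (.g (nat_lit 6) .nil .nil)))) (.nd (nat_lit 6) 
(.lf (nat_lit 74031) (.g (nat_lit 1880) (.e (nat_lit 1784) (nat_lit 119) (.e (nat_lit 516129) (nat_lit 3) (.e (nat_lit 221194) (nat_lit 11) (.e (nat_lit 336004) (nat_lit 2) (.e (nat_lit 90176) (nat_lit 15) (.e (nat_lit 188420) (nat_lit 0) .nil)))))) (.g (nat_lit 4) .nil .nil))) 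
(.lf (nat_lit 74095) (.g (nat_lit 2211) (.e (nat_lit 1784) (nat_lit 119) (.e (nat_lit 516176) (nat_lit 14) (.e (nat_lit 466981) (nat_lit 23) (.e (nat_lit 204861) (nat_lit 26) (.e (nat_lit 335988) (nat_lit 1) (.e (nat_lit 57926) (nat_lit 282) (.e (nat_lit 164082) (nat_lit 61) .nil))))))) (.g (nat_lit 4) .nil .nil))))) (.nd (nat_lit 5) (.nd (nat_lit 6) 
(.lf (nat_lit 74015) (.g (nat_lit 1786) (.e (nat_lit 1784) (nat_lit 119) (.e (nat_lit 516117) (nat_lit 1) (.e (nat_lit 164329) (nat_lit 230) (.e (nat_lit 163902) (nat_lit 12) (.e (nat_lit 426568) (nat_lit 34) .nil))))) .nil)) 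
(.lf (nat_lit 74079) (.g (nat_lit 2574) (.e (nat_lit 1784) (nat_lit 119) (.e (nat_lit 516174) (nat_lit 14) (.e (nat_lit 466977) (nat_lit 22) (.e (nat_lit 196681) (nat_lit 17) (.e (nat_lit 131089) (nat_lit 1) .nil))))) .nil))) (.nd (nat_lit 6) 
(.lf (nat_lit 74047) (.g (nat_lit 836) (.e (nat_lit 1784) (nat_lit 119) (.e (nat_lit 516131) (nat_lit 3) (.e (nat_lit 221194) (nat_lit 11) (.e (nat_lit 336010) (nat_lit 2) .nil)))) .nil)) 
(.lf (nat_lit 74111) (.g (nat_lit 4242) (.e (nat_lit 1785) (nat_lit 119) (.e (nat_lit 516166) (nat_lit 12) (.e (nat_lit 450587) (nat_lit 10) (.e (nat_lit 573478) (nat_lit 12) .nil)))) .nil)))))))))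

noncomputable def tv1003 : DT := (.nd (nat_lit 0) (.nd (nat_lit 1) (.nd (nat_lit 2) (.nd (nat_lit 3) (.nd (nat_lit 4) (.nd (nat_lit 5) (.nd (nat_lit 6) 
(.lf (nat_lit 74112) (.g (nat_lit 4910) (.e (nat_lit 1785) (nat_lit 119) (.e (nat_lit 516166) (nat_lit 12) (.e (nat_lit 450588) (nat_lit 10) (.e (nat_lit 573473) (nat_lit 12) .nil)))) .nil)) 
(.lf (nat_lit 74176) (.g (nat_lit 1223) (.e (nat_lit 1786) (nat_lit 119) (.e (nat_lit 516131) (nat_lit 3) (.e (nat_lit 221193) (nat_lit 11) (.e (nat_lit 336026) (nat_lit 3) (.e (nat_lit 98381) (nat_lit 31) (.e (nat_lit 466945) (nat_lit 0) .nil)))))) (.g (nat_lit 0) .nil .nil)))) (.nd (nat_lit 6) 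
(.lf (nat_lit 74144) (.g (nat_lit 1681) (.e (nat_lit 1786) (nat_lit 119) (.e (nat_lit 516129) (nat_lit 3) (.e (nat_lit 221194) (nat_lit 11) (.e (nat_lit 336010) (nat_lit 2) (.e (nat_lit 90178) (nat_lit 15) (.e (nat_lit 196352) (nat_lit 0) .nil)))))) (.g (nat_lit 5) .nil .nil))) 
(.lf (nat_lit 74208) (.g (nat_lit 2085) (.e (nat_lit 1786) (nat_lit 119) (.e (nat_lit 516163) (nat_lit 11) (.e (nat_lit 442424) (nat_lit 22) (.e (nat_lit 196661) (nat_lit 12) (.e (nat_lit 57721) (nat_lit 177) .nil))))) .nil)))) (.nd (nat_lit 5) (.nd (nat_lit 6) 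
(.lf (nat_lit 74128) (.g (nat_lit 2582) (.e (nat_lit 1786) (nat_lit 119) (.e (nat_lit 516119) (nat_lit 1) (.e (nat_lit 164403) (nat_lit 256) (.e (nat_lit 57373) (nat_lit 2) (.e (nat_lit 90174) (nat_lit 14) .nil))))) .nil)) 
(.lf (nat_lit 74192) (.g (nat_lit 2815) (.e (nat_lit 1786) (nat_lit 119) (.e (nat_lit 516139) (nat_lit 7) (.e (nat_lit 409649) (nat_lit 18) (.e (nat_lit 303118) (nat_lit 3) (.e (nat_lit 204876) (nat_lit 31) .nil))))) .nil))) (.nd (nat_lit 6) 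
(.lf (nat_lit 74160) (.g (nat_lit 1204) (.e (nat_lit 1786) (nat_lit 119) (.e (nat_lit 516130) (nat_lit 3) (.e (nat_lit 221193) (nat_lit 11) (.e (nat_lit 336027) (nat_lit 3) (.e (nat_lit 98381) (nat_lit 31) (.e (nat_lit 466945) (nat_lit 0) .nil)))))) (.g (nat_lit 4) .nil .nil))) 
(.lf (nat_lit 74224) (.g (nat_lit 5153) (.e (nat_lit 1786) (nat_lit 119) (.e (nat_lit 516166) (nat_lit 12) (.e (nat_lit 450587) (nat_lit 10) (.e (nat_lit 573475) (nat_lit 12) .nil)))) .nil))))) (.nd (nat_lit 4) (.nd (nat_lit 5) (.nd (nat_lit 6) 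
(.lf (nat_lit 74120) (.g (nat_lit 2413) (.e (nat_lit 1786) (nat_lit 119) (.e (nat_lit 516115) (nat_lit 1) (.e (nat_lit 164399) (nat_lit 256) (.e (nat_lit 57372) (nat_lit 2) (.e (nat_lit 90174) (nat_lit 14) (.e (nat_lit 180243) (nat_lit 5) (.e (nat_lit 532513) (nat_lit 3) (.e (nat_lit 114706) (nat_lit 20) .nil)))))))) (.g (nat_lit 4) .nil .nil))) 
(.lf (nat_lit 74184) (.g (nat_lit 1880) (.e (nat_lit 1786) (nat_lit 119) (.e (nat_lit 516131) (nat_lit 3) (.e (nat_lit 221212) (nat_lit 22) (.e (nat_lit 196668) (nat_lit 14) (.e (nat_lit 81664) (nat_lit 5) .nil))))) .nil))) (.nd (nat_lit 6) 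
(.lf (nat_lit 74152) (.g (nat_lit 669) (.e (nat_lit 1786) (nat_lit 119) (.e (nat_lit 516130) (nat_lit 3) (.e (nat_lit 221191) (nat_lit 11) (.e (nat_lit 336017) (nat_lit 3) (.e (nat_lit 98380) (nat_lit 31) (.e (nat_lit 466945) (nat_lit 0) .nil)))))) (.g (nat_lit 4) .nil .nil))) 
(.lf (nat_lit 74216) (.g (nat_lit 1144) (.e (nat_lit 1786) (nat_lit 119) (.e (nat_lit 516166) (nat_lit 12) (.e (nat_lit 450563) (nat_lit 0) .nil))) .nil)))) (.nd (nat_lit 5) (.nd (nat_lit 6) 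
(.lf (nat_lit 74136) (.g (nat_lit 1594) (.e (nat_lit 1786) (nat_lit 119) (.e (nat_lit 516129) (nat_lit 3) (.e (nat_lit 221193) (nat_lit 11) (.e (nat_lit 336012) (nat_lit 2) (.e (nat_lit 90178) (nat_lit 15) (.e (nat_lit 196352) (nat_lit 0) .nil)))))) (.g (nat_lit 4) .nil .nil))) 
(.lf (nat_lit 74200) (.g (nat_lit 2188) (.e (nat_lit 1786) (nat_lit 119) (.e (nat_lit 516146) (nat_lit 9) (.e (nat_lit 426438) (nat_lit 18) (.e (nat_lit 98358) (nat_lit 26) (.e (nat_lit 426438) (nat_lit 18) .nil))))) .nil))) (.nd (nat_lit 6) 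
(.lf (nat_lit 74168) (.g (nat_lit 1138) (.e (nat_lit 1786) (nat_lit 119) (.e (nat_lit 516131) (nat_lit 3) (.e (nat_lit 221191) (nat_lit 11) (.e (nat_lit 336017) (nat_lit 3) (.e (nat_lit 98381) (nat_lit 31) (.e (nat_lit 466945) (nat_lit 0) .nil)))))) (.g (nat_lit 0) .nil .nil))) 
(.lf (nat_lit 74232) (.g (nat_lit 3711) (.e (nat_lit 1786) (nat_lit 119) (.e (nat_lit 516166) (nat_lit 12) (.e (nat_lit 450587) (nat_lit 10) (.e (nat_lit 573478) (nat_lit 12) (.e (nat_lit 65280) (nat_lit 57) .nil))))) .nil)))))) (.nd (nat_lit 3) (.nd (nat_lit 4) (.nd (nat_lit 5) (.nd (nat_lit 6) 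
(.lf (nat_lit 74116) (.g (nat_lit 1169) (.e (nat_lit 1786) (nat_lit 119) (.e (nat_lit 516097) (nat_lit 0) (.e (nat_lit 3605) (nat_lit 225) (.e (nat_lit 769792) (nat_lit 9) .nil)))) .nil)) 
(.lf (nat_lit 74180) (.g (nat_lit 1182) (.e (nat_lit 1786) (nat_lit 119) (.e (nat_lit 516131) (nat_lit 3) (.e (nat_lit 221194) (nat_lit 11) (.e (nat_lit 336026) (nat_lit 3) (.e (nat_lit 98380) (nat_lit 31) (.e (nat_lit 466945) (nat_lit 0) .nil)))))) (.g (nat_lit 4) .nil .nil)))) (.nd (nat_lit 6) 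
(.lf (nat_lit 74148) (.g (nat_lit 1778) (.e (nat_lit 1786) (nat_lit 119) (.e (nat_lit 516129) (nat_lit 3) (.e (nat_lit 221194) (nat_lit 11) (.e (nat_lit 336026) (nat_lit 3) (.e (nat_lit 98381) (nat_lit 31) (.e (nat_lit 466945) (nat_lit 0) .nil)))))) (.g (nat_lit 0) .nil .nil))) 
(.lf (nat_lit 74212) (.g (nat_lit 1626) (.e (nat_lit 1786) (nat_lit 119) (.e (nat_lit 516163) (nat_lit 11) (.e (nat_lit 442427) (nat_lit 23) (.e (nat_lit 204863) (nat_lit 27) .nil)))) .nil)))) (.nd (nat_lit 5) (.nd (nat_lit 6) 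
(.lf (nat_lit 74132) (.g (nat_lit 1390) (.e (nat_lit 1786) (nat_lit 119) (.e (nat_lit 516129) (nat_lit 3) (.e (nat_lit 221192) (nat_lit 11) (.e (nat_lit 336017) (nat_lit 3) (.e (nat_lit 98380) (nat_lit 31) (.e (nat_lit 466945) (nat_lit 0) .nil)))))) (.g (nat_lit 0) .nil .nil))) 
(.lf (nat_lit 74196) (.g (nat_lit 702) (.e (nat_lit 1786) (nat_lit 119) (.e (nat_lit 516146) (nat_lit 9) (.e (nat_lit 426436) (nat_lit 18) .nil))) .nil))) (.nd (nat_lit 6) 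
(.lf (nat_lit 74164) (.g (nat_lit 1186) (.e (nat_lit 1786) (nat_lit 119) (.e (nat_lit 516130) (nat_lit 3) (.e (nat_lit 221194) (nat_lit 11) (.e (nat_lit 336020) (nat_lit 3) .nil)))) .nil)) 
(.lf (nat_lit 74228) (.g (nat_lit 5460) (.e (nat_lit 1786) (nat_lit 119) (.e (nat_lit 516166) (nat_lit 12) (.e (nat_lit 450587) (nat_lit 10) (.e (nat_lit 573477) (nat_lit 12) (.e (nat_lit 57575) (nat_lit 55) (.e (nat_lit 778465) (nat_lit 11) (.e (nat_lit 24593) (nat_lit 0) .nil))))))) (.g (nat_lit 5) .nil .nil)))))) (.nd (nat_lit 4) (.nd (nat_lit 5) (.nd (nat_lit 6) 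
(.lf (nat_lit 74124) (.g (nat_lit 3091) (.e (nat_lit 1786) (nat_lit 119) (.e (nat_lit 516116) (nat_lit 1) (.e (nat_lit 164329) (nat_lit 230) (.e (nat_lit 163902) (nat_lit 12) (.e (nat_lit 426568) (nat_lit 34) (.e (nat_lit 393281) (nat_lit 23) (.e (nat_lit 426383) (nat_lit 15) .nil))))))) (.g (nat_lit 5) .nil .nil))) 
(.lf (nat_lit 74188) (.g (nat_lit 1925) (.e (nat_lit 1786) (nat_lit 119) (.e (nat_lit 516139) (nat_lit 7) (.e (nat_lit 409645) (nat_lit 18) (.e (nat_lit 303119) (nat_lit 3) .nil)))) .nil))) (.nd (nat_lit 6) 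
(.lf (nat_lit 74156) (.g (nat_lit 973) (.e (nat_lit 1786) (nat_lit 119) (.e (nat_lit 516130) (nat_lit 3) (.e (nat_lit 221193) (nat_lit 11) (.e (nat_lit 336025) (nat_lit 3) (.e (nat_lit 98381) (nat_lit 31) (.e (nat_lit 466945) (nat_lit 0) .nil)))))) (.g (nat_lit 4) .nil .nil))) 
(.lf (nat_lit 74220) (.g (nat_lit 3696) (.e (nat_lit 1786) (nat_lit 119) (.e (nat_lit 516166) (nat_lit 12) (.e (nat_lit 450587) (nat_lit 10) (.e (nat_lit 573456) (nat_lit 9) .nil)))) .nil)))) (.nd (nat_lit 5) (.nd (nat_lit 6) 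
(.lf (nat_lit 74140) (.g (nat_lit 1346) (.e (nat_lit 1786) (nat_lit 119) (.e (nat_lit 516129) (nat_lit 3) (.e (nat_lit 221193) (nat_lit 11) (.e (nat_lit 336026) (nat_lit 3) (.e (nat_lit 98381) (nat_lit 31) (.e (nat_lit 466945) (nat_lit 0) .nil)))))) (.g (nat_lit 4) .nil .nil))) 
(.lf (nat_lit 74204) (.g (nat_lit 5643) (.e (nat_lit 1786) (nat_lit 119) (.e (nat_lit 516151) (nat_lit 9) (.e (nat_lit 426211) (nat_lit 9) (.e (nat_lit 426125) (nat_lit 2) (.e (nat_lit 196677) (nat_lit 16) .nil))))) .nil))) (.nd (nat_lit 6) 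
(.lf (nat_lit 74172) (.g (nat_lit 1303) (.e (nat_lit 1786) (nat_lit 119) (.e (nat_lit 516131) (nat_lit 3) (.e (nat_lit 221193) (nat_lit 11) (.e (nat_lit 336010) (nat_lit 2) (.e (nat_lit 90178) (nat_lit 15) (.e (nat_lit 196352) (nat_lit 0) .nil)))))) (.g (nat_lit 5) .nil .nil))) 
(.lf (nat_lit 74236) (.g (nat_lit 5071) (.e (nat_lit 1786) (nat_lit 119) (.e (nat_lit 516166) (nat_lit 12) (.e (nat_lit 450588) (nat_lit 10) (.e (nat_lit 573471) (nat_lit 11) .nil)))) .nil))))))) (.nd (nat_lit 2) (.nd (nat_lit 3) (.nd (nat_lit 4) (.nd (nat_lit 5) (.nd (nat_lit 6) 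
(.lf (nat_lit 74114) (.g (nat_lit 2577) (.e (nat_lit 1785) (nat_lit 119) (.e (nat_lit 516179) (nat_lit 15) (.e (nat_lit 475177) (nat_lit 24) (.e (nat_lit 516146) (nat_lit 9) (.e (nat_lit 426438) (nat_lit 18) .nil))))) .nil)) 
(.lf (nat_lit 74178) (.g (nat_lit 1536) (.e (nat_lit 1786) (nat_lit 119) (.e (nat_lit 516131) (nat_lit 3) (.e (nat_lit 221193) (nat_lit 11) (.e (nat_lit 336027) (nat_lit 3) (.e (nat_lit 98381) (nat_lit 31) (.e (nat_lit 466945) (nat_lit 0) .nil)))))) (.g (nat_lit 0) .nil .nil)))) (.nd (nat_lit 6) 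
(.lf (nat_lit 74146) (.g (nat_lit 1350) (.e (nat_lit 1786) (nat_lit 119) (.e (nat_lit 516129) (nat_lit 3) (.e (nat_lit 221194) (nat_lit 11) (.e (nat_lit 336025) (nat_lit 3) .nil)))) .nil)) 
(.lf (nat_lit 74210) (.g (nat_lit 1781) (.e (nat_lit 1786) (nat_lit 119) (.e (nat_lit 516163) (nat_lit 11) (.e (nat_lit 442424) (nat_lit 22) (.e (nat_lit 196681) (nat_lit 17) .nil)))) .nil)))) (.nd (nat_lit 5) (.nd (nat_lit 6) 
(.lf (nat_lit 74130) (.g (nat_lit 963) (.e (nat_lit 1786) (nat_lit 119) (.e (nat_lit 516126) (nat_lit 2) (.e (nat_lit 213032) (nat_lit 11) (.e (nat_lit 24605) (nat_lit 2) (.e (nat_lit 90176) (nat_lit 15) (.e (nat_lit 196352) (nat_lit 0) .nil)))))) (.g (nat_lit 4) .nil .nil))) 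
(.lf (nat_lit 74194) (.g (nat_lit 2228) (.e (nat_lit 1786) (nat_lit 119) (.e (nat_lit 516146) (nat_lit 9) (.e (nat_lit 426131) (nat_lit 3) (.e (nat_lit 204837) (nat_lit 20) (.e (nat_lit 122624) (nat_lit 3) .nil))))) .nil))) (.nd (nat_lit 6) 
(.lf (nat_lit 74162) (.g (nat_lit 2146) (.e (nat_lit 1786) (nat_lit 119) (.e (nat_lit 516130) (nat_lit 3) (.e (nat_lit 221194) (nat_lit 11) (.e (nat_lit 336012) (nat_lit 2) (.e (nat_lit 90176) (nat_lit 15) (.e (nat_lit 196352) (nat_lit 0) .nil)))))) (.g (nat_lit 5) .nil .nil))) 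
(.lf (nat_lit 74226) (.g (nat_lit 5205) (.e (nat_lit 1786) (nat_lit 119) (.e (nat_lit 516166) (nat_lit 12) (.e (nat_lit 450587) (nat_lit 10) (.e (nat_lit 573477) (nat_lit 12) (.e (nat_lit 57574) (nat_lit 55) (.e (nat_lit 778465) (nat_lit 11) (.e (nat_lit 24593) (nat_lit 0) .nil))))))) (.g (nat_lit 5) .nil .nil)))))) (.nd (nat_lit 4) (.nd (nat_lit 5) (.nd (nat_lit 6) 
(.lf (nat_lit 74122) (.g (nat_lit 2363) (.e (nat_lit 1786) (nat_lit 119) (.e (nat_lit 516115) (nat_lit 1) (.e (nat_lit 164399) (nat_lit 256) (.e (nat_lit 57375) (nat_lit 2) (.e (nat_lit 90172) (nat_lit 14) (.e (nat_lit 180244) (nat_lit 5) (.e (nat_lit 532513) (nat_lit 3) (.e (nat_lit 114706) (nat_lit 20) .nil)))))))) (.g (nat_lit 4) .nil .nil))) 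
(.lf (nat_lit 74186) (.g (nat_lit 2064) (.e (nat_lit 1786) (nat_lit 119) (.e (nat_lit 516139) (nat_lit 7) (.e (nat_lit 409641) (nat_lit 17) (.e (nat_lit 294928) (nat_lit 2) .nil)))) .nil))) (.nd (nat_lit 6) 
(.lf (nat_lit 74154) (.g (nat_lit 802) (.e (nat_lit 1786) (nat_lit 119) (.e (nat_lit 516130) (nat_lit 3) (.e (nat_lit 221193) (nat_lit 11) (.e (nat_lit 336010) (nat_lit 2) (.e (nat_lit 90176) (nat_lit 15) (.e (nat_lit 196352) (nat_lit 0) .nil)))))) (.g (nat_lit 4) .nil .nil))) 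
(.lf (nat_lit 74218) (.g (nat_lit 893) (.e (nat_lit 1786) (nat_lit 119) (.e (nat_lit 516166) (nat_lit 12) (.e (nat_lit 450587) (nat_lit 10) .nil))) .nil)))) (.nd (nat_lit 5) (.nd (nat_lit 6) 
(.lf (nat_lit 74138) (.g (nat_lit 1479) (.e (nat_lit 1786) (nat_lit 119) (.e (nat_lit 516129) (nat_lit 3) (.e (nat_lit 221193) (nat_lit 11) (.e (nat_lit 336025) (nat_lit 3) (.e (nat_lit 98381) (nat_lit 31) (.e (nat_lit 466945) (nat_lit 0) .nil)))))) (.g (nat_lit 4) .nil .nil))) 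
(.lf (nat_lit 74202) (.g (nat_lit 1360) (.e (nat_lit 1786) (nat_lit 119) (.e (nat_lit 516151) (nat_lit 9) (.e (nat_lit 426211) (nat_lit 9) .nil))) .nil))) (.nd (nat_lit 6) 
(.lf (nat_lit 74170) (.g (nat_lit 1178) (.e (nat_lit 1786) (nat_lit 119) (.e (nat_lit 516131) (nat_lit 3) (.e (nat_lit 221192) (nat_lit 11) (.e (nat_lit 336017) (nat_lit 3) (.e (nat_lit 98381) (nat_lit 31) (.e (nat_lit 466945) (nat_lit 0) .nil)))))) (.g (nat_lit 5) .nil .nil))) 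
(.lf (nat_lit 74234) (.g (nat_lit 4803) (.e (nat_lit 1786) (nat_lit 119) (.e (nat_lit 516166) (nat_lit 12) (.e (nat_lit 450588) (nat_lit 10) (.e (nat_lit 573452) (nat_lit 9) .nil)))) .nil)))))) (.nd (nat_lit 3) (.nd (nat_lit 4) (.nd (nat_lit 5) (.nd (nat_lit 6) 
(.lf (nat_lit 74118) (.g (nat_lit 2594) (.e (nat_lit 1786) (nat_lit 119) (.e (nat_lit 516097) (nat_lit 0) (.e (nat_lit 3616) (nat_lit 226) (.e (nat_lit 770073) (nat_lit 9) (.e (nat_lit 73746) (nat_lit 3) (.e (nat_lit 516176) (nat_lit 14) (.e (nat_lit 466945) (nat_lit 0) .nil))))))) (.g (nat_lit 6) .nil .nil))) 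
(.lf (nat_lit 74182) (.g (nat_lit 1642) (.e (nat_lit 1786) (nat_lit 119) (.e (nat_lit 516131) (nat_lit 3) (.e (nat_lit 221194) (nat_lit 11) (.e (nat_lit 336027) (nat_lit 3) (.e (nat_lit 98380) (nat_lit 31) .nil))))) .nil))) (.nd (nat_lit 6) 
(.lf (nat_lit 74150) (.g (nat_lit 2175) (.e (nat_lit 1786) (nat_lit 119) (.e (nat_lit 516129) (nat_lit 3) (.e (nat_lit 221194) (nat_lit 11) (.e (nat_lit 336027) (nat_lit 3) (.e (nat_lit 98381) (nat_lit 31) (.e (nat_lit 466945) (nat_lit 0) .nil)))))) (.g (nat_lit 0) .nil .nil))) 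
(.lf (nat_lit 74214) (.g (nat_lit 1702) (.e (nat_lit 1786) (nat_lit 119) (.e (nat_lit 516165) (nat_lit 12) (.e (nat_lit 450586) (nat_lit 10) (.e (nat_lit 573477) (nat_lit 12) .nil)))) .nil)))) (.nd (nat_lit 5) (.nd (nat_lit 6) 
(.lf (nat_lit 74134) (.g (nat_lit 1324) (.e (nat_lit 1786) (nat_lit 119) (.e (nat_lit 516129) (nat_lit 3) (.e (nat_lit 221193) (nat_lit 11) (.e (nat_lit 336010) (nat_lit 2) (.e (nat_lit 90176) (nat_lit 15) (.e (nat_lit 196352) (nat_lit 0) .nil)))))) (.g (nat_lit 4) .nil .nil))) 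
(.lf (nat_lit 74198) (.g (nat_lit 1539) (.e (nat_lit 1786) (nat_lit 119) (.e (nat_lit 516146) (nat_lit 9) (.e (nat_lit 426438) (nat_lit 18) (.e (nat_lit 98358) (nat_lit 26) .nil)))) .nil))) (.nd (nat_lit 6) 
(.lf (nat_lit 74166) (.g (nat_lit 1827) (.e (nat_lit 1786) (nat_lit 119) (.e (nat_lit 516130) (nat_lit 3) (.e (nat_lit 221194) (nat_lit 11) (.e (nat_lit 336026) (nat_lit 3) (.e (nat_lit 98381) (nat_lit 31) (.e (nat_lit 466945) (nat_lit 0) .nil)))))) (.g (nat_lit 5) .nil .nil))) 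
(.lf (nat_lit 74230) (.g (nat_lit 4098) (.e (nat_lit 1786) (nat_lit 119) (.e (nat_lit 516166) (nat_lit 12) (.e (nat_lit 450587) (nat_lit 10) (.e (nat_lit 573477) (nat_lit 12) (.e (nat_lit 65280) (nat_lit 57) .nil))))) .nil))))) (.nd (nat_lit 4) (.nd (nat_lit 5) (.nd (nat_lit 6) 
(.lf (nat_lit 74126) (.g (nat_lit 2166) (.e (nat_lit 1786) (nat_lit 119) (.e (nat_lit 516119) (nat_lit 1) (.e (nat_lit 164322) (nat_lit 230) (.e (nat_lit 163902) (nat_lit 12) (.e (nat_lit 426479) (nat_lit 27) .nil))))) .nil)) 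
(.lf (nat_lit 74190) (.g (nat_lit 1394) (.e (nat_lit 1786) (nat_lit 119) (.e (nat_lit 516139) (nat_lit 7) (.e (nat_lit 409647) (nat_lit 18) (.e (nat_lit 303118) (nat_lit 3) .nil)))) .nil))) (.nd (nat_lit 6) 
(.lf (nat_lit 74158) (.g (nat_lit 827) (.e (nat_lit 1786) (nat_lit 119) (.e (nat_lit 516130) (nat_lit 3) (.e (nat_lit 221193) (nat_lit 11) (.e (nat_lit 336026) (nat_lit 3) (.e (nat_lit 98381) (nat_lit 31) (.e (nat_lit 466945) (nat_lit 0) .nil)))))) (.g (nat_lit 4) .nil .nil))) 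
(.lf (nat_lit 74222) (.g (nat_lit 4450) (.e (nat_lit 1786) (nat_lit 119) (.e (nat_lit 516166) (nat_lit 12) (.e (nat_lit 450587) (nat_lit 10) (.e (nat_lit 573472) (nat_lit 12) .nil)))) .nil)))) (.nd (nat_lit 5) (.nd (nat_lit 6) 
(.lf (nat_lit 74142) (.g (nat_lit 1631) (.e (nat_lit 1786) (nat_lit 119) (.e (nat_lit 516129) (nat_lit 3) (.e (nat_lit 221193) (nat_lit 11) (.e (nat_lit 336027) (nat_lit 3) (.e (nat_lit 98381) (nat_lit 31) (.e (nat_lit 466945) (nat_lit 0) .nil)))))) (.g (nat_lit 4) .nil .nil))) 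
(.lf (nat_lit 74206) (.g (nat_lit 2152) (.e (nat_lit 1786) (nat_lit 119) (.e (nat_lit 516151) (nat_lit 9) (.e (nat_lit 426286) (nat_lit 10) .nil))) .nil))) (.nd (nat_lit 6) 
(.lf (nat_lit 74174) (.g (nat_lit 1423) (.e (nat_lit 1786) (nat_lit 119) (.e (nat_lit 516131) (nat_lit 3) (.e (nat_lit 221193) (nat_lit 11) (.e (nat_lit 336025) (nat_lit 3) (.e (nat_lit 98381) (nat_lit 31) (.e (nat_lit 466945) (nat_lit 0) .nil)))))) (.g (nat_lit 6) .nil .nil))) 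
(.lf (nat_lit 74238) (.g (nat_lit 4747) (.e (nat_lit 1786) (nat_lit 119) (.e (nat_lit 516166) (nat_lit 12) (.e (nat_lit 450588) (nat_lit 10) (.e (nat_lit 573473) (nat_lit 12) (.e (nat_lit 57348) (nat_lit 0) .nil))))) .nil)))))))) (.nd (nat_lit 1) (.nd (nat_lit 2) (.nd (nat_lit 3) (.nd (nat_lit 4) (.nd (nat_lit 5) (.nd (nat_lit 6) 
(.lf (nat_lit 74113) (.g (nat_lit 4982) (.e (nat_lit 1785) (nat_lit 119) (.e (nat_lit 516166) (nat_lit 12) (.e (nat_lit 450588) (nat_lit 10) (.e (nat_lit 573475) (nat_lit 12) .nil)))) .nil)) 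
(.lf (nat_lit 74177) (.g (nat_lit 1532) (.e (nat_lit 1786) (nat_lit 119) (.e (nat_lit 516131) (nat_lit 3) (.e (nat_lit 221193) (nat_lit 11) (.e (nat_lit 336027) (nat_lit 3) (.e (nat_lit 98380) (nat_lit 31) (.e (nat_lit 466945) (nat_lit 0) .nil)))))) (.g (nat_lit 0) .nil .nil)))) (.nd (nat_lit 6) 
(.lf (nat_lit 74145) (.g (nat_lit 2020) (.e (nat_lit 1786) (nat_lit 119) (.e (nat_lit 516129) (nat_lit 3) (.e (nat_lit 221194) (nat_lit 11) (.e (nat_lit 336012) (nat_lit 2) (.e (nat_lit 90176) (nat_lit 15) (.e (nat_lit 196352) (nat_lit 0) .nil)))))) (.g (nat_lit 5) .nil .nil))) 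
(.lf (nat_lit 74209) (.g (nat_lit 1778) (.e (nat_lit 1786) (nat_lit 119) (.e (nat_lit 516163) (nat_lit 11) (.e (nat_lit 442424) (nat_lit 22) (.e (nat_lit 196677) (nat_lit 16) .nil)))) .nil)))) (.nd (nat_lit 5) (.nd (nat_lit 6) 
(.lf (nat_lit 74129) (.g (nat_lit 1076) (.e (nat_lit 1786) (nat_lit 119) (.e (nat_lit 516120) (nat_lit 1) (.e (nat_lit 164332) (nat_lit 230) .nil))) .nil)) 
(.lf (nat_lit 74193) (.g (nat_lit 2495) (.e (nat_lit 1786) (nat_lit 119) (.e (nat_lit 516139) (nat_lit 7) (.e (nat_lit 409649) (nat_lit 18) (.e (nat_lit 303118) (nat_lit 3) (.e (nat_lit 204877) (nat_lit 31) .nil))))) .nil))) (.nd (nat_lit 6) 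
(.lf (nat_lit 74161) (.g (nat_lit 1527) (.e (nat_lit 1786) (nat_lit 119) (.e (nat_lit 516130) (nat_lit 3) (.e (nat_lit 221194) (nat_lit 11) (.e (nat_lit 336010) (nat_lit 2) (.e (nat_lit 90176) (nat_lit 15) (.e (nat_lit 196352) (nat_lit 0) .nil)))))) (.g (nat_lit 5) .nil .nil))) 
(.lf (nat_lit 74225) (.g (nat_lit 3479) (.e (nat_lit 1786) (nat_lit 119) (.e (nat_lit 516166) (nat_lit 12) (.e (nat_lit 450587) (nat_lit 10) (.e (nat_lit 573477) (nat_lit 12) .nil)))) .nil))))) (.nd (nat_lit 4) (.nd (nat_lit 5) (.nd (nat_lit 6) 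
(.lf (nat_lit 74121) (.g (nat_lit 3183) (.e (nat_lit 1786) (nat_lit 119) (.e (nat_lit 516115) (nat_lit 1) (.e (nat_lit 164399) (nat_lit 256) (.e (nat_lit 57373) (nat_lit 2) (.e (nat_lit 90174) (nat_lit 14) (.e (nat_lit 180243) (nat_lit 5) (.e (nat_lit 532513) (nat_lit 3) (.e (nat_lit 114706) (nat_lit 20) .nil)))))))) (.g (nat_lit 5) .nil .nil))) 
(.lf (nat_lit 74185) (.g (nat_lit 1085) (.e (nat_lit 1786) (nat_lit 119) (.e (nat_lit 516131) (nat_lit 3) (.e (nat_lit 221212) (nat_lit 22) (.e (nat_lit 196669) (nat_lit 14) .nil)))) .nil))) (.nd (nat_lit 6) 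
(.lf (nat_lit 74153) (.g (nat_lit 660) (.e (nat_lit 1786) (nat_lit 119) (.e (nat_lit 516130) (nat_lit 3) (.e (nat_lit 221191) (nat_lit 11) (.e (nat_lit 336017) (nat_lit 3) (.e (nat_lit 98381) (nat_lit 31) (.e (nat_lit 466945) (nat_lit 0) .nil)))))) (.g (nat_lit 4) .nil .nil))) 
(.lf (nat_lit 74217) (.g (nat_lit 3051) (.e (nat_lit 1786) (nat_lit 119) (.e (nat_lit 516166) (nat_lit 12) (.e (nat_lit 450563) (nat_lit 0) (.e (nat_lit 6420) (nat_lit 341) .nil)))) .nil)))) (.nd (nat_lit 5) (.nd (nat_lit 6) 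
(.lf (nat_lit 74137) (.g (nat_lit 1505) (.e (nat_lit 1786) (nat_lit 119) (.e (nat_lit 516129) (nat_lit 3) (.e (nat_lit 221193) (nat_lit 11) (.e (nat_lit 336025) (nat_lit 3) (.e (nat_lit 98380) (nat_lit 31) (.e (nat_lit 466945) (nat_lit 0) .nil)))))) (.g (nat_lit 4) .nil .nil))) 
(.lf (nat_lit 74201) (.g (nat_lit 2597) (.e (nat_lit 1786) (nat_lit 119) (.e (nat_lit 516146) (nat_lit 9) (.e (nat_lit 426438) (nat_lit 18) (.e (nat_lit 98384) (nat_lit 32) (.e (nat_lit 475169) (nat_lit 22) .nil))))) .nil))) (.nd (nat_lit 6) 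
(.lf (nat_lit 74169) (.g (nat_lit 1192) (.e (nat_lit 1786) (nat_lit 119) (.e (nat_lit 516131) (nat_lit 3) (.e (nat_lit 221192) (nat_lit 11) (.e (nat_lit 336017) (nat_lit 3) (.e (nat_lit 98380) (nat_lit 31) (.e (nat_lit 466945) (nat_lit 0) .nil)))))) (.g (nat_lit 5) .nil .nil))) 
(.lf (nat_lit 74233) (.g (nat_lit 670) (.e (nat_lit 1786) (nat_lit 119) (.e (nat_lit 516166) (nat_lit 12) (.e (nat_lit 450588) (nat_lit 10) .nil))) .nil)))))) (.nd (nat_lit 3) (.nd (nat_lit 4) (.nd (nat_lit 5) (.nd (nat_lit 6) 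
(.lf (nat_lit 74117) (.g (nat_lit 2797) (.e (nat_lit 1786) (nat_lit 119) (.e (nat_lit 516097) (nat_lit 0) (.e (nat_lit 3616) (nat_lit 226) (.e (nat_lit 770073) (nat_lit 9) (.e (nat_lit 73746) (nat_lit 3) (.e (nat_lit 516174) (nat_lit 14) (.e (nat_lit 466945) (nat_lit 0) .nil))))))) (.g (nat_lit 6) .nil .nil))) 
(.lf (nat_lit 74181) (.g (nat_lit 1172) (.e (nat_lit 1786) (nat_lit 119) (.e (nat_lit 516131) (nat_lit 3) (.e (nat_lit 221194) (nat_lit 11) (.e (nat_lit 336026) (nat_lit 3) (.e (nat_lit 98381) (nat_lit 31) (.e (nat_lit 466945) (nat_lit 0) .nil)))))) (.g (nat_lit 4) .nil .nil)))) (.nd (nat_lit 6) 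
(.lf (nat_lit 74149) (.g (nat_lit 2163) (.e (nat_lit 1786) (nat_lit 119) (.e (nat_lit 516129) (nat_lit 3) (.e (nat_lit 221194) (nat_lit 11) (.e (nat_lit 336027) (nat_lit 3) (.e (nat_lit 98380) (nat_lit 31) (.e (nat_lit 466945) (nat_lit 0) .nil)))))) (.g (nat_lit 0) .nil .nil))) 
(.lf (nat_lit 74213) (.g (nat_lit 1743) (.e (nat_lit 1786) (nat_lit 119) (.e (nat_lit 516165) (nat_lit 12) (.e (nat_lit 450586) (nat_lit 10) (.e (nat_lit 573475) (nat_lit 12) .nil)))) .nil)))) (.nd (nat_lit 5) (.nd (nat_lit 6) 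
(.lf (nat_lit 74133) (.g (nat_lit 1391) (.e (nat_lit 1786) (nat_lit 119) (.e (nat_lit 516129) (nat_lit 3) (.e (nat_lit 221192) (nat_lit 11) (.e (nat_lit 336017) (nat_lit 3) (.e (nat_lit 98381) (nat_lit 31) (.e (nat_lit 466945) (nat_lit 0) .nil)))))) (.g (nat_lit 0) .nil .nil))) 
(.lf (nat_lit 74197) (.g (nat_lit 2267) (.e (nat_lit 1786) (nat_lit 119) (.e (nat_lit 516146) (nat_lit 9) (.e (nat_lit 426438) (nat_lit 18) (.e (nat_lit 98356) (nat_lit 26) (.e (nat_lit 426438) (nat_lit 18) .nil))))) .nil))) (.nd (nat_lit 6) 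
(.lf (nat_lit 74165) (.g (nat_lit 1839) (.e (nat_lit 1786) (nat_lit 119) (.e (nat_lit 516130) (nat_lit 3) (.e (nat_lit 221194) (nat_lit 11) (.e (nat_lit 336026) (nat_lit 3) (.e (nat_lit 98380) (nat_lit 31) (.e (nat_lit 466945) (nat_lit 0) .nil)))))) (.g (nat_lit 5) .nil .nil))) 
(.lf (nat_lit 74229) (.g (nat_lit 5134) (.e (nat_lit 1786) (nat_lit 119) (.e (nat_lit 516166) (nat_lit 12) (.e (nat_lit 450587) (nat_lit 10) (.e (nat_lit 573477) (nat_lit 12) (.e (nat_lit 57575) (nat_lit 55) (.e (nat_lit 778466) (nat_lit 11) (.e (nat_lit 24593) (nat_lit 0) .nil))))))) (.g (nat_lit 5) .nil .nil)))))) (.nd (nat_lit 4) (.nd (nat_lit 5) (.nd (nat_lit 6) 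
(.lf (nat_lit 74125) (.g (nat_lit 2087) (.e (nat_lit 1786) (nat_lit 119) (.e (nat_lit 516117) (nat_lit 1) (.e (nat_lit 164329) (nat_lit 230) (.e (nat_lit 163902) (nat_lit 12) (.e (nat_lit 426479) (nat_lit 27) (.e (nat_lit 336430) (nat_lit 29) (.e (nat_lit 450304) (nat_lit 0) .nil))))))) (.g (nat_lit 5) .nil .nil))) 
(.lf (nat_lit 74189) (.g (nat_lit 2544) (.e (nat_lit 1786) (nat_lit 119) (.e (nat_lit 516139) (nat_lit 7) (.e (nat_lit 409646) (nat_lit 18) (.e (nat_lit 303119) (nat_lit 3) (.e (nat_lit 204876) (nat_lit 31) (.e (nat_lit 376853) (nat_lit 20) .nil)))))) (.g (nat_lit 4) .nil .nil)))) (.nd (nat_lit 6) 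
(.lf (nat_lit 74157) (.g (nat_lit 838) (.e (nat_lit 1786) (nat_lit 119) (.e (nat_lit 516130) (nat_lit 3) (.e (nat_lit 221193) (nat_lit 11) (.e (nat_lit 336026) (nat_lit 3) (.e (nat_lit 98380) (nat_lit 31) (.e (nat_lit 466945) (nat_lit 0) .nil)))))) (.g (nat_lit 4) .nil .nil))) 
(.lf (nat_lit 74221) (.g (nat_lit 3670) (.e (nat_lit 1786) (nat_lit 119) (.e (nat_lit 516166) (nat_lit 12) (.e (nat_lit 450587) (nat_lit 10) (.e (nat_lit 573457) (nat_lit 9) .nil)))) .nil)))) (.nd (nat_lit 5) (.nd (nat_lit 6) 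
(.lf (nat_lit 74141) (.g (nat_lit 1622) (.e (nat_lit 1786) (nat_lit 119) (.e (nat_lit 516129) (nat_lit 3) (.e (nat_lit 221193) (nat_lit 11) (.e (nat_lit 336027) (nat_lit 3) (.e (nat_lit 98380) (nat_lit 31) (.e (nat_lit 466945) (nat_lit 0) .nil)))))) (.g (nat_lit 4) .nil .nil))) 
(.lf (nat_lit 74205) (.g (nat_lit 3052) (.e (nat_lit 1786) (nat_lit 119) (.e (nat_lit 516151) (nat_lit 9) (.e (nat_lit 426211) (nat_lit 9) (.e (nat_lit 426140) (nat_lit 3) .nil)))) .nil))) (.nd (nat_lit 6) 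
(.lf (nat_lit 74173) (.g (nat_lit 1459) (.e (nat_lit 1786) (nat_lit 119) (.e (nat_lit 516131) (nat_lit 3) (.e (nat_lit 221193) (nat_lit 11) (.e (nat_lit 336025) (nat_lit 3) (.e (nat_lit 98380) (nat_lit 31) (.e (nat_lit 466945) (nat_lit 0) .nil)))))) (.g (nat_lit 6) .nil .nil))) 
(.lf (nat_lit 74237) (.g (nat_lit 4104) (.e (nat_lit 1786) (nat_lit 119) (.e (nat_lit 516166) (nat_lit 12) (.e (nat_lit 450588) (nat_lit 10) (.e (nat_lit 573473) (nat_lit 12) .nil)))) .nil))))))) (.nd (nat_lit 2) (.nd (nat_lit 3) (.nd (nat_lit 4) (.nd (nat_lit 5) (.nd (nat_lit 6) 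
(.lf (nat_lit 74115) (.g (nat_lit 2583) (.e (nat_lit 1785) (nat_lit 119) (.e (nat_lit 516179) (nat_lit 15) (.e (nat_lit 475177) (nat_lit 24) (.e (nat_lit 516150) (nat_lit 9) (.e (nat_lit 426438) (nat_lit 18) .nil))))) .nil)) 
(.lf (nat_lit 74179) (.g (nat_lit 1156) (.e (nat_lit 1786) (nat_lit 119) (.e (nat_lit 516131) (nat_lit 3) (.e (nat_lit 221194) (nat_lit 11) (.e (nat_lit 336010) (nat_lit 2) (.e (nat_lit 90178) (nat_lit 15) (.e (nat_lit 196352) (nat_lit 0) .nil)))))) (.g (nat_lit 4) .nil .nil)))) (.nd (nat_lit 6) 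
(.lf (nat_lit 74147) (.g (nat_lit 1786) (.e (nat_lit 1786) (nat_lit 119) (.e (nat_lit 516129) (nat_lit 3) (.e (nat_lit 221194) (nat_lit 11) (.e (nat_lit 336026) (nat_lit 3) (.e (nat_lit 98380) (nat_lit 31) (.e (nat_lit 466945) (nat_lit 0) .nil)))))) (.g (nat_lit 0) .nil .nil))) 
(.lf (nat_lit 74211) (.g (nat_lit 1352) (.e (nat_lit 1786) (nat_lit 119) (.e (nat_lit 516163) (nat_lit 11) (.e (nat_lit 442427) (nat_lit 23) (.e (nat_lit 204821) (nat_lit 17) .nil)))) .nil)))) (.nd (nat_lit 5) (.nd (nat_lit 6) 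
(.lf (nat_lit 74131) (.g (nat_lit 1284) (.e (nat_lit 1786) (nat_lit 119) (.e (nat_lit 516127) (nat_lit 2) (.e (nat_lit 213032) (nat_lit 11) (.e (nat_lit 24605) (nat_lit 2) (.e (nat_lit 90176) (nat_lit 15) (.e (nat_lit 196352) (nat_lit 0) .nil)))))) (.g (nat_lit 5) .nil .nil))) 
(.lf (nat_lit 74195) (.g (nat_lit 1501) (.e (nat_lit 1786) (nat_lit 119) (.e (nat_lit 516146) (nat_lit 9) (.e (nat_lit 426131) (nat_lit 3) (.e (nat_lit 204838) (nat_lit 20) .nil)))) .nil))) (.nd (nat_lit 6) 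
(.lf (nat_lit 74163) (.g (nat_lit 2245) (.e (nat_lit 1786) (nat_lit 119) (.e (nat_lit 516130) (nat_lit 3) (.e (nat_lit 221194) (nat_lit 11) (.e (nat_lit 336012) (nat_lit 2) (.e (nat_lit 90178) (nat_lit 15) (.e (nat_lit 196352) (nat_lit 0) .nil)))))) (.g (nat_lit 5) .nil .nil))) 
(.lf (nat_lit 74227) (.g (nat_lit 4331) (.e (nat_lit 1786) (nat_lit 119) (.e (nat_lit 516166) (nat_lit 12) (.e (nat_lit 450587) (nat_lit 10) (.e (nat_lit 573477) (nat_lit 12) (.e (nat_lit 57575) (nat_lit 55) (.e (nat_lit 778463) (nat_lit 11) (.e (nat_lit 24593) (nat_lit 0) .nil))))))) (.g (nat_lit 4) .nil .nil)))))) (.nd (nat_lit 4) (.nd (nat_lit 5) (.nd (nat_lit 6) 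
(.lf (nat_lit 74123) (.g (nat_lit 2060) (.e (nat_lit 1786) (nat_lit 119) (.e (nat_lit 516115) (nat_lit 1) (.e (nat_lit 164399) (nat_lit 256) (.e (nat_lit 57375) (nat_lit 2) (.e (nat_lit 90174) (nat_lit 14) (.e (nat_lit 180243) (nat_lit 5) (.e (nat_lit 532513) (nat_lit 3) (.e (nat_lit 114706) (nat_lit 20) .nil)))))))) (.g (nat_lit 4) .nil .nil))) 
(.lf (nat_lit 74187) (.g (nat_lit 635) (.e (nat_lit 1786) (nat_lit 119) (.e (nat_lit 516139) (nat_lit 7) (.e (nat_lit 409643) (nat_lit 18) .nil))) .nil))) (.nd (nat_lit 6) 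
(.lf (nat_lit 74155) (.g (nat_lit 1003) (.e (nat_lit 1786) (nat_lit 119) (.e (nat_lit 516130) (nat_lit 3) (.e (nat_lit 221193) (nat_lit 11) (.e (nat_lit 336025) (nat_lit 3) (.e (nat_lit 98380) (nat_lit 31) (.e (nat_lit 466945) (nat_lit 0) .nil)))))) (.g (nat_lit 4) .nil .nil))) 
(.lf (nat_lit 74219) (.g (nat_lit 3511) (.e (nat_lit 1786) (nat_lit 119) (.e (nat_lit 516166) (nat_lit 12) (.e (nat_lit 450587) (nat_lit 10) (.e (nat_lit 573454) (nat_lit 9) .nil)))) .nil)))) (.nd (nat_lit 5) (.nd (nat_lit 6) 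
(.lf (nat_lit 74139) (.g (nat_lit 1354) (.e (nat_lit 1786) (nat_lit 119) (.e (nat_lit 516129) (nat_lit 3) (.e (nat_lit 221193) (nat_lit 11) (.e (nat_lit 336026) (nat_lit 3) (.e (nat_lit 98380) (nat_lit 31) (.e (nat_lit 466945) (nat_lit 0) .nil)))))) (.g (nat_lit 4) .nil .nil))) 
(.lf (nat_lit 74203) (.g (nat_lit 3006) (.e (nat_lit 1786) (nat_lit 119) (.e (nat_lit 516151) (nat_lit 9) (.e (nat_lit 426211) (nat_lit 9) (.e (nat_lit 426125) (nat_lit 2) .nil)))) .nil))) (.nd (nat_lit 6) 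
(.lf (nat_lit 74171) (.g (nat_lit 1188) (.e (nat_lit 1786) (nat_lit 119) (.e (nat_lit 516131) (nat_lit 3) (.e (nat_lit 221193) (nat_lit 11) (.e (nat_lit 336010) (nat_lit 2) (.e (nat_lit 90176) (nat_lit 15) (.e (nat_lit 196352) (nat_lit 0) .nil)))))) (.g (nat_lit 5) .nil .nil))) 
(.lf (nat_lit 74235) (.g (nat_lit 5430) (.e (nat_lit 1786) (nat_lit 119) (.e (nat_lit 516166) (nat_lit 12) (.e (nat_lit 450588) (nat_lit 10) (.e (nat_lit 573457) (nat_lit 9) .nil)))) .nil)))))) (.nd (nat_lit 3) (.nd (nat_lit 4) (.nd (nat_lit 5) (.nd (nat_lit 6) 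
(.lf (nat_lit 74119) (.g (nat_lit 2595) (.e (nat_lit 1786) (nat_lit 119) (.e (nat_lit 516115) (nat_lit 1) (.e (nat_lit 164399) (nat_lit 256) (.e (nat_lit 57372) (nat_lit 2) (.e (nat_lit 90172) (nat_lit 14) (.e (nat_lit 180244) (nat_lit 5) (.e (nat_lit 532513) (nat_lit 3) (.e (nat_lit 114706) (nat_lit 20) .nil)))))))) (.g (nat_lit 4) .nil .nil))) 
(.lf (nat_lit 74183) (.g (nat_lit 1646) (.e (nat_lit 1786) (nat_lit 119) (.e (nat_lit 516131) (nat_lit 3) (.e (nat_lit 221194) (nat_lit 11) (.e (nat_lit 336027) (nat_lit 3) (.e (nat_lit 98381) (nat_lit 31) .nil))))) .nil))) (.nd (nat_lit 6) 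
(.lf (nat_lit 74151) (.g (nat_lit 1073) (.e (nat_lit 1786) (nat_lit 119) (.e (nat_lit 516129) (nat_lit 3) (.e (nat_lit 229120) (nat_lit 11) (.e (nat_lit 336019) (nat_lit 3) (.e (nat_lit 98381) (nat_lit 31) (.e (nat_lit 466945) (nat_lit 0) .nil)))))) (.g (nat_lit 4) .nil .nil))) 
(.lf (nat_lit 74215) (.g (nat_lit 1162) (.e (nat_lit 1786) (nat_lit 119) (.e (nat_lit 516166) (nat_lit 12) (.e (nat_lit 450562) (nat_lit 0) .nil))) .nil)))) (.nd (nat_lit 5) (.nd (nat_lit 6) 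
(.lf (nat_lit 74135) (.g (nat_lit 1557) (.e (nat_lit 1786) (nat_lit 119) (.e (nat_lit 516129) (nat_lit 3) (.e (nat_lit 221193) (nat_lit 11) (.e (nat_lit 336012) (nat_lit 2) (.e (nat_lit 90176) (nat_lit 15) (.e (nat_lit 196352) (nat_lit 0) .nil)))))) (.g (nat_lit 4) .nil .nil))) 
(.lf (nat_lit 74199) (.g (nat_lit 2470) (.e (nat_lit 1786) (nat_lit 119) (.e (nat_lit 516146) (nat_lit 9) (.e (nat_lit 426438) (nat_lit 18) (.e (nat_lit 98358) (nat_lit 26) (.e (nat_lit 426428) (nat_lit 17) .nil))))) .nil))) (.nd (nat_lit 6) 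
(.lf (nat_lit 74167) (.g (nat_lit 1139) (.e (nat_lit 1786) (nat_lit 119) (.e (nat_lit 516131) (nat_lit 3) (.e (nat_lit 221191) (nat_lit 11) (.e (nat_lit 336017) (nat_lit 3) (.e (nat_lit 98380) (nat_lit 31) (.e (nat_lit 466945) (nat_lit 0) .nil)))))) (.g (nat_lit 0) .nil .nil))) 
(.lf (nat_lit 74231) (.g (nat_lit 3460) (.e (nat_lit 1786) (nat_lit 119) (.e (nat_lit 516166) (nat_lit 12) (.e (nat_lit 450587) (nat_lit 10) (.e (nat_lit 573478) (nat_lit 12) .nil)))) .nil))))) (.nd (nat_lit 4) (.nd (nat_lit 5) (.nd (nat_lit 6) 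
(.lf (nat_lit 74127) (.g (nat_lit 602) (.e (nat_lit 1786) (nat_lit 119) (.e (nat_lit 516119) (nat_lit 1) (.e (nat_lit 164326) (nat_lit 230) .nil))) .nil)) 
(.lf (nat_lit 74191) (.g (nat_lit 1628) (.e (nat_lit 1786) (nat_lit 119) (.e (nat_lit 516139) (nat_lit 7) (.e (nat_lit 409648) (nat_lit 18) (.e (nat_lit 303118) (nat_lit 3) .nil)))) .nil))) (.nd (nat_lit 6) 
(.lf (nat_lit 74159) (.g (nat_lit 1200) (.e (nat_lit 1786) (nat_lit 119) (.e (nat_lit 516130) (nat_lit 3) (.e (nat_lit 221193) (nat_lit 11) (.e (nat_lit 336027) (nat_lit 3) (.e (nat_lit 98380) (nat_lit 31) (.e (nat_lit 466945) (nat_lit 0) .nil)))))) (.g (nat_lit 4) .nil .nil))) 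
(.lf (nat_lit 74223) (.g (nat_lit 5134) (.e (nat_lit 1786) (nat_lit 119) (.e (nat_lit 516166) (nat_lit 12) (.e (nat_lit 450587) (nat_lit 10) (.e (nat_lit 573473) (nat_lit 12) .nil)))) .nil)))) (.nd (nat_lit 5) (.nd (nat_lit 6) 
(.lf (nat_lit 74143) (.g (nat_lit 1574) (.e (nat_lit 1786) (nat_lit 119) (.e (nat_lit 516129) (nat_lit 3) (.e (nat_lit 221194) (nat_lit 11) (.e (nat_lit 336010) (nat_lit 2) (.e (nat_lit 90176) (nat_lit 15) (.e (nat_lit 196352) (nat_lit 0) .nil)))))) (.g (nat_lit 5) .nil .nil))) 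
(.lf (nat_lit 74207) (.g (nat_lit 513) (.e (nat_lit 1786) (nat_lit 119) (.e (nat_lit 516163) (nat_lit 11) (.e (nat_lit 442424) (nat_lit 22) .nil))) .nil))) (.nd (nat_lit 6) 
(.lf (nat_lit 74175) (.g (nat_lit 1233) (.e (nat_lit 1786) (nat_lit 119) (.e (nat_lit 516131) (nat_lit 3) (.e (nat_lit 221193) (nat_lit 11) (.e (nat_lit 336026) (nat_lit 3) (.e (nat_lit 98380) (nat_lit 31) (.e (nat_lit 466945) (nat_lit 0) .nil)))))) (.g (nat_lit 0) .nil .nil))) 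
(.lf (nat_lit 74239) (.g (nat_lit 4745) (.e (nat_lit 1786) (nat_lit 119) (.e (nat_lit 516166) (nat_lit 12) (.e (nat_lit 450588) (nat_lit 10) (.e (nat_lit 573473) (nat_lit 12) (.e (nat_lit 57353) (nat_lit 0) .nil))))) .nil)))))))))

noncomputable def tv1004 : DT := (.nd (nat_lit 0) (.nd (nat_lit 1) (.nd (nat_lit 2) (.nd (nat_lit 3) (.nd (nat_lit 4) (.nd (nat_lit 5) (.nd (nat_lit 6) 
(.lf (nat_lit 74240) (.g (nat_lit 5045) (.e (nat_lit 1786) (nat_lit 119) (.e (nat_lit 516166) (nat_lit 12) (.e (nat_lit 450588) (nat_lit 10) (.e (nat_lit 573473) (nat_lit 12) (.e (nat_lit 65280) (nat_lit 57) (.e (nat_lit 794635) (nat_lit 11) (.e (nat_lit 335958) (nat_lit 0) .nil))))))) (.g (nat_lit 4) .nil .nil))) 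
(.lf (nat_lit 74304) (.g (nat_lit 1817) (.e (nat_lit 1786) (nat_lit 119) (.e (nat_lit 516195) (nat_lit 26) (.e (nat_lit 336021) (nat_lit 3) (.e (nat_lit 98313) (nat_lit 9) (.e (nat_lit 336021) (nat_lit 3) .nil))))) .nil))) (.nd (nat_lit 6) 
(.lf (nat_lit 74272) (.g (nat_lit 1918) (.e (nat_lit 1786) (nat_lit 119) (.e (nat_lit 516177) (nat_lit 14) (.e (nat_lit 466974) (nat_lit 22) (.e (nat_lit 196681) (nat_lit 17) (.e (nat_lit 131089) (nat_lit 1) (.e (nat_lit 57930) (nat_lit 282) (.e (nat_lit 164075) (nat_lit 61) .nil))))))) (.g (nat_lit 6) .nil .nil))) 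
(.lf (nat_lit 74336) (.g (nat_lit 2152) (.e (nat_lit 1787) (nat_lit 119) (.e (nat_lit 516151) (nat_lit 9) (.e (nat_lit 426286) (nat_lit 10) .nil))) .nil)))) (.nd (nat_lit 5) (.nd (nat_lit 6) 
(.lf (nat_lit 74256) (.g (nat_lit 2616) (.e (nat_lit 1786) (nat_lit 119) (.e (nat_lit 516174) (nat_lit 14) (.e (nat_lit 466977) (nat_lit 22) (.e (nat_lit 196681) (nat_lit 17) (.e (nat_lit 131089) (nat_lit 1) .nil))))) .nil)) 
(.lf (nat_lit 74320) (.g (nat_lit 2854) (.e (nat_lit 1787) (nat_lit 119) (.e (nat_lit 516115) (nat_lit 1) (.e (nat_lit 164399) (nat_lit 256) (.e (nat_lit 57373) (nat_lit 2) (.e (nat_lit 90174) (nat_lit 14) (.e (nat_lit 180243) (nat_lit 5) (.e (nat_lit 532515) (nat_lit 3) (.e (nat_lit 114701) (nat_lit 20) .nil)))))))) (.g (nat_lit 5) .nil .nil)))) (.nd (nat_lit 6) 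
(.lf (nat_lit 74288) (.g (nat_lit 3073) (.e (nat_lit 1786) (nat_lit 119) (.e (nat_lit 516185) (nat_lit 16) (.e (nat_lit 491558) (nat_lit 10) (.e (nat_lit 344117) (nat_lit 21) (.e (nat_lit 516106) (nat_lit 0) .nil))))) .nil)) 
(.lf (nat_lit 74352) (.g (nat_lit 2624) (.e (nat_lit 1788) (nat_lit 119) (.e (nat_lit 516098) (nat_lit 0) (.e (nat_lit 7591) (nat_lit 407) (.e (nat_lit 73747) (nat_lit 3) (.e (nat_lit 516182) (nat_lit 15) (.e (nat_lit 475211) (nat_lit 41) (.e (nat_lit 712706) (nat_lit 0) .nil))))))) (.g (nat_lit 5) .nil .nil)))))) (.nd (nat_lit 4) (.nd (nat_lit 5) (.nd (nat_lit 6) 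
(.lf (nat_lit 74248) (.g (nat_lit 6126) (.e (nat_lit 1786) (nat_lit 119) (.e (nat_lit 516166) (nat_lit 12) (.e (nat_lit 450588) (nat_lit 10) (.e (nat_lit 573475) (nat_lit 12) (.e (nat_lit 57574) (nat_lit 55) (.e (nat_lit 778466) (nat_lit 11) (.e (nat_lit 24593) (nat_lit 0) .nil))))))) (.g (nat_lit 6) .nil .nil))) 
(.lf (nat_lit 74312) (.g (nat_lit 2152) (.e (nat_lit 1786) (nat_lit 119) (.e (nat_lit 516195) (nat_lit 26) (.e (nat_lit 336088) (nat_lit 9) (.e (nat_lit 336456) (nat_lit 34) (.e (nat_lit 491264) (nat_lit 3) .nil))))) .nil))) (.nd (nat_lit 6) 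
(.lf (nat_lit 74280) (.g (nat_lit 2478) (.e (nat_lit 1786) (nat_lit 119) (.e (nat_lit 516179) (nat_lit 15) (.e (nat_lit 475177) (nat_lit 24) (.e (nat_lit 516146) (nat_lit 9) (.e (nat_lit 426438) (nat_lit 18) (.e (nat_lit 98358) (nat_lit 26) (.e (nat_lit 426350) (nat_lit 15) .nil))))))) (.g (nat_lit 4) .nil .nil))) 
(.lf (nat_lit 74344) (.g (nat_lit 4791) (.e (nat_lit 1787) (nat_lit 119) (.e (nat_lit 516166) (nat_lit 12) (.e (nat_lit 450588) (nat_lit 10) (.e (nat_lit 573473) (nat_lit 12) .nil)))) .nil)))) (.nd (nat_lit 5) (.nd (nat_lit 6) 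
(.lf (nat_lit 74264) (.g (nat_lit 936) (.e (nat_lit 1786) (nat_lit 119) (.e (nat_lit 516176) (nat_lit 14) (.e (nat_lit 466972) (nat_lit 21) .nil))) .nil)) 
(.lf (nat_lit 74328) (.g (nat_lit 2242) (.e (nat_lit 1787) (nat_lit 119) (.e (nat_lit 516120) (nat_lit 1) (.e (nat_lit 164329) (nat_lit 230) (.e (nat_lit 163902) (nat_lit 12) (.e (nat_lit 426566) (nat_lit 34) .nil))))) .nil))) (.nd (nat_lit 6) 
(.lf (nat_lit 74296) (.g (nat_lit 2223) (.e (nat_lit 1786) (nat_lit 119) (.e (nat_lit 516185) (nat_lit 16) (.e (nat_lit 491560) (nat_lit 10) (.e (nat_lit 344130) (nat_lit 26) .nil)))) .nil)) 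
(.lf (nat_lit 74360) (.g (nat_lit 2360) (.e (nat_lit 1788) (nat_lit 119) (.e (nat_lit 516098) (nat_lit 0) (.e (nat_lit 7593) (nat_lit 407) (.e (nat_lit 73753) (nat_lit 8) (.e (nat_lit 557072) (nat_lit 9) (.e (nat_lit 7936) (nat_lit 23) (.e (nat_lit 352294) (nat_lit 20) .nil))))))) (.g (nat_lit 5) .nil .nil))))))) (.nd (nat_lit 3) (.nd (nat_lit 4) (.nd (nat_lit 5) (.nd (nat_lit 6) 
(.lf (nat_lit 74244) (.g (nat_lit 4712) (.e (nat_lit 1786) (nat_lit 119) (.e (nat_lit 516166) (nat_lit 12) (.e (nat_lit 450588) (nat_lit 10) (.e (nat_lit 573475) (nat_lit 12) (.e (nat_lit 57348) (nat_lit 0) .nil))))) .nil)) 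
(.lf (nat_lit 74308) (.g (nat_lit 1228) (.e (nat_lit 1786) (nat_lit 119) (.e (nat_lit 516195) (nat_lit 26) (.e (nat_lit 336027) (nat_lit 3) (.e (nat_lit 98313) (nat_lit 9) .nil)))) .nil))) (.nd (nat_lit 6) 
(.lf (nat_lit 74276) (.g (nat_lit 3067) (.e (nat_lit 1786) (nat_lit 119) (.e (nat_lit 516177) (nat_lit 14) (.e (nat_lit 466977) (nat_lit 22) (.e (nat_lit 196681) (nat_lit 17) (.e (nat_lit 131089) (nat_lit 1) (.e (nat_lit 57931) (nat_lit 282) (.e (nat_lit 164075) (nat_lit 61) .nil))))))) (.g (nat_lit 6) .nil .nil))) 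
(.lf (nat_lit 74340) (.g (nat_lit 4342) (.e (nat_lit 1787) (nat_lit 119) (.e (nat_lit 516166) (nat_lit 12) (.e (nat_lit 450587) (nat_lit 10) (.e (nat_lit 573454) (nat_lit 9) .nil)))) .nil)))) (.nd (nat_lit 5) (.nd (nat_lit 6) 
(.lf (nat_lit 74260) (.g (nat_lit 2572) (.e (nat_lit 1786) (nat_lit 119) (.e (nat_lit 516175) (nat_lit 14) (.e (nat_lit 466977) (nat_lit 22) (.e (nat_lit 196681) (nat_lit 17) (.e (nat_lit 131089) (nat_lit 1) (.e (nat_lit 57930) (nat_lit 282) (.e (nat_lit 164075) (nat_lit 61) .nil))))))) (.g (nat_lit 6) .nil .nil))) 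
(.lf (nat_lit 74324) (.g (nat_lit 2712) (.e (nat_lit 1787) (nat_lit 119) (.e (nat_lit 516117) (nat_lit 1) (.e (nat_lit 164329) (nat_lit 230) (.e (nat_lit 163902) (nat_lit 12) (.e (nat_lit 426568) (nat_lit 34) (.e (nat_lit 393271) (nat_lit 23) (.e (nat_lit 426361) (nat_lit 15) .nil))))))) (.g (nat_lit 4) .nil .nil)))) (.nd (nat_lit 6) 
(.lf (nat_lit 74292) (.g (nat_lit 2856) (.e (nat_lit 1786) (nat_lit 119) (.e (nat_lit 516185) (nat_lit 16) (.e (nat_lit 491560) (nat_lit 10) (.e (nat_lit 352000) (nat_lit 19) .nil)))) .nil)) 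
(.lf (nat_lit 74356) (.g (nat_lit 2234) (.e (nat_lit 1788) (nat_lit 119) (.e (nat_lit 516098) (nat_lit 0) (.e (nat_lit 7593) (nat_lit 407) (.e (nat_lit 73746) (nat_lit 3) (.e (nat_lit 516181) (nat_lit 15) (.e (nat_lit 475209) (nat_lit 41) (.e (nat_lit 712706) (nat_lit 0) .nil))))))) (.g (nat_lit 4) .nil .nil)))))) (.nd (nat_lit 4) (.nd (nat_lit 5) (.nd (nat_lit 6) 
(.lf (nat_lit 74252) (.g (nat_lit 1393) (.e (nat_lit 1786) (nat_lit 119) (.e (nat_lit 516169) (nat_lit 13) (.e (nat_lit 458789) (nat_lit 23) (.e (nat_lit 532515) (nat_lit 3) (.e (nat_lit 122624) (nat_lit 3) .nil))))) .nil)) 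
(.lf (nat_lit 74316) (.g (nat_lit 1453) (.e (nat_lit 1786) (nat_lit 119) (.e (nat_lit 516195) (nat_lit 26) (.e (nat_lit 336223) (nat_lit 13) (.e (nat_lit 401152) (nat_lit 15) .nil)))) .nil))) (.nd (nat_lit 6) 
(.lf (nat_lit 74284) (.g (nat_lit 1802) (.e (nat_lit 1786) (nat_lit 119) (.e (nat_lit 516185) (nat_lit 16) (.e (nat_lit 491546) (nat_lit 9) (.e (nat_lit 336028) (nat_lit 3) .nil)))) .nil)) 
(.lf (nat_lit 74348) (.g (nat_lit 2453) (.e (nat_lit 1787) (nat_lit 119) (.e (nat_lit 516179) (nat_lit 15) (.e (nat_lit 475177) (nat_lit 24) (.e (nat_lit 516179) (nat_lit 15) (.e (nat_lit 475177) (nat_lit 24) .nil))))) .nil)))) (.nd (nat_lit 5) (.nd (nat_lit 6) 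
(.lf (nat_lit 74268) (.g (nat_lit 2562) (.e (nat_lit 1786) (nat_lit 119) (.e (nat_lit 516176) (nat_lit 14) (.e (nat_lit 466977) (nat_lit 22) (.e (nat_lit 196681) (nat_lit 17) (.e (nat_lit 131086) (nat_lit 1) (.e (nat_lit 57931) (nat_lit 282) (.e (nat_lit 164075) (nat_lit 61) .nil))))))) (.g (nat_lit 4) .nil .nil))) 
(.lf (nat_lit 74332) (.g (nat_lit 2918) (.e (nat_lit 1787) (nat_lit 119) (.e (nat_lit 516151) (nat_lit 9) (.e (nat_lit 426211) (nat_lit 9) (.e (nat_lit 426125) (nat_lit 2) .nil)))) .nil))) (.nd (nat_lit 6) 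
(.lf (nat_lit 74300) (.g (nat_lit 1729) (.e (nat_lit 1786) (nat_lit 119) (.e (nat_lit 516195) (nat_lit 26) (.e (nat_lit 336004) (nat_lit 2) (.e (nat_lit 90158) (nat_lit 11) (.e (nat_lit 24608) (nat_lit 3) .nil))))) .nil)) 
(.lf (nat_lit 74364) (.g (nat_lit 559) (.e (nat_lit 1788) (nat_lit 119) (.e (nat_lit 516106) (nat_lit 0) (.e (nat_lit 7936) (nat_lit 407) .nil))) .nil))))))) (.nd (nat_lit 2) (.nd (nat_lit 3) (.nd (nat_lit 4) (.nd (nat_lit 5) (.nd (nat_lit 6) 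
(.lf (nat_lit 74242) (.g (nat_lit 3799) (.e (nat_lit 1786) (nat_lit 119) (.e (nat_lit 516166) (nat_lit 12) (.e (nat_lit 450588) (nat_lit 10) (.e (nat_lit 573475) (nat_lit 12) .nil)))) .nil)) 
(.lf (nat_lit 74306) (.g (nat_lit 1907) (.e (nat_lit 1786) (nat_lit 119) (.e (nat_lit 516195) (nat_lit 26) (.e (nat_lit 336021) (nat_lit 3) (.e (nat_lit 98317) (nat_lit 9) (.e (nat_lit 336027) (nat_lit 3) (.e (nat_lit 98315) (nat_lit 9) (.e (nat_lit 335958) (nat_lit 0) .nil))))))) (.g (nat_lit 4) .nil .nil)))) (.nd (nat_lit 6) 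
(.lf (nat_lit 74274) (.g (nat_lit 2757) (.e (nat_lit 1786) (nat_lit 119) (.e (nat_lit 516177) (nat_lit 14) (.e (nat_lit 466977) (nat_lit 22) (.e (nat_lit 196681) (nat_lit 17) (.e (nat_lit 131089) (nat_lit 1) (.e (nat_lit 57930) (nat_lit 282) (.e (nat_lit 164075) (nat_lit 61) .nil))))))) (.g (nat_lit 6) .nil .nil))) 
(.lf (nat_lit 74338) (.g (nat_lit 2083) (.e (nat_lit 1787) (nat_lit 119) (.e (nat_lit 516163) (nat_lit 11) (.e (nat_lit 442424) (nat_lit 22) (.e (nat_lit 196661) (nat_lit 12) (.e (nat_lit 57712) (nat_lit 176) .nil))))) .nil)))) (.nd (nat_lit 5) (.nd (nat_lit 6) 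
(.lf (nat_lit 74258) (.g (nat_lit 1385) (.e (nat_lit 1786) (nat_lit 119) (.e (nat_lit 516175) (nat_lit 14) (.e (nat_lit 466977) (nat_lit 22) (.e (nat_lit 196677) (nat_lit 16) (.e (nat_lit 123080) (nat_lit 177) .nil))))) .nil)) 
(.lf (nat_lit 74322) (.g (nat_lit 2183) (.e (nat_lit 1787) (nat_lit 119) (.e (nat_lit 516117) (nat_lit 1) (.e (nat_lit 164329) (nat_lit 230) (.e (nat_lit 163902) (nat_lit 12) .nil)))) .nil))) (.nd (nat_lit 6) 
(.lf (nat_lit 74290) (.g (nat_lit 2823) (.e (nat_lit 1786) (nat_lit 119) (.e (nat_lit 516185) (nat_lit 16) (.e (nat_lit 491560) (nat_lit 10) (.e (nat_lit 344105) (nat_lit 19) .nil)))) .nil)) 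
(.lf (nat_lit 74354) (.g (nat_lit 3440) (.e (nat_lit 1788) (nat_lit 119) (.e (nat_lit 516098) (nat_lit 0) (.e (nat_lit 7593) (nat_lit 407) (.e (nat_lit 73746) (nat_lit 3) (.e (nat_lit 516179) (nat_lit 15) (.e (nat_lit 475209) (nat_lit 41) (.e (nat_lit 712706) (nat_lit 0) .nil))))))) (.g (nat_lit 5) .nil .nil)))))) (.nd (nat_lit 4) (.nd (nat_lit 5) (.nd (nat_lit 6) 
(.lf (nat_lit 74250) (.g (nat_lit 6574) (.e (nat_lit 1786) (nat_lit 119) (.e (nat_lit 516166) (nat_lit 12) (.e (nat_lit 450588) (nat_lit 10) (.e (nat_lit 573477) (nat_lit 12) .nil)))) .nil)) 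
(.lf (nat_lit 74314) (.g (nat_lit 2192) (.e (nat_lit 1786) (nat_lit 119) (.e (nat_lit 516195) (nat_lit 26) (.e (nat_lit 336223) (nat_lit 13) (.e (nat_lit 393227) (nat_lit 9) .nil)))) .nil))) (.nd (nat_lit 6) 
(.lf (nat_lit 74282) (.g (nat_lit 2402) (.e (nat_lit 1786) (nat_lit 119) (.e (nat_lit 516179) (nat_lit 15) (.e (nat_lit 475177) (nat_lit 24) (.e (nat_lit 516150) (nat_lit 9) (.e (nat_lit 426438) (nat_lit 18) .nil))))) .nil)) 
(.lf (nat_lit 74346) (.g (nat_lit 4537) (.e (nat_lit 1787) (nat_lit 119) (.e (nat_lit 516166) (nat_lit 12) (.e (nat_lit 450588) (nat_lit 10) (.e (nat_lit 573475) (nat_lit 12) .nil)))) .nil)))) (.nd (nat_lit 5) (.nd (nat_lit 6) 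
(.lf (nat_lit 74266) (.g (nat_lit 729) (.e (nat_lit 1786) (nat_lit 119) (.e (nat_lit 516176) (nat_lit 14) (.e (nat_lit 466977) (nat_lit 22) .nil))) .nil)) 
(.lf (nat_lit 74330) (.g (nat_lit 2261) (.e (nat_lit 1787) (nat_lit 119) (.e (nat_lit 516120) (nat_lit 1) (.e (nat_lit 164329) (nat_lit 230) (.e (nat_lit 163904) (nat_lit 12) .nil)))) .nil))) (.nd (nat_lit 6) 
(.lf (nat_lit 74298) (.g (nat_lit 2571) (.e (nat_lit 1786) (nat_lit 119) (.e (nat_lit 516185) (nat_lit 16) (.e (nat_lit 491560) (nat_lit 10) (.e (nat_lit 344133) (nat_lit 26) .nil)))) .nil)) 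
(.lf (nat_lit 74362) (.g (nat_lit 2967) (.e (nat_lit 1788) (nat_lit 119) (.e (nat_lit 516098) (nat_lit 0) (.e (nat_lit 7593) (nat_lit 407) (.e (nat_lit 73754) (nat_lit 8) (.e (nat_lit 557072) (nat_lit 9) (.e (nat_lit 7936) (nat_lit 23) (.e (nat_lit 352294) (nat_lit 20) .nil))))))) (.g (nat_lit 5) .nil .nil))))))) (.nd (nat_lit 3) (.nd (nat_lit 4) (.nd (nat_lit 5) (.nd (nat_lit 6) 
(.lf (nat_lit 74246) (.g (nat_lit 4565) (.e (nat_lit 1786) (nat_lit 119) (.e (nat_lit 516166) (nat_lit 12) (.e (nat_lit 450588) (nat_lit 10) (.e (nat_lit 573475) (nat_lit 12) (.e (nat_lit 57574) (nat_lit 55) (.e (nat_lit 778464) (nat_lit 11) (.e (nat_lit 24593) (nat_lit 0) .nil))))))) (.g (nat_lit 4) .nil .nil))) 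
(.lf (nat_lit 74310) (.g (nat_lit 1201) (.e (nat_lit 1786) (nat_lit 119) (.e (nat_lit 516195) (nat_lit 26) (.e (nat_lit 336076) (nat_lit 9) (.e (nat_lit 336454) (nat_lit 34) .nil)))) .nil))) (.nd (nat_lit 6) 
(.lf (nat_lit 74278) (.g (nat_lit 1568) (.e (nat_lit 1786) (nat_lit 119) (.e (nat_lit 516179) (nat_lit 15) (.e (nat_lit 475177) (nat_lit 24) (.e (nat_lit 516146) (nat_lit 9) .nil)))) .nil)) 
(.lf (nat_lit 74342) (.g (nat_lit 1066) (.e (nat_lit 1787) (nat_lit 119) (.e (nat_lit 516166) (nat_lit 12) (.e (nat_lit 450588) (nat_lit 10) .nil))) .nil)))) (.nd (nat_lit 5) (.nd (nat_lit 6) 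
(.lf (nat_lit 74262) (.g (nat_lit 2882) (.e (nat_lit 1786) (nat_lit 119) (.e (nat_lit 516175) (nat_lit 14) (.e (nat_lit 466977) (nat_lit 22) (.e (nat_lit 196681) (nat_lit 17) (.e (nat_lit 131089) (nat_lit 1) (.e (nat_lit 57931) (nat_lit 282) (.e (nat_lit 164075) (nat_lit 61) .nil))))))) (.g (nat_lit 6) .nil .nil))) 
(.lf (nat_lit 74326) (.g (nat_lit 3526) (.e (nat_lit 1787) (nat_lit 119) (.e (nat_lit 516119) (nat_lit 1) (.e (nat_lit 164403) (nat_lit 256) (.e (nat_lit 57373) (nat_lit 2) (.e (nat_lit 90172) (nat_lit 14) (.e (nat_lit 180244) (nat_lit 5) (.e (nat_lit 532513) (nat_lit 3) (.e (nat_lit 114700) (nat_lit 20) .nil)))))))) (.g (nat_lit 5) .nil .nil)))) (.nd (nat_lit 6) 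
(.lf (nat_lit 74294) (.g (nat_lit 2421) (.e (nat_lit 1786) (nat_lit 119) (.e (nat_lit 516185) (nat_lit 16) (.e (nat_lit 491560) (nat_lit 10) (.e (nat_lit 344118) (nat_lit 21) .nil)))) .nil)) 
(.lf (nat_lit 74358) (.g (nat_lit 3670) (.e (nat_lit 1788) (nat_lit 119) (.e (nat_lit 516098) (nat_lit 0) (.e (nat_lit 7593) (nat_lit 407) (.e (nat_lit 73746) (nat_lit 3) (.e (nat_lit 516182) (nat_lit 15) (.e (nat_lit 475211) (nat_lit 41) (.e (nat_lit 712706) (nat_lit 0) .nil))))))) (.g (nat_lit 7) .nil .nil)))))) (.nd (nat_lit 4) (.nd (nat_lit 5) (.nd (nat_lit 6) 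
(.lf (nat_lit 74254) (.g (nat_lit 2100) (.e (nat_lit 1786) (nat_lit 119) (.e (nat_lit 516174) (nat_lit 14) (.e (nat_lit 466974) (nat_lit 22) (.e (nat_lit 196681) (nat_lit 17) (.e (nat_lit 131089) (nat_lit 1) (.e (nat_lit 57930) (nat_lit 282) (.e (nat_lit 164076) (nat_lit 61) .nil))))))) (.g (nat_lit 4) .nil .nil))) 
(.lf (nat_lit 74318) (.g (nat_lit 2125) (.e (nat_lit 1787) (nat_lit 119) (.e (nat_lit 516115) (nat_lit 1) (.e (nat_lit 164399) (nat_lit 256) (.e (nat_lit 57372) (nat_lit 2) (.e (nat_lit 90174) (nat_lit 14) (.e (nat_lit 180243) (nat_lit 5) (.e (nat_lit 532513) (nat_lit 3) (.e (nat_lit 114701) (nat_lit 20) .nil)))))))) (.g (nat_lit 4) .nil .nil)))) (.nd (nat_lit 6) 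
(.lf (nat_lit 74286) (.g (nat_lit 2759) (.e (nat_lit 1786) (nat_lit 119) (.e (nat_lit 516185) (nat_lit 16) (.e (nat_lit 491546) (nat_lit 9) (.e (nat_lit 336028) (nat_lit 3) (.e (nat_lit 98325) (nat_lit 17) (.e (nat_lit 7550) (nat_lit 402) (.e (nat_lit 1515) (nat_lit 108) (.e (nat_lit 335872) (nat_lit 0) .nil)))))))) (.g (nat_lit 4) .nil .nil))) 
(.lf (nat_lit 74350) (.g (nat_lit 2846) (.e (nat_lit 1788) (nat_lit 119) (.e (nat_lit 516097) (nat_lit 0) (.e (nat_lit 3605) (nat_lit 225) (.e (nat_lit 761905) (nat_lit 16) (.e (nat_lit 179968) (nat_lit 34) (.e (nat_lit 393301) (nat_lit 27) (.e (nat_lit 491526) (nat_lit 0) .nil))))))) (.g (nat_lit 4) .nil .nil))))) (.nd (nat_lit 5) (.nd (nat_lit 6) 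
(.lf (nat_lit 74270) (.g (nat_lit 3228) (.e (nat_lit 1786) (nat_lit 119) (.e (nat_lit 516176) (nat_lit 14) (.e (nat_lit 466977) (nat_lit 22) (.e (nat_lit 196681) (nat_lit 17) (.e (nat_lit 131089) (nat_lit 1) (.e (nat_lit 57930) (nat_lit 282) (.e (nat_lit 164076) (nat_lit 61) .nil))))))) (.g (nat_lit 0) .nil .nil))) 
(.lf (nat_lit 74334) (.g (nat_lit 3857) (.e (nat_lit 1787) (nat_lit 119) (.e (nat_lit 516151) (nat_lit 9) (.e (nat_lit 426211) (nat_lit 9) (.e (nat_lit 426140) (nat_lit 3) (.e (nat_lit 204821) (nat_lit 17) .nil))))) .nil))) (.nd (nat_lit 6) 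
(.lf (nat_lit 74302) (.g (nat_lit 1588) (.e (nat_lit 1786) (nat_lit 119) (.e (nat_lit 516195) (nat_lit 26) (.e (nat_lit 336012) (nat_lit 2) (.e (nat_lit 90157) (nat_lit 11) (.e (nat_lit 24607) (nat_lit 3) (.e (nat_lit 98315) (nat_lit 9) (.e (nat_lit 335958) (nat_lit 0) .nil))))))) (.g (nat_lit 4) .nil .nil))) 
(.lf (nat_lit 74366) (.g (nat_lit 497) (.e (nat_lit 1788) (nat_lit 119) (.e (nat_lit 516115) (nat_lit 1) (.e (nat_lit 164179) (nat_lit 154) .nil))) .nil)))))))) (.nd (nat_lit 1) (.nd (nat_lit 2) (.nd (nat_lit 3) (.nd (nat_lit 4) (.nd (nat_lit 5) (.nd (nat_lit 6) 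
(.lf (nat_lit 74241) (.g (nat_lit 6401) (.e (nat_lit 1786) (nat_lit 119) (.e (nat_lit 516166) (nat_lit 12) (.e (nat_lit 450588) (nat_lit 10) (.e (nat_lit 573474) (nat_lit 12) .nil)))) .nil)) 
(.lf (nat_lit 74305) (.g (nat_lit 1792) (.e (nat_lit 1786) (nat_lit 119) (.e (nat_lit 516195) (nat_lit 26) (.e (nat_lit 336021) (nat_lit 3) (.e (nat_lit 98317) (nat_lit 9) (.e (nat_lit 336021) (nat_lit 3) (.e (nat_lit 98315) (nat_lit 9) (.e (nat_lit 335958) (nat_lit 0) .nil))))))) (.g (nat_lit 4) .nil .nil)))) (.nd (nat_lit 6) 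
(.lf (nat_lit 74273) (.g (nat_lit 2246) (.e (nat_lit 1786) (nat_lit 119) (.e (nat_lit 516177) (nat_lit 14) (.e (nat_lit 466974) (nat_lit 22) (.e (nat_lit 196681) (nat_lit 17) (.e (nat_lit 131089) (nat_lit 1) (.e (nat_lit 57931) (nat_lit 282) (.e (nat_lit 164075) (nat_lit 61) .nil))))))) (.g (nat_lit 6) .nil .nil))) 
(.lf (nat_lit 74337) (.g (nat_lit 3349) (.e (nat_lit 1787) (nat_lit 119) (.e (nat_lit 516151) (nat_lit 9) (.e (nat_lit 426338) (nat_lit 14) (.e (nat_lit 491537) (nat_lit 2) (.e (nat_lit 90170) (nat_lit 13) .nil))))) .nil)))) (.nd (nat_lit 5) (.nd (nat_lit 6) 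
(.lf (nat_lit 74257) (.g (nat_lit 657) (.e (nat_lit 1786) (nat_lit 119) (.e (nat_lit 516174) (nat_lit 14) (.e (nat_lit 466981) (nat_lit 23) .nil))) .nil)) 
(.lf (nat_lit 74321) (.g (nat_lit 2547) (.e (nat_lit 1787) (nat_lit 119) (.e (nat_lit 516115) (nat_lit 1) (.e (nat_lit 164399) (nat_lit 256) (.e (nat_lit 57375) (nat_lit 2) (.e (nat_lit 90174) (nat_lit 14) (.e (nat_lit 180243) (nat_lit 5) (.e (nat_lit 532513) (nat_lit 3) (.e (nat_lit 114700) (nat_lit 20) .nil)))))))) (.g (nat_lit 5) .nil .nil)))) (.nd (nat_lit 6) 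
(.lf (nat_lit 74289) (.g (nat_lit 669) (.e (nat_lit 1786) (nat_lit 119) (.e (nat_lit 516185) (nat_lit 16) (.e (nat_lit 491560) (nat_lit 10) .nil))) .nil)) 
(.lf (nat_lit 74353) (.g (nat_lit 2430) (.e (nat_lit 1788) (nat_lit 119) (.e (nat_lit 516098) (nat_lit 0) (.e (nat_lit 7591) (nat_lit 407) (.e (nat_lit 73754) (nat_lit 8) (.e (nat_lit 557072) (nat_lit 9) (.e (nat_lit 7936) (nat_lit 23) (.e (nat_lit 352294) (nat_lit 20) .nil))))))) (.g (nat_lit 5) .nil .nil)))))) (.nd (nat_lit 4) (.nd (nat_lit 5) (.nd (nat_lit 6) 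
(.lf (nat_lit 74249) (.g (nat_lit 5655) (.e (nat_lit 1786) (nat_lit 119) (.e (nat_lit 516166) (nat_lit 12) (.e (nat_lit 450588) (nat_lit 10) (.e (nat_lit 573476) (nat_lit 12) .nil)))) .nil)) 
(.lf (nat_lit 74313) (.g (nat_lit 2048) (.e (nat_lit 1786) (nat_lit 119) (.e (nat_lit 516195) (nat_lit 26) (.e (nat_lit 336213) (nat_lit 13) (.e (nat_lit 393229) (nat_lit 9) (.e (nat_lit 343808) (nat_lit 20) .nil))))) .nil))) (.nd (nat_lit 6) 
(.lf (nat_lit 74281) (.g (nat_lit 2039) (.e (nat_lit 1786) (nat_lit 119) (.e (nat_lit 516179) (nat_lit 15) (.e (nat_lit 475177) (nat_lit 24) (.e (nat_lit 516150) (nat_lit 9) (.e (nat_lit 426428) (nat_lit 17) .nil))))) .nil)) 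
(.lf (nat_lit 74345) (.g (nat_lit 7391) (.e (nat_lit 1787) (nat_lit 119) (.e (nat_lit 516166) (nat_lit 12) (.e (nat_lit 450588) (nat_lit 10) (.e (nat_lit 573474) (nat_lit 12) .nil)))) .nil)))) (.nd (nat_lit 5) (.nd (nat_lit 6) 
(.lf (nat_lit 74265) (.g (nat_lit 2318) (.e (nat_lit 1786) (nat_lit 119) (.e (nat_lit 516176) (nat_lit 14) (.e (nat_lit 466974) (nat_lit 22) (.e (nat_lit 196681) (nat_lit 17) (.e (nat_lit 131089) (nat_lit 1) .nil))))) .nil)) 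
(.lf (nat_lit 74329) (.g (nat_lit 2494) (.e (nat_lit 1787) (nat_lit 119) (.e (nat_lit 516120) (nat_lit 1) (.e (nat_lit 164329) (nat_lit 230) (.e (nat_lit 163902) (nat_lit 12) (.e (nat_lit 426568) (nat_lit 34) .nil))))) .nil))) (.nd (nat_lit 6) 
(.lf (nat_lit 74297) (.g (nat_lit 2259) (.e (nat_lit 1786) (nat_lit 119) (.e (nat_lit 516185) (nat_lit 16) (.e (nat_lit 491560) (nat_lit 10) (.e (nat_lit 344131) (nat_lit 26) .nil)))) .nil)) 
(.lf (nat_lit 74361) (.g (nat_lit 2293) (.e (nat_lit 1788) (nat_lit 119) (.e (nat_lit 516098) (nat_lit 0) (.e (nat_lit 7593) (nat_lit 407) (.e (nat_lit 73753) (nat_lit 8) (.e (nat_lit 557073) (nat_lit 9) (.e (nat_lit 7936) (nat_lit 23) (.e (nat_lit 352294) (nat_lit 20) .nil))))))) (.g (nat_lit 5) .nil .nil))))))) (.nd (nat_lit 3) (.nd (nat_lit 4) (.nd (nat_lit 5) (.nd (nat_lit 6) 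
(.lf (nat_lit 74245) (.g (nat_lit 4526) (.e (nat_lit 1786) (nat_lit 119) (.e (nat_lit 516166) (nat_lit 12) (.e (nat_lit 450588) (nat_lit 10) (.e (nat_lit 573475) (nat_lit 12) (.e (nat_lit 57574) (nat_lit 55) .nil))))) .nil)) 
(.lf (nat_lit 74309) (.g (nat_lit 1524) (.e (nat_lit 1786) (nat_lit 119) (.e (nat_lit 516195) (nat_lit 26) (.e (nat_lit 336027) (nat_lit 3) (.e (nat_lit 98317) (nat_lit 9) (.e (nat_lit 336021) (nat_lit 3) (.e (nat_lit 98315) (nat_lit 9) (.e (nat_lit 335958) (nat_lit 0) .nil))))))) (.g (nat_lit 4) .nil .nil)))) (.nd (nat_lit 6) 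
(.lf (nat_lit 74277) (.g (nat_lit 877) (.e (nat_lit 1786) (nat_lit 119) (.e (nat_lit 516179) (nat_lit 15) (.e (nat_lit 475177) (nat_lit 24) .nil))) .nil)) 
(.lf (nat_lit 74341) (.g (nat_lit 4429) (.e (nat_lit 1787) (nat_lit 119) (.e (nat_lit 516166) (nat_lit 12) (.e (nat_lit 450587) (nat_lit 10) (.e (nat_lit 573469) (nat_lit 11) .nil)))) .nil)))) (.nd (nat_lit 5) (.nd (nat_lit 6) 
(.lf (nat_lit 74261) (.g (nat_lit 2884) (.e (nat_lit 1786) (nat_lit 119) (.e (nat_lit 516175) (nat_lit 14) (.e (nat_lit 466977) (nat_lit 22) (.e (nat_lit 196681) (nat_lit 17) (.e (nat_lit 131089) (nat_lit 1) (.e (nat_lit 57930) (nat_lit 282) (.e (nat_lit 164076) (nat_lit 61) .nil))))))) (.g (nat_lit 0) .nil .nil))) 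
(.lf (nat_lit 74325) (.g (nat_lit 2316) (.e (nat_lit 1787) (nat_lit 119) (.e (nat_lit 516119) (nat_lit 1) (.e (nat_lit 164403) (nat_lit 256) (.e (nat_lit 57373) (nat_lit 2) (.e (nat_lit 90170) (nat_lit 13) .nil))))) .nil))) (.nd (nat_lit 6) 
(.lf (nat_lit 74293) (.g (nat_lit 3046) (.e (nat_lit 1786) (nat_lit 119) (.e (nat_lit 516185) (nat_lit 16) (.e (nat_lit 491560) (nat_lit 10) (.e (nat_lit 344117) (nat_lit 21) (.e (nat_lit 516185) (nat_lit 16) .nil))))) .nil)) 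
(.lf (nat_lit 74357) (.g (nat_lit 3095) (.e (nat_lit 1788) (nat_lit 119) (.e (nat_lit 516098) (nat_lit 0) (.e (nat_lit 7593) (nat_lit 407) (.e (nat_lit 73746) (nat_lit 3) (.e (nat_lit 516182) (nat_lit 15) (.e (nat_lit 475209) (nat_lit 41) (.e (nat_lit 712706) (nat_lit 0) .nil))))))) (.g (nat_lit 0) .nil .nil)))))) (.nd (nat_lit 4) (.nd (nat_lit 5) (.nd (nat_lit 6) 
(.lf (nat_lit 74253) (.g (nat_lit 2043) (.e (nat_lit 1786) (nat_lit 119) (.e (nat_lit 516174) (nat_lit 14) (.e (nat_lit 466974) (nat_lit 22) (.e (nat_lit 196681) (nat_lit 17) (.e (nat_lit 131089) (nat_lit 1) .nil))))) .nil)) 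
(.lf (nat_lit 74317) (.g (nat_lit 2981) (.e (nat_lit 1787) (nat_lit 119) (.e (nat_lit 516115) (nat_lit 1) (.e (nat_lit 164399) (nat_lit 256) (.e (nat_lit 57372) (nat_lit 2) (.e (nat_lit 90172) (nat_lit 14) (.e (nat_lit 180244) (nat_lit 5) (.e (nat_lit 532513) (nat_lit 3) (.e (nat_lit 114700) (nat_lit 20) .nil)))))))) (.g (nat_lit 5) .nil .nil)))) (.nd (nat_lit 6) 
(.lf (nat_lit 74285) (.g (nat_lit 2729) (.e (nat_lit 1786) (nat_lit 119) (.e (nat_lit 516185) (nat_lit 16) (.e (nat_lit 491546) (nat_lit 9) (.e (nat_lit 336028) (nat_lit 3) (.e (nat_lit 98325) (nat_lit 17) (.e (nat_lit 7550) (nat_lit 402) (.e (nat_lit 1512) (nat_lit 108) (.e (nat_lit 335872) (nat_lit 0) .nil)))))))) (.g (nat_lit 4) .nil .nil))) 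
(.lf (nat_lit 74349) (.g (nat_lit 2414) (.e (nat_lit 1788) (nat_lit 119) (.e (nat_lit 516097) (nat_lit 0) (.e (nat_lit 3605) (nat_lit 225) (.e (nat_lit 761905) (nat_lit 16) (.e (nat_lit 179968) (nat_lit 34) .nil))))) .nil)))) (.nd (nat_lit 5) (.nd (nat_lit 6) 
(.lf (nat_lit 74269) (.g (nat_lit 2916) (.e (nat_lit 1786) (nat_lit 119) (.e (nat_lit 516176) (nat_lit 14) (.e (nat_lit 466977) (nat_lit 22) (.e (nat_lit 196681) (nat_lit 17) (.e (nat_lit 131089) (nat_lit 1) (.e (nat_lit 57930) (nat_lit 282) (.e (nat_lit 164075) (nat_lit 61) .nil))))))) (.g (nat_lit 6) .nil .nil))) 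
(.lf (nat_lit 74333) (.g (nat_lit 2990) (.e (nat_lit 1787) (nat_lit 119) (.e (nat_lit 516151) (nat_lit 9) (.e (nat_lit 426211) (nat_lit 9) (.e (nat_lit 426140) (nat_lit 3) .nil)))) .nil))) (.nd (nat_lit 6) 
(.lf (nat_lit 74301) (.g (nat_lit 1834) (.e (nat_lit 1786) (nat_lit 119) (.e (nat_lit 516195) (nat_lit 26) (.e (nat_lit 336011) (nat_lit 2) (.e (nat_lit 90134) (nat_lit 9) (.e (nat_lit 290) (nat_lit 21) .nil))))) .nil)) 
(.lf (nat_lit 74365) (.g (nat_lit 1860) (.e (nat_lit 1788) (nat_lit 119) (.e (nat_lit 516106) (nat_lit 0) (.e (nat_lit 7936) (nat_lit 407) (.e (nat_lit 73754) (nat_lit 8) (.e (nat_lit 557072) (nat_lit 9) (.e (nat_lit 7936) (nat_lit 23) (.e (nat_lit 352294) (nat_lit 20) .nil))))))) (.g (nat_lit 5) .nil .nil)))))))) 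
(.nd (nat_lit 2) (.nd (nat_lit 3) (.nd (nat_lit 4) (.nd (nat_lit 5) (.nd (nat_lit 6) 
(.lf (nat_lit 74243) (.g (nat_lit 4436) (.e (nat_lit 1786) (nat_lit 119) (.e (nat_lit 516166) (nat_lit 12) (.e (nat_lit 450588) (nat_lit 10) (.e (nat_lit 573475) (nat_lit 12) (.e (nat_lit 57347) (nat_lit 0) .nil))))) .nil)) 
(.lf (nat_lit 74307) (.g (nat_lit 423) (.e (nat_lit 1786) (nat_lit 119) (.e (nat_lit 516195) (nat_lit 26) (.e (nat_lit 336027) (nat_lit 3) .nil))) .nil))) (.nd (nat_lit 6) 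
(.lf (nat_lit 74275) (.g (nat_lit 3069) (.e (nat_lit 1786) (nat_lit 119) (.e (nat_lit 516177) (nat_lit 14) (.e (nat_lit 466977) (nat_lit 22) (.e (nat_lit 196681) (nat_lit 17) (.e (nat_lit 131089) (nat_lit 1) (.e (nat_lit 57930) (nat_lit 282) (.e (nat_lit 164076) (nat_lit 61) .nil))))))) (.g (nat_lit 0) .nil .nil))) 
(.lf (nat_lit 74339) (.g (nat_lit 1174) (.e (nat_lit 1787) (nat_lit 119) (.e (nat_lit 516166) (nat_lit 12) (.e (nat_lit 450587) (nat_lit 10) .nil))) .nil)))) (.nd (nat_lit 5) (.nd (nat_lit 6) 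
(.lf (nat_lit 74259) (.g (nat_lit 2047) (.e (nat_lit 1786) (nat_lit 119) (.e (nat_lit 516175) (nat_lit 14) (.e (nat_lit 466977) (nat_lit 22) (.e (nat_lit 196681) (nat_lit 17) (.e (nat_lit 131086) (nat_lit 1) .nil))))) .nil)) 
(.lf (nat_lit 74323) (.g (nat_lit 2690) (.e (nat_lit 1787) (nat_lit 119) (.e (nat_lit 516117) (nat_lit 1) (.e (nat_lit 164329) (nat_lit 230) (.e (nat_lit 163902) (nat_lit 12) (.e (nat_lit 426568) (nat_lit 34) .nil))))) .nil))) (.nd (nat_lit 6) 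
(.lf (nat_lit 74291) (.g (nat_lit 2682) (.e (nat_lit 1786) (nat_lit 119) (.e (nat_lit 516185) (nat_lit 16) (.e (nat_lit 491560) (nat_lit 10) (.e (nat_lit 344109) (nat_lit 19) .nil)))) .nil)) 
(.lf (nat_lit 74355) (.g (nat_lit 3922) (.e (nat_lit 1788) (nat_lit 119) (.e (nat_lit 516098) (nat_lit 0) (.e (nat_lit 7593) (nat_lit 407) (.e (nat_lit 73746) (nat_lit 3) (.e (nat_lit 516179) (nat_lit 15) (.e (nat_lit 475211) (nat_lit 41) (.e (nat_lit 712706) (nat_lit 0) .nil))))))) (.g (nat_lit 6) .nil .nil)))))) (.nd (nat_lit 4) (.nd (nat_lit 5) (.nd (nat_lit 6) 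
(.lf (nat_lit 74251) (.g (nat_lit 6024) (.e (nat_lit 1786) (nat_lit 119) (.e (nat_lit 516166) (nat_lit 12) (.e (nat_lit 450588) (nat_lit 10) (.e (nat_lit 573478) (nat_lit 12) .nil)))) .nil)) 
(.lf (nat_lit 74315) (.g (nat_lit 2098) (.e (nat_lit 1786) (nat_lit 119) (.e (nat_lit 516195) (nat_lit 26) (.e (nat_lit 336223) (nat_lit 13) (.e (nat_lit 393229) (nat_lit 9) (.e (nat_lit 343808) (nat_lit 20) .nil))))) .nil))) (.nd (nat_lit 6) 
(.lf (nat_lit 74283) (.g (nat_lit 2618) (.e (nat_lit 1786) (nat_lit 119) (.e (nat_lit 516179) (nat_lit 15) (.e (nat_lit 475177) (nat_lit 24) (.e (nat_lit 516150) (nat_lit 9) (.e (nat_lit 426438) (nat_lit 18) (.e (nat_lit 98358) (nat_lit 26) (.e (nat_lit 426357) (nat_lit 15) .nil))))))) (.g (nat_lit 4) .nil .nil))) 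
(.lf (nat_lit 74347) (.g (nat_lit 764) (.e (nat_lit 1787) (nat_lit 119) (.e (nat_lit 516176) (nat_lit 14) (.e (nat_lit 466980) (nat_lit 23) .nil))) .nil)))) (.nd (nat_lit 5) (.nd (nat_lit 6) 
(.lf (nat_lit 74267) (.g (nat_lit 1939) (.e (nat_lit 1786) (nat_lit 119) (.e (nat_lit 516176) (nat_lit 14) (.e (nat_lit 466977) (nat_lit 22) (.e (nat_lit 196677) (nat_lit 16) (.e (nat_lit 123080) (nat_lit 177) .nil))))) .nil)) 
(.lf (nat_lit 74331) (.g (nat_lit 2392) (.e (nat_lit 1787) (nat_lit 119) (.e (nat_lit 516151) (nat_lit 9) (.e (nat_lit 426170) (nat_lit 7) (.e (nat_lit 409631) (nat_lit 12) .nil)))) .nil))) (.nd (nat_lit 6) 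
(.lf (nat_lit 74299) (.g (nat_lit 1780) (.e (nat_lit 1786) (nat_lit 119) (.e (nat_lit 516195) (nat_lit 26) (.e (nat_lit 336004) (nat_lit 2) (.e (nat_lit 90158) (nat_lit 11) (.e (nat_lit 24607) (nat_lit 3) .nil))))) .nil)) 
(.lf (nat_lit 74363) (.g (nat_lit 1823) (.e (nat_lit 1788) (nat_lit 119) (.e (nat_lit 516098) (nat_lit 0) (.e (nat_lit 7593) (nat_lit 407) (.e (nat_lit 73755) (nat_lit 8) (.e (nat_lit 557068) (nat_lit 9) (.e (nat_lit 7936) (nat_lit 23) (.e (nat_lit 352294) (nat_lit 20) .nil))))))) (.g (nat_lit 4) .nil .nil))))))) (.nd (nat_lit 3) (.nd (nat_lit 4) (.nd (nat_lit 5) (.nd (nat_lit 6) 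
(.lf (nat_lit 74247) (.g (nat_lit 5983) (.e (nat_lit 1786) (nat_lit 119) (.e (nat_lit 516166) (nat_lit 12) (.e (nat_lit 450588) (nat_lit 10) (.e (nat_lit 573475) (nat_lit 12) (.e (nat_lit 57574) (nat_lit 55) (.e (nat_lit 778465) (nat_lit 11) (.e (nat_lit 24593) (nat_lit 0) .nil))))))) (.g (nat_lit 6) .nil .nil))) 
(.lf (nat_lit 74311) (.g (nat_lit 2131) (.e (nat_lit 1786) (nat_lit 119) (.e (nat_lit 516195) (nat_lit 26) (.e (nat_lit 336076) (nat_lit 9) (.e (nat_lit 336456) (nat_lit 34) (.e (nat_lit 491264) (nat_lit 3) .nil))))) .nil))) (.nd (nat_lit 6) 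
(.lf (nat_lit 74279) (.g (nat_lit 2381) (.e (nat_lit 1786) (nat_lit 119) (.e (nat_lit 516179) (nat_lit 15) (.e (nat_lit 475177) (nat_lit 24) (.e (nat_lit 516146) (nat_lit 9) (.e (nat_lit 426438) (nat_lit 18) .nil))))) .nil)) 
(.lf (nat_lit 74343) (.g (nat_lit 5015) (.e (nat_lit 1787) (nat_lit 119) (.e (nat_lit 516166) (nat_lit 12) (.e (nat_lit 450588) (nat_lit 10) (.e (nat_lit 573452) (nat_lit 9) .nil)))) .nil)))) (.nd (nat_lit 5) (.nd (nat_lit 6) 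
(.lf (nat_lit 74263) (.g (nat_lit 1382) (.e (nat_lit 1786) (nat_lit 119) (.e (nat_lit 516176) (nat_lit 14) (.e (nat_lit 466954) (nat_lit 11) (.e (nat_lit 335986) (nat_lit 1) .nil)))) .nil)) 
(.lf (nat_lit 74327) (.g (nat_lit 2587) (.e (nat_lit 1787) (nat_lit 119) (.e (nat_lit 516119) (nat_lit 1) (.e (nat_lit 164403) (nat_lit 256) (.e (nat_lit 57373) (nat_lit 2) (.e (nat_lit 90174) (nat_lit 14) (.e (nat_lit 180243) (nat_lit 5) (.e (nat_lit 532515) (nat_lit 3) (.e (nat_lit 114700) (nat_lit 20) .nil)))))))) (.g (nat_lit 4) .nil .nil)))) (.nd (nat_lit 6) 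
(.lf (nat_lit 74295) (.g (nat_lit 2273) (.e (nat_lit 1786) (nat_lit 119) (.e (nat_lit 516185) (nat_lit 16) (.e (nat_lit 491560) (nat_lit 10) (.e (nat_lit 344129) (nat_lit 26) .nil)))) .nil)) 
(.lf (nat_lit 74359) (.g (nat_lit 2347) (.e (nat_lit 1788) (nat_lit 119) (.e (nat_lit 516098) (nat_lit 0) (.e (nat_lit 7593) (nat_lit 407) (.e (nat_lit 73753) (nat_lit 8) (.e (nat_lit 557068) (nat_lit 9) (.e (nat_lit 7936) (nat_lit 23) (.e (nat_lit 352294) (nat_lit 20) .nil))))))) (.g (nat_lit 5) .nil .nil)))))) (.nd (nat_lit 4) (.nd (nat_lit 5) (.nd (nat_lit 6) 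
(.lf (nat_lit 74255) (.g (nat_lit 2116) (.e (nat_lit 1786) (nat_lit 119) (.e (nat_lit 516174) (nat_lit 14) (.e (nat_lit 466974) (nat_lit 22) (.e (nat_lit 196681) (nat_lit 17) (.e (nat_lit 131089) (nat_lit 1) (.e (nat_lit 57931) (nat_lit 282) (.e (nat_lit 164075) (nat_lit 61) .nil))))))) (.g (nat_lit 4) .nil .nil))) 
(.lf (nat_lit 74319) (.g (nat_lit 2215) (.e (nat_lit 1787) (nat_lit 119) (.e (nat_lit 516115) (nat_lit 1) (.e (nat_lit 164399) (nat_lit 256) (.e (nat_lit 57373) (nat_lit 2) (.e (nat_lit 90172) (nat_lit 14) (.e (nat_lit 180244) (nat_lit 5) (.e (nat_lit 532513) (nat_lit 3) (.e (nat_lit 114701) (nat_lit 20) .nil)))))))) (.g (nat_lit 4) .nil .nil)))) (.nd (nat_lit 6) 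
(.lf (nat_lit 74287) (.g (nat_lit 698) (.e (nat_lit 1786) (nat_lit 119) (.e (nat_lit 516185) (nat_lit 16) (.e (nat_lit 491558) (nat_lit 10) .nil))) .nil)) 
(.lf (nat_lit 74351) (.g (nat_lit 2049) (.e (nat_lit 1788) (nat_lit 119) (.e (nat_lit 516098) (nat_lit 0) (.e (nat_lit 7591) (nat_lit 407) (.e (nat_lit 73747) (nat_lit 3) (.e (nat_lit 516182) (nat_lit 15) (.e (nat_lit 475209) (nat_lit 41) (.e (nat_lit 712706) (nat_lit 0) .nil))))))) (.g (nat_lit 4) .nil .nil))))) (.nd (nat_lit 5) (.nd (nat_lit 6) 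
(.lf (nat_lit 74271) (.g (nat_lit 3226) (.e (nat_lit 1786) (nat_lit 119) (.e (nat_lit 516176) (nat_lit 14) (.e (nat_lit 466977) (nat_lit 22) (.e (nat_lit 196681) (nat_lit 17) (.e (nat_lit 131089) (nat_lit 1) (.e (nat_lit 57931) (nat_lit 282) (.e (nat_lit 164075) (nat_lit 61) .nil))))))) (.g (nat_lit 6) .nil .nil))) 
(.lf (nat_lit 74335) (.g (nat_lit 3515) (.e (nat_lit 1787) (nat_lit 119) (.e (nat_lit 516151) (nat_lit 9) (.e (nat_lit 426285) (nat_lit 10) (.e (nat_lit 434238) (nat_lit 25) (.e (nat_lit 548913) (nat_lit 18) .nil))))) .nil))) (.nd (nat_lit 6) 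
(.lf (nat_lit 74303) (.g (nat_lit 885) (.e (nat_lit 1786) (nat_lit 119) (.e (nat_lit 516195) (nat_lit 26) (.e (nat_lit 336012) (nat_lit 2) (.e (nat_lit 90158) (nat_lit 11) .nil)))) .nil)) 
(.lf (nat_lit 74367) (.g (nat_lit 1539) (.e (nat_lit 1788) (nat_lit 119) (.e (nat_lit 516115) (nat_lit 1) (.e (nat_lit 164179) (nat_lit 154) (.e (nat_lit 57446) (nat_lit 19) .nil)))) .nil)))))))))

noncomputable def tv1005 : DT := (.nd (nat_lit 0) (.nd (nat_lit 1) (.nd (nat_lit 2) (.nd (nat_lit 3) (.nd (nat_lit 4) (.nd (nat_lit 5) 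
(.lf (nat_lit 74368) (.g (nat_lit 3350) (.e (nat_lit 1788) (nat_lit 119) (.e (nat_lit 516115) (nat_lit 1) (.e (nat_lit 164325) (nat_lit 230) (.e (nat_lit 163901) (nat_lit 12) (.e (nat_lit 426566) (nat_lit 34) (.e (nat_lit 393273) (nat_lit 23) (.e (nat_lit 426402) (nat_lit 15) .nil))))))) (.g (nat_lit 4) .nil .nil))) 
(.lf (nat_lit 74400) (.g (nat_lit 1793) (.e (nat_lit 1788) (nat_lit 119) (.e (nat_lit 516116) (nat_lit 1) (.e (nat_lit 164329) (nat_lit 230) (.e (nat_lit 163902) (nat_lit 12) (.e (nat_lit 426479) (nat_lit 27) (.e (nat_lit 336428) (nat_lit 29) (.e (nat_lit 450304) (nat_lit 0) .nil))))))) (.g (nat_lit 4) .nil .nil)))) (.nd (nat_lit 5) 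
(.lf (nat_lit 74384) (.g (nat_lit 2388) (.e (nat_lit 1788) (nat_lit 119) (.e (nat_lit 516115) (nat_lit 1) (.e (nat_lit 164399) (nat_lit 256) (.e (nat_lit 57372) (nat_lit 2) (.e (nat_lit 90174) (nat_lit 14) (.e (nat_lit 180243) (nat_lit 5) (.e (nat_lit 532515) (nat_lit 3) (.e (nat_lit 114699) (nat_lit 20) .nil)))))))) (.g (nat_lit 4) .nil .nil))) 
(.lf (nat_lit 74416) (.g (nat_lit 2151) (.e (nat_lit 1788) (nat_lit 119) (.e (nat_lit 516116) (nat_lit 1) (.e (nat_lit 164329) (nat_lit 230) (.e (nat_lit 163902) (nat_lit 12) (.e (nat_lit 426568) (nat_lit 34) (.e (nat_lit 393271) (nat_lit 23) (.e (nat_lit 426360) (nat_lit 15) .nil))))))) (.g (nat_lit 4) .nil .nil))))) (.nd (nat_lit 4) (.nd (nat_lit 5) 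
(.lf (nat_lit 74376) (.g (nat_lit 3472) (.e (nat_lit 1788) (nat_lit 119) (.e (nat_lit 516115) (nat_lit 1) (.e (nat_lit 164399) (nat_lit 256) (.e (nat_lit 57372) (nat_lit 2) (.e (nat_lit 90172) (nat_lit 14) (.e (nat_lit 180243) (nat_lit 5) (.e (nat_lit 532513) (nat_lit 3) (.e (nat_lit 114699) (nat_lit 20) .nil)))))))) (.g (nat_lit 5) .nil .nil))) 
(.lf (nat_lit 74408) (.g (nat_lit 1496) (.e (nat_lit 1788) (nat_lit 119) (.e (nat_lit 516116) (nat_lit 1) (.e (nat_lit 164329) (nat_lit 230) (.e (nat_lit 163902) (nat_lit 12) (.e (nat_lit 426568) (nat_lit 34) .nil))))) .nil))) (.nd (nat_lit 5) 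
(.lf (nat_lit 74392) (.g (nat_lit 2153) (.e (nat_lit 1788) (nat_lit 119) (.e (nat_lit 516115) (nat_lit 1) (.e (nat_lit 164399) (nat_lit 256) (.e (nat_lit 57375) (nat_lit 2) (.e (nat_lit 90172) (nat_lit 14) .nil))))) .nil)) 
(.lf (nat_lit 74424) (.g (nat_lit 2363) (.e (nat_lit 1788) (nat_lit 119) (.e (nat_lit 516116) (nat_lit 1) (.e (nat_lit 164330) (nat_lit 230) (.e (nat_lit 163905) (nat_lit 12) (.e (nat_lit 426566) (nat_lit 34) (.e (nat_lit 393273) (nat_lit 23) (.e (nat_lit 426402) (nat_lit 15) .nil))))))) (.g (nat_lit 4) .nil .nil)))))) (.nd (nat_lit 3) (.nd (nat_lit 4) (.nd (nat_lit 5) 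
(.lf (nat_lit 74372) (.g (nat_lit 2853) (.e (nat_lit 1788) (nat_lit 119) (.e (nat_lit 516115) (nat_lit 1) (.e (nat_lit 164325) (nat_lit 230) (.e (nat_lit 163907) (nat_lit 12) (.e (nat_lit 433920) (nat_lit 34) .nil))))) .nil)) 
(.lf (nat_lit 74404) (.g (nat_lit 3339) (.e (nat_lit 1788) (nat_lit 119) (.e (nat_lit 516116) (nat_lit 1) (.e (nat_lit 164329) (nat_lit 230) (.e (nat_lit 163902) (nat_lit 12) (.e (nat_lit 426566) (nat_lit 34) (.e (nat_lit 393271) (nat_lit 23) (.e (nat_lit 426402) (nat_lit 15) .nil))))))) (.g (nat_lit 6) .nil .nil)))) (.nd (nat_lit 5) 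
(.lf (nat_lit 74388) (.g (nat_lit 2927) (.e (nat_lit 1788) (nat_lit 119) (.e (nat_lit 516115) (nat_lit 1) (.e (nat_lit 164399) (nat_lit 256) (.e (nat_lit 57373) (nat_lit 2) (.e (nat_lit 90172) (nat_lit 14) (.e (nat_lit 180244) (nat_lit 5) (.e (nat_lit 532515) (nat_lit 3) (.e (nat_lit 114699) (nat_lit 20) .nil)))))))) (.g (nat_lit 4) .nil .nil))) 
(.lf (nat_lit 74420) (.g (nat_lit 2817) (.e (nat_lit 1788) (nat_lit 119) (.e (nat_lit 516116) (nat_lit 1) (.e (nat_lit 164329) (nat_lit 230) (.e (nat_lit 163902) (nat_lit 12) (.e (nat_lit 426568) (nat_lit 34) (.e (nat_lit 393279) (nat_lit 23) (.e (nat_lit 426401) (nat_lit 15) .nil))))))) (.g (nat_lit 5) .nil .nil))))) (.nd (nat_lit 4) (.nd (nat_lit 5) 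
(.lf (nat_lit 74380) (.g (nat_lit 2314) (.e (nat_lit 1788) (nat_lit 119) (.e (nat_lit 516115) (nat_lit 1) (.e (nat_lit 164399) (nat_lit 256) (.e (nat_lit 57372) (nat_lit 2) (.e (nat_lit 90172) (nat_lit 14) (.e (nat_lit 180244) (nat_lit 5) (.e (nat_lit 532513) (nat_lit 3) (.e (nat_lit 122624) (nat_lit 20) .nil)))))))) (.g (nat_lit 4) .nil .nil))) 
(.lf (nat_lit 74412) (.g (nat_lit 3418) (.e (nat_lit 1788) (nat_lit 119) (.e (nat_lit 516116) (nat_lit 1) (.e (nat_lit 164329) (nat_lit 230) (.e (nat_lit 163902) (nat_lit 12) (.e (nat_lit 426568) (nat_lit 34) (.e (nat_lit 393267) (nat_lit 23) (.e (nat_lit 426399) (nat_lit 15) .nil))))))) (.g (nat_lit 6) .nil .nil)))) (.nd (nat_lit 5) 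
(.lf (nat_lit 74396) (.g (nat_lit 2008) (.e (nat_lit 1788) (nat_lit 119) (.e (nat_lit 516115) (nat_lit 1) (.e (nat_lit 164399) (nat_lit 256) (.e (nat_lit 57375) (nat_lit 2) (.e (nat_lit 90174) (nat_lit 14) .nil))))) .nil)) 
(.lf (nat_lit 74428) (.g (nat_lit 3728) (.e (nat_lit 1788) (nat_lit 119) (.e (nat_lit 516116) (nat_lit 1) (.e (nat_lit 164332) (nat_lit 230) (.e (nat_lit 163905) (nat_lit 12) (.e (nat_lit 426566) (nat_lit 34) (.e (nat_lit 393273) (nat_lit 23) (.e (nat_lit 426364) (nat_lit 15) .nil))))))) (.g (nat_lit 6) .nil .nil))))))) (.nd (nat_lit 2) (.nd (nat_lit 3) (.nd (nat_lit 4) (.nd (nat_lit 5) 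
(.lf (nat_lit 74370) (.g (nat_lit 3516) (.e (nat_lit 1788) (nat_lit 119) (.e (nat_lit 516115) (nat_lit 1) (.e (nat_lit 164325) (nat_lit 230) (.e (nat_lit 163902) (nat_lit 12) (.e (nat_lit 426566) (nat_lit 34) (.e (nat_lit 393273) (nat_lit 23) (.e (nat_lit 426402) (nat_lit 15) .nil))))))) (.g (nat_lit 4) .nil .nil))) 
(.lf (nat_lit 74402) (.g (nat_lit 2251) (.e (nat_lit 1788) (nat_lit 119) (.e (nat_lit 516116) (nat_lit 1) (.e (nat_lit 164329) (nat_lit 230) (.e (nat_lit 163902) (nat_lit 12) (.e (nat_lit 426479) (nat_lit 27) (.e (nat_lit 336443) (nat_lit 32) (.e (nat_lit 474880) (nat_lit 0) .nil))))))) (.g (nat_lit 5) .nil .nil)))) (.nd (nat_lit 5) 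
(.lf (nat_lit 74386) (.g (nat_lit 3475) (.e (nat_lit 1788) (nat_lit 119) (.e (nat_lit 516115) (nat_lit 1) (.e (nat_lit 164399) (nat_lit 256) (.e (nat_lit 57373) (nat_lit 2) (.e (nat_lit 90172) (nat_lit 14) (.e (nat_lit 180244) (nat_lit 5) (.e (nat_lit 532513) (nat_lit 3) (.e (nat_lit 114699) (nat_lit 20) .nil)))))))) (.g (nat_lit 5) .nil .nil))) 
(.lf (nat_lit 74418) (.g (nat_lit 3073) (.e (nat_lit 1788) (nat_lit 119) (.e (nat_lit 516116) (nat_lit 1) (.e (nat_lit 164329) (nat_lit 230) (.e (nat_lit 163902) (nat_lit 12) (.e (nat_lit 426568) (nat_lit 34) (.e (nat_lit 393271) (nat_lit 23) (.e (nat_lit 426399) (nat_lit 15) .nil))))))) (.g (nat_lit 6) .nil .nil))))) (.nd (nat_lit 4) (.nd (nat_lit 5) 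
(.lf (nat_lit 74378) (.g (nat_lit 2349) (.e (nat_lit 1788) (nat_lit 119) (.e (nat_lit 516115) (nat_lit 1) (.e (nat_lit 164399) (nat_lit 256) (.e (nat_lit 57372) (nat_lit 2) (.e (nat_lit 90172) (nat_lit 14) (.e (nat_lit 180243) (nat_lit 5) (.e (nat_lit 532515) (nat_lit 3) (.e (nat_lit 114699) (nat_lit 20) .nil)))))))) (.g (nat_lit 4) .nil .nil))) 
(.lf (nat_lit 74410) (.g (nat_lit 2106) (.e (nat_lit 1788) (nat_lit 119) (.e (nat_lit 516116) (nat_lit 1) (.e (nat_lit 164329) (nat_lit 230) (.e (nat_lit 163902) (nat_lit 12) (.e (nat_lit 426568) (nat_lit 34) (.e (nat_lit 393267) (nat_lit 23) (.e (nat_lit 426360) (nat_lit 15) .nil))))))) (.g (nat_lit 4) .nil .nil)))) (.nd (nat_lit 5) 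
(.lf (nat_lit 74394) (.g (nat_lit 3164) (.e (nat_lit 1788) (nat_lit 119) (.e (nat_lit 516115) (nat_lit 1) (.e (nat_lit 164399) (nat_lit 256) (.e (nat_lit 57375) (nat_lit 2) (.e (nat_lit 90172) (nat_lit 14) (.e (nat_lit 180244) (nat_lit 5) (.e (nat_lit 532513) (nat_lit 3) (.e (nat_lit 114699) (nat_lit 20) .nil)))))))) (.g (nat_lit 5) .nil .nil))) 
(.lf (nat_lit 74426) (.g (nat_lit 2268) (.e (nat_lit 1788) (nat_lit 119) (.e (nat_lit 516116) (nat_lit 1) (.e (nat_lit 164332) (nat_lit 230) (.e (nat_lit 163902) (nat_lit 12) (.e (nat_lit 426566) (nat_lit 34) (.e (nat_lit 393272) (nat_lit 23) (.e (nat_lit 426402) (nat_lit 15) .nil))))))) (.g (nat_lit 4) .nil .nil)))))) (.nd (nat_lit 3) (.nd (nat_lit 4) (.nd (nat_lit 5) 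
(.lf (nat_lit 74374) (.g (nat_lit 2285) (.e (nat_lit 1788) (nat_lit 119) (.e (nat_lit 516115) (nat_lit 1) (.e (nat_lit 164399) (nat_lit 256) (.e (nat_lit 57370) (nat_lit 2) (.e (nat_lit 90174) (nat_lit 14) (.e (nat_lit 180243) (nat_lit 5) (.e (nat_lit 532513) (nat_lit 3) (.e (nat_lit 114699) (nat_lit 20) .nil)))))))) (.g (nat_lit 4) .nil .nil))) 
(.lf (nat_lit 74406) (.g (nat_lit 1720) (.e (nat_lit 1788) (nat_lit 119) (.e (nat_lit 516116) (nat_lit 1) (.e (nat_lit 164329) (nat_lit 230) (.e (nat_lit 163902) (nat_lit 12) (.e (nat_lit 426567) (nat_lit 34) .nil))))) .nil))) (.nd (nat_lit 5) 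
(.lf (nat_lit 74390) (.g (nat_lit 3094) (.e (nat_lit 1788) (nat_lit 119) (.e (nat_lit 516115) (nat_lit 1) (.e (nat_lit 164399) (nat_lit 256) (.e (nat_lit 57373) (nat_lit 2) (.e (nat_lit 90174) (nat_lit 14) (.e (nat_lit 180243) (nat_lit 5) (.e (nat_lit 532513) (nat_lit 3) (.e (nat_lit 122624) (nat_lit 20) .nil)))))))) (.g (nat_lit 5) .nil .nil))) 
(.lf (nat_lit 74422) (.g (nat_lit 2976) (.e (nat_lit 1788) (nat_lit 119) (.e (nat_lit 516116) (nat_lit 1) (.e (nat_lit 164330) (nat_lit 230) (.e (nat_lit 163902) (nat_lit 12) (.e (nat_lit 426566) (nat_lit 34) (.e (nat_lit 393272) (nat_lit 23) (.e (nat_lit 426402) (nat_lit 15) .nil))))))) (.g (nat_lit 4) .nil .nil))))) (.nd (nat_lit 4) (.nd (nat_lit 5) 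
(.lf (nat_lit 74382) (.g (nat_lit 3370) (.e (nat_lit 1788) (nat_lit 119) (.e (nat_lit 516115) (nat_lit 1) (.e (nat_lit 164399) (nat_lit 256) (.e (nat_lit 57372) (nat_lit 2) (.e (nat_lit 90174) (nat_lit 14) (.e (nat_lit 180243) (nat_lit 5) (.e (nat_lit 532513) (nat_lit 3) (.e (nat_lit 114699) (nat_lit 20) .nil)))))))) (.g (nat_lit 5) .nil .nil))) 
(.lf (nat_lit 74414) (.g (nat_lit 1999) (.e (nat_lit 1788) (nat_lit 119) (.e (nat_lit 516116) (nat_lit 1) (.e (nat_lit 164329) (nat_lit 230) (.e (nat_lit 163902) (nat_lit 12) (.e (nat_lit 426568) (nat_lit 34) (.e (nat_lit 393268) (nat_lit 23) (.e (nat_lit 426360) (nat_lit 15) .nil))))))) (.g (nat_lit 4) .nil .nil)))) (.nd (nat_lit 5) 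
(.lf (nat_lit 74398) (.g (nat_lit 3132) (.e (nat_lit 1788) (nat_lit 119) (.e (nat_lit 516115) (nat_lit 1) (.e (nat_lit 164403) (nat_lit 256) (.e (nat_lit 57373) (nat_lit 2) (.e (nat_lit 90174) (nat_lit 14) (.e (nat_lit 180243) (nat_lit 5) (.e (nat_lit 532513) (nat_lit 3) (.e (nat_lit 114699) (nat_lit 20) .nil)))))))) (.g (nat_lit 4) .nil .nil))) 
(.lf (nat_lit 74430) (.g (nat_lit 2709) (.e (nat_lit 1788) (nat_lit 119) (.e (nat_lit 516116) (nat_lit 1) (.e (nat_lit 164399) (nat_lit 256) (.e (nat_lit 57373) (nat_lit 2) (.e (nat_lit 90174) (nat_lit 14) (.e (nat_lit 180243) (nat_lit 5) (.e (nat_lit 532513) (nat_lit 3) (.e (nat_lit 114699) (nat_lit 20) .nil)))))))) (.g (nat_lit 4) .nil .nil)))))))) 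
(.nd (nat_lit 1) (.nd (nat_lit 2) (.nd (nat_lit 3) (.nd (nat_lit 4) (.nd (nat_lit 5) 
(.lf (nat_lit 74369) (.g (nat_lit 2614) (.e (nat_lit 1788) (nat_lit 119) (.e (nat_lit 516115) (nat_lit 1) (.e (nat_lit 164325) (nat_lit 230) (.e (nat_lit 163902) (nat_lit 12) .nil)))) .nil)) 
(.lf (nat_lit 74401) (.g (nat_lit 3016) (.e (nat_lit 1788) (nat_lit 119) (.e (nat_lit 516116) (nat_lit 1) (.e (nat_lit 164329) (nat_lit 230) (.e (nat_lit 163902) (nat_lit 12) (.e (nat_lit 426479) (nat_lit 27) (.e (nat_lit 336430) (nat_lit 29) (.e (nat_lit 450304) (nat_lit 0) .nil))))))) (.g (nat_lit 6) .nil .nil)))) (.nd (nat_lit 5) 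
(.lf (nat_lit 74385) (.g (nat_lit 2917) (.e (nat_lit 1788) (nat_lit 119) (.e (nat_lit 516115) (nat_lit 1) (.e (nat_lit 164399) (nat_lit 256) (.e (nat_lit 57373) (nat_lit 2) (.e (nat_lit 90172) (nat_lit 14) (.e (nat_lit 180243) (nat_lit 5) (.e (nat_lit 532513) (nat_lit 3) (.e (nat_lit 114699) (nat_lit 20) .nil)))))))) (.g (nat_lit 4) .nil .nil))) 
(.lf (nat_lit 74417) (.g (nat_lit 3718) (.e (nat_lit 1788) (nat_lit 119) (.e (nat_lit 516116) (nat_lit 1) (.e (nat_lit 164329) (nat_lit 230) (.e (nat_lit 163902) (nat_lit 12) (.e (nat_lit 426568) (nat_lit 34) (.e (nat_lit 393271) (nat_lit 23) (.e (nat_lit 426364) (nat_lit 15) .nil))))))) (.g (nat_lit 6) .nil .nil))))) (.nd (nat_lit 4) (.nd (nat_lit 5) 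
(.lf (nat_lit 74377) (.g (nat_lit 2396) (.e (nat_lit 1788) (nat_lit 119) (.e (nat_lit 516115) (nat_lit 1) (.e (nat_lit 164399) (nat_lit 256) (.e (nat_lit 57372) (nat_lit 2) (.e (nat_lit 90172) (nat_lit 14) (.e (nat_lit 180243) (nat_lit 5) (.e (nat_lit 532513) (nat_lit 3) (.e (nat_lit 122624) (nat_lit 20) .nil)))))))) (.g (nat_lit 4) .nil .nil))) 
(.lf (nat_lit 74409) (.g (nat_lit 2482) (.e (nat_lit 1788) (nat_lit 119) (.e (nat_lit 516116) (nat_lit 1) (.e (nat_lit 164329) (nat_lit 230) (.e (nat_lit 163902) (nat_lit 12) (.e (nat_lit 426568) (nat_lit 34) (.e (nat_lit 393266) (nat_lit 23) (.e (nat_lit 426402) (nat_lit 15) .nil))))))) (.g (nat_lit 5) .nil .nil)))) (.nd (nat_lit 5) 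
(.lf (nat_lit 74393) (.g (nat_lit 2710) (.e (nat_lit 1788) (nat_lit 119) (.e (nat_lit 516115) (nat_lit 1) (.e (nat_lit 164399) (nat_lit 256) (.e (nat_lit 57375) (nat_lit 2) (.e (nat_lit 90172) (nat_lit 14) (.e (nat_lit 180243) (nat_lit 5) (.e (nat_lit 532513) (nat_lit 3) (.e (nat_lit 114699) (nat_lit 20) .nil)))))))) (.g (nat_lit 4) .nil .nil))) 
(.lf (nat_lit 74425) (.g (nat_lit 2111) (.e (nat_lit 1788) (nat_lit 119) (.e (nat_lit 516116) (nat_lit 1) (.e (nat_lit 164330) (nat_lit 230) (.e (nat_lit 163913) (nat_lit 12) (.e (nat_lit 426565) (nat_lit 34) (.e (nat_lit 393273) (nat_lit 23) (.e (nat_lit 426402) (nat_lit 15) .nil))))))) (.g (nat_lit 4) .nil .nil)))))) (.nd (nat_lit 3) (.nd (nat_lit 4) (.nd (nat_lit 5) 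
(.lf (nat_lit 74373) (.g (nat_lit 2929) (.e (nat_lit 1788) (nat_lit 119) (.e (nat_lit 516115) (nat_lit 1) (.e (nat_lit 164398) (nat_lit 256) (.e (nat_lit 57373) (nat_lit 2) (.e (nat_lit 90174) (nat_lit 14) (.e (nat_lit 180243) (nat_lit 5) (.e (nat_lit 532513) (nat_lit 3) (.e (nat_lit 114699) (nat_lit 20) .nil)))))))) (.g (nat_lit 4) .nil .nil))) 
(.lf (nat_lit 74405) (.g (nat_lit 4009) (.e (nat_lit 1788) (nat_lit 119) (.e (nat_lit 516116) (nat_lit 1) (.e (nat_lit 164329) (nat_lit 230) (.e (nat_lit 163902) (nat_lit 12) (.e (nat_lit 426566) (nat_lit 34) (.e (nat_lit 393272) (nat_lit 23) (.e (nat_lit 426402) (nat_lit 15) .nil))))))) (.g (nat_lit 0) .nil .nil)))) (.nd (nat_lit 5) 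
(.lf (nat_lit 74389) (.g (nat_lit 4140) (.e (nat_lit 1788) (nat_lit 119) (.e (nat_lit 516115) (nat_lit 1) (.e (nat_lit 164399) (nat_lit 256) (.e (nat_lit 57373) (nat_lit 2) (.e (nat_lit 90174) (nat_lit 14) (.e (nat_lit 180243) (nat_lit 5) (.e (nat_lit 532513) (nat_lit 3) (.e (nat_lit 114699) (nat_lit 20) .nil)))))))) (.g (nat_lit 6) .nil .nil))) 
(.lf (nat_lit 74421) (.g (nat_lit 2423) (.e (nat_lit 1788) (nat_lit 119) (.e (nat_lit 516116) (nat_lit 1) (.e (nat_lit 164329) (nat_lit 230) (.e (nat_lit 163904) (nat_lit 12) (.e (nat_lit 426566) (nat_lit 34) (.e (nat_lit 393270) (nat_lit 23) (.e (nat_lit 426402) (nat_lit 15) .nil))))))) (.g (nat_lit 5) .nil .nil))))) (.nd (nat_lit 4) (.nd (nat_lit 5) 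
(.lf (nat_lit 74381) (.g (nat_lit 2844) (.e (nat_lit 1788) (nat_lit 119) (.e (nat_lit 516115) (nat_lit 1) (.e (nat_lit 164399) (nat_lit 256) (.e (nat_lit 57372) (nat_lit 2) (.e (nat_lit 90172) (nat_lit 14) (.e (nat_lit 180244) (nat_lit 5) (.e (nat_lit 532515) (nat_lit 3) (.e (nat_lit 114699) (nat_lit 20) .nil)))))))) (.g (nat_lit 4) .nil .nil))) 
(.lf (nat_lit 74413) (.g (nat_lit 3952) (.e (nat_lit 1788) (nat_lit 119) (.e (nat_lit 516116) (nat_lit 1) (.e (nat_lit 164329) (nat_lit 230) (.e (nat_lit 163902) (nat_lit 12) (.e (nat_lit 426568) (nat_lit 34) (.e (nat_lit 393267) (nat_lit 23) (.e (nat_lit 426402) (nat_lit 15) .nil))))))) (.g (nat_lit 0) .nil .nil)))) (.nd (nat_lit 5) 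
(.lf (nat_lit 74397) (.g (nat_lit 3017) (.e (nat_lit 1788) (nat_lit 119) (.e (nat_lit 516115) (nat_lit 1) (.e (nat_lit 164399) (nat_lit 256) (.e (nat_lit 57375) (nat_lit 2) (.e (nat_lit 90174) (nat_lit 14) (.e (nat_lit 180243) (nat_lit 5) (.e (nat_lit 532513) (nat_lit 3) (.e (nat_lit 114699) (nat_lit 20) .nil)))))))) (.g (nat_lit 5) .nil .nil))) 
(.lf (nat_lit 74429) (.g (nat_lit 4370) (.e (nat_lit 1788) (nat_lit 119) (.e (nat_lit 516116) (nat_lit 1) (.e (nat_lit 164332) (nat_lit 230) (.e (nat_lit 163905) (nat_lit 12) (.e (nat_lit 426566) (nat_lit 34) (.e (nat_lit 393273) (nat_lit 23) (.e (nat_lit 426402) (nat_lit 15) .nil))))))) (.g (nat_lit 0) .nil .nil))))))) (.nd (nat_lit 2) (.nd (nat_lit 3) (.nd (nat_lit 4) (.nd (nat_lit 5) 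
(.lf (nat_lit 74371) (.g (nat_lit 2012) (.e (nat_lit 1788) (nat_lit 119) (.e (nat_lit 516115) (nat_lit 1) (.e (nat_lit 164325) (nat_lit 230) (.e (nat_lit 163906) (nat_lit 12) .nil)))) .nil)) 
(.lf (nat_lit 74403) (.g (nat_lit 3313) (.e (nat_lit 1788) (nat_lit 119) (.e (nat_lit 516116) (nat_lit 1) (.e (nat_lit 164329) (nat_lit 230) (.e (nat_lit 163902) (nat_lit 12) (.e (nat_lit 426566) (nat_lit 34) (.e (nat_lit 393270) (nat_lit 23) (.e (nat_lit 426402) (nat_lit 15) .nil))))))) (.g (nat_lit 6) .nil .nil)))) (.nd (nat_lit 5) 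
(.lf (nat_lit 74387) (.g (nat_lit 2393) (.e (nat_lit 1788) (nat_lit 119) (.e (nat_lit 516115) (nat_lit 1) (.e (nat_lit 164399) (nat_lit 256) (.e (nat_lit 57373) (nat_lit 2) (.e (nat_lit 90172) (nat_lit 14) (.e (nat_lit 180244) (nat_lit 5) (.e (nat_lit 532513) (nat_lit 3) (.e (nat_lit 122624) (nat_lit 20) .nil)))))))) (.g (nat_lit 4) .nil .nil))) 
(.lf (nat_lit 74419) (.g (nat_lit 4539) (.e (nat_lit 1788) (nat_lit 119) (.e (nat_lit 516116) (nat_lit 1) (.e (nat_lit 164329) (nat_lit 230) (.e (nat_lit 163902) (nat_lit 12) (.e (nat_lit 426568) (nat_lit 34) (.e (nat_lit 393271) (nat_lit 23) (.e (nat_lit 426402) (nat_lit 15) .nil))))))) (.g (nat_lit 0) .nil .nil))))) (.nd (nat_lit 4) (.nd (nat_lit 5) 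
(.lf (nat_lit 74379) (.g (nat_lit 3396) (.e (nat_lit 1788) (nat_lit 119) (.e (nat_lit 516115) (nat_lit 1) (.e (nat_lit 164399) (nat_lit 256) (.e (nat_lit 57372) (nat_lit 2) (.e (nat_lit 90172) (nat_lit 14) (.e (nat_lit 180244) (nat_lit 5) (.e (nat_lit 532513) (nat_lit 3) (.e (nat_lit 114699) (nat_lit 20) .nil)))))))) (.g (nat_lit 5) .nil .nil))) 
(.lf (nat_lit 74411) (.g (nat_lit 2405) (.e (nat_lit 1788) (nat_lit 119) (.e (nat_lit 516116) (nat_lit 1) (.e (nat_lit 164329) (nat_lit 230) (.e (nat_lit 163902) (nat_lit 12) (.e (nat_lit 426568) (nat_lit 34) (.e (nat_lit 393267) (nat_lit 23) (.e (nat_lit 426362) (nat_lit 15) .nil))))))) (.g (nat_lit 5) .nil .nil)))) (.nd (nat_lit 5) 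
(.lf (nat_lit 74395) (.g (nat_lit 2576) (.e (nat_lit 1788) (nat_lit 119) (.e (nat_lit 516115) (nat_lit 1) (.e (nat_lit 164399) (nat_lit 256) (.e (nat_lit 57375) (nat_lit 2) (.e (nat_lit 90172) (nat_lit 14) (.e (nat_lit 180244) (nat_lit 5) (.e (nat_lit 532515) (nat_lit 3) (.e (nat_lit 114699) (nat_lit 20) .nil)))))))) (.g (nat_lit 4) .nil .nil))) 
(.lf (nat_lit 74427) (.g (nat_lit 3915) (.e (nat_lit 1788) (nat_lit 119) (.e (nat_lit 516116) (nat_lit 1) (.e (nat_lit 164332) (nat_lit 230) (.e (nat_lit 163902) (nat_lit 12) (.e (nat_lit 426566) (nat_lit 34) (.e (nat_lit 393273) (nat_lit 23) (.e (nat_lit 426364) (nat_lit 15) .nil))))))) (.g (nat_lit 6) .nil .nil)))))) (.nd (nat_lit 3) (.nd (nat_lit 4) (.nd (nat_lit 5) 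
(.lf (nat_lit 74375) (.g (nat_lit 2449) (.e (nat_lit 1788) (nat_lit 119) (.e (nat_lit 516115) (nat_lit 1) (.e (nat_lit 164399) (nat_lit 256) (.e (nat_lit 57372) (nat_lit 2) (.e (nat_lit 90167) (nat_lit 13) (.e (nat_lit 172067) (nat_lit 3) (.e (nat_lit 204837) (nat_lit 20) (.e (nat_lit 114699) (nat_lit 20) .nil)))))))) (.g (nat_lit 4) .nil .nil))) 
(.lf (nat_lit 74407) (.g (nat_lit 2321) (.e (nat_lit 1788) (nat_lit 119) (.e (nat_lit 516116) (nat_lit 1) (.e (nat_lit 164329) (nat_lit 230) (.e (nat_lit 163902) (nat_lit 12) (.e (nat_lit 426567) (nat_lit 34) (.e (nat_lit 393272) (nat_lit 23) (.e (nat_lit 426402) (nat_lit 15) .nil))))))) (.g (nat_lit 4) .nil .nil)))) (.nd (nat_lit 5) 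
(.lf (nat_lit 74391) (.g (nat_lit 3162) (.e (nat_lit 1788) (nat_lit 119) (.e (nat_lit 516115) (nat_lit 1) (.e (nat_lit 164399) (nat_lit 256) (.e (nat_lit 57373) (nat_lit 2) (.e (nat_lit 90174) (nat_lit 14) (.e (nat_lit 180243) (nat_lit 5) (.e (nat_lit 532515) (nat_lit 3) (.e (nat_lit 114699) (nat_lit 20) .nil)))))))) (.g (nat_lit 5) .nil .nil))) 
(.lf (nat_lit 74423) (.g (nat_lit 4521) (.e (nat_lit 1788) (nat_lit 119) (.e (nat_lit 516116) (nat_lit 1) (.e (nat_lit 164330) (nat_lit 230) (.e (nat_lit 163902) (nat_lit 12) (.e (nat_lit 426566) (nat_lit 34) (.e (nat_lit 393273) (nat_lit 23) (.e (nat_lit 426364) (nat_lit 15) .nil))))))) (.g (nat_lit 6) .nil .nil))))) (.nd (nat_lit 4) (.nd (nat_lit 5) 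
(.lf (nat_lit 74383) (.g (nat_lit 2324) (.e (nat_lit 1788) (nat_lit 119) (.e (nat_lit 516115) (nat_lit 1) (.e (nat_lit 164399) (nat_lit 256) (.e (nat_lit 57372) (nat_lit 2) (.e (nat_lit 90174) (nat_lit 14) (.e (nat_lit 180243) (nat_lit 5) (.e (nat_lit 532513) (nat_lit 3) (.e (nat_lit 122624) (nat_lit 20) .nil)))))))) (.g (nat_lit 4) .nil .nil))) 
(.lf (nat_lit 74415) (.g (nat_lit 3347) (.e (nat_lit 1788) (nat_lit 119) (.e (nat_lit 516116) (nat_lit 1) (.e (nat_lit 164329) (nat_lit 230) (.e (nat_lit 163902) (nat_lit 12) (.e (nat_lit 426568) (nat_lit 34) (.e (nat_lit 393270) (nat_lit 23) (.e (nat_lit 426402) (nat_lit 15) .nil))))))) (.g (nat_lit 6) .nil .nil)))) (.nd (nat_lit 5) 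
(.lf (nat_lit 74399) (.g (nat_lit 915) (.e (nat_lit 1788) (nat_lit 119) (.e (nat_lit 516116) (nat_lit 1) (.e (nat_lit 164329) (nat_lit 230) (.e (nat_lit 163902) (nat_lit 12) .nil)))) .nil)) 
(.lf (nat_lit 74431) (.g (nat_lit 2489) (.e (nat_lit 1788) (nat_lit 119) (.e (nat_lit 516117) (nat_lit 1) (.e (nat_lit 164329) (nat_lit 230) (.e (nat_lit 163902) (nat_lit 12) .nil)))) .nil))))))))

noncomputable def tv1006 : DT := (.nd (nat_lit 0) (.nd (nat_lit 1) (.nd (nat_lit 2) (.nd (nat_lit 3) (.nd (nat_lit 4) (.nd (nat_lit 5) 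
(.lf (nat_lit 74432) (.g (nat_lit 3268) (.e (nat_lit 1788) (nat_lit 119) (.e (nat_lit 516117) (nat_lit 1) (.e (nat_lit 164329) (nat_lit 230) (.e (nat_lit 163902) (nat_lit 12) (.e (nat_lit 426566) (nat_lit 34) (.e (nat_lit 393270) (nat_lit 23) (.e (nat_lit 426402) (nat_lit 15) .nil))))))) (.g (nat_lit 4) .nil .nil))) 
(.lf (nat_lit 74464) (.g (nat_lit 2377) (.e (nat_lit 1788) (nat_lit 119) (.e (nat_lit 516119) (nat_lit 1) (.e (nat_lit 164326) (nat_lit 230) (.e (nat_lit 163907) (nat_lit 12) (.e (nat_lit 426566) (nat_lit 34) .nil))))) .nil))) (.nd (nat_lit 5) 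
(.lf (nat_lit 74448) (.g (nat_lit 1954) (.e (nat_lit 1788) (nat_lit 119) (.e (nat_lit 516118) (nat_lit 1) (.e (nat_lit 164179) (nat_lit 154) (.e (nat_lit 57446) (nat_lit 19) (.e (nat_lit 401152) (nat_lit 11) (.e (nat_lit 352294) (nat_lit 20) .nil)))))) (.g (nat_lit 4) .nil .nil))) 
(.lf (nat_lit 74480) (.g (nat_lit 2986) (.e (nat_lit 1788) (nat_lit 119) (.e (nat_lit 516120) (nat_lit 1) (.e (nat_lit 164330) (nat_lit 230) (.e (nat_lit 163943) (nat_lit 19) (.e (nat_lit 483341) (nat_lit 9) (.e (nat_lit 426198) (nat_lit 9) (.e (nat_lit 426402) (nat_lit 15) .nil))))))) (.g (nat_lit 4) .nil .nil))))) (.nd (nat_lit 4) (.nd (nat_lit 5) 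
(.lf (nat_lit 74440) (.g (nat_lit 2107) (.e (nat_lit 1788) (nat_lit 119) (.e (nat_lit 516117) (nat_lit 1) (.e (nat_lit 164330) (nat_lit 230) (.e (nat_lit 163905) (nat_lit 12) (.e (nat_lit 426566) (nat_lit 34) .nil))))) .nil)) 
(.lf (nat_lit 74472) (.g (nat_lit 4100) (.e (nat_lit 1788) (nat_lit 119) (.e (nat_lit 516120) (nat_lit 1) (.e (nat_lit 164330) (nat_lit 230) (.e (nat_lit 163902) (nat_lit 12) (.e (nat_lit 426566) (nat_lit 34) (.e (nat_lit 393273) (nat_lit 23) (.e (nat_lit 426402) (nat_lit 15) .nil))))))) (.g (nat_lit 7) .nil .nil)))) (.nd (nat_lit 5) 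
(.lf (nat_lit 74456) (.g (nat_lit 3857) (.e (nat_lit 1788) (nat_lit 119) (.e (nat_lit 516119) (nat_lit 1) (.e (nat_lit 164325) (nat_lit 230) (.e (nat_lit 163907) (nat_lit 12) (.e (nat_lit 426566) (nat_lit 34) (.e (nat_lit 393273) (nat_lit 23) (.e (nat_lit 426402) (nat_lit 15) .nil))))))) (.g (nat_lit 7) .nil .nil))) 
(.lf (nat_lit 74488) (.g (nat_lit 1736) (.e (nat_lit 1788) (nat_lit 119) (.e (nat_lit 516122) (nat_lit 2) (.e (nat_lit 213032) (nat_lit 11) (.e (nat_lit 24605) (nat_lit 2) (.e (nat_lit 90178) (nat_lit 15) (.e (nat_lit 196352) (nat_lit 0) .nil)))))) (.g (nat_lit 4) .nil .nil)))))) (.nd (nat_lit 3) (.nd (nat_lit 4) (.nd (nat_lit 5) 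
(.lf (nat_lit 74436) (.g (nat_lit 3453) (.e (nat_lit 1788) (nat_lit 119) (.e (nat_lit 516117) (nat_lit 1) (.e (nat_lit 164329) (nat_lit 230) (.e (nat_lit 163902) (nat_lit 12) (.e (nat_lit 426568) (nat_lit 34) (.e (nat_lit 393270) (nat_lit 23) (.e (nat_lit 426402) (nat_lit 15) .nil))))))) (.g (nat_lit 4) .nil .nil))) 
(.lf (nat_lit 74468) (.g (nat_lit 2439) (.e (nat_lit 1788) (nat_lit 119) (.e (nat_lit 516119) (nat_lit 1) (.e (nat_lit 164403) (nat_lit 256) (.e (nat_lit 57371) (nat_lit 2) (.e (nat_lit 90174) (nat_lit 14) .nil))))) .nil))) (.nd (nat_lit 5) 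
(.lf (nat_lit 74452) (.g (nat_lit 2642) (.e (nat_lit 1788) (nat_lit 119) (.e (nat_lit 516118) (nat_lit 1) (.e (nat_lit 164330) (nat_lit 230) (.e (nat_lit 163902) (nat_lit 12) (.e (nat_lit 426566) (nat_lit 34) (.e (nat_lit 393273) (nat_lit 23) (.e (nat_lit 426402) (nat_lit 15) .nil))))))) (.g (nat_lit 6) .nil .nil))) 
(.lf (nat_lit 74484) (.g (nat_lit 3483) (.e (nat_lit 1788) (nat_lit 119) (.e (nat_lit 516120) (nat_lit 1) (.e (nat_lit 164332) (nat_lit 230) (.e (nat_lit 163943) (nat_lit 19) (.e (nat_lit 483341) (nat_lit 9) (.e (nat_lit 426198) (nat_lit 9) (.e (nat_lit 426402) (nat_lit 15) .nil))))))) (.g (nat_lit 5) .nil .nil))))) (.nd (nat_lit 4) (.nd (nat_lit 5) 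
(.lf (nat_lit 74444) (.g (nat_lit 2820) (.e (nat_lit 1788) (nat_lit 119) (.e (nat_lit 516117) (nat_lit 1) (.e (nat_lit 164332) (nat_lit 230) (.e (nat_lit 163905) (nat_lit 12) (.e (nat_lit 426566) (nat_lit 34) (.e (nat_lit 393273) (nat_lit 23) (.e (nat_lit 426402) (nat_lit 15) .nil))))))) (.g (nat_lit 5) .nil .nil))) 
(.lf (nat_lit 74476) (.g (nat_lit 2741) (.e (nat_lit 1788) (nat_lit 119) (.e (nat_lit 516120) (nat_lit 1) (.e (nat_lit 164330) (nat_lit 230) (.e (nat_lit 163913) (nat_lit 12) (.e (nat_lit 433920) (nat_lit 34) .nil))))) .nil))) (.nd (nat_lit 5) 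
(.lf (nat_lit 74460) (.g (nat_lit 3001) (.e (nat_lit 1788) (nat_lit 119) (.e (nat_lit 516119) (nat_lit 1) (.e (nat_lit 164325) (nat_lit 230) (.e (nat_lit 163943) (nat_lit 19) (.e (nat_lit 483341) (nat_lit 9) (.e (nat_lit 426198) (nat_lit 9) (.e (nat_lit 426402) (nat_lit 15) .nil))))))) (.g (nat_lit 5) .nil .nil))) 
(.lf (nat_lit 74492) (.g (nat_lit 1969) (.e (nat_lit 1788) (nat_lit 119) (.e (nat_lit 516123) (nat_lit 2) (.e (nat_lit 213030) (nat_lit 11) (.e (nat_lit 24604) (nat_lit 2) (.e (nat_lit 90178) (nat_lit 15) (.e (nat_lit 196352) (nat_lit 0) .nil)))))) (.g (nat_lit 5) .nil .nil))))))) (.nd (nat_lit 2) (.nd (nat_lit 3) (.nd (nat_lit 4) (.nd (nat_lit 5) 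
(.lf (nat_lit 74434) (.g (nat_lit 2997) (.e (nat_lit 1788) (nat_lit 119) (.e (nat_lit 516117) (nat_lit 1) (.e (nat_lit 164329) (nat_lit 230) (.e (nat_lit 163902) (nat_lit 12) (.e (nat_lit 426568) (nat_lit 34) .nil))))) .nil)) 
(.lf (nat_lit 74466) (.g (nat_lit 3913) (.e (nat_lit 1788) (nat_lit 119) (.e (nat_lit 516119) (nat_lit 1) (.e (nat_lit 164326) (nat_lit 230) (.e (nat_lit 163941) (nat_lit 19) (.e (nat_lit 483341) (nat_lit 9) (.e (nat_lit 426198) (nat_lit 9) (.e (nat_lit 426402) (nat_lit 15) .nil))))))) (.g (nat_lit 0) .nil .nil)))) (.nd (nat_lit 5) 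
(.lf (nat_lit 74450) (.g (nat_lit 2918) (.e (nat_lit 1788) (nat_lit 119) (.e (nat_lit 516118) (nat_lit 1) (.e (nat_lit 164183) (nat_lit 154) (.e (nat_lit 57378) (nat_lit 3) (.e (nat_lit 98342) (nat_lit 20) (.e (nat_lit 221211) (nat_lit 22) (.e (nat_lit 196666) (nat_lit 13) (.e (nat_lit 65550) (nat_lit 0) .nil)))))))) (.g (nat_lit 5) .nil .nil))) 
(.lf (nat_lit 74482) (.g (nat_lit 3459) (.e (nat_lit 1788) (nat_lit 119) (.e (nat_lit 516120) (nat_lit 1) (.e (nat_lit 164332) (nat_lit 230) (.e (nat_lit 163905) (nat_lit 12) (.e (nat_lit 426566) (nat_lit 34) (.e (nat_lit 393273) (nat_lit 23) (.e (nat_lit 426402) (nat_lit 15) .nil))))))) (.g (nat_lit 5) .nil .nil))))) (.nd (nat_lit 4) (.nd (nat_lit 5) 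
(.lf (nat_lit 74442) (.g (nat_lit 2379) (.e (nat_lit 1788) (nat_lit 119) (.e (nat_lit 516117) (nat_lit 1) (.e (nat_lit 164330) (nat_lit 230) (.e (nat_lit 163913) (nat_lit 12) (.e (nat_lit 433920) (nat_lit 34) .nil))))) .nil)) 
(.lf (nat_lit 74474) (.g (nat_lit 2976) (.e (nat_lit 1788) (nat_lit 119) (.e (nat_lit 516120) (nat_lit 1) (.e (nat_lit 164330) (nat_lit 230) (.e (nat_lit 163905) (nat_lit 12) (.e (nat_lit 426566) (nat_lit 34) (.e (nat_lit 393273) (nat_lit 23) (.e (nat_lit 426402) (nat_lit 15) .nil))))))) (.g (nat_lit 4) .nil .nil)))) (.nd (nat_lit 5) 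
(.lf (nat_lit 74458) (.g (nat_lit 2469) (.e (nat_lit 1788) (nat_lit 119) (.e (nat_lit 516119) (nat_lit 1) (.e (nat_lit 164325) (nat_lit 230) (.e (nat_lit 163941) (nat_lit 19) (.e (nat_lit 483341) (nat_lit 9) (.e (nat_lit 426197) (nat_lit 9) (.e (nat_lit 426402) (nat_lit 15) .nil))))))) (.g (nat_lit 4) .nil .nil))) 
(.lf (nat_lit 74490) (.g (nat_lit 2267) (.e (nat_lit 1788) (nat_lit 119) (.e (nat_lit 516123) (nat_lit 2) (.e (nat_lit 213019) (nat_lit 9) (.e (nat_lit 250) (nat_lit 21) (.e (nat_lit 336012) (nat_lit 2) (.e (nat_lit 90176) (nat_lit 15) (.e (nat_lit 196352) (nat_lit 0) .nil))))))) (.g (nat_lit 6) .nil .nil)))))) (.nd (nat_lit 3) (.nd (nat_lit 4) (.nd (nat_lit 5) 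
(.lf (nat_lit 74438) (.g (nat_lit 4069) (.e (nat_lit 1788) (nat_lit 119) (.e (nat_lit 516117) (nat_lit 1) (.e (nat_lit 164329) (nat_lit 230) (.e (nat_lit 163902) (nat_lit 12) (.e (nat_lit 426568) (nat_lit 34) (.e (nat_lit 393272) (nat_lit 23) (.e (nat_lit 426402) (nat_lit 15) .nil))))))) (.g (nat_lit 5) .nil .nil))) 
(.lf (nat_lit 74470) (.g (nat_lit 2253) (.e (nat_lit 1788) (nat_lit 119) (.e (nat_lit 516120) (nat_lit 1) (.e (nat_lit 164329) (nat_lit 230) (.e (nat_lit 163902) (nat_lit 12) .nil)))) .nil))) (.nd (nat_lit 5) 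
(.lf (nat_lit 74454) (.g (nat_lit 2571) (.e (nat_lit 1788) (nat_lit 119) (.e (nat_lit 516119) (nat_lit 1) (.e (nat_lit 164325) (nat_lit 230) (.e (nat_lit 163903) (nat_lit 12) (.e (nat_lit 426566) (nat_lit 34) (.e (nat_lit 393273) (nat_lit 23) (.e (nat_lit 426364) (nat_lit 15) .nil))))))) (.g (nat_lit 4) .nil .nil))) 
(.lf (nat_lit 74486) (.g (nat_lit 2184) (.e (nat_lit 1788) (nat_lit 119) (.e (nat_lit 516122) (nat_lit 2) (.e (nat_lit 213032) (nat_lit 11) (.e (nat_lit 24604) (nat_lit 2) (.e (nat_lit 90178) (nat_lit 15) (.e (nat_lit 196352) (nat_lit 0) .nil)))))) (.g (nat_lit 5) .nil .nil))))) (.nd (nat_lit 4) (.nd (nat_lit 5) 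
(.lf (nat_lit 74446) (.g (nat_lit 2864) (.e (nat_lit 1788) (nat_lit 119) (.e (nat_lit 516117) (nat_lit 1) (.e (nat_lit 164332) (nat_lit 230) (.e (nat_lit 163943) (nat_lit 19) (.e (nat_lit 483341) (nat_lit 9) (.e (nat_lit 426198) (nat_lit 9) (.e (nat_lit 426402) (nat_lit 15) .nil))))))) (.g (nat_lit 5) .nil .nil))) 
(.lf (nat_lit 74478) (.g (nat_lit 1887) (.e (nat_lit 1788) (nat_lit 119) (.e (nat_lit 516120) (nat_lit 1) (.e (nat_lit 164330) (nat_lit 230) (.e (nat_lit 171776) (nat_lit 12) .nil)))) .nil))) (.nd (nat_lit 5) 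
(.lf (nat_lit 74462) (.g (nat_lit 2960) (.e (nat_lit 1788) (nat_lit 119) (.e (nat_lit 516119) (nat_lit 1) (.e (nat_lit 164326) (nat_lit 230) (.e (nat_lit 163903) (nat_lit 12) (.e (nat_lit 426566) (nat_lit 34) (.e (nat_lit 393273) (nat_lit 23) (.e (nat_lit 426364) (nat_lit 15) .nil))))))) (.g (nat_lit 5) .nil .nil))) 
(.lf (nat_lit 74494) (.g (nat_lit 1933) (.e (nat_lit 1788) (nat_lit 119) (.e (nat_lit 516123) (nat_lit 2) (.e (nat_lit 213030) (nat_lit 11) (.e (nat_lit 24605) (nat_lit 2) (.e (nat_lit 90178) (nat_lit 15) (.e (nat_lit 196352) (nat_lit 0) .nil)))))) (.g (nat_lit 5) .nil .nil)))))))) (.nd (nat_lit 1) (.nd (nat_lit 2) (.nd (nat_lit 3) (.nd (nat_lit 4) (.nd (nat_lit 5) 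
(.lf (nat_lit 74433) (.g (nat_lit 3313) (.e (nat_lit 1788) (nat_lit 119) (.e (nat_lit 516117) (nat_lit 1) (.e (nat_lit 164329) (nat_lit 230) (.e (nat_lit 163902) (nat_lit 12) (.e (nat_lit 426566) (nat_lit 34) (.e (nat_lit 393271) (nat_lit 23) (.e (nat_lit 426402) (nat_lit 15) .nil))))))) (.g (nat_lit 4) .nil .nil))) 
(.lf (nat_lit 74465) (.g (nat_lit 3454) (.e (nat_lit 1788) (nat_lit 119) (.e (nat_lit 516119) (nat_lit 1) (.e (nat_lit 164326) (nat_lit 230) (.e (nat_lit 163941) (nat_lit 19) (.e (nat_lit 483341) (nat_lit 9) (.e (nat_lit 426197) (nat_lit 9) (.e (nat_lit 426402) (nat_lit 15) .nil))))))) (.g (nat_lit 5) .nil .nil)))) (.nd (nat_lit 5) 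
(.lf (nat_lit 74449) (.g (nat_lit 1933) (.e (nat_lit 1788) (nat_lit 119) (.e (nat_lit 516118) (nat_lit 1) (.e (nat_lit 164179) (nat_lit 154) (.e (nat_lit 57447) (nat_lit 19) (.e (nat_lit 401152) (nat_lit 11) (.e (nat_lit 352294) (nat_lit 20) .nil)))))) (.g (nat_lit 4) .nil .nil))) 
(.lf (nat_lit 74481) (.g (nat_lit 3462) (.e (nat_lit 1788) (nat_lit 119) (.e (nat_lit 516120) (nat_lit 1) (.e (nat_lit 164332) (nat_lit 230) (.e (nat_lit 163902) (nat_lit 12) (.e (nat_lit 426566) (nat_lit 34) (.e (nat_lit 393273) (nat_lit 23) (.e (nat_lit 426402) (nat_lit 15) .nil))))))) (.g (nat_lit 5) .nil .nil))))) (.nd (nat_lit 4) (.nd (nat_lit 5) 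
(.lf (nat_lit 74441) (.g (nat_lit 2468) (.e (nat_lit 1788) (nat_lit 119) (.e (nat_lit 516117) (nat_lit 1) (.e (nat_lit 164330) (nat_lit 230) (.e (nat_lit 163913) (nat_lit 12) (.e (nat_lit 426565) (nat_lit 34) (.e (nat_lit 393273) (nat_lit 23) (.e (nat_lit 426402) (nat_lit 15) .nil))))))) (.g (nat_lit 4) .nil .nil))) 
(.lf (nat_lit 74473) (.g (nat_lit 1744) (.e (nat_lit 1788) (nat_lit 119) (.e (nat_lit 516120) (nat_lit 1) (.e (nat_lit 164330) (nat_lit 230) (.e (nat_lit 163905) (nat_lit 12) .nil)))) .nil))) (.nd (nat_lit 5) 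
(.lf (nat_lit 74457) (.g (nat_lit 2343) (.e (nat_lit 1788) (nat_lit 119) (.e (nat_lit 516119) (nat_lit 1) (.e (nat_lit 164325) (nat_lit 230) (.e (nat_lit 163907) (nat_lit 12) (.e (nat_lit 433920) (nat_lit 34) .nil))))) .nil)) 
(.lf (nat_lit 74489) (.g (nat_lit 2143) (.e (nat_lit 1788) (nat_lit 119) (.e (nat_lit 516123) (nat_lit 2) (.e (nat_lit 213015) (nat_lit 9) (.e (nat_lit 250) (nat_lit 21) (.e (nat_lit 336012) (nat_lit 2) (.e (nat_lit 90176) (nat_lit 15) (.e (nat_lit 196352) (nat_lit 0) .nil))))))) (.g (nat_lit 6) .nil .nil)))))) (.nd (nat_lit 3) (.nd (nat_lit 4) (.nd (nat_lit 5) 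
(.lf (nat_lit 74437) (.g (nat_lit 4664) (.e (nat_lit 1788) (nat_lit 119) (.e (nat_lit 516117) (nat_lit 1) (.e (nat_lit 164329) (nat_lit 230) (.e (nat_lit 163902) (nat_lit 12) (.e (nat_lit 426568) (nat_lit 34) (.e (nat_lit 393271) (nat_lit 23) (.e (nat_lit 426402) (nat_lit 15) .nil))))))) (.g (nat_lit 6) .nil .nil))) 
(.lf (nat_lit 74469) (.g (nat_lit 2813) (.e (nat_lit 1788) (nat_lit 119) (.e (nat_lit 516119) (nat_lit 1) (.e (nat_lit 164403) (nat_lit 256) (.e (nat_lit 57373) (nat_lit 2) (.e (nat_lit 90174) (nat_lit 14) (.e (nat_lit 180243) (nat_lit 5) (.e (nat_lit 532513) (nat_lit 3) (.e (nat_lit 114699) (nat_lit 20) .nil)))))))) (.g (nat_lit 4) .nil .nil)))) (.nd (nat_lit 5) 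
(.lf (nat_lit 74453) (.g (nat_lit 3112) (.e (nat_lit 1788) (nat_lit 119) (.e (nat_lit 516119) (nat_lit 1) (.e (nat_lit 164324) (nat_lit 230) (.e (nat_lit 163903) (nat_lit 12) (.e (nat_lit 426566) (nat_lit 34) (.e (nat_lit 393273) (nat_lit 23) (.e (nat_lit 426402) (nat_lit 15) .nil))))))) (.g (nat_lit 5) .nil .nil))) 
(.lf (nat_lit 74485) (.g (nat_lit 2529) (.e (nat_lit 1788) (nat_lit 119) (.e (nat_lit 516122) (nat_lit 2) (.e (nat_lit 213032) (nat_lit 11) (.e (nat_lit 24604) (nat_lit 2) (.e (nat_lit 90176) (nat_lit 15) (.e (nat_lit 196352) (nat_lit 0) .nil)))))) (.g (nat_lit 5) .nil .nil))))) (.nd (nat_lit 4) (.nd (nat_lit 5) 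
(.lf (nat_lit 74445) (.g (nat_lit 2661) (.e (nat_lit 1788) (nat_lit 119) (.e (nat_lit 516117) (nat_lit 1) (.e (nat_lit 164332) (nat_lit 230) (.e (nat_lit 163941) (nat_lit 19) (.e (nat_lit 483341) (nat_lit 9) (.e (nat_lit 426198) (nat_lit 9) (.e (nat_lit 426402) (nat_lit 15) .nil))))))) (.g (nat_lit 5) .nil .nil))) 
(.lf (nat_lit 74477) (.g (nat_lit 1681) (.e (nat_lit 1788) (nat_lit 119) (.e (nat_lit 516120) (nat_lit 1) (.e (nat_lit 164330) (nat_lit 230) (.e (nat_lit 163915) (nat_lit 12) .nil)))) .nil))) (.nd (nat_lit 5) 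
(.lf (nat_lit 74461) (.g (nat_lit 3452) (.e (nat_lit 1788) (nat_lit 119) (.e (nat_lit 516119) (nat_lit 1) (.e (nat_lit 164325) (nat_lit 230) (.e (nat_lit 163944) (nat_lit 19) (.e (nat_lit 483341) (nat_lit 9) (.e (nat_lit 426198) (nat_lit 9) (.e (nat_lit 426402) (nat_lit 15) .nil))))))) (.g (nat_lit 6) .nil .nil))) 
(.lf (nat_lit 74493) (.g (nat_lit 1895) (.e (nat_lit 1788) (nat_lit 119) (.e (nat_lit 516123) (nat_lit 2) (.e (nat_lit 213030) (nat_lit 11) (.e (nat_lit 24605) (nat_lit 2) (.e (nat_lit 90176) (nat_lit 15) (.e (nat_lit 196352) (nat_lit 0) .nil)))))) (.g (nat_lit 5) .nil .nil))))))) (.nd (nat_lit 2) (.nd (nat_lit 3) (.nd (nat_lit 4) (.nd (nat_lit 5) 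
(.lf (nat_lit 74435) (.g (nat_lit 4060) (.e (nat_lit 1788) (nat_lit 119) (.e (nat_lit 516117) (nat_lit 1) (.e (nat_lit 164329) (nat_lit 230) (.e (nat_lit 163902) (nat_lit 12) (.e (nat_lit 426568) (nat_lit 34) (.e (nat_lit 393267) (nat_lit 23) (.e (nat_lit 426402) (nat_lit 15) .nil))))))) (.g (nat_lit 5) .nil .nil))) 
(.lf (nat_lit 74467) (.g (nat_lit 2697) (.e (nat_lit 1788) (nat_lit 119) (.e (nat_lit 516119) (nat_lit 1) (.e (nat_lit 164326) (nat_lit 230) (.e (nat_lit 163944) (nat_lit 19) (.e (nat_lit 483341) (nat_lit 9) (.e (nat_lit 426198) (nat_lit 9) (.e (nat_lit 426402) (nat_lit 15) .nil))))))) (.g (nat_lit 4) .nil .nil)))) (.nd (nat_lit 5) 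
(.lf (nat_lit 74451) (.g (nat_lit 2324) (.e (nat_lit 1788) (nat_lit 119) (.e (nat_lit 516118) (nat_lit 1) (.e (nat_lit 164327) (nat_lit 230) (.e (nat_lit 163907) (nat_lit 12) (.e (nat_lit 426566) (nat_lit 34) (.e (nat_lit 393273) (nat_lit 23) (.e (nat_lit 426402) (nat_lit 15) .nil))))))) (.g (nat_lit 5) .nil .nil))) 
(.lf (nat_lit 74483) (.g (nat_lit 3250) (.e (nat_lit 1788) (nat_lit 119) (.e (nat_lit 516120) (nat_lit 1) (.e (nat_lit 164332) (nat_lit 230) (.e (nat_lit 163941) (nat_lit 19) (.e (nat_lit 483341) (nat_lit 9) (.e (nat_lit 426198) (nat_lit 9) (.e (nat_lit 426402) (nat_lit 15) .nil))))))) (.g (nat_lit 5) .nil .nil))))) (.nd (nat_lit 4) (.nd (nat_lit 5) 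
(.lf (nat_lit 74443) (.g (nat_lit 2852) (.e (nat_lit 1788) (nat_lit 119) (.e (nat_lit 516117) (nat_lit 1) (.e (nat_lit 164332) (nat_lit 230) (.e (nat_lit 163902) (nat_lit 12) (.e (nat_lit 426566) (nat_lit 34) (.e (nat_lit 393273) (nat_lit 23) (.e (nat_lit 426402) (nat_lit 15) .nil))))))) (.g (nat_lit 5) .nil .nil))) 
(.lf (nat_lit 74475) (.g (nat_lit 1758) (.e (nat_lit 1788) (nat_lit 119) (.e (nat_lit 516120) (nat_lit 1) (.e (nat_lit 164330) (nat_lit 230) (.e (nat_lit 163913) (nat_lit 12) .nil)))) .nil))) (.nd (nat_lit 5) 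
(.lf (nat_lit 74459) (.g (nat_lit 3724) (.e (nat_lit 1788) (nat_lit 119) (.e (nat_lit 516119) (nat_lit 1) (.e (nat_lit 164325) (nat_lit 230) (.e (nat_lit 163941) (nat_lit 19) (.e (nat_lit 483341) (nat_lit 9) (.e (nat_lit 426198) (nat_lit 9) (.e (nat_lit 426402) (nat_lit 15) .nil))))))) (.g (nat_lit 7) .nil .nil))) 
(.lf (nat_lit 74491) (.g (nat_lit 2207) (.e (nat_lit 1788) (nat_lit 119) (.e (nat_lit 516123) (nat_lit 2) (.e (nat_lit 213030) (nat_lit 11) (.e (nat_lit 24604) (nat_lit 2) (.e (nat_lit 90176) (nat_lit 15) (.e (nat_lit 196352) (nat_lit 0) .nil)))))) (.g (nat_lit 5) .nil .nil)))))) (.nd (nat_lit 3) (.nd (nat_lit 4) (.nd (nat_lit 5) 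
(.lf (nat_lit 74439) (.g (nat_lit 3099) (.e (nat_lit 1788) (nat_lit 119) (.e (nat_lit 516117) (nat_lit 1) (.e (nat_lit 164330) (nat_lit 230) (.e (nat_lit 163902) (nat_lit 12) (.e (nat_lit 426566) (nat_lit 34) (.e (nat_lit 393273) (nat_lit 23) (.e (nat_lit 426402) (nat_lit 15) .nil))))))) (.g (nat_lit 5) .nil .nil))) 
(.lf (nat_lit 74471) (.g (nat_lit 2546) (.e (nat_lit 1788) (nat_lit 119) (.e (nat_lit 516120) (nat_lit 1) (.e (nat_lit 164330) (nat_lit 230) (.e (nat_lit 163902) (nat_lit 12) (.e (nat_lit 426566) (nat_lit 34) (.e (nat_lit 393273) (nat_lit 23) (.e (nat_lit 426364) (nat_lit 15) .nil))))))) (.g (nat_lit 4) .nil .nil)))) (.nd (nat_lit 5) 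
(.lf (nat_lit 74455) (.g (nat_lit 4360) (.e (nat_lit 1788) (nat_lit 119) (.e (nat_lit 516119) (nat_lit 1) (.e (nat_lit 164325) (nat_lit 230) (.e (nat_lit 163903) (nat_lit 12) (.e (nat_lit 426566) (nat_lit 34) (.e (nat_lit 393273) (nat_lit 23) (.e (nat_lit 426402) (nat_lit 15) .nil))))))) (.g (nat_lit 7) .nil .nil))) 
(.lf (nat_lit 74487) (.g (nat_lit 1696) (.e (nat_lit 1788) (nat_lit 119) (.e (nat_lit 516122) (nat_lit 2) (.e (nat_lit 213032) (nat_lit 11) (.e (nat_lit 24605) (nat_lit 2) (.e (nat_lit 90176) (nat_lit 15) (.e (nat_lit 196352) (nat_lit 0) .nil)))))) (.g (nat_lit 4) .nil .nil))))) (.nd (nat_lit 4) (.nd (nat_lit 5) 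
(.lf (nat_lit 74447) (.g (nat_lit 2363) (.e (nat_lit 1788) (nat_lit 119) (.e (nat_lit 516118) (nat_lit 1) (.e (nat_lit 164179) (nat_lit 154) (.e (nat_lit 57445) (nat_lit 19) (.e (nat_lit 401152) (nat_lit 11) (.e (nat_lit 352294) (nat_lit 20) .nil)))))) (.g (nat_lit 4) .nil .nil))) 
(.lf (nat_lit 74479) (.g (nat_lit 1801) (.e (nat_lit 1788) (nat_lit 119) (.e (nat_lit 516120) (nat_lit 1) (.e (nat_lit 164330) (nat_lit 230) (.e (nat_lit 163943) (nat_lit 19) .nil)))) .nil))) (.nd (nat_lit 5) 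
(.lf (nat_lit 74463) (.g (nat_lit 2081) (.e (nat_lit 1788) (nat_lit 119) (.e (nat_lit 516119) (nat_lit 1) (.e (nat_lit 164326) (nat_lit 230) (.e (nat_lit 163903) (nat_lit 12) (.e (nat_lit 426568) (nat_lit 34) (.e (nat_lit 393272) (nat_lit 23) (.e (nat_lit 426402) (nat_lit 15) .nil))))))) (.g (nat_lit 4) .nil .nil))) 
(.lf (nat_lit 74495) (.g (nat_lit 2958) (.e (nat_lit 1788) (nat_lit 119) (.e (nat_lit 516123) (nat_lit 2) (.e (nat_lit 213032) (nat_lit 11) (.e (nat_lit 24604) (nat_lit 2) (.e (nat_lit 90176) (nat_lit 15) (.e (nat_lit 196352) (nat_lit 0) .nil)))))) (.g (nat_lit 5) .nil .nil)))))))))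

noncomputable def tv1007 : DT := (.nd (nat_lit 0) (.nd (nat_lit 1) (.nd (nat_lit 2) (.nd (nat_lit 3) (.nd (nat_lit 4) (.nd (nat_lit 5) 
(.lf (nat_lit 74496) (.g (nat_lit 2587) (.e (nat_lit 1788) (nat_lit 119) (.e (nat_lit 516123) (nat_lit 2) (.e (nat_lit 213032) (nat_lit 11) (.e (nat_lit 24604) (nat_lit 2) (.e (nat_lit 90178) (nat_lit 15) (.e (nat_lit 196352) (nat_lit 0) .nil)))))) (.g (nat_lit 5) .nil .nil))) 
(.lf (nat_lit 74528) (.g (nat_lit 2937) (.e (nat_lit 1788) (nat_lit 119) (.e (nat_lit 516130) (nat_lit 3) (.e (nat_lit 221194) (nat_lit 11) (.e (nat_lit 336004) (nat_lit 2) (.e (nat_lit 90176) (nat_lit 15) (.e (nat_lit 196352) (nat_lit 0) .nil)))))) (.g (nat_lit 5) .nil .nil)))) (.nd (nat_lit 5) 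
(.lf (nat_lit 74512) (.g (nat_lit 3051) (.e (nat_lit 1788) (nat_lit 119) (.e (nat_lit 516129) (nat_lit 3) (.e (nat_lit 221210) (nat_lit 22) (.e (nat_lit 196668) (nat_lit 14) (.e (nat_lit 73747) (nat_lit 3) (.e (nat_lit 516119) (nat_lit 1) (.e (nat_lit 164185) (nat_lit 155) (.e (nat_lit 122883) (nat_lit 0) .nil)))))))) (.g (nat_lit 5) .nil .nil))) 
(.lf (nat_lit 74544) (.g (nat_lit 2777) (.e (nat_lit 1788) (nat_lit 119) (.e (nat_lit 516138) (nat_lit 7) (.e (nat_lit 409646) (nat_lit 18) (.e (nat_lit 303117) (nat_lit 2) (.e (nat_lit 196630) (nat_lit 9) .nil))))) .nil)))) (.nd (nat_lit 4) (.nd (nat_lit 5) 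
(.lf (nat_lit 74504) (.g (nat_lit 2479) (.e (nat_lit 1788) (nat_lit 119) (.e (nat_lit 516129) (nat_lit 3) (.e (nat_lit 221194) (nat_lit 11) (.e (nat_lit 336012) (nat_lit 2) (.e (nat_lit 90178) (nat_lit 15) (.e (nat_lit 196352) (nat_lit 0) .nil)))))) (.g (nat_lit 5) .nil .nil))) 
(.lf (nat_lit 74536) (.g (nat_lit 1181) (.e (nat_lit 1788) (nat_lit 119) (.e (nat_lit 516130) (nat_lit 3) (.e (nat_lit 221194) (nat_lit 11) (.e (nat_lit 336020) (nat_lit 3) .nil)))) .nil))) (.nd (nat_lit 5) 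
(.lf (nat_lit 74520) (.g (nat_lit 3521) (.e (nat_lit 1788) (nat_lit 119) (.e (nat_lit 516129) (nat_lit 3) (.e (nat_lit 221210) (nat_lit 22) (.e (nat_lit 196670) (nat_lit 14) (.e (nat_lit 73746) (nat_lit 3) (.e (nat_lit 516119) (nat_lit 1) (.e (nat_lit 164184) (nat_lit 155) (.e (nat_lit 122883) (nat_lit 0) .nil)))))))) (.g (nat_lit 5) .nil .nil))) 
(.lf (nat_lit 74552) (.g (nat_lit 1711) (.e (nat_lit 1788) (nat_lit 119) (.e (nat_lit 516139) (nat_lit 7) (.e (nat_lit 409643) (nat_lit 18) (.e (nat_lit 303112) (nat_lit 0) (.e (nat_lit 3252) (nat_lit 197) .nil))))) .nil))))) (.nd (nat_lit 3) (.nd (nat_lit 4) (.nd (nat_lit 5) 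
(.lf (nat_lit 74500) (.g (nat_lit 1749) (.e (nat_lit 1788) (nat_lit 119) (.e (nat_lit 516129) (nat_lit 3) (.e (nat_lit 221193) (nat_lit 11) (.e (nat_lit 336012) (nat_lit 2) (.e (nat_lit 90178) (nat_lit 15) (.e (nat_lit 196352) (nat_lit 0) .nil)))))) (.g (nat_lit 4) .nil .nil))) 
(.lf (nat_lit 74532) (.g (nat_lit 3113) (.e (nat_lit 1788) (nat_lit 119) (.e (nat_lit 516130) (nat_lit 3) (.e (nat_lit 221194) (nat_lit 11) (.e (nat_lit 336011) (nat_lit 2) (.e (nat_lit 90176) (nat_lit 15) (.e (nat_lit 196352) (nat_lit 0) .nil)))))) (.g (nat_lit 4) .nil .nil)))) (.nd (nat_lit 5) 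
(.lf (nat_lit 74516) (.g (nat_lit 2394) (.e (nat_lit 1788) (nat_lit 119) (.e (nat_lit 516129) (nat_lit 3) (.e (nat_lit 221210) (nat_lit 22) (.e (nat_lit 196668) (nat_lit 14) (.e (nat_lit 81664) (nat_lit 5) (.e (nat_lit 532502) (nat_lit 1) (.e (nat_lit 57683) (nat_lit 155) (.e (nat_lit 122883) (nat_lit 0) .nil)))))))) (.g (nat_lit 4) .nil .nil))) 
(.lf (nat_lit 74548) (.g (nat_lit 2153) (.e (nat_lit 1788) (nat_lit 119) (.e (nat_lit 516139) (nat_lit 7) (.e (nat_lit 409616) (nat_lit 10) (.e (nat_lit 5756) (nat_lit 315) (.e (nat_lit 163962) (nat_lit 25) (.e (nat_lit 532548) (nat_lit 11) (.e (nat_lit 352294) (nat_lit 20) .nil))))))) (.g (nat_lit 4) .nil .nil))))) (.nd (nat_lit 4) (.nd (nat_lit 5) 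
(.lf (nat_lit 74508) (.g (nat_lit 2733) (.e (nat_lit 1788) (nat_lit 119) (.e (nat_lit 516129) (nat_lit 3) (.e (nat_lit 221210) (nat_lit 22) (.e (nat_lit 196668) (nat_lit 14) (.e (nat_lit 73747) (nat_lit 3) (.e (nat_lit 516117) (nat_lit 1) (.e (nat_lit 164184) (nat_lit 155) (.e (nat_lit 122883) (nat_lit 0) .nil)))))))) (.g (nat_lit 4) .nil .nil))) 
(.lf (nat_lit 74540) (.g (nat_lit 3170) (.e (nat_lit 1788) (nat_lit 119) (.e (nat_lit 516130) (nat_lit 3) (.e (nat_lit 221212) (nat_lit 22) (.e (nat_lit 196670) (nat_lit 14) (.e (nat_lit 73746) (nat_lit 3) (.e (nat_lit 516120) (nat_lit 1) (.e (nat_lit 164184) (nat_lit 155) (.e (nat_lit 122883) (nat_lit 0) .nil)))))))) (.g (nat_lit 6) .nil .nil)))) (.nd (nat_lit 5) 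
(.lf (nat_lit 74524) (.g (nat_lit 1785) (.e (nat_lit 1788) (nat_lit 119) (.e (nat_lit 516130) (nat_lit 3) (.e (nat_lit 221193) (nat_lit 11) (.e (nat_lit 336010) (nat_lit 2) (.e (nat_lit 90178) (nat_lit 15) (.e (nat_lit 196352) (nat_lit 0) .nil)))))) (.g (nat_lit 5) .nil .nil))) 
(.lf (nat_lit 74556) (.g (nat_lit 2543) (.e (nat_lit 1788) (nat_lit 119) (.e (nat_lit 516139) (nat_lit 7) (.e (nat_lit 409643) (nat_lit 18) (.e (nat_lit 303117) (nat_lit 2) (.e (nat_lit 196672) (nat_lit 15) (.e (nat_lit 81941) (nat_lit 20) .nil)))))) (.g (nat_lit 4) .nil .nil))))))) (.nd (nat_lit 2) (.nd (nat_lit 3) (.nd (nat_lit 4) (.nd (nat_lit 5) 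
(.lf (nat_lit 74498) (.g (nat_lit 1651) (.e (nat_lit 1788) (nat_lit 119) (.e (nat_lit 516127) (nat_lit 2) (.e (nat_lit 213032) (nat_lit 11) (.e (nat_lit 24604) (nat_lit 2) (.e (nat_lit 90176) (nat_lit 15) (.e (nat_lit 196352) (nat_lit 0) .nil)))))) (.g (nat_lit 4) .nil .nil))) 
(.lf (nat_lit 74530) (.g (nat_lit 2286) (.e (nat_lit 1788) (nat_lit 119) (.e (nat_lit 516130) (nat_lit 3) (.e (nat_lit 221194) (nat_lit 11) (.e (nat_lit 336010) (nat_lit 2) (.e (nat_lit 90176) (nat_lit 15) (.e (nat_lit 196352) (nat_lit 0) .nil)))))) (.g (nat_lit 5) .nil .nil)))) (.nd (nat_lit 5) 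
(.lf (nat_lit 74514) (.g (nat_lit 2724) (.e (nat_lit 1788) (nat_lit 119) (.e (nat_lit 516129) (nat_lit 3) (.e (nat_lit 221210) (nat_lit 22) (.e (nat_lit 196668) (nat_lit 14) (.e (nat_lit 81664) (nat_lit 5) (.e (nat_lit 532490) (nat_lit 0) (.e (nat_lit 1040) (nat_lit 81) (.e (nat_lit 7270) (nat_lit 385) (.e (nat_lit 122883) (nat_lit 0) .nil))))))))) (.g (nat_lit 4) .nil .nil))) 
(.lf (nat_lit 74546) (.g (nat_lit 2294) (.e (nat_lit 1788) (nat_lit 119) (.e (nat_lit 516138) (nat_lit 7) (.e (nat_lit 409646) (nat_lit 18) (.e (nat_lit 303119) (nat_lit 3) (.e (nat_lit 204878) (nat_lit 31) .nil))))) .nil)))) (.nd (nat_lit 4) (.nd (nat_lit 5) 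
(.lf (nat_lit 74506) (.g (nat_lit 3314) (.e (nat_lit 1788) (nat_lit 119) (.e (nat_lit 516129) (nat_lit 3) (.e (nat_lit 221210) (nat_lit 22) (.e (nat_lit 196668) (nat_lit 14) (.e (nat_lit 73746) (nat_lit 3) (.e (nat_lit 516119) (nat_lit 1) (.e (nat_lit 164184) (nat_lit 155) (.e (nat_lit 122883) (nat_lit 0) .nil)))))))) (.g (nat_lit 5) .nil .nil))) 
(.lf (nat_lit 74538) (.g (nat_lit 2320) (.e (nat_lit 1788) (nat_lit 119) (.e (nat_lit 516130) (nat_lit 3) (.e (nat_lit 221212) (nat_lit 22) (.e (nat_lit 196670) (nat_lit 14) (.e (nat_lit 73746) (nat_lit 3) (.e (nat_lit 516117) (nat_lit 1) (.e (nat_lit 164184) (nat_lit 155) (.e (nat_lit 122883) (nat_lit 0) .nil)))))))) (.g (nat_lit 5) .nil .nil)))) (.nd (nat_lit 5) 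
(.lf (nat_lit 74522) (.g (nat_lit 1775) (.e (nat_lit 1788) (nat_lit 119) (.e (nat_lit 516130) (nat_lit 3) (.e (nat_lit 221193) (nat_lit 11) (.e (nat_lit 336009) (nat_lit 2) (.e (nat_lit 90176) (nat_lit 15) (.e (nat_lit 196352) (nat_lit 0) .nil)))))) (.g (nat_lit 5) .nil .nil))) 
(.lf (nat_lit 74554) (.g (nat_lit 3557) (.e (nat_lit 1788) (nat_lit 119) (.e (nat_lit 516139) (nat_lit 7) (.e (nat_lit 409643) (nat_lit 18) (.e (nat_lit 303117) (nat_lit 2) (.e (nat_lit 196630) (nat_lit 9) (.e (nat_lit 1573) (nat_lit 110) (.e (nat_lit 352294) (nat_lit 20) .nil))))))) (.g (nat_lit 5) .nil .nil)))))) (.nd (nat_lit 3) (.nd (nat_lit 4) (.nd (nat_lit 5) 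
(.lf (nat_lit 74502) (.g (nat_lit 2088) (.e (nat_lit 1788) (nat_lit 119) (.e (nat_lit 516129) (nat_lit 3) (.e (nat_lit 221194) (nat_lit 11) (.e (nat_lit 336010) (nat_lit 2) (.e (nat_lit 90178) (nat_lit 15) (.e (nat_lit 196352) (nat_lit 0) .nil)))))) (.g (nat_lit 5) .nil .nil))) 
(.lf (nat_lit 74534) (.g (nat_lit 2893) (.e (nat_lit 1788) (nat_lit 119) (.e (nat_lit 516130) (nat_lit 3) (.e (nat_lit 221194) (nat_lit 11) (.e (nat_lit 336012) (nat_lit 2) (.e (nat_lit 90176) (nat_lit 15) (.e (nat_lit 196352) (nat_lit 0) .nil)))))) (.g (nat_lit 5) .nil .nil)))) (.nd (nat_lit 5) 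
(.lf (nat_lit 74518) (.g (nat_lit 2758) (.e (nat_lit 1788) (nat_lit 119) (.e (nat_lit 516129) (nat_lit 3) (.e (nat_lit 221210) (nat_lit 22) (.e (nat_lit 196670) (nat_lit 14) (.e (nat_lit 73746) (nat_lit 3) (.e (nat_lit 516115) (nat_lit 1) (.e (nat_lit 164185) (nat_lit 155) (.e (nat_lit 122883) (nat_lit 0) .nil)))))))) (.g (nat_lit 4) .nil .nil))) 
(.lf (nat_lit 74550) (.g (nat_lit 2223) (.e (nat_lit 1788) (nat_lit 119) (.e (nat_lit 516139) (nat_lit 7) (.e (nat_lit 409617) (nat_lit 10) (.e (nat_lit 5762) (nat_lit 315) (.e (nat_lit 163962) (nat_lit 25) (.e (nat_lit 532548) (nat_lit 11) (.e (nat_lit 352294) (nat_lit 20) .nil))))))) (.g (nat_lit 6) .nil .nil))))) (.nd (nat_lit 4) (.nd (nat_lit 5) 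
(.lf (nat_lit 74510) (.g (nat_lit 2434) (.e (nat_lit 1788) (nat_lit 119) (.e (nat_lit 516129) (nat_lit 3) (.e (nat_lit 221210) (nat_lit 22) (.e (nat_lit 196668) (nat_lit 14) (.e (nat_lit 73747) (nat_lit 3) (.e (nat_lit 516119) (nat_lit 1) (.e (nat_lit 164179) (nat_lit 154) (.e (nat_lit 57354) (nat_lit 0) .nil)))))))) (.g (nat_lit 4) .nil .nil))) 
(.lf (nat_lit 74542) (.g (nat_lit 2703) (.e (nat_lit 1788) (nat_lit 119) (.e (nat_lit 516138) (nat_lit 7) (.e (nat_lit 409645) (nat_lit 18) (.e (nat_lit 303117) (nat_lit 2) (.e (nat_lit 196630) (nat_lit 9) (.e (nat_lit 1563) (nat_lit 110) (.e (nat_lit 352294) (nat_lit 20) .nil))))))) (.g (nat_lit 4) .nil .nil)))) (.nd (nat_lit 5) 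
(.lf (nat_lit 74526) (.g (nat_lit 2152) (.e (nat_lit 1788) (nat_lit 119) (.e (nat_lit 516130) (nat_lit 3) (.e (nat_lit 221193) (nat_lit 11) (.e (nat_lit 336012) (nat_lit 2) (.e (nat_lit 90178) (nat_lit 15) (.e (nat_lit 196352) (nat_lit 0) .nil)))))) (.g (nat_lit 5) .nil .nil))) 
(.lf (nat_lit 74558) (.g (nat_lit 2882) (.e (nat_lit 1788) (nat_lit 119) (.e (nat_lit 516139) (nat_lit 7) (.e (nat_lit 409643) (nat_lit 18) (.e (nat_lit 303117) (nat_lit 2) (.e (nat_lit 196673) (nat_lit 15) (.e (nat_lit 81938) (nat_lit 20) .nil)))))) (.g (nat_lit 4) .nil .nil)))))))) (.nd (nat_lit 1) (.nd (nat_lit 2) (.nd (nat_lit 3) (.nd (nat_lit 4) (.nd (nat_lit 5) 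
(.lf (nat_lit 74497) (.g (nat_lit 2845) (.e (nat_lit 1788) (nat_lit 119) (.e (nat_lit 516123) (nat_lit 2) (.e (nat_lit 213032) (nat_lit 11) (.e (nat_lit 24608) (nat_lit 3) (.e (nat_lit 98381) (nat_lit 31) (.e (nat_lit 474880) (nat_lit 0) .nil)))))) (.g (nat_lit 4) .nil .nil))) 
(.lf (nat_lit 74529) (.g (nat_lit 2228) (.e (nat_lit 1788) (nat_lit 119) (.e (nat_lit 516130) (nat_lit 3) (.e (nat_lit 221194) (nat_lit 11) (.e (nat_lit 336009) (nat_lit 2) (.e (nat_lit 90176) (nat_lit 15) (.e (nat_lit 196352) (nat_lit 0) .nil)))))) (.g (nat_lit 5) .nil .nil)))) (.nd (nat_lit 5) 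
(.lf (nat_lit 74513) (.g (nat_lit 2405) (.e (nat_lit 1788) (nat_lit 119) (.e (nat_lit 516129) (nat_lit 3) (.e (nat_lit 221210) (nat_lit 22) (.e (nat_lit 196668) (nat_lit 14) (.e (nat_lit 81664) (nat_lit 5) (.e (nat_lit 532490) (nat_lit 0) (.e (nat_lit 1023) (nat_lit 81) (.e (nat_lit 7270) (nat_lit 385) (.e (nat_lit 122883) (nat_lit 0) .nil))))))))) (.g (nat_lit 4) .nil .nil))) 
(.lf (nat_lit 74545) (.g (nat_lit 2943) (.e (nat_lit 1788) (nat_lit 119) (.e (nat_lit 516138) (nat_lit 7) (.e (nat_lit 409646) (nat_lit 18) (.e (nat_lit 303117) (nat_lit 2) (.e (nat_lit 196630) (nat_lit 9) (.e (nat_lit 1563) (nat_lit 110) (.e (nat_lit 352294) (nat_lit 20) .nil))))))) (.g (nat_lit 4) .nil .nil))))) (.nd (nat_lit 4) (.nd (nat_lit 5) 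
(.lf (nat_lit 74505) (.g (nat_lit 2460) (.e (nat_lit 1788) (nat_lit 119) (.e (nat_lit 516129) (nat_lit 3) (.e (nat_lit 221210) (nat_lit 22) (.e (nat_lit 196668) (nat_lit 14) (.e (nat_lit 73746) (nat_lit 3) (.e (nat_lit 516117) (nat_lit 1) (.e (nat_lit 164184) (nat_lit 155) (.e (nat_lit 122883) (nat_lit 0) .nil)))))))) (.g (nat_lit 4) .nil .nil))) 
(.lf (nat_lit 74537) (.g (nat_lit 3089) (.e (nat_lit 1788) (nat_lit 119) (.e (nat_lit 516130) (nat_lit 3) (.e (nat_lit 221212) (nat_lit 22) (.e (nat_lit 196668) (nat_lit 14) (.e (nat_lit 73747) (nat_lit 3) (.e (nat_lit 516119) (nat_lit 1) (.e (nat_lit 164184) (nat_lit 155) (.e (nat_lit 122883) (nat_lit 0) .nil)))))))) (.g (nat_lit 6) .nil .nil)))) (.nd (nat_lit 5) 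
(.lf (nat_lit 74521) (.g (nat_lit 3588) (.e (nat_lit 1788) (nat_lit 119) (.e (nat_lit 516129) (nat_lit 3) (.e (nat_lit 221210) (nat_lit 22) (.e (nat_lit 196670) (nat_lit 14) (.e (nat_lit 73746) (nat_lit 3) (.e (nat_lit 516120) (nat_lit 1) (.e (nat_lit 164184) (nat_lit 155) (.e (nat_lit 122883) (nat_lit 0) .nil)))))))) (.g (nat_lit 5) .nil .nil))) 
(.lf (nat_lit 74553) (.g (nat_lit 2848) (.e (nat_lit 1788) (nat_lit 119) (.e (nat_lit 516139) (nat_lit 7) (.e (nat_lit 409643) (nat_lit 18) (.e (nat_lit 303117) (nat_lit 2) (.e (nat_lit 196630) (nat_lit 9) (.e (nat_lit 1563) (nat_lit 110) (.e (nat_lit 352294) (nat_lit 20) .nil))))))) (.g (nat_lit 4) .nil .nil)))))) (.nd (nat_lit 3) (.nd (nat_lit 4) (.nd (nat_lit 5) 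
(.lf (nat_lit 74501) (.g (nat_lit 2078) (.e (nat_lit 1788) (nat_lit 119) (.e (nat_lit 516129) (nat_lit 3) (.e (nat_lit 221194) (nat_lit 11) (.e (nat_lit 336010) (nat_lit 2) (.e (nat_lit 90176) (nat_lit 15) (.e (nat_lit 196352) (nat_lit 0) .nil)))))) (.g (nat_lit 5) .nil .nil))) 
(.lf (nat_lit 74533) (.g (nat_lit 2731) (.e (nat_lit 1788) (nat_lit 119) (.e (nat_lit 516130) (nat_lit 3) (.e (nat_lit 221194) (nat_lit 11) (.e (nat_lit 336011) (nat_lit 2) (.e (nat_lit 90178) (nat_lit 15) .nil))))) .nil))) (.nd (nat_lit 5) 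
(.lf (nat_lit 74517) (.g (nat_lit 2313) (.e (nat_lit 1788) (nat_lit 119) (.e (nat_lit 516129) (nat_lit 3) (.e (nat_lit 221210) (nat_lit 22) (.e (nat_lit 196668) (nat_lit 14) (.e (nat_lit 81664) (nat_lit 5) (.e (nat_lit 532503) (nat_lit 1) (.e (nat_lit 57683) (nat_lit 155) (.e (nat_lit 122883) (nat_lit 0) .nil)))))))) (.g (nat_lit 4) .nil .nil))) 
(.lf (nat_lit 74549) (.g (nat_lit 2140) (.e (nat_lit 1788) (nat_lit 119) (.e (nat_lit 516139) (nat_lit 7) (.e (nat_lit 409616) (nat_lit 10) (.e (nat_lit 5763) (nat_lit 315) (.e (nat_lit 163962) (nat_lit 25) (.e (nat_lit 532548) (nat_lit 11) (.e (nat_lit 352294) (nat_lit 20) .nil))))))) (.g (nat_lit 4) .nil .nil))))) (.nd (nat_lit 4) (.nd (nat_lit 5) 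
(.lf (nat_lit 74509) (.g (nat_lit 2290) (.e (nat_lit 1788) (nat_lit 119) (.e (nat_lit 516129) (nat_lit 3) (.e (nat_lit 221210) (nat_lit 22) (.e (nat_lit 196668) (nat_lit 14) (.e (nat_lit 73747) (nat_lit 3) (.e (nat_lit 516119) (nat_lit 1) (.e (nat_lit 164176) (nat_lit 154) (.e (nat_lit 57354) (nat_lit 0) .nil)))))))) (.g (nat_lit 4) .nil .nil))) 
(.lf (nat_lit 74541) (.g (nat_lit 2176) (.e (nat_lit 1788) (nat_lit 119) (.e (nat_lit 516131) (nat_lit 3) (.e (nat_lit 221212) (nat_lit 22) (.e (nat_lit 196668) (nat_lit 14) (.e (nat_lit 73747) (nat_lit 3) (.e (nat_lit 516119) (nat_lit 1) (.e (nat_lit 164184) (nat_lit 155) (.e (nat_lit 122883) (nat_lit 0) .nil)))))))) (.g (nat_lit 4) .nil .nil)))) (.nd (nat_lit 5) 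
(.lf (nat_lit 74525) (.g (nat_lit 2212) (.e (nat_lit 1788) (nat_lit 119) (.e (nat_lit 516130) (nat_lit 3) (.e (nat_lit 221193) (nat_lit 11) (.e (nat_lit 336012) (nat_lit 2) (.e (nat_lit 90176) (nat_lit 15) (.e (nat_lit 196352) (nat_lit 0) .nil)))))) (.g (nat_lit 5) .nil .nil))) 
(.lf (nat_lit 74557) (.g (nat_lit 2720) (.e (nat_lit 1788) (nat_lit 119) (.e (nat_lit 516139) (nat_lit 7) (.e (nat_lit 409643) (nat_lit 18) (.e (nat_lit 303117) (nat_lit 2) (.e (nat_lit 196672) (nat_lit 15) (.e (nat_lit 81943) (nat_lit 20) .nil)))))) (.g (nat_lit 4) .nil .nil))))))) (.nd (nat_lit 2) (.nd (nat_lit 3) (.nd (nat_lit 4) (.nd (nat_lit 5) 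
(.lf (nat_lit 74499) (.g (nat_lit 1809) (.e (nat_lit 1788) (nat_lit 119) (.e (nat_lit 516129) (nat_lit 3) (.e (nat_lit 221193) (nat_lit 11) (.e (nat_lit 336012) (nat_lit 2) (.e (nat_lit 90176) (nat_lit 15) (.e (nat_lit 196352) (nat_lit 0) .nil)))))) (.g (nat_lit 4) .nil .nil))) 
(.lf (nat_lit 74531) (.g (nat_lit 2298) (.e (nat_lit 1788) (nat_lit 119) (.e (nat_lit 516130) (nat_lit 3) (.e (nat_lit 221194) (nat_lit 11) (.e (nat_lit 336010) (nat_lit 2) (.e (nat_lit 90178) (nat_lit 15) (.e (nat_lit 196352) (nat_lit 0) .nil)))))) (.g (nat_lit 5) .nil .nil)))) (.nd (nat_lit 5) 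
(.lf (nat_lit 74515) (.g (nat_lit 2281) (.e (nat_lit 1788) (nat_lit 119) (.e (nat_lit 516129) (nat_lit 3) (.e (nat_lit 221210) (nat_lit 22) (.e (nat_lit 196668) (nat_lit 14) (.e (nat_lit 81664) (nat_lit 5) (.e (nat_lit 532499) (nat_lit 1) (.e (nat_lit 57683) (nat_lit 155) (.e (nat_lit 122883) (nat_lit 0) .nil)))))))) (.g (nat_lit 4) .nil .nil))) 
(.lf (nat_lit 74547) (.g (nat_lit 881) (.e (nat_lit 1788) (nat_lit 119) (.e (nat_lit 516139) (nat_lit 7) (.e (nat_lit 409603) (nat_lit 0) .nil))) .nil)))) (.nd (nat_lit 4) (.nd (nat_lit 5) 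
(.lf (nat_lit 74507) (.g (nat_lit 3464) (.e (nat_lit 1788) (nat_lit 119) (.e (nat_lit 516129) (nat_lit 3) (.e (nat_lit 221210) (nat_lit 22) (.e (nat_lit 196668) (nat_lit 14) (.e (nat_lit 73746) (nat_lit 3) (.e (nat_lit 516120) (nat_lit 1) (.e (nat_lit 164184) (nat_lit 155) (.e (nat_lit 122883) (nat_lit 0) .nil)))))))) (.g (nat_lit 5) .nil .nil))) 
(.lf (nat_lit 74539) (.g (nat_lit 3069) (.e (nat_lit 1788) (nat_lit 119) (.e (nat_lit 516130) (nat_lit 3) (.e (nat_lit 221212) (nat_lit 22) (.e (nat_lit 196670) (nat_lit 14) (.e (nat_lit 73746) (nat_lit 3) (.e (nat_lit 516119) (nat_lit 1) (.e (nat_lit 164184) (nat_lit 155) (.e (nat_lit 122883) (nat_lit 0) .nil)))))))) (.g (nat_lit 6) .nil .nil)))) (.nd (nat_lit 5) 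
(.lf (nat_lit 74523) (.g (nat_lit 1763) (.e (nat_lit 1788) (nat_lit 119) (.e (nat_lit 516130) (nat_lit 3) (.e (nat_lit 221193) (nat_lit 11) (.e (nat_lit 336010) (nat_lit 2) (.e (nat_lit 90176) (nat_lit 15) (.e (nat_lit 196352) (nat_lit 0) .nil)))))) (.g (nat_lit 5) .nil .nil))) 
(.lf (nat_lit 74555) (.g (nat_lit 2496) (.e (nat_lit 1788) (nat_lit 119) (.e (nat_lit 516139) (nat_lit 7) (.e (nat_lit 409643) (nat_lit 18) (.e (nat_lit 303117) (nat_lit 2) (.e (nat_lit 196672) (nat_lit 15) (.e (nat_lit 81928) (nat_lit 20) .nil)))))) (.g (nat_lit 4) .nil .nil)))))) (.nd (nat_lit 3) (.nd (nat_lit 4) (.nd (nat_lit 5) 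
(.lf (nat_lit 74503) (.g (nat_lit 2512) (.e (nat_lit 1788) (nat_lit 119) (.e (nat_lit 516129) (nat_lit 3) (.e (nat_lit 221194) (nat_lit 11) (.e (nat_lit 336012) (nat_lit 2) (.e (nat_lit 90176) (nat_lit 15) (.e (nat_lit 196352) (nat_lit 0) .nil)))))) (.g (nat_lit 5) .nil .nil))) 
(.lf (nat_lit 74535) (.g (nat_lit 2895) (.e (nat_lit 1788) (nat_lit 119) (.e (nat_lit 516130) (nat_lit 3) (.e (nat_lit 221194) (nat_lit 11) (.e (nat_lit 336012) (nat_lit 2) (.e (nat_lit 90178) (nat_lit 15) (.e (nat_lit 196352) (nat_lit 0) .nil)))))) (.g (nat_lit 5) .nil .nil)))) (.nd (nat_lit 5) 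
(.lf (nat_lit 74519) (.g (nat_lit 2774) (.e (nat_lit 1788) (nat_lit 119) (.e (nat_lit 516129) (nat_lit 3) (.e (nat_lit 221210) (nat_lit 22) (.e (nat_lit 196670) (nat_lit 14) (.e (nat_lit 73746) (nat_lit 3) (.e (nat_lit 516117) (nat_lit 1) (.e (nat_lit 164184) (nat_lit 155) (.e (nat_lit 122883) (nat_lit 0) .nil)))))))) (.g (nat_lit 4) .nil .nil))) 
(.lf (nat_lit 74551) (.g (nat_lit 638) (.e (nat_lit 1788) (nat_lit 119) (.e (nat_lit 516139) (nat_lit 7) (.e (nat_lit 409643) (nat_lit 18) .nil))) .nil)))) (.nd (nat_lit 4) (.nd (nat_lit 5) 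
(.lf (nat_lit 74511) (.g (nat_lit 4272) (.e (nat_lit 1788) (nat_lit 119) (.e (nat_lit 516129) (nat_lit 3) (.e (nat_lit 221210) (nat_lit 22) (.e (nat_lit 196668) (nat_lit 14) (.e (nat_lit 73747) (nat_lit 3) (.e (nat_lit 516119) (nat_lit 1) (.e (nat_lit 164184) (nat_lit 155) (.e (nat_lit 122883) (nat_lit 0) .nil)))))))) (.g (nat_lit 6) .nil .nil))) 
(.lf (nat_lit 74543) (.g (nat_lit 3547) (.e (nat_lit 1788) (nat_lit 119) (.e (nat_lit 516138) (nat_lit 7) (.e (nat_lit 409645) (nat_lit 18) (.e (nat_lit 303117) (nat_lit 2) (.e (nat_lit 196630) (nat_lit 9) (.e (nat_lit 1573) (nat_lit 110) (.e (nat_lit 352294) (nat_lit 20) .nil))))))) (.g (nat_lit 5) .nil .nil)))) (.nd (nat_lit 5) 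
(.lf (nat_lit 74527) (.g (nat_lit 1093) (.e (nat_lit 1788) (nat_lit 119) (.e (nat_lit 516130) (nat_lit 3) (.e (nat_lit 221194) (nat_lit 11) (.e (nat_lit 336002) (nat_lit 2) .nil)))) .nil)) 
(.lf (nat_lit 74559) (.g (nat_lit 3052) (.e (nat_lit 1788) (nat_lit 119) (.e (nat_lit 516139) (nat_lit 7) (.e (nat_lit 409643) (nat_lit 18) (.e (nat_lit 303117) (nat_lit 2) (.e (nat_lit 196673) (nat_lit 15) (.e (nat_lit 81941) (nat_lit 20) .nil)))))) (.g (nat_lit 5) .nil .nil)))))))))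

noncomputable def tv1008 : DT := (.nd (nat_lit 0) (.nd (nat_lit 1) (.nd (nat_lit 2) (.nd (nat_lit 3) (.nd (nat_lit 4) (.nd (nat_lit 5) 
(.lf (nat_lit 74560) (.g (nat_lit 2755) (.e (nat_lit 1788) (nat_lit 119) (.e (nat_lit 516139) (nat_lit 7) (.e (nat_lit 409643) (nat_lit 18) (.e (nat_lit 303117) (nat_lit 2) (.e (nat_lit 196674) (nat_lit 15) (.e (nat_lit 81940) (nat_lit 20) .nil)))))) (.g (nat_lit 4) .nil .nil))) 
(.lf (nat_lit 74592) (.g (nat_lit 3771) (.e (nat_lit 1788) (nat_lit 119) (.e (nat_lit 516139) (nat_lit 7) (.e (nat_lit 409645) (nat_lit 18) (.e (nat_lit 303117) (nat_lit 2) (.e (nat_lit 196630) (nat_lit 9) (.e (nat_lit 1573) (nat_lit 110) (.e (nat_lit 352292) (nat_lit 20) .nil))))))) (.g (nat_lit 4) .nil .nil)))) (.nd (nat_lit 5) 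
(.lf (nat_lit 74576) (.g (nat_lit 2740) (.e (nat_lit 1788) (nat_lit 119) (.e (nat_lit 516139) (nat_lit 7) (.e (nat_lit 409644) (nat_lit 18) (.e (nat_lit 303117) (nat_lit 2) (.e (nat_lit 196673) (nat_lit 15) (.e (nat_lit 81939) (nat_lit 20) .nil)))))) (.g (nat_lit 4) .nil .nil))) 
(.lf (nat_lit 74608) (.g (nat_lit 3506) (.e (nat_lit 1788) (nat_lit 119) (.e (nat_lit 516139) (nat_lit 7) (.e (nat_lit 409645) (nat_lit 18) (.e (nat_lit 303119) (nat_lit 3) (.e (nat_lit 204867) (nat_lit 28) (.e (nat_lit 352294) (nat_lit 20) .nil)))))) (.g (nat_lit 4) .nil .nil))))) (.nd (nat_lit 4) (.nd (nat_lit 5) 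
(.lf (nat_lit 74568) (.g (nat_lit 2945) (.e (nat_lit 1788) (nat_lit 119) (.e (nat_lit 516139) (nat_lit 7) (.e (nat_lit 409643) (nat_lit 18) (.e (nat_lit 303119) (nat_lit 3) (.e (nat_lit 204866) (nat_lit 28) (.e (nat_lit 352292) (nat_lit 20) .nil)))))) (.g (nat_lit 4) .nil .nil))) 
(.lf (nat_lit 74600) (.g (nat_lit 5057) (.e (nat_lit 1788) (nat_lit 119) (.e (nat_lit 516139) (nat_lit 7) (.e (nat_lit 409645) (nat_lit 18) (.e (nat_lit 303117) (nat_lit 2) (.e (nat_lit 196674) (nat_lit 15) (.e (nat_lit 81928) (nat_lit 20) .nil)))))) (.g (nat_lit 0) .nil .nil)))) (.nd (nat_lit 5) 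
(.lf (nat_lit 74584) (.g (nat_lit 3171) (.e (nat_lit 1788) (nat_lit 119) (.e (nat_lit 516139) (nat_lit 7) (.e (nat_lit 409644) (nat_lit 18) (.e (nat_lit 303119) (nat_lit 3) (.e (nat_lit 204867) (nat_lit 28) (.e (nat_lit 352294) (nat_lit 20) .nil)))))) (.g (nat_lit 4) .nil .nil))) 
(.lf (nat_lit 74616) (.g (nat_lit 1454) (.e (nat_lit 1788) (nat_lit 119) (.e (nat_lit 516139) (nat_lit 7) (.e (nat_lit 409646) (nat_lit 18) (.e (nat_lit 303117) (nat_lit 2) .nil)))) .nil))))) (.nd (nat_lit 3) (.nd (nat_lit 4) (.nd (nat_lit 5) 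
(.lf (nat_lit 74564) (.g (nat_lit 2138) (.e (nat_lit 1788) (nat_lit 119) (.e (nat_lit 516139) (nat_lit 7) (.e (nat_lit 409643) (nat_lit 18) (.e (nat_lit 303119) (nat_lit 3) (.e (nat_lit 204865) (nat_lit 28) .nil))))) .nil)) 
(.lf (nat_lit 74596) (.g (nat_lit 3831) (.e (nat_lit 1788) (nat_lit 119) (.e (nat_lit 516139) (nat_lit 7) (.e (nat_lit 409645) (nat_lit 18) (.e (nat_lit 303117) (nat_lit 2) (.e (nat_lit 196672) (nat_lit 15) (.e (nat_lit 81943) (nat_lit 20) .nil)))))) (.g (nat_lit 4) .nil .nil)))) (.nd (nat_lit 5) 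
(.lf (nat_lit 74580) (.g (nat_lit 2728) (.e (nat_lit 1788) (nat_lit 119) (.e (nat_lit 516139) (nat_lit 7) (.e (nat_lit 409644) (nat_lit 18) (.e (nat_lit 303119) (nat_lit 3) (.e (nat_lit 204865) (nat_lit 28) (.e (nat_lit 352292) (nat_lit 20) .nil)))))) (.g (nat_lit 4) .nil .nil))) 
(.lf (nat_lit 74612) (.g (nat_lit 1529) (.e (nat_lit 1788) (nat_lit 119) (.e (nat_lit 516139) (nat_lit 7) (.e (nat_lit 409646) (nat_lit 18) (.e (nat_lit 303106) (nat_lit 0) .nil)))) .nil)))) (.nd (nat_lit 4) (.nd (nat_lit 5) 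
(.lf (nat_lit 74572) (.g (nat_lit 2337) (.e (nat_lit 1788) (nat_lit 119) (.e (nat_lit 516139) (nat_lit 7) (.e (nat_lit 409644) (nat_lit 18) (.e (nat_lit 303112) (nat_lit 0) (.e (nat_lit 3252) (nat_lit 197) .nil))))) .nil)) 
(.lf (nat_lit 74604) (.g (nat_lit 3231) (.e (nat_lit 1788) (nat_lit 119) (.e (nat_lit 516139) (nat_lit 7) (.e (nat_lit 409645) (nat_lit 18) (.e (nat_lit 303119) (nat_lit 3) (.e (nat_lit 204865) (nat_lit 28) .nil))))) .nil))) (.nd (nat_lit 5) 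
(.lf (nat_lit 74588) (.g (nat_lit 3585) (.e (nat_lit 1788) (nat_lit 119) (.e (nat_lit 516139) (nat_lit 7) (.e (nat_lit 409645) (nat_lit 18) (.e (nat_lit 303112) (nat_lit 0) (.e (nat_lit 3252) (nat_lit 197) (.e (nat_lit 532548) (nat_lit 11) (.e (nat_lit 352292) (nat_lit 20) .nil))))))) (.g (nat_lit 4) .nil .nil))) 
(.lf (nat_lit 74620) (.g (nat_lit 3809) (.e (nat_lit 1788) (nat_lit 119) (.e (nat_lit 516139) (nat_lit 7) (.e (nat_lit 409646) (nat_lit 18) (.e (nat_lit 303117) (nat_lit 2) (.e (nat_lit 196672) (nat_lit 15) (.e (nat_lit 81928) (nat_lit 20) .nil)))))) (.g (nat_lit 4) .nil .nil))))))) (.nd (nat_lit 2) (.nd (nat_lit 3) (.nd (nat_lit 4) (.nd (nat_lit 5) 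
(.lf (nat_lit 74562) (.g (nat_lit 3289) (.e (nat_lit 1788) (nat_lit 119) (.e (nat_lit 516139) (nat_lit 7) (.e (nat_lit 409643) (nat_lit 18) (.e (nat_lit 303117) (nat_lit 2) (.e (nat_lit 196674) (nat_lit 15) (.e (nat_lit 81947) (nat_lit 20) .nil)))))) (.g (nat_lit 5) .nil .nil))) 
(.lf (nat_lit 74594) (.g (nat_lit 3589) (.e (nat_lit 1788) (nat_lit 119) (.e (nat_lit 516139) (nat_lit 7) (.e (nat_lit 409645) (nat_lit 18) (.e (nat_lit 303117) (nat_lit 2) (.e (nat_lit 196672) (nat_lit 15) (.e (nat_lit 81928) (nat_lit 20) .nil)))))) (.g (nat_lit 4) .nil .nil)))) (.nd (nat_lit 5) 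
(.lf (nat_lit 74578) (.g (nat_lit 4029) (.e (nat_lit 1788) (nat_lit 119) (.e (nat_lit 516139) (nat_lit 7) (.e (nat_lit 409644) (nat_lit 18) (.e (nat_lit 303117) (nat_lit 2) (.e (nat_lit 196674) (nat_lit 15) (.e (nat_lit 81947) (nat_lit 20) .nil)))))) (.g (nat_lit 5) .nil .nil))) 
(.lf (nat_lit 74610) (.g (nat_lit 3307) (.e (nat_lit 1788) (nat_lit 119) (.e (nat_lit 516139) (nat_lit 7) (.e (nat_lit 409645) (nat_lit 18) (.e (nat_lit 303119) (nat_lit 3) (.e (nat_lit 204877) (nat_lit 31) (.e (nat_lit 376843) (nat_lit 20) .nil)))))) (.g (nat_lit 4) .nil .nil))))) (.nd (nat_lit 4) (.nd (nat_lit 5) 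
(.lf (nat_lit 74570) (.g (nat_lit 2623) (.e (nat_lit 1788) (nat_lit 119) (.e (nat_lit 516139) (nat_lit 7) (.e (nat_lit 409643) (nat_lit 18) (.e (nat_lit 303119) (nat_lit 3) (.e (nat_lit 204867) (nat_lit 28) (.e (nat_lit 352294) (nat_lit 20) .nil)))))) (.g (nat_lit 4) .nil .nil))) 
(.lf (nat_lit 74602) (.g (nat_lit 5574) (.e (nat_lit 1788) (nat_lit 119) (.e (nat_lit 516139) (nat_lit 7) (.e (nat_lit 409645) (nat_lit 18) (.e (nat_lit 303117) (nat_lit 2) (.e (nat_lit 196674) (nat_lit 15) (.e (nat_lit 81946) (nat_lit 20) .nil)))))) (.g (nat_lit 0) .nil .nil)))) (.nd (nat_lit 5) 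
(.lf (nat_lit 74586) (.g (nat_lit 2896) (.e (nat_lit 1788) (nat_lit 119) (.e (nat_lit 516139) (nat_lit 7) (.e (nat_lit 409644) (nat_lit 18) (.e (nat_lit 303119) (nat_lit 3) (.e (nat_lit 204878) (nat_lit 31) (.e (nat_lit 376843) (nat_lit 20) .nil)))))) (.g (nat_lit 4) .nil .nil))) 
(.lf (nat_lit 74618) (.g (nat_lit 4334) (.e (nat_lit 1788) (nat_lit 119) (.e (nat_lit 516139) (nat_lit 7) (.e (nat_lit 409646) (nat_lit 18) (.e (nat_lit 303117) (nat_lit 2) (.e (nat_lit 196630) (nat_lit 9) (.e (nat_lit 1563) (nat_lit 110) (.e (nat_lit 352294) (nat_lit 20) .nil))))))) (.g (nat_lit 5) .nil .nil)))))) (.nd (nat_lit 3) (.nd (nat_lit 4) (.nd (nat_lit 5) 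
(.lf (nat_lit 74566) (.g (nat_lit 2946) (.e (nat_lit 1788) (nat_lit 119) (.e (nat_lit 516139) (nat_lit 7) (.e (nat_lit 409643) (nat_lit 18) (.e (nat_lit 303119) (nat_lit 3) (.e (nat_lit 204865) (nat_lit 28) (.e (nat_lit 352294) (nat_lit 20) .nil)))))) (.g (nat_lit 4) .nil .nil))) 
(.lf (nat_lit 74598) (.g (nat_lit 3546) (.e (nat_lit 1788) (nat_lit 119) (.e (nat_lit 516139) (nat_lit 7) (.e (nat_lit 409645) (nat_lit 18) (.e (nat_lit 303117) (nat_lit 2) (.e (nat_lit 196673) (nat_lit 15) (.e (nat_lit 81939) (nat_lit 20) .nil)))))) (.g (nat_lit 4) .nil .nil)))) (.nd (nat_lit 5) 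
(.lf (nat_lit 74582) (.g (nat_lit 2537) (.e (nat_lit 1788) (nat_lit 119) (.e (nat_lit 516139) (nat_lit 7) (.e (nat_lit 409644) (nat_lit 18) (.e (nat_lit 303119) (nat_lit 3) (.e (nat_lit 204867) (nat_lit 28) .nil))))) .nil)) 
(.lf (nat_lit 74614) (.g (nat_lit 2930) (.e (nat_lit 1788) (nat_lit 119) (.e (nat_lit 516139) (nat_lit 7) (.e (nat_lit 409646) (nat_lit 18) (.e (nat_lit 303112) (nat_lit 0) (.e (nat_lit 3252) (nat_lit 197) (.e (nat_lit 532548) (nat_lit 11) (.e (nat_lit 352292) (nat_lit 20) .nil))))))) (.g (nat_lit 4) .nil .nil))))) (.nd (nat_lit 4) (.nd (nat_lit 5) 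
(.lf (nat_lit 74574) (.g (nat_lit 2579) (.e (nat_lit 1788) (nat_lit 119) (.e (nat_lit 516139) (nat_lit 7) (.e (nat_lit 409644) (nat_lit 18) (.e (nat_lit 303117) (nat_lit 2) (.e (nat_lit 196672) (nat_lit 15) .nil))))) .nil)) 
(.lf (nat_lit 74606) (.g (nat_lit 3698) (.e (nat_lit 1788) (nat_lit 119) (.e (nat_lit 516139) (nat_lit 7) (.e (nat_lit 409645) (nat_lit 18) (.e (nat_lit 303119) (nat_lit 3) (.e (nat_lit 204865) (nat_lit 28) (.e (nat_lit 352294) (nat_lit 20) .nil)))))) (.g (nat_lit 4) .nil .nil)))) (.nd (nat_lit 5) 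
(.lf (nat_lit 74590) (.g (nat_lit 1756) (.e (nat_lit 1788) (nat_lit 119) (.e (nat_lit 516139) (nat_lit 7) (.e (nat_lit 409645) (nat_lit 18) (.e (nat_lit 303117) (nat_lit 2) .nil)))) .nil)) 
(.lf (nat_lit 74622) (.g (nat_lit 3688) (.e (nat_lit 1788) (nat_lit 119) (.e (nat_lit 516139) (nat_lit 7) (.e (nat_lit 409646) (nat_lit 18) (.e (nat_lit 303117) (nat_lit 2) (.e (nat_lit 196673) (nat_lit 15) (.e (nat_lit 81928) (nat_lit 20) .nil)))))) (.g (nat_lit 5) .nil .nil)))))))) (.nd (nat_lit 1) (.nd (nat_lit 2) (.nd (nat_lit 3) (.nd (nat_lit 4) (.nd (nat_lit 5) 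
(.lf (nat_lit 74561) (.g (nat_lit 3591) (.e (nat_lit 1788) (nat_lit 119) (.e (nat_lit 516139) (nat_lit 7) (.e (nat_lit 409643) (nat_lit 18) (.e (nat_lit 303117) (nat_lit 2) (.e (nat_lit 196674) (nat_lit 15) (.e (nat_lit 81946) (nat_lit 20) .nil)))))) (.g (nat_lit 5) .nil .nil))) 
(.lf (nat_lit 74593) (.g (nat_lit 4480) (.e (nat_lit 1788) (nat_lit 119) (.e (nat_lit 516139) (nat_lit 7) (.e (nat_lit 409645) (nat_lit 18) (.e (nat_lit 303117) (nat_lit 2) (.e (nat_lit 196630) (nat_lit 9) (.e (nat_lit 1573) (nat_lit 110) (.e (nat_lit 352294) (nat_lit 20) .nil))))))) (.g (nat_lit 5) .nil .nil)))) (.nd (nat_lit 5) 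
(.lf (nat_lit 74577) (.g (nat_lit 3673) (.e (nat_lit 1788) (nat_lit 119) (.e (nat_lit 516139) (nat_lit 7) (.e (nat_lit 409644) (nat_lit 18) (.e (nat_lit 303117) (nat_lit 2) (.e (nat_lit 196674) (nat_lit 15) (.e (nat_lit 81928) (nat_lit 20) .nil)))))) (.g (nat_lit 5) .nil .nil))) 
(.lf (nat_lit 74609) (.g (nat_lit 3214) (.e (nat_lit 1788) (nat_lit 119) (.e (nat_lit 516139) (nat_lit 7) (.e (nat_lit 409645) (nat_lit 18) (.e (nat_lit 303119) (nat_lit 3) (.e (nat_lit 204867) (nat_lit 28) (.e (nat_lit 352295) (nat_lit 20) .nil)))))) (.g (nat_lit 4) .nil .nil))))) (.nd (nat_lit 4) (.nd (nat_lit 5) 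
(.lf (nat_lit 74569) (.g (nat_lit 2474) (.e (nat_lit 1788) (nat_lit 119) (.e (nat_lit 516139) (nat_lit 7) (.e (nat_lit 409643) (nat_lit 18) (.e (nat_lit 303119) (nat_lit 3) (.e (nat_lit 204867) (nat_lit 28) (.e (nat_lit 352292) (nat_lit 20) .nil)))))) (.g (nat_lit 4) .nil .nil))) 
(.lf (nat_lit 74601) (.g (nat_lit 4813) (.e (nat_lit 1788) (nat_lit 119) (.e (nat_lit 516139) (nat_lit 7) (.e (nat_lit 409645) (nat_lit 18) (.e (nat_lit 303117) (nat_lit 2) (.e (nat_lit 196674) (nat_lit 15) (.e (nat_lit 81940) (nat_lit 20) .nil)))))) (.g (nat_lit 0) .nil .nil)))) (.nd (nat_lit 5) 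
(.lf (nat_lit 74585) (.g (nat_lit 2879) (.e (nat_lit 1788) (nat_lit 119) (.e (nat_lit 516139) (nat_lit 7) (.e (nat_lit 409644) (nat_lit 18) (.e (nat_lit 303119) (nat_lit 3) (.e (nat_lit 204867) (nat_lit 28) (.e (nat_lit 352295) (nat_lit 20) .nil)))))) (.g (nat_lit 4) .nil .nil))) 
(.lf (nat_lit 74617) (.g (nat_lit 2780) (.e (nat_lit 1788) (nat_lit 119) (.e (nat_lit 516139) (nat_lit 7) (.e (nat_lit 409646) (nat_lit 18) (.e (nat_lit 303117) (nat_lit 2) (.e (nat_lit 196630) (nat_lit 9) .nil))))) .nil))))) (.nd (nat_lit 3) (.nd (nat_lit 4) (.nd (nat_lit 5) 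
(.lf (nat_lit 74565) (.g (nat_lit 2515) (.e (nat_lit 1788) (nat_lit 119) (.e (nat_lit 516139) (nat_lit 7) (.e (nat_lit 409643) (nat_lit 18) (.e (nat_lit 303119) (nat_lit 3) (.e (nat_lit 204865) (nat_lit 28) (.e (nat_lit 352292) (nat_lit 20) .nil)))))) (.g (nat_lit 4) .nil .nil))) 
(.lf (nat_lit 74597) (.g (nat_lit 3261) (.e (nat_lit 1788) (nat_lit 119) (.e (nat_lit 516139) (nat_lit 7) (.e (nat_lit 409645) (nat_lit 18) (.e (nat_lit 303117) (nat_lit 2) (.e (nat_lit 196673) (nat_lit 15) (.e (nat_lit 81928) (nat_lit 20) .nil)))))) (.g (nat_lit 4) .nil .nil)))) (.nd (nat_lit 5) 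
(.lf (nat_lit 74581) (.g (nat_lit 3159) (.e (nat_lit 1788) (nat_lit 119) (.e (nat_lit 516139) (nat_lit 7) (.e (nat_lit 409644) (nat_lit 18) (.e (nat_lit 303119) (nat_lit 3) (.e (nat_lit 204865) (nat_lit 28) (.e (nat_lit 352294) (nat_lit 20) .nil)))))) (.g (nat_lit 4) .nil .nil))) 
(.lf (nat_lit 74613) (.g (nat_lit 2557) (.e (nat_lit 1788) (nat_lit 119) (.e (nat_lit 516139) (nat_lit 7) (.e (nat_lit 409646) (nat_lit 18) (.e (nat_lit 303112) (nat_lit 0) (.e (nat_lit 3252) (nat_lit 197) .nil))))) .nil)))) (.nd (nat_lit 4) (.nd (nat_lit 5) 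
(.lf (nat_lit 74573) (.g (nat_lit 2937) (.e (nat_lit 1788) (nat_lit 119) (.e (nat_lit 516139) (nat_lit 7) (.e (nat_lit 409644) (nat_lit 18) (.e (nat_lit 303117) (nat_lit 2) (.e (nat_lit 196630) (nat_lit 9) (.e (nat_lit 1563) (nat_lit 110) (.e (nat_lit 352294) (nat_lit 20) .nil))))))) (.g (nat_lit 4) .nil .nil))) 
(.lf (nat_lit 74605) (.g (nat_lit 3267) (.e (nat_lit 1788) (nat_lit 119) (.e (nat_lit 516139) (nat_lit 7) (.e (nat_lit 409645) (nat_lit 18) (.e (nat_lit 303119) (nat_lit 3) (.e (nat_lit 204865) (nat_lit 28) (.e (nat_lit 352292) (nat_lit 20) .nil)))))) (.g (nat_lit 4) .nil .nil)))) (.nd (nat_lit 5) 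
(.lf (nat_lit 74589) (.g (nat_lit 3109) (.e (nat_lit 1788) (nat_lit 119) (.e (nat_lit 516139) (nat_lit 7) (.e (nat_lit 409645) (nat_lit 18) (.e (nat_lit 303112) (nat_lit 0) (.e (nat_lit 3252) (nat_lit 197) (.e (nat_lit 532558) (nat_lit 14) (.e (nat_lit 376843) (nat_lit 20) .nil))))))) (.g (nat_lit 4) .nil .nil))) 
(.lf (nat_lit 74621) (.g (nat_lit 3644) (.e (nat_lit 1788) (nat_lit 119) (.e (nat_lit 516139) (nat_lit 7) (.e (nat_lit 409646) (nat_lit 18) (.e (nat_lit 303117) (nat_lit 2) (.e (nat_lit 196672) (nat_lit 15) (.e (nat_lit 81941) (nat_lit 20) .nil)))))) (.g (nat_lit 4) .nil .nil))))))) (.nd (nat_lit 2) (.nd (nat_lit 3) (.nd (nat_lit 4) (.nd (nat_lit 5) 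
(.lf (nat_lit 74563) (.g (nat_lit 2406) (.e (nat_lit 1788) (nat_lit 119) (.e (nat_lit 516139) (nat_lit 7) (.e (nat_lit 409643) (nat_lit 18) (.e (nat_lit 303119) (nat_lit 3) (.e (nat_lit 204855) (nat_lit 26) (.e (nat_lit 336097) (nat_lit 9) (.e (nat_lit 335923) (nat_lit 0) .nil))))))) (.g (nat_lit 4) .nil .nil))) 
(.lf (nat_lit 74595) (.g (nat_lit 3652) (.e (nat_lit 1788) (nat_lit 119) (.e (nat_lit 516139) (nat_lit 7) (.e (nat_lit 409645) (nat_lit 18) (.e (nat_lit 303117) (nat_lit 2) (.e (nat_lit 196672) (nat_lit 15) (.e (nat_lit 81941) (nat_lit 20) .nil)))))) (.g (nat_lit 4) .nil .nil)))) (.nd (nat_lit 5) 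
(.lf (nat_lit 74579) (.g (nat_lit 2552) (.e (nat_lit 1788) (nat_lit 119) (.e (nat_lit 516139) (nat_lit 7) (.e (nat_lit 409644) (nat_lit 18) (.e (nat_lit 303119) (nat_lit 3) (.e (nat_lit 204865) (nat_lit 28) .nil))))) .nil)) 
(.lf (nat_lit 74611) (.g (nat_lit 3669) (.e (nat_lit 1788) (nat_lit 119) (.e (nat_lit 516139) (nat_lit 7) (.e (nat_lit 409645) (nat_lit 18) (.e (nat_lit 303119) (nat_lit 3) (.e (nat_lit 204878) (nat_lit 31) (.e (nat_lit 376843) (nat_lit 20) .nil)))))) (.g (nat_lit 4) .nil .nil))))) (.nd (nat_lit 4) (.nd (nat_lit 5) 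
(.lf (nat_lit 74571) (.g (nat_lit 2331) (.e (nat_lit 1788) (nat_lit 119) (.e (nat_lit 516139) (nat_lit 7) (.e (nat_lit 409643) (nat_lit 18) (.e (nat_lit 303119) (nat_lit 3) (.e (nat_lit 204867) (nat_lit 28) (.e (nat_lit 352295) (nat_lit 20) .nil)))))) (.g (nat_lit 4) .nil .nil))) 
(.lf (nat_lit 74603) (.g (nat_lit 2042) (.e (nat_lit 1788) (nat_lit 119) (.e (nat_lit 516139) (nat_lit 7) (.e (nat_lit 409645) (nat_lit 18) (.e (nat_lit 303119) (nat_lit 3) .nil)))) .nil))) (.nd (nat_lit 5) 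
(.lf (nat_lit 74587) (.g (nat_lit 2912) (.e (nat_lit 1788) (nat_lit 119) (.e (nat_lit 516139) (nat_lit 7) (.e (nat_lit 409645) (nat_lit 18) (.e (nat_lit 303112) (nat_lit 0) (.e (nat_lit 3252) (nat_lit 197) .nil))))) .nil)) 
(.lf (nat_lit 74619) (.g (nat_lit 2872) (.e (nat_lit 1788) (nat_lit 119) (.e (nat_lit 516139) (nat_lit 7) (.e (nat_lit 409646) (nat_lit 18) (.e (nat_lit 303117) (nat_lit 2) (.e (nat_lit 196671) (nat_lit 15) .nil))))) .nil))))) (.nd (nat_lit 3) (.nd (nat_lit 4) (.nd (nat_lit 5) 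
(.lf (nat_lit 74567) (.g (nat_lit 2608) (.e (nat_lit 1788) (nat_lit 119) (.e (nat_lit 516139) (nat_lit 7) (.e (nat_lit 409643) (nat_lit 18) (.e (nat_lit 303119) (nat_lit 3) (.e (nat_lit 204866) (nat_lit 28) (.e (nat_lit 352280) (nat_lit 20) .nil)))))) (.g (nat_lit 4) .nil .nil))) 
(.lf (nat_lit 74599) (.g (nat_lit 4539) (.e (nat_lit 1788) (nat_lit 119) (.e (nat_lit 516139) (nat_lit 7) (.e (nat_lit 409645) (nat_lit 18) (.e (nat_lit 303117) (nat_lit 2) (.e (nat_lit 196673) (nat_lit 15) (.e (nat_lit 81941) (nat_lit 20) .nil)))))) (.g (nat_lit 6) .nil .nil)))) (.nd (nat_lit 5) 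
(.lf (nat_lit 74583) (.g (nat_lit 3022) (.e (nat_lit 1788) (nat_lit 119) (.e (nat_lit 516139) (nat_lit 7) (.e (nat_lit 409644) (nat_lit 18) (.e (nat_lit 303119) (nat_lit 3) (.e (nat_lit 204867) (nat_lit 28) (.e (nat_lit 352292) (nat_lit 20) .nil)))))) (.g (nat_lit 4) .nil .nil))) 
(.lf (nat_lit 74615) (.g (nat_lit 3822) (.e (nat_lit 1788) (nat_lit 119) (.e (nat_lit 516139) (nat_lit 7) (.e (nat_lit 409646) (nat_lit 18) (.e (nat_lit 303112) (nat_lit 0) (.e (nat_lit 3252) (nat_lit 197) (.e (nat_lit 532561) (nat_lit 14) (.e (nat_lit 376843) (nat_lit 20) .nil))))))) (.g (nat_lit 6) .nil .nil))))) (.nd (nat_lit 4) (.nd (nat_lit 5) 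
(.lf (nat_lit 74575) (.g (nat_lit 2455) (.e (nat_lit 1788) (nat_lit 119) (.e (nat_lit 516139) (nat_lit 7) (.e (nat_lit 409644) (nat_lit 18) (.e (nat_lit 303117) (nat_lit 2) (.e (nat_lit 196673) (nat_lit 15) (.e (nat_lit 81928) (nat_lit 20) .nil)))))) (.g (nat_lit 4) .nil .nil))) 
(.lf (nat_lit 74607) (.g (nat_lit 3357) (.e (nat_lit 1788) (nat_lit 119) (.e (nat_lit 516139) (nat_lit 7) (.e (nat_lit 409645) (nat_lit 18) (.e (nat_lit 303119) (nat_lit 3) (.e (nat_lit 204867) (nat_lit 28) (.e (nat_lit 352292) (nat_lit 20) .nil)))))) (.g (nat_lit 4) .nil .nil)))) (.nd (nat_lit 5) 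
(.lf (nat_lit 74591) (.g (nat_lit 3645) (.e (nat_lit 1788) (nat_lit 119) (.e (nat_lit 516139) (nat_lit 7) (.e (nat_lit 409645) (nat_lit 18) (.e (nat_lit 303117) (nat_lit 2) (.e (nat_lit 196630) (nat_lit 9) (.e (nat_lit 1563) (nat_lit 110) (.e (nat_lit 352294) (nat_lit 20) .nil))))))) (.g (nat_lit 4) .nil .nil))) 
(.lf (nat_lit 74623) (.g (nat_lit 4885) (.e (nat_lit 1788) (nat_lit 119) (.e (nat_lit 516139) (nat_lit 7) (.e (nat_lit 409646) (nat_lit 18) (.e (nat_lit 303117) (nat_lit 2) (.e (nat_lit 196673) (nat_lit 15) (.e (nat_lit 81938) (nat_lit 20) .nil)))))) (.g (nat_lit 0) .nil .nil)))))))))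

noncomputable def tv1009 : DT := (.nd (nat_lit 0) (.nd (nat_lit 1) (.nd (nat_lit 2) (.nd (nat_lit 3) (.nd (nat_lit 4) (.nd (nat_lit 5) 
(.lf (nat_lit 74624) (.g (nat_lit 3973) (.e (nat_lit 1788) (nat_lit 119) (.e (nat_lit 516139) (nat_lit 7) (.e (nat_lit 409646) (nat_lit 18) (.e (nat_lit 303117) (nat_lit 2) (.e (nat_lit 196673) (nat_lit 15) (.e (nat_lit 81939) (nat_lit 20) .nil)))))) (.g (nat_lit 5) .nil .nil))) 
(.lf (nat_lit 74656) (.g (nat_lit 2362) (.e (nat_lit 1788) (nat_lit 119) (.e (nat_lit 516139) (nat_lit 7) (.e (nat_lit 409647) (nat_lit 18) (.e (nat_lit 303118) (nat_lit 3) (.e (nat_lit 204867) (nat_lit 28) .nil))))) .nil))) (.nd (nat_lit 5) 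
(.lf (nat_lit 74640) (.g (nat_lit 3478) (.e (nat_lit 1788) (nat_lit 119) (.e (nat_lit 516139) (nat_lit 7) (.e (nat_lit 409646) (nat_lit 18) (.e (nat_lit 303119) (nat_lit 3) (.e (nat_lit 204867) (nat_lit 28) (.e (nat_lit 352292) (nat_lit 20) .nil)))))) (.g (nat_lit 4) .nil .nil))) 
(.lf (nat_lit 74672) (.g (nat_lit 2922) (.e (nat_lit 1788) (nat_lit 119) (.e (nat_lit 516139) (nat_lit 7) (.e (nat_lit 409648) (nat_lit 18) (.e (nat_lit 303116) (nat_lit 2) (.e (nat_lit 196674) (nat_lit 15) (.e (nat_lit 81940) (nat_lit 20) .nil)))))) (.g (nat_lit 4) .nil .nil))))) (.nd (nat_lit 4) (.nd (nat_lit 5) 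
(.lf (nat_lit 74632) (.g (nat_lit 3458) (.e (nat_lit 1788) (nat_lit 119) (.e (nat_lit 516139) (nat_lit 7) (.e (nat_lit 409646) (nat_lit 18) (.e (nat_lit 303119) (nat_lit 3) (.e (nat_lit 204865) (nat_lit 28) (.e (nat_lit 352292) (nat_lit 20) .nil)))))) (.g (nat_lit 4) .nil .nil))) 
(.lf (nat_lit 74664) (.g (nat_lit 1385) (.e (nat_lit 1788) (nat_lit 119) (.e (nat_lit 516139) (nat_lit 7) (.e (nat_lit 409648) (nat_lit 18) (.e (nat_lit 303116) (nat_lit 2) .nil)))) .nil))) (.nd (nat_lit 5) 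
(.lf (nat_lit 74648) (.g (nat_lit 2937) (.e (nat_lit 1788) (nat_lit 119) (.e (nat_lit 516139) (nat_lit 7) (.e (nat_lit 409647) (nat_lit 18) (.e (nat_lit 303117) (nat_lit 2) (.e (nat_lit 196630) (nat_lit 9) (.e (nat_lit 1563) (nat_lit 110) (.e (nat_lit 352294) (nat_lit 20) .nil))))))) (.g (nat_lit 4) .nil .nil))) 
(.lf (nat_lit 74680) (.g (nat_lit 2790) (.e (nat_lit 1788) (nat_lit 119) (.e (nat_lit 516139) (nat_lit 7) (.e (nat_lit 409648) (nat_lit 18) (.e (nat_lit 303117) (nat_lit 2) (.e (nat_lit 196673) (nat_lit 15) (.e (nat_lit 81928) (nat_lit 20) .nil)))))) (.g (nat_lit 4) .nil .nil)))))) (.nd (nat_lit 3) (.nd (nat_lit 4) (.nd (nat_lit 5) 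
(.lf (nat_lit 74628) (.g (nat_lit 1589) (.e (nat_lit 1788) (nat_lit 119) (.e (nat_lit 516139) (nat_lit 7) (.e (nat_lit 409646) (nat_lit 18) (.e (nat_lit 303118) (nat_lit 3) .nil)))) .nil)) 
(.lf (nat_lit 74660) (.g (nat_lit 2364) (.e (nat_lit 1788) (nat_lit 119) (.e (nat_lit 516139) (nat_lit 7) (.e (nat_lit 409647) (nat_lit 18) (.e (nat_lit 303119) (nat_lit 3) (.e (nat_lit 204867) (nat_lit 28) .nil))))) .nil))) (.nd (nat_lit 5) 
(.lf (nat_lit 74644) (.g (nat_lit 3422) (.e (nat_lit 1788) (nat_lit 119) (.e (nat_lit 516139) (nat_lit 7) (.e (nat_lit 409646) (nat_lit 18) (.e (nat_lit 303119) (nat_lit 3) (.e (nat_lit 204877) (nat_lit 31) (.e (nat_lit 376843) (nat_lit 20) .nil)))))) (.g (nat_lit 4) .nil .nil))) 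
(.lf (nat_lit 74676) (.g (nat_lit 3771) (.e (nat_lit 1788) (nat_lit 119) (.e (nat_lit 516139) (nat_lit 7) (.e (nat_lit 409648) (nat_lit 18) (.e (nat_lit 303117) (nat_lit 2) (.e (nat_lit 196630) (nat_lit 9) (.e (nat_lit 1563) (nat_lit 110) (.e (nat_lit 352294) (nat_lit 20) .nil))))))) (.g (nat_lit 4) .nil .nil))))) (.nd (nat_lit 4) (.nd (nat_lit 5) 
(.lf (nat_lit 74636) (.g (nat_lit 4017) (.e (nat_lit 1788) (nat_lit 119) (.e (nat_lit 516139) (nat_lit 7) (.e (nat_lit 409646) (nat_lit 18) (.e (nat_lit 303119) (nat_lit 3) (.e (nat_lit 204866) (nat_lit 28) (.e (nat_lit 352292) (nat_lit 20) .nil)))))) (.g (nat_lit 5) .nil .nil))) 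
(.lf (nat_lit 74668) (.g (nat_lit 4046) (.e (nat_lit 1788) (nat_lit 119) (.e (nat_lit 516139) (nat_lit 7) (.e (nat_lit 409648) (nat_lit 18) (.e (nat_lit 303116) (nat_lit 2) (.e (nat_lit 196672) (nat_lit 15) (.e (nat_lit 81943) (nat_lit 20) .nil)))))) (.g (nat_lit 5) .nil .nil)))) (.nd (nat_lit 5) 
(.lf (nat_lit 74652) (.g (nat_lit 2627) (.e (nat_lit 1788) (nat_lit 119) (.e (nat_lit 516139) (nat_lit 7) (.e (nat_lit 409647) (nat_lit 18) (.e (nat_lit 303117) (nat_lit 2) (.e (nat_lit 196673) (nat_lit 15) (.e (nat_lit 81938) (nat_lit 20) .nil)))))) (.g (nat_lit 4) .nil .nil))) 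
(.lf (nat_lit 74684) (.g (nat_lit 4330) (.e (nat_lit 1788) (nat_lit 119) (.e (nat_lit 516139) (nat_lit 7) (.e (nat_lit 409648) (nat_lit 18) (.e (nat_lit 303117) (nat_lit 2) (.e (nat_lit 196674) (nat_lit 15) (.e (nat_lit 81946) (nat_lit 20) .nil)))))) (.g (nat_lit 5) .nil .nil))))))) (.nd (nat_lit 2) (.nd (nat_lit 3) (.nd (nat_lit 4) (.nd (nat_lit 5) 
(.lf (nat_lit 74626) (.g (nat_lit 5525) (.e (nat_lit 1788) (nat_lit 119) (.e (nat_lit 516139) (nat_lit 7) (.e (nat_lit 409646) (nat_lit 18) (.e (nat_lit 303117) (nat_lit 2) (.e (nat_lit 196674) (nat_lit 15) (.e (nat_lit 81946) (nat_lit 20) .nil)))))) (.g (nat_lit 6) .nil .nil))) 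
(.lf (nat_lit 74658) (.g (nat_lit 2392) (.e (nat_lit 1788) (nat_lit 119) (.e (nat_lit 516139) (nat_lit 7) (.e (nat_lit 409647) (nat_lit 18) (.e (nat_lit 303119) (nat_lit 3) (.e (nat_lit 204865) (nat_lit 28) .nil))))) .nil))) (.nd (nat_lit 5) 
(.lf (nat_lit 74642) (.g (nat_lit 3571) (.e (nat_lit 1788) (nat_lit 119) (.e (nat_lit 516139) (nat_lit 7) (.e (nat_lit 409646) (nat_lit 18) (.e (nat_lit 303119) (nat_lit 3) (.e (nat_lit 204867) (nat_lit 28) (.e (nat_lit 352295) (nat_lit 20) .nil)))))) (.g (nat_lit 4) .nil .nil))) 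
(.lf (nat_lit 74674) (.g (nat_lit 3512) (.e (nat_lit 1788) (nat_lit 119) (.e (nat_lit 516139) (nat_lit 7) (.e (nat_lit 409648) (nat_lit 18) (.e (nat_lit 303116) (nat_lit 2) (.e (nat_lit 196674) (nat_lit 15) (.e (nat_lit 81947) (nat_lit 20) .nil)))))) (.g (nat_lit 5) .nil .nil))))) (.nd (nat_lit 4) (.nd (nat_lit 5) 
(.lf (nat_lit 74634) (.g (nat_lit 3053) (.e (nat_lit 1788) (nat_lit 119) (.e (nat_lit 516139) (nat_lit 7) (.e (nat_lit 409646) (nat_lit 18) (.e (nat_lit 303119) (nat_lit 3) (.e (nat_lit 204865) (nat_lit 28) (.e (nat_lit 352295) (nat_lit 20) .nil)))))) (.g (nat_lit 4) .nil .nil))) 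
(.lf (nat_lit 74666) (.g (nat_lit 4181) (.e (nat_lit 1788) (nat_lit 119) (.e (nat_lit 516139) (nat_lit 7) (.e (nat_lit 409648) (nat_lit 18) (.e (nat_lit 303116) (nat_lit 2) (.e (nat_lit 196672) (nat_lit 15) (.e (nat_lit 81928) (nat_lit 20) .nil)))))) (.g (nat_lit 5) .nil .nil)))) (.nd (nat_lit 5) 
(.lf (nat_lit 74650) (.g (nat_lit 2706) (.e (nat_lit 1788) (nat_lit 119) (.e (nat_lit 516139) (nat_lit 7) (.e (nat_lit 409647) (nat_lit 18) (.e (nat_lit 303117) (nat_lit 2) (.e (nat_lit 196672) (nat_lit 15) (.e (nat_lit 81941) (nat_lit 20) .nil)))))) (.g (nat_lit 4) .nil .nil))) 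
(.lf (nat_lit 74682) (.g (nat_lit 3075) (.e (nat_lit 1788) (nat_lit 119) (.e (nat_lit 516139) (nat_lit 7) (.e (nat_lit 409648) (nat_lit 18) (.e (nat_lit 303117) (nat_lit 2) (.e (nat_lit 196673) (nat_lit 15) (.e (nat_lit 81939) (nat_lit 20) .nil)))))) (.g (nat_lit 4) .nil .nil)))))) (.nd (nat_lit 3) (.nd (nat_lit 4) (.nd (nat_lit 5) 
(.lf (nat_lit 74630) (.g (nat_lit 3196) (.e (nat_lit 1788) (nat_lit 119) (.e (nat_lit 516139) (nat_lit 7) (.e (nat_lit 409646) (nat_lit 18) (.e (nat_lit 303119) (nat_lit 3) (.e (nat_lit 204855) (nat_lit 26) (.e (nat_lit 336097) (nat_lit 9) (.e (nat_lit 335923) (nat_lit 0) .nil))))))) (.g (nat_lit 4) .nil .nil))) 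
(.lf (nat_lit 74662) (.g (nat_lit 2023) (.e (nat_lit 1788) (nat_lit 119) (.e (nat_lit 516139) (nat_lit 7) (.e (nat_lit 409648) (nat_lit 18) (.e (nat_lit 303108) (nat_lit 0) (.e (nat_lit 3238) (nat_lit 197) (.e (nat_lit 532546) (nat_lit 11) (.e (nat_lit 352294) (nat_lit 20) .nil))))))) (.g (nat_lit 4) .nil .nil)))) (.nd (nat_lit 5) 
(.lf (nat_lit 74646) (.g (nat_lit 2310) (.e (nat_lit 1788) (nat_lit 119) (.e (nat_lit 516139) (nat_lit 7) (.e (nat_lit 409647) (nat_lit 18) (.e (nat_lit 303116) (nat_lit 2) (.e (nat_lit 196674) (nat_lit 15) .nil))))) .nil)) 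
(.lf (nat_lit 74678) (.g (nat_lit 4480) (.e (nat_lit 1788) (nat_lit 119) (.e (nat_lit 516139) (nat_lit 7) (.e (nat_lit 409648) (nat_lit 18) (.e (nat_lit 303117) (nat_lit 2) (.e (nat_lit 196630) (nat_lit 9) (.e (nat_lit 1573) (nat_lit 110) (.e (nat_lit 352294) (nat_lit 20) .nil))))))) (.g (nat_lit 5) .nil .nil))))) (.nd (nat_lit 4) (.nd (nat_lit 5) 
(.lf (nat_lit 74638) (.g (nat_lit 3450) (.e (nat_lit 1788) (nat_lit 119) (.e (nat_lit 516139) (nat_lit 7) (.e (nat_lit 409646) (nat_lit 18) (.e (nat_lit 303119) (nat_lit 3) (.e (nat_lit 204866) (nat_lit 28) (.e (nat_lit 352302) (nat_lit 20) .nil)))))) (.g (nat_lit 4) .nil .nil))) 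
(.lf (nat_lit 74670) (.g (nat_lit 2788) (.e (nat_lit 1788) (nat_lit 119) (.e (nat_lit 516139) (nat_lit 7) (.e (nat_lit 409648) (nat_lit 18) (.e (nat_lit 303116) (nat_lit 2) (.e (nat_lit 196673) (nat_lit 15) (.e (nat_lit 81941) (nat_lit 20) .nil)))))) (.g (nat_lit 4) .nil .nil)))) (.nd (nat_lit 5) 
(.lf (nat_lit 74654) (.g (nat_lit 2871) (.e (nat_lit 1788) (nat_lit 119) (.e (nat_lit 516139) (nat_lit 7) (.e (nat_lit 409647) (nat_lit 18) (.e (nat_lit 303117) (nat_lit 2) (.e (nat_lit 196674) (nat_lit 15) (.e (nat_lit 81928) (nat_lit 20) .nil)))))) (.g (nat_lit 4) .nil .nil))) 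
(.lf (nat_lit 74686) (.g (nat_lit 2560) (.e (nat_lit 1788) (nat_lit 119) (.e (nat_lit 516139) (nat_lit 7) (.e (nat_lit 409648) (nat_lit 18) (.e (nat_lit 303118) (nat_lit 3) (.e (nat_lit 204865) (nat_lit 28) .nil))))) .nil))))))) (.nd (nat_lit 1) (.nd (nat_lit 2) (.nd (nat_lit 3) (.nd (nat_lit 4) (.nd (nat_lit 5) 
(.lf (nat_lit 74625) (.g (nat_lit 4498) (.e (nat_lit 1788) (nat_lit 119) (.e (nat_lit 516139) (nat_lit 7) (.e (nat_lit 409646) (nat_lit 18) (.e (nat_lit 303117) (nat_lit 2) (.e (nat_lit 196673) (nat_lit 15) (.e (nat_lit 81941) (nat_lit 20) .nil)))))) (.g (nat_lit 0) .nil .nil))) 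
(.lf (nat_lit 74657) (.g (nat_lit 2499) (.e (nat_lit 1788) (nat_lit 119) (.e (nat_lit 516139) (nat_lit 7) (.e (nat_lit 409647) (nat_lit 18) (.e (nat_lit 303118) (nat_lit 3) (.e (nat_lit 204876) (nat_lit 31) (.e (nat_lit 376843) (nat_lit 20) .nil)))))) (.g (nat_lit 4) .nil .nil)))) (.nd (nat_lit 5) 
(.lf (nat_lit 74641) (.g (nat_lit 3738) (.e (nat_lit 1788) (nat_lit 119) (.e (nat_lit 516139) (nat_lit 7) (.e (nat_lit 409646) (nat_lit 18) (.e (nat_lit 303119) (nat_lit 3) (.e (nat_lit 204867) (nat_lit 28) (.e (nat_lit 352294) (nat_lit 20) .nil)))))) (.g (nat_lit 5) .nil .nil))) 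
(.lf (nat_lit 74673) (.g (nat_lit 3846) (.e (nat_lit 1788) (nat_lit 119) (.e (nat_lit 516139) (nat_lit 7) (.e (nat_lit 409648) (nat_lit 18) (.e (nat_lit 303116) (nat_lit 2) (.e (nat_lit 196674) (nat_lit 15) (.e (nat_lit 81946) (nat_lit 20) .nil)))))) (.g (nat_lit 5) .nil .nil))))) (.nd (nat_lit 4) (.nd (nat_lit 5) 
(.lf (nat_lit 74633) (.g (nat_lit 3939) (.e (nat_lit 1788) (nat_lit 119) (.e (nat_lit 516139) (nat_lit 7) (.e (nat_lit 409646) (nat_lit 18) (.e (nat_lit 303119) (nat_lit 3) (.e (nat_lit 204865) (nat_lit 28) (.e (nat_lit 352294) (nat_lit 20) .nil)))))) (.g (nat_lit 5) .nil .nil))) 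
(.lf (nat_lit 74665) (.g (nat_lit 3167) (.e (nat_lit 1788) (nat_lit 119) (.e (nat_lit 516139) (nat_lit 7) (.e (nat_lit 409648) (nat_lit 18) (.e (nat_lit 303116) (nat_lit 2) (.e (nat_lit 196671) (nat_lit 15) (.e (nat_lit 81941) (nat_lit 20) .nil)))))) (.g (nat_lit 4) .nil .nil)))) (.nd (nat_lit 5) 
(.lf (nat_lit 74649) (.g (nat_lit 2659) (.e (nat_lit 1788) (nat_lit 119) (.e (nat_lit 516139) (nat_lit 7) (.e (nat_lit 409647) (nat_lit 18) (.e (nat_lit 303117) (nat_lit 2) (.e (nat_lit 196672) (nat_lit 15) (.e (nat_lit 81928) (nat_lit 20) .nil)))))) (.g (nat_lit 4) .nil .nil))) 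
(.lf (nat_lit 74681) (.g (nat_lit 3987) (.e (nat_lit 1788) (nat_lit 119) (.e (nat_lit 516139) (nat_lit 7) (.e (nat_lit 409648) (nat_lit 18) (.e (nat_lit 303117) (nat_lit 2) (.e (nat_lit 196673) (nat_lit 15) (.e (nat_lit 81938) (nat_lit 20) .nil)))))) (.g (nat_lit 5) .nil .nil)))))) (.nd (nat_lit 3) (.nd (nat_lit 4) (.nd (nat_lit 5) 
(.lf (nat_lit 74629) (.g (nat_lit 2682) (.e (nat_lit 1788) (nat_lit 119) (.e (nat_lit 516139) (nat_lit 7) (.e (nat_lit 409646) (nat_lit 18) (.e (nat_lit 303119) (nat_lit 3) (.e (nat_lit 204855) (nat_lit 26) .nil))))) .nil)) 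
(.lf (nat_lit 74661) (.g (nat_lit 2451) (.e (nat_lit 1788) (nat_lit 119) (.e (nat_lit 516139) (nat_lit 7) (.e (nat_lit 409648) (nat_lit 18) (.e (nat_lit 303105) (nat_lit 0) .nil)))) .nil))) (.nd (nat_lit 5) 
(.lf (nat_lit 74645) (.g (nat_lit 3950) (.e (nat_lit 1788) (nat_lit 119) (.e (nat_lit 516139) (nat_lit 7) (.e (nat_lit 409646) (nat_lit 18) (.e (nat_lit 303119) (nat_lit 3) (.e (nat_lit 204878) (nat_lit 31) (.e (nat_lit 376843) (nat_lit 20) .nil)))))) (.g (nat_lit 5) .nil .nil))) 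
(.lf (nat_lit 74677) (.g (nat_lit 3645) (.e (nat_lit 1788) (nat_lit 119) (.e (nat_lit 516139) (nat_lit 7) (.e (nat_lit 409648) (nat_lit 18) (.e (nat_lit 303117) (nat_lit 2) (.e (nat_lit 196630) (nat_lit 9) (.e (nat_lit 1573) (nat_lit 110) (.e (nat_lit 352292) (nat_lit 20) .nil))))))) (.g (nat_lit 4) .nil .nil))))) (.nd (nat_lit 4) (.nd (nat_lit 5) 
(.lf (nat_lit 74637) (.g (nat_lit 3379) (.e (nat_lit 1788) (nat_lit 119) (.e (nat_lit 516139) (nat_lit 7) (.e (nat_lit 409646) (nat_lit 18) (.e (nat_lit 303119) (nat_lit 3) (.e (nat_lit 204866) (nat_lit 28) (.e (nat_lit 352301) (nat_lit 20) .nil)))))) (.g (nat_lit 4) .nil .nil))) 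
(.lf (nat_lit 74669) (.g (nat_lit 2530) (.e (nat_lit 1788) (nat_lit 119) (.e (nat_lit 516139) (nat_lit 7) (.e (nat_lit 409648) (nat_lit 18) (.e (nat_lit 303116) (nat_lit 2) (.e (nat_lit 196673) (nat_lit 15) (.e (nat_lit 81938) (nat_lit 20) .nil)))))) (.g (nat_lit 4) .nil .nil)))) (.nd (nat_lit 5) 
(.lf (nat_lit 74653) (.g (nat_lit 2797) (.e (nat_lit 1788) (nat_lit 119) (.e (nat_lit 516139) (nat_lit 7) (.e (nat_lit 409647) (nat_lit 18) (.e (nat_lit 303117) (nat_lit 2) (.e (nat_lit 196673) (nat_lit 15) (.e (nat_lit 81941) (nat_lit 20) .nil)))))) (.g (nat_lit 4) .nil .nil))) 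
(.lf (nat_lit 74685) (.g (nat_lit 1423) (.e (nat_lit 1788) (nat_lit 119) (.e (nat_lit 516139) (nat_lit 7) (.e (nat_lit 409648) (nat_lit 18) (.e (nat_lit 303118) (nat_lit 3) .nil)))) .nil)))))) (.nd (nat_lit 2) (.nd (nat_lit 3) (.nd (nat_lit 4) (.nd (nat_lit 5) 
(.lf (nat_lit 74627) (.g (nat_lit 5339) (.e (nat_lit 1788) (nat_lit 119) (.e (nat_lit 516139) (nat_lit 7) (.e (nat_lit 409646) (nat_lit 18) (.e (nat_lit 303117) (nat_lit 2) (.e (nat_lit 196674) (nat_lit 15) (.e (nat_lit 81947) (nat_lit 20) .nil)))))) (.g (nat_lit 6) .nil .nil))) 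
(.lf (nat_lit 74659) (.g (nat_lit 2802) (.e (nat_lit 1788) (nat_lit 119) (.e (nat_lit 516139) (nat_lit 7) (.e (nat_lit 409647) (nat_lit 18) (.e (nat_lit 303119) (nat_lit 3) (.e (nat_lit 204865) (nat_lit 28) (.e (nat_lit 352294) (nat_lit 20) .nil)))))) (.g (nat_lit 4) .nil .nil)))) (.nd (nat_lit 5) 
(.lf (nat_lit 74643) (.g (nat_lit 3422) (.e (nat_lit 1788) (nat_lit 119) (.e (nat_lit 516139) (nat_lit 7) (.e (nat_lit 409646) (nat_lit 18) (.e (nat_lit 303119) (nat_lit 3) (.e (nat_lit 204876) (nat_lit 31) (.e (nat_lit 376843) (nat_lit 20) .nil)))))) (.g (nat_lit 4) .nil .nil))) 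
(.lf (nat_lit 74675) (.g (nat_lit 2462) (.e (nat_lit 1788) (nat_lit 119) (.e (nat_lit 516139) (nat_lit 7) (.e (nat_lit 409648) (nat_lit 18) (.e (nat_lit 303116) (nat_lit 2) (.e (nat_lit 204544) (nat_lit 15) .nil))))) .nil)))) (.nd (nat_lit 4) (.nd (nat_lit 5) 
(.lf (nat_lit 74635) (.g (nat_lit 2532) (.e (nat_lit 1788) (nat_lit 119) (.e (nat_lit 516139) (nat_lit 7) (.e (nat_lit 409646) (nat_lit 18) (.e (nat_lit 303119) (nat_lit 3) (.e (nat_lit 204866) (nat_lit 28) .nil))))) .nil)) 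
(.lf (nat_lit 74667) (.g (nat_lit 4673) (.e (nat_lit 1788) (nat_lit 119) (.e (nat_lit 516139) (nat_lit 7) (.e (nat_lit 409648) (nat_lit 18) (.e (nat_lit 303116) (nat_lit 2) (.e (nat_lit 196672) (nat_lit 15) (.e (nat_lit 81941) (nat_lit 20) .nil)))))) (.g (nat_lit 0) .nil .nil)))) (.nd (nat_lit 5) 
(.lf (nat_lit 74651) (.g (nat_lit 2883) (.e (nat_lit 1788) (nat_lit 119) (.e (nat_lit 516139) (nat_lit 7) (.e (nat_lit 409647) (nat_lit 18) (.e (nat_lit 303117) (nat_lit 2) (.e (nat_lit 196672) (nat_lit 15) (.e (nat_lit 81943) (nat_lit 20) .nil)))))) (.g (nat_lit 4) .nil .nil))) 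
(.lf (nat_lit 74683) (.g (nat_lit 4127) (.e (nat_lit 1788) (nat_lit 119) (.e (nat_lit 516139) (nat_lit 7) (.e (nat_lit 409648) (nat_lit 18) (.e (nat_lit 303117) (nat_lit 2) (.e (nat_lit 196673) (nat_lit 15) (.e (nat_lit 81941) (nat_lit 20) .nil)))))) (.g (nat_lit 5) .nil .nil)))))) (.nd (nat_lit 3) (.nd (nat_lit 4) (.nd (nat_lit 5) 
(.lf (nat_lit 74631) (.g (nat_lit 2907) (.e (nat_lit 1788) (nat_lit 119) (.e (nat_lit 516139) (nat_lit 7) (.e (nat_lit 409646) (nat_lit 18) (.e (nat_lit 303119) (nat_lit 3) (.e (nat_lit 204865) (nat_lit 28) .nil))))) .nil)) 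
(.lf (nat_lit 74663) (.g (nat_lit 2591) (.e (nat_lit 1788) (nat_lit 119) (.e (nat_lit 516139) (nat_lit 7) (.e (nat_lit 409648) (nat_lit 18) (.e (nat_lit 303112) (nat_lit 0) (.e (nat_lit 3252) (nat_lit 197) .nil))))) .nil))) (.nd (nat_lit 5) 
(.lf (nat_lit 74647) (.g (nat_lit 2625) (.e (nat_lit 1788) (nat_lit 119) (.e (nat_lit 516139) (nat_lit 7) (.e (nat_lit 409647) (nat_lit 18) (.e (nat_lit 303116) (nat_lit 2) (.e (nat_lit 196674) (nat_lit 15) (.e (nat_lit 81946) (nat_lit 20) .nil)))))) (.g (nat_lit 4) .nil .nil))) 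
(.lf (nat_lit 74679) (.g (nat_lit 3381) (.e (nat_lit 1788) (nat_lit 119) (.e (nat_lit 516139) (nat_lit 7) (.e (nat_lit 409648) (nat_lit 18) (.e (nat_lit 303117) (nat_lit 2) (.e (nat_lit 196671) (nat_lit 15) (.e (nat_lit 81941) (nat_lit 20) .nil)))))) (.g (nat_lit 4) .nil .nil))))) (.nd (nat_lit 4) (.nd (nat_lit 5) 
(.lf (nat_lit 74639) (.g (nat_lit 2719) (.e (nat_lit 1788) (nat_lit 119) (.e (nat_lit 516139) (nat_lit 7) (.e (nat_lit 409646) (nat_lit 18) (.e (nat_lit 303119) (nat_lit 3) (.e (nat_lit 204867) (nat_lit 28) .nil))))) .nil)) 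
(.lf (nat_lit 74671) (.g (nat_lit 3334) (.e (nat_lit 1788) (nat_lit 119) (.e (nat_lit 516139) (nat_lit 7) (.e (nat_lit 409648) (nat_lit 18) (.e (nat_lit 303116) (nat_lit 2) (.e (nat_lit 196674) (nat_lit 15) (.e (nat_lit 81928) (nat_lit 20) .nil)))))) (.g (nat_lit 4) .nil .nil)))) (.nd (nat_lit 5) 
(.lf (nat_lit 74655) (.g (nat_lit 3227) (.e (nat_lit 1788) (nat_lit 119) (.e (nat_lit 516139) (nat_lit 7) (.e (nat_lit 409647) (nat_lit 18) (.e (nat_lit 303117) (nat_lit 2) (.e (nat_lit 196674) (nat_lit 15) (.e (nat_lit 81947) (nat_lit 20) .nil)))))) (.g (nat_lit 4) .nil .nil))) 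
(.lf (nat_lit 74687) (.g (nat_lit 3078) (.e (nat_lit 1788) (nat_lit 119) (.e (nat_lit 516139) (nat_lit 7) (.e (nat_lit 409648) (nat_lit 18) (.e (nat_lit 303118) (nat_lit 3) (.e (nat_lit 204865) (nat_lit 28) (.e (nat_lit 352291) (nat_lit 20) .nil)))))) (.g (nat_lit 4) .nil .nil)))))))))

noncomputable def tv1010 : DT := (.nd (nat_lit 0) (.nd (nat_lit 1) (.nd (nat_lit 2) (.nd (nat_lit 3) (.nd (nat_lit 4) (.nd (nat_lit 5) 
(.lf (nat_lit 74688) (.g (nat_lit 3818) (.e (nat_lit 1788) (nat_lit 119) (.e (nat_lit 516139) (nat_lit 7) (.e (nat_lit 409648) (nat_lit 18) (.e (nat_lit 303118) (nat_lit 3) (.e (nat_lit 204865) (nat_lit 28) (.e (nat_lit 352292) (nat_lit 20) .nil)))))) (.g (nat_lit 5) .nil .nil))) 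
(.lf (nat_lit 74720) (.g (nat_lit 2777) (.e (nat_lit 1788) (nat_lit 119) (.e (nat_lit 516139) (nat_lit 7) (.e (nat_lit 409649) (nat_lit 18) (.e (nat_lit 303116) (nat_lit 2) (.e (nat_lit 196630) (nat_lit 9) .nil))))) .nil))) (.nd (nat_lit 5) 
(.lf (nat_lit 74704) (.g (nat_lit 2724) (.e (nat_lit 1788) (nat_lit 119) (.e (nat_lit 516139) (nat_lit 7) (.e (nat_lit 409648) (nat_lit 18) (.e (nat_lit 303119) (nat_lit 3) (.e (nat_lit 204867) (nat_lit 28) .nil))))) .nil)) 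
(.lf (nat_lit 74736) (.g (nat_lit 2800) (.e (nat_lit 1788) (nat_lit 119) (.e (nat_lit 516139) (nat_lit 7) (.e (nat_lit 409649) (nat_lit 18) (.e (nat_lit 303117) (nat_lit 2) (.e (nat_lit 196672) (nat_lit 15) (.e (nat_lit 81940) (nat_lit 20) .nil)))))) (.g (nat_lit 4) .nil .nil))))) (.nd (nat_lit 4) (.nd (nat_lit 5) 
(.lf (nat_lit 74696) (.g (nat_lit 2129) (.e (nat_lit 1788) (nat_lit 119) (.e (nat_lit 516139) (nat_lit 7) (.e (nat_lit 409648) (nat_lit 18) (.e (nat_lit 303118) (nat_lit 3) (.e (nat_lit 204878) (nat_lit 31) .nil))))) .nil)) 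
(.lf (nat_lit 74728) (.g (nat_lit 3279) (.e (nat_lit 1788) (nat_lit 119) (.e (nat_lit 516139) (nat_lit 7) (.e (nat_lit 409649) (nat_lit 18) (.e (nat_lit 303116) (nat_lit 2) (.e (nat_lit 196674) (nat_lit 15) (.e (nat_lit 81940) (nat_lit 20) .nil)))))) (.g (nat_lit 4) .nil .nil)))) (.nd (nat_lit 5) 
(.lf (nat_lit 74712) (.g (nat_lit 3460) (.e (nat_lit 1788) (nat_lit 119) (.e (nat_lit 516139) (nat_lit 7) (.e (nat_lit 409649) (nat_lit 18) (.e (nat_lit 303111) (nat_lit 0) (.e (nat_lit 3238) (nat_lit 197) (.e (nat_lit 532546) (nat_lit 11) (.e (nat_lit 352294) (nat_lit 20) .nil))))))) (.g (nat_lit 5) .nil .nil))) 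
(.lf (nat_lit 74744) (.g (nat_lit 4670) (.e (nat_lit 1788) (nat_lit 119) (.e (nat_lit 516139) (nat_lit 7) (.e (nat_lit 409649) (nat_lit 18) (.e (nat_lit 303117) (nat_lit 2) (.e (nat_lit 196673) (nat_lit 15) (.e (nat_lit 81941) (nat_lit 20) .nil)))))) (.g (nat_lit 5) .nil .nil)))))) (.nd (nat_lit 3) (.nd (nat_lit 4) (.nd (nat_lit 5) 
(.lf (nat_lit 74692) (.g (nat_lit 4014) (.e (nat_lit 1788) (nat_lit 119) (.e (nat_lit 516139) (nat_lit 7) (.e (nat_lit 409648) (nat_lit 18) (.e (nat_lit 303118) (nat_lit 3) (.e (nat_lit 204867) (nat_lit 28) (.e (nat_lit 352294) (nat_lit 20) .nil)))))) (.g (nat_lit 6) .nil .nil))) 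
(.lf (nat_lit 74724) (.g (nat_lit 2546) (.e (nat_lit 1788) (nat_lit 119) (.e (nat_lit 516139) (nat_lit 7) (.e (nat_lit 409649) (nat_lit 18) (.e (nat_lit 303116) (nat_lit 2) (.e (nat_lit 196672) (nat_lit 15) (.e (nat_lit 81942) (nat_lit 20) .nil)))))) (.g (nat_lit 4) .nil .nil)))) (.nd (nat_lit 5) 
(.lf (nat_lit 74708) (.g (nat_lit 2831) (.e (nat_lit 1788) (nat_lit 119) (.e (nat_lit 516139) (nat_lit 7) (.e (nat_lit 409648) (nat_lit 18) (.e (nat_lit 303119) (nat_lit 3) (.e (nat_lit 204876) (nat_lit 31) (.e (nat_lit 376843) (nat_lit 20) .nil)))))) (.g (nat_lit 4) .nil .nil))) 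
(.lf (nat_lit 74740) (.g (nat_lit 2496) (.e (nat_lit 1788) (nat_lit 119) (.e (nat_lit 516139) (nat_lit 7) (.e (nat_lit 409649) (nat_lit 18) (.e (nat_lit 303117) (nat_lit 2) (.e (nat_lit 196672) (nat_lit 15) (.e (nat_lit 81946) (nat_lit 20) .nil)))))) (.g (nat_lit 4) .nil .nil))))) (.nd (nat_lit 4) (.nd (nat_lit 5) 
(.lf (nat_lit 74700) (.g (nat_lit 3064) (.e (nat_lit 1788) (nat_lit 119) (.e (nat_lit 516139) (nat_lit 7) (.e (nat_lit 409648) (nat_lit 18) (.e (nat_lit 303119) (nat_lit 3) (.e (nat_lit 204865) (nat_lit 28) (.e (nat_lit 352291) (nat_lit 20) .nil)))))) (.g (nat_lit 4) .nil .nil))) 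
(.lf (nat_lit 74732) (.g (nat_lit 4273) (.e (nat_lit 1788) (nat_lit 119) (.e (nat_lit 516139) (nat_lit 7) (.e (nat_lit 409649) (nat_lit 18) (.e (nat_lit 303117) (nat_lit 2) (.e (nat_lit 196630) (nat_lit 9) (.e (nat_lit 1563) (nat_lit 110) (.e (nat_lit 352294) (nat_lit 20) .nil))))))) (.g (nat_lit 5) .nil .nil)))) (.nd (nat_lit 5) 
(.lf (nat_lit 74716) (.g (nat_lit 2657) (.e (nat_lit 1788) (nat_lit 119) (.e (nat_lit 516139) (nat_lit 7) (.e (nat_lit 409649) (nat_lit 18) (.e (nat_lit 303112) (nat_lit 0) (.e (nat_lit 3252) (nat_lit 197) .nil))))) .nil)) 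
(.lf (nat_lit 74748) (.g (nat_lit 2604) (.e (nat_lit 1788) (nat_lit 119) (.e (nat_lit 516139) (nat_lit 7) (.e (nat_lit 409649) (nat_lit 18) (.e (nat_lit 303118) (nat_lit 3) (.e (nat_lit 204865) (nat_lit 28) .nil))))) .nil)))))) (.nd (nat_lit 2) (.nd (nat_lit 3) (.nd (nat_lit 4) (.nd (nat_lit 5) 
(.lf (nat_lit 74690) (.g (nat_lit 2708) (.e (nat_lit 1788) (nat_lit 119) (.e (nat_lit 516139) (nat_lit 7) (.e (nat_lit 409648) (nat_lit 18) (.e (nat_lit 303118) (nat_lit 3) (.e (nat_lit 204867) (nat_lit 28) .nil))))) .nil)) 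
(.lf (nat_lit 74722) (.g (nat_lit 4399) (.e (nat_lit 1788) (nat_lit 119) (.e (nat_lit 516139) (nat_lit 7) (.e (nat_lit 409649) (nat_lit 18) (.e (nat_lit 303116) (nat_lit 2) (.e (nat_lit 196672) (nat_lit 15) (.e (nat_lit 81928) (nat_lit 20) .nil)))))) (.g (nat_lit 5) .nil .nil)))) (.nd (nat_lit 5) 
(.lf (nat_lit 74706) (.g (nat_lit 3800) (.e (nat_lit 1788) (nat_lit 119) (.e (nat_lit 516139) (nat_lit 7) (.e (nat_lit 409648) (nat_lit 18) (.e (nat_lit 303119) (nat_lit 3) (.e (nat_lit 204867) (nat_lit 28) (.e (nat_lit 352294) (nat_lit 20) .nil)))))) (.g (nat_lit 5) .nil .nil))) 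
(.lf (nat_lit 74738) (.g (nat_lit 4005) (.e (nat_lit 1788) (nat_lit 119) (.e (nat_lit 516139) (nat_lit 7) (.e (nat_lit 409649) (nat_lit 18) (.e (nat_lit 303117) (nat_lit 2) (.e (nat_lit 196672) (nat_lit 15) (.e (nat_lit 81942) (nat_lit 20) .nil)))))) (.g (nat_lit 5) .nil .nil))))) (.nd (nat_lit 4) (.nd (nat_lit 5) 
(.lf (nat_lit 74698) (.g (nat_lit 2511) (.e (nat_lit 1788) (nat_lit 119) (.e (nat_lit 516139) (nat_lit 7) (.e (nat_lit 409648) (nat_lit 18) (.e (nat_lit 303119) (nat_lit 3) (.e (nat_lit 204865) (nat_lit 28) .nil))))) .nil)) 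
(.lf (nat_lit 74730) (.g (nat_lit 2723) (.e (nat_lit 1788) (nat_lit 119) (.e (nat_lit 516139) (nat_lit 7) (.e (nat_lit 409649) (nat_lit 18) (.e (nat_lit 303116) (nat_lit 2) (.e (nat_lit 204544) (nat_lit 15) .nil))))) .nil))) (.nd (nat_lit 5) 
(.lf (nat_lit 74714) (.g (nat_lit 2524) (.e (nat_lit 1788) (nat_lit 119) (.e (nat_lit 516139) (nat_lit 7) (.e (nat_lit 409649) (nat_lit 18) (.e (nat_lit 303111) (nat_lit 0) (.e (nat_lit 3238) (nat_lit 197) (.e (nat_lit 532560) (nat_lit 14) (.e (nat_lit 376843) (nat_lit 20) .nil))))))) (.g (nat_lit 4) .nil .nil))) 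
(.lf (nat_lit 74746) (.g (nat_lit 5174) (.e (nat_lit 1788) (nat_lit 119) (.e (nat_lit 516139) (nat_lit 7) (.e (nat_lit 409649) (nat_lit 18) (.e (nat_lit 303117) (nat_lit 2) (.e (nat_lit 196674) (nat_lit 15) (.e (nat_lit 81946) (nat_lit 20) .nil)))))) (.g (nat_lit 6) .nil .nil)))))) (.nd (nat_lit 3) (.nd (nat_lit 4) (.nd (nat_lit 5) 
(.lf (nat_lit 74694) (.g (nat_lit 3207) (.e (nat_lit 1788) (nat_lit 119) (.e (nat_lit 516139) (nat_lit 7) (.e (nat_lit 409648) (nat_lit 18) (.e (nat_lit 303118) (nat_lit 3) (.e (nat_lit 204876) (nat_lit 31) (.e (nat_lit 376843) (nat_lit 20) .nil)))))) (.g (nat_lit 5) .nil .nil))) 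
(.lf (nat_lit 74726) (.g (nat_lit 2752) (.e (nat_lit 1788) (nat_lit 119) (.e (nat_lit 516139) (nat_lit 7) (.e (nat_lit 409649) (nat_lit 18) (.e (nat_lit 303116) (nat_lit 2) (.e (nat_lit 196673) (nat_lit 15) .nil))))) .nil))) (.nd (nat_lit 5) 
(.lf (nat_lit 74710) (.g (nat_lit 2282) (.e (nat_lit 1788) (nat_lit 119) (.e (nat_lit 516139) (nat_lit 7) (.e (nat_lit 409649) (nat_lit 18) (.e (nat_lit 303111) (nat_lit 0) (.e (nat_lit 7936) (nat_lit 193) .nil))))) .nil)) 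
(.lf (nat_lit 74742) (.g (nat_lit 4500) (.e (nat_lit 1788) (nat_lit 119) (.e (nat_lit 516139) (nat_lit 7) (.e (nat_lit 409649) (nat_lit 18) (.e (nat_lit 303117) (nat_lit 2) (.e (nat_lit 196673) (nat_lit 15) (.e (nat_lit 81938) (nat_lit 20) .nil)))))) (.g (nat_lit 5) .nil .nil))))) (.nd (nat_lit 4) (.nd (nat_lit 5) 
(.lf (nat_lit 74702) (.g (nat_lit 4361) (.e (nat_lit 1788) (nat_lit 119) (.e (nat_lit 516139) (nat_lit 7) (.e (nat_lit 409648) (nat_lit 18) (.e (nat_lit 303119) (nat_lit 3) (.e (nat_lit 204865) (nat_lit 28) (.e (nat_lit 352294) (nat_lit 20) .nil)))))) (.g (nat_lit 6) .nil .nil))) 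
(.lf (nat_lit 74734) (.g (nat_lit 3943) (.e (nat_lit 1788) (nat_lit 119) (.e (nat_lit 516139) (nat_lit 7) (.e (nat_lit 409649) (nat_lit 18) (.e (nat_lit 303117) (nat_lit 2) (.e (nat_lit 196671) (nat_lit 15) (.e (nat_lit 81941) (nat_lit 20) .nil)))))) (.g (nat_lit 5) .nil .nil)))) (.nd (nat_lit 5) 
(.lf (nat_lit 74718) (.g (nat_lit 3066) (.e (nat_lit 1788) (nat_lit 119) (.e (nat_lit 516139) (nat_lit 7) (.e (nat_lit 409649) (nat_lit 18) (.e (nat_lit 303112) (nat_lit 0) (.e (nat_lit 3252) (nat_lit 197) (.e (nat_lit 532561) (nat_lit 14) (.e (nat_lit 376843) (nat_lit 20) .nil))))))) (.g (nat_lit 4) .nil .nil))) 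
(.lf (nat_lit 74750) (.g (nat_lit 3079) (.e (nat_lit 1788) (nat_lit 119) (.e (nat_lit 516139) (nat_lit 7) (.e (nat_lit 409649) (nat_lit 18) (.e (nat_lit 303118) (nat_lit 3) (.e (nat_lit 204865) (nat_lit 28) (.e (nat_lit 352291) (nat_lit 20) .nil)))))) (.g (nat_lit 4) .nil .nil)))))))) (.nd (nat_lit 1) (.nd (nat_lit 2) (.nd (nat_lit 3) (.nd (nat_lit 4) (.nd (nat_lit 5) 
(.lf (nat_lit 74689) (.g (nat_lit 3437) (.e (nat_lit 1788) (nat_lit 119) (.e (nat_lit 516139) (nat_lit 7) (.e (nat_lit 409648) (nat_lit 18) (.e (nat_lit 303118) (nat_lit 3) (.e (nat_lit 204865) (nat_lit 28) (.e (nat_lit 352295) (nat_lit 20) .nil)))))) (.g (nat_lit 4) .nil .nil))) 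
(.lf (nat_lit 74721) (.g (nat_lit 3404) (.e (nat_lit 1788) (nat_lit 119) (.e (nat_lit 516139) (nat_lit 7) (.e (nat_lit 409649) (nat_lit 18) (.e (nat_lit 303116) (nat_lit 2) (.e (nat_lit 196671) (nat_lit 15) (.e (nat_lit 81941) (nat_lit 20) .nil)))))) (.g (nat_lit 4) .nil .nil)))) (.nd (nat_lit 5) 
(.lf (nat_lit 74705) (.g (nat_lit 3525) (.e (nat_lit 1788) (nat_lit 119) (.e (nat_lit 516139) (nat_lit 7) (.e (nat_lit 409648) (nat_lit 18) (.e (nat_lit 303119) (nat_lit 3) (.e (nat_lit 204867) (nat_lit 28) (.e (nat_lit 352292) (nat_lit 20) .nil)))))) (.g (nat_lit 4) .nil .nil))) 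
(.lf (nat_lit 74737) (.g (nat_lit 4796) (.e (nat_lit 1788) (nat_lit 119) (.e (nat_lit 516139) (nat_lit 7) (.e (nat_lit 409649) (nat_lit 18) (.e (nat_lit 303117) (nat_lit 2) (.e (nat_lit 196672) (nat_lit 15) (.e (nat_lit 81941) (nat_lit 20) .nil)))))) (.g (nat_lit 0) .nil .nil))))) (.nd (nat_lit 4) (.nd (nat_lit 5) 
(.lf (nat_lit 74697) (.g (nat_lit 1345) (.e (nat_lit 1788) (nat_lit 119) (.e (nat_lit 516139) (nat_lit 7) (.e (nat_lit 409648) (nat_lit 18) (.e (nat_lit 303119) (nat_lit 3) .nil)))) .nil)) 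
(.lf (nat_lit 74729) (.g (nat_lit 4203) (.e (nat_lit 1788) (nat_lit 119) (.e (nat_lit 516139) (nat_lit 7) (.e (nat_lit 409649) (nat_lit 18) (.e (nat_lit 303116) (nat_lit 2) (.e (nat_lit 196674) (nat_lit 15) (.e (nat_lit 81946) (nat_lit 20) .nil)))))) (.g (nat_lit 5) .nil .nil)))) (.nd (nat_lit 5) 
(.lf (nat_lit 74713) (.g (nat_lit 3019) (.e (nat_lit 1788) (nat_lit 119) (.e (nat_lit 516139) (nat_lit 7) (.e (nat_lit 409649) (nat_lit 18) (.e (nat_lit 303111) (nat_lit 0) (.e (nat_lit 3238) (nat_lit 197) (.e (nat_lit 532548) (nat_lit 11) (.e (nat_lit 352294) (nat_lit 20) .nil))))))) (.g (nat_lit 5) .nil .nil))) 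
(.lf (nat_lit 74745) (.g (nat_lit 4390) (.e (nat_lit 1788) (nat_lit 119) (.e (nat_lit 516139) (nat_lit 7) (.e (nat_lit 409649) (nat_lit 18) (.e (nat_lit 303117) (nat_lit 2) (.e (nat_lit 196674) (nat_lit 15) (.e (nat_lit 81928) (nat_lit 20) .nil)))))) (.g (nat_lit 5) .nil .nil)))))) (.nd (nat_lit 3) (.nd (nat_lit 4) (.nd (nat_lit 5) 
(.lf (nat_lit 74693) (.g (nat_lit 3689) (.e (nat_lit 1788) (nat_lit 119) (.e (nat_lit 516139) (nat_lit 7) (.e (nat_lit 409648) (nat_lit 18) (.e (nat_lit 303118) (nat_lit 3) (.e (nat_lit 204867) (nat_lit 28) (.e (nat_lit 352295) (nat_lit 20) .nil)))))) (.g (nat_lit 4) .nil .nil))) 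
(.lf (nat_lit 74725) (.g (nat_lit 4291) (.e (nat_lit 1788) (nat_lit 119) (.e (nat_lit 516139) (nat_lit 7) (.e (nat_lit 409649) (nat_lit 18) (.e (nat_lit 303116) (nat_lit 2) (.e (nat_lit 196672) (nat_lit 15) (.e (nat_lit 81943) (nat_lit 20) .nil)))))) (.g (nat_lit 5) .nil .nil)))) (.nd (nat_lit 5) 
(.lf (nat_lit 74709) (.g (nat_lit 2485) (.e (nat_lit 1788) (nat_lit 119) (.e (nat_lit 516139) (nat_lit 7) (.e (nat_lit 409649) (nat_lit 18) (.e (nat_lit 303105) (nat_lit 0) .nil)))) .nil)) 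
(.lf (nat_lit 74741) (.g (nat_lit 3276) (.e (nat_lit 1788) (nat_lit 119) (.e (nat_lit 516139) (nat_lit 7) (.e (nat_lit 409649) (nat_lit 18) (.e (nat_lit 303117) (nat_lit 2) (.e (nat_lit 196673) (nat_lit 15) (.e (nat_lit 81928) (nat_lit 20) .nil)))))) (.g (nat_lit 4) .nil .nil))))) (.nd (nat_lit 4) (.nd (nat_lit 5) 
(.lf (nat_lit 74701) (.g (nat_lit 3804) (.e (nat_lit 1788) (nat_lit 119) (.e (nat_lit 516139) (nat_lit 7) (.e (nat_lit 409648) (nat_lit 18) (.e (nat_lit 303119) (nat_lit 3) (.e (nat_lit 204865) (nat_lit 28) (.e (nat_lit 352292) (nat_lit 20) .nil)))))) (.g (nat_lit 5) .nil .nil))) 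
(.lf (nat_lit 74733) (.g (nat_lit 4334) (.e (nat_lit 1788) (nat_lit 119) (.e (nat_lit 516139) (nat_lit 7) (.e (nat_lit 409649) (nat_lit 18) (.e (nat_lit 303117) (nat_lit 2) (.e (nat_lit 196630) (nat_lit 9) (.e (nat_lit 1573) (nat_lit 110) (.e (nat_lit 352292) (nat_lit 20) .nil))))))) (.g (nat_lit 5) .nil .nil)))) (.nd (nat_lit 5) 
(.lf (nat_lit 74717) (.g (nat_lit 3058) (.e (nat_lit 1788) (nat_lit 119) (.e (nat_lit 516139) (nat_lit 7) (.e (nat_lit 409649) (nat_lit 18) (.e (nat_lit 303112) (nat_lit 0) (.e (nat_lit 3252) (nat_lit 197) (.e (nat_lit 532548) (nat_lit 11) (.e (nat_lit 352294) (nat_lit 20) .nil))))))) (.g (nat_lit 4) .nil .nil))) 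
(.lf (nat_lit 74749) (.g (nat_lit 2609) (.e (nat_lit 1788) (nat_lit 119) (.e (nat_lit 516139) (nat_lit 7) (.e (nat_lit 409649) (nat_lit 18) (.e (nat_lit 303118) (nat_lit 3) (.e (nat_lit 204865) (nat_lit 28) (.e (nat_lit 352280) (nat_lit 20) .nil)))))) (.g (nat_lit 4) .nil .nil))))))) (.nd (nat_lit 2) (.nd (nat_lit 3) (.nd (nat_lit 4) (.nd (nat_lit 5) 
(.lf (nat_lit 74691) (.g (nat_lit 3706) (.e (nat_lit 1788) (nat_lit 119) (.e (nat_lit 516139) (nat_lit 7) (.e (nat_lit 409648) (nat_lit 18) (.e (nat_lit 303118) (nat_lit 3) (.e (nat_lit 204867) (nat_lit 28) (.e (nat_lit 352292) (nat_lit 20) .nil)))))) (.g (nat_lit 5) .nil .nil))) 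
(.lf (nat_lit 74723) (.g (nat_lit 4948) (.e (nat_lit 1788) (nat_lit 119) (.e (nat_lit 516139) (nat_lit 7) (.e (nat_lit 409649) (nat_lit 18) (.e (nat_lit 303116) (nat_lit 2) (.e (nat_lit 196672) (nat_lit 15) (.e (nat_lit 81941) (nat_lit 20) .nil)))))) (.g (nat_lit 0) .nil .nil)))) (.nd (nat_lit 5) 
(.lf (nat_lit 74707) (.g (nat_lit 3508) (.e (nat_lit 1788) (nat_lit 119) (.e (nat_lit 516139) (nat_lit 7) (.e (nat_lit 409648) (nat_lit 18) (.e (nat_lit 303119) (nat_lit 3) (.e (nat_lit 204867) (nat_lit 28) (.e (nat_lit 352295) (nat_lit 20) .nil)))))) (.g (nat_lit 4) .nil .nil))) 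
(.lf (nat_lit 74739) (.g (nat_lit 5446) (.e (nat_lit 1788) (nat_lit 119) (.e (nat_lit 516139) (nat_lit 7) (.e (nat_lit 409649) (nat_lit 18) (.e (nat_lit 303117) (nat_lit 2) (.e (nat_lit 196672) (nat_lit 15) (.e (nat_lit 81943) (nat_lit 20) .nil)))))) (.g (nat_lit 0) .nil .nil))))) (.nd (nat_lit 4) (.nd (nat_lit 5) 
(.lf (nat_lit 74699) (.g (nat_lit 2542) (.e (nat_lit 1788) (nat_lit 119) (.e (nat_lit 516139) (nat_lit 7) (.e (nat_lit 409648) (nat_lit 18) (.e (nat_lit 303119) (nat_lit 3) (.e (nat_lit 204865) (nat_lit 28) (.e (nat_lit 352280) (nat_lit 20) .nil)))))) (.g (nat_lit 4) .nil .nil))) 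
(.lf (nat_lit 74731) (.g (nat_lit 2780) (.e (nat_lit 1788) (nat_lit 119) (.e (nat_lit 516139) (nat_lit 7) (.e (nat_lit 409649) (nat_lit 18) (.e (nat_lit 303117) (nat_lit 2) (.e (nat_lit 196630) (nat_lit 9) .nil))))) .nil))) (.nd (nat_lit 5) 
(.lf (nat_lit 74715) (.g (nat_lit 2744) (.e (nat_lit 1788) (nat_lit 119) (.e (nat_lit 516139) (nat_lit 7) (.e (nat_lit 409649) (nat_lit 18) (.e (nat_lit 303111) (nat_lit 0) (.e (nat_lit 3255) (nat_lit 197) (.e (nat_lit 532548) (nat_lit 11) (.e (nat_lit 352292) (nat_lit 20) .nil))))))) (.g (nat_lit 4) .nil .nil))) 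
(.lf (nat_lit 74747) (.g (nat_lit 4872) (.e (nat_lit 1788) (nat_lit 119) (.e (nat_lit 516139) (nat_lit 7) (.e (nat_lit 409649) (nat_lit 18) (.e (nat_lit 303117) (nat_lit 2) (.e (nat_lit 196674) (nat_lit 15) (.e (nat_lit 81947) (nat_lit 20) .nil)))))) (.g (nat_lit 5) .nil .nil)))))) (.nd (nat_lit 3) (.nd (nat_lit 4) (.nd (nat_lit 5) 
(.lf (nat_lit 74695) (.g (nat_lit 3833) (.e (nat_lit 1788) (nat_lit 119) (.e (nat_lit 516139) (nat_lit 7) (.e (nat_lit 409648) (nat_lit 18) (.e (nat_lit 303118) (nat_lit 3) (.e (nat_lit 204877) (nat_lit 31) (.e (nat_lit 376843) (nat_lit 20) .nil)))))) (.g (nat_lit 6) .nil .nil))) 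
(.lf (nat_lit 74727) (.g (nat_lit 2977) (.e (nat_lit 1788) (nat_lit 119) (.e (nat_lit 516139) (nat_lit 7) (.e (nat_lit 409649) (nat_lit 18) (.e (nat_lit 303116) (nat_lit 2) (.e (nat_lit 196673) (nat_lit 15) (.e (nat_lit 81941) (nat_lit 20) .nil)))))) (.g (nat_lit 4) .nil .nil)))) (.nd (nat_lit 5) 
(.lf (nat_lit 74711) (.g (nat_lit 2308) (.e (nat_lit 1788) (nat_lit 119) (.e (nat_lit 516139) (nat_lit 7) (.e (nat_lit 409649) (nat_lit 18) (.e (nat_lit 303111) (nat_lit 0) (.e (nat_lit 3238) (nat_lit 197) (.e (nat_lit 532546) (nat_lit 11) (.e (nat_lit 352292) (nat_lit 20) .nil))))))) (.g (nat_lit 4) .nil .nil))) 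
(.lf (nat_lit 74743) (.g (nat_lit 3588) (.e (nat_lit 1788) (nat_lit 119) (.e (nat_lit 516139) (nat_lit 7) (.e (nat_lit 409649) (nat_lit 18) (.e (nat_lit 303117) (nat_lit 2) (.e (nat_lit 196673) (nat_lit 15) (.e (nat_lit 81939) (nat_lit 20) .nil)))))) (.g (nat_lit 4) .nil .nil))))) (.nd (nat_lit 4) (.nd (nat_lit 5) 
(.lf (nat_lit 74703) (.g (nat_lit 4416) (.e (nat_lit 1788) (nat_lit 119) (.e (nat_lit 516139) (nat_lit 7) (.e (nat_lit 409648) (nat_lit 18) (.e (nat_lit 303119) (nat_lit 3) (.e (nat_lit 204866) (nat_lit 28) (.e (nat_lit 352292) (nat_lit 20) .nil)))))) (.g (nat_lit 5) .nil .nil))) 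
(.lf (nat_lit 74735) (.g (nat_lit 5069) (.e (nat_lit 1788) (nat_lit 119) (.e (nat_lit 516139) (nat_lit 7) (.e (nat_lit 409649) (nat_lit 18) (.e (nat_lit 303117) (nat_lit 2) (.e (nat_lit 196672) (nat_lit 15) (.e (nat_lit 81928) (nat_lit 20) .nil)))))) (.g (nat_lit 0) .nil .nil)))) (.nd (nat_lit 5) 
(.lf (nat_lit 74719) (.g (nat_lit 1464) (.e (nat_lit 1788) (nat_lit 119) (.e (nat_lit 516139) (nat_lit 7) (.e (nat_lit 409649) (nat_lit 18) (.e (nat_lit 303116) (nat_lit 2) .nil)))) .nil)) 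
(.lf (nat_lit 74751) (.g (nat_lit 3945) (.e (nat_lit 1788) (nat_lit 119) (.e (nat_lit 516139) (nat_lit 7) (.e (nat_lit 409649) (nat_lit 18) (.e (nat_lit 303118) (nat_lit 3) (.e (nat_lit 204865) (nat_lit 28) (.e (nat_lit 352292) (nat_lit 20) .nil)))))) (.g (nat_lit 5) .nil .nil)))))))))

noncomputable def tv1011 : DT := (.nd (nat_lit 0) (.nd (nat_lit 1) (.nd (nat_lit 2) (.nd (nat_lit 3) (.nd (nat_lit 4) (.nd (nat_lit 5) 
(.lf (nat_lit 74752) (.g (nat_lit 4390) (.e (nat_lit 1788) (nat_lit 119) (.e (nat_lit 516139) (nat_lit 7) (.e (nat_lit 409649) (nat_lit 18) (.e (nat_lit 303118) (nat_lit 3) (.e (nat_lit 204865) (nat_lit 28) (.e (nat_lit 352294) (nat_lit 20) .nil)))))) (.g (nat_lit 0) .nil .nil))) 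
(.lf (nat_lit 74784) (.g (nat_lit 2026) (.e (nat_lit 1788) (nat_lit 119) (.e (nat_lit 516139) (nat_lit 7) (.e (nat_lit 417536) (nat_lit 18) (.e (nat_lit 303112) (nat_lit 0) (.e (nat_lit 3252) (nat_lit 197) (.e (nat_lit 532548) (nat_lit 11) (.e (nat_lit 352294) (nat_lit 20) .nil))))))) (.g (nat_lit 5) .nil .nil)))) (.nd (nat_lit 5) 
(.lf (nat_lit 74768) (.g (nat_lit 3790) (.e (nat_lit 1788) (nat_lit 119) (.e (nat_lit 516139) (nat_lit 7) (.e (nat_lit 409649) (nat_lit 18) (.e (nat_lit 303119) (nat_lit 3) (.e (nat_lit 204865) (nat_lit 28) (.e (nat_lit 352295) (nat_lit 20) .nil)))))) (.g (nat_lit 5) .nil .nil))) 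
(.lf (nat_lit 74800) (.g (nat_lit 2208) (.e (nat_lit 1788) (nat_lit 119) (.e (nat_lit 516145) (nat_lit 9) (.e (nat_lit 426437) (nat_lit 18) (.e (nat_lit 98384) (nat_lit 32) (.e (nat_lit 475177) (nat_lit 24) (.e (nat_lit 516148) (nat_lit 9) (.e (nat_lit 426402) (nat_lit 15) .nil))))))) (.g (nat_lit 5) .nil .nil))))) (.nd (nat_lit 4) (.nd (nat_lit 5) 
(.lf (nat_lit 74760) (.g (nat_lit 1424) (.e (nat_lit 1788) (nat_lit 119) (.e (nat_lit 516139) (nat_lit 7) (.e (nat_lit 409649) (nat_lit 18) (.e (nat_lit 303119) (nat_lit 3) .nil)))) .nil)) 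
(.lf (nat_lit 74792) (.g (nat_lit 2048) (.e (nat_lit 1788) (nat_lit 119) (.e (nat_lit 516145) (nat_lit 9) (.e (nat_lit 426434) (nat_lit 18) (.e (nat_lit 98384) (nat_lit 32) (.e (nat_lit 475177) (nat_lit 24) (.e (nat_lit 516148) (nat_lit 9) (.e (nat_lit 426402) (nat_lit 15) .nil))))))) (.g (nat_lit 4) .nil .nil)))) (.nd (nat_lit 5) 
(.lf (nat_lit 74776) (.g (nat_lit 2832) (.e (nat_lit 1788) (nat_lit 119) (.e (nat_lit 516139) (nat_lit 7) (.e (nat_lit 409649) (nat_lit 18) (.e (nat_lit 303119) (nat_lit 3) (.e (nat_lit 204867) (nat_lit 28) (.e (nat_lit 352291) (nat_lit 20) .nil)))))) (.g (nat_lit 4) .nil .nil))) 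
(.lf (nat_lit 74808) (.g (nat_lit 1755) (.e (nat_lit 1788) (nat_lit 119) (.e (nat_lit 516145) (nat_lit 9) (.e (nat_lit 426448) (nat_lit 20) (.e (nat_lit 114718) (nat_lit 23) .nil)))) .nil))))) (.nd (nat_lit 3) (.nd (nat_lit 4) (.nd (nat_lit 5) 
(.lf (nat_lit 74756) (.g (nat_lit 3788) (.e (nat_lit 1788) (nat_lit 119) (.e (nat_lit 516139) (nat_lit 7) (.e (nat_lit 409649) (nat_lit 18) (.e (nat_lit 303118) (nat_lit 3) (.e (nat_lit 204867) (nat_lit 28) (.e (nat_lit 352295) (nat_lit 20) .nil)))))) (.g (nat_lit 5) .nil .nil))) 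
(.lf (nat_lit 74788) (.g (nat_lit 2340) (.e (nat_lit 1788) (nat_lit 119) (.e (nat_lit 516144) (nat_lit 9) (.e (nat_lit 426436) (nat_lit 18) (.e (nat_lit 98358) (nat_lit 26) (.e (nat_lit 426436) (nat_lit 18) (.e (nat_lit 98358) (nat_lit 26) (.e (nat_lit 426402) (nat_lit 15) .nil))))))) (.g (nat_lit 4) .nil .nil)))) (.nd (nat_lit 5) 
(.lf (nat_lit 74772) (.g (nat_lit 4350) (.e (nat_lit 1788) (nat_lit 119) (.e (nat_lit 516139) (nat_lit 7) (.e (nat_lit 409649) (nat_lit 18) (.e (nat_lit 303119) (nat_lit 3) (.e (nat_lit 204866) (nat_lit 28) (.e (nat_lit 352301) (nat_lit 20) .nil)))))) (.g (nat_lit 5) .nil .nil))) 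
(.lf (nat_lit 74804) (.g (nat_lit 4481) (.e (nat_lit 1788) (nat_lit 119) (.e (nat_lit 516145) (nat_lit 9) (.e (nat_lit 426438) (nat_lit 18) (.e (nat_lit 98358) (nat_lit 26) (.e (nat_lit 426436) (nat_lit 18) (.e (nat_lit 98358) (nat_lit 26) (.e (nat_lit 426402) (nat_lit 15) .nil))))))) (.g (nat_lit 7) .nil .nil))))) (.nd (nat_lit 4) (.nd (nat_lit 5) 
(.lf (nat_lit 74764) (.g (nat_lit 2961) (.e (nat_lit 1788) (nat_lit 119) (.e (nat_lit 516139) (nat_lit 7) (.e (nat_lit 409649) (nat_lit 18) (.e (nat_lit 303119) (nat_lit 3) (.e (nat_lit 204865) (nat_lit 28) (.e (nat_lit 352280) (nat_lit 20) .nil)))))) (.g (nat_lit 4) .nil .nil))) 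
(.lf (nat_lit 74796) (.g (nat_lit 2822) (.e (nat_lit 1788) (nat_lit 119) (.e (nat_lit 516145) (nat_lit 9) (.e (nat_lit 426436) (nat_lit 18) (.e (nat_lit 98385) (nat_lit 32) (.e (nat_lit 475177) (nat_lit 24) (.e (nat_lit 516148) (nat_lit 9) (.e (nat_lit 426402) (nat_lit 15) .nil))))))) (.g (nat_lit 6) .nil .nil)))) (.nd (nat_lit 5) 
(.lf (nat_lit 74780) (.g (nat_lit 3508) (.e (nat_lit 1788) (nat_lit 119) (.e (nat_lit 516139) (nat_lit 7) (.e (nat_lit 409649) (nat_lit 18) (.e (nat_lit 303119) (nat_lit 3) (.e (nat_lit 204877) (nat_lit 31) (.e (nat_lit 376843) (nat_lit 20) .nil)))))) (.g (nat_lit 5) .nil .nil))) 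
(.lf (nat_lit 74812) (.g (nat_lit 2714) (.e (nat_lit 1788) (nat_lit 119) (.e (nat_lit 516146) (nat_lit 9) (.e (nat_lit 426436) (nat_lit 18) (.e (nat_lit 98358) (nat_lit 26) (.e (nat_lit 426438) (nat_lit 18) (.e (nat_lit 98358) (nat_lit 26) (.e (nat_lit 426402) (nat_lit 15) .nil))))))) (.g (nat_lit 5) .nil .nil))))))) (.nd (nat_lit 2) (.nd (nat_lit 3) (.nd (nat_lit 4) (.nd (nat_lit 5) 
(.lf (nat_lit 74754) (.g (nat_lit 2809) (.e (nat_lit 1788) (nat_lit 119) (.e (nat_lit 516139) (nat_lit 7) (.e (nat_lit 409649) (nat_lit 18) (.e (nat_lit 303118) (nat_lit 3) (.e (nat_lit 204867) (nat_lit 28) .nil))))) .nil)) 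
(.lf (nat_lit 74786) (.g (nat_lit 2829) (.e (nat_lit 1788) (nat_lit 119) (.e (nat_lit 516139) (nat_lit 7) (.e (nat_lit 417536) (nat_lit 18) (.e (nat_lit 303117) (nat_lit 2) (.e (nat_lit 196630) (nat_lit 9) (.e (nat_lit 1573) (nat_lit 110) (.e (nat_lit 352294) (nat_lit 20) .nil))))))) (.g (nat_lit 5) .nil .nil)))) (.nd (nat_lit 5) 
(.lf (nat_lit 74770) (.g (nat_lit 5090) (.e (nat_lit 1788) (nat_lit 119) (.e (nat_lit 516139) (nat_lit 7) (.e (nat_lit 409649) (nat_lit 18) (.e (nat_lit 303119) (nat_lit 3) (.e (nat_lit 204866) (nat_lit 28) (.e (nat_lit 352292) (nat_lit 20) .nil)))))) (.g (nat_lit 6) .nil .nil))) 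
(.lf (nat_lit 74802) (.g (nat_lit 4429) (.e (nat_lit 1788) (nat_lit 119) (.e (nat_lit 516145) (nat_lit 9) (.e (nat_lit 426438) (nat_lit 18) (.e (nat_lit 98356) (nat_lit 26) (.e (nat_lit 426436) (nat_lit 18) (.e (nat_lit 98358) (nat_lit 26) (.e (nat_lit 426402) (nat_lit 15) .nil))))))) (.g (nat_lit 0) .nil .nil))))) (.nd (nat_lit 4) (.nd (nat_lit 5) 
(.lf (nat_lit 74762) (.g (nat_lit 3814) (.e (nat_lit 1788) (nat_lit 119) (.e (nat_lit 516139) (nat_lit 7) (.e (nat_lit 409649) (nat_lit 18) (.e (nat_lit 303119) (nat_lit 3) (.e (nat_lit 204855) (nat_lit 26) (.e (nat_lit 336097) (nat_lit 9) (.e (nat_lit 335923) (nat_lit 0) .nil))))))) (.g (nat_lit 5) .nil .nil))) 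
(.lf (nat_lit 74794) (.g (nat_lit 3816) (.e (nat_lit 1788) (nat_lit 119) (.e (nat_lit 516145) (nat_lit 9) (.e (nat_lit 426436) (nat_lit 18) (.e (nat_lit 98356) (nat_lit 26) (.e (nat_lit 426438) (nat_lit 18) (.e (nat_lit 98358) (nat_lit 26) (.e (nat_lit 426402) (nat_lit 15) .nil))))))) (.g (nat_lit 0) .nil .nil)))) (.nd (nat_lit 5) 
(.lf (nat_lit 74778) (.g (nat_lit 4026) (.e (nat_lit 1788) (nat_lit 119) (.e (nat_lit 516139) (nat_lit 7) (.e (nat_lit 409649) (nat_lit 18) (.e (nat_lit 303119) (nat_lit 3) (.e (nat_lit 204867) (nat_lit 28) (.e (nat_lit 352295) (nat_lit 20) .nil)))))) (.g (nat_lit 6) .nil .nil))) 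
(.lf (nat_lit 74810) (.g (nat_lit 2511) (.e (nat_lit 1788) (nat_lit 119) (.e (nat_lit 516146) (nat_lit 9) (.e (nat_lit 426436) (nat_lit 18) (.e (nat_lit 98356) (nat_lit 26) (.e (nat_lit 426438) (nat_lit 18) (.e (nat_lit 98358) (nat_lit 26) (.e (nat_lit 426402) (nat_lit 15) .nil))))))) (.g (nat_lit 5) .nil .nil)))))) (.nd (nat_lit 3) (.nd (nat_lit 4) (.nd (nat_lit 5) 
(.lf (nat_lit 74758) (.g (nat_lit 4027) (.e (nat_lit 1788) (nat_lit 119) (.e (nat_lit 516139) (nat_lit 7) (.e (nat_lit 409649) (nat_lit 18) (.e (nat_lit 303118) (nat_lit 3) (.e (nat_lit 204877) (nat_lit 31) (.e (nat_lit 376843) (nat_lit 20) .nil)))))) (.g (nat_lit 0) .nil .nil))) 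
(.lf (nat_lit 74790) (.g (nat_lit 2751) (.e (nat_lit 1788) (nat_lit 119) (.e (nat_lit 516145) (nat_lit 9) (.e (nat_lit 426434) (nat_lit 18) (.e (nat_lit 98356) (nat_lit 26) (.e (nat_lit 426436) (nat_lit 18) (.e (nat_lit 98358) (nat_lit 26) (.e (nat_lit 426402) (nat_lit 15) .nil))))))) (.g (nat_lit 5) .nil .nil)))) (.nd (nat_lit 5) 
(.lf (nat_lit 74774) (.g (nat_lit 3240) (.e (nat_lit 1788) (nat_lit 119) (.e (nat_lit 516139) (nat_lit 7) (.e (nat_lit 409649) (nat_lit 18) (.e (nat_lit 303119) (nat_lit 3) (.e (nat_lit 204866) (nat_lit 28) (.e (nat_lit 352303) (nat_lit 20) .nil)))))) (.g (nat_lit 4) .nil .nil))) 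
(.lf (nat_lit 74806) (.g (nat_lit 3796) (.e (nat_lit 1788) (nat_lit 119) (.e (nat_lit 516145) (nat_lit 9) (.e (nat_lit 426438) (nat_lit 18) (.e (nat_lit 98384) (nat_lit 32) (.e (nat_lit 475177) (nat_lit 24) (.e (nat_lit 516148) (nat_lit 9) (.e (nat_lit 426402) (nat_lit 15) .nil))))))) (.g (nat_lit 0) .nil .nil))))) (.nd (nat_lit 4) (.nd (nat_lit 5) 
(.lf (nat_lit 74766) (.g (nat_lit 4297) (.e (nat_lit 1788) (nat_lit 119) (.e (nat_lit 516139) (nat_lit 7) (.e (nat_lit 409649) (nat_lit 18) (.e (nat_lit 303119) (nat_lit 3) (.e (nat_lit 204865) (nat_lit 28) (.e (nat_lit 352292) (nat_lit 20) .nil)))))) (.g (nat_lit 5) .nil .nil))) 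
(.lf (nat_lit 74798) (.g (nat_lit 3243) (.e (nat_lit 1788) (nat_lit 119) (.e (nat_lit 516145) (nat_lit 9) (.e (nat_lit 426437) (nat_lit 18) (.e (nat_lit 98356) (nat_lit 26) (.e (nat_lit 426436) (nat_lit 18) (.e (nat_lit 98358) (nat_lit 26) (.e (nat_lit 426402) (nat_lit 15) .nil))))))) (.g (nat_lit 6) .nil .nil)))) (.nd (nat_lit 5) 
(.lf (nat_lit 74782) (.g (nat_lit 2833) (.e (nat_lit 1788) (nat_lit 119) (.e (nat_lit 516139) (nat_lit 7) (.e (nat_lit 409649) (nat_lit 18) (.e (nat_lit 303121) (nat_lit 5) (.e (nat_lit 245792) (nat_lit 15) (.e (nat_lit 81941) (nat_lit 20) .nil)))))) (.g (nat_lit 4) .nil .nil))) 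
(.lf (nat_lit 74814) (.g (nat_lit 2129) (.e (nat_lit 1788) (nat_lit 119) (.e (nat_lit 516146) (nat_lit 9) (.e (nat_lit 426436) (nat_lit 18) (.e (nat_lit 98386) (nat_lit 32) (.e (nat_lit 475177) (nat_lit 24) (.e (nat_lit 516148) (nat_lit 9) (.e (nat_lit 426402) (nat_lit 15) .nil))))))) (.g (nat_lit 4) .nil .nil)))))))) 
(.nd (nat_lit 1) (.nd (nat_lit 2) (.nd (nat_lit 3) (.nd (nat_lit 4) (.nd (nat_lit 5) 
(.lf (nat_lit 74753) (.g (nat_lit 3438) (.e (nat_lit 1788) (nat_lit 119) (.e (nat_lit 516139) (nat_lit 7) (.e (nat_lit 409649) (nat_lit 18) (.e (nat_lit 303118) (nat_lit 3) (.e (nat_lit 204865) (nat_lit 28) (.e (nat_lit 352295) (nat_lit 20) .nil)))))) (.g (nat_lit 4) .nil .nil))) 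
(.lf (nat_lit 74785) (.g (nat_lit 2040) (.e (nat_lit 1788) (nat_lit 119) (.e (nat_lit 516139) (nat_lit 7) (.e (nat_lit 417536) (nat_lit 18) (.e (nat_lit 303112) (nat_lit 0) (.e (nat_lit 3252) (nat_lit 197) (.e (nat_lit 532561) (nat_lit 14) (.e (nat_lit 376843) (nat_lit 20) .nil))))))) (.g (nat_lit 5) .nil .nil)))) (.nd (nat_lit 5) 
(.lf (nat_lit 74769) (.g (nat_lit 2401) (.e (nat_lit 1788) (nat_lit 119) (.e (nat_lit 516139) (nat_lit 7) (.e (nat_lit 409649) (nat_lit 18) (.e (nat_lit 303119) (nat_lit 3) (.e (nat_lit 204866) (nat_lit 28) .nil))))) .nil)) 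
(.lf (nat_lit 74801) (.g (nat_lit 3932) (.e (nat_lit 1788) (nat_lit 119) (.e (nat_lit 516145) (nat_lit 9) (.e (nat_lit 426438) (nat_lit 18) (.e (nat_lit 98355) (nat_lit 26) (.e (nat_lit 426436) (nat_lit 18) (.e (nat_lit 98358) (nat_lit 26) (.e (nat_lit 426402) (nat_lit 15) .nil))))))) (.g (nat_lit 6) .nil .nil))))) (.nd (nat_lit 4) (.nd (nat_lit 5) 
(.lf (nat_lit 74761) (.g (nat_lit 2846) (.e (nat_lit 1788) (nat_lit 119) (.e (nat_lit 516139) (nat_lit 7) (.e (nat_lit 409649) (nat_lit 18) (.e (nat_lit 303119) (nat_lit 3) (.e (nat_lit 204855) (nat_lit 26) (.e (nat_lit 336097) (nat_lit 9) (.e (nat_lit 335886) (nat_lit 0) .nil))))))) (.g (nat_lit 4) .nil .nil))) 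
(.lf (nat_lit 74793) (.g (nat_lit 3738) (.e (nat_lit 1788) (nat_lit 119) (.e (nat_lit 516145) (nat_lit 9) (.e (nat_lit 426436) (nat_lit 18) (.e (nat_lit 98356) (nat_lit 26) (.e (nat_lit 426436) (nat_lit 18) (.e (nat_lit 98358) (nat_lit 26) (.e (nat_lit 426402) (nat_lit 15) .nil))))))) (.g (nat_lit 7) .nil .nil)))) (.nd (nat_lit 5) 
(.lf (nat_lit 74777) (.g (nat_lit 4304) (.e (nat_lit 1788) (nat_lit 119) (.e (nat_lit 516139) (nat_lit 7) (.e (nat_lit 409649) (nat_lit 18) (.e (nat_lit 303119) (nat_lit 3) (.e (nat_lit 204867) (nat_lit 28) (.e (nat_lit 352294) (nat_lit 20) .nil)))))) (.g (nat_lit 0) .nil .nil))) 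
(.lf (nat_lit 74809) (.g (nat_lit 2477) (.e (nat_lit 1788) (nat_lit 119) (.e (nat_lit 516146) (nat_lit 9) (.e (nat_lit 426436) (nat_lit 18) (.e (nat_lit 98356) (nat_lit 26) (.e (nat_lit 426436) (nat_lit 18) (.e (nat_lit 98358) (nat_lit 26) (.e (nat_lit 426402) (nat_lit 15) .nil))))))) (.g (nat_lit 5) .nil .nil)))))) (.nd (nat_lit 3) (.nd (nat_lit 4) (.nd (nat_lit 5) 
(.lf (nat_lit 74757) (.g (nat_lit 3770) (.e (nat_lit 1788) (nat_lit 119) (.e (nat_lit 516139) (nat_lit 7) (.e (nat_lit 409649) (nat_lit 18) (.e (nat_lit 303118) (nat_lit 3) (.e (nat_lit 204876) (nat_lit 31) (.e (nat_lit 376843) (nat_lit 20) .nil)))))) (.g (nat_lit 5) .nil .nil))) 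
(.lf (nat_lit 74789) (.g (nat_lit 2086) (.e (nat_lit 1788) (nat_lit 119) (.e (nat_lit 516144) (nat_lit 9) (.e (nat_lit 426436) (nat_lit 18) (.e (nat_lit 98358) (nat_lit 26) (.e (nat_lit 426438) (nat_lit 18) (.e (nat_lit 98358) (nat_lit 26) (.e (nat_lit 426402) (nat_lit 15) .nil))))))) (.g (nat_lit 4) .nil .nil)))) (.nd (nat_lit 5) 
(.lf (nat_lit 74773) (.g (nat_lit 4219) (.e (nat_lit 1788) (nat_lit 119) (.e (nat_lit 516139) (nat_lit 7) (.e (nat_lit 409649) (nat_lit 18) (.e (nat_lit 303119) (nat_lit 3) (.e (nat_lit 204866) (nat_lit 28) (.e (nat_lit 352302) (nat_lit 20) .nil)))))) (.g (nat_lit 5) .nil .nil))) 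
(.lf (nat_lit 74805) (.g (nat_lit 4208) (.e (nat_lit 1788) (nat_lit 119) (.e (nat_lit 516145) (nat_lit 9) (.e (nat_lit 426438) (nat_lit 18) (.e (nat_lit 98358) (nat_lit 26) (.e (nat_lit 426438) (nat_lit 18) (.e (nat_lit 98358) (nat_lit 26) (.e (nat_lit 426402) (nat_lit 15) .nil))))))) (.g (nat_lit 7) .nil .nil))))) (.nd (nat_lit 4) (.nd (nat_lit 5) 
(.lf (nat_lit 74765) (.g (nat_lit 3431) (.e (nat_lit 1788) (nat_lit 119) (.e (nat_lit 516139) (nat_lit 7) (.e (nat_lit 409649) (nat_lit 18) (.e (nat_lit 303119) (nat_lit 3) (.e (nat_lit 204865) (nat_lit 28) (.e (nat_lit 352291) (nat_lit 20) .nil)))))) (.g (nat_lit 4) .nil .nil))) 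
(.lf (nat_lit 74797) (.g (nat_lit 3702) (.e (nat_lit 1788) (nat_lit 119) (.e (nat_lit 516145) (nat_lit 9) (.e (nat_lit 426436) (nat_lit 18) (.e (nat_lit 98386) (nat_lit 32) (.e (nat_lit 475177) (nat_lit 24) (.e (nat_lit 516148) (nat_lit 9) (.e (nat_lit 426402) (nat_lit 15) .nil))))))) (.g (nat_lit 7) .nil .nil)))) (.nd (nat_lit 5) 
(.lf (nat_lit 74781) (.g (nat_lit 2171) (.e (nat_lit 1788) (nat_lit 119) (.e (nat_lit 516139) (nat_lit 7) (.e (nat_lit 409649) (nat_lit 18) (.e (nat_lit 303119) (nat_lit 3) (.e (nat_lit 204878) (nat_lit 31) .nil))))) .nil)) 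
(.lf (nat_lit 74813) (.g (nat_lit 1909) (.e (nat_lit 1788) (nat_lit 119) (.e (nat_lit 516146) (nat_lit 9) (.e (nat_lit 426436) (nat_lit 18) (.e (nat_lit 98384) (nat_lit 32) (.e (nat_lit 475177) (nat_lit 24) (.e (nat_lit 516148) (nat_lit 9) (.e (nat_lit 426402) (nat_lit 15) .nil))))))) (.g (nat_lit 4) .nil .nil))))))) (.nd (nat_lit 2) (.nd (nat_lit 3) (.nd (nat_lit 4) (.nd (nat_lit 5) 
(.lf (nat_lit 74755) (.g (nat_lit 3931) (.e (nat_lit 1788) (nat_lit 119) (.e (nat_lit 516139) (nat_lit 7) (.e (nat_lit 409649) (nat_lit 18) (.e (nat_lit 303118) (nat_lit 3) (.e (nat_lit 204867) (nat_lit 28) (.e (nat_lit 352292) (nat_lit 20) .nil)))))) (.g (nat_lit 5) .nil .nil))) 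
(.lf (nat_lit 74787) (.g (nat_lit 1870) (.e (nat_lit 1788) (nat_lit 119) (.e (nat_lit 516144) (nat_lit 9) (.e (nat_lit 426436) (nat_lit 18) (.e (nat_lit 98356) (nat_lit 26) (.e (nat_lit 426438) (nat_lit 18) (.e (nat_lit 98358) (nat_lit 26) (.e (nat_lit 426402) (nat_lit 15) .nil))))))) (.g (nat_lit 4) .nil .nil)))) (.nd (nat_lit 5) 
(.lf (nat_lit 74771) (.g (nat_lit 3151) (.e (nat_lit 1788) (nat_lit 119) (.e (nat_lit 516139) (nat_lit 7) (.e (nat_lit 409649) (nat_lit 18) (.e (nat_lit 303119) (nat_lit 3) (.e (nat_lit 204866) (nat_lit 28) (.e (nat_lit 352295) (nat_lit 20) .nil)))))) (.g (nat_lit 4) .nil .nil))) 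
(.lf (nat_lit 74803) (.g (nat_lit 4425) (.e (nat_lit 1788) (nat_lit 119) (.e (nat_lit 516145) (nat_lit 9) (.e (nat_lit 426438) (nat_lit 18) (.e (nat_lit 98356) (nat_lit 26) (.e (nat_lit 426438) (nat_lit 18) (.e (nat_lit 98358) (nat_lit 26) (.e (nat_lit 426402) (nat_lit 15) .nil))))))) (.g (nat_lit 0) .nil .nil))))) (.nd (nat_lit 4) (.nd (nat_lit 5) 
(.lf (nat_lit 74763) (.g (nat_lit 2704) (.e (nat_lit 1788) (nat_lit 119) (.e (nat_lit 516139) (nat_lit 7) (.e (nat_lit 409649) (nat_lit 18) (.e (nat_lit 303119) (nat_lit 3) (.e (nat_lit 204865) (nat_lit 28) .nil))))) .nil)) 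
(.lf (nat_lit 74795) (.g (nat_lit 4441) (.e (nat_lit 1788) (nat_lit 119) (.e (nat_lit 516145) (nat_lit 9) (.e (nat_lit 426436) (nat_lit 18) (.e (nat_lit 98358) (nat_lit 26) (.e (nat_lit 426436) (nat_lit 18) (.e (nat_lit 98358) (nat_lit 26) (.e (nat_lit 426402) (nat_lit 15) .nil))))))) (.g (nat_lit 7) .nil .nil)))) (.nd (nat_lit 5) 
(.lf (nat_lit 74779) (.g (nat_lit 3053) (.e (nat_lit 1788) (nat_lit 119) (.e (nat_lit 516139) (nat_lit 7) (.e (nat_lit 409649) (nat_lit 18) (.e (nat_lit 303119) (nat_lit 3) (.e (nat_lit 204876) (nat_lit 31) (.e (nat_lit 376843) (nat_lit 20) .nil)))))) (.g (nat_lit 4) .nil .nil))) 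
(.lf (nat_lit 74811) (.g (nat_lit 2991) (.e (nat_lit 1788) (nat_lit 119) (.e (nat_lit 516146) (nat_lit 9) (.e (nat_lit 426436) (nat_lit 18) (.e (nat_lit 98358) (nat_lit 26) (.e (nat_lit 426436) (nat_lit 18) (.e (nat_lit 98358) (nat_lit 26) (.e (nat_lit 426402) (nat_lit 15) .nil))))))) (.g (nat_lit 5) .nil .nil)))))) (.nd (nat_lit 3) (.nd (nat_lit 4) (.nd (nat_lit 5) 
(.lf (nat_lit 74759) (.g (nat_lit 2575) (.e (nat_lit 1788) (nat_lit 119) (.e (nat_lit 516139) (nat_lit 7) (.e (nat_lit 409649) (nat_lit 18) (.e (nat_lit 303118) (nat_lit 3) (.e (nat_lit 204878) (nat_lit 31) .nil))))) .nil)) 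
(.lf (nat_lit 74791) (.g (nat_lit 2905) (.e (nat_lit 1788) (nat_lit 119) (.e (nat_lit 516145) (nat_lit 9) (.e (nat_lit 426434) (nat_lit 18) (.e (nat_lit 98356) (nat_lit 26) (.e (nat_lit 426438) (nat_lit 18) (.e (nat_lit 98358) (nat_lit 26) (.e (nat_lit 426402) (nat_lit 15) .nil))))))) (.g (nat_lit 6) .nil .nil)))) (.nd (nat_lit 5) 
(.lf (nat_lit 74775) (.g (nat_lit 2790) (.e (nat_lit 1788) (nat_lit 119) (.e (nat_lit 516139) (nat_lit 7) (.e (nat_lit 409649) (nat_lit 18) (.e (nat_lit 303119) (nat_lit 3) (.e (nat_lit 204867) (nat_lit 28) .nil))))) .nil)) 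
(.lf (nat_lit 74807) (.g (nat_lit 3344) (.e (nat_lit 1788) (nat_lit 119) (.e (nat_lit 516145) (nat_lit 9) (.e (nat_lit 426438) (nat_lit 18) (.e (nat_lit 98386) (nat_lit 32) (.e (nat_lit 475177) (nat_lit 24) (.e (nat_lit 516148) (nat_lit 9) (.e (nat_lit 426402) (nat_lit 15) .nil))))))) (.g (nat_lit 6) .nil .nil))))) (.nd (nat_lit 4) (.nd (nat_lit 5) 
(.lf (nat_lit 74767) (.g (nat_lit 4717) (.e (nat_lit 1788) (nat_lit 119) (.e (nat_lit 516139) (nat_lit 7) (.e (nat_lit 409649) (nat_lit 18) (.e (nat_lit 303119) (nat_lit 3) (.e (nat_lit 204865) (nat_lit 28) (.e (nat_lit 352294) (nat_lit 20) .nil)))))) (.g (nat_lit 0) .nil .nil))) 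
(.lf (nat_lit 74799) (.g (nat_lit 3233) (.e (nat_lit 1788) (nat_lit 119) (.e (nat_lit 516145) (nat_lit 9) (.e (nat_lit 426437) (nat_lit 18) (.e (nat_lit 98356) (nat_lit 26) (.e (nat_lit 426438) (nat_lit 18) (.e (nat_lit 98358) (nat_lit 26) (.e (nat_lit 426402) (nat_lit 15) .nil))))))) (.g (nat_lit 7) .nil .nil)))) (.nd (nat_lit 5) 
(.lf (nat_lit 74783) (.g (nat_lit 620) (.e (nat_lit 1788) (nat_lit 119) (.e (nat_lit 516139) (nat_lit 7) (.e (nat_lit 417536) (nat_lit 18) .nil))) .nil)) 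
(.lf (nat_lit 74815) (.g (nat_lit 1561) (.e (nat_lit 1788) (nat_lit 119) (.e (nat_lit 516146) (nat_lit 9) (.e (nat_lit 426438) (nat_lit 18) (.e (nat_lit 98354) (nat_lit 26) .nil)))) .nil))))))))

noncomputable def tv1012 : DT := (.nd (nat_lit 0) (.nd (nat_lit 1) (.nd (nat_lit 2) (.nd (nat_lit 3) (.nd (nat_lit 4) (.nd (nat_lit 5) 
(.lf (nat_lit 74816) (.g (nat_lit 3050) (.e (nat_lit 1788) (nat_lit 119) (.e (nat_lit 516146) (nat_lit 9) (.e (nat_lit 426438) (nat_lit 18) (.e (nat_lit 98355) (nat_lit 26) (.e (nat_lit 426436) (nat_lit 18) (.e (nat_lit 98358) (nat_lit 26) (.e (nat_lit 426402) (nat_lit 15) .nil))))))) (.g (nat_lit 5) .nil .nil))) 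
(.lf (nat_lit 74848) (.g (nat_lit 6081) (.e (nat_lit 1788) (nat_lit 119) (.e (nat_lit 516151) (nat_lit 9) (.e (nat_lit 426211) (nat_lit 9) (.e (nat_lit 426125) (nat_lit 2) (.e (nat_lit 196617) (nat_lit 9) (.e (nat_lit 1400) (nat_lit 106) (.e (nat_lit 319534) (nat_lit 16) (.e (nat_lit 286728) (nat_lit 0) .nil)))))))) (.g (nat_lit 4) .nil .nil)))) (.nd (nat_lit 5) 
(.lf (nat_lit 74832) (.g (nat_lit 3089) (.e (nat_lit 1788) (nat_lit 119) (.e (nat_lit 516151) (nat_lit 9) (.e (nat_lit 426185) (nat_lit 9) (.e (nat_lit 426131) (nat_lit 3) (.e (nat_lit 204846) (nat_lit 24) (.e (nat_lit 319534) (nat_lit 16) (.e (nat_lit 286728) (nat_lit 0) .nil))))))) (.g (nat_lit 4) .nil .nil))) 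
(.lf (nat_lit 74864) (.g (nat_lit 4523) (.e (nat_lit 1788) (nat_lit 119) (.e (nat_lit 516151) (nat_lit 9) (.e (nat_lit 426211) (nat_lit 9) (.e (nat_lit 426125) (nat_lit 2) (.e (nat_lit 196630) (nat_lit 9) (.e (nat_lit 1401) (nat_lit 106) (.e (nat_lit 319534) (nat_lit 16) (.e (nat_lit 286720) (nat_lit 0) .nil)))))))) (.g (nat_lit 4) .nil .nil))))) (.nd (nat_lit 4) (.nd (nat_lit 5) 
(.lf (nat_lit 74824) (.g (nat_lit 1961) (.e (nat_lit 1788) (nat_lit 119) (.e (nat_lit 516147) (nat_lit 9) (.e (nat_lit 426436) (nat_lit 18) (.e (nat_lit 98385) (nat_lit 32) (.e (nat_lit 475177) (nat_lit 24) (.e (nat_lit 516148) (nat_lit 9) (.e (nat_lit 426402) (nat_lit 15) .nil))))))) (.g (nat_lit 5) .nil .nil))) 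
(.lf (nat_lit 74856) (.g (nat_lit 4938) (.e (nat_lit 1788) (nat_lit 119) (.e (nat_lit 516151) (nat_lit 9) (.e (nat_lit 426211) (nat_lit 9) (.e (nat_lit 426125) (nat_lit 2) (.e (nat_lit 196626) (nat_lit 9) (.e (nat_lit 1400) (nat_lit 106) (.e (nat_lit 319534) (nat_lit 16) (.e (nat_lit 286723) (nat_lit 0) .nil)))))))) (.g (nat_lit 4) .nil .nil)))) (.nd (nat_lit 5) 
(.lf (nat_lit 74840) (.g (nat_lit 5916) (.e (nat_lit 1788) (nat_lit 119) (.e (nat_lit 516151) (nat_lit 9) (.e (nat_lit 426211) (nat_lit 9) (.e (nat_lit 426125) (nat_lit 2) (.e (nat_lit 196615) (nat_lit 0) (.e (nat_lit 59) (nat_lit 0) (.e (nat_lit 2030) (nat_lit 140) (.e (nat_lit 688177) (nat_lit 16) (.e (nat_lit 65550) (nat_lit 0) .nil))))))))) (.g (nat_lit 4) .nil .nil))) 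
(.lf (nat_lit 74872) (.g (nat_lit 6676) (.e (nat_lit 1788) (nat_lit 119) (.e (nat_lit 516151) (nat_lit 9) (.e (nat_lit 426211) (nat_lit 9) (.e (nat_lit 426140) (nat_lit 3) (.e (nat_lit 204845) (nat_lit 24) (.e (nat_lit 319533) (nat_lit 16) (.e (nat_lit 286720) (nat_lit 0) .nil))))))) (.g (nat_lit 0) .nil .nil)))))) (.nd (nat_lit 3) (.nd (nat_lit 4) (.nd (nat_lit 5) 
(.lf (nat_lit 74820) (.g (nat_lit 2860) (.e (nat_lit 1788) (nat_lit 119) (.e (nat_lit 516146) (nat_lit 9) (.e (nat_lit 426438) (nat_lit 18) (.e (nat_lit 98358) (nat_lit 26) (.e (nat_lit 426438) (nat_lit 18) (.e (nat_lit 98358) (nat_lit 26) (.e (nat_lit 426402) (nat_lit 15) .nil))))))) (.g (nat_lit 5) .nil .nil))) 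
(.lf (nat_lit 74852) (.g (nat_lit 4412) (.e (nat_lit 1788) (nat_lit 119) (.e (nat_lit 516151) (nat_lit 9) (.e (nat_lit 426211) (nat_lit 9) (.e (nat_lit 426125) (nat_lit 2) (.e (nat_lit 196626) (nat_lit 9) .nil))))) .nil))) (.nd (nat_lit 5) 
(.lf (nat_lit 74836) (.g (nat_lit 1122) (.e (nat_lit 1788) (nat_lit 119) (.e (nat_lit 516151) (nat_lit 9) (.e (nat_lit 426211) (nat_lit 9) .nil))) .nil)) 
(.lf (nat_lit 74868) (.g (nat_lit 1970) (.e (nat_lit 1788) (nat_lit 119) (.e (nat_lit 516151) (nat_lit 9) (.e (nat_lit 426211) (nat_lit 9) (.e (nat_lit 426140) (nat_lit 3) .nil)))) .nil)))) (.nd (nat_lit 4) (.nd (nat_lit 5) 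
(.lf (nat_lit 74828) (.g (nat_lit 1522) (.e (nat_lit 1788) (nat_lit 119) (.e (nat_lit 516151) (nat_lit 9) (.e (nat_lit 426170) (nat_lit 7) (.e (nat_lit 417536) (nat_lit 10) .nil)))) .nil)) 
(.lf (nat_lit 74860) (.g (nat_lit 4859) (.e (nat_lit 1788) (nat_lit 119) (.e (nat_lit 516151) (nat_lit 9) (.e (nat_lit 426211) (nat_lit 9) (.e (nat_lit 426125) (nat_lit 2) (.e (nat_lit 196630) (nat_lit 9) (.e (nat_lit 1393) (nat_lit 106) (.e (nat_lit 319530) (nat_lit 16) (.e (nat_lit 286720) (nat_lit 0) .nil)))))))) (.g (nat_lit 4) .nil .nil)))) (.nd (nat_lit 5) 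
(.lf (nat_lit 74844) (.g (nat_lit 4876) (.e (nat_lit 1788) (nat_lit 119) (.e (nat_lit 516151) (nat_lit 9) (.e (nat_lit 426211) (nat_lit 9) (.e (nat_lit 426125) (nat_lit 2) (.e (nat_lit 196617) (nat_lit 9) (.e (nat_lit 1399) (nat_lit 106) (.e (nat_lit 319533) (nat_lit 16) (.e (nat_lit 286720) (nat_lit 0) .nil)))))))) (.g (nat_lit 4) .nil .nil))) 
(.lf (nat_lit 74876) (.g (nat_lit 4656) (.e (nat_lit 1788) (nat_lit 119) (.e (nat_lit 516151) (nat_lit 9) (.e (nat_lit 426211) (nat_lit 9) (.e (nat_lit 426140) (nat_lit 3) (.e (nat_lit 204846) (nat_lit 24) (.e (nat_lit 319533) (nat_lit 16) (.e (nat_lit 286720) (nat_lit 0) .nil))))))) (.g (nat_lit 4) .nil .nil))))))) (.nd (nat_lit 2) (.nd (nat_lit 3) (.nd (nat_lit 4) (.nd (nat_lit 5) 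
(.lf (nat_lit 74818) (.g (nat_lit 2901) (.e (nat_lit 1788) (nat_lit 119) (.e (nat_lit 516146) (nat_lit 9) (.e (nat_lit 426438) (nat_lit 18) (.e (nat_lit 98356) (nat_lit 26) (.e (nat_lit 426438) (nat_lit 18) (.e (nat_lit 98358) (nat_lit 26) (.e (nat_lit 426402) (nat_lit 15) .nil))))))) (.g (nat_lit 5) .nil .nil))) 
(.lf (nat_lit 74850) (.g (nat_lit 5737) (.e (nat_lit 1788) (nat_lit 119) (.e (nat_lit 516151) (nat_lit 9) (.e (nat_lit 426211) (nat_lit 9) (.e (nat_lit 426125) (nat_lit 2) (.e (nat_lit 196623) (nat_lit 9) (.e (nat_lit 1400) (nat_lit 106) (.e (nat_lit 319534) (nat_lit 16) (.e (nat_lit 286720) (nat_lit 0) .nil)))))))) (.g (nat_lit 4) .nil .nil)))) (.nd (nat_lit 5) 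
(.lf (nat_lit 74834) (.g (nat_lit 3424) (.e (nat_lit 1788) (nat_lit 119) (.e (nat_lit 516151) (nat_lit 9) (.e (nat_lit 426185) (nat_lit 9) (.e (nat_lit 426140) (nat_lit 3) (.e (nat_lit 204846) (nat_lit 24) (.e (nat_lit 319534) (nat_lit 16) (.e (nat_lit 286720) (nat_lit 0) .nil))))))) (.g (nat_lit 5) .nil .nil))) 
(.lf (nat_lit 74866) (.g (nat_lit 4665) (.e (nat_lit 1788) (nat_lit 119) (.e (nat_lit 516151) (nat_lit 9) (.e (nat_lit 426211) (nat_lit 9) (.e (nat_lit 426125) (nat_lit 2) (.e (nat_lit 196642) (nat_lit 9) (.e (nat_lit 1399) (nat_lit 106) (.e (nat_lit 319533) (nat_lit 16) (.e (nat_lit 286720) (nat_lit 0) .nil)))))))) (.g (nat_lit 4) .nil .nil))))) (.nd (nat_lit 4) (.nd (nat_lit 5) 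
(.lf (nat_lit 74826) (.g (nat_lit 1578) (.e (nat_lit 1788) (nat_lit 119) (.e (nat_lit 516147) (nat_lit 9) (.e (nat_lit 426448) (nat_lit 20) (.e (nat_lit 114719) (nat_lit 23) (.e (nat_lit 106240) (nat_lit 11) (.e (nat_lit 352294) (nat_lit 20) .nil)))))) (.g (nat_lit 4) .nil .nil))) 
(.lf (nat_lit 74858) (.g (nat_lit 5126) (.e (nat_lit 1788) (nat_lit 119) (.e (nat_lit 516151) (nat_lit 9) (.e (nat_lit 426211) (nat_lit 9) (.e (nat_lit 426125) (nat_lit 2) (.e (nat_lit 196627) (nat_lit 9) (.e (nat_lit 1400) (nat_lit 106) (.e (nat_lit 319534) (nat_lit 16) (.e (nat_lit 286720) (nat_lit 0) .nil)))))))) (.g (nat_lit 4) .nil .nil)))) (.nd (nat_lit 5) 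
(.lf (nat_lit 74842) (.g (nat_lit 5837) (.e (nat_lit 1788) (nat_lit 119) (.e (nat_lit 516151) (nat_lit 9) (.e (nat_lit 426211) (nat_lit 9) (.e (nat_lit 426125) (nat_lit 2) (.e (nat_lit 196616) (nat_lit 0) (.e (nat_lit 59) (nat_lit 0) (.e (nat_lit 2030) (nat_lit 140) (.e (nat_lit 688177) (nat_lit 16) (.e (nat_lit 65550) (nat_lit 0) .nil))))))))) (.g (nat_lit 4) .nil .nil))) 
(.lf (nat_lit 74874) (.g (nat_lit 6143) (.e (nat_lit 1788) (nat_lit 119) (.e (nat_lit 516151) (nat_lit 9) (.e (nat_lit 426211) (nat_lit 9) (.e (nat_lit 426140) (nat_lit 3) (.e (nat_lit 204845) (nat_lit 24) (.e (nat_lit 319534) (nat_lit 16) (.e (nat_lit 286720) (nat_lit 0) .nil))))))) (.g (nat_lit 6) .nil .nil)))))) (.nd (nat_lit 3) (.nd (nat_lit 4) (.nd (nat_lit 5) 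
(.lf (nat_lit 74822) (.g (nat_lit 2444) (.e (nat_lit 1788) (nat_lit 119) (.e (nat_lit 516146) (nat_lit 9) (.e (nat_lit 426438) (nat_lit 18) (.e (nat_lit 98386) (nat_lit 32) (.e (nat_lit 475177) (nat_lit 24) (.e (nat_lit 516148) (nat_lit 9) (.e (nat_lit 426402) (nat_lit 15) .nil))))))) (.g (nat_lit 4) .nil .nil))) 
(.lf (nat_lit 74854) (.g (nat_lit 5136) (.e (nat_lit 1788) (nat_lit 119) (.e (nat_lit 516151) (nat_lit 9) (.e (nat_lit 426211) (nat_lit 9) (.e (nat_lit 426125) (nat_lit 2) (.e (nat_lit 196626) (nat_lit 9) (.e (nat_lit 1400) (nat_lit 106) (.e (nat_lit 319533) (nat_lit 16) (.e (nat_lit 286724) (nat_lit 0) .nil)))))))) (.g (nat_lit 4) .nil .nil)))) (.nd (nat_lit 5) 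
(.lf (nat_lit 74838) (.g (nat_lit 1948) (.e (nat_lit 1788) (nat_lit 119) (.e (nat_lit 516151) (nat_lit 9) (.e (nat_lit 426211) (nat_lit 9) (.e (nat_lit 426125) (nat_lit 2) .nil)))) .nil)) 
(.lf (nat_lit 74870) (.g (nat_lit 4580) (.e (nat_lit 1788) (nat_lit 119) (.e (nat_lit 516151) (nat_lit 9) (.e (nat_lit 426211) (nat_lit 9) (.e (nat_lit 426140) (nat_lit 3) (.e (nat_lit 204845) (nat_lit 24) (.e (nat_lit 319530) (nat_lit 16) (.e (nat_lit 286728) (nat_lit 0) .nil))))))) (.g (nat_lit 5) .nil .nil))))) (.nd (nat_lit 4) (.nd (nat_lit 5) 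
(.lf (nat_lit 74830) (.g (nat_lit 3794) (.e (nat_lit 1788) (nat_lit 119) (.e (nat_lit 516151) (nat_lit 9) (.e (nat_lit 426170) (nat_lit 7) (.e (nat_lit 409631) (nat_lit 12) (.e (nat_lit 32807) (nat_lit 18) (.e (nat_lit 172126) (nat_lit 14) (.e (nat_lit 491520) (nat_lit 0) .nil))))))) (.g (nat_lit 4) .nil .nil))) 
(.lf (nat_lit 74862) (.g (nat_lit 4859) (.e (nat_lit 1788) (nat_lit 119) (.e (nat_lit 516151) (nat_lit 9) (.e (nat_lit 426211) (nat_lit 9) (.e (nat_lit 426125) (nat_lit 2) (.e (nat_lit 196630) (nat_lit 9) (.e (nat_lit 1393) (nat_lit 106) (.e (nat_lit 319533) (nat_lit 16) (.e (nat_lit 286720) (nat_lit 0) .nil)))))))) (.g (nat_lit 4) .nil .nil)))) (.nd (nat_lit 5) 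
(.lf (nat_lit 74846) (.g (nat_lit 4466) (.e (nat_lit 1788) (nat_lit 119) (.e (nat_lit 516151) (nat_lit 9) (.e (nat_lit 426211) (nat_lit 9) (.e (nat_lit 426125) (nat_lit 2) (.e (nat_lit 196617) (nat_lit 9) (.e (nat_lit 1400) (nat_lit 106) (.e (nat_lit 319533) (nat_lit 16) (.e (nat_lit 286725) (nat_lit 0) .nil)))))))) (.g (nat_lit 4) .nil .nil))) 
(.lf (nat_lit 74878) (.g (nat_lit 4907) (.e (nat_lit 1788) (nat_lit 119) (.e (nat_lit 516151) (nat_lit 9) (.e (nat_lit 426211) (nat_lit 9) (.e (nat_lit 426140) (nat_lit 3) (.e (nat_lit 204846) (nat_lit 24) (.e (nat_lit 319534) (nat_lit 16) (.e (nat_lit 286720) (nat_lit 0) .nil))))))) (.g (nat_lit 5) .nil .nil)))))))) 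
(.nd (nat_lit 1) (.nd (nat_lit 2) (.nd (nat_lit 3) (.nd (nat_lit 4) (.nd (nat_lit 5) 
(.lf (nat_lit 74817) (.g (nat_lit 2887) (.e (nat_lit 1788) (nat_lit 119) (.e (nat_lit 516146) (nat_lit 9) (.e (nat_lit 426438) (nat_lit 18) (.e (nat_lit 98356) (nat_lit 26) (.e (nat_lit 426436) (nat_lit 18) (.e (nat_lit 98358) (nat_lit 26) (.e (nat_lit 426402) (nat_lit 15) .nil))))))) (.g (nat_lit 5) .nil .nil))) 
(.lf (nat_lit 74849) (.g (nat_lit 5903) (.e (nat_lit 1788) (nat_lit 119) (.e (nat_lit 516151) (nat_lit 9) (.e (nat_lit 426211) (nat_lit 9) (.e (nat_lit 426125) (nat_lit 2) (.e (nat_lit 196623) (nat_lit 9) (.e (nat_lit 1400) (nat_lit 106) (.e (nat_lit 319533) (nat_lit 16) (.e (nat_lit 286720) (nat_lit 0) .nil)))))))) (.g (nat_lit 4) .nil .nil)))) (.nd (nat_lit 5) 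
(.lf (nat_lit 74833) (.g (nat_lit 3660) (.e (nat_lit 1788) (nat_lit 119) (.e (nat_lit 516151) (nat_lit 9) (.e (nat_lit 426185) (nat_lit 9) (.e (nat_lit 426140) (nat_lit 3) (.e (nat_lit 204846) (nat_lit 24) (.e (nat_lit 319533) (nat_lit 16) (.e (nat_lit 286724) (nat_lit 0) .nil))))))) (.g (nat_lit 5) .nil .nil))) 
(.lf (nat_lit 74865) (.g (nat_lit 4433) (.e (nat_lit 1788) (nat_lit 119) (.e (nat_lit 516151) (nat_lit 9) (.e (nat_lit 426211) (nat_lit 9) (.e (nat_lit 426125) (nat_lit 2) (.e (nat_lit 196637) (nat_lit 9) (.e (nat_lit 1399) (nat_lit 106) (.e (nat_lit 319533) (nat_lit 16) (.e (nat_lit 286720) (nat_lit 0) .nil)))))))) (.g (nat_lit 4) .nil .nil))))) (.nd (nat_lit 4) (.nd (nat_lit 5) 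
(.lf (nat_lit 74825) (.g (nat_lit 1606) (.e (nat_lit 1788) (nat_lit 119) (.e (nat_lit 516147) (nat_lit 9) (.e (nat_lit 426448) (nat_lit 20) (.e (nat_lit 114718) (nat_lit 23) (.e (nat_lit 106240) (nat_lit 11) (.e (nat_lit 352294) (nat_lit 20) .nil)))))) (.g (nat_lit 4) .nil .nil))) 
(.lf (nat_lit 74857) (.g (nat_lit 5316) (.e (nat_lit 1788) (nat_lit 119) (.e (nat_lit 516151) (nat_lit 9) (.e (nat_lit 426211) (nat_lit 9) (.e (nat_lit 426125) (nat_lit 2) (.e (nat_lit 196627) (nat_lit 9) (.e (nat_lit 1400) (nat_lit 106) (.e (nat_lit 319533) (nat_lit 16) (.e (nat_lit 286720) (nat_lit 0) .nil)))))))) (.g (nat_lit 4) .nil .nil)))) (.nd (nat_lit 5) 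
(.lf (nat_lit 74841) (.g (nat_lit 4062) (.e (nat_lit 1788) (nat_lit 119) (.e (nat_lit 516151) (nat_lit 9) (.e (nat_lit 426211) (nat_lit 9) (.e (nat_lit 426125) (nat_lit 2) (.e (nat_lit 196616) (nat_lit 0) .nil))))) .nil)) 
(.lf (nat_lit 74873) (.g (nat_lit 4939) (.e (nat_lit 1788) (nat_lit 119) (.e (nat_lit 516151) (nat_lit 9) (.e (nat_lit 426211) (nat_lit 9) (.e (nat_lit 426140) (nat_lit 3) (.e (nat_lit 204845) (nat_lit 24) (.e (nat_lit 319533) (nat_lit 16) (.e (nat_lit 286725) (nat_lit 0) .nil))))))) (.g (nat_lit 5) .nil .nil)))))) (.nd (nat_lit 3) (.nd (nat_lit 4) (.nd (nat_lit 5) 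
(.lf (nat_lit 74821) (.g (nat_lit 2264) (.e (nat_lit 1788) (nat_lit 119) (.e (nat_lit 516146) (nat_lit 9) (.e (nat_lit 426438) (nat_lit 18) (.e (nat_lit 98384) (nat_lit 32) (.e (nat_lit 475177) (nat_lit 24) (.e (nat_lit 516148) (nat_lit 9) (.e (nat_lit 426402) (nat_lit 15) .nil))))))) (.g (nat_lit 4) .nil .nil))) 
(.lf (nat_lit 74853) (.g (nat_lit 5017) (.e (nat_lit 1788) (nat_lit 119) (.e (nat_lit 516151) (nat_lit 9) (.e (nat_lit 426211) (nat_lit 9) (.e (nat_lit 426125) (nat_lit 2) (.e (nat_lit 196626) (nat_lit 9) (.e (nat_lit 1400) (nat_lit 106) (.e (nat_lit 319533) (nat_lit 16) (.e (nat_lit 286723) (nat_lit 0) .nil)))))))) (.g (nat_lit 4) .nil .nil)))) (.nd (nat_lit 5) 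
(.lf (nat_lit 74837) (.g (nat_lit 2763) (.e (nat_lit 1788) (nat_lit 119) (.e (nat_lit 516151) (nat_lit 9) (.e (nat_lit 426211) (nat_lit 9) (.e (nat_lit 426037) (nat_lit 0) (.e (nat_lit 3238) (nat_lit 197) .nil))))) .nil)) 
(.lf (nat_lit 74869) (.g (nat_lit 5797) (.e (nat_lit 1788) (nat_lit 119) (.e (nat_lit 516151) (nat_lit 9) (.e (nat_lit 426211) (nat_lit 9) (.e (nat_lit 426140) (nat_lit 3) (.e (nat_lit 204845) (nat_lit 24) (.e (nat_lit 319530) (nat_lit 16) (.e (nat_lit 286720) (nat_lit 0) .nil))))))) (.g (nat_lit 6) .nil .nil))))) (.nd (nat_lit 4) (.nd (nat_lit 5) 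
(.lf (nat_lit 74829) (.g (nat_lit 1534) (.e (nat_lit 1788) (nat_lit 119) (.e (nat_lit 516151) (nat_lit 9) (.e (nat_lit 426170) (nat_lit 7) (.e (nat_lit 409631) (nat_lit 12) .nil)))) .nil)) 
(.lf (nat_lit 74861) (.g (nat_lit 4961) (.e (nat_lit 1788) (nat_lit 119) (.e (nat_lit 516151) (nat_lit 9) (.e (nat_lit 426211) (nat_lit 9) (.e (nat_lit 426125) (nat_lit 2) (.e (nat_lit 196630) (nat_lit 9) (.e (nat_lit 1393) (nat_lit 106) (.e (nat_lit 319531) (nat_lit 16) (.e (nat_lit 286720) (nat_lit 0) .nil)))))))) (.g (nat_lit 4) .nil .nil)))) (.nd (nat_lit 5) 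
(.lf (nat_lit 74845) (.g (nat_lit 6766) (.e (nat_lit 1788) (nat_lit 119) (.e (nat_lit 516151) (nat_lit 9) (.e (nat_lit 426211) (nat_lit 9) (.e (nat_lit 426125) (nat_lit 2) (.e (nat_lit 196617) (nat_lit 9) (.e (nat_lit 1400) (nat_lit 106) (.e (nat_lit 319533) (nat_lit 16) (.e (nat_lit 286720) (nat_lit 0) .nil)))))))) (.g (nat_lit 5) .nil .nil))) 
(.lf (nat_lit 74877) (.g (nat_lit 5042) (.e (nat_lit 1788) (nat_lit 119) (.e (nat_lit 516151) (nat_lit 9) (.e (nat_lit 426211) (nat_lit 9) (.e (nat_lit 426140) (nat_lit 3) (.e (nat_lit 204846) (nat_lit 24) (.e (nat_lit 319533) (nat_lit 16) (.e (nat_lit 286724) (nat_lit 0) .nil))))))) (.g (nat_lit 5) .nil .nil))))))) (.nd (nat_lit 2) (.nd (nat_lit 3) (.nd (nat_lit 4) (.nd (nat_lit 5) 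
(.lf (nat_lit 74819) (.g (nat_lit 3245) (.e (nat_lit 1788) (nat_lit 119) (.e (nat_lit 516146) (nat_lit 9) (.e (nat_lit 426438) (nat_lit 18) (.e (nat_lit 98358) (nat_lit 26) (.e (nat_lit 426436) (nat_lit 18) (.e (nat_lit 98358) (nat_lit 26) (.e (nat_lit 426402) (nat_lit 15) .nil))))))) (.g (nat_lit 5) .nil .nil))) 
(.lf (nat_lit 74851) (.g (nat_lit 5242) (.e (nat_lit 1788) (nat_lit 119) (.e (nat_lit 516151) (nat_lit 9) (.e (nat_lit 426211) (nat_lit 9) (.e (nat_lit 426125) (nat_lit 2) (.e (nat_lit 196623) (nat_lit 9) (.e (nat_lit 1400) (nat_lit 106) (.e (nat_lit 319534) (nat_lit 16) (.e (nat_lit 286728) (nat_lit 0) .nil)))))))) (.g (nat_lit 4) .nil .nil)))) (.nd (nat_lit 5) 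
(.lf (nat_lit 74835) (.g (nat_lit 899) (.e (nat_lit 1788) (nat_lit 119) (.e (nat_lit 516151) (nat_lit 9) (.e (nat_lit 426195) (nat_lit 9) .nil))) .nil)) 
(.lf (nat_lit 74867) (.g (nat_lit 4431) (.e (nat_lit 1788) (nat_lit 119) (.e (nat_lit 516151) (nat_lit 9) (.e (nat_lit 426211) (nat_lit 9) (.e (nat_lit 426125) (nat_lit 2) (.e (nat_lit 196661) (nat_lit 12) (.e (nat_lit 57712) (nat_lit 176) (.e (nat_lit 1370) (nat_lit 103) (.e (nat_lit 294912) (nat_lit 0) .nil)))))))) (.g (nat_lit 4) .nil .nil))))) (.nd (nat_lit 4) (.nd (nat_lit 5) 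
(.lf (nat_lit 74827) (.g (nat_lit 1023) (.e (nat_lit 1788) (nat_lit 119) (.e (nat_lit 516151) (nat_lit 9) (.e (nat_lit 426170) (nat_lit 7) .nil))) .nil)) 
(.lf (nat_lit 74859) (.g (nat_lit 4631) (.e (nat_lit 1788) (nat_lit 119) (.e (nat_lit 516151) (nat_lit 9) (.e (nat_lit 426211) (nat_lit 9) (.e (nat_lit 426125) (nat_lit 2) (.e (nat_lit 196627) (nat_lit 9) (.e (nat_lit 1400) (nat_lit 106) (.e (nat_lit 319534) (nat_lit 16) (.e (nat_lit 286728) (nat_lit 0) .nil)))))))) (.g (nat_lit 4) .nil .nil)))) (.nd (nat_lit 5) 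
(.lf (nat_lit 74843) (.g (nat_lit 4207) (.e (nat_lit 1788) (nat_lit 119) (.e (nat_lit 516151) (nat_lit 9) (.e (nat_lit 426211) (nat_lit 9) (.e (nat_lit 426125) (nat_lit 2) (.e (nat_lit 196617) (nat_lit 9) .nil))))) .nil)) 
(.lf (nat_lit 74875) (.g (nat_lit 5587) (.e (nat_lit 1788) (nat_lit 119) (.e (nat_lit 516151) (nat_lit 9) (.e (nat_lit 426211) (nat_lit 9) (.e (nat_lit 426140) (nat_lit 3) (.e (nat_lit 204845) (nat_lit 24) (.e (nat_lit 319534) (nat_lit 16) (.e (nat_lit 286728) (nat_lit 0) .nil))))))) (.g (nat_lit 6) .nil .nil)))))) (.nd (nat_lit 3) (.nd (nat_lit 4) (.nd (nat_lit 5) 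
(.lf (nat_lit 74823) (.g (nat_lit 3157) (.e (nat_lit 1788) (nat_lit 119) (.e (nat_lit 516147) (nat_lit 9) (.e (nat_lit 426436) (nat_lit 18) (.e (nat_lit 98356) (nat_lit 26) (.e (nat_lit 426438) (nat_lit 18) (.e (nat_lit 98358) (nat_lit 26) (.e (nat_lit 426402) (nat_lit 15) .nil))))))) (.g (nat_lit 0) .nil .nil))) 
(.lf (nat_lit 74855) (.g (nat_lit 5912) (.e (nat_lit 1788) (nat_lit 119) (.e (nat_lit 516151) (nat_lit 9) (.e (nat_lit 426211) (nat_lit 9) (.e (nat_lit 426125) (nat_lit 2) (.e (nat_lit 196626) (nat_lit 9) (.e (nat_lit 1400) (nat_lit 106) (.e (nat_lit 319533) (nat_lit 16) (.e (nat_lit 286725) (nat_lit 0) .nil)))))))) (.g (nat_lit 4) .nil .nil)))) (.nd (nat_lit 5) 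
(.lf (nat_lit 74839) (.g (nat_lit 4152) (.e (nat_lit 1788) (nat_lit 119) (.e (nat_lit 516151) (nat_lit 9) (.e (nat_lit 426211) (nat_lit 9) (.e (nat_lit 426125) (nat_lit 2) (.e (nat_lit 196615) (nat_lit 0) .nil))))) .nil)) 
(.lf (nat_lit 74871) (.g (nat_lit 5753) (.e (nat_lit 1788) (nat_lit 119) (.e (nat_lit 516151) (nat_lit 9) (.e (nat_lit 426211) (nat_lit 9) (.e (nat_lit 426140) (nat_lit 3) (.e (nat_lit 204845) (nat_lit 24) (.e (nat_lit 319531) (nat_lit 16) (.e (nat_lit 286728) (nat_lit 0) .nil))))))) (.g (nat_lit 6) .nil .nil))))) (.nd (nat_lit 4) (.nd (nat_lit 5) 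
(.lf (nat_lit 74831) (.g (nat_lit 682) (.e (nat_lit 1788) (nat_lit 119) (.e (nat_lit 516151) (nat_lit 9) (.e (nat_lit 426185) (nat_lit 9) .nil))) .nil)) 
(.lf (nat_lit 74863) (.g (nat_lit 4961) (.e (nat_lit 1788) (nat_lit 119) (.e (nat_lit 516151) (nat_lit 9) (.e (nat_lit 426211) (nat_lit 9) (.e (nat_lit 426125) (nat_lit 2) (.e (nat_lit 196630) (nat_lit 9) (.e (nat_lit 1393) (nat_lit 106) (.e (nat_lit 319534) (nat_lit 16) (.e (nat_lit 286720) (nat_lit 0) .nil)))))))) (.g (nat_lit 4) .nil .nil)))) (.nd (nat_lit 5) 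
(.lf (nat_lit 74847) (.g (nat_lit 6576) (.e (nat_lit 1788) (nat_lit 119) (.e (nat_lit 516151) (nat_lit 9) (.e (nat_lit 426211) (nat_lit 9) (.e (nat_lit 426125) (nat_lit 2) (.e (nat_lit 196617) (nat_lit 9) (.e (nat_lit 1400) (nat_lit 106) (.e (nat_lit 319534) (nat_lit 16) (.e (nat_lit 286720) (nat_lit 0) .nil)))))))) (.g (nat_lit 5) .nil .nil))) 
(.lf (nat_lit 74879) (.g (nat_lit 6227) (.e (nat_lit 1788) (nat_lit 119) (.e (nat_lit 516151) (nat_lit 9) (.e (nat_lit 426211) (nat_lit 9) (.e (nat_lit 426140) (nat_lit 3) (.e (nat_lit 204846) (nat_lit 24) (.e (nat_lit 319534) (nat_lit 16) (.e (nat_lit 286728) (nat_lit 0) .nil))))))) (.g (nat_lit 7) .nil .nil)))))))))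

noncomputable def tv1013 : DT := (.nd (nat_lit 0) (.nd (nat_lit 1) (.nd (nat_lit 2) (.nd (nat_lit 3) (.nd (nat_lit 4) (.nd (nat_lit 5) 
(.lf (nat_lit 74880) (.g (nat_lit 3116) (.e (nat_lit 1788) (nat_lit 119) (.e (nat_lit 516151) (nat_lit 9) (.e (nat_lit 426215) (nat_lit 9) (.e (nat_lit 426140) (nat_lit 3) (.e (nat_lit 204846) (nat_lit 24) (.e (nat_lit 319533) (nat_lit 16) (.e (nat_lit 286720) (nat_lit 0) .nil))))))) (.g (nat_lit 4) .nil .nil))) 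
(.lf (nat_lit 74912) (.g (nat_lit 2183) (.e (nat_lit 1788) (nat_lit 119) (.e (nat_lit 516151) (nat_lit 9) (.e (nat_lit 426286) (nat_lit 10) (.e (nat_lit 434203) (nat_lit 18) (.e (nat_lit 4175) (nat_lit 251) .nil))))) .nil))) (.nd (nat_lit 5) 
(.lf (nat_lit 74896) (.g (nat_lit 4578) (.e (nat_lit 1788) (nat_lit 119) (.e (nat_lit 516151) (nat_lit 9) (.e (nat_lit 426285) (nat_lit 10) (.e (nat_lit 434231) (nat_lit 23) (.e (nat_lit 532523) (nat_lit 7) (.e (nat_lit 319533) (nat_lit 16) (.e (nat_lit 286724) (nat_lit 0) .nil))))))) (.g (nat_lit 5) .nil .nil))) 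
(.lf (nat_lit 74928) (.g (nat_lit 2597) (.e (nat_lit 1788) (nat_lit 119) (.e (nat_lit 516151) (nat_lit 9) (.e (nat_lit 426286) (nat_lit 10) (.e (nat_lit 434245) (nat_lit 28) (.e (nat_lit 573474) (nat_lit 12) (.e (nat_lit 57348) (nat_lit 0) (.e (nat_lit 7265) (nat_lit 384) (.e (nat_lit 57406) (nat_lit 12) (.e (nat_lit 335969) (nat_lit 0) .nil))))))))) (.g (nat_lit 4) .nil .nil))))) 
(.nd (nat_lit 4) (.nd (nat_lit 5) 
(.lf (nat_lit 74888) (.g (nat_lit 881) (.e (nat_lit 1788) (nat_lit 119) (.e (nat_lit 516151) (nat_lit 9) (.e (nat_lit 426239) (nat_lit 9) .nil))) .nil)) 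
(.lf (nat_lit 74920) (.g (nat_lit 2557) (.e (nat_lit 1788) (nat_lit 119) (.e (nat_lit 516151) (nat_lit 9) (.e (nat_lit 426286) (nat_lit 10) (.e (nat_lit 434245) (nat_lit 28) (.e (nat_lit 573473) (nat_lit 12) (.e (nat_lit 57353) (nat_lit 0) (.e (nat_lit 7265) (nat_lit 384) (.e (nat_lit 57406) (nat_lit 12) (.e (nat_lit 335971) (nat_lit 0) .nil))))))))) (.g (nat_lit 4) .nil .nil)))) (.nd (nat_lit 5) 
(.lf (nat_lit 74904) (.g (nat_lit 3876) (.e (nat_lit 1788) (nat_lit 119) (.e (nat_lit 516151) (nat_lit 9) (.e (nat_lit 426285) (nat_lit 10) (.e (nat_lit 434233) (nat_lit 23) (.e (nat_lit 532523) (nat_lit 7) (.e (nat_lit 319533) (nat_lit 16) (.e (nat_lit 286728) (nat_lit 0) .nil))))))) (.g (nat_lit 4) .nil .nil))) 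
(.lf (nat_lit 74936) (.g (nat_lit 1984) (.e (nat_lit 1788) (nat_lit 119) (.e (nat_lit 516151) (nat_lit 9) (.e (nat_lit 426286) (nat_lit 10) (.e (nat_lit 434245) (nat_lit 28) (.e (nat_lit 573474) (nat_lit 12) (.e (nat_lit 57574) (nat_lit 55) (.e (nat_lit 778464) (nat_lit 11) (.e (nat_lit 24589) (nat_lit 0) .nil)))))))) (.g (nat_lit 4) .nil .nil)))))) 
(.nd (nat_lit 3) (.nd (nat_lit 4) (.nd (nat_lit 5) 
(.lf (nat_lit 74884) (.g (nat_lit 3213) (.e (nat_lit 1788) (nat_lit 119) (.e (nat_lit 516151) (nat_lit 9) (.e (nat_lit 426216) (nat_lit 9) (.e (nat_lit 426140) (nat_lit 3) (.e (nat_lit 204846) (nat_lit 24) (.e (nat_lit 319533) (nat_lit 16) (.e (nat_lit 286720) (nat_lit 0) .nil))))))) (.g (nat_lit 4) .nil .nil))) 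
(.lf (nat_lit 74916) (.g (nat_lit 1007) (.e (nat_lit 1788) (nat_lit 119) (.e (nat_lit 516151) (nat_lit 9) (.e (nat_lit 426286) (nat_lit 10) (.e (nat_lit 434245) (nat_lit 28) .nil)))) .nil))) (.nd (nat_lit 5) 
(.lf (nat_lit 74900) (.g (nat_lit 5247) (.e (nat_lit 1788) (nat_lit 119) (.e (nat_lit 516151) (nat_lit 9) (.e (nat_lit 426285) (nat_lit 10) (.e (nat_lit 434233) (nat_lit 23) (.e (nat_lit 532523) (nat_lit 7) (.e (nat_lit 319533) (nat_lit 16) (.e (nat_lit 286720) (nat_lit 0) .nil))))))) (.g (nat_lit 6) .nil .nil))) 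
(.lf (nat_lit 74932) (.g (nat_lit 2700) (.e (nat_lit 1788) (nat_lit 119) (.e (nat_lit 516151) (nat_lit 9) (.e (nat_lit 426286) (nat_lit 10) (.e (nat_lit 434245) (nat_lit 28) (.e (nat_lit 573474) (nat_lit 12) (.e (nat_lit 57569) (nat_lit 53) (.e (nat_lit 761866) (nat_lit 5) (.e (nat_lit 1454) (nat_lit 108) (.e (nat_lit 335928) (nat_lit 0) .nil))))))))) (.g (nat_lit 4) .nil .nil))))) 
(.nd (nat_lit 4) (.nd (nat_lit 5) 
(.lf (nat_lit 74892) (.g (nat_lit 3473) (.e (nat_lit 1788) (nat_lit 119) (.e (nat_lit 516151) (nat_lit 9) (.e (nat_lit 426282) (nat_lit 10) (.e (nat_lit 434248) (nat_lit 28) (.e (nat_lit 573471) (nat_lit 11) (.e (nat_lit 16473) (nat_lit 14) (.e (nat_lit 491526) (nat_lit 0) .nil))))))) (.g (nat_lit 4) .nil .nil))) 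
(.lf (nat_lit 74924) (.g (nat_lit 2835) (.e (nat_lit 1788) (nat_lit 119) (.e (nat_lit 516151) (nat_lit 9) (.e (nat_lit 426286) (nat_lit 10) (.e (nat_lit 434245) (nat_lit 28) (.e (nat_lit 573474) (nat_lit 12) (.e (nat_lit 57347) (nat_lit 0) (.e (nat_lit 7265) (nat_lit 384) (.e (nat_lit 57406) (nat_lit 12) (.e (nat_lit 335969) (nat_lit 0) .nil))))))))) (.g (nat_lit 5) .nil .nil)))) (.nd (nat_lit 5) 
(.lf (nat_lit 74908) (.g (nat_lit 7230) (.e (nat_lit 1788) (nat_lit 119) (.e (nat_lit 516151) (nat_lit 9) (.e (nat_lit 426285) (nat_lit 10) (.e (nat_lit 434238) (nat_lit 25) (.e (nat_lit 548913) (nat_lit 18) (.e (nat_lit 172126) (nat_lit 14) (.e (nat_lit 491520) (nat_lit 0) .nil))))))) (.g (nat_lit 6) .nil .nil))) 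
(.lf (nat_lit 74940) (.g (nat_lit 6286) (.e (nat_lit 1788) (nat_lit 119) (.e (nat_lit 516151) (nat_lit 9) (.e (nat_lit 426286) (nat_lit 10) (.e (nat_lit 434245) (nat_lit 28) (.e (nat_lit 573474) (nat_lit 12) (.e (nat_lit 57574) (nat_lit 55) (.e (nat_lit 778466) (nat_lit 11) (.e (nat_lit 24588) (nat_lit 0) .nil)))))))) (.g (nat_lit 8) .nil .nil))))))) 
(.nd (nat_lit 2) (.nd (nat_lit 3) (.nd (nat_lit 4) (.nd (nat_lit 5) 
(.lf (nat_lit 74882) (.g (nat_lit 3182) (.e (nat_lit 1788) (nat_lit 119) (.e (nat_lit 516151) (nat_lit 9) (.e (nat_lit 426215) (nat_lit 9) (.e (nat_lit 426140) (nat_lit 3) (.e (nat_lit 204846) (nat_lit 24) (.e (nat_lit 319534) (nat_lit 16) (.e (nat_lit 286720) (nat_lit 0) .nil))))))) (.g (nat_lit 4) .nil .nil))) 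
(.lf (nat_lit 74914) (.g (nat_lit 1479) (.e (nat_lit 1788) (nat_lit 119) (.e (nat_lit 516151) (nat_lit 9) (.e (nat_lit 426286) (nat_lit 10) (.e (nat_lit 434234) (nat_lit 23) .nil)))) .nil))) (.nd (nat_lit 5) 
(.lf (nat_lit 74898) (.g (nat_lit 6079) (.e (nat_lit 1788) (nat_lit 119) (.e (nat_lit 516151) (nat_lit 9) (.e (nat_lit 426285) (nat_lit 10) (.e (nat_lit 434231) (nat_lit 23) (.e (nat_lit 532523) (nat_lit 7) (.e (nat_lit 319534) (nat_lit 16) (.e (nat_lit 286728) (nat_lit 0) .nil))))))) (.g (nat_lit 6) .nil .nil))) 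
(.lf (nat_lit 74930) (.g (nat_lit 2223) (.e (nat_lit 1788) (nat_lit 119) (.e (nat_lit 516151) (nat_lit 9) (.e (nat_lit 426286) (nat_lit 10) (.e (nat_lit 434245) (nat_lit 28) (.e (nat_lit 573474) (nat_lit 12) (.e (nat_lit 57351) (nat_lit 0) (.e (nat_lit 7265) (nat_lit 384) (.e (nat_lit 57406) (nat_lit 12) (.e (nat_lit 335969) (nat_lit 0) .nil))))))))) (.g (nat_lit 4) .nil .nil))))) 
(.nd (nat_lit 4) (.nd (nat_lit 5) 
(.lf (nat_lit 74890) (.g (nat_lit 3463) (.e (nat_lit 1788) (nat_lit 119) (.e (nat_lit 516151) (nat_lit 9) (.e (nat_lit 426275) (nat_lit 10) (.e (nat_lit 434248) (nat_lit 28) (.e (nat_lit 573471) (nat_lit 11) (.e (nat_lit 16473) (nat_lit 14) (.e (nat_lit 491526) (nat_lit 0) .nil))))))) (.g (nat_lit 4) .nil .nil))) 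
(.lf (nat_lit 74922) (.g (nat_lit 1737) (.e (nat_lit 1788) (nat_lit 119) (.e (nat_lit 516151) (nat_lit 9) (.e (nat_lit 426286) (nat_lit 10) (.e (nat_lit 434245) (nat_lit 28) (.e (nat_lit 573474) (nat_lit 12) .nil))))) .nil))) (.nd (nat_lit 5) 
(.lf (nat_lit 74906) (.g (nat_lit 4191) (.e (nat_lit 1788) (nat_lit 119) (.e (nat_lit 516151) (nat_lit 9) (.e (nat_lit 426285) (nat_lit 10) (.e (nat_lit 434233) (nat_lit 23) (.e (nat_lit 532523) (nat_lit 7) (.e (nat_lit 319534) (nat_lit 16) (.e (nat_lit 286723) (nat_lit 0) .nil))))))) (.g (nat_lit 4) .nil .nil))) 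
(.lf (nat_lit 74938) (.g (nat_lit 4839) (.e (nat_lit 1788) (nat_lit 119) (.e (nat_lit 516151) (nat_lit 9) (.e (nat_lit 426286) (nat_lit 10) (.e (nat_lit 434245) (nat_lit 28) (.e (nat_lit 573474) (nat_lit 12) (.e (nat_lit 57574) (nat_lit 55) (.e (nat_lit 778465) (nat_lit 11) (.e (nat_lit 24588) (nat_lit 0) .nil)))))))) (.g (nat_lit 7) .nil .nil)))))) 
(.nd (nat_lit 3) (.nd (nat_lit 4) (.nd (nat_lit 5) 
(.lf (nat_lit 74886) (.g (nat_lit 3398) (.e (nat_lit 1788) (nat_lit 119) (.e (nat_lit 516151) (nat_lit 9) (.e (nat_lit 426216) (nat_lit 9) (.e (nat_lit 426140) (nat_lit 3) (.e (nat_lit 204846) (nat_lit 24) (.e (nat_lit 319534) (nat_lit 16) (.e (nat_lit 286720) (nat_lit 0) .nil))))))) (.g (nat_lit 4) .nil .nil))) 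
(.lf (nat_lit 74918) (.g (nat_lit 1736) (.e (nat_lit 1788) (nat_lit 119) (.e (nat_lit 516151) (nat_lit 9) (.e (nat_lit 426286) (nat_lit 10) (.e (nat_lit 434245) (nat_lit 28) (.e (nat_lit 573473) (nat_lit 12) .nil))))) .nil))) (.nd (nat_lit 5) 
(.lf (nat_lit 74902) (.g (nat_lit 5928) (.e (nat_lit 1788) (nat_lit 119) (.e (nat_lit 516151) (nat_lit 9) (.e (nat_lit 426285) (nat_lit 10) (.e (nat_lit 434233) (nat_lit 23) (.e (nat_lit 532523) (nat_lit 7) (.e (nat_lit 319533) (nat_lit 16) (.e (nat_lit 286724) (nat_lit 0) .nil))))))) (.g (nat_lit 7) .nil .nil))) 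
(.lf (nat_lit 74934) (.g (nat_lit 2711) (.e (nat_lit 1788) (nat_lit 119) (.e (nat_lit 516151) (nat_lit 9) (.e (nat_lit 426286) (nat_lit 10) (.e (nat_lit 434245) (nat_lit 28) (.e (nat_lit 573474) (nat_lit 12) (.e (nat_lit 57574) (nat_lit 55) (.e (nat_lit 778464) (nat_lit 11) (.e (nat_lit 24576) (nat_lit 0) .nil)))))))) (.g (nat_lit 5) .nil .nil))))) (.nd (nat_lit 4) (.nd (nat_lit 5) 
(.lf (nat_lit 74894) (.g (nat_lit 1989) (.e (nat_lit 1788) (nat_lit 119) (.e (nat_lit 516151) (nat_lit 9) (.e (nat_lit 426285) (nat_lit 10) (.e (nat_lit 434231) (nat_lit 23) .nil)))) .nil)) 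
(.lf (nat_lit 74926) (.g (nat_lit 2093) (.e (nat_lit 1788) (nat_lit 119) (.e (nat_lit 516151) (nat_lit 9) (.e (nat_lit 426286) (nat_lit 10) (.e (nat_lit 434245) (nat_lit 28) (.e (nat_lit 573474) (nat_lit 12) (.e (nat_lit 57347) (nat_lit 0) (.e (nat_lit 7265) (nat_lit 384) (.e (nat_lit 57412) (nat_lit 12) (.e (nat_lit 335923) (nat_lit 0) .nil))))))))) (.g (nat_lit 4) .nil .nil)))) (.nd (nat_lit 5) 
(.lf (nat_lit 74910) (.g (nat_lit 1951) (.e (nat_lit 1788) (nat_lit 119) (.e (nat_lit 516151) (nat_lit 9) (.e (nat_lit 426285) (nat_lit 10) (.e (nat_lit 434248) (nat_lit 28) .nil)))) .nil)) 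
(.lf (nat_lit 74942) (.g (nat_lit 1091) (.e (nat_lit 1788) (nat_lit 119) (.e (nat_lit 516151) (nat_lit 9) (.e (nat_lit 426286) (nat_lit 10) (.e (nat_lit 434247) (nat_lit 28) .nil)))) .nil))))))) (.nd (nat_lit 1) (.nd (nat_lit 2) (.nd (nat_lit 3) (.nd (nat_lit 4) (.nd (nat_lit 5) 
(.lf (nat_lit 74881) (.g (nat_lit 3550) (.e (nat_lit 1788) (nat_lit 119) (.e (nat_lit 516151) (nat_lit 9) (.e (nat_lit 426215) (nat_lit 9) (.e (nat_lit 426140) (nat_lit 3) (.e (nat_lit 204846) (nat_lit 24) (.e (nat_lit 319533) (nat_lit 16) (.e (nat_lit 286724) (nat_lit 0) .nil))))))) (.g (nat_lit 5) .nil .nil))) 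
(.lf (nat_lit 74913) (.g (nat_lit 1474) (.e (nat_lit 1788) (nat_lit 119) (.e (nat_lit 516151) (nat_lit 9) (.e (nat_lit 426286) (nat_lit 10) (.e (nat_lit 434233) (nat_lit 23) .nil)))) .nil))) (.nd (nat_lit 5) 
(.lf (nat_lit 74897) (.g (nat_lit 4282) (.e (nat_lit 1788) (nat_lit 119) (.e (nat_lit 516151) (nat_lit 9) (.e (nat_lit 426285) (nat_lit 10) (.e (nat_lit 434231) (nat_lit 23) (.e (nat_lit 532523) (nat_lit 7) (.e (nat_lit 319534) (nat_lit 16) (.e (nat_lit 286720) (nat_lit 0) .nil))))))) (.g (nat_lit 4) .nil .nil))) 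
(.lf (nat_lit 74929) (.g (nat_lit 3232) (.e (nat_lit 1788) (nat_lit 119) (.e (nat_lit 516151) (nat_lit 9) (.e (nat_lit 426286) (nat_lit 10) (.e (nat_lit 434245) (nat_lit 28) (.e (nat_lit 573474) (nat_lit 12) (.e (nat_lit 57348) (nat_lit 0) (.e (nat_lit 7265) (nat_lit 384) (.e (nat_lit 57406) (nat_lit 12) (.e (nat_lit 335971) (nat_lit 0) .nil))))))))) (.g (nat_lit 5) .nil .nil))))) 
(.nd (nat_lit 4) (.nd (nat_lit 5) 
(.lf (nat_lit 74889) (.g (nat_lit 3348) (.e (nat_lit 1788) (nat_lit 119) (.e (nat_lit 516151) (nat_lit 9) (.e (nat_lit 426275) (nat_lit 10) (.e (nat_lit 434233) (nat_lit 23) (.e (nat_lit 532523) (nat_lit 7) (.e (nat_lit 319533) (nat_lit 16) (.e (nat_lit 286724) (nat_lit 0) .nil))))))) (.g (nat_lit 4) .nil .nil))) 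
(.lf (nat_lit 74921) (.g (nat_lit 2688) (.e (nat_lit 1788) (nat_lit 119) (.e (nat_lit 516151) (nat_lit 9) (.e (nat_lit 426286) (nat_lit 10) (.e (nat_lit 434245) (nat_lit 28) (.e (nat_lit 573473) (nat_lit 12) (.e (nat_lit 57569) (nat_lit 53) (.e (nat_lit 761866) (nat_lit 5) (.e (nat_lit 1454) (nat_lit 108) (.e (nat_lit 335928) (nat_lit 0) .nil))))))))) (.g (nat_lit 4) .nil .nil)))) 
(.nd (nat_lit 5) 
(.lf (nat_lit 74905) (.g (nat_lit 4926) (.e (nat_lit 1788) (nat_lit 119) (.e (nat_lit 516151) (nat_lit 9) (.e (nat_lit 426285) (nat_lit 10) (.e (nat_lit 434233) (nat_lit 23) (.e (nat_lit 532523) (nat_lit 7) (.e (nat_lit 319534) (nat_lit 16) (.e (nat_lit 286720) (nat_lit 0) .nil))))))) (.g (nat_lit 6) .nil .nil))) 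
(.lf (nat_lit 74937) (.g (nat_lit 3972) (.e (nat_lit 1788) (nat_lit 119) (.e (nat_lit 516151) (nat_lit 9) (.e (nat_lit 426286) (nat_lit 10) (.e (nat_lit 434245) (nat_lit 28) (.e (nat_lit 573474) (nat_lit 12) (.e (nat_lit 57574) (nat_lit 55) (.e (nat_lit 778465) (nat_lit 11) (.e (nat_lit 24576) (nat_lit 0) .nil)))))))) (.g (nat_lit 6) .nil .nil)))))) 
(.nd (nat_lit 3) (.nd (nat_lit 4) (.nd (nat_lit 5) 
(.lf (nat_lit 74885) (.g (nat_lit 3647) (.e (nat_lit 1788) (nat_lit 119) (.e (nat_lit 516151) (nat_lit 9) (.e (nat_lit 426216) (nat_lit 9) (.e (nat_lit 426140) (nat_lit 3) (.e (nat_lit 204846) (nat_lit 24) (.e (nat_lit 319533) (nat_lit 16) (.e (nat_lit 286724) (nat_lit 0) .nil))))))) (.g (nat_lit 4) .nil .nil))) 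
(.lf (nat_lit 74917) (.g (nat_lit 3409) (.e (nat_lit 1788) (nat_lit 119) (.e (nat_lit 516151) (nat_lit 9) (.e (nat_lit 426286) (nat_lit 10) (.e (nat_lit 434245) (nat_lit 28) (.e (nat_lit 573451) (nat_lit 9) (.e (nat_lit 430) (nat_lit 32) (.e (nat_lit 426343) (nat_lit 14) (.e (nat_lit 491520) (nat_lit 0) .nil)))))))) (.g (nat_lit 5) .nil .nil)))) (.nd (nat_lit 5) 
(.lf (nat_lit 74901) (.g (nat_lit 4530) (.e (nat_lit 1788) (nat_lit 119) (.e (nat_lit 516151) (nat_lit 9) (.e (nat_lit 426285) (nat_lit 10) (.e (nat_lit 434233) (nat_lit 23) (.e (nat_lit 532523) (nat_lit 7) (.e (nat_lit 319533) (nat_lit 16) (.e (nat_lit 286723) (nat_lit 0) .nil))))))) (.g (nat_lit 5) .nil .nil))) 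
(.lf (nat_lit 74933) (.g (nat_lit 3224) (.e (nat_lit 1788) (nat_lit 119) (.e (nat_lit 516151) (nat_lit 9) (.e (nat_lit 426286) (nat_lit 10) (.e (nat_lit 434245) (nat_lit 28) (.e (nat_lit 573474) (nat_lit 12) (.e (nat_lit 57574) (nat_lit 55) (.e (nat_lit 778463) (nat_lit 11) (.e (nat_lit 24588) (nat_lit 0) .nil)))))))) (.g (nat_lit 5) .nil .nil))))) (.nd (nat_lit 4) (.nd (nat_lit 5) 
(.lf (nat_lit 74893) (.g (nat_lit 4513) (.e (nat_lit 1788) (nat_lit 119) (.e (nat_lit 516151) (nat_lit 9) (.e (nat_lit 426285) (nat_lit 10) (.e (nat_lit 434230) (nat_lit 23) (.e (nat_lit 532523) (nat_lit 7) (.e (nat_lit 319534) (nat_lit 16) (.e (nat_lit 286728) (nat_lit 0) .nil))))))) (.g (nat_lit 5) .nil .nil))) 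
(.lf (nat_lit 74925) (.g (nat_lit 3470) (.e (nat_lit 1788) (nat_lit 119) (.e (nat_lit 516151) (nat_lit 9) (.e (nat_lit 426286) (nat_lit 10) (.e (nat_lit 434245) (nat_lit 28) (.e (nat_lit 573474) (nat_lit 12) (.e (nat_lit 57347) (nat_lit 0) (.e (nat_lit 7265) (nat_lit 384) (.e (nat_lit 57406) (nat_lit 12) (.e (nat_lit 335971) (nat_lit 0) .nil))))))))) (.g (nat_lit 5) .nil .nil)))) (.nd (nat_lit 5) 
(.lf (nat_lit 74909) (.g (nat_lit 2082) (.e (nat_lit 1788) (nat_lit 119) (.e (nat_lit 516151) (nat_lit 9) (.e (nat_lit 426285) (nat_lit 10) (.e (nat_lit 434247) (nat_lit 28) .nil)))) .nil)) 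
(.lf (nat_lit 74941) (.g (nat_lit 4767) (.e (nat_lit 1788) (nat_lit 119) (.e (nat_lit 516151) (nat_lit 9) (.e (nat_lit 426286) (nat_lit 10) (.e (nat_lit 434245) (nat_lit 28) (.e (nat_lit 573474) (nat_lit 12) (.e (nat_lit 57574) (nat_lit 55) (.e (nat_lit 778466) (nat_lit 11) (.e (nat_lit 24589) (nat_lit 0) .nil)))))))) (.g (nat_lit 7) .nil .nil))))))) 
(.nd (nat_lit 2) (.nd (nat_lit 3) (.nd (nat_lit 4) (.nd (nat_lit 5) 
(.lf (nat_lit 74883) (.g (nat_lit 3225) (.e (nat_lit 1788) (nat_lit 119) (.e (nat_lit 516151) (nat_lit 9) (.e (nat_lit 426216) (nat_lit 9) (.e (nat_lit 426140) (nat_lit 3) (.e (nat_lit 204845) (nat_lit 24) (.e (nat_lit 319533) (nat_lit 16) (.e (nat_lit 286720) (nat_lit 0) .nil))))))) (.g (nat_lit 4) .nil .nil))) 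
(.lf (nat_lit 74915) (.g (nat_lit 2928) (.e (nat_lit 1788) (nat_lit 119) (.e (nat_lit 516151) (nat_lit 9) (.e (nat_lit 426286) (nat_lit 10) (.e (nat_lit 434234) (nat_lit 23) (.e (nat_lit 532523) (nat_lit 7) (.e (nat_lit 319534) (nat_lit 16) (.e (nat_lit 286728) (nat_lit 0) .nil))))))) (.g (nat_lit 5) .nil .nil)))) (.nd (nat_lit 5) 
(.lf (nat_lit 74899) (.g (nat_lit 1727) (.e (nat_lit 1788) (nat_lit 119) (.e (nat_lit 516151) (nat_lit 9) (.e (nat_lit 426285) (nat_lit 10) (.e (nat_lit 434233) (nat_lit 23) .nil)))) .nil)) 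
(.lf (nat_lit 74931) (.g (nat_lit 2858) (.e (nat_lit 1788) (nat_lit 119) (.e (nat_lit 516151) (nat_lit 9) (.e (nat_lit 426286) (nat_lit 10) (.e (nat_lit 434245) (nat_lit 28) (.e (nat_lit 573474) (nat_lit 12) (.e (nat_lit 57351) (nat_lit 0) (.e (nat_lit 7265) (nat_lit 384) (.e (nat_lit 57406) (nat_lit 12) (.e (nat_lit 335971) (nat_lit 0) .nil))))))))) (.g (nat_lit 5) .nil .nil))))) 
(.nd (nat_lit 4) (.nd (nat_lit 5) 
(.lf (nat_lit 74891) (.g (nat_lit 853) (.e (nat_lit 1788) (nat_lit 119) (.e (nat_lit 516151) (nat_lit 9) (.e (nat_lit 426282) (nat_lit 10) .nil))) .nil)) 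
(.lf (nat_lit 74923) (.g (nat_lit 2218) (.e (nat_lit 1788) (nat_lit 119) (.e (nat_lit 516151) (nat_lit 9) (.e (nat_lit 426286) (nat_lit 10) (.e (nat_lit 434245) (nat_lit 28) (.e (nat_lit 573474) (nat_lit 12) (.e (nat_lit 57347) (nat_lit 0) (.e (nat_lit 7261) (nat_lit 384) (.e (nat_lit 57412) (nat_lit 12) (.e (nat_lit 335923) (nat_lit 0) .nil))))))))) (.g (nat_lit 4) .nil .nil)))) (.nd (nat_lit 5) 
(.lf (nat_lit 74907) (.g (nat_lit 6718) (.e (nat_lit 1788) (nat_lit 119) (.e (nat_lit 516151) (nat_lit 9) (.e (nat_lit 426285) (nat_lit 10) (.e (nat_lit 434233) (nat_lit 23) (.e (nat_lit 532523) (nat_lit 7) (.e (nat_lit 319534) (nat_lit 16) (.e (nat_lit 286728) (nat_lit 0) .nil))))))) (.g (nat_lit 0) .nil .nil))) 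
(.lf (nat_lit 74939) (.g (nat_lit 4730) (.e (nat_lit 1788) (nat_lit 119) (.e (nat_lit 516151) (nat_lit 9) (.e (nat_lit 426286) (nat_lit 10) (.e (nat_lit 434245) (nat_lit 28) (.e (nat_lit 573474) (nat_lit 12) (.e (nat_lit 57574) (nat_lit 55) (.e (nat_lit 778466) (nat_lit 11) (.e (nat_lit 24576) (nat_lit 0) .nil)))))))) (.g (nat_lit 7) .nil .nil)))))) 
(.nd (nat_lit 3) (.nd (nat_lit 4) (.nd (nat_lit 5) 
(.lf (nat_lit 74887) (.g (nat_lit 4753) (.e (nat_lit 1788) (nat_lit 119) (.e (nat_lit 516151) (nat_lit 9) (.e (nat_lit 426216) (nat_lit 9) (.e (nat_lit 426140) (nat_lit 3) (.e (nat_lit 204846) (nat_lit 24) (.e (nat_lit 319534) (nat_lit 16) (.e (nat_lit 286728) (nat_lit 0) .nil))))))) (.g (nat_lit 6) .nil .nil))) 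
(.lf (nat_lit 74919) (.g (nat_lit 2573) (.e (nat_lit 1788) (nat_lit 119) (.e (nat_lit 516151) (nat_lit 9) (.e (nat_lit 426286) (nat_lit 10) (.e (nat_lit 434245) (nat_lit 28) (.e (nat_lit 573473) (nat_lit 12) (.e (nat_lit 57348) (nat_lit 0) (.e (nat_lit 7265) (nat_lit 384) (.e (nat_lit 57406) (nat_lit 12) (.e (nat_lit 335971) (nat_lit 0) .nil))))))))) (.g (nat_lit 4) .nil .nil)))) (.nd (nat_lit 5) 
(.lf (nat_lit 74903) (.g (nat_lit 4369) (.e (nat_lit 1788) (nat_lit 119) (.e (nat_lit 516151) (nat_lit 9) (.e (nat_lit 426285) (nat_lit 10) (.e (nat_lit 434233) (nat_lit 23) (.e (nat_lit 532523) (nat_lit 7) (.e (nat_lit 319533) (nat_lit 16) (.e (nat_lit 286725) (nat_lit 0) .nil))))))) (.g (nat_lit 5) .nil .nil))) 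
(.lf (nat_lit 74935) (.g (nat_lit 3981) (.e (nat_lit 1788) (nat_lit 119) (.e (nat_lit 516151) (nat_lit 9) (.e (nat_lit 426286) (nat_lit 10) (.e (nat_lit 434245) (nat_lit 28) (.e (nat_lit 573474) (nat_lit 12) (.e (nat_lit 57574) (nat_lit 55) (.e (nat_lit 778464) (nat_lit 11) (.e (nat_lit 24588) (nat_lit 0) .nil)))))))) (.g (nat_lit 6) .nil .nil))))) (.nd (nat_lit 4) (.nd (nat_lit 5) 
(.lf (nat_lit 74895) (.g (nat_lit 4135) (.e (nat_lit 1788) (nat_lit 119) (.e (nat_lit 516151) (nat_lit 9) (.e (nat_lit 426285) (nat_lit 10) (.e (nat_lit 434231) (nat_lit 23) (.e (nat_lit 532522) (nat_lit 7) (.e (nat_lit 319531) (nat_lit 16) (.e (nat_lit 286720) (nat_lit 0) .nil))))))) (.g (nat_lit 4) .nil .nil))) 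
(.lf (nat_lit 74927) (.g (nat_lit 2318) (.e (nat_lit 1788) (nat_lit 119) (.e (nat_lit 516151) (nat_lit 9) (.e (nat_lit 426286) (nat_lit 10) (.e (nat_lit 434245) (nat_lit 28) (.e (nat_lit 573474) (nat_lit 12) (.e (nat_lit 57348) (nat_lit 0) (.e (nat_lit 7125) (nat_lit 382) (.e (nat_lit 1201) (nat_lit 88) (.e (nat_lit 65550) (nat_lit 0) .nil))))))))) (.g (nat_lit 4) .nil .nil)))) (.nd (nat_lit 5) 
(.lf (nat_lit 74911) (.g (nat_lit 2145) (.e (nat_lit 1788) (nat_lit 119) (.e (nat_lit 516151) (nat_lit 9) (.e (nat_lit 426285) (nat_lit 10) (.e (nat_lit 434295) (nat_lit 49) .nil)))) .nil)) 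
(.lf (nat_lit 74943) (.g (nat_lit 3134) (.e (nat_lit 1788) (nat_lit 119) (.e (nat_lit 516151) (nat_lit 9) (.e (nat_lit 426286) (nat_lit 10) (.e (nat_lit 434247) (nat_lit 28) (.e (nat_lit 573456) (nat_lit 9) (.e (nat_lit 430) (nat_lit 32) (.e (nat_lit 426343) (nat_lit 14) (.e (nat_lit 491520) (nat_lit 0) .nil)))))))) (.g (nat_lit 5) .nil .nil)))))))))

noncomputable def tv1014 : DT := (.nd (nat_lit 0) (.nd (nat_lit 1) (.nd (nat_lit 2) (.nd (nat_lit 3) (.nd (nat_lit 4) (.nd (nat_lit 5) 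
(.lf (nat_lit 74944) (.g (nat_lit 2599) (.e (nat_lit 1788) (nat_lit 119) (.e (nat_lit 516151) (nat_lit 9) (.e (nat_lit 426286) (nat_lit 10) (.e (nat_lit 434247) (nat_lit 28) (.e (nat_lit 573456) (nat_lit 9) (.e (nat_lit 430) (nat_lit 32) (.e (nat_lit 426344) (nat_lit 14) (.e (nat_lit 491520) (nat_lit 0) .nil)))))))) (.g (nat_lit 4) .nil .nil))) 
(.lf (nat_lit 74976) (.g (nat_lit 2385) (.e (nat_lit 1788) (nat_lit 119) (.e (nat_lit 516151) (nat_lit 9) (.e (nat_lit 426286) (nat_lit 10) (.e (nat_lit 434248) (nat_lit 28) (.e (nat_lit 573475) (nat_lit 12) (.e (nat_lit 57353) (nat_lit 0) (.e (nat_lit 7265) (nat_lit 384) (.e (nat_lit 57406) (nat_lit 12) (.e (nat_lit 335971) (nat_lit 0) .nil))))))))) (.g (nat_lit 4) .nil .nil)))) (.nd (nat_lit 5) 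
(.lf (nat_lit 74960) (.g (nat_lit 2693) (.e (nat_lit 1788) (nat_lit 119) (.e (nat_lit 516151) (nat_lit 9) (.e (nat_lit 426286) (nat_lit 10) (.e (nat_lit 434248) (nat_lit 28) (.e (nat_lit 573452) (nat_lit 9) (.e (nat_lit 430) (nat_lit 32) (.e (nat_lit 426344) (nat_lit 14) (.e (nat_lit 491520) (nat_lit 0) .nil)))))))) (.g (nat_lit 4) .nil .nil))) 
(.lf (nat_lit 74992) (.g (nat_lit 1347) (.e (nat_lit 1788) (nat_lit 119) (.e (nat_lit 516151) (nat_lit 9) (.e (nat_lit 426312) (nat_lit 12) (.e (nat_lit 475185) (nat_lit 29) .nil)))) .nil)))) (.nd (nat_lit 4) (.nd (nat_lit 5) 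
(.lf (nat_lit 74952) (.g (nat_lit 4092) (.e (nat_lit 1788) (nat_lit 119) (.e (nat_lit 516151) (nat_lit 9) (.e (nat_lit 426286) (nat_lit 10) (.e (nat_lit 434247) (nat_lit 28) (.e (nat_lit 573477) (nat_lit 12) (.e (nat_lit 57574) (nat_lit 55) (.e (nat_lit 778466) (nat_lit 11) (.e (nat_lit 24589) (nat_lit 0) .nil)))))))) (.g (nat_lit 7) .nil .nil))) 
(.lf (nat_lit 74984) (.g (nat_lit 4907) (.e (nat_lit 1788) (nat_lit 119) (.e (nat_lit 516151) (nat_lit 9) (.e (nat_lit 426286) (nat_lit 10) (.e (nat_lit 434248) (nat_lit 28) (.e (nat_lit 573475) (nat_lit 12) (.e (nat_lit 57574) (nat_lit 55) (.e (nat_lit 778466) (nat_lit 11) (.e (nat_lit 24588) (nat_lit 0) .nil)))))))) (.g (nat_lit 7) .nil .nil)))) (.nd (nat_lit 5) 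
(.lf (nat_lit 74968) (.g (nat_lit 2238) (.e (nat_lit 1788) (nat_lit 119) (.e (nat_lit 516151) (nat_lit 9) (.e (nat_lit 426286) (nat_lit 10) (.e (nat_lit 434248) (nat_lit 28) (.e (nat_lit 573475) (nat_lit 12) (.e (nat_lit 57347) (nat_lit 0) (.e (nat_lit 7261) (nat_lit 384) (.e (nat_lit 57412) (nat_lit 12) (.e (nat_lit 335923) (nat_lit 0) .nil))))))))) (.g (nat_lit 4) .nil .nil))) 
(.lf (nat_lit 75000) (.g (nat_lit 3407) (.e (nat_lit 1788) (nat_lit 119) (.e (nat_lit 516151) (nat_lit 9) (.e (nat_lit 426331) (nat_lit 13) (.e (nat_lit 483363) (nat_lit 18) (.e (nat_lit 57691) (nat_lit 156) (.e (nat_lit 163907) (nat_lit 12) (.e (nat_lit 426402) (nat_lit 15) .nil))))))) (.g (nat_lit 4) .nil .nil)))))) (.nd (nat_lit 3) (.nd (nat_lit 4) (.nd (nat_lit 5) 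
(.lf (nat_lit 74948) (.g (nat_lit 2033) (.e (nat_lit 1788) (nat_lit 119) (.e (nat_lit 516151) (nat_lit 9) (.e (nat_lit 426286) (nat_lit 10) (.e (nat_lit 434247) (nat_lit 28) (.e (nat_lit 573477) (nat_lit 12) (.e (nat_lit 57574) (nat_lit 55) (.e (nat_lit 778464) (nat_lit 11) (.e (nat_lit 24576) (nat_lit 0) .nil)))))))) (.g (nat_lit 4) .nil .nil))) 
(.lf (nat_lit 74980) (.g (nat_lit 3743) (.e (nat_lit 1788) (nat_lit 119) (.e (nat_lit 516151) (nat_lit 9) (.e (nat_lit 426286) (nat_lit 10) (.e (nat_lit 434248) (nat_lit 28) (.e (nat_lit 573475) (nat_lit 12) (.e (nat_lit 57574) (nat_lit 55) (.e (nat_lit 778464) (nat_lit 11) (.e (nat_lit 24588) (nat_lit 0) .nil)))))))) (.g (nat_lit 6) .nil .nil)))) (.nd (nat_lit 5) 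
(.lf (nat_lit 74964) (.g (nat_lit 2656) (.e (nat_lit 1788) (nat_lit 119) (.e (nat_lit 516151) (nat_lit 9) (.e (nat_lit 426286) (nat_lit 10) (.e (nat_lit 434248) (nat_lit 28) (.e (nat_lit 573473) (nat_lit 12) (.e (nat_lit 57353) (nat_lit 0) (.e (nat_lit 7265) (nat_lit 384) (.e (nat_lit 57406) (nat_lit 12) (.e (nat_lit 335971) (nat_lit 0) .nil))))))))) (.g (nat_lit 4) .nil .nil))) 
(.lf (nat_lit 74996) (.g (nat_lit 3230) (.e (nat_lit 1788) (nat_lit 119) (.e (nat_lit 516151) (nat_lit 9) (.e (nat_lit 426324) (nat_lit 13) (.e (nat_lit 483363) (nat_lit 18) (.e (nat_lit 57692) (nat_lit 156) (.e (nat_lit 163905) (nat_lit 12) (.e (nat_lit 426402) (nat_lit 15) .nil))))))) (.g (nat_lit 5) .nil .nil))))) (.nd (nat_lit 4) (.nd (nat_lit 5) 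
(.lf (nat_lit 74956) (.g (nat_lit 2299) (.e (nat_lit 1788) (nat_lit 119) (.e (nat_lit 516151) (nat_lit 9) (.e (nat_lit 426286) (nat_lit 10) (.e (nat_lit 434247) (nat_lit 28) (.e (nat_lit 573478) (nat_lit 12) (.e (nat_lit 57574) (nat_lit 55) (.e (nat_lit 778463) (nat_lit 11) (.e (nat_lit 24588) (nat_lit 0) .nil)))))))) (.g (nat_lit 4) .nil .nil))) 
(.lf (nat_lit 74988) (.g (nat_lit 4540) (.e (nat_lit 1788) (nat_lit 119) (.e (nat_lit 516151) (nat_lit 9) (.e (nat_lit 426290) (nat_lit 10) (.e (nat_lit 434231) (nat_lit 23) (.e (nat_lit 532523) (nat_lit 7) (.e (nat_lit 319534) (nat_lit 16) (.e (nat_lit 286728) (nat_lit 0) .nil))))))) (.g (nat_lit 5) .nil .nil)))) (.nd (nat_lit 5) 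
(.lf (nat_lit 74972) (.g (nat_lit 2205) (.e (nat_lit 1788) (nat_lit 119) (.e (nat_lit 516151) (nat_lit 9) (.e (nat_lit 426286) (nat_lit 10) (.e (nat_lit 434248) (nat_lit 28) (.e (nat_lit 573475) (nat_lit 12) (.e (nat_lit 57348) (nat_lit 0) (.e (nat_lit 7265) (nat_lit 384) (.e (nat_lit 57406) (nat_lit 12) (.e (nat_lit 335969) (nat_lit 0) .nil))))))))) (.g (nat_lit 4) .nil .nil))) 
(.lf (nat_lit 75004) (.g (nat_lit 2724) (.e (nat_lit 1788) (nat_lit 119) (.e (nat_lit 516151) (nat_lit 9) (.e (nat_lit 426331) (nat_lit 13) (.e (nat_lit 483365) (nat_lit 18) (.e (nat_lit 57692) (nat_lit 156) (.e (nat_lit 163905) (nat_lit 12) (.e (nat_lit 426402) (nat_lit 15) .nil))))))) (.g (nat_lit 4) .nil .nil))))))) (.nd (nat_lit 2) (.nd (nat_lit 3) (.nd (nat_lit 4) (.nd (nat_lit 5) 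
(.lf (nat_lit 74946) (.g (nat_lit 2385) (.e (nat_lit 1788) (nat_lit 119) (.e (nat_lit 516151) (nat_lit 9) (.e (nat_lit 426286) (nat_lit 10) (.e (nat_lit 434247) (nat_lit 28) (.e (nat_lit 573477) (nat_lit 12) (.e (nat_lit 57353) (nat_lit 0) (.e (nat_lit 7265) (nat_lit 384) (.e (nat_lit 57406) (nat_lit 12) (.e (nat_lit 335971) (nat_lit 0) .nil))))))))) (.g (nat_lit 4) .nil .nil))) 
(.lf (nat_lit 74978) (.g (nat_lit 3086) (.e (nat_lit 1788) (nat_lit 119) (.e (nat_lit 516151) (nat_lit 9) (.e (nat_lit 426286) (nat_lit 10) (.e (nat_lit 434248) (nat_lit 28) (.e (nat_lit 573475) (nat_lit 12) (.e (nat_lit 57574) (nat_lit 55) (.e (nat_lit 778463) (nat_lit 11) (.e (nat_lit 24588) (nat_lit 0) .nil)))))))) (.g (nat_lit 5) .nil .nil)))) (.nd (nat_lit 5) 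
(.lf (nat_lit 74962) (.g (nat_lit 1825) (.e (nat_lit 1788) (nat_lit 119) (.e (nat_lit 516151) (nat_lit 9) (.e (nat_lit 426286) (nat_lit 10) (.e (nat_lit 434248) (nat_lit 28) (.e (nat_lit 573473) (nat_lit 12) .nil))))) .nil)) 
(.lf (nat_lit 74994) (.g (nat_lit 2771) (.e (nat_lit 1788) (nat_lit 119) (.e (nat_lit 516151) (nat_lit 9) (.e (nat_lit 426324) (nat_lit 13) (.e (nat_lit 483363) (nat_lit 18) (.e (nat_lit 57688) (nat_lit 156) (.e (nat_lit 163905) (nat_lit 12) (.e (nat_lit 426402) (nat_lit 15) .nil))))))) (.g (nat_lit 4) .nil .nil))))) (.nd (nat_lit 4) (.nd (nat_lit 5) 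
(.lf (nat_lit 74954) (.g (nat_lit 2669) (.e (nat_lit 1788) (nat_lit 119) (.e (nat_lit 516151) (nat_lit 9) (.e (nat_lit 426286) (nat_lit 10) (.e (nat_lit 434247) (nat_lit 28) (.e (nat_lit 573477) (nat_lit 12) (.e (nat_lit 57575) (nat_lit 55) (.e (nat_lit 778464) (nat_lit 11) (.e (nat_lit 24588) (nat_lit 0) .nil)))))))) (.g (nat_lit 4) .nil .nil))) 
(.lf (nat_lit 74986) (.g (nat_lit 1271) (.e (nat_lit 1788) (nat_lit 119) (.e (nat_lit 516151) (nat_lit 9) (.e (nat_lit 426286) (nat_lit 10) (.e (nat_lit 434295) (nat_lit 49) .nil)))) .nil))) (.nd (nat_lit 5) 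
(.lf (nat_lit 74970) (.g (nat_lit 3481) (.e (nat_lit 1788) (nat_lit 119) (.e (nat_lit 516151) (nat_lit 9) (.e (nat_lit 426286) (nat_lit 10) (.e (nat_lit 434248) (nat_lit 28) (.e (nat_lit 573475) (nat_lit 12) (.e (nat_lit 57347) (nat_lit 0) (.e (nat_lit 7265) (nat_lit 384) (.e (nat_lit 57406) (nat_lit 12) (.e (nat_lit 335971) (nat_lit 0) .nil))))))))) (.g (nat_lit 5) .nil .nil))) 
(.lf (nat_lit 75002) (.g (nat_lit 2847) (.e (nat_lit 1788) (nat_lit 119) (.e (nat_lit 516151) (nat_lit 9) (.e (nat_lit 426331) (nat_lit 13) (.e (nat_lit 483363) (nat_lit 18) (.e (nat_lit 57692) (nat_lit 156) (.e (nat_lit 163906) (nat_lit 12) (.e (nat_lit 426402) (nat_lit 15) .nil))))))) (.g (nat_lit 4) .nil .nil)))))) (.nd (nat_lit 3) (.nd (nat_lit 4) (.nd (nat_lit 5) 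
(.lf (nat_lit 74950) (.g (nat_lit 3290) (.e (nat_lit 1788) (nat_lit 119) (.e (nat_lit 516151) (nat_lit 9) (.e (nat_lit 426286) (nat_lit 10) (.e (nat_lit 434247) (nat_lit 28) (.e (nat_lit 573477) (nat_lit 12) (.e (nat_lit 57574) (nat_lit 55) (.e (nat_lit 778465) (nat_lit 11) (.e (nat_lit 24576) (nat_lit 0) .nil)))))))) (.g (nat_lit 6) .nil .nil))) 
(.lf (nat_lit 74982) (.g (nat_lit 4540) (.e (nat_lit 1788) (nat_lit 119) (.e (nat_lit 516151) (nat_lit 9) (.e (nat_lit 426286) (nat_lit 10) (.e (nat_lit 434248) (nat_lit 28) (.e (nat_lit 573475) (nat_lit 12) (.e (nat_lit 57574) (nat_lit 55) (.e (nat_lit 778465) (nat_lit 11) (.e (nat_lit 24588) (nat_lit 0) .nil)))))))) (.g (nat_lit 7) .nil .nil)))) (.nd (nat_lit 5) 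
(.lf (nat_lit 74966) (.g (nat_lit 1838) (.e (nat_lit 1788) (nat_lit 119) (.e (nat_lit 516151) (nat_lit 9) (.e (nat_lit 426286) (nat_lit 10) (.e (nat_lit 434248) (nat_lit 28) (.e (nat_lit 573475) (nat_lit 12) .nil))))) .nil)) 
(.lf (nat_lit 74998) (.g (nat_lit 3862) (.e (nat_lit 1788) (nat_lit 119) (.e (nat_lit 516151) (nat_lit 9) (.e (nat_lit 426331) (nat_lit 13) (.e (nat_lit 483363) (nat_lit 18) (.e (nat_lit 57688) (nat_lit 156) (.e (nat_lit 163905) (nat_lit 12) (.e (nat_lit 426402) (nat_lit 15) .nil))))))) (.g (nat_lit 5) .nil .nil))))) (.nd (nat_lit 4) (.nd (nat_lit 5) 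
(.lf (nat_lit 74958) (.g (nat_lit 3313) (.e (nat_lit 1788) (nat_lit 119) (.e (nat_lit 516151) (nat_lit 9) (.e (nat_lit 426286) (nat_lit 10) (.e (nat_lit 434247) (nat_lit 28) (.e (nat_lit 573478) (nat_lit 12) (.e (nat_lit 57574) (nat_lit 55) (.e (nat_lit 778466) (nat_lit 11) (.e (nat_lit 24576) (nat_lit 0) .nil)))))))) (.g (nat_lit 7) .nil .nil))) 
(.lf (nat_lit 74990) (.g (nat_lit 630) (.e (nat_lit 1788) (nat_lit 119) (.e (nat_lit 516151) (nat_lit 9) (.e (nat_lit 426305) (nat_lit 12) .nil))) .nil))) (.nd (nat_lit 5) 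
(.lf (nat_lit 74974) (.g (nat_lit 2175) (.e (nat_lit 1788) (nat_lit 119) (.e (nat_lit 516151) (nat_lit 9) (.e (nat_lit 426286) (nat_lit 10) (.e (nat_lit 434248) (nat_lit 28) (.e (nat_lit 573475) (nat_lit 12) (.e (nat_lit 57351) (nat_lit 0) (.e (nat_lit 7265) (nat_lit 384) (.e (nat_lit 57406) (nat_lit 12) (.e (nat_lit 335969) (nat_lit 0) .nil))))))))) (.g (nat_lit 4) .nil .nil))) 
(.lf (nat_lit 75006) (.g (nat_lit 812) (.e (nat_lit 1788) (nat_lit 119) (.e (nat_lit 516151) (nat_lit 9) (.e (nat_lit 426338) (nat_lit 14) .nil))) .nil))))))) (.nd (nat_lit 1) (.nd (nat_lit 2) (.nd (nat_lit 3) (.nd (nat_lit 4) (.nd (nat_lit 5) 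
(.lf (nat_lit 74945) (.g (nat_lit 1758) (.e (nat_lit 1788) (nat_lit 119) (.e (nat_lit 516151) (nat_lit 9) (.e (nat_lit 426286) (nat_lit 10) (.e (nat_lit 434247) (nat_lit 28) (.e (nat_lit 573477) (nat_lit 12) .nil))))) .nil)) 
(.lf (nat_lit 74977) (.g (nat_lit 2589) (.e (nat_lit 1788) (nat_lit 119) (.e (nat_lit 516151) (nat_lit 9) (.e (nat_lit 426286) (nat_lit 10) (.e (nat_lit 434248) (nat_lit 28) (.e (nat_lit 573475) (nat_lit 12) (.e (nat_lit 57569) (nat_lit 53) (.e (nat_lit 761866) (nat_lit 5) (.e (nat_lit 1454) (nat_lit 108) (.e (nat_lit 335928) (nat_lit 0) .nil))))))))) (.g (nat_lit 4) .nil .nil)))) 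
(.nd (nat_lit 5) 
(.lf (nat_lit 74961) (.g (nat_lit 2753) (.e (nat_lit 1788) (nat_lit 119) (.e (nat_lit 516151) (nat_lit 9) (.e (nat_lit 426286) (nat_lit 10) (.e (nat_lit 434248) (nat_lit 28) (.e (nat_lit 573457) (nat_lit 9) (.e (nat_lit 430) (nat_lit 32) (.e (nat_lit 426344) (nat_lit 14) (.e (nat_lit 491526) (nat_lit 0) .nil)))))))) (.g (nat_lit 4) .nil .nil))) 
(.lf (nat_lit 74993) (.g (nat_lit 589) (.e (nat_lit 1788) (nat_lit 119) (.e (nat_lit 516151) (nat_lit 9) (.e (nat_lit 426324) (nat_lit 13) .nil))) .nil)))) (.nd (nat_lit 4) (.nd (nat_lit 5) 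
(.lf (nat_lit 74953) (.g (nat_lit 3674) (.e (nat_lit 1788) (nat_lit 119) (.e (nat_lit 516151) (nat_lit 9) (.e (nat_lit 426286) (nat_lit 10) (.e (nat_lit 434247) (nat_lit 28) (.e (nat_lit 573477) (nat_lit 12) (.e (nat_lit 57575) (nat_lit 55) (.e (nat_lit 778463) (nat_lit 11) (.e (nat_lit 24588) (nat_lit 0) .nil)))))))) (.g (nat_lit 6) .nil .nil))) 
(.lf (nat_lit 74985) (.g (nat_lit 4536) (.e (nat_lit 1788) (nat_lit 119) (.e (nat_lit 516151) (nat_lit 9) (.e (nat_lit 426286) (nat_lit 10) (.e (nat_lit 434248) (nat_lit 28) (.e (nat_lit 573475) (nat_lit 12) (.e (nat_lit 57574) (nat_lit 55) (.e (nat_lit 778466) (nat_lit 11) (.e (nat_lit 24589) (nat_lit 0) .nil)))))))) (.g (nat_lit 7) .nil .nil)))) (.nd (nat_lit 5) 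
(.lf (nat_lit 74969) (.g (nat_lit 2846) (.e (nat_lit 1788) (nat_lit 119) (.e (nat_lit 516151) (nat_lit 9) (.e (nat_lit 426286) (nat_lit 10) (.e (nat_lit 434248) (nat_lit 28) (.e (nat_lit 573475) (nat_lit 12) (.e (nat_lit 57347) (nat_lit 0) (.e (nat_lit 7265) (nat_lit 384) (.e (nat_lit 57406) (nat_lit 12) (.e (nat_lit 335969) (nat_lit 0) .nil))))))))) (.g (nat_lit 4) .nil .nil))) 
(.lf (nat_lit 75001) (.g (nat_lit 4135) (.e (nat_lit 1788) (nat_lit 119) (.e (nat_lit 516151) (nat_lit 9) (.e (nat_lit 426331) (nat_lit 13) (.e (nat_lit 483363) (nat_lit 18) (.e (nat_lit 57692) (nat_lit 156) (.e (nat_lit 163905) (nat_lit 12) (.e (nat_lit 426402) (nat_lit 15) .nil))))))) (.g (nat_lit 6) .nil .nil)))))) (.nd (nat_lit 3) (.nd (nat_lit 4) (.nd (nat_lit 5) 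
(.lf (nat_lit 74949) (.g (nat_lit 3303) (.e (nat_lit 1788) (nat_lit 119) (.e (nat_lit 516151) (nat_lit 9) (.e (nat_lit 426286) (nat_lit 10) (.e (nat_lit 434247) (nat_lit 28) (.e (nat_lit 573477) (nat_lit 12) (.e (nat_lit 57574) (nat_lit 55) (.e (nat_lit 778464) (nat_lit 11) (.e (nat_lit 24588) (nat_lit 0) .nil)))))))) (.g (nat_lit 6) .nil .nil))) 
(.lf (nat_lit 74981) (.g (nat_lit 3670) (.e (nat_lit 1788) (nat_lit 119) (.e (nat_lit 516151) (nat_lit 9) (.e (nat_lit 426286) (nat_lit 10) (.e (nat_lit 434248) (nat_lit 28) (.e (nat_lit 573475) (nat_lit 12) (.e (nat_lit 57574) (nat_lit 55) (.e (nat_lit 778465) (nat_lit 11) (.e (nat_lit 24576) (nat_lit 0) .nil)))))))) (.g (nat_lit 6) .nil .nil)))) (.nd (nat_lit 5) 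
(.lf (nat_lit 74965) (.g (nat_lit 2718) (.e (nat_lit 1788) (nat_lit 119) (.e (nat_lit 516151) (nat_lit 9) (.e (nat_lit 426286) (nat_lit 10) (.e (nat_lit 434248) (nat_lit 28) (.e (nat_lit 573473) (nat_lit 12) (.e (nat_lit 57569) (nat_lit 53) (.e (nat_lit 761866) (nat_lit 5) (.e (nat_lit 1454) (nat_lit 108) (.e (nat_lit 335928) (nat_lit 0) .nil))))))))) (.g (nat_lit 4) .nil .nil))) 
(.lf (nat_lit 74997) (.g (nat_lit 2819) (.e (nat_lit 1788) (nat_lit 119) (.e (nat_lit 516151) (nat_lit 9) (.e (nat_lit 426324) (nat_lit 13) (.e (nat_lit 483363) (nat_lit 18) (.e (nat_lit 57692) (nat_lit 156) (.e (nat_lit 163907) (nat_lit 12) (.e (nat_lit 426402) (nat_lit 15) .nil))))))) (.g (nat_lit 4) .nil .nil))))) (.nd (nat_lit 4) (.nd (nat_lit 5) 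
(.lf (nat_lit 74957) (.g (nat_lit 2885) (.e (nat_lit 1788) (nat_lit 119) (.e (nat_lit 516151) (nat_lit 9) (.e (nat_lit 426286) (nat_lit 10) (.e (nat_lit 434247) (nat_lit 28) (.e (nat_lit 573478) (nat_lit 12) (.e (nat_lit 57574) (nat_lit 55) (.e (nat_lit 778465) (nat_lit 11) (.e (nat_lit 24576) (nat_lit 0) .nil)))))))) (.g (nat_lit 6) .nil .nil))) 
(.lf (nat_lit 74989) (.g (nat_lit 1474) (.e (nat_lit 1788) (nat_lit 119) (.e (nat_lit 516151) (nat_lit 9) (.e (nat_lit 426290) (nat_lit 10) (.e (nat_lit 434233) (nat_lit 23) .nil)))) .nil))) (.nd (nat_lit 5) 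
(.lf (nat_lit 74973) (.g (nat_lit 2840) (.e (nat_lit 1788) (nat_lit 119) (.e (nat_lit 516151) (nat_lit 9) (.e (nat_lit 426286) (nat_lit 10) (.e (nat_lit 434248) (nat_lit 28) (.e (nat_lit 573475) (nat_lit 12) (.e (nat_lit 57348) (nat_lit 0) (.e (nat_lit 7265) (nat_lit 384) (.e (nat_lit 57406) (nat_lit 12) (.e (nat_lit 335971) (nat_lit 0) .nil))))))))) (.g (nat_lit 4) .nil .nil))) 
(.lf (nat_lit 75005) (.g (nat_lit 2774) (.e (nat_lit 1788) (nat_lit 119) (.e (nat_lit 516151) (nat_lit 9) (.e (nat_lit 426331) (nat_lit 13) (.e (nat_lit 483366) (nat_lit 18) (.e (nat_lit 57692) (nat_lit 156) (.e (nat_lit 163905) (nat_lit 12) (.e (nat_lit 426402) (nat_lit 15) .nil))))))) (.g (nat_lit 4) .nil .nil))))))) (.nd (nat_lit 2) (.nd (nat_lit 3) (.nd (nat_lit 4) (.nd (nat_lit 5) 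
(.lf (nat_lit 74947) (.g (nat_lit 2604) (.e (nat_lit 1788) (nat_lit 119) (.e (nat_lit 516151) (nat_lit 9) (.e (nat_lit 426286) (nat_lit 10) (.e (nat_lit 434247) (nat_lit 28) (.e (nat_lit 573477) (nat_lit 12) (.e (nat_lit 57574) (nat_lit 55) (.e (nat_lit 778463) (nat_lit 11) (.e (nat_lit 24588) (nat_lit 0) .nil)))))))) (.g (nat_lit 4) .nil .nil))) 
(.lf (nat_lit 74979) (.g (nat_lit 2609) (.e (nat_lit 1788) (nat_lit 119) (.e (nat_lit 516151) (nat_lit 9) (.e (nat_lit 426286) (nat_lit 10) (.e (nat_lit 434248) (nat_lit 28) (.e (nat_lit 573475) (nat_lit 12) (.e (nat_lit 57574) (nat_lit 55) (.e (nat_lit 778464) (nat_lit 11) (.e (nat_lit 24576) (nat_lit 0) .nil)))))))) (.g (nat_lit 4) .nil .nil)))) (.nd (nat_lit 5) 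
(.lf (nat_lit 74963) (.g (nat_lit 2686) (.e (nat_lit 1788) (nat_lit 119) (.e (nat_lit 516151) (nat_lit 9) (.e (nat_lit 426286) (nat_lit 10) (.e (nat_lit 434248) (nat_lit 28) (.e (nat_lit 573473) (nat_lit 12) (.e (nat_lit 57348) (nat_lit 0) (.e (nat_lit 7265) (nat_lit 384) (.e (nat_lit 57406) (nat_lit 12) (.e (nat_lit 335971) (nat_lit 0) .nil))))))))) (.g (nat_lit 4) .nil .nil))) 
(.lf (nat_lit 74995) (.g (nat_lit 3010) (.e (nat_lit 1788) (nat_lit 119) (.e (nat_lit 516151) (nat_lit 9) (.e (nat_lit 426324) (nat_lit 13) (.e (nat_lit 483363) (nat_lit 18) (.e (nat_lit 57691) (nat_lit 156) (.e (nat_lit 163905) (nat_lit 12) (.e (nat_lit 426402) (nat_lit 15) .nil))))))) (.g (nat_lit 4) .nil .nil))))) (.nd (nat_lit 4) (.nd (nat_lit 5) 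
(.lf (nat_lit 74955) (.g (nat_lit 1612) (.e (nat_lit 1788) (nat_lit 119) (.e (nat_lit 516151) (nat_lit 9) (.e (nat_lit 426286) (nat_lit 10) (.e (nat_lit 434247) (nat_lit 28) (.e (nat_lit 573478) (nat_lit 12) .nil))))) .nil)) 
(.lf (nat_lit 74987) (.g (nat_lit 3212) (.e (nat_lit 1788) (nat_lit 119) (.e (nat_lit 516151) (nat_lit 9) (.e (nat_lit 426289) (nat_lit 10) (.e (nat_lit 434231) (nat_lit 23) (.e (nat_lit 532523) (nat_lit 7) (.e (nat_lit 319534) (nat_lit 16) (.e (nat_lit 286728) (nat_lit 0) .nil))))))) (.g (nat_lit 4) .nil .nil)))) (.nd (nat_lit 5) 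
(.lf (nat_lit 74971) (.g (nat_lit 2108) (.e (nat_lit 1788) (nat_lit 119) (.e (nat_lit 516151) (nat_lit 9) (.e (nat_lit 426286) (nat_lit 10) (.e (nat_lit 434248) (nat_lit 28) (.e (nat_lit 573475) (nat_lit 12) (.e (nat_lit 57347) (nat_lit 0) (.e (nat_lit 7265) (nat_lit 384) (.e (nat_lit 57412) (nat_lit 12) (.e (nat_lit 335923) (nat_lit 0) .nil))))))))) (.g (nat_lit 4) .nil .nil))) 
(.lf (nat_lit 75003) (.g (nat_lit 3714) (.e (nat_lit 1788) (nat_lit 119) (.e (nat_lit 516151) (nat_lit 9) (.e (nat_lit 426331) (nat_lit 13) (.e (nat_lit 483363) (nat_lit 18) (.e (nat_lit 57692) (nat_lit 156) (.e (nat_lit 163907) (nat_lit 12) (.e (nat_lit 426402) (nat_lit 15) .nil))))))) (.g (nat_lit 5) .nil .nil)))))) (.nd (nat_lit 3) (.nd (nat_lit 4) (.nd (nat_lit 5) 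
(.lf (nat_lit 74951) (.g (nat_lit 3709) (.e (nat_lit 1788) (nat_lit 119) (.e (nat_lit 516151) (nat_lit 9) (.e (nat_lit 426286) (nat_lit 10) (.e (nat_lit 434247) (nat_lit 28) (.e (nat_lit 573477) (nat_lit 12) (.e (nat_lit 57574) (nat_lit 55) (.e (nat_lit 778466) (nat_lit 11) (.e (nat_lit 24576) (nat_lit 0) .nil)))))))) (.g (nat_lit 7) .nil .nil))) 
(.lf (nat_lit 74983) (.g (nat_lit 4106) (.e (nat_lit 1788) (nat_lit 119) (.e (nat_lit 516151) (nat_lit 9) (.e (nat_lit 426286) (nat_lit 10) (.e (nat_lit 434248) (nat_lit 28) (.e (nat_lit 573475) (nat_lit 12) (.e (nat_lit 57574) (nat_lit 55) (.e (nat_lit 778466) (nat_lit 11) (.e (nat_lit 24576) (nat_lit 0) .nil)))))))) (.g (nat_lit 7) .nil .nil)))) (.nd (nat_lit 5) 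
(.lf (nat_lit 74967) (.g (nat_lit 2656) (.e (nat_lit 1788) (nat_lit 119) (.e (nat_lit 516151) (nat_lit 9) (.e (nat_lit 426286) (nat_lit 10) (.e (nat_lit 434248) (nat_lit 28) (.e (nat_lit 573475) (nat_lit 12) (.e (nat_lit 57347) (nat_lit 0) (.e (nat_lit 7125) (nat_lit 382) (.e (nat_lit 1201) (nat_lit 88) (.e (nat_lit 65550) (nat_lit 0) .nil))))))))) (.g (nat_lit 4) .nil .nil))) 
(.lf (nat_lit 74999) (.g (nat_lit 3926) (.e (nat_lit 1788) (nat_lit 119) (.e (nat_lit 516151) (nat_lit 9) (.e (nat_lit 426331) (nat_lit 13) (.e (nat_lit 483363) (nat_lit 18) (.e (nat_lit 57691) (nat_lit 156) (.e (nat_lit 163905) (nat_lit 12) (.e (nat_lit 426402) (nat_lit 15) .nil))))))) (.g (nat_lit 5) .nil .nil))))) (.nd (nat_lit 4) (.nd (nat_lit 5) 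
(.lf (nat_lit 74959) (.g (nat_lit 1058) (.e (nat_lit 1788) (nat_lit 119) (.e (nat_lit 516151) (nat_lit 9) (.e (nat_lit 426286) (nat_lit 10) (.e (nat_lit 434248) (nat_lit 28) .nil)))) .nil)) 
(.lf (nat_lit 74991) (.g (nat_lit 899) (.e (nat_lit 1788) (nat_lit 119) (.e (nat_lit 516151) (nat_lit 9) (.e (nat_lit 426312) (nat_lit 12) .nil))) .nil))) (.nd (nat_lit 5) 
(.lf (nat_lit 74975) (.g (nat_lit 2810) (.e (nat_lit 1788) (nat_lit 119) (.e (nat_lit 516151) (nat_lit 9) (.e (nat_lit 426286) (nat_lit 10) (.e (nat_lit 434248) (nat_lit 28) (.e (nat_lit 573475) (nat_lit 12) (.e (nat_lit 57351) (nat_lit 0) (.e (nat_lit 7265) (nat_lit 384) (.e (nat_lit 57406) (nat_lit 12) (.e (nat_lit 335971) (nat_lit 0) .nil))))))))) (.g (nat_lit 4) .nil .nil))) 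
(.lf (nat_lit 75007) (.g (nat_lit 1842) (.e (nat_lit 1788) (nat_lit 119) (.e (nat_lit 516151) (nat_lit 9) (.e (nat_lit 426338) (nat_lit 14) (.e (nat_lit 491537) (nat_lit 2) .nil)))) .nil))))))))

noncomputable def tv1015 : DT := (.nd (nat_lit 0) (.nd (nat_lit 1) (.nd (nat_lit 2) (.nd (nat_lit 3) (.nd (nat_lit 4) (.nd (nat_lit 5) 
(.lf (nat_lit 75008) (.g (nat_lit 3411) (.e (nat_lit 1788) (nat_lit 119) (.e (nat_lit 516151) (nat_lit 9) (.e (nat_lit 426338) (nat_lit 14) (.e (nat_lit 491537) (nat_lit 2) (.e (nat_lit 90170) (nat_lit 13) (.e (nat_lit 172124) (nat_lit 14) (.e (nat_lit 491526) (nat_lit 0) .nil))))))) (.g (nat_lit 4) .nil .nil))) 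
(.lf (nat_lit 75040) (.g (nat_lit 2020) (.e (nat_lit 1788) (nat_lit 119) (.e (nat_lit 516163) (nat_lit 11) (.e (nat_lit 442426) (nat_lit 23) (.e (nat_lit 204846) (nat_lit 24) (.e (nat_lit 319533) (nat_lit 16) (.e (nat_lit 286725) (nat_lit 0) .nil)))))) (.g (nat_lit 4) .nil .nil)))) (.nd (nat_lit 5) 
(.lf (nat_lit 75024) (.g (nat_lit 1645) (.e (nat_lit 1788) (nat_lit 119) (.e (nat_lit 516159) (nat_lit 10) (.e (nat_lit 434245) (nat_lit 28) (.e (nat_lit 573488) (nat_lit 14) (.e (nat_lit 81664) (nat_lit 5) (.e (nat_lit 532490) (nat_lit 0) (.e (nat_lit 7936) (nat_lit 152) (.e (nat_lit 786447) (nat_lit 15) .nil)))))))) (.g (nat_lit 4) .nil .nil))) 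
(.lf (nat_lit 75056) (.g (nat_lit 2540) (.e (nat_lit 1788) (nat_lit 119) (.e (nat_lit 516165) (nat_lit 12) (.e (nat_lit 450579) (nat_lit 5) (.e (nat_lit 532523) (nat_lit 7) (.e (nat_lit 319533) (nat_lit 16) .nil))))) .nil)))) (.nd (nat_lit 4) (.nd (nat_lit 5) 
(.lf (nat_lit 75016) (.g (nat_lit 3080) (.e (nat_lit 1788) (nat_lit 119) (.e (nat_lit 516151) (nat_lit 9) (.e (nat_lit 426412) (nat_lit 15) (.e (nat_lit 1800) (nat_lit 119) (.e (nat_lit 516150) (nat_lit 9) (.e (nat_lit 426436) (nat_lit 18) (.e (nat_lit 98358) (nat_lit 26) (.e (nat_lit 426402) (nat_lit 15) .nil)))))))) (.g (nat_lit 4) .nil .nil))) 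
(.lf (nat_lit 75048) (.g (nat_lit 2266) (.e (nat_lit 1788) (nat_lit 119) (.e (nat_lit 516163) (nat_lit 11) (.e (nat_lit 442427) (nat_lit 23) (.e (nat_lit 204846) (nat_lit 24) (.e (nat_lit 319533) (nat_lit 16) .nil))))) .nil))) (.nd (nat_lit 5) 
(.lf (nat_lit 75032) (.g (nat_lit 1446) (.e (nat_lit 1788) (nat_lit 119) (.e (nat_lit 516163) (nat_lit 11) (.e (nat_lit 442424) (nat_lit 22) (.e (nat_lit 196630) (nat_lit 9) .nil)))) .nil)) 
(.lf (nat_lit 75064) (.g (nat_lit 3040) (.e (nat_lit 1788) (nat_lit 119) (.e (nat_lit 516165) (nat_lit 12) (.e (nat_lit 450580) (nat_lit 5) (.e (nat_lit 532523) (nat_lit 7) (.e (nat_lit 319533) (nat_lit 16) (.e (nat_lit 286720) (nat_lit 0) .nil)))))) (.g (nat_lit 5) .nil .nil)))))) (.nd (nat_lit 3) (.nd (nat_lit 4) (.nd (nat_lit 5) 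
(.lf (nat_lit 75012) (.g (nat_lit 4058) (.e (nat_lit 1788) (nat_lit 119) (.e (nat_lit 516151) (nat_lit 9) (.e (nat_lit 426338) (nat_lit 14) (.e (nat_lit 491540) (nat_lit 3) (.e (nat_lit 98365) (nat_lit 26) (.e (nat_lit 426342) (nat_lit 14) (.e (nat_lit 491526) (nat_lit 0) .nil))))))) (.g (nat_lit 6) .nil .nil))) 
(.lf (nat_lit 75044) (.g (nat_lit 2337) (.e (nat_lit 1788) (nat_lit 119) (.e (nat_lit 516163) (nat_lit 11) (.e (nat_lit 442427) (nat_lit 23) (.e (nat_lit 204845) (nat_lit 24) (.e (nat_lit 319531) (nat_lit 16) (.e (nat_lit 286728) (nat_lit 0) .nil)))))) (.g (nat_lit 4) .nil .nil)))) (.nd (nat_lit 5) 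
(.lf (nat_lit 75028) (.g (nat_lit 584) (.e (nat_lit 1788) (nat_lit 119) (.e (nat_lit 516163) (nat_lit 11) (.e (nat_lit 442414) (nat_lit 20) .nil))) .nil)) 
(.lf (nat_lit 75060) (.g (nat_lit 3021) (.e (nat_lit 1788) (nat_lit 119) (.e (nat_lit 516165) (nat_lit 12) (.e (nat_lit 450579) (nat_lit 5) (.e (nat_lit 532523) (nat_lit 7) (.e (nat_lit 319533) (nat_lit 16) (.e (nat_lit 286725) (nat_lit 0) .nil)))))) (.g (nat_lit 4) .nil .nil))))) (.nd (nat_lit 4) (.nd (nat_lit 5) 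
(.lf (nat_lit 75020) (.g (nat_lit 768) (.e (nat_lit 1788) (nat_lit 119) (.e (nat_lit 516151) (nat_lit 9) (.e (nat_lit 433920) (nat_lit 20) .nil))) .nil)) 
(.lf (nat_lit 75052) (.g (nat_lit 4393) (.e (nat_lit 1788) (nat_lit 119) (.e (nat_lit 516163) (nat_lit 11) (.e (nat_lit 442427) (nat_lit 23) (.e (nat_lit 204846) (nat_lit 24) (.e (nat_lit 319534) (nat_lit 16) (.e (nat_lit 286728) (nat_lit 0) .nil)))))) (.g (nat_lit 0) .nil .nil)))) (.nd (nat_lit 5) 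
(.lf (nat_lit 75036) (.g (nat_lit 859) (.e (nat_lit 1788) (nat_lit 119) (.e (nat_lit 516163) (nat_lit 11) (.e (nat_lit 442424) (nat_lit 22) (.e (nat_lit 204544) (nat_lit 21) .nil)))) .nil)) 
(.lf (nat_lit 75068) (.g (nat_lit 4568) (.e (nat_lit 1788) (nat_lit 119) (.e (nat_lit 516165) (nat_lit 12) (.e (nat_lit 450580) (nat_lit 5) (.e (nat_lit 532523) (nat_lit 7) (.e (nat_lit 319534) (nat_lit 16) (.e (nat_lit 286728) (nat_lit 0) .nil)))))) (.g (nat_lit 0) .nil .nil))))))) (.nd (nat_lit 2) (.nd (nat_lit 3) (.nd (nat_lit 4) (.nd (nat_lit 5) 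
(.lf (nat_lit 75010) (.g (nat_lit 1745) (.e (nat_lit 1788) (nat_lit 119) (.e (nat_lit 516151) (nat_lit 9) (.e (nat_lit 426338) (nat_lit 14) (.e (nat_lit 491540) (nat_lit 3) .nil)))) .nil)) 
(.lf (nat_lit 75042) (.g (nat_lit 481) (.e (nat_lit 1788) (nat_lit 119) (.e (nat_lit 516163) (nat_lit 11) (.e (nat_lit 442427) (nat_lit 23) .nil))) .nil))) (.nd (nat_lit 5) 
(.lf (nat_lit 75026) (.g (nat_lit 2432) (.e (nat_lit 1788) (nat_lit 119) (.e (nat_lit 516162) (nat_lit 11) (.e (nat_lit 442426) (nat_lit 23) (.e (nat_lit 204846) (nat_lit 24) (.e (nat_lit 319533) (nat_lit 16) (.e (nat_lit 286724) (nat_lit 0) .nil)))))) (.g (nat_lit 5) .nil .nil))) 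
(.lf (nat_lit 75058) (.g (nat_lit 3182) (.e (nat_lit 1788) (nat_lit 119) (.e (nat_lit 516165) (nat_lit 12) (.e (nat_lit 450579) (nat_lit 5) (.e (nat_lit 532523) (nat_lit 7) (.e (nat_lit 319533) (nat_lit 16) (.e (nat_lit 286723) (nat_lit 0) .nil)))))) (.g (nat_lit 4) .nil .nil))))) (.nd (nat_lit 4) (.nd (nat_lit 5) 
(.lf (nat_lit 75018) (.g (nat_lit 2384) (.e (nat_lit 1788) (nat_lit 119) (.e (nat_lit 516151) (nat_lit 9) (.e (nat_lit 426412) (nat_lit 15) (.e (nat_lit 1800) (nat_lit 119) (.e (nat_lit 516182) (nat_lit 15) .nil))))) .nil)) 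
(.lf (nat_lit 75050) (.g (nat_lit 4230) (.e (nat_lit 1788) (nat_lit 119) (.e (nat_lit 516163) (nat_lit 11) (.e (nat_lit 442427) (nat_lit 23) (.e (nat_lit 204846) (nat_lit 24) (.e (nat_lit 319533) (nat_lit 16) (.e (nat_lit 286724) (nat_lit 0) .nil)))))) (.g (nat_lit 6) .nil .nil)))) (.nd (nat_lit 5) 
(.lf (nat_lit 75034) (.g (nat_lit 2795) (.e (nat_lit 1788) (nat_lit 119) (.e (nat_lit 516163) (nat_lit 11) (.e (nat_lit 442424) (nat_lit 22) (.e (nat_lit 196661) (nat_lit 12) (.e (nat_lit 57712) (nat_lit 176) (.e (nat_lit 1370) (nat_lit 103) (.e (nat_lit 294912) (nat_lit 0) .nil))))))) (.g (nat_lit 4) .nil .nil))) 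
(.lf (nat_lit 75066) (.g (nat_lit 3690) (.e (nat_lit 1788) (nat_lit 119) (.e (nat_lit 516165) (nat_lit 12) (.e (nat_lit 450580) (nat_lit 5) (.e (nat_lit 532523) (nat_lit 7) (.e (nat_lit 319533) (nat_lit 16) (.e (nat_lit 286724) (nat_lit 0) .nil)))))) (.g (nat_lit 5) .nil .nil)))))) (.nd (nat_lit 3) (.nd (nat_lit 4) (.nd (nat_lit 5) 
(.lf (nat_lit 75014) (.g (nat_lit 3197) (.e (nat_lit 1788) (nat_lit 119) (.e (nat_lit 516151) (nat_lit 9) (.e (nat_lit 426338) (nat_lit 14) (.e (nat_lit 491540) (nat_lit 3) (.e (nat_lit 98365) (nat_lit 26) (.e (nat_lit 426344) (nat_lit 14) (.e (nat_lit 491526) (nat_lit 0) .nil))))))) (.g (nat_lit 4) .nil .nil))) 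
(.lf (nat_lit 75046) (.g (nat_lit 3468) (.e (nat_lit 1788) (nat_lit 119) (.e (nat_lit 516163) (nat_lit 11) (.e (nat_lit 442427) (nat_lit 23) (.e (nat_lit 204845) (nat_lit 24) (.e (nat_lit 319534) (nat_lit 16) (.e (nat_lit 286720) (nat_lit 0) .nil)))))) (.g (nat_lit 5) .nil .nil)))) (.nd (nat_lit 5) 
(.lf (nat_lit 75030) (.g (nat_lit 1617) (.e (nat_lit 1788) (nat_lit 119) (.e (nat_lit 516163) (nat_lit 11) (.e (nat_lit 442424) (nat_lit 22) (.e (nat_lit 196617) (nat_lit 9) .nil)))) .nil)) 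
(.lf (nat_lit 75062) (.g (nat_lit 1914) (.e (nat_lit 1788) (nat_lit 119) (.e (nat_lit 516165) (nat_lit 12) (.e (nat_lit 450579) (nat_lit 5) (.e (nat_lit 532526) (nat_lit 8) (.e (nat_lit 327716) (nat_lit 16) .nil))))) .nil)))) (.nd (nat_lit 4) (.nd (nat_lit 5) 
(.lf (nat_lit 75022) (.g (nat_lit 2869) (.e (nat_lit 1788) (nat_lit 119) (.e (nat_lit 516159) (nat_lit 10) (.e (nat_lit 434244) (nat_lit 28) (.e (nat_lit 573487) (nat_lit 14) (.e (nat_lit 81664) (nat_lit 5) (.e (nat_lit 532490) (nat_lit 0) (.e (nat_lit 7936) (nat_lit 152) (.e (nat_lit 786447) (nat_lit 15) .nil)))))))) (.g (nat_lit 4) .nil .nil))) 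
(.lf (nat_lit 75054) (.g (nat_lit 3954) (.e (nat_lit 1788) (nat_lit 119) (.e (nat_lit 516165) (nat_lit 12) (.e (nat_lit 450579) (nat_lit 5) (.e (nat_lit 532522) (nat_lit 7) (.e (nat_lit 319531) (nat_lit 16) (.e (nat_lit 286728) (nat_lit 0) .nil)))))) (.g (nat_lit 6) .nil .nil)))) (.nd (nat_lit 5) 
(.lf (nat_lit 75038) (.g (nat_lit 3092) (.e (nat_lit 1788) (nat_lit 119) (.e (nat_lit 516163) (nat_lit 11) (.e (nat_lit 442426) (nat_lit 23) (.e (nat_lit 204846) (nat_lit 24) (.e (nat_lit 319533) (nat_lit 16) (.e (nat_lit 286720) (nat_lit 0) .nil)))))) (.g (nat_lit 5) .nil .nil))) 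
(.lf (nat_lit 75070) (.g (nat_lit 3740) (.e (nat_lit 1788) (nat_lit 119) (.e (nat_lit 516165) (nat_lit 12) (.e (nat_lit 450581) (nat_lit 5) (.e (nat_lit 532523) (nat_lit 7) (.e (nat_lit 319534) (nat_lit 16) (.e (nat_lit 286728) (nat_lit 0) .nil)))))) (.g (nat_lit 6) .nil .nil)))))))) (.nd (nat_lit 1) (.nd (nat_lit 2) (.nd (nat_lit 3) (.nd (nat_lit 4) (.nd (nat_lit 5) 
(.lf (nat_lit 75009) (.g (nat_lit 2108) (.e (nat_lit 1788) (nat_lit 119) (.e (nat_lit 516151) (nat_lit 9) (.e (nat_lit 426338) (nat_lit 14) (.e (nat_lit 491539) (nat_lit 3) .nil)))) .nil)) 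
(.lf (nat_lit 75041) (.g (nat_lit 2808) (.e (nat_lit 1788) (nat_lit 119) (.e (nat_lit 516163) (nat_lit 11) (.e (nat_lit 442426) (nat_lit 23) (.e (nat_lit 204846) (nat_lit 24) (.e (nat_lit 319534) (nat_lit 16) (.e (nat_lit 286720) (nat_lit 0) .nil)))))) (.g (nat_lit 5) .nil .nil)))) (.nd (nat_lit 5) 
(.lf (nat_lit 75025) (.g (nat_lit 2080) (.e (nat_lit 1788) (nat_lit 119) (.e (nat_lit 516159) (nat_lit 10) (.e (nat_lit 434248) (nat_lit 28) (.e (nat_lit 573489) (nat_lit 14) (.e (nat_lit 81664) (nat_lit 5) (.e (nat_lit 532490) (nat_lit 0) (.e (nat_lit 7936) (nat_lit 152) (.e (nat_lit 786447) (nat_lit 15) .nil)))))))) (.g (nat_lit 4) .nil .nil))) 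
(.lf (nat_lit 75057) (.g (nat_lit 4048) (.e (nat_lit 1788) (nat_lit 119) (.e (nat_lit 516165) (nat_lit 12) (.e (nat_lit 450579) (nat_lit 5) (.e (nat_lit 532523) (nat_lit 7) (.e (nat_lit 319533) (nat_lit 16) (.e (nat_lit 286720) (nat_lit 0) .nil)))))) (.g (nat_lit 5) .nil .nil))))) (.nd (nat_lit 4) (.nd (nat_lit 5) 
(.lf (nat_lit 75017) (.g (nat_lit 4000) (.e (nat_lit 1788) (nat_lit 119) (.e (nat_lit 516151) (nat_lit 9) (.e (nat_lit 426412) (nat_lit 15) (.e (nat_lit 1800) (nat_lit 119) (.e (nat_lit 516179) (nat_lit 15) (.e (nat_lit 475177) (nat_lit 24) (.e (nat_lit 516148) (nat_lit 9) (.e (nat_lit 426402) (nat_lit 15) .nil)))))))) (.g (nat_lit 5) .nil .nil))) 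
(.lf (nat_lit 75049) (.g (nat_lit 3628) (.e (nat_lit 1788) (nat_lit 119) (.e (nat_lit 516163) (nat_lit 11) (.e (nat_lit 442427) (nat_lit 23) (.e (nat_lit 204846) (nat_lit 24) (.e (nat_lit 319533) (nat_lit 16) (.e (nat_lit 286720) (nat_lit 0) .nil)))))) (.g (nat_lit 5) .nil .nil)))) (.nd (nat_lit 5) 
(.lf (nat_lit 75033) (.g (nat_lit 1309) (.e (nat_lit 1788) (nat_lit 119) (.e (nat_lit 516163) (nat_lit 11) (.e (nat_lit 442424) (nat_lit 22) (.e (nat_lit 196661) (nat_lit 12) .nil)))) .nil)) 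
(.lf (nat_lit 75065) (.g (nat_lit 2293) (.e (nat_lit 1788) (nat_lit 119) (.e (nat_lit 516165) (nat_lit 12) (.e (nat_lit 450580) (nat_lit 5) (.e (nat_lit 532523) (nat_lit 7) (.e (nat_lit 319533) (nat_lit 16) (.e (nat_lit 286723) (nat_lit 0) .nil)))))) (.g (nat_lit 4) .nil .nil)))))) (.nd (nat_lit 3) (.nd (nat_lit 4) (.nd (nat_lit 5) 
(.lf (nat_lit 75013) (.g (nat_lit 3131) (.e (nat_lit 1788) (nat_lit 119) (.e (nat_lit 516151) (nat_lit 9) (.e (nat_lit 426338) (nat_lit 14) (.e (nat_lit 491540) (nat_lit 3) (.e (nat_lit 98365) (nat_lit 26) (.e (nat_lit 426343) (nat_lit 14) (.e (nat_lit 491526) (nat_lit 0) .nil))))))) (.g (nat_lit 4) .nil .nil))) 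
(.lf (nat_lit 75045) (.g (nat_lit 3979) (.e (nat_lit 1788) (nat_lit 119) (.e (nat_lit 516163) (nat_lit 11) (.e (nat_lit 442427) (nat_lit 23) (.e (nat_lit 204845) (nat_lit 24) (.e (nat_lit 319533) (nat_lit 16) (.e (nat_lit 286720) (nat_lit 0) .nil)))))) (.g (nat_lit 6) .nil .nil)))) (.nd (nat_lit 5) 
(.lf (nat_lit 75029) (.g (nat_lit 859) (.e (nat_lit 1788) (nat_lit 119) (.e (nat_lit 516163) (nat_lit 11) (.e (nat_lit 442424) (nat_lit 22) (.e (nat_lit 204544) (nat_lit 0) .nil)))) .nil)) 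
(.lf (nat_lit 75061) (.g (nat_lit 5467) (.e (nat_lit 1788) (nat_lit 119) (.e (nat_lit 516165) (nat_lit 12) (.e (nat_lit 450579) (nat_lit 5) (.e (nat_lit 532523) (nat_lit 7) (.e (nat_lit 319534) (nat_lit 16) (.e (nat_lit 286728) (nat_lit 0) .nil)))))) (.g (nat_lit 6) .nil .nil))))) (.nd (nat_lit 4) (.nd (nat_lit 5) 
(.lf (nat_lit 75021) (.g (nat_lit 768) (.e (nat_lit 1788) (nat_lit 119) (.e (nat_lit 516151) (nat_lit 9) (.e (nat_lit 433920) (nat_lit 24) .nil))) .nil)) 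
(.lf (nat_lit 75053) (.g (nat_lit 399) (.e (nat_lit 1788) (nat_lit 119) (.e (nat_lit 516165) (nat_lit 12) (.e (nat_lit 450579) (nat_lit 5) .nil))) .nil))) (.nd (nat_lit 5) 
(.lf (nat_lit 75037) (.g (nat_lit 3165) (.e (nat_lit 1788) (nat_lit 119) (.e (nat_lit 516163) (nat_lit 11) (.e (nat_lit 442425) (nat_lit 23) (.e (nat_lit 204846) (nat_lit 24) (.e (nat_lit 319534) (nat_lit 16) (.e (nat_lit 286728) (nat_lit 0) .nil)))))) (.g (nat_lit 5) .nil .nil))) 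
(.lf (nat_lit 75069) (.g (nat_lit 2028) (.e (nat_lit 1788) (nat_lit 119) (.e (nat_lit 516165) (nat_lit 12) (.e (nat_lit 450581) (nat_lit 5) (.e (nat_lit 532523) (nat_lit 7) (.e (nat_lit 319533) (nat_lit 16) (.e (nat_lit 286720) (nat_lit 0) .nil)))))) (.g (nat_lit 4) .nil .nil))))))) (.nd (nat_lit 2) (.nd (nat_lit 3) (.nd (nat_lit 4) (.nd (nat_lit 5) 
(.lf (nat_lit 75011) (.g (nat_lit 3172) (.e (nat_lit 1788) (nat_lit 119) (.e (nat_lit 516151) (nat_lit 9) (.e (nat_lit 426338) (nat_lit 14) (.e (nat_lit 491540) (nat_lit 3) (.e (nat_lit 98365) (nat_lit 26) (.e (nat_lit 426341) (nat_lit 14) (.e (nat_lit 491526) (nat_lit 0) .nil))))))) (.g (nat_lit 4) .nil .nil))) 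
(.lf (nat_lit 75043) (.g (nat_lit 3734) (.e (nat_lit 1788) (nat_lit 119) (.e (nat_lit 516163) (nat_lit 11) (.e (nat_lit 442427) (nat_lit 23) (.e (nat_lit 204845) (nat_lit 24) (.e (nat_lit 319531) (nat_lit 16) (.e (nat_lit 286720) (nat_lit 0) .nil)))))) (.g (nat_lit 5) .nil .nil)))) (.nd (nat_lit 5) 
(.lf (nat_lit 75027) (.g (nat_lit 2737) (.e (nat_lit 1788) (nat_lit 119) (.e (nat_lit 516162) (nat_lit 11) (.e (nat_lit 442427) (nat_lit 23) (.e (nat_lit 204846) (nat_lit 24) (.e (nat_lit 319534) (nat_lit 16) (.e (nat_lit 286728) (nat_lit 0) .nil)))))) (.g (nat_lit 5) .nil .nil))) 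
(.lf (nat_lit 75059) (.g (nat_lit 4416) (.e (nat_lit 1788) (nat_lit 119) (.e (nat_lit 516165) (nat_lit 12) (.e (nat_lit 450579) (nat_lit 5) (.e (nat_lit 532523) (nat_lit 7) (.e (nat_lit 319533) (nat_lit 16) (.e (nat_lit 286724) (nat_lit 0) .nil)))))) (.g (nat_lit 0) .nil .nil))))) (.nd (nat_lit 4) (.nd (nat_lit 5) 
(.lf (nat_lit 75019) (.g (nat_lit 3000) (.e (nat_lit 1788) (nat_lit 119) (.e (nat_lit 516151) (nat_lit 9) (.e (nat_lit 433920) (nat_lit 18) (.e (nat_lit 98386) (nat_lit 32) (.e (nat_lit 475177) (nat_lit 24) (.e (nat_lit 516148) (nat_lit 9) (.e (nat_lit 426402) (nat_lit 15) .nil))))))) (.g (nat_lit 5) .nil .nil))) 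
(.lf (nat_lit 75051) (.g (nat_lit 3514) (.e (nat_lit 1788) (nat_lit 119) (.e (nat_lit 516163) (nat_lit 11) (.e (nat_lit 442427) (nat_lit 23) (.e (nat_lit 204846) (nat_lit 24) (.e (nat_lit 319534) (nat_lit 16) (.e (nat_lit 286720) (nat_lit 0) .nil)))))) (.g (nat_lit 5) .nil .nil)))) (.nd (nat_lit 5) 
(.lf (nat_lit 75035) (.g (nat_lit 2671) (.e (nat_lit 1788) (nat_lit 119) (.e (nat_lit 516163) (nat_lit 11) (.e (nat_lit 442424) (nat_lit 22) (.e (nat_lit 196661) (nat_lit 12) (.e (nat_lit 57712) (nat_lit 176) (.e (nat_lit 1370) (nat_lit 103) (.e (nat_lit 294917) (nat_lit 0) .nil))))))) (.g (nat_lit 4) .nil .nil))) 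
(.lf (nat_lit 75067) (.g (nat_lit 3058) (.e (nat_lit 1788) (nat_lit 119) (.e (nat_lit 516165) (nat_lit 12) (.e (nat_lit 450580) (nat_lit 5) (.e (nat_lit 532523) (nat_lit 7) (.e (nat_lit 319534) (nat_lit 16) (.e (nat_lit 286720) (nat_lit 0) .nil)))))) (.g (nat_lit 5) .nil .nil)))))) (.nd (nat_lit 3) (.nd (nat_lit 4) (.nd (nat_lit 5) 
(.lf (nat_lit 75015) (.g (nat_lit 4648) (.e (nat_lit 1788) (nat_lit 119) (.e (nat_lit 516151) (nat_lit 9) (.e (nat_lit 426412) (nat_lit 15) (.e (nat_lit 1800) (nat_lit 119) (.e (nat_lit 516146) (nat_lit 9) (.e (nat_lit 426438) (nat_lit 18) (.e (nat_lit 98358) (nat_lit 26) (.e (nat_lit 426402) (nat_lit 15) .nil)))))))) (.g (nat_lit 6) .nil .nil))) 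
(.lf (nat_lit 75047) (.g (nat_lit 2384) (.e (nat_lit 1788) (nat_lit 119) (.e (nat_lit 516163) (nat_lit 11) (.e (nat_lit 442427) (nat_lit 23) (.e (nat_lit 204845) (nat_lit 24) (.e (nat_lit 319534) (nat_lit 16) (.e (nat_lit 286728) (nat_lit 0) .nil)))))) (.g (nat_lit 4) .nil .nil)))) (.nd (nat_lit 5) 
(.lf (nat_lit 75031) (.g (nat_lit 3043) (.e (nat_lit 1788) (nat_lit 119) (.e (nat_lit 516163) (nat_lit 11) (.e (nat_lit 442424) (nat_lit 22) (.e (nat_lit 196626) (nat_lit 9) (.e (nat_lit 1400) (nat_lit 106) (.e (nat_lit 319533) (nat_lit 16) (.e (nat_lit 286725) (nat_lit 0) .nil))))))) (.g (nat_lit 4) .nil .nil))) 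
(.lf (nat_lit 75063) (.g (nat_lit 3469) (.e (nat_lit 1788) (nat_lit 119) (.e (nat_lit 516165) (nat_lit 12) (.e (nat_lit 450579) (nat_lit 5) (.e (nat_lit 532526) (nat_lit 8) (.e (nat_lit 327716) (nat_lit 16) (.e (nat_lit 286720) (nat_lit 0) .nil)))))) (.g (nat_lit 5) .nil .nil))))) (.nd (nat_lit 4) (.nd (nat_lit 5) 
(.lf (nat_lit 75023) (.g (nat_lit 1656) (.e (nat_lit 1788) (nat_lit 119) (.e (nat_lit 516159) (nat_lit 10) (.e (nat_lit 434245) (nat_lit 28) (.e (nat_lit 573487) (nat_lit 14) (.e (nat_lit 81664) (nat_lit 5) (.e (nat_lit 532490) (nat_lit 0) (.e (nat_lit 7936) (nat_lit 152) (.e (nat_lit 786447) (nat_lit 15) .nil)))))))) (.g (nat_lit 4) .nil .nil))) 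
(.lf (nat_lit 75055) (.g (nat_lit 2720) (.e (nat_lit 1788) (nat_lit 119) (.e (nat_lit 516165) (nat_lit 12) (.e (nat_lit 450579) (nat_lit 5) (.e (nat_lit 532523) (nat_lit 7) (.e (nat_lit 319531) (nat_lit 16) (.e (nat_lit 286728) (nat_lit 0) .nil)))))) (.g (nat_lit 4) .nil .nil)))) (.nd (nat_lit 5) 
(.lf (nat_lit 75039) (.g (nat_lit 3479) (.e (nat_lit 1788) (nat_lit 119) (.e (nat_lit 516163) (nat_lit 11) (.e (nat_lit 442426) (nat_lit 23) (.e (nat_lit 204846) (nat_lit 24) (.e (nat_lit 319533) (nat_lit 16) (.e (nat_lit 286724) (nat_lit 0) .nil)))))) (.g (nat_lit 6) .nil .nil))) 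
(.lf (nat_lit 75071) (.g (nat_lit 3942) (.e (nat_lit 1788) (nat_lit 119) (.e (nat_lit 516165) (nat_lit 12) (.e (nat_lit 450586) (nat_lit 10) (.e (nat_lit 573469) (nat_lit 11) (.e (nat_lit 16472) (nat_lit 14) (.e (nat_lit 491526) (nat_lit 0) .nil)))))) (.g (nat_lit 6) .nil .nil)))))))))

noncomputable def tv1016 : DT := (.nd (nat_lit 0) (.nd (nat_lit 1) (.nd (nat_lit 2) (.nd (nat_lit 3) (.nd (nat_lit 4) (.nd (nat_lit 5) 
(.lf (nat_lit 75072) (.g (nat_lit 3723) (.e (nat_lit 1788) (nat_lit 119) (.e (nat_lit 516165) (nat_lit 12) (.e (nat_lit 450586) (nat_lit 10) (.e (nat_lit 573469) (nat_lit 11) (.e (nat_lit 16473) (nat_lit 14) (.e (nat_lit 491520) (nat_lit 0) .nil)))))) (.g (nat_lit 6) .nil .nil))) 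
(.lf (nat_lit 75104) (.g (nat_lit 2348) (.e (nat_lit 1788) (nat_lit 119) (.e (nat_lit 516165) (nat_lit 12) (.e (nat_lit 450587) (nat_lit 10) (.e (nat_lit 573469) (nat_lit 11) (.e (nat_lit 16473) (nat_lit 14) (.e (nat_lit 491525) (nat_lit 0) .nil)))))) (.g (nat_lit 4) .nil .nil)))) (.nd (nat_lit 5) 
(.lf (nat_lit 75088) (.g (nat_lit 4160) (.e (nat_lit 1788) (nat_lit 119) (.e (nat_lit 516165) (nat_lit 12) (.e (nat_lit 450586) (nat_lit 10) (.e (nat_lit 573475) (nat_lit 12) (.e (nat_lit 57574) (nat_lit 55) (.e (nat_lit 778466) (nat_lit 11) (.e (nat_lit 24588) (nat_lit 0) .nil))))))) (.g (nat_lit 6) .nil .nil))) 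
(.lf (nat_lit 75120) (.g (nat_lit 1726) (.e (nat_lit 1788) (nat_lit 119) (.e (nat_lit 516165) (nat_lit 12) (.e (nat_lit 450588) (nat_lit 10) (.e (nat_lit 573471) (nat_lit 11) .nil)))) .nil)))) (.nd (nat_lit 4) (.nd (nat_lit 5) 
(.lf (nat_lit 75080) (.g (nat_lit 2011) (.e (nat_lit 1788) (nat_lit 119) (.e (nat_lit 516165) (nat_lit 12) (.e (nat_lit 450586) (nat_lit 10) (.e (nat_lit 573473) (nat_lit 12) (.e (nat_lit 57353) (nat_lit 0) (.e (nat_lit 7265) (nat_lit 384) (.e (nat_lit 57406) (nat_lit 12) (.e (nat_lit 335971) (nat_lit 0) .nil)))))))) (.g (nat_lit 4) .nil .nil))) 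
(.lf (nat_lit 75112) (.g (nat_lit 4386) (.e (nat_lit 1788) (nat_lit 119) (.e (nat_lit 516165) (nat_lit 12) (.e (nat_lit 450588) (nat_lit 10) (.e (nat_lit 573469) (nat_lit 11) (.e (nat_lit 16472) (nat_lit 14) (.e (nat_lit 491526) (nat_lit 0) .nil)))))) (.g (nat_lit 4) .nil .nil)))) (.nd (nat_lit 5) 
(.lf (nat_lit 75096) (.g (nat_lit 2902) (.e (nat_lit 1788) (nat_lit 119) (.e (nat_lit 516165) (nat_lit 12) (.e (nat_lit 450586) (nat_lit 10) (.e (nat_lit 573477) (nat_lit 12) (.e (nat_lit 57575) (nat_lit 55) (.e (nat_lit 778463) (nat_lit 11) (.e (nat_lit 24588) (nat_lit 0) .nil))))))) (.g (nat_lit 5) .nil .nil))) 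
(.lf (nat_lit 75128) (.g (nat_lit 3539) (.e (nat_lit 1788) (nat_lit 119) (.e (nat_lit 516165) (nat_lit 12) (.e (nat_lit 450588) (nat_lit 10) (.e (nat_lit 573474) (nat_lit 12) .nil)))) .nil))))) (.nd (nat_lit 3) (.nd (nat_lit 4) (.nd (nat_lit 5) 
(.lf (nat_lit 75076) (.g (nat_lit 4212) (.e (nat_lit 1788) (nat_lit 119) (.e (nat_lit 516165) (nat_lit 12) (.e (nat_lit 450586) (nat_lit 10) (.e (nat_lit 573471) (nat_lit 11) (.e (nat_lit 16473) (nat_lit 14) (.e (nat_lit 491520) (nat_lit 0) .nil)))))) (.g (nat_lit 0) .nil .nil))) 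
(.lf (nat_lit 75108) (.g (nat_lit 2779) (.e (nat_lit 1788) (nat_lit 119) (.e (nat_lit 516165) (nat_lit 12) (.e (nat_lit 450587) (nat_lit 10) (.e (nat_lit 573477) (nat_lit 12) (.e (nat_lit 57574) (nat_lit 55) (.e (nat_lit 778466) (nat_lit 11) (.e (nat_lit 24588) (nat_lit 0) .nil))))))) (.g (nat_lit 4) .nil .nil)))) (.nd (nat_lit 5) 
(.lf (nat_lit 75092) (.g (nat_lit 3398) (.e (nat_lit 1788) (nat_lit 119) (.e (nat_lit 516165) (nat_lit 12) (.e (nat_lit 450586) (nat_lit 10) (.e (nat_lit 573477) (nat_lit 12) (.e (nat_lit 57574) (nat_lit 55) (.e (nat_lit 778465) (nat_lit 11) (.e (nat_lit 24588) (nat_lit 0) .nil))))))) (.g (nat_lit 6) .nil .nil))) 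
(.lf (nat_lit 75124) (.g (nat_lit 4441) (.e (nat_lit 1788) (nat_lit 119) (.e (nat_lit 516165) (nat_lit 12) (.e (nat_lit 450588) (nat_lit 10) (.e (nat_lit 573471) (nat_lit 11) (.e (nat_lit 16473) (nat_lit 14) (.e (nat_lit 491520) (nat_lit 0) .nil)))))) (.g (nat_lit 5) .nil .nil))))) (.nd (nat_lit 4) (.nd (nat_lit 5) 
(.lf (nat_lit 75084) (.g (nat_lit 2993) (.e (nat_lit 1788) (nat_lit 119) (.e (nat_lit 516165) (nat_lit 12) (.e (nat_lit 450586) (nat_lit 10) (.e (nat_lit 573475) (nat_lit 12) (.e (nat_lit 57574) (nat_lit 55) (.e (nat_lit 778464) (nat_lit 11) (.e (nat_lit 24588) (nat_lit 0) .nil))))))) (.g (nat_lit 5) .nil .nil))) 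
(.lf (nat_lit 75116) (.g (nat_lit 1813) (.e (nat_lit 1788) (nat_lit 119) (.e (nat_lit 516165) (nat_lit 12) (.e (nat_lit 450588) (nat_lit 10) (.e (nat_lit 573470) (nat_lit 11) .nil)))) .nil))) (.nd (nat_lit 5) 
(.lf (nat_lit 75100) (.g (nat_lit 2673) (.e (nat_lit 1788) (nat_lit 119) (.e (nat_lit 516165) (nat_lit 12) (.e (nat_lit 450586) (nat_lit 10) (.e (nat_lit 573478) (nat_lit 12) (.e (nat_lit 57574) (nat_lit 55) (.e (nat_lit 778466) (nat_lit 11) (.e (nat_lit 24576) (nat_lit 0) .nil))))))) (.g (nat_lit 6) .nil .nil))) 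
(.lf (nat_lit 75132) (.g (nat_lit 4138) (.e (nat_lit 1788) (nat_lit 119) (.e (nat_lit 516165) (nat_lit 12) (.e (nat_lit 450588) (nat_lit 10) (.e (nat_lit 573475) (nat_lit 12) (.e (nat_lit 57574) (nat_lit 55) (.e (nat_lit 778466) (nat_lit 11) (.e (nat_lit 24588) (nat_lit 0) .nil))))))) (.g (nat_lit 5) .nil .nil))))))) (.nd (nat_lit 2) (.nd (nat_lit 3) (.nd (nat_lit 4) (.nd (nat_lit 5) 
(.lf (nat_lit 75074) (.g (nat_lit 3801) (.e (nat_lit 1788) (nat_lit 119) (.e (nat_lit 516165) (nat_lit 12) (.e (nat_lit 450586) (nat_lit 10) (.e (nat_lit 573470) (nat_lit 11) (.e (nat_lit 16472) (nat_lit 14) (.e (nat_lit 491526) (nat_lit 0) .nil)))))) (.g (nat_lit 0) .nil .nil))) 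
(.lf (nat_lit 75106) (.g (nat_lit 2628) (.e (nat_lit 1788) (nat_lit 119) (.e (nat_lit 516165) (nat_lit 12) (.e (nat_lit 450587) (nat_lit 10) (.e (nat_lit 573475) (nat_lit 12) .nil)))) .nil))) (.nd (nat_lit 5) 
(.lf (nat_lit 75090) (.g (nat_lit 2640) (.e (nat_lit 1788) (nat_lit 119) (.e (nat_lit 516165) (nat_lit 12) (.e (nat_lit 450586) (nat_lit 10) (.e (nat_lit 573477) (nat_lit 12) (.e (nat_lit 57574) (nat_lit 55) (.e (nat_lit 778464) (nat_lit 11) (.e (nat_lit 24588) (nat_lit 0) .nil))))))) (.g (nat_lit 5) .nil .nil))) 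
(.lf (nat_lit 75122) (.g (nat_lit 4021) (.e (nat_lit 1788) (nat_lit 119) (.e (nat_lit 516165) (nat_lit 12) (.e (nat_lit 450588) (nat_lit 10) (.e (nat_lit 573471) (nat_lit 11) (.e (nat_lit 16471) (nat_lit 14) (.e (nat_lit 491526) (nat_lit 0) .nil)))))) (.g (nat_lit 4) .nil .nil))))) (.nd (nat_lit 4) (.nd (nat_lit 5) 
(.lf (nat_lit 75082) (.g (nat_lit 2381) (.e (nat_lit 1788) (nat_lit 119) (.e (nat_lit 516165) (nat_lit 12) (.e (nat_lit 450586) (nat_lit 10) (.e (nat_lit 573475) (nat_lit 12) (.e (nat_lit 57569) (nat_lit 53) .nil))))) .nil)) 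
(.lf (nat_lit 75114) (.g (nat_lit 4363) (.e (nat_lit 1788) (nat_lit 119) (.e (nat_lit 516165) (nat_lit 12) (.e (nat_lit 450588) (nat_lit 10) (.e (nat_lit 573469) (nat_lit 11) (.e (nat_lit 16473) (nat_lit 14) (.e (nat_lit 491525) (nat_lit 0) .nil)))))) (.g (nat_lit 4) .nil .nil)))) (.nd (nat_lit 5) 
(.lf (nat_lit 75098) (.g (nat_lit 2232) (.e (nat_lit 1788) (nat_lit 119) (.e (nat_lit 516165) (nat_lit 12) (.e (nat_lit 450586) (nat_lit 10) (.e (nat_lit 573478) (nat_lit 12) (.e (nat_lit 57574) (nat_lit 55) (.e (nat_lit 778465) (nat_lit 11) (.e (nat_lit 24576) (nat_lit 0) .nil))))))) (.g (nat_lit 5) .nil .nil))) 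
(.lf (nat_lit 75130) (.g (nat_lit 3784) (.e (nat_lit 1788) (nat_lit 119) (.e (nat_lit 516165) (nat_lit 12) (.e (nat_lit 450588) (nat_lit 10) (.e (nat_lit 573475) (nat_lit 12) (.e (nat_lit 57574) (nat_lit 55) (.e (nat_lit 778465) (nat_lit 11) (.e (nat_lit 24588) (nat_lit 0) .nil))))))) (.g (nat_lit 4) .nil .nil)))))) (.nd (nat_lit 3) (.nd (nat_lit 4) (.nd (nat_lit 5) 
(.lf (nat_lit 75078) (.g (nat_lit 1113) (.e (nat_lit 1788) (nat_lit 119) (.e (nat_lit 516165) (nat_lit 12) (.e (nat_lit 450586) (nat_lit 10) (.e (nat_lit 573473) (nat_lit 12) .nil)))) .nil)) 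
(.lf (nat_lit 75110) (.g (nat_lit 1307) (.e (nat_lit 1788) (nat_lit 119) (.e (nat_lit 516165) (nat_lit 12) (.e (nat_lit 450587) (nat_lit 10) (.e (nat_lit 573478) (nat_lit 12) .nil)))) .nil))) (.nd (nat_lit 5) 
(.lf (nat_lit 75094) (.g (nat_lit 3790) (.e (nat_lit 1788) (nat_lit 119) (.e (nat_lit 516165) (nat_lit 12) (.e (nat_lit 450586) (nat_lit 10) (.e (nat_lit 573477) (nat_lit 12) (.e (nat_lit 57574) (nat_lit 55) (.e (nat_lit 778466) (nat_lit 11) (.e (nat_lit 24588) (nat_lit 0) .nil))))))) (.g (nat_lit 6) .nil .nil))) 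
(.lf (nat_lit 75126) (.g (nat_lit 4859) (.e (nat_lit 1788) (nat_lit 119) (.e (nat_lit 516165) (nat_lit 12) (.e (nat_lit 450588) (nat_lit 10) (.e (nat_lit 573471) (nat_lit 11) (.e (nat_lit 16473) (nat_lit 14) (.e (nat_lit 491526) (nat_lit 0) .nil)))))) (.g (nat_lit 0) .nil .nil))))) (.nd (nat_lit 4) (.nd (nat_lit 5) 
(.lf (nat_lit 75086) (.g (nat_lit 3797) (.e (nat_lit 1788) (nat_lit 119) (.e (nat_lit 516165) (nat_lit 12) (.e (nat_lit 450586) (nat_lit 10) (.e (nat_lit 573475) (nat_lit 12) (.e (nat_lit 57574) (nat_lit 55) (.e (nat_lit 778465) (nat_lit 11) (.e (nat_lit 24588) (nat_lit 0) .nil))))))) (.g (nat_lit 6) .nil .nil))) 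
(.lf (nat_lit 75118) (.g (nat_lit 4751) (.e (nat_lit 1788) (nat_lit 119) (.e (nat_lit 516165) (nat_lit 12) (.e (nat_lit 450588) (nat_lit 10) (.e (nat_lit 573470) (nat_lit 11) (.e (nat_lit 16472) (nat_lit 14) (.e (nat_lit 491526) (nat_lit 0) .nil)))))) (.g (nat_lit 6) .nil .nil)))) (.nd (nat_lit 5) 
(.lf (nat_lit 75102) (.g (nat_lit 2667) (.e (nat_lit 1788) (nat_lit 119) (.e (nat_lit 516165) (nat_lit 12) (.e (nat_lit 450587) (nat_lit 10) (.e (nat_lit 573469) (nat_lit 11) (.e (nat_lit 16472) (nat_lit 14) (.e (nat_lit 491526) (nat_lit 0) .nil)))))) (.g (nat_lit 4) .nil .nil))) 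
(.lf (nat_lit 75134) (.g (nat_lit 1848) (.e (nat_lit 1788) (nat_lit 119) (.e (nat_lit 516166) (nat_lit 12) (.e (nat_lit 450562) (nat_lit 0) (.e (nat_lit 4186) (nat_lit 251) .nil)))) .nil))))))) (.nd (nat_lit 1) (.nd (nat_lit 2) (.nd (nat_lit 3) (.nd (nat_lit 4) (.nd (nat_lit 5) 
(.lf (nat_lit 75073) (.g (nat_lit 3699) (.e (nat_lit 1788) (nat_lit 119) (.e (nat_lit 516165) (nat_lit 12) (.e (nat_lit 450586) (nat_lit 10) (.e (nat_lit 573469) (nat_lit 11) (.e (nat_lit 16473) (nat_lit 14) (.e (nat_lit 491525) (nat_lit 0) .nil)))))) (.g (nat_lit 6) .nil .nil))) 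
(.lf (nat_lit 75105) (.g (nat_lit 2800) (.e (nat_lit 1788) (nat_lit 119) (.e (nat_lit 516165) (nat_lit 12) (.e (nat_lit 450587) (nat_lit 10) (.e (nat_lit 573469) (nat_lit 11) (.e (nat_lit 16473) (nat_lit 14) (.e (nat_lit 491526) (nat_lit 0) .nil)))))) (.g (nat_lit 5) .nil .nil)))) (.nd (nat_lit 5) 
(.lf (nat_lit 75089) (.g (nat_lit 3727) (.e (nat_lit 1788) (nat_lit 119) (.e (nat_lit 516165) (nat_lit 12) (.e (nat_lit 450586) (nat_lit 10) (.e (nat_lit 573475) (nat_lit 12) (.e (nat_lit 57574) (nat_lit 55) (.e (nat_lit 778466) (nat_lit 11) (.e (nat_lit 24589) (nat_lit 0) .nil))))))) (.g (nat_lit 6) .nil .nil))) 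
(.lf (nat_lit 75121) (.g (nat_lit 3283) (.e (nat_lit 1788) (nat_lit 119) (.e (nat_lit 516165) (nat_lit 12) (.e (nat_lit 450588) (nat_lit 10) (.e (nat_lit 573471) (nat_lit 11) (.e (nat_lit 16469) (nat_lit 14) .nil))))) .nil)))) (.nd (nat_lit 4) (.nd (nat_lit 5) 
(.lf (nat_lit 75081) (.g (nat_lit 2247) (.e (nat_lit 1788) (nat_lit 119) (.e (nat_lit 516165) (nat_lit 12) (.e (nat_lit 450586) (nat_lit 10) (.e (nat_lit 573474) (nat_lit 12) .nil)))) .nil)) 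
(.lf (nat_lit 75113) (.g (nat_lit 4314) (.e (nat_lit 1788) (nat_lit 119) (.e (nat_lit 516165) (nat_lit 12) (.e (nat_lit 450588) (nat_lit 10) (.e (nat_lit 573469) (nat_lit 11) (.e (nat_lit 16473) (nat_lit 14) (.e (nat_lit 491520) (nat_lit 0) .nil)))))) (.g (nat_lit 4) .nil .nil)))) (.nd (nat_lit 5) 
(.lf (nat_lit 75097) (.g (nat_lit 1189) (.e (nat_lit 1788) (nat_lit 119) (.e (nat_lit 516165) (nat_lit 12) (.e (nat_lit 450586) (nat_lit 10) (.e (nat_lit 573478) (nat_lit 12) .nil)))) .nil)) 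
(.lf (nat_lit 75129) (.g (nat_lit 4577) (.e (nat_lit 1788) (nat_lit 119) (.e (nat_lit 516165) (nat_lit 12) (.e (nat_lit 450588) (nat_lit 10) (.e (nat_lit 573474) (nat_lit 12) (.e (nat_lit 57572) (nat_lit 54) (.e (nat_lit 770072) (nat_lit 8) (.e (nat_lit 65550) (nat_lit 0) .nil))))))) (.g (nat_lit 4) .nil .nil)))))) (.nd (nat_lit 3) (.nd (nat_lit 4) (.nd (nat_lit 5) 
(.lf (nat_lit 75077) (.g (nat_lit 4208) (.e (nat_lit 1788) (nat_lit 119) (.e (nat_lit 516165) (nat_lit 12) (.e (nat_lit 450586) (nat_lit 10) (.e (nat_lit 573471) (nat_lit 11) (.e (nat_lit 16473) (nat_lit 14) (.e (nat_lit 491525) (nat_lit 0) .nil)))))) (.g (nat_lit 0) .nil .nil))) 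
(.lf (nat_lit 75109) (.g (nat_lit 2390) (.e (nat_lit 1788) (nat_lit 119) (.e (nat_lit 516165) (nat_lit 12) (.e (nat_lit 450587) (nat_lit 10) (.e (nat_lit 573477) (nat_lit 12) (.e (nat_lit 57574) (nat_lit 55) (.e (nat_lit 778466) (nat_lit 11) (.e (nat_lit 24589) (nat_lit 0) .nil))))))) (.g (nat_lit 4) .nil .nil)))) (.nd (nat_lit 5) 
(.lf (nat_lit 75093) (.g (nat_lit 2940) (.e (nat_lit 1788) (nat_lit 119) (.e (nat_lit 516165) (nat_lit 12) (.e (nat_lit 450586) (nat_lit 10) (.e (nat_lit 573477) (nat_lit 12) (.e (nat_lit 57574) (nat_lit 55) (.e (nat_lit 778466) (nat_lit 11) (.e (nat_lit 24576) (nat_lit 0) .nil))))))) (.g (nat_lit 6) .nil .nil))) 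
(.lf (nat_lit 75125) (.g (nat_lit 4164) (.e (nat_lit 1788) (nat_lit 119) (.e (nat_lit 516165) (nat_lit 12) (.e (nat_lit 450588) (nat_lit 10) (.e (nat_lit 573471) (nat_lit 11) (.e (nat_lit 16473) (nat_lit 14) (.e (nat_lit 491525) (nat_lit 0) .nil)))))) (.g (nat_lit 6) .nil .nil))))) (.nd (nat_lit 4) (.nd (nat_lit 5) 
(.lf (nat_lit 75085) (.g (nat_lit 2807) (.e (nat_lit 1788) (nat_lit 119) (.e (nat_lit 516165) (nat_lit 12) (.e (nat_lit 450586) (nat_lit 10) (.e (nat_lit 573475) (nat_lit 12) (.e (nat_lit 57574) (nat_lit 55) (.e (nat_lit 778465) (nat_lit 11) (.e (nat_lit 24576) (nat_lit 0) .nil))))))) (.g (nat_lit 5) .nil .nil))) 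
(.lf (nat_lit 75117) (.g (nat_lit 3141) (.e (nat_lit 1788) (nat_lit 119) (.e (nat_lit 516165) (nat_lit 12) (.e (nat_lit 450588) (nat_lit 10) (.e (nat_lit 573470) (nat_lit 11) (.e (nat_lit 16471) (nat_lit 14) .nil))))) .nil))) (.nd (nat_lit 5) 
(.lf (nat_lit 75101) (.g (nat_lit 3180) (.e (nat_lit 1788) (nat_lit 119) (.e (nat_lit 516165) (nat_lit 12) (.e (nat_lit 450586) (nat_lit 10) (.e (nat_lit 573478) (nat_lit 12) (.e (nat_lit 57574) (nat_lit 55) (.e (nat_lit 778466) (nat_lit 11) (.e (nat_lit 24589) (nat_lit 0) .nil))))))) (.g (nat_lit 6) .nil .nil))) 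
(.lf (nat_lit 75133) (.g (nat_lit 3720) (.e (nat_lit 1788) (nat_lit 119) (.e (nat_lit 516165) (nat_lit 12) (.e (nat_lit 450588) (nat_lit 10) (.e (nat_lit 573475) (nat_lit 12) (.e (nat_lit 57574) (nat_lit 55) (.e (nat_lit 778466) (nat_lit 11) (.e (nat_lit 24589) (nat_lit 0) .nil))))))) (.g (nat_lit 4) .nil .nil))))))) (.nd (nat_lit 2) (.nd (nat_lit 3) (.nd (nat_lit 4) (.nd (nat_lit 5) 
(.lf (nat_lit 75075) (.g (nat_lit 4034) (.e (nat_lit 1788) (nat_lit 119) (.e (nat_lit 516165) (nat_lit 12) (.e (nat_lit 450586) (nat_lit 10) (.e (nat_lit 573471) (nat_lit 11) (.e (nat_lit 16472) (nat_lit 14) (.e (nat_lit 491526) (nat_lit 0) .nil)))))) (.g (nat_lit 6) .nil .nil))) 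
(.lf (nat_lit 75107) (.g (nat_lit 2399) (.e (nat_lit 1788) (nat_lit 119) (.e (nat_lit 516165) (nat_lit 12) (.e (nat_lit 450587) (nat_lit 10) (.e (nat_lit 573477) (nat_lit 12) (.e (nat_lit 57574) (nat_lit 55) (.e (nat_lit 778465) (nat_lit 11) (.e (nat_lit 24588) (nat_lit 0) .nil))))))) (.g (nat_lit 4) .nil .nil)))) (.nd (nat_lit 5) 
(.lf (nat_lit 75091) (.g (nat_lit 2496) (.e (nat_lit 1788) (nat_lit 119) (.e (nat_lit 516165) (nat_lit 12) (.e (nat_lit 450586) (nat_lit 10) (.e (nat_lit 573477) (nat_lit 12) (.e (nat_lit 57574) (nat_lit 55) (.e (nat_lit 778465) (nat_lit 11) (.e (nat_lit 24576) (nat_lit 0) .nil))))))) (.g (nat_lit 5) .nil .nil))) 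
(.lf (nat_lit 75123) (.g (nat_lit 4310) (.e (nat_lit 1788) (nat_lit 119) (.e (nat_lit 516165) (nat_lit 12) (.e (nat_lit 450588) (nat_lit 10) (.e (nat_lit 573471) (nat_lit 11) (.e (nat_lit 16472) (nat_lit 14) (.e (nat_lit 491526) (nat_lit 0) .nil)))))) (.g (nat_lit 5) .nil .nil))))) (.nd (nat_lit 4) (.nd (nat_lit 5) 
(.lf (nat_lit 75083) (.g (nat_lit 2334) (.e (nat_lit 1788) (nat_lit 119) (.e (nat_lit 516165) (nat_lit 12) (.e (nat_lit 450586) (nat_lit 10) (.e (nat_lit 573475) (nat_lit 12) (.e (nat_lit 57574) (nat_lit 55) (.e (nat_lit 778463) (nat_lit 11) (.e (nat_lit 24588) (nat_lit 0) .nil))))))) (.g (nat_lit 4) .nil .nil))) 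
(.lf (nat_lit 75115) (.g (nat_lit 4748) (.e (nat_lit 1788) (nat_lit 119) (.e (nat_lit 516165) (nat_lit 12) (.e (nat_lit 450588) (nat_lit 10) (.e (nat_lit 573469) (nat_lit 11) (.e (nat_lit 16473) (nat_lit 14) (.e (nat_lit 491526) (nat_lit 0) .nil)))))) (.g (nat_lit 5) .nil .nil)))) (.nd (nat_lit 5) 
(.lf (nat_lit 75099) (.g (nat_lit 3243) (.e (nat_lit 1788) (nat_lit 119) (.e (nat_lit 516165) (nat_lit 12) (.e (nat_lit 450586) (nat_lit 10) (.e (nat_lit 573478) (nat_lit 12) (.e (nat_lit 57574) (nat_lit 55) (.e (nat_lit 778465) (nat_lit 11) (.e (nat_lit 24588) (nat_lit 0) .nil))))))) (.g (nat_lit 6) .nil .nil))) 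
(.lf (nat_lit 75131) (.g (nat_lit 3212) (.e (nat_lit 1788) (nat_lit 119) (.e (nat_lit 516165) (nat_lit 12) (.e (nat_lit 450588) (nat_lit 10) (.e (nat_lit 573475) (nat_lit 12) (.e (nat_lit 57574) (nat_lit 55) (.e (nat_lit 778466) (nat_lit 11) (.e (nat_lit 24576) (nat_lit 0) .nil))))))) (.g (nat_lit 4) .nil .nil)))))) (.nd (nat_lit 3) (.nd (nat_lit 4) (.nd (nat_lit 5) 
(.lf (nat_lit 75079) (.g (nat_lit 2049) (.e (nat_lit 1788) (nat_lit 119) (.e (nat_lit 516165) (nat_lit 12) (.e (nat_lit 450586) (nat_lit 10) (.e (nat_lit 573473) (nat_lit 12) (.e (nat_lit 57348) (nat_lit 0) (.e (nat_lit 7265) (nat_lit 384) (.e (nat_lit 57406) (nat_lit 12) (.e (nat_lit 335971) (nat_lit 0) .nil)))))))) (.g (nat_lit 4) .nil .nil))) 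
(.lf (nat_lit 75111) (.g (nat_lit 2785) (.e (nat_lit 1788) (nat_lit 119) (.e (nat_lit 516165) (nat_lit 12) (.e (nat_lit 450588) (nat_lit 10) (.e (nat_lit 573469) (nat_lit 11) .nil)))) .nil))) (.nd (nat_lit 5) 
(.lf (nat_lit 75095) (.g (nat_lit 3386) (.e (nat_lit 1788) (nat_lit 119) (.e (nat_lit 516165) (nat_lit 12) (.e (nat_lit 450586) (nat_lit 10) (.e (nat_lit 573477) (nat_lit 12) (.e (nat_lit 57574) (nat_lit 55) (.e (nat_lit 778466) (nat_lit 11) (.e (nat_lit 24589) (nat_lit 0) .nil))))))) (.g (nat_lit 6) .nil .nil))) 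
(.lf (nat_lit 75127) (.g (nat_lit 2055) (.e (nat_lit 1788) (nat_lit 119) (.e (nat_lit 516165) (nat_lit 12) (.e (nat_lit 450588) (nat_lit 10) (.e (nat_lit 573473) (nat_lit 12) .nil)))) .nil)))) (.nd (nat_lit 4) (.nd (nat_lit 5) 
(.lf (nat_lit 75087) (.g (nat_lit 3234) (.e (nat_lit 1788) (nat_lit 119) (.e (nat_lit 516165) (nat_lit 12) (.e (nat_lit 450586) (nat_lit 10) (.e (nat_lit 573475) (nat_lit 12) (.e (nat_lit 57574) (nat_lit 55) (.e (nat_lit 778466) (nat_lit 11) (.e (nat_lit 24576) (nat_lit 0) .nil))))))) (.g (nat_lit 6) .nil .nil))) 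
(.lf (nat_lit 75119) (.g (nat_lit 4491) (.e (nat_lit 1788) (nat_lit 119) (.e (nat_lit 516165) (nat_lit 12) (.e (nat_lit 450588) (nat_lit 10) (.e (nat_lit 573470) (nat_lit 11) (.e (nat_lit 16473) (nat_lit 14) (.e (nat_lit 491526) (nat_lit 0) .nil)))))) (.g (nat_lit 6) .nil .nil)))) (.nd (nat_lit 5) 
(.lf (nat_lit 75103) (.g (nat_lit 2285) (.e (nat_lit 1788) (nat_lit 119) (.e (nat_lit 516165) (nat_lit 12) (.e (nat_lit 450587) (nat_lit 10) (.e (nat_lit 573469) (nat_lit 11) (.e (nat_lit 16473) (nat_lit 14) (.e (nat_lit 491520) (nat_lit 0) .nil)))))) (.g (nat_lit 4) .nil .nil))) 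
(.lf (nat_lit 75135) (.g (nat_lit 1511) (.e (nat_lit 1788) (nat_lit 119) (.e (nat_lit 516166) (nat_lit 12) (.e (nat_lit 450563) (nat_lit 0) (.e (nat_lit 4181) (nat_lit 251) .nil)))) .nil))))))))

noncomputable def tv1017 : DT := (.nd (nat_lit 0) (.nd (nat_lit 1) (.nd (nat_lit 2) (.nd (nat_lit 3) (.nd (nat_lit 4) (.nd (nat_lit 5) 
(.lf (nat_lit 75136) (.g (nat_lit 5568) (.e (nat_lit 1788) (nat_lit 119) (.e (nat_lit 516166) (nat_lit 12) (.e (nat_lit 450563) (nat_lit 0) (.e (nat_lit 4181) (nat_lit 251) (.e (nat_lit 1131) (nat_lit 83) (.e (nat_lit 16473) (nat_lit 14) (.e (nat_lit 491526) (nat_lit 0) .nil))))))) (.g (nat_lit 7) .nil .nil))) 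
(.lf (nat_lit 75168) (.g (nat_lit 4278) (.e (nat_lit 1788) (nat_lit 119) (.e (nat_lit 516166) (nat_lit 12) (.e (nat_lit 450587) (nat_lit 10) (.e (nat_lit 573477) (nat_lit 12) (.e (nat_lit 57574) (nat_lit 55) (.e (nat_lit 778466) (nat_lit 11) (.e (nat_lit 24576) (nat_lit 0) .nil))))))) (.g (nat_lit 6) .nil .nil)))) (.nd (nat_lit 5) 
(.lf (nat_lit 75152) (.g (nat_lit 3785) (.e (nat_lit 1788) (nat_lit 119) (.e (nat_lit 516166) (nat_lit 12) (.e (nat_lit 450581) (nat_lit 5) (.e (nat_lit 532523) (nat_lit 7) (.e (nat_lit 319533) (nat_lit 16) (.e (nat_lit 286724) (nat_lit 0) .nil)))))) (.g (nat_lit 5) .nil .nil))) 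
(.lf (nat_lit 75184) (.g (nat_lit 2814) (.e (nat_lit 1788) (nat_lit 119) (.e (nat_lit 516166) (nat_lit 12) (.e (nat_lit 450588) (nat_lit 10) (.e (nat_lit 573449) (nat_lit 9) .nil)))) .nil)))) (.nd (nat_lit 4) (.nd (nat_lit 5) 
(.lf (nat_lit 75144) (.g (nat_lit 4357) (.e (nat_lit 1788) (nat_lit 119) (.e (nat_lit 516166) (nat_lit 12) (.e (nat_lit 450579) (nat_lit 5) (.e (nat_lit 532523) (nat_lit 7) (.e (nat_lit 319534) (nat_lit 16) (.e (nat_lit 286728) (nat_lit 0) .nil)))))) (.g (nat_lit 5) .nil .nil))) 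
(.lf (nat_lit 75176) (.g (nat_lit 2585) (.e (nat_lit 1788) (nat_lit 119) (.e (nat_lit 516166) (nat_lit 12) (.e (nat_lit 450587) (nat_lit 10) (.e (nat_lit 573478) (nat_lit 12) (.e (nat_lit 57574) (nat_lit 55) (.e (nat_lit 778463) (nat_lit 11) (.e (nat_lit 24588) (nat_lit 0) .nil))))))) (.g (nat_lit 4) .nil .nil)))) (.nd (nat_lit 5) 
(.lf (nat_lit 75160) (.g (nat_lit 4583) (.e (nat_lit 1788) (nat_lit 119) (.e (nat_lit 516166) (nat_lit 12) (.e (nat_lit 450587) (nat_lit 10) (.e (nat_lit 573469) (nat_lit 11) (.e (nat_lit 16473) (nat_lit 14) (.e (nat_lit 491525) (nat_lit 0) .nil)))))) (.g (nat_lit 6) .nil .nil))) 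
(.lf (nat_lit 75192) (.g (nat_lit 5301) (.e (nat_lit 1788) (nat_lit 119) (.e (nat_lit 516166) (nat_lit 12) (.e (nat_lit 450588) (nat_lit 10) (.e (nat_lit 573469) (nat_lit 11) (.e (nat_lit 16472) (nat_lit 14) (.e (nat_lit 491526) (nat_lit 0) .nil)))))) (.g (nat_lit 6) .nil .nil)))))) (.nd (nat_lit 3) (.nd (nat_lit 4) (.nd (nat_lit 5) 
(.lf (nat_lit 75140) (.g (nat_lit 3193) (.e (nat_lit 1788) (nat_lit 119) (.e (nat_lit 516166) (nat_lit 12) (.e (nat_lit 450578) (nat_lit 5) (.e (nat_lit 532523) (nat_lit 7) (.e (nat_lit 319534) (nat_lit 16) (.e (nat_lit 286728) (nat_lit 0) .nil)))))) (.g (nat_lit 5) .nil .nil))) 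
(.lf (nat_lit 75172) (.g (nat_lit 2543) (.e (nat_lit 1788) (nat_lit 119) (.e (nat_lit 516166) (nat_lit 12) (.e (nat_lit 450587) (nat_lit 10) (.e (nat_lit 573477) (nat_lit 12) (.e (nat_lit 57575) (nat_lit 55) (.e (nat_lit 778464) (nat_lit 11) (.e (nat_lit 24588) (nat_lit 0) .nil))))))) (.g (nat_lit 4) .nil .nil)))) (.nd (nat_lit 5) 
(.lf (nat_lit 75156) (.g (nat_lit 1139) (.e (nat_lit 1788) (nat_lit 119) (.e (nat_lit 516166) (nat_lit 12) (.e (nat_lit 450586) (nat_lit 10) (.e (nat_lit 573470) (nat_lit 11) .nil)))) .nil)) 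
(.lf (nat_lit 75188) (.g (nat_lit 3619) (.e (nat_lit 1788) (nat_lit 119) (.e (nat_lit 516166) (nat_lit 12) (.e (nat_lit 450588) (nat_lit 10) (.e (nat_lit 573456) (nat_lit 9) .nil)))) .nil)))) (.nd (nat_lit 4) (.nd (nat_lit 5) 
(.lf (nat_lit 75148) (.g (nat_lit 3363) (.e (nat_lit 1788) (nat_lit 119) (.e (nat_lit 516166) (nat_lit 12) (.e (nat_lit 450580) (nat_lit 5) (.e (nat_lit 532523) (nat_lit 7) (.e (nat_lit 319534) (nat_lit 16) (.e (nat_lit 286720) (nat_lit 0) .nil)))))) (.g (nat_lit 5) .nil .nil))) 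
(.lf (nat_lit 75180) (.g (nat_lit 3031) (.e (nat_lit 1788) (nat_lit 119) (.e (nat_lit 516166) (nat_lit 12) (.e (nat_lit 450587) (nat_lit 10) (.e (nat_lit 573478) (nat_lit 12) (.e (nat_lit 57574) (nat_lit 55) (.e (nat_lit 778465) (nat_lit 11) (.e (nat_lit 24589) (nat_lit 0) .nil))))))) (.g (nat_lit 5) .nil .nil)))) (.nd (nat_lit 5) 
(.lf (nat_lit 75164) (.g (nat_lit 3656) (.e (nat_lit 1788) (nat_lit 119) (.e (nat_lit 516166) (nat_lit 12) (.e (nat_lit 450587) (nat_lit 10) (.e (nat_lit 573477) (nat_lit 12) (.e (nat_lit 57574) (nat_lit 55) (.e (nat_lit 778464) (nat_lit 11) (.e (nat_lit 24588) (nat_lit 0) .nil))))))) (.g (nat_lit 5) .nil .nil))) 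
(.lf (nat_lit 75196) (.g (nat_lit 1535) (.e (nat_lit 1788) (nat_lit 119) (.e (nat_lit 516166) (nat_lit 12) (.e (nat_lit 450588) (nat_lit 10) (.e (nat_lit 573470) (nat_lit 11) .nil)))) .nil)))))) (.nd (nat_lit 2) (.nd (nat_lit 3) (.nd (nat_lit 4) (.nd (nat_lit 5) 
(.lf (nat_lit 75138) (.g (nat_lit 4094) (.e (nat_lit 1788) (nat_lit 119) (.e (nat_lit 516166) (nat_lit 12) (.e (nat_lit 450569) (nat_lit 0) (.e (nat_lit 4215) (nat_lit 251) (.e (nat_lit 1126) (nat_lit 83) (.e (nat_lit 16473) (nat_lit 14) (.e (nat_lit 491526) (nat_lit 0) .nil))))))) (.g (nat_lit 7) .nil .nil))) 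
(.lf (nat_lit 75170) (.g (nat_lit 4280) (.e (nat_lit 1788) (nat_lit 119) (.e (nat_lit 516166) (nat_lit 12) (.e (nat_lit 450587) (nat_lit 10) (.e (nat_lit 573477) (nat_lit 12) (.e (nat_lit 57574) (nat_lit 55) (.e (nat_lit 778466) (nat_lit 11) (.e (nat_lit 24589) (nat_lit 0) .nil))))))) (.g (nat_lit 6) .nil .nil)))) (.nd (nat_lit 5) 
(.lf (nat_lit 75154) (.g (nat_lit 4486) (.e (nat_lit 1788) (nat_lit 119) (.e (nat_lit 516166) (nat_lit 12) (.e (nat_lit 450581) (nat_lit 5) (.e (nat_lit 532523) (nat_lit 7) (.e (nat_lit 319534) (nat_lit 16) (.e (nat_lit 286728) (nat_lit 0) .nil)))))) (.g (nat_lit 6) .nil .nil))) 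
(.lf (nat_lit 75186) (.g (nat_lit 1568) (.e (nat_lit 1788) (nat_lit 119) (.e (nat_lit 516166) (nat_lit 12) (.e (nat_lit 450588) (nat_lit 10) (.e (nat_lit 573452) (nat_lit 9) .nil)))) .nil)))) (.nd (nat_lit 4) (.nd (nat_lit 5) 
(.lf (nat_lit 75146) (.g (nat_lit 2581) (.e (nat_lit 1788) (nat_lit 119) (.e (nat_lit 516166) (nat_lit 12) (.e (nat_lit 450580) (nat_lit 5) (.e (nat_lit 532523) (nat_lit 7) (.e (nat_lit 319533) (nat_lit 16) (.e (nat_lit 286723) (nat_lit 0) .nil)))))) (.g (nat_lit 4) .nil .nil))) 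
(.lf (nat_lit 75178) (.g (nat_lit 3403) (.e (nat_lit 1788) (nat_lit 119) (.e (nat_lit 516166) (nat_lit 12) (.e (nat_lit 450587) (nat_lit 10) (.e (nat_lit 573478) (nat_lit 12) (.e (nat_lit 57574) (nat_lit 55) (.e (nat_lit 778465) (nat_lit 11) (.e (nat_lit 24576) (nat_lit 0) .nil))))))) (.g (nat_lit 6) .nil .nil)))) (.nd (nat_lit 5) 
(.lf (nat_lit 75162) (.g (nat_lit 2957) (.e (nat_lit 1788) (nat_lit 119) (.e (nat_lit 516166) (nat_lit 12) (.e (nat_lit 450587) (nat_lit 10) (.e (nat_lit 573477) (nat_lit 12) (.e (nat_lit 57574) (nat_lit 55) (.e (nat_lit 778463) (nat_lit 11) (.e (nat_lit 24588) (nat_lit 0) .nil))))))) (.g (nat_lit 4) .nil .nil))) 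
(.lf (nat_lit 75194) (.g (nat_lit 5396) (.e (nat_lit 1788) (nat_lit 119) (.e (nat_lit 516166) (nat_lit 12) (.e (nat_lit 450588) (nat_lit 10) (.e (nat_lit 573469) (nat_lit 11) (.e (nat_lit 16473) (nat_lit 14) (.e (nat_lit 491525) (nat_lit 0) .nil)))))) (.g (nat_lit 6) .nil .nil)))))) (.nd (nat_lit 3) (.nd (nat_lit 4) (.nd (nat_lit 5) 
(.lf (nat_lit 75142) (.g (nat_lit 2822) (.e (nat_lit 1788) (nat_lit 119) (.e (nat_lit 516166) (nat_lit 12) (.e (nat_lit 450579) (nat_lit 5) (.e (nat_lit 532523) (nat_lit 7) (.e (nat_lit 319533) (nat_lit 16) (.e (nat_lit 286720) (nat_lit 0) .nil)))))) (.g (nat_lit 4) .nil .nil))) 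
(.lf (nat_lit 75174) (.g (nat_lit 4324) (.e (nat_lit 1788) (nat_lit 119) (.e (nat_lit 516166) (nat_lit 12) (.e (nat_lit 450587) (nat_lit 10) (.e (nat_lit 573477) (nat_lit 12) (.e (nat_lit 57575) (nat_lit 55) (.e (nat_lit 778465) (nat_lit 11) (.e (nat_lit 24588) (nat_lit 0) .nil))))))) (.g (nat_lit 6) .nil .nil)))) (.nd (nat_lit 5) 
(.lf (nat_lit 75158) (.g (nat_lit 4335) (.e (nat_lit 1788) (nat_lit 119) (.e (nat_lit 516166) (nat_lit 12) (.e (nat_lit 450587) (nat_lit 10) (.e (nat_lit 573469) (nat_lit 11) (.e (nat_lit 16472) (nat_lit 14) (.e (nat_lit 491526) (nat_lit 0) .nil)))))) (.g (nat_lit 6) .nil .nil))) 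
(.lf (nat_lit 75190) (.g (nat_lit 3322) (.e (nat_lit 1788) (nat_lit 119) (.e (nat_lit 516166) (nat_lit 12) (.e (nat_lit 450588) (nat_lit 10) (.e (nat_lit 573458) (nat_lit 9) .nil)))) .nil)))) (.nd (nat_lit 4) (.nd (nat_lit 5) 
(.lf (nat_lit 75150) (.g (nat_lit 2601) (.e (nat_lit 1788) (nat_lit 119) (.e (nat_lit 516166) (nat_lit 12) (.e (nat_lit 450581) (nat_lit 5) (.e (nat_lit 532523) (nat_lit 7) (.e (nat_lit 319533) (nat_lit 16) (.e (nat_lit 286720) (nat_lit 0) .nil)))))) (.g (nat_lit 4) .nil .nil))) 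
(.lf (nat_lit 75182) (.g (nat_lit 4429) (.e (nat_lit 1788) (nat_lit 119) (.e (nat_lit 516166) (nat_lit 12) (.e (nat_lit 450587) (nat_lit 10) (.e (nat_lit 573478) (nat_lit 12) (.e (nat_lit 57574) (nat_lit 55) (.e (nat_lit 778466) (nat_lit 11) (.e (nat_lit 24588) (nat_lit 0) .nil))))))) (.g (nat_lit 6) .nil .nil)))) (.nd (nat_lit 5) 
(.lf (nat_lit 75166) (.g (nat_lit 4423) (.e (nat_lit 1788) (nat_lit 119) (.e (nat_lit 516166) (nat_lit 12) (.e (nat_lit 450587) (nat_lit 10) (.e (nat_lit 573477) (nat_lit 12) (.e (nat_lit 57574) (nat_lit 55) (.e (nat_lit 778465) (nat_lit 11) (.e (nat_lit 24588) (nat_lit 0) .nil))))))) (.g (nat_lit 6) .nil .nil))) 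
(.lf (nat_lit 75198) (.g (nat_lit 3141) (.e (nat_lit 1788) (nat_lit 119) (.e (nat_lit 516166) (nat_lit 12) (.e (nat_lit 450588) (nat_lit 10) (.e (nat_lit 573470) (nat_lit 11) (.e (nat_lit 16471) (nat_lit 14) (.e (nat_lit 491526) (nat_lit 0) .nil)))))) (.g (nat_lit 4) .nil .nil)))))))) (.nd (nat_lit 1) (.nd (nat_lit 2) (.nd (nat_lit 3) (.nd (nat_lit 4) (.nd (nat_lit 5) 
(.lf (nat_lit 75137) (.g (nat_lit 2810) (.e (nat_lit 1788) (nat_lit 119) (.e (nat_lit 516166) (nat_lit 12) (.e (nat_lit 450563) (nat_lit 0) (.e (nat_lit 6420) (nat_lit 341) (.e (nat_lit 163885) (nat_lit 5) (.e (nat_lit 221198) (nat_lit 20) (.e (nat_lit 3744) (nat_lit 228) (.e (nat_lit 786447) (nat_lit 15) .nil)))))))) (.g (nat_lit 4) .nil .nil))) 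
(.lf (nat_lit 75169) (.g (nat_lit 4803) (.e (nat_lit 1788) (nat_lit 119) (.e (nat_lit 516166) (nat_lit 12) (.e (nat_lit 450587) (nat_lit 10) (.e (nat_lit 573477) (nat_lit 12) (.e (nat_lit 57574) (nat_lit 55) (.e (nat_lit 778466) (nat_lit 11) (.e (nat_lit 24588) (nat_lit 0) .nil))))))) (.g (nat_lit 6) .nil .nil)))) (.nd (nat_lit 5) 
(.lf (nat_lit 75153) (.g (nat_lit 2523) (.e (nat_lit 1788) (nat_lit 119) (.e (nat_lit 516166) (nat_lit 12) (.e (nat_lit 450581) (nat_lit 5) (.e (nat_lit 532523) (nat_lit 7) (.e (nat_lit 319534) (nat_lit 16) (.e (nat_lit 286720) (nat_lit 0) .nil)))))) (.g (nat_lit 4) .nil .nil))) 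
(.lf (nat_lit 75185) (.g (nat_lit 3109) (.e (nat_lit 1788) (nat_lit 119) (.e (nat_lit 516166) (nat_lit 12) (.e (nat_lit 450588) (nat_lit 10) (.e (nat_lit 573451) (nat_lit 9) .nil)))) .nil)))) (.nd (nat_lit 4) (.nd (nat_lit 5) 
(.lf (nat_lit 75145) (.g (nat_lit 3328) (.e (nat_lit 1788) (nat_lit 119) (.e (nat_lit 516166) (nat_lit 12) (.e (nat_lit 450580) (nat_lit 5) (.e (nat_lit 532523) (nat_lit 7) (.e (nat_lit 319533) (nat_lit 16) (.e (nat_lit 286720) (nat_lit 0) .nil)))))) (.g (nat_lit 5) .nil .nil))) 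
(.lf (nat_lit 75177) (.g (nat_lit 3268) (.e (nat_lit 1788) (nat_lit 119) (.e (nat_lit 516166) (nat_lit 12) (.e (nat_lit 450587) (nat_lit 10) (.e (nat_lit 573478) (nat_lit 12) (.e (nat_lit 57574) (nat_lit 55) (.e (nat_lit 778464) (nat_lit 11) (.e (nat_lit 24588) (nat_lit 0) .nil))))))) (.g (nat_lit 5) .nil .nil)))) (.nd (nat_lit 5) 
(.lf (nat_lit 75161) (.g (nat_lit 2666) (.e (nat_lit 1788) (nat_lit 119) (.e (nat_lit 516166) (nat_lit 12) (.e (nat_lit 450587) (nat_lit 10) (.e (nat_lit 573477) (nat_lit 12) (.e (nat_lit 57353) (nat_lit 0) (.e (nat_lit 7265) (nat_lit 384) (.e (nat_lit 57406) (nat_lit 12) (.e (nat_lit 335971) (nat_lit 0) .nil)))))))) (.g (nat_lit 4) .nil .nil))) 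
(.lf (nat_lit 75193) (.g (nat_lit 5313) (.e (nat_lit 1788) (nat_lit 119) (.e (nat_lit 516166) (nat_lit 12) (.e (nat_lit 450588) (nat_lit 10) (.e (nat_lit 573469) (nat_lit 11) (.e (nat_lit 16473) (nat_lit 14) (.e (nat_lit 491520) (nat_lit 0) .nil)))))) (.g (nat_lit 6) .nil .nil)))))) (.nd (nat_lit 3) (.nd (nat_lit 4) (.nd (nat_lit 5) 
(.lf (nat_lit 75141) (.g (nat_lit 2413) (.e (nat_lit 1788) (nat_lit 119) (.e (nat_lit 516166) (nat_lit 12) (.e (nat_lit 450579) (nat_lit 5) (.e (nat_lit 532523) (nat_lit 7) (.e (nat_lit 319531) (nat_lit 16) .nil))))) .nil)) 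
(.lf (nat_lit 75173) (.g (nat_lit 3203) (.e (nat_lit 1788) (nat_lit 119) (.e (nat_lit 516166) (nat_lit 12) (.e (nat_lit 450587) (nat_lit 10) (.e (nat_lit 573477) (nat_lit 12) (.e (nat_lit 57575) (nat_lit 55) (.e (nat_lit 778465) (nat_lit 11) (.e (nat_lit 24576) (nat_lit 0) .nil))))))) (.g (nat_lit 4) .nil .nil)))) (.nd (nat_lit 5) 
(.lf (nat_lit 75157) (.g (nat_lit 2493) (.e (nat_lit 1788) (nat_lit 119) (.e (nat_lit 516166) (nat_lit 12) (.e (nat_lit 450587) (nat_lit 10) (.e (nat_lit 573469) (nat_lit 11) (.e (nat_lit 16471) (nat_lit 14) .nil))))) .nil)) 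
(.lf (nat_lit 75189) (.g (nat_lit 2282) (.e (nat_lit 1788) (nat_lit 119) (.e (nat_lit 516166) (nat_lit 12) (.e (nat_lit 450588) (nat_lit 10) (.e (nat_lit 573457) (nat_lit 9) .nil)))) .nil)))) (.nd (nat_lit 4) (.nd (nat_lit 5) 
(.lf (nat_lit 75149) (.g (nat_lit 4995) (.e (nat_lit 1788) (nat_lit 119) (.e (nat_lit 516166) (nat_lit 12) (.e (nat_lit 450580) (nat_lit 5) (.e (nat_lit 532523) (nat_lit 7) (.e (nat_lit 319534) (nat_lit 16) (.e (nat_lit 286728) (nat_lit 0) .nil)))))) (.g (nat_lit 0) .nil .nil))) 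
(.lf (nat_lit 75181) (.g (nat_lit 3816) (.e (nat_lit 1788) (nat_lit 119) (.e (nat_lit 516166) (nat_lit 12) (.e (nat_lit 450587) (nat_lit 10) (.e (nat_lit 573478) (nat_lit 12) (.e (nat_lit 57574) (nat_lit 55) (.e (nat_lit 778466) (nat_lit 11) (.e (nat_lit 24576) (nat_lit 0) .nil))))))) (.g (nat_lit 6) .nil .nil)))) (.nd (nat_lit 5) 
(.lf (nat_lit 75165) (.g (nat_lit 3846) (.e (nat_lit 1788) (nat_lit 119) (.e (nat_lit 516166) (nat_lit 12) (.e (nat_lit 450587) (nat_lit 10) (.e (nat_lit 573477) (nat_lit 12) (.e (nat_lit 57574) (nat_lit 55) (.e (nat_lit 778465) (nat_lit 11) (.e (nat_lit 24576) (nat_lit 0) .nil))))))) (.g (nat_lit 5) .nil .nil))) 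
(.lf (nat_lit 75197) (.g (nat_lit 2560) (.e (nat_lit 1788) (nat_lit 119) (.e (nat_lit 516166) (nat_lit 12) (.e (nat_lit 450588) (nat_lit 10) (.e (nat_lit 573470) (nat_lit 11) (.e (nat_lit 16470) (nat_lit 14) .nil))))) .nil)))))) (.nd (nat_lit 2) (.nd (nat_lit 3) (.nd (nat_lit 4) (.nd (nat_lit 5) 
(.lf (nat_lit 75139) (.g (nat_lit 2088) (.e (nat_lit 1788) (nat_lit 119) (.e (nat_lit 516166) (nat_lit 12) (.e (nat_lit 450578) (nat_lit 5) (.e (nat_lit 532523) (nat_lit 7) (.e (nat_lit 319533) (nat_lit 16) (.e (nat_lit 286724) (nat_lit 0) .nil)))))) (.g (nat_lit 4) .nil .nil))) 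
(.lf (nat_lit 75171) (.g (nat_lit 3550) (.e (nat_lit 1788) (nat_lit 119) (.e (nat_lit 516166) (nat_lit 12) (.e (nat_lit 450587) (nat_lit 10) (.e (nat_lit 573477) (nat_lit 12) (.e (nat_lit 57575) (nat_lit 55) (.e (nat_lit 778463) (nat_lit 11) (.e (nat_lit 24588) (nat_lit 0) .nil))))))) (.g (nat_lit 5) .nil .nil)))) (.nd (nat_lit 5) 
(.lf (nat_lit 75155) (.g (nat_lit 1614) (.e (nat_lit 1788) (nat_lit 119) (.e (nat_lit 516166) (nat_lit 12) (.e (nat_lit 450584) (nat_lit 9) (.e (nat_lit 565264) (nat_lit 3) .nil)))) .nil)) 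
(.lf (nat_lit 75187) (.g (nat_lit 3665) (.e (nat_lit 1788) (nat_lit 119) (.e (nat_lit 516166) (nat_lit 12) (.e (nat_lit 450588) (nat_lit 10) (.e (nat_lit 573455) (nat_lit 9) .nil)))) .nil)))) (.nd (nat_lit 4) (.nd (nat_lit 5) 
(.lf (nat_lit 75147) (.g (nat_lit 4338) (.e (nat_lit 1788) (nat_lit 119) (.e (nat_lit 516166) (nat_lit 12) (.e (nat_lit 450580) (nat_lit 5) (.e (nat_lit 532523) (nat_lit 7) (.e (nat_lit 319533) (nat_lit 16) (.e (nat_lit 286724) (nat_lit 0) .nil)))))) (.g (nat_lit 6) .nil .nil))) 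
(.lf (nat_lit 75179) (.g (nat_lit 4089) (.e (nat_lit 1788) (nat_lit 119) (.e (nat_lit 516166) (nat_lit 12) (.e (nat_lit 450587) (nat_lit 10) (.e (nat_lit 573478) (nat_lit 12) (.e (nat_lit 57574) (nat_lit 55) (.e (nat_lit 778465) (nat_lit 11) (.e (nat_lit 24588) (nat_lit 0) .nil))))))) (.g (nat_lit 6) .nil .nil)))) (.nd (nat_lit 5) 
(.lf (nat_lit 75163) (.g (nat_lit 2591) (.e (nat_lit 1788) (nat_lit 119) (.e (nat_lit 516166) (nat_lit 12) (.e (nat_lit 450587) (nat_lit 10) (.e (nat_lit 573477) (nat_lit 12) (.e (nat_lit 57574) (nat_lit 55) (.e (nat_lit 778464) (nat_lit 11) (.e (nat_lit 24576) (nat_lit 0) .nil))))))) (.g (nat_lit 4) .nil .nil))) 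
(.lf (nat_lit 75195) (.g (nat_lit 5532) (.e (nat_lit 1788) (nat_lit 119) (.e (nat_lit 516166) (nat_lit 12) (.e (nat_lit 450588) (nat_lit 10) (.e (nat_lit 573469) (nat_lit 11) (.e (nat_lit 16473) (nat_lit 14) (.e (nat_lit 491526) (nat_lit 0) .nil)))))) (.g (nat_lit 0) .nil .nil)))))) (.nd (nat_lit 3) (.nd (nat_lit 4) (.nd (nat_lit 5) 
(.lf (nat_lit 75143) (.g (nat_lit 3568) (.e (nat_lit 1788) (nat_lit 119) (.e (nat_lit 516166) (nat_lit 12) (.e (nat_lit 450579) (nat_lit 5) (.e (nat_lit 532523) (nat_lit 7) (.e (nat_lit 319533) (nat_lit 16) (.e (nat_lit 286724) (nat_lit 0) .nil)))))) (.g (nat_lit 5) .nil .nil))) 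
(.lf (nat_lit 75175) (.g (nat_lit 2762) (.e (nat_lit 1788) (nat_lit 119) (.e (nat_lit 516166) (nat_lit 12) (.e (nat_lit 450587) (nat_lit 10) (.e (nat_lit 573477) (nat_lit 12) (.e (nat_lit 57575) (nat_lit 55) (.e (nat_lit 778466) (nat_lit 11) (.e (nat_lit 24589) (nat_lit 0) .nil))))))) (.g (nat_lit 4) .nil .nil)))) (.nd (nat_lit 5) 
(.lf (nat_lit 75159) (.g (nat_lit 4464) (.e (nat_lit 1788) (nat_lit 119) (.e (nat_lit 516166) (nat_lit 12) (.e (nat_lit 450587) (nat_lit 10) (.e (nat_lit 573469) (nat_lit 11) (.e (nat_lit 16473) (nat_lit 14) (.e (nat_lit 491520) (nat_lit 0) .nil)))))) (.g (nat_lit 0) .nil .nil))) 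
(.lf (nat_lit 75191) (.g (nat_lit 3309) (.e (nat_lit 1788) (nat_lit 119) (.e (nat_lit 516166) (nat_lit 12) (.e (nat_lit 450588) (nat_lit 10) (.e (nat_lit 573469) (nat_lit 11) (.e (nat_lit 16471) (nat_lit 14) (.e (nat_lit 491526) (nat_lit 0) .nil)))))) (.g (nat_lit 4) .nil .nil))))) (.nd (nat_lit 4) (.nd (nat_lit 5) 
(.lf (nat_lit 75151) (.g (nat_lit 2172) (.e (nat_lit 1788) (nat_lit 119) (.e (nat_lit 516166) (nat_lit 12) (.e (nat_lit 450581) (nat_lit 5) (.e (nat_lit 532523) (nat_lit 7) (.e (nat_lit 319533) (nat_lit 16) (.e (nat_lit 286723) (nat_lit 0) .nil)))))) (.g (nat_lit 4) .nil .nil))) 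
(.lf (nat_lit 75183) (.g (nat_lit 3879) (.e (nat_lit 1788) (nat_lit 119) (.e (nat_lit 516166) (nat_lit 12) (.e (nat_lit 450587) (nat_lit 10) (.e (nat_lit 573478) (nat_lit 12) (.e (nat_lit 57574) (nat_lit 55) (.e (nat_lit 778466) (nat_lit 11) (.e (nat_lit 24589) (nat_lit 0) .nil))))))) (.g (nat_lit 6) .nil .nil)))) (.nd (nat_lit 5) 
(.lf (nat_lit 75167) (.g (nat_lit 3262) (.e (nat_lit 1788) (nat_lit 119) (.e (nat_lit 516166) (nat_lit 12) (.e (nat_lit 450587) (nat_lit 10) (.e (nat_lit 573477) (nat_lit 12) (.e (nat_lit 57574) (nat_lit 55) (.e (nat_lit 778465) (nat_lit 11) (.e (nat_lit 24589) (nat_lit 0) .nil))))))) (.g (nat_lit 5) .nil .nil))) 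
(.lf (nat_lit 75199) (.g (nat_lit 4436) (.e (nat_lit 1788) (nat_lit 119) (.e (nat_lit 516166) (nat_lit 12) (.e (nat_lit 450588) (nat_lit 10) (.e (nat_lit 573470) (nat_lit 11) (.e (nat_lit 16472) (nat_lit 14) (.e (nat_lit 491526) (nat_lit 0) .nil)))))) (.g (nat_lit 0) .nil .nil)))))))))

noncomputable def tv1018 : DT := (.nd (nat_lit 0) (.nd (nat_lit 1) (.nd (nat_lit 2) (.nd (nat_lit 3) (.nd (nat_lit 4) (.nd (nat_lit 5) 
(.lf (nat_lit 75200) (.g (nat_lit 2082) (.e (nat_lit 1788) (nat_lit 119) (.e (nat_lit 516166) (nat_lit 12) (.e (nat_lit 450588) (nat_lit 10) (.e (nat_lit 573470) (nat_lit 11) (.e (nat_lit 16473) (nat_lit 14) .nil))))) .nil)) 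
(.lf (nat_lit 75232) (.g (nat_lit 3636) (.e (nat_lit 1788) (nat_lit 119) (.e (nat_lit 516166) (nat_lit 12) (.e (nat_lit 450588) (nat_lit 10) (.e (nat_lit 573473) (nat_lit 12) (.e (nat_lit 57353) (nat_lit 0) (.e (nat_lit 7265) (nat_lit 384) (.e (nat_lit 57406) (nat_lit 12) (.e (nat_lit 335973) (nat_lit 0) .nil)))))))) (.g (nat_lit 4) .nil .nil)))) (.nd (nat_lit 5) 
(.lf (nat_lit 75216) (.g (nat_lit 3799) (.e (nat_lit 1788) (nat_lit 119) (.e (nat_lit 516166) (nat_lit 12) (.e (nat_lit 450588) (nat_lit 10) (.e (nat_lit 573473) (nat_lit 12) (.e (nat_lit 57348) (nat_lit 0) (.e (nat_lit 7261) (nat_lit 384) (.e (nat_lit 57412) (nat_lit 12) (.e (nat_lit 335886) (nat_lit 0) .nil)))))))) (.g (nat_lit 4) .nil .nil))) 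
(.lf (nat_lit 75248) (.g (nat_lit 3765) (.e (nat_lit 1788) (nat_lit 119) (.e (nat_lit 516166) (nat_lit 12) (.e (nat_lit 450588) (nat_lit 10) (.e (nat_lit 573475) (nat_lit 12) (.e (nat_lit 57347) (nat_lit 0) (.e (nat_lit 7265) (nat_lit 384) (.e (nat_lit 57406) (nat_lit 12) (.e (nat_lit 335971) (nat_lit 0) .nil)))))))) (.g (nat_lit 5) .nil .nil))))) (.nd (nat_lit 4) (.nd (nat_lit 5) 
(.lf (nat_lit 75208) (.g (nat_lit 4828) (.e (nat_lit 1788) (nat_lit 119) (.e (nat_lit 516166) (nat_lit 12) (.e (nat_lit 450588) (nat_lit 10) (.e (nat_lit 573471) (nat_lit 11) (.e (nat_lit 16473) (nat_lit 14) (.e (nat_lit 491526) (nat_lit 0) .nil)))))) (.g (nat_lit 0) .nil .nil))) 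
(.lf (nat_lit 75240) (.g (nat_lit 5367) (.e (nat_lit 1788) (nat_lit 119) (.e (nat_lit 516166) (nat_lit 12) (.e (nat_lit 450588) (nat_lit 10) (.e (nat_lit 573474) (nat_lit 12) (.e (nat_lit 57572) (nat_lit 54) .nil))))) .nil))) (.nd (nat_lit 5) 
(.lf (nat_lit 75224) (.g (nat_lit 3754) (.e (nat_lit 1788) (nat_lit 119) (.e (nat_lit 516166) (nat_lit 12) (.e (nat_lit 450588) (nat_lit 10) (.e (nat_lit 573473) (nat_lit 12) (.e (nat_lit 57352) (nat_lit 0) (.e (nat_lit 7122) (nat_lit 382) (.e (nat_lit 1201) (nat_lit 88) (.e (nat_lit 65550) (nat_lit 0) .nil)))))))) (.g (nat_lit 4) .nil .nil))) 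
(.lf (nat_lit 75256) (.g (nat_lit 2194) (.e (nat_lit 1788) (nat_lit 119) (.e (nat_lit 516166) (nat_lit 12) (.e (nat_lit 450588) (nat_lit 10) (.e (nat_lit 573475) (nat_lit 12) (.e (nat_lit 57574) (nat_lit 55) .nil))))) .nil))))) (.nd (nat_lit 3) (.nd (nat_lit 4) (.nd (nat_lit 5) 
(.lf (nat_lit 75204) (.g (nat_lit 2615) (.e (nat_lit 1788) (nat_lit 119) (.e (nat_lit 516166) (nat_lit 12) (.e (nat_lit 450588) (nat_lit 10) (.e (nat_lit 573471) (nat_lit 11) (.e (nat_lit 16472) (nat_lit 14) (.e (nat_lit 491520) (nat_lit 0) .nil)))))) (.g (nat_lit 4) .nil .nil))) 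
(.lf (nat_lit 75236) (.g (nat_lit 3200) (.e (nat_lit 1788) (nat_lit 119) (.e (nat_lit 516166) (nat_lit 12) (.e (nat_lit 450588) (nat_lit 10) (.e (nat_lit 573473) (nat_lit 12) (.e (nat_lit 57569) (nat_lit 53) .nil))))) .nil))) (.nd (nat_lit 5) 
(.lf (nat_lit 75220) (.g (nat_lit 5561) (.e (nat_lit 1788) (nat_lit 119) (.e (nat_lit 516166) (nat_lit 12) (.e (nat_lit 450588) (nat_lit 10) (.e (nat_lit 573473) (nat_lit 12) (.e (nat_lit 57348) (nat_lit 0) (.e (nat_lit 7265) (nat_lit 384) (.e (nat_lit 57406) (nat_lit 12) (.e (nat_lit 335971) (nat_lit 0) .nil)))))))) (.g (nat_lit 7) .nil .nil))) 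
(.lf (nat_lit 75252) (.g (nat_lit 2353) (.e (nat_lit 1788) (nat_lit 119) (.e (nat_lit 516166) (nat_lit 12) (.e (nat_lit 450588) (nat_lit 10) (.e (nat_lit 573475) (nat_lit 12) (.e (nat_lit 57351) (nat_lit 0) (.e (nat_lit 7265) (nat_lit 384) (.e (nat_lit 57406) (nat_lit 12) (.e (nat_lit 335969) (nat_lit 0) .nil)))))))) (.g (nat_lit 4) .nil .nil))))) (.nd (nat_lit 4) (.nd (nat_lit 5) 
(.lf (nat_lit 75212) (.g (nat_lit 3628) (.e (nat_lit 1788) (nat_lit 119) (.e (nat_lit 516166) (nat_lit 12) (.e (nat_lit 450588) (nat_lit 10) (.e (nat_lit 573473) (nat_lit 12) (.e (nat_lit 57347) (nat_lit 0) (.e (nat_lit 7261) (nat_lit 384) (.e (nat_lit 57412) (nat_lit 12) (.e (nat_lit 335923) (nat_lit 0) .nil)))))))) (.g (nat_lit 4) .nil .nil))) 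
(.lf (nat_lit 75244) (.g (nat_lit 2062) (.e (nat_lit 1788) (nat_lit 119) (.e (nat_lit 516166) (nat_lit 12) (.e (nat_lit 450588) (nat_lit 10) (.e (nat_lit 573475) (nat_lit 12) (.e (nat_lit 57347) (nat_lit 0) .nil))))) .nil))) (.nd (nat_lit 5) 
(.lf (nat_lit 75228) (.g (nat_lit 3704) (.e (nat_lit 1788) (nat_lit 119) (.e (nat_lit 516166) (nat_lit 12) (.e (nat_lit 450588) (nat_lit 10) (.e (nat_lit 573473) (nat_lit 12) (.e (nat_lit 57352) (nat_lit 0) (.e (nat_lit 7263) (nat_lit 384) (.e (nat_lit 57412) (nat_lit 12) (.e (nat_lit 335923) (nat_lit 0) .nil)))))))) (.g (nat_lit 4) .nil .nil))) 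
(.lf (nat_lit 75260) (.g (nat_lit 3996) (.e (nat_lit 1788) (nat_lit 119) (.e (nat_lit 516166) (nat_lit 12) (.e (nat_lit 450588) (nat_lit 10) (.e (nat_lit 573475) (nat_lit 12) (.e (nat_lit 57574) (nat_lit 55) (.e (nat_lit 778465) (nat_lit 11) (.e (nat_lit 24576) (nat_lit 0) .nil))))))) (.g (nat_lit 6) .nil .nil))))))) (.nd (nat_lit 2) (.nd (nat_lit 3) (.nd (nat_lit 4) (.nd (nat_lit 5) 
(.lf (nat_lit 75202) (.g (nat_lit 4618) (.e (nat_lit 1788) (nat_lit 119) (.e (nat_lit 516166) (nat_lit 12) (.e (nat_lit 450588) (nat_lit 10) (.e (nat_lit 573470) (nat_lit 11) (.e (nat_lit 16473) (nat_lit 14) (.e (nat_lit 491526) (nat_lit 0) .nil)))))) (.g (nat_lit 0) .nil .nil))) 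
(.lf (nat_lit 75234) (.g (nat_lit 4089) (.e (nat_lit 1788) (nat_lit 119) (.e (nat_lit 516166) (nat_lit 12) (.e (nat_lit 450588) (nat_lit 10) (.e (nat_lit 573473) (nat_lit 12) (.e (nat_lit 57353) (nat_lit 0) (.e (nat_lit 7265) (nat_lit 384) (.e (nat_lit 57412) (nat_lit 12) (.e (nat_lit 335923) (nat_lit 0) .nil)))))))) (.g (nat_lit 5) .nil .nil)))) (.nd (nat_lit 5) 
(.lf (nat_lit 75218) (.g (nat_lit 3514) (.e (nat_lit 1788) (nat_lit 119) (.e (nat_lit 516166) (nat_lit 12) (.e (nat_lit 450588) (nat_lit 10) (.e (nat_lit 573473) (nat_lit 12) (.e (nat_lit 57348) (nat_lit 0) (.e (nat_lit 7263) (nat_lit 384) (.e (nat_lit 57412) (nat_lit 12) (.e (nat_lit 335886) (nat_lit 0) .nil)))))))) (.g (nat_lit 4) .nil .nil))) 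
(.lf (nat_lit 75250) (.g (nat_lit 2506) (.e (nat_lit 1788) (nat_lit 119) (.e (nat_lit 516166) (nat_lit 12) (.e (nat_lit 450588) (nat_lit 10) (.e (nat_lit 573475) (nat_lit 12) (.e (nat_lit 57348) (nat_lit 0) (.e (nat_lit 7265) (nat_lit 384) (.e (nat_lit 57406) (nat_lit 12) (.e (nat_lit 335969) (nat_lit 0) .nil)))))))) (.g (nat_lit 4) .nil .nil))))) (.nd (nat_lit 4) (.nd (nat_lit 5) 
(.lf (nat_lit 75210) (.g (nat_lit 3471) (.e (nat_lit 1788) (nat_lit 119) (.e (nat_lit 516166) (nat_lit 12) (.e (nat_lit 450588) (nat_lit 10) (.e (nat_lit 573473) (nat_lit 12) (.e (nat_lit 57347) (nat_lit 0) (.e (nat_lit 7124) (nat_lit 382) (.e (nat_lit 1201) (nat_lit 88) (.e (nat_lit 65550) (nat_lit 0) .nil)))))))) (.g (nat_lit 4) .nil .nil))) 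
(.lf (nat_lit 75242) (.g (nat_lit 5401) (.e (nat_lit 1788) (nat_lit 119) (.e (nat_lit 516166) (nat_lit 12) (.e (nat_lit 450588) (nat_lit 10) (.e (nat_lit 573474) (nat_lit 12) (.e (nat_lit 57572) (nat_lit 54) (.e (nat_lit 770072) (nat_lit 8) (.e (nat_lit 65546) (nat_lit 0) .nil))))))) (.g (nat_lit 4) .nil .nil)))) (.nd (nat_lit 5) 
(.lf (nat_lit 75226) (.g (nat_lit 4078) (.e (nat_lit 1788) (nat_lit 119) (.e (nat_lit 516166) (nat_lit 12) (.e (nat_lit 450588) (nat_lit 10) (.e (nat_lit 573473) (nat_lit 12) (.e (nat_lit 57352) (nat_lit 0) (.e (nat_lit 7261) (nat_lit 384) (.e (nat_lit 57412) (nat_lit 12) (.e (nat_lit 335923) (nat_lit 0) .nil)))))))) (.g (nat_lit 5) .nil .nil))) 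
(.lf (nat_lit 75258) (.g (nat_lit 2917) (.e (nat_lit 1788) (nat_lit 119) (.e (nat_lit 516166) (nat_lit 12) (.e (nat_lit 450588) (nat_lit 10) (.e (nat_lit 573475) (nat_lit 12) (.e (nat_lit 57574) (nat_lit 55) (.e (nat_lit 778464) (nat_lit 11) (.e (nat_lit 24576) (nat_lit 0) .nil))))))) (.g (nat_lit 4) .nil .nil)))))) (.nd (nat_lit 3) (.nd (nat_lit 4) (.nd (nat_lit 5) 
(.lf (nat_lit 75206) (.g (nat_lit 4625) (.e (nat_lit 1788) (nat_lit 119) (.e (nat_lit 516166) (nat_lit 12) (.e (nat_lit 450588) (nat_lit 10) (.e (nat_lit 573471) (nat_lit 11) (.e (nat_lit 16473) (nat_lit 14) (.e (nat_lit 491520) (nat_lit 0) .nil)))))) (.g (nat_lit 6) .nil .nil))) 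
(.lf (nat_lit 75238) (.g (nat_lit 3563) (.e (nat_lit 1788) (nat_lit 119) (.e (nat_lit 516166) (nat_lit 12) (.e (nat_lit 450588) (nat_lit 10) (.e (nat_lit 573473) (nat_lit 12) (.e (nat_lit 57569) (nat_lit 53) (.e (nat_lit 761866) (nat_lit 5) (.e (nat_lit 1454) (nat_lit 108) (.e (nat_lit 335925) (nat_lit 0) .nil)))))))) (.g (nat_lit 4) .nil .nil)))) (.nd (nat_lit 5) 
(.lf (nat_lit 75222) (.g (nat_lit 3803) (.e (nat_lit 1788) (nat_lit 119) (.e (nat_lit 516166) (nat_lit 12) (.e (nat_lit 450588) (nat_lit 10) (.e (nat_lit 573473) (nat_lit 12) (.e (nat_lit 57348) (nat_lit 0) (.e (nat_lit 7265) (nat_lit 384) (.e (nat_lit 57412) (nat_lit 12) (.e (nat_lit 335886) (nat_lit 0) .nil)))))))) (.g (nat_lit 4) .nil .nil))) 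
(.lf (nat_lit 75254) (.g (nat_lit 2497) (.e (nat_lit 1788) (nat_lit 119) (.e (nat_lit 516166) (nat_lit 12) (.e (nat_lit 450588) (nat_lit 10) (.e (nat_lit 573475) (nat_lit 12) (.e (nat_lit 57353) (nat_lit 0) (.e (nat_lit 7265) (nat_lit 384) (.e (nat_lit 57406) (nat_lit 12) (.e (nat_lit 335971) (nat_lit 0) .nil)))))))) (.g (nat_lit 4) .nil .nil))))) (.nd (nat_lit 4) (.nd (nat_lit 5) 
(.lf (nat_lit 75214) (.g (nat_lit 4795) (.e (nat_lit 1788) (nat_lit 119) (.e (nat_lit 516166) (nat_lit 12) (.e (nat_lit 450588) (nat_lit 10) (.e (nat_lit 573473) (nat_lit 12) (.e (nat_lit 57347) (nat_lit 0) (.e (nat_lit 7265) (nat_lit 384) (.e (nat_lit 57406) (nat_lit 12) (.e (nat_lit 335971) (nat_lit 0) .nil)))))))) (.g (nat_lit 5) .nil .nil))) 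
(.lf (nat_lit 75246) (.g (nat_lit 2522) (.e (nat_lit 1788) (nat_lit 119) (.e (nat_lit 516166) (nat_lit 12) (.e (nat_lit 450588) (nat_lit 10) (.e (nat_lit 573475) (nat_lit 12) (.e (nat_lit 57347) (nat_lit 0) (.e (nat_lit 7261) (nat_lit 384) (.e (nat_lit 57412) (nat_lit 12) (.e (nat_lit 335923) (nat_lit 0) .nil)))))))) (.g (nat_lit 4) .nil .nil)))) (.nd (nat_lit 5) 
(.lf (nat_lit 75230) (.g (nat_lit 4181) (.e (nat_lit 1788) (nat_lit 119) (.e (nat_lit 516166) (nat_lit 12) (.e (nat_lit 450588) (nat_lit 10) (.e (nat_lit 573473) (nat_lit 12) (.e (nat_lit 57353) (nat_lit 0) (.e (nat_lit 7261) (nat_lit 384) (.e (nat_lit 57412) (nat_lit 12) (.e (nat_lit 335923) (nat_lit 0) .nil)))))))) (.g (nat_lit 5) .nil .nil))) 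
(.lf (nat_lit 75262) (.g (nat_lit 4414) (.e (nat_lit 1788) (nat_lit 119) (.e (nat_lit 516166) (nat_lit 12) (.e (nat_lit 450588) (nat_lit 10) (.e (nat_lit 573475) (nat_lit 12) (.e (nat_lit 57574) (nat_lit 55) (.e (nat_lit 778466) (nat_lit 11) (.e (nat_lit 24576) (nat_lit 0) .nil))))))) (.g (nat_lit 0) .nil .nil)))))))) 
(.nd (nat_lit 1) (.nd (nat_lit 2) (.nd (nat_lit 3) (.nd (nat_lit 4) (.nd (nat_lit 5) 
(.lf (nat_lit 75201) (.g (nat_lit 2556) (.e (nat_lit 1788) (nat_lit 119) (.e (nat_lit 516166) (nat_lit 12) (.e (nat_lit 450588) (nat_lit 10) (.e (nat_lit 573470) (nat_lit 11) (.e (nat_lit 16473) (nat_lit 14) (.e (nat_lit 491525) (nat_lit 0) .nil)))))) (.g (nat_lit 4) .nil .nil))) 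
(.lf (nat_lit 75233) (.g (nat_lit 3709) (.e (nat_lit 1788) (nat_lit 119) (.e (nat_lit 516166) (nat_lit 12) (.e (nat_lit 450588) (nat_lit 10) (.e (nat_lit 573473) (nat_lit 12) (.e (nat_lit 57353) (nat_lit 0) (.e (nat_lit 7265) (nat_lit 384) (.e (nat_lit 57412) (nat_lit 12) (.e (nat_lit 335886) (nat_lit 0) .nil)))))))) (.g (nat_lit 4) .nil .nil)))) (.nd (nat_lit 5) 
(.lf (nat_lit 75217) (.g (nat_lit 4310) (.e (nat_lit 1788) (nat_lit 119) (.e (nat_lit 516166) (nat_lit 12) (.e (nat_lit 450588) (nat_lit 10) (.e (nat_lit 573473) (nat_lit 12) (.e (nat_lit 57348) (nat_lit 0) (.e (nat_lit 7261) (nat_lit 384) (.e (nat_lit 57412) (nat_lit 12) (.e (nat_lit 335923) (nat_lit 0) .nil)))))))) (.g (nat_lit 5) .nil .nil))) 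
(.lf (nat_lit 75249) (.g (nat_lit 2392) (.e (nat_lit 1788) (nat_lit 119) (.e (nat_lit 516166) (nat_lit 12) (.e (nat_lit 450588) (nat_lit 10) (.e (nat_lit 573475) (nat_lit 12) (.e (nat_lit 57347) (nat_lit 0) (.e (nat_lit 7265) (nat_lit 384) (.e (nat_lit 57412) (nat_lit 12) (.e (nat_lit 335923) (nat_lit 0) .nil)))))))) (.g (nat_lit 4) .nil .nil))))) (.nd (nat_lit 4) (.nd (nat_lit 5) 
(.lf (nat_lit 75209) (.g (nat_lit 2444) (.e (nat_lit 1788) (nat_lit 119) (.e (nat_lit 516166) (nat_lit 12) (.e (nat_lit 450588) (nat_lit 10) (.e (nat_lit 573473) (nat_lit 12) .nil)))) .nil)) 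
(.lf (nat_lit 75241) (.g (nat_lit 6069) (.e (nat_lit 1788) (nat_lit 119) (.e (nat_lit 516166) (nat_lit 12) (.e (nat_lit 450588) (nat_lit 10) (.e (nat_lit 573474) (nat_lit 12) (.e (nat_lit 57572) (nat_lit 54) (.e (nat_lit 770071) (nat_lit 8) (.e (nat_lit 65550) (nat_lit 0) .nil))))))) (.g (nat_lit 4) .nil .nil)))) (.nd (nat_lit 5) 
(.lf (nat_lit 75225) (.g (nat_lit 3559) (.e (nat_lit 1788) (nat_lit 119) (.e (nat_lit 516166) (nat_lit 12) (.e (nat_lit 450588) (nat_lit 10) (.e (nat_lit 573473) (nat_lit 12) (.e (nat_lit 57352) (nat_lit 0) (.e (nat_lit 7261) (nat_lit 384) (.e (nat_lit 57412) (nat_lit 12) (.e (nat_lit 335886) (nat_lit 0) .nil)))))))) (.g (nat_lit 4) .nil .nil))) 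
(.lf (nat_lit 75257) (.g (nat_lit 3243) (.e (nat_lit 1788) (nat_lit 119) (.e (nat_lit 516166) (nat_lit 12) (.e (nat_lit 450588) (nat_lit 10) (.e (nat_lit 573475) (nat_lit 12) (.e (nat_lit 57574) (nat_lit 55) (.e (nat_lit 778463) (nat_lit 11) (.e (nat_lit 24588) (nat_lit 0) .nil))))))) (.g (nat_lit 5) .nil .nil)))))) (.nd (nat_lit 3) (.nd (nat_lit 4) (.nd (nat_lit 5) 
(.lf (nat_lit 75205) (.g (nat_lit 4528) (.e (nat_lit 1788) (nat_lit 119) (.e (nat_lit 516166) (nat_lit 12) (.e (nat_lit 450588) (nat_lit 10) (.e (nat_lit 573471) (nat_lit 11) (.e (nat_lit 16472) (nat_lit 14) (.e (nat_lit 491526) (nat_lit 0) .nil)))))) (.g (nat_lit 0) .nil .nil))) 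
(.lf (nat_lit 75237) (.g (nat_lit 3562) (.e (nat_lit 1788) (nat_lit 119) (.e (nat_lit 516166) (nat_lit 12) (.e (nat_lit 450588) (nat_lit 10) (.e (nat_lit 573473) (nat_lit 12) (.e (nat_lit 57569) (nat_lit 53) (.e (nat_lit 761866) (nat_lit 5) (.e (nat_lit 1454) (nat_lit 108) (.e (nat_lit 335923) (nat_lit 0) .nil)))))))) (.g (nat_lit 4) .nil .nil)))) (.nd (nat_lit 5) 
(.lf (nat_lit 75221) (.g (nat_lit 3677) (.e (nat_lit 1788) (nat_lit 119) (.e (nat_lit 516166) (nat_lit 12) (.e (nat_lit 450588) (nat_lit 10) (.e (nat_lit 573473) (nat_lit 12) (.e (nat_lit 57348) (nat_lit 0) (.e (nat_lit 7265) (nat_lit 384) (.e (nat_lit 57406) (nat_lit 12) (.e (nat_lit 335973) (nat_lit 0) .nil)))))))) (.g (nat_lit 4) .nil .nil))) 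
(.lf (nat_lit 75253) (.g (nat_lit 2988) (.e (nat_lit 1788) (nat_lit 119) (.e (nat_lit 516166) (nat_lit 12) (.e (nat_lit 450588) (nat_lit 10) (.e (nat_lit 573475) (nat_lit 12) (.e (nat_lit 57351) (nat_lit 0) (.e (nat_lit 7265) (nat_lit 384) (.e (nat_lit 57406) (nat_lit 12) (.e (nat_lit 335971) (nat_lit 0) .nil)))))))) (.g (nat_lit 5) .nil .nil))))) (.nd (nat_lit 4) (.nd (nat_lit 5) 
(.lf (nat_lit 75213) (.g (nat_lit 4160) (.e (nat_lit 1788) (nat_lit 119) (.e (nat_lit 516166) (nat_lit 12) (.e (nat_lit 450588) (nat_lit 10) (.e (nat_lit 573473) (nat_lit 12) (.e (nat_lit 57347) (nat_lit 0) (.e (nat_lit 7265) (nat_lit 384) (.e (nat_lit 57406) (nat_lit 12) (.e (nat_lit 335969) (nat_lit 0) .nil)))))))) (.g (nat_lit 5) .nil .nil))) 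
(.lf (nat_lit 75245) (.g (nat_lit 2302) (.e (nat_lit 1788) (nat_lit 119) (.e (nat_lit 516166) (nat_lit 12) (.e (nat_lit 450588) (nat_lit 10) (.e (nat_lit 573475) (nat_lit 12) (.e (nat_lit 57347) (nat_lit 0) (.e (nat_lit 7124) (nat_lit 382) (.e (nat_lit 1201) (nat_lit 88) (.e (nat_lit 65550) (nat_lit 0) .nil)))))))) (.g (nat_lit 4) .nil .nil)))) (.nd (nat_lit 5) 
(.lf (nat_lit 75229) (.g (nat_lit 3665) (.e (nat_lit 1788) (nat_lit 119) (.e (nat_lit 516166) (nat_lit 12) (.e (nat_lit 450588) (nat_lit 10) (.e (nat_lit 573473) (nat_lit 12) (.e (nat_lit 57353) (nat_lit 0) (.e (nat_lit 7261) (nat_lit 384) (.e (nat_lit 57412) (nat_lit 12) (.e (nat_lit 335886) (nat_lit 0) .nil)))))))) (.g (nat_lit 4) .nil .nil))) 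
(.lf (nat_lit 75261) (.g (nat_lit 4714) (.e (nat_lit 1788) (nat_lit 119) (.e (nat_lit 516166) (nat_lit 12) (.e (nat_lit 450588) (nat_lit 10) (.e (nat_lit 573475) (nat_lit 12) (.e (nat_lit 57574) (nat_lit 55) (.e (nat_lit 778465) (nat_lit 11) (.e (nat_lit 24588) (nat_lit 0) .nil))))))) (.g (nat_lit 7) .nil .nil))))))) (.nd (nat_lit 2) (.nd (nat_lit 3) (.nd (nat_lit 4) (.nd (nat_lit 5) 
(.lf (nat_lit 75203) (.g (nat_lit 2104) (.e (nat_lit 1788) (nat_lit 119) (.e (nat_lit 516166) (nat_lit 12) (.e (nat_lit 450588) (nat_lit 10) (.e (nat_lit 573471) (nat_lit 11) (.e (nat_lit 16388) (nat_lit 0) .nil))))) .nil)) 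
(.lf (nat_lit 75235) (.g (nat_lit 3350) (.e (nat_lit 1788) (nat_lit 119) (.e (nat_lit 516166) (nat_lit 12) (.e (nat_lit 450588) (nat_lit 10) (.e (nat_lit 573473) (nat_lit 12) (.e (nat_lit 57354) (nat_lit 0) (.e (nat_lit 7270) (nat_lit 385) (.e (nat_lit 122906) (nat_lit 12) (.e (nat_lit 335923) (nat_lit 0) .nil)))))))) (.g (nat_lit 4) .nil .nil)))) (.nd (nat_lit 5) 
(.lf (nat_lit 75219) (.g (nat_lit 3756) (.e (nat_lit 1788) (nat_lit 119) (.e (nat_lit 516166) (nat_lit 12) (.e (nat_lit 450588) (nat_lit 10) (.e (nat_lit 573473) (nat_lit 12) (.e (nat_lit 57348) (nat_lit 0) (.e (nat_lit 7263) (nat_lit 384) (.e (nat_lit 57412) (nat_lit 12) (.e (nat_lit 335923) (nat_lit 0) .nil)))))))) (.g (nat_lit 4) .nil .nil))) 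
(.lf (nat_lit 75251) (.g (nat_lit 3141) (.e (nat_lit 1788) (nat_lit 119) (.e (nat_lit 516166) (nat_lit 12) (.e (nat_lit 450588) (nat_lit 10) (.e (nat_lit 573475) (nat_lit 12) (.e (nat_lit 57348) (nat_lit 0) (.e (nat_lit 7265) (nat_lit 384) (.e (nat_lit 57406) (nat_lit 12) (.e (nat_lit 335971) (nat_lit 0) .nil)))))))) (.g (nat_lit 4) .nil .nil))))) (.nd (nat_lit 4) (.nd (nat_lit 5) 
(.lf (nat_lit 75211) (.g (nat_lit 4228) (.e (nat_lit 1788) (nat_lit 119) (.e (nat_lit 516166) (nat_lit 12) (.e (nat_lit 450588) (nat_lit 10) (.e (nat_lit 573473) (nat_lit 12) (.e (nat_lit 57347) (nat_lit 0) (.e (nat_lit 7125) (nat_lit 382) (.e (nat_lit 1201) (nat_lit 88) (.e (nat_lit 65550) (nat_lit 0) .nil)))))))) (.g (nat_lit 5) .nil .nil))) 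
(.lf (nat_lit 75243) (.g (nat_lit 6654) (.e (nat_lit 1788) (nat_lit 119) (.e (nat_lit 516166) (nat_lit 12) (.e (nat_lit 450588) (nat_lit 10) (.e (nat_lit 573474) (nat_lit 12) (.e (nat_lit 57572) (nat_lit 54) (.e (nat_lit 770072) (nat_lit 8) (.e (nat_lit 65550) (nat_lit 0) .nil))))))) (.g (nat_lit 5) .nil .nil)))) (.nd (nat_lit 5) 
(.lf (nat_lit 75227) (.g (nat_lit 3462) (.e (nat_lit 1788) (nat_lit 119) (.e (nat_lit 516166) (nat_lit 12) (.e (nat_lit 450588) (nat_lit 10) (.e (nat_lit 573473) (nat_lit 12) (.e (nat_lit 57352) (nat_lit 0) (.e (nat_lit 7263) (nat_lit 384) (.e (nat_lit 57412) (nat_lit 12) (.e (nat_lit 335886) (nat_lit 0) .nil)))))))) (.g (nat_lit 4) .nil .nil))) 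
(.lf (nat_lit 75259) (.g (nat_lit 3899) (.e (nat_lit 1788) (nat_lit 119) (.e (nat_lit 516166) (nat_lit 12) (.e (nat_lit 450588) (nat_lit 10) (.e (nat_lit 573475) (nat_lit 12) (.e (nat_lit 57574) (nat_lit 55) (.e (nat_lit 778464) (nat_lit 11) (.e (nat_lit 24588) (nat_lit 0) .nil))))))) (.g (nat_lit 6) .nil .nil)))))) (.nd (nat_lit 3) (.nd (nat_lit 4) (.nd (nat_lit 5) 
(.lf (nat_lit 75207) (.g (nat_lit 4382) (.e (nat_lit 1788) (nat_lit 119) (.e (nat_lit 516166) (nat_lit 12) (.e (nat_lit 450588) (nat_lit 10) (.e (nat_lit 573471) (nat_lit 11) (.e (nat_lit 16473) (nat_lit 14) (.e (nat_lit 491525) (nat_lit 0) .nil)))))) (.g (nat_lit 6) .nil .nil))) 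
(.lf (nat_lit 75239) (.g (nat_lit 3905) (.e (nat_lit 1788) (nat_lit 119) (.e (nat_lit 516166) (nat_lit 12) (.e (nat_lit 450588) (nat_lit 10) (.e (nat_lit 573473) (nat_lit 12) (.e (nat_lit 57572) (nat_lit 54) (.e (nat_lit 770071) (nat_lit 8) (.e (nat_lit 65550) (nat_lit 0) .nil))))))) (.g (nat_lit 4) .nil .nil)))) (.nd (nat_lit 5) 
(.lf (nat_lit 75223) (.g (nat_lit 4183) (.e (nat_lit 1788) (nat_lit 119) (.e (nat_lit 516166) (nat_lit 12) (.e (nat_lit 450588) (nat_lit 10) (.e (nat_lit 573473) (nat_lit 12) (.e (nat_lit 57348) (nat_lit 0) (.e (nat_lit 7265) (nat_lit 384) (.e (nat_lit 57412) (nat_lit 12) (.e (nat_lit 335923) (nat_lit 0) .nil)))))))) (.g (nat_lit 5) .nil .nil))) 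
(.lf (nat_lit 75255) (.g (nat_lit 2854) (.e (nat_lit 1788) (nat_lit 119) (.e (nat_lit 516166) (nat_lit 12) (.e (nat_lit 450588) (nat_lit 10) (.e (nat_lit 573475) (nat_lit 12) (.e (nat_lit 57569) (nat_lit 53) (.e (nat_lit 761866) (nat_lit 5) (.e (nat_lit 1454) (nat_lit 108) (.e (nat_lit 335928) (nat_lit 0) .nil)))))))) (.g (nat_lit 4) .nil .nil))))) (.nd (nat_lit 4) (.nd (nat_lit 5) 
(.lf (nat_lit 75215) (.g (nat_lit 3430) (.e (nat_lit 1788) (nat_lit 119) (.e (nat_lit 516166) (nat_lit 12) (.e (nat_lit 450588) (nat_lit 10) (.e (nat_lit 573473) (nat_lit 12) (.e (nat_lit 57347) (nat_lit 0) (.e (nat_lit 7265) (nat_lit 384) (.e (nat_lit 57412) (nat_lit 12) (.e (nat_lit 335923) (nat_lit 0) .nil)))))))) (.g (nat_lit 4) .nil .nil))) 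
(.lf (nat_lit 75247) (.g (nat_lit 3130) (.e (nat_lit 1788) (nat_lit 119) (.e (nat_lit 516166) (nat_lit 12) (.e (nat_lit 450588) (nat_lit 10) (.e (nat_lit 573475) (nat_lit 12) (.e (nat_lit 57347) (nat_lit 0) (.e (nat_lit 7265) (nat_lit 384) (.e (nat_lit 57406) (nat_lit 12) (.e (nat_lit 335969) (nat_lit 0) .nil)))))))) (.g (nat_lit 5) .nil .nil)))) (.nd (nat_lit 5) 
(.lf (nat_lit 75231) (.g (nat_lit 5520) (.e (nat_lit 1788) (nat_lit 119) (.e (nat_lit 516166) (nat_lit 12) (.e (nat_lit 450588) (nat_lit 10) (.e (nat_lit 573473) (nat_lit 12) (.e (nat_lit 57353) (nat_lit 0) (.e (nat_lit 7265) (nat_lit 384) (.e (nat_lit 57406) (nat_lit 12) (.e (nat_lit 335971) (nat_lit 0) .nil)))))))) (.g (nat_lit 7) .nil .nil))) 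
(.lf (nat_lit 75263) (.g (nat_lit 5068) (.e (nat_lit 1788) (nat_lit 119) (.e (nat_lit 516166) (nat_lit 12) (.e (nat_lit 450588) (nat_lit 10) (.e (nat_lit 573475) (nat_lit 12) (.e (nat_lit 57574) (nat_lit 55) (.e (nat_lit 778466) (nat_lit 11) (.e (nat_lit 24588) (nat_lit 0) .nil))))))) (.g (nat_lit 7) .nil .nil)))))))))

noncomputable def tv1019 : DT := (.nd (nat_lit 0) (.nd (nat_lit 1) (.nd (nat_lit 2) (.nd (nat_lit 3) (.nd (nat_lit 4) (.nd (nat_lit 5) 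
(.lf (nat_lit 75264) (.g (nat_lit 4677) (.e (nat_lit 1788) (nat_lit 119) (.e (nat_lit 516166) (nat_lit 12) (.e (nat_lit 450588) (nat_lit 10) (.e (nat_lit 573475) (nat_lit 12) (.e (nat_lit 57574) (nat_lit 55) (.e (nat_lit 778466) (nat_lit 11) (.e (nat_lit 24589) (nat_lit 0) .nil))))))) (.g (nat_lit 7) .nil .nil))) 
(.lf (nat_lit 75296) (.g (nat_lit 3374) (.e (nat_lit 1788) (nat_lit 119) (.e (nat_lit 516180) (nat_lit 15) (.e (nat_lit 475177) (nat_lit 24) (.e (nat_lit 516146) (nat_lit 9) (.e (nat_lit 426438) (nat_lit 18) (.e (nat_lit 98358) (nat_lit 26) (.e (nat_lit 426402) (nat_lit 15) .nil))))))) (.g (nat_lit 7) .nil .nil)))) (.nd (nat_lit 5) 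
(.lf (nat_lit 75280) (.g (nat_lit 3697) (.e (nat_lit 1788) (nat_lit 119) (.e (nat_lit 516176) (nat_lit 14) (.e (nat_lit 466980) (nat_lit 23) (.e (nat_lit 204846) (nat_lit 24) (.e (nat_lit 319534) (nat_lit 16) (.e (nat_lit 286728) (nat_lit 0) .nil)))))) (.g (nat_lit 6) .nil .nil))) 
(.lf (nat_lit 75312) (.g (nat_lit 3749) (.e (nat_lit 1788) (nat_lit 119) (.e (nat_lit 516185) (nat_lit 16) (.e (nat_lit 491563) (nat_lit 12) (.e (nat_lit 385073) (nat_lit 31) (.e (nat_lit 573493) (nat_lit 15) .nil))))) .nil)))) (.nd (nat_lit 4) (.nd (nat_lit 5) 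
(.lf (nat_lit 75272) (.g (nat_lit 3832) (.e (nat_lit 1788) (nat_lit 119) (.e (nat_lit 516174) (nat_lit 14) (.e (nat_lit 466980) (nat_lit 23) (.e (nat_lit 204846) (nat_lit 24) (.e (nat_lit 319534) (nat_lit 16) (.e (nat_lit 286728) (nat_lit 0) .nil)))))) (.g (nat_lit 6) .nil .nil))) 
(.lf (nat_lit 75304) (.g (nat_lit 3129) (.e (nat_lit 1788) (nat_lit 119) (.e (nat_lit 516185) (nat_lit 16) (.e (nat_lit 491560) (nat_lit 10) (.e (nat_lit 344118) (nat_lit 21) (.e (nat_lit 516179) (nat_lit 15) (.e (nat_lit 475211) (nat_lit 41) (.e (nat_lit 712706) (nat_lit 0) .nil))))))) (.g (nat_lit 4) .nil .nil)))) (.nd (nat_lit 5) 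
(.lf (nat_lit 75288) (.g (nat_lit 2408) (.e (nat_lit 1788) (nat_lit 119) (.e (nat_lit 516179) (nat_lit 15) (.e (nat_lit 475177) (nat_lit 24) (.e (nat_lit 516145) (nat_lit 9) (.e (nat_lit 426438) (nat_lit 18) (.e (nat_lit 98358) (nat_lit 26) (.e (nat_lit 426402) (nat_lit 15) .nil))))))) (.g (nat_lit 4) .nil .nil))) 
(.lf (nat_lit 75320) (.g (nat_lit 5446) (.e (nat_lit 1788) (nat_lit 119) (.e (nat_lit 516185) (nat_lit 16) (.e (nat_lit 491563) (nat_lit 12) (.e (nat_lit 385074) (nat_lit 31) (.e (nat_lit 573493) (nat_lit 15) (.e (nat_lit 81938) (nat_lit 20) .nil)))))) (.g (nat_lit 5) .nil .nil)))))) (.nd (nat_lit 3) (.nd (nat_lit 4) (.nd (nat_lit 5) 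
(.lf (nat_lit 75268) (.g (nat_lit 3192) (.e (nat_lit 1788) (nat_lit 119) (.e (nat_lit 516167) (nat_lit 12) (.e (nat_lit 450580) (nat_lit 5) (.e (nat_lit 532523) (nat_lit 7) (.e (nat_lit 319533) (nat_lit 16) (.e (nat_lit 286724) (nat_lit 0) .nil)))))) (.g (nat_lit 5) .nil .nil))) 
(.lf (nat_lit 75300) (.g (nat_lit 1317) (.e (nat_lit 1788) (nat_lit 119) (.e (nat_lit 516180) (nat_lit 15) (.e (nat_lit 475214) (nat_lit 42) (.e (nat_lit 720945) (nat_lit 23) .nil)))) .nil))) (.nd (nat_lit 5) 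
(.lf (nat_lit 75284) (.g (nat_lit 2524) (.e (nat_lit 1788) (nat_lit 119) (.e (nat_lit 516176) (nat_lit 14) (.e (nat_lit 466981) (nat_lit 23) (.e (nat_lit 204846) (nat_lit 24) (.e (nat_lit 319533) (nat_lit 16) (.e (nat_lit 286720) (nat_lit 0) .nil)))))) (.g (nat_lit 4) .nil .nil))) 
(.lf (nat_lit 75316) (.g (nat_lit 3773) (.e (nat_lit 1788) (nat_lit 119) (.e (nat_lit 516185) (nat_lit 16) (.e (nat_lit 491563) (nat_lit 12) (.e (nat_lit 385074) (nat_lit 31) (.e (nat_lit 573491) (nat_lit 15) (.e (nat_lit 81942) (nat_lit 20) .nil)))))) (.g (nat_lit 4) .nil .nil))))) (.nd (nat_lit 4) (.nd (nat_lit 5) 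
(.lf (nat_lit 75276) (.g (nat_lit 2997) (.e (nat_lit 1788) (nat_lit 119) (.e (nat_lit 516176) (nat_lit 14) (.e (nat_lit 466967) (nat_lit 20) (.e (nat_lit 3253) (nat_lit 197) (.e (nat_lit 532523) (nat_lit 7) (.e (nat_lit 319533) (nat_lit 16) (.e (nat_lit 286724) (nat_lit 0) .nil))))))) (.g (nat_lit 6) .nil .nil))) 
(.lf (nat_lit 75308) (.g (nat_lit 2872) (.e (nat_lit 1788) (nat_lit 119) (.e (nat_lit 516185) (nat_lit 16) (.e (nat_lit 491560) (nat_lit 10) (.e (nat_lit 344129) (nat_lit 26) (.e (nat_lit 557067) (nat_lit 9) .nil))))) .nil))) (.nd (nat_lit 5) 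
(.lf (nat_lit 75292) (.g (nat_lit 2840) (.e (nat_lit 1788) (nat_lit 119) (.e (nat_lit 516179) (nat_lit 15) (.e (nat_lit 475177) (nat_lit 24) (.e (nat_lit 516181) (nat_lit 15) (.e (nat_lit 475177) (nat_lit 24) (.e (nat_lit 516148) (nat_lit 9) (.e (nat_lit 426402) (nat_lit 15) .nil))))))) (.g (nat_lit 5) .nil .nil))) 
(.lf (nat_lit 75324) (.g (nat_lit 2510) (.e (nat_lit 1788) (nat_lit 119) (.e (nat_lit 516195) (nat_lit 26) (.e (nat_lit 336004) (nat_lit 2) (.e (nat_lit 90158) (nat_lit 11) (.e (nat_lit 24608) (nat_lit 3) (.e (nat_lit 98317) (nat_lit 9) (.e (nat_lit 335917) (nat_lit 0) .nil))))))) (.g (nat_lit 5) .nil .nil))))))) (.nd (nat_lit 2) (.nd (nat_lit 3) (.nd (nat_lit 4) (.nd (nat_lit 5) 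
(.lf (nat_lit 75266) (.g (nat_lit 608) (.e (nat_lit 1788) (nat_lit 119) (.e (nat_lit 516166) (nat_lit 12) (.e (nat_lit 450589) (nat_lit 11) .nil))) .nil)) 
(.lf (nat_lit 75298) (.g (nat_lit 3206) (.e (nat_lit 1788) (nat_lit 119) (.e (nat_lit 516180) (nat_lit 15) (.e (nat_lit 475177) (nat_lit 24) (.e (nat_lit 516150) (nat_lit 9) (.e (nat_lit 426438) (nat_lit 18) (.e (nat_lit 98358) (nat_lit 26) (.e (nat_lit 426402) (nat_lit 15) .nil))))))) (.g (nat_lit 7) .nil .nil)))) (.nd (nat_lit 5) 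
(.lf (nat_lit 75282) (.g (nat_lit 2109) (.e (nat_lit 1788) (nat_lit 119) (.e (nat_lit 516176) (nat_lit 14) (.e (nat_lit 466981) (nat_lit 23) (.e (nat_lit 204845) (nat_lit 24) (.e (nat_lit 319531) (nat_lit 16) (.e (nat_lit 286720) (nat_lit 0) .nil)))))) (.g (nat_lit 4) .nil .nil))) 
(.lf (nat_lit 75314) (.g (nat_lit 5168) (.e (nat_lit 1788) (nat_lit 119) (.e (nat_lit 516185) (nat_lit 16) (.e (nat_lit 491563) (nat_lit 12) (.e (nat_lit 385074) (nat_lit 31) (.e (nat_lit 573491) (nat_lit 15) (.e (nat_lit 81928) (nat_lit 20) .nil)))))) (.g (nat_lit 5) .nil .nil))))) (.nd (nat_lit 4) (.nd (nat_lit 5) 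
(.lf (nat_lit 75274) (.g (nat_lit 3466) (.e (nat_lit 1788) (nat_lit 119) (.e (nat_lit 516175) (nat_lit 14) (.e (nat_lit 466980) (nat_lit 23) (.e (nat_lit 204846) (nat_lit 24) (.e (nat_lit 319534) (nat_lit 16) (.e (nat_lit 286728) (nat_lit 0) .nil)))))) (.g (nat_lit 6) .nil .nil))) 
(.lf (nat_lit 75306) (.g (nat_lit 4035) (.e (nat_lit 1788) (nat_lit 119) (.e (nat_lit 516185) (nat_lit 16) (.e (nat_lit 491560) (nat_lit 10) (.e (nat_lit 344118) (nat_lit 21) (.e (nat_lit 516182) (nat_lit 15) (.e (nat_lit 475211) (nat_lit 41) (.e (nat_lit 712706) (nat_lit 0) .nil))))))) (.g (nat_lit 6) .nil .nil)))) (.nd (nat_lit 5) 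
(.lf (nat_lit 75290) (.g (nat_lit 4337) (.e (nat_lit 1788) (nat_lit 119) (.e (nat_lit 516179) (nat_lit 15) (.e (nat_lit 475177) (nat_lit 24) (.e (nat_lit 516150) (nat_lit 9) (.e (nat_lit 426436) (nat_lit 18) (.e (nat_lit 98358) (nat_lit 26) (.e (nat_lit 426402) (nat_lit 15) .nil))))))) (.g (nat_lit 7) .nil .nil))) 
(.lf (nat_lit 75322) (.g (nat_lit 1991) (.e (nat_lit 1788) (nat_lit 119) (.e (nat_lit 516195) (nat_lit 26) (.e (nat_lit 336004) (nat_lit 2) (.e (nat_lit 90158) (nat_lit 11) (.e (nat_lit 24608) (nat_lit 3) (.e (nat_lit 98316) (nat_lit 9) (.e (nat_lit 335917) (nat_lit 0) .nil))))))) (.g (nat_lit 4) .nil .nil)))))) (.nd (nat_lit 3) (.nd (nat_lit 4) (.nd (nat_lit 5) 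
(.lf (nat_lit 75270) (.g (nat_lit 2458) (.e (nat_lit 1788) (nat_lit 119) (.e (nat_lit 516174) (nat_lit 14) (.e (nat_lit 466980) (nat_lit 23) (.e (nat_lit 204846) (nat_lit 24) (.e (nat_lit 319533) (nat_lit 16) (.e (nat_lit 286720) (nat_lit 0) .nil)))))) (.g (nat_lit 5) .nil .nil))) 
(.lf (nat_lit 75302) (.g (nat_lit 1488) (.e (nat_lit 1788) (nat_lit 119) (.e (nat_lit 516185) (nat_lit 16) (.e (nat_lit 491560) (nat_lit 10) (.e (nat_lit 344115) (nat_lit 20) .nil)))) .nil))) (.nd (nat_lit 5) 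
(.lf (nat_lit 75286) (.g (nat_lit 3923) (.e (nat_lit 1788) (nat_lit 119) (.e (nat_lit 516176) (nat_lit 14) (.e (nat_lit 466981) (nat_lit 23) (.e (nat_lit 204846) (nat_lit 24) (.e (nat_lit 319534) (nat_lit 16) (.e (nat_lit 286728) (nat_lit 0) .nil)))))) (.g (nat_lit 6) .nil .nil))) 
(.lf (nat_lit 75318) (.g (nat_lit 4061) (.e (nat_lit 1788) (nat_lit 119) (.e (nat_lit 516185) (nat_lit 16) (.e (nat_lit 491563) (nat_lit 12) (.e (nat_lit 385074) (nat_lit 31) (.e (nat_lit 573493) (nat_lit 15) .nil))))) .nil)))) (.nd (nat_lit 4) (.nd (nat_lit 5) 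
(.lf (nat_lit 75278) (.g (nat_lit 2511) (.e (nat_lit 1788) (nat_lit 119) (.e (nat_lit 516176) (nat_lit 14) (.e (nat_lit 466980) (nat_lit 23) (.e (nat_lit 204846) (nat_lit 24) (.e (nat_lit 319533) (nat_lit 16) (.e (nat_lit 286720) (nat_lit 0) .nil)))))) (.g (nat_lit 5) .nil .nil))) 
(.lf (nat_lit 75310) (.g (nat_lit 2047) (.e (nat_lit 1788) (nat_lit 119) (.e (nat_lit 516185) (nat_lit 16) (.e (nat_lit 491560) (nat_lit 10) (.e (nat_lit 344133) (nat_lit 26) .nil)))) .nil))) (.nd (nat_lit 5) 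
(.lf (nat_lit 75294) (.g (nat_lit 3307) (.e (nat_lit 1788) (nat_lit 119) (.e (nat_lit 516179) (nat_lit 15) (.e (nat_lit 475179) (nat_lit 24) (.e (nat_lit 516146) (nat_lit 9) (.e (nat_lit 426438) (nat_lit 18) (.e (nat_lit 98358) (nat_lit 26) (.e (nat_lit 426402) (nat_lit 15) .nil))))))) (.g (nat_lit 4) .nil .nil))) 
(.lf (nat_lit 75326) (.g (nat_lit 1674) (.e (nat_lit 1788) (nat_lit 119) (.e (nat_lit 516195) (nat_lit 26) (.e (nat_lit 336004) (nat_lit 2) (.e (nat_lit 90158) (nat_lit 11) (.e (nat_lit 24609) (nat_lit 3) .nil))))) .nil))))))) (.nd (nat_lit 1) (.nd (nat_lit 2) (.nd (nat_lit 3) (.nd (nat_lit 4) (.nd (nat_lit 5) 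
(.lf (nat_lit 75265) (.g (nat_lit 3122) (.e (nat_lit 1788) (nat_lit 119) (.e (nat_lit 516166) (nat_lit 12) (.e (nat_lit 450588) (nat_lit 10) (.e (nat_lit 573503) (nat_lit 18) .nil)))) .nil)) 
(.lf (nat_lit 75297) (.g (nat_lit 3415) (.e (nat_lit 1788) (nat_lit 119) (.e (nat_lit 516180) (nat_lit 15) (.e (nat_lit 475177) (nat_lit 24) (.e (nat_lit 516150) (nat_lit 9) (.e (nat_lit 426436) (nat_lit 18) (.e (nat_lit 98358) (nat_lit 26) (.e (nat_lit 426402) (nat_lit 15) .nil))))))) (.g (nat_lit 6) .nil .nil)))) (.nd (nat_lit 5) 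
(.lf (nat_lit 75281) (.g (nat_lit 523) (.e (nat_lit 1788) (nat_lit 119) (.e (nat_lit 516176) (nat_lit 14) (.e (nat_lit 466981) (nat_lit 23) .nil))) .nil)) 
(.lf (nat_lit 75313) (.g (nat_lit 3697) (.e (nat_lit 1788) (nat_lit 119) (.e (nat_lit 516185) (nat_lit 16) (.e (nat_lit 491563) (nat_lit 12) (.e (nat_lit 385074) (nat_lit 31) (.e (nat_lit 573491) (nat_lit 15) .nil))))) .nil)))) (.nd (nat_lit 4) (.nd (nat_lit 5) 
(.lf (nat_lit 75273) (.g (nat_lit 2447) (.e (nat_lit 1788) (nat_lit 119) (.e (nat_lit 516175) (nat_lit 14) (.e (nat_lit 466980) (nat_lit 23) (.e (nat_lit 204846) (nat_lit 24) (.e (nat_lit 319533) (nat_lit 16) (.e (nat_lit 286724) (nat_lit 0) .nil)))))) (.g (nat_lit 5) .nil .nil))) 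
(.lf (nat_lit 75305) (.g (nat_lit 3537) (.e (nat_lit 1788) (nat_lit 119) (.e (nat_lit 516185) (nat_lit 16) (.e (nat_lit 491560) (nat_lit 10) (.e (nat_lit 344118) (nat_lit 21) (.e (nat_lit 516182) (nat_lit 15) (.e (nat_lit 475209) (nat_lit 41) (.e (nat_lit 712706) (nat_lit 0) .nil))))))) (.g (nat_lit 5) .nil .nil)))) (.nd (nat_lit 5) 
(.lf (nat_lit 75289) (.g (nat_lit 4187) (.e (nat_lit 1788) (nat_lit 119) (.e (nat_lit 516179) (nat_lit 15) (.e (nat_lit 475177) (nat_lit 24) (.e (nat_lit 516146) (nat_lit 9) (.e (nat_lit 426436) (nat_lit 18) (.e (nat_lit 98358) (nat_lit 26) (.e (nat_lit 426402) (nat_lit 15) .nil))))))) (.g (nat_lit 7) .nil .nil))) 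
(.lf (nat_lit 75321) (.g (nat_lit 2221) (.e (nat_lit 1788) (nat_lit 119) (.e (nat_lit 516195) (nat_lit 26) (.e (nat_lit 336004) (nat_lit 2) (.e (nat_lit 90158) (nat_lit 11) (.e (nat_lit 24607) (nat_lit 3) (.e (nat_lit 98317) (nat_lit 9) (.e (nat_lit 335926) (nat_lit 0) .nil))))))) (.g (nat_lit 4) .nil .nil)))))) (.nd (nat_lit 3) (.nd (nat_lit 4) (.nd (nat_lit 5) 
(.lf (nat_lit 75269) (.g (nat_lit 3903) (.e (nat_lit 1788) (nat_lit 119) (.e (nat_lit 516167) (nat_lit 12) (.e (nat_lit 450580) (nat_lit 5) (.e (nat_lit 532523) (nat_lit 7) (.e (nat_lit 319534) (nat_lit 16) (.e (nat_lit 286728) (nat_lit 0) .nil)))))) (.g (nat_lit 0) .nil .nil))) 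
(.lf (nat_lit 75301) (.g (nat_lit 540) (.e (nat_lit 1788) (nat_lit 119) (.e (nat_lit 516185) (nat_lit 16) (.e (nat_lit 491560) (nat_lit 10) .nil))) .nil))) (.nd (nat_lit 5) 
(.lf (nat_lit 75285) (.g (nat_lit 2614) (.e (nat_lit 1788) (nat_lit 119) (.e (nat_lit 516176) (nat_lit 14) (.e (nat_lit 466981) (nat_lit 23) (.e (nat_lit 204846) (nat_lit 24) (.e (nat_lit 319534) (nat_lit 16) (.e (nat_lit 286720) (nat_lit 0) .nil)))))) (.g (nat_lit 4) .nil .nil))) 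
(.lf (nat_lit 75317) (.g (nat_lit 4245) (.e (nat_lit 1788) (nat_lit 119) (.e (nat_lit 516185) (nat_lit 16) (.e (nat_lit 491563) (nat_lit 12) (.e (nat_lit 385074) (nat_lit 31) (.e (nat_lit 573491) (nat_lit 15) (.e (nat_lit 81946) (nat_lit 20) .nil)))))) (.g (nat_lit 4) .nil .nil))))) (.nd (nat_lit 4) (.nd (nat_lit 5) 
(.lf (nat_lit 75277) (.g (nat_lit 2435) (.e (nat_lit 1788) (nat_lit 119) (.e (nat_lit 516176) (nat_lit 14) (.e (nat_lit 466979) (nat_lit 23) (.e (nat_lit 204846) (nat_lit 24) (.e (nat_lit 319534) (nat_lit 16) (.e (nat_lit 286728) (nat_lit 0) .nil)))))) (.g (nat_lit 4) .nil .nil))) 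
(.lf (nat_lit 75309) (.g (nat_lit 2049) (.e (nat_lit 1788) (nat_lit 119) (.e (nat_lit 516185) (nat_lit 16) (.e (nat_lit 491560) (nat_lit 10) (.e (nat_lit 344131) (nat_lit 26) .nil)))) .nil))) (.nd (nat_lit 5) 
(.lf (nat_lit 75293) (.g (nat_lit 3441) (.e (nat_lit 1788) (nat_lit 119) (.e (nat_lit 516179) (nat_lit 15) (.e (nat_lit 475179) (nat_lit 24) (.e (nat_lit 516146) (nat_lit 9) (.e (nat_lit 426436) (nat_lit 18) (.e (nat_lit 98358) (nat_lit 26) (.e (nat_lit 426402) (nat_lit 15) .nil))))))) (.g (nat_lit 5) .nil .nil))) 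
(.lf (nat_lit 75325) (.g (nat_lit 2093) (.e (nat_lit 1788) (nat_lit 119) (.e (nat_lit 516195) (nat_lit 26) (.e (nat_lit 336004) (nat_lit 2) (.e (nat_lit 90158) (nat_lit 11) (.e (nat_lit 24608) (nat_lit 3) (.e (nat_lit 98317) (nat_lit 9) (.e (nat_lit 335926) (nat_lit 0) .nil))))))) (.g (nat_lit 4) .nil .nil))))))) (.nd (nat_lit 2) (.nd (nat_lit 3) (.nd (nat_lit 4) (.nd (nat_lit 5) 
(.lf (nat_lit 75267) (.g (nat_lit 618) (.e (nat_lit 1788) (nat_lit 119) (.e (nat_lit 516166) (nat_lit 12) (.e (nat_lit 450605) (nat_lit 27) .nil))) .nil)) 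
(.lf (nat_lit 75299) (.g (nat_lit 1895) (.e (nat_lit 1788) (nat_lit 119) (.e (nat_lit 516180) (nat_lit 15) (.e (nat_lit 475177) (nat_lit 24) (.e (nat_lit 516182) (nat_lit 15) (.e (nat_lit 475177) (nat_lit 24) (.e (nat_lit 516148) (nat_lit 9) (.e (nat_lit 426402) (nat_lit 15) .nil))))))) (.g (nat_lit 6) .nil .nil)))) (.nd (nat_lit 5) 
(.lf (nat_lit 75283) (.g (nat_lit 1955) (.e (nat_lit 1788) (nat_lit 119) (.e (nat_lit 516176) (nat_lit 14) (.e (nat_lit 466981) (nat_lit 23) (.e (nat_lit 204845) (nat_lit 24) (.e (nat_lit 319534) (nat_lit 16) (.e (nat_lit 286720) (nat_lit 0) .nil)))))) (.g (nat_lit 4) .nil .nil))) 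
(.lf (nat_lit 75315) (.g (nat_lit 5078) (.e (nat_lit 1788) (nat_lit 119) (.e (nat_lit 516185) (nat_lit 16) (.e (nat_lit 491563) (nat_lit 12) (.e (nat_lit 385074) (nat_lit 31) (.e (nat_lit 573491) (nat_lit 15) (.e (nat_lit 81941) (nat_lit 20) .nil)))))) (.g (nat_lit 5) .nil .nil))))) (.nd (nat_lit 4) (.nd (nat_lit 5) 
(.lf (nat_lit 75275) (.g (nat_lit 3163) (.e (nat_lit 1788) (nat_lit 119) (.e (nat_lit 516175) (nat_lit 14) (.e (nat_lit 466981) (nat_lit 23) (.e (nat_lit 204846) (nat_lit 24) (.e (nat_lit 319534) (nat_lit 16) (.e (nat_lit 286728) (nat_lit 0) .nil)))))) (.g (nat_lit 5) .nil .nil))) 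
(.lf (nat_lit 75307) (.g (nat_lit 1711) (.e (nat_lit 1788) (nat_lit 119) (.e (nat_lit 516185) (nat_lit 16) (.e (nat_lit 491560) (nat_lit 10) (.e (nat_lit 344129) (nat_lit 26) .nil)))) .nil))) (.nd (nat_lit 5) 
(.lf (nat_lit 75291) (.g (nat_lit 2798) (.e (nat_lit 1788) (nat_lit 119) (.e (nat_lit 516179) (nat_lit 15) (.e (nat_lit 475177) (nat_lit 24) (.e (nat_lit 516180) (nat_lit 15) (.e (nat_lit 475177) (nat_lit 24) (.e (nat_lit 516148) (nat_lit 9) (.e (nat_lit 426402) (nat_lit 15) .nil))))))) (.g (nat_lit 5) .nil .nil))) 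
(.lf (nat_lit 75323) (.g (nat_lit 2062) (.e (nat_lit 1788) (nat_lit 119) (.e (nat_lit 516195) (nat_lit 26) (.e (nat_lit 336004) (nat_lit 2) (.e (nat_lit 90158) (nat_lit 11) (.e (nat_lit 24608) (nat_lit 3) (.e (nat_lit 98316) (nat_lit 9) (.e (nat_lit 335926) (nat_lit 0) .nil))))))) (.g (nat_lit 4) .nil .nil)))))) (.nd (nat_lit 3) (.nd (nat_lit 4) (.nd (nat_lit 5) 
(.lf (nat_lit 75271) (.g (nat_lit 2853) (.e (nat_lit 1788) (nat_lit 119) (.e (nat_lit 516174) (nat_lit 14) (.e (nat_lit 466980) (nat_lit 23) (.e (nat_lit 204846) (nat_lit 24) (.e (nat_lit 319533) (nat_lit 16) (.e (nat_lit 286724) (nat_lit 0) .nil)))))) (.g (nat_lit 5) .nil .nil))) 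
(.lf (nat_lit 75303) (.g (nat_lit 2194) (.e (nat_lit 1788) (nat_lit 119) (.e (nat_lit 516185) (nat_lit 16) (.e (nat_lit 491560) (nat_lit 10) (.e (nat_lit 344118) (nat_lit 21) .nil)))) .nil))) (.nd (nat_lit 5) 
(.lf (nat_lit 75287) (.g (nat_lit 2374) (.e (nat_lit 1788) (nat_lit 119) (.e (nat_lit 516179) (nat_lit 15) (.e (nat_lit 475177) (nat_lit 24) (.e (nat_lit 516144) (nat_lit 9) (.e (nat_lit 426436) (nat_lit 18) (.e (nat_lit 98358) (nat_lit 26) (.e (nat_lit 426402) (nat_lit 15) .nil))))))) (.g (nat_lit 4) .nil .nil))) 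
(.lf (nat_lit 75319) (.g (nat_lit 5596) (.e (nat_lit 1788) (nat_lit 119) (.e (nat_lit 516185) (nat_lit 16) (.e (nat_lit 491563) (nat_lit 12) (.e (nat_lit 385074) (nat_lit 31) (.e (nat_lit 573493) (nat_lit 15) (.e (nat_lit 81928) (nat_lit 20) .nil)))))) (.g (nat_lit 5) .nil .nil))))) (.nd (nat_lit 4) (.nd (nat_lit 5) 
(.lf (nat_lit 75279) (.g (nat_lit 2704) (.e (nat_lit 1788) (nat_lit 119) (.e (nat_lit 516176) (nat_lit 14) (.e (nat_lit 466980) (nat_lit 23) (.e (nat_lit 204846) (nat_lit 24) (.e (nat_lit 319533) (nat_lit 16) (.e (nat_lit 286724) (nat_lit 0) .nil)))))) (.g (nat_lit 5) .nil .nil))) 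
(.lf (nat_lit 75311) (.g (nat_lit 3012) (.e (nat_lit 1788) (nat_lit 119) (.e (nat_lit 516185) (nat_lit 16) (.e (nat_lit 491560) (nat_lit 10) (.e (nat_lit 344133) (nat_lit 26) (.e (nat_lit 557068) (nat_lit 9) .nil))))) .nil))) (.nd (nat_lit 5) 
(.lf (nat_lit 75295) (.g (nat_lit 3470) (.e (nat_lit 1788) (nat_lit 119) (.e (nat_lit 516180) (nat_lit 15) (.e (nat_lit 475177) (nat_lit 24) (.e (nat_lit 516146) (nat_lit 9) (.e (nat_lit 426436) (nat_lit 18) (.e (nat_lit 98358) (nat_lit 26) (.e (nat_lit 426402) (nat_lit 15) .nil))))))) (.g (nat_lit 6) .nil .nil))) 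
(.lf (nat_lit 75327) (.g (nat_lit 1900) (.e (nat_lit 1788) (nat_lit 119) (.e (nat_lit 516195) (nat_lit 26) (.e (nat_lit 336004) (nat_lit 2) (.e (nat_lit 90158) (nat_lit 11) (.e (nat_lit 24609) (nat_lit 3) (.e (nat_lit 98317) (nat_lit 9) (.e (nat_lit 335886) (nat_lit 0) .nil))))))) (.g (nat_lit 4) .nil .nil)))))))))

noncomputable def tv1020 : DT := (.nd (nat_lit 0) (.nd (nat_lit 1) (.nd (nat_lit 2) (.nd (nat_lit 3) (.nd (nat_lit 4) (.nd (nat_lit 5) 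
(.lf (nat_lit 75328) (.g (nat_lit 1947) (.e (nat_lit 1788) (nat_lit 119) (.e (nat_lit 516195) (nat_lit 26) (.e (nat_lit 336004) (nat_lit 2) (.e (nat_lit 90158) (nat_lit 11) (.e (nat_lit 24609) (nat_lit 3) (.e (nat_lit 98317) (nat_lit 9) (.e (nat_lit 335917) (nat_lit 0) .nil))))))) (.g (nat_lit 4) .nil .nil))) 
(.lf (nat_lit 75360) (.g (nat_lit 1813) (.e (nat_lit 1788) (nat_lit 119) (.e (nat_lit 516195) (nat_lit 26) (.e (nat_lit 336027) (nat_lit 3) (.e (nat_lit 98317) (nat_lit 9) (.e (nat_lit 336027) (nat_lit 3) (.e (nat_lit 98317) (nat_lit 9) (.e (nat_lit 335926) (nat_lit 0) .nil))))))) (.g (nat_lit 4) .nil .nil)))) (.nd (nat_lit 5) 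
(.lf (nat_lit 75344) (.g (nat_lit 2101) (.e (nat_lit 1788) (nat_lit 119) (.e (nat_lit 516195) (nat_lit 26) (.e (nat_lit 336021) (nat_lit 3) (.e (nat_lit 98317) (nat_lit 9) (.e (nat_lit 336004) (nat_lit 2) .nil))))) .nil)) 
(.lf (nat_lit 75376) (.g (nat_lit 4106) (.e (nat_lit 1788) (nat_lit 119) (.e (nat_lit 516195) (nat_lit 26) (.e (nat_lit 336223) (nat_lit 13) (.e (nat_lit 393224) (nat_lit 9) (.e (nat_lit 335996) (nat_lit 1) (.e (nat_lit 57851) (nat_lit 252) (.e (nat_lit 57354) (nat_lit 0) .nil))))))) (.g (nat_lit 6) .nil .nil))))) (.nd (nat_lit 4) (.nd (nat_lit 5) 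
(.lf (nat_lit 75336) (.g (nat_lit 2042) (.e (nat_lit 1788) (nat_lit 119) (.e (nat_lit 516195) (nat_lit 26) (.e (nat_lit 336012) (nat_lit 2) (.e (nat_lit 90158) (nat_lit 11) (.e (nat_lit 24608) (nat_lit 3) (.e (nat_lit 98317) (nat_lit 9) (.e (nat_lit 335886) (nat_lit 0) .nil))))))) (.g (nat_lit 5) .nil .nil))) 
(.lf (nat_lit 75368) (.g (nat_lit 3132) (.e (nat_lit 1788) (nat_lit 119) (.e (nat_lit 516195) (nat_lit 26) (.e (nat_lit 336088) (nat_lit 9) (.e (nat_lit 336454) (nat_lit 34) (.e (nat_lit 483365) (nat_lit 18) (.e (nat_lit 57851) (nat_lit 252) (.e (nat_lit 57354) (nat_lit 0) .nil))))))) (.g (nat_lit 5) .nil .nil)))) (.nd (nat_lit 5) 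
(.lf (nat_lit 75352) (.g (nat_lit 2072) (.e (nat_lit 1788) (nat_lit 119) (.e (nat_lit 516195) (nat_lit 26) (.e (nat_lit 336021) (nat_lit 3) (.e (nat_lit 98317) (nat_lit 9) (.e (nat_lit 336027) (nat_lit 3) (.e (nat_lit 98317) (nat_lit 9) (.e (nat_lit 335926) (nat_lit 0) .nil))))))) (.g (nat_lit 4) .nil .nil))) 
(.lf (nat_lit 75384) (.g (nat_lit 2271) (.e (nat_lit 1789) (nat_lit 119) (.e (nat_lit 516117) (nat_lit 1) (.e (nat_lit 164329) (nat_lit 230) (.e (nat_lit 163902) (nat_lit 12) .nil)))) .nil))))) (.nd (nat_lit 3) (.nd (nat_lit 4) (.nd (nat_lit 5) 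
(.lf (nat_lit 75332) (.g (nat_lit 2279) (.e (nat_lit 1788) (nat_lit 119) (.e (nat_lit 516195) (nat_lit 26) (.e (nat_lit 336012) (nat_lit 2) (.e (nat_lit 90158) (nat_lit 11) (.e (nat_lit 24607) (nat_lit 3) (.e (nat_lit 98317) (nat_lit 9) (.e (nat_lit 335886) (nat_lit 0) .nil))))))) (.g (nat_lit 4) .nil .nil))) 
(.lf (nat_lit 75364) (.g (nat_lit 1689) (.e (nat_lit 1788) (nat_lit 119) (.e (nat_lit 516195) (nat_lit 26) (.e (nat_lit 336087) (nat_lit 9) (.e (nat_lit 336019) (nat_lit 3) (.e (nat_lit 98356) (nat_lit 26) (.e (nat_lit 426448) (nat_lit 20) (.e (nat_lit 122624) (nat_lit 20) .nil))))))) (.g (nat_lit 4) .nil .nil)))) (.nd (nat_lit 5) 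
(.lf (nat_lit 75348) (.g (nat_lit 2143) (.e (nat_lit 1788) (nat_lit 119) (.e (nat_lit 516195) (nat_lit 26) (.e (nat_lit 336021) (nat_lit 3) (.e (nat_lit 98317) (nat_lit 9) (.e (nat_lit 336027) (nat_lit 3) (.e (nat_lit 98316) (nat_lit 9) (.e (nat_lit 335917) (nat_lit 0) .nil))))))) (.g (nat_lit 4) .nil .nil))) 
(.lf (nat_lit 75380) (.g (nat_lit 1492) (.e (nat_lit 1788) (nat_lit 119) (.e (nat_lit 524032) (nat_lit 29) (.e (nat_lit 360466) (nat_lit 3) (.e (nat_lit 516146) (nat_lit 9) (.e (nat_lit 426448) (nat_lit 20) (.e (nat_lit 122624) (nat_lit 20) .nil)))))) (.g (nat_lit 5) .nil .nil))))) (.nd (nat_lit 4) (.nd (nat_lit 5) 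
(.lf (nat_lit 75340) (.g (nat_lit 2669) (.e (nat_lit 1788) (nat_lit 119) (.e (nat_lit 516195) (nat_lit 26) (.e (nat_lit 336021) (nat_lit 3) (.e (nat_lit 98313) (nat_lit 9) (.e (nat_lit 336027) (nat_lit 3) (.e (nat_lit 98316) (nat_lit 9) (.e (nat_lit 335926) (nat_lit 0) .nil))))))) (.g (nat_lit 4) .nil .nil))) 
(.lf (nat_lit 75372) (.g (nat_lit 2413) (.e (nat_lit 1788) (nat_lit 119) (.e (nat_lit 516195) (nat_lit 26) (.e (nat_lit 336186) (nat_lit 11) (.e (nat_lit 368676) (nat_lit 21) (.e (nat_lit 516179) (nat_lit 15) (.e (nat_lit 475214) (nat_lit 42) (.e (nat_lit 728832) (nat_lit 20) .nil))))))) (.g (nat_lit 5) .nil .nil)))) (.nd (nat_lit 5) 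
(.lf (nat_lit 75356) (.g (nat_lit 1888) (.e (nat_lit 1788) (nat_lit 119) (.e (nat_lit 516195) (nat_lit 26) (.e (nat_lit 336027) (nat_lit 3) (.e (nat_lit 98317) (nat_lit 9) (.e (nat_lit 336027) (nat_lit 3) (.e (nat_lit 98316) (nat_lit 9) (.e (nat_lit 335917) (nat_lit 0) .nil))))))) (.g (nat_lit 4) .nil .nil))) 
(.lf (nat_lit 75388) (.g (nat_lit 2329) (.e (nat_lit 1789) (nat_lit 119) (.e (nat_lit 516120) (nat_lit 1) (.e (nat_lit 164329) (nat_lit 230) (.e (nat_lit 163904) (nat_lit 12) (.e (nat_lit 426566) (nat_lit 34) .nil))))) .nil)))))) (.nd (nat_lit 2) (.nd (nat_lit 3) (.nd (nat_lit 4) (.nd (nat_lit 5) 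
(.lf (nat_lit 75330) (.g (nat_lit 2113) (.e (nat_lit 1788) (nat_lit 119) (.e (nat_lit 516195) (nat_lit 26) (.e (nat_lit 336012) (nat_lit 2) (.e (nat_lit 90157) (nat_lit 11) (.e (nat_lit 24607) (nat_lit 3) (.e (nat_lit 98317) (nat_lit 9) (.e (nat_lit 335886) (nat_lit 0) .nil))))))) (.g (nat_lit 4) .nil .nil))) 
(.lf (nat_lit 75362) (.g (nat_lit 3259) (.e (nat_lit 1788) (nat_lit 119) (.e (nat_lit 516195) (nat_lit 26) (.e (nat_lit 336076) (nat_lit 9) (.e (nat_lit 336454) (nat_lit 34) (.e (nat_lit 483365) (nat_lit 18) (.e (nat_lit 57851) (nat_lit 252) (.e (nat_lit 57354) (nat_lit 0) .nil))))))) (.g (nat_lit 6) .nil .nil)))) (.nd (nat_lit 5) 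
(.lf (nat_lit 75346) (.g (nat_lit 1868) (.e (nat_lit 1788) (nat_lit 119) (.e (nat_lit 516195) (nat_lit 26) (.e (nat_lit 336021) (nat_lit 3) (.e (nat_lit 98317) (nat_lit 9) (.e (nat_lit 336026) (nat_lit 3) (.e (nat_lit 98317) (nat_lit 9) (.e (nat_lit 335886) (nat_lit 0) .nil))))))) (.g (nat_lit 4) .nil .nil))) 
(.lf (nat_lit 75378) (.g (nat_lit 3804) (.e (nat_lit 1788) (nat_lit 119) (.e (nat_lit 516195) (nat_lit 26) (.e (nat_lit 336223) (nat_lit 13) (.e (nat_lit 393229) (nat_lit 9) (.e (nat_lit 335996) (nat_lit 1) (.e (nat_lit 57851) (nat_lit 252) (.e (nat_lit 57354) (nat_lit 0) .nil))))))) (.g (nat_lit 6) .nil .nil))))) (.nd (nat_lit 4) (.nd (nat_lit 5) 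
(.lf (nat_lit 75338) (.g (nat_lit 1944) (.e (nat_lit 1788) (nat_lit 119) (.e (nat_lit 516195) (nat_lit 26) (.e (nat_lit 336021) (nat_lit 3) (.e (nat_lit 98313) (nat_lit 9) (.e (nat_lit 336027) (nat_lit 3) .nil))))) .nil)) 
(.lf (nat_lit 75370) (.g (nat_lit 2256) (.e (nat_lit 1788) (nat_lit 119) (.e (nat_lit 516195) (nat_lit 26) (.e (nat_lit 336088) (nat_lit 9) (.e (nat_lit 336456) (nat_lit 34) (.e (nat_lit 483365) (nat_lit 18) (.e (nat_lit 57851) (nat_lit 252) (.e (nat_lit 57354) (nat_lit 0) .nil))))))) (.g (nat_lit 4) .nil .nil)))) (.nd (nat_lit 5) 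
(.lf (nat_lit 75354) (.g (nat_lit 1813) (.e (nat_lit 1788) (nat_lit 119) (.e (nat_lit 516195) (nat_lit 26) (.e (nat_lit 336027) (nat_lit 3) (.e (nat_lit 98313) (nat_lit 9) (.e (nat_lit 336027) (nat_lit 3) .nil))))) .nil)) 
(.lf (nat_lit 75386) (.g (nat_lit 1969) (.e (nat_lit 1789) (nat_lit 119) (.e (nat_lit 516120) (nat_lit 1) (.e (nat_lit 164329) (nat_lit 230) (.e (nat_lit 163902) (nat_lit 12) .nil)))) .nil))))) (.nd (nat_lit 3) (.nd (nat_lit 4) (.nd (nat_lit 5) 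
(.lf (nat_lit 75334) (.g (nat_lit 1587) (.e (nat_lit 1788) (nat_lit 119) (.e (nat_lit 516195) (nat_lit 26) (.e (nat_lit 336012) (nat_lit 2) (.e (nat_lit 90158) (nat_lit 11) (.e (nat_lit 24608) (nat_lit 3) (.e (nat_lit 98316) (nat_lit 9) (.e (nat_lit 335917) (nat_lit 0) .nil))))))) (.g (nat_lit 4) .nil .nil))) 
(.lf (nat_lit 75366) (.g (nat_lit 2198) (.e (nat_lit 1788) (nat_lit 119) (.e (nat_lit 516195) (nat_lit 26) (.e (nat_lit 336088) (nat_lit 9) (.e (nat_lit 336019) (nat_lit 3) (.e (nat_lit 98356) (nat_lit 26) (.e (nat_lit 426448) (nat_lit 20) (.e (nat_lit 122624) (nat_lit 20) .nil))))))) (.g (nat_lit 4) .nil .nil)))) (.nd (nat_lit 5) 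
(.lf (nat_lit 75350) (.g (nat_lit 2442) (.e (nat_lit 1788) (nat_lit 119) (.e (nat_lit 516195) (nat_lit 26) (.e (nat_lit 336021) (nat_lit 3) (.e (nat_lit 98317) (nat_lit 9) (.e (nat_lit 336027) (nat_lit 3) (.e (nat_lit 98317) (nat_lit 9) (.e (nat_lit 335886) (nat_lit 0) .nil))))))) (.g (nat_lit 4) .nil .nil))) 
(.lf (nat_lit 75382) (.g (nat_lit 1385) (.e (nat_lit 1788) (nat_lit 119) (.e (nat_lit 524032) (nat_lit 29) (.e (nat_lit 360467) (nat_lit 3) (.e (nat_lit 516146) (nat_lit 9) (.e (nat_lit 426448) (nat_lit 20) (.e (nat_lit 122624) (nat_lit 20) .nil)))))) (.g (nat_lit 5) .nil .nil))))) (.nd (nat_lit 4) (.nd (nat_lit 5) 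
(.lf (nat_lit 75342) (.g (nat_lit 2863) (.e (nat_lit 1788) (nat_lit 119) (.e (nat_lit 516195) (nat_lit 26) (.e (nat_lit 336021) (nat_lit 3) (.e (nat_lit 98313) (nat_lit 9) (.e (nat_lit 336027) (nat_lit 3) (.e (nat_lit 98317) (nat_lit 9) (.e (nat_lit 335917) (nat_lit 0) .nil))))))) (.g (nat_lit 5) .nil .nil))) 
(.lf (nat_lit 75374) (.g (nat_lit 2441) (.e (nat_lit 1788) (nat_lit 119) (.e (nat_lit 516195) (nat_lit 26) (.e (nat_lit 336213) (nat_lit 13) (.e (nat_lit 393229) (nat_lit 9) (.e (nat_lit 335994) (nat_lit 1) (.e (nat_lit 57851) (nat_lit 252) (.e (nat_lit 57354) (nat_lit 0) .nil))))))) (.g (nat_lit 5) .nil .nil)))) (.nd (nat_lit 5) 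
(.lf (nat_lit 75358) (.g (nat_lit 2183) (.e (nat_lit 1788) (nat_lit 119) (.e (nat_lit 516195) (nat_lit 26) (.e (nat_lit 336027) (nat_lit 3) (.e (nat_lit 98317) (nat_lit 9) (.e (nat_lit 336027) (nat_lit 3) (.e (nat_lit 98317) (nat_lit 9) (.e (nat_lit 335886) (nat_lit 0) .nil))))))) (.g (nat_lit 5) .nil .nil))) 
(.lf (nat_lit 75390) (.g (nat_lit 2985) (.e (nat_lit 1789) (nat_lit 119) (.e (nat_lit 516151) (nat_lit 9) (.e (nat_lit 426211) (nat_lit 9) (.e (nat_lit 426125) (nat_lit 2) .nil)))) .nil))))))) (.nd (nat_lit 1) (.nd (nat_lit 2) (.nd (nat_lit 3) (.nd (nat_lit 4) (.nd (nat_lit 5) 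
(.lf (nat_lit 75329) (.g (nat_lit 1562) (.e (nat_lit 1788) (nat_lit 119) (.e (nat_lit 516195) (nat_lit 26) (.e (nat_lit 336011) (nat_lit 2) (.e (nat_lit 90157) (nat_lit 11) .nil)))) .nil)) 
(.lf (nat_lit 75361) (.g (nat_lit 1775) (.e (nat_lit 1788) (nat_lit 119) (.e (nat_lit 516195) (nat_lit 26) (.e (nat_lit 336027) (nat_lit 3) (.e (nat_lit 98337) (nat_lit 19) .nil)))) .nil))) (.nd (nat_lit 5) 
(.lf (nat_lit 75345) (.g (nat_lit 1775) (.e (nat_lit 1788) (nat_lit 119) (.e (nat_lit 516195) (nat_lit 26) (.e (nat_lit 336021) (nat_lit 3) (.e (nat_lit 98317) (nat_lit 9) (.e (nat_lit 336026) (nat_lit 3) .nil))))) .nil)) 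
(.lf (nat_lit 75377) (.g (nat_lit 4296) (.e (nat_lit 1788) (nat_lit 119) (.e (nat_lit 516195) (nat_lit 26) (.e (nat_lit 336223) (nat_lit 13) (.e (nat_lit 393225) (nat_lit 9) (.e (nat_lit 335996) (nat_lit 1) (.e (nat_lit 57851) (nat_lit 252) (.e (nat_lit 57354) (nat_lit 0) .nil))))))) (.g (nat_lit 0) .nil .nil))))) (.nd (nat_lit 4) (.nd (nat_lit 5) 
(.lf (nat_lit 75337) (.g (nat_lit 2089) (.e (nat_lit 1788) (nat_lit 119) (.e (nat_lit 516195) (nat_lit 26) (.e (nat_lit 336012) (nat_lit 2) (.e (nat_lit 90158) (nat_lit 11) (.e (nat_lit 24608) (nat_lit 3) (.e (nat_lit 98317) (nat_lit 9) (.e (nat_lit 335917) (nat_lit 0) .nil))))))) (.g (nat_lit 5) .nil .nil))) 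
(.lf (nat_lit 75369) (.g (nat_lit 2679) (.e (nat_lit 1788) (nat_lit 119) (.e (nat_lit 516195) (nat_lit 26) (.e (nat_lit 336088) (nat_lit 9) (.e (nat_lit 336454) (nat_lit 34) (.e (nat_lit 483366) (nat_lit 18) (.e (nat_lit 57851) (nat_lit 252) (.e (nat_lit 57354) (nat_lit 0) .nil))))))) (.g (nat_lit 5) .nil .nil)))) (.nd (nat_lit 5) 
(.lf (nat_lit 75353) (.g (nat_lit 1198) (.e (nat_lit 1788) (nat_lit 119) (.e (nat_lit 516195) (nat_lit 26) (.e (nat_lit 336027) (nat_lit 3) (.e (nat_lit 98312) (nat_lit 9) .nil)))) .nil)) 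
(.lf (nat_lit 75385) (.g (nat_lit 2778) (.e (nat_lit 1789) (nat_lit 119) (.e (nat_lit 516117) (nat_lit 1) (.e (nat_lit 164329) (nat_lit 230) (.e (nat_lit 163902) (nat_lit 12) (.e (nat_lit 426568) (nat_lit 34) .nil))))) .nil))))) (.nd (nat_lit 3) (.nd (nat_lit 4) (.nd (nat_lit 5) 
(.lf (nat_lit 75333) (.g (nat_lit 2326) (.e (nat_lit 1788) (nat_lit 119) (.e (nat_lit 516195) (nat_lit 26) (.e (nat_lit 336012) (nat_lit 2) (.e (nat_lit 90158) (nat_lit 11) (.e (nat_lit 24607) (nat_lit 3) (.e (nat_lit 98317) (nat_lit 9) (.e (nat_lit 335917) (nat_lit 0) .nil))))))) (.g (nat_lit 5) .nil .nil))) 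
(.lf (nat_lit 75365) (.g (nat_lit 2690) (.e (nat_lit 1788) (nat_lit 119) (.e (nat_lit 516195) (nat_lit 26) (.e (nat_lit 336087) (nat_lit 9) (.e (nat_lit 336019) (nat_lit 3) (.e (nat_lit 98384) (nat_lit 32) (.e (nat_lit 475214) (nat_lit 42) (.e (nat_lit 728832) (nat_lit 20) .nil))))))) (.g (nat_lit 6) .nil .nil)))) (.nd (nat_lit 5) 
(.lf (nat_lit 75349) (.g (nat_lit 2214) (.e (nat_lit 1788) (nat_lit 119) (.e (nat_lit 516195) (nat_lit 26) (.e (nat_lit 336021) (nat_lit 3) (.e (nat_lit 98317) (nat_lit 9) (.e (nat_lit 336027) (nat_lit 3) (.e (nat_lit 98316) (nat_lit 9) (.e (nat_lit 335926) (nat_lit 0) .nil))))))) (.g (nat_lit 4) .nil .nil))) 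
(.lf (nat_lit 75381) (.g (nat_lit 1311) (.e (nat_lit 1788) (nat_lit 119) (.e (nat_lit 524032) (nat_lit 29) (.e (nat_lit 360466) (nat_lit 3) (.e (nat_lit 516179) (nat_lit 15) (.e (nat_lit 475214) (nat_lit 42) (.e (nat_lit 728832) (nat_lit 20) .nil)))))) (.g (nat_lit 5) .nil .nil))))) (.nd (nat_lit 4) (.nd (nat_lit 5) 
(.lf (nat_lit 75341) (.g (nat_lit 2905) (.e (nat_lit 1788) (nat_lit 119) (.e (nat_lit 516195) (nat_lit 26) (.e (nat_lit 336021) (nat_lit 3) (.e (nat_lit 98313) (nat_lit 9) (.e (nat_lit 336027) (nat_lit 3) (.e (nat_lit 98317) (nat_lit 9) (.e (nat_lit 335886) (nat_lit 0) .nil))))))) (.g (nat_lit 5) .nil .nil))) 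
(.lf (nat_lit 75373) (.g (nat_lit 4321) (.e (nat_lit 1788) (nat_lit 119) (.e (nat_lit 516195) (nat_lit 26) (.e (nat_lit 336213) (nat_lit 13) (.e (nat_lit 393225) (nat_lit 9) (.e (nat_lit 335996) (nat_lit 1) (.e (nat_lit 57851) (nat_lit 252) (.e (nat_lit 57354) (nat_lit 0) .nil))))))) (.g (nat_lit 0) .nil .nil)))) (.nd (nat_lit 5) 
(.lf (nat_lit 75357) (.g (nat_lit 1959) (.e (nat_lit 1788) (nat_lit 119) (.e (nat_lit 516195) (nat_lit 26) (.e (nat_lit 336027) (nat_lit 3) (.e (nat_lit 98317) (nat_lit 9) (.e (nat_lit 336027) (nat_lit 3) (.e (nat_lit 98316) (nat_lit 9) (.e (nat_lit 335926) (nat_lit 0) .nil))))))) (.g (nat_lit 4) .nil .nil))) 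
(.lf (nat_lit 75389) (.g (nat_lit 908) (.e (nat_lit 1789) (nat_lit 119) (.e (nat_lit 516127) (nat_lit 2) (.e (nat_lit 213032) (nat_lit 11) (.e (nat_lit 24605) (nat_lit 2) (.e (nat_lit 90176) (nat_lit 15) .nil))))) .nil)))))) (.nd (nat_lit 2) (.nd (nat_lit 3) (.nd (nat_lit 4) (.nd (nat_lit 5) 
(.lf (nat_lit 75331) (.g (nat_lit 2160) (.e (nat_lit 1788) (nat_lit 119) (.e (nat_lit 516195) (nat_lit 26) (.e (nat_lit 336012) (nat_lit 2) (.e (nat_lit 90157) (nat_lit 11) (.e (nat_lit 24607) (nat_lit 3) (.e (nat_lit 98317) (nat_lit 9) (.e (nat_lit 335917) (nat_lit 0) .nil))))))) (.g (nat_lit 4) .nil .nil))) 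
(.lf (nat_lit 75363) (.g (nat_lit 2080) (.e (nat_lit 1788) (nat_lit 119) (.e (nat_lit 516195) (nat_lit 26) (.e (nat_lit 336076) (nat_lit 9) (.e (nat_lit 336456) (nat_lit 34) (.e (nat_lit 483365) (nat_lit 18) (.e (nat_lit 57851) (nat_lit 252) (.e (nat_lit 57354) (nat_lit 0) .nil))))))) (.g (nat_lit 4) .nil .nil)))) (.nd (nat_lit 5) 
(.lf (nat_lit 75347) (.g (nat_lit 1915) (.e (nat_lit 1788) (nat_lit 119) (.e (nat_lit 516195) (nat_lit 26) (.e (nat_lit 336021) (nat_lit 3) (.e (nat_lit 98317) (nat_lit 9) (.e (nat_lit 336026) (nat_lit 3) (.e (nat_lit 98317) (nat_lit 9) (.e (nat_lit 335917) (nat_lit 0) .nil))))))) (.g (nat_lit 4) .nil .nil))) 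
(.lf (nat_lit 75379) (.g (nat_lit 2145) (.e (nat_lit 1788) (nat_lit 119) (.e (nat_lit 516196) (nat_lit 26) (.e (nat_lit 336209) (nat_lit 13) (.e (nat_lit 393225) (nat_lit 9) (.e (nat_lit 335996) (nat_lit 1) (.e (nat_lit 57851) (nat_lit 252) (.e (nat_lit 57354) (nat_lit 0) .nil))))))) (.g (nat_lit 5) .nil .nil))))) (.nd (nat_lit 4) (.nd (nat_lit 5) 
(.lf (nat_lit 75339) (.g (nat_lit 2598) (.e (nat_lit 1788) (nat_lit 119) (.e (nat_lit 516195) (nat_lit 26) (.e (nat_lit 336021) (nat_lit 3) (.e (nat_lit 98313) (nat_lit 9) (.e (nat_lit 336027) (nat_lit 3) (.e (nat_lit 98316) (nat_lit 9) (.e (nat_lit 335917) (nat_lit 0) .nil))))))) (.g (nat_lit 4) .nil .nil))) 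
(.lf (nat_lit 75371) (.g (nat_lit 2126) (.e (nat_lit 1788) (nat_lit 119) (.e (nat_lit 516195) (nat_lit 26) (.e (nat_lit 336184) (nat_lit 11) (.e (nat_lit 368676) (nat_lit 21) (.e (nat_lit 516179) (nat_lit 15) (.e (nat_lit 475214) (nat_lit 42) (.e (nat_lit 728832) (nat_lit 20) .nil))))))) (.g (nat_lit 5) .nil .nil)))) (.nd (nat_lit 5) 
(.lf (nat_lit 75355) (.g (nat_lit 1400) (.e (nat_lit 1788) (nat_lit 119) (.e (nat_lit 516195) (nat_lit 26) (.e (nat_lit 336027) (nat_lit 3) (.e (nat_lit 98316) (nat_lit 9) .nil)))) .nil)) 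
(.lf (nat_lit 75387) (.g (nat_lit 2483) (.e (nat_lit 1789) (nat_lit 119) (.e (nat_lit 516120) (nat_lit 1) (.e (nat_lit 164329) (nat_lit 230) (.e (nat_lit 163902) (nat_lit 12) (.e (nat_lit 426568) (nat_lit 34) .nil))))) .nil))))) (.nd (nat_lit 3) (.nd (nat_lit 4) (.nd (nat_lit 5) 
(.lf (nat_lit 75335) (.g (nat_lit 1658) (.e (nat_lit 1788) (nat_lit 119) (.e (nat_lit 516195) (nat_lit 26) (.e (nat_lit 336012) (nat_lit 2) (.e (nat_lit 90158) (nat_lit 11) (.e (nat_lit 24608) (nat_lit 3) (.e (nat_lit 98316) (nat_lit 9) (.e (nat_lit 335926) (nat_lit 0) .nil))))))) (.g (nat_lit 4) .nil .nil))) 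
(.lf (nat_lit 75367) (.g (nat_lit 3114) (.e (nat_lit 1788) (nat_lit 119) (.e (nat_lit 516195) (nat_lit 26) (.e (nat_lit 336088) (nat_lit 9) (.e (nat_lit 336019) (nat_lit 3) (.e (nat_lit 98384) (nat_lit 32) (.e (nat_lit 475214) (nat_lit 42) (.e (nat_lit 728832) (nat_lit 20) .nil))))))) (.g (nat_lit 6) .nil .nil)))) (.nd (nat_lit 5) 
(.lf (nat_lit 75351) (.g (nat_lit 2440) (.e (nat_lit 1788) (nat_lit 119) (.e (nat_lit 516195) (nat_lit 26) (.e (nat_lit 336021) (nat_lit 3) (.e (nat_lit 98317) (nat_lit 9) (.e (nat_lit 336027) (nat_lit 3) (.e (nat_lit 98317) (nat_lit 9) (.e (nat_lit 335917) (nat_lit 0) .nil))))))) (.g (nat_lit 4) .nil .nil))) 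
(.lf (nat_lit 75383) (.g (nat_lit 2486) (.e (nat_lit 1789) (nat_lit 119) (.e (nat_lit 516116) (nat_lit 1) (.e (nat_lit 164329) (nat_lit 230) (.e (nat_lit 163902) (nat_lit 12) (.e (nat_lit 426568) (nat_lit 34) .nil))))) .nil)))) (.nd (nat_lit 4) (.nd (nat_lit 5) 
(.lf (nat_lit 75343) (.g (nat_lit 2535) (.e (nat_lit 1788) (nat_lit 119) (.e (nat_lit 516195) (nat_lit 26) (.e (nat_lit 336021) (nat_lit 3) (.e (nat_lit 98313) (nat_lit 9) (.e (nat_lit 336027) (nat_lit 3) (.e (nat_lit 98317) (nat_lit 9) (.e (nat_lit 335926) (nat_lit 0) .nil))))))) (.g (nat_lit 4) .nil .nil))) 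
(.lf (nat_lit 75375) (.g (nat_lit 3839) (.e (nat_lit 1788) (nat_lit 119) (.e (nat_lit 516195) (nat_lit 26) (.e (nat_lit 336213) (nat_lit 13) (.e (nat_lit 393229) (nat_lit 9) (.e (nat_lit 335996) (nat_lit 1) (.e (nat_lit 57851) (nat_lit 252) (.e (nat_lit 57354) (nat_lit 0) .nil))))))) (.g (nat_lit 6) .nil .nil)))) (.nd (nat_lit 5) 
(.lf (nat_lit 75359) (.g (nat_lit 2181) (.e (nat_lit 1788) (nat_lit 119) (.e (nat_lit 516195) (nat_lit 26) (.e (nat_lit 336027) (nat_lit 3) (.e (nat_lit 98317) (nat_lit 9) (.e (nat_lit 336027) (nat_lit 3) (.e (nat_lit 98317) (nat_lit 9) (.e (nat_lit 335917) (nat_lit 0) .nil))))))) (.g (nat_lit 5) .nil .nil))) 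
(.lf (nat_lit 75391) (.g (nat_lit 5426) (.e (nat_lit 1789) (nat_lit 119) (.e (nat_lit 516151) (nat_lit 9) (.e (nat_lit 426211) (nat_lit 9) (.e (nat_lit 426125) (nat_lit 2) (.e (nat_lit 196626) (nat_lit 9) .nil))))) .nil))))))))

noncomputable def tv1021 : DT := (.nd (nat_lit 0) (.nd (nat_lit 1) (.nd (nat_lit 2) (.nd (nat_lit 3) (.nd (nat_lit 4) (.nd (nat_lit 5) (.nd (nat_lit 6) 
(.lf (nat_lit 75392) (.g (nat_lit 3636) (.e (nat_lit 1789) (nat_lit 119) (.e (nat_lit 516151) (nat_lit 9) (.e (nat_lit 426211) (nat_lit 9) (.e (nat_lit 426125) (nat_lit 2) (.e (nat_lit 196661) (nat_lit 12) .nil))))) .nil)) 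
(.lf (nat_lit 75456) (.g (nat_lit 7195) (.e (nat_lit 1790) (nat_lit 119) (.e (nat_lit 516166) (nat_lit 12) (.e (nat_lit 450588) (nat_lit 10) (.e (nat_lit 573474) (nat_lit 12) .nil)))) .nil))) (.nd (nat_lit 6) 
(.lf (nat_lit 75424) (.g (nat_lit 2514) (.e (nat_lit 1790) (nat_lit 119) (.e (nat_lit 516120) (nat_lit 1) (.e (nat_lit 164329) (nat_lit 230) (.e (nat_lit 163902) (nat_lit 12) (.e (nat_lit 426568) (nat_lit 34) .nil))))) .nil)) 
(.lf (nat_lit 75488) (.g (nat_lit 1338) (.e (nat_lit 1791) (nat_lit 119) (.e (nat_lit 516151) (nat_lit 9) (.e (nat_lit 426338) (nat_lit 14) .nil))) .nil)))) (.nd (nat_lit 5) (.nd (nat_lit 6) 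
(.lf (nat_lit 75408) (.g (nat_lit 4173) (.e (nat_lit 1789) (nat_lit 119) (.e (nat_lit 516166) (nat_lit 12) (.e (nat_lit 450588) (nat_lit 10) (.e (nat_lit 573475) (nat_lit 12) .nil)))) .nil)) 
(.lf (nat_lit 75472) (.g (nat_lit 2966) (.e (nat_lit 1791) (nat_lit 119) (.e (nat_lit 516115) (nat_lit 1) (.e (nat_lit 164399) (nat_lit 256) (.e (nat_lit 57373) (nat_lit 2) (.e (nat_lit 90174) (nat_lit 14) (.e (nat_lit 180243) (nat_lit 5) (.e (nat_lit 532513) (nat_lit 3) (.e (nat_lit 114700) (nat_lit 20) .nil)))))))) (.g (nat_lit 5) .nil .nil)))) (.nd (nat_lit 6) 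
(.lf (nat_lit 75440) (.g (nat_lit 4107) (.e (nat_lit 1790) (nat_lit 119) (.e (nat_lit 516166) (nat_lit 12) (.e (nat_lit 450587) (nat_lit 10) (.e (nat_lit 573477) (nat_lit 12) .nil)))) .nil)) 
(.lf (nat_lit 75504) (.g (nat_lit 2215) (.e (nat_lit 1792) (nat_lit 119) (.e (nat_lit 516115) (nat_lit 1) (.e (nat_lit 164399) (nat_lit 256) (.e (nat_lit 57378) (nat_lit 3) (.e (nat_lit 98377) (nat_lit 30) .nil))))) .nil))))) (.nd (nat_lit 4) (.nd (nat_lit 5) (.nd (nat_lit 6) 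
(.lf (nat_lit 75400) (.g (nat_lit 4575) (.e (nat_lit 1789) (nat_lit 119) (.e (nat_lit 516166) (nat_lit 12) (.e (nat_lit 450587) (nat_lit 10) (.e (nat_lit 573477) (nat_lit 12) (.e (nat_lit 57574) (nat_lit 55) .nil))))) .nil)) 
(.lf (nat_lit 75464) (.g (nat_lit 2196) (.e (nat_lit 1791) (nat_lit 119) (.e (nat_lit 516115) (nat_lit 1) (.e (nat_lit 164399) (nat_lit 256) (.e (nat_lit 57372) (nat_lit 2) (.e (nat_lit 90167) (nat_lit 13) (.e (nat_lit 172067) (nat_lit 3) (.e (nat_lit 204838) (nat_lit 20) (.e (nat_lit 114702) (nat_lit 20) .nil)))))))) (.g (nat_lit 4) .nil .nil)))) (.nd (nat_lit 6) 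
(.lf (nat_lit 75432) (.g (nat_lit 2152) (.e (nat_lit 1790) (nat_lit 119) (.e (nat_lit 516151) (nat_lit 9) (.e (nat_lit 426286) (nat_lit 10) .nil))) .nil)) 
(.lf (nat_lit 75496) (.g (nat_lit 4758) (.e (nat_lit 1791) (nat_lit 119) (.e (nat_lit 516166) (nat_lit 12) (.e (nat_lit 450588) (nat_lit 10) (.e (nat_lit 573473) (nat_lit 12) .nil)))) .nil)))) (.nd (nat_lit 5) (.nd (nat_lit 6) 
(.lf (nat_lit 75416) (.g (nat_lit 2874) (.e (nat_lit 1790) (nat_lit 119) (.e (nat_lit 516115) (nat_lit 1) (.e (nat_lit 164399) (nat_lit 256) (.e (nat_lit 57373) (nat_lit 2) (.e (nat_lit 90174) (nat_lit 14) (.e (nat_lit 180243) (nat_lit 5) (.e (nat_lit 532515) (nat_lit 3) (.e (nat_lit 114702) (nat_lit 20) .nil)))))))) (.g (nat_lit 5) .nil .nil))) 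
(.lf (nat_lit 75480) (.g (nat_lit 460) (.e (nat_lit 1791) (nat_lit 119) (.e (nat_lit 516129) (nat_lit 3) (.e (nat_lit 221194) (nat_lit 11) .nil))) .nil))) (.nd (nat_lit 6) 
(.lf (nat_lit 75448) (.g (nat_lit 5162) (.e (nat_lit 1790) (nat_lit 119) (.e (nat_lit 516166) (nat_lit 12) (.e (nat_lit 450587) (nat_lit 10) (.e (nat_lit 573478) (nat_lit 12) (.e (nat_lit 57574) (nat_lit 55) (.e (nat_lit 778465) (nat_lit 11) (.e (nat_lit 24576) (nat_lit 0) .nil))))))) (.g (nat_lit 5) .nil .nil))) 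
(.lf (nat_lit 75512) (.g (nat_lit 2138) (.e (nat_lit 1792) (nat_lit 119) (.e (nat_lit 516116) (nat_lit 1) (.e (nat_lit 164398) (nat_lit 256) (.e (nat_lit 57373) (nat_lit 2) (.e (nat_lit 90174) (nat_lit 14) (.e (nat_lit 180243) (nat_lit 5) (.e (nat_lit 532513) (nat_lit 3) (.e (nat_lit 114701) (nat_lit 20) .nil)))))))) (.g (nat_lit 4) .nil .nil))))))) 
(.nd (nat_lit 3) (.nd (nat_lit 4) (.nd (nat_lit 5) (.nd (nat_lit 6) 
(.lf (nat_lit 75396) (.g (nat_lit 3808) (.e (nat_lit 1789) (nat_lit 119) (.e (nat_lit 516151) (nat_lit 9) (.e (nat_lit 426286) (nat_lit 10) (.e (nat_lit 434248) (nat_lit 28) .nil)))) .nil)) 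
(.lf (nat_lit 75460) (.g (nat_lit 765) (.e (nat_lit 1790) (nat_lit 119) (.e (nat_lit 516176) (nat_lit 14) (.e (nat_lit 466980) (nat_lit 23) .nil))) .nil))) (.nd (nat_lit 6) 
(.lf (nat_lit 75428) (.g (nat_lit 3006) (.e (nat_lit 1790) (nat_lit 119) (.e (nat_lit 516151) (nat_lit 9) (.e (nat_lit 426211) (nat_lit 9) (.e (nat_lit 426125) (nat_lit 2) .nil)))) .nil)) 
(.lf (nat_lit 75492) (.g (nat_lit 5038) (.e (nat_lit 1791) (nat_lit 119) (.e (nat_lit 516166) (nat_lit 12) (.e (nat_lit 450587) (nat_lit 10) (.e (nat_lit 573477) (nat_lit 12) (.e (nat_lit 57574) (nat_lit 55) (.e (nat_lit 778466) (nat_lit 11) (.e (nat_lit 24577) (nat_lit 0) .nil))))))) (.g (nat_lit 4) .nil .nil))))) (.nd (nat_lit 5) (.nd (nat_lit 6) 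
(.lf (nat_lit 75412) (.g (nat_lit 2269) (.e (nat_lit 1790) (nat_lit 119) (.e (nat_lit 516115) (nat_lit 1) (.e (nat_lit 164399) (nat_lit 256) (.e (nat_lit 57372) (nat_lit 2) (.e (nat_lit 90172) (nat_lit 14) (.e (nat_lit 180244) (nat_lit 5) (.e (nat_lit 532513) (nat_lit 3) (.e (nat_lit 114701) (nat_lit 20) .nil)))))))) (.g (nat_lit 4) .nil .nil))) 
(.lf (nat_lit 75476) (.g (nat_lit 2296) (.e (nat_lit 1791) (nat_lit 119) (.e (nat_lit 516115) (nat_lit 1) (.e (nat_lit 164399) (nat_lit 256) (.e (nat_lit 57378) (nat_lit 3) (.e (nat_lit 98377) (nat_lit 30) (.e (nat_lit 458789) (nat_lit 23) (.e (nat_lit 532515) (nat_lit 3) (.e (nat_lit 114702) (nat_lit 20) .nil)))))))) (.g (nat_lit 4) .nil .nil)))) (.nd (nat_lit 6) 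
(.lf (nat_lit 75444) (.g (nat_lit 4067) (.e (nat_lit 1790) (nat_lit 119) (.e (nat_lit 516166) (nat_lit 12) (.e (nat_lit 450587) (nat_lit 10) (.e (nat_lit 573478) (nat_lit 12) .nil)))) .nil)) 
(.lf (nat_lit 75508) (.g (nat_lit 3360) (.e (nat_lit 1792) (nat_lit 119) (.e (nat_lit 516116) (nat_lit 1) (.e (nat_lit 164329) (nat_lit 230) (.e (nat_lit 163902) (nat_lit 12) (.e (nat_lit 426568) (nat_lit 34) (.e (nat_lit 393267) (nat_lit 23) (.e (nat_lit 426361) (nat_lit 15) .nil))))))) (.g (nat_lit 6) .nil .nil)))))) (.nd (nat_lit 4) (.nd (nat_lit 5) (.nd (nat_lit 6) 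
(.lf (nat_lit 75404) (.g (nat_lit 4629) (.e (nat_lit 1789) (nat_lit 119) (.e (nat_lit 516166) (nat_lit 12) (.e (nat_lit 450588) (nat_lit 10) (.e (nat_lit 573469) (nat_lit 11) .nil)))) .nil)) 
(.lf (nat_lit 75468) (.g (nat_lit 2215) (.e (nat_lit 1791) (nat_lit 119) (.e (nat_lit 516115) (nat_lit 1) (.e (nat_lit 164399) (nat_lit 256) (.e (nat_lit 57372) (nat_lit 2) (.e (nat_lit 90174) (nat_lit 14) (.e (nat_lit 180243) (nat_lit 5) (.e (nat_lit 532513) (nat_lit 3) (.e (nat_lit 114700) (nat_lit 20) .nil)))))))) (.g (nat_lit 4) .nil .nil)))) (.nd (nat_lit 6) 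
(.lf (nat_lit 75436) (.g (nat_lit 3982) (.e (nat_lit 1790) (nat_lit 119) (.e (nat_lit 516166) (nat_lit 12) (.e (nat_lit 450587) (nat_lit 10) (.e (nat_lit 573456) (nat_lit 9) .nil)))) .nil)) 
(.lf (nat_lit 75500) (.g (nat_lit 2850) (.e (nat_lit 1792) (nat_lit 119) (.e (nat_lit 516115) (nat_lit 1) (.e (nat_lit 164399) (nat_lit 256) (.e (nat_lit 57373) (nat_lit 2) (.e (nat_lit 90172) (nat_lit 14) (.e (nat_lit 180244) (nat_lit 5) (.e (nat_lit 532513) (nat_lit 3) (.e (nat_lit 114700) (nat_lit 20) .nil)))))))) (.g (nat_lit 5) .nil .nil))))) (.nd (nat_lit 5) (.nd (nat_lit 6) 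
(.lf (nat_lit 75420) (.g (nat_lit 2794) (.e (nat_lit 1790) (nat_lit 119) (.e (nat_lit 516117) (nat_lit 1) (.e (nat_lit 164329) (nat_lit 230) (.e (nat_lit 163902) (nat_lit 12) (.e (nat_lit 426568) (nat_lit 34) (.e (nat_lit 393271) (nat_lit 23) (.e (nat_lit 426361) (nat_lit 15) .nil))))))) (.g (nat_lit 4) .nil .nil))) 
(.lf (nat_lit 75484) (.g (nat_lit 5447) (.e (nat_lit 1791) (nat_lit 119) (.e (nat_lit 516151) (nat_lit 9) (.e (nat_lit 426211) (nat_lit 9) (.e (nat_lit 426125) (nat_lit 2) (.e (nat_lit 196626) (nat_lit 9) .nil))))) .nil))) (.nd (nat_lit 6) 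
(.lf (nat_lit 75452) (.g (nat_lit 4686) (.e (nat_lit 1790) (nat_lit 119) (.e (nat_lit 516166) (nat_lit 12) (.e (nat_lit 450588) (nat_lit 10) (.e (nat_lit 573469) (nat_lit 11) .nil)))) .nil)) 
(.lf (nat_lit 75516) (.g (nat_lit 2132) (.e (nat_lit 1792) (nat_lit 119) (.e (nat_lit 516116) (nat_lit 1) (.e (nat_lit 164399) (nat_lit 256) (.e (nat_lit 57373) (nat_lit 2) (.e (nat_lit 90174) (nat_lit 14) (.e (nat_lit 180243) (nat_lit 5) (.e (nat_lit 532513) (nat_lit 3) (.e (nat_lit 114701) (nat_lit 20) .nil)))))))) (.g (nat_lit 4) .nil .nil)))))))) 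
(.nd (nat_lit 2) (.nd (nat_lit 3) (.nd (nat_lit 4) (.nd (nat_lit 5) (.nd (nat_lit 6) 
(.lf (nat_lit 75394) (.g (nat_lit 3800) (.e (nat_lit 1789) (nat_lit 119) (.e (nat_lit 516151) (nat_lit 9) (.e (nat_lit 426286) (nat_lit 10) (.e (nat_lit 434245) (nat_lit 28) .nil)))) .nil)) 
(.lf (nat_lit 75458) (.g (nat_lit 4931) (.e (nat_lit 1790) (nat_lit 119) (.e (nat_lit 516166) (nat_lit 12) (.e (nat_lit 450588) (nat_lit 10) (.e (nat_lit 573475) (nat_lit 12) (.e (nat_lit 57574) (nat_lit 55) .nil))))) .nil))) (.nd (nat_lit 6) 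
(.lf (nat_lit 75426) (.g (nat_lit 2216) (.e (nat_lit 1790) (nat_lit 119) (.e (nat_lit 516146) (nat_lit 9) (.e (nat_lit 426438) (nat_lit 18) (.e (nat_lit 98384) (nat_lit 32) (.e (nat_lit 475177) (nat_lit 24) .nil))))) .nil)) 
(.lf (nat_lit 75490) (.g (nat_lit 4342) (.e (nat_lit 1791) (nat_lit 119) (.e (nat_lit 516166) (nat_lit 12) (.e (nat_lit 450587) (nat_lit 10) (.e (nat_lit 573454) (nat_lit 9) .nil)))) .nil)))) (.nd (nat_lit 5) (.nd (nat_lit 6) 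
(.lf (nat_lit 75410) (.g (nat_lit 2112) (.e (nat_lit 1790) (nat_lit 119) (.e (nat_lit 516115) (nat_lit 1) (.e (nat_lit 164398) (nat_lit 256) (.e (nat_lit 57373) (nat_lit 2) (.e (nat_lit 90174) (nat_lit 14) .nil))))) .nil)) 
(.lf (nat_lit 75474) (.g (nat_lit 2131) (.e (nat_lit 1791) (nat_lit 119) (.e (nat_lit 516115) (nat_lit 1) (.e (nat_lit 164399) (nat_lit 256) (.e (nat_lit 57375) (nat_lit 2) (.e (nat_lit 90172) (nat_lit 14) .nil))))) .nil))) (.nd (nat_lit 6) 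
(.lf (nat_lit 75442) (.g (nat_lit 4869) (.e (nat_lit 1790) (nat_lit 119) (.e (nat_lit 516166) (nat_lit 12) (.e (nat_lit 450587) (nat_lit 10) (.e (nat_lit 573477) (nat_lit 12) (.e (nat_lit 57574) (nat_lit 55) (.e (nat_lit 778464) (nat_lit 11) (.e (nat_lit 24577) (nat_lit 0) .nil))))))) (.g (nat_lit 4) .nil .nil))) 
(.lf (nat_lit 75506) (.g (nat_lit 1514) (.e (nat_lit 1792) (nat_lit 119) (.e (nat_lit 516116) (nat_lit 1) (.e (nat_lit 164329) (nat_lit 230) (.e (nat_lit 163902) (nat_lit 12) .nil)))) .nil))))) (.nd (nat_lit 4) (.nd (nat_lit 5) (.nd (nat_lit 6) 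
(.lf (nat_lit 75402) (.g (nat_lit 4526) (.e (nat_lit 1789) (nat_lit 119) (.e (nat_lit 516166) (nat_lit 12) (.e (nat_lit 450587) (nat_lit 10) (.e (nat_lit 573478) (nat_lit 12) (.e (nat_lit 57574) (nat_lit 55) .nil))))) .nil)) 
(.lf (nat_lit 75466) (.g (nat_lit 2296) (.e (nat_lit 1791) (nat_lit 119) (.e (nat_lit 516115) (nat_lit 1) (.e (nat_lit 164399) (nat_lit 256) (.e (nat_lit 57372) (nat_lit 2) (.e (nat_lit 90172) (nat_lit 14) (.e (nat_lit 180244) (nat_lit 5) (.e (nat_lit 532513) (nat_lit 3) (.e (nat_lit 114700) (nat_lit 20) .nil)))))))) (.g (nat_lit 4) .nil .nil)))) (.nd (nat_lit 6) 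
(.lf (nat_lit 75434) (.g (nat_lit 2091) (.e (nat_lit 1790) (nat_lit 119) (.e (nat_lit 516163) (nat_lit 11) (.e (nat_lit 442424) (nat_lit 22) (.e (nat_lit 196661) (nat_lit 12) (.e (nat_lit 57712) (nat_lit 176) (.e (nat_lit 1370) (nat_lit 103) (.e (nat_lit 294916) (nat_lit 0) .nil))))))) (.g (nat_lit 4) .nil .nil))) 
(.lf (nat_lit 75498) (.g (nat_lit 2324) (.e (nat_lit 1792) (nat_lit 119) (.e (nat_lit 516115) (nat_lit 1) (.e (nat_lit 164398) (nat_lit 256) (.e (nat_lit 57373) (nat_lit 2) (.e (nat_lit 90174) (nat_lit 14) (.e (nat_lit 180243) (nat_lit 5) (.e (nat_lit 532513) (nat_lit 3) (.e (nat_lit 114700) (nat_lit 20) .nil)))))))) (.g (nat_lit 4) .nil .nil))))) (.nd (nat_lit 5) (.nd (nat_lit 6) 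
(.lf (nat_lit 75418) (.g (nat_lit 2020) (.e (nat_lit 1790) (nat_lit 119) (.e (nat_lit 516115) (nat_lit 1) (.e (nat_lit 164399) (nat_lit 256) (.e (nat_lit 57379) (nat_lit 3) (.e (nat_lit 98377) (nat_lit 30) .nil))))) .nil)) 
(.lf (nat_lit 75482) (.g (nat_lit 1360) (.e (nat_lit 1791) (nat_lit 119) (.e (nat_lit 516151) (nat_lit 9) (.e (nat_lit 426211) (nat_lit 9) .nil))) .nil))) (.nd (nat_lit 6) 
(.lf (nat_lit 75450) (.g (nat_lit 4564) (.e (nat_lit 1790) (nat_lit 119) (.e (nat_lit 516166) (nat_lit 12) (.e (nat_lit 450587) (nat_lit 10) (.e (nat_lit 573478) (nat_lit 12) (.e (nat_lit 57574) (nat_lit 55) (.e (nat_lit 778466) (nat_lit 11) (.e (nat_lit 24581) (nat_lit 0) .nil))))))) (.g (nat_lit 4) .nil .nil))) 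
(.lf (nat_lit 75514) (.g (nat_lit 1503) (.e (nat_lit 1792) (nat_lit 119) (.e (nat_lit 516116) (nat_lit 1) (.e (nat_lit 164398) (nat_lit 256) (.e (nat_lit 57375) (nat_lit 2) .nil)))) .nil)))))) (.nd (nat_lit 3) (.nd (nat_lit 4) (.nd (nat_lit 5) (.nd (nat_lit 6) 
(.lf (nat_lit 75398) (.g (nat_lit 4243) (.e (nat_lit 1789) (nat_lit 119) (.e (nat_lit 516166) (nat_lit 12) (.e (nat_lit 450587) (nat_lit 10) (.e (nat_lit 573469) (nat_lit 11) .nil)))) .nil)) 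
(.lf (nat_lit 75462) (.g (nat_lit 2447) (.e (nat_lit 1790) (nat_lit 119) (.e (nat_lit 516179) (nat_lit 15) (.e (nat_lit 475177) (nat_lit 24) (.e (nat_lit 516179) (nat_lit 15) (.e (nat_lit 475177) (nat_lit 24) .nil))))) .nil))) (.nd (nat_lit 6) 
(.lf (nat_lit 75430) (.g (nat_lit 3052) (.e (nat_lit 1790) (nat_lit 119) (.e (nat_lit 516151) (nat_lit 9) (.e (nat_lit 426211) (nat_lit 9) (.e (nat_lit 426140) (nat_lit 3) .nil)))) .nil)) 
(.lf (nat_lit 75494) (.g (nat_lit 1034) (.e (nat_lit 1791) (nat_lit 119) (.e (nat_lit 516166) (nat_lit 12) (.e (nat_lit 450588) (nat_lit 10) .nil))) .nil)))) (.nd (nat_lit 5) (.nd (nat_lit 6) 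
(.lf (nat_lit 75414) (.g (nat_lit 2100) (.e (nat_lit 1790) (nat_lit 119) (.e (nat_lit 516115) (nat_lit 1) (.e (nat_lit 164399) (nat_lit 256) (.e (nat_lit 57372) (nat_lit 2) (.e (nat_lit 90174) (nat_lit 14) (.e (nat_lit 180243) (nat_lit 5) (.e (nat_lit 532515) (nat_lit 3) (.e (nat_lit 114702) (nat_lit 20) .nil)))))))) (.g (nat_lit 4) .nil .nil))) 
(.lf (nat_lit 75478) (.g (nat_lit 2005) (.e (nat_lit 1791) (nat_lit 119) (.e (nat_lit 516115) (nat_lit 1) (.e (nat_lit 164399) (nat_lit 256) (.e (nat_lit 57379) (nat_lit 3) (.e (nat_lit 98377) (nat_lit 30) .nil))))) .nil))) (.nd (nat_lit 6) 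
(.lf (nat_lit 75446) (.g (nat_lit 4697) (.e (nat_lit 1790) (nat_lit 119) (.e (nat_lit 516166) (nat_lit 12) (.e (nat_lit 450587) (nat_lit 10) (.e (nat_lit 573478) (nat_lit 12) (.e (nat_lit 57574) (nat_lit 55) (.e (nat_lit 778464) (nat_lit 11) (.e (nat_lit 24577) (nat_lit 0) .nil))))))) (.g (nat_lit 4) .nil .nil))) 
(.lf (nat_lit 75510) (.g (nat_lit 1616) (.e (nat_lit 1792) (nat_lit 119) (.e (nat_lit 516116) (nat_lit 1) (.e (nat_lit 164329) (nat_lit 230) (.e (nat_lit 163904) (nat_lit 12) .nil)))) .nil))))) (.nd (nat_lit 4) (.nd (nat_lit 5) (.nd (nat_lit 6) 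
(.lf (nat_lit 75406) (.g (nat_lit 4669) (.e (nat_lit 1789) (nat_lit 119) (.e (nat_lit 516166) (nat_lit 12) (.e (nat_lit 450588) (nat_lit 10) (.e (nat_lit 573473) (nat_lit 12) .nil)))) .nil)) 
(.lf (nat_lit 75470) (.g (nat_lit 2707) (.e (nat_lit 1791) (nat_lit 119) (.e (nat_lit 516115) (nat_lit 1) (.e (nat_lit 164399) (nat_lit 256) (.e (nat_lit 57373) (nat_lit 2) (.e (nat_lit 90170) (nat_lit 13) (.e (nat_lit 172065) (nat_lit 3) (.e (nat_lit 204838) (nat_lit 20) (.e (nat_lit 114702) (nat_lit 20) .nil)))))))) (.g (nat_lit 5) .nil .nil)))) (.nd (nat_lit 6) 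
(.lf (nat_lit 75438) (.g (nat_lit 4177) (.e (nat_lit 1790) (nat_lit 119) (.e (nat_lit 516166) (nat_lit 12) (.e (nat_lit 450587) (nat_lit 10) (.e (nat_lit 573469) (nat_lit 11) .nil)))) .nil)) 
(.lf (nat_lit 75502) (.g (nat_lit 2085) (.e (nat_lit 1792) (nat_lit 119) (.e (nat_lit 516115) (nat_lit 1) (.e (nat_lit 164399) (nat_lit 256) (.e (nat_lit 57373) (nat_lit 2) (.e (nat_lit 90174) (nat_lit 14) (.e (nat_lit 180243) (nat_lit 5) (.e (nat_lit 532513) (nat_lit 3) (.e (nat_lit 114702) (nat_lit 20) .nil)))))))) (.g (nat_lit 4) .nil .nil))))) (.nd (nat_lit 5) (.nd (nat_lit 6) 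
(.lf (nat_lit 75422) (.g (nat_lit 2192) (.e (nat_lit 1790) (nat_lit 119) (.e (nat_lit 516119) (nat_lit 1) (.e (nat_lit 164403) (nat_lit 256) (.e (nat_lit 57373) (nat_lit 2) (.e (nat_lit 90170) (nat_lit 13) (.e (nat_lit 172067) (nat_lit 3) (.e (nat_lit 204838) (nat_lit 20) (.e (nat_lit 114702) (nat_lit 20) .nil)))))))) (.g (nat_lit 4) .nil .nil))) 
(.lf (nat_lit 75486) (.g (nat_lit 2152) (.e (nat_lit 1791) (nat_lit 119) (.e (nat_lit 516151) (nat_lit 9) (.e (nat_lit 426286) (nat_lit 10) .nil))) .nil))) (.nd (nat_lit 6) 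
(.lf (nat_lit 75454) (.g (nat_lit 5153) (.e (nat_lit 1790) (nat_lit 119) (.e (nat_lit 516166) (nat_lit 12) (.e (nat_lit 450588) (nat_lit 10) (.e (nat_lit 573471) (nat_lit 11) .nil)))) .nil)) 
(.lf (nat_lit 75518) (.g (nat_lit 2334) (.e (nat_lit 1792) (nat_lit 119) (.e (nat_lit 516116) (nat_lit 1) (.e (nat_lit 164399) (nat_lit 256) (.e (nat_lit 57375) (nat_lit 2) (.e (nat_lit 90172) (nat_lit 14) (.e (nat_lit 180244) (nat_lit 5) (.e (nat_lit 532513) (nat_lit 3) (.e (nat_lit 114700) (nat_lit 20) .nil)))))))) (.g (nat_lit 4) .nil .nil))))))))) 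
(.nd (nat_lit 1) (.nd (nat_lit 2) (.nd (nat_lit 3) (.nd (nat_lit 4) (.nd (nat_lit 5) 
(.nd (nat_lit 6) 
(.lf (nat_lit 75393) (.g (nat_lit 3039) (.e (nat_lit 1789) (nat_lit 119) (.e (nat_lit 516151) (nat_lit 9) (.e (nat_lit 426211) (nat_lit 9) (.e (nat_lit 426140) (nat_lit 3) .nil)))) .nil)) 
(.lf (nat_lit 75457) (.g (nat_lit 4204) (.e (nat_lit 1790) (nat_lit 119) (.e (nat_lit 516166) (nat_lit 12) (.e (nat_lit 450588) (nat_lit 10) (.e (nat_lit 573475) (nat_lit 12) .nil)))) .nil))) (.nd (nat_lit 6) 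
(.lf (nat_lit 75425) (.g (nat_lit 2273) (.e (nat_lit 1790) (nat_lit 119) (.e (nat_lit 516120) (nat_lit 1) (.e (nat_lit 164329) (nat_lit 230) (.e (nat_lit 163904) (nat_lit 12) .nil)))) .nil)) 
(.lf (nat_lit 75489) (.g (nat_lit 1174) (.e (nat_lit 1791) (nat_lit 119) (.e (nat_lit 516166) (nat_lit 12) (.e (nat_lit 450587) (nat_lit 10) .nil))) .nil)))) (.nd (nat_lit 5) (.nd (nat_lit 6) 
(.lf (nat_lit 75409) (.g (nat_lit 2448) (.e (nat_lit 1789) (nat_lit 119) (.e (nat_lit 516179) (nat_lit 15) (.e (nat_lit 475177) (nat_lit 24) (.e (nat_lit 516179) (nat_lit 15) (.e (nat_lit 475177) (nat_lit 24) .nil))))) .nil)) 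
(.lf (nat_lit 75473) (.g (nat_lit 3049) (.e (nat_lit 1791) (nat_lit 119) (.e (nat_lit 516115) (nat_lit 1) (.e (nat_lit 164399) (nat_lit 256) (.e (nat_lit 57373) (nat_lit 2) (.e (nat_lit 90174) (nat_lit 14) (.e (nat_lit 180243) (nat_lit 5) (.e (nat_lit 532515) (nat_lit 3) (.e (nat_lit 114702) (nat_lit 20) .nil)))))))) (.g (nat_lit 5) .nil .nil)))) (.nd (nat_lit 6) 
(.lf (nat_lit 75441) (.g (nat_lit 4718) (.e (nat_lit 1790) (nat_lit 119) (.e (nat_lit 516166) (nat_lit 12) (.e (nat_lit 450587) (nat_lit 10) (.e (nat_lit 573477) (nat_lit 12) (.e (nat_lit 57574) (nat_lit 55) .nil))))) .nil)) 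
(.lf (nat_lit 75505) (.g (nat_lit 2013) (.e (nat_lit 1792) (nat_lit 119) (.e (nat_lit 516115) (nat_lit 1) (.e (nat_lit 164399) (nat_lit 256) (.e (nat_lit 57379) (nat_lit 3) (.e (nat_lit 98377) (nat_lit 30) .nil))))) .nil))))) (.nd (nat_lit 4) (.nd (nat_lit 5) (.nd (nat_lit 6) 
(.lf (nat_lit 75401) (.g (nat_lit 4579) (.e (nat_lit 1789) (nat_lit 119) (.e (nat_lit 516166) (nat_lit 12) (.e (nat_lit 450587) (nat_lit 10) (.e (nat_lit 573477) (nat_lit 12) (.e (nat_lit 57574) (nat_lit 55) (.e (nat_lit 778466) (nat_lit 11) (.e (nat_lit 24576) (nat_lit 0) .nil))))))) (.g (nat_lit 4) .nil .nil))) 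
(.lf (nat_lit 75465) (.g (nat_lit 2347) (.e (nat_lit 1791) (nat_lit 119) (.e (nat_lit 516115) (nat_lit 1) (.e (nat_lit 164399) (nat_lit 256) (.e (nat_lit 57372) (nat_lit 2) (.e (nat_lit 90172) (nat_lit 14) (.e (nat_lit 180243) (nat_lit 5) (.e (nat_lit 532515) (nat_lit 3) (.e (nat_lit 114702) (nat_lit 20) .nil)))))))) (.g (nat_lit 4) .nil .nil)))) (.nd (nat_lit 6) 
(.lf (nat_lit 75433) (.g (nat_lit 3349) (.e (nat_lit 1790) (nat_lit 119) (.e (nat_lit 516151) (nat_lit 9) (.e (nat_lit 426338) (nat_lit 14) (.e (nat_lit 491537) (nat_lit 2) (.e (nat_lit 90170) (nat_lit 13) .nil))))) .nil)) 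
(.lf (nat_lit 75497) (.g (nat_lit 5181) (.e (nat_lit 1791) (nat_lit 119) (.e (nat_lit 516166) (nat_lit 12) (.e (nat_lit 450588) (nat_lit 10) (.e (nat_lit 573475) (nat_lit 12) (.e (nat_lit 57574) (nat_lit 55) (.e (nat_lit 778466) (nat_lit 11) (.e (nat_lit 24576) (nat_lit 0) .nil))))))) (.g (nat_lit 4) .nil .nil))))) (.nd (nat_lit 5) (.nd (nat_lit 6) 
(.lf (nat_lit 75417) (.g (nat_lit 2221) (.e (nat_lit 1790) (nat_lit 119) (.e (nat_lit 516115) (nat_lit 1) (.e (nat_lit 164399) (nat_lit 256) (.e (nat_lit 57378) (nat_lit 3) (.e (nat_lit 98377) (nat_lit 30) .nil))))) .nil)) 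
(.lf (nat_lit 75481) (.g (nat_lit 2392) (.e (nat_lit 1791) (nat_lit 119) (.e (nat_lit 516151) (nat_lit 9) (.e (nat_lit 426170) (nat_lit 7) (.e (nat_lit 409631) (nat_lit 12) .nil)))) .nil))) (.nd (nat_lit 6) 
(.lf (nat_lit 75449) (.g (nat_lit 4518) (.e (nat_lit 1790) (nat_lit 119) (.e (nat_lit 516166) (nat_lit 12) (.e (nat_lit 450587) (nat_lit 10) (.e (nat_lit 573478) (nat_lit 12) (.e (nat_lit 57574) (nat_lit 55) (.e (nat_lit 778465) (nat_lit 11) (.e (nat_lit 24581) (nat_lit 0) .nil))))))) (.g (nat_lit 4) .nil .nil))) 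
(.lf (nat_lit 75513) (.g (nat_lit 2109) (.e (nat_lit 1792) (nat_lit 119) (.e (nat_lit 516116) (nat_lit 1) (.e (nat_lit 164398) (nat_lit 256) (.e (nat_lit 57373) (nat_lit 2) (.e (nat_lit 90174) (nat_lit 14) (.e (nat_lit 180243) (nat_lit 5) (.e (nat_lit 532515) (nat_lit 3) (.e (nat_lit 114701) (nat_lit 20) .nil)))))))) (.g (nat_lit 4) .nil .nil))))))) 
(.nd (nat_lit 3) (.nd (nat_lit 4) (.nd (nat_lit 5) (.nd (nat_lit 6) 
(.lf (nat_lit 75397) (.g (nat_lit 4150) (.e (nat_lit 1789) (nat_lit 119) (.e (nat_lit 516166) (nat_lit 12) (.e (nat_lit 450587) (nat_lit 10) (.e (nat_lit 573454) (nat_lit 9) .nil)))) .nil)) 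
(.lf (nat_lit 75461) (.g (nat_lit 708) (.e (nat_lit 1790) (nat_lit 119) (.e (nat_lit 516176) (nat_lit 14) (.e (nat_lit 466981) (nat_lit 23) .nil))) .nil))) (.nd (nat_lit 6) 
(.lf (nat_lit 75429) (.g (nat_lit 5447) (.e (nat_lit 1790) (nat_lit 119) (.e (nat_lit 516151) (nat_lit 9) (.e (nat_lit 426211) (nat_lit 9) (.e (nat_lit 426125) (nat_lit 2) (.e (nat_lit 196626) (nat_lit 9) .nil))))) .nil)) 
(.lf (nat_lit 75493) (.g (nat_lit 4855) (.e (nat_lit 1791) (nat_lit 119) (.e (nat_lit 516166) (nat_lit 12) (.e (nat_lit 450587) (nat_lit 10) (.e (nat_lit 573478) (nat_lit 12) (.e (nat_lit 57574) (nat_lit 55) (.e (nat_lit 778466) (nat_lit 11) (.e (nat_lit 24576) (nat_lit 0) .nil))))))) (.g (nat_lit 4) .nil .nil))))) (.nd (nat_lit 5) (.nd (nat_lit 6) 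
(.lf (nat_lit 75413) (.g (nat_lit 2225) (.e (nat_lit 1790) (nat_lit 119) (.e (nat_lit 516115) (nat_lit 1) (.e (nat_lit 164399) (nat_lit 256) (.e (nat_lit 57372) (nat_lit 2) (.e (nat_lit 90174) (nat_lit 14) (.e (nat_lit 180243) (nat_lit 5) (.e (nat_lit 532515) (nat_lit 3) (.e (nat_lit 114701) (nat_lit 20) .nil)))))))) (.g (nat_lit 4) .nil .nil))) 
(.lf (nat_lit 75477) (.g (nat_lit 2278) (.e (nat_lit 1791) (nat_lit 119) (.e (nat_lit 516115) (nat_lit 1) (.e (nat_lit 164399) (nat_lit 256) (.e (nat_lit 57379) (nat_lit 3) (.e (nat_lit 98356) (nat_lit 26) (.e (nat_lit 426131) (nat_lit 3) (.e (nat_lit 204838) (nat_lit 20) (.e (nat_lit 114702) (nat_lit 20) .nil)))))))) (.g (nat_lit 4) .nil .nil)))) (.nd (nat_lit 6) 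
(.lf (nat_lit 75445) (.g (nat_lit 4507) (.e (nat_lit 1790) (nat_lit 119) (.e (nat_lit 516166) (nat_lit 12) (.e (nat_lit 450587) (nat_lit 10) (.e (nat_lit 573478) (nat_lit 12) (.e (nat_lit 57574) (nat_lit 55) .nil))))) .nil)) 
(.lf (nat_lit 75509) (.g (nat_lit 4165) (.e (nat_lit 1792) (nat_lit 119) (.e (nat_lit 516116) (nat_lit 1) (.e (nat_lit 164329) (nat_lit 230) (.e (nat_lit 163902) (nat_lit 12) (.e (nat_lit 426568) (nat_lit 34) (.e (nat_lit 393271) (nat_lit 23) (.e (nat_lit 426361) (nat_lit 15) .nil))))))) (.g (nat_lit 6) .nil .nil)))))) (.nd (nat_lit 4) (.nd (nat_lit 5) (.nd (nat_lit 6) 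
(.lf (nat_lit 75405) (.g (nat_lit 4908) (.e (nat_lit 1789) (nat_lit 119) (.e (nat_lit 516166) (nat_lit 12) (.e (nat_lit 450588) (nat_lit 10) (.e (nat_lit 573470) (nat_lit 11) .nil)))) .nil)) 
(.lf (nat_lit 75469) (.g (nat_lit 2294) (.e (nat_lit 1791) (nat_lit 119) (.e (nat_lit 516115) (nat_lit 1) (.e (nat_lit 164399) (nat_lit 256) (.e (nat_lit 57372) (nat_lit 2) (.e (nat_lit 90174) (nat_lit 14) (.e (nat_lit 180243) (nat_lit 5) (.e (nat_lit 532515) (nat_lit 3) (.e (nat_lit 114702) (nat_lit 20) .nil)))))))) (.g (nat_lit 4) .nil .nil)))) (.nd (nat_lit 6) 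
(.lf (nat_lit 75437) (.g (nat_lit 3956) (.e (nat_lit 1790) (nat_lit 119) (.e (nat_lit 516166) (nat_lit 12) (.e (nat_lit 450587) (nat_lit 10) (.e (nat_lit 573457) (nat_lit 9) .nil)))) .nil)) 
(.lf (nat_lit 75501) (.g (nat_lit 2301) (.e (nat_lit 1792) (nat_lit 119) (.e (nat_lit 516115) (nat_lit 1) (.e (nat_lit 164399) (nat_lit 256) (.e (nat_lit 57373) (nat_lit 2) (.e (nat_lit 90172) (nat_lit 14) (.e (nat_lit 180244) (nat_lit 5) (.e (nat_lit 532515) (nat_lit 3) (.e (nat_lit 114701) (nat_lit 20) .nil)))))))) (.g (nat_lit 4) .nil .nil))))) (.nd (nat_lit 5) (.nd (nat_lit 6) 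
(.lf (nat_lit 75421) (.g (nat_lit 2412) (.e (nat_lit 1790) (nat_lit 119) (.e (nat_lit 516119) (nat_lit 1) (.e (nat_lit 164403) (nat_lit 256) (.e (nat_lit 57371) (nat_lit 2) (.e (nat_lit 90172) (nat_lit 14) (.e (nat_lit 180244) (nat_lit 5) (.e (nat_lit 532513) (nat_lit 3) (.e (nat_lit 114700) (nat_lit 20) .nil)))))))) (.g (nat_lit 4) .nil .nil))) 
(.lf (nat_lit 75485) (.g (nat_lit 3657) (.e (nat_lit 1791) (nat_lit 119) (.e (nat_lit 516151) (nat_lit 9) (.e (nat_lit 426211) (nat_lit 9) (.e (nat_lit 426125) (nat_lit 2) (.e (nat_lit 196661) (nat_lit 12) .nil))))) .nil))) (.nd (nat_lit 6) 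
(.lf (nat_lit 75453) (.g (nat_lit 4965) (.e (nat_lit 1790) (nat_lit 119) (.e (nat_lit 516166) (nat_lit 12) (.e (nat_lit 450588) (nat_lit 10) (.e (nat_lit 573470) (nat_lit 11) .nil)))) .nil)) 
(.lf (nat_lit 75517) (.g (nat_lit 2103) (.e (nat_lit 1792) (nat_lit 119) (.e (nat_lit 516116) (nat_lit 1) (.e (nat_lit 164399) (nat_lit 256) (.e (nat_lit 57373) (nat_lit 2) (.e (nat_lit 90174) (nat_lit 14) (.e (nat_lit 180243) (nat_lit 5) (.e (nat_lit 532515) (nat_lit 3) (.e (nat_lit 114701) (nat_lit 20) .nil)))))))) (.g (nat_lit 4) .nil .nil)))))))) 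
(.nd (nat_lit 2) (.nd (nat_lit 3) (.nd (nat_lit 4) (.nd (nat_lit 5) (.nd (nat_lit 6) 
(.lf (nat_lit 75395) (.g (nat_lit 3826) (.e (nat_lit 1789) (nat_lit 119) (.e (nat_lit 516151) (nat_lit 9) (.e (nat_lit 426286) (nat_lit 10) (.e (nat_lit 434247) (nat_lit 28) .nil)))) .nil)) 
(.lf (nat_lit 75459) (.g (nat_lit 808) (.e (nat_lit 1790) (nat_lit 119) (.e (nat_lit 516176) (nat_lit 14) (.e (nat_lit 466975) (nat_lit 22) .nil))) .nil))) (.nd (nat_lit 6) 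
(.lf (nat_lit 75427) (.g (nat_lit 2392) (.e (nat_lit 1790) (nat_lit 119) (.e (nat_lit 516151) (nat_lit 9) (.e (nat_lit 426170) (nat_lit 7) (.e (nat_lit 409631) (nat_lit 12) .nil)))) .nil)) 
(.lf (nat_lit 75491) (.g (nat_lit 4429) (.e (nat_lit 1791) (nat_lit 119) (.e (nat_lit 516166) (nat_lit 12) (.e (nat_lit 450587) (nat_lit 10) (.e (nat_lit 573469) (nat_lit 11) .nil)))) .nil)))) (.nd (nat_lit 5) (.nd (nat_lit 6) 
(.lf (nat_lit 75411) (.g (nat_lit 2189) (.e (nat_lit 1790) (nat_lit 119) (.e (nat_lit 516115) (nat_lit 1) (.e (nat_lit 164398) (nat_lit 256) (.e (nat_lit 57373) (nat_lit 2) (.e (nat_lit 90174) (nat_lit 14) (.e (nat_lit 180243) (nat_lit 5) (.e (nat_lit 532513) (nat_lit 3) (.e (nat_lit 114700) (nat_lit 20) .nil)))))))) (.g (nat_lit 4) .nil .nil))) 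
(.lf (nat_lit 75475) (.g (nat_lit 2272) (.e (nat_lit 1791) (nat_lit 119) (.e (nat_lit 516115) (nat_lit 1) (.e (nat_lit 164399) (nat_lit 256) (.e (nat_lit 57375) (nat_lit 2) (.e (nat_lit 90172) (nat_lit 14) (.e (nat_lit 180244) (nat_lit 5) (.e (nat_lit 532515) (nat_lit 3) (.e (nat_lit 114701) (nat_lit 20) .nil)))))))) (.g (nat_lit 4) .nil .nil)))) (.nd (nat_lit 6) 
(.lf (nat_lit 75443) (.g (nat_lit 5000) (.e (nat_lit 1790) (nat_lit 119) (.e (nat_lit 516166) (nat_lit 12) (.e (nat_lit 450587) (nat_lit 10) (.e (nat_lit 573477) (nat_lit 12) (.e (nat_lit 57575) (nat_lit 55) (.e (nat_lit 778463) (nat_lit 11) (.e (nat_lit 24582) (nat_lit 0) .nil))))))) (.g (nat_lit 4) .nil .nil))) 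
(.lf (nat_lit 75507) (.g (nat_lit 1987) (.e (nat_lit 1792) (nat_lit 119) (.e (nat_lit 516116) (nat_lit 1) (.e (nat_lit 164329) (nat_lit 230) (.e (nat_lit 163902) (nat_lit 12) (.e (nat_lit 426566) (nat_lit 34) (.e (nat_lit 393268) (nat_lit 23) (.e (nat_lit 426361) (nat_lit 15) .nil))))))) (.g (nat_lit 4) .nil .nil)))))) (.nd (nat_lit 4) (.nd (nat_lit 5) (.nd (nat_lit 6) 
(.lf (nat_lit 75403) (.g (nat_lit 4893) (.e (nat_lit 1789) (nat_lit 119) (.e (nat_lit 516166) (nat_lit 12) (.e (nat_lit 450588) (nat_lit 10) (.e (nat_lit 573452) (nat_lit 9) .nil)))) .nil)) 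
(.lf (nat_lit 75467) (.g (nat_lit 3045) (.e (nat_lit 1791) (nat_lit 119) (.e (nat_lit 516115) (nat_lit 1) (.e (nat_lit 164399) (nat_lit 256) (.e (nat_lit 57372) (nat_lit 2) (.e (nat_lit 90172) (nat_lit 14) (.e (nat_lit 180244) (nat_lit 5) (.e (nat_lit 532515) (nat_lit 3) (.e (nat_lit 114702) (nat_lit 20) .nil)))))))) (.g (nat_lit 5) .nil .nil)))) (.nd (nat_lit 6) 
(.lf (nat_lit 75435) (.g (nat_lit 3797) (.e (nat_lit 1790) (nat_lit 119) (.e (nat_lit 516166) (nat_lit 12) (.e (nat_lit 450587) (nat_lit 10) (.e (nat_lit 573454) (nat_lit 9) .nil)))) .nil)) 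
(.lf (nat_lit 75499) (.g (nat_lit 2234) (.e (nat_lit 1792) (nat_lit 119) (.e (nat_lit 516115) (nat_lit 1) (.e (nat_lit 164399) (nat_lit 256) (.e (nat_lit 57372) (nat_lit 2) (.e (nat_lit 90172) (nat_lit 14) (.e (nat_lit 180244) (nat_lit 5) (.e (nat_lit 532515) (nat_lit 3) (.e (nat_lit 114701) (nat_lit 20) .nil)))))))) (.g (nat_lit 4) .nil .nil))))) (.nd (nat_lit 5) (.nd (nat_lit 6) 
(.lf (nat_lit 75419) (.g (nat_lit 2652) (.e (nat_lit 1790) (nat_lit 119) (.e (nat_lit 516117) (nat_lit 1) (.e (nat_lit 164329) (nat_lit 230) (.e (nat_lit 163902) (nat_lit 12) (.e (nat_lit 426568) (nat_lit 34) .nil))))) .nil)) 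
(.lf (nat_lit 75483) (.g (nat_lit 3006) (.e (nat_lit 1791) (nat_lit 119) (.e (nat_lit 516151) (nat_lit 9) (.e (nat_lit 426211) (nat_lit 9) (.e (nat_lit 426125) (nat_lit 2) .nil)))) .nil))) (.nd (nat_lit 6) 
(.lf (nat_lit 75451) (.g (nat_lit 4950) (.e (nat_lit 1790) (nat_lit 119) (.e (nat_lit 516166) (nat_lit 12) (.e (nat_lit 450588) (nat_lit 10) (.e (nat_lit 573452) (nat_lit 9) .nil)))) .nil)) 
(.lf (nat_lit 75515) (.g (nat_lit 1468) (.e (nat_lit 1792) (nat_lit 119) (.e (nat_lit 516116) (nat_lit 1) (.e (nat_lit 164398) (nat_lit 256) (.e (nat_lit 57379) (nat_lit 3) .nil)))) .nil)))))) (.nd (nat_lit 3) (.nd (nat_lit 4) (.nd (nat_lit 5) (.nd (nat_lit 6) 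
(.lf (nat_lit 75399) (.g (nat_lit 3967) (.e (nat_lit 1789) (nat_lit 119) (.e (nat_lit 516166) (nat_lit 12) (.e (nat_lit 450587) (nat_lit 10) (.e (nat_lit 573477) (nat_lit 12) .nil)))) .nil)) 
(.lf (nat_lit 75463) (.g (nat_lit 2112) (.e (nat_lit 1791) (nat_lit 119) (.e (nat_lit 516115) (nat_lit 1) (.e (nat_lit 164398) (nat_lit 256) (.e (nat_lit 57373) (nat_lit 2) (.e (nat_lit 90174) (nat_lit 14) .nil))))) .nil))) (.nd (nat_lit 6) 
(.lf (nat_lit 75431) (.g (nat_lit 3515) (.e (nat_lit 1790) (nat_lit 119) (.e (nat_lit 516151) (nat_lit 9) (.e (nat_lit 426285) (nat_lit 10) (.e (nat_lit 434238) (nat_lit 25) (.e (nat_lit 548913) (nat_lit 18) .nil))))) .nil)) 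
(.lf (nat_lit 75495) (.g (nat_lit 4982) (.e (nat_lit 1791) (nat_lit 119) (.e (nat_lit 516166) (nat_lit 12) (.e (nat_lit 450588) (nat_lit 10) (.e (nat_lit 573452) (nat_lit 9) .nil)))) .nil)))) (.nd (nat_lit 5) (.nd (nat_lit 6) 
(.lf (nat_lit 75415) (.g (nat_lit 2913) (.e (nat_lit 1790) (nat_lit 119) (.e (nat_lit 516115) (nat_lit 1) (.e (nat_lit 164399) (nat_lit 256) (.e (nat_lit 57373) (nat_lit 2) (.e (nat_lit 90172) (nat_lit 14) (.e (nat_lit 180244) (nat_lit 5) (.e (nat_lit 532515) (nat_lit 3) (.e (nat_lit 114701) (nat_lit 20) .nil)))))))) (.g (nat_lit 5) .nil .nil))) 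
(.lf (nat_lit 75479) (.g (nat_lit 1788) (.e (nat_lit 1791) (nat_lit 119) (.e (nat_lit 516116) (nat_lit 1) (.e (nat_lit 164329) (nat_lit 230) (.e (nat_lit 163902) (nat_lit 12) .nil)))) .nil))) (.nd (nat_lit 6) 
(.lf (nat_lit 75447) (.g (nat_lit 4545) (.e (nat_lit 1790) (nat_lit 119) (.e (nat_lit 516166) (nat_lit 12) (.e (nat_lit 450587) (nat_lit 10) (.e (nat_lit 573478) (nat_lit 12) (.e (nat_lit 57574) (nat_lit 55) (.e (nat_lit 778464) (nat_lit 11) (.e (nat_lit 24582) (nat_lit 0) .nil))))))) (.g (nat_lit 4) .nil .nil))) 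
(.lf (nat_lit 75511) (.g (nat_lit 1253) (.e (nat_lit 1792) (nat_lit 119) (.e (nat_lit 516116) (nat_lit 1) (.e (nat_lit 164332) (nat_lit 230) (.e (nat_lit 163905) (nat_lit 12) .nil)))) .nil))))) (.nd (nat_lit 4) (.nd (nat_lit 5) (.nd (nat_lit 6) 
(.lf (nat_lit 75407) (.g (nat_lit 7269) (.e (nat_lit 1789) (nat_lit 119) (.e (nat_lit 516166) (nat_lit 12) (.e (nat_lit 450588) (nat_lit 10) (.e (nat_lit 573474) (nat_lit 12) .nil)))) .nil)) 
(.lf (nat_lit 75471) (.g (nat_lit 2356) (.e (nat_lit 1791) (nat_lit 119) (.e (nat_lit 516115) (nat_lit 1) (.e (nat_lit 164399) (nat_lit 256) (.e (nat_lit 57373) (nat_lit 2) (.e (nat_lit 90172) (nat_lit 14) (.e (nat_lit 180244) (nat_lit 5) (.e (nat_lit 532513) (nat_lit 3) (.e (nat_lit 114700) (nat_lit 20) .nil)))))))) (.g (nat_lit 4) .nil .nil)))) (.nd (nat_lit 6) 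
(.lf (nat_lit 75439) (.g (nat_lit 5439) (.e (nat_lit 1790) (nat_lit 119) (.e (nat_lit 516166) (nat_lit 12) (.e (nat_lit 450587) (nat_lit 10) (.e (nat_lit 573475) (nat_lit 12) .nil)))) .nil)) 
(.lf (nat_lit 75503) (.g (nat_lit 2006) (.e (nat_lit 1792) (nat_lit 119) (.e (nat_lit 516115) (nat_lit 1) (.e (nat_lit 164399) (nat_lit 256) (.e (nat_lit 57373) (nat_lit 2) (.e (nat_lit 90174) (nat_lit 14) (.e (nat_lit 180243) (nat_lit 5) (.e (nat_lit 532515) (nat_lit 3) (.e (nat_lit 114700) (nat_lit 20) .nil)))))))) (.g (nat_lit 4) .nil .nil))))) (.nd (nat_lit 5) (.nd (nat_lit 6) 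
(.lf (nat_lit 75423) (.g (nat_lit 2261) (.e (nat_lit 1790) (nat_lit 119) (.e (nat_lit 516120) (nat_lit 1) (.e (nat_lit 164329) (nat_lit 230) (.e (nat_lit 163902) (nat_lit 12) (.e (nat_lit 426566) (nat_lit 34) .nil))))) .nil)) 
(.lf (nat_lit 75487) (.g (nat_lit 4063) (.e (nat_lit 1791) (nat_lit 119) (.e (nat_lit 516151) (nat_lit 9) (.e (nat_lit 426286) (nat_lit 10) (.e (nat_lit 434245) (nat_lit 28) .nil)))) .nil))) (.nd (nat_lit 6) 
(.lf (nat_lit 75455) (.g (nat_lit 4726) (.e (nat_lit 1790) (nat_lit 119) (.e (nat_lit 516166) (nat_lit 12) (.e (nat_lit 450588) (nat_lit 10) (.e (nat_lit 573473) (nat_lit 12) .nil)))) .nil)) 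
(.lf (nat_lit 75519) (.g (nat_lit 2263) (.e (nat_lit 1792) (nat_lit 119) (.e (nat_lit 516116) (nat_lit 1) (.e (nat_lit 164399) (nat_lit 256) (.e (nat_lit 57375) (nat_lit 2) (.e (nat_lit 90172) (nat_lit 14) (.e (nat_lit 180244) (nat_lit 5) (.e (nat_lit 532515) (nat_lit 3) (.e (nat_lit 114702) (nat_lit 20) .nil)))))))) (.g (nat_lit 4) .nil .nil))))))))))

noncomputable def tv1022 : DT := (.nd (nat_lit 0) (.nd (nat_lit 1) (.nd (nat_lit 2) (.nd (nat_lit 3) (.nd (nat_lit 4) (.nd (nat_lit 5) (.nd (nat_lit 6) 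
(.lf (nat_lit 75520) (.g (nat_lit 2131) (.e (nat_lit 1792) (nat_lit 119) (.e (nat_lit 516116) (nat_lit 1) (.e (nat_lit 164399) (nat_lit 256) (.e (nat_lit 57375) (nat_lit 2) (.e (nat_lit 90174) (nat_lit 14) (.e (nat_lit 180243) (nat_lit 5) (.e (nat_lit 532513) (nat_lit 3) (.e (nat_lit 114700) (nat_lit 20) .nil)))))))) (.g (nat_lit 4) .nil .nil))) 
(.lf (nat_lit 75584) (.g (nat_lit 4100) (.e (nat_lit 1793) (nat_lit 119) (.e (nat_lit 516166) (nat_lit 12) (.e (nat_lit 450587) (nat_lit 10) (.e (nat_lit 573478) (nat_lit 12) (.e (nat_lit 57574) (nat_lit 55) (.e (nat_lit 778466) (nat_lit 11) (.e (nat_lit 24577) (nat_lit 0) .nil))))))) (.g (nat_lit 4) .nil .nil)))) (.nd (nat_lit 6) 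
(.lf (nat_lit 75552) (.g (nat_lit 2838) (.e (nat_lit 1792) (nat_lit 119) (.e (nat_lit 516166) (nat_lit 12) (.e (nat_lit 450587) (nat_lit 10) (.e (nat_lit 573456) (nat_lit 9) .nil)))) .nil)) 
(.lf (nat_lit 75616) (.g (nat_lit 460) (.e (nat_lit 1794) (nat_lit 119) (.e (nat_lit 516129) (nat_lit 3) (.e (nat_lit 221194) (nat_lit 11) .nil))) .nil)))) (.nd (nat_lit 5) (.nd (nat_lit 6) 
(.lf (nat_lit 75536) (.g (nat_lit 2372) (.e (nat_lit 1792) (nat_lit 119) (.e (nat_lit 516151) (nat_lit 9) (.e (nat_lit 426211) (nat_lit 9) (.e (nat_lit 426140) (nat_lit 3) .nil)))) .nil)) 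
(.lf (nat_lit 75600) (.g (nat_lit 2097) (.e (nat_lit 1794) (nat_lit 119) (.e (nat_lit 516115) (nat_lit 1) (.e (nat_lit 164399) (nat_lit 256) (.e (nat_lit 57372) (nat_lit 2) (.e (nat_lit 90174) (nat_lit 14) (.e (nat_lit 180243) (nat_lit 5) (.e (nat_lit 532515) (nat_lit 3) (.e (nat_lit 114702) (nat_lit 20) .nil)))))))) (.g (nat_lit 4) .nil .nil)))) (.nd (nat_lit 6) 
(.lf (nat_lit 75568) (.g (nat_lit 5721) (.e (nat_lit 1792) (nat_lit 119) (.e (nat_lit 516166) (nat_lit 12) (.e (nat_lit 450588) (nat_lit 10) (.e (nat_lit 573475) (nat_lit 12) (.e (nat_lit 57574) (nat_lit 55) (.e (nat_lit 778466) (nat_lit 11) (.e (nat_lit 24576) (nat_lit 0) .nil))))))) (.g (nat_lit 0) .nil .nil))) 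
(.lf (nat_lit 75632) (.g (nat_lit 959) (.e (nat_lit 1794) (nat_lit 119) (.e (nat_lit 516166) (nat_lit 12) (.e (nat_lit 450587) (nat_lit 10) .nil))) .nil))))) (.nd (nat_lit 4) (.nd (nat_lit 5) (.nd (nat_lit 6) 
(.lf (nat_lit 75528) (.g (nat_lit 1396) (.e (nat_lit 1792) (nat_lit 119) (.e (nat_lit 516145) (nat_lit 9) (.e (nat_lit 426438) (nat_lit 18) (.e (nat_lit 98384) (nat_lit 32) .nil)))) .nil)) 
(.lf (nat_lit 75592) (.g (nat_lit 5009) (.e (nat_lit 1793) (nat_lit 119) (.e (nat_lit 516166) (nat_lit 12) (.e (nat_lit 450588) (nat_lit 10) (.e (nat_lit 573475) (nat_lit 12) (.e (nat_lit 57574) (nat_lit 55) .nil))))) .nil))) (.nd (nat_lit 6) 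
(.lf (nat_lit 75560) (.g (nat_lit 5085) (.e (nat_lit 1792) (nat_lit 119) (.e (nat_lit 516166) (nat_lit 12) (.e (nat_lit 450588) (nat_lit 10) (.e (nat_lit 573471) (nat_lit 11) .nil)))) .nil)) 
(.lf (nat_lit 75624) (.g (nat_lit 4158) (.e (nat_lit 1794) (nat_lit 119) (.e (nat_lit 516151) (nat_lit 9) (.e (nat_lit 426211) (nat_lit 9) (.e (nat_lit 426140) (nat_lit 3) (.e (nat_lit 204845) (nat_lit 24) (.e (nat_lit 319530) (nat_lit 16) (.e (nat_lit 286722) (nat_lit 0) .nil))))))) (.g (nat_lit 5) .nil .nil))))) (.nd (nat_lit 5) (.nd (nat_lit 6) 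
(.lf (nat_lit 75544) (.g (nat_lit 1617) (.e (nat_lit 1792) (nat_lit 119) (.e (nat_lit 516151) (nat_lit 9) (.e (nat_lit 426312) (nat_lit 12) (.e (nat_lit 475185) (nat_lit 29) .nil)))) .nil)) 
(.lf (nat_lit 75608) (.g (nat_lit 2133) (.e (nat_lit 1794) (nat_lit 119) (.e (nat_lit 516115) (nat_lit 1) (.e (nat_lit 164399) (nat_lit 256) (.e (nat_lit 57373) (nat_lit 2) (.e (nat_lit 90174) (nat_lit 14) (.e (nat_lit 180243) (nat_lit 5) (.e (nat_lit 532513) (nat_lit 3) (.e (nat_lit 114702) (nat_lit 20) .nil)))))))) (.g (nat_lit 4) .nil .nil)))) (.nd (nat_lit 6) 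
(.lf (nat_lit 75576) (.g (nat_lit 4063) (.e (nat_lit 1793) (nat_lit 119) (.e (nat_lit 516151) (nat_lit 9) (.e (nat_lit 426286) (nat_lit 10) (.e (nat_lit 434245) (nat_lit 28) .nil)))) .nil)) 
(.lf (nat_lit 75640) (.g (nat_lit 4920) (.e (nat_lit 1794) (nat_lit 119) (.e (nat_lit 516166) (nat_lit 12) (.e (nat_lit 450587) (nat_lit 10) (.e (nat_lit 573477) (nat_lit 12) (.e (nat_lit 57574) (nat_lit 55) (.e (nat_lit 778464) (nat_lit 11) (.e (nat_lit 24577) (nat_lit 0) .nil))))))) (.g (nat_lit 5) .nil .nil))))))) (.nd (nat_lit 3) (.nd (nat_lit 4) (.nd (nat_lit 5) (.nd (nat_lit 6) 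
(.lf (nat_lit 75524) (.g (nat_lit 1513) (.e (nat_lit 1792) (nat_lit 119) (.e (nat_lit 516130) (nat_lit 3) (.e (nat_lit 221194) (nat_lit 11) (.e (nat_lit 336010) (nat_lit 2) (.e (nat_lit 90176) (nat_lit 15) (.e (nat_lit 196352) (nat_lit 0) .nil)))))) (.g (nat_lit 5) .nil .nil))) 
(.lf (nat_lit 75588) (.g (nat_lit 5050) (.e (nat_lit 1793) (nat_lit 119) (.e (nat_lit 516166) (nat_lit 12) (.e (nat_lit 450588) (nat_lit 10) (.e (nat_lit 573470) (nat_lit 11) .nil)))) .nil))) (.nd (nat_lit 6) 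
(.lf (nat_lit 75556) (.g (nat_lit 2964) (.e (nat_lit 1792) (nat_lit 119) (.e (nat_lit 516166) (nat_lit 12) (.e (nat_lit 450587) (nat_lit 10) (.e (nat_lit 573478) (nat_lit 12) .nil)))) .nil)) 
(.lf (nat_lit 75620) (.g (nat_lit 4665) (.e (nat_lit 1794) (nat_lit 119) (.e (nat_lit 516151) (nat_lit 9) (.e (nat_lit 426211) (nat_lit 9) (.e (nat_lit 426125) (nat_lit 2) (.e (nat_lit 196630) (nat_lit 9) (.e (nat_lit 1393) (nat_lit 106) (.e (nat_lit 319530) (nat_lit 16) (.e (nat_lit 286722) (nat_lit 0) .nil)))))))) (.g (nat_lit 4) .nil .nil))))) (.nd (nat_lit 5) (.nd (nat_lit 6) 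
(.lf (nat_lit 75540) (.g (nat_lit 2440) (.e (nat_lit 1792) (nat_lit 119) (.e (nat_lit 516151) (nat_lit 9) (.e (nat_lit 426285) (nat_lit 10) (.e (nat_lit 434238) (nat_lit 25) .nil)))) .nil)) 
(.lf (nat_lit 75604) (.g (nat_lit 2515) (.e (nat_lit 1794) (nat_lit 119) (.e (nat_lit 516115) (nat_lit 1) (.e (nat_lit 164399) (nat_lit 256) (.e (nat_lit 57373) (nat_lit 2) (.e (nat_lit 90172) (nat_lit 14) (.e (nat_lit 180244) (nat_lit 5) (.e (nat_lit 532515) (nat_lit 3) (.e (nat_lit 114701) (nat_lit 20) .nil)))))))) (.g (nat_lit 4) .nil .nil)))) (.nd (nat_lit 6) 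
(.lf (nat_lit 75572) (.g (nat_lit 3657) (.e (nat_lit 1793) (nat_lit 119) (.e (nat_lit 516151) (nat_lit 9) (.e (nat_lit 426211) (nat_lit 9) (.e (nat_lit 426125) (nat_lit 2) (.e (nat_lit 196661) (nat_lit 12) .nil))))) .nil)) 
(.lf (nat_lit 75636) (.g (nat_lit 3598) (.e (nat_lit 1794) (nat_lit 119) (.e (nat_lit 516166) (nat_lit 12) (.e (nat_lit 450587) (nat_lit 10) (.e (nat_lit 573477) (nat_lit 12) .nil)))) .nil))))) (.nd (nat_lit 4) (.nd (nat_lit 5) (.nd (nat_lit 6) 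
(.lf (nat_lit 75532) (.g (nat_lit 2746) (.e (nat_lit 1792) (nat_lit 119) (.e (nat_lit 516151) (nat_lit 9) (.e (nat_lit 426170) (nat_lit 7) (.e (nat_lit 409631) (nat_lit 12) (.e (nat_lit 32807) (nat_lit 18) (.e (nat_lit 172126) (nat_lit 14) (.e (nat_lit 491523) (nat_lit 0) .nil))))))) (.g (nat_lit 5) .nil .nil))) 
(.lf (nat_lit 75596) (.g (nat_lit 2458) (.e (nat_lit 1794) (nat_lit 119) (.e (nat_lit 516115) (nat_lit 1) (.e (nat_lit 164399) (nat_lit 256) (.e (nat_lit 57372) (nat_lit 2) (.e (nat_lit 90172) (nat_lit 14) (.e (nat_lit 180244) (nat_lit 5) (.e (nat_lit 532513) (nat_lit 3) (.e (nat_lit 114700) (nat_lit 20) .nil)))))))) (.g (nat_lit 4) .nil .nil)))) (.nd (nat_lit 6) 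
(.lf (nat_lit 75564) (.g (nat_lit 4148) (.e (nat_lit 1792) (nat_lit 119) (.e (nat_lit 516166) (nat_lit 12) (.e (nat_lit 450588) (nat_lit 10) (.e (nat_lit 573475) (nat_lit 12) (.e (nat_lit 57347) (nat_lit 0) .nil))))) .nil)) 
(.lf (nat_lit 75628) (.g (nat_lit 6354) (.e (nat_lit 1794) (nat_lit 119) (.e (nat_lit 516151) (nat_lit 9) (.e (nat_lit 426285) (nat_lit 10) (.e (nat_lit 434238) (nat_lit 25) (.e (nat_lit 548913) (nat_lit 18) (.e (nat_lit 172126) (nat_lit 14) (.e (nat_lit 491524) (nat_lit 0) .nil))))))) (.g (nat_lit 6) .nil .nil))))) (.nd (nat_lit 5) (.nd (nat_lit 6) 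
(.lf (nat_lit 75548) (.g (nat_lit 2228) (.e (nat_lit 1792) (nat_lit 119) (.e (nat_lit 516151) (nat_lit 9) (.e (nat_lit 426331) (nat_lit 13) (.e (nat_lit 483363) (nat_lit 18) (.e (nat_lit 57692) (nat_lit 156) .nil))))) .nil)) 
(.lf (nat_lit 75612) (.g (nat_lit 2183) (.e (nat_lit 1794) (nat_lit 119) (.e (nat_lit 516115) (nat_lit 1) (.e (nat_lit 164399) (nat_lit 256) (.e (nat_lit 57375) (nat_lit 2) (.e (nat_lit 90172) (nat_lit 14) (.e (nat_lit 180244) (nat_lit 5) (.e (nat_lit 532515) (nat_lit 3) (.e (nat_lit 114701) (nat_lit 20) .nil)))))))) (.g (nat_lit 4) .nil .nil)))) (.nd (nat_lit 6) 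
(.lf (nat_lit 75580) (.g (nat_lit 3311) (.e (nat_lit 1793) (nat_lit 119) (.e (nat_lit 516166) (nat_lit 12) (.e (nat_lit 450587) (nat_lit 10) (.e (nat_lit 573454) (nat_lit 9) .nil)))) .nil)) 
(.lf (nat_lit 75644) (.g (nat_lit 5155) (.e (nat_lit 1794) (nat_lit 119) (.e (nat_lit 516166) (nat_lit 12) (.e (nat_lit 450587) (nat_lit 10) (.e (nat_lit 573477) (nat_lit 12) (.e (nat_lit 57574) (nat_lit 55) (.e (nat_lit 778465) (nat_lit 11) (.e (nat_lit 24577) (nat_lit 0) .nil))))))) (.g (nat_lit 5) .nil .nil)))))))) 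
(.nd (nat_lit 2) (.nd (nat_lit 3) (.nd (nat_lit 4) (.nd (nat_lit 5) (.nd (nat_lit 6) 
(.lf (nat_lit 75522) (.g (nat_lit 1284) (.e (nat_lit 1792) (nat_lit 119) (.e (nat_lit 516116) (nat_lit 1) (.e (nat_lit 164399) (nat_lit 256) (.e (nat_lit 57379) (nat_lit 3) .nil)))) .nil)) 
(.lf (nat_lit 75586) (.g (nat_lit 5035) (.e (nat_lit 1793) (nat_lit 119) (.e (nat_lit 516166) (nat_lit 12) (.e (nat_lit 450588) (nat_lit 10) (.e (nat_lit 573452) (nat_lit 9) .nil)))) .nil))) (.nd (nat_lit 6) 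
(.lf (nat_lit 75554) (.g (nat_lit 3016) (.e (nat_lit 1792) (nat_lit 119) (.e (nat_lit 516166) (nat_lit 12) (.e (nat_lit 450587) (nat_lit 10) (.e (nat_lit 573477) (nat_lit 12) .nil)))) .nil)) 
(.lf (nat_lit 75618) (.g (nat_lit 2456) (.e (nat_lit 1794) (nat_lit 119) (.e (nat_lit 516151) (nat_lit 9) (.e (nat_lit 426211) (nat_lit 9) (.e (nat_lit 426125) (nat_lit 2) .nil)))) .nil)))) (.nd (nat_lit 5) (.nd (nat_lit 6) 
(.lf (nat_lit 75538) (.g (nat_lit 4041) (.e (nat_lit 1792) (nat_lit 119) (.e (nat_lit 516151) (nat_lit 9) (.e (nat_lit 426211) (nat_lit 9) (.e (nat_lit 426140) (nat_lit 3) (.e (nat_lit 204845) (nat_lit 24) (.e (nat_lit 319530) (nat_lit 16) (.e (nat_lit 286722) (nat_lit 0) .nil))))))) (.g (nat_lit 5) .nil .nil))) 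
(.lf (nat_lit 75602) (.g (nat_lit 2332) (.e (nat_lit 1794) (nat_lit 119) (.e (nat_lit 516115) (nat_lit 1) (.e (nat_lit 164399) (nat_lit 256) (.e (nat_lit 57373) (nat_lit 2) (.e (nat_lit 90170) (nat_lit 13) (.e (nat_lit 172067) (nat_lit 3) (.e (nat_lit 204838) (nat_lit 20) (.e (nat_lit 114702) (nat_lit 20) .nil)))))))) (.g (nat_lit 4) .nil .nil)))) (.nd (nat_lit 6) 
(.lf (nat_lit 75570) (.g (nat_lit 3006) (.e (nat_lit 1793) (nat_lit 119) (.e (nat_lit 516151) (nat_lit 9) (.e (nat_lit 426211) (nat_lit 9) (.e (nat_lit 426125) (nat_lit 2) .nil)))) .nil)) 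
(.lf (nat_lit 75634) (.g (nat_lit 3456) (.e (nat_lit 1794) (nat_lit 119) (.e (nat_lit 516166) (nat_lit 12) (.e (nat_lit 450587) (nat_lit 10) (.e (nat_lit 573456) (nat_lit 9) .nil)))) .nil))))) (.nd (nat_lit 4) (.nd (nat_lit 5) (.nd (nat_lit 6) 
(.lf (nat_lit 75530) (.g (nat_lit 2277) (.e (nat_lit 1792) (nat_lit 119) (.e (nat_lit 516151) (nat_lit 9) (.e (nat_lit 426170) (nat_lit 7) (.e (nat_lit 409631) (nat_lit 12) (.e (nat_lit 32807) (nat_lit 18) .nil))))) .nil)) 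
(.lf (nat_lit 75594) (.g (nat_lit 2112) (.e (nat_lit 1794) (nat_lit 119) (.e (nat_lit 516115) (nat_lit 1) (.e (nat_lit 164398) (nat_lit 256) (.e (nat_lit 57373) (nat_lit 2) (.e (nat_lit 90174) (nat_lit 14) .nil))))) .nil))) (.nd (nat_lit 6) 
(.lf (nat_lit 75562) (.g (nat_lit 6992) (.e (nat_lit 1792) (nat_lit 119) (.e (nat_lit 516166) (nat_lit 12) (.e (nat_lit 450588) (nat_lit 10) (.e (nat_lit 573474) (nat_lit 12) .nil)))) .nil)) 
(.lf (nat_lit 75626) (.g (nat_lit 3444) (.e (nat_lit 1794) (nat_lit 119) (.e (nat_lit 516151) (nat_lit 9) (.e (nat_lit 426285) (nat_lit 10) (.e (nat_lit 434238) (nat_lit 25) (.e (nat_lit 548913) (nat_lit 18) (.e (nat_lit 172124) (nat_lit 14) (.e (nat_lit 491524) (nat_lit 0) .nil))))))) (.g (nat_lit 4) .nil .nil))))) (.nd (nat_lit 5) (.nd (nat_lit 6) 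
(.lf (nat_lit 75546) (.g (nat_lit 788) (.e (nat_lit 1792) (nat_lit 119) (.e (nat_lit 516151) (nat_lit 9) (.e (nat_lit 426331) (nat_lit 13) .nil))) .nil)) 
(.lf (nat_lit 75610) (.g (nat_lit 2852) (.e (nat_lit 1794) (nat_lit 119) (.e (nat_lit 516115) (nat_lit 1) (.e (nat_lit 164399) (nat_lit 256) (.e (nat_lit 57373) (nat_lit 2) (.e (nat_lit 90174) (nat_lit 14) (.e (nat_lit 180243) (nat_lit 5) (.e (nat_lit 532515) (nat_lit 3) (.e (nat_lit 114702) (nat_lit 20) .nil)))))))) (.g (nat_lit 5) .nil .nil)))) (.nd (nat_lit 6) 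
(.lf (nat_lit 75578) (.g (nat_lit 1707) (.e (nat_lit 1793) (nat_lit 119) (.e (nat_lit 516151) (nat_lit 9) (.e (nat_lit 433920) (nat_lit 20) (.e (nat_lit 114716) (nat_lit 22) (.e (nat_lit 90158) (nat_lit 11) (.e (nat_lit 24628) (nat_lit 9) (.e (nat_lit 335878) (nat_lit 0) .nil))))))) (.g (nat_lit 4) .nil .nil))) 
(.lf (nat_lit 75642) (.g (nat_lit 4811) (.e (nat_lit 1794) (nat_lit 119) (.e (nat_lit 516166) (nat_lit 12) (.e (nat_lit 450587) (nat_lit 10) (.e (nat_lit 573477) (nat_lit 12) (.e (nat_lit 57574) (nat_lit 55) (.e (nat_lit 778464) (nat_lit 11) (.e (nat_lit 24582) (nat_lit 0) .nil))))))) (.g (nat_lit 4) .nil .nil))))))) (.nd (nat_lit 3) (.nd (nat_lit 4) (.nd (nat_lit 5) (.nd (nat_lit 6) 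
(.lf (nat_lit 75526) (.g (nat_lit 2240) (.e (nat_lit 1792) (nat_lit 119) (.e (nat_lit 516130) (nat_lit 3) (.e (nat_lit 221194) (nat_lit 11) (.e (nat_lit 336012) (nat_lit 2) (.e (nat_lit 90178) (nat_lit 15) (.e (nat_lit 196352) (nat_lit 0) .nil)))))) (.g (nat_lit 5) .nil .nil))) 
(.lf (nat_lit 75590) (.g (nat_lit 4811) (.e (nat_lit 1793) (nat_lit 119) (.e (nat_lit 516166) (nat_lit 12) (.e (nat_lit 450588) (nat_lit 10) (.e (nat_lit 573473) (nat_lit 12) .nil)))) .nil))) (.nd (nat_lit 6) 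
(.lf (nat_lit 75558) (.g (nat_lit 3498) (.e (nat_lit 1792) (nat_lit 119) (.e (nat_lit 516166) (nat_lit 12) (.e (nat_lit 450588) (nat_lit 10) (.e (nat_lit 573469) (nat_lit 11) .nil)))) .nil)) 
(.lf (nat_lit 75622) (.g (nat_lit 3981) (.e (nat_lit 1794) (nat_lit 119) (.e (nat_lit 516151) (nat_lit 9) (.e (nat_lit 426211) (nat_lit 9) (.e (nat_lit 426125) (nat_lit 2) (.e (nat_lit 196661) (nat_lit 12) (.e (nat_lit 57712) (nat_lit 176) (.e (nat_lit 1370) (nat_lit 103) (.e (nat_lit 294916) (nat_lit 0) .nil)))))))) (.g (nat_lit 4) .nil .nil))))) (.nd (nat_lit 5) (.nd (nat_lit 6) 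
(.lf (nat_lit 75542) (.g (nat_lit 2152) (.e (nat_lit 1792) (nat_lit 119) (.e (nat_lit 516151) (nat_lit 9) (.e (nat_lit 426286) (nat_lit 10) .nil))) .nil)) 
(.lf (nat_lit 75606) (.g (nat_lit 3128) (.e (nat_lit 1794) (nat_lit 119) (.e (nat_lit 516115) (nat_lit 1) (.e (nat_lit 164399) (nat_lit 256) (.e (nat_lit 57373) (nat_lit 2) (.e (nat_lit 90174) (nat_lit 14) (.e (nat_lit 180243) (nat_lit 5) (.e (nat_lit 532513) (nat_lit 3) (.e (nat_lit 114700) (nat_lit 20) .nil)))))))) (.g (nat_lit 5) .nil .nil)))) (.nd (nat_lit 6) 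
(.lf (nat_lit 75574) (.g (nat_lit 3052) (.e (nat_lit 1793) (nat_lit 119) (.e (nat_lit 516151) (nat_lit 9) (.e (nat_lit 426211) (nat_lit 9) (.e (nat_lit 426140) (nat_lit 3) .nil)))) .nil)) 
(.lf (nat_lit 75638) (.g (nat_lit 4315) (.e (nat_lit 1794) (nat_lit 119) (.e (nat_lit 516166) (nat_lit 12) (.e (nat_lit 450587) (nat_lit 10) (.e (nat_lit 573477) (nat_lit 12) (.e (nat_lit 57574) (nat_lit 55) (.e (nat_lit 778463) (nat_lit 11) (.e (nat_lit 24581) (nat_lit 0) .nil))))))) (.g (nat_lit 4) .nil .nil)))))) (.nd (nat_lit 4) (.nd (nat_lit 5) (.nd (nat_lit 6) 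
(.lf (nat_lit 75534) (.g (nat_lit 2385) (.e (nat_lit 1792) (nat_lit 119) (.e (nat_lit 516151) (nat_lit 9) (.e (nat_lit 426211) (nat_lit 9) (.e (nat_lit 426125) (nat_lit 2) .nil)))) .nil)) 
(.lf (nat_lit 75598) (.g (nat_lit 2764) (.e (nat_lit 1794) (nat_lit 119) (.e (nat_lit 516115) (nat_lit 1) (.e (nat_lit 164399) (nat_lit 256) (.e (nat_lit 57372) (nat_lit 2) (.e (nat_lit 90172) (nat_lit 14) (.e (nat_lit 180244) (nat_lit 5) (.e (nat_lit 532515) (nat_lit 3) (.e (nat_lit 114702) (nat_lit 20) .nil)))))))) (.g (nat_lit 4) .nil .nil)))) (.nd (nat_lit 6) 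
(.lf (nat_lit 75566) (.g (nat_lit 4300) (.e (nat_lit 1792) (nat_lit 119) (.e (nat_lit 516166) (nat_lit 12) (.e (nat_lit 450588) (nat_lit 10) (.e (nat_lit 573475) (nat_lit 12) (.e (nat_lit 57574) (nat_lit 55) (.e (nat_lit 778464) (nat_lit 11) (.e (nat_lit 24576) (nat_lit 0) .nil))))))) (.g (nat_lit 4) .nil .nil))) 
(.lf (nat_lit 75630) (.g (nat_lit 4063) (.e (nat_lit 1794) (nat_lit 119) (.e (nat_lit 516151) (nat_lit 9) (.e (nat_lit 426286) (nat_lit 10) (.e (nat_lit 434245) (nat_lit 28) .nil)))) .nil)))) (.nd (nat_lit 5) (.nd (nat_lit 6) 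
(.lf (nat_lit 75550) (.g (nat_lit 2088) (.e (nat_lit 1792) (nat_lit 119) (.e (nat_lit 516163) (nat_lit 11) (.e (nat_lit 442424) (nat_lit 22) (.e (nat_lit 196661) (nat_lit 12) (.e (nat_lit 57712) (nat_lit 176) (.e (nat_lit 1370) (nat_lit 103) (.e (nat_lit 294916) (nat_lit 0) .nil))))))) (.g (nat_lit 4) .nil .nil))) 
(.lf (nat_lit 75614) (.g (nat_lit 2669) (.e (nat_lit 1794) (nat_lit 119) (.e (nat_lit 516115) (nat_lit 1) (.e (nat_lit 164399) (nat_lit 256) (.e (nat_lit 57378) (nat_lit 3) (.e (nat_lit 98358) (nat_lit 26) (.e (nat_lit 426131) (nat_lit 3) (.e (nat_lit 204838) (nat_lit 20) (.e (nat_lit 114702) (nat_lit 20) .nil)))))))) (.g (nat_lit 5) .nil .nil)))) (.nd (nat_lit 6) 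
(.lf (nat_lit 75582) (.g (nat_lit 4267) (.e (nat_lit 1793) (nat_lit 119) (.e (nat_lit 516166) (nat_lit 12) (.e (nat_lit 450587) (nat_lit 10) (.e (nat_lit 573477) (nat_lit 12) (.e (nat_lit 57575) (nat_lit 55) .nil))))) .nil)) 
(.lf (nat_lit 75646) (.g (nat_lit 4534) (.e (nat_lit 1794) (nat_lit 119) (.e (nat_lit 516166) (nat_lit 12) (.e (nat_lit 450587) (nat_lit 10) (.e (nat_lit 573477) (nat_lit 12) (.e (nat_lit 57574) (nat_lit 55) (.e (nat_lit 778465) (nat_lit 11) (.e (nat_lit 24583) (nat_lit 0) .nil))))))) (.g (nat_lit 4) .nil .nil))))))))) 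
(.nd (nat_lit 1) (.nd (nat_lit 2) (.nd (nat_lit 3) (.nd (nat_lit 4) (.nd (nat_lit 5) 
(.nd (nat_lit 6) 
(.lf (nat_lit 75521) (.g (nat_lit 2244) (.e (nat_lit 1792) (nat_lit 119) (.e (nat_lit 516116) (nat_lit 1) (.e (nat_lit 164399) (nat_lit 256) (.e (nat_lit 57378) (nat_lit 3) (.e (nat_lit 98377) (nat_lit 30) .nil))))) .nil)) 
(.lf (nat_lit 75585) (.g (nat_lit 3925) (.e (nat_lit 1793) (nat_lit 119) (.e (nat_lit 516166) (nat_lit 12) (.e (nat_lit 450587) (nat_lit 10) (.e (nat_lit 573478) (nat_lit 12) (.e (nat_lit 57574) (nat_lit 55) (.e (nat_lit 778466) (nat_lit 11) (.e (nat_lit 24582) (nat_lit 0) .nil))))))) (.g (nat_lit 4) .nil .nil)))) (.nd (nat_lit 6) 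
(.lf (nat_lit 75553) (.g (nat_lit 2812) (.e (nat_lit 1792) (nat_lit 119) (.e (nat_lit 516166) (nat_lit 12) (.e (nat_lit 450587) (nat_lit 10) (.e (nat_lit 573457) (nat_lit 9) .nil)))) .nil)) 
(.lf (nat_lit 75617) (.g (nat_lit 3490) (.e (nat_lit 1794) (nat_lit 119) (.e (nat_lit 516151) (nat_lit 9) (.e (nat_lit 426170) (nat_lit 7) (.e (nat_lit 409631) (nat_lit 12) (.e (nat_lit 32807) (nat_lit 18) (.e (nat_lit 172124) (nat_lit 14) (.e (nat_lit 491524) (nat_lit 0) .nil))))))) (.g (nat_lit 5) .nil .nil))))) (.nd (nat_lit 5) (.nd (nat_lit 6) 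
(.lf (nat_lit 75537) (.g (nat_lit 3415) (.e (nat_lit 1792) (nat_lit 119) (.e (nat_lit 516151) (nat_lit 9) (.e (nat_lit 426211) (nat_lit 9) (.e (nat_lit 426140) (nat_lit 3) (.e (nat_lit 204821) (nat_lit 17) (.e (nat_lit 6114) (nat_lit 332) (.e (nat_lit 1370) (nat_lit 103) (.e (nat_lit 294916) (nat_lit 0) .nil)))))))) (.g (nat_lit 4) .nil .nil))) 
(.lf (nat_lit 75601) (.g (nat_lit 2407) (.e (nat_lit 1794) (nat_lit 119) (.e (nat_lit 516115) (nat_lit 1) (.e (nat_lit 164399) (nat_lit 256) (.e (nat_lit 57373) (nat_lit 2) (.e (nat_lit 90170) (nat_lit 13) (.e (nat_lit 172065) (nat_lit 3) (.e (nat_lit 204838) (nat_lit 20) (.e (nat_lit 114702) (nat_lit 20) .nil)))))))) (.g (nat_lit 4) .nil .nil)))) (.nd (nat_lit 6) 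
(.lf (nat_lit 75569) (.g (nat_lit 1696) (.e (nat_lit 1793) (nat_lit 119) (.e (nat_lit 516116) (nat_lit 1) (.e (nat_lit 164329) (nat_lit 230) (.e (nat_lit 163904) (nat_lit 12) .nil)))) .nil)) 
(.lf (nat_lit 75633) (.g (nat_lit 4305) (.e (nat_lit 1794) (nat_lit 119) (.e (nat_lit 516166) (nat_lit 12) (.e (nat_lit 450587) (nat_lit 10) (.e (nat_lit 573454) (nat_lit 9) .nil)))) .nil))))) (.nd (nat_lit 4) (.nd (nat_lit 5) (.nd (nat_lit 6) 
(.lf (nat_lit 75529) (.g (nat_lit 1911) (.e (nat_lit 1792) (nat_lit 119) (.e (nat_lit 516151) (nat_lit 9) (.e (nat_lit 426170) (nat_lit 7) (.e (nat_lit 409631) (nat_lit 12) .nil)))) .nil)) 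
(.lf (nat_lit 75593) (.g (nat_lit 2601) (.e (nat_lit 1793) (nat_lit 119) (.e (nat_lit 516179) (nat_lit 15) (.e (nat_lit 475177) (nat_lit 24) (.e (nat_lit 516146) (nat_lit 9) (.e (nat_lit 426438) (nat_lit 18) (.e (nat_lit 98358) (nat_lit 26) (.e (nat_lit 426354) (nat_lit 15) .nil))))))) (.g (nat_lit 4) .nil .nil)))) (.nd (nat_lit 6) 
(.lf (nat_lit 75561) (.g (nat_lit 3536) (.e (nat_lit 1792) (nat_lit 119) (.e (nat_lit 516166) (nat_lit 12) (.e (nat_lit 450588) (nat_lit 10) (.e (nat_lit 573473) (nat_lit 12) .nil)))) .nil)) 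
(.lf (nat_lit 75625) (.g (nat_lit 4081) (.e (nat_lit 1794) (nat_lit 119) (.e (nat_lit 516151) (nat_lit 9) (.e (nat_lit 426211) (nat_lit 9) (.e (nat_lit 426140) (nat_lit 3) (.e (nat_lit 204845) (nat_lit 24) (.e (nat_lit 319531) (nat_lit 16) (.e (nat_lit 286722) (nat_lit 0) .nil))))))) (.g (nat_lit 5) .nil .nil))))) (.nd (nat_lit 5) (.nd (nat_lit 6) 
(.lf (nat_lit 75545) (.g (nat_lit 1107) (.e (nat_lit 1792) (nat_lit 119) (.e (nat_lit 516151) (nat_lit 9) (.e (nat_lit 426324) (nat_lit 13) .nil))) .nil)) 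
(.lf (nat_lit 75609) (.g (nat_lit 2601) (.e (nat_lit 1794) (nat_lit 119) (.e (nat_lit 516115) (nat_lit 1) (.e (nat_lit 164399) (nat_lit 256) (.e (nat_lit 57373) (nat_lit 2) (.e (nat_lit 90174) (nat_lit 14) (.e (nat_lit 180243) (nat_lit 5) (.e (nat_lit 532515) (nat_lit 3) (.e (nat_lit 114701) (nat_lit 20) .nil)))))))) (.g (nat_lit 4) .nil .nil)))) (.nd (nat_lit 6) 
(.lf (nat_lit 75577) (.g (nat_lit 1766) (.e (nat_lit 1793) (nat_lit 119) (.e (nat_lit 516151) (nat_lit 9) (.e (nat_lit 433920) (nat_lit 20) (.e (nat_lit 114714) (nat_lit 22) (.e (nat_lit 90158) (nat_lit 11) .nil))))) .nil)) 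
(.lf (nat_lit 75641) (.g (nat_lit 4807) (.e (nat_lit 1794) (nat_lit 119) (.e (nat_lit 516166) (nat_lit 12) (.e (nat_lit 450587) (nat_lit 10) (.e (nat_lit 573477) (nat_lit 12) (.e (nat_lit 57574) (nat_lit 55) (.e (nat_lit 778464) (nat_lit 11) (.e (nat_lit 24581) (nat_lit 0) .nil))))))) (.g (nat_lit 4) .nil .nil))))))) (.nd (nat_lit 3) (.nd (nat_lit 4) (.nd (nat_lit 5) (.nd (nat_lit 6) 
(.lf (nat_lit 75525) (.g (nat_lit 2125) (.e (nat_lit 1792) (nat_lit 119) (.e (nat_lit 516130) (nat_lit 3) (.e (nat_lit 221194) (nat_lit 11) (.e (nat_lit 336012) (nat_lit 2) (.e (nat_lit 90176) (nat_lit 15) (.e (nat_lit 196352) (nat_lit 0) .nil)))))) (.g (nat_lit 5) .nil .nil))) 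
(.lf (nat_lit 75589) (.g (nat_lit 4844) (.e (nat_lit 1793) (nat_lit 119) (.e (nat_lit 516166) (nat_lit 12) (.e (nat_lit 450588) (nat_lit 10) (.e (nat_lit 573471) (nat_lit 11) .nil)))) .nil))) (.nd (nat_lit 6) 
(.lf (nat_lit 75557) (.g (nat_lit 3595) (.e (nat_lit 1792) (nat_lit 119) (.e (nat_lit 516166) (nat_lit 12) (.e (nat_lit 450588) (nat_lit 10) (.e (nat_lit 573452) (nat_lit 9) .nil)))) .nil)) 
(.lf (nat_lit 75621) (.g (nat_lit 3130) (.e (nat_lit 1794) (nat_lit 119) (.e (nat_lit 516151) (nat_lit 9) (.e (nat_lit 426211) (nat_lit 9) (.e (nat_lit 426125) (nat_lit 2) (.e (nat_lit 196661) (nat_lit 12) .nil))))) .nil)))) (.nd (nat_lit 5) (.nd (nat_lit 6) 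
(.lf (nat_lit 75541) (.g (nat_lit 7172) (.e (nat_lit 1792) (nat_lit 119) (.e (nat_lit 516151) (nat_lit 9) (.e (nat_lit 426285) (nat_lit 10) (.e (nat_lit 434238) (nat_lit 25) (.e (nat_lit 548913) (nat_lit 18) (.e (nat_lit 172126) (nat_lit 14) (.e (nat_lit 491524) (nat_lit 0) .nil))))))) (.g (nat_lit 7) .nil .nil))) 
(.lf (nat_lit 75605) (.g (nat_lit 2828) (.e (nat_lit 1794) (nat_lit 119) (.e (nat_lit 516115) (nat_lit 1) (.e (nat_lit 164399) (nat_lit 256) (.e (nat_lit 57373) (nat_lit 2) (.e (nat_lit 90172) (nat_lit 14) (.e (nat_lit 180244) (nat_lit 5) (.e (nat_lit 532515) (nat_lit 3) (.e (nat_lit 114702) (nat_lit 20) .nil)))))))) (.g (nat_lit 4) .nil .nil)))) (.nd (nat_lit 6) 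
(.lf (nat_lit 75573) (.g (nat_lit 5013) (.e (nat_lit 1793) (nat_lit 119) (.e (nat_lit 516151) (nat_lit 9) (.e (nat_lit 426211) (nat_lit 9) (.e (nat_lit 426125) (nat_lit 2) (.e (nat_lit 196697) (nat_lit 19) .nil))))) .nil)) 
(.lf (nat_lit 75637) (.g (nat_lit 4206) (.e (nat_lit 1794) (nat_lit 119) (.e (nat_lit 516166) (nat_lit 12) (.e (nat_lit 450587) (nat_lit 10) (.e (nat_lit 573477) (nat_lit 12) (.e (nat_lit 57574) (nat_lit 55) .nil))))) .nil))))) (.nd (nat_lit 4) (.nd (nat_lit 5) (.nd (nat_lit 6) 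
(.lf (nat_lit 75533) (.g (nat_lit 5009) (.e (nat_lit 1792) (nat_lit 119) (.e (nat_lit 516151) (nat_lit 9) (.e (nat_lit 426170) (nat_lit 7) (.e (nat_lit 409631) (nat_lit 12) (.e (nat_lit 32807) (nat_lit 18) (.e (nat_lit 172126) (nat_lit 14) (.e (nat_lit 491524) (nat_lit 0) .nil))))))) (.g (nat_lit 7) .nil .nil))) 
(.lf (nat_lit 75597) (.g (nat_lit 2451) (.e (nat_lit 1794) (nat_lit 119) (.e (nat_lit 516115) (nat_lit 1) (.e (nat_lit 164399) (nat_lit 256) (.e (nat_lit 57372) (nat_lit 2) (.e (nat_lit 90172) (nat_lit 14) (.e (nat_lit 180244) (nat_lit 5) (.e (nat_lit 532515) (nat_lit 3) (.e (nat_lit 114701) (nat_lit 20) .nil)))))))) (.g (nat_lit 4) .nil .nil)))) (.nd (nat_lit 6) 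
(.lf (nat_lit 75565) (.g (nat_lit 4907) (.e (nat_lit 1792) (nat_lit 119) (.e (nat_lit 516166) (nat_lit 12) (.e (nat_lit 450588) (nat_lit 10) (.e (nat_lit 573475) (nat_lit 12) (.e (nat_lit 57574) (nat_lit 55) (.e (nat_lit 778463) (nat_lit 11) (.e (nat_lit 24581) (nat_lit 0) .nil))))))) (.g (nat_lit 5) .nil .nil))) 
(.lf (nat_lit 75629) (.g (nat_lit 2152) (.e (nat_lit 1794) (nat_lit 119) (.e (nat_lit 516151) (nat_lit 9) (.e (nat_lit 426286) (nat_lit 10) .nil))) .nil)))) (.nd (nat_lit 5) (.nd (nat_lit 6) 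
(.lf (nat_lit 75549) (.g (nat_lit 2971) (.e (nat_lit 1792) (nat_lit 119) (.e (nat_lit 516151) (nat_lit 9) (.e (nat_lit 426338) (nat_lit 14) (.e (nat_lit 491537) (nat_lit 2) (.e (nat_lit 90170) (nat_lit 13) .nil))))) .nil)) 
(.lf (nat_lit 75613) (.g (nat_lit 2496) (.e (nat_lit 1794) (nat_lit 119) (.e (nat_lit 516115) (nat_lit 1) (.e (nat_lit 164399) (nat_lit 256) (.e (nat_lit 57375) (nat_lit 2) (.e (nat_lit 90172) (nat_lit 14) (.e (nat_lit 180244) (nat_lit 5) (.e (nat_lit 532515) (nat_lit 3) (.e (nat_lit 114702) (nat_lit 20) .nil)))))))) (.g (nat_lit 4) .nil .nil)))) (.nd (nat_lit 6) 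
(.lf (nat_lit 75581) (.g (nat_lit 3690) (.e (nat_lit 1793) (nat_lit 119) (.e (nat_lit 516166) (nat_lit 12) (.e (nat_lit 450587) (nat_lit 10) (.e (nat_lit 573469) (nat_lit 11) .nil)))) .nil)) 
(.lf (nat_lit 75645) (.g (nat_lit 5162) (.e (nat_lit 1794) (nat_lit 119) (.e (nat_lit 516166) (nat_lit 12) (.e (nat_lit 450587) (nat_lit 10) (.e (nat_lit 573477) (nat_lit 12) (.e (nat_lit 57574) (nat_lit 55) (.e (nat_lit 778465) (nat_lit 11) (.e (nat_lit 24581) (nat_lit 0) .nil))))))) (.g (nat_lit 5) .nil .nil)))))))) 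
(.nd (nat_lit 2) (.nd (nat_lit 3) (.nd (nat_lit 4) (.nd (nat_lit 5) (.nd (nat_lit 6) 
(.lf (nat_lit 75523) (.g (nat_lit 2755) (.e (nat_lit 1792) (nat_lit 119) (.e (nat_lit 516116) (nat_lit 1) (.e (nat_lit 164403) (nat_lit 256) (.e (nat_lit 57373) (nat_lit 2) (.e (nat_lit 90174) (nat_lit 14) .nil))))) .nil)) 
(.lf (nat_lit 75587) (.g (nat_lit 4771) (.e (nat_lit 1793) (nat_lit 119) (.e (nat_lit 516166) (nat_lit 12) (.e (nat_lit 450588) (nat_lit 10) (.e (nat_lit 573469) (nat_lit 11) .nil)))) .nil))) (.nd (nat_lit 6) 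
(.lf (nat_lit 75555) (.g (nat_lit 3625) (.e (nat_lit 1792) (nat_lit 119) (.e (nat_lit 516166) (nat_lit 12) (.e (nat_lit 450587) (nat_lit 10) (.e (nat_lit 573477) (nat_lit 12) (.e (nat_lit 57574) (nat_lit 55) .nil))))) .nil)) 
(.lf (nat_lit 75619) (.g (nat_lit 4920) (.e (nat_lit 1794) (nat_lit 119) (.e (nat_lit 516151) (nat_lit 9) (.e (nat_lit 426211) (nat_lit 9) (.e (nat_lit 426125) (nat_lit 2) (.e (nat_lit 196626) (nat_lit 9) .nil))))) .nil)))) (.nd (nat_lit 5) (.nd (nat_lit 6) 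
(.lf (nat_lit 75539) (.g (nat_lit 887) (.e (nat_lit 1792) (nat_lit 119) (.e (nat_lit 516151) (nat_lit 9) (.e (nat_lit 426285) (nat_lit 10) .nil))) .nil)) 
(.lf (nat_lit 75603) (.g (nat_lit 2518) (.e (nat_lit 1794) (nat_lit 119) (.e (nat_lit 516115) (nat_lit 1) (.e (nat_lit 164399) (nat_lit 256) (.e (nat_lit 57373) (nat_lit 2) (.e (nat_lit 90172) (nat_lit 14) (.e (nat_lit 180244) (nat_lit 5) (.e (nat_lit 532513) (nat_lit 3) (.e (nat_lit 114700) (nat_lit 20) .nil)))))))) (.g (nat_lit 4) .nil .nil)))) (.nd (nat_lit 6) 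
(.lf (nat_lit 75571) (.g (nat_lit 5447) (.e (nat_lit 1793) (nat_lit 119) (.e (nat_lit 516151) (nat_lit 9) (.e (nat_lit 426211) (nat_lit 9) (.e (nat_lit 426125) (nat_lit 2) (.e (nat_lit 196626) (nat_lit 9) .nil))))) .nil)) 
(.lf (nat_lit 75635) (.g (nat_lit 3430) (.e (nat_lit 1794) (nat_lit 119) (.e (nat_lit 516166) (nat_lit 12) (.e (nat_lit 450587) (nat_lit 10) (.e (nat_lit 573457) (nat_lit 9) .nil)))) .nil))))) (.nd (nat_lit 4) (.nd (nat_lit 5) (.nd (nat_lit 6) 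
(.lf (nat_lit 75531) (.g (nat_lit 4308) (.e (nat_lit 1792) (nat_lit 119) (.e (nat_lit 516151) (nat_lit 9) (.e (nat_lit 426170) (nat_lit 7) (.e (nat_lit 409631) (nat_lit 12) (.e (nat_lit 32807) (nat_lit 18) (.e (nat_lit 172124) (nat_lit 14) (.e (nat_lit 491524) (nat_lit 0) .nil))))))) (.g (nat_lit 0) .nil .nil))) 
(.lf (nat_lit 75595) (.g (nat_lit 2430) (.e (nat_lit 1794) (nat_lit 119) (.e (nat_lit 516115) (nat_lit 1) (.e (nat_lit 164399) (nat_lit 256) (.e (nat_lit 57372) (nat_lit 2) (.e (nat_lit 90172) (nat_lit 14) (.e (nat_lit 180243) (nat_lit 5) (.e (nat_lit 532513) (nat_lit 3) (.e (nat_lit 114700) (nat_lit 20) .nil)))))))) (.g (nat_lit 4) .nil .nil)))) (.nd (nat_lit 6) 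
(.lf (nat_lit 75563) (.g (nat_lit 3533) (.e (nat_lit 1792) (nat_lit 119) (.e (nat_lit 516166) (nat_lit 12) (.e (nat_lit 450588) (nat_lit 10) (.e (nat_lit 573475) (nat_lit 12) .nil)))) .nil)) 
(.lf (nat_lit 75627) (.g (nat_lit 4445) (.e (nat_lit 1794) (nat_lit 119) (.e (nat_lit 516151) (nat_lit 9) (.e (nat_lit 426285) (nat_lit 10) (.e (nat_lit 434238) (nat_lit 25) (.e (nat_lit 548913) (nat_lit 18) (.e (nat_lit 172125) (nat_lit 14) (.e (nat_lit 491524) (nat_lit 0) .nil))))))) (.g (nat_lit 5) .nil .nil))))) (.nd (nat_lit 5) (.nd (nat_lit 6) 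
(.lf (nat_lit 75547) (.g (nat_lit 2388) (.e (nat_lit 1792) (nat_lit 119) (.e (nat_lit 516151) (nat_lit 9) (.e (nat_lit 426331) (nat_lit 13) (.e (nat_lit 483363) (nat_lit 18) (.e (nat_lit 57688) (nat_lit 156) .nil))))) .nil)) 
(.lf (nat_lit 75611) (.g (nat_lit 2226) (.e (nat_lit 1794) (nat_lit 119) (.e (nat_lit 516115) (nat_lit 1) (.e (nat_lit 164399) (nat_lit 256) (.e (nat_lit 57375) (nat_lit 2) (.e (nat_lit 90172) (nat_lit 14) (.e (nat_lit 180244) (nat_lit 5) (.e (nat_lit 532513) (nat_lit 3) (.e (nat_lit 114700) (nat_lit 20) .nil)))))))) (.g (nat_lit 4) .nil .nil)))) (.nd (nat_lit 6) 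
(.lf (nat_lit 75579) (.g (nat_lit 1008) (.e (nat_lit 1793) (nat_lit 119) (.e (nat_lit 516166) (nat_lit 12) (.e (nat_lit 450587) (nat_lit 10) .nil))) .nil)) 
(.lf (nat_lit 75643) (.g (nat_lit 5227) (.e (nat_lit 1794) (nat_lit 119) (.e (nat_lit 516166) (nat_lit 12) (.e (nat_lit 450587) (nat_lit 10) (.e (nat_lit 573477) (nat_lit 12) (.e (nat_lit 57574) (nat_lit 55) (.e (nat_lit 778465) (nat_lit 11) (.e (nat_lit 24576) (nat_lit 0) .nil))))))) (.g (nat_lit 5) .nil .nil))))))) (.nd (nat_lit 3) (.nd (nat_lit 4) (.nd (nat_lit 5) (.nd (nat_lit 6) 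
(.lf (nat_lit 75527) (.g (nat_lit 1674) (.e (nat_lit 1792) (nat_lit 119) (.e (nat_lit 516130) (nat_lit 3) (.e (nat_lit 221194) (nat_lit 11) (.e (nat_lit 336021) (nat_lit 3) (.e (nat_lit 98365) (nat_lit 26) .nil))))) .nil)) 
(.lf (nat_lit 75591) (.g (nat_lit 4282) (.e (nat_lit 1793) (nat_lit 119) (.e (nat_lit 516166) (nat_lit 12) (.e (nat_lit 450588) (nat_lit 10) (.e (nat_lit 573475) (nat_lit 12) .nil)))) .nil))) (.nd (nat_lit 6) 
(.lf (nat_lit 75559) (.g (nat_lit 3777) (.e (nat_lit 1792) (nat_lit 119) (.e (nat_lit 516166) (nat_lit 12) (.e (nat_lit 450588) (nat_lit 10) (.e (nat_lit 573470) (nat_lit 11) .nil)))) .nil)) 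
(.lf (nat_lit 75623) (.g (nat_lit 2433) (.e (nat_lit 1794) (nat_lit 119) (.e (nat_lit 516151) (nat_lit 9) (.e (nat_lit 426211) (nat_lit 9) (.e (nat_lit 426140) (nat_lit 3) .nil)))) .nil)))) (.nd (nat_lit 5) (.nd (nat_lit 6) 
(.lf (nat_lit 75543) (.g (nat_lit 4063) (.e (nat_lit 1792) (nat_lit 119) (.e (nat_lit 516151) (nat_lit 9) (.e (nat_lit 426286) (nat_lit 10) (.e (nat_lit 434245) (nat_lit 28) .nil)))) .nil)) 
(.lf (nat_lit 75607) (.g (nat_lit 2630) (.e (nat_lit 1794) (nat_lit 119) (.e (nat_lit 516115) (nat_lit 1) (.e (nat_lit 164399) (nat_lit 256) (.e (nat_lit 57373) (nat_lit 2) (.e (nat_lit 90174) (nat_lit 14) (.e (nat_lit 180243) (nat_lit 5) (.e (nat_lit 532513) (nat_lit 3) (.e (nat_lit 114701) (nat_lit 20) .nil)))))))) (.g (nat_lit 4) .nil .nil)))) (.nd (nat_lit 6) 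
(.lf (nat_lit 75575) (.g (nat_lit 2152) (.e (nat_lit 1793) (nat_lit 119) (.e (nat_lit 516151) (nat_lit 9) (.e (nat_lit 426286) (nat_lit 10) .nil))) .nil)) 
(.lf (nat_lit 75639) (.g (nat_lit 4476) (.e (nat_lit 1794) (nat_lit 119) (.e (nat_lit 516166) (nat_lit 12) (.e (nat_lit 450587) (nat_lit 10) (.e (nat_lit 573477) (nat_lit 12) (.e (nat_lit 57574) (nat_lit 55) (.e (nat_lit 778463) (nat_lit 11) (.e (nat_lit 24582) (nat_lit 0) .nil))))))) (.g (nat_lit 4) .nil .nil)))))) (.nd (nat_lit 4) (.nd (nat_lit 5) (.nd (nat_lit 6) 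
(.lf (nat_lit 75535) (.g (nat_lit 4850) (.e (nat_lit 1792) (nat_lit 119) (.e (nat_lit 516151) (nat_lit 9) (.e (nat_lit 426211) (nat_lit 9) (.e (nat_lit 426125) (nat_lit 2) (.e (nat_lit 196626) (nat_lit 9) .nil))))) .nil)) 
(.lf (nat_lit 75599) (.g (nat_lit 2377) (.e (nat_lit 1794) (nat_lit 119) (.e (nat_lit 516115) (nat_lit 1) (.e (nat_lit 164399) (nat_lit 256) (.e (nat_lit 57372) (nat_lit 2) (.e (nat_lit 90174) (nat_lit 14) (.e (nat_lit 180243) (nat_lit 5) (.e (nat_lit 532513) (nat_lit 3) (.e (nat_lit 114700) (nat_lit 20) .nil)))))))) (.g (nat_lit 4) .nil .nil)))) (.nd (nat_lit 6) 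
(.lf (nat_lit 75567) (.g (nat_lit 4293) (.e (nat_lit 1792) (nat_lit 119) (.e (nat_lit 516166) (nat_lit 12) (.e (nat_lit 450588) (nat_lit 10) (.e (nat_lit 573475) (nat_lit 12) (.e (nat_lit 57574) (nat_lit 55) (.e (nat_lit 778465) (nat_lit 11) (.e (nat_lit 24587) (nat_lit 0) .nil))))))) (.g (nat_lit 4) .nil .nil))) 
(.lf (nat_lit 75631) (.g (nat_lit 2509) (.e (nat_lit 1794) (nat_lit 119) (.e (nat_lit 516151) (nat_lit 9) (.e (nat_lit 426338) (nat_lit 14) (.e (nat_lit 491537) (nat_lit 2) .nil)))) .nil)))) (.nd (nat_lit 5) (.nd (nat_lit 6) 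
(.lf (nat_lit 75551) (.g (nat_lit 4024) (.e (nat_lit 1792) (nat_lit 119) (.e (nat_lit 516166) (nat_lit 12) (.e (nat_lit 450587) (nat_lit 10) (.e (nat_lit 573454) (nat_lit 9) .nil)))) .nil)) 
(.lf (nat_lit 75615) (.g (nat_lit 2215) (.e (nat_lit 1794) (nat_lit 119) (.e (nat_lit 516115) (nat_lit 1) (.e (nat_lit 164399) (nat_lit 256) (.e (nat_lit 57378) (nat_lit 3) (.e (nat_lit 98377) (nat_lit 30) .nil))))) .nil))) (.nd (nat_lit 6) 
(.lf (nat_lit 75583) (.g (nat_lit 4588) (.e (nat_lit 1793) (nat_lit 119) (.e (nat_lit 516166) (nat_lit 12) (.e (nat_lit 450587) (nat_lit 10) (.e (nat_lit 573478) (nat_lit 12) (.e (nat_lit 57574) (nat_lit 55) (.e (nat_lit 778466) (nat_lit 11) (.e (nat_lit 24576) (nat_lit 0) .nil))))))) (.g (nat_lit 5) .nil .nil))) 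
(.lf (nat_lit 75647) (.g (nat_lit 5682) (.e (nat_lit 1794) (nat_lit 119) (.e (nat_lit 516166) (nat_lit 12) (.e (nat_lit 450587) (nat_lit 10) (.e (nat_lit 573477) (nat_lit 12) (.e (nat_lit 57574) (nat_lit 55) (.e (nat_lit 778466) (nat_lit 11) (.e (nat_lit 24576) (nat_lit 0) .nil))))))) (.g (nat_lit 6) .nil .nil))))))))))

noncomputable def tv1023 : DT := (.nd (nat_lit 0) (.nd (nat_lit 1) (.nd (nat_lit 2) (.nd (nat_lit 3) (.nd (nat_lit 4) (.nd (nat_lit 5) 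
(.lf (nat_lit 75648) (.g (nat_lit 4799) (.e (nat_lit 1794) (nat_lit 119) (.e (nat_lit 516166) (nat_lit 12) (.e (nat_lit 450587) (nat_lit 10) (.e (nat_lit 573477) (nat_lit 12) (.e (nat_lit 57575) (nat_lit 55) (.e (nat_lit 778463) (nat_lit 11) (.e (nat_lit 24577) (nat_lit 0) .nil))))))) (.g (nat_lit 4) .nil .nil))) 
(.lf (nat_lit 75680) (.g (nat_lit 4963) (.e (nat_lit 1794) (nat_lit 119) (.e (nat_lit 516166) (nat_lit 12) (.e (nat_lit 450588) (nat_lit 10) (.e (nat_lit 573475) (nat_lit 12) (.e (nat_lit 57574) (nat_lit 55) (.e (nat_lit 778465) (nat_lit 11) (.e (nat_lit 24576) (nat_lit 0) .nil))))))) (.g (nat_lit 5) .nil .nil)))) (.nd (nat_lit 5) 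
(.lf (nat_lit 75664) (.g (nat_lit 4827) (.e (nat_lit 1794) (nat_lit 119) (.e (nat_lit 516166) (nat_lit 12) (.e (nat_lit 450587) (nat_lit 10) (.e (nat_lit 573478) (nat_lit 12) (.e (nat_lit 57574) (nat_lit 55) (.e (nat_lit 778465) (nat_lit 11) (.e (nat_lit 24582) (nat_lit 0) .nil))))))) (.g (nat_lit 5) .nil .nil))) 
(.lf (nat_lit 75696) (.g (nat_lit 1426) (.e (nat_lit 1795) (nat_lit 119) (.e (nat_lit 516119) (nat_lit 1) (.e (nat_lit 164179) (nat_lit 154) (.e (nat_lit 57446) (nat_lit 19) .nil)))) .nil)))) (.nd (nat_lit 4) (.nd (nat_lit 5) 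
(.lf (nat_lit 75656) (.g (nat_lit 3540) (.e (nat_lit 1794) (nat_lit 119) (.e (nat_lit 516166) (nat_lit 12) (.e (nat_lit 450587) (nat_lit 10) (.e (nat_lit 573478) (nat_lit 12) .nil)))) .nil)) 
(.lf (nat_lit 75688) (.g (nat_lit 1771) (.e (nat_lit 1795) (nat_lit 119) (.e (nat_lit 516117) (nat_lit 1) (.e (nat_lit 164329) (nat_lit 230) (.e (nat_lit 163902) (nat_lit 12) (.e (nat_lit 426568) (nat_lit 34) .nil))))) .nil))) (.nd (nat_lit 5) 
(.lf (nat_lit 75672) (.g (nat_lit 4037) (.e (nat_lit 1794) (nat_lit 119) (.e (nat_lit 516166) (nat_lit 12) (.e (nat_lit 450588) (nat_lit 10) (.e (nat_lit 573473) (nat_lit 12) .nil)))) .nil)) 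
(.lf (nat_lit 75704) (.g (nat_lit 2758) (.e (nat_lit 1795) (nat_lit 119) (.e (nat_lit 516119) (nat_lit 1) (.e (nat_lit 164396) (nat_lit 256) (.e (nat_lit 57371) (nat_lit 2) (.e (nat_lit 90172) (nat_lit 14) (.e (nat_lit 180244) (nat_lit 5) (.e (nat_lit 532515) (nat_lit 3) (.e (nat_lit 114701) (nat_lit 20) .nil)))))))) (.g (nat_lit 5) .nil .nil)))))) 
(.nd (nat_lit 3) (.nd (nat_lit 4) (.nd (nat_lit 5) 
(.lf (nat_lit 75652) (.g (nat_lit 4549) (.e (nat_lit 1794) (nat_lit 119) (.e (nat_lit 516166) (nat_lit 12) (.e (nat_lit 450587) (nat_lit 10) (.e (nat_lit 573477) (nat_lit 12) (.e (nat_lit 57575) (nat_lit 55) (.e (nat_lit 778465) (nat_lit 11) (.e (nat_lit 24581) (nat_lit 0) .nil))))))) (.g (nat_lit 4) .nil .nil))) 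
(.lf (nat_lit 75684) (.g (nat_lit 5404) (.e (nat_lit 1794) (nat_lit 119) (.e (nat_lit 516166) (nat_lit 12) (.e (nat_lit 450588) (nat_lit 10) (.e (nat_lit 573475) (nat_lit 12) (.e (nat_lit 57574) (nat_lit 55) (.e (nat_lit 778466) (nat_lit 11) (.e (nat_lit 24576) (nat_lit 0) .nil))))))) (.g (nat_lit 5) .nil .nil)))) (.nd (nat_lit 5) 
(.lf (nat_lit 75668) (.g (nat_lit 4261) (.e (nat_lit 1794) (nat_lit 119) (.e (nat_lit 516166) (nat_lit 12) (.e (nat_lit 450588) (nat_lit 10) (.e (nat_lit 573452) (nat_lit 9) .nil)))) .nil)) 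
(.lf (nat_lit 75700) (.g (nat_lit 1875) (.e (nat_lit 1795) (nat_lit 119) (.e (nat_lit 516119) (nat_lit 1) (.e (nat_lit 164325) (nat_lit 230) (.e (nat_lit 163941) (nat_lit 19) (.e (nat_lit 483341) (nat_lit 9) .nil))))) .nil)))) (.nd (nat_lit 4) (.nd (nat_lit 5) 
(.lf (nat_lit 75660) (.g (nat_lit 4574) (.e (nat_lit 1794) (nat_lit 119) (.e (nat_lit 516166) (nat_lit 12) (.e (nat_lit 450587) (nat_lit 10) (.e (nat_lit 573478) (nat_lit 12) (.e (nat_lit 57574) (nat_lit 55) (.e (nat_lit 778464) (nat_lit 11) (.e (nat_lit 24581) (nat_lit 0) .nil))))))) (.g (nat_lit 4) .nil .nil))) 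
(.lf (nat_lit 75692) (.g (nat_lit 1586) (.e (nat_lit 1795) (nat_lit 119) (.e (nat_lit 516117) (nat_lit 1) (.e (nat_lit 164329) (nat_lit 230) (.e (nat_lit 163942) (nat_lit 19) (.e (nat_lit 483341) (nat_lit 9) (.e (nat_lit 426200) (nat_lit 9) (.e (nat_lit 426354) (nat_lit 15) .nil))))))) (.g (nat_lit 4) .nil .nil)))) (.nd (nat_lit 5) 
(.lf (nat_lit 75676) (.g (nat_lit 4267) (.e (nat_lit 1794) (nat_lit 119) (.e (nat_lit 516166) (nat_lit 12) (.e (nat_lit 450588) (nat_lit 10) (.e (nat_lit 573475) (nat_lit 12) (.e (nat_lit 57574) (nat_lit 55) (.e (nat_lit 778463) (nat_lit 11) (.e (nat_lit 24582) (nat_lit 0) .nil))))))) (.g (nat_lit 4) .nil .nil))) 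
(.lf (nat_lit 75708) (.g (nat_lit 2273) (.e (nat_lit 1795) (nat_lit 119) (.e (nat_lit 516119) (nat_lit 1) (.e (nat_lit 164396) (nat_lit 256) (.e (nat_lit 57375) (nat_lit 2) (.e (nat_lit 90174) (nat_lit 14) (.e (nat_lit 180243) (nat_lit 5) (.e (nat_lit 532513) (nat_lit 3) (.e (nat_lit 114700) (nat_lit 20) .nil)))))))) (.g (nat_lit 4) .nil .nil))))))) 
(.nd (nat_lit 2) (.nd (nat_lit 3) (.nd (nat_lit 4) (.nd (nat_lit 5) 
(.lf (nat_lit 75650) (.g (nat_lit 4635) (.e (nat_lit 1794) (nat_lit 119) (.e (nat_lit 516166) (nat_lit 12) (.e (nat_lit 450587) (nat_lit 10) (.e (nat_lit 573477) (nat_lit 12) (.e (nat_lit 57575) (nat_lit 55) (.e (nat_lit 778465) (nat_lit 11) (.e (nat_lit 24576) (nat_lit 0) .nil))))))) (.g (nat_lit 4) .nil .nil))) 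
(.lf (nat_lit 75682) (.g (nat_lit 4845) (.e (nat_lit 1794) (nat_lit 119) (.e (nat_lit 516166) (nat_lit 12) (.e (nat_lit 450588) (nat_lit 10) (.e (nat_lit 573475) (nat_lit 12) (.e (nat_lit 57574) (nat_lit 55) (.e (nat_lit 778465) (nat_lit 11) (.e (nat_lit 24581) (nat_lit 0) .nil))))))) (.g (nat_lit 4) .nil .nil)))) (.nd (nat_lit 5) 
(.lf (nat_lit 75666) (.g (nat_lit 5288) (.e (nat_lit 1794) (nat_lit 119) (.e (nat_lit 516166) (nat_lit 12) (.e (nat_lit 450587) (nat_lit 10) (.e (nat_lit 573478) (nat_lit 12) (.e (nat_lit 57574) (nat_lit 55) (.e (nat_lit 778466) (nat_lit 11) (.e (nat_lit 24576) (nat_lit 0) .nil))))))) (.g (nat_lit 6) .nil .nil))) 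
(.lf (nat_lit 75698) (.g (nat_lit 1414) (.e (nat_lit 1795) (nat_lit 119) (.e (nat_lit 516119) (nat_lit 1) (.e (nat_lit 164322) (nat_lit 230) (.e (nat_lit 163904) (nat_lit 12) .nil)))) .nil)))) (.nd (nat_lit 4) (.nd (nat_lit 5) 
(.lf (nat_lit 75658) (.g (nat_lit 4172) (.e (nat_lit 1794) (nat_lit 119) (.e (nat_lit 516166) (nat_lit 12) (.e (nat_lit 450587) (nat_lit 10) (.e (nat_lit 573478) (nat_lit 12) (.e (nat_lit 57574) (nat_lit 55) (.e (nat_lit 778463) (nat_lit 11) (.e (nat_lit 24582) (nat_lit 0) .nil))))))) (.g (nat_lit 4) .nil .nil))) 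
(.lf (nat_lit 75690) (.g (nat_lit 2463) (.e (nat_lit 1795) (nat_lit 119) (.e (nat_lit 516117) (nat_lit 1) (.e (nat_lit 164329) (nat_lit 230) (.e (nat_lit 163902) (nat_lit 12) (.e (nat_lit 426568) (nat_lit 34) (.e (nat_lit 393279) (nat_lit 23) (.e (nat_lit 426353) (nat_lit 15) .nil))))))) (.g (nat_lit 5) .nil .nil)))) (.nd (nat_lit 5) 
(.lf (nat_lit 75674) (.g (nat_lit 3536) (.e (nat_lit 1794) (nat_lit 119) (.e (nat_lit 516166) (nat_lit 12) (.e (nat_lit 450588) (nat_lit 10) (.e (nat_lit 573475) (nat_lit 12) .nil)))) .nil)) 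
(.lf (nat_lit 75706) (.g (nat_lit 2169) (.e (nat_lit 1795) (nat_lit 119) (.e (nat_lit 516119) (nat_lit 1) (.e (nat_lit 164396) (nat_lit 256) (.e (nat_lit 57375) (nat_lit 2) (.e (nat_lit 90172) (nat_lit 14) (.e (nat_lit 180244) (nat_lit 5) (.e (nat_lit 532513) (nat_lit 3) (.e (nat_lit 114700) (nat_lit 20) .nil)))))))) (.g (nat_lit 4) .nil .nil)))))) 
(.nd (nat_lit 3) (.nd (nat_lit 4) (.nd (nat_lit 5) 
(.lf (nat_lit 75654) (.g (nat_lit 4700) (.e (nat_lit 1794) (nat_lit 119) (.e (nat_lit 516166) (nat_lit 12) (.e (nat_lit 450587) (nat_lit 10) (.e (nat_lit 573477) (nat_lit 12) (.e (nat_lit 57575) (nat_lit 55) (.e (nat_lit 778466) (nat_lit 11) (.e (nat_lit 24577) (nat_lit 0) .nil))))))) (.g (nat_lit 4) .nil .nil))) 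
(.lf (nat_lit 75686) (.g (nat_lit 4782) (.e (nat_lit 1794) (nat_lit 119) (.e (nat_lit 516166) (nat_lit 12) (.e (nat_lit 450588) (nat_lit 10) (.e (nat_lit 573475) (nat_lit 12) (.e (nat_lit 57574) (nat_lit 55) (.e (nat_lit 778466) (nat_lit 11) (.e (nat_lit 24581) (nat_lit 0) .nil))))))) (.g (nat_lit 4) .nil .nil)))) (.nd (nat_lit 5) 
(.lf (nat_lit 75670) (.g (nat_lit 4276) (.e (nat_lit 1794) (nat_lit 119) (.e (nat_lit 516166) (nat_lit 12) (.e (nat_lit 450588) (nat_lit 10) (.e (nat_lit 573470) (nat_lit 11) .nil)))) .nil)) 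
(.lf (nat_lit 75702) (.g (nat_lit 1487) (.e (nat_lit 1795) (nat_lit 119) (.e (nat_lit 516119) (nat_lit 1) (.e (nat_lit 164326) (nat_lit 230) (.e (nat_lit 163903) (nat_lit 12) (.e (nat_lit 426568) (nat_lit 34) .nil))))) .nil)))) (.nd (nat_lit 4) (.nd (nat_lit 5) 
(.lf (nat_lit 75662) (.g (nat_lit 4714) (.e (nat_lit 1794) (nat_lit 119) (.e (nat_lit 516166) (nat_lit 12) (.e (nat_lit 450587) (nat_lit 10) (.e (nat_lit 573478) (nat_lit 12) (.e (nat_lit 57574) (nat_lit 55) (.e (nat_lit 778465) (nat_lit 11) (.e (nat_lit 24577) (nat_lit 0) .nil))))))) (.g (nat_lit 5) .nil .nil))) 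
(.lf (nat_lit 75694) (.g (nat_lit 2682) (.e (nat_lit 1795) (nat_lit 119) (.e (nat_lit 516117) (nat_lit 1) (.e (nat_lit 164399) (nat_lit 256) (.e (nat_lit 57373) (nat_lit 2) (.e (nat_lit 90174) (nat_lit 14) (.e (nat_lit 180243) (nat_lit 5) (.e (nat_lit 532513) (nat_lit 3) (.e (nat_lit 114700) (nat_lit 20) .nil)))))))) (.g (nat_lit 4) .nil .nil)))) (.nd (nat_lit 5) 
(.lf (nat_lit 75678) (.g (nat_lit 4587) (.e (nat_lit 1794) (nat_lit 119) (.e (nat_lit 516166) (nat_lit 12) (.e (nat_lit 450588) (nat_lit 10) (.e (nat_lit 573475) (nat_lit 12) (.e (nat_lit 57574) (nat_lit 55) (.e (nat_lit 778464) (nat_lit 11) (.e (nat_lit 24581) (nat_lit 0) .nil))))))) (.g (nat_lit 4) .nil .nil))) 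
(.lf (nat_lit 75710) (.g (nat_lit 1947) (.e (nat_lit 1795) (nat_lit 119) (.e (nat_lit 516119) (nat_lit 1) (.e (nat_lit 164401) (nat_lit 256) (.e (nat_lit 57373) (nat_lit 2) (.e (nat_lit 90174) (nat_lit 14) (.e (nat_lit 180243) (nat_lit 5) (.e (nat_lit 532515) (nat_lit 3) (.e (nat_lit 114700) (nat_lit 20) .nil)))))))) (.g (nat_lit 4) .nil .nil)))))))) 
(.nd (nat_lit 1) (.nd (nat_lit 2) (.nd (nat_lit 3) (.nd (nat_lit 4) (.nd (nat_lit 5) 
(.lf (nat_lit 75649) (.g (nat_lit 4933) (.e (nat_lit 1794) (nat_lit 119) (.e (nat_lit 516166) (nat_lit 12) (.e (nat_lit 450587) (nat_lit 10) (.e (nat_lit 573477) (nat_lit 12) (.e (nat_lit 57575) (nat_lit 55) (.e (nat_lit 778463) (nat_lit 11) (.e (nat_lit 24581) (nat_lit 0) .nil))))))) (.g (nat_lit 4) .nil .nil))) 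
(.lf (nat_lit 75681) (.g (nat_lit 4829) (.e (nat_lit 1794) (nat_lit 119) (.e (nat_lit 516166) (nat_lit 12) (.e (nat_lit 450588) (nat_lit 10) (.e (nat_lit 573475) (nat_lit 12) (.e (nat_lit 57574) (nat_lit 55) (.e (nat_lit 778465) (nat_lit 11) (.e (nat_lit 24577) (nat_lit 0) .nil))))))) (.g (nat_lit 4) .nil .nil)))) (.nd (nat_lit 5) 
(.lf (nat_lit 75665) (.g (nat_lit 4371) (.e (nat_lit 1794) (nat_lit 119) (.e (nat_lit 516166) (nat_lit 12) (.e (nat_lit 450587) (nat_lit 10) (.e (nat_lit 573478) (nat_lit 12) (.e (nat_lit 57574) (nat_lit 55) (.e (nat_lit 778465) (nat_lit 11) (.e (nat_lit 24583) (nat_lit 0) .nil))))))) (.g (nat_lit 4) .nil .nil))) 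
(.lf (nat_lit 75697) (.g (nat_lit 2227) (.e (nat_lit 1795) (nat_lit 119) (.e (nat_lit 516119) (nat_lit 1) (.e (nat_lit 164179) (nat_lit 154) (.e (nat_lit 57447) (nat_lit 19) (.e (nat_lit 401152) (nat_lit 11) .nil))))) .nil)))) (.nd (nat_lit 4) (.nd (nat_lit 5) 
(.lf (nat_lit 75657) (.g (nat_lit 4010) (.e (nat_lit 1794) (nat_lit 119) (.e (nat_lit 516166) (nat_lit 12) (.e (nat_lit 450587) (nat_lit 10) (.e (nat_lit 573478) (nat_lit 12) (.e (nat_lit 57574) (nat_lit 55) .nil))))) .nil)) 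
(.lf (nat_lit 75689) (.g (nat_lit 3235) (.e (nat_lit 1795) (nat_lit 119) (.e (nat_lit 516117) (nat_lit 1) (.e (nat_lit 164329) (nat_lit 230) (.e (nat_lit 163902) (nat_lit 12) (.e (nat_lit 426568) (nat_lit 34) (.e (nat_lit 393271) (nat_lit 23) (.e (nat_lit 426354) (nat_lit 15) .nil))))))) (.g (nat_lit 6) .nil .nil)))) (.nd (nat_lit 5) 
(.lf (nat_lit 75673) (.g (nat_lit 7260) (.e (nat_lit 1794) (nat_lit 119) (.e (nat_lit 516166) (nat_lit 12) (.e (nat_lit 450588) (nat_lit 10) (.e (nat_lit 573474) (nat_lit 12) .nil)))) .nil)) 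
(.lf (nat_lit 75705) (.g (nat_lit 2869) (.e (nat_lit 1795) (nat_lit 119) (.e (nat_lit 516119) (nat_lit 1) (.e (nat_lit 164396) (nat_lit 256) (.e (nat_lit 57371) (nat_lit 2) (.e (nat_lit 90172) (nat_lit 14) (.e (nat_lit 180244) (nat_lit 5) (.e (nat_lit 532515) (nat_lit 3) (.e (nat_lit 114702) (nat_lit 20) .nil)))))))) (.g (nat_lit 5) .nil .nil)))))) 
(.nd (nat_lit 3) (.nd (nat_lit 4) (.nd (nat_lit 5) 
(.lf (nat_lit 75653) (.g (nat_lit 5000) (.e (nat_lit 1794) (nat_lit 119) (.e (nat_lit 516166) (nat_lit 12) (.e (nat_lit 450587) (nat_lit 10) (.e (nat_lit 573477) (nat_lit 12) (.e (nat_lit 57575) (nat_lit 55) (.e (nat_lit 778466) (nat_lit 11) (.e (nat_lit 24576) (nat_lit 0) .nil))))))) (.g (nat_lit 4) .nil .nil))) 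
(.lf (nat_lit 75685) (.g (nat_lit 5415) (.e (nat_lit 1794) (nat_lit 119) (.e (nat_lit 516166) (nat_lit 12) (.e (nat_lit 450588) (nat_lit 10) (.e (nat_lit 573475) (nat_lit 12) (.e (nat_lit 57574) (nat_lit 55) (.e (nat_lit 778466) (nat_lit 11) (.e (nat_lit 24577) (nat_lit 0) .nil))))))) (.g (nat_lit 5) .nil .nil)))) (.nd (nat_lit 5) 
(.lf (nat_lit 75669) (.g (nat_lit 3997) (.e (nat_lit 1794) (nat_lit 119) (.e (nat_lit 516166) (nat_lit 12) (.e (nat_lit 450588) (nat_lit 10) (.e (nat_lit 573469) (nat_lit 11) .nil)))) .nil)) 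
(.lf (nat_lit 75701) (.g (nat_lit 514) (.e (nat_lit 1795) (nat_lit 119) (.e (nat_lit 516119) (nat_lit 1) (.e (nat_lit 164326) (nat_lit 230) .nil))) .nil)))) (.nd (nat_lit 4) (.nd (nat_lit 5) 
(.lf (nat_lit 75661) (.g (nat_lit 4852) (.e (nat_lit 1794) (nat_lit 119) (.e (nat_lit 516166) (nat_lit 12) (.e (nat_lit 450587) (nat_lit 10) (.e (nat_lit 573478) (nat_lit 12) (.e (nat_lit 57574) (nat_lit 55) (.e (nat_lit 778465) (nat_lit 11) (.e (nat_lit 24576) (nat_lit 0) .nil))))))) (.g (nat_lit 5) .nil .nil))) 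
(.lf (nat_lit 75693) (.g (nat_lit 2619) (.e (nat_lit 1795) (nat_lit 119) (.e (nat_lit 516117) (nat_lit 1) (.e (nat_lit 164398) (nat_lit 256) (.e (nat_lit 57373) (nat_lit 2) (.e (nat_lit 90174) (nat_lit 14) (.e (nat_lit 180243) (nat_lit 5) (.e (nat_lit 532513) (nat_lit 3) (.e (nat_lit 114700) (nat_lit 20) .nil)))))))) (.g (nat_lit 4) .nil .nil)))) (.nd (nat_lit 5) 
(.lf (nat_lit 75677) (.g (nat_lit 4697) (.e (nat_lit 1794) (nat_lit 119) (.e (nat_lit 516166) (nat_lit 12) (.e (nat_lit 450588) (nat_lit 10) (.e (nat_lit 573475) (nat_lit 12) (.e (nat_lit 57574) (nat_lit 55) (.e (nat_lit 778464) (nat_lit 11) (.e (nat_lit 24577) (nat_lit 0) .nil))))))) (.g (nat_lit 4) .nil .nil))) 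
(.lf (nat_lit 75709) (.g (nat_lit 1973) (.e (nat_lit 1795) (nat_lit 119) (.e (nat_lit 516119) (nat_lit 1) (.e (nat_lit 164401) (nat_lit 256) (.e (nat_lit 57373) (nat_lit 2) (.e (nat_lit 90174) (nat_lit 14) (.e (nat_lit 180243) (nat_lit 5) (.e (nat_lit 532513) (nat_lit 3) (.e (nat_lit 114702) (nat_lit 20) .nil)))))))) (.g (nat_lit 4) .nil .nil))))))) 
(.nd (nat_lit 2) (.nd (nat_lit 3) (.nd (nat_lit 4) (.nd (nat_lit 5) 
(.lf (nat_lit 75651) (.g (nat_lit 4662) (.e (nat_lit 1794) (nat_lit 119) (.e (nat_lit 516166) (nat_lit 12) (.e (nat_lit 450587) (nat_lit 10) (.e (nat_lit 573477) (nat_lit 12) (.e (nat_lit 57575) (nat_lit 55) (.e (nat_lit 778465) (nat_lit 11) (.e (nat_lit 24577) (nat_lit 0) .nil))))))) (.g (nat_lit 4) .nil .nil))) 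
(.lf (nat_lit 75683) (.g (nat_lit 4678) (.e (nat_lit 1794) (nat_lit 119) (.e (nat_lit 516166) (nat_lit 12) (.e (nat_lit 450588) (nat_lit 10) (.e (nat_lit 573475) (nat_lit 12) (.e (nat_lit 57574) (nat_lit 55) (.e (nat_lit 778465) (nat_lit 11) (.e (nat_lit 24582) (nat_lit 0) .nil))))))) (.g (nat_lit 4) .nil .nil)))) (.nd (nat_lit 5) 
(.lf (nat_lit 75667) (.g (nat_lit 4666) (.e (nat_lit 1794) (nat_lit 119) (.e (nat_lit 516166) (nat_lit 12) (.e (nat_lit 450587) (nat_lit 10) (.e (nat_lit 573478) (nat_lit 12) (.e (nat_lit 57574) (nat_lit 55) (.e (nat_lit 778466) (nat_lit 11) (.e (nat_lit 24581) (nat_lit 0) .nil))))))) (.g (nat_lit 5) .nil .nil))) 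
(.lf (nat_lit 75699) (.g (nat_lit 2090) (.e (nat_lit 1795) (nat_lit 119) (.e (nat_lit 516119) (nat_lit 1) (.e (nat_lit 164325) (nat_lit 230) (.e (nat_lit 163903) (nat_lit 12) (.e (nat_lit 426566) (nat_lit 34) .nil))))) .nil)))) (.nd (nat_lit 4) (.nd (nat_lit 5) 
(.lf (nat_lit 75659) (.g (nat_lit 4735) (.e (nat_lit 1794) (nat_lit 119) (.e (nat_lit 516166) (nat_lit 12) (.e (nat_lit 450587) (nat_lit 10) (.e (nat_lit 573478) (nat_lit 12) (.e (nat_lit 57574) (nat_lit 55) (.e (nat_lit 778464) (nat_lit 11) (.e (nat_lit 24577) (nat_lit 0) .nil))))))) (.g (nat_lit 5) .nil .nil))) 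
(.lf (nat_lit 75691) (.g (nat_lit 1258) (.e (nat_lit 1795) (nat_lit 119) (.e (nat_lit 516117) (nat_lit 1) (.e (nat_lit 164329) (nat_lit 230) (.e (nat_lit 163942) (nat_lit 19) .nil)))) .nil))) (.nd (nat_lit 5) 
(.lf (nat_lit 75675) (.g (nat_lit 4263) (.e (nat_lit 1794) (nat_lit 119) (.e (nat_lit 516166) (nat_lit 12) (.e (nat_lit 450588) (nat_lit 10) (.e (nat_lit 573475) (nat_lit 12) (.e (nat_lit 57574) (nat_lit 55) .nil))))) .nil)) 
(.lf (nat_lit 75707) (.g (nat_lit 2008) (.e (nat_lit 1795) (nat_lit 119) (.e (nat_lit 516119) (nat_lit 1) (.e (nat_lit 164396) (nat_lit 256) (.e (nat_lit 57375) (nat_lit 2) (.e (nat_lit 90172) (nat_lit 14) (.e (nat_lit 180244) (nat_lit 5) (.e (nat_lit 532515) (nat_lit 3) (.e (nat_lit 114702) (nat_lit 20) .nil)))))))) (.g (nat_lit 4) .nil .nil)))))) 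
(.nd (nat_lit 3) (.nd (nat_lit 4) (.nd (nat_lit 5) 
(.lf (nat_lit 75655) (.g (nat_lit 4486) (.e (nat_lit 1794) (nat_lit 119) (.e (nat_lit 516166) (nat_lit 12) (.e (nat_lit 450587) (nat_lit 10) (.e (nat_lit 573477) (nat_lit 12) (.e (nat_lit 57575) (nat_lit 55) (.e (nat_lit 778466) (nat_lit 11) (.e (nat_lit 24581) (nat_lit 0) .nil))))))) (.g (nat_lit 4) .nil .nil))) 
(.lf (nat_lit 75687) (.g (nat_lit 5271) (.e (nat_lit 1794) (nat_lit 119) (.e (nat_lit 516166) (nat_lit 12) (.e (nat_lit 450588) (nat_lit 10) (.e (nat_lit 573475) (nat_lit 12) (.e (nat_lit 57574) (nat_lit 55) (.e (nat_lit 778466) (nat_lit 11) (.e (nat_lit 24582) (nat_lit 0) .nil))))))) (.g (nat_lit 5) .nil .nil)))) (.nd (nat_lit 5) 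
(.lf (nat_lit 75671) (.g (nat_lit 5188) (.e (nat_lit 1794) (nat_lit 119) (.e (nat_lit 516166) (nat_lit 12) (.e (nat_lit 450588) (nat_lit 10) (.e (nat_lit 573471) (nat_lit 11) .nil)))) .nil)) 
(.lf (nat_lit 75703) (.g (nat_lit 861) (.e (nat_lit 1795) (nat_lit 119) (.e (nat_lit 516119) (nat_lit 1) (.e (nat_lit 164396) (nat_lit 256) .nil))) .nil)))) (.nd (nat_lit 4) (.nd (nat_lit 5) 
(.lf (nat_lit 75663) (.g (nat_lit 4723) (.e (nat_lit 1794) (nat_lit 119) (.e (nat_lit 516166) (nat_lit 12) (.e (nat_lit 450587) (nat_lit 10) (.e (nat_lit 573478) (nat_lit 12) (.e (nat_lit 57574) (nat_lit 55) (.e (nat_lit 778465) (nat_lit 11) (.e (nat_lit 24581) (nat_lit 0) .nil))))))) (.g (nat_lit 5) .nil .nil))) 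
(.lf (nat_lit 75695) (.g (nat_lit 2079) (.e (nat_lit 1795) (nat_lit 119) (.e (nat_lit 516119) (nat_lit 1) (.e (nat_lit 164179) (nat_lit 154) (.e (nat_lit 57445) (nat_lit 19) (.e (nat_lit 401152) (nat_lit 11) .nil))))) .nil))) (.nd (nat_lit 5) 
(.lf (nat_lit 75679) (.g (nat_lit 4578) (.e (nat_lit 1794) (nat_lit 119) (.e (nat_lit 516166) (nat_lit 12) (.e (nat_lit 450588) (nat_lit 10) (.e (nat_lit 573475) (nat_lit 12) (.e (nat_lit 57574) (nat_lit 55) (.e (nat_lit 778464) (nat_lit 11) (.e (nat_lit 24582) (nat_lit 0) .nil))))))) (.g (nat_lit 4) .nil .nil))) 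
(.lf (nat_lit 75711) (.g (nat_lit 2124) (.e (nat_lit 1795) (nat_lit 119) (.e (nat_lit 516119) (nat_lit 1) (.e (nat_lit 164401) (nat_lit 256) (.e (nat_lit 57378) (nat_lit 3) (.e (nat_lit 98376) (nat_lit 30) .nil))))) .nil))))))))

noncomputable def tv1024 : DT := (.nd (nat_lit 0) (.nd (nat_lit 1) (.nd (nat_lit 2) (.nd (nat_lit 3) (.nd (nat_lit 4) (.nd (nat_lit 5) 
(.lf (nat_lit 75712) (.g (nat_lit 2420) (.e (nat_lit 1795) (nat_lit 119) (.e (nat_lit 516119) (nat_lit 1) (.e (nat_lit 164402) (nat_lit 256) (.e (nat_lit 57371) (nat_lit 2) (.e (nat_lit 90172) (nat_lit 14) (.e (nat_lit 180244) (nat_lit 5) (.e (nat_lit 532513) (nat_lit 3) (.e (nat_lit 114700) (nat_lit 20) .nil)))))))) (.g (nat_lit 4) .nil .nil))) 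
(.lf (nat_lit 75744) (.g (nat_lit 1527) (.e (nat_lit 1795) (nat_lit 119) (.e (nat_lit 516120) (nat_lit 1) (.e (nat_lit 164183) (nat_lit 154) (.e (nat_lit 57447) (nat_lit 19) .nil)))) .nil))) (.nd (nat_lit 5) 
(.lf (nat_lit 75728) (.g (nat_lit 2213) (.e (nat_lit 1795) (nat_lit 119) (.e (nat_lit 516119) (nat_lit 1) (.e (nat_lit 164403) (nat_lit 256) (.e (nat_lit 57373) (nat_lit 2) (.e (nat_lit 90170) (nat_lit 13) (.e (nat_lit 172065) (nat_lit 3) (.e (nat_lit 204837) (nat_lit 20) (.e (nat_lit 114701) (nat_lit 20) .nil)))))))) (.g (nat_lit 4) .nil .nil))) 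
(.lf (nat_lit 75760) (.g (nat_lit 1681) (.e (nat_lit 1795) (nat_lit 119) (.e (nat_lit 516120) (nat_lit 1) (.e (nat_lit 164401) (nat_lit 256) (.e (nat_lit 57378) (nat_lit 3) .nil)))) .nil)))) (.nd (nat_lit 4) (.nd (nat_lit 5) 
(.lf (nat_lit 75720) (.g (nat_lit 2224) (.e (nat_lit 1795) (nat_lit 119) (.e (nat_lit 516119) (nat_lit 1) (.e (nat_lit 164403) (nat_lit 256) (.e (nat_lit 57370) (nat_lit 2) (.e (nat_lit 90174) (nat_lit 14) (.e (nat_lit 180243) (nat_lit 5) (.e (nat_lit 532515) (nat_lit 3) (.e (nat_lit 114701) (nat_lit 20) .nil)))))))) (.g (nat_lit 4) .nil .nil))) 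
(.lf (nat_lit 75752) (.g (nat_lit 1623) (.e (nat_lit 1795) (nat_lit 119) (.e (nat_lit 516120) (nat_lit 1) (.e (nat_lit 164329) (nat_lit 230) (.e (nat_lit 163942) (nat_lit 19) (.e (nat_lit 483341) (nat_lit 9) (.e (nat_lit 426200) (nat_lit 9) (.e (nat_lit 426350) (nat_lit 15) .nil))))))) (.g (nat_lit 4) .nil .nil)))) (.nd (nat_lit 5) 
(.lf (nat_lit 75736) (.g (nat_lit 2066) (.e (nat_lit 1795) (nat_lit 119) (.e (nat_lit 516119) (nat_lit 1) (.e (nat_lit 164403) (nat_lit 256) (.e (nat_lit 57378) (nat_lit 3) (.e (nat_lit 98358) (nat_lit 26) (.e (nat_lit 426131) (nat_lit 3) (.e (nat_lit 204837) (nat_lit 20) (.e (nat_lit 114701) (nat_lit 20) .nil)))))))) (.g (nat_lit 4) .nil .nil))) 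
(.lf (nat_lit 75768) (.g (nat_lit 1306) (.e (nat_lit 1795) (nat_lit 119) (.e (nat_lit 516126) (nat_lit 2) (.e (nat_lit 213030) (nat_lit 11) (.e (nat_lit 24604) (nat_lit 2) (.e (nat_lit 90176) (nat_lit 15) .nil))))) .nil))))) (.nd (nat_lit 3) (.nd (nat_lit 4) (.nd (nat_lit 5) 
(.lf (nat_lit 75716) (.g (nat_lit 2284) (.e (nat_lit 1795) (nat_lit 119) (.e (nat_lit 516119) (nat_lit 1) (.e (nat_lit 164403) (nat_lit 256) (.e (nat_lit 57370) (nat_lit 2) (.e (nat_lit 90172) (nat_lit 14) (.e (nat_lit 180244) (nat_lit 5) (.e (nat_lit 532513) (nat_lit 3) (.e (nat_lit 114701) (nat_lit 20) .nil)))))))) (.g (nat_lit 4) .nil .nil))) 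
(.lf (nat_lit 75748) (.g (nat_lit 1968) (.e (nat_lit 1795) (nat_lit 119) (.e (nat_lit 516120) (nat_lit 1) (.e (nat_lit 164329) (nat_lit 230) (.e (nat_lit 163902) (nat_lit 12) (.e (nat_lit 426568) (nat_lit 34) (.e (nat_lit 393267) (nat_lit 23) (.e (nat_lit 426360) (nat_lit 15) .nil))))))) (.g (nat_lit 4) .nil .nil)))) (.nd (nat_lit 5) 
(.lf (nat_lit 75732) (.g (nat_lit 2675) (.e (nat_lit 1795) (nat_lit 119) (.e (nat_lit 516119) (nat_lit 1) (.e (nat_lit 164403) (nat_lit 256) (.e (nat_lit 57377) (nat_lit 3) (.e (nat_lit 98357) (nat_lit 26) .nil))))) .nil)) 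
(.lf (nat_lit 75764) (.g (nat_lit 3519) (.e (nat_lit 1795) (nat_lit 119) (.e (nat_lit 516120) (nat_lit 1) (.e (nat_lit 164403) (nat_lit 256) (.e (nat_lit 57373) (nat_lit 2) (.e (nat_lit 90172) (nat_lit 14) (.e (nat_lit 180244) (nat_lit 5) (.e (nat_lit 532515) (nat_lit 3) (.e (nat_lit 114702) (nat_lit 20) .nil)))))))) (.g (nat_lit 4) .nil .nil))))) (.nd (nat_lit 4) (.nd (nat_lit 5) 
(.lf (nat_lit 75724) (.g (nat_lit 3759) (.e (nat_lit 1795) (nat_lit 119) (.e (nat_lit 516119) (nat_lit 1) (.e (nat_lit 164403) (nat_lit 256) (.e (nat_lit 57371) (nat_lit 2) (.e (nat_lit 90172) (nat_lit 14) (.e (nat_lit 180244) (nat_lit 5) (.e (nat_lit 532515) (nat_lit 3) (.e (nat_lit 114701) (nat_lit 20) .nil)))))))) (.g (nat_lit 6) .nil .nil))) 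
(.lf (nat_lit 75756) (.g (nat_lit 2501) (.e (nat_lit 1795) (nat_lit 119) (.e (nat_lit 516120) (nat_lit 1) (.e (nat_lit 164396) (nat_lit 256) (.e (nat_lit 57371) (nat_lit 2) (.e (nat_lit 90174) (nat_lit 14) (.e (nat_lit 180243) (nat_lit 5) (.e (nat_lit 532513) (nat_lit 3) (.e (nat_lit 114700) (nat_lit 20) .nil)))))))) (.g (nat_lit 4) .nil .nil)))) (.nd (nat_lit 5) 
(.lf (nat_lit 75740) (.g (nat_lit 2437) (.e (nat_lit 1795) (nat_lit 119) (.e (nat_lit 516119) (nat_lit 1) (.e (nat_lit 164403) (nat_lit 256) (.e (nat_lit 57378) (nat_lit 3) (.e (nat_lit 98367) (nat_lit 27) (.e (nat_lit 434231) (nat_lit 23) (.e (nat_lit 532514) (nat_lit 3) (.e (nat_lit 114702) (nat_lit 20) .nil)))))))) (.g (nat_lit 4) .nil .nil))) 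
(.lf (nat_lit 75772) (.g (nat_lit 2302) (.e (nat_lit 1795) (nat_lit 119) (.e (nat_lit 516129) (nat_lit 3) (.e (nat_lit 221210) (nat_lit 22) (.e (nat_lit 196668) (nat_lit 14) (.e (nat_lit 73746) (nat_lit 3) (.e (nat_lit 516119) (nat_lit 1) (.e (nat_lit 164178) (nat_lit 154) (.e (nat_lit 57348) (nat_lit 0) .nil)))))))) (.g (nat_lit 4) .nil .nil))))))) 
(.nd (nat_lit 2) (.nd (nat_lit 3) (.nd (nat_lit 4) (.nd (nat_lit 5) 
(.lf (nat_lit 75714) (.g (nat_lit 2337) (.e (nat_lit 1795) (nat_lit 119) (.e (nat_lit 516119) (nat_lit 1) (.e (nat_lit 164402) (nat_lit 256) (.e (nat_lit 57371) (nat_lit 2) (.e (nat_lit 90174) (nat_lit 14) (.e (nat_lit 180243) (nat_lit 5) (.e (nat_lit 532513) (nat_lit 3) (.e (nat_lit 114701) (nat_lit 20) .nil)))))))) (.g (nat_lit 4) .nil .nil))) 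
(.lf (nat_lit 75746) (.g (nat_lit 861) (.e (nat_lit 1795) (nat_lit 119) (.e (nat_lit 516120) (nat_lit 1) (.e (nat_lit 164329) (nat_lit 230) .nil))) .nil))) (.nd (nat_lit 5) 
(.lf (nat_lit 75730) (.g (nat_lit 4392) (.e (nat_lit 1795) (nat_lit 119) (.e (nat_lit 516119) (nat_lit 1) (.e (nat_lit 164403) (nat_lit 256) (.e (nat_lit 57373) (nat_lit 2) (.e (nat_lit 90172) (nat_lit 14) (.e (nat_lit 180244) (nat_lit 5) (.e (nat_lit 532515) (nat_lit 3) (.e (nat_lit 114702) (nat_lit 20) .nil)))))))) (.g (nat_lit 7) .nil .nil))) 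
(.lf (nat_lit 75762) (.g (nat_lit 3040) (.e (nat_lit 1795) (nat_lit 119) (.e (nat_lit 516120) (nat_lit 1) (.e (nat_lit 164403) (nat_lit 256) (.e (nat_lit 57373) (nat_lit 2) (.e (nat_lit 90170) (nat_lit 13) .nil))))) .nil)))) (.nd (nat_lit 4) (.nd (nat_lit 5) 
(.lf (nat_lit 75722) (.g (nat_lit 2278) (.e (nat_lit 1795) (nat_lit 119) (.e (nat_lit 516119) (nat_lit 1) (.e (nat_lit 164403) (nat_lit 256) (.e (nat_lit 57371) (nat_lit 2) (.e (nat_lit 90167) (nat_lit 13) (.e (nat_lit 172067) (nat_lit 3) (.e (nat_lit 204838) (nat_lit 20) (.e (nat_lit 114701) (nat_lit 20) .nil)))))))) (.g (nat_lit 4) .nil .nil))) 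
(.lf (nat_lit 75754) (.g (nat_lit 1787) (.e (nat_lit 1795) (nat_lit 119) (.e (nat_lit 516120) (nat_lit 1) (.e (nat_lit 164332) (nat_lit 230) (.e (nat_lit 163941) (nat_lit 19) .nil)))) .nil))) (.nd (nat_lit 5) 
(.lf (nat_lit 75738) (.g (nat_lit 2408) (.e (nat_lit 1795) (nat_lit 119) (.e (nat_lit 516119) (nat_lit 1) (.e (nat_lit 164403) (nat_lit 256) (.e (nat_lit 57378) (nat_lit 3) (.e (nat_lit 98367) (nat_lit 27) .nil))))) .nil)) 
(.lf (nat_lit 75770) (.g (nat_lit 1480) (.e (nat_lit 1795) (nat_lit 119) (.e (nat_lit 516126) (nat_lit 2) (.e (nat_lit 213032) (nat_lit 11) (.e (nat_lit 24605) (nat_lit 2) (.e (nat_lit 90178) (nat_lit 15) (.e (nat_lit 196352) (nat_lit 0) .nil)))))) (.g (nat_lit 5) .nil .nil)))))) (.nd (nat_lit 3) (.nd (nat_lit 4) (.nd (nat_lit 5) 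
(.lf (nat_lit 75718) (.g (nat_lit 2870) (.e (nat_lit 1795) (nat_lit 119) (.e (nat_lit 516119) (nat_lit 1) (.e (nat_lit 164403) (nat_lit 256) (.e (nat_lit 57370) (nat_lit 2) (.e (nat_lit 90172) (nat_lit 14) (.e (nat_lit 180244) (nat_lit 5) (.e (nat_lit 532515) (nat_lit 3) (.e (nat_lit 114702) (nat_lit 20) .nil)))))))) (.g (nat_lit 5) .nil .nil))) 
(.lf (nat_lit 75750) (.g (nat_lit 3019) (.e (nat_lit 1795) (nat_lit 119) (.e (nat_lit 516120) (nat_lit 1) (.e (nat_lit 164329) (nat_lit 230) (.e (nat_lit 163902) (nat_lit 12) (.e (nat_lit 426568) (nat_lit 34) (.e (nat_lit 393279) (nat_lit 23) (.e (nat_lit 426353) (nat_lit 15) .nil))))))) (.g (nat_lit 7) .nil .nil)))) (.nd (nat_lit 5) 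
(.lf (nat_lit 75734) (.g (nat_lit 2991) (.e (nat_lit 1795) (nat_lit 119) (.e (nat_lit 516119) (nat_lit 1) (.e (nat_lit 164403) (nat_lit 256) (.e (nat_lit 57378) (nat_lit 3) (.e (nat_lit 98357) (nat_lit 26) .nil))))) .nil)) 
(.lf (nat_lit 75766) (.g (nat_lit 2014) (.e (nat_lit 1795) (nat_lit 119) (.e (nat_lit 516120) (nat_lit 1) (.e (nat_lit 164403) (nat_lit 256) (.e (nat_lit 57378) (nat_lit 3) .nil)))) .nil)))) (.nd (nat_lit 4) (.nd (nat_lit 5) 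
(.lf (nat_lit 75726) (.g (nat_lit 3857) (.e (nat_lit 1795) (nat_lit 119) (.e (nat_lit 516119) (nat_lit 1) (.e (nat_lit 164403) (nat_lit 256) (.e (nat_lit 57371) (nat_lit 2) (.e (nat_lit 90174) (nat_lit 14) (.e (nat_lit 180243) (nat_lit 5) (.e (nat_lit 532515) (nat_lit 3) (.e (nat_lit 114701) (nat_lit 20) .nil)))))))) (.g (nat_lit 6) .nil .nil))) 
(.lf (nat_lit 75758) (.g (nat_lit 3301) (.e (nat_lit 1795) (nat_lit 119) (.e (nat_lit 516120) (nat_lit 1) (.e (nat_lit 164401) (nat_lit 256) (.e (nat_lit 57373) (nat_lit 2) (.e (nat_lit 90174) (nat_lit 14) (.e (nat_lit 180243) (nat_lit 5) (.e (nat_lit 532513) (nat_lit 3) (.e (nat_lit 114700) (nat_lit 20) .nil)))))))) (.g (nat_lit 5) .nil .nil)))) (.nd (nat_lit 5) 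
(.lf (nat_lit 75742) (.g (nat_lit 2789) (.e (nat_lit 1795) (nat_lit 119) (.e (nat_lit 516119) (nat_lit 1) (.e (nat_lit 164403) (nat_lit 256) (.e (nat_lit 57378) (nat_lit 3) (.e (nat_lit 98376) (nat_lit 30) (.e (nat_lit 458789) (nat_lit 23) (.e (nat_lit 532515) (nat_lit 3) (.e (nat_lit 114701) (nat_lit 20) .nil)))))))) (.g (nat_lit 5) .nil .nil))) 
(.lf (nat_lit 75774) (.g (nat_lit 2793) (.e (nat_lit 1795) (nat_lit 119) (.e (nat_lit 516129) (nat_lit 3) (.e (nat_lit 221210) (nat_lit 22) (.e (nat_lit 196668) (nat_lit 14) (.e (nat_lit 73747) (nat_lit 3) (.e (nat_lit 516119) (nat_lit 1) (.e (nat_lit 164176) (nat_lit 154) (.e (nat_lit 57347) (nat_lit 0) .nil)))))))) (.g (nat_lit 5) .nil .nil)))))))) 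
(.nd (nat_lit 1) (.nd (nat_lit 2) (.nd (nat_lit 3) (.nd (nat_lit 4) (.nd (nat_lit 5) 
(.lf (nat_lit 75713) (.g (nat_lit 3059) (.e (nat_lit 1795) (nat_lit 119) (.e (nat_lit 516119) (nat_lit 1) (.e (nat_lit 164402) (nat_lit 256) (.e (nat_lit 57371) (nat_lit 2) (.e (nat_lit 90174) (nat_lit 14) (.e (nat_lit 180243) (nat_lit 5) (.e (nat_lit 532513) (nat_lit 3) (.e (nat_lit 114700) (nat_lit 20) .nil)))))))) (.g (nat_lit 5) .nil .nil))) 
(.lf (nat_lit 75745) (.g (nat_lit 1537) (.e (nat_lit 1795) (nat_lit 119) (.e (nat_lit 516120) (nat_lit 1) (.e (nat_lit 164183) (nat_lit 154) (.e (nat_lit 57448) (nat_lit 19) .nil)))) .nil))) (.nd (nat_lit 5) 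
(.lf (nat_lit 75729) (.g (nat_lit 2173) (.e (nat_lit 1795) (nat_lit 119) (.e (nat_lit 516119) (nat_lit 1) (.e (nat_lit 164403) (nat_lit 256) (.e (nat_lit 57373) (nat_lit 2) (.e (nat_lit 90170) (nat_lit 13) (.e (nat_lit 172065) (nat_lit 3) (.e (nat_lit 204838) (nat_lit 20) (.e (nat_lit 114700) (nat_lit 20) .nil)))))))) (.g (nat_lit 4) .nil .nil))) 
(.lf (nat_lit 75761) (.g (nat_lit 1169) (.e (nat_lit 1795) (nat_lit 119) (.e (nat_lit 516120) (nat_lit 1) (.e (nat_lit 164403) (nat_lit 256) .nil))) .nil)))) (.nd (nat_lit 4) (.nd (nat_lit 5) 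
(.lf (nat_lit 75721) (.g (nat_lit 2203) (.e (nat_lit 1795) (nat_lit 119) (.e (nat_lit 516119) (nat_lit 1) (.e (nat_lit 164403) (nat_lit 256) (.e (nat_lit 57370) (nat_lit 2) (.e (nat_lit 90174) (nat_lit 14) (.e (nat_lit 180243) (nat_lit 5) (.e (nat_lit 532515) (nat_lit 3) (.e (nat_lit 114702) (nat_lit 20) .nil)))))))) (.g (nat_lit 4) .nil .nil))) 
(.lf (nat_lit 75753) (.g (nat_lit 1075) (.e (nat_lit 1795) (nat_lit 119) (.e (nat_lit 516120) (nat_lit 1) (.e (nat_lit 164332) (nat_lit 230) .nil))) .nil))) (.nd (nat_lit 5) 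
(.lf (nat_lit 75737) (.g (nat_lit 2738) (.e (nat_lit 1795) (nat_lit 119) (.e (nat_lit 516119) (nat_lit 1) (.e (nat_lit 164403) (nat_lit 256) (.e (nat_lit 57378) (nat_lit 3) (.e (nat_lit 98366) (nat_lit 27) .nil))))) .nil)) 
(.lf (nat_lit 75769) (.g (nat_lit 1294) (.e (nat_lit 1795) (nat_lit 119) (.e (nat_lit 516126) (nat_lit 2) (.e (nat_lit 213032) (nat_lit 11) (.e (nat_lit 24605) (nat_lit 2) (.e (nat_lit 90176) (nat_lit 15) (.e (nat_lit 196352) (nat_lit 0) .nil)))))) (.g (nat_lit 5) .nil .nil)))))) (.nd (nat_lit 3) (.nd (nat_lit 4) (.nd (nat_lit 5) 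
(.lf (nat_lit 75717) (.g (nat_lit 2764) (.e (nat_lit 1795) (nat_lit 119) (.e (nat_lit 516119) (nat_lit 1) (.e (nat_lit 164403) (nat_lit 256) (.e (nat_lit 57370) (nat_lit 2) (.e (nat_lit 90172) (nat_lit 14) (.e (nat_lit 180244) (nat_lit 5) (.e (nat_lit 532515) (nat_lit 3) (.e (nat_lit 114701) (nat_lit 20) .nil)))))))) (.g (nat_lit 5) .nil .nil))) 
(.lf (nat_lit 75749) (.g (nat_lit 3732) (.e (nat_lit 1795) (nat_lit 119) (.e (nat_lit 516120) (nat_lit 1) (.e (nat_lit 164329) (nat_lit 230) (.e (nat_lit 163902) (nat_lit 12) (.e (nat_lit 426568) (nat_lit 34) (.e (nat_lit 393271) (nat_lit 23) (.e (nat_lit 426354) (nat_lit 15) .nil))))))) (.g (nat_lit 7) .nil .nil)))) (.nd (nat_lit 5) 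
(.lf (nat_lit 75733) (.g (nat_lit 2994) (.e (nat_lit 1795) (nat_lit 119) (.e (nat_lit 516119) (nat_lit 1) (.e (nat_lit 164403) (nat_lit 256) (.e (nat_lit 57377) (nat_lit 3) (.e (nat_lit 98357) (nat_lit 26) (.e (nat_lit 426131) (nat_lit 3) (.e (nat_lit 204838) (nat_lit 20) (.e (nat_lit 114702) (nat_lit 20) .nil)))))))) (.g (nat_lit 5) .nil .nil))) 
(.lf (nat_lit 75765) (.g (nat_lit 3339) (.e (nat_lit 1795) (nat_lit 119) (.e (nat_lit 516120) (nat_lit 1) (.e (nat_lit 164403) (nat_lit 256) (.e (nat_lit 57373) (nat_lit 2) (.e (nat_lit 90174) (nat_lit 14) (.e (nat_lit 180243) (nat_lit 5) (.e (nat_lit 532513) (nat_lit 3) (.e (nat_lit 114701) (nat_lit 20) .nil)))))))) (.g (nat_lit 4) .nil .nil))))) (.nd (nat_lit 4) (.nd (nat_lit 5) 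
(.lf (nat_lit 75725) (.g (nat_lit 3920) (.e (nat_lit 1795) (nat_lit 119) (.e (nat_lit 516119) (nat_lit 1) (.e (nat_lit 164403) (nat_lit 256) (.e (nat_lit 57371) (nat_lit 2) (.e (nat_lit 90174) (nat_lit 14) (.e (nat_lit 180243) (nat_lit 5) (.e (nat_lit 532513) (nat_lit 3) (.e (nat_lit 114701) (nat_lit 20) .nil)))))))) (.g (nat_lit 6) .nil .nil))) 
(.lf (nat_lit 75757) (.g (nat_lit 2466) (.e (nat_lit 1795) (nat_lit 119) (.e (nat_lit 516120) (nat_lit 1) (.e (nat_lit 164401) (nat_lit 256) (.e (nat_lit 57373) (nat_lit 2) (.e (nat_lit 90174) (nat_lit 14) .nil))))) .nil))) (.nd (nat_lit 5) 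
(.lf (nat_lit 75741) (.g (nat_lit 2369) (.e (nat_lit 1795) (nat_lit 119) (.e (nat_lit 516119) (nat_lit 1) (.e (nat_lit 164403) (nat_lit 256) (.e (nat_lit 57378) (nat_lit 3) (.e (nat_lit 98376) (nat_lit 30) .nil))))) .nil)) 
(.lf (nat_lit 75773) (.g (nat_lit 2083) (.e (nat_lit 1795) (nat_lit 119) (.e (nat_lit 516129) (nat_lit 3) (.e (nat_lit 221210) (nat_lit 22) (.e (nat_lit 196668) (nat_lit 14) (.e (nat_lit 73747) (nat_lit 3) (.e (nat_lit 516115) (nat_lit 1) (.e (nat_lit 164177) (nat_lit 154) (.e (nat_lit 57348) (nat_lit 0) .nil)))))))) (.g (nat_lit 4) .nil .nil))))))) 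
(.nd (nat_lit 2) (.nd (nat_lit 3) (.nd (nat_lit 4) (.nd (nat_lit 5) 
(.lf (nat_lit 75715) (.g (nat_lit 627) (.e (nat_lit 1795) (nat_lit 119) (.e (nat_lit 516119) (nat_lit 1) (.e (nat_lit 164403) (nat_lit 256) .nil))) .nil)) 
(.lf (nat_lit 75747) (.g (nat_lit 1869) (.e (nat_lit 1795) (nat_lit 119) (.e (nat_lit 516120) (nat_lit 1) (.e (nat_lit 164329) (nat_lit 230) (.e (nat_lit 163902) (nat_lit 12) (.e (nat_lit 426568) (nat_lit 34) .nil))))) .nil))) (.nd (nat_lit 5) 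
(.lf (nat_lit 75731) (.g (nat_lit 5021) (.e (nat_lit 1795) (nat_lit 119) (.e (nat_lit 516119) (nat_lit 1) (.e (nat_lit 164403) (nat_lit 256) (.e (nat_lit 57373) (nat_lit 2) (.e (nat_lit 90174) (nat_lit 14) (.e (nat_lit 180243) (nat_lit 5) (.e (nat_lit 532513) (nat_lit 3) (.e (nat_lit 114700) (nat_lit 20) .nil)))))))) (.g (nat_lit 0) .nil .nil))) 
(.lf (nat_lit 75763) (.g (nat_lit 3684) (.e (nat_lit 1795) (nat_lit 119) (.e (nat_lit 516120) (nat_lit 1) (.e (nat_lit 164403) (nat_lit 256) (.e (nat_lit 57373) (nat_lit 2) (.e (nat_lit 90172) (nat_lit 14) (.e (nat_lit 180244) (nat_lit 5) (.e (nat_lit 532513) (nat_lit 3) (.e (nat_lit 114700) (nat_lit 20) .nil)))))))) (.g (nat_lit 4) .nil .nil))))) (.nd (nat_lit 4) (.nd (nat_lit 5) 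
(.lf (nat_lit 75723) (.g (nat_lit 2907) (.e (nat_lit 1795) (nat_lit 119) (.e (nat_lit 516119) (nat_lit 1) (.e (nat_lit 164403) (nat_lit 256) (.e (nat_lit 57371) (nat_lit 2) (.e (nat_lit 90167) (nat_lit 13) (.e (nat_lit 172067) (nat_lit 3) (.e (nat_lit 204838) (nat_lit 20) (.e (nat_lit 114702) (nat_lit 20) .nil)))))))) (.g (nat_lit 5) .nil .nil))) 
(.lf (nat_lit 75755) (.g (nat_lit 1802) (.e (nat_lit 1795) (nat_lit 119) (.e (nat_lit 516120) (nat_lit 1) (.e (nat_lit 164332) (nat_lit 230) (.e (nat_lit 163943) (nat_lit 19) .nil)))) .nil))) (.nd (nat_lit 5) 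
(.lf (nat_lit 75739) (.g (nat_lit 2457) (.e (nat_lit 1795) (nat_lit 119) (.e (nat_lit 516119) (nat_lit 1) (.e (nat_lit 164403) (nat_lit 256) (.e (nat_lit 57378) (nat_lit 3) (.e (nat_lit 98367) (nat_lit 27) (.e (nat_lit 434231) (nat_lit 23) (.e (nat_lit 532514) (nat_lit 3) (.e (nat_lit 114700) (nat_lit 20) .nil)))))))) (.g (nat_lit 4) .nil .nil))) 
(.lf (nat_lit 75771) (.g (nat_lit 1350) (.e (nat_lit 1795) (nat_lit 119) (.e (nat_lit 516129) (nat_lit 3) (.e (nat_lit 221210) (nat_lit 22) (.e (nat_lit 196668) (nat_lit 14) .nil)))) .nil))))) (.nd (nat_lit 3) (.nd (nat_lit 4) (.nd (nat_lit 5) 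
(.lf (nat_lit 75719) (.g (nat_lit 2308) (.e (nat_lit 1795) (nat_lit 119) (.e (nat_lit 516119) (nat_lit 1) (.e (nat_lit 164403) (nat_lit 256) (.e (nat_lit 57370) (nat_lit 2) (.e (nat_lit 90174) (nat_lit 14) (.e (nat_lit 180243) (nat_lit 5) (.e (nat_lit 532513) (nat_lit 3) (.e (nat_lit 114701) (nat_lit 20) .nil)))))))) (.g (nat_lit 4) .nil .nil))) 
(.lf (nat_lit 75751) (.g (nat_lit 1767) (.e (nat_lit 1795) (nat_lit 119) (.e (nat_lit 516120) (nat_lit 1) (.e (nat_lit 164329) (nat_lit 230) (.e (nat_lit 163904) (nat_lit 12) (.e (nat_lit 426566) (nat_lit 34) (.e (nat_lit 393268) (nat_lit 23) (.e (nat_lit 426361) (nat_lit 15) .nil))))))) (.g (nat_lit 4) .nil .nil)))) (.nd (nat_lit 5) 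
(.lf (nat_lit 75735) (.g (nat_lit 2380) (.e (nat_lit 1795) (nat_lit 119) (.e (nat_lit 516119) (nat_lit 1) (.e (nat_lit 164403) (nat_lit 256) (.e (nat_lit 57378) (nat_lit 3) (.e (nat_lit 98358) (nat_lit 26) (.e (nat_lit 426131) (nat_lit 3) (.e (nat_lit 204837) (nat_lit 20) (.e (nat_lit 114700) (nat_lit 20) .nil)))))))) (.g (nat_lit 5) .nil .nil))) 
(.lf (nat_lit 75767) (.g (nat_lit 2772) (.e (nat_lit 1795) (nat_lit 119) (.e (nat_lit 516120) (nat_lit 1) (.e (nat_lit 164403) (nat_lit 256) (.e (nat_lit 57378) (nat_lit 3) (.e (nat_lit 98358) (nat_lit 26) .nil))))) .nil)))) (.nd (nat_lit 4) (.nd (nat_lit 5) 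
(.lf (nat_lit 75727) (.g (nat_lit 3836) (.e (nat_lit 1795) (nat_lit 119) (.e (nat_lit 516119) (nat_lit 1) (.e (nat_lit 164403) (nat_lit 256) (.e (nat_lit 57371) (nat_lit 2) (.e (nat_lit 90174) (nat_lit 14) (.e (nat_lit 180243) (nat_lit 5) (.e (nat_lit 532515) (nat_lit 3) (.e (nat_lit 114702) (nat_lit 20) .nil)))))))) (.g (nat_lit 6) .nil .nil))) 
(.lf (nat_lit 75759) (.g (nat_lit 2528) (.e (nat_lit 1795) (nat_lit 119) (.e (nat_lit 516120) (nat_lit 1) (.e (nat_lit 164401) (nat_lit 256) (.e (nat_lit 57373) (nat_lit 2) (.e (nat_lit 90174) (nat_lit 14) (.e (nat_lit 180243) (nat_lit 5) (.e (nat_lit 532513) (nat_lit 3) (.e (nat_lit 114701) (nat_lit 20) .nil)))))))) (.g (nat_lit 4) .nil .nil)))) (.nd (nat_lit 5) 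
(.lf (nat_lit 75743) (.g (nat_lit 3180) (.e (nat_lit 1795) (nat_lit 119) (.e (nat_lit 516119) (nat_lit 1) (.e (nat_lit 164403) (nat_lit 256) (.e (nat_lit 57378) (nat_lit 3) (.e (nat_lit 98376) (nat_lit 30) (.e (nat_lit 458789) (nat_lit 23) (.e (nat_lit 532515) (nat_lit 3) (.e (nat_lit 114702) (nat_lit 20) .nil)))))))) (.g (nat_lit 6) .nil .nil))) 
(.lf (nat_lit 75775) (.g (nat_lit 2134) (.e (nat_lit 1795) (nat_lit 119) (.e (nat_lit 516129) (nat_lit 3) (.e (nat_lit 221210) (nat_lit 22) (.e (nat_lit 196670) (nat_lit 14) (.e (nat_lit 73746) (nat_lit 3) .nil))))) .nil))))))))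

noncomputable def tv1025 : DT := (.nd (nat_lit 0) (.nd (nat_lit 1) (.nd (nat_lit 2) (.nd (nat_lit 3) (.nd (nat_lit 4) (.nd (nat_lit 5) 
(.lf (nat_lit 75776) (.g (nat_lit 2236) (.e (nat_lit 1795) (nat_lit 119) (.e (nat_lit 516129) (nat_lit 3) (.e (nat_lit 221210) (nat_lit 22) (.e (nat_lit 196670) (nat_lit 14) (.e (nat_lit 73746) (nat_lit 3) (.e (nat_lit 516115) (nat_lit 1) (.e (nat_lit 164178) (nat_lit 154) (.e (nat_lit 57348) (nat_lit 0) .nil)))))))) (.g (nat_lit 4) .nil .nil))) 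
(.lf (nat_lit 75808) (.g (nat_lit 2309) (.e (nat_lit 1795) (nat_lit 119) (.e (nat_lit 516131) (nat_lit 3) (.e (nat_lit 221215) (nat_lit 23) (.e (nat_lit 204863) (nat_lit 27) (.e (nat_lit 344118) (nat_lit 21) (.e (nat_lit 516119) (nat_lit 1) (.e (nat_lit 164179) (nat_lit 154) (.e (nat_lit 57347) (nat_lit 0) .nil)))))))) (.g (nat_lit 4) .nil .nil)))) (.nd (nat_lit 5) 
(.lf (nat_lit 75792) (.g (nat_lit 1505) (.e (nat_lit 1795) (nat_lit 119) (.e (nat_lit 516131) (nat_lit 3) (.e (nat_lit 221212) (nat_lit 22) (.e (nat_lit 196669) (nat_lit 14) (.e (nat_lit 73747) (nat_lit 3) .nil))))) .nil)) 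
(.lf (nat_lit 75824) (.g (nat_lit 3910) (.e (nat_lit 1795) (nat_lit 119) (.e (nat_lit 516166) (nat_lit 12) (.e (nat_lit 450587) (nat_lit 10) (.e (nat_lit 573454) (nat_lit 9) .nil)))) .nil)))) (.nd (nat_lit 4) (.nd (nat_lit 5) 
(.lf (nat_lit 75784) (.g (nat_lit 1675) (.e (nat_lit 1795) (nat_lit 119) (.e (nat_lit 516131) (nat_lit 3) (.e (nat_lit 221212) (nat_lit 22) (.e (nat_lit 196665) (nat_lit 13) (.e (nat_lit 65636) (nat_lit 15) .nil))))) .nil)) 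
(.lf (nat_lit 75816) (.g (nat_lit 1553) (.e (nat_lit 1795) (nat_lit 119) (.e (nat_lit 516150) (nat_lit 9) (.e (nat_lit 426323) (nat_lit 13) (.e (nat_lit 483337) (nat_lit 9) (.e (nat_lit 426098) (nat_lit 1) .nil))))) .nil))) (.nd (nat_lit 5) 
(.lf (nat_lit 75800) (.g (nat_lit 1957) (.e (nat_lit 1795) (nat_lit 119) (.e (nat_lit 516131) (nat_lit 3) (.e (nat_lit 221212) (nat_lit 22) (.e (nat_lit 196681) (nat_lit 17) (.e (nat_lit 131096) (nat_lit 3) (.e (nat_lit 98335) (nat_lit 18) (.e (nat_lit 164178) (nat_lit 154) (.e (nat_lit 57348) (nat_lit 0) .nil)))))))) (.g (nat_lit 4) .nil .nil))) 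
(.lf (nat_lit 75832) (.g (nat_lit 1974) (.e (nat_lit 1796) (nat_lit 119) (.e (nat_lit 516097) (nat_lit 0) (.e (nat_lit 3605) (nat_lit 225) (.e (nat_lit 769792) (nat_lit 9) (.e (nat_lit 73746) (nat_lit 3) (.e (nat_lit 516174) (nat_lit 14) (.e (nat_lit 466944) (nat_lit 0) .nil))))))) (.g (nat_lit 5) .nil .nil)))))) (.nd (nat_lit 3) (.nd (nat_lit 4) (.nd (nat_lit 5) 
(.lf (nat_lit 75780) (.g (nat_lit 2017) (.e (nat_lit 1795) (nat_lit 119) (.e (nat_lit 516131) (nat_lit 3) (.e (nat_lit 221211) (nat_lit 22) (.e (nat_lit 196666) (nat_lit 13) (.e (nat_lit 65569) (nat_lit 3) .nil))))) .nil)) 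
(.lf (nat_lit 75812) (.g (nat_lit 880) (.e (nat_lit 1795) (nat_lit 119) (.e (nat_lit 516146) (nat_lit 9) (.e (nat_lit 426438) (nat_lit 18) .nil))) .nil))) (.nd (nat_lit 5) 
(.lf (nat_lit 75796) (.g (nat_lit 4420) (.e (nat_lit 1795) (nat_lit 119) (.e (nat_lit 516131) (nat_lit 3) (.e (nat_lit 221212) (nat_lit 22) (.e (nat_lit 196670) (nat_lit 14) (.e (nat_lit 73746) (nat_lit 3) (.e (nat_lit 516119) (nat_lit 1) (.e (nat_lit 164178) (nat_lit 154) (.e (nat_lit 57348) (nat_lit 0) .nil)))))))) (.g (nat_lit 0) .nil .nil))) 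
(.lf (nat_lit 75828) (.g (nat_lit 907) (.e (nat_lit 1795) (nat_lit 119) (.e (nat_lit 516166) (nat_lit 12) (.e (nat_lit 450588) (nat_lit 10) .nil))) .nil)))) (.nd (nat_lit 4) (.nd (nat_lit 5) 
(.lf (nat_lit 75788) (.g (nat_lit 4343) (.e (nat_lit 1795) (nat_lit 119) (.e (nat_lit 516131) (nat_lit 3) (.e (nat_lit 221212) (nat_lit 22) (.e (nat_lit 196668) (nat_lit 14) (.e (nat_lit 73747) (nat_lit 3) (.e (nat_lit 516115) (nat_lit 1) (.e (nat_lit 164178) (nat_lit 154) (.e (nat_lit 57348) (nat_lit 0) .nil)))))))) (.g (nat_lit 8) .nil .nil))) 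
(.lf (nat_lit 75820) (.g (nat_lit 2152) (.e (nat_lit 1795) (nat_lit 119) (.e (nat_lit 516151) (nat_lit 9) (.e (nat_lit 426286) (nat_lit 10) .nil))) .nil))) (.nd (nat_lit 5) 
(.lf (nat_lit 75804) (.g (nat_lit 3346) (.e (nat_lit 1795) (nat_lit 119) (.e (nat_lit 516131) (nat_lit 3) (.e (nat_lit 221215) (nat_lit 23) (.e (nat_lit 204861) (nat_lit 26) (.e (nat_lit 336021) (nat_lit 3) (.e (nat_lit 98333) (nat_lit 18) (.e (nat_lit 164179) (nat_lit 154) (.e (nat_lit 57348) (nat_lit 0) .nil)))))))) (.g (nat_lit 5) .nil .nil))) 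
(.lf (nat_lit 75836) (.g (nat_lit 4531) (.e (nat_lit 1796) (nat_lit 119) (.e (nat_lit 516098) (nat_lit 0) (.e (nat_lit 7065) (nat_lit 377) (.e (nat_lit 1348) (nat_lit 102) (.e (nat_lit 286735) (nat_lit 3) (.e (nat_lit 98367) (nat_lit 27) (.e (nat_lit 434178) (nat_lit 0) (.e (nat_lit 1074) (nat_lit 81) .nil)))))))) (.g (nat_lit 6) .nil .nil))))))) 
(.nd (nat_lit 2) (.nd (nat_lit 3) (.nd (nat_lit 4) (.nd (nat_lit 5) 
(.lf (nat_lit 75778) (.g (nat_lit 2308) (.e (nat_lit 1795) (nat_lit 119) (.e (nat_lit 516129) (nat_lit 3) (.e (nat_lit 221210) (nat_lit 22) (.e (nat_lit 196670) (nat_lit 14) (.e (nat_lit 73746) (nat_lit 3) (.e (nat_lit 516119) (nat_lit 1) (.e (nat_lit 164179) (nat_lit 154) (.e (nat_lit 57348) (nat_lit 0) .nil)))))))) (.g (nat_lit 4) .nil .nil))) 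
(.lf (nat_lit 75810) (.g (nat_lit 2322) (.e (nat_lit 1795) (nat_lit 119) (.e (nat_lit 516131) (nat_lit 3) (.e (nat_lit 221215) (nat_lit 23) (.e (nat_lit 204863) (nat_lit 27) (.e (nat_lit 344120) (nat_lit 21) .nil))))) .nil))) (.nd (nat_lit 5) 
(.lf (nat_lit 75794) (.g (nat_lit 4836) (.e (nat_lit 1795) (nat_lit 119) (.e (nat_lit 516131) (nat_lit 3) (.e (nat_lit 221212) (nat_lit 22) (.e (nat_lit 196670) (nat_lit 14) (.e (nat_lit 73746) (nat_lit 3) (.e (nat_lit 516115) (nat_lit 1) (.e (nat_lit 164179) (nat_lit 154) (.e (nat_lit 57348) (nat_lit 0) .nil)))))))) (.g (nat_lit 8) .nil .nil))) 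
(.lf (nat_lit 75826) (.g (nat_lit 4927) (.e (nat_lit 1795) (nat_lit 119) (.e (nat_lit 516166) (nat_lit 12) (.e (nat_lit 450587) (nat_lit 10) (.e (nat_lit 573477) (nat_lit 12) (.e (nat_lit 57575) (nat_lit 55) .nil))))) .nil)))) (.nd (nat_lit 4) (.nd (nat_lit 5) 
(.lf (nat_lit 75786) (.g (nat_lit 3811) (.e (nat_lit 1795) (nat_lit 119) (.e (nat_lit 516131) (nat_lit 3) (.e (nat_lit 221212) (nat_lit 22) (.e (nat_lit 196668) (nat_lit 14) (.e (nat_lit 73746) (nat_lit 3) (.e (nat_lit 516119) (nat_lit 1) (.e (nat_lit 164179) (nat_lit 154) (.e (nat_lit 57348) (nat_lit 0) .nil)))))))) (.g (nat_lit 6) .nil .nil))) 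
(.lf (nat_lit 75818) (.g (nat_lit 1297) (.e (nat_lit 1795) (nat_lit 119) (.e (nat_lit 516151) (nat_lit 9) (.e (nat_lit 426170) (nat_lit 7) .nil))) .nil))) (.nd (nat_lit 5) 
(.lf (nat_lit 75802) (.g (nat_lit 2092) (.e (nat_lit 1795) (nat_lit 119) (.e (nat_lit 516131) (nat_lit 3) (.e (nat_lit 221212) (nat_lit 22) (.e (nat_lit 196681) (nat_lit 17) (.e (nat_lit 131098) (nat_lit 3) (.e (nat_lit 98333) (nat_lit 18) (.e (nat_lit 164177) (nat_lit 154) (.e (nat_lit 57348) (nat_lit 0) .nil)))))))) (.g (nat_lit 4) .nil .nil))) 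
(.lf (nat_lit 75834) (.g (nat_lit 2720) (.e (nat_lit 1796) (nat_lit 119) (.e (nat_lit 516097) (nat_lit 0) (.e (nat_lit 3605) (nat_lit 225) (.e (nat_lit 769792) (nat_lit 9) (.e (nat_lit 73746) (nat_lit 3) (.e (nat_lit 516176) (nat_lit 14) (.e (nat_lit 466945) (nat_lit 0) .nil))))))) (.g (nat_lit 6) .nil .nil)))))) (.nd (nat_lit 3) (.nd (nat_lit 4) (.nd (nat_lit 5) 
(.lf (nat_lit 75782) (.g (nat_lit 1293) (.e (nat_lit 1795) (nat_lit 119) (.e (nat_lit 516131) (nat_lit 3) (.e (nat_lit 221212) (nat_lit 22) (.e (nat_lit 196664) (nat_lit 13) .nil)))) .nil)) 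
(.lf (nat_lit 75814) (.g (nat_lit 1847) (.e (nat_lit 1795) (nat_lit 119) (.e (nat_lit 516150) (nat_lit 9) (.e (nat_lit 426131) (nat_lit 3) (.e (nat_lit 204837) (nat_lit 20) .nil)))) .nil))) (.nd (nat_lit 5) 
(.lf (nat_lit 75798) (.g (nat_lit 1956) (.e (nat_lit 1795) (nat_lit 119) (.e (nat_lit 516131) (nat_lit 3) (.e (nat_lit 221212) (nat_lit 22) (.e (nat_lit 196681) (nat_lit 17) (.e (nat_lit 131096) (nat_lit 3) .nil))))) .nil)) 
(.lf (nat_lit 75830) (.g (nat_lit 5018) (.e (nat_lit 1795) (nat_lit 119) (.e (nat_lit 516166) (nat_lit 12) (.e (nat_lit 450588) (nat_lit 10) (.e (nat_lit 573475) (nat_lit 12) (.e (nat_lit 57574) (nat_lit 55) (.e (nat_lit 778465) (nat_lit 11) (.e (nat_lit 24581) (nat_lit 0) .nil))))))) (.g (nat_lit 4) .nil .nil))))) (.nd (nat_lit 4) (.nd (nat_lit 5) 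
(.lf (nat_lit 75790) (.g (nat_lit 4643) (.e (nat_lit 1795) (nat_lit 119) (.e (nat_lit 516131) (nat_lit 3) (.e (nat_lit 221212) (nat_lit 22) (.e (nat_lit 196668) (nat_lit 14) (.e (nat_lit 73747) (nat_lit 3) (.e (nat_lit 516119) (nat_lit 1) (.e (nat_lit 164178) (nat_lit 154) (.e (nat_lit 57348) (nat_lit 0) .nil)))))))) (.g (nat_lit 8) .nil .nil))) 
(.lf (nat_lit 75822) (.g (nat_lit 3826) (.e (nat_lit 1795) (nat_lit 119) (.e (nat_lit 516151) (nat_lit 9) (.e (nat_lit 426286) (nat_lit 10) (.e (nat_lit 434247) (nat_lit 28) .nil)))) .nil))) (.nd (nat_lit 5) 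
(.lf (nat_lit 75806) (.g (nat_lit 1320) (.e (nat_lit 1795) (nat_lit 119) (.e (nat_lit 516131) (nat_lit 3) (.e (nat_lit 221215) (nat_lit 23) (.e (nat_lit 204862) (nat_lit 27) .nil)))) .nil)) 
(.lf (nat_lit 75838) (.g (nat_lit 3458) (.e (nat_lit 1796) (nat_lit 119) (.e (nat_lit 516098) (nat_lit 0) (.e (nat_lit 7587) (nat_lit 406) (.e (nat_lit 65571) (nat_lit 3) (.e (nat_lit 98350) (nat_lit 24) (.e (nat_lit 409617) (nat_lit 10) (.e (nat_lit 5353) (nat_lit 298) (.e (nat_lit 1074) (nat_lit 81) .nil)))))))) (.g (nat_lit 6) .nil .nil)))))))) 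
(.nd (nat_lit 1) (.nd (nat_lit 2) (.nd (nat_lit 3) (.nd (nat_lit 4) (.nd (nat_lit 5) 
(.lf (nat_lit 75777) (.g (nat_lit 2180) (.e (nat_lit 1795) (nat_lit 119) (.e (nat_lit 516129) (nat_lit 3) (.e (nat_lit 221210) (nat_lit 22) (.e (nat_lit 196670) (nat_lit 14) (.e (nat_lit 73746) (nat_lit 3) (.e (nat_lit 516119) (nat_lit 1) (.e (nat_lit 164178) (nat_lit 154) (.e (nat_lit 57347) (nat_lit 0) .nil)))))))) (.g (nat_lit 4) .nil .nil))) 
(.lf (nat_lit 75809) (.g (nat_lit 2404) (.e (nat_lit 1795) (nat_lit 119) (.e (nat_lit 516131) (nat_lit 3) (.e (nat_lit 221215) (nat_lit 23) (.e (nat_lit 204863) (nat_lit 27) (.e (nat_lit 344118) (nat_lit 21) (.e (nat_lit 516119) (nat_lit 1) (.e (nat_lit 164179) (nat_lit 154) (.e (nat_lit 57348) (nat_lit 0) .nil)))))))) (.g (nat_lit 4) .nil .nil)))) (.nd (nat_lit 5) 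
(.lf (nat_lit 75793) (.g (nat_lit 4179) (.e (nat_lit 1795) (nat_lit 119) (.e (nat_lit 516131) (nat_lit 3) (.e (nat_lit 221212) (nat_lit 22) (.e (nat_lit 196670) (nat_lit 14) (.e (nat_lit 73746) (nat_lit 3) (.e (nat_lit 516115) (nat_lit 1) (.e (nat_lit 164178) (nat_lit 154) (.e (nat_lit 57348) (nat_lit 0) .nil)))))))) (.g (nat_lit 8) .nil .nil))) 
(.lf (nat_lit 75825) (.g (nat_lit 4664) (.e (nat_lit 1795) (nat_lit 119) (.e (nat_lit 516166) (nat_lit 12) (.e (nat_lit 450587) (nat_lit 10) (.e (nat_lit 573477) (nat_lit 12) (.e (nat_lit 57574) (nat_lit 55) .nil))))) .nil)))) (.nd (nat_lit 4) (.nd (nat_lit 5) 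
(.lf (nat_lit 75785) (.g (nat_lit 2778) (.e (nat_lit 1795) (nat_lit 119) (.e (nat_lit 516131) (nat_lit 3) (.e (nat_lit 221212) (nat_lit 22) (.e (nat_lit 196668) (nat_lit 14) (.e (nat_lit 73746) (nat_lit 3) (.e (nat_lit 516119) (nat_lit 1) (.e (nat_lit 164176) (nat_lit 154) (.e (nat_lit 57348) (nat_lit 0) .nil)))))))) (.g (nat_lit 5) .nil .nil))) 
(.lf (nat_lit 75817) (.g (nat_lit 1571) (.e (nat_lit 1795) (nat_lit 119) (.e (nat_lit 516150) (nat_lit 9) (.e (nat_lit 426323) (nat_lit 13) (.e (nat_lit 483337) (nat_lit 9) (.e (nat_lit 426100) (nat_lit 1) .nil))))) .nil))) (.nd (nat_lit 5) 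
(.lf (nat_lit 75801) (.g (nat_lit 1999) (.e (nat_lit 1795) (nat_lit 119) (.e (nat_lit 516131) (nat_lit 3) (.e (nat_lit 221212) (nat_lit 22) (.e (nat_lit 196681) (nat_lit 17) (.e (nat_lit 131098) (nat_lit 3) .nil))))) .nil)) 
(.lf (nat_lit 75833) (.g (nat_lit 2765) (.e (nat_lit 1796) (nat_lit 119) (.e (nat_lit 516097) (nat_lit 0) (.e (nat_lit 3605) (nat_lit 225) (.e (nat_lit 769792) (nat_lit 9) (.e (nat_lit 73746) (nat_lit 3) (.e (nat_lit 516174) (nat_lit 14) (.e (nat_lit 466945) (nat_lit 0) .nil))))))) (.g (nat_lit 6) .nil .nil)))))) (.nd (nat_lit 3) (.nd (nat_lit 4) (.nd (nat_lit 5) 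
(.lf (nat_lit 75781) (.g (nat_lit 464) (.e (nat_lit 1795) (nat_lit 119) (.e (nat_lit 516131) (nat_lit 3) (.e (nat_lit 221212) (nat_lit 22) .nil))) .nil)) 
(.lf (nat_lit 75813) (.g (nat_lit 2211) (.e (nat_lit 1795) (nat_lit 119) (.e (nat_lit 516146) (nat_lit 9) (.e (nat_lit 426438) (nat_lit 18) (.e (nat_lit 98384) (nat_lit 32) (.e (nat_lit 475177) (nat_lit 24) .nil))))) .nil))) (.nd (nat_lit 5) 
(.lf (nat_lit 75797) (.g (nat_lit 4123) (.e (nat_lit 1795) (nat_lit 119) (.e (nat_lit 516131) (nat_lit 3) (.e (nat_lit 221212) (nat_lit 22) (.e (nat_lit 196670) (nat_lit 14) (.e (nat_lit 73746) (nat_lit 3) (.e (nat_lit 516119) (nat_lit 1) (.e (nat_lit 164179) (nat_lit 154) (.e (nat_lit 57347) (nat_lit 0) .nil)))))))) (.g (nat_lit 7) .nil .nil))) 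
(.lf (nat_lit 75829) (.g (nat_lit 4993) (.e (nat_lit 1795) (nat_lit 119) (.e (nat_lit 516166) (nat_lit 12) (.e (nat_lit 450588) (nat_lit 10) (.e (nat_lit 573475) (nat_lit 12) (.e (nat_lit 57574) (nat_lit 55) (.e (nat_lit 778464) (nat_lit 11) (.e (nat_lit 24581) (nat_lit 0) .nil))))))) (.g (nat_lit 4) .nil .nil))))) (.nd (nat_lit 4) (.nd (nat_lit 5) 
(.lf (nat_lit 75789) (.g (nat_lit 4270) (.e (nat_lit 1795) (nat_lit 119) (.e (nat_lit 516131) (nat_lit 3) (.e (nat_lit 221212) (nat_lit 22) (.e (nat_lit 196668) (nat_lit 14) (.e (nat_lit 73747) (nat_lit 3) (.e (nat_lit 516119) (nat_lit 1) (.e (nat_lit 164176) (nat_lit 154) (.e (nat_lit 57348) (nat_lit 0) .nil)))))))) (.g (nat_lit 8) .nil .nil))) 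
(.lf (nat_lit 75821) (.g (nat_lit 4063) (.e (nat_lit 1795) (nat_lit 119) (.e (nat_lit 516151) (nat_lit 9) (.e (nat_lit 426286) (nat_lit 10) (.e (nat_lit 434245) (nat_lit 28) .nil)))) .nil))) (.nd (nat_lit 5) 
(.lf (nat_lit 75805) (.g (nat_lit 2927) (.e (nat_lit 1795) (nat_lit 119) (.e (nat_lit 516131) (nat_lit 3) (.e (nat_lit 221215) (nat_lit 23) (.e (nat_lit 204861) (nat_lit 26) (.e (nat_lit 336027) (nat_lit 3) (.e (nat_lit 98333) (nat_lit 18) (.e (nat_lit 164179) (nat_lit 154) (.e (nat_lit 57347) (nat_lit 0) .nil)))))))) (.g (nat_lit 4) .nil .nil))) 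
(.lf (nat_lit 75837) (.g (nat_lit 4482) (.e (nat_lit 1796) (nat_lit 119) (.e (nat_lit 516098) (nat_lit 0) (.e (nat_lit 7065) (nat_lit 377) (.e (nat_lit 1348) (nat_lit 102) (.e (nat_lit 286735) (nat_lit 3) (.e (nat_lit 98367) (nat_lit 27) (.e (nat_lit 434178) (nat_lit 0) (.e (nat_lit 1077) (nat_lit 81) .nil)))))))) (.g (nat_lit 6) .nil .nil))))))) 
(.nd (nat_lit 2) (.nd (nat_lit 3) (.nd (nat_lit 4) (.nd (nat_lit 5) 
(.lf (nat_lit 75779) (.g (nat_lit 2124) (.e (nat_lit 1795) (nat_lit 119) (.e (nat_lit 516131) (nat_lit 3) (.e (nat_lit 221210) (nat_lit 22) (.e (nat_lit 196668) (nat_lit 14) (.e (nat_lit 73747) (nat_lit 3) .nil))))) .nil)) 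
(.lf (nat_lit 75811) (.g (nat_lit 2498) (.e (nat_lit 1795) (nat_lit 119) (.e (nat_lit 516131) (nat_lit 3) (.e (nat_lit 221215) (nat_lit 23) (.e (nat_lit 204880) (nat_lit 32) (.e (nat_lit 385068) (nat_lit 26) .nil))))) .nil))) (.nd (nat_lit 5) 
(.lf (nat_lit 75795) (.g (nat_lit 2885) (.e (nat_lit 1795) (nat_lit 119) (.e (nat_lit 516131) (nat_lit 3) (.e (nat_lit 221212) (nat_lit 22) (.e (nat_lit 196670) (nat_lit 14) (.e (nat_lit 73746) (nat_lit 3) (.e (nat_lit 516118) (nat_lit 1) (.e (nat_lit 164179) (nat_lit 154) (.e (nat_lit 57348) (nat_lit 0) .nil)))))))) (.g (nat_lit 6) .nil .nil))) 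
(.lf (nat_lit 75827) (.g (nat_lit 4496) (.e (nat_lit 1795) (nat_lit 119) (.e (nat_lit 516166) (nat_lit 12) (.e (nat_lit 450587) (nat_lit 10) (.e (nat_lit 573478) (nat_lit 12) (.e (nat_lit 57574) (nat_lit 55) .nil))))) .nil)))) (.nd (nat_lit 4) (.nd (nat_lit 5) 
(.lf (nat_lit 75787) (.g (nat_lit 3302) (.e (nat_lit 1795) (nat_lit 119) (.e (nat_lit 516131) (nat_lit 3) (.e (nat_lit 221212) (nat_lit 22) (.e (nat_lit 196668) (nat_lit 14) (.e (nat_lit 73747) (nat_lit 3) (.e (nat_lit 516115) (nat_lit 1) (.e (nat_lit 164177) (nat_lit 154) (.e (nat_lit 57348) (nat_lit 0) .nil)))))))) (.g (nat_lit 6) .nil .nil))) 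
(.lf (nat_lit 75819) (.g (nat_lit 3006) (.e (nat_lit 1795) (nat_lit 119) (.e (nat_lit 516151) (nat_lit 9) (.e (nat_lit 426211) (nat_lit 9) (.e (nat_lit 426125) (nat_lit 2) .nil)))) .nil))) (.nd (nat_lit 5) 
(.lf (nat_lit 75803) (.g (nat_lit 2065) (.e (nat_lit 1795) (nat_lit 119) (.e (nat_lit 516131) (nat_lit 3) (.e (nat_lit 221215) (nat_lit 23) (.e (nat_lit 204852) (nat_lit 26) (.e (nat_lit 336326) (nat_lit 18) .nil))))) .nil)) 
(.lf (nat_lit 75835) (.g (nat_lit 524) (.e (nat_lit 1796) (nat_lit 119) (.e (nat_lit 516097) (nat_lit 0) (.e (nat_lit 3763) (nat_lit 229) .nil))) .nil))))) (.nd (nat_lit 3) (.nd (nat_lit 4) (.nd (nat_lit 5) 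
(.lf (nat_lit 75783) (.g (nat_lit 1196) (.e (nat_lit 1795) (nat_lit 119) (.e (nat_lit 516131) (nat_lit 3) (.e (nat_lit 221212) (nat_lit 22) (.e (nat_lit 196665) (nat_lit 13) .nil)))) .nil)) 
(.lf (nat_lit 75815) (.g (nat_lit 1874) (.e (nat_lit 1795) (nat_lit 119) (.e (nat_lit 516150) (nat_lit 9) (.e (nat_lit 426131) (nat_lit 3) (.e (nat_lit 204838) (nat_lit 20) .nil)))) .nil))) (.nd (nat_lit 5) 
(.lf (nat_lit 75799) (.g (nat_lit 2011) (.e (nat_lit 1795) (nat_lit 119) (.e (nat_lit 516131) (nat_lit 3) (.e (nat_lit 221212) (nat_lit 22) (.e (nat_lit 196681) (nat_lit 17) (.e (nat_lit 131096) (nat_lit 3) (.e (nat_lit 98333) (nat_lit 18) (.e (nat_lit 164177) (nat_lit 154) (.e (nat_lit 57348) (nat_lit 0) .nil)))))))) (.g (nat_lit 4) .nil .nil))) 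
(.lf (nat_lit 75831) (.g (nat_lit 1195) (.e (nat_lit 1796) (nat_lit 119) (.e (nat_lit 516097) (nat_lit 0) (.e (nat_lit 3605) (nat_lit 225) (.e (nat_lit 769792) (nat_lit 9) .nil)))) .nil)))) (.nd (nat_lit 4) (.nd (nat_lit 5) 
(.lf (nat_lit 75791) (.g (nat_lit 4408) (.e (nat_lit 1795) (nat_lit 119) (.e (nat_lit 516131) (nat_lit 3) (.e (nat_lit 221212) (nat_lit 22) (.e (nat_lit 196668) (nat_lit 14) (.e (nat_lit 73747) (nat_lit 3) (.e (nat_lit 516119) (nat_lit 1) (.e (nat_lit 164179) (nat_lit 154) (.e (nat_lit 57348) (nat_lit 0) .nil)))))))) (.g (nat_lit 7) .nil .nil))) 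
(.lf (nat_lit 75823) (.g (nat_lit 868) (.e (nat_lit 1795) (nat_lit 119) (.e (nat_lit 516166) (nat_lit 12) (.e (nat_lit 450587) (nat_lit 10) .nil))) .nil))) (.nd (nat_lit 5) 
(.lf (nat_lit 75807) (.g (nat_lit 2295) (.e (nat_lit 1795) (nat_lit 119) (.e (nat_lit 516131) (nat_lit 3) (.e (nat_lit 221215) (nat_lit 23) (.e (nat_lit 204863) (nat_lit 27) (.e (nat_lit 344118) (nat_lit 21) .nil))))) .nil)) 
(.lf (nat_lit 75839) (.g (nat_lit 3402) (.e (nat_lit 1796) (nat_lit 119) (.e (nat_lit 516098) (nat_lit 0) (.e (nat_lit 7591) (nat_lit 407) (.e (nat_lit 73747) (nat_lit 3) (.e (nat_lit 516139) (nat_lit 7) (.e (nat_lit 409617) (nat_lit 10) (.e (nat_lit 5353) (nat_lit 298) (.e (nat_lit 1077) (nat_lit 81) .nil)))))))) (.g (nat_lit 6) .nil .nil)))))))))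

noncomputable def tv1026 : DT := (.nd (nat_lit 0) (.nd (nat_lit 1) (.nd (nat_lit 2) (.nd (nat_lit 3) (.nd (nat_lit 4) (.nd (nat_lit 5) 
(.lf (nat_lit 75840) (.g (nat_lit 2964) (.e (nat_lit 1796) (nat_lit 119) (.e (nat_lit 516098) (nat_lit 0) (.e (nat_lit 7591) (nat_lit 407) (.e (nat_lit 73748) (nat_lit 3) (.e (nat_lit 516139) (nat_lit 7) (.e (nat_lit 409617) (nat_lit 10) (.e (nat_lit 5353) (nat_lit 298) (.e (nat_lit 1077) (nat_lit 81) .nil)))))))) (.g (nat_lit 6) .nil .nil))) 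
(.lf (nat_lit 75872) (.g (nat_lit 2178) (.e (nat_lit 1796) (nat_lit 119) (.e (nat_lit 516115) (nat_lit 1) (.e (nat_lit 164399) (nat_lit 256) (.e (nat_lit 57374) (nat_lit 2) (.e (nat_lit 90174) (nat_lit 14) .nil))))) .nil))) (.nd (nat_lit 5) 
(.lf (nat_lit 75856) (.g (nat_lit 2458) (.e (nat_lit 1796) (nat_lit 119) (.e (nat_lit 516115) (nat_lit 1) (.e (nat_lit 164398) (nat_lit 256) (.e (nat_lit 57379) (nat_lit 3) (.e (nat_lit 98366) (nat_lit 27) .nil))))) .nil)) 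
(.lf (nat_lit 75888) (.g (nat_lit 3723) (.e (nat_lit 1796) (nat_lit 119) (.e (nat_lit 516116) (nat_lit 1) (.e (nat_lit 164329) (nat_lit 230) (.e (nat_lit 163850) (nat_lit 0) (.e (nat_lit 3252) (nat_lit 197) (.e (nat_lit 532515) (nat_lit 3) (.e (nat_lit 114716) (nat_lit 22) (.e (nat_lit 90169) (nat_lit 13) (.e (nat_lit 172132) (nat_lit 15) .nil))))))))) (.g (nat_lit 7) .nil .nil))))) 
(.nd (nat_lit 4) (.nd (nat_lit 5) 
(.lf (nat_lit 75848) (.g (nat_lit 2585) (.e (nat_lit 1796) (nat_lit 119) (.e (nat_lit 516115) (nat_lit 1) (.e (nat_lit 164325) (nat_lit 230) (.e (nat_lit 163902) (nat_lit 12) .nil)))) .nil)) 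
(.lf (nat_lit 75880) (.g (nat_lit 2733) (.e (nat_lit 1796) (nat_lit 119) (.e (nat_lit 516115) (nat_lit 1) (.e (nat_lit 164399) (nat_lit 256) (.e (nat_lit 57378) (nat_lit 3) (.e (nat_lit 98366) (nat_lit 27) (.e (nat_lit 434231) (nat_lit 23) (.e (nat_lit 532513) (nat_lit 3) (.e (nat_lit 114706) (nat_lit 20) .nil)))))))) (.g (nat_lit 4) .nil .nil)))) (.nd (nat_lit 5) 
(.lf (nat_lit 75864) (.g (nat_lit 2319) (.e (nat_lit 1796) (nat_lit 119) (.e (nat_lit 516115) (nat_lit 1) (.e (nat_lit 164399) (nat_lit 256) (.e (nat_lit 57372) (nat_lit 2) (.e (nat_lit 90174) (nat_lit 14) (.e (nat_lit 180243) (nat_lit 5) (.e (nat_lit 532515) (nat_lit 3) (.e (nat_lit 114706) (nat_lit 20) .nil)))))))) (.g (nat_lit 4) .nil .nil))) 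
(.lf (nat_lit 75896) (.g (nat_lit 3384) (.e (nat_lit 1796) (nat_lit 119) (.e (nat_lit 516116) (nat_lit 1) (.e (nat_lit 164330) (nat_lit 230) (.e (nat_lit 163902) (nat_lit 12) (.e (nat_lit 426566) (nat_lit 34) (.e (nat_lit 393273) (nat_lit 23) (.e (nat_lit 426392) (nat_lit 15) .nil))))))) (.g (nat_lit 5) .nil .nil)))))) (.nd (nat_lit 3) (.nd (nat_lit 4) (.nd (nat_lit 5) 
(.lf (nat_lit 75844) (.g (nat_lit 3829) (.e (nat_lit 1796) (nat_lit 119) (.e (nat_lit 516102) (nat_lit 0) (.e (nat_lit 6989) (nat_lit 377) (.e (nat_lit 2777) (nat_lit 178) (.e (nat_lit 286735) (nat_lit 3) (.e (nat_lit 98350) (nat_lit 24) (.e (nat_lit 409617) (nat_lit 10) (.e (nat_lit 5353) (nat_lit 298) (.e (nat_lit 1077) (nat_lit 81) .nil))))))))) (.g (nat_lit 6) .nil .nil))) 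
(.lf (nat_lit 75876) (.g (nat_lit 2199) (.e (nat_lit 1796) (nat_lit 119) (.e (nat_lit 516115) (nat_lit 1) (.e (nat_lit 164399) (nat_lit 256) (.e (nat_lit 57375) (nat_lit 2) (.e (nat_lit 90174) (nat_lit 14) (.e (nat_lit 180243) (nat_lit 5) (.e (nat_lit 532511) (nat_lit 2) (.e (nat_lit 106526) (nat_lit 9) (.e (nat_lit 1074) (nat_lit 81) .nil))))))))) (.g (nat_lit 4) .nil .nil)))) (.nd (nat_lit 5) 
(.lf (nat_lit 75860) (.g (nat_lit 3374) (.e (nat_lit 1796) (nat_lit 119) (.e (nat_lit 516115) (nat_lit 1) (.e (nat_lit 164399) (nat_lit 256) (.e (nat_lit 57372) (nat_lit 2) (.e (nat_lit 90172) (nat_lit 14) (.e (nat_lit 180243) (nat_lit 5) (.e (nat_lit 532508) (nat_lit 2) (.e (nat_lit 106526) (nat_lit 9) (.e (nat_lit 1074) (nat_lit 81) .nil))))))))) (.g (nat_lit 5) .nil .nil))) 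
(.lf (nat_lit 75892) (.g (nat_lit 2219) (.e (nat_lit 1796) (nat_lit 119) (.e (nat_lit 516116) (nat_lit 1) (.e (nat_lit 164329) (nat_lit 230) (.e (nat_lit 163902) (nat_lit 12) (.e (nat_lit 426568) (nat_lit 34) (.e (nat_lit 393274) (nat_lit 23) (.e (nat_lit 426394) (nat_lit 15) .nil))))))) (.g (nat_lit 4) .nil .nil))))) (.nd (nat_lit 4) (.nd (nat_lit 5) 
(.lf (nat_lit 75852) (.g (nat_lit 2854) (.e (nat_lit 1796) (nat_lit 119) (.e (nat_lit 516115) (nat_lit 1) (.e (nat_lit 164398) (nat_lit 256) (.e (nat_lit 57373) (nat_lit 2) (.e (nat_lit 90172) (nat_lit 14) (.e (nat_lit 180244) (nat_lit 5) (.e (nat_lit 532513) (nat_lit 3) (.e (nat_lit 114706) (nat_lit 20) .nil)))))))) (.g (nat_lit 4) .nil .nil))) 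
(.lf (nat_lit 75884) (.g (nat_lit 2741) (.e (nat_lit 1796) (nat_lit 119) (.e (nat_lit 516115) (nat_lit 1) (.e (nat_lit 164403) (nat_lit 256) (.e (nat_lit 57371) (nat_lit 2) (.e (nat_lit 90174) (nat_lit 14) (.e (nat_lit 180243) (nat_lit 5) (.e (nat_lit 532513) (nat_lit 3) (.e (nat_lit 114706) (nat_lit 20) .nil)))))))) (.g (nat_lit 4) .nil .nil)))) (.nd (nat_lit 5) 
(.lf (nat_lit 75868) (.g (nat_lit 2254) (.e (nat_lit 1796) (nat_lit 119) (.e (nat_lit 516115) (nat_lit 1) (.e (nat_lit 164399) (nat_lit 256) (.e (nat_lit 57373) (nat_lit 2) (.e (nat_lit 90172) (nat_lit 14) (.e (nat_lit 180244) (nat_lit 5) (.e (nat_lit 532513) (nat_lit 3) (.e (nat_lit 122624) (nat_lit 20) .nil)))))))) (.g (nat_lit 4) .nil .nil))) 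
(.lf (nat_lit 75900) (.g (nat_lit 2539) (.e (nat_lit 1796) (nat_lit 119) (.e (nat_lit 516117) (nat_lit 1) (.e (nat_lit 164329) (nat_lit 230) (.e (nat_lit 163902) (nat_lit 12) (.e (nat_lit 426568) (nat_lit 34) (.e (nat_lit 393275) (nat_lit 23) (.e (nat_lit 426394) (nat_lit 15) .nil))))))) (.g (nat_lit 4) .nil .nil))))))) (.nd (nat_lit 2) (.nd (nat_lit 3) (.nd (nat_lit 4) (.nd (nat_lit 5) 
(.lf (nat_lit 75842) (.g (nat_lit 2473) (.e (nat_lit 1796) (nat_lit 119) (.e (nat_lit 516102) (nat_lit 0) (.e (nat_lit 6989) (nat_lit 377) (.e (nat_lit 2777) (nat_lit 178) (.e (nat_lit 286735) (nat_lit 3) .nil))))) .nil)) 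
(.lf (nat_lit 75874) (.g (nat_lit 3845) (.e (nat_lit 1796) (nat_lit 119) (.e (nat_lit 516115) (nat_lit 1) (.e (nat_lit 164399) (nat_lit 256) (.e (nat_lit 57375) (nat_lit 2) (.e (nat_lit 90172) (nat_lit 14) (.e (nat_lit 180244) (nat_lit 5) (.e (nat_lit 532513) (nat_lit 3) (.e (nat_lit 114706) (nat_lit 20) .nil)))))))) (.g (nat_lit 6) .nil .nil)))) (.nd (nat_lit 5) 
(.lf (nat_lit 75858) (.g (nat_lit 2609) (.e (nat_lit 1796) (nat_lit 119) (.e (nat_lit 516115) (nat_lit 1) (.e (nat_lit 164399) (nat_lit 256) (.e (nat_lit 57371) (nat_lit 2) (.e (nat_lit 90174) (nat_lit 14) (.e (nat_lit 180243) (nat_lit 5) (.e (nat_lit 532513) (nat_lit 3) (.e (nat_lit 114706) (nat_lit 20) .nil)))))))) (.g (nat_lit 4) .nil .nil))) 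
(.lf (nat_lit 75890) (.g (nat_lit 3384) (.e (nat_lit 1796) (nat_lit 119) (.e (nat_lit 516116) (nat_lit 1) (.e (nat_lit 164329) (nat_lit 230) (.e (nat_lit 163850) (nat_lit 0) (.e (nat_lit 3304) (nat_lit 202) (.e (nat_lit 573489) (nat_lit 14) (.e (nat_lit 73755) (nat_lit 8) (.e (nat_lit 557097) (nat_lit 13) (.e (nat_lit 172132) (nat_lit 15) .nil))))))))) (.g (nat_lit 5) .nil .nil))))) 
(.nd (nat_lit 4) (.nd (nat_lit 5) 
(.lf (nat_lit 75850) (.g (nat_lit 2716) (.e (nat_lit 1796) (nat_lit 119) (.e (nat_lit 516115) (nat_lit 1) (.e (nat_lit 164398) (nat_lit 256) (.e (nat_lit 57372) (nat_lit 2) (.e (nat_lit 90172) (nat_lit 14) (.e (nat_lit 180243) (nat_lit 5) (.e (nat_lit 532513) (nat_lit 3) (.e (nat_lit 114706) (nat_lit 20) .nil)))))))) (.g (nat_lit 4) .nil .nil))) 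
(.lf (nat_lit 75882) (.g (nat_lit 2354) (.e (nat_lit 1796) (nat_lit 119) (.e (nat_lit 516115) (nat_lit 1) (.e (nat_lit 164403) (nat_lit 256) (.e (nat_lit 57371) (nat_lit 2) (.e (nat_lit 90172) (nat_lit 14) .nil))))) .nil))) (.nd (nat_lit 5) 
(.lf (nat_lit 75866) (.g (nat_lit 3528) (.e (nat_lit 1796) (nat_lit 119) (.e (nat_lit 516115) (nat_lit 1) (.e (nat_lit 164399) (nat_lit 256) (.e (nat_lit 57373) (nat_lit 2) (.e (nat_lit 90172) (nat_lit 14) (.e (nat_lit 180243) (nat_lit 5) (.e (nat_lit 532513) (nat_lit 3) (.e (nat_lit 114706) (nat_lit 20) .nil)))))))) (.g (nat_lit 5) .nil .nil))) 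
(.lf (nat_lit 75898) (.g (nat_lit 2858) (.e (nat_lit 1796) (nat_lit 119) (.e (nat_lit 516117) (nat_lit 1) (.e (nat_lit 164329) (nat_lit 230) (.e (nat_lit 163850) (nat_lit 0) (.e (nat_lit 3252) (nat_lit 197) (.e (nat_lit 532515) (nat_lit 3) (.e (nat_lit 114716) (nat_lit 22) (.e (nat_lit 90169) (nat_lit 13) (.e (nat_lit 172132) (nat_lit 15) .nil))))))))) (.g (nat_lit 4) .nil .nil)))))) 
(.nd (nat_lit 3) (.nd (nat_lit 4) (.nd (nat_lit 5) 
(.lf (nat_lit 75846) (.g (nat_lit 847) (.e (nat_lit 1796) (nat_lit 119) (.e (nat_lit 516106) (nat_lit 0) (.e (nat_lit 3721) (nat_lit 227) .nil))) .nil)) 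
(.lf (nat_lit 75878) (.g (nat_lit 1947) (.e (nat_lit 1796) (nat_lit 119) (.e (nat_lit 516115) (nat_lit 1) (.e (nat_lit 164399) (nat_lit 256) (.e (nat_lit 57375) (nat_lit 2) (.e (nat_lit 90174) (nat_lit 14) (.e (nat_lit 180243) (nat_lit 5) (.e (nat_lit 532515) (nat_lit 3) (.e (nat_lit 114706) (nat_lit 20) .nil)))))))) (.g (nat_lit 4) .nil .nil)))) (.nd (nat_lit 5) 
(.lf (nat_lit 75862) (.g (nat_lit 2175) (.e (nat_lit 1796) (nat_lit 119) (.e (nat_lit 516115) (nat_lit 1) (.e (nat_lit 164399) (nat_lit 256) (.e (nat_lit 57372) (nat_lit 2) (.e (nat_lit 90172) (nat_lit 14) (.e (nat_lit 180244) (nat_lit 5) (.e (nat_lit 532513) (nat_lit 3) (.e (nat_lit 122624) (nat_lit 20) .nil)))))))) (.g (nat_lit 4) .nil .nil))) 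
(.lf (nat_lit 75894) (.g (nat_lit 2713) (.e (nat_lit 1796) (nat_lit 119) (.e (nat_lit 516116) (nat_lit 1) (.e (nat_lit 164329) (nat_lit 230) (.e (nat_lit 163902) (nat_lit 12) (.e (nat_lit 426568) (nat_lit 34) (.e (nat_lit 393279) (nat_lit 23) (.e (nat_lit 426356) (nat_lit 15) .nil))))))) (.g (nat_lit 5) .nil .nil))))) (.nd (nat_lit 4) (.nd (nat_lit 5) 
(.lf (nat_lit 75854) (.g (nat_lit 3701) (.e (nat_lit 1796) (nat_lit 119) (.e (nat_lit 516115) (nat_lit 1) (.e (nat_lit 164398) (nat_lit 256) (.e (nat_lit 57373) (nat_lit 2) (.e (nat_lit 90174) (nat_lit 14) (.e (nat_lit 180243) (nat_lit 5) (.e (nat_lit 532513) (nat_lit 3) (.e (nat_lit 114706) (nat_lit 20) .nil)))))))) (.g (nat_lit 6) .nil .nil))) 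
(.lf (nat_lit 75886) (.g (nat_lit 3904) (.e (nat_lit 1796) (nat_lit 119) (.e (nat_lit 516115) (nat_lit 1) (.e (nat_lit 164403) (nat_lit 256) (.e (nat_lit 57373) (nat_lit 2) (.e (nat_lit 90174) (nat_lit 14) (.e (nat_lit 180243) (nat_lit 5) (.e (nat_lit 532513) (nat_lit 3) (.e (nat_lit 114706) (nat_lit 20) .nil)))))))) (.g (nat_lit 5) .nil .nil)))) (.nd (nat_lit 5) 
(.lf (nat_lit 75870) (.g (nat_lit 2955) (.e (nat_lit 1796) (nat_lit 119) (.e (nat_lit 516115) (nat_lit 1) (.e (nat_lit 164399) (nat_lit 256) (.e (nat_lit 57373) (nat_lit 2) (.e (nat_lit 90174) (nat_lit 14) (.e (nat_lit 180243) (nat_lit 5) (.e (nat_lit 532513) (nat_lit 3) (.e (nat_lit 122624) (nat_lit 20) .nil)))))))) (.g (nat_lit 5) .nil .nil))) 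
(.lf (nat_lit 75902) (.g (nat_lit 2158) (.e (nat_lit 1796) (nat_lit 119) (.e (nat_lit 516119) (nat_lit 1) (.e (nat_lit 164322) (nat_lit 230) (.e (nat_lit 163902) (nat_lit 12) (.e (nat_lit 426479) (nat_lit 27) .nil))))) .nil))))))) (.nd (nat_lit 1) (.nd (nat_lit 2) (.nd (nat_lit 3) (.nd (nat_lit 4) (.nd (nat_lit 5) 
(.lf (nat_lit 75841) (.g (nat_lit 1036) (.e (nat_lit 1796) (nat_lit 119) (.e (nat_lit 516102) (nat_lit 0) (.e (nat_lit 6989) (nat_lit 377) (.e (nat_lit 1361) (nat_lit 102) .nil)))) .nil)) 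
(.lf (nat_lit 75873) (.g (nat_lit 3321) (.e (nat_lit 1796) (nat_lit 119) (.e (nat_lit 516115) (nat_lit 1) (.e (nat_lit 164399) (nat_lit 256) (.e (nat_lit 57375) (nat_lit 2) (.e (nat_lit 90172) (nat_lit 14) (.e (nat_lit 180243) (nat_lit 5) (.e (nat_lit 532513) (nat_lit 3) (.e (nat_lit 114706) (nat_lit 20) .nil)))))))) (.g (nat_lit 5) .nil .nil)))) (.nd (nat_lit 5) 
(.lf (nat_lit 75857) (.g (nat_lit 2766) (.e (nat_lit 1796) (nat_lit 119) (.e (nat_lit 516115) (nat_lit 1) (.e (nat_lit 164399) (nat_lit 256) (.e (nat_lit 57370) (nat_lit 2) (.e (nat_lit 90174) (nat_lit 14) (.e (nat_lit 180243) (nat_lit 5) (.e (nat_lit 532513) (nat_lit 3) (.e (nat_lit 114706) (nat_lit 20) .nil)))))))) (.g (nat_lit 5) .nil .nil))) 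
(.lf (nat_lit 75889) (.g (nat_lit 2609) (.e (nat_lit 1796) (nat_lit 119) (.e (nat_lit 516116) (nat_lit 1) (.e (nat_lit 164329) (nat_lit 230) (.e (nat_lit 163850) (nat_lit 0) (.e (nat_lit 3304) (nat_lit 202) (.e (nat_lit 573489) (nat_lit 14) (.e (nat_lit 73755) (nat_lit 8) (.e (nat_lit 557096) (nat_lit 13) (.e (nat_lit 172132) (nat_lit 15) .nil))))))))) (.g (nat_lit 4) .nil .nil))))) 
(.nd (nat_lit 4) (.nd (nat_lit 5) 
(.lf (nat_lit 75849) (.g (nat_lit 3006) (.e (nat_lit 1796) (nat_lit 119) (.e (nat_lit 516115) (nat_lit 1) (.e (nat_lit 164325) (nat_lit 230) (.e (nat_lit 163907) (nat_lit 12) (.e (nat_lit 433920) (nat_lit 34) .nil))))) .nil)) 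
(.lf (nat_lit 75881) (.g (nat_lit 2165) (.e (nat_lit 1796) (nat_lit 119) (.e (nat_lit 516115) (nat_lit 1) (.e (nat_lit 164399) (nat_lit 256) (.e (nat_lit 57379) (nat_lit 3) (.e (nat_lit 98367) (nat_lit 27) (.e (nat_lit 434231) (nat_lit 23) (.e (nat_lit 532514) (nat_lit 3) (.e (nat_lit 114706) (nat_lit 20) .nil)))))))) (.g (nat_lit 4) .nil .nil)))) (.nd (nat_lit 5) 
(.lf (nat_lit 75865) (.g (nat_lit 1979) (.e (nat_lit 1796) (nat_lit 119) (.e (nat_lit 516115) (nat_lit 1) (.e (nat_lit 164399) (nat_lit 256) (.e (nat_lit 57373) (nat_lit 2) (.e (nat_lit 90170) (nat_lit 13) (.e (nat_lit 172065) (nat_lit 3) (.e (nat_lit 204837) (nat_lit 20) (.e (nat_lit 114706) (nat_lit 20) .nil)))))))) (.g (nat_lit 4) .nil .nil))) 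
(.lf (nat_lit 75897) (.g (nat_lit 2745) (.e (nat_lit 1796) (nat_lit 119) (.e (nat_lit 516116) (nat_lit 1) (.e (nat_lit 164332) (nat_lit 230) (.e (nat_lit 163902) (nat_lit 12) (.e (nat_lit 426566) (nat_lit 34) (.e (nat_lit 393273) (nat_lit 23) (.e (nat_lit 426392) (nat_lit 15) .nil))))))) (.g (nat_lit 5) .nil .nil)))))) (.nd (nat_lit 3) (.nd (nat_lit 4) (.nd (nat_lit 5) 
(.lf (nat_lit 75845) (.g (nat_lit 850) (.e (nat_lit 1796) (nat_lit 119) (.e (nat_lit 516106) (nat_lit 0) (.e (nat_lit 3711) (nat_lit 227) .nil))) .nil)) 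
(.lf (nat_lit 75877) (.g (nat_lit 3498) (.e (nat_lit 1796) (nat_lit 119) (.e (nat_lit 516115) (nat_lit 1) (.e (nat_lit 164399) (nat_lit 256) (.e (nat_lit 57375) (nat_lit 2) (.e (nat_lit 90174) (nat_lit 14) (.e (nat_lit 180243) (nat_lit 5) (.e (nat_lit 532513) (nat_lit 3) (.e (nat_lit 114706) (nat_lit 20) .nil)))))))) (.g (nat_lit 6) .nil .nil)))) (.nd (nat_lit 5) 
(.lf (nat_lit 75861) (.g (nat_lit 2187) (.e (nat_lit 1796) (nat_lit 119) (.e (nat_lit 516115) (nat_lit 1) (.e (nat_lit 164399) (nat_lit 256) (.e (nat_lit 57372) (nat_lit 2) (.e (nat_lit 90172) (nat_lit 14) (.e (nat_lit 180244) (nat_lit 5) (.e (nat_lit 532508) (nat_lit 2) (.e (nat_lit 106517) (nat_lit 9) (.e (nat_lit 1074) (nat_lit 81) .nil))))))))) (.g (nat_lit 4) .nil .nil))) 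
(.lf (nat_lit 75893) (.g (nat_lit 3658) (.e (nat_lit 1796) (nat_lit 119) (.e (nat_lit 516116) (nat_lit 1) (.e (nat_lit 164329) (nat_lit 230) (.e (nat_lit 163902) (nat_lit 12) (.e (nat_lit 426568) (nat_lit 34) (.e (nat_lit 393275) (nat_lit 23) (.e (nat_lit 426394) (nat_lit 15) .nil))))))) (.g (nat_lit 6) .nil .nil))))) (.nd (nat_lit 4) (.nd (nat_lit 5) 
(.lf (nat_lit 75853) (.g (nat_lit 2456) (.e (nat_lit 1796) (nat_lit 119) (.e (nat_lit 516115) (nat_lit 1) (.e (nat_lit 164398) (nat_lit 256) (.e (nat_lit 57373) (nat_lit 2) (.e (nat_lit 90174) (nat_lit 14) (.e (nat_lit 180243) (nat_lit 5) (.e (nat_lit 532511) (nat_lit 2) (.e (nat_lit 106526) (nat_lit 9) (.e (nat_lit 1074) (nat_lit 81) .nil))))))))) (.g (nat_lit 4) .nil .nil))) 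
(.lf (nat_lit 75885) (.g (nat_lit 3523) (.e (nat_lit 1796) (nat_lit 119) (.e (nat_lit 516115) (nat_lit 1) (.e (nat_lit 164403) (nat_lit 256) (.e (nat_lit 57373) (nat_lit 2) (.e (nat_lit 90172) (nat_lit 14) (.e (nat_lit 180244) (nat_lit 5) (.e (nat_lit 532513) (nat_lit 3) (.e (nat_lit 114706) (nat_lit 20) .nil)))))))) (.g (nat_lit 4) .nil .nil)))) (.nd (nat_lit 5) 
(.lf (nat_lit 75869) (.g (nat_lit 2858) (.e (nat_lit 1796) (nat_lit 119) (.e (nat_lit 516115) (nat_lit 1) (.e (nat_lit 164399) (nat_lit 256) (.e (nat_lit 57373) (nat_lit 2) (.e (nat_lit 90172) (nat_lit 14) (.e (nat_lit 180244) (nat_lit 5) (.e (nat_lit 532515) (nat_lit 3) (.e (nat_lit 114706) (nat_lit 20) .nil)))))))) (.g (nat_lit 5) .nil .nil))) 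
(.lf (nat_lit 75901) (.g (nat_lit 683) (.e (nat_lit 1796) (nat_lit 119) (.e (nat_lit 516119) (nat_lit 1) (.e (nat_lit 164322) (nat_lit 230) .nil))) .nil)))))) (.nd (nat_lit 2) (.nd (nat_lit 3) (.nd (nat_lit 4) (.nd (nat_lit 5) 
(.lf (nat_lit 75843) (.g (nat_lit 3168) (.e (nat_lit 1796) (nat_lit 119) (.e (nat_lit 516102) (nat_lit 0) (.e (nat_lit 6989) (nat_lit 377) (.e (nat_lit 2777) (nat_lit 178) (.e (nat_lit 286735) (nat_lit 3) (.e (nat_lit 98350) (nat_lit 24) (.e (nat_lit 409617) (nat_lit 10) (.e (nat_lit 5353) (nat_lit 298) (.e (nat_lit 1074) (nat_lit 81) .nil))))))))) (.g (nat_lit 5) .nil .nil))) 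
(.lf (nat_lit 75875) (.g (nat_lit 1922) (.e (nat_lit 1796) (nat_lit 119) (.e (nat_lit 516115) (nat_lit 1) (.e (nat_lit 164399) (nat_lit 256) (.e (nat_lit 57375) (nat_lit 2) (.e (nat_lit 90174) (nat_lit 14) .nil))))) .nil))) (.nd (nat_lit 5) 
(.lf (nat_lit 75859) (.g (nat_lit 2398) (.e (nat_lit 1796) (nat_lit 119) (.e (nat_lit 516115) (nat_lit 1) (.e (nat_lit 164399) (nat_lit 256) (.e (nat_lit 57372) (nat_lit 2) (.e (nat_lit 90167) (nat_lit 13) (.e (nat_lit 172067) (nat_lit 3) (.e (nat_lit 204838) (nat_lit 20) (.e (nat_lit 114706) (nat_lit 20) .nil)))))))) (.g (nat_lit 4) .nil .nil))) 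
(.lf (nat_lit 75891) (.g (nat_lit 2143) (.e (nat_lit 1796) (nat_lit 119) (.e (nat_lit 516116) (nat_lit 1) (.e (nat_lit 164329) (nat_lit 230) (.e (nat_lit 163902) (nat_lit 12) (.e (nat_lit 426568) (nat_lit 34) .nil))))) .nil)))) (.nd (nat_lit 4) (.nd (nat_lit 5) 
(.lf (nat_lit 75851) (.g (nat_lit 2798) (.e (nat_lit 1796) (nat_lit 119) (.e (nat_lit 516115) (nat_lit 1) (.e (nat_lit 164398) (nat_lit 256) (.e (nat_lit 57372) (nat_lit 2) (.e (nat_lit 90172) (nat_lit 14) (.e (nat_lit 180244) (nat_lit 5) (.e (nat_lit 532513) (nat_lit 3) (.e (nat_lit 114706) (nat_lit 20) .nil)))))))) (.g (nat_lit 4) .nil .nil))) 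
(.lf (nat_lit 75883) (.g (nat_lit 2390) (.e (nat_lit 1796) (nat_lit 119) (.e (nat_lit 516115) (nat_lit 1) (.e (nat_lit 164403) (nat_lit 256) (.e (nat_lit 57371) (nat_lit 2) (.e (nat_lit 90174) (nat_lit 14) .nil))))) .nil))) (.nd (nat_lit 5) 
(.lf (nat_lit 75867) (.g (nat_lit 2188) (.e (nat_lit 1796) (nat_lit 119) (.e (nat_lit 516115) (nat_lit 1) (.e (nat_lit 164399) (nat_lit 256) (.e (nat_lit 57373) (nat_lit 2) (.e (nat_lit 90172) (nat_lit 14) (.e (nat_lit 180244) (nat_lit 5) (.e (nat_lit 532508) (nat_lit 2) (.e (nat_lit 106517) (nat_lit 9) (.e (nat_lit 1074) (nat_lit 81) .nil))))))))) (.g (nat_lit 4) .nil .nil))) 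
(.lf (nat_lit 75899) (.g (nat_lit 1781) (.e (nat_lit 1796) (nat_lit 119) (.e (nat_lit 516117) (nat_lit 1) (.e (nat_lit 164329) (nat_lit 230) (.e (nat_lit 163902) (nat_lit 12) .nil)))) .nil))))) (.nd (nat_lit 3) (.nd (nat_lit 4) (.nd (nat_lit 5) 
(.lf (nat_lit 75847) (.g (nat_lit 2511) (.e (nat_lit 1796) (nat_lit 119) (.e (nat_lit 516115) (nat_lit 1) (.e (nat_lit 164325) (nat_lit 230) (.e (nat_lit 163901) (nat_lit 12) .nil)))) .nil)) 
(.lf (nat_lit 75879) (.g (nat_lit 1799) (.e (nat_lit 1796) (nat_lit 119) (.e (nat_lit 516115) (nat_lit 1) (.e (nat_lit 164399) (nat_lit 256) (.e (nat_lit 57378) (nat_lit 3) (.e (nat_lit 98358) (nat_lit 26) .nil))))) .nil))) (.nd (nat_lit 5) 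
(.lf (nat_lit 75863) (.g (nat_lit 2185) (.e (nat_lit 1796) (nat_lit 119) (.e (nat_lit 516115) (nat_lit 1) (.e (nat_lit 164399) (nat_lit 256) (.e (nat_lit 57372) (nat_lit 2) (.e (nat_lit 90174) (nat_lit 14) (.e (nat_lit 180243) (nat_lit 5) (.e (nat_lit 532513) (nat_lit 3) (.e (nat_lit 122624) (nat_lit 20) .nil)))))))) (.g (nat_lit 4) .nil .nil))) 
(.lf (nat_lit 75895) (.g (nat_lit 3344) (.e (nat_lit 1796) (nat_lit 119) (.e (nat_lit 516116) (nat_lit 1) (.e (nat_lit 164329) (nat_lit 230) (.e (nat_lit 163902) (nat_lit 12) (.e (nat_lit 426568) (nat_lit 34) (.e (nat_lit 393281) (nat_lit 23) (.e (nat_lit 426383) (nat_lit 15) .nil))))))) (.g (nat_lit 6) .nil .nil))))) (.nd (nat_lit 4) (.nd (nat_lit 5) 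
(.lf (nat_lit 75855) (.g (nat_lit 2357) (.e (nat_lit 1796) (nat_lit 119) (.e (nat_lit 516115) (nat_lit 1) (.e (nat_lit 164398) (nat_lit 256) (.e (nat_lit 57375) (nat_lit 2) (.e (nat_lit 90172) (nat_lit 14) .nil))))) .nil)) 
(.lf (nat_lit 75887) (.g (nat_lit 2598) (.e (nat_lit 1796) (nat_lit 119) (.e (nat_lit 516116) (nat_lit 1) (.e (nat_lit 164329) (nat_lit 230) (.e (nat_lit 163850) (nat_lit 0) (.e (nat_lit 3252) (nat_lit 197) (.e (nat_lit 532513) (nat_lit 3) (.e (nat_lit 114714) (nat_lit 22) (.e (nat_lit 90169) (nat_lit 13) (.e (nat_lit 172132) (nat_lit 15) .nil))))))))) (.g (nat_lit 4) .nil .nil)))) 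
(.nd (nat_lit 5) 
(.lf (nat_lit 75871) (.g (nat_lit 3093) (.e (nat_lit 1796) (nat_lit 119) (.e (nat_lit 516115) (nat_lit 1) (.e (nat_lit 164399) (nat_lit 256) (.e (nat_lit 57373) (nat_lit 2) (.e (nat_lit 90174) (nat_lit 14) (.e (nat_lit 180243) (nat_lit 5) (.e (nat_lit 532515) (nat_lit 3) (.e (nat_lit 114706) (nat_lit 20) .nil)))))))) (.g (nat_lit 5) .nil .nil))) 
(.lf (nat_lit 75903) (.g (nat_lit 2653) (.e (nat_lit 1796) (nat_lit 119) (.e (nat_lit 516119) (nat_lit 1) (.e (nat_lit 164322) (nat_lit 230) (.e (nat_lit 163902) (nat_lit 12) (.e (nat_lit 426568) (nat_lit 34) (.e (nat_lit 393275) (nat_lit 23) (.e (nat_lit 426394) (nat_lit 15) .nil))))))) (.g (nat_lit 4) .nil .nil)))))))))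

noncomputable def tv1027 : DT := (.nd (nat_lit 0) (.nd (nat_lit 1) (.nd (nat_lit 2) (.nd (nat_lit 3) (.nd (nat_lit 4) (.nd (nat_lit 5) 
(.lf (nat_lit 75904) (.g (nat_lit 3680) (.e (nat_lit 1796) (nat_lit 119) (.e (nat_lit 516119) (nat_lit 1) (.e (nat_lit 164325) (nat_lit 230) (.e (nat_lit 163903) (nat_lit 12) (.e (nat_lit 426566) (nat_lit 34) (.e (nat_lit 393273) (nat_lit 23) (.e (nat_lit 426392) (nat_lit 15) .nil))))))) (.g (nat_lit 6) .nil .nil))) 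
(.lf (nat_lit 75936) (.g (nat_lit 2205) (.e (nat_lit 1796) (nat_lit 119) (.e (nat_lit 516119) (nat_lit 1) (.e (nat_lit 164403) (nat_lit 256) (.e (nat_lit 57378) (nat_lit 3) (.e (nat_lit 98358) (nat_lit 26) .nil))))) .nil))) (.nd (nat_lit 5) 
(.lf (nat_lit 75920) (.g (nat_lit 2344) (.e (nat_lit 1796) (nat_lit 119) (.e (nat_lit 516119) (nat_lit 1) (.e (nat_lit 164403) (nat_lit 256) (.e (nat_lit 57371) (nat_lit 2) (.e (nat_lit 90167) (nat_lit 13) .nil))))) .nil)) 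
(.lf (nat_lit 75952) (.g (nat_lit 1588) (.e (nat_lit 1796) (nat_lit 119) (.e (nat_lit 516120) (nat_lit 1) (.e (nat_lit 164329) (nat_lit 230) (.e (nat_lit 163902) (nat_lit 12) (.e (nat_lit 426568) (nat_lit 34) (.e (nat_lit 393279) (nat_lit 23) (.e (nat_lit 426386) (nat_lit 15) .nil))))))) (.g (nat_lit 4) .nil .nil))))) (.nd (nat_lit 4) (.nd (nat_lit 5) 
(.lf (nat_lit 75912) (.g (nat_lit 1559) (.e (nat_lit 1796) (nat_lit 119) (.e (nat_lit 516119) (nat_lit 1) (.e (nat_lit 164326) (nat_lit 230) (.e (nat_lit 163907) (nat_lit 12) .nil)))) .nil)) 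
(.lf (nat_lit 75944) (.g (nat_lit 3673) (.e (nat_lit 1796) (nat_lit 119) (.e (nat_lit 516120) (nat_lit 1) (.e (nat_lit 164329) (nat_lit 230) (.e (nat_lit 163850) (nat_lit 0) (.e (nat_lit 3252) (nat_lit 197) (.e (nat_lit 532515) (nat_lit 3) (.e (nat_lit 114716) (nat_lit 22) (.e (nat_lit 90169) (nat_lit 13) (.e (nat_lit 172132) (nat_lit 15) .nil))))))))) (.g (nat_lit 8) .nil .nil)))) 
(.nd (nat_lit 5) 
(.lf (nat_lit 75928) (.g (nat_lit 2266) (.e (nat_lit 1796) (nat_lit 119) (.e (nat_lit 516119) (nat_lit 1) (.e (nat_lit 164403) (nat_lit 256) (.e (nat_lit 57373) (nat_lit 2) (.e (nat_lit 90170) (nat_lit 13) .nil))))) .nil)) 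
(.lf (nat_lit 75960) (.g (nat_lit 3942) (.e (nat_lit 1796) (nat_lit 119) (.e (nat_lit 516120) (nat_lit 1) (.e (nat_lit 164330) (nat_lit 230) (.e (nat_lit 163902) (nat_lit 12) (.e (nat_lit 426566) (nat_lit 34) (.e (nat_lit 393273) (nat_lit 23) (.e (nat_lit 426392) (nat_lit 15) .nil))))))) (.g (nat_lit 0) .nil .nil)))))) (.nd (nat_lit 3) (.nd (nat_lit 4) (.nd (nat_lit 5) 
(.lf (nat_lit 75908) (.g (nat_lit 4071) (.e (nat_lit 1796) (nat_lit 119) (.e (nat_lit 516119) (nat_lit 1) (.e (nat_lit 164326) (nat_lit 230) (.e (nat_lit 163903) (nat_lit 12) (.e (nat_lit 426566) (nat_lit 34) (.e (nat_lit 393273) (nat_lit 23) (.e (nat_lit 426392) (nat_lit 15) .nil))))))) (.g (nat_lit 6) .nil .nil))) 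
(.lf (nat_lit 75940) (.g (nat_lit 2747) (.e (nat_lit 1796) (nat_lit 119) (.e (nat_lit 516119) (nat_lit 1) (.e (nat_lit 164403) (nat_lit 256) (.e (nat_lit 57378) (nat_lit 3) (.e (nat_lit 98367) (nat_lit 27) (.e (nat_lit 434231) (nat_lit 23) (.e (nat_lit 532513) (nat_lit 3) (.e (nat_lit 114706) (nat_lit 20) .nil)))))))) (.g (nat_lit 4) .nil .nil)))) (.nd (nat_lit 5) 
(.lf (nat_lit 75924) (.g (nat_lit 3959) (.e (nat_lit 1796) (nat_lit 119) (.e (nat_lit 516119) (nat_lit 1) (.e (nat_lit 164403) (nat_lit 256) (.e (nat_lit 57371) (nat_lit 2) (.e (nat_lit 90172) (nat_lit 14) (.e (nat_lit 180244) (nat_lit 5) (.e (nat_lit 532513) (nat_lit 3) (.e (nat_lit 114706) (nat_lit 20) .nil)))))))) (.g (nat_lit 6) .nil .nil))) 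
(.lf (nat_lit 75956) (.g (nat_lit 2041) (.e (nat_lit 1796) (nat_lit 119) (.e (nat_lit 516120) (nat_lit 1) (.e (nat_lit 164330) (nat_lit 230) (.e (nat_lit 163872) (nat_lit 3) .nil)))) .nil)))) (.nd (nat_lit 4) (.nd (nat_lit 5) 
(.lf (nat_lit 75916) (.g (nat_lit 2056) (.e (nat_lit 1796) (nat_lit 119) (.e (nat_lit 516119) (nat_lit 1) (.e (nat_lit 164401) (nat_lit 256) (.e (nat_lit 57373) (nat_lit 2) (.e (nat_lit 90174) (nat_lit 14) (.e (nat_lit 180243) (nat_lit 5) (.e (nat_lit 532513) (nat_lit 3) (.e (nat_lit 114706) (nat_lit 20) .nil)))))))) (.g (nat_lit 4) .nil .nil))) 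
(.lf (nat_lit 75948) (.g (nat_lit 1706) (.e (nat_lit 1796) (nat_lit 119) (.e (nat_lit 516120) (nat_lit 1) (.e (nat_lit 164329) (nat_lit 230) (.e (nat_lit 163902) (nat_lit 12) (.e (nat_lit 426568) (nat_lit 34) (.e (nat_lit 393267) (nat_lit 23) (.e (nat_lit 426395) (nat_lit 15) .nil))))))) (.g (nat_lit 4) .nil .nil)))) (.nd (nat_lit 5) 
(.lf (nat_lit 75932) (.g (nat_lit 4554) (.e (nat_lit 1796) (nat_lit 119) (.e (nat_lit 516119) (nat_lit 1) (.e (nat_lit 164403) (nat_lit 256) (.e (nat_lit 57373) (nat_lit 2) (.e (nat_lit 90172) (nat_lit 14) (.e (nat_lit 180244) (nat_lit 5) (.e (nat_lit 532513) (nat_lit 3) (.e (nat_lit 114706) (nat_lit 20) .nil)))))))) (.g (nat_lit 6) .nil .nil))) 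
(.lf (nat_lit 75964) (.g (nat_lit 1673) (.e (nat_lit 1796) (nat_lit 119) (.e (nat_lit 516120) (nat_lit 1) (.e (nat_lit 164330) (nat_lit 230) (.e (nat_lit 163915) (nat_lit 12) .nil)))) .nil)))))) (.nd (nat_lit 2) (.nd (nat_lit 3) (.nd (nat_lit 4) (.nd (nat_lit 5) 
(.lf (nat_lit 75906) (.g (nat_lit 2177) (.e (nat_lit 1796) (nat_lit 119) (.e (nat_lit 516119) (nat_lit 1) (.e (nat_lit 164325) (nat_lit 230) (.e (nat_lit 163943) (nat_lit 19) (.e (nat_lit 483341) (nat_lit 9) (.e (nat_lit 426198) (nat_lit 9) (.e (nat_lit 426392) (nat_lit 15) .nil))))))) (.g (nat_lit 4) .nil .nil))) 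
(.lf (nat_lit 75938) (.g (nat_lit 3103) (.e (nat_lit 1796) (nat_lit 119) (.e (nat_lit 516119) (nat_lit 1) (.e (nat_lit 164403) (nat_lit 256) (.e (nat_lit 57378) (nat_lit 3) (.e (nat_lit 98366) (nat_lit 27) (.e (nat_lit 434231) (nat_lit 23) (.e (nat_lit 532513) (nat_lit 3) (.e (nat_lit 114706) (nat_lit 20) .nil)))))))) (.g (nat_lit 4) .nil .nil)))) (.nd (nat_lit 5) 
(.lf (nat_lit 75922) (.g (nat_lit 2396) (.e (nat_lit 1796) (nat_lit 119) (.e (nat_lit 516119) (nat_lit 1) (.e (nat_lit 164403) (nat_lit 256) (.e (nat_lit 57371) (nat_lit 2) (.e (nat_lit 90172) (nat_lit 14) .nil))))) .nil)) 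
(.lf (nat_lit 75954) (.g (nat_lit 912) (.e (nat_lit 1796) (nat_lit 119) (.e (nat_lit 516120) (nat_lit 1) (.e (nat_lit 164329) (nat_lit 230) (.e (nat_lit 163942) (nat_lit 19) .nil)))) .nil)))) (.nd (nat_lit 4) (.nd (nat_lit 5) 
(.lf (nat_lit 75914) (.g (nat_lit 3261) (.e (nat_lit 1796) (nat_lit 119) (.e (nat_lit 516119) (nat_lit 1) (.e (nat_lit 164326) (nat_lit 230) (.e (nat_lit 163941) (nat_lit 19) (.e (nat_lit 483341) (nat_lit 9) (.e (nat_lit 426198) (nat_lit 9) (.e (nat_lit 426392) (nat_lit 15) .nil))))))) (.g (nat_lit 6) .nil .nil))) 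
(.lf (nat_lit 75946) (.g (nat_lit 1439) (.e (nat_lit 1796) (nat_lit 119) (.e (nat_lit 516120) (nat_lit 1) (.e (nat_lit 164329) (nat_lit 230) (.e (nat_lit 163902) (nat_lit 12) (.e (nat_lit 426568) (nat_lit 34) .nil))))) .nil))) (.nd (nat_lit 5) 
(.lf (nat_lit 75930) (.g (nat_lit 2729) (.e (nat_lit 1796) (nat_lit 119) (.e (nat_lit 516119) (nat_lit 1) (.e (nat_lit 164403) (nat_lit 256) (.e (nat_lit 57373) (nat_lit 2) (.e (nat_lit 90172) (nat_lit 14) .nil))))) .nil)) 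
(.lf (nat_lit 75962) (.g (nat_lit 2592) (.e (nat_lit 1796) (nat_lit 119) (.e (nat_lit 516120) (nat_lit 1) (.e (nat_lit 164330) (nat_lit 230) (.e (nat_lit 163913) (nat_lit 12) (.e (nat_lit 426565) (nat_lit 34) (.e (nat_lit 393273) (nat_lit 23) (.e (nat_lit 426392) (nat_lit 15) .nil))))))) (.g (nat_lit 4) .nil .nil)))))) (.nd (nat_lit 3) (.nd (nat_lit 4) (.nd (nat_lit 5) 
(.lf (nat_lit 75910) (.g (nat_lit 1839) (.e (nat_lit 1796) (nat_lit 119) (.e (nat_lit 516119) (nat_lit 1) (.e (nat_lit 164326) (nat_lit 230) (.e (nat_lit 163903) (nat_lit 12) (.e (nat_lit 426568) (nat_lit 34) (.e (nat_lit 393279) (nat_lit 23) (.e (nat_lit 426356) (nat_lit 15) .nil))))))) (.g (nat_lit 4) .nil .nil))) 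
(.lf (nat_lit 75942) (.g (nat_lit 1939) (.e (nat_lit 1796) (nat_lit 119) (.e (nat_lit 516120) (nat_lit 1) (.e (nat_lit 164329) (nat_lit 230) (.e (nat_lit 163850) (nat_lit 0) (.e (nat_lit 3252) (nat_lit 197) .nil))))) .nil))) (.nd (nat_lit 5) 
(.lf (nat_lit 75926) (.g (nat_lit 4121) (.e (nat_lit 1796) (nat_lit 119) (.e (nat_lit 516119) (nat_lit 1) (.e (nat_lit 164403) (nat_lit 256) (.e (nat_lit 57371) (nat_lit 2) (.e (nat_lit 90174) (nat_lit 14) (.e (nat_lit 180243) (nat_lit 5) (.e (nat_lit 532508) (nat_lit 2) (.e (nat_lit 106526) (nat_lit 9) (.e (nat_lit 1074) (nat_lit 81) .nil))))))))) (.g (nat_lit 6) .nil .nil))) 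
(.lf (nat_lit 75958) (.g (nat_lit 2817) (.e (nat_lit 1796) (nat_lit 119) (.e (nat_lit 516120) (nat_lit 1) (.e (nat_lit 164330) (nat_lit 230) (.e (nat_lit 163902) (nat_lit 12) (.e (nat_lit 426479) (nat_lit 27) .nil))))) .nil)))) (.nd (nat_lit 4) (.nd (nat_lit 5) 
(.lf (nat_lit 75918) (.g (nat_lit 2910) (.e (nat_lit 1796) (nat_lit 119) (.e (nat_lit 516119) (nat_lit 1) (.e (nat_lit 164403) (nat_lit 256) (.e (nat_lit 57370) (nat_lit 2) (.e (nat_lit 90172) (nat_lit 14) (.e (nat_lit 180244) (nat_lit 5) (.e (nat_lit 532513) (nat_lit 3) (.e (nat_lit 114706) (nat_lit 20) .nil)))))))) (.g (nat_lit 5) .nil .nil))) 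
(.lf (nat_lit 75950) (.g (nat_lit 2423) (.e (nat_lit 1796) (nat_lit 119) (.e (nat_lit 516120) (nat_lit 1) (.e (nat_lit 164329) (nat_lit 230) (.e (nat_lit 163902) (nat_lit 12) (.e (nat_lit 426568) (nat_lit 34) (.e (nat_lit 393279) (nat_lit 23) (.e (nat_lit 426356) (nat_lit 15) .nil))))))) (.g (nat_lit 6) .nil .nil)))) (.nd (nat_lit 5) 
(.lf (nat_lit 75934) (.g (nat_lit 4924) (.e (nat_lit 1796) (nat_lit 119) (.e (nat_lit 516119) (nat_lit 1) (.e (nat_lit 164403) (nat_lit 256) (.e (nat_lit 57373) (nat_lit 2) (.e (nat_lit 90174) (nat_lit 14) (.e (nat_lit 180243) (nat_lit 5) (.e (nat_lit 532513) (nat_lit 3) (.e (nat_lit 114706) (nat_lit 20) .nil)))))))) (.g (nat_lit 7) .nil .nil))) 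
(.lf (nat_lit 75966) (.g (nat_lit 1087) (.e (nat_lit 1796) (nat_lit 119) (.e (nat_lit 516120) (nat_lit 1) (.e (nat_lit 164332) (nat_lit 230) .nil))) .nil))))))) (.nd (nat_lit 1) (.nd (nat_lit 2) (.nd (nat_lit 3) (.nd (nat_lit 4) (.nd (nat_lit 5) 
(.lf (nat_lit 75905) (.g (nat_lit 3062) (.e (nat_lit 1796) (nat_lit 119) (.e (nat_lit 516119) (nat_lit 1) (.e (nat_lit 164325) (nat_lit 230) (.e (nat_lit 163941) (nat_lit 19) (.e (nat_lit 483341) (nat_lit 9) (.e (nat_lit 426198) (nat_lit 9) (.e (nat_lit 426392) (nat_lit 15) .nil))))))) (.g (nat_lit 6) .nil .nil))) 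
(.lf (nat_lit 75937) (.g (nat_lit 2722) (.e (nat_lit 1796) (nat_lit 119) (.e (nat_lit 516119) (nat_lit 1) (.e (nat_lit 164403) (nat_lit 256) (.e (nat_lit 57378) (nat_lit 3) (.e (nat_lit 98358) (nat_lit 26) (.e (nat_lit 426131) (nat_lit 3) (.e (nat_lit 204838) (nat_lit 20) (.e (nat_lit 114706) (nat_lit 20) .nil)))))))) (.g (nat_lit 5) .nil .nil)))) (.nd (nat_lit 5) 
(.lf (nat_lit 75921) (.g (nat_lit 2347) (.e (nat_lit 1796) (nat_lit 119) (.e (nat_lit 516119) (nat_lit 1) (.e (nat_lit 164403) (nat_lit 256) (.e (nat_lit 57371) (nat_lit 2) (.e (nat_lit 90167) (nat_lit 13) (.e (nat_lit 172067) (nat_lit 3) (.e (nat_lit 204837) (nat_lit 20) (.e (nat_lit 114706) (nat_lit 20) .nil)))))))) (.g (nat_lit 4) .nil .nil))) 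
(.lf (nat_lit 75953) (.g (nat_lit 3028) (.e (nat_lit 1796) (nat_lit 119) (.e (nat_lit 516120) (nat_lit 1) (.e (nat_lit 164329) (nat_lit 230) (.e (nat_lit 163902) (nat_lit 12) (.e (nat_lit 426568) (nat_lit 34) (.e (nat_lit 393281) (nat_lit 23) (.e (nat_lit 426383) (nat_lit 15) .nil))))))) (.g (nat_lit 6) .nil .nil))))) (.nd (nat_lit 4) (.nd (nat_lit 5) 
(.lf (nat_lit 75913) (.g (nat_lit 1234) (.e (nat_lit 1796) (nat_lit 119) (.e (nat_lit 516119) (nat_lit 1) (.e (nat_lit 164326) (nat_lit 230) (.e (nat_lit 163941) (nat_lit 19) .nil)))) .nil)) 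
(.lf (nat_lit 75945) (.g (nat_lit 925) (.e (nat_lit 1796) (nat_lit 119) (.e (nat_lit 516120) (nat_lit 1) (.e (nat_lit 164329) (nat_lit 230) (.e (nat_lit 163902) (nat_lit 12) .nil)))) .nil))) (.nd (nat_lit 5) 
(.lf (nat_lit 75929) (.g (nat_lit 2533) (.e (nat_lit 1796) (nat_lit 119) (.e (nat_lit 516119) (nat_lit 1) (.e (nat_lit 164403) (nat_lit 256) (.e (nat_lit 57373) (nat_lit 2) (.e (nat_lit 90170) (nat_lit 13) (.e (nat_lit 172065) (nat_lit 3) (.e (nat_lit 204838) (nat_lit 20) (.e (nat_lit 114706) (nat_lit 20) .nil)))))))) (.g (nat_lit 4) .nil .nil))) 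
(.lf (nat_lit 75961) (.g (nat_lit 2669) (.e (nat_lit 1796) (nat_lit 119) (.e (nat_lit 516120) (nat_lit 1) (.e (nat_lit 164330) (nat_lit 230) (.e (nat_lit 163905) (nat_lit 12) (.e (nat_lit 426566) (nat_lit 34) (.e (nat_lit 393273) (nat_lit 23) (.e (nat_lit 426392) (nat_lit 15) .nil))))))) (.g (nat_lit 4) .nil .nil)))))) (.nd (nat_lit 3) (.nd (nat_lit 4) (.nd (nat_lit 5) 
(.lf (nat_lit 75909) (.g (nat_lit 3138) (.e (nat_lit 1796) (nat_lit 119) (.e (nat_lit 516119) (nat_lit 1) (.e (nat_lit 164326) (nat_lit 230) (.e (nat_lit 163903) (nat_lit 12) (.e (nat_lit 426568) (nat_lit 34) (.e (nat_lit 393275) (nat_lit 23) (.e (nat_lit 426394) (nat_lit 15) .nil))))))) (.g (nat_lit 6) .nil .nil))) 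
(.lf (nat_lit 75941) (.g (nat_lit 2843) (.e (nat_lit 1796) (nat_lit 119) (.e (nat_lit 516119) (nat_lit 1) (.e (nat_lit 164403) (nat_lit 256) (.e (nat_lit 57378) (nat_lit 3) (.e (nat_lit 98367) (nat_lit 27) (.e (nat_lit 434231) (nat_lit 23) (.e (nat_lit 532514) (nat_lit 3) (.e (nat_lit 114706) (nat_lit 20) .nil)))))))) (.g (nat_lit 4) .nil .nil)))) (.nd (nat_lit 5) 
(.lf (nat_lit 75925) (.g (nat_lit 2623) (.e (nat_lit 1796) (nat_lit 119) (.e (nat_lit 516119) (nat_lit 1) (.e (nat_lit 164403) (nat_lit 256) (.e (nat_lit 57371) (nat_lit 2) (.e (nat_lit 90172) (nat_lit 14) (.e (nat_lit 180244) (nat_lit 5) (.e (nat_lit 532515) (nat_lit 3) (.e (nat_lit 114706) (nat_lit 20) .nil)))))))) (.g (nat_lit 4) .nil .nil))) 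
(.lf (nat_lit 75957) (.g (nat_lit 1959) (.e (nat_lit 1796) (nat_lit 119) (.e (nat_lit 516120) (nat_lit 1) (.e (nat_lit 164330) (nat_lit 230) (.e (nat_lit 163874) (nat_lit 3) .nil)))) .nil)))) (.nd (nat_lit 4) (.nd (nat_lit 5) 
(.lf (nat_lit 75917) (.g (nat_lit 2269) (.e (nat_lit 1796) (nat_lit 119) (.e (nat_lit 516119) (nat_lit 1) (.e (nat_lit 164403) (nat_lit 256) (.e (nat_lit 57370) (nat_lit 2) (.e (nat_lit 90172) (nat_lit 14) .nil))))) .nil)) 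
(.lf (nat_lit 75949) (.g (nat_lit 3284) (.e (nat_lit 1796) (nat_lit 119) (.e (nat_lit 516120) (nat_lit 1) (.e (nat_lit 164329) (nat_lit 230) (.e (nat_lit 163902) (nat_lit 12) (.e (nat_lit 426568) (nat_lit 34) (.e (nat_lit 393275) (nat_lit 23) (.e (nat_lit 426394) (nat_lit 15) .nil))))))) (.g (nat_lit 7) .nil .nil)))) (.nd (nat_lit 5) 
(.lf (nat_lit 75933) (.g (nat_lit 3479) (.e (nat_lit 1796) (nat_lit 119) (.e (nat_lit 516119) (nat_lit 1) (.e (nat_lit 164403) (nat_lit 256) (.e (nat_lit 57373) (nat_lit 2) (.e (nat_lit 90174) (nat_lit 14) (.e (nat_lit 180243) (nat_lit 5) (.e (nat_lit 532508) (nat_lit 2) (.e (nat_lit 106517) (nat_lit 9) (.e (nat_lit 1074) (nat_lit 81) .nil))))))))) (.g (nat_lit 5) .nil .nil))) 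
(.lf (nat_lit 75965) (.g (nat_lit 2639) (.e (nat_lit 1796) (nat_lit 119) (.e (nat_lit 516120) (nat_lit 1) (.e (nat_lit 164330) (nat_lit 230) (.e (nat_lit 163943) (nat_lit 19) (.e (nat_lit 483341) (nat_lit 9) (.e (nat_lit 426198) (nat_lit 9) (.e (nat_lit 426392) (nat_lit 15) .nil))))))) (.g (nat_lit 4) .nil .nil))))))) (.nd (nat_lit 2) (.nd (nat_lit 3) (.nd (nat_lit 4) (.nd (nat_lit 5) 
(.lf (nat_lit 75907) (.g (nat_lit 2608) (.e (nat_lit 1796) (nat_lit 119) (.e (nat_lit 516119) (nat_lit 1) (.e (nat_lit 164325) (nat_lit 230) (.e (nat_lit 163944) (nat_lit 19) (.e (nat_lit 483341) (nat_lit 9) (.e (nat_lit 426198) (nat_lit 9) (.e (nat_lit 426392) (nat_lit 15) .nil))))))) (.g (nat_lit 5) .nil .nil))) 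
(.lf (nat_lit 75939) (.g (nat_lit 3269) (.e (nat_lit 1796) (nat_lit 119) (.e (nat_lit 516119) (nat_lit 1) (.e (nat_lit 164403) (nat_lit 256) (.e (nat_lit 57378) (nat_lit 3) (.e (nat_lit 98366) (nat_lit 27) (.e (nat_lit 434231) (nat_lit 23) (.e (nat_lit 532514) (nat_lit 3) (.e (nat_lit 114706) (nat_lit 20) .nil)))))))) (.g (nat_lit 4) .nil .nil)))) (.nd (nat_lit 5) 
(.lf (nat_lit 75923) (.g (nat_lit 3960) (.e (nat_lit 1796) (nat_lit 119) (.e (nat_lit 516119) (nat_lit 1) (.e (nat_lit 164403) (nat_lit 256) (.e (nat_lit 57371) (nat_lit 2) (.e (nat_lit 90172) (nat_lit 14) (.e (nat_lit 180243) (nat_lit 5) (.e (nat_lit 532513) (nat_lit 3) (.e (nat_lit 114706) (nat_lit 20) .nil)))))))) (.g (nat_lit 5) .nil .nil))) 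
(.lf (nat_lit 75955) (.g (nat_lit 2054) (.e (nat_lit 1796) (nat_lit 119) (.e (nat_lit 516120) (nat_lit 1) (.e (nat_lit 164330) (nat_lit 230) (.e (nat_lit 163850) (nat_lit 0) .nil)))) .nil)))) (.nd (nat_lit 4) (.nd (nat_lit 5) 
(.lf (nat_lit 75915) (.g (nat_lit 2169) (.e (nat_lit 1796) (nat_lit 119) (.e (nat_lit 516119) (nat_lit 1) (.e (nat_lit 164327) (nat_lit 230) (.e (nat_lit 163907) (nat_lit 12) (.e (nat_lit 426566) (nat_lit 34) (.e (nat_lit 393273) (nat_lit 23) (.e (nat_lit 426392) (nat_lit 15) .nil))))))) (.g (nat_lit 4) .nil .nil))) 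
(.lf (nat_lit 75947) (.g (nat_lit 1613) (.e (nat_lit 1796) (nat_lit 119) (.e (nat_lit 516120) (nat_lit 1) (.e (nat_lit 164329) (nat_lit 230) (.e (nat_lit 163902) (nat_lit 12) (.e (nat_lit 426568) (nat_lit 34) (.e (nat_lit 393267) (nat_lit 23) (.e (nat_lit 426392) (nat_lit 15) .nil))))))) (.g (nat_lit 4) .nil .nil)))) (.nd (nat_lit 5) 
(.lf (nat_lit 75931) (.g (nat_lit 3658) (.e (nat_lit 1796) (nat_lit 119) (.e (nat_lit 516119) (nat_lit 1) (.e (nat_lit 164403) (nat_lit 256) (.e (nat_lit 57373) (nat_lit 2) (.e (nat_lit 90172) (nat_lit 14) (.e (nat_lit 180244) (nat_lit 5) (.e (nat_lit 532508) (nat_lit 2) (.e (nat_lit 106526) (nat_lit 9) (.e (nat_lit 1074) (nat_lit 81) .nil))))))))) (.g (nat_lit 5) .nil .nil))) 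
(.lf (nat_lit 75963) (.g (nat_lit 2734) (.e (nat_lit 1796) (nat_lit 119) (.e (nat_lit 516120) (nat_lit 1) (.e (nat_lit 164330) (nat_lit 230) (.e (nat_lit 163913) (nat_lit 12) (.e (nat_lit 433920) (nat_lit 34) .nil))))) .nil))))) (.nd (nat_lit 3) (.nd (nat_lit 4) (.nd (nat_lit 5) 
(.lf (nat_lit 75911) (.g (nat_lit 2424) (.e (nat_lit 1796) (nat_lit 119) (.e (nat_lit 516119) (nat_lit 1) (.e (nat_lit 164326) (nat_lit 230) (.e (nat_lit 163903) (nat_lit 12) (.e (nat_lit 426568) (nat_lit 34) (.e (nat_lit 393281) (nat_lit 23) (.e (nat_lit 426383) (nat_lit 15) .nil))))))) (.g (nat_lit 5) .nil .nil))) 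
(.lf (nat_lit 75943) (.g (nat_lit 2548) (.e (nat_lit 1796) (nat_lit 119) (.e (nat_lit 516120) (nat_lit 1) (.e (nat_lit 164329) (nat_lit 230) (.e (nat_lit 163850) (nat_lit 0) (.e (nat_lit 3252) (nat_lit 197) (.e (nat_lit 532513) (nat_lit 3) (.e (nat_lit 114714) (nat_lit 22) (.e (nat_lit 90169) (nat_lit 13) (.e (nat_lit 172132) (nat_lit 15) .nil))))))))) (.g (nat_lit 5) .nil .nil)))) 
(.nd (nat_lit 5) 
(.lf (nat_lit 75927) (.g (nat_lit 3228) (.e (nat_lit 1796) (nat_lit 119) (.e (nat_lit 516119) (nat_lit 1) (.e (nat_lit 164403) (nat_lit 256) (.e (nat_lit 57371) (nat_lit 2) (.e (nat_lit 90174) (nat_lit 14) (.e (nat_lit 180243) (nat_lit 5) (.e (nat_lit 532511) (nat_lit 2) (.e (nat_lit 106526) (nat_lit 9) (.e (nat_lit 1074) (nat_lit 81) .nil))))))))) (.g (nat_lit 5) .nil .nil))) 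
(.lf (nat_lit 75959) (.g (nat_lit 1872) (.e (nat_lit 1796) (nat_lit 119) (.e (nat_lit 516120) (nat_lit 1) (.e (nat_lit 164330) (nat_lit 230) (.e (nat_lit 163902) (nat_lit 12) (.e (nat_lit 426566) (nat_lit 34) (.e (nat_lit 393273) (nat_lit 23) (.e (nat_lit 426357) (nat_lit 15) .nil))))))) (.g (nat_lit 4) .nil .nil))))) (.nd (nat_lit 4) (.nd (nat_lit 5) 
(.lf (nat_lit 75919) (.g (nat_lit 2369) (.e (nat_lit 1796) (nat_lit 119) (.e (nat_lit 516119) (nat_lit 1) (.e (nat_lit 164403) (nat_lit 256) (.e (nat_lit 57370) (nat_lit 2) (.e (nat_lit 90174) (nat_lit 14) (.e (nat_lit 180243) (nat_lit 5) (.e (nat_lit 532508) (nat_lit 2) (.e (nat_lit 106526) (nat_lit 9) (.e (nat_lit 1074) (nat_lit 81) .nil))))))))) (.g (nat_lit 4) .nil .nil))) 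
(.lf (nat_lit 75951) (.g (nat_lit 1610) (.e (nat_lit 1796) (nat_lit 119) (.e (nat_lit 516120) (nat_lit 1) (.e (nat_lit 164329) (nat_lit 230) (.e (nat_lit 163902) (nat_lit 12) (.e (nat_lit 426568) (nat_lit 34) (.e (nat_lit 393279) (nat_lit 23) (.e (nat_lit 426383) (nat_lit 15) .nil))))))) (.g (nat_lit 4) .nil .nil)))) (.nd (nat_lit 5) 
(.lf (nat_lit 75935) (.g (nat_lit 3396) (.e (nat_lit 1796) (nat_lit 119) (.e (nat_lit 516119) (nat_lit 1) (.e (nat_lit 164403) (nat_lit 256) (.e (nat_lit 57373) (nat_lit 2) (.e (nat_lit 90174) (nat_lit 14) (.e (nat_lit 180243) (nat_lit 5) (.e (nat_lit 532515) (nat_lit 3) (.e (nat_lit 114706) (nat_lit 20) .nil)))))))) (.g (nat_lit 5) .nil .nil))) 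
(.lf (nat_lit 75967) (.g (nat_lit 3374) (.e (nat_lit 1796) (nat_lit 119) (.e (nat_lit 516120) (nat_lit 1) (.e (nat_lit 164332) (nat_lit 230) (.e (nat_lit 163902) (nat_lit 12) (.e (nat_lit 426566) (nat_lit 34) (.e (nat_lit 393273) (nat_lit 23) (.e (nat_lit 426392) (nat_lit 15) .nil))))))) (.g (nat_lit 5) .nil .nil)))))))))

noncomputable def tv1028 : DT := (.nd (nat_lit 0) (.nd (nat_lit 1) (.nd (nat_lit 2) (.nd (nat_lit 3) (.nd (nat_lit 4) (.nd (nat_lit 5) 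
(.lf (nat_lit 75968) (.g (nat_lit 3222) (.e (nat_lit 1796) (nat_lit 119) (.e (nat_lit 516120) (nat_lit 1) (.e (nat_lit 164332) (nat_lit 230) (.e (nat_lit 163905) (nat_lit 12) (.e (nat_lit 426566) (nat_lit 34) (.e (nat_lit 393273) (nat_lit 23) (.e (nat_lit 426392) (nat_lit 15) .nil))))))) (.g (nat_lit 5) .nil .nil))) 
(.lf (nat_lit 76000) (.g (nat_lit 546) (.e (nat_lit 1796) (nat_lit 119) (.e (nat_lit 516129) (nat_lit 3) (.e (nat_lit 221191) (nat_lit 11) .nil))) .nil))) (.nd (nat_lit 5) 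
(.lf (nat_lit 75984) (.g (nat_lit 1957) (.e (nat_lit 1796) (nat_lit 119) (.e (nat_lit 516124) (nat_lit 2) (.e (nat_lit 213032) (nat_lit 11) (.e (nat_lit 24604) (nat_lit 2) (.e (nat_lit 90176) (nat_lit 15) (.e (nat_lit 196352) (nat_lit 0) .nil)))))) (.g (nat_lit 4) .nil .nil))) 
(.lf (nat_lit 76016) (.g (nat_lit 1873) (.e (nat_lit 1796) (nat_lit 119) (.e (nat_lit 516129) (nat_lit 3) (.e (nat_lit 221194) (nat_lit 11) (.e (nat_lit 336027) (nat_lit 3) (.e (nat_lit 98369) (nat_lit 28) (.e (nat_lit 442373) (nat_lit 0) .nil)))))) (.g (nat_lit 4) .nil .nil))))) (.nd (nat_lit 4) (.nd (nat_lit 5) 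
(.lf (nat_lit 75976) (.g (nat_lit 2608) (.e (nat_lit 1796) (nat_lit 119) (.e (nat_lit 516123) (nat_lit 2) (.e (nat_lit 213032) (nat_lit 11) (.e (nat_lit 24608) (nat_lit 3) (.e (nat_lit 98381) (nat_lit 31) (.e (nat_lit 466945) (nat_lit 0) .nil)))))) (.g (nat_lit 4) .nil .nil))) 
(.lf (nat_lit 76008) (.g (nat_lit 1923) (.e (nat_lit 1796) (nat_lit 119) (.e (nat_lit 516129) (nat_lit 3) (.e (nat_lit 221194) (nat_lit 11) (.e (nat_lit 336010) (nat_lit 2) (.e (nat_lit 90178) (nat_lit 15) (.e (nat_lit 196352) (nat_lit 0) .nil)))))) (.g (nat_lit 5) .nil .nil)))) (.nd (nat_lit 5) 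
(.lf (nat_lit 75992) (.g (nat_lit 1251) (.e (nat_lit 1796) (nat_lit 119) (.e (nat_lit 516127) (nat_lit 2) (.e (nat_lit 213030) (nat_lit 11) (.e (nat_lit 24605) (nat_lit 2) (.e (nat_lit 90176) (nat_lit 15) (.e (nat_lit 196352) (nat_lit 0) .nil)))))) (.g (nat_lit 5) .nil .nil))) 
(.lf (nat_lit 76024) (.g (nat_lit 1739) (.e (nat_lit 1796) (nat_lit 119) (.e (nat_lit 516129) (nat_lit 3) (.e (nat_lit 229120) (nat_lit 12) (.e (nat_lit 344117) (nat_lit 21) (.e (nat_lit 516174) (nat_lit 14) (.e (nat_lit 466945) (nat_lit 0) .nil)))))) (.g (nat_lit 5) .nil .nil)))))) (.nd (nat_lit 3) (.nd (nat_lit 4) (.nd (nat_lit 5) 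
(.lf (nat_lit 75972) (.g (nat_lit 3463) (.e (nat_lit 1796) (nat_lit 119) (.e (nat_lit 516120) (nat_lit 1) (.e (nat_lit 164403) (nat_lit 256) (.e (nat_lit 57373) (nat_lit 2) (.e (nat_lit 90172) (nat_lit 14) .nil))))) .nil)) 
(.lf (nat_lit 76004) (.g (nat_lit 1412) (.e (nat_lit 1796) (nat_lit 119) (.e (nat_lit 516129) (nat_lit 3) (.e (nat_lit 221193) (nat_lit 11) (.e (nat_lit 336010) (nat_lit 2) (.e (nat_lit 90178) (nat_lit 15) (.e (nat_lit 196352) (nat_lit 0) .nil)))))) (.g (nat_lit 4) .nil .nil)))) (.nd (nat_lit 5) 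
(.lf (nat_lit 75988) (.g (nat_lit 1803) (.e (nat_lit 1796) (nat_lit 119) (.e (nat_lit 516124) (nat_lit 2) (.e (nat_lit 213032) (nat_lit 11) (.e (nat_lit 24608) (nat_lit 3) (.e (nat_lit 98381) (nat_lit 31) (.e (nat_lit 466945) (nat_lit 0) .nil)))))) (.g (nat_lit 4) .nil .nil))) 
(.lf (nat_lit 76020) (.g (nat_lit 412) (.e (nat_lit 1796) (nat_lit 119) (.e (nat_lit 516129) (nat_lit 3) (.e (nat_lit 229120) (nat_lit 11) .nil))) .nil)))) (.nd (nat_lit 4) (.nd (nat_lit 5) 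
(.lf (nat_lit 75980) (.g (nat_lit 1340) (.e (nat_lit 1796) (nat_lit 119) (.e (nat_lit 516124) (nat_lit 2) (.e (nat_lit 213030) (nat_lit 11) (.e (nat_lit 24605) (nat_lit 2) (.e (nat_lit 90176) (nat_lit 15) (.e (nat_lit 196352) (nat_lit 0) .nil)))))) (.g (nat_lit 5) .nil .nil))) 
(.lf (nat_lit 76012) (.g (nat_lit 1668) (.e (nat_lit 1796) (nat_lit 119) (.e (nat_lit 516129) (nat_lit 3) (.e (nat_lit 221194) (nat_lit 11) (.e (nat_lit 336026) (nat_lit 3) (.e (nat_lit 98369) (nat_lit 28) (.e (nat_lit 442373) (nat_lit 0) .nil)))))) (.g (nat_lit 4) .nil .nil)))) (.nd (nat_lit 5) 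
(.lf (nat_lit 75996) (.g (nat_lit 1661) (.e (nat_lit 1796) (nat_lit 119) (.e (nat_lit 516127) (nat_lit 2) (.e (nat_lit 213032) (nat_lit 11) (.e (nat_lit 24608) (nat_lit 3) (.e (nat_lit 98369) (nat_lit 28) (.e (nat_lit 442373) (nat_lit 0) .nil)))))) (.g (nat_lit 4) .nil .nil))) 
(.lf (nat_lit 76028) (.g (nat_lit 1449) (.e (nat_lit 1796) (nat_lit 119) (.e (nat_lit 516130) (nat_lit 3) (.e (nat_lit 221191) (nat_lit 11) (.e (nat_lit 336017) (nat_lit 3) (.e (nat_lit 98370) (nat_lit 28) (.e (nat_lit 442373) (nat_lit 0) .nil)))))) (.g (nat_lit 5) .nil .nil))))))) (.nd (nat_lit 2) (.nd (nat_lit 3) (.nd (nat_lit 4) (.nd (nat_lit 5) 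
(.lf (nat_lit 75970) (.g (nat_lit 3135) (.e (nat_lit 1796) (nat_lit 119) (.e (nat_lit 516120) (nat_lit 1) (.e (nat_lit 164332) (nat_lit 230) (.e (nat_lit 163941) (nat_lit 19) (.e (nat_lit 483341) (nat_lit 9) (.e (nat_lit 426198) (nat_lit 9) (.e (nat_lit 426392) (nat_lit 15) .nil))))))) (.g (nat_lit 5) .nil .nil))) 
(.lf (nat_lit 76002) (.g (nat_lit 1330) (.e (nat_lit 1796) (nat_lit 119) (.e (nat_lit 516129) (nat_lit 3) (.e (nat_lit 221192) (nat_lit 11) (.e (nat_lit 336017) (nat_lit 3) (.e (nat_lit 98380) (nat_lit 31) (.e (nat_lit 466945) (nat_lit 0) .nil)))))) (.g (nat_lit 5) .nil .nil)))) (.nd (nat_lit 5) 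
(.lf (nat_lit 75986) (.g (nat_lit 2037) (.e (nat_lit 1796) (nat_lit 119) (.e (nat_lit 516124) (nat_lit 2) (.e (nat_lit 213032) (nat_lit 11) (.e (nat_lit 24608) (nat_lit 3) (.e (nat_lit 98369) (nat_lit 28) (.e (nat_lit 442373) (nat_lit 0) .nil)))))) (.g (nat_lit 4) .nil .nil))) 
(.lf (nat_lit 76018) (.g (nat_lit 1963) (.e (nat_lit 1796) (nat_lit 119) (.e (nat_lit 516129) (nat_lit 3) (.e (nat_lit 221194) (nat_lit 11) (.e (nat_lit 336027) (nat_lit 3) (.e (nat_lit 98380) (nat_lit 31) (.e (nat_lit 466945) (nat_lit 0) .nil)))))) (.g (nat_lit 4) .nil .nil))))) (.nd (nat_lit 4) (.nd (nat_lit 5) 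
(.lf (nat_lit 75978) (.g (nat_lit 2165) (.e (nat_lit 1796) (nat_lit 119) (.e (nat_lit 516124) (nat_lit 2) (.e (nat_lit 213019) (nat_lit 9) (.e (nat_lit 250) (nat_lit 21) (.e (nat_lit 336027) (nat_lit 3) (.e (nat_lit 98369) (nat_lit 28) (.e (nat_lit 442373) (nat_lit 0) .nil))))))) (.g (nat_lit 6) .nil .nil))) 
(.lf (nat_lit 76010) (.g (nat_lit 2302) (.e (nat_lit 1796) (nat_lit 119) (.e (nat_lit 516129) (nat_lit 3) (.e (nat_lit 221194) (nat_lit 11) (.e (nat_lit 336012) (nat_lit 2) (.e (nat_lit 90178) (nat_lit 15) (.e (nat_lit 196352) (nat_lit 0) .nil)))))) (.g (nat_lit 5) .nil .nil)))) (.nd (nat_lit 5) 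
(.lf (nat_lit 75994) (.g (nat_lit 1456) (.e (nat_lit 1796) (nat_lit 119) (.e (nat_lit 516127) (nat_lit 2) (.e (nat_lit 213032) (nat_lit 11) (.e (nat_lit 24605) (nat_lit 2) (.e (nat_lit 90176) (nat_lit 15) (.e (nat_lit 196352) (nat_lit 0) .nil)))))) (.g (nat_lit 5) .nil .nil))) 
(.lf (nat_lit 76026) (.g (nat_lit 2027) (.e (nat_lit 1796) (nat_lit 119) (.e (nat_lit 516129) (nat_lit 3) (.e (nat_lit 221210) (nat_lit 22) (.e (nat_lit 196668) (nat_lit 14) (.e (nat_lit 73747) (nat_lit 3) (.e (nat_lit 516115) (nat_lit 1) (.e (nat_lit 164182) (nat_lit 154) (.e (nat_lit 57359) (nat_lit 0) .nil)))))))) (.g (nat_lit 4) .nil .nil)))))) 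
(.nd (nat_lit 3) (.nd (nat_lit 4) (.nd (nat_lit 5) 
(.lf (nat_lit 75974) (.g (nat_lit 2051) (.e (nat_lit 1796) (nat_lit 119) (.e (nat_lit 516122) (nat_lit 2) (.e (nat_lit 213032) (nat_lit 11) (.e (nat_lit 24608) (nat_lit 3) (.e (nat_lit 98380) (nat_lit 31) (.e (nat_lit 466945) (nat_lit 0) .nil)))))) (.g (nat_lit 0) .nil .nil))) 
(.lf (nat_lit 76006) (.g (nat_lit 1567) (.e (nat_lit 1796) (nat_lit 119) (.e (nat_lit 516129) (nat_lit 3) (.e (nat_lit 221193) (nat_lit 11) (.e (nat_lit 336012) (nat_lit 2) (.e (nat_lit 90178) (nat_lit 15) (.e (nat_lit 196352) (nat_lit 0) .nil)))))) (.g (nat_lit 4) .nil .nil)))) (.nd (nat_lit 5) 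
(.lf (nat_lit 75990) (.g (nat_lit 1220) (.e (nat_lit 1796) (nat_lit 119) (.e (nat_lit 516126) (nat_lit 2) (.e (nat_lit 213032) (nat_lit 11) (.e (nat_lit 24605) (nat_lit 2) (.e (nat_lit 90178) (nat_lit 15) (.e (nat_lit 196352) (nat_lit 0) .nil)))))) (.g (nat_lit 4) .nil .nil))) 
(.lf (nat_lit 76022) (.g (nat_lit 1535) (.e (nat_lit 1796) (nat_lit 119) (.e (nat_lit 516129) (nat_lit 3) (.e (nat_lit 229120) (nat_lit 11) (.e (nat_lit 336028) (nat_lit 3) (.e (nat_lit 98369) (nat_lit 28) (.e (nat_lit 442373) (nat_lit 0) .nil)))))) (.g (nat_lit 5) .nil .nil))))) (.nd (nat_lit 4) (.nd (nat_lit 5) 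
(.lf (nat_lit 75982) (.g (nat_lit 1435) (.e (nat_lit 1796) (nat_lit 119) (.e (nat_lit 516124) (nat_lit 2) (.e (nat_lit 213030) (nat_lit 11) (.e (nat_lit 24608) (nat_lit 3) (.e (nat_lit 98369) (nat_lit 28) (.e (nat_lit 442373) (nat_lit 0) .nil)))))) (.g (nat_lit 4) .nil .nil))) 
(.lf (nat_lit 76014) (.g (nat_lit 1588) (.e (nat_lit 1796) (nat_lit 119) (.e (nat_lit 516129) (nat_lit 3) (.e (nat_lit 221194) (nat_lit 11) (.e (nat_lit 336026) (nat_lit 3) (.e (nat_lit 98380) (nat_lit 31) (.e (nat_lit 466945) (nat_lit 0) .nil)))))) (.g (nat_lit 4) .nil .nil)))) (.nd (nat_lit 5) 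
(.lf (nat_lit 75998) (.g (nat_lit 1559) (.e (nat_lit 1796) (nat_lit 119) (.e (nat_lit 516127) (nat_lit 2) (.e (nat_lit 213032) (nat_lit 11) (.e (nat_lit 24608) (nat_lit 3) (.e (nat_lit 98381) (nat_lit 31) .nil))))) .nil)) 
(.lf (nat_lit 76030) (.g (nat_lit 738) (.e (nat_lit 1796) (nat_lit 119) (.e (nat_lit 516130) (nat_lit 3) (.e (nat_lit 221191) (nat_lit 11) (.e (nat_lit 336017) (nat_lit 3) (.e (nat_lit 98381) (nat_lit 31) (.e (nat_lit 466945) (nat_lit 0) .nil)))))) (.g (nat_lit 4) .nil .nil)))))))) (.nd (nat_lit 1) (.nd (nat_lit 2) (.nd (nat_lit 3) (.nd (nat_lit 4) (.nd (nat_lit 5) 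
(.lf (nat_lit 75969) (.g (nat_lit 1901) (.e (nat_lit 1796) (nat_lit 119) (.e (nat_lit 516120) (nat_lit 1) (.e (nat_lit 164332) (nat_lit 230) (.e (nat_lit 163941) (nat_lit 19) .nil)))) .nil)) 
(.lf (nat_lit 76001) (.g (nat_lit 1939) (.e (nat_lit 1796) (nat_lit 119) (.e (nat_lit 516129) (nat_lit 3) (.e (nat_lit 221192) (nat_lit 11) (.e (nat_lit 336017) (nat_lit 3) (.e (nat_lit 98370) (nat_lit 28) (.e (nat_lit 442373) (nat_lit 0) .nil)))))) (.g (nat_lit 5) .nil .nil)))) (.nd (nat_lit 5) 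
(.lf (nat_lit 75985) (.g (nat_lit 1087) (.e (nat_lit 1796) (nat_lit 119) (.e (nat_lit 516124) (nat_lit 2) (.e (nat_lit 213032) (nat_lit 11) (.e (nat_lit 24605) (nat_lit 2) .nil)))) .nil)) 
(.lf (nat_lit 76017) (.g (nat_lit 2071) (.e (nat_lit 1796) (nat_lit 119) (.e (nat_lit 516129) (nat_lit 3) (.e (nat_lit 221194) (nat_lit 11) (.e (nat_lit 336027) (nat_lit 3) (.e (nat_lit 98370) (nat_lit 28) (.e (nat_lit 442373) (nat_lit 0) .nil)))))) (.g (nat_lit 4) .nil .nil))))) (.nd (nat_lit 4) (.nd (nat_lit 5) 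
(.lf (nat_lit 75977) (.g (nat_lit 2355) (.e (nat_lit 1796) (nat_lit 119) (.e (nat_lit 516124) (nat_lit 2) (.e (nat_lit 213019) (nat_lit 9) (.e (nat_lit 250) (nat_lit 21) (.e (nat_lit 336012) (nat_lit 2) (.e (nat_lit 90176) (nat_lit 15) (.e (nat_lit 196352) (nat_lit 0) .nil))))))) (.g (nat_lit 6) .nil .nil))) 
(.lf (nat_lit 76009) (.g (nat_lit 2296) (.e (nat_lit 1796) (nat_lit 119) (.e (nat_lit 516129) (nat_lit 3) (.e (nat_lit 221194) (nat_lit 11) (.e (nat_lit 336012) (nat_lit 2) (.e (nat_lit 90176) (nat_lit 15) (.e (nat_lit 196352) (nat_lit 0) .nil)))))) (.g (nat_lit 5) .nil .nil)))) (.nd (nat_lit 5) 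
(.lf (nat_lit 75993) (.g (nat_lit 1658) (.e (nat_lit 1796) (nat_lit 119) (.e (nat_lit 516127) (nat_lit 2) (.e (nat_lit 213032) (nat_lit 11) (.e (nat_lit 24604) (nat_lit 2) (.e (nat_lit 90178) (nat_lit 15) (.e (nat_lit 196352) (nat_lit 0) .nil)))))) (.g (nat_lit 4) .nil .nil))) 
(.lf (nat_lit 76025) (.g (nat_lit 1529) (.e (nat_lit 1796) (nat_lit 119) (.e (nat_lit 516129) (nat_lit 3) (.e (nat_lit 229120) (nat_lit 15) (.e (nat_lit 368676) (nat_lit 21) (.e (nat_lit 516174) (nat_lit 14) (.e (nat_lit 466945) (nat_lit 0) .nil)))))) (.g (nat_lit 5) .nil .nil)))))) (.nd (nat_lit 3) (.nd (nat_lit 4) (.nd (nat_lit 5) 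
(.lf (nat_lit 75973) (.g (nat_lit 1423) (.e (nat_lit 1796) (nat_lit 119) (.e (nat_lit 516122) (nat_lit 2) (.e (nat_lit 213032) (nat_lit 11) (.e (nat_lit 24604) (nat_lit 2) (.e (nat_lit 90178) (nat_lit 15) .nil))))) .nil)) 
(.lf (nat_lit 76005) (.g (nat_lit 1588) (.e (nat_lit 1796) (nat_lit 119) (.e (nat_lit 516129) (nat_lit 3) (.e (nat_lit 221193) (nat_lit 11) (.e (nat_lit 336012) (nat_lit 2) (.e (nat_lit 90176) (nat_lit 15) (.e (nat_lit 196352) (nat_lit 0) .nil)))))) (.g (nat_lit 4) .nil .nil)))) (.nd (nat_lit 5) 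
(.lf (nat_lit 75989) (.g (nat_lit 1156) (.e (nat_lit 1796) (nat_lit 119) (.e (nat_lit 516126) (nat_lit 2) (.e (nat_lit 213032) (nat_lit 11) (.e (nat_lit 24605) (nat_lit 2) (.e (nat_lit 90176) (nat_lit 15) (.e (nat_lit 196352) (nat_lit 0) .nil)))))) (.g (nat_lit 4) .nil .nil))) 
(.lf (nat_lit 76021) (.g (nat_lit 994) (.e (nat_lit 1796) (nat_lit 119) (.e (nat_lit 516129) (nat_lit 3) (.e (nat_lit 229120) (nat_lit 11) (.e (nat_lit 336019) (nat_lit 3) (.e (nat_lit 98380) (nat_lit 31) (.e (nat_lit 466945) (nat_lit 0) .nil)))))) (.g (nat_lit 4) .nil .nil))))) (.nd (nat_lit 4) (.nd (nat_lit 5) 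
(.lf (nat_lit 75981) (.g (nat_lit 1421) (.e (nat_lit 1796) (nat_lit 119) (.e (nat_lit 516124) (nat_lit 2) (.e (nat_lit 213030) (nat_lit 11) (.e (nat_lit 24605) (nat_lit 2) (.e (nat_lit 90178) (nat_lit 15) (.e (nat_lit 196352) (nat_lit 0) .nil)))))) (.g (nat_lit 5) .nil .nil))) 
(.lf (nat_lit 76013) (.g (nat_lit 1733) (.e (nat_lit 1796) (nat_lit 119) (.e (nat_lit 516129) (nat_lit 3) (.e (nat_lit 221194) (nat_lit 11) (.e (nat_lit 336026) (nat_lit 3) (.e (nat_lit 98370) (nat_lit 28) (.e (nat_lit 442373) (nat_lit 0) .nil)))))) (.g (nat_lit 4) .nil .nil)))) (.nd (nat_lit 5) 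
(.lf (nat_lit 75997) (.g (nat_lit 1527) (.e (nat_lit 1796) (nat_lit 119) (.e (nat_lit 516127) (nat_lit 2) (.e (nat_lit 213032) (nat_lit 11) (.e (nat_lit 24608) (nat_lit 3) (.e (nat_lit 98380) (nat_lit 31) (.e (nat_lit 466945) (nat_lit 0) .nil)))))) (.g (nat_lit 4) .nil .nil))) 
(.lf (nat_lit 76029) (.g (nat_lit 741) (.e (nat_lit 1796) (nat_lit 119) (.e (nat_lit 516130) (nat_lit 3) (.e (nat_lit 221191) (nat_lit 11) (.e (nat_lit 336017) (nat_lit 3) (.e (nat_lit 98380) (nat_lit 31) (.e (nat_lit 466945) (nat_lit 0) .nil)))))) (.g (nat_lit 4) .nil .nil))))))) (.nd (nat_lit 2) (.nd (nat_lit 3) (.nd (nat_lit 4) (.nd (nat_lit 5) 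
(.lf (nat_lit 75971) (.g (nat_lit 2476) (.e (nat_lit 1796) (nat_lit 119) (.e (nat_lit 516120) (nat_lit 1) (.e (nat_lit 164401) (nat_lit 256) (.e (nat_lit 57373) (nat_lit 2) (.e (nat_lit 90174) (nat_lit 14) .nil))))) .nil)) 
(.lf (nat_lit 76003) (.g (nat_lit 1333) (.e (nat_lit 1796) (nat_lit 119) (.e (nat_lit 516129) (nat_lit 3) (.e (nat_lit 221192) (nat_lit 11) (.e (nat_lit 336017) (nat_lit 3) (.e (nat_lit 98381) (nat_lit 31) (.e (nat_lit 466945) (nat_lit 0) .nil)))))) (.g (nat_lit 5) .nil .nil)))) (.nd (nat_lit 5) 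
(.lf (nat_lit 75987) (.g (nat_lit 1765) (.e (nat_lit 1796) (nat_lit 119) (.e (nat_lit 516124) (nat_lit 2) (.e (nat_lit 213032) (nat_lit 11) (.e (nat_lit 24608) (nat_lit 3) (.e (nat_lit 98380) (nat_lit 31) (.e (nat_lit 466945) (nat_lit 0) .nil)))))) (.g (nat_lit 4) .nil .nil))) 
(.lf (nat_lit 76019) (.g (nat_lit 1968) (.e (nat_lit 1796) (nat_lit 119) (.e (nat_lit 516129) (nat_lit 3) (.e (nat_lit 221194) (nat_lit 11) (.e (nat_lit 336027) (nat_lit 3) (.e (nat_lit 98381) (nat_lit 31) (.e (nat_lit 466945) (nat_lit 0) .nil)))))) (.g (nat_lit 4) .nil .nil))))) (.nd (nat_lit 4) (.nd (nat_lit 5) 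
(.lf (nat_lit 75979) (.g (nat_lit 1528) (.e (nat_lit 1796) (nat_lit 119) (.e (nat_lit 516124) (nat_lit 2) (.e (nat_lit 213030) (nat_lit 11) (.e (nat_lit 24604) (nat_lit 2) (.e (nat_lit 90176) (nat_lit 15) (.e (nat_lit 196352) (nat_lit 0) .nil)))))) (.g (nat_lit 4) .nil .nil))) 
(.lf (nat_lit 76011) (.g (nat_lit 1371) (.e (nat_lit 1796) (nat_lit 119) (.e (nat_lit 516129) (nat_lit 3) (.e (nat_lit 221194) (nat_lit 11) (.e (nat_lit 336025) (nat_lit 3) .nil)))) .nil))) (.nd (nat_lit 5) 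
(.lf (nat_lit 75995) (.g (nat_lit 1521) (.e (nat_lit 1796) (nat_lit 119) (.e (nat_lit 516127) (nat_lit 2) (.e (nat_lit 213032) (nat_lit 11) (.e (nat_lit 24605) (nat_lit 2) (.e (nat_lit 90178) (nat_lit 15) (.e (nat_lit 196352) (nat_lit 0) .nil)))))) (.g (nat_lit 5) .nil .nil))) 
(.lf (nat_lit 76027) (.g (nat_lit 547) (.e (nat_lit 1796) (nat_lit 119) (.e (nat_lit 516129) (nat_lit 3) (.e (nat_lit 221217) (nat_lit 24) .nil))) .nil))))) (.nd (nat_lit 3) (.nd (nat_lit 4) (.nd (nat_lit 5) 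
(.lf (nat_lit 75975) (.g (nat_lit 2573) (.e (nat_lit 1796) (nat_lit 119) (.e (nat_lit 516123) (nat_lit 2) (.e (nat_lit 213032) (nat_lit 11) (.e (nat_lit 24608) (nat_lit 3) (.e (nat_lit 98380) (nat_lit 31) (.e (nat_lit 466945) (nat_lit 0) .nil)))))) (.g (nat_lit 4) .nil .nil))) 
(.lf (nat_lit 76007) (.g (nat_lit 1874) (.e (nat_lit 1796) (nat_lit 119) (.e (nat_lit 516129) (nat_lit 3) (.e (nat_lit 221194) (nat_lit 11) (.e (nat_lit 336010) (nat_lit 2) (.e (nat_lit 90176) (nat_lit 15) (.e (nat_lit 196352) (nat_lit 0) .nil)))))) (.g (nat_lit 5) .nil .nil)))) (.nd (nat_lit 5) 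
(.lf (nat_lit 75991) (.g (nat_lit 1492) (.e (nat_lit 1796) (nat_lit 119) (.e (nat_lit 516126) (nat_lit 2) (.e (nat_lit 213032) (nat_lit 11) (.e (nat_lit 24608) (nat_lit 3) (.e (nat_lit 98369) (nat_lit 28) .nil))))) .nil)) 
(.lf (nat_lit 76023) (.g (nat_lit 1926) (.e (nat_lit 1796) (nat_lit 119) (.e (nat_lit 516129) (nat_lit 3) (.e (nat_lit 229120) (nat_lit 11) (.e (nat_lit 336028) (nat_lit 3) (.e (nat_lit 98370) (nat_lit 28) (.e (nat_lit 442373) (nat_lit 0) .nil)))))) (.g (nat_lit 5) .nil .nil))))) (.nd (nat_lit 4) (.nd (nat_lit 5) 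
(.lf (nat_lit 75983) (.g (nat_lit 1478) (.e (nat_lit 1796) (nat_lit 119) (.e (nat_lit 516124) (nat_lit 2) (.e (nat_lit 213030) (nat_lit 11) (.e (nat_lit 24608) (nat_lit 3) (.e (nat_lit 98380) (nat_lit 31) (.e (nat_lit 466945) (nat_lit 0) .nil)))))) (.g (nat_lit 4) .nil .nil))) 
(.lf (nat_lit 76015) (.g (nat_lit 1580) (.e (nat_lit 1796) (nat_lit 119) (.e (nat_lit 516129) (nat_lit 3) (.e (nat_lit 221194) (nat_lit 11) (.e (nat_lit 336026) (nat_lit 3) (.e (nat_lit 98381) (nat_lit 31) (.e (nat_lit 466945) (nat_lit 0) .nil)))))) (.g (nat_lit 4) .nil .nil)))) (.nd (nat_lit 5) 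
(.lf (nat_lit 75999) (.g (nat_lit 1359) (.e (nat_lit 1796) (nat_lit 119) (.e (nat_lit 516129) (nat_lit 3) (.e (nat_lit 221190) (nat_lit 11) (.e (nat_lit 336027) (nat_lit 3) (.e (nat_lit 98369) (nat_lit 28) (.e (nat_lit 442373) (nat_lit 0) .nil)))))) (.g (nat_lit 4) .nil .nil))) 
(.lf (nat_lit 76031) (.g (nat_lit 1197) (.e (nat_lit 1796) (nat_lit 119) (.e (nat_lit 516130) (nat_lit 3) (.e (nat_lit 221193) (nat_lit 11) (.e (nat_lit 336010) (nat_lit 2) (.e (nat_lit 90176) (nat_lit 15) (.e (nat_lit 196352) (nat_lit 0) .nil)))))) (.g (nat_lit 5) .nil .nil)))))))))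

noncomputable def tv1029 : DT := (.nd (nat_lit 0) (.nd (nat_lit 1) (.nd (nat_lit 2) (.nd (nat_lit 3) (.nd (nat_lit 4) (.nd (nat_lit 5) 
(.lf (nat_lit 76032) (.g (nat_lit 1258) (.e (nat_lit 1796) (nat_lit 119) (.e (nat_lit 516130) (nat_lit 3) (.e (nat_lit 221193) (nat_lit 11) (.e (nat_lit 336010) (nat_lit 2) (.e (nat_lit 90178) (nat_lit 15) (.e (nat_lit 196352) (nat_lit 0) .nil)))))) (.g (nat_lit 5) .nil .nil))) 
(.lf (nat_lit 76064) (.g (nat_lit 1204) (.e (nat_lit 1796) (nat_lit 119) (.e (nat_lit 516131) (nat_lit 3) (.e (nat_lit 221191) (nat_lit 11) (.e (nat_lit 336017) (nat_lit 3) (.e (nat_lit 98381) (nat_lit 31) (.e (nat_lit 466945) (nat_lit 0) .nil)))))) (.g (nat_lit 5) .nil .nil)))) (.nd (nat_lit 5) 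
(.lf (nat_lit 76048) (.g (nat_lit 2450) (.e (nat_lit 1796) (nat_lit 119) (.e (nat_lit 516130) (nat_lit 3) (.e (nat_lit 221194) (nat_lit 11) (.e (nat_lit 336012) (nat_lit 2) (.e (nat_lit 90176) (nat_lit 15) (.e (nat_lit 196352) (nat_lit 0) .nil)))))) (.g (nat_lit 5) .nil .nil))) 
(.lf (nat_lit 76080) (.g (nat_lit 2847) (.e (nat_lit 1796) (nat_lit 119) (.e (nat_lit 516131) (nat_lit 3) (.e (nat_lit 221212) (nat_lit 22) (.e (nat_lit 196668) (nat_lit 14) (.e (nat_lit 73747) (nat_lit 3) (.e (nat_lit 516119) (nat_lit 1) (.e (nat_lit 164184) (nat_lit 155) (.e (nat_lit 122886) (nat_lit 0) .nil)))))))) (.g (nat_lit 5) .nil .nil))))) (.nd (nat_lit 4) (.nd (nat_lit 5) 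
(.lf (nat_lit 76040) (.g (nat_lit 869) (.e (nat_lit 1796) (nat_lit 119) (.e (nat_lit 516130) (nat_lit 3) (.e (nat_lit 221193) (nat_lit 11) (.e (nat_lit 336026) (nat_lit 3) (.e (nat_lit 98381) (nat_lit 31) (.e (nat_lit 466945) (nat_lit 0) .nil)))))) (.g (nat_lit 4) .nil .nil))) 
(.lf (nat_lit 76072) (.g (nat_lit 1455) (.e (nat_lit 1796) (nat_lit 119) (.e (nat_lit 516131) (nat_lit 3) (.e (nat_lit 229120) (nat_lit 11) (.e (nat_lit 336028) (nat_lit 3) (.e (nat_lit 98369) (nat_lit 28) (.e (nat_lit 442373) (nat_lit 0) .nil)))))) (.g (nat_lit 5) .nil .nil)))) (.nd (nat_lit 5) 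
(.lf (nat_lit 76056) (.g (nat_lit 2329) (.e (nat_lit 1796) (nat_lit 119) (.e (nat_lit 516130) (nat_lit 3) (.e (nat_lit 221194) (nat_lit 11) (.e (nat_lit 336027) (nat_lit 3) (.e (nat_lit 98369) (nat_lit 28) (.e (nat_lit 442373) (nat_lit 0) .nil)))))) (.g (nat_lit 5) .nil .nil))) 
(.lf (nat_lit 76088) (.g (nat_lit 3472) (.e (nat_lit 1796) (nat_lit 119) (.e (nat_lit 516139) (nat_lit 7) (.e (nat_lit 409602) (nat_lit 0) (.e (nat_lit 5293) (nat_lit 298) (.e (nat_lit 1232) (nat_lit 91) (.e (nat_lit 90174) (nat_lit 14) (.e (nat_lit 180275) (nat_lit 32) (.e (nat_lit 1074) (nat_lit 81) .nil)))))))) (.g (nat_lit 4) .nil .nil)))))) (.nd (nat_lit 3) (.nd (nat_lit 4) (.nd (nat_lit 5) 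
(.lf (nat_lit 76036) (.g (nat_lit 1041) (.e (nat_lit 1796) (nat_lit 119) (.e (nat_lit 516130) (nat_lit 3) (.e (nat_lit 221193) (nat_lit 11) (.e (nat_lit 336025) (nat_lit 3) (.e (nat_lit 98380) (nat_lit 31) (.e (nat_lit 466945) (nat_lit 0) .nil)))))) (.g (nat_lit 4) .nil .nil))) 
(.lf (nat_lit 76068) (.g (nat_lit 1348) (.e (nat_lit 1796) (nat_lit 119) (.e (nat_lit 516131) (nat_lit 3) (.e (nat_lit 221193) (nat_lit 11) (.e (nat_lit 336012) (nat_lit 2) (.e (nat_lit 90176) (nat_lit 15) (.e (nat_lit 196352) (nat_lit 0) .nil)))))) (.g (nat_lit 4) .nil .nil)))) (.nd (nat_lit 5) 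
(.lf (nat_lit 76052) (.g (nat_lit 1941) (.e (nat_lit 1796) (nat_lit 119) (.e (nat_lit 516130) (nat_lit 3) (.e (nat_lit 221194) (nat_lit 11) (.e (nat_lit 336026) (nat_lit 3) (.e (nat_lit 98369) (nat_lit 28) (.e (nat_lit 442373) (nat_lit 0) .nil)))))) (.g (nat_lit 5) .nil .nil))) 
(.lf (nat_lit 76084) (.g (nat_lit 4709) (.e (nat_lit 1796) (nat_lit 119) (.e (nat_lit 516139) (nat_lit 7) (.e (nat_lit 409602) (nat_lit 0) (.e (nat_lit 5293) (nat_lit 298) (.e (nat_lit 1232) (nat_lit 91) (.e (nat_lit 90172) (nat_lit 14) (.e (nat_lit 180276) (nat_lit 32) (.e (nat_lit 1074) (nat_lit 81) .nil)))))))) (.g (nat_lit 6) .nil .nil))))) (.nd (nat_lit 4) (.nd (nat_lit 5) 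
(.lf (nat_lit 76044) (.g (nat_lit 1246) (.e (nat_lit 1796) (nat_lit 119) (.e (nat_lit 516130) (nat_lit 3) (.e (nat_lit 221193) (nat_lit 11) (.e (nat_lit 336027) (nat_lit 3) (.e (nat_lit 98381) (nat_lit 31) (.e (nat_lit 466945) (nat_lit 0) .nil)))))) (.g (nat_lit 4) .nil .nil))) 
(.lf (nat_lit 76076) (.g (nat_lit 1529) (.e (nat_lit 1796) (nat_lit 119) (.e (nat_lit 516131) (nat_lit 3) (.e (nat_lit 229120) (nat_lit 15) (.e (nat_lit 368676) (nat_lit 21) (.e (nat_lit 516174) (nat_lit 14) (.e (nat_lit 466945) (nat_lit 0) .nil)))))) (.g (nat_lit 5) .nil .nil)))) (.nd (nat_lit 5) 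
(.lf (nat_lit 76060) (.g (nat_lit 1377) (.e (nat_lit 1796) (nat_lit 119) (.e (nat_lit 516130) (nat_lit 3) (.e (nat_lit 229120) (nat_lit 12) (.e (nat_lit 344117) (nat_lit 21) (.e (nat_lit 516162) (nat_lit 11) (.e (nat_lit 442373) (nat_lit 0) .nil)))))) (.g (nat_lit 5) .nil .nil))) 
(.lf (nat_lit 76092) (.g (nat_lit 2461) (.e (nat_lit 1796) (nat_lit 119) (.e (nat_lit 516139) (nat_lit 7) (.e (nat_lit 417536) (nat_lit 6) (.e (nat_lit 286733) (nat_lit 2) (.e (nat_lit 90172) (nat_lit 14) (.e (nat_lit 180276) (nat_lit 32) (.e (nat_lit 1074) (nat_lit 81) .nil))))))) (.g (nat_lit 5) .nil .nil))))))) (.nd (nat_lit 2) (.nd (nat_lit 3) (.nd (nat_lit 4) (.nd (nat_lit 5) 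
(.lf (nat_lit 76034) (.g (nat_lit 1630) (.e (nat_lit 1796) (nat_lit 119) (.e (nat_lit 516130) (nat_lit 3) (.e (nat_lit 221193) (nat_lit 11) (.e (nat_lit 336012) (nat_lit 2) (.e (nat_lit 90178) (nat_lit 15) (.e (nat_lit 196352) (nat_lit 0) .nil)))))) (.g (nat_lit 5) .nil .nil))) 
(.lf (nat_lit 76066) (.g (nat_lit 1003) (.e (nat_lit 1796) (nat_lit 119) (.e (nat_lit 516131) (nat_lit 3) (.e (nat_lit 221192) (nat_lit 11) (.e (nat_lit 336017) (nat_lit 3) (.e (nat_lit 98381) (nat_lit 31) (.e (nat_lit 466945) (nat_lit 0) .nil)))))) (.g (nat_lit 4) .nil .nil)))) (.nd (nat_lit 5) 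
(.lf (nat_lit 76050) (.g (nat_lit 1169) (.e (nat_lit 1796) (nat_lit 119) (.e (nat_lit 516130) (nat_lit 3) (.e (nat_lit 221194) (nat_lit 11) (.e (nat_lit 336020) (nat_lit 3) .nil)))) .nil)) 
(.lf (nat_lit 76082) (.g (nat_lit 2567) (.e (nat_lit 1796) (nat_lit 119) (.e (nat_lit 516131) (nat_lit 3) (.e (nat_lit 221215) (nat_lit 23) (.e (nat_lit 204846) (nat_lit 24) (.e (nat_lit 319505) (nat_lit 10) (.e (nat_lit 584) (nat_lit 43) (.e (nat_lit 516129) (nat_lit 3) (.e (nat_lit 221185) (nat_lit 0) .nil)))))))) (.g (nat_lit 4) .nil .nil))))) (.nd (nat_lit 4) (.nd (nat_lit 5) 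
(.lf (nat_lit 76042) (.g (nat_lit 1557) (.e (nat_lit 1796) (nat_lit 119) (.e (nat_lit 516130) (nat_lit 3) (.e (nat_lit 221193) (nat_lit 11) (.e (nat_lit 336027) (nat_lit 3) (.e (nat_lit 98370) (nat_lit 28) (.e (nat_lit 442373) (nat_lit 0) .nil)))))) (.g (nat_lit 5) .nil .nil))) 
(.lf (nat_lit 76074) (.g (nat_lit 1447) (.e (nat_lit 1796) (nat_lit 119) (.e (nat_lit 516131) (nat_lit 3) (.e (nat_lit 229120) (nat_lit 12) (.e (nat_lit 344117) (nat_lit 21) (.e (nat_lit 516176) (nat_lit 14) (.e (nat_lit 466945) (nat_lit 0) .nil)))))) (.g (nat_lit 5) .nil .nil)))) (.nd (nat_lit 5) 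
(.lf (nat_lit 76058) (.g (nat_lit 2110) (.e (nat_lit 1796) (nat_lit 119) (.e (nat_lit 516130) (nat_lit 3) (.e (nat_lit 221194) (nat_lit 11) (.e (nat_lit 336027) (nat_lit 3) (.e (nat_lit 98380) (nat_lit 31) (.e (nat_lit 466945) (nat_lit 0) .nil)))))) (.g (nat_lit 5) .nil .nil))) 
(.lf (nat_lit 76090) (.g (nat_lit 1347) (.e (nat_lit 1796) (nat_lit 119) (.e (nat_lit 516139) (nat_lit 7) (.e (nat_lit 409603) (nat_lit 0) (.e (nat_lit 5293) (nat_lit 298) (.e (nat_lit 1232) (nat_lit 91) .nil))))) .nil))))) (.nd (nat_lit 3) (.nd (nat_lit 4) (.nd (nat_lit 5) 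
(.lf (nat_lit 76038) (.g (nat_lit 1067) (.e (nat_lit 1796) (nat_lit 119) (.e (nat_lit 516130) (nat_lit 3) (.e (nat_lit 221193) (nat_lit 11) (.e (nat_lit 336026) (nat_lit 3) (.e (nat_lit 98369) (nat_lit 28) (.e (nat_lit 442373) (nat_lit 0) .nil)))))) (.g (nat_lit 5) .nil .nil))) 
(.lf (nat_lit 76070) (.g (nat_lit 1505) (.e (nat_lit 1796) (nat_lit 119) (.e (nat_lit 516131) (nat_lit 3) (.e (nat_lit 221194) (nat_lit 11) (.e (nat_lit 336012) (nat_lit 2) (.e (nat_lit 90176) (nat_lit 15) (.e (nat_lit 196352) (nat_lit 0) .nil)))))) (.g (nat_lit 4) .nil .nil)))) (.nd (nat_lit 5) 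
(.lf (nat_lit 76054) (.g (nat_lit 1754) (.e (nat_lit 1796) (nat_lit 119) (.e (nat_lit 516130) (nat_lit 3) (.e (nat_lit 221194) (nat_lit 11) (.e (nat_lit 336026) (nat_lit 3) (.e (nat_lit 98380) (nat_lit 31) (.e (nat_lit 466945) (nat_lit 0) .nil)))))) (.g (nat_lit 4) .nil .nil))) 
(.lf (nat_lit 76086) (.g (nat_lit 3249) (.e (nat_lit 1796) (nat_lit 119) (.e (nat_lit 516139) (nat_lit 7) (.e (nat_lit 409602) (nat_lit 0) (.e (nat_lit 5293) (nat_lit 298) (.e (nat_lit 1232) (nat_lit 91) (.e (nat_lit 90173) (nat_lit 14) (.e (nat_lit 180275) (nat_lit 32) (.e (nat_lit 1074) (nat_lit 81) .nil)))))))) (.g (nat_lit 4) .nil .nil))))) (.nd (nat_lit 4) (.nd (nat_lit 5) 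
(.lf (nat_lit 76046) (.g (nat_lit 1831) (.e (nat_lit 1796) (nat_lit 119) (.e (nat_lit 516130) (nat_lit 3) (.e (nat_lit 221194) (nat_lit 11) (.e (nat_lit 336010) (nat_lit 2) (.e (nat_lit 90176) (nat_lit 15) (.e (nat_lit 196352) (nat_lit 0) .nil)))))) (.g (nat_lit 5) .nil .nil))) 
(.lf (nat_lit 76078) (.g (nat_lit 1708) (.e (nat_lit 1796) (nat_lit 119) (.e (nat_lit 516131) (nat_lit 3) (.e (nat_lit 221212) (nat_lit 22) (.e (nat_lit 196668) (nat_lit 14) (.e (nat_lit 73747) (nat_lit 3) .nil))))) .nil))) (.nd (nat_lit 5) 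
(.lf (nat_lit 76062) (.g (nat_lit 1678) (.e (nat_lit 1796) (nat_lit 119) (.e (nat_lit 516131) (nat_lit 3) (.e (nat_lit 221191) (nat_lit 11) (.e (nat_lit 336017) (nat_lit 3) (.e (nat_lit 98370) (nat_lit 28) (.e (nat_lit 442373) (nat_lit 0) .nil)))))) (.g (nat_lit 5) .nil .nil))) 
(.lf (nat_lit 76094) (.g (nat_lit 2381) (.e (nat_lit 1796) (nat_lit 119) (.e (nat_lit 516139) (nat_lit 7) (.e (nat_lit 417536) (nat_lit 6) (.e (nat_lit 286733) (nat_lit 2) (.e (nat_lit 90174) (nat_lit 14) (.e (nat_lit 180275) (nat_lit 32) (.e (nat_lit 1077) (nat_lit 81) .nil))))))) (.g (nat_lit 5) .nil .nil)))))))) 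
(.nd (nat_lit 1) (.nd (nat_lit 2) (.nd (nat_lit 3) (.nd (nat_lit 4) (.nd (nat_lit 5) 
(.lf (nat_lit 76033) (.g (nat_lit 1651) (.e (nat_lit 1796) (nat_lit 119) (.e (nat_lit 516130) (nat_lit 3) (.e (nat_lit 221193) (nat_lit 11) (.e (nat_lit 336012) (nat_lit 2) (.e (nat_lit 90176) (nat_lit 15) (.e (nat_lit 196352) (nat_lit 0) .nil)))))) (.g (nat_lit 5) .nil .nil))) 
(.lf (nat_lit 76065) (.g (nat_lit 1011) (.e (nat_lit 1796) (nat_lit 119) (.e (nat_lit 516131) (nat_lit 3) (.e (nat_lit 221192) (nat_lit 11) (.e (nat_lit 336017) (nat_lit 3) (.e (nat_lit 98380) (nat_lit 31) (.e (nat_lit 466945) (nat_lit 0) .nil)))))) (.g (nat_lit 4) .nil .nil)))) (.nd (nat_lit 5) 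
(.lf (nat_lit 76049) (.g (nat_lit 2491) (.e (nat_lit 1796) (nat_lit 119) (.e (nat_lit 516130) (nat_lit 3) (.e (nat_lit 221194) (nat_lit 11) (.e (nat_lit 336012) (nat_lit 2) (.e (nat_lit 90178) (nat_lit 15) (.e (nat_lit 196352) (nat_lit 0) .nil)))))) (.g (nat_lit 5) .nil .nil))) 
(.lf (nat_lit 76081) (.g (nat_lit 2302) (.e (nat_lit 1796) (nat_lit 119) (.e (nat_lit 516131) (nat_lit 3) (.e (nat_lit 221212) (nat_lit 22) (.e (nat_lit 196670) (nat_lit 14) (.e (nat_lit 73746) (nat_lit 3) (.e (nat_lit 516119) (nat_lit 1) (.e (nat_lit 164176) (nat_lit 154) (.e (nat_lit 57359) (nat_lit 0) .nil)))))))) (.g (nat_lit 5) .nil .nil))))) (.nd (nat_lit 4) (.nd (nat_lit 5) 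
(.lf (nat_lit 76041) (.g (nat_lit 1468) (.e (nat_lit 1796) (nat_lit 119) (.e (nat_lit 516130) (nat_lit 3) (.e (nat_lit 221193) (nat_lit 11) (.e (nat_lit 336027) (nat_lit 3) (.e (nat_lit 98369) (nat_lit 28) (.e (nat_lit 442373) (nat_lit 0) .nil)))))) (.g (nat_lit 5) .nil .nil))) 
(.lf (nat_lit 76073) (.g (nat_lit 1739) (.e (nat_lit 1796) (nat_lit 119) (.e (nat_lit 516131) (nat_lit 3) (.e (nat_lit 229120) (nat_lit 12) (.e (nat_lit 344117) (nat_lit 21) (.e (nat_lit 516174) (nat_lit 14) (.e (nat_lit 466945) (nat_lit 0) .nil)))))) (.g (nat_lit 5) .nil .nil)))) (.nd (nat_lit 5) 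
(.lf (nat_lit 76057) (.g (nat_lit 2384) (.e (nat_lit 1796) (nat_lit 119) (.e (nat_lit 516130) (nat_lit 3) (.e (nat_lit 221194) (nat_lit 11) (.e (nat_lit 336027) (nat_lit 3) (.e (nat_lit 98370) (nat_lit 28) (.e (nat_lit 442373) (nat_lit 0) .nil)))))) (.g (nat_lit 5) .nil .nil))) 
(.lf (nat_lit 76089) (.g (nat_lit 3340) (.e (nat_lit 1796) (nat_lit 119) (.e (nat_lit 516139) (nat_lit 7) (.e (nat_lit 409602) (nat_lit 0) (.e (nat_lit 5293) (nat_lit 298) (.e (nat_lit 1232) (nat_lit 91) (.e (nat_lit 90174) (nat_lit 14) (.e (nat_lit 180275) (nat_lit 32) (.e (nat_lit 1077) (nat_lit 81) .nil)))))))) (.g (nat_lit 4) .nil .nil)))))) (.nd (nat_lit 3) (.nd (nat_lit 4) (.nd (nat_lit 5) 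
(.lf (nat_lit 76037) (.g (nat_lit 1016) (.e (nat_lit 1796) (nat_lit 119) (.e (nat_lit 516130) (nat_lit 3) (.e (nat_lit 221193) (nat_lit 11) (.e (nat_lit 336025) (nat_lit 3) (.e (nat_lit 98381) (nat_lit 31) (.e (nat_lit 466945) (nat_lit 0) .nil)))))) (.g (nat_lit 4) .nil .nil))) 
(.lf (nat_lit 76069) (.g (nat_lit 1124) (.e (nat_lit 1796) (nat_lit 119) (.e (nat_lit 516131) (nat_lit 3) (.e (nat_lit 221194) (nat_lit 11) (.e (nat_lit 336010) (nat_lit 2) (.e (nat_lit 90178) (nat_lit 15) (.e (nat_lit 196352) (nat_lit 0) .nil)))))) (.g (nat_lit 4) .nil .nil)))) (.nd (nat_lit 5) 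
(.lf (nat_lit 76053) (.g (nat_lit 2016) (.e (nat_lit 1796) (nat_lit 119) (.e (nat_lit 516130) (nat_lit 3) (.e (nat_lit 221194) (nat_lit 11) (.e (nat_lit 336026) (nat_lit 3) (.e (nat_lit 98370) (nat_lit 28) (.e (nat_lit 442373) (nat_lit 0) .nil)))))) (.g (nat_lit 5) .nil .nil))) 
(.lf (nat_lit 76085) (.g (nat_lit 4462) (.e (nat_lit 1796) (nat_lit 119) (.e (nat_lit 516139) (nat_lit 7) (.e (nat_lit 409602) (nat_lit 0) (.e (nat_lit 5293) (nat_lit 298) (.e (nat_lit 1232) (nat_lit 91) (.e (nat_lit 90172) (nat_lit 14) (.e (nat_lit 180276) (nat_lit 32) (.e (nat_lit 1077) (nat_lit 81) .nil)))))))) (.g (nat_lit 6) .nil .nil))))) (.nd (nat_lit 4) (.nd (nat_lit 5) 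
(.lf (nat_lit 76045) (.g (nat_lit 2482) (.e (nat_lit 1796) (nat_lit 119) (.e (nat_lit 516130) (nat_lit 3) (.e (nat_lit 221194) (nat_lit 11) (.e (nat_lit 336004) (nat_lit 2) (.e (nat_lit 90176) (nat_lit 15) (.e (nat_lit 196352) (nat_lit 0) .nil)))))) (.g (nat_lit 5) .nil .nil))) 
(.lf (nat_lit 76077) (.g (nat_lit 1578) (.e (nat_lit 1796) (nat_lit 119) (.e (nat_lit 516131) (nat_lit 3) (.e (nat_lit 229120) (nat_lit 15) (.e (nat_lit 368676) (nat_lit 21) (.e (nat_lit 516176) (nat_lit 14) (.e (nat_lit 466945) (nat_lit 0) .nil)))))) (.g (nat_lit 5) .nil .nil)))) (.nd (nat_lit 5) 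
(.lf (nat_lit 76061) (.g (nat_lit 1475) (.e (nat_lit 1796) (nat_lit 119) (.e (nat_lit 516131) (nat_lit 3) (.e (nat_lit 221190) (nat_lit 11) (.e (nat_lit 336027) (nat_lit 3) (.e (nat_lit 98369) (nat_lit 28) (.e (nat_lit 442373) (nat_lit 0) .nil)))))) (.g (nat_lit 4) .nil .nil))) 
(.lf (nat_lit 76093) (.g (nat_lit 2508) (.e (nat_lit 1796) (nat_lit 119) (.e (nat_lit 516139) (nat_lit 7) (.e (nat_lit 417536) (nat_lit 6) (.e (nat_lit 286733) (nat_lit 2) (.e (nat_lit 90174) (nat_lit 14) (.e (nat_lit 180275) (nat_lit 32) (.e (nat_lit 1074) (nat_lit 81) .nil))))))) (.g (nat_lit 5) .nil .nil))))))) (.nd (nat_lit 2) (.nd (nat_lit 3) (.nd (nat_lit 4) (.nd (nat_lit 5) 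
(.lf (nat_lit 76035) (.g (nat_lit 1455) (.e (nat_lit 1796) (nat_lit 119) (.e (nat_lit 516130) (nat_lit 3) (.e (nat_lit 221193) (nat_lit 11) (.e (nat_lit 336025) (nat_lit 3) (.e (nat_lit 98369) (nat_lit 28) (.e (nat_lit 442373) (nat_lit 0) .nil)))))) (.g (nat_lit 5) .nil .nil))) 
(.lf (nat_lit 76067) (.g (nat_lit 1109) (.e (nat_lit 1796) (nat_lit 119) (.e (nat_lit 516131) (nat_lit 3) (.e (nat_lit 221193) (nat_lit 11) (.e (nat_lit 336010) (nat_lit 2) (.e (nat_lit 90176) (nat_lit 15) (.e (nat_lit 196352) (nat_lit 0) .nil)))))) (.g (nat_lit 5) .nil .nil)))) (.nd (nat_lit 5) 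
(.lf (nat_lit 76051) (.g (nat_lit 918) (.e (nat_lit 1796) (nat_lit 119) (.e (nat_lit 516130) (nat_lit 3) (.e (nat_lit 221194) (nat_lit 11) (.e (nat_lit 336026) (nat_lit 3) .nil)))) .nil)) 
(.lf (nat_lit 76083) (.g (nat_lit 686) (.e (nat_lit 1796) (nat_lit 119) (.e (nat_lit 516139) (nat_lit 7) (.e (nat_lit 409602) (nat_lit 0) .nil))) .nil)))) (.nd (nat_lit 4) (.nd (nat_lit 5) 
(.lf (nat_lit 76043) (.g (nat_lit 1245) (.e (nat_lit 1796) (nat_lit 119) (.e (nat_lit 516130) (nat_lit 3) (.e (nat_lit 221193) (nat_lit 11) (.e (nat_lit 336027) (nat_lit 3) (.e (nat_lit 98380) (nat_lit 31) (.e (nat_lit 466945) (nat_lit 0) .nil)))))) (.g (nat_lit 4) .nil .nil))) 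
(.lf (nat_lit 76075) (.g (nat_lit 1249) (.e (nat_lit 1796) (nat_lit 119) (.e (nat_lit 516131) (nat_lit 3) (.e (nat_lit 229120) (nat_lit 12) (.e (nat_lit 344119) (nat_lit 21) (.e (nat_lit 516174) (nat_lit 14) (.e (nat_lit 466945) (nat_lit 0) .nil)))))) (.g (nat_lit 5) .nil .nil)))) (.nd (nat_lit 5) 
(.lf (nat_lit 76059) (.g (nat_lit 2143) (.e (nat_lit 1796) (nat_lit 119) (.e (nat_lit 516130) (nat_lit 3) (.e (nat_lit 221194) (nat_lit 11) (.e (nat_lit 336027) (nat_lit 3) (.e (nat_lit 98381) (nat_lit 31) (.e (nat_lit 466945) (nat_lit 0) .nil)))))) (.g (nat_lit 5) .nil .nil))) 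
(.lf (nat_lit 76091) (.g (nat_lit 2101) (.e (nat_lit 1796) (nat_lit 119) (.e (nat_lit 516139) (nat_lit 7) (.e (nat_lit 409603) (nat_lit 0) (.e (nat_lit 5293) (nat_lit 298) (.e (nat_lit 1232) (nat_lit 91) (.e (nat_lit 90172) (nat_lit 14) (.e (nat_lit 180276) (nat_lit 32) (.e (nat_lit 1077) (nat_lit 81) .nil)))))))) (.g (nat_lit 4) .nil .nil)))))) (.nd (nat_lit 3) (.nd (nat_lit 4) (.nd (nat_lit 5) 
(.lf (nat_lit 76039) (.g (nat_lit 876) (.e (nat_lit 1796) (nat_lit 119) (.e (nat_lit 516130) (nat_lit 3) (.e (nat_lit 221193) (nat_lit 11) (.e (nat_lit 336026) (nat_lit 3) (.e (nat_lit 98380) (nat_lit 31) (.e (nat_lit 466945) (nat_lit 0) .nil)))))) (.g (nat_lit 4) .nil .nil))) 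
(.lf (nat_lit 76071) (.g (nat_lit 1001) (.e (nat_lit 1796) (nat_lit 119) (.e (nat_lit 516131) (nat_lit 3) (.e (nat_lit 229120) (nat_lit 11) (.e (nat_lit 336019) (nat_lit 3) (.e (nat_lit 98380) (nat_lit 31) (.e (nat_lit 466945) (nat_lit 0) .nil)))))) (.g (nat_lit 4) .nil .nil)))) (.nd (nat_lit 5) 
(.lf (nat_lit 76055) (.g (nat_lit 1746) (.e (nat_lit 1796) (nat_lit 119) (.e (nat_lit 516130) (nat_lit 3) (.e (nat_lit 221194) (nat_lit 11) (.e (nat_lit 336026) (nat_lit 3) (.e (nat_lit 98381) (nat_lit 31) (.e (nat_lit 466945) (nat_lit 0) .nil)))))) (.g (nat_lit 4) .nil .nil))) 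
(.lf (nat_lit 76087) (.g (nat_lit 3103) (.e (nat_lit 1796) (nat_lit 119) (.e (nat_lit 516139) (nat_lit 7) (.e (nat_lit 409602) (nat_lit 0) (.e (nat_lit 5293) (nat_lit 298) (.e (nat_lit 1232) (nat_lit 91) (.e (nat_lit 90173) (nat_lit 14) (.e (nat_lit 180275) (nat_lit 32) (.e (nat_lit 1077) (nat_lit 81) .nil)))))))) (.g (nat_lit 4) .nil .nil))))) (.nd (nat_lit 4) (.nd (nat_lit 5) 
(.lf (nat_lit 76047) (.g (nat_lit 1882) (.e (nat_lit 1796) (nat_lit 119) (.e (nat_lit 516130) (nat_lit 3) (.e (nat_lit 221194) (nat_lit 11) (.e (nat_lit 336010) (nat_lit 2) (.e (nat_lit 90178) (nat_lit 15) (.e (nat_lit 196352) (nat_lit 0) .nil)))))) (.g (nat_lit 5) .nil .nil))) 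
(.lf (nat_lit 76079) (.g (nat_lit 2798) (.e (nat_lit 1796) (nat_lit 119) (.e (nat_lit 516131) (nat_lit 3) (.e (nat_lit 221212) (nat_lit 22) (.e (nat_lit 196668) (nat_lit 14) (.e (nat_lit 73747) (nat_lit 3) (.e (nat_lit 516119) (nat_lit 1) (.e (nat_lit 164176) (nat_lit 154) (.e (nat_lit 57359) (nat_lit 0) .nil)))))))) (.g (nat_lit 5) .nil .nil)))) (.nd (nat_lit 5) 
(.lf (nat_lit 76063) (.g (nat_lit 1199) (.e (nat_lit 1796) (nat_lit 119) (.e (nat_lit 516131) (nat_lit 3) (.e (nat_lit 221191) (nat_lit 11) (.e (nat_lit 336017) (nat_lit 3) (.e (nat_lit 98380) (nat_lit 31) (.e (nat_lit 466945) (nat_lit 0) .nil)))))) (.g (nat_lit 5) .nil .nil))) 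
(.lf (nat_lit 76095) (.g (nat_lit 2177) (.e (nat_lit 1796) (nat_lit 119) (.e (nat_lit 516139) (nat_lit 7) (.e (nat_lit 409616) (nat_lit 10) (.e (nat_lit 5355) (nat_lit 298) (.e (nat_lit 1253) (nat_lit 92) .nil))))) .nil))))))))

noncomputable def tv1030 : DT := (.nd (nat_lit 0) (.nd (nat_lit 1) (.nd (nat_lit 2) (.nd (nat_lit 3) (.nd (nat_lit 4) (.nd (nat_lit 5) 
(.lf (nat_lit 76096) (.g (nat_lit 2077) (.e (nat_lit 1796) (nat_lit 119) (.e (nat_lit 516139) (nat_lit 7) (.e (nat_lit 409617) (nat_lit 10) (.e (nat_lit 5355) (nat_lit 298) (.e (nat_lit 1253) (nat_lit 92) .nil))))) .nil)) 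
(.lf (nat_lit 76128) (.g (nat_lit 2743) (.e (nat_lit 1796) (nat_lit 119) (.e (nat_lit 516139) (nat_lit 7) (.e (nat_lit 409646) (nat_lit 18) (.e (nat_lit 303119) (nat_lit 3) (.e (nat_lit 204859) (nat_lit 26) (.e (nat_lit 336116) (nat_lit 9) (.e (nat_lit 335959) (nat_lit 0) .nil))))))) (.g (nat_lit 5) .nil .nil)))) (.nd (nat_lit 5) 
(.lf (nat_lit 76112) (.g (nat_lit 1602) (.e (nat_lit 1796) (nat_lit 119) (.e (nat_lit 516139) (nat_lit 7) (.e (nat_lit 409645) (nat_lit 18) (.e (nat_lit 303119) (nat_lit 3) .nil)))) .nil)) 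
(.lf (nat_lit 76144) (.g (nat_lit 2375) (.e (nat_lit 1796) (nat_lit 119) (.e (nat_lit 516139) (nat_lit 7) (.e (nat_lit 409648) (nat_lit 18) (.e (nat_lit 303118) (nat_lit 3) (.e (nat_lit 204877) (nat_lit 31) (.e (nat_lit 384768) (nat_lit 20) .nil)))))) (.g (nat_lit 4) .nil .nil))))) (.nd (nat_lit 4) (.nd (nat_lit 5) 
(.lf (nat_lit 76104) (.g (nat_lit 596) (.e (nat_lit 1796) (nat_lit 119) (.e (nat_lit 516139) (nat_lit 7) (.e (nat_lit 409643) (nat_lit 18) .nil))) .nil)) 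
(.lf (nat_lit 76136) (.g (nat_lit 1413) (.e (nat_lit 1796) (nat_lit 119) (.e (nat_lit 516139) (nat_lit 7) (.e (nat_lit 409647) (nat_lit 18) (.e (nat_lit 303118) (nat_lit 3) .nil)))) .nil))) (.nd (nat_lit 5) 
(.lf (nat_lit 76120) (.g (nat_lit 2916) (.e (nat_lit 1796) (nat_lit 119) (.e (nat_lit 516139) (nat_lit 7) (.e (nat_lit 409645) (nat_lit 18) (.e (nat_lit 303119) (nat_lit 3) (.e (nat_lit 204867) (nat_lit 28) (.e (nat_lit 360192) (nat_lit 20) .nil)))))) (.g (nat_lit 4) .nil .nil))) 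
(.lf (nat_lit 76152) (.g (nat_lit 2663) (.e (nat_lit 1796) (nat_lit 119) (.e (nat_lit 516139) (nat_lit 7) (.e (nat_lit 409649) (nat_lit 18) (.e (nat_lit 303119) (nat_lit 3) (.e (nat_lit 204865) (nat_lit 28) .nil))))) .nil))))) (.nd (nat_lit 3) (.nd (nat_lit 4) (.nd (nat_lit 5) 
(.lf (nat_lit 76100) (.g (nat_lit 3133) (.e (nat_lit 1796) (nat_lit 119) (.e (nat_lit 516139) (nat_lit 7) (.e (nat_lit 409641) (nat_lit 17) (.e (nat_lit 294931) (nat_lit 3) (.e (nat_lit 98350) (nat_lit 24) (.e (nat_lit 409616) (nat_lit 10) (.e (nat_lit 5353) (nat_lit 298) (.e (nat_lit 1074) (nat_lit 81) .nil)))))))) (.g (nat_lit 4) .nil .nil))) 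
(.lf (nat_lit 76132) (.g (nat_lit 2968) (.e (nat_lit 1796) (nat_lit 119) (.e (nat_lit 516139) (nat_lit 7) (.e (nat_lit 409646) (nat_lit 18) (.e (nat_lit 303119) (nat_lit 3) (.e (nat_lit 204859) (nat_lit 26) (.e (nat_lit 336118) (nat_lit 9) (.e (nat_lit 335960) (nat_lit 0) .nil))))))) (.g (nat_lit 5) .nil .nil)))) (.nd (nat_lit 5) 
(.lf (nat_lit 76116) (.g (nat_lit 2945) (.e (nat_lit 1796) (nat_lit 119) (.e (nat_lit 516139) (nat_lit 7) (.e (nat_lit 409645) (nat_lit 18) (.e (nat_lit 303119) (nat_lit 3) (.e (nat_lit 204859) (nat_lit 26) (.e (nat_lit 336118) (nat_lit 9) (.e (nat_lit 335956) (nat_lit 0) .nil))))))) (.g (nat_lit 4) .nil .nil))) 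
(.lf (nat_lit 76148) (.g (nat_lit 2925) (.e (nat_lit 1796) (nat_lit 119) (.e (nat_lit 516139) (nat_lit 7) (.e (nat_lit 409649) (nat_lit 18) (.e (nat_lit 303118) (nat_lit 3) (.e (nat_lit 204867) (nat_lit 28) (.e (nat_lit 360192) (nat_lit 20) .nil)))))) (.g (nat_lit 4) .nil .nil))))) (.nd (nat_lit 4) (.nd (nat_lit 5) 
(.lf (nat_lit 76108) (.g (nat_lit 2442) (.e (nat_lit 1796) (nat_lit 119) (.e (nat_lit 516139) (nat_lit 7) (.e (nat_lit 409644) (nat_lit 18) (.e (nat_lit 303119) (nat_lit 3) (.e (nat_lit 204867) (nat_lit 28) .nil))))) .nil)) 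
(.lf (nat_lit 76140) (.g (nat_lit 2269) (.e (nat_lit 1796) (nat_lit 119) (.e (nat_lit 516139) (nat_lit 7) (.e (nat_lit 409647) (nat_lit 18) (.e (nat_lit 303119) (nat_lit 3) (.e (nat_lit 204867) (nat_lit 28) .nil))))) .nil))) (.nd (nat_lit 5) 
(.lf (nat_lit 76124) (.g (nat_lit 3528) (.e (nat_lit 1796) (nat_lit 119) (.e (nat_lit 516139) (nat_lit 7) (.e (nat_lit 409646) (nat_lit 18) (.e (nat_lit 303117) (nat_lit 2) (.e (nat_lit 196674) (nat_lit 15) (.e (nat_lit 89856) (nat_lit 20) .nil)))))) (.g (nat_lit 5) .nil .nil))) 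
(.lf (nat_lit 76156) (.g (nat_lit 2434) (.e (nat_lit 1796) (nat_lit 119) (.e (nat_lit 516142) (nat_lit 8) (.e (nat_lit 417809) (nat_lit 6) (.e (nat_lit 286733) (nat_lit 2) (.e (nat_lit 90173) (nat_lit 14) (.e (nat_lit 180275) (nat_lit 32) (.e (nat_lit 1077) (nat_lit 81) .nil))))))) (.g (nat_lit 5) .nil .nil))))))) (.nd (nat_lit 2) (.nd (nat_lit 3) (.nd (nat_lit 4) (.nd (nat_lit 5) 
(.lf (nat_lit 76098) (.g (nat_lit 2883) (.e (nat_lit 1796) (nat_lit 119) (.e (nat_lit 516139) (nat_lit 7) (.e (nat_lit 417536) (nat_lit 16) (.e (nat_lit 286735) (nat_lit 3) (.e (nat_lit 98350) (nat_lit 24) (.e (nat_lit 409617) (nat_lit 10) (.e (nat_lit 5353) (nat_lit 298) (.e (nat_lit 1077) (nat_lit 81) .nil)))))))) (.g (nat_lit 6) .nil .nil))) 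
(.lf (nat_lit 76130) (.g (nat_lit 2719) (.e (nat_lit 1796) (nat_lit 119) (.e (nat_lit 516139) (nat_lit 7) (.e (nat_lit 409646) (nat_lit 18) (.e (nat_lit 303119) (nat_lit 3) (.e (nat_lit 204859) (nat_lit 26) (.e (nat_lit 336118) (nat_lit 9) (.e (nat_lit 335956) (nat_lit 0) .nil))))))) (.g (nat_lit 4) .nil .nil)))) (.nd (nat_lit 5) 
(.lf (nat_lit 76114) (.g (nat_lit 3006) (.e (nat_lit 1796) (nat_lit 119) (.e (nat_lit 516139) (nat_lit 7) (.e (nat_lit 409645) (nat_lit 18) (.e (nat_lit 303119) (nat_lit 3) (.e (nat_lit 204859) (nat_lit 26) (.e (nat_lit 336116) (nat_lit 9) (.e (nat_lit 335959) (nat_lit 0) .nil))))))) (.g (nat_lit 4) .nil .nil))) 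
(.lf (nat_lit 76146) (.g (nat_lit 2886) (.e (nat_lit 1796) (nat_lit 119) (.e (nat_lit 516139) (nat_lit 7) (.e (nat_lit 409648) (nat_lit 18) (.e (nat_lit 303119) (nat_lit 3) (.e (nat_lit 204867) (nat_lit 28) (.e (nat_lit 360192) (nat_lit 20) .nil)))))) (.g (nat_lit 4) .nil .nil))))) (.nd (nat_lit 4) (.nd (nat_lit 5) 
(.lf (nat_lit 76106) (.g (nat_lit 2184) (.e (nat_lit 1796) (nat_lit 119) (.e (nat_lit 516139) (nat_lit 7) (.e (nat_lit 409643) (nat_lit 18) (.e (nat_lit 303119) (nat_lit 3) (.e (nat_lit 204867) (nat_lit 28) .nil))))) .nil)) 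
(.lf (nat_lit 76138) (.g (nat_lit 2107) (.e (nat_lit 1796) (nat_lit 119) (.e (nat_lit 516139) (nat_lit 7) (.e (nat_lit 409647) (nat_lit 18) (.e (nat_lit 303118) (nat_lit 3) (.e (nat_lit 204876) (nat_lit 31) .nil))))) .nil))) (.nd (nat_lit 5) 
(.lf (nat_lit 76122) (.g (nat_lit 1578) (.e (nat_lit 1796) (nat_lit 119) (.e (nat_lit 516139) (nat_lit 7) (.e (nat_lit 409646) (nat_lit 18) (.e (nat_lit 303112) (nat_lit 0) .nil)))) .nil)) 
(.lf (nat_lit 76154) (.g (nat_lit 628) (.e (nat_lit 1796) (nat_lit 119) (.e (nat_lit 516139) (nat_lit 7) (.e (nat_lit 417536) (nat_lit 18) .nil))) .nil))))) (.nd (nat_lit 3) (.nd (nat_lit 4) (.nd (nat_lit 5) 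
(.lf (nat_lit 76102) (.g (nat_lit 3740) (.e (nat_lit 1796) (nat_lit 119) (.e (nat_lit 516139) (nat_lit 7) (.e (nat_lit 409641) (nat_lit 17) (.e (nat_lit 294931) (nat_lit 3) (.e (nat_lit 98350) (nat_lit 24) (.e (nat_lit 409617) (nat_lit 10) (.e (nat_lit 5353) (nat_lit 298) (.e (nat_lit 1074) (nat_lit 81) .nil)))))))) (.g (nat_lit 5) .nil .nil))) 
(.lf (nat_lit 76134) (.g (nat_lit 2355) (.e (nat_lit 1796) (nat_lit 119) (.e (nat_lit 516139) (nat_lit 7) (.e (nat_lit 409646) (nat_lit 18) (.e (nat_lit 303119) (nat_lit 3) (.e (nat_lit 204876) (nat_lit 31) (.e (nat_lit 376853) (nat_lit 20) .nil)))))) (.g (nat_lit 4) .nil .nil)))) (.nd (nat_lit 5) 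
(.lf (nat_lit 76118) (.g (nat_lit 3194) (.e (nat_lit 1796) (nat_lit 119) (.e (nat_lit 516139) (nat_lit 7) (.e (nat_lit 409645) (nat_lit 18) (.e (nat_lit 303119) (nat_lit 3) (.e (nat_lit 204859) (nat_lit 26) (.e (nat_lit 336118) (nat_lit 9) (.e (nat_lit 335960) (nat_lit 0) .nil))))))) (.g (nat_lit 5) .nil .nil))) 
(.lf (nat_lit 76150) (.g (nat_lit 2456) (.e (nat_lit 1796) (nat_lit 119) (.e (nat_lit 516139) (nat_lit 7) (.e (nat_lit 409649) (nat_lit 18) (.e (nat_lit 303118) (nat_lit 3) (.e (nat_lit 204877) (nat_lit 31) (.e (nat_lit 384768) (nat_lit 20) .nil)))))) (.g (nat_lit 4) .nil .nil))))) (.nd (nat_lit 4) (.nd (nat_lit 5) 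
(.lf (nat_lit 76110) (.g (nat_lit 2731) (.e (nat_lit 1796) (nat_lit 119) (.e (nat_lit 516139) (nat_lit 7) (.e (nat_lit 409645) (nat_lit 18) (.e (nat_lit 303117) (nat_lit 2) (.e (nat_lit 196672) (nat_lit 15) .nil))))) .nil)) 
(.lf (nat_lit 76142) (.g (nat_lit 3014) (.e (nat_lit 1796) (nat_lit 119) (.e (nat_lit 516139) (nat_lit 7) (.e (nat_lit 409648) (nat_lit 18) (.e (nat_lit 303118) (nat_lit 3) (.e (nat_lit 204867) (nat_lit 28) (.e (nat_lit 360192) (nat_lit 20) .nil)))))) (.g (nat_lit 4) .nil .nil)))) (.nd (nat_lit 5) 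
(.lf (nat_lit 76126) (.g (nat_lit 2331) (.e (nat_lit 1796) (nat_lit 119) (.e (nat_lit 516139) (nat_lit 7) (.e (nat_lit 409646) (nat_lit 18) (.e (nat_lit 303119) (nat_lit 3) (.e (nat_lit 204859) (nat_lit 26) .nil))))) .nil)) 
(.lf (nat_lit 76158) (.g (nat_lit 2356) (.e (nat_lit 1796) (nat_lit 119) (.e (nat_lit 516142) (nat_lit 8) (.e (nat_lit 417810) (nat_lit 6) (.e (nat_lit 286732) (nat_lit 2) (.e (nat_lit 90174) (nat_lit 14) (.e (nat_lit 180275) (nat_lit 32) (.e (nat_lit 1077) (nat_lit 81) .nil))))))) (.g (nat_lit 4) .nil .nil)))))))) 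
(.nd (nat_lit 1) (.nd (nat_lit 2) (.nd (nat_lit 3) (.nd (nat_lit 4) (.nd (nat_lit 5) 
(.lf (nat_lit 76097) (.g (nat_lit 2210) (.e (nat_lit 1796) (nat_lit 119) (.e (nat_lit 516139) (nat_lit 7) (.e (nat_lit 417536) (nat_lit 16) (.e (nat_lit 286735) (nat_lit 3) (.e (nat_lit 98350) (nat_lit 24) (.e (nat_lit 409617) (nat_lit 10) (.e (nat_lit 5353) (nat_lit 298) (.e (nat_lit 1074) (nat_lit 81) .nil)))))))) (.g (nat_lit 5) .nil .nil))) 
(.lf (nat_lit 76129) (.g (nat_lit 2712) (.e (nat_lit 1796) (nat_lit 119) (.e (nat_lit 516139) (nat_lit 7) (.e (nat_lit 409646) (nat_lit 18) (.e (nat_lit 303119) (nat_lit 3) (.e (nat_lit 204859) (nat_lit 26) (.e (nat_lit 336118) (nat_lit 9) (.e (nat_lit 335884) (nat_lit 0) .nil))))))) (.g (nat_lit 4) .nil .nil)))) (.nd (nat_lit 5) 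
(.lf (nat_lit 76113) (.g (nat_lit 2715) (.e (nat_lit 1796) (nat_lit 119) (.e (nat_lit 516139) (nat_lit 7) (.e (nat_lit 409645) (nat_lit 18) (.e (nat_lit 303119) (nat_lit 3) (.e (nat_lit 204859) (nat_lit 26) (.e (nat_lit 336113) (nat_lit 9) (.e (nat_lit 335958) (nat_lit 0) .nil))))))) (.g (nat_lit 4) .nil .nil))) 
(.lf (nat_lit 76145) (.g (nat_lit 1511) (.e (nat_lit 1796) (nat_lit 119) (.e (nat_lit 516139) (nat_lit 7) (.e (nat_lit 409648) (nat_lit 18) (.e (nat_lit 303119) (nat_lit 3) .nil)))) .nil)))) (.nd (nat_lit 4) (.nd (nat_lit 5) 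
(.lf (nat_lit 76105) (.g (nat_lit 1150) (.e (nat_lit 1796) (nat_lit 119) (.e (nat_lit 516139) (nat_lit 7) (.e (nat_lit 409643) (nat_lit 18) (.e (nat_lit 303119) (nat_lit 3) .nil)))) .nil)) 
(.lf (nat_lit 76137) (.g (nat_lit 2259) (.e (nat_lit 1796) (nat_lit 119) (.e (nat_lit 516139) (nat_lit 7) (.e (nat_lit 409647) (nat_lit 18) (.e (nat_lit 303118) (nat_lit 3) (.e (nat_lit 204867) (nat_lit 28) .nil))))) .nil))) (.nd (nat_lit 5) 
(.lf (nat_lit 76121) (.g (nat_lit 2675) (.e (nat_lit 1796) (nat_lit 119) (.e (nat_lit 516139) (nat_lit 7) (.e (nat_lit 409645) (nat_lit 18) (.e (nat_lit 303119) (nat_lit 3) (.e (nat_lit 204876) (nat_lit 31) .nil))))) .nil)) 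
(.lf (nat_lit 76153) (.g (nat_lit 3189) (.e (nat_lit 1796) (nat_lit 119) (.e (nat_lit 516139) (nat_lit 7) (.e (nat_lit 409649) (nat_lit 18) (.e (nat_lit 303119) (nat_lit 3) (.e (nat_lit 204867) (nat_lit 28) (.e (nat_lit 360192) (nat_lit 20) .nil)))))) (.g (nat_lit 5) .nil .nil)))))) (.nd (nat_lit 3) (.nd (nat_lit 4) (.nd (nat_lit 5) 
(.lf (nat_lit 76101) (.g (nat_lit 3902) (.e (nat_lit 1796) (nat_lit 119) (.e (nat_lit 516139) (nat_lit 7) (.e (nat_lit 409641) (nat_lit 17) (.e (nat_lit 294931) (nat_lit 3) (.e (nat_lit 98350) (nat_lit 24) (.e (nat_lit 409616) (nat_lit 10) (.e (nat_lit 5353) (nat_lit 298) (.e (nat_lit 1077) (nat_lit 81) .nil)))))))) (.g (nat_lit 5) .nil .nil))) 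
(.lf (nat_lit 76133) (.g (nat_lit 2713) (.e (nat_lit 1796) (nat_lit 119) (.e (nat_lit 516139) (nat_lit 7) (.e (nat_lit 409646) (nat_lit 18) (.e (nat_lit 303119) (nat_lit 3) (.e (nat_lit 204867) (nat_lit 28) (.e (nat_lit 360192) (nat_lit 20) .nil)))))) (.g (nat_lit 5) .nil .nil)))) (.nd (nat_lit 5) 
(.lf (nat_lit 76117) (.g (nat_lit 3431) (.e (nat_lit 1796) (nat_lit 119) (.e (nat_lit 516139) (nat_lit 7) (.e (nat_lit 409645) (nat_lit 18) (.e (nat_lit 303119) (nat_lit 3) (.e (nat_lit 204859) (nat_lit 26) (.e (nat_lit 336118) (nat_lit 9) (.e (nat_lit 335959) (nat_lit 0) .nil))))))) (.g (nat_lit 5) .nil .nil))) 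
(.lf (nat_lit 76149) (.g (nat_lit 2642) (.e (nat_lit 1796) (nat_lit 119) (.e (nat_lit 516139) (nat_lit 7) (.e (nat_lit 409649) (nat_lit 18) (.e (nat_lit 303118) (nat_lit 3) (.e (nat_lit 204876) (nat_lit 31) .nil))))) .nil)))) (.nd (nat_lit 4) (.nd (nat_lit 5) 
(.lf (nat_lit 76109) (.g (nat_lit 484) (.e (nat_lit 1796) (nat_lit 119) (.e (nat_lit 516139) (nat_lit 7) (.e (nat_lit 409645) (nat_lit 18) .nil))) .nil)) 
(.lf (nat_lit 76141) (.g (nat_lit 3282) (.e (nat_lit 1796) (nat_lit 119) (.e (nat_lit 516139) (nat_lit 7) (.e (nat_lit 409648) (nat_lit 18) (.e (nat_lit 303118) (nat_lit 3) (.e (nat_lit 204866) (nat_lit 28) (.e (nat_lit 360192) (nat_lit 20) .nil)))))) (.g (nat_lit 5) .nil .nil)))) (.nd (nat_lit 5) 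
(.lf (nat_lit 76125) (.g (nat_lit 1371) (.e (nat_lit 1796) (nat_lit 119) (.e (nat_lit 516139) (nat_lit 7) (.e (nat_lit 409646) (nat_lit 18) (.e (nat_lit 303118) (nat_lit 3) .nil)))) .nil)) 
(.lf (nat_lit 76157) (.g (nat_lit 2499) (.e (nat_lit 1796) (nat_lit 119) (.e (nat_lit 516142) (nat_lit 8) (.e (nat_lit 417810) (nat_lit 6) (.e (nat_lit 286732) (nat_lit 2) (.e (nat_lit 90174) (nat_lit 14) (.e (nat_lit 180275) (nat_lit 32) (.e (nat_lit 1074) (nat_lit 81) .nil))))))) (.g (nat_lit 4) .nil .nil))))))) (.nd (nat_lit 2) (.nd (nat_lit 3) (.nd (nat_lit 4) (.nd (nat_lit 5) 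
(.lf (nat_lit 76099) (.g (nat_lit 1827) (.e (nat_lit 1796) (nat_lit 119) (.e (nat_lit 516139) (nat_lit 7) (.e (nat_lit 409641) (nat_lit 17) (.e (nat_lit 294928) (nat_lit 2) .nil)))) .nil)) 
(.lf (nat_lit 76131) (.g (nat_lit 3191) (.e (nat_lit 1796) (nat_lit 119) (.e (nat_lit 516139) (nat_lit 7) (.e (nat_lit 409646) (nat_lit 18) (.e (nat_lit 303119) (nat_lit 3) (.e (nat_lit 204859) (nat_lit 26) (.e (nat_lit 336118) (nat_lit 9) (.e (nat_lit 335959) (nat_lit 0) .nil))))))) (.g (nat_lit 5) .nil .nil)))) (.nd (nat_lit 5) 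
(.lf (nat_lit 76115) (.g (nat_lit 2952) (.e (nat_lit 1796) (nat_lit 119) (.e (nat_lit 516139) (nat_lit 7) (.e (nat_lit 409645) (nat_lit 18) (.e (nat_lit 303119) (nat_lit 3) (.e (nat_lit 204859) (nat_lit 26) (.e (nat_lit 336118) (nat_lit 9) (.e (nat_lit 335884) (nat_lit 0) .nil))))))) (.g (nat_lit 4) .nil .nil))) 
(.lf (nat_lit 76147) (.g (nat_lit 3399) (.e (nat_lit 1796) (nat_lit 119) (.e (nat_lit 516139) (nat_lit 7) (.e (nat_lit 409649) (nat_lit 18) (.e (nat_lit 303118) (nat_lit 3) (.e (nat_lit 204866) (nat_lit 28) (.e (nat_lit 360192) (nat_lit 20) .nil)))))) (.g (nat_lit 5) .nil .nil))))) (.nd (nat_lit 4) (.nd (nat_lit 5) 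
(.lf (nat_lit 76107) (.g (nat_lit 1326) (.e (nat_lit 1796) (nat_lit 119) (.e (nat_lit 516139) (nat_lit 7) (.e (nat_lit 409644) (nat_lit 18) (.e (nat_lit 303119) (nat_lit 3) .nil)))) .nil)) 
(.lf (nat_lit 76139) (.g (nat_lit 1446) (.e (nat_lit 1796) (nat_lit 119) (.e (nat_lit 516139) (nat_lit 7) (.e (nat_lit 409647) (nat_lit 18) (.e (nat_lit 303119) (nat_lit 3) .nil)))) .nil))) (.nd (nat_lit 5) 
(.lf (nat_lit 76123) (.g (nat_lit 2796) (.e (nat_lit 1796) (nat_lit 119) (.e (nat_lit 516139) (nat_lit 7) (.e (nat_lit 409646) (nat_lit 18) (.e (nat_lit 303117) (nat_lit 2) (.e (nat_lit 196672) (nat_lit 15) .nil))))) .nil)) 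
(.lf (nat_lit 76155) (.g (nat_lit 2571) (.e (nat_lit 1796) (nat_lit 119) (.e (nat_lit 516142) (nat_lit 8) (.e (nat_lit 417809) (nat_lit 6) (.e (nat_lit 286733) (nat_lit 2) (.e (nat_lit 90173) (nat_lit 14) (.e (nat_lit 180275) (nat_lit 32) (.e (nat_lit 1074) (nat_lit 81) .nil))))))) (.g (nat_lit 5) .nil .nil)))))) (.nd (nat_lit 3) (.nd (nat_lit 4) (.nd (nat_lit 5) 
(.lf (nat_lit 76103) (.g (nat_lit 2529) (.e (nat_lit 1796) (nat_lit 119) (.e (nat_lit 516139) (nat_lit 7) (.e (nat_lit 409642) (nat_lit 17) (.e (nat_lit 294931) (nat_lit 3) (.e (nat_lit 98350) (nat_lit 24) (.e (nat_lit 409617) (nat_lit 10) (.e (nat_lit 5353) (nat_lit 298) (.e (nat_lit 1077) (nat_lit 81) .nil)))))))) (.g (nat_lit 4) .nil .nil))) 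
(.lf (nat_lit 76135) (.g (nat_lit 2082) (.e (nat_lit 1796) (nat_lit 119) (.e (nat_lit 516139) (nat_lit 7) (.e (nat_lit 409646) (nat_lit 18) (.e (nat_lit 303119) (nat_lit 3) (.e (nat_lit 204878) (nat_lit 31) .nil))))) .nil))) (.nd (nat_lit 5) 
(.lf (nat_lit 76119) (.g (nat_lit 2478) (.e (nat_lit 1796) (nat_lit 119) (.e (nat_lit 516139) (nat_lit 7) (.e (nat_lit 409645) (nat_lit 18) (.e (nat_lit 303119) (nat_lit 3) (.e (nat_lit 204866) (nat_lit 28) .nil))))) .nil)) 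
(.lf (nat_lit 76151) (.g (nat_lit 1432) (.e (nat_lit 1796) (nat_lit 119) (.e (nat_lit 516139) (nat_lit 7) (.e (nat_lit 409649) (nat_lit 18) (.e (nat_lit 303119) (nat_lit 3) .nil)))) .nil)))) (.nd (nat_lit 4) (.nd (nat_lit 5) 
(.lf (nat_lit 76111) (.g (nat_lit 3681) (.e (nat_lit 1796) (nat_lit 119) (.e (nat_lit 516139) (nat_lit 7) (.e (nat_lit 409645) (nat_lit 18) (.e (nat_lit 303117) (nat_lit 2) (.e (nat_lit 196674) (nat_lit 15) (.e (nat_lit 89856) (nat_lit 20) .nil)))))) (.g (nat_lit 5) .nil .nil))) 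
(.lf (nat_lit 76143) (.g (nat_lit 2234) (.e (nat_lit 1796) (nat_lit 119) (.e (nat_lit 516139) (nat_lit 7) (.e (nat_lit 409648) (nat_lit 18) (.e (nat_lit 303118) (nat_lit 3) (.e (nat_lit 204876) (nat_lit 31) .nil))))) .nil))) (.nd (nat_lit 5) 
(.lf (nat_lit 76127) (.g (nat_lit 2492) (.e (nat_lit 1796) (nat_lit 119) (.e (nat_lit 516139) (nat_lit 7) (.e (nat_lit 409646) (nat_lit 18) (.e (nat_lit 303119) (nat_lit 3) (.e (nat_lit 204859) (nat_lit 26) (.e (nat_lit 336113) (nat_lit 9) (.e (nat_lit 335958) (nat_lit 0) .nil))))))) (.g (nat_lit 4) .nil .nil))) 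
(.lf (nat_lit 76159) (.g (nat_lit 2537) (.e (nat_lit 1796) (nat_lit 119) (.e (nat_lit 516142) (nat_lit 8) (.e (nat_lit 417810) (nat_lit 6) (.e (nat_lit 286733) (nat_lit 2) (.e (nat_lit 90172) (nat_lit 14) .nil))))) .nil))))))))

noncomputable def tv1031 : DT := (.nd (nat_lit 0) (.nd (nat_lit 1) (.nd (nat_lit 2) (.nd (nat_lit 3) (.nd (nat_lit 4) (.nd (nat_lit 5) (.nd (nat_lit 6) 
(.lf (nat_lit 76160) (.g (nat_lit 3663) (.e (nat_lit 1796) (nat_lit 119) (.e (nat_lit 516142) (nat_lit 8) (.e (nat_lit 417810) (nat_lit 6) (.e (nat_lit 286733) (nat_lit 2) (.e (nat_lit 90173) (nat_lit 14) (.e (nat_lit 180275) (nat_lit 32) (.e (nat_lit 1077) (nat_lit 81) .nil))))))) (.g (nat_lit 5) .nil .nil))) 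
(.lf (nat_lit 76224) (.g (nat_lit 2131) (.e (nat_lit 1796) (nat_lit 119) (.e (nat_lit 516163) (nat_lit 11) (.e (nat_lit 442373) (nat_lit 0) (.e (nat_lit 1853) (nat_lit 124) (.e (nat_lit 557104) (nat_lit 14) (.e (nat_lit 180276) (nat_lit 32) (.e (nat_lit 1077) (nat_lit 81) .nil))))))) (.g (nat_lit 5) .nil .nil)))) (.nd (nat_lit 6) 
(.lf (nat_lit 76192) (.g (nat_lit 1202) (.e (nat_lit 1796) (nat_lit 119) (.e (nat_lit 516150) (nat_lit 9) (.e (nat_lit 426320) (nat_lit 12) (.e (nat_lit 475185) (nat_lit 29) .nil)))) .nil)) 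
(.lf (nat_lit 76256) (.g (nat_lit 2113) (.e (nat_lit 1796) (nat_lit 119) (.e (nat_lit 516163) (nat_lit 11) (.e (nat_lit 442425) (nat_lit 23) (.e (nat_lit 204846) (nat_lit 24) (.e (nat_lit 319504) (nat_lit 10) .nil))))) .nil)))) (.nd (nat_lit 5) (.nd (nat_lit 6) 
(.lf (nat_lit 76176) (.g (nat_lit 1341) (.e (nat_lit 1796) (nat_lit 119) (.e (nat_lit 516145) (nat_lit 9) (.e (nat_lit 426438) (nat_lit 18) (.e (nat_lit 98356) (nat_lit 26) .nil)))) .nil)) 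
(.lf (nat_lit 76240) (.g (nat_lit 1489) (.e (nat_lit 1796) (nat_lit 119) (.e (nat_lit 516163) (nat_lit 11) (.e (nat_lit 450304) (nat_lit 0) (.e (nat_lit 1859) (nat_lit 124) (.e (nat_lit 557105) (nat_lit 14) (.e (nat_lit 180275) (nat_lit 32) (.e (nat_lit 1077) (nat_lit 81) .nil))))))) (.g (nat_lit 5) .nil .nil)))) (.nd (nat_lit 6) 
(.lf (nat_lit 76208) (.g (nat_lit 2631) (.e (nat_lit 1796) (nat_lit 119) (.e (nat_lit 516151) (nat_lit 9) (.e (nat_lit 426338) (nat_lit 14) (.e (nat_lit 491537) (nat_lit 2) (.e (nat_lit 90172) (nat_lit 14) .nil))))) .nil)) 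
(.lf (nat_lit 76272) (.g (nat_lit 2357) (.e (nat_lit 1796) (nat_lit 119) (.e (nat_lit 516163) (nat_lit 11) (.e (nat_lit 442427) (nat_lit 23) (.e (nat_lit 204846) (nat_lit 24) (.e (nat_lit 319534) (nat_lit 16) (.e (nat_lit 294656) (nat_lit 0) .nil)))))) (.g (nat_lit 4) .nil .nil)))))) (.nd (nat_lit 4) (.nd (nat_lit 5) (.nd (nat_lit 6) 
(.lf (nat_lit 76168) (.g (nat_lit 1929) (.e (nat_lit 1796) (nat_lit 119) (.e (nat_lit 516145) (nat_lit 9) (.e (nat_lit 426428) (nat_lit 17) (.e (nat_lit 90185) (nat_lit 17) .nil)))) .nil)) 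
(.lf (nat_lit 76232) (.g (nat_lit 1747) (.e (nat_lit 1796) (nat_lit 119) (.e (nat_lit 516163) (nat_lit 11) (.e (nat_lit 450304) (nat_lit 0) (.e (nat_lit 1848) (nat_lit 124) (.e (nat_lit 557104) (nat_lit 14) (.e (nat_lit 180275) (nat_lit 32) (.e (nat_lit 1074) (nat_lit 81) .nil))))))) (.g (nat_lit 5) .nil .nil)))) (.nd (nat_lit 6) 
(.lf (nat_lit 76200) (.g (nat_lit 2317) (.e (nat_lit 1796) (nat_lit 119) (.e (nat_lit 516151) (nat_lit 9) (.e (nat_lit 426285) (nat_lit 10) (.e (nat_lit 434238) (nat_lit 25) .nil)))) .nil)) 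
(.lf (nat_lit 76264) (.g (nat_lit 2560) (.e (nat_lit 1796) (nat_lit 119) (.e (nat_lit 516163) (nat_lit 11) (.e (nat_lit 442427) (nat_lit 23) (.e (nat_lit 204821) (nat_lit 17) (.e (nat_lit 6114) (nat_lit 332) (.e (nat_lit 972) (nat_lit 81) (.e (nat_lit 5353) (nat_lit 298) (.e (nat_lit 1077) (nat_lit 81) .nil)))))))) (.g (nat_lit 5) .nil .nil))))) (.nd (nat_lit 5) (.nd (nat_lit 6) 
(.lf (nat_lit 76184) (.g (nat_lit 2099) (.e (nat_lit 1796) (nat_lit 119) (.e (nat_lit 516146) (nat_lit 9) (.e (nat_lit 426436) (nat_lit 18) (.e (nat_lit 98358) (nat_lit 26) (.e (nat_lit 426436) (nat_lit 18) .nil))))) .nil)) 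
(.lf (nat_lit 76248) (.g (nat_lit 542) (.e (nat_lit 1796) (nat_lit 119) (.e (nat_lit 516163) (nat_lit 11) (.e (nat_lit 442424) (nat_lit 22) .nil))) .nil))) (.nd (nat_lit 6) 
(.lf (nat_lit 76216) (.g (nat_lit 1970) (.e (nat_lit 1796) (nat_lit 119) (.e (nat_lit 516158) (nat_lit 9) (.e (nat_lit 426306) (nat_lit 12) (.e (nat_lit 475177) (nat_lit 24) (.e (nat_lit 516131) (nat_lit 3) (.e (nat_lit 221192) (nat_lit 11) (.e (nat_lit 335884) (nat_lit 0) .nil))))))) (.g (nat_lit 4) .nil .nil))) 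
(.lf (nat_lit 76280) (.g (nat_lit 2546) (.e (nat_lit 1796) (nat_lit 119) (.e (nat_lit 516165) (nat_lit 12) (.e (nat_lit 450579) (nat_lit 5) (.e (nat_lit 532481) (nat_lit 0) (.e (nat_lit 6712) (nat_lit 360) (.e (nat_lit 164236) (nat_lit 187) (.e (nat_lit 1074) (nat_lit 81) .nil))))))) (.g (nat_lit 4) .nil .nil))))))) (.nd (nat_lit 3) (.nd (nat_lit 4) (.nd (nat_lit 5) (.nd (nat_lit 6) 
(.lf (nat_lit 76164) (.g (nat_lit 697) (.e (nat_lit 1796) (nat_lit 119) (.e (nat_lit 516145) (nat_lit 9) (.e (nat_lit 426428) (nat_lit 17) .nil))) .nil)) 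
(.lf (nat_lit 76228) (.g (nat_lit 2803) (.e (nat_lit 1796) (nat_lit 119) (.e (nat_lit 516163) (nat_lit 11) (.e (nat_lit 442377) (nat_lit 0) (.e (nat_lit 1855) (nat_lit 124) (.e (nat_lit 557103) (nat_lit 14) (.e (nat_lit 180276) (nat_lit 32) (.e (nat_lit 1074) (nat_lit 81) .nil))))))) (.g (nat_lit 5) .nil .nil)))) (.nd (nat_lit 6) 
(.lf (nat_lit 76196) (.g (nat_lit 2470) (.e (nat_lit 1796) (nat_lit 119) (.e (nat_lit 516151) (nat_lit 9) (.e (nat_lit 426211) (nat_lit 9) (.e (nat_lit 426125) (nat_lit 2) .nil)))) .nil)) 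
(.lf (nat_lit 76260) (.g (nat_lit 2187) (.e (nat_lit 1796) (nat_lit 119) (.e (nat_lit 516163) (nat_lit 11) (.e (nat_lit 442427) (nat_lit 23) (.e (nat_lit 204815) (nat_lit 17) (.e (nat_lit 6714) (nat_lit 360) .nil))))) .nil)))) (.nd (nat_lit 5) (.nd (nat_lit 6) 
(.lf (nat_lit 76180) (.g (nat_lit 4057) (.e (nat_lit 1796) (nat_lit 119) (.e (nat_lit 516145) (nat_lit 9) (.e (nat_lit 426438) (nat_lit 18) (.e (nat_lit 98358) (nat_lit 26) (.e (nat_lit 426438) (nat_lit 18) (.e (nat_lit 98358) (nat_lit 26) (.e (nat_lit 426392) (nat_lit 15) .nil))))))) (.g (nat_lit 6) .nil .nil))) 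
(.lf (nat_lit 76244) (.g (nat_lit 2214) (.e (nat_lit 1796) (nat_lit 119) (.e (nat_lit 516163) (nat_lit 11) (.e (nat_lit 442412) (nat_lit 20) (.e (nat_lit 3272) (nat_lit 199) (.e (nat_lit 548914) (nat_lit 19) (.e (nat_lit 180275) (nat_lit 32) (.e (nat_lit 1074) (nat_lit 81) .nil))))))) (.g (nat_lit 5) .nil .nil)))) (.nd (nat_lit 6) 
(.lf (nat_lit 76212) (.g (nat_lit 1397) (.e (nat_lit 1796) (nat_lit 119) (.e (nat_lit 516158) (nat_lit 9) (.e (nat_lit 426298) (nat_lit 11) (.e (nat_lit 458789) (nat_lit 23) (.e (nat_lit 532481) (nat_lit 0) .nil))))) .nil)) 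
(.lf (nat_lit 76276) (.g (nat_lit 2843) (.e (nat_lit 1796) (nat_lit 119) (.e (nat_lit 516163) (nat_lit 11) (.e (nat_lit 442427) (nat_lit 23) (.e (nat_lit 204885) (nat_lit 33) (.e (nat_lit 401414) (nat_lit 0) (.e (nat_lit 7550) (nat_lit 402) (.e (nat_lit 1074) (nat_lit 81) .nil))))))) (.g (nat_lit 4) .nil .nil)))))) (.nd (nat_lit 4) (.nd (nat_lit 5) (.nd (nat_lit 6) 
(.lf (nat_lit 76172) (.g (nat_lit 1111) (.e (nat_lit 1796) (nat_lit 119) (.e (nat_lit 516145) (nat_lit 9) (.e (nat_lit 426436) (nat_lit 18) (.e (nat_lit 98385) (nat_lit 32) .nil)))) .nil)) 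
(.lf (nat_lit 76236) (.g (nat_lit 2188) (.e (nat_lit 1796) (nat_lit 119) (.e (nat_lit 516163) (nat_lit 11) (.e (nat_lit 450304) (nat_lit 0) (.e (nat_lit 1853) (nat_lit 124) (.e (nat_lit 557104) (nat_lit 14) (.e (nat_lit 180276) (nat_lit 32) (.e (nat_lit 1074) (nat_lit 81) .nil))))))) (.g (nat_lit 5) .nil .nil)))) (.nd (nat_lit 6) 
(.lf (nat_lit 76204) (.g (nat_lit 1724) (.e (nat_lit 1796) (nat_lit 119) (.e (nat_lit 516151) (nat_lit 9) (.e (nat_lit 426312) (nat_lit 12) (.e (nat_lit 475184) (nat_lit 29) .nil)))) .nil)) 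
(.lf (nat_lit 76268) (.g (nat_lit 2933) (.e (nat_lit 1796) (nat_lit 119) (.e (nat_lit 516163) (nat_lit 11) (.e (nat_lit 442427) (nat_lit 23) (.e (nat_lit 204846) (nat_lit 24) (.e (nat_lit 319504) (nat_lit 10) .nil))))) .nil)))) (.nd (nat_lit 5) (.nd (nat_lit 6) 
(.lf (nat_lit 76188) (.g (nat_lit 2517) (.e (nat_lit 1796) (nat_lit 119) (.e (nat_lit 516146) (nat_lit 9) (.e (nat_lit 426438) (nat_lit 18) (.e (nat_lit 98358) (nat_lit 26) (.e (nat_lit 426428) (nat_lit 17) (.e (nat_lit 90169) (nat_lit 13) (.e (nat_lit 172132) (nat_lit 15) .nil))))))) (.g (nat_lit 4) .nil .nil))) 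
(.lf (nat_lit 76252) (.g (nat_lit 2232) (.e (nat_lit 1796) (nat_lit 119) (.e (nat_lit 516163) (nat_lit 11) (.e (nat_lit 442424) (nat_lit 22) (.e (nat_lit 196661) (nat_lit 12) (.e (nat_lit 65280) (nat_lit 207) (.e (nat_lit 229594) (nat_lit 187) (.e (nat_lit 1077) (nat_lit 81) .nil))))))) (.g (nat_lit 4) .nil .nil)))) (.nd (nat_lit 6) 
(.lf (nat_lit 76220) (.g (nat_lit 428) (.e (nat_lit 1796) (nat_lit 119) (.e (nat_lit 516163) (nat_lit 11) (.e (nat_lit 442373) (nat_lit 0) .nil))) .nil)) 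
(.lf (nat_lit 76284) (.g (nat_lit 2180) (.e (nat_lit 1796) (nat_lit 119) (.e (nat_lit 516165) (nat_lit 12) (.e (nat_lit 450579) (nat_lit 5) (.e (nat_lit 532482) (nat_lit 0) (.e (nat_lit 6712) (nat_lit 360) .nil))))) .nil))))))) (.nd (nat_lit 2) (.nd (nat_lit 3) (.nd (nat_lit 4) (.nd (nat_lit 5) (.nd (nat_lit 6) 
(.lf (nat_lit 76162) (.g (nat_lit 3099) (.e (nat_lit 1796) (nat_lit 119) (.e (nat_lit 516142) (nat_lit 8) (.e (nat_lit 417811) (nat_lit 6) (.e (nat_lit 286733) (nat_lit 2) (.e (nat_lit 90173) (nat_lit 14) (.e (nat_lit 180275) (nat_lit 32) (.e (nat_lit 1074) (nat_lit 81) .nil))))))) (.g (nat_lit 5) .nil .nil))) 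
(.lf (nat_lit 76226) (.g (nat_lit 2282) (.e (nat_lit 1796) (nat_lit 119) (.e (nat_lit 516163) (nat_lit 11) (.e (nat_lit 442374) (nat_lit 0) (.e (nat_lit 1856) (nat_lit 124) (.e (nat_lit 557103) (nat_lit 14) (.e (nat_lit 180276) (nat_lit 32) (.e (nat_lit 1077) (nat_lit 81) .nil))))))) (.g (nat_lit 5) .nil .nil)))) (.nd (nat_lit 6) 
(.lf (nat_lit 76194) (.g (nat_lit 2293) (.e (nat_lit 1796) (nat_lit 119) (.e (nat_lit 516151) (nat_lit 9) (.e (nat_lit 426170) (nat_lit 7) (.e (nat_lit 409631) (nat_lit 12) (.e (nat_lit 32807) (nat_lit 18) (.e (nat_lit 172124) (nat_lit 14) (.e (nat_lit 491530) (nat_lit 0) .nil))))))) (.g (nat_lit 4) .nil .nil))) 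
(.lf (nat_lit 76258) (.g (nat_lit 3218) (.e (nat_lit 1796) (nat_lit 119) (.e (nat_lit 516163) (nat_lit 11) (.e (nat_lit 442427) (nat_lit 23) (.e (nat_lit 204815) (nat_lit 17) (.e (nat_lit 6712) (nat_lit 360) (.e (nat_lit 164237) (nat_lit 187) (.e (nat_lit 1074) (nat_lit 81) .nil))))))) (.g (nat_lit 5) .nil .nil))))) (.nd (nat_lit 5) (.nd (nat_lit 6) 
(.lf (nat_lit 76178) (.g (nat_lit 3817) (.e (nat_lit 1796) (nat_lit 119) (.e (nat_lit 516145) (nat_lit 9) (.e (nat_lit 426438) (nat_lit 18) (.e (nat_lit 98356) (nat_lit 26) (.e (nat_lit 426438) (nat_lit 18) (.e (nat_lit 98358) (nat_lit 26) (.e (nat_lit 426392) (nat_lit 15) .nil))))))) (.g (nat_lit 6) .nil .nil))) 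
(.lf (nat_lit 76242) (.g (nat_lit 816) (.e (nat_lit 1796) (nat_lit 119) (.e (nat_lit 516163) (nat_lit 11) (.e (nat_lit 442411) (nat_lit 20) (.e (nat_lit 3271) (nat_lit 199) .nil)))) .nil))) (.nd (nat_lit 6) 
(.lf (nat_lit 76210) (.g (nat_lit 2038) (.e (nat_lit 1796) (nat_lit 119) (.e (nat_lit 516151) (nat_lit 9) (.e (nat_lit 426338) (nat_lit 14) (.e (nat_lit 491540) (nat_lit 3) .nil)))) .nil)) 
(.lf (nat_lit 76274) (.g (nat_lit 1480) (.e (nat_lit 1796) (nat_lit 119) (.e (nat_lit 516163) (nat_lit 11) (.e (nat_lit 442427) (nat_lit 23) (.e (nat_lit 204849) (nat_lit 25) .nil)))) .nil))))) (.nd (nat_lit 4) (.nd (nat_lit 5) (.nd (nat_lit 6) 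
(.lf (nat_lit 76170) (.g (nat_lit 3055) (.e (nat_lit 1796) (nat_lit 119) (.e (nat_lit 516145) (nat_lit 9) (.e (nat_lit 426436) (nat_lit 18) (.e (nat_lit 98356) (nat_lit 26) (.e (nat_lit 426438) (nat_lit 18) (.e (nat_lit 98358) (nat_lit 26) (.e (nat_lit 426392) (nat_lit 15) .nil))))))) (.g (nat_lit 7) .nil .nil))) 
(.lf (nat_lit 76234) (.g (nat_lit 1492) (.e (nat_lit 1796) (nat_lit 119) (.e (nat_lit 516163) (nat_lit 11) (.e (nat_lit 450304) (nat_lit 0) (.e (nat_lit 1849) (nat_lit 124) (.e (nat_lit 557104) (nat_lit 14) (.e (nat_lit 180275) (nat_lit 32) (.e (nat_lit 1074) (nat_lit 81) .nil))))))) (.g (nat_lit 5) .nil .nil)))) (.nd (nat_lit 6) 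
(.lf (nat_lit 76202) (.g (nat_lit 2117) (.e (nat_lit 1796) (nat_lit 119) (.e (nat_lit 516151) (nat_lit 9) (.e (nat_lit 426286) (nat_lit 10) .nil))) .nil)) 
(.lf (nat_lit 76266) (.g (nat_lit 3186) (.e (nat_lit 1796) (nat_lit 119) (.e (nat_lit 516163) (nat_lit 11) (.e (nat_lit 442427) (nat_lit 23) (.e (nat_lit 204846) (nat_lit 24) (.e (nat_lit 319502) (nat_lit 10) .nil))))) .nil)))) (.nd (nat_lit 5) (.nd (nat_lit 6) 
(.lf (nat_lit 76186) (.g (nat_lit 886) (.e (nat_lit 1796) (nat_lit 119) (.e (nat_lit 516146) (nat_lit 9) (.e (nat_lit 426438) (nat_lit 18) .nil))) .nil)) 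
(.lf (nat_lit 76250) (.g (nat_lit 2107) (.e (nat_lit 1796) (nat_lit 119) (.e (nat_lit 516163) (nat_lit 11) (.e (nat_lit 442424) (nat_lit 22) (.e (nat_lit 196628) (nat_lit 9) (.e (nat_lit 970) (nat_lit 81) .nil))))) .nil))) (.nd (nat_lit 6) 
(.lf (nat_lit 76218) (.g (nat_lit 2484) (.e (nat_lit 1796) (nat_lit 119) (.e (nat_lit 516158) (nat_lit 9) (.e (nat_lit 426306) (nat_lit 12) (.e (nat_lit 475177) (nat_lit 24) (.e (nat_lit 516131) (nat_lit 3) (.e (nat_lit 221192) (nat_lit 11) (.e (nat_lit 335958) (nat_lit 0) .nil))))))) (.g (nat_lit 5) .nil .nil))) 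
(.lf (nat_lit 76282) (.g (nat_lit 2486) (.e (nat_lit 1796) (nat_lit 119) (.e (nat_lit 516165) (nat_lit 12) (.e (nat_lit 450579) (nat_lit 5) (.e (nat_lit 532481) (nat_lit 0) (.e (nat_lit 6714) (nat_lit 360) .nil))))) .nil)))))) (.nd (nat_lit 3) (.nd (nat_lit 4) (.nd (nat_lit 5) (.nd (nat_lit 6) 
(.lf (nat_lit 76166) (.g (nat_lit 1956) (.e (nat_lit 1796) (nat_lit 119) (.e (nat_lit 516145) (nat_lit 9) (.e (nat_lit 426428) (nat_lit 17) (.e (nat_lit 90169) (nat_lit 13) .nil)))) .nil)) 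
(.lf (nat_lit 76230) (.g (nat_lit 2639) (.e (nat_lit 1796) (nat_lit 119) (.e (nat_lit 516163) (nat_lit 11) (.e (nat_lit 442377) (nat_lit 0) (.e (nat_lit 1856) (nat_lit 124) (.e (nat_lit 557103) (nat_lit 14) (.e (nat_lit 180276) (nat_lit 32) (.e (nat_lit 1074) (nat_lit 81) .nil))))))) (.g (nat_lit 5) .nil .nil)))) (.nd (nat_lit 6) 
(.lf (nat_lit 76198) (.g (nat_lit 3145) (.e (nat_lit 1796) (nat_lit 119) (.e (nat_lit 516151) (nat_lit 9) (.e (nat_lit 426211) (nat_lit 9) (.e (nat_lit 426125) (nat_lit 2) (.e (nat_lit 196661) (nat_lit 12) .nil))))) .nil)) 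
(.lf (nat_lit 76262) (.g (nat_lit 2443) (.e (nat_lit 1796) (nat_lit 119) (.e (nat_lit 516163) (nat_lit 11) (.e (nat_lit 442427) (nat_lit 23) (.e (nat_lit 204816) (nat_lit 17) (.e (nat_lit 6714) (nat_lit 360) (.e (nat_lit 164237) (nat_lit 187) (.e (nat_lit 1077) (nat_lit 81) .nil))))))) (.g (nat_lit 4) .nil .nil))))) (.nd (nat_lit 5) (.nd (nat_lit 6) 
(.lf (nat_lit 76182) (.g (nat_lit 1281) (.e (nat_lit 1796) (nat_lit 119) (.e (nat_lit 516146) (nat_lit 9) (.e (nat_lit 426436) (nat_lit 18) (.e (nat_lit 98356) (nat_lit 26) .nil)))) .nil)) 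
(.lf (nat_lit 76246) (.g (nat_lit 1576) (.e (nat_lit 1796) (nat_lit 119) (.e (nat_lit 516163) (nat_lit 11) (.e (nat_lit 442421) (nat_lit 21) (.e (nat_lit 164177) (nat_lit 154) .nil)))) .nil))) (.nd (nat_lit 6) 
(.lf (nat_lit 76214) (.g (nat_lit 2684) (.e (nat_lit 1796) (nat_lit 119) (.e (nat_lit 516158) (nat_lit 9) (.e (nat_lit 426306) (nat_lit 12) (.e (nat_lit 475177) (nat_lit 24) (.e (nat_lit 516129) (nat_lit 3) (.e (nat_lit 221192) (nat_lit 11) (.e (nat_lit 335958) (nat_lit 0) .nil))))))) (.g (nat_lit 5) .nil .nil))) 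
(.lf (nat_lit 76278) (.g (nat_lit 430) (.e (nat_lit 1796) (nat_lit 119) (.e (nat_lit 516165) (nat_lit 12) (.e (nat_lit 450579) (nat_lit 5) .nil))) .nil))))) (.nd (nat_lit 4) (.nd (nat_lit 5) (.nd (nat_lit 6) 
(.lf (nat_lit 76174) (.g (nat_lit 639) (.e (nat_lit 1796) (nat_lit 119) (.e (nat_lit 516145) (nat_lit 9) (.e (nat_lit 426437) (nat_lit 18) .nil))) .nil)) 
(.lf (nat_lit 76238) (.g (nat_lit 1702) (.e (nat_lit 1796) (nat_lit 119) (.e (nat_lit 516163) (nat_lit 11) (.e (nat_lit 450304) (nat_lit 0) (.e (nat_lit 1853) (nat_lit 124) (.e (nat_lit 557105) (nat_lit 14) (.e (nat_lit 180275) (nat_lit 32) (.e (nat_lit 1074) (nat_lit 81) .nil))))))) (.g (nat_lit 5) .nil .nil)))) (.nd (nat_lit 6) 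
(.lf (nat_lit 76206) (.g (nat_lit 2461) (.e (nat_lit 1796) (nat_lit 119) (.e (nat_lit 516151) (nat_lit 9) (.e (nat_lit 426338) (nat_lit 14) (.e (nat_lit 491535) (nat_lit 2) .nil)))) .nil)) 
(.lf (nat_lit 76270) (.g (nat_lit 2432) (.e (nat_lit 1796) (nat_lit 119) (.e (nat_lit 516163) (nat_lit 11) (.e (nat_lit 442427) (nat_lit 23) (.e (nat_lit 204846) (nat_lit 24) (.e (nat_lit 319506) (nat_lit 10) .nil))))) .nil)))) (.nd (nat_lit 5) (.nd (nat_lit 6) 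
(.lf (nat_lit 76190) (.g (nat_lit 605) (.e (nat_lit 1796) (nat_lit 119) (.e (nat_lit 516150) (nat_lit 9) (.e (nat_lit 426320) (nat_lit 12) .nil))) .nil)) 
(.lf (nat_lit 76254) (.g (nat_lit 864) (.e (nat_lit 1796) (nat_lit 119) (.e (nat_lit 516163) (nat_lit 11) (.e (nat_lit 442424) (nat_lit 22) (.e (nat_lit 204544) (nat_lit 21) .nil)))) .nil))) (.nd (nat_lit 6) 
(.lf (nat_lit 76222) (.g (nat_lit 2316) (.e (nat_lit 1796) (nat_lit 119) (.e (nat_lit 516163) (nat_lit 11) (.e (nat_lit 442373) (nat_lit 0) (.e (nat_lit 1853) (nat_lit 124) (.e (nat_lit 557103) (nat_lit 14) (.e (nat_lit 180276) (nat_lit 32) (.e (nat_lit 1077) (nat_lit 81) .nil))))))) (.g (nat_lit 5) .nil .nil))) 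
(.lf (nat_lit 76286) (.g (nat_lit 2156) (.e (nat_lit 1796) (nat_lit 119) (.e (nat_lit 516165) (nat_lit 12) (.e (nat_lit 450579) (nat_lit 5) (.e (nat_lit 532482) (nat_lit 0) (.e (nat_lit 6714) (nat_lit 360) .nil))))) .nil)))))))) (.nd (nat_lit 1) (.nd (nat_lit 2) (.nd (nat_lit 3) (.nd (nat_lit 4) (.nd (nat_lit 5) (.nd (nat_lit 6) 
(.lf (nat_lit 76161) (.g (nat_lit 2755) (.e (nat_lit 1796) (nat_lit 119) (.e (nat_lit 516142) (nat_lit 8) (.e (nat_lit 417810) (nat_lit 6) (.e (nat_lit 286733) (nat_lit 2) (.e (nat_lit 90173) (nat_lit 14) (.e (nat_lit 180276) (nat_lit 32) (.e (nat_lit 1074) (nat_lit 81) .nil))))))) (.g (nat_lit 4) .nil .nil))) 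
(.lf (nat_lit 76225) (.g (nat_lit 2462) (.e (nat_lit 1796) (nat_lit 119) (.e (nat_lit 516163) (nat_lit 11) (.e (nat_lit 442374) (nat_lit 0) (.e (nat_lit 1856) (nat_lit 124) (.e (nat_lit 557103) (nat_lit 14) (.e (nat_lit 180276) (nat_lit 32) (.e (nat_lit 1074) (nat_lit 81) .nil))))))) (.g (nat_lit 5) .nil .nil)))) (.nd (nat_lit 6) 
(.lf (nat_lit 76193) (.g (nat_lit 1756) (.e (nat_lit 1796) (nat_lit 119) (.e (nat_lit 516151) (nat_lit 9) (.e (nat_lit 426170) (nat_lit 7) (.e (nat_lit 409631) (nat_lit 12) .nil)))) .nil)) 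
(.lf (nat_lit 76257) (.g (nat_lit 465) (.e (nat_lit 1796) (nat_lit 119) (.e (nat_lit 516163) (nat_lit 11) (.e (nat_lit 442426) (nat_lit 23) .nil))) .nil)))) (.nd (nat_lit 5) (.nd (nat_lit 6) 
(.lf (nat_lit 76177) (.g (nat_lit 2424) (.e (nat_lit 1796) (nat_lit 119) (.e (nat_lit 516145) (nat_lit 9) (.e (nat_lit 426438) (nat_lit 18) (.e (nat_lit 98356) (nat_lit 26) (.e (nat_lit 426438) (nat_lit 18) (.e (nat_lit 98358) (nat_lit 26) (.e (nat_lit 426357) (nat_lit 15) .nil))))))) (.g (nat_lit 4) .nil .nil))) 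
(.lf (nat_lit 76241) (.g (nat_lit 391) (.e (nat_lit 1796) (nat_lit 119) (.e (nat_lit 516163) (nat_lit 11) (.e (nat_lit 450304) (nat_lit 3) .nil))) .nil))) (.nd (nat_lit 6) 
(.lf (nat_lit 76209) (.g (nat_lit 2752) (.e (nat_lit 1796) (nat_lit 119) (.e (nat_lit 516151) (nat_lit 9) (.e (nat_lit 426338) (nat_lit 14) (.e (nat_lit 491537) (nat_lit 2) (.e (nat_lit 90174) (nat_lit 14) .nil))))) .nil)) 
(.lf (nat_lit 76273) (.g (nat_lit 1605) (.e (nat_lit 1796) (nat_lit 119) (.e (nat_lit 516163) (nat_lit 11) (.e (nat_lit 442427) (nat_lit 23) (.e (nat_lit 204848) (nat_lit 25) .nil)))) .nil))))) (.nd (nat_lit 4) (.nd (nat_lit 5) (.nd (nat_lit 6) 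
(.lf (nat_lit 76169) (.g (nat_lit 2724) (.e (nat_lit 1796) (nat_lit 119) (.e (nat_lit 516145) (nat_lit 9) (.e (nat_lit 426436) (nat_lit 18) (.e (nat_lit 98356) (nat_lit 26) (.e (nat_lit 426428) (nat_lit 17) (.e (nat_lit 90169) (nat_lit 13) (.e (nat_lit 172132) (nat_lit 15) .nil))))))) (.g (nat_lit 7) .nil .nil))) 
(.lf (nat_lit 76233) (.g (nat_lit 1715) (.e (nat_lit 1796) (nat_lit 119) (.e (nat_lit 516163) (nat_lit 11) (.e (nat_lit 450304) (nat_lit 0) (.e (nat_lit 1848) (nat_lit 124) (.e (nat_lit 557104) (nat_lit 14) (.e (nat_lit 180275) (nat_lit 32) (.e (nat_lit 1077) (nat_lit 81) .nil))))))) (.g (nat_lit 5) .nil .nil)))) (.nd (nat_lit 6) 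
(.lf (nat_lit 76201) (.g (nat_lit 3171) (.e (nat_lit 1796) (nat_lit 119) (.e (nat_lit 516151) (nat_lit 9) (.e (nat_lit 426285) (nat_lit 10) (.e (nat_lit 434238) (nat_lit 25) (.e (nat_lit 548913) (nat_lit 18) (.e (nat_lit 172125) (nat_lit 14) (.e (nat_lit 491530) (nat_lit 0) .nil))))))) (.g (nat_lit 4) .nil .nil))) 
(.lf (nat_lit 76265) (.g (nat_lit 1448) (.e (nat_lit 1796) (nat_lit 119) (.e (nat_lit 516163) (nat_lit 11) (.e (nat_lit 442427) (nat_lit 23) (.e (nat_lit 204846) (nat_lit 24) .nil)))) .nil)))) (.nd (nat_lit 5) (.nd (nat_lit 6) 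
(.lf (nat_lit 76185) (.g (nat_lit 2258) (.e (nat_lit 1796) (nat_lit 119) (.e (nat_lit 516146) (nat_lit 9) (.e (nat_lit 426436) (nat_lit 18) (.e (nat_lit 98358) (nat_lit 26) (.e (nat_lit 426438) (nat_lit 18) (.e (nat_lit 98358) (nat_lit 26) (.e (nat_lit 426392) (nat_lit 15) .nil))))))) (.g (nat_lit 4) .nil .nil))) 
(.lf (nat_lit 76249) (.g (nat_lit 2129) (.e (nat_lit 1796) (nat_lit 119) (.e (nat_lit 516163) (nat_lit 11) (.e (nat_lit 442424) (nat_lit 22) (.e (nat_lit 196628) (nat_lit 9) (.e (nat_lit 968) (nat_lit 81) .nil))))) .nil))) (.nd (nat_lit 6) 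
(.lf (nat_lit 76217) (.g (nat_lit 2446) (.e (nat_lit 1796) (nat_lit 119) (.e (nat_lit 516158) (nat_lit 9) (.e (nat_lit 426306) (nat_lit 12) (.e (nat_lit 475177) (nat_lit 24) (.e (nat_lit 516131) (nat_lit 3) (.e (nat_lit 221192) (nat_lit 11) (.e (nat_lit 335957) (nat_lit 0) .nil))))))) (.g (nat_lit 5) .nil .nil))) 
(.lf (nat_lit 76281) (.g (nat_lit 3283) (.e (nat_lit 1796) (nat_lit 119) (.e (nat_lit 516165) (nat_lit 12) (.e (nat_lit 450579) (nat_lit 5) (.e (nat_lit 532481) (nat_lit 0) (.e (nat_lit 6712) (nat_lit 360) (.e (nat_lit 164237) (nat_lit 187) (.e (nat_lit 1077) (nat_lit 81) .nil))))))) (.g (nat_lit 5) .nil .nil))))))) (.nd (nat_lit 3) (.nd (nat_lit 4) (.nd (nat_lit 5) (.nd (nat_lit 6) 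
(.lf (nat_lit 76165) (.g (nat_lit 1978) (.e (nat_lit 1796) (nat_lit 119) (.e (nat_lit 516145) (nat_lit 9) (.e (nat_lit 426428) (nat_lit 17) (.e (nat_lit 90133) (nat_lit 9) .nil)))) .nil)) 
(.lf (nat_lit 76229) (.g (nat_lit 2624) (.e (nat_lit 1796) (nat_lit 119) (.e (nat_lit 516163) (nat_lit 11) (.e (nat_lit 442377) (nat_lit 0) (.e (nat_lit 1855) (nat_lit 124) (.e (nat_lit 557103) (nat_lit 14) (.e (nat_lit 180276) (nat_lit 32) (.e (nat_lit 1077) (nat_lit 81) .nil))))))) (.g (nat_lit 5) .nil .nil)))) (.nd (nat_lit 6) 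
(.lf (nat_lit 76197) (.g (nat_lit 4578) (.e (nat_lit 1796) (nat_lit 119) (.e (nat_lit 516151) (nat_lit 9) (.e (nat_lit 426211) (nat_lit 9) (.e (nat_lit 426125) (nat_lit 2) (.e (nat_lit 196628) (nat_lit 9) .nil))))) .nil)) 
(.lf (nat_lit 76261) (.g (nat_lit 2560) (.e (nat_lit 1796) (nat_lit 119) (.e (nat_lit 516163) (nat_lit 11) (.e (nat_lit 442427) (nat_lit 23) (.e (nat_lit 204816) (nat_lit 17) (.e (nat_lit 6714) (nat_lit 360) (.e (nat_lit 164237) (nat_lit 187) (.e (nat_lit 1074) (nat_lit 81) .nil))))))) (.g (nat_lit 4) .nil .nil))))) (.nd (nat_lit 5) (.nd (nat_lit 6) 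
(.lf (nat_lit 76181) (.g (nat_lit 2103) (.e (nat_lit 1796) (nat_lit 119) (.e (nat_lit 516145) (nat_lit 9) (.e (nat_lit 426438) (nat_lit 18) (.e (nat_lit 98384) (nat_lit 32) (.e (nat_lit 475177) (nat_lit 24) (.e (nat_lit 516148) (nat_lit 9) (.e (nat_lit 426392) (nat_lit 15) .nil))))))) (.g (nat_lit 4) .nil .nil))) 
(.lf (nat_lit 76245) (.g (nat_lit 2208) (.e (nat_lit 1796) (nat_lit 119) (.e (nat_lit 516163) (nat_lit 11) (.e (nat_lit 442412) (nat_lit 20) (.e (nat_lit 3272) (nat_lit 199) (.e (nat_lit 548914) (nat_lit 19) (.e (nat_lit 180275) (nat_lit 32) (.e (nat_lit 1077) (nat_lit 81) .nil))))))) (.g (nat_lit 5) .nil .nil)))) (.nd (nat_lit 6) 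
(.lf (nat_lit 76213) (.g (nat_lit 2646) (.e (nat_lit 1796) (nat_lit 119) (.e (nat_lit 516158) (nat_lit 9) (.e (nat_lit 426306) (nat_lit 12) (.e (nat_lit 475177) (nat_lit 24) (.e (nat_lit 516129) (nat_lit 3) (.e (nat_lit 221192) (nat_lit 11) (.e (nat_lit 335957) (nat_lit 0) .nil))))))) (.g (nat_lit 5) .nil .nil))) 
(.lf (nat_lit 76277) (.g (nat_lit 2672) (.e (nat_lit 1796) (nat_lit 119) (.e (nat_lit 516163) (nat_lit 11) (.e (nat_lit 442427) (nat_lit 23) (.e (nat_lit 204885) (nat_lit 33) (.e (nat_lit 401414) (nat_lit 0) (.e (nat_lit 7550) (nat_lit 402) (.e (nat_lit 1077) (nat_lit 81) .nil))))))) (.g (nat_lit 4) .nil .nil)))))) (.nd (nat_lit 4) (.nd (nat_lit 5) (.nd (nat_lit 6) 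
(.lf (nat_lit 76173) (.g (nat_lit 1931) (.e (nat_lit 1796) (nat_lit 119) (.e (nat_lit 516145) (nat_lit 9) (.e (nat_lit 426436) (nat_lit 18) (.e (nat_lit 98386) (nat_lit 32) (.e (nat_lit 475177) (nat_lit 24) (.e (nat_lit 516148) (nat_lit 9) (.e (nat_lit 426392) (nat_lit 15) .nil))))))) (.g (nat_lit 4) .nil .nil))) 
(.lf (nat_lit 76237) (.g (nat_lit 2022) (.e (nat_lit 1796) (nat_lit 119) (.e (nat_lit 516163) (nat_lit 11) (.e (nat_lit 450304) (nat_lit 0) (.e (nat_lit 1853) (nat_lit 124) (.e (nat_lit 557104) (nat_lit 14) (.e (nat_lit 180276) (nat_lit 32) (.e (nat_lit 1077) (nat_lit 81) .nil))))))) (.g (nat_lit 5) .nil .nil)))) (.nd (nat_lit 6) 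
(.lf (nat_lit 76205) (.g (nat_lit 1614) (.e (nat_lit 1796) (nat_lit 119) (.e (nat_lit 516151) (nat_lit 9) (.e (nat_lit 426312) (nat_lit 12) (.e (nat_lit 475185) (nat_lit 29) .nil)))) .nil)) 
(.lf (nat_lit 76269) (.g (nat_lit 2977) (.e (nat_lit 1796) (nat_lit 119) (.e (nat_lit 516163) (nat_lit 11) (.e (nat_lit 442427) (nat_lit 23) (.e (nat_lit 204846) (nat_lit 24) (.e (nat_lit 319504) (nat_lit 10) (.e (nat_lit 5351) (nat_lit 298) (.e (nat_lit 1074) (nat_lit 81) .nil))))))) (.g (nat_lit 4) .nil .nil))))) (.nd (nat_lit 5) (.nd (nat_lit 6) 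
(.lf (nat_lit 76189) (.g (nat_lit 2700) (.e (nat_lit 1796) (nat_lit 119) (.e (nat_lit 516146) (nat_lit 9) (.e (nat_lit 426438) (nat_lit 18) (.e (nat_lit 98358) (nat_lit 26) (.e (nat_lit 426436) (nat_lit 18) (.e (nat_lit 98358) (nat_lit 26) (.e (nat_lit 426392) (nat_lit 15) .nil))))))) (.g (nat_lit 4) .nil .nil))) 
(.lf (nat_lit 76253) (.g (nat_lit 1627) (.e (nat_lit 1796) (nat_lit 119) (.e (nat_lit 516163) (nat_lit 11) (.e (nat_lit 442424) (nat_lit 22) (.e (nat_lit 196677) (nat_lit 16) .nil)))) .nil))) (.nd (nat_lit 6) 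
(.lf (nat_lit 76221) (.g (nat_lit 2494) (.e (nat_lit 1796) (nat_lit 119) (.e (nat_lit 516163) (nat_lit 11) (.e (nat_lit 442373) (nat_lit 0) (.e (nat_lit 1853) (nat_lit 124) (.e (nat_lit 557103) (nat_lit 14) (.e (nat_lit 180276) (nat_lit 32) (.e (nat_lit 1074) (nat_lit 81) .nil))))))) (.g (nat_lit 5) .nil .nil))) 
(.lf (nat_lit 76285) (.g (nat_lit 2245) (.e (nat_lit 1796) (nat_lit 119) (.e (nat_lit 516165) (nat_lit 12) (.e (nat_lit 450579) (nat_lit 5) (.e (nat_lit 532482) (nat_lit 0) (.e (nat_lit 6712) (nat_lit 360) (.e (nat_lit 164237) (nat_lit 187) (.e (nat_lit 1074) (nat_lit 81) .nil))))))) (.g (nat_lit 4) .nil .nil)))))))) 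
(.nd (nat_lit 2) (.nd (nat_lit 3) (.nd (nat_lit 4) (.nd (nat_lit 5) (.nd (nat_lit 6) 
(.lf (nat_lit 76163) (.g (nat_lit 2948) (.e (nat_lit 1796) (nat_lit 119) (.e (nat_lit 516142) (nat_lit 8) (.e (nat_lit 417811) (nat_lit 6) (.e (nat_lit 286733) (nat_lit 2) (.e (nat_lit 90173) (nat_lit 14) (.e (nat_lit 180275) (nat_lit 32) (.e (nat_lit 1077) (nat_lit 81) .nil))))))) (.g (nat_lit 5) .nil .nil))) 
(.lf (nat_lit 76227) (.g (nat_lit 2219) (.e (nat_lit 1796) (nat_lit 119) (.e (nat_lit 516163) (nat_lit 11) (.e (nat_lit 442374) (nat_lit 0) (.e (nat_lit 1856) (nat_lit 124) (.e (nat_lit 557105) (nat_lit 14) (.e (nat_lit 180275) (nat_lit 32) (.e (nat_lit 1077) (nat_lit 81) .nil))))))) (.g (nat_lit 5) .nil .nil)))) (.nd (nat_lit 6) 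
(.lf (nat_lit 76195) (.g (nat_lit 1117) (.e (nat_lit 1796) (nat_lit 119) (.e (nat_lit 516151) (nat_lit 9) (.e (nat_lit 426211) (nat_lit 9) .nil))) .nil)) 
(.lf (nat_lit 76259) (.g (nat_lit 3101) (.e (nat_lit 1796) (nat_lit 119) (.e (nat_lit 516163) (nat_lit 11) (.e (nat_lit 442427) (nat_lit 23) (.e (nat_lit 204815) (nat_lit 17) (.e (nat_lit 6712) (nat_lit 360) (.e (nat_lit 164237) (nat_lit 187) (.e (nat_lit 1077) (nat_lit 81) .nil))))))) (.g (nat_lit 5) .nil .nil))))) (.nd (nat_lit 5) (.nd (nat_lit 6) 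
(.lf (nat_lit 76179) (.g (nat_lit 3611) (.e (nat_lit 1796) (nat_lit 119) (.e (nat_lit 516145) (nat_lit 9) (.e (nat_lit 426438) (nat_lit 18) (.e (nat_lit 98358) (nat_lit 26) (.e (nat_lit 426428) (nat_lit 17) (.e (nat_lit 90169) (nat_lit 13) (.e (nat_lit 172132) (nat_lit 15) .nil))))))) (.g (nat_lit 6) .nil .nil))) 
(.lf (nat_lit 76243) (.g (nat_lit 1325) (.e (nat_lit 1796) (nat_lit 119) (.e (nat_lit 516163) (nat_lit 11) (.e (nat_lit 442411) (nat_lit 20) (.e (nat_lit 3272) (nat_lit 199) (.e (nat_lit 548914) (nat_lit 19) .nil))))) .nil))) (.nd (nat_lit 6) 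
(.lf (nat_lit 76211) (.g (nat_lit 726) (.e (nat_lit 1796) (nat_lit 119) (.e (nat_lit 516151) (nat_lit 9) (.e (nat_lit 426346) (nat_lit 14) .nil))) .nil)) 
(.lf (nat_lit 76275) (.g (nat_lit 2319) (.e (nat_lit 1796) (nat_lit 119) (.e (nat_lit 516163) (nat_lit 11) (.e (nat_lit 442427) (nat_lit 23) (.e (nat_lit 204863) (nat_lit 27) (.e (nat_lit 344096) (nat_lit 18) .nil))))) .nil))))) (.nd (nat_lit 4) (.nd (nat_lit 5) (.nd (nat_lit 6) 
(.lf (nat_lit 76171) (.g (nat_lit 3488) (.e (nat_lit 1796) (nat_lit 119) (.e (nat_lit 516145) (nat_lit 9) (.e (nat_lit 426436) (nat_lit 18) (.e (nat_lit 98358) (nat_lit 26) (.e (nat_lit 426428) (nat_lit 17) (.e (nat_lit 90169) (nat_lit 13) (.e (nat_lit 172132) (nat_lit 15) .nil))))))) (.g (nat_lit 7) .nil .nil))) 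
(.lf (nat_lit 76235) (.g (nat_lit 1457) (.e (nat_lit 1796) (nat_lit 119) (.e (nat_lit 516163) (nat_lit 11) (.e (nat_lit 450304) (nat_lit 0) (.e (nat_lit 1849) (nat_lit 124) (.e (nat_lit 557104) (nat_lit 14) (.e (nat_lit 180275) (nat_lit 32) (.e (nat_lit 1077) (nat_lit 81) .nil))))))) (.g (nat_lit 5) .nil .nil)))) (.nd (nat_lit 6) 
(.lf (nat_lit 76203) (.g (nat_lit 789) (.e (nat_lit 1796) (nat_lit 119) (.e (nat_lit 516151) (nat_lit 9) (.e (nat_lit 426312) (nat_lit 12) .nil))) .nil)) 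
(.lf (nat_lit 76267) (.g (nat_lit 4179) (.e (nat_lit 1796) (nat_lit 119) (.e (nat_lit 516163) (nat_lit 11) (.e (nat_lit 442427) (nat_lit 23) (.e (nat_lit 204846) (nat_lit 24) (.e (nat_lit 319502) (nat_lit 10) (.e (nat_lit 5315) (nat_lit 298) (.e (nat_lit 1077) (nat_lit 81) .nil))))))) (.g (nat_lit 5) .nil .nil))))) (.nd (nat_lit 5) (.nd (nat_lit 6) 
(.lf (nat_lit 76187) (.g (nat_lit 2322) (.e (nat_lit 1796) (nat_lit 119) (.e (nat_lit 516146) (nat_lit 9) (.e (nat_lit 426438) (nat_lit 18) (.e (nat_lit 98356) (nat_lit 26) (.e (nat_lit 426438) (nat_lit 18) (.e (nat_lit 98358) (nat_lit 26) (.e (nat_lit 426392) (nat_lit 15) .nil))))))) (.g (nat_lit 4) .nil .nil))) 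
(.lf (nat_lit 76251) (.g (nat_lit 2204) (.e (nat_lit 1796) (nat_lit 119) (.e (nat_lit 516163) (nat_lit 11) (.e (nat_lit 442424) (nat_lit 22) (.e (nat_lit 196661) (nat_lit 12) (.e (nat_lit 57712) (nat_lit 176) (.e (nat_lit 972) (nat_lit 81) (.e (nat_lit 5353) (nat_lit 298) (.e (nat_lit 1074) (nat_lit 81) .nil)))))))) (.g (nat_lit 4) .nil .nil)))) (.nd (nat_lit 6) 
(.lf (nat_lit 76219) (.g (nat_lit 1335) (.e (nat_lit 1796) (nat_lit 119) (.e (nat_lit 516158) (nat_lit 9) (.e (nat_lit 426325) (nat_lit 13) (.e (nat_lit 483363) (nat_lit 18) .nil)))) .nil)) 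
(.lf (nat_lit 76283) (.g (nat_lit 2531) (.e (nat_lit 1796) (nat_lit 119) (.e (nat_lit 516165) (nat_lit 12) (.e (nat_lit 450579) (nat_lit 5) (.e (nat_lit 532481) (nat_lit 0) (.e (nat_lit 6714) (nat_lit 360) (.e (nat_lit 164237) (nat_lit 187) (.e (nat_lit 1077) (nat_lit 81) .nil))))))) (.g (nat_lit 4) .nil .nil))))))) (.nd (nat_lit 3) (.nd (nat_lit 4) (.nd (nat_lit 5) (.nd (nat_lit 6) 
(.lf (nat_lit 76167) (.g (nat_lit 1916) (.e (nat_lit 1796) (nat_lit 119) (.e (nat_lit 516145) (nat_lit 9) (.e (nat_lit 426428) (nat_lit 17) (.e (nat_lit 90170) (nat_lit 13) .nil)))) .nil)) 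
(.lf (nat_lit 76231) (.g (nat_lit 2459) (.e (nat_lit 1796) (nat_lit 119) (.e (nat_lit 516163) (nat_lit 11) (.e (nat_lit 442377) (nat_lit 0) (.e (nat_lit 1856) (nat_lit 124) (.e (nat_lit 557103) (nat_lit 14) (.e (nat_lit 180276) (nat_lit 32) (.e (nat_lit 1077) (nat_lit 81) .nil))))))) (.g (nat_lit 5) .nil .nil)))) (.nd (nat_lit 6) 
(.lf (nat_lit 76199) (.g (nat_lit 2447) (.e (nat_lit 1796) (nat_lit 119) (.e (nat_lit 516151) (nat_lit 9) (.e (nat_lit 426211) (nat_lit 9) (.e (nat_lit 426140) (nat_lit 3) .nil)))) .nil)) 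
(.lf (nat_lit 76263) (.g (nat_lit 1570) (.e (nat_lit 1796) (nat_lit 119) (.e (nat_lit 516163) (nat_lit 11) (.e (nat_lit 442427) (nat_lit 23) (.e (nat_lit 204819) (nat_lit 17) .nil)))) .nil)))) (.nd (nat_lit 5) (.nd (nat_lit 6) 
(.lf (nat_lit 76183) (.g (nat_lit 1817) (.e (nat_lit 1796) (nat_lit 119) (.e (nat_lit 516146) (nat_lit 9) (.e (nat_lit 426436) (nat_lit 18) (.e (nat_lit 98356) (nat_lit 26) (.e (nat_lit 426438) (nat_lit 18) .nil))))) .nil)) 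
(.lf (nat_lit 76247) (.g (nat_lit 2144) (.e (nat_lit 1796) (nat_lit 119) (.e (nat_lit 516163) (nat_lit 11) (.e (nat_lit 442421) (nat_lit 21) (.e (nat_lit 164178) (nat_lit 154) (.e (nat_lit 57390) (nat_lit 5) .nil))))) .nil))) (.nd (nat_lit 6) 
(.lf (nat_lit 76215) (.g (nat_lit 1697) (.e (nat_lit 1796) (nat_lit 119) (.e (nat_lit 516158) (nat_lit 9) (.e (nat_lit 426306) (nat_lit 12) (.e (nat_lit 475177) (nat_lit 24) (.e (nat_lit 516131) (nat_lit 3) (.e (nat_lit 221191) (nat_lit 11) (.e (nat_lit 335958) (nat_lit 0) .nil))))))) (.g (nat_lit 4) .nil .nil))) 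
(.lf (nat_lit 76279) (.g (nat_lit 2486) (.e (nat_lit 1796) (nat_lit 119) (.e (nat_lit 516165) (nat_lit 12) (.e (nat_lit 450579) (nat_lit 5) (.e (nat_lit 532481) (nat_lit 0) (.e (nat_lit 6712) (nat_lit 360) .nil))))) .nil))))) (.nd (nat_lit 4) (.nd (nat_lit 5) (.nd (nat_lit 6) 
(.lf (nat_lit 76175) (.g (nat_lit 591) (.e (nat_lit 1796) (nat_lit 119) (.e (nat_lit 516145) (nat_lit 9) (.e (nat_lit 426438) (nat_lit 18) .nil))) .nil)) 
(.lf (nat_lit 76239) (.g (nat_lit 1529) (.e (nat_lit 1796) (nat_lit 119) (.e (nat_lit 516163) (nat_lit 11) (.e (nat_lit 450304) (nat_lit 0) (.e (nat_lit 1859) (nat_lit 124) (.e (nat_lit 557105) (nat_lit 14) (.e (nat_lit 180275) (nat_lit 32) (.e (nat_lit 1074) (nat_lit 81) .nil))))))) (.g (nat_lit 5) .nil .nil)))) (.nd (nat_lit 6) 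
(.lf (nat_lit 76207) (.g (nat_lit 2358) (.e (nat_lit 1796) (nat_lit 119) (.e (nat_lit 516151) (nat_lit 9) (.e (nat_lit 426338) (nat_lit 14) (.e (nat_lit 491536) (nat_lit 2) .nil)))) .nil)) 
(.lf (nat_lit 76271) (.g (nat_lit 3388) (.e (nat_lit 1796) (nat_lit 119) (.e (nat_lit 516163) (nat_lit 11) (.e (nat_lit 442427) (nat_lit 23) (.e (nat_lit 204846) (nat_lit 24) (.e (nat_lit 319533) (nat_lit 16) (.e (nat_lit 294656) (nat_lit 0) .nil)))))) (.g (nat_lit 5) .nil .nil))))) (.nd (nat_lit 5) (.nd (nat_lit 6) 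
(.lf (nat_lit 76191) (.g (nat_lit 1376) (.e (nat_lit 1796) (nat_lit 119) (.e (nat_lit 516150) (nat_lit 9) (.e (nat_lit 426320) (nat_lit 12) (.e (nat_lit 475184) (nat_lit 29) .nil)))) .nil)) 
(.lf (nat_lit 76255) (.g (nat_lit 478) (.e (nat_lit 1796) (nat_lit 119) (.e (nat_lit 516163) (nat_lit 11) (.e (nat_lit 442425) (nat_lit 23) .nil))) .nil))) (.nd (nat_lit 6) 
(.lf (nat_lit 76223) (.g (nat_lit 2301) (.e (nat_lit 1796) (nat_lit 119) (.e (nat_lit 516163) (nat_lit 11) (.e (nat_lit 442373) (nat_lit 0) (.e (nat_lit 1853) (nat_lit 124) (.e (nat_lit 557104) (nat_lit 14) (.e (nat_lit 180276) (nat_lit 32) (.e (nat_lit 1074) (nat_lit 81) .nil))))))) (.g (nat_lit 5) .nil .nil))) 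
(.lf (nat_lit 76287) (.g (nat_lit 1597) (.e (nat_lit 1796) (nat_lit 119) (.e (nat_lit 516165) (nat_lit 12) (.e (nat_lit 450579) (nat_lit 5) (.e (nat_lit 532523) (nat_lit 7) .nil)))) .nil)))))))))

noncomputable def tv1032 : DT := (.nd (nat_lit 0) (.nd (nat_lit 1) (.nd (nat_lit 2) (.nd (nat_lit 3) (.nd (nat_lit 4) (.nd (nat_lit 5) (.nd (nat_lit 6) 
(.lf (nat_lit 76288) (.g (nat_lit 2092) (.e (nat_lit 1796) (nat_lit 119) (.e (nat_lit 516165) (nat_lit 12) (.e (nat_lit 450586) (nat_lit 10) (.e (nat_lit 573450) (nat_lit 9) (.e (nat_lit 442) (nat_lit 33) .nil))))) .nil)) 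
(.lf (nat_lit 76352) (.g (nat_lit 763) (.e (nat_lit 1796) (nat_lit 119) (.e (nat_lit 516166) (nat_lit 12) (.e (nat_lit 450586) (nat_lit 10) .nil))) .nil))) (.nd (nat_lit 6) 
(.lf (nat_lit 76320) (.g (nat_lit 4020) (.e (nat_lit 1796) (nat_lit 119) (.e (nat_lit 516165) (nat_lit 12) (.e (nat_lit 450588) (nat_lit 10) (.e (nat_lit 573469) (nat_lit 11) (.e (nat_lit 16473) (nat_lit 14) .nil))))) .nil)) 
(.lf (nat_lit 76384) (.g (nat_lit 2759) (.e (nat_lit 1796) (nat_lit 119) (.e (nat_lit 516166) (nat_lit 12) (.e (nat_lit 450588) (nat_lit 10) (.e (nat_lit 573452) (nat_lit 9) (.e (nat_lit 430) (nat_lit 32) .nil))))) .nil)))) (.nd (nat_lit 5) (.nd (nat_lit 6) 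
(.lf (nat_lit 76304) (.g (nat_lit 1447) (.e (nat_lit 1796) (nat_lit 119) (.e (nat_lit 516165) (nat_lit 12) (.e (nat_lit 450586) (nat_lit 10) (.e (nat_lit 573477) (nat_lit 12) .nil)))) .nil)) 
(.lf (nat_lit 76368) (.g (nat_lit 3024) (.e (nat_lit 1796) (nat_lit 119) (.e (nat_lit 516166) (nat_lit 12) (.e (nat_lit 450587) (nat_lit 10) (.e (nat_lit 573477) (nat_lit 12) (.e (nat_lit 57575) (nat_lit 55) (.e (nat_lit 778463) (nat_lit 11) (.e (nat_lit 24593) (nat_lit 0) .nil))))))) (.g (nat_lit 4) .nil .nil)))) (.nd (nat_lit 6) 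
(.lf (nat_lit 76336) (.g (nat_lit 2392) (.e (nat_lit 1796) (nat_lit 119) (.e (nat_lit 516166) (nat_lit 12) (.e (nat_lit 450563) (nat_lit 0) (.e (nat_lit 6416) (nat_lit 341) (.e (nat_lit 163878) (nat_lit 4) (.e (nat_lit 213035) (nat_lit 12) (.e (nat_lit 164057) (nat_lit 56) (.e (nat_lit 786450) (nat_lit 15) .nil)))))))) (.g (nat_lit 4) .nil .nil))) 
(.lf (nat_lit 76400) (.g (nat_lit 1846) (.e (nat_lit 1796) (nat_lit 119) (.e (nat_lit 516166) (nat_lit 12) (.e (nat_lit 450588) (nat_lit 10) (.e (nat_lit 573471) (nat_lit 11) (.e (nat_lit 16473) (nat_lit 14) (.e (nat_lit 499456) (nat_lit 0) .nil)))))) (.g (nat_lit 4) .nil .nil)))))) (.nd (nat_lit 4) (.nd (nat_lit 5) (.nd (nat_lit 6) 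
(.lf (nat_lit 76296) (.g (nat_lit 1705) (.e (nat_lit 1796) (nat_lit 119) (.e (nat_lit 516165) (nat_lit 12) (.e (nat_lit 450586) (nat_lit 10) (.e (nat_lit 573457) (nat_lit 9) (.e (nat_lit 430) (nat_lit 32) .nil))))) .nil)) 
(.lf (nat_lit 76360) (.g (nat_lit 1946) (.e (nat_lit 1796) (nat_lit 119) (.e (nat_lit 516166) (nat_lit 12) (.e (nat_lit 450587) (nat_lit 10) (.e (nat_lit 573456) (nat_lit 9) (.e (nat_lit 7936) (nat_lit 33) .nil))))) .nil))) (.nd (nat_lit 6) 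
(.lf (nat_lit 76328) (.g (nat_lit 2300) (.e (nat_lit 1796) (nat_lit 119) (.e (nat_lit 516165) (nat_lit 12) (.e (nat_lit 450588) (nat_lit 10) (.e (nat_lit 573473) (nat_lit 12) .nil)))) .nil)) 
(.lf (nat_lit 76392) (.g (nat_lit 1313) (.e (nat_lit 1796) (nat_lit 119) (.e (nat_lit 516166) (nat_lit 12) (.e (nat_lit 450588) (nat_lit 10) (.e (nat_lit 573471) (nat_lit 11) .nil)))) .nil)))) (.nd (nat_lit 5) (.nd (nat_lit 6) 
(.lf (nat_lit 76312) (.g (nat_lit 1532) (.e (nat_lit 1796) (nat_lit 119) (.e (nat_lit 516165) (nat_lit 12) (.e (nat_lit 450587) (nat_lit 10) (.e (nat_lit 573478) (nat_lit 12) .nil)))) .nil)) 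
(.lf (nat_lit 76376) (.g (nat_lit 3379) (.e (nat_lit 1796) (nat_lit 119) (.e (nat_lit 516166) (nat_lit 12) (.e (nat_lit 450587) (nat_lit 10) (.e (nat_lit 573478) (nat_lit 12) (.e (nat_lit 57574) (nat_lit 55) (.e (nat_lit 778466) (nat_lit 11) (.e (nat_lit 32512) (nat_lit 0) .nil))))))) (.g (nat_lit 5) .nil .nil)))) (.nd (nat_lit 6) 
(.lf (nat_lit 76344) (.g (nat_lit 2576) (.e (nat_lit 1796) (nat_lit 119) (.e (nat_lit 516166) (nat_lit 12) (.e (nat_lit 450563) (nat_lit 0) (.e (nat_lit 6420) (nat_lit 341) (.e (nat_lit 163885) (nat_lit 5) (.e (nat_lit 221198) (nat_lit 20) (.e (nat_lit 3744) (nat_lit 228) (.e (nat_lit 786450) (nat_lit 15) .nil)))))))) (.g (nat_lit 4) .nil .nil))) 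
(.lf (nat_lit 76408) (.g (nat_lit 2936) (.e (nat_lit 1796) (nat_lit 119) (.e (nat_lit 516166) (nat_lit 12) (.e (nat_lit 450588) (nat_lit 10) (.e (nat_lit 573475) (nat_lit 12) (.e (nat_lit 57347) (nat_lit 0) .nil))))) .nil)))))) (.nd (nat_lit 3) (.nd (nat_lit 4) (.nd (nat_lit 5) (.nd (nat_lit 6) 
(.lf (nat_lit 76292) (.g (nat_lit 1488) (.e (nat_lit 1796) (nat_lit 119) (.e (nat_lit 516165) (nat_lit 12) (.e (nat_lit 450586) (nat_lit 10) (.e (nat_lit 573452) (nat_lit 9) .nil)))) .nil)) 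
(.lf (nat_lit 76356) (.g (nat_lit 2643) (.e (nat_lit 1796) (nat_lit 119) (.e (nat_lit 516166) (nat_lit 12) (.e (nat_lit 450587) (nat_lit 10) (.e (nat_lit 573454) (nat_lit 9) (.e (nat_lit 441) (nat_lit 33) (.e (nat_lit 434179) (nat_lit 0) (.e (nat_lit 1074) (nat_lit 81) .nil))))))) (.g (nat_lit 4) .nil .nil)))) (.nd (nat_lit 6) 
(.lf (nat_lit 76324) (.g (nat_lit 1966) (.e (nat_lit 1796) (nat_lit 119) (.e (nat_lit 516165) (nat_lit 12) (.e (nat_lit 450588) (nat_lit 10) (.e (nat_lit 573471) (nat_lit 11) .nil)))) .nil)) 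
(.lf (nat_lit 76388) (.g (nat_lit 2629) (.e (nat_lit 1796) (nat_lit 119) (.e (nat_lit 516166) (nat_lit 12) (.e (nat_lit 450588) (nat_lit 10) (.e (nat_lit 573457) (nat_lit 9) .nil)))) .nil)))) (.nd (nat_lit 5) (.nd (nat_lit 6) 
(.lf (nat_lit 76308) (.g (nat_lit 497) (.e (nat_lit 1796) (nat_lit 119) (.e (nat_lit 516165) (nat_lit 12) (.e (nat_lit 450587) (nat_lit 10) .nil))) .nil)) 
(.lf (nat_lit 76372) (.g (nat_lit 2796) (.e (nat_lit 1796) (nat_lit 119) (.e (nat_lit 516166) (nat_lit 12) (.e (nat_lit 450587) (nat_lit 10) (.e (nat_lit 573477) (nat_lit 12) (.e (nat_lit 65280) (nat_lit 57) (.e (nat_lit 794635) (nat_lit 11) (.e (nat_lit 335958) (nat_lit 0) .nil))))))) (.g (nat_lit 4) .nil .nil)))) (.nd (nat_lit 6) 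
(.lf (nat_lit 76340) (.g (nat_lit 2837) (.e (nat_lit 1796) (nat_lit 119) (.e (nat_lit 516166) (nat_lit 12) (.e (nat_lit 450563) (nat_lit 0) (.e (nat_lit 6420) (nat_lit 341) (.e (nat_lit 163843) (nat_lit 0) (.e (nat_lit 3603) (nat_lit 225) (.e (nat_lit 761903) (nat_lit 16) (.e (nat_lit 172132) (nat_lit 15) .nil)))))))) (.g (nat_lit 4) .nil .nil))) 
(.lf (nat_lit 76404) (.g (nat_lit 3489) (.e (nat_lit 1796) (nat_lit 119) (.e (nat_lit 516166) (nat_lit 12) (.e (nat_lit 450588) (nat_lit 10) (.e (nat_lit 573473) (nat_lit 12) (.e (nat_lit 65280) (nat_lit 57) (.e (nat_lit 794635) (nat_lit 11) (.e (nat_lit 335958) (nat_lit 0) .nil))))))) (.g (nat_lit 4) .nil .nil)))))) (.nd (nat_lit 4) (.nd (nat_lit 5) (.nd (nat_lit 6) 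
(.lf (nat_lit 76300) (.g (nat_lit 3856) (.e (nat_lit 1796) (nat_lit 119) (.e (nat_lit 516165) (nat_lit 12) (.e (nat_lit 450586) (nat_lit 10) (.e (nat_lit 573471) (nat_lit 11) (.e (nat_lit 16473) (nat_lit 14) (.e (nat_lit 491530) (nat_lit 0) .nil)))))) (.g (nat_lit 5) .nil .nil))) 
(.lf (nat_lit 76364) (.g (nat_lit 4358) (.e (nat_lit 1796) (nat_lit 119) (.e (nat_lit 516166) (nat_lit 12) (.e (nat_lit 450587) (nat_lit 10) (.e (nat_lit 573469) (nat_lit 11) (.e (nat_lit 16473) (nat_lit 14) (.e (nat_lit 491530) (nat_lit 0) .nil)))))) (.g (nat_lit 0) .nil .nil)))) (.nd (nat_lit 6) 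
(.lf (nat_lit 76332) (.g (nat_lit 1864) (.e (nat_lit 1796) (nat_lit 119) (.e (nat_lit 516166) (nat_lit 12) (.e (nat_lit 450562) (nat_lit 0) (.e (nat_lit 6416) (nat_lit 341) (.e (nat_lit 163885) (nat_lit 5) .nil))))) .nil)) 
(.lf (nat_lit 76396) (.g (nat_lit 2821) (.e (nat_lit 1796) (nat_lit 119) (.e (nat_lit 516166) (nat_lit 12) (.e (nat_lit 450588) (nat_lit 10) (.e (nat_lit 573471) (nat_lit 11) (.e (nat_lit 16396) (nat_lit 0) (.e (nat_lit 7549) (nat_lit 402) (.e (nat_lit 1077) (nat_lit 81) .nil))))))) (.g (nat_lit 4) .nil .nil))))) (.nd (nat_lit 5) (.nd (nat_lit 6) 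
(.lf (nat_lit 76316) (.g (nat_lit 3491) (.e (nat_lit 1796) (nat_lit 119) (.e (nat_lit 516165) (nat_lit 12) (.e (nat_lit 450588) (nat_lit 10) (.e (nat_lit 573452) (nat_lit 9) (.e (nat_lit 430) (nat_lit 32) (.e (nat_lit 426344) (nat_lit 14) (.e (nat_lit 491530) (nat_lit 0) .nil))))))) (.g (nat_lit 4) .nil .nil))) 
(.lf (nat_lit 76380) (.g (nat_lit 3644) (.e (nat_lit 1796) (nat_lit 119) (.e (nat_lit 516166) (nat_lit 12) (.e (nat_lit 450588) (nat_lit 10) (.e (nat_lit 573449) (nat_lit 9) (.e (nat_lit 442) (nat_lit 33) .nil))))) .nil))) (.nd (nat_lit 6) 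
(.lf (nat_lit 76348) (.g (nat_lit 568) (.e (nat_lit 1796) (nat_lit 119) (.e (nat_lit 516166) (nat_lit 12) (.e (nat_lit 450580) (nat_lit 5) .nil))) .nil)) 
(.lf (nat_lit 76412) (.g (nat_lit 4825) (.e (nat_lit 1796) (nat_lit 119) (.e (nat_lit 516166) (nat_lit 12) (.e (nat_lit 450588) (nat_lit 10) (.e (nat_lit 573475) (nat_lit 12) (.e (nat_lit 57574) (nat_lit 55) (.e (nat_lit 778465) (nat_lit 11) (.e (nat_lit 24593) (nat_lit 0) .nil))))))) (.g (nat_lit 6) .nil .nil)))))))) 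
(.nd (nat_lit 2) (.nd (nat_lit 3) (.nd (nat_lit 4) (.nd (nat_lit 5) (.nd (nat_lit 6) 
(.lf (nat_lit 76290) (.g (nat_lit 2226) (.e (nat_lit 1796) (nat_lit 119) (.e (nat_lit 516165) (nat_lit 12) (.e (nat_lit 450586) (nat_lit 10) (.e (nat_lit 573450) (nat_lit 9) (.e (nat_lit 442) (nat_lit 33) (.e (nat_lit 434179) (nat_lit 0) (.e (nat_lit 1074) (nat_lit 81) .nil))))))) (.g (nat_lit 4) .nil .nil))) 
(.lf (nat_lit 76354) (.g (nat_lit 2188) (.e (nat_lit 1796) (nat_lit 119) (.e (nat_lit 516166) (nat_lit 12) (.e (nat_lit 450587) (nat_lit 10) (.e (nat_lit 573454) (nat_lit 9) (.e (nat_lit 397) (nat_lit 32) .nil))))) .nil))) (.nd (nat_lit 6) 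
(.lf (nat_lit 76322) (.g (nat_lit 3506) (.e (nat_lit 1796) (nat_lit 119) (.e (nat_lit 516165) (nat_lit 12) (.e (nat_lit 450588) (nat_lit 10) (.e (nat_lit 573470) (nat_lit 11) (.e (nat_lit 16472) (nat_lit 14) (.e (nat_lit 491530) (nat_lit 0) .nil)))))) (.g (nat_lit 4) .nil .nil))) 
(.lf (nat_lit 76386) (.g (nat_lit 3301) (.e (nat_lit 1796) (nat_lit 119) (.e (nat_lit 516166) (nat_lit 12) (.e (nat_lit 450588) (nat_lit 10) (.e (nat_lit 573454) (nat_lit 9) .nil)))) .nil)))) (.nd (nat_lit 5) (.nd (nat_lit 6) 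
(.lf (nat_lit 76306) (.g (nat_lit 1443) (.e (nat_lit 1796) (nat_lit 119) (.e (nat_lit 516165) (nat_lit 12) (.e (nat_lit 450586) (nat_lit 10) (.e (nat_lit 573478) (nat_lit 12) .nil)))) .nil)) 
(.lf (nat_lit 76370) (.g (nat_lit 3811) (.e (nat_lit 1796) (nat_lit 119) (.e (nat_lit 516166) (nat_lit 12) (.e (nat_lit 450587) (nat_lit 10) (.e (nat_lit 573477) (nat_lit 12) (.e (nat_lit 57575) (nat_lit 55) (.e (nat_lit 778466) (nat_lit 11) (.e (nat_lit 24593) (nat_lit 0) .nil))))))) (.g (nat_lit 5) .nil .nil)))) (.nd (nat_lit 6) 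
(.lf (nat_lit 76338) (.g (nat_lit 3283) (.e (nat_lit 1796) (nat_lit 119) (.e (nat_lit 516166) (nat_lit 12) (.e (nat_lit 450563) (nat_lit 0) (.e (nat_lit 6416) (nat_lit 341) (.e (nat_lit 163885) (nat_lit 5) (.e (nat_lit 221204) (nat_lit 20) (.e (nat_lit 3747) (nat_lit 228) (.e (nat_lit 786450) (nat_lit 15) .nil)))))))) (.g (nat_lit 5) .nil .nil))) 
(.lf (nat_lit 76402) (.g (nat_lit 2941) (.e (nat_lit 1796) (nat_lit 119) (.e (nat_lit 516166) (nat_lit 12) (.e (nat_lit 450588) (nat_lit 10) (.e (nat_lit 573473) (nat_lit 12) (.e (nat_lit 57348) (nat_lit 0) .nil))))) .nil))))) (.nd (nat_lit 4) (.nd (nat_lit 5) (.nd (nat_lit 6) 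
(.lf (nat_lit 76298) (.g (nat_lit 1452) (.e (nat_lit 1796) (nat_lit 119) (.e (nat_lit 516165) (nat_lit 12) (.e (nat_lit 450586) (nat_lit 10) (.e (nat_lit 573471) (nat_lit 11) .nil)))) .nil)) 
(.lf (nat_lit 76362) (.g (nat_lit 1963) (.e (nat_lit 1796) (nat_lit 119) (.e (nat_lit 516166) (nat_lit 12) (.e (nat_lit 450587) (nat_lit 10) (.e (nat_lit 573469) (nat_lit 11) .nil)))) .nil))) (.nd (nat_lit 6) 
(.lf (nat_lit 76330) (.g (nat_lit 874) (.e (nat_lit 1796) (nat_lit 119) (.e (nat_lit 516166) (nat_lit 12) (.e (nat_lit 450562) (nat_lit 0) .nil))) .nil)) 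
(.lf (nat_lit 76394) (.g (nat_lit 2823) (.e (nat_lit 1796) (nat_lit 119) (.e (nat_lit 516166) (nat_lit 12) (.e (nat_lit 450588) (nat_lit 10) (.e (nat_lit 573471) (nat_lit 11) (.e (nat_lit 16392) (nat_lit 0) .nil))))) .nil)))) (.nd (nat_lit 5) (.nd (nat_lit 6) 
(.lf (nat_lit 76314) (.g (nat_lit 3080) (.e (nat_lit 1796) (nat_lit 119) (.e (nat_lit 516165) (nat_lit 12) (.e (nat_lit 450588) (nat_lit 10) (.e (nat_lit 573451) (nat_lit 9) .nil)))) .nil)) 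
(.lf (nat_lit 76378) (.g (nat_lit 3692) (.e (nat_lit 1796) (nat_lit 119) (.e (nat_lit 516166) (nat_lit 12) (.e (nat_lit 450588) (nat_lit 10) (.e (nat_lit 573448) (nat_lit 9) .nil)))) .nil))) (.nd (nat_lit 6) 
(.lf (nat_lit 76346) (.g (nat_lit 1124) (.e (nat_lit 1796) (nat_lit 119) (.e (nat_lit 516166) (nat_lit 12) (.e (nat_lit 450576) (nat_lit 2) (.e (nat_lit 507929) (nat_lit 10) .nil)))) .nil)) 
(.lf (nat_lit 76410) (.g (nat_lit 3381) (.e (nat_lit 1796) (nat_lit 119) (.e (nat_lit 516166) (nat_lit 12) (.e (nat_lit 450588) (nat_lit 10) (.e (nat_lit 573475) (nat_lit 12) (.e (nat_lit 57574) (nat_lit 55) (.e (nat_lit 778463) (nat_lit 11) (.e (nat_lit 24593) (nat_lit 0) .nil))))))) (.g (nat_lit 4) .nil .nil))))))) (.nd (nat_lit 3) (.nd (nat_lit 4) (.nd (nat_lit 5) (.nd (nat_lit 6) 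
(.lf (nat_lit 76294) (.g (nat_lit 1900) (.e (nat_lit 1796) (nat_lit 119) (.e (nat_lit 516165) (nat_lit 12) (.e (nat_lit 450586) (nat_lit 10) (.e (nat_lit 573456) (nat_lit 9) (.e (nat_lit 430) (nat_lit 32) .nil))))) .nil)) 
(.lf (nat_lit 76358) (.g (nat_lit 2736) (.e (nat_lit 1796) (nat_lit 119) (.e (nat_lit 516166) (nat_lit 12) (.e (nat_lit 450587) (nat_lit 10) (.e (nat_lit 573454) (nat_lit 9) (.e (nat_lit 7936) (nat_lit 33) (.e (nat_lit 434179) (nat_lit 0) (.e (nat_lit 1074) (nat_lit 81) .nil))))))) (.g (nat_lit 4) .nil .nil)))) (.nd (nat_lit 6) 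
(.lf (nat_lit 76326) (.g (nat_lit 3671) (.e (nat_lit 1796) (nat_lit 119) (.e (nat_lit 516165) (nat_lit 12) (.e (nat_lit 450588) (nat_lit 10) (.e (nat_lit 573471) (nat_lit 11) (.e (nat_lit 16471) (nat_lit 14) .nil))))) .nil)) 
(.lf (nat_lit 76390) (.g (nat_lit 3159) (.e (nat_lit 1796) (nat_lit 119) (.e (nat_lit 516166) (nat_lit 12) (.e (nat_lit 450588) (nat_lit 10) (.e (nat_lit 573469) (nat_lit 11) .nil)))) .nil)))) (.nd (nat_lit 5) (.nd (nat_lit 6) 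
(.lf (nat_lit 76310) (.g (nat_lit 1506) (.e (nat_lit 1796) (nat_lit 119) (.e (nat_lit 516165) (nat_lit 12) (.e (nat_lit 450587) (nat_lit 10) (.e (nat_lit 573457) (nat_lit 9) .nil)))) .nil)) 
(.lf (nat_lit 76374) (.g (nat_lit 1743) (.e (nat_lit 1796) (nat_lit 119) (.e (nat_lit 516166) (nat_lit 12) (.e (nat_lit 450587) (nat_lit 10) (.e (nat_lit 573478) (nat_lit 12) .nil)))) .nil))) (.nd (nat_lit 6) 
(.lf (nat_lit 76342) (.g (nat_lit 2664) (.e (nat_lit 1796) (nat_lit 119) (.e (nat_lit 516166) (nat_lit 12) (.e (nat_lit 450563) (nat_lit 0) (.e (nat_lit 6420) (nat_lit 341) (.e (nat_lit 163878) (nat_lit 4) (.e (nat_lit 213035) (nat_lit 12) (.e (nat_lit 164057) (nat_lit 56) (.e (nat_lit 786450) (nat_lit 15) .nil)))))))) (.g (nat_lit 4) .nil .nil))) 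
(.lf (nat_lit 76406) (.g (nat_lit 4428) (.e (nat_lit 1796) (nat_lit 119) (.e (nat_lit 516166) (nat_lit 12) (.e (nat_lit 450588) (nat_lit 10) (.e (nat_lit 573474) (nat_lit 12) .nil)))) .nil))))) (.nd (nat_lit 4) (.nd (nat_lit 5) (.nd (nat_lit 6) 
(.lf (nat_lit 76302) (.g (nat_lit 1490) (.e (nat_lit 1796) (nat_lit 119) (.e (nat_lit 516165) (nat_lit 12) (.e (nat_lit 450586) (nat_lit 10) (.e (nat_lit 573475) (nat_lit 12) .nil)))) .nil)) 
(.lf (nat_lit 76366) (.g (nat_lit 3858) (.e (nat_lit 1796) (nat_lit 119) (.e (nat_lit 516166) (nat_lit 12) (.e (nat_lit 450587) (nat_lit 10) (.e (nat_lit 573477) (nat_lit 12) (.e (nat_lit 57574) (nat_lit 55) (.e (nat_lit 778465) (nat_lit 11) (.e (nat_lit 24593) (nat_lit 0) .nil))))))) (.g (nat_lit 5) .nil .nil)))) (.nd (nat_lit 6) 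
(.lf (nat_lit 76334) (.g (nat_lit 1756) (.e (nat_lit 1796) (nat_lit 119) (.e (nat_lit 516166) (nat_lit 12) (.e (nat_lit 450563) (nat_lit 0) (.e (nat_lit 4168) (nat_lit 251) (.e (nat_lit 991) (nat_lit 81) .nil))))) .nil)) 
(.lf (nat_lit 76398) (.g (nat_lit 3554) (.e (nat_lit 1796) (nat_lit 119) (.e (nat_lit 516166) (nat_lit 12) (.e (nat_lit 450588) (nat_lit 10) (.e (nat_lit 573471) (nat_lit 11) (.e (nat_lit 16471) (nat_lit 14) (.e (nat_lit 491530) (nat_lit 0) .nil)))))) (.g (nat_lit 5) .nil .nil))))) (.nd (nat_lit 5) (.nd (nat_lit 6) 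
(.lf (nat_lit 76318) (.g (nat_lit 2544) (.e (nat_lit 1796) (nat_lit 119) (.e (nat_lit 516165) (nat_lit 12) (.e (nat_lit 450588) (nat_lit 10) (.e (nat_lit 573457) (nat_lit 9) .nil)))) .nil)) 
(.lf (nat_lit 76382) (.g (nat_lit 3048) (.e (nat_lit 1796) (nat_lit 119) (.e (nat_lit 516166) (nat_lit 12) (.e (nat_lit 450588) (nat_lit 10) (.e (nat_lit 573451) (nat_lit 9) .nil)))) .nil))) (.nd (nat_lit 6) 
(.lf (nat_lit 76350) (.g (nat_lit 936) (.e (nat_lit 1796) (nat_lit 119) (.e (nat_lit 516166) (nat_lit 12) (.e (nat_lit 450583) (nat_lit 7) (.e (nat_lit 548913) (nat_lit 18) .nil)))) .nil)) 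
(.lf (nat_lit 76414) (.g (nat_lit 3296) (.e (nat_lit 1796) (nat_lit 119) (.e (nat_lit 516166) (nat_lit 12) (.e (nat_lit 450588) (nat_lit 10) (.e (nat_lit 573475) (nat_lit 12) (.e (nat_lit 65280) (nat_lit 57) (.e (nat_lit 794634) (nat_lit 11) (.e (nat_lit 335959) (nat_lit 0) .nil))))))) (.g (nat_lit 4) .nil .nil))))))))) 
(.nd (nat_lit 1) (.nd (nat_lit 2) (.nd (nat_lit 3) (.nd (nat_lit 4) (.nd (nat_lit 5) 
(.nd (nat_lit 6) 
(.lf (nat_lit 76289) (.g (nat_lit 2130) (.e (nat_lit 1796) (nat_lit 119) (.e (nat_lit 516165) (nat_lit 12) (.e (nat_lit 450586) (nat_lit 10) (.e (nat_lit 573450) (nat_lit 9) (.e (nat_lit 442) (nat_lit 33) (.e (nat_lit 434178) (nat_lit 0) (.e (nat_lit 1074) (nat_lit 81) .nil))))))) (.g (nat_lit 4) .nil .nil))) 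
(.lf (nat_lit 76353) (.g (nat_lit 2727) (.e (nat_lit 1796) (nat_lit 119) (.e (nat_lit 516166) (nat_lit 12) (.e (nat_lit 450587) (nat_lit 10) (.e (nat_lit 573448) (nat_lit 9) .nil)))) .nil))) (.nd (nat_lit 6) 
(.lf (nat_lit 76321) (.g (nat_lit 2149) (.e (nat_lit 1796) (nat_lit 119) (.e (nat_lit 516165) (nat_lit 12) (.e (nat_lit 450588) (nat_lit 10) (.e (nat_lit 573470) (nat_lit 11) .nil)))) .nil)) 
(.lf (nat_lit 76385) (.g (nat_lit 2739) (.e (nat_lit 1796) (nat_lit 119) (.e (nat_lit 516166) (nat_lit 12) (.e (nat_lit 450588) (nat_lit 10) (.e (nat_lit 573452) (nat_lit 9) (.e (nat_lit 7936) (nat_lit 33) .nil))))) .nil)))) (.nd (nat_lit 5) (.nd (nat_lit 6) 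
(.lf (nat_lit 76305) (.g (nat_lit 2554) (.e (nat_lit 1796) (nat_lit 119) (.e (nat_lit 516165) (nat_lit 12) (.e (nat_lit 450586) (nat_lit 10) (.e (nat_lit 573477) (nat_lit 12) (.e (nat_lit 57574) (nat_lit 55) (.e (nat_lit 778466) (nat_lit 11) (.e (nat_lit 24593) (nat_lit 0) .nil))))))) (.g (nat_lit 5) .nil .nil))) 
(.lf (nat_lit 76369) (.g (nat_lit 4114) (.e (nat_lit 1796) (nat_lit 119) (.e (nat_lit 516166) (nat_lit 12) (.e (nat_lit 450587) (nat_lit 10) (.e (nat_lit 573477) (nat_lit 12) (.e (nat_lit 57575) (nat_lit 55) (.e (nat_lit 778465) (nat_lit 11) (.e (nat_lit 24593) (nat_lit 0) .nil))))))) (.g (nat_lit 5) .nil .nil)))) (.nd (nat_lit 6) 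
(.lf (nat_lit 76337) (.g (nat_lit 2134) (.e (nat_lit 1796) (nat_lit 119) (.e (nat_lit 516166) (nat_lit 12) (.e (nat_lit 450563) (nat_lit 0) (.e (nat_lit 6416) (nat_lit 341) (.e (nat_lit 163884) (nat_lit 5) (.e (nat_lit 221204) (nat_lit 20) (.e (nat_lit 3747) (nat_lit 228) (.e (nat_lit 786450) (nat_lit 15) .nil)))))))) (.g (nat_lit 4) .nil .nil))) 
(.lf (nat_lit 76401) (.g (nat_lit 2306) (.e (nat_lit 1796) (nat_lit 119) (.e (nat_lit 516166) (nat_lit 12) (.e (nat_lit 450588) (nat_lit 10) (.e (nat_lit 573473) (nat_lit 12) .nil)))) .nil))))) (.nd (nat_lit 4) (.nd (nat_lit 5) (.nd (nat_lit 6) 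
(.lf (nat_lit 76297) (.g (nat_lit 1724) (.e (nat_lit 1796) (nat_lit 119) (.e (nat_lit 516165) (nat_lit 12) (.e (nat_lit 450586) (nat_lit 10) (.e (nat_lit 573457) (nat_lit 9) (.e (nat_lit 7936) (nat_lit 33) .nil))))) .nil)) 
(.lf (nat_lit 76361) (.g (nat_lit 1723) (.e (nat_lit 1796) (nat_lit 119) (.e (nat_lit 516166) (nat_lit 12) (.e (nat_lit 450587) (nat_lit 10) (.e (nat_lit 573457) (nat_lit 9) (.e (nat_lit 7936) (nat_lit 33) .nil))))) .nil))) (.nd (nat_lit 6) 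
(.lf (nat_lit 76329) (.g (nat_lit 2290) (.e (nat_lit 1796) (nat_lit 119) (.e (nat_lit 516165) (nat_lit 12) (.e (nat_lit 450588) (nat_lit 10) (.e (nat_lit 573475) (nat_lit 12) .nil)))) .nil)) 
(.lf (nat_lit 76393) (.g (nat_lit 2821) (.e (nat_lit 1796) (nat_lit 119) (.e (nat_lit 516166) (nat_lit 12) (.e (nat_lit 450588) (nat_lit 10) (.e (nat_lit 573471) (nat_lit 11) (.e (nat_lit 16389) (nat_lit 0) .nil))))) .nil)))) (.nd (nat_lit 5) (.nd (nat_lit 6) 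
(.lf (nat_lit 76313) (.g (nat_lit 2312) (.e (nat_lit 1796) (nat_lit 119) (.e (nat_lit 516165) (nat_lit 12) (.e (nat_lit 450588) (nat_lit 10) (.e (nat_lit 573450) (nat_lit 9) .nil)))) .nil)) 
(.lf (nat_lit 76377) (.g (nat_lit 562) (.e (nat_lit 1796) (nat_lit 119) (.e (nat_lit 516166) (nat_lit 12) (.e (nat_lit 450588) (nat_lit 10) .nil))) .nil))) (.nd (nat_lit 6) 
(.lf (nat_lit 76345) (.g (nat_lit 2510) (.e (nat_lit 1796) (nat_lit 119) (.e (nat_lit 516166) (nat_lit 12) (.e (nat_lit 450563) (nat_lit 0) (.e (nat_lit 6420) (nat_lit 341) (.e (nat_lit 163885) (nat_lit 5) (.e (nat_lit 221204) (nat_lit 20) (.e (nat_lit 3748) (nat_lit 228) (.e (nat_lit 786450) (nat_lit 15) .nil)))))))) (.g (nat_lit 4) .nil .nil))) 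
(.lf (nat_lit 76409) (.g (nat_lit 3202) (.e (nat_lit 1796) (nat_lit 119) (.e (nat_lit 516166) (nat_lit 12) (.e (nat_lit 450588) (nat_lit 10) (.e (nat_lit 573475) (nat_lit 12) (.e (nat_lit 57347) (nat_lit 0) (.e (nat_lit 7265) (nat_lit 384) (.e (nat_lit 57406) (nat_lit 12) (.e (nat_lit 335880) (nat_lit 0) .nil)))))))) (.g (nat_lit 4) .nil .nil))))))) 
(.nd (nat_lit 3) (.nd (nat_lit 4) (.nd (nat_lit 5) (.nd (nat_lit 6) 
(.lf (nat_lit 76293) (.g (nat_lit 1845) (.e (nat_lit 1796) (nat_lit 119) (.e (nat_lit 516165) (nat_lit 12) (.e (nat_lit 450586) (nat_lit 10) (.e (nat_lit 573452) (nat_lit 9) (.e (nat_lit 7936) (nat_lit 33) .nil))))) .nil)) 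
(.lf (nat_lit 76357) (.g (nat_lit 2347) (.e (nat_lit 1796) (nat_lit 119) (.e (nat_lit 516166) (nat_lit 12) (.e (nat_lit 450587) (nat_lit 10) (.e (nat_lit 573454) (nat_lit 9) (.e (nat_lit 7936) (nat_lit 33) .nil))))) .nil))) (.nd (nat_lit 6) 
(.lf (nat_lit 76325) (.g (nat_lit 3683) (.e (nat_lit 1796) (nat_lit 119) (.e (nat_lit 516165) (nat_lit 12) (.e (nat_lit 450588) (nat_lit 10) (.e (nat_lit 573471) (nat_lit 11) (.e (nat_lit 16396) (nat_lit 0) .nil))))) .nil)) 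
(.lf (nat_lit 76389) (.g (nat_lit 3643) (.e (nat_lit 1796) (nat_lit 119) (.e (nat_lit 516166) (nat_lit 12) (.e (nat_lit 450588) (nat_lit 10) (.e (nat_lit 581376) (nat_lit 9) .nil)))) .nil)))) (.nd (nat_lit 5) (.nd (nat_lit 6) 
(.lf (nat_lit 76309) (.g (nat_lit 1456) (.e (nat_lit 1796) (nat_lit 119) (.e (nat_lit 516165) (nat_lit 12) (.e (nat_lit 450587) (nat_lit 10) (.e (nat_lit 573456) (nat_lit 9) .nil)))) .nil)) 
(.lf (nat_lit 76373) (.g (nat_lit 2937) (.e (nat_lit 1796) (nat_lit 119) (.e (nat_lit 516166) (nat_lit 12) (.e (nat_lit 450587) (nat_lit 10) (.e (nat_lit 573477) (nat_lit 12) (.e (nat_lit 65280) (nat_lit 57) (.e (nat_lit 794635) (nat_lit 11) (.e (nat_lit 335959) (nat_lit 0) .nil))))))) (.g (nat_lit 4) .nil .nil)))) (.nd (nat_lit 6) 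
(.lf (nat_lit 76341) (.g (nat_lit 3116) (.e (nat_lit 1796) (nat_lit 119) (.e (nat_lit 516166) (nat_lit 12) (.e (nat_lit 450563) (nat_lit 0) (.e (nat_lit 6420) (nat_lit 341) (.e (nat_lit 163843) (nat_lit 0) (.e (nat_lit 3605) (nat_lit 225) (.e (nat_lit 761905) (nat_lit 16) (.e (nat_lit 179968) (nat_lit 15) .nil)))))))) (.g (nat_lit 4) .nil .nil))) 
(.lf (nat_lit 76405) (.g (nat_lit 3628) (.e (nat_lit 1796) (nat_lit 119) (.e (nat_lit 516166) (nat_lit 12) (.e (nat_lit 450588) (nat_lit 10) (.e (nat_lit 573473) (nat_lit 12) (.e (nat_lit 65280) (nat_lit 57) (.e (nat_lit 794635) (nat_lit 11) (.e (nat_lit 335959) (nat_lit 0) .nil))))))) (.g (nat_lit 4) .nil .nil)))))) (.nd (nat_lit 4) (.nd (nat_lit 5) (.nd (nat_lit 6) 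
(.lf (nat_lit 76301) (.g (nat_lit 1372) (.e (nat_lit 1796) (nat_lit 119) (.e (nat_lit 516165) (nat_lit 12) (.e (nat_lit 450586) (nat_lit 10) (.e (nat_lit 573473) (nat_lit 12) .nil)))) .nil)) 
(.lf (nat_lit 76365) (.g (nat_lit 1787) (.e (nat_lit 1796) (nat_lit 119) (.e (nat_lit 516166) (nat_lit 12) (.e (nat_lit 450587) (nat_lit 10) (.e (nat_lit 573477) (nat_lit 12) .nil)))) .nil))) (.nd (nat_lit 6) 
(.lf (nat_lit 76333) (.g (nat_lit 800) (.e (nat_lit 1796) (nat_lit 119) (.e (nat_lit 516166) (nat_lit 12) (.e (nat_lit 450563) (nat_lit 0) .nil))) .nil)) 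
(.lf (nat_lit 76397) (.g (nat_lit 2556) (.e (nat_lit 1796) (nat_lit 119) (.e (nat_lit 516166) (nat_lit 12) (.e (nat_lit 450588) (nat_lit 10) (.e (nat_lit 573471) (nat_lit 11) (.e (nat_lit 16469) (nat_lit 14) .nil))))) .nil)))) (.nd (nat_lit 5) (.nd (nat_lit 6) 
(.lf (nat_lit 76317) (.g (nat_lit 3161) (.e (nat_lit 1796) (nat_lit 119) (.e (nat_lit 516165) (nat_lit 12) (.e (nat_lit 450588) (nat_lit 10) (.e (nat_lit 573452) (nat_lit 9) (.e (nat_lit 7936) (nat_lit 33) .nil))))) .nil)) 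
(.lf (nat_lit 76381) (.g (nat_lit 3408) (.e (nat_lit 1796) (nat_lit 119) (.e (nat_lit 516166) (nat_lit 12) (.e (nat_lit 450588) (nat_lit 10) (.e (nat_lit 573449) (nat_lit 9) (.e (nat_lit 7936) (nat_lit 33) .nil))))) .nil))) (.nd (nat_lit 6) 
(.lf (nat_lit 76349) (.g (nat_lit 2117) (.e (nat_lit 1796) (nat_lit 119) (.e (nat_lit 516166) (nat_lit 12) (.e (nat_lit 450580) (nat_lit 5) (.e (nat_lit 532523) (nat_lit 7) (.e (nat_lit 319504) (nat_lit 10) .nil))))) .nil)) 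
(.lf (nat_lit 76413) (.g (nat_lit 4945) (.e (nat_lit 1796) (nat_lit 119) (.e (nat_lit 516166) (nat_lit 12) (.e (nat_lit 450588) (nat_lit 10) (.e (nat_lit 573475) (nat_lit 12) (.e (nat_lit 57574) (nat_lit 55) (.e (nat_lit 778466) (nat_lit 11) (.e (nat_lit 24593) (nat_lit 0) .nil))))))) (.g (nat_lit 6) .nil .nil)))))))) 
(.nd (nat_lit 2) (.nd (nat_lit 3) (.nd (nat_lit 4) (.nd (nat_lit 5) (.nd (nat_lit 6) 
(.lf (nat_lit 76291) (.g (nat_lit 2994) (.e (nat_lit 1796) (nat_lit 119) (.e (nat_lit 516165) (nat_lit 12) (.e (nat_lit 450586) (nat_lit 10) (.e (nat_lit 573451) (nat_lit 9) (.e (nat_lit 7936) (nat_lit 33) .nil))))) .nil)) 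
(.lf (nat_lit 76355) (.g (nat_lit 2389) (.e (nat_lit 1796) (nat_lit 119) (.e (nat_lit 516166) (nat_lit 12) (.e (nat_lit 450587) (nat_lit 10) (.e (nat_lit 573454) (nat_lit 9) (.e (nat_lit 441) (nat_lit 33) .nil))))) .nil))) (.nd (nat_lit 6) 
(.lf (nat_lit 76323) (.g (nat_lit 4026) (.e (nat_lit 1796) (nat_lit 119) (.e (nat_lit 516165) (nat_lit 12) (.e (nat_lit 450588) (nat_lit 10) (.e (nat_lit 573470) (nat_lit 11) (.e (nat_lit 16473) (nat_lit 14) (.e (nat_lit 491530) (nat_lit 0) .nil)))))) (.g (nat_lit 5) .nil .nil))) 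
(.lf (nat_lit 76387) (.g (nat_lit 4089) (.e (nat_lit 1796) (nat_lit 119) (.e (nat_lit 516166) (nat_lit 12) (.e (nat_lit 450588) (nat_lit 10) (.e (nat_lit 573455) (nat_lit 9) .nil)))) .nil)))) (.nd (nat_lit 5) (.nd (nat_lit 6) 
(.lf (nat_lit 76307) (.g (nat_lit 2344) (.e (nat_lit 1796) (nat_lit 119) (.e (nat_lit 516165) (nat_lit 12) (.e (nat_lit 450586) (nat_lit 10) (.e (nat_lit 573478) (nat_lit 12) (.e (nat_lit 57574) (nat_lit 55) (.e (nat_lit 778466) (nat_lit 11) (.e (nat_lit 24593) (nat_lit 0) .nil))))))) (.g (nat_lit 5) .nil .nil))) 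
(.lf (nat_lit 76371) (.g (nat_lit 2636) (.e (nat_lit 1796) (nat_lit 119) (.e (nat_lit 516166) (nat_lit 12) (.e (nat_lit 450587) (nat_lit 10) (.e (nat_lit 573477) (nat_lit 12) (.e (nat_lit 65280) (nat_lit 57) (.e (nat_lit 794635) (nat_lit 11) (.e (nat_lit 335957) (nat_lit 0) .nil))))))) (.g (nat_lit 4) .nil .nil)))) (.nd (nat_lit 6) 
(.lf (nat_lit 76339) (.g (nat_lit 2429) (.e (nat_lit 1796) (nat_lit 119) (.e (nat_lit 516166) (nat_lit 12) (.e (nat_lit 450563) (nat_lit 0) (.e (nat_lit 6420) (nat_lit 341) (.e (nat_lit 163843) (nat_lit 0) .nil))))) .nil)) 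
(.lf (nat_lit 76403) (.g (nat_lit 3421) (.e (nat_lit 1796) (nat_lit 119) (.e (nat_lit 516166) (nat_lit 12) (.e (nat_lit 450588) (nat_lit 10) (.e (nat_lit 573473) (nat_lit 12) (.e (nat_lit 65280) (nat_lit 57) (.e (nat_lit 794635) (nat_lit 11) (.e (nat_lit 335957) (nat_lit 0) .nil))))))) (.g (nat_lit 4) .nil .nil)))))) (.nd (nat_lit 4) (.nd (nat_lit 5) (.nd (nat_lit 6) 
(.lf (nat_lit 76299) (.g (nat_lit 3352) (.e (nat_lit 1796) (nat_lit 119) (.e (nat_lit 516165) (nat_lit 12) (.e (nat_lit 450586) (nat_lit 10) (.e (nat_lit 573471) (nat_lit 11) (.e (nat_lit 16471) (nat_lit 14) (.e (nat_lit 491530) (nat_lit 0) .nil)))))) (.g (nat_lit 5) .nil .nil))) 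
(.lf (nat_lit 76363) (.g (nat_lit 3163) (.e (nat_lit 1796) (nat_lit 119) (.e (nat_lit 516166) (nat_lit 12) (.e (nat_lit 450587) (nat_lit 10) (.e (nat_lit 573469) (nat_lit 11) (.e (nat_lit 16472) (nat_lit 14) (.e (nat_lit 491530) (nat_lit 0) .nil)))))) (.g (nat_lit 4) .nil .nil)))) (.nd (nat_lit 6) 
(.lf (nat_lit 76331) (.g (nat_lit 1828) (.e (nat_lit 1796) (nat_lit 119) (.e (nat_lit 516166) (nat_lit 12) (.e (nat_lit 450562) (nat_lit 0) (.e (nat_lit 4290) (nat_lit 254) .nil)))) .nil)) 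
(.lf (nat_lit 76395) (.g (nat_lit 2759) (.e (nat_lit 1796) (nat_lit 119) (.e (nat_lit 516166) (nat_lit 12) (.e (nat_lit 450588) (nat_lit 10) (.e (nat_lit 573471) (nat_lit 11) (.e (nat_lit 16396) (nat_lit 0) .nil))))) .nil)))) (.nd (nat_lit 5) (.nd (nat_lit 6) 
(.lf (nat_lit 76315) (.g (nat_lit 2313) (.e (nat_lit 1796) (nat_lit 119) (.e (nat_lit 516165) (nat_lit 12) (.e (nat_lit 450588) (nat_lit 10) (.e (nat_lit 573452) (nat_lit 9) .nil)))) .nil)) 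
(.lf (nat_lit 76379) (.g (nat_lit 2806) (.e (nat_lit 1796) (nat_lit 119) (.e (nat_lit 516166) (nat_lit 12) (.e (nat_lit 450588) (nat_lit 10) (.e (nat_lit 573449) (nat_lit 9) .nil)))) .nil))) (.nd (nat_lit 6) 
(.lf (nat_lit 76347) (.g (nat_lit 1123) (.e (nat_lit 1796) (nat_lit 119) (.e (nat_lit 516166) (nat_lit 12) (.e (nat_lit 450576) (nat_lit 2) (.e (nat_lit 507930) (nat_lit 10) .nil)))) .nil)) 
(.lf (nat_lit 76411) (.g (nat_lit 3447) (.e (nat_lit 1796) (nat_lit 119) (.e (nat_lit 516166) (nat_lit 12) (.e (nat_lit 450588) (nat_lit 10) (.e (nat_lit 573475) (nat_lit 12) (.e (nat_lit 57574) (nat_lit 55) (.e (nat_lit 778464) (nat_lit 11) (.e (nat_lit 24593) (nat_lit 0) .nil))))))) (.g (nat_lit 4) .nil .nil))))))) (.nd (nat_lit 3) (.nd (nat_lit 4) (.nd (nat_lit 5) (.nd (nat_lit 6) 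
(.lf (nat_lit 76295) (.g (nat_lit 1911) (.e (nat_lit 1796) (nat_lit 119) (.e (nat_lit 516165) (nat_lit 12) (.e (nat_lit 450586) (nat_lit 10) (.e (nat_lit 573456) (nat_lit 9) (.e (nat_lit 7936) (nat_lit 33) .nil))))) .nil)) 
(.lf (nat_lit 76359) (.g (nat_lit 1493) (.e (nat_lit 1796) (nat_lit 119) (.e (nat_lit 516166) (nat_lit 12) (.e (nat_lit 450587) (nat_lit 10) (.e (nat_lit 573454) (nat_lit 9) (.e (nat_lit 1315) (nat_lit 98) .nil))))) .nil))) (.nd (nat_lit 6) 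
(.lf (nat_lit 76327) (.g (nat_lit 3386) (.e (nat_lit 1796) (nat_lit 119) (.e (nat_lit 516165) (nat_lit 12) (.e (nat_lit 450588) (nat_lit 10) (.e (nat_lit 573471) (nat_lit 11) (.e (nat_lit 16472) (nat_lit 14) (.e (nat_lit 491530) (nat_lit 0) .nil)))))) (.g (nat_lit 4) .nil .nil))) 
(.lf (nat_lit 76391) (.g (nat_lit 1980) (.e (nat_lit 1796) (nat_lit 119) (.e (nat_lit 516166) (nat_lit 12) (.e (nat_lit 450588) (nat_lit 10) (.e (nat_lit 573470) (nat_lit 11) .nil)))) .nil)))) (.nd (nat_lit 5) (.nd (nat_lit 6) 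
(.lf (nat_lit 76311) (.g (nat_lit 1550) (.e (nat_lit 1796) (nat_lit 119) (.e (nat_lit 516165) (nat_lit 12) (.e (nat_lit 450587) (nat_lit 10) (.e (nat_lit 573477) (nat_lit 12) .nil)))) .nil)) 
(.lf (nat_lit 76375) (.g (nat_lit 3660) (.e (nat_lit 1796) (nat_lit 119) (.e (nat_lit 516166) (nat_lit 12) (.e (nat_lit 450587) (nat_lit 10) (.e (nat_lit 573478) (nat_lit 12) (.e (nat_lit 57574) (nat_lit 55) (.e (nat_lit 778466) (nat_lit 11) (.e (nat_lit 24593) (nat_lit 0) .nil))))))) (.g (nat_lit 6) .nil .nil)))) (.nd (nat_lit 6) 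
(.lf (nat_lit 76343) (.g (nat_lit 3140) (.e (nat_lit 1796) (nat_lit 119) (.e (nat_lit 516166) (nat_lit 12) (.e (nat_lit 450563) (nat_lit 0) (.e (nat_lit 6420) (nat_lit 341) (.e (nat_lit 163884) (nat_lit 5) (.e (nat_lit 221204) (nat_lit 20) (.e (nat_lit 3747) (nat_lit 228) (.e (nat_lit 786450) (nat_lit 15) .nil)))))))) (.g (nat_lit 5) .nil .nil))) 
(.lf (nat_lit 76407) (.g (nat_lit 2212) (.e (nat_lit 1796) (nat_lit 119) (.e (nat_lit 516166) (nat_lit 12) (.e (nat_lit 450588) (nat_lit 10) (.e (nat_lit 573475) (nat_lit 12) .nil)))) .nil))))) (.nd (nat_lit 4) (.nd (nat_lit 5) (.nd (nat_lit 6) 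
(.lf (nat_lit 76303) (.g (nat_lit 2897) (.e (nat_lit 1796) (nat_lit 119) (.e (nat_lit 516165) (nat_lit 12) (.e (nat_lit 450586) (nat_lit 10) (.e (nat_lit 573475) (nat_lit 12) (.e (nat_lit 57574) (nat_lit 55) (.e (nat_lit 778466) (nat_lit 11) (.e (nat_lit 24593) (nat_lit 0) .nil))))))) (.g (nat_lit 5) .nil .nil))) 
(.lf (nat_lit 76367) (.g (nat_lit 4028) (.e (nat_lit 1796) (nat_lit 119) (.e (nat_lit 516166) (nat_lit 12) (.e (nat_lit 450587) (nat_lit 10) (.e (nat_lit 573477) (nat_lit 12) (.e (nat_lit 57574) (nat_lit 55) (.e (nat_lit 778466) (nat_lit 11) (.e (nat_lit 24593) (nat_lit 0) .nil))))))) (.g (nat_lit 6) .nil .nil)))) (.nd (nat_lit 6) 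
(.lf (nat_lit 76335) (.g (nat_lit 1595) (.e (nat_lit 1796) (nat_lit 119) (.e (nat_lit 516166) (nat_lit 12) (.e (nat_lit 450563) (nat_lit 0) (.e (nat_lit 4175) (nat_lit 251) .nil)))) .nil)) 
(.lf (nat_lit 76399) (.g (nat_lit 3693) (.e (nat_lit 1796) (nat_lit 119) (.e (nat_lit 516166) (nat_lit 12) (.e (nat_lit 450588) (nat_lit 10) (.e (nat_lit 573471) (nat_lit 11) (.e (nat_lit 16472) (nat_lit 14) (.e (nat_lit 491530) (nat_lit 0) .nil)))))) (.g (nat_lit 0) .nil .nil))))) (.nd (nat_lit 5) (.nd (nat_lit 6) 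
(.lf (nat_lit 76319) (.g (nat_lit 3029) (.e (nat_lit 1796) (nat_lit 119) (.e (nat_lit 516165) (nat_lit 12) (.e (nat_lit 450588) (nat_lit 10) (.e (nat_lit 573469) (nat_lit 11) .nil)))) .nil)) 
(.lf (nat_lit 76383) (.g (nat_lit 3887) (.e (nat_lit 1796) (nat_lit 119) (.e (nat_lit 516166) (nat_lit 12) (.e (nat_lit 450588) (nat_lit 10) (.e (nat_lit 573451) (nat_lit 9) (.e (nat_lit 7936) (nat_lit 33) .nil))))) .nil))) (.nd (nat_lit 6) 
(.lf (nat_lit 76351) (.g (nat_lit 829) (.e (nat_lit 1796) (nat_lit 119) (.e (nat_lit 516166) (nat_lit 12) (.e (nat_lit 450585) (nat_lit 10) .nil))) .nil)) 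
(.lf (nat_lit 76415) (.g (nat_lit 4107) (.e (nat_lit 1796) (nat_lit 119) (.e (nat_lit 516166) (nat_lit 12) (.e (nat_lit 450588) (nat_lit 10) (.e (nat_lit 573476) (nat_lit 12) .nil)))) .nil)))))))))

noncomputable def tv1033 : DT := (.nd (nat_lit 0) (.nd (nat_lit 1) (.nd (nat_lit 2) (.nd (nat_lit 3) (.nd (nat_lit 4) (.nd (nat_lit 5) (.nd (nat_lit 6) 
(.lf (nat_lit 76416) (.g (nat_lit 738) (.e (nat_lit 1796) (nat_lit 119) (.e (nat_lit 516167) (nat_lit 12) (.e (nat_lit 450583) (nat_lit 7) (.e (nat_lit 548914) (nat_lit 19) .nil)))) .nil)) 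
(.lf (nat_lit 76480) (.g (nat_lit 1987) (.e (nat_lit 1796) (nat_lit 119) (.e (nat_lit 516185) (nat_lit 16) (.e (nat_lit 491546) (nat_lit 9) (.e (nat_lit 336013) (nat_lit 2) (.e (nat_lit 90165) (nat_lit 12) .nil))))) .nil))) (.nd (nat_lit 6) 
(.lf (nat_lit 76448) (.g (nat_lit 2897) (.e (nat_lit 1796) (nat_lit 119) (.e (nat_lit 516175) (nat_lit 14) (.e (nat_lit 466977) (nat_lit 22) (.e (nat_lit 196681) (nat_lit 17) (.e (nat_lit 131089) (nat_lit 1) (.e (nat_lit 57930) (nat_lit 282) (.e (nat_lit 164075) (nat_lit 61) .nil))))))) (.g (nat_lit 0) .nil .nil))) 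
(.lf (nat_lit 76512) (.g (nat_lit 3747) (.e (nat_lit 1796) (nat_lit 119) (.e (nat_lit 516185) (nat_lit 16) (.e (nat_lit 491558) (nat_lit 10) (.e (nat_lit 344117) (nat_lit 21) (.e (nat_lit 516185) (nat_lit 16) (.e (nat_lit 491556) (nat_lit 9) (.e (nat_lit 335872) (nat_lit 0) .nil))))))) (.g (nat_lit 5) .nil .nil))))) (.nd (nat_lit 5) (.nd (nat_lit 6) 
(.lf (nat_lit 76432) (.g (nat_lit 1861) (.e (nat_lit 1796) (nat_lit 119) (.e (nat_lit 516175) (nat_lit 14) (.e (nat_lit 466947) (nat_lit 0) (.e (nat_lit 1856) (nat_lit 124) (.e (nat_lit 557105) (nat_lit 14) (.e (nat_lit 180276) (nat_lit 32) (.e (nat_lit 1074) (nat_lit 81) .nil))))))) (.g (nat_lit 5) .nil .nil))) 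
(.lf (nat_lit 76496) (.g (nat_lit 1738) (.e (nat_lit 1796) (nat_lit 119) (.e (nat_lit 516185) (nat_lit 16) (.e (nat_lit 491556) (nat_lit 9) (.e (nat_lit 336017) (nat_lit 3) .nil)))) .nil))) (.nd (nat_lit 6) 
(.lf (nat_lit 76464) (.g (nat_lit 647) (.e (nat_lit 1796) (nat_lit 119) (.e (nat_lit 516179) (nat_lit 15) (.e (nat_lit 475177) (nat_lit 24) .nil))) .nil)) 
(.lf (nat_lit 76528) (.g (nat_lit 2037) (.e (nat_lit 1796) (nat_lit 119) (.e (nat_lit 516185) (nat_lit 16) (.e (nat_lit 491560) (nat_lit 10) (.e (nat_lit 344115) (nat_lit 20) (.e (nat_lit 507907) (nat_lit 0) .nil))))) .nil))))) (.nd (nat_lit 4) (.nd (nat_lit 5) (.nd (nat_lit 6) 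
(.lf (nat_lit 76424) (.g (nat_lit 2060) (.e (nat_lit 1796) (nat_lit 119) (.e (nat_lit 516174) (nat_lit 14) (.e (nat_lit 474880) (nat_lit 0) (.e (nat_lit 1848) (nat_lit 124) (.e (nat_lit 557104) (nat_lit 14) (.e (nat_lit 180276) (nat_lit 32) (.e (nat_lit 1074) (nat_lit 81) .nil))))))) (.g (nat_lit 5) .nil .nil))) 
(.lf (nat_lit 76488) (.g (nat_lit 2031) (.e (nat_lit 1796) (nat_lit 119) (.e (nat_lit 516185) (nat_lit 16) (.e (nat_lit 491546) (nat_lit 9) (.e (nat_lit 336028) (nat_lit 3) (.e (nat_lit 98325) (nat_lit 17) (.e (nat_lit 7550) (nat_lit 402) (.e (nat_lit 1515) (nat_lit 108) (.e (nat_lit 335882) (nat_lit 0) .nil)))))))) (.g (nat_lit 4) .nil .nil)))) (.nd (nat_lit 6) 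
(.lf (nat_lit 76456) (.g (nat_lit 1871) (.e (nat_lit 1796) (nat_lit 119) (.e (nat_lit 516176) (nat_lit 14) (.e (nat_lit 474880) (nat_lit 0) (.e (nat_lit 1848) (nat_lit 124) (.e (nat_lit 557104) (nat_lit 14) (.e (nat_lit 180276) (nat_lit 32) (.e (nat_lit 1074) (nat_lit 81) .nil))))))) (.g (nat_lit 5) .nil .nil))) 
(.lf (nat_lit 76520) (.g (nat_lit 2168) (.e (nat_lit 1796) (nat_lit 119) (.e (nat_lit 516185) (nat_lit 16) (.e (nat_lit 491560) (nat_lit 10) (.e (nat_lit 344105) (nat_lit 19) .nil)))) .nil)))) (.nd (nat_lit 5) (.nd (nat_lit 6) 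
(.lf (nat_lit 76440) (.g (nat_lit 1442) (.e (nat_lit 1796) (nat_lit 119) (.e (nat_lit 516175) (nat_lit 14) (.e (nat_lit 466976) (nat_lit 22) (.e (nat_lit 196628) (nat_lit 9) (.e (nat_lit 968) (nat_lit 81) (.e (nat_lit 6713) (nat_lit 360) (.e (nat_lit 164237) (nat_lit 187) (.e (nat_lit 1077) (nat_lit 81) .nil)))))))) (.g (nat_lit 5) .nil .nil))) 
(.lf (nat_lit 76504) (.g (nat_lit 2592) (.e (nat_lit 1796) (nat_lit 119) (.e (nat_lit 516185) (nat_lit 16) (.e (nat_lit 491558) (nat_lit 10) (.e (nat_lit 344117) (nat_lit 21) (.e (nat_lit 516106) (nat_lit 0) .nil))))) .nil))) (.nd (nat_lit 6) 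
(.lf (nat_lit 76472) (.g (nat_lit 1463) (.e (nat_lit 1796) (nat_lit 119) (.e (nat_lit 516179) (nat_lit 15) (.e (nat_lit 475177) (nat_lit 24) (.e (nat_lit 516180) (nat_lit 15) .nil)))) .nil)) 
(.lf (nat_lit 76536) (.g (nat_lit 2607) (.e (nat_lit 1796) (nat_lit 119) (.e (nat_lit 516185) (nat_lit 16) (.e (nat_lit 491560) (nat_lit 10) (.e (nat_lit 344118) (nat_lit 21) (.e (nat_lit 516100) (nat_lit 0) (.e (nat_lit 7562) (nat_lit 402) (.e (nat_lit 1512) (nat_lit 108) (.e (nat_lit 335872) (nat_lit 0) .nil)))))))) (.g (nat_lit 5) .nil .nil))))))) 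
(.nd (nat_lit 3) (.nd (nat_lit 4) (.nd (nat_lit 5) (.nd (nat_lit 6) 
(.lf (nat_lit 76420) (.g (nat_lit 1690) (.e (nat_lit 1796) (nat_lit 119) (.e (nat_lit 516174) (nat_lit 14) (.e (nat_lit 466945) (nat_lit 0) (.e (nat_lit 1853) (nat_lit 124) (.e (nat_lit 557103) (nat_lit 14) (.e (nat_lit 180276) (nat_lit 32) (.e (nat_lit 1077) (nat_lit 81) .nil))))))) (.g (nat_lit 4) .nil .nil))) 
(.lf (nat_lit 76484) (.g (nat_lit 2711) (.e (nat_lit 1796) (nat_lit 119) (.e (nat_lit 516185) (nat_lit 16) (.e (nat_lit 491546) (nat_lit 9) (.e (nat_lit 336013) (nat_lit 2) (.e (nat_lit 90165) (nat_lit 12) (.e (nat_lit 164237) (nat_lit 187) (.e (nat_lit 1515) (nat_lit 108) (.e (nat_lit 335882) (nat_lit 0) .nil)))))))) (.g (nat_lit 4) .nil .nil)))) (.nd (nat_lit 6) 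
(.lf (nat_lit 76452) (.g (nat_lit 2300) (.e (nat_lit 1796) (nat_lit 119) (.e (nat_lit 516175) (nat_lit 14) (.e (nat_lit 466980) (nat_lit 23) (.e (nat_lit 204846) (nat_lit 24) (.e (nat_lit 319533) (nat_lit 16) (.e (nat_lit 294656) (nat_lit 0) .nil)))))) (.g (nat_lit 5) .nil .nil))) 
(.lf (nat_lit 76516) (.g (nat_lit 2326) (.e (nat_lit 1796) (nat_lit 119) (.e (nat_lit 516185) (nat_lit 16) (.e (nat_lit 491558) (nat_lit 10) (.e (nat_lit 344129) (nat_lit 26) (.e (nat_lit 557087) (nat_lit 11) .nil))))) .nil)))) (.nd (nat_lit 5) (.nd (nat_lit 6) 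
(.lf (nat_lit 76436) (.g (nat_lit 1680) (.e (nat_lit 1796) (nat_lit 119) (.e (nat_lit 516175) (nat_lit 14) (.e (nat_lit 474880) (nat_lit 0) (.e (nat_lit 1860) (nat_lit 124) (.e (nat_lit 557105) (nat_lit 14) (.e (nat_lit 180275) (nat_lit 32) (.e (nat_lit 1074) (nat_lit 81) .nil))))))) (.g (nat_lit 5) .nil .nil))) 
(.lf (nat_lit 76500) (.g (nat_lit 2302) (.e (nat_lit 1796) (nat_lit 119) (.e (nat_lit 516185) (nat_lit 16) (.e (nat_lit 491558) (nat_lit 10) (.e (nat_lit 344115) (nat_lit 20) (.e (nat_lit 507907) (nat_lit 0) (.e (nat_lit 5401) (nat_lit 302) (.e (nat_lit 73472) (nat_lit 0) .nil))))))) (.g (nat_lit 4) .nil .nil)))) (.nd (nat_lit 6) 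
(.lf (nat_lit 76468) (.g (nat_lit 3297) (.e (nat_lit 1796) (nat_lit 119) (.e (nat_lit 516179) (nat_lit 15) (.e (nat_lit 475177) (nat_lit 24) (.e (nat_lit 516150) (nat_lit 9) (.e (nat_lit 426428) (nat_lit 17) (.e (nat_lit 90169) (nat_lit 13) (.e (nat_lit 172132) (nat_lit 15) .nil))))))) (.g (nat_lit 7) .nil .nil))) 
(.lf (nat_lit 76532) (.g (nat_lit 3123) (.e (nat_lit 1796) (nat_lit 119) (.e (nat_lit 516185) (nat_lit 16) (.e (nat_lit 491560) (nat_lit 10) (.e (nat_lit 344117) (nat_lit 21) (.e (nat_lit 516138) (nat_lit 7) .nil))))) .nil))))) (.nd (nat_lit 4) (.nd (nat_lit 5) (.nd (nat_lit 6) 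
(.lf (nat_lit 76428) (.g (nat_lit 1980) (.e (nat_lit 1796) (nat_lit 119) (.e (nat_lit 516175) (nat_lit 14) (.e (nat_lit 466945) (nat_lit 0) (.e (nat_lit 1853) (nat_lit 124) (.e (nat_lit 557103) (nat_lit 14) (.e (nat_lit 180276) (nat_lit 32) (.e (nat_lit 1077) (nat_lit 81) .nil))))))) (.g (nat_lit 5) .nil .nil))) 
(.lf (nat_lit 76492) (.g (nat_lit 742) (.e (nat_lit 1796) (nat_lit 119) (.e (nat_lit 516185) (nat_lit 16) (.e (nat_lit 491552) (nat_lit 9) .nil))) .nil))) (.nd (nat_lit 6) 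
(.lf (nat_lit 76460) (.g (nat_lit 1896) (.e (nat_lit 1796) (nat_lit 119) (.e (nat_lit 516176) (nat_lit 14) (.e (nat_lit 466977) (nat_lit 22) (.e (nat_lit 196677) (nat_lit 16) (.e (nat_lit 123080) (nat_lit 177) .nil))))) .nil)) 
(.lf (nat_lit 76524) (.g (nat_lit 1931) (.e (nat_lit 1796) (nat_lit 119) (.e (nat_lit 516185) (nat_lit 16) (.e (nat_lit 491560) (nat_lit 10) (.e (nat_lit 352000) (nat_lit 19) .nil)))) .nil)))) (.nd (nat_lit 5) (.nd (nat_lit 6) 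
(.lf (nat_lit 76444) (.g (nat_lit 2231) (.e (nat_lit 1796) (nat_lit 119) (.e (nat_lit 516175) (nat_lit 14) (.e (nat_lit 466977) (nat_lit 22) (.e (nat_lit 196681) (nat_lit 17) (.e (nat_lit 131086) (nat_lit 1) (.e (nat_lit 57931) (nat_lit 282) (.e (nat_lit 164075) (nat_lit 61) .nil))))))) (.g (nat_lit 4) .nil .nil))) 
(.lf (nat_lit 76508) (.g (nat_lit 3160) (.e (nat_lit 1796) (nat_lit 119) (.e (nat_lit 516185) (nat_lit 16) (.e (nat_lit 491558) (nat_lit 10) (.e (nat_lit 344117) (nat_lit 21) (.e (nat_lit 516138) (nat_lit 7) .nil))))) .nil))) (.nd (nat_lit 6) 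
(.lf (nat_lit 76476) (.g (nat_lit 2608) (.e (nat_lit 1796) (nat_lit 119) (.e (nat_lit 516179) (nat_lit 15) (.e (nat_lit 475179) (nat_lit 24) (.e (nat_lit 516146) (nat_lit 9) (.e (nat_lit 426436) (nat_lit 18) (.e (nat_lit 98358) (nat_lit 26) (.e (nat_lit 426392) (nat_lit 15) .nil))))))) (.g (nat_lit 4) .nil .nil))) 
(.lf (nat_lit 76540) (.g (nat_lit 3603) (.e (nat_lit 1796) (nat_lit 119) (.e (nat_lit 516185) (nat_lit 16) (.e (nat_lit 491560) (nat_lit 10) (.e (nat_lit 344118) (nat_lit 21) (.e (nat_lit 516142) (nat_lit 8) (.e (nat_lit 417815) (nat_lit 10) (.e (nat_lit 5353) (nat_lit 298) (.e (nat_lit 1074) (nat_lit 81) .nil)))))))) (.g (nat_lit 6) .nil .nil)))))))) 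
(.nd (nat_lit 2) (.nd (nat_lit 3) (.nd (nat_lit 4) (.nd (nat_lit 5) (.nd (nat_lit 6) 
(.lf (nat_lit 76418) (.g (nat_lit 1795) (.e (nat_lit 1796) (nat_lit 119) (.e (nat_lit 516170) (nat_lit 13) (.e (nat_lit 458789) (nat_lit 23) (.e (nat_lit 532513) (nat_lit 3) (.e (nat_lit 122624) (nat_lit 3) .nil))))) .nil)) 
(.lf (nat_lit 76482) (.g (nat_lit 2430) (.e (nat_lit 1796) (nat_lit 119) (.e (nat_lit 516185) (nat_lit 16) (.e (nat_lit 491546) (nat_lit 9) (.e (nat_lit 336013) (nat_lit 2) (.e (nat_lit 90165) (nat_lit 12) (.e (nat_lit 164236) (nat_lit 187) (.e (nat_lit 1512) (nat_lit 108) (.e (nat_lit 335882) (nat_lit 0) .nil)))))))) (.g (nat_lit 4) .nil .nil)))) (.nd (nat_lit 6) 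
(.lf (nat_lit 76450) (.g (nat_lit 3196) (.e (nat_lit 1796) (nat_lit 119) (.e (nat_lit 516175) (nat_lit 14) (.e (nat_lit 466977) (nat_lit 22) (.e (nat_lit 196681) (nat_lit 17) (.e (nat_lit 131089) (nat_lit 1) (.e (nat_lit 57931) (nat_lit 282) (.e (nat_lit 164075) (nat_lit 61) .nil))))))) (.g (nat_lit 7) .nil .nil))) 
(.lf (nat_lit 76514) (.g (nat_lit 4473) (.e (nat_lit 1796) (nat_lit 119) (.e (nat_lit 516185) (nat_lit 16) (.e (nat_lit 491558) (nat_lit 10) (.e (nat_lit 344119) (nat_lit 21) (.e (nat_lit 516139) (nat_lit 7) (.e (nat_lit 409616) (nat_lit 10) (.e (nat_lit 5353) (nat_lit 298) (.e (nat_lit 1074) (nat_lit 81) .nil)))))))) (.g (nat_lit 6) .nil .nil))))) (.nd (nat_lit 5) (.nd (nat_lit 6) 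
(.lf (nat_lit 76434) (.g (nat_lit 1346) (.e (nat_lit 1796) (nat_lit 119) (.e (nat_lit 516175) (nat_lit 14) (.e (nat_lit 474880) (nat_lit 0) (.e (nat_lit 1848) (nat_lit 124) (.e (nat_lit 557104) (nat_lit 14) (.e (nat_lit 180275) (nat_lit 32) (.e (nat_lit 1077) (nat_lit 81) .nil))))))) (.g (nat_lit 5) .nil .nil))) 
(.lf (nat_lit 76498) (.g (nat_lit 608) (.e (nat_lit 1796) (nat_lit 119) (.e (nat_lit 516185) (nat_lit 16) (.e (nat_lit 491558) (nat_lit 10) .nil))) .nil))) (.nd (nat_lit 6) 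
(.lf (nat_lit 76466) (.g (nat_lit 2412) (.e (nat_lit 1796) (nat_lit 119) (.e (nat_lit 516179) (nat_lit 15) (.e (nat_lit 475177) (nat_lit 24) (.e (nat_lit 516146) (nat_lit 9) (.e (nat_lit 426438) (nat_lit 18) (.e (nat_lit 98358) (nat_lit 26) (.e (nat_lit 426357) (nat_lit 15) .nil))))))) (.g (nat_lit 4) .nil .nil))) 
(.lf (nat_lit 76530) (.g (nat_lit 1417) (.e (nat_lit 1796) (nat_lit 119) (.e (nat_lit 516185) (nat_lit 16) (.e (nat_lit 491560) (nat_lit 10) (.e (nat_lit 344117) (nat_lit 21) .nil)))) .nil))))) (.nd (nat_lit 4) (.nd (nat_lit 5) (.nd (nat_lit 6) 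
(.lf (nat_lit 76426) (.g (nat_lit 1403) (.e (nat_lit 1796) (nat_lit 119) (.e (nat_lit 516174) (nat_lit 14) (.e (nat_lit 474880) (nat_lit 0) (.e (nat_lit 1853) (nat_lit 124) (.e (nat_lit 557103) (nat_lit 14) (.e (nat_lit 180276) (nat_lit 32) (.e (nat_lit 1077) (nat_lit 81) .nil))))))) (.g (nat_lit 4) .nil .nil))) 
(.lf (nat_lit 76490) (.g (nat_lit 2511) (.e (nat_lit 1796) (nat_lit 119) (.e (nat_lit 516185) (nat_lit 16) (.e (nat_lit 491546) (nat_lit 9) (.e (nat_lit 336028) (nat_lit 3) (.e (nat_lit 98349) (nat_lit 24) (.e (nat_lit 409617) (nat_lit 10) (.e (nat_lit 5353) (nat_lit 298) (.e (nat_lit 1074) (nat_lit 81) .nil)))))))) (.g (nat_lit 4) .nil .nil)))) (.nd (nat_lit 6) 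
(.lf (nat_lit 76458) (.g (nat_lit 679) (.e (nat_lit 1796) (nat_lit 119) (.e (nat_lit 516176) (nat_lit 14) (.e (nat_lit 466967) (nat_lit 20) .nil))) .nil)) 
(.lf (nat_lit 76522) (.g (nat_lit 2033) (.e (nat_lit 1796) (nat_lit 119) (.e (nat_lit 516185) (nat_lit 16) (.e (nat_lit 491560) (nat_lit 10) (.e (nat_lit 344109) (nat_lit 19) .nil)))) .nil)))) (.nd (nat_lit 5) (.nd (nat_lit 6) 
(.lf (nat_lit 76442) (.g (nat_lit 2073) (.e (nat_lit 1796) (nat_lit 119) (.e (nat_lit 516175) (nat_lit 14) (.e (nat_lit 466977) (nat_lit 22) (.e (nat_lit 196668) (nat_lit 14) (.e (nat_lit 73729) (nat_lit 0) (.e (nat_lit 4843) (nat_lit 284) (.e (nat_lit 122886) (nat_lit 0) .nil))))))) (.g (nat_lit 4) .nil .nil))) 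
(.lf (nat_lit 76506) (.g (nat_lit 2905) (.e (nat_lit 1796) (nat_lit 119) (.e (nat_lit 516185) (nat_lit 16) (.e (nat_lit 491558) (nat_lit 10) (.e (nat_lit 344117) (nat_lit 21) (.e (nat_lit 516106) (nat_lit 0) (.e (nat_lit 7550) (nat_lit 402) (.e (nat_lit 1515) (nat_lit 108) (.e (nat_lit 335882) (nat_lit 0) .nil)))))))) (.g (nat_lit 4) .nil .nil)))) (.nd (nat_lit 6) 
(.lf (nat_lit 76474) (.g (nat_lit 1428) (.e (nat_lit 1796) (nat_lit 119) (.e (nat_lit 516179) (nat_lit 15) (.e (nat_lit 475177) (nat_lit 24) (.e (nat_lit 516182) (nat_lit 15) .nil)))) .nil)) 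
(.lf (nat_lit 76538) (.g (nat_lit 2808) (.e (nat_lit 1796) (nat_lit 119) (.e (nat_lit 516185) (nat_lit 16) (.e (nat_lit 491560) (nat_lit 10) (.e (nat_lit 344118) (nat_lit 21) (.e (nat_lit 516106) (nat_lit 0) (.e (nat_lit 7550) (nat_lit 402) (.e (nat_lit 1512) (nat_lit 108) (.e (nat_lit 335872) (nat_lit 0) .nil)))))))) (.g (nat_lit 5) .nil .nil))))))) 
(.nd (nat_lit 3) (.nd (nat_lit 4) (.nd (nat_lit 5) (.nd (nat_lit 6) 
(.lf (nat_lit 76422) (.g (nat_lit 1941) (.e (nat_lit 1796) (nat_lit 119) (.e (nat_lit 516174) (nat_lit 14) (.e (nat_lit 466947) (nat_lit 0) (.e (nat_lit 1855) (nat_lit 124) (.e (nat_lit 557105) (nat_lit 14) .nil))))) .nil)) 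
(.lf (nat_lit 76486) (.g (nat_lit 1176) (.e (nat_lit 1796) (nat_lit 119) (.e (nat_lit 516185) (nat_lit 16) (.e (nat_lit 491546) (nat_lit 9) (.e (nat_lit 336028) (nat_lit 3) .nil)))) .nil))) (.nd (nat_lit 6) 
(.lf (nat_lit 76454) (.g (nat_lit 1890) (.e (nat_lit 1796) (nat_lit 119) (.e (nat_lit 516176) (nat_lit 14) (.e (nat_lit 466947) (nat_lit 0) (.e (nat_lit 1855) (nat_lit 124) (.e (nat_lit 557105) (nat_lit 14) .nil))))) .nil)) 
(.lf (nat_lit 76518) (.g (nat_lit 1703) (.e (nat_lit 1796) (nat_lit 119) (.e (nat_lit 516185) (nat_lit 16) (.e (nat_lit 491558) (nat_lit 10) (.e (nat_lit 344133) (nat_lit 26) .nil)))) .nil)))) (.nd (nat_lit 5) (.nd (nat_lit 6) 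
(.lf (nat_lit 76438) (.g (nat_lit 1742) (.e (nat_lit 1796) (nat_lit 119) (.e (nat_lit 516175) (nat_lit 14) (.e (nat_lit 466972) (nat_lit 21) (.e (nat_lit 164183) (nat_lit 154) (.e (nat_lit 57386) (nat_lit 4) .nil))))) .nil)) 
(.lf (nat_lit 76502) (.g (nat_lit 1461) (.e (nat_lit 1796) (nat_lit 119) (.e (nat_lit 516185) (nat_lit 16) (.e (nat_lit 491558) (nat_lit 10) (.e (nat_lit 344117) (nat_lit 21) .nil)))) .nil))) (.nd (nat_lit 6) 
(.lf (nat_lit 76470) (.g (nat_lit 3706) (.e (nat_lit 1796) (nat_lit 119) (.e (nat_lit 516179) (nat_lit 15) (.e (nat_lit 475177) (nat_lit 24) (.e (nat_lit 516150) (nat_lit 9) (.e (nat_lit 426438) (nat_lit 18) (.e (nat_lit 98358) (nat_lit 26) (.e (nat_lit 426392) (nat_lit 15) .nil))))))) (.g (nat_lit 7) .nil .nil))) 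
(.lf (nat_lit 76534) (.g (nat_lit 3525) (.e (nat_lit 1796) (nat_lit 119) (.e (nat_lit 516185) (nat_lit 16) (.e (nat_lit 491560) (nat_lit 10) (.e (nat_lit 344117) (nat_lit 21) (.e (nat_lit 516185) (nat_lit 16) (.e (nat_lit 491556) (nat_lit 9) (.e (nat_lit 335872) (nat_lit 0) .nil))))))) (.g (nat_lit 5) .nil .nil)))))) (.nd (nat_lit 4) (.nd (nat_lit 5) (.nd (nat_lit 6) 
(.lf (nat_lit 76430) (.g (nat_lit 2151) (.e (nat_lit 1796) (nat_lit 119) (.e (nat_lit 516175) (nat_lit 14) (.e (nat_lit 466947) (nat_lit 0) (.e (nat_lit 1855) (nat_lit 124) (.e (nat_lit 557105) (nat_lit 14) (.e (nat_lit 180275) (nat_lit 32) (.e (nat_lit 1077) (nat_lit 81) .nil))))))) (.g (nat_lit 5) .nil .nil))) 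
(.lf (nat_lit 76494) (.g (nat_lit 1430) (.e (nat_lit 1796) (nat_lit 119) (.e (nat_lit 516185) (nat_lit 16) (.e (nat_lit 491552) (nat_lit 9) (.e (nat_lit 336024) (nat_lit 3) .nil)))) .nil))) (.nd (nat_lit 6) 
(.lf (nat_lit 76462) (.g (nat_lit 2179) (.e (nat_lit 1796) (nat_lit 119) (.e (nat_lit 516176) (nat_lit 14) (.e (nat_lit 466981) (nat_lit 23) (.e (nat_lit 204861) (nat_lit 26) (.e (nat_lit 335988) (nat_lit 1) .nil))))) .nil)) 
(.lf (nat_lit 76526) (.g (nat_lit 1851) (.e (nat_lit 1796) (nat_lit 119) (.e (nat_lit 516185) (nat_lit 16) (.e (nat_lit 491560) (nat_lit 10) (.e (nat_lit 344114) (nat_lit 20) .nil)))) .nil)))) (.nd (nat_lit 5) (.nd (nat_lit 6) 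
(.lf (nat_lit 76446) (.g (nat_lit 2070) (.e (nat_lit 1796) (nat_lit 119) (.e (nat_lit 516175) (nat_lit 14) (.e (nat_lit 466977) (nat_lit 22) (.e (nat_lit 196681) (nat_lit 17) (.e (nat_lit 131088) (nat_lit 1) .nil))))) .nil)) 
(.lf (nat_lit 76510) (.g (nat_lit 4595) (.e (nat_lit 1796) (nat_lit 119) (.e (nat_lit 516185) (nat_lit 16) (.e (nat_lit 491558) (nat_lit 10) (.e (nat_lit 344117) (nat_lit 21) (.e (nat_lit 516139) (nat_lit 7) (.e (nat_lit 409617) (nat_lit 10) (.e (nat_lit 5353) (nat_lit 298) (.e (nat_lit 1074) (nat_lit 81) .nil)))))))) (.g (nat_lit 5) .nil .nil)))) (.nd (nat_lit 6) 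
(.lf (nat_lit 76478) (.g (nat_lit 1762) (.e (nat_lit 1796) (nat_lit 119) (.e (nat_lit 516185) (nat_lit 16) (.e (nat_lit 491526) (nat_lit 0) (.e (nat_lit 2006) (nat_lit 138) .nil)))) .nil)) 
(.lf (nat_lit 76542) (.g (nat_lit 1979) (.e (nat_lit 1796) (nat_lit 119) (.e (nat_lit 516185) (nat_lit 16) (.e (nat_lit 491560) (nat_lit 10) (.e (nat_lit 344118) (nat_lit 21) (.e (nat_lit 516182) (nat_lit 15) .nil))))) .nil)))))))) (.nd (nat_lit 1) (.nd (nat_lit 2) (.nd (nat_lit 3) (.nd (nat_lit 4) (.nd (nat_lit 5) (.nd (nat_lit 6) 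
(.lf (nat_lit 76417) (.g (nat_lit 1121) (.e (nat_lit 1796) (nat_lit 119) (.e (nat_lit 516170) (nat_lit 13) (.e (nat_lit 458789) (nat_lit 23) (.e (nat_lit 532508) (nat_lit 2) .nil)))) .nil)) 
(.lf (nat_lit 76481) (.g (nat_lit 2774) (.e (nat_lit 1796) (nat_lit 119) (.e (nat_lit 516185) (nat_lit 16) (.e (nat_lit 491546) (nat_lit 9) (.e (nat_lit 336013) (nat_lit 2) (.e (nat_lit 90165) (nat_lit 12) (.e (nat_lit 164218) (nat_lit 179) (.e (nat_lit 164340) (nat_lit 232) (.e (nat_lit 1077) (nat_lit 81) .nil)))))))) (.g (nat_lit 4) .nil .nil)))) (.nd (nat_lit 6) 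
(.lf (nat_lit 76449) (.g (nat_lit 2981) (.e (nat_lit 1796) (nat_lit 119) (.e (nat_lit 516175) (nat_lit 14) (.e (nat_lit 466977) (nat_lit 22) (.e (nat_lit 196681) (nat_lit 17) (.e (nat_lit 131089) (nat_lit 1) (.e (nat_lit 57930) (nat_lit 282) (.e (nat_lit 164076) (nat_lit 61) .nil))))))) (.g (nat_lit 7) .nil .nil))) 
(.lf (nat_lit 76513) (.g (nat_lit 1795) (.e (nat_lit 1796) (nat_lit 119) (.e (nat_lit 516185) (nat_lit 16) (.e (nat_lit 491558) (nat_lit 10) (.e (nat_lit 344119) (nat_lit 21) .nil)))) .nil)))) (.nd (nat_lit 5) (.nd (nat_lit 6) 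
(.lf (nat_lit 76433) (.g (nat_lit 1320) (.e (nat_lit 1796) (nat_lit 119) (.e (nat_lit 516175) (nat_lit 14) (.e (nat_lit 474880) (nat_lit 0) (.e (nat_lit 1848) (nat_lit 124) (.e (nat_lit 557104) (nat_lit 14) (.e (nat_lit 180275) (nat_lit 32) (.e (nat_lit 1074) (nat_lit 81) .nil))))))) (.g (nat_lit 5) .nil .nil))) 
(.lf (nat_lit 76497) (.g (nat_lit 3497) (.e (nat_lit 1796) (nat_lit 119) (.e (nat_lit 516185) (nat_lit 16) (.e (nat_lit 491556) (nat_lit 9) (.e (nat_lit 336017) (nat_lit 3) (.e (nat_lit 98350) (nat_lit 24) (.e (nat_lit 409616) (nat_lit 10) (.e (nat_lit 5353) (nat_lit 298) (.e (nat_lit 1077) (nat_lit 81) .nil)))))))) (.g (nat_lit 5) .nil .nil)))) (.nd (nat_lit 6) 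
(.lf (nat_lit 76465) (.g (nat_lit 2792) (.e (nat_lit 1796) (nat_lit 119) (.e (nat_lit 516179) (nat_lit 15) (.e (nat_lit 475177) (nat_lit 24) (.e (nat_lit 516146) (nat_lit 9) (.e (nat_lit 426428) (nat_lit 17) (.e (nat_lit 90169) (nat_lit 13) (.e (nat_lit 172132) (nat_lit 15) .nil))))))) (.g (nat_lit 6) .nil .nil))) 
(.lf (nat_lit 76529) (.g (nat_lit 2054) (.e (nat_lit 1796) (nat_lit 119) (.e (nat_lit 516185) (nat_lit 16) (.e (nat_lit 491560) (nat_lit 10) (.e (nat_lit 344115) (nat_lit 20) (.e (nat_lit 507908) (nat_lit 0) .nil))))) .nil))))) (.nd (nat_lit 4) (.nd (nat_lit 5) (.nd (nat_lit 6) 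
(.lf (nat_lit 76425) (.g (nat_lit 1801) (.e (nat_lit 1796) (nat_lit 119) (.e (nat_lit 516174) (nat_lit 14) (.e (nat_lit 474880) (nat_lit 0) (.e (nat_lit 1849) (nat_lit 124) (.e (nat_lit 557104) (nat_lit 14) (.e (nat_lit 180276) (nat_lit 32) (.e (nat_lit 1074) (nat_lit 81) .nil))))))) (.g (nat_lit 5) .nil .nil))) 
(.lf (nat_lit 76489) (.g (nat_lit 2638) (.e (nat_lit 1796) (nat_lit 119) (.e (nat_lit 516185) (nat_lit 16) (.e (nat_lit 491546) (nat_lit 9) (.e (nat_lit 336028) (nat_lit 3) (.e (nat_lit 98325) (nat_lit 17) (.e (nat_lit 7936) (nat_lit 409) (.e (nat_lit 131082) (nat_lit 0) .nil))))))) (.g (nat_lit 4) .nil .nil)))) (.nd (nat_lit 6) 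
(.lf (nat_lit 76457) (.g (nat_lit 613) (.e (nat_lit 1796) (nat_lit 119) (.e (nat_lit 516176) (nat_lit 14) (.e (nat_lit 466954) (nat_lit 11) .nil))) .nil)) 
(.lf (nat_lit 76521) (.g (nat_lit 2534) (.e (nat_lit 1796) (nat_lit 119) (.e (nat_lit 516185) (nat_lit 16) (.e (nat_lit 491560) (nat_lit 10) (.e (nat_lit 344108) (nat_lit 19) .nil)))) .nil)))) (.nd (nat_lit 5) (.nd (nat_lit 6) 
(.lf (nat_lit 76441) (.g (nat_lit 1879) (.e (nat_lit 1796) (nat_lit 119) (.e (nat_lit 516175) (nat_lit 14) (.e (nat_lit 466977) (nat_lit 22) (.e (nat_lit 196668) (nat_lit 14) (.e (nat_lit 73729) (nat_lit 0) .nil))))) .nil)) 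
(.lf (nat_lit 76505) (.g (nat_lit 4260) (.e (nat_lit 1796) (nat_lit 119) (.e (nat_lit 516185) (nat_lit 16) (.e (nat_lit 491558) (nat_lit 10) (.e (nat_lit 344117) (nat_lit 21) (.e (nat_lit 516106) (nat_lit 0) (.e (nat_lit 7550) (nat_lit 402) (.e (nat_lit 1512) (nat_lit 108) (.e (nat_lit 335872) (nat_lit 0) .nil)))))))) (.g (nat_lit 5) .nil .nil)))) (.nd (nat_lit 6) 
(.lf (nat_lit 76473) (.g (nat_lit 1483) (.e (nat_lit 1796) (nat_lit 119) (.e (nat_lit 516179) (nat_lit 15) (.e (nat_lit 475177) (nat_lit 24) (.e (nat_lit 516181) (nat_lit 15) .nil)))) .nil)) 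
(.lf (nat_lit 76537) (.g (nat_lit 2331) (.e (nat_lit 1796) (nat_lit 119) (.e (nat_lit 516185) (nat_lit 16) (.e (nat_lit 491560) (nat_lit 10) (.e (nat_lit 344118) (nat_lit 21) (.e (nat_lit 516104) (nat_lit 0) (.e (nat_lit 7562) (nat_lit 402) (.e (nat_lit 1512) (nat_lit 108) (.e (nat_lit 335872) (nat_lit 0) .nil)))))))) (.g (nat_lit 4) .nil .nil))))))) 
(.nd (nat_lit 3) (.nd (nat_lit 4) (.nd (nat_lit 5) (.nd (nat_lit 6) 
(.lf (nat_lit 76421) (.g (nat_lit 716) (.e (nat_lit 1796) (nat_lit 119) (.e (nat_lit 516174) (nat_lit 14) (.e (nat_lit 466947) (nat_lit 0) .nil))) .nil)) 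
(.lf (nat_lit 76485) (.g (nat_lit 3468) (.e (nat_lit 1796) (nat_lit 119) (.e (nat_lit 516185) (nat_lit 16) (.e (nat_lit 491546) (nat_lit 9) (.e (nat_lit 336013) (nat_lit 2) (.e (nat_lit 90165) (nat_lit 12) (.e (nat_lit 171776) (nat_lit 194) (.e (nat_lit 131082) (nat_lit 0) .nil))))))) (.g (nat_lit 5) .nil .nil)))) (.nd (nat_lit 6) 
(.lf (nat_lit 76453) (.g (nat_lit 629) (.e (nat_lit 1796) (nat_lit 119) (.e (nat_lit 516176) (nat_lit 14) (.e (nat_lit 466947) (nat_lit 0) .nil))) .nil)) 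
(.lf (nat_lit 76517) (.g (nat_lit 1763) (.e (nat_lit 1796) (nat_lit 119) (.e (nat_lit 516185) (nat_lit 16) (.e (nat_lit 491558) (nat_lit 10) (.e (nat_lit 344130) (nat_lit 26) .nil)))) .nil)))) (.nd (nat_lit 5) (.nd (nat_lit 6) 
(.lf (nat_lit 76437) (.g (nat_lit 1799) (.e (nat_lit 1796) (nat_lit 119) (.e (nat_lit 516175) (nat_lit 14) (.e (nat_lit 466972) (nat_lit 21) (.e (nat_lit 164183) (nat_lit 154) (.e (nat_lit 57384) (nat_lit 4) .nil))))) .nil)) 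
(.lf (nat_lit 76501) (.g (nat_lit 2306) (.e (nat_lit 1796) (nat_lit 119) (.e (nat_lit 516185) (nat_lit 16) (.e (nat_lit 491558) (nat_lit 10) (.e (nat_lit 344115) (nat_lit 20) (.e (nat_lit 507908) (nat_lit 0) (.e (nat_lit 5401) (nat_lit 302) (.e (nat_lit 73472) (nat_lit 0) .nil))))))) (.g (nat_lit 4) .nil .nil)))) (.nd (nat_lit 6) 
(.lf (nat_lit 76469) (.g (nat_lit 2408) (.e (nat_lit 1796) (nat_lit 119) (.e (nat_lit 516179) (nat_lit 15) (.e (nat_lit 475177) (nat_lit 24) (.e (nat_lit 516150) (nat_lit 9) (.e (nat_lit 426438) (nat_lit 18) (.e (nat_lit 98358) (nat_lit 26) (.e (nat_lit 426357) (nat_lit 15) .nil))))))) (.g (nat_lit 4) .nil .nil))) 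
(.lf (nat_lit 76533) (.g (nat_lit 3252) (.e (nat_lit 1796) (nat_lit 119) (.e (nat_lit 516185) (nat_lit 16) (.e (nat_lit 491560) (nat_lit 10) (.e (nat_lit 344117) (nat_lit 21) (.e (nat_lit 516142) (nat_lit 8) (.e (nat_lit 417815) (nat_lit 10) (.e (nat_lit 5353) (nat_lit 298) (.e (nat_lit 1077) (nat_lit 81) .nil)))))))) (.g (nat_lit 4) .nil .nil)))))) 
(.nd (nat_lit 4) (.nd (nat_lit 5) (.nd (nat_lit 6) 
(.lf (nat_lit 76429) (.g (nat_lit 1844) (.e (nat_lit 1796) (nat_lit 119) (.e (nat_lit 516175) (nat_lit 14) (.e (nat_lit 466945) (nat_lit 0) (.e (nat_lit 1853) (nat_lit 124) (.e (nat_lit 557104) (nat_lit 14) (.e (nat_lit 180276) (nat_lit 32) (.e (nat_lit 1074) (nat_lit 81) .nil))))))) (.g (nat_lit 5) .nil .nil))) 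
(.lf (nat_lit 76493) (.g (nat_lit 2828) (.e (nat_lit 1796) (nat_lit 119) (.e (nat_lit 516185) (nat_lit 16) (.e (nat_lit 491552) (nat_lit 9) (.e (nat_lit 336020) (nat_lit 3) (.e (nat_lit 98350) (nat_lit 24) (.e (nat_lit 409617) (nat_lit 10) (.e (nat_lit 5353) (nat_lit 298) (.e (nat_lit 1074) (nat_lit 81) .nil)))))))) (.g (nat_lit 5) .nil .nil)))) (.nd (nat_lit 6) 
(.lf (nat_lit 76461) (.g (nat_lit 702) (.e (nat_lit 1796) (nat_lit 119) (.e (nat_lit 516176) (nat_lit 14) (.e (nat_lit 466981) (nat_lit 23) .nil))) .nil)) 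
(.lf (nat_lit 76525) (.g (nat_lit 2491) (.e (nat_lit 1796) (nat_lit 119) (.e (nat_lit 516185) (nat_lit 16) (.e (nat_lit 491560) (nat_lit 10) (.e (nat_lit 352000) (nat_lit 19) (.e (nat_lit 499910) (nat_lit 8) (.e (nat_lit 171776) (nat_lit 194) (.e (nat_lit 131082) (nat_lit 0) .nil))))))) (.g (nat_lit 5) .nil .nil))))) (.nd (nat_lit 5) (.nd (nat_lit 6) 
(.lf (nat_lit 76445) (.g (nat_lit 2419) (.e (nat_lit 1796) (nat_lit 119) (.e (nat_lit 516175) (nat_lit 14) (.e (nat_lit 466977) (nat_lit 22) (.e (nat_lit 196681) (nat_lit 17) (.e (nat_lit 131086) (nat_lit 1) (.e (nat_lit 57931) (nat_lit 282) (.e (nat_lit 171776) (nat_lit 61) .nil))))))) (.g (nat_lit 5) .nil .nil))) 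
(.lf (nat_lit 76509) (.g (nat_lit 2661) (.e (nat_lit 1796) (nat_lit 119) (.e (nat_lit 516185) (nat_lit 16) (.e (nat_lit 491558) (nat_lit 10) (.e (nat_lit 344117) (nat_lit 21) (.e (nat_lit 516139) (nat_lit 7) .nil))))) .nil))) (.nd (nat_lit 6) 
(.lf (nat_lit 76477) (.g (nat_lit 3042) (.e (nat_lit 1796) (nat_lit 119) (.e (nat_lit 516179) (nat_lit 15) (.e (nat_lit 475179) (nat_lit 24) (.e (nat_lit 516146) (nat_lit 9) (.e (nat_lit 426438) (nat_lit 18) (.e (nat_lit 98358) (nat_lit 26) (.e (nat_lit 426392) (nat_lit 15) .nil))))))) (.g (nat_lit 4) .nil .nil))) 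
(.lf (nat_lit 76541) (.g (nat_lit 3102) (.e (nat_lit 1796) (nat_lit 119) (.e (nat_lit 516185) (nat_lit 16) (.e (nat_lit 491560) (nat_lit 10) (.e (nat_lit 344118) (nat_lit 21) (.e (nat_lit 516179) (nat_lit 15) (.e (nat_lit 475211) (nat_lit 41) (.e (nat_lit 712704) (nat_lit 0) .nil))))))) (.g (nat_lit 5) .nil .nil)))))))) 
(.nd (nat_lit 2) (.nd (nat_lit 3) (.nd (nat_lit 4) (.nd (nat_lit 5) (.nd (nat_lit 6) 
(.lf (nat_lit 76419) (.g (nat_lit 1595) (.e (nat_lit 1796) (nat_lit 119) (.e (nat_lit 516170) (nat_lit 13) (.e (nat_lit 458789) (nat_lit 23) (.e (nat_lit 532515) (nat_lit 3) (.e (nat_lit 122624) (nat_lit 3) .nil))))) .nil)) 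
(.lf (nat_lit 76483) (.g (nat_lit 2261) (.e (nat_lit 1796) (nat_lit 119) (.e (nat_lit 516185) (nat_lit 16) (.e (nat_lit 491546) (nat_lit 9) (.e (nat_lit 336013) (nat_lit 2) (.e (nat_lit 90165) (nat_lit 12) (.e (nat_lit 164237) (nat_lit 187) (.e (nat_lit 1512) (nat_lit 108) (.e (nat_lit 335882) (nat_lit 0) .nil)))))))) (.g (nat_lit 4) .nil .nil)))) (.nd (nat_lit 6) 
(.lf (nat_lit 76451) (.g (nat_lit 3037) (.e (nat_lit 1796) (nat_lit 119) (.e (nat_lit 516175) (nat_lit 14) (.e (nat_lit 466977) (nat_lit 22) (.e (nat_lit 196681) (nat_lit 17) (.e (nat_lit 131089) (nat_lit 1) (.e (nat_lit 57931) (nat_lit 282) (.e (nat_lit 171776) (nat_lit 61) .nil))))))) (.g (nat_lit 6) .nil .nil))) 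
(.lf (nat_lit 76515) (.g (nat_lit 1513) (.e (nat_lit 1796) (nat_lit 119) (.e (nat_lit 516185) (nat_lit 16) (.e (nat_lit 491558) (nat_lit 10) (.e (nat_lit 344129) (nat_lit 26) .nil)))) .nil)))) (.nd (nat_lit 5) (.nd (nat_lit 6) 
(.lf (nat_lit 76435) (.g (nat_lit 1828) (.e (nat_lit 1796) (nat_lit 119) (.e (nat_lit 516175) (nat_lit 14) (.e (nat_lit 474880) (nat_lit 0) (.e (nat_lit 1853) (nat_lit 124) (.e (nat_lit 557104) (nat_lit 14) (.e (nat_lit 180276) (nat_lit 32) (.e (nat_lit 1074) (nat_lit 81) .nil))))))) (.g (nat_lit 5) .nil .nil))) 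
(.lf (nat_lit 76499) (.g (nat_lit 1644) (.e (nat_lit 1796) (nat_lit 119) (.e (nat_lit 516185) (nat_lit 16) (.e (nat_lit 491558) (nat_lit 10) (.e (nat_lit 344115) (nat_lit 20) .nil)))) .nil))) (.nd (nat_lit 6) 
(.lf (nat_lit 76467) (.g (nat_lit 3730) (.e (nat_lit 1796) (nat_lit 119) (.e (nat_lit 516179) (nat_lit 15) (.e (nat_lit 475177) (nat_lit 24) (.e (nat_lit 516146) (nat_lit 9) (.e (nat_lit 426438) (nat_lit 18) (.e (nat_lit 98358) (nat_lit 26) (.e (nat_lit 426392) (nat_lit 15) .nil))))))) (.g (nat_lit 6) .nil .nil))) 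
(.lf (nat_lit 76531) (.g (nat_lit 3397) (.e (nat_lit 1796) (nat_lit 119) (.e (nat_lit 516185) (nat_lit 16) (.e (nat_lit 491560) (nat_lit 10) (.e (nat_lit 344117) (nat_lit 21) (.e (nat_lit 516099) (nat_lit 0) .nil))))) .nil))))) (.nd (nat_lit 4) (.nd (nat_lit 5) (.nd (nat_lit 6) 
(.lf (nat_lit 76427) (.g (nat_lit 1641) (.e (nat_lit 1796) (nat_lit 119) (.e (nat_lit 516174) (nat_lit 14) (.e (nat_lit 474880) (nat_lit 0) (.e (nat_lit 1859) (nat_lit 124) (.e (nat_lit 557103) (nat_lit 14) (.e (nat_lit 180276) (nat_lit 32) (.e (nat_lit 1074) (nat_lit 81) .nil))))))) (.g (nat_lit 5) .nil .nil))) 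
(.lf (nat_lit 76491) (.g (nat_lit 3917) (.e (nat_lit 1796) (nat_lit 119) (.e (nat_lit 516185) (nat_lit 16) (.e (nat_lit 491546) (nat_lit 9) (.e (nat_lit 336028) (nat_lit 3) (.e (nat_lit 98350) (nat_lit 24) (.e (nat_lit 409616) (nat_lit 10) (.e (nat_lit 5353) (nat_lit 298) (.e (nat_lit 1077) (nat_lit 81) .nil)))))))) (.g (nat_lit 5) .nil .nil)))) (.nd (nat_lit 6) 
(.lf (nat_lit 76459) (.g (nat_lit 734) (.e (nat_lit 1796) (nat_lit 119) (.e (nat_lit 516176) (nat_lit 14) (.e (nat_lit 466976) (nat_lit 22) .nil))) .nil)) 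
(.lf (nat_lit 76523) (.g (nat_lit 2596) (.e (nat_lit 1796) (nat_lit 119) (.e (nat_lit 516185) (nat_lit 16) (.e (nat_lit 491560) (nat_lit 10) (.e (nat_lit 344111) (nat_lit 19) .nil)))) .nil)))) (.nd (nat_lit 5) (.nd (nat_lit 6) 
(.lf (nat_lit 76443) (.g (nat_lit 2106) (.e (nat_lit 1796) (nat_lit 119) (.e (nat_lit 516175) (nat_lit 14) (.e (nat_lit 466977) (nat_lit 22) (.e (nat_lit 196670) (nat_lit 14) (.e (nat_lit 73729) (nat_lit 0) .nil))))) .nil)) 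
(.lf (nat_lit 76507) (.g (nat_lit 3227) (.e (nat_lit 1796) (nat_lit 119) (.e (nat_lit 516185) (nat_lit 16) (.e (nat_lit 491558) (nat_lit 10) (.e (nat_lit 344117) (nat_lit 21) (.e (nat_lit 516106) (nat_lit 0) (.e (nat_lit 7936) (nat_lit 409) (.e (nat_lit 131082) (nat_lit 0) .nil))))))) (.g (nat_lit 4) .nil .nil)))) (.nd (nat_lit 6) 
(.lf (nat_lit 76475) (.g (nat_lit 804) (.e (nat_lit 1796) (nat_lit 119) (.e (nat_lit 516179) (nat_lit 15) (.e (nat_lit 475179) (nat_lit 24) .nil))) .nil)) 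
(.lf (nat_lit 76539) (.g (nat_lit 2817) (.e (nat_lit 1796) (nat_lit 119) (.e (nat_lit 516185) (nat_lit 16) (.e (nat_lit 491560) (nat_lit 10) (.e (nat_lit 344118) (nat_lit 21) (.e (nat_lit 516106) (nat_lit 0) (.e (nat_lit 7550) (nat_lit 402) (.e (nat_lit 1515) (nat_lit 108) (.e (nat_lit 335872) (nat_lit 0) .nil)))))))) (.g (nat_lit 5) .nil .nil))))))) 
(.nd (nat_lit 3) (.nd (nat_lit 4) (.nd (nat_lit 5) (.nd (nat_lit 6) 
(.lf (nat_lit 76423) (.g (nat_lit 1788) (.e (nat_lit 1796) (nat_lit 119) (.e (nat_lit 516174) (nat_lit 14) (.e (nat_lit 466947) (nat_lit 0) (.e (nat_lit 1856) (nat_lit 124) (.e (nat_lit 557103) (nat_lit 14) (.e (nat_lit 180276) (nat_lit 32) (.e (nat_lit 1077) (nat_lit 81) .nil))))))) (.g (nat_lit 4) .nil .nil))) 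
(.lf (nat_lit 76487) (.g (nat_lit 2020) (.e (nat_lit 1796) (nat_lit 119) (.e (nat_lit 516185) (nat_lit 16) (.e (nat_lit 491546) (nat_lit 9) (.e (nat_lit 336028) (nat_lit 3) (.e (nat_lit 98325) (nat_lit 17) .nil))))) .nil))) (.nd (nat_lit 6) 
(.lf (nat_lit 76455) (.g (nat_lit 1650) (.e (nat_lit 1796) (nat_lit 119) (.e (nat_lit 516176) (nat_lit 14) (.e (nat_lit 466947) (nat_lit 0) (.e (nat_lit 1856) (nat_lit 124) (.e (nat_lit 557103) (nat_lit 14) (.e (nat_lit 180276) (nat_lit 32) (.e (nat_lit 1077) (nat_lit 81) .nil))))))) (.g (nat_lit 4) .nil .nil))) 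
(.lf (nat_lit 76519) (.g (nat_lit 192) (.e (nat_lit 1796) (nat_lit 119) (.e (nat_lit 516185) (nat_lit 16) (.e (nat_lit 491560) (nat_lit 10) .nil))) .nil)))) (.nd (nat_lit 5) (.nd (nat_lit 6) 
(.lf (nat_lit 76439) (.g (nat_lit 500) (.e (nat_lit 1796) (nat_lit 119) (.e (nat_lit 516175) (nat_lit 14) (.e (nat_lit 466976) (nat_lit 22) (.e (nat_lit 196628) (nat_lit 9) .nil)))) .nil)) 
(.lf (nat_lit 76503) (.g (nat_lit 2532) (.e (nat_lit 1796) (nat_lit 119) (.e (nat_lit 516185) (nat_lit 16) (.e (nat_lit 491558) (nat_lit 10) (.e (nat_lit 344117) (nat_lit 21) (.e (nat_lit 516097) (nat_lit 0) .nil))))) .nil))) (.nd (nat_lit 6) 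
(.lf (nat_lit 76471) (.g (nat_lit 2187) (.e (nat_lit 1796) (nat_lit 119) (.e (nat_lit 516179) (nat_lit 15) (.e (nat_lit 475177) (nat_lit 24) (.e (nat_lit 516179) (nat_lit 15) (.e (nat_lit 475177) (nat_lit 24) (.e (nat_lit 516148) (nat_lit 9) (.e (nat_lit 426392) (nat_lit 15) .nil))))))) (.g (nat_lit 4) .nil .nil))) 
(.lf (nat_lit 76535) (.g (nat_lit 1576) (.e (nat_lit 1796) (nat_lit 119) (.e (nat_lit 516185) (nat_lit 16) (.e (nat_lit 491560) (nat_lit 10) (.e (nat_lit 344118) (nat_lit 21) .nil)))) .nil))))) (.nd (nat_lit 4) (.nd (nat_lit 5) (.nd (nat_lit 6) 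
(.lf (nat_lit 76431) (.g (nat_lit 2385) (.e (nat_lit 1796) (nat_lit 119) (.e (nat_lit 516175) (nat_lit 14) (.e (nat_lit 466947) (nat_lit 0) (.e (nat_lit 1856) (nat_lit 124) (.e (nat_lit 557103) (nat_lit 14) (.e (nat_lit 180276) (nat_lit 32) (.e (nat_lit 1074) (nat_lit 81) .nil))))))) (.g (nat_lit 0) .nil .nil))) 
(.lf (nat_lit 76495) (.g (nat_lit 2856) (.e (nat_lit 1796) (nat_lit 119) (.e (nat_lit 516185) (nat_lit 16) (.e (nat_lit 491552) (nat_lit 9) (.e (nat_lit 336024) (nat_lit 3) (.e (nat_lit 98350) (nat_lit 24) (.e (nat_lit 409616) (nat_lit 10) (.e (nat_lit 5353) (nat_lit 298) (.e (nat_lit 1074) (nat_lit 81) .nil)))))))) (.g (nat_lit 5) .nil .nil)))) (.nd (nat_lit 6) 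
(.lf (nat_lit 76463) (.g (nat_lit 1359) (.e (nat_lit 1796) (nat_lit 119) (.e (nat_lit 516177) (nat_lit 14) (.e (nat_lit 466974) (nat_lit 22) (.e (nat_lit 196681) (nat_lit 17) (.e (nat_lit 131089) (nat_lit 1) (.e (nat_lit 57931) (nat_lit 282) (.e (nat_lit 164075) (nat_lit 61) .nil))))))) (.g (nat_lit 4) .nil .nil))) 
(.lf (nat_lit 76527) (.g (nat_lit 1477) (.e (nat_lit 1796) (nat_lit 119) (.e (nat_lit 516185) (nat_lit 16) (.e (nat_lit 491560) (nat_lit 10) (.e (nat_lit 344115) (nat_lit 20) .nil)))) .nil)))) (.nd (nat_lit 5) (.nd (nat_lit 6) 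
(.lf (nat_lit 76447) (.g (nat_lit 2098) (.e (nat_lit 1796) (nat_lit 119) (.e (nat_lit 516175) (nat_lit 14) (.e (nat_lit 466977) (nat_lit 22) (.e (nat_lit 196681) (nat_lit 17) (.e (nat_lit 131088) (nat_lit 1) (.e (nat_lit 57931) (nat_lit 282) (.e (nat_lit 171776) (nat_lit 61) .nil))))))) (.g (nat_lit 4) .nil .nil))) 
(.lf (nat_lit 76511) (.g (nat_lit 5030) (.e (nat_lit 1796) (nat_lit 119) (.e (nat_lit 516185) (nat_lit 16) (.e (nat_lit 491558) (nat_lit 10) (.e (nat_lit 344117) (nat_lit 21) (.e (nat_lit 516139) (nat_lit 7) (.e (nat_lit 409617) (nat_lit 10) (.e (nat_lit 5353) (nat_lit 298) (.e (nat_lit 1077) (nat_lit 81) .nil)))))))) (.g (nat_lit 5) .nil .nil)))) (.nd (nat_lit 6) 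
(.lf (nat_lit 76479) (.g (nat_lit 2862) (.e (nat_lit 1796) (nat_lit 119) (.e (nat_lit 516185) (nat_lit 16) (.e (nat_lit 491526) (nat_lit 0) (.e (nat_lit 2006) (nat_lit 138) (.e (nat_lit 671759) (nat_lit 3) (.e (nat_lit 57479) (nat_lit 28) (.e (nat_lit 557105) (nat_lit 14) (.e (nat_lit 180275) (nat_lit 32) (.e (nat_lit 1077) (nat_lit 81) .nil))))))))) (.g (nat_lit 4) .nil .nil))) 
(.lf (nat_lit 76543) (.g (nat_lit 3861) (.e (nat_lit 1796) (nat_lit 119) (.e (nat_lit 516185) (nat_lit 16) (.e (nat_lit 491560) (nat_lit 10) (.e (nat_lit 344118) (nat_lit 21) (.e (nat_lit 516182) (nat_lit 15) (.e (nat_lit 475211) (nat_lit 41) (.e (nat_lit 712704) (nat_lit 0) .nil))))))) (.g (nat_lit 7) .nil .nil))))))))))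

noncomputable def tv1034 : DT := (.nd (nat_lit 0) (.nd (nat_lit 1) (.nd (nat_lit 2) (.nd (nat_lit 3) (.nd (nat_lit 4) (.nd (nat_lit 5) 
(.lf (nat_lit 76544) (.g (nat_lit 2703) (.e (nat_lit 1796) (nat_lit 119) (.e (nat_lit 516185) (nat_lit 16) (.e (nat_lit 491560) (nat_lit 10) (.e (nat_lit 344118) (nat_lit 21) (.e (nat_lit 516183) (nat_lit 16) (.e (nat_lit 491556) (nat_lit 9) (.e (nat_lit 335872) (nat_lit 0) .nil))))))) (.g (nat_lit 5) .nil .nil))) 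
(.lf (nat_lit 76576) (.g (nat_lit 2155) (.e (nat_lit 1796) (nat_lit 119) (.e (nat_lit 516195) (nat_lit 26) (.e (nat_lit 336011) (nat_lit 2) (.e (nat_lit 90157) (nat_lit 11) (.e (nat_lit 24607) (nat_lit 3) .nil))))) .nil))) (.nd (nat_lit 5) 
(.lf (nat_lit 76560) (.g (nat_lit 642) (.e (nat_lit 1796) (nat_lit 119) (.e (nat_lit 516185) (nat_lit 16) (.e (nat_lit 491562) (nat_lit 12) .nil))) .nil)) 
(.lf (nat_lit 76592) (.g (nat_lit 2613) (.e (nat_lit 1796) (nat_lit 119) (.e (nat_lit 516195) (nat_lit 26) (.e (nat_lit 336021) (nat_lit 3) (.e (nat_lit 98313) (nat_lit 9) (.e (nat_lit 336021) (nat_lit 3) (.e (nat_lit 98315) (nat_lit 9) (.e (nat_lit 335959) (nat_lit 0) .nil))))))) (.g (nat_lit 6) .nil .nil))))) (.nd (nat_lit 4) (.nd (nat_lit 5) 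
(.lf (nat_lit 76552) (.g (nat_lit 1762) (.e (nat_lit 1796) (nat_lit 119) (.e (nat_lit 516185) (nat_lit 16) (.e (nat_lit 491560) (nat_lit 10) (.e (nat_lit 344130) (nat_lit 26) .nil)))) .nil)) 
(.lf (nat_lit 76584) (.g (nat_lit 2145) (.e (nat_lit 1796) (nat_lit 119) (.e (nat_lit 516195) (nat_lit 26) (.e (nat_lit 336012) (nat_lit 2) (.e (nat_lit 90158) (nat_lit 11) (.e (nat_lit 24608) (nat_lit 3) (.e (nat_lit 98315) (nat_lit 9) (.e (nat_lit 335957) (nat_lit 0) .nil))))))) (.g (nat_lit 5) .nil .nil)))) (.nd (nat_lit 5) 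
(.lf (nat_lit 76568) (.g (nat_lit 2476) (.e (nat_lit 1796) (nat_lit 119) (.e (nat_lit 516185) (nat_lit 16) (.e (nat_lit 491570) (nat_lit 13) (.e (nat_lit 393238) (nat_lit 17) (.e (nat_lit 3550) (nat_lit 220) .nil))))) .nil)) 
(.lf (nat_lit 76600) (.g (nat_lit 1232) (.e (nat_lit 1796) (nat_lit 119) (.e (nat_lit 516195) (nat_lit 26) (.e (nat_lit 336027) (nat_lit 3) (.e (nat_lit 98312) (nat_lit 9) .nil)))) .nil))))) (.nd (nat_lit 3) (.nd (nat_lit 4) (.nd (nat_lit 5) 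
(.lf (nat_lit 76548) (.g (nat_lit 3985) (.e (nat_lit 1796) (nat_lit 119) (.e (nat_lit 516185) (nat_lit 16) (.e (nat_lit 491560) (nat_lit 10) (.e (nat_lit 344120) (nat_lit 21) (.e (nat_lit 516139) (nat_lit 7) (.e (nat_lit 409617) (nat_lit 10) (.e (nat_lit 5353) (nat_lit 298) (.e (nat_lit 1077) (nat_lit 81) .nil)))))))) (.g (nat_lit 6) .nil .nil))) 
(.lf (nat_lit 76580) (.g (nat_lit 899) (.e (nat_lit 1796) (nat_lit 119) (.e (nat_lit 516195) (nat_lit 26) (.e (nat_lit 336012) (nat_lit 2) (.e (nat_lit 90158) (nat_lit 11) .nil)))) .nil))) (.nd (nat_lit 5) 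
(.lf (nat_lit 76564) (.g (nat_lit 642) (.e (nat_lit 1796) (nat_lit 119) (.e (nat_lit 516185) (nat_lit 16) (.e (nat_lit 491564) (nat_lit 12) .nil))) .nil)) 
(.lf (nat_lit 76596) (.g (nat_lit 2421) (.e (nat_lit 1796) (nat_lit 119) (.e (nat_lit 516195) (nat_lit 26) (.e (nat_lit 336021) (nat_lit 3) (.e (nat_lit 98317) (nat_lit 9) (.e (nat_lit 336021) (nat_lit 3) (.e (nat_lit 98315) (nat_lit 9) (.e (nat_lit 335957) (nat_lit 0) .nil))))))) (.g (nat_lit 5) .nil .nil))))) (.nd (nat_lit 4) (.nd (nat_lit 5) 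
(.lf (nat_lit 76556) (.g (nat_lit 1714) (.e (nat_lit 1796) (nat_lit 119) (.e (nat_lit 516185) (nat_lit 16) (.e (nat_lit 491560) (nat_lit 10) (.e (nat_lit 344132) (nat_lit 26) .nil)))) .nil)) 
(.lf (nat_lit 76588) (.g (nat_lit 1268) (.e (nat_lit 1796) (nat_lit 119) (.e (nat_lit 516195) (nat_lit 26) (.e (nat_lit 336012) (nat_lit 2) (.e (nat_lit 90159) (nat_lit 11) .nil)))) .nil))) (.nd (nat_lit 5) 
(.lf (nat_lit 76572) (.g (nat_lit 2424) (.e (nat_lit 1796) (nat_lit 119) (.e (nat_lit 516195) (nat_lit 26) (.e (nat_lit 336004) (nat_lit 2) (.e (nat_lit 90158) (nat_lit 11) (.e (nat_lit 24608) (nat_lit 3) (.e (nat_lit 98315) (nat_lit 9) (.e (nat_lit 335957) (nat_lit 0) .nil))))))) (.g (nat_lit 5) .nil .nil))) 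
(.lf (nat_lit 76604) (.g (nat_lit 2046) (.e (nat_lit 1796) (nat_lit 119) (.e (nat_lit 516195) (nat_lit 26) (.e (nat_lit 336027) (nat_lit 3) (.e (nat_lit 98313) (nat_lit 9) (.e (nat_lit 336027) (nat_lit 3) (.e (nat_lit 98315) (nat_lit 9) (.e (nat_lit 335958) (nat_lit 0) .nil))))))) (.g (nat_lit 4) .nil .nil))))))) (.nd (nat_lit 2) (.nd (nat_lit 3) (.nd (nat_lit 4) (.nd (nat_lit 5) 
(.lf (nat_lit 76546) (.g (nat_lit 2754) (.e (nat_lit 1796) (nat_lit 119) (.e (nat_lit 516185) (nat_lit 16) (.e (nat_lit 491560) (nat_lit 10) (.e (nat_lit 344118) (nat_lit 21) (.e (nat_lit 516185) (nat_lit 16) (.e (nat_lit 491556) (nat_lit 9) (.e (nat_lit 335872) (nat_lit 0) .nil))))))) (.g (nat_lit 5) .nil .nil))) 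
(.lf (nat_lit 76578) (.g (nat_lit 2244) (.e (nat_lit 1796) (nat_lit 119) (.e (nat_lit 516195) (nat_lit 26) (.e (nat_lit 336012) (nat_lit 2) (.e (nat_lit 90157) (nat_lit 11) (.e (nat_lit 24607) (nat_lit 3) (.e (nat_lit 98315) (nat_lit 9) (.e (nat_lit 335957) (nat_lit 0) .nil))))))) (.g (nat_lit 5) .nil .nil)))) (.nd (nat_lit 5) 
(.lf (nat_lit 76562) (.g (nat_lit 5187) (.e (nat_lit 1796) (nat_lit 119) (.e (nat_lit 516185) (nat_lit 16) (.e (nat_lit 491563) (nat_lit 12) (.e (nat_lit 385074) (nat_lit 31) (.e (nat_lit 573491) (nat_lit 15) (.e (nat_lit 89856) (nat_lit 20) .nil)))))) (.g (nat_lit 5) .nil .nil))) 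
(.lf (nat_lit 76594) (.g (nat_lit 2957) (.e (nat_lit 1796) (nat_lit 119) (.e (nat_lit 516195) (nat_lit 26) (.e (nat_lit 336021) (nat_lit 3) (.e (nat_lit 98313) (nat_lit 9) (.e (nat_lit 336027) (nat_lit 3) (.e (nat_lit 98315) (nat_lit 9) (.e (nat_lit 335958) (nat_lit 0) .nil))))))) (.g (nat_lit 5) .nil .nil))))) (.nd (nat_lit 4) (.nd (nat_lit 5) 
(.lf (nat_lit 76554) (.g (nat_lit 3497) (.e (nat_lit 1796) (nat_lit 119) (.e (nat_lit 516185) (nat_lit 16) (.e (nat_lit 491560) (nat_lit 10) (.e (nat_lit 344131) (nat_lit 26) (.e (nat_lit 557087) (nat_lit 11) (.e (nat_lit 24625) (nat_lit 9) (.e (nat_lit 335880) (nat_lit 0) .nil))))))) (.g (nat_lit 6) .nil .nil))) 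
(.lf (nat_lit 76586) (.g (nat_lit 2658) (.e (nat_lit 1796) (nat_lit 119) (.e (nat_lit 516195) (nat_lit 26) (.e (nat_lit 336012) (nat_lit 2) (.e (nat_lit 90158) (nat_lit 11) (.e (nat_lit 24608) (nat_lit 3) (.e (nat_lit 98315) (nat_lit 9) (.e (nat_lit 335959) (nat_lit 0) .nil))))))) (.g (nat_lit 0) .nil .nil)))) (.nd (nat_lit 5) 
(.lf (nat_lit 76570) (.g (nat_lit 2783) (.e (nat_lit 1796) (nat_lit 119) (.e (nat_lit 516195) (nat_lit 26) (.e (nat_lit 336004) (nat_lit 2) (.e (nat_lit 90158) (nat_lit 11) (.e (nat_lit 24607) (nat_lit 3) (.e (nat_lit 98315) (nat_lit 9) (.e (nat_lit 335958) (nat_lit 0) .nil))))))) (.g (nat_lit 5) .nil .nil))) 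
(.lf (nat_lit 76602) (.g (nat_lit 1777) (.e (nat_lit 1796) (nat_lit 119) (.e (nat_lit 516195) (nat_lit 26) (.e (nat_lit 336027) (nat_lit 3) (.e (nat_lit 98313) (nat_lit 9) (.e (nat_lit 336021) (nat_lit 3) (.e (nat_lit 98315) (nat_lit 9) (.e (nat_lit 335959) (nat_lit 0) .nil))))))) (.g (nat_lit 4) .nil .nil)))))) (.nd (nat_lit 3) (.nd (nat_lit 4) (.nd (nat_lit 5) 
(.lf (nat_lit 76550) (.g (nat_lit 2465) (.e (nat_lit 1796) (nat_lit 119) (.e (nat_lit 516185) (nat_lit 16) (.e (nat_lit 491560) (nat_lit 10) (.e (nat_lit 344129) (nat_lit 26) (.e (nat_lit 557074) (nat_lit 9) .nil))))) .nil)) 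
(.lf (nat_lit 76582) (.g (nat_lit 2652) (.e (nat_lit 1796) (nat_lit 119) (.e (nat_lit 516195) (nat_lit 26) (.e (nat_lit 336012) (nat_lit 2) (.e (nat_lit 90158) (nat_lit 11) (.e (nat_lit 24607) (nat_lit 3) (.e (nat_lit 98315) (nat_lit 9) (.e (nat_lit 335958) (nat_lit 0) .nil))))))) (.g (nat_lit 5) .nil .nil)))) (.nd (nat_lit 5) 
(.lf (nat_lit 76566) (.g (nat_lit 1536) (.e (nat_lit 1796) (nat_lit 119) (.e (nat_lit 516185) (nat_lit 16) (.e (nat_lit 491565) (nat_lit 12) (.e (nat_lit 385074) (nat_lit 31) .nil)))) .nil)) 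
(.lf (nat_lit 76598) (.g (nat_lit 2550) (.e (nat_lit 1796) (nat_lit 119) (.e (nat_lit 516195) (nat_lit 26) (.e (nat_lit 336021) (nat_lit 3) (.e (nat_lit 98317) (nat_lit 9) (.e (nat_lit 336027) (nat_lit 3) (.e (nat_lit 98315) (nat_lit 9) (.e (nat_lit 335957) (nat_lit 0) .nil))))))) (.g (nat_lit 5) .nil .nil))))) (.nd (nat_lit 4) (.nd (nat_lit 5) 
(.lf (nat_lit 76558) (.g (nat_lit 2589) (.e (nat_lit 1796) (nat_lit 119) (.e (nat_lit 516185) (nat_lit 16) (.e (nat_lit 491560) (nat_lit 10) (.e (nat_lit 344133) (nat_lit 26) (.e (nat_lit 557068) (nat_lit 9) .nil))))) .nil)) 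
(.lf (nat_lit 76590) (.g (nat_lit 2084) (.e (nat_lit 1796) (nat_lit 119) (.e (nat_lit 516195) (nat_lit 26) (.e (nat_lit 336021) (nat_lit 3) (.e (nat_lit 98313) (nat_lit 9) (.e (nat_lit 336021) (nat_lit 3) (.e (nat_lit 98315) (nat_lit 9) (.e (nat_lit 335957) (nat_lit 0) .nil))))))) (.g (nat_lit 4) .nil .nil)))) (.nd (nat_lit 5) 
(.lf (nat_lit 76574) (.g (nat_lit 1978) (.e (nat_lit 1796) (nat_lit 119) (.e (nat_lit 516195) (nat_lit 26) (.e (nat_lit 336011) (nat_lit 2) (.e (nat_lit 90133) (nat_lit 9) .nil)))) .nil)) 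
(.lf (nat_lit 76606) (.g (nat_lit 940) (.e (nat_lit 1796) (nat_lit 119) (.e (nat_lit 516195) (nat_lit 26) (.e (nat_lit 336027) (nat_lit 3) (.e (nat_lit 98317) (nat_lit 9) .nil)))) .nil))))))) (.nd (nat_lit 1) (.nd (nat_lit 2) (.nd (nat_lit 3) (.nd (nat_lit 4) (.nd (nat_lit 5) 
(.lf (nat_lit 76545) (.g (nat_lit 2077) (.e (nat_lit 1796) (nat_lit 119) (.e (nat_lit 516185) (nat_lit 16) (.e (nat_lit 491560) (nat_lit 10) (.e (nat_lit 344118) (nat_lit 21) (.e (nat_lit 516184) (nat_lit 16) (.e (nat_lit 491556) (nat_lit 9) (.e (nat_lit 335872) (nat_lit 0) .nil))))))) (.g (nat_lit 4) .nil .nil))) 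
(.lf (nat_lit 76577) (.g (nat_lit 1797) (.e (nat_lit 1796) (nat_lit 119) (.e (nat_lit 516195) (nat_lit 26) (.e (nat_lit 336011) (nat_lit 2) (.e (nat_lit 90158) (nat_lit 11) .nil)))) .nil))) (.nd (nat_lit 5) 
(.lf (nat_lit 76561) (.g (nat_lit 3508) (.e (nat_lit 1796) (nat_lit 119) (.e (nat_lit 516185) (nat_lit 16) (.e (nat_lit 491563) (nat_lit 12) (.e (nat_lit 385073) (nat_lit 31) (.e (nat_lit 573493) (nat_lit 15) .nil))))) .nil)) 
(.lf (nat_lit 76593) (.g (nat_lit 2764) (.e (nat_lit 1796) (nat_lit 119) (.e (nat_lit 516195) (nat_lit 26) (.e (nat_lit 336021) (nat_lit 3) (.e (nat_lit 98313) (nat_lit 9) (.e (nat_lit 336027) (nat_lit 3) (.e (nat_lit 98315) (nat_lit 9) (.e (nat_lit 335957) (nat_lit 0) .nil))))))) (.g (nat_lit 5) .nil .nil))))) (.nd (nat_lit 4) (.nd (nat_lit 5) 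
(.lf (nat_lit 76553) (.g (nat_lit 1626) (.e (nat_lit 1796) (nat_lit 119) (.e (nat_lit 516185) (nat_lit 16) (.e (nat_lit 491560) (nat_lit 10) (.e (nat_lit 344131) (nat_lit 26) .nil)))) .nil)) 
(.lf (nat_lit 76585) (.g (nat_lit 2338) (.e (nat_lit 1796) (nat_lit 119) (.e (nat_lit 516195) (nat_lit 26) (.e (nat_lit 336012) (nat_lit 2) (.e (nat_lit 90158) (nat_lit 11) (.e (nat_lit 24608) (nat_lit 3) (.e (nat_lit 98315) (nat_lit 9) (.e (nat_lit 335958) (nat_lit 0) .nil))))))) (.g (nat_lit 6) .nil .nil)))) (.nd (nat_lit 5) 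
(.lf (nat_lit 76569) (.g (nat_lit 2590) (.e (nat_lit 1796) (nat_lit 119) (.e (nat_lit 516195) (nat_lit 26) (.e (nat_lit 336004) (nat_lit 2) (.e (nat_lit 90158) (nat_lit 11) (.e (nat_lit 24607) (nat_lit 3) (.e (nat_lit 98315) (nat_lit 9) (.e (nat_lit 335957) (nat_lit 0) .nil))))))) (.g (nat_lit 5) .nil .nil))) 
(.lf (nat_lit 76601) (.g (nat_lit 1764) (.e (nat_lit 1796) (nat_lit 119) (.e (nat_lit 516195) (nat_lit 26) (.e (nat_lit 336027) (nat_lit 3) (.e (nat_lit 98313) (nat_lit 9) (.e (nat_lit 336021) (nat_lit 3) .nil))))) .nil))))) (.nd (nat_lit 3) (.nd (nat_lit 4) (.nd (nat_lit 5) 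
(.lf (nat_lit 76549) (.g (nat_lit 1816) (.e (nat_lit 1796) (nat_lit 119) (.e (nat_lit 516185) (nat_lit 16) (.e (nat_lit 491560) (nat_lit 10) (.e (nat_lit 344129) (nat_lit 26) .nil)))) .nil)) 
(.lf (nat_lit 76581) (.g (nat_lit 2459) (.e (nat_lit 1796) (nat_lit 119) (.e (nat_lit 516195) (nat_lit 26) (.e (nat_lit 336012) (nat_lit 2) (.e (nat_lit 90158) (nat_lit 11) (.e (nat_lit 24607) (nat_lit 3) (.e (nat_lit 98315) (nat_lit 9) (.e (nat_lit 335957) (nat_lit 0) .nil))))))) (.g (nat_lit 5) .nil .nil)))) (.nd (nat_lit 5) 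
(.lf (nat_lit 76565) (.g (nat_lit 2873) (.e (nat_lit 1796) (nat_lit 119) (.e (nat_lit 516185) (nat_lit 16) (.e (nat_lit 491565) (nat_lit 12) (.e (nat_lit 385073) (nat_lit 31) (.e (nat_lit 573493) (nat_lit 15) (.e (nat_lit 89856) (nat_lit 20) .nil)))))) (.g (nat_lit 5) .nil .nil))) 
(.lf (nat_lit 76597) (.g (nat_lit 2614) (.e (nat_lit 1796) (nat_lit 119) (.e (nat_lit 516195) (nat_lit 26) (.e (nat_lit 336021) (nat_lit 3) (.e (nat_lit 98317) (nat_lit 9) (.e (nat_lit 336021) (nat_lit 3) (.e (nat_lit 98315) (nat_lit 9) (.e (nat_lit 335958) (nat_lit 0) .nil))))))) (.g (nat_lit 5) .nil .nil))))) (.nd (nat_lit 4) (.nd (nat_lit 5) 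
(.lf (nat_lit 76557) (.g (nat_lit 1625) (.e (nat_lit 1796) (nat_lit 119) (.e (nat_lit 516185) (nat_lit 16) (.e (nat_lit 491560) (nat_lit 10) (.e (nat_lit 344133) (nat_lit 26) .nil)))) .nil)) 
(.lf (nat_lit 76589) (.g (nat_lit 2327) (.e (nat_lit 1796) (nat_lit 119) (.e (nat_lit 516195) (nat_lit 26) (.e (nat_lit 336012) (nat_lit 2) (.e (nat_lit 90160) (nat_lit 11) (.e (nat_lit 24607) (nat_lit 3) .nil))))) .nil))) (.nd (nat_lit 5) 
(.lf (nat_lit 76573) (.g (nat_lit 2617) (.e (nat_lit 1796) (nat_lit 119) (.e (nat_lit 516195) (nat_lit 26) (.e (nat_lit 336004) (nat_lit 2) (.e (nat_lit 90158) (nat_lit 11) (.e (nat_lit 24608) (nat_lit 3) (.e (nat_lit 98315) (nat_lit 9) (.e (nat_lit 335958) (nat_lit 0) .nil))))))) (.g (nat_lit 5) .nil .nil))) 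
(.lf (nat_lit 76605) (.g (nat_lit 1434) (.e (nat_lit 1796) (nat_lit 119) (.e (nat_lit 516195) (nat_lit 26) (.e (nat_lit 336027) (nat_lit 3) (.e (nat_lit 98316) (nat_lit 9) .nil)))) .nil)))))) (.nd (nat_lit 2) (.nd (nat_lit 3) (.nd (nat_lit 4) (.nd (nat_lit 5) 
(.lf (nat_lit 76547) (.g (nat_lit 2379) (.e (nat_lit 1796) (nat_lit 119) (.e (nat_lit 516185) (nat_lit 16) (.e (nat_lit 491560) (nat_lit 10) (.e (nat_lit 344120) (nat_lit 21) (.e (nat_lit 516139) (nat_lit 7) .nil))))) .nil)) 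
(.lf (nat_lit 76579) (.g (nat_lit 2437) (.e (nat_lit 1796) (nat_lit 119) (.e (nat_lit 516195) (nat_lit 26) (.e (nat_lit 336012) (nat_lit 2) (.e (nat_lit 90157) (nat_lit 11) (.e (nat_lit 24607) (nat_lit 3) (.e (nat_lit 98315) (nat_lit 9) (.e (nat_lit 335958) (nat_lit 0) .nil))))))) (.g (nat_lit 5) .nil .nil)))) (.nd (nat_lit 5) 
(.lf (nat_lit 76563) (.g (nat_lit 5055) (.e (nat_lit 1796) (nat_lit 119) (.e (nat_lit 516185) (nat_lit 16) (.e (nat_lit 491563) (nat_lit 12) (.e (nat_lit 385074) (nat_lit 31) (.e (nat_lit 573493) (nat_lit 15) (.e (nat_lit 89856) (nat_lit 20) .nil)))))) (.g (nat_lit 5) .nil .nil))) 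
(.lf (nat_lit 76595) (.g (nat_lit 3243) (.e (nat_lit 1796) (nat_lit 119) (.e (nat_lit 516195) (nat_lit 26) (.e (nat_lit 336021) (nat_lit 3) (.e (nat_lit 98313) (nat_lit 9) (.e (nat_lit 336027) (nat_lit 3) (.e (nat_lit 98315) (nat_lit 9) (.e (nat_lit 335959) (nat_lit 0) .nil))))))) (.g (nat_lit 6) .nil .nil))))) (.nd (nat_lit 4) (.nd (nat_lit 5) 
(.lf (nat_lit 76555) (.g (nat_lit 3690) (.e (nat_lit 1796) (nat_lit 119) (.e (nat_lit 516185) (nat_lit 16) (.e (nat_lit 491560) (nat_lit 10) (.e (nat_lit 344131) (nat_lit 26) (.e (nat_lit 557087) (nat_lit 11) (.e (nat_lit 24625) (nat_lit 9) (.e (nat_lit 335883) (nat_lit 0) .nil))))))) (.g (nat_lit 6) .nil .nil))) 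
(.lf (nat_lit 76587) (.g (nat_lit 1354) (.e (nat_lit 1796) (nat_lit 119) (.e (nat_lit 516195) (nat_lit 26) (.e (nat_lit 336012) (nat_lit 2) (.e (nat_lit 90158) (nat_lit 11) (.e (nat_lit 24609) (nat_lit 3) .nil))))) .nil))) (.nd (nat_lit 5) 
(.lf (nat_lit 76571) (.g (nat_lit 3124) (.e (nat_lit 1796) (nat_lit 119) (.e (nat_lit 516195) (nat_lit 26) (.e (nat_lit 336004) (nat_lit 2) (.e (nat_lit 90158) (nat_lit 11) (.e (nat_lit 24607) (nat_lit 3) (.e (nat_lit 98315) (nat_lit 9) (.e (nat_lit 335959) (nat_lit 0) .nil))))))) (.g (nat_lit 7) .nil .nil))) 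
(.lf (nat_lit 76603) (.g (nat_lit 1853) (.e (nat_lit 1796) (nat_lit 119) (.e (nat_lit 516195) (nat_lit 26) (.e (nat_lit 336027) (nat_lit 3) (.e (nat_lit 98313) (nat_lit 9) (.e (nat_lit 336027) (nat_lit 3) (.e (nat_lit 98315) (nat_lit 9) (.e (nat_lit 335957) (nat_lit 0) .nil))))))) (.g (nat_lit 4) .nil .nil)))))) (.nd (nat_lit 3) (.nd (nat_lit 4) (.nd (nat_lit 5) 
(.lf (nat_lit 76551) (.g (nat_lit 2464) (.e (nat_lit 1796) (nat_lit 119) (.e (nat_lit 516185) (nat_lit 16) (.e (nat_lit 491560) (nat_lit 10) (.e (nat_lit 344129) (nat_lit 26) (.e (nat_lit 557087) (nat_lit 11) (.e (nat_lit 24636) (nat_lit 9) (.e (nat_lit 335958) (nat_lit 0) .nil))))))) (.g (nat_lit 4) .nil .nil))) 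
(.lf (nat_lit 76583) (.g (nat_lit 2999) (.e (nat_lit 1796) (nat_lit 119) (.e (nat_lit 516195) (nat_lit 26) (.e (nat_lit 336012) (nat_lit 2) (.e (nat_lit 90158) (nat_lit 11) (.e (nat_lit 24607) (nat_lit 3) (.e (nat_lit 98315) (nat_lit 9) (.e (nat_lit 335959) (nat_lit 0) .nil))))))) (.g (nat_lit 0) .nil .nil)))) (.nd (nat_lit 5) 
(.lf (nat_lit 76567) (.g (nat_lit 642) (.e (nat_lit 1796) (nat_lit 119) (.e (nat_lit 516185) (nat_lit 16) (.e (nat_lit 491570) (nat_lit 13) .nil))) .nil)) 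
(.lf (nat_lit 76599) (.g (nat_lit 2729) (.e (nat_lit 1796) (nat_lit 119) (.e (nat_lit 516195) (nat_lit 26) (.e (nat_lit 336021) (nat_lit 3) (.e (nat_lit 98317) (nat_lit 9) (.e (nat_lit 336027) (nat_lit 3) (.e (nat_lit 98315) (nat_lit 9) (.e (nat_lit 335958) (nat_lit 0) .nil))))))) (.g (nat_lit 5) .nil .nil))))) (.nd (nat_lit 4) (.nd (nat_lit 5) 
(.lf (nat_lit 76559) (.g (nat_lit 2911) (.e (nat_lit 1796) (nat_lit 119) (.e (nat_lit 516185) (nat_lit 16) (.e (nat_lit 491560) (nat_lit 10) (.e (nat_lit 344133) (nat_lit 26) (.e (nat_lit 557086) (nat_lit 11) .nil))))) .nil)) 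
(.lf (nat_lit 76591) (.g (nat_lit 2277) (.e (nat_lit 1796) (nat_lit 119) (.e (nat_lit 516195) (nat_lit 26) (.e (nat_lit 336021) (nat_lit 3) (.e (nat_lit 98313) (nat_lit 9) (.e (nat_lit 336021) (nat_lit 3) (.e (nat_lit 98315) (nat_lit 9) (.e (nat_lit 335958) (nat_lit 0) .nil))))))) (.g (nat_lit 5) .nil .nil)))) (.nd (nat_lit 5) 
(.lf (nat_lit 76575) (.g (nat_lit 2391) (.e (nat_lit 1796) (nat_lit 119) (.e (nat_lit 516195) (nat_lit 26) (.e (nat_lit 336011) (nat_lit 2) (.e (nat_lit 90134) (nat_lit 9) (.e (nat_lit 290) (nat_lit 21) (.e (nat_lit 336021) (nat_lit 3) (.e (nat_lit 98315) (nat_lit 9) (.e (nat_lit 335958) (nat_lit 0) .nil)))))))) (.g (nat_lit 5) .nil .nil))) 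
(.lf (nat_lit 76607) (.g (nat_lit 2113) (.e (nat_lit 1796) (nat_lit 119) (.e (nat_lit 516195) (nat_lit 26) (.e (nat_lit 336027) (nat_lit 3) (.e (nat_lit 98317) (nat_lit 9) (.e (nat_lit 336021) (nat_lit 3) (.e (nat_lit 98315) (nat_lit 9) (.e (nat_lit 335957) (nat_lit 0) .nil))))))) (.g (nat_lit 5) .nil .nil)))))))))

noncomputable def tv1035 : DT := (.nd (nat_lit 0) (.nd (nat_lit 1) (.nd (nat_lit 2) (.nd (nat_lit 3) (.nd (nat_lit 4) (.nd (nat_lit 5) 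
(.lf (nat_lit 76608) (.g (nat_lit 2306) (.e (nat_lit 1796) (nat_lit 119) (.e (nat_lit 516195) (nat_lit 26) (.e (nat_lit 336027) (nat_lit 3) (.e (nat_lit 98317) (nat_lit 9) (.e (nat_lit 336021) (nat_lit 3) (.e (nat_lit 98315) (nat_lit 9) (.e (nat_lit 335958) (nat_lit 0) .nil))))))) (.g (nat_lit 5) .nil .nil))) 
(.lf (nat_lit 76640) (.g (nat_lit 2482) (.e (nat_lit 1797) (nat_lit 119) (.e (nat_lit 516119) (nat_lit 1) (.e (nat_lit 164403) (nat_lit 256) (.e (nat_lit 57371) (nat_lit 2) (.e (nat_lit 90172) (nat_lit 14) (.e (nat_lit 180244) (nat_lit 5) (.e (nat_lit 532513) (nat_lit 3) (.e (nat_lit 114700) (nat_lit 20) .nil)))))))) (.g (nat_lit 4) .nil .nil)))) (.nd (nat_lit 5) 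
(.lf (nat_lit 76624) (.g (nat_lit 2430) (.e (nat_lit 1797) (nat_lit 119) (.e (nat_lit 516115) (nat_lit 1) (.e (nat_lit 164399) (nat_lit 256) (.e (nat_lit 57372) (nat_lit 2) (.e (nat_lit 90167) (nat_lit 13) (.e (nat_lit 172067) (nat_lit 3) (.e (nat_lit 204838) (nat_lit 20) (.e (nat_lit 114702) (nat_lit 20) .nil)))))))) (.g (nat_lit 5) .nil .nil))) 
(.lf (nat_lit 76656) (.g (nat_lit 3554) (.e (nat_lit 1797) (nat_lit 119) (.e (nat_lit 516151) (nat_lit 9) (.e (nat_lit 426285) (nat_lit 10) (.e (nat_lit 434238) (nat_lit 25) (.e (nat_lit 548913) (nat_lit 18) (.e (nat_lit 172124) (nat_lit 14) (.e (nat_lit 491524) (nat_lit 0) .nil))))))) (.g (nat_lit 4) .nil .nil))))) (.nd (nat_lit 4) (.nd (nat_lit 5) 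
(.lf (nat_lit 76616) (.g (nat_lit 3228) (.e (nat_lit 1796) (nat_lit 119) (.e (nat_lit 516199) (nat_lit 26) (.e (nat_lit 336021) (nat_lit 3) (.e (nat_lit 98313) (nat_lit 9) (.e (nat_lit 336027) (nat_lit 3) (.e (nat_lit 98315) (nat_lit 9) (.e (nat_lit 335959) (nat_lit 0) .nil))))))) (.g (nat_lit 5) .nil .nil))) 
(.lf (nat_lit 76648) (.g (nat_lit 2198) (.e (nat_lit 1797) (nat_lit 119) (.e (nat_lit 516120) (nat_lit 1) (.e (nat_lit 164329) (nat_lit 230) (.e (nat_lit 163942) (nat_lit 19) .nil)))) .nil))) (.nd (nat_lit 5) 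
(.lf (nat_lit 76632) (.g (nat_lit 2917) (.e (nat_lit 1797) (nat_lit 119) (.e (nat_lit 516115) (nat_lit 1) (.e (nat_lit 164399) (nat_lit 256) (.e (nat_lit 57373) (nat_lit 2) (.e (nat_lit 90174) (nat_lit 14) (.e (nat_lit 180243) (nat_lit 5) (.e (nat_lit 532515) (nat_lit 3) (.e (nat_lit 114701) (nat_lit 20) .nil)))))))) (.g (nat_lit 5) .nil .nil))) 
(.lf (nat_lit 76664) (.g (nat_lit 4244) (.e (nat_lit 1797) (nat_lit 119) (.e (nat_lit 516166) (nat_lit 12) (.e (nat_lit 450587) (nat_lit 10) (.e (nat_lit 573477) (nat_lit 12) .nil)))) .nil))))) (.nd (nat_lit 3) (.nd (nat_lit 4) (.nd (nat_lit 5) 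
(.lf (nat_lit 76612) (.g (nat_lit 2744) (.e (nat_lit 1796) (nat_lit 119) (.e (nat_lit 516195) (nat_lit 26) (.e (nat_lit 336027) (nat_lit 3) (.e (nat_lit 98317) (nat_lit 9) (.e (nat_lit 336027) (nat_lit 3) (.e (nat_lit 98315) (nat_lit 9) (.e (nat_lit 335959) (nat_lit 0) .nil))))))) (.g (nat_lit 0) .nil .nil))) 
(.lf (nat_lit 76644) (.g (nat_lit 961) (.e (nat_lit 1797) (nat_lit 119) (.e (nat_lit 516120) (nat_lit 1) (.e (nat_lit 164183) (nat_lit 154) .nil))) .nil))) (.nd (nat_lit 5) 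
(.lf (nat_lit 76628) (.g (nat_lit 2884) (.e (nat_lit 1797) (nat_lit 119) (.e (nat_lit 516115) (nat_lit 1) (.e (nat_lit 164399) (nat_lit 256) (.e (nat_lit 57373) (nat_lit 2) (.e (nat_lit 90172) (nat_lit 14) (.e (nat_lit 180244) (nat_lit 5) (.e (nat_lit 532513) (nat_lit 3) (.e (nat_lit 114700) (nat_lit 20) .nil)))))))) (.g (nat_lit 5) .nil .nil))) 
(.lf (nat_lit 76660) (.g (nat_lit 4316) (.e (nat_lit 1797) (nat_lit 119) (.e (nat_lit 516166) (nat_lit 12) (.e (nat_lit 450587) (nat_lit 10) (.e (nat_lit 573454) (nat_lit 9) .nil)))) .nil)))) (.nd (nat_lit 4) (.nd (nat_lit 5) 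
(.lf (nat_lit 76620) (.g (nat_lit 1202) (.e (nat_lit 1796) (nat_lit 119) (.e (nat_lit 524032) (nat_lit 29) (.e (nat_lit 360467) (nat_lit 3) (.e (nat_lit 516179) (nat_lit 15) (.e (nat_lit 475214) (nat_lit 42) (.e (nat_lit 728832) (nat_lit 20) .nil)))))) (.g (nat_lit 5) .nil .nil))) 
(.lf (nat_lit 76652) (.g (nat_lit 2392) (.e (nat_lit 1797) (nat_lit 119) (.e (nat_lit 516151) (nat_lit 9) (.e (nat_lit 426170) (nat_lit 7) (.e (nat_lit 409631) (nat_lit 12) .nil)))) .nil))) (.nd (nat_lit 5) 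
(.lf (nat_lit 76636) (.g (nat_lit 2323) (.e (nat_lit 1797) (nat_lit 119) (.e (nat_lit 516115) (nat_lit 1) (.e (nat_lit 164399) (nat_lit 256) (.e (nat_lit 57378) (nat_lit 3) (.e (nat_lit 98376) (nat_lit 30) (.e (nat_lit 458789) (nat_lit 23) (.e (nat_lit 532515) (nat_lit 3) (.e (nat_lit 114702) (nat_lit 20) .nil)))))))) (.g (nat_lit 4) .nil .nil))) 
(.lf (nat_lit 76668) (.g (nat_lit 5259) (.e (nat_lit 1797) (nat_lit 119) (.e (nat_lit 516166) (nat_lit 12) (.e (nat_lit 450587) (nat_lit 10) (.e (nat_lit 573478) (nat_lit 12) (.e (nat_lit 57574) (nat_lit 55) (.e (nat_lit 778466) (nat_lit 11) (.e (nat_lit 24577) (nat_lit 0) .nil))))))) (.g (nat_lit 5) .nil .nil))))))) (.nd (nat_lit 2) (.nd (nat_lit 3) (.nd (nat_lit 4) (.nd (nat_lit 5) 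
(.lf (nat_lit 76610) (.g (nat_lit 2254) (.e (nat_lit 1796) (nat_lit 119) (.e (nat_lit 516195) (nat_lit 26) (.e (nat_lit 336027) (nat_lit 3) (.e (nat_lit 98317) (nat_lit 9) (.e (nat_lit 336027) (nat_lit 3) (.e (nat_lit 98315) (nat_lit 9) (.e (nat_lit 335957) (nat_lit 0) .nil))))))) (.g (nat_lit 5) .nil .nil))) 
(.lf (nat_lit 76642) (.g (nat_lit 3468) (.e (nat_lit 1797) (nat_lit 119) (.e (nat_lit 516119) (nat_lit 1) (.e (nat_lit 164403) (nat_lit 256) (.e (nat_lit 57373) (nat_lit 2) (.e (nat_lit 90172) (nat_lit 14) (.e (nat_lit 180244) (nat_lit 5) (.e (nat_lit 532515) (nat_lit 3) (.e (nat_lit 114702) (nat_lit 20) .nil)))))))) (.g (nat_lit 5) .nil .nil)))) (.nd (nat_lit 5) 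
(.lf (nat_lit 76626) (.g (nat_lit 2195) (.e (nat_lit 1797) (nat_lit 119) (.e (nat_lit 516115) (nat_lit 1) (.e (nat_lit 164399) (nat_lit 256) (.e (nat_lit 57372) (nat_lit 2) (.e (nat_lit 90174) (nat_lit 14) (.e (nat_lit 180243) (nat_lit 5) (.e (nat_lit 532513) (nat_lit 3) (.e (nat_lit 114701) (nat_lit 20) .nil)))))))) (.g (nat_lit 4) .nil .nil))) 
(.lf (nat_lit 76658) (.g (nat_lit 2152) (.e (nat_lit 1797) (nat_lit 119) (.e (nat_lit 516151) (nat_lit 9) (.e (nat_lit 426286) (nat_lit 10) .nil))) .nil)))) (.nd (nat_lit 4) (.nd (nat_lit 5) 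
(.lf (nat_lit 76618) (.g (nat_lit 1248) (.e (nat_lit 1796) (nat_lit 119) (.e (nat_lit 524032) (nat_lit 29) (.e (nat_lit 360466) (nat_lit 3) (.e (nat_lit 516179) (nat_lit 15) (.e (nat_lit 475214) (nat_lit 42) (.e (nat_lit 728832) (nat_lit 20) .nil)))))) (.g (nat_lit 5) .nil .nil))) 
(.lf (nat_lit 76650) (.g (nat_lit 2035) (.e (nat_lit 1797) (nat_lit 119) (.e (nat_lit 516131) (nat_lit 3) (.e (nat_lit 221212) (nat_lit 22) (.e (nat_lit 196668) (nat_lit 14) (.e (nat_lit 73747) (nat_lit 3) .nil))))) .nil))) (.nd (nat_lit 5) 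
(.lf (nat_lit 76634) (.g (nat_lit 2056) (.e (nat_lit 1797) (nat_lit 119) (.e (nat_lit 516115) (nat_lit 1) (.e (nat_lit 164399) (nat_lit 256) (.e (nat_lit 57375) (nat_lit 2) (.e (nat_lit 90174) (nat_lit 14) (.e (nat_lit 180243) (nat_lit 5) (.e (nat_lit 532515) (nat_lit 3) (.e (nat_lit 114702) (nat_lit 20) .nil)))))))) (.g (nat_lit 4) .nil .nil))) 
(.lf (nat_lit 76666) (.g (nat_lit 4198) (.e (nat_lit 1797) (nat_lit 119) (.e (nat_lit 516166) (nat_lit 12) (.e (nat_lit 450587) (nat_lit 10) (.e (nat_lit 573478) (nat_lit 12) .nil)))) .nil))))) (.nd (nat_lit 3) (.nd (nat_lit 4) (.nd (nat_lit 5) 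
(.lf (nat_lit 76614) (.g (nat_lit 2524) (.e (nat_lit 1796) (nat_lit 119) (.e (nat_lit 516199) (nat_lit 26) (.e (nat_lit 336021) (nat_lit 3) (.e (nat_lit 98313) (nat_lit 9) (.e (nat_lit 336027) (nat_lit 3) (.e (nat_lit 98315) (nat_lit 9) (.e (nat_lit 335957) (nat_lit 0) .nil))))))) (.g (nat_lit 4) .nil .nil))) 
(.lf (nat_lit 76646) (.g (nat_lit 2629) (.e (nat_lit 1797) (nat_lit 119) (.e (nat_lit 516120) (nat_lit 1) (.e (nat_lit 164329) (nat_lit 230) (.e (nat_lit 163902) (nat_lit 12) (.e (nat_lit 426568) (nat_lit 34) (.e (nat_lit 393267) (nat_lit 23) (.e (nat_lit 426361) (nat_lit 15) .nil))))))) (.g (nat_lit 4) .nil .nil)))) (.nd (nat_lit 5) 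
(.lf (nat_lit 76630) (.g (nat_lit 2831) (.e (nat_lit 1797) (nat_lit 119) (.e (nat_lit 516115) (nat_lit 1) (.e (nat_lit 164399) (nat_lit 256) (.e (nat_lit 57373) (nat_lit 2) (.e (nat_lit 90172) (nat_lit 14) (.e (nat_lit 180244) (nat_lit 5) (.e (nat_lit 532515) (nat_lit 3) (.e (nat_lit 114701) (nat_lit 20) .nil)))))))) (.g (nat_lit 5) .nil .nil))) 
(.lf (nat_lit 76662) (.g (nat_lit 4064) (.e (nat_lit 1797) (nat_lit 119) (.e (nat_lit 516166) (nat_lit 12) (.e (nat_lit 450587) (nat_lit 10) (.e (nat_lit 573457) (nat_lit 9) .nil)))) .nil)))) (.nd (nat_lit 4) (.nd (nat_lit 5) 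
(.lf (nat_lit 76622) (.g (nat_lit 2127) (.e (nat_lit 1797) (nat_lit 119) (.e (nat_lit 516115) (nat_lit 1) (.e (nat_lit 164398) (nat_lit 256) (.e (nat_lit 57373) (nat_lit 2) (.e (nat_lit 90174) (nat_lit 14) (.e (nat_lit 180243) (nat_lit 5) (.e (nat_lit 532515) (nat_lit 3) (.e (nat_lit 114702) (nat_lit 20) .nil)))))))) (.g (nat_lit 4) .nil .nil))) 
(.lf (nat_lit 76654) (.g (nat_lit 3052) (.e (nat_lit 1797) (nat_lit 119) (.e (nat_lit 516151) (nat_lit 9) (.e (nat_lit 426211) (nat_lit 9) (.e (nat_lit 426140) (nat_lit 3) .nil)))) .nil))) (.nd (nat_lit 5) 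
(.lf (nat_lit 76638) (.g (nat_lit 2150) (.e (nat_lit 1797) (nat_lit 119) (.e (nat_lit 516117) (nat_lit 1) (.e (nat_lit 164329) (nat_lit 230) (.e (nat_lit 163902) (nat_lit 12) .nil)))) .nil)) 
(.lf (nat_lit 76670) (.g (nat_lit 4874) (.e (nat_lit 1797) (nat_lit 119) (.e (nat_lit 516166) (nat_lit 12) (.e (nat_lit 450588) (nat_lit 10) (.e (nat_lit 573452) (nat_lit 9) .nil)))) .nil))))))) (.nd (nat_lit 1) (.nd (nat_lit 2) (.nd (nat_lit 3) (.nd (nat_lit 4) (.nd (nat_lit 5) 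
(.lf (nat_lit 76609) (.g (nat_lit 2635) (.e (nat_lit 1796) (nat_lit 119) (.e (nat_lit 516195) (nat_lit 26) (.e (nat_lit 336027) (nat_lit 3) (.e (nat_lit 98317) (nat_lit 9) (.e (nat_lit 336021) (nat_lit 3) (.e (nat_lit 98315) (nat_lit 9) (.e (nat_lit 335959) (nat_lit 0) .nil))))))) (.g (nat_lit 0) .nil .nil))) 
(.lf (nat_lit 76641) (.g (nat_lit 2391) (.e (nat_lit 1797) (nat_lit 119) (.e (nat_lit 516119) (nat_lit 1) (.e (nat_lit 164403) (nat_lit 256) (.e (nat_lit 57371) (nat_lit 2) (.e (nat_lit 90172) (nat_lit 14) (.e (nat_lit 180244) (nat_lit 5) (.e (nat_lit 532515) (nat_lit 3) (.e (nat_lit 114701) (nat_lit 20) .nil)))))))) (.g (nat_lit 4) .nil .nil)))) (.nd (nat_lit 5) 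
(.lf (nat_lit 76625) (.g (nat_lit 2206) (.e (nat_lit 1797) (nat_lit 119) (.e (nat_lit 516115) (nat_lit 1) (.e (nat_lit 164399) (nat_lit 256) (.e (nat_lit 57372) (nat_lit 2) (.e (nat_lit 90172) (nat_lit 14) (.e (nat_lit 180244) (nat_lit 5) (.e (nat_lit 532513) (nat_lit 3) (.e (nat_lit 114701) (nat_lit 20) .nil)))))))) (.g (nat_lit 4) .nil .nil))) 
(.lf (nat_lit 76657) (.g (nat_lit 6464) (.e (nat_lit 1797) (nat_lit 119) (.e (nat_lit 516151) (nat_lit 9) (.e (nat_lit 426285) (nat_lit 10) (.e (nat_lit 434238) (nat_lit 25) (.e (nat_lit 548913) (nat_lit 18) (.e (nat_lit 172126) (nat_lit 14) (.e (nat_lit 491524) (nat_lit 0) .nil))))))) (.g (nat_lit 6) .nil .nil))))) (.nd (nat_lit 4) (.nd (nat_lit 5) 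
(.lf (nat_lit 76617) (.g (nat_lit 1331) (.e (nat_lit 1796) (nat_lit 119) (.e (nat_lit 524032) (nat_lit 29) (.e (nat_lit 360466) (nat_lit 3) (.e (nat_lit 516146) (nat_lit 9) (.e (nat_lit 426448) (nat_lit 20) (.e (nat_lit 122624) (nat_lit 20) .nil)))))) (.g (nat_lit 5) .nil .nil))) 
(.lf (nat_lit 76649) (.g (nat_lit 2462) (.e (nat_lit 1797) (nat_lit 119) (.e (nat_lit 516120) (nat_lit 1) (.e (nat_lit 164401) (nat_lit 256) (.e (nat_lit 57373) (nat_lit 2) (.e (nat_lit 90174) (nat_lit 14) .nil))))) .nil))) (.nd (nat_lit 5) 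
(.lf (nat_lit 76633) (.g (nat_lit 3011) (.e (nat_lit 1797) (nat_lit 119) (.e (nat_lit 516115) (nat_lit 1) (.e (nat_lit 164399) (nat_lit 256) (.e (nat_lit 57375) (nat_lit 2) (.e (nat_lit 90172) (nat_lit 14) (.e (nat_lit 180244) (nat_lit 5) (.e (nat_lit 532515) (nat_lit 3) (.e (nat_lit 114702) (nat_lit 20) .nil)))))))) (.g (nat_lit 5) .nil .nil))) 
(.lf (nat_lit 76665) (.g (nat_lit 4853) (.e (nat_lit 1797) (nat_lit 119) (.e (nat_lit 516166) (nat_lit 12) (.e (nat_lit 450587) (nat_lit 10) (.e (nat_lit 573477) (nat_lit 12) (.e (nat_lit 57574) (nat_lit 55) .nil))))) .nil))))) (.nd (nat_lit 3) (.nd (nat_lit 4) (.nd (nat_lit 5) 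
(.lf (nat_lit 76613) (.g (nat_lit 2251) (.e (nat_lit 1796) (nat_lit 119) (.e (nat_lit 516199) (nat_lit 26) (.e (nat_lit 336021) (nat_lit 3) (.e (nat_lit 98313) (nat_lit 9) (.e (nat_lit 336021) (nat_lit 3) (.e (nat_lit 98315) (nat_lit 9) (.e (nat_lit 335959) (nat_lit 0) .nil))))))) (.g (nat_lit 4) .nil .nil))) 
(.lf (nat_lit 76645) (.g (nat_lit 2561) (.e (nat_lit 1797) (nat_lit 119) (.e (nat_lit 516120) (nat_lit 1) (.e (nat_lit 164329) (nat_lit 230) (.e (nat_lit 163902) (nat_lit 12) (.e (nat_lit 426568) (nat_lit 34) .nil))))) .nil))) (.nd (nat_lit 5) 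
(.lf (nat_lit 76629) (.g (nat_lit 2266) (.e (nat_lit 1797) (nat_lit 119) (.e (nat_lit 516115) (nat_lit 1) (.e (nat_lit 164399) (nat_lit 256) (.e (nat_lit 57373) (nat_lit 2) (.e (nat_lit 90172) (nat_lit 14) (.e (nat_lit 180244) (nat_lit 5) (.e (nat_lit 532513) (nat_lit 3) (.e (nat_lit 114701) (nat_lit 20) .nil)))))))) (.g (nat_lit 4) .nil .nil))) 
(.lf (nat_lit 76661) (.g (nat_lit 4090) (.e (nat_lit 1797) (nat_lit 119) (.e (nat_lit 516166) (nat_lit 12) (.e (nat_lit 450587) (nat_lit 10) (.e (nat_lit 573456) (nat_lit 9) .nil)))) .nil)))) (.nd (nat_lit 4) (.nd (nat_lit 5) 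
(.lf (nat_lit 76621) (.g (nat_lit 2365) (.e (nat_lit 1797) (nat_lit 119) (.e (nat_lit 516115) (nat_lit 1) (.e (nat_lit 164398) (nat_lit 256) (.e (nat_lit 57373) (nat_lit 2) (.e (nat_lit 90174) (nat_lit 14) (.e (nat_lit 180243) (nat_lit 5) (.e (nat_lit 532513) (nat_lit 3) (.e (nat_lit 114700) (nat_lit 20) .nil)))))))) (.g (nat_lit 4) .nil .nil))) 
(.lf (nat_lit 76653) (.g (nat_lit 3006) (.e (nat_lit 1797) (nat_lit 119) (.e (nat_lit 516151) (nat_lit 9) (.e (nat_lit 426211) (nat_lit 9) (.e (nat_lit 426125) (nat_lit 2) .nil)))) .nil))) (.nd (nat_lit 5) 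
(.lf (nat_lit 76637) (.g (nat_lit 2005) (.e (nat_lit 1797) (nat_lit 119) (.e (nat_lit 516115) (nat_lit 1) (.e (nat_lit 164399) (nat_lit 256) (.e (nat_lit 57379) (nat_lit 3) (.e (nat_lit 98376) (nat_lit 30) (.e (nat_lit 458789) (nat_lit 23) (.e (nat_lit 532515) (nat_lit 3) (.e (nat_lit 114702) (nat_lit 20) .nil)))))))) (.g (nat_lit 4) .nil .nil))) 
(.lf (nat_lit 76669) (.g (nat_lit 4676) (.e (nat_lit 1797) (nat_lit 119) (.e (nat_lit 516166) (nat_lit 12) (.e (nat_lit 450587) (nat_lit 10) (.e (nat_lit 573478) (nat_lit 12) (.e (nat_lit 57574) (nat_lit 55) (.e (nat_lit 778466) (nat_lit 11) (.e (nat_lit 24582) (nat_lit 0) .nil))))))) (.g (nat_lit 4) .nil .nil))))))) (.nd (nat_lit 2) (.nd (nat_lit 3) (.nd (nat_lit 4) (.nd (nat_lit 5) 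
(.lf (nat_lit 76611) (.g (nat_lit 2433) (.e (nat_lit 1796) (nat_lit 119) (.e (nat_lit 516195) (nat_lit 26) (.e (nat_lit 336027) (nat_lit 3) (.e (nat_lit 98317) (nat_lit 9) (.e (nat_lit 336027) (nat_lit 3) (.e (nat_lit 98315) (nat_lit 9) (.e (nat_lit 335958) (nat_lit 0) .nil))))))) (.g (nat_lit 6) .nil .nil))) 
(.lf (nat_lit 76643) (.g (nat_lit 2805) (.e (nat_lit 1797) (nat_lit 119) (.e (nat_lit 516119) (nat_lit 1) (.e (nat_lit 164403) (nat_lit 256) (.e (nat_lit 57377) (nat_lit 3) (.e (nat_lit 98357) (nat_lit 26) .nil))))) .nil))) (.nd (nat_lit 5) 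
(.lf (nat_lit 76627) (.g (nat_lit 2162) (.e (nat_lit 1797) (nat_lit 119) (.e (nat_lit 516115) (nat_lit 1) (.e (nat_lit 164399) (nat_lit 256) (.e (nat_lit 57372) (nat_lit 2) (.e (nat_lit 90174) (nat_lit 14) (.e (nat_lit 180243) (nat_lit 5) (.e (nat_lit 532515) (nat_lit 3) (.e (nat_lit 114701) (nat_lit 20) .nil)))))))) (.g (nat_lit 4) .nil .nil))) 
(.lf (nat_lit 76659) (.g (nat_lit 3349) (.e (nat_lit 1797) (nat_lit 119) (.e (nat_lit 516151) (nat_lit 9) (.e (nat_lit 426338) (nat_lit 14) (.e (nat_lit 491537) (nat_lit 2) (.e (nat_lit 90170) (nat_lit 13) .nil))))) .nil)))) (.nd (nat_lit 4) (.nd (nat_lit 5) 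
(.lf (nat_lit 76619) (.g (nat_lit 1459) (.e (nat_lit 1796) (nat_lit 119) (.e (nat_lit 524032) (nat_lit 29) (.e (nat_lit 360467) (nat_lit 3) (.e (nat_lit 516146) (nat_lit 9) (.e (nat_lit 426448) (nat_lit 20) (.e (nat_lit 122624) (nat_lit 20) .nil)))))) (.g (nat_lit 5) .nil .nil))) 
(.lf (nat_lit 76651) (.g (nat_lit 1735) (.e (nat_lit 1797) (nat_lit 119) (.e (nat_lit 516139) (nat_lit 7) (.e (nat_lit 409648) (nat_lit 18) (.e (nat_lit 303118) (nat_lit 3) .nil)))) .nil))) (.nd (nat_lit 5) 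
(.lf (nat_lit 76635) (.g (nat_lit 2690) (.e (nat_lit 1797) (nat_lit 119) (.e (nat_lit 516115) (nat_lit 1) (.e (nat_lit 164399) (nat_lit 256) (.e (nat_lit 57377) (nat_lit 3) (.e (nat_lit 98357) (nat_lit 26) (.e (nat_lit 426131) (nat_lit 3) (.e (nat_lit 204838) (nat_lit 20) (.e (nat_lit 114702) (nat_lit 20) .nil)))))))) (.g (nat_lit 4) .nil .nil))) 
(.lf (nat_lit 76667) (.g (nat_lit 4668) (.e (nat_lit 1797) (nat_lit 119) (.e (nat_lit 516166) (nat_lit 12) (.e (nat_lit 450587) (nat_lit 10) (.e (nat_lit 573478) (nat_lit 12) (.e (nat_lit 57574) (nat_lit 55) .nil))))) .nil))))) (.nd (nat_lit 3) (.nd (nat_lit 4) (.nd (nat_lit 5) 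
(.lf (nat_lit 76615) (.g (nat_lit 2717) (.e (nat_lit 1796) (nat_lit 119) (.e (nat_lit 516199) (nat_lit 26) (.e (nat_lit 336021) (nat_lit 3) (.e (nat_lit 98313) (nat_lit 9) (.e (nat_lit 336027) (nat_lit 3) (.e (nat_lit 98315) (nat_lit 9) (.e (nat_lit 335958) (nat_lit 0) .nil))))))) (.g (nat_lit 4) .nil .nil))) 
(.lf (nat_lit 76647) (.g (nat_lit 2228) (.e (nat_lit 1797) (nat_lit 119) (.e (nat_lit 516120) (nat_lit 1) (.e (nat_lit 164329) (nat_lit 230) (.e (nat_lit 163904) (nat_lit 12) .nil)))) .nil))) (.nd (nat_lit 5) 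
(.lf (nat_lit 76631) (.g (nat_lit 2040) (.e (nat_lit 1797) (nat_lit 119) (.e (nat_lit 516115) (nat_lit 1) (.e (nat_lit 164399) (nat_lit 256) (.e (nat_lit 57373) (nat_lit 2) (.e (nat_lit 90174) (nat_lit 14) (.e (nat_lit 180243) (nat_lit 5) (.e (nat_lit 532515) (nat_lit 3) (.e (nat_lit 114700) (nat_lit 20) .nil)))))))) (.g (nat_lit 4) .nil .nil))) 
(.lf (nat_lit 76663) (.g (nat_lit 4403) (.e (nat_lit 1797) (nat_lit 119) (.e (nat_lit 516166) (nat_lit 12) (.e (nat_lit 450587) (nat_lit 10) (.e (nat_lit 573469) (nat_lit 11) .nil)))) .nil)))) (.nd (nat_lit 4) (.nd (nat_lit 5) 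
(.lf (nat_lit 76623) (.g (nat_lit 1974) (.e (nat_lit 1797) (nat_lit 119) (.e (nat_lit 516115) (nat_lit 1) (.e (nat_lit 164399) (nat_lit 256) (.e (nat_lit 57370) (nat_lit 2) (.e (nat_lit 90172) (nat_lit 14) (.e (nat_lit 180244) (nat_lit 5) (.e (nat_lit 532515) (nat_lit 3) (.e (nat_lit 114702) (nat_lit 20) .nil)))))))) (.g (nat_lit 4) .nil .nil))) 
(.lf (nat_lit 76655) (.g (nat_lit 3919) (.e (nat_lit 1797) (nat_lit 119) (.e (nat_lit 516151) (nat_lit 9) (.e (nat_lit 426211) (nat_lit 9) (.e (nat_lit 426140) (nat_lit 3) (.e (nat_lit 204821) (nat_lit 17) .nil))))) .nil))) (.nd (nat_lit 5) 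
(.lf (nat_lit 76639) (.g (nat_lit 2773) (.e (nat_lit 1797) (nat_lit 119) (.e (nat_lit 516117) (nat_lit 1) (.e (nat_lit 164329) (nat_lit 230) (.e (nat_lit 163902) (nat_lit 12) (.e (nat_lit 426568) (nat_lit 34) (.e (nat_lit 393271) (nat_lit 23) (.e (nat_lit 426361) (nat_lit 15) .nil))))))) (.g (nat_lit 4) .nil .nil))) 
(.lf (nat_lit 76671) (.g (nat_lit 4610) (.e (nat_lit 1797) (nat_lit 119) (.e (nat_lit 516166) (nat_lit 12) (.e (nat_lit 450588) (nat_lit 10) (.e (nat_lit 573469) (nat_lit 11) .nil)))) .nil))))))))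

noncomputable def tv1036 : DT := (.nd (nat_lit 0) (.nd (nat_lit 1) (.nd (nat_lit 2) (.nd (nat_lit 3) (.nd (nat_lit 4) (.nd (nat_lit 5) 
(.lf (nat_lit 76672) (.g (nat_lit 4890) (.e (nat_lit 1797) (nat_lit 119) (.e (nat_lit 516166) (nat_lit 12) (.e (nat_lit 450588) (nat_lit 10) (.e (nat_lit 573470) (nat_lit 11) .nil)))) .nil)) 
(.lf (nat_lit 76704) (.g (nat_lit 2555) (.e (nat_lit 1798) (nat_lit 119) (.e (nat_lit 516119) (nat_lit 1) (.e (nat_lit 164403) (nat_lit 256) (.e (nat_lit 57371) (nat_lit 2) (.e (nat_lit 90174) (nat_lit 14) (.e (nat_lit 180243) (nat_lit 5) (.e (nat_lit 532513) (nat_lit 3) (.e (nat_lit 114704) (nat_lit 20) .nil)))))))) (.g (nat_lit 4) .nil .nil)))) (.nd (nat_lit 5) 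
(.lf (nat_lit 76688) (.g (nat_lit 694) (.e (nat_lit 1798) (nat_lit 119) (.e (nat_lit 516117) (nat_lit 1) (.e (nat_lit 164330) (nat_lit 230) .nil))) .nil)) 
(.lf (nat_lit 76720) (.g (nat_lit 1705) (.e (nat_lit 1798) (nat_lit 119) (.e (nat_lit 516120) (nat_lit 1) (.e (nat_lit 164330) (nat_lit 230) (.e (nat_lit 163915) (nat_lit 12) .nil)))) .nil)))) (.nd (nat_lit 4) (.nd (nat_lit 5) 
(.lf (nat_lit 76680) (.g (nat_lit 2373) (.e (nat_lit 1798) (nat_lit 119) (.e (nat_lit 516117) (nat_lit 1) (.e (nat_lit 164329) (nat_lit 230) (.e (nat_lit 163902) (nat_lit 12) (.e (nat_lit 426479) (nat_lit 27) (.e (nat_lit 336430) (nat_lit 29) (.e (nat_lit 442378) (nat_lit 0) .nil))))))) (.g (nat_lit 6) .nil .nil))) 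
(.lf (nat_lit 76712) (.g (nat_lit 2445) (.e (nat_lit 1798) (nat_lit 119) (.e (nat_lit 516120) (nat_lit 1) (.e (nat_lit 164329) (nat_lit 230) (.e (nat_lit 163902) (nat_lit 12) (.e (nat_lit 426568) (nat_lit 34) (.e (nat_lit 393267) (nat_lit 23) (.e (nat_lit 426362) (nat_lit 15) .nil))))))) (.g (nat_lit 5) .nil .nil)))) (.nd (nat_lit 5) 
(.lf (nat_lit 76696) (.g (nat_lit 1595) (.e (nat_lit 1798) (nat_lit 119) (.e (nat_lit 516118) (nat_lit 1) (.e (nat_lit 164183) (nat_lit 154) (.e (nat_lit 57447) (nat_lit 19) (.e (nat_lit 401152) (nat_lit 11) (.e (nat_lit 352296) (nat_lit 20) .nil)))))) (.g (nat_lit 4) .nil .nil))) 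
(.lf (nat_lit 76728) (.g (nat_lit 1493) (.e (nat_lit 1798) (nat_lit 119) (.e (nat_lit 516126) (nat_lit 2) (.e (nat_lit 213030) (nat_lit 11) (.e (nat_lit 24604) (nat_lit 2) (.e (nat_lit 90176) (nat_lit 15) (.e (nat_lit 188420) (nat_lit 0) .nil)))))) (.g (nat_lit 4) .nil .nil)))))) (.nd (nat_lit 3) (.nd (nat_lit 4) (.nd (nat_lit 5) 
(.lf (nat_lit 76676) (.g (nat_lit 4884) (.e (nat_lit 1797) (nat_lit 119) (.e (nat_lit 516166) (nat_lit 12) (.e (nat_lit 450588) (nat_lit 10) (.e (nat_lit 573475) (nat_lit 12) (.e (nat_lit 57574) (nat_lit 55) .nil))))) .nil)) 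
(.lf (nat_lit 76708) (.g (nat_lit 1668) (.e (nat_lit 1798) (nat_lit 119) (.e (nat_lit 516120) (nat_lit 1) (.e (nat_lit 164183) (nat_lit 154) (.e (nat_lit 57448) (nat_lit 19) .nil)))) .nil))) (.nd (nat_lit 5) 
(.lf (nat_lit 76692) (.g (nat_lit 2413) (.e (nat_lit 1798) (nat_lit 119) (.e (nat_lit 516117) (nat_lit 1) (.e (nat_lit 164330) (nat_lit 230) (.e (nat_lit 163913) (nat_lit 12) (.e (nat_lit 433920) (nat_lit 34) .nil))))) .nil)) 
(.lf (nat_lit 76724) (.g (nat_lit 2187) (.e (nat_lit 1798) (nat_lit 119) (.e (nat_lit 516124) (nat_lit 2) (.e (nat_lit 213032) (nat_lit 11) (.e (nat_lit 24604) (nat_lit 2) (.e (nat_lit 90176) (nat_lit 15) (.e (nat_lit 188420) (nat_lit 0) .nil)))))) (.g (nat_lit 5) .nil .nil))))) (.nd (nat_lit 4) (.nd (nat_lit 5) 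
(.lf (nat_lit 76684) (.g (nat_lit 2468) (.e (nat_lit 1798) (nat_lit 119) (.e (nat_lit 516117) (nat_lit 1) (.e (nat_lit 164329) (nat_lit 230) (.e (nat_lit 163902) (nat_lit 12) (.e (nat_lit 426568) (nat_lit 34) (.e (nat_lit 393267) (nat_lit 23) (.e (nat_lit 426363) (nat_lit 15) .nil))))))) (.g (nat_lit 5) .nil .nil))) 
(.lf (nat_lit 76716) (.g (nat_lit 2767) (.e (nat_lit 1798) (nat_lit 119) (.e (nat_lit 516120) (nat_lit 1) (.e (nat_lit 164329) (nat_lit 230) (.e (nat_lit 163902) (nat_lit 12) (.e (nat_lit 426568) (nat_lit 34) (.e (nat_lit 393281) (nat_lit 23) (.e (nat_lit 426410) (nat_lit 15) .nil))))))) (.g (nat_lit 6) .nil .nil)))) (.nd (nat_lit 5) 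
(.lf (nat_lit 76700) (.g (nat_lit 3011) (.e (nat_lit 1798) (nat_lit 119) (.e (nat_lit 516119) (nat_lit 1) (.e (nat_lit 164325) (nat_lit 230) (.e (nat_lit 163903) (nat_lit 12) (.e (nat_lit 426566) (nat_lit 34) (.e (nat_lit 393273) (nat_lit 23) (.e (nat_lit 426364) (nat_lit 15) .nil))))))) (.g (nat_lit 5) .nil .nil))) 
(.lf (nat_lit 76732) (.g (nat_lit 2415) (.e (nat_lit 1798) (nat_lit 119) (.e (nat_lit 516126) (nat_lit 2) (.e (nat_lit 213032) (nat_lit 11) (.e (nat_lit 24604) (nat_lit 2) (.e (nat_lit 90176) (nat_lit 15) (.e (nat_lit 188420) (nat_lit 0) .nil)))))) (.g (nat_lit 6) .nil .nil))))))) (.nd (nat_lit 2) (.nd (nat_lit 3) (.nd (nat_lit 4) (.nd (nat_lit 5) 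
(.lf (nat_lit 76674) (.g (nat_lit 7205) (.e (nat_lit 1797) (nat_lit 119) (.e (nat_lit 516166) (nat_lit 12) (.e (nat_lit 450588) (nat_lit 10) (.e (nat_lit 573474) (nat_lit 12) .nil)))) .nil)) 
(.lf (nat_lit 76706) (.g (nat_lit 2591) (.e (nat_lit 1798) (nat_lit 119) (.e (nat_lit 516119) (nat_lit 1) (.e (nat_lit 164403) (nat_lit 256) (.e (nat_lit 57373) (nat_lit 2) (.e (nat_lit 90174) (nat_lit 14) (.e (nat_lit 180243) (nat_lit 5) (.e (nat_lit 532513) (nat_lit 3) (.e (nat_lit 114699) (nat_lit 20) .nil)))))))) (.g (nat_lit 4) .nil .nil)))) (.nd (nat_lit 5) 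
(.lf (nat_lit 76690) (.g (nat_lit 2141) (.e (nat_lit 1798) (nat_lit 119) (.e (nat_lit 516117) (nat_lit 1) (.e (nat_lit 164330) (nat_lit 230) (.e (nat_lit 163905) (nat_lit 12) (.e (nat_lit 426566) (nat_lit 34) .nil))))) .nil)) 
(.lf (nat_lit 76722) (.g (nat_lit 1394) (.e (nat_lit 1798) (nat_lit 119) (.e (nat_lit 516124) (nat_lit 2) (.e (nat_lit 213030) (nat_lit 11) (.e (nat_lit 24605) (nat_lit 2) (.e (nat_lit 90176) (nat_lit 15) (.e (nat_lit 188420) (nat_lit 0) .nil)))))) (.g (nat_lit 5) .nil .nil))))) (.nd (nat_lit 4) (.nd (nat_lit 5) 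
(.lf (nat_lit 76682) (.g (nat_lit 1630) (.e (nat_lit 1798) (nat_lit 119) (.e (nat_lit 516117) (nat_lit 1) (.e (nat_lit 164329) (nat_lit 230) (.e (nat_lit 163902) (nat_lit 12) (.e (nat_lit 426568) (nat_lit 34) (.e (nat_lit 393267) (nat_lit 23) (.e (nat_lit 426360) (nat_lit 15) .nil))))))) (.g (nat_lit 4) .nil .nil))) 
(.lf (nat_lit 76714) (.g (nat_lit 1680) (.e (nat_lit 1798) (nat_lit 119) (.e (nat_lit 516120) (nat_lit 1) (.e (nat_lit 164329) (nat_lit 230) (.e (nat_lit 163902) (nat_lit 12) (.e (nat_lit 426568) (nat_lit 34) (.e (nat_lit 393275) (nat_lit 23) (.e (nat_lit 426410) (nat_lit 15) .nil))))))) (.g (nat_lit 4) .nil .nil)))) (.nd (nat_lit 5) 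
(.lf (nat_lit 76698) (.g (nat_lit 1991) (.e (nat_lit 1798) (nat_lit 119) (.e (nat_lit 516119) (nat_lit 1) (.e (nat_lit 164179) (nat_lit 154) (.e (nat_lit 57445) (nat_lit 19) (.e (nat_lit 401152) (nat_lit 11) .nil))))) .nil)) 
(.lf (nat_lit 76730) (.g (nat_lit 1125) (.e (nat_lit 1798) (nat_lit 119) (.e (nat_lit 516126) (nat_lit 2) (.e (nat_lit 213030) (nat_lit 11) (.e (nat_lit 24605) (nat_lit 2) (.e (nat_lit 90176) (nat_lit 15) (.e (nat_lit 188420) (nat_lit 0) .nil)))))) (.g (nat_lit 4) .nil .nil)))))) (.nd (nat_lit 3) (.nd (nat_lit 4) (.nd (nat_lit 5) 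
(.lf (nat_lit 76678) (.g (nat_lit 3099) (.e (nat_lit 1798) (nat_lit 119) (.e (nat_lit 516115) (nat_lit 1) (.e (nat_lit 164325) (nat_lit 230) (.e (nat_lit 163906) (nat_lit 12) (.e (nat_lit 426566) (nat_lit 34) (.e (nat_lit 393273) (nat_lit 23) (.e (nat_lit 426364) (nat_lit 15) .nil))))))) (.g (nat_lit 4) .nil .nil))) 
(.lf (nat_lit 76710) (.g (nat_lit 3332) (.e (nat_lit 1798) (nat_lit 119) (.e (nat_lit 516120) (nat_lit 1) (.e (nat_lit 164329) (nat_lit 230) (.e (nat_lit 163902) (nat_lit 12) (.e (nat_lit 426479) (nat_lit 27) (.e (nat_lit 336430) (nat_lit 29) (.e (nat_lit 442379) (nat_lit 0) .nil))))))) (.g (nat_lit 0) .nil .nil)))) (.nd (nat_lit 5) 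
(.lf (nat_lit 76694) (.g (nat_lit 1524) (.e (nat_lit 1798) (nat_lit 119) (.e (nat_lit 516118) (nat_lit 1) (.e (nat_lit 164179) (nat_lit 154) (.e (nat_lit 57446) (nat_lit 19) (.e (nat_lit 401152) (nat_lit 11) .nil))))) .nil)) 
(.lf (nat_lit 76726) (.g (nat_lit 1663) (.e (nat_lit 1798) (nat_lit 119) (.e (nat_lit 516124) (nat_lit 2) (.e (nat_lit 213032) (nat_lit 11) (.e (nat_lit 24608) (nat_lit 3) (.e (nat_lit 98380) (nat_lit 31) (.e (nat_lit 466947) (nat_lit 0) .nil)))))) (.g (nat_lit 4) .nil .nil))))) (.nd (nat_lit 4) (.nd (nat_lit 5) 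
(.lf (nat_lit 76686) (.g (nat_lit 1651) (.e (nat_lit 1798) (nat_lit 119) (.e (nat_lit 516117) (nat_lit 1) (.e (nat_lit 164329) (nat_lit 230) (.e (nat_lit 163902) (nat_lit 12) (.e (nat_lit 426568) (nat_lit 34) (.e (nat_lit 393275) (nat_lit 23) (.e (nat_lit 426414) (nat_lit 15) .nil))))))) (.g (nat_lit 4) .nil .nil))) 
(.lf (nat_lit 76718) (.g (nat_lit 2978) (.e (nat_lit 1798) (nat_lit 119) (.e (nat_lit 516120) (nat_lit 1) (.e (nat_lit 164330) (nat_lit 230) (.e (nat_lit 163905) (nat_lit 12) (.e (nat_lit 426566) (nat_lit 34) (.e (nat_lit 393273) (nat_lit 23) (.e (nat_lit 426364) (nat_lit 15) .nil))))))) (.g (nat_lit 5) .nil .nil)))) (.nd (nat_lit 5) 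
(.lf (nat_lit 76702) (.g (nat_lit 2206) (.e (nat_lit 1798) (nat_lit 119) (.e (nat_lit 516119) (nat_lit 1) (.e (nat_lit 164327) (nat_lit 230) (.e (nat_lit 163903) (nat_lit 12) (.e (nat_lit 426566) (nat_lit 34) .nil))))) .nil)) 
(.lf (nat_lit 76734) (.g (nat_lit 1830) (.e (nat_lit 1798) (nat_lit 119) (.e (nat_lit 516126) (nat_lit 2) (.e (nat_lit 213032) (nat_lit 11) (.e (nat_lit 24605) (nat_lit 2) (.e (nat_lit 90176) (nat_lit 15) (.e (nat_lit 188420) (nat_lit 0) .nil)))))) (.g (nat_lit 6) .nil .nil)))))))) (.nd (nat_lit 1) (.nd (nat_lit 2) (.nd (nat_lit 3) (.nd (nat_lit 4) (.nd (nat_lit 5) 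
(.lf (nat_lit 76673) (.g (nat_lit 4650) (.e (nat_lit 1797) (nat_lit 119) (.e (nat_lit 516166) (nat_lit 12) (.e (nat_lit 450588) (nat_lit 10) (.e (nat_lit 573473) (nat_lit 12) .nil)))) .nil)) 
(.lf (nat_lit 76705) (.g (nat_lit 2582) (.e (nat_lit 1798) (nat_lit 119) (.e (nat_lit 516119) (nat_lit 1) (.e (nat_lit 164403) (nat_lit 256) (.e (nat_lit 57373) (nat_lit 2) (.e (nat_lit 90174) (nat_lit 14) .nil))))) .nil))) (.nd (nat_lit 5) 
(.lf (nat_lit 76689) (.g (nat_lit 3251) (.e (nat_lit 1798) (nat_lit 119) (.e (nat_lit 516117) (nat_lit 1) (.e (nat_lit 164330) (nat_lit 230) (.e (nat_lit 163902) (nat_lit 12) (.e (nat_lit 426566) (nat_lit 34) (.e (nat_lit 393273) (nat_lit 23) (.e (nat_lit 426364) (nat_lit 15) .nil))))))) (.g (nat_lit 5) .nil .nil))) 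
(.lf (nat_lit 76721) (.g (nat_lit 1768) (.e (nat_lit 1798) (nat_lit 119) (.e (nat_lit 516124) (nat_lit 2) (.e (nat_lit 213030) (nat_lit 11) (.e (nat_lit 24604) (nat_lit 2) (.e (nat_lit 90176) (nat_lit 15) (.e (nat_lit 188420) (nat_lit 0) .nil)))))) (.g (nat_lit 5) .nil .nil))))) (.nd (nat_lit 4) (.nd (nat_lit 5) 
(.lf (nat_lit 76681) (.g (nat_lit 3429) (.e (nat_lit 1798) (nat_lit 119) (.e (nat_lit 516117) (nat_lit 1) (.e (nat_lit 164329) (nat_lit 230) (.e (nat_lit 163902) (nat_lit 12) (.e (nat_lit 426479) (nat_lit 27) (.e (nat_lit 336430) (nat_lit 29) (.e (nat_lit 442379) (nat_lit 0) .nil))))))) (.g (nat_lit 0) .nil .nil))) 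
(.lf (nat_lit 76713) (.g (nat_lit 2454) (.e (nat_lit 1798) (nat_lit 119) (.e (nat_lit 516120) (nat_lit 1) (.e (nat_lit 164329) (nat_lit 230) (.e (nat_lit 163902) (nat_lit 12) (.e (nat_lit 426568) (nat_lit 34) (.e (nat_lit 393267) (nat_lit 23) (.e (nat_lit 426363) (nat_lit 15) .nil))))))) (.g (nat_lit 5) .nil .nil)))) (.nd (nat_lit 5) 
(.lf (nat_lit 76697) (.g (nat_lit 1340) (.e (nat_lit 1798) (nat_lit 119) (.e (nat_lit 516118) (nat_lit 1) (.e (nat_lit 164183) (nat_lit 154) (.e (nat_lit 57448) (nat_lit 19) (.e (nat_lit 401152) (nat_lit 11) (.e (nat_lit 352296) (nat_lit 20) .nil)))))) (.g (nat_lit 4) .nil .nil))) 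
(.lf (nat_lit 76729) (.g (nat_lit 1401) (.e (nat_lit 1798) (nat_lit 119) (.e (nat_lit 516126) (nat_lit 2) (.e (nat_lit 213030) (nat_lit 11) (.e (nat_lit 24604) (nat_lit 2) (.e (nat_lit 90178) (nat_lit 15) (.e (nat_lit 188418) (nat_lit 0) .nil)))))) (.g (nat_lit 4) .nil .nil)))))) (.nd (nat_lit 3) (.nd (nat_lit 4) (.nd (nat_lit 5) 
(.lf (nat_lit 76677) (.g (nat_lit 2453) (.e (nat_lit 1797) (nat_lit 119) (.e (nat_lit 516179) (nat_lit 15) (.e (nat_lit 475177) (nat_lit 24) (.e (nat_lit 516179) (nat_lit 15) (.e (nat_lit 475177) (nat_lit 24) .nil))))) .nil)) 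
(.lf (nat_lit 76709) (.g (nat_lit 2355) (.e (nat_lit 1798) (nat_lit 119) (.e (nat_lit 516120) (nat_lit 1) (.e (nat_lit 164329) (nat_lit 230) (.e (nat_lit 163902) (nat_lit 12) (.e (nat_lit 426479) (nat_lit 27) (.e (nat_lit 336430) (nat_lit 29) (.e (nat_lit 442378) (nat_lit 0) .nil))))))) (.g (nat_lit 6) .nil .nil)))) (.nd (nat_lit 5) 
(.lf (nat_lit 76693) (.g (nat_lit 1746) (.e (nat_lit 1798) (nat_lit 119) (.e (nat_lit 516118) (nat_lit 1) (.e (nat_lit 164179) (nat_lit 154) (.e (nat_lit 57445) (nat_lit 19) (.e (nat_lit 401152) (nat_lit 11) .nil))))) .nil)) 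
(.lf (nat_lit 76725) (.g (nat_lit 2225) (.e (nat_lit 1798) (nat_lit 119) (.e (nat_lit 516124) (nat_lit 2) (.e (nat_lit 213032) (nat_lit 11) (.e (nat_lit 24604) (nat_lit 2) (.e (nat_lit 90178) (nat_lit 15) (.e (nat_lit 188418) (nat_lit 0) .nil)))))) (.g (nat_lit 5) .nil .nil))))) (.nd (nat_lit 4) (.nd (nat_lit 5) 
(.lf (nat_lit 76685) (.g (nat_lit 1694) (.e (nat_lit 1798) (nat_lit 119) (.e (nat_lit 516117) (nat_lit 1) (.e (nat_lit 164329) (nat_lit 230) (.e (nat_lit 163902) (nat_lit 12) (.e (nat_lit 426568) (nat_lit 34) (.e (nat_lit 393275) (nat_lit 23) (.e (nat_lit 426410) (nat_lit 15) .nil))))))) (.g (nat_lit 4) .nil .nil))) 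
(.lf (nat_lit 76717) (.g (nat_lit 4180) (.e (nat_lit 1798) (nat_lit 119) (.e (nat_lit 516120) (nat_lit 1) (.e (nat_lit 164330) (nat_lit 230) (.e (nat_lit 163902) (nat_lit 12) (.e (nat_lit 426566) (nat_lit 34) (.e (nat_lit 393273) (nat_lit 23) (.e (nat_lit 426364) (nat_lit 15) .nil))))))) (.g (nat_lit 7) .nil .nil)))) (.nd (nat_lit 5) 
(.lf (nat_lit 76701) (.g (nat_lit 2498) (.e (nat_lit 1798) (nat_lit 119) (.e (nat_lit 516119) (nat_lit 1) (.e (nat_lit 164325) (nat_lit 230) (.e (nat_lit 163907) (nat_lit 12) (.e (nat_lit 426566) (nat_lit 34) (.e (nat_lit 393273) (nat_lit 23) (.e (nat_lit 426364) (nat_lit 15) .nil))))))) (.g (nat_lit 5) .nil .nil))) 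
(.lf (nat_lit 76733) (.g (nat_lit 2332) (.e (nat_lit 1798) (nat_lit 119) (.e (nat_lit 516126) (nat_lit 2) (.e (nat_lit 213032) (nat_lit 11) (.e (nat_lit 24604) (nat_lit 2) (.e (nat_lit 90178) (nat_lit 15) (.e (nat_lit 188418) (nat_lit 0) .nil)))))) (.g (nat_lit 6) .nil .nil))))))) (.nd (nat_lit 2) (.nd (nat_lit 3) (.nd (nat_lit 4) (.nd (nat_lit 5) 
(.lf (nat_lit 76675) (.g (nat_lit 4157) (.e (nat_lit 1797) (nat_lit 119) (.e (nat_lit 516166) (nat_lit 12) (.e (nat_lit 450588) (nat_lit 10) (.e (nat_lit 573475) (nat_lit 12) .nil)))) .nil)) 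
(.lf (nat_lit 76707) (.g (nat_lit 2286) (.e (nat_lit 1798) (nat_lit 119) (.e (nat_lit 516120) (nat_lit 1) (.e (nat_lit 164183) (nat_lit 154) (.e (nat_lit 57447) (nat_lit 19) (.e (nat_lit 401152) (nat_lit 11) .nil))))) .nil))) (.nd (nat_lit 5) 
(.lf (nat_lit 76691) (.g (nat_lit 2412) (.e (nat_lit 1798) (nat_lit 119) (.e (nat_lit 516117) (nat_lit 1) (.e (nat_lit 164330) (nat_lit 230) (.e (nat_lit 163913) (nat_lit 12) (.e (nat_lit 426565) (nat_lit 34) (.e (nat_lit 393273) (nat_lit 23) (.e (nat_lit 426364) (nat_lit 15) .nil))))))) (.g (nat_lit 4) .nil .nil))) 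
(.lf (nat_lit 76723) (.g (nat_lit 1459) (.e (nat_lit 1798) (nat_lit 119) (.e (nat_lit 516124) (nat_lit 2) (.e (nat_lit 213030) (nat_lit 11) (.e (nat_lit 24608) (nat_lit 3) (.e (nat_lit 98380) (nat_lit 31) .nil))))) .nil)))) (.nd (nat_lit 4) (.nd (nat_lit 5) 
(.lf (nat_lit 76683) (.g (nat_lit 2459) (.e (nat_lit 1798) (nat_lit 119) (.e (nat_lit 516117) (nat_lit 1) (.e (nat_lit 164329) (nat_lit 230) (.e (nat_lit 163902) (nat_lit 12) (.e (nat_lit 426568) (nat_lit 34) (.e (nat_lit 393267) (nat_lit 23) (.e (nat_lit 426362) (nat_lit 15) .nil))))))) (.g (nat_lit 5) .nil .nil))) 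
(.lf (nat_lit 76715) (.g (nat_lit 1637) (.e (nat_lit 1798) (nat_lit 119) (.e (nat_lit 516120) (nat_lit 1) (.e (nat_lit 164329) (nat_lit 230) (.e (nat_lit 163902) (nat_lit 12) (.e (nat_lit 426568) (nat_lit 34) (.e (nat_lit 393275) (nat_lit 23) (.e (nat_lit 426414) (nat_lit 15) .nil))))))) (.g (nat_lit 4) .nil .nil)))) (.nd (nat_lit 5) 
(.lf (nat_lit 76699) (.g (nat_lit 1338) (.e (nat_lit 1798) (nat_lit 119) (.e (nat_lit 516119) (nat_lit 1) (.e (nat_lit 164179) (nat_lit 154) (.e (nat_lit 57446) (nat_lit 19) .nil)))) .nil)) 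
(.lf (nat_lit 76731) (.g (nat_lit 624) (.e (nat_lit 1798) (nat_lit 119) (.e (nat_lit 516126) (nat_lit 2) (.e (nat_lit 213030) (nat_lit 11) (.e (nat_lit 24609) (nat_lit 3) .nil)))) .nil))))) (.nd (nat_lit 3) (.nd (nat_lit 4) (.nd (nat_lit 5) 
(.lf (nat_lit 76679) (.g (nat_lit 692) (.e (nat_lit 1798) (nat_lit 119) (.e (nat_lit 516117) (nat_lit 1) (.e (nat_lit 164305) (nat_lit 226) .nil))) .nil)) 
(.lf (nat_lit 76711) (.g (nat_lit 1616) (.e (nat_lit 1798) (nat_lit 119) (.e (nat_lit 516120) (nat_lit 1) (.e (nat_lit 164329) (nat_lit 230) (.e (nat_lit 163902) (nat_lit 12) (.e (nat_lit 426568) (nat_lit 34) (.e (nat_lit 393267) (nat_lit 23) (.e (nat_lit 426360) (nat_lit 15) .nil))))))) (.g (nat_lit 4) .nil .nil)))) (.nd (nat_lit 5) 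
(.lf (nat_lit 76695) (.g (nat_lit 1533) (.e (nat_lit 1798) (nat_lit 119) (.e (nat_lit 516118) (nat_lit 1) (.e (nat_lit 164183) (nat_lit 154) (.e (nat_lit 57447) (nat_lit 19) (.e (nat_lit 401152) (nat_lit 11) .nil))))) .nil)) 
(.lf (nat_lit 76727) (.g (nat_lit 1672) (.e (nat_lit 1798) (nat_lit 119) (.e (nat_lit 516124) (nat_lit 2) (.e (nat_lit 213032) (nat_lit 11) (.e (nat_lit 24608) (nat_lit 3) (.e (nat_lit 98381) (nat_lit 31) (.e (nat_lit 466947) (nat_lit 0) .nil)))))) (.g (nat_lit 4) .nil .nil))))) (.nd (nat_lit 4) (.nd (nat_lit 5) 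
(.lf (nat_lit 76687) (.g (nat_lit 2781) (.e (nat_lit 1798) (nat_lit 119) (.e (nat_lit 516117) (nat_lit 1) (.e (nat_lit 164329) (nat_lit 230) (.e (nat_lit 163902) (nat_lit 12) (.e (nat_lit 426568) (nat_lit 34) (.e (nat_lit 393281) (nat_lit 23) (.e (nat_lit 426410) (nat_lit 15) .nil))))))) (.g (nat_lit 6) .nil .nil))) 
(.lf (nat_lit 76719) (.g (nat_lit 2765) (.e (nat_lit 1798) (nat_lit 119) (.e (nat_lit 516120) (nat_lit 1) (.e (nat_lit 164330) (nat_lit 230) (.e (nat_lit 163913) (nat_lit 12) (.e (nat_lit 433920) (nat_lit 34) .nil))))) .nil))) (.nd (nat_lit 5) 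
(.lf (nat_lit 76703) (.g (nat_lit 2487) (.e (nat_lit 1798) (nat_lit 119) (.e (nat_lit 516119) (nat_lit 1) (.e (nat_lit 164403) (nat_lit 256) (.e (nat_lit 57371) (nat_lit 2) (.e (nat_lit 90174) (nat_lit 14) (.e (nat_lit 180243) (nat_lit 5) (.e (nat_lit 532513) (nat_lit 3) (.e (nat_lit 114703) (nat_lit 20) .nil)))))))) (.g (nat_lit 4) .nil .nil))) 
(.lf (nat_lit 76735) (.g (nat_lit 2063) (.e (nat_lit 1798) (nat_lit 119) (.e (nat_lit 516126) (nat_lit 2) (.e (nat_lit 213032) (nat_lit 11) (.e (nat_lit 24605) (nat_lit 2) (.e (nat_lit 90178) (nat_lit 15) (.e (nat_lit 188418) (nat_lit 0) .nil)))))) (.g (nat_lit 6) .nil .nil)))))))))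

noncomputable def tv1037 : DT := (.nd (nat_lit 0) (.nd (nat_lit 1) (.nd (nat_lit 2) (.nd (nat_lit 3) (.nd (nat_lit 4) (.nd (nat_lit 5) 
(.lf (nat_lit 76736) (.g (nat_lit 1630) (.e (nat_lit 1798) (nat_lit 119) (.e (nat_lit 516126) (nat_lit 2) (.e (nat_lit 213032) (nat_lit 11) (.e (nat_lit 24608) (nat_lit 3) (.e (nat_lit 98380) (nat_lit 31) (.e (nat_lit 466947) (nat_lit 0) .nil)))))) (.g (nat_lit 4) .nil .nil))) 
(.lf (nat_lit 76768) (.g (nat_lit 1534) (.e (nat_lit 1798) (nat_lit 119) (.e (nat_lit 516131) (nat_lit 3) (.e (nat_lit 221190) (nat_lit 11) (.e (nat_lit 336012) (nat_lit 2) (.e (nat_lit 90178) (nat_lit 15) (.e (nat_lit 188418) (nat_lit 0) .nil)))))) (.g (nat_lit 4) .nil .nil)))) (.nd (nat_lit 5) 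
(.lf (nat_lit 76752) (.g (nat_lit 1812) (.e (nat_lit 1798) (nat_lit 119) (.e (nat_lit 516129) (nat_lit 3) (.e (nat_lit 221193) (nat_lit 11) (.e (nat_lit 336012) (nat_lit 2) (.e (nat_lit 90176) (nat_lit 15) (.e (nat_lit 188420) (nat_lit 0) .nil)))))) (.g (nat_lit 4) .nil .nil))) 
(.lf (nat_lit 76784) (.g (nat_lit 879) (.e (nat_lit 1798) (nat_lit 119) (.e (nat_lit 516146) (nat_lit 9) (.e (nat_lit 426438) (nat_lit 18) .nil))) .nil)))) (.nd (nat_lit 4) (.nd (nat_lit 5) 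
(.lf (nat_lit 76744) (.g (nat_lit 2490) (.e (nat_lit 1798) (nat_lit 119) (.e (nat_lit 516127) (nat_lit 2) (.e (nat_lit 213032) (nat_lit 11) (.e (nat_lit 24604) (nat_lit 2) (.e (nat_lit 90176) (nat_lit 15) (.e (nat_lit 188420) (nat_lit 0) .nil)))))) (.g (nat_lit 6) .nil .nil))) 
(.lf (nat_lit 76776) (.g (nat_lit 1335) (.e (nat_lit 1798) (nat_lit 119) (.e (nat_lit 516131) (nat_lit 3) (.e (nat_lit 221194) (nat_lit 11) (.e (nat_lit 336009) (nat_lit 2) .nil)))) .nil))) (.nd (nat_lit 5) 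
(.lf (nat_lit 76760) (.g (nat_lit 2185) (.e (nat_lit 1798) (nat_lit 119) (.e (nat_lit 516129) (nat_lit 3) (.e (nat_lit 221194) (nat_lit 11) (.e (nat_lit 336010) (nat_lit 2) (.e (nat_lit 90178) (nat_lit 15) (.e (nat_lit 188418) (nat_lit 0) .nil)))))) (.g (nat_lit 6) .nil .nil))) 
(.lf (nat_lit 76792) (.g (nat_lit 3822) (.e (nat_lit 1798) (nat_lit 119) (.e (nat_lit 516151) (nat_lit 9) (.e (nat_lit 426286) (nat_lit 10) (.e (nat_lit 434248) (nat_lit 28) .nil)))) .nil))))) (.nd (nat_lit 3) (.nd (nat_lit 4) (.nd (nat_lit 5) 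
(.lf (nat_lit 76740) (.g (nat_lit 1629) (.e (nat_lit 1798) (nat_lit 119) (.e (nat_lit 516127) (nat_lit 2) (.e (nat_lit 213030) (nat_lit 11) (.e (nat_lit 24605) (nat_lit 2) (.e (nat_lit 90176) (nat_lit 15) (.e (nat_lit 188420) (nat_lit 0) .nil)))))) (.g (nat_lit 6) .nil .nil))) 
(.lf (nat_lit 76772) (.g (nat_lit 1012) (.e (nat_lit 1798) (nat_lit 119) (.e (nat_lit 516131) (nat_lit 3) (.e (nat_lit 221193) (nat_lit 11) (.e (nat_lit 336025) (nat_lit 3) .nil)))) .nil))) (.nd (nat_lit 5) 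
(.lf (nat_lit 76756) (.g (nat_lit 2337) (.e (nat_lit 1798) (nat_lit 119) (.e (nat_lit 516129) (nat_lit 3) (.e (nat_lit 221194) (nat_lit 11) (.e (nat_lit 336004) (nat_lit 2) (.e (nat_lit 90176) (nat_lit 15) (.e (nat_lit 188420) (nat_lit 0) .nil)))))) (.g (nat_lit 5) .nil .nil))) 
(.lf (nat_lit 76788) (.g (nat_lit 5603) (.e (nat_lit 1798) (nat_lit 119) (.e (nat_lit 516151) (nat_lit 9) (.e (nat_lit 426211) (nat_lit 9) (.e (nat_lit 426125) (nat_lit 2) (.e (nat_lit 196625) (nat_lit 9) .nil))))) .nil)))) (.nd (nat_lit 4) (.nd (nat_lit 5) 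
(.lf (nat_lit 76748) (.g (nat_lit 1660) (.e (nat_lit 1798) (nat_lit 119) (.e (nat_lit 516127) (nat_lit 2) (.e (nat_lit 213032) (nat_lit 11) (.e (nat_lit 24608) (nat_lit 3) (.e (nat_lit 98380) (nat_lit 31) (.e (nat_lit 466947) (nat_lit 0) .nil)))))) (.g (nat_lit 4) .nil .nil))) 
(.lf (nat_lit 76780) (.g (nat_lit 493) (.e (nat_lit 1798) (nat_lit 119) (.e (nat_lit 516131) (nat_lit 3) (.e (nat_lit 229120) (nat_lit 11) .nil))) .nil))) (.nd (nat_lit 5) 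
(.lf (nat_lit 76764) (.g (nat_lit 1442) (.e (nat_lit 1798) (nat_lit 119) (.e (nat_lit 516129) (nat_lit 3) (.e (nat_lit 221194) (nat_lit 11) (.e (nat_lit 336026) (nat_lit 3) (.e (nat_lit 98381) (nat_lit 31) (.e (nat_lit 466947) (nat_lit 0) .nil)))))) (.g (nat_lit 4) .nil .nil))) 
(.lf (nat_lit 76796) (.g (nat_lit 3967) (.e (nat_lit 1798) (nat_lit 119) (.e (nat_lit 516166) (nat_lit 12) (.e (nat_lit 450587) (nat_lit 10) (.e (nat_lit 573456) (nat_lit 9) .nil)))) .nil)))))) (.nd (nat_lit 2) (.nd (nat_lit 3) (.nd (nat_lit 4) (.nd (nat_lit 5) 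
(.lf (nat_lit 76738) (.g (nat_lit 1996) (.e (nat_lit 1798) (nat_lit 119) (.e (nat_lit 516127) (nat_lit 2) (.e (nat_lit 213030) (nat_lit 11) (.e (nat_lit 24604) (nat_lit 2) (.e (nat_lit 90176) (nat_lit 15) (.e (nat_lit 188420) (nat_lit 0) .nil)))))) (.g (nat_lit 5) .nil .nil))) 
(.lf (nat_lit 76770) (.g (nat_lit 1398) (.e (nat_lit 1798) (nat_lit 119) (.e (nat_lit 516131) (nat_lit 3) (.e (nat_lit 221193) (nat_lit 11) (.e (nat_lit 336009) (nat_lit 2) (.e (nat_lit 90176) (nat_lit 15) (.e (nat_lit 188420) (nat_lit 0) .nil)))))) (.g (nat_lit 4) .nil .nil)))) (.nd (nat_lit 5) 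
(.lf (nat_lit 76754) (.g (nat_lit 1027) (.e (nat_lit 1798) (nat_lit 119) (.e (nat_lit 516129) (nat_lit 3) (.e (nat_lit 221193) (nat_lit 11) (.e (nat_lit 336027) (nat_lit 3) .nil)))) .nil)) 
(.lf (nat_lit 76786) (.g (nat_lit 2978) (.e (nat_lit 1798) (nat_lit 119) (.e (nat_lit 516150) (nat_lit 9) (.e (nat_lit 426131) (nat_lit 3) (.e (nat_lit 204838) (nat_lit 20) (.e (nat_lit 114716) (nat_lit 22) .nil))))) .nil)))) (.nd (nat_lit 4) (.nd (nat_lit 5) 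
(.lf (nat_lit 76746) (.g (nat_lit 1855) (.e (nat_lit 1798) (nat_lit 119) (.e (nat_lit 516127) (nat_lit 2) (.e (nat_lit 213032) (nat_lit 11) (.e (nat_lit 24605) (nat_lit 2) (.e (nat_lit 90176) (nat_lit 15) (.e (nat_lit 188420) (nat_lit 0) .nil)))))) (.g (nat_lit 6) .nil .nil))) 
(.lf (nat_lit 76778) (.g (nat_lit 1935) (.e (nat_lit 1798) (nat_lit 119) (.e (nat_lit 516131) (nat_lit 3) (.e (nat_lit 221194) (nat_lit 11) (.e (nat_lit 336012) (nat_lit 2) (.e (nat_lit 90178) (nat_lit 15) (.e (nat_lit 188418) (nat_lit 0) .nil)))))) (.g (nat_lit 4) .nil .nil)))) (.nd (nat_lit 5) 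
(.lf (nat_lit 76762) (.g (nat_lit 2763) (.e (nat_lit 1798) (nat_lit 119) (.e (nat_lit 516129) (nat_lit 3) (.e (nat_lit 221194) (nat_lit 11) (.e (nat_lit 336012) (nat_lit 2) (.e (nat_lit 90178) (nat_lit 15) (.e (nat_lit 188418) (nat_lit 0) .nil)))))) (.g (nat_lit 6) .nil .nil))) 
(.lf (nat_lit 76794) (.g (nat_lit 1025) (.e (nat_lit 1798) (nat_lit 119) (.e (nat_lit 516166) (nat_lit 12) (.e (nat_lit 450587) (nat_lit 10) .nil))) .nil))))) (.nd (nat_lit 3) (.nd (nat_lit 4) (.nd (nat_lit 5) 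
(.lf (nat_lit 76742) (.g (nat_lit 1374) (.e (nat_lit 1798) (nat_lit 119) (.e (nat_lit 516127) (nat_lit 2) (.e (nat_lit 213030) (nat_lit 11) (.e (nat_lit 24608) (nat_lit 3) (.e (nat_lit 98380) (nat_lit 31) .nil))))) .nil)) 
(.lf (nat_lit 76774) (.g (nat_lit 980) (.e (nat_lit 1798) (nat_lit 119) (.e (nat_lit 516131) (nat_lit 3) (.e (nat_lit 221193) (nat_lit 11) (.e (nat_lit 336027) (nat_lit 3) .nil)))) .nil))) (.nd (nat_lit 5) 
(.lf (nat_lit 76758) (.g (nat_lit 945) (.e (nat_lit 1798) (nat_lit 119) (.e (nat_lit 516129) (nat_lit 3) (.e (nat_lit 221194) (nat_lit 11) (.e (nat_lit 336010) (nat_lit 2) .nil)))) .nil)) 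
(.lf (nat_lit 76790) (.g (nat_lit 3713) (.e (nat_lit 1798) (nat_lit 119) (.e (nat_lit 516151) (nat_lit 9) (.e (nat_lit 426211) (nat_lit 9) (.e (nat_lit 426140) (nat_lit 3) (.e (nat_lit 204845) (nat_lit 24) (.e (nat_lit 319529) (nat_lit 16) (.e (nat_lit 286727) (nat_lit 0) .nil))))))) (.g (nat_lit 4) .nil .nil))))) (.nd (nat_lit 4) (.nd (nat_lit 5) 
(.lf (nat_lit 76750) (.g (nat_lit 1314) (.e (nat_lit 1798) (nat_lit 119) (.e (nat_lit 516129) (nat_lit 3) (.e (nat_lit 221190) (nat_lit 11) (.e (nat_lit 336012) (nat_lit 2) (.e (nat_lit 90176) (nat_lit 15) .nil))))) .nil)) 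
(.lf (nat_lit 76782) (.g (nat_lit 897) (.e (nat_lit 1798) (nat_lit 119) (.e (nat_lit 516131) (nat_lit 3) (.e (nat_lit 221212) (nat_lit 22) (.e (nat_lit 196669) (nat_lit 14) .nil)))) .nil))) (.nd (nat_lit 5) 
(.lf (nat_lit 76766) (.g (nat_lit 1917) (.e (nat_lit 1798) (nat_lit 119) (.e (nat_lit 516129) (nat_lit 3) (.e (nat_lit 221194) (nat_lit 11) (.e (nat_lit 336027) (nat_lit 3) (.e (nat_lit 98381) (nat_lit 31) (.e (nat_lit 466947) (nat_lit 0) .nil)))))) (.g (nat_lit 4) .nil .nil))) 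
(.lf (nat_lit 76798) (.g (nat_lit 4646) (.e (nat_lit 1798) (nat_lit 119) (.e (nat_lit 516166) (nat_lit 12) (.e (nat_lit 450587) (nat_lit 10) (.e (nat_lit 573477) (nat_lit 12) (.e (nat_lit 57574) (nat_lit 55) .nil))))) .nil))))))) (.nd (nat_lit 1) (.nd (nat_lit 2) (.nd (nat_lit 3) (.nd (nat_lit 4) (.nd (nat_lit 5) 
(.lf (nat_lit 76737) (.g (nat_lit 1624) (.e (nat_lit 1798) (nat_lit 119) (.e (nat_lit 516126) (nat_lit 2) (.e (nat_lit 213032) (nat_lit 11) (.e (nat_lit 24608) (nat_lit 3) (.e (nat_lit 98381) (nat_lit 31) (.e (nat_lit 466947) (nat_lit 0) .nil)))))) (.g (nat_lit 4) .nil .nil))) 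
(.lf (nat_lit 76769) (.g (nat_lit 511) (.e (nat_lit 1798) (nat_lit 119) (.e (nat_lit 516131) (nat_lit 3) (.e (nat_lit 221191) (nat_lit 11) .nil))) .nil))) (.nd (nat_lit 5) 
(.lf (nat_lit 76753) (.g (nat_lit 1898) (.e (nat_lit 1798) (nat_lit 119) (.e (nat_lit 516129) (nat_lit 3) (.e (nat_lit 221193) (nat_lit 11) (.e (nat_lit 336012) (nat_lit 2) (.e (nat_lit 90178) (nat_lit 15) (.e (nat_lit 188418) (nat_lit 0) .nil)))))) (.g (nat_lit 5) .nil .nil))) 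
(.lf (nat_lit 76785) (.g (nat_lit 2210) (.e (nat_lit 1798) (nat_lit 119) (.e (nat_lit 516146) (nat_lit 9) (.e (nat_lit 426438) (nat_lit 18) (.e (nat_lit 98384) (nat_lit 32) (.e (nat_lit 475177) (nat_lit 24) .nil))))) .nil)))) (.nd (nat_lit 4) (.nd (nat_lit 5) 
(.lf (nat_lit 76745) (.g (nat_lit 2429) (.e (nat_lit 1798) (nat_lit 119) (.e (nat_lit 516127) (nat_lit 2) (.e (nat_lit 213032) (nat_lit 11) (.e (nat_lit 24604) (nat_lit 2) (.e (nat_lit 90178) (nat_lit 15) (.e (nat_lit 188418) (nat_lit 0) .nil)))))) (.g (nat_lit 6) .nil .nil))) 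
(.lf (nat_lit 76777) (.g (nat_lit 1818) (.e (nat_lit 1798) (nat_lit 119) (.e (nat_lit 516131) (nat_lit 3) (.e (nat_lit 221194) (nat_lit 11) (.e (nat_lit 336012) (nat_lit 2) (.e (nat_lit 90176) (nat_lit 15) (.e (nat_lit 188420) (nat_lit 0) .nil)))))) (.g (nat_lit 4) .nil .nil)))) (.nd (nat_lit 5) 
(.lf (nat_lit 76761) (.g (nat_lit 2659) (.e (nat_lit 1798) (nat_lit 119) (.e (nat_lit 516129) (nat_lit 3) (.e (nat_lit 221194) (nat_lit 11) (.e (nat_lit 336012) (nat_lit 2) (.e (nat_lit 90176) (nat_lit 15) (.e (nat_lit 188420) (nat_lit 0) .nil)))))) (.g (nat_lit 6) .nil .nil))) 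
(.lf (nat_lit 76793) (.g (nat_lit 1691) (.e (nat_lit 1798) (nat_lit 119) (.e (nat_lit 516165) (nat_lit 12) (.e (nat_lit 450586) (nat_lit 10) (.e (nat_lit 573469) (nat_lit 11) .nil)))) .nil))))) (.nd (nat_lit 3) (.nd (nat_lit 4) (.nd (nat_lit 5) 
(.lf (nat_lit 76741) (.g (nat_lit 1887) (.e (nat_lit 1798) (nat_lit 119) (.e (nat_lit 516127) (nat_lit 2) (.e (nat_lit 213030) (nat_lit 11) (.e (nat_lit 24605) (nat_lit 2) (.e (nat_lit 90178) (nat_lit 15) (.e (nat_lit 188418) (nat_lit 0) .nil)))))) (.g (nat_lit 6) .nil .nil))) 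
(.lf (nat_lit 76773) (.g (nat_lit 933) (.e (nat_lit 1798) (nat_lit 119) (.e (nat_lit 516131) (nat_lit 3) (.e (nat_lit 221193) (nat_lit 11) (.e (nat_lit 336026) (nat_lit 3) .nil)))) .nil))) (.nd (nat_lit 5) 
(.lf (nat_lit 76757) (.g (nat_lit 1742) (.e (nat_lit 1798) (nat_lit 119) (.e (nat_lit 516129) (nat_lit 3) (.e (nat_lit 221194) (nat_lit 11) (.e (nat_lit 336009) (nat_lit 2) (.e (nat_lit 90176) (nat_lit 15) (.e (nat_lit 188420) (nat_lit 0) .nil)))))) (.g (nat_lit 4) .nil .nil))) 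
(.lf (nat_lit 76789) (.g (nat_lit 3052) (.e (nat_lit 1798) (nat_lit 119) (.e (nat_lit 516151) (nat_lit 9) (.e (nat_lit 426211) (nat_lit 9) (.e (nat_lit 426140) (nat_lit 3) .nil)))) .nil)))) (.nd (nat_lit 4) (.nd (nat_lit 5) 
(.lf (nat_lit 76749) (.g (nat_lit 1655) (.e (nat_lit 1798) (nat_lit 119) (.e (nat_lit 516127) (nat_lit 2) (.e (nat_lit 213032) (nat_lit 11) (.e (nat_lit 24608) (nat_lit 3) (.e (nat_lit 98381) (nat_lit 31) (.e (nat_lit 466947) (nat_lit 0) .nil)))))) (.g (nat_lit 4) .nil .nil))) 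
(.lf (nat_lit 76781) (.g (nat_lit 1543) (.e (nat_lit 1798) (nat_lit 119) (.e (nat_lit 516131) (nat_lit 3) (.e (nat_lit 221212) (nat_lit 22) (.e (nat_lit 196668) (nat_lit 14) (.e (nat_lit 81664) (nat_lit 5) .nil))))) .nil))) (.nd (nat_lit 5) 
(.lf (nat_lit 76765) (.g (nat_lit 1926) (.e (nat_lit 1798) (nat_lit 119) (.e (nat_lit 516129) (nat_lit 3) (.e (nat_lit 221194) (nat_lit 11) (.e (nat_lit 336027) (nat_lit 3) (.e (nat_lit 98380) (nat_lit 31) (.e (nat_lit 466947) (nat_lit 0) .nil)))))) (.g (nat_lit 4) .nil .nil))) 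
(.lf (nat_lit 76797) (.g (nat_lit 4638) (.e (nat_lit 1798) (nat_lit 119) (.e (nat_lit 516166) (nat_lit 12) (.e (nat_lit 450587) (nat_lit 10) (.e (nat_lit 573469) (nat_lit 11) (.e (nat_lit 16473) (nat_lit 14) (.e (nat_lit 491525) (nat_lit 0) .nil)))))) (.g (nat_lit 4) .nil .nil))))))) (.nd (nat_lit 2) (.nd (nat_lit 3) (.nd (nat_lit 4) (.nd (nat_lit 5) 
(.lf (nat_lit 76739) (.g (nat_lit 1926) (.e (nat_lit 1798) (nat_lit 119) (.e (nat_lit 516127) (nat_lit 2) (.e (nat_lit 213030) (nat_lit 11) (.e (nat_lit 24604) (nat_lit 2) (.e (nat_lit 90178) (nat_lit 15) (.e (nat_lit 188418) (nat_lit 0) .nil)))))) (.g (nat_lit 6) .nil .nil))) 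
(.lf (nat_lit 76771) (.g (nat_lit 1263) (.e (nat_lit 1798) (nat_lit 119) (.e (nat_lit 516131) (nat_lit 3) (.e (nat_lit 221193) (nat_lit 11) (.e (nat_lit 336010) (nat_lit 2) (.e (nat_lit 90176) (nat_lit 15) (.e (nat_lit 188420) (nat_lit 0) .nil)))))) (.g (nat_lit 4) .nil .nil)))) (.nd (nat_lit 5) 
(.lf (nat_lit 76755) (.g (nat_lit 1360) (.e (nat_lit 1798) (nat_lit 119) (.e (nat_lit 516129) (nat_lit 3) (.e (nat_lit 221194) (nat_lit 11) (.e (nat_lit 336003) (nat_lit 2) .nil)))) .nil)) 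
(.lf (nat_lit 76787) (.g (nat_lit 5242) (.e (nat_lit 1798) (nat_lit 119) (.e (nat_lit 516151) (nat_lit 9) (.e (nat_lit 426211) (nat_lit 9) (.e (nat_lit 426125) (nat_lit 2) (.e (nat_lit 196617) (nat_lit 9) .nil))))) .nil)))) (.nd (nat_lit 4) (.nd (nat_lit 5) 
(.lf (nat_lit 76747) (.g (nat_lit 2112) (.e (nat_lit 1798) (nat_lit 119) (.e (nat_lit 516127) (nat_lit 2) (.e (nat_lit 213032) (nat_lit 11) (.e (nat_lit 24605) (nat_lit 2) (.e (nat_lit 90178) (nat_lit 15) (.e (nat_lit 188418) (nat_lit 0) .nil)))))) (.g (nat_lit 6) .nil .nil))) 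
(.lf (nat_lit 76779) (.g (nat_lit 963) (.e (nat_lit 1798) (nat_lit 119) (.e (nat_lit 516131) (nat_lit 3) (.e (nat_lit 221194) (nat_lit 11) (.e (nat_lit 336026) (nat_lit 3) .nil)))) .nil))) (.nd (nat_lit 5) 
(.lf (nat_lit 76763) (.g (nat_lit 1458) (.e (nat_lit 1798) (nat_lit 119) (.e (nat_lit 516129) (nat_lit 3) (.e (nat_lit 221194) (nat_lit 11) (.e (nat_lit 336026) (nat_lit 3) (.e (nat_lit 98380) (nat_lit 31) (.e (nat_lit 466947) (nat_lit 0) .nil)))))) (.g (nat_lit 4) .nil .nil))) 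
(.lf (nat_lit 76795) (.g (nat_lit 4193) (.e (nat_lit 1798) (nat_lit 119) (.e (nat_lit 516166) (nat_lit 12) (.e (nat_lit 450587) (nat_lit 10) (.e (nat_lit 573454) (nat_lit 9) .nil)))) .nil))))) (.nd (nat_lit 3) (.nd (nat_lit 4) (.nd (nat_lit 5) 
(.lf (nat_lit 76743) (.g (nat_lit 1381) (.e (nat_lit 1798) (nat_lit 119) (.e (nat_lit 516127) (nat_lit 2) (.e (nat_lit 213030) (nat_lit 11) (.e (nat_lit 24608) (nat_lit 3) (.e (nat_lit 98381) (nat_lit 31) .nil))))) .nil)) 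
(.lf (nat_lit 76775) (.g (nat_lit 1566) (.e (nat_lit 1798) (nat_lit 119) (.e (nat_lit 516131) (nat_lit 3) (.e (nat_lit 221194) (nat_lit 11) (.e (nat_lit 336004) (nat_lit 2) (.e (nat_lit 90176) (nat_lit 15) .nil))))) .nil))) (.nd (nat_lit 5) 
(.lf (nat_lit 76759) (.g (nat_lit 1964) (.e (nat_lit 1798) (nat_lit 119) (.e (nat_lit 516129) (nat_lit 3) (.e (nat_lit 221194) (nat_lit 11) (.e (nat_lit 336010) (nat_lit 2) (.e (nat_lit 90176) (nat_lit 15) (.e (nat_lit 188420) (nat_lit 0) .nil)))))) (.g (nat_lit 6) .nil .nil))) 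
(.lf (nat_lit 76791) (.g (nat_lit 4063) (.e (nat_lit 1798) (nat_lit 119) (.e (nat_lit 516151) (nat_lit 9) (.e (nat_lit 426286) (nat_lit 10) (.e (nat_lit 434245) (nat_lit 28) .nil)))) .nil)))) (.nd (nat_lit 4) (.nd (nat_lit 5) 
(.lf (nat_lit 76751) (.g (nat_lit 1121) (.e (nat_lit 1798) (nat_lit 119) (.e (nat_lit 516129) (nat_lit 3) (.e (nat_lit 221193) (nat_lit 11) (.e (nat_lit 336009) (nat_lit 2) .nil)))) .nil)) 
(.lf (nat_lit 76783) (.g (nat_lit 702) (.e (nat_lit 1798) (nat_lit 119) (.e (nat_lit 516146) (nat_lit 9) (.e (nat_lit 426436) (nat_lit 18) .nil))) .nil))) (.nd (nat_lit 5) 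
(.lf (nat_lit 76767) (.g (nat_lit 554) (.e (nat_lit 1798) (nat_lit 119) (.e (nat_lit 516129) (nat_lit 3) (.e (nat_lit 229120) (nat_lit 11) .nil))) .nil)) 
(.lf (nat_lit 76799) (.g (nat_lit 4882) (.e (nat_lit 1798) (nat_lit 119) (.e (nat_lit 516166) (nat_lit 12) (.e (nat_lit 450587) (nat_lit 10) (.e (nat_lit 573477) (nat_lit 12) (.e (nat_lit 57574) (nat_lit 55) (.e (nat_lit 778466) (nat_lit 11) (.e (nat_lit 24588) (nat_lit 0) .nil))))))) (.g (nat_lit 4) .nil .nil)))))))))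

noncomputable def tv1038 : DT := (.nd (nat_lit 0) (.nd (nat_lit 1) (.nd (nat_lit 2) (.nd (nat_lit 3) (.nd (nat_lit 4) (.nd (nat_lit 5) 
(.lf (nat_lit 76800) (.g (nat_lit 4909) (.e (nat_lit 1798) (nat_lit 119) (.e (nat_lit 516166) (nat_lit 12) (.e (nat_lit 450587) (nat_lit 10) (.e (nat_lit 573477) (nat_lit 12) (.e (nat_lit 57575) (nat_lit 55) .nil))))) .nil)) 
(.lf (nat_lit 76832) (.g (nat_lit 1519) (.e (nat_lit 1799) (nat_lit 119) (.e (nat_lit 516115) (nat_lit 1) (.e (nat_lit 164398) (nat_lit 256) (.e (nat_lit 57371) (nat_lit 2) .nil)))) .nil))) (.nd (nat_lit 5) 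
(.lf (nat_lit 76816) (.g (nat_lit 3319) (.e (nat_lit 1799) (nat_lit 119) (.e (nat_lit 516115) (nat_lit 1) (.e (nat_lit 164325) (nat_lit 230) (.e (nat_lit 163902) (nat_lit 12) (.e (nat_lit 426566) (nat_lit 34) .nil))))) .nil)) 
(.lf (nat_lit 76848) (.g (nat_lit 3798) (.e (nat_lit 1799) (nat_lit 119) (.e (nat_lit 516115) (nat_lit 1) (.e (nat_lit 164399) (nat_lit 256) (.e (nat_lit 57372) (nat_lit 2) (.e (nat_lit 90172) (nat_lit 14) (.e (nat_lit 180243) (nat_lit 5) (.e (nat_lit 532513) (nat_lit 3) (.e (nat_lit 114699) (nat_lit 20) .nil)))))))) (.g (nat_lit 6) .nil .nil))))) (.nd (nat_lit 4) (.nd (nat_lit 5) 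
(.lf (nat_lit 76808) (.g (nat_lit 5035) (.e (nat_lit 1798) (nat_lit 119) (.e (nat_lit 516166) (nat_lit 12) (.e (nat_lit 450588) (nat_lit 10) (.e (nat_lit 573475) (nat_lit 12) (.e (nat_lit 57574) (nat_lit 55) .nil))))) .nil)) 
(.lf (nat_lit 76840) (.g (nat_lit 2067) (.e (nat_lit 1799) (nat_lit 119) (.e (nat_lit 516115) (nat_lit 1) (.e (nat_lit 164398) (nat_lit 256) (.e (nat_lit 57375) (nat_lit 2) (.e (nat_lit 90174) (nat_lit 14) .nil))))) .nil))) (.nd (nat_lit 5) 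
(.lf (nat_lit 76824) (.g (nat_lit 1251) (.e (nat_lit 1799) (nat_lit 119) (.e (nat_lit 516115) (nat_lit 1) (.e (nat_lit 164325) (nat_lit 230) (.e (nat_lit 163942) (nat_lit 19) .nil)))) .nil)) 
(.lf (nat_lit 76856) (.g (nat_lit 3688) (.e (nat_lit 1799) (nat_lit 119) (.e (nat_lit 516115) (nat_lit 1) (.e (nat_lit 164399) (nat_lit 256) (.e (nat_lit 57372) (nat_lit 2) (.e (nat_lit 90174) (nat_lit 14) (.e (nat_lit 180243) (nat_lit 5) (.e (nat_lit 532513) (nat_lit 3) (.e (nat_lit 114704) (nat_lit 20) .nil)))))))) (.g (nat_lit 6) .nil .nil)))))) 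
(.nd (nat_lit 3) (.nd (nat_lit 4) (.nd (nat_lit 5) 
(.lf (nat_lit 76804) (.g (nat_lit 4925) (.e (nat_lit 1798) (nat_lit 119) (.e (nat_lit 516166) (nat_lit 12) (.e (nat_lit 450588) (nat_lit 10) (.e (nat_lit 573452) (nat_lit 9) .nil)))) .nil)) 
(.lf (nat_lit 76836) (.g (nat_lit 2455) (.e (nat_lit 1799) (nat_lit 119) (.e (nat_lit 516115) (nat_lit 1) (.e (nat_lit 164398) (nat_lit 256) (.e (nat_lit 57373) (nat_lit 2) (.e (nat_lit 90172) (nat_lit 14) (.e (nat_lit 180244) (nat_lit 5) (.e (nat_lit 532513) (nat_lit 3) (.e (nat_lit 114704) (nat_lit 20) .nil)))))))) (.g (nat_lit 4) .nil .nil)))) (.nd (nat_lit 5) 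
(.lf (nat_lit 76820) (.g (nat_lit 3913) (.e (nat_lit 1799) (nat_lit 119) (.e (nat_lit 516115) (nat_lit 1) (.e (nat_lit 164325) (nat_lit 230) (.e (nat_lit 163906) (nat_lit 12) (.e (nat_lit 426566) (nat_lit 34) (.e (nat_lit 393273) (nat_lit 23) (.e (nat_lit 426364) (nat_lit 15) .nil))))))) (.g (nat_lit 5) .nil .nil))) 
(.lf (nat_lit 76852) (.g (nat_lit 3188) (.e (nat_lit 1799) (nat_lit 119) (.e (nat_lit 516115) (nat_lit 1) (.e (nat_lit 164399) (nat_lit 256) (.e (nat_lit 57372) (nat_lit 2) (.e (nat_lit 90172) (nat_lit 14) (.e (nat_lit 180244) (nat_lit 5) (.e (nat_lit 532515) (nat_lit 3) (.e (nat_lit 114699) (nat_lit 20) .nil)))))))) (.g (nat_lit 5) .nil .nil))))) (.nd (nat_lit 4) (.nd (nat_lit 5) 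
(.lf (nat_lit 76812) (.g (nat_lit 1317) (.e (nat_lit 1798) (nat_lit 119) (.e (nat_lit 516176) (nat_lit 14) (.e (nat_lit 466981) (nat_lit 23) (.e (nat_lit 204846) (nat_lit 24) .nil)))) .nil)) 
(.lf (nat_lit 76844) (.g (nat_lit 2603) (.e (nat_lit 1799) (nat_lit 119) (.e (nat_lit 516115) (nat_lit 1) (.e (nat_lit 164399) (nat_lit 256) (.e (nat_lit 57370) (nat_lit 2) (.e (nat_lit 90174) (nat_lit 14) (.e (nat_lit 180243) (nat_lit 5) (.e (nat_lit 532513) (nat_lit 3) (.e (nat_lit 114704) (nat_lit 20) .nil)))))))) (.g (nat_lit 5) .nil .nil)))) (.nd (nat_lit 5) 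
(.lf (nat_lit 76828) (.g (nat_lit 3773) (.e (nat_lit 1799) (nat_lit 119) (.e (nat_lit 516115) (nat_lit 1) (.e (nat_lit 164327) (nat_lit 230) (.e (nat_lit 163907) (nat_lit 12) (.e (nat_lit 426566) (nat_lit 34) (.e (nat_lit 393273) (nat_lit 23) (.e (nat_lit 426364) (nat_lit 15) .nil))))))) (.g (nat_lit 7) .nil .nil))) 
(.lf (nat_lit 76860) (.g (nat_lit 3039) (.e (nat_lit 1799) (nat_lit 119) (.e (nat_lit 516115) (nat_lit 1) (.e (nat_lit 164399) (nat_lit 256) (.e (nat_lit 57373) (nat_lit 2) (.e (nat_lit 90170) (nat_lit 13) (.e (nat_lit 172067) (nat_lit 3) (.e (nat_lit 204837) (nat_lit 20) (.e (nat_lit 114703) (nat_lit 20) .nil)))))))) (.g (nat_lit 5) .nil .nil))))))) 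
(.nd (nat_lit 2) (.nd (nat_lit 3) (.nd (nat_lit 4) (.nd (nat_lit 5) 
(.lf (nat_lit 76802) (.g (nat_lit 4611) (.e (nat_lit 1798) (nat_lit 119) (.e (nat_lit 516166) (nat_lit 12) (.e (nat_lit 450587) (nat_lit 10) (.e (nat_lit 573478) (nat_lit 12) (.e (nat_lit 57574) (nat_lit 55) (.e (nat_lit 778465) (nat_lit 11) (.e (nat_lit 24589) (nat_lit 0) .nil))))))) (.g (nat_lit 4) .nil .nil))) 
(.lf (nat_lit 76834) (.g (nat_lit 2574) (.e (nat_lit 1799) (nat_lit 119) (.e (nat_lit 516115) (nat_lit 1) (.e (nat_lit 164398) (nat_lit 256) (.e (nat_lit 57372) (nat_lit 2) (.e (nat_lit 90174) (nat_lit 14) .nil))))) .nil))) (.nd (nat_lit 5) 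
(.lf (nat_lit 76818) (.g (nat_lit 5130) (.e (nat_lit 1799) (nat_lit 119) (.e (nat_lit 516115) (nat_lit 1) (.e (nat_lit 164325) (nat_lit 230) (.e (nat_lit 163903) (nat_lit 12) (.e (nat_lit 426566) (nat_lit 34) (.e (nat_lit 393273) (nat_lit 23) (.e (nat_lit 426364) (nat_lit 15) .nil))))))) (.g (nat_lit 7) .nil .nil))) 
(.lf (nat_lit 76850) (.g (nat_lit 3740) (.e (nat_lit 1799) (nat_lit 119) (.e (nat_lit 516115) (nat_lit 1) (.e (nat_lit 164399) (nat_lit 256) (.e (nat_lit 57372) (nat_lit 2) (.e (nat_lit 90172) (nat_lit 14) (.e (nat_lit 180244) (nat_lit 5) (.e (nat_lit 532513) (nat_lit 3) (.e (nat_lit 114699) (nat_lit 20) .nil)))))))) (.g (nat_lit 6) .nil .nil))))) (.nd (nat_lit 4) (.nd (nat_lit 5) 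
(.lf (nat_lit 76810) (.g (nat_lit 6761) (.e (nat_lit 1798) (nat_lit 119) (.e (nat_lit 516166) (nat_lit 12) (.e (nat_lit 450588) (nat_lit 10) (.e (nat_lit 573475) (nat_lit 12) (.e (nat_lit 57574) (nat_lit 55) (.e (nat_lit 778466) (nat_lit 11) (.e (nat_lit 24589) (nat_lit 0) .nil))))))) (.g (nat_lit 6) .nil .nil))) 
(.lf (nat_lit 76842) (.g (nat_lit 2702) (.e (nat_lit 1799) (nat_lit 119) (.e (nat_lit 516115) (nat_lit 1) (.e (nat_lit 164399) (nat_lit 256) (.e (nat_lit 57370) (nat_lit 2) (.e (nat_lit 90172) (nat_lit 14) (.e (nat_lit 180244) (nat_lit 5) (.e (nat_lit 532513) (nat_lit 3) (.e (nat_lit 114704) (nat_lit 20) .nil)))))))) (.g (nat_lit 5) .nil .nil)))) (.nd (nat_lit 5) 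
(.lf (nat_lit 76826) (.g (nat_lit 4252) (.e (nat_lit 1799) (nat_lit 119) (.e (nat_lit 516115) (nat_lit 1) (.e (nat_lit 164327) (nat_lit 230) (.e (nat_lit 163903) (nat_lit 12) (.e (nat_lit 426566) (nat_lit 34) (.e (nat_lit 393273) (nat_lit 23) (.e (nat_lit 426364) (nat_lit 15) .nil))))))) (.g (nat_lit 7) .nil .nil))) 
(.lf (nat_lit 76858) (.g (nat_lit 1914) (.e (nat_lit 1799) (nat_lit 119) (.e (nat_lit 516115) (nat_lit 1) (.e (nat_lit 164399) (nat_lit 256) (.e (nat_lit 57373) (nat_lit 2) (.e (nat_lit 90170) (nat_lit 13) (.e (nat_lit 172065) (nat_lit 3) (.e (nat_lit 204837) (nat_lit 20) (.e (nat_lit 114703) (nat_lit 20) .nil)))))))) (.g (nat_lit 4) .nil .nil)))))) 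
(.nd (nat_lit 3) (.nd (nat_lit 4) (.nd (nat_lit 5) 
(.lf (nat_lit 76806) (.g (nat_lit 5229) (.e (nat_lit 1798) (nat_lit 119) (.e (nat_lit 516166) (nat_lit 12) (.e (nat_lit 450588) (nat_lit 10) (.e (nat_lit 573471) (nat_lit 11) .nil)))) .nil)) 
(.lf (nat_lit 76838) (.g (nat_lit 3290) (.e (nat_lit 1799) (nat_lit 119) (.e (nat_lit 516115) (nat_lit 1) (.e (nat_lit 164398) (nat_lit 256) (.e (nat_lit 57373) (nat_lit 2) (.e (nat_lit 90174) (nat_lit 14) (.e (nat_lit 180243) (nat_lit 5) (.e (nat_lit 532513) (nat_lit 3) (.e (nat_lit 114704) (nat_lit 20) .nil)))))))) (.g (nat_lit 5) .nil .nil)))) (.nd (nat_lit 5) 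
(.lf (nat_lit 76822) (.g (nat_lit 4635) (.e (nat_lit 1799) (nat_lit 119) (.e (nat_lit 516115) (nat_lit 1) (.e (nat_lit 164325) (nat_lit 230) (.e (nat_lit 163907) (nat_lit 12) (.e (nat_lit 426566) (nat_lit 34) (.e (nat_lit 393273) (nat_lit 23) (.e (nat_lit 426364) (nat_lit 15) .nil))))))) (.g (nat_lit 7) .nil .nil))) 
(.lf (nat_lit 76854) (.g (nat_lit 2299) (.e (nat_lit 1799) (nat_lit 119) (.e (nat_lit 516115) (nat_lit 1) (.e (nat_lit 164399) (nat_lit 256) (.e (nat_lit 57372) (nat_lit 2) (.e (nat_lit 90174) (nat_lit 14) (.e (nat_lit 180243) (nat_lit 5) (.e (nat_lit 532508) (nat_lit 2) (.e (nat_lit 106526) (nat_lit 9) (.e (nat_lit 1023) (nat_lit 81) .nil))))))))) (.g (nat_lit 4) .nil .nil))))) 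
(.nd (nat_lit 4) (.nd (nat_lit 5) 
(.lf (nat_lit 76814) (.g (nat_lit 998) (.e (nat_lit 1798) (nat_lit 119) (.e (nat_lit 516179) (nat_lit 15) (.e (nat_lit 475177) (nat_lit 24) .nil))) .nil)) 
(.lf (nat_lit 76846) (.g (nat_lit 2446) (.e (nat_lit 1799) (nat_lit 119) (.e (nat_lit 516115) (nat_lit 1) (.e (nat_lit 164399) (nat_lit 256) (.e (nat_lit 57371) (nat_lit 2) (.e (nat_lit 90174) (nat_lit 14) (.e (nat_lit 180243) (nat_lit 5) (.e (nat_lit 532513) (nat_lit 3) (.e (nat_lit 114704) (nat_lit 20) .nil)))))))) (.g (nat_lit 4) .nil .nil)))) (.nd (nat_lit 5) 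
(.lf (nat_lit 76830) (.g (nat_lit 2354) (.e (nat_lit 1799) (nat_lit 119) (.e (nat_lit 516115) (nat_lit 1) (.e (nat_lit 164332) (nat_lit 230) (.e (nat_lit 163902) (nat_lit 12) (.e (nat_lit 426566) (nat_lit 34) (.e (nat_lit 393273) (nat_lit 23) (.e (nat_lit 426364) (nat_lit 15) .nil))))))) (.g (nat_lit 4) .nil .nil))) 
(.lf (nat_lit 76862) (.g (nat_lit 3800) (.e (nat_lit 1799) (nat_lit 119) (.e (nat_lit 516115) (nat_lit 1) (.e (nat_lit 164399) (nat_lit 256) (.e (nat_lit 57373) (nat_lit 2) (.e (nat_lit 90172) (nat_lit 14) (.e (nat_lit 180244) (nat_lit 5) (.e (nat_lit 532513) (nat_lit 3) (.e (nat_lit 114699) (nat_lit 20) .nil)))))))) (.g (nat_lit 6) .nil .nil)))))))) 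
(.nd (nat_lit 1) (.nd (nat_lit 2) (.nd (nat_lit 3) (.nd (nat_lit 4) (.nd (nat_lit 5) 
(.lf (nat_lit 76801) (.g (nat_lit 4563) (.e (nat_lit 1798) (nat_lit 119) (.e (nat_lit 516166) (nat_lit 12) (.e (nat_lit 450587) (nat_lit 10) (.e (nat_lit 573478) (nat_lit 12) (.e (nat_lit 57574) (nat_lit 55) .nil))))) .nil)) 
(.lf (nat_lit 76833) (.g (nat_lit 2547) (.e (nat_lit 1799) (nat_lit 119) (.e (nat_lit 516115) (nat_lit 1) (.e (nat_lit 164398) (nat_lit 256) (.e (nat_lit 57372) (nat_lit 2) (.e (nat_lit 90172) (nat_lit 14) .nil))))) .nil))) (.nd (nat_lit 5) 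
(.lf (nat_lit 76817) (.g (nat_lit 2822) (.e (nat_lit 1799) (nat_lit 119) (.e (nat_lit 516115) (nat_lit 1) (.e (nat_lit 164325) (nat_lit 230) (.e (nat_lit 163903) (nat_lit 12) (.e (nat_lit 426566) (nat_lit 34) .nil))))) .nil)) 
(.lf (nat_lit 76849) (.g (nat_lit 3855) (.e (nat_lit 1799) (nat_lit 119) (.e (nat_lit 516115) (nat_lit 1) (.e (nat_lit 164399) (nat_lit 256) (.e (nat_lit 57372) (nat_lit 2) (.e (nat_lit 90172) (nat_lit 14) (.e (nat_lit 180243) (nat_lit 5) (.e (nat_lit 532513) (nat_lit 3) (.e (nat_lit 114704) (nat_lit 20) .nil)))))))) (.g (nat_lit 6) .nil .nil))))) (.nd (nat_lit 4) (.nd (nat_lit 5) 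
(.lf (nat_lit 76809) (.g (nat_lit 5812) (.e (nat_lit 1798) (nat_lit 119) (.e (nat_lit 516166) (nat_lit 12) (.e (nat_lit 450588) (nat_lit 10) (.e (nat_lit 573475) (nat_lit 12) (.e (nat_lit 57574) (nat_lit 55) (.e (nat_lit 778466) (nat_lit 11) (.e (nat_lit 24588) (nat_lit 0) .nil))))))) (.g (nat_lit 5) .nil .nil))) 
(.lf (nat_lit 76841) (.g (nat_lit 1909) (.e (nat_lit 1799) (nat_lit 119) (.e (nat_lit 516115) (nat_lit 1) (.e (nat_lit 164399) (nat_lit 256) (.e (nat_lit 57370) (nat_lit 2) (.e (nat_lit 90172) (nat_lit 14) .nil))))) .nil))) (.nd (nat_lit 5) 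
(.lf (nat_lit 76825) (.g (nat_lit 2601) (.e (nat_lit 1799) (nat_lit 119) (.e (nat_lit 516115) (nat_lit 1) (.e (nat_lit 164325) (nat_lit 230) (.e (nat_lit 163944) (nat_lit 19) (.e (nat_lit 483341) (nat_lit 9) .nil))))) .nil)) 
(.lf (nat_lit 76857) (.g (nat_lit 2732) (.e (nat_lit 1799) (nat_lit 119) (.e (nat_lit 516115) (nat_lit 1) (.e (nat_lit 164399) (nat_lit 256) (.e (nat_lit 57372) (nat_lit 2) (.e (nat_lit 90174) (nat_lit 14) (.e (nat_lit 180243) (nat_lit 5) (.e (nat_lit 532515) (nat_lit 3) (.e (nat_lit 114699) (nat_lit 20) .nil)))))))) (.g (nat_lit 5) .nil .nil)))))) 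
(.nd (nat_lit 3) (.nd (nat_lit 4) (.nd (nat_lit 5) 
(.lf (nat_lit 76805) (.g (nat_lit 4940) (.e (nat_lit 1798) (nat_lit 119) (.e (nat_lit 516166) (nat_lit 12) (.e (nat_lit 450588) (nat_lit 10) (.e (nat_lit 573470) (nat_lit 11) .nil)))) .nil)) 
(.lf (nat_lit 76837) (.g (nat_lit 3298) (.e (nat_lit 1799) (nat_lit 119) (.e (nat_lit 516115) (nat_lit 1) (.e (nat_lit 164398) (nat_lit 256) (.e (nat_lit 57373) (nat_lit 2) (.e (nat_lit 90174) (nat_lit 14) (.e (nat_lit 180243) (nat_lit 5) (.e (nat_lit 532513) (nat_lit 3) (.e (nat_lit 114699) (nat_lit 20) .nil)))))))) (.g (nat_lit 5) .nil .nil)))) (.nd (nat_lit 5) 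
(.lf (nat_lit 76821) (.g (nat_lit 2523) (.e (nat_lit 1799) (nat_lit 119) (.e (nat_lit 516115) (nat_lit 1) (.e (nat_lit 164325) (nat_lit 230) (.e (nat_lit 163907) (nat_lit 12) (.e (nat_lit 426566) (nat_lit 34) .nil))))) .nil)) 
(.lf (nat_lit 76853) (.g (nat_lit 2099) (.e (nat_lit 1799) (nat_lit 119) (.e (nat_lit 516115) (nat_lit 1) (.e (nat_lit 164399) (nat_lit 256) (.e (nat_lit 57372) (nat_lit 2) (.e (nat_lit 90174) (nat_lit 14) .nil))))) .nil)))) (.nd (nat_lit 4) (.nd (nat_lit 5) 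
(.lf (nat_lit 76813) (.g (nat_lit 2204) (.e (nat_lit 1798) (nat_lit 119) (.e (nat_lit 516176) (nat_lit 14) (.e (nat_lit 466981) (nat_lit 23) (.e (nat_lit 204846) (nat_lit 24) (.e (nat_lit 319534) (nat_lit 16) .nil))))) .nil)) 
(.lf (nat_lit 76845) (.g (nat_lit 2454) (.e (nat_lit 1799) (nat_lit 119) (.e (nat_lit 516115) (nat_lit 1) (.e (nat_lit 164399) (nat_lit 256) (.e (nat_lit 57371) (nat_lit 2) (.e (nat_lit 90174) (nat_lit 14) (.e (nat_lit 180243) (nat_lit 5) (.e (nat_lit 532513) (nat_lit 3) (.e (nat_lit 114699) (nat_lit 20) .nil)))))))) (.g (nat_lit 4) .nil .nil)))) (.nd (nat_lit 5) 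
(.lf (nat_lit 76829) (.g (nat_lit 1306) (.e (nat_lit 1799) (nat_lit 119) (.e (nat_lit 516115) (nat_lit 1) (.e (nat_lit 164327) (nat_lit 230) (.e (nat_lit 163944) (nat_lit 19) .nil)))) .nil)) 
(.lf (nat_lit 76861) (.g (nat_lit 2180) (.e (nat_lit 1799) (nat_lit 119) (.e (nat_lit 516115) (nat_lit 1) (.e (nat_lit 164399) (nat_lit 256) (.e (nat_lit 57373) (nat_lit 2) (.e (nat_lit 90172) (nat_lit 14) .nil))))) .nil)))))) (.nd (nat_lit 2) (.nd (nat_lit 3) (.nd (nat_lit 4) (.nd (nat_lit 5) 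
(.lf (nat_lit 76803) (.g (nat_lit 4803) (.e (nat_lit 1798) (nat_lit 119) (.e (nat_lit 516166) (nat_lit 12) (.e (nat_lit 450587) (nat_lit 10) (.e (nat_lit 573478) (nat_lit 12) (.e (nat_lit 57574) (nat_lit 55) (.e (nat_lit 778466) (nat_lit 11) (.e (nat_lit 24588) (nat_lit 0) .nil))))))) (.g (nat_lit 4) .nil .nil))) 
(.lf (nat_lit 76835) (.g (nat_lit 2269) (.e (nat_lit 1799) (nat_lit 119) (.e (nat_lit 516115) (nat_lit 1) (.e (nat_lit 164398) (nat_lit 256) (.e (nat_lit 57373) (nat_lit 2) (.e (nat_lit 90172) (nat_lit 14) (.e (nat_lit 180244) (nat_lit 5) (.e (nat_lit 532513) (nat_lit 3) (.e (nat_lit 114699) (nat_lit 20) .nil)))))))) (.g (nat_lit 4) .nil .nil)))) (.nd (nat_lit 5) 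
(.lf (nat_lit 76819) (.g (nat_lit 1885) (.e (nat_lit 1799) (nat_lit 119) (.e (nat_lit 516115) (nat_lit 1) (.e (nat_lit 164325) (nat_lit 230) (.e (nat_lit 163904) (nat_lit 12) .nil)))) .nil)) 
(.lf (nat_lit 76851) (.g (nat_lit 3180) (.e (nat_lit 1799) (nat_lit 119) (.e (nat_lit 516115) (nat_lit 1) (.e (nat_lit 164399) (nat_lit 256) (.e (nat_lit 57372) (nat_lit 2) (.e (nat_lit 90172) (nat_lit 14) (.e (nat_lit 180244) (nat_lit 5) (.e (nat_lit 532513) (nat_lit 3) (.e (nat_lit 114703) (nat_lit 20) .nil)))))))) (.g (nat_lit 5) .nil .nil))))) (.nd (nat_lit 4) (.nd (nat_lit 5) 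
(.lf (nat_lit 76811) (.g (nat_lit 743) (.e (nat_lit 1798) (nat_lit 119) (.e (nat_lit 516176) (nat_lit 14) (.e (nat_lit 466980) (nat_lit 23) .nil))) .nil)) 
(.lf (nat_lit 76843) (.g (nat_lit 2611) (.e (nat_lit 1799) (nat_lit 119) (.e (nat_lit 516115) (nat_lit 1) (.e (nat_lit 164399) (nat_lit 256) (.e (nat_lit 57370) (nat_lit 2) (.e (nat_lit 90174) (nat_lit 14) (.e (nat_lit 180243) (nat_lit 5) (.e (nat_lit 532513) (nat_lit 3) (.e (nat_lit 114699) (nat_lit 20) .nil)))))))) (.g (nat_lit 5) .nil .nil)))) (.nd (nat_lit 5) 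
(.lf (nat_lit 76827) (.g (nat_lit 1288) (.e (nat_lit 1799) (nat_lit 119) (.e (nat_lit 516115) (nat_lit 1) (.e (nat_lit 164327) (nat_lit 230) (.e (nat_lit 163907) (nat_lit 12) .nil)))) .nil)) 
(.lf (nat_lit 76859) (.g (nat_lit 1937) (.e (nat_lit 1799) (nat_lit 119) (.e (nat_lit 516115) (nat_lit 1) (.e (nat_lit 164399) (nat_lit 256) (.e (nat_lit 57373) (nat_lit 2) (.e (nat_lit 90170) (nat_lit 13) (.e (nat_lit 172065) (nat_lit 3) (.e (nat_lit 204838) (nat_lit 20) (.e (nat_lit 114699) (nat_lit 20) .nil)))))))) (.g (nat_lit 4) .nil .nil)))))) 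
(.nd (nat_lit 3) (.nd (nat_lit 4) (.nd (nat_lit 5) 
(.lf (nat_lit 76807) (.g (nat_lit 7301) (.e (nat_lit 1798) (nat_lit 119) (.e (nat_lit 516166) (nat_lit 12) (.e (nat_lit 450588) (nat_lit 10) (.e (nat_lit 573474) (nat_lit 12) .nil)))) .nil)) 
(.lf (nat_lit 76839) (.g (nat_lit 2338) (.e (nat_lit 1799) (nat_lit 119) (.e (nat_lit 516115) (nat_lit 1) (.e (nat_lit 164398) (nat_lit 256) (.e (nat_lit 57373) (nat_lit 2) (.e (nat_lit 90174) (nat_lit 14) (.e (nat_lit 180243) (nat_lit 5) (.e (nat_lit 532515) (nat_lit 3) (.e (nat_lit 114699) (nat_lit 20) .nil)))))))) (.g (nat_lit 4) .nil .nil)))) (.nd (nat_lit 5) 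
(.lf (nat_lit 76823) (.g (nat_lit 3055) (.e (nat_lit 1799) (nat_lit 119) (.e (nat_lit 516115) (nat_lit 1) (.e (nat_lit 164325) (nat_lit 230) (.e (nat_lit 163907) (nat_lit 12) (.e (nat_lit 433920) (nat_lit 34) .nil))))) .nil)) 
(.lf (nat_lit 76855) (.g (nat_lit 3696) (.e (nat_lit 1799) (nat_lit 119) (.e (nat_lit 516115) (nat_lit 1) (.e (nat_lit 164399) (nat_lit 256) (.e (nat_lit 57372) (nat_lit 2) (.e (nat_lit 90174) (nat_lit 14) (.e (nat_lit 180243) (nat_lit 5) (.e (nat_lit 532513) (nat_lit 3) (.e (nat_lit 114699) (nat_lit 20) .nil)))))))) (.g (nat_lit 6) .nil .nil))))) (.nd (nat_lit 4) (.nd (nat_lit 5) 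
(.lf (nat_lit 76815) (.g (nat_lit 669) (.e (nat_lit 1799) (nat_lit 119) (.e (nat_lit 516115) (nat_lit 1) (.e (nat_lit 164179) (nat_lit 154) .nil))) .nil)) 
(.lf (nat_lit 76847) (.g (nat_lit 2170) (.e (nat_lit 1799) (nat_lit 119) (.e (nat_lit 516115) (nat_lit 1) (.e (nat_lit 164399) (nat_lit 256) (.e (nat_lit 57372) (nat_lit 2) (.e (nat_lit 90172) (nat_lit 14) .nil))))) .nil))) (.nd (nat_lit 5) 
(.lf (nat_lit 76831) (.g (nat_lit 2275) (.e (nat_lit 1799) (nat_lit 119) (.e (nat_lit 516115) (nat_lit 1) (.e (nat_lit 164332) (nat_lit 230) (.e (nat_lit 163905) (nat_lit 12) (.e (nat_lit 426566) (nat_lit 34) (.e (nat_lit 393273) (nat_lit 23) (.e (nat_lit 426364) (nat_lit 15) .nil))))))) (.g (nat_lit 4) .nil .nil))) 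
(.lf (nat_lit 76863) (.g (nat_lit 3116) (.e (nat_lit 1799) (nat_lit 119) (.e (nat_lit 516115) (nat_lit 1) (.e (nat_lit 164399) (nat_lit 256) (.e (nat_lit 57373) (nat_lit 2) (.e (nat_lit 90174) (nat_lit 14) (.e (nat_lit 180243) (nat_lit 5) (.e (nat_lit 532508) (nat_lit 2) (.e (nat_lit 106526) (nat_lit 9) (.e (nat_lit 1023) (nat_lit 81) .nil))))))))) (.g (nat_lit 5) .nil .nil)))))))))

noncomputable def tv1039 : DT := (.nd (nat_lit 0) (.nd (nat_lit 1) (.nd (nat_lit 2) (.nd (nat_lit 3) (.nd (nat_lit 4) (.nd (nat_lit 5) 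
(.lf (nat_lit 76864) (.g (nat_lit 2215) (.e (nat_lit 1799) (nat_lit 119) (.e (nat_lit 516115) (nat_lit 1) (.e (nat_lit 164399) (nat_lit 256) (.e (nat_lit 57373) (nat_lit 2) (.e (nat_lit 90174) (nat_lit 14) (.e (nat_lit 180243) (nat_lit 5) (.e (nat_lit 532511) (nat_lit 2) (.e (nat_lit 106526) (nat_lit 9) (.e (nat_lit 1023) (nat_lit 81) .nil))))))))) (.g (nat_lit 4) .nil .nil))) 
(.lf (nat_lit 76896) (.g (nat_lit 2962) (.e (nat_lit 1799) (nat_lit 119) (.e (nat_lit 516115) (nat_lit 1) (.e (nat_lit 164403) (nat_lit 256) (.e (nat_lit 57373) (nat_lit 2) (.e (nat_lit 90174) (nat_lit 14) (.e (nat_lit 180243) (nat_lit 5) (.e (nat_lit 532513) (nat_lit 3) (.e (nat_lit 114703) (nat_lit 20) .nil)))))))) (.g (nat_lit 4) .nil .nil)))) (.nd (nat_lit 5) 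
(.lf (nat_lit 76880) (.g (nat_lit 2071) (.e (nat_lit 1799) (nat_lit 119) (.e (nat_lit 516115) (nat_lit 1) (.e (nat_lit 164399) (nat_lit 256) (.e (nat_lit 57378) (nat_lit 3) (.e (nat_lit 98358) (nat_lit 26) (.e (nat_lit 426131) (nat_lit 3) (.e (nat_lit 204837) (nat_lit 20) (.e (nat_lit 114704) (nat_lit 20) .nil)))))))) (.g (nat_lit 4) .nil .nil))) 
(.lf (nat_lit 76912) (.g (nat_lit 2379) (.e (nat_lit 1799) (nat_lit 119) (.e (nat_lit 516117) (nat_lit 1) (.e (nat_lit 164330) (nat_lit 230) (.e (nat_lit 163913) (nat_lit 12) (.e (nat_lit 433920) (nat_lit 34) .nil))))) .nil)))) (.nd (nat_lit 4) (.nd (nat_lit 5) 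
(.lf (nat_lit 76872) (.g (nat_lit 2920) (.e (nat_lit 1799) (nat_lit 119) (.e (nat_lit 516115) (nat_lit 1) (.e (nat_lit 164399) (nat_lit 256) (.e (nat_lit 57375) (nat_lit 2) (.e (nat_lit 90172) (nat_lit 14) (.e (nat_lit 180244) (nat_lit 5) (.e (nat_lit 532515) (nat_lit 3) (.e (nat_lit 114699) (nat_lit 20) .nil)))))))) (.g (nat_lit 5) .nil .nil))) 
(.lf (nat_lit 76904) (.g (nat_lit 2425) (.e (nat_lit 1799) (nat_lit 119) (.e (nat_lit 516117) (nat_lit 1) (.e (nat_lit 164329) (nat_lit 230) (.e (nat_lit 163902) (nat_lit 12) (.e (nat_lit 426568) (nat_lit 34) (.e (nat_lit 393267) (nat_lit 23) (.e (nat_lit 426399) (nat_lit 15) .nil))))))) (.g (nat_lit 5) .nil .nil)))) (.nd (nat_lit 5) 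
(.lf (nat_lit 76888) (.g (nat_lit 2140) (.e (nat_lit 1799) (nat_lit 119) (.e (nat_lit 516115) (nat_lit 1) (.e (nat_lit 164399) (nat_lit 256) (.e (nat_lit 57379) (nat_lit 3) (.e (nat_lit 98366) (nat_lit 27) .nil))))) .nil)) 
(.lf (nat_lit 76920) (.g (nat_lit 2339) (.e (nat_lit 1799) (nat_lit 119) (.e (nat_lit 516119) (nat_lit 1) (.e (nat_lit 164403) (nat_lit 256) (.e (nat_lit 57371) (nat_lit 2) (.e (nat_lit 90172) (nat_lit 14) .nil))))) .nil))))) (.nd (nat_lit 3) (.nd (nat_lit 4) (.nd (nat_lit 5) 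
(.lf (nat_lit 76868) (.g (nat_lit 3316) (.e (nat_lit 1799) (nat_lit 119) (.e (nat_lit 516115) (nat_lit 1) (.e (nat_lit 164399) (nat_lit 256) (.e (nat_lit 57374) (nat_lit 2) (.e (nat_lit 90170) (nat_lit 13) (.e (nat_lit 172067) (nat_lit 3) (.e (nat_lit 204837) (nat_lit 20) (.e (nat_lit 114699) (nat_lit 20) .nil)))))))) (.g (nat_lit 5) .nil .nil))) 
(.lf (nat_lit 76900) (.g (nat_lit 1046) (.e (nat_lit 1799) (nat_lit 119) (.e (nat_lit 516117) (nat_lit 1) (.e (nat_lit 164329) (nat_lit 230) (.e (nat_lit 163902) (nat_lit 12) .nil)))) .nil))) (.nd (nat_lit 5) 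
(.lf (nat_lit 76884) (.g (nat_lit 2206) (.e (nat_lit 1799) (nat_lit 119) (.e (nat_lit 516115) (nat_lit 1) (.e (nat_lit 164399) (nat_lit 256) (.e (nat_lit 57378) (nat_lit 3) (.e (nat_lit 98367) (nat_lit 27) .nil))))) .nil)) 
(.lf (nat_lit 76916) (.g (nat_lit 670) (.e (nat_lit 1799) (nat_lit 119) (.e (nat_lit 516119) (nat_lit 1) (.e (nat_lit 164179) (nat_lit 154) .nil))) .nil)))) (.nd (nat_lit 4) (.nd (nat_lit 5) 
(.lf (nat_lit 76876) (.g (nat_lit 3335) (.e (nat_lit 1799) (nat_lit 119) (.e (nat_lit 516115) (nat_lit 1) (.e (nat_lit 164399) (nat_lit 256) (.e (nat_lit 57375) (nat_lit 2) (.e (nat_lit 90174) (nat_lit 14) (.e (nat_lit 180243) (nat_lit 5) (.e (nat_lit 532513) (nat_lit 3) (.e (nat_lit 114704) (nat_lit 20) .nil)))))))) (.g (nat_lit 6) .nil .nil))) 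
(.lf (nat_lit 76908) (.g (nat_lit 664) (.e (nat_lit 1799) (nat_lit 119) (.e (nat_lit 516117) (nat_lit 1) (.e (nat_lit 164330) (nat_lit 230) .nil))) .nil))) (.nd (nat_lit 5) 
(.lf (nat_lit 76892) (.g (nat_lit 2338) (.e (nat_lit 1799) (nat_lit 119) (.e (nat_lit 516115) (nat_lit 1) (.e (nat_lit 164403) (nat_lit 256) (.e (nat_lit 57371) (nat_lit 2) (.e (nat_lit 90174) (nat_lit 14) (.e (nat_lit 180243) (nat_lit 5) (.e (nat_lit 532513) (nat_lit 3) (.e (nat_lit 114699) (nat_lit 20) .nil)))))))) (.g (nat_lit 4) .nil .nil))) 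
(.lf (nat_lit 76924) (.g (nat_lit 2750) (.e (nat_lit 1799) (nat_lit 119) (.e (nat_lit 516119) (nat_lit 1) (.e (nat_lit 164403) (nat_lit 256) (.e (nat_lit 57373) (nat_lit 2) (.e (nat_lit 90174) (nat_lit 14) (.e (nat_lit 180243) (nat_lit 5) (.e (nat_lit 532513) (nat_lit 3) (.e (nat_lit 114703) (nat_lit 20) .nil)))))))) (.g (nat_lit 4) .nil .nil))))))) 
(.nd (nat_lit 2) (.nd (nat_lit 3) (.nd (nat_lit 4) (.nd (nat_lit 5) 
(.lf (nat_lit 76866) (.g (nat_lit 4439) (.e (nat_lit 1799) (nat_lit 119) (.e (nat_lit 516115) (nat_lit 1) (.e (nat_lit 164399) (nat_lit 256) (.e (nat_lit 57373) (nat_lit 2) (.e (nat_lit 90174) (nat_lit 14) (.e (nat_lit 180243) (nat_lit 5) (.e (nat_lit 532513) (nat_lit 3) (.e (nat_lit 114704) (nat_lit 20) .nil)))))))) (.g (nat_lit 7) .nil .nil))) 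
(.lf (nat_lit 76898) (.g (nat_lit 2214) (.e (nat_lit 1799) (nat_lit 119) (.e (nat_lit 516116) (nat_lit 1) (.e (nat_lit 164332) (nat_lit 230) (.e (nat_lit 163905) (nat_lit 12) (.e (nat_lit 426566) (nat_lit 34) (.e (nat_lit 393273) (nat_lit 23) (.e (nat_lit 426364) (nat_lit 15) .nil))))))) (.g (nat_lit 4) .nil .nil)))) (.nd (nat_lit 5) 
(.lf (nat_lit 76882) (.g (nat_lit 2387) (.e (nat_lit 1799) (nat_lit 119) (.e (nat_lit 516115) (nat_lit 1) (.e (nat_lit 164399) (nat_lit 256) (.e (nat_lit 57378) (nat_lit 3) (.e (nat_lit 98366) (nat_lit 27) .nil))))) .nil)) 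
(.lf (nat_lit 76914) (.g (nat_lit 2290) (.e (nat_lit 1799) (nat_lit 119) (.e (nat_lit 516117) (nat_lit 1) (.e (nat_lit 164398) (nat_lit 256) (.e (nat_lit 57373) (nat_lit 2) (.e (nat_lit 90174) (nat_lit 14) .nil))))) .nil)))) (.nd (nat_lit 4) (.nd (nat_lit 5) 
(.lf (nat_lit 76874) (.g (nat_lit 3343) (.e (nat_lit 1799) (nat_lit 119) (.e (nat_lit 516115) (nat_lit 1) (.e (nat_lit 164399) (nat_lit 256) (.e (nat_lit 57375) (nat_lit 2) (.e (nat_lit 90174) (nat_lit 14) (.e (nat_lit 180243) (nat_lit 5) (.e (nat_lit 532513) (nat_lit 3) (.e (nat_lit 114699) (nat_lit 20) .nil)))))))) (.g (nat_lit 6) .nil .nil))) 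
(.lf (nat_lit 76906) (.g (nat_lit 1950) (.e (nat_lit 1799) (nat_lit 119) (.e (nat_lit 516117) (nat_lit 1) (.e (nat_lit 164329) (nat_lit 230) (.e (nat_lit 163902) (nat_lit 12) (.e (nat_lit 426568) (nat_lit 34) (.e (nat_lit 393271) (nat_lit 23) (.e (nat_lit 426362) (nat_lit 15) .nil))))))) (.g (nat_lit 4) .nil .nil)))) (.nd (nat_lit 5) 
(.lf (nat_lit 76890) (.g (nat_lit 1962) (.e (nat_lit 1799) (nat_lit 119) (.e (nat_lit 516115) (nat_lit 1) (.e (nat_lit 164399) (nat_lit 256) (.e (nat_lit 57379) (nat_lit 3) (.e (nat_lit 98376) (nat_lit 30) .nil))))) .nil)) 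
(.lf (nat_lit 76922) (.g (nat_lit 2923) (.e (nat_lit 1799) (nat_lit 119) (.e (nat_lit 516119) (nat_lit 1) (.e (nat_lit 164403) (nat_lit 256) (.e (nat_lit 57373) (nat_lit 2) (.e (nat_lit 90172) (nat_lit 14) (.e (nat_lit 180244) (nat_lit 5) (.e (nat_lit 532513) (nat_lit 3) (.e (nat_lit 114704) (nat_lit 20) .nil)))))))) (.g (nat_lit 4) .nil .nil)))))) 
(.nd (nat_lit 3) (.nd (nat_lit 4) (.nd (nat_lit 5) 
(.lf (nat_lit 76870) (.g (nat_lit 2419) (.e (nat_lit 1799) (nat_lit 119) (.e (nat_lit 516115) (nat_lit 1) (.e (nat_lit 164399) (nat_lit 256) (.e (nat_lit 57375) (nat_lit 2) (.e (nat_lit 90172) (nat_lit 14) (.e (nat_lit 180243) (nat_lit 5) (.e (nat_lit 532513) (nat_lit 3) (.e (nat_lit 114703) (nat_lit 20) .nil)))))))) (.g (nat_lit 4) .nil .nil))) 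
(.lf (nat_lit 76902) (.g (nat_lit 2703) (.e (nat_lit 1799) (nat_lit 119) (.e (nat_lit 516117) (nat_lit 1) (.e (nat_lit 164329) (nat_lit 230) (.e (nat_lit 163902) (nat_lit 12) (.e (nat_lit 426568) (nat_lit 34) (.e (nat_lit 393267) (nat_lit 23) (.e (nat_lit 426362) (nat_lit 15) .nil))))))) (.g (nat_lit 5) .nil .nil)))) (.nd (nat_lit 5) 
(.lf (nat_lit 76886) (.g (nat_lit 2211) (.e (nat_lit 1799) (nat_lit 119) (.e (nat_lit 516115) (nat_lit 1) (.e (nat_lit 164399) (nat_lit 256) (.e (nat_lit 57378) (nat_lit 3) (.e (nat_lit 98376) (nat_lit 30) .nil))))) .nil)) 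
(.lf (nat_lit 76918) (.g (nat_lit 2077) (.e (nat_lit 1799) (nat_lit 119) (.e (nat_lit 516119) (nat_lit 1) (.e (nat_lit 164325) (nat_lit 230) (.e (nat_lit 163907) (nat_lit 12) (.e (nat_lit 426566) (nat_lit 34) (.e (nat_lit 393273) (nat_lit 23) (.e (nat_lit 426364) (nat_lit 15) .nil))))))) (.g (nat_lit 4) .nil .nil))))) (.nd (nat_lit 4) (.nd (nat_lit 5) 
(.lf (nat_lit 76878) (.g (nat_lit 1886) (.e (nat_lit 1799) (nat_lit 119) (.e (nat_lit 516115) (nat_lit 1) (.e (nat_lit 164399) (nat_lit 256) (.e (nat_lit 57378) (nat_lit 3) (.e (nat_lit 98358) (nat_lit 26) .nil))))) .nil)) 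
(.lf (nat_lit 76910) (.g (nat_lit 2248) (.e (nat_lit 1799) (nat_lit 119) (.e (nat_lit 516117) (nat_lit 1) (.e (nat_lit 164330) (nat_lit 230) (.e (nat_lit 163905) (nat_lit 12) (.e (nat_lit 426566) (nat_lit 34) (.e (nat_lit 393273) (nat_lit 23) (.e (nat_lit 426364) (nat_lit 15) .nil))))))) (.g (nat_lit 4) .nil .nil)))) (.nd (nat_lit 5) 
(.lf (nat_lit 76894) (.g (nat_lit 2938) (.e (nat_lit 1799) (nat_lit 119) (.e (nat_lit 516115) (nat_lit 1) (.e (nat_lit 164403) (nat_lit 256) (.e (nat_lit 57373) (nat_lit 2) (.e (nat_lit 90172) (nat_lit 14) (.e (nat_lit 180244) (nat_lit 5) (.e (nat_lit 532513) (nat_lit 3) (.e (nat_lit 114699) (nat_lit 20) .nil)))))))) (.g (nat_lit 4) .nil .nil))) 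
(.lf (nat_lit 76926) (.g (nat_lit 1976) (.e (nat_lit 1799) (nat_lit 119) (.e (nat_lit 516120) (nat_lit 1) (.e (nat_lit 164329) (nat_lit 230) (.e (nat_lit 163902) (nat_lit 12) (.e (nat_lit 426479) (nat_lit 27) (.e (nat_lit 336430) (nat_lit 29) (.e (nat_lit 450304) (nat_lit 0) .nil))))))) (.g (nat_lit 4) .nil .nil)))))))) 
(.nd (nat_lit 1) (.nd (nat_lit 2) (.nd (nat_lit 3) (.nd (nat_lit 4) (.nd (nat_lit 5) 
(.lf (nat_lit 76865) (.g (nat_lit 4447) (.e (nat_lit 1799) (nat_lit 119) (.e (nat_lit 516115) (nat_lit 1) (.e (nat_lit 164399) (nat_lit 256) (.e (nat_lit 57373) (nat_lit 2) (.e (nat_lit 90174) (nat_lit 14) (.e (nat_lit 180243) (nat_lit 5) (.e (nat_lit 532513) (nat_lit 3) (.e (nat_lit 114699) (nat_lit 20) .nil)))))))) (.g (nat_lit 7) .nil .nil))) 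
(.lf (nat_lit 76897) (.g (nat_lit 2850) (.e (nat_lit 1799) (nat_lit 119) (.e (nat_lit 516116) (nat_lit 1) (.e (nat_lit 164330) (nat_lit 230) (.e (nat_lit 163902) (nat_lit 12) (.e (nat_lit 426566) (nat_lit 34) (.e (nat_lit 393273) (nat_lit 23) (.e (nat_lit 426364) (nat_lit 15) .nil))))))) (.g (nat_lit 4) .nil .nil)))) (.nd (nat_lit 5) 
(.lf (nat_lit 76881) (.g (nat_lit 2141) (.e (nat_lit 1799) (nat_lit 119) (.e (nat_lit 516115) (nat_lit 1) (.e (nat_lit 164399) (nat_lit 256) (.e (nat_lit 57378) (nat_lit 3) (.e (nat_lit 98358) (nat_lit 26) (.e (nat_lit 426131) (nat_lit 3) (.e (nat_lit 204838) (nat_lit 20) (.e (nat_lit 114699) (nat_lit 20) .nil)))))))) (.g (nat_lit 4) .nil .nil))) 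
(.lf (nat_lit 76913) (.g (nat_lit 921) (.e (nat_lit 1799) (nat_lit 119) (.e (nat_lit 516117) (nat_lit 1) (.e (nat_lit 164398) (nat_lit 256) .nil))) .nil)))) (.nd (nat_lit 4) (.nd (nat_lit 5) 
(.lf (nat_lit 76873) (.g (nat_lit 2010) (.e (nat_lit 1799) (nat_lit 119) (.e (nat_lit 516115) (nat_lit 1) (.e (nat_lit 164399) (nat_lit 256) (.e (nat_lit 57375) (nat_lit 2) (.e (nat_lit 90174) (nat_lit 14) .nil))))) .nil)) 
(.lf (nat_lit 76905) (.g (nat_lit 1931) (.e (nat_lit 1799) (nat_lit 119) (.e (nat_lit 516117) (nat_lit 1) (.e (nat_lit 164329) (nat_lit 230) (.e (nat_lit 163902) (nat_lit 12) (.e (nat_lit 426568) (nat_lit 34) (.e (nat_lit 393271) (nat_lit 23) (.e (nat_lit 426360) (nat_lit 15) .nil))))))) (.g (nat_lit 4) .nil .nil)))) (.nd (nat_lit 5) 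
(.lf (nat_lit 76889) (.g (nat_lit 2294) (.e (nat_lit 1799) (nat_lit 119) (.e (nat_lit 516115) (nat_lit 1) (.e (nat_lit 164399) (nat_lit 256) (.e (nat_lit 57379) (nat_lit 3) (.e (nat_lit 98366) (nat_lit 27) (.e (nat_lit 434231) (nat_lit 23) (.e (nat_lit 532514) (nat_lit 3) (.e (nat_lit 114699) (nat_lit 20) .nil)))))))) (.g (nat_lit 4) .nil .nil))) 
(.lf (nat_lit 76921) (.g (nat_lit 2737) (.e (nat_lit 1799) (nat_lit 119) (.e (nat_lit 516119) (nat_lit 1) (.e (nat_lit 164403) (nat_lit 256) (.e (nat_lit 57373) (nat_lit 2) (.e (nat_lit 90172) (nat_lit 14) (.e (nat_lit 180244) (nat_lit 5) (.e (nat_lit 532513) (nat_lit 3) (.e (nat_lit 114699) (nat_lit 20) .nil)))))))) (.g (nat_lit 4) .nil .nil)))))) 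
(.nd (nat_lit 3) (.nd (nat_lit 4) (.nd (nat_lit 5) 
(.lf (nat_lit 76869) (.g (nat_lit 3481) (.e (nat_lit 1799) (nat_lit 119) (.e (nat_lit 516115) (nat_lit 1) (.e (nat_lit 164399) (nat_lit 256) (.e (nat_lit 57374) (nat_lit 2) (.e (nat_lit 90170) (nat_lit 13) (.e (nat_lit 172067) (nat_lit 3) (.e (nat_lit 204837) (nat_lit 20) (.e (nat_lit 114704) (nat_lit 20) .nil)))))))) (.g (nat_lit 5) .nil .nil))) 
(.lf (nat_lit 76901) (.g (nat_lit 1897) (.e (nat_lit 1799) (nat_lit 119) (.e (nat_lit 516117) (nat_lit 1) (.e (nat_lit 164329) (nat_lit 230) (.e (nat_lit 163902) (nat_lit 12) (.e (nat_lit 426568) (nat_lit 34) (.e (nat_lit 393267) (nat_lit 23) (.e (nat_lit 426360) (nat_lit 15) .nil))))))) (.g (nat_lit 4) .nil .nil)))) (.nd (nat_lit 5) 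
(.lf (nat_lit 76885) (.g (nat_lit 2291) (.e (nat_lit 1799) (nat_lit 119) (.e (nat_lit 516115) (nat_lit 1) (.e (nat_lit 164399) (nat_lit 256) (.e (nat_lit 57378) (nat_lit 3) (.e (nat_lit 98367) (nat_lit 27) (.e (nat_lit 434231) (nat_lit 23) (.e (nat_lit 532514) (nat_lit 3) (.e (nat_lit 114699) (nat_lit 20) .nil)))))))) (.g (nat_lit 4) .nil .nil))) 
(.lf (nat_lit 76917) (.g (nat_lit 2590) (.e (nat_lit 1799) (nat_lit 119) (.e (nat_lit 516119) (nat_lit 1) (.e (nat_lit 164325) (nat_lit 230) (.e (nat_lit 163903) (nat_lit 12) (.e (nat_lit 426566) (nat_lit 34) (.e (nat_lit 393273) (nat_lit 23) (.e (nat_lit 426364) (nat_lit 15) .nil))))))) (.g (nat_lit 4) .nil .nil))))) (.nd (nat_lit 4) (.nd (nat_lit 5) 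
(.lf (nat_lit 76877) (.g (nat_lit 2360) (.e (nat_lit 1799) (nat_lit 119) (.e (nat_lit 516115) (nat_lit 1) (.e (nat_lit 164399) (nat_lit 256) (.e (nat_lit 57375) (nat_lit 2) (.e (nat_lit 90174) (nat_lit 14) (.e (nat_lit 180243) (nat_lit 5) (.e (nat_lit 532515) (nat_lit 3) (.e (nat_lit 114699) (nat_lit 20) .nil)))))))) (.g (nat_lit 4) .nil .nil))) 
(.lf (nat_lit 76909) (.g (nat_lit 3372) (.e (nat_lit 1799) (nat_lit 119) (.e (nat_lit 516117) (nat_lit 1) (.e (nat_lit 164330) (nat_lit 230) (.e (nat_lit 163902) (nat_lit 12) (.e (nat_lit 426566) (nat_lit 34) (.e (nat_lit 393273) (nat_lit 23) (.e (nat_lit 426364) (nat_lit 15) .nil))))))) (.g (nat_lit 5) .nil .nil)))) (.nd (nat_lit 5) 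
(.lf (nat_lit 76893) (.g (nat_lit 2330) (.e (nat_lit 1799) (nat_lit 119) (.e (nat_lit 516115) (nat_lit 1) (.e (nat_lit 164403) (nat_lit 256) (.e (nat_lit 57371) (nat_lit 2) (.e (nat_lit 90174) (nat_lit 14) (.e (nat_lit 180243) (nat_lit 5) (.e (nat_lit 532513) (nat_lit 3) (.e (nat_lit 114704) (nat_lit 20) .nil)))))))) (.g (nat_lit 4) .nil .nil))) 
(.lf (nat_lit 76925) (.g (nat_lit 1256) (.e (nat_lit 1799) (nat_lit 119) (.e (nat_lit 516120) (nat_lit 1) (.e (nat_lit 164329) (nat_lit 230) (.e (nat_lit 163902) (nat_lit 12) .nil)))) .nil)))))) (.nd (nat_lit 2) (.nd (nat_lit 3) (.nd (nat_lit 4) (.nd (nat_lit 5) 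
(.lf (nat_lit 76867) (.g (nat_lit 3487) (.e (nat_lit 1799) (nat_lit 119) (.e (nat_lit 516115) (nat_lit 1) (.e (nat_lit 164399) (nat_lit 256) (.e (nat_lit 57373) (nat_lit 2) (.e (nat_lit 90174) (nat_lit 14) (.e (nat_lit 180243) (nat_lit 5) (.e (nat_lit 532515) (nat_lit 3) (.e (nat_lit 114699) (nat_lit 20) .nil)))))))) (.g (nat_lit 6) .nil .nil))) 
(.lf (nat_lit 76899) (.g (nat_lit 662) (.e (nat_lit 1799) (nat_lit 119) (.e (nat_lit 516117) (nat_lit 1) (.e (nat_lit 164305) (nat_lit 226) .nil))) .nil))) (.nd (nat_lit 5) 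
(.lf (nat_lit 76883) (.g (nat_lit 2443) (.e (nat_lit 1799) (nat_lit 119) (.e (nat_lit 516115) (nat_lit 1) (.e (nat_lit 164399) (nat_lit 256) (.e (nat_lit 57378) (nat_lit 3) (.e (nat_lit 98366) (nat_lit 27) (.e (nat_lit 434231) (nat_lit 23) (.e (nat_lit 532514) (nat_lit 3) (.e (nat_lit 114699) (nat_lit 20) .nil)))))))) (.g (nat_lit 4) .nil .nil))) 
(.lf (nat_lit 76915) (.g (nat_lit 2376) (.e (nat_lit 1799) (nat_lit 119) (.e (nat_lit 516117) (nat_lit 1) (.e (nat_lit 164399) (nat_lit 256) (.e (nat_lit 57373) (nat_lit 2) (.e (nat_lit 90174) (nat_lit 14) .nil))))) .nil)))) (.nd (nat_lit 4) (.nd (nat_lit 5) 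
(.lf (nat_lit 76875) (.g (nat_lit 2804) (.e (nat_lit 1799) (nat_lit 119) (.e (nat_lit 516115) (nat_lit 1) (.e (nat_lit 164399) (nat_lit 256) (.e (nat_lit 57375) (nat_lit 2) (.e (nat_lit 90174) (nat_lit 14) (.e (nat_lit 180243) (nat_lit 5) (.e (nat_lit 532513) (nat_lit 3) (.e (nat_lit 114703) (nat_lit 20) .nil)))))))) (.g (nat_lit 5) .nil .nil))) 
(.lf (nat_lit 76907) (.g (nat_lit 1946) (.e (nat_lit 1799) (nat_lit 119) (.e (nat_lit 516117) (nat_lit 1) (.e (nat_lit 164329) (nat_lit 230) (.e (nat_lit 163902) (nat_lit 12) (.e (nat_lit 426568) (nat_lit 34) (.e (nat_lit 393271) (nat_lit 23) (.e (nat_lit 426399) (nat_lit 15) .nil))))))) (.g (nat_lit 4) .nil .nil)))) (.nd (nat_lit 5) 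
(.lf (nat_lit 76891) (.g (nat_lit 2029) (.e (nat_lit 1799) (nat_lit 119) (.e (nat_lit 516115) (nat_lit 1) (.e (nat_lit 164399) (nat_lit 256) (.e (nat_lit 57379) (nat_lit 3) (.e (nat_lit 98377) (nat_lit 30) .nil))))) .nil)) 
(.lf (nat_lit 76923) (.g (nat_lit 2521) (.e (nat_lit 1799) (nat_lit 119) (.e (nat_lit 516119) (nat_lit 1) (.e (nat_lit 164403) (nat_lit 256) (.e (nat_lit 57373) (nat_lit 2) (.e (nat_lit 90174) (nat_lit 14) .nil))))) .nil))))) (.nd (nat_lit 3) (.nd (nat_lit 4) (.nd (nat_lit 5) 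
(.lf (nat_lit 76871) (.g (nat_lit 2948) (.e (nat_lit 1799) (nat_lit 119) (.e (nat_lit 516115) (nat_lit 1) (.e (nat_lit 164399) (nat_lit 256) (.e (nat_lit 57375) (nat_lit 2) (.e (nat_lit 90172) (nat_lit 14) (.e (nat_lit 180244) (nat_lit 5) (.e (nat_lit 532513) (nat_lit 3) (.e (nat_lit 114703) (nat_lit 20) .nil)))))))) (.g (nat_lit 5) .nil .nil))) 
(.lf (nat_lit 76903) (.g (nat_lit 2684) (.e (nat_lit 1799) (nat_lit 119) (.e (nat_lit 516117) (nat_lit 1) (.e (nat_lit 164329) (nat_lit 230) (.e (nat_lit 163902) (nat_lit 12) (.e (nat_lit 426568) (nat_lit 34) (.e (nat_lit 393267) (nat_lit 23) (.e (nat_lit 426363) (nat_lit 15) .nil))))))) (.g (nat_lit 5) .nil .nil)))) (.nd (nat_lit 5) 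
(.lf (nat_lit 76887) (.g (nat_lit 2230) (.e (nat_lit 1799) (nat_lit 119) (.e (nat_lit 516115) (nat_lit 1) (.e (nat_lit 164399) (nat_lit 256) (.e (nat_lit 57378) (nat_lit 3) (.e (nat_lit 98377) (nat_lit 30) .nil))))) .nil)) 
(.lf (nat_lit 76919) (.g (nat_lit 2979) (.e (nat_lit 1799) (nat_lit 119) (.e (nat_lit 516119) (nat_lit 1) (.e (nat_lit 164326) (nat_lit 230) (.e (nat_lit 163903) (nat_lit 12) (.e (nat_lit 426566) (nat_lit 34) (.e (nat_lit 393273) (nat_lit 23) (.e (nat_lit 426364) (nat_lit 15) .nil))))))) (.g (nat_lit 5) .nil .nil))))) (.nd (nat_lit 4) (.nd (nat_lit 5) 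
(.lf (nat_lit 76879) (.g (nat_lit 1903) (.e (nat_lit 1799) (nat_lit 119) (.e (nat_lit 516115) (nat_lit 1) (.e (nat_lit 164399) (nat_lit 256) (.e (nat_lit 57378) (nat_lit 3) (.e (nat_lit 98358) (nat_lit 26) (.e (nat_lit 426131) (nat_lit 3) (.e (nat_lit 204837) (nat_lit 20) (.e (nat_lit 114699) (nat_lit 20) .nil)))))))) (.g (nat_lit 4) .nil .nil))) 
(.lf (nat_lit 76911) (.g (nat_lit 2533) (.e (nat_lit 1799) (nat_lit 119) (.e (nat_lit 516117) (nat_lit 1) (.e (nat_lit 164330) (nat_lit 230) (.e (nat_lit 163913) (nat_lit 12) (.e (nat_lit 426565) (nat_lit 34) (.e (nat_lit 393273) (nat_lit 23) (.e (nat_lit 426364) (nat_lit 15) .nil))))))) (.g (nat_lit 5) .nil .nil)))) (.nd (nat_lit 5) 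
(.lf (nat_lit 76895) (.g (nat_lit 3124) (.e (nat_lit 1799) (nat_lit 119) (.e (nat_lit 516115) (nat_lit 1) (.e (nat_lit 164403) (nat_lit 256) (.e (nat_lit 57373) (nat_lit 2) (.e (nat_lit 90172) (nat_lit 14) (.e (nat_lit 180244) (nat_lit 5) (.e (nat_lit 532513) (nat_lit 3) (.e (nat_lit 114704) (nat_lit 20) .nil)))))))) (.g (nat_lit 4) .nil .nil))) 
(.lf (nat_lit 76927) (.g (nat_lit 1770) (.e (nat_lit 1799) (nat_lit 119) (.e (nat_lit 516120) (nat_lit 1) (.e (nat_lit 164329) (nat_lit 230) (.e (nat_lit 163902) (nat_lit 12) (.e (nat_lit 426568) (nat_lit 34) .nil))))) .nil))))))))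

noncomputable def tv1040 : DT := (.nd (nat_lit 0) (.nd (nat_lit 1) (.nd (nat_lit 2) (.nd (nat_lit 3) (.nd (nat_lit 4) (.nd (nat_lit 5) (.nd (nat_lit 6) 
(.lf (nat_lit 76928) (.g (nat_lit 2038) (.e (nat_lit 1799) (nat_lit 119) (.e (nat_lit 516120) (nat_lit 1) (.e (nat_lit 164329) (nat_lit 230) (.e (nat_lit 163902) (nat_lit 12) (.e (nat_lit 426568) (nat_lit 34) (.e (nat_lit 393266) (nat_lit 23) (.e (nat_lit 426362) (nat_lit 15) .nil))))))) (.g (nat_lit 4) .nil .nil))) 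
(.lf (nat_lit 76992) (.g (nat_lit 4850) (.e (nat_lit 1799) (nat_lit 119) (.e (nat_lit 516151) (nat_lit 9) (.e (nat_lit 426211) (nat_lit 9) (.e (nat_lit 426125) (nat_lit 2) (.e (nat_lit 196637) (nat_lit 9) .nil))))) .nil))) (.nd (nat_lit 6) 
(.lf (nat_lit 76960) (.g (nat_lit 2275) (.e (nat_lit 1799) (nat_lit 119) (.e (nat_lit 516129) (nat_lit 3) (.e (nat_lit 221210) (nat_lit 22) (.e (nat_lit 196670) (nat_lit 14) (.e (nat_lit 73746) (nat_lit 3) (.e (nat_lit 516120) (nat_lit 1) (.e (nat_lit 164184) (nat_lit 155) (.e (nat_lit 122883) (nat_lit 0) .nil)))))))) (.g (nat_lit 4) .nil .nil))) 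
(.lf (nat_lit 77024) (.g (nat_lit 5158) (.e (nat_lit 1799) (nat_lit 119) (.e (nat_lit 516165) (nat_lit 12) (.e (nat_lit 450579) (nat_lit 5) (.e (nat_lit 532522) (nat_lit 7) (.e (nat_lit 319530) (nat_lit 16) (.e (nat_lit 286727) (nat_lit 0) .nil)))))) (.g (nat_lit 0) .nil .nil))))) (.nd (nat_lit 5) (.nd (nat_lit 6) 
(.lf (nat_lit 76944) (.g (nat_lit 548) (.e (nat_lit 1799) (nat_lit 119) (.e (nat_lit 516129) (nat_lit 3) (.e (nat_lit 221192) (nat_lit 11) .nil))) .nil)) 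
(.lf (nat_lit 77008) (.g (nat_lit 1616) (.e (nat_lit 1799) (nat_lit 119) (.e (nat_lit 516151) (nat_lit 9) (.e (nat_lit 426286) (nat_lit 10) .nil))) .nil))) (.nd (nat_lit 6) 
(.lf (nat_lit 76976) (.g (nat_lit 1542) (.e (nat_lit 1799) (nat_lit 119) (.e (nat_lit 516139) (nat_lit 7) (.e (nat_lit 409648) (nat_lit 18) (.e (nat_lit 303118) (nat_lit 3) .nil)))) .nil)) 
(.lf (nat_lit 77040) (.g (nat_lit 3040) (.e (nat_lit 1799) (nat_lit 119) (.e (nat_lit 516166) (nat_lit 12) (.e (nat_lit 450578) (nat_lit 5) (.e (nat_lit 532523) (nat_lit 7) (.e (nat_lit 327424) (nat_lit 16) .nil))))) .nil))))) (.nd (nat_lit 4) (.nd (nat_lit 5) (.nd (nat_lit 6) 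
(.lf (nat_lit 76936) (.g (nat_lit 1286) (.e (nat_lit 1799) (nat_lit 119) (.e (nat_lit 516120) (nat_lit 1) (.e (nat_lit 164329) (nat_lit 230) (.e (nat_lit 163941) (nat_lit 19) .nil)))) .nil)) 
(.lf (nat_lit 77000) (.g (nat_lit 5466) (.e (nat_lit 1799) (nat_lit 119) (.e (nat_lit 516151) (nat_lit 9) (.e (nat_lit 426211) (nat_lit 9) (.e (nat_lit 426140) (nat_lit 3) (.e (nat_lit 204845) (nat_lit 24) (.e (nat_lit 319529) (nat_lit 16) (.e (nat_lit 286727) (nat_lit 0) .nil))))))) (.g (nat_lit 6) .nil .nil)))) (.nd (nat_lit 6) 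
(.lf (nat_lit 76968) (.g (nat_lit 3271) (.e (nat_lit 1799) (nat_lit 119) (.e (nat_lit 516131) (nat_lit 3) (.e (nat_lit 221212) (nat_lit 22) (.e (nat_lit 196670) (nat_lit 14) (.e (nat_lit 73746) (nat_lit 3) (.e (nat_lit 516119) (nat_lit 1) (.e (nat_lit 164184) (nat_lit 155) (.e (nat_lit 122883) (nat_lit 0) .nil)))))))) (.g (nat_lit 7) .nil .nil))) 
(.lf (nat_lit 77032) (.g (nat_lit 2058) (.e (nat_lit 1799) (nat_lit 119) (.e (nat_lit 516166) (nat_lit 12) (.e (nat_lit 450574) (nat_lit 1) (.e (nat_lit 499967) (nat_lit 14) .nil)))) .nil)))) (.nd (nat_lit 5) (.nd (nat_lit 6) 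
(.lf (nat_lit 76952) (.g (nat_lit 4743) (.e (nat_lit 1799) (nat_lit 119) (.e (nat_lit 516129) (nat_lit 3) (.e (nat_lit 221210) (nat_lit 22) (.e (nat_lit 196668) (nat_lit 14) (.e (nat_lit 73747) (nat_lit 3) (.e (nat_lit 516115) (nat_lit 1) (.e (nat_lit 164179) (nat_lit 154) (.e (nat_lit 57354) (nat_lit 0) .nil)))))))) (.g (nat_lit 7) .nil .nil))) 
(.lf (nat_lit 77016) (.g (nat_lit 1284) (.e (nat_lit 1799) (nat_lit 119) (.e (nat_lit 516163) (nat_lit 11) (.e (nat_lit 442427) (nat_lit 23) (.e (nat_lit 204821) (nat_lit 17) .nil)))) .nil))) (.nd (nat_lit 6) 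
(.lf (nat_lit 76984) (.g (nat_lit 2828) (.e (nat_lit 1799) (nat_lit 119) (.e (nat_lit 516151) (nat_lit 9) (.e (nat_lit 426211) (nat_lit 9) (.e (nat_lit 426125) (nat_lit 2) .nil)))) .nil)) 
(.lf (nat_lit 77048) (.g (nat_lit 2924) (.e (nat_lit 1799) (nat_lit 119) (.e (nat_lit 516166) (nat_lit 12) (.e (nat_lit 450579) (nat_lit 5) (.e (nat_lit 532523) (nat_lit 7) (.e (nat_lit 319533) (nat_lit 16) .nil))))) .nil)))))) (.nd (nat_lit 3) (.nd (nat_lit 4) (.nd (nat_lit 5) (.nd (nat_lit 6) 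
(.lf (nat_lit 76932) (.g (nat_lit 1817) (.e (nat_lit 1799) (nat_lit 119) (.e (nat_lit 516120) (nat_lit 1) (.e (nat_lit 164329) (nat_lit 230) (.e (nat_lit 163902) (nat_lit 12) (.e (nat_lit 426568) (nat_lit 34) (.e (nat_lit 393268) (nat_lit 23) (.e (nat_lit 426363) (nat_lit 15) .nil))))))) (.g (nat_lit 4) .nil .nil))) 
(.lf (nat_lit 76996) (.g (nat_lit 5447) (.e (nat_lit 1799) (nat_lit 119) (.e (nat_lit 516151) (nat_lit 9) (.e (nat_lit 426211) (nat_lit 9) (.e (nat_lit 426125) (nat_lit 2) (.e (nat_lit 196643) (nat_lit 9) .nil))))) .nil))) (.nd (nat_lit 6) 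
(.lf (nat_lit 76964) (.g (nat_lit 2460) (.e (nat_lit 1799) (nat_lit 119) (.e (nat_lit 516131) (nat_lit 3) (.e (nat_lit 221212) (nat_lit 22) (.e (nat_lit 196668) (nat_lit 14) (.e (nat_lit 73747) (nat_lit 3) (.e (nat_lit 516118) (nat_lit 1) (.e (nat_lit 164179) (nat_lit 154) (.e (nat_lit 57354) (nat_lit 0) .nil)))))))) (.g (nat_lit 5) .nil .nil))) 
(.lf (nat_lit 77028) (.g (nat_lit 2482) (.e (nat_lit 1799) (nat_lit 119) (.e (nat_lit 516165) (nat_lit 12) (.e (nat_lit 450579) (nat_lit 5) (.e (nat_lit 532526) (nat_lit 8) (.e (nat_lit 327716) (nat_lit 16) (.e (nat_lit 286727) (nat_lit 0) .nil)))))) (.g (nat_lit 4) .nil .nil))))) (.nd (nat_lit 5) (.nd (nat_lit 6) 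
(.lf (nat_lit 76948) (.g (nat_lit 1056) (.e (nat_lit 1799) (nat_lit 119) (.e (nat_lit 516129) (nat_lit 3) (.e (nat_lit 221194) (nat_lit 11) (.e (nat_lit 336027) (nat_lit 3) .nil)))) .nil)) 
(.lf (nat_lit 77012) (.g (nat_lit 3043) (.e (nat_lit 1799) (nat_lit 119) (.e (nat_lit 516163) (nat_lit 11) (.e (nat_lit 442424) (nat_lit 22) (.e (nat_lit 196630) (nat_lit 9) (.e (nat_lit 1396) (nat_lit 106) (.e (nat_lit 319530) (nat_lit 16) (.e (nat_lit 286727) (nat_lit 0) .nil))))))) (.g (nat_lit 4) .nil .nil)))) (.nd (nat_lit 6) 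
(.lf (nat_lit 76980) (.g (nat_lit 2464) (.e (nat_lit 1799) (nat_lit 119) (.e (nat_lit 516146) (nat_lit 9) (.e (nat_lit 426131) (nat_lit 3) (.e (nat_lit 204838) (nat_lit 20) (.e (nat_lit 114718) (nat_lit 23) .nil))))) .nil)) 
(.lf (nat_lit 77044) (.g (nat_lit 2069) (.e (nat_lit 1799) (nat_lit 119) (.e (nat_lit 516166) (nat_lit 12) (.e (nat_lit 450579) (nat_lit 5) (.e (nat_lit 532523) (nat_lit 7) .nil)))) .nil))))) (.nd (nat_lit 4) (.nd (nat_lit 5) (.nd (nat_lit 6) 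
(.lf (nat_lit 76940) (.g (nat_lit 2727) (.e (nat_lit 1799) (nat_lit 119) (.e (nat_lit 516120) (nat_lit 1) (.e (nat_lit 164330) (nat_lit 230) (.e (nat_lit 163913) (nat_lit 12) (.e (nat_lit 426565) (nat_lit 34) (.e (nat_lit 393273) (nat_lit 23) (.e (nat_lit 426364) (nat_lit 15) .nil))))))) (.g (nat_lit 4) .nil .nil))) 
(.lf (nat_lit 77004) (.g (nat_lit 3320) (.e (nat_lit 1799) (nat_lit 119) (.e (nat_lit 516151) (nat_lit 9) (.e (nat_lit 426285) (nat_lit 10) (.e (nat_lit 434231) (nat_lit 23) (.e (nat_lit 532522) (nat_lit 7) (.e (nat_lit 319531) (nat_lit 16) (.e (nat_lit 286727) (nat_lit 0) .nil))))))) (.g (nat_lit 4) .nil .nil)))) (.nd (nat_lit 6) 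
(.lf (nat_lit 76972) (.g (nat_lit 1975) (.e (nat_lit 1799) (nat_lit 119) (.e (nat_lit 516131) (nat_lit 3) (.e (nat_lit 221215) (nat_lit 23) (.e (nat_lit 204852) (nat_lit 26) (.e (nat_lit 336326) (nat_lit 18) (.e (nat_lit 204830) (nat_lit 18) (.e (nat_lit 57851) (nat_lit 252) (.e (nat_lit 57354) (nat_lit 0) .nil)))))))) (.g (nat_lit 4) .nil .nil))) 
(.lf (nat_lit 77036) (.g (nat_lit 4462) (.e (nat_lit 1799) (nat_lit 119) (.e (nat_lit 516166) (nat_lit 12) (.e (nat_lit 450578) (nat_lit 5) (.e (nat_lit 532522) (nat_lit 7) (.e (nat_lit 319530) (nat_lit 16) (.e (nat_lit 286727) (nat_lit 0) .nil)))))) (.g (nat_lit 5) .nil .nil))))) (.nd (nat_lit 5) (.nd (nat_lit 6) 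
(.lf (nat_lit 76956) (.g (nat_lit 2959) (.e (nat_lit 1799) (nat_lit 119) (.e (nat_lit 516129) (nat_lit 3) (.e (nat_lit 221210) (nat_lit 22) (.e (nat_lit 196668) (nat_lit 14) (.e (nat_lit 73747) (nat_lit 3) (.e (nat_lit 516119) (nat_lit 1) (.e (nat_lit 164184) (nat_lit 155) (.e (nat_lit 122883) (nat_lit 0) .nil)))))))) (.g (nat_lit 5) .nil .nil))) 
(.lf (nat_lit 77020) (.g (nat_lit 2304) (.e (nat_lit 1799) (nat_lit 119) (.e (nat_lit 516163) (nat_lit 11) (.e (nat_lit 442427) (nat_lit 23) (.e (nat_lit 204845) (nat_lit 24) (.e (nat_lit 327424) (nat_lit 16) (.e (nat_lit 286727) (nat_lit 0) .nil)))))) (.g (nat_lit 4) .nil .nil)))) (.nd (nat_lit 6) 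
(.lf (nat_lit 76988) (.g (nat_lit 5292) (.e (nat_lit 1799) (nat_lit 119) (.e (nat_lit 516151) (nat_lit 9) (.e (nat_lit 426211) (nat_lit 9) (.e (nat_lit 426125) (nat_lit 2) (.e (nat_lit 196626) (nat_lit 9) .nil))))) .nil)) 
(.lf (nat_lit 77052) (.g (nat_lit 3068) (.e (nat_lit 1799) (nat_lit 119) (.e (nat_lit 516166) (nat_lit 12) (.e (nat_lit 450580) (nat_lit 5) (.e (nat_lit 532486) (nat_lit 0) (.e (nat_lit 6113) (nat_lit 332) .nil))))) .nil))))))) (.nd (nat_lit 2) (.nd (nat_lit 3) (.nd (nat_lit 4) (.nd (nat_lit 5) (.nd (nat_lit 6) 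
(.lf (nat_lit 76930) (.g (nat_lit 3180) (.e (nat_lit 1799) (nat_lit 119) (.e (nat_lit 516120) (nat_lit 1) (.e (nat_lit 164329) (nat_lit 230) (.e (nat_lit 163902) (nat_lit 12) (.e (nat_lit 426568) (nat_lit 34) (.e (nat_lit 393267) (nat_lit 23) (.e (nat_lit 426363) (nat_lit 15) .nil))))))) (.g (nat_lit 6) .nil .nil))) 
(.lf (nat_lit 76994) (.g (nat_lit 5426) (.e (nat_lit 1799) (nat_lit 119) (.e (nat_lit 516151) (nat_lit 9) (.e (nat_lit 426211) (nat_lit 9) (.e (nat_lit 426125) (nat_lit 2) (.e (nat_lit 196641) (nat_lit 9) .nil))))) .nil))) (.nd (nat_lit 6) 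
(.lf (nat_lit 76962) (.g (nat_lit 2942) (.e (nat_lit 1799) (nat_lit 119) (.e (nat_lit 516131) (nat_lit 3) (.e (nat_lit 221212) (nat_lit 22) (.e (nat_lit 196668) (nat_lit 14) (.e (nat_lit 73747) (nat_lit 3) (.e (nat_lit 516115) (nat_lit 1) (.e (nat_lit 164177) (nat_lit 154) (.e (nat_lit 57354) (nat_lit 0) .nil)))))))) (.g (nat_lit 6) .nil .nil))) 
(.lf (nat_lit 77026) (.g (nat_lit 1615) (.e (nat_lit 1799) (nat_lit 119) (.e (nat_lit 516165) (nat_lit 12) (.e (nat_lit 450579) (nat_lit 5) (.e (nat_lit 532523) (nat_lit 7) .nil)))) .nil)))) (.nd (nat_lit 5) (.nd (nat_lit 6) 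
(.lf (nat_lit 76946) (.g (nat_lit 1671) (.e (nat_lit 1799) (nat_lit 119) (.e (nat_lit 516129) (nat_lit 3) (.e (nat_lit 221194) (nat_lit 11) (.e (nat_lit 336012) (nat_lit 2) (.e (nat_lit 90176) (nat_lit 15) .nil))))) .nil)) 
(.lf (nat_lit 77010) (.g (nat_lit 2568) (.e (nat_lit 1799) (nat_lit 119) (.e (nat_lit 516163) (nat_lit 11) (.e (nat_lit 442424) (nat_lit 22) (.e (nat_lit 196630) (nat_lit 9) (.e (nat_lit 1394) (nat_lit 106) .nil))))) .nil))) (.nd (nat_lit 6) 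
(.lf (nat_lit 76978) (.g (nat_lit 1183) (.e (nat_lit 1799) (nat_lit 119) (.e (nat_lit 516145) (nat_lit 9) (.e (nat_lit 426272) (nat_lit 10) (.e (nat_lit 434233) (nat_lit 23) (.e (nat_lit 532523) (nat_lit 7) .nil))))) .nil)) 
(.lf (nat_lit 77042) (.g (nat_lit 2335) (.e (nat_lit 1799) (nat_lit 119) (.e (nat_lit 516166) (nat_lit 12) (.e (nat_lit 450579) (nat_lit 5) (.e (nat_lit 532522) (nat_lit 7) .nil)))) .nil))))) (.nd (nat_lit 4) (.nd (nat_lit 5) (.nd (nat_lit 6) 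
(.lf (nat_lit 76938) (.g (nat_lit 1742) (.e (nat_lit 1799) (nat_lit 119) (.e (nat_lit 516120) (nat_lit 1) (.e (nat_lit 164329) (nat_lit 230) (.e (nat_lit 163942) (nat_lit 19) (.e (nat_lit 483341) (nat_lit 9) (.e (nat_lit 426199) (nat_lit 9) (.e (nat_lit 426399) (nat_lit 15) .nil))))))) (.g (nat_lit 4) .nil .nil))) 
(.lf (nat_lit 77002) (.g (nat_lit 2579) (.e (nat_lit 1799) (nat_lit 119) (.e (nat_lit 516151) (nat_lit 9) (.e (nat_lit 426285) (nat_lit 10) (.e (nat_lit 434230) (nat_lit 23) .nil)))) .nil))) (.nd (nat_lit 6) 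
(.lf (nat_lit 76970) (.g (nat_lit 2113) (.e (nat_lit 1799) (nat_lit 119) (.e (nat_lit 516131) (nat_lit 3) (.e (nat_lit 221215) (nat_lit 23) (.e (nat_lit 204852) (nat_lit 26) (.e (nat_lit 336324) (nat_lit 18) (.e (nat_lit 204830) (nat_lit 18) (.e (nat_lit 57852) (nat_lit 252) (.e (nat_lit 57354) (nat_lit 0) .nil)))))))) (.g (nat_lit 4) .nil .nil))) 
(.lf (nat_lit 77034) (.g (nat_lit 1885) (.e (nat_lit 1799) (nat_lit 119) (.e (nat_lit 516166) (nat_lit 12) (.e (nat_lit 450575) (nat_lit 1) (.e (nat_lit 499991) (nat_lit 14) .nil)))) .nil)))) (.nd (nat_lit 5) (.nd (nat_lit 6) 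
(.lf (nat_lit 76954) (.g (nat_lit 3912) (.e (nat_lit 1799) (nat_lit 119) (.e (nat_lit 516129) (nat_lit 3) (.e (nat_lit 221210) (nat_lit 22) (.e (nat_lit 196668) (nat_lit 14) (.e (nat_lit 73747) (nat_lit 3) (.e (nat_lit 516119) (nat_lit 1) (.e (nat_lit 164176) (nat_lit 154) (.e (nat_lit 57354) (nat_lit 0) .nil)))))))) (.g (nat_lit 7) .nil .nil))) 
(.lf (nat_lit 77018) (.g (nat_lit 4718) (.e (nat_lit 1799) (nat_lit 119) (.e (nat_lit 516163) (nat_lit 11) (.e (nat_lit 442427) (nat_lit 23) (.e (nat_lit 204845) (nat_lit 24) (.e (nat_lit 319530) (nat_lit 16) (.e (nat_lit 286727) (nat_lit 0) .nil)))))) (.g (nat_lit 6) .nil .nil)))) (.nd (nat_lit 6) 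
(.lf (nat_lit 76986) (.g (nat_lit 5447) (.e (nat_lit 1799) (nat_lit 119) (.e (nat_lit 516151) (nat_lit 9) (.e (nat_lit 426211) (nat_lit 9) (.e (nat_lit 426125) (nat_lit 2) (.e (nat_lit 196623) (nat_lit 9) .nil))))) .nil)) 
(.lf (nat_lit 77050) (.g (nat_lit 3162) (.e (nat_lit 1799) (nat_lit 119) (.e (nat_lit 516166) (nat_lit 12) (.e (nat_lit 450579) (nat_lit 5) (.e (nat_lit 532526) (nat_lit 8) (.e (nat_lit 327715) (nat_lit 16) .nil))))) .nil)))))) (.nd (nat_lit 3) (.nd (nat_lit 4) (.nd (nat_lit 5) (.nd (nat_lit 6) 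
(.lf (nat_lit 76934) (.g (nat_lit 2446) (.e (nat_lit 1799) (nat_lit 119) (.e (nat_lit 516120) (nat_lit 1) (.e (nat_lit 164329) (nat_lit 230) (.e (nat_lit 163902) (nat_lit 12) (.e (nat_lit 426568) (nat_lit 34) (.e (nat_lit 393271) (nat_lit 23) (.e (nat_lit 426362) (nat_lit 15) .nil))))))) (.g (nat_lit 5) .nil .nil))) 
(.lf (nat_lit 76998) (.g (nat_lit 3796) (.e (nat_lit 1799) (nat_lit 119) (.e (nat_lit 516151) (nat_lit 9) (.e (nat_lit 426211) (nat_lit 9) (.e (nat_lit 426125) (nat_lit 2) (.e (nat_lit 196661) (nat_lit 12) (.e (nat_lit 65280) (nat_lit 176) (.e (nat_lit 1349) (nat_lit 102) (.e (nat_lit 286727) (nat_lit 0) .nil)))))))) (.g (nat_lit 4) .nil .nil)))) (.nd (nat_lit 6) 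
(.lf (nat_lit 76966) (.g (nat_lit 1669) (.e (nat_lit 1799) (nat_lit 119) (.e (nat_lit 516131) (nat_lit 3) (.e (nat_lit 221212) (nat_lit 22) (.e (nat_lit 196668) (nat_lit 14) (.e (nat_lit 81664) (nat_lit 5) (.e (nat_lit 532481) (nat_lit 0) (.e (nat_lit 974) (nat_lit 81) (.e (nat_lit 7263) (nat_lit 384) (.e (nat_lit 57354) (nat_lit 0) .nil))))))))) (.g (nat_lit 4) .nil .nil))) 
(.lf (nat_lit 77030) (.g (nat_lit 2030) (.e (nat_lit 1799) (nat_lit 119) (.e (nat_lit 516166) (nat_lit 12) (.e (nat_lit 450572) (nat_lit 1) (.e (nat_lit 499960) (nat_lit 14) .nil)))) .nil)))) (.nd (nat_lit 5) (.nd (nat_lit 6) 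
(.lf (nat_lit 76950) (.g (nat_lit 1981) (.e (nat_lit 1799) (nat_lit 119) (.e (nat_lit 516129) (nat_lit 3) (.e (nat_lit 221210) (nat_lit 22) (.e (nat_lit 196665) (nat_lit 13) (.e (nat_lit 73472) (nat_lit 18) .nil))))) .nil)) 
(.lf (nat_lit 77014) (.g (nat_lit 2371) (.e (nat_lit 1799) (nat_lit 119) (.e (nat_lit 516163) (nat_lit 11) (.e (nat_lit 442424) (nat_lit 22) (.e (nat_lit 196661) (nat_lit 12) (.e (nat_lit 57714) (nat_lit 176) (.e (nat_lit 1348) (nat_lit 102) (.e (nat_lit 286727) (nat_lit 0) .nil))))))) (.g (nat_lit 4) .nil .nil)))) (.nd (nat_lit 6) 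
(.lf (nat_lit 76982) (.g (nat_lit 2866) (.e (nat_lit 1799) (nat_lit 119) (.e (nat_lit 516146) (nat_lit 9) (.e (nat_lit 426241) (nat_lit 9) (.e (nat_lit 426139) (nat_lit 3) (.e (nat_lit 204846) (nat_lit 24) (.e (nat_lit 319531) (nat_lit 16) (.e (nat_lit 286727) (nat_lit 0) .nil))))))) (.g (nat_lit 5) .nil .nil))) 
(.lf (nat_lit 77046) (.g (nat_lit 5251) (.e (nat_lit 1799) (nat_lit 119) (.e (nat_lit 516166) (nat_lit 12) (.e (nat_lit 450579) (nat_lit 5) (.e (nat_lit 532523) (nat_lit 7) (.e (nat_lit 319530) (nat_lit 16) (.e (nat_lit 286727) (nat_lit 0) .nil)))))) (.g (nat_lit 5) .nil .nil)))))) (.nd (nat_lit 4) (.nd (nat_lit 5) (.nd (nat_lit 6) 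
(.lf (nat_lit 76942) (.g (nat_lit 2976) (.e (nat_lit 1799) (nat_lit 119) (.e (nat_lit 516120) (nat_lit 1) (.e (nat_lit 164332) (nat_lit 230) (.e (nat_lit 163902) (nat_lit 12) (.e (nat_lit 426566) (nat_lit 34) (.e (nat_lit 393273) (nat_lit 23) (.e (nat_lit 426364) (nat_lit 15) .nil))))))) (.g (nat_lit 5) .nil .nil))) 
(.lf (nat_lit 77006) (.g (nat_lit 3693) (.e (nat_lit 1799) (nat_lit 119) (.e (nat_lit 516151) (nat_lit 9) (.e (nat_lit 426285) (nat_lit 10) (.e (nat_lit 434233) (nat_lit 23) (.e (nat_lit 532523) (nat_lit 7) (.e (nat_lit 319530) (nat_lit 16) (.e (nat_lit 286727) (nat_lit 0) .nil))))))) (.g (nat_lit 5) .nil .nil)))) (.nd (nat_lit 6) 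
(.lf (nat_lit 76974) (.g (nat_lit 2084) (.e (nat_lit 1799) (nat_lit 119) (.e (nat_lit 516131) (nat_lit 3) (.e (nat_lit 221215) (nat_lit 23) (.e (nat_lit 204863) (nat_lit 27) (.e (nat_lit 344118) (nat_lit 21) .nil))))) .nil)) 
(.lf (nat_lit 77038) (.g (nat_lit 3005) (.e (nat_lit 1799) (nat_lit 119) (.e (nat_lit 516166) (nat_lit 12) (.e (nat_lit 450578) (nat_lit 5) (.e (nat_lit 532523) (nat_lit 7) (.e (nat_lit 319529) (nat_lit 16) .nil))))) .nil)))) (.nd (nat_lit 5) (.nd (nat_lit 6) 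
(.lf (nat_lit 76958) (.g (nat_lit 2146) (.e (nat_lit 1799) (nat_lit 119) (.e (nat_lit 516129) (nat_lit 3) (.e (nat_lit 221210) (nat_lit 22) (.e (nat_lit 196670) (nat_lit 14) (.e (nat_lit 73746) (nat_lit 3) .nil))))) .nil)) 
(.lf (nat_lit 77022) (.g (nat_lit 3556) (.e (nat_lit 1799) (nat_lit 119) (.e (nat_lit 516164) (nat_lit 11) (.e (nat_lit 442427) (nat_lit 23) (.e (nat_lit 204846) (nat_lit 24) (.e (nat_lit 319531) (nat_lit 16) (.e (nat_lit 286727) (nat_lit 0) .nil)))))) (.g (nat_lit 0) .nil .nil)))) (.nd (nat_lit 6) 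
(.lf (nat_lit 76990) (.g (nat_lit 5447) (.e (nat_lit 1799) (nat_lit 119) (.e (nat_lit 516151) (nat_lit 9) (.e (nat_lit 426211) (nat_lit 9) (.e (nat_lit 426125) (nat_lit 2) (.e (nat_lit 196632) (nat_lit 9) .nil))))) .nil)) 
(.lf (nat_lit 77054) (.g (nat_lit 3614) (.e (nat_lit 1799) (nat_lit 119) (.e (nat_lit 516166) (nat_lit 12) (.e (nat_lit 450580) (nat_lit 5) (.e (nat_lit 532522) (nat_lit 7) (.e (nat_lit 327424) (nat_lit 16) .nil))))) .nil)))))))) (.nd (nat_lit 1) (.nd (nat_lit 2) (.nd (nat_lit 3) (.nd (nat_lit 4) (.nd (nat_lit 5) (.nd (nat_lit 6) 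
(.lf (nat_lit 76929) (.g (nat_lit 3199) (.e (nat_lit 1799) (nat_lit 119) (.e (nat_lit 516120) (nat_lit 1) (.e (nat_lit 164329) (nat_lit 230) (.e (nat_lit 163902) (nat_lit 12) (.e (nat_lit 426568) (nat_lit 34) (.e (nat_lit 393267) (nat_lit 23) (.e (nat_lit 426362) (nat_lit 15) .nil))))))) (.g (nat_lit 6) .nil .nil))) 
(.lf (nat_lit 76993) (.g (nat_lit 5447) (.e (nat_lit 1799) (nat_lit 119) (.e (nat_lit 516151) (nat_lit 9) (.e (nat_lit 426211) (nat_lit 9) (.e (nat_lit 426125) (nat_lit 2) (.e (nat_lit 196640) (nat_lit 9) .nil))))) .nil))) (.nd (nat_lit 6) 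
(.lf (nat_lit 76961) (.g (nat_lit 1265) (.e (nat_lit 1799) (nat_lit 119) (.e (nat_lit 516131) (nat_lit 3) (.e (nat_lit 221212) (nat_lit 22) (.e (nat_lit 196665) (nat_lit 13) (.e (nat_lit 65636) (nat_lit 15) .nil))))) .nil)) 
(.lf (nat_lit 77025) (.g (nat_lit 4578) (.e (nat_lit 1799) (nat_lit 119) (.e (nat_lit 516165) (nat_lit 12) (.e (nat_lit 450579) (nat_lit 5) (.e (nat_lit 532522) (nat_lit 7) (.e (nat_lit 319531) (nat_lit 16) (.e (nat_lit 286727) (nat_lit 0) .nil)))))) (.g (nat_lit 0) .nil .nil))))) (.nd (nat_lit 5) (.nd (nat_lit 6) 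
(.lf (nat_lit 76945) (.g (nat_lit 1626) (.e (nat_lit 1799) (nat_lit 119) (.e (nat_lit 516129) (nat_lit 3) (.e (nat_lit 221194) (nat_lit 11) (.e (nat_lit 336004) (nat_lit 2) (.e (nat_lit 90176) (nat_lit 15) .nil))))) .nil)) 
(.lf (nat_lit 77009) (.g (nat_lit 3290) (.e (nat_lit 1799) (nat_lit 119) (.e (nat_lit 516151) (nat_lit 9) (.e (nat_lit 426286) (nat_lit 10) (.e (nat_lit 434231) (nat_lit 23) .nil)))) .nil))) (.nd (nat_lit 6) 
(.lf (nat_lit 76977) (.g (nat_lit 1070) (.e (nat_lit 1799) (nat_lit 119) (.e (nat_lit 516142) (nat_lit 8) (.e (nat_lit 417809) (nat_lit 6) (.e (nat_lit 286735) (nat_lit 3) .nil)))) .nil)) 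
(.lf (nat_lit 77041) (.g (nat_lit 2092) (.e (nat_lit 1799) (nat_lit 119) (.e (nat_lit 516166) (nat_lit 12) (.e (nat_lit 450578) (nat_lit 5) (.e (nat_lit 532526) (nat_lit 8) .nil)))) .nil))))) (.nd (nat_lit 4) (.nd (nat_lit 5) (.nd (nat_lit 6) 
(.lf (nat_lit 76937) (.g (nat_lit 1338) (.e (nat_lit 1799) (nat_lit 119) (.e (nat_lit 516120) (nat_lit 1) (.e (nat_lit 164329) (nat_lit 230) (.e (nat_lit 163942) (nat_lit 19) .nil)))) .nil)) 
(.lf (nat_lit 77001) (.g (nat_lit 3791) (.e (nat_lit 1799) (nat_lit 119) (.e (nat_lit 516151) (nat_lit 9) (.e (nat_lit 426211) (nat_lit 9) (.e (nat_lit 426140) (nat_lit 3) (.e (nat_lit 204846) (nat_lit 24) (.e (nat_lit 319531) (nat_lit 16) (.e (nat_lit 286727) (nat_lit 0) .nil))))))) (.g (nat_lit 4) .nil .nil)))) (.nd (nat_lit 6) 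
(.lf (nat_lit 76969) (.g (nat_lit 3372) (.e (nat_lit 1799) (nat_lit 119) (.e (nat_lit 516131) (nat_lit 3) (.e (nat_lit 221212) (nat_lit 22) (.e (nat_lit 196670) (nat_lit 14) (.e (nat_lit 73746) (nat_lit 3) (.e (nat_lit 516120) (nat_lit 1) (.e (nat_lit 164184) (nat_lit 155) (.e (nat_lit 122883) (nat_lit 0) .nil)))))))) (.g (nat_lit 7) .nil .nil))) 
(.lf (nat_lit 77033) (.g (nat_lit 2224) (.e (nat_lit 1799) (nat_lit 119) (.e (nat_lit 516166) (nat_lit 12) (.e (nat_lit 450574) (nat_lit 1) (.e (nat_lit 499991) (nat_lit 14) (.e (nat_lit 1399) (nat_lit 106) .nil))))) .nil)))) (.nd (nat_lit 5) (.nd (nat_lit 6) 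
(.lf (nat_lit 76953) (.g (nat_lit 2056) (.e (nat_lit 1799) (nat_lit 119) (.e (nat_lit 516129) (nat_lit 3) (.e (nat_lit 221210) (nat_lit 22) (.e (nat_lit 196668) (nat_lit 14) (.e (nat_lit 73747) (nat_lit 3) (.e (nat_lit 516118) (nat_lit 1) (.e (nat_lit 164179) (nat_lit 154) (.e (nat_lit 57354) (nat_lit 0) .nil)))))))) (.g (nat_lit 4) .nil .nil))) 
(.lf (nat_lit 77017) (.g (nat_lit 3520) (.e (nat_lit 1799) (nat_lit 119) (.e (nat_lit 516163) (nat_lit 11) (.e (nat_lit 442427) (nat_lit 23) (.e (nat_lit 204845) (nat_lit 24) (.e (nat_lit 319529) (nat_lit 16) (.e (nat_lit 286727) (nat_lit 0) .nil)))))) (.g (nat_lit 6) .nil .nil)))) (.nd (nat_lit 6) 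
(.lf (nat_lit 76985) (.g (nat_lit 5087) (.e (nat_lit 1799) (nat_lit 119) (.e (nat_lit 516151) (nat_lit 9) (.e (nat_lit 426211) (nat_lit 9) (.e (nat_lit 426125) (nat_lit 2) (.e (nat_lit 196617) (nat_lit 9) .nil))))) .nil)) 
(.lf (nat_lit 77049) (.g (nat_lit 3547) (.e (nat_lit 1799) (nat_lit 119) (.e (nat_lit 516166) (nat_lit 12) (.e (nat_lit 450579) (nat_lit 5) (.e (nat_lit 532523) (nat_lit 7) (.e (nat_lit 327424) (nat_lit 16) .nil))))) .nil)))))) (.nd (nat_lit 3) (.nd (nat_lit 4) (.nd (nat_lit 5) (.nd (nat_lit 6) 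
(.lf (nat_lit 76933) (.g (nat_lit 2425) (.e (nat_lit 1799) (nat_lit 119) (.e (nat_lit 516120) (nat_lit 1) (.e (nat_lit 164329) (nat_lit 230) (.e (nat_lit 163902) (nat_lit 12) (.e (nat_lit 426568) (nat_lit 34) (.e (nat_lit 393271) (nat_lit 23) (.e (nat_lit 426360) (nat_lit 15) .nil))))))) (.g (nat_lit 5) .nil .nil))) 
(.lf (nat_lit 76997) (.g (nat_lit 5241) (.e (nat_lit 1799) (nat_lit 119) (.e (nat_lit 516151) (nat_lit 9) (.e (nat_lit 426211) (nat_lit 9) (.e (nat_lit 426125) (nat_lit 2) (.e (nat_lit 196646) (nat_lit 9) .nil))))) .nil))) (.nd (nat_lit 6) 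
(.lf (nat_lit 76965) (.g (nat_lit 1489) (.e (nat_lit 1799) (nat_lit 119) (.e (nat_lit 516131) (nat_lit 3) (.e (nat_lit 221212) (nat_lit 22) (.e (nat_lit 196668) (nat_lit 14) (.e (nat_lit 81664) (nat_lit 5) .nil))))) .nil)) 
(.lf (nat_lit 77029) (.g (nat_lit 2887) (.e (nat_lit 1799) (nat_lit 119) (.e (nat_lit 516166) (nat_lit 12) (.e (nat_lit 450563) (nat_lit 0) (.e (nat_lit 4181) (nat_lit 251) .nil)))) .nil)))) (.nd (nat_lit 5) (.nd (nat_lit 6) 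
(.lf (nat_lit 76949) (.g (nat_lit 1551) (.e (nat_lit 1799) (nat_lit 119) (.e (nat_lit 516129) (nat_lit 3) (.e (nat_lit 221210) (nat_lit 22) (.e (nat_lit 196665) (nat_lit 13) .nil)))) .nil)) 
(.lf (nat_lit 77013) (.g (nat_lit 2200) (.e (nat_lit 1799) (nat_lit 119) (.e (nat_lit 516163) (nat_lit 11) (.e (nat_lit 442424) (nat_lit 22) (.e (nat_lit 196661) (nat_lit 12) (.e (nat_lit 57713) (nat_lit 176) (.e (nat_lit 1348) (nat_lit 102) (.e (nat_lit 286727) (nat_lit 0) .nil))))))) (.g (nat_lit 4) .nil .nil)))) (.nd (nat_lit 6) 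
(.lf (nat_lit 76981) (.g (nat_lit 2371) (.e (nat_lit 1799) (nat_lit 119) (.e (nat_lit 516146) (nat_lit 9) (.e (nat_lit 426131) (nat_lit 3) (.e (nat_lit 204838) (nat_lit 20) (.e (nat_lit 114719) (nat_lit 23) .nil))))) .nil)) 
(.lf (nat_lit 77045) (.g (nat_lit 3424) (.e (nat_lit 1799) (nat_lit 119) (.e (nat_lit 516166) (nat_lit 12) (.e (nat_lit 450579) (nat_lit 5) (.e (nat_lit 532523) (nat_lit 7) (.e (nat_lit 319529) (nat_lit 16) .nil))))) .nil))))) (.nd (nat_lit 4) (.nd (nat_lit 5) (.nd (nat_lit 6) 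
(.lf (nat_lit 76941) (.g (nat_lit 2741) (.e (nat_lit 1799) (nat_lit 119) (.e (nat_lit 516120) (nat_lit 1) (.e (nat_lit 164330) (nat_lit 230) (.e (nat_lit 163913) (nat_lit 12) (.e (nat_lit 433920) (nat_lit 34) .nil))))) .nil)) 
(.lf (nat_lit 77005) (.g (nat_lit 2341) (.e (nat_lit 1799) (nat_lit 119) (.e (nat_lit 516151) (nat_lit 9) (.e (nat_lit 426285) (nat_lit 10) (.e (nat_lit 434233) (nat_lit 23) .nil)))) .nil))) (.nd (nat_lit 6) 
(.lf (nat_lit 76973) (.g (nat_lit 2787) (.e (nat_lit 1799) (nat_lit 119) (.e (nat_lit 516131) (nat_lit 3) (.e (nat_lit 221215) (nat_lit 23) (.e (nat_lit 204861) (nat_lit 26) (.e (nat_lit 336021) (nat_lit 3) (.e (nat_lit 98333) (nat_lit 18) (.e (nat_lit 164179) (nat_lit 154) (.e (nat_lit 57354) (nat_lit 0) .nil)))))))) (.g (nat_lit 4) .nil .nil))) 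
(.lf (nat_lit 77037) (.g (nat_lit 2141) (.e (nat_lit 1799) (nat_lit 119) (.e (nat_lit 516166) (nat_lit 12) (.e (nat_lit 450578) (nat_lit 5) (.e (nat_lit 532523) (nat_lit 7) .nil)))) .nil)))) (.nd (nat_lit 5) (.nd (nat_lit 6) 
(.lf (nat_lit 76957) (.g (nat_lit 1946) (.e (nat_lit 1799) (nat_lit 119) (.e (nat_lit 516129) (nat_lit 3) (.e (nat_lit 221210) (nat_lit 22) (.e (nat_lit 196668) (nat_lit 14) (.e (nat_lit 81664) (nat_lit 5) .nil))))) .nil)) 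
(.lf (nat_lit 77021) (.g (nat_lit 4537) (.e (nat_lit 1799) (nat_lit 119) (.e (nat_lit 516164) (nat_lit 11) (.e (nat_lit 442427) (nat_lit 23) (.e (nat_lit 204846) (nat_lit 24) (.e (nat_lit 319530) (nat_lit 16) (.e (nat_lit 286727) (nat_lit 0) .nil)))))) (.g (nat_lit 6) .nil .nil)))) (.nd (nat_lit 6) 
(.lf (nat_lit 76989) (.g (nat_lit 5447) (.e (nat_lit 1799) (nat_lit 119) (.e (nat_lit 516151) (nat_lit 9) (.e (nat_lit 426211) (nat_lit 9) (.e (nat_lit 426125) (nat_lit 2) (.e (nat_lit 196627) (nat_lit 9) .nil))))) .nil)) 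
(.lf (nat_lit 77053) (.g (nat_lit 3404) (.e (nat_lit 1799) (nat_lit 119) (.e (nat_lit 516166) (nat_lit 12) (.e (nat_lit 450580) (nat_lit 5) (.e (nat_lit 532522) (nat_lit 7) (.e (nat_lit 319529) (nat_lit 16) (.e (nat_lit 286727) (nat_lit 0) .nil)))))) (.g (nat_lit 4) .nil .nil)))))))) (.nd (nat_lit 2) (.nd (nat_lit 3) (.nd (nat_lit 4) (.nd (nat_lit 5) (.nd (nat_lit 6) 
(.lf (nat_lit 76931) (.g (nat_lit 2918) (.e (nat_lit 1799) (nat_lit 119) (.e (nat_lit 516120) (nat_lit 1) (.e (nat_lit 164329) (nat_lit 230) (.e (nat_lit 163902) (nat_lit 12) (.e (nat_lit 426568) (nat_lit 34) (.e (nat_lit 393267) (nat_lit 23) (.e (nat_lit 426399) (nat_lit 15) .nil))))))) (.g (nat_lit 6) .nil .nil))) 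
(.lf (nat_lit 76995) (.g (nat_lit 4920) (.e (nat_lit 1799) (nat_lit 119) (.e (nat_lit 516151) (nat_lit 9) (.e (nat_lit 426211) (nat_lit 9) (.e (nat_lit 426125) (nat_lit 2) (.e (nat_lit 196642) (nat_lit 9) .nil))))) .nil))) (.nd (nat_lit 6) 
(.lf (nat_lit 76963) (.g (nat_lit 5150) (.e (nat_lit 1799) (nat_lit 119) (.e (nat_lit 516131) (nat_lit 3) (.e (nat_lit 221212) (nat_lit 22) (.e (nat_lit 196668) (nat_lit 14) (.e (nat_lit 73747) (nat_lit 3) (.e (nat_lit 516115) (nat_lit 1) (.e (nat_lit 164179) (nat_lit 154) (.e (nat_lit 57354) (nat_lit 0) .nil)))))))) (.g (nat_lit 0) .nil .nil))) 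
(.lf (nat_lit 77027) (.g (nat_lit 3910) (.e (nat_lit 1799) (nat_lit 119) (.e (nat_lit 516165) (nat_lit 12) (.e (nat_lit 450579) (nat_lit 5) (.e (nat_lit 532523) (nat_lit 7) (.e (nat_lit 319530) (nat_lit 16) (.e (nat_lit 286727) (nat_lit 0) .nil)))))) (.g (nat_lit 4) .nil .nil))))) (.nd (nat_lit 5) (.nd (nat_lit 6) 
(.lf (nat_lit 76947) (.g (nat_lit 1719) (.e (nat_lit 1799) (nat_lit 119) (.e (nat_lit 516129) (nat_lit 3) (.e (nat_lit 221194) (nat_lit 11) (.e (nat_lit 336012) (nat_lit 2) (.e (nat_lit 90178) (nat_lit 15) .nil))))) .nil)) 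
(.lf (nat_lit 77011) (.g (nat_lit 2623) (.e (nat_lit 1799) (nat_lit 119) (.e (nat_lit 516163) (nat_lit 11) (.e (nat_lit 442424) (nat_lit 22) (.e (nat_lit 196630) (nat_lit 9) (.e (nat_lit 1395) (nat_lit 106) (.e (nat_lit 319530) (nat_lit 16) (.e (nat_lit 286727) (nat_lit 0) .nil))))))) (.g (nat_lit 4) .nil .nil)))) (.nd (nat_lit 6) 
(.lf (nat_lit 76979) (.g (nat_lit 776) (.e (nat_lit 1799) (nat_lit 119) (.e (nat_lit 516146) (nat_lit 9) (.e (nat_lit 426131) (nat_lit 3) .nil))) .nil)) 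
(.lf (nat_lit 77043) (.g (nat_lit 5121) (.e (nat_lit 1799) (nat_lit 119) (.e (nat_lit 516166) (nat_lit 12) (.e (nat_lit 450579) (nat_lit 5) (.e (nat_lit 532522) (nat_lit 7) (.e (nat_lit 319531) (nat_lit 16) (.e (nat_lit 286727) (nat_lit 0) .nil)))))) (.g (nat_lit 6) .nil .nil)))))) (.nd (nat_lit 4) (.nd (nat_lit 5) (.nd (nat_lit 6) 
(.lf (nat_lit 76939) (.g (nat_lit 2433) (.e (nat_lit 1799) (nat_lit 119) (.e (nat_lit 516120) (nat_lit 1) (.e (nat_lit 164330) (nat_lit 230) (.e (nat_lit 163905) (nat_lit 12) (.e (nat_lit 426566) (nat_lit 34) (.e (nat_lit 393273) (nat_lit 23) (.e (nat_lit 426364) (nat_lit 15) .nil))))))) (.g (nat_lit 4) .nil .nil))) 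
(.lf (nat_lit 77003) (.g (nat_lit 2603) (.e (nat_lit 1799) (nat_lit 119) (.e (nat_lit 516151) (nat_lit 9) (.e (nat_lit 426285) (nat_lit 10) (.e (nat_lit 434231) (nat_lit 23) .nil)))) .nil))) (.nd (nat_lit 6) 
(.lf (nat_lit 76971) (.g (nat_lit 1920) (.e (nat_lit 1799) (nat_lit 119) (.e (nat_lit 516131) (nat_lit 3) (.e (nat_lit 221215) (nat_lit 23) (.e (nat_lit 204852) (nat_lit 26) (.e (nat_lit 336326) (nat_lit 18) .nil))))) .nil)) 
(.lf (nat_lit 77035) (.g (nat_lit 998) (.e (nat_lit 1799) (nat_lit 119) (.e (nat_lit 516166) (nat_lit 12) (.e (nat_lit 458496) (nat_lit 1) .nil))) .nil)))) (.nd (nat_lit 5) (.nd (nat_lit 6) 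
(.lf (nat_lit 76955) (.g (nat_lit 3620) (.e (nat_lit 1799) (nat_lit 119) (.e (nat_lit 516129) (nat_lit 3) (.e (nat_lit 221210) (nat_lit 22) (.e (nat_lit 196668) (nat_lit 14) (.e (nat_lit 73747) (nat_lit 3) (.e (nat_lit 516119) (nat_lit 1) (.e (nat_lit 164178) (nat_lit 154) (.e (nat_lit 57354) (nat_lit 0) .nil)))))))) (.g (nat_lit 6) .nil .nil))) 
(.lf (nat_lit 77019) (.g (nat_lit 4301) (.e (nat_lit 1799) (nat_lit 119) (.e (nat_lit 516163) (nat_lit 11) (.e (nat_lit 442427) (nat_lit 23) (.e (nat_lit 204845) (nat_lit 24) (.e (nat_lit 319531) (nat_lit 16) (.e (nat_lit 286727) (nat_lit 0) .nil)))))) (.g (nat_lit 0) .nil .nil)))) (.nd (nat_lit 6) 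
(.lf (nat_lit 76987) (.g (nat_lit 5447) (.e (nat_lit 1799) (nat_lit 119) (.e (nat_lit 516151) (nat_lit 9) (.e (nat_lit 426211) (nat_lit 9) (.e (nat_lit 426125) (nat_lit 2) (.e (nat_lit 196625) (nat_lit 9) .nil))))) .nil)) 
(.lf (nat_lit 77051) (.g (nat_lit 3055) (.e (nat_lit 1799) (nat_lit 119) (.e (nat_lit 516166) (nat_lit 12) (.e (nat_lit 450579) (nat_lit 5) (.e (nat_lit 532526) (nat_lit 8) (.e (nat_lit 327716) (nat_lit 16) .nil))))) .nil)))))) (.nd (nat_lit 3) (.nd (nat_lit 4) (.nd (nat_lit 5) (.nd (nat_lit 6) 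
(.lf (nat_lit 76935) (.g (nat_lit 2439) (.e (nat_lit 1799) (nat_lit 119) (.e (nat_lit 516120) (nat_lit 1) (.e (nat_lit 164329) (nat_lit 230) (.e (nat_lit 163902) (nat_lit 12) (.e (nat_lit 426568) (nat_lit 34) (.e (nat_lit 393271) (nat_lit 23) (.e (nat_lit 426399) (nat_lit 15) .nil))))))) (.g (nat_lit 5) .nil .nil))) 
(.lf (nat_lit 76999) (.g (nat_lit 2810) (.e (nat_lit 1799) (nat_lit 119) (.e (nat_lit 516151) (nat_lit 9) (.e (nat_lit 426211) (nat_lit 9) (.e (nat_lit 426140) (nat_lit 3) .nil)))) .nil))) (.nd (nat_lit 6) 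
(.lf (nat_lit 76967) (.g (nat_lit 3738) (.e (nat_lit 1799) (nat_lit 119) (.e (nat_lit 516131) (nat_lit 3) (.e (nat_lit 221212) (nat_lit 22) (.e (nat_lit 196670) (nat_lit 14) (.e (nat_lit 73746) (nat_lit 3) (.e (nat_lit 516119) (nat_lit 1) (.e (nat_lit 164176) (nat_lit 154) (.e (nat_lit 57354) (nat_lit 0) .nil)))))))) (.g (nat_lit 8) .nil .nil))) 
(.lf (nat_lit 77031) (.g (nat_lit 1988) (.e (nat_lit 1799) (nat_lit 119) (.e (nat_lit 516166) (nat_lit 12) (.e (nat_lit 450573) (nat_lit 1) (.e (nat_lit 499961) (nat_lit 14) .nil)))) .nil)))) (.nd (nat_lit 5) (.nd (nat_lit 6) 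
(.lf (nat_lit 76951) (.g (nat_lit 2237) (.e (nat_lit 1799) (nat_lit 119) (.e (nat_lit 516129) (nat_lit 3) (.e (nat_lit 221210) (nat_lit 22) (.e (nat_lit 196668) (nat_lit 14) (.e (nat_lit 73746) (nat_lit 3) .nil))))) .nil)) 
(.lf (nat_lit 77015) (.g (nat_lit 2471) (.e (nat_lit 1799) (nat_lit 119) (.e (nat_lit 516163) (nat_lit 11) (.e (nat_lit 442424) (nat_lit 22) (.e (nat_lit 196661) (nat_lit 12) (.e (nat_lit 65280) (nat_lit 176) (.e (nat_lit 1349) (nat_lit 102) (.e (nat_lit 286727) (nat_lit 0) .nil))))))) (.g (nat_lit 4) .nil .nil)))) (.nd (nat_lit 6) 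
(.lf (nat_lit 76983) (.g (nat_lit 1294) (.e (nat_lit 1799) (nat_lit 119) (.e (nat_lit 516146) (nat_lit 9) (.e (nat_lit 426323) (nat_lit 13) (.e (nat_lit 483337) (nat_lit 9) .nil)))) .nil)) 
(.lf (nat_lit 77047) (.g (nat_lit 5126) (.e (nat_lit 1799) (nat_lit 119) (.e (nat_lit 516166) (nat_lit 12) (.e (nat_lit 450579) (nat_lit 5) (.e (nat_lit 532523) (nat_lit 7) (.e (nat_lit 319531) (nat_lit 16) (.e (nat_lit 286727) (nat_lit 0) .nil)))))) (.g (nat_lit 6) .nil .nil)))))) (.nd (nat_lit 4) (.nd (nat_lit 5) (.nd (nat_lit 6) 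
(.lf (nat_lit 76943) (.g (nat_lit 2895) (.e (nat_lit 1799) (nat_lit 119) (.e (nat_lit 516120) (nat_lit 1) (.e (nat_lit 164332) (nat_lit 230) (.e (nat_lit 163905) (nat_lit 12) (.e (nat_lit 426566) (nat_lit 34) (.e (nat_lit 393273) (nat_lit 23) (.e (nat_lit 426364) (nat_lit 15) .nil))))))) (.g (nat_lit 5) .nil .nil))) 
(.lf (nat_lit 77007) (.g (nat_lit 2982) (.e (nat_lit 1799) (nat_lit 119) (.e (nat_lit 516151) (nat_lit 9) (.e (nat_lit 426285) (nat_lit 10) (.e (nat_lit 434233) (nat_lit 23) (.e (nat_lit 532523) (nat_lit 7) (.e (nat_lit 319531) (nat_lit 16) (.e (nat_lit 286727) (nat_lit 0) .nil))))))) (.g (nat_lit 4) .nil .nil)))) (.nd (nat_lit 6) 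
(.lf (nat_lit 76975) (.g (nat_lit 2505) (.e (nat_lit 1799) (nat_lit 119) (.e (nat_lit 516131) (nat_lit 3) (.e (nat_lit 221215) (nat_lit 23) (.e (nat_lit 204880) (nat_lit 32) (.e (nat_lit 385067) (nat_lit 26) .nil))))) .nil)) 
(.lf (nat_lit 77039) (.g (nat_lit 2836) (.e (nat_lit 1799) (nat_lit 119) (.e (nat_lit 516166) (nat_lit 12) (.e (nat_lit 450578) (nat_lit 5) (.e (nat_lit 532523) (nat_lit 7) (.e (nat_lit 319534) (nat_lit 16) (.e (nat_lit 286727) (nat_lit 0) .nil)))))) (.g (nat_lit 4) .nil .nil))))) (.nd (nat_lit 5) (.nd (nat_lit 6) 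
(.lf (nat_lit 76959) (.g (nat_lit 2208) (.e (nat_lit 1799) (nat_lit 119) (.e (nat_lit 516129) (nat_lit 3) (.e (nat_lit 221210) (nat_lit 22) (.e (nat_lit 196670) (nat_lit 14) (.e (nat_lit 73746) (nat_lit 3) (.e (nat_lit 516119) (nat_lit 1) (.e (nat_lit 164184) (nat_lit 155) (.e (nat_lit 122883) (nat_lit 0) .nil)))))))) (.g (nat_lit 4) .nil .nil))) 
(.lf (nat_lit 77023) (.g (nat_lit 1665) (.e (nat_lit 1799) (nat_lit 119) (.e (nat_lit 516165) (nat_lit 12) (.e (nat_lit 450579) (nat_lit 5) (.e (nat_lit 532522) (nat_lit 7) .nil)))) .nil))) (.nd (nat_lit 6) 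
(.lf (nat_lit 76991) (.g (nat_lit 5447) (.e (nat_lit 1799) (nat_lit 119) (.e (nat_lit 516151) (nat_lit 9) (.e (nat_lit 426211) (nat_lit 9) (.e (nat_lit 426125) (nat_lit 2) (.e (nat_lit 196634) (nat_lit 9) .nil))))) .nil)) 
(.lf (nat_lit 77055) (.g (nat_lit 3958) (.e (nat_lit 1799) (nat_lit 119) (.e (nat_lit 516166) (nat_lit 12) (.e (nat_lit 450580) (nat_lit 5) (.e (nat_lit 532523) (nat_lit 7) (.e (nat_lit 319529) (nat_lit 16) (.e (nat_lit 286727) (nat_lit 0) .nil)))))) (.g (nat_lit 4) .nil .nil))))))))))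

noncomputable def tv1041 : DT := (.nd (nat_lit 0) (.nd (nat_lit 1) (.nd (nat_lit 2) (.nd (nat_lit 3) (.nd (nat_lit 4) (.nd (nat_lit 5) 
(.lf (nat_lit 77056) (.g (nat_lit 4757) (.e (nat_lit 1799) (nat_lit 119) (.e (nat_lit 516166) (nat_lit 12) (.e (nat_lit 450580) (nat_lit 5) (.e (nat_lit 532523) (nat_lit 7) (.e (nat_lit 319531) (nat_lit 16) (.e (nat_lit 286727) (nat_lit 0) .nil)))))) (.g (nat_lit 5) .nil .nil))) 
(.lf (nat_lit 77088) (.g (nat_lit 3181) (.e (nat_lit 1799) (nat_lit 119) (.e (nat_lit 516166) (nat_lit 12) (.e (nat_lit 450587) (nat_lit 10) (.e (nat_lit 573477) (nat_lit 12) (.e (nat_lit 57575) (nat_lit 55) .nil))))) .nil))) (.nd (nat_lit 5) 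
(.lf (nat_lit 77072) (.g (nat_lit 998) (.e (nat_lit 1799) (nat_lit 119) (.e (nat_lit 516166) (nat_lit 12) (.e (nat_lit 458496) (nat_lit 5) .nil))) .nil)) 
(.lf (nat_lit 77104) (.g (nat_lit 4768) (.e (nat_lit 1799) (nat_lit 119) (.e (nat_lit 516166) (nat_lit 12) (.e (nat_lit 450588) (nat_lit 10) (.e (nat_lit 573457) (nat_lit 9) .nil)))) .nil)))) (.nd (nat_lit 4) (.nd (nat_lit 5) 
(.lf (nat_lit 77064) (.g (nat_lit 2775) (.e (nat_lit 1799) (nat_lit 119) (.e (nat_lit 516166) (nat_lit 12) (.e (nat_lit 450580) (nat_lit 5) (.e (nat_lit 532526) (nat_lit 8) .nil)))) .nil)) 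
(.lf (nat_lit 77096) (.g (nat_lit 4852) (.e (nat_lit 1799) (nat_lit 119) (.e (nat_lit 516166) (nat_lit 12) (.e (nat_lit 450587) (nat_lit 10) (.e (nat_lit 573478) (nat_lit 12) (.e (nat_lit 57574) (nat_lit 55) (.e (nat_lit 778464) (nat_lit 11) (.e (nat_lit 24588) (nat_lit 0) .nil))))))) (.g (nat_lit 7) .nil .nil)))) (.nd (nat_lit 5) 
(.lf (nat_lit 77080) (.g (nat_lit 2967) (.e (nat_lit 1799) (nat_lit 119) (.e (nat_lit 516166) (nat_lit 12) (.e (nat_lit 450587) (nat_lit 10) (.e (nat_lit 573477) (nat_lit 12) (.e (nat_lit 57574) (nat_lit 55) .nil))))) .nil)) 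
(.lf (nat_lit 77112) (.g (nat_lit 6255) (.e (nat_lit 1799) (nat_lit 119) (.e (nat_lit 516166) (nat_lit 12) (.e (nat_lit 450588) (nat_lit 10) (.e (nat_lit 573474) (nat_lit 12) .nil)))) .nil))))) (.nd (nat_lit 3) (.nd (nat_lit 4) (.nd (nat_lit 5) 
(.lf (nat_lit 77060) (.g (nat_lit 4720) (.e (nat_lit 1799) (nat_lit 119) (.e (nat_lit 516166) (nat_lit 12) (.e (nat_lit 450580) (nat_lit 5) (.e (nat_lit 532523) (nat_lit 7) (.e (nat_lit 319533) (nat_lit 16) (.e (nat_lit 286725) (nat_lit 0) .nil)))))) (.g (nat_lit 6) .nil .nil))) 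
(.lf (nat_lit 77092) (.g (nat_lit 3423) (.e (nat_lit 1799) (nat_lit 119) (.e (nat_lit 516166) (nat_lit 12) (.e (nat_lit 450587) (nat_lit 10) (.e (nat_lit 573477) (nat_lit 12) (.e (nat_lit 57575) (nat_lit 55) (.e (nat_lit 778465) (nat_lit 11) (.e (nat_lit 24591) (nat_lit 0) .nil))))))) (.g (nat_lit 4) .nil .nil)))) (.nd (nat_lit 5) 
(.lf (nat_lit 77076) (.g (nat_lit 2866) (.e (nat_lit 1799) (nat_lit 119) (.e (nat_lit 516166) (nat_lit 12) (.e (nat_lit 450587) (nat_lit 10) (.e (nat_lit 573456) (nat_lit 9) .nil)))) .nil)) 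
(.lf (nat_lit 77108) (.g (nat_lit 5172) (.e (nat_lit 1799) (nat_lit 119) (.e (nat_lit 516166) (nat_lit 12) (.e (nat_lit 450588) (nat_lit 10) (.e (nat_lit 573470) (nat_lit 11) (.e (nat_lit 16473) (nat_lit 14) (.e (nat_lit 491527) (nat_lit 0) .nil)))))) (.g (nat_lit 4) .nil .nil))))) (.nd (nat_lit 4) (.nd (nat_lit 5) 
(.lf (nat_lit 77068) (.g (nat_lit 3062) (.e (nat_lit 1799) (nat_lit 119) (.e (nat_lit 516166) (nat_lit 12) (.e (nat_lit 450581) (nat_lit 5) (.e (nat_lit 532523) (nat_lit 7) (.e (nat_lit 319529) (nat_lit 16) .nil))))) .nil)) 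
(.lf (nat_lit 77100) (.g (nat_lit 3843) (.e (nat_lit 1799) (nat_lit 119) (.e (nat_lit 516166) (nat_lit 12) (.e (nat_lit 450587) (nat_lit 10) (.e (nat_lit 573478) (nat_lit 12) (.e (nat_lit 57574) (nat_lit 55) (.e (nat_lit 778465) (nat_lit 11) (.e (nat_lit 24591) (nat_lit 0) .nil))))))) (.g (nat_lit 5) .nil .nil)))) (.nd (nat_lit 5) 
(.lf (nat_lit 77084) (.g (nat_lit 4033) (.e (nat_lit 1799) (nat_lit 119) (.e (nat_lit 516166) (nat_lit 12) (.e (nat_lit 450587) (nat_lit 10) (.e (nat_lit 573477) (nat_lit 12) (.e (nat_lit 57574) (nat_lit 55) (.e (nat_lit 778465) (nat_lit 11) (.e (nat_lit 24591) (nat_lit 0) .nil))))))) (.g (nat_lit 5) .nil .nil))) 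
(.lf (nat_lit 77116) (.g (nat_lit 3943) (.e (nat_lit 1799) (nat_lit 119) (.e (nat_lit 516166) (nat_lit 12) (.e (nat_lit 450588) (nat_lit 10) (.e (nat_lit 573475) (nat_lit 12) (.e (nat_lit 57574) (nat_lit 55) (.e (nat_lit 778464) (nat_lit 11) (.e (nat_lit 24592) (nat_lit 0) .nil))))))) (.g (nat_lit 4) .nil .nil))))))) (.nd (nat_lit 2) (.nd (nat_lit 3) (.nd (nat_lit 4) (.nd (nat_lit 5) 
(.lf (nat_lit 77058) (.g (nat_lit 2981) (.e (nat_lit 1799) (nat_lit 119) (.e (nat_lit 516166) (nat_lit 12) (.e (nat_lit 450580) (nat_lit 5) (.e (nat_lit 532523) (nat_lit 7) (.e (nat_lit 319533) (nat_lit 16) .nil))))) .nil)) 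
(.lf (nat_lit 77090) (.g (nat_lit 3490) (.e (nat_lit 1799) (nat_lit 119) (.e (nat_lit 516166) (nat_lit 12) (.e (nat_lit 450587) (nat_lit 10) (.e (nat_lit 573477) (nat_lit 12) (.e (nat_lit 57575) (nat_lit 55) (.e (nat_lit 778463) (nat_lit 11) (.e (nat_lit 24592) (nat_lit 0) .nil))))))) (.g (nat_lit 4) .nil .nil)))) (.nd (nat_lit 5) 
(.lf (nat_lit 77074) (.g (nat_lit 618) (.e (nat_lit 1799) (nat_lit 119) (.e (nat_lit 516166) (nat_lit 12) (.e (nat_lit 450587) (nat_lit 10) .nil))) .nil)) 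
(.lf (nat_lit 77106) (.g (nat_lit 4479) (.e (nat_lit 1799) (nat_lit 119) (.e (nat_lit 516166) (nat_lit 12) (.e (nat_lit 450588) (nat_lit 10) (.e (nat_lit 573469) (nat_lit 11) .nil)))) .nil)))) (.nd (nat_lit 4) (.nd (nat_lit 5) 
(.lf (nat_lit 77066) (.g (nat_lit 1878) (.e (nat_lit 1799) (nat_lit 119) (.e (nat_lit 516166) (nat_lit 12) (.e (nat_lit 450581) (nat_lit 5) (.e (nat_lit 532523) (nat_lit 7) .nil)))) .nil)) 
(.lf (nat_lit 77098) (.g (nat_lit 3408) (.e (nat_lit 1799) (nat_lit 119) (.e (nat_lit 516166) (nat_lit 12) (.e (nat_lit 450587) (nat_lit 10) (.e (nat_lit 573478) (nat_lit 12) (.e (nat_lit 57574) (nat_lit 55) (.e (nat_lit 778464) (nat_lit 11) (.e (nat_lit 24592) (nat_lit 0) .nil))))))) (.g (nat_lit 5) .nil .nil)))) (.nd (nat_lit 5) 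
(.lf (nat_lit 77082) (.g (nat_lit 3405) (.e (nat_lit 1799) (nat_lit 119) (.e (nat_lit 516166) (nat_lit 12) (.e (nat_lit 450587) (nat_lit 10) (.e (nat_lit 573477) (nat_lit 12) (.e (nat_lit 57574) (nat_lit 55) (.e (nat_lit 778464) (nat_lit 11) (.e (nat_lit 24591) (nat_lit 0) .nil))))))) (.g (nat_lit 4) .nil .nil))) 
(.lf (nat_lit 77114) (.g (nat_lit 3856) (.e (nat_lit 1799) (nat_lit 119) (.e (nat_lit 516166) (nat_lit 12) (.e (nat_lit 450588) (nat_lit 10) (.e (nat_lit 573475) (nat_lit 12) (.e (nat_lit 57574) (nat_lit 55) .nil))))) .nil))))) (.nd (nat_lit 3) (.nd (nat_lit 4) (.nd (nat_lit 5) 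
(.lf (nat_lit 77062) (.g (nat_lit 3942) (.e (nat_lit 1799) (nat_lit 119) (.e (nat_lit 516166) (nat_lit 12) (.e (nat_lit 450580) (nat_lit 5) (.e (nat_lit 532523) (nat_lit 7) (.e (nat_lit 327424) (nat_lit 16) (.e (nat_lit 286727) (nat_lit 0) .nil)))))) (.g (nat_lit 4) .nil .nil))) 
(.lf (nat_lit 77094) (.g (nat_lit 2752) (.e (nat_lit 1799) (nat_lit 119) (.e (nat_lit 516166) (nat_lit 12) (.e (nat_lit 450587) (nat_lit 10) (.e (nat_lit 573478) (nat_lit 12) (.e (nat_lit 57574) (nat_lit 55) .nil))))) .nil))) (.nd (nat_lit 5) 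
(.lf (nat_lit 77078) (.g (nat_lit 3473) (.e (nat_lit 1799) (nat_lit 119) (.e (nat_lit 516166) (nat_lit 12) (.e (nat_lit 450587) (nat_lit 10) (.e (nat_lit 573469) (nat_lit 11) (.e (nat_lit 16473) (nat_lit 14) .nil))))) .nil)) 
(.lf (nat_lit 77110) (.g (nat_lit 4458) (.e (nat_lit 1799) (nat_lit 119) (.e (nat_lit 516166) (nat_lit 12) (.e (nat_lit 450588) (nat_lit 10) (.e (nat_lit 573471) (nat_lit 11) (.e (nat_lit 16473) (nat_lit 14) .nil))))) .nil)))) (.nd (nat_lit 4) (.nd (nat_lit 5) 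
(.lf (nat_lit 77070) (.g (nat_lit 2758) (.e (nat_lit 1799) (nat_lit 119) (.e (nat_lit 516166) (nat_lit 12) (.e (nat_lit 450581) (nat_lit 5) (.e (nat_lit 532523) (nat_lit 7) (.e (nat_lit 319532) (nat_lit 16) .nil))))) .nil)) 
(.lf (nat_lit 77102) (.g (nat_lit 532) (.e (nat_lit 1799) (nat_lit 119) (.e (nat_lit 516166) (nat_lit 12) (.e (nat_lit 450588) (nat_lit 10) .nil))) .nil))) (.nd (nat_lit 5) 
(.lf (nat_lit 77086) (.g (nat_lit 3187) (.e (nat_lit 1799) (nat_lit 119) (.e (nat_lit 516166) (nat_lit 12) (.e (nat_lit 450587) (nat_lit 10) (.e (nat_lit 573477) (nat_lit 12) (.e (nat_lit 57574) (nat_lit 55) (.e (nat_lit 778466) (nat_lit 11) (.e (nat_lit 24576) (nat_lit 0) .nil))))))) (.g (nat_lit 4) .nil .nil))) 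
(.lf (nat_lit 77118) (.g (nat_lit 4137) (.e (nat_lit 1799) (nat_lit 119) (.e (nat_lit 516166) (nat_lit 12) (.e (nat_lit 450588) (nat_lit 10) (.e (nat_lit 573475) (nat_lit 12) (.e (nat_lit 57574) (nat_lit 55) (.e (nat_lit 778465) (nat_lit 11) (.e (nat_lit 24591) (nat_lit 0) .nil))))))) (.g (nat_lit 4) .nil .nil)))))))) 
(.nd (nat_lit 1) (.nd (nat_lit 2) (.nd (nat_lit 3) (.nd (nat_lit 4) (.nd (nat_lit 5) 
(.lf (nat_lit 77057) (.g (nat_lit 3804) (.e (nat_lit 1799) (nat_lit 119) (.e (nat_lit 516166) (nat_lit 12) (.e (nat_lit 450580) (nat_lit 5) (.e (nat_lit 532523) (nat_lit 7) (.e (nat_lit 319532) (nat_lit 16) .nil))))) .nil)) 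
(.lf (nat_lit 77089) (.g (nat_lit 3565) (.e (nat_lit 1799) (nat_lit 119) (.e (nat_lit 516166) (nat_lit 12) (.e (nat_lit 450587) (nat_lit 10) (.e (nat_lit 573477) (nat_lit 12) (.e (nat_lit 57575) (nat_lit 55) (.e (nat_lit 778463) (nat_lit 11) (.e (nat_lit 24591) (nat_lit 0) .nil))))))) (.g (nat_lit 4) .nil .nil)))) (.nd (nat_lit 5) 
(.lf (nat_lit 77073) (.g (nat_lit 1055) (.e (nat_lit 1799) (nat_lit 119) (.e (nat_lit 516166) (nat_lit 12) (.e (nat_lit 450586) (nat_lit 10) .nil))) .nil)) 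
(.lf (nat_lit 77105) (.g (nat_lit 3925) (.e (nat_lit 1799) (nat_lit 119) (.e (nat_lit 516166) (nat_lit 12) (.e (nat_lit 450588) (nat_lit 10) (.e (nat_lit 573468) (nat_lit 10) .nil)))) .nil)))) (.nd (nat_lit 4) (.nd (nat_lit 5) 
(.lf (nat_lit 77065) (.g (nat_lit 2821) (.e (nat_lit 1799) (nat_lit 119) (.e (nat_lit 516166) (nat_lit 12) (.e (nat_lit 450581) (nat_lit 5) (.e (nat_lit 532522) (nat_lit 7) (.e (nat_lit 319531) (nat_lit 16) (.e (nat_lit 286727) (nat_lit 0) .nil)))))) (.g (nat_lit 4) .nil .nil))) 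
(.lf (nat_lit 77097) (.g (nat_lit 3193) (.e (nat_lit 1799) (nat_lit 119) (.e (nat_lit 516166) (nat_lit 12) (.e (nat_lit 450587) (nat_lit 10) (.e (nat_lit 573478) (nat_lit 12) (.e (nat_lit 57574) (nat_lit 55) (.e (nat_lit 778464) (nat_lit 11) (.e (nat_lit 24591) (nat_lit 0) .nil))))))) (.g (nat_lit 4) .nil .nil)))) (.nd (nat_lit 5) 
(.lf (nat_lit 77081) (.g (nat_lit 5199) (.e (nat_lit 1799) (nat_lit 119) (.e (nat_lit 516166) (nat_lit 12) (.e (nat_lit 450587) (nat_lit 10) (.e (nat_lit 573477) (nat_lit 12) (.e (nat_lit 57574) (nat_lit 55) (.e (nat_lit 778464) (nat_lit 11) (.e (nat_lit 24588) (nat_lit 0) .nil))))))) (.g (nat_lit 7) .nil .nil))) 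
(.lf (nat_lit 77113) (.g (nat_lit 3129) (.e (nat_lit 1799) (nat_lit 119) (.e (nat_lit 516166) (nat_lit 12) (.e (nat_lit 450588) (nat_lit 10) (.e (nat_lit 573475) (nat_lit 12) .nil)))) .nil))))) (.nd (nat_lit 3) (.nd (nat_lit 4) (.nd (nat_lit 5) 
(.lf (nat_lit 77061) (.g (nat_lit 5358) (.e (nat_lit 1799) (nat_lit 119) (.e (nat_lit 516166) (nat_lit 12) (.e (nat_lit 450580) (nat_lit 5) (.e (nat_lit 532523) (nat_lit 7) (.e (nat_lit 319533) (nat_lit 16) (.e (nat_lit 286727) (nat_lit 0) .nil)))))) (.g (nat_lit 6) .nil .nil))) 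
(.lf (nat_lit 77093) (.g (nat_lit 3422) (.e (nat_lit 1799) (nat_lit 119) (.e (nat_lit 516166) (nat_lit 12) (.e (nat_lit 450587) (nat_lit 10) (.e (nat_lit 573477) (nat_lit 12) (.e (nat_lit 57575) (nat_lit 55) (.e (nat_lit 778465) (nat_lit 11) (.e (nat_lit 24592) (nat_lit 0) .nil))))))) (.g (nat_lit 4) .nil .nil)))) (.nd (nat_lit 5) 
(.lf (nat_lit 77077) (.g (nat_lit 2857) (.e (nat_lit 1799) (nat_lit 119) (.e (nat_lit 516166) (nat_lit 12) (.e (nat_lit 450587) (nat_lit 10) (.e (nat_lit 573457) (nat_lit 9) .nil)))) .nil)) 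
(.lf (nat_lit 77109) (.g (nat_lit 4784) (.e (nat_lit 1799) (nat_lit 119) (.e (nat_lit 516166) (nat_lit 12) (.e (nat_lit 450588) (nat_lit 10) (.e (nat_lit 573471) (nat_lit 11) (.e (nat_lit 16470) (nat_lit 14) .nil))))) .nil)))) (.nd (nat_lit 4) (.nd (nat_lit 5) 
(.lf (nat_lit 77069) (.g (nat_lit 5107) (.e (nat_lit 1799) (nat_lit 119) (.e (nat_lit 516166) (nat_lit 12) (.e (nat_lit 450581) (nat_lit 5) (.e (nat_lit 532523) (nat_lit 7) (.e (nat_lit 319530) (nat_lit 16) (.e (nat_lit 286727) (nat_lit 0) .nil)))))) (.g (nat_lit 6) .nil .nil))) 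
(.lf (nat_lit 77101) (.g (nat_lit 5850) (.e (nat_lit 1799) (nat_lit 119) (.e (nat_lit 516166) (nat_lit 12) (.e (nat_lit 450587) (nat_lit 10) (.e (nat_lit 573478) (nat_lit 12) (.e (nat_lit 57574) (nat_lit 55) (.e (nat_lit 778466) (nat_lit 11) (.e (nat_lit 24588) (nat_lit 0) .nil))))))) (.g (nat_lit 0) .nil .nil)))) (.nd (nat_lit 5) 
(.lf (nat_lit 77085) (.g (nat_lit 4188) (.e (nat_lit 1799) (nat_lit 119) (.e (nat_lit 516166) (nat_lit 12) (.e (nat_lit 450587) (nat_lit 10) (.e (nat_lit 573477) (nat_lit 12) (.e (nat_lit 57574) (nat_lit 55) (.e (nat_lit 778465) (nat_lit 11) (.e (nat_lit 24592) (nat_lit 0) .nil))))))) (.g (nat_lit 5) .nil .nil))) 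
(.lf (nat_lit 77117) (.g (nat_lit 6077) (.e (nat_lit 1799) (nat_lit 119) (.e (nat_lit 516166) (nat_lit 12) (.e (nat_lit 450588) (nat_lit 10) (.e (nat_lit 573475) (nat_lit 12) (.e (nat_lit 57574) (nat_lit 55) (.e (nat_lit 778465) (nat_lit 11) (.e (nat_lit 24588) (nat_lit 0) .nil))))))) (.g (nat_lit 7) .nil .nil))))))) (.nd (nat_lit 2) (.nd (nat_lit 3) (.nd (nat_lit 4) (.nd (nat_lit 5) 
(.lf (nat_lit 77059) (.g (nat_lit 4778) (.e (nat_lit 1799) (nat_lit 119) (.e (nat_lit 516166) (nat_lit 12) (.e (nat_lit 450580) (nat_lit 5) (.e (nat_lit 532523) (nat_lit 7) (.e (nat_lit 319533) (nat_lit 16) (.e (nat_lit 286724) (nat_lit 0) .nil)))))) (.g (nat_lit 5) .nil .nil))) 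
(.lf (nat_lit 77091) (.g (nat_lit 5730) (.e (nat_lit 1799) (nat_lit 119) (.e (nat_lit 516166) (nat_lit 12) (.e (nat_lit 450587) (nat_lit 10) (.e (nat_lit 573477) (nat_lit 12) (.e (nat_lit 57575) (nat_lit 55) (.e (nat_lit 778465) (nat_lit 11) (.e (nat_lit 24588) (nat_lit 0) .nil))))))) (.g (nat_lit 6) .nil .nil)))) (.nd (nat_lit 5) 
(.lf (nat_lit 77075) (.g (nat_lit 2575) (.e (nat_lit 1799) (nat_lit 119) (.e (nat_lit 516166) (nat_lit 12) (.e (nat_lit 450587) (nat_lit 10) (.e (nat_lit 573454) (nat_lit 9) .nil)))) .nil)) 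
(.lf (nat_lit 77107) (.g (nat_lit 5389) (.e (nat_lit 1799) (nat_lit 119) (.e (nat_lit 516166) (nat_lit 12) (.e (nat_lit 450588) (nat_lit 10) (.e (nat_lit 573469) (nat_lit 11) (.e (nat_lit 16473) (nat_lit 14) .nil))))) .nil)))) (.nd (nat_lit 4) (.nd (nat_lit 5) 
(.lf (nat_lit 77067) (.g (nat_lit 2872) (.e (nat_lit 1799) (nat_lit 119) (.e (nat_lit 516166) (nat_lit 12) (.e (nat_lit 450581) (nat_lit 5) (.e (nat_lit 532523) (nat_lit 7) (.e (nat_lit 319528) (nat_lit 16) .nil))))) .nil)) 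
(.lf (nat_lit 77099) (.g (nat_lit 5536) (.e (nat_lit 1799) (nat_lit 119) (.e (nat_lit 516166) (nat_lit 12) (.e (nat_lit 450587) (nat_lit 10) (.e (nat_lit 573478) (nat_lit 12) (.e (nat_lit 57574) (nat_lit 55) (.e (nat_lit 778465) (nat_lit 11) (.e (nat_lit 24588) (nat_lit 0) .nil))))))) (.g (nat_lit 0) .nil .nil)))) (.nd (nat_lit 5) 
(.lf (nat_lit 77083) (.g (nat_lit 5829) (.e (nat_lit 1799) (nat_lit 119) (.e (nat_lit 516166) (nat_lit 12) (.e (nat_lit 450587) (nat_lit 10) (.e (nat_lit 573477) (nat_lit 12) (.e (nat_lit 57574) (nat_lit 55) (.e (nat_lit 778465) (nat_lit 11) (.e (nat_lit 24588) (nat_lit 0) .nil))))))) (.g (nat_lit 7) .nil .nil))) 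
(.lf (nat_lit 77115) (.g (nat_lit 4743) (.e (nat_lit 1799) (nat_lit 119) (.e (nat_lit 516166) (nat_lit 12) (.e (nat_lit 450588) (nat_lit 10) (.e (nat_lit 573475) (nat_lit 12) (.e (nat_lit 57574) (nat_lit 55) (.e (nat_lit 778463) (nat_lit 11) (.e (nat_lit 24588) (nat_lit 0) .nil))))))) (.g (nat_lit 5) .nil .nil)))))) (.nd (nat_lit 3) (.nd (nat_lit 4) (.nd (nat_lit 5) 
(.lf (nat_lit 77063) (.g (nat_lit 2783) (.e (nat_lit 1799) (nat_lit 119) (.e (nat_lit 516166) (nat_lit 12) (.e (nat_lit 450580) (nat_lit 5) (.e (nat_lit 532525) (nat_lit 8) .nil)))) .nil)) 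
(.lf (nat_lit 77095) (.g (nat_lit 4169) (.e (nat_lit 1799) (nat_lit 119) (.e (nat_lit 516166) (nat_lit 12) (.e (nat_lit 450587) (nat_lit 10) (.e (nat_lit 573478) (nat_lit 12) (.e (nat_lit 57574) (nat_lit 55) (.e (nat_lit 778463) (nat_lit 11) (.e (nat_lit 24588) (nat_lit 0) .nil))))))) (.g (nat_lit 6) .nil .nil)))) (.nd (nat_lit 5) 
(.lf (nat_lit 77079) (.g (nat_lit 5027) (.e (nat_lit 1799) (nat_lit 119) (.e (nat_lit 516166) (nat_lit 12) (.e (nat_lit 450587) (nat_lit 10) (.e (nat_lit 573469) (nat_lit 11) (.e (nat_lit 16473) (nat_lit 14) (.e (nat_lit 491525) (nat_lit 0) .nil)))))) (.g (nat_lit 5) .nil .nil))) 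
(.lf (nat_lit 77111) (.g (nat_lit 4519) (.e (nat_lit 1799) (nat_lit 119) (.e (nat_lit 516166) (nat_lit 12) (.e (nat_lit 450588) (nat_lit 10) (.e (nat_lit 573473) (nat_lit 12) .nil)))) .nil)))) (.nd (nat_lit 4) (.nd (nat_lit 5) 
(.lf (nat_lit 77071) (.g (nat_lit 2758) (.e (nat_lit 1799) (nat_lit 119) (.e (nat_lit 516166) (nat_lit 12) (.e (nat_lit 450581) (nat_lit 5) (.e (nat_lit 532523) (nat_lit 7) (.e (nat_lit 319534) (nat_lit 16) .nil))))) .nil)) 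
(.lf (nat_lit 77103) (.g (nat_lit 4743) (.e (nat_lit 1799) (nat_lit 119) (.e (nat_lit 516166) (nat_lit 12) (.e (nat_lit 450588) (nat_lit 10) (.e (nat_lit 573452) (nat_lit 9) .nil)))) .nil))) (.nd (nat_lit 5) 
(.lf (nat_lit 77087) (.g (nat_lit 6183) (.e (nat_lit 1799) (nat_lit 119) (.e (nat_lit 516166) (nat_lit 12) (.e (nat_lit 450587) (nat_lit 10) (.e (nat_lit 573477) (nat_lit 12) (.e (nat_lit 57574) (nat_lit 55) (.e (nat_lit 778466) (nat_lit 11) (.e (nat_lit 24588) (nat_lit 0) .nil))))))) (.g (nat_lit 0) .nil .nil))) 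
(.lf (nat_lit 77119) (.g (nat_lit 6405) (.e (nat_lit 1799) (nat_lit 119) (.e (nat_lit 516166) (nat_lit 12) (.e (nat_lit 450588) (nat_lit 10) (.e (nat_lit 573475) (nat_lit 12) (.e (nat_lit 57574) (nat_lit 55) (.e (nat_lit 778466) (nat_lit 11) (.e (nat_lit 24588) (nat_lit 0) .nil))))))) (.g (nat_lit 7) .nil .nil)))))))))

noncomputable def tv1042 : DT := (.nd (nat_lit 0) (.nd (nat_lit 1) (.nd (nat_lit 2) (.nd (nat_lit 3) (.nd (nat_lit 4) (.nd (nat_lit 5) 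
(.lf (nat_lit 77120) (.g (nat_lit 1600) (.e (nat_lit 1799) (nat_lit 119) (.e (nat_lit 516167) (nat_lit 12) (.e (nat_lit 450580) (nat_lit 5) (.e (nat_lit 532522) (nat_lit 7) (.e (nat_lit 327424) (nat_lit 16) .nil))))) .nil)) 
(.lf (nat_lit 77152) (.g (nat_lit 3366) (.e (nat_lit 1799) (nat_lit 119) (.e (nat_lit 516176) (nat_lit 14) (.e (nat_lit 466981) (nat_lit 23) (.e (nat_lit 204846) (nat_lit 24) (.e (nat_lit 319531) (nat_lit 16) (.e (nat_lit 286727) (nat_lit 0) .nil)))))) (.g (nat_lit 6) .nil .nil)))) (.nd (nat_lit 5) 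
(.lf (nat_lit 77136) (.g (nat_lit 2804) (.e (nat_lit 1799) (nat_lit 119) (.e (nat_lit 516175) (nat_lit 14) (.e (nat_lit 466981) (nat_lit 23) (.e (nat_lit 204846) (nat_lit 24) (.e (nat_lit 319531) (nat_lit 16) (.e (nat_lit 286727) (nat_lit 0) .nil)))))) (.g (nat_lit 0) .nil .nil))) 
(.lf (nat_lit 77168) (.g (nat_lit 2423) (.e (nat_lit 1799) (nat_lit 119) (.e (nat_lit 516179) (nat_lit 15) (.e (nat_lit 475177) (nat_lit 24) (.e (nat_lit 516179) (nat_lit 15) (.e (nat_lit 475177) (nat_lit 24) (.e (nat_lit 516150) (nat_lit 9) (.e (nat_lit 426360) (nat_lit 15) .nil))))))) (.g (nat_lit 4) .nil .nil))))) (.nd (nat_lit 4) (.nd (nat_lit 5) 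
(.lf (nat_lit 77128) (.g (nat_lit 2983) (.e (nat_lit 1799) (nat_lit 119) (.e (nat_lit 516174) (nat_lit 14) (.e (nat_lit 466980) (nat_lit 23) (.e (nat_lit 204846) (nat_lit 24) (.e (nat_lit 319533) (nat_lit 16) (.e (nat_lit 286725) (nat_lit 0) .nil)))))) (.g (nat_lit 6) .nil .nil))) 
(.lf (nat_lit 77160) (.g (nat_lit 1766) (.e (nat_lit 1799) (nat_lit 119) (.e (nat_lit 516177) (nat_lit 14) (.e (nat_lit 466977) (nat_lit 22) (.e (nat_lit 196661) (nat_lit 12) (.e (nat_lit 57711) (nat_lit 176) (.e (nat_lit 1349) (nat_lit 102) (.e (nat_lit 286727) (nat_lit 0) .nil))))))) (.g (nat_lit 4) .nil .nil)))) (.nd (nat_lit 5) 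
(.lf (nat_lit 77144) (.g (nat_lit 3696) (.e (nat_lit 1799) (nat_lit 119) (.e (nat_lit 516176) (nat_lit 14) (.e (nat_lit 466980) (nat_lit 23) (.e (nat_lit 204846) (nat_lit 24) (.e (nat_lit 319530) (nat_lit 16) (.e (nat_lit 286727) (nat_lit 0) .nil)))))) (.g (nat_lit 0) .nil .nil))) 
(.lf (nat_lit 77176) (.g (nat_lit 4428) (.e (nat_lit 1799) (nat_lit 119) (.e (nat_lit 516185) (nat_lit 16) (.e (nat_lit 491563) (nat_lit 12) (.e (nat_lit 385074) (nat_lit 31) (.e (nat_lit 573493) (nat_lit 15) (.e (nat_lit 81938) (nat_lit 20) .nil)))))) (.g (nat_lit 4) .nil .nil)))))) (.nd (nat_lit 3) (.nd (nat_lit 4) (.nd (nat_lit 5) 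
(.lf (nat_lit 77124) (.g (nat_lit 609) (.e (nat_lit 1799) (nat_lit 119) (.e (nat_lit 516174) (nat_lit 14) (.e (nat_lit 466979) (nat_lit 23) .nil))) .nil)) 
(.lf (nat_lit 77156) (.g (nat_lit 3711) (.e (nat_lit 1799) (nat_lit 119) (.e (nat_lit 516177) (nat_lit 14) (.e (nat_lit 466974) (nat_lit 22) (.e (nat_lit 196630) (nat_lit 9) (.e (nat_lit 1401) (nat_lit 106) (.e (nat_lit 319531) (nat_lit 16) (.e (nat_lit 286727) (nat_lit 0) .nil))))))) (.g (nat_lit 7) .nil .nil)))) (.nd (nat_lit 5) 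
(.lf (nat_lit 77140) (.g (nat_lit 1480) (.e (nat_lit 1799) (nat_lit 119) (.e (nat_lit 516176) (nat_lit 14) (.e (nat_lit 466977) (nat_lit 22) (.e (nat_lit 196677) (nat_lit 16) (.e (nat_lit 130816) (nat_lit 176) .nil))))) .nil)) 
(.lf (nat_lit 77172) (.g (nat_lit 2445) (.e (nat_lit 1799) (nat_lit 119) (.e (nat_lit 516185) (nat_lit 16) (.e (nat_lit 491560) (nat_lit 10) (.e (nat_lit 344118) (nat_lit 21) .nil)))) .nil)))) (.nd (nat_lit 4) (.nd (nat_lit 5) 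
(.lf (nat_lit 77132) (.g (nat_lit 1369) (.e (nat_lit 1799) (nat_lit 119) (.e (nat_lit 516175) (nat_lit 14) (.e (nat_lit 466980) (nat_lit 23) (.e (nat_lit 204846) (nat_lit 24) (.e (nat_lit 327424) (nat_lit 16) .nil))))) .nil)) 
(.lf (nat_lit 77164) (.g (nat_lit 2767) (.e (nat_lit 1799) (nat_lit 119) (.e (nat_lit 516177) (nat_lit 14) (.e (nat_lit 466981) (nat_lit 23) (.e (nat_lit 204846) (nat_lit 24) (.e (nat_lit 319531) (nat_lit 16) (.e (nat_lit 286727) (nat_lit 0) .nil)))))) (.g (nat_lit 0) .nil .nil)))) (.nd (nat_lit 5) 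
(.lf (nat_lit 77148) (.g (nat_lit 3550) (.e (nat_lit 1799) (nat_lit 119) (.e (nat_lit 516176) (nat_lit 14) (.e (nat_lit 466980) (nat_lit 23) (.e (nat_lit 204846) (nat_lit 24) (.e (nat_lit 319534) (nat_lit 16) (.e (nat_lit 286727) (nat_lit 0) .nil)))))) (.g (nat_lit 6) .nil .nil))) 
(.lf (nat_lit 77180) (.g (nat_lit 1463) (.e (nat_lit 1799) (nat_lit 119) (.e (nat_lit 516195) (nat_lit 26) (.e (nat_lit 336012) (nat_lit 2) (.e (nat_lit 90158) (nat_lit 11) (.e (nat_lit 24608) (nat_lit 3) (.e (nat_lit 98316) (nat_lit 9) (.e (nat_lit 335917) (nat_lit 0) .nil))))))) (.g (nat_lit 4) .nil .nil))))))) (.nd (nat_lit 2) (.nd (nat_lit 3) (.nd (nat_lit 4) (.nd (nat_lit 5) 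
(.lf (nat_lit 77122) (.g (nat_lit 3185) (.e (nat_lit 1799) (nat_lit 119) (.e (nat_lit 516167) (nat_lit 12) (.e (nat_lit 450580) (nat_lit 5) (.e (nat_lit 532523) (nat_lit 7) (.e (nat_lit 319533) (nat_lit 16) (.e (nat_lit 286725) (nat_lit 0) .nil)))))) (.g (nat_lit 0) .nil .nil))) 
(.lf (nat_lit 77154) (.g (nat_lit 2584) (.e (nat_lit 1799) (nat_lit 119) (.e (nat_lit 516177) (nat_lit 14) (.e (nat_lit 466967) (nat_lit 20) (.e (nat_lit 3253) (nat_lit 197) (.e (nat_lit 532523) (nat_lit 7) (.e (nat_lit 319533) (nat_lit 16) (.e (nat_lit 286724) (nat_lit 0) .nil))))))) (.g (nat_lit 7) .nil .nil)))) (.nd (nat_lit 5) 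
(.lf (nat_lit 77138) (.g (nat_lit 640) (.e (nat_lit 1799) (nat_lit 119) (.e (nat_lit 516176) (nat_lit 14) (.e (nat_lit 466977) (nat_lit 22) .nil))) .nil)) 
(.lf (nat_lit 77170) (.g (nat_lit 696) (.e (nat_lit 1799) (nat_lit 119) (.e (nat_lit 516185) (nat_lit 16) (.e (nat_lit 491558) (nat_lit 10) .nil))) .nil)))) (.nd (nat_lit 4) (.nd (nat_lit 5) 
(.lf (nat_lit 77130) (.g (nat_lit 1799) (.e (nat_lit 1799) (nat_lit 119) (.e (nat_lit 516174) (nat_lit 14) (.e (nat_lit 466981) (nat_lit 23) (.e (nat_lit 204845) (nat_lit 24) (.e (nat_lit 319529) (nat_lit 16) (.e (nat_lit 286727) (nat_lit 0) .nil)))))) (.g (nat_lit 4) .nil .nil))) 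
(.lf (nat_lit 77162) (.g (nat_lit 1717) (.e (nat_lit 1799) (nat_lit 119) (.e (nat_lit 516177) (nat_lit 14) (.e (nat_lit 466977) (nat_lit 22) (.e (nat_lit 196661) (nat_lit 12) (.e (nat_lit 65280) (nat_lit 176) (.e (nat_lit 1349) (nat_lit 102) (.e (nat_lit 286727) (nat_lit 0) .nil))))))) (.g (nat_lit 4) .nil .nil)))) (.nd (nat_lit 5) 
(.lf (nat_lit 77146) (.g (nat_lit 2487) (.e (nat_lit 1799) (nat_lit 119) (.e (nat_lit 516176) (nat_lit 14) (.e (nat_lit 466980) (nat_lit 23) (.e (nat_lit 204846) (nat_lit 24) (.e (nat_lit 319533) (nat_lit 16) (.e (nat_lit 286724) (nat_lit 0) .nil)))))) (.g (nat_lit 5) .nil .nil))) 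
(.lf (nat_lit 77178) (.g (nat_lit 1821) (.e (nat_lit 1799) (nat_lit 119) (.e (nat_lit 516195) (nat_lit 26) (.e (nat_lit 336004) (nat_lit 2) (.e (nat_lit 90158) (nat_lit 11) (.e (nat_lit 24609) (nat_lit 3) (.e (nat_lit 98317) (nat_lit 9) (.e (nat_lit 335917) (nat_lit 0) .nil))))))) (.g (nat_lit 4) .nil .nil)))))) (.nd (nat_lit 3) (.nd (nat_lit 4) (.nd (nat_lit 5) 
(.lf (nat_lit 77126) (.g (nat_lit 2213) (.e (nat_lit 1799) (nat_lit 119) (.e (nat_lit 516174) (nat_lit 14) (.e (nat_lit 466980) (nat_lit 23) (.e (nat_lit 204846) (nat_lit 24) (.e (nat_lit 319529) (nat_lit 16) (.e (nat_lit 286727) (nat_lit 0) .nil)))))) (.g (nat_lit 5) .nil .nil))) 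
(.lf (nat_lit 77158) (.g (nat_lit 1877) (.e (nat_lit 1799) (nat_lit 119) (.e (nat_lit 516177) (nat_lit 14) (.e (nat_lit 466977) (nat_lit 22) (.e (nat_lit 196624) (nat_lit 9) (.e (nat_lit 7936) (nat_lit 106) (.e (nat_lit 319531) (nat_lit 16) (.e (nat_lit 286727) (nat_lit 0) .nil))))))) (.g (nat_lit 4) .nil .nil)))) (.nd (nat_lit 5) 
(.lf (nat_lit 77142) (.g (nat_lit 1899) (.e (nat_lit 1799) (nat_lit 119) (.e (nat_lit 516176) (nat_lit 14) (.e (nat_lit 466979) (nat_lit 23) (.e (nat_lit 204846) (nat_lit 24) (.e (nat_lit 319531) (nat_lit 16) (.e (nat_lit 286727) (nat_lit 0) .nil)))))) (.g (nat_lit 4) .nil .nil))) 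
(.lf (nat_lit 77174) (.g (nat_lit 3957) (.e (nat_lit 1799) (nat_lit 119) (.e (nat_lit 516185) (nat_lit 16) (.e (nat_lit 491563) (nat_lit 12) (.e (nat_lit 385074) (nat_lit 31) (.e (nat_lit 573491) (nat_lit 15) .nil))))) .nil)))) (.nd (nat_lit 4) (.nd (nat_lit 5) 
(.lf (nat_lit 77134) (.g (nat_lit 3585) (.e (nat_lit 1799) (nat_lit 119) (.e (nat_lit 516175) (nat_lit 14) (.e (nat_lit 466981) (nat_lit 23) (.e (nat_lit 204845) (nat_lit 24) (.e (nat_lit 319530) (nat_lit 16) (.e (nat_lit 286727) (nat_lit 0) .nil)))))) (.g (nat_lit 0) .nil .nil))) 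
(.lf (nat_lit 77166) (.g (nat_lit 2551) (.e (nat_lit 1799) (nat_lit 119) (.e (nat_lit 516179) (nat_lit 15) (.e (nat_lit 475177) (nat_lit 24) (.e (nat_lit 516146) (nat_lit 9) (.e (nat_lit 426438) (nat_lit 18) (.e (nat_lit 98358) (nat_lit 26) (.e (nat_lit 426364) (nat_lit 15) .nil))))))) (.g (nat_lit 4) .nil .nil)))) (.nd (nat_lit 5) 
(.lf (nat_lit 77150) (.g (nat_lit 3332) (.e (nat_lit 1799) (nat_lit 119) (.e (nat_lit 516176) (nat_lit 14) (.e (nat_lit 466981) (nat_lit 23) (.e (nat_lit 204845) (nat_lit 24) (.e (nat_lit 319529) (nat_lit 16) (.e (nat_lit 286727) (nat_lit 0) .nil)))))) (.g (nat_lit 0) .nil .nil))) 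
(.lf (nat_lit 77182) (.g (nat_lit 2075) (.e (nat_lit 1799) (nat_lit 119) (.e (nat_lit 516195) (nat_lit 26) (.e (nat_lit 336021) (nat_lit 3) (.e (nat_lit 98313) (nat_lit 9) (.e (nat_lit 336012) (nat_lit 2) .nil))))) .nil))))))) (.nd (nat_lit 1) (.nd (nat_lit 2) (.nd (nat_lit 3) (.nd (nat_lit 4) (.nd (nat_lit 5) 
(.lf (nat_lit 77121) (.g (nat_lit 3179) (.e (nat_lit 1799) (nat_lit 119) (.e (nat_lit 516167) (nat_lit 12) (.e (nat_lit 450580) (nat_lit 5) (.e (nat_lit 532523) (nat_lit 7) (.e (nat_lit 319533) (nat_lit 16) (.e (nat_lit 286724) (nat_lit 0) .nil)))))) (.g (nat_lit 0) .nil .nil))) 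
(.lf (nat_lit 77153) (.g (nat_lit 2164) (.e (nat_lit 1799) (nat_lit 119) (.e (nat_lit 516176) (nat_lit 14) (.e (nat_lit 466981) (nat_lit 23) (.e (nat_lit 204846) (nat_lit 24) (.e (nat_lit 327424) (nat_lit 16) .nil))))) .nil))) (.nd (nat_lit 5) 
(.lf (nat_lit 77137) (.g (nat_lit 1618) (.e (nat_lit 1799) (nat_lit 119) (.e (nat_lit 516175) (nat_lit 14) (.e (nat_lit 466981) (nat_lit 23) (.e (nat_lit 204846) (nat_lit 24) (.e (nat_lit 327424) (nat_lit 16) .nil))))) .nil)) 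
(.lf (nat_lit 77169) (.g (nat_lit 716) (.e (nat_lit 1799) (nat_lit 119) (.e (nat_lit 516180) (nat_lit 15) (.e (nat_lit 475212) (nat_lit 42) (.e (nat_lit 720945) (nat_lit 23) .nil)))) .nil)))) (.nd (nat_lit 4) (.nd (nat_lit 5) 
(.lf (nat_lit 77129) (.g (nat_lit 3597) (.e (nat_lit 1799) (nat_lit 119) (.e (nat_lit 516174) (nat_lit 14) (.e (nat_lit 466980) (nat_lit 23) (.e (nat_lit 204846) (nat_lit 24) (.e (nat_lit 319534) (nat_lit 16) (.e (nat_lit 286727) (nat_lit 0) .nil)))))) (.g (nat_lit 6) .nil .nil))) 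
(.lf (nat_lit 77161) (.g (nat_lit 1835) (.e (nat_lit 1799) (nat_lit 119) (.e (nat_lit 516177) (nat_lit 14) (.e (nat_lit 466977) (nat_lit 22) (.e (nat_lit 196661) (nat_lit 12) (.e (nat_lit 57713) (nat_lit 176) (.e (nat_lit 1348) (nat_lit 102) (.e (nat_lit 286727) (nat_lit 0) .nil))))))) (.g (nat_lit 4) .nil .nil)))) (.nd (nat_lit 5) 
(.lf (nat_lit 77145) (.g (nat_lit 2562) (.e (nat_lit 1799) (nat_lit 119) (.e (nat_lit 516176) (nat_lit 14) (.e (nat_lit 466980) (nat_lit 23) (.e (nat_lit 204846) (nat_lit 24) (.e (nat_lit 319531) (nat_lit 16) (.e (nat_lit 286727) (nat_lit 0) .nil)))))) (.g (nat_lit 6) .nil .nil))) 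
(.lf (nat_lit 77177) (.g (nat_lit 1865) (.e (nat_lit 1799) (nat_lit 119) (.e (nat_lit 516195) (nat_lit 26) (.e (nat_lit 336004) (nat_lit 2) (.e (nat_lit 90158) (nat_lit 11) (.e (nat_lit 24608) (nat_lit 3) (.e (nat_lit 98316) (nat_lit 9) (.e (nat_lit 335917) (nat_lit 0) .nil))))))) (.g (nat_lit 4) .nil .nil)))))) (.nd (nat_lit 3) (.nd (nat_lit 4) (.nd (nat_lit 5) 
(.lf (nat_lit 77125) (.g (nat_lit 1769) (.e (nat_lit 1799) (nat_lit 119) (.e (nat_lit 516174) (nat_lit 14) (.e (nat_lit 466979) (nat_lit 23) (.e (nat_lit 204845) (nat_lit 24) (.e (nat_lit 319529) (nat_lit 16) (.e (nat_lit 286727) (nat_lit 0) .nil)))))) (.g (nat_lit 4) .nil .nil))) 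
(.lf (nat_lit 77157) (.g (nat_lit 1828) (.e (nat_lit 1799) (nat_lit 119) (.e (nat_lit 516177) (nat_lit 14) (.e (nat_lit 466977) (nat_lit 22) (.e (nat_lit 196624) (nat_lit 9) (.e (nat_lit 7936) (nat_lit 106) .nil))))) .nil))) (.nd (nat_lit 5) 
(.lf (nat_lit 77141) (.g (nat_lit 2788) (.e (nat_lit 1799) (nat_lit 119) (.e (nat_lit 516176) (nat_lit 14) (.e (nat_lit 466979) (nat_lit 23) (.e (nat_lit 204846) (nat_lit 24) (.e (nat_lit 319530) (nat_lit 16) (.e (nat_lit 286727) (nat_lit 0) .nil)))))) (.g (nat_lit 4) .nil .nil))) 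
(.lf (nat_lit 77173) (.g (nat_lit 2848) (.e (nat_lit 1799) (nat_lit 119) (.e (nat_lit 516185) (nat_lit 16) (.e (nat_lit 491560) (nat_lit 10) (.e (nat_lit 344118) (nat_lit 21) (.e (nat_lit 516182) (nat_lit 15) .nil))))) .nil)))) (.nd (nat_lit 4) (.nd (nat_lit 5) 
(.lf (nat_lit 77133) (.g (nat_lit 2691) (.e (nat_lit 1799) (nat_lit 119) (.e (nat_lit 516175) (nat_lit 14) (.e (nat_lit 466981) (nat_lit 23) (.e (nat_lit 204845) (nat_lit 24) (.e (nat_lit 319529) (nat_lit 16) (.e (nat_lit 286727) (nat_lit 0) .nil)))))) (.g (nat_lit 0) .nil .nil))) 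
(.lf (nat_lit 77165) (.g (nat_lit 1584) (.e (nat_lit 1799) (nat_lit 119) (.e (nat_lit 516177) (nat_lit 14) (.e (nat_lit 466981) (nat_lit 23) (.e (nat_lit 204846) (nat_lit 24) (.e (nat_lit 327424) (nat_lit 16) .nil))))) .nil))) (.nd (nat_lit 5) 
(.lf (nat_lit 77149) (.g (nat_lit 392) (.e (nat_lit 1799) (nat_lit 119) (.e (nat_lit 516176) (nat_lit 14) (.e (nat_lit 466981) (nat_lit 23) .nil))) .nil)) 
(.lf (nat_lit 77181) (.g (nat_lit 1161) (.e (nat_lit 1799) (nat_lit 119) (.e (nat_lit 516195) (nat_lit 26) (.e (nat_lit 336021) (nat_lit 3) (.e (nat_lit 98313) (nat_lit 9) .nil)))) .nil)))))) (.nd (nat_lit 2) (.nd (nat_lit 3) (.nd (nat_lit 4) (.nd (nat_lit 5) 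
(.lf (nat_lit 77123) (.g (nat_lit 3835) (.e (nat_lit 1799) (nat_lit 119) (.e (nat_lit 516167) (nat_lit 12) (.e (nat_lit 450580) (nat_lit 5) (.e (nat_lit 532523) (nat_lit 7) (.e (nat_lit 319533) (nat_lit 16) (.e (nat_lit 286727) (nat_lit 0) .nil)))))) (.g (nat_lit 6) .nil .nil))) 
(.lf (nat_lit 77155) (.g (nat_lit 3384) (.e (nat_lit 1799) (nat_lit 119) (.e (nat_lit 516177) (nat_lit 14) (.e (nat_lit 466974) (nat_lit 22) (.e (nat_lit 196625) (nat_lit 9) (.e (nat_lit 1401) (nat_lit 106) (.e (nat_lit 319531) (nat_lit 16) (.e (nat_lit 286727) (nat_lit 0) .nil))))))) (.g (nat_lit 7) .nil .nil)))) (.nd (nat_lit 5) 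
(.lf (nat_lit 77139) (.g (nat_lit 1449) (.e (nat_lit 1799) (nat_lit 119) (.e (nat_lit 516176) (nat_lit 14) (.e (nat_lit 466977) (nat_lit 22) (.e (nat_lit 196626) (nat_lit 9) .nil)))) .nil)) 
(.lf (nat_lit 77171) (.g (nat_lit 2890) (.e (nat_lit 1799) (nat_lit 119) (.e (nat_lit 516185) (nat_lit 16) (.e (nat_lit 491560) (nat_lit 10) (.e (nat_lit 344117) (nat_lit 21) (.e (nat_lit 516106) (nat_lit 0) .nil))))) .nil)))) (.nd (nat_lit 4) (.nd (nat_lit 5) 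
(.lf (nat_lit 77131) (.g (nat_lit 1109) (.e (nat_lit 1799) (nat_lit 119) (.e (nat_lit 516174) (nat_lit 14) (.e (nat_lit 466981) (nat_lit 23) (.e (nat_lit 204846) (nat_lit 24) .nil)))) .nil)) 
(.lf (nat_lit 77163) (.g (nat_lit 1532) (.e (nat_lit 1799) (nat_lit 119) (.e (nat_lit 516177) (nat_lit 14) (.e (nat_lit 466979) (nat_lit 23) (.e (nat_lit 204846) (nat_lit 24) (.e (nat_lit 327424) (nat_lit 16) .nil))))) .nil))) (.nd (nat_lit 5) 
(.lf (nat_lit 77147) (.g (nat_lit 3044) (.e (nat_lit 1799) (nat_lit 119) (.e (nat_lit 516176) (nat_lit 14) (.e (nat_lit 466980) (nat_lit 23) (.e (nat_lit 204846) (nat_lit 24) (.e (nat_lit 319533) (nat_lit 16) (.e (nat_lit 286725) (nat_lit 0) .nil)))))) (.g (nat_lit 0) .nil .nil))) 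
(.lf (nat_lit 77179) (.g (nat_lit 1608) (.e (nat_lit 1799) (nat_lit 119) (.e (nat_lit 516195) (nat_lit 26) (.e (nat_lit 336011) (nat_lit 2) (.e (nat_lit 90157) (nat_lit 11) .nil)))) .nil))))) (.nd (nat_lit 3) (.nd (nat_lit 4) (.nd (nat_lit 5) 
(.lf (nat_lit 77127) (.g (nat_lit 3737) (.e (nat_lit 1799) (nat_lit 119) (.e (nat_lit 516174) (nat_lit 14) (.e (nat_lit 466980) (nat_lit 23) (.e (nat_lit 204846) (nat_lit 24) (.e (nat_lit 319530) (nat_lit 16) (.e (nat_lit 286727) (nat_lit 0) .nil)))))) (.g (nat_lit 0) .nil .nil))) 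
(.lf (nat_lit 77159) (.g (nat_lit 3749) (.e (nat_lit 1799) (nat_lit 119) (.e (nat_lit 516177) (nat_lit 14) (.e (nat_lit 466977) (nat_lit 22) (.e (nat_lit 196630) (nat_lit 9) (.e (nat_lit 1401) (nat_lit 106) (.e (nat_lit 319531) (nat_lit 16) (.e (nat_lit 286727) (nat_lit 0) .nil))))))) (.g (nat_lit 7) .nil .nil)))) (.nd (nat_lit 5) 
(.lf (nat_lit 77143) (.g (nat_lit 351) (.e (nat_lit 1799) (nat_lit 119) (.e (nat_lit 516176) (nat_lit 14) (.e (nat_lit 466980) (nat_lit 23) .nil))) .nil)) 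
(.lf (nat_lit 77175) (.g (nat_lit 4321) (.e (nat_lit 1799) (nat_lit 119) (.e (nat_lit 516185) (nat_lit 16) (.e (nat_lit 491563) (nat_lit 12) (.e (nat_lit 385074) (nat_lit 31) (.e (nat_lit 573493) (nat_lit 15) .nil))))) .nil)))) (.nd (nat_lit 4) (.nd (nat_lit 5) 
(.lf (nat_lit 77135) (.g (nat_lit 3191) (.e (nat_lit 1799) (nat_lit 119) (.e (nat_lit 516175) (nat_lit 14) (.e (nat_lit 466981) (nat_lit 23) (.e (nat_lit 204845) (nat_lit 24) (.e (nat_lit 319531) (nat_lit 16) (.e (nat_lit 286727) (nat_lit 0) .nil)))))) (.g (nat_lit 0) .nil .nil))) 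
(.lf (nat_lit 77167) (.g (nat_lit 2505) (.e (nat_lit 1799) (nat_lit 119) (.e (nat_lit 516179) (nat_lit 15) (.e (nat_lit 475177) (nat_lit 24) (.e (nat_lit 516150) (nat_lit 9) (.e (nat_lit 426438) (nat_lit 18) (.e (nat_lit 98358) (nat_lit 26) (.e (nat_lit 426364) (nat_lit 15) .nil))))))) (.g (nat_lit 4) .nil .nil)))) (.nd (nat_lit 5) 
(.lf (nat_lit 77151) (.g (nat_lit 2133) (.e (nat_lit 1799) (nat_lit 119) (.e (nat_lit 516176) (nat_lit 14) (.e (nat_lit 466981) (nat_lit 23) (.e (nat_lit 204846) (nat_lit 24) (.e (nat_lit 319529) (nat_lit 16) .nil))))) .nil)) 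
(.lf (nat_lit 77183) (.g (nat_lit 2689) (.e (nat_lit 1799) (nat_lit 119) (.e (nat_lit 516195) (nat_lit 26) (.e (nat_lit 336021) (nat_lit 3) (.e (nat_lit 98313) (nat_lit 9) (.e (nat_lit 336027) (nat_lit 3) (.e (nat_lit 98317) (nat_lit 9) (.e (nat_lit 335917) (nat_lit 0) .nil))))))) (.g (nat_lit 5) .nil .nil)))))))))

noncomputable def tv1043 : DT := (.nd (nat_lit 0) (.nd (nat_lit 1) (.nd (nat_lit 2) (.nd (nat_lit 3) (.nd (nat_lit 4) (.nd (nat_lit 5) 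
(.lf (nat_lit 77184) (.g (nat_lit 939) (.e (nat_lit 1799) (nat_lit 119) (.e (nat_lit 516195) (nat_lit 26) (.e (nat_lit 336021) (nat_lit 3) (.e (nat_lit 98317) (nat_lit 9) .nil)))) .nil)) 
(.lf (nat_lit 77216) (.g (nat_lit 2872) (.e (nat_lit 1800) (nat_lit 119) (.e (nat_lit 516115) (nat_lit 1) (.e (nat_lit 164398) (nat_lit 256) (.e (nat_lit 57372) (nat_lit 2) (.e (nat_lit 90172) (nat_lit 14) (.e (nat_lit 180243) (nat_lit 5) (.e (nat_lit 532513) (nat_lit 3) (.e (nat_lit 114707) (nat_lit 20) .nil)))))))) (.g (nat_lit 4) .nil .nil)))) (.nd (nat_lit 5) 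
(.lf (nat_lit 77200) (.g (nat_lit 3159) (.e (nat_lit 1800) (nat_lit 119) (.e (nat_lit 516102) (nat_lit 0) (.e (nat_lit 6989) (nat_lit 377) (.e (nat_lit 2777) (nat_lit 178) (.e (nat_lit 286733) (nat_lit 2) (.e (nat_lit 90165) (nat_lit 12) (.e (nat_lit 171776) (nat_lit 194) (.e (nat_lit 131084) (nat_lit 0) .nil)))))))) (.g (nat_lit 4) .nil .nil))) 
(.lf (nat_lit 77232) (.g (nat_lit 4651) (.e (nat_lit 1800) (nat_lit 119) (.e (nat_lit 516115) (nat_lit 1) (.e (nat_lit 164398) (nat_lit 256) (.e (nat_lit 57373) (nat_lit 2) (.e (nat_lit 90174) (nat_lit 14) (.e (nat_lit 180243) (nat_lit 5) (.e (nat_lit 532513) (nat_lit 3) (.e (nat_lit 114708) (nat_lit 20) .nil)))))))) (.g (nat_lit 7) .nil .nil))))) (.nd (nat_lit 4) (.nd (nat_lit 5) 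
(.lf (nat_lit 77192) (.g (nat_lit 3075) (.e (nat_lit 1799) (nat_lit 119) (.e (nat_lit 516195) (nat_lit 26) (.e (nat_lit 336076) (nat_lit 9) (.e (nat_lit 336454) (nat_lit 34) (.e (nat_lit 483365) (nat_lit 18) (.e (nat_lit 57851) (nat_lit 252) (.e (nat_lit 57354) (nat_lit 0) .nil))))))) (.g (nat_lit 6) .nil .nil))) 
(.lf (nat_lit 77224) (.g (nat_lit 2930) (.e (nat_lit 1800) (nat_lit 119) (.e (nat_lit 516115) (nat_lit 1) (.e (nat_lit 164398) (nat_lit 256) (.e (nat_lit 57373) (nat_lit 2) (.e (nat_lit 90170) (nat_lit 13) (.e (nat_lit 172065) (nat_lit 3) (.e (nat_lit 204838) (nat_lit 20) (.e (nat_lit 114708) (nat_lit 20) .nil)))))))) (.g (nat_lit 5) .nil .nil)))) (.nd (nat_lit 5) 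
(.lf (nat_lit 77208) (.g (nat_lit 4350) (.e (nat_lit 1800) (nat_lit 119) (.e (nat_lit 516115) (nat_lit 1) (.e (nat_lit 164325) (nat_lit 230) (.e (nat_lit 163851) (nat_lit 0) (.e (nat_lit 3307) (nat_lit 202) (.e (nat_lit 573489) (nat_lit 14) (.e (nat_lit 73755) (nat_lit 8) (.e (nat_lit 557096) (nat_lit 13) (.e (nat_lit 172133) (nat_lit 15) .nil))))))))) (.g (nat_lit 6) .nil .nil))) 
(.lf (nat_lit 77240) (.g (nat_lit 3161) (.e (nat_lit 1800) (nat_lit 119) (.e (nat_lit 516115) (nat_lit 1) (.e (nat_lit 164398) (nat_lit 256) (.e (nat_lit 57375) (nat_lit 2) (.e (nat_lit 90174) (nat_lit 14) (.e (nat_lit 180243) (nat_lit 5) (.e (nat_lit 532513) (nat_lit 3) (.e (nat_lit 114708) (nat_lit 20) .nil)))))))) (.g (nat_lit 6) .nil .nil)))))) 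
(.nd (nat_lit 3) (.nd (nat_lit 4) (.nd (nat_lit 5) 
(.lf (nat_lit 77188) (.g (nat_lit 873) (.e (nat_lit 1799) (nat_lit 119) (.e (nat_lit 516195) (nat_lit 26) (.e (nat_lit 336027) (nat_lit 3) (.e (nat_lit 98317) (nat_lit 9) .nil)))) .nil)) 
(.lf (nat_lit 77220) (.g (nat_lit 2434) (.e (nat_lit 1800) (nat_lit 119) (.e (nat_lit 516115) (nat_lit 1) (.e (nat_lit 164398) (nat_lit 256) (.e (nat_lit 57372) (nat_lit 2) (.e (nat_lit 90172) (nat_lit 14) (.e (nat_lit 180244) (nat_lit 5) (.e (nat_lit 532514) (nat_lit 3) (.e (nat_lit 114708) (nat_lit 20) .nil)))))))) (.g (nat_lit 4) .nil .nil)))) (.nd (nat_lit 5) 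
(.lf (nat_lit 77204) (.g (nat_lit 2082) (.e (nat_lit 1800) (nat_lit 119) (.e (nat_lit 516115) (nat_lit 1) (.e (nat_lit 164325) (nat_lit 230) (.e (nat_lit 163850) (nat_lit 0) .nil)))) .nil)) 
(.lf (nat_lit 77236) (.g (nat_lit 2506) (.e (nat_lit 1800) (nat_lit 119) (.e (nat_lit 516115) (nat_lit 1) (.e (nat_lit 164398) (nat_lit 256) (.e (nat_lit 57375) (nat_lit 2) (.e (nat_lit 90172) (nat_lit 14) (.e (nat_lit 180244) (nat_lit 5) (.e (nat_lit 532513) (nat_lit 3) (.e (nat_lit 114707) (nat_lit 20) .nil)))))))) (.g (nat_lit 4) .nil .nil))))) (.nd (nat_lit 4) (.nd (nat_lit 5) 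
(.lf (nat_lit 77196) (.g (nat_lit 1879) (.e (nat_lit 1799) (nat_lit 119) (.e (nat_lit 516195) (nat_lit 26) (.e (nat_lit 336223) (nat_lit 13) (.e (nat_lit 393225) (nat_lit 9) (.e (nat_lit 335995) (nat_lit 1) .nil))))) .nil)) 
(.lf (nat_lit 77228) (.g (nat_lit 3902) (.e (nat_lit 1800) (nat_lit 119) (.e (nat_lit 516115) (nat_lit 1) (.e (nat_lit 164398) (nat_lit 256) (.e (nat_lit 57373) (nat_lit 2) (.e (nat_lit 90172) (nat_lit 14) (.e (nat_lit 180244) (nat_lit 5) (.e (nat_lit 532513) (nat_lit 3) (.e (nat_lit 114708) (nat_lit 20) .nil)))))))) (.g (nat_lit 6) .nil .nil)))) (.nd (nat_lit 5) 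
(.lf (nat_lit 77212) (.g (nat_lit 2388) (.e (nat_lit 1800) (nat_lit 119) (.e (nat_lit 516115) (nat_lit 1) (.e (nat_lit 164398) (nat_lit 256) (.e (nat_lit 57371) (nat_lit 2) (.e (nat_lit 90172) (nat_lit 14) (.e (nat_lit 180244) (nat_lit 5) (.e (nat_lit 532513) (nat_lit 3) (.e (nat_lit 114708) (nat_lit 20) .nil)))))))) (.g (nat_lit 4) .nil .nil))) 
(.lf (nat_lit 77244) (.g (nat_lit 2700) (.e (nat_lit 1800) (nat_lit 119) (.e (nat_lit 516115) (nat_lit 1) (.e (nat_lit 164398) (nat_lit 256) (.e (nat_lit 57378) (nat_lit 3) (.e (nat_lit 98358) (nat_lit 26) (.e (nat_lit 426131) (nat_lit 3) (.e (nat_lit 204837) (nat_lit 20) (.e (nat_lit 114708) (nat_lit 20) .nil)))))))) (.g (nat_lit 4) .nil .nil))))))) 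
(.nd (nat_lit 2) (.nd (nat_lit 3) (.nd (nat_lit 4) (.nd (nat_lit 5) 
(.lf (nat_lit 77186) (.g (nat_lit 2019) (.e (nat_lit 1799) (nat_lit 119) (.e (nat_lit 516195) (nat_lit 26) (.e (nat_lit 336021) (nat_lit 3) (.e (nat_lit 98317) (nat_lit 9) (.e (nat_lit 336027) (nat_lit 3) (.e (nat_lit 98316) (nat_lit 9) (.e (nat_lit 335917) (nat_lit 0) .nil))))))) (.g (nat_lit 4) .nil .nil))) 
(.lf (nat_lit 77218) (.g (nat_lit 2959) (.e (nat_lit 1800) (nat_lit 119) (.e (nat_lit 516115) (nat_lit 1) (.e (nat_lit 164398) (nat_lit 256) (.e (nat_lit 57372) (nat_lit 2) (.e (nat_lit 90172) (nat_lit 14) (.e (nat_lit 180244) (nat_lit 5) (.e (nat_lit 532513) (nat_lit 3) (.e (nat_lit 114707) (nat_lit 20) .nil)))))))) (.g (nat_lit 4) .nil .nil)))) (.nd (nat_lit 5) 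
(.lf (nat_lit 77202) (.g (nat_lit 3412) (.e (nat_lit 1800) (nat_lit 119) (.e (nat_lit 516115) (nat_lit 1) (.e (nat_lit 164325) (nat_lit 230) (.e (nat_lit 163841) (nat_lit 0) (.e (nat_lit 3309) (nat_lit 202) (.e (nat_lit 573489) (nat_lit 14) (.e (nat_lit 73755) (nat_lit 8) (.e (nat_lit 557096) (nat_lit 13) (.e (nat_lit 172133) (nat_lit 15) .nil))))))))) (.g (nat_lit 5) .nil .nil))) 
(.lf (nat_lit 77234) (.g (nat_lit 3498) (.e (nat_lit 1800) (nat_lit 119) (.e (nat_lit 516115) (nat_lit 1) (.e (nat_lit 164398) (nat_lit 256) (.e (nat_lit 57373) (nat_lit 2) (.e (nat_lit 90174) (nat_lit 14) (.e (nat_lit 180243) (nat_lit 5) (.e (nat_lit 532515) (nat_lit 3) (.e (nat_lit 114708) (nat_lit 20) .nil)))))))) (.g (nat_lit 6) .nil .nil))))) (.nd (nat_lit 4) (.nd (nat_lit 5) 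
(.lf (nat_lit 77194) (.g (nat_lit 1108) (.e (nat_lit 1799) (nat_lit 119) (.e (nat_lit 516195) (nat_lit 26) (.e (nat_lit 336213) (nat_lit 13) (.e (nat_lit 393229) (nat_lit 9) .nil)))) .nil)) 
(.lf (nat_lit 77226) (.g (nat_lit 3319) (.e (nat_lit 1800) (nat_lit 119) (.e (nat_lit 516115) (nat_lit 1) (.e (nat_lit 164398) (nat_lit 256) (.e (nat_lit 57373) (nat_lit 2) (.e (nat_lit 90170) (nat_lit 13) (.e (nat_lit 172067) (nat_lit 3) (.e (nat_lit 204838) (nat_lit 20) (.e (nat_lit 114708) (nat_lit 20) .nil)))))))) (.g (nat_lit 5) .nil .nil)))) (.nd (nat_lit 5) 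
(.lf (nat_lit 77210) (.g (nat_lit 3675) (.e (nat_lit 1800) (nat_lit 119) (.e (nat_lit 516115) (nat_lit 1) (.e (nat_lit 164325) (nat_lit 230) (.e (nat_lit 163851) (nat_lit 0) (.e (nat_lit 3307) (nat_lit 202) (.e (nat_lit 573489) (nat_lit 14) (.e (nat_lit 73755) (nat_lit 8) (.e (nat_lit 557098) (nat_lit 13) (.e (nat_lit 172136) (nat_lit 15) .nil))))))))) (.g (nat_lit 5) .nil .nil))) 
(.lf (nat_lit 77242) (.g (nat_lit 2641) (.e (nat_lit 1800) (nat_lit 119) (.e (nat_lit 516115) (nat_lit 1) (.e (nat_lit 164398) (nat_lit 256) (.e (nat_lit 57378) (nat_lit 3) (.e (nat_lit 98355) (nat_lit 26) (.e (nat_lit 426131) (nat_lit 3) (.e (nat_lit 204838) (nat_lit 20) (.e (nat_lit 114708) (nat_lit 20) .nil)))))))) (.g (nat_lit 4) .nil .nil)))))) 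
(.nd (nat_lit 3) (.nd (nat_lit 4) (.nd (nat_lit 5) 
(.lf (nat_lit 77190) (.g (nat_lit 2051) (.e (nat_lit 1799) (nat_lit 119) (.e (nat_lit 516195) (nat_lit 26) (.e (nat_lit 336027) (nat_lit 3) (.e (nat_lit 98317) (nat_lit 9) (.e (nat_lit 336027) (nat_lit 3) (.e (nat_lit 98317) (nat_lit 9) (.e (nat_lit 335917) (nat_lit 0) .nil))))))) (.g (nat_lit 5) .nil .nil))) 
(.lf (nat_lit 77222) (.g (nat_lit 2895) (.e (nat_lit 1800) (nat_lit 119) (.e (nat_lit 516115) (nat_lit 1) (.e (nat_lit 164398) (nat_lit 256) (.e (nat_lit 57372) (nat_lit 2) (.e (nat_lit 90174) (nat_lit 14) (.e (nat_lit 180243) (nat_lit 5) (.e (nat_lit 532513) (nat_lit 3) (.e (nat_lit 114707) (nat_lit 20) .nil)))))))) (.g (nat_lit 4) .nil .nil)))) (.nd (nat_lit 5) 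
(.lf (nat_lit 77206) (.g (nat_lit 3066) (.e (nat_lit 1800) (nat_lit 119) (.e (nat_lit 516115) (nat_lit 1) (.e (nat_lit 164325) (nat_lit 230) (.e (nat_lit 163850) (nat_lit 0) (.e (nat_lit 3304) (nat_lit 202) (.e (nat_lit 573489) (nat_lit 14) (.e (nat_lit 73755) (nat_lit 8) (.e (nat_lit 557097) (nat_lit 13) (.e (nat_lit 172133) (nat_lit 15) .nil))))))))) (.g (nat_lit 4) .nil .nil))) 
(.lf (nat_lit 77238) (.g (nat_lit 2475) (.e (nat_lit 1800) (nat_lit 119) (.e (nat_lit 516115) (nat_lit 1) (.e (nat_lit 164398) (nat_lit 256) (.e (nat_lit 57375) (nat_lit 2) (.e (nat_lit 90172) (nat_lit 14) (.e (nat_lit 180244) (nat_lit 5) (.e (nat_lit 532515) (nat_lit 3) (.e (nat_lit 114708) (nat_lit 20) .nil)))))))) (.g (nat_lit 4) .nil .nil))))) (.nd (nat_lit 4) (.nd (nat_lit 5) 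
(.lf (nat_lit 77198) (.g (nat_lit 1306) (.e (nat_lit 1799) (nat_lit 119) (.e (nat_lit 516195) (nat_lit 26) (.e (nat_lit 336223) (nat_lit 13) (.e (nat_lit 393229) (nat_lit 9) .nil)))) .nil)) 
(.lf (nat_lit 77230) (.g (nat_lit 3024) (.e (nat_lit 1800) (nat_lit 119) (.e (nat_lit 516115) (nat_lit 1) (.e (nat_lit 164398) (nat_lit 256) (.e (nat_lit 57373) (nat_lit 2) (.e (nat_lit 90172) (nat_lit 14) (.e (nat_lit 180244) (nat_lit 5) (.e (nat_lit 532515) (nat_lit 3) (.e (nat_lit 114708) (nat_lit 20) .nil)))))))) (.g (nat_lit 5) .nil .nil)))) (.nd (nat_lit 5) 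
(.lf (nat_lit 77214) (.g (nat_lit 3288) (.e (nat_lit 1800) (nat_lit 119) (.e (nat_lit 516115) (nat_lit 1) (.e (nat_lit 164398) (nat_lit 256) (.e (nat_lit 57372) (nat_lit 2) (.e (nat_lit 90167) (nat_lit 13) (.e (nat_lit 172067) (nat_lit 3) (.e (nat_lit 204837) (nat_lit 20) (.e (nat_lit 114708) (nat_lit 20) .nil)))))))) (.g (nat_lit 5) .nil .nil))) 
(.lf (nat_lit 77246) (.g (nat_lit 3990) (.e (nat_lit 1800) (nat_lit 119) (.e (nat_lit 516115) (nat_lit 1) (.e (nat_lit 164398) (nat_lit 256) (.e (nat_lit 57378) (nat_lit 3) (.e (nat_lit 98366) (nat_lit 27) (.e (nat_lit 434231) (nat_lit 23) (.e (nat_lit 532514) (nat_lit 3) (.e (nat_lit 114708) (nat_lit 20) .nil)))))))) (.g (nat_lit 6) .nil .nil)))))))) 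
(.nd (nat_lit 1) (.nd (nat_lit 2) (.nd (nat_lit 3) (.nd (nat_lit 4) (.nd (nat_lit 5) 
(.lf (nat_lit 77185) (.g (nat_lit 1791) (.e (nat_lit 1799) (nat_lit 119) (.e (nat_lit 516195) (nat_lit 26) (.e (nat_lit 336021) (nat_lit 3) (.e (nat_lit 98317) (nat_lit 9) (.e (nat_lit 336026) (nat_lit 3) (.e (nat_lit 98317) (nat_lit 9) (.e (nat_lit 335917) (nat_lit 0) .nil))))))) (.g (nat_lit 4) .nil .nil))) 
(.lf (nat_lit 77217) (.g (nat_lit 3624) (.e (nat_lit 1800) (nat_lit 119) (.e (nat_lit 516115) (nat_lit 1) (.e (nat_lit 164398) (nat_lit 256) (.e (nat_lit 57372) (nat_lit 2) (.e (nat_lit 90172) (nat_lit 14) (.e (nat_lit 180243) (nat_lit 5) (.e (nat_lit 532513) (nat_lit 3) (.e (nat_lit 114708) (nat_lit 20) .nil)))))))) (.g (nat_lit 5) .nil .nil)))) (.nd (nat_lit 5) 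
(.lf (nat_lit 77201) (.g (nat_lit 483) (.e (nat_lit 1800) (nat_lit 119) (.e (nat_lit 516115) (nat_lit 1) (.e (nat_lit 164179) (nat_lit 154) .nil))) .nil)) 
(.lf (nat_lit 77233) (.g (nat_lit 2654) (.e (nat_lit 1800) (nat_lit 119) (.e (nat_lit 516115) (nat_lit 1) (.e (nat_lit 164398) (nat_lit 256) (.e (nat_lit 57373) (nat_lit 2) (.e (nat_lit 90174) (nat_lit 14) (.e (nat_lit 180243) (nat_lit 5) (.e (nat_lit 532515) (nat_lit 3) (.e (nat_lit 114707) (nat_lit 20) .nil)))))))) (.g (nat_lit 4) .nil .nil))))) (.nd (nat_lit 4) (.nd (nat_lit 5) 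
(.lf (nat_lit 77193) (.g (nat_lit 2093) (.e (nat_lit 1799) (nat_lit 119) (.e (nat_lit 516195) (nat_lit 26) (.e (nat_lit 336088) (nat_lit 9) (.e (nat_lit 336456) (nat_lit 34) (.e (nat_lit 483365) (nat_lit 18) (.e (nat_lit 57851) (nat_lit 252) (.e (nat_lit 57354) (nat_lit 0) .nil))))))) (.g (nat_lit 4) .nil .nil))) 
(.lf (nat_lit 77225) (.g (nat_lit 3545) (.e (nat_lit 1800) (nat_lit 119) (.e (nat_lit 516115) (nat_lit 1) (.e (nat_lit 164398) (nat_lit 256) (.e (nat_lit 57373) (nat_lit 2) (.e (nat_lit 90170) (nat_lit 13) (.e (nat_lit 172067) (nat_lit 3) (.e (nat_lit 204837) (nat_lit 20) (.e (nat_lit 114708) (nat_lit 20) .nil)))))))) (.g (nat_lit 5) .nil .nil)))) (.nd (nat_lit 5) 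
(.lf (nat_lit 77209) (.g (nat_lit 3200) (.e (nat_lit 1800) (nat_lit 119) (.e (nat_lit 516115) (nat_lit 1) (.e (nat_lit 164325) (nat_lit 230) (.e (nat_lit 163851) (nat_lit 0) (.e (nat_lit 3307) (nat_lit 202) (.e (nat_lit 573489) (nat_lit 14) (.e (nat_lit 73755) (nat_lit 8) (.e (nat_lit 557098) (nat_lit 13) (.e (nat_lit 172131) (nat_lit 15) .nil))))))))) (.g (nat_lit 4) .nil .nil))) 
(.lf (nat_lit 77241) (.g (nat_lit 2495) (.e (nat_lit 1800) (nat_lit 119) (.e (nat_lit 516115) (nat_lit 1) (.e (nat_lit 164398) (nat_lit 256) (.e (nat_lit 57377) (nat_lit 3) (.e (nat_lit 98357) (nat_lit 26) .nil))))) .nil))))) (.nd (nat_lit 3) (.nd (nat_lit 4) (.nd (nat_lit 5) 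
(.lf (nat_lit 77189) (.g (nat_lit 1515) (.e (nat_lit 1799) (nat_lit 119) (.e (nat_lit 516195) (nat_lit 26) (.e (nat_lit 336027) (nat_lit 3) (.e (nat_lit 98317) (nat_lit 9) (.e (nat_lit 336026) (nat_lit 3) (.e (nat_lit 98317) (nat_lit 9) (.e (nat_lit 335917) (nat_lit 0) .nil))))))) (.g (nat_lit 4) .nil .nil))) 
(.lf (nat_lit 77221) (.g (nat_lit 2964) (.e (nat_lit 1800) (nat_lit 119) (.e (nat_lit 516115) (nat_lit 1) (.e (nat_lit 164398) (nat_lit 256) (.e (nat_lit 57372) (nat_lit 2) (.e (nat_lit 90172) (nat_lit 14) (.e (nat_lit 180244) (nat_lit 5) (.e (nat_lit 532515) (nat_lit 3) (.e (nat_lit 114708) (nat_lit 20) .nil)))))))) (.g (nat_lit 4) .nil .nil)))) (.nd (nat_lit 5) 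
(.lf (nat_lit 77205) (.g (nat_lit 2746) (.e (nat_lit 1800) (nat_lit 119) (.e (nat_lit 516115) (nat_lit 1) (.e (nat_lit 164325) (nat_lit 230) (.e (nat_lit 163850) (nat_lit 0) (.e (nat_lit 3252) (nat_lit 197) .nil))))) .nil)) 
(.lf (nat_lit 77237) (.g (nat_lit 3393) (.e (nat_lit 1800) (nat_lit 119) (.e (nat_lit 516115) (nat_lit 1) (.e (nat_lit 164398) (nat_lit 256) (.e (nat_lit 57375) (nat_lit 2) (.e (nat_lit 90172) (nat_lit 14) (.e (nat_lit 180244) (nat_lit 5) (.e (nat_lit 532513) (nat_lit 3) (.e (nat_lit 114708) (nat_lit 20) .nil)))))))) (.g (nat_lit 5) .nil .nil))))) (.nd (nat_lit 4) (.nd (nat_lit 5) 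
(.lf (nat_lit 77197) (.g (nat_lit 2814) (.e (nat_lit 1799) (nat_lit 119) (.e (nat_lit 516195) (nat_lit 26) (.e (nat_lit 336223) (nat_lit 13) (.e (nat_lit 393228) (nat_lit 9) (.e (nat_lit 335996) (nat_lit 1) (.e (nat_lit 57851) (nat_lit 252) (.e (nat_lit 57354) (nat_lit 0) .nil))))))) (.g (nat_lit 4) .nil .nil))) 
(.lf (nat_lit 77229) (.g (nat_lit 2406) (.e (nat_lit 1800) (nat_lit 119) (.e (nat_lit 516115) (nat_lit 1) (.e (nat_lit 164398) (nat_lit 256) (.e (nat_lit 57373) (nat_lit 2) (.e (nat_lit 90172) (nat_lit 14) (.e (nat_lit 180244) (nat_lit 5) (.e (nat_lit 532514) (nat_lit 3) (.e (nat_lit 114708) (nat_lit 20) .nil)))))))) (.g (nat_lit 4) .nil .nil)))) (.nd (nat_lit 5) 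
(.lf (nat_lit 77213) (.g (nat_lit 2728) (.e (nat_lit 1800) (nat_lit 119) (.e (nat_lit 516115) (nat_lit 1) (.e (nat_lit 164398) (nat_lit 256) (.e (nat_lit 57371) (nat_lit 2) (.e (nat_lit 90174) (nat_lit 14) (.e (nat_lit 180243) (nat_lit 5) (.e (nat_lit 532513) (nat_lit 3) (.e (nat_lit 114708) (nat_lit 20) .nil)))))))) (.g (nat_lit 4) .nil .nil))) 
(.lf (nat_lit 77245) (.g (nat_lit 2996) (.e (nat_lit 1800) (nat_lit 119) (.e (nat_lit 516115) (nat_lit 1) (.e (nat_lit 164398) (nat_lit 256) (.e (nat_lit 57378) (nat_lit 3) (.e (nat_lit 98358) (nat_lit 26) (.e (nat_lit 426131) (nat_lit 3) (.e (nat_lit 204838) (nat_lit 20) (.e (nat_lit 114708) (nat_lit 20) .nil)))))))) (.g (nat_lit 5) .nil .nil))))))) 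
(.nd (nat_lit 2) (.nd (nat_lit 3) (.nd (nat_lit 4) (.nd (nat_lit 5) 
(.lf (nat_lit 77187) (.g (nat_lit 1800) (.e (nat_lit 1799) (nat_lit 119) (.e (nat_lit 516195) (nat_lit 26) (.e (nat_lit 336027) (nat_lit 3) (.e (nat_lit 98313) (nat_lit 9) (.e (nat_lit 336027) (nat_lit 3) .nil))))) .nil)) 
(.lf (nat_lit 77219) (.g (nat_lit 3846) (.e (nat_lit 1800) (nat_lit 119) (.e (nat_lit 516115) (nat_lit 1) (.e (nat_lit 164398) (nat_lit 256) (.e (nat_lit 57372) (nat_lit 2) (.e (nat_lit 90172) (nat_lit 14) (.e (nat_lit 180244) (nat_lit 5) (.e (nat_lit 532513) (nat_lit 3) (.e (nat_lit 114708) (nat_lit 20) .nil)))))))) (.g (nat_lit 6) .nil .nil)))) (.nd (nat_lit 5) 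
(.lf (nat_lit 77203) (.g (nat_lit 3140) (.e (nat_lit 1800) (nat_lit 119) (.e (nat_lit 516115) (nat_lit 1) (.e (nat_lit 164325) (nat_lit 230) (.e (nat_lit 163841) (nat_lit 0) (.e (nat_lit 3309) (nat_lit 202) (.e (nat_lit 573489) (nat_lit 14) (.e (nat_lit 73755) (nat_lit 8) (.e (nat_lit 557098) (nat_lit 13) (.e (nat_lit 172136) (nat_lit 15) .nil))))))))) (.g (nat_lit 4) .nil .nil))) 
(.lf (nat_lit 77235) (.g (nat_lit 2655) (.e (nat_lit 1800) (nat_lit 119) (.e (nat_lit 516115) (nat_lit 1) (.e (nat_lit 164398) (nat_lit 256) (.e (nat_lit 57375) (nat_lit 2) (.e (nat_lit 90172) (nat_lit 14) (.e (nat_lit 180243) (nat_lit 5) (.e (nat_lit 532513) (nat_lit 3) (.e (nat_lit 114708) (nat_lit 20) .nil)))))))) (.g (nat_lit 4) .nil .nil))))) (.nd (nat_lit 4) (.nd (nat_lit 5) 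
(.lf (nat_lit 77195) (.g (nat_lit 3997) (.e (nat_lit 1799) (nat_lit 119) (.e (nat_lit 516195) (nat_lit 26) (.e (nat_lit 336223) (nat_lit 13) (.e (nat_lit 393224) (nat_lit 9) (.e (nat_lit 335996) (nat_lit 1) (.e (nat_lit 57851) (nat_lit 252) (.e (nat_lit 57354) (nat_lit 0) .nil))))))) (.g (nat_lit 6) .nil .nil))) 
(.lf (nat_lit 77227) (.g (nat_lit 3015) (.e (nat_lit 1800) (nat_lit 119) (.e (nat_lit 516115) (nat_lit 1) (.e (nat_lit 164398) (nat_lit 256) (.e (nat_lit 57373) (nat_lit 2) (.e (nat_lit 90172) (nat_lit 14) (.e (nat_lit 180244) (nat_lit 5) (.e (nat_lit 532513) (nat_lit 3) (.e (nat_lit 114707) (nat_lit 20) .nil)))))))) (.g (nat_lit 4) .nil .nil)))) (.nd (nat_lit 5) 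
(.lf (nat_lit 77211) (.g (nat_lit 2059) (.e (nat_lit 1800) (nat_lit 119) (.e (nat_lit 516115) (nat_lit 1) (.e (nat_lit 164397) (nat_lit 256) (.e (nat_lit 57375) (nat_lit 2) (.e (nat_lit 90172) (nat_lit 14) (.e (nat_lit 180244) (nat_lit 5) (.e (nat_lit 532513) (nat_lit 3) (.e (nat_lit 114708) (nat_lit 20) .nil)))))))) (.g (nat_lit 4) .nil .nil))) 
(.lf (nat_lit 77243) (.g (nat_lit 3190) (.e (nat_lit 1800) (nat_lit 119) (.e (nat_lit 516115) (nat_lit 1) (.e (nat_lit 164398) (nat_lit 256) (.e (nat_lit 57378) (nat_lit 3) (.e (nat_lit 98356) (nat_lit 26) (.e (nat_lit 426131) (nat_lit 3) (.e (nat_lit 204837) (nat_lit 20) (.e (nat_lit 114708) (nat_lit 20) .nil)))))))) (.g (nat_lit 4) .nil .nil)))))) 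
(.nd (nat_lit 3) (.nd (nat_lit 4) (.nd (nat_lit 5) 
(.lf (nat_lit 77191) (.g (nat_lit 1762) (.e (nat_lit 1799) (nat_lit 119) (.e (nat_lit 516195) (nat_lit 26) (.e (nat_lit 336027) (nat_lit 3) (.e (nat_lit 98337) (nat_lit 19) .nil)))) .nil)) 
(.lf (nat_lit 77223) (.g (nat_lit 3481) (.e (nat_lit 1800) (nat_lit 119) (.e (nat_lit 516115) (nat_lit 1) (.e (nat_lit 164398) (nat_lit 256) (.e (nat_lit 57372) (nat_lit 2) (.e (nat_lit 90174) (nat_lit 14) (.e (nat_lit 180243) (nat_lit 5) (.e (nat_lit 532513) (nat_lit 3) (.e (nat_lit 114708) (nat_lit 20) .nil)))))))) (.g (nat_lit 5) .nil .nil)))) (.nd (nat_lit 5) 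
(.lf (nat_lit 77207) (.g (nat_lit 3010) (.e (nat_lit 1800) (nat_lit 119) (.e (nat_lit 516115) (nat_lit 1) (.e (nat_lit 164325) (nat_lit 230) (.e (nat_lit 163850) (nat_lit 0) (.e (nat_lit 3304) (nat_lit 202) (.e (nat_lit 573489) (nat_lit 14) (.e (nat_lit 73755) (nat_lit 8) (.e (nat_lit 557098) (nat_lit 13) (.e (nat_lit 172133) (nat_lit 15) .nil))))))))) (.g (nat_lit 4) .nil .nil))) 
(.lf (nat_lit 77239) (.g (nat_lit 2575) (.e (nat_lit 1800) (nat_lit 119) (.e (nat_lit 516115) (nat_lit 1) (.e (nat_lit 164398) (nat_lit 256) (.e (nat_lit 57375) (nat_lit 2) (.e (nat_lit 90174) (nat_lit 14) (.e (nat_lit 180243) (nat_lit 5) (.e (nat_lit 532513) (nat_lit 3) (.e (nat_lit 114707) (nat_lit 20) .nil)))))))) (.g (nat_lit 4) .nil .nil))))) (.nd (nat_lit 4) (.nd (nat_lit 5) 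
(.lf (nat_lit 77199) (.g (nat_lit 3027) (.e (nat_lit 1799) (nat_lit 119) (.e (nat_lit 516199) (nat_lit 26) (.e (nat_lit 336213) (nat_lit 13) (.e (nat_lit 393225) (nat_lit 9) (.e (nat_lit 335996) (nat_lit 1) .nil))))) .nil)) 
(.lf (nat_lit 77231) (.g (nat_lit 4065) (.e (nat_lit 1800) (nat_lit 119) (.e (nat_lit 516115) (nat_lit 1) (.e (nat_lit 164398) (nat_lit 256) (.e (nat_lit 57373) (nat_lit 2) (.e (nat_lit 90174) (nat_lit 14) (.e (nat_lit 180243) (nat_lit 5) (.e (nat_lit 532513) (nat_lit 3) (.e (nat_lit 114707) (nat_lit 20) .nil)))))))) (.g (nat_lit 6) .nil .nil)))) (.nd (nat_lit 5) 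
(.lf (nat_lit 77215) (.g (nat_lit 3015) (.e (nat_lit 1800) (nat_lit 119) (.e (nat_lit 516115) (nat_lit 1) (.e (nat_lit 164398) (nat_lit 256) (.e (nat_lit 57372) (nat_lit 2) (.e (nat_lit 90167) (nat_lit 13) (.e (nat_lit 172067) (nat_lit 3) (.e (nat_lit 204838) (nat_lit 20) (.e (nat_lit 114708) (nat_lit 20) .nil)))))))) (.g (nat_lit 4) .nil .nil))) 
(.lf (nat_lit 77247) (.g (nat_lit 3875) (.e (nat_lit 1800) (nat_lit 119) (.e (nat_lit 516115) (nat_lit 1) (.e (nat_lit 164398) (nat_lit 256) (.e (nat_lit 57378) (nat_lit 3) (.e (nat_lit 98367) (nat_lit 27) (.e (nat_lit 434231) (nat_lit 23) (.e (nat_lit 532514) (nat_lit 3) (.e (nat_lit 114708) (nat_lit 20) .nil)))))))) (.g (nat_lit 6) .nil .nil)))))))))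

noncomputable def tv1044 : DT := (.nd (nat_lit 0) (.nd (nat_lit 1) (.nd (nat_lit 2) (.nd (nat_lit 3) (.nd (nat_lit 4) (.nd (nat_lit 5) 
(.lf (nat_lit 77248) (.g (nat_lit 3163) (.e (nat_lit 1800) (nat_lit 119) (.e (nat_lit 516115) (nat_lit 1) (.e (nat_lit 164398) (nat_lit 256) (.e (nat_lit 57379) (nat_lit 3) (.e (nat_lit 98356) (nat_lit 26) (.e (nat_lit 426131) (nat_lit 3) (.e (nat_lit 204837) (nat_lit 20) (.e (nat_lit 114708) (nat_lit 20) .nil)))))))) (.g (nat_lit 5) .nil .nil))) 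
(.lf (nat_lit 77280) (.g (nat_lit 4736) (.e (nat_lit 1800) (nat_lit 119) (.e (nat_lit 516115) (nat_lit 1) (.e (nat_lit 164399) (nat_lit 256) (.e (nat_lit 57372) (nat_lit 2) (.e (nat_lit 90172) (nat_lit 14) (.e (nat_lit 180244) (nat_lit 5) (.e (nat_lit 532513) (nat_lit 3) (.e (nat_lit 114708) (nat_lit 20) .nil)))))))) (.g (nat_lit 7) .nil .nil)))) (.nd (nat_lit 5) 
(.lf (nat_lit 77264) (.g (nat_lit 3337) (.e (nat_lit 1800) (nat_lit 119) (.e (nat_lit 516115) (nat_lit 1) (.e (nat_lit 164399) (nat_lit 256) (.e (nat_lit 57370) (nat_lit 2) (.e (nat_lit 90174) (nat_lit 14) (.e (nat_lit 180243) (nat_lit 5) (.e (nat_lit 532513) (nat_lit 3) (.e (nat_lit 114708) (nat_lit 20) .nil)))))))) (.g (nat_lit 6) .nil .nil))) 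
(.lf (nat_lit 77296) (.g (nat_lit 2686) (.e (nat_lit 1800) (nat_lit 119) (.e (nat_lit 516115) (nat_lit 1) (.e (nat_lit 164399) (nat_lit 256) (.e (nat_lit 57373) (nat_lit 2) (.e (nat_lit 90170) (nat_lit 13) (.e (nat_lit 172067) (nat_lit 3) (.e (nat_lit 204838) (nat_lit 20) (.e (nat_lit 114707) (nat_lit 20) .nil)))))))) (.g (nat_lit 4) .nil .nil))))) (.nd (nat_lit 4) (.nd (nat_lit 5) 
(.lf (nat_lit 77256) (.g (nat_lit 3285) (.e (nat_lit 1800) (nat_lit 119) (.e (nat_lit 516115) (nat_lit 1) (.e (nat_lit 164399) (nat_lit 256) (.e (nat_lit 57370) (nat_lit 2) (.e (nat_lit 90170) (nat_lit 13) (.e (nat_lit 172065) (nat_lit 3) (.e (nat_lit 204837) (nat_lit 20) (.e (nat_lit 114708) (nat_lit 20) .nil)))))))) (.g (nat_lit 5) .nil .nil))) 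
(.lf (nat_lit 77288) (.g (nat_lit 3230) (.e (nat_lit 1800) (nat_lit 119) (.e (nat_lit 516115) (nat_lit 1) (.e (nat_lit 164399) (nat_lit 256) (.e (nat_lit 57373) (nat_lit 2) (.e (nat_lit 90167) (nat_lit 13) (.e (nat_lit 172067) (nat_lit 3) (.e (nat_lit 204838) (nat_lit 20) (.e (nat_lit 114708) (nat_lit 20) .nil)))))))) (.g (nat_lit 5) .nil .nil)))) (.nd (nat_lit 5) 
(.lf (nat_lit 77272) (.g (nat_lit 4644) (.e (nat_lit 1800) (nat_lit 119) (.e (nat_lit 516115) (nat_lit 1) (.e (nat_lit 164399) (nat_lit 256) (.e (nat_lit 57372) (nat_lit 2) (.e (nat_lit 90167) (nat_lit 13) (.e (nat_lit 172067) (nat_lit 3) (.e (nat_lit 204837) (nat_lit 20) (.e (nat_lit 114708) (nat_lit 20) .nil)))))))) (.g (nat_lit 7) .nil .nil))) 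
(.lf (nat_lit 77304) (.g (nat_lit 3903) (.e (nat_lit 1800) (nat_lit 119) (.e (nat_lit 516115) (nat_lit 1) (.e (nat_lit 164399) (nat_lit 256) (.e (nat_lit 57373) (nat_lit 2) (.e (nat_lit 90172) (nat_lit 14) (.e (nat_lit 180244) (nat_lit 5) (.e (nat_lit 532515) (nat_lit 3) (.e (nat_lit 114708) (nat_lit 20) .nil)))))))) (.g (nat_lit 6) .nil .nil)))))) 
(.nd (nat_lit 3) (.nd (nat_lit 4) (.nd (nat_lit 5) 
(.lf (nat_lit 77252) (.g (nat_lit 4159) (.e (nat_lit 1800) (nat_lit 119) (.e (nat_lit 516115) (nat_lit 1) (.e (nat_lit 164398) (nat_lit 256) (.e (nat_lit 57379) (nat_lit 3) (.e (nat_lit 98367) (nat_lit 27) (.e (nat_lit 434231) (nat_lit 23) (.e (nat_lit 532514) (nat_lit 3) (.e (nat_lit 114708) (nat_lit 20) .nil)))))))) (.g (nat_lit 6) .nil .nil))) 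
(.lf (nat_lit 77284) (.g (nat_lit 3849) (.e (nat_lit 1800) (nat_lit 119) (.e (nat_lit 516115) (nat_lit 1) (.e (nat_lit 164399) (nat_lit 256) (.e (nat_lit 57372) (nat_lit 2) (.e (nat_lit 90174) (nat_lit 14) (.e (nat_lit 180243) (nat_lit 5) (.e (nat_lit 532513) (nat_lit 3) (.e (nat_lit 114707) (nat_lit 20) .nil)))))))) (.g (nat_lit 6) .nil .nil)))) (.nd (nat_lit 5) 
(.lf (nat_lit 77268) (.g (nat_lit 3180) (.e (nat_lit 1800) (nat_lit 119) (.e (nat_lit 516115) (nat_lit 1) (.e (nat_lit 164399) (nat_lit 256) (.e (nat_lit 57371) (nat_lit 2) (.e (nat_lit 90174) (nat_lit 14) (.e (nat_lit 180243) (nat_lit 5) (.e (nat_lit 532513) (nat_lit 3) (.e (nat_lit 114708) (nat_lit 20) .nil)))))))) (.g (nat_lit 5) .nil .nil))) 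
(.lf (nat_lit 77300) (.g (nat_lit 3917) (.e (nat_lit 1800) (nat_lit 119) (.e (nat_lit 516115) (nat_lit 1) (.e (nat_lit 164399) (nat_lit 256) (.e (nat_lit 57373) (nat_lit 2) (.e (nat_lit 90172) (nat_lit 14) (.e (nat_lit 180244) (nat_lit 5) (.e (nat_lit 532513) (nat_lit 3) (.e (nat_lit 114707) (nat_lit 20) .nil)))))))) (.g (nat_lit 6) .nil .nil))))) (.nd (nat_lit 4) (.nd (nat_lit 5) 
(.lf (nat_lit 77260) (.g (nat_lit 2658) (.e (nat_lit 1800) (nat_lit 119) (.e (nat_lit 516115) (nat_lit 1) (.e (nat_lit 164399) (nat_lit 256) (.e (nat_lit 57370) (nat_lit 2) (.e (nat_lit 90172) (nat_lit 14) (.e (nat_lit 180244) (nat_lit 5) (.e (nat_lit 532513) (nat_lit 3) (.e (nat_lit 114707) (nat_lit 20) .nil)))))))) (.g (nat_lit 4) .nil .nil))) 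
(.lf (nat_lit 77292) (.g (nat_lit 2349) (.e (nat_lit 1800) (nat_lit 119) (.e (nat_lit 516115) (nat_lit 1) (.e (nat_lit 164399) (nat_lit 256) (.e (nat_lit 57373) (nat_lit 2) (.e (nat_lit 90170) (nat_lit 13) (.e (nat_lit 172065) (nat_lit 3) (.e (nat_lit 204838) (nat_lit 20) (.e (nat_lit 114707) (nat_lit 20) .nil)))))))) (.g (nat_lit 4) .nil .nil)))) (.nd (nat_lit 5) 
(.lf (nat_lit 77276) (.g (nat_lit 4602) (.e (nat_lit 1800) (nat_lit 119) (.e (nat_lit 516115) (nat_lit 1) (.e (nat_lit 164399) (nat_lit 256) (.e (nat_lit 57372) (nat_lit 2) (.e (nat_lit 90172) (nat_lit 14) (.e (nat_lit 180243) (nat_lit 5) (.e (nat_lit 532513) (nat_lit 3) (.e (nat_lit 114708) (nat_lit 20) .nil)))))))) (.g (nat_lit 7) .nil .nil))) 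
(.lf (nat_lit 77308) (.g (nat_lit 3174) (.e (nat_lit 1800) (nat_lit 119) (.e (nat_lit 516115) (nat_lit 1) (.e (nat_lit 164399) (nat_lit 256) (.e (nat_lit 57373) (nat_lit 2) (.e (nat_lit 90174) (nat_lit 14) (.e (nat_lit 180243) (nat_lit 5) (.e (nat_lit 532515) (nat_lit 3) (.e (nat_lit 114707) (nat_lit 20) .nil)))))))) (.g (nat_lit 5) .nil .nil))))))) 
(.nd (nat_lit 2) (.nd (nat_lit 3) (.nd (nat_lit 4) (.nd (nat_lit 5) 
(.lf (nat_lit 77250) (.g (nat_lit 2626) (.e (nat_lit 1800) (nat_lit 119) (.e (nat_lit 516115) (nat_lit 1) (.e (nat_lit 164398) (nat_lit 256) (.e (nat_lit 57379) (nat_lit 3) (.e (nat_lit 98366) (nat_lit 27) (.e (nat_lit 434231) (nat_lit 23) (.e (nat_lit 532513) (nat_lit 3) (.e (nat_lit 114708) (nat_lit 20) .nil)))))))) (.g (nat_lit 4) .nil .nil))) 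
(.lf (nat_lit 77282) (.g (nat_lit 2969) (.e (nat_lit 1800) (nat_lit 119) (.e (nat_lit 516115) (nat_lit 1) (.e (nat_lit 164399) (nat_lit 256) (.e (nat_lit 57372) (nat_lit 2) (.e (nat_lit 90172) (nat_lit 14) (.e (nat_lit 180244) (nat_lit 5) (.e (nat_lit 532515) (nat_lit 3) (.e (nat_lit 114707) (nat_lit 20) .nil)))))))) (.g (nat_lit 4) .nil .nil)))) (.nd (nat_lit 5) 
(.lf (nat_lit 77266) (.g (nat_lit 2840) (.e (nat_lit 1800) (nat_lit 119) (.e (nat_lit 516115) (nat_lit 1) (.e (nat_lit 164399) (nat_lit 256) (.e (nat_lit 57371) (nat_lit 2) (.e (nat_lit 90172) (nat_lit 14) (.e (nat_lit 180244) (nat_lit 5) (.e (nat_lit 532513) (nat_lit 3) (.e (nat_lit 114708) (nat_lit 20) .nil)))))))) (.g (nat_lit 4) .nil .nil))) 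
(.lf (nat_lit 77298) (.g (nat_lit 4013) (.e (nat_lit 1800) (nat_lit 119) (.e (nat_lit 516115) (nat_lit 1) (.e (nat_lit 164399) (nat_lit 256) (.e (nat_lit 57373) (nat_lit 2) (.e (nat_lit 90172) (nat_lit 14) (.e (nat_lit 180243) (nat_lit 5) (.e (nat_lit 532513) (nat_lit 3) (.e (nat_lit 114708) (nat_lit 20) .nil)))))))) (.g (nat_lit 5) .nil .nil))))) (.nd (nat_lit 4) (.nd (nat_lit 5) 
(.lf (nat_lit 77258) (.g (nat_lit 3342) (.e (nat_lit 1800) (nat_lit 119) (.e (nat_lit 516115) (nat_lit 1) (.e (nat_lit 164399) (nat_lit 256) (.e (nat_lit 57370) (nat_lit 2) (.e (nat_lit 90170) (nat_lit 13) (.e (nat_lit 172067) (nat_lit 3) (.e (nat_lit 204837) (nat_lit 20) (.e (nat_lit 114708) (nat_lit 20) .nil)))))))) (.g (nat_lit 5) .nil .nil))) 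
(.lf (nat_lit 77290) (.g (nat_lit 2372) (.e (nat_lit 1800) (nat_lit 119) (.e (nat_lit 516115) (nat_lit 1) (.e (nat_lit 164399) (nat_lit 256) (.e (nat_lit 57373) (nat_lit 2) (.e (nat_lit 90170) (nat_lit 13) (.e (nat_lit 172065) (nat_lit 3) (.e (nat_lit 204837) (nat_lit 20) (.e (nat_lit 114707) (nat_lit 20) .nil)))))))) (.g (nat_lit 4) .nil .nil)))) (.nd (nat_lit 5) 
(.lf (nat_lit 77274) (.g (nat_lit 3236) (.e (nat_lit 1800) (nat_lit 119) (.e (nat_lit 516115) (nat_lit 1) (.e (nat_lit 164399) (nat_lit 256) (.e (nat_lit 57372) (nat_lit 2) (.e (nat_lit 90168) (nat_lit 13) (.e (nat_lit 172067) (nat_lit 3) (.e (nat_lit 204838) (nat_lit 20) (.e (nat_lit 114708) (nat_lit 20) .nil)))))))) (.g (nat_lit 5) .nil .nil))) 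
(.lf (nat_lit 77306) (.g (nat_lit 2272) (.e (nat_lit 1800) (nat_lit 119) (.e (nat_lit 516115) (nat_lit 1) (.e (nat_lit 164399) (nat_lit 256) (.e (nat_lit 57373) (nat_lit 2) (.e (nat_lit 90174) (nat_lit 14) (.e (nat_lit 180243) (nat_lit 5) (.e (nat_lit 532513) (nat_lit 3) (.e (nat_lit 122624) (nat_lit 20) .nil)))))))) (.g (nat_lit 4) .nil .nil)))))) 
(.nd (nat_lit 3) (.nd (nat_lit 4) (.nd (nat_lit 5) 
(.lf (nat_lit 77254) (.g (nat_lit 2134) (.e (nat_lit 1800) (nat_lit 119) (.e (nat_lit 516115) (nat_lit 1) (.e (nat_lit 164399) (nat_lit 256) (.e (nat_lit 57370) (nat_lit 2) (.e (nat_lit 90167) (nat_lit 13) (.e (nat_lit 172067) (nat_lit 3) (.e (nat_lit 204837) (nat_lit 20) (.e (nat_lit 114708) (nat_lit 20) .nil)))))))) (.g (nat_lit 4) .nil .nil))) 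
(.lf (nat_lit 77286) (.g (nat_lit 2434) (.e (nat_lit 1800) (nat_lit 119) (.e (nat_lit 516115) (nat_lit 1) (.e (nat_lit 164399) (nat_lit 256) (.e (nat_lit 57372) (nat_lit 2) (.e (nat_lit 90174) (nat_lit 14) (.e (nat_lit 180243) (nat_lit 5) (.e (nat_lit 532515) (nat_lit 3) (.e (nat_lit 114707) (nat_lit 20) .nil)))))))) (.g (nat_lit 4) .nil .nil)))) (.nd (nat_lit 5) 
(.lf (nat_lit 77270) (.g (nat_lit 3313) (.e (nat_lit 1800) (nat_lit 119) (.e (nat_lit 516115) (nat_lit 1) (.e (nat_lit 164399) (nat_lit 256) (.e (nat_lit 57372) (nat_lit 2) (.e (nat_lit 90167) (nat_lit 13) (.e (nat_lit 172065) (nat_lit 3) (.e (nat_lit 204838) (nat_lit 20) (.e (nat_lit 114708) (nat_lit 20) .nil)))))))) (.g (nat_lit 6) .nil .nil))) 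
(.lf (nat_lit 77302) (.g (nat_lit 3285) (.e (nat_lit 1800) (nat_lit 119) (.e (nat_lit 516115) (nat_lit 1) (.e (nat_lit 164399) (nat_lit 256) (.e (nat_lit 57373) (nat_lit 2) (.e (nat_lit 90172) (nat_lit 14) (.e (nat_lit 180244) (nat_lit 5) (.e (nat_lit 532514) (nat_lit 3) (.e (nat_lit 114708) (nat_lit 20) .nil)))))))) (.g (nat_lit 5) .nil .nil))))) (.nd (nat_lit 4) (.nd (nat_lit 5) 
(.lf (nat_lit 77262) (.g (nat_lit 2559) (.e (nat_lit 1800) (nat_lit 119) (.e (nat_lit 516115) (nat_lit 1) (.e (nat_lit 164399) (nat_lit 256) (.e (nat_lit 57370) (nat_lit 2) (.e (nat_lit 90172) (nat_lit 14) (.e (nat_lit 180244) (nat_lit 5) (.e (nat_lit 532515) (nat_lit 3) (.e (nat_lit 114708) (nat_lit 20) .nil)))))))) (.g (nat_lit 4) .nil .nil))) 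
(.lf (nat_lit 77294) (.g (nat_lit 3445) (.e (nat_lit 1800) (nat_lit 119) (.e (nat_lit 516115) (nat_lit 1) (.e (nat_lit 164399) (nat_lit 256) (.e (nat_lit 57373) (nat_lit 2) (.e (nat_lit 90170) (nat_lit 13) (.e (nat_lit 172067) (nat_lit 3) (.e (nat_lit 204837) (nat_lit 20) (.e (nat_lit 114707) (nat_lit 20) .nil)))))))) (.g (nat_lit 5) .nil .nil)))) (.nd (nat_lit 5) 
(.lf (nat_lit 77278) (.g (nat_lit 3249) (.e (nat_lit 1800) (nat_lit 119) (.e (nat_lit 516115) (nat_lit 1) (.e (nat_lit 164399) (nat_lit 256) (.e (nat_lit 57372) (nat_lit 2) (.e (nat_lit 90172) (nat_lit 14) (.e (nat_lit 180243) (nat_lit 5) (.e (nat_lit 532515) (nat_lit 3) (.e (nat_lit 114708) (nat_lit 20) .nil)))))))) (.g (nat_lit 5) .nil .nil))) 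
(.lf (nat_lit 77310) (.g (nat_lit 1971) (.e (nat_lit 1800) (nat_lit 119) (.e (nat_lit 516115) (nat_lit 1) (.e (nat_lit 164399) (nat_lit 256) (.e (nat_lit 57373) (nat_lit 2) (.e (nat_lit 90185) (nat_lit 17) (.e (nat_lit 237592) (nat_lit 3) (.e (nat_lit 204837) (nat_lit 20) (.e (nat_lit 114708) (nat_lit 20) .nil)))))))) (.g (nat_lit 4) .nil .nil)))))))) 
(.nd (nat_lit 1) (.nd (nat_lit 2) (.nd (nat_lit 3) (.nd (nat_lit 4) (.nd (nat_lit 5) 
(.lf (nat_lit 77249) (.g (nat_lit 3434) (.e (nat_lit 1800) (nat_lit 119) (.e (nat_lit 516115) (nat_lit 1) (.e (nat_lit 164398) (nat_lit 256) (.e (nat_lit 57379) (nat_lit 3) (.e (nat_lit 98356) (nat_lit 26) (.e (nat_lit 426131) (nat_lit 3) (.e (nat_lit 204838) (nat_lit 20) (.e (nat_lit 114708) (nat_lit 20) .nil)))))))) (.g (nat_lit 5) .nil .nil))) 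
(.lf (nat_lit 77281) (.g (nat_lit 3324) (.e (nat_lit 1800) (nat_lit 119) (.e (nat_lit 516115) (nat_lit 1) (.e (nat_lit 164399) (nat_lit 256) (.e (nat_lit 57372) (nat_lit 2) (.e (nat_lit 90172) (nat_lit 14) (.e (nat_lit 180244) (nat_lit 5) (.e (nat_lit 532514) (nat_lit 3) (.e (nat_lit 114708) (nat_lit 20) .nil)))))))) (.g (nat_lit 5) .nil .nil)))) (.nd (nat_lit 5) 
(.lf (nat_lit 77265) (.g (nat_lit 2181) (.e (nat_lit 1800) (nat_lit 119) (.e (nat_lit 516115) (nat_lit 1) (.e (nat_lit 164399) (nat_lit 256) (.e (nat_lit 57370) (nat_lit 2) (.e (nat_lit 90174) (nat_lit 14) (.e (nat_lit 180243) (nat_lit 5) (.e (nat_lit 532515) (nat_lit 3) (.e (nat_lit 114708) (nat_lit 20) .nil)))))))) (.g (nat_lit 4) .nil .nil))) 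
(.lf (nat_lit 77297) (.g (nat_lit 4792) (.e (nat_lit 1800) (nat_lit 119) (.e (nat_lit 516115) (nat_lit 1) (.e (nat_lit 164399) (nat_lit 256) (.e (nat_lit 57373) (nat_lit 2) (.e (nat_lit 90170) (nat_lit 13) (.e (nat_lit 172067) (nat_lit 3) (.e (nat_lit 204838) (nat_lit 20) (.e (nat_lit 114708) (nat_lit 20) .nil)))))))) (.g (nat_lit 7) .nil .nil))))) (.nd (nat_lit 4) (.nd (nat_lit 5) 
(.lf (nat_lit 77257) (.g (nat_lit 3492) (.e (nat_lit 1800) (nat_lit 119) (.e (nat_lit 516115) (nat_lit 1) (.e (nat_lit 164399) (nat_lit 256) (.e (nat_lit 57370) (nat_lit 2) (.e (nat_lit 90170) (nat_lit 13) (.e (nat_lit 172065) (nat_lit 3) (.e (nat_lit 204838) (nat_lit 20) (.e (nat_lit 114708) (nat_lit 20) .nil)))))))) (.g (nat_lit 5) .nil .nil))) 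
(.lf (nat_lit 77289) (.g (nat_lit 2993) (.e (nat_lit 1800) (nat_lit 119) (.e (nat_lit 516115) (nat_lit 1) (.e (nat_lit 164399) (nat_lit 256) (.e (nat_lit 57373) (nat_lit 2) (.e (nat_lit 90168) (nat_lit 13) (.e (nat_lit 172067) (nat_lit 3) (.e (nat_lit 204838) (nat_lit 20) (.e (nat_lit 114708) (nat_lit 20) .nil)))))))) (.g (nat_lit 5) .nil .nil)))) (.nd (nat_lit 5) 
(.lf (nat_lit 77273) (.g (nat_lit 4371) (.e (nat_lit 1800) (nat_lit 119) (.e (nat_lit 516115) (nat_lit 1) (.e (nat_lit 164399) (nat_lit 256) (.e (nat_lit 57372) (nat_lit 2) (.e (nat_lit 90167) (nat_lit 13) (.e (nat_lit 172067) (nat_lit 3) (.e (nat_lit 204838) (nat_lit 20) (.e (nat_lit 114708) (nat_lit 20) .nil)))))))) (.g (nat_lit 7) .nil .nil))) 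
(.lf (nat_lit 77305) (.g (nat_lit 4585) (.e (nat_lit 1800) (nat_lit 119) (.e (nat_lit 516115) (nat_lit 1) (.e (nat_lit 164399) (nat_lit 256) (.e (nat_lit 57373) (nat_lit 2) (.e (nat_lit 90174) (nat_lit 14) (.e (nat_lit 180243) (nat_lit 5) (.e (nat_lit 532513) (nat_lit 3) (.e (nat_lit 114707) (nat_lit 20) .nil)))))))) (.g (nat_lit 7) .nil .nil)))))) 
(.nd (nat_lit 3) (.nd (nat_lit 4) (.nd (nat_lit 5) 
(.lf (nat_lit 77253) (.g (nat_lit 2226) (.e (nat_lit 1800) (nat_lit 119) (.e (nat_lit 516115) (nat_lit 1) (.e (nat_lit 164398) (nat_lit 256) (.e (nat_lit 57379) (nat_lit 3) (.e (nat_lit 98377) (nat_lit 30) (.e (nat_lit 458789) (nat_lit 23) (.e (nat_lit 532515) (nat_lit 3) (.e (nat_lit 114708) (nat_lit 20) .nil)))))))) (.g (nat_lit 4) .nil .nil))) 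
(.lf (nat_lit 77285) (.g (nat_lit 4412) (.e (nat_lit 1800) (nat_lit 119) (.e (nat_lit 516115) (nat_lit 1) (.e (nat_lit 164399) (nat_lit 256) (.e (nat_lit 57372) (nat_lit 2) (.e (nat_lit 90174) (nat_lit 14) (.e (nat_lit 180243) (nat_lit 5) (.e (nat_lit 532513) (nat_lit 3) (.e (nat_lit 114708) (nat_lit 20) .nil)))))))) (.g (nat_lit 7) .nil .nil)))) (.nd (nat_lit 5) 
(.lf (nat_lit 77269) (.g (nat_lit 2910) (.e (nat_lit 1800) (nat_lit 119) (.e (nat_lit 516115) (nat_lit 1) (.e (nat_lit 164399) (nat_lit 256) (.e (nat_lit 57372) (nat_lit 2) (.e (nat_lit 90167) (nat_lit 13) (.e (nat_lit 172065) (nat_lit 3) (.e (nat_lit 204837) (nat_lit 20) (.e (nat_lit 114708) (nat_lit 20) .nil)))))))) (.g (nat_lit 5) .nil .nil))) 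
(.lf (nat_lit 77301) (.g (nat_lit 4781) (.e (nat_lit 1800) (nat_lit 119) (.e (nat_lit 516115) (nat_lit 1) (.e (nat_lit 164399) (nat_lit 256) (.e (nat_lit 57373) (nat_lit 2) (.e (nat_lit 90172) (nat_lit 14) (.e (nat_lit 180244) (nat_lit 5) (.e (nat_lit 532513) (nat_lit 3) (.e (nat_lit 114708) (nat_lit 20) .nil)))))))) (.g (nat_lit 7) .nil .nil))))) (.nd (nat_lit 4) (.nd (nat_lit 5) 
(.lf (nat_lit 77261) (.g (nat_lit 3522) (.e (nat_lit 1800) (nat_lit 119) (.e (nat_lit 516115) (nat_lit 1) (.e (nat_lit 164399) (nat_lit 256) (.e (nat_lit 57370) (nat_lit 2) (.e (nat_lit 90172) (nat_lit 14) (.e (nat_lit 180244) (nat_lit 5) (.e (nat_lit 532513) (nat_lit 3) (.e (nat_lit 114708) (nat_lit 20) .nil)))))))) (.g (nat_lit 6) .nil .nil))) 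
(.lf (nat_lit 77293) (.g (nat_lit 4455) (.e (nat_lit 1800) (nat_lit 119) (.e (nat_lit 516115) (nat_lit 1) (.e (nat_lit 164399) (nat_lit 256) (.e (nat_lit 57373) (nat_lit 2) (.e (nat_lit 90170) (nat_lit 13) (.e (nat_lit 172065) (nat_lit 3) (.e (nat_lit 204838) (nat_lit 20) (.e (nat_lit 114708) (nat_lit 20) .nil)))))))) (.g (nat_lit 7) .nil .nil)))) (.nd (nat_lit 5) 
(.lf (nat_lit 77277) (.g (nat_lit 2395) (.e (nat_lit 1800) (nat_lit 119) (.e (nat_lit 516115) (nat_lit 1) (.e (nat_lit 164399) (nat_lit 256) (.e (nat_lit 57372) (nat_lit 2) (.e (nat_lit 90172) (nat_lit 14) (.e (nat_lit 180243) (nat_lit 5) (.e (nat_lit 532515) (nat_lit 3) (.e (nat_lit 114707) (nat_lit 20) .nil)))))))) (.g (nat_lit 4) .nil .nil))) 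
(.lf (nat_lit 77309) (.g (nat_lit 3995) (.e (nat_lit 1800) (nat_lit 119) (.e (nat_lit 516115) (nat_lit 1) (.e (nat_lit 164399) (nat_lit 256) (.e (nat_lit 57373) (nat_lit 2) (.e (nat_lit 90174) (nat_lit 14) (.e (nat_lit 180243) (nat_lit 5) (.e (nat_lit 532515) (nat_lit 3) (.e (nat_lit 114708) (nat_lit 20) .nil)))))))) (.g (nat_lit 6) .nil .nil))))))) 
(.nd (nat_lit 2) (.nd (nat_lit 3) (.nd (nat_lit 4) (.nd (nat_lit 5) 
(.lf (nat_lit 77251) (.g (nat_lit 4570) (.e (nat_lit 1800) (nat_lit 119) (.e (nat_lit 516115) (nat_lit 1) (.e (nat_lit 164398) (nat_lit 256) (.e (nat_lit 57379) (nat_lit 3) (.e (nat_lit 98366) (nat_lit 27) (.e (nat_lit 434231) (nat_lit 23) (.e (nat_lit 532514) (nat_lit 3) (.e (nat_lit 114708) (nat_lit 20) .nil)))))))) (.g (nat_lit 7) .nil .nil))) 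
(.lf (nat_lit 77283) (.g (nat_lit 3854) (.e (nat_lit 1800) (nat_lit 119) (.e (nat_lit 516115) (nat_lit 1) (.e (nat_lit 164399) (nat_lit 256) (.e (nat_lit 57372) (nat_lit 2) (.e (nat_lit 90172) (nat_lit 14) (.e (nat_lit 180244) (nat_lit 5) (.e (nat_lit 532515) (nat_lit 3) (.e (nat_lit 114708) (nat_lit 20) .nil)))))))) (.g (nat_lit 6) .nil .nil)))) (.nd (nat_lit 5) 
(.lf (nat_lit 77267) (.g (nat_lit 2617) (.e (nat_lit 1800) (nat_lit 119) (.e (nat_lit 516115) (nat_lit 1) (.e (nat_lit 164399) (nat_lit 256) (.e (nat_lit 57371) (nat_lit 2) (.e (nat_lit 90174) (nat_lit 14) (.e (nat_lit 180243) (nat_lit 5) (.e (nat_lit 532513) (nat_lit 3) (.e (nat_lit 114707) (nat_lit 20) .nil)))))))) (.g (nat_lit 4) .nil .nil))) 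
(.lf (nat_lit 77299) (.g (nat_lit 2661) (.e (nat_lit 1800) (nat_lit 119) (.e (nat_lit 516115) (nat_lit 1) (.e (nat_lit 164399) (nat_lit 256) (.e (nat_lit 57373) (nat_lit 2) (.e (nat_lit 90172) (nat_lit 14) (.e (nat_lit 180243) (nat_lit 5) (.e (nat_lit 532515) (nat_lit 3) (.e (nat_lit 114708) (nat_lit 20) .nil)))))))) (.g (nat_lit 4) .nil .nil))))) (.nd (nat_lit 4) (.nd (nat_lit 5) 
(.lf (nat_lit 77259) (.g (nat_lit 2389) (.e (nat_lit 1800) (nat_lit 119) (.e (nat_lit 516115) (nat_lit 1) (.e (nat_lit 164399) (nat_lit 256) (.e (nat_lit 57370) (nat_lit 2) (.e (nat_lit 90172) (nat_lit 14) (.e (nat_lit 180243) (nat_lit 5) (.e (nat_lit 532513) (nat_lit 3) (.e (nat_lit 114708) (nat_lit 20) .nil)))))))) (.g (nat_lit 4) .nil .nil))) 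
(.lf (nat_lit 77291) (.g (nat_lit 4305) (.e (nat_lit 1800) (nat_lit 119) (.e (nat_lit 516115) (nat_lit 1) (.e (nat_lit 164399) (nat_lit 256) (.e (nat_lit 57373) (nat_lit 2) (.e (nat_lit 90170) (nat_lit 13) (.e (nat_lit 172065) (nat_lit 3) (.e (nat_lit 204837) (nat_lit 20) (.e (nat_lit 114708) (nat_lit 20) .nil)))))))) (.g (nat_lit 7) .nil .nil)))) (.nd (nat_lit 5) 
(.lf (nat_lit 77275) (.g (nat_lit 3873) (.e (nat_lit 1800) (nat_lit 119) (.e (nat_lit 516115) (nat_lit 1) (.e (nat_lit 164399) (nat_lit 256) (.e (nat_lit 57372) (nat_lit 2) (.e (nat_lit 90172) (nat_lit 14) (.e (nat_lit 180243) (nat_lit 5) (.e (nat_lit 532513) (nat_lit 3) (.e (nat_lit 114707) (nat_lit 20) .nil)))))))) (.g (nat_lit 5) .nil .nil))) 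
(.lf (nat_lit 77307) (.g (nat_lit 2211) (.e (nat_lit 1800) (nat_lit 119) (.e (nat_lit 516115) (nat_lit 1) (.e (nat_lit 164399) (nat_lit 256) (.e (nat_lit 57373) (nat_lit 2) (.e (nat_lit 90174) (nat_lit 14) (.e (nat_lit 180243) (nat_lit 5) (.e (nat_lit 532514) (nat_lit 3) (.e (nat_lit 114708) (nat_lit 20) .nil)))))))) (.g (nat_lit 4) .nil .nil)))))) 
(.nd (nat_lit 3) (.nd (nat_lit 4) (.nd (nat_lit 5) 
(.lf (nat_lit 77255) (.g (nat_lit 2359) (.e (nat_lit 1800) (nat_lit 119) (.e (nat_lit 516115) (nat_lit 1) (.e (nat_lit 164399) (nat_lit 256) (.e (nat_lit 57370) (nat_lit 2) (.e (nat_lit 90168) (nat_lit 13) (.e (nat_lit 172067) (nat_lit 3) (.e (nat_lit 204837) (nat_lit 20) (.e (nat_lit 114708) (nat_lit 20) .nil)))))))) (.g (nat_lit 4) .nil .nil))) 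
(.lf (nat_lit 77287) (.g (nat_lit 3255) (.e (nat_lit 1800) (nat_lit 119) (.e (nat_lit 516115) (nat_lit 1) (.e (nat_lit 164399) (nat_lit 256) (.e (nat_lit 57372) (nat_lit 2) (.e (nat_lit 90174) (nat_lit 14) (.e (nat_lit 180243) (nat_lit 5) (.e (nat_lit 532515) (nat_lit 3) (.e (nat_lit 114708) (nat_lit 20) .nil)))))))) (.g (nat_lit 5) .nil .nil)))) (.nd (nat_lit 5) 
(.lf (nat_lit 77271) (.g (nat_lit 3054) (.e (nat_lit 1800) (nat_lit 119) (.e (nat_lit 516115) (nat_lit 1) (.e (nat_lit 164399) (nat_lit 256) (.e (nat_lit 57372) (nat_lit 2) (.e (nat_lit 90167) (nat_lit 13) (.e (nat_lit 172067) (nat_lit 3) (.e (nat_lit 204837) (nat_lit 20) (.e (nat_lit 114707) (nat_lit 20) .nil)))))))) (.g (nat_lit 4) .nil .nil))) 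
(.lf (nat_lit 77303) (.g (nat_lit 3018) (.e (nat_lit 1800) (nat_lit 119) (.e (nat_lit 516115) (nat_lit 1) (.e (nat_lit 164399) (nat_lit 256) (.e (nat_lit 57373) (nat_lit 2) (.e (nat_lit 90172) (nat_lit 14) (.e (nat_lit 180244) (nat_lit 5) (.e (nat_lit 532515) (nat_lit 3) (.e (nat_lit 114707) (nat_lit 20) .nil)))))))) (.g (nat_lit 4) .nil .nil))))) (.nd (nat_lit 4) (.nd (nat_lit 5) 
(.lf (nat_lit 77263) (.g (nat_lit 2774) (.e (nat_lit 1800) (nat_lit 119) (.e (nat_lit 516115) (nat_lit 1) (.e (nat_lit 164399) (nat_lit 256) (.e (nat_lit 57370) (nat_lit 2) (.e (nat_lit 90174) (nat_lit 14) (.e (nat_lit 180243) (nat_lit 5) (.e (nat_lit 532513) (nat_lit 3) (.e (nat_lit 114707) (nat_lit 20) .nil)))))))) (.g (nat_lit 4) .nil .nil))) 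
(.lf (nat_lit 77295) (.g (nat_lit 5018) (.e (nat_lit 1800) (nat_lit 119) (.e (nat_lit 516115) (nat_lit 1) (.e (nat_lit 164399) (nat_lit 256) (.e (nat_lit 57373) (nat_lit 2) (.e (nat_lit 90170) (nat_lit 13) (.e (nat_lit 172067) (nat_lit 3) (.e (nat_lit 204837) (nat_lit 20) (.e (nat_lit 114708) (nat_lit 20) .nil)))))))) (.g (nat_lit 8) .nil .nil)))) (.nd (nat_lit 5) 
(.lf (nat_lit 77279) (.g (nat_lit 3872) (.e (nat_lit 1800) (nat_lit 119) (.e (nat_lit 516115) (nat_lit 1) (.e (nat_lit 164399) (nat_lit 256) (.e (nat_lit 57372) (nat_lit 2) (.e (nat_lit 90172) (nat_lit 14) (.e (nat_lit 180244) (nat_lit 5) (.e (nat_lit 532513) (nat_lit 3) (.e (nat_lit 114707) (nat_lit 20) .nil)))))))) (.g (nat_lit 6) .nil .nil))) 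
(.lf (nat_lit 77311) (.g (nat_lit 4421) (.e (nat_lit 1800) (nat_lit 119) (.e (nat_lit 516115) (nat_lit 1) (.e (nat_lit 164399) (nat_lit 256) (.e (nat_lit 57374) (nat_lit 2) (.e (nat_lit 90170) (nat_lit 13) (.e (nat_lit 172065) (nat_lit 3) (.e (nat_lit 204837) (nat_lit 20) (.e (nat_lit 114708) (nat_lit 20) .nil)))))))) (.g (nat_lit 6) .nil .nil)))))))))

noncomputable def tv1045 : DT := (.nd (nat_lit 0) (.nd (nat_lit 1) (.nd (nat_lit 2) (.nd (nat_lit 3) (.nd (nat_lit 4) (.nd (nat_lit 5) 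
(.lf (nat_lit 77312) (.g (nat_lit 4621) (.e (nat_lit 1800) (nat_lit 119) (.e (nat_lit 516115) (nat_lit 1) (.e (nat_lit 164399) (nat_lit 256) (.e (nat_lit 57374) (nat_lit 2) (.e (nat_lit 90170) (nat_lit 13) (.e (nat_lit 172065) (nat_lit 3) (.e (nat_lit 204838) (nat_lit 20) (.e (nat_lit 114708) (nat_lit 20) .nil)))))))) (.g (nat_lit 6) .nil .nil))) 
(.lf (nat_lit 77344) (.g (nat_lit 3040) (.e (nat_lit 1800) (nat_lit 119) (.e (nat_lit 516115) (nat_lit 1) (.e (nat_lit 164399) (nat_lit 256) (.e (nat_lit 57378) (nat_lit 3) (.e (nat_lit 98366) (nat_lit 27) (.e (nat_lit 434231) (nat_lit 23) (.e (nat_lit 532513) (nat_lit 3) (.e (nat_lit 114708) (nat_lit 20) .nil)))))))) (.g (nat_lit 4) .nil .nil)))) (.nd (nat_lit 5) 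
(.lf (nat_lit 77328) (.g (nat_lit 3506) (.e (nat_lit 1800) (nat_lit 119) (.e (nat_lit 516115) (nat_lit 1) (.e (nat_lit 164399) (nat_lit 256) (.e (nat_lit 57375) (nat_lit 2) (.e (nat_lit 90174) (nat_lit 14) (.e (nat_lit 180243) (nat_lit 5) (.e (nat_lit 532513) (nat_lit 3) (.e (nat_lit 114707) (nat_lit 20) .nil)))))))) (.g (nat_lit 6) .nil .nil))) 
(.lf (nat_lit 77360) (.g (nat_lit 4882) (.e (nat_lit 1800) (nat_lit 119) (.e (nat_lit 516115) (nat_lit 1) (.e (nat_lit 164399) (nat_lit 256) (.e (nat_lit 57379) (nat_lit 3) (.e (nat_lit 98366) (nat_lit 27) (.e (nat_lit 434231) (nat_lit 23) (.e (nat_lit 532514) (nat_lit 3) (.e (nat_lit 114708) (nat_lit 20) .nil)))))))) (.g (nat_lit 7) .nil .nil))))) (.nd (nat_lit 4) (.nd (nat_lit 5) 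
(.lf (nat_lit 77320) (.g (nat_lit 3121) (.e (nat_lit 1800) (nat_lit 119) (.e (nat_lit 516115) (nat_lit 1) (.e (nat_lit 164399) (nat_lit 256) (.e (nat_lit 57375) (nat_lit 2) (.e (nat_lit 90172) (nat_lit 14) (.e (nat_lit 180243) (nat_lit 5) (.e (nat_lit 532513) (nat_lit 3) (.e (nat_lit 114707) (nat_lit 20) .nil)))))))) (.g (nat_lit 4) .nil .nil))) 
(.lf (nat_lit 77352) (.g (nat_lit 3151) (.e (nat_lit 1800) (nat_lit 119) (.e (nat_lit 516115) (nat_lit 1) (.e (nat_lit 164399) (nat_lit 256) (.e (nat_lit 57378) (nat_lit 3) (.e (nat_lit 98377) (nat_lit 30) (.e (nat_lit 458789) (nat_lit 23) (.e (nat_lit 532515) (nat_lit 3) (.e (nat_lit 114708) (nat_lit 20) .nil)))))))) (.g (nat_lit 5) .nil .nil)))) (.nd (nat_lit 5) 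
(.lf (nat_lit 77336) (.g (nat_lit 4127) (.e (nat_lit 1800) (nat_lit 119) (.e (nat_lit 516115) (nat_lit 1) (.e (nat_lit 164399) (nat_lit 256) (.e (nat_lit 57378) (nat_lit 3) (.e (nat_lit 98355) (nat_lit 26) (.e (nat_lit 426131) (nat_lit 3) (.e (nat_lit 204838) (nat_lit 20) (.e (nat_lit 114708) (nat_lit 20) .nil)))))))) (.g (nat_lit 6) .nil .nil))) 
(.lf (nat_lit 77368) (.g (nat_lit 3126) (.e (nat_lit 1800) (nat_lit 119) (.e (nat_lit 516115) (nat_lit 1) (.e (nat_lit 164400) (nat_lit 256) (.e (nat_lit 57379) (nat_lit 3) (.e (nat_lit 98366) (nat_lit 27) (.e (nat_lit 434231) (nat_lit 23) (.e (nat_lit 532514) (nat_lit 3) (.e (nat_lit 114708) (nat_lit 20) .nil)))))))) (.g (nat_lit 6) .nil .nil)))))) 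
(.nd (nat_lit 3) (.nd (nat_lit 4) (.nd (nat_lit 5) 
(.lf (nat_lit 77316) (.g (nat_lit 2723) (.e (nat_lit 1800) (nat_lit 119) (.e (nat_lit 516115) (nat_lit 1) (.e (nat_lit 164399) (nat_lit 256) (.e (nat_lit 57374) (nat_lit 2) (.e (nat_lit 90174) (nat_lit 14) (.e (nat_lit 180243) (nat_lit 5) (.e (nat_lit 532513) (nat_lit 3) (.e (nat_lit 114708) (nat_lit 20) .nil)))))))) (.g (nat_lit 4) .nil .nil))) 
(.lf (nat_lit 77348) (.g (nat_lit 2317) (.e (nat_lit 1800) (nat_lit 119) (.e (nat_lit 516115) (nat_lit 1) (.e (nat_lit 164399) (nat_lit 256) (.e (nat_lit 57378) (nat_lit 3) (.e (nat_lit 98367) (nat_lit 27) (.e (nat_lit 434231) (nat_lit 23) (.e (nat_lit 532514) (nat_lit 3) (.e (nat_lit 114707) (nat_lit 20) .nil)))))))) (.g (nat_lit 4) .nil .nil)))) (.nd (nat_lit 5) 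
(.lf (nat_lit 77332) (.g (nat_lit 3111) (.e (nat_lit 1800) (nat_lit 119) (.e (nat_lit 516115) (nat_lit 1) (.e (nat_lit 164399) (nat_lit 256) (.e (nat_lit 57377) (nat_lit 3) (.e (nat_lit 98355) (nat_lit 26) (.e (nat_lit 426131) (nat_lit 3) (.e (nat_lit 204838) (nat_lit 20) (.e (nat_lit 114708) (nat_lit 20) .nil)))))))) (.g (nat_lit 4) .nil .nil))) 
(.lf (nat_lit 77364) (.g (nat_lit 1935) (.e (nat_lit 1800) (nat_lit 119) (.e (nat_lit 516115) (nat_lit 1) (.e (nat_lit 164399) (nat_lit 256) (.e (nat_lit 57379) (nat_lit 3) (.e (nat_lit 98377) (nat_lit 30) .nil))))) .nil)))) (.nd (nat_lit 4) (.nd (nat_lit 5) 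
(.lf (nat_lit 77324) (.g (nat_lit 4514) (.e (nat_lit 1800) (nat_lit 119) (.e (nat_lit 516115) (nat_lit 1) (.e (nat_lit 164399) (nat_lit 256) (.e (nat_lit 57375) (nat_lit 2) (.e (nat_lit 90172) (nat_lit 14) (.e (nat_lit 180244) (nat_lit 5) (.e (nat_lit 532513) (nat_lit 3) (.e (nat_lit 114708) (nat_lit 20) .nil)))))))) (.g (nat_lit 7) .nil .nil))) 
(.lf (nat_lit 77356) (.g (nat_lit 3990) (.e (nat_lit 1800) (nat_lit 119) (.e (nat_lit 516115) (nat_lit 1) (.e (nat_lit 164399) (nat_lit 256) (.e (nat_lit 57379) (nat_lit 3) (.e (nat_lit 98356) (nat_lit 26) (.e (nat_lit 426131) (nat_lit 3) (.e (nat_lit 204838) (nat_lit 20) (.e (nat_lit 114708) (nat_lit 20) .nil)))))))) (.g (nat_lit 6) .nil .nil)))) (.nd (nat_lit 5) 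
(.lf (nat_lit 77340) (.g (nat_lit 3624) (.e (nat_lit 1800) (nat_lit 119) (.e (nat_lit 516115) (nat_lit 1) (.e (nat_lit 164399) (nat_lit 256) (.e (nat_lit 57378) (nat_lit 3) (.e (nat_lit 98357) (nat_lit 26) (.e (nat_lit 426131) (nat_lit 3) (.e (nat_lit 204838) (nat_lit 20) (.e (nat_lit 114708) (nat_lit 20) .nil)))))))) (.g (nat_lit 5) .nil .nil))) 
(.lf (nat_lit 77372) (.g (nat_lit 3318) (.e (nat_lit 1800) (nat_lit 119) (.e (nat_lit 516115) (nat_lit 1) (.e (nat_lit 164403) (nat_lit 256) (.e (nat_lit 57371) (nat_lit 2) (.e (nat_lit 90172) (nat_lit 14) (.e (nat_lit 180244) (nat_lit 5) (.e (nat_lit 532513) (nat_lit 3) (.e (nat_lit 114708) (nat_lit 20) .nil)))))))) (.g (nat_lit 5) .nil .nil))))))) 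
(.nd (nat_lit 2) (.nd (nat_lit 3) (.nd (nat_lit 4) (.nd (nat_lit 5) 
(.lf (nat_lit 77314) (.g (nat_lit 5095) (.e (nat_lit 1800) (nat_lit 119) (.e (nat_lit 516115) (nat_lit 1) (.e (nat_lit 164399) (nat_lit 256) (.e (nat_lit 57374) (nat_lit 2) (.e (nat_lit 90170) (nat_lit 13) (.e (nat_lit 172067) (nat_lit 3) (.e (nat_lit 204837) (nat_lit 20) (.e (nat_lit 114708) (nat_lit 20) .nil)))))))) (.g (nat_lit 7) .nil .nil))) 
(.lf (nat_lit 77346) (.g (nat_lit 5017) (.e (nat_lit 1800) (nat_lit 119) (.e (nat_lit 516115) (nat_lit 1) (.e (nat_lit 164399) (nat_lit 256) (.e (nat_lit 57378) (nat_lit 3) (.e (nat_lit 98366) (nat_lit 27) (.e (nat_lit 434231) (nat_lit 23) (.e (nat_lit 532514) (nat_lit 3) (.e (nat_lit 114708) (nat_lit 20) .nil)))))))) (.g (nat_lit 7) .nil .nil)))) (.nd (nat_lit 5) 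
(.lf (nat_lit 77330) (.g (nat_lit 2893) (.e (nat_lit 1800) (nat_lit 119) (.e (nat_lit 516115) (nat_lit 1) (.e (nat_lit 164399) (nat_lit 256) (.e (nat_lit 57375) (nat_lit 2) (.e (nat_lit 90174) (nat_lit 14) (.e (nat_lit 180243) (nat_lit 5) (.e (nat_lit 532515) (nat_lit 3) (.e (nat_lit 114708) (nat_lit 20) .nil)))))))) (.g (nat_lit 5) .nil .nil))) 
(.lf (nat_lit 77362) (.g (nat_lit 4470) (.e (nat_lit 1800) (nat_lit 119) (.e (nat_lit 516115) (nat_lit 1) (.e (nat_lit 164399) (nat_lit 256) (.e (nat_lit 57379) (nat_lit 3) (.e (nat_lit 98367) (nat_lit 27) (.e (nat_lit 434231) (nat_lit 23) (.e (nat_lit 532514) (nat_lit 3) (.e (nat_lit 114708) (nat_lit 20) .nil)))))))) (.g (nat_lit 7) .nil .nil))))) (.nd (nat_lit 4) (.nd (nat_lit 5) 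
(.lf (nat_lit 77322) (.g (nat_lit 2498) (.e (nat_lit 1800) (nat_lit 119) (.e (nat_lit 516115) (nat_lit 1) (.e (nat_lit 164399) (nat_lit 256) (.e (nat_lit 57375) (nat_lit 2) (.e (nat_lit 90172) (nat_lit 14) (.e (nat_lit 180243) (nat_lit 5) (.e (nat_lit 532515) (nat_lit 3) (.e (nat_lit 114708) (nat_lit 20) .nil)))))))) (.g (nat_lit 4) .nil .nil))) 
(.lf (nat_lit 77354) (.g (nat_lit 2469) (.e (nat_lit 1800) (nat_lit 119) (.e (nat_lit 516115) (nat_lit 1) (.e (nat_lit 164399) (nat_lit 256) (.e (nat_lit 57379) (nat_lit 3) (.e (nat_lit 98355) (nat_lit 26) (.e (nat_lit 426131) (nat_lit 3) (.e (nat_lit 204838) (nat_lit 20) (.e (nat_lit 114708) (nat_lit 20) .nil)))))))) (.g (nat_lit 4) .nil .nil)))) (.nd (nat_lit 5) 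
(.lf (nat_lit 77338) (.g (nat_lit 4585) (.e (nat_lit 1800) (nat_lit 119) (.e (nat_lit 516115) (nat_lit 1) (.e (nat_lit 164399) (nat_lit 256) (.e (nat_lit 57378) (nat_lit 3) (.e (nat_lit 98356) (nat_lit 26) (.e (nat_lit 426131) (nat_lit 3) (.e (nat_lit 204838) (nat_lit 20) (.e (nat_lit 114708) (nat_lit 20) .nil)))))))) (.g (nat_lit 6) .nil .nil))) 
(.lf (nat_lit 77370) (.g (nat_lit 2789) (.e (nat_lit 1800) (nat_lit 119) (.e (nat_lit 516115) (nat_lit 1) (.e (nat_lit 164403) (nat_lit 256) (.e (nat_lit 57371) (nat_lit 2) (.e (nat_lit 90167) (nat_lit 13) (.e (nat_lit 172067) (nat_lit 3) (.e (nat_lit 204838) (nat_lit 20) (.e (nat_lit 114708) (nat_lit 20) .nil)))))))) (.g (nat_lit 4) .nil .nil)))))) 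
(.nd (nat_lit 3) (.nd (nat_lit 4) (.nd (nat_lit 5) 
(.lf (nat_lit 77318) (.g (nat_lit 2952) (.e (nat_lit 1800) (nat_lit 119) (.e (nat_lit 516115) (nat_lit 1) (.e (nat_lit 164399) (nat_lit 256) (.e (nat_lit 57375) (nat_lit 2) (.e (nat_lit 90167) (nat_lit 13) (.e (nat_lit 172067) (nat_lit 3) (.e (nat_lit 204838) (nat_lit 20) (.e (nat_lit 114708) (nat_lit 20) .nil)))))))) (.g (nat_lit 4) .nil .nil))) 
(.lf (nat_lit 77350) (.g (nat_lit 2944) (.e (nat_lit 1800) (nat_lit 119) (.e (nat_lit 516115) (nat_lit 1) (.e (nat_lit 164399) (nat_lit 256) (.e (nat_lit 57378) (nat_lit 3) (.e (nat_lit 98376) (nat_lit 30) (.e (nat_lit 458789) (nat_lit 23) (.e (nat_lit 532515) (nat_lit 3) (.e (nat_lit 114708) (nat_lit 20) .nil)))))))) (.g (nat_lit 5) .nil .nil)))) (.nd (nat_lit 5) 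
(.lf (nat_lit 77334) (.g (nat_lit 3182) (.e (nat_lit 1800) (nat_lit 119) (.e (nat_lit 516115) (nat_lit 1) (.e (nat_lit 164399) (nat_lit 256) (.e (nat_lit 57377) (nat_lit 3) (.e (nat_lit 98358) (nat_lit 26) (.e (nat_lit 426131) (nat_lit 3) (.e (nat_lit 204837) (nat_lit 20) (.e (nat_lit 114708) (nat_lit 20) .nil)))))))) (.g (nat_lit 4) .nil .nil))) 
(.lf (nat_lit 77366) (.g (nat_lit 2239) (.e (nat_lit 1800) (nat_lit 119) (.e (nat_lit 516115) (nat_lit 1) (.e (nat_lit 164400) (nat_lit 256) (.e (nat_lit 57372) (nat_lit 2) (.e (nat_lit 90172) (nat_lit 14) (.e (nat_lit 180243) (nat_lit 5) (.e (nat_lit 532513) (nat_lit 3) (.e (nat_lit 114708) (nat_lit 20) .nil)))))))) (.g (nat_lit 4) .nil .nil))))) (.nd (nat_lit 4) (.nd (nat_lit 5) 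
(.lf (nat_lit 77326) (.g (nat_lit 2711) (.e (nat_lit 1800) (nat_lit 119) (.e (nat_lit 516115) (nat_lit 1) (.e (nat_lit 164399) (nat_lit 256) (.e (nat_lit 57375) (nat_lit 2) (.e (nat_lit 90172) (nat_lit 14) (.e (nat_lit 180244) (nat_lit 5) (.e (nat_lit 532515) (nat_lit 3) (.e (nat_lit 114707) (nat_lit 20) .nil)))))))) (.g (nat_lit 4) .nil .nil))) 
(.lf (nat_lit 77358) (.g (nat_lit 2938) (.e (nat_lit 1800) (nat_lit 119) (.e (nat_lit 516115) (nat_lit 1) (.e (nat_lit 164399) (nat_lit 256) (.e (nat_lit 57379) (nat_lit 3) (.e (nat_lit 98366) (nat_lit 27) (.e (nat_lit 434231) (nat_lit 23) (.e (nat_lit 532513) (nat_lit 3) (.e (nat_lit 114708) (nat_lit 20) .nil)))))))) (.g (nat_lit 5) .nil .nil)))) (.nd (nat_lit 5) 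
(.lf (nat_lit 77342) (.g (nat_lit 4670) (.e (nat_lit 1800) (nat_lit 119) (.e (nat_lit 516115) (nat_lit 1) (.e (nat_lit 164399) (nat_lit 256) (.e (nat_lit 57378) (nat_lit 3) (.e (nat_lit 98358) (nat_lit 26) (.e (nat_lit 426131) (nat_lit 3) (.e (nat_lit 204838) (nat_lit 20) (.e (nat_lit 114708) (nat_lit 20) .nil)))))))) (.g (nat_lit 8) .nil .nil))) 
(.lf (nat_lit 77374) (.g (nat_lit 3105) (.e (nat_lit 1800) (nat_lit 119) (.e (nat_lit 516115) (nat_lit 1) (.e (nat_lit 164403) (nat_lit 256) (.e (nat_lit 57371) (nat_lit 2) (.e (nat_lit 90174) (nat_lit 14) (.e (nat_lit 180243) (nat_lit 5) (.e (nat_lit 532513) (nat_lit 3) (.e (nat_lit 114707) (nat_lit 20) .nil)))))))) (.g (nat_lit 4) .nil .nil)))))))) 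
(.nd (nat_lit 1) (.nd (nat_lit 2) (.nd (nat_lit 3) (.nd (nat_lit 4) (.nd (nat_lit 5) 
(.lf (nat_lit 77313) (.g (nat_lit 3522) (.e (nat_lit 1800) (nat_lit 119) (.e (nat_lit 516115) (nat_lit 1) (.e (nat_lit 164399) (nat_lit 256) (.e (nat_lit 57374) (nat_lit 2) (.e (nat_lit 90170) (nat_lit 13) (.e (nat_lit 172067) (nat_lit 3) (.e (nat_lit 204837) (nat_lit 20) (.e (nat_lit 114707) (nat_lit 20) .nil)))))))) (.g (nat_lit 5) .nil .nil))) 
(.lf (nat_lit 77345) (.g (nat_lit 2469) (.e (nat_lit 1800) (nat_lit 119) (.e (nat_lit 516115) (nat_lit 1) (.e (nat_lit 164399) (nat_lit 256) (.e (nat_lit 57378) (nat_lit 3) (.e (nat_lit 98366) (nat_lit 27) (.e (nat_lit 434231) (nat_lit 23) (.e (nat_lit 532514) (nat_lit 3) (.e (nat_lit 114707) (nat_lit 20) .nil)))))))) (.g (nat_lit 4) .nil .nil)))) (.nd (nat_lit 5) 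
(.lf (nat_lit 77329) (.g (nat_lit 4069) (.e (nat_lit 1800) (nat_lit 119) (.e (nat_lit 516115) (nat_lit 1) (.e (nat_lit 164399) (nat_lit 256) (.e (nat_lit 57375) (nat_lit 2) (.e (nat_lit 90174) (nat_lit 14) (.e (nat_lit 180243) (nat_lit 5) (.e (nat_lit 532513) (nat_lit 3) (.e (nat_lit 114708) (nat_lit 20) .nil)))))))) (.g (nat_lit 7) .nil .nil))) 
(.lf (nat_lit 77361) (.g (nat_lit 2524) (.e (nat_lit 1800) (nat_lit 119) (.e (nat_lit 516115) (nat_lit 1) (.e (nat_lit 164399) (nat_lit 256) (.e (nat_lit 57379) (nat_lit 3) (.e (nat_lit 98367) (nat_lit 27) (.e (nat_lit 434231) (nat_lit 23) (.e (nat_lit 532513) (nat_lit 3) (.e (nat_lit 114708) (nat_lit 20) .nil)))))))) (.g (nat_lit 4) .nil .nil))))) (.nd (nat_lit 4) (.nd (nat_lit 5) 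
(.lf (nat_lit 77321) (.g (nat_lit 3850) (.e (nat_lit 1800) (nat_lit 119) (.e (nat_lit 516115) (nat_lit 1) (.e (nat_lit 164399) (nat_lit 256) (.e (nat_lit 57375) (nat_lit 2) (.e (nat_lit 90172) (nat_lit 14) (.e (nat_lit 180243) (nat_lit 5) (.e (nat_lit 532513) (nat_lit 3) (.e (nat_lit 114708) (nat_lit 20) .nil)))))))) (.g (nat_lit 6) .nil .nil))) 
(.lf (nat_lit 77353) (.g (nat_lit 2198) (.e (nat_lit 1800) (nat_lit 119) (.e (nat_lit 516115) (nat_lit 1) (.e (nat_lit 164399) (nat_lit 256) (.e (nat_lit 57379) (nat_lit 3) (.e (nat_lit 98355) (nat_lit 26) (.e (nat_lit 426131) (nat_lit 3) (.e (nat_lit 204837) (nat_lit 20) (.e (nat_lit 114708) (nat_lit 20) .nil)))))))) (.g (nat_lit 4) .nil .nil)))) (.nd (nat_lit 5) 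
(.lf (nat_lit 77337) (.g (nat_lit 4314) (.e (nat_lit 1800) (nat_lit 119) (.e (nat_lit 516115) (nat_lit 1) (.e (nat_lit 164399) (nat_lit 256) (.e (nat_lit 57378) (nat_lit 3) (.e (nat_lit 98356) (nat_lit 26) (.e (nat_lit 426131) (nat_lit 3) (.e (nat_lit 204837) (nat_lit 20) (.e (nat_lit 114708) (nat_lit 20) .nil)))))))) (.g (nat_lit 6) .nil .nil))) 
(.lf (nat_lit 77369) (.g (nat_lit 3062) (.e (nat_lit 1800) (nat_lit 119) (.e (nat_lit 516115) (nat_lit 1) (.e (nat_lit 164403) (nat_lit 256) (.e (nat_lit 57371) (nat_lit 2) (.e (nat_lit 90167) (nat_lit 13) (.e (nat_lit 172067) (nat_lit 3) (.e (nat_lit 204837) (nat_lit 20) (.e (nat_lit 114708) (nat_lit 20) .nil)))))))) (.g (nat_lit 5) .nil .nil)))))) 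
(.nd (nat_lit 3) (.nd (nat_lit 4) (.nd (nat_lit 5) 
(.lf (nat_lit 77317) (.g (nat_lit 3171) (.e (nat_lit 1800) (nat_lit 119) (.e (nat_lit 516115) (nat_lit 1) (.e (nat_lit 164399) (nat_lit 256) (.e (nat_lit 57375) (nat_lit 2) (.e (nat_lit 90167) (nat_lit 13) (.e (nat_lit 172067) (nat_lit 3) (.e (nat_lit 204837) (nat_lit 20) (.e (nat_lit 114708) (nat_lit 20) .nil)))))))) (.g (nat_lit 4) .nil .nil))) 
(.lf (nat_lit 77349) (.g (nat_lit 3148) (.e (nat_lit 1800) (nat_lit 119) (.e (nat_lit 516115) (nat_lit 1) (.e (nat_lit 164399) (nat_lit 256) (.e (nat_lit 57378) (nat_lit 3) (.e (nat_lit 98368) (nat_lit 27) (.e (nat_lit 434231) (nat_lit 23) (.e (nat_lit 532514) (nat_lit 3) (.e (nat_lit 114708) (nat_lit 20) .nil)))))))) (.g (nat_lit 4) .nil .nil)))) (.nd (nat_lit 5) 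
(.lf (nat_lit 77333) (.g (nat_lit 3897) (.e (nat_lit 1800) (nat_lit 119) (.e (nat_lit 516115) (nat_lit 1) (.e (nat_lit 164399) (nat_lit 256) (.e (nat_lit 57377) (nat_lit 3) (.e (nat_lit 98357) (nat_lit 26) (.e (nat_lit 426131) (nat_lit 3) (.e (nat_lit 204837) (nat_lit 20) (.e (nat_lit 114708) (nat_lit 20) .nil)))))))) (.g (nat_lit 6) .nil .nil))) 
(.lf (nat_lit 77365) (.g (nat_lit 2869) (.e (nat_lit 1800) (nat_lit 119) (.e (nat_lit 516115) (nat_lit 1) (.e (nat_lit 164399) (nat_lit 256) (.e (nat_lit 57379) (nat_lit 3) (.e (nat_lit 98377) (nat_lit 30) (.e (nat_lit 458789) (nat_lit 23) (.e (nat_lit 532515) (nat_lit 3) (.e (nat_lit 114708) (nat_lit 20) .nil)))))))) (.g (nat_lit 5) .nil .nil))))) (.nd (nat_lit 4) (.nd (nat_lit 5) 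
(.lf (nat_lit 77325) (.g (nat_lit 3076) (.e (nat_lit 1800) (nat_lit 119) (.e (nat_lit 516115) (nat_lit 1) (.e (nat_lit 164399) (nat_lit 256) (.e (nat_lit 57375) (nat_lit 2) (.e (nat_lit 90172) (nat_lit 14) (.e (nat_lit 180244) (nat_lit 5) (.e (nat_lit 532514) (nat_lit 3) (.e (nat_lit 114708) (nat_lit 20) .nil)))))))) (.g (nat_lit 5) .nil .nil))) 
(.lf (nat_lit 77357) (.g (nat_lit 2409) (.e (nat_lit 1800) (nat_lit 119) (.e (nat_lit 516115) (nat_lit 1) (.e (nat_lit 164399) (nat_lit 256) (.e (nat_lit 57379) (nat_lit 3) (.e (nat_lit 98363) (nat_lit 26) (.e (nat_lit 426129) (nat_lit 3) (.e (nat_lit 204837) (nat_lit 20) (.e (nat_lit 114708) (nat_lit 20) .nil)))))))) (.g (nat_lit 4) .nil .nil)))) (.nd (nat_lit 5) 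
(.lf (nat_lit 77341) (.g (nat_lit 2564) (.e (nat_lit 1800) (nat_lit 119) (.e (nat_lit 516115) (nat_lit 1) (.e (nat_lit 164399) (nat_lit 256) (.e (nat_lit 57378) (nat_lit 3) (.e (nat_lit 98358) (nat_lit 26) (.e (nat_lit 426131) (nat_lit 3) (.e (nat_lit 204838) (nat_lit 20) (.e (nat_lit 114707) (nat_lit 20) .nil)))))))) (.g (nat_lit 4) .nil .nil))) 
(.lf (nat_lit 77373) (.g (nat_lit 2402) (.e (nat_lit 1800) (nat_lit 119) (.e (nat_lit 516115) (nat_lit 1) (.e (nat_lit 164403) (nat_lit 256) (.e (nat_lit 57371) (nat_lit 2) (.e (nat_lit 90172) (nat_lit 14) (.e (nat_lit 180244) (nat_lit 5) (.e (nat_lit 532515) (nat_lit 3) (.e (nat_lit 114708) (nat_lit 20) .nil)))))))) (.g (nat_lit 4) .nil .nil))))))) 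
(.nd (nat_lit 2) (.nd (nat_lit 3) (.nd (nat_lit 4) (.nd (nat_lit 5) 
(.lf (nat_lit 77315) (.g (nat_lit 2735) (.e (nat_lit 1800) (nat_lit 119) (.e (nat_lit 516115) (nat_lit 1) (.e (nat_lit 164399) (nat_lit 256) (.e (nat_lit 57374) (nat_lit 2) (.e (nat_lit 90170) (nat_lit 13) (.e (nat_lit 172067) (nat_lit 3) (.e (nat_lit 204838) (nat_lit 20) (.e (nat_lit 114707) (nat_lit 20) .nil)))))))) (.g (nat_lit 4) .nil .nil))) 
(.lf (nat_lit 77347) (.g (nat_lit 3163) (.e (nat_lit 1800) (nat_lit 119) (.e (nat_lit 516115) (nat_lit 1) (.e (nat_lit 164399) (nat_lit 256) (.e (nat_lit 57378) (nat_lit 3) (.e (nat_lit 98367) (nat_lit 27) (.e (nat_lit 434231) (nat_lit 23) (.e (nat_lit 532513) (nat_lit 3) (.e (nat_lit 114708) (nat_lit 20) .nil)))))))) (.g (nat_lit 5) .nil .nil)))) (.nd (nat_lit 5) 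
(.lf (nat_lit 77331) (.g (nat_lit 2840) (.e (nat_lit 1800) (nat_lit 119) (.e (nat_lit 516115) (nat_lit 1) (.e (nat_lit 164399) (nat_lit 256) (.e (nat_lit 57377) (nat_lit 3) (.e (nat_lit 98355) (nat_lit 26) (.e (nat_lit 426131) (nat_lit 3) (.e (nat_lit 204837) (nat_lit 20) (.e (nat_lit 114708) (nat_lit 20) .nil)))))))) (.g (nat_lit 4) .nil .nil))) 
(.lf (nat_lit 77363) (.g (nat_lit 2640) (.e (nat_lit 1800) (nat_lit 119) (.e (nat_lit 516115) (nat_lit 1) (.e (nat_lit 164399) (nat_lit 256) (.e (nat_lit 57379) (nat_lit 3) (.e (nat_lit 98376) (nat_lit 30) (.e (nat_lit 458789) (nat_lit 23) (.e (nat_lit 532515) (nat_lit 3) (.e (nat_lit 114708) (nat_lit 20) .nil)))))))) (.g (nat_lit 5) .nil .nil))))) (.nd (nat_lit 4) (.nd (nat_lit 5) 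
(.lf (nat_lit 77323) (.g (nat_lit 3650) (.e (nat_lit 1800) (nat_lit 119) (.e (nat_lit 516115) (nat_lit 1) (.e (nat_lit 164399) (nat_lit 256) (.e (nat_lit 57375) (nat_lit 2) (.e (nat_lit 90172) (nat_lit 14) (.e (nat_lit 180244) (nat_lit 5) (.e (nat_lit 532513) (nat_lit 3) (.e (nat_lit 114707) (nat_lit 20) .nil)))))))) (.g (nat_lit 5) .nil .nil))) 
(.lf (nat_lit 77355) (.g (nat_lit 3719) (.e (nat_lit 1800) (nat_lit 119) (.e (nat_lit 516115) (nat_lit 1) (.e (nat_lit 164399) (nat_lit 256) (.e (nat_lit 57379) (nat_lit 3) (.e (nat_lit 98356) (nat_lit 26) (.e (nat_lit 426131) (nat_lit 3) (.e (nat_lit 204837) (nat_lit 20) (.e (nat_lit 114708) (nat_lit 20) .nil)))))))) (.g (nat_lit 6) .nil .nil)))) (.nd (nat_lit 5) 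
(.lf (nat_lit 77339) (.g (nat_lit 3353) (.e (nat_lit 1800) (nat_lit 119) (.e (nat_lit 516115) (nat_lit 1) (.e (nat_lit 164399) (nat_lit 256) (.e (nat_lit 57378) (nat_lit 3) (.e (nat_lit 98357) (nat_lit 26) (.e (nat_lit 426131) (nat_lit 3) (.e (nat_lit 204837) (nat_lit 20) (.e (nat_lit 114708) (nat_lit 20) .nil)))))))) (.g (nat_lit 4) .nil .nil))) 
(.lf (nat_lit 77371) (.g (nat_lit 2431) (.e (nat_lit 1800) (nat_lit 119) (.e (nat_lit 516115) (nat_lit 1) (.e (nat_lit 164403) (nat_lit 256) (.e (nat_lit 57371) (nat_lit 2) (.e (nat_lit 90172) (nat_lit 14) (.e (nat_lit 180244) (nat_lit 5) (.e (nat_lit 532513) (nat_lit 3) (.e (nat_lit 114707) (nat_lit 20) .nil)))))))) (.g (nat_lit 4) .nil .nil)))))) 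
(.nd (nat_lit 3) (.nd (nat_lit 4) (.nd (nat_lit 5) 
(.lf (nat_lit 77319) (.g (nat_lit 2561) (.e (nat_lit 1800) (nat_lit 119) (.e (nat_lit 516115) (nat_lit 1) (.e (nat_lit 164399) (nat_lit 256) (.e (nat_lit 57375) (nat_lit 2) (.e (nat_lit 90168) (nat_lit 13) (.e (nat_lit 172067) (nat_lit 3) (.e (nat_lit 204837) (nat_lit 20) (.e (nat_lit 114708) (nat_lit 20) .nil)))))))) (.g (nat_lit 4) .nil .nil))) 
(.lf (nat_lit 77351) (.g (nat_lit 2171) (.e (nat_lit 1800) (nat_lit 119) (.e (nat_lit 516115) (nat_lit 1) (.e (nat_lit 164399) (nat_lit 256) (.e (nat_lit 57378) (nat_lit 3) (.e (nat_lit 98377) (nat_lit 30) .nil))))) .nil))) (.nd (nat_lit 5) 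
(.lf (nat_lit 77335) (.g (nat_lit 3856) (.e (nat_lit 1800) (nat_lit 119) (.e (nat_lit 516115) (nat_lit 1) (.e (nat_lit 164399) (nat_lit 256) (.e (nat_lit 57378) (nat_lit 3) (.e (nat_lit 98355) (nat_lit 26) (.e (nat_lit 426131) (nat_lit 3) (.e (nat_lit 204837) (nat_lit 20) (.e (nat_lit 114708) (nat_lit 20) .nil)))))))) (.g (nat_lit 5) .nil .nil))) 
(.lf (nat_lit 77367) (.g (nat_lit 2038) (.e (nat_lit 1800) (nat_lit 119) (.e (nat_lit 516115) (nat_lit 1) (.e (nat_lit 164400) (nat_lit 256) (.e (nat_lit 57375) (nat_lit 2) (.e (nat_lit 90172) (nat_lit 14) (.e (nat_lit 180243) (nat_lit 5) (.e (nat_lit 532513) (nat_lit 3) (.e (nat_lit 114708) (nat_lit 20) .nil)))))))) (.g (nat_lit 4) .nil .nil))))) (.nd (nat_lit 4) (.nd (nat_lit 5) 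
(.lf (nat_lit 77327) (.g (nat_lit 3596) (.e (nat_lit 1800) (nat_lit 119) (.e (nat_lit 516115) (nat_lit 1) (.e (nat_lit 164399) (nat_lit 256) (.e (nat_lit 57375) (nat_lit 2) (.e (nat_lit 90172) (nat_lit 14) (.e (nat_lit 180244) (nat_lit 5) (.e (nat_lit 532515) (nat_lit 3) (.e (nat_lit 114708) (nat_lit 20) .nil)))))))) (.g (nat_lit 6) .nil .nil))) 
(.lf (nat_lit 77359) (.g (nat_lit 2334) (.e (nat_lit 1800) (nat_lit 119) (.e (nat_lit 516115) (nat_lit 1) (.e (nat_lit 164399) (nat_lit 256) (.e (nat_lit 57379) (nat_lit 3) (.e (nat_lit 98366) (nat_lit 27) (.e (nat_lit 434231) (nat_lit 23) (.e (nat_lit 532514) (nat_lit 3) (.e (nat_lit 114707) (nat_lit 20) .nil)))))))) (.g (nat_lit 4) .nil .nil)))) (.nd (nat_lit 5) 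
(.lf (nat_lit 77343) (.g (nat_lit 2561) (.e (nat_lit 1800) (nat_lit 119) (.e (nat_lit 516115) (nat_lit 1) (.e (nat_lit 164399) (nat_lit 256) (.e (nat_lit 57378) (nat_lit 3) (.e (nat_lit 98363) (nat_lit 26) (.e (nat_lit 426129) (nat_lit 3) (.e (nat_lit 204837) (nat_lit 20) (.e (nat_lit 114708) (nat_lit 20) .nil)))))))) (.g (nat_lit 4) .nil .nil))) 
(.lf (nat_lit 77375) (.g (nat_lit 2556) (.e (nat_lit 1800) (nat_lit 119) (.e (nat_lit 516115) (nat_lit 1) (.e (nat_lit 164403) (nat_lit 256) (.e (nat_lit 57371) (nat_lit 2) (.e (nat_lit 90174) (nat_lit 14) (.e (nat_lit 180243) (nat_lit 5) (.e (nat_lit 532515) (nat_lit 3) (.e (nat_lit 114708) (nat_lit 20) .nil)))))))) (.g (nat_lit 4) .nil .nil)))))))))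


end

end Pool.Agent.Lib.MP_5854e1_co.Cz
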